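import Pool.Agent.AKU6.VZ476.R0
import Pool.Agent.AKU6.VZ476.R1
import Pool.Agent.AKU6.VZ476.R2
import Pool.Agent.AKU6.VZ476.R3

set_option autoImplicit false
set_option maxRecDepth 1000000

namespace Pool.Agent.AKU6.VZ476

open Pool.Agent.AKY Pool.Agent.AKU5

noncomputable def N0022 : T3 (List N0) := [[[], [], [[], [], [⟨nat_lit 0, [⟨nat_lit 2, [⟨nat_lit 2, nat_lit 480, nat_lit 960, nat_lit 4320, nat_lit 4752, nat_lit 1344, R6_90, R5_99, R11_28⟩]⟩]⟩,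
 ⟨nat_lit 2, [⟨nat_lit 2, [⟨nat_lit 2, nat_lit 528, nat_lit 1392, nat_lit 4416, nat_lit 18000, nat_lit 1440, R4_92, R11_375, R11_30⟩]⟩]⟩,
 ⟨nat_lit 3, [⟨nat_lit 0, [⟨nat_lit 0, nat_lit 672, nat_lit 1008, nat_lit 3120, nat_lit 4320, nat_lit 6768, R6_65, R3_90, R4_141⟩]⟩, ⟨nat_lit 3, [⟨nat_lit 0, nat_lit 816, nat_lit 1104, nat_lit 2784, nat_lit 4896, nat_lit 5472, R4_58, R3_102, R3_114⟩, ⟨nat_lit 3, nat_lit 912, nat_lit 1152, nat_lit 2832, nat_lit 14064, nat_lit 672, R4_59, R10_293, R10_14⟩]⟩]⟩,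
 ⟨nat_lit 4, [⟨nat_lit 7, [⟨nat_lit 7, nat_lit 960, nat_lit 480, nat_lit 4320, nat_lit 4752, nat_lit 1344, R6_90, R5_99, R11_28⟩]⟩]⟩,
 ⟨nat_lit 6, [⟨nat_lit 4, [⟨nat_lit 4, nat_lit 1008, nat_lit 672, nat_lit 3120, nat_lit 4320, nat_lit 6768, R6_65, R3_90, R4_141⟩]⟩, ⟨nat_lit 6, [⟨nat_lit 4, nat_lit 1104, nat_lit 816, nat_lit 2784, nat_lit 4896, nat_lit 5472, R4_58, R3_102, R3_114⟩, ⟨nat_lit 6, nat_lit 1152, nat_lit 912, nat_lit 2832, nat_lit 14064, nat_lit 672, R4_59, R10_293, R10_14⟩]⟩]⟩,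
 ⟨nat_lit 7, [⟨nat_lit 7, [⟨nat_lit 7, nat_lit 1392, nat_lit 528, nat_lit 4416, nat_lit 18000, nat_lit 1440, R4_92, R11_375, R11_30⟩]⟩]⟩], [], [], [], [⟨nat_lit 6, [⟨nat_lit 4, [⟨nat_lit 4, nat_lit 1584, nat_lit 768, nat_lit 3264, nat_lit 12336, nat_lit 6576, R6_68, R3_257, R7_137⟩]⟩]⟩]], [[⟨nat_lit 3, [⟨nat_lit 0, [⟨nat_lit 1, nat_lit 1920, nat_lit 672, nat_lit 432, nat_lit 2736, nat_lit 12240, R6_9, R10_57, R4_255⟩]⟩]⟩], [], [⟨nat_lit 3, [⟨nat_lit 0, [⟨nat_lit 0, nat_lit 2400, nat_lit 768, nat_lit 2640, nat_lit 720, nat_lit 6288, R6_55, R3_15, R4_131⟩]⟩, ⟨nat_lit 3, [⟨nat_lit 0, nat_lit 2544, nat_lit 864, nat_lit 2544, nat_lit 6048, nat_lit 6048, R4_53, R3_126, R3_126⟩]⟩]⟩,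
 ⟨nat_lit 7, [⟨nat_lit 3, [⟨nat_lit 3, nat_lit 2688, nat_lit 720, nat_lit 4464, nat_lit 12864, nat_lit 1056, R7_93, R12_268, R10_22⟩]⟩]⟩], [⟨nat_lit 3, [⟨nat_lit 3, [⟨nat_lit 0, nat_lit 2784, nat_lit 1104, nat_lit 816, nat_lit 5472, nat_lit 4896, R4_17, R3_114, R3_102⟩, ⟨nat_lit 1, nat_lit 2832, nat_lit 1152, nat_lit 912, nat_lit 4032, nat_lit 4608, R4_19, R10_84, R10_96⟩]⟩]⟩,
 ⟨nat_lit 7, [⟨nat_lit 7, [⟨nat_lit 3, nat_lit 3120, nat_lit 3744, nat_lit 3984, nat_lit 12960, nat_lit 576, R4_83, R12_270, R12_12⟩]⟩]⟩]], [[], [], [], [], [], [], [], [⟨nat_lit 4, [⟨nat_lit 7, [⟨nat_lit 1, nat_lit 3168, nat_lit 48, nat_lit 912, nat_lit 12096, nat_lit 7488, R6_19, R4_252, R11_156⟩]⟩]⟩]], [], [[], [], [], [], [⟨nat_lit 6, [⟨nat_lit 4, [⟨nat_lit 5, nat_lit 3360, nat_lit 3600, nat_lit 3216, nat_lit 96, nat_lit 48, R6_67,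 R12_2, R7_1⟩]⟩]⟩], [], [⟨nat_lit 4, [⟨nat_lit 7, [⟨nat_lit 5, nat_lit 3552, nat_lit 3648, nat_lit 3360, nat_lit 96, nat_lit 144, R6_70, R14_2, R12_3⟩]⟩]⟩,
 ⟨nat_lit 6, [⟨nat_lit 4, [⟨nat_lit 5, nat_lit 3648, nat_lit 3552, nat_lit 3360, nat_lit 144, nat_lit 15456, R6_70, R12_3, R14_322⟩]⟩, ⟨nat_lit 6, [⟨nat_lit 5, nat_lit 3744, nat_lit 3984, nat_lit 3120, nat_lit 576, nat_lit 12960, R4_65, R12_12, R12_270⟩]⟩, ⟨nat_lit 7, [⟨nat_lit 5, nat_lit 3888, nat_lit 3888, nat_lit 3072, nat_lit 1008, nat_lit 1008, R8_64, R12_21, R12_21⟩]⟩]⟩,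
 ⟨nat_lit 7, [⟨nat_lit 7, [⟨nat_lit 5, nat_lit 3984, nat_lit 3744, nat_lit 3120, nat_lit 12960, nat_lit 576, R4_65, R12_270, R12_12⟩]⟩]⟩]], [[], [], [], [⟨nat_lit 7, [⟨nat_lit 3, [⟨nat_lit 1, nat_lit 4272, nat_lit 1152, nat_lit 2064, nat_lit 4512, nat_lit 7584, R7_43, R11_94, R10_158⟩]⟩]⟩], [], [], [], [⟨nat_lit 4, [⟨nat_lit 7, [⟨nat_lit 1, nat_lit 4368, nat_lit 48, nat_lit 1392, nat_lit 14496, nat_lit 7632, R6_29, R5_302, R11_159⟩]⟩]⟩,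
 ⟨nat_lit 7, [⟨nat_lit 7, [⟨nat_lit 1, nat_lit 4416, nat_lit 528, nat_lit 1392, nat_lit 4752, nat_lit 7728, R4_29, R11_99, R11_161⟩]⟩]⟩]]], [[[⟨nat_lit 0, [⟨nat_lit 0, [⟨nat_lit 0, nat_lit 4512, nat_lit 5328, nat_lit 15840, nat_lit 8208, nat_lit 14400, R6_330, R6_171, R6_300⟩, ⟨nat_lit 1, nat_lit 4560, nat_lit 5472, nat_lit 16320, nat_lit 8592, nat_lit 14064, R6_340, R4_179, R4_293⟩, ⟨nat_lit 2, nat_lit 4608, nat_lit 5664, nat_lit 16080, nat_lit 4464, nat_lit 15216, R6_335, R8_93, R8_317⟩]⟩, ⟨nat_lit 2, [⟨nat_lit 2, nat_lit 4656, nat_lit 5808, nat_lit 4224, nat_lit 4704, nat_lit 1200, R13_88, R8_98, R5_25⟩]⟩]⟩,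
 ⟨nat_lit 3, [⟨nat_lit 0, [⟨nat_lit 0, nat_lit 4752, nat_lit 5376, nat_lit 15264, nat_lit 15120, nat_lit 14544, R8_318, R13_315, R6_303⟩, ⟨nat_lit 2, nat_lit 4848, nat_lit 5712, nat_lit 15984, nat_lit 13104, nat_lit 15792, R8_333, R9_273, R8_329⟩]⟩, ⟨nat_lit 2, [⟨nat_lit 2, nat_lit 4896, nat_lit 5856, nat_lit 3456, nat_lit 13200, nat_lit 1248, R9_72, R9_275, R5_26⟩]⟩, ⟨nat_lit 3, [⟨nat_lit 0, nat_lit 4944, nat_lit 5424, nat_lit 3264, nat_lit 15168, nat_lit 2592, R5_68, R13_316, R13_54⟩, ⟨nat_lit 2, nat_lit 5040, nat_lit 5760, nat_lit 3312, nat_lit 13152, nat_lit 1920, R5_69, R9_274, R9_40⟩]⟩]⟩], [], [⟨nat_lit 0, [⟨nat_lit 0, [⟨nat_lit 0, nat_lit 5136, nat_lit 528, nat_lit 15936, nat_lit 8496, nat_lit 96, R6_332, R6_177, R4_2⟩, ⟨nat_lit 2, nat_lit 5184, nat_lit 576, nat_lit 16176, nat_lit 4512, nat_lit 1488,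 R6_337, R8_94, R5_31⟩]⟩, ⟨nat_lit 2, [⟨nat_lit 2, nat_lit 5232, nat_lit 624, nat_lit 4272, nat_lit 4752, nat_lit 768, R13_89, R8_99, R11_16⟩]⟩]⟩,
 ⟨nat_lit 2, [⟨nat_lit 2, [⟨nat_lit 2, nat_lit 5280, nat_lit 960, nat_lit 17472, nat_lit 14688, nat_lit 864, R3_364, R5_306, R11_18⟩]⟩]⟩,
 ⟨nat_lit 3, [⟨nat_lit 0, [⟨nat_lit 0, nat_lit 5328, nat_lit 672, nat_lit 17712, nat_lit 16080, nat_lit 5328, R8_369, R13_335, R4_111⟩, ⟨nat_lit 2, nat_lit 5376, nat_lit 720, nat_lit 18576, nat_lit 13728, nat_lit 9936, R8_387, R9_286, R5_207⟩]⟩, ⟨nat_lit 2, [⟨nat_lit 2, nat_lit 5424, nat_lit 912, nat_lit 3504, nat_lit 13824, nat_lit 816, R9_73, R9_288, R11_17⟩]⟩, ⟨nat_lit 3, [⟨nat_lit 0, nat_lit 5472, nat_lit 768, nat_lit 3456, nat_lit 16128, nat_lit 3792, R5_72, R13_336, R3_79⟩, ⟨nat_lit 3, nat_lit 5568, nat_lit 816, nat_lit 3552,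 nat_lit 8832, nat_lit 480, R5_74, R3_184, R10_10⟩]⟩]⟩]], [[⟨nat_lit 0, [⟨nat_lit 0, [⟨nat_lit 0, nat_lit 5616, nat_lit 5616, nat_lit 15888, nat_lit 384, nat_lit 15888, R6_331, R8_8, R6_331⟩, ⟨nat_lit 1, nat_lit 5664, nat_lit 5808, nat_lit 16368, nat_lit 4368, nat_lit 14928, R6_341, R5_91, R4_311⟩, ⟨nat_lit 2, nat_lit 5712, nat_lit 6048, nat_lit 16128, nat_lit 3696, nat_lit 15360, R6_336, R9_77, R8_320⟩]⟩, ⟨nat_lit 2, [⟨nat_lit 2, nat_lit 5760, nat_lit 6144, nat_lit 4320, nat_lit 3936, nat_lit 3600, R13_90, R9_82, R5_75⟩]⟩]⟩,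
 ⟨nat_lit 1, [⟨nat_lit 0, [⟨nat_lit 0, nat_lit 5808, nat_lit 5664, nat_lit 14928, nat_lit 4368, nat_lit 16368, R4_311, R5_91, R6_341⟩, ⟨nat_lit 1, nat_lit 5856, nat_lit 5856, nat_lit 15120, nat_lit 4368, nat_lit 15120, R4_315, R11_91, R4_315⟩]⟩]⟩,
 ⟨nat_lit 3, [⟨nat_lit 0, [⟨nat_lit 0, nat_lit 6048, nat_lit 5712, nat_lit 15360, nat_lit 3696, nat_lit 16128, R8_320, R9_77, R6_336⟩]⟩, ⟨nat_lit 3, [⟨nat_lit 0, nat_lit 6144, nat_lit 5760, nat_lit 3600, nat_lit 3936, nat_lit 4320, R5_75, R9_82, R13_90⟩]⟩]⟩], [], [⟨nat_lit 0, [⟨nat_lit 0, [⟨nat_lit 0, nat_lit 6288, nat_lit 720, nat_lit 15984, nat_lit 480, nat_lit 2400, R6_333, R8_10, R4_50⟩, ⟨nat_lit 2, nat_lit 6336, nat_lit 768, nat_lit 16224, nat_lit 3744, nat_lit 1680, R6_338, R9_78, R5_35⟩]⟩, ⟨nat_lit 2, [⟨nat_lit 2, nat_lit 6384, nat_lit 816, nat_lit 4368, nat_lit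 3984, nat_lit 3600, R13_91, R9_83, R11_75⟩]⟩]⟩,
 ⟨nat_lit 1, [⟨nat_lit 0, [⟨nat_lit 0, nat_lit 6432, nat_lit 864, nat_lit 14976, nat_lit 5136, nat_lit 11232, R4_312, R5_107, R4_234⟩]⟩]⟩,
 ⟨nat_lit 3, [⟨nat_lit 0, [⟨nat_lit 0, nat_lit 6624, nat_lit 1008, nat_lit 17808, nat_lit 4608, nat_lit 7728, R8_371, R9_96, R4_161⟩]⟩, ⟨nat_lit 3, [⟨nat_lit 0, nat_lit 6672, nat_lit 1056, nat_lit 3744, nat_lit 4848, nat_lit 7152, R5_78, R9_101, R3_149⟩]⟩]⟩]], [[], [], [⟨nat_lit 0, [⟨nat_lit 0, [⟨nat_lit 0, nat_lit 6768, nat_lit 4320, nat_lit 16032, nat_lit 1008, nat_lit 672, R6_334, R4_21, R4_14⟩, ⟨nat_lit 2, nat_lit 6816, nat_lit 4512, nat_lit 16272, nat_lit 0, nat_lit 1584, R6_339, R5_0, R5_33⟩]⟩, ⟨nat_lit 2, [⟨nat_lit 2, nat_lit 6864, nat_lit 4656, nat_lit 4416, nat_lit 5040, nat_lit 1488, R13_92, R5_105, R11_31⟩]⟩]⟩,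
 ⟨nat_lit 2, [⟨nat_lit 2, [⟨nat_lit 2, nat_lit 6912, nat_lit 4752, nat_lit 17568, nat_lit 18192, nat_lit 1584, R3_366, R11_379, R11_33⟩]⟩]⟩,
 ⟨nat_lit 3, [⟨nat_lit 0, [⟨nat_lit 0, nat_lit 7056, nat_lit 4368, nat_lit 17856, nat_lit 4368, nat_lit 7056, R8_372, R3_91, R4_147⟩]⟩, ⟨nat_lit 3, [⟨nat_lit 0, nat_lit 7200, nat_lit 4416, nat_lit 4224, nat_lit 4944, nat_lit 5520, R5_88, R3_103, R3_115⟩, ⟨nat_lit 3, nat_lit 7296, nat_lit 4464, nat_lit 4320, nat_lit 14256, nat_lit 816, R5_90, R10_297, R10_17⟩]⟩]⟩]], [[⟨nat_lit 3, [⟨nat_lit 0, [⟨nat_lit 1, nat_lit 7440, nat_lit 7632, nat_lit 16512, nat_lit 2832, nat_lit 14640, R8_344, R10_59, R4_305⟩]⟩]⟩], [], [⟨nat_lit 3, [⟨nat_lit 0, [⟨nat_lit 0, nat_lit 7728, nat_lit 240, nat_lit 17760, nat_lit 1008, nat_lit 6624, R8_370, R3_21, R4_138⟩]⟩, ⟨nat_lit 3, [⟨nat_lit 0, nat_lit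 7872, nat_lit 336, nat_lit 4128, nat_lit 6192, nat_lit 6096, R5_86, R3_129, R3_127⟩]⟩]⟩], [⟨nat_lit 3, [⟨nat_lit 3, [⟨nat_lit 0, nat_lit 7968, nat_lit 96, nat_lit 3984, nat_lit 5616, nat_lit 5184, R5_83, R3_117, R3_108⟩, ⟨nat_lit 1, nat_lit 8016, nat_lit 144, nat_lit 4080, nat_lit 4080, nat_lit 4656, R5_85, R10_85, R10_97⟩]⟩]⟩]]], [[], [], [], [], [[], [], [], [], [⟨nat_lit 4, [⟨nat_lit 4, [⟨nat_lit 1, nat_lit 8592, nat_lit 12912, nat_lit 9792, nat_lit 14064, nat_lit 4560, R6_204, R4_293, R4_95⟩, ⟨nat_lit 5, nat_lit 8640, nat_lit 12720, nat_lit 10032, nat_lit 15456, nat_lit 4704, R6_209, R7_322, R7_98⟩]⟩, ⟨nat_lit 5, [⟨nat_lit 1, nat_lit 8688, nat_lit 12960, nat_lit 10800, nat_lit 14112, nat_lit 144, R4_225, R4_294, R3_3⟩]⟩]⟩], [⟨nat_lit 4, [⟨nat_lit 5, [⟨nat_lit 1, nat_lit 8880, nat_lit 13104, nat_lit 10848,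 nat_lit 14544, nat_lit 2784, R4_226, R4_303, R10_58⟩]⟩]⟩], [], [⟨nat_lit 4, [⟨nat_lit 4, [⟨nat_lit 1, nat_lit 8976, nat_lit 14064, nat_lit 9840, nat_lit 14256, nat_lit 8016, R6_205, R4_297, R5_167⟩]⟩, ⟨nat_lit 7, [⟨nat_lit 1, nat_lit 9072, nat_lit 14112, nat_lit 10752, nat_lit 14304, nat_lit 7536, R8_224, R4_298, R11_157⟩]⟩]⟩]], [], [[], [], [], [], [⟨nat_lit 4, [⟨nat_lit 4, [⟨nat_lit 5, nat_lit 9216, nat_lit 3072, nat_lit 10080, nat_lit 672, nat_lit 4896, R6_210, R14_14, R7_102⟩]⟩]⟩,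
 ⟨nat_lit 6, [⟨nat_lit 4, [⟨nat_lit 5, nat_lit 9360, nat_lit 3120, nat_lit 2304, nat_lit 384, nat_lit 4992, R13_48, R12_8, R7_104⟩]⟩]⟩]], [[], [], [], [], [], [], [], [⟨nat_lit 4, [⟨nat_lit 4, [⟨nat_lit 1, nat_lit 10560, nat_lit 1968, nat_lit 9888, nat_lit 16848, nat_lit 8304, R6_206, R5_351, R5_173⟩]⟩, ⟨nat_lit 7, [⟨nat_lit 1, nat_lit 10656, nat_lit 2064, nat_lit 10848, nat_lit 17184, nat_lit 7680, R8_226, R5_358, R11_160⟩]⟩]⟩,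
 ⟨nat_lit 7, [⟨nat_lit 7, [⟨nat_lit 1, nat_lit 10704, nat_lit 2112, nat_lit 624, nat_lit 4800, nat_lit 7776, R5_13, R11_100, R11_162⟩]⟩]⟩]]], [[], [], [], [[⟨nat_lit 3, [⟨nat_lit 0, [⟨nat_lit 0, nat_lit 10800, nat_lit 8688, nat_lit 14112, nat_lit 144, nat_lit 12960, R4_294, R3_3, R6_270⟩, ⟨nat_lit 1, nat_lit 10848, nat_lit 8880, nat_lit 14544, nat_lit 2784, nat_lit 13104, R4_303, R10_58, R4_273⟩]⟩]⟩,
 ⟨nat_lit 7, [⟨nat_lit 3, [⟨nat_lit 3, nat_lit 11184, nat_lit 9744, nat_lit 4128, nat_lit 12768, nat_lit 13920, R14_86, R12_266, R3_290⟩]⟩]⟩], [], [⟨nat_lit 3, [⟨nat_lit 0, [⟨nat_lit 0, nat_lit 11232, nat_lit 5136, nat_lit 14976, nat_lit 864, nat_lit 6432, R4_312, R3_18, R4_134⟩]⟩]⟩,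
 ⟨nat_lit 7, [⟨nat_lit 3, [⟨nat_lit 3, nat_lit 11472, nat_lit 5280, nat_lit 4272, nat_lit 12912, nat_lit 1488, R14_89, R12_269, R10_31⟩]⟩]⟩]], [[], [], [], [⟨nat_lit 4, [⟨nat_lit 3, [⟨nat_lit 1, nat_lit 11520, nat_lit 14640, nat_lit 12288, nat_lit 13488, nat_lit 7008, R7_256, R4_281, R10_146⟩]⟩]⟩], [], [], [], [⟨nat_lit 4, [⟨nat_lit 7, [⟨nat_lit 1, nat_lit 11616, nat_lit 13344, nat_lit 11616, nat_lit 13344, nat_lit 7584, R4_242, R4_278, R11_158⟩]⟩]⟩]], [], [], [[⟨nat_lit 7, [⟨nat_lit 0, [⟨nat_lit 1, nat_lit 11856, nat_lit 8832, nat_lit 16416, nat_lit 4416, nat_lit 12432, R7_342, R11_92, R4_259⟩]⟩]⟩], [], [], [⟨nat_lit 4, [⟨nat_lit 3, [⟨nat_lit 1, nat_lit 11952, nat_lit 384, nat_lit 12528, nat_lit 14976, nat_lit 7344, R7_261, R5_312, R10_153⟩]⟩]⟩,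
 ⟨nat_lit 7, [⟨nat_lit 3, [⟨nat_lit 1, nat_lit 12048, nat_lit 432, nat_lit 4032, nat_lit 4560, nat_lit 7632, R14_84, R11_95, R10_159⟩]⟩]⟩]]], [[], [], [], [], [[], [⟨nat_lit 4, [⟨nat_lit 1, [⟨nat_lit 1, nat_lit 12096, nat_lit 13536, nat_lit 10752, nat_lit 3168, nat_lit 7488, R6_224, R4_66, R11_156⟩]⟩]⟩,
 ⟨nat_lit 5, [⟨nat_lit 0, [⟨nat_lit 1, nat_lit 12144, nat_lit 13584, nat_lit 15168, nat_lit 16032, nat_lit 1008, R6_316, R3_334, R5_21⟩]⟩, ⟨nat_lit 1, [⟨nat_lit 1, nat_lit 12192, nat_lit 13632, nat_lit 13728, nat_lit 16128, nat_lit 7824, R13_286, R3_336, R11_163⟩]⟩]⟩]], [[⟨nat_lit 5, [⟨nat_lit 0, [⟨nat_lit 1, nat_lit 12240, nat_lit 8304, nat_lit 15120, nat_lit 0, nat_lit 1920, R6_315, R10_0, R4_40⟩]⟩]⟩], [⟨nat_lit 5, [⟨nat_lit 0, [⟨nat_lit 1, nat_lit 12288, nat_lit 19056, nat_lit 15216, nat_lit 336, nat_lit 1152,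 R6_317, R10_7, R5_24⟩]⟩, ⟨nat_lit 1, [⟨nat_lit 1, nat_lit 12336, nat_lit 19104, nat_lit 13776, nat_lit 384, nat_lit 9504, R13_287, R10_8, R11_198⟩]⟩]⟩]]], [[], [[⟨nat_lit 1, [⟨nat_lit 0, [⟨nat_lit 0, nat_lit 12384, nat_lit 8784, nat_lit 16272, nat_lit 4416, nat_lit 11184, R7_339, R5_92, R6_233⟩, ⟨nat_lit 1, nat_lit 12432, nat_lit 8832, nat_lit 16416, nat_lit 4416, nat_lit 11856, R7_342, R11_92, R4_247⟩]⟩]⟩]], [], [], [], [[⟨nat_lit 5, [⟨nat_lit 0, [⟨nat_lit 1, nat_lit 13104, nat_lit 8880, nat_lit 14544, nat_lit 6960, nat_lit 10848, R4_303, R10_145, R4_226⟩]⟩]⟩], [⟨nat_lit 5, [⟨nat_lit 0, [⟨nat_lit 1, nat_lit 13248, nat_lit 15264, nat_lit 14592, nat_lit 7152, nat_lit 13200, R4_304, R10_149, R5_275⟩]⟩, ⟨nat_lit 1, [⟨nat_lit 1, nat_lit 13296, nat_lit 15312, nat_lit 10464, nat_lit 7200, nat_lit 9648, R3_218, R10_150,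 R11_201⟩]⟩]⟩]]], [[], [], [], [], [[], [⟨nat_lit 4, [⟨nat_lit 1, [⟨nat_lit 1, nat_lit 13344, nat_lit 13344, nat_lit 11616, nat_lit 11616, nat_lit 7584, R4_242, R4_242, R11_158⟩]⟩]⟩,
 ⟨nat_lit 5, [⟨nat_lit 1, [⟨nat_lit 1, nat_lit 13392, nat_lit 13392, nat_lit 16752, nat_lit 16752, nat_lit 7920, R3_349, R3_349, R11_165⟩]⟩]⟩], [], [], [], [⟨nat_lit 4, [⟨nat_lit 5, [⟨nat_lit 1, nat_lit 13488, nat_lit 14640, nat_lit 12288, nat_lit 11520, nat_lit 14400, R7_256, R4_240, R10_300⟩]⟩]⟩]]], [[], [], [], [], [[⟨nat_lit 4, [⟨nat_lit 0, [⟨nat_lit 1, nat_lit 14064, nat_lit 12912, nat_lit 9792, nat_lit 8592, nat_lit 4560, R6_204, R4_179, R4_95⟩]⟩, ⟨nat_lit 3, [⟨nat_lit 1, nat_lit 14112, nat_lit 12960, nat_lit 10800, nat_lit 8688, nat_lit 144, R4_225, R4_181, R3_3⟩]⟩]⟩,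
 ⟨nat_lit 5, [⟨nat_lit 0, [⟨nat_lit 1, nat_lit 14160, nat_lit 13344, nat_lit 16464, nat_lit 11376, nat_lit 4800, R8_343, R3_237, R4_100⟩]⟩, ⟨nat_lit 3, [⟨nat_lit 1, nat_lit 14208, nat_lit 13392, nat_lit 13104, nat_lit 11472, nat_lit 192, R5_273, R3_239, R3_4⟩]⟩]⟩], [⟨nat_lit 4, [⟨nat_lit 0, [⟨nat_lit 1, nat_lit 14256, nat_lit 14064, nat_lit 9840, nat_lit 8976, nat_lit 8016, R6_205, R4_187, R5_167⟩]⟩, ⟨nat_lit 1, [⟨nat_lit 1, nat_lit 14304, nat_lit 14112, nat_lit 10752, nat_lit 9072, nat_lit 7536, R8_224, R4_189, R11_157⟩]⟩]⟩,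
 ⟨nat_lit 5, [⟨nat_lit 0, [⟨nat_lit 1, nat_lit 14400, nat_lit 14208, nat_lit 16608, nat_lit 16368, nat_lit 9264, R8_346, R3_341, R5_193⟩]⟩, ⟨nat_lit 1, [⟨nat_lit 1, nat_lit 14448, nat_lit 14256, nat_lit 11376, nat_lit 16560, nat_lit 7872, R9_237, R3_345, R11_164⟩]⟩]⟩], [], [⟨nat_lit 4, [⟨nat_lit 3, [⟨nat_lit 1, nat_lit 14544, nat_lit 13104, nat_lit 10848, nat_lit 8880, nat_lit 6960, R4_226, R4_185, R10_145⟩]⟩]⟩,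
 ⟨nat_lit 5, [⟨nat_lit 3, [⟨nat_lit 1, nat_lit 14592, nat_lit 13248, nat_lit 13200, nat_lit 15264, nat_lit 7152, R5_275, R3_318, R10_149⟩]⟩]⟩]], [[⟨nat_lit 5, [⟨nat_lit 0, [⟨nat_lit 1, nat_lit 14640, nat_lit 7632, nat_lit 16512, nat_lit 8736, nat_lit 7440, R8_344, R10_182, R4_155⟩]⟩]⟩], [⟨nat_lit 5, [⟨nat_lit 0, [⟨nat_lit 1, nat_lit 14736, nat_lit 15360, nat_lit 16656, nat_lit 9456, nat_lit 9504, R8_347, R10_197, R5_198⟩]⟩, ⟨nat_lit 1, [⟨nat_lit 1, nat_lit 14784, nat_lit 15408, nat_lit 11424, nat_lit 9552, nat_lit 9552, R9_238, R10_199, R11_199⟩]⟩]⟩], [], [⟨nat_lit 5, [⟨nat_lit 3, [⟨nat_lit 1, nat_lit 14880, nat_lit 16224, nat_lit 13344, nat_lit 9264, nat_lit 8544, R5_278, R10_193, R10_178⟩]⟩]⟩]], [], [[⟨nat_lit 4, [⟨nat_lit 0, [⟨nat_lit 1, nat_lit 14928, nat_lit 5808, nat_lit 10176, nat_lit 4368, nat_lit 5664,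 R6_212, R5_91, R4_118⟩]⟩, ⟨nat_lit 3, [⟨nat_lit 1, nat_lit 14976, nat_lit 6432, nat_lit 11232, nat_lit 5136, nat_lit 864, R4_234, R5_107, R3_18⟩]⟩]⟩,
 ⟨nat_lit 7, [⟨nat_lit 0, [⟨nat_lit 1, nat_lit 15120, nat_lit 5856, nat_lit 15120, nat_lit 4368, nat_lit 5856, R4_315, R11_91, R4_122⟩]⟩]⟩], [⟨nat_lit 4, [⟨nat_lit 0, [⟨nat_lit 1, nat_lit 15168, nat_lit 8784, nat_lit 10224, nat_lit 4656, nat_lit 8160, R6_213, R5_97, R5_170⟩]⟩, ⟨nat_lit 1, [⟨nat_lit 1, nat_lit 15216, nat_lit 8928, nat_lit 10800, nat_lit 6288, nat_lit 8400, R8_225, R5_131, R11_175⟩]⟩]⟩,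
 ⟨nat_lit 7, [⟨nat_lit 0, [⟨nat_lit 1, nat_lit 15456, nat_lit 8880, nat_lit 15456, nat_lit 4656, nat_lit 8880, R4_322, R11_97, R5_185⟩]⟩, ⟨nat_lit 1, [⟨nat_lit 1, nat_lit 15504, nat_lit 9024, nat_lit 17088, nat_lit 4704, nat_lit 8544, R5_356, R11_98, R11_178⟩]⟩]⟩]]]]
noncomputable def N0032 : T3 (List N0) := [[[[], [], [⟨nat_lit 6, [⟨nat_lit 4, [⟨nat_lit 4, nat_lit 384, nat_lit 2496, nat_lit 2496, nat_lit 5616, nat_lit 5616, R6_52, R4_117, R4_117⟩, ⟨nat_lit 7, nat_lit 432, nat_lit 2544, nat_lit 2544, nat_lit 8064, nat_lit 8064, R6_53, R5_168, R5_168⟩]⟩, ⟨nat_lit 7, [⟨nat_lit 7, nat_lit 576, nat_lit 2592, nat_lit 3216, nat_lit 8352, nat_lit 1776, R8_67, R5_174, R11_37⟩]⟩]⟩]], [], [], [[⟨nat_lit 3, [⟨nat_lit 0, [⟨nat_lit 2, nat_lit 1488, nat_lit 768, nat_lit 288, nat_lit 48, nat_lit 12192, R6_6, R11_1, R8_254⟩]⟩,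 ⟨nat_lit 3, [⟨nat_lit 2, nat_lit 1584, nat_lit 1344, nat_lit 192, nat_lit 192, nat_lit 2208, R4_4, R11_4, R9_46⟩]⟩]⟩], [], [⟨nat_lit 2, [⟨nat_lit 6, [⟨nat_lit 4, nat_lit 2016, nat_lit 2592, nat_lit 4128, nat_lit 8784, nat_lit 7632, R7_86, R2_183, R3_159⟩, ⟨nat_lit 6, nat_lit 2064, nat_lit 2688, nat_lit 4176, nat_lit 768, nat_lit 1152, R7_87, R12_16, R10_24⟩]⟩]⟩,
 ⟨nat_lit 3, [⟨nat_lit 0, [⟨nat_lit 2, nat_lit 2160, nat_lit 2400, nat_lit 2592, nat_lit 1776, nat_lit 8352, R6_54, R11_37, R5_174⟩]⟩, ⟨nat_lit 2, [⟨nat_lit 2, nat_lit 2208, nat_lit 2544, nat_lit 3648, nat_lit 1872, nat_lit 1872, R8_76, R11_39, R11_39⟩]⟩]⟩,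
 ⟨nat_lit 6, [⟨nat_lit 4, [⟨nat_lit 7, nat_lit 2400, nat_lit 2160, nat_lit 2592, nat_lit 1776, nat_lit 8352, R6_54, R11_37, R5_174⟩]⟩, ⟨nat_lit 7, [⟨nat_lit 7, nat_lit 2544, nat_lit 2208, nat_lit 3648, nat_lit 1872, nat_lit 1872, R8_76, R11_39, R11_39⟩]⟩]⟩,
 ⟨nat_lit 7, [⟨nat_lit 3, [⟨nat_lit 0, nat_lit 2592, nat_lit 2016, nat_lit 4128, nat_lit 8784, nat_lit 7632, R7_86, R2_183, R3_159⟩, ⟨nat_lit 3, nat_lit 2688, nat_lit 2064, nat_lit 4176, nat_lit 768, nat_lit 1152, R7_87, R12_16, R10_24⟩]⟩]⟩], [⟨nat_lit 7, [⟨nat_lit 7, [⟨nat_lit 3, nat_lit 3072, nat_lit 3888, nat_lit 3888, nat_lit 1008, nat_lit 1008, R4_81, R12_21, R12_21⟩]⟩]⟩]], [[], [], [], [], [], [], [], [⟨nat_lit 4, [⟨nat_lit 7, [⟨nat_lit 1, nat_lit 3120, nat_lit 288, nat_lit 768, nat_lit 12192, nat_lit 10368, R6_16, R8_254, R11_216⟩]⟩]⟩,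
 ⟨nat_lit 6, [⟨nat_lit 4, [⟨nat_lit 1, nat_lit 3168, nat_lit 2160, nat_lit 2832, nat_lit 8208, nat_lit 1776, R6_59, R5_171, R5_37⟩]⟩, ⟨nat_lit 7, [⟨nat_lit 1, nat_lit 3216, nat_lit 2592, nat_lit 576, nat_lit 8352, nat_lit 10512, R8_12, R5_174, R11_219⟩]⟩]⟩]], [], [[], [], [], [], [⟨nat_lit 6, [⟨nat_lit 4, [⟨nat_lit 1, nat_lit 3264, nat_lit 3792, nat_lit 2784, nat_lit 288, nat_lit 0, R6_58, R11_6, R4_0⟩]⟩]⟩], [], [], [⟨nat_lit 4, [⟨nat_lit 7, [⟨nat_lit 1, nat_lit 3552, nat_lit 288, nat_lit 2928, nat_lit 1872, nat_lit 10656, R6_61, R5_39, R11_222⟩]⟩]⟩,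
 ⟨nat_lit 6, [⟨nat_lit 4, [⟨nat_lit 1, nat_lit 3600, nat_lit 1536, nat_lit 2928, nat_lit 336, nat_lit 1872, R6_61, R11_7, R5_39⟩]⟩, ⟨nat_lit 7, [⟨nat_lit 1, nat_lit 3648, nat_lit 2208, nat_lit 2544, nat_lit 1872, nat_lit 10800, R8_53, R11_39, R11_225⟩]⟩]⟩]], [[], [], [], [⟨nat_lit 4, [⟨nat_lit 7, [⟨nat_lit 3, nat_lit 3840, nat_lit 336, nat_lit 1920, nat_lit 11664, nat_lit 720, R6_40, R3_243, R12_15⟩]⟩]⟩,
 ⟨nat_lit 6, [⟨nat_lit 7, [⟨nat_lit 3, nat_lit 3984, nat_lit 2400, nat_lit 1392, nat_lit 1152, nat_lit 768, R8_29, R10_24, R12_16⟩]⟩]⟩,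
 ⟨nat_lit 7, [⟨nat_lit 3, [⟨nat_lit 0, nat_lit 4032, nat_lit 1392, nat_lit 1824, nat_lit 14352, nat_lit 14352, R7_38, R3_299, R3_299⟩]⟩]⟩], [], [], [], [⟨nat_lit 4, [⟨nat_lit 7, [⟨nat_lit 1, nat_lit 4272, nat_lit 192, nat_lit 1344, nat_lit 2208, nat_lit 10944, R6_28, R9_46, R11_228⟩]⟩]⟩]]], [[[⟨nat_lit 0, [⟨nat_lit 0, [⟨nat_lit 2, nat_lit 4464, nat_lit 6816, nat_lit 15264, nat_lit 4608, nat_lit 15168, R6_318, R4_96, R8_316⟩]⟩, ⟨nat_lit 2, [⟨nat_lit 2, nat_lit 4512, nat_lit 6960, nat_lit 3408, nat_lit 5184, nat_lit 1488, R13_71, R4_108, R5_31⟩]⟩]⟩,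
 ⟨nat_lit 3, [⟨nat_lit 0, [⟨nat_lit 2, nat_lit 4560, nat_lit 6864, nat_lit 15840, nat_lit 7968, nat_lit 15744, R8_330, R5_166, R8_328⟩]⟩, ⟨nat_lit 2, [⟨nat_lit 2, nat_lit 4608, nat_lit 7008, nat_lit 2496, nat_lit 8544, nat_lit 1536, R9_52, R5_178, R5_32⟩]⟩, ⟨nat_lit 3, [⟨nat_lit 2, nat_lit 4656, nat_lit 6912, nat_lit 2208, nat_lit 8256, nat_lit 2016, R5_46, R5_172, R9_42⟩]⟩]⟩], [], [⟨nat_lit 0, [⟨nat_lit 0, [⟨nat_lit 2, nat_lit 4704, nat_lit 1872, nat_lit 15360, nat_lit 4656, nat_lit 1200, R6_320, R4_97, R5_25⟩]⟩, ⟨nat_lit 2, [⟨nat_lit 2, nat_lit 4752, nat_lit 1968, nat_lit 3456, nat_lit 5232, nat_lit 1056, R13_72, R4_109, R11_22⟩]⟩]⟩,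
 ⟨nat_lit 2, [⟨nat_lit 6, [⟨nat_lit 4, nat_lit 4896, nat_lit 2160, nat_lit 2400, nat_lit 5808, nat_lit 1296, R2_50, R7_121, R3_27⟩, ⟨nat_lit 6, nat_lit 4944, nat_lit 2208, nat_lit 2448, nat_lit 16032, nat_lit 1008, R2_51, R14_334, R10_21⟩]⟩]⟩,
 ⟨nat_lit 3, [⟨nat_lit 0, [⟨nat_lit 2, nat_lit 4992, nat_lit 2016, nat_lit 18432, nat_lit 10176, nat_lit 9552, R8_384, R5_212, R5_199⟩]⟩, ⟨nat_lit 2, [⟨nat_lit 2, nat_lit 5040, nat_lit 2112, nat_lit 2544, nat_lit 10368, nat_lit 1104, R9_53, R5_216, R11_23⟩]⟩]⟩]], [[⟨nat_lit 0, [⟨nat_lit 0, [⟨nat_lit 2, nat_lit 5136, nat_lit 7392, nat_lit 15312, nat_lit 288, nat_lit 15312, R6_319, R3_6, R8_319⟩]⟩, ⟨nat_lit 2, [⟨nat_lit 2, nat_lit 5184, nat_lit 7584, nat_lit 3552, nat_lit 3888, nat_lit 3840, R13_74, R3_81, R5_80⟩]⟩]⟩,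
 ⟨nat_lit 1, [⟨nat_lit 0, [⟨nat_lit 2, nat_lit 5232, nat_lit 7440, nat_lit 14640, nat_lit 2832, nat_lit 16512, R4_305, R10_59, R8_344⟩]⟩, ⟨nat_lit 2, [⟨nat_lit 2, nat_lit 5280, nat_lit 7632, nat_lit 3264, nat_lit 3504, nat_lit 3936, R3_68, R10_73, R5_82⟩]⟩]⟩], [], [⟨nat_lit 0, [⟨nat_lit 0, [⟨nat_lit 2, nat_lit 5472, nat_lit 2256, nat_lit 15408, nat_lit 384, nat_lit 1344, R6_321, R3_8, R5_28⟩]⟩, ⟨nat_lit 2, [⟨nat_lit 2, nat_lit 5520, nat_lit 2352, nat_lit 3600, nat_lit 3984, nat_lit 3840, R13_75, R3_83, R11_80⟩]⟩]⟩,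
 ⟨nat_lit 1, [⟨nat_lit 0, [⟨nat_lit 2, nat_lit 5616, nat_lit 2400, nat_lit 14688, nat_lit 2880, nat_lit 13248, R4_306, R10_60, R5_276⟩]⟩, ⟨nat_lit 2, [⟨nat_lit 2, nat_lit 5664, nat_lit 2496, nat_lit 3312, nat_lit 3552, nat_lit 3936, R3_69, R10_74, R11_82⟩]⟩]⟩,
 ⟨nat_lit 2, [⟨nat_lit 6, [⟨nat_lit 6, nat_lit 5808, nat_lit 2688, nat_lit 2496, nat_lit 13104, nat_lit 1248, R2_52, R12_273, R10_26⟩]⟩]⟩]], [[], [], [⟨nat_lit 2, [⟨nat_lit 6, [⟨nat_lit 4, nat_lit 6048, nat_lit 7008, nat_lit 2832, nat_lit 4224, nat_lit 6480, R2_59, R2_88, R3_135⟩, ⟨nat_lit 6, nat_lit 6096, nat_lit 7104, nat_lit 2880, nat_lit 13296, nat_lit 1104, R2_60, R12_277, R10_23⟩]⟩]⟩], [], [], [], [⟨nat_lit 2, [⟨nat_lit 6, [⟨nat_lit 4, nat_lit 6144, nat_lit 720, nat_lit 2688, nat_lit 12912, nat_lit 13056, R2_56, R2_269, R2_272⟩]⟩]⟩]], [[⟨nat_lit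 3, [⟨nat_lit 0, [⟨nat_lit 2, nat_lit 6288, nat_lit 7824, nat_lit 15888, nat_lit 10416, nat_lit 15888, R8_331, R11_217, R8_331⟩]⟩, ⟨nat_lit 2, [⟨nat_lit 2, nat_lit 6336, nat_lit 9120, nat_lit 2688, nat_lit 10992, nat_lit 2400, R9_56, R11_229, R5_50⟩]⟩, ⟨nat_lit 3, [⟨nat_lit 2, nat_lit 6384, nat_lit 8784, nat_lit 2400, nat_lit 10704, nat_lit 2688, R5_50, R11_223, R9_56⟩]⟩]⟩], [], [⟨nat_lit 2, [⟨nat_lit 6, [⟨nat_lit 4, nat_lit 6528, nat_lit 1344, nat_lit 2544, nat_lit 9216, nat_lit 7776, R2_53, R2_192, R3_162⟩, ⟨nat_lit 6, nat_lit 6576, nat_lit 1440, nat_lit 2592, nat_lit 8112, nat_lit 1200, R2_54, R12_169, R10_25⟩]⟩]⟩,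
 ⟨nat_lit 3, [⟨nat_lit 0, [⟨nat_lit 2, nat_lit 6672, nat_lit 1152, nat_lit 18480, nat_lit 13440, nat_lit 9696, R8_385, R11_280, R5_202⟩]⟩, ⟨nat_lit 2, [⟨nat_lit 2, nat_lit 6720, nat_lit 1296, nat_lit 2736, nat_lit 13632, nat_lit 2400, R9_57, R11_284, R11_50⟩]⟩]⟩]]], [[], [], [[], [], [], [], [], [], [⟨nat_lit 2, [⟨nat_lit 6, [⟨nat_lit 4, nat_lit 6912, nat_lit 2688, nat_lit 720, nat_lit 13056, nat_lit 12912, R2_15, R2_272, R2_269⟩]⟩]⟩,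
 ⟨nat_lit 6, [⟨nat_lit 4, [⟨nat_lit 4, nat_lit 7056, nat_lit 2400, nat_lit 2160, nat_lit 1296, nat_lit 5808, R13_45, R3_27, R7_121⟩, ⟨nat_lit 5, nat_lit 7104, nat_lit 2448, nat_lit 2208, nat_lit 1008, nat_lit 16032, R13_46, R10_21, R14_334⟩]⟩, ⟨nat_lit 5, [⟨nat_lit 5, nat_lit 7152, nat_lit 2496, nat_lit 2688, nat_lit 1248, nat_lit 13104, R3_56, R10_26, R12_273⟩]⟩, ⟨nat_lit 6, [⟨nat_lit 4, nat_lit 7200, nat_lit 2832, nat_lit 7008, nat_lit 6480, nat_lit 4224, R3_146, R3_135, R2_88⟩, ⟨nat_lit 5, nat_lit 7248, nat_lit 2880, nat_lit 7104, nat_lit 1104, nat_lit 13296, R3_148, R10_23, R12_277⟩]⟩, ⟨nat_lit 7, [⟨nat_lit 4, nat_lit 7296, nat_lit 2544, nat_lit 1344, nat_lit 7776, nat_lit 9216, R9_28, R3_162, R2_192⟩, ⟨nat_lit 5, nat_lit 7344, nat_lit 2592, nat_lit 1440, nat_lit 1200, nat_lit 8112, R9_30, R10_25, R12_169⟩]⟩]⟩]],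 [], [[], [], [], [], [⟨nat_lit 4, [⟨nat_lit 4, [⟨nat_lit 1, nat_lit 7440, nat_lit 15264, nat_lit 6816, nat_lit 15168, nat_lit 4608, R6_142, R8_316, R4_96⟩]⟩, ⟨nat_lit 5, [⟨nat_lit 1, nat_lit 7488, nat_lit 15312, nat_lit 7392, nat_lit 15312, nat_lit 288, R4_154, R8_319, R3_6⟩]⟩]⟩,
 ⟨nat_lit 6, [⟨nat_lit 4, [⟨nat_lit 1, nat_lit 7536, nat_lit 15360, nat_lit 1872, nat_lit 1200, nat_lit 4656, R13_39, R5_25, R4_97⟩]⟩, ⟨nat_lit 5, [⟨nat_lit 1, nat_lit 7584, nat_lit 15408, nat_lit 2256, nat_lit 1344, nat_lit 384, R3_47, R5_28, R3_8⟩]⟩]⟩], [⟨nat_lit 4, [⟨nat_lit 5, [⟨nat_lit 1, nat_lit 7632, nat_lit 14640, nat_lit 7440, nat_lit 16512, nat_lit 2832, R4_155, R8_344, R10_59⟩]⟩]⟩,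
 ⟨nat_lit 6, [⟨nat_lit 5, [⟨nat_lit 1, nat_lit 7680, nat_lit 14688, nat_lit 2400, nat_lit 13248, nat_lit 2880, R3_50, R5_276, R10_60⟩]⟩]⟩], [], [⟨nat_lit 4, [⟨nat_lit 4, [⟨nat_lit 1, nat_lit 7728, nat_lit 15840, nat_lit 6864, nat_lit 15744, nat_lit 7968, R6_143, R8_328, R5_166⟩]⟩, ⟨nat_lit 7, [⟨nat_lit 1, nat_lit 7824, nat_lit 15888, nat_lit 7824, nat_lit 15888, nat_lit 10416, R8_163, R8_331, R11_217⟩]⟩]⟩,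
 ⟨nat_lit 6, [⟨nat_lit 4, [⟨nat_lit 1, nat_lit 7872, nat_lit 18432, nat_lit 2016, nat_lit 9552, nat_lit 10176, R13_42, R5_199, R5_212⟩]⟩, ⟨nat_lit 7, [⟨nat_lit 1, nat_lit 7968, nat_lit 18480, nat_lit 1152, nat_lit 9696, nat_lit 10560, R9_24, R5_202, R11_220⟩]⟩]⟩]], [], [[], [], [], [], [⟨nat_lit 4, [⟨nat_lit 4, [⟨nat_lit 1, nat_lit 8016, nat_lit 3408, nat_lit 6960, nat_lit 1488, nat_lit 5184, R6_145, R5_31, R4_108⟩]⟩, ⟨nat_lit 5, [⟨nat_lit 1, nat_lit 8064, nat_lit 3552, nat_lit 7584, nat_lit 3840, nat_lit 3888, R4_158, R5_80, R3_81⟩]⟩]⟩,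
 ⟨nat_lit 6, [⟨nat_lit 4, [⟨nat_lit 1, nat_lit 8112, nat_lit 3456, nat_lit 1968, nat_lit 1056, nat_lit 5232, R13_41, R11_22, R4_109⟩]⟩, ⟨nat_lit 5, [⟨nat_lit 1, nat_lit 8208, nat_lit 3600, nat_lit 2352, nat_lit 3840, nat_lit 3984, R3_49, R11_80, R3_83⟩]⟩]⟩], [⟨nat_lit 4, [⟨nat_lit 5, [⟨nat_lit 1, nat_lit 8352, nat_lit 3264, nat_lit 7632, nat_lit 3936, nat_lit 3504, R4_159, R5_82, R10_73⟩]⟩]⟩,
 ⟨nat_lit 6, [⟨nat_lit 5, [⟨nat_lit 1, nat_lit 8400, nat_lit 3312, nat_lit 2496, nat_lit 3936, nat_lit 3552, R3_52, R11_82, R10_74⟩]⟩]⟩], [], [⟨nat_lit 4, [⟨nat_lit 4, [⟨nat_lit 1, nat_lit 8688, nat_lit 2496, nat_lit 7008, nat_lit 1536, nat_lit 8544, R6_146, R5_32, R5_178⟩]⟩, ⟨nat_lit 7, [⟨nat_lit 1, nat_lit 8784, nat_lit 2688, nat_lit 9120, nat_lit 2400, nat_lit 10704, R8_190, R5_50, R11_223⟩]⟩]⟩,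
 ⟨nat_lit 6, [⟨nat_lit 4, [⟨nat_lit 1, nat_lit 8832, nat_lit 2544, nat_lit 2112, nat_lit 1104, nat_lit 10368, R13_44, R11_23, R5_216⟩]⟩, ⟨nat_lit 7, [⟨nat_lit 1, nat_lit 8928, nat_lit 2736, nat_lit 1296, nat_lit 2400, nat_lit 10848, R9_27, R11_50, R11_226⟩]⟩]⟩]], [[], [], [], [], [], [], [], [⟨nat_lit 4, [⟨nat_lit 4, [⟨nat_lit 1, nat_lit 9024, nat_lit 2208, nat_lit 6912, nat_lit 2016, nat_lit 8256, R6_144, R9_42, R5_172⟩]⟩, ⟨nat_lit 7, [⟨nat_lit 1, nat_lit 9120, nat_lit 2400, nat_lit 8784, nat_lit 2688, nat_lit 10992, R8_183, R9_56, R11_229⟩]⟩]⟩]]], [[], [], [], [[⟨nat_lit 3, [⟨nat_lit 0, [⟨nat_lit 2, nat_lit 9360, nat_lit 9072, nat_lit 14304, nat_lit 7536, nat_lit 14112, R4_298, R11_157, R8_294⟩]⟩, ⟨nat_lit 2, [⟨nat_lit 2, nat_lit 9408, nat_lit 10656, nat_lit 17184, nat_lit 7680, nat_lit 2064, R5_358, R11_160,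 R5_43⟩]⟩]⟩,
 ⟨nat_lit 7, [⟨nat_lit 3, [⟨nat_lit 3, nat_lit 9792, nat_lit 9840, nat_lit 3216, nat_lit 816, nat_lit 13968, R14_67, R12_17, R3_291⟩]⟩]⟩], [], [⟨nat_lit 3, [⟨nat_lit 0, [⟨nat_lit 2, nat_lit 9840, nat_lit 6288, nat_lit 15216, nat_lit 8400, nat_lit 8928, R4_317, R11_175, R5_186⟩]⟩, ⟨nat_lit 2, [⟨nat_lit 2, nat_lit 9888, nat_lit 6432, nat_lit 17232, nat_lit 8448, nat_lit 2064, R5_359, R11_176, R11_43⟩]⟩]⟩,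
 ⟨nat_lit 4, [⟨nat_lit 3, [⟨nat_lit 3, nat_lit 9984, nat_lit 6096, nat_lit 8256, nat_lit 288, nat_lit 1584, R7_172, R2_6, R10_33⟩]⟩]⟩,
 ⟨nat_lit 6, [⟨nat_lit 7, [⟨nat_lit 7, nat_lit 10128, nat_lit 6480, nat_lit 6480, nat_lit 1920, nat_lit 1920, R5_135, R11_40, R11_40⟩]⟩]⟩,
 ⟨nat_lit 7, [⟨nat_lit 0, [⟨nat_lit 0, nat_lit 10176, nat_lit 6000, nat_lit 17328, nat_lit 7680, nat_lit 12576, R7_361, R2_160, R4_262⟩]⟩, ⟨nat_lit 3, [⟨nat_lit 0, nat_lit 10272, nat_lit 6048, nat_lit 3264, nat_lit 8832, nat_lit 7680, R14_68, R2_184, R3_160⟩, ⟨nat_lit 3, nat_lit 10368, nat_lit 6144, nat_lit 3360, nat_lit 864, nat_lit 1632, R14_70, R12_18, R10_34⟩]⟩]⟩]], [[], [], [], [⟨nat_lit 4, [⟨nat_lit 3, [⟨nat_lit 0, nat_lit 10416, nat_lit 15600, nat_lit 8688, nat_lit 12240, nat_lit 11040, R7_181, R6_255, R3_230⟩, ⟨nat_lit 1, nat_lit 10464,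 nat_lit 16080, nat_lit 8976, nat_lit 14400, nat_lit 8784, R7_187, R8_300, R10_183⟩]⟩, ⟨nat_lit 7, [⟨nat_lit 0, nat_lit 10560, nat_lit 15552, nat_lit 8784, nat_lit 12816, nat_lit 7440, R4_183, R6_267, R2_155⟩]⟩]⟩,
 ⟨nat_lit 6, [⟨nat_lit 7, [⟨nat_lit 0, nat_lit 10656, nat_lit 17328, nat_lit 6000, nat_lit 12576, nat_lit 7680, R5_125, R4_262, R2_160⟩]⟩]⟩], [], [], [], [⟨nat_lit 4, [⟨nat_lit 7, [⟨nat_lit 1, nat_lit 10752, nat_lit 14304, nat_lit 9072, nat_lit 14112, nat_lit 10464, R4_189, R8_294, R11_218⟩]⟩]⟩,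
 ⟨nat_lit 6, [⟨nat_lit 7, [⟨nat_lit 1, nat_lit 10800, nat_lit 15216, nat_lit 6288, nat_lit 8928, nat_lit 10608, R5_131, R5_186, R11_221⟩]⟩]⟩]], [], [[], [], [], [], [], [], [], [⟨nat_lit 4, [⟨nat_lit 7, [⟨nat_lit 1, nat_lit 10848, nat_lit 17184, nat_lit 10656, nat_lit 2064, nat_lit 10752, R4_222, R5_43, R11_224⟩]⟩]⟩,
 ⟨nat_lit 6, [⟨nat_lit 7, [⟨nat_lit 1, nat_lit 10896, nat_lit 17232, nat_lit 6432, nat_lit 2064, nat_lit 10896, R5_134, R11_43, R11_227⟩]⟩]⟩]], [[⟨nat_lit 4, [⟨nat_lit 3, [⟨nat_lit 0, nat_lit 10992, nat_lit 9168, nat_lit 9168, nat_lit 1248, nat_lit 1248, R7_191, R13_26, R13_26⟩, ⟨nat_lit 1, nat_lit 11040, nat_lit 9936, nat_lit 11040, nat_lit 480, nat_lit 1680, R7_230, R9_10, R3_35⟩, ⟨nat_lit 2, nat_lit 11088, nat_lit 11040, nat_lit 9936, nat_lit 1680, nat_lit 480, R7_207, R3_35, R9_10⟩, ⟨nat_lit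 3, nat_lit 11136, nat_lit 10656, nat_lit 10656, nat_lit 12384, nat_lit 12384, R7_222, R3_258, R3_258⟩]⟩, ⟨nat_lit 7, [⟨nat_lit 3, nat_lit 11184, nat_lit 8208, nat_lit 9792, nat_lit 13632, nat_lit 240, R4_204, R3_284, R2_5⟩]⟩]⟩,
 ⟨nat_lit 6, [⟨nat_lit 7, [⟨nat_lit 3, nat_lit 11232, nat_lit 8256, nat_lit 6096, nat_lit 1584, nat_lit 288, R5_127, R10_33, R2_6⟩]⟩]⟩,
 ⟨nat_lit 7, [⟨nat_lit 0, [⟨nat_lit 0, nat_lit 11280, nat_lit 8688, nat_lit 15600, nat_lit 11040, nat_lit 12240, R7_325, R3_230, R6_255⟩, ⟨nat_lit 2, nat_lit 11376, nat_lit 8976, nat_lit 16080, nat_lit 8784, nat_lit 14400, R7_335, R10_183, R8_300⟩]⟩, ⟨nat_lit 3, [⟨nat_lit 0, nat_lit 11424, nat_lit 9216, nat_lit 2832, nat_lit 11904, nat_lit 1296, R14_59, R3_248, R13_27⟩, ⟨nat_lit 2, nat_lit 11520, nat_lit 11088, nat_lit 2880, nat_lit 10416, nat_lit 528,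 R14_60, R10_217, R9_11⟩]⟩]⟩], [], [], [⟨nat_lit 4, [⟨nat_lit 3, [⟨nat_lit 0, nat_lit 11568, nat_lit 1200, nat_lit 9216, nat_lit 1296, nat_lit 11904, R7_192, R13_27, R3_248⟩, ⟨nat_lit 1, nat_lit 11616, nat_lit 1248, nat_lit 11088, nat_lit 528, nat_lit 10416, R7_231, R9_11, R10_217⟩]⟩, ⟨nat_lit 7, [⟨nat_lit 3, nat_lit 11808, nat_lit 1152, nat_lit 9840, nat_lit 13968, nat_lit 816, R4_205, R3_291, R12_17⟩]⟩]⟩,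
 ⟨nat_lit 6, [⟨nat_lit 7, [⟨nat_lit 3, nat_lit 11952, nat_lit 1584, nat_lit 6144, nat_lit 1632, nat_lit 864, R5_128, R10_34, R12_18⟩]⟩]⟩,
 ⟨nat_lit 7, [⟨nat_lit 3, [⟨nat_lit 0, nat_lit 12000, nat_lit 1344, nat_lit 2976, nat_lit 14592, nat_lit 14592, R14_62, R3_304, R3_304⟩]⟩]⟩]]], [[], [], [], [], [[], [⟨nat_lit 4, [⟨nat_lit 1, [⟨nat_lit 0, nat_lit 12144, nat_lit 14688, nat_lit 8352, nat_lit 2112, nat_lit 7920, R6_174, R6_44, R5_165⟩, ⟨nat_lit 1, nat_lit 12192, nat_lit 14736, nat_lit 8448, nat_lit 3120, nat_lit 10368, R6_176, R8_65, R11_216⟩]⟩]⟩,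
 ⟨nat_lit 5, [⟨nat_lit 0, [⟨nat_lit 0, nat_lit 12288, nat_lit 14832, nat_lit 14832, nat_lit 15408, nat_lit 15408, R6_309, R8_321, R8_321⟩, ⟨nat_lit 1, nat_lit 12336, nat_lit 14928, nat_lit 15024, nat_lit 1824, nat_lit 960, R6_313, R9_38, R5_20⟩, ⟨nat_lit 2, nat_lit 12384, nat_lit 15024, nat_lit 14928, nat_lit 960, nat_lit 1824, R6_311, R5_20, R9_38⟩]⟩, ⟨nat_lit 1, [⟨nat_lit 0, nat_lit 12432, nat_lit 14880, nat_lit 10704, nat_lit 15552, nat_lit 9168, R13_223, R8_324, R5_191⟩, ⟨nat_lit 1, nat_lit 12480, nat_lit 14976, nat_lit 10800, nat_lit 1872, nat_lit 11616, R13_225, R9_39, R11_242⟩]⟩]⟩]], [[⟨nat_lit 5, [⟨nat_lit 0, [⟨nat_lit 0, nat_lit 12576, nat_lit 8352, nat_lit 14688, nat_lit 7920, nat_lit 2112, R6_306, R5_165, R6_44⟩, ⟨nat_lit 2, nat_lit 12672, nat_lit 8448, nat_lit 14736, nat_lit 48, nat_lit 3120, R6_307,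 R11_1, R8_65⟩]⟩]⟩], [⟨nat_lit 5, [⟨nat_lit 0, [⟨nat_lit 0, nat_lit 12720, nat_lit 19968, nat_lit 14880, nat_lit 9168, nat_lit 15552, R6_310, R5_191, R8_324⟩, ⟨nat_lit 2, nat_lit 12816, nat_lit 20160, nat_lit 14976, nat_lit 528, nat_lit 1872, R6_312, R11_11, R9_39⟩]⟩, ⟨nat_lit 1, [⟨nat_lit 0, nat_lit 12864, nat_lit 20016, nat_lit 10848, nat_lit 11328, nat_lit 11328, R13_226, R5_236, R5_236⟩]⟩]⟩]]], [[], [[⟨nat_lit 1, [⟨nat_lit 0, [⟨nat_lit 2, nat_lit 13008, nat_lit 8976, nat_lit 16080, nat_lit 14448, nat_lit 10464, R7_335, R10_301, R8_218⟩]⟩, ⟨nat_lit 2, [⟨nat_lit 2, nat_lit 13056, nat_lit 9024, nat_lit 14976, nat_lit 14976, nat_lit 2928, R2_312, R10_312, R5_61⟩]⟩]⟩], [], [⟨nat_lit 1, [⟨nat_lit 0, [⟨nat_lit 2, nat_lit 13248, nat_lit 6384, nat_lit 16224, nat_lit 14496, nat_lit 12960, R7_338, R10_302, R5_270⟩]⟩,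 ⟨nat_lit 2, [⟨nat_lit 2, nat_lit 13296, nat_lit 6432, nat_lit 15168, nat_lit 15024, nat_lit 2928, R2_316, R10_313, R11_61⟩]⟩]⟩]], [], [], [], [[⟨nat_lit 5, [⟨nat_lit 0, [⟨nat_lit 0, nat_lit 13488, nat_lit 8976, nat_lit 14256, nat_lit 8016, nat_lit 9840, R4_297, R5_167, R6_205⟩, ⟨nat_lit 2, nat_lit 13584, nat_lit 9072, nat_lit 14304, nat_lit 7536, nat_lit 10752, R4_298, R11_157, R8_224⟩]⟩]⟩], [⟨nat_lit 5, [⟨nat_lit 0, [⟨nat_lit 0, nat_lit 13776, nat_lit 16368, nat_lit 14400, nat_lit 9264, nat_lit 16608, R4_300, R5_193, R8_346⟩, ⟨nat_lit 2, nat_lit 13872, nat_lit 16560, nat_lit 14448, nat_lit 7872, nat_lit 11376, R4_301, R11_164, R9_237⟩]⟩, ⟨nat_lit 1, [⟨nat_lit 0, nat_lit 13920, nat_lit 16416, nat_lit 8688, nat_lit 11424, nat_lit 11472, R3_181, R5_238, R5_239⟩]⟩]⟩]]], [[], [], [], [], [[], [⟨nat_lit 4, [⟨nat_lit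 1, [⟨nat_lit 0, nat_lit 14064, nat_lit 14256, nat_lit 8976, nat_lit 9840, nat_lit 8016, R4_187, R6_205, R5_167⟩, ⟨nat_lit 1, nat_lit 14112, nat_lit 14304, nat_lit 9072, nat_lit 10752, nat_lit 10464, R4_189, R8_224, R11_218⟩]⟩]⟩,
 ⟨nat_lit 5, [⟨nat_lit 1, [⟨nat_lit 0, nat_lit 14208, nat_lit 14400, nat_lit 16368, nat_lit 16608, nat_lit 9264, R3_341, R8_346, R5_193⟩, ⟨nat_lit 1, nat_lit 14256, nat_lit 14448, nat_lit 16560, nat_lit 11376, nat_lit 11712, R3_345, R9_237, R11_244⟩]⟩]⟩], [], [], [], [⟨nat_lit 4, [⟨nat_lit 5, [⟨nat_lit 1, nat_lit 14400, nat_lit 16080, nat_lit 8976, nat_lit 10464, nat_lit 14448, R7_187, R8_218, R10_301⟩]⟩]⟩]]], [[], [], [], [], [[⟨nat_lit 4, [⟨nat_lit 0, [⟨nat_lit 0, nat_lit 15120, nat_lit 14496, nat_lit 4512, nat_lit 4368, nat_lit 4368, R6_94, R6_91, R6_91⟩, ⟨nat_lit 1, nat_lit 15168,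 nat_lit 15264, nat_lit 6816, nat_lit 7440, nat_lit 4608, R6_142, R8_155, R4_96⟩, ⟨nat_lit 2, nat_lit 15216, nat_lit 16080, nat_lit 5664, nat_lit 4608, nat_lit 7440, R6_118, R4_96, R8_155⟩]⟩, ⟨nat_lit 3, [⟨nat_lit 0, nat_lit 15264, nat_lit 14544, nat_lit 4752, nat_lit 5376, nat_lit 96, R4_99, R6_112, R13_2⟩, ⟨nat_lit 1, nat_lit 15312, nat_lit 15312, nat_lit 7392, nat_lit 7488, nat_lit 288, R4_154, R8_156, R3_6⟩, ⟨nat_lit 2, nat_lit 15360, nat_lit 16128, nat_lit 6048, nat_lit 5712, nat_lit 0, R4_126, R4_119, R9_0⟩]⟩]⟩,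
 ⟨nat_lit 5, [⟨nat_lit 0, [⟨nat_lit 0, nat_lit 15408, nat_lit 14832, nat_lit 15696, nat_lit 12288, nat_lit 4560, R8_327, R8_256, R6_95⟩, ⟨nat_lit 1, nat_lit 15456, nat_lit 15456, nat_lit 15984, nat_lit 7968, nat_lit 4848, R8_333, R9_166, R4_101⟩, ⟨nat_lit 2, nat_lit 15504, nat_lit 16752, nat_lit 15840, nat_lit 7968, nat_lit 7728, R8_330, R5_166, R8_161⟩]⟩, ⟨nat_lit 3, [⟨nat_lit 0, nat_lit 15552, nat_lit 14880, nat_lit 9168, nat_lit 12432, nat_lit 144, R5_191, R8_259, R13_3⟩, ⟨nat_lit 1, nat_lit 15600, nat_lit 15504, nat_lit 9408, nat_lit 8016, nat_lit 336, R5_196, R9_167, R3_7⟩, ⟨nat_lit 2, nat_lit 15648, nat_lit 16800, nat_lit 9312, nat_lit 8112, nat_lit 48, R5_194, R5_169, R9_1⟩]⟩]⟩], [⟨nat_lit 4, [⟨nat_lit 0, [⟨nat_lit 0, nat_lit 15696, nat_lit 15696, nat_lit 4560, nat_lit 4560, nat_lit 12288, R6_95, R6_95,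 R8_256⟩, ⟨nat_lit 1, nat_lit 15744, nat_lit 15840, nat_lit 6864, nat_lit 7728, nat_lit 7968, R6_143, R8_161, R5_166⟩, ⟨nat_lit 2, nat_lit 15792, nat_lit 15984, nat_lit 5712, nat_lit 4848, nat_lit 7968, R6_119, R4_101, R9_166⟩]⟩, ⟨nat_lit 1, [⟨nat_lit 0, nat_lit 15840, nat_lit 15744, nat_lit 7728, nat_lit 6864, nat_lit 7968, R8_161, R6_143, R5_166⟩, ⟨nat_lit 1, nat_lit 15888, nat_lit 15888, nat_lit 7824, nat_lit 7824, nat_lit 10416, R8_163, R8_163, R11_217⟩]⟩, ⟨nat_lit 3, [⟨nat_lit 0, nat_lit 15984, nat_lit 15792, nat_lit 4848, nat_lit 5712, nat_lit 7968, R4_101, R6_119, R9_166⟩]⟩]⟩,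
 ⟨nat_lit 5, [⟨nat_lit 0, [⟨nat_lit 0, nat_lit 16080, nat_lit 16080, nat_lit 16080, nat_lit 16080, nat_lit 16080, R8_335, R8_335, R8_335⟩, ⟨nat_lit 1, nat_lit 16128, nat_lit 16224, nat_lit 16368, nat_lit 8400, nat_lit 9216, R8_341, R9_175, R5_192⟩, ⟨nat_lit 2, nat_lit 16176, nat_lit 16368, nat_lit 16224, nat_lit 9216, nat_lit 8400, R8_338, R5_192, R9_175⟩]⟩, ⟨nat_lit 1, [⟨nat_lit 0, nat_lit 16224, nat_lit 16128, nat_lit 8400, nat_lit 16368, nat_lit 9216, R9_175, R8_341, R5_192⟩, ⟨nat_lit 1, nat_lit 16272, nat_lit 16272, nat_lit 8496, nat_lit 8496, nat_lit 11664, R9_177, R9_177, R11_243⟩]⟩, ⟨nat_lit 3, [⟨nat_lit 0, nat_lit 16368, nat_lit 16176, nat_lit 9216, nat_lit 16224, nat_lit 8400, R5_192, R8_338, R9_175⟩]⟩]⟩], [], [⟨nat_lit 4, [⟨nat_lit 3, [⟨nat_lit 0, nat_lit 16464, nat_lit 14160, nat_lit 4800, nat_lit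 5520, nat_lit 11376, R4_100, R6_115, R3_237⟩, ⟨nat_lit 1, nat_lit 16512, nat_lit 14640, nat_lit 7440, nat_lit 7632, nat_lit 8736, R4_155, R8_159, R10_182⟩]⟩]⟩,
 ⟨nat_lit 5, [⟨nat_lit 3, [⟨nat_lit 0, nat_lit 16608, nat_lit 14400, nat_lit 9264, nat_lit 14208, nat_lit 16368, R5_193, R8_296, R3_341⟩, ⟨nat_lit 1, nat_lit 16656, nat_lit 14736, nat_lit 9504, nat_lit 8256, nat_lit 9456, R5_198, R9_172, R10_197⟩]⟩]⟩]], [[⟨nat_lit 5, [⟨nat_lit 0, [⟨nat_lit 0, nat_lit 16752, nat_lit 7728, nat_lit 15744, nat_lit 7968, nat_lit 6864, R8_328, R5_166, R6_143⟩, ⟨nat_lit 2, nat_lit 16848, nat_lit 7824, nat_lit 15888, nat_lit 10416, nat_lit 7824, R8_331, R11_217, R8_163⟩]⟩, ⟨nat_lit 3, [⟨nat_lit 0, nat_lit 16896, nat_lit 7872, nat_lit 9552, nat_lit 10176, nat_lit 2016, R5_199, R5_212, R13_42⟩, ⟨nat_lit 2, nat_lit 16992, nat_lit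 7968, nat_lit 9696, nat_lit 10560, nat_lit 1152, R5_202, R11_220, R9_24⟩]⟩]⟩], [⟨nat_lit 5, [⟨nat_lit 0, [⟨nat_lit 0, nat_lit 17040, nat_lit 16272, nat_lit 16128, nat_lit 9216, nat_lit 16368, R8_336, R5_192, R8_341⟩, ⟨nat_lit 2, nat_lit 17136, nat_lit 16560, nat_lit 16272, nat_lit 11664, nat_lit 8496, R8_339, R11_243, R9_177⟩]⟩, ⟨nat_lit 1, [⟨nat_lit 0, nat_lit 17184, nat_lit 16320, nat_lit 8544, nat_lit 11376, nat_lit 11376, R9_178, R5_237, R5_237⟩]⟩, ⟨nat_lit 3, [⟨nat_lit 0, nat_lit 17328, nat_lit 16368, nat_lit 9600, nat_lit 11040, nat_lit 9888, R5_200, R5_230, R9_206⟩]⟩]⟩]], [], [[⟨nat_lit 4, [⟨nat_lit 0, [⟨nat_lit 0, nat_lit 17568, nat_lit 4752, nat_lit 5040, nat_lit 96, nat_lit 5376, R6_105, R13_2, R6_112⟩, ⟨nat_lit 1, nat_lit 17616, nat_lit 6048, nat_lit 7056, nat_lit 0, nat_lit 5712, R6_147, R9_0, R4_119⟩,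 ⟨nat_lit 2, nat_lit 17664, nat_lit 7392, nat_lit 6384, nat_lit 288, nat_lit 7488, R6_133, R3_6, R8_156⟩]⟩, ⟨nat_lit 3, [⟨nat_lit 0, nat_lit 17712, nat_lit 5328, nat_lit 5328, nat_lit 672, nat_lit 672, R4_111, R13_14, R13_14⟩, ⟨nat_lit 1, nat_lit 17760, nat_lit 6624, nat_lit 7728, nat_lit 240, nat_lit 1008, R4_161, R9_5, R3_21⟩, ⟨nat_lit 2, nat_lit 17808, nat_lit 7728, nat_lit 6624, nat_lit 1008, nat_lit 240, R4_138, R3_21, R9_5⟩, ⟨nat_lit 3, nat_lit 17856, nat_lit 7056, nat_lit 7056, nat_lit 4368, nat_lit 4368, R4_147, R3_91, R3_91⟩]⟩]⟩,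
 ⟨nat_lit 5, [⟨nat_lit 0, [⟨nat_lit 0, nat_lit 17904, nat_lit 4848, nat_lit 15792, nat_lit 7968, nat_lit 5712, R8_329, R9_166, R6_119⟩]⟩, ⟨nat_lit 3, [⟨nat_lit 0, nat_lit 18000, nat_lit 5376, nat_lit 9936, nat_lit 8784, nat_lit 720, R5_207, R9_183, R13_15⟩]⟩]⟩,
 ⟨nat_lit 7, [⟨nat_lit 0, [⟨nat_lit 0, nat_lit 18144, nat_lit 4800, nat_lit 14160, nat_lit 11376, nat_lit 5520, R4_295, R3_237, R6_115⟩, ⟨nat_lit 2, nat_lit 18240, nat_lit 7440, nat_lit 14640, nat_lit 8736, nat_lit 7632, R4_305, R10_182, R8_159⟩]⟩]⟩], [⟨nat_lit 4, [⟨nat_lit 0, [⟨nat_lit 0, nat_lit 18288, nat_lit 9168, nat_lit 5088, nat_lit 144, nat_lit 12432, R6_106, R13_3, R8_259⟩, ⟨nat_lit 1, nat_lit 18336, nat_lit 9312, nat_lit 7104, nat_lit 48, nat_lit 8112, R6_148, R9_1, R5_169⟩, ⟨nat_lit 2, nat_lit 18384, nat_lit 9408, nat_lit 6432, nat_lit 336,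 nat_lit 8016, R6_134, R3_7, R9_167⟩]⟩, ⟨nat_lit 1, [⟨nat_lit 0, nat_lit 18432, nat_lit 9552, nat_lit 7872, nat_lit 2016, nat_lit 10176, R8_164, R13_42, R5_212⟩, ⟨nat_lit 1, nat_lit 18480, nat_lit 9696, nat_lit 7968, nat_lit 1152, nat_lit 13440, R8_166, R9_24, R11_280⟩]⟩, ⟨nat_lit 3, [⟨nat_lit 0, nat_lit 18576, nat_lit 9936, nat_lit 5376, nat_lit 720, nat_lit 8784, R4_112, R13_15, R9_183⟩]⟩]⟩,
 ⟨nat_lit 5, [⟨nat_lit 0, [⟨nat_lit 0, nat_lit 18720, nat_lit 9216, nat_lit 16176, nat_lit 8400, nat_lit 16224, R8_337, R9_175, R8_338⟩]⟩, ⟨nat_lit 1, [⟨nat_lit 0, nat_lit 18816, nat_lit 9600, nat_lit 8688, nat_lit 9888, nat_lit 11040, R9_181, R9_206, R5_230⟩]⟩, ⟨nat_lit 3, [⟨nat_lit 0, nat_lit 18912, nat_lit 9984, nat_lit 9984, nat_lit 9504, nat_lit 9504, R5_208, R9_198, R9_198⟩]⟩]⟩,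
 ⟨nat_lit 7, [⟨nat_lit 0, [⟨nat_lit 0, nat_lit 19008, nat_lit 9264, nat_lit 14400, nat_lit 16368, nat_lit 14208, R4_300, R3_341, R8_296⟩, ⟨nat_lit 2, nat_lit 19104, nat_lit 9504, nat_lit 14736, nat_lit 9456, nat_lit 8256, R4_307, R10_197, R9_172⟩]⟩, ⟨nat_lit 1, [⟨nat_lit 0, nat_lit 19152, nat_lit 9648, nat_lit 16944, nat_lit 17664, nat_lit 10656, R5_353, R3_368, R5_222⟩]⟩]⟩]]]]
noncomputable def N0067 : T3 (List N0) := [[[], [], [], [[⟨nat_lit 3, [⟨nat_lit 0, [⟨nat_lit 5, nat_lit 1488, nat_lit 288, nat_lit 768, nat_lit 10368, nat_lit 12192, R6_16, R11_216, R8_254⟩]⟩]⟩], [], [⟨nat_lit 3, [⟨nat_lit 2, [⟨nat_lit 5, nat_lit 2208, nat_lit 3648, nat_lit 2544, nat_lit 10800, nat_lit 1872, R8_53, R11_225, R11_39⟩]⟩]⟩]], [[], [], [], [], [], [], [], [⟨nat_lit 4, [⟨nat_lit 7, [⟨nat_lit 6, nat_lit 3120, nat_lit 768, nat_lit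 288, nat_lit 12192, nat_lit 48, R6_6, R8_254, R11_1⟩]⟩]⟩,
 ⟨nat_lit 7, [⟨nat_lit 7, [⟨nat_lit 6, nat_lit 4272, nat_lit 1344, nat_lit 192, nat_lit 2208, nat_lit 192, R4_4, R9_46, R11_4⟩]⟩]⟩]], [], [[], [], [], [], [], [], [], [⟨nat_lit 0, [⟨nat_lit 2, [⟨nat_lit 3, nat_lit 576, nat_lit 3216, nat_lit 2592, nat_lit 8352, nat_lit 1776, R6_54, R5_174, R11_37⟩]⟩]⟩,
 ⟨nat_lit 2, [⟨nat_lit 6, [⟨nat_lit 0, nat_lit 1344, nat_lit 3888, nat_lit 2352, nat_lit 7632, nat_lit 8784, R7_49, R3_159, R2_183⟩, ⟨nat_lit 2, nat_lit 1392, nat_lit 3984, nat_lit 2400, nat_lit 1152, nat_lit 768, R7_50, R10_24, R12_16⟩]⟩]⟩,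
 ⟨nat_lit 3, [⟨nat_lit 2, [⟨nat_lit 3, nat_lit 2544, nat_lit 3648, nat_lit 2208, nat_lit 1872, nat_lit 1872, R8_46, R11_39, R11_39⟩]⟩]⟩,
 ⟨nat_lit 4, [⟨nat_lit 7, [⟨nat_lit 6, nat_lit 3216, nat_lit 576, nat_lit 2592, nat_lit 8352, nat_lit 1776, R6_54, R5_174, R11_37⟩]⟩]⟩,
 ⟨nat_lit 6, [⟨nat_lit 7, [⟨nat_lit 6, nat_lit 3648, nat_lit 2544, nat_lit 2208, nat_lit 1872, nat_lit 1872, R8_46, R11_39, R11_39⟩]⟩]⟩,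
 ⟨nat_lit 7, [⟨nat_lit 3, [⟨nat_lit 4, nat_lit 3888, nat_lit 1344, nat_lit 2352, nat_lit 7632, nat_lit 8784, R7_49, R3_159, R2_183⟩, ⟨nat_lit 7, nat_lit 3984, nat_lit 1392, nat_lit 2400, nat_lit 1152, nat_lit 768, R7_50, R10_24, R12_16⟩]⟩]⟩]], [[], [], [], [⟨nat_lit 3, [⟨nat_lit 0, [⟨nat_lit 7, nat_lit 1824, nat_lit 3312, nat_lit 1920, nat_lit 720, nat_lit 11664, R6_40, R12_15, R3_243⟩]⟩, ⟨nat_lit 2, [⟨nat_lit 7, nat_lit 2688, nat_lit 4176, nat_lit 2064, nat_lit 768, nat_lit 1152, R8_43, R12_16, R10_24⟩]⟩]⟩,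
 ⟨nat_lit 7, [⟨nat_lit 3, [⟨nat_lit 4, nat_lit 4032, nat_lit 1824, nat_lit 1392, nat_lit 14352, nat_lit 14352, R7_29, R3_299, R3_299⟩]⟩]⟩]]], [[[⟨nat_lit 0, [⟨nat_lit 0, [⟨nat_lit 5, nat_lit 4464, nat_lit 15264, nat_lit 6816, nat_lit 4608, nat_lit 15168, R6_142, R4_96, R8_316⟩]⟩, ⟨nat_lit 2, [⟨nat_lit 5, nat_lit 4704, nat_lit 15360, nat_lit 1872, nat_lit 4656, nat_lit 1200, R13_39, R4_97, R5_25⟩]⟩]⟩,
 ⟨nat_lit 1, [⟨nat_lit 0, [⟨nat_lit 5, nat_lit 5136, nat_lit 15312, nat_lit 7392, nat_lit 288, nat_lit 15312, R4_154, R3_6, R8_319⟩]⟩, ⟨nat_lit 2, [⟨nat_lit 5, nat_lit 5472, nat_lit 15408, nat_lit 2256, nat_lit 384, nat_lit 1344, R3_47, R3_8, R5_28⟩]⟩]⟩], [], [⟨nat_lit 0, [⟨nat_lit 0, [⟨nat_lit 5, nat_lit 4512, nat_lit 3408, nat_lit 6960, nat_lit 5184, nat_lit 1488, R6_145, R4_108, R5_31⟩]⟩, ⟨nat_lit 2, [⟨nat_lit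 5, nat_lit 4752, nat_lit 3456, nat_lit 1968, nat_lit 5232, nat_lit 1056, R13_41, R4_109, R11_22⟩]⟩]⟩,
 ⟨nat_lit 1, [⟨nat_lit 0, [⟨nat_lit 5, nat_lit 5184, nat_lit 3552, nat_lit 7584, nat_lit 3888, nat_lit 3840, R4_158, R3_81, R5_80⟩]⟩, ⟨nat_lit 2, [⟨nat_lit 5, nat_lit 5520, nat_lit 3600, nat_lit 2352, nat_lit 3984, nat_lit 3840, R3_49, R3_83, R11_80⟩]⟩]⟩]], [[⟨nat_lit 1, [⟨nat_lit 0, [⟨nat_lit 5, nat_lit 5232, nat_lit 14640, nat_lit 7440, nat_lit 2832, nat_lit 16512, R4_155, R10_59, R8_344⟩]⟩, ⟨nat_lit 2, [⟨nat_lit 5, nat_lit 5616, nat_lit 14688, nat_lit 2400, nat_lit 2880, nat_lit 13248, R3_50, R10_60, R5_276⟩]⟩]⟩], [], [⟨nat_lit 1, [⟨nat_lit 0, [⟨nat_lit 5, nat_lit 5280, nat_lit 3264, nat_lit 7632, nat_lit 3504, nat_lit 3936, R4_159, R10_73, R5_82⟩]⟩, ⟨nat_lit 2, [⟨nat_lit 5, nat_lit 5664, nat_lit 3312, nat_lit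 2496, nat_lit 3552, nat_lit 3936, R3_52, R10_74, R11_82⟩]⟩]⟩]], [[], [], [], [], [], [], [⟨nat_lit 0, [⟨nat_lit 2, [⟨nat_lit 0, nat_lit 4896, nat_lit 2400, nat_lit 2160, nat_lit 5808, nat_lit 1296, R13_45, R7_121, R3_27⟩, ⟨nat_lit 1, nat_lit 4944, nat_lit 2448, nat_lit 2208, nat_lit 16032, nat_lit 1008, R13_46, R14_334, R10_21⟩]⟩]⟩,
 ⟨nat_lit 1, [⟨nat_lit 2, [⟨nat_lit 1, nat_lit 5808, nat_lit 2496, nat_lit 2688, nat_lit 13104, nat_lit 1248, R3_56, R12_273, R10_26⟩]⟩]⟩,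
 ⟨nat_lit 2, [⟨nat_lit 2, [⟨nat_lit 0, nat_lit 6048, nat_lit 2832, nat_lit 7008, nat_lit 4224, nat_lit 6480, R3_146, R2_88, R3_135⟩, ⟨nat_lit 1, nat_lit 6096, nat_lit 2880, nat_lit 7104, nat_lit 13296, nat_lit 1104, R3_148, R12_277, R10_23⟩]⟩, ⟨nat_lit 6, [⟨nat_lit 0, nat_lit 6144, nat_lit 2688, nat_lit 720, nat_lit 12912, nat_lit 13056, R2_15, R2_269, R2_272⟩]⟩]⟩,
 ⟨nat_lit 3, [⟨nat_lit 2, [⟨nat_lit 0, nat_lit 6528, nat_lit 2544, nat_lit 1344, nat_lit 9216, nat_lit 7776, R9_28, R2_192, R3_162⟩, ⟨nat_lit 1, nat_lit 6576, nat_lit 2592, nat_lit 1440, nat_lit 8112, nat_lit 1200, R9_30, R12_169, R10_25⟩]⟩]⟩]], [[⟨nat_lit 0, [⟨nat_lit 0, [⟨nat_lit 5, nat_lit 4560, nat_lit 15840, nat_lit 6864, nat_lit 7968, nat_lit 15744, R6_143, R5_166, R8_328⟩]⟩, ⟨nat_lit 2, [⟨nat_lit 5, nat_lit 4992, nat_lit 18432, nat_lit 2016,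 nat_lit 10176, nat_lit 9552, R13_42, R5_212, R5_199⟩]⟩]⟩,
 ⟨nat_lit 3, [⟨nat_lit 0, [⟨nat_lit 5, nat_lit 6288, nat_lit 15888, nat_lit 7824, nat_lit 10416, nat_lit 15888, R8_163, R11_217, R8_331⟩]⟩, ⟨nat_lit 2, [⟨nat_lit 5, nat_lit 6672, nat_lit 18480, nat_lit 1152, nat_lit 10560, nat_lit 9696, R9_24, R11_220, R5_202⟩]⟩]⟩], [], [⟨nat_lit 0, [⟨nat_lit 0, [⟨nat_lit 5, nat_lit 4608, nat_lit 2496, nat_lit 7008, nat_lit 8544, nat_lit 1536, R6_146, R5_178, R5_32⟩]⟩, ⟨nat_lit 2, [⟨nat_lit 5, nat_lit 5040, nat_lit 2544, nat_lit 2112, nat_lit 10368, nat_lit 1104, R13_44, R5_216, R11_23⟩]⟩]⟩,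
 ⟨nat_lit 3, [⟨nat_lit 0, [⟨nat_lit 5, nat_lit 6336, nat_lit 2688, nat_lit 9120, nat_lit 10704, nat_lit 2400, R8_190, R11_223, R5_50⟩]⟩, ⟨nat_lit 2, [⟨nat_lit 5, nat_lit 6720, nat_lit 2736, nat_lit 1296, nat_lit 10848, nat_lit 2400, R9_27, R11_226, R11_50⟩]⟩]⟩], [⟨nat_lit 0, [⟨nat_lit 0, [⟨nat_lit 5, nat_lit 4656, nat_lit 2208, nat_lit 6912, nat_lit 8256, nat_lit 2016, R6_144, R5_172, R9_42⟩]⟩]⟩,
 ⟨nat_lit 3, [⟨nat_lit 0, [⟨nat_lit 5, nat_lit 6384, nat_lit 2400, nat_lit 8784, nat_lit 10992, nat_lit 2688, R8_183, R11_229, R9_56⟩]⟩]⟩]]], [[], [], [[], [], [], [], [], [], [⟨nat_lit 2, [⟨nat_lit 6, [⟨nat_lit 0, nat_lit 6912, nat_lit 720, nat_lit 2688, nat_lit 13056, nat_lit 12912, R2_56, R2_272, R2_269⟩]⟩]⟩]], [], [[], [], [], [], [⟨nat_lit 4, [⟨nat_lit 4, [⟨nat_lit 6, nat_lit 7440, nat_lit 6816, nat_lit 15264,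 nat_lit 15168, nat_lit 4608, R6_318, R8_316, R4_96⟩]⟩, ⟨nat_lit 7, [⟨nat_lit 6, nat_lit 7728, nat_lit 6864, nat_lit 15840, nat_lit 15744, nat_lit 7968, R8_330, R8_328, R5_166⟩]⟩]⟩,
 ⟨nat_lit 6, [⟨nat_lit 4, [⟨nat_lit 6, nat_lit 8016, nat_lit 6960, nat_lit 3408, nat_lit 1488, nat_lit 5184, R13_71, R5_31, R4_108⟩]⟩, ⟨nat_lit 7, [⟨nat_lit 6, nat_lit 8688, nat_lit 7008, nat_lit 2496, nat_lit 1536, nat_lit 8544, R9_52, R5_32, R5_178⟩]⟩]⟩,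
 ⟨nat_lit 7, [⟨nat_lit 7, [⟨nat_lit 6, nat_lit 9024, nat_lit 6912, nat_lit 2208, nat_lit 2016, nat_lit 8256, R5_46, R9_42, R5_172⟩]⟩]⟩], [⟨nat_lit 4, [⟨nat_lit 4, [⟨nat_lit 6, nat_lit 7488, nat_lit 7392, nat_lit 15312, nat_lit 15312, nat_lit 288, R6_319, R8_319, R3_6⟩]⟩, ⟨nat_lit 5, [⟨nat_lit 6, nat_lit 7632, nat_lit 7440, nat_lit 14640, nat_lit 16512, nat_lit 2832, R4_305, R8_344, R10_59⟩]⟩]⟩,
 ⟨nat_lit 6, [⟨nat_lit 4, [⟨nat_lit 6, nat_lit 8064, nat_lit 7584, nat_lit 3552, nat_lit 3840, nat_lit 3888, R13_74, R5_80, R3_81⟩]⟩, ⟨nat_lit 5, [⟨nat_lit 6, nat_lit 8352, nat_lit 7632, nat_lit 3264, nat_lit 3936, nat_lit 3504, R3_68, R5_82, R10_73⟩]⟩]⟩], [], [⟨nat_lit 4, [⟨nat_lit 7, [⟨nat_lit 6, nat_lit 7824, nat_lit 7824, nat_lit 15888, nat_lit 15888, nat_lit 10416, R8_331, R8_331, R11_217⟩]⟩]⟩,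
 ⟨nat_lit 6, [⟨nat_lit 7, [⟨nat_lit 6, nat_lit 8784, nat_lit 9120, nat_lit 2688, nat_lit 2400, nat_lit 10992, R9_56, R5_50, R11_229⟩]⟩]⟩,
 ⟨nat_lit 7, [⟨nat_lit 7, [⟨nat_lit 6, nat_lit 9120, nat_lit 8784, nat_lit 2400, nat_lit 2688, nat_lit 10704, R5_50, R9_56, R11_223⟩]⟩]⟩]], [], [[], [], [], [], [⟨nat_lit 2, [⟨nat_lit 6, [⟨nat_lit 0, nat_lit 7056, nat_lit 2160, nat_lit 2400, nat_lit 1296, nat_lit 5808, R2_50, R3_27, R7_121⟩, ⟨nat_lit 2, nat_lit 7104, nat_lit 2208, nat_lit 2448, nat_lit 1008, nat_lit 16032, R2_51, R10_21, R14_334⟩]⟩]⟩,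
 ⟨nat_lit 4, [⟨nat_lit 4, [⟨nat_lit 6, nat_lit 7536, nat_lit 1872, nat_lit 15360, nat_lit 1200, nat_lit 4656, R6_320, R5_25, R4_97⟩]⟩, ⟨nat_lit 7, [⟨nat_lit 6, nat_lit 7872, nat_lit 2016, nat_lit 18432, nat_lit 9552, nat_lit 10176, R8_384, R5_199, R5_212⟩]⟩]⟩,
 ⟨nat_lit 6, [⟨nat_lit 4, [⟨nat_lit 6, nat_lit 8112, nat_lit 1968, nat_lit 3456, nat_lit 1056, nat_lit 5232, R13_72, R11_22, R4_109⟩]⟩, ⟨nat_lit 7, [⟨nat_lit 6, nat_lit 8832, nat_lit 2112, nat_lit 2544, nat_lit 1104, nat_lit 10368, R9_53, R11_23, R5_216⟩]⟩]⟩], [⟨nat_lit 2, [⟨nat_lit 6, [⟨nat_lit 2, nat_lit 7152, nat_lit 2688, nat_lit 2496, nat_lit 1248, nat_lit 13104, R2_52, R10_26, R12_273⟩]⟩]⟩,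
 ⟨nat_lit 4, [⟨nat_lit 4, [⟨nat_lit 6, nat_lit 7584, nat_lit 2256, nat_lit 15408, nat_lit 1344, nat_lit 384, R6_321, R5_28, R3_8⟩]⟩, ⟨nat_lit 5, [⟨nat_lit 6, nat_lit 7680, nat_lit 2400, nat_lit 14688, nat_lit 13248, nat_lit 2880, R4_306, R5_276, R10_60⟩]⟩]⟩,
 ⟨nat_lit 6, [⟨nat_lit 4, [⟨nat_lit 6, nat_lit 8208, nat_lit 2352, nat_lit 3600, nat_lit 3840, nat_lit 3984, R13_75, R11_80, R3_83⟩]⟩, ⟨nat_lit 5, [⟨nat_lit 6, nat_lit 8400, nat_lit 2496, nat_lit 3312, nat_lit 3936, nat_lit 3552, R3_69, R11_82, R10_74⟩]⟩]⟩], [⟨nat_lit 2, [⟨nat_lit 6, [⟨nat_lit 0, nat_lit 7200, nat_lit 7008, nat_lit 2832, nat_lit 6480, nat_lit 4224, R2_59, R3_135, R2_88⟩, ⟨nat_lit 2, nat_lit 7248, nat_lit 7104, nat_lit 2880, nat_lit 1104, nat_lit 13296, R2_60, R10_23, R12_277⟩]⟩]⟩], [⟨nat_lit 2, [⟨nat_lit 6, [⟨nat_lit 0, nat_lit 7296, nat_lit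 1344, nat_lit 2544, nat_lit 7776, nat_lit 9216, R2_53, R3_162, R2_192⟩, ⟨nat_lit 2, nat_lit 7344, nat_lit 1440, nat_lit 2592, nat_lit 1200, nat_lit 8112, R2_54, R10_25, R12_169⟩]⟩]⟩,
 ⟨nat_lit 4, [⟨nat_lit 7, [⟨nat_lit 6, nat_lit 7968, nat_lit 1152, nat_lit 18480, nat_lit 9696, nat_lit 13440, R8_385, R5_202, R11_280⟩]⟩]⟩,
 ⟨nat_lit 6, [⟨nat_lit 7, [⟨nat_lit 6, nat_lit 8928, nat_lit 1296, nat_lit 2736, nat_lit 2400, nat_lit 13632, R9_57, R11_50, R11_284⟩]⟩]⟩]]], [[], [], [], [[⟨nat_lit 3, [⟨nat_lit 0, [⟨nat_lit 5, nat_lit 9360, nat_lit 14304, nat_lit 9072, nat_lit 10464, nat_lit 14112, R4_189, R11_218, R8_294⟩]⟩, ⟨nat_lit 2, [⟨nat_lit 5, nat_lit 9840, nat_lit 15216, nat_lit 6288, nat_lit 10608, nat_lit 8928, R5_131, R11_221, R5_186⟩]⟩]⟩], [], [⟨nat_lit 3, [⟨nat_lit 0, [⟨nat_lit 5, nat_lit 9408, nat_lit 17184,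 nat_lit 10656, nat_lit 10752, nat_lit 2064, R4_222, R11_224, R5_43⟩]⟩, ⟨nat_lit 2, [⟨nat_lit 5, nat_lit 9888, nat_lit 17232, nat_lit 6432, nat_lit 10896, nat_lit 2064, R5_134, R11_227, R11_43⟩]⟩]⟩]], [[], [], [], [⟨nat_lit 3, [⟨nat_lit 0, [⟨nat_lit 7, nat_lit 9456, nat_lit 8208, nat_lit 9792, nat_lit 240, nat_lit 13632, R4_204, R2_5, R3_284⟩]⟩, ⟨nat_lit 2, [⟨nat_lit 7, nat_lit 9984, nat_lit 8256, nat_lit 6096, nat_lit 288, nat_lit 1584, R5_127, R2_6, R10_33⟩]⟩]⟩,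
 ⟨nat_lit 4, [⟨nat_lit 3, [⟨nat_lit 4, nat_lit 10416, nat_lit 8688, nat_lit 15600, nat_lit 12240, nat_lit 11040, R7_325, R6_255, R3_230⟩, ⟨nat_lit 6, nat_lit 10464, nat_lit 8976, nat_lit 16080, nat_lit 14400, nat_lit 8784, R7_335, R8_300, R10_183⟩]⟩]⟩,
 ⟨nat_lit 7, [⟨nat_lit 0, [⟨nat_lit 4, nat_lit 10992, nat_lit 9168, nat_lit 9168, nat_lit 1248, nat_lit 1248, R7_191, R13_26, R13_26⟩, ⟨nat_lit 5, nat_lit 11088, nat_lit 9936, nat_lit 11040, nat_lit 1680, nat_lit 480, R7_230, R3_35, R9_10⟩, ⟨nat_lit 6, nat_lit 11040, nat_lit 11040, nat_lit 9936, nat_lit 480, nat_lit 1680, R7_207, R9_10, R3_35⟩, ⟨nat_lit 7, nat_lit 11136, nat_lit 10656, nat_lit 10656, nat_lit 12384, nat_lit 12384, R7_222, R3_258, R3_258⟩]⟩, ⟨nat_lit 3, [⟨nat_lit 4, nat_lit 11568, nat_lit 9216, nat_lit 1200, nat_lit 1296, nat_lit 11904, R14_25,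 R13_27, R3_248⟩, ⟨nat_lit 6, nat_lit 11616, nat_lit 11088, nat_lit 1248, nat_lit 528, nat_lit 10416, R14_26, R9_11, R10_217⟩]⟩]⟩], [], [], [], [⟨nat_lit 3, [⟨nat_lit 0, [⟨nat_lit 7, nat_lit 9504, nat_lit 8208, nat_lit 8208, nat_lit 2016, nat_lit 2016, R4_171, R2_42, R2_42⟩]⟩]⟩,
 ⟨nat_lit 4, [⟨nat_lit 3, [⟨nat_lit 4, nat_lit 10560, nat_lit 8784, nat_lit 15552, nat_lit 12816, nat_lit 7440, R7_324, R6_267, R2_155⟩]⟩, ⟨nat_lit 7, [⟨nat_lit 6, nat_lit 10752, nat_lit 9072, nat_lit 14304, nat_lit 14112, nat_lit 7536, R4_298, R8_294, R11_157⟩]⟩]⟩,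
 ⟨nat_lit 6, [⟨nat_lit 7, [⟨nat_lit 6, nat_lit 10848, nat_lit 10656, nat_lit 17184, nat_lit 2064, nat_lit 7680, R5_358, R5_43, R11_160⟩]⟩]⟩,
 ⟨nat_lit 7, [⟨nat_lit 0, [⟨nat_lit 7, nat_lit 11184, nat_lit 9792, nat_lit 8208, nat_lit 13632, nat_lit 240, R7_171, R3_284, R2_5⟩]⟩, ⟨nat_lit 3, [⟨nat_lit 4, nat_lit 11712, nat_lit 9312, nat_lit 1056, nat_lit 3264, nat_lit 8208, R14_22, R13_68, R2_171⟩, ⟨nat_lit 7, nat_lit 11808, nat_lit 9840, nat_lit 1152, nat_lit 13968, nat_lit 816, R14_24, R3_291, R12_17⟩]⟩]⟩]], [], [[], [], [], [], [], [], [], [⟨nat_lit 3, [⟨nat_lit 2, [⟨nat_lit 3, nat_lit 10128, nat_lit 6480, nat_lit 6480, nat_lit 1920, nat_lit 1920, R5_135, R11_40, R11_40⟩]⟩]⟩,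
 ⟨nat_lit 4, [⟨nat_lit 3, [⟨nat_lit 4, nat_lit 10656, nat_lit 6000, nat_lit 17328, nat_lit 12576, nat_lit 7680, R7_361, R4_262, R2_160⟩]⟩, ⟨nat_lit 7, [⟨nat_lit 6, nat_lit 10800, nat_lit 6288, nat_lit 15216, nat_lit 8928, nat_lit 8400, R4_317, R5_186, R11_175⟩]⟩]⟩,
 ⟨nat_lit 6, [⟨nat_lit 7, [⟨nat_lit 6, nat_lit 10896, nat_lit 6432, nat_lit 17232, nat_lit 2064, nat_lit 8448, R5_359, R11_43, R11_176⟩]⟩]⟩,
 ⟨nat_lit 7, [⟨nat_lit 0, [⟨nat_lit 7, nat_lit 11232, nat_lit 6096, nat_lit 8256, nat_lit 1584, nat_lit 288, R7_172, R10_33, R2_6⟩]⟩, ⟨nat_lit 3, [⟨nat_lit 4, nat_lit 11856, nat_lit 6048, nat_lit 1488, nat_lit 7680, nat_lit 8832, R14_31, R3_160, R2_184⟩, ⟨nat_lit 7, nat_lit 11952, nat_lit 6144, nat_lit 1584, nat_lit 1632, nat_lit 864, R14_33, R10_34, R12_18⟩]⟩]⟩]], [[⟨nat_lit 3, [⟨nat_lit 0, [⟨nat_lit 4, nat_lit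 9600, nat_lit 15552, nat_lit 8784, nat_lit 7440, nat_lit 12816, R4_183, R2_155, R6_267⟩]⟩, ⟨nat_lit 2, [⟨nat_lit 4, nat_lit 10176, nat_lit 17328, nat_lit 6000, nat_lit 7680, nat_lit 12576, R5_125, R2_160, R4_262⟩]⟩]⟩,
 ⟨nat_lit 7, [⟨nat_lit 0, [⟨nat_lit 4, nat_lit 11280, nat_lit 15600, nat_lit 8688, nat_lit 11040, nat_lit 12240, R7_181, R3_230, R6_255⟩, ⟨nat_lit 5, nat_lit 11376, nat_lit 16080, nat_lit 8976, nat_lit 8784, nat_lit 14400, R7_187, R10_183, R8_300⟩]⟩]⟩], [], [], [⟨nat_lit 3, [⟨nat_lit 0, [⟨nat_lit 7, nat_lit 9792, nat_lit 3216, nat_lit 9840, nat_lit 816, nat_lit 13968, R4_205, R12_17, R3_291⟩]⟩, ⟨nat_lit 2, [⟨nat_lit 7, nat_lit 10368, nat_lit 3360, nat_lit 6144, nat_lit 864, nat_lit 1632, R5_128, R12_18, R10_34⟩]⟩]⟩,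
 ⟨nat_lit 7, [⟨nat_lit 0, [⟨nat_lit 4, nat_lit 11424, nat_lit 2832, nat_lit 9216, nat_lit 11904, nat_lit 1296, R7_192, R3_248, R13_27⟩, ⟨nat_lit 5, nat_lit 11520, nat_lit 2880, nat_lit 11088, nat_lit 10416, nat_lit 528, R7_231, R10_217, R9_11⟩]⟩, ⟨nat_lit 3, [⟨nat_lit 4, nat_lit 12000, nat_lit 2976, nat_lit 1344, nat_lit 14592, nat_lit 14592, R14_28, R3_304, R3_304⟩]⟩]⟩]]], [[], [], [], [], [[], [⟨nat_lit 4, [⟨nat_lit 1, [⟨nat_lit 4, nat_lit 12144, nat_lit 8352, nat_lit 14688, nat_lit 2112, nat_lit 7920, R6_306, R6_44, R5_165⟩, ⟨nat_lit 6, nat_lit 12192, nat_lit 8448, nat_lit 14736, nat_lit 3120, nat_lit 48, R6_307, R8_65, R11_1⟩]⟩]⟩]], [[⟨nat_lit 4, [⟨nat_lit 1, [⟨nat_lit 4, nat_lit 12288, nat_lit 14832, nat_lit 14832, nat_lit 15408, nat_lit 15408, R6_309, R8_321, R8_321⟩, ⟨nat_lit 5, nat_lit 12384, nat_lit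 14928, nat_lit 15024, nat_lit 960, nat_lit 1824, R6_313, R5_20, R9_38⟩, ⟨nat_lit 6, nat_lit 12336, nat_lit 15024, nat_lit 14928, nat_lit 1824, nat_lit 960, R6_311, R9_38, R5_20⟩]⟩]⟩,
 ⟨nat_lit 5, [⟨nat_lit 0, [⟨nat_lit 4, nat_lit 12576, nat_lit 14688, nat_lit 8352, nat_lit 7920, nat_lit 2112, R6_174, R5_165, R6_44⟩, ⟨nat_lit 5, nat_lit 12672, nat_lit 14736, nat_lit 8448, nat_lit 10368, nat_lit 3120, R6_176, R11_216, R8_65⟩]⟩, ⟨nat_lit 1, [⟨nat_lit 4, nat_lit 12720, nat_lit 14880, nat_lit 19968, nat_lit 9168, nat_lit 15552, R13_416, R5_191, R8_324⟩, ⟨nat_lit 5, nat_lit 12816, nat_lit 14976, nat_lit 20160, nat_lit 11616, nat_lit 1872, R13_420, R11_242, R9_39⟩]⟩]⟩], [⟨nat_lit 4, [⟨nat_lit 1, [⟨nat_lit 4, nat_lit 12432, nat_lit 10704, nat_lit 14880, nat_lit 15552, nat_lit 9168, R6_310, R8_324, R5_191⟩, ⟨nat_lit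 6, nat_lit 12480, nat_lit 10800, nat_lit 14976, nat_lit 1872, nat_lit 528, R6_312, R9_39, R11_11⟩]⟩]⟩,
 ⟨nat_lit 5, [⟨nat_lit 1, [⟨nat_lit 4, nat_lit 12864, nat_lit 10848, nat_lit 20016, nat_lit 11328, nat_lit 11328, R13_417, R5_236, R5_236⟩]⟩]⟩]]], [[], [[⟨nat_lit 1, [⟨nat_lit 0, [⟨nat_lit 5, nat_lit 13008, nat_lit 16080, nat_lit 8976, nat_lit 14448, nat_lit 10464, R7_187, R10_301, R8_218⟩]⟩, ⟨nat_lit 1, [⟨nat_lit 5, nat_lit 13104, nat_lit 16176, nat_lit 8016, nat_lit 14640, nat_lit 10848, R2_167, R10_305, R9_226⟩]⟩, ⟨nat_lit 2, [⟨nat_lit 5, nat_lit 13248, nat_lit 16224, nat_lit 6384, nat_lit 14496, nat_lit 12960, R2_133, R10_302, R5_270⟩]⟩]⟩], [], [⟨nat_lit 1, [⟨nat_lit 0, [⟨nat_lit 5, nat_lit 13056, nat_lit 14976, nat_lit 9024, nat_lit 14976, nat_lit 2928, R7_188, R10_312, R5_61⟩]⟩, ⟨nat_lit 2, [⟨nat_lit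 5, nat_lit 13296, nat_lit 15168, nat_lit 6432, nat_lit 15024, nat_lit 2928, R2_134, R10_313, R11_61⟩]⟩]⟩]], [], [], [], [[⟨nat_lit 5, [⟨nat_lit 0, [⟨nat_lit 4, nat_lit 13488, nat_lit 14256, nat_lit 8976, nat_lit 8016, nat_lit 9840, R4_187, R5_167, R6_205⟩, ⟨nat_lit 5, nat_lit 13584, nat_lit 14304, nat_lit 9072, nat_lit 10464, nat_lit 10752, R4_189, R11_218, R8_224⟩]⟩, ⟨nat_lit 1, [⟨nat_lit 4, nat_lit 13776, nat_lit 14400, nat_lit 16368, nat_lit 9264, nat_lit 16608, R3_341, R5_193, R8_346⟩, ⟨nat_lit 5, nat_lit 13872, nat_lit 14448, nat_lit 16560, nat_lit 11712, nat_lit 11376, R3_345, R11_244, R9_237⟩]⟩]⟩], [⟨nat_lit 5, [⟨nat_lit 1, [⟨nat_lit 4, nat_lit 13920, nat_lit 8688, nat_lit 16416, nat_lit 11424, nat_lit 11472, R3_342, R5_238, R5_239⟩]⟩]⟩]]], [[], [], [], [], [[], [⟨nat_lit 4, [⟨nat_lit 1, [⟨nat_lit 4,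 nat_lit 14064, nat_lit 8976, nat_lit 14256, nat_lit 9840, nat_lit 8016, R4_297, R6_205, R5_167⟩, ⟨nat_lit 6, nat_lit 14112, nat_lit 9072, nat_lit 14304, nat_lit 10752, nat_lit 7536, R4_298, R8_224, R11_157⟩]⟩]⟩], [], [], [], [⟨nat_lit 4, [⟨nat_lit 5, [⟨nat_lit 6, nat_lit 14400, nat_lit 8976, nat_lit 16080, nat_lit 10464, nat_lit 14448, R7_335, R8_218, R10_301⟩]⟩]⟩]]], [[], [], [], [], [[⟨nat_lit 4, [⟨nat_lit 0, [⟨nat_lit 4, nat_lit 15120, nat_lit 4512, nat_lit 14496, nat_lit 4368, nat_lit 4368, R6_302, R6_91, R6_91⟩, ⟨nat_lit 5, nat_lit 15216, nat_lit 5664, nat_lit 16080, nat_lit 4608, nat_lit 7440, R6_335, R4_96, R8_155⟩, ⟨nat_lit 6, nat_lit 15168, nat_lit 6816, nat_lit 15264, nat_lit 7440, nat_lit 4608, R6_318, R8_155, R4_96⟩]⟩, ⟨nat_lit 1, [⟨nat_lit 4, nat_lit 15696, nat_lit 4560, nat_lit 15696, nat_lit 4560,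 nat_lit 12288, R8_327, R6_95, R8_256⟩, ⟨nat_lit 5, nat_lit 15792, nat_lit 5712, nat_lit 15984, nat_lit 4848, nat_lit 7968, R8_333, R4_101, R9_166⟩, ⟨nat_lit 6, nat_lit 15744, nat_lit 6864, nat_lit 15840, nat_lit 7728, nat_lit 7968, R8_330, R8_161, R5_166⟩]⟩]⟩,
 ⟨nat_lit 7, [⟨nat_lit 0, [⟨nat_lit 4, nat_lit 17568, nat_lit 5040, nat_lit 4752, nat_lit 96, nat_lit 5376, R4_99, R13_2, R6_112⟩, ⟨nat_lit 5, nat_lit 17664, nat_lit 6384, nat_lit 7392, nat_lit 288, nat_lit 7488, R4_154, R3_6, R8_156⟩, ⟨nat_lit 6, nat_lit 17616, nat_lit 7056, nat_lit 6048, nat_lit 0, nat_lit 5712, R4_126, R9_0, R4_119⟩]⟩, ⟨nat_lit 1, [⟨nat_lit 4, nat_lit 18288, nat_lit 5088, nat_lit 9168, nat_lit 144, nat_lit 12432, R5_191, R13_3, R8_259⟩, ⟨nat_lit 5, nat_lit 18384, nat_lit 6432, nat_lit 9408, nat_lit 336, nat_lit 8016, R5_196, R3_7, R9_167⟩,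 ⟨nat_lit 6, nat_lit 18336, nat_lit 7104, nat_lit 9312, nat_lit 48, nat_lit 8112, R5_194, R9_1, R5_169⟩]⟩]⟩], [⟨nat_lit 4, [⟨nat_lit 1, [⟨nat_lit 4, nat_lit 15840, nat_lit 7728, nat_lit 15744, nat_lit 6864, nat_lit 7968, R8_328, R6_143, R5_166⟩, ⟨nat_lit 6, nat_lit 15888, nat_lit 7824, nat_lit 15888, nat_lit 7824, nat_lit 10416, R8_331, R8_163, R11_217⟩]⟩]⟩,
 ⟨nat_lit 7, [⟨nat_lit 1, [⟨nat_lit 4, nat_lit 18432, nat_lit 7872, nat_lit 9552, nat_lit 2016, nat_lit 10176, R5_199, R13_42, R5_212⟩, ⟨nat_lit 6, nat_lit 18480, nat_lit 7968, nat_lit 9696, nat_lit 1152, nat_lit 10560, R5_202, R9_24, R11_220⟩]⟩]⟩], [], [⟨nat_lit 4, [⟨nat_lit 0, [⟨nat_lit 4, nat_lit 15264, nat_lit 4752, nat_lit 14544, nat_lit 5376, nat_lit 96, R6_303, R6_112, R13_2⟩, ⟨nat_lit 5, nat_lit 15360, nat_lit 6048, nat_lit 16128, nat_lit 5712, nat_lit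 0, R6_336, R4_119, R9_0⟩, ⟨nat_lit 6, nat_lit 15312, nat_lit 7392, nat_lit 15312, nat_lit 7488, nat_lit 288, R6_319, R8_156, R3_6⟩]⟩, ⟨nat_lit 1, [⟨nat_lit 4, nat_lit 15984, nat_lit 4848, nat_lit 15792, nat_lit 5712, nat_lit 7968, R8_329, R6_119, R9_166⟩]⟩, ⟨nat_lit 3, [⟨nat_lit 4, nat_lit 16464, nat_lit 4800, nat_lit 14160, nat_lit 5520, nat_lit 11376, R4_295, R6_115, R3_237⟩, ⟨nat_lit 6, nat_lit 16512, nat_lit 7440, nat_lit 14640, nat_lit 7632, nat_lit 8736, R4_305, R8_159, R10_182⟩]⟩]⟩,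
 ⟨nat_lit 7, [⟨nat_lit 0, [⟨nat_lit 4, nat_lit 17712, nat_lit 5328, nat_lit 5328, nat_lit 672, nat_lit 672, R4_111, R13_14, R13_14⟩, ⟨nat_lit 5, nat_lit 17808, nat_lit 6624, nat_lit 7728, nat_lit 1008, nat_lit 240, R4_161, R3_21, R9_5⟩, ⟨nat_lit 6, nat_lit 17760, nat_lit 7728, nat_lit 6624, nat_lit 240, nat_lit 1008, R4_138, R9_5, R3_21⟩, ⟨nat_lit 7, nat_lit 17856, nat_lit 7056, nat_lit 7056, nat_lit 4368, nat_lit 4368, R4_147, R3_91, R3_91⟩]⟩, ⟨nat_lit 1, [⟨nat_lit 4, nat_lit 18576, nat_lit 5376, nat_lit 9936, nat_lit 720, nat_lit 8784, R5_207, R13_15, R9_183⟩]⟩]⟩]], [[⟨nat_lit 4, [⟨nat_lit 0, [⟨nat_lit 4, nat_lit 15408, nat_lit 15696, nat_lit 14832, nat_lit 12288, nat_lit 4560, R6_309, R8_256, R6_95⟩, ⟨nat_lit 5, nat_lit 15504, nat_lit 15840, nat_lit 16752, nat_lit 7968, nat_lit 7728, R6_349, R5_166, R8_161⟩,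 ⟨nat_lit 6, nat_lit 15456, nat_lit 15984, nat_lit 15456, nat_lit 7968, nat_lit 4848, R6_322, R9_166, R4_101⟩]⟩, ⟨nat_lit 1, [⟨nat_lit 4, nat_lit 16080, nat_lit 16080, nat_lit 16080, nat_lit 16080, nat_lit 16080, R8_335, R8_335, R8_335⟩, ⟨nat_lit 5, nat_lit 16176, nat_lit 16224, nat_lit 16368, nat_lit 9216, nat_lit 8400, R8_341, R5_192, R9_175⟩, ⟨nat_lit 6, nat_lit 16128, nat_lit 16368, nat_lit 16224, nat_lit 8400, nat_lit 9216, R8_338, R9_175, R5_192⟩]⟩]⟩,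
 ⟨nat_lit 5, [⟨nat_lit 0, [⟨nat_lit 4, nat_lit 16752, nat_lit 15744, nat_lit 7728, nat_lit 7968, nat_lit 6864, R8_161, R5_166, R6_143⟩, ⟨nat_lit 5, nat_lit 16848, nat_lit 15888, nat_lit 7824, nat_lit 10416, nat_lit 7824, R8_163, R11_217, R8_163⟩]⟩, ⟨nat_lit 1, [⟨nat_lit 4, nat_lit 17040, nat_lit 16128, nat_lit 16272, nat_lit 9216, nat_lit 16368, R9_339, R5_192, R8_341⟩, ⟨nat_lit 5, nat_lit 17136, nat_lit 16272, nat_lit 16560, nat_lit 11664, nat_lit 8496, R9_345, R11_243, R9_177⟩]⟩]⟩,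
 ⟨nat_lit 7, [⟨nat_lit 0, [⟨nat_lit 4, nat_lit 17904, nat_lit 15792, nat_lit 4848, nat_lit 7968, nat_lit 5712, R4_101, R9_166, R6_119⟩]⟩, ⟨nat_lit 1, [⟨nat_lit 4, nat_lit 18720, nat_lit 16176, nat_lit 9216, nat_lit 8400, nat_lit 16224, R5_192, R9_175, R8_338⟩]⟩]⟩], [⟨nat_lit 4, [⟨nat_lit 1, [⟨nat_lit 4, nat_lit 16224, nat_lit 8400, nat_lit 16128, nat_lit 16368, nat_lit 9216, R8_336, R8_341, R5_192⟩, ⟨nat_lit 6, nat_lit 16272, nat_lit 8496, nat_lit 16272, nat_lit 8496, nat_lit 11664, R8_339, R9_177, R11_243⟩]⟩]⟩,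
 ⟨nat_lit 5, [⟨nat_lit 1, [⟨nat_lit 4, nat_lit 17184, nat_lit 8544, nat_lit 16320, nat_lit 11376, nat_lit 11376, R9_340, R5_237, R5_237⟩]⟩]⟩], [], [⟨nat_lit 4, [⟨nat_lit 0, [⟨nat_lit 4, nat_lit 15552, nat_lit 9168, nat_lit 14880, nat_lit 12432, nat_lit 144, R6_310, R8_259, R13_3⟩, ⟨nat_lit 5, nat_lit 15648, nat_lit 9312, nat_lit 16800, nat_lit 8112, nat_lit 48, R6_350, R5_169, R9_1⟩]⟩, ⟨nat_lit 1, [⟨nat_lit 4, nat_lit 16368, nat_lit 9216, nat_lit 16176, nat_lit 16224, nat_lit 8400, R8_337, R8_338, R9_175⟩]⟩, ⟨nat_lit 3, [⟨nat_lit 6, nat_lit 16656, nat_lit 9504, nat_lit 14736, nat_lit 8256, nat_lit 9456, R4_307, R9_172, R10_197⟩]⟩]⟩,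
 ⟨nat_lit 5, [⟨nat_lit 0, [⟨nat_lit 4, nat_lit 16896, nat_lit 9552, nat_lit 7872, nat_lit 10176, nat_lit 2016, R8_164, R5_212, R13_42⟩, ⟨nat_lit 5, nat_lit 16992, nat_lit 9696, nat_lit 7968, nat_lit 13440, nat_lit 1152, R8_166, R11_280, R9_24⟩]⟩, ⟨nat_lit 1, [⟨nat_lit 4, nat_lit 17328, nat_lit 9600, nat_lit 16368, nat_lit 11040, nat_lit 9888, R9_341, R5_230, R9_206⟩]⟩]⟩,
 ⟨nat_lit 7, [⟨nat_lit 1, [⟨nat_lit 4, nat_lit 18912, nat_lit 9984, nat_lit 9984, nat_lit 9504, nat_lit 9504, R5_208, R9_198, R9_198⟩]⟩]⟩]], [], [[⟨nat_lit 7, [⟨nat_lit 0, [⟨nat_lit 4, nat_lit 18144, nat_lit 14160, nat_lit 4800, nat_lit 11376, nat_lit 5520, R4_100, R3_237, R6_115⟩, ⟨nat_lit 5, nat_lit 18240, nat_lit 14640, nat_lit 7440, nat_lit 8736, nat_lit 7632, R4_155, R10_182, R8_159⟩]⟩, ⟨nat_lit 1, [⟨nat_lit 4, nat_lit 19008, nat_lit 14400,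 nat_lit 9264, nat_lit 16368, nat_lit 14208, R5_193, R3_341, R8_296⟩, ⟨nat_lit 5, nat_lit 19104, nat_lit 14736, nat_lit 9504, nat_lit 9456, nat_lit 8256, R5_198, R10_197, R9_172⟩]⟩]⟩], [⟨nat_lit 7, [⟨nat_lit 1, [⟨nat_lit 4, nat_lit 19152, nat_lit 16944, nat_lit 9648, nat_lit 17664, nat_lit 10656, R5_201, R3_368, R5_222⟩]⟩]⟩]]]]
noncomputable def N0110 : T3 (List N0) := [[], [[], [[⟨nat_lit 0, [⟨nat_lit 0, [⟨nat_lit 2, nat_lit 1008, nat_lit 672, nat_lit 6768, nat_lit 4320, nat_lit 3120, R4_141, R3_90, R6_65⟩]⟩, ⟨nat_lit 2, [⟨nat_lit 2, nat_lit 1104, nat_lit 816, nat_lit 5472, nat_lit 4896, nat_lit 2784, R3_114, R3_102, R4_58⟩]⟩]⟩,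
 ⟨nat_lit 2, [⟨nat_lit 2, [⟨nat_lit 2, nat_lit 1152, nat_lit 912, nat_lit 672, nat_lit 14064, nat_lit 2832, R10_14, R10_293, R4_59⟩]⟩]⟩,
 ⟨nat_lit 3, [⟨nat_lit 3, [⟨nat_lit 0, nat_lit 960, nat_lit 480, nat_lit 1344, nat_lit 4752, nat_lit 4320, R11_28, R5_99, R6_90⟩, ⟨nat_lit 3, nat_lit 1392, nat_lit 528, nat_lit 1440, nat_lit 18000, nat_lit 4416, R11_30, R11_375, R4_92⟩]⟩]⟩,
 ⟨nat_lit 4, [⟨nat_lit 4, [⟨nat_lit 7, nat_lit 672, nat_lit 1008, nat_lit 6768, nat_lit 4320, nat_lit 3120, R4_141, R3_90, R6_65⟩]⟩, ⟨nat_lit 7, [⟨nat_lit 7, nat_lit 816, nat_lit 1104, nat_lit 5472, nat_lit 4896, nat_lit 2784, R3_114, R3_102, R4_58⟩]⟩]⟩,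
 ⟨nat_lit 6, [⟨nat_lit 6, [⟨nat_lit 4, nat_lit 480, nat_lit 960, nat_lit 1344, nat_lit 4752, nat_lit 4320, R11_28, R5_99, R6_90⟩, ⟨nat_lit 6, nat_lit 528, nat_lit 1392, nat_lit 1440, nat_lit 18000, nat_lit 4416, R11_30, R11_375, R4_92⟩]⟩]⟩,
 ⟨nat_lit 7, [⟨nat_lit 7, [⟨nat_lit 7, nat_lit 912, nat_lit 1152, nat_lit 672, nat_lit 14064, nat_lit 2832, R10_14, R10_293, R4_59⟩]⟩]⟩], [], [⟨nat_lit 4, [⟨nat_lit 4, [⟨nat_lit 4, nat_lit 6768, nat_lit 4320, nat_lit 672, nat_lit 1008, nat_lit 16032, R4_14, R4_21, R6_334⟩, ⟨nat_lit 7, nat_lit 7056, nat_lit 4368, nat_lit 7056, nat_lit 4368, nat_lit 17856, R4_147, R3_91, R8_372⟩]⟩, ⟨nat_lit 7, [⟨nat_lit 7, nat_lit 7200, nat_lit 4416, nat_lit 5520, nat_lit 4944, nat_lit 4224, R3_115, R3_103, R5_88⟩]⟩]⟩,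
 ⟨nat_lit 6, [⟨nat_lit 4, [⟨nat_lit 4, nat_lit 6816, nat_lit 4512, nat_lit 1584, nat_lit 0, nat_lit 16272, R5_33, R5_0, R6_339⟩]⟩, ⟨nat_lit 6, [⟨nat_lit 4, nat_lit 6864, nat_lit 4656, nat_lit 1488, nat_lit 5040, nat_lit 4416, R11_31, R5_105, R13_92⟩, ⟨nat_lit 6, nat_lit 6912, nat_lit 4752, nat_lit 1584, nat_lit 18192, nat_lit 17568, R11_33, R11_379, R3_366⟩]⟩]⟩,
 ⟨nat_lit 7, [⟨nat_lit 7, [⟨nat_lit 7, nat_lit 7296, nat_lit 4464, nat_lit 816, nat_lit 14256, nat_lit 4320, R10_17, R10_297, R5_90⟩]⟩]⟩]], [[], [], [⟨nat_lit 4, [⟨nat_lit 4, [⟨nat_lit 4, nat_lit 6288, nat_lit 720, nat_lit 2400, nat_lit 480, nat_lit 15984, R4_50, R8_10, R6_333⟩, ⟨nat_lit 5, nat_lit 6432, nat_lit 864, nat_lit 11232, nat_lit 5136, nat_lit 14976, R4_234, R5_107, R4_312⟩, ⟨nat_lit 7, nat_lit 6624, nat_lit 1008, nat_lit 7728, nat_lit 4608,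 nat_lit 17808, R4_161, R9_96, R8_371⟩]⟩, ⟨nat_lit 7, [⟨nat_lit 7, nat_lit 6672, nat_lit 1056, nat_lit 7152, nat_lit 4848, nat_lit 3744, R3_149, R9_101, R5_78⟩]⟩]⟩,
 ⟨nat_lit 6, [⟨nat_lit 4, [⟨nat_lit 4, nat_lit 6336, nat_lit 768, nat_lit 1680, nat_lit 3744, nat_lit 16224, R5_35, R9_78, R6_338⟩]⟩, ⟨nat_lit 6, [⟨nat_lit 4, nat_lit 6384, nat_lit 816, nat_lit 3600, nat_lit 3984, nat_lit 4368, R11_75, R9_83, R13_91⟩]⟩]⟩], [], [], [], [⟨nat_lit 4, [⟨nat_lit 4, [⟨nat_lit 5, nat_lit 12912, nat_lit 3984, nat_lit 11376, nat_lit 5184, nat_lit 16656, R4_237, R5_108, R7_347⟩]⟩]⟩]], [[⟨nat_lit 4, [⟨nat_lit 4, [⟨nat_lit 7, nat_lit 2400, nat_lit 480, nat_lit 6288, nat_lit 720, nat_lit 2640, R4_131, R3_15, R6_55⟩]⟩, ⟨nat_lit 7, [⟨nat_lit 3, nat_lit 2640, nat_lit 1248, nat_lit 6384, nat_lit 4128, nat_lit 2496, R3_133, R2_86,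 R7_52⟩, ⟨nat_lit 7, nat_lit 2544, nat_lit 864, nat_lit 6048, nat_lit 6048, nat_lit 2544, R3_126, R3_126, R4_53⟩]⟩]⟩,
 ⟨nat_lit 7, [⟨nat_lit 7, [⟨nat_lit 3, nat_lit 2688, nat_lit 1296, nat_lit 1056, nat_lit 12864, nat_lit 2544, R10_22, R12_268, R7_53⟩]⟩]⟩], [], [⟨nat_lit 4, [⟨nat_lit 4, [⟨nat_lit 7, nat_lit 7728, nat_lit 4608, nat_lit 6624, nat_lit 1008, nat_lit 17760, R4_138, R3_21, R8_370⟩]⟩, ⟨nat_lit 7, [⟨nat_lit 7, nat_lit 7872, nat_lit 4656, nat_lit 6096, nat_lit 6192, nat_lit 4128, R3_127, R3_129, R5_86⟩]⟩]⟩], [⟨nat_lit 4, [⟨nat_lit 4, [⟨nat_lit 7, nat_lit 11232, nat_lit 5136, nat_lit 6432, nat_lit 864, nat_lit 14976, R4_134, R3_18, R4_312⟩]⟩]⟩,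
 ⟨nat_lit 7, [⟨nat_lit 7, [⟨nat_lit 3, nat_lit 11472, nat_lit 5280, nat_lit 1488, nat_lit 12912, nat_lit 1920, R10_31, R12_269, R14_40⟩]⟩]⟩]]], [[], [], [[], [], [], [], [], [], [⟨nat_lit 4, [⟨nat_lit 4, [⟨nat_lit 5, nat_lit 12576, nat_lit 7680, nat_lit 10656, nat_lit 6000, nat_lit 16464, R8_222, R5_125, R7_343⟩]⟩, ⟨nat_lit 5, [⟨nat_lit 5, nat_lit 12720, nat_lit 7824, nat_lit 7392, nat_lit 6912, nat_lit 14736, R5_154, R5_144, R2_307⟩]⟩]⟩,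
 ⟨nat_lit 5, [⟨nat_lit 4, [⟨nat_lit 5, nat_lit 12624, nat_lit 7728, nat_lit 12768, nat_lit 5616, nat_lit 16608, R5_266, R11_117, R7_346⟩]⟩, ⟨nat_lit 5, [⟨nat_lit 5, nat_lit 12768, nat_lit 7872, nat_lit 7008, nat_lit 6528, nat_lit 14880, R11_146, R11_136, R2_310⟩]⟩]⟩]], [], [[], [], [], [], [⟨nat_lit 5, [⟨nat_lit 4, [⟨nat_lit 1, nat_lit 12144, nat_lit 13584, nat_lit 1008, nat_lit 16032, nat_lit 15168, R5_21, R3_334, R6_316⟩]⟩, ⟨nat_lit 5, [⟨nat_lit 0, nat_lit 12096, nat_lit 13536, nat_lit 7488, nat_lit 3168, nat_lit 10752, R11_156, R4_66, R6_224⟩, ⟨nat_lit 1, nat_lit 12192, nat_lit 13632, nat_lit 7824, nat_lit 16128, nat_lit 20256, R11_163, R3_336, R13_422⟩]⟩]⟩], [⟨nat_lit 5, [⟨nat_lit 5, [⟨nat_lit 0, nat_lit 13344, nat_lit 13344, nat_lit 7584, nat_lit 11616, nat_lit 11616, R11_158, R4_242, R4_242⟩, ⟨nat_lit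 1, nat_lit 13392, nat_lit 13392, nat_lit 7920, nat_lit 16752, nat_lit 16752, R11_165, R3_349, R3_349⟩]⟩]⟩], [], [⟨nat_lit 5, [⟨nat_lit 4, [⟨nat_lit 0, nat_lit 14256, nat_lit 13488, nat_lit 8016, nat_lit 8976, nat_lit 17088, R5_167, R4_187, R6_356⟩, ⟨nat_lit 1, nat_lit 14400, nat_lit 13776, nat_lit 9264, nat_lit 16368, nat_lit 16608, R5_193, R3_341, R8_346⟩]⟩, ⟨nat_lit 5, [⟨nat_lit 0, nat_lit 14304, nat_lit 13584, nat_lit 7536, nat_lit 9072, nat_lit 10752, R11_157, R4_189, R8_224⟩, ⟨nat_lit 1, nat_lit 14448, nat_lit 13872, nat_lit 7872, nat_lit 16560, nat_lit 16656, R11_164, R3_345, R9_347⟩]⟩]⟩]], [], [[], [], [], [], [⟨nat_lit 5, [⟨nat_lit 4, [⟨nat_lit 1, nat_lit 12288, nat_lit 10608, nat_lit 1152, nat_lit 2976, nat_lit 15216, R5_24, R10_62, R6_317⟩]⟩, ⟨nat_lit 5, [⟨nat_lit 1, nat_lit 12336, nat_lit 10656, nat_lit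 9504, nat_lit 3168, nat_lit 20304, R11_198, R10_66, R13_423⟩]⟩]⟩], [⟨nat_lit 5, [⟨nat_lit 5, [⟨nat_lit 1, nat_lit 13728, nat_lit 8640, nat_lit 9600, nat_lit 3312, nat_lit 16800, R11_200, R10_69, R3_350⟩]⟩]⟩], [⟨nat_lit 5, [⟨nat_lit 4, [⟨nat_lit 1, nat_lit 13248, nat_lit 15264, nat_lit 13200, nat_lit 3024, nat_lit 14592, R5_275, R10_63, R4_304⟩]⟩, ⟨nat_lit 5, [⟨nat_lit 1, nat_lit 13296, nat_lit 15312, nat_lit 9648, nat_lit 3216, nat_lit 10464, R11_201, R10_67, R3_218⟩]⟩]⟩], [⟨nat_lit 5, [⟨nat_lit 4, [⟨nat_lit 1, nat_lit 14736, nat_lit 8256, nat_lit 9504, nat_lit 3072, nat_lit 16656, R5_198, R10_64, R8_347⟩]⟩, ⟨nat_lit 5, [⟨nat_lit 1, nat_lit 14784, nat_lit 8304, nat_lit 9552, nat_lit 3264, nat_lit 16704, R11_199, R10_68, R9_348⟩]⟩]⟩]], [[], [], [], [], [], [], [], [⟨nat_lit 5, [⟨nat_lit 4, [⟨nat_lit 0, nat_lit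 15168, nat_lit 8784, nat_lit 8160, nat_lit 4656, nat_lit 17136, R5_170, R5_97, R6_357⟩, ⟨nat_lit 3, nat_lit 15456, nat_lit 8880, nat_lit 8880, nat_lit 4656, nat_lit 15456, R5_185, R11_97, R4_322⟩]⟩, ⟨nat_lit 5, [⟨nat_lit 0, nat_lit 15216, nat_lit 8928, nat_lit 8400, nat_lit 6288, nat_lit 10800, R11_175, R5_131, R8_225⟩, ⟨nat_lit 3, nat_lit 15504, nat_lit 9024, nat_lit 8544, nat_lit 4704, nat_lit 17088, R11_178, R11_98, R5_356⟩]⟩]⟩]]], [[], [], [], [[⟨nat_lit 4, [⟨nat_lit 7, [⟨nat_lit 7, nat_lit 2784, nat_lit 1104, nat_lit 4896, nat_lit 5472, nat_lit 816, R3_102, R3_114, R4_17⟩]⟩]⟩,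
 ⟨nat_lit 5, [⟨nat_lit 7, [⟨nat_lit 7, nat_lit 2832, nat_lit 1152, nat_lit 4608, nat_lit 4032, nat_lit 912, R10_96, R10_84, R4_19⟩]⟩]⟩,
 ⟨nat_lit 7, [⟨nat_lit 3, [⟨nat_lit 3, nat_lit 3120, nat_lit 3744, nat_lit 576, nat_lit 12960, nat_lit 3984, R12_12, R12_270, R4_83⟩]⟩]⟩], [], [⟨nat_lit 4, [⟨nat_lit 7, [⟨nat_lit 7, nat_lit 7968, nat_lit 96, nat_lit 5184, nat_lit 5616, nat_lit 3984, R3_108, R3_117, R5_83⟩]⟩]⟩,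
 ⟨nat_lit 5, [⟨nat_lit 7, [⟨nat_lit 7, nat_lit 8016, nat_lit 144, nat_lit 4656, nat_lit 4080, nat_lit 4080, R10_97, R10_85, R5_85⟩]⟩]⟩]], [[], [], [], [⟨nat_lit 5, [⟨nat_lit 7, [⟨nat_lit 0, nat_lit 11520, nat_lit 14256, nat_lit 7008, nat_lit 13488, nat_lit 12288, R10_146, R4_281, R7_256⟩]⟩]⟩], [], [], [], [⟨nat_lit 5, [⟨nat_lit 7, [⟨nat_lit 0, nat_lit 14544, nat_lit 13104, nat_lit 6960, nat_lit 8880, nat_lit 10848, R10_145, R4_185, R4_226⟩, ⟨nat_lit 1, nat_lit 14592, nat_lit 13248, nat_lit 7152, nat_lit 15264, nat_lit 13200, R10_149, R3_318, R5_275⟩]⟩]⟩]], [], [[], [], [], [], [], [], [], [⟨nat_lit 5, [⟨nat_lit 7, [⟨nat_lit 1, nat_lit 14880, nat_lit 16224, nat_lit 8544, nat_lit 2928, nat_lit 13344, R10_178, R10_61, R5_278⟩]⟩]⟩]], [[⟨nat_lit 5, [⟨nat_lit 7, [⟨nat_lit 3, nat_lit 4272, nat_lit 1776, nat_lit 7584,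 nat_lit 4512, nat_lit 1536, R10_158, R11_94, R7_32⟩]⟩]⟩], [], [], [⟨nat_lit 5, [⟨nat_lit 7, [⟨nat_lit 0, nat_lit 11952, nat_lit 5232, nat_lit 7344, nat_lit 14976, nat_lit 12528, R10_153, R5_312, R7_261⟩, ⟨nat_lit 3, nat_lit 12048, nat_lit 5280, nat_lit 7632, nat_lit 4560, nat_lit 1824, R10_159, R11_95, R14_38⟩]⟩]⟩]]], [[], [], [], [], [[], [⟨nat_lit 1, [⟨nat_lit 0, [⟨nat_lit 0, nat_lit 8640, nat_lit 12720, nat_lit 4704, nat_lit 15456, nat_lit 10032, R7_98, R7_322, R6_209⟩]⟩, ⟨nat_lit 1, [⟨nat_lit 0, nat_lit 8736, nat_lit 12768, nat_lit 3120, nat_lit 15648, nat_lit 10992, R2_65, R7_326, R4_229⟩]⟩, ⟨nat_lit 3, [⟨nat_lit 0, nat_lit 8784, nat_lit 12816, nat_lit 7440, nat_lit 15552, nat_lit 10560, R2_155, R7_324, R8_220⟩, ⟨nat_lit 3, nat_lit 8832, nat_lit 12864, nat_lit 7536, nat_lit 14448, nat_lit 432, R2_157, R2_301,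 R5_9⟩]⟩]⟩,
 ⟨nat_lit 5, [⟨nat_lit 0, [⟨nat_lit 0, nat_lit 8592, nat_lit 12912, nat_lit 4560, nat_lit 14064, nat_lit 9792, R4_95, R4_293, R6_204⟩]⟩, ⟨nat_lit 1, [⟨nat_lit 0, nat_lit 8688, nat_lit 12960, nat_lit 144, nat_lit 14112, nat_lit 10800, R3_3, R4_294, R4_225⟩]⟩]⟩]], [[⟨nat_lit 1, [⟨nat_lit 0, [⟨nat_lit 2, nat_lit 3360, nat_lit 3600, nat_lit 48, nat_lit 96, nat_lit 3216, R7_1, R12_2, R6_67⟩]⟩, ⟨nat_lit 3, [⟨nat_lit 0, nat_lit 3312, nat_lit 3648, nat_lit 1152, nat_lit 0, nat_lit 2448, R2_24, R14_0, R6_51⟩, ⟨nat_lit 2, nat_lit 3408, nat_lit 3744, nat_lit 1440, nat_lit 912, nat_lit 2832, R2_30, R12_19, R8_59⟩, ⟨nat_lit 3, nat_lit 3456, nat_lit 3696, nat_lit 1296, nat_lit 12672, nat_lit 2352, R2_27, R12_264, R4_49⟩]⟩]⟩], [⟨nat_lit 1, [⟨nat_lit 0, [⟨nat_lit 0, nat_lit 9216, nat_lit 18288, nat_lit 4896, nat_lit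 672, nat_lit 10080, R7_102, R14_14, R6_210⟩, ⟨nat_lit 2, nat_lit 9360, nat_lit 18480, nat_lit 4992, nat_lit 384, nat_lit 2304, R7_104, R12_8, R13_48⟩]⟩]⟩]]], [[], [[⟨nat_lit 0, [⟨nat_lit 0, [⟨nat_lit 2, nat_lit 1584, nat_lit 3600, nat_lit 6576, nat_lit 12336, nat_lit 3264, R7_137, R3_257, R6_68⟩]⟩, ⟨nat_lit 2, [⟨nat_lit 2, nat_lit 1632, nat_lit 3936, nat_lit 4752, nat_lit 13104, nat_lit 2928, R2_99, R3_273, R4_61⟩]⟩, ⟨nat_lit 3, [⟨nat_lit 0, nat_lit 1488, nat_lit 3648, nat_lit 1920, nat_lit 8160, nat_lit 4176, R2_40, R4_170, R6_87⟩, ⟨nat_lit 2, nat_lit 1728, nat_lit 3792, nat_lit 9696, nat_lit 12768, nat_lit 2928, R2_202, R3_266, R8_61⟩]⟩]⟩]], [], [], [], [[⟨nat_lit 1, [⟨nat_lit 0, [⟨nat_lit 2, nat_lit 3648, nat_lit 3552, nat_lit 15456, nat_lit 144, nat_lit 3360, R14_322, R12_3, R6_70⟩]⟩, ⟨nat_lit 2, [⟨nat_lit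 2, nat_lit 3744, nat_lit 3984, nat_lit 12960, nat_lit 576, nat_lit 3120, R12_270, R12_12, R4_65⟩]⟩, ⟨nat_lit 3, [⟨nat_lit 0, nat_lit 3552, nat_lit 3648, nat_lit 144, nat_lit 96, nat_lit 3360, R12_3, R14_2, R6_70⟩, ⟨nat_lit 2, nat_lit 3888, nat_lit 3888, nat_lit 1008, nat_lit 1008, nat_lit 3072, R12_21, R12_21, R8_64⟩, ⟨nat_lit 3, nat_lit 3984, nat_lit 3744, nat_lit 576, nat_lit 12960, nat_lit 3120, R12_12, R12_270, R4_65⟩]⟩]⟩], [⟨nat_lit 0, [⟨nat_lit 0, [⟨nat_lit 0, nat_lit 9648, nat_lit 13584, nat_lit 1056, nat_lit 1584, nat_lit 9936, R7_22, R7_33, R6_207⟩]⟩]⟩,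
 ⟨nat_lit 1, [⟨nat_lit 0, [⟨nat_lit 0, nat_lit 9696, nat_lit 13872, nat_lit 15696, nat_lit 720, nat_lit 10128, R14_327, R14_15, R6_211⟩, ⟨nat_lit 2, nat_lit 9936, nat_lit 14064, nat_lit 16128, nat_lit 432, nat_lit 2448, R14_336, R12_9, R13_51⟩]⟩, ⟨nat_lit 1, [⟨nat_lit 0, nat_lit 9744, nat_lit 13920, nat_lit 12768, nat_lit 1680, nat_lit 11184, R12_266, R14_35, R4_233⟩, ⟨nat_lit 2, nat_lit 9984, nat_lit 14112, nat_lit 13200, nat_lit 2496, nat_lit 2880, R12_275, R12_52, R3_60⟩]⟩, ⟨nat_lit 2, [⟨nat_lit 2, nat_lit 10080, nat_lit 14208, nat_lit 13488, nat_lit 624, nat_lit 9840, R12_281, R12_13, R3_205⟩]⟩, ⟨nat_lit 3, [⟨nat_lit 0, nat_lit 9840, nat_lit 13968, nat_lit 6912, nat_lit 1152, nat_lit 11808, R12_144, R14_24, R8_246⟩, ⟨nat_lit 2, nat_lit 10224, nat_lit 14160, nat_lit 8448, nat_lit 1584, nat_lit 1776, R12_176,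 R12_33, R9_37⟩, ⟨nat_lit 3, nat_lit 10320, nat_lit 14016, nat_lit 7776, nat_lit 15888, nat_lit 864, R12_162, R12_331, R5_18⟩]⟩]⟩]]], [[], [], [], [], [[], [⟨nat_lit 5, [⟨nat_lit 1, [⟨nat_lit 0, nat_lit 8880, nat_lit 13104, nat_lit 6960, nat_lit 14544, nat_lit 10848, R10_145, R4_303, R4_226⟩]⟩]⟩], [], [], [], [⟨nat_lit 5, [⟨nat_lit 1, [⟨nat_lit 0, nat_lit 13488, nat_lit 14256, nat_lit 7008, nat_lit 11520, nat_lit 12288, R10_146, R4_240, R7_256⟩]⟩]⟩]]], [[], [], [], [], [[⟨nat_lit 5, [⟨nat_lit 3, [⟨nat_lit 0, nat_lit 3168, nat_lit 13536, nat_lit 7488, nat_lit 12096, nat_lit 912, R11_156, R4_252, R6_19⟩]⟩]⟩], [⟨nat_lit 5, [⟨nat_lit 0, [⟨nat_lit 0, nat_lit 8976, nat_lit 13488, nat_lit 8016, nat_lit 14256, nat_lit 9840, R5_167, R4_297, R6_205⟩]⟩, ⟨nat_lit 3, [⟨nat_lit 0, nat_lit 9072, nat_lit 13584, nat_lit 7536,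 nat_lit 14304, nat_lit 10752, R11_157, R4_298, R8_224⟩]⟩]⟩], [], [⟨nat_lit 5, [⟨nat_lit 3, [⟨nat_lit 0, nat_lit 11616, nat_lit 13344, nat_lit 7584, nat_lit 13344, nat_lit 11616, R11_158, R4_278, R4_242⟩]⟩]⟩]], [], [], [[⟨nat_lit 5, [⟨nat_lit 3, [⟨nat_lit 0, nat_lit 4368, nat_lit 48, nat_lit 7632, nat_lit 14496, nat_lit 1392, R11_159, R5_302, R6_29⟩, ⟨nat_lit 3, nat_lit 4416, nat_lit 528, nat_lit 7728, nat_lit 4752, nat_lit 1392, R11_161, R11_99, R4_29⟩]⟩]⟩], [⟨nat_lit 5, [⟨nat_lit 0, [⟨nat_lit 0, nat_lit 10560, nat_lit 1968, nat_lit 8304, nat_lit 16848, nat_lit 9888, R5_173, R5_351, R6_206⟩]⟩, ⟨nat_lit 3, [⟨nat_lit 0, nat_lit 10656, nat_lit 2064, nat_lit 7680, nat_lit 17184, nat_lit 10848, R11_160, R5_358, R8_226⟩, ⟨nat_lit 3, nat_lit 10704, nat_lit 2112, nat_lit 7776, nat_lit 4800, nat_lit 624, R11_162, R11_100,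 R5_13⟩]⟩]⟩]]]]
noncomputable def N0122 : T3 (List N0) := [[], [[], [], [[], [], [⟨nat_lit 0, [⟨nat_lit 0, [⟨nat_lit 0, nat_lit 5472, nat_lit 4896, nat_lit 2784, nat_lit 1104, nat_lit 816, R4_58, R4_23, R4_17⟩, ⟨nat_lit 2, nat_lit 5616, nat_lit 5184, nat_lit 7968, nat_lit 96, nat_lit 3984, R4_166, R5_2, R5_83⟩]⟩, ⟨nat_lit 2, [⟨nat_lit 2, nat_lit 5712, nat_lit 5328, nat_lit 9984, nat_lit 5760, nat_lit 1632, R3_208, R5_120, R11_34⟩]⟩]⟩,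
 ⟨nat_lit 2, [⟨nat_lit 2, [⟨nat_lit 2, nat_lit 5760, nat_lit 5424, nat_lit 2640, nat_lit 18240, nat_lit 1728, R10_55, R11_380, R11_36⟩]⟩]⟩,
 ⟨nat_lit 3, [⟨nat_lit 0, [⟨nat_lit 0, nat_lit 5520, nat_lit 4944, nat_lit 4224, nat_lit 4416, nat_lit 7200, R5_88, R3_92, R4_150⟩]⟩, ⟨nat_lit 3, [⟨nat_lit 0, nat_lit 5568, nat_lit 4992, nat_lit 4224, nat_lit 4992, nat_lit 5568, R11_88, R3_104, R3_116⟩, ⟨nat_lit 3, nat_lit 6000, nat_lit 5040, nat_lit 4320, nat_lit 14304, nat_lit 864, R11_90, R10_298, R10_18⟩]⟩]⟩,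
 ⟨nat_lit 4, [⟨nat_lit 4, [⟨nat_lit 4, nat_lit 4896, nat_lit 5472, nat_lit 2784, nat_lit 1104, nat_lit 816, R4_58, R4_23, R4_17⟩, ⟨nat_lit 7, nat_lit 5184, nat_lit 5616, nat_lit 7968, nat_lit 96, nat_lit 3984, R4_166, R5_2, R5_83⟩]⟩, ⟨nat_lit 7, [⟨nat_lit 7, nat_lit 5328, nat_lit 5712, nat_lit 9984, nat_lit 5760, nat_lit 1632, R3_208, R5_120, R11_34⟩]⟩]⟩,
 ⟨nat_lit 6, [⟨nat_lit 4, [⟨nat_lit 4, nat_lit 4944, nat_lit 5520, nat_lit 4224, nat_lit 4416, nat_lit 7200, R5_88, R3_92, R4_150⟩]⟩, ⟨nat_lit 6, [⟨nat_lit 4, nat_lit 4992, nat_lit 5568, nat_lit 4224, nat_lit 4992, nat_lit 5568, R11_88, R3_104, R3_116⟩, ⟨nat_lit 6, nat_lit 5040, nat_lit 6000, nat_lit 4320, nat_lit 14304, nat_lit 864, R11_90, R10_298, R10_18⟩]⟩]⟩,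
 ⟨nat_lit 7, [⟨nat_lit 7, [⟨nat_lit 7, nat_lit 5424, nat_lit 5760, nat_lit 2640, nat_lit 18240, nat_lit 1728, R10_55, R11_380, R11_36⟩]⟩]⟩], [], [], [], [⟨nat_lit 4, [⟨nat_lit 4, [⟨nat_lit 4, nat_lit 13104, nat_lit 4752, nat_lit 2928, nat_lit 1632, nat_lit 912, R4_61, R4_34, R7_19⟩]⟩, ⟨nat_lit 7, [⟨nat_lit 4, nat_lit 13248, nat_lit 4800, nat_lit 9696, nat_lit 8352, nat_lit 2304, R3_202, R4_174, R2_48⟩]⟩]⟩,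
 ⟨nat_lit 6, [⟨nat_lit 4, [⟨nat_lit 4, nat_lit 13152, nat_lit 4944, nat_lit 3168, nat_lit 12432, nat_lit 6912, R5_66, R3_259, R7_144⟩]⟩, ⟨nat_lit 6, [⟨nat_lit 4, nat_lit 13200, nat_lit 5088, nat_lit 3168, nat_lit 13200, nat_lit 5088, R11_66, R3_275, R2_106⟩]⟩]⟩]], [[⟨nat_lit 3, [⟨nat_lit 0, [⟨nat_lit 0, nat_lit 2256, nat_lit 7584, nat_lit 1344, nat_lit 384, nat_lit 15408, R5_28, R3_8, R6_321⟩, ⟨nat_lit 1, nat_lit 2400, nat_lit 7680, nat_lit 13248, nat_lit 2880, nat_lit 14688, R5_276, R10_60, R4_306⟩]⟩, ⟨nat_lit 3, [⟨nat_lit 0, nat_lit 2352, nat_lit 8208, nat_lit 3840, nat_lit 3984, nat_lit 3600, R11_80, R3_83, R13_75⟩, ⟨nat_lit 1, nat_lit 2496, nat_lit 8400, nat_lit 3936, nat_lit 3552, nat_lit 3312, R11_82, R10_74, R3_69⟩]⟩]⟩,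
 ⟨nat_lit 7, [⟨nat_lit 7, [⟨nat_lit 3, nat_lit 2688, nat_lit 7152, nat_lit 1248, nat_lit 13104, nat_lit 2496, R10_26, R12_273, R2_52⟩]⟩]⟩], [], [⟨nat_lit 3, [⟨nat_lit 0, [⟨nat_lit 0, nat_lit 7152, nat_lit 5376, nat_lit 3744, nat_lit 1056, nat_lit 6672, R5_78, R3_22, R4_139⟩]⟩, ⟨nat_lit 3, [⟨nat_lit 0, nat_lit 7248, nat_lit 5472, nat_lit 4128, nat_lit 6240, nat_lit 6144, R11_86, R3_130, R3_128⟩]⟩]⟩], [⟨nat_lit 3, [⟨nat_lit 3, [⟨nat_lit 0, nat_lit 9984, nat_lit 5760, nat_lit 3984, nat_lit 5712, nat_lit 5328, R11_83, R3_119, R3_111⟩, ⟨nat_lit 1, nat_lit 10128, nat_lit 5808, nat_lit 4080, nat_lit 4128, nat_lit 4704, R11_85, R10_86, R10_98⟩]⟩]⟩,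
 ⟨nat_lit 7, [⟨nat_lit 7, [⟨nat_lit 3, nat_lit 10224, nat_lit 5616, nat_lit 1968, nat_lit 13536, nat_lit 672, R10_41, R12_282, R12_14⟩]⟩]⟩]]], [[], [], [[], [], [], [], [], [], [⟨nat_lit 4, [⟨nat_lit 4, [⟨nat_lit 4, nat_lit 12768, nat_lit 9696, nat_lit 4176, nat_lit 1728, nat_lit 816, R8_87, R4_36, R7_17⟩]⟩, ⟨nat_lit 7, [⟨nat_lit 4, nat_lit 12912, nat_lit 9792, nat_lit 10224, nat_lit 8448, nat_lit 2160, R9_213, R4_176, R2_45⟩]⟩]⟩,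
 ⟨nat_lit 6, [⟨nat_lit 4, [⟨nat_lit 4, nat_lit 12816, nat_lit 9744, nat_lit 11856, nat_lit 12528, nat_lit 6816, R9_247, R3_261, R7_142⟩]⟩]⟩]], [], [[], [], [], [], [⟨nat_lit 4, [⟨nat_lit 4, [⟨nat_lit 1, nat_lit 11376, nat_lit 13344, nat_lit 18144, nat_lit 14160, nat_lit 4800, R8_378, R4_295, R4_100⟩, ⟨nat_lit 5, nat_lit 11040, nat_lit 13008, nat_lit 11280, nat_lit 15696, nat_lit 4752, R8_235, R7_327, R7_99⟩]⟩, ⟨nat_lit 5, [⟨nat_lit 1, nat_lit 11472, nat_lit 13392, nat_lit 13104, nat_lit 14208, nat_lit 192, R5_273, R4_296, R3_4⟩, ⟨nat_lit 5, nat_lit 11136, nat_lit 13056, nat_lit 12816, nat_lit 15888, nat_lit 3168, R5_267, R7_331, R2_66⟩]⟩, ⟨nat_lit 7, [⟨nat_lit 5, nat_lit 11232, nat_lit 13104, nat_lit 10944, nat_lit 15792, nat_lit 7488, R9_228, R7_329, R2_156⟩]⟩]⟩,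
 ⟨nat_lit 5, [⟨nat_lit 4, [⟨nat_lit 1, nat_lit 11424, nat_lit 13440, nat_lit 3408, nat_lit 2928, nat_lit 4992, R5_71, R3_61, R4_104⟩, ⟨nat_lit 5, nat_lit 11088, nat_lit 13152, nat_lit 2544, nat_lit 14400, nat_lit 4800, R5_53, R2_300, R7_100⟩]⟩, ⟨nat_lit 5, [⟨nat_lit 1, nat_lit 11520, nat_lit 13488, nat_lit 16032, nat_lit 2976, nat_lit 240, R11_334, R3_62, R3_5⟩, ⟨nat_lit 5, nat_lit 11184, nat_lit 13200, nat_lit 15744, nat_lit 14592, nat_lit 3216, R11_328, R2_304, R2_67⟩]⟩]⟩], [⟨nat_lit 4, [⟨nat_lit 5, [⟨nat_lit 1, nat_lit 15264, nat_lit 13248, nat_lit 13200, nat_lit 14592, nat_lit 3024, R5_275, R4_304, R10_63⟩]⟩]⟩,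
 ⟨nat_lit 5, [⟨nat_lit 5, [⟨nat_lit 1, nat_lit 15312, nat_lit 13296, nat_lit 16128, nat_lit 10464, nat_lit 3216, R11_336, R3_218, R10_67⟩]⟩]⟩], [], [⟨nat_lit 4, [⟨nat_lit 4, [⟨nat_lit 1, nat_lit 16368, nat_lit 14208, nat_lit 19008, nat_lit 14400, nat_lit 9264, R8_396, R4_300, R5_193⟩]⟩, ⟨nat_lit 7, [⟨nat_lit 1, nat_lit 16560, nat_lit 14256, nat_lit 11376, nat_lit 14448, nat_lit 7872, R9_237, R4_301, R11_164⟩]⟩]⟩,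
 ⟨nat_lit 5, [⟨nat_lit 4, [⟨nat_lit 1, nat_lit 16416, nat_lit 14592, nat_lit 11472, nat_lit 8688, nat_lit 11424, R5_239, R3_181, R5_238⟩]⟩]⟩]], [], [[], [], [], [], [⟨nat_lit 4, [⟨nat_lit 4, [⟨nat_lit 5, nat_lit 11904, nat_lit 11808, nat_lit 11424, nat_lit 6048, nat_lit 5184, R8_238, R14_126, R7_108⟩]⟩, ⟨nat_lit 5, [⟨nat_lit 5, nat_lit 12048, nat_lit 11952, nat_lit 13824, nat_lit 7392, nat_lit 3600, R5_288, R14_154, R2_75⟩]⟩, ⟨nat_lit 7, [⟨nat_lit 5, nat_lit 12192, nat_lit 12096, nat_lit 12480, nat_lit 6624, nat_lit 8304, R9_260, R14_138, R2_173⟩]⟩]⟩,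
 ⟨nat_lit 5, [⟨nat_lit 4, [⟨nat_lit 5, nat_lit 11952, nat_lit 11856, nat_lit 2688, nat_lit 4032, nat_lit 5424, R5_56, R12_84, R7_113⟩]⟩, ⟨nat_lit 5, [⟨nat_lit 5, nat_lit 12096, nat_lit 12000, nat_lit 16896, nat_lit 5376, nat_lit 3840, R11_352, R12_112, R2_80⟩]⟩]⟩,
 ⟨nat_lit 6, [⟨nat_lit 4, [⟨nat_lit 5, nat_lit 12000, nat_lit 11904, nat_lit 2928, nat_lit 7488, nat_lit 5280, R9_61, R12_156, R7_110⟩]⟩]⟩], [], [⟨nat_lit 4, [⟨nat_lit 4, [⟨nat_lit 4, nat_lit 14352, nat_lit 14352, nat_lit 4032, nat_lit 1824, nat_lit 1392, R8_84, R7_38, R7_29⟩, ⟨nat_lit 5, nat_lit 14592, nat_lit 14592, nat_lit 12000, nat_lit 6096, nat_lit 19824, R8_250, R14_127, R14_413⟩]⟩, ⟨nat_lit 5, [⟨nat_lit 5, nat_lit 14736, nat_lit 14640, nat_lit 13920, nat_lit 7440, nat_lit 15600, R5_290, R14_155, R12_325⟩]⟩, ⟨nat_lit 7, [⟨nat_lit 4, nat_lit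 14496, nat_lit 14400, nat_lit 11904, nat_lit 8448, nat_lit 384, R9_248, R7_176, R2_8⟩, ⟨nat_lit 5, nat_lit 14928, nat_lit 14688, nat_lit 12576, nat_lit 6720, nat_lit 7536, R9_262, R14_140, R12_157⟩]⟩]⟩,
 ⟨nat_lit 5, [⟨nat_lit 4, [⟨nat_lit 5, nat_lit 14640, nat_lit 14736, nat_lit 13920, nat_lit 4080, nat_lit 21120, R5_290, R12_85, R14_440⟩]⟩, ⟨nat_lit 5, [⟨nat_lit 5, nat_lit 14784, nat_lit 14784, nat_lit 16992, nat_lit 5424, nat_lit 16896, R11_354, R12_113, R12_352⟩]⟩]⟩,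
 ⟨nat_lit 6, [⟨nat_lit 4, [⟨nat_lit 4, nat_lit 14400, nat_lit 14496, nat_lit 11904, nat_lit 384, nat_lit 7392, R9_248, R2_8, R7_154⟩, ⟨nat_lit 5, nat_lit 14688, nat_lit 14928, nat_lit 12576, nat_lit 7536, nat_lit 20496, R9_262, R12_157, R14_427⟩]⟩]⟩]]], [[], [], [], [[⟨nat_lit 7, [⟨nat_lit 3, [⟨nat_lit 3, nat_lit 2880, nat_lit 9984, nat_lit 2496, nat_lit 13200, nat_lit 14112, R12_52, R12_275, R3_294⟩]⟩]⟩], [], [⟨nat_lit 7, [⟨nat_lit 3, [⟨nat_lit 0, nat_lit 7536, nat_lit 5424, nat_lit 2592, nat_lit 4272, nat_lit 6528, R12_54, R2_89, R3_136⟩, ⟨nat_lit 3, nat_lit 7584, nat_lit 5472, nat_lit 2640, nat_lit 13440, nat_lit 1536, R12_55, R12_280, R10_32⟩]⟩]⟩]], [[], [], [], [⟨nat_lit 4, [⟨nat_lit 3, [⟨nat_lit 1, nat_lit 10368, nat_lit 14784, nat_lit 10800, nat_lit 13632, nat_lit 7056, R2_225, R4_284, R10_147⟩]⟩]⟩],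 [], [], [], [⟨nat_lit 4, [⟨nat_lit 7, [⟨nat_lit 1, nat_lit 16752, nat_lit 13392, nat_lit 16752, nat_lit 13392, nat_lit 7920, R3_349, R4_279, R11_165⟩]⟩]⟩,
 ⟨nat_lit 5, [⟨nat_lit 7, [⟨nat_lit 1, nat_lit 16800, nat_lit 13728, nat_lit 12384, nat_lit 8640, nat_lit 8064, R10_258, R3_180, R11_168⟩]⟩]⟩]], [], [], [[⟨nat_lit 4, [⟨nat_lit 3, [⟨nat_lit 1, nat_lit 3408, nat_lit 10176, nat_lit 11088, nat_lit 15264, nat_lit 1536, R2_231, R5_318, R3_32⟩]⟩]⟩,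
 ⟨nat_lit 7, [⟨nat_lit 3, [⟨nat_lit 1, nat_lit 3504, nat_lit 10224, nat_lit 2352, nat_lit 4848, nat_lit 1584, R12_49, R11_101, R3_33⟩]⟩]⟩], [], [], [⟨nat_lit 7, [⟨nat_lit 3, [⟨nat_lit 1, nat_lit 10992, nat_lit 5808, nat_lit 2400, nat_lit 4944, nat_lit 7728, R12_50, R11_103, R10_161⟩]⟩]⟩]]], [[], [], [], [], [[], [⟨nat_lit 5, [⟨nat_lit 0, [⟨nat_lit 1, nat_lit 8544, nat_lit 13872, nat_lit 5088, nat_lit 16080, nat_lit 3360, R4_106, R3_335, R5_70⟩]⟩, ⟨nat_lit 1, [⟨nat_lit 1, nat_lit 8592, nat_lit 13920, nat_lit 672, nat_lit 16176, nat_lit 7968, R3_14, R3_337, R11_166⟩]⟩]⟩]], [[⟨nat_lit 5, [⟨nat_lit 0, [⟨nat_lit 1, nat_lit 3024, nat_lit 8880, nat_lit 336, nat_lit 144, nat_lit 2112, R4_7, R10_3, R4_44⟩]⟩]⟩], [⟨nat_lit 5, [⟨nat_lit 0, [⟨nat_lit 1, nat_lit 8832, nat_lit 19392, nat_lit 5568, nat_lit 480, nat_lit 3552,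 R4_116, R10_10, R5_74⟩]⟩, ⟨nat_lit 1, [⟨nat_lit 1, nat_lit 8928, nat_lit 19440, nat_lit 4272, nat_lit 528, nat_lit 9696, R3_89, R10_11, R11_202⟩]⟩]⟩]]], [[], [[⟨nat_lit 0, [⟨nat_lit 0, [⟨nat_lit 0, nat_lit 1200, nat_lit 9744, nat_lit 2256, nat_lit 1152, nat_lit 10992, R7_47, R8_24, R6_229⟩, ⟨nat_lit 1, nat_lit 1440, nat_lit 9840, nat_lit 11568, nat_lit 14784, nat_lit 11808, R7_241, R5_308, R4_246⟩, ⟨nat_lit 2, nat_lit 1680, nat_lit 9936, nat_lit 7680, nat_lit 14016, nat_lit 11088, R7_160, R9_292, R8_231⟩]⟩, ⟨nat_lit 2, [⟨nat_lit 2, nat_lit 1776, nat_lit 10464, nat_lit 6528, nat_lit 14592, nat_lit 2784, R2_136, R9_304, R5_58⟩]⟩, ⟨nat_lit 3, [⟨nat_lit 0, nat_lit 1296, nat_lit 10032, nat_lit 2400, nat_lit 7056, nat_lit 3888, R2_50, R8_147, R13_81⟩, ⟨nat_lit 1, nat_lit 1536, nat_lit 10176, nat_lit 11088, nat_lit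 15264, nat_lit 3408, R2_231, R5_318, R3_71⟩, ⟨nat_lit 2, nat_lit 1920, nat_lit 10368, nat_lit 10032, nat_lit 14352, nat_lit 2976, R2_209, R9_299, R9_62⟩]⟩]⟩,
 ⟨nat_lit 1, [⟨nat_lit 0, [⟨nat_lit 0, nat_lit 1248, nat_lit 9792, nat_lit 18576, nat_lit 4464, nat_lit 11280, R14_387, R5_93, R6_235⟩, ⟨nat_lit 1, nat_lit 1488, nat_lit 9888, nat_lit 19488, nat_lit 4464, nat_lit 11904, R14_406, R11_93, R4_248⟩]⟩, ⟨nat_lit 3, [⟨nat_lit 0, nat_lit 1344, nat_lit 10080, nat_lit 240, nat_lit 4848, nat_lit 3984, R12_5, R5_101, R13_83⟩, ⟨nat_lit 1, nat_lit 1584, nat_lit 10224, nat_lit 2352, nat_lit 4848, nat_lit 3504, R12_49, R11_101, R3_73⟩]⟩]⟩], [], [⟨nat_lit 0, [⟨nat_lit 0, [⟨nat_lit 0, nat_lit 6384, nat_lit 4128, nat_lit 2496, nat_lit 1248, nat_lit 2640, R7_52, R8_26, R4_55⟩, ⟨nat_lit 2, nat_lit 6624, nat_lit 4416, nat_lit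 7920, nat_lit 14064, nat_lit 3024, R7_165, R9_293, R5_63⟩]⟩, ⟨nat_lit 2, [⟨nat_lit 2, nat_lit 6720, nat_lit 4608, nat_lit 6768, nat_lit 14640, nat_lit 2784, R2_141, R9_305, R11_58⟩]⟩, ⟨nat_lit 3, [⟨nat_lit 0, nat_lit 6480, nat_lit 4224, nat_lit 2832, nat_lit 7200, nat_lit 7008, R2_59, R8_150, R3_146⟩]⟩]⟩,
 ⟨nat_lit 1, [⟨nat_lit 0, [⟨nat_lit 0, nat_lit 6432, nat_lit 4176, nat_lit 21648, nat_lit 5232, nat_lit 11424, R14_451, R5_109, R4_238⟩]⟩, ⟨nat_lit 3, [⟨nat_lit 0, nat_lit 6528, nat_lit 4272, nat_lit 10272, nat_lit 5424, nat_lit 7536, R12_214, R5_113, R3_157⟩]⟩]⟩]]], [[], [], [], [], [[], [⟨nat_lit 5, [⟨nat_lit 1, [⟨nat_lit 1, nat_lit 8640, nat_lit 13728, nat_lit 12384, nat_lit 16800, nat_lit 8064, R10_258, R3_350, R11_168⟩]⟩]⟩]]], [[], [], [], [], [[⟨nat_lit 5, [⟨nat_lit 0, [⟨nat_lit 1, nat_lit 2928, nat_lit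 13440, nat_lit 3408, nat_lit 11424, nat_lit 4992, R5_71, R3_238, R4_104⟩]⟩, ⟨nat_lit 3, [⟨nat_lit 1, nat_lit 2976, nat_lit 13488, nat_lit 16032, nat_lit 11520, nat_lit 240, R11_334, R3_240, R3_5⟩]⟩]⟩], [⟨nat_lit 5, [⟨nat_lit 0, [⟨nat_lit 1, nat_lit 8688, nat_lit 14592, nat_lit 11472, nat_lit 16416, nat_lit 11424, R5_239, R3_342, R5_238⟩]⟩]⟩], [], [⟨nat_lit 5, [⟨nat_lit 3, [⟨nat_lit 1, nat_lit 10464, nat_lit 13296, nat_lit 16128, nat_lit 15312, nat_lit 7200, R11_336, R3_319, R10_150⟩]⟩]⟩]], [[⟨nat_lit 5, [⟨nat_lit 0, [⟨nat_lit 1, nat_lit 3264, nat_lit 8352, nat_lit 3936, nat_lit 8976, nat_lit 7632, R5_82, R10_187, R4_159⟩]⟩, ⟨nat_lit 3, [⟨nat_lit 1, nat_lit 3312, nat_lit 8400, nat_lit 16176, nat_lit 9072, nat_lit 2496, R11_337, R10_189, R3_52⟩]⟩]⟩]]]]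
noncomputable def N0226 : T3 (List N0) := [[], [], [[], [], [[], [], [], [], [], [], [⟨nat_lit 0, [⟨nat_lit 0, [⟨nat_lit 0, nat_lit 5808, nat_lit 5232, nat_lit 3024, nat_lit 3936, nat_lit 3696, R4_63, R4_82, R4_77⟩]⟩, ⟨nat_lit 2, [⟨nat_lit 0, nat_lit 5952, nat_lit 5520, nat_lit 768, nat_lit 10272, nat_lit 13680, R5_16, R4_214, R3_285⟩, ⟨nat_lit 2, nat_lit 6000, nat_lit 5568, nat_lit 7728, nat_lit 7008, nat_lit 13584, R5_161, R5_146, R10_283⟩]⟩]⟩,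
 ⟨nat_lit 2, [⟨nat_lit 2, [⟨nat_lit 2, nat_lit 6048, nat_lit 5760, nat_lit 3120, nat_lit 17808, nat_lit 13632, R11_65, R11_371, R10_284⟩]⟩]⟩,
 ⟨nat_lit 3, [⟨nat_lit 0, [⟨nat_lit 0, nat_lit 5856, nat_lit 5280, nat_lit 9648, nat_lit 13824, nat_lit 10032, R3_201, R3_288, R4_209⟩, ⟨nat_lit 3, nat_lit 5904, nat_lit 5328, nat_lit 9888, nat_lit 13824, nat_lit 5520, R3_206, R10_288, R5_115⟩]⟩, ⟨nat_lit 3, [⟨nat_lit 3, nat_lit 6336, nat_lit 5376, nat_lit 2352, nat_lit 13872, nat_lit 17616, R10_49, R10_289, R11_367⟩]⟩]⟩,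
 ⟨nat_lit 4, [⟨nat_lit 4, [⟨nat_lit 4, nat_lit 5232, nat_lit 5808, nat_lit 3024, nat_lit 3936, nat_lit 3696, R4_63, R4_82, R4_77⟩]⟩, ⟨nat_lit 7, [⟨nat_lit 4, nat_lit 5520, nat_lit 5952, nat_lit 768, nat_lit 10272, nat_lit 13680, R5_16, R4_214, R3_285⟩, ⟨nat_lit 7, nat_lit 5568, nat_lit 6000, nat_lit 7728, nat_lit 7008, nat_lit 13584, R5_161, R5_146, R10_283⟩]⟩]⟩,
 ⟨nat_lit 6, [⟨nat_lit 4, [⟨nat_lit 4, nat_lit 5280, nat_lit 5856, nat_lit 9648, nat_lit 13824, nat_lit 10032, R3_201, R3_288, R4_209⟩, ⟨nat_lit 6, nat_lit 5328, nat_lit 5904, nat_lit 9888, nat_lit 13824, nat_lit 5520, R3_206, R10_288, R5_115⟩]⟩, ⟨nat_lit 6, [⟨nat_lit 6, nat_lit 5376, nat_lit 6336, nat_lit 2352, nat_lit 13872, nat_lit 17616, R10_49, R10_289, R11_367⟩]⟩]⟩,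
 ⟨nat_lit 7, [⟨nat_lit 7, [⟨nat_lit 7, nat_lit 5760, nat_lit 6048, nat_lit 3120, nat_lit 17808, nat_lit 13632, R11_65, R11_371, R10_284⟩]⟩]⟩]], [], [[], [], [], [], [⟨nat_lit 4, [⟨nat_lit 4, [⟨nat_lit 5, nat_lit 3120, nat_lit 12576, nat_lit 10992, nat_lit 15936, nat_lit 8736, R4_229, R7_332, R4_182⟩]⟩, ⟨nat_lit 7, [⟨nat_lit 5, nat_lit 3168, nat_lit 12624, nat_lit 12816, nat_lit 15984, nat_lit 11136, R5_267, R7_333, R3_232⟩]⟩]⟩,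
 ⟨nat_lit 7, [⟨nat_lit 7, [⟨nat_lit 5, nat_lit 3216, nat_lit 12672, nat_lit 2544, nat_lit 14592, nat_lit 11184, R11_53, R2_304, R3_233⟩]⟩]⟩], [⟨nat_lit 4, [⟨nat_lit 4, [⟨nat_lit 5, nat_lit 3984, nat_lit 12912, nat_lit 11376, nat_lit 16656, nat_lit 5184, R4_237, R7_347, R5_108⟩]⟩]⟩], [], [⟨nat_lit 4, [⟨nat_lit 7, [⟨nat_lit 5, nat_lit 6384, nat_lit 14544, nat_lit 12960, nat_lit 16224, nat_lit 14496, R5_270, R7_338, R10_302⟩]⟩]⟩,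
 ⟨nat_lit 7, [⟨nat_lit 7, [⟨nat_lit 5, nat_lit 6432, nat_lit 15024, nat_lit 2928, nat_lit 15168, nat_lit 15024, R11_61, R2_316, R10_313⟩]⟩]⟩]], [], [[], [], [], [], [⟨nat_lit 4, [⟨nat_lit 4, [⟨nat_lit 4, nat_lit 3264, nat_lit 7728, nat_lit 2208, nat_lit 3456, nat_lit 8640, R4_46, R7_72, R6_180⟩, ⟨nat_lit 5, nat_lit 3312, nat_lit 7776, nat_lit 11088, nat_lit 11520, nat_lit 9264, R4_231, R14_240, R4_193⟩]⟩, ⟨nat_lit 7, [⟨nat_lit 4, nat_lit 3552, nat_lit 7968, nat_lit 2592, nat_lit 9600, nat_lit 15840, R5_54, R7_200, R13_330⟩, ⟨nat_lit 5, nat_lit 3600, nat_lit 8016, nat_lit 13824, nat_lit 11856, nat_lit 12048, R5_288, R14_247, R3_251⟩]⟩]⟩,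
 ⟨nat_lit 6, [⟨nat_lit 4, [⟨nat_lit 4, nat_lit 3360, nat_lit 7824, nat_lit 2064, nat_lit 1776, nat_lit 8784, R3_43, R2_37, R6_183⟩, ⟨nat_lit 5, nat_lit 3408, nat_lit 7872, nat_lit 2784, nat_lit 10224, nat_lit 9408, R3_58, R12_213, R4_196⟩]⟩]⟩,
 ⟨nat_lit 7, [⟨nat_lit 7, [⟨nat_lit 4, nat_lit 3792, nat_lit 8064, nat_lit 2592, nat_lit 3792, nat_lit 15888, R11_54, R2_79, R13_331⟩, ⟨nat_lit 5, nat_lit 3840, nat_lit 8112, nat_lit 2688, nat_lit 16848, nat_lit 12096, R11_56, R12_351, R3_252⟩]⟩]⟩], [⟨nat_lit 4, [⟨nat_lit 4, [⟨nat_lit 4, nat_lit 4128, nat_lit 6384, nat_lit 2640, nat_lit 4416, nat_lit 672, R4_55, R7_92, R8_14⟩, ⟨nat_lit 5, nat_lit 4176, nat_lit 6432, nat_lit 11424, nat_lit 11568, nat_lit 5232, R4_238, R14_241, R5_109⟩]⟩, ⟨nat_lit 7, [⟨nat_lit 4, nat_lit 4416, nat_lit 6624, nat_lit 3024, nat_lit 11280, nat_lit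 14064, R5_63, R7_235, R9_293⟩]⟩]⟩,
 ⟨nat_lit 6, [⟨nat_lit 4, [⟨nat_lit 4, nat_lit 4224, nat_lit 6480, nat_lit 7008, nat_lit 2832, nat_lit 6048, R3_146, R2_59, R8_126⟩, ⟨nat_lit 5, nat_lit 4272, nat_lit 6528, nat_lit 7536, nat_lit 10272, nat_lit 5424, R3_157, R12_214, R5_113⟩]⟩]⟩,
 ⟨nat_lit 7, [⟨nat_lit 7, [⟨nat_lit 4, nat_lit 4608, nat_lit 6720, nat_lit 2784, nat_lit 6768, nat_lit 14640, R11_58, R2_141, R9_305⟩]⟩]⟩], [⟨nat_lit 4, [⟨nat_lit 4, [⟨nat_lit 4, nat_lit 4752, nat_lit 13104, nat_lit 2928, nat_lit 3936, nat_lit 1632, R4_61, R7_82, R4_34⟩]⟩, ⟨nat_lit 7, [⟨nat_lit 4, nat_lit 4944, nat_lit 13152, nat_lit 3168, nat_lit 10944, nat_lit 12432, R5_66, R7_228, R3_259⟩]⟩]⟩,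
 ⟨nat_lit 6, [⟨nat_lit 4, [⟨nat_lit 4, nat_lit 4800, nat_lit 13248, nat_lit 9696, nat_lit 2304, nat_lit 8352, R3_202, R2_48, R4_174⟩]⟩]⟩,
 ⟨nat_lit 7, [⟨nat_lit 7, [⟨nat_lit 4, nat_lit 5088, nat_lit 13200, nat_lit 3168, nat_lit 5088, nat_lit 13200, R11_66, R2_106, R3_275⟩]⟩]⟩], [⟨nat_lit 4, [⟨nat_lit 7, [⟨nat_lit 4, nat_lit 6528, nat_lit 5760, nat_lit 2784, nat_lit 10464, nat_lit 1776, R5_58, R7_218, R3_37⟩, ⟨nat_lit 5, nat_lit 6576, nat_lit 5808, nat_lit 14016, nat_lit 11904, nat_lit 15792, R5_292, R14_248, R10_329⟩]⟩]⟩,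
 ⟨nat_lit 7, [⟨nat_lit 7, [⟨nat_lit 4, nat_lit 6768, nat_lit 5856, nat_lit 3024, nat_lit 4608, nat_lit 6720, R11_63, R2_96, R3_140⟩, ⟨nat_lit 5, nat_lit 6816, nat_lit 5904, nat_lit 3072, nat_lit 17040, nat_lit 17520, R11_64, R12_355, R10_365⟩]⟩]⟩]]], [[], [], [], [[], [], [⟨nat_lit 3, [⟨nat_lit 0, [⟨nat_lit 0, nat_lit 11088, nat_lit 15264, nat_lit 3408, nat_lit 1536, nat_lit 10176, R3_71, R3_32, R7_212⟩, ⟨nat_lit 1, nat_lit 11136, nat_lit 15456, nat_lit 10896, nat_lit 15888, nat_lit 5664, R3_227, R10_331, R14_118⟩]⟩, ⟨nat_lit 1, [⟨nat_lit 1, nat_lit 11232, nat_lit 15552, nat_lit 12912, nat_lit 18096, nat_lit 3648, R10_269, R10_377, R12_76⟩]⟩]⟩,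
 ⟨nat_lit 7, [⟨nat_lit 0, [⟨nat_lit 0, nat_lit 10992, nat_lit 15312, nat_lit 11568, nat_lit 12528, nat_lit 15312, R2_241, R2_261, R7_319⟩]⟩, ⟨nat_lit 3, [⟨nat_lit 0, nat_lit 11424, nat_lit 15360, nat_lit 2016, nat_lit 13104, nat_lit 13296, R12_42, R2_273, R2_277⟩]⟩]⟩]], [[], [], [], [⟨nat_lit 7, [⟨nat_lit 0, [⟨nat_lit 5, nat_lit 11568, nat_lit 15312, nat_lit 10992, nat_lit 12528, nat_lit 15312, R2_229, R2_261, R5_319⟩]⟩, ⟨nat_lit 3, [⟨nat_lit 5, nat_lit 11664, nat_lit 15360, nat_lit 1872, nat_lit 12672, nat_lit 18624, R12_39, R2_264, R11_388⟩]⟩]⟩]], [], [[], [], [], [], [], [], [], [⟨nat_lit 7, [⟨nat_lit 3, [⟨nat_lit 4, nat_lit 10368, nat_lit 15840, nat_lit 2208, nat_lit 13440, nat_lit 12960, R12_46, R2_280, R2_270⟩]⟩]⟩]], [[⟨nat_lit 7, [⟨nat_lit 0, [⟨nat_lit 1, nat_lit 10560, nat_lit 14928, nat_lit 10560, nat_lit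 18768, nat_lit 14928, R2_220, R11_391, R7_311⟩]⟩, ⟨nat_lit 3, [⟨nat_lit 1, nat_lit 10704, nat_lit 15264, nat_lit 1824, nat_lit 18816, nat_lit 12624, R12_38, R11_392, R2_263⟩]⟩]⟩]]], [[], [], [], [], [[], [⟨nat_lit 4, [⟨nat_lit 1, [⟨nat_lit 5, nat_lit 12144, nat_lit 14112, nat_lit 384, nat_lit 2928, nat_lit 192, R4_8, R7_61, R10_4⟩]⟩]⟩,
 ⟨nat_lit 5, [⟨nat_lit 1, [⟨nat_lit 5, nat_lit 12240, nat_lit 14256, nat_lit 3696, nat_lit 1056, nat_lit 240, R3_77, R2_22, R10_5⟩]⟩]⟩]], [[⟨nat_lit 5, [⟨nat_lit 1, [⟨nat_lit 1, nat_lit 11952, nat_lit 14016, nat_lit 576, nat_lit 288, nat_lit 960, R3_12, R10_6, R2_20⟩]⟩]⟩]]], [], [], [[], [], [], [], [[⟨nat_lit 4, [⟨nat_lit 1, [⟨nat_lit 1, nat_lit 14448, nat_lit 12864, nat_lit 432, nat_lit 8832, nat_lit 7536, R5_9, R4_184, R2_157⟩, ⟨nat_lit 5, nat_lit 14400, nat_lit 12288, nat_lit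 2544, nat_lit 8736, nat_lit 11088, R5_53, R7_182, R3_231⟩]⟩]⟩,
 ⟨nat_lit 7, [⟨nat_lit 1, [⟨nat_lit 5, nat_lit 14592, nat_lit 12672, nat_lit 15744, nat_lit 3216, nat_lit 11184, R11_328, R2_67, R3_233⟩]⟩]⟩]]]]
noncomputable def N0245 : T3 (List N0) := [[], [], [[], [], [], [], [[], [], [], [], [⟨nat_lit 2, [⟨nat_lit 2, [⟨nat_lit 0, nat_lit 0, nat_lit 1056, nat_lit 144, nat_lit 4272, nat_lit 0, R11_3, R6_89, R8_0⟩]⟩]⟩], [⟨nat_lit 0, [⟨nat_lit 0, [⟨nat_lit 3, nat_lit 672, nat_lit 1008, nat_lit 6768, nat_lit 3120, nat_lit 4320, R4_141, R6_65, R3_90⟩]⟩]⟩,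
 ⟨nat_lit 2, [⟨nat_lit 2, [⟨nat_lit 0, nat_lit 480, nat_lit 960, nat_lit 1344, nat_lit 4320, nat_lit 4752, R11_28, R6_90, R5_99⟩, ⟨nat_lit 2, nat_lit 528, nat_lit 1392, nat_lit 1440, nat_lit 4416, nat_lit 18000, R11_30, R4_92, R11_375⟩]⟩]⟩,
 ⟨nat_lit 3, [⟨nat_lit 0, [⟨nat_lit 3, nat_lit 816, nat_lit 1104, nat_lit 5472, nat_lit 2784, nat_lit 4896, R3_114, R4_58, R3_102⟩]⟩, ⟨nat_lit 3, [⟨nat_lit 3, nat_lit 912, nat_lit 1152, nat_lit 672, nat_lit 2832, nat_lit 14064, R10_14, R4_59, R10_293⟩]⟩]⟩,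
 ⟨nat_lit 4, [⟨nat_lit 4, [⟨nat_lit 6, nat_lit 1008, nat_lit 672, nat_lit 6768, nat_lit 3120, nat_lit 4320, R4_141, R6_65, R3_90⟩]⟩]⟩,
 ⟨nat_lit 6, [⟨nat_lit 4, [⟨nat_lit 6, nat_lit 1104, nat_lit 816, nat_lit 5472, nat_lit 2784, nat_lit 4896, R3_114, R4_58, R3_102⟩]⟩, ⟨nat_lit 6, [⟨nat_lit 6, nat_lit 1152, nat_lit 912, nat_lit 672, nat_lit 2832, nat_lit 14064, R10_14, R4_59, R10_293⟩]⟩]⟩,
 ⟨nat_lit 7, [⟨nat_lit 7, [⟨nat_lit 4, nat_lit 960, nat_lit 480, nat_lit 1344, nat_lit 4320, nat_lit 4752, R11_28, R6_90, R5_99⟩, ⟨nat_lit 7, nat_lit 1392, nat_lit 528, nat_lit 1440, nat_lit 4416, nat_lit 18000, R11_30, R4_92, R11_375⟩]⟩]⟩], [], [⟨nat_lit 0, [⟨nat_lit 0, [⟨nat_lit 3, nat_lit 2400, nat_lit 480, nat_lit 6288, nat_lit 2640, nat_lit 720, R4_131, R6_55, R3_15⟩]⟩]⟩,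
 ⟨nat_lit 3, [⟨nat_lit 0, [⟨nat_lit 3, nat_lit 2544, nat_lit 864, nat_lit 6048, nat_lit 2544, nat_lit 6048, R3_126, R4_53, R3_126⟩, ⟨nat_lit 7, nat_lit 2640, nat_lit 1248, nat_lit 6384, nat_lit 2496, nat_lit 4128, R3_133, R7_52, R2_86⟩]⟩, ⟨nat_lit 3, [⟨nat_lit 7, nat_lit 2688, nat_lit 1296, nat_lit 1056, nat_lit 2544, nat_lit 12864, R10_22, R7_53, R12_268⟩]⟩]⟩]], [], [[], [], [], [], [⟨nat_lit 0, [⟨nat_lit 0, [⟨nat_lit 0, nat_lit 5136, nat_lit 6048, nat_lit 96, nat_lit 15936, nat_lit 8496, R4_2, R6_332, R6_177⟩, ⟨nat_lit 3, nat_lit 5328, nat_lit 6096, nat_lit 5328, nat_lit 17712, nat_lit 16080, R4_111, R8_369, R13_335⟩]⟩, ⟨nat_lit 2, [⟨nat_lit 0, nat_lit 5184, nat_lit 6240, nat_lit 1488, nat_lit 16176, nat_lit 4512, R5_31, R6_337, R8_94⟩, ⟨nat_lit 3, nat_lit 5376, nat_lit 6288, nat_lit 9936, nat_lit 18576, nat_lit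 13728, R5_207, R8_387, R9_286⟩]⟩]⟩,
 ⟨nat_lit 2, [⟨nat_lit 2, [⟨nat_lit 0, nat_lit 5232, nat_lit 6384, nat_lit 768, nat_lit 4272, nat_lit 4752, R11_16, R13_89, R8_99⟩, ⟨nat_lit 2, nat_lit 5280, nat_lit 6480, nat_lit 864, nat_lit 17472, nat_lit 14688, R11_18, R3_364, R5_306⟩, ⟨nat_lit 3, nat_lit 5424, nat_lit 6432, nat_lit 816, nat_lit 3504, nat_lit 13824, R11_17, R9_73, R9_288⟩]⟩]⟩,
 ⟨nat_lit 3, [⟨nat_lit 0, [⟨nat_lit 3, nat_lit 5472, nat_lit 6144, nat_lit 3792, nat_lit 3456, nat_lit 16128, R3_79, R5_72, R13_336⟩]⟩, ⟨nat_lit 3, [⟨nat_lit 3, nat_lit 5568, nat_lit 6192, nat_lit 480, nat_lit 3552, nat_lit 8832, R10_10, R5_74, R3_184⟩]⟩]⟩], [⟨nat_lit 0, [⟨nat_lit 0, [⟨nat_lit 0, nat_lit 6768, nat_lit 4320, nat_lit 672, nat_lit 16032, nat_lit 1008, R4_14, R6_334, R4_21⟩, ⟨nat_lit 3, nat_lit 7056, nat_lit 4368, nat_lit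 7056, nat_lit 17856, nat_lit 4368, R4_147, R8_372, R3_91⟩]⟩, ⟨nat_lit 2, [⟨nat_lit 0, nat_lit 6816, nat_lit 4512, nat_lit 1584, nat_lit 16272, nat_lit 0, R5_33, R6_339, R5_0⟩]⟩]⟩,
 ⟨nat_lit 2, [⟨nat_lit 2, [⟨nat_lit 0, nat_lit 6864, nat_lit 4656, nat_lit 1488, nat_lit 4416, nat_lit 5040, R11_31, R13_92, R5_105⟩, ⟨nat_lit 2, nat_lit 6912, nat_lit 4752, nat_lit 1584, nat_lit 17568, nat_lit 18192, R11_33, R3_366, R11_379⟩]⟩]⟩,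
 ⟨nat_lit 3, [⟨nat_lit 0, [⟨nat_lit 3, nat_lit 7200, nat_lit 4416, nat_lit 5520, nat_lit 4224, nat_lit 4944, R3_115, R5_88, R3_103⟩]⟩, ⟨nat_lit 3, [⟨nat_lit 3, nat_lit 7296, nat_lit 4464, nat_lit 816, nat_lit 4320, nat_lit 14256, R10_17, R5_90, R10_297⟩]⟩]⟩], [⟨nat_lit 0, [⟨nat_lit 0, [⟨nat_lit 0, nat_lit 6288, nat_lit 720, nat_lit 2400, nat_lit 15984, nat_lit 480, R4_50, R6_333, R8_10⟩, ⟨nat_lit 1, nat_lit 6432, nat_lit 864, nat_lit 11232, nat_lit 14976, nat_lit 5136, R4_234, R4_312, R5_107⟩, ⟨nat_lit 3, nat_lit 6624, nat_lit 1008, nat_lit 7728, nat_lit 17808, nat_lit 4608, R4_161, R8_371, R9_96⟩]⟩, ⟨nat_lit 2, [⟨nat_lit 0, nat_lit 6336, nat_lit 768, nat_lit 1680, nat_lit 16224, nat_lit 3744, R5_35, R6_338, R9_78⟩]⟩]⟩,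
 ⟨nat_lit 2, [⟨nat_lit 2, [⟨nat_lit 0, nat_lit 6384, nat_lit 816, nat_lit 3600, nat_lit 4368, nat_lit 3984, R11_75, R13_91, R9_83⟩]⟩]⟩,
 ⟨nat_lit 3, [⟨nat_lit 0, [⟨nat_lit 3, nat_lit 6672, nat_lit 1056, nat_lit 7152, nat_lit 3744, nat_lit 4848, R3_149, R5_78, R9_101⟩]⟩]⟩], [⟨nat_lit 0, [⟨nat_lit 0, [⟨nat_lit 3, nat_lit 7728, nat_lit 4608, nat_lit 6624, nat_lit 17760, nat_lit 1008, R4_138, R8_370, R3_21⟩]⟩]⟩,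
 ⟨nat_lit 3, [⟨nat_lit 0, [⟨nat_lit 3, nat_lit 7872, nat_lit 4656, nat_lit 6096, nat_lit 4128, nat_lit 6192, R3_127, R5_86, R3_129⟩]⟩]⟩]], [[], [], [], [], [], [], [], [⟨nat_lit 3, [⟨nat_lit 3, [⟨nat_lit 7, nat_lit 11472, nat_lit 5280, nat_lit 1488, nat_lit 1920, nat_lit 12912, R10_31, R14_40, R12_269⟩]⟩]⟩]]], [[], [], [], [[⟨nat_lit 3, [⟨nat_lit 1, [⟨nat_lit 4, nat_lit 14544, nat_lit 13104, nat_lit 6960, nat_lit 10848, nat_lit 8880, R10_145, R4_226, R4_185⟩, ⟨nat_lit 5, nat_lit 14592, nat_lit 13248, nat_lit 7152, nat_lit 13200, nat_lit 15264, R10_149, R5_275, R3_318⟩]⟩]⟩], [], [⟨nat_lit 3, [⟨nat_lit 1, [⟨nat_lit 5, nat_lit 14880, nat_lit 16224, nat_lit 8544, nat_lit 13344, nat_lit 2928, R10_178, R5_278, R10_61⟩]⟩]⟩]], [[], [], [], [⟨nat_lit 3, [⟨nat_lit 1, [⟨nat_lit 7, nat_lit 4272, nat_lit 1776, nat_lit 7584,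 nat_lit 1536, nat_lit 4512, R10_158, R7_32, R11_94⟩]⟩]⟩], [], [], [], [⟨nat_lit 3, [⟨nat_lit 0, [⟨nat_lit 3, nat_lit 2784, nat_lit 1104, nat_lit 4896, nat_lit 816, nat_lit 5472, R3_102, R4_17, R3_114⟩, ⟨nat_lit 7, nat_lit 2928, nat_lit 1632, nat_lit 13104, nat_lit 912, nat_lit 4752, R3_273, R7_19, R2_99⟩]⟩, ⟨nat_lit 1, [⟨nat_lit 3, nat_lit 2832, nat_lit 1152, nat_lit 4608, nat_lit 912, nat_lit 4032, R10_96, R4_19, R10_84⟩]⟩]⟩,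
 ⟨nat_lit 7, [⟨nat_lit 0, [⟨nat_lit 7, nat_lit 3024, nat_lit 3696, nat_lit 5808, nat_lit 3936, nat_lit 5232, R2_121, R4_82, R2_109⟩]⟩, ⟨nat_lit 3, [⟨nat_lit 7, nat_lit 3120, nat_lit 3744, nat_lit 576, nat_lit 3984, nat_lit 12960, R12_12, R4_83, R12_270⟩]⟩]⟩]], [], [[], [], [], [], [], [], [], [⟨nat_lit 3, [⟨nat_lit 0, [⟨nat_lit 3, nat_lit 7968, nat_lit 96, nat_lit 5184, nat_lit 3984, nat_lit 5616, R3_108, R5_83, R3_117⟩]⟩, ⟨nat_lit 1, [⟨nat_lit 3, nat_lit 8016, nat_lit 144, nat_lit 4656, nat_lit 4080, nat_lit 4080, R10_97, R5_85, R10_85⟩]⟩]⟩]], [[⟨nat_lit 3, [⟨nat_lit 1, [⟨nat_lit 4, nat_lit 11520, nat_lit 14256, nat_lit 7008, nat_lit 12288, nat_lit 13488, R10_146, R7_256, R4_281⟩]⟩]⟩], [], [], [⟨nat_lit 3, [⟨nat_lit 1, [⟨nat_lit 4, nat_lit 11952, nat_lit 8496, nat_lit 7344, nat_lit 12528, nat_lit 14976, R10_153,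 R7_261, R5_312⟩, ⟨nat_lit 7, nat_lit 12048, nat_lit 8544, nat_lit 7632, nat_lit 1824, nat_lit 4560, R10_159, R14_38, R11_95⟩]⟩]⟩]]], [[], [], [], [], [[], [⟨nat_lit 4, [⟨nat_lit 5, [⟨nat_lit 6, nat_lit 3360, nat_lit 3600, nat_lit 48, nat_lit 3216, nat_lit 96, R7_1, R6_67, R12_2⟩]⟩]⟩,
 ⟨nat_lit 7, [⟨nat_lit 5, [⟨nat_lit 4, nat_lit 3312, nat_lit 3648, nat_lit 1152, nat_lit 2448, nat_lit 0, R2_24, R6_51, R14_0⟩, ⟨nat_lit 6, nat_lit 3408, nat_lit 3744, nat_lit 1440, nat_lit 2832, nat_lit 912, R2_30, R8_59, R12_19⟩, ⟨nat_lit 7, nat_lit 3456, nat_lit 3696, nat_lit 1296, nat_lit 2352, nat_lit 12672, R2_27, R4_49, R12_264⟩]⟩]⟩]], [[⟨nat_lit 4, [⟨nat_lit 1, [⟨nat_lit 4, nat_lit 8592, nat_lit 12912, nat_lit 4560, nat_lit 9792, nat_lit 14064, R4_95, R6_204, R4_293⟩]⟩, ⟨nat_lit 5, [⟨nat_lit 4, nat_lit 8640, nat_lit 12720,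 nat_lit 4704, nat_lit 10032, nat_lit 15456, R7_98, R6_209, R7_322⟩]⟩]⟩,
 ⟨nat_lit 5, [⟨nat_lit 1, [⟨nat_lit 4, nat_lit 8688, nat_lit 12960, nat_lit 144, nat_lit 10800, nat_lit 14112, R3_3, R4_225, R4_294⟩]⟩, ⟨nat_lit 5, [⟨nat_lit 4, nat_lit 8736, nat_lit 12768, nat_lit 3120, nat_lit 10992, nat_lit 15648, R2_65, R4_229, R7_326⟩]⟩]⟩,
 ⟨nat_lit 7, [⟨nat_lit 5, [⟨nat_lit 4, nat_lit 8784, nat_lit 12816, nat_lit 7440, nat_lit 10560, nat_lit 15552, R2_155, R8_220, R7_324⟩, ⟨nat_lit 7, nat_lit 8832, nat_lit 12864, nat_lit 7536, nat_lit 432, nat_lit 14448, R2_157, R5_9, R2_301⟩]⟩]⟩], [⟨nat_lit 4, [⟨nat_lit 5, [⟨nat_lit 4, nat_lit 9216, nat_lit 3072, nat_lit 4896, nat_lit 10080, nat_lit 672, R7_102, R6_210, R14_14⟩, ⟨nat_lit 6, nat_lit 9360, nat_lit 3120, nat_lit 4992, nat_lit 2304, nat_lit 384, R7_104, R13_48, R12_8⟩]⟩]⟩]]],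 [[], [[⟨nat_lit 5, [⟨nat_lit 1, [⟨nat_lit 4, nat_lit 13488, nat_lit 14256, nat_lit 14400, nat_lit 12288, nat_lit 11520, R10_300, R7_256, R4_240⟩, ⟨nat_lit 5, nat_lit 13632, nat_lit 14352, nat_lit 14592, nat_lit 10800, nat_lit 10368, R10_304, R2_225, R3_216⟩]⟩]⟩], [], [⟨nat_lit 5, [⟨nat_lit 1, [⟨nat_lit 5, nat_lit 13824, nat_lit 13968, nat_lit 15408, nat_lit 10896, nat_lit 3408, R10_321, R2_227, R10_71⟩]⟩]⟩]], [], [], [], [[⟨nat_lit 5, [⟨nat_lit 1, [⟨nat_lit 4, nat_lit 8880, nat_lit 13104, nat_lit 2784, nat_lit 10848, nat_lit 14544, R10_58, R4_226, R4_303⟩]⟩]⟩]]], [[], [], [], [], [[], [⟨nat_lit 4, [⟨nat_lit 4, [⟨nat_lit 6, nat_lit 3600, nat_lit 3504, nat_lit 7008, nat_lit 3312, nat_lit 96, R7_146, R6_69, R2_2⟩]⟩, ⟨nat_lit 5, [⟨nat_lit 6, nat_lit 3648, nat_lit 3552, nat_lit 15456, nat_lit 3360, nat_lit 144, R14_322,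 R6_70, R12_3⟩]⟩]⟩,
 ⟨nat_lit 6, [⟨nat_lit 4, [⟨nat_lit 6, nat_lit 3696, nat_lit 3936, nat_lit 5232, nat_lit 3024, nat_lit 5808, R2_109, R4_63, R2_121⟩]⟩, ⟨nat_lit 5, [⟨nat_lit 6, nat_lit 3744, nat_lit 3984, nat_lit 12960, nat_lit 3120, nat_lit 576, R12_270, R4_65, R12_12⟩]⟩]⟩,
 ⟨nat_lit 7, [⟨nat_lit 4, [⟨nat_lit 4, nat_lit 3504, nat_lit 3600, nat_lit 96, nat_lit 3312, nat_lit 8160, R2_2, R6_69, R7_170⟩, ⟨nat_lit 6, nat_lit 3840, nat_lit 3840, nat_lit 7104, nat_lit 3024, nat_lit 7104, R2_148, R8_63, R2_148⟩, ⟨nat_lit 7, nat_lit 3936, nat_lit 3696, nat_lit 5808, nat_lit 3024, nat_lit 5232, R2_121, R4_63, R2_109⟩]⟩, ⟨nat_lit 5, [⟨nat_lit 4, nat_lit 3552, nat_lit 3648, nat_lit 144, nat_lit 3360, nat_lit 96, R12_3, R6_70, R14_2⟩, ⟨nat_lit 6, nat_lit 3888, nat_lit 3888, nat_lit 1008, nat_lit 3072, nat_lit 1008, R12_21,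 R8_64, R12_21⟩, ⟨nat_lit 7, nat_lit 3984, nat_lit 3744, nat_lit 576, nat_lit 3120, nat_lit 12960, R12_12, R4_65, R12_270⟩]⟩]⟩]]], [[], [], [], [], [[⟨nat_lit 7, [⟨nat_lit 1, [⟨nat_lit 4, nat_lit 3168, nat_lit 48, nat_lit 7488, nat_lit 912, nat_lit 12096, R11_156, R6_19, R4_252⟩]⟩]⟩], [], [], [⟨nat_lit 7, [⟨nat_lit 1, [⟨nat_lit 4, nat_lit 4368, nat_lit 48, nat_lit 7632, nat_lit 1392, nat_lit 14496, R11_159, R6_29, R5_302⟩, ⟨nat_lit 7, nat_lit 4416, nat_lit 528, nat_lit 7728, nat_lit 1392, nat_lit 4752, R11_161, R4_29, R11_99⟩]⟩]⟩]], [[⟨nat_lit 4, [⟨nat_lit 1, [⟨nat_lit 4, nat_lit 8976, nat_lit 13488, nat_lit 8016, nat_lit 9840, nat_lit 14256, R5_167, R6_205, R4_297⟩]⟩]⟩,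
 ⟨nat_lit 7, [⟨nat_lit 1, [⟨nat_lit 4, nat_lit 9072, nat_lit 13584, nat_lit 7536, nat_lit 10752, nat_lit 14304, R11_157, R8_224, R4_298⟩]⟩]⟩], [], [], [⟨nat_lit 4, [⟨nat_lit 1, [⟨nat_lit 4, nat_lit 10560, nat_lit 1968, nat_lit 8304, nat_lit 9888, nat_lit 16848, R5_173, R6_206, R5_351⟩]⟩]⟩,
 ⟨nat_lit 7, [⟨nat_lit 1, [⟨nat_lit 4, nat_lit 10656, nat_lit 2064, nat_lit 7680, nat_lit 10848, nat_lit 17184, R11_160, R8_226, R5_358⟩, ⟨nat_lit 7, nat_lit 10704, nat_lit 2112, nat_lit 7776, nat_lit 624, nat_lit 4800, R11_162, R5_13, R11_100⟩]⟩]⟩]], [], [[⟨nat_lit 7, [⟨nat_lit 1, [⟨nat_lit 4, nat_lit 11616, nat_lit 13344, nat_lit 7584, nat_lit 11616, nat_lit 13344, R11_158, R4_242, R4_278⟩]⟩]⟩]]]]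
noncomputable def N0265 : T3 (List N0) := [[], [], [[], [], [], [], [], [], [[], [], [], [], [], [⟨nat_lit 0, [⟨nat_lit 0, [⟨nat_lit 0, nat_lit 5472, nat_lit 4896, nat_lit 816, nat_lit 2784, nat_lit 1104, R4_17, R4_58, R4_23⟩, ⟨nat_lit 3, nat_lit 5520, nat_lit 4944, nat_lit 7200, nat_lit 4224, nat_lit 4416, R4_150, R5_88, R3_92⟩]⟩, ⟨nat_lit 2, [⟨nat_lit 0, nat_lit 5616, nat_lit 5184, nat_lit 3984, nat_lit 7968, nat_lit 96, R5_83, R4_166, R5_2⟩]⟩]⟩,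
 ⟨nat_lit 2, [⟨nat_lit 2, [⟨nat_lit 0, nat_lit 5712, nat_lit 5328, nat_lit 1632, nat_lit 9984, nat_lit 5760, R11_34, R3_208, R5_120⟩, ⟨nat_lit 2, nat_lit 5760, nat_lit 5424, nat_lit 1728, nat_lit 2640, nat_lit 18240, R11_36, R10_55, R11_380⟩]⟩]⟩,
 ⟨nat_lit 3, [⟨nat_lit 0, [⟨nat_lit 3, nat_lit 5568, nat_lit 4992, nat_lit 5568, nat_lit 4224, nat_lit 4992, R3_116, R11_88, R3_104⟩]⟩, ⟨nat_lit 3, [⟨nat_lit 3, nat_lit 6000, nat_lit 5040, nat_lit 864, nat_lit 4320, nat_lit 14304, R10_18, R11_90, R10_298⟩]⟩]⟩,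
 ⟨nat_lit 4, [⟨nat_lit 4, [⟨nat_lit 4, nat_lit 4896, nat_lit 5472, nat_lit 816, nat_lit 2784, nat_lit 1104, R4_17, R4_58, R4_23⟩, ⟨nat_lit 6, nat_lit 4944, nat_lit 5520, nat_lit 7200, nat_lit 4224, nat_lit 4416, R4_150, R5_88, R3_92⟩]⟩, ⟨nat_lit 7, [⟨nat_lit 4, nat_lit 5184, nat_lit 5616, nat_lit 3984, nat_lit 7968, nat_lit 96, R5_83, R4_166, R5_2⟩]⟩]⟩,
 ⟨nat_lit 6, [⟨nat_lit 4, [⟨nat_lit 6, nat_lit 4992, nat_lit 5568, nat_lit 5568, nat_lit 4224, nat_lit 4992, R3_116, R11_88, R3_104⟩]⟩, ⟨nat_lit 6, [⟨nat_lit 6, nat_lit 5040, nat_lit 6000, nat_lit 864, nat_lit 4320, nat_lit 14304, R10_18, R11_90, R10_298⟩]⟩]⟩,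
 ⟨nat_lit 7, [⟨nat_lit 7, [⟨nat_lit 4, nat_lit 5328, nat_lit 5712, nat_lit 1632, nat_lit 9984, nat_lit 5760, R11_34, R3_208, R5_120⟩, ⟨nat_lit 7, nat_lit 5424, nat_lit 5760, nat_lit 1728, nat_lit 2640, nat_lit 18240, R11_36, R10_55, R11_380⟩]⟩]⟩], [⟨nat_lit 0, [⟨nat_lit 0, [⟨nat_lit 0, nat_lit 6048, nat_lit 6048, nat_lit 2544, nat_lit 2544, nat_lit 864, R4_53, R4_53, R8_18⟩, ⟨nat_lit 3, nat_lit 6096, nat_lit 6192, nat_lit 7872, nat_lit 4128, nat_lit 4656, R4_164, R5_86, R9_97⟩]⟩, ⟨nat_lit 2, [⟨nat_lit 0, nat_lit 6192, nat_lit 6096, nat_lit 4128, nat_lit 7872, nat_lit 4656, R5_86, R4_164, R9_97⟩]⟩]⟩,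
 ⟨nat_lit 2, [⟨nat_lit 2, [⟨nat_lit 0, nat_lit 6240, nat_lit 6144, nat_lit 3744, nat_lit 7248, nat_lit 4896, R11_78, R3_151, R9_102⟩]⟩]⟩,
 ⟨nat_lit 3, [⟨nat_lit 0, [⟨nat_lit 3, nat_lit 6144, nat_lit 6240, nat_lit 7248, nat_lit 3744, nat_lit 4896, R3_151, R11_78, R9_102⟩]⟩]⟩], [⟨nat_lit 0, [⟨nat_lit 0, [⟨nat_lit 3, nat_lit 7152, nat_lit 4848, nat_lit 6672, nat_lit 3744, nat_lit 1056, R4_139, R5_78, R3_22⟩]⟩]⟩,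
 ⟨nat_lit 3, [⟨nat_lit 0, [⟨nat_lit 3, nat_lit 7248, nat_lit 4896, nat_lit 6144, nat_lit 4128, nat_lit 6240, R3_128, R11_86, R3_130⟩]⟩]⟩]]], [[], [], [], [[⟨nat_lit 3, [⟨nat_lit 1, [⟨nat_lit 5, nat_lit 10464, nat_lit 13296, nat_lit 7200, nat_lit 16128, nat_lit 15312, R10_150, R11_336, R3_319⟩]⟩]⟩], [], [⟨nat_lit 3, [⟨nat_lit 1, [⟨nat_lit 5, nat_lit 10512, nat_lit 16512, nat_lit 8592, nat_lit 16272, nat_lit 3600, R10_179, R11_339, R10_75⟩]⟩]⟩]], [[], [], [], [⟨nat_lit 3, [⟨nat_lit 1, [⟨nat_lit 7, nat_lit 10752, nat_lit 8400, nat_lit 7680, nat_lit 624, nat_lit 4896, R10_160, R2_13, R11_102⟩]⟩]⟩], [], [], [], [⟨nat_lit 3, [⟨nat_lit 0, [⟨nat_lit 7, nat_lit 9696, nat_lit 8352, nat_lit 13248, nat_lit 2304, nat_lit 4800, R3_276, R2_48, R2_100⟩]⟩]⟩,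
 ⟨nat_lit 7, [⟨nat_lit 0, [⟨nat_lit 7, nat_lit 9648, nat_lit 10032, nat_lit 5856, nat_lit 13824, nat_lit 5280, R2_122, R3_288, R2_110⟩]⟩, ⟨nat_lit 3, [⟨nat_lit 7, nat_lit 9840, nat_lit 10080, nat_lit 624, nat_lit 14208, nat_lit 13488, R12_13, R3_296, R12_281⟩]⟩]⟩]], [], [[], [], [], [], [], [], [], [⟨nat_lit 3, [⟨nat_lit 0, [⟨nat_lit 3, nat_lit 9984, nat_lit 5760, nat_lit 5328, nat_lit 3984, nat_lit 5712, R3_111, R11_83, R3_119⟩]⟩, ⟨nat_lit 1, [⟨nat_lit 3, nat_lit 10128, nat_lit 5808, nat_lit 4704, nat_lit 4080, nat_lit 4128, R10_98, R11_85, R10_86⟩]⟩]⟩,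
 ⟨nat_lit 7, [⟨nat_lit 0, [⟨nat_lit 7, nat_lit 9888, nat_lit 5520, nat_lit 5904, nat_lit 1920, nat_lit 5328, R2_123, R10_40, R2_111⟩]⟩, ⟨nat_lit 3, [⟨nat_lit 7, nat_lit 10224, nat_lit 5616, nat_lit 672, nat_lit 1968, nat_lit 13536, R12_14, R10_41, R12_282⟩]⟩]⟩]], [[⟨nat_lit 3, [⟨nat_lit 1, [⟨nat_lit 4, nat_lit 10368, nat_lit 14352, nat_lit 7056, nat_lit 10800, nat_lit 13632, R10_147, R2_225, R4_284⟩]⟩]⟩], [], [], [⟨nat_lit 3, [⟨nat_lit 1, [⟨nat_lit 7, nat_lit 10992, nat_lit 9936, nat_lit 7728, nat_lit 2400, nat_lit 4944, R10_161, R12_50, R11_103⟩]⟩]⟩]]], [[], [], [], [], [[], [⟨nat_lit 4, [⟨nat_lit 5, [⟨nat_lit 4, nat_lit 11568, nat_lit 9024, nat_lit 240, nat_lit 2400, nat_lit 4320, R7_5, R6_50, R14_90⟩, ⟨nat_lit 5, nat_lit 11616, nat_lit 9072, nat_lit 480, nat_lit 2304, nat_lit 2688, R7_10, R4_48, R12_56⟩,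 ⟨nat_lit 6, nat_lit 11664, nat_lit 9120, nat_lit 336, nat_lit 3840, nat_lit 6864, R7_7, R8_80, R12_143⟩]⟩]⟩,
 ⟨nat_lit 7, [⟨nat_lit 5, [⟨nat_lit 4, nat_lit 11712, nat_lit 9168, nat_lit 1248, nat_lit 1824, nat_lit 4656, R2_26, R13_38, R14_97⟩, ⟨nat_lit 5, nat_lit 11760, nat_lit 9216, nat_lit 1824, nat_lit 2208, nat_lit 3024, R2_38, R3_46, R12_63⟩, ⟨nat_lit 6, nat_lit 11808, nat_lit 9312, nat_lit 1632, nat_lit 1056, nat_lit 8352, R2_34, R9_22, R12_174⟩, ⟨nat_lit 7, nat_lit 11856, nat_lit 9264, nat_lit 1344, nat_lit 2160, nat_lit 13008, R2_28, R3_45, R12_271⟩]⟩]⟩]], [[⟨nat_lit 4, [⟨nat_lit 1, [⟨nat_lit 4, nat_lit 11376, nat_lit 13344, nat_lit 4800, nat_lit 18144, nat_lit 14160, R4_100, R8_378, R4_295⟩, ⟨nat_lit 5, nat_lit 11424, nat_lit 13440, nat_lit 4992, nat_lit 3408, nat_lit 2928, R4_104, R5_71, R3_61⟩]⟩, ⟨nat_lit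 5, [⟨nat_lit 4, nat_lit 11040, nat_lit 13008, nat_lit 4752, nat_lit 11280, nat_lit 15696, R7_99, R8_235, R7_327⟩, ⟨nat_lit 5, nat_lit 11088, nat_lit 13152, nat_lit 4800, nat_lit 2544, nat_lit 14400, R7_100, R5_53, R2_300⟩]⟩]⟩,
 ⟨nat_lit 5, [⟨nat_lit 1, [⟨nat_lit 4, nat_lit 11472, nat_lit 13392, nat_lit 192, nat_lit 13104, nat_lit 14208, R3_4, R5_273, R4_296⟩, ⟨nat_lit 5, nat_lit 11520, nat_lit 13488, nat_lit 240, nat_lit 16032, nat_lit 2976, R3_5, R11_334, R3_62⟩]⟩, ⟨nat_lit 5, [⟨nat_lit 4, nat_lit 11136, nat_lit 13056, nat_lit 3168, nat_lit 12816, nat_lit 15888, R2_66, R5_267, R7_331⟩, ⟨nat_lit 5, nat_lit 11184, nat_lit 13200, nat_lit 3216, nat_lit 15744, nat_lit 14592, R2_67, R11_328, R2_304⟩]⟩]⟩,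
 ⟨nat_lit 7, [⟨nat_lit 5, [⟨nat_lit 4, nat_lit 11232, nat_lit 13104, nat_lit 7488, nat_lit 10944, nat_lit 15792, R2_156, R9_228, R7_329⟩]⟩]⟩], [⟨nat_lit 4, [⟨nat_lit 5, [⟨nat_lit 4, nat_lit 11904, nat_lit 11808, nat_lit 5184, nat_lit 11424, nat_lit 6048, R7_108, R8_238, R14_126⟩, ⟨nat_lit 5, nat_lit 11952, nat_lit 11856, nat_lit 5424, nat_lit 2688, nat_lit 4032, R7_113, R5_56, R12_84⟩, ⟨nat_lit 6, nat_lit 12000, nat_lit 11904, nat_lit 5280, nat_lit 2928, nat_lit 7488, R7_110, R9_61, R12_156⟩]⟩]⟩]]], [[], [], [], [], [], [[⟨nat_lit 5, [⟨nat_lit 1, [⟨nat_lit 4, nat_lit 15264, nat_lit 13248, nat_lit 3024, nat_lit 13200, nat_lit 14592, R10_63, R5_275, R4_304⟩, ⟨nat_lit 5, nat_lit 15312, nat_lit 13296, nat_lit 3216, nat_lit 16128, nat_lit 10464, R10_67, R11_336, R3_218⟩]⟩]⟩]]], [[], [], [], [], [[], [⟨nat_lit 4,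 [⟨nat_lit 4, [⟨nat_lit 4, nat_lit 13584, nat_lit 9648, nat_lit 1296, nat_lit 9936, nat_lit 1680, R7_27, R6_207, R7_35⟩, ⟨nat_lit 6, nat_lit 13632, nat_lit 9792, nat_lit 7296, nat_lit 11184, nat_lit 240, R7_152, R8_233, R2_5⟩]⟩, ⟨nat_lit 5, [⟨nat_lit 4, nat_lit 13872, nat_lit 9696, nat_lit 18528, nat_lit 10128, nat_lit 4368, R14_386, R6_211, R14_91⟩, ⟨nat_lit 5, nat_lit 13920, nat_lit 9744, nat_lit 19440, nat_lit 11184, nat_lit 2736, R14_405, R4_233, R12_57⟩, ⟨nat_lit 6, nat_lit 13968, nat_lit 9840, nat_lit 19008, nat_lit 11808, nat_lit 6912, R14_396, R8_246, R12_144⟩]⟩]⟩,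
 ⟨nat_lit 6, [⟨nat_lit 4, [⟨nat_lit 6, nat_lit 13680, nat_lit 10272, nat_lit 5520, nat_lit 768, nat_lit 5952, R2_115, R5_16, R2_124⟩]⟩, ⟨nat_lit 5, [⟨nat_lit 6, nat_lit 14016, nat_lit 10320, nat_lit 15888, nat_lit 864, nat_lit 7776, R12_331, R5_18, R12_162⟩]⟩]⟩,
 ⟨nat_lit 7, [⟨nat_lit 4, [⟨nat_lit 4, nat_lit 13728, nat_lit 9888, nat_lit 144, nat_lit 2400, nat_lit 8304, R2_3, R13_50, R7_173⟩, ⟨nat_lit 6, nat_lit 13776, nat_lit 10176, nat_lit 7152, nat_lit 1728, nat_lit 7248, R2_149, R9_36, R2_151⟩, ⟨nat_lit 7, nat_lit 13824, nat_lit 10032, nat_lit 5856, nat_lit 9648, nat_lit 5280, R2_122, R3_201, R2_110⟩]⟩, ⟨nat_lit 5, [⟨nat_lit 4, nat_lit 14064, nat_lit 9936, nat_lit 432, nat_lit 2448, nat_lit 4752, R12_9, R13_51, R14_99⟩, ⟨nat_lit 5, nat_lit 14112, nat_lit 9984, nat_lit 2496, nat_lit 2880, nat_lit 3120, R12_52,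 R3_60, R12_65⟩, ⟨nat_lit 6, nat_lit 14160, nat_lit 10224, nat_lit 1584, nat_lit 1776, nat_lit 8448, R12_33, R9_37, R12_176⟩, ⟨nat_lit 7, nat_lit 14208, nat_lit 10080, nat_lit 624, nat_lit 9840, nat_lit 13488, R12_13, R3_205, R12_281⟩]⟩]⟩]]], [[], [], [], [], [[⟨nat_lit 4, [⟨nat_lit 1, [⟨nat_lit 4, nat_lit 16032, nat_lit 4464, nat_lit 1008, nat_lit 4752, nat_lit 12144, R5_21, R6_99, R4_253⟩, ⟨nat_lit 5, nat_lit 16080, nat_lit 5616, nat_lit 3360, nat_lit 5088, nat_lit 8544, R5_70, R4_106, R3_178⟩]⟩]⟩,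
 ⟨nat_lit 7, [⟨nat_lit 1, [⟨nat_lit 4, nat_lit 16128, nat_lit 4896, nat_lit 7824, nat_lit 480, nat_lit 12192, R11_163, R13_10, R4_254⟩, ⟨nat_lit 5, nat_lit 16176, nat_lit 6240, nat_lit 7968, nat_lit 672, nat_lit 8592, R11_166, R3_14, R3_179⟩]⟩]⟩], [], [], [⟨nat_lit 4, [⟨nat_lit 1, [⟨nat_lit 4, nat_lit 17376, nat_lit 4704, nat_lit 1296, nat_lit 5904, nat_lit 14304, R5_27, R6_123, R5_298⟩]⟩]⟩,
 ⟨nat_lit 7, [⟨nat_lit 1, [⟨nat_lit 4, nat_lit 17472, nat_lit 5280, nat_lit 8112, nat_lit 960, nat_lit 14688, R11_169, R13_20, R5_306⟩, ⟨nat_lit 7, nat_lit 17568, nat_lit 6912, nat_lit 8208, nat_lit 4752, nat_lit 5040, R11_171, R3_99, R11_105⟩]⟩]⟩]], [[⟨nat_lit 4, [⟨nat_lit 1, [⟨nat_lit 4, nat_lit 16368, nat_lit 13776, nat_lit 9264, nat_lit 19008, nat_lit 14400, R5_193, R8_396, R4_300⟩, ⟨nat_lit 5, nat_lit 16416, nat_lit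 13920, nat_lit 11424, nat_lit 11472, nat_lit 8688, R5_238, R5_239, R3_181⟩]⟩]⟩,
 ⟨nat_lit 7, [⟨nat_lit 1, [⟨nat_lit 4, nat_lit 16560, nat_lit 13872, nat_lit 7872, nat_lit 11376, nat_lit 14448, R11_164, R9_237, R4_301⟩]⟩]⟩]], [], [[⟨nat_lit 7, [⟨nat_lit 1, [⟨nat_lit 4, nat_lit 16752, nat_lit 13392, nat_lit 7920, nat_lit 16752, nat_lit 13392, R11_165, R3_349, R4_279⟩, ⟨nat_lit 5, nat_lit 16800, nat_lit 13728, nat_lit 8064, nat_lit 12384, nat_lit 8640, R11_168, R10_258, R3_180⟩]⟩]⟩]]]]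
noncomputable def N0343 : T3 (List N0) := [[], [], [], [[], [], [], [], [[], [], [], [⟨nat_lit 2, [⟨nat_lit 4, [⟨nat_lit 3, nat_lit 4272, nat_lit 2592, nat_lit 12816, nat_lit 1008, nat_lit 12816, R2_267, R8_21, R2_267⟩]⟩]⟩,
 ⟨nat_lit 7, [⟨nat_lit 0, [⟨nat_lit 6, nat_lit 2592, nat_lit 4272, nat_lit 12816, nat_lit 1008, nat_lit 12816, R2_267, R8_21, R2_267⟩]⟩]⟩], [], [], [], [⟨nat_lit 0, [⟨nat_lit 6, [⟨nat_lit 3, nat_lit 2928, nat_lit 384, nat_lit 12144, nat_lit 1008, nat_lit 14928, R2_253, R6_21, R10_311⟩]⟩]⟩,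
 ⟨nat_lit 2, [⟨nat_lit 4, [⟨nat_lit 0, nat_lit 3456, nat_lit 2208, nat_lit 3264, nat_lit 1728, nat_lit 17568, R2_68, R6_36, R13_366⟩, ⟨nat_lit 2, nat_lit 3936, nat_lit 2928, nat_lit 4752, nat_lit 1632, nat_lit 13104, R2_99, R4_34, R3_273⟩, ⟨nat_lit 3, nat_lit 4416, nat_lit 2640, nat_lit 4128, nat_lit 672, nat_lit 6384, R2_86, R8_14, R3_133⟩]⟩, ⟨nat_lit 6, [⟨nat_lit 0, nat_lit 3504, nat_lit 2304, nat_lit 12720, nat_lit 1776, nat_lit 11616, R12_265, R6_37, R3_242⟩, ⟨nat_lit 3, nat_lit 4464, nat_lit 2688, nat_lit 12864, nat_lit 720, nat_lit 17424, R12_268, R8_15, R10_363⟩]⟩]⟩,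
 ⟨nat_lit 6, [⟨nat_lit 7, [⟨nat_lit 2, nat_lit 2064, nat_lit 4272, nat_lit 17376, nat_lit 1152, nat_lit 13200, R11_362, R7_24, R10_275⟩]⟩]⟩]], [], [[], [], [], [], [], [], [], [⟨nat_lit 0, [⟨nat_lit 6, [⟨nat_lit 0, nat_lit 8736, nat_lit 2544, nat_lit 14400, nat_lit 12288, nat_lit 11088, R2_300, R6_256, R3_231⟩, ⟨nat_lit 3, nat_lit 9024, nat_lit 2928, nat_lit 14976, nat_lit 14880, nat_lit 14976, R2_312, R8_310, R10_312⟩]⟩]⟩,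
 ⟨nat_lit 2, [⟨nat_lit 4, [⟨nat_lit 0, nat_lit 9600, nat_lit 2592, nat_lit 3552, nat_lit 1344, nat_lit 17616, R2_74, R13_28, R13_367⟩, ⟨nat_lit 1, nat_lit 10464, nat_lit 2784, nat_lit 6528, nat_lit 1776, nat_lit 14592, R2_136, R3_37, R9_304⟩, ⟨nat_lit 2, nat_lit 10944, nat_lit 3168, nat_lit 4944, nat_lit 12432, nat_lit 13152, R2_103, R3_259, R3_274⟩, ⟨nat_lit 3, nat_lit 11280, nat_lit 3024, nat_lit 4416, nat_lit 576, nat_lit 6624, R2_92, R9_12, R3_138⟩]⟩, ⟨nat_lit 6, [⟨nat_lit 0, nat_lit 9648, nat_lit 2688, nat_lit 15552, nat_lit 1392, nat_lit 11952, R12_324, R13_29, R3_249⟩, ⟨nat_lit 3, nat_lit 11328, nat_lit 3072, nat_lit 15744, nat_lit 624, nat_lit 17472, R12_328, R9_13, R10_364⟩]⟩]⟩,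
 ⟨nat_lit 6, [⟨nat_lit 7, [⟨nat_lit 2, nat_lit 8592, nat_lit 3120, nat_lit 17472, nat_lit 336, nat_lit 13488, R11_364, R2_7, R10_281⟩]⟩]⟩]], [[⟨nat_lit 0, [⟨nat_lit 6, [⟨nat_lit 7, nat_lit 12144, nat_lit 11808, nat_lit 12480, nat_lit 15168, nat_lit 14832, R2_260, R7_316, R5_309⟩]⟩]⟩,
 ⟨nat_lit 3, [⟨nat_lit 2, [⟨nat_lit 4, nat_lit 12912, nat_lit 12912, nat_lit 18336, nat_lit 14880, nat_lit 14880, R11_382, R7_310, R7_310⟩]⟩]⟩,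
 ⟨nat_lit 7, [⟨nat_lit 0, [⟨nat_lit 6, nat_lit 11808, nat_lit 12144, nat_lit 12480, nat_lit 14832, nat_lit 15168, R2_260, R5_309, R7_316⟩]⟩]⟩]]], [[], [], [], [], [[], [⟨nat_lit 4, [⟨nat_lit 0, [⟨nat_lit 6, nat_lit 0, nat_lit 3936, nat_lit 3504, nat_lit 1488, nat_lit 1104, R6_73, R6_31, R2_23⟩]⟩, ⟨nat_lit 2, [⟨nat_lit 6, nat_lit 48, nat_lit 4032, nat_lit 3360, nat_lit 1536, nat_lit 0, R4_70, R6_32, R12_0⟩]⟩]⟩,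
 ⟨nat_lit 6, [⟨nat_lit 0, [⟨nat_lit 2, nat_lit 1056, nat_lit 4080, nat_lit 9648, nat_lit 1584, nat_lit 13584, R4_201, R7_33, R3_283⟩, ⟨nat_lit 6, nat_lit 624, nat_lit 4176, nat_lit 8160, nat_lit 1488, nat_lit 1920, R4_170, R4_31, R2_40⟩]⟩, ⟨nat_lit 1, [⟨nat_lit 2, nat_lit 1104, nat_lit 4128, nat_lit 4512, nat_lit 1632, nat_lit 1296, R5_94, R7_34, R10_27⟩]⟩]⟩]], [[⟨nat_lit 4, [⟨nat_lit 0, [⟨nat_lit 6, nat_lit 4848, nat_lit 10944, nat_lit 8544, nat_lit 1008, nat_lit 2976, R6_178, R13_21, R7_62⟩]⟩, ⟨nat_lit 2, [⟨nat_lit 4, nat_lit 4704, nat_lit 11136, nat_lit 8640, nat_lit 12192, nat_lit 15504, R4_180, R6_254, R7_323⟩, ⟨nat_lit 6, nat_lit 4896, nat_lit 11232, nat_lit 9216, nat_lit 1056, nat_lit 1968, R4_192, R13_22, R14_41⟩]⟩]⟩,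
 ⟨nat_lit 5, [⟨nat_lit 0, [⟨nat_lit 6, nat_lit 5712, nat_lit 10992, nat_lit 144, nat_lit 1200, nat_lit 4032, R8_3, R3_25, R7_84⟩]⟩, ⟨nat_lit 2, [⟨nat_lit 4, nat_lit 5520, nat_lit 11184, nat_lit 4416, nat_lit 12384, nat_lit 16272, R5_92, R4_258, R7_339⟩, ⟨nat_lit 6, nat_lit 5760, nat_lit 11280, nat_lit 4464, nat_lit 1248, nat_lit 2016, R5_93, R3_26, R14_42⟩]⟩]⟩,
 ⟨nat_lit 6, [⟨nat_lit 0, [⟨nat_lit 2, nat_lit 7008, nat_lit 11088, nat_lit 3600, nat_lit 96, nat_lit 3504, R4_75, R2_2, R4_73⟩, ⟨nat_lit 6, nat_lit 6576, nat_lit 11040, nat_lit 1584, nat_lit 12336, nat_lit 3600, R4_33, R3_257, R7_75⟩]⟩]⟩], [⟨nat_lit 4, [⟨nat_lit 2, [⟨nat_lit 6, nat_lit 4992, nat_lit 3840, nat_lit 9360, nat_lit 1152, nat_lit 192, R4_195, R13_24, R12_4⟩]⟩]⟩]]], [[], [[⟨nat_lit 5, [⟨nat_lit 0, [⟨nat_lit 6, nat_lit 13872, nat_lit 12864,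 nat_lit 14832, nat_lit 12480, nat_lit 12384, R5_309, R2_260, R7_258⟩]⟩, ⟨nat_lit 2, [⟨nat_lit 4, nat_lit 13728, nat_lit 12912, nat_lit 18336, nat_lit 14880, nat_lit 12096, R11_382, R7_310, R7_252⟩, ⟨nat_lit 6, nat_lit 13920, nat_lit 13008, nat_lit 18384, nat_lit 12576, nat_lit 3504, R11_383, R2_262, R14_73⟩]⟩]⟩], [], [⟨nat_lit 5, [⟨nat_lit 2, [⟨nat_lit 4, nat_lit 13776, nat_lit 10560, nat_lit 18768, nat_lit 14928, nat_lit 10560, R11_391, R7_311, R2_220⟩, ⟨nat_lit 6, nat_lit 13968, nat_lit 10704, nat_lit 18816, nat_lit 12624, nat_lit 1824, R11_392, R2_263, R12_38⟩]⟩]⟩]], [], [], [], [[⟨nat_lit 5, [⟨nat_lit 2, [⟨nat_lit 4, nat_lit 5568, nat_lit 11856, nat_lit 4416, nat_lit 12432, nat_lit 16416, R11_92, R4_259, R7_342⟩]⟩]⟩]]], [[], [], [], [], [[], [⟨nat_lit 6, [⟨nat_lit 1, [⟨nat_lit 2, nat_lit 1152, nat_lit 4272,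 nat_lit 17376, nat_lit 2064, nat_lit 7584, R11_362, R7_43, R10_158⟩]⟩]⟩]]], [[], [], [], [], [[⟨nat_lit 4, [⟨nat_lit 0, [⟨nat_lit 6, nat_lit 192, nat_lit 2352, nat_lit 15312, nat_lit 1632, nat_lit 9072, R13_319, R6_34, R7_189⟩]⟩, ⟨nat_lit 2, [⟨nat_lit 6, nat_lit 240, nat_lit 2400, nat_lit 11568, nat_lit 1680, nat_lit 2352, R3_241, R6_35, R14_49⟩]⟩]⟩,
 ⟨nat_lit 6, [⟨nat_lit 0, [⟨nat_lit 2, nat_lit 1296, nat_lit 4080, nat_lit 13584, nat_lit 1680, nat_lit 9648, R3_283, R7_35, R4_201⟩, ⟨nat_lit 6, nat_lit 768, nat_lit 3264, nat_lit 12336, nat_lit 1584, nat_lit 10608, R3_257, R4_33, R7_221⟩]⟩, ⟨nat_lit 3, [⟨nat_lit 2, nat_lit 1344, nat_lit 4128, nat_lit 13152, nat_lit 1728, nat_lit 4512, R10_274, R7_36, R5_94⟩]⟩]⟩,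
 ⟨nat_lit 7, [⟨nat_lit 0, [⟨nat_lit 6, nat_lit 2256, nat_lit 2976, nat_lit 1200, nat_lit 1152, nat_lit 9744, R3_25, R8_24, R7_203⟩]⟩, ⟨nat_lit 2, [⟨nat_lit 4, nat_lit 2112, nat_lit 816, nat_lit 14352, nat_lit 144, nat_lit 13296, R10_299, R6_3, R7_277⟩, ⟨nat_lit 6, nat_lit 2304, nat_lit 3024, nat_lit 15648, nat_lit 1200, nat_lit 2400, R10_326, R8_25, R14_50⟩]⟩]⟩], [⟨nat_lit 7, [⟨nat_lit 2, [⟨nat_lit 6, nat_lit 2400, nat_lit 3984, nat_lit 16512, nat_lit 1392, nat_lit 768, R10_344, R8_29, R12_16⟩]⟩]⟩], [], [⟨nat_lit 4, [⟨nat_lit 0, [⟨nat_lit 6, nat_lit 432, nat_lit 2208, nat_lit 15360, nat_lit 1728, nat_lit 3264, R13_320, R6_36, R2_68⟩]⟩, ⟨nat_lit 2, [⟨nat_lit 6, nat_lit 480, nat_lit 2304, nat_lit 11616, nat_lit 1776, nat_lit 2688, R3_242, R6_37, R12_56⟩]⟩]⟩,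
 ⟨nat_lit 6, [⟨nat_lit 0, [⟨nat_lit 6, nat_lit 912, nat_lit 2928, nat_lit 13104, nat_lit 1632, nat_lit 4752, R3_273, R4_34, R2_99⟩]⟩, ⟨nat_lit 3, [⟨nat_lit 2, nat_lit 1536, nat_lit 4272, nat_lit 13200, nat_lit 1776, nat_lit 4512, R10_275, R7_37, R11_94⟩]⟩]⟩,
 ⟨nat_lit 7, [⟨nat_lit 0, [⟨nat_lit 6, nat_lit 2496, nat_lit 2640, nat_lit 6384, nat_lit 1248, nat_lit 4128, R3_133, R8_26, R2_86⟩]⟩, ⟨nat_lit 2, [⟨nat_lit 4, nat_lit 2160, nat_lit 384, nat_lit 14928, nat_lit 1008, nat_lit 12144, R10_311, R6_21, R2_253⟩, ⟨nat_lit 6, nat_lit 2544, nat_lit 2688, nat_lit 17424, nat_lit 1296, nat_lit 2832, R10_363, R8_27, R12_59⟩]⟩]⟩]], [[⟨nat_lit 4, [⟨nat_lit 0, [⟨nat_lit 6, nat_lit 5136, nat_lit 10992, nat_lit 15696, nat_lit 1248, nat_lit 9168, R13_327, R13_26, R7_191⟩]⟩, ⟨nat_lit 2, [⟨nat_lit 4, nat_lit 4752, nat_lit 11280,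 nat_lit 11040, nat_lit 12240, nat_lit 15600, R3_230, R6_255, R7_325⟩, ⟨nat_lit 6, nat_lit 5184, nat_lit 11424, nat_lit 11904, nat_lit 1296, nat_lit 2832, R3_248, R13_27, R14_59⟩]⟩]⟩,
 ⟨nat_lit 5, [⟨nat_lit 0, [⟨nat_lit 6, nat_lit 6240, nat_lit 11040, nat_lit 14016, nat_lit 1680, nat_lit 11040, R9_292, R3_35, R7_230⟩]⟩]⟩,
 ⟨nat_lit 6, [⟨nat_lit 0, [⟨nat_lit 2, nat_lit 7296, nat_lit 11184, nat_lit 13632, nat_lit 240, nat_lit 9792, R3_284, R2_5, R4_204⟩, ⟨nat_lit 6, nat_lit 6768, nat_lit 11136, nat_lit 12384, nat_lit 12384, nat_lit 10656, R3_258, R3_258, R7_222⟩]⟩, ⟨nat_lit 3, [⟨nat_lit 2, nat_lit 7344, nat_lit 11232, nat_lit 13440, nat_lit 288, nat_lit 6096, R10_280, R2_6, R5_127⟩]⟩]⟩,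
 ⟨nat_lit 7, [⟨nat_lit 0, [⟨nat_lit 6, nat_lit 7680, nat_lit 11088, nat_lit 1680, nat_lit 480, nat_lit 9936, R3_35, R9_10, R7_207⟩]⟩, ⟨nat_lit 2, [⟨nat_lit 4, nat_lit 7584, nat_lit 11376, nat_lit 14448, nat_lit 14400, nat_lit 16080, R10_301, R8_300, R7_335⟩, ⟨nat_lit 6, nat_lit 7728, nat_lit 11520, nat_lit 15744, nat_lit 528, nat_lit 2880, R10_328, R9_11, R14_60⟩]⟩]⟩], [⟨nat_lit 7, [⟨nat_lit 2, [⟨nat_lit 6, nat_lit 7824, nat_lit 3168, nat_lit 16608, nat_lit 720, nat_lit 1248, R10_346, R9_15, R12_26⟩]⟩]⟩], [], [⟨nat_lit 7, [⟨nat_lit 2, [⟨nat_lit 6, nat_lit 7968, nat_lit 3072, nat_lit 17472, nat_lit 624, nat_lit 4224, R10_364, R9_13, R12_88⟩]⟩]⟩]], [], [[⟨nat_lit 7, [⟨nat_lit 2, [⟨nat_lit 4, nat_lit 11424, nat_lit 11520, nat_lit 14400, nat_lit 13488, nat_lit 14640, R10_300, R4_281, R7_305⟩, ⟨nat_lit 6, nat_lit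 11616, nat_lit 11952, nat_lit 15696, nat_lit 14976, nat_lit 2688, R10_327, R5_312, R14_56⟩]⟩]⟩], [⟨nat_lit 7, [⟨nat_lit 2, [⟨nat_lit 6, nat_lit 11712, nat_lit 13728, nat_lit 16560, nat_lit 15120, nat_lit 1056, R10_345, R5_315, R12_22⟩]⟩]⟩]]]]
noncomputable def N0370 : T3 (List N0) := [[[[], [], [⟨nat_lit 0, [⟨nat_lit 6, [⟨nat_lit 4, nat_lit 9072, nat_lit 10944, nat_lit 2976, nat_lit 1632, nat_lit 1008, R7_62, R6_34, R13_21⟩]⟩]⟩]], [], [], [[⟨nat_lit 0, [⟨nat_lit 6, [⟨nat_lit 4, nat_lit 2976, nat_lit 10944, nat_lit 9072, nat_lit 16272, nat_lit 1632, R7_189, R13_339, R6_34⟩]⟩]⟩], [], [⟨nat_lit 0, [⟨nat_lit 6, [⟨nat_lit 4, nat_lit 9168, nat_lit 10992, nat_lit 9168, nat_lit 16320, nat_lit 1248, R7_191, R13_340, R13_26⟩]⟩]⟩]]], [], [], [[], [], [], [], [], [], [], [[⟨nat_lit 0, [⟨nat_lit 6, [⟨nat_lit 7, nat_lit 4272,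 nat_lit 2592, nat_lit 12816, nat_lit 12816, nat_lit 1008, R2_267, R2_267, R8_21⟩]⟩]⟩,
 ⟨nat_lit 4, [⟨nat_lit 3, [⟨nat_lit 2, nat_lit 2592, nat_lit 4272, nat_lit 12816, nat_lit 12816, nat_lit 1008, R2_267, R2_267, R8_21⟩]⟩]⟩]]], [[], [], [], [], [[], [⟨nat_lit 4, [⟨nat_lit 0, [⟨nat_lit 2, nat_lit 4848, nat_lit 10944, nat_lit 1632, nat_lit 2976, nat_lit 1008, R6_34, R7_62, R13_21⟩]⟩, ⟨nat_lit 1, [⟨nat_lit 2, nat_lit 5712, nat_lit 10992, nat_lit 144, nat_lit 4032, nat_lit 1200, R8_3, R7_84, R3_25⟩]⟩, ⟨nat_lit 2, [⟨nat_lit 2, nat_lit 6576, nat_lit 11040, nat_lit 1584, nat_lit 3600, nat_lit 12336, R4_33, R7_75, R3_257⟩, ⟨nat_lit 6, nat_lit 7008, nat_lit 11088, nat_lit 3600, nat_lit 3504, nat_lit 96, R4_75, R4_73, R2_2⟩]⟩]⟩,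
 ⟨nat_lit 6, [⟨nat_lit 0, [⟨nat_lit 0, nat_lit 4704, nat_lit 11136, nat_lit 8640, nat_lit 15504, nat_lit 12192, R4_180, R7_323, R6_254⟩, ⟨nat_lit 2, nat_lit 4896, nat_lit 11232, nat_lit 9216, nat_lit 1968, nat_lit 1056, R4_192, R14_41, R13_22⟩]⟩, ⟨nat_lit 1, [⟨nat_lit 0, nat_lit 5520, nat_lit 11184, nat_lit 4416, nat_lit 16272, nat_lit 12384, R5_92, R7_339, R4_258⟩, ⟨nat_lit 2, nat_lit 5760, nat_lit 11280, nat_lit 4464, nat_lit 2016, nat_lit 1248, R5_93, R14_42, R3_26⟩]⟩]⟩]], [[⟨nat_lit 4, [⟨nat_lit 0, [⟨nat_lit 2, nat_lit 0, nat_lit 3936, nat_lit 7440, nat_lit 1104, nat_lit 1488, R6_155, R2_23, R6_31⟩]⟩, ⟨nat_lit 2, [⟨nat_lit 2, nat_lit 624, nat_lit 4176, nat_lit 8160, nat_lit 1920, nat_lit 1488, R4_170, R2_40, R4_31⟩, ⟨nat_lit 6, nat_lit 1056, nat_lit 4080, nat_lit 9648, nat_lit 13584, nat_lit 1584, R4_201,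 R3_283, R7_33⟩]⟩]⟩,
 ⟨nat_lit 5, [⟨nat_lit 2, [⟨nat_lit 6, nat_lit 1104, nat_lit 4128, nat_lit 4512, nat_lit 1296, nat_lit 1632, R5_94, R10_27, R7_34⟩]⟩]⟩,
 ⟨nat_lit 6, [⟨nat_lit 0, [⟨nat_lit 2, nat_lit 48, nat_lit 4032, nat_lit 3360, nat_lit 0, nat_lit 1536, R4_70, R12_0, R6_32⟩]⟩]⟩], [⟨nat_lit 6, [⟨nat_lit 0, [⟨nat_lit 2, nat_lit 4992, nat_lit 14448, nat_lit 9360, nat_lit 192, nat_lit 1152, R4_195, R12_4, R13_24⟩]⟩]⟩]]], [[], [], [], [], [], [[⟨nat_lit 5, [⟨nat_lit 2, [⟨nat_lit 6, nat_lit 1152, nat_lit 4272, nat_lit 4512, nat_lit 7584, nat_lit 2064, R11_94, R10_158, R7_43⟩]⟩]⟩]]], [[], [], [], [], [[], [⟨nat_lit 4, [⟨nat_lit 1, [⟨nat_lit 2, nat_lit 5952, nat_lit 11808, nat_lit 14784, nat_lit 12480, nat_lit 1440, R5_308, R7_260, R3_30⟩]⟩]⟩,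
 ⟨nat_lit 6, [⟨nat_lit 1, [⟨nat_lit 0, nat_lit 5568, nat_lit 11856, nat_lit 18288, nat_lit 16416, nat_lit 12432, R11_381, R7_342, R4_259⟩, ⟨nat_lit 2, nat_lit 6000, nat_lit 11904, nat_lit 19104, nat_lit 3984, nat_lit 1488, R11_398, R14_83, R3_31⟩]⟩]⟩], [], [], [], [⟨nat_lit 6, [⟨nat_lit 1, [⟨nat_lit 0, nat_lit 13728, nat_lit 12912, nat_lit 18336, nat_lit 12096, nat_lit 14880, R11_382, R7_252, R7_310⟩]⟩]⟩]]], [[], [], [], [], [[⟨nat_lit 4, [⟨nat_lit 0, [⟨nat_lit 2, nat_lit 192, nat_lit 10944, nat_lit 16272, nat_lit 9072, nat_lit 1632, R13_339, R7_189, R6_34⟩]⟩, ⟨nat_lit 2, [⟨nat_lit 2, nat_lit 768, nat_lit 11040, nat_lit 12336, nat_lit 10608, nat_lit 1584, R3_257, R7_221, R4_33⟩, ⟨nat_lit 6, nat_lit 1296, nat_lit 9936, nat_lit 13584, nat_lit 9648, nat_lit 1680, R3_283, R4_201, R7_35⟩]⟩, ⟨nat_lit 3, [⟨nat_lit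 2, nat_lit 2256, nat_lit 10992, nat_lit 1200, nat_lit 9744, nat_lit 1152, R3_25, R7_203, R8_24⟩]⟩]⟩,
 ⟨nat_lit 6, [⟨nat_lit 0, [⟨nat_lit 2, nat_lit 240, nat_lit 11328, nat_lit 11568, nat_lit 2352, nat_lit 1680, R3_241, R14_49, R6_35⟩]⟩, ⟨nat_lit 3, [⟨nat_lit 0, nat_lit 2112, nat_lit 10656, nat_lit 14352, nat_lit 13296, nat_lit 144, R10_299, R7_277, R6_3⟩, ⟨nat_lit 2, nat_lit 2304, nat_lit 11376, nat_lit 15648, nat_lit 2400, nat_lit 1200, R10_326, R14_50, R8_25⟩]⟩]⟩,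
 ⟨nat_lit 7, [⟨nat_lit 2, [⟨nat_lit 6, nat_lit 1344, nat_lit 10320, nat_lit 13152, nat_lit 4512, nat_lit 1728, R10_274, R5_94, R7_36⟩]⟩]⟩], [⟨nat_lit 4, [⟨nat_lit 0, [⟨nat_lit 2, nat_lit 5136, nat_lit 10992, nat_lit 16320, nat_lit 9168, nat_lit 1248, R13_340, R7_191, R13_26⟩]⟩]⟩,
 ⟨nat_lit 6, [⟨nat_lit 3, [⟨nat_lit 0, nat_lit 7584, nat_lit 11376, nat_lit 14448, nat_lit 16080, nat_lit 14400, R10_301, R7_335, R8_300⟩, ⟨nat_lit 2, nat_lit 7728, nat_lit 11520, nat_lit 15744, nat_lit 2880, nat_lit 528, R10_328, R14_60, R9_11⟩]⟩]⟩], [], [⟨nat_lit 4, [⟨nat_lit 3, [⟨nat_lit 2, nat_lit 11568, nat_lit 11808, nat_lit 1440, nat_lit 9840, nat_lit 14784, R3_30, R7_205, R5_308⟩]⟩]⟩,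
 ⟨nat_lit 6, [⟨nat_lit 3, [⟨nat_lit 0, nat_lit 11424, nat_lit 11520, nat_lit 14400, nat_lit 14640, nat_lit 13488, R10_300, R7_305, R4_281⟩, ⟨nat_lit 2, nat_lit 11616, nat_lit 11952, nat_lit 15696, nat_lit 2688, nat_lit 14976, R10_327, R14_56, R5_312⟩]⟩]⟩]], [[⟨nat_lit 4, [⟨nat_lit 0, [⟨nat_lit 2, nat_lit 288, nat_lit 3744, nat_lit 16944, nat_lit 8160, nat_lit 1872, R13_353, R2_170, R6_39⟩]⟩, ⟨nat_lit 2, [⟨nat_lit 2, nat_lit 816, nat_lit 4176, nat_lit 12768, nat_lit 9696, nat_lit 1728, R3_266, R2_202, R4_36⟩, ⟨nat_lit 6, nat_lit 1392, nat_lit 4032, nat_lit 14352, nat_lit 14352, nat_lit 1824, R3_299, R3_299, R7_38⟩]⟩, ⟨nat_lit 3, [⟨nat_lit 2, nat_lit 2352, nat_lit 3888, nat_lit 7632, nat_lit 8784, nat_lit 1344, R3_159, R2_183, R8_28⟩]⟩]⟩,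
 ⟨nat_lit 6, [⟨nat_lit 0, [⟨nat_lit 2, nat_lit 336, nat_lit 3840, nat_lit 11664, nat_lit 720, nat_lit 1920, R3_243, R12_15, R6_40⟩]⟩, ⟨nat_lit 3, [⟨nat_lit 2, nat_lit 2400, nat_lit 3984, nat_lit 16512, nat_lit 768, nat_lit 1392, R10_344, R12_16, R8_29⟩]⟩]⟩], [⟨nat_lit 6, [⟨nat_lit 3, [⟨nat_lit 2, nat_lit 7824, nat_lit 12288, nat_lit 16608, nat_lit 1248, nat_lit 720, R10_346, R12_26, R9_15⟩]⟩]⟩], [], [⟨nat_lit 6, [⟨nat_lit 3, [⟨nat_lit 2, nat_lit 11712, nat_lit 13728, nat_lit 16560, nat_lit 1056, nat_lit 15120, R10_345, R12_22, R5_315⟩]⟩]⟩]], [], [[⟨nat_lit 6, [⟨nat_lit 3, [⟨nat_lit 2, nat_lit 2544, nat_lit 2688, nat_lit 17424, nat_lit 2832, nat_lit 1296, R10_363, R12_59, R8_27⟩]⟩]⟩,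
 ⟨nat_lit 7, [⟨nat_lit 2, [⟨nat_lit 6, nat_lit 1536, nat_lit 4272, nat_lit 13200, nat_lit 4512, nat_lit 1776, R10_275, R11_94, R7_37⟩]⟩]⟩], [⟨nat_lit 6, [⟨nat_lit 3, [⟨nat_lit 2, nat_lit 7968, nat_lit 3072, nat_lit 17472, nat_lit 4224, nat_lit 624, R10_364, R12_88, R9_13⟩]⟩]⟩]]]]
noncomputable def N0450 : T3 (List N0) := [[], [], [], [], [[], [], [], [], [[], [⟨nat_lit 2, [⟨nat_lit 0, [⟨nat_lit 0, nat_lit 4368, nat_lit 4512, nat_lit 11712, nat_lit 15120, nat_lit 14496, R6_244, R8_315, R6_302⟩]⟩]⟩]], [[⟨nat_lit 0, [⟨nat_lit 3, [⟨nat_lit 0, nat_lit 192, nat_lit 528, nat_lit 11904, nat_lit 4512, nat_lit 2064, R6_248, R4_94, R6_43⟩, ⟨nat_lit 3, nat_lit 336, nat_lit 624, nat_lit 11952, nat_lit 0, nat_lit 1872, R6_249, R3_0, R4_39⟩]⟩]⟩,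
 ⟨nat_lit 2, [⟨nat_lit 0, [⟨nat_lit 2, nat_lit 0, nat_lit 480, nat_lit 11664, nat_lit 0, nat_lit 3408, R6_243, R11_0, R6_71⟩]⟩, ⟨nat_lit 2, [⟨nat_lit 2, nat_lit 48, nat_lit 912, nat_lit 12096, nat_lit 96, nat_lit 3168, R4_252, R11_2, R4_66⟩]⟩, ⟨nat_lit 3, [⟨nat_lit 0, nat_lit 240, nat_lit 576, nat_lit 12576, nat_lit 7920, nat_lit 2112, R8_262, R5_165, R6_44⟩, ⟨nat_lit 2, nat_lit 288, nat_lit 768, nat_lit 12672, nat_lit 48, nat_lit 3120, R8_264, R11_1, R8_65⟩]⟩]⟩,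
 ⟨nat_lit 3, [⟨nat_lit 3, [⟨nat_lit 3, nat_lit 432, nat_lit 672, nat_lit 12240, nat_lit 0, nat_lit 1920, R4_255, R10_0, R4_40⟩]⟩, ⟨nat_lit 7, [⟨nat_lit 3, nat_lit 816, nat_lit 144, nat_lit 13440, nat_lit 48, nat_lit 2832, R7_280, R10_1, R7_59⟩]⟩]⟩,
 ⟨nat_lit 4, [⟨nat_lit 6, [⟨nat_lit 4, nat_lit 528, nat_lit 192, nat_lit 11904, nat_lit 4512, nat_lit 2064, R6_248, R4_94, R6_43⟩, ⟨nat_lit 6, nat_lit 624, nat_lit 336, nat_lit 11952, nat_lit 0, nat_lit 1872, R6_249, R3_0, R4_39⟩]⟩]⟩,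
 ⟨nat_lit 6, [⟨nat_lit 2, [⟨nat_lit 6, nat_lit 144, nat_lit 816, nat_lit 13440, nat_lit 48, nat_lit 2832, R7_280, R10_1, R7_59⟩]⟩, ⟨nat_lit 6, [⟨nat_lit 6, nat_lit 672, nat_lit 432, nat_lit 12240, nat_lit 0, nat_lit 1920, R4_255, R10_0, R4_40⟩]⟩]⟩,
 ⟨nat_lit 7, [⟨nat_lit 4, [⟨nat_lit 7, nat_lit 480, nat_lit 0, nat_lit 11664, nat_lit 0, nat_lit 3408, R6_243, R11_0, R6_71⟩]⟩, ⟨nat_lit 6, [⟨nat_lit 4, nat_lit 576, nat_lit 240, nat_lit 12576, nat_lit 7920, nat_lit 2112, R8_262, R5_165, R6_44⟩, ⟨nat_lit 7, nat_lit 768, nat_lit 288, nat_lit 12672, nat_lit 48, nat_lit 3120, R8_264, R11_1, R8_65⟩]⟩, ⟨nat_lit 7, [⟨nat_lit 7, nat_lit 912, nat_lit 48, nat_lit 12096, nat_lit 96, nat_lit 3168, R4_252, R11_2, R4_66⟩]⟩]⟩], [⟨nat_lit 0, [⟨nat_lit 3, [⟨nat_lit 0, nat_lit 5040, nat_lit 4464, nat_lit 12000, nat_lit 4752, nat_lit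 17568, R6_250, R4_99, R8_366⟩, ⟨nat_lit 3, nat_lit 5184, nat_lit 4512, nat_lit 12048, nat_lit 48, nat_lit 1056, R6_251, R3_1, R5_22⟩]⟩]⟩,
 ⟨nat_lit 2, [⟨nat_lit 0, [⟨nat_lit 0, nat_lit 4800, nat_lit 4608, nat_lit 11808, nat_lit 912, nat_lit 14592, R6_246, R5_19, R6_304⟩, ⟨nat_lit 2, nat_lit 4848, nat_lit 4752, nat_lit 11856, nat_lit 480, nat_lit 2544, R6_247, R11_10, R13_53⟩]⟩, ⟨nat_lit 2, [⟨nat_lit 2, nat_lit 4896, nat_lit 4848, nat_lit 12192, nat_lit 576, nat_lit 16128, R4_254, R11_12, R3_336⟩]⟩, ⟨nat_lit 3, [⟨nat_lit 0, nat_lit 5088, nat_lit 4656, nat_lit 12720, nat_lit 9168, nat_lit 18288, R8_265, R5_191, R8_381⟩, ⟨nat_lit 2, nat_lit 5136, nat_lit 4800, nat_lit 12816, nat_lit 528, nat_lit 1872, R8_267, R11_11, R9_39⟩]⟩]⟩,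
 ⟨nat_lit 3, [⟨nat_lit 3, [⟨nat_lit 3, nat_lit 5280, nat_lit 4560, nat_lit 12288, nat_lit 336, nat_lit 1152, R4_256, R10_7, R5_24⟩]⟩]⟩]]], [[], [[⟨nat_lit 4, [⟨nat_lit 4, [⟨nat_lit 7, nat_lit 1488, nat_lit 0, nat_lit 3504, nat_lit 1104, nat_lit 3936, R6_73, R2_23, R6_82⟩]⟩, ⟨nat_lit 6, [⟨nat_lit 4, nat_lit 1632, nat_lit 192, nat_lit 15312, nat_lit 4848, nat_lit 2352, R13_319, R7_101, R6_49⟩, ⟨nat_lit 6, nat_lit 1728, nat_lit 432, nat_lit 15360, nat_lit 3264, nat_lit 2208, R13_320, R2_68, R4_46⟩, ⟨nat_lit 7, nat_lit 1872, nat_lit 288, nat_lit 15408, nat_lit 8160, nat_lit 3744, R13_321, R2_170, R8_78⟩]⟩]⟩,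
 ⟨nat_lit 5, [⟨nat_lit 4, [⟨nat_lit 7, nat_lit 1536, nat_lit 48, nat_lit 3360, nat_lit 0, nat_lit 4032, R4_70, R12_0, R6_84⟩]⟩, ⟨nat_lit 6, [⟨nat_lit 4, nat_lit 1680, nat_lit 240, nat_lit 11568, nat_lit 15264, nat_lit 2400, R3_241, R14_318, R6_50⟩, ⟨nat_lit 6, nat_lit 1776, nat_lit 480, nat_lit 11616, nat_lit 12720, nat_lit 2304, R3_242, R12_265, R4_48⟩, ⟨nat_lit 7, nat_lit 1920, nat_lit 336, nat_lit 11664, nat_lit 720, nat_lit 3840, R3_243, R12_15, R8_80⟩]⟩]⟩], [], [⟨nat_lit 4, [⟨nat_lit 4, [⟨nat_lit 4, nat_lit 7440, nat_lit 1104, nat_lit 3456, nat_lit 0, nat_lit 2304, R6_72, R7_0, R6_48⟩, ⟨nat_lit 7, nat_lit 7584, nat_lit 1392, nat_lit 3552, nat_lit 1392, nat_lit 1632, R6_74, R2_29, R8_34⟩]⟩, ⟨nat_lit 6, [⟨nat_lit 4, nat_lit 7728, nat_lit 1200, nat_lit 15456, nat_lit 4944, nat_lit 1728, R13_322, R7_103, R13_36⟩,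 ⟨nat_lit 6, nat_lit 7872, nat_lit 1776, nat_lit 15504, nat_lit 3360, nat_lit 2064, R13_323, R2_70, R3_43⟩, ⟨nat_lit 7, nat_lit 8016, nat_lit 1584, nat_lit 15552, nat_lit 8448, nat_lit 912, R13_324, R2_176, R9_19⟩]⟩]⟩,
 ⟨nat_lit 5, [⟨nat_lit 4, [⟨nat_lit 4, nat_lit 7488, nat_lit 1152, nat_lit 3312, nat_lit 15600, nat_lit 2448, R4_69, R14_325, R6_51⟩, ⟨nat_lit 5, nat_lit 7536, nat_lit 1296, nat_lit 3456, nat_lit 12672, nat_lit 2352, R4_72, R12_264, R4_49⟩, ⟨nat_lit 7, nat_lit 7632, nat_lit 1440, nat_lit 3408, nat_lit 6720, nat_lit 2832, R4_71, R12_140, R8_59⟩]⟩, ⟨nat_lit 6, [⟨nat_lit 4, nat_lit 7776, nat_lit 1248, nat_lit 11712, nat_lit 15936, nat_lit 1776, R3_244, R14_332, R13_37⟩, ⟨nat_lit 5, nat_lit 7824, nat_lit 1344, nat_lit 11856, nat_lit 13008, nat_lit 2160, R3_247, R12_271, R3_45⟩, ⟨nat_lit 6, nat_lit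 7920, nat_lit 1824, nat_lit 11760, nat_lit 13056, nat_lit 2208, R3_245, R12_272, R3_46⟩, ⟨nat_lit 7, nat_lit 8064, nat_lit 1632, nat_lit 11808, nat_lit 8064, nat_lit 1008, R3_246, R12_168, R9_21⟩]⟩]⟩]], [], [], [], [[⟨nat_lit 4, [⟨nat_lit 6, [⟨nat_lit 4, nat_lit 1104, nat_lit 96, nat_lit 15600, nat_lit 5136, nat_lit 2208, R13_325, R4_107, R6_46⟩, ⟨nat_lit 6, nat_lit 1200, nat_lit 240, nat_lit 15648, nat_lit 3744, nat_lit 2064, R13_326, R3_78, R4_43⟩]⟩]⟩,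
 ⟨nat_lit 6, [⟨nat_lit 6, [⟨nat_lit 6, nat_lit 1248, nat_lit 336, nat_lit 3024, nat_lit 144, nat_lit 2112, R3_63, R10_3, R4_44⟩]⟩]⟩,
 ⟨nat_lit 7, [⟨nat_lit 4, [⟨nat_lit 7, nat_lit 1056, nat_lit 0, nat_lit 0, nat_lit 144, nat_lit 4272, R8_0, R11_3, R6_89⟩]⟩, ⟨nat_lit 6, [⟨nat_lit 4, nat_lit 1152, nat_lit 144, nat_lit 13488, nat_lit 8496, nat_lit 2256, R9_281, R5_177, R6_47⟩, ⟨nat_lit 7, nat_lit 1344, nat_lit 192, nat_lit 13584, nat_lit 192, nat_lit 4272, R9_283, R11_4, R8_89⟩]⟩, ⟨nat_lit 7, [⟨nat_lit 7, nat_lit 1392, nat_lit 48, nat_lit 14496, nat_lit 240, nat_lit 4368, R5_302, R11_5, R4_91⟩]⟩]⟩]]], [[], [], [], [], [[], [⟨nat_lit 0, [⟨nat_lit 0, [⟨nat_lit 0, nat_lit 5328, nat_lit 4512, nat_lit 8208, nat_lit 15840, nat_lit 14400, R6_171, R6_330, R6_300⟩]⟩, ⟨nat_lit 1, [⟨nat_lit 0, nat_lit 5472, nat_lit 4560,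 nat_lit 8592, nat_lit 16320, nat_lit 14064, R4_179, R6_340, R4_293⟩]⟩, ⟨nat_lit 3, [⟨nat_lit 0, nat_lit 5664, nat_lit 4608, nat_lit 4464, nat_lit 16080, nat_lit 15216, R8_93, R6_335, R8_317⟩, ⟨nat_lit 3, nat_lit 5808, nat_lit 4656, nat_lit 4704, nat_lit 4224, nat_lit 1200, R8_98, R13_88, R5_25⟩]⟩]⟩,
 ⟨nat_lit 2, [⟨nat_lit 0, [⟨nat_lit 0, nat_lit 5376, nat_lit 4752, nat_lit 15120, nat_lit 15264, nat_lit 14544, R13_315, R8_318, R6_303⟩, ⟨nat_lit 2, nat_lit 5424, nat_lit 4944, nat_lit 15168, nat_lit 3264, nat_lit 2592, R13_316, R5_68, R13_54⟩]⟩, ⟨nat_lit 1, [⟨nat_lit 0, nat_lit 5520, nat_lit 4800, nat_lit 11376, nat_lit 16464, nat_lit 14160, R3_237, R8_343, R4_295⟩, ⟨nat_lit 2, nat_lit 5568, nat_lit 4992, nat_lit 11424, nat_lit 3408, nat_lit 2928, R3_238, R5_71, R3_61⟩]⟩, ⟨nat_lit 2, [⟨nat_lit 2, nat_lit 5616,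 nat_lit 5088, nat_lit 8544, nat_lit 3360, nat_lit 16080, R3_178, R5_70, R3_335⟩]⟩, ⟨nat_lit 3, [⟨nat_lit 0, nat_lit 5712, nat_lit 4848, nat_lit 13104, nat_lit 15984, nat_lit 15792, R9_273, R8_333, R8_329⟩, ⟨nat_lit 2, nat_lit 5760, nat_lit 5040, nat_lit 13152, nat_lit 3312, nat_lit 1920, R9_274, R5_69, R9_40⟩, ⟨nat_lit 3, nat_lit 5856, nat_lit 4896, nat_lit 13200, nat_lit 3456, nat_lit 1248, R9_275, R9_72, R5_26⟩]⟩]⟩,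
 ⟨nat_lit 3, [⟨nat_lit 3, [⟨nat_lit 3, nat_lit 5904, nat_lit 4704, nat_lit 14304, nat_lit 17376, nat_lit 1296, R5_298, R3_362, R5_27⟩]⟩]⟩], [], [], [], [⟨nat_lit 0, [⟨nat_lit 1, [⟨nat_lit 0, nat_lit 12192, nat_lit 4704, nat_lit 8640, nat_lit 11136, nat_lit 15504, R4_180, R6_232, R7_323⟩]⟩]⟩]]], [[], [], [], [], [[⟨nat_lit 0, [⟨nat_lit 3, [⟨nat_lit 0, nat_lit 2064, nat_lit 8208, nat_lit 4512, nat_lit 11904, nat_lit 192, R4_94, R6_248, R6_4⟩, ⟨nat_lit 3, nat_lit 2208, nat_lit 8496, nat_lit 5136, nat_lit 2688, nat_lit 96, R4_107, R13_56, R4_2⟩]⟩, ⟨nat_lit 7, [⟨nat_lit 3, nat_lit 2352, nat_lit 8544, nat_lit 4848, nat_lit 2736, nat_lit 2976, R7_101, R13_57, R7_62⟩]⟩]⟩,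
 ⟨nat_lit 2, [⟨nat_lit 3, [⟨nat_lit 0, nat_lit 2112, nat_lit 8352, nat_lit 7920, nat_lit 12144, nat_lit 240, R5_165, R8_253, R6_5⟩, ⟨nat_lit 2, nat_lit 2160, nat_lit 9600, nat_lit 8208, nat_lit 1776, nat_lit 3168, R5_171, R5_37, R8_66⟩, ⟨nat_lit 3, nat_lit 2256, nat_lit 9360, nat_lit 8496, nat_lit 2112, nat_lit 144, R5_177, R9_44, R4_3⟩]⟩]⟩,
 ⟨nat_lit 3, [⟨nat_lit 4, [⟨nat_lit 7, nat_lit 2304, nat_lit 7440, nat_lit 0, nat_lit 1104, nat_lit 3456, R7_0, R2_23, R6_72⟩]⟩, ⟨nat_lit 7, [⟨nat_lit 3, nat_lit 2400, nat_lit 9024, nat_lit 15648, nat_lit 11568, nat_lit 3024, R14_326, R3_241, R7_63⟩, ⟨nat_lit 7, nat_lit 2448, nat_lit 7488, nat_lit 15600, nat_lit 1152, nat_lit 3312, R14_325, R2_24, R4_69⟩]⟩]⟩], [⟨nat_lit 0, [⟨nat_lit 3, [⟨nat_lit 0, nat_lit 6816, nat_lit 4464, nat_lit 4608, nat_lit 15264, nat_lit 15168, R4_96,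 R6_318, R8_316⟩, ⟨nat_lit 3, nat_lit 6960, nat_lit 4512, nat_lit 5184, nat_lit 3408, nat_lit 1488, R4_108, R13_71, R5_31⟩]⟩]⟩,
 ⟨nat_lit 2, [⟨nat_lit 3, [⟨nat_lit 0, nat_lit 6864, nat_lit 4560, nat_lit 7968, nat_lit 15840, nat_lit 15744, R5_166, R8_330, R8_328⟩, ⟨nat_lit 2, nat_lit 6912, nat_lit 4656, nat_lit 8256, nat_lit 2208, nat_lit 2016, R5_172, R5_46, R9_42⟩, ⟨nat_lit 3, nat_lit 7008, nat_lit 4608, nat_lit 8544, nat_lit 2496, nat_lit 1536, R5_178, R9_52, R5_32⟩]⟩]⟩], [], [⟨nat_lit 0, [⟨nat_lit 3, [⟨nat_lit 0, nat_lit 9792, nat_lit 8592, nat_lit 4560, nat_lit 12912, nat_lit 14064, R4_95, R6_269, R4_293⟩]⟩, ⟨nat_lit 7, [⟨nat_lit 0, nat_lit 10032, nat_lit 8640, nat_lit 4704, nat_lit 12720, nat_lit 15456, R7_98, R6_265, R7_322⟩, ⟨nat_lit 3, nat_lit 10080, nat_lit 9216, nat_lit 4896, nat_lit 3072, nat_lit 2160,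 R7_102, R13_64, R14_45⟩]⟩]⟩,
 ⟨nat_lit 2, [⟨nat_lit 3, [⟨nat_lit 0, nat_lit 9840, nat_lit 8976, nat_lit 8016, nat_lit 14064, nat_lit 14256, R5_167, R8_293, R4_297⟩, ⟨nat_lit 2, nat_lit 9888, nat_lit 10560, nat_lit 8304, nat_lit 1968, nat_lit 16848, R5_173, R5_41, R5_351⟩]⟩]⟩,
 ⟨nat_lit 3, [⟨nat_lit 4, [⟨nat_lit 3, nat_lit 9936, nat_lit 9648, nat_lit 1056, nat_lit 13584, nat_lit 1584, R7_22, R3_283, R7_33⟩, ⟨nat_lit 7, nat_lit 9984, nat_lit 8160, nat_lit 624, nat_lit 1920, nat_lit 1488, R7_13, R2_40, R4_31⟩]⟩, ⟨nat_lit 7, [⟨nat_lit 3, nat_lit 10128, nat_lit 9696, nat_lit 15696, nat_lit 13872, nat_lit 2208, R14_327, R3_289, R14_46⟩]⟩]⟩]], [[⟨nat_lit 0, [⟨nat_lit 3, [⟨nat_lit 0, nat_lit 2496, nat_lit 384, nat_lit 5616, nat_lit 5616, nat_lit 2496, R4_117, R4_117, R6_52⟩, ⟨nat_lit 3, nat_lit 2640, nat_lit 480, nat_lit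 6288, nat_lit 720, nat_lit 2400, R4_131, R3_15, R4_50⟩]⟩, ⟨nat_lit 7, [⟨nat_lit 3, nat_lit 2976, nat_lit 144, nat_lit 5712, nat_lit 1200, nat_lit 4032, R7_119, R3_25, R7_84⟩]⟩]⟩,
 ⟨nat_lit 2, [⟨nat_lit 3, [⟨nat_lit 0, nat_lit 2544, nat_lit 432, nat_lit 8064, nat_lit 8064, nat_lit 2544, R5_168, R5_168, R6_53⟩, ⟨nat_lit 2, nat_lit 2592, nat_lit 576, nat_lit 8352, nat_lit 1776, nat_lit 3216, R5_174, R11_37, R8_67⟩]⟩]⟩,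
 ⟨nat_lit 3, [⟨nat_lit 7, [⟨nat_lit 3, nat_lit 3024, nat_lit 192, nat_lit 15792, nat_lit 960, nat_lit 4080, R14_329, R10_20, R7_85⟩]⟩]⟩,
 ⟨nat_lit 7, [⟨nat_lit 4, [⟨nat_lit 7, nat_lit 2784, nat_lit 0, nat_lit 0, nat_lit 288, nat_lit 3792, R4_0, R11_6, R6_79⟩]⟩, ⟨nat_lit 6, [⟨nat_lit 4, nat_lit 2832, nat_lit 240, nat_lit 1776, nat_lit 8208, nat_lit 2160, R5_37, R5_171, R6_45⟩, ⟨nat_lit 7, nat_lit 2928, nat_lit 288, nat_lit 1872, nat_lit 336, nat_lit 3552, R5_39, R11_7, R8_74⟩]⟩]⟩], [⟨nat_lit 0, [⟨nat_lit 3, [⟨nat_lit 0, nat_lit 7056, nat_lit 3696, nat_lit 5712, nat_lit 6048, nat_lit 17616, R4_119, R4_126, R8_367⟩]⟩]⟩,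
 ⟨nat_lit 2, [⟨nat_lit 3, [⟨nat_lit 0, nat_lit 7104, nat_lit 3792, nat_lit 8112, nat_lit 9312, nat_lit 18336, R5_169, R5_194, R8_382⟩, ⟨nat_lit 2, nat_lit 7152, nat_lit 3888, nat_lit 8400, nat_lit 2208, nat_lit 2064, R5_175, R11_46, R9_43⟩]⟩]⟩], [], [⟨nat_lit 0, [⟨nat_lit 3, [⟨nat_lit 0, nat_lit 10176, nat_lit 4368, nat_lit 5664, nat_lit 5808, nat_lit 14928, R4_118, R4_121, R4_311⟩]⟩, ⟨nat_lit 7, [⟨nat_lit 0, nat_lit 10512, nat_lit 4416, nat_lit 5520, nat_lit 12384, nat_lit 17280, R7_115, R4_258, R7_360⟩]⟩]⟩,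
 ⟨nat_lit 2, [⟨nat_lit 3, [⟨nat_lit 0, nat_lit 10224, nat_lit 4656, nat_lit 8160, nat_lit 8784, nat_lit 15168, R5_170, R5_183, R4_316⟩, ⟨nat_lit 2, nat_lit 10272, nat_lit 4704, nat_lit 8448, nat_lit 1968, nat_lit 16896, R5_176, R11_41, R5_352⟩]⟩]⟩,
 ⟨nat_lit 3, [⟨nat_lit 4, [⟨nat_lit 3, nat_lit 10320, nat_lit 4512, nat_lit 1104, nat_lit 1296, nat_lit 1632, R7_23, R10_27, R7_34⟩]⟩, ⟨nat_lit 7, [⟨nat_lit 3, nat_lit 10608, nat_lit 4560, nat_lit 15840, nat_lit 1344, nat_lit 2304, R14_330, R10_28, R14_48⟩]⟩]⟩,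
 ⟨nat_lit 7, [⟨nat_lit 4, [⟨nat_lit 7, nat_lit 10416, nat_lit 4752, nat_lit 480, nat_lit 384, nat_lit 960, R4_10, R11_8, R4_20⟩]⟩, ⟨nat_lit 6, [⟨nat_lit 7, nat_lit 10464, nat_lit 4800, nat_lit 1920, nat_lit 432, nat_lit 288, R5_40, R11_9, R5_6⟩]⟩]⟩]], [], [[⟨nat_lit 0, [⟨nat_lit 3, [⟨nat_lit 3, nat_lit 3120, nat_lit 1008, nat_lit 6768, nat_lit 4320, nat_lit 672, R4_141, R3_90, R4_14⟩]⟩, ⟨nat_lit 7, [⟨nat_lit 3, nat_lit 3264, nat_lit 1584, nat_lit 6576, nat_lit 12336, nat_lit 3600, R7_137, R3_257, R7_75⟩]⟩]⟩,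
 ⟨nat_lit 3, [⟨nat_lit 4, [⟨nat_lit 7, nat_lit 3216, nat_lit 3360, nat_lit 48, nat_lit 96, nat_lit 3600, R7_1, R12_2, R6_75⟩]⟩, ⟨nat_lit 7, [⟨nat_lit 7, nat_lit 3360, nat_lit 3648, nat_lit 15888, nat_lit 144, nat_lit 3552, R14_331, R12_3, R4_74⟩]⟩]⟩], [⟨nat_lit 0, [⟨nat_lit 3, [⟨nat_lit 3, nat_lit 7296, nat_lit 0, nat_lit 6816, nat_lit 4512, nat_lit 1584, R4_142, R3_94, R5_33⟩]⟩]⟩]]]]
noncomputable def N0645 : T3 (List N0) := [[], [], [], [], [[], [], [], [], [], [[], [⟨nat_lit 4, [⟨nat_lit 4, [⟨nat_lit 4, nat_lit 4848, nat_lit 1008, nat_lit 8544, nat_lit 10944, nat_lit 2976, R6_178, R6_228, R7_62⟩]⟩]⟩]]], [], [[], [], [], [], [[], [], [], [], [], [⟨nat_lit 0, [⟨nat_lit 3, [⟨nat_lit 3, nat_lit 1632, nat_lit 1104, nat_lit 4512, nat_lit 4128, nat_lit 13152, R5_94, R6_86, R10_274⟩]⟩]⟩,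
 ⟨nat_lit 2, [⟨nat_lit 2, [⟨nat_lit 0, nat_lit 1728, nat_lit 1344, nat_lit 13152, nat_lit 4128, nat_lit 4512, R10_274, R6_86, R5_94⟩, ⟨nat_lit 2, nat_lit 1776, nat_lit 1536, nat_lit 13200, nat_lit 4272, nat_lit 17376, R10_275, R4_89, R11_362⟩]⟩]⟩,
 ⟨nat_lit 3, [⟨nat_lit 3, [⟨nat_lit 3, nat_lit 2064, nat_lit 1152, nat_lit 17376, nat_lit 4272, nat_lit 13200, R11_362, R4_89, R10_275⟩]⟩]⟩,
 ⟨nat_lit 4, [⟨nat_lit 6, [⟨nat_lit 6, nat_lit 1104, nat_lit 1632, nat_lit 4512, nat_lit 4128, nat_lit 13152, R5_94, R6_86, R10_274⟩]⟩]⟩,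
 ⟨nat_lit 6, [⟨nat_lit 6, [⟨nat_lit 6, nat_lit 1152, nat_lit 2064, nat_lit 17376, nat_lit 4272, nat_lit 13200, R11_362, R4_89, R10_275⟩]⟩]⟩,
 ⟨nat_lit 7, [⟨nat_lit 7, [⟨nat_lit 4, nat_lit 1344, nat_lit 1728, nat_lit 13152, nat_lit 4128, nat_lit 4512, R10_274, R6_86, R5_94⟩, ⟨nat_lit 7, nat_lit 1536, nat_lit 1776, nat_lit 13200, nat_lit 4272, nat_lit 17376, R10_275, R4_89, R11_362⟩]⟩]⟩]]], [[], [], [], [], [[⟨nat_lit 7, [⟨nat_lit 5, [⟨nat_lit 4, nat_lit 2112, nat_lit 144, nat_lit 14352, nat_lit 816, nat_lit 13296, R10_299, R6_17, R7_277⟩]⟩]⟩], [⟨nat_lit 7, [⟨nat_lit 5, [⟨nat_lit 4, nat_lit 2304, nat_lit 1200, nat_lit 15648, nat_lit 3024, nat_lit 192, R10_326, R6_63, R14_4⟩, ⟨nat_lit 6, nat_lit 2400, nat_lit 1392, nat_lit 16512, nat_lit 3984, nat_lit 768, R10_344, R8_83, R12_16⟩, ⟨nat_lit 7, nat_lit 2544, nat_lit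 1296, nat_lit 17424, nat_lit 2688, nat_lit 12864, R10_363, R4_56, R12_268⟩]⟩]⟩]], [[⟨nat_lit 7, [⟨nat_lit 5, [⟨nat_lit 4, nat_lit 7584, nat_lit 13008, nat_lit 14448, nat_lit 10464, nat_lit 16080, R10_301, R8_218, R7_335⟩]⟩]⟩], [⟨nat_lit 7, [⟨nat_lit 5, [⟨nat_lit 4, nat_lit 7728, nat_lit 528, nat_lit 15744, nat_lit 11616, nat_lit 1248, R10_328, R8_242, R14_26⟩, ⟨nat_lit 6, nat_lit 7824, nat_lit 720, nat_lit 16608, nat_lit 3168, nat_lit 1248, R10_346, R9_66, R12_26⟩, ⟨nat_lit 7, nat_lit 7968, nat_lit 624, nat_lit 17472, nat_lit 3072, nat_lit 15744, R10_364, R5_64, R12_328⟩]⟩]⟩]], [], [[⟨nat_lit 7, [⟨nat_lit 5, [⟨nat_lit 4, nat_lit 11424, nat_lit 13488, nat_lit 14400, nat_lit 11520, nat_lit 14640, R10_300, R4_240, R7_305⟩]⟩]⟩], [⟨nat_lit 7, [⟨nat_lit 5, [⟨nat_lit 4, nat_lit 11616, nat_lit 14976, nat_lit 15696,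 nat_lit 11952, nat_lit 384, R10_327, R4_249, R14_8⟩, ⟨nat_lit 6, nat_lit 11712, nat_lit 15120, nat_lit 16560, nat_lit 13728, nat_lit 1056, R10_345, R5_286, R12_22⟩]⟩]⟩]]]]
noncomputable def N0743 : T3 (List N0) := [[], [], [], [], [], [], [], [[], [], [], [], [[⟨nat_lit 7, [⟨nat_lit 6, [⟨nat_lit 4, nat_lit 3168, nat_lit 912, nat_lit 96, nat_lit 48, nat_lit 12096, R11_2, R6_1, R4_252⟩]⟩]⟩], [], [], [⟨nat_lit 0, [⟨nat_lit 7, [⟨nat_lit 3, nat_lit 2352, nat_lit 3456, nat_lit 1296, nat_lit 3696, nat_lit 2784, R2_27, R6_77, R12_58⟩]⟩]⟩,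
 ⟨nat_lit 2, [⟨nat_lit 3, [⟨nat_lit 2, nat_lit 1392, nat_lit 4416, nat_lit 1440, nat_lit 528, nat_lit 4752, R11_30, R4_11, R11_99⟩]⟩]⟩,
 ⟨nat_lit 3, [⟨nat_lit 4, [⟨nat_lit 3, nat_lit 3024, nat_lit 3936, nat_lit 5808, nat_lit 3696, nat_lit 5232, R2_121, R4_77, R2_109⟩]⟩, ⟨nat_lit 7, [⟨nat_lit 3, nat_lit 3120, nat_lit 3984, nat_lit 576, nat_lit 3744, nat_lit 2976, R12_12, R4_78, R12_62⟩]⟩]⟩,
 ⟨nat_lit 4, [⟨nat_lit 2, [⟨nat_lit 6, nat_lit 3456, nat_lit 2352, nat_lit 1296, nat_lit 3696, nat_lit 2784, R2_27, R6_77, R12_58⟩]⟩]⟩,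
 ⟨nat_lit 6, [⟨nat_lit 0, [⟨nat_lit 6, nat_lit 3936, nat_lit 3024, nat_lit 5808, nat_lit 3696, nat_lit 5232, R2_121, R4_77, R2_109⟩]⟩, ⟨nat_lit 2, [⟨nat_lit 6, nat_lit 3984, nat_lit 3120, nat_lit 576, nat_lit 3744, nat_lit 2976, R12_12, R4_78, R12_62⟩]⟩]⟩,
 ⟨nat_lit 7, [⟨nat_lit 6, [⟨nat_lit 7, nat_lit 4416, nat_lit 1392, nat_lit 1440, nat_lit 528, nat_lit 4752, R11_30, R4_11, R11_99⟩]⟩]⟩]], [[⟨nat_lit 4, [⟨nat_lit 2, [⟨nat_lit 4, nat_lit 8784, nat_lit 9600, nat_lit 7440, nat_lit 12816, nat_lit 15552, R2_155, R6_267, R7_324⟩, ⟨nat_lit 6, nat_lit 9312, nat_lit 9696, nat_lit 8208, nat_lit 3264, nat_lit 3120, R2_171, R13_68, R14_65⟩]⟩]⟩,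
 ⟨nat_lit 6, [⟨nat_lit 0, [⟨nat_lit 2, nat_lit 8208, nat_lit 9504, nat_lit 2016, nat_lit 2016, nat_lit 8208, R2_42, R2_42, R4_171⟩, ⟨nat_lit 6, nat_lit 9792, nat_lit 9456, nat_lit 240, nat_lit 13632, nat_lit 8208, R2_5, R3_284, R7_171⟩]⟩, ⟨nat_lit 2, [⟨nat_lit 6, nat_lit 9840, nat_lit 9792, nat_lit 6912, nat_lit 13968, nat_lit 3216, R12_144, R3_291, R14_67⟩]⟩]⟩,
 ⟨nat_lit 7, [⟨nat_lit 6, [⟨nat_lit 4, nat_lit 9072, nat_lit 9360, nat_lit 10464, nat_lit 14112, nat_lit 14304, R11_218, R8_294, R4_298⟩, ⟨nat_lit 7, nat_lit 10656, nat_lit 9408, nat_lit 10752, nat_lit 2064, nat_lit 17184, R11_224, R5_43, R5_358⟩]⟩]⟩], [], [], [⟨nat_lit 7, [⟨nat_lit 6, [⟨nat_lit 7, nat_lit 10704, nat_lit 624, nat_lit 12720, nat_lit 2112, nat_lit 4800, R11_265, R5_44, R11_100⟩]⟩]⟩]], [], [[⟨nat_lit 7, [⟨nat_lit 6, [⟨nat_lit 4, nat_lit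 11616, nat_lit 11616, nat_lit 7584, nat_lit 13344, nat_lit 13344, R11_158, R4_278, R4_278⟩]⟩]⟩]]]]
noncomputable def N0751 : T3 (List N0) := [[], [], [], [], [], [], [], [[], [], [], [], [], [[⟨nat_lit 7, [⟨nat_lit 6, [⟨nat_lit 7, nat_lit 6192, nat_lit 6720, nat_lit 10848, nat_lit 2400, nat_lit 2736, R11_226, R11_50, R9_57⟩]⟩]⟩], [⟨nat_lit 2, [⟨nat_lit 3, [⟨nat_lit 0, nat_lit 7008, nat_lit 6768, nat_lit 13488, nat_lit 11952, nat_lit 11952, R11_281, R5_249, R5_249⟩]⟩]⟩,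
 ⟨nat_lit 7, [⟨nat_lit 6, [⟨nat_lit 4, nat_lit 6768, nat_lit 7008, nat_lit 13488, nat_lit 11952, nat_lit 11952, R11_281, R5_249, R5_249⟩]⟩]⟩], [], [⟨nat_lit 3, [⟨nat_lit 7, [⟨nat_lit 3, nat_lit 7680, nat_lit 6672, nat_lit 8592, nat_lit 1872, nat_lit 1728, R12_179, R10_39, R12_36⟩]⟩]⟩]], [], [[], [⟨nat_lit 3, [⟨nat_lit 7, [⟨nat_lit 7, nat_lit 10752, nat_lit 6672, nat_lit 8304, nat_lit 1728, nat_lit 1872, R12_173, R12_36, R10_39⟩]⟩]⟩]]]]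
noncomputable def N1044 : T3 (List N0) := [[[], [], [], [], [[], [], [], [], [⟨nat_lit 0, [⟨nat_lit 2, [⟨nat_lit 3, nat_lit 4512, nat_lit 14496, nat_lit 4368, nat_lit 4368, nat_lit 15120, R6_91, R6_91, R8_315⟩]⟩]⟩,
 ⟨nat_lit 2, [⟨nat_lit 2, [⟨nat_lit 0, nat_lit 5328, nat_lit 15840, nat_lit 4512, nat_lit 8208, nat_lit 14400, R4_94, R6_171, R6_300⟩, ⟨nat_lit 2, nat_lit 5472, nat_lit 16320, nat_lit 4560, nat_lit 8592, nat_lit 14064, R4_95, R4_179, R4_293⟩, ⟨nat_lit 3, nat_lit 5664, nat_lit 16080, nat_lit 4608, nat_lit 4464, nat_lit 15216, R4_96, R8_93, R8_317⟩]⟩, ⟨nat_lit 6, [⟨nat_lit 2, nat_lit 12192, nat_lit 11136, nat_lit 4704, nat_lit 8640, nat_lit 15504, R7_98, R4_180, R7_323⟩]⟩]⟩,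
 ⟨nat_lit 3, [⟨nat_lit 0, [⟨nat_lit 3, nat_lit 2064, nat_lit 11904, nat_lit 8208, nat_lit 4512, nat_lit 14400, R6_171, R4_94, R6_300⟩]⟩, ⟨nat_lit 2, [⟨nat_lit 3, nat_lit 6816, nat_lit 15264, nat_lit 4464, nat_lit 4608, nat_lit 15168, R8_93, R4_96, R8_316⟩]⟩, ⟨nat_lit 3, [⟨nat_lit 3, nat_lit 9792, nat_lit 12912, nat_lit 8592, nat_lit 4560, nat_lit 14064, R4_179, R4_95, R4_293⟩, ⟨nat_lit 7, nat_lit 10032, nat_lit 12720, nat_lit 8640, nat_lit 4704, nat_lit 15456, R4_180, R7_98, R7_322⟩]⟩]⟩,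
 ⟨nat_lit 4, [⟨nat_lit 7, [⟨nat_lit 6, nat_lit 14496, nat_lit 4512, nat_lit 4368, nat_lit 4368, nat_lit 15120, R6_91, R6_91, R8_315⟩]⟩]⟩,
 ⟨nat_lit 6, [⟨nat_lit 4, [⟨nat_lit 6, nat_lit 11904, nat_lit 2064, nat_lit 8208, nat_lit 4512, nat_lit 14400, R6_171, R4_94, R6_300⟩]⟩, ⟨nat_lit 6, [⟨nat_lit 2, nat_lit 12720, nat_lit 10032, nat_lit 8640, nat_lit 4704, nat_lit 15456, R4_180, R7_98, R7_322⟩, ⟨nat_lit 6, nat_lit 12912, nat_lit 9792, nat_lit 8592, nat_lit 4560, nat_lit 14064, R4_179, R4_95, R4_293⟩]⟩, ⟨nat_lit 7, [⟨nat_lit 6, nat_lit 15264, nat_lit 6816, nat_lit 4464, nat_lit 4608, nat_lit 15168, R8_93, R4_96, R8_316⟩]⟩]⟩,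
 ⟨nat_lit 7, [⟨nat_lit 3, [⟨nat_lit 7, nat_lit 11136, nat_lit 12192, nat_lit 4704, nat_lit 8640, nat_lit 15504, R7_98, R4_180, R7_323⟩]⟩, ⟨nat_lit 7, [⟨nat_lit 4, nat_lit 15840, nat_lit 5328, nat_lit 4512, nat_lit 8208, nat_lit 14400, R4_94, R6_171, R6_300⟩, ⟨nat_lit 6, nat_lit 16080, nat_lit 5664, nat_lit 4608, nat_lit 4464, nat_lit 15216, R4_96, R8_93, R8_317⟩, ⟨nat_lit 7, nat_lit 16320, nat_lit 5472, nat_lit 4560, nat_lit 8592, nat_lit 14064, R4_95, R4_179, R4_293⟩]⟩]⟩], [], [], [⟨nat_lit 0, [⟨nat_lit 2, [⟨nat_lit 3, nat_lit 4656, nat_lit 2496, nat_lit 4416, nat_lit 4800, nat_lit 912, R6_92, R6_100, R5_19⟩]⟩]⟩,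
 ⟨nat_lit 2, [⟨nat_lit 2, [⟨nat_lit 3, nat_lit 5808, nat_lit 4224, nat_lit 4656, nat_lit 4704, nat_lit 1200, R4_97, R8_98, R5_25⟩]⟩]⟩,
 ⟨nat_lit 3, [⟨nat_lit 0, [⟨nat_lit 3, nat_lit 2208, nat_lit 2688, nat_lit 8496, nat_lit 5136, nat_lit 96, R6_177, R4_107, R4_2⟩, ⟨nat_lit 7, nat_lit 2352, nat_lit 2736, nat_lit 8544, nat_lit 4848, nat_lit 192, R6_178, R7_101, R7_4⟩]⟩, ⟨nat_lit 2, [⟨nat_lit 3, nat_lit 6960, nat_lit 3408, nat_lit 4512, nat_lit 5184, nat_lit 1488, R8_94, R4_108, R5_31⟩]⟩, ⟨nat_lit 3, [⟨nat_lit 7, nat_lit 10080, nat_lit 3072, nat_lit 9216, nat_lit 4896, nat_lit 18480, R4_192, R7_102, R14_385⟩]⟩]⟩,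
 ⟨nat_lit 4, [⟨nat_lit 7, [⟨nat_lit 6, nat_lit 14592, nat_lit 0, nat_lit 4800, nat_lit 4416, nat_lit 912, R6_100, R6_92, R5_19⟩]⟩]⟩,
 ⟨nat_lit 6, [⟨nat_lit 7, [⟨nat_lit 6, nat_lit 15360, nat_lit 1872, nat_lit 4704, nat_lit 4656, nat_lit 1200, R8_98, R4_97, R5_25⟩]⟩]⟩,
 ⟨nat_lit 7, [⟨nat_lit 3, [⟨nat_lit 4, nat_lit 10944, nat_lit 1008, nat_lit 4848, nat_lit 8544, nat_lit 192, R7_101, R6_178, R7_4⟩, ⟨nat_lit 7, nat_lit 11232, nat_lit 1056, nat_lit 4896, nat_lit 9216, nat_lit 18432, R7_102, R4_192, R14_384⟩]⟩, ⟨nat_lit 7, [⟨nat_lit 4, nat_lit 15936, nat_lit 528, nat_lit 5136, nat_lit 8496, nat_lit 96, R4_107, R6_177, R4_2⟩, ⟨nat_lit 6, nat_lit 16176, nat_lit 576, nat_lit 5184, nat_lit 4512, nat_lit 1488, R4_108, R8_94, R5_31⟩]⟩]⟩]], [[], [], [], [], [⟨nat_lit 4, [⟨nat_lit 7, [⟨nat_lit 4, nat_lit 14400, nat_lit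 4512, nat_lit 5328, nat_lit 528, nat_lit 15840, R6_111, R6_11, R6_330⟩, ⟨nat_lit 6, nat_lit 14544, nat_lit 4752, nat_lit 5376, nat_lit 4464, nat_lit 15264, R6_112, R13_93, R8_318⟩]⟩]⟩,
 ⟨nat_lit 6, [⟨nat_lit 4, [⟨nat_lit 6, nat_lit 11952, nat_lit 1872, nat_lit 8256, nat_lit 0, nat_lit 14448, R6_172, R3_0, R6_301⟩]⟩, ⟨nat_lit 6, [⟨nat_lit 2, nat_lit 12768, nat_lit 10992, nat_lit 8736, nat_lit 3120, nat_lit 15648, R4_182, R2_65, R7_326⟩, ⟨nat_lit 6, nat_lit 12960, nat_lit 10800, nat_lit 8688, nat_lit 144, nat_lit 14112, R4_181, R3_3, R4_294⟩]⟩, ⟨nat_lit 7, [⟨nat_lit 6, nat_lit 15312, nat_lit 7392, nat_lit 5136, nat_lit 288, nat_lit 15312, R8_107, R3_6, R8_319⟩]⟩]⟩,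
 ⟨nat_lit 7, [⟨nat_lit 3, [⟨nat_lit 7, nat_lit 11184, nat_lit 12384, nat_lit 5520, nat_lit 4416, nat_lit 16272, R7_115, R5_92, R7_339⟩]⟩, ⟨nat_lit 7, [⟨nat_lit 4, nat_lit 15888, nat_lit 5616, nat_lit 5616, nat_lit 384, nat_lit 15888, R4_117, R8_8, R6_331⟩, ⟨nat_lit 6, nat_lit 16128, nat_lit 6048, nat_lit 5712, nat_lit 3696, nat_lit 15360, R4_119, R9_77, R8_320⟩, ⟨nat_lit 7, nat_lit 16368, nat_lit 5808, nat_lit 5664, nat_lit 4368, nat_lit 14928, R4_118, R5_91, R4_311⟩]⟩]⟩], [], [], [⟨nat_lit 4, [⟨nat_lit 7, [⟨nat_lit 4, nat_lit 14448, nat_lit 0, nat_lit 5952, nat_lit 624, nat_lit 1872, R6_124, R6_13, R4_39⟩, ⟨nat_lit 6, nat_lit 14640, nat_lit 48, nat_lit 6000, nat_lit 4512, nat_lit 1056, R6_125, R13_94, R5_22⟩]⟩]⟩,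
 ⟨nat_lit 6, [⟨nat_lit 7, [⟨nat_lit 6, nat_lit 15408, nat_lit 2256, nat_lit 5472, nat_lit 384, nat_lit 1344, R8_114, R3_8, R5_28⟩]⟩]⟩,
 ⟨nat_lit 7, [⟨nat_lit 3, [⟨nat_lit 4, nat_lit 10992, nat_lit 1200, nat_lit 5712, nat_lit 1152, nat_lit 2256, R7_119, R8_24, R7_47⟩, ⟨nat_lit 7, nat_lit 11280, nat_lit 1248, nat_lit 5760, nat_lit 4464, nat_lit 18576, R7_120, R5_93, R14_387⟩]⟩, ⟨nat_lit 7, [⟨nat_lit 4, nat_lit 15984, nat_lit 720, nat_lit 6288, nat_lit 768, nat_lit 2400, R4_131, R8_16, R4_50⟩, ⟨nat_lit 6, nat_lit 16224, nat_lit 768, nat_lit 6336, nat_lit 3744, nat_lit 1680, R4_132, R9_78, R5_35⟩]⟩]⟩]], [[], [], [], [], [⟨nat_lit 0, [⟨nat_lit 2, [⟨nat_lit 0, nat_lit 4368, nat_lit 15120, nat_lit 4512, nat_lit 11712, nat_lit 14496, R6_94, R6_244, R6_302⟩, ⟨nat_lit 3, nat_lit 4560, nat_lit 15696, nat_lit 4560, nat_lit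 12288, nat_lit 15696, R6_95, R8_256, R8_327⟩]⟩]⟩,
 ⟨nat_lit 2, [⟨nat_lit 2, [⟨nat_lit 0, nat_lit 5376, nat_lit 15264, nat_lit 4752, nat_lit 10416, nat_lit 14544, R4_99, R13_217, R6_303⟩, ⟨nat_lit 2, nat_lit 5520, nat_lit 16464, nat_lit 4800, nat_lit 11376, nat_lit 14160, R4_100, R3_237, R4_295⟩, ⟨nat_lit 3, nat_lit 5712, nat_lit 15984, nat_lit 4848, nat_lit 7968, nat_lit 15792, R4_101, R9_166, R8_329⟩]⟩, ⟨nat_lit 6, [⟨nat_lit 2, nat_lit 12240, nat_lit 10416, nat_lit 4752, nat_lit 11040, nat_lit 15600, R7_99, R3_230, R7_325⟩]⟩]⟩,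
 ⟨nat_lit 3, [⟨nat_lit 0, [⟨nat_lit 3, nat_lit 2112, nat_lit 12144, nat_lit 8352, nat_lit 7920, nat_lit 14688, R6_174, R5_165, R6_306⟩]⟩, ⟨nat_lit 2, [⟨nat_lit 3, nat_lit 6864, nat_lit 15840, nat_lit 4560, nat_lit 7968, nat_lit 15744, R8_95, R5_166, R8_328⟩]⟩, ⟨nat_lit 3, [⟨nat_lit 3, nat_lit 9840, nat_lit 14064, nat_lit 8976, nat_lit 8016, nat_lit 14256, R4_187, R5_167, R4_297⟩]⟩]⟩,
 ⟨nat_lit 6, [⟨nat_lit 6, [⟨nat_lit 2, nat_lit 12816, nat_lit 10560, nat_lit 8784, nat_lit 7440, nat_lit 15552, R4_183, R2_155, R7_324⟩]⟩]⟩], [], [⟨nat_lit 0, [⟨nat_lit 2, [⟨nat_lit 0, nat_lit 4416, nat_lit 912, nat_lit 4656, nat_lit 11760, nat_lit 19776, R6_97, R6_245, R13_412⟩, ⟨nat_lit 1, nat_lit 4464, nat_lit 1008, nat_lit 4752, nat_lit 12144, nat_lit 16032, R6_99, R4_253, R3_334⟩, ⟨nat_lit 3, nat_lit 4608, nat_lit 960, nat_lit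 4704, nat_lit 12384, nat_lit 15984, R6_98, R8_258, R9_333⟩]⟩]⟩,
 ⟨nat_lit 2, [⟨nat_lit 2, [⟨nat_lit 0, nat_lit 5424, nat_lit 3264, nat_lit 4944, nat_lit 10512, nat_lit 19824, R4_103, R13_219, R13_413⟩, ⟨nat_lit 1, nat_lit 5616, nat_lit 3360, nat_lit 5088, nat_lit 8544, nat_lit 16080, R4_106, R3_178, R3_335⟩, ⟨nat_lit 2, nat_lit 5568, nat_lit 3408, nat_lit 4992, nat_lit 11424, nat_lit 2928, R4_104, R3_238, R3_61⟩, ⟨nat_lit 3, nat_lit 5760, nat_lit 3312, nat_lit 5040, nat_lit 8064, nat_lit 16032, R4_105, R9_168, R9_334⟩]⟩, ⟨nat_lit 6, [⟨nat_lit 2, nat_lit 12288, nat_lit 2544, nat_lit 4800, nat_lit 11088, nat_lit 14400, R7_100, R3_231, R2_300⟩]⟩]⟩,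
 ⟨nat_lit 3, [⟨nat_lit 0, [⟨nat_lit 3, nat_lit 2160, nat_lit 1776, nat_lit 9600, nat_lit 8208, nat_lit 240, R6_200, R5_171, R8_5⟩]⟩, ⟨nat_lit 2, [⟨nat_lit 3, nat_lit 6912, nat_lit 2208, nat_lit 4656, nat_lit 8256, nat_lit 16080, R8_97, R5_172, R9_335⟩]⟩, ⟨nat_lit 3, [⟨nat_lit 3, nat_lit 9888, nat_lit 1968, nat_lit 10560, nat_lit 8304, nat_lit 16848, R4_220, R5_173, R5_351⟩]⟩]⟩,
 ⟨nat_lit 6, [⟨nat_lit 6, [⟨nat_lit 2, nat_lit 12864, nat_lit 432, nat_lit 8832, nat_lit 7536, nat_lit 14448, R4_184, R2_157, R2_301⟩]⟩]⟩], [⟨nat_lit 0, [⟨nat_lit 2, [⟨nat_lit 3, nat_lit 4704, nat_lit 1824, nat_lit 4608, nat_lit 12336, nat_lit 960, R6_96, R8_257, R5_20⟩]⟩]⟩,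
 ⟨nat_lit 2, [⟨nat_lit 2, [⟨nat_lit 3, nat_lit 5856, nat_lit 3456, nat_lit 4896, nat_lit 8160, nat_lit 1248, R4_102, R9_170, R5_26⟩]⟩]⟩,
 ⟨nat_lit 3, [⟨nat_lit 0, [⟨nat_lit 3, nat_lit 2256, nat_lit 2112, nat_lit 9360, nat_lit 8496, nat_lit 144, R6_195, R5_177, R4_3⟩]⟩, ⟨nat_lit 2, [⟨nat_lit 3, nat_lit 7008, nat_lit 2496, nat_lit 4608, nat_lit 8544, nat_lit 1536, R8_96, R5_178, R5_32⟩]⟩]⟩]], [[], [], [], [⟨nat_lit 3, [⟨nat_lit 0, [⟨nat_lit 4, nat_lit 2304, nat_lit 1104, nat_lit 7440, nat_lit 3072, nat_lit 3456, R6_155, R7_64, R6_72⟩, ⟨nat_lit 7, nat_lit 2448, nat_lit 1152, nat_lit 7488, nat_lit 4416, nat_lit 3312, R6_156, R14_92, R4_69⟩]⟩, ⟨nat_lit 3, [⟨nat_lit 4, nat_lit 9984, nat_lit 1920, nat_lit 8160, nat_lit 3648, nat_lit 1488, R4_170, R7_76, R4_31⟩]⟩]⟩,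
 ⟨nat_lit 7, [⟨nat_lit 3, [⟨nat_lit 4, nat_lit 11088, nat_lit 96, nat_lit 7008, nat_lit 3600, nat_lit 3504, R7_146, R4_75, R4_73⟩]⟩]⟩], [], [], [], [⟨nat_lit 0, [⟨nat_lit 2, [⟨nat_lit 3, nat_lit 4752, nat_lit 16032, nat_lit 4464, nat_lit 12144, nat_lit 1008, R6_93, R4_253, R5_21⟩]⟩]⟩,
 ⟨nat_lit 2, [⟨nat_lit 2, [⟨nat_lit 3, nat_lit 5904, nat_lit 17376, nat_lit 4704, nat_lit 14304, nat_lit 1296, R4_98, R5_298, R5_27⟩]⟩]⟩,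
 ⟨nat_lit 3, [⟨nat_lit 0, [⟨nat_lit 7, nat_lit 2400, nat_lit 11568, nat_lit 9024, nat_lit 4320, nat_lit 240, R6_188, R14_90, R7_5⟩]⟩, ⟨nat_lit 3, [⟨nat_lit 4, nat_lit 9936, nat_lit 13584, nat_lit 9648, nat_lit 1680, nat_lit 1296, R4_201, R7_35, R7_27⟩, ⟨nat_lit 7, nat_lit 10128, nat_lit 13872, nat_lit 9696, nat_lit 4368, nat_lit 18528, R4_202, R14_91, R14_386⟩]⟩]⟩,
 ⟨nat_lit 7, [⟨nat_lit 3, [⟨nat_lit 4, nat_lit 11040, nat_lit 12336, nat_lit 6576, nat_lit 1584, nat_lit 768, R7_137, R4_33, R7_16⟩]⟩, ⟨nat_lit 7, [⟨nat_lit 4, nat_lit 16032, nat_lit 4320, nat_lit 6768, nat_lit 1008, nat_lit 672, R4_141, R4_21, R4_14⟩, ⟨nat_lit 6, nat_lit 16272, nat_lit 4512, nat_lit 6816, nat_lit 0, nat_lit 1584, R4_142, R5_0, R5_33⟩]⟩]⟩]]], [[[⟨nat_lit 0, [⟨nat_lit 0, [⟨nat_lit 5, nat_lit 528, nat_lit 4512, nat_lit 192, nat_lit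 11904, nat_lit 2064, R6_4, R6_248, R6_43⟩]⟩]⟩,
 ⟨nat_lit 1, [⟨nat_lit 0, [⟨nat_lit 5, nat_lit 1104, nat_lit 5136, nat_lit 96, nat_lit 15600, nat_lit 2208, R4_2, R13_325, R6_46⟩]⟩]⟩], [], [⟨nat_lit 0, [⟨nat_lit 0, [⟨nat_lit 5, nat_lit 624, nat_lit 0, nat_lit 336, nat_lit 11952, nat_lit 1872, R6_7, R6_249, R4_39⟩]⟩]⟩,
 ⟨nat_lit 1, [⟨nat_lit 0, [⟨nat_lit 5, nat_lit 1200, nat_lit 3744, nat_lit 240, nat_lit 15648, nat_lit 2064, R4_5, R13_326, R4_43⟩]⟩]⟩]], [], [[], [], [⟨nat_lit 0, [⟨nat_lit 0, [⟨nat_lit 1, nat_lit 144, nat_lit 48, nat_lit 816, nat_lit 13440, nat_lit 2112, R6_17, R7_280, R7_44⟩, ⟨nat_lit 5, nat_lit 672, nat_lit 0, nat_lit 432, nat_lit 12240, nat_lit 1920, R6_9, R4_255, R4_40⟩]⟩, ⟨nat_lit 2, [⟨nat_lit 1, nat_lit 4992, nat_lit 96, nat_lit 4944, nat_lit 13536, nat_lit 912, R13_103, R7_282, R2_19⟩]⟩]⟩,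
 ⟨nat_lit 1, [⟨nat_lit 0, [⟨nat_lit 1, nat_lit 1008, nat_lit 192, nat_lit 384, nat_lit 12144, nat_lit 2160, R4_8, R2_253, R7_45⟩, ⟨nat_lit 5, nat_lit 1248, nat_lit 144, nat_lit 336, nat_lit 3024, nat_lit 2112, R4_7, R3_63, R4_44⟩]⟩, ⟨nat_lit 2, [⟨nat_lit 1, nat_lit 6720, nat_lit 240, nat_lit 3696, nat_lit 12240, nat_lit 1056, R3_77, R2_255, R2_22⟩]⟩]⟩,
 ⟨nat_lit 2, [⟨nat_lit 2, [⟨nat_lit 1, nat_lit 6336, nat_lit 288, nat_lit 576, nat_lit 11952, nat_lit 960, R3_12, R2_249, R2_20⟩]⟩]⟩], [], [], [], [⟨nat_lit 0, [⟨nat_lit 0, [⟨nat_lit 1, nat_lit 96, nat_lit 0, nat_lit 864, nat_lit 13488, nat_lit 3216, R6_18, R7_281, R4_67⟩]⟩, ⟨nat_lit 2, [⟨nat_lit 1, nat_lit 4944, nat_lit 48, nat_lit 4896, nat_lit 13584, nat_lit 15888, R13_102, R7_283, R3_331⟩]⟩]⟩,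
 ⟨nat_lit 1, [⟨nat_lit 0, [⟨nat_lit 1, nat_lit 960, nat_lit 96, nat_lit 432, nat_lit 12192, nat_lit 3264, R4_9, R2_254, R4_68⟩]⟩, ⟨nat_lit 2, [⟨nat_lit 1, nat_lit 6672, nat_lit 144, nat_lit 3648, nat_lit 12288, nat_lit 15984, R3_76, R2_256, R3_333⟩]⟩]⟩,
 ⟨nat_lit 2, [⟨nat_lit 2, [⟨nat_lit 1, nat_lit 6288, nat_lit 192, nat_lit 624, nat_lit 11904, nat_lit 15936, R3_13, R2_248, R3_332⟩]⟩]⟩]], [[⟨nat_lit 0, [⟨nat_lit 0, [⟨nat_lit 5, nat_lit 576, nat_lit 7920, nat_lit 240, nat_lit 12576, nat_lit 2112, R6_5, R8_262, R6_44⟩]⟩]⟩,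
 ⟨nat_lit 1, [⟨nat_lit 0, [⟨nat_lit 5, nat_lit 1152, nat_lit 8496, nat_lit 144, nat_lit 13488, nat_lit 2256, R4_3, R9_281, R6_47⟩]⟩]⟩,
 ⟨nat_lit 3, [⟨nat_lit 0, [⟨nat_lit 5, nat_lit 2832, nat_lit 8208, nat_lit 3168, nat_lit 1776, nat_lit 2160, R8_66, R5_37, R6_45⟩]⟩]⟩], [], [⟨nat_lit 0, [⟨nat_lit 0, [⟨nat_lit 5, nat_lit 720, nat_lit 0, nat_lit 384, nat_lit 12624, nat_lit 1968, R6_8, R8_263, R4_41⟩]⟩]⟩,
 ⟨nat_lit 1, [⟨nat_lit 0, [⟨nat_lit 5, nat_lit 1296, nat_lit 48, nat_lit 288, nat_lit 13536, nat_lit 2160, R4_6, R9_282, R4_45⟩]⟩]⟩,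
 ⟨nat_lit 3, [⟨nat_lit 0, [⟨nat_lit 5, nat_lit 2880, nat_lit 96, nat_lit 4320, nat_lit 1824, nat_lit 2016, R8_90, R5_38, R4_42⟩]⟩]⟩], [⟨nat_lit 0, [⟨nat_lit 0, [⟨nat_lit 4, nat_lit 480, nat_lit 0, nat_lit 0, nat_lit 11664, nat_lit 3408, R6_0, R6_243, R6_71⟩, ⟨nat_lit 5, nat_lit 768, nat_lit 48, nat_lit 288, nat_lit 12672, nat_lit 1488, R6_6, R8_264, R8_31⟩, ⟨nat_lit 7, nat_lit 912, nat_lit 96, nat_lit 48, nat_lit 12096, nat_lit 3168, R6_1, R4_252, R4_66⟩]⟩]⟩,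
 ⟨nat_lit 1, [⟨nat_lit 0, [⟨nat_lit 4, nat_lit 1056, nat_lit 144, nat_lit 0, nat_lit 3264, nat_lit 4272, R4_0, R8_68, R6_89⟩, ⟨nat_lit 5, nat_lit 1344, nat_lit 192, nat_lit 192, nat_lit 13584, nat_lit 1584, R4_4, R9_283, R8_33⟩, ⟨nat_lit 7, nat_lit 1392, nat_lit 240, nat_lit 48, nat_lit 14496, nat_lit 4368, R4_1, R5_302, R4_91⟩]⟩]⟩,
 ⟨nat_lit 3, [⟨nat_lit 0, [⟨nat_lit 4, nat_lit 2784, nat_lit 288, nat_lit 3264, nat_lit 0, nat_lit 3792, R8_68, R4_0, R6_79⟩, ⟨nat_lit 5, nat_lit 2928, nat_lit 336, nat_lit 3600, nat_lit 1872, nat_lit 1536, R8_75, R5_39, R8_32⟩]⟩, ⟨nat_lit 3, [⟨nat_lit 4, nat_lit 10416, nat_lit 384, nat_lit 4752, nat_lit 480, nat_lit 960, R5_99, R4_10, R4_20⟩, ⟨nat_lit 5, nat_lit 10464, nat_lit 432, nat_lit 4800, nat_lit 1920, nat_lit 288, R5_100, R5_40, R5_6⟩]⟩]⟩]], [[], [], [], [], [⟨nat_lit 0,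 [⟨nat_lit 0, [⟨nat_lit 3, nat_lit 192, nat_lit 4512, nat_lit 528, nat_lit 5328, nat_lit 15840, R6_11, R6_111, R6_330⟩]⟩, ⟨nat_lit 2, [⟨nat_lit 3, nat_lit 5040, nat_lit 4752, nat_lit 4464, nat_lit 5376, nat_lit 17568, R13_93, R6_112, R8_366⟩]⟩]⟩,
 ⟨nat_lit 2, [⟨nat_lit 2, [⟨nat_lit 0, nat_lit 5952, nat_lit 1872, nat_lit 0, nat_lit 8256, nat_lit 14448, R3_0, R6_172, R6_301⟩, ⟨nat_lit 2, nat_lit 6096, nat_lit 10800, nat_lit 144, nat_lit 8688, nat_lit 14112, R3_3, R4_181, R4_294⟩, ⟨nat_lit 3, nat_lit 6384, nat_lit 7392, nat_lit 288, nat_lit 5136, nat_lit 17664, R3_6, R8_107, R8_368⟩]⟩, ⟨nat_lit 6, [⟨nat_lit 2, nat_lit 12576, nat_lit 10992, nat_lit 3120, nat_lit 8736, nat_lit 15936, R2_65, R4_182, R7_332⟩]⟩]⟩,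
 ⟨nat_lit 3, [⟨nat_lit 0, [⟨nat_lit 3, nat_lit 2496, nat_lit 5616, nat_lit 384, nat_lit 5616, nat_lit 15888, R8_8, R4_117, R6_331⟩]⟩, ⟨nat_lit 2, [⟨nat_lit 3, nat_lit 7056, nat_lit 6048, nat_lit 3696, nat_lit 5712, nat_lit 17616, R9_77, R4_119, R8_367⟩]⟩, ⟨nat_lit 3, [⟨nat_lit 3, nat_lit 10176, nat_lit 5808, nat_lit 4368, nat_lit 5664, nat_lit 14928, R5_91, R4_118, R4_311⟩, ⟨nat_lit 7, nat_lit 10512, nat_lit 12384, nat_lit 4416, nat_lit 5520, nat_lit 17280, R5_92, R7_115, R7_360⟩]⟩]⟩], [], [], [⟨nat_lit 0, [⟨nat_lit 0, [⟨nat_lit 3, nat_lit 336, nat_lit 0, nat_lit 624, nat_lit 5952, nat_lit 1872, R6_13, R6_124, R4_39⟩]⟩, ⟨nat_lit 2, [⟨nat_lit 3, nat_lit 5184, nat_lit 48, nat_lit 4512, nat_lit 6000, nat_lit 1056, R13_94, R6_125, R5_22⟩]⟩]⟩,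
 ⟨nat_lit 2, [⟨nat_lit 2, [⟨nat_lit 3, nat_lit 6528, nat_lit 2256, nat_lit 384, nat_lit 5472, nat_lit 1344, R3_8, R8_114, R5_28⟩]⟩]⟩,
 ⟨nat_lit 3, [⟨nat_lit 0, [⟨nat_lit 3, nat_lit 2640, nat_lit 720, nat_lit 768, nat_lit 6288, nat_lit 2400, R8_16, R4_131, R4_50⟩, ⟨nat_lit 7, nat_lit 2976, nat_lit 1200, nat_lit 1152, nat_lit 5712, nat_lit 2256, R8_24, R7_119, R7_47⟩]⟩, ⟨nat_lit 2, [⟨nat_lit 3, nat_lit 7200, nat_lit 768, nat_lit 3744, nat_lit 6336, nat_lit 1680, R9_78, R4_132, R5_35⟩]⟩, ⟨nat_lit 3, [⟨nat_lit 7, nat_lit 10560, nat_lit 1248, nat_lit 4464, nat_lit 5760, nat_lit 18720, R5_93, R7_120, R14_390⟩]⟩]⟩]], [], [[], [], [], [], [⟨nat_lit 0, [⟨nat_lit 0, [⟨nat_lit 3, nat_lit 240, nat_lit 7920, nat_lit 576, nat_lit 12576, nat_lit 16416, R6_12, R8_262, R6_342⟩]⟩, ⟨nat_lit 2, [⟨nat_lit 0, nat_lit 4800, nat_lit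 912, nat_lit 4608, nat_lit 11808, nat_lit 14592, R13_96, R6_246, R6_304⟩, ⟨nat_lit 3, nat_lit 5088, nat_lit 9168, nat_lit 4656, nat_lit 12720, nat_lit 18288, R13_97, R8_265, R8_381⟩]⟩]⟩,
 ⟨nat_lit 2, [⟨nat_lit 2, [⟨nat_lit 0, nat_lit 6000, nat_lit 1056, nat_lit 48, nat_lit 10464, nat_lit 14640, R3_1, R13_218, R6_305⟩, ⟨nat_lit 2, nat_lit 6144, nat_lit 13104, nat_lit 192, nat_lit 11472, nat_lit 14208, R3_4, R3_239, R4_296⟩, ⟨nat_lit 3, nat_lit 6432, nat_lit 9408, nat_lit 336, nat_lit 8016, nat_lit 18384, R3_7, R9_167, R8_383⟩]⟩, ⟨nat_lit 6, [⟨nat_lit 2, nat_lit 12624, nat_lit 12816, nat_lit 3168, nat_lit 11136, nat_lit 15984, R2_66, R3_232, R7_333⟩]⟩]⟩,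
 ⟨nat_lit 3, [⟨nat_lit 0, [⟨nat_lit 3, nat_lit 2544, nat_lit 8064, nat_lit 432, nat_lit 8064, nat_lit 16464, R8_9, R5_168, R6_343⟩]⟩, ⟨nat_lit 2, [⟨nat_lit 3, nat_lit 7104, nat_lit 9312, nat_lit 3792, nat_lit 8112, nat_lit 18336, R9_79, R5_169, R8_382⟩]⟩, ⟨nat_lit 3, [⟨nat_lit 3, nat_lit 10224, nat_lit 8784, nat_lit 4656, nat_lit 8160, nat_lit 15168, R5_97, R5_170, R4_316⟩]⟩]⟩], [], [⟨nat_lit 0, [⟨nat_lit 0, [⟨nat_lit 0, nat_lit 0, nat_lit 0, nat_lit 480, nat_lit 11664, nat_lit 3408, R6_10, R6_243, R6_71⟩, ⟨nat_lit 1, nat_lit 48, nat_lit 96, nat_lit 912, nat_lit 12096, nat_lit 3168, R6_19, R4_252, R4_66⟩, ⟨nat_lit 3, nat_lit 288, nat_lit 48, nat_lit 768, nat_lit 12672, nat_lit 1488, R6_16, R8_264, R8_31⟩]⟩, ⟨nat_lit 2, [⟨nat_lit 0, nat_lit 4848, nat_lit 480, nat_lit 4752, nat_lit 11856, nat_lit 19872, R13_99,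 R6_247, R13_414⟩, ⟨nat_lit 1, nat_lit 4896, nat_lit 576, nat_lit 4848, nat_lit 12192, nat_lit 16128, R13_101, R4_254, R3_336⟩, ⟨nat_lit 3, nat_lit 5136, nat_lit 528, nat_lit 4800, nat_lit 12816, nat_lit 16128, R13_100, R8_267, R9_336⟩]⟩]⟩,
 ⟨nat_lit 2, [⟨nat_lit 2, [⟨nat_lit 0, nat_lit 6048, nat_lit 3264, nat_lit 96, nat_lit 10560, nat_lit 19920, R3_2, R13_220, R13_415⟩, ⟨nat_lit 1, nat_lit 6240, nat_lit 3360, nat_lit 672, nat_lit 8592, nat_lit 16176, R3_14, R3_179, R3_337⟩, ⟨nat_lit 2, nat_lit 6192, nat_lit 3408, nat_lit 240, nat_lit 11520, nat_lit 2976, R3_5, R3_240, R3_62⟩, ⟨nat_lit 3, nat_lit 6480, nat_lit 3312, nat_lit 528, nat_lit 8112, nat_lit 16176, R3_11, R9_169, R9_337⟩]⟩, ⟨nat_lit 6, [⟨nat_lit 2, nat_lit 12672, nat_lit 2544, nat_lit 3216, nat_lit 11184, nat_lit 14592, R2_67, R3_233, R2_304⟩]⟩]⟩,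
 ⟨nat_lit 3, [⟨nat_lit 0, [⟨nat_lit 3, nat_lit 2592, nat_lit 1776, nat_lit 2400, nat_lit 8352, nat_lit 2160, R8_50, R5_174, R8_45⟩]⟩, ⟨nat_lit 2, [⟨nat_lit 3, nat_lit 7152, nat_lit 2208, nat_lit 3888, nat_lit 8400, nat_lit 16224, R9_81, R5_175, R9_338⟩]⟩, ⟨nat_lit 3, [⟨nat_lit 3, nat_lit 10272, nat_lit 1968, nat_lit 4704, nat_lit 8448, nat_lit 16896, R5_98, R5_176, R5_352⟩]⟩]⟩], [⟨nat_lit 0, [⟨nat_lit 0, [⟨nat_lit 3, nat_lit 384, nat_lit 0, nat_lit 720, nat_lit 12624, nat_lit 1968, R6_15, R8_263, R4_41⟩]⟩, ⟨nat_lit 2, [⟨nat_lit 3, nat_lit 5232, nat_lit 144, nat_lit 4704, nat_lit 12768, nat_lit 1104, R13_98, R8_266, R5_23⟩]⟩]⟩,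
 ⟨nat_lit 2, [⟨nat_lit 2, [⟨nat_lit 3, nat_lit 6576, nat_lit 1920, nat_lit 480, nat_lit 8208, nat_lit 1392, R3_10, R9_171, R5_29⟩]⟩]⟩,
 ⟨nat_lit 3, [⟨nat_lit 0, [⟨nat_lit 3, nat_lit 2688, nat_lit 576, nat_lit 816, nat_lit 8592, nat_lit 2448, R8_17, R5_179, R4_51⟩]⟩, ⟨nat_lit 2, [⟨nat_lit 3, nat_lit 7248, nat_lit 960, nat_lit 3840, nat_lit 8640, nat_lit 1728, R9_80, R5_180, R5_36⟩]⟩]⟩]], [[], [], [], [⟨nat_lit 0, [⟨nat_lit 0, [⟨nat_lit 7, nat_lit 864, nat_lit 0, nat_lit 96, nat_lit 13488, nat_lit 3216, R6_2, R7_281, R4_67⟩]⟩]⟩,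
 ⟨nat_lit 3, [⟨nat_lit 0, [⟨nat_lit 4, nat_lit 2736, nat_lit 576, nat_lit 3312, nat_lit 3168, nat_lit 3840, R8_69, R7_66, R6_80⟩, ⟨nat_lit 7, nat_lit 3072, nat_lit 624, nat_lit 3408, nat_lit 4560, nat_lit 4080, R8_71, R14_95, R4_85⟩]⟩, ⟨nat_lit 3, [⟨nat_lit 4, nat_lit 10368, nat_lit 1392, nat_lit 4608, nat_lit 3696, nat_lit 1536, R5_96, R7_77, R4_32⟩]⟩]⟩], [], [], [], [⟨nat_lit 0, [⟨nat_lit 0, [⟨nat_lit 3, nat_lit 432, nat_lit 0, nat_lit 672, nat_lit 12240, nat_lit 1920, R6_14, R4_255, R4_40⟩, ⟨nat_lit 7, nat_lit 816, nat_lit 48, nat_lit 144, nat_lit 13440, nat_lit 2112, R6_3, R7_280, R7_44⟩]⟩, ⟨nat_lit 2, [⟨nat_lit 3, nat_lit 5280, nat_lit 336, nat_lit 4560, nat_lit 12288, nat_lit 1152, R13_95, R4_256, R5_24⟩]⟩]⟩,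
 ⟨nat_lit 2, [⟨nat_lit 2, [⟨nat_lit 3, nat_lit 6624, nat_lit 2448, nat_lit 432, nat_lit 14352, nat_lit 1440, R3_9, R5_299, R5_30⟩]⟩]⟩,
 ⟨nat_lit 3, [⟨nat_lit 0, [⟨nat_lit 7, nat_lit 3024, nat_lit 960, nat_lit 1200, nat_lit 4464, nat_lit 2304, R8_25, R14_93, R7_48⟩]⟩, ⟨nat_lit 3, [⟨nat_lit 4, nat_lit 10320, nat_lit 1296, nat_lit 4512, nat_lit 1728, nat_lit 1344, R5_94, R7_36, R7_28⟩, ⟨nat_lit 7, nat_lit 10608, nat_lit 1344, nat_lit 4560, nat_lit 4512, nat_lit 18768, R5_95, R14_94, R14_391⟩]⟩]⟩]]], [[], [], [], [], [[], [], [], [], [⟨nat_lit 2, [⟨nat_lit 6, [⟨nat_lit 2, nat_lit 12336, nat_lit 10560, nat_lit 7440, nat_lit 8784, nat_lit 15744, R2_155, R4_183, R7_328⟩]⟩]⟩,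
 ⟨nat_lit 4, [⟨nat_lit 4, [⟨nat_lit 6, nat_lit 11712, nat_lit 15120, nat_lit 11712, nat_lit 4512, nat_lit 14496, R6_244, R6_94, R6_302⟩]⟩, ⟨nat_lit 7, [⟨nat_lit 6, nat_lit 14832, nat_lit 15696, nat_lit 12288, nat_lit 4560, nat_lit 15408, R8_256, R6_95, R8_321⟩]⟩]⟩,
 ⟨nat_lit 6, [⟨nat_lit 4, [⟨nat_lit 6, nat_lit 12000, nat_lit 15264, nat_lit 10416, nat_lit 4752, nat_lit 14544, R13_217, R4_99, R6_303⟩]⟩, ⟨nat_lit 6, [⟨nat_lit 2, nat_lit 13008, nat_lit 10416, nat_lit 11040, nat_lit 4752, nat_lit 15696, R3_230, R7_99, R7_327⟩, ⟨nat_lit 6, nat_lit 13344, nat_lit 16464, nat_lit 11376, nat_lit 4800, nat_lit 14160, R3_237, R4_100, R4_295⟩]⟩, ⟨nat_lit 7, [⟨nat_lit 6, nat_lit 15456, nat_lit 15984, nat_lit 7968, nat_lit 4848, nat_lit 15456, R9_166, R4_101, R8_322⟩]⟩]⟩,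
 ⟨nat_lit 7, [⟨nat_lit 7, [⟨nat_lit 4, nat_lit 16416, nat_lit 12144, nat_lit 7920, nat_lit 8352, nat_lit 14688, R5_165, R6_174, R6_306⟩, ⟨nat_lit 6, nat_lit 16752, nat_lit 15840, nat_lit 7968, nat_lit 4560, nat_lit 15504, R5_166, R8_95, R8_323⟩, ⟨nat_lit 7, nat_lit 17088, nat_lit 14064, nat_lit 8016, nat_lit 8976, nat_lit 14256, R5_167, R4_187, R4_297⟩]⟩]⟩], [⟨nat_lit 2, [⟨nat_lit 6, [⟨nat_lit 2, nat_lit 12432, nat_lit 432, nat_lit 7536, nat_lit 8832, nat_lit 14448, R2_157, R4_184, R2_301⟩]⟩]⟩,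
 ⟨nat_lit 4, [⟨nat_lit 4, [⟨nat_lit 6, nat_lit 11808, nat_lit 912, nat_lit 11760, nat_lit 4656, nat_lit 19776, R6_245, R6_97, R13_412⟩]⟩, ⟨nat_lit 5, [⟨nat_lit 6, nat_lit 13584, nat_lit 1008, nat_lit 12144, nat_lit 4752, nat_lit 16032, R4_253, R6_99, R3_334⟩]⟩, ⟨nat_lit 7, [⟨nat_lit 6, nat_lit 14928, nat_lit 960, nat_lit 12384, nat_lit 4704, nat_lit 15984, R8_258, R6_98, R9_333⟩]⟩]⟩,
 ⟨nat_lit 6, [⟨nat_lit 4, [⟨nat_lit 6, nat_lit 12096, nat_lit 3264, nat_lit 10512, nat_lit 4944, nat_lit 19824, R13_219, R4_103, R13_413⟩]⟩, ⟨nat_lit 5, [⟨nat_lit 6, nat_lit 13872, nat_lit 3360, nat_lit 8544, nat_lit 5088, nat_lit 16080, R3_178, R4_106, R3_335⟩]⟩, ⟨nat_lit 6, [⟨nat_lit 2, nat_lit 13152, nat_lit 2544, nat_lit 11088, nat_lit 4800, nat_lit 14400, R3_231, R7_100, R2_300⟩, ⟨nat_lit 6, nat_lit 13440, nat_lit 3408, nat_lit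 11424, nat_lit 4992, nat_lit 2928, R3_238, R4_104, R3_61⟩]⟩, ⟨nat_lit 7, [⟨nat_lit 6, nat_lit 15552, nat_lit 3312, nat_lit 8064, nat_lit 5040, nat_lit 16032, R9_168, R4_105, R9_334⟩]⟩]⟩,
 ⟨nat_lit 7, [⟨nat_lit 7, [⟨nat_lit 4, nat_lit 16512, nat_lit 1776, nat_lit 8208, nat_lit 9600, nat_lit 240, R5_171, R6_200, R8_5⟩, ⟨nat_lit 6, nat_lit 16848, nat_lit 2208, nat_lit 8256, nat_lit 4656, nat_lit 16080, R5_172, R8_97, R9_335⟩, ⟨nat_lit 7, nat_lit 17184, nat_lit 1968, nat_lit 8304, nat_lit 10560, nat_lit 16848, R5_173, R4_220, R5_351⟩]⟩]⟩], [], [⟨nat_lit 4, [⟨nat_lit 7, [⟨nat_lit 6, nat_lit 15024, nat_lit 1824, nat_lit 12336, nat_lit 4608, nat_lit 960, R8_257, R6_96, R5_20⟩]⟩]⟩,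
 ⟨nat_lit 6, [⟨nat_lit 7, [⟨nat_lit 6, nat_lit 15648, nat_lit 3456, nat_lit 8160, nat_lit 4896, nat_lit 1248, R9_170, R4_102, R5_26⟩]⟩]⟩,
 ⟨nat_lit 7, [⟨nat_lit 7, [⟨nat_lit 4, nat_lit 16608, nat_lit 2112, nat_lit 8496, nat_lit 9360, nat_lit 144, R5_177, R6_195, R4_3⟩, ⟨nat_lit 6, nat_lit 16944, nat_lit 2496, nat_lit 8544, nat_lit 4608, nat_lit 1536, R5_178, R8_96, R5_32⟩]⟩]⟩]], [[], [], [], [], [⟨nat_lit 4, [⟨nat_lit 4, [⟨nat_lit 6, nat_lit 11760, nat_lit 912, nat_lit 11808, nat_lit 4608, nat_lit 14592, R6_246, R13_96, R6_304⟩]⟩, ⟨nat_lit 7, [⟨nat_lit 4, nat_lit 14688, nat_lit 7920, nat_lit 12576, nat_lit 576, nat_lit 16416, R8_262, R6_12, R6_342⟩, ⟨nat_lit 6, nat_lit 14880, nat_lit 9168, nat_lit 12720, nat_lit 4656, nat_lit 15552, R8_265, R13_97, R8_324⟩]⟩]⟩,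
 ⟨nat_lit 6, [⟨nat_lit 4, [⟨nat_lit 6, nat_lit 12048, nat_lit 1056, nat_lit 10464, nat_lit 48, nat_lit 14640, R13_218, R3_1, R6_305⟩]⟩, ⟨nat_lit 6, [⟨nat_lit 2, nat_lit 13056, nat_lit 12816, nat_lit 11136, nat_lit 3168, nat_lit 15888, R3_232, R2_66, R7_331⟩, ⟨nat_lit 6, nat_lit 13392, nat_lit 13104, nat_lit 11472, nat_lit 192, nat_lit 14208, R3_239, R3_4, R4_296⟩]⟩, ⟨nat_lit 7, [⟨nat_lit 6, nat_lit 15504, nat_lit 9408, nat_lit 8016, nat_lit 336, nat_lit 15600, R9_167, R3_7, R8_325⟩]⟩]⟩,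
 ⟨nat_lit 7, [⟨nat_lit 7, [⟨nat_lit 4, nat_lit 16464, nat_lit 8064, nat_lit 8064, nat_lit 432, nat_lit 16464, R5_168, R8_9, R6_343⟩, ⟨nat_lit 6, nat_lit 16800, nat_lit 9312, nat_lit 8112, nat_lit 3792, nat_lit 15648, R5_169, R9_79, R8_326⟩, ⟨nat_lit 7, nat_lit 17136, nat_lit 8784, nat_lit 8160, nat_lit 4656, nat_lit 15168, R5_170, R5_97, R4_316⟩]⟩]⟩], [⟨nat_lit 4, [⟨nat_lit 4, [⟨nat_lit 4, nat_lit 11664, nat_lit 0, nat_lit 11664, nat_lit 480, nat_lit 3408, R6_243, R6_10, R6_71⟩, ⟨nat_lit 6, nat_lit 11856, nat_lit 480, nat_lit 11856, nat_lit 4752, nat_lit 19872, R6_247, R13_99, R13_414⟩]⟩, ⟨nat_lit 5, [⟨nat_lit 4, nat_lit 13536, nat_lit 96, nat_lit 12096, nat_lit 912, nat_lit 3168, R4_252, R6_19, R4_66⟩, ⟨nat_lit 6, nat_lit 13632, nat_lit 576, nat_lit 12192, nat_lit 4848, nat_lit 16128, R4_254, R13_101, R3_336⟩]⟩,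 ⟨nat_lit 7, [⟨nat_lit 4, nat_lit 14736, nat_lit 48, nat_lit 12672, nat_lit 768, nat_lit 1488, R8_264, R6_16, R8_31⟩, ⟨nat_lit 6, nat_lit 14976, nat_lit 528, nat_lit 12816, nat_lit 4800, nat_lit 16128, R8_267, R13_100, R9_336⟩]⟩]⟩,
 ⟨nat_lit 6, [⟨nat_lit 4, [⟨nat_lit 6, nat_lit 12144, nat_lit 3264, nat_lit 10560, nat_lit 96, nat_lit 19920, R13_220, R3_2, R13_415⟩]⟩, ⟨nat_lit 5, [⟨nat_lit 6, nat_lit 13920, nat_lit 3360, nat_lit 8592, nat_lit 672, nat_lit 16176, R3_179, R3_14, R3_337⟩]⟩, ⟨nat_lit 6, [⟨nat_lit 2, nat_lit 13200, nat_lit 2544, nat_lit 11184, nat_lit 3216, nat_lit 14592, R3_233, R2_67, R2_304⟩, ⟨nat_lit 6, nat_lit 13488, nat_lit 3408, nat_lit 11520, nat_lit 240, nat_lit 2976, R3_240, R3_5, R3_62⟩]⟩, ⟨nat_lit 7, [⟨nat_lit 6, nat_lit 15600, nat_lit 3312, nat_lit 8112, nat_lit 528, nat_lit 16176, R9_169,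 R3_11, R9_337⟩]⟩]⟩,
 ⟨nat_lit 7, [⟨nat_lit 7, [⟨nat_lit 4, nat_lit 16560, nat_lit 1776, nat_lit 8352, nat_lit 2400, nat_lit 2160, R5_174, R8_50, R8_45⟩, ⟨nat_lit 6, nat_lit 16896, nat_lit 2208, nat_lit 8400, nat_lit 3888, nat_lit 16224, R5_175, R9_81, R9_338⟩, ⟨nat_lit 7, nat_lit 17232, nat_lit 1968, nat_lit 8448, nat_lit 4704, nat_lit 16896, R5_176, R5_98, R5_352⟩]⟩]⟩], [], [⟨nat_lit 4, [⟨nat_lit 7, [⟨nat_lit 4, nat_lit 14784, nat_lit 0, nat_lit 12624, nat_lit 720, nat_lit 1968, R8_263, R6_15, R4_41⟩, ⟨nat_lit 6, nat_lit 15072, nat_lit 144, nat_lit 12768, nat_lit 4704, nat_lit 1104, R8_266, R13_98, R5_23⟩]⟩]⟩,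
 ⟨nat_lit 6, [⟨nat_lit 7, [⟨nat_lit 6, nat_lit 15696, nat_lit 1920, nat_lit 8208, nat_lit 480, nat_lit 1392, R9_171, R3_10, R5_29⟩]⟩]⟩,
 ⟨nat_lit 7, [⟨nat_lit 7, [⟨nat_lit 4, nat_lit 16656, nat_lit 576, nat_lit 8592, nat_lit 816, nat_lit 2448, R5_179, R8_17, R4_51⟩, ⟨nat_lit 6, nat_lit 16992, nat_lit 960, nat_lit 8640, nat_lit 3840, nat_lit 1728, R5_180, R9_80, R5_36⟩]⟩]⟩]], [[], [], [], [], [⟨nat_lit 2, [⟨nat_lit 6, [⟨nat_lit 2, nat_lit 12384, nat_lit 10800, nat_lit 7488, nat_lit 11232, nat_lit 15840, R2_156, R3_234, R7_330⟩]⟩]⟩,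
 ⟨nat_lit 6, [⟨nat_lit 6, [⟨nat_lit 2, nat_lit 13104, nat_lit 10944, nat_lit 11232, nat_lit 7488, nat_lit 15792, R3_234, R2_156, R7_329⟩]⟩]⟩], [⟨nat_lit 2, [⟨nat_lit 6, [⟨nat_lit 2, nat_lit 12480, nat_lit 9312, nat_lit 7584, nat_lit 11328, nat_lit 14544, R2_158, R3_236, R2_303⟩]⟩]⟩,
 ⟨nat_lit 6, [⟨nat_lit 6, [⟨nat_lit 2, nat_lit 13248, nat_lit 9456, nat_lit 11280, nat_lit 7632, nat_lit 14496, R3_235, R2_159, R2_302⟩]⟩]⟩], [⟨nat_lit 2, [⟨nat_lit 6, [⟨nat_lit 2, nat_lit 12528, nat_lit 9456, nat_lit 7632, nat_lit 11280, nat_lit 14496, R2_159, R3_235, R2_302⟩]⟩]⟩,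
 ⟨nat_lit 6, [⟨nat_lit 6, [⟨nat_lit 2, nat_lit 13296, nat_lit 9312, nat_lit 11328, nat_lit 7584, nat_lit 14544, R3_236, R2_158, R2_303⟩]⟩]⟩]], [[], [], [], [], [], [], [], [⟨nat_lit 7, [⟨nat_lit 7, [⟨nat_lit 4, nat_lit 16704, nat_lit 11616, nat_lit 8688, nat_lit 1056, nat_lit 720, R5_181, R4_22, R4_15⟩, ⟨nat_lit 6, nat_lit 17040, nat_lit 14448, nat_lit 8736, nat_lit 48, nat_lit 1632, R5_182, R5_1, R5_34⟩]⟩]⟩]]], [[], [], [], [], [[], [], [], [⟨nat_lit 3, [⟨nat_lit 0, [⟨nat_lit 7, nat_lit 3312, nat_lit 96, nat_lit 3600, nat_lit 7008, nat_lit 3504, R4_75, R7_146, R4_73⟩]⟩]⟩,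
 ⟨nat_lit 7, [⟨nat_lit 0, [⟨nat_lit 4, nat_lit 3936, nat_lit 1104, nat_lit 3072, nat_lit 7440, nat_lit 1488, R7_64, R6_155, R6_31⟩, ⟨nat_lit 7, nat_lit 4176, nat_lit 1920, nat_lit 3648, nat_lit 8160, nat_lit 1488, R7_76, R4_170, R4_31⟩]⟩, ⟨nat_lit 3, [⟨nat_lit 4, nat_lit 11424, nat_lit 1152, nat_lit 4416, nat_lit 7488, nat_lit 3312, R14_92, R6_156, R4_69⟩]⟩]⟩], [], [], [], [⟨nat_lit 3, [⟨nat_lit 0, [⟨nat_lit 3, nat_lit 3120, nat_lit 4320, nat_lit 1008, nat_lit 6768, nat_lit 672, R4_21, R4_141, R4_14⟩, ⟨nat_lit 7, nat_lit 3264, nat_lit 12336, nat_lit 1584, nat_lit 6576, nat_lit 768, R4_33, R7_137, R7_16⟩]⟩, ⟨nat_lit 2, [⟨nat_lit 3, nat_lit 7296, nat_lit 4512, nat_lit 0, nat_lit 6816, nat_lit 1584, R5_0, R4_142, R5_33⟩]⟩]⟩,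
 ⟨nat_lit 4, [⟨nat_lit 7, [⟨nat_lit 6, nat_lit 15168, nat_lit 16032, nat_lit 12144, nat_lit 4464, nat_lit 1008, R4_253, R6_93, R5_21⟩]⟩]⟩,
 ⟨nat_lit 6, [⟨nat_lit 7, [⟨nat_lit 6, nat_lit 15744, nat_lit 17376, nat_lit 14304, nat_lit 4704, nat_lit 1296, R5_298, R4_98, R5_27⟩]⟩]⟩,
 ⟨nat_lit 7, [⟨nat_lit 0, [⟨nat_lit 7, nat_lit 4080, nat_lit 13584, nat_lit 1680, nat_lit 9648, nat_lit 1296, R7_35, R4_201, R7_27⟩]⟩, ⟨nat_lit 3, [⟨nat_lit 4, nat_lit 11328, nat_lit 11568, nat_lit 4320, nat_lit 9024, nat_lit 240, R14_90, R6_188, R7_5⟩, ⟨nat_lit 7, nat_lit 11568, nat_lit 13872, nat_lit 4368, nat_lit 9696, nat_lit 18624, R14_91, R4_202, R14_388⟩]⟩]⟩]], [[], [], [], [⟨nat_lit 4, [⟨nat_lit 3, [⟨nat_lit 4, nat_lit 10704, nat_lit 0, nat_lit 13488, nat_lit 96, nat_lit 3216, R7_281, R6_2, R4_67⟩]⟩]⟩,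
 ⟨nat_lit 7, [⟨nat_lit 0, [⟨nat_lit 4, nat_lit 3984, nat_lit 576, nat_lit 3168, nat_lit 3312, nat_lit 1584, R7_66, R8_69, R6_33⟩, ⟨nat_lit 7, nat_lit 4224, nat_lit 1392, nat_lit 3696, nat_lit 4608, nat_lit 1536, R7_77, R5_96, R4_32⟩]⟩, ⟨nat_lit 3, [⟨nat_lit 4, nat_lit 11472, nat_lit 624, nat_lit 4560, nat_lit 3408, nat_lit 4080, R14_95, R8_71, R4_85⟩]⟩]⟩], [], [], [], [⟨nat_lit 4, [⟨nat_lit 3, [⟨nat_lit 4, nat_lit 10656, nat_lit 48, nat_lit 13440, nat_lit 144, nat_lit 2112, R7_280, R6_3, R7_44⟩]⟩, ⟨nat_lit 7, [⟨nat_lit 4, nat_lit 15120, nat_lit 0, nat_lit 12240, nat_lit 672, nat_lit 1920, R4_255, R6_14, R4_40⟩, ⟨nat_lit 6, nat_lit 15216, nat_lit 336, nat_lit 12288, nat_lit 4560, nat_lit 1152, R4_256, R13_95, R5_24⟩]⟩]⟩,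
 ⟨nat_lit 6, [⟨nat_lit 7, [⟨nat_lit 6, nat_lit 15792, nat_lit 2448, nat_lit 14352, nat_lit 432, nat_lit 1440, R5_299, R3_9, R5_30⟩]⟩]⟩,
 ⟨nat_lit 7, [⟨nat_lit 0, [⟨nat_lit 7, nat_lit 4128, nat_lit 1296, nat_lit 1728, nat_lit 4512, nat_lit 1344, R7_36, R5_94, R7_28⟩]⟩, ⟨nat_lit 3, [⟨nat_lit 4, nat_lit 11376, nat_lit 960, nat_lit 4464, nat_lit 1200, nat_lit 2304, R14_93, R8_25, R7_48⟩, ⟨nat_lit 7, nat_lit 11616, nat_lit 1344, nat_lit 4512, nat_lit 4560, nat_lit 18672, R14_94, R5_95, R14_389⟩]⟩]⟩]], [[], [], [], [], [], [], [], [⟨nat_lit 3, [⟨nat_lit 0, [⟨nat_lit 3, nat_lit 3168, nat_lit 11616, nat_lit 1056, nat_lit 8688, nat_lit 720, R4_22, R5_181, R4_15⟩]⟩, ⟨nat_lit 2, [⟨nat_lit 3, nat_lit 7344, nat_lit 14448, nat_lit 48, nat_lit 8736, nat_lit 1632, R5_1, R5_182, R5_34⟩]⟩]⟩]], [[], [], [], [⟨nat_lit 3, [⟨nat_lit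 0, [⟨nat_lit 4, nat_lit 3216, nat_lit 96, nat_lit 3360, nat_lit 3120, nat_lit 3600, R4_70, R7_65, R6_75⟩, ⟨nat_lit 7, nat_lit 3360, nat_lit 144, nat_lit 3648, nat_lit 4608, nat_lit 3552, R4_76, R14_96, R4_74⟩]⟩]⟩,
 ⟨nat_lit 7, [⟨nat_lit 0, [⟨nat_lit 4, nat_lit 4032, nat_lit 0, nat_lit 3120, nat_lit 3360, nat_lit 1536, R7_65, R4_70, R6_32⟩]⟩, ⟨nat_lit 3, [⟨nat_lit 4, nat_lit 11520, nat_lit 48, nat_lit 4608, nat_lit 3648, nat_lit 3552, R14_96, R4_76, R4_74⟩]⟩]⟩]]], [[], [[⟨nat_lit 5, [⟨nat_lit 0, [⟨nat_lit 5, nat_lit 3504, nat_lit 0, nat_lit 3456, nat_lit 1104, nat_lit 2304, R6_72, R2_23, R6_48⟩]⟩, ⟨nat_lit 1, [⟨nat_lit 4, nat_lit 8544, nat_lit 4848, nat_lit 15312, nat_lit 2976, nat_lit 2352, R13_319, R7_62, R6_49⟩, ⟨nat_lit 5, nat_lit 8736, nat_lit 4944, nat_lit 15456, nat_lit 1200, nat_lit 1680, R13_322, R2_25,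 R13_35⟩]⟩]⟩], [⟨nat_lit 5, [⟨nat_lit 1, [⟨nat_lit 4, nat_lit 8640, nat_lit 3264, nat_lit 15360, nat_lit 3456, nat_lit 2208, R13_320, R7_72, R4_46⟩, ⟨nat_lit 5, nat_lit 8784, nat_lit 3360, nat_lit 15504, nat_lit 1776, nat_lit 2064, R13_323, R2_37, R3_43⟩]⟩]⟩], [], [⟨nat_lit 5, [⟨nat_lit 0, [⟨nat_lit 4, nat_lit 3456, nat_lit 1104, nat_lit 3504, nat_lit 3072, nat_lit 2304, R6_73, R7_64, R6_48⟩, ⟨nat_lit 5, nat_lit 3552, nat_lit 1392, nat_lit 3552, nat_lit 1392, nat_lit 1632, R6_74, R2_29, R8_34⟩]⟩, ⟨nat_lit 1, [⟨nat_lit 4, nat_lit 8688, nat_lit 8160, nat_lit 15408, nat_lit 3264, nat_lit 1728, R13_321, R7_68, R8_36⟩, ⟨nat_lit 5, nat_lit 8832, nat_lit 8448, nat_lit 15552, nat_lit 1584, nat_lit 816, R13_324, R2_33, R9_17⟩]⟩]⟩]], [], [], [], [[⟨nat_lit 4, [⟨nat_lit 1, [⟨nat_lit 4, nat_lit 8208, nat_lit 4512, nat_lit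 11904, nat_lit 192, nat_lit 2064, R6_248, R6_4, R6_43⟩]⟩]⟩,
 ⟨nat_lit 5, [⟨nat_lit 1, [⟨nat_lit 4, nat_lit 8496, nat_lit 5136, nat_lit 15600, nat_lit 96, nat_lit 2208, R13_325, R4_2, R6_46⟩]⟩]⟩], [⟨nat_lit 4, [⟨nat_lit 1, [⟨nat_lit 4, nat_lit 8256, nat_lit 0, nat_lit 11952, nat_lit 336, nat_lit 1872, R6_249, R6_7, R4_39⟩]⟩]⟩,
 ⟨nat_lit 5, [⟨nat_lit 1, [⟨nat_lit 4, nat_lit 8592, nat_lit 3744, nat_lit 15648, nat_lit 240, nat_lit 2064, R13_326, R4_5, R4_43⟩]⟩]⟩]]], [[[⟨nat_lit 1, [⟨nat_lit 0, [⟨nat_lit 5, nat_lit 1632, nat_lit 4848, nat_lit 2976, nat_lit 15312, nat_lit 2352, R7_62, R13_319, R6_49⟩]⟩, ⟨nat_lit 1, [⟨nat_lit 4, nat_lit 7440, nat_lit 0, nat_lit 1104, nat_lit 3456, nat_lit 2304, R2_23, R6_72, R6_48⟩, ⟨nat_lit 5, nat_lit 7728, nat_lit 4944, nat_lit 1200, nat_lit 15456, nat_lit 1728, R2_25, R13_322, R13_36⟩]⟩]⟩],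 [], [⟨nat_lit 1, [⟨nat_lit 0, [⟨nat_lit 5, nat_lit 1728, nat_lit 3264, nat_lit 3456, nat_lit 15360, nat_lit 2208, R7_72, R13_320, R4_46⟩]⟩, ⟨nat_lit 1, [⟨nat_lit 5, nat_lit 7872, nat_lit 3360, nat_lit 1776, nat_lit 15504, nat_lit 2064, R2_37, R13_323, R3_43⟩]⟩]⟩], [⟨nat_lit 1, [⟨nat_lit 0, [⟨nat_lit 4, nat_lit 1488, nat_lit 1104, nat_lit 3072, nat_lit 3504, nat_lit 3936, R7_64, R6_73, R6_82⟩, ⟨nat_lit 5, nat_lit 1872, nat_lit 8160, nat_lit 3264, nat_lit 15408, nat_lit 1728, R7_68, R13_321, R8_36⟩]⟩, ⟨nat_lit 1, [⟨nat_lit 4, nat_lit 7584, nat_lit 1392, nat_lit 1392, nat_lit 3552, nat_lit 1632, R2_29, R6_74, R8_34⟩, ⟨nat_lit 5, nat_lit 8016, nat_lit 8448, nat_lit 1584, nat_lit 15552, nat_lit 912, R2_33, R13_324, R9_19⟩]⟩]⟩]], [[⟨nat_lit 1, [⟨nat_lit 0, [⟨nat_lit 5, nat_lit 1680, nat_lit 15264, nat_lit 3024, nat_lit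 11568, nat_lit 2400, R7_63, R3_241, R6_50⟩]⟩, ⟨nat_lit 1, [⟨nat_lit 4, nat_lit 7488, nat_lit 15600, nat_lit 1152, nat_lit 3312, nat_lit 2448, R2_24, R4_69, R6_51⟩, ⟨nat_lit 5, nat_lit 7776, nat_lit 15936, nat_lit 1248, nat_lit 11712, nat_lit 1776, R2_26, R3_244, R13_37⟩]⟩]⟩,
 ⟨nat_lit 5, [⟨nat_lit 0, [⟨nat_lit 5, nat_lit 3648, nat_lit 15312, nat_lit 3312, nat_lit 1152, nat_lit 2448, R4_69, R2_24, R6_51⟩]⟩, ⟨nat_lit 1, [⟨nat_lit 4, nat_lit 9024, nat_lit 15648, nat_lit 11568, nat_lit 3024, nat_lit 2400, R3_241, R7_63, R6_50⟩, ⟨nat_lit 5, nat_lit 9168, nat_lit 15984, nat_lit 11712, nat_lit 1248, nat_lit 1824, R3_244, R2_26, R13_38⟩]⟩]⟩], [⟨nat_lit 1, [⟨nat_lit 1, [⟨nat_lit 4, nat_lit 7536, nat_lit 12672, nat_lit 1296, nat_lit 3456, nat_lit 2352, R2_27, R4_72, R4_49⟩, ⟨nat_lit 5, nat_lit 7824, nat_lit 13008, nat_lit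 1344, nat_lit 11856, nat_lit 2160, R2_28, R3_247, R3_45⟩]⟩]⟩,
 ⟨nat_lit 5, [⟨nat_lit 1, [⟨nat_lit 4, nat_lit 9072, nat_lit 12720, nat_lit 11616, nat_lit 3504, nat_lit 2304, R3_242, R7_73, R4_48⟩, ⟨nat_lit 5, nat_lit 9216, nat_lit 13056, nat_lit 11760, nat_lit 1824, nat_lit 2208, R3_245, R2_38, R3_46⟩]⟩]⟩], [⟨nat_lit 1, [⟨nat_lit 0, [⟨nat_lit 5, nat_lit 1776, nat_lit 12720, nat_lit 3504, nat_lit 11616, nat_lit 2304, R7_73, R3_242, R4_48⟩]⟩, ⟨nat_lit 1, [⟨nat_lit 5, nat_lit 7920, nat_lit 13056, nat_lit 1824, nat_lit 11760, nat_lit 2208, R2_38, R3_245, R3_46⟩]⟩]⟩,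
 ⟨nat_lit 5, [⟨nat_lit 0, [⟨nat_lit 5, nat_lit 3696, nat_lit 12672, nat_lit 3456, nat_lit 1296, nat_lit 2352, R4_72, R2_27, R4_49⟩]⟩, ⟨nat_lit 1, [⟨nat_lit 5, nat_lit 9264, nat_lit 13008, nat_lit 11856, nat_lit 1344, nat_lit 2160, R3_247, R2_28, R3_45⟩]⟩]⟩], [⟨nat_lit 1, [⟨nat_lit 0, [⟨nat_lit 4, nat_lit 1536, nat_lit 0, nat_lit 3120, nat_lit 3360, nat_lit 4032, R7_65, R4_70, R6_84⟩, ⟨nat_lit 5, nat_lit 1920, nat_lit 720, nat_lit 3312, nat_lit 11664, nat_lit 1824, R7_69, R3_243, R8_38⟩]⟩, ⟨nat_lit 1, [⟨nat_lit 4, nat_lit 7632, nat_lit 6720, nat_lit 1440, nat_lit 3408, nat_lit 1872, R2_30, R4_71, R8_39⟩, ⟨nat_lit 5, nat_lit 8064, nat_lit 8064, nat_lit 1632, nat_lit 11808, nat_lit 1008, R2_34, R3_246, R9_21⟩]⟩]⟩,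
 ⟨nat_lit 5, [⟨nat_lit 0, [⟨nat_lit 4, nat_lit 3600, nat_lit 96, nat_lit 3360, nat_lit 3120, nat_lit 3216, R4_70, R7_65, R6_67⟩, ⟨nat_lit 5, nat_lit 3744, nat_lit 912, nat_lit 3408, nat_lit 1440, nat_lit 1872, R4_71, R2_30, R8_39⟩]⟩, ⟨nat_lit 1, [⟨nat_lit 4, nat_lit 9120, nat_lit 6864, nat_lit 11664, nat_lit 3312, nat_lit 1824, R3_243, R7_69, R8_38⟩, ⟨nat_lit 5, nat_lit 9312, nat_lit 8352, nat_lit 11808, nat_lit 1632, nat_lit 1056, R3_246, R2_34, R9_22⟩]⟩]⟩]], [[], [], [⟨nat_lit 1, [⟨nat_lit 0, [⟨nat_lit 1, nat_lit 1440, nat_lit 13200, nat_lit 3408, nat_lit 12000, nat_lit 2208, R7_71, R2_250, R7_46⟩, ⟨nat_lit 5, nat_lit 1824, nat_lit 2736, nat_lit 3552, nat_lit 3072, nat_lit 2256, R7_74, R3_64, R4_47⟩]⟩, ⟨nat_lit 1, [⟨nat_lit 1, nat_lit 7392, nat_lit 13296, nat_lit 1728, nat_lit 12096, nat_lit 672, R2_36, R2_252,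 R2_14⟩, ⟨nat_lit 5, nat_lit 7968, nat_lit 2832, nat_lit 1872, nat_lit 3120, nat_lit 2112, R2_39, R3_65, R3_44⟩]⟩, ⟨nat_lit 2, [⟨nat_lit 1, nat_lit 6768, nat_lit 13440, nat_lit 0, nat_lit 12048, nat_lit 1008, R2_0, R2_251, R2_21⟩]⟩]⟩]], [[], [], [], [⟨nat_lit 1, [⟨nat_lit 0, [⟨nat_lit 4, nat_lit 1584, nat_lit 576, nat_lit 3168, nat_lit 3312, nat_lit 3984, R7_66, R8_69, R6_83⟩, ⟨nat_lit 5, nat_lit 1968, nat_lit 8976, nat_lit 3360, nat_lit 13392, nat_lit 1776, R7_70, R9_279, R8_37⟩, ⟨nat_lit 7, nat_lit 2016, nat_lit 6096, nat_lit 3216, nat_lit 14400, nat_lit 4224, R7_67, R5_300, R4_88⟩]⟩, ⟨nat_lit 1, [⟨nat_lit 4, nat_lit 7680, nat_lit 864, nat_lit 1488, nat_lit 3360, nat_lit 1680, R2_31, R8_70, R8_35⟩, ⟨nat_lit 5, nat_lit 8112, nat_lit 9264, nat_lit 1680, nat_lit 13440, nat_lit 960, R2_35, R9_280, R9_20⟩, ⟨nat_lit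 7, nat_lit 8160, nat_lit 6288, nat_lit 1536, nat_lit 14448, nat_lit 336, R2_32, R5_301, R5_7⟩]⟩]⟩]]], [[], [[], [⟨nat_lit 5, [⟨nat_lit 1, [⟨nat_lit 4, nat_lit 8928, nat_lit 2736, nat_lit 3072, nat_lit 3552, nat_lit 2256, R3_64, R7_74, R4_47⟩, ⟨nat_lit 5, nat_lit 8976, nat_lit 2832, nat_lit 3120, nat_lit 1872, nat_lit 2112, R3_65, R2_39, R3_44⟩]⟩, ⟨nat_lit 5, [⟨nat_lit 4, nat_lit 14160, nat_lit 13200, nat_lit 12000, nat_lit 3408, nat_lit 2208, R2_250, R7_71, R7_46⟩, ⟨nat_lit 5, nat_lit 14352, nat_lit 13296, nat_lit 12096, nat_lit 1728, nat_lit 672, R2_252, R2_36, R2_14⟩, ⟨nat_lit 6, nat_lit 14304, nat_lit 13440, nat_lit 12048, nat_lit 0, nat_lit 1008, R2_251, R2_0, R2_21⟩]⟩]⟩]], [], [], [], [[], [⟨nat_lit 4, [⟨nat_lit 1, [⟨nat_lit 4, nat_lit 8304, nat_lit 0, nat_lit 12240, nat_lit 432, nat_lit 1920, R4_255, R6_9,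 R4_40⟩]⟩, ⟨nat_lit 5, [⟨nat_lit 4, nat_lit 13728, nat_lit 48, nat_lit 13440, nat_lit 816, nat_lit 2112, R7_280, R6_17, R7_44⟩, ⟨nat_lit 6, nat_lit 13824, nat_lit 96, nat_lit 13536, nat_lit 4944, nat_lit 912, R7_282, R13_103, R2_19⟩]⟩]⟩,
 ⟨nat_lit 5, [⟨nat_lit 1, [⟨nat_lit 4, nat_lit 8880, nat_lit 144, nat_lit 3024, nat_lit 336, nat_lit 2112, R3_63, R4_7, R4_44⟩]⟩, ⟨nat_lit 5, [⟨nat_lit 4, nat_lit 14112, nat_lit 192, nat_lit 12144, nat_lit 384, nat_lit 2160, R2_253, R4_8, R7_45⟩, ⟨nat_lit 6, nat_lit 14256, nat_lit 240, nat_lit 12240, nat_lit 3696, nat_lit 1056, R2_255, R3_77, R2_22⟩]⟩]⟩,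
 ⟨nat_lit 6, [⟨nat_lit 5, [⟨nat_lit 6, nat_lit 14016, nat_lit 288, nat_lit 11952, nat_lit 576, nat_lit 960, R2_249, R3_12, R2_20⟩]⟩]⟩], [], [], [], [⟨nat_lit 4, [⟨nat_lit 5, [⟨nat_lit 4, nat_lit 13680, nat_lit 0, nat_lit 13488, nat_lit 864, nat_lit 3216, R7_281, R6_18, R4_67⟩, ⟨nat_lit 6, nat_lit 13776, nat_lit 48, nat_lit 13584, nat_lit 4896, nat_lit 15888, R7_283, R13_102, R3_331⟩]⟩]⟩,
 ⟨nat_lit 5, [⟨nat_lit 5, [⟨nat_lit 4, nat_lit 14064, nat_lit 96, nat_lit 12192, nat_lit 432, nat_lit 3264, R2_254, R4_9, R4_68⟩, ⟨nat_lit 6, nat_lit 14208, nat_lit 144, nat_lit 12288, nat_lit 3648, nat_lit 15984, R2_256, R3_76, R3_333⟩]⟩]⟩,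
 ⟨nat_lit 6, [⟨nat_lit 5, [⟨nat_lit 6, nat_lit 13968, nat_lit 192, nat_lit 11904, nat_lit 624, nat_lit 15936, R2_248, R3_13, R3_332⟩]⟩]⟩]]], [[], [[], [], [], [⟨nat_lit 5, [⟨nat_lit 0, [⟨nat_lit 4, nat_lit 3840, nat_lit 576, nat_lit 3312, nat_lit 3168, nat_lit 2736, R8_69, R7_66, R6_57⟩, ⟨nat_lit 5, nat_lit 3888, nat_lit 864, nat_lit 3360, nat_lit 1488, nat_lit 1680, R8_70, R2_31, R8_35⟩]⟩, ⟨nat_lit 1, [⟨nat_lit 4, nat_lit 9504, nat_lit 8976, nat_lit 13392, nat_lit 3360, nat_lit 1776, R9_279, R7_70, R8_37⟩, ⟨nat_lit 5, nat_lit 9552, nat_lit 9264, nat_lit 13440, nat_lit 1680, nat_lit 864, R9_280, R2_35, R9_18⟩]⟩, ⟨nat_lit 3, [⟨nat_lit 4, nat_lit 10848, nat_lit 6096, nat_lit 14400, nat_lit 3216, nat_lit 4224, R5_300, R7_67, R4_88⟩, ⟨nat_lit 5, nat_lit 10896, nat_lit 6288, nat_lit 14448, nat_lit 1536, nat_lit 336,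 R5_301, R2_32, R5_7⟩]⟩]⟩]], [], [], [], [[⟨nat_lit 4, [⟨nat_lit 1, [⟨nat_lit 4, nat_lit 8352, nat_lit 7920, nat_lit 12576, nat_lit 240, nat_lit 2112, R8_262, R6_5, R6_44⟩]⟩]⟩,
 ⟨nat_lit 5, [⟨nat_lit 1, [⟨nat_lit 4, nat_lit 9360, nat_lit 8496, nat_lit 13488, nat_lit 144, nat_lit 2256, R9_281, R4_3, R6_47⟩]⟩]⟩,
 ⟨nat_lit 7, [⟨nat_lit 1, [⟨nat_lit 4, nat_lit 9600, nat_lit 8208, nat_lit 1776, nat_lit 3168, nat_lit 2160, R5_37, R8_66, R6_45⟩]⟩]⟩], [⟨nat_lit 4, [⟨nat_lit 1, [⟨nat_lit 4, nat_lit 8400, nat_lit 0, nat_lit 12624, nat_lit 384, nat_lit 1968, R8_263, R6_8, R4_41⟩]⟩]⟩,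
 ⟨nat_lit 5, [⟨nat_lit 1, [⟨nat_lit 4, nat_lit 9408, nat_lit 48, nat_lit 13536, nat_lit 288, nat_lit 2160, R9_282, R4_6, R4_45⟩]⟩]⟩,
 ⟨nat_lit 7, [⟨nat_lit 1, [⟨nat_lit 4, nat_lit 9648, nat_lit 96, nat_lit 1824, nat_lit 4320, nat_lit 2016, R5_38, R8_90, R4_42⟩]⟩]⟩], [], [⟨nat_lit 4, [⟨nat_lit 0, [⟨nat_lit 4, nat_lit 3408, nat_lit 0, nat_lit 11664, nat_lit 0, nat_lit 480, R6_243, R6_0, R6_10⟩]⟩, ⟨nat_lit 1, [⟨nat_lit 4, nat_lit 8448, nat_lit 48, nat_lit 12672, nat_lit 288, nat_lit 1488, R8_264, R6_6, R8_31⟩]⟩, ⟨nat_lit 3, [⟨nat_lit 4, nat_lit 10752, nat_lit 96, nat_lit 12096, nat_lit 48, nat_lit 3168, R4_252, R6_1, R4_66⟩]⟩]⟩,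
 ⟨nat_lit 5, [⟨nat_lit 0, [⟨nat_lit 4, nat_lit 3792, nat_lit 144, nat_lit 3264, nat_lit 0, nat_lit 2784, R8_68, R4_0, R6_58⟩]⟩, ⟨nat_lit 1, [⟨nat_lit 4, nat_lit 9456, nat_lit 192, nat_lit 13584, nat_lit 192, nat_lit 1584, R9_283, R4_4, R8_33⟩]⟩, ⟨nat_lit 3, [⟨nat_lit 4, nat_lit 10800, nat_lit 240, nat_lit 14496, nat_lit 48, nat_lit 4368, R5_302, R4_1, R4_91⟩]⟩]⟩,
 ⟨nat_lit 7, [⟨nat_lit 0, [⟨nat_lit 4, nat_lit 4272, nat_lit 288, nat_lit 0, nat_lit 3264, nat_lit 1056, R4_0, R8_68, R6_22⟩, ⟨nat_lit 7, nat_lit 4320, nat_lit 384, nat_lit 480, nat_lit 4752, nat_lit 960, R4_10, R5_99, R4_20⟩]⟩, ⟨nat_lit 1, [⟨nat_lit 4, nat_lit 9696, nat_lit 336, nat_lit 1872, nat_lit 3600, nat_lit 1536, R5_39, R8_75, R8_32⟩, ⟨nat_lit 7, nat_lit 9744, nat_lit 432, nat_lit 1920, nat_lit 4800, nat_lit 288, R5_40, R5_100, R5_6⟩]⟩]⟩]]]]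
noncomputable def N1066 : T3 (List N0) := [[[], [], [], [], [[], [], [], [], [⟨nat_lit 3, [⟨nat_lit 3, [⟨nat_lit 7, nat_lit 432, nat_lit 12864, nat_lit 8832, nat_lit 7536, nat_lit 14448, R4_184, R2_157, R2_301⟩]⟩]⟩,
 ⟨nat_lit 4, [⟨nat_lit 7, [⟨nat_lit 4, nat_lit 912, nat_lit 4416, nat_lit 4656, nat_lit 11760, nat_lit 19776, R6_97, R6_245, R13_412⟩, ⟨nat_lit 5, nat_lit 1008, nat_lit 4464, nat_lit 4752, nat_lit 12144, nat_lit 16032, R6_99, R4_253, R3_334⟩, ⟨nat_lit 6, nat_lit 960, nat_lit 4608, nat_lit 4704, nat_lit 12384, nat_lit 15984, R6_98, R8_258, R9_333⟩]⟩]⟩,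
 ⟨nat_lit 6, [⟨nat_lit 4, [⟨nat_lit 6, nat_lit 1776, nat_lit 2160, nat_lit 9600, nat_lit 8208, nat_lit 240, R6_200, R5_171, R8_5⟩]⟩, ⟨nat_lit 6, [⟨nat_lit 6, nat_lit 1968, nat_lit 9888, nat_lit 10560, nat_lit 8304, nat_lit 16848, R4_220, R5_173, R5_351⟩]⟩, ⟨nat_lit 7, [⟨nat_lit 6, nat_lit 2208, nat_lit 6912, nat_lit 4656, nat_lit 8256, nat_lit 16080, R8_97, R5_172, R9_335⟩]⟩]⟩,
 ⟨nat_lit 7, [⟨nat_lit 3, [⟨nat_lit 7, nat_lit 2544, nat_lit 12288, nat_lit 4800, nat_lit 11088, nat_lit 14400, R7_100, R3_231, R2_300⟩]⟩, ⟨nat_lit 7, [⟨nat_lit 4, nat_lit 3264, nat_lit 5424, nat_lit 4944, nat_lit 10512, nat_lit 19824, R4_103, R13_219, R13_413⟩, ⟨nat_lit 5, nat_lit 3360, nat_lit 5616, nat_lit 5088, nat_lit 8544, nat_lit 16080, R4_106, R3_178, R3_335⟩, ⟨nat_lit 6, nat_lit 3312, nat_lit 5760, nat_lit 5040, nat_lit 8064,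 nat_lit 16032, R4_105, R9_168, R9_334⟩, ⟨nat_lit 7, nat_lit 3408, nat_lit 5568, nat_lit 4992, nat_lit 11424, nat_lit 2928, R4_104, R3_238, R3_61⟩]⟩]⟩], [], [], [⟨nat_lit 3, [⟨nat_lit 3, [⟨nat_lit 7, nat_lit 480, nat_lit 3312, nat_lit 9504, nat_lit 8352, nat_lit 15504, R4_198, R2_174, R12_323⟩]⟩]⟩,
 ⟨nat_lit 4, [⟨nat_lit 7, [⟨nat_lit 4, nat_lit 1056, nat_lit 192, nat_lit 5184, nat_lit 12048, nat_lit 48, R6_108, R6_251, R3_1⟩, ⟨nat_lit 5, nat_lit 1152, nat_lit 240, nat_lit 5280, nat_lit 12288, nat_lit 2976, R6_110, R4_256, R10_62⟩, ⟨nat_lit 6, nat_lit 1104, nat_lit 288, nat_lit 5232, nat_lit 12528, nat_lit 144, R6_109, R8_261, R0_3⟩]⟩]⟩,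
 ⟨nat_lit 6, [⟨nat_lit 7, [⟨nat_lit 6, nat_lit 2256, nat_lit 2064, nat_lit 5088, nat_lit 10272, nat_lit 336, R8_106, R5_214, R0_7⟩]⟩]⟩,
 ⟨nat_lit 7, [⟨nat_lit 3, [⟨nat_lit 4, nat_lit 2592, nat_lit 1344, nat_lit 5376, nat_lit 11280, nat_lit 3552, R7_112, R13_235, R2_74⟩, ⟨nat_lit 5, nat_lit 2640, nat_lit 1440, nat_lit 5472, nat_lit 8880, nat_lit 3024, R7_114, R3_185, R1_63⟩, ⟨nat_lit 7, nat_lit 2688, nat_lit 1392, nat_lit 5424, nat_lit 11952, nat_lit 15552, R7_113, R3_249, R12_324⟩]⟩, ⟨nat_lit 7, [⟨nat_lit 4, nat_lit 3456, nat_lit 768, nat_lit 5472, nat_lit 11232, nat_lit 3792, R4_114, R13_234, R3_79⟩, ⟨nat_lit 5, nat_lit 3552, nat_lit 816, nat_lit 5568, nat_lit 8832, nat_lit 3648, R4_116, R3_184, R10_76⟩, ⟨nat_lit 6, nat_lit 3504, nat_lit 864, nat_lit 5520, nat_lit 8880, nat_lit 240, R4_115, R9_185, R0_5⟩]⟩]⟩]],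 [[], [], [], [], [⟨nat_lit 4, [⟨nat_lit 7, [⟨nat_lit 4, nat_lit 1200, nat_lit 4656, nat_lit 5808, nat_lit 7536, nat_lit 21312, R6_121, R8_157, R13_444⟩, ⟨nat_lit 5, nat_lit 1296, nat_lit 4704, nat_lit 5904, nat_lit 14304, nat_lit 17376, R6_123, R5_298, R3_362⟩, ⟨nat_lit 6, nat_lit 1248, nat_lit 4896, nat_lit 5856, nat_lit 13200, nat_lit 17712, R6_122, R9_275, R9_369⟩]⟩]⟩,
 ⟨nat_lit 6, [⟨nat_lit 7, [⟨nat_lit 6, nat_lit 2304, nat_lit 7536, nat_lit 5424, nat_lit 7392, nat_lit 17760, R8_113, R0_154, R9_370⟩]⟩]⟩,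
 ⟨nat_lit 7, [⟨nat_lit 3, [⟨nat_lit 7, nat_lit 2736, nat_lit 12528, nat_lit 5664, nat_lit 12336, nat_lit 15552, R7_118, R0_257, R2_324⟩]⟩, ⟨nat_lit 7, [⟨nat_lit 4, nat_lit 3600, nat_lit 5760, nat_lit 6144, nat_lit 4368, nat_lit 21360, R4_128, R9_91, R13_445⟩, ⟨nat_lit 7, nat_lit 3696, nat_lit 5952, nat_lit 6192, nat_lit 2400, nat_lit 3552, R4_129, R0_50, R3_74⟩]⟩]⟩], [], [], [⟨nat_lit 4, [⟨nat_lit 7, [⟨nat_lit 4, nat_lit 1344, nat_lit 384, nat_lit 6528, nat_lit 7584, nat_lit 2256, R6_136, R8_158, R3_47⟩, ⟨nat_lit 5, nat_lit 1440, nat_lit 432, nat_lit 6624, nat_lit 14352, nat_lit 5664, R6_138, R5_299, R10_118⟩, ⟨nat_lit 6, nat_lit 1392, nat_lit 480, nat_lit 6576, nat_lit 13344, nat_lit 1920, R6_137, R9_278, R0_40⟩]⟩]⟩,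
 ⟨nat_lit 6, [⟨nat_lit 7, [⟨nat_lit 6, nat_lit 2352, nat_lit 2592, nat_lit 5952, nat_lit 7440, nat_lit 2016, R8_124, R0_155, R0_42⟩]⟩]⟩,
 ⟨nat_lit 7, [⟨nat_lit 3, [⟨nat_lit 4, nat_lit 2784, nat_lit 1776, nat_lit 6432, nat_lit 5760, nat_lit 6528, R7_134, R9_120, R2_136⟩, ⟨nat_lit 5, nat_lit 2832, nat_lit 1872, nat_lit 6528, nat_lit 3600, nat_lit 5232, R7_136, R0_75, R1_109⟩, ⟨nat_lit 7, nat_lit 2880, nat_lit 1824, nat_lit 6480, nat_lit 13296, nat_lit 15984, R7_135, R0_277, R12_333⟩]⟩, ⟨nat_lit 7, [⟨nat_lit 4, nat_lit 3744, nat_lit 1056, nat_lit 6672, nat_lit 5376, nat_lit 7152, R4_139, R9_112, R3_149⟩]⟩]⟩]], [[], [], [], [], [⟨nat_lit 3, [⟨nat_lit 3, [⟨nat_lit 7, nat_lit 528, nat_lit 14832, nat_lit 9168, nat_lit 8064, nat_lit 15024, R4_191, R1_168, R2_313⟩]⟩]⟩,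
 ⟨nat_lit 4, [⟨nat_lit 7, [⟨nat_lit 4, nat_lit 1488, nat_lit 8016, nat_lit 6960, nat_lit 5184, nat_lit 20496, R6_145, R4_108, R13_427⟩, ⟨nat_lit 6, nat_lit 1536, nat_lit 8688, nat_lit 7008, nat_lit 8544, nat_lit 16848, R6_146, R5_178, R9_351⟩]⟩]⟩,
 ⟨nat_lit 6, [⟨nat_lit 4, [⟨nat_lit 6, nat_lit 1872, nat_lit 3552, nat_lit 9696, nat_lit 10656, nat_lit 288, R6_202, R11_222, R8_6⟩]⟩, ⟨nat_lit 6, [⟨nat_lit 6, nat_lit 2064, nat_lit 10848, nat_lit 10656, nat_lit 10752, nat_lit 17184, R4_222, R11_224, R5_358⟩]⟩, ⟨nat_lit 7, [⟨nat_lit 6, nat_lit 2400, nat_lit 8784, nat_lit 6384, nat_lit 10704, nat_lit 16944, R8_133, R11_223, R9_353⟩]⟩]⟩,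
 ⟨nat_lit 7, [⟨nat_lit 3, [⟨nat_lit 7, nat_lit 2928, nat_lit 14880, nat_lit 7632, nat_lit 9024, nat_lit 14976, R7_159, R10_188, R2_312⟩]⟩, ⟨nat_lit 7, [⟨nat_lit 4, nat_lit 3840, nat_lit 8064, nat_lit 7584, nat_lit 3888, nat_lit 20544, R4_158, R3_81, R13_428⟩, ⟨nat_lit 6, nat_lit 3888, nat_lit 8736, nat_lit 7680, nat_lit 7296, nat_lit 16896, R4_160, R0_152, R9_352⟩, ⟨nat_lit 7, nat_lit 3936, nat_lit 8352, nat_lit 7632, nat_lit 8976, nat_lit 3264, R4_159, R10_187, R3_68⟩]⟩]⟩], [], [⟨nat_lit 0, [⟨nat_lit 2, [⟨nat_lit 0, nat_lit 0, nat_lit 1584, nat_lit 7296, nat_lit 6816, nat_lit 4512, R6_152, R4_142, R3_94⟩, ⟨nat_lit 3, nat_lit 48, nat_lit 1632, nat_lit 7344, nat_lit 8736, nat_lit 14448, R6_153, R5_182, R0_301⟩]⟩]⟩,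
 ⟨nat_lit 2, [⟨nat_lit 2, [⟨nat_lit 0, nat_lit 96, nat_lit 3984, nat_lit 7968, nat_lit 5616, nat_lit 5184, R4_166, R3_117, R3_108⟩, ⟨nat_lit 2, nat_lit 144, nat_lit 4080, nat_lit 8016, nat_lit 9888, nat_lit 19680, R4_167, R10_206, R10_410⟩, ⟨nat_lit 3, nat_lit 192, nat_lit 4032, nat_lit 8064, nat_lit 8016, nat_lit 14496, R4_168, R0_167, R0_302⟩]⟩, ⟨nat_lit 6, [⟨nat_lit 2, nat_lit 240, nat_lit 2976, nat_lit 8016, nat_lit 9936, nat_lit 15984, R7_167, R10_207, R1_333⟩]⟩]⟩,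
 ⟨nat_lit 3, [⟨nat_lit 0, [⟨nat_lit 3, nat_lit 288, nat_lit 1920, nat_lit 9744, nat_lit 12624, nat_lit 4800, R6_203, R11_263, R5_100⟩]⟩, ⟨nat_lit 2, [⟨nat_lit 3, nat_lit 384, nat_lit 2448, nat_lit 6864, nat_lit 12672, nat_lit 14544, R8_143, R11_264, R0_303⟩]⟩, ⟨nat_lit 3, [⟨nat_lit 3, nat_lit 624, nat_lit 2112, nat_lit 10704, nat_lit 12720, nat_lit 21888, R4_223, R11_265, R11_456⟩, ⟨nat_lit 7, nat_lit 576, nat_lit 2160, nat_lit 10752, nat_lit 8688, nat_lit 16032, R4_224, R1_181, R1_334⟩]⟩]⟩,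
 ⟨nat_lit 4, [⟨nat_lit 7, [⟨nat_lit 4, nat_lit 1584, nat_lit 0, nat_lit 7296, nat_lit 6816, nat_lit 4512, R6_152, R4_142, R3_94⟩, ⟨nat_lit 6, nat_lit 1632, nat_lit 48, nat_lit 7344, nat_lit 8736, nat_lit 14448, R6_153, R5_182, R0_301⟩]⟩]⟩,
 ⟨nat_lit 6, [⟨nat_lit 4, [⟨nat_lit 6, nat_lit 1920, nat_lit 288, nat_lit 9744, nat_lit 12624, nat_lit 4800, R6_203, R11_263, R5_100⟩]⟩, ⟨nat_lit 6, [⟨nat_lit 2, nat_lit 2160, nat_lit 576, nat_lit 10752, nat_lit 8688, nat_lit 16032, R4_224, R1_181, R1_334⟩, ⟨nat_lit 6, nat_lit 2112, nat_lit 624, nat_lit 10704, nat_lit 12720, nat_lit 21888, R4_223, R11_265, R11_456⟩]⟩, ⟨nat_lit 7, [⟨nat_lit 6, nat_lit 2448, nat_lit 384, nat_lit 6864, nat_lit 12672, nat_lit 14544, R8_143, R11_264, R0_303⟩]⟩]⟩,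
 ⟨nat_lit 7, [⟨nat_lit 3, [⟨nat_lit 7, nat_lit 2976, nat_lit 240, nat_lit 8016, nat_lit 9936, nat_lit 15984, R7_167, R10_207, R1_333⟩]⟩, ⟨nat_lit 7, [⟨nat_lit 4, nat_lit 3984, nat_lit 96, nat_lit 7968, nat_lit 5616, nat_lit 5184, R4_166, R3_117, R3_108⟩, ⟨nat_lit 6, nat_lit 4032, nat_lit 192, nat_lit 8064, nat_lit 8016, nat_lit 14496, R4_168, R0_167, R0_302⟩, ⟨nat_lit 7, nat_lit 4080, nat_lit 144, nat_lit 8016, nat_lit 9888, nat_lit 19680, R4_167, R10_206, R10_410⟩]⟩]⟩], [⟨nat_lit 3, [⟨nat_lit 3, [⟨nat_lit 7, nat_lit 672, nat_lit 2400, nat_lit 10512, nat_lit 9168, nat_lit 15696, R4_219, R1_191, R12_327⟩]⟩]⟩,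
 ⟨nat_lit 4, [⟨nat_lit 7, [⟨nat_lit 4, nat_lit 1680, nat_lit 96, nat_lit 7200, nat_lit 6336, nat_lit 768, R6_150, R4_132, R3_16⟩, ⟨nat_lit 6, nat_lit 1728, nat_lit 144, nat_lit 7248, nat_lit 8640, nat_lit 960, R6_151, R5_180, R0_20⟩]⟩]⟩,
 ⟨nat_lit 6, [⟨nat_lit 7, [⟨nat_lit 6, nat_lit 2496, nat_lit 1200, nat_lit 6816, nat_lit 13536, nat_lit 1152, R8_142, R11_282, R0_24⟩]⟩]⟩,
 ⟨nat_lit 7, [⟨nat_lit 3, [⟨nat_lit 4, nat_lit 3024, nat_lit 576, nat_lit 7920, nat_lit 6624, nat_lit 4416, R7_165, R3_138, R2_92⟩, ⟨nat_lit 7, nat_lit 3072, nat_lit 624, nat_lit 7968, nat_lit 10560, nat_lit 15744, R7_166, R10_220, R12_328⟩]⟩, ⟨nat_lit 7, [⟨nat_lit 4, nat_lit 4128, nat_lit 336, nat_lit 7872, nat_lit 6192, nat_lit 6096, R4_164, R3_129, R3_127⟩, ⟨nat_lit 6, nat_lit 4176, nat_lit 384, nat_lit 7920, nat_lit 8400, nat_lit 1056,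 R4_165, R0_175, R0_22⟩]⟩]⟩]], [[], [], [], [⟨nat_lit 3, [⟨nat_lit 0, [⟨nat_lit 5, nat_lit 336, nat_lit 1536, nat_lit 8160, nat_lit 6288, nat_lit 14448, R6_170, R1_131, R5_301⟩]⟩, ⟨nat_lit 3, [⟨nat_lit 5, nat_lit 720, nat_lit 2112, nat_lit 8544, nat_lit 6912, nat_lit 5808, R4_178, R1_144, R11_121⟩]⟩]⟩,
 ⟨nat_lit 7, [⟨nat_lit 3, [⟨nat_lit 5, nat_lit 3120, nat_lit 336, nat_lit 7536, nat_lit 7776, nat_lit 5712, R7_157, R10_162, R11_119⟩]⟩]⟩], [], [], [], [⟨nat_lit 3, [⟨nat_lit 3, [⟨nat_lit 4, nat_lit 768, nat_lit 13680, nat_lit 10272, nat_lit 5952, nat_lit 5520, R4_214, R2_124, R2_115⟩, ⟨nat_lit 5, nat_lit 816, nat_lit 14256, nat_lit 10368, nat_lit 4656, nat_lit 4224, R4_216, R1_97, R1_88⟩, ⟨nat_lit 7, nat_lit 864, nat_lit 14016, nat_lit 10320, nat_lit 7776, nat_lit 15888, R4_215, R12_162, R12_331⟩]⟩]⟩,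
 ⟨nat_lit 7, [⟨nat_lit 3, [⟨nat_lit 4, nat_lit 3168, nat_lit 12432, nat_lit 6912, nat_lit 13152, nat_lit 4944, R7_144, R3_274, R2_103⟩, ⟨nat_lit 5, nat_lit 3216, nat_lit 12576, nat_lit 6960, nat_lit 5376, nat_lit 3648, R7_145, R10_112, R1_76⟩]⟩, ⟨nat_lit 7, [⟨nat_lit 4, nat_lit 4224, nat_lit 4416, nat_lit 7200, nat_lit 4944, nat_lit 5520, R4_150, R3_103, R3_115⟩, ⟨nat_lit 5, nat_lit 4320, nat_lit 4464, nat_lit 7296, nat_lit 4752, nat_lit 4320, R4_152, R10_99, R10_90⟩, ⟨nat_lit 6, nat_lit 4272, nat_lit 4608, nat_lit 7248, nat_lit 11904, nat_lit 480, R4_151, R0_248, R0_10⟩]⟩]⟩]]], [[[⟨nat_lit 0, [⟨nat_lit 0, [⟨nat_lit 1, nat_lit 4416, nat_lit 12384, nat_lit 10512, nat_lit 5520, nat_lit 17280, R6_219, R7_115, R7_360⟩, ⟨nat_lit 5, nat_lit 4368, nat_lit 5808, nat_lit 10176, nat_lit 5664, nat_lit 14928, R6_212, R4_118,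 R4_311⟩]⟩]⟩,
 ⟨nat_lit 1, [⟨nat_lit 0, [⟨nat_lit 1, nat_lit 5184, nat_lit 12912, nat_lit 11376, nat_lit 3984, nat_lit 17376, R4_237, R2_83, R7_362⟩, ⟨nat_lit 5, nat_lit 5136, nat_lit 6432, nat_lit 11232, nat_lit 864, nat_lit 14976, R4_234, R3_18, R4_312⟩]⟩]⟩,
 ⟨nat_lit 3, [⟨nat_lit 0, [⟨nat_lit 1, nat_lit 6000, nat_lit 12576, nat_lit 10656, nat_lit 7680, nat_lit 17328, R8_222, R2_160, R7_361⟩]⟩, ⟨nat_lit 3, [⟨nat_lit 1, nat_lit 6912, nat_lit 12720, nat_lit 7392, nat_lit 7824, nat_lit 14736, R5_154, R2_163, R2_307⟩]⟩]⟩], [], [⟨nat_lit 0, [⟨nat_lit 0, [⟨nat_lit 1, nat_lit 4464, nat_lit 1248, nat_lit 10560, nat_lit 5760, nat_lit 960, R6_220, R7_120, R14_20⟩]⟩, ⟨nat_lit 2, [⟨nat_lit 1, nat_lit 4848, nat_lit 1344, nat_lit 9600, nat_lit 5856, nat_lit 480, R13_200, R7_122, R12_10⟩]⟩]⟩,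
 ⟨nat_lit 1, [⟨nat_lit 0, [⟨nat_lit 1, nat_lit 5232, nat_lit 6432, nat_lit 11424, nat_lit 4176, nat_lit 1872, R4_238, R2_87, R14_39⟩]⟩, ⟨nat_lit 2, [⟨nat_lit 1, nat_lit 5424, nat_lit 6528, nat_lit 7536, nat_lit 4272, nat_lit 2592, R3_157, R2_89, R12_54⟩]⟩]⟩,
 ⟨nat_lit 3, [⟨nat_lit 0, [⟨nat_lit 1, nat_lit 6048, nat_lit 7680, nat_lit 11856, nat_lit 8832, nat_lit 1488, R8_247, R2_184, R14_31⟩]⟩, ⟨nat_lit 2, [⟨nat_lit 1, nat_lit 6576, nat_lit 7824, nat_lit 7440, nat_lit 9264, nat_lit 1632, R9_155, R2_193, R12_34⟩]⟩, ⟨nat_lit 3, [⟨nat_lit 1, nat_lit 6960, nat_lit 7728, nat_lit 7440, nat_lit 9072, nat_lit 15648, R5_155, R2_189, R12_326⟩]⟩]⟩]], [], [[], [], [⟨nat_lit 0, [⟨nat_lit 0, [⟨nat_lit 0, nat_lit 4512, nat_lit 1296, nat_lit 10320, nat_lit 1104, nat_lit 1632, R6_215, R7_23, R7_34⟩, ⟨nat_lit 1, nat_lit 4560, nat_lit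 1344, nat_lit 10608, nat_lit 15840, nat_lit 1008, R6_221, R14_330, R14_21⟩]⟩, ⟨nat_lit 2, [⟨nat_lit 0, nat_lit 4896, nat_lit 1392, nat_lit 9696, nat_lit 7104, nat_lit 192, R13_202, R7_148, R2_4⟩, ⟨nat_lit 1, nat_lit 4944, nat_lit 1440, nat_lit 9744, nat_lit 16368, nat_lit 528, R13_203, R14_341, R12_11⟩]⟩]⟩,
 ⟨nat_lit 1, [⟨nat_lit 0, [⟨nat_lit 1, nat_lit 5280, nat_lit 1488, nat_lit 11472, nat_lit 12912, nat_lit 1920, R4_239, R12_269, R14_40⟩]⟩, ⟨nat_lit 2, [⟨nat_lit 1, nat_lit 5472, nat_lit 1536, nat_lit 7584, nat_lit 13440, nat_lit 2640, R3_158, R12_280, R12_55⟩]⟩]⟩,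
 ⟨nat_lit 2, [⟨nat_lit 2, [⟨nat_lit 0, nat_lit 5520, nat_lit 1920, nat_lit 9888, nat_lit 5328, nat_lit 5904, R3_206, R2_111, R2_123⟩, ⟨nat_lit 1, nat_lit 5616, nat_lit 1968, nat_lit 10224, nat_lit 13536, nat_lit 672, R3_213, R12_282, R12_14⟩, ⟨nat_lit 2, nat_lit 5568, nat_lit 2016, nat_lit 10032, nat_lit 4032, nat_lit 4608, R3_209, R1_84, R1_96⟩]⟩]⟩,
 ⟨nat_lit 3, [⟨nat_lit 0, [⟨nat_lit 0, nat_lit 6096, nat_lit 1584, nat_lit 11232, nat_lit 288, nat_lit 8256, R8_234, R2_6, R7_172⟩, ⟨nat_lit 1, nat_lit 6144, nat_lit 1632, nat_lit 11952, nat_lit 7008, nat_lit 1584, R8_249, R12_146, R14_33⟩]⟩, ⟨nat_lit 2, [⟨nat_lit 0, nat_lit 6624, nat_lit 1824, nat_lit 7632, nat_lit 7296, nat_lit 7200, R9_159, R2_152, R2_150⟩, ⟨nat_lit 1, nat_lit 6672, nat_lit 1872, nat_lit 7680, nat_lit 8592, nat_lit 1728, R9_160, R12_179, R12_36⟩]⟩,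 ⟨nat_lit 3, [⟨nat_lit 0, nat_lit 7008, nat_lit 1680, nat_lit 7728, nat_lit 6000, nat_lit 5568, R5_161, R2_125, R2_116⟩, ⟨nat_lit 1, nat_lit 7056, nat_lit 1728, nat_lit 7824, nat_lit 7824, nat_lit 15936, R5_163, R12_163, R12_332⟩, ⟨nat_lit 3, nat_lit 7104, nat_lit 1776, nat_lit 7776, nat_lit 4704, nat_lit 4272, R5_162, R1_98, R1_89⟩]⟩]⟩], [], [], [], [⟨nat_lit 0, [⟨nat_lit 0, [⟨nat_lit 0, nat_lit 4608, nat_lit 1392, nat_lit 10368, nat_lit 672, nat_lit 1536, R6_216, R7_14, R4_32⟩]⟩, ⟨nat_lit 2, [⟨nat_lit 0, nat_lit 4992, nat_lit 1440, nat_lit 9648, nat_lit 6672, nat_lit 12624, R13_201, R7_139, R3_263⟩]⟩]⟩,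
 ⟨nat_lit 2, [⟨nat_lit 2, [⟨nat_lit 0, nat_lit 5664, nat_lit 1776, nat_lit 9936, nat_lit 4848, nat_lit 13440, R3_207, R2_101, R3_280⟩, ⟨nat_lit 2, nat_lit 5712, nat_lit 1824, nat_lit 10080, nat_lit 3552, nat_lit 19632, R3_210, R1_74, R10_409⟩]⟩, ⟨nat_lit 6, [⟨nat_lit 2, nat_lit 5904, nat_lit 1728, nat_lit 7056, nat_lit 15312, nat_lit 15936, R2_147, R1_319, R1_332⟩]⟩]⟩,
 ⟨nat_lit 3, [⟨nat_lit 0, [⟨nat_lit 0, nat_lit 6192, nat_lit 1488, nat_lit 9552, nat_lit 2064, nat_lit 8256, R8_199, R2_43, R4_172⟩, ⟨nat_lit 3, nat_lit 6240, nat_lit 1536, nat_lit 10080, nat_lit 1536, nat_lit 6240, R8_210, R1_32, R5_130⟩]⟩, ⟨nat_lit 2, [⟨nat_lit 0, nat_lit 6720, nat_lit 1632, nat_lit 7536, nat_lit 9840, nat_lit 13008, R9_157, R2_205, R3_271⟩, ⟨nat_lit 3, nat_lit 6768, nat_lit 1680, nat_lit 7584, nat_lit 10656, nat_lit 14400,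 R9_158, R1_222, R0_300⟩]⟩, ⟨nat_lit 3, [⟨nat_lit 3, nat_lit 7152, nat_lit 1584, nat_lit 7680, nat_lit 6960, nat_lit 21840, R5_160, R1_145, R11_455⟩]⟩]⟩]], [[⟨nat_lit 0, [⟨nat_lit 0, [⟨nat_lit 5, nat_lit 4656, nat_lit 8784, nat_lit 10224, nat_lit 8160, nat_lit 15168, R6_213, R5_170, R4_316⟩]⟩]⟩,
 ⟨nat_lit 1, [⟨nat_lit 0, [⟨nat_lit 5, nat_lit 5328, nat_lit 9072, nat_lit 11280, nat_lit 5856, nat_lit 15264, R4_235, R0_122, R4_318⟩]⟩]⟩,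
 ⟨nat_lit 3, [⟨nat_lit 0, [⟨nat_lit 1, nat_lit 6336, nat_lit 16320, nat_lit 10704, nat_lit 8208, nat_lit 17760, R8_223, R1_171, R7_370⟩, ⟨nat_lit 5, nat_lit 6288, nat_lit 8928, nat_lit 10800, nat_lit 8400, nat_lit 15216, R8_225, R11_175, R4_317⟩]⟩, ⟨nat_lit 3, [⟨nat_lit 1, nat_lit 7200, nat_lit 16656, nat_lit 7488, nat_lit 8352, nat_lit 15360, R5_156, R1_174, R2_320⟩]⟩]⟩], [], [⟨nat_lit 3, [⟨nat_lit 0, [⟨nat_lit 1, nat_lit 6384, nat_lit 816, nat_lit 11904, nat_lit 9648, nat_lit 1536, R8_248, R1_201, R14_32⟩]⟩, ⟨nat_lit 2, [⟨nat_lit 1, nat_lit 6816, nat_lit 912, nat_lit 7488, nat_lit 10080, nat_lit 1680, R9_156, R1_210, R12_35⟩]⟩, ⟨nat_lit 3, [⟨nat_lit 1, nat_lit 7248, nat_lit 864, nat_lit 7632, nat_lit 9888, nat_lit 15840, R5_159, R1_206, R12_330⟩]⟩]⟩], [⟨nat_lit 0, [⟨nat_lit 0, [⟨nat_lit 5, nat_lit 4704, nat_lit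 1968, nat_lit 10272, nat_lit 8448, nat_lit 16896, R6_214, R5_176, R5_352⟩]⟩]⟩,
 ⟨nat_lit 1, [⟨nat_lit 0, [⟨nat_lit 5, nat_lit 5376, nat_lit 2016, nat_lit 11328, nat_lit 5904, nat_lit 17616, R4_236, R0_123, R5_367⟩]⟩]⟩,
 ⟨nat_lit 3, [⟨nat_lit 0, [⟨nat_lit 5, nat_lit 6432, nat_lit 2064, nat_lit 10896, nat_lit 8448, nat_lit 17232, R8_227, R11_176, R5_359⟩]⟩, ⟨nat_lit 3, [⟨nat_lit 1, nat_lit 7344, nat_lit 2160, nat_lit 7536, nat_lit 8784, nat_lit 16368, R5_157, R1_183, R1_341⟩, ⟨nat_lit 5, nat_lit 7296, nat_lit 2112, nat_lit 7584, nat_lit 8496, nat_lit 6096, R5_158, R11_177, R11_127⟩]⟩]⟩]], [[], [], [], [], [⟨nat_lit 3, [⟨nat_lit 3, [⟨nat_lit 7, nat_lit 7392, nat_lit 12720, nat_lit 6912, nat_lit 7824, nat_lit 14736, R5_144, R2_163, R2_307⟩]⟩]⟩], [], [], [⟨nat_lit 3, [⟨nat_lit 3, [⟨nat_lit 7, nat_lit 7440, nat_lit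 7728, nat_lit 6960, nat_lit 9072, nat_lit 15648, R5_145, R2_189, R12_326⟩]⟩]⟩]], [], [[], [], [], [], [⟨nat_lit 3, [⟨nat_lit 3, [⟨nat_lit 7, nat_lit 7488, nat_lit 16656, nat_lit 7200, nat_lit 8352, nat_lit 15360, R5_150, R1_174, R2_320⟩]⟩]⟩], [], [⟨nat_lit 0, [⟨nat_lit 0, [⟨nat_lit 0, nat_lit 4752, nat_lit 384, nat_lit 10416, nat_lit 480, nat_lit 960, R6_217, R4_10, R4_20⟩, ⟨nat_lit 3, nat_lit 4800, nat_lit 432, nat_lit 10464, nat_lit 1920, nat_lit 288, R6_218, R5_40, R5_6⟩]⟩, ⟨nat_lit 2, [⟨nat_lit 0, nat_lit 5040, nat_lit 1152, nat_lit 9504, nat_lit 6864, nat_lit 4656, R13_198, R4_143, R3_97⟩, ⟨nat_lit 3, nat_lit 5088, nat_lit 1200, nat_lit 9552, nat_lit 10464, nat_lit 14592, R13_199, R5_218, R0_304⟩]⟩]⟩,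
 ⟨nat_lit 2, [⟨nat_lit 2, [⟨nat_lit 0, nat_lit 5760, nat_lit 3984, nat_lit 9984, nat_lit 5712, nat_lit 5328, R3_208, R3_119, R3_111⟩, ⟨nat_lit 2, nat_lit 5808, nat_lit 4080, nat_lit 10128, nat_lit 9984, nat_lit 19728, R3_211, R10_208, R10_411⟩, ⟨nat_lit 3, nat_lit 5856, nat_lit 4032, nat_lit 10176, nat_lit 8064, nat_lit 14640, R3_212, R0_168, R0_305⟩]⟩, ⟨nat_lit 6, [⟨nat_lit 2, nat_lit 5952, nat_lit 2976, nat_lit 7008, nat_lit 10032, nat_lit 16176, R2_146, R10_209, R1_337⟩]⟩]⟩,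
 ⟨nat_lit 3, [⟨nat_lit 0, [⟨nat_lit 3, nat_lit 6480, nat_lit 1920, nat_lit 10128, nat_lit 12768, nat_lit 6480, R8_211, R11_266, R5_135⟩]⟩, ⟨nat_lit 2, [⟨nat_lit 3, nat_lit 6864, nat_lit 2448, nat_lit 7392, nat_lit 12816, nat_lit 14688, R9_154, R11_267, R0_306⟩]⟩, ⟨nat_lit 3, [⟨nat_lit 3, nat_lit 7584, nat_lit 2112, nat_lit 7296, nat_lit 12864, nat_lit 21936, R5_152, R11_268, R11_457⟩, ⟨nat_lit 7, nat_lit 7536, nat_lit 2160, nat_lit 7344, nat_lit 8784, nat_lit 16368, R5_153, R1_183, R1_341⟩]⟩]⟩], [⟨nat_lit 3, [⟨nat_lit 3, [⟨nat_lit 7, nat_lit 7632, nat_lit 864, nat_lit 7248, nat_lit 9888, nat_lit 15840, R5_151, R1_206, R12_330⟩]⟩]⟩]], [[], [], [], [⟨nat_lit 3, [⟨nat_lit 0, [⟨nat_lit 5, nat_lit 6528, nat_lit 1008, nat_lit 10944, nat_lit 6384, nat_lit 17136, R8_228, R1_133, R5_357⟩]⟩, ⟨nat_lit 3, [⟨nat_lit 5, nat_lit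 7680, nat_lit 1584, nat_lit 7152, nat_lit 6960, nat_lit 5856, R5_149, R1_145, R11_122⟩]⟩]⟩], [], [], [], [⟨nat_lit 3, [⟨nat_lit 3, [⟨nat_lit 4, nat_lit 7728, nat_lit 1680, nat_lit 7008, nat_lit 6000, nat_lit 5568, R5_146, R2_125, R2_116⟩, ⟨nat_lit 5, nat_lit 7776, nat_lit 1776, nat_lit 7104, nat_lit 4704, nat_lit 4272, R5_148, R1_98, R1_89⟩, ⟨nat_lit 7, nat_lit 7824, nat_lit 1728, nat_lit 7056, nat_lit 7824, nat_lit 15936, R5_147, R12_163, R12_332⟩]⟩]⟩]]], [[], [], [], [], [[], [], [], [], [⟨nat_lit 4, [⟨nat_lit 4, [⟨nat_lit 4, nat_lit 7920, nat_lit 12576, nat_lit 16416, nat_lit 14688, nat_lit 8352, R6_342, R6_306, R6_174⟩, ⟨nat_lit 5, nat_lit 8016, nat_lit 13488, nat_lit 17088, nat_lit 14256, nat_lit 8976, R6_356, R4_297, R4_187⟩, ⟨nat_lit 6, nat_lit 7968, nat_lit 16752, nat_lit 16752, nat_lit 15504, nat_lit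 4560, R6_349, R8_323, R8_95⟩]⟩, ⟨nat_lit 7, [⟨nat_lit 4, nat_lit 9168, nat_lit 12720, nat_lit 15552, nat_lit 14880, nat_lit 19968, R8_324, R6_310, R13_416⟩, ⟨nat_lit 5, nat_lit 9264, nat_lit 13776, nat_lit 16608, nat_lit 14400, nat_lit 16368, R8_346, R4_300, R3_341⟩, ⟨nat_lit 6, nat_lit 9216, nat_lit 17040, nat_lit 16368, nat_lit 16176, nat_lit 16272, R8_341, R8_337, R9_339⟩]⟩]⟩,
 ⟨nat_lit 6, [⟨nat_lit 4, [⟨nat_lit 6, nat_lit 10176, nat_lit 16896, nat_lit 12624, nat_lit 9552, nat_lit 4992, R13_263, R5_199, R8_104⟩]⟩, ⟨nat_lit 6, [⟨nat_lit 6, nat_lit 10656, nat_lit 17424, nat_lit 17664, nat_lit 9648, nat_lit 16944, R3_368, R5_201, R5_353⟩]⟩, ⟨nat_lit 7, [⟨nat_lit 6, nat_lit 11040, nat_lit 17328, nat_lit 9888, nat_lit 9600, nat_lit 16368, R9_206, R5_200, R9_341⟩]⟩]⟩,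
 ⟨nat_lit 7, [⟨nat_lit 7, [⟨nat_lit 4, nat_lit 11328, nat_lit 12864, nat_lit 11328, nat_lit 10848, nat_lit 20016, R5_236, R13_226, R13_417⟩, ⟨nat_lit 5, nat_lit 11424, nat_lit 13920, nat_lit 11472, nat_lit 8688, nat_lit 16416, R5_239, R3_181, R3_342⟩, ⟨nat_lit 6, nat_lit 11376, nat_lit 17184, nat_lit 11376, nat_lit 8544, nat_lit 16320, R5_237, R9_178, R9_340⟩, ⟨nat_lit 7, nat_lit 11472, nat_lit 14592, nat_lit 11424, nat_lit 16416, nat_lit 8688, R5_238, R3_342, R3_181⟩]⟩]⟩], [⟨nat_lit 4, [⟨nat_lit 4, [⟨nat_lit 4, nat_lit 8064, nat_lit 8064, nat_lit 16464, nat_lit 16464, nat_lit 432, R6_343, R6_343, R8_9⟩, ⟨nat_lit 5, nat_lit 8160, nat_lit 8784, nat_lit 17136, nat_lit 15168, nat_lit 4656, R6_357, R4_316, R5_97⟩, ⟨nat_lit 6, nat_lit 8112, nat_lit 9312, nat_lit 16800, nat_lit 15648, nat_lit 3792, R6_350, R8_326,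 R9_79⟩]⟩, ⟨nat_lit 5, [⟨nat_lit 4, nat_lit 8784, nat_lit 8160, nat_lit 15168, nat_lit 17136, nat_lit 4656, R4_316, R6_357, R5_97⟩, ⟨nat_lit 5, nat_lit 8880, nat_lit 8880, nat_lit 15456, nat_lit 15456, nat_lit 4656, R4_322, R4_322, R11_97⟩, ⟨nat_lit 6, nat_lit 8832, nat_lit 9360, nat_lit 15312, nat_lit 16704, nat_lit 2256, R4_319, R8_348, R0_47⟩]⟩, ⟨nat_lit 7, [⟨nat_lit 4, nat_lit 9312, nat_lit 8112, nat_lit 15648, nat_lit 16800, nat_lit 3792, R8_326, R6_350, R9_79⟩, ⟨nat_lit 5, nat_lit 9360, nat_lit 8832, nat_lit 16704, nat_lit 15312, nat_lit 2256, R8_348, R4_319, R0_47⟩]⟩]⟩,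
 ⟨nat_lit 6, [⟨nat_lit 4, [⟨nat_lit 6, nat_lit 10224, nat_lit 11520, nat_lit 12768, nat_lit 11808, nat_lit 4224, R13_266, R5_246, R9_88⟩]⟩, ⟨nat_lit 5, [⟨nat_lit 6, nat_lit 10512, nat_lit 11568, nat_lit 9504, nat_lit 11904, nat_lit 2688, R3_198, R5_248, R0_56⟩]⟩, ⟨nat_lit 6, [⟨nat_lit 6, nat_lit 10704, nat_lit 11616, nat_lit 17712, nat_lit 11856, nat_lit 2880, R3_369, R5_247, R0_60⟩]⟩]⟩,
 ⟨nat_lit 7, [⟨nat_lit 7, [⟨nat_lit 4, nat_lit 11520, nat_lit 10224, nat_lit 11808, nat_lit 12768, nat_lit 4224, R5_246, R13_266, R9_88⟩, ⟨nat_lit 5, nat_lit 11568, nat_lit 10512, nat_lit 11904, nat_lit 9504, nat_lit 2688, R5_248, R3_198, R0_56⟩, ⟨nat_lit 7, nat_lit 11616, nat_lit 10704, nat_lit 11856, nat_lit 17712, nat_lit 2880, R5_247, R3_369, R0_60⟩]⟩]⟩], [], [⟨nat_lit 4, [⟨nat_lit 7, [⟨nat_lit 4, nat_lit 9408, nat_lit 8016,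 nat_lit 15600, nat_lit 15504, nat_lit 336, R8_325, R6_323, R3_7⟩, ⟨nat_lit 5, nat_lit 9504, nat_lit 8256, nat_lit 16656, nat_lit 14736, nat_lit 3072, R8_347, R4_307, R10_64⟩, ⟨nat_lit 6, nat_lit 9456, nat_lit 8448, nat_lit 16416, nat_lit 16320, nat_lit 7632, R8_342, R8_340, R0_159⟩]⟩]⟩,
 ⟨nat_lit 6, [⟨nat_lit 7, [⟨nat_lit 6, nat_lit 11088, nat_lit 9936, nat_lit 10032, nat_lit 11136, nat_lit 7920, R9_209, R5_232, R0_165⟩]⟩]⟩,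
 ⟨nat_lit 7, [⟨nat_lit 7, [⟨nat_lit 4, nat_lit 11664, nat_lit 8832, nat_lit 12192, nat_lit 12432, nat_lit 3936, R5_254, R13_259, R3_82⟩, ⟨nat_lit 5, nat_lit 11760, nat_lit 9168, nat_lit 12288, nat_lit 9312, nat_lit 3696, R5_256, R3_194, R10_77⟩, ⟨nat_lit 6, nat_lit 11712, nat_lit 9552, nat_lit 12240, nat_lit 9648, nat_lit 7776, R5_255, R9_201, R0_162⟩]⟩]⟩]], [[], [], [], [], [⟨nat_lit 4, [⟨nat_lit 4, [⟨nat_lit 4, nat_lit 8208, nat_lit 1776, nat_lit 16512, nat_lit 3168, nat_lit 9600, R6_344, R8_66, R6_200⟩, ⟨nat_lit 5, nat_lit 8304, nat_lit 1968, nat_lit 17184, nat_lit 16848, nat_lit 10560, R6_358, R5_351, R4_220⟩, ⟨nat_lit 6, nat_lit 8256, nat_lit 2208, nat_lit 16848, nat_lit 16080, nat_lit 4656, R6_351, R9_335, R8_97⟩]⟩, ⟨nat_lit 7, [⟨nat_lit 4, nat_lit 9552, nat_lit 10176, nat_lit 16896, nat_lit 7872, nat_lit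 21552, R8_352, R8_164, R13_449⟩, ⟨nat_lit 5, nat_lit 9648, nat_lit 10656, nat_lit 17424, nat_lit 16944, nat_lit 17664, R8_363, R5_353, R3_368⟩, ⟨nat_lit 6, nat_lit 9600, nat_lit 11040, nat_lit 17328, nat_lit 16368, nat_lit 17952, R8_361, R9_341, R9_374⟩]⟩]⟩,
 ⟨nat_lit 6, [⟨nat_lit 4, [⟨nat_lit 6, nat_lit 10272, nat_lit 2256, nat_lit 12672, nat_lit 336, nat_lit 5088, R13_264, R0_7, R8_106⟩]⟩, ⟨nat_lit 6, [⟨nat_lit 6, nat_lit 10752, nat_lit 13488, nat_lit 17760, nat_lit 5760, nat_lit 17664, R3_370, R0_120, R5_368⟩]⟩, ⟨nat_lit 7, [⟨nat_lit 6, nat_lit 11136, nat_lit 11088, nat_lit 9936, nat_lit 7920, nat_lit 18000, R9_207, R0_165, R9_375⟩]⟩]⟩,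
 ⟨nat_lit 7, [⟨nat_lit 7, [⟨nat_lit 4, nat_lit 11808, nat_lit 10224, nat_lit 11520, nat_lit 4416, nat_lit 21600, R5_240, R9_92, R13_450⟩, ⟨nat_lit 5, nat_lit 11856, nat_lit 10704, nat_lit 11616, nat_lit 2880, nat_lit 17712, R5_242, R0_60, R3_369⟩, ⟨nat_lit 7, nat_lit 11904, nat_lit 10512, nat_lit 11568, nat_lit 2688, nat_lit 9504, R5_241, R0_56, R3_198⟩]⟩]⟩], [⟨nat_lit 4, [⟨nat_lit 4, [⟨nat_lit 4, nat_lit 8352, nat_lit 10512, nat_lit 16560, nat_lit 3216, nat_lit 576, R6_345, R8_67, R8_12⟩, ⟨nat_lit 5, nat_lit 8448, nat_lit 11232, nat_lit 17232, nat_lit 16896, nat_lit 4704, R6_359, R5_352, R5_98⟩, ⟨nat_lit 6, nat_lit 8400, nat_lit 11760, nat_lit 16896, nat_lit 16224, nat_lit 3888, R6_352, R9_338, R9_81⟩]⟩, ⟨nat_lit 5, [⟨nat_lit 4, nat_lit 8928, nat_lit 10608, nat_lit 15216, nat_lit 10800, nat_lit 6288, R4_317,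 R8_225, R5_131⟩, ⟨nat_lit 5, nat_lit 9024, nat_lit 11328, nat_lit 15504, nat_lit 17088, nat_lit 5904, R4_323, R5_356, R11_123⟩, ⟨nat_lit 6, nat_lit 8976, nat_lit 11808, nat_lit 15360, nat_lit 16752, nat_lit 2352, R4_320, R9_349, R0_49⟩]⟩, ⟨nat_lit 7, [⟨nat_lit 4, nat_lit 9696, nat_lit 10560, nat_lit 16992, nat_lit 7968, nat_lit 6096, R8_354, R8_166, R9_127⟩, ⟨nat_lit 5, nat_lit 9744, nat_lit 11280, nat_lit 17520, nat_lit 17040, nat_lit 3936, R8_365, R5_355, R0_82⟩]⟩]⟩,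
 ⟨nat_lit 6, [⟨nat_lit 4, [⟨nat_lit 6, nat_lit 10320, nat_lit 14496, nat_lit 12816, nat_lit 384, nat_lit 4320, R13_267, R0_8, R9_90⟩]⟩, ⟨nat_lit 5, [⟨nat_lit 6, nat_lit 10560, nat_lit 14544, nat_lit 9552, nat_lit 9984, nat_lit 2784, R3_199, R0_208, R0_58⟩]⟩, ⟨nat_lit 6, [⟨nat_lit 6, nat_lit 10800, nat_lit 14592, nat_lit 17808, nat_lit 5808, nat_lit 3024, R3_371, R0_121, R0_63⟩]⟩]⟩,
 ⟨nat_lit 7, [⟨nat_lit 7, [⟨nat_lit 4, nat_lit 11952, nat_lit 13488, nat_lit 11952, nat_lit 7008, nat_lit 6768, R5_249, R9_146, R9_141⟩, ⟨nat_lit 5, nat_lit 12000, nat_lit 13776, nat_lit 12048, nat_lit 4848, nat_lit 4608, R5_251, R0_101, R0_96⟩, ⟨nat_lit 7, nat_lit 12048, nat_lit 13968, nat_lit 12000, nat_lit 4608, nat_lit 4848, R5_250, R0_96, R0_101⟩]⟩]⟩], [], [⟨nat_lit 4, [⟨nat_lit 7, [⟨nat_lit 4, nat_lit 9792, nat_lit 7248, nat_lit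 16944, nat_lit 7920, nat_lit 2544, R8_353, R8_165, R3_53⟩, ⟨nat_lit 5, nat_lit 9888, nat_lit 7488, nat_lit 17472, nat_lit 16992, nat_lit 5760, R8_364, R5_354, R10_120⟩, ⟨nat_lit 6, nat_lit 9840, nat_lit 7680, nat_lit 17376, nat_lit 16512, nat_lit 9024, R8_362, R9_344, R0_188⟩]⟩]⟩,
 ⟨nat_lit 6, [⟨nat_lit 7, [⟨nat_lit 6, nat_lit 11184, nat_lit 9072, nat_lit 10080, nat_lit 7968, nat_lit 9168, R9_210, R0_166, R0_191⟩]⟩]⟩,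
 ⟨nat_lit 7, [⟨nat_lit 7, [⟨nat_lit 4, nat_lit 12096, nat_lit 8352, nat_lit 12336, nat_lit 5424, nat_lit 7296, R5_257, R9_113, R3_152⟩, ⟨nat_lit 5, nat_lit 12144, nat_lit 8688, nat_lit 12384, nat_lit 3264, nat_lit 6240, R5_258, R0_68, R10_130⟩]⟩]⟩]], [[], [], [], [], [⟨nat_lit 4, [⟨nat_lit 4, [⟨nat_lit 4, nat_lit 8496, nat_lit 2112, nat_lit 16608, nat_lit 144, nat_lit 9360, R6_346, R4_3, R6_195⟩, ⟨nat_lit 6, nat_lit 8544, nat_lit 2496, nat_lit 16944, nat_lit 1536, nat_lit 4608, R6_353, R5_32, R8_96⟩]⟩, ⟨nat_lit 7, [⟨nat_lit 4, nat_lit 9936, nat_lit 8784, nat_lit 18000, nat_lit 5376, nat_lit 20784, R8_375, R4_112, R13_433⟩, ⟨nat_lit 6, nat_lit 9984, nat_lit 9504, nat_lit 18912, nat_lit 9984, nat_lit 17136, R8_394, R5_208, R9_357⟩]⟩]⟩,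
 ⟨nat_lit 6, [⟨nat_lit 4, [⟨nat_lit 6, nat_lit 10368, nat_lit 2544, nat_lit 12720, nat_lit 12000, nat_lit 5040, R13_265, R11_250, R8_105⟩]⟩, ⟨nat_lit 6, [⟨nat_lit 6, nat_lit 10848, nat_lit 11520, nat_lit 17856, nat_lit 12096, nat_lit 17328, R3_372, R11_252, R5_361⟩]⟩, ⟨nat_lit 7, [⟨nat_lit 6, nat_lit 11232, nat_lit 9600, nat_lit 9984, nat_lit 12048, nat_lit 17232, R9_208, R11_251, R9_359⟩]⟩]⟩,
 ⟨nat_lit 7, [⟨nat_lit 7, [⟨nat_lit 4, nat_lit 12192, nat_lit 8832, nat_lit 11664, nat_lit 3936, nat_lit 20832, R5_243, R3_82, R13_434⟩, ⟨nat_lit 6, nat_lit 12240, nat_lit 9552, nat_lit 11712, nat_lit 7776, nat_lit 17184, R5_244, R0_162, R9_358⟩, ⟨nat_lit 7, nat_lit 12288, nat_lit 9168, nat_lit 11760, nat_lit 9648, nat_lit 9312, R5_245, R10_201, R3_194⟩]⟩]⟩], [⟨nat_lit 4, [⟨nat_lit 4, [⟨nat_lit 4, nat_lit 8592, nat_lit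 576, nat_lit 16656, nat_lit 2448, nat_lit 528, R6_347, R4_51, R8_11⟩, ⟨nat_lit 6, nat_lit 8640, nat_lit 960, nat_lit 16992, nat_lit 1728, nat_lit 3840, R6_354, R5_36, R9_80⟩]⟩, ⟨nat_lit 5, [⟨nat_lit 4, nat_lit 9072, nat_lit 5856, nat_lit 15264, nat_lit 11280, nat_lit 5328, R4_318, R4_235, R5_111⟩, ⟨nat_lit 6, nat_lit 9120, nat_lit 6192, nat_lit 15408, nat_lit 13440, nat_lit 2304, R4_321, R5_280, R0_48⟩]⟩, ⟨nat_lit 7, [⟨nat_lit 4, nat_lit 10032, nat_lit 8304, nat_lit 18048, nat_lit 7776, nat_lit 4704, R8_376, R4_162, R9_98⟩]⟩]⟩,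
 ⟨nat_lit 6, [⟨nat_lit 4, [⟨nat_lit 6, nat_lit 10416, nat_lit 1008, nat_lit 12864, nat_lit 14784, nat_lit 4272, R13_268, R11_308, R9_89⟩]⟩, ⟨nat_lit 5, [⟨nat_lit 6, nat_lit 10608, nat_lit 6240, nat_lit 9600, nat_lit 14880, nat_lit 2736, R3_200, R11_310, R0_57⟩]⟩, ⟨nat_lit 6, [⟨nat_lit 6, nat_lit 10896, nat_lit 10320, nat_lit 17904, nat_lit 14832, nat_lit 2976, R3_373, R11_309, R0_62⟩]⟩]⟩,
 ⟨nat_lit 7, [⟨nat_lit 7, [⟨nat_lit 4, nat_lit 12336, nat_lit 8352, nat_lit 12096, nat_lit 7296, nat_lit 5088, R5_252, R3_152, R9_106⟩, ⟨nat_lit 7, nat_lit 12384, nat_lit 8688, nat_lit 12144, nat_lit 11952, nat_lit 3264, R5_253, R10_249, R0_68⟩]⟩]⟩], [⟨nat_lit 2, [⟨nat_lit 6, [⟨nat_lit 2, nat_lit 7872, nat_lit 10176, nat_lit 10272, nat_lit 10080, nat_lit 16080, R2_214, R10_210, R1_335⟩]⟩]⟩,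
 ⟨nat_lit 4, [⟨nat_lit 4, [⟨nat_lit 4, nat_lit 8688, nat_lit 11616, nat_lit 16704, nat_lit 720, nat_lit 1056, R6_348, R4_15, R4_22⟩, ⟨nat_lit 6, nat_lit 8736, nat_lit 14448, nat_lit 17040, nat_lit 1632, nat_lit 48, R6_355, R5_34, R5_1⟩]⟩, ⟨nat_lit 7, [⟨nat_lit 4, nat_lit 10080, nat_lit 11856, nat_lit 18096, nat_lit 7104, nat_lit 4560, R8_377, R4_148, R3_95⟩, ⟨nat_lit 6, nat_lit 10128, nat_lit 14736, nat_lit 18960, nat_lit 10128, nat_lit 14736, R8_395, R5_211, R0_307⟩]⟩]⟩,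
 ⟨nat_lit 6, [⟨nat_lit 4, [⟨nat_lit 6, nat_lit 10464, nat_lit 14592, nat_lit 12912, nat_lit 13056, nat_lit 5088, R13_269, R11_272, R5_106⟩]⟩, ⟨nat_lit 6, [⟨nat_lit 2, nat_lit 10992, nat_lit 10032, nat_lit 17616, nat_lit 8736, nat_lit 16128, R3_367, R1_182, R1_336⟩, ⟨nat_lit 6, nat_lit 10944, nat_lit 15168, nat_lit 17952, nat_lit 13152, nat_lit 22032, R3_374, R11_274, R11_459⟩]⟩, ⟨nat_lit 7, [⟨nat_lit 6, nat_lit 11280, nat_lit 15024, nat_lit 10128, nat_lit 13104, nat_lit 14832, R9_211, R11_273, R0_309⟩]⟩]⟩,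
 ⟨nat_lit 7, [⟨nat_lit 7, [⟨nat_lit 4, nat_lit 12432, nat_lit 12000, nat_lit 12576, nat_lit 5664, nat_lit 5232, R5_262, R3_118, R3_109⟩, ⟨nat_lit 6, nat_lit 12480, nat_lit 14880, nat_lit 12624, nat_lit 8160, nat_lit 14784, R5_263, R0_170, R0_308⟩, ⟨nat_lit 7, nat_lit 12528, nat_lit 14112, nat_lit 12672, nat_lit 10224, nat_lit 19824, R5_264, R10_213, R10_413⟩]⟩]⟩]], [[], [], [], [], [], [], [], [⟨nat_lit 7, [⟨nat_lit 7, [⟨nat_lit 4, nat_lit 12576, nat_lit 12000, nat_lit 12432, nat_lit 5232, nat_lit 5664, R5_259, R3_109, R3_118⟩, ⟨nat_lit 5, nat_lit 12672, nat_lit 14112, nat_lit 12528, nat_lit 4800, nat_lit 4368, R5_261, R10_100, R10_91⟩, ⟨nat_lit 6, nat_lit 12624, nat_lit 14880, nat_lit 12480, nat_lit 14784, nat_lit 8160, R5_260, R0_308, R0_170⟩]⟩]⟩]]], [[], [], [], [], [[], [], [], [⟨nat_lit 4, [⟨nat_lit 3,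 [⟨nat_lit 5, nat_lit 12768, nat_lit 7728, nat_lit 16608, nat_lit 12624, nat_lit 5616, R7_346, R4_263, R11_117⟩]⟩]⟩,
 ⟨nat_lit 7, [⟨nat_lit 0, [⟨nat_lit 5, nat_lit 13632, nat_lit 8880, nat_lit 12576, nat_lit 7920, nat_lit 14928, R7_262, R3_165, R5_311⟩]⟩, ⟨nat_lit 3, [⟨nat_lit 5, nat_lit 13776, nat_lit 8928, nat_lit 7536, nat_lit 7968, nat_lit 5664, R14_157, R3_166, R11_118⟩]⟩]⟩], [], [], [], [⟨nat_lit 4, [⟨nat_lit 3, [⟨nat_lit 4, nat_lit 12816, nat_lit 11136, nat_lit 15888, nat_lit 13056, nat_lit 3168, R7_331, R6_272, R2_66⟩, ⟨nat_lit 5, nat_lit 12864, nat_lit 15168, nat_lit 16560, nat_lit 13152, nat_lit 2640, R7_345, R4_274, R1_55⟩]⟩, ⟨nat_lit 7, [⟨nat_lit 4, nat_lit 13104, nat_lit 11472, nat_lit 14208, nat_lit 13392, nat_lit 192, R4_296, R6_279, R3_4⟩, ⟨nat_lit 5, nat_lit 13200, nat_lit 15264, nat_lit 14592,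 nat_lit 13248, nat_lit 3024, R4_304, R4_276, R10_63⟩, ⟨nat_lit 6, nat_lit 13152, nat_lit 16464, nat_lit 14496, nat_lit 14304, nat_lit 5664, R4_302, R8_298, R0_118⟩]⟩]⟩,
 ⟨nat_lit 6, [⟨nat_lit 7, [⟨nat_lit 6, nat_lit 13488, nat_lit 17760, nat_lit 17664, nat_lit 10752, nat_lit 5760, R5_368, R5_224, R0_120⟩]⟩]⟩,
 ⟨nat_lit 7, [⟨nat_lit 3, [⟨nat_lit 4, nat_lit 13824, nat_lit 12048, nat_lit 7392, nat_lit 11952, nat_lit 3600, R14_154, R13_249, R2_75⟩, ⟨nat_lit 5, nat_lit 13872, nat_lit 15504, nat_lit 7488, nat_lit 9168, nat_lit 3072, R14_156, R3_191, R1_64⟩, ⟨nat_lit 7, nat_lit 13920, nat_lit 14736, nat_lit 7440, nat_lit 14640, nat_lit 15600, R14_155, R3_305, R12_325⟩]⟩]⟩]], [[], [], [], [⟨nat_lit 4, [⟨nat_lit 3, [⟨nat_lit 5, nat_lit 12912, nat_lit 8256, nat_lit 17232, nat_lit 16416, nat_lit 5952, R7_359, R5_342, R11_124⟩]⟩]⟩,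
 ⟨nat_lit 7, [⟨nat_lit 0, [⟨nat_lit 5, nat_lit 13680, nat_lit 9696, nat_lit 12672, nat_lit 5952, nat_lit 15216, R7_264, R0_124, R5_317⟩]⟩, ⟨nat_lit 3, [⟨nat_lit 5, nat_lit 13968, nat_lit 9744, nat_lit 7728, nat_lit 6048, nat_lit 6000, R14_161, R0_126, R11_125⟩]⟩]⟩], [], [], [], [⟨nat_lit 4, [⟨nat_lit 3, [⟨nat_lit 4, nat_lit 12960, nat_lit 8880, nat_lit 16944, nat_lit 14544, nat_lit 6384, R7_353, R8_303, R2_133⟩, ⟨nat_lit 5, nat_lit 13008, nat_lit 9312, nat_lit 17184, nat_lit 16272, nat_lit 5088, R7_358, R5_339, R1_106⟩]⟩, ⟨nat_lit 7, [⟨nat_lit 4, nat_lit 13248, nat_lit 8832, nat_lit 14688, nat_lit 7680, nat_lit 2400, R4_306, R8_160, R3_50⟩, ⟨nat_lit 5, nat_lit 13344, nat_lit 9264, nat_lit 14880, nat_lit 16224, nat_lit 5712, R4_310, R5_338, R10_119⟩, ⟨nat_lit 6, nat_lit 13296, nat_lit 9504, nat_lit 14832, nat_lit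 15456, nat_lit 6960, R4_309, R9_322, R0_145⟩]⟩]⟩,
 ⟨nat_lit 6, [⟨nat_lit 7, [⟨nat_lit 6, nat_lit 13536, nat_lit 11856, nat_lit 17712, nat_lit 7584, nat_lit 7056, R5_369, R0_158, R0_147⟩]⟩]⟩,
 ⟨nat_lit 7, [⟨nat_lit 3, [⟨nat_lit 4, nat_lit 14016, nat_lit 10464, nat_lit 7584, nat_lit 5808, nat_lit 6576, R14_158, R9_121, R2_137⟩, ⟨nat_lit 5, nat_lit 14064, nat_lit 10848, nat_lit 7680, nat_lit 3648, nat_lit 5280, R14_160, R0_76, R1_110⟩, ⟨nat_lit 7, nat_lit 14112, nat_lit 11088, nat_lit 7632, nat_lit 13488, nat_lit 16032, R14_159, R0_281, R12_334⟩]⟩]⟩]], [[], [], [], [], [], [], [], [⟨nat_lit 4, [⟨nat_lit 3, [⟨nat_lit 4, nat_lit 13056, nat_lit 12192, nat_lit 17520, nat_lit 12960, nat_lit 4032, R7_365, R4_270, R2_84⟩]⟩, ⟨nat_lit 7, [⟨nat_lit 4, nat_lit 13392, nat_lit 2208, nat_lit 15072, nat_lit 6480, nat_lit 912,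 R4_314, R4_135, R3_19⟩, ⟨nat_lit 6, nat_lit 13440, nat_lit 2304, nat_lit 15408, nat_lit 9120, nat_lit 6192, R4_321, R5_190, R0_129⟩]⟩]⟩,
 ⟨nat_lit 6, [⟨nat_lit 7, [⟨nat_lit 6, nat_lit 13584, nat_lit 3984, nat_lit 17760, nat_lit 14016, nat_lit 6288, R5_370, R11_292, R0_131⟩]⟩]⟩,
 ⟨nat_lit 7, [⟨nat_lit 3, [⟨nat_lit 4, nat_lit 14160, nat_lit 12768, nat_lit 7824, nat_lit 6672, nat_lit 4464, R14_163, R3_139, R2_93⟩, ⟨nat_lit 7, nat_lit 14208, nat_lit 12912, nat_lit 7872, nat_lit 11232, nat_lit 15792, R14_164, R10_234, R12_329⟩]⟩]⟩]], [[], [], [], [⟨nat_lit 3, [⟨nat_lit 0, [⟨nat_lit 5, nat_lit 12720, nat_lit 1152, nat_lit 11760, nat_lit 6336, nat_lit 16032, R4_245, R1_132, R5_334⟩]⟩]⟩,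
 ⟨nat_lit 7, [⟨nat_lit 0, [⟨nat_lit 5, nat_lit 13728, nat_lit 1056, nat_lit 12624, nat_lit 7440, nat_lit 15120, R7_263, R10_155, R5_315⟩]⟩, ⟨nat_lit 3, [⟨nat_lit 5, nat_lit 14256, nat_lit 1104, nat_lit 7776, nat_lit 7824, nat_lit 5760, R14_162, R10_163, R11_120⟩]⟩]⟩]]], [[], [[⟨nat_lit 5, [⟨nat_lit 0, [⟨nat_lit 5, nat_lit 14400, nat_lit 144, nat_lit 10848, nat_lit 6096, nat_lit 4224, R6_226, R1_127, R4_88⟩]⟩, ⟨nat_lit 1, [⟨nat_lit 5, nat_lit 14544, nat_lit 5088, nat_lit 21072, nat_lit 6192, nat_lit 10608, R13_439, R1_129, R3_221⟩]⟩]⟩], [⟨nat_lit 5, [⟨nat_lit 1, [⟨nat_lit 5, nat_lit 14592, nat_lit 3504, nat_lit 21120, nat_lit 6672, nat_lit 2256, R13_440, R1_139, R10_47⟩]⟩]⟩], [], [⟨nat_lit 5, [⟨nat_lit 0, [⟨nat_lit 5, nat_lit 14448, nat_lit 1536, nat_lit 10896, nat_lit 6288, nat_lit 336, R6_227, R1_131, R5_7⟩]⟩,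 ⟨nat_lit 1, [⟨nat_lit 5, nat_lit 14640, nat_lit 8592, nat_lit 21168, nat_lit 6480, nat_lit 4176, R13_441, R1_135, R0_87⟩]⟩]⟩]], [], [], [], [[⟨nat_lit 4, [⟨nat_lit 1, [⟨nat_lit 5, nat_lit 14304, nat_lit 4704, nat_lit 15744, nat_lit 1296, nat_lit 17376, R6_328, R5_27, R3_362⟩]⟩]⟩,
 ⟨nat_lit 5, [⟨nat_lit 0, [⟨nat_lit 5, nat_lit 14496, nat_lit 48, nat_lit 10800, nat_lit 7632, nat_lit 4368, R6_225, R11_159, R4_91⟩]⟩, ⟨nat_lit 1, [⟨nat_lit 5, nat_lit 14688, nat_lit 5280, nat_lit 21216, nat_lit 8112, nat_lit 17472, R13_442, R11_169, R3_364⟩]⟩]⟩], [⟨nat_lit 4, [⟨nat_lit 1, [⟨nat_lit 5, nat_lit 14352, nat_lit 432, nat_lit 15792, nat_lit 1440, nat_lit 2448, R6_329, R5_30, R10_51⟩]⟩]⟩,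
 ⟨nat_lit 5, [⟨nat_lit 1, [⟨nat_lit 5, nat_lit 14736, nat_lit 4032, nat_lit 21264, nat_lit 9840, nat_lit 2496, R13_443, R11_205, R10_52⟩]⟩]⟩]]], [[[⟨nat_lit 1, [⟨nat_lit 0, [⟨nat_lit 1, nat_lit 14832, nat_lit 13872, nat_lit 12384, nat_lit 12480, nat_lit 12864, R7_258, R2_260, R7_268⟩, ⟨nat_lit 5, nat_lit 14784, nat_lit 5952, nat_lit 12480, nat_lit 1440, nat_lit 11808, R7_260, R3_30, R4_246⟩]⟩, ⟨nat_lit 1, [⟨nat_lit 1, nat_lit 15312, nat_lit 14016, nat_lit 10992, nat_lit 12528, nat_lit 11568, R2_229, R2_261, R2_241⟩, ⟨nat_lit 5, nat_lit 15264, nat_lit 6048, nat_lit 11088, nat_lit 1536, nat_lit 3408, R2_231, R3_32, R3_71⟩]⟩]⟩], [], [⟨nat_lit 1, [⟨nat_lit 0, [⟨nat_lit 1, nat_lit 14880, nat_lit 13152, nat_lit 12720, nat_lit 12864, nat_lit 3648, R7_265, R2_268, R14_76⟩]⟩, ⟨nat_lit 1, [⟨nat_lit 1, nat_lit 15360, nat_lit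 13296, nat_lit 11424, nat_lit 13104, nat_lit 2016, R2_238, R2_273, R12_42⟩]⟩, ⟨nat_lit 2, [⟨nat_lit 1, nat_lit 15840, nat_lit 13440, nat_lit 10368, nat_lit 12960, nat_lit 2208, R2_216, R2_270, R12_46⟩]⟩]⟩], [⟨nat_lit 1, [⟨nat_lit 0, [⟨nat_lit 5, nat_lit 14928, nat_lit 8880, nat_lit 12576, nat_lit 7920, nat_lit 13632, R7_262, R3_165, R5_284⟩]⟩, ⟨nat_lit 1, [⟨nat_lit 5, nat_lit 15408, nat_lit 9360, nat_lit 11280, nat_lit 8064, nat_lit 4080, R2_235, R3_168, R0_85⟩]⟩]⟩]], [[⟨nat_lit 1, [⟨nat_lit 0, [⟨nat_lit 1, nat_lit 15024, nat_lit 17616, nat_lit 12432, nat_lit 13824, nat_lit 13056, R7_259, R1_288, R7_272⟩, ⟨nat_lit 5, nat_lit 14976, nat_lit 17472, nat_lit 12528, nat_lit 15696, nat_lit 11952, R7_261, R10_327, R4_249⟩]⟩, ⟨nat_lit 1, [⟨nat_lit 1, nat_lit 15504, nat_lit 18048, nat_lit 11040, nat_lit 13872, nat_lit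 11712, R2_230, R1_289, R2_244⟩, ⟨nat_lit 5, nat_lit 15456, nat_lit 17808, nat_lit 11136, nat_lit 15888, nat_lit 10896, R2_232, R10_331, R3_227⟩]⟩]⟩,
 ⟨nat_lit 5, [⟨nat_lit 0, [⟨nat_lit 5, nat_lit 15984, nat_lit 17520, nat_lit 11712, nat_lit 6144, nat_lit 12000, R4_244, R1_128, R4_250⟩]⟩, ⟨nat_lit 1, [⟨nat_lit 5, nat_lit 16080, nat_lit 17856, nat_lit 17184, nat_lit 6240, nat_lit 10800, R3_358, R1_130, R3_225⟩]⟩]⟩], [⟨nat_lit 1, [⟨nat_lit 1, [⟨nat_lit 1, nat_lit 15600, nat_lit 15168, nat_lit 11184, nat_lit 15072, nat_lit 12144, R2_233, R1_314, R1_253⟩, ⟨nat_lit 5, nat_lit 15552, nat_lit 14928, nat_lit 11232, nat_lit 18096, nat_lit 12912, R2_234, R10_377, R10_269⟩]⟩]⟩,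
 ⟨nat_lit 5, [⟨nat_lit 1, [⟨nat_lit 5, nat_lit 16128, nat_lit 14976, nat_lit 17232, nat_lit 6720, nat_lit 12960, R3_359, R1_140, R10_270⟩]⟩]⟩], [⟨nat_lit 1, [⟨nat_lit 0, [⟨nat_lit 1, nat_lit 15072, nat_lit 14016, nat_lit 12768, nat_lit 14208, nat_lit 3744, R7_266, R1_296, R14_78⟩]⟩, ⟨nat_lit 1, [⟨nat_lit 1, nat_lit 15648, nat_lit 14160, nat_lit 11472, nat_lit 14448, nat_lit 2112, R2_239, R1_301, R12_44⟩]⟩, ⟨nat_lit 2, [⟨nat_lit 1, nat_lit 15888, nat_lit 14592, nat_lit 10416, nat_lit 14304, nat_lit 2304, R2_217, R1_298, R12_48⟩]⟩]⟩], [⟨nat_lit 1, [⟨nat_lit 0, [⟨nat_lit 5, nat_lit 15120, nat_lit 1056, nat_lit 12624, nat_lit 16560, nat_lit 13728, R7_263, R10_345, R5_286⟩]⟩, ⟨nat_lit 1, [⟨nat_lit 5, nat_lit 15696, nat_lit 8880, nat_lit 11328, nat_lit 16752, nat_lit 4320, R2_236, R10_349, R0_90⟩]⟩]⟩,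
 ⟨nat_lit 5, [⟨nat_lit 0, [⟨nat_lit 5, nat_lit 16032, nat_lit 1152, nat_lit 11760, nat_lit 6336, nat_lit 12720, R4_245, R1_132, R5_265⟩]⟩, ⟨nat_lit 1, [⟨nat_lit 5, nat_lit 16176, nat_lit 9024, nat_lit 17280, nat_lit 6528, nat_lit 4272, R3_360, R1_136, R0_89⟩]⟩]⟩]], [[], [], [⟨nat_lit 1, [⟨nat_lit 0, [⟨nat_lit 1, nat_lit 15168, nat_lit 14496, nat_lit 12816, nat_lit 12384, nat_lit 3696, R7_267, R12_258, R14_77⟩]⟩, ⟨nat_lit 1, [⟨nat_lit 1, nat_lit 15744, nat_lit 14640, nat_lit 11520, nat_lit 12624, nat_lit 2064, R2_240, R12_263, R12_43⟩]⟩, ⟨nat_lit 2, [⟨nat_lit 1, nat_lit 15936, nat_lit 14784, nat_lit 10464, nat_lit 12528, nat_lit 2256, R2_218, R12_261, R12_47⟩]⟩]⟩]], [[], [], [], [⟨nat_lit 1, [⟨nat_lit 0, [⟨nat_lit 5, nat_lit 15216, nat_lit 9696, nat_lit 12672, nat_lit 5952, nat_lit 13680, R7_264, R0_124, R5_285⟩]⟩,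 ⟨nat_lit 1, [⟨nat_lit 5, nat_lit 15792, nat_lit 10176, nat_lit 11376, nat_lit 6000, nat_lit 4128, R2_237, R0_125, R0_86⟩]⟩]⟩]]], [[], [[], [⟨nat_lit 5, [⟨nat_lit 1, [⟨nat_lit 5, nat_lit 16464, nat_lit 2976, nat_lit 10560, nat_lit 6768, nat_lit 8400, R3_220, R1_141, R10_175⟩]⟩, ⟨nat_lit 5, [⟨nat_lit 5, nat_lit 16560, nat_lit 13536, nat_lit 15312, nat_lit 6624, nat_lit 5184, R2_319, R1_138, R1_108⟩]⟩]⟩]], [], [], [], [[], [⟨nat_lit 4, [⟨nat_lit 1, [⟨nat_lit 5, nat_lit 16224, nat_lit 9264, nat_lit 14880, nat_lit 13344, nat_lit 8544, R4_310, R5_278, R10_178⟩]⟩, ⟨nat_lit 5, [⟨nat_lit 5, nat_lit 16272, nat_lit 9312, nat_lit 17184, nat_lit 13008, nat_lit 5088, R7_358, R5_271, R1_106⟩]⟩]⟩,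
 ⟨nat_lit 5, [⟨nat_lit 1, [⟨nat_lit 5, nat_lit 16512, nat_lit 9360, nat_lit 10512, nat_lit 9936, nat_lit 8592, R3_219, R11_207, R10_179⟩]⟩, ⟨nat_lit 5, [⟨nat_lit 5, nat_lit 16608, nat_lit 9408, nat_lit 15456, nat_lit 9168, nat_lit 5136, R2_322, R11_191, R1_107⟩]⟩]⟩], [], [], [], [⟨nat_lit 4, [⟨nat_lit 5, [⟨nat_lit 4, nat_lit 16320, nat_lit 8208, nat_lit 17088, nat_lit 10704, nat_lit 6336, R7_356, R8_223, R5_132⟩, ⟨nat_lit 5, nat_lit 16416, nat_lit 8256, nat_lit 17232, nat_lit 12912, nat_lit 5952, R7_359, R5_269, R11_124⟩, ⟨nat_lit 6, nat_lit 16368, nat_lit 8304, nat_lit 17136, nat_lit 11136, nat_lit 12288, R7_357, R9_232, R0_256⟩]⟩]⟩,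
 ⟨nat_lit 5, [⟨nat_lit 5, [⟨nat_lit 4, nat_lit 16656, nat_lit 8352, nat_lit 15360, nat_lit 7488, nat_lit 7200, R2_320, R5_156, R5_150⟩, ⟨nat_lit 5, nat_lit 16752, nat_lit 8400, nat_lit 15504, nat_lit 7104, nat_lit 6816, R2_323, R11_148, R11_142⟩, ⟨nat_lit 6, nat_lit 16704, nat_lit 8448, nat_lit 15408, nat_lit 9648, nat_lit 12672, R2_321, R0_201, R0_264⟩]⟩]⟩,
 ⟨nat_lit 6, [⟨nat_lit 5, [⟨nat_lit 6, nat_lit 16800, nat_lit 8496, nat_lit 15696, nat_lit 9840, nat_lit 12576, R2_327, R0_205, R0_262⟩]⟩]⟩]]], [[], [[], [], [], [⟨nat_lit 5, [⟨nat_lit 0, [⟨nat_lit 5, nat_lit 17136, nat_lit 1008, nat_lit 10944, nat_lit 6384, nat_lit 6528, R8_228, R1_133, R5_136⟩]⟩, ⟨nat_lit 1, [⟨nat_lit 5, nat_lit 17280, nat_lit 9408, nat_lit 17520, nat_lit 6576, nat_lit 4224, R9_365, R1_137, R0_88⟩]⟩, ⟨nat_lit 3, [⟨nat_lit 5, nat_lit 17472,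 nat_lit 6432, nat_lit 17472, nat_lit 6432, nat_lit 6144, R5_364, R1_134, R11_128⟩]⟩]⟩]], [], [], [], [[⟨nat_lit 4, [⟨nat_lit 0, [⟨nat_lit 5, nat_lit 16848, nat_lit 1968, nat_lit 17184, nat_lit 8304, nat_lit 10560, R6_358, R5_173, R4_220⟩]⟩, ⟨nat_lit 1, [⟨nat_lit 5, nat_lit 16944, nat_lit 10656, nat_lit 17424, nat_lit 9648, nat_lit 17664, R8_363, R5_201, R3_368⟩]⟩]⟩,
 ⟨nat_lit 5, [⟨nat_lit 0, [⟨nat_lit 5, nat_lit 17184, nat_lit 2064, nat_lit 10848, nat_lit 7680, nat_lit 10656, R8_226, R11_160, R4_222⟩]⟩, ⟨nat_lit 1, [⟨nat_lit 5, nat_lit 17328, nat_lit 10848, nat_lit 17568, nat_lit 8160, nat_lit 17856, R9_366, R11_170, R3_372⟩]⟩]⟩,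
 ⟨nat_lit 7, [⟨nat_lit 0, [⟨nat_lit 5, nat_lit 17568, nat_lit 2016, nat_lit 10944, nat_lit 5616, nat_lit 10608, R4_228, R0_117, R4_221⟩]⟩, ⟨nat_lit 1, [⟨nat_lit 5, nat_lit 17664, nat_lit 10752, nat_lit 13488, nat_lit 5760, nat_lit 17760, R5_281, R0_120, R3_370⟩]⟩]⟩], [⟨nat_lit 4, [⟨nat_lit 1, [⟨nat_lit 5, nat_lit 16992, nat_lit 7488, nat_lit 17472, nat_lit 9888, nat_lit 11808, R8_364, R5_206, R10_246⟩]⟩]⟩,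
 ⟨nat_lit 5, [⟨nat_lit 1, [⟨nat_lit 5, nat_lit 17376, nat_lit 7536, nat_lit 17616, nat_lit 9888, nat_lit 11904, R9_367, R11_206, R10_248⟩]⟩]⟩,
 ⟨nat_lit 7, [⟨nat_lit 1, [⟨nat_lit 5, nat_lit 17712, nat_lit 7584, nat_lit 13536, nat_lit 7056, nat_lit 11856, R5_282, R0_147, R10_247⟩]⟩]⟩], [], [⟨nat_lit 4, [⟨nat_lit 0, [⟨nat_lit 5, nat_lit 16896, nat_lit 11232, nat_lit 17232, nat_lit 8448, nat_lit 4704, R6_359, R5_176, R5_98⟩]⟩, ⟨nat_lit 1, [⟨nat_lit 5, nat_lit 17040, nat_lit 11280, nat_lit 17520, nat_lit 9744, nat_lit 3936, R8_365, R5_203, R0_82⟩]⟩, ⟨nat_lit 3, [⟨nat_lit 5, nat_lit 17088, nat_lit 11328, nat_lit 15504, nat_lit 9024, nat_lit 5904, R4_323, R5_188, R11_123⟩]⟩]⟩,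
 ⟨nat_lit 5, [⟨nat_lit 0, [⟨nat_lit 5, nat_lit 17232, nat_lit 11376, nat_lit 10896, nat_lit 8448, nat_lit 6432, R8_227, R11_176, R5_134⟩]⟩, ⟨nat_lit 1, [⟨nat_lit 5, nat_lit 17424, nat_lit 11424, nat_lit 17664, nat_lit 8832, nat_lit 4032, R9_368, R11_184, R0_84⟩]⟩, ⟨nat_lit 3, [⟨nat_lit 5, nat_lit 17520, nat_lit 11472, nat_lit 17520, nat_lit 8592, nat_lit 6048, R5_365, R11_179, R11_126⟩]⟩]⟩,
 ⟨nat_lit 7, [⟨nat_lit 0, [⟨nat_lit 5, nat_lit 17616, nat_lit 11520, nat_lit 11328, nat_lit 5904, nat_lit 5376, R4_236, R0_123, R5_112⟩]⟩, ⟨nat_lit 1, [⟨nat_lit 5, nat_lit 17760, nat_lit 11568, nat_lit 13584, nat_lit 6288, nat_lit 3984, R5_283, R0_131, R0_83⟩]⟩]⟩]]]]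
noncomputable def N1077 : T3 (List N0) := [[[], [], [], [], [[], [], [], [], [⟨nat_lit 2, [⟨nat_lit 2, [⟨nat_lit 0, nat_lit 4320, nat_lit 16032, nat_lit 6768, nat_lit 1008, nat_lit 672, R4_141, R4_21, R4_14⟩, ⟨nat_lit 3, nat_lit 4512, nat_lit 16272, nat_lit 6816, nat_lit 0, nat_lit 1584, R4_142, R5_0, R5_33⟩]⟩, ⟨nat_lit 6, [⟨nat_lit 0, nat_lit 12336, nat_lit 11040, nat_lit 6576, nat_lit 1584, nat_lit 768, R7_137, R4_33, R7_16⟩]⟩]⟩,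
 ⟨nat_lit 4, [⟨nat_lit 7, [⟨nat_lit 6, nat_lit 16032, nat_lit 4752, nat_lit 4464, nat_lit 12144, nat_lit 1008, R6_93, R4_253, R5_21⟩]⟩]⟩,
 ⟨nat_lit 6, [⟨nat_lit 4, [⟨nat_lit 2, nat_lit 11568, nat_lit 2400, nat_lit 9024, nat_lit 4320, nat_lit 240, R6_188, R14_90, R7_5⟩]⟩, ⟨nat_lit 6, [⟨nat_lit 0, nat_lit 13584, nat_lit 9936, nat_lit 9648, nat_lit 1680, nat_lit 1296, R4_201, R7_35, R7_27⟩, ⟨nat_lit 2, nat_lit 13872, nat_lit 10128, nat_lit 9696, nat_lit 4368, nat_lit 18528, R4_202, R14_91, R14_386⟩]⟩]⟩,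
 ⟨nat_lit 7, [⟨nat_lit 7, [⟨nat_lit 6, nat_lit 17376, nat_lit 5904, nat_lit 4704, nat_lit 14304, nat_lit 1296, R4_98, R5_298, R5_27⟩]⟩]⟩], [], [], [⟨nat_lit 2, [⟨nat_lit 2, [⟨nat_lit 3, nat_lit 4656, nat_lit 4416, nat_lit 6864, nat_lit 5040, nat_lit 1488, R4_143, R5_105, R11_31⟩]⟩, ⟨nat_lit 6, [⟨nat_lit 0, nat_lit 12480, nat_lit 4128, nat_lit 6624, nat_lit 8304, nat_lit 1968, R7_138, R4_173, R2_41⟩, ⟨nat_lit 3, nat_lit 12624, nat_lit 4176, nat_lit 6672, nat_lit 4992, nat_lit 1440, R7_139, R5_104, R1_30⟩]⟩]⟩,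
 ⟨nat_lit 4, [⟨nat_lit 7, [⟨nat_lit 2, nat_lit 15888, nat_lit 432, nat_lit 4944, nat_lit 13344, nat_lit 48, R6_103, R7_278, R1_1⟩, ⟨nat_lit 6, nat_lit 16128, nat_lit 480, nat_lit 4896, nat_lit 12192, nat_lit 576, R6_102, R4_254, R11_12⟩]⟩]⟩,
 ⟨nat_lit 6, [⟨nat_lit 4, [⟨nat_lit 2, nat_lit 11712, nat_lit 1824, nat_lit 9168, nat_lit 4656, nat_lit 1248, R6_191, R14_97, R2_26⟩]⟩, ⟨nat_lit 6, [⟨nat_lit 0, nat_lit 13728, nat_lit 2400, nat_lit 9888, nat_lit 8304, nat_lit 144, R4_206, R7_173, R2_3⟩, ⟨nat_lit 2, nat_lit 14064, nat_lit 2448, nat_lit 9936, nat_lit 4752, nat_lit 432, R4_207, R14_99, R12_9⟩]⟩, ⟨nat_lit 7, [⟨nat_lit 2, nat_lit 16848, nat_lit 2256, nat_lit 4848, nat_lit 4704, nat_lit 720, R8_101, R14_98, R1_15⟩]⟩]⟩,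
 ⟨nat_lit 7, [⟨nat_lit 3, [⟨nat_lit 6, nat_lit 10608, nat_lit 1632, nat_lit 5088, nat_lit 14544, nat_lit 6192, R7_106, R5_303, R1_129⟩]⟩, ⟨nat_lit 7, [⟨nat_lit 6, nat_lit 17472, nat_lit 960, nat_lit 5280, nat_lit 14688, nat_lit 864, R4_110, R5_306, R11_18⟩]⟩]⟩]], [[], [], [], [], [⟨nat_lit 4, [⟨nat_lit 7, [⟨nat_lit 6, nat_lit 16080, nat_lit 5088, nat_lit 5616, nat_lit 8544, nat_lit 3360, R6_117, R3_178, R5_70⟩]⟩]⟩,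
 ⟨nat_lit 6, [⟨nat_lit 4, [⟨nat_lit 2, nat_lit 11616, nat_lit 2304, nat_lit 9072, nat_lit 2688, nat_lit 480, R6_189, R12_56, R7_10⟩]⟩, ⟨nat_lit 6, [⟨nat_lit 2, nat_lit 13920, nat_lit 11184, nat_lit 9744, nat_lit 2736, nat_lit 19440, R4_203, R12_57, R14_405⟩]⟩]⟩], [], [], [⟨nat_lit 4, [⟨nat_lit 7, [⟨nat_lit 2, nat_lit 15936, nat_lit 624, nat_lit 6288, nat_lit 11904, nat_lit 192, R6_131, R2_248, R1_4⟩, ⟨nat_lit 6, nat_lit 16176, nat_lit 672, nat_lit 6240, nat_lit 8592, nat_lit 3360, R6_130, R3_179, R11_70⟩]⟩]⟩,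
 ⟨nat_lit 6, [⟨nat_lit 4, [⟨nat_lit 2, nat_lit 11760, nat_lit 2208, nat_lit 9216, nat_lit 3024, nat_lit 1824, R6_192, R12_63, R2_38⟩]⟩, ⟨nat_lit 6, [⟨nat_lit 2, nat_lit 14112, nat_lit 2880, nat_lit 9984, nat_lit 3120, nat_lit 2496, R4_208, R12_65, R12_52⟩]⟩, ⟨nat_lit 7, [⟨nat_lit 2, nat_lit 16896, nat_lit 2736, nat_lit 5760, nat_lit 3072, nat_lit 1296, R8_120, R12_64, R1_27⟩]⟩]⟩]], [[], [], [], [], [⟨nat_lit 2, [⟨nat_lit 2, [⟨nat_lit 0, nat_lit 4368, nat_lit 17856, nat_lit 7056, nat_lit 4368, nat_lit 7056, R4_147, R3_91, R4_147⟩]⟩, ⟨nat_lit 6, [⟨nat_lit 0, nat_lit 12384, nat_lit 11136, nat_lit 6768, nat_lit 12384, nat_lit 6768, R7_141, R3_258, R7_141⟩]⟩]⟩,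
 ⟨nat_lit 6, [⟨nat_lit 4, [⟨nat_lit 2, nat_lit 11664, nat_lit 3840, nat_lit 9120, nat_lit 6864, nat_lit 336, R6_190, R12_143, R7_7⟩]⟩, ⟨nat_lit 6, [⟨nat_lit 0, nat_lit 13632, nat_lit 11184, nat_lit 9792, nat_lit 240, nat_lit 7296, R4_204, R2_5, R7_152⟩, ⟨nat_lit 2, nat_lit 13968, nat_lit 11808, nat_lit 9840, nat_lit 6912, nat_lit 19008, R4_205, R12_144, R14_396⟩]⟩]⟩], [], [⟨nat_lit 2, [⟨nat_lit 2, [⟨nat_lit 0, nat_lit 4416, nat_lit 4224, nat_lit 7200, nat_lit 4944, nat_lit 5520, R4_150, R3_103, R3_115⟩, ⟨nat_lit 1, nat_lit 4464, nat_lit 4320, nat_lit 7296, nat_lit 14256, nat_lit 816, R4_152, R10_297, R10_17⟩]⟩, ⟨nat_lit 6, [⟨nat_lit 0, nat_lit 12432, nat_lit 3168, nat_lit 6912, nat_lit 13152, nat_lit 4944, R7_144, R3_274, R2_103⟩, ⟨nat_lit 1, nat_lit 12576, nat_lit 3216, nat_lit 6960, nat_lit 14112, nat_lit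 3648, R7_145, R10_294, R1_76⟩]⟩]⟩,
 ⟨nat_lit 6, [⟨nat_lit 6, [⟨nat_lit 0, nat_lit 13680, nat_lit 768, nat_lit 10272, nat_lit 5952, nat_lit 5520, R4_214, R2_124, R2_115⟩, ⟨nat_lit 1, nat_lit 14256, nat_lit 816, nat_lit 10368, nat_lit 4656, nat_lit 4224, R4_216, R1_97, R1_88⟩, ⟨nat_lit 2, nat_lit 14016, nat_lit 864, nat_lit 10320, nat_lit 7776, nat_lit 15888, R4_215, R12_162, R12_331⟩]⟩]⟩], [⟨nat_lit 2, [⟨nat_lit 6, [⟨nat_lit 0, nat_lit 12528, nat_lit 3360, nat_lit 6816, nat_lit 12816, nat_lit 9744, R7_142, R3_267, R2_203⟩, ⟨nat_lit 3, nat_lit 12672, nat_lit 3408, nat_lit 6864, nat_lit 11760, nat_lit 10560, R7_143, R0_245, R1_220⟩]⟩]⟩,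
 ⟨nat_lit 6, [⟨nat_lit 4, [⟨nat_lit 2, nat_lit 11808, nat_lit 1056, nat_lit 9312, nat_lit 8352, nat_lit 1632, R6_194, R12_174, R2_34⟩]⟩, ⟨nat_lit 6, [⟨nat_lit 0, nat_lit 13776, nat_lit 1728, nat_lit 10176, nat_lit 7248, nat_lit 7152, R4_212, R2_151, R2_149⟩, ⟨nat_lit 2, nat_lit 14160, nat_lit 1776, nat_lit 10224, nat_lit 8448, nat_lit 1584, R4_213, R12_176, R12_33⟩]⟩, ⟨nat_lit 7, [⟨nat_lit 2, nat_lit 16944, nat_lit 1488, nat_lit 6480, nat_lit 8400, nat_lit 1104, R8_135, R12_175, R1_23⟩]⟩]⟩]], [[], [], [], [⟨nat_lit 0, [⟨nat_lit 2, [⟨nat_lit 7, nat_lit 3696, nat_lit 1056, nat_lit 6720, nat_lit 12240, nat_lit 240, R6_140, R2_255, R10_5⟩]⟩]⟩,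
 ⟨nat_lit 2, [⟨nat_lit 2, [⟨nat_lit 7, nat_lit 4848, nat_lit 3072, nat_lit 7008, nat_lit 12816, nat_lit 768, R4_146, R1_267, R10_16⟩]⟩]⟩,
 ⟨nat_lit 3, [⟨nat_lit 0, [⟨nat_lit 4, nat_lit 2064, nat_lit 1776, nat_lit 7872, nat_lit 3360, nat_lit 2928, R6_164, R2_70, R13_61⟩, ⟨nat_lit 6, nat_lit 2112, nat_lit 1872, nat_lit 7968, nat_lit 2832, nat_lit 3120, R6_166, R1_59, R3_65⟩, ⟨nat_lit 7, nat_lit 2208, nat_lit 1824, nat_lit 7920, nat_lit 13056, nat_lit 11760, R6_165, R12_272, R3_245⟩]⟩, ⟨nat_lit 2, [⟨nat_lit 4, nat_lit 7008, nat_lit 2832, nat_lit 6048, nat_lit 4224, nat_lit 6480, R8_126, R2_88, R3_135⟩, ⟨nat_lit 7, nat_lit 7104, nat_lit 2880, nat_lit 6096, nat_lit 13296, nat_lit 1104, R8_127, R12_277, R10_23⟩]⟩, ⟨nat_lit 3, [⟨nat_lit 4, nat_lit 9696, nat_lit 2304, nat_lit 8352, nat_lit 4800, nat_lit 13248, R4_174,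 R2_100, R3_276⟩, ⟨nat_lit 6, nat_lit 9792, nat_lit 2352, nat_lit 8400, nat_lit 3504, nat_lit 5280, R4_175, R1_73, R10_110⟩]⟩]⟩,
 ⟨nat_lit 7, [⟨nat_lit 3, [⟨nat_lit 6, nat_lit 10752, nat_lit 624, nat_lit 7152, nat_lit 17520, nat_lit 7680, R7_149, R11_365, R10_160⟩]⟩]⟩], [], [], [], [⟨nat_lit 0, [⟨nat_lit 2, [⟨nat_lit 7, nat_lit 3648, nat_lit 15984, nat_lit 6672, nat_lit 12288, nat_lit 144, R6_139, R2_256, R1_3⟩]⟩]⟩,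
 ⟨nat_lit 2, [⟨nat_lit 2, [⟨nat_lit 3, nat_lit 4752, nat_lit 17568, nat_lit 6912, nat_lit 18192, nat_lit 1584, R4_144, R11_379, R11_33⟩, ⟨nat_lit 7, nat_lit 4800, nat_lit 17328, nat_lit 6960, nat_lit 12864, nat_lit 480, R4_145, R1_268, R1_10⟩]⟩, ⟨nat_lit 6, [⟨nat_lit 3, nat_lit 12720, nat_lit 10704, nat_lit 6720, nat_lit 18048, nat_lit 6864, R7_140, R11_376, R1_143⟩]⟩]⟩,
 ⟨nat_lit 3, [⟨nat_lit 0, [⟨nat_lit 7, nat_lit 2160, nat_lit 11856, nat_lit 9264, nat_lit 13008, nat_lit 1344, R6_193, R12_271, R2_28⟩]⟩, ⟨nat_lit 2, [⟨nat_lit 7, nat_lit 7056, nat_lit 16992, nat_lit 6000, nat_lit 13248, nat_lit 816, R8_125, R12_276, R1_17⟩]⟩, ⟨nat_lit 3, [⟨nat_lit 4, nat_lit 9648, nat_lit 13824, nat_lit 10032, nat_lit 5280, nat_lit 5856, R4_209, R2_110, R2_122⟩, ⟨nat_lit 6, nat_lit 9744, nat_lit 14304, nat_lit 10128, nat_lit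 3984, nat_lit 4560, R4_211, R1_83, R1_95⟩, ⟨nat_lit 7, nat_lit 9840, nat_lit 14208, nat_lit 10080, nat_lit 13488, nat_lit 624, R4_210, R12_281, R12_13⟩]⟩]⟩,
 ⟨nat_lit 4, [⟨nat_lit 7, [⟨nat_lit 2, nat_lit 15984, nat_lit 3648, nat_lit 6672, nat_lit 12288, nat_lit 144, R6_139, R2_256, R1_3⟩]⟩]⟩,
 ⟨nat_lit 6, [⟨nat_lit 4, [⟨nat_lit 2, nat_lit 11856, nat_lit 2160, nat_lit 9264, nat_lit 13008, nat_lit 1344, R6_193, R12_271, R2_28⟩]⟩, ⟨nat_lit 6, [⟨nat_lit 0, nat_lit 13824, nat_lit 9648, nat_lit 10032, nat_lit 5280, nat_lit 5856, R4_209, R2_110, R2_122⟩, ⟨nat_lit 2, nat_lit 14208, nat_lit 9840, nat_lit 10080, nat_lit 13488, nat_lit 624, R4_210, R12_281, R12_13⟩, ⟨nat_lit 3, nat_lit 14304, nat_lit 9744, nat_lit 10128, nat_lit 3984, nat_lit 4560, R4_211, R1_83, R1_95⟩]⟩, ⟨nat_lit 7, [⟨nat_lit 2, nat_lit 16992, nat_lit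 7056, nat_lit 6000, nat_lit 13248, nat_lit 816, R8_125, R12_276, R1_17⟩]⟩]⟩,
 ⟨nat_lit 7, [⟨nat_lit 3, [⟨nat_lit 6, nat_lit 10704, nat_lit 12720, nat_lit 6720, nat_lit 18048, nat_lit 6864, R7_140, R11_376, R1_143⟩]⟩, ⟨nat_lit 7, [⟨nat_lit 2, nat_lit 17328, nat_lit 4800, nat_lit 6960, nat_lit 12864, nat_lit 480, R4_145, R1_268, R1_10⟩, ⟨nat_lit 6, nat_lit 17568, nat_lit 4752, nat_lit 6912, nat_lit 18192, nat_lit 1584, R4_144, R11_379, R11_33⟩]⟩]⟩]]], [[[⟨nat_lit 0, [⟨nat_lit 0, [⟨nat_lit 4, nat_lit 0, nat_lit 1872, nat_lit 5952, nat_lit 8256, nat_lit 14448, R6_124, R6_172, R6_301⟩, ⟨nat_lit 5, nat_lit 288, nat_lit 7392, nat_lit 6384, nat_lit 5136, nat_lit 17664, R6_133, R8_107, R8_368⟩, ⟨nat_lit 6, nat_lit 144, nat_lit 10800, nat_lit 6096, nat_lit 8688, nat_lit 14112, R6_127, R4_181, R4_294⟩]⟩, ⟨nat_lit 2, [⟨nat_lit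 4, nat_lit 3744, nat_lit 2064, nat_lit 7200, nat_lit 8592, nat_lit 240, R13_150, R6_179, R4_5⟩, ⟨nat_lit 5, nat_lit 3888, nat_lit 7584, nat_lit 7248, nat_lit 5184, nat_lit 3840, R13_151, R8_108, R5_80⟩]⟩]⟩,
 ⟨nat_lit 1, [⟨nat_lit 0, [⟨nat_lit 4, nat_lit 720, nat_lit 2400, nat_lit 6288, nat_lit 768, nat_lit 15984, R4_131, R8_16, R6_333⟩, ⟨nat_lit 5, nat_lit 1008, nat_lit 7728, nat_lit 6624, nat_lit 4608, nat_lit 17808, R4_138, R9_96, R8_371⟩, ⟨nat_lit 6, nat_lit 864, nat_lit 11232, nat_lit 6432, nat_lit 5136, nat_lit 14976, R4_134, R5_107, R4_312⟩]⟩, ⟨nat_lit 2, [⟨nat_lit 4, nat_lit 6048, nat_lit 2544, nat_lit 6048, nat_lit 864, nat_lit 2544, R3_126, R8_18, R4_53⟩, ⟨nat_lit 5, nat_lit 6192, nat_lit 7872, nat_lit 6096, nat_lit 4656, nat_lit 4128, R3_127, R9_97, R5_86⟩]⟩]⟩,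
 ⟨nat_lit 2, [⟨nat_lit 2, [⟨nat_lit 4, nat_lit 5472, nat_lit 2784, nat_lit 4896, nat_lit 1104, nat_lit 816, R3_102, R4_23, R4_17⟩, ⟨nat_lit 5, nat_lit 5616, nat_lit 7968, nat_lit 5184, nat_lit 96, nat_lit 3984, R3_108, R5_2, R5_83⟩]⟩]⟩], [], [⟨nat_lit 0, [⟨nat_lit 0, [⟨nat_lit 5, nat_lit 384, nat_lit 2256, nat_lit 6528, nat_lit 5472, nat_lit 1344, R6_136, R8_114, R5_28⟩]⟩, ⟨nat_lit 2, [⟨nat_lit 5, nat_lit 3984, nat_lit 2352, nat_lit 7296, nat_lit 5520, nat_lit 912, R13_152, R8_115, R11_19⟩]⟩]⟩,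
 ⟨nat_lit 1, [⟨nat_lit 0, [⟨nat_lit 5, nat_lit 1056, nat_lit 7152, nat_lit 6672, nat_lit 4848, nat_lit 3744, R4_139, R9_101, R5_78⟩]⟩, ⟨nat_lit 2, [⟨nat_lit 5, nat_lit 6240, nat_lit 7248, nat_lit 6144, nat_lit 4896, nat_lit 3744, R3_128, R9_102, R11_78⟩]⟩]⟩,
 ⟨nat_lit 2, [⟨nat_lit 2, [⟨nat_lit 5, nat_lit 5712, nat_lit 9984, nat_lit 5328, nat_lit 5760, nat_lit 1632, R3_111, R5_120, R11_34⟩]⟩]⟩]], [], [[], [], [⟨nat_lit 0, [⟨nat_lit 0, [⟨nat_lit 5, nat_lit 432, nat_lit 2448, nat_lit 6624, nat_lit 14352, nat_lit 1440, R6_138, R5_299, R5_30⟩]⟩, ⟨nat_lit 2, [⟨nat_lit 5, nat_lit 4032, nat_lit 2496, nat_lit 7632, nat_lit 14736, nat_lit 1008, R13_159, R5_307, R11_21⟩]⟩]⟩,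
 ⟨nat_lit 1, [⟨nat_lit 0, [⟨nat_lit 5, nat_lit 1104, nat_lit 2544, nat_lit 6720, nat_lit 3216, nat_lit 3792, R4_140, R0_67, R5_79⟩]⟩, ⟨nat_lit 2, [⟨nat_lit 5, nat_lit 6288, nat_lit 2592, nat_lit 6336, nat_lit 3312, nat_lit 3792, R3_132, R0_69, R11_79⟩]⟩]⟩,
 ⟨nat_lit 2, [⟨nat_lit 2, [⟨nat_lit 1, nat_lit 5136, nat_lit 2688, nat_lit 5904, nat_lit 13008, nat_lit 528, R3_123, R1_271, R1_11⟩, ⟨nat_lit 5, nat_lit 5760, nat_lit 2640, nat_lit 5424, nat_lit 18240, nat_lit 1728, R3_113, R11_380, R11_36⟩]⟩]⟩], [], [], [], [⟨nat_lit 2, [⟨nat_lit 2, [⟨nat_lit 1, nat_lit 5088, nat_lit 2544, nat_lit 5952, nat_lit 12960, nat_lit 912, R3_124, R1_270, R10_19⟩]⟩, ⟨nat_lit 6, [⟨nat_lit 1, nat_lit 13392, nat_lit 2496, nat_lit 5184, nat_lit 12912, nat_lit 15456, R2_108, R1_269, R1_322⟩]⟩]⟩]], [[⟨nat_lit 0, [⟨nat_lit 0, [⟨nat_lit 4,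 nat_lit 48, nat_lit 1056, nat_lit 6000, nat_lit 15216, nat_lit 14640, R6_125, R13_317, R6_305⟩, ⟨nat_lit 5, nat_lit 336, nat_lit 9408, nat_lit 6432, nat_lit 13248, nat_lit 18384, R6_134, R9_276, R8_383⟩, ⟨nat_lit 6, nat_lit 192, nat_lit 13104, nat_lit 6144, nat_lit 11472, nat_lit 14208, R6_128, R3_239, R4_296⟩]⟩, ⟨nat_lit 2, [⟨nat_lit 4, nat_lit 3792, nat_lit 3456, nat_lit 7344, nat_lit 16176, nat_lit 5472, R13_153, R13_337, R4_114⟩, ⟨nat_lit 5, nat_lit 3936, nat_lit 11664, nat_lit 7392, nat_lit 13872, nat_lit 12192, R13_154, R9_289, R5_254⟩]⟩]⟩,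
 ⟨nat_lit 1, [⟨nat_lit 0, [⟨nat_lit 4, nat_lit 768, nat_lit 1680, nat_lit 6336, nat_lit 3744, nat_lit 16224, R4_132, R9_78, R6_338⟩, ⟨nat_lit 6, nat_lit 912, nat_lit 13392, nat_lit 6480, nat_lit 2208, nat_lit 15072, R4_135, R0_46, R4_314⟩]⟩, ⟨nat_lit 2, [⟨nat_lit 4, nat_lit 6096, nat_lit 4128, nat_lit 6192, nat_lit 4656, nat_lit 7872, R3_129, R9_97, R4_164⟩]⟩]⟩,
 ⟨nat_lit 2, [⟨nat_lit 2, [⟨nat_lit 4, nat_lit 5520, nat_lit 4224, nat_lit 4944, nat_lit 4416, nat_lit 7200, R3_103, R3_92, R4_150⟩, ⟨nat_lit 5, nat_lit 5664, nat_lit 12576, nat_lit 5232, nat_lit 12000, nat_lit 12432, R3_109, R0_250, R5_259⟩]⟩]⟩,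
 ⟨nat_lit 3, [⟨nat_lit 0, [⟨nat_lit 4, nat_lit 2256, nat_lit 1344, nat_lit 7584, nat_lit 384, nat_lit 15408, R8_158, R3_8, R6_321⟩, ⟨nat_lit 5, nat_lit 2544, nat_lit 9792, nat_lit 7920, nat_lit 7248, nat_lit 18528, R8_165, R0_151, R8_386⟩, ⟨nat_lit 6, nat_lit 2400, nat_lit 13248, nat_lit 7680, nat_lit 2880, nat_lit 14688, R8_160, R10_60, R4_306⟩]⟩, ⟨nat_lit 2, [⟨nat_lit 4, nat_lit 7152, nat_lit 3744, nat_lit 5376, nat_lit 1056, nat_lit 6672, R9_112, R3_22, R4_139⟩, ⟨nat_lit 5, nat_lit 7296, nat_lit 12096, nat_lit 5424, nat_lit 8352, nat_lit 12336, R9_113, R0_174, R5_257⟩]⟩]⟩], [], [⟨nat_lit 0, [⟨nat_lit 0, [⟨nat_lit 5, nat_lit 480, nat_lit 1920, nat_lit 6576, nat_lit 13344, nat_lit 1392, R6_137, R9_278, R5_29⟩]⟩, ⟨nat_lit 2, [⟨nat_lit 5, nat_lit 4080, nat_lit 1968, nat_lit 7584, nat_lit 13968, nat_lit 960, R13_158,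 R9_291, R11_20⟩]⟩]⟩,
 ⟨nat_lit 2, [⟨nat_lit 2, [⟨nat_lit 5, nat_lit 5808, nat_lit 2112, nat_lit 5376, nat_lit 12096, nat_lit 1680, R3_112, R0_252, R11_35⟩]⟩]⟩,
 ⟨nat_lit 3, [⟨nat_lit 0, [⟨nat_lit 5, nat_lit 2592, nat_lit 2016, nat_lit 9216, nat_lit 7440, nat_lit 2352, R8_192, R0_155, R5_49⟩]⟩, ⟨nat_lit 2, [⟨nat_lit 5, nat_lit 7344, nat_lit 2064, nat_lit 5568, nat_lit 8592, nat_lit 2352, R9_116, R0_179, R11_49⟩]⟩]⟩], [⟨nat_lit 0, [⟨nat_lit 0, [⟨nat_lit 4, nat_lit 96, nat_lit 3264, nat_lit 6048, nat_lit 15264, nat_lit 2640, R6_126, R13_318, R13_55⟩, ⟨nat_lit 5, nat_lit 528, nat_lit 3312, nat_lit 6480, nat_lit 13296, nat_lit 1968, R6_135, R9_277, R9_41⟩, ⟨nat_lit 6, nat_lit 240, nat_lit 3408, nat_lit 6192, nat_lit 11520, nat_lit 2976, R6_129, R3_240, R3_62⟩, ⟨nat_lit 7, nat_lit 672, nat_lit 3360, nat_lit 6240,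 nat_lit 8592, nat_lit 16176, R6_130, R3_179, R3_337⟩]⟩, ⟨nat_lit 2, [⟨nat_lit 4, nat_lit 3840, nat_lit 3456, nat_lit 7440, nat_lit 16224, nat_lit 3840, R13_155, R13_338, R3_80⟩, ⟨nat_lit 5, nat_lit 4128, nat_lit 3504, nat_lit 7536, nat_lit 13920, nat_lit 288, R13_157, R9_290, R0_6⟩, ⟨nat_lit 7, nat_lit 4272, nat_lit 3552, nat_lit 7488, nat_lit 8928, nat_lit 528, R13_156, R3_186, R10_11⟩]⟩]⟩,
 ⟨nat_lit 1, [⟨nat_lit 0, [⟨nat_lit 4, nat_lit 816, nat_lit 3600, nat_lit 6384, nat_lit 3984, nat_lit 4368, R4_133, R9_83, R13_91⟩, ⟨nat_lit 6, nat_lit 960, nat_lit 3696, nat_lit 6528, nat_lit 2448, nat_lit 3600, R4_136, R0_51, R3_75⟩, ⟨nat_lit 7, nat_lit 1152, nat_lit 3648, nat_lit 6576, nat_lit 2928, nat_lit 17520, R4_137, R0_61, R3_365⟩]⟩, ⟨nat_lit 2, [⟨nat_lit 4, nat_lit 6144, nat_lit 3744, nat_lit 6240, nat_lit 4896,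 nat_lit 7248, R3_130, R9_102, R3_151⟩, ⟨nat_lit 7, nat_lit 6336, nat_lit 3792, nat_lit 6288, nat_lit 3312, nat_lit 2592, R3_131, R0_69, R10_54⟩]⟩]⟩,
 ⟨nat_lit 2, [⟨nat_lit 2, [⟨nat_lit 4, nat_lit 5568, nat_lit 4224, nat_lit 4992, nat_lit 4992, nat_lit 5568, R3_104, R3_104, R3_116⟩, ⟨nat_lit 5, nat_lit 5856, nat_lit 4272, nat_lit 5280, nat_lit 12048, nat_lit 528, R3_110, R0_251, R0_11⟩, ⟨nat_lit 7, nat_lit 6000, nat_lit 4320, nat_lit 5040, nat_lit 14304, nat_lit 864, R3_105, R10_298, R10_18⟩]⟩]⟩,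
 ⟨nat_lit 3, [⟨nat_lit 0, [⟨nat_lit 4, nat_lit 2352, nat_lit 3840, nat_lit 8208, nat_lit 3984, nat_lit 3600, R8_171, R3_83, R13_75⟩, ⟨nat_lit 5, nat_lit 2640, nat_lit 3888, nat_lit 8880, nat_lit 7344, nat_lit 2640, R8_185, R0_153, R9_55⟩, ⟨nat_lit 6, nat_lit 2496, nat_lit 3936, nat_lit 8400, nat_lit 3552, nat_lit 3312, R8_175, R10_74, R3_69⟩]⟩, ⟨nat_lit 2, [⟨nat_lit 4, nat_lit 7248, nat_lit 4128, nat_lit 5472, nat_lit 6240, nat_lit 6144, R9_114, R3_130, R3_128⟩, ⟨nat_lit 5, nat_lit 7392, nat_lit 4176, nat_lit 5520, nat_lit 8448, nat_lit 1104, R9_115, R0_176, R0_23⟩]⟩, ⟨nat_lit 3, [⟨nat_lit 4, nat_lit 9984, nat_lit 3984, nat_lit 5760, nat_lit 5712, nat_lit 5328, R5_120, R3_119, R3_111⟩, ⟨nat_lit 5, nat_lit 10176, nat_lit 4032, nat_lit 5856, nat_lit 8064, nat_lit 14640, R5_122, R0_168, R0_305⟩, ⟨nat_lit 6, nat_lit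 10128, nat_lit 4080, nat_lit 5808, nat_lit 4128, nat_lit 4704, R5_121, R10_86, R10_98⟩]⟩]⟩]], [[], [], [], [], [⟨nat_lit 2, [⟨nat_lit 2, [⟨nat_lit 0, nat_lit 4896, nat_lit 2784, nat_lit 5472, nat_lit 1104, nat_lit 816, R3_114, R4_23, R4_17⟩, ⟨nat_lit 3, nat_lit 5184, nat_lit 7968, nat_lit 5616, nat_lit 96, nat_lit 3984, R3_117, R5_2, R5_83⟩]⟩, ⟨nat_lit 6, [⟨nat_lit 0, nat_lit 13104, nat_lit 2928, nat_lit 4752, nat_lit 1632, nat_lit 912, R2_99, R4_34, R7_19⟩]⟩]⟩], [], [], [⟨nat_lit 2, [⟨nat_lit 2, [⟨nat_lit 3, nat_lit 5328, nat_lit 9984, nat_lit 5712, nat_lit 5760, nat_lit 1632, R3_119, R5_120, R11_34⟩]⟩, ⟨nat_lit 6, [⟨nat_lit 0, nat_lit 13248, nat_lit 9696, nat_lit 4800, nat_lit 8352, nat_lit 2304, R2_100, R4_174, R2_48⟩, ⟨nat_lit 3, nat_lit 13440, nat_lit 9936, nat_lit 4848, nat_lit 5664, nat_lit 1776, R2_101,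 R5_118, R1_37⟩]⟩]⟩]], [], [[], [], [], [], [⟨nat_lit 2, [⟨nat_lit 2, [⟨nat_lit 0, nat_lit 4944, nat_lit 4224, nat_lit 5520, nat_lit 4416, nat_lit 7200, R3_115, R3_92, R4_150⟩, ⟨nat_lit 3, nat_lit 5232, nat_lit 12576, nat_lit 5664, nat_lit 12000, nat_lit 12432, R3_118, R0_250, R5_259⟩]⟩, ⟨nat_lit 6, [⟨nat_lit 0, nat_lit 13152, nat_lit 3168, nat_lit 4944, nat_lit 12432, nat_lit 6912, R2_103, R3_259, R7_144⟩]⟩]⟩], [], [⟨nat_lit 2, [⟨nat_lit 2, [⟨nat_lit 0, nat_lit 4992, nat_lit 4224, nat_lit 5568, nat_lit 4992, nat_lit 5568, R3_116, R3_104, R3_116⟩, ⟨nat_lit 1, nat_lit 5040, nat_lit 4320, nat_lit 6000, nat_lit 14304, nat_lit 864, R3_125, R10_298, R10_18⟩, ⟨nat_lit 3, nat_lit 5280, nat_lit 4272, nat_lit 5856, nat_lit 12048, nat_lit 528, R3_122, R0_251, R0_11⟩]⟩, ⟨nat_lit 6, [⟨nat_lit 0, nat_lit 13200, nat_lit 3168,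 nat_lit 5088, nat_lit 13200, nat_lit 5088, R2_106, R3_275, R2_106⟩, ⟨nat_lit 1, nat_lit 13344, nat_lit 3216, nat_lit 5136, nat_lit 14160, nat_lit 3792, R2_107, R10_295, R1_79⟩]⟩]⟩], [⟨nat_lit 2, [⟨nat_lit 2, [⟨nat_lit 3, nat_lit 5376, nat_lit 2112, nat_lit 5808, nat_lit 12096, nat_lit 1680, R3_121, R0_252, R11_35⟩]⟩, ⟨nat_lit 6, [⟨nat_lit 0, nat_lit 13296, nat_lit 1824, nat_lit 4992, nat_lit 12864, nat_lit 9936, R2_104, R3_268, R2_207⟩, ⟨nat_lit 3, nat_lit 13488, nat_lit 1872, nat_lit 5040, nat_lit 11808, nat_lit 10752, R2_105, R0_246, R1_224⟩]⟩]⟩]], [[], [], [], [⟨nat_lit 0, [⟨nat_lit 0, [⟨nat_lit 7, nat_lit 624, nat_lit 192, nat_lit 6288, nat_lit 11904, nat_lit 15936, R6_131, R2_248, R3_332⟩]⟩, ⟨nat_lit 2, [⟨nat_lit 7, nat_lit 4224, nat_lit 384, nat_lit 7152, nat_lit 12384, nat_lit 576, R13_149, R2_258, R10_12⟩]⟩]⟩,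
 ⟨nat_lit 2, [⟨nat_lit 2, [⟨nat_lit 7, nat_lit 5952, nat_lit 2544, nat_lit 5088, nat_lit 12960, nat_lit 912, R3_106, R1_270, R10_19⟩]⟩]⟩,
 ⟨nat_lit 3, [⟨nat_lit 0, [⟨nat_lit 4, nat_lit 2304, nat_lit 1248, nat_lit 8256, nat_lit 3456, nat_lit 3648, R8_172, R2_72, R13_76⟩, ⟨nat_lit 6, nat_lit 2448, nat_lit 1344, nat_lit 8448, nat_lit 2928, nat_lit 3360, R8_176, R1_61, R3_70⟩, ⟨nat_lit 7, nat_lit 2736, nat_lit 1296, nat_lit 8544, nat_lit 13152, nat_lit 16896, R8_178, R12_274, R3_352⟩]⟩, ⟨nat_lit 2, [⟨nat_lit 4, nat_lit 7200, nat_lit 2304, nat_lit 5280, nat_lit 4320, nat_lit 6576, R9_110, R2_90, R3_137⟩, ⟨nat_lit 7, nat_lit 7488, nat_lit 2352, nat_lit 5328, nat_lit 13392, nat_lit 2112, R9_111, R12_279, R10_44⟩]⟩, ⟨nat_lit 3, [⟨nat_lit 4, nat_lit 9936, nat_lit 1776, nat_lit 5664, nat_lit 4848, nat_lit 13440, R5_118,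 R2_101, R3_280⟩, ⟨nat_lit 6, nat_lit 10080, nat_lit 1824, nat_lit 5712, nat_lit 3552, nat_lit 5328, R5_119, R1_74, R10_111⟩]⟩]⟩], [], [], [], [⟨nat_lit 0, [⟨nat_lit 0, [⟨nat_lit 7, nat_lit 576, nat_lit 288, nat_lit 6336, nat_lit 11952, nat_lit 960, R6_132, R2_249, R2_20⟩]⟩, ⟨nat_lit 2, [⟨nat_lit 7, nat_lit 4176, nat_lit 624, nat_lit 7104, nat_lit 12432, nat_lit 288, R13_148, R2_259, R1_6⟩]⟩]⟩,
 ⟨nat_lit 2, [⟨nat_lit 2, [⟨nat_lit 3, nat_lit 5424, nat_lit 2640, nat_lit 5760, nat_lit 18240, nat_lit 1728, R3_120, R11_380, R11_36⟩, ⟨nat_lit 7, nat_lit 5904, nat_lit 2688, nat_lit 5136, nat_lit 13008, nat_lit 528, R3_107, R1_271, R1_11⟩]⟩, ⟨nat_lit 6, [⟨nat_lit 3, nat_lit 13536, nat_lit 2400, nat_lit 4896, nat_lit 18096, nat_lit 7200, R2_102, R11_377, R1_150⟩]⟩]⟩,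
 ⟨nat_lit 3, [⟨nat_lit 0, [⟨nat_lit 7, nat_lit 2688, nat_lit 1248, nat_lit 7152, nat_lit 13104, nat_lit 2496, R8_149, R12_273, R2_52⟩]⟩, ⟨nat_lit 2, [⟨nat_lit 7, nat_lit 7440, nat_lit 2208, nat_lit 5232, nat_lit 13344, nat_lit 1968, R9_109, R12_278, R1_41⟩]⟩, ⟨nat_lit 3, [⟨nat_lit 4, nat_lit 9888, nat_lit 1920, nat_lit 5520, nat_lit 5328, nat_lit 5904, R5_115, R2_111, R2_123⟩, ⟨nat_lit 6, nat_lit 10032, nat_lit 2016, nat_lit 5568, nat_lit 4032, nat_lit 4608, R5_116, R1_84, R1_96⟩, ⟨nat_lit 7, nat_lit 10224, nat_lit 1968, nat_lit 5616, nat_lit 13536, nat_lit 672, R5_117, R12_282, R12_14⟩]⟩]⟩]]], [[], [], [], [], [[], [], [], [], [⟨nat_lit 2, [⟨nat_lit 6, [⟨nat_lit 0, nat_lit 12768, nat_lit 4176, nat_lit 9696, nat_lit 1728, nat_lit 816, R2_202, R4_36, R7_17⟩]⟩]⟩,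
 ⟨nat_lit 4, [⟨nat_lit 4, [⟨nat_lit 2, nat_lit 11040, nat_lit 11280, nat_lit 13008, nat_lit 15696, nat_lit 4752, R6_271, R7_327, R7_99⟩, ⟨nat_lit 6, nat_lit 11376, nat_lit 18144, nat_lit 13344, nat_lit 14160, nat_lit 4800, R6_278, R4_295, R4_100⟩]⟩, ⟨nat_lit 7, [⟨nat_lit 6, nat_lit 16368, nat_lit 19008, nat_lit 14208, nat_lit 14400, nat_lit 9264, R8_296, R4_300, R5_193⟩]⟩]⟩,
 ⟨nat_lit 6, [⟨nat_lit 4, [⟨nat_lit 2, nat_lit 11904, nat_lit 11424, nat_lit 11808, nat_lit 6048, nat_lit 5184, R13_246, R14_126, R7_108⟩]⟩, ⟨nat_lit 6, [⟨nat_lit 0, nat_lit 14352, nat_lit 4032, nat_lit 14352, nat_lit 1824, nat_lit 1392, R3_299, R7_38, R7_29⟩, ⟨nat_lit 2, nat_lit 14592, nat_lit 12000, nat_lit 14592, nat_lit 6096, nat_lit 19824, R3_304, R14_127, R14_413⟩]⟩]⟩,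
 ⟨nat_lit 7, [⟨nat_lit 7, [⟨nat_lit 6, nat_lit 17664, nat_lit 19152, nat_lit 10656, nat_lit 16944, nat_lit 9648, R5_222, R5_353, R5_201⟩]⟩]⟩], [⟨nat_lit 4, [⟨nat_lit 4, [⟨nat_lit 2, nat_lit 11136, nat_lit 12816, nat_lit 13056, nat_lit 15888, nat_lit 3168, R6_272, R7_331, R2_66⟩, ⟨nat_lit 6, nat_lit 11472, nat_lit 13104, nat_lit 13392, nat_lit 14208, nat_lit 192, R6_279, R4_296, R3_4⟩]⟩, ⟨nat_lit 5, [⟨nat_lit 2, nat_lit 15168, nat_lit 12864, nat_lit 13152, nat_lit 16560, nat_lit 2640, R4_274, R7_345, R1_55⟩, ⟨nat_lit 6, nat_lit 15264, nat_lit 13200, nat_lit 13248, nat_lit 14592, nat_lit 3024, R4_276, R4_304, R10_63⟩]⟩, ⟨nat_lit 7, [⟨nat_lit 6, nat_lit 16464, nat_lit 13152, nat_lit 14304, nat_lit 14496, nat_lit 5664, R8_298, R4_302, R0_118⟩]⟩]⟩,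
 ⟨nat_lit 6, [⟨nat_lit 4, [⟨nat_lit 2, nat_lit 12048, nat_lit 13824, nat_lit 11952, nat_lit 7392, nat_lit 3600, R13_249, R14_154, R2_75⟩]⟩, ⟨nat_lit 5, [⟨nat_lit 2, nat_lit 15504, nat_lit 13872, nat_lit 9168, nat_lit 7488, nat_lit 3072, R3_191, R14_156, R1_64⟩]⟩, ⟨nat_lit 6, [⟨nat_lit 2, nat_lit 14736, nat_lit 13920, nat_lit 14640, nat_lit 7440, nat_lit 15600, R3_305, R14_155, R12_325⟩]⟩]⟩,
 ⟨nat_lit 7, [⟨nat_lit 7, [⟨nat_lit 6, nat_lit 17760, nat_lit 13488, nat_lit 10752, nat_lit 17664, nat_lit 5760, R5_224, R5_368, R0_120⟩]⟩]⟩], [], [⟨nat_lit 2, [⟨nat_lit 6, [⟨nat_lit 0, nat_lit 12912, nat_lit 10224, nat_lit 9792, nat_lit 8448, nat_lit 2160, R2_204, R4_176, R2_45⟩, ⟨nat_lit 3, nat_lit 13008, nat_lit 10512, nat_lit 9840, nat_lit 6720, nat_lit 1632, R2_205, R5_140, R1_34⟩]⟩]⟩,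
 ⟨nat_lit 4, [⟨nat_lit 4, [⟨nat_lit 2, nat_lit 11232, nat_lit 10944, nat_lit 13104, nat_lit 15792, nat_lit 7488, R6_273, R7_329, R2_156⟩]⟩, ⟨nat_lit 7, [⟨nat_lit 2, nat_lit 16224, nat_lit 10992, nat_lit 14448, nat_lit 16128, nat_lit 8016, R8_301, R7_336, R1_167⟩, ⟨nat_lit 6, nat_lit 16560, nat_lit 11376, nat_lit 14256, nat_lit 14448, nat_lit 11712, R8_297, R4_301, R11_244⟩]⟩]⟩,
 ⟨nat_lit 6, [⟨nat_lit 4, [⟨nat_lit 2, nat_lit 12192, nat_lit 12480, nat_lit 12096, nat_lit 6624, nat_lit 8304, R13_252, R14_138, R2_173⟩]⟩, ⟨nat_lit 6, [⟨nat_lit 0, nat_lit 14496, nat_lit 11904, nat_lit 14400, nat_lit 8448, nat_lit 384, R3_300, R7_176, R2_8⟩, ⟨nat_lit 2, nat_lit 14928, nat_lit 12576, nat_lit 14688, nat_lit 6720, nat_lit 7536, R3_306, R14_140, R12_157⟩]⟩, ⟨nat_lit 7, [⟨nat_lit 2, nat_lit 17040, nat_lit 12528, nat_lit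 9360, nat_lit 6672, nat_lit 9120, R9_195, R14_139, R1_190⟩]⟩]⟩,
 ⟨nat_lit 7, [⟨nat_lit 7, [⟨nat_lit 6, nat_lit 17856, nat_lit 11520, nat_lit 10848, nat_lit 17328, nat_lit 12096, R5_226, R5_361, R11_252⟩]⟩]⟩]], [[], [], [], [], [⟨nat_lit 4, [⟨nat_lit 4, [⟨nat_lit 2, nat_lit 11088, nat_lit 2544, nat_lit 13152, nat_lit 14400, nat_lit 4800, R6_274, R2_300, R7_100⟩, ⟨nat_lit 6, nat_lit 11424, nat_lit 3408, nat_lit 13440, nat_lit 2928, nat_lit 4992, R6_280, R3_61, R4_104⟩]⟩, ⟨nat_lit 7, [⟨nat_lit 6, nat_lit 16416, nat_lit 11472, nat_lit 14592, nat_lit 8688, nat_lit 11424, R8_304, R3_181, R5_238⟩]⟩]⟩,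
 ⟨nat_lit 6, [⟨nat_lit 4, [⟨nat_lit 2, nat_lit 11952, nat_lit 2688, nat_lit 11856, nat_lit 4032, nat_lit 5424, R13_247, R12_84, R7_113⟩]⟩, ⟨nat_lit 6, [⟨nat_lit 2, nat_lit 14640, nat_lit 13920, nat_lit 14736, nat_lit 4080, nat_lit 21120, R3_307, R12_85, R14_440⟩]⟩]⟩,
 ⟨nat_lit 7, [⟨nat_lit 7, [⟨nat_lit 6, nat_lit 17712, nat_lit 11616, nat_lit 10704, nat_lit 2880, nat_lit 11856, R5_223, R0_60, R5_247⟩]⟩]⟩], [⟨nat_lit 4, [⟨nat_lit 4, [⟨nat_lit 2, nat_lit 11184, nat_lit 15744, nat_lit 13200, nat_lit 14592, nat_lit 3216, R6_275, R2_304, R2_67⟩, ⟨nat_lit 6, nat_lit 11520, nat_lit 16032, nat_lit 13488, nat_lit 2976, nat_lit 240, R6_281, R3_62, R3_5⟩]⟩, ⟨nat_lit 5, [⟨nat_lit 2, nat_lit 15216, nat_lit 15792, nat_lit 13200, nat_lit 14832, nat_lit 2688, R4_275, R2_309, R1_56⟩, ⟨nat_lit 6, nat_lit 15312, nat_lit 16128,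 nat_lit 13296, nat_lit 10464, nat_lit 3216, R4_277, R3_218, R10_67⟩]⟩, ⟨nat_lit 7, [⟨nat_lit 6, nat_lit 16512, nat_lit 16080, nat_lit 14688, nat_lit 8784, nat_lit 5712, R8_306, R3_183, R0_119⟩]⟩]⟩,
 ⟨nat_lit 6, [⟨nat_lit 4, [⟨nat_lit 2, nat_lit 12096, nat_lit 16896, nat_lit 12000, nat_lit 5376, nat_lit 3840, R13_250, R12_112, R2_80⟩]⟩, ⟨nat_lit 5, [⟨nat_lit 2, nat_lit 15552, nat_lit 16944, nat_lit 9216, nat_lit 5472, nat_lit 3312, R3_192, R12_114, R1_69⟩]⟩, ⟨nat_lit 6, [⟨nat_lit 2, nat_lit 14784, nat_lit 16992, nat_lit 14784, nat_lit 5424, nat_lit 16896, R3_308, R12_113, R12_352⟩]⟩]⟩,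
 ⟨nat_lit 7, [⟨nat_lit 7, [⟨nat_lit 6, nat_lit 17808, nat_lit 16704, nat_lit 10800, nat_lit 3024, nat_lit 5808, R5_225, R0_63, R0_121⟩]⟩]⟩], [], [⟨nat_lit 4, [⟨nat_lit 4, [⟨nat_lit 2, nat_lit 11280, nat_lit 9456, nat_lit 13248, nat_lit 14496, nat_lit 7632, R6_276, R2_302, R2_159⟩]⟩, ⟨nat_lit 7, [⟨nat_lit 2, nat_lit 16272, nat_lit 9504, nat_lit 14736, nat_lit 14640, nat_lit 8160, R8_307, R2_305, R1_170⟩, ⟨nat_lit 6, nat_lit 16608, nat_lit 9888, nat_lit 14640, nat_lit 8736, nat_lit 14400, R8_305, R3_182, R11_300⟩]⟩]⟩,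
 ⟨nat_lit 6, [⟨nat_lit 4, [⟨nat_lit 2, nat_lit 12240, nat_lit 10656, nat_lit 12144, nat_lit 4608, nat_lit 8688, R13_253, R12_96, R2_181⟩]⟩, ⟨nat_lit 6, [⟨nat_lit 2, nat_lit 14976, nat_lit 10752, nat_lit 14832, nat_lit 4704, nat_lit 9312, R3_309, R12_98, R12_194⟩]⟩, ⟨nat_lit 7, [⟨nat_lit 2, nat_lit 17088, nat_lit 10704, nat_lit 9408, nat_lit 4656, nat_lit 9504, R9_196, R12_97, R1_198⟩]⟩]⟩,
 ⟨nat_lit 7, [⟨nat_lit 7, [⟨nat_lit 6, nat_lit 17904, nat_lit 10320, nat_lit 10896, nat_lit 2976, nat_lit 14832, R5_227, R0_62, R11_309⟩]⟩]⟩]], [[], [], [], [], [⟨nat_lit 2, [⟨nat_lit 6, [⟨nat_lit 0, nat_lit 12816, nat_lit 11856, nat_lit 9744, nat_lit 12528, nat_lit 6816, R2_203, R3_261, R7_142⟩]⟩]⟩,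
 ⟨nat_lit 6, [⟨nat_lit 4, [⟨nat_lit 2, nat_lit 12000, nat_lit 2928, nat_lit 11904, nat_lit 7488, nat_lit 5280, R13_248, R12_156, R7_110⟩]⟩, ⟨nat_lit 6, [⟨nat_lit 0, nat_lit 14400, nat_lit 11904, nat_lit 14496, nat_lit 384, nat_lit 7392, R3_302, R2_8, R7_154⟩, ⟨nat_lit 2, nat_lit 14688, nat_lit 12576, nat_lit 14928, nat_lit 7536, nat_lit 20496, R3_311, R12_157, R14_427⟩]⟩]⟩], [⟨nat_lit 6, [⟨nat_lit 4, [⟨nat_lit 2, nat_lit 12144, nat_lit 1392, nat_lit 12048, nat_lit 9264, nat_lit 3696, R13_251, R12_193, R2_77⟩]⟩, ⟨nat_lit 5, [⟨nat_lit 2, nat_lit 15600, nat_lit 6528, nat_lit 9264, nat_lit 9360, nat_lit 3168, R3_193, R12_195, R1_66⟩]⟩, ⟨nat_lit 6, [⟨nat_lit 2, nat_lit 14832, nat_lit 10752, nat_lit 14976, nat_lit 9312, nat_lit 16272, R3_312, R12_194, R12_339⟩]⟩]⟩], [⟨nat_lit 2, [⟨nat_lit 6, [⟨nat_lit 0, nat_lit 12864,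 nat_lit 1824, nat_lit 9936, nat_lit 13296, nat_lit 4992, R2_207, R3_277, R2_104⟩, ⟨nat_lit 1, nat_lit 12960, nat_lit 6864, nat_lit 9984, nat_lit 14208, nat_lit 3696, R2_208, R10_296, R1_77⟩]⟩]⟩,
 ⟨nat_lit 6, [⟨nat_lit 6, [⟨nat_lit 0, nat_lit 14448, nat_lit 1680, nat_lit 14544, nat_lit 6096, nat_lit 5616, R3_303, R2_127, R2_117⟩, ⟨nat_lit 1, nat_lit 15072, nat_lit 6720, nat_lit 15120, nat_lit 4800, nat_lit 4320, R3_315, R1_100, R1_90⟩, ⟨nat_lit 2, nat_lit 14880, nat_lit 11136, nat_lit 15024, nat_lit 7920, nat_lit 16560, R3_313, R12_165, R12_345⟩]⟩]⟩]], [[], [], [], [], [], [], [], [⟨nat_lit 2, [⟨nat_lit 6, [⟨nat_lit 3, nat_lit 13056, nat_lit 5376, nat_lit 9888, nat_lit 18144, nat_lit 7056, R2_206, R11_378, R1_147⟩]⟩]⟩,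
 ⟨nat_lit 4, [⟨nat_lit 4, [⟨nat_lit 2, nat_lit 11328, nat_lit 9312, nat_lit 13296, nat_lit 14544, nat_lit 7584, R6_277, R2_303, R2_158⟩]⟩, ⟨nat_lit 7, [⟨nat_lit 2, nat_lit 16320, nat_lit 9552, nat_lit 14928, nat_lit 15120, nat_lit 8112, R8_311, R2_315, R1_169⟩]⟩]⟩,
 ⟨nat_lit 6, [⟨nat_lit 4, [⟨nat_lit 2, nat_lit 12288, nat_lit 10512, nat_lit 12192, nat_lit 16080, nat_lit 8400, R13_254, R12_335, R2_175⟩]⟩, ⟨nat_lit 6, [⟨nat_lit 0, nat_lit 14544, nat_lit 1680, nat_lit 14448, nat_lit 5616, nat_lit 6096, R3_301, R2_117, R2_127⟩, ⟨nat_lit 2, nat_lit 15024, nat_lit 11136, nat_lit 14880, nat_lit 16560, nat_lit 7920, R3_310, R12_345, R12_165⟩, ⟨nat_lit 3, nat_lit 15120, nat_lit 6720, nat_lit 15072, nat_lit 4320, nat_lit 4800, R3_314, R1_90, R1_100⟩]⟩, ⟨nat_lit 7, [⟨nat_lit 2, nat_lit 17136, nat_lit 10800, nat_lit 9456,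 nat_lit 16368, nat_lit 9216, R9_197, R12_341, R1_192⟩]⟩]⟩,
 ⟨nat_lit 7, [⟨nat_lit 7, [⟨nat_lit 2, nat_lit 17616, nat_lit 10032, nat_lit 10992, nat_lit 16128, nat_lit 8736, R5_229, R1_336, R1_182⟩, ⟨nat_lit 6, nat_lit 17952, nat_lit 15168, nat_lit 10944, nat_lit 22032, nat_lit 13152, R5_228, R11_459, R11_274⟩]⟩]⟩]]], [[], [], [], [], [[], [], [], [⟨nat_lit 4, [⟨nat_lit 3, [⟨nat_lit 6, nat_lit 10368, nat_lit 10800, nat_lit 14784, nat_lit 13632, nat_lit 7056, R7_308, R4_284, R10_147⟩]⟩]⟩,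
 ⟨nat_lit 7, [⟨nat_lit 0, [⟨nat_lit 6, nat_lit 3408, nat_lit 11088, nat_lit 10176, nat_lit 15264, nat_lit 1536, R7_212, R5_318, R3_32⟩]⟩, ⟨nat_lit 3, [⟨nat_lit 6, nat_lit 10896, nat_lit 11136, nat_lit 5664, nat_lit 15456, nat_lit 7392, R14_118, R5_322, R10_154⟩]⟩]⟩], [], [], [], [⟨nat_lit 4, [⟨nat_lit 3, [⟨nat_lit 6, nat_lit 10272, nat_lit 16656, nat_lit 14736, nat_lit 13584, nat_lit 5856, R7_307, R4_283, R1_122⟩]⟩, ⟨nat_lit 7, [⟨nat_lit 2, nat_lit 16656, nat_lit 10272, nat_lit 13584, nat_lit 14736, nat_lit 5856, R4_283, R7_307, R1_122⟩, ⟨nat_lit 6, nat_lit 16752, nat_lit 16752, nat_lit 13392, nat_lit 13392, nat_lit 7920, R4_279, R4_279, R11_165⟩]⟩]⟩,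
 ⟨nat_lit 6, [⟨nat_lit 7, [⟨nat_lit 2, nat_lit 17184, nat_lit 10800, nat_lit 16080, nat_lit 5616, nat_lit 6240, R5_335, R14_117, R1_130⟩]⟩]⟩,
 ⟨nat_lit 7, [⟨nat_lit 3, [⟨nat_lit 6, nat_lit 10800, nat_lit 17184, nat_lit 5616, nat_lit 16080, nat_lit 6240, R14_117, R5_335, R1_130⟩]⟩]⟩]], [[], [], [], [⟨nat_lit 4, [⟨nat_lit 3, [⟨nat_lit 6, nat_lit 10416, nat_lit 11184, nat_lit 15024, nat_lit 15408, nat_lit 7248, R7_313, R3_321, R10_151⟩]⟩]⟩,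
 ⟨nat_lit 7, [⟨nat_lit 0, [⟨nat_lit 6, nat_lit 3456, nat_lit 11664, nat_lit 10272, nat_lit 2496, nat_lit 1632, R7_214, R0_52, R3_34⟩]⟩, ⟨nat_lit 3, [⟨nat_lit 6, nat_lit 10944, nat_lit 11712, nat_lit 5760, nat_lit 2544, nat_lit 8256, R14_120, R0_53, R10_172⟩]⟩]⟩], [], [], [], [⟨nat_lit 4, [⟨nat_lit 3, [⟨nat_lit 6, nat_lit 10320, nat_lit 12432, nat_lit 14976, nat_lit 15456, nat_lit 5952, R7_312, R3_322, R1_124⟩]⟩, ⟨nat_lit 7, [⟨nat_lit 2, nat_lit 16704, nat_lit 12240, nat_lit 13776, nat_lit 13920, nat_lit 5904, R4_287, R2_290, R1_123⟩, ⟨nat_lit 6, nat_lit 16800, nat_lit 12384, nat_lit 13728, nat_lit 8640, nat_lit 9600, R4_286, R3_180, R11_200⟩]⟩]⟩,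
 ⟨nat_lit 6, [⟨nat_lit 7, [⟨nat_lit 2, nat_lit 17232, nat_lit 12960, nat_lit 16128, nat_lit 3600, nat_lit 6720, R5_336, R12_75, R1_140⟩]⟩]⟩,
 ⟨nat_lit 7, [⟨nat_lit 3, [⟨nat_lit 6, nat_lit 10848, nat_lit 12768, nat_lit 5712, nat_lit 2640, nat_lit 7344, R14_119, R0_55, R1_153⟩]⟩]⟩]], [[], [], [], [], [], [], [], [⟨nat_lit 6, [⟨nat_lit 7, [⟨nat_lit 2, nat_lit 17280, nat_lit 4272, nat_lit 16176, nat_lit 9024, nat_lit 6528, R5_337, R12_188, R1_136⟩]⟩]⟩]], [[], [], [], [⟨nat_lit 3, [⟨nat_lit 0, [⟨nat_lit 4, nat_lit 2784, nat_lit 2448, nat_lit 9408, nat_lit 3408, nat_lit 3216, R4_196, R2_71, R13_67⟩, ⟨nat_lit 6, nat_lit 2832, nat_lit 2544, nat_lit 9600, nat_lit 2880, nat_lit 3216, R4_200, R1_60, R3_67⟩, ⟨nat_lit 7, nat_lit 2880, nat_lit 2496, nat_lit 9984, nat_lit 13200, nat_lit 14112, R4_208, R12_275, R3_294⟩]⟩, ⟨nat_lit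 2, [⟨nat_lit 4, nat_lit 7536, nat_lit 2592, nat_lit 5424, nat_lit 4272, nat_lit 6528, R5_113, R2_89, R3_136⟩, ⟨nat_lit 7, nat_lit 7584, nat_lit 2640, nat_lit 5472, nat_lit 13440, nat_lit 1536, R5_114, R12_280, R10_32⟩]⟩]⟩,
 ⟨nat_lit 7, [⟨nat_lit 0, [⟨nat_lit 6, nat_lit 3504, nat_lit 2352, nat_lit 10224, nat_lit 19584, nat_lit 1584, R7_213, R11_408, R3_33⟩]⟩, ⟨nat_lit 3, [⟨nat_lit 6, nat_lit 10992, nat_lit 2400, nat_lit 5808, nat_lit 19776, nat_lit 7728, R14_121, R11_412, R10_161⟩]⟩]⟩]]], [[], [[⟨nat_lit 5, [⟨nat_lit 0, [⟨nat_lit 6, nat_lit 3072, nat_lit 528, nat_lit 8928, nat_lit 2736, nat_lit 2256, R6_186, R1_57, R4_47⟩]⟩, ⟨nat_lit 1, [⟨nat_lit 6, nat_lit 8880, nat_lit 5472, nat_lit 19248, nat_lit 3024, nat_lit 2640, R13_401, R1_63, R5_55⟩]⟩]⟩], [⟨nat_lit 5, [⟨nat_lit 1, [⟨nat_lit 6, nat_lit 8976, nat_lit 3888,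 nat_lit 19296, nat_lit 3264, nat_lit 2640, R13_402, R1_68, R11_55⟩]⟩]⟩], [], [⟨nat_lit 5, [⟨nat_lit 0, [⟨nat_lit 6, nat_lit 3120, nat_lit 1872, nat_lit 8976, nat_lit 2832, nat_lit 2112, R6_187, R1_59, R3_44⟩]⟩, ⟨nat_lit 1, [⟨nat_lit 6, nat_lit 9024, nat_lit 8736, nat_lit 19344, nat_lit 3120, nat_lit 6432, R13_403, R1_65, R0_134⟩]⟩]⟩]], [], [], [], [[⟨nat_lit 4, [⟨nat_lit 1, [⟨nat_lit 6, nat_lit 8544, nat_lit 5088, nat_lit 13872, nat_lit 16080, nat_lit 3360, R6_289, R3_335, R5_70⟩]⟩]⟩,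
 ⟨nat_lit 5, [⟨nat_lit 0, [⟨nat_lit 6, nat_lit 3024, nat_lit 336, nat_lit 8880, nat_lit 144, nat_lit 2112, R6_185, R10_3, R4_44⟩]⟩, ⟨nat_lit 1, [⟨nat_lit 6, nat_lit 8832, nat_lit 5568, nat_lit 19392, nat_lit 480, nat_lit 3552, R13_404, R10_10, R5_74⟩]⟩]⟩], [⟨nat_lit 4, [⟨nat_lit 1, [⟨nat_lit 6, nat_lit 8592, nat_lit 672, nat_lit 13920, nat_lit 16176, nat_lit 3360, R6_290, R3_337, R11_70⟩]⟩]⟩,
 ⟨nat_lit 5, [⟨nat_lit 1, [⟨nat_lit 6, nat_lit 8928, nat_lit 4272, nat_lit 19440, nat_lit 528, nat_lit 3552, R13_405, R10_11, R11_74⟩]⟩]⟩]]], [[[⟨nat_lit 1, [⟨nat_lit 0, [⟨nat_lit 4, nat_lit 1200, nat_lit 2256, nat_lit 9744, nat_lit 1152, nat_lit 10992, R7_203, R8_24, R6_229⟩, ⟨nat_lit 5, nat_lit 1680, nat_lit 7680, nat_lit 9936, nat_lit 14016, nat_lit 11088, R7_207, R9_292, R8_231⟩, ⟨nat_lit 6, nat_lit 1440, nat_lit 11568,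 nat_lit 9840, nat_lit 14784, nat_lit 11808, R7_205, R5_308, R4_246⟩]⟩, ⟨nat_lit 1, [⟨nat_lit 4, nat_lit 7632, nat_lit 2352, nat_lit 8784, nat_lit 1344, nat_lit 3888, R2_183, R8_28, R8_81⟩, ⟨nat_lit 5, nat_lit 8208, nat_lit 7776, nat_lit 8976, nat_lit 14112, nat_lit 11808, R2_187, R9_294, R9_246⟩, ⟨nat_lit 6, nat_lit 7920, nat_lit 11664, nat_lit 8880, nat_lit 14928, nat_lit 13632, R2_185, R5_311, R5_284⟩]⟩, ⟨nat_lit 2, [⟨nat_lit 4, nat_lit 6384, nat_lit 2496, nat_lit 4128, nat_lit 1248, nat_lit 2640, R2_86, R8_26, R4_55⟩, ⟨nat_lit 5, nat_lit 6624, nat_lit 7920, nat_lit 4416, nat_lit 14064, nat_lit 3024, R2_92, R9_293, R5_63⟩]⟩]⟩], [], [⟨nat_lit 1, [⟨nat_lit 0, [⟨nat_lit 5, nat_lit 1776, nat_lit 6528, nat_lit 10464, nat_lit 14592, nat_lit 2784, R7_218, R9_304, R5_58⟩]⟩, ⟨nat_lit 1, [⟨nat_lit 5, nat_lit 8352, nat_lit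 6624, nat_lit 9552, nat_lit 14736, nat_lit 1536, R2_199, R9_307, R0_32⟩]⟩, ⟨nat_lit 2, [⟨nat_lit 5, nat_lit 6720, nat_lit 6768, nat_lit 4608, nat_lit 14640, nat_lit 2784, R2_96, R9_305, R11_58⟩]⟩]⟩], [⟨nat_lit 1, [⟨nat_lit 0, [⟨nat_lit 4, nat_lit 1296, nat_lit 2400, nat_lit 10032, nat_lit 7056, nat_lit 3888, R7_209, R8_147, R13_81⟩, ⟨nat_lit 5, nat_lit 1920, nat_lit 10032, nat_lit 10368, nat_lit 14352, nat_lit 2976, R7_216, R9_299, R9_62⟩, ⟨nat_lit 6, nat_lit 1536, nat_lit 11088, nat_lit 10176, nat_lit 15264, nat_lit 3408, R7_212, R5_318, R3_71⟩]⟩, ⟨nat_lit 1, [⟨nat_lit 4, nat_lit 7776, nat_lit 2544, nat_lit 9216, nat_lit 7296, nat_lit 6240, R2_192, R8_152, R9_130⟩, ⟨nat_lit 6, nat_lit 8064, nat_lit 11280, nat_lit 9360, nat_lit 15408, nat_lit 4080, R2_195, R5_321, R0_85⟩]⟩, ⟨nat_lit 2, [⟨nat_lit 4, nat_lit 6480,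 nat_lit 2832, nat_lit 4224, nat_lit 7200, nat_lit 7008, R2_88, R8_150, R3_146⟩, ⟨nat_lit 5, nat_lit 6864, nat_lit 10176, nat_lit 4512, nat_lit 14400, nat_lit 1440, R2_94, R9_300, R0_30⟩]⟩]⟩]], [[⟨nat_lit 1, [⟨nat_lit 0, [⟨nat_lit 4, nat_lit 1248, nat_lit 18576, nat_lit 9792, nat_lit 4464, nat_lit 11280, R7_204, R5_93, R6_235⟩, ⟨nat_lit 5, nat_lit 1728, nat_lit 19056, nat_lit 9984, nat_lit 12720, nat_lit 11664, R7_208, R0_265, R8_243⟩, ⟨nat_lit 6, nat_lit 1488, nat_lit 19488, nat_lit 9888, nat_lit 19104, nat_lit 11904, R7_206, R11_398, R4_248⟩]⟩, ⟨nat_lit 1, [⟨nat_lit 4, nat_lit 7680, nat_lit 19872, nat_lit 8832, nat_lit 6048, nat_lit 11856, R2_184, R5_126, R8_247⟩, ⟨nat_lit 5, nat_lit 8256, nat_lit 20544, nat_lit 9024, nat_lit 12816, nat_lit 12432, R2_188, R0_267, R9_259⟩, ⟨nat_lit 6, nat_lit 7968, nat_lit 21168,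 nat_lit 8928, nat_lit 19248, nat_lit 13776, R2_186, R11_401, R5_287⟩]⟩, ⟨nat_lit 2, [⟨nat_lit 4, nat_lit 6432, nat_lit 21648, nat_lit 4176, nat_lit 5232, nat_lit 11424, R2_87, R5_109, R4_238⟩, ⟨nat_lit 5, nat_lit 6672, nat_lit 22032, nat_lit 4464, nat_lit 12768, nat_lit 14160, R2_93, R0_266, R5_295⟩]⟩]⟩,
 ⟨nat_lit 5, [⟨nat_lit 0, [⟨nat_lit 6, nat_lit 3168, nat_lit 19536, nat_lit 9552, nat_lit 2784, nat_lit 11136, R4_199, R1_58, R4_232⟩]⟩, ⟨nat_lit 1, [⟨nat_lit 6, nat_lit 9168, nat_lit 21216, nat_lit 15504, nat_lit 3072, nat_lit 13872, R3_323, R1_64, R5_289⟩]⟩]⟩], [⟨nat_lit 1, [⟨nat_lit 1, [⟨nat_lit 4, nat_lit 7728, nat_lit 15648, nat_lit 9072, nat_lit 6960, nat_lit 7440, R2_189, R5_145, R5_155⟩, ⟨nat_lit 5, nat_lit 8304, nat_lit 16320, nat_lit 9168, nat_lit 13776, nat_lit 10608, R2_191, R0_287, R0_221⟩, ⟨nat_lit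 6, nat_lit 8016, nat_lit 16944, nat_lit 9120, nat_lit 20400, nat_lit 16848, R2_190, R11_425, R11_351⟩]⟩]⟩,
 ⟨nat_lit 5, [⟨nat_lit 1, [⟨nat_lit 6, nat_lit 9216, nat_lit 16992, nat_lit 15552, nat_lit 3312, nat_lit 16944, R3_324, R1_69, R11_353⟩]⟩]⟩], [⟨nat_lit 1, [⟨nat_lit 0, [⟨nat_lit 5, nat_lit 1824, nat_lit 15984, nat_lit 10512, nat_lit 13296, nat_lit 2880, R7_219, R0_277, R5_60⟩]⟩, ⟨nat_lit 1, [⟨nat_lit 5, nat_lit 8400, nat_lit 16704, nat_lit 9600, nat_lit 13440, nat_lit 10992, R2_200, R0_280, R0_229⟩]⟩, ⟨nat_lit 2, [⟨nat_lit 5, nat_lit 6768, nat_lit 17280, nat_lit 4656, nat_lit 13344, nat_lit 2880, R2_97, R0_278, R11_60⟩]⟩]⟩], [⟨nat_lit 1, [⟨nat_lit 0, [⟨nat_lit 4, nat_lit 1344, nat_lit 240, nat_lit 10080, nat_lit 4848, nat_lit 3984, R7_210, R5_101, R13_83⟩, ⟨nat_lit 5, nat_lit 1968, nat_lit 1296, nat_lit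 10416, nat_lit 13056, nat_lit 3024, R7_217, R0_272, R9_63⟩, ⟨nat_lit 6, nat_lit 1584, nat_lit 2352, nat_lit 10224, nat_lit 19584, nat_lit 3504, R7_213, R11_408, R3_73⟩]⟩, ⟨nat_lit 1, [⟨nat_lit 4, nat_lit 7824, nat_lit 7248, nat_lit 9264, nat_lit 6576, nat_lit 7440, R2_193, R5_137, R9_155⟩, ⟨nat_lit 6, nat_lit 8112, nat_lit 9120, nat_lit 9408, nat_lit 19728, nat_lit 5280, R2_196, R11_411, R0_110⟩]⟩, ⟨nat_lit 2, [⟨nat_lit 4, nat_lit 6528, nat_lit 10272, nat_lit 4272, nat_lit 5424, nat_lit 7536, R2_89, R5_113, R3_157⟩, ⟨nat_lit 5, nat_lit 6912, nat_lit 11040, nat_lit 4560, nat_lit 13104, nat_lit 1488, R2_95, R0_273, R0_31⟩]⟩]⟩,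
 ⟨nat_lit 5, [⟨nat_lit 0, [⟨nat_lit 6, nat_lit 3216, nat_lit 2544, nat_lit 9600, nat_lit 2880, nat_lit 2832, R4_200, R1_60, R3_59⟩]⟩, ⟨nat_lit 1, [⟨nat_lit 6, nat_lit 9264, nat_lit 9360, nat_lit 15600, nat_lit 3168, nat_lit 6528, R3_325, R1_66, R0_136⟩]⟩]⟩]], [[], [], [⟨nat_lit 1, [⟨nat_lit 0, [⟨nat_lit 5, nat_lit 1872, nat_lit 5232, nat_lit 10560, nat_lit 3600, nat_lit 2832, R7_220, R0_75, R5_59⟩]⟩, ⟨nat_lit 1, [⟨nat_lit 5, nat_lit 8448, nat_lit 5328, nat_lit 9648, nat_lit 3792, nat_lit 6576, R2_201, R0_79, R0_137⟩]⟩, ⟨nat_lit 2, [⟨nat_lit 5, nat_lit 6816, nat_lit 5472, nat_lit 4704, nat_lit 3696, nat_lit 2832, R2_98, R0_77, R11_59⟩]⟩]⟩]], [[], [], [], [⟨nat_lit 1, [⟨nat_lit 0, [⟨nat_lit 4, nat_lit 1392, nat_lit 1872, nat_lit 10128, nat_lit 4032, nat_lit 3936, R7_211, R9_84, R13_82⟩, ⟨nat_lit 6, nat_lit 1632,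 nat_lit 11664, nat_lit 10272, nat_lit 2496, nat_lit 3456, R7_214, R0_52, R3_72⟩, ⟨nat_lit 7, nat_lit 2016, nat_lit 7296, nat_lit 10320, nat_lit 2592, nat_lit 10656, R7_215, R0_54, R3_222⟩]⟩, ⟨nat_lit 1, [⟨nat_lit 4, nat_lit 7872, nat_lit 2016, nat_lit 9312, nat_lit 6528, nat_lit 6960, R2_194, R9_136, R9_145⟩, ⟨nat_lit 6, nat_lit 8160, nat_lit 11856, nat_lit 9456, nat_lit 4368, nat_lit 4800, R2_197, R0_91, R0_100⟩, ⟨nat_lit 7, nat_lit 8496, nat_lit 7392, nat_lit 9504, nat_lit 4464, nat_lit 5040, R2_198, R0_93, R0_105⟩]⟩, ⟨nat_lit 2, [⟨nat_lit 4, nat_lit 6576, nat_lit 2304, nat_lit 4320, nat_lit 4944, nat_lit 7200, R2_90, R9_103, R3_150⟩, ⟨nat_lit 7, nat_lit 6960, nat_lit 7680, nat_lit 4368, nat_lit 3120, nat_lit 2304, R2_91, R0_65, R10_48⟩]⟩]⟩]]], [[], [[], [⟨nat_lit 5, [⟨nat_lit 1, [⟨nat_lit 6, nat_lit 9120,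 nat_lit 3360, nat_lit 9120, nat_lit 3360, nat_lit 9072, R3_190, R1_70, R11_189⟩]⟩, ⟨nat_lit 5, [⟨nat_lit 6, nat_lit 15840, nat_lit 13680, nat_lit 14112, nat_lit 3408, nat_lit 6000, R2_294, R1_71, R1_125⟩]⟩]⟩]], [], [], [], [[], [⟨nat_lit 4, [⟨nat_lit 1, [⟨nat_lit 6, nat_lit 8640, nat_lit 12384, nat_lit 13728, nat_lit 16800, nat_lit 9600, R4_286, R3_350, R11_200⟩]⟩, ⟨nat_lit 5, [⟨nat_lit 6, nat_lit 15456, nat_lit 12432, nat_lit 14976, nat_lit 10320, nat_lit 5952, R7_312, R3_215, R1_124⟩]⟩]⟩,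
 ⟨nat_lit 5, [⟨nat_lit 1, [⟨nat_lit 6, nat_lit 9072, nat_lit 12480, nat_lit 9072, nat_lit 12480, nat_lit 9792, R3_189, R10_260, R11_204⟩]⟩, ⟨nat_lit 5, [⟨nat_lit 6, nat_lit 15792, nat_lit 12528, nat_lit 14160, nat_lit 12336, nat_lit 6048, R2_295, R10_257, R1_126⟩]⟩]⟩], [], [], [], [⟨nat_lit 4, [⟨nat_lit 5, [⟨nat_lit 2, nat_lit 15360, nat_lit 11136, nat_lit 15072, nat_lit 10608, nat_lit 13152, R7_314, R2_221, R1_274⟩, ⟨nat_lit 6, nat_lit 15408, nat_lit 11184, nat_lit 15024, nat_lit 10416, nat_lit 14784, R7_313, R3_217, R10_308⟩]⟩]⟩,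
 ⟨nat_lit 5, [⟨nat_lit 5, [⟨nat_lit 2, nat_lit 15696, nat_lit 11232, nat_lit 14256, nat_lit 10992, nat_lit 13776, R2_297, R1_229, R1_287⟩, ⟨nat_lit 6, nat_lit 15744, nat_lit 11280, nat_lit 14208, nat_lit 12288, nat_lit 15552, R2_296, R10_256, R10_324⟩]⟩]⟩,
 ⟨nat_lit 6, [⟨nat_lit 5, [⟨nat_lit 2, nat_lit 15648, nat_lit 11328, nat_lit 13872, nat_lit 6336, nat_lit 13632, R2_289, R12_132, R1_284⟩]⟩]⟩]]], [[], [[], [], [], [⟨nat_lit 5, [⟨nat_lit 0, [⟨nat_lit 6, nat_lit 3360, nat_lit 1344, nat_lit 8448, nat_lit 2928, nat_lit 2448, R8_176, R1_61, R3_51⟩]⟩, ⟨nat_lit 1, [⟨nat_lit 6, nat_lit 9456, nat_lit 9552, nat_lit 15600, nat_lit 3216, nat_lit 6480, R9_325, R1_67, R0_135⟩]⟩, ⟨nat_lit 3, [⟨nat_lit 6, nat_lit 10560, nat_lit 6768, nat_lit 16464, nat_lit 2976, nat_lit 8400, R5_343, R1_62, R10_175⟩]⟩]⟩]], [], [], [], [[⟨nat_lit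 4, [⟨nat_lit 0, [⟨nat_lit 6, nat_lit 2928, nat_lit 3408, nat_lit 13440, nat_lit 11424, nat_lit 4992, R6_280, R3_238, R4_104⟩]⟩, ⟨nat_lit 1, [⟨nat_lit 6, nat_lit 8688, nat_lit 11472, nat_lit 14592, nat_lit 16416, nat_lit 11424, R8_304, R3_342, R5_238⟩]⟩]⟩,
 ⟨nat_lit 5, [⟨nat_lit 0, [⟨nat_lit 6, nat_lit 3264, nat_lit 3936, nat_lit 8352, nat_lit 8976, nat_lit 7632, R8_174, R10_187, R4_159⟩]⟩, ⟨nat_lit 1, [⟨nat_lit 6, nat_lit 9312, nat_lit 12288, nat_lit 15648, nat_lit 9648, nat_lit 11760, R9_326, R10_201, R5_245⟩]⟩]⟩,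
 ⟨nat_lit 7, [⟨nat_lit 0, [⟨nat_lit 6, nat_lit 3552, nat_lit 3696, nat_lit 5952, nat_lit 2400, nat_lit 6192, R4_124, R0_50, R4_129⟩]⟩, ⟨nat_lit 1, [⟨nat_lit 6, nat_lit 9504, nat_lit 11904, nat_lit 10512, nat_lit 2688, nat_lit 11568, R5_219, R0_56, R5_241⟩]⟩]⟩], [⟨nat_lit 4, [⟨nat_lit 1, [⟨nat_lit 6, nat_lit 8736, nat_lit 9888, nat_lit 14640, nat_lit 16608, nat_lit 14400, R8_305, R3_346, R11_300⟩]⟩]⟩,
 ⟨nat_lit 5, [⟨nat_lit 1, [⟨nat_lit 6, nat_lit 9360, nat_lit 9936, nat_lit 15696, nat_lit 9744, nat_lit 14736, R9_327, R10_203, R11_307⟩]⟩]⟩,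
 ⟨nat_lit 7, [⟨nat_lit 1, [⟨nat_lit 6, nat_lit 9552, nat_lit 9984, nat_lit 10560, nat_lit 2784, nat_lit 14544, R5_220, R0_58, R11_303⟩]⟩]⟩], [], [⟨nat_lit 4, [⟨nat_lit 0, [⟨nat_lit 6, nat_lit 2976, nat_lit 16032, nat_lit 13488, nat_lit 11520, nat_lit 240, R6_281, R3_240, R3_5⟩]⟩, ⟨nat_lit 1, [⟨nat_lit 6, nat_lit 8784, nat_lit 16080, nat_lit 14688, nat_lit 16512, nat_lit 5712, R8_306, R3_344, R0_119⟩]⟩, ⟨nat_lit 3, [⟨nat_lit 6, nat_lit 10464, nat_lit 16128, nat_lit 13296, nat_lit 15312, nat_lit 7200, R4_277, R3_319, R10_150⟩]⟩]⟩,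
 ⟨nat_lit 5, [⟨nat_lit 0, [⟨nat_lit 6, nat_lit 3312, nat_lit 16176, nat_lit 8400, nat_lit 9072, nat_lit 2496, R8_175, R10_189, R3_52⟩]⟩, ⟨nat_lit 1, [⟨nat_lit 6, nat_lit 9408, nat_lit 16224, nat_lit 15744, nat_lit 9696, nat_lit 7008, R9_328, R10_202, R0_146⟩]⟩, ⟨nat_lit 3, [⟨nat_lit 6, nat_lit 10512, nat_lit 16272, nat_lit 16512, nat_lit 9360, nat_lit 8592, R5_344, R10_195, R10_179⟩]⟩]⟩,
 ⟨nat_lit 7, [⟨nat_lit 0, [⟨nat_lit 6, nat_lit 3600, nat_lit 16320, nat_lit 6528, nat_lit 2448, nat_lit 960, R4_136, R0_51, R3_20⟩]⟩, ⟨nat_lit 1, [⟨nat_lit 6, nat_lit 9600, nat_lit 16368, nat_lit 10608, nat_lit 2736, nat_lit 6240, R5_221, R0_57, R0_130⟩]⟩]⟩]]]]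
noncomputable def N1132 : T3 (List N0) := [[], [[[], [], [⟨nat_lit 0, [⟨nat_lit 2, [⟨nat_lit 6, nat_lit 2496, nat_lit 3456, nat_lit 1632, nat_lit 6144, nat_lit 11664, R3_34, R7_128, R1_243⟩]⟩]⟩,
 ⟨nat_lit 2, [⟨nat_lit 2, [⟨nat_lit 6, nat_lit 2544, nat_lit 10944, nat_lit 8256, nat_lit 17376, nat_lit 11712, R10_172, R14_362, R1_244⟩]⟩, ⟨nat_lit 6, [⟨nat_lit 4, nat_lit 2592, nat_lit 10656, nat_lit 7296, nat_lit 6192, nat_lit 2016, R1_152, R7_129, R3_42⟩, ⟨nat_lit 6, nat_lit 2640, nat_lit 10848, nat_lit 7344, nat_lit 17328, nat_lit 12768, R1_153, R14_361, R10_266⟩]⟩]⟩,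
 ⟨nat_lit 6, [⟨nat_lit 4, [⟨nat_lit 4, nat_lit 2832, nat_lit 17424, nat_lit 3648, nat_lit 6000, nat_lit 6240, R5_76, R4_125, R4_130⟩, ⟨nat_lit 7, nat_lit 2880, nat_lit 17712, nat_lit 11856, nat_lit 10704, nat_lit 11616, R5_247, R5_223, R5_242⟩]⟩, ⟨nat_lit 6, [⟨nat_lit 4, nat_lit 2928, nat_lit 17520, nat_lit 8304, nat_lit 6576, nat_lit 1152, R11_173, R4_137, R3_24⟩, ⟨nat_lit 7, nat_lit 2976, nat_lit 17904, nat_lit 8352, nat_lit 10896, nat_lit 10320, R11_174, R5_227, R0_215⟩]⟩, ⟨nat_lit 7, [⟨nat_lit 7, nat_lit 3024, nat_lit 17808, nat_lit 5808, nat_lit 10800, nat_lit 16704, R0_121, R5_225, R11_348⟩]⟩]⟩]], [], [[], [], [⟨nat_lit 2, [⟨nat_lit 2, [⟨nat_lit 6, nat_lit 3072, nat_lit 6528, nat_lit 8352, nat_lit 15024, nat_lit 11808, R10_174, R12_313, R1_246⟩]⟩, ⟨nat_lit 6, [⟨nat_lit 4, nat_lit 3120, nat_lit 6432, nat_lit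 7680, nat_lit 4368, nat_lit 6960, R1_160, R2_91, R3_145⟩, ⟨nat_lit 6, nat_lit 3168, nat_lit 6480, nat_lit 7728, nat_lit 15072, nat_lit 12816, R1_161, R12_314, R10_267⟩]⟩]⟩,
 ⟨nat_lit 6, [⟨nat_lit 4, [⟨nat_lit 4, nat_lit 3216, nat_lit 6192, nat_lit 3792, nat_lit 1104, nat_lit 6720, R5_79, R3_23, R4_140⟩, ⟨nat_lit 7, nat_lit 3264, nat_lit 6240, nat_lit 12144, nat_lit 8688, nat_lit 12384, R5_253, R0_181, R5_258⟩]⟩, ⟨nat_lit 6, [⟨nat_lit 4, nat_lit 3312, nat_lit 6336, nat_lit 10128, nat_lit 6288, nat_lit 6336, R11_211, R3_131, R3_132⟩, ⟨nat_lit 7, nat_lit 3360, nat_lit 6384, nat_lit 10176, nat_lit 8736, nat_lit 10368, R11_212, R0_182, R0_216⟩]⟩, ⟨nat_lit 7, [⟨nat_lit 7, nat_lit 3408, nat_lit 6288, nat_lit 7104, nat_lit 8784, nat_lit 16752, R0_148, R0_183, R11_349⟩]⟩]⟩], [], [], [], [⟨nat_lit 2, [⟨nat_lit 6, [⟨nat_lit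 4, nat_lit 3456, nat_lit 5568, nat_lit 7536, nat_lit 13536, nat_lit 13680, R1_157, R2_282, R2_285⟩, ⟨nat_lit 5, nat_lit 3504, nat_lit 5616, nat_lit 7632, nat_lit 14880, nat_lit 15456, R1_159, R1_310, R12_322⟩, ⟨nat_lit 6, nat_lit 3552, nat_lit 5664, nat_lit 7584, nat_lit 14880, nat_lit 15024, R1_158, R12_310, R1_313⟩]⟩]⟩,
 ⟨nat_lit 6, [⟨nat_lit 4, [⟨nat_lit 4, nat_lit 3600, nat_lit 5232, nat_lit 2832, nat_lit 1872, nat_lit 6528, R5_59, R3_39, R7_136⟩, ⟨nat_lit 5, nat_lit 3648, nat_lit 5280, nat_lit 14064, nat_lit 10848, nat_lit 22320, R5_293, R10_226, R14_465⟩]⟩, ⟨nat_lit 6, [⟨nat_lit 4, nat_lit 3696, nat_lit 5472, nat_lit 9264, nat_lit 6816, nat_lit 4704, R11_193, R3_142, R2_98⟩, ⟨nat_lit 5, nat_lit 3744, nat_lit 5520, nat_lit 9312, nat_lit 10896, nat_lit 17184, R11_194, R10_227, R12_358⟩]⟩, ⟨nat_lit 7, [⟨nat_lit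 4, nat_lit 3792, nat_lit 5328, nat_lit 6576, nat_lit 8448, nat_lit 9648, R0_137, R3_176, R2_201⟩, ⟨nat_lit 5, nat_lit 3840, nat_lit 5376, nat_lit 6672, nat_lit 10944, nat_lit 11280, R0_139, R10_228, R12_235⟩, ⟨nat_lit 7, nat_lit 3888, nat_lit 5424, nat_lit 6624, nat_lit 8832, nat_lit 10464, R0_138, R0_184, R1_218⟩]⟩]⟩]], [[⟨nat_lit 3, [⟨nat_lit 0, [⟨nat_lit 2, nat_lit 3936, nat_lit 17040, nat_lit 9744, nat_lit 11280, nat_lit 19200, R5_203, R11_235, R8_400⟩]⟩, ⟨nat_lit 2, [⟨nat_lit 2, nat_lit 3984, nat_lit 17760, nat_lit 6288, nat_lit 11568, nat_lit 13584, R0_131, R11_241, R5_283⟩]⟩, ⟨nat_lit 3, [⟨nat_lit 2, nat_lit 4032, nat_lit 17424, nat_lit 8832, nat_lit 11424, nat_lit 11616, R11_184, R11_238, R9_242⟩]⟩]⟩,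
 ⟨nat_lit 4, [⟨nat_lit 7, [⟨nat_lit 3, nat_lit 4080, nat_lit 15408, nat_lit 8064, nat_lit 9360, nat_lit 11280, R3_168, R2_195, R2_235⟩]⟩]⟩,
 ⟨nat_lit 6, [⟨nat_lit 7, [⟨nat_lit 3, nat_lit 4128, nat_lit 15792, nat_lit 6000, nat_lit 10176, nat_lit 11376, R0_125, R1_212, R2_237⟩]⟩]⟩,
 ⟨nat_lit 7, [⟨nat_lit 3, [⟨nat_lit 0, nat_lit 4176, nat_lit 14640, nat_lit 6480, nat_lit 8592, nat_lit 14016, R1_135, R2_179, R13_292⟩, ⟨nat_lit 2, nat_lit 4224, nat_lit 17280, nat_lit 6576, nat_lit 9408, nat_lit 11664, R1_137, R1_196, R9_243⟩, ⟨nat_lit 3, nat_lit 4272, nat_lit 16176, nat_lit 6528, nat_lit 8640, nat_lit 17280, R1_136, R12_180, R3_360⟩]⟩, ⟨nat_lit 7, [⟨nat_lit 3, nat_lit 4320, nat_lit 15696, nat_lit 7488, nat_lit 8736, nat_lit 11328, R10_156, R12_182, R2_236⟩]⟩]⟩], [], [⟨nat_lit 0, [⟨nat_lit 2, [⟨nat_lit 6, nat_lit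 4368, nat_lit 4800, nat_lit 8160, nat_lit 9456, nat_lit 11856, R3_170, R2_197, R1_247⟩]⟩]⟩,
 ⟨nat_lit 2, [⟨nat_lit 2, [⟨nat_lit 6, nat_lit 4416, nat_lit 5184, nat_lit 8304, nat_lit 8784, nat_lit 11904, R10_173, R12_183, R1_248⟩]⟩, ⟨nat_lit 6, [⟨nat_lit 4, nat_lit 4464, nat_lit 5040, nat_lit 7392, nat_lit 9504, nat_lit 8496, R1_154, R2_198, R3_177⟩, ⟨nat_lit 6, nat_lit 4512, nat_lit 5136, nat_lit 7440, nat_lit 8688, nat_lit 12864, R1_155, R12_181, R10_268⟩, ⟨nat_lit 7, nat_lit 4560, nat_lit 5088, nat_lit 7488, nat_lit 10320, nat_lit 10464, R1_156, R1_215, R0_218⟩]⟩]⟩,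
 ⟨nat_lit 3, [⟨nat_lit 0, [⟨nat_lit 2, nat_lit 4608, nat_lit 4848, nat_lit 12000, nat_lit 13776, nat_lit 12048, R5_250, R11_287, R5_251⟩]⟩, ⟨nat_lit 2, [⟨nat_lit 2, nat_lit 4656, nat_lit 4992, nat_lit 6336, nat_lit 13872, nat_lit 16800, R0_132, R11_289, R11_350⟩, ⟨nat_lit 6, nat_lit 4704, nat_lit 4944, nat_lit 6384, nat_lit 10272, nat_lit 11952, R0_133, R1_214, R1_249⟩]⟩, ⟨nat_lit 3, [⟨nat_lit 2, nat_lit 4752, nat_lit 4896, nat_lit 8928, nat_lit 13824, nat_lit 10416, R11_186, R11_288, R0_217⟩]⟩]⟩,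
 ⟨nat_lit 4, [⟨nat_lit 7, [⟨nat_lit 3, nat_lit 4800, nat_lit 4368, nat_lit 8160, nat_lit 9456, nat_lit 11856, R3_170, R2_197, R1_247⟩]⟩]⟩,
 ⟨nat_lit 6, [⟨nat_lit 4, [⟨nat_lit 7, nat_lit 4848, nat_lit 4608, nat_lit 12000, nat_lit 13776, nat_lit 12048, R5_250, R11_287, R5_251⟩]⟩, ⟨nat_lit 6, [⟨nat_lit 7, nat_lit 4896, nat_lit 4752, nat_lit 8928, nat_lit 13824, nat_lit 10416, R11_186, R11_288, R0_217⟩]⟩, ⟨nat_lit 7, [⟨nat_lit 3, nat_lit 4944, nat_lit 4704, nat_lit 6384, nat_lit 10272, nat_lit 11952, R0_133, R1_214, R1_249⟩, ⟨nat_lit 7, nat_lit 4992, nat_lit 4656, nat_lit 6336, nat_lit 13872, nat_lit 16800, R0_132, R11_289, R11_350⟩]⟩]⟩,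
 ⟨nat_lit 7, [⟨nat_lit 3, [⟨nat_lit 0, nat_lit 5040, nat_lit 4464, nat_lit 7392, nat_lit 9504, nat_lit 8496, R1_154, R2_198, R3_177⟩, ⟨nat_lit 2, nat_lit 5088, nat_lit 4560, nat_lit 7488, nat_lit 10320, nat_lit 10464, R1_156, R1_215, R0_218⟩, ⟨nat_lit 3, nat_lit 5136, nat_lit 4512, nat_lit 7440, nat_lit 8688, nat_lit 12864, R1_155, R12_181, R10_268⟩]⟩, ⟨nat_lit 7, [⟨nat_lit 3, nat_lit 5184, nat_lit 4416, nat_lit 8304, nat_lit 8784, nat_lit 11904, R10_173, R12_183, R1_248⟩]⟩]⟩], [⟨nat_lit 3, [⟨nat_lit 3, [⟨nat_lit 2, nat_lit 5232, nat_lit 6480, nat_lit 8880, nat_lit 12960, nat_lit 15264, R11_185, R11_270, R0_318⟩]⟩]⟩,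
 ⟨nat_lit 4, [⟨nat_lit 7, [⟨nat_lit 3, nat_lit 5280, nat_lit 6192, nat_lit 8112, nat_lit 9408, nat_lit 11328, R3_169, R2_196, R12_236⟩]⟩]⟩,
 ⟨nat_lit 6, [⟨nat_lit 7, [⟨nat_lit 3, nat_lit 5328, nat_lit 6432, nat_lit 6144, nat_lit 10224, nat_lit 11376, R0_128, R1_213, R12_237⟩]⟩]⟩,
 ⟨nat_lit 7, [⟨nat_lit 3, [⟨nat_lit 0, nat_lit 5376, nat_lit 6336, nat_lit 7056, nat_lit 9888, nat_lit 13056, R1_147, R2_206, R3_272⟩, ⟨nat_lit 2, nat_lit 5424, nat_lit 6384, nat_lit 7104, nat_lit 10704, nat_lit 15120, R1_148, R1_223, R0_315⟩]⟩, ⟨nat_lit 7, [⟨nat_lit 0, nat_lit 5472, nat_lit 6240, nat_lit 8016, nat_lit 7344, nat_lit 7392, R10_167, R2_153, R2_154⟩, ⟨nat_lit 3, nat_lit 5520, nat_lit 6288, nat_lit 8064, nat_lit 8832, nat_lit 11424, R10_168, R12_184, R12_238⟩]⟩]⟩]], [[], [], [], [], [⟨nat_lit 4, [⟨nat_lit 4, [⟨nat_lit 1,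 nat_lit 5568, nat_lit 9024, nat_lit 14352, nat_lit 13536, nat_lit 10896, R4_299, R8_282, R4_227⟩]⟩]⟩,
 ⟨nat_lit 6, [⟨nat_lit 4, [⟨nat_lit 1, nat_lit 5616, nat_lit 10608, nat_lit 17568, nat_lit 2016, nat_lit 10944, R5_366, R5_42, R4_228⟩]⟩]⟩], [], [], [⟨nat_lit 4, [⟨nat_lit 4, [⟨nat_lit 1, nat_lit 5664, nat_lit 16464, nat_lit 14496, nat_lit 13824, nat_lit 13152, R4_302, R8_288, R5_274⟩]⟩, ⟨nat_lit 7, [⟨nat_lit 1, nat_lit 5712, nat_lit 16512, nat_lit 8784, nat_lit 13968, nat_lit 14448, R3_183, R8_291, R11_301⟩]⟩]⟩,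
 ⟨nat_lit 6, [⟨nat_lit 4, [⟨nat_lit 1, nat_lit 5760, nat_lit 17760, nat_lit 17664, nat_lit 10752, nat_lit 13488, R5_368, R5_224, R5_281⟩]⟩, ⟨nat_lit 7, [⟨nat_lit 1, nat_lit 5808, nat_lit 17808, nat_lit 3024, nat_lit 10800, nat_lit 14592, R0_63, R5_225, R11_304⟩]⟩]⟩]], [], [[], [], [], [], [⟨nat_lit 4, [⟨nat_lit 4, [⟨nat_lit 1, nat_lit 5856, nat_lit 5328, nat_lit 15264, nat_lit 9072, nat_lit 11280, R4_318, R5_189, R4_235⟩]⟩]⟩,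
 ⟨nat_lit 6, [⟨nat_lit 4, [⟨nat_lit 1, nat_lit 5904, nat_lit 5376, nat_lit 17616, nat_lit 11520, nat_lit 11328, R5_367, R11_240, R4_236⟩, ⟨nat_lit 5, nat_lit 5952, nat_lit 15216, nat_lit 13680, nat_lit 9696, nat_lit 11760, R5_285, R1_202, R7_245⟩]⟩, ⟨nat_lit 7, [⟨nat_lit 5, nat_lit 6000, nat_lit 15792, nat_lit 4128, nat_lit 10176, nat_lit 11376, R0_86, R1_212, R2_237⟩]⟩]⟩], [], [⟨nat_lit 6, [⟨nat_lit 4, [⟨nat_lit 5, nat_lit 6048, nat_lit 6000, nat_lit 13968, nat_lit 9744, nat_lit 22368, R5_291, R1_203, R14_466⟩]⟩, ⟨nat_lit 6, [⟨nat_lit 5, nat_lit 6096, nat_lit 6864, nat_lit 7248, nat_lit 9936, nat_lit 17136, R11_151, R1_207, R12_357⟩]⟩, ⟨nat_lit 7, [⟨nat_lit 5, nat_lit 6144, nat_lit 6432, nat_lit 5328, nat_lit 10224, nat_lit 11376, R0_111, R1_213, R12_237⟩]⟩]⟩], [⟨nat_lit 4, [⟨nat_lit 4, [⟨nat_lit 1, nat_lit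 6192, nat_lit 2304, nat_lit 15408, nat_lit 9120, nat_lit 13440, R4_321, R5_190, R5_280⟩]⟩, ⟨nat_lit 7, [⟨nat_lit 1, nat_lit 6240, nat_lit 2736, nat_lit 9600, nat_lit 10608, nat_lit 14880, R3_200, R5_221, R11_310⟩]⟩]⟩,
 ⟨nat_lit 6, [⟨nat_lit 4, [⟨nat_lit 1, nat_lit 6288, nat_lit 3984, nat_lit 17760, nat_lit 11568, nat_lit 13584, R5_370, R11_241, R5_283⟩]⟩, ⟨nat_lit 7, [⟨nat_lit 1, nat_lit 6336, nat_lit 4656, nat_lit 4992, nat_lit 13872, nat_lit 15024, R0_104, R11_289, R11_313⟩, ⟨nat_lit 5, nat_lit 6384, nat_lit 4704, nat_lit 4944, nat_lit 10272, nat_lit 11952, R0_103, R1_214, R1_249⟩]⟩]⟩]], [[], [], [], [⟨nat_lit 4, [⟨nat_lit 7, [⟨nat_lit 0, nat_lit 6432, nat_lit 3120, nat_lit 9024, nat_lit 11760, nat_lit 8736, R3_188, R13_245, R2_182⟩, ⟨nat_lit 1, nat_lit 6480, nat_lit 3216, nat_lit 9456, nat_lit 9312, nat_lit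 9552, R3_197, R9_194, R1_199⟩, ⟨nat_lit 3, nat_lit 6528, nat_lit 3168, nat_lit 9264, nat_lit 15600, nat_lit 11232, R3_193, R3_325, R12_234⟩]⟩]⟩,
 ⟨nat_lit 6, [⟨nat_lit 7, [⟨nat_lit 0, nat_lit 6576, nat_lit 5328, nat_lit 3792, nat_lit 8448, nat_lit 9648, R0_79, R3_176, R2_201⟩, ⟨nat_lit 1, nat_lit 6624, nat_lit 5424, nat_lit 3888, nat_lit 8832, nat_lit 10464, R0_81, R0_184, R1_218⟩, ⟨nat_lit 3, nat_lit 6672, nat_lit 5376, nat_lit 3840, nat_lit 10944, nat_lit 11280, R0_80, R10_228, R12_235⟩]⟩]⟩,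
 ⟨nat_lit 7, [⟨nat_lit 3, [⟨nat_lit 0, nat_lit 6720, nat_lit 4320, nat_lit 4800, nat_lit 15072, nat_lit 15120, R1_100, R3_314, R3_315⟩, ⟨nat_lit 1, nat_lit 6768, nat_lit 4368, nat_lit 4896, nat_lit 14016, nat_lit 11760, R1_102, R0_292, R10_245⟩, ⟨nat_lit 2, nat_lit 6816, nat_lit 4416, nat_lit 4848, nat_lit 11616, nat_lit 14352, R1_101, R10_242, R0_299⟩]⟩, ⟨nat_lit 7, [⟨nat_lit 0, nat_lit 6864, nat_lit 3696, nat_lit 5520, nat_lit 12960, nat_lit 9984, R10_115, R3_270, R2_208⟩, ⟨nat_lit 1, nat_lit 6912, nat_lit 3744, nat_lit 5568, nat_lit 14064, nat_lit 10800, R10_116, R0_293, R1_225⟩]⟩]⟩], [], [], [], [⟨nat_lit 4, [⟨nat_lit 4, [⟨nat_lit 1, nat_lit 6960, nat_lit 3120, nat_lit 14832, nat_lit 8352, nat_lit 13296, R4_309, R9_174, R5_277⟩]⟩, ⟨nat_lit 7, [⟨nat_lit 1, nat_lit 7008, nat_lit 3744, nat_lit 9408, nat_lit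 9264, nat_lit 15264, R3_196, R9_193, R11_318⟩]⟩]⟩,
 ⟨nat_lit 6, [⟨nat_lit 4, [⟨nat_lit 1, nat_lit 7056, nat_lit 5808, nat_lit 17712, nat_lit 7584, nat_lit 13536, R5_369, R0_158, R5_282⟩]⟩, ⟨nat_lit 7, [⟨nat_lit 1, nat_lit 7104, nat_lit 6288, nat_lit 3408, nat_lit 8784, nat_lit 15360, R0_71, R0_183, R11_320⟩]⟩]⟩,
 ⟨nat_lit 7, [⟨nat_lit 7, [⟨nat_lit 1, nat_lit 7152, nat_lit 4416, nat_lit 4992, nat_lit 14208, nat_lit 15504, R10_104, R0_296, R11_323⟩]⟩]⟩]]], [[], [], [], [], [[], [], [], [], [⟨nat_lit 4, [⟨nat_lit 4, [⟨nat_lit 1, nat_lit 7200, nat_lit 5328, nat_lit 17952, nat_lit 16800, nat_lit 7488, R8_374, R8_350, R4_156⟩]⟩, ⟨nat_lit 5, [⟨nat_lit 1, nat_lit 7248, nat_lit 5856, nat_lit 9792, nat_lit 16944, nat_lit 2544, R5_204, R8_353, R3_53⟩]⟩]⟩,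
 ⟨nat_lit 5, [⟨nat_lit 4, [⟨nat_lit 1, nat_lit 7296, nat_lit 5376, nat_lit 3888, nat_lit 16896, nat_lit 7680, R5_81, R9_352, R4_160⟩]⟩, ⟨nat_lit 5, [⟨nat_lit 1, nat_lit 7344, nat_lit 5904, nat_lit 12240, nat_lit 17040, nat_lit 2640, R11_255, R9_355, R3_55⟩]⟩]⟩,
 ⟨nat_lit 6, [⟨nat_lit 4, [⟨nat_lit 1, nat_lit 7392, nat_lit 5424, nat_lit 3552, nat_lit 2304, nat_lit 7536, R9_74, R5_48, R4_157⟩]⟩, ⟨nat_lit 5, [⟨nat_lit 1, nat_lit 7440, nat_lit 5952, nat_lit 2016, nat_lit 2352, nat_lit 2592, R0_42, R5_49, R3_54⟩]⟩]⟩], [⟨nat_lit 4, [⟨nat_lit 5, [⟨nat_lit 1, nat_lit 7488, nat_lit 16992, nat_lit 9888, nat_lit 17472, nat_lit 5760, R5_206, R8_364, R10_120⟩]⟩]⟩,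
 ⟨nat_lit 5, [⟨nat_lit 5, [⟨nat_lit 1, nat_lit 7536, nat_lit 17376, nat_lit 12336, nat_lit 17616, nat_lit 5952, R11_257, R9_367, R10_124⟩]⟩]⟩,
 ⟨nat_lit 6, [⟨nat_lit 5, [⟨nat_lit 1, nat_lit 7584, nat_lit 17712, nat_lit 7056, nat_lit 13536, nat_lit 5808, R0_147, R5_282, R10_121⟩]⟩]⟩], [], [⟨nat_lit 4, [⟨nat_lit 4, [⟨nat_lit 1, nat_lit 7632, nat_lit 16416, nat_lit 18768, nat_lit 17088, nat_lit 9456, R8_391, R8_356, R5_197⟩]⟩, ⟨nat_lit 5, [⟨nat_lit 1, nat_lit 7680, nat_lit 16512, nat_lit 9840, nat_lit 17376, nat_lit 9024, R5_205, R8_362, R0_188⟩]⟩, ⟨nat_lit 7, [⟨nat_lit 1, nat_lit 7728, nat_lit 16464, nat_lit 8640, nat_lit 17232, nat_lit 14352, R9_180, R8_359, R11_299⟩]⟩]⟩,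
 ⟨nat_lit 5, [⟨nat_lit 4, [⟨nat_lit 1, nat_lit 7776, nat_lit 17280, nat_lit 12240, nat_lit 17184, nat_lit 11712, R5_255, R9_358, R5_244⟩]⟩, ⟨nat_lit 5, [⟨nat_lit 1, nat_lit 7824, nat_lit 17376, nat_lit 12288, nat_lit 17472, nat_lit 9120, R11_256, R9_364, R0_190⟩]⟩, ⟨nat_lit 7, [⟨nat_lit 1, nat_lit 7872, nat_lit 17328, nat_lit 7872, nat_lit 17328, nat_lit 14688, R0_164, R9_361, R11_306⟩]⟩]⟩,
 ⟨nat_lit 6, [⟨nat_lit 4, [⟨nat_lit 1, nat_lit 7920, nat_lit 18048, nat_lit 10032, nat_lit 11136, nat_lit 11088, R9_209, R5_232, R5_231⟩]⟩, ⟨nat_lit 5, [⟨nat_lit 1, nat_lit 7968, nat_lit 18096, nat_lit 9168, nat_lit 11184, nat_lit 9072, R0_191, R5_233, R0_189⟩]⟩]⟩]], [[], [], [], [], [⟨nat_lit 5, [⟨nat_lit 4, [⟨nat_lit 1, nat_lit 8016, nat_lit 192, nat_lit 4032, nat_lit 14496, nat_lit 8064, R5_84, R0_302, R4_168⟩]⟩, ⟨nat_lit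 5, [⟨nat_lit 1, nat_lit 8064, nat_lit 5856, nat_lit 13296, nat_lit 14640, nat_lit 10176, R11_277, R0_305, R3_212⟩]⟩]⟩], [⟨nat_lit 5, [⟨nat_lit 5, [⟨nat_lit 1, nat_lit 8112, nat_lit 22080, nat_lit 13392, nat_lit 15216, nat_lit 6672, R11_279, R0_317, R10_139⟩]⟩]⟩], [], [⟨nat_lit 5, [⟨nat_lit 4, [⟨nat_lit 1, nat_lit 8160, nat_lit 14880, nat_lit 12480, nat_lit 14784, nat_lit 12624, R5_260, R0_308, R5_263⟩]⟩, ⟨nat_lit 5, [⟨nat_lit 1, nat_lit 8208, nat_lit 14976, nat_lit 13344, nat_lit 15072, nat_lit 9264, R11_278, R0_314, R0_193⟩]⟩, ⟨nat_lit 7, [⟨nat_lit 1, nat_lit 8256, nat_lit 14928, nat_lit 8256, nat_lit 14928, nat_lit 15600, R0_172, R0_311, R11_325⟩]⟩]⟩]], [[], [], [], [], [⟨nat_lit 4, [⟨nat_lit 4, [⟨nat_lit 1, nat_lit 8304, nat_lit 288, nat_lit 18048, nat_lit 10032, nat_lit 7776, R8_376, R5_209, R4_162⟩]⟩, ⟨nat_lit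 5, [⟨nat_lit 1, nat_lit 8352, nat_lit 5424, nat_lit 12096, nat_lit 12336, nat_lit 7296, R5_252, R5_257, R3_152⟩]⟩]⟩,
 ⟨nat_lit 5, [⟨nat_lit 4, [⟨nat_lit 1, nat_lit 8400, nat_lit 384, nat_lit 4176, nat_lit 1056, nat_lit 7920, R5_87, R0_22, R4_165⟩]⟩, ⟨nat_lit 5, [⟨nat_lit 1, nat_lit 8448, nat_lit 5520, nat_lit 15072, nat_lit 1104, nat_lit 7392, R11_314, R0_23, R3_154⟩]⟩]⟩,
 ⟨nat_lit 6, [⟨nat_lit 4, [⟨nat_lit 1, nat_lit 8496, nat_lit 432, nat_lit 3600, nat_lit 12480, nat_lit 7824, R9_75, R11_260, R4_163⟩, ⟨nat_lit 5, nat_lit 8544, nat_lit 768, nat_lit 3120, nat_lit 9792, nat_lit 7872, R9_65, R1_204, R7_164⟩]⟩, ⟨nat_lit 5, [⟨nat_lit 1, nat_lit 8592, nat_lit 5568, nat_lit 2064, nat_lit 15312, nat_lit 7344, R0_43, R11_319, R3_153⟩, ⟨nat_lit 5, nat_lit 8640, nat_lit 6048, nat_lit 1584, nat_lit 10368, nat_lit 6720,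 R0_33, R1_216, R2_140⟩]⟩]⟩], [⟨nat_lit 4, [⟨nat_lit 5, [⟨nat_lit 1, nat_lit 8688, nat_lit 3264, nat_lit 12144, nat_lit 12384, nat_lit 6240, R5_253, R5_258, R10_130⟩]⟩]⟩,
 ⟨nat_lit 5, [⟨nat_lit 5, [⟨nat_lit 1, nat_lit 8736, nat_lit 3360, nat_lit 15120, nat_lit 10368, nat_lit 6384, R11_315, R0_216, R10_133⟩]⟩]⟩,
 ⟨nat_lit 6, [⟨nat_lit 5, [⟨nat_lit 1, nat_lit 8784, nat_lit 3408, nat_lit 7104, nat_lit 15360, nat_lit 6288, R0_148, R11_320, R10_131⟩, ⟨nat_lit 5, nat_lit 8832, nat_lit 3888, nat_lit 6624, nat_lit 10464, nat_lit 5424, R0_138, R1_218, R1_113⟩]⟩]⟩], [⟨nat_lit 6, [⟨nat_lit 4, [⟨nat_lit 5, nat_lit 8880, nat_lit 13008, nat_lit 12864, nat_lit 9840, nat_lit 20976, R9_268, R1_205, R14_437⟩]⟩, ⟨nat_lit 5, [⟨nat_lit 5, nat_lit 8928, nat_lit 13728, nat_lit 11040, nat_lit 10416, nat_lit 16752, R0_230, R1_217, R12_349⟩]⟩,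 ⟨nat_lit 6, [⟨nat_lit 5, nat_lit 8976, nat_lit 13872, nat_lit 10848, nat_lit 9984, nat_lit 16512, R0_226, R1_208, R12_344⟩]⟩]⟩]], [[], [], [], [], [], [], [], [⟨nat_lit 4, [⟨nat_lit 4, [⟨nat_lit 1, nat_lit 9024, nat_lit 7680, nat_lit 18864, nat_lit 8736, nat_lit 9840, R8_393, R9_182, R5_205⟩]⟩, ⟨nat_lit 5, [⟨nat_lit 1, nat_lit 9072, nat_lit 7968, nat_lit 11184, nat_lit 10080, nat_lit 9168, R5_233, R9_210, R0_191⟩]⟩, ⟨nat_lit 7, [⟨nat_lit 1, nat_lit 9120, nat_lit 7824, nat_lit 9744, nat_lit 9840, nat_lit 15216, R9_203, R9_205, R11_317⟩]⟩]⟩,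
 ⟨nat_lit 6, [⟨nat_lit 4, [⟨nat_lit 1, nat_lit 9168, nat_lit 9072, nat_lit 10080, nat_lit 7968, nat_lit 11184, R9_210, R0_166, R5_233⟩]⟩, ⟨nat_lit 5, [⟨nat_lit 1, nat_lit 9216, nat_lit 9216, nat_lit 9216, nat_lit 9216, nat_lit 9216, R0_192, R0_192, R0_192⟩]⟩]⟩,
 ⟨nat_lit 7, [⟨nat_lit 7, [⟨nat_lit 1, nat_lit 9264, nat_lit 8208, nat_lit 15072, nat_lit 14976, nat_lit 15456, R0_314, R0_312, R11_322⟩]⟩]⟩]]], [[], [], [], [], [[], [], [], [⟨nat_lit 4, [⟨nat_lit 3, [⟨nat_lit 0, nat_lit 9312, nat_lit 14544, nat_lit 7584, nat_lit 12480, nat_lit 11328, R2_158, R6_260, R3_236⟩, ⟨nat_lit 1, nat_lit 9360, nat_lit 14688, nat_lit 8064, nat_lit 14784, nat_lit 9216, R2_168, R8_308, R10_192⟩, ⟨nat_lit 2, nat_lit 9408, nat_lit 14784, nat_lit 7920, nat_lit 12816, nat_lit 12624, R2_165, R4_267, R0_263⟩]⟩, ⟨nat_lit 7, [⟨nat_lit 0,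 nat_lit 9456, nat_lit 14496, nat_lit 11280, nat_lit 13248, nat_lit 7632, R3_235, R6_276, R2_159⟩, ⟨nat_lit 1, nat_lit 9504, nat_lit 14640, nat_lit 16272, nat_lit 14736, nat_lit 8160, R3_339, R8_307, R1_170⟩]⟩]⟩,
 ⟨nat_lit 5, [⟨nat_lit 3, [⟨nat_lit 0, nat_lit 9552, nat_lit 15120, nat_lit 8112, nat_lit 14928, nat_lit 16320, R1_169, R8_311, R3_340⟩, ⟨nat_lit 1, nat_lit 9600, nat_lit 15264, nat_lit 8592, nat_lit 15840, nat_lit 9840, R1_179, R9_330, R10_205⟩, ⟨nat_lit 2, nat_lit 9648, nat_lit 15408, nat_lit 8448, nat_lit 16704, nat_lit 12672, R1_176, R5_348, R0_264⟩]⟩, ⟨nat_lit 7, [⟨nat_lit 0, nat_lit 9696, nat_lit 15072, nat_lit 9168, nat_lit 14976, nat_lit 8112, R10_191, R8_312, R2_169⟩, ⟨nat_lit 1, nat_lit 9744, nat_lit 15216, nat_lit 9792, nat_lit 15792, nat_lit 8640, R10_204, R9_329, R1_180⟩]⟩]⟩,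
 ⟨nat_lit 6, [⟨nat_lit 7, [⟨nat_lit 0, nat_lit 9792, nat_lit 15600, nat_lit 12480, nat_lit 12864, nat_lit 7968, R0_260, R4_268, R2_166⟩, ⟨nat_lit 1, nat_lit 9840, nat_lit 15696, nat_lit 12576, nat_lit 16800, nat_lit 8496, R0_262, R5_350, R1_177⟩]⟩]⟩], [], [], [], [⟨nat_lit 4, [⟨nat_lit 7, [⟨nat_lit 1, nat_lit 9888, nat_lit 8736, nat_lit 16608, nat_lit 14640, nat_lit 14400, R3_346, R8_305, R11_300⟩]⟩]⟩,
 ⟨nat_lit 5, [⟨nat_lit 7, [⟨nat_lit 1, nat_lit 9936, nat_lit 9360, nat_lit 9744, nat_lit 15696, nat_lit 14736, R10_203, R9_327, R11_307⟩]⟩]⟩,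
 ⟨nat_lit 6, [⟨nat_lit 7, [⟨nat_lit 1, nat_lit 9984, nat_lit 9552, nat_lit 2784, nat_lit 10560, nat_lit 14544, R0_58, R5_220, R11_303⟩]⟩]⟩]], [[], [], [], [⟨nat_lit 5, [⟨nat_lit 3, [⟨nat_lit 0, nat_lit 10032, nat_lit 16128, nat_lit 8736, nat_lit 10992, nat_lit 17616, R1_182, R5_229, R3_367⟩, ⟨nat_lit 1, nat_lit 10080, nat_lit 16272, nat_lit 8928, nat_lit 14304, nat_lit 12144, R1_186, R0_298, R10_253⟩, ⟨nat_lit 2, nat_lit 10128, nat_lit 16416, nat_lit 8880, nat_lit 21648, nat_lit 13968, R1_185, R11_451, R0_291⟩]⟩, ⟨nat_lit 7, [⟨nat_lit 0, nat_lit 10176, nat_lit 16080, nat_lit 10080, nat_lit 7872, nat_lit 10272, R10_210, R5_164, R2_214⟩, ⟨nat_lit 1, nat_lit 10224, nat_lit 16224, nat_lit 10368, nat_lit 14256, nat_lit 10848, R10_216, R0_297, R1_226⟩]⟩]⟩], [], [], [], [⟨nat_lit 5, [⟨nat_lit 7, [⟨nat_lit 1, nat_lit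 10272, nat_lit 19872, nat_lit 10320, nat_lit 14160, nat_lit 15648, R10_215, R0_295, R11_326⟩]⟩]⟩]], [[], [], [], [], [], [], [], [⟨nat_lit 4, [⟨nat_lit 7, [⟨nat_lit 1, nat_lit 10320, nat_lit 2976, nat_lit 17904, nat_lit 10896, nat_lit 14832, R3_373, R5_227, R11_309⟩]⟩]⟩,
 ⟨nat_lit 5, [⟨nat_lit 7, [⟨nat_lit 1, nat_lit 10368, nat_lit 3360, nat_lit 12048, nat_lit 8736, nat_lit 15120, R10_251, R0_182, R11_315⟩]⟩]⟩,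
 ⟨nat_lit 6, [⟨nat_lit 7, [⟨nat_lit 1, nat_lit 10416, nat_lit 4896, nat_lit 4752, nat_lit 14160, nat_lit 14976, R0_99, R11_295, R11_312⟩, ⟨nat_lit 5, nat_lit 10464, nat_lit 4560, nat_lit 5088, nat_lit 10320, nat_lit 7488, R0_106, R1_215, R1_156⟩]⟩]⟩]], [[], [], [], [⟨nat_lit 4, [⟨nat_lit 3, [⟨nat_lit 0, nat_lit 10512, nat_lit 4752, nat_lit 8400, nat_lit 10176, nat_lit 12288, R2_175, R13_212, R3_256⟩, ⟨nat_lit 1, nat_lit 10560, nat_lit 4800, nat_lit 10128, nat_lit 7824, nat_lit 10800, R2_211, R9_163, R10_225⟩, ⟨nat_lit 2, nat_lit 10608, nat_lit 4848, nat_lit 9168, nat_lit 8304, nat_lit 13776, R2_191, R3_173, R0_287⟩]⟩, ⟨nat_lit 7, [⟨nat_lit 0, nat_lit 10656, nat_lit 4608, nat_lit 12240, nat_lit 12144, nat_lit 8688, R3_255, R13_253, R2_181⟩, ⟨nat_lit 1, nat_lit 10704, nat_lit 4656, nat_lit 17088, nat_lit 9408,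 nat_lit 9504, R3_356, R9_196, R1_198⟩, ⟨nat_lit 3, nat_lit 10752, nat_lit 4704, nat_lit 14976, nat_lit 14832, nat_lit 11088, R3_312, R3_309, R12_231⟩]⟩]⟩,
 ⟨nat_lit 5, [⟨nat_lit 3, [⟨nat_lit 0, nat_lit 10800, nat_lit 4992, nat_lit 9216, nat_lit 9456, nat_lit 17136, R1_192, R9_197, R3_357⟩, ⟨nat_lit 2, nat_lit 10848, nat_lit 5040, nat_lit 9984, nat_lit 8976, nat_lit 13872, R1_208, R0_187, R0_289⟩]⟩, ⟨nat_lit 7, [⟨nat_lit 0, nat_lit 10896, nat_lit 4896, nat_lit 10656, nat_lit 7920, nat_lit 10224, R10_222, R9_165, R2_213⟩, ⟨nat_lit 3, nat_lit 10944, nat_lit 4944, nat_lit 11328, nat_lit 13248, nat_lit 11184, R10_236, R0_276, R12_233⟩]⟩]⟩,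
 ⟨nat_lit 6, [⟨nat_lit 7, [⟨nat_lit 0, nat_lit 10992, nat_lit 5232, nat_lit 13440, nat_lit 8400, nat_lit 9600, R0_280, R3_175, R2_200⟩, ⟨nat_lit 1, nat_lit 11040, nat_lit 5280, nat_lit 13728, nat_lit 8928, nat_lit 10416, R0_286, R0_186, R1_217⟩, ⟨nat_lit 3, nat_lit 11088, nat_lit 5328, nat_lit 13632, nat_lit 11472, nat_lit 11136, R0_284, R10_239, R12_232⟩]⟩]⟩,
 ⟨nat_lit 7, [⟨nat_lit 3, [⟨nat_lit 0, nat_lit 11136, nat_lit 5088, nat_lit 6192, nat_lit 14880, nat_lit 15024, R12_129, R3_310, R3_313⟩, ⟨nat_lit 1, nat_lit 11184, nat_lit 5136, nat_lit 6288, nat_lit 13200, nat_lit 11712, R12_131, R0_275, R10_244⟩, ⟨nat_lit 2, nat_lit 11232, nat_lit 5184, nat_lit 6240, nat_lit 11568, nat_lit 13824, R12_130, R10_241, R0_288⟩]⟩]⟩]]], [[], [[⟨nat_lit 1, [⟨nat_lit 0, [⟨nat_lit 2, nat_lit 11280, nat_lit 1920, nat_lit 1440,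 nat_lit 13248, nat_lit 4080, R7_30, R10_276, R8_85⟩]⟩, ⟨nat_lit 3, [⟨nat_lit 2, nat_lit 11328, nat_lit 8544, nat_lit 432, nat_lit 13536, nat_lit 12144, R2_9, R10_282, R9_253⟩]⟩]⟩], [⟨nat_lit 1, [⟨nat_lit 0, [⟨nat_lit 2, nat_lit 11376, nat_lit 480, nat_lit 7440, nat_lit 13392, nat_lit 3264, R7_155, R10_279, R9_68⟩]⟩, ⟨nat_lit 1, [⟨nat_lit 2, nat_lit 11424, nat_lit 6192, nat_lit 5664, nat_lit 13920, nat_lit 1728, R2_118, R10_290, R0_36⟩]⟩]⟩], [], [⟨nat_lit 1, [⟨nat_lit 3, [⟨nat_lit 2, nat_lit 11472, nat_lit 5712, nat_lit 6144, nat_lit 13680, nat_lit 1776, R2_128, R10_285, R0_37⟩]⟩]⟩]], [], [], [], [[⟨nat_lit 1, [⟨nat_lit 0, [⟨nat_lit 2, nat_lit 11520, nat_lit 1776, nat_lit 864, nat_lit 10512, nat_lit 4224, R7_18, R1_219, R8_88⟩]⟩, ⟨nat_lit 3, [⟨nat_lit 2, nat_lit 11568, nat_lit 8496, nat_lit 2208, nat_lit 10608,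 nat_lit 10272, R2_46, R1_221, R9_214⟩]⟩]⟩,
 ⟨nat_lit 5, [⟨nat_lit 0, [⟨nat_lit 0, nat_lit 11616, nat_lit 1056, nat_lit 720, nat_lit 8688, nat_lit 3168, R4_15, R5_181, R6_66⟩, ⟨nat_lit 1, nat_lit 11664, nat_lit 1200, nat_lit 864, nat_lit 432, nat_lit 2880, R4_18, R0_9, R4_60⟩, ⟨nat_lit 2, nat_lit 11712, nat_lit 1248, nat_lit 768, nat_lit 1392, nat_lit 4416, R4_16, R11_29, R8_92⟩]⟩]⟩], [⟨nat_lit 1, [⟨nat_lit 0, [⟨nat_lit 2, nat_lit 11760, nat_lit 12672, nat_lit 6864, nat_lit 10560, nat_lit 3408, R7_143, R1_220, R9_71⟩]⟩, ⟨nat_lit 1, [⟨nat_lit 2, nat_lit 11808, nat_lit 13488, nat_lit 5040, nat_lit 10752, nat_lit 1872, R2_105, R1_224, R0_39⟩]⟩]⟩,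
 ⟨nat_lit 5, [⟨nat_lit 0, [⟨nat_lit 0, nat_lit 11856, nat_lit 4560, nat_lit 7104, nat_lit 10080, nat_lit 18096, R4_148, R5_210, R8_377⟩, ⟨nat_lit 1, nat_lit 11904, nat_lit 4608, nat_lit 7248, nat_lit 480, nat_lit 4272, R4_151, R0_10, R5_89⟩, ⟨nat_lit 2, nat_lit 11952, nat_lit 4704, nat_lit 7152, nat_lit 1536, nat_lit 3648, R4_149, R11_32, R9_76⟩]⟩, ⟨nat_lit 1, [⟨nat_lit 0, nat_lit 12000, nat_lit 5232, nat_lit 5664, nat_lit 12432, nat_lit 12576, R3_118, R5_259, R5_262⟩, ⟨nat_lit 1, nat_lit 12048, nat_lit 5280, nat_lit 5856, nat_lit 528, nat_lit 15552, R3_122, R0_11, R11_324⟩, ⟨nat_lit 2, nat_lit 12096, nat_lit 5376, nat_lit 5808, nat_lit 1680, nat_lit 2112, R3_121, R11_35, R0_44⟩]⟩]⟩]]], [[[⟨nat_lit 0, [⟨nat_lit 0, [⟨nat_lit 2, nat_lit 12144, nat_lit 17424, nat_lit 5616, nat_lit 12480, nat_lit 11328, R7_117,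 R4_260, R8_236⟩]⟩, ⟨nat_lit 2, [⟨nat_lit 2, nat_lit 12192, nat_lit 17520, nat_lit 4032, nat_lit 12960, nat_lit 13056, R2_84, R4_270, R5_272⟩]⟩, ⟨nat_lit 3, [⟨nat_lit 2, nat_lit 12240, nat_lit 17472, nat_lit 7776, nat_lit 12672, nat_lit 11280, R2_162, R4_264, R9_235⟩]⟩]⟩,
 ⟨nat_lit 3, [⟨nat_lit 3, [⟨nat_lit 2, nat_lit 12288, nat_lit 17808, nat_lit 8304, nat_lit 16368, nat_lit 11328, R1_173, R5_341, R9_236⟩]⟩]⟩], [], [⟨nat_lit 0, [⟨nat_lit 0, [⟨nat_lit 2, nat_lit 12336, nat_lit 15552, nat_lit 5664, nat_lit 12528, nat_lit 2736, R7_118, R4_261, R5_57⟩]⟩, ⟨nat_lit 2, [⟨nat_lit 2, nat_lit 12384, nat_lit 15648, nat_lit 4080, nat_lit 13008, nat_lit 15984, R2_85, R4_271, R11_333⟩, ⟨nat_lit 6, nat_lit 12432, nat_lit 11616, nat_lit 12720, nat_lit 14112, nat_lit 11568, R2_265, R7_294, R1_241⟩]⟩, ⟨nat_lit 3, [⟨nat_lit 2,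 nat_lit 12480, nat_lit 15600, nat_lit 7968, nat_lit 12864, nat_lit 9792, R2_166, R4_268, R0_204⟩]⟩]⟩,
 ⟨nat_lit 2, [⟨nat_lit 2, [⟨nat_lit 6, nat_lit 12528, nat_lit 11760, nat_lit 14064, nat_lit 16800, nat_lit 11616, R1_293, R14_350, R1_242⟩]⟩]⟩,
 ⟨nat_lit 3, [⟨nat_lit 3, [⟨nat_lit 2, nat_lit 12576, nat_lit 15696, nat_lit 8496, nat_lit 16800, nat_lit 9840, R1_177, R5_350, R0_205⟩]⟩]⟩], [⟨nat_lit 0, [⟨nat_lit 3, [⟨nat_lit 2, nat_lit 12624, nat_lit 14784, nat_lit 7920, nat_lit 12816, nat_lit 9408, R2_165, R4_267, R0_196⟩]⟩]⟩,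
 ⟨nat_lit 3, [⟨nat_lit 3, [⟨nat_lit 2, nat_lit 12672, nat_lit 15408, nat_lit 8448, nat_lit 16704, nat_lit 9648, R1_176, R5_348, R0_201⟩]⟩]⟩]], [[⟨nat_lit 0, [⟨nat_lit 0, [⟨nat_lit 2, nat_lit 12720, nat_lit 9072, nat_lit 6288, nat_lit 1728, nat_lit 11472, R7_131, R3_36, R8_239⟩]⟩, ⟨nat_lit 2, [⟨nat_lit 2, nat_lit 12768, nat_lit 11424, nat_lit 4464, nat_lit 6672, nat_lit 14160, R2_93, R3_139, R5_295⟩]⟩, ⟨nat_lit 3, [⟨nat_lit 2, nat_lit 12816, nat_lit 10848, nat_lit 9024, nat_lit 8256, nat_lit 12816, R2_188, R3_172, R9_267⟩]⟩]⟩,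
 ⟨nat_lit 1, [⟨nat_lit 0, [⟨nat_lit 2, nat_lit 12864, nat_lit 9120, nat_lit 19152, nat_lit 16080, nat_lit 12048, R14_399, R10_335, R8_251⟩]⟩, ⟨nat_lit 2, [⟨nat_lit 2, nat_lit 12912, nat_lit 11472, nat_lit 15792, nat_lit 17712, nat_lit 14208, R12_329, R10_369, R5_296⟩]⟩, ⟨nat_lit 3, [⟨nat_lit 2, nat_lit 12960, nat_lit 10944, nat_lit 1392, nat_lit 16896, nat_lit 12912, R12_29, R10_352, R9_269⟩]⟩]⟩,
 ⟨nat_lit 3, [⟨nat_lit 3, [⟨nat_lit 2, nat_lit 13008, nat_lit 10896, nat_lit 9840, nat_lit 8880, nat_lit 12864, R1_205, R0_185, R9_268⟩]⟩]⟩], [⟨nat_lit 0, [⟨nat_lit 0, [⟨nat_lit 2, nat_lit 13056, nat_lit 7680, nat_lit 6384, nat_lit 1968, nat_lit 12240, R7_133, R3_41, R9_255⟩]⟩, ⟨nat_lit 2, [⟨nat_lit 2, nat_lit 13104, nat_lit 9552, nat_lit 4560, nat_lit 6912, nat_lit 1488, R2_95, R3_144, R0_31⟩]⟩]⟩,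
 ⟨nat_lit 1, [⟨nat_lit 0, [⟨nat_lit 2, nat_lit 13152, nat_lit 7728, nat_lit 20832, nat_lit 16272, nat_lit 13008, R14_434, R10_339, R9_271⟩]⟩, ⟨nat_lit 1, [⟨nat_lit 2, nat_lit 13200, nat_lit 8016, nat_lit 16608, nat_lit 18288, nat_lit 11184, R12_346, R10_381, R0_233⟩]⟩, ⟨nat_lit 2, [⟨nat_lit 2, nat_lit 13248, nat_lit 9600, nat_lit 16464, nat_lit 17856, nat_lit 10944, R12_343, R10_372, R0_228⟩]⟩]⟩], [⟨nat_lit 0, [⟨nat_lit 0, [⟨nat_lit 2, nat_lit 13296, nat_lit 4512, nat_lit 6480, nat_lit 1824, nat_lit 2880, R7_135, R3_38, R5_60⟩]⟩, ⟨nat_lit 2, [⟨nat_lit 2, nat_lit 13344, nat_lit 5808, nat_lit 4656, nat_lit 6768, nat_lit 17232, R2_97, R3_141, R11_359⟩, ⟨nat_lit 6, nat_lit 13392, nat_lit 6528, nat_lit 13632, nat_lit 13392, nat_lit 12000, R2_284, R2_279, R1_250⟩]⟩, ⟨nat_lit 3, [⟨nat_lit 2, nat_lit 13440, nat_lit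 5232, nat_lit 9600, nat_lit 8400, nat_lit 10992, R2_200, R3_175, R0_229⟩]⟩]⟩,
 ⟨nat_lit 1, [⟨nat_lit 0, [⟨nat_lit 2, nat_lit 13488, nat_lit 4560, nat_lit 22128, nat_lit 16128, nat_lit 14112, R14_461, R10_336, R5_294⟩]⟩, ⟨nat_lit 2, [⟨nat_lit 2, nat_lit 13536, nat_lit 5856, nat_lit 17088, nat_lit 17760, nat_lit 17280, R12_356, R10_370, R11_360⟩, ⟨nat_lit 6, nat_lit 13584, nat_lit 6576, nat_lit 15408, nat_lit 14736, nat_lit 12096, R12_321, R1_307, R1_252⟩]⟩, ⟨nat_lit 3, [⟨nat_lit 2, nat_lit 13632, nat_lit 5328, nat_lit 11136, nat_lit 17088, nat_lit 11088, R12_232, R10_356, R0_231⟩]⟩]⟩,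
 ⟨nat_lit 2, [⟨nat_lit 2, [⟨nat_lit 6, nat_lit 13680, nat_lit 6624, nat_lit 14976, nat_lit 14208, nat_lit 12048, R1_312, R12_296, R1_251⟩]⟩]⟩,
 ⟨nat_lit 3, [⟨nat_lit 3, [⟨nat_lit 2, nat_lit 13728, nat_lit 5280, nat_lit 10416, nat_lit 8928, nat_lit 11040, R1_217, R0_186, R0_230⟩]⟩]⟩], [⟨nat_lit 0, [⟨nat_lit 3, [⟨nat_lit 2, nat_lit 13776, nat_lit 4848, nat_lit 9168, nat_lit 8304, nat_lit 10608, R2_191, R3_173, R0_221⟩]⟩]⟩,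
 ⟨nat_lit 1, [⟨nat_lit 3, [⟨nat_lit 2, nat_lit 13824, nat_lit 5184, nat_lit 6240, nat_lit 17040, nat_lit 11232, R12_130, R10_355, R0_234⟩]⟩]⟩,
 ⟨nat_lit 3, [⟨nat_lit 3, [⟨nat_lit 2, nat_lit 13872, nat_lit 5040, nat_lit 9984, nat_lit 8976, nat_lit 10848, R1_208, R0_187, R0_226⟩]⟩]⟩]], [[], [], [⟨nat_lit 2, [⟨nat_lit 2, [⟨nat_lit 6, nat_lit 13920, nat_lit 12192, nat_lit 15168, nat_lit 15216, nat_lit 11760, R1_316, R12_317, R1_245⟩]⟩]⟩]], [[], [], [], [⟨nat_lit 3, [⟨nat_lit 3, [⟨nat_lit 2, nat_lit 13968, nat_lit 16416, nat_lit 8880, nat_lit 21648, nat_lit 10128, R1_185, R11_451, R0_211⟩]⟩]⟩]]], [[], [[], [⟨nat_lit 1, [⟨nat_lit 1, [⟨nat_lit 2, nat_lit 14016, nat_lit 4896, nat_lit 4368, nat_lit 19584, nat_lit 6768, R1_91, R10_408, R0_141⟩]⟩]⟩]], [], [], [], [[], [⟨nat_lit 1, [⟨nat_lit 1, [⟨nat_lit 2, nat_lit 14064,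 nat_lit 19776, nat_lit 3744, nat_lit 10800, nat_lit 6912, R1_78, R1_225, R0_144⟩]⟩]⟩,
 ⟨nat_lit 5, [⟨nat_lit 1, [⟨nat_lit 0, nat_lit 14112, nat_lit 19824, nat_lit 10224, nat_lit 12528, nat_lit 12672, R10_213, R5_261, R5_264⟩, ⟨nat_lit 1, nat_lit 14160, nat_lit 19872, nat_lit 10320, nat_lit 10272, nat_lit 15648, R10_215, R0_214, R11_326⟩, ⟨nat_lit 2, nat_lit 14208, nat_lit 19920, nat_lit 10272, nat_lit 16608, nat_lit 7152, R10_214, R11_346, R0_149⟩]⟩]⟩], [], [], [], [⟨nat_lit 5, [⟨nat_lit 1, [⟨nat_lit 1, nat_lit 14256, nat_lit 16224, nat_lit 10368, nat_lit 10224, nat_lit 10848, R10_216, R0_213, R1_226⟩]⟩, ⟨nat_lit 5, [⟨nat_lit 1, nat_lit 14304, nat_lit 16272, nat_lit 8928, nat_lit 10080, nat_lit 19008, R1_186, R0_210, R10_396⟩]⟩]⟩]]], [[], [[], [], [], [⟨nat_lit 1, [⟨nat_lit 3, [⟨nat_lit 2, nat_lit 14352, nat_lit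 4416, nat_lit 4848, nat_lit 19152, nat_lit 6816, R1_101, R10_399, R0_142⟩]⟩]⟩]], [], [], [], [[⟨nat_lit 1, [⟨nat_lit 3, [⟨nat_lit 2, nat_lit 14400, nat_lit 6768, nat_lit 1680, nat_lit 10656, nat_lit 10560, R1_35, R1_222, R9_220⟩]⟩]⟩,
 ⟨nat_lit 5, [⟨nat_lit 0, [⟨nat_lit 0, nat_lit 14448, nat_lit 48, nat_lit 1632, nat_lit 8736, nat_lit 7344, R5_34, R5_182, R6_153⟩, ⟨nat_lit 1, nat_lit 14496, nat_lit 192, nat_lit 4032, nat_lit 8016, nat_lit 8064, R5_84, R0_167, R4_168⟩, ⟨nat_lit 2, nat_lit 14544, nat_lit 384, nat_lit 2448, nat_lit 12672, nat_lit 9312, R5_51, R11_264, R8_194⟩]⟩, ⟨nat_lit 3, [⟨nat_lit 0, nat_lit 14592, nat_lit 5088, nat_lit 13056, nat_lit 10464, nat_lit 13296, R11_272, R5_218, R13_277⟩, ⟨nat_lit 1, nat_lit 14640, nat_lit 5856, nat_lit 13296, nat_lit 8064, nat_lit 10176, R11_277, R0_168, R3_212⟩,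 ⟨nat_lit 2, nat_lit 14688, nat_lit 6864, nat_lit 13200, nat_lit 12816, nat_lit 10608, R11_275, R11_267, R9_221⟩]⟩]⟩], [⟨nat_lit 5, [⟨nat_lit 0, [⟨nat_lit 0, nat_lit 14736, nat_lit 14736, nat_lit 10128, nat_lit 10128, nat_lit 18960, R5_211, R5_211, R8_395⟩, ⟨nat_lit 1, nat_lit 14784, nat_lit 14880, nat_lit 12480, nat_lit 8160, nat_lit 12624, R5_260, R0_170, R5_263⟩, ⟨nat_lit 2, nat_lit 14832, nat_lit 15024, nat_lit 11280, nat_lit 13104, nat_lit 10128, R5_235, R11_273, R9_211⟩]⟩, ⟨nat_lit 1, [⟨nat_lit 0, nat_lit 14880, nat_lit 14784, nat_lit 8160, nat_lit 12480, nat_lit 12624, R0_170, R5_260, R5_263⟩, ⟨nat_lit 1, nat_lit 14928, nat_lit 14928, nat_lit 8256, nat_lit 8256, nat_lit 15600, R0_172, R0_172, R11_325⟩, ⟨nat_lit 2, nat_lit 14976, nat_lit 15072, nat_lit 8208, nat_lit 13344, nat_lit 9264, R0_171, R11_278,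 R0_193⟩]⟩, ⟨nat_lit 3, [⟨nat_lit 0, nat_lit 15024, nat_lit 14832, nat_lit 13104, nat_lit 11280, nat_lit 10128, R11_273, R5_235, R9_211⟩, ⟨nat_lit 1, nat_lit 15072, nat_lit 14976, nat_lit 13344, nat_lit 8208, nat_lit 9264, R11_278, R0_171, R0_193⟩]⟩]⟩], [], [⟨nat_lit 1, [⟨nat_lit 3, [⟨nat_lit 2, nat_lit 15120, nat_lit 21984, nat_lit 7104, nat_lit 10704, nat_lit 5424, R1_148, R1_223, R0_113⟩]⟩]⟩,
 ⟨nat_lit 5, [⟨nat_lit 3, [⟨nat_lit 0, nat_lit 15168, nat_lit 22032, nat_lit 13152, nat_lit 10944, nat_lit 17952, R11_274, R5_228, R3_374⟩, ⟨nat_lit 1, nat_lit 15216, nat_lit 22080, nat_lit 13392, nat_lit 8112, nat_lit 12096, R11_279, R0_169, R10_252⟩, ⟨nat_lit 2, nat_lit 15264, nat_lit 22128, nat_lit 13248, nat_lit 12960, nat_lit 5232, R11_276, R11_270, R0_109⟩]⟩]⟩]]]]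
noncomputable def N1147 : T3 (List N0) := [[], [[[⟨nat_lit 0, [⟨nat_lit 0, [⟨nat_lit 5, nat_lit 11376, nat_lit 4800, nat_lit 14160, nat_lit 13344, nat_lit 18144, R4_295, R6_278, R8_378⟩]⟩, ⟨nat_lit 2, [⟨nat_lit 5, nat_lit 11424, nat_lit 4992, nat_lit 2928, nat_lit 13440, nat_lit 3408, R3_61, R6_280, R5_71⟩]⟩]⟩], [], [⟨nat_lit 0, [⟨nat_lit 0, [⟨nat_lit 5, nat_lit 11472, nat_lit 192, nat_lit 14208, nat_lit 13392, nat_lit 13104, R4_296, R6_279, R5_273⟩]⟩, ⟨nat_lit 2, [⟨nat_lit 5, nat_lit 11520, nat_lit 240, nat_lit 2976, nat_lit 13488, nat_lit 16032, R3_62, R6_281, R11_334⟩]⟩]⟩]], [], [[], [], [⟨nat_lit 0, [⟨nat_lit 0, [⟨nat_lit 5, nat_lit 15264, nat_lit 7152, nat_lit 14592, nat_lit 13248, nat_lit 13200, R4_304, R4_276, R5_275⟩]⟩, ⟨nat_lit 2, [⟨nat_lit 1, nat_lit 15408, nat_lit 7248, nat_lit 10416, nat_lit 14496,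 nat_lit 11184, R3_217, R7_302, R1_233⟩, ⟨nat_lit 5, nat_lit 15312, nat_lit 7200, nat_lit 10464, nat_lit 13296, nat_lit 16128, R3_218, R4_277, R11_336⟩]⟩]⟩,
 ⟨nat_lit 2, [⟨nat_lit 2, [⟨nat_lit 1, nat_lit 15744, nat_lit 7296, nat_lit 3984, nat_lit 14208, nat_lit 11280, R10_83, R2_296, R1_235⟩]⟩]⟩], [], [], [], [⟨nat_lit 0, [⟨nat_lit 2, [⟨nat_lit 1, nat_lit 15456, nat_lit 5952, nat_lit 10320, nat_lit 14544, nat_lit 12432, R3_215, R7_303, R10_259⟩]⟩]⟩,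
 ⟨nat_lit 2, [⟨nat_lit 2, [⟨nat_lit 1, nat_lit 15792, nat_lit 6048, nat_lit 3936, nat_lit 14160, nat_lit 12528, R10_82, R2_295, R10_261⟩]⟩, ⟨nat_lit 6, [⟨nat_lit 1, nat_lit 15840, nat_lit 6000, nat_lit 3408, nat_lit 14112, nat_lit 13680, R1_71, R2_294, R1_285⟩]⟩]⟩]], [[⟨nat_lit 0, [⟨nat_lit 0, [⟨nat_lit 4, nat_lit 16032, nat_lit 1008, nat_lit 12144, nat_lit 13584, nat_lit 15168, R4_253, R6_283, R6_316⟩, ⟨nat_lit 5, nat_lit 16368, nat_lit 9264, nat_lit 14400, nat_lit 13776, nat_lit 19008, R4_300, R8_287, R8_396⟩]⟩, ⟨nat_lit 2, [⟨nat_lit 4, nat_lit 16080, nat_lit 3360, nat_lit 8544, nat_lit 13872, nat_lit 5088, R3_178, R6_289, R4_106⟩, ⟨nat_lit 5, nat_lit 16416, nat_lit 11424, nat_lit 8688, nat_lit 13920, nat_lit 11472, R3_181, R8_290, R5_239⟩]⟩]⟩,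
 ⟨nat_lit 3, [⟨nat_lit 0, [⟨nat_lit 4, nat_lit 17376, nat_lit 1296, nat_lit 14304, nat_lit 4704, nat_lit 15744, R5_298, R4_98, R6_328⟩, ⟨nat_lit 5, nat_lit 17664, nat_lit 9648, nat_lit 16944, nat_lit 10656, nat_lit 19152, R5_353, R5_222, R8_399⟩]⟩, ⟨nat_lit 2, [⟨nat_lit 4, nat_lit 17424, nat_lit 3648, nat_lit 2832, nat_lit 6000, nat_lit 6240, R0_59, R4_125, R4_130⟩, ⟨nat_lit 5, nat_lit 17712, nat_lit 11856, nat_lit 2880, nat_lit 10704, nat_lit 11616, R0_60, R5_223, R5_242⟩]⟩]⟩], [], [⟨nat_lit 0, [⟨nat_lit 2, [⟨nat_lit 5, nat_lit 16512, nat_lit 5712, nat_lit 8784, nat_lit 13968, nat_lit 16080, R3_183, R8_291, R11_335⟩]⟩]⟩,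
 ⟨nat_lit 3, [⟨nat_lit 2, [⟨nat_lit 5, nat_lit 17808, nat_lit 5808, nat_lit 3024, nat_lit 10800, nat_lit 16704, R0_63, R5_225, R11_348⟩]⟩]⟩], [⟨nat_lit 0, [⟨nat_lit 0, [⟨nat_lit 4, nat_lit 16128, nat_lit 7824, nat_lit 12192, nat_lit 13632, nat_lit 13728, R4_254, R6_284, R13_286⟩, ⟨nat_lit 5, nat_lit 16560, nat_lit 7872, nat_lit 14448, nat_lit 13872, nat_lit 11376, R4_301, R8_289, R9_237⟩, ⟨nat_lit 7, nat_lit 16752, nat_lit 7920, nat_lit 13392, nat_lit 13392, nat_lit 16752, R4_279, R4_279, R3_349⟩]⟩, ⟨nat_lit 2, [⟨nat_lit 4, nat_lit 16176, nat_lit 7968, nat_lit 8592, nat_lit 13920, nat_lit 672, R3_179, R6_290, R3_14⟩, ⟨nat_lit 5, nat_lit 16608, nat_lit 8016, nat_lit 8736, nat_lit 14016, nat_lit 9888, R3_182, R8_292, R0_206⟩, ⟨nat_lit 7, nat_lit 16800, nat_lit 8064, nat_lit 8640, nat_lit 13728, nat_lit 12384,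 R3_180, R4_286, R10_258⟩]⟩]⟩,
 ⟨nat_lit 3, [⟨nat_lit 0, [⟨nat_lit 4, nat_lit 17472, nat_lit 8112, nat_lit 14688, nat_lit 5280, nat_lit 13824, R5_306, R4_110, R13_288⟩, ⟨nat_lit 5, nat_lit 17856, nat_lit 8160, nat_lit 17328, nat_lit 10848, nat_lit 11520, R5_361, R5_226, R9_240⟩]⟩, ⟨nat_lit 2, [⟨nat_lit 4, nat_lit 17520, nat_lit 8304, nat_lit 2928, nat_lit 6576, nat_lit 1152, R0_61, R4_137, R3_24⟩, ⟨nat_lit 5, nat_lit 17904, nat_lit 8352, nat_lit 2976, nat_lit 10896, nat_lit 10320, R0_62, R5_227, R0_215⟩]⟩, ⟨nat_lit 3, [⟨nat_lit 4, nat_lit 17568, nat_lit 8208, nat_lit 5040, nat_lit 6912, nat_lit 4752, R11_105, R4_144, R3_99⟩, ⟨nat_lit 5, nat_lit 17952, nat_lit 8256, nat_lit 5088, nat_lit 10944, nat_lit 15168, R11_106, R5_228, R0_316⟩]⟩]⟩]], [[], [], [], [], [⟨nat_lit 0, [⟨nat_lit 2, [⟨nat_lit 3, nat_lit 2928,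 nat_lit 4992, nat_lit 11424, nat_lit 5568, nat_lit 3408, R3_238, R6_116, R5_71⟩]⟩]⟩,
 ⟨nat_lit 2, [⟨nat_lit 2, [⟨nat_lit 0, nat_lit 3024, nat_lit 2112, nat_lit 3456, nat_lit 8880, nat_lit 336, R10_72, R6_185, R4_7⟩, ⟨nat_lit 3, nat_lit 3264, nat_lit 7632, nat_lit 3504, nat_lit 5280, nat_lit 3936, R10_73, R8_110, R5_82⟩]⟩, ⟨nat_lit 6, [⟨nat_lit 0, nat_lit 3072, nat_lit 2256, nat_lit 2736, nat_lit 8928, nat_lit 528, R1_57, R6_186, R7_11⟩, ⟨nat_lit 2, nat_lit 3168, nat_lit 11136, nat_lit 2784, nat_lit 9552, nat_lit 21792, R1_58, R4_199, R14_454⟩]⟩]⟩,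
 ⟨nat_lit 3, [⟨nat_lit 2, [⟨nat_lit 3, nat_lit 3552, nat_lit 6192, nat_lit 2400, nat_lit 5952, nat_lit 3696, R0_50, R4_124, R5_77⟩]⟩]⟩,
 ⟨nat_lit 4, [⟨nat_lit 4, [⟨nat_lit 6, nat_lit 144, nat_lit 14112, nat_lit 8688, nat_lit 6096, nat_lit 10800, R4_181, R6_127, R4_225⟩]⟩, ⟨nat_lit 7, [⟨nat_lit 6, nat_lit 192, nat_lit 14208, nat_lit 11472, nat_lit 6144, nat_lit 13104, R3_239, R6_128, R5_273⟩]⟩]⟩,
 ⟨nat_lit 6, [⟨nat_lit 4, [⟨nat_lit 2, nat_lit 1440, nat_lit 11808, nat_lit 14784, nat_lit 5952, nat_lit 11568, R5_308, R7_124, R7_241⟩, ⟨nat_lit 6, nat_lit 864, nat_lit 14976, nat_lit 5136, nat_lit 6432, nat_lit 11232, R5_107, R4_134, R4_234⟩]⟩, ⟨nat_lit 6, [⟨nat_lit 2, nat_lit 1488, nat_lit 11904, nat_lit 4464, nat_lit 6000, nat_lit 21840, R11_93, R7_125, R14_455⟩]⟩, ⟨nat_lit 7, [⟨nat_lit 6, nat_lit 912, nat_lit 15072,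 nat_lit 2208, nat_lit 6480, nat_lit 13392, R0_46, R4_135, R5_279⟩]⟩]⟩,
 ⟨nat_lit 7, [⟨nat_lit 7, [⟨nat_lit 6, nat_lit 2400, nat_lit 14688, nat_lit 2880, nat_lit 5616, nat_lit 13248, R10_60, R8_117, R5_276⟩]⟩]⟩], [], [], [⟨nat_lit 0, [⟨nat_lit 2, [⟨nat_lit 3, nat_lit 2976, nat_lit 240, nat_lit 11520, nat_lit 6192, nat_lit 16032, R3_240, R6_129, R11_334⟩]⟩]⟩,
 ⟨nat_lit 2, [⟨nat_lit 2, [⟨nat_lit 3, nat_lit 3312, nat_lit 2496, nat_lit 3552, nat_lit 5664, nat_lit 16176, R10_74, R8_118, R11_337⟩]⟩, ⟨nat_lit 6, [⟨nat_lit 0, nat_lit 3120, nat_lit 2112, nat_lit 2832, nat_lit 8976, nat_lit 1872, R1_59, R6_187, R2_39⟩, ⟨nat_lit 2, nat_lit 3216, nat_lit 2832, nat_lit 2880, nat_lit 9600, nat_lit 10416, R1_60, R4_200, R12_217⟩, ⟨nat_lit 3, nat_lit 3360, nat_lit 2448, nat_lit 2928, nat_lit 5712, nat_lit 1344, R1_61, R8_119,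 R1_28⟩]⟩]⟩,
 ⟨nat_lit 3, [⟨nat_lit 0, [⟨nat_lit 7, nat_lit 3408, nat_lit 1536, nat_lit 15264, nat_lit 6048, nat_lit 11088, R5_318, R7_126, R2_231⟩]⟩, ⟨nat_lit 2, [⟨nat_lit 3, nat_lit 3600, nat_lit 960, nat_lit 2448, nat_lit 6528, nat_lit 16320, R0_51, R4_136, R11_340⟩, ⟨nat_lit 7, nat_lit 3456, nat_lit 1632, nat_lit 2496, nat_lit 6144, nat_lit 11664, R0_52, R7_128, R1_243⟩]⟩, ⟨nat_lit 3, [⟨nat_lit 7, nat_lit 3504, nat_lit 1584, nat_lit 4848, nat_lit 6096, nat_lit 10464, R11_101, R7_127, R12_218⟩]⟩]⟩,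
 ⟨nat_lit 4, [⟨nat_lit 7, [⟨nat_lit 6, nat_lit 240, nat_lit 2976, nat_lit 11520, nat_lit 6192, nat_lit 16032, R3_240, R6_129, R11_334⟩]⟩]⟩,
 ⟨nat_lit 6, [⟨nat_lit 4, [⟨nat_lit 2, nat_lit 1536, nat_lit 3408, nat_lit 15264, nat_lit 6048, nat_lit 11088, R5_318, R7_126, R2_231⟩]⟩, ⟨nat_lit 6, [⟨nat_lit 2, nat_lit 1584, nat_lit 3504, nat_lit 4848, nat_lit 6096, nat_lit 10464, R11_101, R7_127, R12_218⟩]⟩, ⟨nat_lit 7, [⟨nat_lit 2, nat_lit 1632, nat_lit 3456, nat_lit 2496, nat_lit 6144, nat_lit 11664, R0_52, R7_128, R1_243⟩, ⟨nat_lit 6, nat_lit 960, nat_lit 3600, nat_lit 2448, nat_lit 6528, nat_lit 16320, R0_51, R4_136, R11_340⟩]⟩]⟩,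
 ⟨nat_lit 7, [⟨nat_lit 3, [⟨nat_lit 4, nat_lit 2112, nat_lit 3120, nat_lit 2832, nat_lit 8976, nat_lit 1872, R1_59, R6_187, R2_39⟩, ⟨nat_lit 6, nat_lit 2448, nat_lit 3360, nat_lit 2928, nat_lit 5712, nat_lit 1344, R1_61, R8_119, R1_28⟩, ⟨nat_lit 7, nat_lit 2832, nat_lit 3216, nat_lit 2880, nat_lit 9600, nat_lit 10416, R1_60, R4_200, R12_217⟩]⟩, ⟨nat_lit 7, [⟨nat_lit 6, nat_lit 2496, nat_lit 3312, nat_lit 3552, nat_lit 5664, nat_lit 16176, R10_74, R8_118, R11_337⟩]⟩]⟩]], [], [[], [], [], [], [⟨nat_lit 0, [⟨nat_lit 2, [⟨nat_lit 0, nat_lit 8544, nat_lit 3360, nat_lit 16080, nat_lit 13872, nat_lit 5088, R3_335, R6_289, R4_106⟩, ⟨nat_lit 3, nat_lit 8688, nat_lit 11424, nat_lit 16416, nat_lit 13920, nat_lit 11472, R3_342, R8_290, R5_239⟩]⟩]⟩,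
 ⟨nat_lit 2, [⟨nat_lit 2, [⟨nat_lit 0, nat_lit 8832, nat_lit 3552, nat_lit 3648, nat_lit 11568, nat_lit 5568, R10_76, R13_241, R4_116⟩, ⟨nat_lit 3, nat_lit 9312, nat_lit 11760, nat_lit 3696, nat_lit 9168, nat_lit 12288, R10_77, R9_191, R5_256⟩]⟩, ⟨nat_lit 6, [⟨nat_lit 0, nat_lit 8880, nat_lit 2640, nat_lit 3024, nat_lit 11616, nat_lit 5472, R1_63, R13_242, R7_114⟩, ⟨nat_lit 2, nat_lit 9168, nat_lit 13872, nat_lit 3072, nat_lit 15504, nat_lit 22224, R1_64, R3_323, R14_463⟩]⟩]⟩,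
 ⟨nat_lit 3, [⟨nat_lit 2, [⟨nat_lit 3, nat_lit 9504, nat_lit 11568, nat_lit 2688, nat_lit 10512, nat_lit 11904, R0_56, R5_219, R5_248⟩]⟩]⟩,
 ⟨nat_lit 6, [⟨nat_lit 4, [⟨nat_lit 2, nat_lit 7920, nat_lit 13632, nat_lit 14928, nat_lit 8880, nat_lit 11664, R5_311, R2_185, R7_243⟩]⟩, ⟨nat_lit 6, [⟨nat_lit 2, nat_lit 7968, nat_lit 13776, nat_lit 5664, nat_lit 8928, nat_lit 22272, R11_118, R2_186, R14_464⟩]⟩]⟩], [], [⟨nat_lit 0, [⟨nat_lit 2, [⟨nat_lit 0, nat_lit 8592, nat_lit 7968, nat_lit 16176, nat_lit 13920, nat_lit 672, R3_337, R6_290, R3_14⟩, ⟨nat_lit 1, nat_lit 8640, nat_lit 8064, nat_lit 16800, nat_lit 13728, nat_lit 12384, R3_350, R4_286, R10_258⟩, ⟨nat_lit 3, nat_lit 8736, nat_lit 8016, nat_lit 16608, nat_lit 14016, nat_lit 9888, R3_346, R8_292, R0_206⟩]⟩]⟩,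
 ⟨nat_lit 2, [⟨nat_lit 2, [⟨nat_lit 0, nat_lit 8928, nat_lit 9696, nat_lit 3792, nat_lit 11664, nat_lit 4272, R10_79, R13_243, R3_89⟩, ⟨nat_lit 1, nat_lit 9072, nat_lit 9792, nat_lit 3888, nat_lit 9072, nat_lit 12480, R10_81, R3_189, R10_260⟩, ⟨nat_lit 3, nat_lit 9360, nat_lit 9744, nat_lit 3840, nat_lit 9216, nat_lit 9936, R10_80, R9_192, R0_207⟩]⟩, ⟨nat_lit 6, [⟨nat_lit 0, nat_lit 8976, nat_lit 9024, nat_lit 3264, nat_lit 11712, nat_lit 3888, R1_68, R13_244, R2_81⟩, ⟨nat_lit 1, nat_lit 9120, nat_lit 9072, nat_lit 3360, nat_lit 9120, nat_lit 3360, R1_70, R3_190, R1_70⟩, ⟨nat_lit 2, nat_lit 9216, nat_lit 9120, nat_lit 3312, nat_lit 15552, nat_lit 16992, R1_69, R3_324, R12_354⟩]⟩]⟩,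
 ⟨nat_lit 3, [⟨nat_lit 2, [⟨nat_lit 3, nat_lit 9552, nat_lit 8784, nat_lit 2784, nat_lit 10560, nat_lit 9984, R0_58, R5_220, R0_208⟩]⟩]⟩,
 ⟨nat_lit 6, [⟨nat_lit 6, [⟨nat_lit 2, nat_lit 8016, nat_lit 7056, nat_lit 6576, nat_lit 9120, nat_lit 16944, R11_137, R2_190, R12_353⟩]⟩]⟩], [⟨nat_lit 0, [⟨nat_lit 2, [⟨nat_lit 3, nat_lit 8784, nat_lit 5712, nat_lit 16512, nat_lit 13968, nat_lit 16080, R3_344, R8_291, R11_335⟩]⟩]⟩,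
 ⟨nat_lit 2, [⟨nat_lit 2, [⟨nat_lit 3, nat_lit 9408, nat_lit 7008, nat_lit 3744, nat_lit 9264, nat_lit 16224, R10_78, R9_193, R11_338⟩]⟩, ⟨nat_lit 6, [⟨nat_lit 0, nat_lit 9024, nat_lit 6432, nat_lit 3120, nat_lit 11760, nat_lit 8736, R1_65, R13_245, R2_182⟩, ⟨nat_lit 2, nat_lit 9264, nat_lit 6528, nat_lit 3168, nat_lit 15600, nat_lit 11232, R1_66, R3_325, R12_234⟩, ⟨nat_lit 3, nat_lit 9456, nat_lit 6480, nat_lit 3216, nat_lit 9312, nat_lit 9552, R1_67, R9_194, R1_199⟩]⟩]⟩,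
 ⟨nat_lit 3, [⟨nat_lit 2, [⟨nat_lit 3, nat_lit 9600, nat_lit 6240, nat_lit 2736, nat_lit 10608, nat_lit 16368, R0_57, R5_221, R11_341⟩]⟩]⟩,
 ⟨nat_lit 6, [⟨nat_lit 4, [⟨nat_lit 2, nat_lit 8064, nat_lit 4080, nat_lit 15408, nat_lit 9360, nat_lit 11280, R5_321, R2_195, R2_235⟩]⟩, ⟨nat_lit 6, [⟨nat_lit 2, nat_lit 8112, nat_lit 5280, nat_lit 6192, nat_lit 9408, nat_lit 11328, R11_129, R2_196, R12_236⟩]⟩, ⟨nat_lit 7, [⟨nat_lit 2, nat_lit 8160, nat_lit 4800, nat_lit 4368, nat_lit 9456, nat_lit 11856, R0_91, R2_197, R1_247⟩]⟩]⟩]], [[], [], [], [⟨nat_lit 0, [⟨nat_lit 0, [⟨nat_lit 7, nat_lit 10272, nat_lit 5856, nat_lit 13584, nat_lit 14400, nat_lit 16656, R4_283, R7_300, R3_347⟩]⟩, ⟨nat_lit 2, [⟨nat_lit 7, nat_lit 10320, nat_lit 5952, nat_lit 15456, nat_lit 14544, nat_lit 12432, R3_322, R7_303, R10_259⟩]⟩]⟩,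
 ⟨nat_lit 3, [⟨nat_lit 0, [⟨nat_lit 4, nat_lit 10608, nat_lit 6192, nat_lit 14544, nat_lit 9408, nat_lit 13872, R5_303, R7_196, R13_289⟩, ⟨nat_lit 7, nat_lit 10800, nat_lit 6240, nat_lit 16080, nat_lit 5520, nat_lit 17184, R5_335, R14_115, R3_358⟩]⟩, ⟨nat_lit 2, [⟨nat_lit 4, nat_lit 10656, nat_lit 7296, nat_lit 2592, nat_lit 10320, nat_lit 2016, R0_54, R7_215, R3_42⟩, ⟨nat_lit 7, nat_lit 10848, nat_lit 7344, nat_lit 2640, nat_lit 5568, nat_lit 12768, R0_55, R14_116, R10_266⟩]⟩, ⟨nat_lit 3, [⟨nat_lit 4, nat_lit 10704, nat_lit 6864, nat_lit 4992, nat_lit 10800, nat_lit 12720, R11_104, R7_225, R3_265⟩]⟩]⟩,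
 ⟨nat_lit 7, [⟨nat_lit 3, [⟨nat_lit 4, nat_lit 9744, nat_lit 4560, nat_lit 3984, nat_lit 10128, nat_lit 14304, R1_83, R4_211, R3_298⟩, ⟨nat_lit 6, nat_lit 10032, nat_lit 4608, nat_lit 4032, nat_lit 5568, nat_lit 2016, R1_84, R5_116, R10_42⟩]⟩]⟩], [], [], [], [⟨nat_lit 0, [⟨nat_lit 0, [⟨nat_lit 7, nat_lit 10368, nat_lit 7056, nat_lit 13632, nat_lit 14352, nat_lit 10800, R4_284, R7_299, R2_225⟩]⟩, ⟨nat_lit 2, [⟨nat_lit 3, nat_lit 10464, nat_lit 7200, nat_lit 15312, nat_lit 13296, nat_lit 16128, R3_319, R4_277, R11_336⟩, ⟨nat_lit 7, nat_lit 10416, nat_lit 7248, nat_lit 15408, nat_lit 14496, nat_lit 11184, R3_321, R7_302, R1_233⟩]⟩]⟩,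
 ⟨nat_lit 2, [⟨nat_lit 2, [⟨nat_lit 3, nat_lit 10512, nat_lit 8592, nat_lit 3600, nat_lit 16512, nat_lit 16272, R10_75, R5_344, R11_339⟩]⟩, ⟨nat_lit 6, [⟨nat_lit 3, nat_lit 10560, nat_lit 8400, nat_lit 2976, nat_lit 16464, nat_lit 6768, R1_62, R5_343, R1_141⟩]⟩]⟩,
 ⟨nat_lit 3, [⟨nat_lit 0, [⟨nat_lit 7, nat_lit 10896, nat_lit 7392, nat_lit 15456, nat_lit 5376, nat_lit 11136, R5_322, R14_112, R2_232⟩]⟩, ⟨nat_lit 2, [⟨nat_lit 7, nat_lit 10944, nat_lit 8256, nat_lit 2544, nat_lit 5424, nat_lit 11712, R0_53, R14_113, R1_244⟩]⟩, ⟨nat_lit 3, [⟨nat_lit 4, nat_lit 10752, nat_lit 7680, nat_lit 4896, nat_lit 8400, nat_lit 624, R11_102, R7_175, R2_13⟩, ⟨nat_lit 7, nat_lit 10992, nat_lit 7728, nat_lit 4944, nat_lit 5472, nat_lit 10512, R11_103, R14_114, R12_219⟩]⟩]⟩,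
 ⟨nat_lit 7, [⟨nat_lit 3, [⟨nat_lit 4, nat_lit 9792, nat_lit 5280, nat_lit 3504, nat_lit 8400, nat_lit 2352, R1_73, R4_175, R2_49⟩, ⟨nat_lit 6, nat_lit 10080, nat_lit 5328, nat_lit 3552, nat_lit 5712, nat_lit 1824, R1_74, R5_119, R1_38⟩]⟩, ⟨nat_lit 7, [⟨nat_lit 6, nat_lit 10128, nat_lit 4704, nat_lit 4128, nat_lit 5808, nat_lit 16560, R10_86, R5_121, R11_345⟩]⟩]⟩]]], [[], [], [], [], [[], [], [], [], [⟨nat_lit 4, [⟨nat_lit 4, [⟨nat_lit 6, nat_lit 288, nat_lit 17664, nat_lit 5136, nat_lit 6384, nat_lit 7392, R8_107, R6_133, R4_154⟩]⟩, ⟨nat_lit 7, [⟨nat_lit 6, nat_lit 336, nat_lit 18384, nat_lit 13248, nat_lit 6432, nat_lit 9408, R9_276, R6_134, R5_196⟩]⟩]⟩,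
 ⟨nat_lit 6, [⟨nat_lit 4, [⟨nat_lit 2, nat_lit 1680, nat_lit 11088, nat_lit 480, nat_lit 6240, nat_lit 7680, R9_10, R7_130, R7_160⟩, ⟨nat_lit 6, nat_lit 1008, nat_lit 17808, nat_lit 240, nat_lit 6624, nat_lit 7728, R9_5, R4_138, R4_161⟩]⟩, ⟨nat_lit 6, [⟨nat_lit 2, nat_lit 1728, nat_lit 11664, nat_lit 12720, nat_lit 6288, nat_lit 20208, R0_265, R7_131, R14_421⟩]⟩]⟩,
 ⟨nat_lit 7, [⟨nat_lit 7, [⟨nat_lit 6, nat_lit 2544, nat_lit 18528, nat_lit 7248, nat_lit 5856, nat_lit 9792, R0_151, R8_122, R5_204⟩]⟩]⟩], [⟨nat_lit 4, [⟨nat_lit 4, [⟨nat_lit 6, nat_lit 384, nat_lit 1344, nat_lit 5472, nat_lit 6528, nat_lit 2256, R8_114, R6_136, R3_47⟩]⟩, ⟨nat_lit 5, [⟨nat_lit 6, nat_lit 432, nat_lit 1440, nat_lit 14352, nat_lit 6624, nat_lit 5664, R5_299, R6_138, R10_118⟩]⟩, ⟨nat_lit 7, [⟨nat_lit 6, nat_lit 480, nat_lit 1392, nat_lit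 13344, nat_lit 6576, nat_lit 1920, R9_278, R6_137, R0_40⟩]⟩]⟩,
 ⟨nat_lit 6, [⟨nat_lit 4, [⟨nat_lit 2, nat_lit 1776, nat_lit 2784, nat_lit 5760, nat_lit 6432, nat_lit 6528, R9_120, R7_134, R2_136⟩, ⟨nat_lit 6, nat_lit 1056, nat_lit 3744, nat_lit 5376, nat_lit 6672, nat_lit 7152, R9_112, R4_139, R3_149⟩]⟩, ⟨nat_lit 5, [⟨nat_lit 2, nat_lit 1872, nat_lit 2832, nat_lit 3600, nat_lit 6528, nat_lit 5232, R0_75, R7_136, R1_109⟩, ⟨nat_lit 6, nat_lit 1104, nat_lit 3792, nat_lit 3216, nat_lit 6720, nat_lit 6192, R0_67, R4_140, R10_129⟩]⟩, ⟨nat_lit 6, [⟨nat_lit 2, nat_lit 1824, nat_lit 2880, nat_lit 13296, nat_lit 6480, nat_lit 15984, R0_277, R7_135, R12_333⟩]⟩]⟩,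
 ⟨nat_lit 7, [⟨nat_lit 7, [⟨nat_lit 6, nat_lit 2592, nat_lit 2352, nat_lit 7440, nat_lit 5952, nat_lit 2016, R0_155, R8_124, R0_42⟩]⟩]⟩], [], [⟨nat_lit 4, [⟨nat_lit 7, [⟨nat_lit 6, nat_lit 528, nat_lit 1968, nat_lit 13296, nat_lit 6480, nat_lit 11856, R9_277, R6_135, R11_247⟩]⟩]⟩,
 ⟨nat_lit 6, [⟨nat_lit 4, [⟨nat_lit 2, nat_lit 1920, nat_lit 2976, nat_lit 7728, nat_lit 6336, nat_lit 10032, R9_161, R7_132, R2_209⟩]⟩, ⟨nat_lit 6, [⟨nat_lit 2, nat_lit 1968, nat_lit 3024, nat_lit 13056, nat_lit 6384, nat_lit 7680, R0_272, R7_133, R12_160⟩]⟩]⟩,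
 ⟨nat_lit 7, [⟨nat_lit 7, [⟨nat_lit 6, nat_lit 2640, nat_lit 2640, nat_lit 7344, nat_lit 5904, nat_lit 12240, R0_153, R8_123, R11_255⟩]⟩]⟩]], [[], [], [], [], [⟨nat_lit 4, [⟨nat_lit 4, [⟨nat_lit 6, nat_lit 3888, nat_lit 3840, nat_lit 5184, nat_lit 6816, nat_lit 7584, R8_108, R13_142, R4_158⟩]⟩, ⟨nat_lit 7, [⟨nat_lit 6, nat_lit 3936, nat_lit 12192, nat_lit 13872, nat_lit 6864, nat_lit 11664, R9_289, R13_143, R5_243⟩]⟩]⟩,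
 ⟨nat_lit 5, [⟨nat_lit 4, [⟨nat_lit 6, nat_lit 5616, nat_lit 3984, nat_lit 96, nat_lit 5184, nat_lit 7968, R5_2, R3_108, R4_166⟩]⟩, ⟨nat_lit 7, [⟨nat_lit 6, nat_lit 5664, nat_lit 12432, nat_lit 12000, nat_lit 5232, nat_lit 12576, R0_250, R3_109, R5_262⟩]⟩]⟩,
 ⟨nat_lit 6, [⟨nat_lit 4, [⟨nat_lit 2, nat_lit 6624, nat_lit 3024, nat_lit 576, nat_lit 4416, nat_lit 7920, R9_12, R2_92, R7_165⟩, ⟨nat_lit 6, nat_lit 6192, nat_lit 4128, nat_lit 336, nat_lit 6096, nat_lit 7872, R9_7, R3_127, R4_164⟩]⟩, ⟨nat_lit 6, [⟨nat_lit 2, nat_lit 6672, nat_lit 14160, nat_lit 12768, nat_lit 4464, nat_lit 21504, R0_266, R2_93, R14_448⟩]⟩]⟩,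
 ⟨nat_lit 7, [⟨nat_lit 7, [⟨nat_lit 6, nat_lit 7296, nat_lit 12336, nat_lit 8352, nat_lit 5088, nat_lit 12096, R0_174, R9_106, R5_252⟩]⟩]⟩], [⟨nat_lit 4, [⟨nat_lit 4, [⟨nat_lit 6, nat_lit 3984, nat_lit 912, nat_lit 5520, nat_lit 6960, nat_lit 2352, R8_115, R13_145, R3_49⟩]⟩, ⟨nat_lit 5, [⟨nat_lit 6, nat_lit 4032, nat_lit 1008, nat_lit 14736, nat_lit 7056, nat_lit 5856, R5_307, R13_147, R10_122⟩]⟩, ⟨nat_lit 7, [⟨nat_lit 6, nat_lit 4080, nat_lit 960, nat_lit 13968, nat_lit 7008, nat_lit 1968, R9_291, R13_146, R0_41⟩]⟩]⟩,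
 ⟨nat_lit 5, [⟨nat_lit 4, [⟨nat_lit 6, nat_lit 5712, nat_lit 1632, nat_lit 5760, nat_lit 5328, nat_lit 9984, R5_120, R3_111, R3_208⟩]⟩, ⟨nat_lit 5, [⟨nat_lit 6, nat_lit 5760, nat_lit 1728, nat_lit 18240, nat_lit 5424, nat_lit 6576, R11_380, R3_113, R10_137⟩]⟩, ⟨nat_lit 7, [⟨nat_lit 6, nat_lit 5808, nat_lit 1680, nat_lit 12096, nat_lit 5376, nat_lit 2112, R0_252, R3_112, R0_44⟩]⟩]⟩,
 ⟨nat_lit 6, [⟨nat_lit 4, [⟨nat_lit 2, nat_lit 6720, nat_lit 2784, nat_lit 5856, nat_lit 4608, nat_lit 6768, R9_122, R2_96, R2_141⟩, ⟨nat_lit 6, nat_lit 6240, nat_lit 3744, nat_lit 5472, nat_lit 6144, nat_lit 7248, R9_114, R3_128, R3_151⟩]⟩, ⟨nat_lit 5, [⟨nat_lit 2, nat_lit 6816, nat_lit 2832, nat_lit 3696, nat_lit 4704, nat_lit 5472, R0_77, R2_98, R1_114⟩, ⟨nat_lit 6, nat_lit 6288, nat_lit 3792, nat_lit 3312, nat_lit 6336, nat_lit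 6336, R0_69, R3_132, R10_132⟩]⟩, ⟨nat_lit 6, [⟨nat_lit 2, nat_lit 6768, nat_lit 2880, nat_lit 13344, nat_lit 4656, nat_lit 17280, R0_278, R2_97, R12_360⟩]⟩]⟩,
 ⟨nat_lit 7, [⟨nat_lit 7, [⟨nat_lit 6, nat_lit 7344, nat_lit 2352, nat_lit 8592, nat_lit 5184, nat_lit 2064, R0_179, R9_108, R0_43⟩]⟩]⟩], [], [⟨nat_lit 4, [⟨nat_lit 7, [⟨nat_lit 6, nat_lit 4128, nat_lit 288, nat_lit 13920, nat_lit 6912, nat_lit 14640, R9_290, R13_144, R11_305⟩]⟩]⟩,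
 ⟨nat_lit 5, [⟨nat_lit 7, [⟨nat_lit 6, nat_lit 5856, nat_lit 528, nat_lit 12048, nat_lit 5280, nat_lit 15552, R0_251, R3_110, R11_324⟩]⟩]⟩,
 ⟨nat_lit 6, [⟨nat_lit 4, [⟨nat_lit 2, nat_lit 6864, nat_lit 1440, nat_lit 7872, nat_lit 4512, nat_lit 10176, R9_164, R2_94, R2_212⟩]⟩, ⟨nat_lit 6, [⟨nat_lit 2, nat_lit 6912, nat_lit 1488, nat_lit 13104, nat_lit 4560, nat_lit 9552, R0_273, R2_95, R12_199⟩]⟩]⟩,
 ⟨nat_lit 7, [⟨nat_lit 7, [⟨nat_lit 6, nat_lit 7392, nat_lit 1104, nat_lit 8448, nat_lit 5136, nat_lit 15072, R0_176, R9_107, R11_314⟩]⟩]⟩]], [[], [], [], [], [⟨nat_lit 6, [⟨nat_lit 4, [⟨nat_lit 2, nat_lit 8208, nat_lit 3072, nat_lit 672, nat_lit 8976, nat_lit 7776, R9_14, R2_187, R7_162⟩]⟩, ⟨nat_lit 6, [⟨nat_lit 2, nat_lit 8256, nat_lit 12816, nat_lit 12816, nat_lit 9024, nat_lit 20928, R0_267, R2_188, R14_436⟩]⟩]⟩],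 [⟨nat_lit 6, [⟨nat_lit 4, [⟨nat_lit 2, nat_lit 8352, nat_lit 1536, nat_lit 5952, nat_lit 9552, nat_lit 6624, R9_124, R2_199, R2_138⟩]⟩, ⟨nat_lit 5, [⟨nat_lit 2, nat_lit 8448, nat_lit 6576, nat_lit 3792, nat_lit 9648, nat_lit 5328, R0_79, R2_201, R1_111⟩]⟩, ⟨nat_lit 6, [⟨nat_lit 2, nat_lit 8400, nat_lit 10992, nat_lit 13440, nat_lit 9600, nat_lit 16704, R0_280, R2_200, R12_348⟩]⟩]⟩], [⟨nat_lit 6, [⟨nat_lit 6, [⟨nat_lit 2, nat_lit 8304, nat_lit 10608, nat_lit 13776, nat_lit 9168, nat_lit 16320, R0_287, R2_191, R12_340⟩]⟩]⟩]], [[], [], [], [], [], [], [], [⟨nat_lit 7, [⟨nat_lit 7, [⟨nat_lit 6, nat_lit 10176, nat_lit 14640, nat_lit 8064, nat_lit 5856, nat_lit 13296, R0_168, R5_122, R11_277⟩]⟩]⟩]]], [[], [], [], [], [[], [], [], [⟨nat_lit 4, [⟨nat_lit 3, [⟨nat_lit 6, nat_lit 576, nat_lit 960, nat_lit 11952, nat_lit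 6336, nat_lit 288, R2_249, R6_132, R10_6⟩]⟩]⟩,
 ⟨nat_lit 7, [⟨nat_lit 3, [⟨nat_lit 4, nat_lit 2160, nat_lit 1344, nat_lit 3168, nat_lit 7824, nat_lit 11856, R12_66, R6_163, R3_247⟩, ⟨nat_lit 6, nat_lit 2688, nat_lit 2496, nat_lit 3216, nat_lit 5808, nat_lit 1248, R12_67, R8_121, R10_26⟩]⟩]⟩], [], [], [], [⟨nat_lit 4, [⟨nat_lit 3, [⟨nat_lit 6, nat_lit 624, nat_lit 15936, nat_lit 11904, nat_lit 6288, nat_lit 192, R2_248, R6_131, R1_4⟩]⟩, ⟨nat_lit 7, [⟨nat_lit 6, nat_lit 672, nat_lit 16176, nat_lit 8592, nat_lit 6240, nat_lit 7968, R3_179, R6_130, R11_166⟩]⟩]⟩,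
 ⟨nat_lit 6, [⟨nat_lit 7, [⟨nat_lit 2, nat_lit 2016, nat_lit 10656, nat_lit 2592, nat_lit 6192, nat_lit 7296, R0_54, R7_129, R1_152⟩, ⟨nat_lit 6, nat_lit 1152, nat_lit 17520, nat_lit 2928, nat_lit 6576, nat_lit 8304, R0_61, R4_137, R11_173⟩]⟩]⟩,
 ⟨nat_lit 7, [⟨nat_lit 3, [⟨nat_lit 4, nat_lit 2208, nat_lit 11760, nat_lit 3024, nat_lit 9216, nat_lit 1824, R12_63, R6_192, R2_38⟩, ⟨nat_lit 6, nat_lit 2736, nat_lit 16896, nat_lit 3072, nat_lit 5760, nat_lit 1296, R12_64, R8_120, R1_27⟩, ⟨nat_lit 7, nat_lit 2880, nat_lit 14112, nat_lit 3120, nat_lit 9984, nat_lit 10320, R12_65, R4_208, R12_215⟩]⟩]⟩]], [[], [], [], [⟨nat_lit 4, [⟨nat_lit 3, [⟨nat_lit 4, nat_lit 3648, nat_lit 144, nat_lit 12288, nat_lit 6672, nat_lit 15984, R2_256, R6_139, R3_333⟩, ⟨nat_lit 6, nat_lit 4176, nat_lit 288, nat_lit 12432, nat_lit 6768,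 nat_lit 624, R2_259, R13_141, R10_13⟩]⟩]⟩,
 ⟨nat_lit 5, [⟨nat_lit 3, [⟨nat_lit 4, nat_lit 4800, nat_lit 480, nat_lit 12864, nat_lit 6960, nat_lit 17328, R1_268, R4_145, R3_361⟩, ⟨nat_lit 6, nat_lit 5904, nat_lit 528, nat_lit 13008, nat_lit 5136, nat_lit 2688, R1_271, R3_107, R10_56⟩]⟩]⟩,
 ⟨nat_lit 7, [⟨nat_lit 3, [⟨nat_lit 4, nat_lit 7056, nat_lit 816, nat_lit 3408, nat_lit 8592, nat_lit 16992, R12_71, R8_179, R3_354⟩, ⟨nat_lit 6, nat_lit 7440, nat_lit 1968, nat_lit 3456, nat_lit 5040, nat_lit 2208, R12_72, R9_105, R10_46⟩]⟩]⟩], [], [], [], [⟨nat_lit 4, [⟨nat_lit 3, [⟨nat_lit 4, nat_lit 3696, nat_lit 240, nat_lit 12240, nat_lit 6720, nat_lit 1056, R2_255, R6_140, R2_22⟩, ⟨nat_lit 6, nat_lit 4224, nat_lit 576, nat_lit 12384, nat_lit 6720, nat_lit 384, R2_258, R13_140, R1_8⟩]⟩, ⟨nat_lit 7, [⟨nat_lit 6, nat_lit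 4272, nat_lit 528, nat_lit 8928, nat_lit 6672, nat_lit 9696, R3_186, R13_139, R11_202⟩]⟩]⟩,
 ⟨nat_lit 5, [⟨nat_lit 3, [⟨nat_lit 4, nat_lit 4848, nat_lit 768, nat_lit 12816, nat_lit 7008, nat_lit 3072, R1_267, R4_146, R2_64⟩, ⟨nat_lit 6, nat_lit 5952, nat_lit 912, nat_lit 12960, nat_lit 5088, nat_lit 2544, R1_270, R3_106, R1_53⟩]⟩, ⟨nat_lit 7, [⟨nat_lit 6, nat_lit 6000, nat_lit 864, nat_lit 14304, nat_lit 5040, nat_lit 10224, R10_298, R3_105, R11_213⟩]⟩]⟩,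
 ⟨nat_lit 6, [⟨nat_lit 7, [⟨nat_lit 2, nat_lit 6960, nat_lit 2304, nat_lit 3120, nat_lit 4368, nat_lit 7680, R0_65, R2_91, R1_160⟩, ⟨nat_lit 6, nat_lit 6336, nat_lit 2592, nat_lit 3312, nat_lit 6288, nat_lit 10128, R0_69, R3_131, R11_211⟩]⟩]⟩,
 ⟨nat_lit 7, [⟨nat_lit 3, [⟨nat_lit 4, nat_lit 7104, nat_lit 1104, nat_lit 3264, nat_lit 7248, nat_lit 2880, R12_68, R8_151, R2_60⟩, ⟨nat_lit 6, nat_lit 7488, nat_lit 2112, nat_lit 3312, nat_lit 4992, nat_lit 2352, R12_69, R9_104, R1_49⟩, ⟨nat_lit 7, nat_lit 7584, nat_lit 1536, nat_lit 3360, nat_lit 5472, nat_lit 10368, R12_70, R5_114, R12_216⟩]⟩]⟩]], [[], [], [], [], [], [], [], [⟨nat_lit 6, [⟨nat_lit 7, [⟨nat_lit 2, nat_lit 8496, nat_lit 5040, nat_lit 4464, nat_lit 9504, nat_lit 7392, R0_93, R2_198, R1_154⟩]⟩]⟩]], [[], [], [], [⟨nat_lit 7, [⟨nat_lit 3, [⟨nat_lit 4, nat_lit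 9840, nat_lit 5952, nat_lit 3504, nat_lit 10080, nat_lit 14208, R12_73, R4_210, R3_296⟩, ⟨nat_lit 6, nat_lit 10224, nat_lit 6000, nat_lit 3552, nat_lit 5616, nat_lit 1968, R12_74, R5_117, R10_41⟩]⟩]⟩]]], [[], [[⟨nat_lit 1, [⟨nat_lit 0, [⟨nat_lit 4, nat_lit 13584, nat_lit 1296, nat_lit 1680, nat_lit 9648, nat_lit 4080, R7_35, R4_201, R6_85⟩, ⟨nat_lit 5, nat_lit 14352, nat_lit 1392, nat_lit 1824, nat_lit 14352, nat_lit 4032, R7_38, R3_299, R8_84⟩]⟩, ⟨nat_lit 1, [⟨nat_lit 4, nat_lit 13632, nat_lit 7296, nat_lit 240, nat_lit 9792, nat_lit 11184, R2_5, R4_204, R8_233⟩, ⟨nat_lit 5, nat_lit 14400, nat_lit 7392, nat_lit 384, nat_lit 14496, nat_lit 3216, R2_8, R3_302, R9_67⟩]⟩]⟩,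
 ⟨nat_lit 5, [⟨nat_lit 0, [⟨nat_lit 4, nat_lit 12336, nat_lit 768, nat_lit 1584, nat_lit 10608, nat_lit 3264, R4_33, R7_221, R6_68⟩, ⟨nat_lit 5, nat_lit 12768, nat_lit 816, nat_lit 1728, nat_lit 9696, nat_lit 4176, R4_36, R2_202, R8_87⟩, ⟨nat_lit 6, nat_lit 13104, nat_lit 912, nat_lit 1632, nat_lit 4752, nat_lit 2928, R4_34, R2_99, R4_61⟩]⟩, ⟨nat_lit 1, [⟨nat_lit 4, nat_lit 12384, nat_lit 6768, nat_lit 12384, nat_lit 10656, nat_lit 11136, R3_258, R7_222, R8_232⟩, ⟨nat_lit 5, nat_lit 12816, nat_lit 6816, nat_lit 12528, nat_lit 9744, nat_lit 3360, R3_261, R2_203, R9_70⟩, ⟨nat_lit 6, nat_lit 13152, nat_lit 6912, nat_lit 12432, nat_lit 4944, nat_lit 3168, R3_259, R2_103, R5_66⟩]⟩]⟩], [⟨nat_lit 1, [⟨nat_lit 1, [⟨nat_lit 4, nat_lit 13680, nat_lit 5520, nat_lit 5952, nat_lit 10272, nat_lit 768, R2_124, R4_214, R5_16⟩,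 ⟨nat_lit 5, nat_lit 14448, nat_lit 5616, nat_lit 6096, nat_lit 14544, nat_lit 1680, R2_127, R3_303, R0_35⟩]⟩]⟩,
 ⟨nat_lit 5, [⟨nat_lit 1, [⟨nat_lit 4, nat_lit 12432, nat_lit 4944, nat_lit 13152, nat_lit 10944, nat_lit 3168, R3_274, R7_228, R5_66⟩, ⟨nat_lit 5, nat_lit 12864, nat_lit 4992, nat_lit 13296, nat_lit 9936, nat_lit 1824, R3_277, R2_207, R0_38⟩, ⟨nat_lit 6, nat_lit 13200, nat_lit 5088, nat_lit 13200, nat_lit 5088, nat_lit 3168, R3_275, R2_106, R11_66⟩]⟩]⟩], [], [⟨nat_lit 1, [⟨nat_lit 0, [⟨nat_lit 4, nat_lit 13728, nat_lit 144, nat_lit 8304, nat_lit 9888, nat_lit 14208, R7_173, R4_206, R13_296⟩, ⟨nat_lit 5, nat_lit 14496, nat_lit 384, nat_lit 8448, nat_lit 14400, nat_lit 11904, R7_176, R3_300, R9_248⟩]⟩, ⟨nat_lit 1, [⟨nat_lit 4, nat_lit 13776, nat_lit 7152, nat_lit 7248, nat_lit 10176, nat_lit 1728, R2_151,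 R4_212, R9_36⟩]⟩, ⟨nat_lit 3, [⟨nat_lit 4, nat_lit 13824, nat_lit 5856, nat_lit 5280, nat_lit 10032, nat_lit 9648, R2_110, R4_209, R3_201⟩, ⟨nat_lit 5, nat_lit 14544, nat_lit 6096, nat_lit 5616, nat_lit 14448, nat_lit 1680, R2_117, R3_301, R0_35⟩]⟩]⟩,
 ⟨nat_lit 5, [⟨nat_lit 0, [⟨nat_lit 4, nat_lit 12480, nat_lit 1968, nat_lit 8304, nat_lit 10704, nat_lit 13008, R4_173, R7_223, R13_271⟩, ⟨nat_lit 5, nat_lit 12912, nat_lit 2160, nat_lit 8448, nat_lit 9792, nat_lit 10224, R4_176, R2_204, R9_213⟩, ⟨nat_lit 6, nat_lit 13248, nat_lit 2304, nat_lit 8352, nat_lit 4800, nat_lit 9696, R4_174, R2_100, R3_202⟩]⟩, ⟨nat_lit 1, [⟨nat_lit 4, nat_lit 12528, nat_lit 9744, nat_lit 12816, nat_lit 10848, nat_lit 3360, R3_267, R7_226, R9_70⟩, ⟨nat_lit 6, nat_lit 13296, nat_lit 9936, nat_lit 12864, nat_lit 4992, nat_lit 1824, R3_268,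 R2_104, R0_38⟩]⟩]⟩]], [], [], [], [[⟨nat_lit 5, [⟨nat_lit 0, [⟨nat_lit 4, nat_lit 4320, nat_lit 672, nat_lit 1008, nat_lit 6768, nat_lit 3120, R4_21, R4_141, R6_65⟩, ⟨nat_lit 6, nat_lit 4896, nat_lit 816, nat_lit 1104, nat_lit 5472, nat_lit 2784, R4_23, R3_114, R4_58⟩]⟩, ⟨nat_lit 1, [⟨nat_lit 4, nat_lit 4368, nat_lit 7056, nat_lit 4368, nat_lit 7056, nat_lit 17856, R3_91, R4_147, R8_372⟩, ⟨nat_lit 6, nat_lit 4944, nat_lit 7200, nat_lit 4416, nat_lit 5520, nat_lit 4224, R3_92, R3_115, R5_88⟩]⟩]⟩], [⟨nat_lit 5, [⟨nat_lit 1, [⟨nat_lit 4, nat_lit 4416, nat_lit 5520, nat_lit 4944, nat_lit 7200, nat_lit 4224, R3_103, R4_150, R5_88⟩, ⟨nat_lit 6, nat_lit 4992, nat_lit 5568, nat_lit 4992, nat_lit 5568, nat_lit 4224, R3_104, R3_116, R11_88⟩]⟩]⟩]]], [[[⟨nat_lit 0, [⟨nat_lit 0, [⟨nat_lit 5, nat_lit 11040, nat_lit 4752,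 nat_lit 15696, nat_lit 13008, nat_lit 11280, R7_327, R6_271, R8_235⟩]⟩, ⟨nat_lit 2, [⟨nat_lit 5, nat_lit 11088, nat_lit 4800, nat_lit 14400, nat_lit 13152, nat_lit 2544, R2_300, R6_274, R5_53⟩]⟩]⟩,
 ⟨nat_lit 1, [⟨nat_lit 0, [⟨nat_lit 4, nat_lit 11568, nat_lit 240, nat_lit 8256, nat_lit 9024, nat_lit 11328, R14_172, R6_188, R6_236⟩, ⟨nat_lit 5, nat_lit 11904, nat_lit 5184, nat_lit 8880, nat_lit 18624, nat_lit 11424, R14_185, R13_388, R8_238⟩]⟩, ⟨nat_lit 1, [⟨nat_lit 4, nat_lit 11664, nat_lit 336, nat_lit 6864, nat_lit 9120, nat_lit 3840, R12_143, R6_190, R8_80⟩, ⟨nat_lit 5, nat_lit 12000, nat_lit 5280, nat_lit 7488, nat_lit 18960, nat_lit 12192, R12_156, R13_395, R9_254⟩]⟩, ⟨nat_lit 2, [⟨nat_lit 4, nat_lit 11616, nat_lit 480, nat_lit 2688, nat_lit 9072, nat_lit 2304, R12_56, R6_189, R4_48⟩, ⟨nat_lit 5, nat_lit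 11952, nat_lit 5424, nat_lit 4032, nat_lit 18768, nat_lit 2688, R12_84, R13_391, R5_56⟩]⟩]⟩], [], [⟨nat_lit 0, [⟨nat_lit 0, [⟨nat_lit 5, nat_lit 11136, nat_lit 3168, nat_lit 15888, nat_lit 13056, nat_lit 12816, R7_331, R6_272, R5_267⟩]⟩, ⟨nat_lit 2, [⟨nat_lit 5, nat_lit 11184, nat_lit 3216, nat_lit 14592, nat_lit 13200, nat_lit 15744, R2_304, R6_275, R11_328⟩]⟩]⟩,
 ⟨nat_lit 1, [⟨nat_lit 0, [⟨nat_lit 5, nat_lit 12048, nat_lit 3600, nat_lit 11136, nat_lit 18672, nat_lit 13824, R14_232, R13_389, R5_288⟩]⟩, ⟨nat_lit 1, [⟨nat_lit 5, nat_lit 12144, nat_lit 3696, nat_lit 9264, nat_lit 19008, nat_lit 1392, R12_193, R13_396, R0_29⟩]⟩, ⟨nat_lit 2, [⟨nat_lit 5, nat_lit 12096, nat_lit 3840, nat_lit 5376, nat_lit 18816, nat_lit 16896, R12_112, R13_392, R11_352⟩]⟩]⟩], [⟨nat_lit 0, [⟨nat_lit 0, [⟨nat_lit 5, nat_lit 11232,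 nat_lit 7488, nat_lit 15792, nat_lit 13104, nat_lit 10944, R7_329, R6_273, R9_228⟩]⟩, ⟨nat_lit 2, [⟨nat_lit 5, nat_lit 11280, nat_lit 7632, nat_lit 14496, nat_lit 13248, nat_lit 9456, R2_302, R6_276, R0_197⟩]⟩, ⟨nat_lit 3, [⟨nat_lit 5, nat_lit 11328, nat_lit 7584, nat_lit 14544, nat_lit 13296, nat_lit 9312, R2_303, R6_277, R0_194⟩]⟩]⟩,
 ⟨nat_lit 1, [⟨nat_lit 0, [⟨nat_lit 4, nat_lit 11712, nat_lit 1248, nat_lit 9456, nat_lit 9168, nat_lit 14640, R14_197, R6_191, R13_305⟩, ⟨nat_lit 5, nat_lit 12192, nat_lit 8304, nat_lit 10608, nat_lit 18720, nat_lit 12480, R14_221, R13_390, R9_260⟩]⟩, ⟨nat_lit 1, [⟨nat_lit 4, nat_lit 11808, nat_lit 1632, nat_lit 8352, nat_lit 9312, nat_lit 1056, R12_174, R6_194, R9_22⟩]⟩, ⟨nat_lit 2, [⟨nat_lit 4, nat_lit 11760, nat_lit 1824, nat_lit 3024, nat_lit 9216, nat_lit 2208, R12_63, R6_192,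 R3_46⟩, ⟨nat_lit 5, nat_lit 12240, nat_lit 8688, nat_lit 4608, nat_lit 18864, nat_lit 10656, R12_96, R13_393, R0_222⟩]⟩, ⟨nat_lit 3, [⟨nat_lit 4, nat_lit 11856, nat_lit 1344, nat_lit 3168, nat_lit 9264, nat_lit 2160, R12_66, R6_193, R3_45⟩, ⟨nat_lit 5, nat_lit 12288, nat_lit 8400, nat_lit 4752, nat_lit 18912, nat_lit 10512, R12_99, R13_394, R0_219⟩]⟩]⟩]], [[⟨nat_lit 1, [⟨nat_lit 0, [⟨nat_lit 4, nat_lit 13872, nat_lit 18624, nat_lit 8304, nat_lit 9696, nat_lit 11568, R14_173, R4_202, R6_241⟩, ⟨nat_lit 5, nat_lit 14592, nat_lit 19104, nat_lit 8928, nat_lit 14592, nat_lit 12000, R14_186, R3_304, R8_250⟩]⟩, ⟨nat_lit 1, [⟨nat_lit 4, nat_lit 13968, nat_lit 20112, nat_lit 6912, nat_lit 9840, nat_lit 11808, R12_144, R4_205, R8_246⟩, ⟨nat_lit 5, nat_lit 14688, nat_lit 20784, nat_lit 7536, nat_lit 14928, nat_lit 12960,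 R12_157, R3_311, R9_270⟩]⟩, ⟨nat_lit 2, [⟨nat_lit 4, nat_lit 13920, nat_lit 21696, nat_lit 2736, nat_lit 9744, nat_lit 11184, R12_57, R4_203, R4_233⟩, ⟨nat_lit 5, nat_lit 14640, nat_lit 22080, nat_lit 4080, nat_lit 14736, nat_lit 13920, R12_85, R3_307, R5_290⟩]⟩]⟩], [⟨nat_lit 1, [⟨nat_lit 1, [⟨nat_lit 4, nat_lit 14016, nat_lit 15888, nat_lit 7776, nat_lit 10320, nat_lit 864, R12_162, R4_215, R5_18⟩, ⟨nat_lit 5, nat_lit 14880, nat_lit 16560, nat_lit 7920, nat_lit 15024, nat_lit 11136, R12_165, R3_313, R0_232⟩]⟩]⟩], [⟨nat_lit 1, [⟨nat_lit 0, [⟨nat_lit 5, nat_lit 14736, nat_lit 15600, nat_lit 11184, nat_lit 14640, nat_lit 13920, R14_233, R3_305, R5_290⟩]⟩, ⟨nat_lit 1, [⟨nat_lit 5, nat_lit 14832, nat_lit 16272, nat_lit 9312, nat_lit 14976, nat_lit 10752, R12_194, R3_312, R0_224⟩]⟩, ⟨nat_lit 2, [⟨nat_lit 5, nat_lit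 14784, nat_lit 16896, nat_lit 5424, nat_lit 14784, nat_lit 16992, R12_113, R3_308, R11_354⟩]⟩]⟩], [⟨nat_lit 1, [⟨nat_lit 0, [⟨nat_lit 4, nat_lit 14064, nat_lit 288, nat_lit 9552, nat_lit 9936, nat_lit 14736, R14_199, R4_207, R13_307⟩, ⟨nat_lit 5, nat_lit 14928, nat_lit 1344, nat_lit 10704, nat_lit 14688, nat_lit 12576, R14_223, R3_306, R9_262⟩]⟩, ⟨nat_lit 1, [⟨nat_lit 4, nat_lit 14160, nat_lit 7392, nat_lit 8448, nat_lit 10224, nat_lit 1776, R12_176, R4_213, R9_37⟩]⟩, ⟨nat_lit 2, [⟨nat_lit 4, nat_lit 14112, nat_lit 10320, nat_lit 3120, nat_lit 9984, nat_lit 2880, R12_65, R4_208, R3_60⟩, ⟨nat_lit 5, nat_lit 14976, nat_lit 11088, nat_lit 4704, nat_lit 14832, nat_lit 10752, R12_98, R3_309, R0_224⟩]⟩, ⟨nat_lit 3, [⟨nat_lit 4, nat_lit 14208, nat_lit 5952, nat_lit 3504, nat_lit 10080, nat_lit 9840, R12_73, R4_210,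 R3_205⟩, ⟨nat_lit 5, nat_lit 15024, nat_lit 6192, nat_lit 5088, nat_lit 14880, nat_lit 11136, R12_106, R3_310, R0_232⟩]⟩]⟩]], [[], [], [⟨nat_lit 0, [⟨nat_lit 0, [⟨nat_lit 5, nat_lit 15168, nat_lit 2640, nat_lit 16560, nat_lit 13152, nat_lit 12864, R7_345, R4_274, R5_268⟩]⟩, ⟨nat_lit 2, [⟨nat_lit 1, nat_lit 15360, nat_lit 13152, nat_lit 10608, nat_lit 14448, nat_lit 11136, R2_221, R7_301, R1_232⟩, ⟨nat_lit 5, nat_lit 15216, nat_lit 2688, nat_lit 14832, nat_lit 13200, nat_lit 15792, R2_309, R4_275, R11_329⟩]⟩]⟩,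
 ⟨nat_lit 1, [⟨nat_lit 0, [⟨nat_lit 5, nat_lit 15504, nat_lit 3072, nat_lit 11232, nat_lit 9168, nat_lit 13872, R14_234, R3_191, R5_289⟩]⟩, ⟨nat_lit 1, [⟨nat_lit 5, nat_lit 15600, nat_lit 3168, nat_lit 9360, nat_lit 9264, nat_lit 6528, R12_195, R3_193, R0_136⟩]⟩, ⟨nat_lit 2, [⟨nat_lit 1, nat_lit 15648, nat_lit 13632, nat_lit 6336, nat_lit 13872, nat_lit 11328, R12_132, R2_289, R1_236⟩, ⟨nat_lit 5, nat_lit 15552, nat_lit 3312, nat_lit 5472, nat_lit 9216, nat_lit 16944, R12_114, R3_192, R11_353⟩]⟩]⟩,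
 ⟨nat_lit 2, [⟨nat_lit 2, [⟨nat_lit 1, nat_lit 15696, nat_lit 13776, nat_lit 10992, nat_lit 14256, nat_lit 11232, R1_229, R2_297, R1_234⟩]⟩]⟩]], [[], [], [], [⟨nat_lit 0, [⟨nat_lit 0, [⟨nat_lit 4, nat_lit 15888, nat_lit 48, nat_lit 13344, nat_lit 13776, nat_lit 13488, R7_278, R6_287, R13_281⟩, ⟨nat_lit 5, nat_lit 16224, nat_lit 8016, nat_lit 16128, nat_lit 13632, nat_lit 10992, R7_336, R8_284, R9_229⟩, ⟨nat_lit 7, nat_lit 16656, nat_lit 5856, nat_lit 14736, nat_lit 13584, nat_lit 10272, R7_307, R4_283, R3_214⟩]⟩, ⟨nat_lit 2, [⟨nat_lit 4, nat_lit 15936, nat_lit 192, nat_lit 11904, nat_lit 13968, nat_lit 624, R2_248, R6_291, R3_13⟩, ⟨nat_lit 5, nat_lit 16272, nat_lit 8160, nat_lit 14640, nat_lit 13680, nat_lit 9504, R2_305, R8_285, R0_198⟩, ⟨nat_lit 7, nat_lit 16704, nat_lit 5904, nat_lit 13920, nat_lit 13776,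 nat_lit 12240, R2_290, R4_287, R10_255⟩]⟩, ⟨nat_lit 3, [⟨nat_lit 4, nat_lit 15984, nat_lit 144, nat_lit 12288, nat_lit 14208, nat_lit 3648, R2_256, R6_296, R3_76⟩, ⟨nat_lit 5, nat_lit 16320, nat_lit 8112, nat_lit 15120, nat_lit 13728, nat_lit 9552, R2_315, R8_286, R0_199⟩]⟩]⟩,
 ⟨nat_lit 1, [⟨nat_lit 0, [⟨nat_lit 4, nat_lit 16848, nat_lit 720, nat_lit 9504, nat_lit 8496, nat_lit 14688, R14_198, R8_177, R13_306⟩, ⟨nat_lit 5, nat_lit 17040, nat_lit 9120, nat_lit 10656, nat_lit 15216, nat_lit 12528, R14_222, R9_317, R9_261⟩, ⟨nat_lit 7, nat_lit 17184, nat_lit 6240, nat_lit 10128, nat_lit 16080, nat_lit 10800, R14_211, R5_335, R3_225⟩]⟩, ⟨nat_lit 1, [⟨nat_lit 4, nat_lit 16944, nat_lit 1104, nat_lit 8400, nat_lit 8640, nat_lit 1488, R12_175, R8_180, R9_31⟩, ⟨nat_lit 7, nat_lit 17280, nat_lit 6528, nat_lit 9024, nat_lit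 16176, nat_lit 4272, R12_188, R5_337, R0_89⟩]⟩, ⟨nat_lit 2, [⟨nat_lit 4, nat_lit 16896, nat_lit 1296, nat_lit 3072, nat_lit 8544, nat_lit 2736, R12_64, R8_178, R3_57⟩, ⟨nat_lit 5, nat_lit 17088, nat_lit 9504, nat_lit 4656, nat_lit 15264, nat_lit 10704, R12_97, R9_318, R0_223⟩, ⟨nat_lit 7, nat_lit 17232, nat_lit 6720, nat_lit 3600, nat_lit 16128, nat_lit 12960, R12_75, R5_336, R10_270⟩]⟩, ⟨nat_lit 3, [⟨nat_lit 4, nat_lit 16992, nat_lit 816, nat_lit 3408, nat_lit 8592, nat_lit 7056, R12_71, R8_179, R3_147⟩, ⟨nat_lit 5, nat_lit 17136, nat_lit 9216, nat_lit 4992, nat_lit 15312, nat_lit 10800, R12_104, R9_319, R0_225⟩]⟩]⟩,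
 ⟨nat_lit 3, [⟨nat_lit 3, [⟨nat_lit 4, nat_lit 17328, nat_lit 480, nat_lit 12864, nat_lit 6960, nat_lit 4800, R1_268, R4_145, R3_100⟩, ⟨nat_lit 5, nat_lit 17616, nat_lit 8736, nat_lit 16128, nat_lit 10992, nat_lit 10032, R1_336, R5_229, R0_209⟩]⟩]⟩]]], [[], [[], [⟨nat_lit 1, [⟨nat_lit 1, [⟨nat_lit 4, nat_lit 14256, nat_lit 4224, nat_lit 4656, nat_lit 10368, nat_lit 816, R1_97, R4_216, R5_17⟩, ⟨nat_lit 5, nat_lit 15072, nat_lit 4320, nat_lit 4800, nat_lit 15120, nat_lit 6720, R1_100, R3_315, R0_140⟩]⟩]⟩,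
 ⟨nat_lit 5, [⟨nat_lit 1, [⟨nat_lit 4, nat_lit 12576, nat_lit 3648, nat_lit 14112, nat_lit 10992, nat_lit 3216, R10_294, R7_229, R5_67⟩, ⟨nat_lit 5, nat_lit 12960, nat_lit 3696, nat_lit 14208, nat_lit 9984, nat_lit 6864, R10_296, R2_208, R0_143⟩, ⟨nat_lit 6, nat_lit 13344, nat_lit 3792, nat_lit 14160, nat_lit 5136, nat_lit 9408, R10_295, R2_107, R11_196⟩]⟩, ⟨nat_lit 5, [⟨nat_lit 6, nat_lit 13392, nat_lit 15456, nat_lit 12912, nat_lit 5184, nat_lit 2496, R1_269, R2_108, R1_52⟩]⟩]⟩]], [], [], [], [[], [⟨nat_lit 5, [⟨nat_lit 1, [⟨nat_lit 4, nat_lit 4464, nat_lit 816, nat_lit 14256, nat_lit 7296, nat_lit 4320, R10_297, R4_152, R5_90⟩, ⟨nat_lit 6, nat_lit 5040, nat_lit 864, nat_lit 14304, nat_lit 6000, nat_lit 10224, R10_298, R3_125, R11_213⟩]⟩, ⟨nat_lit 5, [⟨nat_lit 6, nat_lit 5088, nat_lit 912, nat_lit 12960, nat_lit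 5952, nat_lit 2544, R1_270, R3_124, R1_53⟩]⟩]⟩], [], [], [], [⟨nat_lit 5, [⟨nat_lit 5, [⟨nat_lit 6, nat_lit 5136, nat_lit 528, nat_lit 13008, nat_lit 5904, nat_lit 18912, R1_271, R3_123, R10_394⟩]⟩]⟩]]], [[], [[], [], [], [⟨nat_lit 1, [⟨nat_lit 3, [⟨nat_lit 4, nat_lit 14304, nat_lit 4560, nat_lit 3984, nat_lit 10128, nat_lit 9744, R1_83, R4_211, R3_203⟩, ⟨nat_lit 5, nat_lit 15120, nat_lit 4800, nat_lit 4320, nat_lit 15072, nat_lit 6720, R1_90, R3_314, R0_140⟩]⟩]⟩,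
 ⟨nat_lit 5, [⟨nat_lit 0, [⟨nat_lit 4, nat_lit 12624, nat_lit 1440, nat_lit 4992, nat_lit 10752, nat_lit 13200, R5_104, R7_224, R13_275⟩, ⟨nat_lit 5, nat_lit 13008, nat_lit 1632, nat_lit 6720, nat_lit 9840, nat_lit 10512, R5_140, R2_205, R9_219⟩, ⟨nat_lit 6, nat_lit 13440, nat_lit 1776, nat_lit 5664, nat_lit 4848, nat_lit 9936, R5_118, R2_101, R3_207⟩]⟩, ⟨nat_lit 1, [⟨nat_lit 4, nat_lit 12672, nat_lit 10560, nat_lit 11760, nat_lit 10896, nat_lit 3408, R0_245, R7_227, R9_71⟩, ⟨nat_lit 6, nat_lit 13488, nat_lit 10752, nat_lit 11808, nat_lit 5040, nat_lit 1872, R0_246, R2_105, R0_39⟩]⟩, ⟨nat_lit 3, [⟨nat_lit 4, nat_lit 12720, nat_lit 6864, nat_lit 18048, nat_lit 10800, nat_lit 10704, R11_376, R7_225, R3_223⟩, ⟨nat_lit 5, nat_lit 13056, nat_lit 7056, nat_lit 18144, nat_lit 9888, nat_lit 5376, R11_378, R2_206, R0_112⟩,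 ⟨nat_lit 6, nat_lit 13536, nat_lit 7200, nat_lit 18096, nat_lit 4896, nat_lit 2400, R11_377, R2_102, R10_50⟩]⟩]⟩]], [], [], [], [[⟨nat_lit 5, [⟨nat_lit 0, [⟨nat_lit 4, nat_lit 4512, nat_lit 1584, nat_lit 0, nat_lit 6816, nat_lit 7296, R5_0, R4_142, R6_152⟩, ⟨nat_lit 6, nat_lit 5184, nat_lit 3984, nat_lit 96, nat_lit 5616, nat_lit 7968, R5_2, R3_117, R4_166⟩]⟩, ⟨nat_lit 1, [⟨nat_lit 4, nat_lit 4560, nat_lit 10080, nat_lit 11856, nat_lit 7104, nat_lit 18672, R0_247, R4_148, R8_389⟩, ⟨nat_lit 6, nat_lit 5232, nat_lit 12432, nat_lit 12000, nat_lit 5664, nat_lit 12576, R0_250, R3_118, R5_262⟩]⟩]⟩], [⟨nat_lit 5, [⟨nat_lit 1, [⟨nat_lit 4, nat_lit 4608, nat_lit 480, nat_lit 11904, nat_lit 7248, nat_lit 4272, R0_248, R4_151, R5_89⟩, ⟨nat_lit 6, nat_lit 5280, nat_lit 528, nat_lit 12048, nat_lit 5856, nat_lit 15552, R0_251,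 R3_122, R11_324⟩]⟩]⟩], [], [⟨nat_lit 5, [⟨nat_lit 0, [⟨nat_lit 4, nat_lit 4656, nat_lit 1488, nat_lit 5040, nat_lit 6864, nat_lit 13248, R5_105, R4_143, R13_276⟩, ⟨nat_lit 6, nat_lit 5328, nat_lit 1632, nat_lit 5760, nat_lit 5712, nat_lit 9984, R5_120, R3_119, R3_208⟩]⟩, ⟨nat_lit 1, [⟨nat_lit 4, nat_lit 4704, nat_lit 1536, nat_lit 11952, nat_lit 7152, nat_lit 3648, R0_249, R4_149, R9_76⟩, ⟨nat_lit 6, nat_lit 5376, nat_lit 1680, nat_lit 12096, nat_lit 5808, nat_lit 2112, R0_252, R3_121, R0_44⟩]⟩, ⟨nat_lit 3, [⟨nat_lit 4, nat_lit 4752, nat_lit 1584, nat_lit 18192, nat_lit 6912, nat_lit 17568, R11_379, R4_144, R3_366⟩, ⟨nat_lit 6, nat_lit 5424, nat_lit 1728, nat_lit 18240, nat_lit 5760, nat_lit 2640, R11_380, R3_120, R10_55⟩]⟩]⟩]]]]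
noncomputable def N1173 : T3 (List N0) := [[], [[[⟨nat_lit 2, [⟨nat_lit 2, [⟨nat_lit 4, nat_lit 3456, nat_lit 2976, nat_lit 5232, nat_lit 1680, nat_lit 3984, R10_109, R4_35, R7_83⟩]⟩, ⟨nat_lit 6, [⟨nat_lit 4, nat_lit 3936, nat_lit 3072, nat_lit 4512, nat_lit 3792, nat_lit 4032, R1_94, R4_79, R4_84⟩]⟩]⟩], [], [⟨nat_lit 0, [⟨nat_lit 2, [⟨nat_lit 4, nat_lit 2832, nat_lit 2112, nat_lit 3120, nat_lit 8976, nat_lit 1872, R3_65, R6_187, R2_39⟩, ⟨nat_lit 5, nat_lit 2928, nat_lit 2448, nat_lit 3360, nat_lit 5712, nat_lit 1344, R3_70, R8_119, R1_28⟩, ⟨nat_lit 6, nat_lit 2880, nat_lit 2832, nat_lit 3216, nat_lit 9600, nat_lit 10416, R3_67, R4_200, R12_217⟩]⟩]⟩,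
 ⟨nat_lit 2, [⟨nat_lit 2, [⟨nat_lit 4, nat_lit 3504, nat_lit 9792, nat_lit 5280, nat_lit 8400, nat_lit 2352, R10_110, R4_175, R2_49⟩, ⟨nat_lit 5, nat_lit 3552, nat_lit 10080, nat_lit 5328, nat_lit 5712, nat_lit 1824, R10_111, R5_119, R1_38⟩]⟩, ⟨nat_lit 6, [⟨nat_lit 4, nat_lit 3984, nat_lit 9744, nat_lit 4560, nat_lit 10128, nat_lit 14304, R1_95, R4_211, R3_298⟩, ⟨nat_lit 5, nat_lit 4032, nat_lit 10032, nat_lit 4608, nat_lit 5568, nat_lit 19488, R1_96, R5_116, R10_406⟩]⟩]⟩]], [], [[], [], [⟨nat_lit 0, [⟨nat_lit 2, [⟨nat_lit 5, nat_lit 2976, nat_lit 8400, nat_lit 10560, nat_lit 16464, nat_lit 6768, R3_220, R5_343, R1_141⟩]⟩]⟩,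
 ⟨nat_lit 2, [⟨nat_lit 2, [⟨nat_lit 5, nat_lit 3600, nat_lit 8496, nat_lit 5616, nat_lit 21408, nat_lit 7248, R10_117, R11_446, R1_151⟩]⟩, ⟨nat_lit 6, [⟨nat_lit 5, nat_lit 4080, nat_lit 8448, nat_lit 5040, nat_lit 21312, nat_lit 19536, R1_105, R11_444, R10_407⟩]⟩]⟩], [], [], [], [⟨nat_lit 2, [⟨nat_lit 6, [⟨nat_lit 1, nat_lit 4176, nat_lit 7824, nat_lit 4944, nat_lit 15600, nat_lit 21792, R1_103, R1_325, R11_454⟩, ⟨nat_lit 5, nat_lit 4128, nat_lit 7776, nat_lit 4992, nat_lit 21360, nat_lit 15888, R1_104, R11_445, R1_331⟩]⟩]⟩]], [[⟨nat_lit 0, [⟨nat_lit 2, [⟨nat_lit 4, nat_lit 3024, nat_lit 2640, nat_lit 8880, nat_lit 19248, nat_lit 9696, R3_185, R13_401, R7_202⟩, ⟨nat_lit 6, nat_lit 3072, nat_lit 13872, nat_lit 9168, nat_lit 15504, nat_lit 12288, R3_191, R3_323, R14_256⟩]⟩]⟩,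
 ⟨nat_lit 2, [⟨nat_lit 2, [⟨nat_lit 4, nat_lit 3648, nat_lit 3216, nat_lit 5376, nat_lit 12576, nat_lit 10992, R10_112, R3_262, R7_229⟩]⟩, ⟨nat_lit 6, [⟨nat_lit 4, nat_lit 4224, nat_lit 816, nat_lit 4656, nat_lit 14256, nat_lit 10368, R1_97, R3_297, R4_216⟩, ⟨nat_lit 7, nat_lit 4272, nat_lit 7776, nat_lit 4704, nat_lit 19056, nat_lit 7104, R1_98, R10_397, R5_148⟩]⟩]⟩,
 ⟨nat_lit 3, [⟨nat_lit 0, [⟨nat_lit 6, nat_lit 5088, nat_lit 13008, nat_lit 16272, nat_lit 14688, nat_lit 17904, R5_339, R10_306, R7_373⟩]⟩, ⟨nat_lit 2, [⟨nat_lit 4, nat_lit 5232, nat_lit 2832, nat_lit 3600, nat_lit 1872, nat_lit 10560, R0_75, R3_39, R7_220⟩, ⟨nat_lit 6, nat_lit 5280, nat_lit 14064, nat_lit 3648, nat_lit 16320, nat_lit 12336, R0_76, R10_340, R14_257⟩]⟩]⟩], [], [⟨nat_lit 0, [⟨nat_lit 2, [⟨nat_lit 4, nat_lit 3120, nat_lit 6432, nat_lit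 9024, nat_lit 19344, nat_lit 8736, R3_188, R13_403, R2_182⟩, ⟨nat_lit 5, nat_lit 3216, nat_lit 6480, nat_lit 9456, nat_lit 15600, nat_lit 9552, R3_197, R9_325, R1_199⟩, ⟨nat_lit 6, nat_lit 3168, nat_lit 6528, nat_lit 9264, nat_lit 15600, nat_lit 11232, R3_193, R3_325, R12_234⟩]⟩]⟩,
 ⟨nat_lit 2, [⟨nat_lit 2, [⟨nat_lit 4, nat_lit 3696, nat_lit 6864, nat_lit 5520, nat_lit 12960, nat_lit 9984, R10_115, R3_270, R2_208⟩, ⟨nat_lit 5, nat_lit 3744, nat_lit 6912, nat_lit 5568, nat_lit 14064, nat_lit 10800, R10_116, R0_293, R1_225⟩]⟩, ⟨nat_lit 6, [⟨nat_lit 4, nat_lit 4320, nat_lit 6720, nat_lit 4800, nat_lit 15072, nat_lit 15120, R1_100, R3_314, R3_315⟩, ⟨nat_lit 5, nat_lit 4368, nat_lit 6768, nat_lit 4896, nat_lit 14016, nat_lit 19584, R1_102, R0_292, R10_408⟩, ⟨nat_lit 7, nat_lit 4416, nat_lit 6816, nat_lit 4848, nat_lit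 19152, nat_lit 14352, R1_101, R10_399, R0_299⟩]⟩]⟩,
 ⟨nat_lit 3, [⟨nat_lit 2, [⟨nat_lit 4, nat_lit 5328, nat_lit 6576, nat_lit 3792, nat_lit 8448, nat_lit 9648, R0_79, R3_176, R2_201⟩, ⟨nat_lit 5, nat_lit 5424, nat_lit 6624, nat_lit 3888, nat_lit 8832, nat_lit 10464, R0_81, R0_184, R1_218⟩, ⟨nat_lit 6, nat_lit 5376, nat_lit 6672, nat_lit 3840, nat_lit 17232, nat_lit 11280, R0_80, R10_359, R12_235⟩]⟩]⟩], [⟨nat_lit 0, [⟨nat_lit 2, [⟨nat_lit 4, nat_lit 3264, nat_lit 9024, nat_lit 8976, nat_lit 19296, nat_lit 3888, R3_187, R13_402, R2_81⟩, ⟨nat_lit 6, nat_lit 3312, nat_lit 9120, nat_lit 9216, nat_lit 15552, nat_lit 16992, R3_192, R3_324, R12_354⟩, ⟨nat_lit 7, nat_lit 3360, nat_lit 9072, nat_lit 9120, nat_lit 9120, nat_lit 3360, R3_190, R3_190, R1_70⟩]⟩]⟩,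
 ⟨nat_lit 2, [⟨nat_lit 2, [⟨nat_lit 4, nat_lit 3792, nat_lit 9408, nat_lit 5424, nat_lit 13344, nat_lit 5136, R10_113, R3_278, R2_107⟩, ⟨nat_lit 7, nat_lit 3840, nat_lit 9456, nat_lit 5472, nat_lit 19200, nat_lit 3840, R10_114, R10_400, R1_80⟩]⟩, ⟨nat_lit 6, [⟨nat_lit 7, nat_lit 4464, nat_lit 9360, nat_lit 4752, nat_lit 19104, nat_lit 21744, R1_99, R10_398, R11_453⟩]⟩]⟩,
 ⟨nat_lit 3, [⟨nat_lit 0, [⟨nat_lit 6, nat_lit 5136, nat_lit 9168, nat_lit 16608, nat_lit 15168, nat_lit 15456, R5_346, R10_316, R2_322⟩]⟩, ⟨nat_lit 2, [⟨nat_lit 4, nat_lit 5472, nat_lit 9264, nat_lit 3696, nat_lit 6816, nat_lit 4704, R0_77, R3_142, R2_98⟩, ⟨nat_lit 6, nat_lit 5520, nat_lit 9312, nat_lit 3744, nat_lit 17904, nat_lit 17184, R0_78, R10_373, R12_358⟩]⟩, ⟨nat_lit 3, [⟨nat_lit 6, nat_lit 5712, nat_lit 9216, nat_lit 5568, nat_lit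 18672, nat_lit 16464, R11_116, R10_389, R1_343⟩]⟩]⟩]], [[], [], [], [], [⟨nat_lit 2, [⟨nat_lit 6, [⟨nat_lit 0, nat_lit 4512, nat_lit 3072, nat_lit 3936, nat_lit 3792, nat_lit 4032, R1_82, R4_79, R4_84⟩]⟩]⟩,
 ⟨nat_lit 4, [⟨nat_lit 4, [⟨nat_lit 2, nat_lit 5808, nat_lit 11568, nat_lit 13440, nat_lit 14304, nat_lit 11664, R4_280, R7_298, R4_243⟩]⟩]⟩,
 ⟨nat_lit 6, [⟨nat_lit 4, [⟨nat_lit 0, nat_lit 6096, nat_lit 4224, nat_lit 14400, nat_lit 3216, nat_lit 10848, R5_300, R7_67, R6_226⟩, ⟨nat_lit 2, nat_lit 6144, nat_lit 12000, nat_lit 15984, nat_lit 5328, nat_lit 11712, R5_333, R14_111, R4_244⟩]⟩, ⟨nat_lit 6, [⟨nat_lit 0, nat_lit 6816, nat_lit 4320, nat_lit 4608, nat_lit 3744, nat_lit 1824, R11_96, R7_78, R4_38⟩]⟩]⟩], [], [], [⟨nat_lit 2, [⟨nat_lit 6, [⟨nat_lit 0, nat_lit 4560, nat_lit 9744, nat_lit 3984, nat_lit 10128,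 nat_lit 14304, R1_83, R4_211, R3_298⟩, ⟨nat_lit 3, nat_lit 4608, nat_lit 10032, nat_lit 4032, nat_lit 5568, nat_lit 19488, R1_84, R5_116, R10_406⟩]⟩]⟩,
 ⟨nat_lit 4, [⟨nat_lit 4, [⟨nat_lit 2, nat_lit 5856, nat_lit 10272, nat_lit 13584, nat_lit 14400, nat_lit 16656, R4_283, R7_300, R3_347⟩]⟩, ⟨nat_lit 7, [⟨nat_lit 2, nat_lit 5952, nat_lit 10320, nat_lit 15456, nat_lit 14544, nat_lit 14880, R3_322, R7_303, R10_310⟩]⟩]⟩,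
 ⟨nat_lit 6, [⟨nat_lit 4, [⟨nat_lit 0, nat_lit 6192, nat_lit 10608, nat_lit 14544, nat_lit 9408, nat_lit 21072, R5_303, R7_196, R13_439⟩, ⟨nat_lit 2, nat_lit 6240, nat_lit 10800, nat_lit 16080, nat_lit 5520, nat_lit 17184, R5_335, R14_115, R3_358⟩]⟩, ⟨nat_lit 6, [⟨nat_lit 0, nat_lit 6864, nat_lit 10704, nat_lit 4992, nat_lit 10800, nat_lit 12720, R11_104, R7_225, R3_265⟩]⟩, ⟨nat_lit 7, [⟨nat_lit 0, nat_lit 7296, nat_lit 10656, nat_lit 2592, nat_lit 10320, nat_lit 2016, R0_54, R7_215, R3_42⟩, ⟨nat_lit 2, nat_lit 7344, nat_lit 10848, nat_lit 2640, nat_lit 5568, nat_lit 16464, R0_55, R14_116, R10_343⟩]⟩]⟩]], [], [[], [], [], [], [⟨nat_lit 2, [⟨nat_lit 6, [⟨nat_lit 0, nat_lit 4656, nat_lit 816, nat_lit 4224, nat_lit 14256, nat_lit 10368, R1_88, R3_297, R4_216⟩, ⟨nat_lit 1, nat_lit 4704, nat_lit 7776, nat_lit 4272,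 nat_lit 19056, nat_lit 7104, R1_89, R10_397, R5_148⟩]⟩]⟩,
 ⟨nat_lit 6, [⟨nat_lit 4, [⟨nat_lit 0, nat_lit 6288, nat_lit 336, nat_lit 14448, nat_lit 1536, nat_lit 10896, R5_301, R2_32, R6_227⟩, ⟨nat_lit 1, nat_lit 6384, nat_lit 6528, nat_lit 17136, nat_lit 1008, nat_lit 9936, R5_357, R1_21, R8_207⟩, ⟨nat_lit 2, nat_lit 6336, nat_lit 12720, nat_lit 16032, nat_lit 7056, nat_lit 11760, R5_334, R12_147, R4_245⟩]⟩, ⟨nat_lit 6, [⟨nat_lit 0, nat_lit 6912, nat_lit 720, nat_lit 5808, nat_lit 2112, nat_lit 8544, R11_121, R2_44, R4_178⟩, ⟨nat_lit 1, nat_lit 6960, nat_lit 7680, nat_lit 5856, nat_lit 1584, nat_lit 7152, R11_122, R1_33, R5_149⟩]⟩]⟩], [], [⟨nat_lit 2, [⟨nat_lit 6, [⟨nat_lit 1, nat_lit 4752, nat_lit 9360, nat_lit 4464, nat_lit 19104, nat_lit 21744, R1_93, R10_398, R11_453⟩]⟩]⟩,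
 ⟨nat_lit 6, [⟨nat_lit 4, [⟨nat_lit 1, nat_lit 6432, nat_lit 6144, nat_lit 17472, nat_lit 6432, nat_lit 17472, R5_364, R1_134, R5_364⟩]⟩, ⟨nat_lit 6, [⟨nat_lit 1, nat_lit 7008, nat_lit 7296, nat_lit 6768, nat_lit 7008, nat_lit 22176, R11_141, R1_146, R11_462⟩]⟩]⟩], [⟨nat_lit 2, [⟨nat_lit 6, [⟨nat_lit 0, nat_lit 4800, nat_lit 6720, nat_lit 4320, nat_lit 15072, nat_lit 15120, R1_90, R3_314, R3_315⟩, ⟨nat_lit 1, nat_lit 4848, nat_lit 6816, nat_lit 4416, nat_lit 19152, nat_lit 14352, R1_92, R10_399, R0_299⟩, ⟨nat_lit 3, nat_lit 4896, nat_lit 6768, nat_lit 4368, nat_lit 14016, nat_lit 19584, R1_91, R0_292, R10_408⟩]⟩]⟩,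
 ⟨nat_lit 6, [⟨nat_lit 4, [⟨nat_lit 0, nat_lit 6480, nat_lit 4176, nat_lit 14640, nat_lit 8592, nat_lit 21168, R5_305, R2_179, R13_441⟩, ⟨nat_lit 1, nat_lit 6576, nat_lit 4224, nat_lit 17280, nat_lit 9408, nat_lit 17520, R5_360, R1_196, R9_365⟩, ⟨nat_lit 2, nat_lit 6528, nat_lit 4272, nat_lit 16176, nat_lit 8640, nat_lit 17280, R5_337, R12_180, R3_360⟩]⟩, ⟨nat_lit 6, [⟨nat_lit 0, nat_lit 7056, nat_lit 5376, nat_lit 6336, nat_lit 9888, nat_lit 13056, R11_132, R2_206, R3_272⟩, ⟨nat_lit 1, nat_lit 7104, nat_lit 5424, nat_lit 6384, nat_lit 10704, nat_lit 15120, R11_133, R1_223, R0_315⟩]⟩, ⟨nat_lit 7, [⟨nat_lit 0, nat_lit 7392, nat_lit 5040, nat_lit 4464, nat_lit 9504, nat_lit 8496, R0_93, R2_198, R3_177⟩, ⟨nat_lit 1, nat_lit 7488, nat_lit 5088, nat_lit 4560, nat_lit 10320, nat_lit 10464, R0_95, R1_215, R0_218⟩,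 ⟨nat_lit 2, nat_lit 7440, nat_lit 5136, nat_lit 4512, nat_lit 8688, nat_lit 17376, R0_94, R12_181, R10_362⟩]⟩]⟩]], [[], [], [], [⟨nat_lit 0, [⟨nat_lit 2, [⟨nat_lit 7, nat_lit 3408, nat_lit 6000, nat_lit 15840, nat_lit 14112, nat_lit 13680, R3_330, R2_294, R1_285⟩]⟩]⟩,
 ⟨nat_lit 2, [⟨nat_lit 2, [⟨nat_lit 7, nat_lit 3888, nat_lit 7872, nat_lit 5184, nat_lit 15648, nat_lit 15504, R10_108, R1_326, R1_323⟩]⟩, ⟨nat_lit 6, [⟨nat_lit 3, nat_lit 4992, nat_lit 7776, nat_lit 4128, nat_lit 21360, nat_lit 15888, R1_86, R11_445, R1_331⟩, ⟨nat_lit 7, nat_lit 4944, nat_lit 7824, nat_lit 4176, nat_lit 15600, nat_lit 21792, R1_87, R1_325, R11_454⟩]⟩]⟩,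
 ⟨nat_lit 3, [⟨nat_lit 0, [⟨nat_lit 6, nat_lit 5184, nat_lit 6624, nat_lit 16560, nat_lit 13536, nat_lit 15312, R5_345, R1_282, R2_319⟩]⟩, ⟨nat_lit 2, [⟨nat_lit 4, nat_lit 5568, nat_lit 7536, nat_lit 3456, nat_lit 13536, nat_lit 13680, R0_72, R2_282, R2_285⟩, ⟨nat_lit 6, nat_lit 5616, nat_lit 7632, nat_lit 3504, nat_lit 14880, nat_lit 15456, R0_73, R1_310, R12_322⟩, ⟨nat_lit 7, nat_lit 5664, nat_lit 7584, nat_lit 3552, nat_lit 14880, nat_lit 15024, R0_74, R12_310, R1_313⟩]⟩, ⟨nat_lit 3, [⟨nat_lit 6, nat_lit 5760, nat_lit 7152, nat_lit 5520, nat_lit 15408, nat_lit 16320, R11_115, R1_321, R1_340⟩]⟩]⟩,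
 ⟨nat_lit 4, [⟨nat_lit 7, [⟨nat_lit 2, nat_lit 6000, nat_lit 3408, nat_lit 15840, nat_lit 14112, nat_lit 13680, R3_330, R2_294, R1_285⟩]⟩]⟩,
 ⟨nat_lit 6, [⟨nat_lit 4, [⟨nat_lit 3, nat_lit 6624, nat_lit 5184, nat_lit 16560, nat_lit 13536, nat_lit 15312, R5_345, R1_282, R2_319⟩]⟩, ⟨nat_lit 6, [⟨nat_lit 3, nat_lit 7152, nat_lit 5760, nat_lit 5520, nat_lit 15408, nat_lit 16320, R11_115, R1_321, R1_340⟩]⟩, ⟨nat_lit 7, [⟨nat_lit 0, nat_lit 7536, nat_lit 5568, nat_lit 3456, nat_lit 13536, nat_lit 13680, R0_72, R2_282, R2_285⟩, ⟨nat_lit 2, nat_lit 7584, nat_lit 5664, nat_lit 3552, nat_lit 14880, nat_lit 15024, R0_74, R12_310, R1_313⟩, ⟨nat_lit 3, nat_lit 7632, nat_lit 5616, nat_lit 3504, nat_lit 14880, nat_lit 15456, R0_73, R1_310, R12_322⟩]⟩]⟩,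
 ⟨nat_lit 7, [⟨nat_lit 3, [⟨nat_lit 2, nat_lit 7824, nat_lit 4944, nat_lit 4176, nat_lit 15600, nat_lit 21792, R1_87, R1_325, R11_454⟩, ⟨nat_lit 6, nat_lit 7776, nat_lit 4992, nat_lit 4128, nat_lit 21360, nat_lit 15888, R1_86, R11_445, R1_331⟩]⟩, ⟨nat_lit 7, [⟨nat_lit 2, nat_lit 7872, nat_lit 3888, nat_lit 5184, nat_lit 15648, nat_lit 15504, R10_108, R1_326, R1_323⟩]⟩]⟩], [], [], [], [⟨nat_lit 2, [⟨nat_lit 6, [⟨nat_lit 3, nat_lit 5040, nat_lit 8448, nat_lit 4080, nat_lit 21312, nat_lit 19536, R1_85, R11_444, R10_407⟩]⟩]⟩,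
 ⟨nat_lit 4, [⟨nat_lit 4, [⟨nat_lit 2, nat_lit 5904, nat_lit 3360, nat_lit 13776, nat_lit 13920, nat_lit 16704, R4_287, R2_290, R3_348⟩]⟩, ⟨nat_lit 7, [⟨nat_lit 2, nat_lit 6048, nat_lit 3936, nat_lit 15792, nat_lit 14160, nat_lit 15312, R3_329, R2_295, R10_319⟩]⟩]⟩,
 ⟨nat_lit 6, [⟨nat_lit 4, [⟨nat_lit 0, nat_lit 6672, nat_lit 6000, nat_lit 14592, nat_lit 3504, nat_lit 21120, R5_304, R2_73, R13_440⟩, ⟨nat_lit 2, nat_lit 6720, nat_lit 6096, nat_lit 16128, nat_lit 14976, nat_lit 17232, R5_336, R12_312, R3_359⟩, ⟨nat_lit 3, nat_lit 6768, nat_lit 6048, nat_lit 16464, nat_lit 2976, nat_lit 10560, R5_343, R1_62, R3_220⟩]⟩, ⟨nat_lit 6, [⟨nat_lit 0, nat_lit 7200, nat_lit 6720, nat_lit 5280, nat_lit 4896, nat_lit 13536, R11_110, R2_102, R3_282⟩, ⟨nat_lit 3, nat_lit 7248, nat_lit 6768, nat_lit 5328, nat_lit 3600, nat_lit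 19968, R11_111, R1_75, R10_416⟩]⟩, ⟨nat_lit 7, [⟨nat_lit 0, nat_lit 7680, nat_lit 6432, nat_lit 3120, nat_lit 4368, nat_lit 6960, R0_65, R2_91, R3_145⟩, ⟨nat_lit 2, nat_lit 7728, nat_lit 6480, nat_lit 3168, nat_lit 15072, nat_lit 18000, R0_66, R12_314, R10_375⟩]⟩]⟩,
 ⟨nat_lit 7, [⟨nat_lit 7, [⟨nat_lit 2, nat_lit 7920, nat_lit 5040, nat_lit 4272, nat_lit 15696, nat_lit 18864, R10_89, R1_327, R10_393⟩]⟩]⟩]]], [[], [], [], [], [[], [], [], [], [⟨nat_lit 4, [⟨nat_lit 4, [⟨nat_lit 2, nat_lit 7968, nat_lit 9648, nat_lit 13392, nat_lit 16800, nat_lit 9120, R8_279, R7_350, R4_190⟩]⟩, ⟨nat_lit 5, [⟨nat_lit 2, nat_lit 8208, nat_lit 10224, nat_lit 16320, nat_lit 17088, nat_lit 6336, R5_340, R7_356, R5_132⟩]⟩]⟩,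
 ⟨nat_lit 6, [⟨nat_lit 4, [⟨nat_lit 0, nat_lit 8976, nat_lit 1776, nat_lit 2256, nat_lit 3360, nat_lit 9504, R9_47, R7_70, R6_198⟩, ⟨nat_lit 2, nat_lit 9024, nat_lit 9744, nat_lit 2352, nat_lit 6336, nat_lit 10416, R9_49, R14_132, R4_217⟩]⟩, ⟨nat_lit 5, [⟨nat_lit 0, nat_lit 9600, nat_lit 2640, nat_lit 720, nat_lit 4224, nat_lit 2112, R0_15, R7_88, R8_44⟩, ⟨nat_lit 2, nat_lit 9648, nat_lit 10320, nat_lit 816, nat_lit 6384, nat_lit 6384, R0_17, R14_133, R5_133⟩]⟩, ⟨nat_lit 6, [⟨nat_lit 0, nat_lit 10512, nat_lit 2976, nat_lit 11520, nat_lit 3840, nat_lit 1776, R0_240, R7_80, R4_37⟩]⟩]⟩], [⟨nat_lit 4, [⟨nat_lit 5, [⟨nat_lit 2, nat_lit 8256, nat_lit 12912, nat_lit 16416, nat_lit 17232, nat_lit 5952, R5_342, R7_359, R11_124⟩]⟩]⟩,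
 ⟨nat_lit 6, [⟨nat_lit 5, [⟨nat_lit 0, nat_lit 9696, nat_lit 13680, nat_lit 5952, nat_lit 12672, nat_lit 15216, R0_124, R7_264, R5_317⟩, ⟨nat_lit 2, nat_lit 9744, nat_lit 13968, nat_lit 6048, nat_lit 7728, nat_lit 6000, R0_126, R14_161, R11_125⟩]⟩]⟩], [], [⟨nat_lit 4, [⟨nat_lit 4, [⟨nat_lit 2, nat_lit 8016, nat_lit 11040, nat_lit 13632, nat_lit 16896, nat_lit 16224, R8_284, R7_352, R3_338⟩]⟩, ⟨nat_lit 5, [⟨nat_lit 2, nat_lit 8304, nat_lit 11136, nat_lit 16368, nat_lit 17136, nat_lit 12288, R5_341, R7_357, R0_256⟩]⟩, ⟨nat_lit 7, [⟨nat_lit 2, nat_lit 8544, nat_lit 11088, nat_lit 15552, nat_lit 17040, nat_lit 14832, R9_324, R7_355, R10_309⟩]⟩]⟩,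
 ⟨nat_lit 6, [⟨nat_lit 4, [⟨nat_lit 0, nat_lit 9072, nat_lit 11952, nat_lit 9024, nat_lit 9552, nat_lit 20688, R9_188, R7_199, R13_431⟩, ⟨nat_lit 2, nat_lit 9120, nat_lit 12624, nat_lit 9360, nat_lit 7008, nat_lit 17040, R9_195, R14_146, R3_355⟩]⟩, ⟨nat_lit 5, [⟨nat_lit 0, nat_lit 9792, nat_lit 12000, nat_lit 8544, nat_lit 11232, nat_lit 14304, R0_178, R7_234, R9_298⟩, ⟨nat_lit 2, nat_lit 9840, nat_lit 12672, nat_lit 8880, nat_lit 7056, nat_lit 13008, R0_185, R14_147, R0_271⟩]⟩, ⟨nat_lit 6, [⟨nat_lit 0, nat_lit 10560, nat_lit 12048, nat_lit 11760, nat_lit 10896, nat_lit 12672, R0_245, R7_227, R3_264⟩]⟩]⟩]], [[], [], [], [], [⟨nat_lit 4, [⟨nat_lit 4, [⟨nat_lit 2, nat_lit 8064, nat_lit 528, nat_lit 13440, nat_lit 15024, nat_lit 9168, R8_280, R2_313, R4_191⟩]⟩, ⟨nat_lit 5, [⟨nat_lit 2, nat_lit 8352, nat_lit 7488,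 nat_lit 16656, nat_lit 15360, nat_lit 7200, R5_347, R2_320, R5_150⟩]⟩]⟩,
 ⟨nat_lit 5, [⟨nat_lit 4, [⟨nat_lit 2, nat_lit 8688, nat_lit 576, nat_lit 2160, nat_lit 16032, nat_lit 10752, R5_45, R1_334, R4_224⟩]⟩, ⟨nat_lit 5, [⟨nat_lit 2, nat_lit 8784, nat_lit 7536, nat_lit 21600, nat_lit 16368, nat_lit 7344, R11_450, R1_341, R5_153⟩]⟩]⟩,
 ⟨nat_lit 6, [⟨nat_lit 4, [⟨nat_lit 2, nat_lit 9168, nat_lit 672, nat_lit 2400, nat_lit 4320, nat_lit 10512, R9_50, R12_90, R4_219⟩]⟩, ⟨nat_lit 5, [⟨nat_lit 2, nat_lit 9888, nat_lit 7632, nat_lit 864, nat_lit 4368, nat_lit 7248, R0_18, R12_91, R5_151⟩]⟩]⟩], [⟨nat_lit 4, [⟨nat_lit 5, [⟨nat_lit 2, nat_lit 8400, nat_lit 15840, nat_lit 16752, nat_lit 15504, nat_lit 6816, R5_349, R2_323, R11_142⟩]⟩]⟩,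
 ⟨nat_lit 5, [⟨nat_lit 5, [⟨nat_lit 2, nat_lit 8832, nat_lit 16416, nat_lit 21696, nat_lit 16512, nat_lit 6960, R11_452, R1_344, R11_145⟩]⟩]⟩,
 ⟨nat_lit 6, [⟨nat_lit 5, [⟨nat_lit 2, nat_lit 9936, nat_lit 17040, nat_lit 6096, nat_lit 5712, nat_lit 6864, R0_127, R12_119, R11_143⟩]⟩]⟩], [], [⟨nat_lit 4, [⟨nat_lit 4, [⟨nat_lit 2, nat_lit 8112, nat_lit 9552, nat_lit 13728, nat_lit 15120, nat_lit 16320, R8_286, R2_315, R3_340⟩]⟩, ⟨nat_lit 5, [⟨nat_lit 2, nat_lit 8448, nat_lit 9648, nat_lit 16704, nat_lit 15408, nat_lit 12672, R5_348, R2_321, R0_264⟩]⟩, ⟨nat_lit 7, [⟨nat_lit 2, nat_lit 8592, nat_lit 9600, nat_lit 15840, nat_lit 15264, nat_lit 15600, R9_330, R2_318, R10_325⟩]⟩]⟩,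
 ⟨nat_lit 5, [⟨nat_lit 4, [⟨nat_lit 2, nat_lit 8736, nat_lit 10032, nat_lit 10992, nat_lit 16128, nat_lit 17616, R5_229, R1_336, R3_367⟩]⟩, ⟨nat_lit 5, [⟨nat_lit 2, nat_lit 8880, nat_lit 10128, nat_lit 21648, nat_lit 16416, nat_lit 13968, R11_451, R1_342, R0_291⟩]⟩, ⟨nat_lit 7, [⟨nat_lit 2, nat_lit 8928, nat_lit 10080, nat_lit 14304, nat_lit 16272, nat_lit 19008, R0_298, R1_339, R10_396⟩]⟩]⟩,
 ⟨nat_lit 6, [⟨nat_lit 4, [⟨nat_lit 2, nat_lit 9216, nat_lit 10800, nat_lit 9456, nat_lit 4992, nat_lit 17136, R9_197, R12_104, R3_357⟩]⟩, ⟨nat_lit 5, [⟨nat_lit 2, nat_lit 9984, nat_lit 10848, nat_lit 8976, nat_lit 5040, nat_lit 13872, R0_187, R12_105, R0_289⟩]⟩]⟩]], [[], [], [], [], [⟨nat_lit 6, [⟨nat_lit 4, [⟨nat_lit 0, nat_lit 9264, nat_lit 864, nat_lit 2304, nat_lit 1680, nat_lit 9552, R9_48, R2_35, R6_199⟩, ⟨nat_lit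 1, nat_lit 9360, nat_lit 1248, nat_lit 2784, nat_lit 1152, nat_lit 6768, R9_58, R1_24, R8_141⟩, ⟨nat_lit 2, nat_lit 9312, nat_lit 1584, nat_lit 2448, nat_lit 7296, nat_lit 10464, R9_51, R12_152, R4_218⟩]⟩, ⟨nat_lit 5, [⟨nat_lit 0, nat_lit 10032, nat_lit 6288, nat_lit 768, nat_lit 2640, nat_lit 6624, R0_16, R2_55, R8_138⟩, ⟨nat_lit 1, nat_lit 10128, nat_lit 7104, nat_lit 1248, nat_lit 2112, nat_lit 6864, R0_26, R1_44, R9_143⟩, ⟨nat_lit 2, nat_lit 10080, nat_lit 7488, nat_lit 912, nat_lit 7344, nat_lit 6816, R0_19, R12_153, R5_142⟩]⟩, ⟨nat_lit 6, [⟨nat_lit 0, nat_lit 10608, nat_lit 10272, nat_lit 11568, nat_lit 2208, nat_lit 8496, R0_241, R2_46, R4_177⟩, ⟨nat_lit 1, nat_lit 10656, nat_lit 10560, nat_lit 14400, nat_lit 1680, nat_lit 6768, R0_300, R1_35, R5_141⟩]⟩]⟩], [⟨nat_lit 6, [⟨nat_lit 5, [⟨nat_lit 0, nat_lit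 10176, nat_lit 4128, nat_lit 6000, nat_lit 11376, nat_lit 15792, R0_125, R2_237, R5_329⟩, ⟨nat_lit 1, nat_lit 10272, nat_lit 4944, nat_lit 6384, nat_lit 11952, nat_lit 4704, R0_133, R1_249, R0_98⟩, ⟨nat_lit 2, nat_lit 10224, nat_lit 5328, nat_lit 6144, nat_lit 9168, nat_lit 6432, R0_128, R12_191, R11_134⟩]⟩]⟩], [⟨nat_lit 6, [⟨nat_lit 4, [⟨nat_lit 1, nat_lit 9408, nat_lit 4224, nat_lit 11664, nat_lit 6576, nat_lit 17280, R9_243, R1_137, R5_360⟩]⟩, ⟨nat_lit 5, [⟨nat_lit 1, nat_lit 10320, nat_lit 5088, nat_lit 10464, nat_lit 7488, nat_lit 4560, R0_218, R1_156, R0_95⟩]⟩, ⟨nat_lit 6, [⟨nat_lit 1, nat_lit 10704, nat_lit 5424, nat_lit 15120, nat_lit 7104, nat_lit 21984, R0_315, R1_148, R11_458⟩]⟩]⟩]], [[], [], [], [], [], [], [], [⟨nat_lit 4, [⟨nat_lit 4, [⟨nat_lit 2, nat_lit 8160, nat_lit 9504, nat_lit 13680, nat_lit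 14640, nat_lit 16272, R8_285, R2_305, R3_339⟩]⟩, ⟨nat_lit 5, [⟨nat_lit 2, nat_lit 8496, nat_lit 9840, nat_lit 16800, nat_lit 15696, nat_lit 12576, R5_350, R2_327, R0_262⟩]⟩, ⟨nat_lit 7, [⟨nat_lit 2, nat_lit 8640, nat_lit 9744, nat_lit 15936, nat_lit 15216, nat_lit 15264, R9_332, R2_317, R10_318⟩]⟩]⟩,
 ⟨nat_lit 6, [⟨nat_lit 4, [⟨nat_lit 0, nat_lit 9456, nat_lit 1344, nat_lit 9120, nat_lit 3744, nat_lit 20736, R9_190, R2_78, R13_432⟩, ⟨nat_lit 2, nat_lit 9504, nat_lit 10704, nat_lit 9408, nat_lit 16224, nat_lit 17088, R9_196, R12_338, R3_356⟩, ⟨nat_lit 3, nat_lit 9552, nat_lit 6480, nat_lit 9312, nat_lit 3216, nat_lit 9456, R9_194, R1_67, R3_197⟩]⟩, ⟨nat_lit 5, [⟨nat_lit 0, nat_lit 10368, nat_lit 1584, nat_lit 8640, nat_lit 6720, nat_lit 15024, R0_180, R2_140, R9_313⟩, ⟨nat_lit 2, nat_lit 10416, nat_lit 11040,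 nat_lit 8928, nat_lit 16752, nat_lit 13728, R0_186, R12_349, R0_286⟩, ⟨nat_lit 3, nat_lit 10464, nat_lit 6624, nat_lit 8832, nat_lit 5424, nat_lit 3888, R0_184, R1_113, R0_81⟩]⟩, ⟨nat_lit 6, [⟨nat_lit 0, nat_lit 10752, nat_lit 1872, nat_lit 11808, nat_lit 5040, nat_lit 13488, R0_246, R2_105, R3_281⟩, ⟨nat_lit 3, nat_lit 10800, nat_lit 6912, nat_lit 14064, nat_lit 3744, nat_lit 19776, R0_293, R1_78, R10_412⟩]⟩]⟩,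
 ⟨nat_lit 7, [⟨nat_lit 7, [⟨nat_lit 2, nat_lit 10848, nat_lit 10224, nat_lit 14256, nat_lit 16224, nat_lit 18816, R0_297, R1_338, R10_392⟩]⟩]⟩]]], [[], [], [], [], [[], [], [], [⟨nat_lit 4, [⟨nat_lit 3, [⟨nat_lit 2, nat_lit 10944, nat_lit 10656, nat_lit 14064, nat_lit 15120, nat_lit 18912, R2_293, R7_315, R11_394⟩, ⟨nat_lit 6, nat_lit 10896, nat_lit 10848, nat_lit 14016, nat_lit 13872, nat_lit 13728, R2_292, R4_289, R1_286⟩]⟩, ⟨nat_lit 7, [⟨nat_lit 2, nat_lit 11136, nat_lit 10608, nat_lit 15360, nat_lit 15072, nat_lit 13152, R3_320, R7_314, R1_274⟩]⟩]⟩,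
 ⟨nat_lit 6, [⟨nat_lit 7, [⟨nat_lit 0, nat_lit 11568, nat_lit 11616, nat_lit 12432, nat_lit 15408, nat_lit 12720, R0_259, R7_321, R2_265⟩, ⟨nat_lit 2, nat_lit 11616, nat_lit 11760, nat_lit 12528, nat_lit 5904, nat_lit 14064, R0_261, R14_123, R1_293⟩]⟩]⟩,
 ⟨nat_lit 7, [⟨nat_lit 3, [⟨nat_lit 6, nat_lit 12144, nat_lit 11184, nat_lit 3840, nat_lit 15600, nat_lit 15072, R12_80, R5_325, R1_314⟩]⟩]⟩], [], [], [], [⟨nat_lit 4, [⟨nat_lit 7, [⟨nat_lit 2, nat_lit 11184, nat_lit 10416, nat_lit 15408, nat_lit 15024, nat_lit 14784, R3_321, R7_313, R10_308⟩]⟩]⟩,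
 ⟨nat_lit 6, [⟨nat_lit 7, [⟨nat_lit 0, nat_lit 11664, nat_lit 3456, nat_lit 2496, nat_lit 10272, nat_lit 1632, R0_52, R7_214, R3_34⟩, ⟨nat_lit 2, nat_lit 11712, nat_lit 10944, nat_lit 2544, nat_lit 5760, nat_lit 16416, R0_53, R14_120, R10_342⟩]⟩]⟩]], [[], [], [], [⟨nat_lit 4, [⟨nat_lit 3, [⟨nat_lit 2, nat_lit 11040, nat_lit 11040, nat_lit 14304, nat_lit 14304, nat_lit 21024, R2_298, R2_298, R11_438⟩, ⟨nat_lit 6, nat_lit 10992, nat_lit 11232, nat_lit 14256, nat_lit 15696, nat_lit 13776, R2_297, R3_327, R1_287⟩]⟩, ⟨nat_lit 7, [⟨nat_lit 2, nat_lit 11232, nat_lit 10992, nat_lit 15696, nat_lit 14256, nat_lit 13776, R3_327, R2_297, R1_287⟩]⟩]⟩,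
 ⟨nat_lit 5, [⟨nat_lit 3, [⟨nat_lit 2, nat_lit 11424, nat_lit 11424, nat_lit 15840, nat_lit 15840, nat_lit 21264, R1_330, R1_330, R11_443⟩, ⟨nat_lit 6, nat_lit 11376, nat_lit 11472, nat_lit 15792, nat_lit 19440, nat_lit 15552, R1_329, R10_405, R1_324⟩]⟩, ⟨nat_lit 7, [⟨nat_lit 2, nat_lit 11472, nat_lit 11376, nat_lit 19440, nat_lit 15792, nat_lit 15552, R10_405, R1_329, R1_324⟩]⟩]⟩,
 ⟨nat_lit 6, [⟨nat_lit 7, [⟨nat_lit 2, nat_lit 11760, nat_lit 12192, nat_lit 13920, nat_lit 3888, nat_lit 15168, R0_290, R12_81, R1_316⟩]⟩]⟩,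
 ⟨nat_lit 7, [⟨nat_lit 3, [⟨nat_lit 6, nat_lit 12192, nat_lit 11760, nat_lit 3888, nat_lit 13920, nat_lit 15168, R12_81, R0_290, R1_316⟩]⟩]⟩], [], [], [], [⟨nat_lit 4, [⟨nat_lit 7, [⟨nat_lit 2, nat_lit 11280, nat_lit 12288, nat_lit 15744, nat_lit 14208, nat_lit 15552, R3_328, R2_296, R10_324⟩]⟩]⟩,
 ⟨nat_lit 5, [⟨nat_lit 7, [⟨nat_lit 2, nat_lit 11520, nat_lit 12576, nat_lit 19392, nat_lit 15744, nat_lit 18960, R10_404, R1_328, R10_395⟩]⟩]⟩,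
 ⟨nat_lit 6, [⟨nat_lit 7, [⟨nat_lit 2, nat_lit 11808, nat_lit 13008, nat_lit 3072, nat_lit 3744, nat_lit 18384, R0_64, R12_78, R10_383⟩]⟩]⟩]], [[], [], [], [], [], [], [], [⟨nat_lit 6, [⟨nat_lit 7, [⟨nat_lit 0, nat_lit 11856, nat_lit 4800, nat_lit 4368, nat_lit 9456, nat_lit 8160, R0_91, R2_197, R3_170⟩, ⟨nat_lit 1, nat_lit 11952, nat_lit 4944, nat_lit 4704, nat_lit 10272, nat_lit 6384, R0_98, R1_214, R0_133⟩, ⟨nat_lit 2, nat_lit 11904, nat_lit 5184, nat_lit 4416, nat_lit 8928, nat_lit 17328, R0_92, R12_186, R10_361⟩]⟩]⟩]], [[], [], [], [⟨nat_lit 4, [⟨nat_lit 3, [⟨nat_lit 2, nat_lit 11088, nat_lit 6384, nat_lit 14352, nat_lit 12768, nat_lit 20448, R2_299, R2_266, R11_426⟩]⟩, ⟨nat_lit 7, [⟨nat_lit 2, nat_lit 11328, nat_lit 6336, nat_lit 15648, nat_lit 13872, nat_lit 13632, R3_326, R2_289, R1_284⟩]⟩]⟩,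
 ⟨nat_lit 6, [⟨nat_lit 7, [⟨nat_lit 0, nat_lit 12000, nat_lit 6528, nat_lit 13392, nat_lit 13392, nat_lit 13632, R0_279, R2_279, R2_284⟩, ⟨nat_lit 2, nat_lit 12048, nat_lit 6624, nat_lit 13680, nat_lit 14208, nat_lit 14976, R0_285, R12_296, R1_312⟩, ⟨nat_lit 3, nat_lit 12096, nat_lit 6576, nat_lit 13584, nat_lit 14736, nat_lit 15408, R0_283, R1_307, R12_321⟩]⟩]⟩,
 ⟨nat_lit 7, [⟨nat_lit 3, [⟨nat_lit 2, nat_lit 12288, nat_lit 6480, nat_lit 3936, nat_lit 14112, nat_lit 20640, R12_82, R1_294, R11_430⟩, ⟨nat_lit 6, nat_lit 12240, nat_lit 6432, nat_lit 3984, nat_lit 19920, nat_lit 15120, R12_83, R11_415, R1_315⟩]⟩]⟩]]], [[], [[⟨nat_lit 1, [⟨nat_lit 0, [⟨nat_lit 6, nat_lit 12336, nat_lit 1968, nat_lit 1248, nat_lit 17424, nat_lit 4560, R7_26, R11_363, R7_95⟩]⟩]⟩,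
 ⟨nat_lit 5, [⟨nat_lit 0, [⟨nat_lit 6, nat_lit 12576, nat_lit 1008, nat_lit 1440, nat_lit 15216, nat_lit 4608, R4_30, R1_317, R7_96⟩]⟩]⟩], [⟨nat_lit 1, [⟨nat_lit 0, [⟨nat_lit 6, nat_lit 12384, nat_lit 528, nat_lit 7248, nat_lit 17760, nat_lit 2976, R7_151, R11_370, R2_62⟩]⟩, ⟨nat_lit 1, [⟨nat_lit 6, nat_lit 12480, nat_lit 6240, nat_lit 5472, nat_lit 17856, nat_lit 2448, R2_114, R11_372, R1_51⟩]⟩]⟩,
 ⟨nat_lit 5, [⟨nat_lit 0, [⟨nat_lit 6, nat_lit 12624, nat_lit 48, nat_lit 7344, nat_lit 15360, nat_lit 3024, R4_153, R1_320, R2_63⟩]⟩, ⟨nat_lit 1, [⟨nat_lit 6, nat_lit 12912, nat_lit 5184, nat_lit 13392, nat_lit 15456, nat_lit 2496, R3_279, R1_322, R1_52⟩]⟩]⟩], [], [⟨nat_lit 1, [⟨nat_lit 0, [⟨nat_lit 6, nat_lit 12432, nat_lit 576, nat_lit 8112, nat_lit 17568, nat_lit 2928, R7_169, R11_366, R2_61⟩]⟩, ⟨nat_lit 3, [⟨nat_lit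 6, nat_lit 12528, nat_lit 6288, nat_lit 5424, nat_lit 17664, nat_lit 2400, R2_113, R11_368, R1_50⟩]⟩]⟩,
 ⟨nat_lit 5, [⟨nat_lit 0, [⟨nat_lit 6, nat_lit 12672, nat_lit 2256, nat_lit 8112, nat_lit 15264, nat_lit 864, R4_169, R1_318, R2_18⟩]⟩]⟩]], [], [], [], [[⟨nat_lit 5, [⟨nat_lit 0, [⟨nat_lit 2, nat_lit 12768, nat_lit 1344, nat_lit 576, nat_lit 432, nat_lit 4464, R4_12, R1_9, R4_93⟩, ⟨nat_lit 6, nat_lit 12720, nat_lit 1296, nat_lit 624, nat_lit 720, nat_lit 4656, R4_13, R10_15, R7_97⟩]⟩]⟩], [⟨nat_lit 5, [⟨nat_lit 0, [⟨nat_lit 2, nat_lit 12864, nat_lit 4800, nat_lit 6960, nat_lit 480, nat_lit 17328, R4_145, R1_10, R3_361⟩, ⟨nat_lit 6, nat_lit 12816, nat_lit 4848, nat_lit 7008, nat_lit 768, nat_lit 3072, R4_146, R10_16, R2_64⟩]⟩, ⟨nat_lit 1, [⟨nat_lit 2, nat_lit 13008, nat_lit 5904, nat_lit 5136, nat_lit 528, nat_lit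 2688, R3_107, R1_11, R10_56⟩, ⟨nat_lit 6, nat_lit 12960, nat_lit 5952, nat_lit 5088, nat_lit 912, nat_lit 2544, R3_106, R10_19, R1_53⟩]⟩]⟩]]], [[[⟨nat_lit 0, [⟨nat_lit 0, [⟨nat_lit 6, nat_lit 13056, nat_lit 11472, nat_lit 14160, nat_lit 13536, nat_lit 12960, R7_295, R4_282, R7_270⟩]⟩, ⟨nat_lit 2, [⟨nat_lit 4, nat_lit 13200, nat_lit 2208, nat_lit 12000, nat_lit 14160, nat_lit 3408, R2_250, R6_295, R7_71⟩, ⟨nat_lit 6, nat_lit 13248, nat_lit 11520, nat_lit 13728, nat_lit 13920, nat_lit 14016, R2_286, R4_290, R14_292⟩]⟩]⟩,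
 ⟨nat_lit 1, [⟨nat_lit 0, [⟨nat_lit 6, nat_lit 13824, nat_lit 11856, nat_lit 17712, nat_lit 15024, nat_lit 13104, R14_369, R5_313, R7_273⟩]⟩, ⟨nat_lit 2, [⟨nat_lit 4, nat_lit 14160, nat_lit 2640, nat_lit 13584, nat_lit 1056, nat_lit 4368, R12_283, R8_22, R7_91⟩, ⟨nat_lit 6, nat_lit 14208, nat_lit 11952, nat_lit 13920, nat_lit 15072, nat_lit 14064, R12_290, R5_314, R14_293⟩]⟩]⟩,
 ⟨nat_lit 2, [⟨nat_lit 2, [⟨nat_lit 4, nat_lit 15216, nat_lit 2784, nat_lit 12576, nat_lit 1440, nat_lit 3888, R1_262, R4_30, R7_81⟩]⟩]⟩], [], [⟨nat_lit 0, [⟨nat_lit 2, [⟨nat_lit 4, nat_lit 13296, nat_lit 672, nat_lit 12096, nat_lit 14352, nat_lit 1728, R2_252, R6_299, R2_36⟩, ⟨nat_lit 5, nat_lit 13392, nat_lit 6480, nat_lit 14928, nat_lit 13344, nat_lit 1200, R2_311, R8_278, R1_25⟩, ⟨nat_lit 6, nat_lit 13344, nat_lit 10320, nat_lit 13824,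 nat_lit 14016, nat_lit 9744, R2_288, R4_292, R12_203⟩]⟩]⟩,
 ⟨nat_lit 1, [⟨nat_lit 2, [⟨nat_lit 4, nat_lit 14256, nat_lit 768, nat_lit 13824, nat_lit 6192, nat_lit 2784, R12_288, R8_129, R2_58⟩, ⟨nat_lit 5, nat_lit 14352, nat_lit 6912, nat_lit 14736, nat_lit 14880, nat_lit 2256, R12_307, R9_310, R1_47⟩, ⟨nat_lit 6, nat_lit 14304, nat_lit 10416, nat_lit 14496, nat_lit 15888, nat_lit 9792, R12_302, R5_331, R12_204⟩]⟩]⟩,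
 ⟨nat_lit 2, [⟨nat_lit 2, [⟨nat_lit 4, nat_lit 15264, nat_lit 864, nat_lit 12672, nat_lit 8112, nat_lit 2256, R1_264, R4_169, R2_47⟩, ⟨nat_lit 5, nat_lit 15312, nat_lit 7056, nat_lit 15936, nat_lit 5904, nat_lit 1728, R1_332, R5_123, R1_36⟩]⟩]⟩], [⟨nat_lit 0, [⟨nat_lit 0, [⟨nat_lit 6, nat_lit 13104, nat_lit 10752, nat_lit 14208, nat_lit 13680, nat_lit 10512, R7_296, R4_285, R2_219⟩]⟩, ⟨nat_lit 2, [⟨nat_lit 4, nat_lit 13440, nat_lit 1008, nat_lit 12048, nat_lit 14304, nat_lit 0, R2_251, R6_298, R2_0⟩, ⟨nat_lit 6, nat_lit 13488, nat_lit 10944, nat_lit 13776, nat_lit 13968, nat_lit 9888, R2_287, R4_291, R12_206⟩]⟩, ⟨nat_lit 3, [⟨nat_lit 6, nat_lit 13728, nat_lit 10848, nat_lit 14016, nat_lit 13872, nat_lit 10896, R2_292, R4_289, R1_227⟩]⟩]⟩,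
 ⟨nat_lit 1, [⟨nat_lit 0, [⟨nat_lit 6, nat_lit 13872, nat_lit 11040, nat_lit 18288, nat_lit 15504, nat_lit 11712, R14_381, R5_323, R2_244⟩]⟩, ⟨nat_lit 2, [⟨nat_lit 4, nat_lit 14400, nat_lit 2736, nat_lit 13680, nat_lit 6960, nat_lit 816, R12_285, R8_145, R2_17⟩, ⟨nat_lit 6, nat_lit 14448, nat_lit 11472, nat_lit 14304, nat_lit 15648, nat_lit 10176, R12_298, R5_326, R12_212⟩]⟩, ⟨nat_lit 3, [⟨nat_lit 6, nat_lit 15072, nat_lit 11184, nat_lit 3840, nat_lit 15600, nat_lit 12144, R12_80, R5_325, R1_253⟩]⟩]⟩,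
 ⟨nat_lit 2, [⟨nat_lit 2, [⟨nat_lit 4, nat_lit 15360, nat_lit 3024, nat_lit 12624, nat_lit 7344, nat_lit 48, R1_263, R4_153, R2_1⟩]⟩]⟩]], [[⟨nat_lit 1, [⟨nat_lit 0, [⟨nat_lit 6, nat_lit 13920, nat_lit 12672, nat_lit 17760, nat_lit 19344, nat_lit 13200, R14_370, R11_403, R7_275⟩]⟩, ⟨nat_lit 2, [⟨nat_lit 4, nat_lit 14496, nat_lit 14160, nat_lit 13632, nat_lit 15168, nat_lit 12816, R12_284, R5_316, R7_267⟩, ⟨nat_lit 6, nat_lit 14544, nat_lit 14880, nat_lit 13968, nat_lit 19392, nat_lit 14784, R12_291, R11_404, R14_308⟩]⟩]⟩], [⟨nat_lit 1, [⟨nat_lit 0, [⟨nat_lit 6, nat_lit 13968, nat_lit 9936, nat_lit 18192, nat_lit 20496, nat_lit 11856, R14_379, R11_427, R2_247⟩]⟩, ⟨nat_lit 1, [⟨nat_lit 6, nat_lit 14112, nat_lit 10656, nat_lit 15312, nat_lit 20640, nat_lit 12288, R12_319, R11_430, R1_256⟩]⟩, ⟨nat_lit 2, [⟨nat_lit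 6, nat_lit 14592, nat_lit 11952, nat_lit 14112, nat_lit 20544, nat_lit 11856, R12_294, R11_428, R12_247⟩]⟩]⟩], [⟨nat_lit 1, [⟨nat_lit 2, [⟨nat_lit 4, nat_lit 14640, nat_lit 10128, nat_lit 13872, nat_lit 15744, nat_lit 11520, R12_289, R5_328, R2_240⟩, ⟨nat_lit 5, nat_lit 14736, nat_lit 10800, nat_lit 14784, nat_lit 13584, nat_lit 12096, R12_308, R0_283, R1_252⟩, ⟨nat_lit 6, nat_lit 14688, nat_lit 12192, nat_lit 14544, nat_lit 20208, nat_lit 11664, R12_303, R11_421, R12_243⟩]⟩]⟩], [⟨nat_lit 1, [⟨nat_lit 0, [⟨nat_lit 6, nat_lit 14016, nat_lit 1920, nat_lit 18384, nat_lit 19824, nat_lit 11808, R14_383, R11_413, R2_246⟩]⟩, ⟨nat_lit 2, [⟨nat_lit 4, nat_lit 14784, nat_lit 9696, nat_lit 13776, nat_lit 15936, nat_lit 10464, R12_287, R5_332, R2_218⟩, ⟨nat_lit 6, nat_lit 14832, nat_lit 11568, nat_lit 14400, nat_lit 19968,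 nat_lit 12288, R12_300, R11_416, R12_256⟩]⟩, ⟨nat_lit 3, [⟨nat_lit 6, nat_lit 15120, nat_lit 6432, nat_lit 3984, nat_lit 19920, nat_lit 12240, R12_83, R11_415, R1_255⟩]⟩]⟩]], [[], [], [⟨nat_lit 0, [⟨nat_lit 2, [⟨nat_lit 5, nat_lit 13536, nat_lit 5184, nat_lit 15312, nat_lit 16560, nat_lit 6624, R2_319, R5_345, R1_138⟩]⟩]⟩,
 ⟨nat_lit 1, [⟨nat_lit 2, [⟨nat_lit 5, nat_lit 14880, nat_lit 5616, nat_lit 14832, nat_lit 3504, nat_lit 7632, R12_309, R0_73, R1_159⟩]⟩]⟩,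
 ⟨nat_lit 2, [⟨nat_lit 2, [⟨nat_lit 5, nat_lit 15408, nat_lit 5760, nat_lit 16320, nat_lit 21504, nat_lit 7152, R1_340, R11_448, R1_149⟩]⟩]⟩]], [[], [], [], [⟨nat_lit 0, [⟨nat_lit 0, [⟨nat_lit 6, nat_lit 13152, nat_lit 11136, nat_lit 14448, nat_lit 15360, nat_lit 10608, R7_301, R3_320, R2_221⟩]⟩, ⟨nat_lit 2, [⟨nat_lit 4, nat_lit 13584, nat_lit 336, nat_lit 12336, nat_lit 19488, nat_lit 3936, R2_257, R13_406, R2_82⟩, ⟨nat_lit 6, nat_lit 13632, nat_lit 11328, nat_lit 13872, nat_lit 15648, nat_lit 10608, R2_289, R3_326, R12_221⟩, ⟨nat_lit 7, nat_lit 13680, nat_lit 6000, nat_lit 14112, nat_lit 15840, nat_lit 3408, R2_294, R3_330, R1_71⟩]⟩, ⟨nat_lit 3, [⟨nat_lit 6, nat_lit 13776, nat_lit 11232, nat_lit 14256, nat_lit 15696, nat_lit 10992, R2_297, R3_327, R1_229⟩]⟩]⟩,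
 ⟨nat_lit 1, [⟨nat_lit 0, [⟨nat_lit 6, nat_lit 14064, nat_lit 11616, nat_lit 18336, nat_lit 12528, nat_lit 11760, R14_382, R0_261, R2_245⟩]⟩, ⟨nat_lit 2, [⟨nat_lit 4, nat_lit 14928, nat_lit 2208, nat_lit 13728, nat_lit 14976, nat_lit 6960, R12_286, R9_312, R2_145⟩, ⟨nat_lit 6, nat_lit 14976, nat_lit 12048, nat_lit 14352, nat_lit 13680, nat_lit 10848, R12_299, R0_285, R12_226⟩, ⟨nat_lit 7, nat_lit 15024, nat_lit 7584, nat_lit 14688, nat_lit 3552, nat_lit 5664, R12_306, R0_74, R1_118⟩]⟩, ⟨nat_lit 3, [⟨nat_lit 6, nat_lit 15168, nat_lit 11760, nat_lit 3888, nat_lit 13920, nat_lit 12192, R12_81, R0_290, R1_254⟩]⟩]⟩,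
 ⟨nat_lit 2, [⟨nat_lit 2, [⟨nat_lit 4, nat_lit 15456, nat_lit 2496, nat_lit 12912, nat_lit 13392, nat_lit 5184, R1_269, R3_279, R2_108⟩, ⟨nat_lit 7, nat_lit 15504, nat_lit 7872, nat_lit 15648, nat_lit 19296, nat_lit 3888, R1_326, R10_402, R1_81⟩]⟩]⟩,
 ⟨nat_lit 3, [⟨nat_lit 3, [⟨nat_lit 6, nat_lit 15552, nat_lit 11472, nat_lit 15792, nat_lit 18720, nat_lit 11376, R1_329, R10_390, R1_237⟩]⟩]⟩]]], [[], [[], [⟨nat_lit 1, [⟨nat_lit 1, [⟨nat_lit 6, nat_lit 15600, nat_lit 4944, nat_lit 4176, nat_lit 21792, nat_lit 7824, R1_87, R11_454, R1_163⟩]⟩]⟩,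
 ⟨nat_lit 5, [⟨nat_lit 1, [⟨nat_lit 6, nat_lit 15648, nat_lit 3888, nat_lit 19296, nat_lit 15504, nat_lit 7872, R10_402, R1_323, R1_164⟩]⟩]⟩]], [], [], [], [[], [⟨nat_lit 5, [⟨nat_lit 1, [⟨nat_lit 2, nat_lit 15744, nat_lit 12576, nat_lit 19392, nat_lit 11520, nat_lit 8688, R10_404, R1_240, R10_181⟩, ⟨nat_lit 6, nat_lit 15696, nat_lit 12624, nat_lit 19344, nat_lit 12720, nat_lit 7920, R10_403, R10_265, R1_165⟩]⟩]⟩], [], [], [], [⟨nat_lit 5, [⟨nat_lit 1, [⟨nat_lit 2, nat_lit 15792, nat_lit 11376, nat_lit 19440, nat_lit 11472, nat_lit 15552, R10_405, R1_239, R1_324⟩]⟩, ⟨nat_lit 5, [⟨nat_lit 2, nat_lit 15840, nat_lit 11424, nat_lit 15840, nat_lit 11424, nat_lit 21264, R1_330, R1_238, R11_443⟩]⟩]⟩]]], [[], [[], [], [], [⟨nat_lit 1, [⟨nat_lit 3, [⟨nat_lit 6, nat_lit 15888, nat_lit 4992, nat_lit 4128, nat_lit 21360,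 nat_lit 7776, R1_86, R11_445, R1_162⟩]⟩]⟩,
 ⟨nat_lit 5, [⟨nat_lit 0, [⟨nat_lit 6, nat_lit 15936, nat_lit 1728, nat_lit 5904, nat_lit 15312, nat_lit 7056, R5_123, R1_319, R2_147⟩]⟩, ⟨nat_lit 3, [⟨nat_lit 6, nat_lit 16320, nat_lit 7152, nat_lit 21504, nat_lit 15408, nat_lit 5760, R11_448, R1_321, R1_120⟩]⟩]⟩]], [], [], [], [[⟨nat_lit 5, [⟨nat_lit 0, [⟨nat_lit 2, nat_lit 16032, nat_lit 576, nat_lit 2160, nat_lit 8688, nat_lit 10752, R5_45, R1_181, R4_224⟩, ⟨nat_lit 6, nat_lit 15984, nat_lit 2976, nat_lit 240, nat_lit 9936, nat_lit 11376, R5_5, R10_207, R7_237⟩]⟩, ⟨nat_lit 3, [⟨nat_lit 2, nat_lit 16368, nat_lit 7536, nat_lit 21600, nat_lit 8784, nat_lit 7344, R11_450, R1_183, R5_153⟩]⟩]⟩], [⟨nat_lit 5, [⟨nat_lit 0, [⟨nat_lit 2, nat_lit 16128, nat_lit 10032, nat_lit 10992, nat_lit 8736, nat_lit 17616, R5_229, R1_182,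 R3_367⟩, ⟨nat_lit 6, nat_lit 16080, nat_lit 10176, nat_lit 7872, nat_lit 10080, nat_lit 10272, R5_164, R10_210, R2_214⟩]⟩, ⟨nat_lit 1, [⟨nat_lit 2, nat_lit 16272, nat_lit 10080, nat_lit 14304, nat_lit 8928, nat_lit 12144, R0_298, R1_186, R10_253⟩, ⟨nat_lit 6, nat_lit 16224, nat_lit 10224, nat_lit 14256, nat_lit 10368, nat_lit 10848, R0_297, R10_216, R1_226⟩]⟩, ⟨nat_lit 3, [⟨nat_lit 2, nat_lit 16416, nat_lit 10128, nat_lit 21648, nat_lit 8880, nat_lit 13968, R11_451, R1_185, R0_291⟩]⟩]⟩], [], [⟨nat_lit 5, [⟨nat_lit 0, [⟨nat_lit 6, nat_lit 16176, nat_lit 16464, nat_lit 5952, nat_lit 10032, nat_lit 7008, R5_124, R10_209, R2_146⟩]⟩, ⟨nat_lit 3, [⟨nat_lit 2, nat_lit 16512, nat_lit 16416, nat_lit 21696, nat_lit 8832, nat_lit 6960, R11_452, R1_184, R11_145⟩, ⟨nat_lit 6, nat_lit 16464, nat_lit 16512, nat_lit 21552,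 nat_lit 10176, nat_lit 5712, R11_449, R10_212, R1_119⟩]⟩]⟩]]]]
noncomputable def N1247 : T3 (List N0) := [[[], [], [], [], [[], [], [], [], [⟨nat_lit 0, [⟨nat_lit 2, [⟨nat_lit 3, nat_lit 1824, nat_lit 15024, nat_lit 12336, nat_lit 4608, nat_lit 960, R8_257, R6_96, R5_20⟩]⟩]⟩,
 ⟨nat_lit 2, [⟨nat_lit 2, [⟨nat_lit 0, nat_lit 2112, nat_lit 16608, nat_lit 8496, nat_lit 9360, nat_lit 144, R5_177, R6_195, R4_3⟩, ⟨nat_lit 3, nat_lit 2496, nat_lit 16944, nat_lit 8544, nat_lit 4608, nat_lit 1536, R5_178, R8_96, R5_32⟩]⟩]⟩,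
 ⟨nat_lit 3, [⟨nat_lit 2, [⟨nat_lit 3, nat_lit 3456, nat_lit 15648, nat_lit 8160, nat_lit 4896, nat_lit 1248, R9_170, R4_102, R5_26⟩]⟩]⟩], [], [], [⟨nat_lit 0, [⟨nat_lit 2, [⟨nat_lit 3, nat_lit 1872, nat_lit 10800, nat_lit 12480, nat_lit 5136, nat_lit 11616, R8_260, R6_107, R11_242⟩]⟩]⟩,
 ⟨nat_lit 2, [⟨nat_lit 2, [⟨nat_lit 3, nat_lit 2544, nat_lit 12720, nat_lit 10368, nat_lit 5040, nat_lit 12000, R5_216, R8_105, R11_250⟩]⟩]⟩,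
 ⟨nat_lit 3, [⟨nat_lit 2, [⟨nat_lit 3, nat_lit 3504, nat_lit 12336, nat_lit 8976, nat_lit 5424, nat_lit 12384, R9_187, R4_113, R11_258⟩]⟩, ⟨nat_lit 3, [⟨nat_lit 7, nat_lit 2928, nat_lit 11904, nat_lit 12000, nat_lit 5280, nat_lit 7488, R3_250, R7_110, R12_156⟩]⟩]⟩]], [], [[], [], [], [], [⟨nat_lit 0, [⟨nat_lit 2, [⟨nat_lit 0, nat_lit 7968, nat_lit 17904, nat_lit 15456, nat_lit 15456, nat_lit 4848, R8_322, R6_322, R4_101⟩, ⟨nat_lit 3, nat_lit 8400, nat_lit 18720, nat_lit 16128, nat_lit 16224, nat_lit 9216, R8_336, R8_338, R5_192⟩]⟩]⟩,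
 ⟨nat_lit 2, [⟨nat_lit 2, [⟨nat_lit 0, nat_lit 8784, nat_lit 18000, nat_lit 9936, nat_lit 12240, nat_lit 5376, R5_207, R13_255, R4_112⟩, ⟨nat_lit 3, nat_lit 9504, nat_lit 18912, nat_lit 9984, nat_lit 9504, nat_lit 9984, R5_208, R9_198, R5_208⟩]⟩]⟩,
 ⟨nat_lit 3, [⟨nat_lit 2, [⟨nat_lit 3, nat_lit 9888, nat_lit 18816, nat_lit 8688, nat_lit 11040, nat_lit 9600, R9_181, R5_230, R5_200⟩]⟩]⟩], [], [⟨nat_lit 0, [⟨nat_lit 2, [⟨nat_lit 0, nat_lit 8016, nat_lit 9408, nat_lit 15600, nat_lit 15504, nat_lit 336, R8_325, R6_323, R3_7⟩, ⟨nat_lit 1, nat_lit 8256, nat_lit 9504, nat_lit 16656, nat_lit 14736, nat_lit 9456, R8_347, R4_307, R10_197⟩]⟩]⟩,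
 ⟨nat_lit 2, [⟨nat_lit 2, [⟨nat_lit 0, nat_lit 8832, nat_lit 11664, nat_lit 12192, nat_lit 12432, nat_lit 3936, R5_254, R13_259, R3_82⟩, ⟨nat_lit 1, nat_lit 9168, nat_lit 11760, nat_lit 12288, nat_lit 9312, nat_lit 9648, R5_256, R3_194, R10_201⟩]⟩]⟩], [⟨nat_lit 0, [⟨nat_lit 2, [⟨nat_lit 3, nat_lit 8496, nat_lit 8496, nat_lit 16272, nat_lit 16272, nat_lit 11664, R8_339, R8_339, R11_243⟩]⟩]⟩,
 ⟨nat_lit 2, [⟨nat_lit 2, [⟨nat_lit 3, nat_lit 9600, nat_lit 9984, nat_lit 11232, nat_lit 9792, nat_lit 12048, R5_234, R9_204, R11_251⟩]⟩]⟩,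
 ⟨nat_lit 3, [⟨nat_lit 2, [⟨nat_lit 3, nat_lit 9984, nat_lit 9600, nat_lit 9792, nat_lit 11232, nat_lit 12432, R9_204, R5_234, R11_259⟩]⟩]⟩]], [[], [], [], [], [], [], [], [⟨nat_lit 0, [⟨nat_lit 2, [⟨nat_lit 3, nat_lit 11376, nat_lit 16560, nat_lit 14256, nat_lit 14448, nat_lit 11712, R8_297, R4_301, R11_244⟩]⟩]⟩,
 ⟨nat_lit 2, [⟨nat_lit 2, [⟨nat_lit 3, nat_lit 11520, nat_lit 17856, nat_lit 10848, nat_lit 17328, nat_lit 12096, R5_226, R5_361, R11_252⟩]⟩]⟩,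
 ⟨nat_lit 3, [⟨nat_lit 3, [⟨nat_lit 7, nat_lit 12576, nat_lit 14928, nat_lit 14688, nat_lit 6720, nat_lit 7536, R3_306, R14_140, R12_157⟩]⟩]⟩]]], [[[⟨nat_lit 0, [⟨nat_lit 0, [⟨nat_lit 5, nat_lit 13104, nat_lit 4848, nat_lit 15456, nat_lit 15456, nat_lit 17904, R8_322, R6_322, R8_373⟩]⟩, ⟨nat_lit 1, [⟨nat_lit 5, nat_lit 13200, nat_lit 4896, nat_lit 1248, nat_lit 15648, nat_lit 17712, R5_26, R6_326, R9_369⟩]⟩, ⟨nat_lit 2, [⟨nat_lit 5, nat_lit 13152, nat_lit 5040, nat_lit 1920, nat_lit 15552, nat_lit 3312, R9_40, R6_324, R5_69⟩]⟩]⟩,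
 ⟨nat_lit 1, [⟨nat_lit 0, [⟨nat_lit 4, nat_lit 13488, nat_lit 144, nat_lit 8496, nat_lit 9360, nat_lit 16608, R5_177, R6_195, R6_346⟩, ⟨nat_lit 5, nat_lit 13728, nat_lit 5376, nat_lit 9936, nat_lit 20784, nat_lit 18000, R5_207, R13_433, R8_375⟩]⟩, ⟨nat_lit 1, [⟨nat_lit 4, nat_lit 13584, nat_lit 192, nat_lit 10944, nat_lit 9456, nat_lit 4272, R11_228, R6_197, R8_89⟩, ⟨nat_lit 5, nat_lit 13824, nat_lit 5424, nat_lit 12384, nat_lit 20976, nat_lit 17808, R11_258, R13_437, R9_371⟩]⟩]⟩], [], [⟨nat_lit 0, [⟨nat_lit 0, [⟨nat_lit 5, nat_lit 13248, nat_lit 336, nat_lit 15600, nat_lit 15504, nat_lit 9408, R8_325, R6_323, R5_196⟩]⟩, ⟨nat_lit 2, [⟨nat_lit 5, nat_lit 13296, nat_lit 528, nat_lit 1968, nat_lit 15600, nat_lit 11856, R9_41, R6_325, R11_247⟩]⟩]⟩,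
 ⟨nat_lit 1, [⟨nat_lit 0, [⟨nat_lit 5, nat_lit 13872, nat_lit 3936, nat_lit 12192, nat_lit 20832, nat_lit 11664, R5_254, R13_434, R5_243⟩]⟩]⟩]], [], [[], [], [⟨nat_lit 0, [⟨nat_lit 0, [⟨nat_lit 5, nat_lit 15360, nat_lit 9456, nat_lit 16656, nat_lit 14736, nat_lit 9504, R8_347, R4_307, R5_198⟩]⟩, ⟨nat_lit 2, [⟨nat_lit 5, nat_lit 15408, nat_lit 9552, nat_lit 11424, nat_lit 14784, nat_lit 11952, R9_238, R4_308, R11_249⟩]⟩]⟩,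
 ⟨nat_lit 1, [⟨nat_lit 0, [⟨nat_lit 5, nat_lit 15648, nat_lit 9648, nat_lit 12288, nat_lit 9312, nat_lit 11760, R5_256, R3_194, R5_245⟩]⟩]⟩]], [[⟨nat_lit 0, [⟨nat_lit 0, [⟨nat_lit 4, nat_lit 15984, nat_lit 960, nat_lit 12336, nat_lit 14928, nat_lit 15024, R8_257, R6_311, R6_313⟩, ⟨nat_lit 5, nat_lit 16272, nat_lit 9216, nat_lit 16128, nat_lit 17040, nat_lit 18720, R8_336, R8_355, R8_390⟩]⟩, ⟨nat_lit 1, [⟨nat_lit 4, nat_lit 16080, nat_lit 2208, nat_lit 8256, nat_lit 16848, nat_lit 9024, R5_172, R6_351, R8_188⟩, ⟨nat_lit 5, nat_lit 16368, nat_lit 11040, nat_lit 9600, nat_lit 17328, nat_lit 17952, R5_200, R8_361, R9_374⟩]⟩, ⟨nat_lit 2, [⟨nat_lit 4, nat_lit 16032, nat_lit 3312, nat_lit 8064, nat_lit 15552, nat_lit 5040, R9_168, R6_324, R4_105⟩, ⟨nat_lit 5, nat_lit 16320, nat_lit 11376, nat_lit 8544, nat_lit 17184,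 nat_lit 11376, R9_178, R8_358, R5_237⟩]⟩]⟩,
 ⟨nat_lit 1, [⟨nat_lit 0, [⟨nat_lit 4, nat_lit 16848, nat_lit 1536, nat_lit 8544, nat_lit 8688, nat_lit 16944, R5_178, R8_181, R6_353⟩, ⟨nat_lit 5, nat_lit 17136, nat_lit 9984, nat_lit 9984, nat_lit 17136, nat_lit 18912, R5_208, R9_357, R8_394⟩]⟩, ⟨nat_lit 1, [⟨nat_lit 4, nat_lit 16944, nat_lit 2400, nat_lit 10992, nat_lit 8784, nat_lit 9120, R11_229, R8_183, R8_190⟩, ⟨nat_lit 5, nat_lit 17232, nat_lit 11232, nat_lit 12432, nat_lit 17424, nat_lit 18144, R11_259, R9_363, R9_378⟩]⟩]⟩,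
 ⟨nat_lit 3, [⟨nat_lit 0, [⟨nat_lit 4, nat_lit 17712, nat_lit 1248, nat_lit 8160, nat_lit 4896, nat_lit 15648, R9_170, R4_102, R6_326⟩, ⟨nat_lit 5, nat_lit 17952, nat_lit 9600, nat_lit 8688, nat_lit 11040, nat_lit 18816, R9_181, R5_230, R8_392⟩]⟩]⟩], [], [], [⟨nat_lit 0, [⟨nat_lit 0, [⟨nat_lit 4, nat_lit 16128, nat_lit 11616, nat_lit 12480, nat_lit 14976, nat_lit 10800, R8_260, R6_312, R13_225⟩, ⟨nat_lit 5, nat_lit 16560, nat_lit 11664, nat_lit 16272, nat_lit 17136, nat_lit 8496, R8_339, R8_357, R9_177⟩, ⟨nat_lit 7, nat_lit 16656, nat_lit 11712, nat_lit 14256, nat_lit 14448, nat_lit 16560, R8_297, R4_301, R3_345⟩]⟩, ⟨nat_lit 1, [⟨nat_lit 4, nat_lit 16224, nat_lit 11760, nat_lit 8400, nat_lit 16896, nat_lit 192, R5_175, R6_352, R9_4⟩]⟩, ⟨nat_lit 2, [⟨nat_lit 4, nat_lit 16176, nat_lit 11856, nat_lit 8112, nat_lit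 15600, nat_lit 528, R9_169, R6_325, R3_11⟩, ⟨nat_lit 7, nat_lit 16704, nat_lit 11952, nat_lit 8304, nat_lit 14784, nat_lit 9552, R9_173, R4_308, R10_199⟩]⟩]⟩,
 ⟨nat_lit 1, [⟨nat_lit 0, [⟨nat_lit 4, nat_lit 16992, nat_lit 12000, nat_lit 10368, nat_lit 8832, nat_lit 12720, R5_216, R8_184, R13_265⟩, ⟨nat_lit 5, nat_lit 17424, nat_lit 12048, nat_lit 11232, nat_lit 17232, nat_lit 9984, R5_234, R9_359, R9_208⟩, ⟨nat_lit 7, nat_lit 17568, nat_lit 12096, nat_lit 10848, nat_lit 17328, nat_lit 17856, R5_226, R5_361, R3_372⟩]⟩, ⟨nat_lit 1, [⟨nat_lit 4, nat_lit 17088, nat_lit 12144, nat_lit 13632, nat_lit 8928, nat_lit 1296, R11_284, R8_186, R9_27⟩]⟩]⟩,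
 ⟨nat_lit 3, [⟨nat_lit 0, [⟨nat_lit 4, nat_lit 17808, nat_lit 12384, nat_lit 8976, nat_lit 5424, nat_lit 12336, R9_187, R4_113, R13_257⟩, ⟨nat_lit 5, nat_lit 18144, nat_lit 12432, nat_lit 9792, nat_lit 11232, nat_lit 9600, R9_204, R5_234, R9_200⟩]⟩]⟩]], [[], [], [], [], [⟨nat_lit 0, [⟨nat_lit 2, [⟨nat_lit 3, nat_lit 1920, nat_lit 5040, nat_lit 13152, nat_lit 5760, nat_lit 3312, R9_274, R6_120, R5_69⟩]⟩]⟩], [], [], [⟨nat_lit 0, [⟨nat_lit 2, [⟨nat_lit 3, nat_lit 1968, nat_lit 528, nat_lit 13296, nat_lit 6480, nat_lit 11856, R9_277, R6_135, R11_247⟩]⟩]⟩]], [], [[], [], [], [], [⟨nat_lit 0, [⟨nat_lit 2, [⟨nat_lit 0, nat_lit 8064, nat_lit 3312, nat_lit 16032, nat_lit 15552, nat_lit 5040, R9_334, R6_324, R4_105⟩, ⟨nat_lit 3, nat_lit 8544, nat_lit 11376, nat_lit 16320, nat_lit 17184, nat_lit 11376, R9_340, R8_358,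 R5_237⟩]⟩]⟩], [], [⟨nat_lit 0, [⟨nat_lit 2, [⟨nat_lit 0, nat_lit 8112, nat_lit 11856, nat_lit 16176, nat_lit 15600, nat_lit 528, R9_337, R6_325, R3_11⟩, ⟨nat_lit 1, nat_lit 8304, nat_lit 11952, nat_lit 16704, nat_lit 14784, nat_lit 9552, R9_348, R4_308, R10_199⟩]⟩]⟩]], [[], [], [], [], [], [], [], [⟨nat_lit 0, [⟨nat_lit 2, [⟨nat_lit 3, nat_lit 11424, nat_lit 9552, nat_lit 15408, nat_lit 14784, nat_lit 11952, R9_321, R4_308, R11_249⟩]⟩]⟩]]], [[], [], [], [], [[], [], [], [], [⟨nat_lit 0, [⟨nat_lit 2, [⟨nat_lit 3, nat_lit 2016, nat_lit 9024, nat_lit 8256, nat_lit 6912, nat_lit 2208, R5_172, R6_144, R5_46⟩]⟩]⟩,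
 ⟨nat_lit 2, [⟨nat_lit 2, [⟨nat_lit 0, nat_lit 2208, nat_lit 4272, nat_lit 10944, nat_lit 9456, nat_lit 192, R11_228, R6_197, R4_4⟩, ⟨nat_lit 3, nat_lit 2688, nat_lit 9120, nat_lit 10992, nat_lit 6336, nat_lit 2400, R11_229, R8_132, R5_50⟩]⟩, ⟨nat_lit 6, [⟨nat_lit 0, nat_lit 2256, nat_lit 3792, nat_lit 8976, nat_lit 9504, nat_lit 384, R1_187, R6_198, R7_8⟩, ⟨nat_lit 2, nat_lit 2352, nat_lit 11760, nat_lit 9024, nat_lit 10416, nat_lit 19920, R1_188, R4_217, R14_415⟩]⟩]⟩,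
 ⟨nat_lit 3, [⟨nat_lit 2, [⟨nat_lit 3, nat_lit 3552, nat_lit 9072, nat_lit 7392, nat_lit 7536, nat_lit 2304, R0_154, R4_157, R5_48⟩]⟩]⟩,
 ⟨nat_lit 4, [⟨nat_lit 4, [⟨nat_lit 6, nat_lit 0, nat_lit 17616, nat_lit 5712, nat_lit 7056, nat_lit 6048, R4_119, R6_147, R4_126⟩]⟩, ⟨nat_lit 7, [⟨nat_lit 6, nat_lit 48, nat_lit 18336, nat_lit 8112, nat_lit 7104, nat_lit 9312, R5_169, R6_148, R5_194⟩]⟩]⟩,
 ⟨nat_lit 6, [⟨nat_lit 4, [⟨nat_lit 2, nat_lit 480, nat_lit 11040, nat_lit 1680, nat_lit 7680, nat_lit 6240, R3_35, R7_160, R7_130⟩, ⟨nat_lit 6, nat_lit 240, nat_lit 17760, nat_lit 1008, nat_lit 7728, nat_lit 6624, R3_21, R4_161, R4_138⟩]⟩, ⟨nat_lit 6, [⟨nat_lit 2, nat_lit 528, nat_lit 11616, nat_lit 10416, nat_lit 7728, nat_lit 19968, R10_217, R7_161, R14_416⟩]⟩]⟩,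
 ⟨nat_lit 7, [⟨nat_lit 7, [⟨nat_lit 6, nat_lit 1152, nat_lit 18480, nat_lit 13440, nat_lit 6672, nat_lit 9696, R11_280, R8_139, R5_202⟩]⟩]⟩], [⟨nat_lit 2, [⟨nat_lit 6, [⟨nat_lit 2, nat_lit 2400, nat_lit 672, nat_lit 9168, nat_lit 10512, nat_lit 15696, R1_191, R4_219, R12_327⟩]⟩]⟩,
 ⟨nat_lit 4, [⟨nat_lit 4, [⟨nat_lit 6, nat_lit 96, nat_lit 1680, nat_lit 6336, nat_lit 7200, nat_lit 768, R4_132, R6_150, R3_16⟩]⟩]⟩,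
 ⟨nat_lit 6, [⟨nat_lit 4, [⟨nat_lit 2, nat_lit 576, nat_lit 3024, nat_lit 6624, nat_lit 7920, nat_lit 4416, R3_138, R7_165, R2_92⟩, ⟨nat_lit 6, nat_lit 336, nat_lit 4128, nat_lit 6192, nat_lit 7872, nat_lit 6096, R3_129, R4_164, R3_127⟩]⟩, ⟨nat_lit 6, [⟨nat_lit 2, nat_lit 624, nat_lit 3072, nat_lit 10560, nat_lit 7968, nat_lit 15744, R10_220, R7_166, R12_328⟩]⟩]⟩,
 ⟨nat_lit 7, [⟨nat_lit 7, [⟨nat_lit 6, nat_lit 1200, nat_lit 2496, nat_lit 13536, nat_lit 6816, nat_lit 1152, R11_282, R8_142, R0_24⟩]⟩]⟩], [], [⟨nat_lit 0, [⟨nat_lit 2, [⟨nat_lit 3, nat_lit 2064, nat_lit 192, nat_lit 8400, nat_lit 7152, nat_lit 11760, R5_175, R6_149, R11_245⟩]⟩]⟩,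
 ⟨nat_lit 2, [⟨nat_lit 2, [⟨nat_lit 3, nat_lit 2736, nat_lit 1296, nat_lit 13632, nat_lit 6720, nat_lit 12144, R11_284, R8_140, R11_253⟩]⟩, ⟨nat_lit 6, [⟨nat_lit 0, nat_lit 2304, nat_lit 864, nat_lit 9264, nat_lit 9552, nat_lit 1680, R1_193, R6_199, R2_35⟩, ⟨nat_lit 2, nat_lit 2448, nat_lit 1584, nat_lit 9312, nat_lit 10464, nat_lit 7296, R1_194, R4_218, R12_152⟩, ⟨nat_lit 3, nat_lit 2784, nat_lit 1248, nat_lit 9360, nat_lit 6768, nat_lit 1152, R1_195, R8_141, R1_24⟩]⟩]⟩,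
 ⟨nat_lit 3, [⟨nat_lit 0, [⟨nat_lit 7, nat_lit 3072, nat_lit 672, nat_lit 8208, nat_lit 7776, nat_lit 8976, R3_171, R7_162, R2_187⟩]⟩, ⟨nat_lit 2, [⟨nat_lit 3, nat_lit 3600, nat_lit 432, nat_lit 8496, nat_lit 7824, nat_lit 12480, R0_177, R4_163, R11_260⟩, ⟨nat_lit 7, nat_lit 3120, nat_lit 768, nat_lit 8544, nat_lit 7872, nat_lit 9792, R0_178, R7_164, R1_204⟩]⟩, ⟨nat_lit 3, [⟨nat_lit 7, nat_lit 3168, nat_lit 720, nat_lit 10704, nat_lit 7824, nat_lit 7584, R10_223, R7_163, R12_158⟩]⟩]⟩,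
 ⟨nat_lit 4, [⟨nat_lit 7, [⟨nat_lit 6, nat_lit 192, nat_lit 2064, nat_lit 8400, nat_lit 7152, nat_lit 11760, R5_175, R6_149, R11_245⟩]⟩]⟩,
 ⟨nat_lit 6, [⟨nat_lit 4, [⟨nat_lit 2, nat_lit 672, nat_lit 3072, nat_lit 8208, nat_lit 7776, nat_lit 8976, R3_171, R7_162, R2_187⟩]⟩, ⟨nat_lit 6, [⟨nat_lit 2, nat_lit 720, nat_lit 3168, nat_lit 10704, nat_lit 7824, nat_lit 7584, R10_223, R7_163, R12_158⟩]⟩, ⟨nat_lit 7, [⟨nat_lit 2, nat_lit 768, nat_lit 3120, nat_lit 8544, nat_lit 7872, nat_lit 9792, R0_178, R7_164, R1_204⟩, ⟨nat_lit 6, nat_lit 432, nat_lit 3600, nat_lit 8496, nat_lit 7824, nat_lit 12480, R0_177, R4_163, R11_260⟩]⟩]⟩,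
 ⟨nat_lit 7, [⟨nat_lit 3, [⟨nat_lit 4, nat_lit 864, nat_lit 2304, nat_lit 9264, nat_lit 9552, nat_lit 1680, R1_193, R6_199, R2_35⟩, ⟨nat_lit 6, nat_lit 1248, nat_lit 2784, nat_lit 9360, nat_lit 6768, nat_lit 1152, R1_195, R8_141, R1_24⟩, ⟨nat_lit 7, nat_lit 1584, nat_lit 2448, nat_lit 9312, nat_lit 10464, nat_lit 7296, R1_194, R4_218, R12_152⟩]⟩, ⟨nat_lit 7, [⟨nat_lit 6, nat_lit 1296, nat_lit 2736, nat_lit 13632, nat_lit 6720, nat_lit 12144, R11_284, R8_140, R11_253⟩]⟩]⟩]], [[], [], [], [], [⟨nat_lit 4, [⟨nat_lit 4, [⟨nat_lit 6, nat_lit 4368, nat_lit 3600, nat_lit 5760, nat_lit 8832, nat_lit 6144, R4_120, R13_184, R4_128⟩]⟩, ⟨nat_lit 7, [⟨nat_lit 6, nat_lit 4416, nat_lit 11808, nat_lit 10224, nat_lit 8880, nat_lit 11520, R5_213, R13_185, R5_240⟩]⟩]⟩,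
 ⟨nat_lit 6, [⟨nat_lit 4, [⟨nat_lit 2, nat_lit 5760, nat_lit 2784, nat_lit 1776, nat_lit 6528, nat_lit 6432, R3_37, R2_136, R7_134⟩, ⟨nat_lit 6, nat_lit 5376, nat_lit 3744, nat_lit 1056, nat_lit 7152, nat_lit 6672, R3_22, R3_149, R4_139⟩]⟩, ⟨nat_lit 6, [⟨nat_lit 2, nat_lit 5808, nat_lit 14016, nat_lit 10464, nat_lit 6576, nat_lit 21264, R10_218, R2_137, R14_443⟩]⟩, ⟨nat_lit 7, [⟨nat_lit 6, nat_lit 5424, nat_lit 12096, nat_lit 8352, nat_lit 7296, nat_lit 12336, R0_174, R3_152, R5_257⟩]⟩]⟩,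
 ⟨nat_lit 7, [⟨nat_lit 7, [⟨nat_lit 6, nat_lit 7008, nat_lit 11952, nat_lit 13488, nat_lit 6768, nat_lit 11952, R11_281, R9_141, R5_249⟩]⟩]⟩], [⟨nat_lit 4, [⟨nat_lit 4, [⟨nat_lit 6, nat_lit 4464, nat_lit 1248, nat_lit 6384, nat_lit 8976, nat_lit 816, R4_133, R13_187, R3_17⟩]⟩, ⟨nat_lit 7, [⟨nat_lit 6, nat_lit 4512, nat_lit 1296, nat_lit 10416, nat_lit 9024, nat_lit 1008, R5_217, R13_188, R0_21⟩]⟩]⟩,
 ⟨nat_lit 6, [⟨nat_lit 4, [⟨nat_lit 2, nat_lit 5856, nat_lit 3024, nat_lit 6720, nat_lit 6768, nat_lit 4608, R3_140, R2_141, R2_96⟩, ⟨nat_lit 6, nat_lit 5472, nat_lit 4128, nat_lit 6240, nat_lit 7248, nat_lit 6144, R3_130, R3_151, R3_128⟩]⟩, ⟨nat_lit 6, [⟨nat_lit 2, nat_lit 5904, nat_lit 3072, nat_lit 10608, nat_lit 6816, nat_lit 17040, R10_221, R2_142, R12_355⟩]⟩, ⟨nat_lit 7, [⟨nat_lit 6, nat_lit 5520, nat_lit 4176,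 nat_lit 8448, nat_lit 7392, nat_lit 1104, R0_176, R3_154, R0_23⟩]⟩]⟩,
 ⟨nat_lit 7, [⟨nat_lit 7, [⟨nat_lit 6, nat_lit 7056, nat_lit 2496, nat_lit 13584, nat_lit 6912, nat_lit 1200, R11_283, R9_144, R0_25⟩]⟩]⟩], [], [⟨nat_lit 4, [⟨nat_lit 7, [⟨nat_lit 6, nat_lit 4560, nat_lit 384, nat_lit 10320, nat_lit 8928, nat_lit 14496, R5_215, R13_186, R11_302⟩]⟩]⟩,
 ⟨nat_lit 6, [⟨nat_lit 4, [⟨nat_lit 2, nat_lit 5952, nat_lit 1536, nat_lit 8352, nat_lit 6624, nat_lit 9552, R3_174, R2_138, R2_199⟩]⟩, ⟨nat_lit 6, [⟨nat_lit 2, nat_lit 6000, nat_lit 1632, nat_lit 10752, nat_lit 6672, nat_lit 9408, R10_224, R2_139, R12_196⟩]⟩, ⟨nat_lit 7, [⟨nat_lit 2, nat_lit 6048, nat_lit 1584, nat_lit 8640, nat_lit 6720, nat_lit 10368, R0_180, R2_140, R1_216⟩, ⟨nat_lit 6, nat_lit 5568, nat_lit 2064, nat_lit 8592, nat_lit 7344, nat_lit 15312,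 R0_179, R3_153, R11_319⟩]⟩]⟩,
 ⟨nat_lit 7, [⟨nat_lit 3, [⟨nat_lit 4, nat_lit 6288, nat_lit 768, nat_lit 10032, nat_lit 7392, nat_lit 2640, R1_209, R8_154, R2_55⟩, ⟨nat_lit 6, nat_lit 7104, nat_lit 1248, nat_lit 10128, nat_lit 6864, nat_lit 2112, R1_211, R9_143, R1_44⟩, ⟨nat_lit 7, nat_lit 7488, nat_lit 912, nat_lit 10080, nat_lit 6816, nat_lit 7344, R1_210, R5_142, R12_153⟩]⟩, ⟨nat_lit 7, [⟨nat_lit 6, nat_lit 7152, nat_lit 1200, nat_lit 13680, nat_lit 6816, nat_lit 14928, R11_285, R9_142, R11_311⟩]⟩]⟩]], [[], [], [], [], [⟨nat_lit 0, [⟨nat_lit 2, [⟨nat_lit 0, nat_lit 8160, nat_lit 17712, nat_lit 1248, nat_lit 15648, nat_lit 4896, R5_26, R6_326, R4_102⟩, ⟨nat_lit 3, nat_lit 8688, nat_lit 17952, nat_lit 9600, nat_lit 18816, nat_lit 11040, R5_200, R8_392, R5_230⟩]⟩]⟩,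
 ⟨nat_lit 2, [⟨nat_lit 2, [⟨nat_lit 0, nat_lit 8976, nat_lit 17808, nat_lit 12384, nat_lit 12336, nat_lit 5424, R11_258, R13_257, R4_113⟩, ⟨nat_lit 3, nat_lit 9792, nat_lit 18144, nat_lit 12432, nat_lit 9600, nat_lit 11232, R11_259, R9_200, R5_234⟩]⟩, ⟨nat_lit 6, [⟨nat_lit 0, nat_lit 9024, nat_lit 11952, nat_lit 9072, nat_lit 12384, nat_lit 5328, R1_189, R13_258, R7_111⟩, ⟨nat_lit 2, nat_lit 9360, nat_lit 12624, nat_lit 9120, nat_lit 17040, nat_lit 20592, R1_190, R3_355, R14_429⟩]⟩]⟩,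
 ⟨nat_lit 3, [⟨nat_lit 2, [⟨nat_lit 3, nat_lit 10032, nat_lit 18048, nat_lit 7920, nat_lit 11088, nat_lit 11136, R0_165, R5_231, R5_232⟩]⟩]⟩,
 ⟨nat_lit 6, [⟨nat_lit 4, [⟨nat_lit 2, nat_lit 7728, nat_lit 2976, nat_lit 1920, nat_lit 10032, nat_lit 6336, R3_40, R2_209, R7_132⟩]⟩, ⟨nat_lit 6, [⟨nat_lit 2, nat_lit 7776, nat_lit 12720, nat_lit 10512, nat_lit 10080, nat_lit 20640, R10_219, R2_210, R14_430⟩]⟩]⟩], [⟨nat_lit 2, [⟨nat_lit 6, [⟨nat_lit 2, nat_lit 9456, nat_lit 10800, nat_lit 9216, nat_lit 17136, nat_lit 16368, R1_192, R3_357, R12_341⟩]⟩]⟩,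
 ⟨nat_lit 6, [⟨nat_lit 4, [⟨nat_lit 2, nat_lit 7872, nat_lit 1440, nat_lit 6864, nat_lit 10176, nat_lit 4512, R3_143, R2_212, R2_94⟩]⟩, ⟨nat_lit 6, [⟨nat_lit 2, nat_lit 7920, nat_lit 10896, nat_lit 10656, nat_lit 10224, nat_lit 16416, R10_222, R2_213, R12_342⟩]⟩]⟩], [⟨nat_lit 0, [⟨nat_lit 2, [⟨nat_lit 0, nat_lit 8208, nat_lit 1920, nat_lit 1392, nat_lit 15696, nat_lit 480, R5_29, R6_327, R3_10⟩, ⟨nat_lit 1, nat_lit 8352, nat_lit 6960, nat_lit 13296, nat_lit 14832, nat_lit 9504, R5_277, R4_309, R10_198⟩, ⟨nat_lit 3, nat_lit 8736, nat_lit 9024, nat_lit 9840, nat_lit 18864, nat_lit 7680, R5_205, R8_393, R0_160⟩]⟩]⟩,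
 ⟨nat_lit 2, [⟨nat_lit 2, [⟨nat_lit 0, nat_lit 9072, nat_lit 1968, nat_lit 15168, nat_lit 12528, nat_lit 4080, R11_316, R13_261, R3_85⟩, ⟨nat_lit 1, nat_lit 9264, nat_lit 7008, nat_lit 15264, nat_lit 9408, nat_lit 9696, R11_318, R3_196, R10_202⟩, ⟨nat_lit 3, nat_lit 9840, nat_lit 9120, nat_lit 15216, nat_lit 9744, nat_lit 7824, R11_317, R9_203, R0_163⟩]⟩, ⟨nat_lit 6, [⟨nat_lit 0, nat_lit 9120, nat_lit 1344, nat_lit 9456, nat_lit 12576, nat_lit 3744, R1_197, R13_262, R2_78⟩, ⟨nat_lit 1, nat_lit 9312, nat_lit 6480, nat_lit 9552, nat_lit 9456, nat_lit 3216, R1_199, R3_197, R1_67⟩, ⟨nat_lit 2, nat_lit 9408, nat_lit 10704, nat_lit 9504, nat_lit 17088, nat_lit 16224, R1_198, R3_356, R12_338⟩]⟩]⟩,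
 ⟨nat_lit 3, [⟨nat_lit 2, [⟨nat_lit 3, nat_lit 10080, nat_lit 9072, nat_lit 9168, nat_lit 11184, nat_lit 7968, R0_191, R5_233, R0_166⟩]⟩]⟩,
 ⟨nat_lit 6, [⟨nat_lit 6, [⟨nat_lit 2, nat_lit 7824, nat_lit 10560, nat_lit 10800, nat_lit 10128, nat_lit 16176, R10_225, R2_211, R12_337⟩]⟩]⟩]], [[], [], [], [], [], [], [], [⟨nat_lit 0, [⟨nat_lit 0, [⟨nat_lit 7, nat_lit 11280, nat_lit 12240, nat_lit 12672, nat_lit 17472, nat_lit 7776, R4_264, R7_364, R2_162⟩]⟩, ⟨nat_lit 2, [⟨nat_lit 3, nat_lit 11472, nat_lit 2352, nat_lit 8976, nat_lit 15360, nat_lit 11808, R5_187, R4_320, R11_246⟩, ⟨nat_lit 7, nat_lit 11328, nat_lit 12288, nat_lit 16368, nat_lit 17808, nat_lit 8304, R5_341, R7_371, R1_173⟩]⟩]⟩,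
 ⟨nat_lit 2, [⟨nat_lit 2, [⟨nat_lit 3, nat_lit 11616, nat_lit 4032, nat_lit 14112, nat_lit 17424, nat_lit 12192, R11_294, R5_363, R11_254⟩]⟩, ⟨nat_lit 6, [⟨nat_lit 3, nat_lit 11664, nat_lit 4224, nat_lit 9408, nat_lit 17280, nat_lit 6576, R1_196, R5_360, R1_137⟩]⟩]⟩,
 ⟨nat_lit 3, [⟨nat_lit 0, [⟨nat_lit 7, nat_lit 12816, nat_lit 12816, nat_lit 8256, nat_lit 7248, nat_lit 9024, R3_172, R14_151, R2_188⟩]⟩, ⟨nat_lit 2, [⟨nat_lit 7, nat_lit 12864, nat_lit 13008, nat_lit 8880, nat_lit 7296, nat_lit 9840, R0_185, R14_152, R1_205⟩]⟩, ⟨nat_lit 3, [⟨nat_lit 4, nat_lit 12144, nat_lit 11328, nat_lit 11376, nat_lit 8544, nat_lit 432, R10_237, R7_178, R2_9⟩, ⟨nat_lit 7, nat_lit 12912, nat_lit 12960, nat_lit 11424, nat_lit 7344, nat_lit 7632, R10_238, R14_153, R12_159⟩]⟩]⟩,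
 ⟨nat_lit 7, [⟨nat_lit 3, [⟨nat_lit 4, nat_lit 10272, nat_lit 11568, nat_lit 10608, nat_lit 8496, nat_lit 2208, R1_221, R4_177, R2_46⟩, ⟨nat_lit 6, nat_lit 10560, nat_lit 14400, nat_lit 10656, nat_lit 6768, nat_lit 1680, R1_222, R5_141, R1_35⟩]⟩, ⟨nat_lit 7, [⟨nat_lit 6, nat_lit 10608, nat_lit 14688, nat_lit 13728, nat_lit 6864, nat_lit 13200, R11_286, R5_143, R11_275⟩]⟩]⟩]]], [[], [], [], [], [[], [], [], [⟨nat_lit 3, [⟨nat_lit 0, [⟨nat_lit 7, nat_lit 3216, nat_lit 384, nat_lit 14400, nat_lit 7392, nat_lit 14496, R3_300, R7_154, R3_302⟩]⟩, ⟨nat_lit 1, [⟨nat_lit 7, nat_lit 3312, nat_lit 432, nat_lit 11376, nat_lit 7488, nat_lit 11328, R10_237, R7_156, R0_236⟩]⟩, ⟨nat_lit 2, [⟨nat_lit 7, nat_lit 3264, nat_lit 480, nat_lit 11376, nat_lit 7440, nat_lit 11136, R0_237, R7_155, R10_232⟩]⟩]⟩,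
 ⟨nat_lit 7, [⟨nat_lit 0, [⟨nat_lit 4, nat_lit 912, nat_lit 1584, nat_lit 8448, nat_lit 8016, nat_lit 9936, R2_176, R6_167, R13_207⟩, ⟨nat_lit 6, nat_lit 1344, nat_lit 2544, nat_lit 9216, nat_lit 6528, nat_lit 7776, R2_192, R8_136, R3_162⟩, ⟨nat_lit 7, nat_lit 1632, nat_lit 2160, nat_lit 9792, nat_lit 8448, nat_lit 12912, R2_204, R4_176, R3_269⟩]⟩, ⟨nat_lit 1, [⟨nat_lit 4, nat_lit 960, nat_lit 1680, nat_lit 9264, nat_lit 8112, nat_lit 2304, R1_193, R6_169, R9_48⟩, ⟨nat_lit 6, nat_lit 1392, nat_lit 2640, nat_lit 10032, nat_lit 6624, nat_lit 768, R1_209, R8_138, R0_16⟩, ⟨nat_lit 7, nat_lit 1680, nat_lit 2208, nat_lit 10608, nat_lit 8496, nat_lit 11568, R1_221, R4_177, R0_241⟩]⟩, ⟨nat_lit 3, [⟨nat_lit 4, nat_lit 1008, nat_lit 1632, nat_lit 8064, nat_lit 8064, nat_lit 11808, R12_168, R6_168, R3_246⟩, ⟨nat_lit 6,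 nat_lit 1440, nat_lit 2592, nat_lit 8112, nat_lit 6576, nat_lit 1200, R12_169, R8_137, R10_25⟩]⟩]⟩], [], [], [], [⟨nat_lit 3, [⟨nat_lit 0, [⟨nat_lit 7, nat_lit 3360, nat_lit 12528, nat_lit 12816, nat_lit 6816, nat_lit 9744, R3_267, R7_142, R2_203⟩]⟩, ⟨nat_lit 2, [⟨nat_lit 3, nat_lit 3648, nat_lit 4704, nat_lit 11952, nat_lit 7152, nat_lit 12528, R0_249, R4_149, R11_261⟩, ⟨nat_lit 7, nat_lit 3408, nat_lit 12672, nat_lit 11760, nat_lit 6864, nat_lit 10560, R0_245, R7_143, R1_220⟩]⟩]⟩,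
 ⟨nat_lit 7, [⟨nat_lit 0, [⟨nat_lit 7, nat_lit 1728, nat_lit 13776, nat_lit 7248, nat_lit 10176, nat_lit 7152, R2_151, R4_212, R2_149⟩]⟩, ⟨nat_lit 3, [⟨nat_lit 4, nat_lit 1056, nat_lit 11808, nat_lit 8352, nat_lit 9312, nat_lit 1632, R12_174, R6_194, R2_34⟩, ⟨nat_lit 6, nat_lit 1488, nat_lit 16944, nat_lit 8400, nat_lit 6480, nat_lit 1104, R12_175, R8_135, R1_23⟩, ⟨nat_lit 7, nat_lit 1776, nat_lit 14160, nat_lit 8448, nat_lit 10224, nat_lit 7392, R12_176, R4_213, R12_154⟩]⟩]⟩]], [[], [], [], [⟨nat_lit 7, [⟨nat_lit 0, [⟨nat_lit 4, nat_lit 6336, nat_lit 1056, nat_lit 8544, nat_lit 8304, nat_lit 10032, R2_178, R8_173, R13_209⟩, ⟨nat_lit 6, nat_lit 7200, nat_lit 2016, nat_lit 9312, nat_lit 6624, nat_lit 7872, R2_194, R9_138, R3_164⟩, ⟨nat_lit 7, nat_lit 7536, nat_lit 1632, nat_lit 9840, nat_lit 6720, nat_lit 13008,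 R2_205, R5_140, R3_271⟩]⟩, ⟨nat_lit 1, [⟨nat_lit 4, nat_lit 6384, nat_lit 1152, nat_lit 9360, nat_lit 8976, nat_lit 2784, R1_195, R8_187, R9_58⟩, ⟨nat_lit 6, nat_lit 7248, nat_lit 2112, nat_lit 10128, nat_lit 6720, nat_lit 1248, R1_211, R9_140, R0_26⟩, ⟨nat_lit 7, nat_lit 7584, nat_lit 1680, nat_lit 10656, nat_lit 6768, nat_lit 14400, R1_222, R5_141, R0_300⟩]⟩, ⟨nat_lit 3, [⟨nat_lit 4, nat_lit 6432, nat_lit 1104, nat_lit 8160, nat_lit 8640, nat_lit 16944, R12_170, R8_180, R3_353⟩, ⟨nat_lit 6, nat_lit 7296, nat_lit 2064, nat_lit 8208, nat_lit 6672, nat_lit 2160, R12_171, R9_139, R10_45⟩]⟩]⟩], [], [], [], [⟨nat_lit 7, [⟨nat_lit 0, [⟨nat_lit 7, nat_lit 7632, nat_lit 1824, nat_lit 7296, nat_lit 6624, nat_lit 7200, R2_152, R5_138, R2_150⟩]⟩, ⟨nat_lit 3, [⟨nat_lit 4, nat_lit 6480, nat_lit 1200, nat_lit 8496, nat_lit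 7344, nat_lit 2592, R12_177, R8_153, R2_54⟩, ⟨nat_lit 6, nat_lit 7344, nat_lit 2160, nat_lit 8544, nat_lit 6576, nat_lit 2064, R12_178, R9_137, R1_43⟩, ⟨nat_lit 7, nat_lit 7680, nat_lit 1872, nat_lit 8592, nat_lit 6672, nat_lit 7440, R12_179, R5_139, R12_155⟩]⟩]⟩]], [[], [], [], [], [], [], [], [⟨nat_lit 3, [⟨nat_lit 2, [⟨nat_lit 3, nat_lit 10128, nat_lit 15024, nat_lit 14832, nat_lit 11280, nat_lit 12576, R0_309, R5_235, R11_262⟩]⟩]⟩]], [[], [], [], [⟨nat_lit 3, [⟨nat_lit 0, [⟨nat_lit 4, nat_lit 12192, nat_lit 7488, nat_lit 12000, nat_lit 9504, nat_lit 11904, R3_250, R7_198, R13_248⟩, ⟨nat_lit 7, nat_lit 12960, nat_lit 7536, nat_lit 14688, nat_lit 7104, nat_lit 14928, R3_306, R14_148, R3_311⟩]⟩, ⟨nat_lit 1, [⟨nat_lit 4, nat_lit 12288, nat_lit 7584, nat_lit 10704, nat_lit 11184, nat_lit 720, R10_223, R7_233,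 R9_15⟩, ⟨nat_lit 7, nat_lit 13056, nat_lit 7632, nat_lit 11424, nat_lit 7200, nat_lit 12960, R10_238, R14_150, R0_270⟩]⟩, ⟨nat_lit 2, [⟨nat_lit 4, nat_lit 12240, nat_lit 7680, nat_lit 13056, nat_lit 10416, nat_lit 1968, R0_272, R7_217, R3_41⟩, ⟨nat_lit 7, nat_lit 13008, nat_lit 7728, nat_lit 13152, nat_lit 7152, nat_lit 11184, R0_274, R14_149, R10_233⟩]⟩]⟩,
 ⟨nat_lit 7, [⟨nat_lit 0, [⟨nat_lit 4, nat_lit 10320, nat_lit 7200, nat_lit 8496, nat_lit 9456, nat_lit 9984, R2_177, R4_197, R13_208⟩, ⟨nat_lit 6, nat_lit 10656, nat_lit 7248, nat_lit 9264, nat_lit 6576, nat_lit 7824, R2_193, R5_137, R3_163⟩]⟩, ⟨nat_lit 1, [⟨nat_lit 4, nat_lit 10368, nat_lit 7296, nat_lit 9312, nat_lit 10464, nat_lit 2448, R1_194, R4_218, R9_51⟩, ⟨nat_lit 6, nat_lit 10704, nat_lit 7344, nat_lit 10080, nat_lit 6816, nat_lit 912, R1_210, R5_142,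 R0_19⟩]⟩, ⟨nat_lit 3, [⟨nat_lit 4, nat_lit 10416, nat_lit 7392, nat_lit 8256, nat_lit 10224, nat_lit 14160, R12_172, R4_213, R3_295⟩, ⟨nat_lit 6, nat_lit 10752, nat_lit 7440, nat_lit 8304, nat_lit 6672, nat_lit 1872, R12_173, R5_139, R10_39⟩]⟩]⟩]]], [[], [[⟨nat_lit 5, [⟨nat_lit 1, [⟨nat_lit 4, nat_lit 14016, nat_lit 6240, nat_lit 1680, nat_lit 11040, nat_lit 11040, R3_35, R7_230, R8_230⟩, ⟨nat_lit 5, nat_lit 14352, nat_lit 6336, nat_lit 1920, nat_lit 10032, nat_lit 2976, R3_40, R2_209, R9_62⟩, ⟨nat_lit 6, nat_lit 14592, nat_lit 6432, nat_lit 1776, nat_lit 6528, nat_lit 2784, R3_37, R2_136, R5_58⟩]⟩]⟩], [⟨nat_lit 5, [⟨nat_lit 1, [⟨nat_lit 4, nat_lit 14064, nat_lit 4416, nat_lit 6624, nat_lit 11280, nat_lit 3024, R3_138, R7_235, R5_63⟩, ⟨nat_lit 5, nat_lit 14400, nat_lit 4512, nat_lit 6864, nat_lit 10176, nat_lit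 1440, R3_143, R2_212, R0_30⟩, ⟨nat_lit 6, nat_lit 14640, nat_lit 4608, nat_lit 6720, nat_lit 6768, nat_lit 2784, R3_140, R2_141, R11_58⟩]⟩, ⟨nat_lit 5, [⟨nat_lit 6, nat_lit 14688, nat_lit 13584, nat_lit 13008, nat_lit 6864, nat_lit 2160, R2_271, R2_143, R1_45⟩]⟩]⟩], [], [⟨nat_lit 5, [⟨nat_lit 1, [⟨nat_lit 4, nat_lit 14112, nat_lit 8976, nat_lit 8208, nat_lit 11136, nat_lit 3072, R3_171, R7_232, R9_64⟩, ⟨nat_lit 6, nat_lit 14736, nat_lit 9552, nat_lit 8352, nat_lit 6624, nat_lit 1536, R3_174, R2_138, R0_32⟩]⟩]⟩]], [], [], [], [[⟨nat_lit 4, [⟨nat_lit 1, [⟨nat_lit 4, nat_lit 3696, nat_lit 6048, nat_lit 5712, nat_lit 7056, nat_lit 17616, R4_119, R6_147, R8_367⟩, ⟨nat_lit 6, nat_lit 3936, nat_lit 6144, nat_lit 5760, nat_lit 9072, nat_lit 3600, R4_120, R13_189, R5_75⟩]⟩]⟩,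
 ⟨nat_lit 5, [⟨nat_lit 1, [⟨nat_lit 4, nat_lit 4608, nat_lit 6624, nat_lit 1008, nat_lit 7728, nat_lit 17760, R3_21, R4_161, R8_370⟩, ⟨nat_lit 6, nat_lit 4848, nat_lit 6672, nat_lit 1056, nat_lit 7152, nat_lit 3744, R3_22, R3_149, R5_78⟩]⟩]⟩], [⟨nat_lit 4, [⟨nat_lit 1, [⟨nat_lit 4, nat_lit 3744, nat_lit 768, nat_lit 6336, nat_lit 7200, nat_lit 1680, R4_132, R6_150, R5_35⟩, ⟨nat_lit 6, nat_lit 3984, nat_lit 816, nat_lit 6384, nat_lit 9168, nat_lit 3600, R4_133, R13_191, R11_75⟩]⟩, ⟨nat_lit 5, [⟨nat_lit 6, nat_lit 4032, nat_lit 1392, nat_lit 5904, nat_lit 9120, nat_lit 1872, R7_123, R13_190, R1_39⟩]⟩]⟩,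
 ⟨nat_lit 5, [⟨nat_lit 1, [⟨nat_lit 4, nat_lit 4656, nat_lit 6096, nat_lit 6192, nat_lit 7872, nat_lit 4128, R3_129, R4_164, R5_86⟩, ⟨nat_lit 6, nat_lit 4896, nat_lit 6144, nat_lit 6240, nat_lit 7248, nat_lit 3744, R3_130, R3_151, R11_78⟩]⟩, ⟨nat_lit 5, [⟨nat_lit 6, nat_lit 4944, nat_lit 6576, nat_lit 4320, nat_lit 7200, nat_lit 2304, R2_90, R3_150, R1_48⟩]⟩]⟩,
 ⟨nat_lit 7, [⟨nat_lit 5, [⟨nat_lit 6, nat_lit 6528, nat_lit 7872, nat_lit 9312, nat_lit 6960, nat_lit 2016, R2_194, R9_145, R1_42⟩]⟩]⟩]]], [[[⟨nat_lit 1, [⟨nat_lit 1, [⟨nat_lit 4, nat_lit 13392, nat_lit 384, nat_lit 8976, nat_lit 9504, nat_lit 3792, R1_187, R6_198, R8_79⟩, ⟨nat_lit 5, nat_lit 13632, nat_lit 5328, nat_lit 9072, nat_lit 20688, nat_lit 11952, R1_189, R13_431, R9_249⟩]⟩]⟩], [], [⟨nat_lit 1, [⟨nat_lit 1, [⟨nat_lit 5, nat_lit 13680, nat_lit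 3744, nat_lit 9456, nat_lit 20736, nat_lit 1344, R1_197, R13_432, R0_28⟩]⟩]⟩], [⟨nat_lit 1, [⟨nat_lit 1, [⟨nat_lit 4, nat_lit 13440, nat_lit 1680, nat_lit 9264, nat_lit 9552, nat_lit 864, R1_193, R6_199, R9_18⟩]⟩]⟩]], [[⟨nat_lit 1, [⟨nat_lit 1, [⟨nat_lit 4, nat_lit 15072, nat_lit 19920, nat_lit 9024, nat_lit 10416, nat_lit 11760, R1_188, R4_217, R8_245⟩, ⟨nat_lit 5, nat_lit 15216, nat_lit 20592, nat_lit 9120, nat_lit 17040, nat_lit 12624, R1_190, R3_355, R9_263⟩]⟩]⟩,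
 ⟨nat_lit 5, [⟨nat_lit 1, [⟨nat_lit 4, nat_lit 14160, nat_lit 19968, nat_lit 15744, nat_lit 11088, nat_lit 11616, R10_328, R7_231, R8_242⟩, ⟨nat_lit 5, nat_lit 14448, nat_lit 20640, nat_lit 15936, nat_lit 10080, nat_lit 12720, R10_332, R2_210, R9_265⟩, ⟨nat_lit 6, nat_lit 14784, nat_lit 21264, nat_lit 15792, nat_lit 6576, nat_lit 14016, R10_329, R2_137, R5_292⟩]⟩]⟩], [⟨nat_lit 1, [⟨nat_lit 1, [⟨nat_lit 4, nat_lit 15120, nat_lit 15696, nat_lit 9168, nat_lit 10512, nat_lit 672, R1_191, R4_219, R5_14⟩, ⟨nat_lit 5, nat_lit 15312, nat_lit 16368, nat_lit 9216, nat_lit 17136, nat_lit 10800, R1_192, R3_357, R0_225⟩]⟩]⟩,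
 ⟨nat_lit 5, [⟨nat_lit 1, [⟨nat_lit 4, nat_lit 14208, nat_lit 15744, nat_lit 17472, nat_lit 11328, nat_lit 3072, R10_364, R7_236, R5_64⟩, ⟨nat_lit 5, nat_lit 14544, nat_lit 16416, nat_lit 17616, nat_lit 10224, nat_lit 10896, R10_367, R2_213, R0_227⟩, ⟨nat_lit 6, nat_lit 14832, nat_lit 17040, nat_lit 17520, nat_lit 6816, nat_lit 17088, R10_365, R2_142, R11_356⟩]⟩, ⟨nat_lit 5, [⟨nat_lit 6, nat_lit 14880, nat_lit 15360, nat_lit 14352, nat_lit 6912, nat_lit 2256, R1_299, R2_144, R1_47⟩]⟩]⟩], [⟨nat_lit 1, [⟨nat_lit 1, [⟨nat_lit 5, nat_lit 15264, nat_lit 16224, nat_lit 9504, nat_lit 17088, nat_lit 10704, R1_198, R3_356, R0_223⟩]⟩]⟩,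
 ⟨nat_lit 5, [⟨nat_lit 1, [⟨nat_lit 5, nat_lit 14496, nat_lit 16176, nat_lit 18144, nat_lit 10128, nat_lit 10560, R10_378, R2_211, R0_220⟩]⟩]⟩], [⟨nat_lit 1, [⟨nat_lit 1, [⟨nat_lit 4, nat_lit 15168, nat_lit 7296, nat_lit 9312, nat_lit 10464, nat_lit 1584, R1_194, R4_218, R9_33⟩]⟩]⟩,
 ⟨nat_lit 5, [⟨nat_lit 1, [⟨nat_lit 4, nat_lit 14256, nat_lit 7584, nat_lit 16608, nat_lit 11184, nat_lit 3168, R10_346, R7_233, R9_66⟩, ⟨nat_lit 6, nat_lit 14928, nat_lit 9408, nat_lit 16656, nat_lit 6672, nat_lit 1632, R10_347, R2_139, R0_34⟩]⟩]⟩]], [[], [], [⟨nat_lit 1, [⟨nat_lit 1, [⟨nat_lit 5, nat_lit 15600, nat_lit 3216, nat_lit 9552, nat_lit 9456, nat_lit 6480, R1_199, R3_197, R0_135⟩]⟩]⟩]], [[], [], [], [⟨nat_lit 1, [⟨nat_lit 1, [⟨nat_lit 4, nat_lit 16800, nat_lit 1152, nat_lit 9360, nat_lit 8976, nat_lit 1248, R1_195, R8_187,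 R9_26⟩, ⟨nat_lit 7, nat_lit 17520, nat_lit 6576, nat_lit 9408, nat_lit 17280, nat_lit 4224, R1_196, R5_360, R0_88⟩]⟩]⟩]]], [[], [[], [⟨nat_lit 5, [⟨nat_lit 5, [⟨nat_lit 6, nat_lit 14976, nat_lit 14928, nat_lit 12480, nat_lit 6960, nat_lit 2208, R12_260, R2_145, R1_46⟩]⟩]⟩]], [], [], [], [[], [⟨nat_lit 4, [⟨nat_lit 5, [⟨nat_lit 6, nat_lit 4080, nat_lit 2064, nat_lit 16320, nat_lit 9456, nat_lit 1920, R14_340, R13_197, R1_40⟩]⟩]⟩,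
 ⟨nat_lit 5, [⟨nat_lit 5, [⟨nat_lit 6, nat_lit 4992, nat_lit 2112, nat_lit 13392, nat_lit 7488, nat_lit 2352, R12_279, R3_156, R1_49⟩]⟩]⟩,
 ⟨nat_lit 6, [⟨nat_lit 5, [⟨nat_lit 6, nat_lit 5232, nat_lit 2208, nat_lit 13344, nat_lit 7440, nat_lit 1968, R12_278, R3_155, R1_41⟩]⟩]⟩,
 ⟨nat_lit 7, [⟨nat_lit 5, [⟨nat_lit 6, nat_lit 6576, nat_lit 2160, nat_lit 8544, nat_lit 7344, nat_lit 2064, R12_178, R9_153, R1_43⟩]⟩]⟩], [], [], [], [⟨nat_lit 4, [⟨nat_lit 4, [⟨nat_lit 6, nat_lit 4128, nat_lit 1872, nat_lit 5904, nat_lit 9360, nat_lit 1392, R7_123, R13_195, R3_29⟩]⟩, ⟨nat_lit 5, [⟨nat_lit 6, nat_lit 4176, nat_lit 1920, nat_lit 16272, nat_lit 9408, nat_lit 16368, R14_339, R13_196, R10_341⟩]⟩]⟩,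
 ⟨nat_lit 5, [⟨nat_lit 5, [⟨nat_lit 6, nat_lit 5040, nat_lit 1968, nat_lit 13344, nat_lit 7440, nat_lit 18336, R12_278, R3_155, R10_382⟩]⟩]⟩,
 ⟨nat_lit 6, [⟨nat_lit 4, [⟨nat_lit 2, nat_lit 5616, nat_lit 2160, nat_lit 13008, nat_lit 6864, nat_lit 13584, R2_271, R2_143, R2_283⟩, ⟨nat_lit 6, nat_lit 5280, nat_lit 2304, nat_lit 4320, nat_lit 7200, nat_lit 6576, R2_90, R3_150, R3_137⟩]⟩, ⟨nat_lit 5, [⟨nat_lit 2, nat_lit 5712, nat_lit 2208, nat_lit 12480, nat_lit 6960, nat_lit 14928, R12_260, R2_145, R1_311⟩, ⟨nat_lit 6, nat_lit 5328, nat_lit 2352, nat_lit 13392, nat_lit 7488, nat_lit 17952, R12_279, R3_156, R10_374⟩]⟩, ⟨nat_lit 6, [⟨nat_lit 2, nat_lit 5664, nat_lit 2256, nat_lit 14352, nat_lit 6912, nat_lit 15360, R1_299, R2_144, R12_320⟩]⟩]⟩,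
 ⟨nat_lit 7, [⟨nat_lit 4, [⟨nat_lit 6, nat_lit 6624, nat_lit 2016, nat_lit 9312, nat_lit 7200, nat_lit 7872, R2_194, R9_150, R3_164⟩]⟩, ⟨nat_lit 5, [⟨nat_lit 6, nat_lit 6672, nat_lit 2064, nat_lit 8208, nat_lit 7296, nat_lit 17280, R12_171, R9_152, R10_360⟩]⟩, ⟨nat_lit 7, [⟨nat_lit 6, nat_lit 6720, nat_lit 2112, nat_lit 10128, nat_lit 7248, nat_lit 1248, R1_211, R9_151, R0_26⟩]⟩]⟩]]], [[], [[], [], [], [⟨nat_lit 5, [⟨nat_lit 1, [⟨nat_lit 4, nat_lit 14304, nat_lit 9792, nat_lit 8544, nat_lit 11232, nat_lit 3120, R0_178, R7_234, R9_65⟩, ⟨nat_lit 6, nat_lit 15024, nat_lit 10368, nat_lit 8640, nat_lit 6720, nat_lit 1584, R0_180, R2_140, R0_33⟩]⟩]⟩]], [], [], [], [[⟨nat_lit 4, [⟨nat_lit 1, [⟨nat_lit 4, nat_lit 3792, nat_lit 9312, nat_lit 8112, nat_lit 7104, nat_lit 18336, R5_169, R6_148, R8_382⟩, ⟨nat_lit 6, nat_lit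 4224, nat_lit 11520, nat_lit 10224, nat_lit 9216, nat_lit 11808, R5_213, R13_192, R5_246⟩]⟩]⟩,
 ⟨nat_lit 5, [⟨nat_lit 1, [⟨nat_lit 4, nat_lit 4704, nat_lit 10032, nat_lit 8304, nat_lit 7776, nat_lit 18624, R0_173, R4_162, R8_388⟩, ⟨nat_lit 6, nat_lit 5088, nat_lit 12336, nat_lit 8352, nat_lit 7296, nat_lit 12096, R0_174, R3_152, R5_252⟩]⟩]⟩,
 ⟨nat_lit 7, [⟨nat_lit 1, [⟨nat_lit 4, nat_lit 6096, nat_lit 9696, nat_lit 13440, nat_lit 7968, nat_lit 18480, R11_280, R8_166, R8_385⟩, ⟨nat_lit 6, nat_lit 6768, nat_lit 11952, nat_lit 13488, nat_lit 7008, nat_lit 11952, R11_281, R9_146, R5_249⟩]⟩]⟩], [⟨nat_lit 4, [⟨nat_lit 1, [⟨nat_lit 4, nat_lit 3840, nat_lit 960, nat_lit 8640, nat_lit 7248, nat_lit 1728, R5_180, R6_151, R5_36⟩, ⟨nat_lit 6, nat_lit 4272, nat_lit 1008, nat_lit 10416, nat_lit 9312, nat_lit 14784, R5_217,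 R13_194, R11_308⟩]⟩]⟩,
 ⟨nat_lit 5, [⟨nat_lit 1, [⟨nat_lit 4, nat_lit 4752, nat_lit 1056, nat_lit 8400, nat_lit 7920, nat_lit 4176, R0_175, R4_165, R5_87⟩, ⟨nat_lit 6, nat_lit 5136, nat_lit 1104, nat_lit 8448, nat_lit 7392, nat_lit 15072, R0_176, R3_154, R11_314⟩]⟩]⟩,
 ⟨nat_lit 7, [⟨nat_lit 1, [⟨nat_lit 4, nat_lit 6144, nat_lit 1152, nat_lit 13536, nat_lit 9264, nat_lit 2496, R11_282, R8_193, R5_52⟩, ⟨nat_lit 6, nat_lit 6816, nat_lit 1200, nat_lit 13584, nat_lit 7152, nat_lit 14928, R11_283, R9_149, R11_311⟩]⟩, ⟨nat_lit 5, [⟨nat_lit 6, nat_lit 6864, nat_lit 1248, nat_lit 10128, nat_lit 7104, nat_lit 2112, R1_211, R9_148, R1_44⟩]⟩]⟩], [], [⟨nat_lit 4, [⟨nat_lit 1, [⟨nat_lit 4, nat_lit 3888, nat_lit 2208, nat_lit 8400, nat_lit 7152, nat_lit 2064, R5_175, R6_149, R9_43⟩, ⟨nat_lit 6, nat_lit 4320, nat_lit 2256,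 nat_lit 10320, nat_lit 9264, nat_lit 384, R5_215, R13_193, R0_8⟩]⟩]⟩,
 ⟨nat_lit 5, [⟨nat_lit 1, [⟨nat_lit 4, nat_lit 4800, nat_lit 2304, nat_lit 8496, nat_lit 7824, nat_lit 3600, R0_177, R4_163, R9_75⟩, ⟨nat_lit 6, nat_lit 5184, nat_lit 2352, nat_lit 8592, nat_lit 7344, nat_lit 2064, R0_179, R3_153, R0_43⟩]⟩]⟩,
 ⟨nat_lit 7, [⟨nat_lit 1, [⟨nat_lit 4, nat_lit 6192, nat_lit 2400, nat_lit 13632, nat_lit 8928, nat_lit 2736, R11_284, R8_186, R9_57⟩, ⟨nat_lit 6, nat_lit 6912, nat_lit 2496, nat_lit 13680, nat_lit 7056, nat_lit 1200, R11_285, R9_147, R0_25⟩, ⟨nat_lit 7, nat_lit 7392, nat_lit 2448, nat_lit 13728, nat_lit 6864, nat_lit 14688, R11_286, R5_143, R0_306⟩]⟩]⟩]]]]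
noncomputable def N1264 : T3 (List N0) := [[[], [], [], [], [], [], [[], [], [], [], [⟨nat_lit 0, [⟨nat_lit 0, [⟨nat_lit 3, nat_lit 1824, nat_lit 12336, nat_lit 15024, nat_lit 960, nat_lit 14928, R6_313, R5_20, R6_311⟩]⟩, ⟨nat_lit 2, [⟨nat_lit 0, nat_lit 7968, nat_lit 15456, nat_lit 17904, nat_lit 4848, nat_lit 15456, R8_373, R4_101, R6_322⟩, ⟨nat_lit 3, nat_lit 8400, nat_lit 16128, nat_lit 18720, nat_lit 9216, nat_lit 16224, R8_390, R5_192, R8_338⟩]⟩]⟩,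
 ⟨nat_lit 2, [⟨nat_lit 2, [⟨nat_lit 0, nat_lit 8016, nat_lit 15600, nat_lit 9408, nat_lit 336, nat_lit 15504, R5_196, R3_7, R6_323⟩, ⟨nat_lit 2, nat_lit 8256, nat_lit 16656, nat_lit 9504, nat_lit 9456, nat_lit 14736, R5_198, R10_197, R4_307⟩]⟩]⟩,
 ⟨nat_lit 3, [⟨nat_lit 0, [⟨nat_lit 3, nat_lit 1872, nat_lit 12480, nat_lit 10800, nat_lit 11616, nat_lit 14976, R13_225, R11_242, R6_312⟩]⟩, ⟨nat_lit 2, [⟨nat_lit 3, nat_lit 8496, nat_lit 16272, nat_lit 8496, nat_lit 11664, nat_lit 16272, R9_177, R11_243, R8_339⟩]⟩, ⟨nat_lit 3, [⟨nat_lit 3, nat_lit 11376, nat_lit 14256, nat_lit 16560, nat_lit 11712, nat_lit 14448, R3_345, R11_244, R4_301⟩]⟩]⟩], [], [⟨nat_lit 0, [⟨nat_lit 0, [⟨nat_lit 0, nat_lit 2112, nat_lit 8496, nat_lit 16608, nat_lit 144, nat_lit 9360, R6_346, R4_3, R6_195⟩, ⟨nat_lit 3, nat_lit 2496, nat_lit 8544,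 nat_lit 16944, nat_lit 1536, nat_lit 4608, R6_353, R5_32, R8_96⟩]⟩, ⟨nat_lit 2, [⟨nat_lit 0, nat_lit 8784, nat_lit 9936, nat_lit 18000, nat_lit 5376, nat_lit 20784, R8_375, R4_112, R13_433⟩, ⟨nat_lit 3, nat_lit 9504, nat_lit 9984, nat_lit 18912, nat_lit 9984, nat_lit 17136, R8_394, R5_208, R9_357⟩]⟩]⟩,
 ⟨nat_lit 2, [⟨nat_lit 2, [⟨nat_lit 0, nat_lit 8832, nat_lit 12192, nat_lit 11664, nat_lit 3936, nat_lit 20832, R5_243, R3_82, R13_434⟩, ⟨nat_lit 2, nat_lit 9168, nat_lit 12288, nat_lit 11760, nat_lit 9648, nat_lit 9312, R5_245, R10_201, R3_194⟩]⟩]⟩,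
 ⟨nat_lit 3, [⟨nat_lit 0, [⟨nat_lit 3, nat_lit 2544, nat_lit 10368, nat_lit 12720, nat_lit 12000, nat_lit 5040, R13_265, R11_250, R8_105⟩]⟩, ⟨nat_lit 2, [⟨nat_lit 3, nat_lit 9600, nat_lit 11232, nat_lit 9984, nat_lit 12048, nat_lit 17232, R9_208, R11_251, R9_359⟩]⟩, ⟨nat_lit 3, [⟨nat_lit 3, nat_lit 11520, nat_lit 10848, nat_lit 17856, nat_lit 12096, nat_lit 17328, R3_372, R11_252, R5_361⟩]⟩]⟩], [⟨nat_lit 0, [⟨nat_lit 0, [⟨nat_lit 3, nat_lit 3456, nat_lit 8160, nat_lit 15648, nat_lit 1248, nat_lit 4896, R6_326, R5_26, R4_102⟩]⟩, ⟨nat_lit 2, [⟨nat_lit 3, nat_lit 9888, nat_lit 8688, nat_lit 18816, nat_lit 9600, nat_lit 11040, R8_392, R5_200, R5_230⟩]⟩]⟩,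
 ⟨nat_lit 3, [⟨nat_lit 0, [⟨nat_lit 3, nat_lit 3504, nat_lit 8976, nat_lit 12336, nat_lit 12384, nat_lit 5424, R13_257, R11_258, R4_113⟩]⟩, ⟨nat_lit 2, [⟨nat_lit 3, nat_lit 9984, nat_lit 9792, nat_lit 9600, nat_lit 12432, nat_lit 11232, R9_200, R11_259, R5_234⟩]⟩]⟩]], [[], [], [], [], [], [], [], [⟨nat_lit 3, [⟨nat_lit 0, [⟨nat_lit 7, nat_lit 2928, nat_lit 12000, nat_lit 11904, nat_lit 7488, nat_lit 5280, R13_248, R12_156, R7_110⟩]⟩, ⟨nat_lit 3, [⟨nat_lit 7, nat_lit 12576, nat_lit 14688, nat_lit 14928, nat_lit 7536, nat_lit 20496, R3_311, R12_157, R14_427⟩]⟩]⟩]]], [[[⟨nat_lit 0, [⟨nat_lit 0, [⟨nat_lit 5, nat_lit 0, nat_lit 5712, nat_lit 17616, nat_lit 6048, nat_lit 7056, R8_367, R4_126, R6_147⟩]⟩, ⟨nat_lit 1, [⟨nat_lit 5, nat_lit 4368, nat_lit 5760, nat_lit 3600, nat_lit 6144, nat_lit 8832, R5_75, R4_128, R13_184⟩]⟩]⟩,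
 ⟨nat_lit 1, [⟨nat_lit 0, [⟨nat_lit 5, nat_lit 96, nat_lit 6336, nat_lit 1680, nat_lit 768, nat_lit 7200, R5_35, R3_16, R6_150⟩]⟩, ⟨nat_lit 1, [⟨nat_lit 5, nat_lit 4464, nat_lit 6384, nat_lit 1248, nat_lit 816, nat_lit 8976, R11_26, R3_17, R13_187⟩]⟩]⟩], [], [⟨nat_lit 0, [⟨nat_lit 0, [⟨nat_lit 1, nat_lit 480, nat_lit 1680, nat_lit 11040, nat_lit 6240, nat_lit 7680, R8_230, R7_130, R7_160⟩, ⟨nat_lit 5, nat_lit 240, nat_lit 1008, nat_lit 17760, nat_lit 6624, nat_lit 7728, R8_370, R4_138, R4_161⟩]⟩, ⟨nat_lit 1, [⟨nat_lit 5, nat_lit 5376, nat_lit 1056, nat_lit 3744, nat_lit 6672, nat_lit 7152, R5_78, R4_139, R3_149⟩]⟩]⟩,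
 ⟨nat_lit 1, [⟨nat_lit 0, [⟨nat_lit 5, nat_lit 336, nat_lit 6192, nat_lit 4128, nat_lit 6096, nat_lit 7872, R5_86, R3_127, R4_164⟩]⟩, ⟨nat_lit 1, [⟨nat_lit 5, nat_lit 5472, nat_lit 6240, nat_lit 4128, nat_lit 6144, nat_lit 7248, R11_86, R3_128, R3_151⟩]⟩]⟩]], [], [[], [], [⟨nat_lit 0, [⟨nat_lit 0, [⟨nat_lit 1, nat_lit 528, nat_lit 10416, nat_lit 11616, nat_lit 19968, nat_lit 7728, R8_242, R14_416, R7_161⟩]⟩]⟩,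
 ⟨nat_lit 1, [⟨nat_lit 0, [⟨nat_lit 1, nat_lit 624, nat_lit 10560, nat_lit 3072, nat_lit 15744, nat_lit 7968, R5_64, R12_328, R7_166⟩]⟩]⟩,
 ⟨nat_lit 3, [⟨nat_lit 0, [⟨nat_lit 1, nat_lit 720, nat_lit 10704, nat_lit 3168, nat_lit 7584, nat_lit 7824, R9_66, R12_158, R7_163⟩]⟩]⟩]], [[⟨nat_lit 0, [⟨nat_lit 0, [⟨nat_lit 5, nat_lit 48, nat_lit 8112, nat_lit 18336, nat_lit 9312, nat_lit 7104, R8_382, R5_194, R6_148⟩]⟩, ⟨nat_lit 1, [⟨nat_lit 5, nat_lit 4416, nat_lit 10224, nat_lit 11808, nat_lit 11520, nat_lit 8880, R5_246, R5_240, R13_185⟩]⟩]⟩,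
 ⟨nat_lit 3, [⟨nat_lit 0, [⟨nat_lit 5, nat_lit 192, nat_lit 8400, nat_lit 2064, nat_lit 2208, nat_lit 7152, R9_43, R11_46, R6_149⟩]⟩]⟩], [], [], [⟨nat_lit 0, [⟨nat_lit 0, [⟨nat_lit 5, nat_lit 1152, nat_lit 13440, nat_lit 18480, nat_lit 9696, nat_lit 6672, R8_385, R5_202, R8_139⟩]⟩, ⟨nat_lit 1, [⟨nat_lit 5, nat_lit 7008, nat_lit 13488, nat_lit 11952, nat_lit 11952, nat_lit 6768, R5_249, R5_249, R9_141⟩]⟩]⟩,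
 ⟨nat_lit 3, [⟨nat_lit 0, [⟨nat_lit 5, nat_lit 1296, nat_lit 13632, nat_lit 2736, nat_lit 2400, nat_lit 6720, R9_57, R11_50, R8_140⟩]⟩]⟩]], [], [], [[], [], [], [], [⟨nat_lit 0, [⟨nat_lit 0, [⟨nat_lit 3, nat_lit 2016, nat_lit 8256, nat_lit 9024, nat_lit 2208, nat_lit 16848, R8_188, R5_46, R6_351⟩]⟩, ⟨nat_lit 2, [⟨nat_lit 0, nat_lit 8160, nat_lit 1248, nat_lit 17712, nat_lit 4896, nat_lit 15648, R9_369, R4_102, R6_326⟩, ⟨nat_lit 3, nat_lit 8688, nat_lit 9600, nat_lit 17952, nat_lit 11040, nat_lit 18816, R9_374, R5_230, R8_392⟩]⟩]⟩,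
 ⟨nat_lit 3, [⟨nat_lit 0, [⟨nat_lit 3, nat_lit 2064, nat_lit 8400, nat_lit 192, nat_lit 11760, nat_lit 16896, R9_4, R11_245, R6_352⟩]⟩]⟩], [], [⟨nat_lit 0, [⟨nat_lit 0, [⟨nat_lit 0, nat_lit 2208, nat_lit 10944, nat_lit 4272, nat_lit 192, nat_lit 9456, R8_89, R4_4, R6_197⟩, ⟨nat_lit 3, nat_lit 2688, nat_lit 10992, nat_lit 9120, nat_lit 2400, nat_lit 6336, R8_190, R5_50, R8_132⟩]⟩, ⟨nat_lit 2, [⟨nat_lit 0, nat_lit 8976, nat_lit 12384, nat_lit 17808, nat_lit 5424, nat_lit 20976, R9_371, R4_113, R13_437⟩, ⟨nat_lit 3, nat_lit 9792, nat_lit 12432, nat_lit 18144, nat_lit 11232, nat_lit 17424, R9_378, R5_234, R9_363⟩]⟩]⟩,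
 ⟨nat_lit 3, [⟨nat_lit 0, [⟨nat_lit 3, nat_lit 2736, nat_lit 13632, nat_lit 1296, nat_lit 12144, nat_lit 6720, R9_27, R11_253, R8_140⟩]⟩]⟩]], [[], [], [], [], [], [], [], [⟨nat_lit 3, [⟨nat_lit 0, [⟨nat_lit 7, nat_lit 3168, nat_lit 10704, nat_lit 720, nat_lit 7584, nat_lit 7824, R9_15, R12_158, R7_163⟩]⟩]⟩]]], [[], [], [], [], [[], [], [], [], [⟨nat_lit 3, [⟨nat_lit 3, [⟨nat_lit 7, nat_lit 11184, nat_lit 14496, nat_lit 8928, nat_lit 8016, nat_lit 16848, R10_186, R2_167, R7_351⟩]⟩]⟩,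
 ⟨nat_lit 4, [⟨nat_lit 4, [⟨nat_lit 6, nat_lit 13104, nat_lit 15456, nat_lit 4848, nat_lit 17904, nat_lit 15456, R4_101, R8_373, R6_322⟩]⟩, ⟨nat_lit 7, [⟨nat_lit 4, nat_lit 15984, nat_lit 12336, nat_lit 960, nat_lit 15024, nat_lit 14928, R5_20, R6_313, R6_311⟩, ⟨nat_lit 6, nat_lit 16272, nat_lit 16128, nat_lit 9216, nat_lit 18720, nat_lit 17040, R5_192, R8_390, R8_355⟩]⟩]⟩,
 ⟨nat_lit 6, [⟨nat_lit 4, [⟨nat_lit 6, nat_lit 13248, nat_lit 15600, nat_lit 336, nat_lit 9408, nat_lit 15504, R3_7, R5_196, R6_323⟩]⟩, ⟨nat_lit 6, [⟨nat_lit 6, nat_lit 15360, nat_lit 16656, nat_lit 9456, nat_lit 9504, nat_lit 14736, R10_197, R5_198, R4_307⟩]⟩, ⟨nat_lit 7, [⟨nat_lit 6, nat_lit 16416, nat_lit 16416, nat_lit 7632, nat_lit 9456, nat_lit 17088, R0_159, R5_197, R8_356⟩]⟩]⟩,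
 ⟨nat_lit 7, [⟨nat_lit 3, [⟨nat_lit 7, nat_lit 11040, nat_lit 14448, nat_lit 8016, nat_lit 16224, nat_lit 16896, R1_167, R3_338, R7_352⟩]⟩, ⟨nat_lit 7, [⟨nat_lit 4, nat_lit 16128, nat_lit 12480, nat_lit 11616, nat_lit 10800, nat_lit 14976, R11_242, R13_225, R6_312⟩, ⟨nat_lit 6, nat_lit 16560, nat_lit 16272, nat_lit 11664, nat_lit 8496, nat_lit 17136, R11_243, R9_177, R8_357⟩, ⟨nat_lit 7, nat_lit 16656, nat_lit 14256, nat_lit 11712, nat_lit 16560, nat_lit 14448, R11_244, R3_345, R4_301⟩]⟩]⟩], [⟨nat_lit 4, [⟨nat_lit 4, [⟨nat_lit 4, nat_lit 13488, nat_lit 8496, nat_lit 144, nat_lit 16608, nat_lit 9360, R4_3, R6_346, R6_195⟩, ⟨nat_lit 6, nat_lit 13728, nat_lit 9936, nat_lit 5376, nat_lit 18000, nat_lit 20784, R4_112, R8_375, R13_433⟩]⟩, ⟨nat_lit 7, [⟨nat_lit 4, nat_lit 16848, nat_lit 8544, nat_lit 1536, nat_lit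 16944, nat_lit 4608, R5_32, R6_353, R8_96⟩, ⟨nat_lit 6, nat_lit 17136, nat_lit 9984, nat_lit 9984, nat_lit 18912, nat_lit 17136, R5_208, R8_394, R9_357⟩]⟩]⟩,
 ⟨nat_lit 6, [⟨nat_lit 4, [⟨nat_lit 6, nat_lit 13872, nat_lit 12192, nat_lit 3936, nat_lit 11664, nat_lit 20832, R3_82, R5_243, R13_434⟩]⟩, ⟨nat_lit 6, [⟨nat_lit 6, nat_lit 15648, nat_lit 12288, nat_lit 9648, nat_lit 11760, nat_lit 9312, R10_201, R5_245, R3_194⟩]⟩, ⟨nat_lit 7, [⟨nat_lit 6, nat_lit 17280, nat_lit 12240, nat_lit 7776, nat_lit 11712, nat_lit 17184, R0_162, R5_244, R9_358⟩]⟩]⟩,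
 ⟨nat_lit 7, [⟨nat_lit 7, [⟨nat_lit 4, nat_lit 16992, nat_lit 10368, nat_lit 12000, nat_lit 12720, nat_lit 5040, R11_250, R13_265, R8_105⟩, ⟨nat_lit 6, nat_lit 17424, nat_lit 11232, nat_lit 12048, nat_lit 9984, nat_lit 17232, R11_251, R9_208, R9_359⟩, ⟨nat_lit 7, nat_lit 17568, nat_lit 10848, nat_lit 12096, nat_lit 17856, nat_lit 17328, R11_252, R3_372, R5_361⟩]⟩]⟩], [], [⟨nat_lit 3, [⟨nat_lit 0, [⟨nat_lit 7, nat_lit 2976, nat_lit 7728, nat_lit 1920, nat_lit 10032, nat_lit 6336, R3_40, R2_209, R7_132⟩]⟩, ⟨nat_lit 3, [⟨nat_lit 7, nat_lit 12720, nat_lit 7776, nat_lit 10512, nat_lit 10080, nat_lit 20640, R10_219, R2_210, R14_430⟩]⟩]⟩,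
 ⟨nat_lit 4, [⟨nat_lit 7, [⟨nat_lit 4, nat_lit 17712, nat_lit 8160, nat_lit 1248, nat_lit 15648, nat_lit 4896, R5_26, R6_326, R4_102⟩, ⟨nat_lit 6, nat_lit 17952, nat_lit 8688, nat_lit 9600, nat_lit 18816, nat_lit 11040, R5_200, R8_392, R5_230⟩]⟩]⟩,
 ⟨nat_lit 6, [⟨nat_lit 7, [⟨nat_lit 6, nat_lit 18048, nat_lit 10032, nat_lit 7920, nat_lit 11088, nat_lit 11136, R0_165, R5_231, R5_232⟩]⟩]⟩,
 ⟨nat_lit 7, [⟨nat_lit 3, [⟨nat_lit 4, nat_lit 11952, nat_lit 9024, nat_lit 9072, nat_lit 12384, nat_lit 5328, R1_189, R13_258, R7_111⟩, ⟨nat_lit 7, nat_lit 12624, nat_lit 9360, nat_lit 9120, nat_lit 17040, nat_lit 20592, R1_190, R3_355, R14_429⟩]⟩, ⟨nat_lit 7, [⟨nat_lit 4, nat_lit 17808, nat_lit 8976, nat_lit 12384, nat_lit 12336, nat_lit 5424, R11_258, R13_257, R4_113⟩, ⟨nat_lit 6, nat_lit 18144, nat_lit 9792, nat_lit 12432,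 nat_lit 9600, nat_lit 11232, R11_259, R9_200, R5_234⟩]⟩]⟩]], [[], [], [], [], [⟨nat_lit 4, [⟨nat_lit 4, [⟨nat_lit 6, nat_lit 13200, nat_lit 1248, nat_lit 4896, nat_lit 17712, nat_lit 15648, R4_102, R9_369, R6_326⟩]⟩, ⟨nat_lit 7, [⟨nat_lit 4, nat_lit 16080, nat_lit 8256, nat_lit 2208, nat_lit 9024, nat_lit 16848, R5_46, R8_188, R6_351⟩, ⟨nat_lit 6, nat_lit 16368, nat_lit 9600, nat_lit 11040, nat_lit 17952, nat_lit 17328, R5_230, R9_374, R8_361⟩]⟩]⟩,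
 ⟨nat_lit 6, [⟨nat_lit 4, [⟨nat_lit 6, nat_lit 13344, nat_lit 1392, nat_lit 480, nat_lit 1920, nat_lit 15696, R3_10, R0_40, R6_327⟩]⟩, ⟨nat_lit 6, [⟨nat_lit 6, nat_lit 15456, nat_lit 13296, nat_lit 9504, nat_lit 6960, nat_lit 14832, R10_198, R0_145, R4_309⟩]⟩, ⟨nat_lit 7, [⟨nat_lit 6, nat_lit 16512, nat_lit 9840, nat_lit 7680, nat_lit 9024, nat_lit 17376, R0_160, R0_188, R8_362⟩]⟩]⟩,
 ⟨nat_lit 7, [⟨nat_lit 3, [⟨nat_lit 7, nat_lit 11136, nat_lit 16368, nat_lit 8304, nat_lit 12288, nat_lit 17136, R1_173, R0_256, R7_357⟩]⟩, ⟨nat_lit 7, [⟨nat_lit 4, nat_lit 16224, nat_lit 8400, nat_lit 11760, nat_lit 192, nat_lit 16896, R11_245, R9_4, R6_352⟩, ⟨nat_lit 7, nat_lit 16752, nat_lit 8976, nat_lit 11808, nat_lit 2352, nat_lit 15360, R11_246, R0_49, R4_320⟩]⟩]⟩], [⟨nat_lit 4, [⟨nat_lit 4, [⟨nat_lit 4, nat_lit 13584, nat_lit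 10944, nat_lit 192, nat_lit 4272, nat_lit 9456, R4_4, R8_89, R6_197⟩, ⟨nat_lit 6, nat_lit 13824, nat_lit 12384, nat_lit 5424, nat_lit 17808, nat_lit 20976, R4_113, R9_371, R13_437⟩]⟩, ⟨nat_lit 7, [⟨nat_lit 4, nat_lit 16944, nat_lit 10992, nat_lit 2400, nat_lit 9120, nat_lit 6336, R5_50, R8_190, R8_132⟩, ⟨nat_lit 6, nat_lit 17232, nat_lit 12432, nat_lit 11232, nat_lit 18144, nat_lit 17424, R5_234, R9_378, R9_363⟩]⟩]⟩,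
 ⟨nat_lit 6, [⟨nat_lit 4, [⟨nat_lit 6, nat_lit 13968, nat_lit 15168, nat_lit 4080, nat_lit 1968, nat_lit 21024, R3_85, R0_41, R13_438⟩]⟩, ⟨nat_lit 6, [⟨nat_lit 6, nat_lit 15744, nat_lit 15264, nat_lit 9696, nat_lit 7008, nat_lit 9408, R10_202, R0_146, R3_196⟩]⟩, ⟨nat_lit 7, [⟨nat_lit 6, nat_lit 17376, nat_lit 15216, nat_lit 7824, nat_lit 9120, nat_lit 17472, R0_163, R0_190, R9_364⟩]⟩]⟩,
 ⟨nat_lit 7, [⟨nat_lit 7, [⟨nat_lit 4, nat_lit 17088, nat_lit 13632, nat_lit 12144, nat_lit 1296, nat_lit 6720, R11_253, R9_27, R8_140⟩, ⟨nat_lit 7, nat_lit 17664, nat_lit 14112, nat_lit 12192, nat_lit 4032, nat_lit 17424, R11_254, R0_84, R5_363⟩]⟩]⟩], [], [⟨nat_lit 4, [⟨nat_lit 7, [⟨nat_lit 4, nat_lit 17760, nat_lit 7392, nat_lit 2304, nat_lit 9072, nat_lit 7536, R5_48, R8_189, R4_157⟩, ⟨nat_lit 6, nat_lit 18000, nat_lit 7920,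 nat_lit 11136, nat_lit 18048, nat_lit 11088, R5_232, R9_376, R5_231⟩]⟩]⟩,
 ⟨nat_lit 6, [⟨nat_lit 7, [⟨nat_lit 6, nat_lit 18096, nat_lit 9168, nat_lit 7968, nat_lit 9072, nat_lit 11184, R0_166, R0_189, R5_233⟩]⟩]⟩,
 ⟨nat_lit 7, [⟨nat_lit 3, [⟨nat_lit 4, nat_lit 12000, nat_lit 8544, nat_lit 9792, nat_lit 768, nat_lit 7872, R1_204, R9_16, R7_164⟩, ⟨nat_lit 7, nat_lit 12672, nat_lit 8880, nat_lit 9840, nat_lit 13008, nat_lit 20736, R1_205, R0_271, R14_432⟩]⟩, ⟨nat_lit 7, [⟨nat_lit 4, nat_lit 17856, nat_lit 8496, nat_lit 12480, nat_lit 432, nat_lit 7824, R11_260, R9_9, R4_163⟩]⟩]⟩]], [[], [], [], [], [⟨nat_lit 0, [⟨nat_lit 0, [⟨nat_lit 3, nat_lit 1920, nat_lit 13152, nat_lit 5040, nat_lit 3312, nat_lit 15552, R4_105, R5_69, R6_324⟩]⟩, ⟨nat_lit 2, [⟨nat_lit 0, nat_lit 8064, nat_lit 16032, nat_lit 3312, nat_lit 5040,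 nat_lit 15552, R5_69, R4_105, R6_324⟩, ⟨nat_lit 3, nat_lit 8544, nat_lit 16320, nat_lit 11376, nat_lit 11376, nat_lit 17184, R5_237, R5_237, R8_358⟩]⟩]⟩,
 ⟨nat_lit 2, [⟨nat_lit 2, [⟨nat_lit 0, nat_lit 8112, nat_lit 16176, nat_lit 11856, nat_lit 528, nat_lit 15600, R11_247, R3_11, R6_325⟩, ⟨nat_lit 2, nat_lit 8304, nat_lit 16704, nat_lit 11952, nat_lit 9552, nat_lit 14784, R11_249, R10_199, R4_308⟩, ⟨nat_lit 3, nat_lit 8592, nat_lit 16608, nat_lit 11904, nat_lit 7728, nat_lit 17280, R11_248, R0_161, R8_360⟩]⟩, ⟨nat_lit 6, [⟨nat_lit 2, nat_lit 15552, nat_lit 11088, nat_lit 8544, nat_lit 9600, nat_lit 17040, R1_178, R10_200, R7_355⟩]⟩]⟩,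
 ⟨nat_lit 3, [⟨nat_lit 0, [⟨nat_lit 3, nat_lit 1968, nat_lit 13296, nat_lit 528, nat_lit 11856, nat_lit 15600, R3_11, R11_247, R6_325⟩]⟩, ⟨nat_lit 2, [⟨nat_lit 3, nat_lit 8640, nat_lit 16464, nat_lit 7728, nat_lit 11904, nat_lit 17232, R0_161, R11_248, R8_359⟩]⟩, ⟨nat_lit 3, [⟨nat_lit 3, nat_lit 11424, nat_lit 15408, nat_lit 9552, nat_lit 11952, nat_lit 14784, R10_199, R11_249, R4_308⟩, ⟨nat_lit 7, nat_lit 11232, nat_lit 15504, nat_lit 9600, nat_lit 8544, nat_lit 16992, R10_200, R1_178, R7_354⟩]⟩]⟩,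
 ⟨nat_lit 4, [⟨nat_lit 4, [⟨nat_lit 6, nat_lit 13152, nat_lit 1920, nat_lit 5040, nat_lit 3312, nat_lit 15552, R4_105, R5_69, R6_324⟩]⟩, ⟨nat_lit 7, [⟨nat_lit 4, nat_lit 16032, nat_lit 8064, nat_lit 3312, nat_lit 5040, nat_lit 15552, R5_69, R4_105, R6_324⟩, ⟨nat_lit 6, nat_lit 16320, nat_lit 8544, nat_lit 11376, nat_lit 11376, nat_lit 17184, R5_237, R5_237, R8_358⟩]⟩]⟩,
 ⟨nat_lit 6, [⟨nat_lit 4, [⟨nat_lit 6, nat_lit 13296, nat_lit 1968, nat_lit 528, nat_lit 11856, nat_lit 15600, R3_11, R11_247, R6_325⟩]⟩, ⟨nat_lit 6, [⟨nat_lit 2, nat_lit 15504, nat_lit 11232, nat_lit 9600, nat_lit 8544, nat_lit 16992, R10_200, R1_178, R7_354⟩, ⟨nat_lit 6, nat_lit 15408, nat_lit 11424, nat_lit 9552, nat_lit 11952, nat_lit 14784, R10_199, R11_249, R4_308⟩]⟩, ⟨nat_lit 7, [⟨nat_lit 6, nat_lit 16464, nat_lit 8640, nat_lit 7728, nat_lit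 11904, nat_lit 17232, R0_161, R11_248, R8_359⟩]⟩]⟩,
 ⟨nat_lit 7, [⟨nat_lit 3, [⟨nat_lit 7, nat_lit 11088, nat_lit 15552, nat_lit 8544, nat_lit 9600, nat_lit 17040, R1_178, R10_200, R7_355⟩]⟩, ⟨nat_lit 7, [⟨nat_lit 4, nat_lit 16176, nat_lit 8112, nat_lit 11856, nat_lit 528, nat_lit 15600, R11_247, R3_11, R6_325⟩, ⟨nat_lit 6, nat_lit 16608, nat_lit 8592, nat_lit 11904, nat_lit 7728, nat_lit 17280, R11_248, R0_161, R8_360⟩, ⟨nat_lit 7, nat_lit 16704, nat_lit 8304, nat_lit 11952, nat_lit 9552, nat_lit 14784, R11_249, R10_199, R4_308⟩]⟩]⟩], [⟨nat_lit 2, [⟨nat_lit 6, [⟨nat_lit 2, nat_lit 15840, nat_lit 9600, nat_lit 8592, nat_lit 9840, nat_lit 15264, R1_179, R10_205, R2_318⟩]⟩]⟩,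
 ⟨nat_lit 4, [⟨nat_lit 4, [⟨nat_lit 4, nat_lit 13536, nat_lit 48, nat_lit 288, nat_lit 2160, nat_lit 9408, R4_6, R4_45, R6_196⟩, ⟨nat_lit 6, nat_lit 13776, nat_lit 240, nat_lit 5520, nat_lit 3504, nat_lit 20880, R4_115, R5_73, R13_435⟩]⟩, ⟨nat_lit 7, [⟨nat_lit 4, nat_lit 16896, nat_lit 7296, nat_lit 3888, nat_lit 7680, nat_lit 5376, R5_81, R4_160, R8_112⟩, ⟨nat_lit 6, nat_lit 17184, nat_lit 7776, nat_lit 12240, nat_lit 11712, nat_lit 17280, R5_255, R5_244, R9_360⟩]⟩]⟩,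
 ⟨nat_lit 6, [⟨nat_lit 4, [⟨nat_lit 6, nat_lit 13920, nat_lit 288, nat_lit 4128, nat_lit 14640, nat_lit 20928, R3_86, R11_305, R13_436⟩]⟩, ⟨nat_lit 6, [⟨nat_lit 2, nat_lit 15792, nat_lit 9744, nat_lit 9792, nat_lit 8640, nat_lit 15216, R10_204, R1_180, R2_317⟩, ⟨nat_lit 6, nat_lit 15696, nat_lit 9936, nat_lit 9744, nat_lit 14736, nat_lit 9360, R10_203, R11_307, R3_195⟩]⟩, ⟨nat_lit 7, [⟨nat_lit 6, nat_lit 17328, nat_lit 7872, nat_lit 7872, nat_lit 14688, nat_lit 17328, R0_164, R11_306, R9_361⟩]⟩]⟩,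
 ⟨nat_lit 7, [⟨nat_lit 7, [⟨nat_lit 4, nat_lit 17040, nat_lit 7344, nat_lit 12240, nat_lit 2640, nat_lit 5904, R11_255, R3_55, R8_123⟩, ⟨nat_lit 6, nat_lit 17472, nat_lit 7824, nat_lit 12288, nat_lit 9120, nat_lit 17376, R11_256, R0_190, R9_362⟩, ⟨nat_lit 7, nat_lit 17616, nat_lit 7536, nat_lit 12336, nat_lit 11904, nat_lit 17376, R11_257, R10_248, R5_362⟩]⟩]⟩], [⟨nat_lit 0, [⟨nat_lit 0, [⟨nat_lit 0, nat_lit 2160, nat_lit 48, nat_lit 2160, nat_lit 288, nat_lit 9408, R4_45, R4_6, R6_196⟩, ⟨nat_lit 3, nat_lit 2592, nat_lit 7296, nat_lit 7680, nat_lit 3888, nat_lit 5376, R4_160, R5_81, R8_112⟩]⟩, ⟨nat_lit 2, [⟨nat_lit 0, nat_lit 8880, nat_lit 240, nat_lit 3504, nat_lit 5520, nat_lit 20880, R5_73, R4_115, R13_435⟩, ⟨nat_lit 3, nat_lit 9648, nat_lit 7776, nat_lit 11712, nat_lit 12240, nat_lit 17280, R5_244, R5_255,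 R9_360⟩]⟩]⟩,
 ⟨nat_lit 2, [⟨nat_lit 2, [⟨nat_lit 0, nat_lit 8928, nat_lit 288, nat_lit 14640, nat_lit 4128, nat_lit 20928, R11_305, R3_86, R13_436⟩, ⟨nat_lit 2, nat_lit 9216, nat_lit 9936, nat_lit 14736, nat_lit 9744, nat_lit 9360, R11_307, R10_203, R3_195⟩, ⟨nat_lit 3, nat_lit 9696, nat_lit 7872, nat_lit 14688, nat_lit 7872, nat_lit 17328, R11_306, R0_164, R9_361⟩]⟩, ⟨nat_lit 6, [⟨nat_lit 2, nat_lit 15936, nat_lit 9744, nat_lit 8640, nat_lit 9792, nat_lit 15216, R1_180, R10_204, R2_317⟩]⟩]⟩,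
 ⟨nat_lit 3, [⟨nat_lit 0, [⟨nat_lit 3, nat_lit 2640, nat_lit 7344, nat_lit 2640, nat_lit 12240, nat_lit 5904, R3_55, R11_255, R8_123⟩]⟩, ⟨nat_lit 2, [⟨nat_lit 3, nat_lit 9744, nat_lit 7824, nat_lit 9120, nat_lit 12288, nat_lit 17376, R0_190, R11_256, R9_362⟩]⟩, ⟨nat_lit 3, [⟨nat_lit 3, nat_lit 11568, nat_lit 7536, nat_lit 11904, nat_lit 12336, nat_lit 17376, R10_248, R11_257, R5_362⟩]⟩]⟩,
 ⟨nat_lit 6, [⟨nat_lit 6, [⟨nat_lit 2, nat_lit 15888, nat_lit 9600, nat_lit 9840, nat_lit 8592, nat_lit 15264, R10_205, R1_179, R2_318⟩]⟩]⟩]], [[], [], [], [], [], [], [], [⟨nat_lit 3, [⟨nat_lit 0, [⟨nat_lit 7, nat_lit 3024, nat_lit 13056, nat_lit 1968, nat_lit 7680, nat_lit 6384, R3_41, R12_160, R7_133⟩]⟩, ⟨nat_lit 3, [⟨nat_lit 4, nat_lit 12096, nat_lit 11376, nat_lit 11136, nat_lit 480, nat_lit 7440, R10_232, R2_10, R7_155⟩,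 ⟨nat_lit 7, nat_lit 12768, nat_lit 13152, nat_lit 11184, nat_lit 7728, nat_lit 20688, R10_233, R12_161, R14_431⟩]⟩]⟩,
 ⟨nat_lit 7, [⟨nat_lit 3, [⟨nat_lit 4, nat_lit 12048, nat_lit 11760, nat_lit 10560, nat_lit 12672, nat_lit 6864, R1_220, R3_264, R7_143⟩]⟩, ⟨nat_lit 7, [⟨nat_lit 4, nat_lit 17904, nat_lit 11952, nat_lit 12528, nat_lit 4704, nat_lit 7152, R11_261, R3_98, R4_149⟩, ⟨nat_lit 6, nat_lit 18192, nat_lit 14832, nat_lit 12576, nat_lit 15024, nat_lit 11280, R11_262, R0_313, R5_235⟩]⟩]⟩]]], [[], [], [], [], [[], [], [], [⟨nat_lit 3, [⟨nat_lit 0, [⟨nat_lit 7, nat_lit 1728, nat_lit 7248, nat_lit 13776, nat_lit 7152, nat_lit 10176, R3_287, R2_149, R4_212⟩]⟩, ⟨nat_lit 1, [⟨nat_lit 7, nat_lit 7632, nat_lit 7296, nat_lit 1824, nat_lit 7200, nat_lit 6624, R10_38, R2_150, R5_138⟩]⟩]⟩,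
 ⟨nat_lit 7, [⟨nat_lit 0, [⟨nat_lit 4, nat_lit 912, nat_lit 8448, nat_lit 1584, nat_lit 9936, nat_lit 8016, R2_33, R13_207, R6_167⟩, ⟨nat_lit 5, nat_lit 1344, nat_lit 9216, nat_lit 2544, nat_lit 7776, nat_lit 6528, R2_53, R3_162, R8_136⟩, ⟨nat_lit 7, nat_lit 1632, nat_lit 9792, nat_lit 2160, nat_lit 12912, nat_lit 8448, R2_45, R3_269, R4_176⟩]⟩, ⟨nat_lit 1, [⟨nat_lit 4, nat_lit 6336, nat_lit 8544, nat_lit 1056, nat_lit 10032, nat_lit 6432, R1_22, R13_209, R8_134⟩, ⟨nat_lit 5, nat_lit 7200, nat_lit 9312, nat_lit 2016, nat_lit 7872, nat_lit 6624, R1_42, R3_164, R9_138⟩, ⟨nat_lit 7, nat_lit 7536, nat_lit 9840, nat_lit 1632, nat_lit 13008, nat_lit 6720, R1_34, R3_271, R5_140⟩]⟩, ⟨nat_lit 3, [⟨nat_lit 4, nat_lit 10320, nat_lit 8496, nat_lit 7200, nat_lit 9984, nat_lit 9456, R12_150, R13_208, R4_197⟩, ⟨nat_lit 5,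 nat_lit 10656, nat_lit 9264, nat_lit 7248, nat_lit 7824, nat_lit 6576, R12_151, R3_163, R5_137⟩]⟩]⟩], [], [], [], [⟨nat_lit 3, [⟨nat_lit 0, [⟨nat_lit 7, nat_lit 3360, nat_lit 12816, nat_lit 12528, nat_lit 9744, nat_lit 6816, R3_261, R2_203, R7_142⟩]⟩]⟩,
 ⟨nat_lit 7, [⟨nat_lit 0, [⟨nat_lit 7, nat_lit 3216, nat_lit 14400, nat_lit 384, nat_lit 14496, nat_lit 7392, R2_8, R3_302, R7_154⟩]⟩, ⟨nat_lit 3, [⟨nat_lit 4, nat_lit 12192, nat_lit 12000, nat_lit 7488, nat_lit 11904, nat_lit 5280, R12_156, R13_248, R7_110⟩, ⟨nat_lit 7, nat_lit 12960, nat_lit 14688, nat_lit 7536, nat_lit 14928, nat_lit 20784, R12_157, R3_311, R14_433⟩]⟩]⟩]], [[], [], [], [⟨nat_lit 7, [⟨nat_lit 0, [⟨nat_lit 4, nat_lit 960, nat_lit 9264, nat_lit 1680, nat_lit 2304, nat_lit 8112, R2_35, R9_48, R6_169⟩, ⟨nat_lit 5, nat_lit 1392, nat_lit 10032, nat_lit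 2640, nat_lit 768, nat_lit 6624, R2_55, R0_16, R8_138⟩, ⟨nat_lit 7, nat_lit 1680, nat_lit 10608, nat_lit 2208, nat_lit 11568, nat_lit 8496, R2_46, R0_241, R4_177⟩]⟩, ⟨nat_lit 1, [⟨nat_lit 4, nat_lit 6384, nat_lit 9360, nat_lit 1152, nat_lit 2784, nat_lit 6768, R1_24, R9_58, R8_141⟩, ⟨nat_lit 5, nat_lit 7248, nat_lit 10128, nat_lit 2112, nat_lit 1248, nat_lit 6720, R1_44, R0_26, R9_140⟩, ⟨nat_lit 7, nat_lit 7584, nat_lit 10656, nat_lit 1680, nat_lit 14400, nat_lit 6768, R1_35, R0_300, R5_141⟩]⟩, ⟨nat_lit 3, [⟨nat_lit 4, nat_lit 10368, nat_lit 9312, nat_lit 7296, nat_lit 2448, nat_lit 10464, R12_152, R9_51, R4_218⟩, ⟨nat_lit 5, nat_lit 10704, nat_lit 10080, nat_lit 7344, nat_lit 912, nat_lit 6816, R12_153, R0_19, R5_142⟩]⟩]⟩], [], [], [], [⟨nat_lit 7, [⟨nat_lit 0, [⟨nat_lit 7, nat_lit 3312, nat_lit 11376, nat_lit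 432, nat_lit 11328, nat_lit 7488, R2_9, R0_236, R7_156⟩]⟩, ⟨nat_lit 3, [⟨nat_lit 4, nat_lit 12288, nat_lit 10704, nat_lit 7584, nat_lit 720, nat_lit 7824, R12_158, R9_15, R7_163⟩, ⟨nat_lit 7, nat_lit 13056, nat_lit 11424, nat_lit 7632, nat_lit 12960, nat_lit 20880, R12_159, R0_270, R14_435⟩]⟩]⟩]], [[], [], [], [], [], [], [], [⟨nat_lit 3, [⟨nat_lit 0, [⟨nat_lit 3, nat_lit 3648, nat_lit 11952, nat_lit 4704, nat_lit 12528, nat_lit 7152, R3_98, R11_261, R4_149⟩, ⟨nat_lit 7, nat_lit 3408, nat_lit 11760, nat_lit 12672, nat_lit 10560, nat_lit 6864, R3_264, R1_220, R7_143⟩]⟩, ⟨nat_lit 2, [⟨nat_lit 3, nat_lit 10128, nat_lit 14832, nat_lit 15024, nat_lit 12576, nat_lit 11280, R0_313, R11_262, R5_235⟩]⟩]⟩,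
 ⟨nat_lit 7, [⟨nat_lit 0, [⟨nat_lit 7, nat_lit 3264, nat_lit 11376, nat_lit 480, nat_lit 11136, nat_lit 7440, R2_10, R10_232, R7_155⟩]⟩, ⟨nat_lit 3, [⟨nat_lit 4, nat_lit 12240, nat_lit 13056, nat_lit 7680, nat_lit 1968, nat_lit 6384, R12_160, R3_41, R7_133⟩, ⟨nat_lit 7, nat_lit 13008, nat_lit 13152, nat_lit 7728, nat_lit 11184, nat_lit 20832, R12_161, R10_233, R14_434⟩]⟩]⟩]], [[], [], [], [⟨nat_lit 3, [⟨nat_lit 0, [⟨nat_lit 4, nat_lit 1056, nat_lit 8352, nat_lit 11808, nat_lit 1632, nat_lit 9312, R3_246, R2_34, R6_194⟩, ⟨nat_lit 5, nat_lit 1488, nat_lit 8400, nat_lit 16944, nat_lit 1104, nat_lit 6480, R3_353, R1_23, R8_135⟩, ⟨nat_lit 7, nat_lit 1776, nat_lit 8448, nat_lit 14160, nat_lit 7392, nat_lit 10224, R3_295, R12_154, R4_213⟩]⟩, ⟨nat_lit 1, [⟨nat_lit 4, nat_lit 6480, nat_lit 8496, nat_lit 1200, nat_lit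 2592, nat_lit 6576, R10_25, R2_54, R8_137⟩, ⟨nat_lit 5, nat_lit 7344, nat_lit 8544, nat_lit 2160, nat_lit 2064, nat_lit 6576, R10_45, R1_43, R9_137⟩, ⟨nat_lit 7, nat_lit 7680, nat_lit 8592, nat_lit 1872, nat_lit 7440, nat_lit 6672, R10_39, R12_155, R5_139⟩]⟩]⟩,
 ⟨nat_lit 7, [⟨nat_lit 0, [⟨nat_lit 4, nat_lit 1008, nat_lit 8064, nat_lit 1632, nat_lit 11808, nat_lit 8064, R2_34, R3_246, R6_168⟩, ⟨nat_lit 5, nat_lit 1440, nat_lit 8112, nat_lit 2592, nat_lit 1200, nat_lit 6576, R2_54, R10_25, R8_137⟩]⟩, ⟨nat_lit 1, [⟨nat_lit 4, nat_lit 6432, nat_lit 8160, nat_lit 1104, nat_lit 16944, nat_lit 6480, R1_23, R3_353, R8_135⟩, ⟨nat_lit 5, nat_lit 7296, nat_lit 8208, nat_lit 2064, nat_lit 2160, nat_lit 6672, R1_43, R10_45, R9_139⟩]⟩, ⟨nat_lit 3, [⟨nat_lit 4, nat_lit 10416, nat_lit 8256, nat_lit 7392, nat_lit 14160, nat_lit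 10224, R12_154, R3_295, R4_213⟩, ⟨nat_lit 5, nat_lit 10752, nat_lit 8304, nat_lit 7440, nat_lit 1872, nat_lit 6672, R12_155, R10_39, R5_139⟩]⟩]⟩]]], [[], [[⟨nat_lit 5, [⟨nat_lit 1, [⟨nat_lit 5, nat_lit 4032, nat_lit 5904, nat_lit 1392, nat_lit 1872, nat_lit 9120, R3_29, R1_39, R13_190⟩]⟩]⟩], [⟨nat_lit 5, [⟨nat_lit 1, [⟨nat_lit 5, nat_lit 4944, nat_lit 4320, nat_lit 6576, nat_lit 2304, nat_lit 7200, R3_137, R1_48, R3_150⟩]⟩, ⟨nat_lit 5, [⟨nat_lit 5, nat_lit 14688, nat_lit 13008, nat_lit 13584, nat_lit 2160, nat_lit 6864, R2_283, R1_45, R2_143⟩]⟩]⟩], [], [⟨nat_lit 5, [⟨nat_lit 1, [⟨nat_lit 5, nat_lit 6528, nat_lit 9312, nat_lit 7872, nat_lit 2016, nat_lit 6960, R3_164, R1_42, R9_145⟩]⟩]⟩]], [], [], [], [[⟨nat_lit 4, [⟨nat_lit 1, [⟨nat_lit 4, nat_lit 3696, nat_lit 5712, nat_lit 6048, nat_lit 17616, nat_lit 7056,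 R4_126, R8_367, R6_147⟩, ⟨nat_lit 5, nat_lit 3936, nat_lit 5760, nat_lit 6144, nat_lit 3600, nat_lit 9072, R4_128, R5_75, R13_189⟩]⟩]⟩,
 ⟨nat_lit 5, [⟨nat_lit 1, [⟨nat_lit 4, nat_lit 3744, nat_lit 6336, nat_lit 768, nat_lit 1680, nat_lit 7200, R3_16, R5_35, R6_150⟩, ⟨nat_lit 5, nat_lit 3984, nat_lit 6384, nat_lit 816, nat_lit 1248, nat_lit 9168, R3_17, R11_26, R13_191⟩]⟩]⟩], [⟨nat_lit 4, [⟨nat_lit 1, [⟨nat_lit 4, nat_lit 4608, nat_lit 1008, nat_lit 6624, nat_lit 17760, nat_lit 7728, R4_138, R8_370, R4_161⟩, ⟨nat_lit 5, nat_lit 4848, nat_lit 1056, nat_lit 6672, nat_lit 3744, nat_lit 7152, R4_139, R5_78, R3_149⟩]⟩, ⟨nat_lit 5, [⟨nat_lit 4, nat_lit 14016, nat_lit 1680, nat_lit 6240, nat_lit 11040, nat_lit 7680, R7_130, R8_230, R7_160⟩, ⟨nat_lit 5, nat_lit 14592, nat_lit 1776, nat_lit 6432, nat_lit 2784, nat_lit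 6528, R7_134, R5_58, R2_136⟩, ⟨nat_lit 6, nat_lit 14352, nat_lit 1920, nat_lit 6336, nat_lit 2976, nat_lit 10032, R7_132, R9_62, R2_209⟩]⟩]⟩,
 ⟨nat_lit 5, [⟨nat_lit 1, [⟨nat_lit 4, nat_lit 4656, nat_lit 6192, nat_lit 6096, nat_lit 4128, nat_lit 7872, R3_127, R5_86, R4_164⟩, ⟨nat_lit 5, nat_lit 4896, nat_lit 6240, nat_lit 6144, nat_lit 4128, nat_lit 7248, R3_128, R11_86, R3_151⟩]⟩, ⟨nat_lit 5, [⟨nat_lit 4, nat_lit 14064, nat_lit 6624, nat_lit 4416, nat_lit 3024, nat_lit 7920, R2_92, R5_63, R7_165⟩, ⟨nat_lit 5, nat_lit 14640, nat_lit 6720, nat_lit 4608, nat_lit 3024, nat_lit 6768, R2_96, R11_63, R2_141⟩, ⟨nat_lit 6, nat_lit 14400, nat_lit 6864, nat_lit 4512, nat_lit 1440, nat_lit 10176, R2_94, R0_30, R2_212⟩]⟩]⟩,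
 ⟨nat_lit 7, [⟨nat_lit 5, [⟨nat_lit 4, nat_lit 14112, nat_lit 8208, nat_lit 8976, nat_lit 3072, nat_lit 7776, R2_187, R9_64, R7_162⟩, ⟨nat_lit 5, nat_lit 14736, nat_lit 8352, nat_lit 9552, nat_lit 1536, nat_lit 6624, R2_199, R0_32, R2_138⟩]⟩]⟩]]], [[[⟨nat_lit 1, [⟨nat_lit 1, [⟨nat_lit 5, nat_lit 4128, nat_lit 5904, nat_lit 1872, nat_lit 1392, nat_lit 9360, R1_39, R3_29, R13_195⟩]⟩]⟩], [], [⟨nat_lit 1, [⟨nat_lit 1, [⟨nat_lit 1, nat_lit 5616, nat_lit 13008, nat_lit 2160, nat_lit 13584, nat_lit 6864, R1_45, R2_283, R2_143⟩, ⟨nat_lit 5, nat_lit 5280, nat_lit 4320, nat_lit 2304, nat_lit 6576, nat_lit 7200, R1_48, R3_137, R3_150⟩]⟩]⟩], [⟨nat_lit 1, [⟨nat_lit 1, [⟨nat_lit 5, nat_lit 6624, nat_lit 9312, nat_lit 2016, nat_lit 7872, nat_lit 7200, R1_42, R3_164, R9_150⟩]⟩]⟩]], [[⟨nat_lit 1, [⟨nat_lit 1, [⟨nat_lit 5, nat_lit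 4176, nat_lit 16272, nat_lit 1920, nat_lit 16368, nat_lit 9408, R1_40, R10_341, R13_196⟩]⟩]⟩,
 ⟨nat_lit 5, [⟨nat_lit 1, [⟨nat_lit 5, nat_lit 4080, nat_lit 16320, nat_lit 16368, nat_lit 1920, nat_lit 9456, R10_341, R1_40, R13_197⟩]⟩]⟩], [⟨nat_lit 1, [⟨nat_lit 1, [⟨nat_lit 5, nat_lit 5040, nat_lit 13344, nat_lit 1968, nat_lit 18336, nat_lit 7440, R1_41, R10_382, R3_155⟩]⟩]⟩,
 ⟨nat_lit 5, [⟨nat_lit 1, [⟨nat_lit 5, nat_lit 4992, nat_lit 13392, nat_lit 17952, nat_lit 2352, nat_lit 7488, R10_374, R1_49, R3_156⟩]⟩, ⟨nat_lit 5, [⟨nat_lit 5, nat_lit 14976, nat_lit 12480, nat_lit 14928, nat_lit 2208, nat_lit 6960, R1_311, R1_46, R2_145⟩]⟩]⟩], [⟨nat_lit 1, [⟨nat_lit 1, [⟨nat_lit 1, nat_lit 5712, nat_lit 12480, nat_lit 2208, nat_lit 14928, nat_lit 6960, R1_46, R1_311, R2_145⟩, ⟨nat_lit 5, nat_lit 5328, nat_lit 13392, nat_lit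 2352, nat_lit 17952, nat_lit 7488, R1_49, R10_374, R3_156⟩]⟩]⟩,
 ⟨nat_lit 5, [⟨nat_lit 1, [⟨nat_lit 5, nat_lit 5232, nat_lit 13344, nat_lit 18336, nat_lit 1968, nat_lit 7440, R10_382, R1_41, R3_155⟩]⟩]⟩], [⟨nat_lit 1, [⟨nat_lit 1, [⟨nat_lit 5, nat_lit 6672, nat_lit 8208, nat_lit 2064, nat_lit 17280, nat_lit 7296, R1_43, R10_360, R9_152⟩]⟩]⟩,
 ⟨nat_lit 5, [⟨nat_lit 1, [⟨nat_lit 5, nat_lit 6576, nat_lit 8544, nat_lit 17280, nat_lit 2064, nat_lit 7344, R10_360, R1_43, R9_153⟩]⟩]⟩]], [[], [], [⟨nat_lit 1, [⟨nat_lit 1, [⟨nat_lit 1, nat_lit 5664, nat_lit 14352, nat_lit 2256, nat_lit 15360, nat_lit 6912, R1_47, R12_320, R2_144⟩]⟩]⟩]], [[], [], [], [⟨nat_lit 1, [⟨nat_lit 1, [⟨nat_lit 5, nat_lit 6720, nat_lit 10128, nat_lit 2112, nat_lit 1248, nat_lit 7248, R1_44, R0_26, R9_151⟩]⟩]⟩]]], [[], [[], [⟨nat_lit 5, [⟨nat_lit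 5, [⟨nat_lit 5, nat_lit 14880, nat_lit 14352, nat_lit 15360, nat_lit 2256, nat_lit 6912, R12_320, R1_47, R2_144⟩]⟩]⟩]], [], [], [], [[], [⟨nat_lit 4, [⟨nat_lit 5, [⟨nat_lit 4, nat_lit 14160, nat_lit 10416, nat_lit 19968, nat_lit 11616, nat_lit 7728, R14_416, R8_242, R7_161⟩, ⟨nat_lit 5, nat_lit 14784, nat_lit 10464, nat_lit 21264, nat_lit 14016, nat_lit 6576, R14_443, R5_292, R2_137⟩, ⟨nat_lit 6, nat_lit 14448, nat_lit 10512, nat_lit 20640, nat_lit 12720, nat_lit 10080, R14_430, R9_265, R2_210⟩]⟩]⟩,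
 ⟨nat_lit 5, [⟨nat_lit 5, [⟨nat_lit 4, nat_lit 14208, nat_lit 10560, nat_lit 15744, nat_lit 3072, nat_lit 7968, R12_328, R5_64, R7_166⟩, ⟨nat_lit 5, nat_lit 14832, nat_lit 10608, nat_lit 17040, nat_lit 3072, nat_lit 6816, R12_355, R11_64, R2_142⟩, ⟨nat_lit 6, nat_lit 14544, nat_lit 10656, nat_lit 16416, nat_lit 10896, nat_lit 10224, R12_342, R0_227, R2_213⟩]⟩]⟩,
 ⟨nat_lit 6, [⟨nat_lit 5, [⟨nat_lit 6, nat_lit 14496, nat_lit 10800, nat_lit 16176, nat_lit 10560, nat_lit 10128, R12_337, R0_220, R2_211⟩]⟩]⟩,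
 ⟨nat_lit 7, [⟨nat_lit 5, [⟨nat_lit 4, nat_lit 14256, nat_lit 10704, nat_lit 7584, nat_lit 3168, nat_lit 7824, R12_158, R9_66, R7_163⟩, ⟨nat_lit 5, nat_lit 14928, nat_lit 10752, nat_lit 9408, nat_lit 1632, nat_lit 6672, R12_196, R0_34, R2_139⟩]⟩]⟩], [], [], [], [⟨nat_lit 4, [⟨nat_lit 4, [⟨nat_lit 4, nat_lit 13392, nat_lit 8976, nat_lit 384, nat_lit 3792, nat_lit 9504, R7_8, R8_79, R6_198⟩, ⟨nat_lit 6, nat_lit 13632, nat_lit 9072, nat_lit 5328, nat_lit 11952, nat_lit 20688, R7_111, R9_249, R13_431⟩]⟩, ⟨nat_lit 5, [⟨nat_lit 4, nat_lit 15072, nat_lit 9024, nat_lit 19920, nat_lit 11760, nat_lit 10416, R14_415, R8_245, R4_217⟩, ⟨nat_lit 6, nat_lit 15216, nat_lit 9120, nat_lit 20592, nat_lit 12624, nat_lit 17040, R14_429, R9_263, R3_355⟩]⟩]⟩,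
 ⟨nat_lit 5, [⟨nat_lit 5, [⟨nat_lit 4, nat_lit 15120, nat_lit 9168, nat_lit 15696, nat_lit 672, nat_lit 10512, R12_327, R5_14, R4_219⟩, ⟨nat_lit 6, nat_lit 15312, nat_lit 9216, nat_lit 16368, nat_lit 10800, nat_lit 17136, R12_341, R0_225, R3_357⟩]⟩]⟩,
 ⟨nat_lit 6, [⟨nat_lit 4, [⟨nat_lit 6, nat_lit 13680, nat_lit 9456, nat_lit 3744, nat_lit 1344, nat_lit 20736, R2_78, R0_28, R13_432⟩]⟩, ⟨nat_lit 5, [⟨nat_lit 6, nat_lit 15264, nat_lit 9504, nat_lit 16224, nat_lit 10704, nat_lit 17088, R12_338, R0_223, R3_356⟩]⟩, ⟨nat_lit 6, [⟨nat_lit 6, nat_lit 15600, nat_lit 9552, nat_lit 3216, nat_lit 6480, nat_lit 9456, R1_67, R0_135, R3_197⟩]⟩]⟩,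
 ⟨nat_lit 7, [⟨nat_lit 4, [⟨nat_lit 4, nat_lit 13440, nat_lit 9264, nat_lit 1680, nat_lit 864, nat_lit 9552, R2_35, R9_18, R6_199⟩]⟩, ⟨nat_lit 5, [⟨nat_lit 4, nat_lit 15168, nat_lit 9312, nat_lit 7296, nat_lit 1584, nat_lit 10464, R12_152, R9_33, R4_218⟩]⟩, ⟨nat_lit 7, [⟨nat_lit 4, nat_lit 16800, nat_lit 9360, nat_lit 1152, nat_lit 1248, nat_lit 6768, R1_24, R9_26, R8_141⟩, ⟨nat_lit 7, nat_lit 17520, nat_lit 9408, nat_lit 6576, nat_lit 4224, nat_lit 17280, R1_137, R0_88, R5_360⟩]⟩]⟩]]], [[], [[], [], [], [⟨nat_lit 5, [⟨nat_lit 1, [⟨nat_lit 5, nat_lit 6864, nat_lit 10128, nat_lit 1248, nat_lit 2112, nat_lit 7104, R0_26, R1_44, R9_148⟩]⟩]⟩]], [], [], [], [[⟨nat_lit 4, [⟨nat_lit 1, [⟨nat_lit 4, nat_lit 3792, nat_lit 8112, nat_lit 9312, nat_lit 18336, nat_lit 7104, R5_194, R8_382, R6_148⟩, ⟨nat_lit 5, nat_lit 4224,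 nat_lit 10224, nat_lit 11520, nat_lit 11808, nat_lit 9216, R5_240, R5_246, R13_192⟩]⟩]⟩,
 ⟨nat_lit 5, [⟨nat_lit 1, [⟨nat_lit 4, nat_lit 3840, nat_lit 8640, nat_lit 960, nat_lit 1728, nat_lit 7248, R0_20, R5_36, R6_151⟩, ⟨nat_lit 5, nat_lit 4272, nat_lit 10416, nat_lit 1008, nat_lit 1296, nat_lit 9312, R0_21, R11_27, R13_194⟩]⟩]⟩,
 ⟨nat_lit 7, [⟨nat_lit 1, [⟨nat_lit 4, nat_lit 3888, nat_lit 8400, nat_lit 2208, nat_lit 2064, nat_lit 7152, R11_46, R9_43, R6_149⟩, ⟨nat_lit 5, nat_lit 4320, nat_lit 10320, nat_lit 2256, nat_lit 384, nat_lit 9264, R11_47, R0_8, R13_193⟩]⟩]⟩], [⟨nat_lit 4, [⟨nat_lit 1, [⟨nat_lit 4, nat_lit 4704, nat_lit 8304, nat_lit 10032, nat_lit 18624, nat_lit 7776, R5_209, R8_388, R4_162⟩, ⟨nat_lit 5, nat_lit 5088, nat_lit 8352, nat_lit 12336, nat_lit 12096, nat_lit 7296, R5_257, R5_252, R3_152⟩]⟩]⟩,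
 ⟨nat_lit 5, [⟨nat_lit 1, [⟨nat_lit 4, nat_lit 4752, nat_lit 8400, nat_lit 1056, nat_lit 4176, nat_lit 7920, R0_22, R5_87, R4_165⟩, ⟨nat_lit 5, nat_lit 5136, nat_lit 8448, nat_lit 1104, nat_lit 4176, nat_lit 7392, R0_23, R11_87, R3_154⟩]⟩]⟩,
 ⟨nat_lit 7, [⟨nat_lit 1, [⟨nat_lit 4, nat_lit 4800, nat_lit 8496, nat_lit 2304, nat_lit 3600, nat_lit 7824, R11_48, R9_75, R4_163⟩, ⟨nat_lit 5, nat_lit 5184, nat_lit 8592, nat_lit 2352, nat_lit 2064, nat_lit 7344, R11_49, R0_43, R3_153⟩]⟩, ⟨nat_lit 5, [⟨nat_lit 4, nat_lit 14304, nat_lit 8544, nat_lit 9792, nat_lit 3120, nat_lit 7872, R1_204, R9_65, R7_164⟩, ⟨nat_lit 5, nat_lit 15024, nat_lit 8640, nat_lit 10368, nat_lit 1584, nat_lit 6720, R1_216, R0_33, R2_140⟩]⟩]⟩], [], [⟨nat_lit 4, [⟨nat_lit 1, [⟨nat_lit 4, nat_lit 6096, nat_lit 13440, nat_lit 9696, nat_lit 18480, nat_lit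 6672, R5_202, R8_385, R8_139⟩, ⟨nat_lit 5, nat_lit 6768, nat_lit 13488, nat_lit 11952, nat_lit 11952, nat_lit 7008, R5_249, R5_249, R9_146⟩]⟩]⟩,
 ⟨nat_lit 5, [⟨nat_lit 1, [⟨nat_lit 4, nat_lit 6144, nat_lit 13536, nat_lit 1152, nat_lit 2496, nat_lit 6816, R0_24, R5_52, R8_142⟩, ⟨nat_lit 5, nat_lit 6816, nat_lit 13584, nat_lit 1200, nat_lit 2496, nat_lit 7152, R0_25, R11_52, R9_149⟩]⟩]⟩,
 ⟨nat_lit 7, [⟨nat_lit 1, [⟨nat_lit 4, nat_lit 6192, nat_lit 13632, nat_lit 2400, nat_lit 2736, nat_lit 6720, R11_50, R9_57, R8_140⟩, ⟨nat_lit 5, nat_lit 6912, nat_lit 13680, nat_lit 2496, nat_lit 1200, nat_lit 7056, R11_52, R0_25, R9_147⟩, ⟨nat_lit 7, nat_lit 7392, nat_lit 13728, nat_lit 2448, nat_lit 14688, nat_lit 6864, R11_51, R0_306, R5_143⟩]⟩]⟩]]]]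
noncomputable def N1353 : T3 (List N0) := [[], [], [], [[], [], [], [], [[], [], [], [⟨nat_lit 0, [⟨nat_lit 6, [⟨nat_lit 3, nat_lit 336, nat_lit 3936, nat_lit 12336, nat_lit 7680, nat_lit 13584, R2_257, R13_160, R1_283⟩]⟩]⟩,
 ⟨nat_lit 2, [⟨nat_lit 4, [⟨nat_lit 3, nat_lit 2160, nat_lit 6864, nat_lit 13008, nat_lit 5616, nat_lit 13584, R2_271, R9_117, R2_283⟩]⟩, ⟨nat_lit 6, [⟨nat_lit 3, nat_lit 2208, nat_lit 6960, nat_lit 12480, nat_lit 5712, nat_lit 14928, R12_260, R9_119, R1_311⟩]⟩, ⟨nat_lit 7, [⟨nat_lit 0, nat_lit 1200, nat_lit 6480, nat_lit 13392, nat_lit 15072, nat_lit 14928, R1_279, R8_314, R2_311⟩, ⟨nat_lit 2, nat_lit 1728, nat_lit 7056, nat_lit 15312, nat_lit 5904, nat_lit 15936, R1_319, R5_123, R1_332⟩, ⟨nat_lit 3, nat_lit 2256, nat_lit 6912, nat_lit 14352, nat_lit 5664, nat_lit 14736, R1_299, R9_118,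 R12_307⟩]⟩]⟩,
 ⟨nat_lit 3, [⟨nat_lit 2, [⟨nat_lit 7, nat_lit 2400, nat_lit 6288, nat_lit 17664, nat_lit 5424, nat_lit 12528, R11_368, R2_113, R1_261⟩]⟩, ⟨nat_lit 6, [⟨nat_lit 3, nat_lit 2496, nat_lit 5184, nat_lit 12912, nat_lit 13392, nat_lit 15456, R1_269, R3_279, R1_322⟩, ⟨nat_lit 7, nat_lit 2448, nat_lit 6240, nat_lit 12480, nat_lit 5472, nat_lit 21072, R1_260, R2_114, R11_439⟩]⟩]⟩], [], [], [], [⟨nat_lit 0, [⟨nat_lit 6, [⟨nat_lit 0, nat_lit 192, nat_lit 624, nat_lit 11904, nat_lit 6288, nat_lit 15936, R2_248, R6_131, R3_332⟩, ⟨nat_lit 3, nat_lit 384, nat_lit 4224, nat_lit 12384, nat_lit 7152, nat_lit 15216, R2_258, R13_149, R10_317⟩]⟩]⟩,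
 ⟨nat_lit 2, [⟨nat_lit 4, [⟨nat_lit 0, nat_lit 1248, nat_lit 2304, nat_lit 3456, nat_lit 8256, nat_lit 18144, R2_72, R8_172, R13_378⟩, ⟨nat_lit 2, nat_lit 1776, nat_lit 9936, nat_lit 4848, nat_lit 5664, nat_lit 13440, R2_101, R5_118, R3_280⟩, ⟨nat_lit 3, nat_lit 2304, nat_lit 7200, nat_lit 4320, nat_lit 5280, nat_lit 6576, R2_90, R9_110, R3_137⟩]⟩, ⟨nat_lit 6, [⟨nat_lit 0, nat_lit 1296, nat_lit 2736, nat_lit 13152, nat_lit 8544, nat_lit 16896, R12_274, R8_178, R3_352⟩, ⟨nat_lit 3, nat_lit 2352, nat_lit 7488, nat_lit 13392, nat_lit 5328, nat_lit 17952, R12_279, R9_111, R10_374⟩]⟩, ⟨nat_lit 7, [⟨nat_lit 0, nat_lit 1344, nat_lit 2448, nat_lit 2928, nat_lit 8448, nat_lit 3360, R1_61, R8_176, R3_70⟩, ⟨nat_lit 2, nat_lit 1824, nat_lit 10080, nat_lit 3552, nat_lit 5712, nat_lit 19632, R1_74, R5_119, R10_409⟩]⟩]⟩,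
 ⟨nat_lit 3, [⟨nat_lit 6, [⟨nat_lit 3, nat_lit 2544, nat_lit 5952, nat_lit 12960, nat_lit 5088, nat_lit 18768, R1_270, R3_106, R10_391⟩]⟩]⟩]], [[], [], [], [⟨nat_lit 0, [⟨nat_lit 6, [⟨nat_lit 3, nat_lit 6000, nat_lit 3408, nat_lit 14112, nat_lit 15840, nat_lit 13680, R2_294, R3_330, R1_285⟩]⟩]⟩,
 ⟨nat_lit 2, [⟨nat_lit 4, [⟨nat_lit 3, nat_lit 7536, nat_lit 5568, nat_lit 13536, nat_lit 3456, nat_lit 13680, R2_282, R0_72, R2_285⟩]⟩, ⟨nat_lit 6, [⟨nat_lit 3, nat_lit 7584, nat_lit 5664, nat_lit 14880, nat_lit 3552, nat_lit 15024, R12_310, R0_74, R1_313⟩]⟩, ⟨nat_lit 7, [⟨nat_lit 0, nat_lit 6624, nat_lit 5184, nat_lit 13536, nat_lit 16560, nat_lit 15312, R1_282, R5_345, R2_319⟩, ⟨nat_lit 2, nat_lit 7152, nat_lit 5760, nat_lit 15408, nat_lit 5520, nat_lit 16320, R1_321, R11_115, R1_340⟩, ⟨nat_lit 3, nat_lit 7632, nat_lit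 5616, nat_lit 14880, nat_lit 3504, nat_lit 14832, R1_310, R0_73, R12_309⟩]⟩]⟩,
 ⟨nat_lit 3, [⟨nat_lit 2, [⟨nat_lit 7, nat_lit 7776, nat_lit 4992, nat_lit 21360, nat_lit 4128, nat_lit 15888, R11_445, R1_86, R1_331⟩]⟩, ⟨nat_lit 6, [⟨nat_lit 3, nat_lit 7872, nat_lit 3888, nat_lit 15648, nat_lit 5184, nat_lit 15504, R1_326, R10_108, R1_323⟩, ⟨nat_lit 7, nat_lit 7824, nat_lit 4944, nat_lit 15600, nat_lit 4176, nat_lit 21168, R1_325, R1_87, R11_441⟩]⟩]⟩,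
 ⟨nat_lit 4, [⟨nat_lit 3, [⟨nat_lit 6, nat_lit 3408, nat_lit 6000, nat_lit 14112, nat_lit 15840, nat_lit 13680, R2_294, R3_330, R1_285⟩]⟩]⟩,
 ⟨nat_lit 6, [⟨nat_lit 3, [⟨nat_lit 2, nat_lit 4944, nat_lit 7824, nat_lit 15600, nat_lit 4176, nat_lit 21168, R1_325, R1_87, R11_441⟩, ⟨nat_lit 6, nat_lit 3888, nat_lit 7872, nat_lit 15648, nat_lit 5184, nat_lit 15504, R1_326, R10_108, R1_323⟩]⟩, ⟨nat_lit 7, [⟨nat_lit 2, nat_lit 4992, nat_lit 7776, nat_lit 21360, nat_lit 4128, nat_lit 15888, R11_445, R1_86, R1_331⟩]⟩]⟩,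
 ⟨nat_lit 7, [⟨nat_lit 0, [⟨nat_lit 6, nat_lit 5568, nat_lit 7536, nat_lit 13536, nat_lit 3456, nat_lit 13680, R2_282, R0_72, R2_285⟩]⟩, ⟨nat_lit 2, [⟨nat_lit 4, nat_lit 5184, nat_lit 6624, nat_lit 13536, nat_lit 16560, nat_lit 15312, R1_282, R5_345, R2_319⟩, ⟨nat_lit 6, nat_lit 5616, nat_lit 7632, nat_lit 14880, nat_lit 3504, nat_lit 14832, R1_310, R0_73, R12_309⟩, ⟨nat_lit 7, nat_lit 5760, nat_lit 7152, nat_lit 15408, nat_lit 5520, nat_lit 16320, R1_321, R11_115, R1_340⟩]⟩, ⟨nat_lit 3, [⟨nat_lit 6, nat_lit 5664, nat_lit 7584, nat_lit 14880, nat_lit 3552, nat_lit 15024, R12_310, R0_74, R1_313⟩]⟩]⟩], [], [], [], [⟨nat_lit 0, [⟨nat_lit 6, [⟨nat_lit 0, nat_lit 5904, nat_lit 3360, nat_lit 13920, nat_lit 13776, nat_lit 16704, R2_290, R4_287, R3_348⟩, ⟨nat_lit 3, nat_lit 6048, nat_lit 3936, nat_lit 14160, nat_lit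 15792, nat_lit 15312, R2_295, R3_329, R10_319⟩]⟩]⟩,
 ⟨nat_lit 2, [⟨nat_lit 4, [⟨nat_lit 0, nat_lit 6672, nat_lit 6000, nat_lit 3504, nat_lit 14592, nat_lit 18240, R2_73, R5_304, R13_380⟩, ⟨nat_lit 2, nat_lit 7200, nat_lit 6720, nat_lit 4896, nat_lit 5280, nat_lit 13536, R2_102, R11_110, R3_282⟩, ⟨nat_lit 3, nat_lit 7680, nat_lit 6432, nat_lit 4368, nat_lit 3120, nat_lit 6960, R2_91, R0_65, R3_145⟩]⟩, ⟨nat_lit 6, [⟨nat_lit 0, nat_lit 6720, nat_lit 6096, nat_lit 14976, nat_lit 16128, nat_lit 17232, R12_312, R5_336, R3_359⟩, ⟨nat_lit 3, nat_lit 7728, nat_lit 6480, nat_lit 15072, nat_lit 3168, nat_lit 18000, R12_314, R0_66, R10_375⟩]⟩, ⟨nat_lit 7, [⟨nat_lit 0, nat_lit 6768, nat_lit 6048, nat_lit 2976, nat_lit 16464, nat_lit 10560, R1_62, R5_343, R3_220⟩, ⟨nat_lit 2, nat_lit 7248, nat_lit 6768, nat_lit 3600, nat_lit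 5328, nat_lit 19968, R1_75, R11_111, R10_416⟩]⟩]⟩,
 ⟨nat_lit 3, [⟨nat_lit 6, [⟨nat_lit 3, nat_lit 7920, nat_lit 5040, nat_lit 15696, nat_lit 4272, nat_lit 18864, R1_327, R10_89, R10_393⟩]⟩]⟩,
 ⟨nat_lit 6, [⟨nat_lit 7, [⟨nat_lit 2, nat_lit 5040, nat_lit 8448, nat_lit 21312, nat_lit 4080, nat_lit 19536, R11_444, R1_85, R10_407⟩]⟩]⟩]], [[], [], [], [], [], [], [], [⟨nat_lit 0, [⟨nat_lit 6, [⟨nat_lit 0, nat_lit 8160, nat_lit 9504, nat_lit 14640, nat_lit 13680, nat_lit 16272, R2_305, R8_285, R3_339⟩, ⟨nat_lit 1, nat_lit 8496, nat_lit 9840, nat_lit 15696, nat_lit 16800, nat_lit 12576, R2_327, R5_350, R0_262⟩, ⟨nat_lit 3, nat_lit 8640, nat_lit 9744, nat_lit 15216, nat_lit 15936, nat_lit 15264, R2_317, R9_332, R10_318⟩]⟩]⟩,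
 ⟨nat_lit 2, [⟨nat_lit 4, [⟨nat_lit 0, nat_lit 9456, nat_lit 1344, nat_lit 3744, nat_lit 9120, nat_lit 18192, R2_78, R9_190, R13_379⟩, ⟨nat_lit 1, nat_lit 10368, nat_lit 1584, nat_lit 6720, nat_lit 8640, nat_lit 15024, R2_140, R0_180, R9_313⟩, ⟨nat_lit 2, nat_lit 10752, nat_lit 1872, nat_lit 5040, nat_lit 11808, nat_lit 13488, R2_105, R0_246, R3_281⟩]⟩, ⟨nat_lit 6, [⟨nat_lit 0, nat_lit 9504, nat_lit 10704, nat_lit 16224, nat_lit 9408, nat_lit 17088, R12_338, R9_196, R3_356⟩, ⟨nat_lit 1, nat_lit 10416, nat_lit 11040, nat_lit 16752, nat_lit 8928, nat_lit 13728, R12_349, R0_186, R0_286⟩]⟩, ⟨nat_lit 7, [⟨nat_lit 0, nat_lit 9552, nat_lit 6480, nat_lit 3216, nat_lit 9312, nat_lit 9456, R1_67, R9_194, R3_197⟩, ⟨nat_lit 1, nat_lit 10464, nat_lit 6624, nat_lit 5424, nat_lit 8832, nat_lit 3888, R1_113, R0_184, R0_81⟩,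 ⟨nat_lit 2, nat_lit 10800, nat_lit 6912, nat_lit 3744, nat_lit 14064, nat_lit 19776, R1_78, R0_293, R10_412⟩]⟩]⟩,
 ⟨nat_lit 3, [⟨nat_lit 6, [⟨nat_lit 3, nat_lit 10848, nat_lit 10224, nat_lit 16224, nat_lit 14256, nat_lit 18816, R1_338, R0_297, R10_392⟩]⟩]⟩]], [[], [], [], [⟨nat_lit 0, [⟨nat_lit 6, [⟨nat_lit 3, nat_lit 11328, nat_lit 10608, nat_lit 13872, nat_lit 15648, nat_lit 13632, R2_289, R3_326, R1_284⟩, ⟨nat_lit 7, nat_lit 11088, nat_lit 10560, nat_lit 12768, nat_lit 14352, nat_lit 20976, R2_266, R2_299, R11_437⟩]⟩]⟩,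
 ⟨nat_lit 2, [⟨nat_lit 4, [⟨nat_lit 3, nat_lit 12000, nat_lit 10752, nat_lit 13392, nat_lit 13392, nat_lit 13632, R2_279, R0_279, R2_284⟩]⟩, ⟨nat_lit 6, [⟨nat_lit 3, nat_lit 12048, nat_lit 10848, nat_lit 14208, nat_lit 13680, nat_lit 14976, R12_296, R0_285, R1_312⟩]⟩, ⟨nat_lit 7, [⟨nat_lit 3, nat_lit 12096, nat_lit 10800, nat_lit 14736, nat_lit 13584, nat_lit 14784, R1_307, R0_283, R12_308⟩]⟩]⟩,
 ⟨nat_lit 3, [⟨nat_lit 2, [⟨nat_lit 7, nat_lit 12240, nat_lit 10704, nat_lit 19920, nat_lit 3984, nat_lit 15120, R11_415, R12_83, R1_315⟩]⟩, ⟨nat_lit 6, [⟨nat_lit 7, nat_lit 12288, nat_lit 10656, nat_lit 14112, nat_lit 3936, nat_lit 21120, R1_294, R12_82, R11_440⟩]⟩]⟩]]], [[], [[⟨nat_lit 4, [⟨nat_lit 0, [⟨nat_lit 6, nat_lit 13200, nat_lit 2208, nat_lit 14160, nat_lit 12000, nat_lit 3408, R6_295, R2_250, R7_71⟩]⟩, ⟨nat_lit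 2, [⟨nat_lit 4, nat_lit 13056, nat_lit 11472, nat_lit 13536, nat_lit 14160, nat_lit 12960, R4_282, R7_295, R7_270⟩, ⟨nat_lit 6, nat_lit 13248, nat_lit 11520, nat_lit 13920, nat_lit 13728, nat_lit 12480, R4_290, R2_286, R14_260⟩]⟩]⟩,
 ⟨nat_lit 5, [⟨nat_lit 0, [⟨nat_lit 6, nat_lit 14160, nat_lit 2640, nat_lit 1056, nat_lit 13584, nat_lit 4368, R8_22, R12_283, R7_91⟩]⟩, ⟨nat_lit 2, [⟨nat_lit 4, nat_lit 13824, nat_lit 11856, nat_lit 15024, nat_lit 17712, nat_lit 13104, R5_313, R14_369, R7_273⟩, ⟨nat_lit 6, nat_lit 14208, nat_lit 11952, nat_lit 15072, nat_lit 13920, nat_lit 12528, R5_314, R12_290, R14_261⟩]⟩]⟩,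
 ⟨nat_lit 6, [⟨nat_lit 0, [⟨nat_lit 6, nat_lit 15216, nat_lit 2784, nat_lit 1440, nat_lit 12576, nat_lit 3888, R4_30, R1_262, R7_81⟩]⟩]⟩], [⟨nat_lit 4, [⟨nat_lit 0, [⟨nat_lit 6, nat_lit 13296, nat_lit 672, nat_lit 14352, nat_lit 12096, nat_lit 1728, R6_299, R2_252, R2_36⟩]⟩, ⟨nat_lit 1, [⟨nat_lit 6, nat_lit 13392, nat_lit 6480, nat_lit 13344, nat_lit 14928, nat_lit 1200, R8_278, R2_311, R1_25⟩]⟩, ⟨nat_lit 2, [⟨nat_lit 6, nat_lit 13344, nat_lit 10320, nat_lit 14016, nat_lit 13824, nat_lit 9744, R4_292, R2_288, R12_203⟩]⟩]⟩,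
 ⟨nat_lit 5, [⟨nat_lit 0, [⟨nat_lit 6, nat_lit 14256, nat_lit 768, nat_lit 6192, nat_lit 13824, nat_lit 2784, R8_129, R12_288, R2_58⟩]⟩, ⟨nat_lit 1, [⟨nat_lit 6, nat_lit 14352, nat_lit 6912, nat_lit 14880, nat_lit 14736, nat_lit 2256, R9_310, R12_307, R1_47⟩]⟩, ⟨nat_lit 2, [⟨nat_lit 6, nat_lit 14304, nat_lit 10416, nat_lit 15888, nat_lit 14496, nat_lit 9792, R5_331, R12_302, R12_204⟩]⟩]⟩,
 ⟨nat_lit 6, [⟨nat_lit 0, [⟨nat_lit 6, nat_lit 15264, nat_lit 864, nat_lit 8112, nat_lit 12672, nat_lit 2256, R4_169, R1_264, R2_47⟩]⟩, ⟨nat_lit 1, [⟨nat_lit 6, nat_lit 15312, nat_lit 7056, nat_lit 5904, nat_lit 15936, nat_lit 1728, R5_123, R1_332, R1_36⟩]⟩]⟩], [], [⟨nat_lit 4, [⟨nat_lit 0, [⟨nat_lit 6, nat_lit 13440, nat_lit 1008, nat_lit 14304, nat_lit 12048, nat_lit 0, R6_298, R2_251, R2_0⟩]⟩, ⟨nat_lit 2, [⟨nat_lit 4, nat_lit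 13104, nat_lit 10752, nat_lit 13680, nat_lit 14208, nat_lit 10512, R4_285, R7_296, R2_219⟩, ⟨nat_lit 6, nat_lit 13488, nat_lit 10944, nat_lit 13968, nat_lit 13776, nat_lit 1776, R4_291, R2_287, R12_37⟩, ⟨nat_lit 7, nat_lit 13728, nat_lit 10848, nat_lit 13872, nat_lit 14016, nat_lit 10896, R4_289, R2_292, R1_227⟩]⟩]⟩,
 ⟨nat_lit 5, [⟨nat_lit 0, [⟨nat_lit 6, nat_lit 14400, nat_lit 2736, nat_lit 6960, nat_lit 13680, nat_lit 816, R8_145, R12_285, R2_17⟩]⟩, ⟨nat_lit 2, [⟨nat_lit 4, nat_lit 13872, nat_lit 11040, nat_lit 15504, nat_lit 18288, nat_lit 11712, R5_323, R14_381, R2_244⟩, ⟨nat_lit 6, nat_lit 14448, nat_lit 11472, nat_lit 15648, nat_lit 14304, nat_lit 2112, R5_326, R12_298, R12_44⟩, ⟨nat_lit 7, nat_lit 15072, nat_lit 11184, nat_lit 15600, nat_lit 3840, nat_lit 12144, R5_325, R12_80, R1_253⟩]⟩]⟩,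
 ⟨nat_lit 6, [⟨nat_lit 0, [⟨nat_lit 6, nat_lit 15360, nat_lit 3024, nat_lit 7344, nat_lit 12624, nat_lit 48, R4_153, R1_263, R2_1⟩]⟩]⟩]], [], [], [], [[⟨nat_lit 4, [⟨nat_lit 0, [⟨nat_lit 6, nat_lit 2736, nat_lit 2256, nat_lit 8928, nat_lit 3072, nat_lit 3552, R6_186, R3_64, R7_74⟩]⟩, ⟨nat_lit 2, [⟨nat_lit 4, nat_lit 2592, nat_lit 11040, nat_lit 8928, nat_lit 13056, nat_lit 17616, R4_186, R4_272, R7_367⟩, ⟨nat_lit 6, nat_lit 2784, nat_lit 11136, nat_lit 9552, nat_lit 3168, nat_lit 13152, R4_199, R3_66, R14_274⟩]⟩]⟩,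
 ⟨nat_lit 6, [⟨nat_lit 0, [⟨nat_lit 2, nat_lit 3936, nat_lit 3072, nat_lit 3792, nat_lit 4512, nat_lit 4032, R4_79, R1_94, R4_84⟩, ⟨nat_lit 6, nat_lit 3456, nat_lit 2976, nat_lit 1680, nat_lit 5232, nat_lit 3984, R4_35, R10_109, R7_83⟩]⟩]⟩], [⟨nat_lit 4, [⟨nat_lit 0, [⟨nat_lit 6, nat_lit 2832, nat_lit 2112, nat_lit 8976, nat_lit 3120, nat_lit 1872, R6_187, R3_65, R2_39⟩]⟩, ⟨nat_lit 1, [⟨nat_lit 6, nat_lit 2928, nat_lit 2448, nat_lit 5712, nat_lit 3360, nat_lit 1344, R8_119, R3_70, R1_28⟩]⟩, ⟨nat_lit 2, [⟨nat_lit 6, nat_lit 2880, nat_lit 2832, nat_lit 9600, nat_lit 3216, nat_lit 10416, R4_200, R3_67, R12_217⟩]⟩]⟩,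
 ⟨nat_lit 6, [⟨nat_lit 0, [⟨nat_lit 2, nat_lit 3984, nat_lit 9744, nat_lit 10128, nat_lit 4560, nat_lit 14304, R4_211, R1_95, R3_298⟩, ⟨nat_lit 6, nat_lit 3504, nat_lit 9792, nat_lit 8400, nat_lit 5280, nat_lit 2352, R4_175, R10_110, R2_49⟩]⟩, ⟨nat_lit 1, [⟨nat_lit 2, nat_lit 4032, nat_lit 10032, nat_lit 5568, nat_lit 4608, nat_lit 2016, R5_116, R1_96, R10_42⟩, ⟨nat_lit 6, nat_lit 3552, nat_lit 10080, nat_lit 5712, nat_lit 5328, nat_lit 1824, R5_119, R10_111, R1_38⟩]⟩]⟩]]], [[[⟨nat_lit 1, [⟨nat_lit 2, [⟨nat_lit 4, nat_lit 12576, nat_lit 1008, nat_lit 15216, nat_lit 1440, nat_lit 4608, R1_317, R4_30, R7_96⟩]⟩]⟩,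
 ⟨nat_lit 5, [⟨nat_lit 2, [⟨nat_lit 4, nat_lit 12336, nat_lit 1968, nat_lit 17424, nat_lit 1248, nat_lit 4560, R11_363, R7_26, R7_95⟩]⟩]⟩], [], [⟨nat_lit 1, [⟨nat_lit 2, [⟨nat_lit 4, nat_lit 12624, nat_lit 48, nat_lit 15360, nat_lit 7344, nat_lit 3024, R1_320, R4_153, R2_63⟩, ⟨nat_lit 5, nat_lit 12912, nat_lit 5184, nat_lit 15456, nat_lit 13392, nat_lit 2496, R1_322, R3_279, R1_52⟩]⟩]⟩,
 ⟨nat_lit 5, [⟨nat_lit 2, [⟨nat_lit 4, nat_lit 12384, nat_lit 528, nat_lit 17760, nat_lit 7248, nat_lit 2976, R11_370, R7_151, R2_62⟩, ⟨nat_lit 5, nat_lit 12480, nat_lit 6240, nat_lit 17856, nat_lit 5472, nat_lit 2448, R11_372, R2_114, R1_51⟩]⟩]⟩], [⟨nat_lit 1, [⟨nat_lit 2, [⟨nat_lit 4, nat_lit 12672, nat_lit 2256, nat_lit 15264, nat_lit 8112, nat_lit 864, R1_318, R4_169, R2_18⟩]⟩]⟩,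
 ⟨nat_lit 5, [⟨nat_lit 2, [⟨nat_lit 4, nat_lit 12432, nat_lit 576, nat_lit 17568, nat_lit 8112, nat_lit 2928, R11_366, R7_169, R2_61⟩, ⟨nat_lit 7, nat_lit 12528, nat_lit 6288, nat_lit 17664, nat_lit 5424, nat_lit 2400, R11_368, R2_113, R1_50⟩]⟩]⟩]], [[⟨nat_lit 5, [⟨nat_lit 0, [⟨nat_lit 6, nat_lit 14496, nat_lit 12864, nat_lit 15168, nat_lit 13632, nat_lit 12816, R5_316, R12_284, R7_267⟩]⟩, ⟨nat_lit 2, [⟨nat_lit 4, nat_lit 13920, nat_lit 14304, nat_lit 19344, nat_lit 17760, nat_lit 13200, R11_403, R14_370, R7_275⟩, ⟨nat_lit 6, nat_lit 14544, nat_lit 15120, nat_lit 19392, nat_lit 13968, nat_lit 14592, R11_404, R12_291, R14_304⟩]⟩]⟩], [⟨nat_lit 5, [⟨nat_lit 0, [⟨nat_lit 6, nat_lit 14640, nat_lit 10128, nat_lit 15744, nat_lit 13872, nat_lit 11520, R5_328, R12_289, R2_240⟩]⟩, ⟨nat_lit 1, [⟨nat_lit 6, nat_lit 14736,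 nat_lit 10800, nat_lit 13584, nat_lit 14784, nat_lit 12096, R0_283, R12_308, R1_252⟩]⟩, ⟨nat_lit 2, [⟨nat_lit 6, nat_lit 14688, nat_lit 12192, nat_lit 20208, nat_lit 14544, nat_lit 11664, R11_421, R12_303, R12_243⟩]⟩]⟩], [⟨nat_lit 5, [⟨nat_lit 2, [⟨nat_lit 4, nat_lit 13968, nat_lit 9936, nat_lit 20496, nat_lit 18192, nat_lit 11856, R11_427, R14_379, R2_247⟩, ⟨nat_lit 5, nat_lit 14112, nat_lit 10656, nat_lit 20640, nat_lit 15312, nat_lit 12288, R11_430, R12_319, R1_256⟩, ⟨nat_lit 6, nat_lit 14592, nat_lit 11952, nat_lit 20544, nat_lit 14112, nat_lit 11856, R11_428, R12_294, R12_247⟩]⟩]⟩], [⟨nat_lit 5, [⟨nat_lit 0, [⟨nat_lit 6, nat_lit 14784, nat_lit 2256, nat_lit 15936, nat_lit 13776, nat_lit 10464, R5_332, R12_287, R2_218⟩]⟩, ⟨nat_lit 2, [⟨nat_lit 4, nat_lit 14016, nat_lit 10032, nat_lit 19824, nat_lit 18384,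 nat_lit 11808, R11_413, R14_383, R2_246⟩, ⟨nat_lit 6, nat_lit 14832, nat_lit 12048, nat_lit 19968, nat_lit 14400, nat_lit 11808, R11_416, R12_300, R12_246⟩, ⟨nat_lit 7, nat_lit 15120, nat_lit 10704, nat_lit 19920, nat_lit 3984, nat_lit 12240, R11_415, R12_83, R1_255⟩]⟩]⟩]], [[], [], [⟨nat_lit 1, [⟨nat_lit 2, [⟨nat_lit 5, nat_lit 15648, nat_lit 3888, nat_lit 15504, nat_lit 19296, nat_lit 7872, R1_323, R10_402, R1_164⟩]⟩]⟩,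
 ⟨nat_lit 5, [⟨nat_lit 2, [⟨nat_lit 5, nat_lit 15600, nat_lit 4944, nat_lit 21792, nat_lit 4176, nat_lit 7824, R11_454, R1_87, R1_163⟩]⟩]⟩]], [[], [], [], [⟨nat_lit 1, [⟨nat_lit 2, [⟨nat_lit 4, nat_lit 15936, nat_lit 1728, nat_lit 15312, nat_lit 5904, nat_lit 7056, R1_319, R5_123, R2_147⟩, ⟨nat_lit 7, nat_lit 16320, nat_lit 7152, nat_lit 15408, nat_lit 21504, nat_lit 5760, R1_321, R11_448, R1_120⟩]⟩]⟩,
 ⟨nat_lit 5, [⟨nat_lit 2, [⟨nat_lit 7, nat_lit 15888, nat_lit 4992, nat_lit 21360, nat_lit 4128, nat_lit 7776, R11_445, R1_86, R1_162⟩]⟩]⟩]]], [[], [[], [⟨nat_lit 4, [⟨nat_lit 1, [⟨nat_lit 6, nat_lit 13536, nat_lit 5184, nat_lit 16560, nat_lit 15312, nat_lit 6624, R5_345, R2_319, R1_138⟩]⟩]⟩,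
 ⟨nat_lit 5, [⟨nat_lit 1, [⟨nat_lit 6, nat_lit 14880, nat_lit 5616, nat_lit 3504, nat_lit 14832, nat_lit 7632, R0_73, R12_309, R1_159⟩]⟩]⟩,
 ⟨nat_lit 6, [⟨nat_lit 1, [⟨nat_lit 6, nat_lit 15408, nat_lit 5760, nat_lit 21504, nat_lit 16320, nat_lit 7152, R11_448, R1_340, R1_149⟩]⟩]⟩]], [], [], [], [[], [⟨nat_lit 4, [⟨nat_lit 1, [⟨nat_lit 6, nat_lit 2976, nat_lit 8400, nat_lit 16464, nat_lit 10560, nat_lit 6768, R5_343, R3_220, R1_141⟩]⟩]⟩,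
 ⟨nat_lit 6, [⟨nat_lit 1, [⟨nat_lit 2, nat_lit 4080, nat_lit 8448, nat_lit 21312, nat_lit 5040, nat_lit 8208, R11_444, R1_105, R10_171⟩, ⟨nat_lit 6, nat_lit 3600, nat_lit 8496, nat_lit 21408, nat_lit 5616, nat_lit 7248, R11_446, R10_117, R1_151⟩]⟩]⟩], [], [], [], [⟨nat_lit 6, [⟨nat_lit 1, [⟨nat_lit 2, nat_lit 4128, nat_lit 7776, nat_lit 21360, nat_lit 4992, nat_lit 15888, R11_445, R1_104, R1_331⟩]⟩, ⟨nat_lit 5, [⟨nat_lit 2, nat_lit 4176, nat_lit 7824, nat_lit 15600, nat_lit 4944, nat_lit 21168, R1_325, R1_103, R11_441⟩]⟩]⟩]]], [[], [[], [], [], [⟨nat_lit 4, [⟨nat_lit 0, [⟨nat_lit 6, nat_lit 13584, nat_lit 336, nat_lit 19488, nat_lit 12336, nat_lit 3936, R13_406, R2_257, R2_82⟩]⟩, ⟨nat_lit 2, [⟨nat_lit 4, nat_lit 13152, nat_lit 11136, nat_lit 15360, nat_lit 14448, nat_lit 10608, R3_320, R7_301, R2_221⟩, ⟨nat_lit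 6, nat_lit 13632, nat_lit 11328, nat_lit 15648, nat_lit 13872, nat_lit 6336, R3_326, R2_289, R12_132⟩, ⟨nat_lit 7, nat_lit 13776, nat_lit 11232, nat_lit 15696, nat_lit 14256, nat_lit 10992, R3_327, R2_297, R1_229⟩]⟩, ⟨nat_lit 3, [⟨nat_lit 6, nat_lit 13680, nat_lit 6000, nat_lit 15840, nat_lit 14112, nat_lit 3408, R3_330, R2_294, R1_71⟩]⟩]⟩,
 ⟨nat_lit 5, [⟨nat_lit 0, [⟨nat_lit 6, nat_lit 14928, nat_lit 2208, nat_lit 14976, nat_lit 13728, nat_lit 6960, R9_312, R12_286, R2_145⟩]⟩, ⟨nat_lit 2, [⟨nat_lit 4, nat_lit 14064, nat_lit 11616, nat_lit 12528, nat_lit 18336, nat_lit 11760, R0_261, R14_382, R2_245⟩, ⟨nat_lit 6, nat_lit 14976, nat_lit 12048, nat_lit 13680, nat_lit 14352, nat_lit 6624, R0_285, R12_299, R12_138⟩, ⟨nat_lit 7, nat_lit 15168, nat_lit 11760, nat_lit 13920, nat_lit 3888, nat_lit 12192, R0_290, R12_81,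 R1_254⟩]⟩, ⟨nat_lit 3, [⟨nat_lit 6, nat_lit 15024, nat_lit 7584, nat_lit 3552, nat_lit 14688, nat_lit 5664, R0_74, R12_306, R1_118⟩]⟩]⟩,
 ⟨nat_lit 6, [⟨nat_lit 0, [⟨nat_lit 6, nat_lit 15456, nat_lit 2496, nat_lit 13392, nat_lit 12912, nat_lit 5184, R3_279, R1_269, R2_108⟩]⟩, ⟨nat_lit 3, [⟨nat_lit 6, nat_lit 15504, nat_lit 7872, nat_lit 19296, nat_lit 15648, nat_lit 3888, R10_402, R1_326, R1_81⟩]⟩]⟩,
 ⟨nat_lit 7, [⟨nat_lit 2, [⟨nat_lit 7, nat_lit 15552, nat_lit 11472, nat_lit 18720, nat_lit 15792, nat_lit 11376, R10_390, R1_329, R1_237⟩]⟩]⟩]], [], [], [], [[⟨nat_lit 4, [⟨nat_lit 0, [⟨nat_lit 6, nat_lit 3024, nat_lit 2640, nat_lit 19248, nat_lit 8880, nat_lit 9696, R13_401, R3_185, R7_202⟩]⟩, ⟨nat_lit 2, [⟨nat_lit 4, nat_lit 2640, nat_lit 12864, nat_lit 15168, nat_lit 13152, nat_lit 17712, R3_316, R4_274, R7_369⟩,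 ⟨nat_lit 6, nat_lit 3072, nat_lit 13872, nat_lit 15504, nat_lit 9168, nat_lit 13584, R3_323, R3_191, R14_283⟩]⟩]⟩,
 ⟨nat_lit 6, [⟨nat_lit 0, [⟨nat_lit 2, nat_lit 4224, nat_lit 816, nat_lit 14256, nat_lit 4656, nat_lit 10368, R3_297, R1_97, R4_216⟩, ⟨nat_lit 6, nat_lit 3648, nat_lit 3216, nat_lit 12576, nat_lit 5376, nat_lit 10992, R3_262, R10_112, R7_229⟩]⟩, ⟨nat_lit 3, [⟨nat_lit 2, nat_lit 4272, nat_lit 7776, nat_lit 19056, nat_lit 4704, nat_lit 7104, R10_397, R1_98, R5_148⟩]⟩]⟩,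
 ⟨nat_lit 7, [⟨nat_lit 0, [⟨nat_lit 6, nat_lit 5232, nat_lit 2832, nat_lit 1872, nat_lit 3600, nat_lit 10560, R3_39, R0_75, R7_220⟩]⟩, ⟨nat_lit 2, [⟨nat_lit 4, nat_lit 5088, nat_lit 13008, nat_lit 14688, nat_lit 16272, nat_lit 17904, R10_306, R5_339, R7_373⟩, ⟨nat_lit 6, nat_lit 5280, nat_lit 14064, nat_lit 16320, nat_lit 3648, nat_lit 13632, R10_340, R0_76, R14_284⟩]⟩]⟩], [⟨nat_lit 4, [⟨nat_lit 0, [⟨nat_lit 6, nat_lit 3120, nat_lit 6432, nat_lit 19344, nat_lit 9024, nat_lit 8736, R13_403, R3_188, R2_182⟩]⟩, ⟨nat_lit 1, [⟨nat_lit 6, nat_lit 3216, nat_lit 6480, nat_lit 15600, nat_lit 9456, nat_lit 9552, R9_325, R3_197, R1_199⟩]⟩, ⟨nat_lit 2, [⟨nat_lit 6, nat_lit 3168, nat_lit 6528, nat_lit 15600, nat_lit 9264, nat_lit 11232, R3_325, R3_193, R12_234⟩]⟩]⟩,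
 ⟨nat_lit 6, [⟨nat_lit 0, [⟨nat_lit 2, nat_lit 4320, nat_lit 6720, nat_lit 15072, nat_lit 4800, nat_lit 15120, R3_314, R1_100, R3_315⟩, ⟨nat_lit 6, nat_lit 3696, nat_lit 6864, nat_lit 12960, nat_lit 5520, nat_lit 9984, R3_270, R10_115, R2_208⟩]⟩, ⟨nat_lit 1, [⟨nat_lit 2, nat_lit 4368, nat_lit 6768, nat_lit 14016, nat_lit 4896, nat_lit 11760, R0_292, R1_102, R10_245⟩, ⟨nat_lit 6, nat_lit 3744, nat_lit 6912, nat_lit 14064, nat_lit 5568, nat_lit 10800, R0_293, R10_116, R1_225⟩]⟩, ⟨nat_lit 3, [⟨nat_lit 2, nat_lit 4416, nat_lit 6816, nat_lit 19152, nat_lit 4848, nat_lit 14352, R10_399, R1_101, R0_299⟩]⟩]⟩,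
 ⟨nat_lit 7, [⟨nat_lit 0, [⟨nat_lit 6, nat_lit 5328, nat_lit 6576, nat_lit 8448, nat_lit 3792, nat_lit 9648, R3_176, R0_79, R2_201⟩]⟩, ⟨nat_lit 1, [⟨nat_lit 6, nat_lit 5424, nat_lit 6624, nat_lit 8832, nat_lit 3888, nat_lit 10464, R0_184, R0_81, R1_218⟩]⟩, ⟨nat_lit 2, [⟨nat_lit 6, nat_lit 5376, nat_lit 6672, nat_lit 17232, nat_lit 3840, nat_lit 11280, R10_359, R0_80, R12_235⟩]⟩]⟩], [], [⟨nat_lit 4, [⟨nat_lit 0, [⟨nat_lit 6, nat_lit 3264, nat_lit 9024, nat_lit 19296, nat_lit 8976, nat_lit 3888, R13_402, R3_187, R2_81⟩]⟩, ⟨nat_lit 2, [⟨nat_lit 4, nat_lit 2688, nat_lit 8976, nat_lit 15216, nat_lit 13200, nat_lit 14832, R3_317, R4_275, R2_309⟩, ⟨nat_lit 6, nat_lit 3312, nat_lit 9120, nat_lit 15552, nat_lit 9216, nat_lit 5472, R3_324, R3_192, R12_114⟩]⟩, ⟨nat_lit 3, [⟨nat_lit 6, nat_lit 3360, nat_lit 9072, nat_lit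 9120, nat_lit 9120, nat_lit 3360, R3_190, R3_190, R1_70⟩]⟩]⟩,
 ⟨nat_lit 6, [⟨nat_lit 0, [⟨nat_lit 6, nat_lit 3792, nat_lit 9408, nat_lit 13344, nat_lit 5424, nat_lit 5136, R3_278, R10_113, R2_107⟩]⟩, ⟨nat_lit 3, [⟨nat_lit 2, nat_lit 4464, nat_lit 9360, nat_lit 19104, nat_lit 4752, nat_lit 6720, R10_398, R1_99, R11_140⟩, ⟨nat_lit 6, nat_lit 3840, nat_lit 9456, nat_lit 19200, nat_lit 5472, nat_lit 3840, R10_400, R10_114, R1_80⟩]⟩]⟩,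
 ⟨nat_lit 7, [⟨nat_lit 0, [⟨nat_lit 6, nat_lit 5472, nat_lit 9264, nat_lit 6816, nat_lit 3696, nat_lit 4704, R3_142, R0_77, R2_98⟩]⟩, ⟨nat_lit 2, [⟨nat_lit 4, nat_lit 5136, nat_lit 9168, nat_lit 15168, nat_lit 16608, nat_lit 15456, R10_316, R5_346, R2_322⟩, ⟨nat_lit 6, nat_lit 5520, nat_lit 9312, nat_lit 17904, nat_lit 3744, nat_lit 5664, R10_373, R0_78, R12_118⟩, ⟨nat_lit 7, nat_lit 5712, nat_lit 9216, nat_lit 18672, nat_lit 5568, nat_lit 16464, R10_389, R11_116, R1_343⟩]⟩]⟩]]]]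
noncomputable def N1373 : T3 (List N0) := [[[], [], [], [], [[], [], [], [], [⟨nat_lit 2, [⟨nat_lit 6, [⟨nat_lit 0, nat_lit 48, nat_lit 11520, nat_lit 4608, nat_lit 3648, nat_lit 3552, R14_96, R4_76, R4_74⟩]⟩]⟩], [], [], [⟨nat_lit 2, [⟨nat_lit 6, [⟨nat_lit 0, nat_lit 288, nat_lit 15024, nat_lit 5136, nat_lit 9936, nat_lit 14064, R14_107, R4_207, R3_293⟩, ⟨nat_lit 3, nat_lit 336, nat_lit 15072, nat_lit 5184, nat_lit 4944, nat_lit 16176, R14_108, R5_103, R10_337⟩]⟩]⟩]], [], [[], [], [], [], [⟨nat_lit 2, [⟨nat_lit 6, [⟨nat_lit 0, nat_lit 816, nat_lit 9792, nat_lit 6432, nat_lit 13968, nat_lit 9840, R14_134, R3_291, R4_205⟩, ⟨nat_lit 1, nat_lit 864, nat_lit 10368, nat_lit 6480, nat_lit 16800, nat_lit 6144, R14_135, R10_350, R5_128⟩]⟩]⟩], [], [⟨nat_lit 2, [⟨nat_lit 6, [⟨nat_lit 1, nat_lit 1104, nat_lit 14256, nat_lit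 7776, nat_lit 16848, nat_lit 19440, R14_162, R10_351, R11_405⟩]⟩]⟩], [⟨nat_lit 2, [⟨nat_lit 6, [⟨nat_lit 0, nat_lit 1344, nat_lit 12960, nat_lit 7104, nat_lit 14688, nat_lit 14928, R14_148, R3_306, R3_311⟩]⟩]⟩]], [[], [], [], [], [], [], [], [⟨nat_lit 2, [⟨nat_lit 6, [⟨nat_lit 3, nat_lit 2400, nat_lit 10992, nat_lit 5808, nat_lit 19776, nat_lit 16224, R14_121, R11_412, R10_338⟩]⟩]⟩]]], [[[⟨nat_lit 0, [⟨nat_lit 2, [⟨nat_lit 4, nat_lit 2688, nat_lit 2304, nat_lit 11616, nat_lit 9072, nat_lit 3504, R3_242, R6_189, R7_73⟩, ⟨nat_lit 6, nat_lit 2736, nat_lit 11184, nat_lit 13920, nat_lit 9744, nat_lit 11616, R3_290, R4_203, R14_242⟩]⟩]⟩,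
 ⟨nat_lit 1, [⟨nat_lit 2, [⟨nat_lit 4, nat_lit 2832, nat_lit 2688, nat_lit 1056, nat_lit 720, nat_lit 4464, R10_22, R8_15, R7_93⟩, ⟨nat_lit 6, nat_lit 2880, nat_lit 11472, nat_lit 1488, nat_lit 5280, nat_lit 11664, R10_31, R5_110, R14_243⟩]⟩]⟩,
 ⟨nat_lit 2, [⟨nat_lit 6, [⟨nat_lit 4, nat_lit 2976, nat_lit 3120, nat_lit 5904, nat_lit 3744, nat_lit 3984, R12_123, R4_78, R4_83⟩]⟩]⟩], [], [⟨nat_lit 0, [⟨nat_lit 2, [⟨nat_lit 6, nat_lit 3120, nat_lit 2880, nat_lit 14112, nat_lit 9984, nat_lit 10320, R3_294, R4_208, R12_215⟩]⟩]⟩,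
 ⟨nat_lit 1, [⟨nat_lit 2, [⟨nat_lit 6, nat_lit 3360, nat_lit 7584, nat_lit 1536, nat_lit 5472, nat_lit 10368, R10_32, R5_114, R12_216⟩]⟩]⟩,
 ⟨nat_lit 2, [⟨nat_lit 6, [⟨nat_lit 4, nat_lit 3504, nat_lit 9840, nat_lit 5952, nat_lit 10080, nat_lit 14208, R12_124, R4_210, R3_296⟩, ⟨nat_lit 5, nat_lit 3552, nat_lit 10224, nat_lit 6000, nat_lit 5616, nat_lit 18192, R12_125, R5_117, R10_379⟩]⟩]⟩]], [], [[], [], [⟨nat_lit 2, [⟨nat_lit 6, [⟨nat_lit 5, nat_lit 3792, nat_lit 13104, nat_lit 6672, nat_lit 19872, nat_lit 18240, R12_139, R11_414, R10_380⟩]⟩]⟩]], [[⟨nat_lit 0, [⟨nat_lit 2, [⟨nat_lit 4, nat_lit 4032, nat_lit 2688, nat_lit 11952, nat_lit 18768, nat_lit 9648, R3_249, R13_391, R7_201⟩, ⟨nat_lit 6, nat_lit 4080, nat_lit 13920, nat_lit 14640, nat_lit 14736, nat_lit 12000, R3_305, R3_307, R14_250⟩]⟩]⟩,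
 ⟨nat_lit 1, [⟨nat_lit 2, [⟨nat_lit 4, nat_lit 4224, nat_lit 3072, nat_lit 10560, nat_lit 14208, nat_lit 11328, R10_220, R9_296, R7_236⟩]⟩]⟩,
 ⟨nat_lit 2, [⟨nat_lit 6, [⟨nat_lit 4, nat_lit 4416, nat_lit 864, nat_lit 6048, nat_lit 14016, nat_lit 10320, R12_126, R3_292, R4_215⟩, ⟨nat_lit 7, nat_lit 4464, nat_lit 7824, nat_lit 6096, nat_lit 16944, nat_lit 7056, R12_127, R10_353, R5_147⟩]⟩]⟩], [], [], [⟨nat_lit 0, [⟨nat_lit 2, [⟨nat_lit 6, nat_lit 5424, nat_lit 16992, nat_lit 14784, nat_lit 14784, nat_lit 16896, R3_308, R3_308, R12_352⟩]⟩]⟩,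
 ⟨nat_lit 2, [⟨nat_lit 6, [⟨nat_lit 7, nat_lit 5760, nat_lit 17328, nat_lit 6144, nat_lit 16992, nat_lit 20592, R12_128, R10_354, R11_429⟩]⟩]⟩]], [[], [], [], [], [⟨nat_lit 2, [⟨nat_lit 6, [⟨nat_lit 0, nat_lit 5904, nat_lit 3120, nat_lit 2976, nat_lit 3744, nat_lit 3984, R12_62, R4_78, R4_83⟩]⟩]⟩], [], [], [⟨nat_lit 2, [⟨nat_lit 6, [⟨nat_lit 0, nat_lit 5952, nat_lit 9840, nat_lit 3504, nat_lit 10080, nat_lit 14208, R12_73, R4_210, R3_296⟩, ⟨nat_lit 3, nat_lit 6000, nat_lit 10224, nat_lit 3552, nat_lit 5616, nat_lit 18192, R12_74, R5_117, R10_379⟩]⟩]⟩]], [], [[], [], [], [], [⟨nat_lit 2, [⟨nat_lit 6, [⟨nat_lit 0, nat_lit 6048, nat_lit 864, nat_lit 4416, nat_lit 14016, nat_lit 10320, R12_92, R3_292, R4_215⟩, ⟨nat_lit 1, nat_lit 6096, nat_lit 7824, nat_lit 4464, nat_lit 16944, nat_lit 7056, R12_93, R10_353, R5_147⟩]⟩]⟩],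 [], [⟨nat_lit 2, [⟨nat_lit 6, [⟨nat_lit 1, nat_lit 6144, nat_lit 17328, nat_lit 5760, nat_lit 16992, nat_lit 20592, R12_120, R10_354, R11_429⟩]⟩]⟩]], [[], [], [], [], [], [], [], [⟨nat_lit 2, [⟨nat_lit 6, [⟨nat_lit 3, nat_lit 6672, nat_lit 13104, nat_lit 3792, nat_lit 19872, nat_lit 18240, R12_79, R11_414, R10_380⟩]⟩]⟩]]], [[], [], [], [], [[], [], [], [], [⟨nat_lit 2, [⟨nat_lit 6, [⟨nat_lit 0, nat_lit 6816, nat_lit 3072, nat_lit 6816, nat_lit 3888, nat_lit 3888, R12_142, R4_81, R4_81⟩]⟩]⟩], [], [], [⟨nat_lit 2, [⟨nat_lit 6, [⟨nat_lit 0, nat_lit 7392, nat_lit 10416, nat_lit 8256, nat_lit 10224, nat_lit 14160, R12_172, R4_213, R3_295⟩, ⟨nat_lit 3, nat_lit 7440, nat_lit 10752, nat_lit 8304, nat_lit 6672, nat_lit 17136, R12_173, R5_139, R10_357⟩]⟩]⟩]], [], [[], [], [], [], [⟨nat_lit 2, [⟨nat_lit 6, [⟨nat_lit 0,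 nat_lit 8256, nat_lit 10416, nat_lit 7392, nat_lit 14160, nat_lit 10224, R12_154, R3_295, R4_213⟩, ⟨nat_lit 1, nat_lit 8304, nat_lit 10752, nat_lit 7440, nat_lit 17136, nat_lit 6672, R12_155, R10_357, R5_139⟩]⟩]⟩]]], [[], [], [], [], [[], [], [], [⟨nat_lit 2, [⟨nat_lit 4, [⟨nat_lit 3, nat_lit 9648, nat_lit 10368, nat_lit 12960, nat_lit 15840, nat_lit 13440, R2_270, R5_330, R2_280⟩]⟩, ⟨nat_lit 6, [⟨nat_lit 3, nat_lit 9696, nat_lit 10464, nat_lit 12528, nat_lit 15936, nat_lit 14784, R12_261, R5_332, R1_308⟩]⟩, ⟨nat_lit 7, [⟨nat_lit 0, nat_lit 9744, nat_lit 10320, nat_lit 13344, nat_lit 14016, nat_lit 13824, R1_278, R4_292, R2_288⟩, ⟨nat_lit 3, nat_lit 9792, nat_lit 10416, nat_lit 14304, nat_lit 15888, nat_lit 14496, R1_298, R5_331, R12_302⟩]⟩]⟩,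
 ⟨nat_lit 4, [⟨nat_lit 3, [⟨nat_lit 2, nat_lit 9840, nat_lit 10704, nat_lit 12624, nat_lit 15264, nat_lit 18816, R2_263, R7_318, R11_392⟩]⟩]⟩,
 ⟨nat_lit 6, [⟨nat_lit 7, [⟨nat_lit 0, nat_lit 9984, nat_lit 11664, nat_lit 19632, nat_lit 15360, nat_lit 12672, R11_409, R7_320, R2_264⟩, ⟨nat_lit 2, nat_lit 10032, nat_lit 11808, nat_lit 19824, nat_lit 6000, nat_lit 14016, R11_413, R14_125, R1_292⟩]⟩]⟩,
 ⟨nat_lit 7, [⟨nat_lit 0, [⟨nat_lit 6, nat_lit 10080, nat_lit 11424, nat_lit 13296, nat_lit 15360, nat_lit 13104, R2_277, R5_320, R2_273⟩]⟩, ⟨nat_lit 2, [⟨nat_lit 6, nat_lit 10128, nat_lit 11520, nat_lit 14640, nat_lit 15744, nat_lit 13872, R1_305, R5_328, R12_289⟩]⟩, ⟨nat_lit 3, [⟨nat_lit 6, nat_lit 10176, nat_lit 11472, nat_lit 14160, nat_lit 15648, nat_lit 14448, R12_295, R5_326, R1_301⟩]⟩]⟩], [], [], [], [⟨nat_lit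 2, [⟨nat_lit 4, [⟨nat_lit 0, nat_lit 10224, nat_lit 2784, nat_lit 3408, nat_lit 9408, nat_lit 17952, R2_71, R4_196, R13_374⟩, ⟨nat_lit 3, nat_lit 10272, nat_lit 7536, nat_lit 4272, nat_lit 5424, nat_lit 6528, R2_89, R5_113, R3_136⟩]⟩, ⟨nat_lit 6, [⟨nat_lit 0, nat_lit 10320, nat_lit 2880, nat_lit 13200, nat_lit 9984, nat_lit 14112, R12_275, R4_208, R3_294⟩, ⟨nat_lit 3, nat_lit 10368, nat_lit 7584, nat_lit 13440, nat_lit 5472, nat_lit 17808, R12_280, R5_114, R10_371⟩]⟩, ⟨nat_lit 7, [⟨nat_lit 0, nat_lit 10416, nat_lit 2832, nat_lit 2880, nat_lit 9600, nat_lit 3216, R1_60, R4_200, R3_67⟩]⟩]⟩,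
 ⟨nat_lit 6, [⟨nat_lit 7, [⟨nat_lit 0, nat_lit 10464, nat_lit 3504, nat_lit 19584, nat_lit 10224, nat_lit 1584, R11_408, R7_213, R3_33⟩, ⟨nat_lit 2, nat_lit 10512, nat_lit 10992, nat_lit 19776, nat_lit 5808, nat_lit 16224, R11_412, R14_121, R10_338⟩]⟩]⟩]], [[], [], [], [⟨nat_lit 4, [⟨nat_lit 3, [⟨nat_lit 2, nat_lit 10560, nat_lit 11088, nat_lit 12768, nat_lit 14352, nat_lit 20976, R2_266, R2_299, R11_437⟩, ⟨nat_lit 6, nat_lit 10608, nat_lit 11328, nat_lit 13872, nat_lit 15648, nat_lit 13632, R2_289, R3_326, R1_284⟩]⟩]⟩,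
 ⟨nat_lit 6, [⟨nat_lit 3, [⟨nat_lit 2, nat_lit 10656, nat_lit 12288, nat_lit 14112, nat_lit 3936, nat_lit 21120, R1_294, R12_82, R11_440⟩]⟩, ⟨nat_lit 7, [⟨nat_lit 2, nat_lit 10704, nat_lit 12240, nat_lit 19920, nat_lit 3984, nat_lit 15120, R11_415, R12_83, R1_315⟩]⟩]⟩], [], [], [], [⟨nat_lit 6, [⟨nat_lit 7, [⟨nat_lit 2, nat_lit 10896, nat_lit 13104, nat_lit 19872, nat_lit 3792, nat_lit 18240, R11_414, R12_79, R10_380⟩]⟩]⟩]], [], [[], [], [], [⟨nat_lit 0, [⟨nat_lit 6, [⟨nat_lit 7, nat_lit 11472, nat_lit 11904, nat_lit 13248, nat_lit 13248, nat_lit 20352, R2_276, R2_276, R11_424⟩]⟩]⟩,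
 ⟨nat_lit 2, [⟨nat_lit 4, [⟨nat_lit 3, nat_lit 11520, nat_lit 12144, nat_lit 13344, nat_lit 19680, nat_lit 13488, R2_278, R11_410, R2_281⟩]⟩, ⟨nat_lit 6, [⟨nat_lit 3, nat_lit 11568, nat_lit 12288, nat_lit 14256, nat_lit 19968, nat_lit 14832, R12_297, R11_416, R1_309⟩, ⟨nat_lit 7, nat_lit 11616, nat_lit 12240, nat_lit 14112, nat_lit 14592, nat_lit 20544, R12_294, R1_304, R11_428⟩]⟩, ⟨nat_lit 7, [⟨nat_lit 3, nat_lit 11664, nat_lit 12192, nat_lit 14688, nat_lit 20064, nat_lit 14544, R1_306, R11_418, R12_303⟩]⟩]⟩,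
 ⟨nat_lit 3, [⟨nat_lit 2, [⟨nat_lit 4, nat_lit 11712, nat_lit 12000, nat_lit 19680, nat_lit 13344, nat_lit 13488, R11_410, R2_278, R2_281⟩, ⟨nat_lit 6, nat_lit 11760, nat_lit 12096, nat_lit 20064, nat_lit 14688, nat_lit 14640, R11_418, R1_306, R12_305⟩, ⟨nat_lit 7, nat_lit 11808, nat_lit 12048, nat_lit 19968, nat_lit 14256, nat_lit 14832, R11_416, R12_297, R1_309⟩]⟩, ⟨nat_lit 6, [⟨nat_lit 7, nat_lit 11856, nat_lit 11952, nat_lit 14592, nat_lit 14112, nat_lit 20688, R1_304, R12_294, R11_431⟩]⟩]⟩,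
 ⟨nat_lit 4, [⟨nat_lit 3, [⟨nat_lit 2, nat_lit 11904, nat_lit 11472, nat_lit 13248, nat_lit 13248, nat_lit 20352, R2_276, R2_276, R11_424⟩]⟩]⟩,
 ⟨nat_lit 6, [⟨nat_lit 3, [⟨nat_lit 2, nat_lit 11952, nat_lit 11856, nat_lit 14592, nat_lit 14112, nat_lit 20688, R1_304, R12_294, R11_431⟩]⟩, ⟨nat_lit 7, [⟨nat_lit 0, nat_lit 12000, nat_lit 11712, nat_lit 19680, nat_lit 13344, nat_lit 13488, R11_410, R2_278, R2_281⟩, ⟨nat_lit 2, nat_lit 12048, nat_lit 11808, nat_lit 19968, nat_lit 14256, nat_lit 14832, R11_416, R12_297, R1_309⟩, ⟨nat_lit 3, nat_lit 12096, nat_lit 11760, nat_lit 20064, nat_lit 14688, nat_lit 14640, R11_418, R1_306, R12_305⟩]⟩]⟩,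
 ⟨nat_lit 7, [⟨nat_lit 0, [⟨nat_lit 6, nat_lit 12144, nat_lit 11520, nat_lit 13344, nat_lit 19680, nat_lit 13488, R2_278, R11_410, R2_281⟩]⟩, ⟨nat_lit 2, [⟨nat_lit 6, nat_lit 12192, nat_lit 11664, nat_lit 14688, nat_lit 20064, nat_lit 14544, R1_306, R11_418, R12_303⟩]⟩, ⟨nat_lit 3, [⟨nat_lit 2, nat_lit 12240, nat_lit 11616, nat_lit 14112, nat_lit 14592, nat_lit 20544, R12_294, R1_304, R11_428⟩, ⟨nat_lit 6, nat_lit 12288, nat_lit 11568, nat_lit 14256, nat_lit 19968, nat_lit 14832, R12_297, R11_416, R1_309⟩]⟩]⟩]]], [[], [[⟨nat_lit 5, [⟨nat_lit 0, [⟨nat_lit 6, nat_lit 12336, nat_lit 2688, nat_lit 1104, nat_lit 14160, nat_lit 4320, R8_23, R1_295, R7_90⟩]⟩, ⟨nat_lit 2, [⟨nat_lit 6, nat_lit 12384, nat_lit 12000, nat_lit 15168, nat_lit 14496, nat_lit 12432, R5_316, R1_302, R14_259⟩]⟩]⟩], [⟨nat_lit 5, [⟨nat_lit 0, [⟨nat_lit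 6, nat_lit 12432, nat_lit 816, nat_lit 6240, nat_lit 14400, nat_lit 2736, R8_130, R1_300, R2_57⟩]⟩, ⟨nat_lit 1, [⟨nat_lit 6, nat_lit 12480, nat_lit 6960, nat_lit 14976, nat_lit 14928, nat_lit 2208, R9_312, R1_311, R1_46⟩]⟩, ⟨nat_lit 2, [⟨nat_lit 6, nat_lit 12528, nat_lit 10464, nat_lit 15936, nat_lit 14784, nat_lit 9696, R5_332, R1_308, R12_202⟩]⟩]⟩], [], [⟨nat_lit 5, [⟨nat_lit 0, [⟨nat_lit 6, nat_lit 12576, nat_lit 2784, nat_lit 7008, nat_lit 14256, nat_lit 768, R8_146, R1_297, R2_16⟩]⟩, ⟨nat_lit 2, [⟨nat_lit 6, nat_lit 12624, nat_lit 11520, nat_lit 15744, nat_lit 14640, nat_lit 2064, R5_328, R1_305, R12_43⟩]⟩]⟩]], [], [], [], [[⟨nat_lit 4, [⟨nat_lit 0, [⟨nat_lit 2, nat_lit 12672, nat_lit 2352, nat_lit 7536, nat_lit 1296, nat_lit 3456, R6_157, R2_27, R4_72⟩, ⟨nat_lit 6, nat_lit 12720, nat_lit 2304, nat_lit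 9072, nat_lit 11616, nat_lit 3504, R6_189, R3_242, R7_73⟩]⟩, ⟨nat_lit 2, [⟨nat_lit 6, nat_lit 12768, nat_lit 11184, nat_lit 9744, nat_lit 13920, nat_lit 13056, R4_203, R3_290, R14_272⟩]⟩]⟩,
 ⟨nat_lit 5, [⟨nat_lit 0, [⟨nat_lit 2, nat_lit 12816, nat_lit 2736, nat_lit 624, nat_lit 768, nat_lit 4176, R8_13, R1_16, R4_87⟩, ⟨nat_lit 6, nat_lit 12864, nat_lit 2688, nat_lit 720, nat_lit 1056, nat_lit 4464, R8_15, R10_22, R7_93⟩]⟩, ⟨nat_lit 2, [⟨nat_lit 6, nat_lit 12912, nat_lit 11472, nat_lit 5280, nat_lit 1488, nat_lit 13104, R5_110, R10_31, R14_273⟩]⟩]⟩,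
 ⟨nat_lit 6, [⟨nat_lit 0, [⟨nat_lit 2, nat_lit 12960, nat_lit 3120, nat_lit 3744, nat_lit 5904, nat_lit 3984, R4_78, R12_123, R4_83⟩]⟩]⟩], [⟨nat_lit 4, [⟨nat_lit 0, [⟨nat_lit 2, nat_lit 13008, nat_lit 2160, nat_lit 7824, nat_lit 1344, nat_lit 11856, R6_163, R2_28, R3_247⟩, ⟨nat_lit 6, nat_lit 13056, nat_lit 2208, nat_lit 9216, nat_lit 11760, nat_lit 1824, R6_192, R3_245, R2_38⟩]⟩, ⟨nat_lit 1, [⟨nat_lit 2, nat_lit 13104, nat_lit 2688, nat_lit 5808, nat_lit 2496, nat_lit 1248, R8_121, R2_52, R10_26⟩, ⟨nat_lit 6, nat_lit 13152, nat_lit 2736, nat_lit 5760, nat_lit 16896, nat_lit 1296, R8_120, R3_352, R1_27⟩]⟩, ⟨nat_lit 2, [⟨nat_lit 6, nat_lit 13200, nat_lit 2880, nat_lit 9984, nat_lit 14112, nat_lit 10320, R4_208, R3_294, R12_215⟩]⟩]⟩,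
 ⟨nat_lit 5, [⟨nat_lit 0, [⟨nat_lit 2, nat_lit 13248, nat_lit 7056, nat_lit 6000, nat_lit 816, nat_lit 16992, R8_125, R1_17, R3_354⟩, ⟨nat_lit 6, nat_lit 13296, nat_lit 7104, nat_lit 6096, nat_lit 1104, nat_lit 2880, R8_127, R10_23, R2_60⟩]⟩, ⟨nat_lit 1, [⟨nat_lit 2, nat_lit 13344, nat_lit 7440, nat_lit 5040, nat_lit 1968, nat_lit 2208, R9_105, R1_41, R10_46⟩, ⟨nat_lit 6, nat_lit 13392, nat_lit 7488, nat_lit 4992, nat_lit 2112, nat_lit 2352, R9_104, R10_44, R1_49⟩]⟩, ⟨nat_lit 2, [⟨nat_lit 6, nat_lit 13440, nat_lit 7584, nat_lit 5472, nat_lit 1536, nat_lit 10368, R5_114, R10_32, R12_216⟩]⟩]⟩,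
 ⟨nat_lit 6, [⟨nat_lit 0, [⟨nat_lit 2, nat_lit 13488, nat_lit 9840, nat_lit 10080, nat_lit 5952, nat_lit 14208, R4_210, R12_124, R3_296⟩]⟩, ⟨nat_lit 1, [⟨nat_lit 2, nat_lit 13536, nat_lit 10224, nat_lit 5616, nat_lit 6000, nat_lit 1968, R5_117, R12_125, R10_41⟩]⟩]⟩]]], [[[⟨nat_lit 1, [⟨nat_lit 2, [⟨nat_lit 4, nat_lit 13584, nat_lit 2688, nat_lit 14160, nat_lit 1104, nat_lit 4320, R1_295, R8_23, R7_90⟩, ⟨nat_lit 6, nat_lit 13632, nat_lit 12000, nat_lit 14496, nat_lit 15168, nat_lit 13872, R1_302, R5_316, R14_289⟩]⟩]⟩], [], [⟨nat_lit 1, [⟨nat_lit 2, [⟨nat_lit 4, nat_lit 13680, nat_lit 816, nat_lit 14400, nat_lit 6240, nat_lit 2736, R1_300, R8_130, R2_57⟩, ⟨nat_lit 5, nat_lit 13728, nat_lit 6960, nat_lit 14928, nat_lit 14976, nat_lit 2208, R1_311, R9_312, R1_46⟩, ⟨nat_lit 6, nat_lit 13776, nat_lit 10464, nat_lit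 14784, nat_lit 15936, nat_lit 9696, R1_308, R5_332, R12_202⟩]⟩]⟩], [⟨nat_lit 1, [⟨nat_lit 2, [⟨nat_lit 4, nat_lit 13824, nat_lit 2784, nat_lit 14256, nat_lit 7008, nat_lit 768, R1_297, R8_146, R2_16⟩, ⟨nat_lit 6, nat_lit 13872, nat_lit 11520, nat_lit 14640, nat_lit 15744, nat_lit 10128, R1_305, R5_328, R12_211⟩]⟩]⟩]], [[⟨nat_lit 1, [⟨nat_lit 2, [⟨nat_lit 4, nat_lit 13920, nat_lit 14352, nat_lit 14208, nat_lit 15072, nat_lit 12768, R1_296, R5_314, R7_266⟩, ⟨nat_lit 6, nat_lit 13968, nat_lit 15168, nat_lit 14544, nat_lit 19488, nat_lit 14544, R1_303, R11_406, R14_303⟩]⟩]⟩,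
 ⟨nat_lit 5, [⟨nat_lit 0, [⟨nat_lit 6, nat_lit 14016, nat_lit 12912, nat_lit 15072, nat_lit 14208, nat_lit 12768, R5_314, R1_296, R7_266⟩]⟩, ⟨nat_lit 2, [⟨nat_lit 6, nat_lit 14064, nat_lit 15216, nat_lit 19488, nat_lit 14544, nat_lit 14496, R11_406, R1_303, R14_302⟩]⟩]⟩], [⟨nat_lit 1, [⟨nat_lit 2, [⟨nat_lit 6, nat_lit 14112, nat_lit 12240, nat_lit 14592, nat_lit 20688, nat_lit 11616, R1_304, R11_431, R12_242⟩]⟩]⟩,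
 ⟨nat_lit 5, [⟨nat_lit 0, [⟨nat_lit 6, nat_lit 14160, nat_lit 10176, nat_lit 15648, nat_lit 14448, nat_lit 11472, R5_326, R1_301, R2_239⟩]⟩, ⟨nat_lit 1, [⟨nat_lit 6, nat_lit 14208, nat_lit 10848, nat_lit 13680, nat_lit 14976, nat_lit 12048, R0_285, R1_312, R1_251⟩]⟩, ⟨nat_lit 2, [⟨nat_lit 6, nat_lit 14256, nat_lit 12288, nat_lit 20256, nat_lit 14832, nat_lit 11568, R11_422, R1_309, R12_241⟩]⟩]⟩], [⟨nat_lit 1, [⟨nat_lit 2, [⟨nat_lit 4, nat_lit 14304, nat_lit 10176, nat_lit 14448, nat_lit 15648, nat_lit 11472, R1_301, R5_326, R2_239⟩, ⟨nat_lit 5, nat_lit 14352, nat_lit 10848, nat_lit 14976, nat_lit 13680, nat_lit 12048, R1_312, R0_285, R1_251⟩, ⟨nat_lit 6, nat_lit 14400, nat_lit 12288, nat_lit 14832, nat_lit 20256, nat_lit 11568, R1_309, R11_422, R12_241⟩]⟩]⟩,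
 ⟨nat_lit 5, [⟨nat_lit 2, [⟨nat_lit 6, nat_lit 14448, nat_lit 12240, nat_lit 20688, nat_lit 14592, nat_lit 11616, R11_431, R1_304, R12_242⟩]⟩]⟩], [⟨nat_lit 1, [⟨nat_lit 2, [⟨nat_lit 4, nat_lit 14496, nat_lit 9792, nat_lit 14304, nat_lit 15888, nat_lit 10416, R1_298, R5_331, R2_217⟩, ⟨nat_lit 6, nat_lit 14544, nat_lit 11664, nat_lit 14688, nat_lit 20064, nat_lit 12192, R1_306, R11_418, R12_254⟩]⟩]⟩,
 ⟨nat_lit 5, [⟨nat_lit 0, [⟨nat_lit 6, nat_lit 14592, nat_lit 2304, nat_lit 15888, nat_lit 14304, nat_lit 10416, R5_331, R1_298, R2_217⟩]⟩, ⟨nat_lit 2, [⟨nat_lit 6, nat_lit 14640, nat_lit 12096, nat_lit 20064, nat_lit 14688, nat_lit 11760, R11_418, R1_306, R12_245⟩]⟩]⟩]], [[], [], [⟨nat_lit 1, [⟨nat_lit 2, [⟨nat_lit 5, nat_lit 14688, nat_lit 5664, nat_lit 15024, nat_lit 3552, nat_lit 7584, R1_313, R0_74, R1_158⟩]⟩]⟩]],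 [[], [], [], [⟨nat_lit 1, [⟨nat_lit 2, [⟨nat_lit 4, nat_lit 14736, nat_lit 2256, nat_lit 14352, nat_lit 14880, nat_lit 6912, R1_299, R9_310, R2_144⟩, ⟨nat_lit 6, nat_lit 14784, nat_lit 12096, nat_lit 14736, nat_lit 13584, nat_lit 10800, R1_307, R0_283, R12_225⟩, ⟨nat_lit 7, nat_lit 14832, nat_lit 7632, nat_lit 14880, nat_lit 3504, nat_lit 5616, R1_310, R0_73, R1_117⟩]⟩]⟩]]], [[], [[], [⟨nat_lit 5, [⟨nat_lit 1, [⟨nat_lit 6, nat_lit 14880, nat_lit 5664, nat_lit 3552, nat_lit 15024, nat_lit 7584, R0_74, R1_313, R1_158⟩]⟩]⟩]], [], [], [], [[], [⟨nat_lit 4, [⟨nat_lit 1, [⟨nat_lit 2, nat_lit 14928, nat_lit 12912, nat_lit 15552, nat_lit 11232, nat_lit 7536, R5_324, R2_234, R10_157⟩, ⟨nat_lit 6, nat_lit 14976, nat_lit 12960, nat_lit 16128, nat_lit 17232, nat_lit 6720, R5_336, R3_359, R1_140⟩]⟩]⟩,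
 ⟨nat_lit 5, [⟨nat_lit 1, [⟨nat_lit 2, nat_lit 15024, nat_lit 13008, nat_lit 3072, nat_lit 11808, nat_lit 8352, R0_64, R1_246, R10_174⟩, ⟨nat_lit 6, nat_lit 15072, nat_lit 13056, nat_lit 3168, nat_lit 12816, nat_lit 7728, R0_66, R10_267, R1_161⟩]⟩]⟩,
 ⟨nat_lit 6, [⟨nat_lit 1, [⟨nat_lit 2, nat_lit 15120, nat_lit 13104, nat_lit 19872, nat_lit 6672, nat_lit 8160, R11_414, R12_139, R10_170⟩]⟩]⟩], [], [], [], [⟨nat_lit 4, [⟨nat_lit 1, [⟨nat_lit 2, nat_lit 15168, nat_lit 12144, nat_lit 15600, nat_lit 11184, nat_lit 15072, R5_325, R2_233, R1_314⟩]⟩]⟩,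
 ⟨nat_lit 5, [⟨nat_lit 1, [⟨nat_lit 2, nat_lit 15216, nat_lit 12192, nat_lit 13920, nat_lit 11760, nat_lit 15168, R0_290, R1_245, R1_316⟩]⟩]⟩,
 ⟨nat_lit 6, [⟨nat_lit 1, [⟨nat_lit 2, nat_lit 15264, nat_lit 12240, nat_lit 19920, nat_lit 6432, nat_lit 15120, R11_415, R12_134, R1_315⟩]⟩, ⟨nat_lit 5, [⟨nat_lit 2, nat_lit 15312, nat_lit 12288, nat_lit 14112, nat_lit 6480, nat_lit 21120, R1_294, R12_135, R11_440⟩]⟩]⟩]]], [[], [[], [], [], [⟨nat_lit 5, [⟨nat_lit 0, [⟨nat_lit 6, nat_lit 15360, nat_lit 2256, nat_lit 14880, nat_lit 14352, nat_lit 6912, R9_310, R1_299, R2_144⟩]⟩, ⟨nat_lit 2, [⟨nat_lit 6, nat_lit 15408, nat_lit 12096, nat_lit 13584, nat_lit 14736, nat_lit 6576, R0_283, R1_307, R12_137⟩]⟩, ⟨nat_lit 3, [⟨nat_lit 6, nat_lit 15456, nat_lit 7632, nat_lit 3504, nat_lit 14880, nat_lit 5616, R0_73, R1_310, R1_117⟩]⟩]⟩]],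 [], [], [], [[⟨nat_lit 4, [⟨nat_lit 0, [⟨nat_lit 2, nat_lit 15504, nat_lit 480, nat_lit 17232, nat_lit 8352, nat_lit 9504, R13_359, R2_174, R4_198⟩, ⟨nat_lit 6, nat_lit 15552, nat_lit 2688, nat_lit 18768, nat_lit 11952, nat_lit 9648, R13_391, R3_249, R7_201⟩]⟩, ⟨nat_lit 2, [⟨nat_lit 6, nat_lit 15600, nat_lit 13920, nat_lit 14736, nat_lit 14640, nat_lit 13440, R3_307, R3_305, R14_280⟩]⟩, ⟨nat_lit 3, [⟨nat_lit 2, nat_lit 15648, nat_lit 7440, nat_lit 7728, nat_lit 9072, nat_lit 6960, R3_161, R2_189, R5_145⟩]⟩]⟩,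
 ⟨nat_lit 5, [⟨nat_lit 0, [⟨nat_lit 2, nat_lit 15696, nat_lit 672, nat_lit 15120, nat_lit 9168, nat_lit 10512, R9_315, R1_191, R4_219⟩, ⟨nat_lit 6, nat_lit 15744, nat_lit 3072, nat_lit 14208, nat_lit 10560, nat_lit 11328, R9_296, R10_220, R7_236⟩]⟩, ⟨nat_lit 2, [⟨nat_lit 6, nat_lit 15792, nat_lit 14208, nat_lit 12912, nat_lit 11232, nat_lit 13536, R0_269, R10_234, R14_282⟩]⟩, ⟨nat_lit 3, [⟨nat_lit 2, nat_lit 15840, nat_lit 7632, nat_lit 864, nat_lit 9888, nat_lit 7248, R0_18, R1_206, R5_151⟩]⟩]⟩,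
 ⟨nat_lit 6, [⟨nat_lit 0, [⟨nat_lit 2, nat_lit 15888, nat_lit 864, nat_lit 14016, nat_lit 6048, nat_lit 10320, R3_292, R12_126, R4_215⟩]⟩, ⟨nat_lit 3, [⟨nat_lit 2, nat_lit 15936, nat_lit 7824, nat_lit 16944, nat_lit 6096, nat_lit 7056, R10_353, R12_127, R5_147⟩]⟩]⟩,
 ⟨nat_lit 7, [⟨nat_lit 0, [⟨nat_lit 6, nat_lit 15984, nat_lit 2880, nat_lit 1824, nat_lit 13296, nat_lit 10512, R3_38, R0_277, R7_219⟩]⟩, ⟨nat_lit 2, [⟨nat_lit 6, nat_lit 16032, nat_lit 14112, nat_lit 16128, nat_lit 13488, nat_lit 13488, R10_336, R0_281, R14_281⟩]⟩]⟩], [⟨nat_lit 4, [⟨nat_lit 0, [⟨nat_lit 2, nat_lit 16080, nat_lit 10512, nat_lit 17280, nat_lit 8400, nat_lit 12288, R13_360, R2_175, R3_256⟩, ⟨nat_lit 6, nat_lit 16128, nat_lit 10656, nat_lit 18864, nat_lit 12240, nat_lit 8688, R13_393, R3_255, R2_181⟩]⟩, ⟨nat_lit 1, [⟨nat_lit 2, nat_lit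 16176, nat_lit 10560, nat_lit 14496, nat_lit 10128, nat_lit 10800, R9_302, R2_211, R10_225⟩, ⟨nat_lit 6, nat_lit 16224, nat_lit 10704, nat_lit 15264, nat_lit 17088, nat_lit 9504, R9_318, R3_356, R1_198⟩]⟩, ⟨nat_lit 2, [⟨nat_lit 6, nat_lit 16272, nat_lit 10752, nat_lit 14832, nat_lit 14976, nat_lit 11088, R3_309, R3_312, R12_231⟩]⟩, ⟨nat_lit 3, [⟨nat_lit 2, nat_lit 16320, nat_lit 10608, nat_lit 8304, nat_lit 9168, nat_lit 13776, R3_173, R2_191, R0_287⟩]⟩]⟩,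
 ⟨nat_lit 5, [⟨nat_lit 0, [⟨nat_lit 2, nat_lit 16368, nat_lit 10800, nat_lit 15312, nat_lit 9216, nat_lit 17136, R9_319, R1_192, R3_357⟩, ⟨nat_lit 6, nat_lit 16416, nat_lit 10896, nat_lit 14544, nat_lit 10656, nat_lit 10224, R9_303, R10_222, R2_213⟩]⟩, ⟨nat_lit 2, [⟨nat_lit 6, nat_lit 16464, nat_lit 10944, nat_lit 13248, nat_lit 11328, nat_lit 11184, R0_276, R10_236, R12_233⟩]⟩, ⟨nat_lit 3, [⟨nat_lit 2, nat_lit 16512, nat_lit 10848, nat_lit 8976, nat_lit 9984, nat_lit 13872, R0_187, R1_208, R0_289⟩]⟩]⟩,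
 ⟨nat_lit 6, [⟨nat_lit 0, [⟨nat_lit 2, nat_lit 16560, nat_lit 11136, nat_lit 14880, nat_lit 6192, nat_lit 15024, R3_310, R12_129, R3_313⟩]⟩, ⟨nat_lit 1, [⟨nat_lit 2, nat_lit 16608, nat_lit 11184, nat_lit 13200, nat_lit 6288, nat_lit 11712, R0_275, R12_131, R10_244⟩]⟩, ⟨nat_lit 3, [⟨nat_lit 2, nat_lit 16656, nat_lit 11232, nat_lit 17040, nat_lit 6240, nat_lit 13824, R10_355, R12_130, R0_288⟩]⟩]⟩,
 ⟨nat_lit 7, [⟨nat_lit 0, [⟨nat_lit 6, nat_lit 16704, nat_lit 10992, nat_lit 8400, nat_lit 13440, nat_lit 9600, R3_175, R0_280, R2_200⟩]⟩, ⟨nat_lit 1, [⟨nat_lit 6, nat_lit 16752, nat_lit 11040, nat_lit 8928, nat_lit 13728, nat_lit 10416, R0_186, R0_286, R1_217⟩]⟩, ⟨nat_lit 2, [⟨nat_lit 6, nat_lit 16800, nat_lit 11088, nat_lit 17088, nat_lit 13632, nat_lit 11136, R10_356, R0_284, R12_232⟩]⟩]⟩], [], [⟨nat_lit 4, [⟨nat_lit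 0, [⟨nat_lit 6, nat_lit 16848, nat_lit 16896, nat_lit 18816, nat_lit 12096, nat_lit 3840, R13_392, R3_252, R2_80⟩]⟩, ⟨nat_lit 2, [⟨nat_lit 6, nat_lit 16896, nat_lit 16992, nat_lit 14784, nat_lit 14784, nat_lit 5424, R3_308, R3_308, R12_113⟩]⟩, ⟨nat_lit 3, [⟨nat_lit 2, nat_lit 16944, nat_lit 16848, nat_lit 8016, nat_lit 9120, nat_lit 6576, R3_167, R2_190, R11_137⟩, ⟨nat_lit 6, nat_lit 16992, nat_lit 16944, nat_lit 9216, nat_lit 15552, nat_lit 3312, R3_192, R3_324, R1_69⟩]⟩]⟩,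
 ⟨nat_lit 5, [⟨nat_lit 0, [⟨nat_lit 6, nat_lit 17040, nat_lit 17088, nat_lit 14832, nat_lit 10608, nat_lit 6816, R9_309, R10_221, R2_142⟩]⟩, ⟨nat_lit 2, [⟨nat_lit 6, nat_lit 17088, nat_lit 17184, nat_lit 13536, nat_lit 11280, nat_lit 5856, R0_282, R10_235, R12_122⟩]⟩, ⟨nat_lit 3, [⟨nat_lit 2, nat_lit 17136, nat_lit 17040, nat_lit 6096, nat_lit 9936, nat_lit 6864, R0_127, R1_207, R11_143⟩, ⟨nat_lit 6, nat_lit 17184, nat_lit 17136, nat_lit 3744, nat_lit 10896, nat_lit 5520, R0_78, R10_227, R1_115⟩]⟩]⟩,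
 ⟨nat_lit 6, [⟨nat_lit 3, [⟨nat_lit 2, nat_lit 17232, nat_lit 17328, nat_lit 16992, nat_lit 6144, nat_lit 6672, R10_354, R12_128, R11_139⟩]⟩]⟩,
 ⟨nat_lit 7, [⟨nat_lit 0, [⟨nat_lit 6, nat_lit 17280, nat_lit 17232, nat_lit 6768, nat_lit 13344, nat_lit 4656, R3_141, R0_278, R2_97⟩]⟩, ⟨nat_lit 2, [⟨nat_lit 6, nat_lit 17328, nat_lit 17280, nat_lit 17760, nat_lit 13536, nat_lit 5616, R10_370, R0_282, R12_117⟩]⟩]⟩]]]]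
noncomputable def N1450 : T3 (List N0) := [[], [[[], [], [⟨nat_lit 5, [⟨nat_lit 4, [⟨nat_lit 4, nat_lit 1584, nat_lit 12336, nat_lit 768, nat_lit 6576, nat_lit 3264, R7_16, R7_137, R6_68⟩]⟩]⟩]]], [], [], [[], [[⟨nat_lit 4, [⟨nat_lit 6, [⟨nat_lit 4, nat_lit 8640, nat_lit 15456, nat_lit 12720, nat_lit 4704, nat_lit 10032, R6_265, R7_98, R6_209⟩]⟩]⟩,
 ⟨nat_lit 6, [⟨nat_lit 2, [⟨nat_lit 6, nat_lit 13536, nat_lit 12048, nat_lit 14160, nat_lit 13056, nat_lit 12240, R7_295, R1_272, R7_255⟩]⟩]⟩], [⟨nat_lit 6, [⟨nat_lit 2, [⟨nat_lit 6, nat_lit 13680, nat_lit 10512, nat_lit 14208, nat_lit 13104, nat_lit 10752, R7_296, R1_273, R2_224⟩]⟩]⟩]], [], [], [], [[⟨nat_lit 0, [⟨nat_lit 3, [⟨nat_lit 0, nat_lit 14064, nat_lit 8592, nat_lit 12912, nat_lit 4560, nat_lit 9792, R6_269, R4_95, R6_204⟩, ⟨nat_lit 3, nat_lit 14112, nat_lit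 8688, nat_lit 12960, nat_lit 144, nat_lit 10800, R6_270, R3_3, R4_225⟩]⟩]⟩,
 ⟨nat_lit 2, [⟨nat_lit 0, [⟨nat_lit 2, nat_lit 12096, nat_lit 3168, nat_lit 13536, nat_lit 7488, nat_lit 10752, R6_282, R11_156, R6_224⟩]⟩, ⟨nat_lit 2, [⟨nat_lit 2, nat_lit 13344, nat_lit 11616, nat_lit 13344, nat_lit 7584, nat_lit 11616, R4_278, R11_158, R4_242⟩]⟩, ⟨nat_lit 3, [⟨nat_lit 0, nat_lit 14256, nat_lit 8976, nat_lit 13488, nat_lit 8016, nat_lit 9840, R8_281, R5_167, R6_205⟩, ⟨nat_lit 2, nat_lit 14304, nat_lit 9072, nat_lit 13584, nat_lit 7536, nat_lit 10752, R8_283, R11_157, R8_224⟩, ⟨nat_lit 3, nat_lit 14352, nat_lit 9024, nat_lit 13536, nat_lit 5568, nat_lit 10896, R8_282, R0_116, R4_227⟩]⟩]⟩,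
 ⟨nat_lit 3, [⟨nat_lit 3, [⟨nat_lit 3, nat_lit 14544, nat_lit 8880, nat_lit 13104, nat_lit 6960, nat_lit 10848, R4_273, R10_145, R4_226⟩]⟩, ⟨nat_lit 7, [⟨nat_lit 3, nat_lit 11520, nat_lit 13488, nat_lit 14256, nat_lit 7008, nat_lit 12288, R7_297, R10_146, R7_256⟩, ⟨nat_lit 7, nat_lit 11568, nat_lit 13440, nat_lit 14304, nat_lit 5808, nat_lit 11664, R7_298, R1_121, R4_243⟩]⟩]⟩,
 ⟨nat_lit 4, [⟨nat_lit 6, [⟨nat_lit 4, nat_lit 8592, nat_lit 14064, nat_lit 12912, nat_lit 4560, nat_lit 9792, R6_269, R4_95, R6_204⟩, ⟨nat_lit 6, nat_lit 8688, nat_lit 14112, nat_lit 12960, nat_lit 144, nat_lit 10800, R6_270, R3_3, R4_225⟩]⟩]⟩,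
 ⟨nat_lit 6, [⟨nat_lit 2, [⟨nat_lit 2, nat_lit 13440, nat_lit 11568, nat_lit 14304, nat_lit 5808, nat_lit 11664, R7_298, R1_121, R4_243⟩, ⟨nat_lit 6, nat_lit 13488, nat_lit 11520, nat_lit 14256, nat_lit 7008, nat_lit 12288, R7_297, R10_146, R7_256⟩]⟩, ⟨nat_lit 6, [⟨nat_lit 6, nat_lit 8880, nat_lit 14544, nat_lit 13104, nat_lit 6960, nat_lit 10848, R4_273, R10_145, R4_226⟩]⟩]⟩,
 ⟨nat_lit 7, [⟨nat_lit 4, [⟨nat_lit 7, nat_lit 3168, nat_lit 12096, nat_lit 13536, nat_lit 7488, nat_lit 10752, R6_282, R11_156, R6_224⟩]⟩, ⟨nat_lit 6, [⟨nat_lit 4, nat_lit 8976, nat_lit 14256, nat_lit 13488, nat_lit 8016, nat_lit 9840, R8_281, R5_167, R6_205⟩, ⟨nat_lit 6, nat_lit 9024, nat_lit 14352, nat_lit 13536, nat_lit 5568, nat_lit 10896, R8_282, R0_116, R4_227⟩, ⟨nat_lit 7, nat_lit 9072, nat_lit 14304, nat_lit 13584, nat_lit 7536,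 nat_lit 10752, R8_283, R11_157, R8_224⟩]⟩, ⟨nat_lit 7, [⟨nat_lit 7, nat_lit 11616, nat_lit 13344, nat_lit 13344, nat_lit 7584, nat_lit 11616, R4_278, R11_158, R4_242⟩]⟩]⟩], [⟨nat_lit 0, [⟨nat_lit 3, [⟨nat_lit 0, nat_lit 14160, nat_lit 11376, nat_lit 13344, nat_lit 4800, nat_lit 18144, R6_278, R4_100, R8_378⟩, ⟨nat_lit 3, nat_lit 14208, nat_lit 11472, nat_lit 13392, nat_lit 192, nat_lit 13104, R6_279, R3_4, R5_273⟩]⟩]⟩,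
 ⟨nat_lit 2, [⟨nat_lit 0, [⟨nat_lit 0, nat_lit 12144, nat_lit 16032, nat_lit 13584, nat_lit 1008, nat_lit 15168, R6_283, R5_21, R6_316⟩, ⟨nat_lit 2, nat_lit 12192, nat_lit 16128, nat_lit 13632, nat_lit 7824, nat_lit 13728, R6_284, R11_163, R13_286⟩]⟩, ⟨nat_lit 2, [⟨nat_lit 2, nat_lit 13392, nat_lit 16752, nat_lit 13392, nat_lit 7920, nat_lit 16752, R4_279, R11_165, R3_349⟩]⟩, ⟨nat_lit 3, [⟨nat_lit 0, nat_lit 14400, nat_lit 16368, nat_lit 13776, nat_lit 9264, nat_lit 19008, R8_287, R5_193, R8_396⟩, ⟨nat_lit 2, nat_lit 14448, nat_lit 16560, nat_lit 13872, nat_lit 7872, nat_lit 11376, R8_289, R11_164, R9_237⟩, ⟨nat_lit 3, nat_lit 14496, nat_lit 16464, nat_lit 13824, nat_lit 5664, nat_lit 13152, R8_288, R0_118, R5_274⟩]⟩]⟩,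
 ⟨nat_lit 3, [⟨nat_lit 3, [⟨nat_lit 3, nat_lit 14592, nat_lit 15264, nat_lit 13248, nat_lit 7152, nat_lit 13200, R4_276, R10_149, R5_275⟩]⟩]⟩,
 ⟨nat_lit 6, [⟨nat_lit 2, [⟨nat_lit 2, nat_lit 13584, nat_lit 10272, nat_lit 14400, nat_lit 5856, nat_lit 16656, R7_300, R1_122, R3_347⟩, ⟨nat_lit 6, nat_lit 13632, nat_lit 10368, nat_lit 14352, nat_lit 7056, nat_lit 10800, R7_299, R10_147, R2_225⟩]⟩]⟩]]], [[[⟨nat_lit 5, [⟨nat_lit 4, [⟨nat_lit 7, nat_lit 3504, nat_lit 8160, nat_lit 3600, nat_lit 96, nat_lit 11088, R4_75, R2_2, R6_231⟩]⟩, ⟨nat_lit 6, [⟨nat_lit 4, nat_lit 9648, nat_lit 1584, nat_lit 13584, nat_lit 1056, nat_lit 9936, R3_283, R7_22, R6_207⟩, ⟨nat_lit 7, nat_lit 9792, nat_lit 8208, nat_lit 13632, nat_lit 240, nat_lit 11184, R3_284, R2_5, R8_233⟩]⟩]⟩], [], [⟨nat_lit 5, [⟨nat_lit 4, [⟨nat_lit 4, nat_lit 3600,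 nat_lit 96, nat_lit 3504, nat_lit 7008, nat_lit 3312, R4_73, R7_146, R6_69⟩, ⟨nat_lit 5, nat_lit 3696, nat_lit 5808, nat_lit 3936, nat_lit 5232, nat_lit 3024, R4_82, R2_109, R4_63⟩, ⟨nat_lit 7, nat_lit 3840, nat_lit 7104, nat_lit 3840, nat_lit 7104, nat_lit 3024, R4_80, R2_148, R8_63⟩]⟩, ⟨nat_lit 6, [⟨nat_lit 4, nat_lit 9888, nat_lit 144, nat_lit 13728, nat_lit 7056, nat_lit 12960, R3_286, R7_147, R13_270⟩, ⟨nat_lit 5, nat_lit 10032, nat_lit 5856, nat_lit 13824, nat_lit 5280, nat_lit 9648, R3_288, R2_110, R3_201⟩, ⟨nat_lit 7, nat_lit 10176, nat_lit 7152, nat_lit 13776, nat_lit 7248, nat_lit 10176, R3_287, R2_151, R9_212⟩]⟩]⟩], [⟨nat_lit 5, [⟨nat_lit 4, [⟨nat_lit 7, nat_lit 3936, nat_lit 5232, nat_lit 3696, nat_lit 5808, nat_lit 3024, R4_77, R2_121, R4_63⟩]⟩, ⟨nat_lit 6, [⟨nat_lit 7, nat_lit 10272, nat_lit 5520,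 nat_lit 13680, nat_lit 5952, nat_lit 768, R3_285, R2_124, R5_16⟩]⟩]⟩]], [[⟨nat_lit 4, [⟨nat_lit 4, [⟨nat_lit 7, nat_lit 3312, nat_lit 0, nat_lit 3648, nat_lit 1152, nat_lit 11424, R6_76, R2_24, R6_238⟩]⟩, ⟨nat_lit 6, [⟨nat_lit 4, nat_lit 9216, nat_lit 672, nat_lit 18288, nat_lit 4896, nat_lit 10080, R13_381, R7_102, R6_210⟩, ⟨nat_lit 6, nat_lit 9264, nat_lit 1632, nat_lit 18336, nat_lit 3312, nat_lit 11088, R13_382, R2_69, R4_231⟩, ⟨nat_lit 7, nat_lit 9312, nat_lit 1056, nat_lit 18384, nat_lit 8208, nat_lit 11712, R13_383, R2_171, R8_244⟩]⟩]⟩,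
 ⟨nat_lit 5, [⟨nat_lit 4, [⟨nat_lit 7, nat_lit 3552, nat_lit 96, nat_lit 3648, nat_lit 48, nat_lit 11520, R4_76, R12_1, R6_240⟩]⟩, ⟨nat_lit 6, [⟨nat_lit 4, nat_lit 9696, nat_lit 720, nat_lit 13872, nat_lit 15504, nat_lit 10128, R3_289, R14_323, R6_211⟩, ⟨nat_lit 6, nat_lit 9744, nat_lit 1680, nat_lit 13920, nat_lit 12768, nat_lit 11184, R3_290, R12_266, R4_233⟩, ⟨nat_lit 7, nat_lit 9840, nat_lit 1152, nat_lit 13968, nat_lit 816, nat_lit 11808, R3_291, R12_17, R8_246⟩]⟩]⟩,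
 ⟨nat_lit 6, [⟨nat_lit 2, [⟨nat_lit 6, nat_lit 13920, nat_lit 3408, nat_lit 13728, nat_lit 13248, nat_lit 12336, R2_286, R1_276, R7_257⟩]⟩, ⟨nat_lit 6, [⟨nat_lit 6, nat_lit 9552, nat_lit 1728, nat_lit 3168, nat_lit 2784, nat_lit 11136, R3_66, R1_58, R4_232⟩]⟩]⟩,
 ⟨nat_lit 7, [⟨nat_lit 4, [⟨nat_lit 7, nat_lit 4080, nat_lit 48, nat_lit 96, nat_lit 624, nat_lit 11472, R8_2, R1_13, R6_239⟩]⟩, ⟨nat_lit 6, [⟨nat_lit 7, nat_lit 10416, nat_lit 1104, nat_lit 15072, nat_lit 9024, nat_lit 11760, R9_314, R1_188, R8_245⟩]⟩, ⟨nat_lit 7, [⟨nat_lit 7, nat_lit 11712, nat_lit 336, nat_lit 15984, nat_lit 6144, nat_lit 12000, R5_333, R1_128, R4_250⟩]⟩]⟩], [⟨nat_lit 6, [⟨nat_lit 2, [⟨nat_lit 6, nat_lit 13968, nat_lit 1776, nat_lit 13776, nat_lit 13488, nat_lit 10944, R2_287, R1_281, R2_228⟩]⟩]⟩], [⟨nat_lit 4, [⟨nat_lit 4, [⟨nat_lit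 4, nat_lit 3360, nat_lit 96, nat_lit 3600, nat_lit 48, nat_lit 3216, R6_75, R7_1, R6_67⟩, ⟨nat_lit 7, nat_lit 3408, nat_lit 912, nat_lit 3744, nat_lit 1440, nat_lit 1872, R6_78, R2_30, R8_39⟩]⟩, ⟨nat_lit 6, [⟨nat_lit 4, nat_lit 9360, nat_lit 384, nat_lit 18480, nat_lit 4992, nat_lit 13056, R13_385, R7_104, R13_272⟩, ⟨nat_lit 6, nat_lit 9408, nat_lit 2448, nat_lit 18528, nat_lit 3408, nat_lit 2784, R13_386, R2_71, R3_58⟩, ⟨nat_lit 7, nat_lit 9456, nat_lit 1488, nat_lit 18576, nat_lit 8496, nat_lit 10320, R13_387, R2_177, R9_215⟩]⟩]⟩,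
 ⟨nat_lit 5, [⟨nat_lit 4, [⟨nat_lit 4, nat_lit 3648, nat_lit 144, nat_lit 3552, nat_lit 15888, nat_lit 3360, R4_74, R14_331, R6_70⟩, ⟨nat_lit 5, nat_lit 3744, nat_lit 576, nat_lit 3984, nat_lit 12960, nat_lit 3120, R4_83, R12_270, R4_65⟩, ⟨nat_lit 7, nat_lit 3888, nat_lit 1008, nat_lit 3888, nat_lit 6816, nat_lit 3072, R4_81, R12_142, R8_64⟩]⟩, ⟨nat_lit 6, [⟨nat_lit 4, nat_lit 9936, nat_lit 432, nat_lit 14064, nat_lit 16416, nat_lit 13104, R3_293, R14_342, R13_273⟩, ⟨nat_lit 5, nat_lit 10080, nat_lit 624, nat_lit 14208, nat_lit 13488, nat_lit 9840, R3_296, R12_281, R3_205⟩, ⟨nat_lit 6, nat_lit 9984, nat_lit 2496, nat_lit 14112, nat_lit 13200, nat_lit 2880, R3_294, R12_275, R3_60⟩, ⟨nat_lit 7, nat_lit 10224, nat_lit 1584, nat_lit 14160, nat_lit 8256, nat_lit 10416, R3_295, R12_172, R9_217⟩]⟩]⟩,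
 ⟨nat_lit 6, [⟨nat_lit 2, [⟨nat_lit 6, nat_lit 14016, nat_lit 2160, nat_lit 13824, nat_lit 13344, nat_lit 10320, R2_288, R1_278, R2_215⟩]⟩, ⟨nat_lit 6, [⟨nat_lit 6, nat_lit 9600, nat_lit 2544, nat_lit 3216, nat_lit 2880, nat_lit 2832, R3_67, R1_60, R3_59⟩]⟩]⟩,
 ⟨nat_lit 7, [⟨nat_lit 4, [⟨nat_lit 7, nat_lit 4128, nat_lit 960, nat_lit 1968, nat_lit 912, nat_lit 2736, R8_41, R1_19, R8_57⟩]⟩, ⟨nat_lit 6, [⟨nat_lit 7, nat_lit 10464, nat_lit 1536, nat_lit 15168, nat_lit 9312, nat_lit 10368, R9_316, R1_194, R9_216⟩]⟩, ⟨nat_lit 7, [⟨nat_lit 7, nat_lit 11760, nat_lit 1152, nat_lit 16032, nat_lit 6336, nat_lit 12720, R5_334, R1_132, R5_265⟩]⟩]⟩], [⟨nat_lit 4, [⟨nat_lit 4, [⟨nat_lit 7, nat_lit 3456, nat_lit 12672, nat_lit 3696, nat_lit 1296, nat_lit 2352, R6_77, R2_27, R4_49⟩]⟩, ⟨nat_lit 6, [⟨nat_lit 7, nat_lit 9504, nat_lit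 15504, nat_lit 18432, nat_lit 8352, nat_lit 480, R13_384, R2_174, R5_10⟩]⟩]⟩,
 ⟨nat_lit 5, [⟨nat_lit 4, [⟨nat_lit 7, nat_lit 3984, nat_lit 12960, nat_lit 3744, nat_lit 5904, nat_lit 3120, R4_78, R12_123, R4_65⟩]⟩, ⟨nat_lit 6, [⟨nat_lit 7, nat_lit 10320, nat_lit 15888, nat_lit 14016, nat_lit 6048, nat_lit 864, R3_292, R12_126, R5_18⟩]⟩]⟩,
 ⟨nat_lit 7, [⟨nat_lit 4, [⟨nat_lit 7, nat_lit 4176, nat_lit 12816, nat_lit 624, nat_lit 768, nat_lit 2736, R8_13, R1_16, R4_57⟩]⟩, ⟨nat_lit 6, [⟨nat_lit 7, nat_lit 10512, nat_lit 15696, nat_lit 15120, nat_lit 9168, nat_lit 672, R9_315, R1_191, R5_14⟩]⟩]⟩]], [[], [], [⟨nat_lit 5, [⟨nat_lit 4, [⟨nat_lit 5, nat_lit 3792, nat_lit 4512, nat_lit 4032, nat_lit 3936, nat_lit 3072, R4_84, R1_82, R4_64⟩]⟩, ⟨nat_lit 6, [⟨nat_lit 5, nat_lit 10128, nat_lit 4560, nat_lit 14304, nat_lit 3984,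 nat_lit 9744, R3_298, R1_83, R3_203⟩]⟩]⟩]], [[], [], [], [⟨nat_lit 5, [⟨nat_lit 4, [⟨nat_lit 7, nat_lit 4032, nat_lit 3936, nat_lit 3792, nat_lit 4512, nat_lit 3072, R4_79, R1_94, R4_64⟩]⟩, ⟨nat_lit 6, [⟨nat_lit 7, nat_lit 10368, nat_lit 4224, nat_lit 14256, nat_lit 4656, nat_lit 816, R3_297, R1_97, R5_17⟩]⟩]⟩]]], [[], [[], [⟨nat_lit 6, [⟨nat_lit 2, [⟨nat_lit 6, nat_lit 13872, nat_lit 10896, nat_lit 14016, nat_lit 13728, nat_lit 10848, R2_292, R1_286, R2_226⟩]⟩]⟩]], [], [], [], [[], [⟨nat_lit 0, [⟨nat_lit 0, [⟨nat_lit 0, nat_lit 12240, nat_lit 2736, nat_lit 8304, nat_lit 1920, nat_lit 15120, R6_173, R4_40, R6_315⟩]⟩, ⟨nat_lit 1, [⟨nat_lit 0, nat_lit 13104, nat_lit 2784, nat_lit 8880, nat_lit 10848, nat_lit 14544, R4_185, R4_226, R4_303⟩]⟩, ⟨nat_lit 3, [⟨nat_lit 0, nat_lit 14640, nat_lit 2832, nat_lit 5232, nat_lit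 7440, nat_lit 18240, R8_109, R4_155, R8_380⟩, ⟨nat_lit 3, nat_lit 14688, nat_lit 2880, nat_lit 5616, nat_lit 2400, nat_lit 13248, R8_117, R3_50, R5_276⟩]⟩]⟩,
 ⟨nat_lit 2, [⟨nat_lit 0, [⟨nat_lit 0, nat_lit 12288, nat_lit 2976, nat_lit 19056, nat_lit 1152, nat_lit 15216, R13_397, R5_24, R6_317⟩, ⟨nat_lit 2, nat_lit 12336, nat_lit 3168, nat_lit 19104, nat_lit 9504, nat_lit 13776, R13_398, R11_198, R13_287⟩]⟩, ⟨nat_lit 1, [⟨nat_lit 0, nat_lit 13248, nat_lit 3024, nat_lit 15264, nat_lit 13200, nat_lit 14592, R3_318, R5_275, R4_304⟩, ⟨nat_lit 2, nat_lit 13296, nat_lit 3216, nat_lit 15312, nat_lit 9648, nat_lit 10464, R3_319, R11_201, R3_218⟩]⟩, ⟨nat_lit 2, [⟨nat_lit 2, nat_lit 13728, nat_lit 3312, nat_lit 8640, nat_lit 9600, nat_lit 16800, R3_180, R11_200, R3_350⟩]⟩, ⟨nat_lit 3, [⟨nat_lit 0, nat_lit 14736, nat_lit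 3072, nat_lit 15360, nat_lit 9504, nat_lit 19104, R9_320, R5_198, R8_398⟩, ⟨nat_lit 2, nat_lit 14784, nat_lit 3264, nat_lit 15408, nat_lit 9552, nat_lit 11424, R9_321, R11_199, R9_238⟩, ⟨nat_lit 3, nat_lit 14832, nat_lit 3120, nat_lit 15456, nat_lit 6960, nat_lit 13296, R9_322, R0_145, R5_277⟩]⟩]⟩,
 ⟨nat_lit 3, [⟨nat_lit 3, [⟨nat_lit 3, nat_lit 14880, nat_lit 2928, nat_lit 16224, nat_lit 8544, nat_lit 13344, R5_338, R10_178, R5_278⟩]⟩]⟩,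
 ⟨nat_lit 6, [⟨nat_lit 2, [⟨nat_lit 2, nat_lit 13776, nat_lit 3360, nat_lit 13920, nat_lit 5904, nat_lit 16704, R2_290, R1_123, R3_348⟩, ⟨nat_lit 6, nat_lit 13824, nat_lit 3408, nat_lit 13968, nat_lit 7104, nat_lit 10896, R2_291, R10_148, R2_227⟩]⟩]⟩], [], [], [], [⟨nat_lit 0, [⟨nat_lit 1, [⟨nat_lit 0, nat_lit 13056, nat_lit 2592, nat_lit 8928, nat_lit 11040, nat_lit 17616, R4_186, R4_230, R7_367⟩]⟩]⟩,
 ⟨nat_lit 2, [⟨nat_lit 1, [⟨nat_lit 0, nat_lit 13152, nat_lit 2640, nat_lit 15168, nat_lit 12864, nat_lit 17712, R3_316, R5_268, R7_369⟩, ⟨nat_lit 2, nat_lit 13200, nat_lit 2688, nat_lit 15216, nat_lit 8976, nat_lit 14832, R3_317, R11_187, R2_309⟩]⟩]⟩]]], [[], [[], [], [], [⟨nat_lit 7, [⟨nat_lit 4, [⟨nat_lit 7, nat_lit 4464, nat_lit 12768, nat_lit 576, nat_lit 432, nat_lit 1344, R4_12, R1_9, R4_28⟩]⟩, ⟨nat_lit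 6, [⟨nat_lit 7, nat_lit 10752, nat_lit 16032, nat_lit 2160, nat_lit 8688, nat_lit 576, R5_45, R1_181, R5_12⟩]⟩]⟩]], [], [], [], [[⟨nat_lit 0, [⟨nat_lit 3, [⟨nat_lit 0, nat_lit 14928, nat_lit 4368, nat_lit 5808, nat_lit 5664, nat_lit 10176, R4_121, R4_118, R6_212⟩, ⟨nat_lit 3, nat_lit 14976, nat_lit 5136, nat_lit 6432, nat_lit 864, nat_lit 11232, R4_134, R3_18, R4_234⟩]⟩, ⟨nat_lit 7, [⟨nat_lit 3, nat_lit 11808, nat_lit 14784, nat_lit 5952, nat_lit 1440, nat_lit 12480, R7_124, R3_30, R7_260⟩]⟩]⟩,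
 ⟨nat_lit 2, [⟨nat_lit 3, [⟨nat_lit 0, nat_lit 15168, nat_lit 4656, nat_lit 8784, nat_lit 8160, nat_lit 10224, R5_183, R5_170, R6_213⟩, ⟨nat_lit 2, nat_lit 15216, nat_lit 6288, nat_lit 8928, nat_lit 8400, nat_lit 10800, R5_186, R11_175, R8_225⟩, ⟨nat_lit 3, nat_lit 15264, nat_lit 5328, nat_lit 9072, nat_lit 5856, nat_lit 11280, R5_189, R0_122, R4_235⟩]⟩]⟩,
 ⟨nat_lit 3, [⟨nat_lit 4, [⟨nat_lit 7, nat_lit 4224, nat_lit 14400, nat_lit 144, nat_lit 6096, nat_lit 10848, R7_3, R1_127, R6_226⟩]⟩, ⟨nat_lit 7, [⟨nat_lit 3, nat_lit 11952, nat_lit 14976, nat_lit 17136, nat_lit 7344, nat_lit 12528, R14_357, R10_153, R7_261⟩, ⟨nat_lit 7, nat_lit 12000, nat_lit 15984, nat_lit 17088, nat_lit 6144, nat_lit 11712, R14_356, R1_128, R4_244⟩]⟩]⟩,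
 ⟨nat_lit 7, [⟨nat_lit 4, [⟨nat_lit 7, nat_lit 4368, nat_lit 14496, nat_lit 48, nat_lit 7632, nat_lit 10800, R4_1, R11_159, R6_225⟩]⟩, ⟨nat_lit 6, [⟨nat_lit 4, nat_lit 10560, nat_lit 16848, nat_lit 1968, nat_lit 8304, nat_lit 9888, R5_41, R5_173, R6_206⟩, ⟨nat_lit 6, nat_lit 10608, nat_lit 17568, nat_lit 2016, nat_lit 5616, nat_lit 10944, R5_42, R0_117, R4_228⟩, ⟨nat_lit 7, nat_lit 10656, nat_lit 17184, nat_lit 2064, nat_lit 7680, nat_lit 10848, R5_43, R11_160, R8_226⟩]⟩]⟩], [⟨nat_lit 0, [⟨nat_lit 3, [⟨nat_lit 0, nat_lit 15024, nat_lit 2160, nat_lit 5904, nat_lit 6096, nat_lit 18192, R4_123, R4_127, R8_379⟩, ⟨nat_lit 3, nat_lit 15072, nat_lit 2208, nat_lit 6480, nat_lit 912, nat_lit 13392, R4_135, R3_19, R5_279⟩]⟩]⟩,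
 ⟨nat_lit 2, [⟨nat_lit 3, [⟨nat_lit 0, nat_lit 15312, nat_lit 2256, nat_lit 8832, nat_lit 9360, nat_lit 19056, R5_184, R5_195, R8_397⟩, ⟨nat_lit 2, nat_lit 15360, nat_lit 2352, nat_lit 8976, nat_lit 8736, nat_lit 11472, R5_187, R11_182, R9_239⟩, ⟨nat_lit 3, nat_lit 15408, nat_lit 2304, nat_lit 9120, nat_lit 6192, nat_lit 13440, R5_190, R0_129, R5_280⟩]⟩]⟩], [], [⟨nat_lit 0, [⟨nat_lit 3, [⟨nat_lit 0, nat_lit 15120, nat_lit 4368, nat_lit 5856, nat_lit 5856, nat_lit 15120, R4_122, R4_122, R4_315⟩]⟩, ⟨nat_lit 7, [⟨nat_lit 0, nat_lit 11856, nat_lit 4416, nat_lit 5568, nat_lit 12432, nat_lit 17568, R7_116, R4_259, R7_366⟩, ⟨nat_lit 3, nat_lit 11904, nat_lit 4464, nat_lit 6000, nat_lit 1488, nat_lit 13200, R7_125, R3_31, R14_275⟩]⟩]⟩,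
 ⟨nat_lit 2, [⟨nat_lit 3, [⟨nat_lit 0, nat_lit 15456, nat_lit 4656, nat_lit 8880, nat_lit 8880, nat_lit 15456, R5_185, R5_185, R4_322⟩, ⟨nat_lit 2, nat_lit 15504, nat_lit 4704, nat_lit 9024, nat_lit 8544, nat_lit 17088, R5_188, R11_178, R5_356⟩]⟩]⟩,
 ⟨nat_lit 3, [⟨nat_lit 4, [⟨nat_lit 3, nat_lit 4272, nat_lit 4512, nat_lit 1152, nat_lit 7584, nat_lit 2064, R7_24, R10_158, R7_43⟩, ⟨nat_lit 7, nat_lit 4320, nat_lit 4608, nat_lit 720, nat_lit 6816, nat_lit 1824, R7_15, R1_142, R4_38⟩]⟩, ⟨nat_lit 7, [⟨nat_lit 3, nat_lit 12048, nat_lit 4560, nat_lit 17184, nat_lit 7632, nat_lit 13248, R14_358, R10_159, R14_276⟩]⟩]⟩,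
 ⟨nat_lit 7, [⟨nat_lit 4, [⟨nat_lit 7, nat_lit 4416, nat_lit 4752, nat_lit 528, nat_lit 7728, nat_lit 1392, R4_11, R11_161, R4_29⟩]⟩, ⟨nat_lit 6, [⟨nat_lit 7, nat_lit 10704, nat_lit 4800, nat_lit 2112, nat_lit 7776, nat_lit 624, R5_44, R11_162, R5_13⟩]⟩]⟩]]]]
noncomputable def N1503 : T3 (List N0) := [[], [], [], [], [], [[[⟨nat_lit 0, [⟨nat_lit 0, [⟨nat_lit 2, nat_lit 3120, nat_lit 15936, nat_lit 8736, nat_lit 12576, nat_lit 10992, R4_182, R6_262, R4_229⟩]⟩, ⟨nat_lit 3, [⟨nat_lit 2, nat_lit 3168, nat_lit 15984, nat_lit 11136, nat_lit 12624, nat_lit 12816, R3_232, R6_263, R5_267⟩]⟩]⟩,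
 ⟨nat_lit 2, [⟨nat_lit 0, [⟨nat_lit 2, nat_lit 3984, nat_lit 16656, nat_lit 5184, nat_lit 12912, nat_lit 11376, R5_108, R4_269, R4_237⟩, ⟨nat_lit 6, nat_lit 12480, nat_lit 12144, nat_lit 14832, nat_lit 13872, nat_lit 11808, R5_309, R7_289, R7_246⟩]⟩, ⟨nat_lit 2, [⟨nat_lit 6, nat_lit 12576, nat_lit 12192, nat_lit 18384, nat_lit 13920, nat_lit 14256, R11_383, R7_290, R14_297⟩]⟩, ⟨nat_lit 3, [⟨nat_lit 2, nat_lit 4032, nat_lit 16704, nat_lit 12192, nat_lit 12960, nat_lit 13056, R0_254, R4_270, R5_272⟩]⟩]⟩,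
 ⟨nat_lit 3, [⟨nat_lit 3, [⟨nat_lit 2, nat_lit 6384, nat_lit 16224, nat_lit 14496, nat_lit 13248, nat_lit 12960, R10_302, R8_276, R5_270⟩]⟩]⟩,
 ⟨nat_lit 4, [⟨nat_lit 6, [⟨nat_lit 7, nat_lit 14400, nat_lit 8736, nat_lit 11088, nat_lit 12288, nat_lit 2544, R3_231, R6_256, R5_53⟩]⟩]⟩,
 ⟨nat_lit 6, [⟨nat_lit 2, [⟨nat_lit 4, nat_lit 12000, nat_lit 2880, nat_lit 13200, nat_lit 14160, nat_lit 576, R1_275, R6_295, R7_12⟩, ⟨nat_lit 6, nat_lit 13728, nat_lit 12336, nat_lit 13248, nat_lit 13920, nat_lit 14208, R1_276, R4_290, R14_296⟩]⟩, ⟨nat_lit 6, [⟨nat_lit 4, nat_lit 12144, nat_lit 2928, nat_lit 14928, nat_lit 14112, nat_lit 384, R10_311, R6_294, R4_8⟩, ⟨nat_lit 7, nat_lit 14976, nat_lit 9024, nat_lit 14976, nat_lit 13056, nat_lit 2928, R10_312, R8_272, R5_61⟩]⟩]⟩,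
 ⟨nat_lit 7, [⟨nat_lit 6, [⟨nat_lit 7, nat_lit 15552, nat_lit 8928, nat_lit 12336, nat_lit 12528, nat_lit 2736, R0_257, R4_261, R5_57⟩]⟩]⟩], [], [⟨nat_lit 2, [⟨nat_lit 2, [⟨nat_lit 6, nat_lit 12624, nat_lit 10704, nat_lit 18816, nat_lit 13968, nat_lit 9840, R11_392, R7_291, R12_205⟩]⟩]⟩,
 ⟨nat_lit 4, [⟨nat_lit 6, [⟨nat_lit 7, nat_lit 14496, nat_lit 7632, nat_lit 11280, nat_lit 12528, nat_lit 9456, R3_235, R6_261, R0_197⟩]⟩]⟩,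
 ⟨nat_lit 6, [⟨nat_lit 2, [⟨nat_lit 4, nat_lit 12048, nat_lit 1008, nat_lit 13440, nat_lit 14304, nat_lit 0, R1_280, R6_298, R2_0⟩, ⟨nat_lit 6, nat_lit 13776, nat_lit 10944, nat_lit 13488, nat_lit 13968, nat_lit 9888, R1_281, R4_291, R12_206⟩]⟩, ⟨nat_lit 6, [⟨nat_lit 4, nat_lit 12240, nat_lit 1056, nat_lit 15072, nat_lit 14256, nat_lit 3696, R10_314, R6_297, R3_77⟩, ⟨nat_lit 7, nat_lit 15072, nat_lit 8112, nat_lit 15120, nat_lit 13200, nat_lit 9696, R10_315, R8_275, R0_202⟩]⟩]⟩,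
 ⟨nat_lit 7, [⟨nat_lit 6, [⟨nat_lit 7, nat_lit 15600, nat_lit 7968, nat_lit 12480, nat_lit 12864, nat_lit 9792, R0_260, R4_268, R0_204⟩]⟩]⟩], [⟨nat_lit 0, [⟨nat_lit 3, [⟨nat_lit 2, nat_lit 3216, nat_lit 14592, nat_lit 11184, nat_lit 12672, nat_lit 15744, R3_233, R6_264, R11_328⟩]⟩]⟩,
 ⟨nat_lit 2, [⟨nat_lit 0, [⟨nat_lit 6, nat_lit 12528, nat_lit 11568, nat_lit 15312, nat_lit 14016, nat_lit 10992, R5_319, R7_292, R2_229⟩]⟩, ⟨nat_lit 2, [⟨nat_lit 6, nat_lit 12672, nat_lit 11664, nat_lit 18624, nat_lit 14064, nat_lit 9984, R11_388, R7_293, R12_208⟩]⟩, ⟨nat_lit 3, [⟨nat_lit 2, nat_lit 4080, nat_lit 15648, nat_lit 12384, nat_lit 13008, nat_lit 15984, R0_258, R4_271, R11_333⟩, ⟨nat_lit 6, nat_lit 12720, nat_lit 11616, nat_lit 12432, nat_lit 14112, nat_lit 11568, R0_259, R7_294, R1_241⟩]⟩]⟩,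
 ⟨nat_lit 3, [⟨nat_lit 3, [⟨nat_lit 2, nat_lit 6432, nat_lit 15168, nat_lit 15024, nat_lit 13296, nat_lit 15888, R10_313, R8_277, R11_331⟩]⟩, ⟨nat_lit 7, [⟨nat_lit 0, nat_lit 672, nat_lit 12096, nat_lit 13296, nat_lit 14352, nat_lit 1728, R1_277, R6_299, R2_36⟩, ⟨nat_lit 2, nat_lit 6480, nat_lit 14928, nat_lit 13392, nat_lit 13344, nat_lit 1200, R1_279, R8_278, R1_25⟩, ⟨nat_lit 3, nat_lit 10320, nat_lit 13824, nat_lit 13344, nat_lit 14016, nat_lit 9744, R1_278, R4_292, R12_203⟩]⟩]⟩,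
 ⟨nat_lit 4, [⟨nat_lit 6, [⟨nat_lit 7, nat_lit 14592, nat_lit 3216, nat_lit 11184, nat_lit 12672, nat_lit 15744, R3_233, R6_264, R11_328⟩]⟩]⟩,
 ⟨nat_lit 6, [⟨nat_lit 2, [⟨nat_lit 4, nat_lit 12096, nat_lit 672, nat_lit 13296, nat_lit 14352, nat_lit 1728, R1_277, R6_299, R2_36⟩, ⟨nat_lit 6, nat_lit 13824, nat_lit 10320, nat_lit 13344, nat_lit 14016, nat_lit 9744, R1_278, R4_292, R12_203⟩, ⟨nat_lit 7, nat_lit 14928, nat_lit 6480, nat_lit 13392, nat_lit 13344, nat_lit 1200, R1_279, R8_278, R1_25⟩]⟩, ⟨nat_lit 6, [⟨nat_lit 7, nat_lit 15168, nat_lit 6432, nat_lit 15024, nat_lit 13296, nat_lit 15888, R10_313, R8_277, R11_331⟩]⟩]⟩,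
 ⟨nat_lit 7, [⟨nat_lit 4, [⟨nat_lit 3, nat_lit 11568, nat_lit 12528, nat_lit 15312, nat_lit 14016, nat_lit 10992, R5_319, R7_292, R2_229⟩]⟩, ⟨nat_lit 6, [⟨nat_lit 3, nat_lit 11616, nat_lit 12720, nat_lit 12432, nat_lit 14112, nat_lit 11568, R0_259, R7_294, R1_241⟩, ⟨nat_lit 7, nat_lit 15648, nat_lit 4080, nat_lit 12384, nat_lit 13008, nat_lit 15984, R0_258, R4_271, R11_333⟩]⟩, ⟨nat_lit 7, [⟨nat_lit 3, nat_lit 11664, nat_lit 12672, nat_lit 18624, nat_lit 14064, nat_lit 9984, R11_388, R7_293, R12_208⟩]⟩]⟩]], [[⟨nat_lit 0, [⟨nat_lit 0, [⟨nat_lit 2, nat_lit 3312, nat_lit 12960, nat_lit 9264, nat_lit 17808, nat_lit 11088, R4_193, R13_371, R4_231⟩]⟩, ⟨nat_lit 3, [⟨nat_lit 2, nat_lit 3600, nat_lit 13296, nat_lit 12048, nat_lit 17856, nat_lit 13824, R3_251, R13_372, R5_288⟩]⟩]⟩,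
 ⟨nat_lit 2, [⟨nat_lit 0, [⟨nat_lit 2, nat_lit 4176, nat_lit 13008, nat_lit 5232, nat_lit 6432, nat_lit 11424, R5_109, R3_134, R4_238⟩, ⟨nat_lit 6, nat_lit 12864, nat_lit 12384, nat_lit 14880, nat_lit 13152, nat_lit 11904, R5_310, R2_274, R7_248⟩]⟩, ⟨nat_lit 2, [⟨nat_lit 6, nat_lit 13200, nat_lit 14448, nat_lit 19200, nat_lit 13200, nat_lit 15072, R11_400, R2_275, R14_314⟩]⟩, ⟨nat_lit 3, [⟨nat_lit 2, nat_lit 4464, nat_lit 13392, nat_lit 12768, nat_lit 6672, nat_lit 14160, R0_266, R3_139, R5_295⟩]⟩]⟩,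
 ⟨nat_lit 3, [⟨nat_lit 3, [⟨nat_lit 2, nat_lit 6576, nat_lit 13344, nat_lit 15792, nat_lit 14784, nat_lit 14016, R10_329, R9_308, R5_292⟩]⟩]⟩], [⟨nat_lit 0, [⟨nat_lit 0, [⟨nat_lit 2, nat_lit 3408, nat_lit 10224, nat_lit 9408, nat_lit 17952, nat_lit 2784, R4_196, R13_374, R3_58⟩]⟩, ⟨nat_lit 3, [⟨nat_lit 2, nat_lit 3696, nat_lit 10944, nat_lit 12144, nat_lit 18000, nat_lit 1392, R3_253, R13_375, R0_29⟩]⟩]⟩,
 ⟨nat_lit 2, [⟨nat_lit 0, [⟨nat_lit 2, nat_lit 4272, nat_lit 10272, nat_lit 5424, nat_lit 6528, nat_lit 7536, R5_113, R3_136, R3_157⟩, ⟨nat_lit 6, nat_lit 12960, nat_lit 9648, nat_lit 15840, nat_lit 13440, nat_lit 10368, R5_330, R2_280, R2_216⟩]⟩, ⟨nat_lit 2, [⟨nat_lit 6, nat_lit 13344, nat_lit 11520, nat_lit 19680, nat_lit 13488, nat_lit 12144, R11_410, R2_281, R12_253⟩]⟩, ⟨nat_lit 3, [⟨nat_lit 2, nat_lit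 4560, nat_lit 11040, nat_lit 13104, nat_lit 6912, nat_lit 1488, R0_273, R3_144, R0_31⟩]⟩]⟩,
 ⟨nat_lit 3, [⟨nat_lit 3, [⟨nat_lit 2, nat_lit 6672, nat_lit 10992, nat_lit 16656, nat_lit 14928, nat_lit 1632, R10_347, R9_311, R0_34⟩]⟩]⟩], [⟨nat_lit 2, [⟨nat_lit 2, [⟨nat_lit 6, nat_lit 13248, nat_lit 11472, nat_lit 20352, nat_lit 13248, nat_lit 11904, R11_424, R2_276, R12_248⟩]⟩]⟩], [⟨nat_lit 0, [⟨nat_lit 3, [⟨nat_lit 2, nat_lit 3840, nat_lit 5376, nat_lit 12096, nat_lit 17904, nat_lit 16896, R3_252, R13_373, R11_352⟩]⟩]⟩,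
 ⟨nat_lit 2, [⟨nat_lit 0, [⟨nat_lit 6, nat_lit 13104, nat_lit 2016, nat_lit 15360, nat_lit 13296, nat_lit 11424, R5_320, R2_277, R2_238⟩]⟩, ⟨nat_lit 2, [⟨nat_lit 6, nat_lit 13488, nat_lit 11712, nat_lit 20160, nat_lit 13344, nat_lit 12000, R11_420, R2_278, R12_250⟩]⟩, ⟨nat_lit 3, [⟨nat_lit 2, nat_lit 4656, nat_lit 5808, nat_lit 13344, nat_lit 6768, nat_lit 17232, R0_278, R3_141, R11_359⟩, ⟨nat_lit 6, nat_lit 13632, nat_lit 6528, nat_lit 13392, nat_lit 13392, nat_lit 12000, R0_279, R2_279, R1_250⟩]⟩]⟩,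
 ⟨nat_lit 3, [⟨nat_lit 3, [⟨nat_lit 2, nat_lit 6816, nat_lit 5568, nat_lit 17520, nat_lit 14832, nat_lit 17088, R10_365, R9_309, R11_356⟩]⟩, ⟨nat_lit 7, [⟨nat_lit 0, nat_lit 768, nat_lit 13824, nat_lit 14256, nat_lit 7008, nat_lit 2784, R1_297, R8_146, R2_58⟩, ⟨nat_lit 2, nat_lit 6912, nat_lit 14736, nat_lit 14352, nat_lit 14880, nat_lit 2256, R1_299, R9_310, R1_47⟩, ⟨nat_lit 3, nat_lit 10416, nat_lit 14496, nat_lit 14304, nat_lit 15888, nat_lit 9792, R1_298, R5_331, R12_204⟩]⟩]⟩]], [[], [], [⟨nat_lit 2, [⟨nat_lit 2, [⟨nat_lit 6, nat_lit 12768, nat_lit 11088, nat_lit 20976, nat_lit 14352, nat_lit 10560, R11_437, R2_299, R12_220⟩]⟩]⟩,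
 ⟨nat_lit 4, [⟨nat_lit 6, [⟨nat_lit 4, nat_lit 11904, nat_lit 192, nat_lit 15936, nat_lit 13968, nat_lit 624, R3_332, R6_291, R3_13⟩, ⟨nat_lit 5, nat_lit 13920, nat_lit 5904, nat_lit 16704, nat_lit 13776, nat_lit 12240, R3_348, R4_287, R10_255⟩, ⟨nat_lit 7, nat_lit 14640, nat_lit 8160, nat_lit 16272, nat_lit 13680, nat_lit 9504, R3_339, R8_285, R0_198⟩]⟩]⟩,
 ⟨nat_lit 6, [⟨nat_lit 2, [⟨nat_lit 4, nat_lit 12336, nat_lit 336, nat_lit 13584, nat_lit 19728, nat_lit 3936, R1_283, R13_411, R2_82⟩, ⟨nat_lit 5, nat_lit 14112, nat_lit 6000, nat_lit 13680, nat_lit 15840, nat_lit 3408, R1_285, R3_330, R1_71⟩, ⟨nat_lit 6, nat_lit 13872, nat_lit 11328, nat_lit 13632, nat_lit 15648, nat_lit 10608, R1_284, R3_326, R12_221⟩]⟩, ⟨nat_lit 6, [⟨nat_lit 4, nat_lit 12384, nat_lit 384, nat_lit 15216, nat_lit 19680, nat_lit 4224, R10_317,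 R13_410, R3_88⟩, ⟨nat_lit 5, nat_lit 14160, nat_lit 6048, nat_lit 15312, nat_lit 15792, nat_lit 12336, R10_319, R3_329, R10_257⟩, ⟨nat_lit 7, nat_lit 15216, nat_lit 8640, nat_lit 15264, nat_lit 15936, nat_lit 9744, R10_318, R9_332, R0_203⟩]⟩]⟩,
 ⟨nat_lit 7, [⟨nat_lit 6, [⟨nat_lit 7, nat_lit 15696, nat_lit 8496, nat_lit 12576, nat_lit 16800, nat_lit 9840, R0_262, R5_350, R0_205⟩]⟩]⟩]], [[], [], [], [⟨nat_lit 3, [⟨nat_lit 3, [⟨nat_lit 2, nat_lit 7008, nat_lit 16176, nat_lit 18528, nat_lit 5952, nat_lit 16464, R10_386, R5_124, R11_343⟩]⟩, ⟨nat_lit 7, [⟨nat_lit 0, nat_lit 864, nat_lit 12672, nat_lit 15264, nat_lit 8112, nat_lit 2256, R1_318, R4_169, R2_47⟩, ⟨nat_lit 2, nat_lit 7056, nat_lit 15936, nat_lit 15312, nat_lit 5904, nat_lit 1728, R1_319, R5_123, R1_36⟩]⟩]⟩,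
 ⟨nat_lit 4, [⟨nat_lit 4, [⟨nat_lit 3, nat_lit 10512, nat_lit 13104, nat_lit 13680, nat_lit 14208, nat_lit 10752, R4_285, R7_296, R2_224⟩]⟩, ⟨nat_lit 6, [⟨nat_lit 3, nat_lit 10608, nat_lit 13152, nat_lit 15360, nat_lit 14448, nat_lit 11136, R3_320, R7_301, R1_232⟩, ⟨nat_lit 7, nat_lit 14832, nat_lit 2688, nat_lit 15216, nat_lit 13200, nat_lit 15792, R3_317, R4_275, R11_329⟩]⟩]⟩,
 ⟨nat_lit 6, [⟨nat_lit 2, [⟨nat_lit 7, nat_lit 15312, nat_lit 5184, nat_lit 13536, nat_lit 16560, nat_lit 6624, R1_282, R5_345, R1_138⟩]⟩, ⟨nat_lit 6, [⟨nat_lit 7, nat_lit 15456, nat_lit 5136, nat_lit 15168, nat_lit 16608, nat_lit 15936, R10_316, R5_346, R11_332⟩]⟩]⟩,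
 ⟨nat_lit 7, [⟨nat_lit 4, [⟨nat_lit 3, nat_lit 11712, nat_lit 13872, nat_lit 15504, nat_lit 16896, nat_lit 11040, R5_323, R14_352, R2_230⟩]⟩, ⟨nat_lit 6, [⟨nat_lit 3, nat_lit 11760, nat_lit 14064, nat_lit 12528, nat_lit 16944, nat_lit 11616, R0_261, R14_353, R1_242⟩]⟩, ⟨nat_lit 7, [⟨nat_lit 0, nat_lit 2928, nat_lit 12432, nat_lit 18672, nat_lit 8112, nat_lit 576, R11_389, R7_169, R2_12⟩, ⟨nat_lit 3, nat_lit 11808, nat_lit 14016, nat_lit 18720, nat_lit 16992, nat_lit 10032, R11_390, R14_354, R12_209⟩]⟩]⟩]]], [[], [[], [⟨nat_lit 0, [⟨nat_lit 0, [⟨nat_lit 2, nat_lit 3456, nat_lit 1248, nat_lit 5568, nat_lit 18144, nat_lit 2304, R8_116, R13_378, R3_48⟩]⟩, ⟨nat_lit 1, [⟨nat_lit 2, nat_lit 3504, nat_lit 6672, nat_lit 14592, nat_lit 18240, nat_lit 6000, R5_304, R13_380, R10_125⟩]⟩, ⟨nat_lit 3, [⟨nat_lit 2, nat_lit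 3744, nat_lit 9456, nat_lit 13680, nat_lit 18192, nat_lit 1344, R9_285, R13_379, R0_28⟩]⟩]⟩,
 ⟨nat_lit 1, [⟨nat_lit 0, [⟨nat_lit 2, nat_lit 4848, nat_lit 1776, nat_lit 5664, nat_lit 13440, nat_lit 9936, R5_118, R3_280, R3_207⟩]⟩, ⟨nat_lit 1, [⟨nat_lit 2, nat_lit 4896, nat_lit 7200, nat_lit 18096, nat_lit 13536, nat_lit 6720, R11_377, R3_282, R10_140⟩]⟩, ⟨nat_lit 3, [⟨nat_lit 2, nat_lit 5040, nat_lit 10752, nat_lit 11808, nat_lit 13488, nat_lit 1872, R0_246, R3_281, R0_39⟩]⟩]⟩,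
 ⟨nat_lit 2, [⟨nat_lit 0, [⟨nat_lit 2, nat_lit 4320, nat_lit 2304, nat_lit 5280, nat_lit 6576, nat_lit 7200, R9_110, R3_137, R3_150⟩, ⟨nat_lit 6, nat_lit 13008, nat_lit 2160, nat_lit 5616, nat_lit 13584, nat_lit 6864, R9_117, R2_283, R2_143⟩]⟩, ⟨nat_lit 1, [⟨nat_lit 2, nat_lit 4368, nat_lit 7680, nat_lit 3120, nat_lit 6960, nat_lit 6432, R0_65, R3_145, R10_134⟩, ⟨nat_lit 6, nat_lit 13536, nat_lit 7536, nat_lit 3456, nat_lit 13680, nat_lit 5568, R0_72, R2_285, R1_116⟩]⟩, ⟨nat_lit 2, [⟨nat_lit 6, nat_lit 13392, nat_lit 12000, nat_lit 13392, nat_lit 13632, nat_lit 10752, R0_279, R2_284, R12_224⟩]⟩]⟩,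
 ⟨nat_lit 3, [⟨nat_lit 3, [⟨nat_lit 2, nat_lit 6720, nat_lit 10368, nat_lit 8640, nat_lit 15024, nat_lit 1584, R0_180, R9_313, R0_33⟩]⟩]⟩]], [], [], [], [[], [⟨nat_lit 1, [⟨nat_lit 0, [⟨nat_lit 2, nat_lit 5328, nat_lit 13824, nat_lit 5520, nat_lit 5904, nat_lit 9888, R5_115, R2_123, R3_206⟩]⟩, ⟨nat_lit 1, [⟨nat_lit 2, nat_lit 5376, nat_lit 13872, nat_lit 17616, nat_lit 6336, nat_lit 6816, R11_367, R2_132, R10_142⟩]⟩, ⟨nat_lit 3, [⟨nat_lit 2, nat_lit 5664, nat_lit 13920, nat_lit 11424, nat_lit 6192, nat_lit 1728, R0_238, R2_129, R0_36⟩]⟩]⟩], [], [], [], [⟨nat_lit 1, [⟨nat_lit 1, [⟨nat_lit 2, nat_lit 5424, nat_lit 12528, nat_lit 17664, nat_lit 6288, nat_lit 2400, R11_368, R2_131, R1_50⟩]⟩]⟩]]], [[], [[], [], [], [⟨nat_lit 0, [⟨nat_lit 3, [⟨nat_lit 2, nat_lit 3888, nat_lit 3264, nat_lit 8976, nat_lit 18048, nat_lit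 9024, R3_187, R13_376, R11_188⟩]⟩, ⟨nat_lit 7, [⟨nat_lit 0, nat_lit 0, nat_lit 13440, nat_lit 12048, nat_lit 6768, nat_lit 1008, R2_251, R6_141, R2_21⟩, ⟨nat_lit 2, nat_lit 3936, nat_lit 13584, nat_lit 12336, nat_lit 18096, nat_lit 336, R2_257, R13_377, R1_7⟩]⟩]⟩,
 ⟨nat_lit 1, [⟨nat_lit 3, [⟨nat_lit 2, nat_lit 5136, nat_lit 3792, nat_lit 14160, nat_lit 13344, nat_lit 9408, R10_295, R3_278, R11_196⟩]⟩, ⟨nat_lit 7, [⟨nat_lit 0, nat_lit 48, nat_lit 15360, nat_lit 12624, nat_lit 7344, nat_lit 3024, R1_263, R4_153, R2_63⟩, ⟨nat_lit 2, nat_lit 5184, nat_lit 15456, nat_lit 12912, nat_lit 13392, nat_lit 2496, R1_269, R3_279, R1_52⟩]⟩]⟩,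
 ⟨nat_lit 2, [⟨nat_lit 3, [⟨nat_lit 2, nat_lit 4704, nat_lit 5472, nat_lit 3696, nat_lit 6816, nat_lit 9264, R0_77, R3_142, R11_193⟩, ⟨nat_lit 6, nat_lit 13680, nat_lit 5568, nat_lit 3456, nat_lit 13536, nat_lit 7536, R0_72, R2_282, R1_157⟩]⟩]⟩,
 ⟨nat_lit 3, [⟨nat_lit 7, [⟨nat_lit 0, nat_lit 816, nat_lit 14400, nat_lit 13680, nat_lit 6960, nat_lit 2736, R12_285, R8_145, R2_57⟩, ⟨nat_lit 2, nat_lit 6960, nat_lit 14928, nat_lit 13728, nat_lit 14976, nat_lit 2208, R12_286, R9_312, R1_46⟩, ⟨nat_lit 3, nat_lit 10464, nat_lit 14784, nat_lit 13776, nat_lit 15936, nat_lit 9696, R12_287, R5_332, R12_202⟩]⟩]⟩]], [], [], [], [[⟨nat_lit 1, [⟨nat_lit 3, [⟨nat_lit 2, nat_lit 5568, nat_lit 7008, nat_lit 13584, nat_lit 6000, nat_lit 7728, R10_283, R2_125, R5_161⟩]⟩]⟩], [⟨nat_lit 1, [⟨nat_lit 3, [⟨nat_lit 2, nat_lit 5712, nat_lit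 11472, nat_lit 13680, nat_lit 6144, nat_lit 1776, R10_285, R2_128, R0_37⟩]⟩]⟩], [], [⟨nat_lit 1, [⟨nat_lit 3, [⟨nat_lit 2, nat_lit 5760, nat_lit 17808, nat_lit 13632, nat_lit 6048, nat_lit 7344, R10_284, R2_126, R11_153⟩]⟩, ⟨nat_lit 7, [⟨nat_lit 0, nat_lit 528, nat_lit 17760, nat_lit 12384, nat_lit 8064, nat_lit 2976, R1_258, R7_168, R2_62⟩, ⟨nat_lit 2, nat_lit 6240, nat_lit 17856, nat_lit 12480, nat_lit 5472, nat_lit 2448, R1_260, R2_114, R1_51⟩]⟩]⟩]]]]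
noncomputable def N1512 : T3 (List N0) := [[], [[[], [], [⟨nat_lit 4, [⟨nat_lit 4, [⟨nat_lit 4, nat_lit 2688, nat_lit 11616, nat_lit 3504, nat_lit 9072, nat_lit 2304, R7_73, R6_189, R4_48⟩, ⟨nat_lit 7, nat_lit 4032, nat_lit 11952, nat_lit 9648, nat_lit 18768, nat_lit 2688, R7_201, R13_391, R5_56⟩]⟩]⟩,
 ⟨nat_lit 5, [⟨nat_lit 4, [⟨nat_lit 4, nat_lit 2736, nat_lit 13920, nat_lit 11616, nat_lit 9744, nat_lit 11184, R14_242, R4_203, R4_233⟩, ⟨nat_lit 7, nat_lit 4080, nat_lit 14640, nat_lit 12000, nat_lit 14736, nat_lit 13920, R14_250, R3_307, R5_290⟩]⟩, ⟨nat_lit 6, [⟨nat_lit 4, nat_lit 3120, nat_lit 14112, nat_lit 10320, nat_lit 9984, nat_lit 2880, R12_215, R4_208, R3_60⟩]⟩, ⟨nat_lit 7, [⟨nat_lit 7, nat_lit 5424, nat_lit 14784, nat_lit 16896, nat_lit 14784, nat_lit 16992, R12_352, R3_308, R11_354⟩]⟩]⟩]]], [], [],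 [[], [], [], [], [], [[⟨nat_lit 0, [⟨nat_lit 0, [⟨nat_lit 0, nat_lit 96, nat_lit 3360, nat_lit 3600, nat_lit 3120, nat_lit 3216, R6_75, R7_65, R6_67⟩]⟩, ⟨nat_lit 3, [⟨nat_lit 0, nat_lit 384, nat_lit 9360, nat_lit 18480, nat_lit 9312, nat_lit 13056, R13_385, R7_194, R13_272⟩]⟩]⟩,
 ⟨nat_lit 1, [⟨nat_lit 0, [⟨nat_lit 0, nat_lit 144, nat_lit 3648, nat_lit 3552, nat_lit 4608, nat_lit 3360, R4_74, R14_96, R6_70⟩, ⟨nat_lit 1, nat_lit 576, nat_lit 3744, nat_lit 3984, nat_lit 2976, nat_lit 3120, R4_83, R12_62, R4_65⟩, ⟨nat_lit 2, nat_lit 1008, nat_lit 3888, nat_lit 3888, nat_lit 6816, nat_lit 3072, R4_81, R12_142, R8_64⟩]⟩, ⟨nat_lit 3, [⟨nat_lit 0, nat_lit 432, nat_lit 9936, nat_lit 14064, nat_lit 5136, nat_lit 13104, R3_293, R14_107, R13_273⟩, ⟨nat_lit 1, nat_lit 624, nat_lit 10080, nat_lit 14208, nat_lit 3504, nat_lit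 9840, R3_296, R12_73, R3_205⟩, ⟨nat_lit 2, nat_lit 1584, nat_lit 10224, nat_lit 14160, nat_lit 8256, nat_lit 10416, R3_295, R12_172, R9_217⟩, ⟨nat_lit 3, nat_lit 2496, nat_lit 9984, nat_lit 14112, nat_lit 13200, nat_lit 2880, R3_294, R12_275, R3_60⟩]⟩]⟩], [⟨nat_lit 0, [⟨nat_lit 0, [⟨nat_lit 0, nat_lit 6864, nat_lit 11664, nat_lit 9120, nat_lit 3312, nat_lit 1824, R6_190, R7_69, R8_38⟩]⟩, ⟨nat_lit 3, [⟨nat_lit 0, nat_lit 7488, nat_lit 12000, nat_lit 18960, nat_lit 9504, nat_lit 12192, R13_395, R7_198, R9_254⟩]⟩]⟩,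
 ⟨nat_lit 1, [⟨nat_lit 0, [⟨nat_lit 0, nat_lit 6912, nat_lit 13968, nat_lit 9840, nat_lit 6432, nat_lit 9792, R4_205, R14_134, R8_204⟩, ⟨nat_lit 1, nat_lit 7776, nat_lit 14016, nat_lit 10320, nat_lit 4416, nat_lit 864, R4_215, R12_92, R5_18⟩, ⟨nat_lit 2, nat_lit 8448, nat_lit 14160, nat_lit 10224, nat_lit 7392, nat_lit 1776, R4_213, R12_154, R9_37⟩]⟩, ⟨nat_lit 3, [⟨nat_lit 0, nat_lit 7536, nat_lit 14688, nat_lit 14928, nat_lit 7104, nat_lit 12960, R3_311, R14_148, R9_270⟩]⟩]⟩]]], [[[⟨nat_lit 7, [⟨nat_lit 7, [⟨nat_lit 3, nat_lit 1824, nat_lit 15264, nat_lit 20304, nat_lit 12624, nat_lit 10704, R11_423, R2_263, R2_223⟩]⟩]⟩], [], [⟨nat_lit 4, [⟨nat_lit 4, [⟨nat_lit 4, nat_lit 2784, nat_lit 1296, nat_lit 3456, nat_lit 7536, nat_lit 2352, R4_72, R6_157, R4_49⟩, ⟨nat_lit 7, nat_lit 4128, nat_lit 8352, nat_lit 9504,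 nat_lit 17232, nat_lit 480, R4_198, R13_359, R5_10⟩]⟩, ⟨nat_lit 6, [⟨nat_lit 4, nat_lit 3168, nat_lit 1344, nat_lit 11856, nat_lit 7824, nat_lit 2160, R3_247, R6_163, R3_45⟩, ⟨nat_lit 7, nat_lit 4752, nat_lit 8400, nat_lit 12288, nat_lit 17280, nat_lit 10512, R3_256, R13_360, R0_219⟩]⟩]⟩,
 ⟨nat_lit 6, [⟨nat_lit 2, [⟨nat_lit 6, nat_lit 3840, nat_lit 11184, nat_lit 15072, nat_lit 15600, nat_lit 12144, R1_314, R5_325, R1_253⟩]⟩, ⟨nat_lit 6, [⟨nat_lit 4, nat_lit 3216, nat_lit 2496, nat_lit 18048, nat_lit 5808, nat_lit 2688, R10_376, R8_121, R3_56⟩, ⟨nat_lit 6, nat_lit 3648, nat_lit 11232, nat_lit 18096, nat_lit 15552, nat_lit 12912, R10_377, R5_324, R10_269⟩, ⟨nat_lit 7, nat_lit 4800, nat_lit 10128, nat_lit 18144, nat_lit 14496, nat_lit 10560, R10_378, R9_302, R0_220⟩]⟩]⟩,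
 ⟨nat_lit 7, [⟨nat_lit 4, [⟨nat_lit 7, nat_lit 4176, nat_lit 9072, nat_lit 6960, nat_lit 7728, nat_lit 7440, R5_145, R3_161, R5_155⟩]⟩, ⟨nat_lit 6, [⟨nat_lit 7, nat_lit 4848, nat_lit 9168, nat_lit 13776, nat_lit 8304, nat_lit 10608, R0_287, R3_173, R0_221⟩]⟩, ⟨nat_lit 7, [⟨nat_lit 3, nat_lit 6384, nat_lit 14352, nat_lit 20448, nat_lit 12768, nat_lit 11088, R11_426, R2_266, R1_231⟩, ⟨nat_lit 7, nat_lit 5520, nat_lit 9120, nat_lit 20400, nat_lit 8016, nat_lit 16848, R11_425, R3_167, R11_351⟩]⟩]⟩], [⟨nat_lit 7, [⟨nat_lit 7, [⟨nat_lit 3, nat_lit 11472, nat_lit 13248, nat_lit 20352, nat_lit 13248, nat_lit 11904, R11_424, R2_276, R12_248⟩]⟩]⟩]], [[⟨nat_lit 0, [⟨nat_lit 0, [⟨nat_lit 0, nat_lit 48, nat_lit 8208, nat_lit 3552, nat_lit 3648, nat_lit 11520, R4_74, R4_76, R6_240⟩, ⟨nat_lit 2, nat_lit 816, nat_lit 8784,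 nat_lit 9840, nat_lit 13968, nat_lit 9792, R4_205, R3_291, R8_204⟩]⟩, ⟨nat_lit 3, [⟨nat_lit 0, nat_lit 288, nat_lit 9360, nat_lit 14064, nat_lit 9936, nat_lit 15024, R3_293, R4_207, R13_313⟩, ⟨nat_lit 2, nat_lit 1344, nat_lit 10464, nat_lit 14928, nat_lit 14688, nat_lit 12960, R3_311, R3_306, R9_270⟩]⟩]⟩,
 ⟨nat_lit 2, [⟨nat_lit 0, [⟨nat_lit 2, nat_lit 864, nat_lit 8832, nat_lit 6144, nat_lit 16800, nat_lit 10368, R5_128, R10_350, R8_216⟩]⟩, ⟨nat_lit 2, [⟨nat_lit 2, nat_lit 1104, nat_lit 11088, nat_lit 19440, nat_lit 16848, nat_lit 14256, R11_405, R10_351, R5_297⟩]⟩, ⟨nat_lit 3, [⟨nat_lit 2, nat_lit 1392, nat_lit 10560, nat_lit 12960, nat_lit 16896, nat_lit 13056, R0_270, R10_352, R9_272⟩]⟩]⟩,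
 ⟨nat_lit 3, [⟨nat_lit 3, [⟨nat_lit 0, nat_lit 336, nat_lit 9408, nat_lit 16176, nat_lit 4944, nat_lit 15072, R10_337, R5_103, R13_314⟩, ⟨nat_lit 2, nat_lit 1440, nat_lit 10512, nat_lit 16272, nat_lit 13152, nat_lit 13008, R10_339, R0_274, R9_271⟩, ⟨nat_lit 3, nat_lit 2400, nat_lit 10080, nat_lit 16224, nat_lit 19776, nat_lit 10992, R10_338, R11_412, R3_229⟩]⟩]⟩,
 ⟨nat_lit 7, [⟨nat_lit 7, [⟨nat_lit 3, nat_lit 1968, nat_lit 8064, nat_lit 20496, nat_lit 13968, nat_lit 11856, R11_427, R1_291, R2_247⟩]⟩]⟩], [⟨nat_lit 0, [⟨nat_lit 0, [⟨nat_lit 0, nat_lit 6816, nat_lit 6816, nat_lit 3888, nat_lit 3888, nat_lit 3072, R4_81, R4_81, R8_64⟩, ⟨nat_lit 2, nat_lit 8256, nat_lit 7392, nat_lit 10224, nat_lit 14160, nat_lit 10416, R4_213, R3_295, R9_217⟩]⟩, ⟨nat_lit 3, [⟨nat_lit 0, nat_lit 7392, nat_lit 8256, nat_lit 14160,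 nat_lit 10224, nat_lit 10416, R3_295, R4_213, R9_217⟩]⟩]⟩,
 ⟨nat_lit 2, [⟨nat_lit 0, [⟨nat_lit 2, nat_lit 8304, nat_lit 7440, nat_lit 6672, nat_lit 17136, nat_lit 10752, R5_139, R10_357, R9_224⟩]⟩, ⟨nat_lit 2, [⟨nat_lit 2, nat_lit 8976, nat_lit 9216, nat_lit 20016, nat_lit 17184, nat_lit 5520, R11_417, R10_358, R0_115⟩]⟩]⟩,
 ⟨nat_lit 3, [⟨nat_lit 3, [⟨nat_lit 0, nat_lit 7440, nat_lit 8304, nat_lit 17136, nat_lit 6672, nat_lit 10752, R10_357, R5_139, R9_224⟩, ⟨nat_lit 3, nat_lit 9216, nat_lit 8976, nat_lit 17184, nat_lit 20016, nat_lit 5520, R10_358, R11_417, R0_115⟩]⟩]⟩], [⟨nat_lit 0, [⟨nat_lit 0, [⟨nat_lit 0, nat_lit 5904, nat_lit 2976, nat_lit 3984, nat_lit 3744, nat_lit 3120, R4_83, R4_78, R4_65⟩, ⟨nat_lit 2, nat_lit 6048, nat_lit 4416, nat_lit 10320, nat_lit 14016, nat_lit 864, R4_215, R3_292, R5_18⟩]⟩,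 ⟨nat_lit 3, [⟨nat_lit 0, nat_lit 5952, nat_lit 3504, nat_lit 14208, nat_lit 10080, nat_lit 9840, R3_296, R4_210, R3_205⟩, ⟨nat_lit 2, nat_lit 6192, nat_lit 5088, nat_lit 15024, nat_lit 14880, nat_lit 11136, R3_313, R3_310, R0_232⟩]⟩]⟩,
 ⟨nat_lit 2, [⟨nat_lit 0, [⟨nat_lit 2, nat_lit 6096, nat_lit 4464, nat_lit 7056, nat_lit 16944, nat_lit 7824, R5_147, R10_353, R5_163⟩]⟩, ⟨nat_lit 2, [⟨nat_lit 2, nat_lit 6144, nat_lit 5760, nat_lit 20592, nat_lit 16992, nat_lit 17328, R11_429, R10_354, R11_361⟩, ⟨nat_lit 6, nat_lit 3936, nat_lit 6480, nat_lit 20640, nat_lit 14112, nat_lit 12288, R11_430, R1_294, R1_256⟩]⟩, ⟨nat_lit 3, [⟨nat_lit 2, nat_lit 6240, nat_lit 5184, nat_lit 13824, nat_lit 17040, nat_lit 11232, R0_288, R10_355, R0_234⟩]⟩]⟩,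
 ⟨nat_lit 3, [⟨nat_lit 3, [⟨nat_lit 0, nat_lit 6000, nat_lit 3552, nat_lit 18192, nat_lit 5616, nat_lit 10224, R10_379, R5_117, R3_213⟩, ⟨nat_lit 2, nat_lit 6288, nat_lit 5136, nat_lit 18288, nat_lit 13200, nat_lit 11184, R10_381, R0_275, R0_233⟩, ⟨nat_lit 3, nat_lit 6672, nat_lit 3792, nat_lit 18240, nat_lit 19872, nat_lit 13104, R10_380, R11_414, R10_273⟩]⟩, ⟨nat_lit 7, [⟨nat_lit 3, nat_lit 6432, nat_lit 3984, nat_lit 15120, nat_lit 19920, nat_lit 12240, R1_315, R11_415, R1_255⟩]⟩]⟩,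
 ⟨nat_lit 4, [⟨nat_lit 4, [⟨nat_lit 4, nat_lit 2976, nat_lit 5904, nat_lit 3984, nat_lit 3744, nat_lit 3120, R4_83, R4_78, R4_65⟩, ⟨nat_lit 7, nat_lit 4416, nat_lit 6048, nat_lit 10320, nat_lit 14016, nat_lit 864, R4_215, R3_292, R5_18⟩]⟩, ⟨nat_lit 6, [⟨nat_lit 4, nat_lit 3504, nat_lit 5952, nat_lit 14208, nat_lit 10080, nat_lit 9840, R3_296, R4_210, R3_205⟩, ⟨nat_lit 7, nat_lit 5088, nat_lit 6192, nat_lit 15024, nat_lit 14880, nat_lit 11136, R3_313, R3_310, R0_232⟩]⟩]⟩,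
 ⟨nat_lit 6, [⟨nat_lit 2, [⟨nat_lit 6, nat_lit 3984, nat_lit 6432, nat_lit 15120, nat_lit 19920, nat_lit 12240, R1_315, R11_415, R1_255⟩]⟩, ⟨nat_lit 6, [⟨nat_lit 4, nat_lit 3552, nat_lit 6000, nat_lit 18192, nat_lit 5616, nat_lit 10224, R10_379, R5_117, R3_213⟩, ⟨nat_lit 6, nat_lit 3792, nat_lit 6672, nat_lit 18240, nat_lit 19872, nat_lit 13104, R10_380, R11_414, R10_273⟩, ⟨nat_lit 7, nat_lit 5136, nat_lit 6288, nat_lit 18288, nat_lit 13200, nat_lit 11184, R10_381, R0_275, R0_233⟩]⟩]⟩,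
 ⟨nat_lit 7, [⟨nat_lit 4, [⟨nat_lit 7, nat_lit 4464, nat_lit 6096, nat_lit 7056, nat_lit 16944, nat_lit 7824, R5_147, R10_353, R5_163⟩]⟩, ⟨nat_lit 6, [⟨nat_lit 7, nat_lit 5184, nat_lit 6240, nat_lit 13824, nat_lit 17040, nat_lit 11232, R0_288, R10_355, R0_234⟩]⟩, ⟨nat_lit 7, [⟨nat_lit 3, nat_lit 6480, nat_lit 3936, nat_lit 20640, nat_lit 14112, nat_lit 12288, R11_430, R1_294, R1_256⟩, ⟨nat_lit 7, nat_lit 5760, nat_lit 6144, nat_lit 20592, nat_lit 16992, nat_lit 17328, R11_429, R10_354, R11_361⟩]⟩]⟩], [⟨nat_lit 0, [⟨nat_lit 3, [⟨nat_lit 0, nat_lit 10320, nat_lit 3120, nat_lit 14112, nat_lit 9984, nat_lit 2880, R3_294, R4_208, R3_60⟩, ⟨nat_lit 2, nat_lit 11088, nat_lit 4704, nat_lit 14976, nat_lit 14832, nat_lit 10752, R3_312, R3_309, R0_224⟩]⟩]⟩,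
 ⟨nat_lit 2, [⟨nat_lit 3, [⟨nat_lit 2, nat_lit 11136, nat_lit 5328, nat_lit 13632, nat_lit 17088, nat_lit 11088, R0_284, R10_356, R0_231⟩]⟩]⟩,
 ⟨nat_lit 3, [⟨nat_lit 3, [⟨nat_lit 0, nat_lit 10368, nat_lit 3360, nat_lit 17808, nat_lit 5472, nat_lit 7584, R10_371, R5_114, R3_158⟩, ⟨nat_lit 2, nat_lit 11184, nat_lit 4944, nat_lit 17856, nat_lit 13248, nat_lit 10944, R10_372, R0_276, R0_228⟩]⟩, ⟨nat_lit 7, [⟨nat_lit 0, nat_lit 9696, nat_lit 13776, nat_lit 14784, nat_lit 15936, nat_lit 10464, R1_308, R5_332, R2_218⟩, ⟨nat_lit 3, nat_lit 11568, nat_lit 14400, nat_lit 14832, nat_lit 19968, nat_lit 12288, R1_309, R11_416, R12_256⟩]⟩]⟩,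
 ⟨nat_lit 7, [⟨nat_lit 7, [⟨nat_lit 3, nat_lit 11616, nat_lit 14448, nat_lit 20544, nat_lit 14592, nat_lit 12240, R11_428, R1_304, R12_255⟩]⟩]⟩]], [[], [], [⟨nat_lit 4, [⟨nat_lit 4, [⟨nat_lit 4, nat_lit 2928, nat_lit 768, nat_lit 4176, nat_lit 624, nat_lit 2736, R4_87, R8_13, R4_57⟩, ⟨nat_lit 7, nat_lit 4320, nat_lit 9168, nat_lit 10512, nat_lit 15120, nat_lit 672, R4_219, R9_315, R5_14⟩]⟩, ⟨nat_lit 6, [⟨nat_lit 4, nat_lit 3408, nat_lit 816, nat_lit 16992, nat_lit 6000, nat_lit 7056, R3_354, R8_125, R3_147⟩, ⟨nat_lit 7, nat_lit 4992, nat_lit 9216, nat_lit 17136, nat_lit 15312, nat_lit 10800, R3_357, R9_319, R0_225⟩]⟩]⟩,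
 ⟨nat_lit 6, [⟨nat_lit 2, [⟨nat_lit 6, nat_lit 3888, nat_lit 11760, nat_lit 15168, nat_lit 13920, nat_lit 12192, R1_316, R0_290, R1_254⟩]⟩, ⟨nat_lit 6, [⟨nat_lit 4, nat_lit 3456, nat_lit 1968, nat_lit 18336, nat_lit 5040, nat_lit 7440, R10_382, R9_105, R3_155⟩, ⟨nat_lit 6, nat_lit 3744, nat_lit 11808, nat_lit 18384, nat_lit 3072, nat_lit 13008, R10_383, R0_64, R10_271⟩]⟩]⟩,
 ⟨nat_lit 7, [⟨nat_lit 4, [⟨nat_lit 7, nat_lit 4368, nat_lit 9888, nat_lit 7248, nat_lit 864, nat_lit 7632, R5_151, R0_18, R5_159⟩]⟩, ⟨nat_lit 6, [⟨nat_lit 7, nat_lit 5040, nat_lit 9984, nat_lit 13872, nat_lit 8976, nat_lit 10848, R0_289, R0_187, R0_226⟩]⟩, ⟨nat_lit 7, [⟨nat_lit 7, nat_lit 5712, nat_lit 9936, nat_lit 20736, nat_lit 6096, nat_lit 17040, R11_432, R0_127, R11_355⟩]⟩]⟩]], [[], [], [], [⟨nat_lit 7, [⟨nat_lit 7, [⟨nat_lit 3, nat_lit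 11856, nat_lit 14592, nat_lit 20688, nat_lit 14112, nat_lit 11952, R11_431, R12_294, R12_249⟩]⟩]⟩]]], [[], [[], [⟨nat_lit 0, [⟨nat_lit 0, [⟨nat_lit 0, nat_lit 6768, nat_lit 912, nat_lit 1968, nat_lit 4128, nat_lit 2736, R8_41, R4_86, R8_57⟩, ⟨nat_lit 2, nat_lit 8160, nat_lit 1104, nat_lit 6480, nat_lit 16944, nat_lit 6432, R8_135, R3_353, R9_134⟩]⟩, ⟨nat_lit 1, [⟨nat_lit 0, nat_lit 7056, nat_lit 6336, nat_lit 16032, nat_lit 11760, nat_lit 12720, R5_334, R4_245, R5_265⟩, ⟨nat_lit 2, nat_lit 8640, nat_lit 6528, nat_lit 16176, nat_lit 17280, nat_lit 4272, R5_337, R3_360, R0_89⟩]⟩, ⟨nat_lit 3, [⟨nat_lit 0, nat_lit 7296, nat_lit 9312, nat_lit 15168, nat_lit 10464, nat_lit 10368, R9_316, R4_218, R9_216⟩]⟩]⟩,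
 ⟨nat_lit 2, [⟨nat_lit 0, [⟨nat_lit 2, nat_lit 8208, nat_lit 2064, nat_lit 6672, nat_lit 17280, nat_lit 7296, R9_139, R10_360, R9_152⟩]⟩, ⟨nat_lit 1, [⟨nat_lit 2, nat_lit 8688, nat_lit 7440, nat_lit 4512, nat_lit 17376, nat_lit 5136, R0_94, R10_362, R0_107⟩]⟩, ⟨nat_lit 2, [⟨nat_lit 2, nat_lit 8928, nat_lit 11904, nat_lit 4416, nat_lit 17328, nat_lit 5184, R0_92, R10_361, R0_108⟩]⟩]⟩,
 ⟨nat_lit 3, [⟨nat_lit 3, [⟨nat_lit 0, nat_lit 7344, nat_lit 10080, nat_lit 912, nat_lit 6816, nat_lit 10704, R0_19, R5_142, R9_223⟩, ⟨nat_lit 3, nat_lit 9168, nat_lit 10224, nat_lit 6144, nat_lit 20112, nat_lit 5328, R0_128, R11_419, R0_111⟩]⟩]⟩]], [], [], [], [[], [⟨nat_lit 0, [⟨nat_lit 0, [⟨nat_lit 0, nat_lit 6960, nat_lit 16512, nat_lit 2064, nat_lit 4176, nat_lit 2688, R8_43, R7_87, R8_56⟩, ⟨nat_lit 2, nat_lit 8496, nat_lit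 16704, nat_lit 6576, nat_lit 2592, nat_lit 6480, R8_137, R2_54, R9_135⟩]⟩, ⟨nat_lit 1, [⟨nat_lit 0, nat_lit 7104, nat_lit 16560, nat_lit 15120, nat_lit 12624, nat_lit 13728, R5_315, R7_263, R5_286⟩, ⟨nat_lit 2, nat_lit 8736, nat_lit 16752, nat_lit 15696, nat_lit 11328, nat_lit 4320, R5_327, R2_236, R0_90⟩]⟩, ⟨nat_lit 3, [⟨nat_lit 0, nat_lit 7584, nat_lit 16608, nat_lit 14256, nat_lit 11184, nat_lit 12288, R9_297, R7_233, R9_256⟩, ⟨nat_lit 3, nat_lit 9408, nat_lit 16656, nat_lit 14928, nat_lit 6672, nat_lit 1632, R9_311, R2_139, R0_34⟩]⟩]⟩,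
 ⟨nat_lit 1, [⟨nat_lit 0, [⟨nat_lit 0, nat_lit 7008, nat_lit 16800, nat_lit 6144, nat_lit 6480, nat_lit 10368, R5_128, R14_135, R8_216⟩, ⟨nat_lit 1, nat_lit 7824, nat_lit 16944, nat_lit 7056, nat_lit 4464, nat_lit 7824, R5_147, R12_93, R5_163⟩, ⟨nat_lit 2, nat_lit 8592, nat_lit 17136, nat_lit 6672, nat_lit 7440, nat_lit 7680, R5_139, R12_155, R9_160⟩]⟩, ⟨nat_lit 1, [⟨nat_lit 0, nat_lit 7152, nat_lit 16848, nat_lit 19440, nat_lit 7776, nat_lit 14256, R11_405, R14_162, R5_297⟩, ⟨nat_lit 1, nat_lit 7872, nat_lit 16992, nat_lit 20592, nat_lit 5760, nat_lit 17328, R11_429, R12_120, R11_361⟩, ⟨nat_lit 2, nat_lit 8832, nat_lit 17184, nat_lit 20016, nat_lit 9216, nat_lit 5520, R11_417, R12_192, R0_115⟩]⟩, ⟨nat_lit 3, [⟨nat_lit 0, nat_lit 7632, nat_lit 16896, nat_lit 12960, nat_lit 7200, nat_lit 13056, R0_270, R14_150,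 R9_272⟩, ⟨nat_lit 1, nat_lit 7968, nat_lit 17040, nat_lit 13824, nat_lit 5184, nat_lit 11232, R0_288, R12_108, R0_234⟩, ⟨nat_lit 3, nat_lit 9456, nat_lit 17088, nat_lit 13632, nat_lit 16800, nat_lit 11088, R0_284, R12_350, R0_231⟩]⟩]⟩,
 ⟨nat_lit 2, [⟨nat_lit 0, [⟨nat_lit 2, nat_lit 8544, nat_lit 17280, nat_lit 6576, nat_lit 2064, nat_lit 7344, R9_137, R1_43, R9_153⟩]⟩, ⟨nat_lit 1, [⟨nat_lit 2, nat_lit 8784, nat_lit 17328, nat_lit 4416, nat_lit 11904, nat_lit 5184, R0_92, R1_248, R0_108⟩]⟩, ⟨nat_lit 2, [⟨nat_lit 2, nat_lit 9072, nat_lit 17376, nat_lit 4512, nat_lit 7440, nat_lit 5136, R0_94, R1_155, R0_107⟩]⟩]⟩,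
 ⟨nat_lit 3, [⟨nat_lit 3, [⟨nat_lit 3, nat_lit 9504, nat_lit 17232, nat_lit 3840, nat_lit 5376, nat_lit 6672, R0_80, R1_112, R0_139⟩]⟩]⟩], [], [], [], [⟨nat_lit 1, [⟨nat_lit 1, [⟨nat_lit 1, nat_lit 15312, nat_lit 14112, nat_lit 20640, nat_lit 6480, nat_lit 12288, R11_430, R12_135, R1_256⟩]⟩]⟩]]], [[], [[], [], [], [⟨nat_lit 0, [⟨nat_lit 3, [⟨nat_lit 0, nat_lit 10416, nat_lit 2880, nat_lit 3216, nat_lit 9600, nat_lit 2832, R3_67, R4_200, R3_59⟩, ⟨nat_lit 2, nat_lit 11232, nat_lit 3168, nat_lit 9264, nat_lit 15600, nat_lit 6528, R3_193, R3_325, R0_136⟩]⟩, ⟨nat_lit 7, [⟨nat_lit 0, nat_lit 9744, nat_lit 13344, nat_lit 13824, nat_lit 14016, nat_lit 10320, R2_288, R4_292, R2_215⟩]⟩]⟩,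
 ⟨nat_lit 2, [⟨nat_lit 3, [⟨nat_lit 2, nat_lit 11280, nat_lit 5376, nat_lit 3840, nat_lit 17232, nat_lit 6672, R0_80, R10_359, R0_139⟩]⟩]⟩,
 ⟨nat_lit 3, [⟨nat_lit 7, [⟨nat_lit 0, nat_lit 9792, nat_lit 14304, nat_lit 14496, nat_lit 15888, nat_lit 10416, R12_302, R5_331, R2_217⟩, ⟨nat_lit 3, nat_lit 11664, nat_lit 14688, nat_lit 14544, nat_lit 20064, nat_lit 12192, R12_303, R11_418, R12_254⟩]⟩]⟩]], [], [], [], [[⟨nat_lit 0, [⟨nat_lit 3, [⟨nat_lit 0, nat_lit 480, nat_lit 4848, nat_lit 1344, nat_lit 10080, nat_lit 13344, R3_28, R7_210, R13_278⟩, ⟨nat_lit 2, nat_lit 1632, nat_lit 6576, nat_lit 7824, nat_lit 9264, nat_lit 10656, R3_163, R2_193, R9_222⟩, ⟨nat_lit 3, nat_lit 2592, nat_lit 5424, nat_lit 6528, nat_lit 4272, nat_lit 7536, R3_136, R2_89, R3_157⟩]⟩, ⟨nat_lit 7, [⟨nat_lit 3, nat_lit 2208, nat_lit 15840, nat_lit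 13440, nat_lit 12960, nat_lit 10368, R2_280, R2_270, R2_216⟩]⟩]⟩,
 ⟨nat_lit 1, [⟨nat_lit 3, [⟨nat_lit 0, nat_lit 528, nat_lit 4944, nat_lit 16176, nat_lit 5184, nat_lit 13392, R10_337, R14_108, R13_279⟩, ⟨nat_lit 1, nat_lit 672, nat_lit 5616, nat_lit 18192, nat_lit 3552, nat_lit 10224, R10_379, R12_74, R3_213⟩, ⟨nat_lit 2, nat_lit 1728, nat_lit 6672, nat_lit 17136, nat_lit 8304, nat_lit 10752, R10_357, R12_173, R9_224⟩, ⟨nat_lit 3, nat_lit 2640, nat_lit 5472, nat_lit 17808, nat_lit 13440, nat_lit 7584, R10_371, R12_280, R3_158⟩]⟩, ⟨nat_lit 7, [⟨nat_lit 3, nat_lit 2256, nat_lit 15936, nat_lit 14784, nat_lit 12528, nat_lit 10464, R1_308, R12_261, R2_218⟩]⟩]⟩,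
 ⟨nat_lit 2, [⟨nat_lit 3, [⟨nat_lit 2, nat_lit 1680, nat_lit 6816, nat_lit 912, nat_lit 10080, nat_lit 10704, R0_19, R1_210, R9_223⟩]⟩]⟩,
 ⟨nat_lit 3, [⟨nat_lit 7, [⟨nat_lit 3, nat_lit 2304, nat_lit 15888, nat_lit 14592, nat_lit 14304, nat_lit 10416, R12_304, R1_298, R2_217⟩]⟩]⟩], [⟨nat_lit 0, [⟨nat_lit 3, [⟨nat_lit 0, nat_lit 7680, nat_lit 13056, nat_lit 1968, nat_lit 10416, nat_lit 12240, R3_41, R7_217, R9_255⟩, ⟨nat_lit 3, nat_lit 9552, nat_lit 13104, nat_lit 6912, nat_lit 4560, nat_lit 1488, R3_144, R2_95, R0_31⟩]⟩]⟩,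
 ⟨nat_lit 1, [⟨nat_lit 3, [⟨nat_lit 0, nat_lit 7728, nat_lit 13152, nat_lit 16272, nat_lit 7152, nat_lit 13008, R10_339, R14_149, R9_271⟩, ⟨nat_lit 1, nat_lit 8016, nat_lit 13200, nat_lit 18288, nat_lit 5136, nat_lit 11184, R10_381, R12_107, R0_233⟩, ⟨nat_lit 3, nat_lit 9600, nat_lit 13248, nat_lit 17856, nat_lit 16464, nat_lit 10944, R10_372, R12_343, R0_228⟩]⟩]⟩], [], [⟨nat_lit 0, [⟨nat_lit 3, [⟨nat_lit 0, nat_lit 10464, nat_lit 19584, nat_lit 1584, nat_lit 10224, nat_lit 3504, R3_33, R7_213, R3_73⟩, ⟨nat_lit 2, nat_lit 11328, nat_lit 19728, nat_lit 8112, nat_lit 9408, nat_lit 5280, R3_169, R2_196, R0_110⟩]⟩, ⟨nat_lit 7, [⟨nat_lit 0, nat_lit 9984, nat_lit 19632, nat_lit 12672, nat_lit 15360, nat_lit 11664, R2_264, R7_320, R2_243⟩, ⟨nat_lit 3, nat_lit 12000, nat_lit 19680, nat_lit 13488, nat_lit 13344, nat_lit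 11712, R2_281, R2_278, R12_244⟩]⟩]⟩,
 ⟨nat_lit 1, [⟨nat_lit 3, [⟨nat_lit 0, nat_lit 10512, nat_lit 19776, nat_lit 16224, nat_lit 5808, nat_lit 10992, R10_338, R14_121, R3_229⟩, ⟨nat_lit 1, nat_lit 10896, nat_lit 19872, nat_lit 18240, nat_lit 3792, nat_lit 13104, R10_380, R12_79, R10_273⟩, ⟨nat_lit 2, nat_lit 11424, nat_lit 20016, nat_lit 17184, nat_lit 8976, nat_lit 5520, R10_358, R12_187, R0_115⟩]⟩, ⟨nat_lit 7, [⟨nat_lit 0, nat_lit 10032, nat_lit 19824, nat_lit 14016, nat_lit 6000, nat_lit 11808, R1_292, R14_125, R2_246⟩, ⟨nat_lit 1, nat_lit 10704, nat_lit 19920, nat_lit 15120, nat_lit 3984, nat_lit 12240, R1_315, R12_83, R1_255⟩, ⟨nat_lit 3, nat_lit 12048, nat_lit 19968, nat_lit 14832, nat_lit 14256, nat_lit 11808, R1_309, R12_297, R12_246⟩]⟩]⟩,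
 ⟨nat_lit 2, [⟨nat_lit 3, [⟨nat_lit 2, nat_lit 11376, nat_lit 20112, nat_lit 6144, nat_lit 10224, nat_lit 5328, R0_128, R1_213, R0_111⟩]⟩]⟩,
 ⟨nat_lit 3, [⟨nat_lit 7, [⟨nat_lit 3, nat_lit 12096, nat_lit 20064, nat_lit 14640, nat_lit 14688, nat_lit 11760, R12_305, R1_306, R12_245⟩]⟩]⟩]]]]
noncomputable def N1533 : T3 (List N0) := [[], [], [], [], [], [[[⟨nat_lit 0, [⟨nat_lit 0, [⟨nat_lit 2, nat_lit 2592, nat_lit 17616, nat_lit 8928, nat_lit 13056, nat_lit 11040, R4_186, R4_272, R4_230⟩, ⟨nat_lit 6, nat_lit 13056, nat_lit 12960, nat_lit 13536, nat_lit 14160, nat_lit 11472, R4_282, R7_295, R7_239⟩]⟩, ⟨nat_lit 3, [⟨nat_lit 2, nat_lit 2640, nat_lit 17712, nat_lit 15168, nat_lit 13152, nat_lit 12864, R3_316, R4_274, R5_268⟩]⟩]⟩,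
 ⟨nat_lit 2, [⟨nat_lit 0, [⟨nat_lit 6, nat_lit 13824, nat_lit 13104, nat_lit 15024, nat_lit 16512, nat_lit 11856, R5_313, R14_344, R7_247⟩]⟩, ⟨nat_lit 2, [⟨nat_lit 4, nat_lit 12336, nat_lit 4560, nat_lit 18480, nat_lit 1248, nat_lit 1968, R11_385, R7_26, R7_41⟩, ⟨nat_lit 6, nat_lit 13920, nat_lit 13200, nat_lit 18528, nat_lit 16560, nat_lit 14304, R11_386, R14_345, R14_298⟩]⟩]⟩,
 ⟨nat_lit 3, [⟨nat_lit 3, [⟨nat_lit 2, nat_lit 5088, nat_lit 17904, nat_lit 14688, nat_lit 16272, nat_lit 13008, R10_306, R5_339, R5_271⟩]⟩]⟩,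
 ⟨nat_lit 6, [⟨nat_lit 2, [⟨nat_lit 4, nat_lit 12576, nat_lit 4608, nat_lit 15216, nat_lit 1440, nat_lit 1008, R1_317, R4_30, R7_21⟩]⟩, ⟨nat_lit 6, [⟨nat_lit 4, nat_lit 12720, nat_lit 4656, nat_lit 18432, nat_lit 624, nat_lit 1296, R10_384, R4_13, R4_27⟩, ⟨nat_lit 7, nat_lit 15984, nat_lit 11376, nat_lit 18480, nat_lit 240, nat_lit 2976, R10_385, R5_5, R5_62⟩]⟩]⟩], [], [⟨nat_lit 2, [⟨nat_lit 2, [⟨nat_lit 4, nat_lit 12384, nat_lit 2976, nat_lit 18960, nat_lit 7248, nat_lit 528, R11_395, R7_151, R2_11⟩, ⟨nat_lit 6, nat_lit 13968, nat_lit 11856, nat_lit 19008, nat_lit 16704, nat_lit 9936, R11_396, R14_348, R12_207⟩]⟩]⟩,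
 ⟨nat_lit 6, [⟨nat_lit 2, [⟨nat_lit 4, nat_lit 12624, nat_lit 3024, nat_lit 15360, nat_lit 7344, nat_lit 48, R1_320, R4_153, R2_1⟩]⟩, ⟨nat_lit 6, [⟨nat_lit 4, nat_lit 12816, nat_lit 3072, nat_lit 18576, nat_lit 7008, nat_lit 4848, R10_387, R4_146, R3_101⟩, ⟨nat_lit 7, nat_lit 16080, nat_lit 10272, nat_lit 18624, nat_lit 7872, nat_lit 10176, R10_388, R5_164, R0_212⟩]⟩]⟩], [⟨nat_lit 0, [⟨nat_lit 0, [⟨nat_lit 6, nat_lit 13104, nat_lit 10512, nat_lit 13680, nat_lit 14208, nat_lit 10752, R4_285, R7_296, R2_224⟩]⟩, ⟨nat_lit 3, [⟨nat_lit 2, nat_lit 2688, nat_lit 14832, nat_lit 15216, nat_lit 13200, nat_lit 15792, R3_317, R4_275, R11_329⟩, ⟨nat_lit 6, nat_lit 13152, nat_lit 10608, nat_lit 15360, nat_lit 14448, nat_lit 11136, R3_320, R7_301, R1_232⟩]⟩]⟩,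
 ⟨nat_lit 2, [⟨nat_lit 0, [⟨nat_lit 6, nat_lit 13872, nat_lit 11712, nat_lit 15504, nat_lit 16896, nat_lit 11040, R5_323, R14_352, R2_230⟩]⟩, ⟨nat_lit 2, [⟨nat_lit 4, nat_lit 12432, nat_lit 2928, nat_lit 18672, nat_lit 8112, nat_lit 576, R11_389, R7_169, R2_12⟩, ⟨nat_lit 6, nat_lit 14016, nat_lit 11808, nat_lit 18720, nat_lit 16992, nat_lit 10032, R11_390, R14_354, R12_209⟩]⟩, ⟨nat_lit 3, [⟨nat_lit 6, nat_lit 14064, nat_lit 11760, nat_lit 12528, nat_lit 16944, nat_lit 11616, R0_261, R14_353, R1_242⟩]⟩]⟩,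
 ⟨nat_lit 3, [⟨nat_lit 3, [⟨nat_lit 2, nat_lit 5136, nat_lit 15456, nat_lit 15168, nat_lit 16608, nat_lit 15936, R10_316, R5_346, R11_332⟩]⟩, ⟨nat_lit 7, [⟨nat_lit 2, nat_lit 5184, nat_lit 15312, nat_lit 13536, nat_lit 16560, nat_lit 6624, R1_282, R5_345, R1_138⟩]⟩]⟩,
 ⟨nat_lit 6, [⟨nat_lit 2, [⟨nat_lit 4, nat_lit 12672, nat_lit 864, nat_lit 15264, nat_lit 8112, nat_lit 2256, R1_318, R4_169, R2_47⟩, ⟨nat_lit 7, nat_lit 15936, nat_lit 7056, nat_lit 15312, nat_lit 5904, nat_lit 1728, R1_319, R5_123, R1_36⟩]⟩, ⟨nat_lit 6, [⟨nat_lit 7, nat_lit 16176, nat_lit 7008, nat_lit 18528, nat_lit 5952, nat_lit 16464, R10_386, R5_124, R11_343⟩]⟩]⟩]], [[⟨nat_lit 0, [⟨nat_lit 0, [⟨nat_lit 2, nat_lit 2784, nat_lit 13152, nat_lit 9552, nat_lit 3168, nat_lit 11136, R4_199, R3_66, R4_232⟩, ⟨nat_lit 6, nat_lit 13248, nat_lit 12480,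 nat_lit 13920, nat_lit 13728, nat_lit 11520, R4_290, R2_286, R7_240⟩]⟩, ⟨nat_lit 3, [⟨nat_lit 2, nat_lit 3072, nat_lit 13584, nat_lit 15504, nat_lit 9168, nat_lit 13872, R3_323, R3_191, R5_289⟩]⟩]⟩,
 ⟨nat_lit 2, [⟨nat_lit 0, [⟨nat_lit 6, nat_lit 14208, nat_lit 12528, nat_lit 15072, nat_lit 13920, nat_lit 11952, R5_314, R12_290, R7_249⟩]⟩, ⟨nat_lit 2, [⟨nat_lit 6, nat_lit 14544, nat_lit 14592, nat_lit 19488, nat_lit 13968, nat_lit 15120, R11_406, R12_291, R14_315⟩]⟩]⟩,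
 ⟨nat_lit 3, [⟨nat_lit 3, [⟨nat_lit 2, nat_lit 5280, nat_lit 13632, nat_lit 16320, nat_lit 3648, nat_lit 14064, R10_340, R0_76, R5_293⟩]⟩]⟩], [⟨nat_lit 0, [⟨nat_lit 0, [⟨nat_lit 2, nat_lit 2880, nat_lit 10416, nat_lit 9600, nat_lit 3216, nat_lit 2832, R4_200, R3_67, R3_59⟩, ⟨nat_lit 6, nat_lit 13344, nat_lit 9744, nat_lit 14016, nat_lit 13824, nat_lit 10320, R4_292, R2_288, R2_215⟩]⟩, ⟨nat_lit 3, [⟨nat_lit 2, nat_lit 3168, nat_lit 11232, nat_lit 15600, nat_lit 9264, nat_lit 6528, R3_325, R3_193, R0_136⟩]⟩]⟩,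
 ⟨nat_lit 2, [⟨nat_lit 0, [⟨nat_lit 6, nat_lit 14304, nat_lit 9792, nat_lit 15888, nat_lit 14496, nat_lit 10416, R5_331, R12_302, R2_217⟩]⟩, ⟨nat_lit 2, [⟨nat_lit 6, nat_lit 14688, nat_lit 11664, nat_lit 20064, nat_lit 14544, nat_lit 12192, R11_418, R12_303, R12_254⟩]⟩]⟩,
 ⟨nat_lit 3, [⟨nat_lit 3, [⟨nat_lit 2, nat_lit 5376, nat_lit 11280, nat_lit 17232, nat_lit 3840, nat_lit 6672, R10_359, R0_80, R0_139⟩]⟩]⟩], [⟨nat_lit 2, [⟨nat_lit 2, [⟨nat_lit 6, nat_lit 14592, nat_lit 11856, nat_lit 20688, nat_lit 14112, nat_lit 11952, R11_431, R12_294, R12_249⟩]⟩]⟩], [⟨nat_lit 0, [⟨nat_lit 0, [⟨nat_lit 6, nat_lit 13488, nat_lit 1776, nat_lit 13968, nat_lit 13776, nat_lit 10944, R4_291, R2_287, R2_228⟩]⟩, ⟨nat_lit 3, [⟨nat_lit 2, nat_lit 3312, nat_lit 5472, nat_lit 15552, nat_lit 9216, nat_lit 16944, R3_324, R3_192, R11_353⟩,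 ⟨nat_lit 6, nat_lit 13632, nat_lit 6336, nat_lit 15648, nat_lit 13872, nat_lit 11328, R3_326, R2_289, R1_236⟩]⟩]⟩,
 ⟨nat_lit 2, [⟨nat_lit 0, [⟨nat_lit 6, nat_lit 14448, nat_lit 2112, nat_lit 15648, nat_lit 14304, nat_lit 11472, R5_326, R12_298, R2_239⟩]⟩, ⟨nat_lit 2, [⟨nat_lit 6, nat_lit 14832, nat_lit 11808, nat_lit 20256, nat_lit 14400, nat_lit 12048, R11_422, R12_300, R12_251⟩]⟩, ⟨nat_lit 3, [⟨nat_lit 6, nat_lit 14976, nat_lit 6624, nat_lit 13680, nat_lit 14352, nat_lit 12048, R0_285, R12_299, R1_251⟩]⟩]⟩,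
 ⟨nat_lit 3, [⟨nat_lit 3, [⟨nat_lit 2, nat_lit 5520, nat_lit 5664, nat_lit 17904, nat_lit 3744, nat_lit 17136, R10_373, R0_78, R11_357⟩]⟩, ⟨nat_lit 7, [⟨nat_lit 2, nat_lit 5616, nat_lit 14832, nat_lit 14880, nat_lit 3504, nat_lit 7632, R1_310, R0_73, R1_159⟩]⟩]⟩]], [[], [], [⟨nat_lit 2, [⟨nat_lit 2, [⟨nat_lit 4, nat_lit 12480, nat_lit 2448, nat_lit 21072, nat_lit 5472, nat_lit 6240, R11_439, R2_114, R2_130⟩, ⟨nat_lit 5, nat_lit 15600, nat_lit 7824, nat_lit 21168, nat_lit 4176, nat_lit 4944, R11_441, R1_87, R1_103⟩, ⟨nat_lit 6, nat_lit 14112, nat_lit 12288, nat_lit 21120, nat_lit 15312, nat_lit 10656, R11_440, R12_319, R12_222⟩]⟩]⟩,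
 ⟨nat_lit 6, [⟨nat_lit 2, [⟨nat_lit 4, nat_lit 12912, nat_lit 2496, nat_lit 15456, nat_lit 13392, nat_lit 5184, R1_322, R3_279, R2_108⟩, ⟨nat_lit 5, nat_lit 15648, nat_lit 7872, nat_lit 15504, nat_lit 19296, nat_lit 3888, R1_323, R10_402, R1_81⟩]⟩, ⟨nat_lit 6, [⟨nat_lit 4, nat_lit 12960, nat_lit 2544, nat_lit 18768, nat_lit 5088, nat_lit 5952, R10_391, R3_106, R3_124⟩, ⟨nat_lit 5, nat_lit 15696, nat_lit 7920, nat_lit 18864, nat_lit 19344, nat_lit 12624, R10_393, R10_403, R10_263⟩, ⟨nat_lit 7, nat_lit 16224, nat_lit 10848, nat_lit 18816, nat_lit 14256, nat_lit 10224, R10_392, R0_297, R0_213⟩]⟩]⟩]], [[], [], [], [⟨nat_lit 0, [⟨nat_lit 0, [⟨nat_lit 6, nat_lit 13728, nat_lit 10896, nat_lit 13872, nat_lit 14016, nat_lit 10848, R4_289, R2_292, R2_226⟩]⟩, ⟨nat_lit 3, [⟨nat_lit 6, nat_lit 13776, nat_lit 10992, nat_lit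 15696, nat_lit 14256, nat_lit 11232, R3_327, R2_297, R1_234⟩]⟩]⟩,
 ⟨nat_lit 2, [⟨nat_lit 0, [⟨nat_lit 6, nat_lit 15072, nat_lit 12144, nat_lit 15600, nat_lit 15168, nat_lit 11184, R5_325, R12_316, R2_233⟩]⟩, ⟨nat_lit 2, [⟨nat_lit 4, nat_lit 12528, nat_lit 2400, nat_lit 20784, nat_lit 5424, nat_lit 6288, R11_433, R2_113, R2_131⟩, ⟨nat_lit 6, nat_lit 15120, nat_lit 12240, nat_lit 20880, nat_lit 15264, nat_lit 10704, R11_435, R12_318, R12_223⟩, ⟨nat_lit 7, nat_lit 15888, nat_lit 7776, nat_lit 20832, nat_lit 4128, nat_lit 4992, R11_434, R1_86, R1_104⟩]⟩, ⟨nat_lit 3, [⟨nat_lit 6, nat_lit 15168, nat_lit 12192, nat_lit 13920, nat_lit 15216, nat_lit 11760, R0_290, R12_317, R1_245⟩]⟩]⟩,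
 ⟨nat_lit 3, [⟨nat_lit 3, [⟨nat_lit 2, nat_lit 5712, nat_lit 16464, nat_lit 18672, nat_lit 21552, nat_lit 16512, R10_389, R11_449, R11_344⟩, ⟨nat_lit 6, nat_lit 15552, nat_lit 11376, nat_lit 18720, nat_lit 15792, nat_lit 11472, R10_390, R1_329, R1_239⟩]⟩, ⟨nat_lit 7, [⟨nat_lit 2, nat_lit 5760, nat_lit 16320, nat_lit 15408, nat_lit 21504, nat_lit 7152, R1_321, R11_448, R1_149⟩]⟩]⟩,
 ⟨nat_lit 4, [⟨nat_lit 4, [⟨nat_lit 3, nat_lit 10896, nat_lit 13728, nat_lit 13872, nat_lit 14016, nat_lit 10848, R4_289, R2_292, R2_226⟩]⟩, ⟨nat_lit 6, [⟨nat_lit 3, nat_lit 10992, nat_lit 13776, nat_lit 15696, nat_lit 14256, nat_lit 11232, R3_327, R2_297, R1_234⟩]⟩]⟩,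
 ⟨nat_lit 6, [⟨nat_lit 2, [⟨nat_lit 7, nat_lit 16320, nat_lit 5760, nat_lit 15408, nat_lit 21504, nat_lit 7152, R1_321, R11_448, R1_149⟩]⟩, ⟨nat_lit 6, [⟨nat_lit 3, nat_lit 11376, nat_lit 15552, nat_lit 18720, nat_lit 15792, nat_lit 11472, R10_390, R1_329, R1_239⟩, ⟨nat_lit 7, nat_lit 16464, nat_lit 5712, nat_lit 18672, nat_lit 21552, nat_lit 16512, R10_389, R11_449, R11_344⟩]⟩]⟩,
 ⟨nat_lit 7, [⟨nat_lit 4, [⟨nat_lit 3, nat_lit 12144, nat_lit 15072, nat_lit 15600, nat_lit 15168, nat_lit 11184, R5_325, R12_316, R2_233⟩]⟩, ⟨nat_lit 6, [⟨nat_lit 3, nat_lit 12192, nat_lit 15168, nat_lit 13920, nat_lit 15216, nat_lit 11760, R0_290, R12_317, R1_245⟩]⟩, ⟨nat_lit 7, [⟨nat_lit 0, nat_lit 2400, nat_lit 12528, nat_lit 20784, nat_lit 5424, nat_lit 6288, R11_433, R2_113, R2_131⟩, ⟨nat_lit 2, nat_lit 7776, nat_lit 15888, nat_lit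 20832, nat_lit 4128, nat_lit 4992, R11_434, R1_86, R1_104⟩, ⟨nat_lit 3, nat_lit 12240, nat_lit 15120, nat_lit 20880, nat_lit 15264, nat_lit 10704, R11_435, R12_318, R12_223⟩]⟩]⟩]]], [[], [[], [⟨nat_lit 0, [⟨nat_lit 0, [⟨nat_lit 2, nat_lit 2928, nat_lit 1344, nat_lit 5712, nat_lit 3360, nat_lit 2448, R8_119, R3_70, R3_51⟩, ⟨nat_lit 6, nat_lit 13392, nat_lit 1200, nat_lit 13344, nat_lit 14928, nat_lit 6480, R8_278, R2_311, R2_135⟩]⟩, ⟨nat_lit 1, [⟨nat_lit 2, nat_lit 2976, nat_lit 6768, nat_lit 16464, nat_lit 10560, nat_lit 6048, R5_343, R3_220, R10_126⟩, ⟨nat_lit 6, nat_lit 13536, nat_lit 6624, nat_lit 16560, nat_lit 15312, nat_lit 5184, R5_345, R2_319, R1_108⟩]⟩, ⟨nat_lit 3, [⟨nat_lit 2, nat_lit 3216, nat_lit 9552, nat_lit 15600, nat_lit 9456, nat_lit 6480, R9_325, R3_197, R0_135⟩]⟩]⟩,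
 ⟨nat_lit 1, [⟨nat_lit 0, [⟨nat_lit 2, nat_lit 3552, nat_lit 1824, nat_lit 5712, nat_lit 19632, nat_lit 10080, R5_119, R10_409, R3_210⟩, ⟨nat_lit 6, nat_lit 15312, nat_lit 1728, nat_lit 5904, nat_lit 15936, nat_lit 7056, R5_123, R1_332, R2_147⟩]⟩, ⟨nat_lit 1, [⟨nat_lit 2, nat_lit 3600, nat_lit 7248, nat_lit 21408, nat_lit 19968, nat_lit 6768, R11_446, R10_416, R10_141⟩, ⟨nat_lit 6, nat_lit 15408, nat_lit 7152, nat_lit 21504, nat_lit 16320, nat_lit 5760, R11_448, R1_340, R1_120⟩]⟩, ⟨nat_lit 3, [⟨nat_lit 2, nat_lit 3744, nat_lit 10800, nat_lit 14064, nat_lit 19776, nat_lit 6912, R0_293, R10_412, R0_144⟩]⟩]⟩,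
 ⟨nat_lit 2, [⟨nat_lit 0, [⟨nat_lit 6, nat_lit 14352, nat_lit 2256, nat_lit 5664, nat_lit 14736, nat_lit 6912, R9_118, R12_307, R2_144⟩]⟩, ⟨nat_lit 1, [⟨nat_lit 6, nat_lit 14880, nat_lit 7632, nat_lit 3504, nat_lit 14832, nat_lit 5616, R0_73, R12_309, R1_117⟩]⟩, ⟨nat_lit 2, [⟨nat_lit 6, nat_lit 14736, nat_lit 12096, nat_lit 13584, nat_lit 14784, nat_lit 10800, R0_283, R12_308, R12_225⟩]⟩]⟩,
 ⟨nat_lit 3, [⟨nat_lit 3, [⟨nat_lit 2, nat_lit 5424, nat_lit 10464, nat_lit 8832, nat_lit 3888, nat_lit 6624, R0_184, R0_81, R0_138⟩]⟩]⟩]], [], [], [], [[], [⟨nat_lit 1, [⟨nat_lit 0, [⟨nat_lit 2, nat_lit 4032, nat_lit 19488, nat_lit 5568, nat_lit 4608, nat_lit 10032, R5_116, R1_96, R3_209⟩]⟩, ⟨nat_lit 1, [⟨nat_lit 2, nat_lit 4080, nat_lit 19536, nat_lit 21312, nat_lit 5040, nat_lit 6864, R11_444, R1_105, R10_143⟩]⟩, ⟨nat_lit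 3, [⟨nat_lit 2, nat_lit 4368, nat_lit 19584, nat_lit 14016, nat_lit 4896, nat_lit 6768, R0_292, R1_102, R0_141⟩]⟩]⟩], [], [], [], [⟨nat_lit 1, [⟨nat_lit 1, [⟨nat_lit 2, nat_lit 4128, nat_lit 15888, nat_lit 21360, nat_lit 4992, nat_lit 7776, R11_445, R1_104, R1_162⟩]⟩]⟩]]], [[], [[], [], [], [⟨nat_lit 0, [⟨nat_lit 3, [⟨nat_lit 2, nat_lit 3360, nat_lit 3360, nat_lit 9120, nat_lit 9120, nat_lit 9072, R3_190, R3_190, R11_189⟩, ⟨nat_lit 6, nat_lit 13680, nat_lit 3408, nat_lit 15840, nat_lit 14112, nat_lit 6000, R3_330, R2_294, R1_125⟩]⟩, ⟨nat_lit 7, [⟨nat_lit 2, nat_lit 3408, nat_lit 13680, nat_lit 14112, nat_lit 15840, nat_lit 6000, R2_294, R3_330, R1_125⟩]⟩]⟩,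
 ⟨nat_lit 1, [⟨nat_lit 3, [⟨nat_lit 2, nat_lit 3840, nat_lit 3840, nat_lit 19200, nat_lit 19200, nat_lit 9456, R10_400, R10_400, R11_197⟩, ⟨nat_lit 6, nat_lit 15504, nat_lit 3888, nat_lit 19296, nat_lit 15648, nat_lit 7872, R10_402, R1_326, R1_164⟩]⟩, ⟨nat_lit 7, [⟨nat_lit 2, nat_lit 3888, nat_lit 15504, nat_lit 15648, nat_lit 19296, nat_lit 7872, R1_326, R10_402, R1_164⟩]⟩]⟩,
 ⟨nat_lit 2, [⟨nat_lit 3, [⟨nat_lit 6, nat_lit 15024, nat_lit 5664, nat_lit 3552, nat_lit 14688, nat_lit 7584, R0_74, R12_306, R1_158⟩]⟩]⟩,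
 ⟨nat_lit 3, [⟨nat_lit 7, [⟨nat_lit 2, nat_lit 5664, nat_lit 15024, nat_lit 14688, nat_lit 3552, nat_lit 7584, R12_306, R0_74, R1_158⟩]⟩]⟩]], [], [], [], [[⟨nat_lit 1, [⟨nat_lit 3, [⟨nat_lit 2, nat_lit 4272, nat_lit 7104, nat_lit 19056, nat_lit 4704, nat_lit 7776, R10_397, R1_98, R5_162⟩]⟩]⟩], [⟨nat_lit 1, [⟨nat_lit 3, [⟨nat_lit 2, nat_lit 4416, nat_lit 14352, nat_lit 19152, nat_lit 4848, nat_lit 6816, R10_399, R1_101, R0_142⟩]⟩]⟩], [], [⟨nat_lit 1, [⟨nat_lit 3, [⟨nat_lit 2, nat_lit 4464, nat_lit 21744, nat_lit 19104, nat_lit 4752, nat_lit 7392, R10_398, R1_99, R11_154⟩]⟩, ⟨nat_lit 7, [⟨nat_lit 2, nat_lit 4944, nat_lit 21792, nat_lit 15600, nat_lit 4176, nat_lit 7824, R1_325, R1_87, R1_163⟩]⟩]⟩]]]]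
noncomputable def N1750 : T3 (List N0) := [[], [], [], [], [], [], [], [[], [[], [], [], [⟨nat_lit 7, [⟨nat_lit 6, [⟨nat_lit 7, nat_lit 7344, nat_lit 16368, nat_lit 21600, nat_lit 8784, nat_lit 7536, R11_450, R1_183, R5_157⟩]⟩]⟩]], [], [], [], [[⟨nat_lit 0, [⟨nat_lit 7, [⟨nat_lit 3, nat_lit 13632, nat_lit 14928, nat_lit 8880, nat_lit 7920, nat_lit 12576, R2_185, R3_165, R7_262⟩]⟩]⟩,
 ⟨nat_lit 2, [⟨nat_lit 3, [⟨nat_lit 0, nat_lit 16896, nat_lit 4704, nat_lit 11232, nat_lit 8448, nat_lit 10272, R11_234, R5_176, R6_214⟩, ⟨nat_lit 2, nat_lit 17232, nat_lit 6432, nat_lit 11376, nat_lit 8448, nat_lit 10896, R11_237, R11_176, R8_227⟩, ⟨nat_lit 3, nat_lit 17616, nat_lit 5376, nat_lit 11520, nat_lit 5904, nat_lit 11328, R11_240, R0_123, R4_236⟩]⟩, ⟨nat_lit 7, [⟨nat_lit 3, nat_lit 13680, nat_lit 15216, nat_lit 9696, nat_lit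 5952, nat_lit 12672, R1_202, R0_124, R7_264⟩]⟩]⟩,
 ⟨nat_lit 3, [⟨nat_lit 4, [⟨nat_lit 7, nat_lit 336, nat_lit 14448, nat_lit 1536, nat_lit 6288, nat_lit 10896, R2_32, R1_131, R6_227⟩]⟩, ⟨nat_lit 6, [⟨nat_lit 7, nat_lit 6528, nat_lit 17136, nat_lit 1008, nat_lit 6384, nat_lit 10944, R1_21, R1_133, R8_228⟩]⟩, ⟨nat_lit 7, [⟨nat_lit 3, nat_lit 13728, nat_lit 15120, nat_lit 7104, nat_lit 7440, nat_lit 12624, R12_148, R10_155, R7_263⟩, ⟨nat_lit 7, nat_lit 12720, nat_lit 16032, nat_lit 7056, nat_lit 6336, nat_lit 11760, R12_147, R1_132, R4_245⟩]⟩]⟩,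
 ⟨nat_lit 4, [⟨nat_lit 2, [⟨nat_lit 6, nat_lit 14928, nat_lit 13632, nat_lit 8880, nat_lit 7920, nat_lit 12576, R2_185, R3_165, R7_262⟩]⟩]⟩,
 ⟨nat_lit 6, [⟨nat_lit 0, [⟨nat_lit 2, nat_lit 14448, nat_lit 336, nat_lit 1536, nat_lit 6288, nat_lit 10896, R2_32, R1_131, R6_227⟩]⟩, ⟨nat_lit 2, [⟨nat_lit 2, nat_lit 16032, nat_lit 12720, nat_lit 7056, nat_lit 6336, nat_lit 11760, R12_147, R1_132, R4_245⟩, ⟨nat_lit 6, nat_lit 15120, nat_lit 13728, nat_lit 7104, nat_lit 7440, nat_lit 12624, R12_148, R10_155, R7_263⟩]⟩, ⟨nat_lit 3, [⟨nat_lit 2, nat_lit 17136, nat_lit 6528, nat_lit 1008, nat_lit 6384, nat_lit 10944, R1_21, R1_133, R8_228⟩]⟩]⟩,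
 ⟨nat_lit 7, [⟨nat_lit 2, [⟨nat_lit 6, nat_lit 15216, nat_lit 13680, nat_lit 9696, nat_lit 5952, nat_lit 12672, R1_202, R0_124, R7_264⟩]⟩, ⟨nat_lit 6, [⟨nat_lit 4, nat_lit 4704, nat_lit 16896, nat_lit 11232, nat_lit 8448, nat_lit 10272, R11_234, R5_176, R6_214⟩, ⟨nat_lit 6, nat_lit 5376, nat_lit 17616, nat_lit 11520, nat_lit 5904, nat_lit 11328, R11_240, R0_123, R4_236⟩, ⟨nat_lit 7, nat_lit 6432, nat_lit 17232, nat_lit 11376, nat_lit 8448, nat_lit 10896, R11_237, R11_176, R8_227⟩]⟩]⟩], [⟨nat_lit 2, [⟨nat_lit 3, [⟨nat_lit 0, nat_lit 17040, nat_lit 3936, nat_lit 11280, nat_lit 9744, nat_lit 19200, R11_235, R5_203, R8_400⟩, ⟨nat_lit 2, nat_lit 17424, nat_lit 4032, nat_lit 11424, nat_lit 8832, nat_lit 11616, R11_238, R11_184, R9_242⟩, ⟨nat_lit 3, nat_lit 17760, nat_lit 3984, nat_lit 11568, nat_lit 6288, nat_lit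 13584, R11_241, R0_131, R5_283⟩]⟩]⟩,
 ⟨nat_lit 4, [⟨nat_lit 2, [⟨nat_lit 6, nat_lit 15408, nat_lit 4080, nat_lit 9360, nat_lit 8064, nat_lit 11280, R2_195, R3_168, R2_235⟩]⟩]⟩,
 ⟨nat_lit 6, [⟨nat_lit 0, [⟨nat_lit 2, nat_lit 14640, nat_lit 4176, nat_lit 8592, nat_lit 6480, nat_lit 14016, R2_179, R1_135, R13_292⟩]⟩, ⟨nat_lit 2, [⟨nat_lit 2, nat_lit 16176, nat_lit 4272, nat_lit 8640, nat_lit 6528, nat_lit 17280, R12_180, R1_136, R3_360⟩, ⟨nat_lit 6, nat_lit 15696, nat_lit 4320, nat_lit 8736, nat_lit 7488, nat_lit 11328, R12_182, R10_156, R2_236⟩]⟩, ⟨nat_lit 3, [⟨nat_lit 2, nat_lit 17280, nat_lit 4224, nat_lit 9408, nat_lit 6576, nat_lit 11664, R1_196, R1_137, R9_243⟩]⟩]⟩,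
 ⟨nat_lit 7, [⟨nat_lit 2, [⟨nat_lit 6, nat_lit 15792, nat_lit 4128, nat_lit 10176, nat_lit 6000, nat_lit 11376, R1_212, R0_125, R2_237⟩]⟩]⟩], [], [⟨nat_lit 0, [⟨nat_lit 7, [⟨nat_lit 0, nat_lit 12768, nat_lit 5616, nat_lit 7728, nat_lit 12624, nat_lit 17664, R2_161, R4_263, R7_368⟩, ⟨nat_lit 3, nat_lit 13776, nat_lit 5664, nat_lit 8928, nat_lit 7968, nat_lit 13680, R2_186, R3_166, R14_285⟩]⟩]⟩,
 ⟨nat_lit 2, [⟨nat_lit 3, [⟨nat_lit 0, nat_lit 17088, nat_lit 5904, nat_lit 11328, nat_lit 9024, nat_lit 15504, R11_236, R5_188, R4_323⟩, ⟨nat_lit 2, nat_lit 17520, nat_lit 6048, nat_lit 11472, nat_lit 8592, nat_lit 17520, R11_239, R11_179, R5_365⟩]⟩, ⟨nat_lit 7, [⟨nat_lit 0, nat_lit 12912, nat_lit 5952, nat_lit 8256, nat_lit 16416, nat_lit 17856, R1_172, R5_342, R7_372⟩, ⟨nat_lit 3, nat_lit 13968, nat_lit 6000, nat_lit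 9744, nat_lit 6048, nat_lit 13728, R1_203, R0_126, R14_286⟩]⟩]⟩,
 ⟨nat_lit 3, [⟨nat_lit 4, [⟨nat_lit 3, nat_lit 3120, nat_lit 5712, nat_lit 336, nat_lit 7776, nat_lit 8592, R2_7, R10_162, R7_179⟩, ⟨nat_lit 7, nat_lit 720, nat_lit 5808, nat_lit 2112, nat_lit 6912, nat_lit 8544, R2_44, R1_144, R4_178⟩]⟩, ⟨nat_lit 6, [⟨nat_lit 7, nat_lit 7680, nat_lit 5856, nat_lit 1584, nat_lit 6960, nat_lit 7152, R1_33, R1_145, R5_149⟩]⟩, ⟨nat_lit 7, [⟨nat_lit 3, nat_lit 14256, nat_lit 5760, nat_lit 7152, nat_lit 7824, nat_lit 13776, R12_149, R10_163, R14_287⟩]⟩]⟩,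
 ⟨nat_lit 6, [⟨nat_lit 3, [⟨nat_lit 2, nat_lit 17472, nat_lit 6144, nat_lit 6432, nat_lit 6432, nat_lit 17472, R1_134, R1_134, R5_364⟩]⟩]⟩,
 ⟨nat_lit 7, [⟨nat_lit 6, [⟨nat_lit 7, nat_lit 7296, nat_lit 6096, nat_lit 12912, nat_lit 8496, nat_lit 7584, R11_269, R11_177, R5_158⟩]⟩]⟩]]]]
noncomputable def N1753 : T3 (List N0) := [[[], [], [], [], [[], [], [], [], [⟨nat_lit 0, [⟨nat_lit 6, [⟨nat_lit 0, nat_lit 96, nat_lit 10752, nat_lit 12096, nat_lit 48, nat_lit 3168, R4_252, R6_1, R4_66⟩]⟩]⟩,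
 ⟨nat_lit 1, [⟨nat_lit 6, [⟨nat_lit 0, nat_lit 240, nat_lit 10800, nat_lit 14496, nat_lit 48, nat_lit 4368, R5_302, R4_1, R4_91⟩]⟩]⟩], [], [], [⟨nat_lit 0, [⟨nat_lit 6, [⟨nat_lit 0, nat_lit 576, nat_lit 20256, nat_lit 12192, nat_lit 4896, nat_lit 16128, R4_254, R6_102, R3_336⟩, ⟨nat_lit 3, nat_lit 720, nat_lit 20304, nat_lit 12336, nat_lit 5760, nat_lit 3168, R4_257, R13_120, R10_66⟩]⟩]⟩,
 ⟨nat_lit 1, [⟨nat_lit 6, [⟨nat_lit 0, nat_lit 864, nat_lit 21216, nat_lit 14688, nat_lit 5280, nat_lit 17472, R5_306, R4_110, R3_364⟩, ⟨nat_lit 3, nat_lit 1008, nat_lit 21264, nat_lit 14736, nat_lit 4032, nat_lit 5856, R5_307, R3_84, R10_122⟩]⟩]⟩]], [], [[], [], [], [], [⟨nat_lit 0, [⟨nat_lit 6, [⟨nat_lit 0, nat_lit 10464, nat_lit 9360, nat_lit 14304, nat_lit 13584, nat_lit 9072, R4_298, R8_283, R4_189⟩, ⟨nat_lit 1, nat_lit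 10608, nat_lit 9840, nat_lit 15216, nat_lit 8928, nat_lit 6288, R4_317, R5_186, R5_131⟩]⟩]⟩,
 ⟨nat_lit 1, [⟨nat_lit 6, [⟨nat_lit 0, nat_lit 10752, nat_lit 9408, nat_lit 17184, nat_lit 2064, nat_lit 10656, R5_358, R5_43, R4_222⟩, ⟨nat_lit 1, nat_lit 10896, nat_lit 9888, nat_lit 17232, nat_lit 11376, nat_lit 6432, R5_359, R11_237, R5_134⟩]⟩]⟩], [], [⟨nat_lit 0, [⟨nat_lit 6, [⟨nat_lit 1, nat_lit 11328, nat_lit 17088, nat_lit 15504, nat_lit 9024, nat_lit 4704, R4_323, R5_188, R11_98⟩]⟩]⟩,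
 ⟨nat_lit 1, [⟨nat_lit 6, [⟨nat_lit 1, nat_lit 11472, nat_lit 17520, nat_lit 17520, nat_lit 11472, nat_lit 6048, R5_365, R11_239, R11_126⟩]⟩]⟩], [⟨nat_lit 0, [⟨nat_lit 6, [⟨nat_lit 0, nat_lit 11712, nat_lit 16656, nat_lit 14448, nat_lit 13872, nat_lit 16560, R4_301, R8_289, R3_345⟩, ⟨nat_lit 3, nat_lit 11952, nat_lit 16704, nat_lit 14784, nat_lit 8304, nat_lit 3264, R4_308, R9_173, R10_68⟩]⟩]⟩,
 ⟨nat_lit 1, [⟨nat_lit 6, [⟨nat_lit 0, nat_lit 12096, nat_lit 17568, nat_lit 17328, nat_lit 10848, nat_lit 17856, R5_361, R5_226, R3_372⟩]⟩]⟩]], [[], [], [], [], [], [], [], [⟨nat_lit 0, [⟨nat_lit 6, [⟨nat_lit 3, nat_lit 16128, nat_lit 10464, nat_lit 13296, nat_lit 15312, nat_lit 3216, R4_277, R3_319, R10_67⟩]⟩]⟩,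
 ⟨nat_lit 1, [⟨nat_lit 6, [⟨nat_lit 3, nat_lit 16272, nat_lit 10512, nat_lit 16512, nat_lit 9360, nat_lit 5904, R5_344, R10_195, R10_123⟩]⟩]⟩]]], [[[⟨nat_lit 1, [⟨nat_lit 6, [⟨nat_lit 4, nat_lit 18000, nat_lit 1392, nat_lit 1440, nat_lit 528, nat_lit 4416, R11_30, R4_11, R4_92⟩]⟩]⟩], [], [⟨nat_lit 1, [⟨nat_lit 6, [⟨nat_lit 4, nat_lit 18192, nat_lit 4752, nat_lit 1584, nat_lit 6912, nat_lit 17568, R11_33, R4_144, R3_366⟩, ⟨nat_lit 5, nat_lit 18240, nat_lit 5424, nat_lit 1728, nat_lit 5760, nat_lit 6576, R11_36, R3_120, R10_137⟩]⟩]⟩]], [], [[], [], [⟨nat_lit 1, [⟨nat_lit 6, [⟨nat_lit 5, nat_lit 21456, nat_lit 20016, nat_lit 16656, nat_lit 10128, nat_lit 6624, R11_347, R10_211, R10_138⟩]⟩]⟩]], [[⟨nat_lit 1, [⟨nat_lit 6, [⟨nat_lit 4, nat_lit 21888, nat_lit 624, nat_lit 12720, nat_lit 2112, nat_lit 10704, R11_265,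 R5_44, R4_223⟩, ⟨nat_lit 7, nat_lit 21936, nat_lit 7584, nat_lit 12864, nat_lit 12912, nat_lit 7296, R11_268, R11_269, R5_152⟩]⟩]⟩], [], [], [⟨nat_lit 1, [⟨nat_lit 6, [⟨nat_lit 7, nat_lit 22224, nat_lit 22224, nat_lit 13008, nat_lit 13008, nat_lit 6912, R11_271, R11_271, R11_144⟩]⟩]⟩]], [[], [], [], [], [⟨nat_lit 1, [⟨nat_lit 6, [⟨nat_lit 0, nat_lit 1440, nat_lit 1392, nat_lit 18000, nat_lit 528, nat_lit 4416, R11_375, R4_11, R4_92⟩]⟩]⟩], [], [], [⟨nat_lit 1, [⟨nat_lit 6, [⟨nat_lit 0, nat_lit 1584, nat_lit 4752, nat_lit 18192, nat_lit 6912, nat_lit 17568, R11_379, R4_144, R3_366⟩, ⟨nat_lit 3, nat_lit 1728, nat_lit 5424, nat_lit 18240, nat_lit 5760, nat_lit 6576, R11_380, R3_120, R10_137⟩]⟩]⟩]], [], [[], [], [], [], [⟨nat_lit 1, [⟨nat_lit 6, [⟨nat_lit 0, nat_lit 12720, nat_lit 624, nat_lit 21888, nat_lit 2112,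 nat_lit 10704, R11_456, R5_44, R4_223⟩, ⟨nat_lit 1, nat_lit 12864, nat_lit 7584, nat_lit 21936, nat_lit 12912, nat_lit 7296, R11_457, R11_269, R5_152⟩]⟩]⟩], [], [⟨nat_lit 1, [⟨nat_lit 6, [⟨nat_lit 1, nat_lit 13008, nat_lit 22224, nat_lit 22224, nat_lit 13008, nat_lit 6912, R11_463, R11_271, R11_144⟩]⟩]⟩]], [[], [], [], [], [], [], [], [⟨nat_lit 1, [⟨nat_lit 6, [⟨nat_lit 3, nat_lit 16656, nat_lit 20016, nat_lit 21456, nat_lit 10128, nat_lit 6624, R11_447, R10_211, R10_138⟩]⟩]⟩]]], [], [[], [], [], [], [[], [], [], [], [], [], [], [⟨nat_lit 0, [⟨nat_lit 6, [⟨nat_lit 0, nat_lit 3360, nat_lit 672, nat_lit 8592, nat_lit 6240, nat_lit 16176, R3_179, R6_130, R3_337⟩, ⟨nat_lit 3, nat_lit 3552, nat_lit 4272, nat_lit 8928, nat_lit 7488, nat_lit 3792, R3_186, R13_156, R10_79⟩]⟩]⟩,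
 ⟨nat_lit 3, [⟨nat_lit 6, [⟨nat_lit 3, nat_lit 4320, nat_lit 6000, nat_lit 4848, nat_lit 5040, nat_lit 4464, R10_101, R3_105, R10_93⟩]⟩]⟩]], [[], [], [], [], [], [], [], [⟨nat_lit 3, [⟨nat_lit 6, [⟨nat_lit 3, nat_lit 10320, nat_lit 4560, nat_lit 4896, nat_lit 4896, nat_lit 4560, R10_102, R10_102, R10_95⟩]⟩]⟩]], [], [[], [], [], [⟨nat_lit 3, [⟨nat_lit 6, [⟨nat_lit 7, nat_lit 17328, nat_lit 17232, nat_lit 7920, nat_lit 6144, nat_lit 6672, R10_165, R12_128, R11_139⟩]⟩]⟩]]], [[], [[⟨nat_lit 4, [⟨nat_lit 2, [⟨nat_lit 4, nat_lit 18336, nat_lit 12912, nat_lit 13728, nat_lit 13728, nat_lit 12912, R7_286, R7_286, R7_269⟩]⟩, ⟨nat_lit 6, [⟨nat_lit 4, nat_lit 18288, nat_lit 17568, nat_lit 12432, nat_lit 5568, nat_lit 11856, R4_259, R7_116, R4_247⟩]⟩]⟩]], [], [], [], [[⟨nat_lit 4, [⟨nat_lit 2, [⟨nat_lit 4, nat_lit 4416,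 nat_lit 11856, nat_lit 5568, nat_lit 12432, nat_lit 17568, R7_116, R4_259, R7_366⟩, ⟨nat_lit 6, nat_lit 4464, nat_lit 11904, nat_lit 6000, nat_lit 1488, nat_lit 13200, R7_125, R3_31, R14_275⟩]⟩, ⟨nat_lit 6, [⟨nat_lit 4, nat_lit 4368, nat_lit 15120, nat_lit 5856, nat_lit 5856, nat_lit 15120, R4_122, R4_122, R4_315⟩]⟩]⟩,
 ⟨nat_lit 6, [⟨nat_lit 2, [⟨nat_lit 6, nat_lit 4560, nat_lit 12048, nat_lit 17184, nat_lit 7632, nat_lit 13248, R14_358, R10_159, R14_276⟩]⟩]⟩,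
 ⟨nat_lit 7, [⟨nat_lit 6, [⟨nat_lit 4, nat_lit 4656, nat_lit 15456, nat_lit 8880, nat_lit 8880, nat_lit 15456, R5_185, R5_185, R4_322⟩, ⟨nat_lit 7, nat_lit 4704, nat_lit 15504, nat_lit 9024, nat_lit 8544, nat_lit 17088, R5_188, R11_178, R5_356⟩]⟩]⟩], [⟨nat_lit 4, [⟨nat_lit 2, [⟨nat_lit 6, nat_lit 4848, nat_lit 3504, nat_lit 6096, nat_lit 1584, nat_lit 10464, R7_127, R3_33, R12_218⟩]⟩]⟩,
 ⟨nat_lit 6, [⟨nat_lit 2, [⟨nat_lit 6, nat_lit 4944, nat_lit 10992, nat_lit 17424, nat_lit 7728, nat_lit 10512, R14_363, R10_161, R12_219⟩]⟩]⟩]]], [[[⟨nat_lit 5, [⟨nat_lit 6, [⟨nat_lit 4, nat_lit 17376, nat_lit 2064, nat_lit 13200, nat_lit 1152, nat_lit 4272, R10_275, R7_24, R4_89⟩]⟩]⟩]], [[⟨nat_lit 4, [⟨nat_lit 6, [⟨nat_lit 4, nat_lit 19104, nat_lit 11712, nat_lit 1488, nat_lit 6000, nat_lit 11904, R3_31, R7_125, R4_248⟩]⟩]⟩,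
 ⟨nat_lit 5, [⟨nat_lit 6, [⟨nat_lit 4, nat_lit 19296, nat_lit 11760, nat_lit 16032, nat_lit 17568, nat_lit 12048, R10_334, R14_366, R4_251⟩, ⟨nat_lit 7, nat_lit 19440, nat_lit 12240, nat_lit 16848, nat_lit 1104, nat_lit 14256, R10_351, R12_23, R5_297⟩]⟩]⟩], [], [⟨nat_lit 4, [⟨nat_lit 6, [⟨nat_lit 4, nat_lit 19584, nat_lit 10464, nat_lit 1584, nat_lit 6096, nat_lit 3504, R3_33, R7_127, R3_73⟩]⟩]⟩,
 ⟨nat_lit 5, [⟨nat_lit 6, [⟨nat_lit 4, nat_lit 19776, nat_lit 10512, nat_lit 16224, nat_lit 18000, nat_lit 10992, R10_338, R14_375, R3_229⟩, ⟨nat_lit 5, nat_lit 19872, nat_lit 10896, nat_lit 18240, nat_lit 15120, nat_lit 6912, R10_380, R12_315, R10_144⟩]⟩]⟩], [⟨nat_lit 5, [⟨nat_lit 6, [⟨nat_lit 7, nat_lit 20592, nat_lit 17232, nat_lit 16992, nat_lit 6144, nat_lit 7440, R10_354, R12_128, R11_155⟩]⟩]⟩]]], [[], [], [],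 [], [], [[], [⟨nat_lit 6, [⟨nat_lit 2, [⟨nat_lit 6, nat_lit 5232, nat_lit 6912, nat_lit 15120, nat_lit 8160, nat_lit 10896, R12_315, R10_170, R12_227⟩]⟩]⟩]]], [[], [[], [], [], [⟨nat_lit 6, [⟨nat_lit 3, [⟨nat_lit 6, nat_lit 21168, nat_lit 7824, nat_lit 4176, nat_lit 15600, nat_lit 4944, R1_87, R1_325, R1_103⟩]⟩]⟩,
 ⟨nat_lit 7, [⟨nat_lit 6, [⟨nat_lit 7, nat_lit 21216, nat_lit 16512, nat_lit 21696, nat_lit 8832, nat_lit 7152, R11_452, R1_184, R11_149⟩]⟩]⟩]], [], [], [], [[⟨nat_lit 2, [⟨nat_lit 3, [⟨nat_lit 2, nat_lit 6096, nat_lit 7296, nat_lit 12912, nat_lit 8496, nat_lit 7584, R11_269, R11_177, R5_158⟩]⟩]⟩,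
 ⟨nat_lit 4, [⟨nat_lit 2, [⟨nat_lit 4, nat_lit 5616, nat_lit 12768, nat_lit 7728, nat_lit 12624, nat_lit 17664, R2_161, R4_263, R7_368⟩, ⟨nat_lit 6, nat_lit 5664, nat_lit 13776, nat_lit 8928, nat_lit 7968, nat_lit 13680, R2_186, R3_166, R14_285⟩]⟩]⟩,
 ⟨nat_lit 6, [⟨nat_lit 0, [⟨nat_lit 2, nat_lit 5808, nat_lit 720, nat_lit 2112, nat_lit 6912, nat_lit 8544, R2_44, R1_144, R4_178⟩, ⟨nat_lit 6, nat_lit 5712, nat_lit 3120, nat_lit 336, nat_lit 7776, nat_lit 8592, R2_7, R10_162, R7_179⟩]⟩, ⟨nat_lit 2, [⟨nat_lit 6, nat_lit 5760, nat_lit 14256, nat_lit 7152, nat_lit 7824, nat_lit 13776, R12_149, R10_163, R14_287⟩]⟩, ⟨nat_lit 3, [⟨nat_lit 2, nat_lit 5856, nat_lit 7680, nat_lit 1584, nat_lit 6960, nat_lit 7152, R1_33, R1_145, R5_149⟩]⟩]⟩,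
 ⟨nat_lit 7, [⟨nat_lit 2, [⟨nat_lit 4, nat_lit 5952, nat_lit 12912, nat_lit 8256, nat_lit 16416, nat_lit 17856, R1_172, R5_342, R7_372⟩, ⟨nat_lit 6, nat_lit 6000, nat_lit 13968, nat_lit 9744, nat_lit 6048, nat_lit 13728, R1_203, R0_126, R14_286⟩]⟩, ⟨nat_lit 6, [⟨nat_lit 4, nat_lit 5904, nat_lit 17088, nat_lit 11328, nat_lit 9024, nat_lit 15504, R11_236, R5_188, R4_323⟩, ⟨nat_lit 7, nat_lit 6048, nat_lit 17520, nat_lit 11472, nat_lit 8592, nat_lit 17520, R11_239, R11_179, R5_365⟩]⟩]⟩], [⟨nat_lit 2, [⟨nat_lit 3, [⟨nat_lit 2, nat_lit 6480, nat_lit 5232, nat_lit 12960, nat_lit 8880, nat_lit 15264, R11_270, R11_185, R0_318⟩]⟩]⟩,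
 ⟨nat_lit 4, [⟨nat_lit 2, [⟨nat_lit 6, nat_lit 6192, nat_lit 5280, nat_lit 9408, nat_lit 8112, nat_lit 11328, R2_196, R3_169, R12_236⟩]⟩]⟩,
 ⟨nat_lit 6, [⟨nat_lit 0, [⟨nat_lit 2, nat_lit 6336, nat_lit 5376, nat_lit 9888, nat_lit 7056, nat_lit 13056, R2_206, R1_147, R3_272⟩, ⟨nat_lit 6, nat_lit 6240, nat_lit 5472, nat_lit 7344, nat_lit 8016, nat_lit 7392, R2_153, R10_167, R2_154⟩]⟩, ⟨nat_lit 2, [⟨nat_lit 6, nat_lit 6288, nat_lit 5520, nat_lit 8832, nat_lit 8064, nat_lit 11424, R12_184, R10_168, R12_238⟩]⟩, ⟨nat_lit 3, [⟨nat_lit 2, nat_lit 6384, nat_lit 5424, nat_lit 10704, nat_lit 7104, nat_lit 15120, R1_223, R1_148, R0_315⟩]⟩]⟩,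
 ⟨nat_lit 7, [⟨nat_lit 2, [⟨nat_lit 6, nat_lit 6432, nat_lit 5328, nat_lit 10224, nat_lit 6144, nat_lit 11376, R1_213, R0_128, R12_237⟩]⟩]⟩], [], [⟨nat_lit 0, [⟨nat_lit 7, [⟨nat_lit 0, nat_lit 7008, nat_lit 6528, nat_lit 7872, nat_lit 12768, nat_lit 14880, R2_164, R4_266, R2_310⟩, ⟨nat_lit 3, nat_lit 7056, nat_lit 6576, nat_lit 9120, nat_lit 8016, nat_lit 5520, R2_190, R3_167, R12_115⟩]⟩]⟩,
 ⟨nat_lit 2, [⟨nat_lit 3, [⟨nat_lit 2, nat_lit 7200, nat_lit 6912, nat_lit 13008, nat_lit 8640, nat_lit 7200, R11_271, R11_180, R11_150⟩]⟩, ⟨nat_lit 7, [⟨nat_lit 0, nat_lit 7104, nat_lit 6816, nat_lit 8400, nat_lit 16752, nat_lit 15504, R1_175, R5_349, R2_323⟩, ⟨nat_lit 2, nat_lit 7152, nat_lit 6960, nat_lit 8832, nat_lit 8688, nat_lit 16512, R1_184, R11_181, R1_344⟩, ⟨nat_lit 3, nat_lit 7248, nat_lit 6864, nat_lit 9936,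 nat_lit 6096, nat_lit 5712, R1_207, R0_127, R12_119⟩]⟩]⟩,
 ⟨nat_lit 3, [⟨nat_lit 4, [⟨nat_lit 3, nat_lit 7344, nat_lit 6624, nat_lit 6048, nat_lit 7872, nat_lit 5760, R2_126, R10_164, R2_120⟩]⟩, ⟨nat_lit 6, [⟨nat_lit 3, nat_lit 7392, nat_lit 6720, nat_lit 4752, nat_lit 7968, nat_lit 4464, R1_99, R10_166, R1_93⟩, ⟨nat_lit 7, nat_lit 7296, nat_lit 6768, nat_lit 7008, nat_lit 7008, nat_lit 6768, R1_146, R1_146, R11_141⟩]⟩, ⟨nat_lit 7, [⟨nat_lit 3, nat_lit 7440, nat_lit 6672, nat_lit 7872, nat_lit 7920, nat_lit 5760, R12_164, R10_165, R12_120⟩]⟩]⟩,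
 ⟨nat_lit 4, [⟨nat_lit 2, [⟨nat_lit 4, nat_lit 6528, nat_lit 7008, nat_lit 7872, nat_lit 12768, nat_lit 14880, R2_164, R4_266, R2_310⟩, ⟨nat_lit 6, nat_lit 6576, nat_lit 7056, nat_lit 9120, nat_lit 8016, nat_lit 5520, R2_190, R3_167, R12_115⟩]⟩]⟩,
 ⟨nat_lit 6, [⟨nat_lit 0, [⟨nat_lit 6, nat_lit 6624, nat_lit 7344, nat_lit 6048, nat_lit 7872, nat_lit 5760, R2_126, R10_164, R2_120⟩]⟩, ⟨nat_lit 2, [⟨nat_lit 6, nat_lit 6672, nat_lit 7440, nat_lit 7872, nat_lit 7920, nat_lit 5760, R12_164, R10_165, R12_120⟩]⟩, ⟨nat_lit 3, [⟨nat_lit 2, nat_lit 6768, nat_lit 7296, nat_lit 7008, nat_lit 7008, nat_lit 6768, R1_146, R1_146, R11_141⟩, ⟨nat_lit 6, nat_lit 6720, nat_lit 7392, nat_lit 4752, nat_lit 7968, nat_lit 4464, R1_99, R10_166, R1_93⟩]⟩]⟩,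
 ⟨nat_lit 7, [⟨nat_lit 2, [⟨nat_lit 4, nat_lit 6816, nat_lit 7104, nat_lit 8400, nat_lit 16752, nat_lit 15504, R1_175, R5_349, R2_323⟩, ⟨nat_lit 6, nat_lit 6864, nat_lit 7248, nat_lit 9936, nat_lit 6096, nat_lit 5712, R1_207, R0_127, R12_119⟩, ⟨nat_lit 7, nat_lit 6960, nat_lit 7152, nat_lit 8832, nat_lit 8688, nat_lit 16512, R1_184, R11_181, R1_344⟩]⟩, ⟨nat_lit 6, [⟨nat_lit 7, nat_lit 6912, nat_lit 7200, nat_lit 13008, nat_lit 8640, nat_lit 7200, R11_271, R11_180, R11_150⟩]⟩]⟩]]]]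
noncomputable def N2022 : T3 (List N0) := [[[[⟨nat_lit 0, [⟨nat_lit 2, [⟨nat_lit 2, nat_lit 1776, nat_lit 2160, nat_lit 9600, nat_lit 240, nat_lit 8208, R6_200, R8_5, R5_171⟩]⟩]⟩,
 ⟨nat_lit 2, [⟨nat_lit 2, [⟨nat_lit 2, nat_lit 1968, nat_lit 9888, nat_lit 10560, nat_lit 16848, nat_lit 8304, R4_220, R5_351, R5_173⟩]⟩]⟩,
 ⟨nat_lit 3, [⟨nat_lit 0, [⟨nat_lit 0, nat_lit 912, nat_lit 4416, nat_lit 4656, nat_lit 19776, nat_lit 11760, R6_97, R13_412, R6_245⟩, ⟨nat_lit 1, nat_lit 1008, nat_lit 4464, nat_lit 4752, nat_lit 16032, nat_lit 12144, R6_99, R3_334, R4_253⟩, ⟨nat_lit 2, nat_lit 960, nat_lit 4608, nat_lit 4704, nat_lit 15984, nat_lit 12384, R6_98, R9_333, R8_258⟩]⟩, ⟨nat_lit 2, [⟨nat_lit 2, nat_lit 2208, nat_lit 6912, nat_lit 9024, nat_lit 16080, nat_lit 8256, R8_188, R9_335, R5_172⟩]⟩, ⟨nat_lit 3, [⟨nat_lit 0,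 nat_lit 3264, nat_lit 5424, nat_lit 4944, nat_lit 19824, nat_lit 10512, R4_103, R13_413, R13_219⟩, ⟨nat_lit 1, nat_lit 3360, nat_lit 5616, nat_lit 5088, nat_lit 16080, nat_lit 8544, R4_106, R3_335, R3_178⟩, ⟨nat_lit 2, nat_lit 3312, nat_lit 5760, nat_lit 5040, nat_lit 16032, nat_lit 8064, R4_105, R9_334, R9_168⟩, ⟨nat_lit 3, nat_lit 3408, nat_lit 5568, nat_lit 4992, nat_lit 2928, nat_lit 11424, R4_104, R3_61, R3_238⟩]⟩]⟩,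
 ⟨nat_lit 7, [⟨nat_lit 3, [⟨nat_lit 3, nat_lit 2544, nat_lit 12288, nat_lit 8736, nat_lit 14400, nat_lit 11088, R7_182, R2_300, R3_231⟩]⟩]⟩], [⟨nat_lit 0, [⟨nat_lit 2, [⟨nat_lit 2, nat_lit 1824, nat_lit 2016, nat_lit 9648, nat_lit 336, nat_lit 96, R6_201, R8_7, R0_2⟩]⟩]⟩,
 ⟨nat_lit 3, [⟨nat_lit 0, [⟨nat_lit 0, nat_lit 1200, nat_lit 4656, nat_lit 5808, nat_lit 21312, nat_lit 7536, R6_121, R13_444, R8_157⟩, ⟨nat_lit 1, nat_lit 1296, nat_lit 4704, nat_lit 5904, nat_lit 17376, nat_lit 14304, R6_123, R3_362, R5_298⟩, ⟨nat_lit 2, nat_lit 1248, nat_lit 4896, nat_lit 5856, nat_lit 17712, nat_lit 13200, R6_122, R9_369, R9_275⟩]⟩, ⟨nat_lit 2, [⟨nat_lit 2, nat_lit 2304, nat_lit 7536, nat_lit 9072, nat_lit 17760, nat_lit 7392, R8_189, R9_370, R0_154⟩]⟩, ⟨nat_lit 3, [⟨nat_lit 0, nat_lit 3600, nat_lit 5760, nat_lit 6144,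 nat_lit 21360, nat_lit 4368, R4_128, R13_445, R9_91⟩, ⟨nat_lit 1, nat_lit 3648, nat_lit 6000, nat_lit 6240, nat_lit 17424, nat_lit 2832, R4_130, R3_363, R0_59⟩, ⟨nat_lit 3, nat_lit 3696, nat_lit 5952, nat_lit 6192, nat_lit 3552, nat_lit 2400, R4_129, R3_74, R0_50⟩]⟩]⟩,
 ⟨nat_lit 7, [⟨nat_lit 3, [⟨nat_lit 3, nat_lit 2736, nat_lit 12528, nat_lit 8928, nat_lit 15552, nat_lit 12336, R7_186, R2_324, R0_257⟩]⟩]⟩], [⟨nat_lit 0, [⟨nat_lit 2, [⟨nat_lit 2, nat_lit 1872, nat_lit 3552, nat_lit 9696, nat_lit 288, nat_lit 10656, R6_202, R8_6, R11_222⟩]⟩]⟩,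
 ⟨nat_lit 2, [⟨nat_lit 2, [⟨nat_lit 2, nat_lit 2064, nat_lit 10848, nat_lit 10656, nat_lit 17184, nat_lit 10752, R4_222, R5_358, R11_224⟩]⟩]⟩,
 ⟨nat_lit 3, [⟨nat_lit 0, [⟨nat_lit 0, nat_lit 1488, nat_lit 8016, nat_lit 6960, nat_lit 20496, nat_lit 5184, R6_145, R13_427, R4_108⟩, ⟨nat_lit 2, nat_lit 1536, nat_lit 8688, nat_lit 7008, nat_lit 16848, nat_lit 8544, R6_146, R9_351, R5_178⟩]⟩, ⟨nat_lit 2, [⟨nat_lit 2, nat_lit 2400, nat_lit 8784, nat_lit 9120, nat_lit 16944, nat_lit 10704, R8_190, R9_353, R11_223⟩]⟩, ⟨nat_lit 3, [⟨nat_lit 0, nat_lit 3840, nat_lit 8064, nat_lit 7584, nat_lit 20544, nat_lit 3888, R4_158, R13_428, R3_81⟩, ⟨nat_lit 2, nat_lit 3888, nat_lit 8736, nat_lit 7680, nat_lit 16896, nat_lit 7296, R4_160, R9_352, R0_152⟩, ⟨nat_lit 3, nat_lit 3936, nat_lit 8352, nat_lit 7632, nat_lit 3264, nat_lit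 8976, R4_159, R3_68, R10_187⟩]⟩]⟩,
 ⟨nat_lit 7, [⟨nat_lit 3, [⟨nat_lit 3, nat_lit 2928, nat_lit 14880, nat_lit 9024, nat_lit 14976, nat_lit 9024, R7_188, R2_312, R10_188⟩]⟩, ⟨nat_lit 7, [⟨nat_lit 3, nat_lit 528, nat_lit 14832, nat_lit 9168, nat_lit 15024, nat_lit 8064, R4_191, R2_313, R1_168⟩]⟩]⟩]], [], [[], [], [⟨nat_lit 0, [⟨nat_lit 2, [⟨nat_lit 2, nat_lit 1920, nat_lit 288, nat_lit 9744, nat_lit 4800, nat_lit 12624, R6_203, R5_100, R11_263⟩]⟩]⟩,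
 ⟨nat_lit 2, [⟨nat_lit 2, [⟨nat_lit 2, nat_lit 2112, nat_lit 624, nat_lit 10704, nat_lit 21888, nat_lit 12720, R4_223, R11_456, R11_265⟩, ⟨nat_lit 6, nat_lit 2160, nat_lit 576, nat_lit 10752, nat_lit 16032, nat_lit 8688, R4_224, R1_334, R1_181⟩]⟩, ⟨nat_lit 6, [⟨nat_lit 6, nat_lit 240, nat_lit 2976, nat_lit 11376, nat_lit 15984, nat_lit 9936, R7_237, R1_333, R10_207⟩]⟩]⟩,
 ⟨nat_lit 3, [⟨nat_lit 0, [⟨nat_lit 0, nat_lit 1584, nat_lit 0, nat_lit 7296, nat_lit 4512, nat_lit 6816, R6_152, R3_94, R4_142⟩, ⟨nat_lit 2, nat_lit 1632, nat_lit 48, nat_lit 7344, nat_lit 14448, nat_lit 8736, R6_153, R0_301, R5_182⟩]⟩, ⟨nat_lit 2, [⟨nat_lit 2, nat_lit 2448, nat_lit 384, nat_lit 9312, nat_lit 14544, nat_lit 12672, R8_194, R0_303, R11_264⟩]⟩, ⟨nat_lit 3, [⟨nat_lit 0, nat_lit 3984, nat_lit 96, nat_lit 7968, nat_lit 5184, nat_lit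 5616, R4_166, R3_108, R3_117⟩, ⟨nat_lit 2, nat_lit 4032, nat_lit 192, nat_lit 8064, nat_lit 14496, nat_lit 8016, R4_168, R0_302, R0_167⟩, ⟨nat_lit 3, nat_lit 4080, nat_lit 144, nat_lit 8016, nat_lit 19680, nat_lit 9888, R4_167, R10_410, R10_206⟩]⟩]⟩,
 ⟨nat_lit 4, [⟨nat_lit 7, [⟨nat_lit 7, nat_lit 288, nat_lit 1920, nat_lit 9744, nat_lit 4800, nat_lit 12624, R6_203, R5_100, R11_263⟩]⟩]⟩,
 ⟨nat_lit 6, [⟨nat_lit 4, [⟨nat_lit 4, nat_lit 0, nat_lit 1584, nat_lit 7296, nat_lit 4512, nat_lit 6816, R6_152, R3_94, R4_142⟩, ⟨nat_lit 7, nat_lit 48, nat_lit 1632, nat_lit 7344, nat_lit 14448, nat_lit 8736, R6_153, R0_301, R5_182⟩]⟩, ⟨nat_lit 6, [⟨nat_lit 4, nat_lit 96, nat_lit 3984, nat_lit 7968, nat_lit 5184, nat_lit 5616, R4_166, R3_108, R3_117⟩, ⟨nat_lit 6, nat_lit 144, nat_lit 4080, nat_lit 8016, nat_lit 19680, nat_lit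 9888, R4_167, R10_410, R10_206⟩, ⟨nat_lit 7, nat_lit 192, nat_lit 4032, nat_lit 8064, nat_lit 14496, nat_lit 8016, R4_168, R0_302, R0_167⟩]⟩, ⟨nat_lit 7, [⟨nat_lit 7, nat_lit 384, nat_lit 2448, nat_lit 9312, nat_lit 14544, nat_lit 12672, R8_194, R0_303, R11_264⟩]⟩]⟩,
 ⟨nat_lit 7, [⟨nat_lit 3, [⟨nat_lit 3, nat_lit 2976, nat_lit 240, nat_lit 11376, nat_lit 15984, nat_lit 9936, R7_237, R1_333, R10_207⟩]⟩, ⟨nat_lit 7, [⟨nat_lit 3, nat_lit 576, nat_lit 2160, nat_lit 10752, nat_lit 16032, nat_lit 8688, R4_224, R1_334, R1_181⟩, ⟨nat_lit 7, nat_lit 624, nat_lit 2112, nat_lit 10704, nat_lit 21888, nat_lit 12720, R4_223, R11_456, R11_265⟩]⟩]⟩]], [[⟨nat_lit 3, [⟨nat_lit 0, [⟨nat_lit 0, nat_lit 1056, nat_lit 192, nat_lit 5184, nat_lit 48, nat_lit 12048, R6_108, R3_1, R6_251⟩, ⟨nat_lit 1, nat_lit 1152, nat_lit 240, nat_lit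 5280, nat_lit 2976, nat_lit 12288, R6_110, R10_62, R4_256⟩, ⟨nat_lit 2, nat_lit 1104, nat_lit 288, nat_lit 5232, nat_lit 144, nat_lit 12528, R6_109, R0_3, R8_261⟩]⟩, ⟨nat_lit 2, [⟨nat_lit 2, nat_lit 2256, nat_lit 2064, nat_lit 9168, nat_lit 336, nat_lit 10272, R8_191, R0_7, R5_214⟩]⟩, ⟨nat_lit 3, [⟨nat_lit 0, nat_lit 3456, nat_lit 768, nat_lit 5472, nat_lit 3792, nat_lit 11232, R4_114, R3_79, R13_234⟩, ⟨nat_lit 1, nat_lit 3552, nat_lit 816, nat_lit 5568, nat_lit 3648, nat_lit 8832, R4_116, R10_76, R3_184⟩, ⟨nat_lit 2, nat_lit 3504, nat_lit 864, nat_lit 5520, nat_lit 240, nat_lit 8880, R4_115, R0_5, R9_185⟩]⟩]⟩,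
 ⟨nat_lit 7, [⟨nat_lit 3, [⟨nat_lit 0, nat_lit 2592, nat_lit 1344, nat_lit 9600, nat_lit 3552, nat_lit 11280, R7_200, R2_74, R13_235⟩, ⟨nat_lit 1, nat_lit 2640, nat_lit 1440, nat_lit 9696, nat_lit 3024, nat_lit 8880, R7_202, R1_63, R3_185⟩, ⟨nat_lit 3, nat_lit 2688, nat_lit 1392, nat_lit 9648, nat_lit 15552, nat_lit 11952, R7_201, R12_324, R3_249⟩]⟩, ⟨nat_lit 7, [⟨nat_lit 3, nat_lit 480, nat_lit 3312, nat_lit 9504, nat_lit 15504, nat_lit 8352, R4_198, R12_323, R2_174⟩]⟩]⟩], [⟨nat_lit 3, [⟨nat_lit 0, [⟨nat_lit 0, nat_lit 1344, nat_lit 384, nat_lit 6528, nat_lit 2256, nat_lit 7584, R6_136, R3_47, R8_158⟩, ⟨nat_lit 1, nat_lit 1440, nat_lit 432, nat_lit 6624, nat_lit 5664, nat_lit 14352, R6_138, R10_118, R5_299⟩, ⟨nat_lit 2, nat_lit 1392, nat_lit 480, nat_lit 6576, nat_lit 1920, nat_lit 13344, R6_137, R0_40, R9_278⟩]⟩,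 ⟨nat_lit 2, [⟨nat_lit 2, nat_lit 2352, nat_lit 2592, nat_lit 9216, nat_lit 2016, nat_lit 7440, R8_192, R0_42, R0_155⟩]⟩, ⟨nat_lit 3, [⟨nat_lit 0, nat_lit 3744, nat_lit 1056, nat_lit 6672, nat_lit 7152, nat_lit 5376, R4_139, R3_149, R9_112⟩, ⟨nat_lit 1, nat_lit 3792, nat_lit 1104, nat_lit 6720, nat_lit 6192, nat_lit 3216, R4_140, R10_129, R0_67⟩]⟩]⟩,
 ⟨nat_lit 7, [⟨nat_lit 3, [⟨nat_lit 0, nat_lit 2784, nat_lit 1776, nat_lit 10464, nat_lit 6528, nat_lit 5760, R7_218, R2_136, R9_120⟩, ⟨nat_lit 1, nat_lit 2832, nat_lit 1872, nat_lit 10560, nat_lit 5232, nat_lit 3600, R7_220, R1_109, R0_75⟩, ⟨nat_lit 3, nat_lit 2880, nat_lit 1824, nat_lit 10512, nat_lit 15984, nat_lit 13296, R7_219, R12_333, R0_277⟩]⟩]⟩], [⟨nat_lit 3, [⟨nat_lit 0, [⟨nat_lit 0, nat_lit 1680, nat_lit 96, nat_lit 7200, nat_lit 768, nat_lit 6336, R6_150,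 R3_16, R4_132⟩, ⟨nat_lit 2, nat_lit 1728, nat_lit 144, nat_lit 7248, nat_lit 960, nat_lit 8640, R6_151, R0_20, R5_180⟩]⟩, ⟨nat_lit 2, [⟨nat_lit 2, nat_lit 2496, nat_lit 1200, nat_lit 9264, nat_lit 1152, nat_lit 13536, R8_193, R0_24, R11_282⟩]⟩, ⟨nat_lit 3, [⟨nat_lit 0, nat_lit 4128, nat_lit 336, nat_lit 7872, nat_lit 6096, nat_lit 6192, R4_164, R3_127, R3_129⟩, ⟨nat_lit 2, nat_lit 4176, nat_lit 384, nat_lit 7920, nat_lit 1056, nat_lit 8400, R4_165, R0_22, R0_175⟩]⟩]⟩,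
 ⟨nat_lit 7, [⟨nat_lit 3, [⟨nat_lit 0, nat_lit 3024, nat_lit 576, nat_lit 11280, nat_lit 4416, nat_lit 6624, R7_235, R2_92, R3_138⟩, ⟨nat_lit 3, nat_lit 3072, nat_lit 624, nat_lit 11328, nat_lit 15744, nat_lit 10560, R7_236, R12_328, R10_220⟩]⟩, ⟨nat_lit 7, [⟨nat_lit 3, nat_lit 672, nat_lit 2400, nat_lit 10512, nat_lit 15696, nat_lit 9168, R4_219, R12_327, R1_191⟩]⟩]⟩], [⟨nat_lit 3, [⟨nat_lit 3, [⟨nat_lit 0, nat_lit 4224, nat_lit 4416, nat_lit 7200, nat_lit 5520, nat_lit 4944, R4_150, R3_115, R3_103⟩, ⟨nat_lit 1, nat_lit 4320, nat_lit 4464, nat_lit 7296, nat_lit 4320, nat_lit 4752, R4_152, R10_90, R10_99⟩, ⟨nat_lit 2, nat_lit 4272, nat_lit 4608, nat_lit 7248, nat_lit 480, nat_lit 11904, R4_151, R0_10, R0_248⟩]⟩]⟩,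
 ⟨nat_lit 7, [⟨nat_lit 3, [⟨nat_lit 0, nat_lit 3168, nat_lit 12432, nat_lit 10944, nat_lit 4944, nat_lit 13152, R7_228, R2_103, R3_274⟩, ⟨nat_lit 1, nat_lit 3216, nat_lit 12576, nat_lit 10992, nat_lit 3648, nat_lit 5376, R7_229, R1_76, R10_112⟩]⟩, ⟨nat_lit 7, [⟨nat_lit 0, nat_lit 768, nat_lit 13680, nat_lit 10272, nat_lit 5520, nat_lit 5952, R4_214, R2_115, R2_124⟩, ⟨nat_lit 1, nat_lit 816, nat_lit 14256, nat_lit 10368, nat_lit 4224, nat_lit 4656, R4_216, R1_88, R1_97⟩, ⟨nat_lit 3, nat_lit 864, nat_lit 14016, nat_lit 10320, nat_lit 15888, nat_lit 7776, R4_215, R12_331, R12_162⟩]⟩]⟩]], [], [], [], [[], [], [], [⟨nat_lit 4, [⟨nat_lit 7, [⟨nat_lit 1, nat_lit 336, nat_lit 1536, nat_lit 8160, nat_lit 14448, nat_lit 6288, R6_170, R5_301, R1_131⟩]⟩]⟩,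
 ⟨nat_lit 7, [⟨nat_lit 3, [⟨nat_lit 1, nat_lit 3120, nat_lit 336, nat_lit 8592, nat_lit 5712, nat_lit 7776, R7_179, R11_119, R10_162⟩]⟩, ⟨nat_lit 7, [⟨nat_lit 1, nat_lit 720, nat_lit 2112, nat_lit 8544, nat_lit 5808, nat_lit 6912, R4_178, R11_121, R1_144⟩]⟩]⟩]]], [[[⟨nat_lit 0, [⟨nat_lit 0, [⟨nat_lit 0, nat_lit 7920, nat_lit 12576, nat_lit 16416, nat_lit 8352, nat_lit 14688, R6_342, R6_174, R6_306⟩, ⟨nat_lit 1, nat_lit 8016, nat_lit 13488, nat_lit 17088, nat_lit 8976, nat_lit 14256, R6_356, R4_187, R4_297⟩, ⟨nat_lit 2, nat_lit 7968, nat_lit 16752, nat_lit 16752, nat_lit 4560, nat_lit 15504, R6_349, R8_95, R8_323⟩]⟩, ⟨nat_lit 2, [⟨nat_lit 2, nat_lit 10176, nat_lit 16896, nat_lit 12624, nat_lit 4992, nat_lit 9552, R13_263, R8_104, R5_199⟩]⟩]⟩,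
 ⟨nat_lit 2, [⟨nat_lit 2, [⟨nat_lit 2, nat_lit 10656, nat_lit 17424, nat_lit 17664, nat_lit 16944, nat_lit 9648, R3_368, R5_353, R5_201⟩]⟩]⟩,
 ⟨nat_lit 3, [⟨nat_lit 0, [⟨nat_lit 0, nat_lit 9168, nat_lit 12720, nat_lit 15552, nat_lit 19968, nat_lit 14880, R8_324, R13_416, R6_310⟩, ⟨nat_lit 1, nat_lit 9264, nat_lit 13776, nat_lit 16608, nat_lit 16368, nat_lit 14400, R8_346, R3_341, R4_300⟩, ⟨nat_lit 2, nat_lit 9216, nat_lit 17040, nat_lit 16368, nat_lit 16272, nat_lit 16176, R8_341, R9_339, R8_337⟩]⟩, ⟨nat_lit 2, [⟨nat_lit 2, nat_lit 11040, nat_lit 17328, nat_lit 9888, nat_lit 16368, nat_lit 9600, R9_206, R9_341, R5_200⟩]⟩, ⟨nat_lit 3, [⟨nat_lit 0, nat_lit 11328, nat_lit 12864, nat_lit 11328, nat_lit 20016, nat_lit 10848, R5_236, R13_417, R13_226⟩, ⟨nat_lit 1, nat_lit 11424, nat_lit 13920, nat_lit 11472, nat_lit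 16416, nat_lit 8688, R5_239, R3_342, R3_181⟩, ⟨nat_lit 2, nat_lit 11376, nat_lit 17184, nat_lit 11376, nat_lit 16320, nat_lit 8544, R5_237, R9_340, R9_178⟩, ⟨nat_lit 3, nat_lit 11472, nat_lit 14592, nat_lit 11424, nat_lit 8688, nat_lit 16416, R5_238, R3_181, R3_342⟩]⟩]⟩], [⟨nat_lit 0, [⟨nat_lit 0, [⟨nat_lit 0, nat_lit 8208, nat_lit 1776, nat_lit 16512, nat_lit 9600, nat_lit 3168, R6_344, R6_200, R8_66⟩, ⟨nat_lit 1, nat_lit 8304, nat_lit 1968, nat_lit 17184, nat_lit 10560, nat_lit 16848, R6_358, R4_220, R5_351⟩, ⟨nat_lit 2, nat_lit 8256, nat_lit 2208, nat_lit 16848, nat_lit 4656, nat_lit 16080, R6_351, R8_97, R9_335⟩]⟩, ⟨nat_lit 2, [⟨nat_lit 2, nat_lit 10272, nat_lit 2256, nat_lit 12672, nat_lit 5088, nat_lit 336, R13_264, R8_106, R0_7⟩]⟩]⟩,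
 ⟨nat_lit 3, [⟨nat_lit 0, [⟨nat_lit 0, nat_lit 9552, nat_lit 10176, nat_lit 16896, nat_lit 21552, nat_lit 7872, R8_352, R13_449, R8_164⟩, ⟨nat_lit 1, nat_lit 9648, nat_lit 10656, nat_lit 17424, nat_lit 17664, nat_lit 16944, R8_363, R3_368, R5_353⟩, ⟨nat_lit 2, nat_lit 9600, nat_lit 11040, nat_lit 17328, nat_lit 17952, nat_lit 16368, R8_361, R9_374, R9_341⟩]⟩, ⟨nat_lit 2, [⟨nat_lit 2, nat_lit 11136, nat_lit 11088, nat_lit 9936, nat_lit 18000, nat_lit 7920, R9_207, R9_375, R0_165⟩]⟩, ⟨nat_lit 3, [⟨nat_lit 0, nat_lit 11808, nat_lit 10224, nat_lit 11520, nat_lit 21600, nat_lit 4416, R5_240, R13_450, R9_92⟩, ⟨nat_lit 1, nat_lit 11856, nat_lit 10704, nat_lit 11616, nat_lit 17712, nat_lit 2880, R5_242, R3_369, R0_60⟩, ⟨nat_lit 3, nat_lit 11904, nat_lit 10512, nat_lit 11568, nat_lit 9504, nat_lit 2688, R5_241, R3_198,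 R0_56⟩]⟩]⟩], [⟨nat_lit 0, [⟨nat_lit 0, [⟨nat_lit 0, nat_lit 8496, nat_lit 2112, nat_lit 16608, nat_lit 9360, nat_lit 144, R6_346, R6_195, R4_3⟩, ⟨nat_lit 2, nat_lit 8544, nat_lit 2496, nat_lit 16944, nat_lit 4608, nat_lit 1536, R6_353, R8_96, R5_32⟩]⟩, ⟨nat_lit 2, [⟨nat_lit 2, nat_lit 10368, nat_lit 2544, nat_lit 12720, nat_lit 5040, nat_lit 12000, R13_265, R8_105, R11_250⟩]⟩]⟩,
 ⟨nat_lit 2, [⟨nat_lit 2, [⟨nat_lit 2, nat_lit 10848, nat_lit 11520, nat_lit 17856, nat_lit 17328, nat_lit 12096, R3_372, R5_361, R11_252⟩]⟩]⟩,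
 ⟨nat_lit 3, [⟨nat_lit 0, [⟨nat_lit 0, nat_lit 9936, nat_lit 8784, nat_lit 18000, nat_lit 20784, nat_lit 5376, R8_375, R13_433, R4_112⟩, ⟨nat_lit 2, nat_lit 9984, nat_lit 9504, nat_lit 18912, nat_lit 17136, nat_lit 9984, R8_394, R9_357, R5_208⟩]⟩, ⟨nat_lit 2, [⟨nat_lit 2, nat_lit 11232, nat_lit 9600, nat_lit 9984, nat_lit 17232, nat_lit 12048, R9_208, R9_359, R11_251⟩]⟩, ⟨nat_lit 3, [⟨nat_lit 0, nat_lit 12192, nat_lit 8832, nat_lit 11664, nat_lit 20832, nat_lit 3936, R5_243, R13_434, R3_82⟩, ⟨nat_lit 2, nat_lit 12240, nat_lit 9552, nat_lit 11712, nat_lit 17184, nat_lit 7776, R5_244, R9_358, R0_162⟩, ⟨nat_lit 3, nat_lit 12288, nat_lit 9168, nat_lit 11760, nat_lit 9312, nat_lit 9648, R5_245, R3_194, R10_201⟩]⟩]⟩]], [[⟨nat_lit 0, [⟨nat_lit 0, [⟨nat_lit 0, nat_lit 8064, nat_lit 8064, nat_lit 16464, nat_lit 432,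 nat_lit 16464, R6_343, R8_9, R6_343⟩, ⟨nat_lit 1, nat_lit 8160, nat_lit 8784, nat_lit 17136, nat_lit 4656, nat_lit 15168, R6_357, R5_97, R4_316⟩, ⟨nat_lit 2, nat_lit 8112, nat_lit 9312, nat_lit 16800, nat_lit 3792, nat_lit 15648, R6_350, R9_79, R8_326⟩]⟩, ⟨nat_lit 2, [⟨nat_lit 2, nat_lit 10224, nat_lit 11520, nat_lit 12768, nat_lit 4224, nat_lit 11808, R13_266, R9_88, R5_246⟩]⟩]⟩,
 ⟨nat_lit 1, [⟨nat_lit 0, [⟨nat_lit 0, nat_lit 8784, nat_lit 8160, nat_lit 15168, nat_lit 4656, nat_lit 17136, R4_316, R5_97, R6_357⟩, ⟨nat_lit 1, nat_lit 8880, nat_lit 8880, nat_lit 15456, nat_lit 4656, nat_lit 15456, R4_322, R11_97, R4_322⟩, ⟨nat_lit 2, nat_lit 8832, nat_lit 9360, nat_lit 15312, nat_lit 2256, nat_lit 16704, R4_319, R0_47, R8_348⟩]⟩, ⟨nat_lit 2, [⟨nat_lit 2, nat_lit 10512, nat_lit 11568, nat_lit 9504, nat_lit 2688,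 nat_lit 11904, R3_198, R0_56, R5_248⟩]⟩]⟩,
 ⟨nat_lit 2, [⟨nat_lit 2, [⟨nat_lit 2, nat_lit 10704, nat_lit 11616, nat_lit 17712, nat_lit 2880, nat_lit 11856, R3_369, R0_60, R5_247⟩]⟩]⟩,
 ⟨nat_lit 3, [⟨nat_lit 0, [⟨nat_lit 0, nat_lit 9312, nat_lit 8112, nat_lit 15648, nat_lit 3792, nat_lit 16800, R8_326, R9_79, R6_350⟩, ⟨nat_lit 1, nat_lit 9360, nat_lit 8832, nat_lit 16704, nat_lit 2256, nat_lit 15312, R8_348, R0_47, R4_319⟩]⟩, ⟨nat_lit 3, [⟨nat_lit 0, nat_lit 11520, nat_lit 10224, nat_lit 11808, nat_lit 4224, nat_lit 12768, R5_246, R9_88, R13_266⟩, ⟨nat_lit 1, nat_lit 11568, nat_lit 10512, nat_lit 11904, nat_lit 2688, nat_lit 9504, R5_248, R0_56, R3_198⟩, ⟨nat_lit 3, nat_lit 11616, nat_lit 10704, nat_lit 11856, nat_lit 2880, nat_lit 17712, R5_247, R0_60, R3_369⟩]⟩]⟩], [⟨nat_lit 0, [⟨nat_lit 0, [⟨nat_lit 0, nat_lit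 8352, nat_lit 10512, nat_lit 16560, nat_lit 576, nat_lit 3216, R6_345, R8_12, R8_67⟩, ⟨nat_lit 1, nat_lit 8448, nat_lit 11232, nat_lit 17232, nat_lit 4704, nat_lit 16896, R6_359, R5_98, R5_352⟩, ⟨nat_lit 2, nat_lit 8400, nat_lit 11760, nat_lit 16896, nat_lit 3888, nat_lit 16224, R6_352, R9_81, R9_338⟩]⟩, ⟨nat_lit 2, [⟨nat_lit 2, nat_lit 10320, nat_lit 14496, nat_lit 12816, nat_lit 4320, nat_lit 384, R13_267, R9_90, R0_8⟩]⟩]⟩,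
 ⟨nat_lit 1, [⟨nat_lit 0, [⟨nat_lit 0, nat_lit 8928, nat_lit 10608, nat_lit 15216, nat_lit 6288, nat_lit 10800, R4_317, R5_131, R8_225⟩, ⟨nat_lit 1, nat_lit 9024, nat_lit 11328, nat_lit 15504, nat_lit 5904, nat_lit 17088, R4_323, R11_123, R5_356⟩, ⟨nat_lit 2, nat_lit 8976, nat_lit 11808, nat_lit 15360, nat_lit 2352, nat_lit 16752, R4_320, R0_49, R9_349⟩]⟩, ⟨nat_lit 2, [⟨nat_lit 2, nat_lit 10560, nat_lit 14544, nat_lit 9552, nat_lit 2784, nat_lit 9984, R3_199, R0_58, R0_208⟩]⟩]⟩,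
 ⟨nat_lit 2, [⟨nat_lit 2, [⟨nat_lit 2, nat_lit 10800, nat_lit 14592, nat_lit 17808, nat_lit 3024, nat_lit 5808, R3_371, R0_63, R0_121⟩]⟩]⟩,
 ⟨nat_lit 3, [⟨nat_lit 0, [⟨nat_lit 0, nat_lit 9696, nat_lit 10560, nat_lit 16992, nat_lit 6096, nat_lit 7968, R8_354, R9_127, R8_166⟩, ⟨nat_lit 1, nat_lit 9744, nat_lit 11280, nat_lit 17520, nat_lit 3936, nat_lit 17040, R8_365, R0_82, R5_355⟩]⟩, ⟨nat_lit 3, [⟨nat_lit 0, nat_lit 11952, nat_lit 13488, nat_lit 11952, nat_lit 6768, nat_lit 7008, R5_249, R9_141, R9_146⟩, ⟨nat_lit 1, nat_lit 12000, nat_lit 13776, nat_lit 12048, nat_lit 4608, nat_lit 4848, R5_251, R0_96, R0_101⟩, ⟨nat_lit 3, nat_lit 12048, nat_lit 13968, nat_lit 12000, nat_lit 4848, nat_lit 4608, R5_250, R0_101, R0_96⟩]⟩]⟩], [⟨nat_lit 0, [⟨nat_lit 0, [⟨nat_lit 0, nat_lit 8592, nat_lit 576, nat_lit 16656, nat_lit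 528, nat_lit 2448, R6_347, R8_11, R4_51⟩, ⟨nat_lit 2, nat_lit 8640, nat_lit 960, nat_lit 16992, nat_lit 3840, nat_lit 1728, R6_354, R9_80, R5_36⟩]⟩, ⟨nat_lit 2, [⟨nat_lit 2, nat_lit 10416, nat_lit 1008, nat_lit 12864, nat_lit 4272, nat_lit 14784, R13_268, R9_89, R11_308⟩]⟩]⟩,
 ⟨nat_lit 1, [⟨nat_lit 0, [⟨nat_lit 0, nat_lit 9072, nat_lit 5856, nat_lit 15264, nat_lit 5328, nat_lit 11280, R4_318, R5_111, R4_235⟩, ⟨nat_lit 2, nat_lit 9120, nat_lit 6192, nat_lit 15408, nat_lit 2304, nat_lit 13440, R4_321, R0_48, R5_280⟩]⟩, ⟨nat_lit 2, [⟨nat_lit 2, nat_lit 10608, nat_lit 6240, nat_lit 9600, nat_lit 2736, nat_lit 14880, R3_200, R0_57, R11_310⟩]⟩]⟩,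
 ⟨nat_lit 2, [⟨nat_lit 2, [⟨nat_lit 2, nat_lit 10896, nat_lit 10320, nat_lit 17904, nat_lit 2976, nat_lit 14832, R3_373, R0_62, R11_309⟩]⟩]⟩,
 ⟨nat_lit 3, [⟨nat_lit 0, [⟨nat_lit 0, nat_lit 10032, nat_lit 8304, nat_lit 18048, nat_lit 4704, nat_lit 7776, R8_376, R9_98, R4_162⟩]⟩, ⟨nat_lit 3, [⟨nat_lit 0, nat_lit 12336, nat_lit 8352, nat_lit 12096, nat_lit 5088, nat_lit 7296, R5_252, R9_106, R3_152⟩, ⟨nat_lit 3, nat_lit 12384, nat_lit 8688, nat_lit 12144, nat_lit 3264, nat_lit 11952, R5_253, R0_68, R10_249⟩]⟩]⟩]], [[], [], [⟨nat_lit 0, [⟨nat_lit 0, [⟨nat_lit 0, nat_lit 8688, nat_lit 11616, nat_lit 16704, nat_lit 1056, nat_lit 720, R6_348, R4_22, R4_15⟩, ⟨nat_lit 2, nat_lit 8736, nat_lit 14448, nat_lit 17040, nat_lit 48, nat_lit 1632, R6_355, R5_1, R5_34⟩]⟩, ⟨nat_lit 2, [⟨nat_lit 2, nat_lit 10464, nat_lit 14592,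 nat_lit 12912, nat_lit 5088, nat_lit 13056, R13_269, R5_106, R11_272⟩]⟩]⟩,
 ⟨nat_lit 2, [⟨nat_lit 2, [⟨nat_lit 2, nat_lit 10944, nat_lit 15168, nat_lit 17952, nat_lit 22032, nat_lit 13152, R3_374, R11_459, R11_274⟩, ⟨nat_lit 6, nat_lit 10992, nat_lit 10032, nat_lit 17616, nat_lit 16128, nat_lit 8736, R3_367, R1_336, R1_182⟩]⟩, ⟨nat_lit 6, [⟨nat_lit 6, nat_lit 7872, nat_lit 10176, nat_lit 10272, nat_lit 16080, nat_lit 10080, R2_214, R1_335, R10_210⟩]⟩]⟩,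
 ⟨nat_lit 3, [⟨nat_lit 0, [⟨nat_lit 0, nat_lit 10080, nat_lit 11856, nat_lit 18096, nat_lit 4560, nat_lit 7104, R8_377, R3_95, R4_148⟩, ⟨nat_lit 2, nat_lit 10128, nat_lit 14736, nat_lit 18960, nat_lit 14736, nat_lit 10128, R8_395, R0_307, R5_211⟩]⟩, ⟨nat_lit 2, [⟨nat_lit 2, nat_lit 11280, nat_lit 15024, nat_lit 10128, nat_lit 14832, nat_lit 13104, R9_211, R0_309, R11_273⟩]⟩, ⟨nat_lit 3, [⟨nat_lit 0, nat_lit 12432, nat_lit 12000, nat_lit 12576, nat_lit 5232, nat_lit 5664, R5_262, R3_109, R3_118⟩, ⟨nat_lit 2, nat_lit 12480, nat_lit 14880, nat_lit 12624, nat_lit 14784, nat_lit 8160, R5_263, R0_308, R0_170⟩, ⟨nat_lit 3, nat_lit 12528, nat_lit 14112, nat_lit 12672, nat_lit 19824, nat_lit 10224, R5_264, R10_413, R10_213⟩]⟩]⟩]], [[⟨nat_lit 3, [⟨nat_lit 0, [⟨nat_lit 0, nat_lit 9408, nat_lit 8016, nat_lit 15600, nat_lit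 336, nat_lit 15504, R8_325, R3_7, R6_323⟩, ⟨nat_lit 1, nat_lit 9504, nat_lit 8256, nat_lit 16656, nat_lit 3072, nat_lit 14736, R8_347, R10_64, R4_307⟩, ⟨nat_lit 2, nat_lit 9456, nat_lit 8448, nat_lit 16416, nat_lit 7632, nat_lit 16320, R8_342, R0_159, R8_340⟩]⟩, ⟨nat_lit 2, [⟨nat_lit 2, nat_lit 11088, nat_lit 9936, nat_lit 10032, nat_lit 7920, nat_lit 11136, R9_209, R0_165, R5_232⟩]⟩, ⟨nat_lit 3, [⟨nat_lit 0, nat_lit 11664, nat_lit 8832, nat_lit 12192, nat_lit 3936, nat_lit 12432, R5_254, R3_82, R13_259⟩, ⟨nat_lit 1, nat_lit 11760, nat_lit 9168, nat_lit 12288, nat_lit 3696, nat_lit 9312, R5_256, R10_77, R3_194⟩, ⟨nat_lit 2, nat_lit 11712, nat_lit 9552, nat_lit 12240, nat_lit 7776, nat_lit 9648, R5_255, R0_162, R9_201⟩]⟩]⟩], [⟨nat_lit 3, [⟨nat_lit 0, [⟨nat_lit 0, nat_lit 9792, nat_lit 7248, nat_lit 16944, nat_lit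 2544, nat_lit 7920, R8_353, R3_53, R8_165⟩, ⟨nat_lit 1, nat_lit 9888, nat_lit 7488, nat_lit 17472, nat_lit 5760, nat_lit 16992, R8_364, R10_120, R5_354⟩, ⟨nat_lit 2, nat_lit 9840, nat_lit 7680, nat_lit 17376, nat_lit 9024, nat_lit 16512, R8_362, R0_188, R9_344⟩]⟩, ⟨nat_lit 2, [⟨nat_lit 2, nat_lit 11184, nat_lit 9072, nat_lit 10080, nat_lit 9168, nat_lit 7968, R9_210, R0_191, R0_166⟩]⟩, ⟨nat_lit 3, [⟨nat_lit 0, nat_lit 12096, nat_lit 8352, nat_lit 12336, nat_lit 7296, nat_lit 5424, R5_257, R3_152, R9_113⟩, ⟨nat_lit 1, nat_lit 12144, nat_lit 8688, nat_lit 12384, nat_lit 6240, nat_lit 3264, R5_258, R10_130, R0_68⟩]⟩]⟩]]], [[[⟨nat_lit 7, [⟨nat_lit 7, [⟨nat_lit 3, nat_lit 7392, nat_lit 12720, nat_lit 6912, nat_lit 14736, nat_lit 7824, R5_144, R2_307, R2_163⟩]⟩]⟩], [], [⟨nat_lit 7, [⟨nat_lit 7, [⟨nat_lit 3, nat_lit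 7488, nat_lit 16656, nat_lit 7200, nat_lit 15360, nat_lit 8352, R5_150, R2_320, R1_174⟩]⟩]⟩]], [], [[], [], [⟨nat_lit 2, [⟨nat_lit 6, [⟨nat_lit 6, nat_lit 5952, nat_lit 2976, nat_lit 7008, nat_lit 16176, nat_lit 10032, R2_146, R1_337, R10_209⟩]⟩]⟩,
 ⟨nat_lit 4, [⟨nat_lit 4, [⟨nat_lit 4, nat_lit 4752, nat_lit 384, nat_lit 10416, nat_lit 960, nat_lit 480, R6_217, R4_20, R4_10⟩, ⟨nat_lit 7, nat_lit 4800, nat_lit 432, nat_lit 10464, nat_lit 288, nat_lit 1920, R6_218, R5_6, R5_40⟩]⟩, ⟨nat_lit 7, [⟨nat_lit 7, nat_lit 6480, nat_lit 1920, nat_lit 10128, nat_lit 6480, nat_lit 12768, R8_211, R5_135, R11_266⟩]⟩]⟩,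
 ⟨nat_lit 6, [⟨nat_lit 4, [⟨nat_lit 4, nat_lit 5040, nat_lit 1152, nat_lit 9504, nat_lit 4656, nat_lit 6864, R13_198, R3_97, R4_143⟩, ⟨nat_lit 7, nat_lit 5088, nat_lit 1200, nat_lit 9552, nat_lit 14592, nat_lit 10464, R13_199, R0_304, R5_218⟩]⟩, ⟨nat_lit 6, [⟨nat_lit 4, nat_lit 5760, nat_lit 3984, nat_lit 9984, nat_lit 5328, nat_lit 5712, R3_208, R3_111, R3_119⟩, ⟨nat_lit 6, nat_lit 5808, nat_lit 4080, nat_lit 10128, nat_lit 19728, nat_lit 9984, R3_211, R10_411, R10_208⟩, ⟨nat_lit 7, nat_lit 5856, nat_lit 4032, nat_lit 10176, nat_lit 14640, nat_lit 8064, R3_212, R0_305, R0_168⟩]⟩, ⟨nat_lit 7, [⟨nat_lit 7, nat_lit 6864, nat_lit 2448, nat_lit 7392, nat_lit 14688, nat_lit 12816, R9_154, R0_306, R11_267⟩]⟩]⟩,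
 ⟨nat_lit 7, [⟨nat_lit 7, [⟨nat_lit 3, nat_lit 7536, nat_lit 2160, nat_lit 7344, nat_lit 16368, nat_lit 8784, R5_153, R1_341, R1_183⟩, ⟨nat_lit 7, nat_lit 7584, nat_lit 2112, nat_lit 7296, nat_lit 21936, nat_lit 12864, R5_152, R11_457, R11_268⟩]⟩]⟩], [], [], [], [⟨nat_lit 2, [⟨nat_lit 6, [⟨nat_lit 6, nat_lit 5904, nat_lit 1728, nat_lit 7056, nat_lit 15936, nat_lit 15312, R2_147, R1_332, R1_319⟩]⟩]⟩,
 ⟨nat_lit 4, [⟨nat_lit 4, [⟨nat_lit 4, nat_lit 4608, nat_lit 1392, nat_lit 10368, nat_lit 1536, nat_lit 672, R6_216, R4_32, R7_14⟩]⟩, ⟨nat_lit 7, [⟨nat_lit 4, nat_lit 6192, nat_lit 1488, nat_lit 9552, nat_lit 8256, nat_lit 2064, R8_199, R4_172, R2_43⟩, ⟨nat_lit 7, nat_lit 6240, nat_lit 1536, nat_lit 10080, nat_lit 6240, nat_lit 1536, R8_210, R5_130, R1_32⟩]⟩]⟩,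
 ⟨nat_lit 6, [⟨nat_lit 4, [⟨nat_lit 4, nat_lit 4992, nat_lit 1440, nat_lit 9648, nat_lit 12624, nat_lit 6672, R13_201, R3_263, R7_139⟩]⟩, ⟨nat_lit 6, [⟨nat_lit 4, nat_lit 5664, nat_lit 1776, nat_lit 9936, nat_lit 13440, nat_lit 4848, R3_207, R3_280, R2_101⟩, ⟨nat_lit 6, nat_lit 5712, nat_lit 1824, nat_lit 10080, nat_lit 19632, nat_lit 3552, R3_210, R10_409, R1_74⟩]⟩, ⟨nat_lit 7, [⟨nat_lit 4, nat_lit 6720, nat_lit 1632, nat_lit 7536, nat_lit 13008, nat_lit 9840, R9_157, R3_271, R2_205⟩, ⟨nat_lit 7, nat_lit 6768, nat_lit 1680, nat_lit 7584, nat_lit 14400, nat_lit 10656, R9_158, R0_300, R1_222⟩]⟩]⟩,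
 ⟨nat_lit 7, [⟨nat_lit 7, [⟨nat_lit 7, nat_lit 7152, nat_lit 1584, nat_lit 7680, nat_lit 21840, nat_lit 6960, R5_160, R11_455, R1_145⟩]⟩]⟩]], [[⟨nat_lit 7, [⟨nat_lit 7, [⟨nat_lit 3, nat_lit 7440, nat_lit 7728, nat_lit 6960, nat_lit 15648, nat_lit 9072, R5_145, R12_326, R2_189⟩]⟩]⟩], [], [⟨nat_lit 7, [⟨nat_lit 7, [⟨nat_lit 3, nat_lit 7632, nat_lit 864, nat_lit 7248, nat_lit 15840, nat_lit 9888, R5_151, R12_330, R1_206⟩]⟩]⟩], [⟨nat_lit 7, [⟨nat_lit 7, [⟨nat_lit 0, nat_lit 7728, nat_lit 1680, nat_lit 7008, nat_lit 5568, nat_lit 6000, R5_146, R2_116, R2_125⟩, ⟨nat_lit 1, nat_lit 7776, nat_lit 1776, nat_lit 7104, nat_lit 4272, nat_lit 4704, R5_148, R1_89, R1_98⟩, ⟨nat_lit 3, nat_lit 7824, nat_lit 1728, nat_lit 7056, nat_lit 15936, nat_lit 7824, R5_147, R12_332, R12_163⟩]⟩]⟩]], [[], [], [], [], [⟨nat_lit 4, [⟨nat_lit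 4, [⟨nat_lit 1, nat_lit 4368, nat_lit 5808, nat_lit 10176, nat_lit 14928, nat_lit 5664, R6_212, R4_311, R4_118⟩, ⟨nat_lit 5, nat_lit 4416, nat_lit 12384, nat_lit 10512, nat_lit 17280, nat_lit 5520, R6_219, R7_360, R7_115⟩]⟩, ⟨nat_lit 5, [⟨nat_lit 1, nat_lit 5136, nat_lit 6432, nat_lit 11232, nat_lit 14976, nat_lit 864, R4_234, R4_312, R3_18⟩, ⟨nat_lit 5, nat_lit 5184, nat_lit 12912, nat_lit 11376, nat_lit 17376, nat_lit 3984, R4_237, R7_362, R2_83⟩]⟩, ⟨nat_lit 7, [⟨nat_lit 5, nat_lit 6000, nat_lit 12576, nat_lit 10656, nat_lit 17328, nat_lit 7680, R8_222, R7_361, R2_160⟩]⟩]⟩,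
 ⟨nat_lit 7, [⟨nat_lit 7, [⟨nat_lit 5, nat_lit 6912, nat_lit 12720, nat_lit 7392, nat_lit 14736, nat_lit 7824, R5_154, R2_307, R2_163⟩]⟩]⟩], [], [], [⟨nat_lit 4, [⟨nat_lit 4, [⟨nat_lit 1, nat_lit 4656, nat_lit 8784, nat_lit 10224, nat_lit 15168, nat_lit 8160, R6_213, R4_316, R5_170⟩]⟩, ⟨nat_lit 5, [⟨nat_lit 1, nat_lit 5328, nat_lit 9072, nat_lit 11280, nat_lit 15264, nat_lit 5856, R4_235, R4_318, R0_122⟩]⟩, ⟨nat_lit 7, [⟨nat_lit 1, nat_lit 6288, nat_lit 8928, nat_lit 10800, nat_lit 15216, nat_lit 8400, R8_225, R4_317, R11_175⟩, ⟨nat_lit 5, nat_lit 6336, nat_lit 16320, nat_lit 10704, nat_lit 17760, nat_lit 8208, R8_223, R7_370, R1_171⟩]⟩]⟩,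
 ⟨nat_lit 7, [⟨nat_lit 7, [⟨nat_lit 5, nat_lit 7200, nat_lit 16656, nat_lit 7488, nat_lit 15360, nat_lit 8352, R5_156, R2_320, R1_174⟩]⟩]⟩]], [], [[], [], [], [], [⟨nat_lit 4, [⟨nat_lit 4, [⟨nat_lit 5, nat_lit 4464, nat_lit 1248, nat_lit 10560, nat_lit 960, nat_lit 5760, R6_220, R14_20, R7_120⟩]⟩, ⟨nat_lit 5, [⟨nat_lit 5, nat_lit 5232, nat_lit 6432, nat_lit 11424, nat_lit 1872, nat_lit 4176, R4_238, R14_39, R2_87⟩]⟩, ⟨nat_lit 7, [⟨nat_lit 5, nat_lit 6048, nat_lit 7680, nat_lit 11856, nat_lit 1488, nat_lit 8832, R8_247, R14_31, R2_184⟩]⟩]⟩,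
 ⟨nat_lit 6, [⟨nat_lit 4, [⟨nat_lit 5, nat_lit 4848, nat_lit 1344, nat_lit 9600, nat_lit 480, nat_lit 5856, R13_200, R12_10, R7_122⟩]⟩, ⟨nat_lit 5, [⟨nat_lit 5, nat_lit 5424, nat_lit 6528, nat_lit 7536, nat_lit 2592, nat_lit 4272, R3_157, R12_54, R2_89⟩]⟩, ⟨nat_lit 7, [⟨nat_lit 5, nat_lit 6576, nat_lit 7824, nat_lit 7440, nat_lit 1632, nat_lit 9264, R9_155, R12_34, R2_193⟩]⟩]⟩,
 ⟨nat_lit 7, [⟨nat_lit 7, [⟨nat_lit 5, nat_lit 6960, nat_lit 7728, nat_lit 7440, nat_lit 15648, nat_lit 9072, R5_155, R12_326, R2_189⟩]⟩]⟩], [], [⟨nat_lit 4, [⟨nat_lit 4, [⟨nat_lit 4, nat_lit 4512, nat_lit 1296, nat_lit 10320, nat_lit 1632, nat_lit 1104, R6_215, R7_34, R7_23⟩, ⟨nat_lit 5, nat_lit 4560, nat_lit 1344, nat_lit 10608, nat_lit 1008, nat_lit 15840, R6_221, R14_21, R14_330⟩]⟩, ⟨nat_lit 5, [⟨nat_lit 5, nat_lit 5280, nat_lit 1488,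 nat_lit 11472, nat_lit 1920, nat_lit 12912, R4_239, R14_40, R12_269⟩]⟩, ⟨nat_lit 7, [⟨nat_lit 4, nat_lit 6096, nat_lit 1584, nat_lit 11232, nat_lit 8256, nat_lit 288, R8_234, R7_172, R2_6⟩, ⟨nat_lit 5, nat_lit 6144, nat_lit 1632, nat_lit 11952, nat_lit 1584, nat_lit 7008, R8_249, R14_33, R12_146⟩]⟩]⟩,
 ⟨nat_lit 6, [⟨nat_lit 4, [⟨nat_lit 4, nat_lit 4896, nat_lit 1392, nat_lit 9696, nat_lit 192, nat_lit 7104, R13_202, R2_4, R7_148⟩, ⟨nat_lit 5, nat_lit 4944, nat_lit 1440, nat_lit 9744, nat_lit 528, nat_lit 16368, R13_203, R12_11, R14_341⟩]⟩, ⟨nat_lit 5, [⟨nat_lit 5, nat_lit 5472, nat_lit 1536, nat_lit 7584, nat_lit 2640, nat_lit 13440, R3_158, R12_55, R12_280⟩]⟩, ⟨nat_lit 6, [⟨nat_lit 4, nat_lit 5520, nat_lit 1920, nat_lit 9888, nat_lit 5904, nat_lit 5328, R3_206, R2_123, R2_111⟩, ⟨nat_lit 5, nat_lit 5616, nat_lit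 1968, nat_lit 10224, nat_lit 672, nat_lit 13536, R3_213, R12_14, R12_282⟩, ⟨nat_lit 6, nat_lit 5568, nat_lit 2016, nat_lit 10032, nat_lit 4608, nat_lit 4032, R3_209, R1_96, R1_84⟩]⟩, ⟨nat_lit 7, [⟨nat_lit 4, nat_lit 6624, nat_lit 1824, nat_lit 7632, nat_lit 7200, nat_lit 7296, R9_159, R2_150, R2_152⟩, ⟨nat_lit 5, nat_lit 6672, nat_lit 1872, nat_lit 7680, nat_lit 1728, nat_lit 8592, R9_160, R12_36, R12_179⟩]⟩]⟩,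
 ⟨nat_lit 7, [⟨nat_lit 7, [⟨nat_lit 4, nat_lit 7008, nat_lit 1680, nat_lit 7728, nat_lit 5568, nat_lit 6000, R5_161, R2_116, R2_125⟩, ⟨nat_lit 5, nat_lit 7056, nat_lit 1728, nat_lit 7824, nat_lit 15936, nat_lit 7824, R5_163, R12_332, R12_163⟩, ⟨nat_lit 7, nat_lit 7104, nat_lit 1776, nat_lit 7776, nat_lit 4272, nat_lit 4704, R5_162, R1_89, R1_98⟩]⟩]⟩], [⟨nat_lit 4, [⟨nat_lit 7, [⟨nat_lit 5, nat_lit 6384, nat_lit 816, nat_lit 11904, nat_lit 1536, nat_lit 9648, R8_248, R14_32, R1_201⟩]⟩]⟩,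
 ⟨nat_lit 6, [⟨nat_lit 7, [⟨nat_lit 5, nat_lit 6816, nat_lit 912, nat_lit 7488, nat_lit 1680, nat_lit 10080, R9_156, R12_35, R1_210⟩]⟩]⟩,
 ⟨nat_lit 7, [⟨nat_lit 7, [⟨nat_lit 5, nat_lit 7248, nat_lit 864, nat_lit 7632, nat_lit 15840, nat_lit 9888, R5_159, R12_330, R1_206⟩]⟩]⟩]], [[], [], [], [⟨nat_lit 4, [⟨nat_lit 7, [⟨nat_lit 1, nat_lit 6528, nat_lit 1008, nat_lit 10944, nat_lit 17136, nat_lit 6384, R8_228, R5_357, R1_133⟩]⟩]⟩,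
 ⟨nat_lit 7, [⟨nat_lit 7, [⟨nat_lit 1, nat_lit 7680, nat_lit 1584, nat_lit 7152, nat_lit 5856, nat_lit 6960, R5_149, R11_122, R1_145⟩]⟩]⟩], [], [], [], [⟨nat_lit 4, [⟨nat_lit 4, [⟨nat_lit 1, nat_lit 4704, nat_lit 1968, nat_lit 10272, nat_lit 16896, nat_lit 8448, R6_214, R5_352, R5_176⟩]⟩, ⟨nat_lit 5, [⟨nat_lit 1, nat_lit 5376, nat_lit 2016, nat_lit 11328, nat_lit 17616, nat_lit 5904, R4_236, R5_367, R0_123⟩]⟩, ⟨nat_lit 7, [⟨nat_lit 1, nat_lit 6432, nat_lit 2064, nat_lit 10896, nat_lit 17232, nat_lit 8448, R8_227, R5_359, R11_176⟩]⟩]⟩,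
 ⟨nat_lit 7, [⟨nat_lit 7, [⟨nat_lit 1, nat_lit 7296, nat_lit 2112, nat_lit 7584, nat_lit 6096, nat_lit 8496, R5_158, R11_127, R11_177⟩, ⟨nat_lit 5, nat_lit 7344, nat_lit 2160, nat_lit 7536, nat_lit 16368, nat_lit 8784, R5_157, R1_341, R1_183⟩]⟩]⟩]]], [[], [], [], [[⟨nat_lit 3, [⟨nat_lit 0, [⟨nat_lit 0, nat_lit 13104, nat_lit 11472, nat_lit 14208, nat_lit 192, nat_lit 13392, R4_296, R3_4, R6_279⟩, ⟨nat_lit 1, nat_lit 13200, nat_lit 15264, nat_lit 14592, nat_lit 3024, nat_lit 13248, R4_304, R10_63, R4_276⟩, ⟨nat_lit 2, nat_lit 13152, nat_lit 16464, nat_lit 14496, nat_lit 5664, nat_lit 14304, R4_302, R0_118, R8_298⟩]⟩, ⟨nat_lit 2, [⟨nat_lit 2, nat_lit 13488, nat_lit 17760, nat_lit 17664, nat_lit 5760, nat_lit 10752, R5_368, R0_120, R5_224⟩]⟩]⟩,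
 ⟨nat_lit 7, [⟨nat_lit 0, [⟨nat_lit 0, nat_lit 12816, nat_lit 11136, nat_lit 15888, nat_lit 3168, nat_lit 13056, R7_331, R2_66, R6_272⟩, ⟨nat_lit 1, nat_lit 12864, nat_lit 15168, nat_lit 16560, nat_lit 2640, nat_lit 13152, R7_345, R1_55, R4_274⟩]⟩, ⟨nat_lit 3, [⟨nat_lit 0, nat_lit 13824, nat_lit 12048, nat_lit 11136, nat_lit 3600, nat_lit 11952, R14_232, R2_75, R13_249⟩, ⟨nat_lit 1, nat_lit 13872, nat_lit 15504, nat_lit 11232, nat_lit 3072, nat_lit 9168, R14_234, R1_64, R3_191⟩, ⟨nat_lit 3, nat_lit 13920, nat_lit 14736, nat_lit 11184, nat_lit 15600, nat_lit 14640, R14_233, R12_325, R3_305⟩]⟩]⟩], [⟨nat_lit 3, [⟨nat_lit 0, [⟨nat_lit 0, nat_lit 13248, nat_lit 8832, nat_lit 14688, nat_lit 2400, nat_lit 7680, R4_306, R3_50, R8_160⟩, ⟨nat_lit 1, nat_lit 13344, nat_lit 9264, nat_lit 14880, nat_lit 5712, nat_lit 16224,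 R4_310, R10_119, R5_338⟩, ⟨nat_lit 2, nat_lit 13296, nat_lit 9504, nat_lit 14832, nat_lit 6960, nat_lit 15456, R4_309, R0_145, R9_322⟩]⟩, ⟨nat_lit 2, [⟨nat_lit 2, nat_lit 13536, nat_lit 11856, nat_lit 17712, nat_lit 7056, nat_lit 7584, R5_369, R0_147, R0_158⟩]⟩]⟩,
 ⟨nat_lit 7, [⟨nat_lit 0, [⟨nat_lit 0, nat_lit 12960, nat_lit 8880, nat_lit 16944, nat_lit 6384, nat_lit 14544, R7_353, R2_133, R8_303⟩, ⟨nat_lit 1, nat_lit 13008, nat_lit 9312, nat_lit 17184, nat_lit 5088, nat_lit 16272, R7_358, R1_106, R5_339⟩]⟩, ⟨nat_lit 3, [⟨nat_lit 0, nat_lit 14016, nat_lit 10464, nat_lit 11280, nat_lit 6576, nat_lit 5808, R14_235, R2_137, R9_121⟩, ⟨nat_lit 1, nat_lit 14064, nat_lit 10848, nat_lit 11376, nat_lit 5280, nat_lit 3648, R14_237, R1_110, R0_76⟩, ⟨nat_lit 3, nat_lit 14112, nat_lit 11088, nat_lit 11328, nat_lit 16032,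 nat_lit 13488, R14_236, R12_334, R0_281⟩]⟩]⟩], [⟨nat_lit 3, [⟨nat_lit 0, [⟨nat_lit 0, nat_lit 13392, nat_lit 2208, nat_lit 15072, nat_lit 912, nat_lit 6480, R4_314, R3_19, R4_135⟩, ⟨nat_lit 2, nat_lit 13440, nat_lit 2304, nat_lit 15408, nat_lit 6192, nat_lit 9120, R4_321, R0_129, R5_190⟩]⟩, ⟨nat_lit 2, [⟨nat_lit 2, nat_lit 13584, nat_lit 3984, nat_lit 17760, nat_lit 6288, nat_lit 14016, R5_370, R0_131, R11_292⟩]⟩]⟩,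
 ⟨nat_lit 7, [⟨nat_lit 0, [⟨nat_lit 0, nat_lit 13056, nat_lit 12192, nat_lit 17520, nat_lit 4032, nat_lit 12960, R7_365, R2_84, R4_270⟩]⟩, ⟨nat_lit 3, [⟨nat_lit 0, nat_lit 14160, nat_lit 12768, nat_lit 11424, nat_lit 4464, nat_lit 6672, R14_238, R2_93, R3_139⟩, ⟨nat_lit 3, nat_lit 14208, nat_lit 12912, nat_lit 11472, nat_lit 15792, nat_lit 11232, R14_239, R12_329, R10_234⟩]⟩]⟩]], [], [], [], [[⟨nat_lit 4, [⟨nat_lit 3, [⟨nat_lit 1, nat_lit 13632, nat_lit 8880, nat_lit 12576, nat_lit 14928, nat_lit 7920, R7_262, R5_311, R3_165⟩]⟩]⟩,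
 ⟨nat_lit 7, [⟨nat_lit 0, [⟨nat_lit 1, nat_lit 12768, nat_lit 7728, nat_lit 16608, nat_lit 5616, nat_lit 12624, R7_346, R11_117, R4_263⟩]⟩, ⟨nat_lit 3, [⟨nat_lit 1, nat_lit 13776, nat_lit 8928, nat_lit 10992, nat_lit 5664, nat_lit 7968, R14_229, R11_118, R3_166⟩]⟩]⟩], [⟨nat_lit 4, [⟨nat_lit 3, [⟨nat_lit 1, nat_lit 13680, nat_lit 9696, nat_lit 12672, nat_lit 15216, nat_lit 5952, R7_264, R5_317, R0_124⟩]⟩]⟩,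
 ⟨nat_lit 7, [⟨nat_lit 0, [⟨nat_lit 1, nat_lit 12912, nat_lit 8256, nat_lit 17232, nat_lit 5952, nat_lit 16416, R7_359, R11_124, R5_342⟩]⟩, ⟨nat_lit 3, [⟨nat_lit 1, nat_lit 13968, nat_lit 9744, nat_lit 11040, nat_lit 6000, nat_lit 6048, R14_230, R11_125, R0_126⟩]⟩]⟩], [], [⟨nat_lit 4, [⟨nat_lit 3, [⟨nat_lit 1, nat_lit 13728, nat_lit 1056, nat_lit 12624, nat_lit 15120, nat_lit 7440, R7_263, R5_315, R10_155⟩]⟩, ⟨nat_lit 7, [⟨nat_lit 1, nat_lit 12720, nat_lit 1152, nat_lit 11760, nat_lit 16032, nat_lit 6336, R4_245, R5_334, R1_132⟩]⟩]⟩,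
 ⟨nat_lit 7, [⟨nat_lit 3, [⟨nat_lit 1, nat_lit 14256, nat_lit 1104, nat_lit 11088, nat_lit 5760, nat_lit 7824, R14_231, R11_120, R10_163⟩]⟩]⟩]]], [[], [], [], [], [[], [⟨nat_lit 4, [⟨nat_lit 1, [⟨nat_lit 1, nat_lit 14496, nat_lit 48, nat_lit 10800, nat_lit 4368, nat_lit 7632, R6_225, R4_91, R11_159⟩]⟩]⟩,
 ⟨nat_lit 5, [⟨nat_lit 0, [⟨nat_lit 1, nat_lit 14304, nat_lit 4704, nat_lit 15744, nat_lit 17376, nat_lit 1296, R6_328, R3_362, R5_27⟩]⟩, ⟨nat_lit 1, [⟨nat_lit 1, nat_lit 14688, nat_lit 5280, nat_lit 13824, nat_lit 17472, nat_lit 8112, R13_288, R3_364, R11_169⟩]⟩]⟩], [], [], [], [⟨nat_lit 4, [⟨nat_lit 1, [⟨nat_lit 1, nat_lit 14400, nat_lit 144, nat_lit 10848, nat_lit 4224, nat_lit 6096, R6_226, R4_88, R1_127⟩]⟩]⟩,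
 ⟨nat_lit 5, [⟨nat_lit 1, [⟨nat_lit 1, nat_lit 14544, nat_lit 5088, nat_lit 13872, nat_lit 10608, nat_lit 6192, R13_289, R3_221, R1_129⟩]⟩]⟩]], [[], [⟨nat_lit 5, [⟨nat_lit 0, [⟨nat_lit 1, nat_lit 14352, nat_lit 432, nat_lit 15792, nat_lit 2448, nat_lit 1440, R6_329, R10_51, R5_30⟩]⟩, ⟨nat_lit 1, [⟨nat_lit 1, nat_lit 14736, nat_lit 4032, nat_lit 13920, nat_lit 2496, nat_lit 9840, R13_290, R10_52, R11_205⟩]⟩]⟩], [], [], [], [⟨nat_lit 5, [⟨nat_lit 1, [⟨nat_lit 1, nat_lit 14592, nat_lit 3504, nat_lit 13968, nat_lit 2256, nat_lit 6672, R13_291, R10_47, R1_139⟩]⟩]⟩]], [], [[], [], [], [], [], [⟨nat_lit 4, [⟨nat_lit 1, [⟨nat_lit 1, nat_lit 14448, nat_lit 1536, nat_lit 10896, nat_lit 336, nat_lit 6288, R6_227, R5_7, R1_131⟩]⟩]⟩]]], [[], [[], [⟨nat_lit 1, [⟨nat_lit 0, [⟨nat_lit 0, nat_lit 16320, nat_lit 8208, nat_lit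 17088, nat_lit 6336, nat_lit 10704, R7_356, R5_132, R8_223⟩, ⟨nat_lit 1, nat_lit 16416, nat_lit 8256, nat_lit 17232, nat_lit 5952, nat_lit 12912, R7_359, R11_124, R5_269⟩, ⟨nat_lit 2, nat_lit 16368, nat_lit 8304, nat_lit 17136, nat_lit 12288, nat_lit 11136, R7_357, R0_256, R9_232⟩]⟩, ⟨nat_lit 1, [⟨nat_lit 0, nat_lit 16656, nat_lit 8352, nat_lit 15360, nat_lit 7200, nat_lit 7488, R2_320, R5_150, R5_156⟩, ⟨nat_lit 1, nat_lit 16752, nat_lit 8400, nat_lit 15504, nat_lit 6816, nat_lit 7104, R2_323, R11_142, R11_148⟩, ⟨nat_lit 2, nat_lit 16704, nat_lit 8448, nat_lit 15408, nat_lit 12672, nat_lit 9648, R2_321, R0_264, R0_201⟩]⟩, ⟨nat_lit 2, [⟨nat_lit 2, nat_lit 16800, nat_lit 8496, nat_lit 15696, nat_lit 12576, nat_lit 9840, R2_327, R0_262, R0_205⟩]⟩]⟩]], [], [], [], [[], [⟨nat_lit 1, [⟨nat_lit 0, [⟨nat_lit 1, nat_lit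 16272, nat_lit 14688, nat_lit 17184, nat_lit 5088, nat_lit 13008, R7_358, R1_106, R5_271⟩]⟩, ⟨nat_lit 1, [⟨nat_lit 1, nat_lit 16608, nat_lit 15168, nat_lit 15456, nat_lit 5136, nat_lit 9168, R2_322, R1_107, R11_191⟩]⟩]⟩,
 ⟨nat_lit 5, [⟨nat_lit 0, [⟨nat_lit 1, nat_lit 16224, nat_lit 2928, nat_lit 14880, nat_lit 8544, nat_lit 13344, R4_310, R10_178, R5_278⟩]⟩, ⟨nat_lit 1, [⟨nat_lit 1, nat_lit 16512, nat_lit 3600, nat_lit 10512, nat_lit 8592, nat_lit 9936, R3_219, R10_179, R11_207⟩]⟩]⟩], [], [], [], [⟨nat_lit 1, [⟨nat_lit 1, [⟨nat_lit 1, nat_lit 16560, nat_lit 13536, nat_lit 15312, nat_lit 5184, nat_lit 6624, R2_319, R1_108, R1_138⟩]⟩]⟩,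
 ⟨nat_lit 5, [⟨nat_lit 1, [⟨nat_lit 1, nat_lit 16464, nat_lit 2976, nat_lit 10560, nat_lit 8400, nat_lit 6768, R3_220, R10_175, R1_141⟩]⟩]⟩]]], [[], [], [], [], [[], [], [], [], [⟨nat_lit 4, [⟨nat_lit 5, [⟨nat_lit 1, nat_lit 14784, nat_lit 5952, nat_lit 12480, nat_lit 11808, nat_lit 1440, R7_260, R4_246, R3_30⟩, ⟨nat_lit 5, nat_lit 14832, nat_lit 13872, nat_lit 12384, nat_lit 12864, nat_lit 12480, R7_258, R7_268, R2_260⟩]⟩]⟩,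
 ⟨nat_lit 5, [⟨nat_lit 5, [⟨nat_lit 1, nat_lit 15264, nat_lit 6048, nat_lit 11088, nat_lit 3408, nat_lit 1536, R2_231, R3_71, R3_32⟩, ⟨nat_lit 5, nat_lit 15312, nat_lit 14016, nat_lit 10992, nat_lit 11568, nat_lit 12528, R2_229, R2_241, R2_261⟩]⟩]⟩], [⟨nat_lit 4, [⟨nat_lit 1, [⟨nat_lit 1, nat_lit 15984, nat_lit 17520, nat_lit 11712, nat_lit 12000, nat_lit 6144, R4_244, R4_250, R1_128⟩]⟩, ⟨nat_lit 5, [⟨nat_lit 1, nat_lit 14976, nat_lit 17472, nat_lit 12528, nat_lit 11952, nat_lit 15696, R7_261, R4_249, R10_327⟩, ⟨nat_lit 5, nat_lit 15024, nat_lit 17616, nat_lit 12432, nat_lit 13056, nat_lit 13824, R7_259, R7_272, R1_288⟩]⟩]⟩,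
 ⟨nat_lit 5, [⟨nat_lit 1, [⟨nat_lit 1, nat_lit 16080, nat_lit 17856, nat_lit 17184, nat_lit 10800, nat_lit 6240, R3_358, R3_225, R1_130⟩]⟩, ⟨nat_lit 5, [⟨nat_lit 1, nat_lit 15456, nat_lit 17808, nat_lit 11136, nat_lit 10896, nat_lit 15888, R2_232, R3_227, R10_331⟩, ⟨nat_lit 5, nat_lit 15504, nat_lit 18048, nat_lit 11040, nat_lit 11712, nat_lit 13872, R2_230, R2_244, R1_289⟩]⟩]⟩]], [[], [], [], [], [], [⟨nat_lit 5, [⟨nat_lit 1, [⟨nat_lit 1, nat_lit 16128, nat_lit 14976, nat_lit 17232, nat_lit 12960, nat_lit 6720, R3_359, R10_270, R1_140⟩]⟩, ⟨nat_lit 5, [⟨nat_lit 1, nat_lit 15552, nat_lit 14928, nat_lit 11232, nat_lit 12912, nat_lit 18096, R2_234, R10_269, R10_377⟩, ⟨nat_lit 5, nat_lit 15600, nat_lit 15168, nat_lit 11184, nat_lit 12144, nat_lit 15072, R2_233, R1_253, R1_314⟩]⟩]⟩]], [[], [], [], [], [⟨nat_lit 4,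 [⟨nat_lit 5, [⟨nat_lit 5, nat_lit 14880, nat_lit 13152, nat_lit 12720, nat_lit 3648, nat_lit 12864, R7_265, R14_76, R2_268⟩]⟩]⟩,
 ⟨nat_lit 5, [⟨nat_lit 5, [⟨nat_lit 5, nat_lit 15360, nat_lit 13296, nat_lit 11424, nat_lit 2016, nat_lit 13104, R2_238, R12_42, R2_273⟩]⟩]⟩,
 ⟨nat_lit 6, [⟨nat_lit 5, [⟨nat_lit 5, nat_lit 15840, nat_lit 13440, nat_lit 10368, nat_lit 2208, nat_lit 12960, R2_216, R12_46, R2_270⟩]⟩]⟩], [⟨nat_lit 4, [⟨nat_lit 5, [⟨nat_lit 5, nat_lit 15072, nat_lit 14016, nat_lit 12768, nat_lit 3744, nat_lit 14208, R7_266, R14_78, R1_296⟩]⟩]⟩,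
 ⟨nat_lit 5, [⟨nat_lit 5, [⟨nat_lit 5, nat_lit 15648, nat_lit 14160, nat_lit 11472, nat_lit 2112, nat_lit 14448, R2_239, R12_44, R1_301⟩]⟩]⟩,
 ⟨nat_lit 6, [⟨nat_lit 5, [⟨nat_lit 5, nat_lit 15888, nat_lit 14592, nat_lit 10416, nat_lit 2304, nat_lit 14304, R2_217, R12_48, R1_298⟩]⟩]⟩], [⟨nat_lit 4, [⟨nat_lit 5, [⟨nat_lit 5, nat_lit 15168, nat_lit 14496, nat_lit 12816, nat_lit 3696, nat_lit 12384, R7_267, R14_77, R12_258⟩]⟩]⟩,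
 ⟨nat_lit 5, [⟨nat_lit 5, [⟨nat_lit 5, nat_lit 15744, nat_lit 14640, nat_lit 11520, nat_lit 2064, nat_lit 12624, R2_240, R12_43, R12_263⟩]⟩]⟩,
 ⟨nat_lit 6, [⟨nat_lit 5, [⟨nat_lit 5, nat_lit 15936, nat_lit 14784, nat_lit 10464, nat_lit 2256, nat_lit 12528, R2_218, R12_47, R12_261⟩]⟩]⟩]], [[], [], [], [], [⟨nat_lit 4, [⟨nat_lit 5, [⟨nat_lit 1, nat_lit 14928, nat_lit 8880, nat_lit 12576, nat_lit 13632, nat_lit 7920, R7_262, R5_284, R3_165⟩]⟩]⟩], [⟨nat_lit 4, [⟨nat_lit 1, [⟨nat_lit 1, nat_lit 16032, nat_lit 1152, nat_lit 11760, nat_lit 12720, nat_lit 6336, R4_245, R5_265, R1_132⟩]⟩, ⟨nat_lit 5, [⟨nat_lit 1, nat_lit 15120, nat_lit 1056, nat_lit 12624, nat_lit 13728, nat_lit 16560, R7_263, R5_286, R10_345⟩]⟩]⟩], [], [⟨nat_lit 4, [⟨nat_lit 5, [⟨nat_lit 1, nat_lit 15216, nat_lit 9696, nat_lit 12672, nat_lit 13680, nat_lit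 5952, R7_264, R5_285, R0_124⟩]⟩]⟩]]], [[], [], [], [], [[], [⟨nat_lit 4, [⟨nat_lit 0, [⟨nat_lit 1, nat_lit 16848, nat_lit 1968, nat_lit 9888, nat_lit 10560, nat_lit 8304, R6_206, R4_220, R5_173⟩]⟩, ⟨nat_lit 1, [⟨nat_lit 1, nat_lit 17184, nat_lit 2064, nat_lit 10848, nat_lit 10656, nat_lit 7680, R8_226, R4_222, R11_160⟩]⟩, ⟨nat_lit 3, [⟨nat_lit 1, nat_lit 17568, nat_lit 2016, nat_lit 10944, nat_lit 10608, nat_lit 5616, R4_228, R4_221, R0_117⟩]⟩]⟩,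
 ⟨nat_lit 5, [⟨nat_lit 0, [⟨nat_lit 1, nat_lit 16944, nat_lit 10656, nat_lit 17424, nat_lit 17664, nat_lit 9648, R8_363, R3_368, R5_201⟩]⟩, ⟨nat_lit 1, [⟨nat_lit 1, nat_lit 17328, nat_lit 10848, nat_lit 11520, nat_lit 17856, nat_lit 8160, R9_240, R3_372, R11_170⟩]⟩, ⟨nat_lit 3, [⟨nat_lit 1, nat_lit 17664, nat_lit 10752, nat_lit 13488, nat_lit 17760, nat_lit 5760, R5_281, R3_370, R0_120⟩]⟩]⟩]], [[], [⟨nat_lit 5, [⟨nat_lit 0, [⟨nat_lit 1, nat_lit 16992, nat_lit 7488, nat_lit 17472, nat_lit 11808, nat_lit 9888, R8_364, R10_246, R5_206⟩]⟩, ⟨nat_lit 1, [⟨nat_lit 1, nat_lit 17376, nat_lit 7536, nat_lit 11568, nat_lit 11904, nat_lit 9888, R9_241, R10_248, R11_206⟩]⟩, ⟨nat_lit 3, [⟨nat_lit 1, nat_lit 17712, nat_lit 7584, nat_lit 13536, nat_lit 11856, nat_lit 7056, R5_282, R10_247, R0_147⟩]⟩]⟩]], [], [[], [⟨nat_lit 4,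 [⟨nat_lit 0, [⟨nat_lit 1, nat_lit 16896, nat_lit 11232, nat_lit 10272, nat_lit 4704, nat_lit 8448, R6_214, R5_98, R5_176⟩]⟩, ⟨nat_lit 1, [⟨nat_lit 1, nat_lit 17232, nat_lit 11376, nat_lit 10896, nat_lit 6432, nat_lit 8448, R8_227, R5_134, R11_176⟩]⟩, ⟨nat_lit 3, [⟨nat_lit 1, nat_lit 17616, nat_lit 11520, nat_lit 11328, nat_lit 5376, nat_lit 5904, R4_236, R5_112, R0_123⟩]⟩]⟩,
 ⟨nat_lit 5, [⟨nat_lit 0, [⟨nat_lit 1, nat_lit 17040, nat_lit 11280, nat_lit 17520, nat_lit 3936, nat_lit 9744, R8_365, R0_82, R5_203⟩]⟩, ⟨nat_lit 1, [⟨nat_lit 1, nat_lit 17424, nat_lit 11424, nat_lit 11616, nat_lit 4032, nat_lit 8832, R9_242, R0_84, R11_184⟩]⟩, ⟨nat_lit 3, [⟨nat_lit 1, nat_lit 17760, nat_lit 11568, nat_lit 13584, nat_lit 3984, nat_lit 6288, R5_283, R0_83, R0_131⟩]⟩]⟩,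
 ⟨nat_lit 7, [⟨nat_lit 0, [⟨nat_lit 1, nat_lit 17088, nat_lit 11328, nat_lit 15504, nat_lit 5904, nat_lit 9024, R4_323, R11_123, R5_188⟩]⟩, ⟨nat_lit 1, [⟨nat_lit 1, nat_lit 17520, nat_lit 11472, nat_lit 17520, nat_lit 6048, nat_lit 8592, R5_365, R11_126, R11_179⟩]⟩]⟩], [], [], [], [⟨nat_lit 4, [⟨nat_lit 1, [⟨nat_lit 1, nat_lit 17136, nat_lit 1008, nat_lit 10944, nat_lit 6528, nat_lit 6384, R8_228, R5_136, R1_133⟩]⟩]⟩,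
 ⟨nat_lit 7, [⟨nat_lit 1, [⟨nat_lit 1, nat_lit 17472, nat_lit 6432, nat_lit 17472, nat_lit 6144, nat_lit 6432, R5_364, R11_128, R1_134⟩]⟩]⟩]]]]
noncomputable def N2033 : T3 (List N0) := [[[[⟨nat_lit 0, [⟨nat_lit 2, [⟨nat_lit 6, nat_lit 11568, nat_lit 2400, nat_lit 9024, nat_lit 240, nat_lit 4320, R6_188, R7_5, R14_90⟩]⟩]⟩,
 ⟨nat_lit 2, [⟨nat_lit 2, [⟨nat_lit 4, nat_lit 13584, nat_lit 9936, nat_lit 9648, nat_lit 1296, nat_lit 1680, R4_201, R7_27, R7_35⟩, ⟨nat_lit 6, nat_lit 13872, nat_lit 10128, nat_lit 9696, nat_lit 18528, nat_lit 4368, R4_202, R14_386, R14_91⟩]⟩, ⟨nat_lit 6, [⟨nat_lit 4, nat_lit 12336, nat_lit 11040, nat_lit 10608, nat_lit 768, nat_lit 1584, R7_221, R7_16, R4_33⟩]⟩]⟩,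
 ⟨nat_lit 3, [⟨nat_lit 0, [⟨nat_lit 2, nat_lit 16032, nat_lit 4752, nat_lit 4464, nat_lit 1008, nat_lit 12144, R6_93, R5_21, R4_253⟩]⟩, ⟨nat_lit 3, [⟨nat_lit 2, nat_lit 17376, nat_lit 5904, nat_lit 4704, nat_lit 1296, nat_lit 14304, R4_98, R5_27, R5_298⟩]⟩]⟩], [⟨nat_lit 0, [⟨nat_lit 2, [⟨nat_lit 6, nat_lit 11616, nat_lit 2304, nat_lit 9072, nat_lit 480, nat_lit 2688, R6_189, R7_10, R12_56⟩]⟩]⟩,
 ⟨nat_lit 2, [⟨nat_lit 2, [⟨nat_lit 6, nat_lit 13920, nat_lit 11184, nat_lit 9744, nat_lit 19440, nat_lit 2736, R4_203, R14_405, R12_57⟩]⟩]⟩,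
 ⟨nat_lit 3, [⟨nat_lit 0, [⟨nat_lit 2, nat_lit 16080, nat_lit 5088, nat_lit 5616, nat_lit 3360, nat_lit 8544, R6_117, R5_70, R3_178⟩]⟩]⟩], [⟨nat_lit 0, [⟨nat_lit 2, [⟨nat_lit 6, nat_lit 11664, nat_lit 3840, nat_lit 9120, nat_lit 336, nat_lit 6864, R6_190, R7_7, R12_143⟩]⟩]⟩,
 ⟨nat_lit 2, [⟨nat_lit 2, [⟨nat_lit 4, nat_lit 13632, nat_lit 11184, nat_lit 9792, nat_lit 7296, nat_lit 240, R4_204, R7_152, R2_5⟩, ⟨nat_lit 6, nat_lit 13968, nat_lit 11808, nat_lit 9840, nat_lit 19008, nat_lit 6912, R4_205, R14_396, R12_144⟩]⟩, ⟨nat_lit 6, [⟨nat_lit 4, nat_lit 12384, nat_lit 11136, nat_lit 10656, nat_lit 6768, nat_lit 12384, R7_222, R7_141, R3_258⟩]⟩]⟩]], [], [[], [], [⟨nat_lit 2, [⟨nat_lit 2, [⟨nat_lit 4, nat_lit 13680, nat_lit 768, nat_lit 10272, nat_lit 5520, nat_lit 5952, R4_214, R2_115, R2_124⟩, ⟨nat_lit 5, nat_lit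 14256, nat_lit 816, nat_lit 10368, nat_lit 4224, nat_lit 4656, R4_216, R1_88, R1_97⟩, ⟨nat_lit 6, nat_lit 14016, nat_lit 864, nat_lit 10320, nat_lit 15888, nat_lit 7776, R4_215, R12_331, R12_162⟩]⟩, ⟨nat_lit 6, [⟨nat_lit 4, nat_lit 12432, nat_lit 3168, nat_lit 10944, nat_lit 4944, nat_lit 13152, R7_228, R2_103, R3_274⟩, ⟨nat_lit 5, nat_lit 12576, nat_lit 3216, nat_lit 10992, nat_lit 3648, nat_lit 14112, R7_229, R1_76, R10_294⟩]⟩]⟩]], [[⟨nat_lit 0, [⟨nat_lit 2, [⟨nat_lit 6, nat_lit 11712, nat_lit 1824, nat_lit 9168, nat_lit 1248, nat_lit 4656, R6_191, R2_26, R14_97⟩]⟩]⟩,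
 ⟨nat_lit 2, [⟨nat_lit 2, [⟨nat_lit 4, nat_lit 13728, nat_lit 2400, nat_lit 9888, nat_lit 144, nat_lit 8304, R4_206, R2_3, R7_173⟩, ⟨nat_lit 6, nat_lit 14064, nat_lit 2448, nat_lit 9936, nat_lit 432, nat_lit 4752, R4_207, R12_9, R14_99⟩]⟩, ⟨nat_lit 6, [⟨nat_lit 4, nat_lit 12480, nat_lit 4128, nat_lit 10704, nat_lit 1968, nat_lit 8304, R7_223, R2_41, R4_173⟩, ⟨nat_lit 7, nat_lit 12624, nat_lit 4176, nat_lit 10752, nat_lit 1440, nat_lit 4992, R7_224, R1_30, R5_104⟩]⟩]⟩,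
 ⟨nat_lit 3, [⟨nat_lit 0, [⟨nat_lit 2, nat_lit 16128, nat_lit 480, nat_lit 4896, nat_lit 576, nat_lit 12192, R6_102, R11_12, R4_254⟩, ⟨nat_lit 6, nat_lit 15888, nat_lit 432, nat_lit 4944, nat_lit 48, nat_lit 13344, R6_103, R1_1, R7_278⟩]⟩, ⟨nat_lit 2, [⟨nat_lit 6, nat_lit 16848, nat_lit 2256, nat_lit 8496, nat_lit 720, nat_lit 4704, R8_177, R1_15, R14_98⟩]⟩, ⟨nat_lit 3, [⟨nat_lit 2, nat_lit 17472, nat_lit 960, nat_lit 5280, nat_lit 864, nat_lit 14688, R4_110, R11_18, R5_306⟩]⟩]⟩], [⟨nat_lit 0, [⟨nat_lit 2, [⟨nat_lit 6, nat_lit 11760, nat_lit 2208, nat_lit 9216, nat_lit 1824, nat_lit 3024, R6_192, R2_38, R12_63⟩]⟩]⟩,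
 ⟨nat_lit 2, [⟨nat_lit 2, [⟨nat_lit 6, nat_lit 14112, nat_lit 2880, nat_lit 9984, nat_lit 2496, nat_lit 3120, R4_208, R12_52, R12_65⟩]⟩]⟩,
 ⟨nat_lit 3, [⟨nat_lit 0, [⟨nat_lit 2, nat_lit 16176, nat_lit 672, nat_lit 6240, nat_lit 3360, nat_lit 8592, R6_130, R11_70, R3_179⟩, ⟨nat_lit 6, nat_lit 15936, nat_lit 624, nat_lit 6288, nat_lit 192, nat_lit 11904, R6_131, R1_4, R2_248⟩]⟩, ⟨nat_lit 2, [⟨nat_lit 6, nat_lit 16896, nat_lit 2736, nat_lit 8544, nat_lit 1296, nat_lit 3072, R8_178, R1_27, R12_64⟩]⟩]⟩], [⟨nat_lit 0, [⟨nat_lit 2, [⟨nat_lit 6, nat_lit 11808, nat_lit 1056, nat_lit 9312, nat_lit 1632, nat_lit 8352, R6_194, R2_34, R12_174⟩]⟩]⟩,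
 ⟨nat_lit 2, [⟨nat_lit 2, [⟨nat_lit 4, nat_lit 13776, nat_lit 1728, nat_lit 10176, nat_lit 7152, nat_lit 7248, R4_212, R2_149, R2_151⟩, ⟨nat_lit 6, nat_lit 14160, nat_lit 1776, nat_lit 10224, nat_lit 1584, nat_lit 8448, R4_213, R12_33, R12_176⟩]⟩, ⟨nat_lit 6, [⟨nat_lit 4, nat_lit 12528, nat_lit 3360, nat_lit 10848, nat_lit 9744, nat_lit 12816, R7_226, R2_203, R3_267⟩, ⟨nat_lit 7, nat_lit 12672, nat_lit 3408, nat_lit 10896, nat_lit 10560, nat_lit 11760, R7_227, R1_220, R0_245⟩]⟩]⟩,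
 ⟨nat_lit 3, [⟨nat_lit 2, [⟨nat_lit 6, nat_lit 16944, nat_lit 1488, nat_lit 8640, nat_lit 1104, nat_lit 8400, R8_180, R1_23, R12_175⟩]⟩]⟩], [⟨nat_lit 0, [⟨nat_lit 2, [⟨nat_lit 6, nat_lit 11856, nat_lit 2160, nat_lit 9264, nat_lit 1344, nat_lit 13008, R6_193, R2_28, R12_271⟩]⟩]⟩,
 ⟨nat_lit 2, [⟨nat_lit 2, [⟨nat_lit 4, nat_lit 13824, nat_lit 9648, nat_lit 10032, nat_lit 5856, nat_lit 5280, R4_209, R2_122, R2_110⟩, ⟨nat_lit 6, nat_lit 14208, nat_lit 9840, nat_lit 10080, nat_lit 624, nat_lit 13488, R4_210, R12_13, R12_281⟩, ⟨nat_lit 7, nat_lit 14304, nat_lit 9744, nat_lit 10128, nat_lit 4560, nat_lit 3984, R4_211, R1_95, R1_83⟩]⟩, ⟨nat_lit 6, [⟨nat_lit 7, nat_lit 12720, nat_lit 10704, nat_lit 10800, nat_lit 6864, nat_lit 18048, R7_225, R1_143, R11_376⟩]⟩]⟩,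
 ⟨nat_lit 3, [⟨nat_lit 0, [⟨nat_lit 6, nat_lit 15984, nat_lit 3648, nat_lit 6672, nat_lit 144, nat_lit 12288, R6_139, R1_3, R2_256⟩]⟩, ⟨nat_lit 2, [⟨nat_lit 6, nat_lit 16992, nat_lit 7056, nat_lit 8592, nat_lit 816, nat_lit 13248, R8_179, R1_17, R12_276⟩]⟩, ⟨nat_lit 3, [⟨nat_lit 2, nat_lit 17568, nat_lit 4752, nat_lit 6912, nat_lit 1584, nat_lit 18192, R4_144, R11_33, R11_379⟩, ⟨nat_lit 6, nat_lit 17328, nat_lit 4800, nat_lit 6960, nat_lit 480, nat_lit 12864, R4_145, R1_10, R1_268⟩]⟩]⟩,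
 ⟨nat_lit 4, [⟨nat_lit 7, [⟨nat_lit 3, nat_lit 2160, nat_lit 11856, nat_lit 9264, nat_lit 1344, nat_lit 13008, R6_193, R2_28, R12_271⟩]⟩]⟩,
 ⟨nat_lit 6, [⟨nat_lit 4, [⟨nat_lit 3, nat_lit 3648, nat_lit 15984, nat_lit 6672, nat_lit 144, nat_lit 12288, R6_139, R1_3, R2_256⟩]⟩, ⟨nat_lit 6, [⟨nat_lit 3, nat_lit 4800, nat_lit 17328, nat_lit 6960, nat_lit 480, nat_lit 12864, R4_145, R1_10, R1_268⟩, ⟨nat_lit 7, nat_lit 4752, nat_lit 17568, nat_lit 6912, nat_lit 1584, nat_lit 18192, R4_144, R11_33, R11_379⟩]⟩, ⟨nat_lit 7, [⟨nat_lit 3, nat_lit 7056, nat_lit 16992, nat_lit 8592, nat_lit 816, nat_lit 13248, R8_179, R1_17, R12_276⟩]⟩]⟩,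
 ⟨nat_lit 7, [⟨nat_lit 3, [⟨nat_lit 2, nat_lit 10704, nat_lit 12720, nat_lit 10800, nat_lit 6864, nat_lit 18048, R7_225, R1_143, R11_376⟩]⟩, ⟨nat_lit 7, [⟨nat_lit 0, nat_lit 9648, nat_lit 13824, nat_lit 10032, nat_lit 5856, nat_lit 5280, R4_209, R2_122, R2_110⟩, ⟨nat_lit 2, nat_lit 9744, nat_lit 14304, nat_lit 10128, nat_lit 4560, nat_lit 3984, R4_211, R1_95, R1_83⟩, ⟨nat_lit 3, nat_lit 9840, nat_lit 14208, nat_lit 10080, nat_lit 624, nat_lit 13488, R4_210, R12_13, R12_281⟩]⟩]⟩]], [], [], [], [[], [], [], [⟨nat_lit 4, [⟨nat_lit 7, [⟨nat_lit 0, nat_lit 2064, nat_lit 1776, nat_lit 7872, nat_lit 2928, nat_lit 3360, R6_164, R13_61, R2_70⟩, ⟨nat_lit 2, nat_lit 2112, nat_lit 1872, nat_lit 7968, nat_lit 3120, nat_lit 2832, R6_166, R3_65, R1_59⟩, ⟨nat_lit 3, nat_lit 2208, nat_lit 1824, nat_lit 7920, nat_lit 11760, nat_lit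 13056, R6_165, R3_245, R12_272⟩]⟩]⟩,
 ⟨nat_lit 6, [⟨nat_lit 4, [⟨nat_lit 3, nat_lit 3696, nat_lit 1056, nat_lit 6720, nat_lit 240, nat_lit 12240, R6_140, R10_5, R2_255⟩]⟩, ⟨nat_lit 6, [⟨nat_lit 3, nat_lit 4848, nat_lit 3072, nat_lit 7008, nat_lit 768, nat_lit 12816, R4_146, R10_16, R1_267⟩]⟩, ⟨nat_lit 7, [⟨nat_lit 0, nat_lit 7008, nat_lit 2832, nat_lit 7200, nat_lit 6480, nat_lit 4224, R8_150, R3_135, R2_88⟩, ⟨nat_lit 3, nat_lit 7104, nat_lit 2880, nat_lit 7248, nat_lit 1104, nat_lit 13296, R8_151, R10_23, R12_277⟩]⟩]⟩,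
 ⟨nat_lit 7, [⟨nat_lit 3, [⟨nat_lit 2, nat_lit 10752, nat_lit 624, nat_lit 8400, nat_lit 7680, nat_lit 17520, R7_175, R10_160, R11_365⟩]⟩, ⟨nat_lit 7, [⟨nat_lit 0, nat_lit 9696, nat_lit 2304, nat_lit 8352, nat_lit 13248, nat_lit 4800, R4_174, R3_276, R2_100⟩, ⟨nat_lit 2, nat_lit 9792, nat_lit 2352, nat_lit 8400, nat_lit 5280, nat_lit 3504, R4_175, R10_110, R1_73⟩]⟩]⟩]]], [[[⟨nat_lit 0, [⟨nat_lit 0, [⟨nat_lit 2, nat_lit 11376, nat_lit 18144, nat_lit 13344, nat_lit 4800, nat_lit 14160, R6_278, R4_100, R4_295⟩, ⟨nat_lit 6, nat_lit 11040, nat_lit 11280, nat_lit 13008, nat_lit 4752, nat_lit 15696, R6_271, R7_99, R7_327⟩]⟩, ⟨nat_lit 2, [⟨nat_lit 6, nat_lit 11904, nat_lit 11424, nat_lit 11808, nat_lit 5184, nat_lit 6048, R13_246, R7_108, R14_126⟩]⟩]⟩,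
 ⟨nat_lit 2, [⟨nat_lit 2, [⟨nat_lit 4, nat_lit 14352, nat_lit 4032, nat_lit 14352, nat_lit 1392, nat_lit 1824, R3_299, R7_29, R7_38⟩, ⟨nat_lit 6, nat_lit 14592, nat_lit 12000, nat_lit 14592, nat_lit 19824, nat_lit 6096, R3_304, R14_413, R14_127⟩]⟩, ⟨nat_lit 6, [⟨nat_lit 4, nat_lit 12768, nat_lit 4176, nat_lit 9696, nat_lit 816, nat_lit 1728, R2_202, R7_17, R4_36⟩]⟩]⟩,
 ⟨nat_lit 3, [⟨nat_lit 0, [⟨nat_lit 2, nat_lit 16368, nat_lit 19008, nat_lit 14208, nat_lit 9264, nat_lit 14400, R8_296, R5_193, R4_300⟩]⟩, ⟨nat_lit 3, [⟨nat_lit 2, nat_lit 17664, nat_lit 19152, nat_lit 10656, nat_lit 9648, nat_lit 16944, R5_222, R5_201, R5_353⟩]⟩]⟩], [⟨nat_lit 0, [⟨nat_lit 0, [⟨nat_lit 2, nat_lit 11424, nat_lit 3408, nat_lit 13440, nat_lit 4992, nat_lit 2928, R6_280, R4_104, R3_61⟩, ⟨nat_lit 6, nat_lit 11088, nat_lit 2544, nat_lit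 13152, nat_lit 4800, nat_lit 14400, R6_274, R7_100, R2_300⟩]⟩, ⟨nat_lit 2, [⟨nat_lit 6, nat_lit 11952, nat_lit 2688, nat_lit 11856, nat_lit 5424, nat_lit 4032, R13_247, R7_113, R12_84⟩]⟩]⟩,
 ⟨nat_lit 2, [⟨nat_lit 2, [⟨nat_lit 6, nat_lit 14640, nat_lit 13920, nat_lit 14736, nat_lit 21120, nat_lit 4080, R3_307, R14_440, R12_85⟩]⟩]⟩,
 ⟨nat_lit 3, [⟨nat_lit 0, [⟨nat_lit 2, nat_lit 16416, nat_lit 11472, nat_lit 14592, nat_lit 11424, nat_lit 8688, R8_304, R5_238, R3_181⟩]⟩]⟩], [⟨nat_lit 0, [⟨nat_lit 2, [⟨nat_lit 6, nat_lit 12000, nat_lit 2928, nat_lit 11904, nat_lit 5280, nat_lit 7488, R13_248, R7_110, R12_156⟩]⟩]⟩,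
 ⟨nat_lit 2, [⟨nat_lit 2, [⟨nat_lit 4, nat_lit 14400, nat_lit 11904, nat_lit 14496, nat_lit 7392, nat_lit 384, R3_302, R7_154, R2_8⟩, ⟨nat_lit 6, nat_lit 14688, nat_lit 12576, nat_lit 14928, nat_lit 20496, nat_lit 7536, R3_311, R14_427, R12_157⟩]⟩, ⟨nat_lit 6, [⟨nat_lit 4, nat_lit 12816, nat_lit 11856, nat_lit 9744, nat_lit 6816, nat_lit 12528, R2_203, R7_142, R3_261⟩]⟩]⟩]], [[⟨nat_lit 0, [⟨nat_lit 0, [⟨nat_lit 2, nat_lit 11472, nat_lit 13104, nat_lit 13392, nat_lit 192, nat_lit 14208, R6_279, R3_4, R4_296⟩, ⟨nat_lit 6, nat_lit 11136, nat_lit 12816, nat_lit 13056, nat_lit 3168, nat_lit 15888, R6_272, R2_66, R7_331⟩]⟩, ⟨nat_lit 2, [⟨nat_lit 6, nat_lit 12048, nat_lit 13824, nat_lit 11952, nat_lit 3600, nat_lit 7392, R13_249, R2_75, R14_154⟩]⟩]⟩,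
 ⟨nat_lit 1, [⟨nat_lit 0, [⟨nat_lit 2, nat_lit 15264, nat_lit 13200, nat_lit 13248, nat_lit 3024, nat_lit 14592, R4_276, R10_63, R4_304⟩, ⟨nat_lit 6, nat_lit 15168, nat_lit 12864, nat_lit 13152, nat_lit 2640, nat_lit 16560, R4_274, R1_55, R7_345⟩]⟩, ⟨nat_lit 2, [⟨nat_lit 6, nat_lit 15504, nat_lit 13872, nat_lit 9168, nat_lit 3072, nat_lit 7488, R3_191, R1_64, R14_156⟩]⟩]⟩,
 ⟨nat_lit 2, [⟨nat_lit 2, [⟨nat_lit 6, nat_lit 14736, nat_lit 13920, nat_lit 14640, nat_lit 15600, nat_lit 7440, R3_305, R12_325, R14_155⟩]⟩]⟩,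
 ⟨nat_lit 3, [⟨nat_lit 0, [⟨nat_lit 2, nat_lit 16464, nat_lit 13152, nat_lit 14304, nat_lit 5664, nat_lit 14496, R8_298, R0_118, R4_302⟩]⟩]⟩], [⟨nat_lit 0, [⟨nat_lit 0, [⟨nat_lit 2, nat_lit 11520, nat_lit 16032, nat_lit 13488, nat_lit 240, nat_lit 2976, R6_281, R3_5, R3_62⟩, ⟨nat_lit 6, nat_lit 11184, nat_lit 15744, nat_lit 13200, nat_lit 3216, nat_lit 14592, R6_275, R2_67, R2_304⟩]⟩, ⟨nat_lit 2, [⟨nat_lit 6, nat_lit 12096, nat_lit 16896, nat_lit 12000, nat_lit 3840, nat_lit 5376, R13_250, R2_80, R12_112⟩]⟩]⟩,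
 ⟨nat_lit 1, [⟨nat_lit 0, [⟨nat_lit 2, nat_lit 15312, nat_lit 16128, nat_lit 13296, nat_lit 3216, nat_lit 10464, R4_277, R10_67, R3_218⟩, ⟨nat_lit 6, nat_lit 15216, nat_lit 15792, nat_lit 13200, nat_lit 2688, nat_lit 14832, R4_275, R1_56, R2_309⟩]⟩, ⟨nat_lit 2, [⟨nat_lit 6, nat_lit 15552, nat_lit 16944, nat_lit 9216, nat_lit 3312, nat_lit 5472, R3_192, R1_69, R12_114⟩]⟩]⟩,
 ⟨nat_lit 2, [⟨nat_lit 2, [⟨nat_lit 6, nat_lit 14784, nat_lit 16992, nat_lit 14784, nat_lit 16896, nat_lit 5424, R3_308, R12_352, R12_113⟩]⟩]⟩,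
 ⟨nat_lit 3, [⟨nat_lit 0, [⟨nat_lit 2, nat_lit 16512, nat_lit 16080, nat_lit 14688, nat_lit 5712, nat_lit 8784, R8_306, R0_119, R3_183⟩]⟩]⟩], [⟨nat_lit 0, [⟨nat_lit 2, [⟨nat_lit 6, nat_lit 12144, nat_lit 1392, nat_lit 12048, nat_lit 3696, nat_lit 9264, R13_251, R2_77, R12_193⟩]⟩]⟩,
 ⟨nat_lit 1, [⟨nat_lit 2, [⟨nat_lit 6, nat_lit 15600, nat_lit 6528, nat_lit 9264, nat_lit 3168, nat_lit 9360, R3_193, R1_66, R12_195⟩]⟩]⟩,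
 ⟨nat_lit 2, [⟨nat_lit 2, [⟨nat_lit 6, nat_lit 14832, nat_lit 10752, nat_lit 14976, nat_lit 16272, nat_lit 9312, R3_312, R12_339, R12_194⟩]⟩]⟩]], [[], [], [⟨nat_lit 2, [⟨nat_lit 2, [⟨nat_lit 4, nat_lit 14448, nat_lit 1680, nat_lit 14544, nat_lit 5616, nat_lit 6096, R3_303, R2_117, R2_127⟩, ⟨nat_lit 5, nat_lit 15072, nat_lit 6720, nat_lit 15120, nat_lit 4320, nat_lit 4800, R3_315, R1_90, R1_100⟩, ⟨nat_lit 6, nat_lit 14880, nat_lit 11136, nat_lit 15024, nat_lit 16560, nat_lit 7920, R3_313, R12_345, R12_165⟩]⟩, ⟨nat_lit 6, [⟨nat_lit 4, nat_lit 12864, nat_lit 1824, nat_lit 9936, nat_lit 4992, nat_lit 13296, R2_207, R2_104, R3_277⟩, ⟨nat_lit 5, nat_lit 12960, nat_lit 6864, nat_lit 9984, nat_lit 3696, nat_lit 14208, R2_208, R1_77, R10_296⟩]⟩]⟩]], [[⟨nat_lit 0, [⟨nat_lit 0, [⟨nat_lit 6, nat_lit 11232, nat_lit 10944,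 nat_lit 13104, nat_lit 7488, nat_lit 15792, R6_273, R2_156, R7_329⟩]⟩, ⟨nat_lit 2, [⟨nat_lit 6, nat_lit 12192, nat_lit 12480, nat_lit 12096, nat_lit 8304, nat_lit 6624, R13_252, R2_173, R14_138⟩]⟩]⟩,
 ⟨nat_lit 2, [⟨nat_lit 2, [⟨nat_lit 4, nat_lit 14496, nat_lit 11904, nat_lit 14400, nat_lit 384, nat_lit 8448, R3_300, R2_8, R7_176⟩, ⟨nat_lit 6, nat_lit 14928, nat_lit 12576, nat_lit 14688, nat_lit 7536, nat_lit 6720, R3_306, R12_157, R14_140⟩]⟩, ⟨nat_lit 6, [⟨nat_lit 4, nat_lit 12912, nat_lit 10224, nat_lit 9792, nat_lit 2160, nat_lit 8448, R2_204, R2_45, R4_176⟩, ⟨nat_lit 7, nat_lit 13008, nat_lit 10512, nat_lit 9840, nat_lit 1632, nat_lit 6720, R2_205, R1_34, R5_140⟩]⟩]⟩,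
 ⟨nat_lit 3, [⟨nat_lit 0, [⟨nat_lit 2, nat_lit 16560, nat_lit 11376, nat_lit 14256, nat_lit 11712, nat_lit 14448, R8_297, R11_244, R4_301⟩, ⟨nat_lit 6, nat_lit 16224, nat_lit 10992, nat_lit 14448, nat_lit 8016, nat_lit 16128, R8_301, R1_167, R7_336⟩]⟩, ⟨nat_lit 2, [⟨nat_lit 6, nat_lit 17040, nat_lit 12528, nat_lit 9360, nat_lit 9120, nat_lit 6672, R9_195, R1_190, R14_139⟩]⟩, ⟨nat_lit 3, [⟨nat_lit 2, nat_lit 17856, nat_lit 11520, nat_lit 10848, nat_lit 12096, nat_lit 17328, R5_226, R11_252, R5_361⟩]⟩]⟩], [⟨nat_lit 0, [⟨nat_lit 0, [⟨nat_lit 6, nat_lit 11280, nat_lit 9456, nat_lit 13248, nat_lit 7632, nat_lit 14496, R6_276, R2_159, R2_302⟩]⟩, ⟨nat_lit 2, [⟨nat_lit 6, nat_lit 12240, nat_lit 10656, nat_lit 12144, nat_lit 8688, nat_lit 4608, R13_253, R2_181, R12_96⟩]⟩]⟩,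
 ⟨nat_lit 3, [⟨nat_lit 0, [⟨nat_lit 2, nat_lit 16608, nat_lit 9888, nat_lit 14640, nat_lit 14400, nat_lit 8736, R8_305, R11_300, R3_182⟩, ⟨nat_lit 6, nat_lit 16272, nat_lit 9504, nat_lit 14736, nat_lit 8160, nat_lit 14640, R8_307, R1_170, R2_305⟩]⟩, ⟨nat_lit 2, [⟨nat_lit 6, nat_lit 17088, nat_lit 10704, nat_lit 9408, nat_lit 9504, nat_lit 4656, R9_196, R1_198, R12_97⟩]⟩]⟩]]], [[[⟨nat_lit 2, [⟨nat_lit 6, [⟨nat_lit 4, nat_lit 13104, nat_lit 2928, nat_lit 4752, nat_lit 912, nat_lit 1632, R2_99, R7_19, R4_34⟩]⟩]⟩,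
 ⟨nat_lit 6, [⟨nat_lit 6, [⟨nat_lit 4, nat_lit 4896, nat_lit 2784, nat_lit 5472, nat_lit 816, nat_lit 1104, R3_114, R4_17, R4_23⟩, ⟨nat_lit 7, nat_lit 5184, nat_lit 7968, nat_lit 5616, nat_lit 3984, nat_lit 96, R3_117, R5_83, R5_2⟩]⟩]⟩], [], [⟨nat_lit 2, [⟨nat_lit 6, [⟨nat_lit 4, nat_lit 13152, nat_lit 3168, nat_lit 4944, nat_lit 6912, nat_lit 12432, R2_103, R7_144, R3_259⟩]⟩]⟩,
 ⟨nat_lit 6, [⟨nat_lit 6, [⟨nat_lit 4, nat_lit 4944, nat_lit 4224, nat_lit 5520, nat_lit 7200, nat_lit 4416, R3_115, R4_150, R3_92⟩, ⟨nat_lit 7, nat_lit 5232, nat_lit 12576, nat_lit 5664, nat_lit 12432, nat_lit 12000, R3_118, R5_259, R0_250⟩]⟩]⟩]], [], [[], [], [⟨nat_lit 2, [⟨nat_lit 6, [⟨nat_lit 4, nat_lit 13200, nat_lit 3168, nat_lit 5088, nat_lit 5088, nat_lit 13200, R2_106, R2_106, R3_275⟩, ⟨nat_lit 5, nat_lit 13344, nat_lit 3216,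 nat_lit 5136, nat_lit 3792, nat_lit 14160, R2_107, R1_79, R10_295⟩]⟩]⟩,
 ⟨nat_lit 6, [⟨nat_lit 6, [⟨nat_lit 4, nat_lit 4992, nat_lit 4224, nat_lit 5568, nat_lit 5568, nat_lit 4992, R3_116, R3_116, R3_104⟩, ⟨nat_lit 5, nat_lit 5040, nat_lit 4320, nat_lit 6000, nat_lit 864, nat_lit 14304, R3_125, R10_18, R10_298⟩, ⟨nat_lit 7, nat_lit 5280, nat_lit 4272, nat_lit 5856, nat_lit 528, nat_lit 12048, R3_122, R0_11, R0_251⟩]⟩]⟩], [], [], [], [⟨nat_lit 2, [⟨nat_lit 6, [⟨nat_lit 5, nat_lit 13392, nat_lit 2496, nat_lit 5184, nat_lit 15456, nat_lit 12912, R2_108, R1_322, R1_269⟩]⟩]⟩,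
 ⟨nat_lit 6, [⟨nat_lit 6, [⟨nat_lit 5, nat_lit 5088, nat_lit 2544, nat_lit 5952, nat_lit 912, nat_lit 12960, R3_124, R10_19, R1_270⟩]⟩]⟩]], [[⟨nat_lit 2, [⟨nat_lit 6, [⟨nat_lit 4, nat_lit 13248, nat_lit 9696, nat_lit 4800, nat_lit 2304, nat_lit 8352, R2_100, R2_48, R4_174⟩, ⟨nat_lit 7, nat_lit 13440, nat_lit 9936, nat_lit 4848, nat_lit 1776, nat_lit 5664, R2_101, R1_37, R5_118⟩]⟩]⟩,
 ⟨nat_lit 6, [⟨nat_lit 6, [⟨nat_lit 7, nat_lit 5328, nat_lit 9984, nat_lit 5712, nat_lit 1632, nat_lit 5760, R3_119, R11_34, R5_120⟩]⟩]⟩], [], [⟨nat_lit 2, [⟨nat_lit 6, [⟨nat_lit 4, nat_lit 13296, nat_lit 1824, nat_lit 4992, nat_lit 9936, nat_lit 12864, R2_104, R2_207, R3_268⟩, ⟨nat_lit 7, nat_lit 13488, nat_lit 1872, nat_lit 5040, nat_lit 10752, nat_lit 11808, R2_105, R1_224, R0_246⟩]⟩]⟩,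
 ⟨nat_lit 6, [⟨nat_lit 6, [⟨nat_lit 7, nat_lit 5376, nat_lit 2112, nat_lit 5808, nat_lit 1680, nat_lit 12096, R3_121, R11_35, R0_252⟩]⟩]⟩], [⟨nat_lit 2, [⟨nat_lit 6, [⟨nat_lit 7, nat_lit 13536, nat_lit 2400, nat_lit 4896, nat_lit 7200, nat_lit 18096, R2_102, R1_150, R11_377⟩]⟩]⟩,
 ⟨nat_lit 4, [⟨nat_lit 4, [⟨nat_lit 3, nat_lit 576, nat_lit 288, nat_lit 6336, nat_lit 960, nat_lit 11952, R6_132, R2_20, R2_249⟩]⟩, ⟨nat_lit 7, [⟨nat_lit 3, nat_lit 2688, nat_lit 1248, nat_lit 7152, nat_lit 2496, nat_lit 13104, R8_149, R2_52, R12_273⟩]⟩]⟩,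
 ⟨nat_lit 6, [⟨nat_lit 4, [⟨nat_lit 3, nat_lit 4176, nat_lit 624, nat_lit 7104, nat_lit 288, nat_lit 12432, R13_148, R1_6, R2_259⟩]⟩, ⟨nat_lit 6, [⟨nat_lit 3, nat_lit 5904, nat_lit 2688, nat_lit 5136, nat_lit 528, nat_lit 13008, R3_107, R1_11, R1_271⟩, ⟨nat_lit 7, nat_lit 5424, nat_lit 2640, nat_lit 5760, nat_lit 1728, nat_lit 18240, R3_120, R11_36, R11_380⟩]⟩, ⟨nat_lit 7, [⟨nat_lit 3, nat_lit 7440, nat_lit 2208, nat_lit 5232, nat_lit 1968, nat_lit 13344, R9_109, R1_41, R12_278⟩]⟩]⟩,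
 ⟨nat_lit 7, [⟨nat_lit 7, [⟨nat_lit 0, nat_lit 9888, nat_lit 1920, nat_lit 5520, nat_lit 5904, nat_lit 5328, R5_115, R2_123, R2_111⟩, ⟨nat_lit 2, nat_lit 10032, nat_lit 2016, nat_lit 5568, nat_lit 4608, nat_lit 4032, R5_116, R1_96, R1_84⟩, ⟨nat_lit 3, nat_lit 10224, nat_lit 1968, nat_lit 5616, nat_lit 672, nat_lit 13536, R5_117, R12_14, R12_282⟩]⟩]⟩]], [[], [], [], [], [⟨nat_lit 4, [⟨nat_lit 4, [⟨nat_lit 0, nat_lit 0, nat_lit 1872, nat_lit 5952, nat_lit 14448, nat_lit 8256, R6_124, R6_301, R6_172⟩, ⟨nat_lit 1, nat_lit 288, nat_lit 7392, nat_lit 6384, nat_lit 17664, nat_lit 5136, R6_133, R8_368, R8_107⟩, ⟨nat_lit 2, nat_lit 144, nat_lit 10800, nat_lit 6096, nat_lit 14112, nat_lit 8688, R6_127, R4_294, R4_181⟩]⟩, ⟨nat_lit 5, [⟨nat_lit 0, nat_lit 720, nat_lit 2400, nat_lit 6288, nat_lit 15984, nat_lit 768, R4_131,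 R6_333, R8_16⟩, ⟨nat_lit 1, nat_lit 1008, nat_lit 7728, nat_lit 6624, nat_lit 17808, nat_lit 4608, R4_138, R8_371, R9_96⟩, ⟨nat_lit 2, nat_lit 864, nat_lit 11232, nat_lit 6432, nat_lit 14976, nat_lit 5136, R4_134, R4_312, R5_107⟩]⟩]⟩,
 ⟨nat_lit 6, [⟨nat_lit 4, [⟨nat_lit 0, nat_lit 3744, nat_lit 2064, nat_lit 7200, nat_lit 240, nat_lit 8592, R13_150, R4_5, R6_179⟩, ⟨nat_lit 1, nat_lit 3888, nat_lit 7584, nat_lit 7248, nat_lit 3840, nat_lit 5184, R13_151, R5_80, R8_108⟩]⟩, ⟨nat_lit 5, [⟨nat_lit 0, nat_lit 6048, nat_lit 2544, nat_lit 6048, nat_lit 2544, nat_lit 864, R3_126, R4_53, R8_18⟩, ⟨nat_lit 1, nat_lit 6192, nat_lit 7872, nat_lit 6096, nat_lit 4128, nat_lit 4656, R3_127, R5_86, R9_97⟩]⟩, ⟨nat_lit 6, [⟨nat_lit 0, nat_lit 5472, nat_lit 2784, nat_lit 4896, nat_lit 816, nat_lit 1104, R3_102, R4_17, R4_23⟩, ⟨nat_lit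 1, nat_lit 5616, nat_lit 7968, nat_lit 5184, nat_lit 3984, nat_lit 96, R3_108, R5_83, R5_2⟩]⟩]⟩], [], [], [⟨nat_lit 4, [⟨nat_lit 4, [⟨nat_lit 0, nat_lit 48, nat_lit 1056, nat_lit 6000, nat_lit 14640, nat_lit 15216, R6_125, R6_305, R13_317⟩, ⟨nat_lit 1, nat_lit 336, nat_lit 9408, nat_lit 6432, nat_lit 18384, nat_lit 13248, R6_134, R8_383, R9_276⟩, ⟨nat_lit 2, nat_lit 192, nat_lit 13104, nat_lit 6144, nat_lit 14208, nat_lit 11472, R6_128, R4_296, R3_239⟩]⟩, ⟨nat_lit 5, [⟨nat_lit 0, nat_lit 768, nat_lit 1680, nat_lit 6336, nat_lit 16224, nat_lit 3744, R4_132, R6_338, R9_78⟩]⟩, ⟨nat_lit 7, [⟨nat_lit 0, nat_lit 2256, nat_lit 1344, nat_lit 7584, nat_lit 15408, nat_lit 384, R8_158, R6_321, R3_8⟩, ⟨nat_lit 1, nat_lit 2544, nat_lit 9792, nat_lit 7920, nat_lit 18528, nat_lit 7248, R8_165, R8_386, R0_151⟩, ⟨nat_lit 2,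 nat_lit 2400, nat_lit 13248, nat_lit 7680, nat_lit 14688, nat_lit 2880, R8_160, R4_306, R10_60⟩]⟩]⟩,
 ⟨nat_lit 6, [⟨nat_lit 4, [⟨nat_lit 0, nat_lit 3792, nat_lit 3456, nat_lit 7344, nat_lit 5472, nat_lit 16176, R13_153, R4_114, R13_337⟩, ⟨nat_lit 1, nat_lit 3936, nat_lit 11664, nat_lit 7392, nat_lit 12192, nat_lit 13872, R13_154, R5_254, R9_289⟩]⟩, ⟨nat_lit 5, [⟨nat_lit 0, nat_lit 6096, nat_lit 4128, nat_lit 6192, nat_lit 7872, nat_lit 4656, R3_129, R4_164, R9_97⟩]⟩, ⟨nat_lit 6, [⟨nat_lit 0, nat_lit 5520, nat_lit 4224, nat_lit 4944, nat_lit 7200, nat_lit 4416, R3_103, R4_150, R3_92⟩, ⟨nat_lit 1, nat_lit 5664, nat_lit 12576, nat_lit 5232, nat_lit 12432, nat_lit 12000, R3_109, R5_259, R0_250⟩]⟩, ⟨nat_lit 7, [⟨nat_lit 0, nat_lit 7152, nat_lit 3744, nat_lit 5376, nat_lit 6672, nat_lit 1056, R9_112, R4_139, R3_22⟩,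 ⟨nat_lit 1, nat_lit 7296, nat_lit 12096, nat_lit 5424, nat_lit 12336, nat_lit 8352, R9_113, R5_257, R0_174⟩]⟩]⟩]], [], [[], [], [], [], [⟨nat_lit 4, [⟨nat_lit 4, [⟨nat_lit 1, nat_lit 384, nat_lit 2256, nat_lit 6528, nat_lit 1344, nat_lit 5472, R6_136, R5_28, R8_114⟩]⟩, ⟨nat_lit 5, [⟨nat_lit 1, nat_lit 1056, nat_lit 7152, nat_lit 6672, nat_lit 3744, nat_lit 4848, R4_139, R5_78, R9_101⟩]⟩]⟩,
 ⟨nat_lit 6, [⟨nat_lit 4, [⟨nat_lit 1, nat_lit 3984, nat_lit 2352, nat_lit 7296, nat_lit 912, nat_lit 5520, R13_152, R11_19, R8_115⟩]⟩, ⟨nat_lit 5, [⟨nat_lit 1, nat_lit 6240, nat_lit 7248, nat_lit 6144, nat_lit 3744, nat_lit 4896, R3_128, R11_78, R9_102⟩]⟩, ⟨nat_lit 6, [⟨nat_lit 1, nat_lit 5712, nat_lit 9984, nat_lit 5328, nat_lit 1632, nat_lit 5760, R3_111, R11_34, R5_120⟩]⟩]⟩], [], [⟨nat_lit 4, [⟨nat_lit 4, [⟨nat_lit 1,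 nat_lit 432, nat_lit 2448, nat_lit 6624, nat_lit 1440, nat_lit 14352, R6_138, R5_30, R5_299⟩]⟩]⟩,
 ⟨nat_lit 6, [⟨nat_lit 4, [⟨nat_lit 1, nat_lit 4032, nat_lit 2496, nat_lit 7632, nat_lit 1008, nat_lit 14736, R13_159, R11_21, R5_307⟩]⟩, ⟨nat_lit 6, [⟨nat_lit 1, nat_lit 5760, nat_lit 2640, nat_lit 5424, nat_lit 1728, nat_lit 18240, R3_113, R11_36, R11_380⟩, ⟨nat_lit 5, nat_lit 5136, nat_lit 2688, nat_lit 5904, nat_lit 528, nat_lit 13008, R3_123, R1_11, R1_271⟩]⟩]⟩], [⟨nat_lit 4, [⟨nat_lit 7, [⟨nat_lit 1, nat_lit 2592, nat_lit 2016, nat_lit 9216, nat_lit 2352, nat_lit 7440, R8_192, R5_49, R0_155⟩]⟩]⟩,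
 ⟨nat_lit 6, [⟨nat_lit 4, [⟨nat_lit 1, nat_lit 4080, nat_lit 1968, nat_lit 7584, nat_lit 960, nat_lit 13968, R13_158, R11_20, R9_291⟩]⟩, ⟨nat_lit 6, [⟨nat_lit 1, nat_lit 5808, nat_lit 2112, nat_lit 5376, nat_lit 1680, nat_lit 12096, R3_112, R11_35, R0_252⟩]⟩, ⟨nat_lit 7, [⟨nat_lit 1, nat_lit 7344, nat_lit 2064, nat_lit 5568, nat_lit 2352, nat_lit 8592, R9_116, R11_49, R0_179⟩]⟩]⟩]], [[], [], [], [⟨nat_lit 4, [⟨nat_lit 4, [⟨nat_lit 3, nat_lit 624, nat_lit 192, nat_lit 6288, nat_lit 15936, nat_lit 11904, R6_131, R3_332, R2_248⟩]⟩, ⟨nat_lit 7, [⟨nat_lit 0, nat_lit 2304, nat_lit 1248, nat_lit 8256, nat_lit 3648, nat_lit 3456, R8_172, R13_76, R2_72⟩, ⟨nat_lit 2, nat_lit 2448, nat_lit 1344, nat_lit 8448, nat_lit 3360, nat_lit 2928, R8_176, R3_70, R1_61⟩, ⟨nat_lit 3, nat_lit 2736, nat_lit 1296, nat_lit 8544, nat_lit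 16896, nat_lit 13152, R8_178, R3_352, R12_274⟩]⟩]⟩,
 ⟨nat_lit 6, [⟨nat_lit 4, [⟨nat_lit 3, nat_lit 4224, nat_lit 384, nat_lit 7152, nat_lit 576, nat_lit 12384, R13_149, R10_12, R2_258⟩]⟩, ⟨nat_lit 6, [⟨nat_lit 3, nat_lit 5952, nat_lit 2544, nat_lit 5088, nat_lit 912, nat_lit 12960, R3_106, R10_19, R1_270⟩]⟩, ⟨nat_lit 7, [⟨nat_lit 0, nat_lit 7200, nat_lit 2304, nat_lit 5280, nat_lit 6576, nat_lit 4320, R9_110, R3_137, R2_90⟩, ⟨nat_lit 3, nat_lit 7488, nat_lit 2352, nat_lit 5328, nat_lit 2112, nat_lit 13392, R9_111, R10_44, R12_279⟩]⟩]⟩,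
 ⟨nat_lit 7, [⟨nat_lit 7, [⟨nat_lit 0, nat_lit 9936, nat_lit 1776, nat_lit 5664, nat_lit 13440, nat_lit 4848, R5_118, R3_280, R2_101⟩, ⟨nat_lit 2, nat_lit 10080, nat_lit 1824, nat_lit 5712, nat_lit 5328, nat_lit 3552, R5_119, R10_111, R1_74⟩]⟩]⟩], [], [], [], [⟨nat_lit 4, [⟨nat_lit 4, [⟨nat_lit 0, nat_lit 96, nat_lit 3264, nat_lit 6048, nat_lit 2640, nat_lit 15264, R6_126, R13_55, R13_318⟩, ⟨nat_lit 1, nat_lit 528, nat_lit 3312, nat_lit 6480, nat_lit 1968, nat_lit 13296, R6_135, R9_41, R9_277⟩, ⟨nat_lit 2, nat_lit 240, nat_lit 3408, nat_lit 6192, nat_lit 2976, nat_lit 11520, R6_129, R3_62, R3_240⟩, ⟨nat_lit 3, nat_lit 672, nat_lit 3360, nat_lit 6240, nat_lit 16176, nat_lit 8592, R6_130, R3_337, R3_179⟩]⟩, ⟨nat_lit 5, [⟨nat_lit 0, nat_lit 816, nat_lit 3600, nat_lit 6384, nat_lit 4368, nat_lit 3984, R4_133, R13_91,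 R9_83⟩]⟩, ⟨nat_lit 7, [⟨nat_lit 0, nat_lit 2352, nat_lit 3840, nat_lit 8208, nat_lit 3600, nat_lit 3984, R8_171, R13_75, R3_83⟩, ⟨nat_lit 1, nat_lit 2640, nat_lit 3888, nat_lit 8880, nat_lit 2640, nat_lit 7344, R8_185, R9_55, R0_153⟩, ⟨nat_lit 2, nat_lit 2496, nat_lit 3936, nat_lit 8400, nat_lit 3312, nat_lit 3552, R8_175, R3_69, R10_74⟩]⟩]⟩,
 ⟨nat_lit 6, [⟨nat_lit 4, [⟨nat_lit 0, nat_lit 3840, nat_lit 3456, nat_lit 7440, nat_lit 3840, nat_lit 16224, R13_155, R3_80, R13_338⟩, ⟨nat_lit 1, nat_lit 4128, nat_lit 3504, nat_lit 7536, nat_lit 288, nat_lit 13920, R13_157, R0_6, R9_290⟩, ⟨nat_lit 3, nat_lit 4272, nat_lit 3552, nat_lit 7488, nat_lit 528, nat_lit 8928, R13_156, R10_11, R3_186⟩]⟩, ⟨nat_lit 5, [⟨nat_lit 0, nat_lit 6144, nat_lit 3744, nat_lit 6240, nat_lit 7248, nat_lit 4896, R3_130, R3_151, R9_102⟩]⟩, ⟨nat_lit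 6, [⟨nat_lit 0, nat_lit 5568, nat_lit 4224, nat_lit 4992, nat_lit 5568, nat_lit 4992, R3_104, R3_116, R3_104⟩, ⟨nat_lit 1, nat_lit 5856, nat_lit 4272, nat_lit 5280, nat_lit 528, nat_lit 12048, R3_110, R0_11, R0_251⟩, ⟨nat_lit 3, nat_lit 6000, nat_lit 4320, nat_lit 5040, nat_lit 864, nat_lit 14304, R3_105, R10_18, R10_298⟩]⟩, ⟨nat_lit 7, [⟨nat_lit 0, nat_lit 7248, nat_lit 4128, nat_lit 5472, nat_lit 6144, nat_lit 6240, R9_114, R3_128, R3_130⟩, ⟨nat_lit 1, nat_lit 7392, nat_lit 4176, nat_lit 5520, nat_lit 1104, nat_lit 8448, R9_115, R0_23, R0_176⟩]⟩]⟩,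
 ⟨nat_lit 7, [⟨nat_lit 7, [⟨nat_lit 0, nat_lit 9984, nat_lit 3984, nat_lit 5760, nat_lit 5328, nat_lit 5712, R5_120, R3_111, R3_119⟩, ⟨nat_lit 1, nat_lit 10176, nat_lit 4032, nat_lit 5856, nat_lit 14640, nat_lit 8064, R5_122, R0_305, R0_168⟩, ⟨nat_lit 2, nat_lit 10128, nat_lit 4080, nat_lit 5808, nat_lit 4704, nat_lit 4128, R5_121, R10_98, R10_86⟩]⟩]⟩]]], [[], [], [], [[⟨nat_lit 3, [⟨nat_lit 0, [⟨nat_lit 2, nat_lit 16752, nat_lit 16752, nat_lit 13392, nat_lit 7920, nat_lit 13392, R4_279, R11_165, R4_279⟩, ⟨nat_lit 6, nat_lit 16656, nat_lit 10272, nat_lit 13584, nat_lit 5856, nat_lit 14736, R4_283, R1_122, R7_307⟩]⟩, ⟨nat_lit 2, [⟨nat_lit 6, nat_lit 17184, nat_lit 10800, nat_lit 16080, nat_lit 6240, nat_lit 5616, R5_335, R1_130, R14_117⟩]⟩]⟩,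
 ⟨nat_lit 7, [⟨nat_lit 0, [⟨nat_lit 2, nat_lit 10272, nat_lit 16656, nat_lit 14736, nat_lit 5856, nat_lit 13584, R7_307, R1_122, R4_283⟩]⟩, ⟨nat_lit 3, [⟨nat_lit 2, nat_lit 10800, nat_lit 17184, nat_lit 10128, nat_lit 6240, nat_lit 16080, R14_211, R1_130, R5_335⟩]⟩]⟩], [⟨nat_lit 3, [⟨nat_lit 0, [⟨nat_lit 2, nat_lit 16800, nat_lit 12384, nat_lit 13728, nat_lit 9600, nat_lit 8640, R4_286, R11_200, R3_180⟩, ⟨nat_lit 6, nat_lit 16704, nat_lit 12240, nat_lit 13776, nat_lit 5904, nat_lit 13920, R4_287, R1_123, R2_290⟩]⟩, ⟨nat_lit 2, [⟨nat_lit 6, nat_lit 17232, nat_lit 12960, nat_lit 16128, nat_lit 6720, nat_lit 3600, R5_336, R1_140, R12_75⟩]⟩]⟩,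
 ⟨nat_lit 7, [⟨nat_lit 0, [⟨nat_lit 2, nat_lit 10320, nat_lit 12432, nat_lit 14976, nat_lit 5952, nat_lit 15456, R7_312, R1_124, R3_322⟩]⟩, ⟨nat_lit 3, [⟨nat_lit 2, nat_lit 10848, nat_lit 12768, nat_lit 10176, nat_lit 7344, nat_lit 2640, R14_212, R1_153, R0_55⟩]⟩]⟩], [⟨nat_lit 3, [⟨nat_lit 2, [⟨nat_lit 6, nat_lit 17280, nat_lit 4272, nat_lit 16176, nat_lit 6528, nat_lit 9024, R5_337, R1_136, R12_188⟩]⟩]⟩]], [], [], [], [[⟨nat_lit 4, [⟨nat_lit 3, [⟨nat_lit 2, nat_lit 3408, nat_lit 11088, nat_lit 10176, nat_lit 1536, nat_lit 15264, R7_212, R3_32, R5_318⟩]⟩]⟩,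
 ⟨nat_lit 7, [⟨nat_lit 0, [⟨nat_lit 2, nat_lit 10368, nat_lit 10800, nat_lit 14784, nat_lit 7056, nat_lit 13632, R7_308, R10_147, R4_284⟩]⟩, ⟨nat_lit 3, [⟨nat_lit 2, nat_lit 10896, nat_lit 11136, nat_lit 9984, nat_lit 7392, nat_lit 15456, R14_208, R10_154, R5_322⟩]⟩]⟩], [⟨nat_lit 4, [⟨nat_lit 3, [⟨nat_lit 2, nat_lit 3456, nat_lit 11664, nat_lit 10272, nat_lit 1632, nat_lit 2496, R7_214, R3_34, R0_52⟩]⟩]⟩,
 ⟨nat_lit 7, [⟨nat_lit 0, [⟨nat_lit 2, nat_lit 10416, nat_lit 11184, nat_lit 15024, nat_lit 7248, nat_lit 15408, R7_313, R10_151, R3_321⟩]⟩, ⟨nat_lit 3, [⟨nat_lit 2, nat_lit 10944, nat_lit 11712, nat_lit 10032, nat_lit 8256, nat_lit 2544, R14_209, R10_172, R0_53⟩]⟩]⟩], [], [⟨nat_lit 4, [⟨nat_lit 3, [⟨nat_lit 2, nat_lit 3504, nat_lit 2352, nat_lit 10224, nat_lit 1584, nat_lit 19584, R7_213, R3_33, R11_408⟩]⟩,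 ⟨nat_lit 7, [⟨nat_lit 0, nat_lit 2784, nat_lit 2448, nat_lit 9408, nat_lit 3216, nat_lit 3408, R4_196, R13_67, R2_71⟩, ⟨nat_lit 2, nat_lit 2832, nat_lit 2544, nat_lit 9600, nat_lit 3216, nat_lit 2880, R4_200, R3_67, R1_60⟩, ⟨nat_lit 3, nat_lit 2880, nat_lit 2496, nat_lit 9984, nat_lit 14112, nat_lit 13200, R4_208, R3_294, R12_275⟩]⟩]⟩,
 ⟨nat_lit 6, [⟨nat_lit 7, [⟨nat_lit 0, nat_lit 7536, nat_lit 2592, nat_lit 5424, nat_lit 6528, nat_lit 4272, R5_113, R3_136, R2_89⟩, ⟨nat_lit 3, nat_lit 7584, nat_lit 2640, nat_lit 5472, nat_lit 1536, nat_lit 13440, R5_114, R10_32, R12_280⟩]⟩]⟩,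
 ⟨nat_lit 7, [⟨nat_lit 3, [⟨nat_lit 2, nat_lit 10992, nat_lit 2400, nat_lit 10080, nat_lit 7728, nat_lit 19776, R14_210, R10_161, R11_412⟩]⟩]⟩]]], [[], [], [], [], [[], [⟨nat_lit 4, [⟨nat_lit 1, [⟨nat_lit 2, nat_lit 3024, nat_lit 336, nat_lit 8880, nat_lit 2112, nat_lit 144, R6_185, R4_44, R10_3⟩]⟩]⟩,
 ⟨nat_lit 5, [⟨nat_lit 0, [⟨nat_lit 2, nat_lit 8544, nat_lit 5088, nat_lit 13872, nat_lit 3360, nat_lit 16080, R6_289, R5_70, R3_335⟩]⟩, ⟨nat_lit 1, [⟨nat_lit 2, nat_lit 8832, nat_lit 5568, nat_lit 11568, nat_lit 3552, nat_lit 480, R13_241, R5_74, R10_10⟩]⟩]⟩], [], [], [], [⟨nat_lit 4, [⟨nat_lit 1, [⟨nat_lit 2, nat_lit 3072, nat_lit 528, nat_lit 8928, nat_lit 2256, nat_lit 2736, R6_186, R4_47, R1_57⟩]⟩]⟩,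
 ⟨nat_lit 5, [⟨nat_lit 1, [⟨nat_lit 2, nat_lit 8880, nat_lit 5472, nat_lit 11616, nat_lit 2640, nat_lit 3024, R13_242, R5_55, R1_63⟩]⟩]⟩]], [[], [⟨nat_lit 5, [⟨nat_lit 0, [⟨nat_lit 2, nat_lit 8592, nat_lit 672, nat_lit 13920, nat_lit 3360, nat_lit 16176, R6_290, R11_70, R3_337⟩]⟩, ⟨nat_lit 1, [⟨nat_lit 2, nat_lit 8928, nat_lit 4272, nat_lit 11664, nat_lit 3552, nat_lit 528, R13_243, R11_74, R10_11⟩]⟩]⟩], [], [], [], [⟨nat_lit 5, [⟨nat_lit 1, [⟨nat_lit 2, nat_lit 8976, nat_lit 3888, nat_lit 11712, nat_lit 2640, nat_lit 3264, R13_244, R11_55, R1_68⟩]⟩]⟩]], [], [[], [], [], [], [], [⟨nat_lit 4, [⟨nat_lit 1, [⟨nat_lit 2, nat_lit 3120, nat_lit 1872, nat_lit 8976, nat_lit 2112, nat_lit 2832, R6_187, R3_44, R1_59⟩]⟩]⟩]]], [[], [[], [⟨nat_lit 1, [⟨nat_lit 0, [⟨nat_lit 2, nat_lit 15408, nat_lit 11184, nat_lit 15024,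 nat_lit 14784, nat_lit 10416, R7_313, R10_308, R3_217⟩, ⟨nat_lit 6, nat_lit 15360, nat_lit 11136, nat_lit 15072, nat_lit 13152, nat_lit 10608, R7_314, R1_274, R2_221⟩]⟩, ⟨nat_lit 1, [⟨nat_lit 2, nat_lit 15744, nat_lit 11280, nat_lit 14208, nat_lit 15552, nat_lit 12288, R2_296, R10_324, R10_256⟩, ⟨nat_lit 6, nat_lit 15696, nat_lit 11232, nat_lit 14256, nat_lit 13776, nat_lit 10992, R2_297, R1_287, R1_229⟩]⟩, ⟨nat_lit 2, [⟨nat_lit 6, nat_lit 15648, nat_lit 11328, nat_lit 13872, nat_lit 13632, nat_lit 6336, R2_289, R1_284, R12_132⟩]⟩]⟩]], [], [], [], [[], [⟨nat_lit 1, [⟨nat_lit 0, [⟨nat_lit 2, nat_lit 15456, nat_lit 14880, nat_lit 14976, nat_lit 5952, nat_lit 10320, R7_312, R1_124, R3_215⟩]⟩, ⟨nat_lit 1, [⟨nat_lit 2, nat_lit 15792, nat_lit 15312, nat_lit 14160, nat_lit 6048, nat_lit 12336, R2_295, R1_126, R10_257⟩]⟩]⟩,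
 ⟨nat_lit 5, [⟨nat_lit 0, [⟨nat_lit 2, nat_lit 8640, nat_lit 3312, nat_lit 13728, nat_lit 9600, nat_lit 16800, R4_286, R11_200, R3_350⟩]⟩, ⟨nat_lit 1, [⟨nat_lit 2, nat_lit 9072, nat_lit 3888, nat_lit 9072, nat_lit 9792, nat_lit 12480, R3_189, R11_204, R10_260⟩]⟩]⟩], [], [], [], [⟨nat_lit 1, [⟨nat_lit 1, [⟨nat_lit 2, nat_lit 15840, nat_lit 13680, nat_lit 14112, nat_lit 6000, nat_lit 3408, R2_294, R1_125, R1_71⟩]⟩]⟩,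
 ⟨nat_lit 5, [⟨nat_lit 1, [⟨nat_lit 2, nat_lit 9120, nat_lit 3360, nat_lit 9120, nat_lit 9072, nat_lit 3360, R3_190, R11_189, R1_70⟩]⟩]⟩]]], [[], [], [], [], [[], [], [], [], [⟨nat_lit 4, [⟨nat_lit 5, [⟨nat_lit 0, nat_lit 1200, nat_lit 2256, nat_lit 9744, nat_lit 10992, nat_lit 1152, R7_203, R6_229, R8_24⟩, ⟨nat_lit 1, nat_lit 1680, nat_lit 7680, nat_lit 9936, nat_lit 11088, nat_lit 14016, R7_207, R8_231, R9_292⟩, ⟨nat_lit 2, nat_lit 1440, nat_lit 11568, nat_lit 9840, nat_lit 11808, nat_lit 14784, R7_205, R4_246, R5_308⟩]⟩]⟩,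
 ⟨nat_lit 5, [⟨nat_lit 5, [⟨nat_lit 0, nat_lit 7632, nat_lit 2352, nat_lit 8784, nat_lit 3888, nat_lit 1344, R2_183, R8_81, R8_28⟩, ⟨nat_lit 1, nat_lit 8208, nat_lit 7776, nat_lit 8976, nat_lit 11808, nat_lit 14112, R2_187, R9_246, R9_294⟩, ⟨nat_lit 2, nat_lit 7920, nat_lit 11664, nat_lit 8880, nat_lit 13632, nat_lit 14928, R2_185, R5_284, R5_311⟩]⟩]⟩,
 ⟨nat_lit 6, [⟨nat_lit 5, [⟨nat_lit 0, nat_lit 6384, nat_lit 2496, nat_lit 4128, nat_lit 2640, nat_lit 1248, R2_86, R4_55, R8_26⟩, ⟨nat_lit 1, nat_lit 6624, nat_lit 7920, nat_lit 4416, nat_lit 3024, nat_lit 14064, R2_92, R5_63, R9_293⟩]⟩]⟩], [⟨nat_lit 4, [⟨nat_lit 1, [⟨nat_lit 2, nat_lit 3168, nat_lit 19536, nat_lit 9552, nat_lit 11136, nat_lit 2784, R4_199, R4_232, R1_58⟩]⟩, ⟨nat_lit 5, [⟨nat_lit 0, nat_lit 1248, nat_lit 18576, nat_lit 9792, nat_lit 11280, nat_lit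 4464, R7_204, R6_235, R5_93⟩, ⟨nat_lit 1, nat_lit 1728, nat_lit 19056, nat_lit 9984, nat_lit 11664, nat_lit 12720, R7_208, R8_243, R0_265⟩, ⟨nat_lit 2, nat_lit 1488, nat_lit 19488, nat_lit 9888, nat_lit 11904, nat_lit 19104, R7_206, R4_248, R11_398⟩]⟩]⟩,
 ⟨nat_lit 5, [⟨nat_lit 1, [⟨nat_lit 2, nat_lit 9168, nat_lit 21216, nat_lit 15504, nat_lit 13872, nat_lit 3072, R3_323, R5_289, R1_64⟩]⟩, ⟨nat_lit 5, [⟨nat_lit 0, nat_lit 7680, nat_lit 19872, nat_lit 8832, nat_lit 11856, nat_lit 6048, R2_184, R8_247, R5_126⟩, ⟨nat_lit 1, nat_lit 8256, nat_lit 20544, nat_lit 9024, nat_lit 12432, nat_lit 12816, R2_188, R9_259, R0_267⟩, ⟨nat_lit 2, nat_lit 7968, nat_lit 21168, nat_lit 8928, nat_lit 13776, nat_lit 19248, R2_186, R5_287, R11_401⟩]⟩]⟩,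
 ⟨nat_lit 6, [⟨nat_lit 5, [⟨nat_lit 0, nat_lit 6432, nat_lit 21648, nat_lit 4176, nat_lit 11424, nat_lit 5232, R2_87, R4_238, R5_109⟩, ⟨nat_lit 1, nat_lit 6672, nat_lit 22032, nat_lit 4464, nat_lit 14160, nat_lit 12768, R2_93, R5_295, R0_266⟩]⟩]⟩]], [[], [], [], [], [], [⟨nat_lit 5, [⟨nat_lit 1, [⟨nat_lit 2, nat_lit 9216, nat_lit 16992, nat_lit 15552, nat_lit 16944, nat_lit 3312, R3_324, R11_353, R1_69⟩]⟩, ⟨nat_lit 5, [⟨nat_lit 0, nat_lit 7728, nat_lit 15648, nat_lit 9072, nat_lit 7440, nat_lit 6960, R2_189, R5_155, R5_145⟩, ⟨nat_lit 1, nat_lit 8304, nat_lit 16320, nat_lit 9168, nat_lit 10608, nat_lit 13776, R2_191, R0_221, R0_287⟩, ⟨nat_lit 2, nat_lit 8016, nat_lit 16944, nat_lit 9120, nat_lit 16848, nat_lit 20400, R2_190, R11_351, R11_425⟩]⟩]⟩]], [[], [], [], [], [⟨nat_lit 4, [⟨nat_lit 5, [⟨nat_lit 1, nat_lit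 1776, nat_lit 6528, nat_lit 10464, nat_lit 2784, nat_lit 14592, R7_218, R5_58, R9_304⟩]⟩]⟩,
 ⟨nat_lit 6, [⟨nat_lit 5, [⟨nat_lit 1, nat_lit 6720, nat_lit 6768, nat_lit 4608, nat_lit 2784, nat_lit 14640, R2_96, R11_58, R9_305⟩]⟩]⟩], [⟨nat_lit 4, [⟨nat_lit 5, [⟨nat_lit 1, nat_lit 1824, nat_lit 15984, nat_lit 10512, nat_lit 2880, nat_lit 13296, R7_219, R5_60, R0_277⟩]⟩]⟩,
 ⟨nat_lit 5, [⟨nat_lit 5, [⟨nat_lit 1, nat_lit 8400, nat_lit 16704, nat_lit 9600, nat_lit 10992, nat_lit 13440, R2_200, R0_229, R0_280⟩]⟩]⟩,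
 ⟨nat_lit 6, [⟨nat_lit 5, [⟨nat_lit 1, nat_lit 6768, nat_lit 17280, nat_lit 4656, nat_lit 2880, nat_lit 13344, R2_97, R11_60, R0_278⟩]⟩]⟩]], [[], [], [], [], [⟨nat_lit 4, [⟨nat_lit 5, [⟨nat_lit 0, nat_lit 1296, nat_lit 2400, nat_lit 10032, nat_lit 3888, nat_lit 7056, R7_209, R13_81, R8_147⟩, ⟨nat_lit 1, nat_lit 1920, nat_lit 10032, nat_lit 10368, nat_lit 2976, nat_lit 14352, R7_216, R9_62, R9_299⟩, ⟨nat_lit 2, nat_lit 1536, nat_lit 11088, nat_lit 10176, nat_lit 3408, nat_lit 15264, R7_212, R3_71, R5_318⟩]⟩]⟩,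
 ⟨nat_lit 6, [⟨nat_lit 5, [⟨nat_lit 0, nat_lit 6480, nat_lit 2832, nat_lit 4224, nat_lit 7008, nat_lit 7200, R2_88, R3_146, R8_150⟩]⟩]⟩], [⟨nat_lit 4, [⟨nat_lit 1, [⟨nat_lit 2, nat_lit 3216, nat_lit 2544, nat_lit 9600, nat_lit 2832, nat_lit 2880, R4_200, R3_59, R1_60⟩]⟩, ⟨nat_lit 5, [⟨nat_lit 0, nat_lit 1344, nat_lit 240, nat_lit 10080, nat_lit 3984, nat_lit 4848, R7_210, R13_83, R5_101⟩, ⟨nat_lit 1, nat_lit 1968, nat_lit 1296, nat_lit 10416, nat_lit 3024, nat_lit 13056, R7_217, R9_63, R0_272⟩, ⟨nat_lit 2, nat_lit 1584, nat_lit 2352, nat_lit 10224, nat_lit 3504, nat_lit 19584, R7_213, R3_73, R11_408⟩]⟩]⟩,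
 ⟨nat_lit 6, [⟨nat_lit 5, [⟨nat_lit 0, nat_lit 6528, nat_lit 10272, nat_lit 4272, nat_lit 7536, nat_lit 5424, R2_89, R3_157, R5_113⟩, ⟨nat_lit 1, nat_lit 6912, nat_lit 11040, nat_lit 4560, nat_lit 1488, nat_lit 13104, R2_95, R0_31, R0_273⟩]⟩]⟩], [], [⟨nat_lit 4, [⟨nat_lit 5, [⟨nat_lit 0, nat_lit 1392, nat_lit 1872, nat_lit 10128, nat_lit 3936, nat_lit 4032, R7_211, R13_82, R9_84⟩]⟩]⟩,
 ⟨nat_lit 6, [⟨nat_lit 5, [⟨nat_lit 0, nat_lit 6576, nat_lit 2304, nat_lit 4320, nat_lit 7200, nat_lit 4944, R2_90, R3_150, R9_103⟩]⟩]⟩]]], [[], [], [], [], [[], [⟨nat_lit 4, [⟨nat_lit 0, [⟨nat_lit 2, nat_lit 2928, nat_lit 3408, nat_lit 5568, nat_lit 4992, nat_lit 11424, R6_116, R4_104, R3_238⟩]⟩, ⟨nat_lit 1, [⟨nat_lit 2, nat_lit 3264, nat_lit 3936, nat_lit 8352, nat_lit 7632, nat_lit 8976, R8_174, R4_159, R10_187⟩]⟩, ⟨nat_lit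 3, [⟨nat_lit 2, nat_lit 3552, nat_lit 3696, nat_lit 5952, nat_lit 6192, nat_lit 2400, R4_124, R4_129, R0_50⟩]⟩]⟩,
 ⟨nat_lit 5, [⟨nat_lit 0, [⟨nat_lit 2, nat_lit 8688, nat_lit 11472, nat_lit 14592, nat_lit 11424, nat_lit 16416, R8_304, R5_238, R3_342⟩]⟩, ⟨nat_lit 1, [⟨nat_lit 2, nat_lit 9312, nat_lit 12288, nat_lit 9168, nat_lit 11760, nat_lit 9648, R9_191, R5_245, R10_201⟩]⟩, ⟨nat_lit 3, [⟨nat_lit 2, nat_lit 9504, nat_lit 11904, nat_lit 10512, nat_lit 11568, nat_lit 2688, R5_219, R5_241, R0_56⟩]⟩]⟩]], [[], [⟨nat_lit 5, [⟨nat_lit 0, [⟨nat_lit 2, nat_lit 8736, nat_lit 9888, nat_lit 14640, nat_lit 14400, nat_lit 16608, R8_305, R11_300, R3_346⟩]⟩, ⟨nat_lit 1, [⟨nat_lit 2, nat_lit 9360, nat_lit 9936, nat_lit 9216, nat_lit 14736, nat_lit 9744, R9_192, R11_307, R10_203⟩]⟩, ⟨nat_lit 3, [⟨nat_lit 2, nat_lit 9552, nat_lit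 9984, nat_lit 10560, nat_lit 14544, nat_lit 2784, R5_220, R11_303, R0_58⟩]⟩]⟩]], [], [[], [⟨nat_lit 4, [⟨nat_lit 0, [⟨nat_lit 2, nat_lit 2976, nat_lit 16032, nat_lit 6192, nat_lit 240, nat_lit 11520, R6_129, R3_5, R3_240⟩]⟩, ⟨nat_lit 1, [⟨nat_lit 2, nat_lit 3312, nat_lit 16176, nat_lit 8400, nat_lit 2496, nat_lit 9072, R8_175, R3_52, R10_189⟩]⟩, ⟨nat_lit 3, [⟨nat_lit 2, nat_lit 3600, nat_lit 16320, nat_lit 6528, nat_lit 960, nat_lit 2448, R4_136, R3_20, R0_51⟩]⟩]⟩,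
 ⟨nat_lit 5, [⟨nat_lit 0, [⟨nat_lit 2, nat_lit 8784, nat_lit 16080, nat_lit 14688, nat_lit 5712, nat_lit 16512, R8_306, R0_119, R3_344⟩]⟩, ⟨nat_lit 1, [⟨nat_lit 2, nat_lit 9408, nat_lit 16224, nat_lit 9264, nat_lit 7008, nat_lit 9696, R9_193, R0_146, R10_202⟩]⟩, ⟨nat_lit 3, [⟨nat_lit 2, nat_lit 9600, nat_lit 16368, nat_lit 10608, nat_lit 6240, nat_lit 2736, R5_221, R0_130, R0_57⟩]⟩]⟩,
 ⟨nat_lit 7, [⟨nat_lit 0, [⟨nat_lit 2, nat_lit 10464, nat_lit 16128, nat_lit 13296, nat_lit 7200, nat_lit 15312, R4_277, R10_150, R3_319⟩]⟩, ⟨nat_lit 1, [⟨nat_lit 2, nat_lit 10512, nat_lit 16272, nat_lit 16512, nat_lit 8592, nat_lit 9360, R5_344, R10_179, R10_195⟩]⟩]⟩], [], [], [], [⟨nat_lit 4, [⟨nat_lit 1, [⟨nat_lit 2, nat_lit 3360, nat_lit 1344, nat_lit 8448, nat_lit 2448, nat_lit 2928, R8_176, R3_51, R1_61⟩]⟩]⟩,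
 ⟨nat_lit 7, [⟨nat_lit 1, [⟨nat_lit 2, nat_lit 10560, nat_lit 6768, nat_lit 16464, nat_lit 8400, nat_lit 2976, R5_343, R10_175, R1_62⟩]⟩]⟩]]]]
noncomputable def N2101 : T3 (List N0) := [[[[⟨nat_lit 4, [⟨nat_lit 4, [⟨nat_lit 7, nat_lit 912, nat_lit 11760, nat_lit 11808, nat_lit 14592, nat_lit 4608, R6_246, R6_304, R13_96⟩]⟩, ⟨nat_lit 7, [⟨nat_lit 7, nat_lit 1056, nat_lit 12048, nat_lit 10464, nat_lit 14640, nat_lit 48, R13_218, R6_305, R3_1⟩]⟩]⟩,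
 ⟨nat_lit 6, [⟨nat_lit 4, [⟨nat_lit 4, nat_lit 7920, nat_lit 14688, nat_lit 12576, nat_lit 16416, nat_lit 576, R8_262, R6_342, R6_12⟩, ⟨nat_lit 7, nat_lit 9168, nat_lit 14880, nat_lit 12720, nat_lit 15552, nat_lit 4656, R8_265, R8_324, R13_97⟩]⟩, ⟨nat_lit 6, [⟨nat_lit 4, nat_lit 8064, nat_lit 16464, nat_lit 8064, nat_lit 16464, nat_lit 432, R5_168, R6_343, R8_9⟩, ⟨nat_lit 6, nat_lit 8784, nat_lit 17136, nat_lit 8160, nat_lit 15168, nat_lit 4656, R5_170, R4_316, R5_97⟩, ⟨nat_lit 7, nat_lit 9312, nat_lit 16800, nat_lit 8112, nat_lit 15648, nat_lit 3792, R5_169, R8_326, R9_79⟩]⟩, ⟨nat_lit 7, [⟨nat_lit 7, nat_lit 9408, nat_lit 15504, nat_lit 8016, nat_lit 15600, nat_lit 336, R9_167, R8_325, R3_7⟩]⟩]⟩,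
 ⟨nat_lit 7, [⟨nat_lit 7, [⟨nat_lit 3, nat_lit 12816, nat_lit 13056, nat_lit 11136, nat_lit 15888, nat_lit 3168, R3_232, R7_331, R2_66⟩, ⟨nat_lit 7, nat_lit 13104, nat_lit 13392, nat_lit 11472, nat_lit 14208, nat_lit 192, R3_239, R4_296, R3_4⟩]⟩]⟩], [⟨nat_lit 4, [⟨nat_lit 4, [⟨nat_lit 7, nat_lit 1008, nat_lit 12144, nat_lit 13584, nat_lit 15168, nat_lit 16032, R6_283, R6_316, R3_334⟩]⟩, ⟨nat_lit 7, [⟨nat_lit 7, nat_lit 1152, nat_lit 12288, nat_lit 10608, nat_lit 15216, nat_lit 2976, R13_221, R6_317, R10_62⟩]⟩]⟩,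
 ⟨nat_lit 6, [⟨nat_lit 4, [⟨nat_lit 4, nat_lit 8016, nat_lit 14256, nat_lit 13488, nat_lit 17088, nat_lit 8976, R8_281, R6_356, R4_187⟩, ⟨nat_lit 7, nat_lit 9264, nat_lit 14400, nat_lit 13776, nat_lit 16608, nat_lit 16368, R8_287, R8_346, R3_341⟩]⟩, ⟨nat_lit 6, [⟨nat_lit 4, nat_lit 8160, nat_lit 15168, nat_lit 8784, nat_lit 17136, nat_lit 4656, R5_183, R6_357, R5_97⟩, ⟨nat_lit 6, nat_lit 8880, nat_lit 15456, nat_lit 8880, nat_lit 15456, nat_lit 4656, R5_185, R4_322, R11_97⟩, ⟨nat_lit 7, nat_lit 9360, nat_lit 15312, nat_lit 8832, nat_lit 16704, nat_lit 2256, R5_184, R8_348, R0_47⟩]⟩, ⟨nat_lit 7, [⟨nat_lit 7, nat_lit 9504, nat_lit 14736, nat_lit 8256, nat_lit 16656, nat_lit 3072, R9_172, R8_347, R10_64⟩]⟩]⟩,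
 ⟨nat_lit 7, [⟨nat_lit 3, [⟨nat_lit 3, nat_lit 12768, nat_lit 12624, nat_lit 7728, nat_lit 16608, nat_lit 5616, R2_161, R7_346, R11_117⟩]⟩, ⟨nat_lit 7, [⟨nat_lit 3, nat_lit 12864, nat_lit 13152, nat_lit 15168, nat_lit 16560, nat_lit 2640, R3_316, R7_345, R1_55⟩, ⟨nat_lit 7, nat_lit 13200, nat_lit 13248, nat_lit 15264, nat_lit 14592, nat_lit 3024, R3_318, R4_304, R10_63⟩]⟩]⟩], [⟨nat_lit 4, [⟨nat_lit 4, [⟨nat_lit 7, nat_lit 960, nat_lit 12384, nat_lit 14928, nat_lit 15024, nat_lit 15984, R6_311, R6_313, R9_333⟩]⟩, ⟨nat_lit 7, [⟨nat_lit 7, nat_lit 1104, nat_lit 12528, nat_lit 10752, nat_lit 15072, nat_lit 144, R13_224, R6_314, R0_3⟩]⟩]⟩,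
 ⟨nat_lit 6, [⟨nat_lit 4, [⟨nat_lit 4, nat_lit 7968, nat_lit 15504, nat_lit 16752, nat_lit 16752, nat_lit 4560, R8_349, R6_349, R8_95⟩, ⟨nat_lit 7, nat_lit 9216, nat_lit 16176, nat_lit 17040, nat_lit 16368, nat_lit 16272, R8_355, R8_341, R9_339⟩]⟩, ⟨nat_lit 6, [⟨nat_lit 4, nat_lit 8112, nat_lit 15648, nat_lit 9312, nat_lit 16800, nat_lit 48, R5_194, R6_350, R9_1⟩, ⟨nat_lit 6, nat_lit 8832, nat_lit 16704, nat_lit 9360, nat_lit 15312, nat_lit 2256, R5_195, R4_319, R0_47⟩]⟩, ⟨nat_lit 7, [⟨nat_lit 7, nat_lit 9456, nat_lit 16320, nat_lit 8448, nat_lit 16416, nat_lit 7632, R9_176, R8_342, R0_159⟩]⟩]⟩,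
 ⟨nat_lit 7, [⟨nat_lit 7, [⟨nat_lit 7, nat_lit 13152, nat_lit 14304, nat_lit 16464, nat_lit 14496, nat_lit 5664, R3_343, R4_302, R0_118⟩]⟩]⟩]], [], [[], [], [⟨nat_lit 4, [⟨nat_lit 4, [⟨nat_lit 4, nat_lit 1776, nat_lit 8208, nat_lit 16512, nat_lit 9600, nat_lit 240, R6_344, R6_200, R8_5⟩, ⟨nat_lit 5, nat_lit 1968, nat_lit 8304, nat_lit 17184, nat_lit 10560, nat_lit 16848, R6_358, R4_220, R5_351⟩, ⟨nat_lit 7, nat_lit 2208, nat_lit 8256, nat_lit 16848, nat_lit 4656, nat_lit 16080, R6_351, R8_97, R9_335⟩]⟩, ⟨nat_lit 7, [⟨nat_lit 7, nat_lit 2256, nat_lit 10272, nat_lit 12672, nat_lit 5088, nat_lit 336, R13_264, R8_106, R0_7⟩]⟩]⟩,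
 ⟨nat_lit 6, [⟨nat_lit 4, [⟨nat_lit 4, nat_lit 10176, nat_lit 9552, nat_lit 16896, nat_lit 21552, nat_lit 4992, R8_352, R13_449, R8_104⟩, ⟨nat_lit 5, nat_lit 10656, nat_lit 9648, nat_lit 17424, nat_lit 17664, nat_lit 16944, R8_363, R3_368, R5_353⟩, ⟨nat_lit 7, nat_lit 11040, nat_lit 9600, nat_lit 17328, nat_lit 17952, nat_lit 16368, R8_361, R9_374, R9_341⟩]⟩, ⟨nat_lit 6, [⟨nat_lit 4, nat_lit 10224, nat_lit 11808, nat_lit 11520, nat_lit 21600, nat_lit 4416, R5_240, R13_450, R9_92⟩, ⟨nat_lit 5, nat_lit 10704, nat_lit 11856, nat_lit 11616, nat_lit 17712, nat_lit 2880, R5_242, R3_369, R0_60⟩, ⟨nat_lit 6, nat_lit 10512, nat_lit 11904, nat_lit 11568, nat_lit 9504, nat_lit 2688, R5_241, R3_198, R0_56⟩]⟩, ⟨nat_lit 7, [⟨nat_lit 7, nat_lit 11088, nat_lit 11136, nat_lit 9936, nat_lit 18000, nat_lit 7920, R9_207, R9_375,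 R0_165⟩]⟩]⟩,
 ⟨nat_lit 7, [⟨nat_lit 7, [⟨nat_lit 7, nat_lit 13488, nat_lit 10752, nat_lit 17760, nat_lit 17664, nat_lit 5760, R3_370, R5_368, R0_120⟩]⟩]⟩]], [[⟨nat_lit 4, [⟨nat_lit 4, [⟨nat_lit 7, nat_lit 3264, nat_lit 10512, nat_lit 12096, nat_lit 4944, nat_lit 5232, R6_252, R4_103, R13_109⟩]⟩, ⟨nat_lit 7, [⟨nat_lit 3, nat_lit 2592, nat_lit 11280, nat_lit 11136, nat_lit 5376, nat_lit 3552, R13_232, R7_112, R2_74⟩, ⟨nat_lit 7, nat_lit 3456, nat_lit 11232, nat_lit 11088, nat_lit 5472, nat_lit 3792, R13_231, R4_114, R3_79⟩]⟩]⟩,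
 ⟨nat_lit 6, [⟨nat_lit 4, [⟨nat_lit 7, nat_lit 11328, nat_lit 10848, nat_lit 12864, nat_lit 11328, nat_lit 5280, R8_268, R5_236, R13_110⟩]⟩, ⟨nat_lit 6, [⟨nat_lit 7, nat_lit 11520, nat_lit 12768, nat_lit 10224, nat_lit 11808, nat_lit 4224, R5_213, R5_246, R9_88⟩]⟩, ⟨nat_lit 7, [⟨nat_lit 7, nat_lit 11664, nat_lit 12432, nat_lit 8832, nat_lit 12192, nat_lit 3936, R9_184, R5_254, R3_82⟩]⟩]⟩,
 ⟨nat_lit 7, [⟨nat_lit 7, [⟨nat_lit 3, nat_lit 13824, nat_lit 11952, nat_lit 12048, nat_lit 21072, nat_lit 3600, R3_251, R14_439, R2_75⟩]⟩]⟩], [⟨nat_lit 4, [⟨nat_lit 4, [⟨nat_lit 7, nat_lit 3360, nat_lit 8544, nat_lit 13872, nat_lit 5088, nat_lit 16080, R6_289, R4_106, R3_335⟩]⟩, ⟨nat_lit 7, [⟨nat_lit 3, nat_lit 2640, nat_lit 8880, nat_lit 11616, nat_lit 5472, nat_lit 3024, R13_242, R7_114, R1_63⟩, ⟨nat_lit 7, nat_lit 3552,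 nat_lit 8832, nat_lit 11568, nat_lit 5568, nat_lit 3648, R13_241, R4_116, R10_76⟩]⟩]⟩,
 ⟨nat_lit 6, [⟨nat_lit 4, [⟨nat_lit 7, nat_lit 11424, nat_lit 8688, nat_lit 13920, nat_lit 11472, nat_lit 16416, R8_290, R5_239, R3_342⟩]⟩, ⟨nat_lit 6, [⟨nat_lit 7, nat_lit 11568, nat_lit 9504, nat_lit 10512, nat_lit 11904, nat_lit 2688, R5_219, R5_248, R0_56⟩]⟩, ⟨nat_lit 7, [⟨nat_lit 7, nat_lit 11760, nat_lit 9312, nat_lit 9168, nat_lit 12288, nat_lit 3696, R9_191, R5_256, R10_77⟩]⟩]⟩,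
 ⟨nat_lit 7, [⟨nat_lit 3, [⟨nat_lit 0, nat_lit 13632, nat_lit 7920, nat_lit 8880, nat_lit 11664, nat_lit 14928, R2_185, R7_243, R5_311⟩, ⟨nat_lit 3, nat_lit 13776, nat_lit 7968, nat_lit 8928, nat_lit 21168, nat_lit 5664, R2_186, R14_441, R11_118⟩]⟩, ⟨nat_lit 7, [⟨nat_lit 3, nat_lit 13872, nat_lit 9168, nat_lit 15504, nat_lit 21216, nat_lit 3072, R3_323, R14_442, R1_64⟩]⟩]⟩], [⟨nat_lit 4, [⟨nat_lit 4, [⟨nat_lit 7, nat_lit 3312, nat_lit 8064, nat_lit 15552, nat_lit 5040, nat_lit 16032, R6_324, R4_105, R9_334⟩]⟩, ⟨nat_lit 7, [⟨nat_lit 7, nat_lit 3504, nat_lit 8880, nat_lit 12288, nat_lit 5520, nat_lit 240, R13_256, R4_115, R0_5⟩]⟩]⟩,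
 ⟨nat_lit 6, [⟨nat_lit 4, [⟨nat_lit 7, nat_lit 11376, nat_lit 8544, nat_lit 17184, nat_lit 11376, nat_lit 16320, R8_358, R5_237, R9_340⟩]⟩, ⟨nat_lit 7, [⟨nat_lit 7, nat_lit 11712, nat_lit 9648, nat_lit 9552, nat_lit 12240, nat_lit 7776, R9_199, R5_255, R0_162⟩]⟩]⟩], [⟨nat_lit 4, [⟨nat_lit 4, [⟨nat_lit 7, nat_lit 3408, nat_lit 11424, nat_lit 13440, nat_lit 4992, nat_lit 2928, R6_280, R4_104, R3_61⟩]⟩, ⟨nat_lit 7, [⟨nat_lit 3, nat_lit 2688, nat_lit 11952, nat_lit 11856, nat_lit 5424, nat_lit 4032, R13_247, R7_113, R12_84⟩]⟩]⟩,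
 ⟨nat_lit 6, [⟨nat_lit 4, [⟨nat_lit 7, nat_lit 11472, nat_lit 16416, nat_lit 14592, nat_lit 11424, nat_lit 8688, R8_304, R5_238, R3_181⟩]⟩]⟩,
 ⟨nat_lit 7, [⟨nat_lit 7, [⟨nat_lit 3, nat_lit 13920, nat_lit 14640, nat_lit 14736, nat_lit 21120, nat_lit 4080, R3_307, R14_440, R12_85⟩]⟩]⟩]]], [[[⟨nat_lit 2, [⟨nat_lit 6, [⟨nat_lit 6, nat_lit 16320, nat_lit 10704, nat_lit 8208, nat_lit 17088, nat_lit 6336, R1_171, R7_356, R5_132⟩]⟩]⟩,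
 ⟨nat_lit 4, [⟨nat_lit 4, [⟨nat_lit 7, nat_lit 1200, nat_lit 7536, nat_lit 4656, nat_lit 15360, nat_lit 8400, R4_97, R6_320, R13_175⟩]⟩, ⟨nat_lit 7, [⟨nat_lit 7, nat_lit 1344, nat_lit 7584, nat_lit 384, nat_lit 15408, nat_lit 2256, R3_8, R6_321, R3_47⟩]⟩]⟩,
 ⟨nat_lit 6, [⟨nat_lit 4, [⟨nat_lit 4, nat_lit 8208, nat_lit 3168, nat_lit 1776, nat_lit 16512, nat_lit 2832, R5_37, R6_344, R6_59⟩, ⟨nat_lit 7, nat_lit 9552, nat_lit 7872, nat_lit 10176, nat_lit 16896, nat_lit 8448, R5_212, R8_352, R13_176⟩]⟩, ⟨nat_lit 6, [⟨nat_lit 4, nat_lit 8352, nat_lit 3216, nat_lit 10512, nat_lit 16560, nat_lit 576, R11_219, R6_345, R8_12⟩, ⟨nat_lit 6, nat_lit 8928, nat_lit 10800, nat_lit 10608, nat_lit 15216, nat_lit 6288, R11_221, R4_317, R5_131⟩, ⟨nat_lit 7, nat_lit 9696, nat_lit 7968, nat_lit 10560, nat_lit 16992, nat_lit 6096,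 R11_220, R8_354, R9_127⟩]⟩, ⟨nat_lit 7, [⟨nat_lit 7, nat_lit 9792, nat_lit 7920, nat_lit 7248, nat_lit 16944, nat_lit 2544, R0_151, R8_353, R3_53⟩]⟩]⟩,
 ⟨nat_lit 7, [⟨nat_lit 7, [⟨nat_lit 3, nat_lit 12960, nat_lit 14544, nat_lit 8880, nat_lit 16944, nat_lit 6384, R10_185, R7_353, R2_133⟩, ⟨nat_lit 7, nat_lit 13248, nat_lit 7680, nat_lit 8832, nat_lit 14688, nat_lit 2400, R10_184, R4_306, R3_50⟩]⟩]⟩], [⟨nat_lit 0, [⟨nat_lit 0, [⟨nat_lit 2, nat_lit 14304, nat_lit 1296, nat_lit 4704, nat_lit 15744, nat_lit 17376, R4_98, R6_328, R3_362⟩]⟩, ⟨nat_lit 2, [⟨nat_lit 2, nat_lit 14352, nat_lit 1440, nat_lit 432, nat_lit 15792, nat_lit 5664, R3_9, R6_329, R10_118⟩]⟩]⟩,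
 ⟨nat_lit 2, [⟨nat_lit 2, [⟨nat_lit 2, nat_lit 16224, nat_lit 13344, nat_lit 9264, nat_lit 14880, nat_lit 5712, R10_193, R4_310, R10_119⟩, ⟨nat_lit 6, nat_lit 16272, nat_lit 13008, nat_lit 9312, nat_lit 17184, nat_lit 5088, R10_194, R7_358, R1_106⟩]⟩, ⟨nat_lit 6, [⟨nat_lit 6, nat_lit 16416, nat_lit 12912, nat_lit 8256, nat_lit 17232, nat_lit 5952, R1_172, R7_359, R11_124⟩]⟩]⟩,
 ⟨nat_lit 3, [⟨nat_lit 0, [⟨nat_lit 0, nat_lit 16848, nat_lit 8304, nat_lit 1968, nat_lit 17184, nat_lit 10560, R5_41, R6_358, R4_220⟩, ⟨nat_lit 2, nat_lit 16944, nat_lit 9648, nat_lit 10656, nat_lit 17424, nat_lit 17664, R5_222, R8_363, R3_368⟩]⟩, ⟨nat_lit 2, [⟨nat_lit 2, nat_lit 16992, nat_lit 9888, nat_lit 7488, nat_lit 17472, nat_lit 5760, R0_156, R8_364, R10_120⟩]⟩, ⟨nat_lit 3, [⟨nat_lit 0, nat_lit 16896, nat_lit 8448, nat_lit 11232,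 nat_lit 17232, nat_lit 4704, R11_234, R6_359, R5_98⟩, ⟨nat_lit 2, nat_lit 17040, nat_lit 9744, nat_lit 11280, nat_lit 17520, nat_lit 3936, R11_235, R8_365, R0_82⟩, ⟨nat_lit 3, nat_lit 17088, nat_lit 9024, nat_lit 11328, nat_lit 15504, nat_lit 5904, R11_236, R4_323, R11_123⟩]⟩]⟩,
 ⟨nat_lit 4, [⟨nat_lit 4, [⟨nat_lit 7, nat_lit 1296, nat_lit 14304, nat_lit 4704, nat_lit 15744, nat_lit 17376, R4_98, R6_328, R3_362⟩]⟩, ⟨nat_lit 7, [⟨nat_lit 7, nat_lit 1440, nat_lit 14352, nat_lit 432, nat_lit 15792, nat_lit 5664, R3_9, R6_329, R10_118⟩]⟩]⟩,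
 ⟨nat_lit 6, [⟨nat_lit 4, [⟨nat_lit 4, nat_lit 8304, nat_lit 16848, nat_lit 1968, nat_lit 17184, nat_lit 10560, R5_41, R6_358, R4_220⟩, ⟨nat_lit 7, nat_lit 9648, nat_lit 16944, nat_lit 10656, nat_lit 17424, nat_lit 17664, R5_222, R8_363, R3_368⟩]⟩, ⟨nat_lit 6, [⟨nat_lit 4, nat_lit 8448, nat_lit 16896, nat_lit 11232, nat_lit 17232, nat_lit 4704, R11_234, R6_359, R5_98⟩, ⟨nat_lit 6, nat_lit 9024, nat_lit 17088, nat_lit 11328, nat_lit 15504, nat_lit 5904, R11_236, R4_323, R11_123⟩, ⟨nat_lit 7, nat_lit 9744, nat_lit 17040, nat_lit 11280, nat_lit 17520, nat_lit 3936, R11_235, R8_365, R0_82⟩]⟩, ⟨nat_lit 7, [⟨nat_lit 7, nat_lit 9888, nat_lit 16992, nat_lit 7488, nat_lit 17472, nat_lit 5760, R0_156, R8_364, R10_120⟩]⟩]⟩,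
 ⟨nat_lit 7, [⟨nat_lit 3, [⟨nat_lit 3, nat_lit 12912, nat_lit 16416, nat_lit 8256, nat_lit 17232, nat_lit 5952, R1_172, R7_359, R11_124⟩]⟩, ⟨nat_lit 7, [⟨nat_lit 3, nat_lit 13008, nat_lit 16272, nat_lit 9312, nat_lit 17184, nat_lit 5088, R10_194, R7_358, R1_106⟩, ⟨nat_lit 7, nat_lit 13344, nat_lit 16224, nat_lit 9264, nat_lit 14880, nat_lit 5712, R10_193, R4_310, R10_119⟩]⟩]⟩], [⟨nat_lit 2, [⟨nat_lit 6, [⟨nat_lit 6, nat_lit 16368, nat_lit 11136, nat_lit 8304, nat_lit 17136, nat_lit 12288, R1_173, R7_357, R0_256⟩]⟩]⟩,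
 ⟨nat_lit 4, [⟨nat_lit 4, [⟨nat_lit 7, nat_lit 1248, nat_lit 13200, nat_lit 4896, nat_lit 15648, nat_lit 17712, R4_102, R6_326, R9_369⟩]⟩, ⟨nat_lit 7, [⟨nat_lit 7, nat_lit 1392, nat_lit 13344, nat_lit 480, nat_lit 15696, nat_lit 1920, R3_10, R6_327, R0_40⟩]⟩]⟩,
 ⟨nat_lit 6, [⟨nat_lit 4, [⟨nat_lit 4, nat_lit 8256, nat_lit 16080, nat_lit 2208, nat_lit 16848, nat_lit 4656, R5_46, R6_351, R8_97⟩, ⟨nat_lit 7, nat_lit 9600, nat_lit 16368, nat_lit 11040, nat_lit 17328, nat_lit 17952, R5_230, R8_361, R9_374⟩]⟩, ⟨nat_lit 6, [⟨nat_lit 4, nat_lit 8400, nat_lit 16224, nat_lit 11760, nat_lit 16896, nat_lit 192, R11_245, R6_352, R9_4⟩, ⟨nat_lit 6, nat_lit 8976, nat_lit 16752, nat_lit 11808, nat_lit 15360, nat_lit 2352, R11_246, R4_320, R0_49⟩]⟩, ⟨nat_lit 7, [⟨nat_lit 7, nat_lit 9840, nat_lit 16512, nat_lit 7680, nat_lit 17376,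 nat_lit 9024, R0_160, R8_362, R0_188⟩]⟩]⟩,
 ⟨nat_lit 7, [⟨nat_lit 7, [⟨nat_lit 7, nat_lit 13296, nat_lit 15456, nat_lit 9504, nat_lit 14832, nat_lit 6960, R10_198, R4_309, R0_145⟩]⟩]⟩]], [[⟨nat_lit 2, [⟨nat_lit 6, [⟨nat_lit 6, nat_lit 16656, nat_lit 7488, nat_lit 8352, nat_lit 15360, nat_lit 7200, R1_174, R2_320, R5_150⟩]⟩]⟩], [⟨nat_lit 0, [⟨nat_lit 0, [⟨nat_lit 0, nat_lit 14496, nat_lit 7632, nat_lit 48, nat_lit 10800, nat_lit 4368, R4_1, R6_225, R4_91⟩, ⟨nat_lit 2, nat_lit 14688, nat_lit 8112, nat_lit 5280, nat_lit 21216, nat_lit 17472, R4_110, R13_442, R3_364⟩]⟩, ⟨nat_lit 2, [⟨nat_lit 2, nat_lit 14736, nat_lit 9840, nat_lit 4032, nat_lit 21264, nat_lit 5856, R3_84, R13_443, R10_122⟩]⟩]⟩,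
 ⟨nat_lit 2, [⟨nat_lit 2, [⟨nat_lit 2, nat_lit 16512, nat_lit 9936, nat_lit 9360, nat_lit 10512, nat_lit 5904, R10_195, R3_219, R10_123⟩, ⟨nat_lit 6, nat_lit 16608, nat_lit 9168, nat_lit 9408, nat_lit 15456, nat_lit 5136, R10_196, R2_322, R1_107⟩]⟩, ⟨nat_lit 6, [⟨nat_lit 6, nat_lit 16752, nat_lit 7104, nat_lit 8400, nat_lit 15504, nat_lit 6816, R1_175, R2_323, R11_142⟩]⟩]⟩,
 ⟨nat_lit 3, [⟨nat_lit 0, [⟨nat_lit 0, nat_lit 17184, nat_lit 7680, nat_lit 2064, nat_lit 9408, nat_lit 10656, R5_43, R8_196, R4_222⟩, ⟨nat_lit 2, nat_lit 17328, nat_lit 8160, nat_lit 10848, nat_lit 17568, nat_lit 17856, R5_226, R9_366, R3_372⟩]⟩, ⟨nat_lit 2, [⟨nat_lit 2, nat_lit 17376, nat_lit 9888, nat_lit 7536, nat_lit 17616, nat_lit 5952, R0_157, R9_367, R10_124⟩]⟩, ⟨nat_lit 3, [⟨nat_lit 0, nat_lit 17232, nat_lit 8448, nat_lit 11376,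 nat_lit 9888, nat_lit 6432, R11_237, R8_206, R5_134⟩, ⟨nat_lit 2, nat_lit 17424, nat_lit 8832, nat_lit 11424, nat_lit 17664, nat_lit 4032, R11_238, R9_368, R0_84⟩, ⟨nat_lit 3, nat_lit 17520, nat_lit 8592, nat_lit 11472, nat_lit 17520, nat_lit 6048, R11_239, R5_365, R11_126⟩]⟩]⟩], [⟨nat_lit 2, [⟨nat_lit 6, [⟨nat_lit 6, nat_lit 16704, nat_lit 9648, nat_lit 8448, nat_lit 15408, nat_lit 12672, R1_176, R2_321, R0_264⟩]⟩]⟩]], [[], [], [⟨nat_lit 2, [⟨nat_lit 6, [⟨nat_lit 6, nat_lit 16800, nat_lit 9840, nat_lit 8496, nat_lit 15696, nat_lit 12576, R1_177, R2_327, R0_262⟩]⟩]⟩,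
 ⟨nat_lit 4, [⟨nat_lit 4, [⟨nat_lit 4, nat_lit 1824, nat_lit 96, nat_lit 2016, nat_lit 9648, nat_lit 336, R4_42, R6_201, R8_7⟩, ⟨nat_lit 5, nat_lit 2016, nat_lit 5616, nat_lit 10944, nat_lit 10608, nat_lit 17568, R4_228, R4_221, R5_366⟩, ⟨nat_lit 7, nat_lit 2304, nat_lit 7392, nat_lit 7536, nat_lit 5424, nat_lit 17760, R4_157, R8_113, R9_370⟩]⟩, ⟨nat_lit 7, [⟨nat_lit 7, nat_lit 2352, nat_lit 7440, nat_lit 2592, nat_lit 5952, nat_lit 2016, R3_54, R8_124, R0_42⟩]⟩]⟩,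
 ⟨nat_lit 6, [⟨nat_lit 4, [⟨nat_lit 4, nat_lit 10272, nat_lit 336, nat_lit 2256, nat_lit 21648, nat_lit 5088, R5_47, R13_451, R8_106⟩, ⟨nat_lit 5, nat_lit 10752, nat_lit 5760, nat_lit 13488, nat_lit 17760, nat_lit 17664, R5_281, R3_370, R5_368⟩, ⟨nat_lit 7, nat_lit 11136, nat_lit 7920, nat_lit 11088, nat_lit 18048, nat_lit 18000, R5_231, R9_376, R9_375⟩]⟩, ⟨nat_lit 6, [⟨nat_lit 4, nat_lit 10320, nat_lit 384, nat_lit 14496, nat_lit 21696, nat_lit 4560, R11_302, R13_452, R9_95⟩, ⟨nat_lit 5, nat_lit 10800, nat_lit 5808, nat_lit 14592, nat_lit 17808, nat_lit 3024, R11_304, R3_371, R0_63⟩, ⟨nat_lit 6, nat_lit 10560, nat_lit 9984, nat_lit 14544, nat_lit 9552, nat_lit 2784, R11_303, R3_199, R0_58⟩]⟩, ⟨nat_lit 7, [⟨nat_lit 7, nat_lit 11184, nat_lit 7968, nat_lit 9072, nat_lit 18096, nat_lit 9168, R0_189, R9_377, R0_191⟩]⟩]⟩,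
 ⟨nat_lit 7, [⟨nat_lit 7, [⟨nat_lit 7, nat_lit 13536, nat_lit 7584, nat_lit 11856, nat_lit 17712, nat_lit 7056, R10_247, R5_369, R0_147⟩]⟩]⟩]], [[⟨nat_lit 4, [⟨nat_lit 4, [⟨nat_lit 7, nat_lit 3600, nat_lit 4368, nat_lit 5760, nat_lit 6144, nat_lit 8832, R4_120, R4_128, R13_184⟩]⟩, ⟨nat_lit 7, [⟨nat_lit 3, nat_lit 2784, nat_lit 5760, nat_lit 1776, nat_lit 6432, nat_lit 6528, R3_37, R7_134, R2_136⟩, ⟨nat_lit 7, nat_lit 3744, nat_lit 5376, nat_lit 1056, nat_lit 6672, nat_lit 7152, R3_22, R4_139, R3_149⟩]⟩]⟩,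
 ⟨nat_lit 6, [⟨nat_lit 4, [⟨nat_lit 7, nat_lit 11808, nat_lit 4416, nat_lit 10224, nat_lit 11520, nat_lit 8880, R5_213, R5_240, R13_185⟩]⟩, ⟨nat_lit 6, [⟨nat_lit 7, nat_lit 11952, nat_lit 7008, nat_lit 13488, nat_lit 11952, nat_lit 6768, R11_281, R5_249, R9_141⟩]⟩, ⟨nat_lit 7, [⟨nat_lit 7, nat_lit 12096, nat_lit 5424, nat_lit 8352, nat_lit 12336, nat_lit 7296, R0_174, R5_257, R3_152⟩]⟩]⟩,
 ⟨nat_lit 7, [⟨nat_lit 7, [⟨nat_lit 3, nat_lit 14016, nat_lit 5808, nat_lit 10464, nat_lit 21264, nat_lit 6576, R10_218, R14_443, R2_137⟩]⟩]⟩], [⟨nat_lit 3, [⟨nat_lit 0, [⟨nat_lit 0, nat_lit 17568, nat_lit 5616, nat_lit 2016, nat_lit 10944, nat_lit 10608, R5_42, R4_228, R4_221⟩, ⟨nat_lit 2, nat_lit 17664, nat_lit 5760, nat_lit 10752, nat_lit 13488, nat_lit 17760, R5_224, R5_281, R3_370⟩]⟩, ⟨nat_lit 2, [⟨nat_lit 2, nat_lit 17712,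 nat_lit 7056, nat_lit 7584, nat_lit 13536, nat_lit 5808, R0_158, R5_282, R10_121⟩]⟩, ⟨nat_lit 3, [⟨nat_lit 0, nat_lit 17616, nat_lit 5904, nat_lit 11520, nat_lit 11328, nat_lit 5376, R11_240, R4_236, R5_112⟩, ⟨nat_lit 2, nat_lit 17760, nat_lit 6288, nat_lit 11568, nat_lit 13584, nat_lit 3984, R11_241, R5_283, R0_83⟩]⟩]⟩,
 ⟨nat_lit 4, [⟨nat_lit 4, [⟨nat_lit 7, nat_lit 3648, nat_lit 2832, nat_lit 6000, nat_lit 6240, nat_lit 17424, R4_125, R4_130, R3_363⟩]⟩, ⟨nat_lit 7, [⟨nat_lit 3, nat_lit 2832, nat_lit 3600, nat_lit 1872, nat_lit 6528, nat_lit 5232, R3_39, R7_136, R1_109⟩, ⟨nat_lit 7, nat_lit 3792, nat_lit 3216, nat_lit 1104, nat_lit 6720, nat_lit 6192, R3_23, R4_140, R10_129⟩]⟩]⟩,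
 ⟨nat_lit 6, [⟨nat_lit 4, [⟨nat_lit 7, nat_lit 11856, nat_lit 2880, nat_lit 10704, nat_lit 11616, nat_lit 17712, R5_223, R5_242, R3_369⟩]⟩, ⟨nat_lit 6, [⟨nat_lit 7, nat_lit 12000, nat_lit 4848, nat_lit 13776, nat_lit 12048, nat_lit 4608, R11_287, R5_251, R0_96⟩]⟩, ⟨nat_lit 7, [⟨nat_lit 7, nat_lit 12144, nat_lit 3264, nat_lit 8688, nat_lit 12384, nat_lit 6240, R0_181, R5_258, R10_130⟩]⟩]⟩,
 ⟨nat_lit 7, [⟨nat_lit 3, [⟨nat_lit 0, nat_lit 13680, nat_lit 5952, nat_lit 9696, nat_lit 11760, nat_lit 15216, R1_202, R7_245, R5_317⟩, ⟨nat_lit 3, nat_lit 13968, nat_lit 6048, nat_lit 9744, nat_lit 21360, nat_lit 6000, R1_203, R14_445, R11_125⟩]⟩, ⟨nat_lit 7, [⟨nat_lit 3, nat_lit 14064, nat_lit 3648, nat_lit 10848, nat_lit 21408, nat_lit 5280, R10_226, R14_446, R1_110⟩]⟩]⟩]]], [[[⟨nat_lit 4, [⟨nat_lit 4, [⟨nat_lit 7, nat_lit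 1488, nat_lit 5184, nat_lit 8016, nat_lit 16176, nat_lit 6240, R8_167, R6_337, R13_130⟩]⟩, ⟨nat_lit 5, [⟨nat_lit 7, nat_lit 1584, nat_lit 6816, nat_lit 0, nat_lit 16272, nat_lit 4512, R5_0, R6_339, R3_94⟩]⟩, ⟨nat_lit 7, [⟨nat_lit 7, nat_lit 1680, nat_lit 6336, nat_lit 96, nat_lit 16224, nat_lit 768, R9_2, R6_338, R3_16⟩]⟩]⟩,
 ⟨nat_lit 6, [⟨nat_lit 4, [⟨nat_lit 4, nat_lit 8496, nat_lit 144, nat_lit 13488, nat_lit 16608, nat_lit 1152, R9_281, R6_346, R6_24⟩, ⟨nat_lit 7, nat_lit 9936, nat_lit 5376, nat_lit 13728, nat_lit 18000, nat_lit 6288, R9_286, R8_375, R13_131⟩]⟩]⟩], [], [⟨nat_lit 4, [⟨nat_lit 4, [⟨nat_lit 7, nat_lit 1536, nat_lit 8544, nat_lit 8688, nat_lit 16944, nat_lit 16848, R8_181, R6_353, R9_351⟩]⟩, ⟨nat_lit 5, [⟨nat_lit 7, nat_lit 1632, nat_lit 8736, nat_lit 48, nat_lit 17040, nat_lit 14448, R5_1,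 R6_355, R0_301⟩]⟩, ⟨nat_lit 7, [⟨nat_lit 7, nat_lit 1728, nat_lit 8640, nat_lit 144, nat_lit 16992, nat_lit 960, R9_3, R6_354, R0_20⟩]⟩]⟩,
 ⟨nat_lit 6, [⟨nat_lit 4, [⟨nat_lit 4, nat_lit 8544, nat_lit 1536, nat_lit 16848, nat_lit 16944, nat_lit 4608, R9_351, R6_353, R8_96⟩, ⟨nat_lit 7, nat_lit 9984, nat_lit 9984, nat_lit 17136, nat_lit 18912, nat_lit 17136, R9_357, R8_394, R9_357⟩]⟩, ⟨nat_lit 5, [⟨nat_lit 4, nat_lit 8736, nat_lit 1632, nat_lit 14448, nat_lit 17040, nat_lit 48, R0_301, R6_355, R5_1⟩, ⟨nat_lit 7, nat_lit 10128, nat_lit 10128, nat_lit 14736, nat_lit 18960, nat_lit 14736, R0_307, R8_395, R0_307⟩]⟩, ⟨nat_lit 6, [⟨nat_lit 4, nat_lit 8640, nat_lit 1728, nat_lit 960, nat_lit 16992, nat_lit 144, R0_20, R6_354, R9_3⟩, ⟨nat_lit 6, nat_lit 9120, nat_lit 13440, nat_lit 6192, nat_lit 15408, nat_lit 2304, R0_129,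 R4_321, R0_48⟩]⟩]⟩,
 ⟨nat_lit 7, [⟨nat_lit 7, [⟨nat_lit 7, nat_lit 13440, nat_lit 9120, nat_lit 2304, nat_lit 15408, nat_lit 6192, R0_48, R4_321, R0_129⟩]⟩]⟩]], [], [[], [], [⟨nat_lit 4, [⟨nat_lit 4, [⟨nat_lit 4, nat_lit 1872, nat_lit 10656, nat_lit 3552, nat_lit 9696, nat_lit 288, R8_74, R6_202, R8_6⟩, ⟨nat_lit 5, nat_lit 2064, nat_lit 10752, nat_lit 10848, nat_lit 10656, nat_lit 17184, R8_226, R4_222, R5_358⟩, ⟨nat_lit 7, nat_lit 2400, nat_lit 10704, nat_lit 8784, nat_lit 6384, nat_lit 16944, R8_183, R8_133, R9_353⟩]⟩, ⟨nat_lit 5, [⟨nat_lit 4, nat_lit 1920, nat_lit 12624, nat_lit 288, nat_lit 9744, nat_lit 4800, R5_6, R6_203, R5_100⟩, ⟨nat_lit 5, nat_lit 2112, nat_lit 12720, nat_lit 624, nat_lit 10704, nat_lit 21888, R5_13, R4_223, R11_456⟩, ⟨nat_lit 7, nat_lit 2448, nat_lit 12672, nat_lit 384, nat_lit 6864,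 nat_lit 14544, R5_8, R8_143, R0_303⟩]⟩, ⟨nat_lit 7, [⟨nat_lit 7, nat_lit 2496, nat_lit 13536, nat_lit 1200, nat_lit 6816, nat_lit 1152, R9_25, R8_142, R0_24⟩]⟩]⟩,
 ⟨nat_lit 6, [⟨nat_lit 4, [⟨nat_lit 4, nat_lit 10368, nat_lit 12000, nat_lit 16992, nat_lit 21744, nat_lit 5040, R9_354, R13_453, R8_105⟩, ⟨nat_lit 5, nat_lit 10848, nat_lit 12096, nat_lit 17568, nat_lit 17856, nat_lit 17328, R9_366, R3_372, R5_361⟩, ⟨nat_lit 7, nat_lit 11232, nat_lit 12048, nat_lit 17424, nat_lit 18144, nat_lit 17232, R9_363, R9_378, R9_359⟩]⟩, ⟨nat_lit 5, [⟨nat_lit 4, nat_lit 10464, nat_lit 13056, nat_lit 14592, nat_lit 21840, nat_lit 5088, R0_304, R13_455, R5_106⟩, ⟨nat_lit 5, nat_lit 10944, nat_lit 13152, nat_lit 15168, nat_lit 17952, nat_lit 22032, R0_316, R3_374, R11_459⟩, ⟨nat_lit 7, nat_lit 11280, nat_lit 13104, nat_lit 15024,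 nat_lit 18192, nat_lit 14832, R0_313, R9_379, R0_309⟩]⟩, ⟨nat_lit 6, [⟨nat_lit 4, nat_lit 10416, nat_lit 14784, nat_lit 1008, nat_lit 21792, nat_lit 4512, R0_21, R13_454, R9_94⟩, ⟨nat_lit 5, nat_lit 10896, nat_lit 14832, nat_lit 10320, nat_lit 17904, nat_lit 2976, R0_215, R3_373, R0_62⟩, ⟨nat_lit 6, nat_lit 10608, nat_lit 14880, nat_lit 6240, nat_lit 9600, nat_lit 2736, R0_130, R3_200, R0_57⟩]⟩]⟩,
 ⟨nat_lit 7, [⟨nat_lit 7, [⟨nat_lit 7, nat_lit 13584, nat_lit 14016, nat_lit 3984, nat_lit 17760, nat_lit 6288, R0_83, R5_370, R0_131⟩]⟩]⟩], [], [], [], [⟨nat_lit 4, [⟨nat_lit 5, [⟨nat_lit 5, nat_lit 2160, nat_lit 8688, nat_lit 576, nat_lit 10752, nat_lit 16032, R5_12, R4_224, R1_334⟩]⟩]⟩,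
 ⟨nat_lit 6, [⟨nat_lit 5, [⟨nat_lit 5, nat_lit 10992, nat_lit 8736, nat_lit 10032, nat_lit 17616, nat_lit 16128, R0_209, R3_367, R1_336⟩]⟩]⟩]], [[⟨nat_lit 4, [⟨nat_lit 4, [⟨nat_lit 7, nat_lit 3840, nat_lit 3888, nat_lit 8064, nat_lit 7584, nat_lit 6816, R8_168, R4_158, R13_142⟩]⟩, ⟨nat_lit 5, [⟨nat_lit 7, nat_lit 3984, nat_lit 5616, nat_lit 96, nat_lit 7968, nat_lit 5184, R5_2, R4_166, R3_108⟩]⟩, ⟨nat_lit 7, [⟨nat_lit 3, nat_lit 3024, nat_lit 6624, nat_lit 576, nat_lit 7920, nat_lit 4416, R9_12, R7_165, R2_92⟩, ⟨nat_lit 7, nat_lit 4128, nat_lit 6192, nat_lit 336, nat_lit 7872, nat_lit 6096, R9_7, R4_164, R3_127⟩]⟩]⟩,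
 ⟨nat_lit 6, [⟨nat_lit 4, [⟨nat_lit 7, nat_lit 12192, nat_lit 3936, nat_lit 13872, nat_lit 11664, nat_lit 6864, R9_289, R5_243, R13_143⟩]⟩]⟩], [], [⟨nat_lit 4, [⟨nat_lit 4, [⟨nat_lit 7, nat_lit 3888, nat_lit 7296, nat_lit 8736, nat_lit 7680, nat_lit 16896, R8_182, R4_160, R9_352⟩]⟩, ⟨nat_lit 5, [⟨nat_lit 7, nat_lit 4032, nat_lit 8016, nat_lit 192, nat_lit 8064, nat_lit 14496, R5_4, R4_168, R0_302⟩]⟩, ⟨nat_lit 7, [⟨nat_lit 7, nat_lit 4176, nat_lit 8400, nat_lit 384, nat_lit 7920, nat_lit 1056, R9_8, R4_165, R0_22⟩]⟩]⟩,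
 ⟨nat_lit 6, [⟨nat_lit 4, [⟨nat_lit 7, nat_lit 12240, nat_lit 7776, nat_lit 17280, nat_lit 11712, nat_lit 17184, R9_360, R5_244, R9_358⟩]⟩, ⟨nat_lit 5, [⟨nat_lit 7, nat_lit 12480, nat_lit 8160, nat_lit 14880, nat_lit 12624, nat_lit 14784, R0_310, R5_263, R0_308⟩]⟩]⟩], [⟨nat_lit 4, [⟨nat_lit 4, [⟨nat_lit 3, nat_lit 2928, nat_lit 9024, nat_lit 14880, nat_lit 7632, nat_lit 14976, R8_310, R7_159, R2_312⟩, ⟨nat_lit 7, nat_lit 3936, nat_lit 8976, nat_lit 8352, nat_lit 7632, nat_lit 3264, R8_174, R4_159, R3_68⟩]⟩, ⟨nat_lit 5, [⟨nat_lit 3, nat_lit 2976, nat_lit 9936, nat_lit 240, nat_lit 8016, nat_lit 15984, R5_5, R7_167, R1_333⟩, ⟨nat_lit 7, nat_lit 4080, nat_lit 9888, nat_lit 144, nat_lit 8016, nat_lit 19680, R5_3, R4_167, R10_410⟩]⟩, ⟨nat_lit 7, [⟨nat_lit 3, nat_lit 3072, nat_lit 10560, nat_lit 624, nat_lit 7968,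 nat_lit 4224, R9_13, R7_166, R12_88⟩]⟩]⟩,
 ⟨nat_lit 6, [⟨nat_lit 4, [⟨nat_lit 7, nat_lit 12288, nat_lit 9648, nat_lit 15648, nat_lit 11760, nat_lit 9312, R9_326, R5_245, R3_194⟩]⟩]⟩]], [[], [], [], [], [⟨nat_lit 4, [⟨nat_lit 5, [⟨nat_lit 1, nat_lit 0, nat_lit 6816, nat_lit 1584, nat_lit 7296, nat_lit 4512, R5_33, R6_152, R3_94⟩]⟩]⟩,
 ⟨nat_lit 5, [⟨nat_lit 5, [⟨nat_lit 0, nat_lit 4752, nat_lit 480, nat_lit 384, nat_lit 10416, nat_lit 960, R11_8, R6_217, R4_20⟩, ⟨nat_lit 1, nat_lit 5040, nat_lit 6864, nat_lit 1152, nat_lit 9504, nat_lit 4656, R11_24, R13_198, R3_97⟩]⟩]⟩], [], [], [⟨nat_lit 5, [⟨nat_lit 5, [⟨nat_lit 0, nat_lit 4800, nat_lit 1920, nat_lit 432, nat_lit 10464, nat_lit 288, R11_9, R6_218, R5_6⟩]⟩]⟩]], [], [[], [], [], [], [⟨nat_lit 4, [⟨nat_lit 5, [⟨nat_lit 1, nat_lit 96, nat_lit 5616, nat_lit 3984,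 nat_lit 7968, nat_lit 5184, R5_83, R4_166, R3_108⟩]⟩]⟩,
 ⟨nat_lit 5, [⟨nat_lit 5, [⟨nat_lit 1, nat_lit 5760, nat_lit 5712, nat_lit 3984, nat_lit 9984, nat_lit 5328, R11_83, R3_208, R3_111⟩]⟩]⟩], [], [⟨nat_lit 4, [⟨nat_lit 5, [⟨nat_lit 1, nat_lit 144, nat_lit 9888, nat_lit 4080, nat_lit 8016, nat_lit 19680, R5_85, R4_167, R10_410⟩]⟩]⟩,
 ⟨nat_lit 5, [⟨nat_lit 5, [⟨nat_lit 1, nat_lit 5808, nat_lit 9984, nat_lit 4080, nat_lit 10128, nat_lit 19728, R11_85, R3_211, R10_411⟩]⟩]⟩]], [[], [], [], [], [], [], [], [⟨nat_lit 4, [⟨nat_lit 5, [⟨nat_lit 0, nat_lit 288, nat_lit 12624, nat_lit 1920, nat_lit 9744, nat_lit 4800, R5_40, R6_203, R5_100⟩, ⟨nat_lit 3, nat_lit 624, nat_lit 12720, nat_lit 2112, nat_lit 10704, nat_lit 21888, R5_44, R4_223, R11_456⟩]⟩]⟩]]], [[], [], [], [[⟨nat_lit 4, [⟨nat_lit 7, [⟨nat_lit 3, nat_lit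 3168, nat_lit 13152, nat_lit 12432, nat_lit 6912, nat_lit 4944, R3_259, R7_144, R2_103⟩, ⟨nat_lit 7, nat_lit 4224, nat_lit 4944, nat_lit 4416, nat_lit 7200, nat_lit 5520, R3_92, R4_150, R3_115⟩]⟩]⟩,
 ⟨nat_lit 6, [⟨nat_lit 7, [⟨nat_lit 7, nat_lit 12576, nat_lit 5232, nat_lit 12000, nat_lit 12432, nat_lit 5664, R0_250, R5_259, R3_118⟩]⟩]⟩], [⟨nat_lit 4, [⟨nat_lit 3, [⟨nat_lit 3, nat_lit 3120, nat_lit 7776, nat_lit 336, nat_lit 7536, nat_lit 5712, R2_7, R7_157, R11_119⟩]⟩, ⟨nat_lit 7, [⟨nat_lit 3, nat_lit 3216, nat_lit 5376, nat_lit 12576, nat_lit 6960, nat_lit 3648, R3_262, R7_145, R1_76⟩, ⟨nat_lit 7, nat_lit 4320, nat_lit 4752, nat_lit 4464, nat_lit 7296, nat_lit 4320, R3_93, R4_152, R10_90⟩]⟩]⟩,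
 ⟨nat_lit 6, [⟨nat_lit 7, [⟨nat_lit 7, nat_lit 12672, nat_lit 4800, nat_lit 14112, nat_lit 12528, nat_lit 4368, R0_294, R5_261, R10_91⟩]⟩]⟩,
 ⟨nat_lit 7, [⟨nat_lit 3, [⟨nat_lit 0, nat_lit 13728, nat_lit 7440, nat_lit 7104, nat_lit 11712, nat_lit 15120, R12_148, R7_244, R5_315⟩, ⟨nat_lit 3, nat_lit 14256, nat_lit 7824, nat_lit 7152, nat_lit 21456, nat_lit 5760, R12_149, R14_447, R11_120⟩]⟩]⟩], [⟨nat_lit 4, [⟨nat_lit 7, [⟨nat_lit 7, nat_lit 4272, nat_lit 11904, nat_lit 4608, nat_lit 7248, nat_lit 480, R3_96, R4_151, R0_10⟩]⟩]⟩,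
 ⟨nat_lit 6, [⟨nat_lit 7, [⟨nat_lit 7, nat_lit 12624, nat_lit 14784, nat_lit 14880, nat_lit 12480, nat_lit 8160, R0_310, R5_260, R0_170⟩]⟩]⟩]], [], [], [], [[⟨nat_lit 4, [⟨nat_lit 7, [⟨nat_lit 3, nat_lit 768, nat_lit 5952, nat_lit 13680, nat_lit 10272, nat_lit 5520, R3_285, R4_214, R2_115⟩]⟩]⟩,
 ⟨nat_lit 5, [⟨nat_lit 7, [⟨nat_lit 3, nat_lit 7728, nat_lit 6000, nat_lit 1680, nat_lit 7008, nat_lit 5568, R10_35, R5_146, R2_116⟩]⟩]⟩], [], [], [⟨nat_lit 5, [⟨nat_lit 7, [⟨nat_lit 3, nat_lit 7824, nat_lit 7824, nat_lit 1728, nat_lit 7056, nat_lit 4464, R10_36, R5_147, R12_93⟩]⟩]⟩]]], [[], [], [], [], [[], [⟨nat_lit 5, [⟨nat_lit 0, [⟨nat_lit 0, nat_lit 4368, nat_lit 5664, nat_lit 5808, nat_lit 10176, nat_lit 14928, R4_121, R6_212, R4_311⟩]⟩]⟩], [], [], [], [⟨nat_lit 5, [⟨nat_lit 0, [⟨nat_lit 0, nat_lit 4416, nat_lit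 5520, nat_lit 12384, nat_lit 10512, nat_lit 17280, R4_258, R6_219, R7_360⟩]⟩, ⟨nat_lit 1, [⟨nat_lit 0, nat_lit 4464, nat_lit 5760, nat_lit 1248, nat_lit 10560, nat_lit 2256, R3_26, R6_220, R14_47⟩, ⟨nat_lit 1, nat_lit 4848, nat_lit 5856, nat_lit 1344, nat_lit 9600, nat_lit 480, R3_28, R13_200, R12_10⟩]⟩]⟩]], [[], [⟨nat_lit 1, [⟨nat_lit 0, [⟨nat_lit 0, nat_lit 14784, nat_lit 1440, nat_lit 5952, nat_lit 11568, nat_lit 11808, R7_124, R7_241, R4_246⟩, ⟨nat_lit 2, nat_lit 15264, nat_lit 1536, nat_lit 6048, nat_lit 11088, nat_lit 3408, R7_126, R2_231, R3_71⟩]⟩, ⟨nat_lit 3, [⟨nat_lit 0, nat_lit 14928, nat_lit 7920, nat_lit 8880, nat_lit 11664, nat_lit 13632, R2_185, R7_243, R5_284⟩]⟩]⟩,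
 ⟨nat_lit 5, [⟨nat_lit 0, [⟨nat_lit 0, nat_lit 5136, nat_lit 864, nat_lit 6432, nat_lit 11232, nat_lit 14976, R4_134, R4_234, R4_312⟩]⟩]⟩], [], [], [], [⟨nat_lit 1, [⟨nat_lit 0, [⟨nat_lit 0, nat_lit 14832, nat_lit 12480, nat_lit 13872, nat_lit 11808, nat_lit 12864, R7_289, R7_246, R7_268⟩, ⟨nat_lit 2, nat_lit 15312, nat_lit 12528, nat_lit 14016, nat_lit 10992, nat_lit 11568, R7_292, R2_229, R2_241⟩]⟩, ⟨nat_lit 1, [⟨nat_lit 0, nat_lit 14880, nat_lit 12864, nat_lit 13152, nat_lit 11904, nat_lit 3840, R2_274, R7_248, R14_80⟩, ⟨nat_lit 1, nat_lit 15840, nat_lit 12960, nat_lit 13440, nat_lit 10368, nat_lit 2208, R2_280, R2_216, R12_46⟩, ⟨nat_lit 2, nat_lit 15360, nat_lit 13104, nat_lit 13296, nat_lit 11424, nat_lit 2016, R2_277, R2_238, R12_42⟩]⟩]⟩,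
 ⟨nat_lit 5, [⟨nat_lit 0, [⟨nat_lit 0, nat_lit 5184, nat_lit 3984, nat_lit 12912, nat_lit 11376, nat_lit 17376, R4_269, R4_237, R7_362⟩]⟩, ⟨nat_lit 1, [⟨nat_lit 0, nat_lit 5232, nat_lit 4176, nat_lit 6432, nat_lit 11424, nat_lit 4224, R3_134, R4_238, R14_88⟩, ⟨nat_lit 1, nat_lit 5424, nat_lit 4272, nat_lit 6528, nat_lit 7536, nat_lit 2592, R3_136, R3_157, R12_54⟩]⟩]⟩]], [], [[], [], [], [], [], [⟨nat_lit 5, [⟨nat_lit 0, [⟨nat_lit 0, nat_lit 6000, nat_lit 7680, nat_lit 12576, nat_lit 10176, nat_lit 17328, R4_262, R8_212, R7_361⟩, ⟨nat_lit 3, nat_lit 6912, nat_lit 7824, nat_lit 12720, nat_lit 7392, nat_lit 14736, R4_265, R5_154, R2_307⟩]⟩]⟩]]], [[], [[], [⟨nat_lit 0, [⟨nat_lit 0, [⟨nat_lit 0, nat_lit 14400, nat_lit 6096, nat_lit 144, nat_lit 10848, nat_lit 4224, R7_3, R6_226, R4_88⟩, ⟨nat_lit 2, nat_lit 14544,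 nat_lit 6192, nat_lit 5088, nat_lit 21072, nat_lit 10608, R7_106, R13_439, R3_221⟩]⟩, ⟨nat_lit 2, [⟨nat_lit 2, nat_lit 14592, nat_lit 6672, nat_lit 3504, nat_lit 21120, nat_lit 6000, R2_73, R13_440, R10_125⟩]⟩, ⟨nat_lit 3, [⟨nat_lit 0, nat_lit 14448, nat_lit 6288, nat_lit 1536, nat_lit 10896, nat_lit 336, R2_32, R6_227, R5_7⟩, ⟨nat_lit 2, nat_lit 14640, nat_lit 6480, nat_lit 8592, nat_lit 21168, nat_lit 4176, R2_179, R13_441, R0_87⟩]⟩]⟩,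
 ⟨nat_lit 1, [⟨nat_lit 0, [⟨nat_lit 0, nat_lit 15984, nat_lit 6144, nat_lit 17088, nat_lit 11712, nat_lit 12000, R14_356, R4_244, R4_250⟩, ⟨nat_lit 2, nat_lit 16080, nat_lit 6240, nat_lit 17232, nat_lit 17184, nat_lit 10800, R14_359, R3_358, R3_225⟩]⟩, ⟨nat_lit 2, [⟨nat_lit 2, nat_lit 16128, nat_lit 6720, nat_lit 14976, nat_lit 17232, nat_lit 6096, R12_312, R3_359, R10_127⟩]⟩, ⟨nat_lit 3, [⟨nat_lit 0, nat_lit 16032, nat_lit 6336, nat_lit 7056, nat_lit 11760, nat_lit 12720, R12_147, R4_245, R5_265⟩, ⟨nat_lit 2, nat_lit 16176, nat_lit 6528, nat_lit 8640, nat_lit 17280, nat_lit 4272, R12_180, R3_360, R0_89⟩]⟩]⟩,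
 ⟨nat_lit 2, [⟨nat_lit 2, [⟨nat_lit 2, nat_lit 16464, nat_lit 6768, nat_lit 2976, nat_lit 10560, nat_lit 6048, R1_62, R3_220, R10_126⟩, ⟨nat_lit 6, nat_lit 16560, nat_lit 6624, nat_lit 13536, nat_lit 15312, nat_lit 5184, R1_282, R2_319, R1_108⟩]⟩]⟩,
 ⟨nat_lit 3, [⟨nat_lit 3, [⟨nat_lit 0, nat_lit 17136, nat_lit 6384, nat_lit 1008, nat_lit 9936, nat_lit 6528, R1_21, R8_207, R5_136⟩, ⟨nat_lit 2, nat_lit 17280, nat_lit 6576, nat_lit 9408, nat_lit 17520, nat_lit 4224, R1_196, R9_365, R0_88⟩, ⟨nat_lit 3, nat_lit 17472, nat_lit 6432, nat_lit 6432, nat_lit 17472, nat_lit 6144, R1_134, R5_364, R11_128⟩]⟩]⟩]], [], [], [], [[], [⟨nat_lit 1, [⟨nat_lit 0, [⟨nat_lit 0, nat_lit 14976, nat_lit 15696, nat_lit 17136, nat_lit 11616, nat_lit 11952, R14_357, R7_242, R4_249⟩, ⟨nat_lit 2, nat_lit 15456, nat_lit 15888, nat_lit 17280,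 nat_lit 11136, nat_lit 10896, R14_360, R2_232, R3_227⟩]⟩, ⟨nat_lit 2, [⟨nat_lit 2, nat_lit 15552, nat_lit 18096, nat_lit 14928, nat_lit 11232, nat_lit 6144, R12_311, R2_234, R10_128⟩]⟩, ⟨nat_lit 3, [⟨nat_lit 0, nat_lit 15120, nat_lit 16560, nat_lit 7104, nat_lit 11712, nat_lit 13728, R12_148, R7_244, R5_286⟩, ⟨nat_lit 2, nat_lit 15696, nat_lit 16752, nat_lit 8736, nat_lit 11328, nat_lit 4320, R12_182, R2_236, R0_90⟩]⟩]⟩], [], [], [], [⟨nat_lit 1, [⟨nat_lit 0, [⟨nat_lit 0, nat_lit 15024, nat_lit 13824, nat_lit 16608, nat_lit 11856, nat_lit 13056, R14_346, R7_247, R7_272⟩, ⟨nat_lit 2, nat_lit 15504, nat_lit 13872, nat_lit 16752, nat_lit 11040, nat_lit 11712, R14_349, R2_230, R2_244⟩]⟩, ⟨nat_lit 1, [⟨nat_lit 0, nat_lit 15072, nat_lit 14208, nat_lit 14016, nat_lit 11952, nat_lit 3936, R12_292, R7_249, R14_82⟩, ⟨nat_lit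 1, nat_lit 15888, nat_lit 14304, nat_lit 14592, nat_lit 10416, nat_lit 2304, R12_304, R2_217, R12_48⟩, ⟨nat_lit 2, nat_lit 15648, nat_lit 14448, nat_lit 14160, nat_lit 11472, nat_lit 2112, R12_295, R2_239, R12_44⟩]⟩, ⟨nat_lit 2, [⟨nat_lit 2, nat_lit 15600, nat_lit 15072, nat_lit 15168, nat_lit 11184, nat_lit 12144, R12_316, R2_233, R1_253⟩]⟩]⟩]]], [[], [], [], [], [[], [], [], [], [⟨nat_lit 5, [⟨nat_lit 1, [⟨nat_lit 0, nat_lit 4512, nat_lit 1104, nat_lit 1296, nat_lit 10320, nat_lit 1632, R10_27, R6_215, R7_34⟩, ⟨nat_lit 1, nat_lit 4896, nat_lit 7104, nat_lit 1392, nat_lit 9696, nat_lit 192, R10_29, R13_202, R2_4⟩]⟩]⟩], [⟨nat_lit 5, [⟨nat_lit 1, [⟨nat_lit 0, nat_lit 4560, nat_lit 15840, nat_lit 1344, nat_lit 10608, nat_lit 2304, R10_28, R6_221, R14_48⟩, ⟨nat_lit 1, nat_lit 4944, nat_lit 16368, nat_lit 1440,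 nat_lit 9744, nat_lit 528, R10_30, R13_203, R12_11⟩]⟩]⟩]], [[], [], [], [], [], [⟨nat_lit 5, [⟨nat_lit 1, [⟨nat_lit 0, nat_lit 5280, nat_lit 12912, nat_lit 1488, nat_lit 11472, nat_lit 4272, R10_31, R4_239, R14_89⟩, ⟨nat_lit 1, nat_lit 5472, nat_lit 13440, nat_lit 1536, nat_lit 7584, nat_lit 2640, R10_32, R3_158, R12_55⟩]⟩]⟩]], [[], [], [], [], [⟨nat_lit 5, [⟨nat_lit 1, [⟨nat_lit 1, nat_lit 5520, nat_lit 5328, nat_lit 1920, nat_lit 9888, nat_lit 5904, R10_40, R3_206, R2_123⟩]⟩]⟩], [⟨nat_lit 5, [⟨nat_lit 1, [⟨nat_lit 1, nat_lit 5616, nat_lit 13536, nat_lit 1968, nat_lit 10224, nat_lit 672, R10_41, R3_213, R12_14⟩]⟩]⟩]], [[], [], [], [], [⟨nat_lit 5, [⟨nat_lit 1, [⟨nat_lit 0, nat_lit 6096, nat_lit 288, nat_lit 1584, nat_lit 9984, nat_lit 8256, R10_33, R8_208, R7_172⟩, ⟨nat_lit 3, nat_lit 7008, nat_lit 6000, nat_lit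 1680, nat_lit 7728, nat_lit 5568, R10_35, R5_161, R2_116⟩]⟩]⟩]]], [[], [], [], [], [[], [⟨nat_lit 5, [⟨nat_lit 0, [⟨nat_lit 0, nat_lit 4656, nat_lit 8160, nat_lit 8784, nat_lit 10224, nat_lit 15168, R5_183, R6_213, R4_316⟩]⟩, ⟨nat_lit 3, [⟨nat_lit 0, nat_lit 4704, nat_lit 8448, nat_lit 1968, nat_lit 10272, nat_lit 16896, R11_41, R6_214, R5_352⟩]⟩]⟩]], [], [], [[], [⟨nat_lit 5, [⟨nat_lit 0, [⟨nat_lit 0, nat_lit 6288, nat_lit 8400, nat_lit 8928, nat_lit 9840, nat_lit 15216, R5_186, R8_205, R4_317⟩]⟩, ⟨nat_lit 3, [⟨nat_lit 0, nat_lit 6432, nat_lit 8448, nat_lit 2064, nat_lit 9888, nat_lit 17232, R11_43, R8_206, R5_359⟩, ⟨nat_lit 3, nat_lit 7296, nat_lit 8496, nat_lit 2112, nat_lit 7584, nat_lit 6096, R11_44, R5_158, R11_127⟩]⟩]⟩]]]]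
noncomputable def N2122 : T3 (List N0) := [[[[⟨nat_lit 7, [⟨nat_lit 3, [⟨nat_lit 3, nat_lit 9456, nat_lit 12528, nat_lit 7632, nat_lit 14496, nat_lit 11280, R2_159, R2_302, R3_235⟩]⟩]⟩], [⟨nat_lit 7, [⟨nat_lit 3, [⟨nat_lit 3, nat_lit 9792, nat_lit 12864, nat_lit 7968, nat_lit 15600, nat_lit 12480, R2_166, R2_325, R0_260⟩]⟩]⟩], [⟨nat_lit 7, [⟨nat_lit 3, [⟨nat_lit 3, nat_lit 9696, nat_lit 14976, nat_lit 8112, nat_lit 15072, nat_lit 9168, R2_169, R2_314, R10_191⟩]⟩]⟩]], [], [], [[⟨nat_lit 7, [⟨nat_lit 3, [⟨nat_lit 0, nat_lit 1296, nat_lit 10224, nat_lit 8640, nat_lit 3648, nat_lit 11424, R2_180, R2_76, R13_238⟩, ⟨nat_lit 1, nat_lit 6432, nat_lit 10320, nat_lit 8736, nat_lit 3120, nat_lit 9024, R2_182, R1_65, R3_188⟩, ⟨nat_lit 3, nat_lit 10656, nat_lit 10272, nat_lit 8688, nat_lit 16128, nat_lit 12240, R2_181, R12_336,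 R3_255⟩]⟩]⟩], [⟨nat_lit 7, [⟨nat_lit 3, [⟨nat_lit 0, nat_lit 1536, nat_lit 8352, nat_lit 9552, nat_lit 6624, nat_lit 5952, R2_199, R2_138, R9_124⟩, ⟨nat_lit 1, nat_lit 6576, nat_lit 8448, nat_lit 9648, nat_lit 5328, nat_lit 3792, R2_201, R1_111, R0_79⟩, ⟨nat_lit 3, nat_lit 10992, nat_lit 8400, nat_lit 9600, nat_lit 16704, nat_lit 13440, R2_200, R12_348, R0_280⟩]⟩]⟩], [⟨nat_lit 7, [⟨nat_lit 3, [⟨nat_lit 0, nat_lit 1440, nat_lit 7872, nat_lit 10176, nat_lit 4512, nat_lit 6864, R2_212, R2_94, R3_143⟩, ⟨nat_lit 3, nat_lit 10896, nat_lit 7920, nat_lit 10224, nat_lit 16416, nat_lit 10656, R2_213, R12_342, R10_222⟩]⟩]⟩]]], [[[⟨nat_lit 3, [⟨nat_lit 0, [⟨nat_lit 0, nat_lit 144, nat_lit 12768, nat_lit 1104, nat_lit 20064, nat_lit 15072, R5_23, R13_418, R6_314⟩, ⟨nat_lit 1, nat_lit 5664, nat_lit 13824, nat_lit 13152, nat_lit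 16464, nat_lit 14496, R5_274, R3_343, R4_302⟩, ⟨nat_lit 2, nat_lit 7632, nat_lit 17088, nat_lit 9456, nat_lit 16416, nat_lit 18768, R5_197, R9_342, R8_391⟩]⟩, ⟨nat_lit 2, [⟨nat_lit 2, nat_lit 7680, nat_lit 17376, nat_lit 9024, nat_lit 16512, nat_lit 9840, R0_188, R9_344, R5_205⟩]⟩, ⟨nat_lit 3, [⟨nat_lit 0, nat_lit 192, nat_lit 12912, nat_lit 14304, nat_lit 20112, nat_lit 10944, R11_298, R13_419, R13_228⟩, ⟨nat_lit 1, nat_lit 5712, nat_lit 13968, nat_lit 14448, nat_lit 16512, nat_lit 8784, R11_301, R3_344, R3_183⟩, ⟨nat_lit 2, nat_lit 7728, nat_lit 17232, nat_lit 14352, nat_lit 16464, nat_lit 8640, R11_299, R9_343, R9_180⟩, ⟨nat_lit 3, nat_lit 9888, nat_lit 14640, nat_lit 14400, nat_lit 8736, nat_lit 16608, R11_300, R3_182, R3_346⟩]⟩]⟩,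
 ⟨nat_lit 7, [⟨nat_lit 3, [⟨nat_lit 3, nat_lit 9504, nat_lit 14736, nat_lit 8160, nat_lit 14640, nat_lit 16272, R1_170, R2_305, R3_339⟩]⟩]⟩], [⟨nat_lit 3, [⟨nat_lit 0, [⟨nat_lit 0, nat_lit 336, nat_lit 10272, nat_lit 2256, nat_lit 21648, nat_lit 9168, R5_47, R13_451, R8_191⟩, ⟨nat_lit 1, nat_lit 5760, nat_lit 10752, nat_lit 13488, nat_lit 17760, nat_lit 17664, R5_281, R3_370, R5_368⟩, ⟨nat_lit 2, nat_lit 7920, nat_lit 11136, nat_lit 11088, nat_lit 18048, nat_lit 18000, R5_231, R9_376, R9_375⟩]⟩, ⟨nat_lit 2, [⟨nat_lit 2, nat_lit 7968, nat_lit 11184, nat_lit 9072, nat_lit 18096, nat_lit 9168, R0_189, R9_377, R0_191⟩]⟩, ⟨nat_lit 3, [⟨nat_lit 0, nat_lit 384, nat_lit 10320, nat_lit 14496, nat_lit 21696, nat_lit 4560, R11_302, R13_452, R9_95⟩, ⟨nat_lit 1, nat_lit 5808, nat_lit 10800, nat_lit 14592, nat_lit 17808,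 nat_lit 3024, R11_304, R3_371, R0_63⟩, ⟨nat_lit 3, nat_lit 9984, nat_lit 10560, nat_lit 14544, nat_lit 9552, nat_lit 2784, R11_303, R3_199, R0_58⟩]⟩]⟩,
 ⟨nat_lit 7, [⟨nat_lit 3, [⟨nat_lit 3, nat_lit 9840, nat_lit 16800, nat_lit 8496, nat_lit 15696, nat_lit 12576, R1_177, R2_327, R0_262⟩]⟩]⟩], [⟨nat_lit 0, [⟨nat_lit 0, [⟨nat_lit 0, nat_lit 48, nat_lit 2160, nat_lit 2160, nat_lit 9408, nat_lit 288, R4_45, R6_196, R4_6⟩, ⟨nat_lit 2, nat_lit 7296, nat_lit 2592, nat_lit 7680, nat_lit 5376, nat_lit 3888, R4_160, R8_112, R5_81⟩]⟩, ⟨nat_lit 2, [⟨nat_lit 2, nat_lit 7344, nat_lit 2640, nat_lit 2640, nat_lit 5904, nat_lit 12240, R3_55, R8_123, R11_255⟩]⟩]⟩,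
 ⟨nat_lit 2, [⟨nat_lit 2, [⟨nat_lit 2, nat_lit 7536, nat_lit 11568, nat_lit 11904, nat_lit 17376, nat_lit 12336, R10_248, R5_362, R11_257⟩]⟩]⟩,
 ⟨nat_lit 3, [⟨nat_lit 0, [⟨nat_lit 0, nat_lit 240, nat_lit 8880, nat_lit 3504, nat_lit 20880, nat_lit 5520, R5_73, R13_435, R4_115⟩, ⟨nat_lit 2, nat_lit 7776, nat_lit 9648, nat_lit 11712, nat_lit 17280, nat_lit 12240, R5_244, R9_360, R5_255⟩]⟩, ⟨nat_lit 2, [⟨nat_lit 2, nat_lit 7824, nat_lit 9744, nat_lit 9120, nat_lit 17376, nat_lit 12288, R0_190, R9_362, R11_256⟩]⟩, ⟨nat_lit 3, [⟨nat_lit 0, nat_lit 288, nat_lit 8928, nat_lit 14640, nat_lit 20928, nat_lit 4128, R11_305, R13_436, R3_86⟩, ⟨nat_lit 2, nat_lit 7872, nat_lit 9696, nat_lit 14688, nat_lit 17328, nat_lit 7872, R11_306, R9_361, R0_164⟩, ⟨nat_lit 3, nat_lit 9936, nat_lit 9216, nat_lit 14736, nat_lit 9360, nat_lit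 9744, R11_307, R3_195, R10_203⟩]⟩]⟩,
 ⟨nat_lit 7, [⟨nat_lit 3, [⟨nat_lit 3, nat_lit 9744, nat_lit 15936, nat_lit 8640, nat_lit 15216, nat_lit 9792, R1_180, R2_317, R10_204⟩]⟩]⟩]], [[⟨nat_lit 0, [⟨nat_lit 0, [⟨nat_lit 0, nat_lit 576, nat_lit 8592, nat_lit 2448, nat_lit 816, nat_lit 16656, R4_51, R8_17, R6_347⟩, ⟨nat_lit 1, nat_lit 5856, nat_lit 9072, nat_lit 11280, nat_lit 5328, nat_lit 15264, R4_235, R5_111, R4_318⟩, ⟨nat_lit 2, nat_lit 8304, nat_lit 10032, nat_lit 7776, nat_lit 4704, nat_lit 18048, R4_162, R9_98, R8_376⟩]⟩, ⟨nat_lit 2, [⟨nat_lit 2, nat_lit 8352, nat_lit 12336, nat_lit 7296, nat_lit 5088, nat_lit 12096, R3_152, R9_106, R5_252⟩]⟩]⟩,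
 ⟨nat_lit 2, [⟨nat_lit 2, [⟨nat_lit 2, nat_lit 8688, nat_lit 12384, nat_lit 11952, nat_lit 3264, nat_lit 12144, R10_249, R0_68, R5_253⟩]⟩]⟩,
 ⟨nat_lit 3, [⟨nat_lit 0, [⟨nat_lit 0, nat_lit 960, nat_lit 8640, nat_lit 1728, nat_lit 3840, nat_lit 16992, R5_36, R9_80, R6_354⟩, ⟨nat_lit 1, nat_lit 6192, nat_lit 9120, nat_lit 13440, nat_lit 2304, nat_lit 15408, R5_280, R0_48, R4_321⟩]⟩, ⟨nat_lit 3, [⟨nat_lit 0, nat_lit 1008, nat_lit 10416, nat_lit 14784, nat_lit 4272, nat_lit 12864, R11_308, R9_89, R13_268⟩, ⟨nat_lit 1, nat_lit 6240, nat_lit 10608, nat_lit 14880, nat_lit 2736, nat_lit 9600, R11_310, R0_57, R3_200⟩, ⟨nat_lit 3, nat_lit 10320, nat_lit 10896, nat_lit 14832, nat_lit 2976, nat_lit 17904, R11_309, R0_62, R3_373⟩]⟩]⟩], [⟨nat_lit 0, [⟨nat_lit 0, [⟨nat_lit 0, nat_lit 672, nat_lit 11040, nat_lit 2496, nat_lit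 960, nat_lit 4368, R4_52, R8_20, R8_91⟩, ⟨nat_lit 1, nat_lit 5904, nat_lit 11520, nat_lit 11328, nat_lit 5376, nat_lit 17616, R4_236, R5_112, R5_367⟩, ⟨nat_lit 2, nat_lit 8496, nat_lit 12480, nat_lit 7824, nat_lit 4800, nat_lit 17856, R4_163, R9_100, R9_372⟩]⟩, ⟨nat_lit 2, [⟨nat_lit 2, nat_lit 8592, nat_lit 15312, nat_lit 7344, nat_lit 5184, nat_lit 2064, R3_153, R9_108, R0_43⟩]⟩]⟩,
 ⟨nat_lit 2, [⟨nat_lit 2, [⟨nat_lit 2, nat_lit 8784, nat_lit 15360, nat_lit 12000, nat_lit 3408, nat_lit 7104, R10_250, R0_71, R0_148⟩]⟩]⟩,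
 ⟨nat_lit 3, [⟨nat_lit 0, [⟨nat_lit 0, nat_lit 1152, nat_lit 11088, nat_lit 2496, nat_lit 6144, nat_lit 9264, R5_52, R9_128, R8_193⟩, ⟨nat_lit 1, nat_lit 6288, nat_lit 11568, nat_lit 13584, nat_lit 3984, nat_lit 17760, R5_283, R0_83, R5_370⟩]⟩, ⟨nat_lit 3, [⟨nat_lit 0, nat_lit 1200, nat_lit 13680, nat_lit 14928, nat_lit 6816, nat_lit 7152, R11_311, R9_142, R9_149⟩, ⟨nat_lit 1, nat_lit 6336, nat_lit 13872, nat_lit 15024, nat_lit 4656, nat_lit 4992, R11_313, R0_97, R0_104⟩, ⟨nat_lit 3, nat_lit 10416, nat_lit 14160, nat_lit 14976, nat_lit 4896, nat_lit 4752, R11_312, R0_102, R0_99⟩]⟩]⟩], [⟨nat_lit 0, [⟨nat_lit 0, [⟨nat_lit 0, nat_lit 624, nat_lit 624, nat_lit 2592, nat_lit 912, nat_lit 2592, R4_54, R8_19, R4_54⟩, ⟨nat_lit 2, nat_lit 8400, nat_lit 1056, nat_lit 7920, nat_lit 4752, nat_lit 4176, R4_165, R9_99, R5_87⟩]⟩,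 ⟨nat_lit 2, [⟨nat_lit 2, nat_lit 8448, nat_lit 1104, nat_lit 7392, nat_lit 5136, nat_lit 15072, R3_154, R9_107, R11_314⟩]⟩]⟩,
 ⟨nat_lit 2, [⟨nat_lit 2, [⟨nat_lit 2, nat_lit 8736, nat_lit 10368, nat_lit 12048, nat_lit 3360, nat_lit 15120, R10_251, R0_70, R11_315⟩]⟩]⟩,
 ⟨nat_lit 3, [⟨nat_lit 0, [⟨nat_lit 0, nat_lit 1056, nat_lit 8400, nat_lit 4176, nat_lit 4752, nat_lit 7920, R5_87, R9_99, R4_165⟩]⟩, ⟨nat_lit 3, [⟨nat_lit 0, nat_lit 1104, nat_lit 8448, nat_lit 15072, nat_lit 5136, nat_lit 7392, R11_314, R9_107, R3_154⟩, ⟨nat_lit 3, nat_lit 10368, nat_lit 8736, nat_lit 15120, nat_lit 3360, nat_lit 12048, R11_315, R0_70, R10_251⟩]⟩]⟩]], [[], [], [⟨nat_lit 0, [⟨nat_lit 0, [⟨nat_lit 0, nat_lit 432, nat_lit 11664, nat_lit 2880, nat_lit 1200, nat_lit 864, R4_60, R4_25, R4_18⟩, ⟨nat_lit 2, nat_lit 8016, nat_lit 14496,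 nat_lit 8064, nat_lit 192, nat_lit 4032, R4_168, R5_4, R5_84⟩]⟩, ⟨nat_lit 2, [⟨nat_lit 2, nat_lit 8064, nat_lit 14640, nat_lit 10176, nat_lit 5856, nat_lit 13296, R3_212, R5_122, R11_277⟩]⟩]⟩,
 ⟨nat_lit 2, [⟨nat_lit 2, [⟨nat_lit 2, nat_lit 8112, nat_lit 15216, nat_lit 12096, nat_lit 22080, nat_lit 13392, R10_252, R11_460, R11_279⟩, ⟨nat_lit 6, nat_lit 14304, nat_lit 10080, nat_lit 12144, nat_lit 16272, nat_lit 8928, R10_253, R1_339, R1_186⟩]⟩, ⟨nat_lit 6, [⟨nat_lit 6, nat_lit 14256, nat_lit 10224, nat_lit 10848, nat_lit 16224, nat_lit 10368, R1_226, R1_338, R10_216⟩]⟩]⟩,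
 ⟨nat_lit 3, [⟨nat_lit 0, [⟨nat_lit 0, nat_lit 480, nat_lit 11904, nat_lit 4272, nat_lit 4608, nat_lit 7248, R5_89, R3_96, R4_151⟩, ⟨nat_lit 2, nat_lit 8160, nat_lit 14784, nat_lit 12624, nat_lit 14880, nat_lit 12480, R5_263, R0_310, R5_260⟩]⟩, ⟨nat_lit 2, [⟨nat_lit 2, nat_lit 8208, nat_lit 15072, nat_lit 9264, nat_lit 14976, nat_lit 13344, R0_193, R0_312, R11_278⟩]⟩, ⟨nat_lit 3, [⟨nat_lit 0, nat_lit 528, nat_lit 12048, nat_lit 15552, nat_lit 5280, nat_lit 5856, R11_324, R3_110, R3_122⟩, ⟨nat_lit 2, nat_lit 8256, nat_lit 14928, nat_lit 15600, nat_lit 14928, nat_lit 8256, R11_325, R0_311, R0_172⟩, ⟨nat_lit 3, nat_lit 10272, nat_lit 14160, nat_lit 15648, nat_lit 19872, nat_lit 10320, R11_326, R10_414, R10_215⟩]⟩]⟩,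
 ⟨nat_lit 4, [⟨nat_lit 4, [⟨nat_lit 4, nat_lit 11664, nat_lit 432, nat_lit 2880, nat_lit 1200, nat_lit 864, R4_60, R4_25, R4_18⟩, ⟨nat_lit 7, nat_lit 14496, nat_lit 8016, nat_lit 8064, nat_lit 192, nat_lit 4032, R4_168, R5_4, R5_84⟩]⟩, ⟨nat_lit 7, [⟨nat_lit 7, nat_lit 14640, nat_lit 8064, nat_lit 10176, nat_lit 5856, nat_lit 13296, R3_212, R5_122, R11_277⟩]⟩]⟩,
 ⟨nat_lit 6, [⟨nat_lit 4, [⟨nat_lit 4, nat_lit 11904, nat_lit 480, nat_lit 4272, nat_lit 4608, nat_lit 7248, R5_89, R3_96, R4_151⟩, ⟨nat_lit 7, nat_lit 14784, nat_lit 8160, nat_lit 12624, nat_lit 14880, nat_lit 12480, R5_263, R0_310, R5_260⟩]⟩, ⟨nat_lit 6, [⟨nat_lit 4, nat_lit 12048, nat_lit 528, nat_lit 15552, nat_lit 5280, nat_lit 5856, R11_324, R3_110, R3_122⟩, ⟨nat_lit 6, nat_lit 14160, nat_lit 10272, nat_lit 15648, nat_lit 19872, nat_lit 10320, R11_326,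 R10_414, R10_215⟩, ⟨nat_lit 7, nat_lit 14928, nat_lit 8256, nat_lit 15600, nat_lit 14928, nat_lit 8256, R11_325, R0_311, R0_172⟩]⟩, ⟨nat_lit 7, [⟨nat_lit 7, nat_lit 15072, nat_lit 8208, nat_lit 9264, nat_lit 14976, nat_lit 13344, R0_193, R0_312, R11_278⟩]⟩]⟩,
 ⟨nat_lit 7, [⟨nat_lit 3, [⟨nat_lit 3, nat_lit 10224, nat_lit 14256, nat_lit 10848, nat_lit 16224, nat_lit 10368, R1_226, R1_338, R10_216⟩]⟩, ⟨nat_lit 7, [⟨nat_lit 3, nat_lit 10080, nat_lit 14304, nat_lit 12144, nat_lit 16272, nat_lit 8928, R10_253, R1_339, R1_186⟩, ⟨nat_lit 7, nat_lit 15216, nat_lit 8112, nat_lit 12096, nat_lit 22080, nat_lit 13392, R10_252, R11_460, R11_279⟩]⟩]⟩]], [[⟨nat_lit 3, [⟨nat_lit 0, [⟨nat_lit 0, nat_lit 1920, nat_lit 8208, nat_lit 1392, nat_lit 480, nat_lit 15696, R5_29, R3_10, R6_327⟩, ⟨nat_lit 1, nat_lit 6960, nat_lit 8352,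 nat_lit 13296, nat_lit 3120, nat_lit 14832, R5_277, R10_65, R4_309⟩, ⟨nat_lit 2, nat_lit 9024, nat_lit 8736, nat_lit 9840, nat_lit 7680, nat_lit 18864, R5_205, R0_160, R8_393⟩]⟩, ⟨nat_lit 2, [⟨nat_lit 2, nat_lit 9072, nat_lit 10080, nat_lit 9168, nat_lit 7968, nat_lit 11184, R0_191, R0_166, R5_233⟩]⟩, ⟨nat_lit 3, [⟨nat_lit 0, nat_lit 1968, nat_lit 9072, nat_lit 15168, nat_lit 4080, nat_lit 12528, R11_316, R3_85, R13_261⟩, ⟨nat_lit 1, nat_lit 7008, nat_lit 9264, nat_lit 15264, nat_lit 3744, nat_lit 9408, R11_318, R10_78, R3_196⟩, ⟨nat_lit 2, nat_lit 9120, nat_lit 9840, nat_lit 15216, nat_lit 7824, nat_lit 9744, R11_317, R0_163, R9_203⟩]⟩]⟩,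
 ⟨nat_lit 7, [⟨nat_lit 3, [⟨nat_lit 0, nat_lit 1344, nat_lit 9120, nat_lit 9456, nat_lit 3744, nat_lit 12576, R1_197, R2_78, R13_262⟩, ⟨nat_lit 1, nat_lit 6480, nat_lit 9312, nat_lit 9552, nat_lit 3216, nat_lit 9456, R1_199, R1_67, R3_197⟩, ⟨nat_lit 3, nat_lit 10704, nat_lit 9408, nat_lit 9504, nat_lit 16224, nat_lit 17088, R1_198, R12_338, R3_356⟩]⟩]⟩], [⟨nat_lit 3, [⟨nat_lit 0, [⟨nat_lit 0, nat_lit 2016, nat_lit 7440, nat_lit 2352, nat_lit 2592, nat_lit 9216, R5_49, R3_54, R8_192⟩, ⟨nat_lit 1, nat_lit 7056, nat_lit 7584, nat_lit 13536, nat_lit 5808, nat_lit 17712, R5_282, R10_121, R5_369⟩, ⟨nat_lit 2, nat_lit 9168, nat_lit 7968, nat_lit 11184, nat_lit 9072, nat_lit 18096, R5_233, R0_189, R9_377⟩]⟩, ⟨nat_lit 2, [⟨nat_lit 2, nat_lit 9216, nat_lit 9216, nat_lit 9216, nat_lit 9216, nat_lit 9216, R0_192, R0_192,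 R0_192⟩]⟩, ⟨nat_lit 3, [⟨nat_lit 0, nat_lit 2064, nat_lit 8592, nat_lit 15312, nat_lit 7344, nat_lit 5568, R11_319, R3_153, R9_116⟩, ⟨nat_lit 1, nat_lit 7104, nat_lit 8784, nat_lit 15360, nat_lit 6288, nat_lit 3408, R11_320, R10_131, R0_71⟩]⟩]⟩,
 ⟨nat_lit 7, [⟨nat_lit 3, [⟨nat_lit 0, nat_lit 1584, nat_lit 8640, nat_lit 10368, nat_lit 6720, nat_lit 6048, R1_216, R2_140, R9_126⟩, ⟨nat_lit 1, nat_lit 6624, nat_lit 8832, nat_lit 10464, nat_lit 5424, nat_lit 3888, R1_218, R1_113, R0_81⟩, ⟨nat_lit 3, nat_lit 11040, nat_lit 8928, nat_lit 10416, nat_lit 16752, nat_lit 13728, R1_217, R12_349, R0_286⟩]⟩]⟩]]], [[[], [], [⟨nat_lit 7, [⟨nat_lit 7, [⟨nat_lit 3, nat_lit 9648, nat_lit 16704, nat_lit 12672, nat_lit 15408, nat_lit 8448, R0_264, R2_321, R1_176⟩]⟩]⟩]], [], [[], [], [⟨nat_lit 4, [⟨nat_lit 4, [⟨nat_lit 4, nat_lit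 11712, nat_lit 11136, nat_lit 4416, nat_lit 1248, nat_lit 768, R8_92, R4_26, R4_16⟩, ⟨nat_lit 7, nat_lit 14544, nat_lit 11184, nat_lit 9312, nat_lit 384, nat_lit 2448, R8_194, R5_8, R5_51⟩]⟩, ⟨nat_lit 7, [⟨nat_lit 7, nat_lit 14688, nat_lit 13728, nat_lit 10608, nat_lit 6864, nat_lit 13200, R9_221, R5_143, R11_275⟩]⟩]⟩,
 ⟨nat_lit 6, [⟨nat_lit 4, [⟨nat_lit 4, nat_lit 11952, nat_lit 12528, nat_lit 17904, nat_lit 4704, nat_lit 7152, R9_373, R3_98, R4_149⟩, ⟨nat_lit 7, nat_lit 14832, nat_lit 12576, nat_lit 18192, nat_lit 15024, nat_lit 11280, R9_379, R0_313, R5_235⟩]⟩, ⟨nat_lit 6, [⟨nat_lit 4, nat_lit 12096, nat_lit 15408, nat_lit 2112, nat_lit 5376, nat_lit 5808, R0_44, R3_112, R3_121⟩, ⟨nat_lit 6, nat_lit 14208, nat_lit 15504, nat_lit 7152, nat_lit 19920, nat_lit 10272, R0_149, R10_415, R10_214⟩, ⟨nat_lit 7, nat_lit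 14976, nat_lit 15456, nat_lit 9264, nat_lit 15072, nat_lit 8208, R0_193, R0_314, R0_171⟩]⟩]⟩,
 ⟨nat_lit 7, [⟨nat_lit 7, [⟨nat_lit 3, nat_lit 10128, nat_lit 14256, nat_lit 13968, nat_lit 16416, nat_lit 8880, R0_291, R1_342, R1_185⟩, ⟨nat_lit 7, nat_lit 15264, nat_lit 14208, nat_lit 5232, nat_lit 22128, nat_lit 13248, R0_109, R11_461, R11_276⟩]⟩]⟩], [], [], [], [⟨nat_lit 4, [⟨nat_lit 4, [⟨nat_lit 4, nat_lit 11520, nat_lit 10512, nat_lit 4224, nat_lit 1776, nat_lit 864, R8_88, R4_37, R7_18⟩]⟩, ⟨nat_lit 7, [⟨nat_lit 4, nat_lit 11568, nat_lit 10608, nat_lit 10272, nat_lit 8496, nat_lit 2208, R9_214, R4_177, R2_46⟩, ⟨nat_lit 7, nat_lit 14400, nat_lit 10656, nat_lit 10560, nat_lit 6768, nat_lit 1680, R9_220, R5_141, R1_35⟩]⟩]⟩,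
 ⟨nat_lit 6, [⟨nat_lit 4, [⟨nat_lit 4, nat_lit 11760, nat_lit 10560, nat_lit 12048, nat_lit 12672, nat_lit 6864, R9_251, R3_264, R7_143⟩]⟩, ⟨nat_lit 6, [⟨nat_lit 4, nat_lit 11808, nat_lit 10752, nat_lit 1872, nat_lit 13488, nat_lit 5040, R0_39, R3_281, R2_105⟩, ⟨nat_lit 6, nat_lit 14064, nat_lit 10800, nat_lit 6912, nat_lit 19776, nat_lit 3744, R0_144, R10_412, R1_78⟩]⟩]⟩,
 ⟨nat_lit 7, [⟨nat_lit 7, [⟨nat_lit 7, nat_lit 15120, nat_lit 10704, nat_lit 5424, nat_lit 21984, nat_lit 7104, R0_113, R11_458, R1_148⟩]⟩]⟩]], [[], [], [⟨nat_lit 7, [⟨nat_lit 7, [⟨nat_lit 3, nat_lit 10848, nat_lit 8976, nat_lit 13872, nat_lit 16512, nat_lit 9984, R0_289, R12_344, R1_208⟩]⟩]⟩]]], [[], [], [], [[⟨nat_lit 7, [⟨nat_lit 3, [⟨nat_lit 0, nat_lit 1392, nat_lit 12144, nat_lit 9264, nat_lit 3696, nat_lit 12048, R12_193, R2_77, R13_251⟩,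 ⟨nat_lit 1, nat_lit 6528, nat_lit 15600, nat_lit 9360, nat_lit 3168, nat_lit 9264, R12_195, R1_66, R3_193⟩, ⟨nat_lit 3, nat_lit 10752, nat_lit 14832, nat_lit 9312, nat_lit 16272, nat_lit 14976, R12_194, R12_339, R3_312⟩]⟩]⟩], [⟨nat_lit 7, [⟨nat_lit 3, [⟨nat_lit 0, nat_lit 1632, nat_lit 10752, nat_lit 9408, nat_lit 6672, nat_lit 6000, R12_196, R2_139, R9_125⟩, ⟨nat_lit 1, nat_lit 6672, nat_lit 10944, nat_lit 9504, nat_lit 5376, nat_lit 3840, R12_198, R1_112, R0_80⟩, ⟨nat_lit 3, nat_lit 11088, nat_lit 11472, nat_lit 9456, nat_lit 16800, nat_lit 13632, R12_197, R12_350, R0_284⟩]⟩]⟩], [⟨nat_lit 7, [⟨nat_lit 3, [⟨nat_lit 0, nat_lit 1488, nat_lit 13104, nat_lit 9552, nat_lit 4560, nat_lit 6912, R12_199, R2_95, R3_144⟩, ⟨nat_lit 3, nat_lit 10944, nat_lit 13248, nat_lit 9600, nat_lit 16464, nat_lit 11328, R12_200, R12_343,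 R10_236⟩]⟩]⟩]]], [], [[], [[], [⟨nat_lit 0, [⟨nat_lit 0, [⟨nat_lit 0, nat_lit 720, nat_lit 9600, nat_lit 2448, nat_lit 1440, nat_lit 3936, R7_51, R8_30, R8_82⟩, ⟨nat_lit 1, nat_lit 5952, nat_lit 9696, nat_lit 11760, nat_lit 15216, nat_lit 13680, R7_245, R5_317, R5_285⟩, ⟨nat_lit 2, nat_lit 8544, nat_lit 9792, nat_lit 7872, nat_lit 14304, nat_lit 12000, R7_164, R9_298, R9_250⟩]⟩, ⟨nat_lit 2, [⟨nat_lit 2, nat_lit 8640, nat_lit 10368, nat_lit 6720, nat_lit 15024, nat_lit 1584, R2_140, R9_313, R0_33⟩]⟩, ⟨nat_lit 3, [⟨nat_lit 0, nat_lit 768, nat_lit 10032, nat_lit 2640, nat_lit 7392, nat_lit 6288, R2_55, R8_154, R9_131⟩, ⟨nat_lit 1, nat_lit 6000, nat_lit 10176, nat_lit 11376, nat_lit 15792, nat_lit 4128, R2_237, R5_329, R0_86⟩]⟩]⟩,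
 ⟨nat_lit 1, [⟨nat_lit 0, [⟨nat_lit 0, nat_lit 816, nat_lit 9648, nat_lit 20064, nat_lit 6384, nat_lit 11904, R14_418, R5_133, R8_248⟩, ⟨nat_lit 1, nat_lit 6048, nat_lit 9744, nat_lit 21360, nat_lit 6000, nat_lit 13968, R14_445, R11_125, R5_291⟩, ⟨nat_lit 2, nat_lit 8880, nat_lit 9840, nat_lit 20736, nat_lit 13008, nat_lit 12672, R14_432, R0_271, R9_264⟩]⟩, ⟨nat_lit 1, [⟨nat_lit 0, nat_lit 864, nat_lit 9888, nat_lit 15840, nat_lit 7248, nat_lit 7632, R12_330, R5_151, R5_159⟩, ⟨nat_lit 1, nat_lit 6096, nat_lit 9936, nat_lit 17136, nat_lit 6864, nat_lit 7248, R12_357, R11_143, R11_151⟩, ⟨nat_lit 2, nat_lit 8976, nat_lit 9984, nat_lit 16512, nat_lit 13872, nat_lit 10848, R12_344, R0_289, R0_226⟩]⟩, ⟨nat_lit 2, [⟨nat_lit 2, nat_lit 8928, nat_lit 10416, nat_lit 16752, nat_lit 13728, nat_lit 11040, R12_349, R0_286,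 R0_230⟩]⟩, ⟨nat_lit 3, [⟨nat_lit 0, nat_lit 912, nat_lit 10080, nat_lit 7344, nat_lit 6816, nat_lit 7488, R12_153, R5_142, R9_156⟩, ⟨nat_lit 1, nat_lit 6144, nat_lit 10224, nat_lit 9168, nat_lit 6432, nat_lit 5328, R12_191, R11_134, R0_111⟩]⟩]⟩,
 ⟨nat_lit 2, [⟨nat_lit 2, [⟨nat_lit 2, nat_lit 8832, nat_lit 10464, nat_lit 5424, nat_lit 3888, nat_lit 6624, R1_113, R0_81, R0_138⟩]⟩]⟩,
 ⟨nat_lit 3, [⟨nat_lit 3, [⟨nat_lit 0, nat_lit 1248, nat_lit 10128, nat_lit 2112, nat_lit 6864, nat_lit 7104, R1_44, R9_143, R9_148⟩, ⟨nat_lit 1, nat_lit 6384, nat_lit 10272, nat_lit 11952, nat_lit 4704, nat_lit 4944, R1_249, R0_98, R0_103⟩, ⟨nat_lit 3, nat_lit 10464, nat_lit 10320, nat_lit 7488, nat_lit 4560, nat_lit 5088, R1_156, R0_95, R0_106⟩]⟩]⟩]], [], [], [], [[], [⟨nat_lit 1, [⟨nat_lit 0, [⟨nat_lit 1, nat_lit 3648, nat_lit 16320,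 nat_lit 21408, nat_lit 5280, nat_lit 14064, R14_446, R1_110, R5_293⟩]⟩, ⟨nat_lit 1, [⟨nat_lit 1, nat_lit 3744, nat_lit 17904, nat_lit 17184, nat_lit 5520, nat_lit 9312, R12_358, R1_115, R11_194⟩]⟩, ⟨nat_lit 3, [⟨nat_lit 1, nat_lit 3840, nat_lit 17232, nat_lit 9504, nat_lit 5376, nat_lit 6672, R12_198, R1_112, R0_139⟩]⟩]⟩]]]]
noncomputable def N2131 : T3 (List N0) := [[], [[], [], [], [[], [⟨nat_lit 0, [⟨nat_lit 2, [⟨nat_lit 6, nat_lit 3792, nat_lit 6576, nat_lit 8448, nat_lit 9648, nat_lit 5328, R3_176, R2_201, R1_111⟩]⟩]⟩,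
 ⟨nat_lit 2, [⟨nat_lit 2, [⟨nat_lit 6, nat_lit 3840, nat_lit 6672, nat_lit 10944, nat_lit 9504, nat_lit 5376, R10_228, R12_198, R1_112⟩]⟩, ⟨nat_lit 6, [⟨nat_lit 4, nat_lit 6000, nat_lit 4128, nat_lit 10176, nat_lit 11376, nat_lit 15792, R1_212, R2_237, R5_329⟩, ⟨nat_lit 6, nat_lit 6144, nat_lit 5328, nat_lit 10224, nat_lit 9168, nat_lit 6432, R1_213, R12_191, R11_134⟩, ⟨nat_lit 7, nat_lit 6384, nat_lit 4944, nat_lit 10272, nat_lit 11952, nat_lit 4704, R1_214, R1_249, R0_98⟩]⟩]⟩,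
 ⟨nat_lit 3, [⟨nat_lit 0, [⟨nat_lit 2, nat_lit 3024, nat_lit 5808, nat_lit 10800, nat_lit 14592, nat_lit 17808, R5_225, R11_304, R3_371⟩]⟩, ⟨nat_lit 2, [⟨nat_lit 2, nat_lit 3408, nat_lit 7104, nat_lit 8784, nat_lit 15360, nat_lit 6288, R0_183, R11_320, R10_131⟩, ⟨nat_lit 6, nat_lit 3888, nat_lit 6624, nat_lit 8832, nat_lit 10464, nat_lit 5424, R0_184, R1_218, R1_113⟩]⟩, ⟨nat_lit 3, [⟨nat_lit 2, nat_lit 4992, nat_lit 6336, nat_lit 13872, nat_lit 15024, nat_lit 4656, R11_289, R11_313, R0_97⟩]⟩]⟩,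
 ⟨nat_lit 4, [⟨nat_lit 7, [⟨nat_lit 3, nat_lit 6576, nat_lit 3792, nat_lit 8448, nat_lit 9648, nat_lit 5328, R3_176, R2_201, R1_111⟩]⟩]⟩,
 ⟨nat_lit 6, [⟨nat_lit 4, [⟨nat_lit 7, nat_lit 5808, nat_lit 3024, nat_lit 10800, nat_lit 14592, nat_lit 17808, R5_225, R11_304, R3_371⟩]⟩, ⟨nat_lit 6, [⟨nat_lit 7, nat_lit 6336, nat_lit 4992, nat_lit 13872, nat_lit 15024, nat_lit 4656, R11_289, R11_313, R0_97⟩]⟩, ⟨nat_lit 7, [⟨nat_lit 3, nat_lit 6624, nat_lit 3888, nat_lit 8832, nat_lit 10464, nat_lit 5424, R0_184, R1_218, R1_113⟩, ⟨nat_lit 7, nat_lit 7104, nat_lit 3408, nat_lit 8784, nat_lit 15360, nat_lit 6288, R0_183, R11_320, R10_131⟩]⟩]⟩,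
 ⟨nat_lit 7, [⟨nat_lit 3, [⟨nat_lit 0, nat_lit 4128, nat_lit 6000, nat_lit 10176, nat_lit 11376, nat_lit 15792, R1_212, R2_237, R5_329⟩, ⟨nat_lit 2, nat_lit 4944, nat_lit 6384, nat_lit 10272, nat_lit 11952, nat_lit 4704, R1_214, R1_249, R0_98⟩, ⟨nat_lit 3, nat_lit 5328, nat_lit 6144, nat_lit 10224, nat_lit 9168, nat_lit 6432, R1_213, R12_191, R11_134⟩]⟩, ⟨nat_lit 7, [⟨nat_lit 3, nat_lit 6672, nat_lit 3840, nat_lit 10944, nat_lit 9504, nat_lit 5376, R10_228, R12_198, R1_112⟩]⟩]⟩]]], [], [[], [], [], [[⟨nat_lit 4, [⟨nat_lit 7, [⟨nat_lit 3, nat_lit 1824, nat_lit 13296, nat_lit 12864, nat_lit 9936, nat_lit 4992, R3_268, R2_207, R2_104⟩]⟩]⟩,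
 ⟨nat_lit 6, [⟨nat_lit 7, [⟨nat_lit 3, nat_lit 1872, nat_lit 13488, nat_lit 11808, nat_lit 10752, nat_lit 5040, R0_246, R1_224, R2_105⟩, ⟨nat_lit 7, nat_lit 2112, nat_lit 5376, nat_lit 12096, nat_lit 15408, nat_lit 5808, R0_252, R11_321, R3_121⟩]⟩]⟩], [⟨nat_lit 4, [⟨nat_lit 3, [⟨nat_lit 3, nat_lit 5472, nat_lit 8016, nat_lit 7344, nat_lit 7392, nat_lit 6240, R2_153, R2_154, R11_130⟩]⟩, ⟨nat_lit 7, [⟨nat_lit 3, nat_lit 6864, nat_lit 5520, nat_lit 12960, nat_lit 9984, nat_lit 3696, R3_270, R2_208, R1_77⟩]⟩]⟩,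
 ⟨nat_lit 6, [⟨nat_lit 7, [⟨nat_lit 3, nat_lit 6912, nat_lit 5568, nat_lit 14064, nat_lit 10800, nat_lit 3744, R0_293, R1_225, R1_78⟩, ⟨nat_lit 7, nat_lit 7152, nat_lit 4992, nat_lit 14208, nat_lit 15504, nat_lit 4416, R0_296, R11_323, R10_92⟩]⟩]⟩,
 ⟨nat_lit 7, [⟨nat_lit 3, [⟨nat_lit 0, nat_lit 4320, nat_lit 7488, nat_lit 8736, nat_lit 11328, nat_lit 15696, R12_182, R2_236, R5_327⟩, ⟨nat_lit 2, nat_lit 5184, nat_lit 8304, nat_lit 8784, nat_lit 11904, nat_lit 4416, R12_183, R1_248, R0_92⟩, ⟨nat_lit 3, nat_lit 5520, nat_lit 8064, nat_lit 8832, nat_lit 9216, nat_lit 6288, R12_184, R12_192, R11_131⟩]⟩]⟩], [⟨nat_lit 6, [⟨nat_lit 7, [⟨nat_lit 7, nat_lit 9264, nat_lit 15072, nat_lit 14976, nat_lit 15456, nat_lit 8208, R0_312, R11_322, R0_171⟩]⟩]⟩]]]]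
noncomputable def N2202 : T3 (List N0) := [[[[⟨nat_lit 0, [⟨nat_lit 0, [⟨nat_lit 2, nat_lit 7920, nat_lit 240, nat_lit 576, nat_lit 16416, nat_lit 12576, R6_12, R6_342, R8_262⟩]⟩, ⟨nat_lit 2, [⟨nat_lit 2, nat_lit 8064, nat_lit 2544, nat_lit 432, nat_lit 16464, nat_lit 8064, R8_9, R6_343, R5_168⟩]⟩]⟩,
 ⟨nat_lit 2, [⟨nat_lit 2, [⟨nat_lit 2, nat_lit 8784, nat_lit 10224, nat_lit 4656, nat_lit 15168, nat_lit 8160, R5_97, R4_316, R5_170⟩]⟩]⟩,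
 ⟨nat_lit 3, [⟨nat_lit 0, [⟨nat_lit 0, nat_lit 912, nat_lit 4800, nat_lit 4608, nat_lit 14592, nat_lit 11808, R13_96, R6_304, R6_246⟩, ⟨nat_lit 2, nat_lit 9168, nat_lit 5088, nat_lit 4656, nat_lit 18288, nat_lit 12720, R13_97, R8_381, R8_265⟩]⟩, ⟨nat_lit 2, [⟨nat_lit 2, nat_lit 9312, nat_lit 7104, nat_lit 3792, nat_lit 18336, nat_lit 8112, R9_79, R8_382, R5_169⟩]⟩, ⟨nat_lit 3, [⟨nat_lit 0, nat_lit 1056, nat_lit 6000, nat_lit 48, nat_lit 14640, nat_lit 10464, R3_1, R6_305, R13_218⟩, ⟨nat_lit 2, nat_lit 9408, nat_lit 6432, nat_lit 336, nat_lit 18384, nat_lit 8016, R3_7, R8_383, R9_167⟩, ⟨nat_lit 3, nat_lit 13104, nat_lit 6144, nat_lit 192, nat_lit 14208, nat_lit 11472, R3_4, R4_296, R3_239⟩]⟩]⟩,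
 ⟨nat_lit 7, [⟨nat_lit 3, [⟨nat_lit 3, nat_lit 12816, nat_lit 12624, nat_lit 3168, nat_lit 15984, nat_lit 11136, R2_66, R7_333, R3_232⟩]⟩]⟩], [⟨nat_lit 0, [⟨nat_lit 0, [⟨nat_lit 2, nat_lit 8496, nat_lit 144, nat_lit 1152, nat_lit 16608, nat_lit 13488, R6_24, R6_346, R9_281⟩]⟩, ⟨nat_lit 1, [⟨nat_lit 2, nat_lit 8688, nat_lit 720, nat_lit 1056, nat_lit 16704, nat_lit 11616, R4_22, R6_348, R0_242⟩]⟩, ⟨nat_lit 2, [⟨nat_lit 2, nat_lit 8592, nat_lit 2448, nat_lit 528, nat_lit 16656, nat_lit 576, R8_11, R6_347, R0_12⟩]⟩]⟩,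
 ⟨nat_lit 3, [⟨nat_lit 0, [⟨nat_lit 0, nat_lit 1488, nat_lit 5184, nat_lit 6240, nat_lit 16176, nat_lit 8016, R13_130, R6_337, R8_167⟩, ⟨nat_lit 2, nat_lit 9936, nat_lit 5376, nat_lit 6288, nat_lit 18576, nat_lit 13728, R13_131, R8_387, R9_286⟩]⟩, ⟨nat_lit 1, [⟨nat_lit 0, nat_lit 1584, nat_lit 6816, nat_lit 4512, nat_lit 16272, nat_lit 0, R3_94, R6_339, R5_0⟩, ⟨nat_lit 2, nat_lit 10080, nat_lit 7104, nat_lit 4560, nat_lit 18672, nat_lit 11856, R3_95, R8_389, R0_247⟩]⟩, ⟨nat_lit 2, [⟨nat_lit 2, nat_lit 10032, nat_lit 7776, nat_lit 4704, nat_lit 18624, nat_lit 8304, R9_98, R8_388, R0_173⟩]⟩, ⟨nat_lit 3, [⟨nat_lit 0, nat_lit 1680, nat_lit 6336, nat_lit 768, nat_lit 16224, nat_lit 96, R3_16, R6_338, R9_2⟩, ⟨nat_lit 3, nat_lit 13392, nat_lit 6480, nat_lit 912, nat_lit 15072, nat_lit 2208, R3_19, R4_314, R0_46⟩]⟩]⟩,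
 ⟨nat_lit 7, [⟨nat_lit 3, [⟨nat_lit 3, nat_lit 13056, nat_lit 12960, nat_lit 4032, nat_lit 16704, nat_lit 12192, R2_84, R7_348, R0_254⟩]⟩]⟩], [⟨nat_lit 0, [⟨nat_lit 0, [⟨nat_lit 2, nat_lit 8208, nat_lit 3168, nat_lit 2832, nat_lit 16512, nat_lit 1776, R6_59, R6_344, R5_37⟩]⟩, ⟨nat_lit 2, [⟨nat_lit 2, nat_lit 8352, nat_lit 3216, nat_lit 576, nat_lit 16560, nat_lit 10512, R8_12, R6_345, R11_219⟩]⟩]⟩,
 ⟨nat_lit 2, [⟨nat_lit 2, [⟨nat_lit 2, nat_lit 8928, nat_lit 10800, nat_lit 6288, nat_lit 15216, nat_lit 10608, R5_131, R4_317, R11_221⟩, ⟨nat_lit 6, nat_lit 16320, nat_lit 10704, nat_lit 6336, nat_lit 17760, nat_lit 8208, R5_132, R7_370, R1_171⟩]⟩]⟩,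
 ⟨nat_lit 3, [⟨nat_lit 0, [⟨nat_lit 0, nat_lit 1200, nat_lit 7536, nat_lit 8400, nat_lit 15360, nat_lit 4656, R13_175, R6_320, R4_97⟩, ⟨nat_lit 2, nat_lit 9552, nat_lit 7872, nat_lit 8448, nat_lit 18432, nat_lit 10176, R13_176, R8_384, R5_212⟩]⟩, ⟨nat_lit 2, [⟨nat_lit 2, nat_lit 9696, nat_lit 7968, nat_lit 6096, nat_lit 18480, nat_lit 10560, R9_127, R8_385, R11_220⟩]⟩, ⟨nat_lit 3, [⟨nat_lit 0, nat_lit 1344, nat_lit 7584, nat_lit 2256, nat_lit 15408, nat_lit 384, R3_47, R6_321, R3_8⟩, ⟨nat_lit 2, nat_lit 9792, nat_lit 7920, nat_lit 2544, nat_lit 18528, nat_lit 7248, R3_53, R8_386, R0_151⟩, ⟨nat_lit 3, nat_lit 13248, nat_lit 7680, nat_lit 2400, nat_lit 14688, nat_lit 8832, R3_50, R4_306, R10_184⟩]⟩]⟩,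
 ⟨nat_lit 7, [⟨nat_lit 3, [⟨nat_lit 3, nat_lit 12960, nat_lit 14544, nat_lit 6384, nat_lit 16224, nat_lit 8880, R2_133, R7_338, R10_185⟩]⟩]⟩]], [], [[], [], [⟨nat_lit 2, [⟨nat_lit 2, [⟨nat_lit 6, nat_lit 16656, nat_lit 7488, nat_lit 7200, nat_lit 15360, nat_lit 8352, R5_150, R2_320, R1_174⟩]⟩]⟩]], [[⟨nat_lit 3, [⟨nat_lit 0, [⟨nat_lit 0, nat_lit 3264, nat_lit 5616, nat_lit 5232, nat_lit 4944, nat_lit 12096, R13_109, R4_103, R6_252⟩, ⟨nat_lit 2, nat_lit 11328, nat_lit 5664, nat_lit 5280, nat_lit 11328, nat_lit 12864, R13_110, R5_236, R8_268⟩]⟩, ⟨nat_lit 2, [⟨nat_lit 2, nat_lit 11520, nat_lit 9216, nat_lit 4224, nat_lit 11808, nat_lit 10224, R9_88, R5_246, R5_213⟩]⟩, ⟨nat_lit 3, [⟨nat_lit 0, nat_lit 3456, nat_lit 7344, nat_lit 3792, nat_lit 5472, nat_lit 11088, R3_79, R4_114, R13_231⟩, ⟨nat_lit 2, nat_lit 11664,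 nat_lit 7392, nat_lit 3936, nat_lit 12192, nat_lit 8832, R3_82, R5_254, R9_184⟩]⟩]⟩,
 ⟨nat_lit 7, [⟨nat_lit 3, [⟨nat_lit 0, nat_lit 2592, nat_lit 7968, nat_lit 3552, nat_lit 5376, nat_lit 11136, R2_74, R7_112, R13_232⟩, ⟨nat_lit 3, nat_lit 13824, nat_lit 8016, nat_lit 3600, nat_lit 21936, nat_lit 12048, R2_75, R14_457, R3_251⟩]⟩]⟩], [⟨nat_lit 3, [⟨nat_lit 0, [⟨nat_lit 0, nat_lit 3840, nat_lit 3888, nat_lit 6816, nat_lit 7584, nat_lit 8064, R13_142, R4_158, R8_168⟩, ⟨nat_lit 2, nat_lit 12192, nat_lit 3936, nat_lit 6864, nat_lit 11664, nat_lit 13872, R13_143, R5_243, R9_289⟩]⟩, ⟨nat_lit 1, [⟨nat_lit 0, nat_lit 3984, nat_lit 5616, nat_lit 5184, nat_lit 7968, nat_lit 96, R3_108, R4_166, R5_2⟩, ⟨nat_lit 2, nat_lit 12432, nat_lit 5664, nat_lit 5232, nat_lit 12576, nat_lit 12000, R3_109, R5_262, R0_250⟩]⟩, ⟨nat_lit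 2, [⟨nat_lit 2, nat_lit 12336, nat_lit 7296, nat_lit 5088, nat_lit 12096, nat_lit 8352, R9_106, R5_252, R0_174⟩]⟩, ⟨nat_lit 3, [⟨nat_lit 0, nat_lit 4128, nat_lit 6192, nat_lit 6096, nat_lit 7872, nat_lit 336, R3_127, R4_164, R9_7⟩]⟩]⟩,
 ⟨nat_lit 7, [⟨nat_lit 3, [⟨nat_lit 0, nat_lit 3024, nat_lit 6624, nat_lit 4416, nat_lit 7920, nat_lit 576, R2_92, R7_165, R9_12⟩, ⟨nat_lit 3, nat_lit 14160, nat_lit 6672, nat_lit 4464, nat_lit 22032, nat_lit 12768, R2_93, R14_459, R0_266⟩]⟩]⟩], [⟨nat_lit 3, [⟨nat_lit 0, [⟨nat_lit 0, nat_lit 3600, nat_lit 4368, nat_lit 8832, nat_lit 6144, nat_lit 5760, R13_184, R4_128, R4_120⟩, ⟨nat_lit 2, nat_lit 11808, nat_lit 4416, nat_lit 8880, nat_lit 11520, nat_lit 10224, R13_185, R5_240, R5_213⟩]⟩, ⟨nat_lit 2, [⟨nat_lit 2, nat_lit 11952, nat_lit 7008, nat_lit 6768, nat_lit 11952, nat_lit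 13488, R9_141, R5_249, R11_281⟩]⟩, ⟨nat_lit 3, [⟨nat_lit 0, nat_lit 3744, nat_lit 5376, nat_lit 7152, nat_lit 6672, nat_lit 1056, R3_149, R4_139, R3_22⟩, ⟨nat_lit 2, nat_lit 12096, nat_lit 5424, nat_lit 7296, nat_lit 12336, nat_lit 8352, R3_152, R5_257, R0_174⟩]⟩]⟩,
 ⟨nat_lit 7, [⟨nat_lit 3, [⟨nat_lit 0, nat_lit 2784, nat_lit 5760, nat_lit 6528, nat_lit 6432, nat_lit 1776, R2_136, R7_134, R3_37⟩, ⟨nat_lit 3, nat_lit 14016, nat_lit 5808, nat_lit 6576, nat_lit 21984, nat_lit 10464, R2_137, R14_458, R10_218⟩]⟩]⟩], [⟨nat_lit 3, [⟨nat_lit 3, [⟨nat_lit 0, nat_lit 4224, nat_lit 4944, nat_lit 5520, nat_lit 7200, nat_lit 4416, R3_115, R4_150, R3_92⟩, ⟨nat_lit 2, nat_lit 12576, nat_lit 5232, nat_lit 5664, nat_lit 12432, nat_lit 12000, R3_118, R5_259, R0_250⟩]⟩]⟩,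
 ⟨nat_lit 7, [⟨nat_lit 3, [⟨nat_lit 0, nat_lit 3168, nat_lit 13152, nat_lit 4944, nat_lit 6912, nat_lit 12432, R2_103, R7_144, R3_259⟩]⟩]⟩]], [], [], [], [[], [], [], [⟨nat_lit 7, [⟨nat_lit 3, [⟨nat_lit 0, nat_lit 768, nat_lit 5952, nat_lit 5520, nat_lit 10272, nat_lit 13680, R2_115, R4_214, R3_285⟩, ⟨nat_lit 1, nat_lit 7728, nat_lit 6000, nat_lit 5568, nat_lit 7008, nat_lit 1680, R2_116, R5_146, R10_35⟩]⟩]⟩]]], [[[⟨nat_lit 0, [⟨nat_lit 0, [⟨nat_lit 2, nat_lit 7968, nat_lit 15504, nat_lit 4560, nat_lit 16752, nat_lit 16752, R8_95, R6_349, R8_349⟩]⟩, ⟨nat_lit 2, [⟨nat_lit 2, nat_lit 8112, nat_lit 15648, nat_lit 48, nat_lit 16800, nat_lit 9312, R9_1, R6_350, R5_194⟩]⟩]⟩,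
 ⟨nat_lit 3, [⟨nat_lit 0, [⟨nat_lit 0, nat_lit 960, nat_lit 12384, nat_lit 15984, nat_lit 15024, nat_lit 14928, R9_333, R6_313, R6_311⟩, ⟨nat_lit 2, nat_lit 9216, nat_lit 16176, nat_lit 16272, nat_lit 18720, nat_lit 17040, R9_339, R8_390, R8_355⟩]⟩, ⟨nat_lit 3, [⟨nat_lit 0, nat_lit 1104, nat_lit 12528, nat_lit 144, nat_lit 15072, nat_lit 10752, R0_3, R6_314, R13_224⟩, ⟨nat_lit 2, nat_lit 9456, nat_lit 16320, nat_lit 7632, nat_lit 18768, nat_lit 8448, R0_159, R8_391, R9_176⟩, ⟨nat_lit 3, nat_lit 13152, nat_lit 14304, nat_lit 5664, nat_lit 14496, nat_lit 16464, R0_118, R4_302, R3_343⟩]⟩]⟩], [⟨nat_lit 0, [⟨nat_lit 0, [⟨nat_lit 2, nat_lit 8544, nat_lit 1536, nat_lit 4608, nat_lit 16944, nat_lit 16848, R8_96, R6_353, R9_351⟩]⟩, ⟨nat_lit 1, [⟨nat_lit 2, nat_lit 8736, nat_lit 1632, nat_lit 48, nat_lit 17040, nat_lit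 14448, R5_1, R6_355, R0_301⟩]⟩, ⟨nat_lit 2, [⟨nat_lit 2, nat_lit 8640, nat_lit 1728, nat_lit 144, nat_lit 16992, nat_lit 960, R9_3, R6_354, R0_20⟩]⟩]⟩,
 ⟨nat_lit 3, [⟨nat_lit 0, [⟨nat_lit 0, nat_lit 1536, nat_lit 8544, nat_lit 16848, nat_lit 16944, nat_lit 8688, R9_351, R6_353, R8_181⟩, ⟨nat_lit 2, nat_lit 9984, nat_lit 9984, nat_lit 17136, nat_lit 18912, nat_lit 17136, R9_357, R8_394, R9_357⟩]⟩, ⟨nat_lit 1, [⟨nat_lit 0, nat_lit 1632, nat_lit 8736, nat_lit 14448, nat_lit 17040, nat_lit 48, R0_301, R6_355, R5_1⟩, ⟨nat_lit 2, nat_lit 10128, nat_lit 10128, nat_lit 14736, nat_lit 18960, nat_lit 14736, R0_307, R8_395, R0_307⟩]⟩, ⟨nat_lit 3, [⟨nat_lit 0, nat_lit 1728, nat_lit 8640, nat_lit 960, nat_lit 16992, nat_lit 144, R0_20, R6_354, R9_3⟩, ⟨nat_lit 3, nat_lit 13440, nat_lit 9120, nat_lit 6192, nat_lit 15408, nat_lit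 2304, R0_129, R4_321, R0_48⟩]⟩]⟩], [⟨nat_lit 0, [⟨nat_lit 0, [⟨nat_lit 2, nat_lit 8256, nat_lit 2016, nat_lit 4656, nat_lit 16848, nat_lit 2208, R8_97, R6_351, R5_46⟩]⟩, ⟨nat_lit 2, [⟨nat_lit 2, nat_lit 8400, nat_lit 2064, nat_lit 192, nat_lit 16896, nat_lit 11760, R9_4, R6_352, R11_245⟩]⟩]⟩,
 ⟨nat_lit 2, [⟨nat_lit 2, [⟨nat_lit 2, nat_lit 8976, nat_lit 11472, nat_lit 2352, nat_lit 15360, nat_lit 11808, R0_49, R4_320, R11_246⟩, ⟨nat_lit 6, nat_lit 16368, nat_lit 11328, nat_lit 12288, nat_lit 17808, nat_lit 8304, R0_256, R7_371, R1_173⟩]⟩]⟩,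
 ⟨nat_lit 3, [⟨nat_lit 0, [⟨nat_lit 0, nat_lit 1248, nat_lit 8160, nat_lit 17712, nat_lit 15648, nat_lit 4896, R9_369, R6_326, R4_102⟩, ⟨nat_lit 2, nat_lit 9600, nat_lit 8688, nat_lit 17952, nat_lit 18816, nat_lit 11040, R9_374, R8_392, R5_230⟩]⟩, ⟨nat_lit 3, [⟨nat_lit 0, nat_lit 1392, nat_lit 8208, nat_lit 1920, nat_lit 15696, nat_lit 480, R0_40, R6_327, R3_10⟩, ⟨nat_lit 2, nat_lit 9840, nat_lit 8736, nat_lit 9024, nat_lit 18864, nat_lit 7680, R0_188, R8_393, R0_160⟩, ⟨nat_lit 3, nat_lit 13296, nat_lit 8352, nat_lit 6960, nat_lit 14832, nat_lit 9504, R0_145, R4_309, R10_198⟩]⟩]⟩]], [[⟨nat_lit 0, [⟨nat_lit 0, [⟨nat_lit 0, nat_lit 1776, nat_lit 8208, nat_lit 240, nat_lit 9600, nat_lit 16512, R8_5, R6_200, R6_344⟩, ⟨nat_lit 2, nat_lit 10176, nat_lit 9552, nat_lit 4992, nat_lit 21552, nat_lit 16896, R8_104, R13_449,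 R8_352⟩]⟩, ⟨nat_lit 2, [⟨nat_lit 2, nat_lit 10224, nat_lit 11808, nat_lit 4416, nat_lit 21600, nat_lit 11520, R9_92, R13_450, R5_240⟩]⟩]⟩,
 ⟨nat_lit 1, [⟨nat_lit 0, [⟨nat_lit 0, nat_lit 1968, nat_lit 8304, nat_lit 16848, nat_lit 10560, nat_lit 17184, R5_351, R4_220, R6_358⟩, ⟨nat_lit 2, nat_lit 10656, nat_lit 9648, nat_lit 16944, nat_lit 17664, nat_lit 17424, R5_353, R3_368, R8_363⟩]⟩, ⟨nat_lit 2, [⟨nat_lit 2, nat_lit 10704, nat_lit 11856, nat_lit 2880, nat_lit 17712, nat_lit 11616, R0_60, R3_369, R5_242⟩]⟩]⟩,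
 ⟨nat_lit 2, [⟨nat_lit 2, [⟨nat_lit 2, nat_lit 10512, nat_lit 11904, nat_lit 2688, nat_lit 9504, nat_lit 11568, R0_56, R3_198, R5_241⟩]⟩]⟩,
 ⟨nat_lit 3, [⟨nat_lit 0, [⟨nat_lit 0, nat_lit 2208, nat_lit 8256, nat_lit 16080, nat_lit 4656, nat_lit 16848, R9_335, R8_97, R6_351⟩, ⟨nat_lit 2, nat_lit 11040, nat_lit 9600, nat_lit 16368, nat_lit 17952, nat_lit 17328, R9_341, R9_374, R8_361⟩]⟩, ⟨nat_lit 3, [⟨nat_lit 0, nat_lit 2256, nat_lit 10272, nat_lit 336, nat_lit 5088, nat_lit 12672, R0_7, R8_106, R13_264⟩, ⟨nat_lit 2, nat_lit 11088, nat_lit 11136, nat_lit 7920, nat_lit 18000, nat_lit 9936, R0_165, R9_375, R9_207⟩, ⟨nat_lit 3, nat_lit 13488, nat_lit 10752, nat_lit 5760, nat_lit 17664, nat_lit 17760, R0_120, R5_368, R3_370⟩]⟩]⟩], [⟨nat_lit 0, [⟨nat_lit 0, [⟨nat_lit 0, nat_lit 1872, nat_lit 10656, nat_lit 288, nat_lit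 9696, nat_lit 3552, R8_6, R6_202, R8_74⟩, ⟨nat_lit 2, nat_lit 10368, nat_lit 12000, nat_lit 5040, nat_lit 21744, nat_lit 16992, R8_105, R13_453, R9_354⟩]⟩, ⟨nat_lit 1, [⟨nat_lit 0, nat_lit 1920, nat_lit 12624, nat_lit 4800, nat_lit 9744, nat_lit 288, R5_100, R6_203, R5_6⟩, ⟨nat_lit 2, nat_lit 10464, nat_lit 13056, nat_lit 5088, nat_lit 21840, nat_lit 14592, R5_106, R13_455, R0_304⟩]⟩, ⟨nat_lit 2, [⟨nat_lit 2, nat_lit 10416, nat_lit 14784, nat_lit 4512, nat_lit 21792, nat_lit 1008, R9_94, R13_454, R0_21⟩]⟩]⟩,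
 ⟨nat_lit 1, [⟨nat_lit 0, [⟨nat_lit 0, nat_lit 2064, nat_lit 10752, nat_lit 17184, nat_lit 10656, nat_lit 10848, R5_358, R4_222, R8_226⟩, ⟨nat_lit 2, nat_lit 10848, nat_lit 12096, nat_lit 17328, nat_lit 17856, nat_lit 17568, R5_361, R3_372, R9_366⟩]⟩, ⟨nat_lit 1, [⟨nat_lit 0, nat_lit 2112, nat_lit 12720, nat_lit 21888, nat_lit 10704, nat_lit 624, R11_456, R4_223, R5_13⟩, ⟨nat_lit 2, nat_lit 10944, nat_lit 13152, nat_lit 22032, nat_lit 17952, nat_lit 15168, R11_459, R3_374, R0_316⟩]⟩, ⟨nat_lit 2, [⟨nat_lit 2, nat_lit 10896, nat_lit 14832, nat_lit 2976, nat_lit 17904, nat_lit 10320, R0_62, R3_373, R0_215⟩]⟩]⟩,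
 ⟨nat_lit 2, [⟨nat_lit 2, [⟨nat_lit 2, nat_lit 10608, nat_lit 14880, nat_lit 2736, nat_lit 9600, nat_lit 6240, R0_57, R3_200, R0_130⟩]⟩]⟩,
 ⟨nat_lit 3, [⟨nat_lit 0, [⟨nat_lit 0, nat_lit 2400, nat_lit 10704, nat_lit 16944, nat_lit 6384, nat_lit 8784, R9_353, R8_133, R8_183⟩, ⟨nat_lit 2, nat_lit 11232, nat_lit 12048, nat_lit 17232, nat_lit 18144, nat_lit 17424, R9_359, R9_378, R9_363⟩]⟩, ⟨nat_lit 1, [⟨nat_lit 0, nat_lit 2448, nat_lit 12672, nat_lit 14544, nat_lit 6864, nat_lit 384, R0_303, R8_143, R5_8⟩, ⟨nat_lit 2, nat_lit 11280, nat_lit 13104, nat_lit 14832, nat_lit 18192, nat_lit 15024, R0_309, R9_379, R0_313⟩]⟩, ⟨nat_lit 3, [⟨nat_lit 0, nat_lit 2496, nat_lit 13536, nat_lit 1152, nat_lit 6816, nat_lit 1200, R0_24, R8_142, R9_25⟩, ⟨nat_lit 3, nat_lit 13584, nat_lit 14016, nat_lit 6288, nat_lit 17760, nat_lit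 3984, R0_131, R5_370, R0_83⟩]⟩]⟩], [⟨nat_lit 0, [⟨nat_lit 0, [⟨nat_lit 0, nat_lit 1824, nat_lit 96, nat_lit 336, nat_lit 9648, nat_lit 2016, R8_7, R6_201, R4_42⟩, ⟨nat_lit 2, nat_lit 10272, nat_lit 336, nat_lit 5088, nat_lit 21648, nat_lit 2256, R8_106, R13_451, R5_47⟩]⟩, ⟨nat_lit 2, [⟨nat_lit 2, nat_lit 10320, nat_lit 384, nat_lit 4560, nat_lit 21696, nat_lit 14496, R9_95, R13_452, R11_302⟩]⟩]⟩,
 ⟨nat_lit 1, [⟨nat_lit 0, [⟨nat_lit 0, nat_lit 2016, nat_lit 5616, nat_lit 17568, nat_lit 10608, nat_lit 10944, R5_366, R4_221, R4_228⟩, ⟨nat_lit 2, nat_lit 10752, nat_lit 5760, nat_lit 17664, nat_lit 17760, nat_lit 13488, R5_368, R3_370, R5_281⟩]⟩, ⟨nat_lit 2, [⟨nat_lit 2, nat_lit 10800, nat_lit 5808, nat_lit 3024, nat_lit 17808, nat_lit 14592, R0_63, R3_371, R11_304⟩]⟩]⟩,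
 ⟨nat_lit 2, [⟨nat_lit 2, [⟨nat_lit 2, nat_lit 10560, nat_lit 9984, nat_lit 2784, nat_lit 9552, nat_lit 14544, R0_58, R3_199, R11_303⟩, ⟨nat_lit 6, nat_lit 16800, nat_lit 9840, nat_lit 12576, nat_lit 15696, nat_lit 8496, R0_262, R2_327, R1_177⟩]⟩]⟩,
 ⟨nat_lit 3, [⟨nat_lit 0, [⟨nat_lit 0, nat_lit 2304, nat_lit 7392, nat_lit 17760, nat_lit 5424, nat_lit 7536, R9_370, R8_113, R4_157⟩, ⟨nat_lit 2, nat_lit 11136, nat_lit 7920, nat_lit 18000, nat_lit 18048, nat_lit 11088, R9_375, R9_376, R5_231⟩]⟩, ⟨nat_lit 3, [⟨nat_lit 0, nat_lit 2352, nat_lit 7440, nat_lit 2016, nat_lit 5952, nat_lit 2592, R0_42, R8_124, R3_54⟩, ⟨nat_lit 2, nat_lit 11184, nat_lit 7968, nat_lit 9168, nat_lit 18096, nat_lit 9072, R0_191, R9_377, R0_189⟩, ⟨nat_lit 3, nat_lit 13536, nat_lit 7584, nat_lit 7056, nat_lit 17712, nat_lit 11856, R0_147, R5_369,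 R10_247⟩]⟩]⟩]], [[], [], [⟨nat_lit 2, [⟨nat_lit 2, [⟨nat_lit 6, nat_lit 16704, nat_lit 9648, nat_lit 12672, nat_lit 15408, nat_lit 8448, R0_264, R2_321, R1_176⟩]⟩]⟩]], [[⟨nat_lit 3, [⟨nat_lit 0, [⟨nat_lit 0, nat_lit 3312, nat_lit 8064, nat_lit 16032, nat_lit 5040, nat_lit 15552, R9_334, R4_105, R6_324⟩, ⟨nat_lit 2, nat_lit 11376, nat_lit 8544, nat_lit 16320, nat_lit 11376, nat_lit 17184, R9_340, R5_237, R8_358⟩]⟩, ⟨nat_lit 3, [⟨nat_lit 0, nat_lit 3504, nat_lit 8880, nat_lit 240, nat_lit 5520, nat_lit 12288, R0_5, R4_115, R13_256⟩, ⟨nat_lit 2, nat_lit 11712, nat_lit 9648, nat_lit 7776, nat_lit 12240, nat_lit 9552, R0_162, R5_255, R9_199⟩]⟩]⟩], [⟨nat_lit 3, [⟨nat_lit 0, [⟨nat_lit 0, nat_lit 3888, nat_lit 7296, nat_lit 16896, nat_lit 7680, nat_lit 8736, R9_352, R4_160, R8_182⟩, ⟨nat_lit 2, nat_lit 12240, nat_lit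 7776, nat_lit 17184, nat_lit 11712, nat_lit 17280, R9_358, R5_244, R9_360⟩]⟩, ⟨nat_lit 1, [⟨nat_lit 0, nat_lit 4032, nat_lit 8016, nat_lit 14496, nat_lit 8064, nat_lit 192, R0_302, R4_168, R5_4⟩, ⟨nat_lit 2, nat_lit 12480, nat_lit 8160, nat_lit 14784, nat_lit 12624, nat_lit 14880, R0_308, R5_263, R0_310⟩]⟩, ⟨nat_lit 3, [⟨nat_lit 0, nat_lit 4176, nat_lit 8400, nat_lit 1056, nat_lit 7920, nat_lit 384, R0_22, R4_165, R9_8⟩]⟩]⟩]]], [[[⟨nat_lit 0, [⟨nat_lit 0, [⟨nat_lit 2, nat_lit 8016, nat_lit 14256, nat_lit 8976, nat_lit 17088, nat_lit 13488, R4_187, R6_356, R8_281⟩]⟩, ⟨nat_lit 2, [⟨nat_lit 2, nat_lit 8160, nat_lit 15168, nat_lit 4656, nat_lit 17136, nat_lit 8784, R5_97, R6_357, R5_183⟩]⟩]⟩,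
 ⟨nat_lit 2, [⟨nat_lit 2, [⟨nat_lit 2, nat_lit 8880, nat_lit 15456, nat_lit 4656, nat_lit 15456, nat_lit 8880, R11_97, R4_322, R5_185⟩]⟩]⟩,
 ⟨nat_lit 3, [⟨nat_lit 0, [⟨nat_lit 0, nat_lit 1008, nat_lit 12144, nat_lit 16032, nat_lit 15168, nat_lit 13584, R3_334, R6_316, R6_283⟩, ⟨nat_lit 2, nat_lit 9264, nat_lit 14400, nat_lit 16368, nat_lit 19008, nat_lit 13776, R3_341, R8_396, R8_287⟩]⟩, ⟨nat_lit 3, [⟨nat_lit 0, nat_lit 1152, nat_lit 12288, nat_lit 2976, nat_lit 15216, nat_lit 10608, R10_62, R6_317, R13_221⟩, ⟨nat_lit 2, nat_lit 9504, nat_lit 14736, nat_lit 3072, nat_lit 19104, nat_lit 8256, R10_64, R8_398, R9_172⟩, ⟨nat_lit 3, nat_lit 13200, nat_lit 13248, nat_lit 3024, nat_lit 14592, nat_lit 15264, R10_63, R4_304, R3_318⟩]⟩]⟩,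
 ⟨nat_lit 7, [⟨nat_lit 3, [⟨nat_lit 3, nat_lit 12864, nat_lit 13152, nat_lit 2640, nat_lit 17712, nat_lit 15168, R1_55, R7_369, R3_316⟩]⟩, ⟨nat_lit 7, [⟨nat_lit 3, nat_lit 12768, nat_lit 12624, nat_lit 5616, nat_lit 17664, nat_lit 7728, R11_117, R7_368, R2_161⟩]⟩]⟩], [], [⟨nat_lit 0, [⟨nat_lit 0, [⟨nat_lit 2, nat_lit 8304, nat_lit 16848, nat_lit 10560, nat_lit 17184, nat_lit 1968, R4_220, R6_358, R5_41⟩]⟩, ⟨nat_lit 2, [⟨nat_lit 2, nat_lit 8448, nat_lit 16896, nat_lit 4704, nat_lit 17232, nat_lit 11232, R5_98, R6_359, R11_234⟩]⟩]⟩,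
 ⟨nat_lit 2, [⟨nat_lit 2, [⟨nat_lit 2, nat_lit 9024, nat_lit 17088, nat_lit 5904, nat_lit 15504, nat_lit 11328, R11_123, R4_323, R11_236⟩, ⟨nat_lit 6, nat_lit 16416, nat_lit 12912, nat_lit 5952, nat_lit 17856, nat_lit 8256, R11_124, R7_372, R1_172⟩]⟩, ⟨nat_lit 6, [⟨nat_lit 6, nat_lit 16272, nat_lit 13008, nat_lit 5088, nat_lit 17904, nat_lit 9312, R1_106, R7_373, R10_194⟩]⟩]⟩,
 ⟨nat_lit 3, [⟨nat_lit 0, [⟨nat_lit 0, nat_lit 1296, nat_lit 14304, nat_lit 17376, nat_lit 15744, nat_lit 4704, R3_362, R6_328, R4_98⟩, ⟨nat_lit 2, nat_lit 9648, nat_lit 16944, nat_lit 17664, nat_lit 19152, nat_lit 10656, R3_368, R8_399, R5_222⟩]⟩, ⟨nat_lit 2, [⟨nat_lit 2, nat_lit 9744, nat_lit 17040, nat_lit 3936, nat_lit 19200, nat_lit 11280, R0_82, R8_400, R11_235⟩]⟩, ⟨nat_lit 3, [⟨nat_lit 0, nat_lit 1440, nat_lit 14352, nat_lit 5664,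 nat_lit 15792, nat_lit 432, R10_118, R6_329, R3_9⟩, ⟨nat_lit 2, nat_lit 9888, nat_lit 16992, nat_lit 5760, nat_lit 19248, nat_lit 7488, R10_120, R8_401, R0_156⟩, ⟨nat_lit 3, nat_lit 13344, nat_lit 16224, nat_lit 5712, nat_lit 14880, nat_lit 9264, R10_119, R4_310, R10_193⟩]⟩]⟩,
 ⟨nat_lit 4, [⟨nat_lit 4, [⟨nat_lit 7, nat_lit 16848, nat_lit 8304, nat_lit 10560, nat_lit 17184, nat_lit 1968, R4_220, R6_358, R5_41⟩]⟩, ⟨nat_lit 7, [⟨nat_lit 7, nat_lit 16896, nat_lit 8448, nat_lit 4704, nat_lit 17232, nat_lit 11232, R5_98, R6_359, R11_234⟩]⟩]⟩,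
 ⟨nat_lit 6, [⟨nat_lit 4, [⟨nat_lit 4, nat_lit 14304, nat_lit 1296, nat_lit 17376, nat_lit 15744, nat_lit 4704, R3_362, R6_328, R4_98⟩, ⟨nat_lit 7, nat_lit 16944, nat_lit 9648, nat_lit 17664, nat_lit 19152, nat_lit 10656, R3_368, R8_399, R5_222⟩]⟩, ⟨nat_lit 6, [⟨nat_lit 4, nat_lit 14352, nat_lit 1440, nat_lit 5664, nat_lit 15792, nat_lit 432, R10_118, R6_329, R3_9⟩, ⟨nat_lit 6, nat_lit 16224, nat_lit 13344, nat_lit 5712, nat_lit 14880, nat_lit 9264, R10_119, R4_310, R10_193⟩, ⟨nat_lit 7, nat_lit 16992, nat_lit 9888, nat_lit 5760, nat_lit 19248, nat_lit 7488, R10_120, R8_401, R0_156⟩]⟩, ⟨nat_lit 7, [⟨nat_lit 7, nat_lit 17040, nat_lit 9744, nat_lit 3936, nat_lit 19200, nat_lit 11280, R0_82, R8_400, R11_235⟩]⟩]⟩,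
 ⟨nat_lit 7, [⟨nat_lit 3, [⟨nat_lit 3, nat_lit 13008, nat_lit 16272, nat_lit 5088, nat_lit 17904, nat_lit 9312, R1_106, R7_373, R10_194⟩]⟩, ⟨nat_lit 7, [⟨nat_lit 3, nat_lit 12912, nat_lit 16416, nat_lit 5952, nat_lit 17856, nat_lit 8256, R11_124, R7_372, R1_172⟩, ⟨nat_lit 7, nat_lit 17088, nat_lit 9024, nat_lit 5904, nat_lit 15504, nat_lit 11328, R11_123, R4_323, R11_236⟩]⟩]⟩]], [], [[], [], [⟨nat_lit 2, [⟨nat_lit 2, [⟨nat_lit 6, nat_lit 16752, nat_lit 7104, nat_lit 6816, nat_lit 15504, nat_lit 8400, R11_142, R2_323, R1_175⟩]⟩, ⟨nat_lit 6, [⟨nat_lit 6, nat_lit 16608, nat_lit 9168, nat_lit 5136, nat_lit 15456, nat_lit 9408, R1_107, R2_322, R10_196⟩]⟩]⟩,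
 ⟨nat_lit 4, [⟨nat_lit 4, [⟨nat_lit 4, nat_lit 14496, nat_lit 7632, nat_lit 4368, nat_lit 10800, nat_lit 48, R4_91, R6_225, R4_1⟩, ⟨nat_lit 7, nat_lit 17184, nat_lit 7680, nat_lit 10656, nat_lit 9408, nat_lit 2064, R4_222, R8_196, R5_43⟩]⟩, ⟨nat_lit 7, [⟨nat_lit 7, nat_lit 17232, nat_lit 8448, nat_lit 6432, nat_lit 9888, nat_lit 11376, R5_134, R8_206, R11_237⟩]⟩]⟩,
 ⟨nat_lit 6, [⟨nat_lit 4, [⟨nat_lit 4, nat_lit 14688, nat_lit 8112, nat_lit 17472, nat_lit 21216, nat_lit 5280, R3_364, R13_442, R4_110⟩, ⟨nat_lit 7, nat_lit 17328, nat_lit 8160, nat_lit 17856, nat_lit 17568, nat_lit 10848, R3_372, R9_366, R5_226⟩]⟩, ⟨nat_lit 6, [⟨nat_lit 4, nat_lit 14736, nat_lit 9840, nat_lit 5856, nat_lit 21264, nat_lit 4032, R10_122, R13_443, R3_84⟩, ⟨nat_lit 6, nat_lit 16512, nat_lit 9936, nat_lit 5904, nat_lit 10512, nat_lit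 9360, R10_123, R3_219, R10_195⟩, ⟨nat_lit 7, nat_lit 17376, nat_lit 9888, nat_lit 5952, nat_lit 17616, nat_lit 7536, R10_124, R9_367, R0_157⟩]⟩, ⟨nat_lit 7, [⟨nat_lit 7, nat_lit 17424, nat_lit 8832, nat_lit 4032, nat_lit 17664, nat_lit 11424, R0_84, R9_368, R11_238⟩]⟩]⟩,
 ⟨nat_lit 7, [⟨nat_lit 7, [⟨nat_lit 7, nat_lit 17520, nat_lit 8592, nat_lit 6048, nat_lit 17520, nat_lit 11472, R11_126, R5_365, R11_239⟩]⟩]⟩], [], [], [], [⟨nat_lit 2, [⟨nat_lit 6, [⟨nat_lit 6, nat_lit 16560, nat_lit 6624, nat_lit 5184, nat_lit 15312, nat_lit 13536, R1_108, R2_319, R1_282⟩]⟩]⟩,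
 ⟨nat_lit 4, [⟨nat_lit 4, [⟨nat_lit 4, nat_lit 14400, nat_lit 6096, nat_lit 4224, nat_lit 10848, nat_lit 144, R4_88, R6_226, R7_3⟩, ⟨nat_lit 5, nat_lit 15984, nat_lit 6144, nat_lit 12000, nat_lit 11712, nat_lit 17088, R4_250, R4_244, R14_356⟩]⟩, ⟨nat_lit 7, [⟨nat_lit 4, nat_lit 14448, nat_lit 6288, nat_lit 336, nat_lit 10896, nat_lit 1536, R5_7, R6_227, R2_32⟩, ⟨nat_lit 5, nat_lit 16032, nat_lit 6336, nat_lit 12720, nat_lit 11760, nat_lit 7056, R5_265, R4_245, R12_147⟩, ⟨nat_lit 7, nat_lit 17136, nat_lit 6384, nat_lit 6528, nat_lit 9936, nat_lit 1008, R5_136, R8_207, R1_21⟩]⟩]⟩,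
 ⟨nat_lit 6, [⟨nat_lit 4, [⟨nat_lit 4, nat_lit 14544, nat_lit 6192, nat_lit 10608, nat_lit 21072, nat_lit 5088, R3_221, R13_439, R7_106⟩, ⟨nat_lit 5, nat_lit 16080, nat_lit 6240, nat_lit 10800, nat_lit 17184, nat_lit 17232, R3_225, R3_358, R14_359⟩]⟩, ⟨nat_lit 6, [⟨nat_lit 4, nat_lit 14592, nat_lit 6672, nat_lit 6000, nat_lit 21120, nat_lit 3504, R10_125, R13_440, R2_73⟩, ⟨nat_lit 5, nat_lit 16128, nat_lit 6720, nat_lit 6096, nat_lit 17232, nat_lit 14976, R10_127, R3_359, R12_312⟩, ⟨nat_lit 6, nat_lit 16464, nat_lit 6768, nat_lit 6048, nat_lit 10560, nat_lit 2976, R10_126, R3_220, R1_62⟩]⟩, ⟨nat_lit 7, [⟨nat_lit 4, nat_lit 14640, nat_lit 6480, nat_lit 4176, nat_lit 21168, nat_lit 8592, R0_87, R13_441, R2_179⟩, ⟨nat_lit 5, nat_lit 16176, nat_lit 6528, nat_lit 4272, nat_lit 17280, nat_lit 8640, R0_89, R3_360,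 R12_180⟩, ⟨nat_lit 7, nat_lit 17280, nat_lit 6576, nat_lit 4224, nat_lit 17520, nat_lit 9408, R0_88, R9_365, R1_196⟩]⟩]⟩,
 ⟨nat_lit 7, [⟨nat_lit 7, [⟨nat_lit 7, nat_lit 17472, nat_lit 6432, nat_lit 6144, nat_lit 17472, nat_lit 6432, R11_128, R5_364, R1_134⟩]⟩]⟩]], [[⟨nat_lit 3, [⟨nat_lit 0, [⟨nat_lit 0, nat_lit 3360, nat_lit 8544, nat_lit 16080, nat_lit 5088, nat_lit 13872, R3_335, R4_106, R6_289⟩, ⟨nat_lit 2, nat_lit 11424, nat_lit 8688, nat_lit 16416, nat_lit 11472, nat_lit 13920, R3_342, R5_239, R8_290⟩]⟩, ⟨nat_lit 2, [⟨nat_lit 2, nat_lit 11568, nat_lit 9504, nat_lit 2688, nat_lit 11904, nat_lit 10512, R0_56, R5_248, R5_219⟩]⟩, ⟨nat_lit 3, [⟨nat_lit 0, nat_lit 3552, nat_lit 8832, nat_lit 3648, nat_lit 5568, nat_lit 11568, R10_76, R4_116, R13_241⟩, ⟨nat_lit 2, nat_lit 11760, nat_lit 9312, nat_lit 3696, nat_lit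 12288, nat_lit 9168, R10_77, R5_256, R9_191⟩]⟩]⟩,
 ⟨nat_lit 4, [⟨nat_lit 7, [⟨nat_lit 3, nat_lit 13632, nat_lit 7920, nat_lit 14928, nat_lit 11664, nat_lit 8880, R5_311, R7_243, R2_185⟩]⟩]⟩,
 ⟨nat_lit 7, [⟨nat_lit 3, [⟨nat_lit 0, nat_lit 2640, nat_lit 8880, nat_lit 3024, nat_lit 5472, nat_lit 11616, R1_63, R7_114, R13_242⟩, ⟨nat_lit 3, nat_lit 13872, nat_lit 9168, nat_lit 3072, nat_lit 22224, nat_lit 15504, R1_64, R14_463, R3_323⟩]⟩, ⟨nat_lit 7, [⟨nat_lit 3, nat_lit 13776, nat_lit 7968, nat_lit 5664, nat_lit 22272, nat_lit 8928, R11_118, R14_464, R2_186⟩]⟩]⟩], [], [⟨nat_lit 3, [⟨nat_lit 0, [⟨nat_lit 0, nat_lit 3648, nat_lit 2832, nat_lit 17424, nat_lit 6240, nat_lit 6000, R3_363, R4_130, R4_125⟩, ⟨nat_lit 2, nat_lit 11856, nat_lit 2880, nat_lit 17712, nat_lit 11616, nat_lit 10704, R3_369, R5_242, R5_223⟩]⟩,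 ⟨nat_lit 2, [⟨nat_lit 2, nat_lit 12000, nat_lit 4848, nat_lit 4608, nat_lit 12048, nat_lit 13776, R0_96, R5_251, R11_287⟩]⟩, ⟨nat_lit 3, [⟨nat_lit 0, nat_lit 3792, nat_lit 3216, nat_lit 6192, nat_lit 6720, nat_lit 1104, R10_129, R4_140, R3_23⟩, ⟨nat_lit 2, nat_lit 12144, nat_lit 3264, nat_lit 6240, nat_lit 12384, nat_lit 8688, R10_130, R5_258, R0_181⟩]⟩]⟩,
 ⟨nat_lit 4, [⟨nat_lit 4, [⟨nat_lit 7, nat_lit 17568, nat_lit 5616, nat_lit 10608, nat_lit 10944, nat_lit 2016, R4_221, R4_228, R5_42⟩]⟩, ⟨nat_lit 7, [⟨nat_lit 3, nat_lit 13680, nat_lit 5952, nat_lit 15216, nat_lit 11760, nat_lit 9696, R5_317, R7_245, R1_202⟩, ⟨nat_lit 7, nat_lit 17616, nat_lit 5904, nat_lit 5376, nat_lit 11328, nat_lit 11520, R5_112, R4_236, R11_240⟩]⟩]⟩,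
 ⟨nat_lit 6, [⟨nat_lit 4, [⟨nat_lit 7, nat_lit 17664, nat_lit 5760, nat_lit 17760, nat_lit 13488, nat_lit 10752, R3_370, R5_281, R5_224⟩]⟩, ⟨nat_lit 6, [⟨nat_lit 7, nat_lit 17712, nat_lit 7056, nat_lit 5808, nat_lit 13536, nat_lit 7584, R10_121, R5_282, R0_158⟩]⟩, ⟨nat_lit 7, [⟨nat_lit 7, nat_lit 17760, nat_lit 6288, nat_lit 3984, nat_lit 13584, nat_lit 11568, R0_83, R5_283, R11_241⟩]⟩]⟩,
 ⟨nat_lit 7, [⟨nat_lit 3, [⟨nat_lit 0, nat_lit 2832, nat_lit 3600, nat_lit 5232, nat_lit 6528, nat_lit 1872, R1_109, R7_136, R3_39⟩, ⟨nat_lit 3, nat_lit 14064, nat_lit 3648, nat_lit 5280, nat_lit 22320, nat_lit 10848, R1_110, R14_465, R10_226⟩]⟩, ⟨nat_lit 7, [⟨nat_lit 3, nat_lit 13968, nat_lit 6048, nat_lit 6000, nat_lit 22368, nat_lit 9744, R11_125, R14_466, R1_203⟩]⟩]⟩], [⟨nat_lit 3, [⟨nat_lit 3, [⟨nat_lit 0, nat_lit 4320,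 nat_lit 4752, nat_lit 4320, nat_lit 7296, nat_lit 4464, R10_90, R4_152, R3_93⟩, ⟨nat_lit 2, nat_lit 12672, nat_lit 4800, nat_lit 4368, nat_lit 12528, nat_lit 14112, R10_91, R5_261, R0_294⟩]⟩]⟩,
 ⟨nat_lit 4, [⟨nat_lit 7, [⟨nat_lit 3, nat_lit 13728, nat_lit 7440, nat_lit 15120, nat_lit 11712, nat_lit 7104, R5_315, R7_244, R12_148⟩]⟩]⟩,
 ⟨nat_lit 7, [⟨nat_lit 3, [⟨nat_lit 0, nat_lit 3216, nat_lit 5376, nat_lit 3648, nat_lit 6960, nat_lit 12576, R1_76, R7_145, R3_262⟩]⟩, ⟨nat_lit 7, [⟨nat_lit 0, nat_lit 3120, nat_lit 7776, nat_lit 5712, nat_lit 7536, nat_lit 336, R11_119, R7_157, R2_7⟩, ⟨nat_lit 3, nat_lit 14256, nat_lit 7824, nat_lit 5760, nat_lit 22416, nat_lit 7152, R11_120, R14_467, R12_149⟩]⟩]⟩]], [[], [], [], [], [⟨nat_lit 4, [⟨nat_lit 4, [⟨nat_lit 1, nat_lit 4368, nat_lit 5664, nat_lit 14928, nat_lit 10176,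 nat_lit 5808, R4_311, R6_212, R4_121⟩]⟩]⟩], [], [], [⟨nat_lit 4, [⟨nat_lit 4, [⟨nat_lit 1, nat_lit 4656, nat_lit 8160, nat_lit 15168, nat_lit 10224, nat_lit 8784, R4_316, R6_213, R5_183⟩]⟩, ⟨nat_lit 7, [⟨nat_lit 1, nat_lit 4704, nat_lit 8448, nat_lit 16896, nat_lit 10272, nat_lit 1968, R5_352, R6_214, R11_41⟩]⟩]⟩]], [], [[], [], [], [], [⟨nat_lit 4, [⟨nat_lit 4, [⟨nat_lit 1, nat_lit 5136, nat_lit 864, nat_lit 14976, nat_lit 11232, nat_lit 6432, R4_312, R4_234, R4_134⟩, ⟨nat_lit 5, nat_lit 14784, nat_lit 1440, nat_lit 11808, nat_lit 11568, nat_lit 5952, R4_246, R7_241, R7_124⟩]⟩, ⟨nat_lit 7, [⟨nat_lit 5, nat_lit 14928, nat_lit 7920, nat_lit 13632, nat_lit 11664, nat_lit 8880, R5_284, R7_243, R2_185⟩]⟩]⟩,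
 ⟨nat_lit 6, [⟨nat_lit 4, [⟨nat_lit 5, nat_lit 15264, nat_lit 1536, nat_lit 3408, nat_lit 11088, nat_lit 6048, R3_71, R2_231, R7_126⟩]⟩, ⟨nat_lit 7, [⟨nat_lit 5, nat_lit 15408, nat_lit 8064, nat_lit 4080, nat_lit 11280, nat_lit 9360, R0_85, R2_235, R2_195⟩]⟩]⟩], [], [⟨nat_lit 4, [⟨nat_lit 4, [⟨nat_lit 5, nat_lit 14976, nat_lit 7344, nat_lit 11952, nat_lit 11616, nat_lit 17136, R4_249, R7_242, R14_357⟩]⟩, ⟨nat_lit 7, [⟨nat_lit 5, nat_lit 15120, nat_lit 7440, nat_lit 13728, nat_lit 11712, nat_lit 7104, R5_286, R7_244, R12_148⟩]⟩]⟩,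
 ⟨nat_lit 6, [⟨nat_lit 4, [⟨nat_lit 5, nat_lit 15456, nat_lit 7392, nat_lit 10896, nat_lit 11136, nat_lit 17280, R3_227, R2_232, R14_360⟩]⟩, ⟨nat_lit 6, [⟨nat_lit 5, nat_lit 15552, nat_lit 7536, nat_lit 6144, nat_lit 11232, nat_lit 14928, R10_128, R2_234, R12_311⟩]⟩, ⟨nat_lit 7, [⟨nat_lit 5, nat_lit 15696, nat_lit 7488, nat_lit 4320, nat_lit 11328, nat_lit 8736, R0_90, R2_236, R12_182⟩]⟩]⟩], [⟨nat_lit 4, [⟨nat_lit 4, [⟨nat_lit 1, nat_lit 5328, nat_lit 5856, nat_lit 15264, nat_lit 11280, nat_lit 9072, R4_318, R4_235, R5_189⟩]⟩, ⟨nat_lit 7, [⟨nat_lit 1, nat_lit 5376, nat_lit 5904, nat_lit 17616, nat_lit 11328, nat_lit 2016, R5_367, R4_236, R11_42⟩, ⟨nat_lit 5, nat_lit 15216, nat_lit 5952, nat_lit 13680, nat_lit 11760, nat_lit 9696, R5_285, R7_245, R1_202⟩]⟩]⟩,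
 ⟨nat_lit 6, [⟨nat_lit 7, [⟨nat_lit 5, nat_lit 15792, nat_lit 6000, nat_lit 4128, nat_lit 11376, nat_lit 10176, R0_86, R2_237, R1_212⟩]⟩]⟩]], [[], [], [], [⟨nat_lit 4, [⟨nat_lit 7, [⟨nat_lit 0, nat_lit 336, nat_lit 6288, nat_lit 14448, nat_lit 10896, nat_lit 1536, R5_301, R6_227, R2_32⟩, ⟨nat_lit 1, nat_lit 6528, nat_lit 6384, nat_lit 17136, nat_lit 9936, nat_lit 1008, R5_357, R8_207, R1_21⟩, ⟨nat_lit 3, nat_lit 12720, nat_lit 6336, nat_lit 16032, nat_lit 11760, nat_lit 7056, R5_334, R4_245, R12_147⟩]⟩]⟩,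
 ⟨nat_lit 7, [⟨nat_lit 3, [⟨nat_lit 0, nat_lit 816, nat_lit 4656, nat_lit 4224, nat_lit 10368, nat_lit 14256, R1_88, R4_216, R3_297⟩, ⟨nat_lit 1, nat_lit 7776, nat_lit 4704, nat_lit 4272, nat_lit 7104, nat_lit 1776, R1_89, R5_148, R10_37⟩]⟩, ⟨nat_lit 7, [⟨nat_lit 0, nat_lit 720, nat_lit 6912, nat_lit 5808, nat_lit 8544, nat_lit 2112, R11_121, R4_178, R2_44⟩, ⟨nat_lit 1, nat_lit 7680, nat_lit 6960, nat_lit 5856, nat_lit 7152, nat_lit 1584, R11_122, R5_149, R1_33⟩]⟩]⟩], [], [], [], [⟨nat_lit 4, [⟨nat_lit 4, [⟨nat_lit 1, nat_lit 6288, nat_lit 8400, nat_lit 15216, nat_lit 9840, nat_lit 8928, R4_317, R8_205, R5_186⟩]⟩, ⟨nat_lit 7, [⟨nat_lit 1, nat_lit 6432, nat_lit 8448, nat_lit 17232, nat_lit 9888, nat_lit 2064, R5_359, R8_206, R11_43⟩]⟩]⟩,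
 ⟨nat_lit 7, [⟨nat_lit 7, [⟨nat_lit 1, nat_lit 7296, nat_lit 8496, nat_lit 6096, nat_lit 7584, nat_lit 2112, R11_127, R5_158, R11_44⟩]⟩]⟩]]], [[], [], [], [[⟨nat_lit 3, [⟨nat_lit 0, [⟨nat_lit 0, nat_lit 3408, nat_lit 11424, nat_lit 2928, nat_lit 4992, nat_lit 13440, R3_61, R4_104, R6_280⟩, ⟨nat_lit 2, nat_lit 11472, nat_lit 16416, nat_lit 8688, nat_lit 11424, nat_lit 14592, R3_181, R5_238, R8_304⟩]⟩, ⟨nat_lit 2, [⟨nat_lit 2, nat_lit 11616, nat_lit 17712, nat_lit 2880, nat_lit 11856, nat_lit 10704, R0_60, R5_247, R5_223⟩]⟩]⟩,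
 ⟨nat_lit 7, [⟨nat_lit 0, [⟨nat_lit 0, nat_lit 2544, nat_lit 11088, nat_lit 14400, nat_lit 4800, nat_lit 13152, R2_300, R7_100, R6_274⟩]⟩, ⟨nat_lit 3, [⟨nat_lit 0, nat_lit 2688, nat_lit 11952, nat_lit 4032, nat_lit 5424, nat_lit 11856, R12_84, R7_113, R13_247⟩, ⟨nat_lit 3, nat_lit 13920, nat_lit 14640, nat_lit 4080, nat_lit 22080, nat_lit 14736, R12_85, R14_460, R3_307⟩]⟩]⟩], [⟨nat_lit 3, [⟨nat_lit 0, [⟨nat_lit 0, nat_lit 3936, nat_lit 8976, nat_lit 3264, nat_lit 7632, nat_lit 8352, R3_68, R4_159, R8_174⟩, ⟨nat_lit 2, nat_lit 12288, nat_lit 9648, nat_lit 9312, nat_lit 11760, nat_lit 15648, R3_194, R5_245, R9_326⟩]⟩, ⟨nat_lit 1, [⟨nat_lit 0, nat_lit 4080, nat_lit 9888, nat_lit 19680, nat_lit 8016, nat_lit 144, R10_410, R4_167, R5_3⟩, ⟨nat_lit 2, nat_lit 12528, nat_lit 10224, nat_lit 19824, nat_lit 12672, nat_lit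 14112, R10_413, R5_264, R0_294⟩]⟩, ⟨nat_lit 2, [⟨nat_lit 2, nat_lit 12384, nat_lit 11952, nat_lit 3264, nat_lit 12144, nat_lit 8688, R0_68, R5_253, R0_181⟩]⟩]⟩,
 ⟨nat_lit 7, [⟨nat_lit 0, [⟨nat_lit 0, nat_lit 2928, nat_lit 9024, nat_lit 14976, nat_lit 7632, nat_lit 14880, R2_312, R7_159, R8_310⟩]⟩, ⟨nat_lit 1, [⟨nat_lit 0, nat_lit 2976, nat_lit 9936, nat_lit 15984, nat_lit 8016, nat_lit 240, R1_333, R7_167, R5_5⟩]⟩, ⟨nat_lit 3, [⟨nat_lit 0, nat_lit 3072, nat_lit 10560, nat_lit 4224, nat_lit 7968, nat_lit 624, R12_88, R7_166, R9_13⟩, ⟨nat_lit 3, nat_lit 14208, nat_lit 11232, nat_lit 4272, nat_lit 22176, nat_lit 12912, R12_89, R14_462, R0_269⟩]⟩]⟩], [⟨nat_lit 3, [⟨nat_lit 0, [⟨nat_lit 0, nat_lit 3696, nat_lit 2400, nat_lit 3552, nat_lit 6192, nat_lit 5952, R3_74, R4_129, R4_124⟩, ⟨nat_lit 2, nat_lit 11904, nat_lit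 2688, nat_lit 9504, nat_lit 11568, nat_lit 10512, R3_198, R5_241, R5_219⟩]⟩, ⟨nat_lit 2, [⟨nat_lit 2, nat_lit 12048, nat_lit 4608, nat_lit 4848, nat_lit 12000, nat_lit 13968, R0_101, R5_250, R11_291⟩]⟩]⟩,
 ⟨nat_lit 7, [⟨nat_lit 0, [⟨nat_lit 0, nat_lit 2736, nat_lit 12336, nat_lit 15552, nat_lit 5664, nat_lit 12528, R2_324, R7_118, R4_261⟩]⟩, ⟨nat_lit 3, [⟨nat_lit 0, nat_lit 2880, nat_lit 13296, nat_lit 4512, nat_lit 6480, nat_lit 1824, R12_94, R7_135, R3_38⟩, ⟨nat_lit 3, nat_lit 14112, nat_lit 13488, nat_lit 4560, nat_lit 22128, nat_lit 11088, R12_95, R14_461, R10_231⟩]⟩]⟩]], [], [], [], [[⟨nat_lit 7, [⟨nat_lit 0, [⟨nat_lit 0, nat_lit 432, nat_lit 7536, nat_lit 14448, nat_lit 8832, nat_lit 12432, R2_301, R4_184, R6_259⟩, ⟨nat_lit 1, nat_lit 7392, nat_lit 7824, nat_lit 14736, nat_lit 6912, nat_lit 12720, R2_307,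 R5_144, R4_265⟩]⟩, ⟨nat_lit 3, [⟨nat_lit 0, nat_lit 480, nat_lit 8352, nat_lit 4128, nat_lit 9504, nat_lit 9888, R12_86, R4_198, R13_206⟩, ⟨nat_lit 1, nat_lit 7440, nat_lit 9072, nat_lit 4176, nat_lit 6960, nat_lit 7728, R12_87, R5_145, R3_161⟩]⟩]⟩], [⟨nat_lit 7, [⟨nat_lit 0, [⟨nat_lit 0, nat_lit 528, nat_lit 8064, nat_lit 15024, nat_lit 9168, nat_lit 14832, R2_313, R4_191, R8_309⟩, ⟨nat_lit 1, nat_lit 7488, nat_lit 8352, nat_lit 15360, nat_lit 7200, nat_lit 16656, R2_320, R5_150, R5_347⟩]⟩, ⟨nat_lit 1, [⟨nat_lit 0, nat_lit 576, nat_lit 8688, nat_lit 16032, nat_lit 10752, nat_lit 2160, R1_334, R4_224, R5_45⟩, ⟨nat_lit 1, nat_lit 7536, nat_lit 8784, nat_lit 16368, nat_lit 7344, nat_lit 2160, R1_341, R5_153, R11_45⟩]⟩, ⟨nat_lit 3, [⟨nat_lit 0, nat_lit 672, nat_lit 9168, nat_lit 4320, nat_lit 10512, nat_lit 2400,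 R12_90, R4_219, R9_50⟩, ⟨nat_lit 1, nat_lit 7632, nat_lit 9888, nat_lit 4368, nat_lit 7248, nat_lit 864, R12_91, R5_151, R0_18⟩]⟩]⟩], [], [⟨nat_lit 7, [⟨nat_lit 3, [⟨nat_lit 0, nat_lit 864, nat_lit 6048, nat_lit 4416, nat_lit 10320, nat_lit 14016, R12_92, R4_215, R3_292⟩, ⟨nat_lit 1, nat_lit 7824, nat_lit 6096, nat_lit 4464, nat_lit 7056, nat_lit 1728, R12_93, R5_147, R10_36⟩]⟩]⟩]]], [[], [], [], [], [[], [⟨nat_lit 4, [⟨nat_lit 1, [⟨nat_lit 1, nat_lit 4752, nat_lit 480, nat_lit 960, nat_lit 10416, nat_lit 384, R4_20, R6_217, R11_8⟩]⟩]⟩,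
 ⟨nat_lit 5, [⟨nat_lit 1, [⟨nat_lit 0, nat_lit 0, nat_lit 6816, nat_lit 4512, nat_lit 7296, nat_lit 1584, R3_94, R6_152, R5_33⟩, ⟨nat_lit 1, nat_lit 5040, nat_lit 6864, nat_lit 4656, nat_lit 13248, nat_lit 1152, R3_97, R13_276, R11_24⟩]⟩]⟩], [], [], [], [⟨nat_lit 4, [⟨nat_lit 1, [⟨nat_lit 1, nat_lit 4608, nat_lit 672, nat_lit 1536, nat_lit 10368, nat_lit 1392, R4_32, R6_216, R1_29⟩]⟩, ⟨nat_lit 5, [⟨nat_lit 1, nat_lit 4512, nat_lit 1104, nat_lit 1632, nat_lit 10320, nat_lit 13152, R7_34, R6_215, R10_274⟩]⟩]⟩,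
 ⟨nat_lit 5, [⟨nat_lit 1, [⟨nat_lit 1, nat_lit 4992, nat_lit 6672, nat_lit 12624, nat_lit 13200, nat_lit 1440, R3_263, R13_275, R1_30⟩]⟩, ⟨nat_lit 5, [⟨nat_lit 1, nat_lit 4896, nat_lit 7104, nat_lit 192, nat_lit 13152, nat_lit 13296, R2_4, R13_274, R10_277⟩]⟩]⟩]], [[], [⟨nat_lit 5, [⟨nat_lit 1, [⟨nat_lit 0, nat_lit 96, nat_lit 5616, nat_lit 5184, nat_lit 7968, nat_lit 3984, R3_108, R4_166, R5_83⟩, ⟨nat_lit 1, nat_lit 5760, nat_lit 5712, nat_lit 5328, nat_lit 9984, nat_lit 3984, R3_111, R3_208, R11_83⟩]⟩]⟩], [], [], [], [⟨nat_lit 5, [⟨nat_lit 1, [⟨nat_lit 1, nat_lit 5664, nat_lit 4848, nat_lit 13440, nat_lit 9936, nat_lit 1776, R3_280, R3_207, R1_37⟩]⟩, ⟨nat_lit 5, [⟨nat_lit 1, nat_lit 5520, nat_lit 5328, nat_lit 5904, nat_lit 9888, nat_lit 13824, R2_123, R3_206, R10_288⟩]⟩]⟩]], [], [[], [], [], [], [], [⟨nat_lit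 4, [⟨nat_lit 1, [⟨nat_lit 1, nat_lit 6192, nat_lit 2064, nat_lit 8256, nat_lit 10032, nat_lit 1488, R4_172, R8_209, R1_31⟩]⟩, ⟨nat_lit 5, [⟨nat_lit 1, nat_lit 6096, nat_lit 288, nat_lit 8256, nat_lit 9984, nat_lit 13440, R7_172, R8_208, R10_280⟩]⟩]⟩,
 ⟨nat_lit 5, [⟨nat_lit 1, [⟨nat_lit 1, nat_lit 6720, nat_lit 9840, nat_lit 13008, nat_lit 10512, nat_lit 1632, R3_271, R9_219, R1_34⟩]⟩, ⟨nat_lit 5, [⟨nat_lit 1, nat_lit 6624, nat_lit 7296, nat_lit 7200, nat_lit 10464, nat_lit 13728, R2_150, R9_218, R10_286⟩]⟩]⟩,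
 ⟨nat_lit 7, [⟨nat_lit 5, [⟨nat_lit 1, nat_lit 7008, nat_lit 6000, nat_lit 5568, nat_lit 7728, nat_lit 13584, R2_116, R5_161, R10_283⟩]⟩]⟩]]], [[], [[], [⟨nat_lit 1, [⟨nat_lit 1, [⟨nat_lit 0, nat_lit 2160, nat_lit 8688, nat_lit 16032, nat_lit 10752, nat_lit 576, R1_334, R4_224, R5_12⟩, ⟨nat_lit 2, nat_lit 10992, nat_lit 8736, nat_lit 16128, nat_lit 17616, nat_lit 10032, R1_336, R3_367, R0_209⟩]⟩]⟩]], [], [], [], [[], [⟨nat_lit 1, [⟨nat_lit 1, [⟨nat_lit 0, nat_lit 240, nat_lit 18480, nat_lit 15984, nat_lit 8016, nat_lit 2976, R1_333, R7_167, R5_62⟩, ⟨nat_lit 1, nat_lit 5952, nat_lit 18528, nat_lit 16176, nat_lit 7008, nat_lit 2976, R1_337, R2_146, R11_62⟩, ⟨nat_lit 2, nat_lit 7872, nat_lit 18624, nat_lit 16080, nat_lit 10272, nat_lit 10176, R1_335, R2_214, R0_212⟩]⟩]⟩,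
 ⟨nat_lit 5, [⟨nat_lit 1, [⟨nat_lit 0, nat_lit 144, nat_lit 4080, nat_lit 4656, nat_lit 8016, nat_lit 4080, R10_97, R4_167, R5_85⟩, ⟨nat_lit 1, nat_lit 5808, nat_lit 4128, nat_lit 4704, nat_lit 10128, nat_lit 4080, R10_98, R3_211, R11_85⟩]⟩]⟩], [], [], [], [⟨nat_lit 1, [⟨nat_lit 1, [⟨nat_lit 1, nat_lit 5904, nat_lit 15312, nat_lit 15936, nat_lit 7056, nat_lit 1728, R1_332, R2_147, R1_36⟩]⟩]⟩,
 ⟨nat_lit 5, [⟨nat_lit 1, [⟨nat_lit 1, nat_lit 5712, nat_lit 3552, nat_lit 5328, nat_lit 10080, nat_lit 1824, R10_111, R3_210, R1_38⟩]⟩, ⟨nat_lit 5, [⟨nat_lit 1, nat_lit 5568, nat_lit 4032, nat_lit 4608, nat_lit 10032, nat_lit 19488, R1_96, R3_209, R10_406⟩]⟩]⟩]]], [[], [], [], [], [[], [], [], [], [⟨nat_lit 4, [⟨nat_lit 4, [⟨nat_lit 1, nat_lit 4416, nat_lit 5520, nat_lit 17280, nat_lit 10512, nat_lit 12384, R7_360, R6_219,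 R4_258⟩]⟩, ⟨nat_lit 5, [⟨nat_lit 1, nat_lit 4464, nat_lit 5760, nat_lit 2256, nat_lit 10560, nat_lit 1248, R14_47, R6_220, R3_26⟩]⟩]⟩,
 ⟨nat_lit 5, [⟨nat_lit 5, [⟨nat_lit 1, nat_lit 4848, nat_lit 5856, nat_lit 480, nat_lit 13344, nat_lit 1344, R12_10, R13_278, R3_28⟩]⟩]⟩], [⟨nat_lit 4, [⟨nat_lit 5, [⟨nat_lit 1, nat_lit 4560, nat_lit 15552, nat_lit 2304, nat_lit 10608, nat_lit 15984, R14_48, R6_221, R10_333⟩]⟩]⟩,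
 ⟨nat_lit 5, [⟨nat_lit 5, [⟨nat_lit 1, nat_lit 4944, nat_lit 16464, nat_lit 528, nat_lit 13392, nat_lit 16176, R12_11, R13_279, R10_337⟩]⟩]⟩]], [[], [], [], [], [], [⟨nat_lit 5, [⟨nat_lit 5, [⟨nat_lit 1, nat_lit 5616, nat_lit 13536, nat_lit 672, nat_lit 10224, nat_lit 18192, R12_14, R3_213, R10_379⟩]⟩]⟩]], [[], [], [], [], [⟨nat_lit 4, [⟨nat_lit 4, [⟨nat_lit 1, nat_lit 5184, nat_lit 3984, nat_lit 17376, nat_lit 11376, nat_lit 12912, R7_362, R4_237, R4_269⟩, ⟨nat_lit 5, nat_lit 14832, nat_lit 12480, nat_lit 12864, nat_lit 11808, nat_lit 13872, R7_268, R7_246, R7_289⟩]⟩, ⟨nat_lit 5, [⟨nat_lit 1, nat_lit 5232, nat_lit 4176, nat_lit 4224, nat_lit 11424, nat_lit 6432, R14_88, R4_238, R3_134⟩, ⟨nat_lit 5, nat_lit 14880, nat_lit 12864, nat_lit 3840, nat_lit 11904, nat_lit 13152, R14_80, R7_248, R2_274⟩]⟩]⟩,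
 ⟨nat_lit 5, [⟨nat_lit 5, [⟨nat_lit 1, nat_lit 5424, nat_lit 4272, nat_lit 2592, nat_lit 7536, nat_lit 6528, R12_54, R3_157, R3_136⟩, ⟨nat_lit 5, nat_lit 15840, nat_lit 12960, nat_lit 2208, nat_lit 10368, nat_lit 13440, R12_46, R2_216, R2_280⟩]⟩]⟩,
 ⟨nat_lit 6, [⟨nat_lit 4, [⟨nat_lit 5, nat_lit 15312, nat_lit 12528, nat_lit 11568, nat_lit 10992, nat_lit 14016, R2_241, R2_229, R7_292⟩]⟩, ⟨nat_lit 5, [⟨nat_lit 5, nat_lit 15360, nat_lit 13104, nat_lit 2016, nat_lit 11424, nat_lit 13296, R12_42, R2_238, R2_277⟩]⟩]⟩], [⟨nat_lit 4, [⟨nat_lit 5, [⟨nat_lit 1, nat_lit 5280, nat_lit 12912, nat_lit 4272, nat_lit 11472, nat_lit 17664, R14_89, R4_239, R10_368⟩, ⟨nat_lit 5, nat_lit 15168, nat_lit 12384, nat_lit 3888, nat_lit 12000, nat_lit 14496, R14_81, R7_250, R1_302⟩]⟩]⟩,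
 ⟨nat_lit 5, [⟨nat_lit 5, [⟨nat_lit 1, nat_lit 5472, nat_lit 13440, nat_lit 2640, nat_lit 7584, nat_lit 17808, R12_55, R3_158, R10_371⟩, ⟨nat_lit 5, nat_lit 15936, nat_lit 12528, nat_lit 2256, nat_lit 10464, nat_lit 14784, R12_47, R2_218, R1_308⟩]⟩]⟩,
 ⟨nat_lit 6, [⟨nat_lit 5, [⟨nat_lit 5, nat_lit 15744, nat_lit 12624, nat_lit 2064, nat_lit 11520, nat_lit 14640, R12_43, R2_240, R1_305⟩]⟩]⟩], [⟨nat_lit 4, [⟨nat_lit 4, [⟨nat_lit 5, nat_lit 15024, nat_lit 13824, nat_lit 13056, nat_lit 11856, nat_lit 16608, R7_272, R7_247, R14_346⟩]⟩, ⟨nat_lit 5, [⟨nat_lit 5, nat_lit 15072, nat_lit 14208, nat_lit 3936, nat_lit 11952, nat_lit 14016, R14_82, R7_249, R12_292⟩]⟩]⟩,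
 ⟨nat_lit 5, [⟨nat_lit 5, [⟨nat_lit 5, nat_lit 15888, nat_lit 14304, nat_lit 2304, nat_lit 10416, nat_lit 14592, R12_48, R2_217, R12_304⟩]⟩]⟩,
 ⟨nat_lit 6, [⟨nat_lit 4, [⟨nat_lit 5, nat_lit 15504, nat_lit 13872, nat_lit 11712, nat_lit 11040, nat_lit 16752, R2_244, R2_230, R14_349⟩]⟩, ⟨nat_lit 5, [⟨nat_lit 5, nat_lit 15648, nat_lit 14448, nat_lit 2112, nat_lit 11472, nat_lit 14160, R12_44, R2_239, R12_295⟩]⟩, ⟨nat_lit 6, [⟨nat_lit 5, nat_lit 15600, nat_lit 15072, nat_lit 12144, nat_lit 11184, nat_lit 15168, R1_253, R2_233, R12_316⟩]⟩]⟩]], [[], [], [], [], [⟨nat_lit 4, [⟨nat_lit 4, [⟨nat_lit 1, nat_lit 6000, nat_lit 7680, nat_lit 17328, nat_lit 10176, nat_lit 12576, R7_361, R8_212, R4_262⟩]⟩, ⟨nat_lit 5, [⟨nat_lit 1, nat_lit 6048, nat_lit 8832, nat_lit 3264, nat_lit 10272, nat_lit 7680, R14_68, R8_214, R3_160⟩]⟩]⟩,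
 ⟨nat_lit 7, [⟨nat_lit 4, [⟨nat_lit 1, nat_lit 6912, nat_lit 7824, nat_lit 14736, nat_lit 7392, nat_lit 12720, R2_307, R5_154, R4_265⟩]⟩, ⟨nat_lit 5, [⟨nat_lit 1, nat_lit 6960, nat_lit 9072, nat_lit 4176, nat_lit 7440, nat_lit 7728, R12_87, R5_155, R3_161⟩]⟩]⟩], [⟨nat_lit 4, [⟨nat_lit 5, [⟨nat_lit 1, nat_lit 6144, nat_lit 864, nat_lit 3360, nat_lit 10368, nat_lit 16800, R14_70, R8_216, R10_350⟩]⟩]⟩,
 ⟨nat_lit 7, [⟨nat_lit 5, [⟨nat_lit 1, nat_lit 7056, nat_lit 6096, nat_lit 4464, nat_lit 7824, nat_lit 16944, R12_93, R5_163, R10_353⟩]⟩]⟩], [], [⟨nat_lit 4, [⟨nat_lit 4, [⟨nat_lit 1, nat_lit 6336, nat_lit 8208, nat_lit 17760, nat_lit 10224, nat_lit 16320, R7_370, R8_213, R5_340⟩]⟩, ⟨nat_lit 5, [⟨nat_lit 1, nat_lit 6384, nat_lit 9648, nat_lit 3312, nat_lit 10320, nat_lit 816, R14_69, R8_215, R0_17⟩]⟩]⟩,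
 ⟨nat_lit 7, [⟨nat_lit 4, [⟨nat_lit 1, nat_lit 7200, nat_lit 8352, nat_lit 15360, nat_lit 7488, nat_lit 16656, R2_320, R5_156, R5_347⟩]⟩, ⟨nat_lit 5, [⟨nat_lit 1, nat_lit 7248, nat_lit 9888, nat_lit 4368, nat_lit 7632, nat_lit 864, R12_91, R5_159, R0_18⟩]⟩, ⟨nat_lit 7, [⟨nat_lit 1, nat_lit 7344, nat_lit 8784, nat_lit 16368, nat_lit 7536, nat_lit 2160, R1_341, R5_157, R11_45⟩]⟩]⟩]]], [[], [], [], [], [[], [⟨nat_lit 4, [⟨nat_lit 1, [⟨nat_lit 1, nat_lit 4800, nat_lit 1920, nat_lit 288, nat_lit 10464, nat_lit 432, R5_6, R6_218, R11_9⟩]⟩]⟩,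
 ⟨nat_lit 5, [⟨nat_lit 1, [⟨nat_lit 0, nat_lit 48, nat_lit 8736, nat_lit 14448, nat_lit 7344, nat_lit 1632, R0_301, R6_153, R5_34⟩, ⟨nat_lit 1, nat_lit 5088, nat_lit 10464, nat_lit 14592, nat_lit 13296, nat_lit 1200, R0_304, R13_277, R11_25⟩]⟩]⟩]], [[], [⟨nat_lit 5, [⟨nat_lit 1, [⟨nat_lit 0, nat_lit 192, nat_lit 8016, nat_lit 14496, nat_lit 8064, nat_lit 4032, R0_302, R4_168, R5_84⟩, ⟨nat_lit 1, nat_lit 5856, nat_lit 8064, nat_lit 14640, nat_lit 10176, nat_lit 4032, R0_305, R3_212, R11_84⟩]⟩]⟩]], [], [[], [⟨nat_lit 4, [⟨nat_lit 1, [⟨nat_lit 0, nat_lit 288, nat_lit 12624, nat_lit 4800, nat_lit 10464, nat_lit 1920, R5_100, R6_218, R5_40⟩, ⟨nat_lit 1, nat_lit 6480, nat_lit 12768, nat_lit 6480, nat_lit 10128, nat_lit 1920, R5_135, R8_211, R11_40⟩]⟩]⟩,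
 ⟨nat_lit 5, [⟨nat_lit 1, [⟨nat_lit 0, nat_lit 384, nat_lit 12672, nat_lit 14544, nat_lit 6864, nat_lit 2448, R0_303, R8_143, R5_51⟩, ⟨nat_lit 1, nat_lit 6864, nat_lit 12816, nat_lit 14688, nat_lit 10608, nat_lit 2448, R0_306, R9_221, R11_51⟩]⟩]⟩,
 ⟨nat_lit 7, [⟨nat_lit 1, [⟨nat_lit 0, nat_lit 624, nat_lit 12720, nat_lit 21888, nat_lit 10704, nat_lit 2112, R11_456, R4_223, R5_44⟩, ⟨nat_lit 1, nat_lit 7584, nat_lit 12864, nat_lit 21936, nat_lit 7296, nat_lit 2112, R11_457, R5_152, R11_44⟩]⟩]⟩], [], [], [], [⟨nat_lit 4, [⟨nat_lit 1, [⟨nat_lit 1, nat_lit 6240, nat_lit 1536, nat_lit 6240, nat_lit 10080, nat_lit 1536, R5_130, R8_210, R1_32⟩]⟩]⟩,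
 ⟨nat_lit 7, [⟨nat_lit 1, [⟨nat_lit 1, nat_lit 7152, nat_lit 6960, nat_lit 21840, nat_lit 7680, nat_lit 1584, R11_455, R5_160, R1_33⟩]⟩, ⟨nat_lit 5, [⟨nat_lit 1, nat_lit 7104, nat_lit 4704, nat_lit 4272, nat_lit 7776, nat_lit 19056, R1_89, R5_162, R10_397⟩]⟩]⟩]]]]
noncomputable def N2232 : T3 (List N0) := [[[[⟨nat_lit 0, [⟨nat_lit 0, [⟨nat_lit 2, nat_lit 0, nat_lit 384, nat_lit 720, nat_lit 1968, nat_lit 12624, R6_15, R4_41, R8_263⟩]⟩, ⟨nat_lit 2, [⟨nat_lit 2, nat_lit 576, nat_lit 2688, nat_lit 816, nat_lit 2448, nat_lit 8592, R8_17, R4_51, R5_179⟩]⟩]⟩,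
 ⟨nat_lit 3, [⟨nat_lit 0, [⟨nat_lit 2, nat_lit 144, nat_lit 5232, nat_lit 4704, nat_lit 1104, nat_lit 12768, R13_98, R5_23, R8_266⟩]⟩, ⟨nat_lit 2, [⟨nat_lit 2, nat_lit 960, nat_lit 7248, nat_lit 3840, nat_lit 1728, nat_lit 8640, R9_80, R5_36, R5_180⟩]⟩, ⟨nat_lit 3, [⟨nat_lit 2, nat_lit 1920, nat_lit 6576, nat_lit 480, nat_lit 1392, nat_lit 8208, R3_10, R5_29, R9_171⟩]⟩]⟩], [⟨nat_lit 0, [⟨nat_lit 0, [⟨nat_lit 2, nat_lit 48, nat_lit 288, nat_lit 1296, nat_lit 2160, nat_lit 13536, R6_27, R4_45, R9_282⟩]⟩, ⟨nat_lit 1, [⟨nat_lit 2, nat_lit 432, nat_lit 864, nat_lit 1200, nat_lit 2880, nat_lit 11664, R4_25, R4_60, R0_243⟩]⟩, ⟨nat_lit 2, [⟨nat_lit 2, nat_lit 624, nat_lit 2592, nat_lit 912, nat_lit 2592, nat_lit 624, R8_19, R4_54, R0_13⟩]⟩]⟩,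
 ⟨nat_lit 3, [⟨nat_lit 0, [⟨nat_lit 2, nat_lit 240, nat_lit 5520, nat_lit 6336, nat_lit 3504, nat_lit 13776, R13_132, R5_73, R9_287⟩]⟩, ⟨nat_lit 1, [⟨nat_lit 2, nat_lit 480, nat_lit 7248, nat_lit 4608, nat_lit 4272, nat_lit 11904, R3_96, R5_89, R0_248⟩]⟩, ⟨nat_lit 2, [⟨nat_lit 2, nat_lit 1056, nat_lit 7920, nat_lit 4752, nat_lit 4176, nat_lit 8400, R9_99, R5_87, R0_175⟩]⟩]⟩], [⟨nat_lit 0, [⟨nat_lit 0, [⟨nat_lit 2, nat_lit 96, nat_lit 4320, nat_lit 2880, nat_lit 2016, nat_lit 1824, R6_60, R4_42, R5_38⟩]⟩, ⟨nat_lit 2, [⟨nat_lit 2, nat_lit 672, nat_lit 4368, nat_lit 960, nat_lit 2496, nat_lit 11040, R8_20, R4_52, R11_230⟩, ⟨nat_lit 6, nat_lit 720, nat_lit 3936, nat_lit 1440, nat_lit 2448, nat_lit 9600, R8_30, R7_51, R1_200⟩]⟩]⟩,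
 ⟨nat_lit 2, [⟨nat_lit 2, [⟨nat_lit 6, nat_lit 816, nat_lit 11904, nat_lit 6384, nat_lit 19296, nat_lit 9648, R5_133, R14_402, R1_201⟩]⟩]⟩,
 ⟨nat_lit 3, [⟨nat_lit 0, [⟨nat_lit 2, nat_lit 336, nat_lit 9168, nat_lit 8496, nat_lit 2256, nat_lit 10272, R13_177, R5_47, R5_214⟩]⟩, ⟨nat_lit 2, [⟨nat_lit 2, nat_lit 1152, nat_lit 9264, nat_lit 6144, nat_lit 2496, nat_lit 11088, R9_128, R5_52, R11_231⟩]⟩, ⟨nat_lit 3, [⟨nat_lit 2, nat_lit 2016, nat_lit 9216, nat_lit 2592, nat_lit 2352, nat_lit 7440, R3_54, R5_49, R0_155⟩]⟩]⟩]], [], [[], [], [⟨nat_lit 2, [⟨nat_lit 2, [⟨nat_lit 6, nat_lit 864, nat_lit 7632, nat_lit 7248, nat_lit 15840, nat_lit 9888, R5_151, R12_330, R1_206⟩]⟩]⟩]], [[⟨nat_lit 3, [⟨nat_lit 0, [⟨nat_lit 2, nat_lit 192, nat_lit 5856, nat_lit 5328, nat_lit 672, nat_lit 12912, R13_111, R11_14, R8_269⟩]⟩, ⟨nat_lit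 2, [⟨nat_lit 2, nat_lit 1008, nat_lit 9312, nat_lit 4272, nat_lit 1296, nat_lit 10416, R9_89, R11_27, R5_217⟩]⟩, ⟨nat_lit 3, [⟨nat_lit 2, nat_lit 1968, nat_lit 7584, nat_lit 4080, nat_lit 960, nat_lit 9072, R3_85, R11_20, R9_189⟩]⟩]⟩,
 ⟨nat_lit 7, [⟨nat_lit 3, [⟨nat_lit 0, nat_lit 1296, nat_lit 8208, nat_lit 3648, nat_lit 8640, nat_lit 11520, R2_76, R2_180, R13_240⟩, ⟨nat_lit 2, nat_lit 1344, nat_lit 8304, nat_lit 3744, nat_lit 9456, nat_lit 9120, R2_78, R1_197, R9_190⟩, ⟨nat_lit 3, nat_lit 1392, nat_lit 8256, nat_lit 3696, nat_lit 10944, nat_lit 12144, R2_77, R12_228, R3_253⟩]⟩]⟩], [⟨nat_lit 3, [⟨nat_lit 0, [⟨nat_lit 2, nat_lit 288, nat_lit 4128, nat_lit 6912, nat_lit 3504, nat_lit 13920, R13_144, R11_73, R9_290⟩]⟩, ⟨nat_lit 1, [⟨nat_lit 2, nat_lit 528, nat_lit 5856, nat_lit 5280, nat_lit 4272, nat_lit 12048,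 R3_110, R11_89, R0_251⟩]⟩, ⟨nat_lit 2, [⟨nat_lit 2, nat_lit 1104, nat_lit 7392, nat_lit 5136, nat_lit 4176, nat_lit 8448, R9_107, R11_87, R0_176⟩]⟩]⟩,
 ⟨nat_lit 7, [⟨nat_lit 3, [⟨nat_lit 0, nat_lit 1440, nat_lit 6864, nat_lit 4512, nat_lit 10176, nat_lit 7872, R2_94, R2_212, R9_164⟩, ⟨nat_lit 3, nat_lit 1488, nat_lit 6912, nat_lit 4560, nat_lit 11040, nat_lit 13104, R2_95, R12_230, R0_273⟩]⟩]⟩], [⟨nat_lit 0, [⟨nat_lit 2, [⟨nat_lit 6, nat_lit 768, nat_lit 6288, nat_lit 7392, nat_lit 2640, nat_lit 10032, R8_154, R2_55, R1_209⟩]⟩]⟩,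
 ⟨nat_lit 2, [⟨nat_lit 2, [⟨nat_lit 6, nat_lit 912, nat_lit 7488, nat_lit 6816, nat_lit 1680, nat_lit 10080, R5_142, R12_35, R1_210⟩]⟩]⟩,
 ⟨nat_lit 3, [⟨nat_lit 0, [⟨nat_lit 2, nat_lit 384, nat_lit 4560, nat_lit 8928, nat_lit 2256, nat_lit 10320, R13_186, R11_47, R5_215⟩]⟩, ⟨nat_lit 2, [⟨nat_lit 2, nat_lit 1200, nat_lit 7152, nat_lit 6816, nat_lit 2496, nat_lit 13680, R9_142, R11_52, R11_285⟩, ⟨nat_lit 6, nat_lit 1248, nat_lit 7104, nat_lit 6864, nat_lit 2112, nat_lit 10128, R9_143, R1_44, R1_211⟩]⟩, ⟨nat_lit 3, [⟨nat_lit 2, nat_lit 2064, nat_lit 5568, nat_lit 7344, nat_lit 2352, nat_lit 8592, R3_153, R11_49, R0_179⟩]⟩]⟩,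
 ⟨nat_lit 7, [⟨nat_lit 3, [⟨nat_lit 0, nat_lit 1536, nat_lit 5952, nat_lit 6624, nat_lit 9552, nat_lit 8352, R2_138, R2_199, R3_174⟩, ⟨nat_lit 2, nat_lit 1584, nat_lit 6048, nat_lit 6720, nat_lit 10368, nat_lit 8640, R2_140, R1_216, R0_180⟩, ⟨nat_lit 3, nat_lit 1632, nat_lit 6000, nat_lit 6672, nat_lit 10992, nat_lit 10752, R2_139, R12_229, R10_224⟩]⟩]⟩], [⟨nat_lit 3, [⟨nat_lit 3, [⟨nat_lit 2, nat_lit 2112, nat_lit 5376, nat_lit 5808, nat_lit 1680, nat_lit 12096, R3_121, R11_35, R0_252⟩]⟩]⟩,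
 ⟨nat_lit 7, [⟨nat_lit 3, [⟨nat_lit 0, nat_lit 1824, nat_lit 13296, nat_lit 4992, nat_lit 9936, nat_lit 12864, R2_104, R2_207, R3_268⟩, ⟨nat_lit 2, nat_lit 1872, nat_lit 13488, nat_lit 5040, nat_lit 10752, nat_lit 11808, R2_105, R1_224, R0_246⟩]⟩]⟩]], [], [], [], [[], [], [], [⟨nat_lit 7, [⟨nat_lit 3, [⟨nat_lit 0, nat_lit 1680, nat_lit 6096, nat_lit 5616, nat_lit 14544, nat_lit 14448, R2_117, R3_303, R3_301⟩, ⟨nat_lit 1, nat_lit 1776, nat_lit 6144, nat_lit 5712, nat_lit 11472, nat_lit 11520, R2_119, R0_239, R10_240⟩, ⟨nat_lit 2, nat_lit 1728, nat_lit 6192, nat_lit 5664, nat_lit 11664, nat_lit 11424, R2_118, R10_243, R0_238⟩]⟩]⟩]]], [[[⟨nat_lit 0, [⟨nat_lit 0, [⟨nat_lit 2, nat_lit 7200, nat_lit 17952, nat_lit 5328, nat_lit 7488, nat_lit 16800, R8_111, R4_156, R8_350⟩]⟩, ⟨nat_lit 2, [⟨nat_lit 2, nat_lit 8304,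 nat_lit 18048, nat_lit 288, nat_lit 7776, nat_lit 10032, R9_6, R4_162, R5_209⟩]⟩]⟩,
 ⟨nat_lit 3, [⟨nat_lit 0, [⟨nat_lit 2, nat_lit 7632, nat_lit 18768, nat_lit 16416, nat_lit 9456, nat_lit 17088, R9_342, R5_197, R8_356⟩]⟩, ⟨nat_lit 3, [⟨nat_lit 2, nat_lit 9024, nat_lit 18864, nat_lit 7680, nat_lit 9840, nat_lit 8736, R0_160, R5_205, R9_182⟩]⟩]⟩], [⟨nat_lit 0, [⟨nat_lit 0, [⟨nat_lit 2, nat_lit 7296, nat_lit 3888, nat_lit 5376, nat_lit 7680, nat_lit 16896, R8_112, R4_160, R9_352⟩]⟩, ⟨nat_lit 1, [⟨nat_lit 2, nat_lit 8016, nat_lit 4032, nat_lit 192, nat_lit 8064, nat_lit 14496, R5_4, R4_168, R0_302⟩]⟩, ⟨nat_lit 2, [⟨nat_lit 2, nat_lit 8400, nat_lit 4176, nat_lit 384, nat_lit 7920, nat_lit 1056, R9_8, R4_165, R0_22⟩]⟩]⟩,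
 ⟨nat_lit 3, [⟨nat_lit 0, [⟨nat_lit 2, nat_lit 7776, nat_lit 12240, nat_lit 17280, nat_lit 11712, nat_lit 17184, R9_360, R5_244, R9_358⟩]⟩, ⟨nat_lit 1, [⟨nat_lit 2, nat_lit 8160, nat_lit 12480, nat_lit 14880, nat_lit 12624, nat_lit 14784, R0_310, R5_263, R0_308⟩]⟩]⟩], [⟨nat_lit 0, [⟨nat_lit 0, [⟨nat_lit 2, nat_lit 7392, nat_lit 3552, nat_lit 5424, nat_lit 7536, nat_lit 2304, R8_113, R4_157, R5_48⟩]⟩, ⟨nat_lit 2, [⟨nat_lit 2, nat_lit 8496, nat_lit 3600, nat_lit 432, nat_lit 7824, nat_lit 12480, R9_9, R4_163, R11_260⟩, ⟨nat_lit 6, nat_lit 8544, nat_lit 3120, nat_lit 768, nat_lit 7872, nat_lit 9792, R9_16, R7_164, R1_204⟩]⟩]⟩,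
 ⟨nat_lit 2, [⟨nat_lit 2, [⟨nat_lit 6, nat_lit 8880, nat_lit 12864, nat_lit 13008, nat_lit 20976, nat_lit 9840, R0_271, R14_437, R1_205⟩]⟩]⟩,
 ⟨nat_lit 3, [⟨nat_lit 0, [⟨nat_lit 2, nat_lit 7920, nat_lit 10032, nat_lit 18048, nat_lit 11088, nat_lit 11136, R9_376, R5_231, R5_232⟩]⟩, ⟨nat_lit 3, [⟨nat_lit 2, nat_lit 9168, nat_lit 10080, nat_lit 9072, nat_lit 11184, nat_lit 7968, R0_189, R5_233, R0_166⟩]⟩]⟩]], [[⟨nat_lit 0, [⟨nat_lit 0, [⟨nat_lit 2, nat_lit 7248, nat_lit 9792, nat_lit 5856, nat_lit 2544, nat_lit 16944, R8_122, R3_53, R8_353⟩]⟩, ⟨nat_lit 2, [⟨nat_lit 2, nat_lit 8352, nat_lit 12096, nat_lit 5424, nat_lit 7296, nat_lit 12336, R9_113, R3_152, R5_257⟩]⟩]⟩,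
 ⟨nat_lit 1, [⟨nat_lit 0, [⟨nat_lit 2, nat_lit 7488, nat_lit 9888, nat_lit 16992, nat_lit 5760, nat_lit 17472, R5_354, R10_120, R8_364⟩]⟩, ⟨nat_lit 2, [⟨nat_lit 2, nat_lit 8688, nat_lit 12144, nat_lit 3264, nat_lit 6240, nat_lit 12384, R0_68, R10_130, R5_258⟩]⟩]⟩,
 ⟨nat_lit 3, [⟨nat_lit 0, [⟨nat_lit 2, nat_lit 7680, nat_lit 9840, nat_lit 16512, nat_lit 9024, nat_lit 17376, R9_344, R0_188, R8_362⟩]⟩, ⟨nat_lit 3, [⟨nat_lit 2, nat_lit 9072, nat_lit 11184, nat_lit 7968, nat_lit 9168, nat_lit 10080, R0_166, R0_191, R9_210⟩]⟩]⟩], [⟨nat_lit 0, [⟨nat_lit 0, [⟨nat_lit 2, nat_lit 7344, nat_lit 12240, nat_lit 5904, nat_lit 2640, nat_lit 17040, R8_123, R3_55, R9_355⟩]⟩, ⟨nat_lit 1, [⟨nat_lit 2, nat_lit 8064, nat_lit 13296, nat_lit 5856, nat_lit 10176, nat_lit 14640, R5_122, R3_212, R0_305⟩]⟩, ⟨nat_lit 2, [⟨nat_lit 2, nat_lit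 8448, nat_lit 15072, nat_lit 5520, nat_lit 7392, nat_lit 1104, R9_115, R3_154, R0_23⟩]⟩]⟩,
 ⟨nat_lit 1, [⟨nat_lit 0, [⟨nat_lit 2, nat_lit 7536, nat_lit 12336, nat_lit 17376, nat_lit 5952, nat_lit 17616, R5_362, R10_124, R9_367⟩]⟩, ⟨nat_lit 1, [⟨nat_lit 2, nat_lit 8112, nat_lit 13392, nat_lit 22080, nat_lit 6672, nat_lit 15216, R11_460, R10_139, R0_317⟩]⟩, ⟨nat_lit 2, [⟨nat_lit 2, nat_lit 8736, nat_lit 15120, nat_lit 3360, nat_lit 6384, nat_lit 10368, R0_70, R10_133, R0_216⟩]⟩]⟩,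
 ⟨nat_lit 3, [⟨nat_lit 0, [⟨nat_lit 2, nat_lit 7824, nat_lit 12288, nat_lit 17376, nat_lit 9120, nat_lit 17472, R9_362, R0_190, R9_364⟩]⟩, ⟨nat_lit 1, [⟨nat_lit 2, nat_lit 8208, nat_lit 13344, nat_lit 14976, nat_lit 9264, nat_lit 15072, R0_312, R0_193, R0_314⟩]⟩]⟩], [⟨nat_lit 0, [⟨nat_lit 0, [⟨nat_lit 2, nat_lit 7440, nat_lit 2016, nat_lit 5952, nat_lit 2592, nat_lit 2352, R8_124, R3_54, R5_49⟩]⟩, ⟨nat_lit 2, [⟨nat_lit 2, nat_lit 8592, nat_lit 2064, nat_lit 5568, nat_lit 7344, nat_lit 15312, R9_116, R3_153, R11_319⟩, ⟨nat_lit 6, nat_lit 8640, nat_lit 1584, nat_lit 6048, nat_lit 6720, nat_lit 10368, R9_126, R2_140, R1_216⟩]⟩]⟩,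
 ⟨nat_lit 1, [⟨nat_lit 0, [⟨nat_lit 2, nat_lit 7584, nat_lit 7056, nat_lit 17712, nat_lit 5808, nat_lit 13536, R5_369, R10_121, R5_282⟩]⟩, ⟨nat_lit 2, [⟨nat_lit 2, nat_lit 8784, nat_lit 7104, nat_lit 3408, nat_lit 6288, nat_lit 15360, R0_71, R10_131, R11_320⟩, ⟨nat_lit 6, nat_lit 8832, nat_lit 6624, nat_lit 3888, nat_lit 5424, nat_lit 10464, R0_81, R1_113, R1_218⟩]⟩]⟩,
 ⟨nat_lit 2, [⟨nat_lit 2, [⟨nat_lit 6, nat_lit 8928, nat_lit 11040, nat_lit 13728, nat_lit 16752, nat_lit 10416, R0_286, R12_349, R1_217⟩]⟩]⟩,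
 ⟨nat_lit 3, [⟨nat_lit 0, [⟨nat_lit 2, nat_lit 7968, nat_lit 9168, nat_lit 18096, nat_lit 9072, nat_lit 11184, R9_377, R0_189, R5_233⟩]⟩, ⟨nat_lit 3, [⟨nat_lit 2, nat_lit 9216, nat_lit 9216, nat_lit 9216, nat_lit 9216, nat_lit 9216, R0_192, R0_192, R0_192⟩]⟩]⟩]], [[], [], [⟨nat_lit 2, [⟨nat_lit 2, [⟨nat_lit 6, nat_lit 8976, nat_lit 10848, nat_lit 13872, nat_lit 16512, nat_lit 9984, R0_289, R12_344, R1_208⟩]⟩]⟩]], [[⟨nat_lit 3, [⟨nat_lit 0, [⟨nat_lit 2, nat_lit 7728, nat_lit 8640, nat_lit 16464, nat_lit 11904, nat_lit 17232, R9_343, R11_248, R8_359⟩]⟩, ⟨nat_lit 3, [⟨nat_lit 2, nat_lit 9120, nat_lit 9744, nat_lit 7824, nat_lit 12288, nat_lit 9840, R0_163, R11_256, R9_205⟩]⟩]⟩], [⟨nat_lit 3, [⟨nat_lit 0, [⟨nat_lit 2, nat_lit 7872, nat_lit 7872, nat_lit 17328, nat_lit 14688, nat_lit 17328, R9_361, R11_306, R9_361⟩]⟩,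 ⟨nat_lit 1, [⟨nat_lit 2, nat_lit 8256, nat_lit 8256, nat_lit 14928, nat_lit 15600, nat_lit 14928, R0_311, R11_325, R0_311⟩]⟩]⟩]]], [[[], [], [⟨nat_lit 0, [⟨nat_lit 0, [⟨nat_lit 2, nat_lit 5616, nat_lit 17568, nat_lit 10608, nat_lit 10944, nat_lit 2016, R4_221, R4_228, R5_42⟩]⟩, ⟨nat_lit 2, [⟨nat_lit 2, nat_lit 5904, nat_lit 17616, nat_lit 5376, nat_lit 11328, nat_lit 11520, R5_112, R4_236, R11_240⟩, ⟨nat_lit 6, nat_lit 5952, nat_lit 13680, nat_lit 15216, nat_lit 11760, nat_lit 9696, R5_317, R7_245, R1_202⟩]⟩]⟩,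
 ⟨nat_lit 2, [⟨nat_lit 2, [⟨nat_lit 6, nat_lit 6048, nat_lit 13968, nat_lit 6000, nat_lit 22368, nat_lit 9744, R11_125, R14_466, R1_203⟩]⟩, ⟨nat_lit 6, [⟨nat_lit 4, nat_lit 3600, nat_lit 2832, nat_lit 5232, nat_lit 6528, nat_lit 1872, R1_109, R7_136, R3_39⟩, ⟨nat_lit 6, nat_lit 3648, nat_lit 14064, nat_lit 5280, nat_lit 22320, nat_lit 10848, R1_110, R14_465, R10_226⟩]⟩]⟩,
 ⟨nat_lit 3, [⟨nat_lit 0, [⟨nat_lit 2, nat_lit 5760, nat_lit 17664, nat_lit 17760, nat_lit 13488, nat_lit 10752, R3_370, R5_281, R5_224⟩]⟩, ⟨nat_lit 2, [⟨nat_lit 2, nat_lit 6288, nat_lit 17760, nat_lit 3984, nat_lit 13584, nat_lit 11568, R0_83, R5_283, R11_241⟩]⟩, ⟨nat_lit 3, [⟨nat_lit 2, nat_lit 7056, nat_lit 17712, nat_lit 5808, nat_lit 13536, nat_lit 7584, R10_121, R5_282, R0_158⟩]⟩]⟩,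
 ⟨nat_lit 6, [⟨nat_lit 7, [⟨nat_lit 7, nat_lit 4848, nat_lit 12000, nat_lit 4608, nat_lit 12048, nat_lit 13776, R0_96, R5_251, R11_287⟩]⟩]⟩]], [], [[], [], [⟨nat_lit 2, [⟨nat_lit 2, [⟨nat_lit 6, nat_lit 6096, nat_lit 7248, nat_lit 6864, nat_lit 17136, nat_lit 9936, R11_143, R12_357, R1_207⟩]⟩, ⟨nat_lit 6, [⟨nat_lit 4, nat_lit 3696, nat_lit 9264, nat_lit 5472, nat_lit 4704, nat_lit 6816, R1_114, R2_98, R3_142⟩, ⟨nat_lit 6, nat_lit 3744, nat_lit 9312, nat_lit 5520, nat_lit 17184, nat_lit 10896, R1_115, R12_358, R10_227⟩]⟩]⟩,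
 ⟨nat_lit 6, [⟨nat_lit 7, [⟨nat_lit 7, nat_lit 4896, nat_lit 8928, nat_lit 4752, nat_lit 10416, nat_lit 13824, R0_99, R0_217, R11_288⟩]⟩]⟩], [], [], [], [⟨nat_lit 2, [⟨nat_lit 6, [⟨nat_lit 4, nat_lit 3456, nat_lit 7536, nat_lit 5568, nat_lit 13680, nat_lit 13536, R1_116, R2_285, R2_282⟩, ⟨nat_lit 5, nat_lit 3552, nat_lit 7584, nat_lit 5664, nat_lit 15024, nat_lit 14880, R1_118, R1_313, R12_310⟩, ⟨nat_lit 6, nat_lit 3504, nat_lit 7632, nat_lit 5616, nat_lit 15456, nat_lit 14880, R1_117, R12_322, R1_310⟩]⟩]⟩,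
 ⟨nat_lit 6, [⟨nat_lit 4, [⟨nat_lit 4, nat_lit 2592, nat_lit 7296, nat_lit 10656, nat_lit 2016, nat_lit 6192, R3_222, R3_42, R7_129⟩, ⟨nat_lit 5, nat_lit 2640, nat_lit 7344, nat_lit 10848, nat_lit 12768, nat_lit 17328, R3_226, R10_266, R14_361⟩]⟩, ⟨nat_lit 6, [⟨nat_lit 4, nat_lit 3120, nat_lit 7680, nat_lit 6432, nat_lit 6960, nat_lit 4368, R10_134, R3_145, R2_91⟩, ⟨nat_lit 5, nat_lit 3168, nat_lit 7728, nat_lit 6480, nat_lit 12816, nat_lit 15072, R10_135, R10_267, R12_314⟩]⟩, ⟨nat_lit 7, [⟨nat_lit 4, nat_lit 4464, nat_lit 7392, nat_lit 5040, nat_lit 8496, nat_lit 9504, R0_105, R3_177, R2_198⟩, ⟨nat_lit 5, nat_lit 4512, nat_lit 7440, nat_lit 5136, nat_lit 12864, nat_lit 8688, R0_107, R10_268, R12_181⟩, ⟨nat_lit 7, nat_lit 4560, nat_lit 7488, nat_lit 5088, nat_lit 10464, nat_lit 10320, R0_106, R0_218, R1_215⟩]⟩]⟩]],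 [[⟨nat_lit 3, [⟨nat_lit 0, [⟨nat_lit 2, nat_lit 5712, nat_lit 8784, nat_lit 16512, nat_lit 16080, nat_lit 13968, R3_344, R11_335, R8_291⟩]⟩, ⟨nat_lit 2, [⟨nat_lit 2, nat_lit 6240, nat_lit 9600, nat_lit 2736, nat_lit 16368, nat_lit 10608, R0_57, R11_341, R5_221⟩]⟩, ⟨nat_lit 3, [⟨nat_lit 2, nat_lit 7008, nat_lit 9408, nat_lit 3744, nat_lit 16224, nat_lit 9264, R10_78, R11_338, R9_193⟩]⟩]⟩,
 ⟨nat_lit 4, [⟨nat_lit 7, [⟨nat_lit 3, nat_lit 4080, nat_lit 8064, nat_lit 15408, nat_lit 11280, nat_lit 9360, R5_321, R2_235, R2_195⟩]⟩]⟩,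
 ⟨nat_lit 6, [⟨nat_lit 7, [⟨nat_lit 3, nat_lit 4800, nat_lit 8160, nat_lit 4368, nat_lit 11856, nat_lit 9456, R0_91, R1_247, R2_197⟩]⟩]⟩,
 ⟨nat_lit 7, [⟨nat_lit 3, [⟨nat_lit 0, nat_lit 6432, nat_lit 9024, nat_lit 3120, nat_lit 8736, nat_lit 11760, R1_65, R2_182, R13_245⟩, ⟨nat_lit 2, nat_lit 6480, nat_lit 9456, nat_lit 3216, nat_lit 9552, nat_lit 9312, R1_67, R1_199, R9_194⟩, ⟨nat_lit 3, nat_lit 6528, nat_lit 9264, nat_lit 3168, nat_lit 11232, nat_lit 15600, R1_66, R12_234, R3_325⟩]⟩, ⟨nat_lit 7, [⟨nat_lit 3, nat_lit 5280, nat_lit 8112, nat_lit 6192, nat_lit 11328, nat_lit 9408, R11_129, R12_236, R2_196⟩]⟩]⟩], [], [⟨nat_lit 0, [⟨nat_lit 2, [⟨nat_lit 6, nat_lit 6000, nat_lit 4128, nat_lit 15792, nat_lit 11376, nat_lit 10176, R5_329, R2_237, R1_212⟩]⟩]⟩,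
 ⟨nat_lit 2, [⟨nat_lit 2, [⟨nat_lit 6, nat_lit 6144, nat_lit 5328, nat_lit 6432, nat_lit 11376, nat_lit 10224, R11_134, R12_237, R1_213⟩]⟩, ⟨nat_lit 6, [⟨nat_lit 4, nat_lit 3792, nat_lit 6576, nat_lit 5328, nat_lit 9648, nat_lit 8448, R1_111, R2_201, R3_176⟩, ⟨nat_lit 6, nat_lit 3840, nat_lit 6672, nat_lit 5376, nat_lit 11280, nat_lit 10944, R1_112, R12_235, R10_228⟩, ⟨nat_lit 7, nat_lit 3888, nat_lit 6624, nat_lit 5424, nat_lit 10464, nat_lit 8832, R1_113, R1_218, R0_184⟩]⟩]⟩,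
 ⟨nat_lit 3, [⟨nat_lit 0, [⟨nat_lit 2, nat_lit 5808, nat_lit 3024, nat_lit 17808, nat_lit 16704, nat_lit 10800, R3_371, R11_348, R5_225⟩]⟩, ⟨nat_lit 2, [⟨nat_lit 2, nat_lit 6336, nat_lit 4992, nat_lit 4656, nat_lit 16800, nat_lit 13872, R0_97, R11_350, R11_289⟩, ⟨nat_lit 6, nat_lit 6384, nat_lit 4944, nat_lit 4704, nat_lit 11952, nat_lit 10272, R0_98, R1_249, R1_214⟩]⟩, ⟨nat_lit 3, [⟨nat_lit 2, nat_lit 7104, nat_lit 3408, nat_lit 6288, nat_lit 16752, nat_lit 8784, R10_131, R11_349, R0_183⟩]⟩]⟩,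
 ⟨nat_lit 4, [⟨nat_lit 7, [⟨nat_lit 3, nat_lit 4128, nat_lit 6000, nat_lit 15792, nat_lit 11376, nat_lit 10176, R5_329, R2_237, R1_212⟩]⟩]⟩,
 ⟨nat_lit 6, [⟨nat_lit 4, [⟨nat_lit 7, nat_lit 3024, nat_lit 5808, nat_lit 17808, nat_lit 16704, nat_lit 10800, R3_371, R11_348, R5_225⟩]⟩, ⟨nat_lit 6, [⟨nat_lit 7, nat_lit 3408, nat_lit 7104, nat_lit 6288, nat_lit 16752, nat_lit 8784, R10_131, R11_349, R0_183⟩]⟩, ⟨nat_lit 7, [⟨nat_lit 3, nat_lit 4944, nat_lit 6384, nat_lit 4704, nat_lit 11952, nat_lit 10272, R0_98, R1_249, R1_214⟩, ⟨nat_lit 7, nat_lit 4992, nat_lit 6336, nat_lit 4656, nat_lit 16800, nat_lit 13872, R0_97, R11_350, R11_289⟩]⟩]⟩,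
 ⟨nat_lit 7, [⟨nat_lit 3, [⟨nat_lit 0, nat_lit 6576, nat_lit 3792, nat_lit 5328, nat_lit 9648, nat_lit 8448, R1_111, R2_201, R3_176⟩, ⟨nat_lit 2, nat_lit 6624, nat_lit 3888, nat_lit 5424, nat_lit 10464, nat_lit 8832, R1_113, R1_218, R0_184⟩, ⟨nat_lit 3, nat_lit 6672, nat_lit 3840, nat_lit 5376, nat_lit 11280, nat_lit 10944, R1_112, R12_235, R10_228⟩]⟩, ⟨nat_lit 7, [⟨nat_lit 3, nat_lit 5328, nat_lit 6144, nat_lit 6432, nat_lit 11376, nat_lit 10224, R11_134, R12_237, R1_213⟩]⟩]⟩], [⟨nat_lit 3, [⟨nat_lit 3, [⟨nat_lit 2, nat_lit 7152, nat_lit 4992, nat_lit 4416, nat_lit 16608, nat_lit 14208, R10_92, R11_346, R0_296⟩]⟩]⟩,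
 ⟨nat_lit 4, [⟨nat_lit 7, [⟨nat_lit 3, nat_lit 4320, nat_lit 7488, nat_lit 15696, nat_lit 11328, nat_lit 8736, R5_327, R2_236, R12_182⟩]⟩]⟩,
 ⟨nat_lit 6, [⟨nat_lit 7, [⟨nat_lit 3, nat_lit 5184, nat_lit 8304, nat_lit 4416, nat_lit 11904, nat_lit 8784, R0_92, R1_248, R12_183⟩]⟩]⟩,
 ⟨nat_lit 7, [⟨nat_lit 3, [⟨nat_lit 0, nat_lit 6864, nat_lit 5520, nat_lit 3696, nat_lit 9984, nat_lit 12960, R1_77, R2_208, R3_270⟩, ⟨nat_lit 2, nat_lit 6912, nat_lit 5568, nat_lit 3744, nat_lit 10800, nat_lit 14064, R1_78, R1_225, R0_293⟩]⟩, ⟨nat_lit 7, [⟨nat_lit 0, nat_lit 5472, nat_lit 8016, nat_lit 6240, nat_lit 7392, nat_lit 7344, R11_130, R2_154, R2_153⟩, ⟨nat_lit 3, nat_lit 5520, nat_lit 8064, nat_lit 6288, nat_lit 11424, nat_lit 8832, R11_131, R12_238, R12_184⟩]⟩]⟩]], [[], [], [], [], [⟨nat_lit 4, [⟨nat_lit 4, [⟨nat_lit 1, nat_lit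 2160, nat_lit 6096, nat_lit 15024, nat_lit 18192, nat_lit 5904, R4_313, R8_379, R4_123⟩]⟩]⟩,
 ⟨nat_lit 6, [⟨nat_lit 4, [⟨nat_lit 1, nat_lit 2400, nat_lit 6192, nat_lit 3552, nat_lit 3696, nat_lit 5952, R3_74, R5_77, R4_124⟩]⟩]⟩], [], [], [⟨nat_lit 4, [⟨nat_lit 4, [⟨nat_lit 1, nat_lit 2256, nat_lit 9360, nat_lit 15312, nat_lit 19056, nat_lit 8832, R4_319, R8_397, R5_184⟩]⟩, ⟨nat_lit 7, [⟨nat_lit 1, nat_lit 3936, nat_lit 9744, nat_lit 17040, nat_lit 19200, nat_lit 13920, R5_355, R8_400, R11_290⟩]⟩]⟩,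
 ⟨nat_lit 6, [⟨nat_lit 4, [⟨nat_lit 1, nat_lit 2688, nat_lit 11568, nat_lit 9504, nat_lit 11904, nat_lit 10512, R3_198, R5_248, R5_219⟩]⟩, ⟨nat_lit 7, [⟨nat_lit 1, nat_lit 4608, nat_lit 12000, nat_lit 4848, nat_lit 12048, nat_lit 13968, R0_101, R5_251, R11_291⟩]⟩]⟩]], [], [[], [], [], [], [⟨nat_lit 4, [⟨nat_lit 4, [⟨nat_lit 1, nat_lit 2208, nat_lit 912, nat_lit 15072, nat_lit 13392, nat_lit 6480, R4_314, R5_279, R4_135⟩]⟩]⟩,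
 ⟨nat_lit 6, [⟨nat_lit 4, [⟨nat_lit 1, nat_lit 2448, nat_lit 960, nat_lit 3600, nat_lit 16320, nat_lit 6528, R3_75, R11_340, R4_136⟩, ⟨nat_lit 5, nat_lit 2496, nat_lit 1632, nat_lit 3456, nat_lit 11664, nat_lit 6144, R3_72, R1_243, R7_128⟩]⟩, ⟨nat_lit 7, [⟨nat_lit 5, nat_lit 4368, nat_lit 8160, nat_lit 4800, nat_lit 11856, nat_lit 9456, R0_100, R1_247, R2_197⟩]⟩]⟩], [], [⟨nat_lit 6, [⟨nat_lit 4, [⟨nat_lit 5, nat_lit 2544, nat_lit 8256, nat_lit 10944, nat_lit 11712, nat_lit 17376, R3_228, R1_244, R14_362⟩]⟩, ⟨nat_lit 6, [⟨nat_lit 5, nat_lit 3072, nat_lit 8352, nat_lit 6528, nat_lit 11808, nat_lit 15024, R10_136, R1_246, R12_313⟩]⟩, ⟨nat_lit 7, [⟨nat_lit 5, nat_lit 4416, nat_lit 8304, nat_lit 5184, nat_lit 11904, nat_lit 8784, R0_108, R1_248, R12_183⟩]⟩]⟩], [⟨nat_lit 4, [⟨nat_lit 4, [⟨nat_lit 1, nat_lit 2304,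 nat_lit 6192, nat_lit 15408, nat_lit 13440, nat_lit 9120, R4_321, R5_280, R5_190⟩]⟩, ⟨nat_lit 7, [⟨nat_lit 1, nat_lit 3984, nat_lit 6288, nat_lit 17760, nat_lit 13584, nat_lit 14016, R5_370, R5_283, R11_292⟩]⟩]⟩,
 ⟨nat_lit 6, [⟨nat_lit 4, [⟨nat_lit 1, nat_lit 2736, nat_lit 6240, nat_lit 9600, nat_lit 16368, nat_lit 10608, R3_200, R11_341, R5_221⟩]⟩, ⟨nat_lit 7, [⟨nat_lit 1, nat_lit 4656, nat_lit 6336, nat_lit 4992, nat_lit 16800, nat_lit 14064, R0_104, R11_350, R11_293⟩, ⟨nat_lit 5, nat_lit 4704, nat_lit 6384, nat_lit 4944, nat_lit 11952, nat_lit 10272, R0_103, R1_249, R1_214⟩]⟩]⟩]], [[], [], [], [⟨nat_lit 4, [⟨nat_lit 7, [⟨nat_lit 0, nat_lit 4176, nat_lit 6480, nat_lit 14640, nat_lit 14016, nat_lit 8592, R5_305, R13_292, R2_179⟩, ⟨nat_lit 1, nat_lit 4224, nat_lit 6576, nat_lit 17280, nat_lit 11664, nat_lit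 9408, R5_360, R9_243, R1_196⟩, ⟨nat_lit 3, nat_lit 4272, nat_lit 6528, nat_lit 16176, nat_lit 17280, nat_lit 8640, R5_337, R3_360, R12_180⟩]⟩]⟩,
 ⟨nat_lit 6, [⟨nat_lit 7, [⟨nat_lit 0, nat_lit 5040, nat_lit 7392, nat_lit 4464, nat_lit 8496, nat_lit 9504, R0_93, R3_177, R2_198⟩, ⟨nat_lit 1, nat_lit 5088, nat_lit 7488, nat_lit 4560, nat_lit 10464, nat_lit 10320, R0_95, R0_218, R1_215⟩, ⟨nat_lit 3, nat_lit 5136, nat_lit 7440, nat_lit 4512, nat_lit 12864, nat_lit 8688, R0_94, R10_268, R12_181⟩]⟩]⟩,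
 ⟨nat_lit 7, [⟨nat_lit 3, [⟨nat_lit 0, nat_lit 6720, nat_lit 4800, nat_lit 4320, nat_lit 15120, nat_lit 15072, R1_90, R3_315, R3_314⟩, ⟨nat_lit 1, nat_lit 6816, nat_lit 4848, nat_lit 4416, nat_lit 14352, nat_lit 11616, R1_92, R0_299, R10_242⟩, ⟨nat_lit 2, nat_lit 6768, nat_lit 4896, nat_lit 4368, nat_lit 11760, nat_lit 14016, R1_91, R10_245, R0_292⟩]⟩, ⟨nat_lit 7, [⟨nat_lit 0, nat_lit 5376, nat_lit 7056, nat_lit 6336, nat_lit 13056, nat_lit 9888, R11_132, R3_272, R2_206⟩, ⟨nat_lit 1, nat_lit 5424, nat_lit 7104, nat_lit 6384, nat_lit 15120, nat_lit 10704, R11_133, R0_315, R1_223⟩]⟩]⟩], [], [], [], [⟨nat_lit 4, [⟨nat_lit 4, [⟨nat_lit 1, nat_lit 2352, nat_lit 8736, nat_lit 15360, nat_lit 11472, nat_lit 8976, R4_320, R9_239, R5_187⟩]⟩, ⟨nat_lit 7, [⟨nat_lit 1, nat_lit 4032, nat_lit 8832, nat_lit 17424, nat_lit 11616,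 nat_lit 14112, R5_363, R9_242, R11_294⟩]⟩]⟩,
 ⟨nat_lit 6, [⟨nat_lit 4, [⟨nat_lit 1, nat_lit 2784, nat_lit 8784, nat_lit 9552, nat_lit 9984, nat_lit 10560, R3_199, R0_208, R5_220⟩]⟩, ⟨nat_lit 7, [⟨nat_lit 1, nat_lit 4752, nat_lit 8928, nat_lit 4896, nat_lit 10416, nat_lit 14160, R0_102, R0_217, R11_295⟩]⟩]⟩,
 ⟨nat_lit 7, [⟨nat_lit 7, [⟨nat_lit 1, nat_lit 5232, nat_lit 8880, nat_lit 6480, nat_lit 15264, nat_lit 14208, R11_135, R0_318, R11_296⟩]⟩]⟩]]], [[], [], [], [[⟨nat_lit 3, [⟨nat_lit 0, [⟨nat_lit 2, nat_lit 9888, nat_lit 16608, nat_lit 8736, nat_lit 8016, nat_lit 14640, R3_182, R11_167, R8_305⟩]⟩, ⟨nat_lit 2, [⟨nat_lit 2, nat_lit 10320, nat_lit 17904, nat_lit 2976, nat_lit 8352, nat_lit 10896, R0_62, R11_174, R5_227⟩]⟩]⟩,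
 ⟨nat_lit 7, [⟨nat_lit 0, [⟨nat_lit 0, nat_lit 9456, nat_lit 11280, nat_lit 14496, nat_lit 7632, nat_lit 13248, R2_302, R2_159, R6_276⟩, ⟨nat_lit 2, nat_lit 9504, nat_lit 16272, nat_lit 14640, nat_lit 8160, nat_lit 14736, R2_305, R1_170, R8_307⟩]⟩, ⟨nat_lit 3, [⟨nat_lit 0, nat_lit 10656, nat_lit 12240, nat_lit 4608, nat_lit 8688, nat_lit 12144, R12_96, R2_181, R13_253⟩, ⟨nat_lit 2, nat_lit 10704, nat_lit 17088, nat_lit 4656, nat_lit 9504, nat_lit 9408, R12_97, R1_198, R9_196⟩, ⟨nat_lit 3, nat_lit 10752, nat_lit 14976, nat_lit 4704, nat_lit 11088, nat_lit 14832, R12_98, R12_231, R3_309⟩]⟩]⟩], [⟨nat_lit 3, [⟨nat_lit 0, [⟨nat_lit 2, nat_lit 9936, nat_lit 9744, nat_lit 9360, nat_lit 9744, nat_lit 15696, R3_195, R11_203, R9_327⟩]⟩, ⟨nat_lit 1, [⟨nat_lit 2, nat_lit 10272, nat_lit 10320, nat_lit 19872, nat_lit 10272,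 nat_lit 14160, R10_414, R11_214, R0_295⟩]⟩, ⟨nat_lit 2, [⟨nat_lit 2, nat_lit 10368, nat_lit 12048, nat_lit 3360, nat_lit 10176, nat_lit 8736, R0_70, R11_212, R0_182⟩]⟩]⟩,
 ⟨nat_lit 7, [⟨nat_lit 0, [⟨nat_lit 0, nat_lit 9696, nat_lit 9168, nat_lit 15072, nat_lit 8112, nat_lit 14976, R2_314, R2_169, R8_312⟩, ⟨nat_lit 2, nat_lit 9744, nat_lit 9792, nat_lit 15216, nat_lit 8640, nat_lit 15792, R2_317, R1_180, R9_329⟩]⟩, ⟨nat_lit 1, [⟨nat_lit 0, nat_lit 10176, nat_lit 10080, nat_lit 16080, nat_lit 10272, nat_lit 7872, R1_335, R2_214, R5_164⟩, ⟨nat_lit 2, nat_lit 10224, nat_lit 10368, nat_lit 16224, nat_lit 10848, nat_lit 14256, R1_338, R1_226, R0_297⟩]⟩, ⟨nat_lit 3, [⟨nat_lit 0, nat_lit 10896, nat_lit 10656, nat_lit 4896, nat_lit 10224, nat_lit 7920, R12_102, R2_213, R9_165⟩, ⟨nat_lit 3, nat_lit 10944, nat_lit 11328,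 nat_lit 4944, nat_lit 11184, nat_lit 13248, R12_103, R12_233, R0_276⟩]⟩]⟩], [⟨nat_lit 3, [⟨nat_lit 0, [⟨nat_lit 2, nat_lit 9984, nat_lit 2784, nat_lit 9552, nat_lit 8784, nat_lit 10560, R3_199, R11_183, R5_220⟩]⟩, ⟨nat_lit 2, [⟨nat_lit 2, nat_lit 10416, nat_lit 4752, nat_lit 4896, nat_lit 8928, nat_lit 14160, R0_102, R11_186, R11_295⟩, ⟨nat_lit 6, nat_lit 10464, nat_lit 5088, nat_lit 4560, nat_lit 7488, nat_lit 10320, R0_95, R1_156, R1_215⟩]⟩]⟩,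
 ⟨nat_lit 7, [⟨nat_lit 0, [⟨nat_lit 0, nat_lit 9792, nat_lit 12480, nat_lit 15600, nat_lit 7968, nat_lit 12864, R2_325, R2_166, R4_268⟩, ⟨nat_lit 2, nat_lit 9840, nat_lit 12576, nat_lit 15696, nat_lit 8496, nat_lit 16800, R2_327, R1_177, R5_350⟩]⟩, ⟨nat_lit 3, [⟨nat_lit 0, nat_lit 10992, nat_lit 13440, nat_lit 5232, nat_lit 9600, nat_lit 8400, R12_109, R2_200, R3_175⟩, ⟨nat_lit 2, nat_lit 11040, nat_lit 13728, nat_lit 5280, nat_lit 10416, nat_lit 8928, R12_110, R1_217, R0_186⟩, ⟨nat_lit 3, nat_lit 11088, nat_lit 13632, nat_lit 5328, nat_lit 11136, nat_lit 11472, R12_111, R12_232, R10_239⟩]⟩]⟩]], [], [], [], [[⟨nat_lit 7, [⟨nat_lit 0, [⟨nat_lit 0, nat_lit 9312, nat_lit 7584, nat_lit 14544, nat_lit 11328, nat_lit 12480, R2_303, R3_236, R6_260⟩, ⟨nat_lit 1, nat_lit 9408, nat_lit 7920, nat_lit 14784, nat_lit 12624,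 nat_lit 12816, R2_308, R0_263, R4_267⟩, ⟨nat_lit 2, nat_lit 9360, nat_lit 8064, nat_lit 14688, nat_lit 9216, nat_lit 14784, R2_306, R10_192, R8_308⟩]⟩, ⟨nat_lit 3, [⟨nat_lit 0, nat_lit 10512, nat_lit 8400, nat_lit 4752, nat_lit 12288, nat_lit 10176, R12_99, R3_256, R13_212⟩, ⟨nat_lit 1, nat_lit 10608, nat_lit 9168, nat_lit 4848, nat_lit 13776, nat_lit 8304, R12_101, R0_287, R3_173⟩, ⟨nat_lit 2, nat_lit 10560, nat_lit 10128, nat_lit 4800, nat_lit 10800, nat_lit 7824, R12_100, R10_225, R9_163⟩]⟩]⟩], [⟨nat_lit 7, [⟨nat_lit 0, [⟨nat_lit 0, nat_lit 9552, nat_lit 8112, nat_lit 15120, nat_lit 16320, nat_lit 14928, R2_315, R3_340, R8_311⟩, ⟨nat_lit 1, nat_lit 9648, nat_lit 8448, nat_lit 15408, nat_lit 12672, nat_lit 16704, R2_321, R0_264, R5_348⟩, ⟨nat_lit 2, nat_lit 9600, nat_lit 8592, nat_lit 15264, nat_lit 9840,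 nat_lit 15840, R2_318, R10_205, R9_330⟩]⟩, ⟨nat_lit 1, [⟨nat_lit 0, nat_lit 10032, nat_lit 8736, nat_lit 16128, nat_lit 17616, nat_lit 10992, R1_336, R3_367, R5_229⟩, ⟨nat_lit 1, nat_lit 10128, nat_lit 8880, nat_lit 16416, nat_lit 13968, nat_lit 14256, R1_342, R0_291, R11_297⟩, ⟨nat_lit 2, nat_lit 10080, nat_lit 8928, nat_lit 16272, nat_lit 12144, nat_lit 14304, R1_339, R10_253, R0_298⟩]⟩, ⟨nat_lit 3, [⟨nat_lit 0, nat_lit 10800, nat_lit 9216, nat_lit 4992, nat_lit 17136, nat_lit 9456, R12_104, R3_357, R9_197⟩, ⟨nat_lit 1, nat_lit 10848, nat_lit 9984, nat_lit 5040, nat_lit 13872, nat_lit 8976, R12_105, R0_289, R0_187⟩]⟩]⟩], [], [⟨nat_lit 7, [⟨nat_lit 3, [⟨nat_lit 0, nat_lit 11136, nat_lit 6192, nat_lit 5088, nat_lit 15024, nat_lit 14880, R12_106, R3_313, R3_310⟩, ⟨nat_lit 1, nat_lit 11232, nat_lit 6240, nat_lit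 5184, nat_lit 13824, nat_lit 11568, R12_108, R0_288, R10_241⟩, ⟨nat_lit 2, nat_lit 11184, nat_lit 6288, nat_lit 5136, nat_lit 11712, nat_lit 13200, R12_107, R10_244, R0_275⟩]⟩]⟩]]], [[], [], [], [], [[], [⟨nat_lit 4, [⟨nat_lit 1, [⟨nat_lit 0, nat_lit 11616, nat_lit 720, nat_lit 1056, nat_lit 3168, nat_lit 8688, R4_22, R6_66, R5_181⟩, ⟨nat_lit 1, nat_lit 11712, nat_lit 768, nat_lit 1248, nat_lit 4416, nat_lit 11136, R4_26, R8_92, R11_232⟩, ⟨nat_lit 2, nat_lit 11664, nat_lit 864, nat_lit 1200, nat_lit 2880, nat_lit 432, R4_25, R4_60, R0_9⟩]⟩]⟩,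
 ⟨nat_lit 5, [⟨nat_lit 1, [⟨nat_lit 0, nat_lit 11856, nat_lit 7104, nat_lit 4560, nat_lit 18096, nat_lit 10080, R3_95, R8_377, R5_210⟩, ⟨nat_lit 1, nat_lit 11952, nat_lit 7152, nat_lit 4704, nat_lit 3648, nat_lit 12528, R3_98, R9_76, R11_261⟩, ⟨nat_lit 2, nat_lit 11904, nat_lit 7248, nat_lit 4608, nat_lit 4272, nat_lit 480, R3_96, R5_89, R0_10⟩]⟩]⟩], [], [], [], [⟨nat_lit 4, [⟨nat_lit 1, [⟨nat_lit 1, nat_lit 11520, nat_lit 864, nat_lit 1776, nat_lit 4224, nat_lit 10512, R4_37, R8_88, R1_219⟩]⟩, ⟨nat_lit 5, [⟨nat_lit 1, nat_lit 11280, nat_lit 1440, nat_lit 1920, nat_lit 4080, nat_lit 13248, R7_40, R8_85, R10_276⟩]⟩]⟩,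
 ⟨nat_lit 5, [⟨nat_lit 1, [⟨nat_lit 1, nat_lit 11760, nat_lit 6864, nat_lit 12672, nat_lit 3408, nat_lit 10560, R3_264, R9_71, R1_220⟩]⟩, ⟨nat_lit 5, [⟨nat_lit 1, nat_lit 11376, nat_lit 7440, nat_lit 480, nat_lit 3264, nat_lit 13392, R2_10, R9_68, R10_279⟩]⟩]⟩]], [[], [⟨nat_lit 5, [⟨nat_lit 1, [⟨nat_lit 0, nat_lit 12000, nat_lit 5664, nat_lit 5232, nat_lit 12576, nat_lit 12432, R3_109, R5_262, R5_259⟩, ⟨nat_lit 1, nat_lit 12096, nat_lit 5808, nat_lit 5376, nat_lit 2112, nat_lit 15408, R3_112, R0_44, R11_321⟩, ⟨nat_lit 2, nat_lit 12048, nat_lit 5856, nat_lit 5280, nat_lit 4272, nat_lit 528, R3_110, R11_89, R0_11⟩]⟩]⟩], [], [], [], [⟨nat_lit 5, [⟨nat_lit 1, [⟨nat_lit 1, nat_lit 11808, nat_lit 5040, nat_lit 13488, nat_lit 1872, nat_lit 10752, R3_281, R0_39, R1_224⟩]⟩, ⟨nat_lit 5, [⟨nat_lit 1, nat_lit 11424, nat_lit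 5664, nat_lit 6192, nat_lit 1728, nat_lit 13920, R2_129, R0_36, R10_290⟩]⟩]⟩]], [], [[], [], [], [], [], [⟨nat_lit 4, [⟨nat_lit 1, [⟨nat_lit 1, nat_lit 11568, nat_lit 2208, nat_lit 8496, nat_lit 10272, nat_lit 10608, R4_177, R9_214, R1_221⟩]⟩, ⟨nat_lit 5, [⟨nat_lit 1, nat_lit 11328, nat_lit 432, nat_lit 8544, nat_lit 12144, nat_lit 13536, R7_178, R9_253, R10_282⟩]⟩]⟩,
 ⟨nat_lit 7, [⟨nat_lit 5, [⟨nat_lit 1, nat_lit 11472, nat_lit 6144, nat_lit 5712, nat_lit 1776, nat_lit 13680, R2_119, R0_37, R10_285⟩]⟩]⟩]]], [[], [[], [⟨nat_lit 1, [⟨nat_lit 1, [⟨nat_lit 2, nat_lit 14304, nat_lit 8928, nat_lit 16272, nat_lit 19008, nat_lit 10080, R1_339, R10_396, R0_210⟩]⟩]⟩]], [], [], [], [[], [⟨nat_lit 1, [⟨nat_lit 1, [⟨nat_lit 2, nat_lit 14256, nat_lit 18816, nat_lit 16224, nat_lit 10848, nat_lit 10224, R1_338, R1_226, R0_213⟩]⟩]⟩,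
 ⟨nat_lit 5, [⟨nat_lit 1, [⟨nat_lit 0, nat_lit 14112, nat_lit 4368, nat_lit 4800, nat_lit 12672, nat_lit 12528, R10_100, R5_264, R5_261⟩, ⟨nat_lit 1, nat_lit 14208, nat_lit 4416, nat_lit 4992, nat_lit 7152, nat_lit 15504, R10_104, R0_149, R11_323⟩, ⟨nat_lit 2, nat_lit 14160, nat_lit 4512, nat_lit 4944, nat_lit 10272, nat_lit 10272, R10_103, R11_214, R0_214⟩]⟩]⟩], [], [], [], [⟨nat_lit 5, [⟨nat_lit 1, [⟨nat_lit 1, nat_lit 14064, nat_lit 3744, nat_lit 5568, nat_lit 6912, nat_lit 10800, R10_116, R0_144, R1_225⟩]⟩, ⟨nat_lit 5, [⟨nat_lit 1, nat_lit 14016, nat_lit 4368, nat_lit 4896, nat_lit 6768, nat_lit 19584, R1_102, R0_141, R10_408⟩]⟩]⟩]]], [[], [], [], [], [[], [], [], [], [⟨nat_lit 4, [⟨nat_lit 4, [⟨nat_lit 1, nat_lit 12144, nat_lit 5616, nat_lit 17424, nat_lit 11328, nat_lit 12480, R7_363, R8_236, R4_260⟩]⟩,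 ⟨nat_lit 5, [⟨nat_lit 1, nat_lit 12720, nat_lit 6288, nat_lit 9072, nat_lit 11472, nat_lit 1728, R14_189, R8_239, R3_36⟩]⟩]⟩,
 ⟨nat_lit 6, [⟨nat_lit 4, [⟨nat_lit 1, nat_lit 12336, nat_lit 5664, nat_lit 15552, nat_lit 2736, nat_lit 12528, R2_324, R5_57, R4_261⟩]⟩, ⟨nat_lit 5, [⟨nat_lit 1, nat_lit 13296, nat_lit 6480, nat_lit 4512, nat_lit 2880, nat_lit 1824, R12_94, R5_60, R3_38⟩]⟩]⟩], [⟨nat_lit 4, [⟨nat_lit 5, [⟨nat_lit 1, nat_lit 12864, nat_lit 19152, nat_lit 9120, nat_lit 12048, nat_lit 16080, R14_190, R8_251, R10_335⟩]⟩]⟩,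
 ⟨nat_lit 5, [⟨nat_lit 5, [⟨nat_lit 1, nat_lit 13152, nat_lit 20832, nat_lit 7728, nat_lit 13008, nat_lit 16272, R12_161, R9_271, R10_339⟩]⟩]⟩,
 ⟨nat_lit 6, [⟨nat_lit 5, [⟨nat_lit 1, nat_lit 13488, nat_lit 22128, nat_lit 4560, nat_lit 14112, nat_lit 16128, R12_95, R5_294, R10_336⟩]⟩]⟩]], [[], [], [], [], [], [⟨nat_lit 5, [⟨nat_lit 5, [⟨nat_lit 1, nat_lit 13200, nat_lit 16608, nat_lit 8016, nat_lit 11184, nat_lit 18288, R12_167, R0_233, R10_381⟩]⟩]⟩]], [[], [], [], [], [⟨nat_lit 4, [⟨nat_lit 4, [⟨nat_lit 1, nat_lit 12192, nat_lit 4032, nat_lit 17520, nat_lit 13056, nat_lit 12960, R7_365, R5_272, R4_270⟩]⟩, ⟨nat_lit 5, [⟨nat_lit 1, nat_lit 12768, nat_lit 4464, nat_lit 11424, nat_lit 14160, nat_lit 6672, R14_238, R5_295, R3_139⟩]⟩]⟩,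
 ⟨nat_lit 6, [⟨nat_lit 4, [⟨nat_lit 1, nat_lit 12384, nat_lit 4080, nat_lit 15648, nat_lit 15984, nat_lit 13008, R2_326, R11_333, R4_271⟩, ⟨nat_lit 5, nat_lit 12432, nat_lit 12720, nat_lit 11616, nat_lit 11568, nat_lit 14112, R2_242, R1_241, R7_294⟩]⟩, ⟨nat_lit 5, [⟨nat_lit 1, nat_lit 13344, nat_lit 4656, nat_lit 5808, nat_lit 17232, nat_lit 6768, R12_121, R11_359, R3_141⟩, ⟨nat_lit 5, nat_lit 13392, nat_lit 13632, nat_lit 6528, nat_lit 12000, nat_lit 13392, R12_136, R1_250, R2_279⟩]⟩]⟩], [⟨nat_lit 4, [⟨nat_lit 5, [⟨nat_lit 1, nat_lit 12912, nat_lit 15792, nat_lit 11472, nat_lit 14208, nat_lit 17712, R14_239, R5_296, R10_369⟩]⟩]⟩,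
 ⟨nat_lit 5, [⟨nat_lit 5, [⟨nat_lit 1, nat_lit 13248, nat_lit 16464, nat_lit 9600, nat_lit 10944, nat_lit 17856, R12_200, R0_228, R10_372⟩]⟩]⟩,
 ⟨nat_lit 6, [⟨nat_lit 5, [⟨nat_lit 1, nat_lit 13536, nat_lit 17088, nat_lit 5856, nat_lit 17280, nat_lit 17760, R12_122, R11_360, R10_370⟩, ⟨nat_lit 5, nat_lit 13584, nat_lit 15408, nat_lit 6576, nat_lit 12096, nat_lit 14736, R12_137, R1_252, R1_307⟩]⟩]⟩], [⟨nat_lit 6, [⟨nat_lit 4, [⟨nat_lit 5, nat_lit 12528, nat_lit 14064, nat_lit 11760, nat_lit 11616, nat_lit 16800, R2_245, R1_242, R14_350⟩]⟩, ⟨nat_lit 5, [⟨nat_lit 5, nat_lit 13680, nat_lit 14976, nat_lit 6624, nat_lit 12048, nat_lit 14208, R12_138, R1_251, R12_296⟩]⟩, ⟨nat_lit 6, [⟨nat_lit 5, nat_lit 13920, nat_lit 15168, nat_lit 12192, nat_lit 11760, nat_lit 15216, R1_254, R1_245, R12_317⟩]⟩]⟩]], [[], [], [], [],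 [⟨nat_lit 4, [⟨nat_lit 4, [⟨nat_lit 1, nat_lit 12240, nat_lit 7776, nat_lit 17472, nat_lit 11280, nat_lit 12672, R7_364, R9_235, R4_264⟩]⟩, ⟨nat_lit 5, [⟨nat_lit 1, nat_lit 12816, nat_lit 9024, nat_lit 10848, nat_lit 12816, nat_lit 8256, R14_226, R9_267, R3_172⟩]⟩]⟩,
 ⟨nat_lit 6, [⟨nat_lit 4, [⟨nat_lit 1, nat_lit 12480, nat_lit 7968, nat_lit 15600, nat_lit 9792, nat_lit 12864, R2_325, R0_204, R4_268⟩]⟩, ⟨nat_lit 5, [⟨nat_lit 1, nat_lit 13440, nat_lit 9600, nat_lit 5232, nat_lit 10992, nat_lit 8400, R12_109, R0_229, R3_175⟩]⟩]⟩,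
 ⟨nat_lit 7, [⟨nat_lit 4, [⟨nat_lit 1, nat_lit 12624, nat_lit 7920, nat_lit 14784, nat_lit 9408, nat_lit 12816, R2_308, R0_196, R4_267⟩]⟩, ⟨nat_lit 5, [⟨nat_lit 1, nat_lit 13776, nat_lit 9168, nat_lit 4848, nat_lit 10608, nat_lit 8304, R12_101, R0_221, R3_173⟩]⟩]⟩], [⟨nat_lit 4, [⟨nat_lit 5, [⟨nat_lit 1, nat_lit 12960, nat_lit 1392, nat_lit 10944, nat_lit 12912, nat_lit 16896, R14_228, R9_269, R10_352⟩]⟩]⟩,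
 ⟨nat_lit 6, [⟨nat_lit 5, [⟨nat_lit 1, nat_lit 13632, nat_lit 11136, nat_lit 5328, nat_lit 11088, nat_lit 17088, R12_111, R0_231, R10_356⟩]⟩]⟩,
 ⟨nat_lit 7, [⟨nat_lit 5, [⟨nat_lit 1, nat_lit 13824, nat_lit 6240, nat_lit 5184, nat_lit 11232, nat_lit 17040, R12_108, R0_234, R10_355⟩]⟩]⟩], [], [⟨nat_lit 4, [⟨nat_lit 4, [⟨nat_lit 1, nat_lit 12288, nat_lit 8304, nat_lit 17808, nat_lit 11328, nat_lit 16368, R7_371, R9_236, R5_341⟩]⟩, ⟨nat_lit 5, [⟨nat_lit 1, nat_lit 13008, nat_lit 9840, nat_lit 10896, nat_lit 12864, nat_lit 8880, R14_227, R9_268, R0_185⟩]⟩]⟩,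
 ⟨nat_lit 6, [⟨nat_lit 4, [⟨nat_lit 1, nat_lit 12576, nat_lit 8496, nat_lit 15696, nat_lit 9840, nat_lit 16800, R2_327, R0_205, R5_350⟩]⟩, ⟨nat_lit 5, [⟨nat_lit 1, nat_lit 13728, nat_lit 10416, nat_lit 5280, nat_lit 11040, nat_lit 8928, R12_110, R0_230, R0_186⟩]⟩]⟩,
 ⟨nat_lit 7, [⟨nat_lit 4, [⟨nat_lit 1, nat_lit 12672, nat_lit 8448, nat_lit 15408, nat_lit 9648, nat_lit 16704, R2_321, R0_201, R5_348⟩]⟩, ⟨nat_lit 5, [⟨nat_lit 1, nat_lit 13872, nat_lit 9984, nat_lit 5040, nat_lit 10848, nat_lit 8976, R12_105, R0_226, R0_187⟩]⟩, ⟨nat_lit 7, [⟨nat_lit 1, nat_lit 13968, nat_lit 8880, nat_lit 16416, nat_lit 10128, nat_lit 14256, R1_342, R0_211, R11_297⟩]⟩]⟩]]], [[], [], [], [], [[], [⟨nat_lit 4, [⟨nat_lit 1, [⟨nat_lit 0, nat_lit 14448, nat_lit 1632, nat_lit 48, nat_lit 7344, nat_lit 8736, R5_1, R6_153, R5_182⟩, ⟨nat_lit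 1, nat_lit 14544, nat_lit 2448, nat_lit 384, nat_lit 9312, nat_lit 11184, R5_8, R8_194, R11_233⟩, ⟨nat_lit 2, nat_lit 14496, nat_lit 4032, nat_lit 192, nat_lit 8064, nat_lit 8016, R5_4, R4_168, R0_167⟩]⟩]⟩,
 ⟨nat_lit 5, [⟨nat_lit 1, [⟨nat_lit 0, nat_lit 14736, nat_lit 10128, nat_lit 14736, nat_lit 18960, nat_lit 10128, R0_307, R8_395, R5_211⟩, ⟨nat_lit 1, nat_lit 14832, nat_lit 11280, nat_lit 15024, nat_lit 10128, nat_lit 12576, R0_313, R9_211, R11_262⟩, ⟨nat_lit 2, nat_lit 14784, nat_lit 12480, nat_lit 14880, nat_lit 12624, nat_lit 8160, R0_310, R5_263, R0_170⟩]⟩]⟩]], [[], [⟨nat_lit 5, [⟨nat_lit 1, [⟨nat_lit 0, nat_lit 14880, nat_lit 8160, nat_lit 14784, nat_lit 12624, nat_lit 12480, R0_308, R5_263, R5_260⟩, ⟨nat_lit 1, nat_lit 14976, nat_lit 8208, nat_lit 15072, nat_lit 9264, nat_lit 15456, R0_314, R0_193,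 R11_322⟩, ⟨nat_lit 2, nat_lit 14928, nat_lit 8256, nat_lit 14928, nat_lit 15600, nat_lit 8256, R0_311, R11_325, R0_172⟩]⟩]⟩]], [], [[], [⟨nat_lit 4, [⟨nat_lit 1, [⟨nat_lit 0, nat_lit 14592, nat_lit 13056, nat_lit 5088, nat_lit 13296, nat_lit 10464, R5_106, R13_277, R5_218⟩, ⟨nat_lit 1, nat_lit 14688, nat_lit 13200, nat_lit 6864, nat_lit 10608, nat_lit 13728, R5_143, R9_221, R11_286⟩, ⟨nat_lit 2, nat_lit 14640, nat_lit 13296, nat_lit 5856, nat_lit 10176, nat_lit 8064, R5_122, R3_212, R0_168⟩]⟩]⟩,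
 ⟨nat_lit 5, [⟨nat_lit 1, [⟨nat_lit 0, nat_lit 15024, nat_lit 13104, nat_lit 14832, nat_lit 10128, nat_lit 11280, R0_309, R9_211, R5_235⟩, ⟨nat_lit 2, nat_lit 15072, nat_lit 13344, nat_lit 14976, nat_lit 9264, nat_lit 8208, R0_312, R0_193, R0_171⟩]⟩]⟩,
 ⟨nat_lit 7, [⟨nat_lit 1, [⟨nat_lit 0, nat_lit 15168, nat_lit 13152, nat_lit 22032, nat_lit 17952, nat_lit 10944, R11_459, R3_374, R5_228⟩, ⟨nat_lit 1, nat_lit 15264, nat_lit 13248, nat_lit 22128, nat_lit 5232, nat_lit 14208, R11_461, R0_109, R11_296⟩, ⟨nat_lit 2, nat_lit 15216, nat_lit 13392, nat_lit 22080, nat_lit 12096, nat_lit 8112, R11_460, R10_252, R0_169⟩]⟩]⟩], [], [], [], [⟨nat_lit 4, [⟨nat_lit 1, [⟨nat_lit 1, nat_lit 14400, nat_lit 1680, nat_lit 6768, nat_lit 10560, nat_lit 10656, R5_141, R9_220, R1_222⟩]⟩]⟩,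
 ⟨nat_lit 7, [⟨nat_lit 1, [⟨nat_lit 1, nat_lit 15120, nat_lit 7104, nat_lit 21984, nat_lit 5424, nat_lit 10704, R11_458, R0_113, R1_223⟩]⟩, ⟨nat_lit 5, [⟨nat_lit 1, nat_lit 14352, nat_lit 4848, nat_lit 4416, nat_lit 6816, nat_lit 19152, R1_92, R0_142, R10_399⟩]⟩]⟩]]]]
noncomputable def N2264 : T3 (List N0) := [[[[⟨nat_lit 0, [⟨nat_lit 0, [⟨nat_lit 5, nat_lit 0, nat_lit 624, nat_lit 336, nat_lit 1872, nat_lit 5952, R6_7, R4_39, R6_124⟩]⟩, ⟨nat_lit 1, [⟨nat_lit 5, nat_lit 3744, nat_lit 1200, nat_lit 240, nat_lit 2064, nat_lit 6528, R4_5, R4_43, R13_136⟩]⟩]⟩], [⟨nat_lit 0, [⟨nat_lit 1, [⟨nat_lit 5, nat_lit 5472, nat_lit 1104, nat_lit 816, nat_lit 2784, nat_lit 4896, R4_17, R4_58, R3_102⟩]⟩]⟩], [⟨nat_lit 0, [⟨nat_lit 0, [⟨nat_lit 1, nat_lit 1200, nat_lit 1152, nat_lit 2976, nat_lit 2256, nat_lit 5712, R6_62, R7_47,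 R7_119⟩, ⟨nat_lit 5, nat_lit 720, nat_lit 768, nat_lit 2640, nat_lit 2400, nat_lit 6288, R6_55, R4_50, R4_131⟩]⟩, ⟨nat_lit 1, [⟨nat_lit 1, nat_lit 6384, nat_lit 1248, nat_lit 2640, nat_lit 2496, nat_lit 4128, R4_55, R7_52, R2_86⟩, ⟨nat_lit 5, nat_lit 6048, nat_lit 864, nat_lit 2544, nat_lit 2544, nat_lit 6048, R4_53, R4_53, R3_126⟩]⟩, ⟨nat_lit 2, [⟨nat_lit 1, nat_lit 7632, nat_lit 1344, nat_lit 3888, nat_lit 2352, nat_lit 8784, R8_81, R7_49, R2_183⟩]⟩]⟩,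
 ⟨nat_lit 3, [⟨nat_lit 0, [⟨nat_lit 1, nat_lit 1296, nat_lit 7056, nat_lit 8640, nat_lit 2400, nat_lit 5808, R13_180, R2_50, R7_121⟩]⟩, ⟨nat_lit 1, [⟨nat_lit 1, nat_lit 6480, nat_lit 7200, nat_lit 7008, nat_lit 2832, nat_lit 4224, R3_146, R2_59, R2_88⟩]⟩, ⟨nat_lit 2, [⟨nat_lit 1, nat_lit 7776, nat_lit 7296, nat_lit 6240, nat_lit 2544, nat_lit 9216, R9_130, R2_53, R2_192⟩]⟩]⟩]], [], [[], [], [⟨nat_lit 0, [⟨nat_lit 0, [⟨nat_lit 1, nat_lit 1248, nat_lit 4464, nat_lit 10560, nat_lit 18720, nat_lit 5760, R6_220, R14_390, R7_120⟩]⟩, ⟨nat_lit 1, [⟨nat_lit 1, nat_lit 6432, nat_lit 5232, nat_lit 11424, nat_lit 19632, nat_lit 4176, R4_238, R14_409, R2_87⟩]⟩, ⟨nat_lit 2, [⟨nat_lit 1, nat_lit 7680, nat_lit 6048, nat_lit 11856, nat_lit 19248, nat_lit 8832, R8_247, R14_401, R2_184⟩]⟩]⟩,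
 ⟨nat_lit 2, [⟨nat_lit 2, [⟨nat_lit 1, nat_lit 7728, nat_lit 6960, nat_lit 7440, nat_lit 15648, nat_lit 9072, R5_155, R12_326, R2_189⟩]⟩]⟩,
 ⟨nat_lit 3, [⟨nat_lit 0, [⟨nat_lit 1, nat_lit 1344, nat_lit 4848, nat_lit 9600, nat_lit 480, nat_lit 5856, R13_200, R12_10, R7_122⟩]⟩, ⟨nat_lit 1, [⟨nat_lit 1, nat_lit 6528, nat_lit 5424, nat_lit 7536, nat_lit 2592, nat_lit 4272, R3_157, R12_54, R2_89⟩]⟩, ⟨nat_lit 2, [⟨nat_lit 1, nat_lit 7824, nat_lit 6576, nat_lit 7440, nat_lit 1632, nat_lit 9264, R9_155, R12_34, R2_193⟩]⟩]⟩]], [[⟨nat_lit 0, [⟨nat_lit 0, [⟨nat_lit 5, nat_lit 48, nat_lit 4512, nat_lit 5184, nat_lit 1056, nat_lit 6000, R6_108, R5_22, R6_125⟩]⟩, ⟨nat_lit 1, [⟨nat_lit 5, nat_lit 3792, nat_lit 6144, nat_lit 5472, nat_lit 3456, nat_lit 6576, R4_114, R5_72, R13_137⟩]⟩]⟩,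
 ⟨nat_lit 3, [⟨nat_lit 0, [⟨nat_lit 5, nat_lit 96, nat_lit 5040, nat_lit 5568, nat_lit 3264, nat_lit 6048, R13_116, R11_68, R6_126⟩]⟩, ⟨nat_lit 1, [⟨nat_lit 5, nat_lit 3840, nat_lit 6624, nat_lit 3840, nat_lit 3456, nat_lit 6624, R3_80, R11_72, R13_138⟩]⟩]⟩], [⟨nat_lit 0, [⟨nat_lit 1, [⟨nat_lit 5, nat_lit 5520, nat_lit 4416, nat_lit 7200, nat_lit 4224, nat_lit 4944, R4_150, R5_88, R3_103⟩]⟩]⟩,
 ⟨nat_lit 3, [⟨nat_lit 1, [⟨nat_lit 5, nat_lit 5568, nat_lit 4992, nat_lit 5568, nat_lit 4224, nat_lit 4992, R3_116, R11_88, R3_104⟩]⟩]⟩], [⟨nat_lit 0, [⟨nat_lit 0, [⟨nat_lit 5, nat_lit 768, nat_lit 3744, nat_lit 7200, nat_lit 1680, nat_lit 6336, R6_150, R5_35, R4_132⟩]⟩, ⟨nat_lit 1, [⟨nat_lit 5, nat_lit 6096, nat_lit 4656, nat_lit 7872, nat_lit 4128, nat_lit 6192, R4_164, R5_86, R3_129⟩]⟩]⟩,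
 ⟨nat_lit 3, [⟨nat_lit 0, [⟨nat_lit 1, nat_lit 1392, nat_lit 4032, nat_lit 9120, nat_lit 1872, nat_lit 5904, R13_190, R1_39, R7_123⟩, ⟨nat_lit 5, nat_lit 816, nat_lit 3984, nat_lit 9168, nat_lit 3600, nat_lit 6384, R13_191, R11_75, R4_133⟩]⟩, ⟨nat_lit 1, [⟨nat_lit 1, nat_lit 6576, nat_lit 4944, nat_lit 7200, nat_lit 2304, nat_lit 4320, R3_150, R1_48, R2_90⟩, ⟨nat_lit 5, nat_lit 6144, nat_lit 4896, nat_lit 7248, nat_lit 3744, nat_lit 6240, R3_151, R11_78, R3_130⟩]⟩, ⟨nat_lit 2, [⟨nat_lit 1, nat_lit 7872, nat_lit 6528, nat_lit 6960, nat_lit 2016, nat_lit 9312, R9_145, R1_42, R2_194⟩]⟩]⟩], [⟨nat_lit 0, [⟨nat_lit 0, [⟨nat_lit 5, nat_lit 2256, nat_lit 384, nat_lit 6528, nat_lit 1344, nat_lit 5472, R6_136, R5_28, R8_114⟩]⟩, ⟨nat_lit 1, [⟨nat_lit 5, nat_lit 7152, nat_lit 1056, nat_lit 6672, nat_lit 3744, nat_lit 4848,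 R4_139, R5_78, R9_101⟩]⟩]⟩,
 ⟨nat_lit 3, [⟨nat_lit 0, [⟨nat_lit 5, nat_lit 2352, nat_lit 3984, nat_lit 7296, nat_lit 3840, nat_lit 5520, R13_152, R11_80, R8_115⟩]⟩, ⟨nat_lit 1, [⟨nat_lit 5, nat_lit 7248, nat_lit 6240, nat_lit 6144, nat_lit 4128, nat_lit 4896, R3_128, R11_86, R9_102⟩]⟩, ⟨nat_lit 3, [⟨nat_lit 5, nat_lit 9984, nat_lit 5712, nat_lit 5328, nat_lit 3984, nat_lit 5760, R3_111, R11_83, R5_120⟩]⟩]⟩]], [], [], [], [[], [], [], [⟨nat_lit 3, [⟨nat_lit 0, [⟨nat_lit 4, nat_lit 2064, nat_lit 3360, nat_lit 7824, nat_lit 1776, nat_lit 8784, R13_163, R2_37, R6_183⟩, ⟨nat_lit 5, nat_lit 2304, nat_lit 3456, nat_lit 7920, nat_lit 1248, nat_lit 5568, R13_165, R1_26, R8_116⟩, ⟨nat_lit 7, nat_lit 2784, nat_lit 3408, nat_lit 7872, nat_lit 10224, nat_lit 9408, R13_164, R12_213, R4_196⟩]⟩, ⟨nat_lit 1, [⟨nat_lit 4, nat_lit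 7008, nat_lit 4224, nat_lit 6480, nat_lit 2832, nat_lit 6048, R3_135, R2_59, R8_126⟩, ⟨nat_lit 5, nat_lit 7200, nat_lit 4320, nat_lit 6576, nat_lit 2304, nat_lit 4944, R3_137, R1_48, R9_103⟩, ⟨nat_lit 7, nat_lit 7536, nat_lit 4272, nat_lit 6528, nat_lit 10272, nat_lit 5424, R3_136, R12_214, R5_113⟩]⟩, ⟨nat_lit 3, [⟨nat_lit 4, nat_lit 9696, nat_lit 4800, nat_lit 13248, nat_lit 2304, nat_lit 8352, R3_276, R2_48, R4_174⟩, ⟨nat_lit 5, nat_lit 9936, nat_lit 4848, nat_lit 13440, nat_lit 1776, nat_lit 5664, R3_280, R1_37, R5_118⟩]⟩]⟩,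
 ⟨nat_lit 7, [⟨nat_lit 3, [⟨nat_lit 4, nat_lit 9648, nat_lit 5280, nat_lit 5856, nat_lit 13824, nat_lit 10032, R2_122, R3_288, R4_209⟩, ⟨nat_lit 5, nat_lit 9888, nat_lit 5328, nat_lit 5904, nat_lit 1920, nat_lit 5520, R2_123, R10_40, R5_115⟩]⟩]⟩]]], [[[⟨nat_lit 0, [⟨nat_lit 0, [⟨nat_lit 5, nat_lit 288, nat_lit 5136, nat_lit 17664, nat_lit 7392, nat_lit 6384, R8_368, R4_154, R6_133⟩]⟩, ⟨nat_lit 1, [⟨nat_lit 5, nat_lit 3888, nat_lit 5184, nat_lit 3840, nat_lit 7584, nat_lit 6816, R5_80, R4_158, R13_142⟩]⟩]⟩,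
 ⟨nat_lit 1, [⟨nat_lit 0, [⟨nat_lit 5, nat_lit 384, nat_lit 5472, nat_lit 1344, nat_lit 2256, nat_lit 6528, R5_28, R3_47, R6_136⟩]⟩, ⟨nat_lit 1, [⟨nat_lit 5, nat_lit 3984, nat_lit 5520, nat_lit 912, nat_lit 2352, nat_lit 6960, R11_19, R3_49, R13_145⟩]⟩]⟩], [⟨nat_lit 0, [⟨nat_lit 1, [⟨nat_lit 5, nat_lit 5616, nat_lit 96, nat_lit 3984, nat_lit 7968, nat_lit 5184, R5_83, R4_166, R3_108⟩]⟩]⟩,
 ⟨nat_lit 1, [⟨nat_lit 1, [⟨nat_lit 5, nat_lit 5712, nat_lit 5760, nat_lit 1632, nat_lit 9984, nat_lit 5328, R11_34, R3_208, R3_111⟩]⟩]⟩], [⟨nat_lit 0, [⟨nat_lit 0, [⟨nat_lit 1, nat_lit 1680, nat_lit 480, nat_lit 11088, nat_lit 7680, nat_lit 6240, R8_231, R7_160, R7_130⟩, ⟨nat_lit 5, nat_lit 1008, nat_lit 240, nat_lit 17808, nat_lit 7728, nat_lit 6624, R8_371, R4_161, R4_138⟩]⟩, ⟨nat_lit 1, [⟨nat_lit 1, nat_lit 6624, nat_lit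 576, nat_lit 3024, nat_lit 7920, nat_lit 4416, R5_63, R7_165, R2_92⟩, ⟨nat_lit 5, nat_lit 6192, nat_lit 336, nat_lit 4128, nat_lit 7872, nat_lit 6096, R5_86, R4_164, R3_127⟩]⟩, ⟨nat_lit 2, [⟨nat_lit 1, nat_lit 8208, nat_lit 672, nat_lit 3072, nat_lit 7776, nat_lit 8976, R9_64, R7_162, R2_187⟩]⟩]⟩,
 ⟨nat_lit 1, [⟨nat_lit 0, [⟨nat_lit 1, nat_lit 1776, nat_lit 5760, nat_lit 2784, nat_lit 6528, nat_lit 6432, R5_58, R2_136, R7_134⟩, ⟨nat_lit 5, nat_lit 1056, nat_lit 5376, nat_lit 3744, nat_lit 7152, nat_lit 6672, R5_78, R3_149, R4_139⟩]⟩, ⟨nat_lit 1, [⟨nat_lit 1, nat_lit 6720, nat_lit 5856, nat_lit 2784, nat_lit 6768, nat_lit 4608, R11_58, R2_141, R2_96⟩, ⟨nat_lit 5, nat_lit 6240, nat_lit 5472, nat_lit 3744, nat_lit 7248, nat_lit 6144, R11_78, R3_151, R3_128⟩]⟩, ⟨nat_lit 2, [⟨nat_lit 1, nat_lit 8352, nat_lit 5952,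 nat_lit 1536, nat_lit 6624, nat_lit 9552, R0_32, R2_138, R2_199⟩]⟩]⟩,
 ⟨nat_lit 3, [⟨nat_lit 0, [⟨nat_lit 1, nat_lit 1920, nat_lit 7728, nat_lit 2976, nat_lit 10032, nat_lit 6336, R9_62, R2_209, R7_132⟩]⟩, ⟨nat_lit 1, [⟨nat_lit 1, nat_lit 6864, nat_lit 7872, nat_lit 1440, nat_lit 10176, nat_lit 4512, R0_30, R2_212, R2_94⟩]⟩]⟩]], [[⟨nat_lit 1, [⟨nat_lit 0, [⟨nat_lit 5, nat_lit 432, nat_lit 14352, nat_lit 1440, nat_lit 5664, nat_lit 6624, R5_30, R10_118, R6_138⟩]⟩, ⟨nat_lit 1, [⟨nat_lit 5, nat_lit 4032, nat_lit 14736, nat_lit 1008, nat_lit 5856, nat_lit 7056, R11_21, R10_122, R13_147⟩]⟩]⟩], [⟨nat_lit 1, [⟨nat_lit 1, [⟨nat_lit 5, nat_lit 5760, nat_lit 18240, nat_lit 1728, nat_lit 6576, nat_lit 5424, R11_36, R10_137, R3_113⟩]⟩]⟩], [⟨nat_lit 1, [⟨nat_lit 0, [⟨nat_lit 1, nat_lit 1872, nat_lit 3600, nat_lit 2832, nat_lit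 5232, nat_lit 6528, R5_59, R1_109, R7_136⟩, ⟨nat_lit 5, nat_lit 1104, nat_lit 3216, nat_lit 3792, nat_lit 6192, nat_lit 6720, R5_79, R10_129, R4_140⟩]⟩, ⟨nat_lit 1, [⟨nat_lit 1, nat_lit 6816, nat_lit 3696, nat_lit 2832, nat_lit 5472, nat_lit 4704, R11_59, R1_114, R2_98⟩, ⟨nat_lit 5, nat_lit 6288, nat_lit 3312, nat_lit 3792, nat_lit 6336, nat_lit 6336, R11_79, R10_132, R3_132⟩]⟩, ⟨nat_lit 2, [⟨nat_lit 1, nat_lit 8448, nat_lit 3792, nat_lit 6576, nat_lit 5328, nat_lit 9648, R0_137, R1_111, R2_201⟩]⟩]⟩]], [[], [], [⟨nat_lit 0, [⟨nat_lit 0, [⟨nat_lit 1, nat_lit 1728, nat_lit 12720, nat_lit 11664, nat_lit 20208, nat_lit 6288, R8_243, R14_421, R7_131⟩]⟩, ⟨nat_lit 1, [⟨nat_lit 1, nat_lit 6672, nat_lit 12768, nat_lit 14160, nat_lit 21504, nat_lit 4464, R5_295, R14_448, R2_93⟩]⟩, ⟨nat_lit 2, [⟨nat_lit 1, nat_lit 8256,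 nat_lit 12816, nat_lit 12816, nat_lit 20928, nat_lit 9024, R9_267, R14_436, R2_188⟩]⟩]⟩,
 ⟨nat_lit 1, [⟨nat_lit 0, [⟨nat_lit 1, nat_lit 1824, nat_lit 13296, nat_lit 2880, nat_lit 15984, nat_lit 6480, R5_60, R12_333, R7_135⟩]⟩, ⟨nat_lit 1, [⟨nat_lit 1, nat_lit 6768, nat_lit 13344, nat_lit 2880, nat_lit 17280, nat_lit 4656, R11_60, R12_360, R2_97⟩]⟩, ⟨nat_lit 2, [⟨nat_lit 1, nat_lit 8400, nat_lit 13440, nat_lit 10992, nat_lit 16704, nat_lit 9600, R0_229, R12_348, R2_200⟩]⟩]⟩,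
 ⟨nat_lit 2, [⟨nat_lit 2, [⟨nat_lit 1, nat_lit 8304, nat_lit 13776, nat_lit 10608, nat_lit 16320, nat_lit 9168, R0_221, R12_340, R2_191⟩]⟩]⟩,
 ⟨nat_lit 3, [⟨nat_lit 0, [⟨nat_lit 1, nat_lit 1968, nat_lit 13056, nat_lit 3024, nat_lit 7680, nat_lit 6384, R9_63, R12_160, R7_133⟩]⟩, ⟨nat_lit 1, [⟨nat_lit 1, nat_lit 6912, nat_lit 13104, nat_lit 1488, nat_lit 9552, nat_lit 4560, R0_31, R12_199, R2_95⟩]⟩]⟩]], [[⟨nat_lit 0, [⟨nat_lit 0, [⟨nat_lit 5, nat_lit 336, nat_lit 13248, nat_lit 18384, nat_lit 9408, nat_lit 6432, R8_383, R5_196, R6_134⟩]⟩, ⟨nat_lit 1, [⟨nat_lit 5, nat_lit 3936, nat_lit 13872, nat_lit 12192, nat_lit 11664, nat_lit 6864, R5_254, R5_243, R13_143⟩]⟩]⟩,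
 ⟨nat_lit 1, [⟨nat_lit 0, [⟨nat_lit 5, nat_lit 480, nat_lit 13344, nat_lit 1392, nat_lit 1920, nat_lit 6576, R5_29, R0_40, R6_137⟩]⟩, ⟨nat_lit 1, [⟨nat_lit 5, nat_lit 4080, nat_lit 13968, nat_lit 960, nat_lit 1968, nat_lit 7008, R11_20, R0_41, R13_146⟩]⟩]⟩,
 ⟨nat_lit 3, [⟨nat_lit 0, [⟨nat_lit 5, nat_lit 528, nat_lit 13296, nat_lit 1968, nat_lit 3312, nat_lit 6480, R9_41, R11_69, R6_135⟩]⟩, ⟨nat_lit 1, [⟨nat_lit 5, nat_lit 4128, nat_lit 13920, nat_lit 288, nat_lit 3504, nat_lit 6912, R0_6, R11_73, R13_144⟩]⟩]⟩], [⟨nat_lit 0, [⟨nat_lit 1, [⟨nat_lit 5, nat_lit 5664, nat_lit 12000, nat_lit 12432, nat_lit 12576, nat_lit 5232, R5_259, R5_262, R3_109⟩]⟩]⟩,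
 ⟨nat_lit 1, [⟨nat_lit 1, [⟨nat_lit 5, nat_lit 5808, nat_lit 12096, nat_lit 1680, nat_lit 2112, nat_lit 5376, R11_35, R0_44, R3_112⟩]⟩]⟩,
 ⟨nat_lit 3, [⟨nat_lit 1, [⟨nat_lit 5, nat_lit 5856, nat_lit 12048, nat_lit 528, nat_lit 4272, nat_lit 5280, R0_11, R11_89, R3_110⟩]⟩]⟩]]], [[[⟨nat_lit 0, [⟨nat_lit 0, [⟨nat_lit 5, nat_lit 144, nat_lit 8688, nat_lit 14112, nat_lit 10800, nat_lit 6096, R4_294, R4_225, R6_127⟩]⟩]⟩], [], [⟨nat_lit 0, [⟨nat_lit 0, [⟨nat_lit 1, nat_lit 1440, nat_lit 14784, nat_lit 11808, nat_lit 11568, nat_lit 5952, R4_246, R7_241, R7_124⟩, ⟨nat_lit 5, nat_lit 864, nat_lit 5136, nat_lit 14976, nat_lit 11232, nat_lit 6432, R4_312, R4_234, R4_134⟩]⟩, ⟨nat_lit 2, [⟨nat_lit 1, nat_lit 7920, nat_lit 14928, nat_lit 13632, nat_lit 11664, nat_lit 8880, R5_284, R7_243, R2_185⟩]⟩]⟩,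
 ⟨nat_lit 3, [⟨nat_lit 0, [⟨nat_lit 1, nat_lit 1536, nat_lit 15264, nat_lit 3408, nat_lit 11088, nat_lit 6048, R3_71, R2_231, R7_126⟩]⟩, ⟨nat_lit 2, [⟨nat_lit 1, nat_lit 8064, nat_lit 15408, nat_lit 4080, nat_lit 11280, nat_lit 9360, R0_85, R2_235, R2_195⟩]⟩]⟩]], [], [[], [], [⟨nat_lit 0, [⟨nat_lit 0, [⟨nat_lit 1, nat_lit 1488, nat_lit 4464, nat_lit 11904, nat_lit 21840, nat_lit 6000, R4_248, R14_455, R7_125⟩]⟩, ⟨nat_lit 2, [⟨nat_lit 1, nat_lit 7968, nat_lit 5664, nat_lit 13776, nat_lit 22272, nat_lit 8928, R5_287, R14_464, R2_186⟩]⟩]⟩,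
 ⟨nat_lit 2, [⟨nat_lit 2, [⟨nat_lit 1, nat_lit 8016, nat_lit 6576, nat_lit 7056, nat_lit 16944, nat_lit 9120, R11_147, R12_353, R2_190⟩]⟩]⟩,
 ⟨nat_lit 3, [⟨nat_lit 0, [⟨nat_lit 1, nat_lit 1584, nat_lit 4848, nat_lit 3504, nat_lit 10464, nat_lit 6096, R3_73, R12_218, R7_127⟩]⟩, ⟨nat_lit 2, [⟨nat_lit 1, nat_lit 8112, nat_lit 6192, nat_lit 5280, nat_lit 11328, nat_lit 9408, R0_110, R12_236, R2_196⟩]⟩]⟩], [], [], [], [⟨nat_lit 0, [⟨nat_lit 0, [⟨nat_lit 0, nat_lit 3072, nat_lit 2736, nat_lit 2256, nat_lit 528, nat_lit 8928, R4_47, R7_11, R6_186⟩, ⟨nat_lit 1, nat_lit 3168, nat_lit 2784, nat_lit 11136, nat_lit 21792, nat_lit 9552, R4_232, R14_454, R4_199⟩]⟩, ⟨nat_lit 2, [⟨nat_lit 0, nat_lit 8880, nat_lit 3024, nat_lit 2640, nat_lit 5472, nat_lit 19248, R5_55, R7_114, R13_401⟩, ⟨nat_lit 1, nat_lit 9168, nat_lit 3072,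 nat_lit 13872, nat_lit 22224, nat_lit 15504, R5_289, R14_463, R3_323⟩]⟩]⟩,
 ⟨nat_lit 2, [⟨nat_lit 2, [⟨nat_lit 0, nat_lit 8976, nat_lit 3264, nat_lit 9024, nat_lit 3888, nat_lit 19296, R11_188, R2_81, R13_402⟩, ⟨nat_lit 1, nat_lit 9216, nat_lit 3312, nat_lit 9120, nat_lit 16992, nat_lit 15552, R11_190, R12_354, R3_324⟩, ⟨nat_lit 2, nat_lit 9120, nat_lit 3360, nat_lit 9072, nat_lit 3360, nat_lit 9120, R11_189, R1_70, R3_190⟩]⟩, ⟨nat_lit 6, [⟨nat_lit 2, nat_lit 15840, nat_lit 3408, nat_lit 6000, nat_lit 13680, nat_lit 14112, R1_125, R1_285, R2_294⟩]⟩]⟩,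
 ⟨nat_lit 3, [⟨nat_lit 0, [⟨nat_lit 0, nat_lit 3120, nat_lit 2832, nat_lit 2112, nat_lit 1872, nat_lit 8976, R3_44, R2_39, R6_187⟩, ⟨nat_lit 1, nat_lit 3216, nat_lit 2880, nat_lit 2832, nat_lit 10416, nat_lit 9600, R3_59, R12_217, R4_200⟩, ⟨nat_lit 3, nat_lit 3360, nat_lit 2928, nat_lit 2448, nat_lit 1344, nat_lit 5712, R3_51, R1_28, R8_119⟩]⟩, ⟨nat_lit 2, [⟨nat_lit 0, nat_lit 9024, nat_lit 3120, nat_lit 6432, nat_lit 8736, nat_lit 19344, R0_134, R2_182, R13_403⟩, ⟨nat_lit 1, nat_lit 9264, nat_lit 3168, nat_lit 6528, nat_lit 11232, nat_lit 15600, R0_136, R12_234, R3_325⟩, ⟨nat_lit 3, nat_lit 9456, nat_lit 3216, nat_lit 6480, nat_lit 9552, nat_lit 15600, R0_135, R1_199, R9_325⟩]⟩, ⟨nat_lit 3, [⟨nat_lit 3, nat_lit 10560, nat_lit 2976, nat_lit 8400, nat_lit 6768, nat_lit 16464, R10_175, R1_141, R5_343⟩]⟩]⟩]], [[⟨nat_lit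 0, [⟨nat_lit 0, [⟨nat_lit 5, nat_lit 192, nat_lit 11472, nat_lit 14208, nat_lit 13104, nat_lit 6144, R4_296, R5_273, R6_128⟩]⟩]⟩,
 ⟨nat_lit 3, [⟨nat_lit 0, [⟨nat_lit 5, nat_lit 240, nat_lit 11520, nat_lit 2976, nat_lit 3408, nat_lit 6192, R3_62, R11_71, R6_129⟩]⟩]⟩], [], [⟨nat_lit 0, [⟨nat_lit 0, [⟨nat_lit 5, nat_lit 912, nat_lit 2208, nat_lit 15072, nat_lit 13392, nat_lit 6480, R4_314, R5_279, R4_135⟩]⟩]⟩,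
 ⟨nat_lit 3, [⟨nat_lit 0, [⟨nat_lit 1, nat_lit 1632, nat_lit 2496, nat_lit 3456, nat_lit 11664, nat_lit 6144, R3_72, R1_243, R7_128⟩, ⟨nat_lit 5, nat_lit 960, nat_lit 2448, nat_lit 3600, nat_lit 3696, nat_lit 6528, R3_75, R11_77, R4_136⟩]⟩, ⟨nat_lit 2, [⟨nat_lit 1, nat_lit 8160, nat_lit 4368, nat_lit 4800, nat_lit 11856, nat_lit 9456, R0_100, R1_247, R2_197⟩]⟩]⟩], [⟨nat_lit 0, [⟨nat_lit 0, [⟨nat_lit 5, nat_lit 2400, nat_lit 2880, nat_lit 14688, nat_lit 13248, nat_lit 5616, R4_306, R5_276, R8_117⟩]⟩]⟩,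
 ⟨nat_lit 3, [⟨nat_lit 0, [⟨nat_lit 5, nat_lit 2496, nat_lit 3552, nat_lit 3312, nat_lit 3936, nat_lit 5664, R3_69, R11_82, R8_118⟩]⟩, ⟨nat_lit 3, [⟨nat_lit 5, nat_lit 10128, nat_lit 4128, nat_lit 4704, nat_lit 4080, nat_lit 5808, R10_98, R11_85, R5_121⟩]⟩]⟩]], [[], [], [], [], [⟨nat_lit 3, [⟨nat_lit 3, [⟨nat_lit 7, nat_lit 10368, nat_lit 13632, nat_lit 7056, nat_lit 10800, nat_lit 14352, R10_147, R2_225, R7_299⟩]⟩]⟩,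
 ⟨nat_lit 4, [⟨nat_lit 4, [⟨nat_lit 6, nat_lit 11376, nat_lit 14160, nat_lit 4800, nat_lit 18144, nat_lit 13344, R4_100, R8_378, R6_278⟩]⟩, ⟨nat_lit 7, [⟨nat_lit 4, nat_lit 16032, nat_lit 12144, nat_lit 1008, nat_lit 15168, nat_lit 13584, R5_21, R6_316, R6_283⟩, ⟨nat_lit 6, nat_lit 16368, nat_lit 14400, nat_lit 9264, nat_lit 19008, nat_lit 13776, R5_193, R8_396, R8_287⟩]⟩]⟩,
 ⟨nat_lit 6, [⟨nat_lit 4, [⟨nat_lit 6, nat_lit 11472, nat_lit 14208, nat_lit 192, nat_lit 13104, nat_lit 13392, R3_4, R5_273, R6_279⟩]⟩, ⟨nat_lit 6, [⟨nat_lit 6, nat_lit 15264, nat_lit 14592, nat_lit 7152, nat_lit 13200, nat_lit 13248, R10_149, R5_275, R4_276⟩]⟩, ⟨nat_lit 7, [⟨nat_lit 6, nat_lit 16464, nat_lit 14496, nat_lit 5664, nat_lit 13152, nat_lit 13824, R0_118, R5_274, R8_288⟩]⟩]⟩,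
 ⟨nat_lit 7, [⟨nat_lit 3, [⟨nat_lit 7, nat_lit 10272, nat_lit 13584, nat_lit 5856, nat_lit 16656, nat_lit 14400, R1_122, R3_347, R7_300⟩]⟩, ⟨nat_lit 7, [⟨nat_lit 4, nat_lit 16128, nat_lit 12192, nat_lit 7824, nat_lit 13728, nat_lit 13632, R11_163, R13_286, R6_284⟩, ⟨nat_lit 6, nat_lit 16560, nat_lit 14448, nat_lit 7872, nat_lit 11376, nat_lit 13872, R11_164, R9_237, R8_289⟩, ⟨nat_lit 7, nat_lit 16752, nat_lit 13392, nat_lit 7920, nat_lit 16752, nat_lit 13392, R11_165, R3_349, R4_279⟩]⟩]⟩], [], [], [⟨nat_lit 3, [⟨nat_lit 0, [⟨nat_lit 7, nat_lit 3408, nat_lit 15264, nat_lit 1536, nat_lit 11088, nat_lit 6048, R3_32, R2_231, R7_126⟩]⟩, ⟨nat_lit 3, [⟨nat_lit 7, nat_lit 10896, nat_lit 15456, nat_lit 7392, nat_lit 11136, nat_lit 17280, R10_154, R2_232, R14_360⟩]⟩]⟩,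
 ⟨nat_lit 4, [⟨nat_lit 7, [⟨nat_lit 4, nat_lit 17376, nat_lit 14304, nat_lit 1296, nat_lit 15744, nat_lit 4704, R5_27, R6_328, R4_98⟩, ⟨nat_lit 6, nat_lit 17664, nat_lit 16944, nat_lit 9648, nat_lit 19152, nat_lit 10656, R5_201, R8_399, R5_222⟩]⟩]⟩,
 ⟨nat_lit 6, [⟨nat_lit 7, [⟨nat_lit 6, nat_lit 17760, nat_lit 17664, nat_lit 5760, nat_lit 13488, nat_lit 10752, R0_120, R5_281, R5_224⟩]⟩]⟩,
 ⟨nat_lit 7, [⟨nat_lit 3, [⟨nat_lit 4, nat_lit 10608, nat_lit 14544, nat_lit 6192, nat_lit 13872, nat_lit 5088, R1_129, R13_289, R7_106⟩, ⟨nat_lit 7, nat_lit 10800, nat_lit 16080, nat_lit 6240, nat_lit 17184, nat_lit 17232, R1_130, R3_358, R14_359⟩]⟩, ⟨nat_lit 7, [⟨nat_lit 4, nat_lit 17472, nat_lit 14688, nat_lit 8112, nat_lit 13824, nat_lit 5280, R11_169, R13_288, R4_110⟩, ⟨nat_lit 6, nat_lit 17856, nat_lit 17328, nat_lit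 8160, nat_lit 11520, nat_lit 10848, R11_170, R9_240, R5_226⟩]⟩]⟩]], [], [[], [], [], [], [⟨nat_lit 0, [⟨nat_lit 0, [⟨nat_lit 3, nat_lit 2928, nat_lit 11424, nat_lit 4992, nat_lit 3408, nat_lit 13440, R4_104, R5_71, R6_280⟩]⟩, ⟨nat_lit 2, [⟨nat_lit 0, nat_lit 8544, nat_lit 16080, nat_lit 3360, nat_lit 5088, nat_lit 13872, R5_70, R4_106, R6_289⟩, ⟨nat_lit 3, nat_lit 8688, nat_lit 16416, nat_lit 11424, nat_lit 11472, nat_lit 13920, R5_238, R5_239, R8_290⟩]⟩]⟩,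
 ⟨nat_lit 2, [⟨nat_lit 2, [⟨nat_lit 0, nat_lit 8592, nat_lit 16176, nat_lit 7968, nat_lit 672, nat_lit 13920, R11_166, R3_14, R6_290⟩, ⟨nat_lit 2, nat_lit 8640, nat_lit 16800, nat_lit 8064, nat_lit 12384, nat_lit 13728, R11_168, R10_258, R4_286⟩, ⟨nat_lit 3, nat_lit 8736, nat_lit 16608, nat_lit 8016, nat_lit 9888, nat_lit 14016, R11_167, R0_206, R8_292⟩]⟩, ⟨nat_lit 6, [⟨nat_lit 2, nat_lit 15456, nat_lit 10320, nat_lit 5952, nat_lit 12432, nat_lit 14544, R1_124, R10_259, R7_303⟩]⟩]⟩,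
 ⟨nat_lit 3, [⟨nat_lit 0, [⟨nat_lit 3, nat_lit 2976, nat_lit 11520, nat_lit 240, nat_lit 16032, nat_lit 13488, R3_5, R11_334, R6_281⟩]⟩, ⟨nat_lit 2, [⟨nat_lit 3, nat_lit 8784, nat_lit 16512, nat_lit 5712, nat_lit 16080, nat_lit 13968, R0_119, R11_335, R8_291⟩]⟩, ⟨nat_lit 3, [⟨nat_lit 3, nat_lit 10464, nat_lit 15312, nat_lit 7200, nat_lit 16128, nat_lit 13296, R10_150, R11_336, R4_277⟩, ⟨nat_lit 7, nat_lit 10416, nat_lit 15408, nat_lit 7248, nat_lit 11184, nat_lit 14496, R10_151, R1_233, R7_302⟩]⟩]⟩,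
 ⟨nat_lit 4, [⟨nat_lit 4, [⟨nat_lit 6, nat_lit 11424, nat_lit 2928, nat_lit 4992, nat_lit 3408, nat_lit 13440, R4_104, R5_71, R6_280⟩]⟩, ⟨nat_lit 7, [⟨nat_lit 4, nat_lit 16080, nat_lit 8544, nat_lit 3360, nat_lit 5088, nat_lit 13872, R5_70, R4_106, R6_289⟩, ⟨nat_lit 6, nat_lit 16416, nat_lit 8688, nat_lit 11424, nat_lit 11472, nat_lit 13920, R5_238, R5_239, R8_290⟩]⟩]⟩,
 ⟨nat_lit 6, [⟨nat_lit 4, [⟨nat_lit 6, nat_lit 11520, nat_lit 2976, nat_lit 240, nat_lit 16032, nat_lit 13488, R3_5, R11_334, R6_281⟩]⟩, ⟨nat_lit 6, [⟨nat_lit 2, nat_lit 15408, nat_lit 10416, nat_lit 7248, nat_lit 11184, nat_lit 14496, R10_151, R1_233, R7_302⟩, ⟨nat_lit 6, nat_lit 15312, nat_lit 10464, nat_lit 7200, nat_lit 16128, nat_lit 13296, R10_150, R11_336, R4_277⟩]⟩, ⟨nat_lit 7, [⟨nat_lit 6, nat_lit 16512, nat_lit 8784, nat_lit 5712, nat_lit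 16080, nat_lit 13968, R0_119, R11_335, R8_291⟩]⟩]⟩,
 ⟨nat_lit 7, [⟨nat_lit 3, [⟨nat_lit 7, nat_lit 10320, nat_lit 15456, nat_lit 5952, nat_lit 12432, nat_lit 14544, R1_124, R10_259, R7_303⟩]⟩, ⟨nat_lit 7, [⟨nat_lit 4, nat_lit 16176, nat_lit 8592, nat_lit 7968, nat_lit 672, nat_lit 13920, R11_166, R3_14, R6_290⟩, ⟨nat_lit 6, nat_lit 16608, nat_lit 8736, nat_lit 8016, nat_lit 9888, nat_lit 14016, R11_167, R0_206, R8_292⟩, ⟨nat_lit 7, nat_lit 16800, nat_lit 8640, nat_lit 8064, nat_lit 12384, nat_lit 13728, R11_168, R10_258, R4_286⟩]⟩]⟩], [], [⟨nat_lit 0, [⟨nat_lit 0, [⟨nat_lit 0, nat_lit 3024, nat_lit 3456, nat_lit 2112, nat_lit 336, nat_lit 8880, R4_44, R4_7, R6_185⟩, ⟨nat_lit 3, nat_lit 3264, nat_lit 3504, nat_lit 7632, nat_lit 3936, nat_lit 5280, R4_159, R5_82, R8_110⟩]⟩, ⟨nat_lit 2, [⟨nat_lit 0, nat_lit 8832,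 nat_lit 3648, nat_lit 3552, nat_lit 5568, nat_lit 19392, R5_74, R4_116, R13_404⟩, ⟨nat_lit 3, nat_lit 9312, nat_lit 3696, nat_lit 11760, nat_lit 12288, nat_lit 15648, R5_245, R5_256, R9_326⟩]⟩]⟩,
 ⟨nat_lit 2, [⟨nat_lit 2, [⟨nat_lit 0, nat_lit 8928, nat_lit 3792, nat_lit 9696, nat_lit 4272, nat_lit 19440, R11_202, R3_89, R13_405⟩, ⟨nat_lit 2, nat_lit 9072, nat_lit 3888, nat_lit 9792, nat_lit 12480, nat_lit 9072, R11_204, R10_260, R3_189⟩, ⟨nat_lit 3, nat_lit 9360, nat_lit 3840, nat_lit 9744, nat_lit 9936, nat_lit 15696, R11_203, R0_207, R9_327⟩]⟩, ⟨nat_lit 6, [⟨nat_lit 2, nat_lit 15792, nat_lit 3936, nat_lit 6048, nat_lit 12528, nat_lit 14160, R1_126, R10_261, R2_295⟩]⟩]⟩,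
 ⟨nat_lit 3, [⟨nat_lit 0, [⟨nat_lit 3, nat_lit 3312, nat_lit 3552, nat_lit 2496, nat_lit 16176, nat_lit 5664, R3_52, R11_337, R8_118⟩]⟩, ⟨nat_lit 2, [⟨nat_lit 3, nat_lit 9408, nat_lit 3744, nat_lit 7008, nat_lit 16224, nat_lit 15744, R0_146, R11_338, R9_328⟩]⟩, ⟨nat_lit 3, [⟨nat_lit 3, nat_lit 10512, nat_lit 3600, nat_lit 8592, nat_lit 16272, nat_lit 16512, R10_179, R11_339, R5_344⟩]⟩]⟩,
 ⟨nat_lit 6, [⟨nat_lit 6, [⟨nat_lit 2, nat_lit 15744, nat_lit 3984, nat_lit 7296, nat_lit 11280, nat_lit 14208, R10_152, R1_235, R2_296⟩]⟩]⟩], [⟨nat_lit 0, [⟨nat_lit 0, [⟨nat_lit 3, nat_lit 3552, nat_lit 2400, nat_lit 6192, nat_lit 3696, nat_lit 5952, R4_129, R5_77, R4_124⟩]⟩, ⟨nat_lit 2, [⟨nat_lit 3, nat_lit 9504, nat_lit 2688, nat_lit 11568, nat_lit 11904, nat_lit 10512, R5_241, R5_248, R5_219⟩]⟩]⟩,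
 ⟨nat_lit 2, [⟨nat_lit 2, [⟨nat_lit 3, nat_lit 9552, nat_lit 2784, nat_lit 8784, nat_lit 9984, nat_lit 10560, R11_183, R0_208, R5_220⟩]⟩]⟩,
 ⟨nat_lit 3, [⟨nat_lit 0, [⟨nat_lit 3, nat_lit 3600, nat_lit 2448, nat_lit 960, nat_lit 16320, nat_lit 6528, R3_20, R11_340, R4_136⟩, ⟨nat_lit 7, nat_lit 3456, nat_lit 2496, nat_lit 1632, nat_lit 11664, nat_lit 6144, R3_34, R1_243, R7_128⟩]⟩, ⟨nat_lit 2, [⟨nat_lit 3, nat_lit 9600, nat_lit 2736, nat_lit 6240, nat_lit 16368, nat_lit 10608, R0_130, R11_341, R5_221⟩]⟩, ⟨nat_lit 3, [⟨nat_lit 7, nat_lit 10944, nat_lit 2544, nat_lit 8256, nat_lit 11712, nat_lit 17376, R10_172, R1_244, R14_362⟩]⟩]⟩,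
 ⟨nat_lit 4, [⟨nat_lit 7, [⟨nat_lit 4, nat_lit 17424, nat_lit 2832, nat_lit 3648, nat_lit 6240, nat_lit 6000, R5_76, R4_130, R4_125⟩, ⟨nat_lit 6, nat_lit 17712, nat_lit 2880, nat_lit 11856, nat_lit 11616, nat_lit 10704, R5_247, R5_242, R5_223⟩]⟩]⟩,
 ⟨nat_lit 6, [⟨nat_lit 7, [⟨nat_lit 6, nat_lit 17808, nat_lit 3024, nat_lit 5808, nat_lit 16704, nat_lit 10800, R0_121, R11_348, R5_225⟩]⟩]⟩,
 ⟨nat_lit 7, [⟨nat_lit 3, [⟨nat_lit 4, nat_lit 10656, nat_lit 2592, nat_lit 7296, nat_lit 2016, nat_lit 6192, R1_152, R3_42, R7_129⟩, ⟨nat_lit 7, nat_lit 10848, nat_lit 2640, nat_lit 7344, nat_lit 12768, nat_lit 17328, R1_153, R10_266, R14_361⟩]⟩, ⟨nat_lit 7, [⟨nat_lit 4, nat_lit 17520, nat_lit 2928, nat_lit 8304, nat_lit 1152, nat_lit 6576, R11_173, R3_24, R4_137⟩, ⟨nat_lit 6, nat_lit 17904, nat_lit 2976, nat_lit 8352, nat_lit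 10320, nat_lit 10896, R11_174, R0_215, R5_227⟩]⟩]⟩]], [[], [], [], [⟨nat_lit 3, [⟨nat_lit 0, [⟨nat_lit 4, nat_lit 2112, nat_lit 2832, nat_lit 3120, nat_lit 1872, nat_lit 8976, R3_65, R2_39, R6_187⟩, ⟨nat_lit 5, nat_lit 2448, nat_lit 2928, nat_lit 3360, nat_lit 1344, nat_lit 5712, R3_70, R1_28, R8_119⟩, ⟨nat_lit 7, nat_lit 2832, nat_lit 2880, nat_lit 3216, nat_lit 10416, nat_lit 9600, R3_67, R12_217, R4_200⟩]⟩, ⟨nat_lit 3, [⟨nat_lit 4, nat_lit 9792, nat_lit 3504, nat_lit 5280, nat_lit 2352, nat_lit 8400, R10_110, R2_49, R4_175⟩, ⟨nat_lit 5, nat_lit 10080, nat_lit 3552, nat_lit 5328, nat_lit 1824, nat_lit 5712, R10_111, R1_38, R5_119⟩]⟩]⟩,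
 ⟨nat_lit 7, [⟨nat_lit 3, [⟨nat_lit 4, nat_lit 9744, nat_lit 3984, nat_lit 4560, nat_lit 14304, nat_lit 10128, R1_95, R3_298, R4_211⟩, ⟨nat_lit 5, nat_lit 10032, nat_lit 4032, nat_lit 4608, nat_lit 2016, nat_lit 5568, R1_96, R10_42, R5_116⟩]⟩]⟩], [], [], [], [⟨nat_lit 3, [⟨nat_lit 0, [⟨nat_lit 7, nat_lit 3504, nat_lit 4848, nat_lit 1584, nat_lit 10464, nat_lit 6096, R3_33, R12_218, R7_127⟩]⟩, ⟨nat_lit 3, [⟨nat_lit 4, nat_lit 10752, nat_lit 4896, nat_lit 7680, nat_lit 624, nat_lit 7152, R10_160, R2_13, R7_149⟩, ⟨nat_lit 7, nat_lit 10992, nat_lit 4944, nat_lit 7728, nat_lit 10512, nat_lit 17424, R10_161, R12_219, R14_363⟩]⟩]⟩,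
 ⟨nat_lit 7, [⟨nat_lit 3, [⟨nat_lit 4, nat_lit 10704, nat_lit 4992, nat_lit 6864, nat_lit 12720, nat_lit 6720, R1_143, R3_265, R7_140⟩]⟩, ⟨nat_lit 7, [⟨nat_lit 4, nat_lit 17568, nat_lit 5040, nat_lit 8208, nat_lit 4752, nat_lit 6912, R11_171, R3_99, R4_144⟩, ⟨nat_lit 6, nat_lit 17952, nat_lit 5088, nat_lit 8256, nat_lit 15168, nat_lit 10944, R11_172, R0_316, R5_228⟩]⟩]⟩]]], [[], [], [], [[⟨nat_lit 3, [⟨nat_lit 0, [⟨nat_lit 5, nat_lit 672, nat_lit 8592, nat_lit 16176, nat_lit 3360, nat_lit 6240, R3_337, R11_70, R6_130⟩]⟩, ⟨nat_lit 1, [⟨nat_lit 5, nat_lit 4272, nat_lit 8928, nat_lit 528, nat_lit 3552, nat_lit 6672, R10_11, R11_74, R13_139⟩]⟩]⟩], [⟨nat_lit 3, [⟨nat_lit 1, [⟨nat_lit 5, nat_lit 6000, nat_lit 14304, nat_lit 864, nat_lit 4320, nat_lit 5040, R10_18, R11_90, R3_105⟩]⟩]⟩], [⟨nat_lit 3, [⟨nat_lit 0, [⟨nat_lit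 1, nat_lit 2016, nat_lit 2592, nat_lit 10656, nat_lit 7296, nat_lit 6192, R3_222, R1_152, R7_129⟩, ⟨nat_lit 5, nat_lit 1152, nat_lit 2928, nat_lit 17520, nat_lit 3648, nat_lit 6576, R3_365, R11_76, R4_137⟩]⟩, ⟨nat_lit 1, [⟨nat_lit 1, nat_lit 6960, nat_lit 3120, nat_lit 2304, nat_lit 7680, nat_lit 4368, R10_48, R1_160, R2_91⟩, ⟨nat_lit 5, nat_lit 6336, nat_lit 3312, nat_lit 2592, nat_lit 3792, nat_lit 6288, R10_54, R11_79, R3_131⟩]⟩, ⟨nat_lit 2, [⟨nat_lit 1, nat_lit 8496, nat_lit 4464, nat_lit 5040, nat_lit 7392, nat_lit 9504, R0_105, R1_154, R2_198⟩]⟩]⟩]], [], [], [], [[⟨nat_lit 3, [⟨nat_lit 0, [⟨nat_lit 5, nat_lit 624, nat_lit 11904, nat_lit 15936, nat_lit 192, nat_lit 6288, R3_332, R1_4, R6_131⟩]⟩, ⟨nat_lit 1, [⟨nat_lit 4, nat_lit 3696, nat_lit 12240, nat_lit 240, nat_lit 1056, nat_lit 6720, R10_5, R2_22,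 R6_140⟩, ⟨nat_lit 5, nat_lit 4224, nat_lit 12384, nat_lit 576, nat_lit 384, nat_lit 6720, R10_12, R1_8, R13_140⟩]⟩]⟩,
 ⟨nat_lit 7, [⟨nat_lit 0, [⟨nat_lit 5, nat_lit 576, nat_lit 11952, nat_lit 960, nat_lit 288, nat_lit 6336, R2_20, R10_6, R6_132⟩]⟩, ⟨nat_lit 1, [⟨nat_lit 4, nat_lit 3648, nat_lit 12288, nat_lit 144, nat_lit 15984, nat_lit 6672, R1_3, R3_333, R6_139⟩, ⟨nat_lit 5, nat_lit 4176, nat_lit 12432, nat_lit 288, nat_lit 624, nat_lit 6768, R1_6, R10_13, R13_141⟩]⟩]⟩], [⟨nat_lit 3, [⟨nat_lit 1, [⟨nat_lit 4, nat_lit 4848, nat_lit 12816, nat_lit 768, nat_lit 3072, nat_lit 7008, R10_16, R2_64, R4_146⟩, ⟨nat_lit 5, nat_lit 5952, nat_lit 12960, nat_lit 912, nat_lit 2544, nat_lit 5088, R10_19, R1_53, R3_106⟩]⟩]⟩,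
 ⟨nat_lit 7, [⟨nat_lit 1, [⟨nat_lit 4, nat_lit 4800, nat_lit 12864, nat_lit 480, nat_lit 17328, nat_lit 6960, R1_10, R3_361, R4_145⟩, ⟨nat_lit 5, nat_lit 5904, nat_lit 13008, nat_lit 528, nat_lit 2688, nat_lit 5136, R1_11, R10_56, R3_107⟩]⟩]⟩], [], [⟨nat_lit 3, [⟨nat_lit 0, [⟨nat_lit 4, nat_lit 2208, nat_lit 3024, nat_lit 11760, nat_lit 1824, nat_lit 9216, R3_245, R2_38, R6_192⟩, ⟨nat_lit 5, nat_lit 2736, nat_lit 3072, nat_lit 16896, nat_lit 1296, nat_lit 5760, R3_352, R1_27, R8_120⟩, ⟨nat_lit 7, nat_lit 2880, nat_lit 3120, nat_lit 14112, nat_lit 10320, nat_lit 9984, R3_294, R12_215, R4_208⟩]⟩, ⟨nat_lit 1, [⟨nat_lit 4, nat_lit 7104, nat_lit 3264, nat_lit 1104, nat_lit 2880, nat_lit 6096, R10_23, R2_60, R8_127⟩, ⟨nat_lit 5, nat_lit 7488, nat_lit 3312, nat_lit 2112, nat_lit 2352, nat_lit 4992, R10_44, R1_49, R9_104⟩,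 ⟨nat_lit 7, nat_lit 7584, nat_lit 3360, nat_lit 1536, nat_lit 10368, nat_lit 5472, R10_32, R12_216, R5_114⟩]⟩]⟩,
 ⟨nat_lit 7, [⟨nat_lit 0, [⟨nat_lit 4, nat_lit 2160, nat_lit 3168, nat_lit 1344, nat_lit 11856, nat_lit 7824, R2_28, R3_247, R6_163⟩, ⟨nat_lit 5, nat_lit 2688, nat_lit 3216, nat_lit 2496, nat_lit 1248, nat_lit 5808, R2_52, R10_26, R8_121⟩]⟩, ⟨nat_lit 1, [⟨nat_lit 4, nat_lit 7056, nat_lit 3408, nat_lit 816, nat_lit 16992, nat_lit 6000, R1_17, R3_354, R8_125⟩, ⟨nat_lit 5, nat_lit 7440, nat_lit 3456, nat_lit 1968, nat_lit 2208, nat_lit 5040, R1_41, R10_46, R9_105⟩]⟩, ⟨nat_lit 3, [⟨nat_lit 4, nat_lit 9840, nat_lit 3504, nat_lit 5952, nat_lit 14208, nat_lit 10080, R12_124, R3_296, R4_210⟩, ⟨nat_lit 5, nat_lit 10224, nat_lit 3552, nat_lit 6000, nat_lit 1968, nat_lit 5616, R12_125, R10_41, R5_117⟩]⟩]⟩]]],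 [[], [], [], [], [[], [⟨nat_lit 4, [⟨nat_lit 1, [⟨nat_lit 4, nat_lit 4320, nat_lit 1008, nat_lit 672, nat_lit 3120, nat_lit 6768, R4_14, R6_65, R4_141⟩, ⟨nat_lit 5, nat_lit 4896, nat_lit 1104, nat_lit 816, nat_lit 2784, nat_lit 5472, R4_17, R4_58, R3_114⟩]⟩, ⟨nat_lit 5, [⟨nat_lit 4, nat_lit 12336, nat_lit 1584, nat_lit 768, nat_lit 3264, nat_lit 6576, R7_16, R6_68, R7_137⟩, ⟨nat_lit 5, nat_lit 13104, nat_lit 1632, nat_lit 912, nat_lit 2928, nat_lit 4752, R7_19, R4_61, R2_99⟩, ⟨nat_lit 6, nat_lit 12768, nat_lit 1728, nat_lit 816, nat_lit 4176, nat_lit 9696, R7_17, R8_87, R2_202⟩]⟩]⟩,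
 ⟨nat_lit 7, [⟨nat_lit 5, [⟨nat_lit 4, nat_lit 12480, nat_lit 8304, nat_lit 1968, nat_lit 13008, nat_lit 6624, R2_41, R13_271, R7_138⟩, ⟨nat_lit 5, nat_lit 13248, nat_lit 8352, nat_lit 2304, nat_lit 9696, nat_lit 4800, R2_48, R3_202, R2_100⟩, ⟨nat_lit 6, nat_lit 12912, nat_lit 8448, nat_lit 2160, nat_lit 10224, nat_lit 9792, R2_45, R9_213, R2_204⟩]⟩]⟩], [], [], [], [⟨nat_lit 4, [⟨nat_lit 5, [⟨nat_lit 4, nat_lit 13584, nat_lit 1680, nat_lit 1296, nat_lit 4080, nat_lit 9648, R7_27, R6_85, R4_201⟩, ⟨nat_lit 6, nat_lit 14352, nat_lit 1824, nat_lit 1392, nat_lit 4032, nat_lit 14352, R7_29, R8_84, R3_299⟩]⟩]⟩,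
 ⟨nat_lit 7, [⟨nat_lit 5, [⟨nat_lit 4, nat_lit 13728, nat_lit 8304, nat_lit 144, nat_lit 14208, nat_lit 9888, R2_3, R13_296, R4_206⟩, ⟨nat_lit 6, nat_lit 14496, nat_lit 8448, nat_lit 384, nat_lit 11904, nat_lit 14400, R2_8, R9_248, R3_300⟩]⟩]⟩]], [[], [⟨nat_lit 4, [⟨nat_lit 1, [⟨nat_lit 4, nat_lit 4368, nat_lit 4368, nat_lit 7056, nat_lit 17856, nat_lit 7056, R4_147, R8_372, R4_147⟩, ⟨nat_lit 5, nat_lit 4944, nat_lit 4416, nat_lit 7200, nat_lit 4224, nat_lit 5520, R4_150, R5_88, R3_115⟩]⟩, ⟨nat_lit 5, [⟨nat_lit 4, nat_lit 12384, nat_lit 12384, nat_lit 6768, nat_lit 11136, nat_lit 6768, R7_141, R8_232, R7_141⟩, ⟨nat_lit 5, nat_lit 13152, nat_lit 12432, nat_lit 6912, nat_lit 3168, nat_lit 4944, R7_144, R5_66, R2_103⟩, ⟨nat_lit 6, nat_lit 12816, nat_lit 12528, nat_lit 6816, nat_lit 3360, nat_lit 9744, R7_142, R9_70,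 R2_203⟩]⟩]⟩,
 ⟨nat_lit 5, [⟨nat_lit 1, [⟨nat_lit 4, nat_lit 4416, nat_lit 4944, nat_lit 5520, nat_lit 4224, nat_lit 7200, R3_115, R5_88, R4_150⟩, ⟨nat_lit 5, nat_lit 4992, nat_lit 4992, nat_lit 5568, nat_lit 4224, nat_lit 5568, R3_116, R11_88, R3_116⟩]⟩, ⟨nat_lit 5, [⟨nat_lit 4, nat_lit 12432, nat_lit 13152, nat_lit 4944, nat_lit 3168, nat_lit 6912, R2_103, R5_66, R7_144⟩, ⟨nat_lit 5, nat_lit 13200, nat_lit 13200, nat_lit 5088, nat_lit 3168, nat_lit 5088, R2_106, R11_66, R2_106⟩, ⟨nat_lit 6, nat_lit 12864, nat_lit 13296, nat_lit 4992, nat_lit 1824, nat_lit 9936, R2_104, R0_38, R2_207⟩]⟩]⟩,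
 ⟨nat_lit 7, [⟨nat_lit 5, [⟨nat_lit 4, nat_lit 12528, nat_lit 12816, nat_lit 9744, nat_lit 3360, nat_lit 6816, R2_203, R9_70, R7_142⟩, ⟨nat_lit 5, nat_lit 13296, nat_lit 12864, nat_lit 9936, nat_lit 1824, nat_lit 4992, R2_207, R0_38, R2_104⟩]⟩]⟩], [], [], [], [⟨nat_lit 4, [⟨nat_lit 5, [⟨nat_lit 4, nat_lit 13632, nat_lit 240, nat_lit 7296, nat_lit 11184, nat_lit 9792, R7_152, R8_233, R4_204⟩, ⟨nat_lit 6, nat_lit 14400, nat_lit 384, nat_lit 7392, nat_lit 3216, nat_lit 14496, R7_154, R9_67, R3_302⟩]⟩]⟩,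
 ⟨nat_lit 5, [⟨nat_lit 5, [⟨nat_lit 4, nat_lit 13680, nat_lit 5952, nat_lit 5520, nat_lit 768, nat_lit 10272, R2_115, R5_16, R4_214⟩, ⟨nat_lit 6, nat_lit 14448, nat_lit 6096, nat_lit 5616, nat_lit 1680, nat_lit 14544, R2_117, R0_35, R3_303⟩]⟩]⟩,
 ⟨nat_lit 7, [⟨nat_lit 5, [⟨nat_lit 4, nat_lit 13776, nat_lit 7248, nat_lit 7152, nat_lit 1728, nat_lit 10176, R2_149, R9_36, R4_212⟩]⟩]⟩]], [], [[], [], [], [], [], [⟨nat_lit 7, [⟨nat_lit 5, [⟨nat_lit 4, nat_lit 13824, nat_lit 5280, nat_lit 5856, nat_lit 9648, nat_lit 10032, R2_122, R3_201, R4_209⟩, ⟨nat_lit 6, nat_lit 14544, nat_lit 5616, nat_lit 6096, nat_lit 1680, nat_lit 14448, R2_127, R0_35, R3_301⟩]⟩]⟩]]], [[], [[], [⟨nat_lit 1, [⟨nat_lit 1, [⟨nat_lit 5, nat_lit 5136, nat_lit 13008, nat_lit 528, nat_lit 18912, nat_lit 5904, R1_11, R10_394, R3_123⟩]⟩]⟩,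
 ⟨nat_lit 5, [⟨nat_lit 1, [⟨nat_lit 5, nat_lit 5088, nat_lit 12960, nat_lit 18768, nat_lit 2544, nat_lit 5952, R10_391, R1_53, R3_124⟩]⟩, ⟨nat_lit 5, [⟨nat_lit 5, nat_lit 13392, nat_lit 12912, nat_lit 15456, nat_lit 2496, nat_lit 5184, R1_322, R1_52, R2_108⟩]⟩]⟩]], [], [], [], [[], [⟨nat_lit 5, [⟨nat_lit 1, [⟨nat_lit 4, nat_lit 4464, nat_lit 4752, nat_lit 4320, nat_lit 4320, nat_lit 7296, R10_90, R5_90, R4_152⟩, ⟨nat_lit 5, nat_lit 5040, nat_lit 4848, nat_lit 4464, nat_lit 4320, nat_lit 6000, R10_93, R11_90, R3_125⟩]⟩, ⟨nat_lit 5, [⟨nat_lit 4, nat_lit 12576, nat_lit 5376, nat_lit 3648, nat_lit 3216, nat_lit 6960, R1_76, R5_67, R7_145⟩, ⟨nat_lit 5, nat_lit 13344, nat_lit 5424, nat_lit 3792, nat_lit 3216, nat_lit 5136, R1_79, R11_67, R2_107⟩, ⟨nat_lit 6, nat_lit 12960, nat_lit 5520, nat_lit 3696, nat_lit 6864,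 nat_lit 9984, R1_77, R0_143, R2_208⟩]⟩]⟩], [], [], [], [⟨nat_lit 5, [⟨nat_lit 5, [⟨nat_lit 4, nat_lit 14256, nat_lit 4656, nat_lit 4224, nat_lit 816, nat_lit 10368, R1_88, R5_17, R4_216⟩, ⟨nat_lit 6, nat_lit 15072, nat_lit 4800, nat_lit 4320, nat_lit 6720, nat_lit 15120, R1_90, R0_140, R3_315⟩]⟩]⟩]]], [[], [], [], [], [[], [], [], [], [⟨nat_lit 4, [⟨nat_lit 4, [⟨nat_lit 6, nat_lit 11040, nat_lit 15696, nat_lit 4752, nat_lit 11280, nat_lit 13008, R7_99, R8_235, R6_271⟩]⟩]⟩,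
 ⟨nat_lit 6, [⟨nat_lit 4, [⟨nat_lit 6, nat_lit 11136, nat_lit 15888, nat_lit 3168, nat_lit 12816, nat_lit 13056, R2_66, R5_267, R6_272⟩]⟩, ⟨nat_lit 6, [⟨nat_lit 6, nat_lit 15168, nat_lit 16560, nat_lit 2640, nat_lit 12864, nat_lit 13152, R1_55, R5_268, R4_274⟩]⟩]⟩,
 ⟨nat_lit 7, [⟨nat_lit 4, [⟨nat_lit 6, nat_lit 11232, nat_lit 15792, nat_lit 7488, nat_lit 10944, nat_lit 13104, R2_156, R9_228, R6_273⟩]⟩, ⟨nat_lit 7, [⟨nat_lit 4, nat_lit 15888, nat_lit 13344, nat_lit 48, nat_lit 13488, nat_lit 13776, R1_1, R13_281, R6_287⟩, ⟨nat_lit 6, nat_lit 16224, nat_lit 16128, nat_lit 8016, nat_lit 10992, nat_lit 13632, R1_167, R9_229, R8_284⟩, ⟨nat_lit 7, nat_lit 16656, nat_lit 14736, nat_lit 5856, nat_lit 10272, nat_lit 13584, R1_122, R3_214, R4_283⟩]⟩]⟩], [⟨nat_lit 4, [⟨nat_lit 4, [⟨nat_lit 4, nat_lit 11568, nat_lit 8256,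 nat_lit 240, nat_lit 11328, nat_lit 9024, R7_5, R6_236, R6_188⟩, ⟨nat_lit 6, nat_lit 11904, nat_lit 8880, nat_lit 5184, nat_lit 11424, nat_lit 18624, R7_108, R8_238, R13_388⟩]⟩, ⟨nat_lit 5, [⟨nat_lit 4, nat_lit 13872, nat_lit 8304, nat_lit 18624, nat_lit 11568, nat_lit 9696, R14_388, R6_241, R4_202⟩, ⟨nat_lit 6, nat_lit 14592, nat_lit 8928, nat_lit 19104, nat_lit 12000, nat_lit 14592, R14_398, R8_250, R3_304⟩]⟩]⟩,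
 ⟨nat_lit 6, [⟨nat_lit 4, [⟨nat_lit 6, nat_lit 12048, nat_lit 11136, nat_lit 3600, nat_lit 13824, nat_lit 18672, R2_75, R5_288, R13_389⟩]⟩, ⟨nat_lit 5, [⟨nat_lit 6, nat_lit 14736, nat_lit 11184, nat_lit 15600, nat_lit 13920, nat_lit 14640, R12_325, R5_290, R3_305⟩]⟩, ⟨nat_lit 6, [⟨nat_lit 6, nat_lit 15504, nat_lit 11232, nat_lit 3072, nat_lit 13872, nat_lit 9168, R1_64, R5_289, R3_191⟩]⟩]⟩,
 ⟨nat_lit 7, [⟨nat_lit 4, [⟨nat_lit 4, nat_lit 11712, nat_lit 9456, nat_lit 1248, nat_lit 14640, nat_lit 9168, R2_26, R13_305, R6_191⟩, ⟨nat_lit 6, nat_lit 12192, nat_lit 10608, nat_lit 8304, nat_lit 12480, nat_lit 18720, R2_173, R9_260, R13_390⟩]⟩, ⟨nat_lit 5, [⟨nat_lit 4, nat_lit 14064, nat_lit 9552, nat_lit 288, nat_lit 14736, nat_lit 9936, R12_6, R13_307, R4_207⟩, ⟨nat_lit 6, nat_lit 14928, nat_lit 10704, nat_lit 1344,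 nat_lit 12576, nat_lit 14688, R12_28, R9_262, R3_306⟩]⟩, ⟨nat_lit 7, [⟨nat_lit 4, nat_lit 16848, nat_lit 9504, nat_lit 720, nat_lit 14688, nat_lit 4848, R1_15, R13_306, R8_101⟩, ⟨nat_lit 6, nat_lit 17040, nat_lit 10656, nat_lit 9120, nat_lit 12528, nat_lit 15216, R1_190, R9_261, R9_317⟩, ⟨nat_lit 7, nat_lit 17184, nat_lit 10128, nat_lit 6240, nat_lit 10800, nat_lit 16080, R1_130, R3_225, R5_335⟩]⟩]⟩]], [[], [], [], [], [], [⟨nat_lit 4, [⟨nat_lit 4, [⟨nat_lit 4, nat_lit 11664, nat_lit 6864, nat_lit 336, nat_lit 3840, nat_lit 9120, R7_7, R8_80, R6_190⟩, ⟨nat_lit 6, nat_lit 12000, nat_lit 7488, nat_lit 5280, nat_lit 12192, nat_lit 18960, R7_110, R9_254, R13_395⟩]⟩, ⟨nat_lit 5, [⟨nat_lit 4, nat_lit 13968, nat_lit 6912, nat_lit 20112, nat_lit 11808, nat_lit 9840, R14_419, R8_246, R4_205⟩, ⟨nat_lit 6, nat_lit 14688,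 nat_lit 7536, nat_lit 20784, nat_lit 12960, nat_lit 14928, R14_433, R9_270, R3_311⟩]⟩]⟩,
 ⟨nat_lit 5, [⟨nat_lit 5, [⟨nat_lit 4, nat_lit 14016, nat_lit 7776, nat_lit 15888, nat_lit 864, nat_lit 10320, R12_331, R5_18, R4_215⟩, ⟨nat_lit 6, nat_lit 14880, nat_lit 7920, nat_lit 16560, nat_lit 11136, nat_lit 15024, R12_345, R0_232, R3_313⟩]⟩]⟩,
 ⟨nat_lit 6, [⟨nat_lit 4, [⟨nat_lit 6, nat_lit 12144, nat_lit 9264, nat_lit 3696, nat_lit 1392, nat_lit 19008, R2_77, R0_29, R13_396⟩]⟩, ⟨nat_lit 5, [⟨nat_lit 6, nat_lit 14832, nat_lit 9312, nat_lit 16272, nat_lit 10752, nat_lit 14976, R12_339, R0_224, R3_312⟩]⟩, ⟨nat_lit 6, [⟨nat_lit 6, nat_lit 15600, nat_lit 9360, nat_lit 3168, nat_lit 6528, nat_lit 9264, R1_66, R0_136, R3_193⟩]⟩]⟩,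
 ⟨nat_lit 7, [⟨nat_lit 4, [⟨nat_lit 4, nat_lit 11808, nat_lit 8352, nat_lit 1632, nat_lit 1056, nat_lit 9312, R2_34, R9_22, R6_194⟩]⟩, ⟨nat_lit 5, [⟨nat_lit 4, nat_lit 14160, nat_lit 8448, nat_lit 7392, nat_lit 1776, nat_lit 10224, R12_154, R9_37, R4_213⟩]⟩, ⟨nat_lit 7, [⟨nat_lit 4, nat_lit 16944, nat_lit 8400, nat_lit 1104, nat_lit 1488, nat_lit 6480, R1_23, R9_31, R8_135⟩, ⟨nat_lit 7, nat_lit 17280, nat_lit 9024, nat_lit 6528, nat_lit 4272, nat_lit 16176, R1_136, R0_89, R5_337⟩]⟩]⟩]], [[], [], [], [], [⟨nat_lit 4, [⟨nat_lit 4, [⟨nat_lit 6, nat_lit 11088, nat_lit 14400, nat_lit 4800, nat_lit 2544, nat_lit 13152, R7_100, R5_53, R6_274⟩]⟩]⟩,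
 ⟨nat_lit 6, [⟨nat_lit 4, [⟨nat_lit 6, nat_lit 11184, nat_lit 14592, nat_lit 3216, nat_lit 15744, nat_lit 13200, R2_67, R11_328, R6_275⟩]⟩, ⟨nat_lit 6, [⟨nat_lit 2, nat_lit 15360, nat_lit 10608, nat_lit 13152, nat_lit 11136, nat_lit 14448, R1_274, R1_232, R7_301⟩, ⟨nat_lit 6, nat_lit 15216, nat_lit 14832, nat_lit 2688, nat_lit 15792, nat_lit 13200, R1_56, R11_329, R4_275⟩]⟩]⟩,
 ⟨nat_lit 7, [⟨nat_lit 4, [⟨nat_lit 6, nat_lit 11280, nat_lit 14496, nat_lit 7632, nat_lit 9456, nat_lit 13248, R2_159, R0_197, R6_276⟩]⟩, ⟨nat_lit 7, [⟨nat_lit 4, nat_lit 15936, nat_lit 11904, nat_lit 192, nat_lit 624, nat_lit 13968, R1_4, R3_13, R6_291⟩, ⟨nat_lit 6, nat_lit 16272, nat_lit 14640, nat_lit 8160, nat_lit 9504, nat_lit 13680, R1_170, R0_198, R8_285⟩, ⟨nat_lit 7, nat_lit 16704, nat_lit 13920, nat_lit 5904, nat_lit 12240, nat_lit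 13776, R1_123, R10_255, R4_287⟩]⟩]⟩], [⟨nat_lit 4, [⟨nat_lit 4, [⟨nat_lit 4, nat_lit 11616, nat_lit 2688, nat_lit 480, nat_lit 2304, nat_lit 9072, R7_10, R4_48, R6_189⟩, ⟨nat_lit 6, nat_lit 11952, nat_lit 4032, nat_lit 5424, nat_lit 2688, nat_lit 18768, R7_113, R5_56, R13_391⟩]⟩, ⟨nat_lit 5, [⟨nat_lit 4, nat_lit 13920, nat_lit 2736, nat_lit 21696, nat_lit 11184, nat_lit 9744, R14_452, R4_233, R4_203⟩, ⟨nat_lit 6, nat_lit 14640, nat_lit 4080, nat_lit 22080, nat_lit 13920, nat_lit 14736, R14_460, R5_290, R3_307⟩]⟩]⟩,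
 ⟨nat_lit 6, [⟨nat_lit 4, [⟨nat_lit 6, nat_lit 12096, nat_lit 5376, nat_lit 3840, nat_lit 16896, nat_lit 18816, R2_80, R11_352, R13_392⟩]⟩, ⟨nat_lit 5, [⟨nat_lit 6, nat_lit 14784, nat_lit 5424, nat_lit 16896, nat_lit 16992, nat_lit 14784, R12_352, R11_354, R3_308⟩]⟩, ⟨nat_lit 6, [⟨nat_lit 2, nat_lit 15648, nat_lit 6336, nat_lit 13632, nat_lit 11328, nat_lit 13872, R1_284, R1_236, R2_289⟩, ⟨nat_lit 6, nat_lit 15552, nat_lit 5472, nat_lit 3312, nat_lit 16944, nat_lit 9216, R1_69, R11_353, R3_192⟩]⟩]⟩,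
 ⟨nat_lit 7, [⟨nat_lit 4, [⟨nat_lit 4, nat_lit 11760, nat_lit 3024, nat_lit 1824, nat_lit 2208, nat_lit 9216, R2_38, R3_46, R6_192⟩, ⟨nat_lit 6, nat_lit 12240, nat_lit 4608, nat_lit 8688, nat_lit 10656, nat_lit 18864, R2_181, R0_222, R13_393⟩]⟩, ⟨nat_lit 5, [⟨nat_lit 4, nat_lit 14112, nat_lit 3120, nat_lit 10320, nat_lit 2880, nat_lit 9984, R12_215, R3_60, R4_208⟩, ⟨nat_lit 6, nat_lit 14976, nat_lit 4704, nat_lit 11088, nat_lit 10752, nat_lit 14832, R12_231, R0_224, R3_309⟩]⟩, ⟨nat_lit 7, [⟨nat_lit 4, nat_lit 16896, nat_lit 3072, nat_lit 1296, nat_lit 2736, nat_lit 5760, R1_27, R3_57, R8_120⟩, ⟨nat_lit 6, nat_lit 17088, nat_lit 4656, nat_lit 9504, nat_lit 10704, nat_lit 15264, R1_198, R0_223, R9_318⟩, ⟨nat_lit 7, nat_lit 17232, nat_lit 3600, nat_lit 6720, nat_lit 12960, nat_lit 16128, R1_140, R10_270, R5_336⟩]⟩]⟩],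 [⟨nat_lit 6, [⟨nat_lit 6, [⟨nat_lit 2, nat_lit 15696, nat_lit 10992, nat_lit 13776, nat_lit 11232, nat_lit 14256, R1_287, R1_234, R2_297⟩]⟩]⟩]], [[], [], [], [], [⟨nat_lit 7, [⟨nat_lit 4, [⟨nat_lit 6, nat_lit 11328, nat_lit 14544, nat_lit 7584, nat_lit 9312, nat_lit 13296, R2_158, R0_194, R6_277⟩]⟩, ⟨nat_lit 7, [⟨nat_lit 4, nat_lit 15984, nat_lit 12288, nat_lit 144, nat_lit 3648, nat_lit 14208, R1_3, R3_76, R6_296⟩, ⟨nat_lit 6, nat_lit 16320, nat_lit 15120, nat_lit 8112, nat_lit 9552, nat_lit 13728, R1_169, R0_199, R8_286⟩]⟩]⟩], [⟨nat_lit 7, [⟨nat_lit 4, [⟨nat_lit 4, nat_lit 11856, nat_lit 3168, nat_lit 1344, nat_lit 2160, nat_lit 9264, R2_28, R3_45, R6_193⟩, ⟨nat_lit 6, nat_lit 12288, nat_lit 4752, nat_lit 8400, nat_lit 10512, nat_lit 18912, R2_175, R0_219, R13_394⟩]⟩, ⟨nat_lit 5, [⟨nat_lit 4, nat_lit 14208,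 nat_lit 3504, nat_lit 5952, nat_lit 9840, nat_lit 10080, R12_124, R3_205, R4_210⟩, ⟨nat_lit 6, nat_lit 15024, nat_lit 5088, nat_lit 6192, nat_lit 11136, nat_lit 14880, R12_129, R0_232, R3_310⟩]⟩, ⟨nat_lit 7, [⟨nat_lit 4, nat_lit 16992, nat_lit 3408, nat_lit 816, nat_lit 7056, nat_lit 6000, R1_17, R3_147, R8_125⟩, ⟨nat_lit 6, nat_lit 17136, nat_lit 4992, nat_lit 9216, nat_lit 10800, nat_lit 15312, R1_192, R0_225, R9_319⟩]⟩]⟩], [], [⟨nat_lit 7, [⟨nat_lit 7, [⟨nat_lit 4, nat_lit 17328, nat_lit 12864, nat_lit 480, nat_lit 4800, nat_lit 6960, R1_10, R3_100, R4_145⟩, ⟨nat_lit 6, nat_lit 17616, nat_lit 16128, nat_lit 8736, nat_lit 10032, nat_lit 10992, R1_182, R0_209, R5_229⟩]⟩]⟩]]], [[], [], [], [], [[], [⟨nat_lit 4, [⟨nat_lit 1, [⟨nat_lit 4, nat_lit 4512, nat_lit 0, nat_lit 1584, nat_lit 7296, nat_lit 6816, R5_33,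 R6_152, R4_142⟩, ⟨nat_lit 5, nat_lit 5184, nat_lit 96, nat_lit 3984, nat_lit 7968, nat_lit 5616, R5_83, R4_166, R3_117⟩]⟩]⟩,
 ⟨nat_lit 7, [⟨nat_lit 1, [⟨nat_lit 4, nat_lit 4656, nat_lit 5040, nat_lit 1488, nat_lit 13248, nat_lit 6864, R11_31, R13_276, R4_143⟩, ⟨nat_lit 5, nat_lit 5328, nat_lit 5760, nat_lit 1632, nat_lit 9984, nat_lit 5712, R11_34, R3_208, R3_119⟩]⟩, ⟨nat_lit 5, [⟨nat_lit 4, nat_lit 12624, nat_lit 4992, nat_lit 1440, nat_lit 13200, nat_lit 6672, R1_30, R13_275, R7_139⟩, ⟨nat_lit 5, nat_lit 13440, nat_lit 5664, nat_lit 1776, nat_lit 9936, nat_lit 4848, R1_37, R3_207, R2_101⟩, ⟨nat_lit 6, nat_lit 13008, nat_lit 6720, nat_lit 1632, nat_lit 10512, nat_lit 9840, R1_34, R9_219, R2_205⟩]⟩]⟩]], [[], [⟨nat_lit 4, [⟨nat_lit 1, [⟨nat_lit 4, nat_lit 4560, nat_lit 11856, nat_lit 10080, nat_lit 18672, nat_lit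 7104, R5_210, R8_389, R4_148⟩, ⟨nat_lit 5, nat_lit 5232, nat_lit 12000, nat_lit 12432, nat_lit 12576, nat_lit 5664, R5_259, R5_262, R3_118⟩]⟩]⟩,
 ⟨nat_lit 5, [⟨nat_lit 1, [⟨nat_lit 4, nat_lit 4608, nat_lit 11904, nat_lit 480, nat_lit 4272, nat_lit 7248, R0_10, R5_89, R4_151⟩, ⟨nat_lit 5, nat_lit 5280, nat_lit 12048, nat_lit 528, nat_lit 4272, nat_lit 5856, R0_11, R11_89, R3_122⟩]⟩]⟩,
 ⟨nat_lit 7, [⟨nat_lit 1, [⟨nat_lit 4, nat_lit 4704, nat_lit 11952, nat_lit 1536, nat_lit 3648, nat_lit 7152, R11_32, R9_76, R4_149⟩, ⟨nat_lit 5, nat_lit 5376, nat_lit 12096, nat_lit 1680, nat_lit 2112, nat_lit 5808, R11_35, R0_44, R3_121⟩]⟩, ⟨nat_lit 5, [⟨nat_lit 4, nat_lit 12672, nat_lit 11760, nat_lit 10560, nat_lit 3408, nat_lit 6864, R1_220, R9_71, R7_143⟩, ⟨nat_lit 5, nat_lit 13488, nat_lit 11808, nat_lit 10752, nat_lit 1872,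 nat_lit 5040, R1_224, R0_39, R2_105⟩]⟩]⟩]], [], [[], [⟨nat_lit 7, [⟨nat_lit 1, [⟨nat_lit 4, nat_lit 4752, nat_lit 18192, nat_lit 1584, nat_lit 17568, nat_lit 6912, R11_33, R3_366, R4_144⟩, ⟨nat_lit 5, nat_lit 5424, nat_lit 18240, nat_lit 1728, nat_lit 2640, nat_lit 5760, R11_36, R10_55, R3_120⟩]⟩, ⟨nat_lit 5, [⟨nat_lit 4, nat_lit 12720, nat_lit 18048, nat_lit 6864, nat_lit 10704, nat_lit 6720, R1_143, R3_223, R7_140⟩, ⟨nat_lit 5, nat_lit 13536, nat_lit 18096, nat_lit 7200, nat_lit 2400, nat_lit 4896, R1_150, R10_50, R2_102⟩, ⟨nat_lit 6, nat_lit 13056, nat_lit 18144, nat_lit 7056, nat_lit 5376, nat_lit 9888, R1_147, R0_112, R2_206⟩]⟩]⟩], [], [], [], [⟨nat_lit 7, [⟨nat_lit 5, [⟨nat_lit 4, nat_lit 14304, nat_lit 3984, nat_lit 4560, nat_lit 9744, nat_lit 10128, R1_95, R3_203, R4_211⟩, ⟨nat_lit 6, nat_lit 15120,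 nat_lit 4320, nat_lit 4800, nat_lit 6720, nat_lit 15072, R1_100, R0_140, R3_314⟩]⟩]⟩]]]]
noncomputable def N2277 : T3 (List N0) := [[[[⟨nat_lit 0, [⟨nat_lit 0, [⟨nat_lit 4, nat_lit 0, nat_lit 480, nat_lit 0, nat_lit 3408, nat_lit 11664, R6_0, R6_71, R6_243⟩, ⟨nat_lit 5, nat_lit 48, nat_lit 768, nat_lit 288, nat_lit 1488, nat_lit 12672, R6_6, R8_31, R8_264⟩, ⟨nat_lit 6, nat_lit 96, nat_lit 912, nat_lit 48, nat_lit 3168, nat_lit 12096, R6_1, R4_66, R4_252⟩]⟩, ⟨nat_lit 1, [⟨nat_lit 4, nat_lit 144, nat_lit 1056, nat_lit 0, nat_lit 4272, nat_lit 3264, R4_0, R6_89, R8_68⟩, ⟨nat_lit 5, nat_lit 192, nat_lit 1344, nat_lit 192, nat_lit 1584, nat_lit 13584, R4_4, R8_33, R9_283⟩, ⟨nat_lit 6, nat_lit 240, nat_lit 1392, nat_lit 48, nat_lit 4368, nat_lit 14496, R4_1, R4_91, R5_302⟩]⟩, ⟨nat_lit 2, [⟨nat_lit 4, nat_lit 288,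 nat_lit 2784, nat_lit 3264, nat_lit 3792, nat_lit 0, R8_68, R6_79, R4_0⟩, ⟨nat_lit 5, nat_lit 336, nat_lit 2928, nat_lit 3600, nat_lit 1536, nat_lit 1872, R8_75, R8_32, R5_39⟩]⟩]⟩,
 ⟨nat_lit 2, [⟨nat_lit 2, [⟨nat_lit 4, nat_lit 384, nat_lit 10416, nat_lit 4752, nat_lit 960, nat_lit 480, R5_99, R4_20, R4_10⟩, ⟨nat_lit 5, nat_lit 432, nat_lit 10464, nat_lit 4800, nat_lit 288, nat_lit 1920, R5_100, R5_6, R5_40⟩]⟩]⟩], [⟨nat_lit 0, [⟨nat_lit 1, [⟨nat_lit 4, nat_lit 1344, nat_lit 960, nat_lit 480, nat_lit 4320, nat_lit 4752, R4_10, R6_90, R5_99⟩, ⟨nat_lit 5, nat_lit 1392, nat_lit 1248, nat_lit 768, nat_lit 2784, nat_lit 11712, R4_16, R8_58, R0_244⟩, ⟨nat_lit 6, nat_lit 1440, nat_lit 1392, nat_lit 528, nat_lit 4416, nat_lit 18000, R4_11, R4_92, R11_375⟩]⟩]⟩], [⟨nat_lit 0, [⟨nat_lit 0, [⟨nat_lit 5, nat_lit 1776, nat_lit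 2400, nat_lit 2592, nat_lit 2160, nat_lit 8352, R6_54, R8_45, R5_174⟩]⟩, ⟨nat_lit 1, [⟨nat_lit 5, nat_lit 1824, nat_lit 2448, nat_lit 2496, nat_lit 2304, nat_lit 672, R4_52, R8_48, R0_14⟩]⟩, ⟨nat_lit 2, [⟨nat_lit 5, nat_lit 1872, nat_lit 2544, nat_lit 3648, nat_lit 2208, nat_lit 10800, R8_76, R8_46, R11_225⟩]⟩]⟩,
 ⟨nat_lit 2, [⟨nat_lit 2, [⟨nat_lit 5, nat_lit 1920, nat_lit 10128, nat_lit 6480, nat_lit 6480, nat_lit 12768, R5_135, R5_135, R11_266⟩]⟩]⟩]], [], [[], [], [⟨nat_lit 0, [⟨nat_lit 0, [⟨nat_lit 5, nat_lit 1968, nat_lit 4704, nat_lit 10272, nat_lit 16896, nat_lit 8448, R6_214, R5_352, R5_176⟩]⟩, ⟨nat_lit 1, [⟨nat_lit 5, nat_lit 2016, nat_lit 5376, nat_lit 11328, nat_lit 17616, nat_lit 5904, R4_236, R5_367, R0_123⟩]⟩, ⟨nat_lit 2, [⟨nat_lit 5, nat_lit 2064, nat_lit 6432, nat_lit 10896, nat_lit 17232, nat_lit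 10896, R8_227, R5_359, R11_227⟩]⟩]⟩,
 ⟨nat_lit 2, [⟨nat_lit 2, [⟨nat_lit 1, nat_lit 2160, nat_lit 7344, nat_lit 7536, nat_lit 16368, nat_lit 8784, R5_157, R1_341, R1_183⟩, ⟨nat_lit 5, nat_lit 2112, nat_lit 7296, nat_lit 7584, nat_lit 21936, nat_lit 12864, R5_158, R11_457, R11_268⟩]⟩]⟩]], [[⟨nat_lit 0, [⟨nat_lit 0, [⟨nat_lit 4, nat_lit 480, nat_lit 4752, nat_lit 4848, nat_lit 19872, nat_lit 11856, R6_101, R13_414, R6_247⟩, ⟨nat_lit 5, nat_lit 528, nat_lit 4800, nat_lit 5136, nat_lit 16128, nat_lit 12816, R6_107, R9_336, R8_267⟩, ⟨nat_lit 6, nat_lit 576, nat_lit 4848, nat_lit 4896, nat_lit 16128, nat_lit 12192, R6_102, R3_336, R4_254⟩]⟩, ⟨nat_lit 1, [⟨nat_lit 4, nat_lit 768, nat_lit 6384, nat_lit 5232, nat_lit 21408, nat_lit 8112, R4_109, R13_446, R8_169⟩, ⟨nat_lit 5, nat_lit 816, nat_lit 6432, nat_lit 5424, nat_lit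 17808, nat_lit 13824, R4_113, R9_371, R9_288⟩, ⟨nat_lit 6, nat_lit 864, nat_lit 6480, nat_lit 5280, nat_lit 17472, nat_lit 14688, R4_110, R3_364, R5_306⟩]⟩, ⟨nat_lit 2, [⟨nat_lit 4, nat_lit 1056, nat_lit 8544, nat_lit 8112, nat_lit 20592, nat_lit 5232, R8_169, R13_429, R4_109⟩, ⟨nat_lit 5, nat_lit 1104, nat_lit 8592, nat_lit 8832, nat_lit 16992, nat_lit 10368, R8_184, R9_354, R5_216⟩]⟩]⟩,
 ⟨nat_lit 2, [⟨nat_lit 2, [⟨nat_lit 4, nat_lit 1152, nat_lit 9504, nat_lit 5040, nat_lit 4656, nat_lit 6864, R5_105, R3_97, R4_143⟩, ⟨nat_lit 5, nat_lit 1200, nat_lit 9552, nat_lit 5088, nat_lit 14592, nat_lit 10464, R5_106, R0_304, R5_218⟩]⟩]⟩,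
 ⟨nat_lit 3, [⟨nat_lit 0, [⟨nat_lit 4, nat_lit 624, nat_lit 5376, nat_lit 5712, nat_lit 96, nat_lit 12144, R13_119, R3_2, R6_253⟩, ⟨nat_lit 5, nat_lit 672, nat_lit 5424, nat_lit 5808, nat_lit 192, nat_lit 12960, R13_121, R0_4, R8_270⟩, ⟨nat_lit 6, nat_lit 720, nat_lit 5472, nat_lit 5760, nat_lit 3168, nat_lit 12336, R13_120, R10_66, R4_257⟩]⟩, ⟨nat_lit 1, [⟨nat_lit 4, nat_lit 912, nat_lit 6960, nat_lit 3984, nat_lit 2352, nat_lit 8208, R3_83, R3_49, R8_171⟩, ⟨nat_lit 5, nat_lit 960, nat_lit 7008, nat_lit 4080, nat_lit 1968, nat_lit 13968, R3_85, R0_41, R9_291⟩, ⟨nat_lit 6, nat_lit 1008, nat_lit 7056, nat_lit 4032, nat_lit 5856, nat_lit 14736, R3_84, R10_122, R5_307⟩]⟩, ⟨nat_lit 2, [⟨nat_lit 4, nat_lit 1248, nat_lit 8976, nat_lit 4464, nat_lit 816, nat_lit 6384, R9_93, R3_17, R4_133⟩, ⟨nat_lit 5, nat_lit 1296,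 nat_lit 9024, nat_lit 4512, nat_lit 1008, nat_lit 10416, R9_94, R0_21, R5_217⟩]⟩]⟩], [⟨nat_lit 0, [⟨nat_lit 1, [⟨nat_lit 4, nat_lit 1488, nat_lit 4656, nat_lit 6864, nat_lit 21504, nat_lit 5040, R4_143, R13_448, R5_105⟩, ⟨nat_lit 5, nat_lit 1536, nat_lit 4704, nat_lit 7152, nat_lit 17904, nat_lit 11952, R4_149, R9_373, R0_249⟩, ⟨nat_lit 6, nat_lit 1584, nat_lit 4752, nat_lit 6912, nat_lit 17568, nat_lit 18192, R4_144, R3_366, R11_379⟩]⟩]⟩,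
 ⟨nat_lit 3, [⟨nat_lit 1, [⟨nat_lit 4, nat_lit 1632, nat_lit 5328, nat_lit 5712, nat_lit 9984, nat_lit 5760, R3_119, R3_208, R5_120⟩, ⟨nat_lit 5, nat_lit 1680, nat_lit 5376, nat_lit 5808, nat_lit 2112, nat_lit 12096, R3_121, R0_44, R0_252⟩, ⟨nat_lit 6, nat_lit 1728, nat_lit 5424, nat_lit 5760, nat_lit 6576, nat_lit 18240, R3_120, R10_137, R11_380⟩]⟩]⟩], [⟨nat_lit 0, [⟨nat_lit 0, [⟨nat_lit 5, nat_lit 2208, nat_lit 3888, nat_lit 7152, nat_lit 16224, nat_lit 8400, R6_149, R9_338, R5_175⟩]⟩, ⟨nat_lit 1, [⟨nat_lit 5, nat_lit 2304, nat_lit 4800, nat_lit 7824, nat_lit 17856, nat_lit 8496, R4_163, R9_372, R0_177⟩]⟩, ⟨nat_lit 2, [⟨nat_lit 5, nat_lit 2400, nat_lit 6192, nat_lit 8928, nat_lit 17088, nat_lit 10848, R8_186, R9_356, R11_226⟩]⟩]⟩,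
 ⟨nat_lit 2, [⟨nat_lit 2, [⟨nat_lit 5, nat_lit 2448, nat_lit 7392, nat_lit 6864, nat_lit 14688, nat_lit 12816, R5_143, R0_306, R11_267⟩]⟩]⟩,
 ⟨nat_lit 3, [⟨nat_lit 0, [⟨nat_lit 5, nat_lit 2256, nat_lit 4320, nat_lit 9264, nat_lit 384, nat_lit 10320, R13_193, R0_8, R5_215⟩]⟩, ⟨nat_lit 1, [⟨nat_lit 5, nat_lit 2352, nat_lit 5184, nat_lit 7344, nat_lit 2064, nat_lit 8592, R3_153, R0_43, R0_179⟩]⟩, ⟨nat_lit 2, [⟨nat_lit 5, nat_lit 2496, nat_lit 6912, nat_lit 7056, nat_lit 1200, nat_lit 13584, R9_147, R0_25, R11_283⟩]⟩]⟩], [⟨nat_lit 0, [⟨nat_lit 0, [⟨nat_lit 4, nat_lit 3264, nat_lit 96, nat_lit 6048, nat_lit 19920, nat_lit 10560, R6_126, R13_415, R13_220⟩, ⟨nat_lit 5, nat_lit 3312, nat_lit 528, nat_lit 6480, nat_lit 16176, nat_lit 8112, R6_135, R9_337, R9_169⟩, ⟨nat_lit 6, nat_lit 3360, nat_lit 672, nat_lit 6240,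 nat_lit 16176, nat_lit 8592, R6_130, R3_337, R3_179⟩, ⟨nat_lit 7, nat_lit 3408, nat_lit 240, nat_lit 6192, nat_lit 2976, nat_lit 11520, R6_129, R3_62, R3_240⟩]⟩, ⟨nat_lit 1, [⟨nat_lit 4, nat_lit 3600, nat_lit 816, nat_lit 6384, nat_lit 21456, nat_lit 4464, R4_133, R13_447, R9_93⟩, ⟨nat_lit 7, nat_lit 3696, nat_lit 960, nat_lit 6528, nat_lit 3600, nat_lit 2448, R4_136, R3_75, R0_51⟩]⟩, ⟨nat_lit 2, [⟨nat_lit 4, nat_lit 3840, nat_lit 2352, nat_lit 8208, nat_lit 20640, nat_lit 3984, R8_171, R13_430, R3_83⟩, ⟨nat_lit 5, nat_lit 3888, nat_lit 2640, nat_lit 8880, nat_lit 17040, nat_lit 7344, R8_185, R9_355, R0_153⟩, ⟨nat_lit 7, nat_lit 3936, nat_lit 2496, nat_lit 8400, nat_lit 3312, nat_lit 9072, R8_175, R3_69, R10_189⟩]⟩]⟩,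
 ⟨nat_lit 2, [⟨nat_lit 2, [⟨nat_lit 4, nat_lit 3984, nat_lit 9984, nat_lit 5760, nat_lit 5328, nat_lit 5712, R5_120, R3_111, R3_119⟩, ⟨nat_lit 5, nat_lit 4032, nat_lit 10176, nat_lit 5856, nat_lit 14640, nat_lit 8064, R5_122, R0_305, R0_168⟩, ⟨nat_lit 7, nat_lit 4080, nat_lit 10128, nat_lit 5808, nat_lit 19728, nat_lit 9984, R5_121, R10_411, R10_208⟩]⟩]⟩,
 ⟨nat_lit 3, [⟨nat_lit 0, [⟨nat_lit 4, nat_lit 3456, nat_lit 3840, nat_lit 7440, nat_lit 3840, nat_lit 11328, R13_155, R3_80, R13_236⟩, ⟨nat_lit 5, nat_lit 3504, nat_lit 4128, nat_lit 7536, nat_lit 288, nat_lit 8928, R13_157, R0_6, R9_186⟩, ⟨nat_lit 6, nat_lit 3552, nat_lit 4272, nat_lit 7488, nat_lit 3792, nat_lit 8928, R13_156, R10_79, R3_186⟩]⟩, ⟨nat_lit 1, [⟨nat_lit 4, nat_lit 3744, nat_lit 6144, nat_lit 6240, nat_lit 7248, nat_lit 5472, R3_130, R3_151,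 R9_114⟩, ⟨nat_lit 6, nat_lit 3792, nat_lit 6336, nat_lit 6288, nat_lit 6336, nat_lit 3312, R3_131, R10_132, R0_69⟩]⟩, ⟨nat_lit 2, [⟨nat_lit 4, nat_lit 4128, nat_lit 7248, nat_lit 5472, nat_lit 6144, nat_lit 6240, R9_114, R3_128, R3_130⟩, ⟨nat_lit 5, nat_lit 4176, nat_lit 7392, nat_lit 5520, nat_lit 1104, nat_lit 8448, R9_115, R0_23, R0_176⟩]⟩, ⟨nat_lit 3, [⟨nat_lit 4, nat_lit 4224, nat_lit 5568, nat_lit 4992, nat_lit 5568, nat_lit 4992, R3_104, R3_116, R3_104⟩, ⟨nat_lit 5, nat_lit 4272, nat_lit 5856, nat_lit 5280, nat_lit 528, nat_lit 12048, R3_110, R0_11, R0_251⟩, ⟨nat_lit 6, nat_lit 4320, nat_lit 6000, nat_lit 5040, nat_lit 4464, nat_lit 4848, R3_105, R10_93, R10_101⟩]⟩]⟩]], [], [], [], [[], [], [], [⟨nat_lit 0, [⟨nat_lit 0, [⟨nat_lit 7, nat_lit 2544, nat_lit 3216, nat_lit 12672, nat_lit 14592, nat_lit 11184,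 R6_264, R2_304, R3_233⟩]⟩, ⟨nat_lit 1, [⟨nat_lit 7, nat_lit 2736, nat_lit 4080, nat_lit 13008, nat_lit 15648, nat_lit 12384, R4_271, R2_326, R0_258⟩]⟩, ⟨nat_lit 2, [⟨nat_lit 7, nat_lit 2928, nat_lit 6432, nat_lit 15024, nat_lit 15168, nat_lit 9120, R8_313, R2_316, R10_190⟩]⟩]⟩,
 ⟨nat_lit 2, [⟨nat_lit 2, [⟨nat_lit 7, nat_lit 2976, nat_lit 7008, nat_lit 5952, nat_lit 16176, nat_lit 10032, R5_124, R1_337, R10_209⟩]⟩]⟩,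
 ⟨nat_lit 3, [⟨nat_lit 0, [⟨nat_lit 4, nat_lit 2592, nat_lit 3792, nat_lit 8064, nat_lit 3792, nat_lit 11376, R13_168, R2_79, R13_237⟩, ⟨nat_lit 6, nat_lit 2640, nat_lit 3888, nat_lit 8160, nat_lit 3264, nat_lit 8976, R13_170, R1_68, R3_187⟩, ⟨nat_lit 7, nat_lit 2688, nat_lit 3840, nat_lit 8112, nat_lit 16848, nat_lit 12096, R13_169, R12_351, R3_252⟩]⟩, ⟨nat_lit 1, [⟨nat_lit 4, nat_lit 2784, nat_lit 4608, nat_lit 6720, nat_lit 6768, nat_lit 5856, R3_140, R2_141, R9_122⟩, ⟨nat_lit 6, nat_lit 2832, nat_lit 4704, nat_lit 6816, nat_lit 5472, nat_lit 3696, R3_142, R1_114, R0_77⟩, ⟨nat_lit 7, nat_lit 2880, nat_lit 4656, nat_lit 6768, nat_lit 17280, nat_lit 13344, R3_141, R12_360, R0_278⟩]⟩, ⟨nat_lit 2, [⟨nat_lit 4, nat_lit 3024, nat_lit 6768, nat_lit 5856, nat_lit 4608, nat_lit 6720, R9_122, R2_96, R3_140⟩, ⟨nat_lit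 7, nat_lit 3072, nat_lit 6816, nat_lit 5904, nat_lit 17040, nat_lit 10608, R9_123, R12_355, R10_221⟩]⟩, ⟨nat_lit 3, [⟨nat_lit 4, nat_lit 3168, nat_lit 5088, nat_lit 13200, nat_lit 5088, nat_lit 13200, R3_275, R2_106, R3_275⟩, ⟨nat_lit 6, nat_lit 3216, nat_lit 5136, nat_lit 13344, nat_lit 3792, nat_lit 5424, R3_278, R1_79, R10_113⟩]⟩]⟩,
 ⟨nat_lit 7, [⟨nat_lit 3, [⟨nat_lit 6, nat_lit 3120, nat_lit 5760, nat_lit 6048, nat_lit 17808, nat_lit 7872, R2_126, R11_371, R10_164⟩]⟩]⟩]]], [[[⟨nat_lit 0, [⟨nat_lit 0, [⟨nat_lit 4, nat_lit 10368, nat_lit 1488, nat_lit 12672, nat_lit 8448, nat_lit 14736, R8_264, R6_176, R6_307⟩, ⟨nat_lit 5, nat_lit 10416, nat_lit 6288, nat_lit 16848, nat_lit 6288, nat_lit 16848, R8_351, R8_131, R8_351⟩, ⟨nat_lit 6, nat_lit 10464, nat_lit 9360, nat_lit 13584, nat_lit 9072, nat_lit 14304, R8_283,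 R4_189, R4_298⟩]⟩, ⟨nat_lit 1, [⟨nat_lit 4, nat_lit 10656, nat_lit 1536, nat_lit 1872, nat_lit 9696, nat_lit 3600, R5_39, R6_202, R8_75⟩, ⟨nat_lit 5, nat_lit 10704, nat_lit 6336, nat_lit 2400, nat_lit 6384, nat_lit 16944, R5_50, R8_133, R9_353⟩, ⟨nat_lit 6, nat_lit 10752, nat_lit 9408, nat_lit 2064, nat_lit 10656, nat_lit 17184, R5_43, R4_222, R5_358⟩]⟩, ⟨nat_lit 2, [⟨nat_lit 4, nat_lit 10944, nat_lit 1584, nat_lit 2208, nat_lit 9456, nat_lit 192, R9_46, R6_197, R4_4⟩, ⟨nat_lit 5, nat_lit 10992, nat_lit 6384, nat_lit 2688, nat_lit 6336, nat_lit 2400, R9_56, R8_132, R5_50⟩]⟩]⟩,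
 ⟨nat_lit 1, [⟨nat_lit 0, [⟨nat_lit 4, nat_lit 10512, nat_lit 2160, nat_lit 8352, nat_lit 2400, nat_lit 16560, R5_174, R8_50, R6_345⟩, ⟨nat_lit 5, nat_lit 10560, nat_lit 6672, nat_lit 9696, nat_lit 6096, nat_lit 16992, R5_202, R9_127, R8_354⟩, ⟨nat_lit 6, nat_lit 10608, nat_lit 9840, nat_lit 8928, nat_lit 6288, nat_lit 15216, R5_186, R5_131, R4_317⟩]⟩, ⟨nat_lit 1, [⟨nat_lit 4, nat_lit 10800, nat_lit 2208, nat_lit 10800, nat_lit 2544, nat_lit 3648, R11_225, R8_53, R8_76⟩, ⟨nat_lit 5, nat_lit 10848, nat_lit 6720, nat_lit 12144, nat_lit 6192, nat_lit 17088, R11_253, R9_129, R9_356⟩, ⟨nat_lit 6, nat_lit 10896, nat_lit 9888, nat_lit 11376, nat_lit 6432, nat_lit 17232, R11_237, R5_134, R5_359⟩]⟩, ⟨nat_lit 2, [⟨nat_lit 4, nat_lit 11040, nat_lit 2304, nat_lit 672, nat_lit 2448, nat_lit 2496, R0_14, R8_51, R4_52⟩, ⟨nat_lit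 5, nat_lit 11088, nat_lit 6816, nat_lit 1152, nat_lit 6144, nat_lit 2496, R0_24, R9_128, R5_52⟩]⟩]⟩], [⟨nat_lit 0, [⟨nat_lit 1, [⟨nat_lit 4, nat_lit 12624, nat_lit 288, nat_lit 1920, nat_lit 9744, nat_lit 4800, R5_40, R6_203, R5_100⟩, ⟨nat_lit 5, nat_lit 12672, nat_lit 384, nat_lit 2448, nat_lit 6864, nat_lit 14544, R5_51, R8_143, R0_303⟩, ⟨nat_lit 6, nat_lit 12720, nat_lit 624, nat_lit 2112, nat_lit 10704, nat_lit 21888, R5_44, R4_223, R11_456⟩]⟩]⟩,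
 ⟨nat_lit 1, [⟨nat_lit 1, [⟨nat_lit 4, nat_lit 12768, nat_lit 6480, nat_lit 12768, nat_lit 10128, nat_lit 6480, R11_266, R8_211, R5_135⟩, ⟨nat_lit 5, nat_lit 12816, nat_lit 6864, nat_lit 13200, nat_lit 7392, nat_lit 14688, R11_275, R9_154, R0_306⟩, ⟨nat_lit 6, nat_lit 12864, nat_lit 7584, nat_lit 12912, nat_lit 7296, nat_lit 21936, R11_269, R5_152, R11_457⟩]⟩]⟩], [⟨nat_lit 0, [⟨nat_lit 0, [⟨nat_lit 5, nat_lit 13440, nat_lit 1152, nat_lit 16992, nat_lit 6672, nat_lit 9696, R8_354, R8_139, R5_202⟩]⟩, ⟨nat_lit 1, [⟨nat_lit 5, nat_lit 13536, nat_lit 1200, nat_lit 2496, nat_lit 6816, nat_lit 1152, R5_52, R8_142, R0_24⟩]⟩, ⟨nat_lit 2, [⟨nat_lit 5, nat_lit 13632, nat_lit 1296, nat_lit 2736, nat_lit 6720, nat_lit 12144, R9_57, R8_140, R11_253⟩]⟩]⟩,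
 ⟨nat_lit 1, [⟨nat_lit 0, [⟨nat_lit 5, nat_lit 13488, nat_lit 7008, nat_lit 11952, nat_lit 6768, nat_lit 11952, R5_249, R9_141, R5_249⟩]⟩, ⟨nat_lit 1, [⟨nat_lit 5, nat_lit 13584, nat_lit 7056, nat_lit 14928, nat_lit 6912, nat_lit 1200, R11_311, R9_144, R0_25⟩]⟩, ⟨nat_lit 2, [⟨nat_lit 5, nat_lit 13680, nat_lit 7152, nat_lit 1200, nat_lit 6816, nat_lit 14928, R0_25, R9_142, R11_311⟩]⟩]⟩,
 ⟨nat_lit 2, [⟨nat_lit 2, [⟨nat_lit 5, nat_lit 13728, nat_lit 10608, nat_lit 14688, nat_lit 6864, nat_lit 13200, R0_306, R5_143, R11_275⟩]⟩]⟩]], [[⟨nat_lit 1, [⟨nat_lit 0, [⟨nat_lit 4, nat_lit 11232, nat_lit 16896, nat_lit 8448, nat_lit 4704, nat_lit 17232, R5_176, R5_98, R6_359⟩, ⟨nat_lit 5, nat_lit 11280, nat_lit 17040, nat_lit 9744, nat_lit 3936, nat_lit 17520, R5_203, R0_82, R8_365⟩, ⟨nat_lit 6, nat_lit 11328, nat_lit 17088,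 nat_lit 9024, nat_lit 5904, nat_lit 15504, R5_188, R11_123, R4_323⟩]⟩, ⟨nat_lit 1, [⟨nat_lit 4, nat_lit 11376, nat_lit 17232, nat_lit 10896, nat_lit 6432, nat_lit 10896, R11_227, R5_134, R8_227⟩, ⟨nat_lit 5, nat_lit 11424, nat_lit 17424, nat_lit 12192, nat_lit 4032, nat_lit 17664, R11_254, R0_84, R9_368⟩, ⟨nat_lit 6, nat_lit 11472, nat_lit 17520, nat_lit 11472, nat_lit 6048, nat_lit 17520, R11_239, R11_126, R5_365⟩]⟩, ⟨nat_lit 2, [⟨nat_lit 4, nat_lit 11520, nat_lit 17616, nat_lit 5904, nat_lit 5376, nat_lit 11328, R0_123, R5_112, R4_236⟩, ⟨nat_lit 5, nat_lit 11568, nat_lit 17760, nat_lit 6288, nat_lit 3984, nat_lit 13584, R0_131, R0_83, R5_283⟩]⟩]⟩], [⟨nat_lit 1, [⟨nat_lit 1, [⟨nat_lit 4, nat_lit 12912, nat_lit 21936, nat_lit 12864, nat_lit 7296, nat_lit 7584, R11_268, R5_152, R5_158⟩, ⟨nat_lit 5, nat_lit 12960,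 nat_lit 22128, nat_lit 13248, nat_lit 5232, nat_lit 15264, R11_276, R0_109, R0_318⟩, ⟨nat_lit 6, nat_lit 13008, nat_lit 22224, nat_lit 13008, nat_lit 6912, nat_lit 22224, R11_271, R11_144, R11_463⟩]⟩]⟩], [⟨nat_lit 1, [⟨nat_lit 0, [⟨nat_lit 5, nat_lit 13776, nat_lit 4848, nat_lit 12000, nat_lit 4608, nat_lit 12048, R5_250, R0_96, R5_251⟩]⟩, ⟨nat_lit 1, [⟨nat_lit 5, nat_lit 13824, nat_lit 4896, nat_lit 14976, nat_lit 4752, nat_lit 10416, R11_312, R0_99, R0_217⟩]⟩, ⟨nat_lit 2, [⟨nat_lit 5, nat_lit 13872, nat_lit 4992, nat_lit 6336, nat_lit 4656, nat_lit 15024, R0_132, R0_97, R11_313⟩]⟩]⟩]], [[], [], [⟨nat_lit 0, [⟨nat_lit 0, [⟨nat_lit 5, nat_lit 13920, nat_lit 3936, nat_lit 17520, nat_lit 17040, nat_lit 9744, R8_365, R5_355, R5_203⟩]⟩, ⟨nat_lit 1, [⟨nat_lit 5, nat_lit 14016, nat_lit 3984, nat_lit 13584, nat_lit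 17760, nat_lit 6288, R5_283, R5_370, R0_131⟩]⟩, ⟨nat_lit 2, [⟨nat_lit 5, nat_lit 14112, nat_lit 4032, nat_lit 11616, nat_lit 17424, nat_lit 12192, R9_242, R5_363, R11_254⟩]⟩]⟩,
 ⟨nat_lit 1, [⟨nat_lit 0, [⟨nat_lit 5, nat_lit 13968, nat_lit 4608, nat_lit 12048, nat_lit 4848, nat_lit 12000, R5_251, R0_101, R5_250⟩]⟩, ⟨nat_lit 1, [⟨nat_lit 5, nat_lit 14064, nat_lit 4656, nat_lit 15024, nat_lit 4992, nat_lit 6336, R11_313, R0_104, R0_132⟩]⟩, ⟨nat_lit 2, [⟨nat_lit 5, nat_lit 14160, nat_lit 4752, nat_lit 10416, nat_lit 4896, nat_lit 14976, R0_217, R0_102, R11_312⟩]⟩]⟩,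
 ⟨nat_lit 2, [⟨nat_lit 2, [⟨nat_lit 1, nat_lit 14256, nat_lit 13968, nat_lit 10128, nat_lit 16416, nat_lit 8880, R0_211, R1_342, R1_185⟩, ⟨nat_lit 5, nat_lit 14208, nat_lit 5232, nat_lit 15264, nat_lit 22128, nat_lit 13248, R0_318, R11_461, R11_276⟩]⟩]⟩]], [[⟨nat_lit 0, [⟨nat_lit 0, [⟨nat_lit 4, nat_lit 11616, nat_lit 16128, nat_lit 12816, nat_lit 20160, nat_lit 14976, R8_267, R13_420, R6_312⟩, ⟨nat_lit 5, nat_lit 11664, nat_lit 16560, nat_lit 17136, nat_lit 16560, nat_lit 17136, R8_357, R9_345, R8_357⟩, ⟨nat_lit 6, nat_lit 11712, nat_lit 16656, nat_lit 13872, nat_lit 16560, nat_lit 14448, R8_289, R3_345, R4_301⟩]⟩, ⟨nat_lit 1, [⟨nat_lit 4, nat_lit 12000, nat_lit 16992, nat_lit 10368, nat_lit 21744, nat_lit 8832, R5_216, R13_453, R8_184⟩, ⟨nat_lit 5, nat_lit 12048, nat_lit 17424, nat_lit 11232, nat_lit 18144,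 nat_lit 17232, R5_234, R9_378, R9_359⟩, ⟨nat_lit 6, nat_lit 12096, nat_lit 17568, nat_lit 10848, nat_lit 17856, nat_lit 17328, R5_226, R3_372, R5_361⟩]⟩, ⟨nat_lit 2, [⟨nat_lit 4, nat_lit 12384, nat_lit 17808, nat_lit 8976, nat_lit 20976, nat_lit 5424, R9_187, R13_437, R4_113⟩, ⟨nat_lit 5, nat_lit 12432, nat_lit 18144, nat_lit 9792, nat_lit 17424, nat_lit 11232, R9_204, R9_363, R5_234⟩]⟩]⟩,
 ⟨nat_lit 1, [⟨nat_lit 0, [⟨nat_lit 4, nat_lit 11760, nat_lit 16224, nat_lit 8400, nat_lit 3888, nat_lit 16896, R5_175, R9_81, R6_352⟩, ⟨nat_lit 6, nat_lit 11808, nat_lit 16752, nat_lit 8976, nat_lit 2352, nat_lit 15360, R5_187, R0_49, R4_320⟩]⟩, ⟨nat_lit 1, [⟨nat_lit 4, nat_lit 12144, nat_lit 17088, nat_lit 10848, nat_lit 6192, nat_lit 8928, R11_226, R9_129, R8_186⟩, ⟨nat_lit 6, nat_lit 12192, nat_lit 17664, nat_lit 11424,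 nat_lit 4032, nat_lit 17424, R11_238, R0_84, R5_363⟩]⟩, ⟨nat_lit 2, [⟨nat_lit 4, nat_lit 12480, nat_lit 17856, nat_lit 8496, nat_lit 4800, nat_lit 7824, R0_177, R9_100, R4_163⟩]⟩]⟩,
 ⟨nat_lit 3, [⟨nat_lit 0, [⟨nat_lit 4, nat_lit 11856, nat_lit 16176, nat_lit 8112, nat_lit 528, nat_lit 15600, R9_169, R3_11, R6_325⟩, ⟨nat_lit 5, nat_lit 11904, nat_lit 16608, nat_lit 8592, nat_lit 7728, nat_lit 17280, R9_179, R0_161, R8_360⟩, ⟨nat_lit 6, nat_lit 11952, nat_lit 16704, nat_lit 8304, nat_lit 3264, nat_lit 14784, R9_173, R10_68, R4_308⟩]⟩, ⟨nat_lit 1, [⟨nat_lit 4, nat_lit 12240, nat_lit 17040, nat_lit 7344, nat_lit 2640, nat_lit 8880, R0_153, R3_55, R8_185⟩, ⟨nat_lit 5, nat_lit 12288, nat_lit 17472, nat_lit 7824, nat_lit 9120, nat_lit 17376, R0_163, R0_190, R9_362⟩, ⟨nat_lit 6, nat_lit 12336, nat_lit 17616, nat_lit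 7536, nat_lit 5952, nat_lit 17376, R0_157, R10_124, R5_362⟩]⟩]⟩], [⟨nat_lit 0, [⟨nat_lit 1, [⟨nat_lit 4, nat_lit 13056, nat_lit 14592, nat_lit 10464, nat_lit 21840, nat_lit 5088, R5_218, R13_455, R5_106⟩, ⟨nat_lit 5, nat_lit 13104, nat_lit 15024, nat_lit 11280, nat_lit 18192, nat_lit 14832, R5_235, R9_379, R0_309⟩, ⟨nat_lit 6, nat_lit 13152, nat_lit 15168, nat_lit 10944, nat_lit 17952, nat_lit 22032, R5_228, R3_374, R11_459⟩]⟩]⟩,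
 ⟨nat_lit 1, [⟨nat_lit 1, [⟨nat_lit 4, nat_lit 13200, nat_lit 14688, nat_lit 12816, nat_lit 7392, nat_lit 6864, R11_267, R9_154, R5_143⟩, ⟨nat_lit 6, nat_lit 13248, nat_lit 15264, nat_lit 12960, nat_lit 5232, nat_lit 22128, R11_270, R0_109, R11_461⟩]⟩]⟩,
 ⟨nat_lit 3, [⟨nat_lit 1, [⟨nat_lit 4, nat_lit 13296, nat_lit 14640, nat_lit 8064, nat_lit 10176, nat_lit 5856, R0_168, R3_212, R5_122⟩, ⟨nat_lit 5, nat_lit 13344, nat_lit 15072, nat_lit 8208, nat_lit 9264, nat_lit 14976, R0_171, R0_193, R0_312⟩, ⟨nat_lit 6, nat_lit 13392, nat_lit 15216, nat_lit 8112, nat_lit 6672, nat_lit 22080, R0_169, R10_139, R11_460⟩]⟩]⟩]]], [[[⟨nat_lit 0, [⟨nat_lit 0, [⟨nat_lit 4, nat_lit 7488, nat_lit 3168, nat_lit 12096, nat_lit 10752, nat_lit 13536, R4_252, R6_224, R6_282⟩, ⟨nat_lit 5, nat_lit 7536, nat_lit 9072, nat_lit 14304, nat_lit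 9360, nat_lit 13584, R4_298, R8_195, R8_283⟩, ⟨nat_lit 6, nat_lit 7584, nat_lit 11616, nat_lit 13344, nat_lit 11616, nat_lit 13344, R4_278, R4_242, R4_278⟩]⟩, ⟨nat_lit 2, [⟨nat_lit 4, nat_lit 7632, nat_lit 4368, nat_lit 14496, nat_lit 10800, nat_lit 48, R5_302, R6_225, R4_1⟩, ⟨nat_lit 5, nat_lit 7680, nat_lit 10656, nat_lit 17184, nat_lit 9408, nat_lit 2064, R5_358, R8_196, R5_43⟩]⟩]⟩,
 ⟨nat_lit 2, [⟨nat_lit 2, [⟨nat_lit 4, nat_lit 7728, nat_lit 4416, nat_lit 4752, nat_lit 1392, nat_lit 528, R11_99, R4_29, R4_11⟩, ⟨nat_lit 5, nat_lit 7776, nat_lit 10704, nat_lit 4800, nat_lit 624, nat_lit 2112, R11_100, R5_13, R5_44⟩]⟩]⟩], [], [⟨nat_lit 0, [⟨nat_lit 0, [⟨nat_lit 5, nat_lit 8400, nat_lit 6288, nat_lit 15216, nat_lit 9840, nat_lit 8928, R4_317, R8_205, R5_186⟩]⟩, ⟨nat_lit 2, [⟨nat_lit 5, nat_lit 8448, nat_lit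 6432, nat_lit 17232, nat_lit 9888, nat_lit 11376, R5_359, R8_206, R11_237⟩]⟩]⟩,
 ⟨nat_lit 2, [⟨nat_lit 2, [⟨nat_lit 5, nat_lit 8496, nat_lit 7296, nat_lit 6096, nat_lit 7584, nat_lit 12912, R11_127, R5_158, R11_269⟩]⟩]⟩]], [], [[], [], [⟨nat_lit 0, [⟨nat_lit 0, [⟨nat_lit 5, nat_lit 8544, nat_lit 4704, nat_lit 15504, nat_lit 17088, nat_lit 9024, R4_323, R5_356, R5_188⟩]⟩, ⟨nat_lit 2, [⟨nat_lit 5, nat_lit 8592, nat_lit 6048, nat_lit 17520, nat_lit 17520, nat_lit 11472, R5_365, R5_365, R11_239⟩]⟩]⟩,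
 ⟨nat_lit 2, [⟨nat_lit 2, [⟨nat_lit 1, nat_lit 8688, nat_lit 6960, nat_lit 7152, nat_lit 16512, nat_lit 8832, R11_149, R1_344, R1_184⟩, ⟨nat_lit 5, nat_lit 8640, nat_lit 6912, nat_lit 7200, nat_lit 22224, nat_lit 13008, R11_150, R11_463, R11_271⟩]⟩]⟩], [], [], [], [⟨nat_lit 2, [⟨nat_lit 2, [⟨nat_lit 1, nat_lit 5568, nat_lit 5712, nat_lit 9216, nat_lit 16464, nat_lit 10176, R11_192, R1_343, R10_212⟩]⟩, ⟨nat_lit 6, [⟨nat_lit 1, nat_lit 5520, nat_lit 5760, nat_lit 7152, nat_lit 16320, nat_lit 15408, R1_149, R1_340, R1_321⟩]⟩]⟩]], [[⟨nat_lit 0, [⟨nat_lit 0, [⟨nat_lit 4, nat_lit 7824, nat_lit 16128, nat_lit 12192, nat_lit 20256, nat_lit 13632, R4_254, R13_422, R6_284⟩, ⟨nat_lit 5, nat_lit 7872, nat_lit 16560, nat_lit 14448, nat_lit 16656, nat_lit 13872, R4_301, R9_347, R8_289⟩, ⟨nat_lit 6, nat_lit 7920, nat_lit 16752,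 nat_lit 13392, nat_lit 16752, nat_lit 13392, R4_279, R3_349, R4_279⟩]⟩, ⟨nat_lit 2, [⟨nat_lit 4, nat_lit 8112, nat_lit 17472, nat_lit 14688, nat_lit 21216, nat_lit 5280, R5_306, R13_442, R4_110⟩, ⟨nat_lit 5, nat_lit 8160, nat_lit 17856, nat_lit 17328, nat_lit 17568, nat_lit 10848, R5_361, R9_366, R5_226⟩]⟩]⟩,
 ⟨nat_lit 2, [⟨nat_lit 2, [⟨nat_lit 4, nat_lit 8208, nat_lit 17568, nat_lit 5040, nat_lit 4752, nat_lit 6912, R11_105, R3_99, R4_144⟩, ⟨nat_lit 5, nat_lit 8256, nat_lit 17952, nat_lit 5088, nat_lit 15168, nat_lit 10944, R11_106, R0_316, R5_228⟩]⟩]⟩,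
 ⟨nat_lit 3, [⟨nat_lit 0, [⟨nat_lit 4, nat_lit 7968, nat_lit 16176, nat_lit 8592, nat_lit 672, nat_lit 13920, R3_179, R3_14, R6_290⟩, ⟨nat_lit 5, nat_lit 8016, nat_lit 16608, nat_lit 8736, nat_lit 9888, nat_lit 14016, R3_182, R0_206, R8_292⟩, ⟨nat_lit 6, nat_lit 8064, nat_lit 16800, nat_lit 8640, nat_lit 3312, nat_lit 13728, R3_180, R10_69, R4_286⟩]⟩, ⟨nat_lit 2, [⟨nat_lit 4, nat_lit 8304, nat_lit 17520, nat_lit 2928, nat_lit 1152, nat_lit 6576, R0_61, R3_24, R4_137⟩, ⟨nat_lit 5, nat_lit 8352, nat_lit 17904, nat_lit 2976, nat_lit 10320, nat_lit 10896, R0_62, R0_215, R5_227⟩]⟩]⟩], [], [⟨nat_lit 0, [⟨nat_lit 0, [⟨nat_lit 5, nat_lit 8736, nat_lit 2352, nat_lit 15360, nat_lit 16752, nat_lit 8976, R4_320, R9_349, R5_187⟩]⟩, ⟨nat_lit 2, [⟨nat_lit 5, nat_lit 8832, nat_lit 4032, nat_lit 17424, nat_lit 17664, nat_lit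 11424, R5_363, R9_368, R11_238⟩]⟩]⟩,
 ⟨nat_lit 2, [⟨nat_lit 2, [⟨nat_lit 5, nat_lit 8880, nat_lit 5232, nat_lit 6480, nat_lit 15264, nat_lit 12960, R11_135, R0_318, R11_270⟩]⟩]⟩,
 ⟨nat_lit 3, [⟨nat_lit 0, [⟨nat_lit 5, nat_lit 8784, nat_lit 2784, nat_lit 9552, nat_lit 9984, nat_lit 10560, R3_199, R0_208, R5_220⟩]⟩, ⟨nat_lit 2, [⟨nat_lit 5, nat_lit 8928, nat_lit 4752, nat_lit 4896, nat_lit 10416, nat_lit 13824, R0_102, R0_217, R11_288⟩]⟩]⟩], [⟨nat_lit 0, [⟨nat_lit 0, [⟨nat_lit 4, nat_lit 9504, nat_lit 3168, nat_lit 12336, nat_lit 20304, nat_lit 10656, R4_257, R13_423, R13_222⟩, ⟨nat_lit 5, nat_lit 9552, nat_lit 3264, nat_lit 14784, nat_lit 16704, nat_lit 8304, R4_308, R9_348, R9_173⟩, ⟨nat_lit 6, nat_lit 9600, nat_lit 3312, nat_lit 13728, nat_lit 16800, nat_lit 8640, R4_286, R3_350, R3_180⟩, ⟨nat_lit 7, nat_lit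 9648, nat_lit 3216, nat_lit 13296, nat_lit 10464, nat_lit 15312, R4_277, R3_218, R3_319⟩]⟩, ⟨nat_lit 2, [⟨nat_lit 4, nat_lit 9840, nat_lit 5856, nat_lit 14736, nat_lit 21264, nat_lit 4032, R5_307, R13_443, R3_84⟩, ⟨nat_lit 5, nat_lit 9888, nat_lit 5952, nat_lit 17376, nat_lit 17616, nat_lit 7536, R5_362, R9_367, R0_157⟩, ⟨nat_lit 7, nat_lit 9936, nat_lit 5904, nat_lit 16512, nat_lit 10512, nat_lit 9360, R5_344, R3_219, R10_195⟩]⟩]⟩,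
 ⟨nat_lit 2, [⟨nat_lit 2, [⟨nat_lit 4, nat_lit 9984, nat_lit 6576, nat_lit 5376, nat_lit 5424, nat_lit 5760, R11_112, R3_113, R3_120⟩, ⟨nat_lit 5, nat_lit 10032, nat_lit 6672, nat_lit 5472, nat_lit 15216, nat_lit 8112, R11_114, R0_317, R0_169⟩, ⟨nat_lit 7, nat_lit 10080, nat_lit 6624, nat_lit 5424, nat_lit 20016, nat_lit 10128, R11_113, R10_417, R10_211⟩]⟩]⟩,
 ⟨nat_lit 3, [⟨nat_lit 0, [⟨nat_lit 4, nat_lit 9696, nat_lit 3792, nat_lit 8928, nat_lit 4272, nat_lit 11664, R3_186, R3_89, R13_243⟩, ⟨nat_lit 5, nat_lit 9744, nat_lit 3840, nat_lit 9360, nat_lit 9936, nat_lit 9216, R3_195, R0_207, R9_192⟩, ⟨nat_lit 6, nat_lit 9792, nat_lit 3888, nat_lit 9072, nat_lit 3888, nat_lit 9072, R3_189, R10_81, R3_189⟩]⟩, ⟨nat_lit 2, [⟨nat_lit 4, nat_lit 10128, nat_lit 6336, nat_lit 3312, nat_lit 6336, nat_lit 6288, R0_69, R3_132,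 R3_131⟩, ⟨nat_lit 5, nat_lit 10176, nat_lit 6384, nat_lit 3360, nat_lit 10368, nat_lit 8736, R0_70, R0_216, R0_182⟩]⟩, ⟨nat_lit 3, [⟨nat_lit 4, nat_lit 10224, nat_lit 4464, nat_lit 4848, nat_lit 6000, nat_lit 5040, R10_101, R3_125, R3_105⟩, ⟨nat_lit 5, nat_lit 10272, nat_lit 4512, nat_lit 4944, nat_lit 10272, nat_lit 14160, R10_103, R0_214, R0_295⟩, ⟨nat_lit 6, nat_lit 10320, nat_lit 4560, nat_lit 4896, nat_lit 4560, nat_lit 4896, R10_102, R10_95, R10_102⟩]⟩]⟩]], [[], [], [], [], [⟨nat_lit 2, [⟨nat_lit 2, [⟨nat_lit 0, nat_lit 4752, nat_lit 4416, nat_lit 7728, nat_lit 1392, nat_lit 528, R11_161, R4_29, R4_11⟩, ⟨nat_lit 3, nat_lit 4800, nat_lit 10704, nat_lit 7776, nat_lit 624, nat_lit 2112, R11_162, R5_13, R5_44⟩]⟩, ⟨nat_lit 6, [⟨nat_lit 0, nat_lit 4608, nat_lit 4320, nat_lit 6816, nat_lit 1824, nat_lit 720,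 R1_142, R4_38, R7_15⟩]⟩]⟩,
 ⟨nat_lit 4, [⟨nat_lit 4, [⟨nat_lit 2, nat_lit 4416, nat_lit 11856, nat_lit 12432, nat_lit 17568, nat_lit 5568, R4_259, R7_366, R7_116⟩, ⟨nat_lit 6, nat_lit 4368, nat_lit 15120, nat_lit 5856, nat_lit 15120, nat_lit 5856, R4_122, R4_315, R4_122⟩]⟩, ⟨nat_lit 7, [⟨nat_lit 6, nat_lit 4656, nat_lit 15456, nat_lit 8880, nat_lit 15456, nat_lit 8880, R5_185, R4_322, R5_185⟩]⟩]⟩,
 ⟨nat_lit 6, [⟨nat_lit 4, [⟨nat_lit 2, nat_lit 4464, nat_lit 11904, nat_lit 1488, nat_lit 11712, nat_lit 6000, R3_31, R14_244, R7_125⟩]⟩, ⟨nat_lit 6, [⟨nat_lit 0, nat_lit 4512, nat_lit 4272, nat_lit 7584, nat_lit 2064, nat_lit 1152, R10_158, R7_43, R7_24⟩, ⟨nat_lit 2, nat_lit 4560, nat_lit 12048, nat_lit 7632, nat_lit 11760, nat_lit 17184, R10_159, R14_245, R14_358⟩]⟩]⟩,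
 ⟨nat_lit 7, [⟨nat_lit 7, [⟨nat_lit 6, nat_lit 4704, nat_lit 15504, nat_lit 8544, nat_lit 17088, nat_lit 9024, R11_178, R5_356, R5_188⟩]⟩]⟩], [], [], [⟨nat_lit 2, [⟨nat_lit 2, [⟨nat_lit 3, nat_lit 6096, nat_lit 7296, nat_lit 8496, nat_lit 7584, nat_lit 12912, R11_177, R5_158, R11_269⟩]⟩, ⟨nat_lit 6, [⟨nat_lit 0, nat_lit 5808, nat_lit 720, nat_lit 6912, nat_lit 8544, nat_lit 2112, R1_144, R4_178, R2_44⟩, ⟨nat_lit 3, nat_lit 5856, nat_lit 7680, nat_lit 6960, nat_lit 7152, nat_lit 1584, R1_145, R5_149, R1_33⟩]⟩]⟩,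
 ⟨nat_lit 4, [⟨nat_lit 4, [⟨nat_lit 2, nat_lit 5616, nat_lit 12768, nat_lit 12624, nat_lit 17664, nat_lit 7728, R4_263, R7_368, R2_161⟩]⟩, ⟨nat_lit 7, [⟨nat_lit 2, nat_lit 5952, nat_lit 12912, nat_lit 16416, nat_lit 17856, nat_lit 8256, R5_342, R7_372, R1_172⟩, ⟨nat_lit 6, nat_lit 5904, nat_lit 17088, nat_lit 9024, nat_lit 15504, nat_lit 11328, R5_188, R4_323, R11_236⟩]⟩]⟩,
 ⟨nat_lit 6, [⟨nat_lit 4, [⟨nat_lit 2, nat_lit 5664, nat_lit 13776, nat_lit 7968, nat_lit 12144, nat_lit 8928, R3_166, R14_253, R2_186⟩]⟩, ⟨nat_lit 6, [⟨nat_lit 0, nat_lit 5712, nat_lit 3120, nat_lit 7776, nat_lit 8592, nat_lit 336, R10_162, R7_179, R2_7⟩, ⟨nat_lit 2, nat_lit 5760, nat_lit 14256, nat_lit 7824, nat_lit 12240, nat_lit 7152, R10_163, R14_255, R12_149⟩]⟩, ⟨nat_lit 7, [⟨nat_lit 2, nat_lit 6000, nat_lit 13968, nat_lit 6048, nat_lit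 12192, nat_lit 9744, R0_126, R14_254, R1_203⟩]⟩]⟩,
 ⟨nat_lit 7, [⟨nat_lit 3, [⟨nat_lit 6, nat_lit 6144, nat_lit 17472, nat_lit 6432, nat_lit 17472, nat_lit 6432, R1_134, R5_364, R1_134⟩]⟩, ⟨nat_lit 7, [⟨nat_lit 6, nat_lit 6048, nat_lit 17520, nat_lit 8592, nat_lit 17520, nat_lit 11472, R11_179, R5_365, R11_239⟩]⟩]⟩]], [], [[], [], [], [], [⟨nat_lit 2, [⟨nat_lit 2, [⟨nat_lit 0, nat_lit 5040, nat_lit 17568, nat_lit 8208, nat_lit 4752, nat_lit 6912, R11_171, R3_99, R4_144⟩, ⟨nat_lit 3, nat_lit 5088, nat_lit 17952, nat_lit 8256, nat_lit 15168, nat_lit 10944, R11_172, R0_316, R5_228⟩]⟩, ⟨nat_lit 6, [⟨nat_lit 0, nat_lit 4992, nat_lit 10704, nat_lit 6864, nat_lit 12720, nat_lit 6720, R1_143, R3_265, R7_140⟩]⟩]⟩,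
 ⟨nat_lit 6, [⟨nat_lit 4, [⟨nat_lit 2, nat_lit 4848, nat_lit 3504, nat_lit 1584, nat_lit 10464, nat_lit 6096, R3_33, R12_218, R7_127⟩]⟩, ⟨nat_lit 6, [⟨nat_lit 0, nat_lit 4896, nat_lit 10752, nat_lit 7680, nat_lit 624, nat_lit 7152, R10_160, R2_13, R7_149⟩, ⟨nat_lit 2, nat_lit 4944, nat_lit 10992, nat_lit 7728, nat_lit 10512, nat_lit 17424, R10_161, R12_219, R14_363⟩]⟩]⟩], [], [⟨nat_lit 2, [⟨nat_lit 2, [⟨nat_lit 0, nat_lit 5376, nat_lit 6576, nat_lit 9984, nat_lit 5424, nat_lit 5760, R11_208, R3_113, R3_120⟩, ⟨nat_lit 1, nat_lit 5424, nat_lit 6624, nat_lit 10080, nat_lit 20016, nat_lit 10128, R11_210, R10_417, R10_211⟩, ⟨nat_lit 3, nat_lit 5472, nat_lit 6672, nat_lit 10032, nat_lit 15216, nat_lit 8112, R11_209, R0_317, R0_169⟩]⟩, ⟨nat_lit 6, [⟨nat_lit 0, nat_lit 5280, nat_lit 6720, nat_lit 7200, nat_lit 13536,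 nat_lit 4896, R1_150, R3_282, R2_102⟩, ⟨nat_lit 1, nat_lit 5328, nat_lit 6768, nat_lit 7248, nat_lit 19968, nat_lit 3600, R1_151, R10_416, R1_75⟩]⟩]⟩,
 ⟨nat_lit 6, [⟨nat_lit 6, [⟨nat_lit 0, nat_lit 5136, nat_lit 6816, nat_lit 8112, nat_lit 6336, nat_lit 5376, R10_169, R2_132, R2_112⟩, ⟨nat_lit 1, nat_lit 5184, nat_lit 6864, nat_lit 8208, nat_lit 5040, nat_lit 4080, R10_171, R1_105, R1_85⟩, ⟨nat_lit 2, nat_lit 5232, nat_lit 6912, nat_lit 8160, nat_lit 10896, nat_lit 15120, R10_170, R12_227, R12_315⟩]⟩]⟩], [⟨nat_lit 2, [⟨nat_lit 2, [⟨nat_lit 3, nat_lit 6480, nat_lit 5232, nat_lit 8880, nat_lit 15264, nat_lit 12960, R11_185, R0_318, R11_270⟩]⟩, ⟨nat_lit 6, [⟨nat_lit 0, nat_lit 6336, nat_lit 5376, nat_lit 7056, nat_lit 13056, nat_lit 9888, R1_147, R3_272, R2_206⟩, ⟨nat_lit 3, nat_lit 6384, nat_lit 5424, nat_lit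 7104, nat_lit 15120, nat_lit 10704, R1_148, R0_315, R1_223⟩]⟩]⟩,
 ⟨nat_lit 6, [⟨nat_lit 4, [⟨nat_lit 2, nat_lit 6192, nat_lit 5280, nat_lit 8112, nat_lit 11328, nat_lit 9408, R3_169, R12_236, R2_196⟩]⟩, ⟨nat_lit 6, [⟨nat_lit 0, nat_lit 6240, nat_lit 5472, nat_lit 8016, nat_lit 7392, nat_lit 7344, R10_167, R2_154, R2_153⟩, ⟨nat_lit 2, nat_lit 6288, nat_lit 5520, nat_lit 8064, nat_lit 11424, nat_lit 8832, R10_168, R12_238, R12_184⟩]⟩, ⟨nat_lit 7, [⟨nat_lit 2, nat_lit 6432, nat_lit 5328, nat_lit 6144, nat_lit 11376, nat_lit 10224, R0_128, R12_237, R1_213⟩]⟩]⟩]], [[], [], [], [⟨nat_lit 0, [⟨nat_lit 0, [⟨nat_lit 7, nat_lit 8976, nat_lit 2688, nat_lit 13200, nat_lit 14832, nat_lit 15216, R4_275, R2_309, R3_317⟩]⟩, ⟨nat_lit 2, [⟨nat_lit 7, nat_lit 9168, nat_lit 5136, nat_lit 16608, nat_lit 15456, nat_lit 9408, R5_346,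 R2_322, R10_196⟩]⟩]⟩,
 ⟨nat_lit 2, [⟨nat_lit 2, [⟨nat_lit 7, nat_lit 9216, nat_lit 5712, nat_lit 5568, nat_lit 16464, nat_lit 10176, R11_116, R1_343, R10_212⟩]⟩]⟩,
 ⟨nat_lit 3, [⟨nat_lit 0, [⟨nat_lit 4, nat_lit 9024, nat_lit 3264, nat_lit 8976, nat_lit 3888, nat_lit 11712, R3_187, R2_81, R13_244⟩, ⟨nat_lit 6, nat_lit 9072, nat_lit 3360, nat_lit 9120, nat_lit 3360, nat_lit 9120, R3_190, R1_70, R3_190⟩, ⟨nat_lit 7, nat_lit 9120, nat_lit 3312, nat_lit 9216, nat_lit 16992, nat_lit 15552, R3_192, R12_354, R3_324⟩]⟩, ⟨nat_lit 2, [⟨nat_lit 4, nat_lit 9264, nat_lit 5472, nat_lit 3696, nat_lit 4704, nat_lit 6816, R0_77, R2_98, R3_142⟩, ⟨nat_lit 7, nat_lit 9312, nat_lit 5520, nat_lit 3744, nat_lit 17184, nat_lit 10896, R0_78, R12_358, R10_227⟩]⟩, ⟨nat_lit 3, [⟨nat_lit 4, nat_lit 9408, nat_lit 3792, nat_lit 5424, nat_lit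 5136, nat_lit 13344, R10_113, R2_107, R3_278⟩, ⟨nat_lit 6, nat_lit 9456, nat_lit 3840, nat_lit 5472, nat_lit 3840, nat_lit 5472, R10_114, R1_80, R10_114⟩]⟩]⟩,
 ⟨nat_lit 7, [⟨nat_lit 3, [⟨nat_lit 6, nat_lit 9360, nat_lit 4464, nat_lit 4752, nat_lit 21744, nat_lit 7968, R1_99, R11_453, R10_166⟩]⟩]⟩], [], [], [], [⟨nat_lit 0, [⟨nat_lit 0, [⟨nat_lit 7, nat_lit 7008, nat_lit 6528, nat_lit 12768, nat_lit 14880, nat_lit 7872, R4_266, R2_310, R2_164⟩]⟩, ⟨nat_lit 2, [⟨nat_lit 7, nat_lit 7104, nat_lit 6816, nat_lit 16752, nat_lit 15504, nat_lit 8400, R5_349, R2_323, R1_175⟩]⟩]⟩,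
 ⟨nat_lit 2, [⟨nat_lit 2, [⟨nat_lit 3, nat_lit 7200, nat_lit 6912, nat_lit 8640, nat_lit 22224, nat_lit 13008, R11_180, R11_463, R11_271⟩, ⟨nat_lit 7, nat_lit 7152, nat_lit 6960, nat_lit 8688, nat_lit 16512, nat_lit 8832, R11_181, R1_344, R1_184⟩]⟩, ⟨nat_lit 6, [⟨nat_lit 3, nat_lit 6768, nat_lit 7296, nat_lit 7008, nat_lit 22176, nat_lit 7008, R1_146, R11_462, R1_146⟩]⟩]⟩,
 ⟨nat_lit 3, [⟨nat_lit 0, [⟨nat_lit 7, nat_lit 7056, nat_lit 6576, nat_lit 8016, nat_lit 16944, nat_lit 9120, R3_167, R12_353, R2_190⟩]⟩, ⟨nat_lit 2, [⟨nat_lit 7, nat_lit 7248, nat_lit 6864, nat_lit 6096, nat_lit 17136, nat_lit 9936, R0_127, R12_357, R1_207⟩]⟩, ⟨nat_lit 3, [⟨nat_lit 4, nat_lit 7344, nat_lit 6624, nat_lit 7872, nat_lit 5760, nat_lit 6048, R10_164, R2_120, R2_126⟩, ⟨nat_lit 6, nat_lit 7392, nat_lit 6720, nat_lit 7968, nat_lit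 4464, nat_lit 4752, R10_166, R1_93, R1_99⟩, ⟨nat_lit 7, nat_lit 7440, nat_lit 6672, nat_lit 7920, nat_lit 17232, nat_lit 7872, R10_165, R12_359, R12_164⟩]⟩]⟩,
 ⟨nat_lit 4, [⟨nat_lit 4, [⟨nat_lit 2, nat_lit 6528, nat_lit 7008, nat_lit 12768, nat_lit 14880, nat_lit 7872, R4_266, R2_310, R2_164⟩]⟩, ⟨nat_lit 7, [⟨nat_lit 2, nat_lit 6816, nat_lit 7104, nat_lit 16752, nat_lit 15504, nat_lit 8400, R5_349, R2_323, R1_175⟩]⟩]⟩,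
 ⟨nat_lit 6, [⟨nat_lit 4, [⟨nat_lit 2, nat_lit 6576, nat_lit 7056, nat_lit 8016, nat_lit 16944, nat_lit 9120, R3_167, R12_353, R2_190⟩]⟩, ⟨nat_lit 6, [⟨nat_lit 0, nat_lit 6624, nat_lit 7344, nat_lit 7872, nat_lit 5760, nat_lit 6048, R10_164, R2_120, R2_126⟩, ⟨nat_lit 2, nat_lit 6672, nat_lit 7440, nat_lit 7920, nat_lit 17232, nat_lit 7872, R10_165, R12_359, R12_164⟩, ⟨nat_lit 3, nat_lit 6720, nat_lit 7392, nat_lit 7968, nat_lit 4464, nat_lit 4752, R10_166, R1_93, R1_99⟩]⟩, ⟨nat_lit 7, [⟨nat_lit 2, nat_lit 6864, nat_lit 7248, nat_lit 6096, nat_lit 17136, nat_lit 9936, R0_127, R12_357, R1_207⟩]⟩]⟩,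
 ⟨nat_lit 7, [⟨nat_lit 3, [⟨nat_lit 6, nat_lit 7296, nat_lit 6768, nat_lit 7008, nat_lit 22176, nat_lit 7008, R1_146, R11_462, R1_146⟩]⟩, ⟨nat_lit 7, [⟨nat_lit 2, nat_lit 6960, nat_lit 7152, nat_lit 8688, nat_lit 16512, nat_lit 8832, R11_181, R1_344, R1_184⟩, ⟨nat_lit 6, nat_lit 6912, nat_lit 7200, nat_lit 8640, nat_lit 22224, nat_lit 13008, R11_180, R11_463, R11_271⟩]⟩]⟩]]], [[], [], [], [[⟨nat_lit 3, [⟨nat_lit 0, [⟨nat_lit 4, nat_lit 16032, nat_lit 2976, nat_lit 11520, nat_lit 240, nat_lit 13488, R3_240, R3_5, R6_281⟩, ⟨nat_lit 5, nat_lit 16080, nat_lit 8784, nat_lit 16512, nat_lit 5712, nat_lit 14688, R3_344, R0_119, R8_306⟩, ⟨nat_lit 6, nat_lit 16128, nat_lit 10464, nat_lit 15312, nat_lit 3216, nat_lit 13296, R3_319, R10_67, R4_277⟩]⟩, ⟨nat_lit 1, [⟨nat_lit 4, nat_lit 16176, nat_lit 3312, nat_lit 9072, nat_lit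 2496, nat_lit 8400, R10_189, R3_52, R8_175⟩, ⟨nat_lit 5, nat_lit 16224, nat_lit 9408, nat_lit 9696, nat_lit 7008, nat_lit 15744, R10_202, R0_146, R9_328⟩, ⟨nat_lit 6, nat_lit 16272, nat_lit 10512, nat_lit 9360, nat_lit 5904, nat_lit 16512, R10_195, R10_123, R5_344⟩]⟩, ⟨nat_lit 2, [⟨nat_lit 4, nat_lit 16320, nat_lit 3600, nat_lit 2448, nat_lit 960, nat_lit 6528, R0_51, R3_20, R4_136⟩, ⟨nat_lit 5, nat_lit 16368, nat_lit 9600, nat_lit 2736, nat_lit 6240, nat_lit 10608, R0_57, R0_130, R5_221⟩]⟩]⟩], [⟨nat_lit 3, [⟨nat_lit 1, [⟨nat_lit 4, nat_lit 16560, nat_lit 19728, nat_lit 9984, nat_lit 10128, nat_lit 5808, R10_208, R3_211, R5_121⟩, ⟨nat_lit 5, nat_lit 16608, nat_lit 19920, nat_lit 10272, nat_lit 7152, nat_lit 14208, R10_214, R0_149, R0_296⟩, ⟨nat_lit 6, nat_lit 16656, nat_lit 20016, nat_lit 10128, nat_lit 6624,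 nat_lit 21456, R10_211, R10_138, R11_447⟩]⟩]⟩], [⟨nat_lit 3, [⟨nat_lit 0, [⟨nat_lit 5, nat_lit 16704, nat_lit 3024, nat_lit 17808, nat_lit 5808, nat_lit 10800, R3_371, R0_121, R5_225⟩]⟩, ⟨nat_lit 1, [⟨nat_lit 5, nat_lit 16752, nat_lit 3408, nat_lit 12000, nat_lit 7104, nat_lit 8784, R10_250, R0_148, R0_183⟩]⟩, ⟨nat_lit 2, [⟨nat_lit 5, nat_lit 16800, nat_lit 4992, nat_lit 4656, nat_lit 6336, nat_lit 14064, R0_97, R0_132, R11_293⟩]⟩]⟩]], [], [], [], [[⟨nat_lit 3, [⟨nat_lit 0, [⟨nat_lit 4, nat_lit 15744, nat_lit 14592, nat_lit 11184, nat_lit 3216, nat_lit 13200, R3_233, R2_67, R6_275⟩, ⟨nat_lit 6, nat_lit 15792, nat_lit 14832, nat_lit 15216, nat_lit 2688, nat_lit 13200, R3_317, R1_56, R4_275⟩]⟩, ⟨nat_lit 1, [⟨nat_lit 4, nat_lit 15888, nat_lit 15168, nat_lit 9120, nat_lit 6432, nat_lit 15024, R10_190, R2_134, R8_313⟩,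 ⟨nat_lit 6, nat_lit 15936, nat_lit 15456, nat_lit 9408, nat_lit 5136, nat_lit 16608, R10_196, R1_107, R5_346⟩]⟩, ⟨nat_lit 2, [⟨nat_lit 4, nat_lit 15984, nat_lit 15648, nat_lit 12384, nat_lit 4080, nat_lit 13008, R0_258, R2_85, R4_271⟩]⟩]⟩,
 ⟨nat_lit 7, [⟨nat_lit 0, [⟨nat_lit 6, nat_lit 15696, nat_lit 14880, nat_lit 7872, nat_lit 18864, nat_lit 12768, R2_164, R11_393, R4_266⟩]⟩, ⟨nat_lit 1, [⟨nat_lit 6, nat_lit 15840, nat_lit 15504, nat_lit 8400, nat_lit 19056, nat_lit 16752, R1_175, R11_397, R5_349⟩]⟩]⟩], [⟨nat_lit 3, [⟨nat_lit 1, [⟨nat_lit 4, nat_lit 16464, nat_lit 16176, nat_lit 10032, nat_lit 7008, nat_lit 5952, R10_209, R2_146, R5_124⟩, ⟨nat_lit 6, nat_lit 16512, nat_lit 16464, nat_lit 10176, nat_lit 5712, nat_lit 21552, R10_212, R1_119, R11_449⟩]⟩]⟩,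
 ⟨nat_lit 7, [⟨nat_lit 1, [⟨nat_lit 6, nat_lit 16416, nat_lit 16512, nat_lit 8832, nat_lit 21216, nat_lit 21696, R1_184, R11_442, R11_452⟩]⟩]⟩], [], [⟨nat_lit 3, [⟨nat_lit 0, [⟨nat_lit 4, nat_lit 16896, nat_lit 5376, nat_lit 12096, nat_lit 3840, nat_lit 12000, R3_252, R2_80, R13_250⟩, ⟨nat_lit 6, nat_lit 16944, nat_lit 5472, nat_lit 15552, nat_lit 3312, nat_lit 9216, R3_324, R1_69, R3_192⟩, ⟨nat_lit 7, nat_lit 16992, nat_lit 5424, nat_lit 14784, nat_lit 16896, nat_lit 14784, R3_308, R12_352, R3_308⟩]⟩, ⟨nat_lit 1, [⟨nat_lit 4, nat_lit 17088, nat_lit 5568, nat_lit 10608, nat_lit 6816, nat_lit 5904, R10_221, R2_142, R9_123⟩, ⟨nat_lit 6, nat_lit 17136, nat_lit 5664, nat_lit 10896, nat_lit 5520, nat_lit 3744, R10_227, R1_115, R0_78⟩, ⟨nat_lit 7, nat_lit 17184, nat_lit 5616, nat_lit 11280, nat_lit 17328, nat_lit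 13536, R10_235, R12_361, R0_282⟩]⟩, ⟨nat_lit 2, [⟨nat_lit 4, nat_lit 17232, nat_lit 5808, nat_lit 13344, nat_lit 4656, nat_lit 6768, R0_278, R2_97, R3_141⟩, ⟨nat_lit 7, nat_lit 17280, nat_lit 5856, nat_lit 13536, nat_lit 17088, nat_lit 11280, R0_282, R12_356, R10_235⟩]⟩]⟩,
 ⟨nat_lit 7, [⟨nat_lit 0, [⟨nat_lit 6, nat_lit 16848, nat_lit 5520, nat_lit 9120, nat_lit 20400, nat_lit 8016, R2_190, R11_425, R3_167⟩]⟩, ⟨nat_lit 1, [⟨nat_lit 6, nat_lit 17040, nat_lit 5712, nat_lit 9936, nat_lit 20736, nat_lit 6096, R1_207, R11_432, R0_127⟩]⟩, ⟨nat_lit 3, [⟨nat_lit 6, nat_lit 17328, nat_lit 5760, nat_lit 6144, nat_lit 20592, nat_lit 7920, R12_128, R11_429, R10_165⟩]⟩]⟩]]], [[], [], [], [], [[], [⟨nat_lit 4, [⟨nat_lit 1, [⟨nat_lit 6, nat_lit 18000, nat_lit 1392, nat_lit 528, nat_lit 4416, nat_lit 1440, R4_11, R4_92, R11_30⟩]⟩,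 ⟨nat_lit 5, [⟨nat_lit 6, nat_lit 17904, nat_lit 1824, nat_lit 720, nat_lit 4320, nat_lit 6816, R7_15, R4_90, R1_142⟩]⟩]⟩,
 ⟨nat_lit 7, [⟨nat_lit 5, [⟨nat_lit 6, nat_lit 17952, nat_lit 8544, nat_lit 2112, nat_lit 720, nat_lit 6912, R2_44, R5_15, R1_144⟩]⟩]⟩], [], [], [], [⟨nat_lit 4, [⟨nat_lit 5, [⟨nat_lit 2, nat_lit 17424, nat_lit 2016, nat_lit 1200, nat_lit 4512, nat_lit 12336, R7_25, R7_94, R1_257⟩, ⟨nat_lit 6, nat_lit 17376, nat_lit 2064, nat_lit 1152, nat_lit 4272, nat_lit 13200, R7_24, R4_89, R10_275⟩]⟩]⟩,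
 ⟨nat_lit 7, [⟨nat_lit 5, [⟨nat_lit 6, nat_lit 17472, nat_lit 8592, nat_lit 336, nat_lit 3120, nat_lit 13488, R2_7, R5_65, R10_281⟩]⟩]⟩]], [[], [⟨nat_lit 4, [⟨nat_lit 1, [⟨nat_lit 6, nat_lit 18192, nat_lit 4752, nat_lit 6912, nat_lit 17568, nat_lit 1584, R4_144, R3_366, R11_33⟩]⟩, ⟨nat_lit 5, [⟨nat_lit 6, nat_lit 18048, nat_lit 12720, nat_lit 6720, nat_lit 10704, nat_lit 6864, R7_140, R3_223, R1_143⟩]⟩]⟩,
 ⟨nat_lit 5, [⟨nat_lit 1, [⟨nat_lit 6, nat_lit 18240, nat_lit 5424, nat_lit 5760, nat_lit 2640, nat_lit 1728, R3_120, R10_55, R11_36⟩]⟩, ⟨nat_lit 5, [⟨nat_lit 6, nat_lit 18096, nat_lit 13536, nat_lit 4896, nat_lit 2400, nat_lit 7200, R2_102, R10_50, R1_150⟩]⟩]⟩,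
 ⟨nat_lit 7, [⟨nat_lit 5, [⟨nat_lit 6, nat_lit 18144, nat_lit 13056, nat_lit 9888, nat_lit 5376, nat_lit 7056, R2_206, R0_112, R1_147⟩]⟩]⟩], [], [], [], [⟨nat_lit 4, [⟨nat_lit 5, [⟨nat_lit 2, nat_lit 17568, nat_lit 576, nat_lit 7200, nat_lit 2928, nat_lit 12432, R7_150, R2_61, R1_259⟩, ⟨nat_lit 6, nat_lit 17520, nat_lit 624, nat_lit 7152, nat_lit 10752, nat_lit 13344, R7_149, R3_224, R10_278⟩]⟩]⟩,
 ⟨nat_lit 5, [⟨nat_lit 5, [⟨nat_lit 2, nat_lit 17664, nat_lit 6288, nat_lit 5424, nat_lit 2400, nat_lit 12528, R2_113, R1_50, R1_261⟩, ⟨nat_lit 6, nat_lit 17616, nat_lit 6336, nat_lit 5376, nat_lit 2352, nat_lit 13872, R2_112, R10_49, R10_289⟩]⟩]⟩,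
 ⟨nat_lit 7, [⟨nat_lit 5, [⟨nat_lit 6, nat_lit 17712, nat_lit 7392, nat_lit 7344, nat_lit 5472, nat_lit 13776, R2_153, R0_114, R10_287⟩]⟩]⟩]], [], [[], [], [], [], [], [⟨nat_lit 4, [⟨nat_lit 5, [⟨nat_lit 2, nat_lit 17760, nat_lit 528, nat_lit 8064, nat_lit 2976, nat_lit 12384, R7_168, R2_62, R1_258⟩]⟩]⟩,
 ⟨nat_lit 7, [⟨nat_lit 5, [⟨nat_lit 2, nat_lit 17856, nat_lit 6240, nat_lit 5472, nat_lit 2448, nat_lit 12480, R2_114, R1_51, R1_260⟩, ⟨nat_lit 6, nat_lit 17808, nat_lit 5760, nat_lit 6048, nat_lit 3120, nat_lit 13632, R2_126, R11_65, R10_284⟩]⟩]⟩]]], [[], [[], [⟨nat_lit 1, [⟨nat_lit 1, [⟨nat_lit 4, nat_lit 21600, nat_lit 16368, nat_lit 8784, nat_lit 7344, nat_lit 7536, R1_183, R5_153, R5_157⟩, ⟨nat_lit 5, nat_lit 21648, nat_lit 16416, nat_lit 8880, nat_lit 13968, nat_lit 10128, R1_185, R0_291, R0_211⟩, ⟨nat_lit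 6, nat_lit 21696, nat_lit 16512, nat_lit 8832, nat_lit 21216, nat_lit 16416, R1_184, R11_442, R11_342⟩]⟩]⟩,
 ⟨nat_lit 5, [⟨nat_lit 1, [⟨nat_lit 6, nat_lit 21552, nat_lit 16464, nat_lit 18672, nat_lit 5712, nat_lit 16512, R10_389, R1_119, R11_344⟩]⟩, ⟨nat_lit 5, [⟨nat_lit 6, nat_lit 21504, nat_lit 16320, nat_lit 15408, nat_lit 5760, nat_lit 7152, R1_321, R1_120, R1_149⟩]⟩]⟩]], [], [], [], [[], [⟨nat_lit 5, [⟨nat_lit 1, [⟨nat_lit 6, nat_lit 21456, nat_lit 5136, nat_lit 4176, nat_lit 8640, nat_lit 16656, R10_87, R10_180, R11_347⟩]⟩, ⟨nat_lit 5, [⟨nat_lit 6, nat_lit 21408, nat_lit 5616, nat_lit 3600, nat_lit 8496, nat_lit 7248, R1_75, R10_177, R1_151⟩]⟩]⟩], [], [], [], [⟨nat_lit 5, [⟨nat_lit 5, [⟨nat_lit 2, nat_lit 21360, nat_lit 4992, nat_lit 4128, nat_lit 7776, nat_lit 15888, R1_86, R1_162, R1_331⟩, ⟨nat_lit 6,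 nat_lit 21312, nat_lit 5040, nat_lit 4080, nat_lit 8448, nat_lit 19536, R1_85, R10_176, R10_407⟩]⟩]⟩]]], [[], [], [], [], [[], [], [], [], [⟨nat_lit 4, [⟨nat_lit 4, [⟨nat_lit 2, nat_lit 18336, nat_lit 12912, nat_lit 13728, nat_lit 12912, nat_lit 13728, R7_286, R7_269, R7_286⟩, ⟨nat_lit 6, nat_lit 18288, nat_lit 17568, nat_lit 5568, nat_lit 11856, nat_lit 12432, R7_116, R4_247, R4_259⟩]⟩]⟩,
 ⟨nat_lit 6, [⟨nat_lit 4, [⟨nat_lit 2, nat_lit 18384, nat_lit 13008, nat_lit 12576, nat_lit 13920, nat_lit 13920, R2_262, R14_290, R7_290⟩]⟩, ⟨nat_lit 6, [⟨nat_lit 0, nat_lit 18480, nat_lit 4512, nat_lit 12336, nat_lit 2016, nat_lit 1200, R1_257, R7_42, R7_25⟩, ⟨nat_lit 2, nat_lit 18528, nat_lit 13152, nat_lit 13920, nat_lit 13968, nat_lit 16656, R1_290, R14_291, R14_347⟩]⟩]⟩,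
 ⟨nat_lit 7, [⟨nat_lit 4, [⟨nat_lit 6, nat_lit 18432, nat_lit 17664, nat_lit 7728, nat_lit 12768, nat_lit 12624, R2_161, R5_266, R4_263⟩]⟩, ⟨nat_lit 7, [⟨nat_lit 6, nat_lit 18576, nat_lit 17856, nat_lit 8256, nat_lit 12912, nat_lit 16416, R1_172, R5_269, R5_342⟩]⟩]⟩], [⟨nat_lit 4, [⟨nat_lit 4, [⟨nat_lit 2, nat_lit 19152, nat_lit 12720, nat_lit 13920, nat_lit 13008, nat_lit 12576, R7_290, R7_271, R2_262⟩, ⟨nat_lit 6, nat_lit 19104, nat_lit 13200, nat_lit 6000, nat_lit 11904, nat_lit 1488, R7_125, R4_248, R3_31⟩]⟩, ⟨nat_lit 5, [⟨nat_lit 2, nat_lit 19344, nat_lit 12768, nat_lit 17664, nat_lit 13152, nat_lit 13920, R14_368, R7_274, R1_290⟩, ⟨nat_lit 6, nat_lit 19296, nat_lit 13248, nat_lit 17568, nat_lit 12048, nat_lit 16032, R14_366, R4_251, R10_334⟩]⟩]⟩,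
 ⟨nat_lit 6, [⟨nat_lit 4, [⟨nat_lit 2, nat_lit 19200, nat_lit 14928, nat_lit 13200, nat_lit 14640, nat_lit 13200, R2_275, R14_305, R2_275⟩]⟩, ⟨nat_lit 5, [⟨nat_lit 2, nat_lit 19392, nat_lit 14976, nat_lit 14064, nat_lit 14736, nat_lit 14544, R12_293, R14_307, R1_303⟩]⟩, ⟨nat_lit 6, [⟨nat_lit 2, nat_lit 19488, nat_lit 15024, nat_lit 14544, nat_lit 14688, nat_lit 14064, R1_303, R14_306, R12_293⟩]⟩]⟩,
 ⟨nat_lit 7, [⟨nat_lit 4, [⟨nat_lit 6, nat_lit 19248, nat_lit 13680, nat_lit 8928, nat_lit 13776, nat_lit 7968, R2_186, R5_287, R3_166⟩]⟩, ⟨nat_lit 5, [⟨nat_lit 6, nat_lit 19440, nat_lit 13776, nat_lit 1104, nat_lit 14256, nat_lit 16848, R12_23, R5_297, R10_351⟩]⟩, ⟨nat_lit 7, [⟨nat_lit 6, nat_lit 19536, nat_lit 13728, nat_lit 9744, nat_lit 13968, nat_lit 6048, R1_203, R5_291, R0_126⟩]⟩]⟩]], [[], [], [], [], [], [⟨nat_lit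 4, [⟨nat_lit 4, [⟨nat_lit 2, nat_lit 19632, nat_lit 9984, nat_lit 14064, nat_lit 11664, nat_lit 12672, R7_293, R2_243, R2_264⟩, ⟨nat_lit 6, nat_lit 19584, nat_lit 10464, nat_lit 6096, nat_lit 3504, nat_lit 1584, R7_127, R3_73, R3_33⟩]⟩, ⟨nat_lit 5, [⟨nat_lit 2, nat_lit 19824, nat_lit 10032, nat_lit 18144, nat_lit 11808, nat_lit 14016, R14_378, R2_246, R1_292⟩, ⟨nat_lit 6, nat_lit 19776, nat_lit 10512, nat_lit 18000, nat_lit 10992, nat_lit 16224, R14_375, R3_229, R10_338⟩]⟩]⟩,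
 ⟨nat_lit 5, [⟨nat_lit 5, [⟨nat_lit 2, nat_lit 19920, nat_lit 10704, nat_lit 15264, nat_lit 12240, nat_lit 15120, R12_318, R1_255, R1_315⟩, ⟨nat_lit 6, nat_lit 19872, nat_lit 10896, nat_lit 15120, nat_lit 13104, nat_lit 18240, R12_315, R10_273, R10_380⟩]⟩]⟩,
 ⟨nat_lit 6, [⟨nat_lit 4, [⟨nat_lit 2, nat_lit 19680, nat_lit 12000, nat_lit 13344, nat_lit 11712, nat_lit 13488, R2_278, R12_244, R2_281⟩]⟩, ⟨nat_lit 5, [⟨nat_lit 2, nat_lit 19968, nat_lit 12048, nat_lit 14256, nat_lit 11808, nat_lit 14832, R12_297, R12_246, R1_309⟩]⟩, ⟨nat_lit 6, [⟨nat_lit 2, nat_lit 20064, nat_lit 12096, nat_lit 14688, nat_lit 11760, nat_lit 14640, R1_306, R12_245, R12_305⟩]⟩]⟩,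
 ⟨nat_lit 7, [⟨nat_lit 4, [⟨nat_lit 6, nat_lit 19728, nat_lit 11328, nat_lit 9408, nat_lit 5280, nat_lit 8112, R2_196, R0_110, R3_169⟩]⟩, ⟨nat_lit 5, [⟨nat_lit 6, nat_lit 20016, nat_lit 11424, nat_lit 8976, nat_lit 5520, nat_lit 17184, R12_187, R0_115, R10_358⟩]⟩, ⟨nat_lit 7, [⟨nat_lit 6, nat_lit 20112, nat_lit 11376, nat_lit 10224, nat_lit 5328, nat_lit 6144, R1_213, R0_111, R0_128⟩]⟩]⟩]], [[], [], [], [], [⟨nat_lit 6, [⟨nat_lit 4, [⟨nat_lit 2, nat_lit 18624, nat_lit 11664, nat_lit 12672, nat_lit 9984, nat_lit 14064, R2_264, R12_208, R7_293⟩]⟩, ⟨nat_lit 6, [⟨nat_lit 0, nat_lit 18672, nat_lit 2928, nat_lit 12432, nat_lit 576, nat_lit 7200, R1_259, R2_12, R7_150⟩, ⟨nat_lit 2, nat_lit 18720, nat_lit 11808, nat_lit 14016, nat_lit 10032, nat_lit 16848, R1_292, R12_209, R14_351⟩]⟩]⟩], [⟨nat_lit 6, [⟨nat_lit 4, [⟨nat_lit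 2, nat_lit 20160, nat_lit 11712, nat_lit 13488, nat_lit 12000, nat_lit 13344, R2_281, R12_250, R2_278⟩]⟩, ⟨nat_lit 5, [⟨nat_lit 2, nat_lit 20208, nat_lit 11760, nat_lit 14640, nat_lit 12096, nat_lit 14688, R12_305, R12_252, R1_306⟩]⟩, ⟨nat_lit 6, [⟨nat_lit 2, nat_lit 20256, nat_lit 11808, nat_lit 14832, nat_lit 12048, nat_lit 14256, R1_309, R12_251, R12_297⟩]⟩]⟩], [⟨nat_lit 6, [⟨nat_lit 6, [⟨nat_lit 0, nat_lit 20784, nat_lit 2400, nat_lit 12528, nat_lit 6288, nat_lit 5424, R1_261, R2_131, R2_113⟩, ⟨nat_lit 1, nat_lit 20832, nat_lit 7776, nat_lit 15888, nat_lit 4992, nat_lit 4128, R1_331, R1_104, R1_86⟩, ⟨nat_lit 2, nat_lit 20880, nat_lit 12240, nat_lit 15120, nat_lit 10704, nat_lit 15264, R1_315, R12_223, R12_318⟩]⟩]⟩]], [[], [], [], [], [⟨nat_lit 4, [⟨nat_lit 4, [⟨nat_lit 2, nat_lit 18768, nat_lit 10560, nat_lit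 13776, nat_lit 10560, nat_lit 13776, R7_287, R2_220, R7_287⟩]⟩]⟩,
 ⟨nat_lit 6, [⟨nat_lit 4, [⟨nat_lit 2, nat_lit 18816, nat_lit 10704, nat_lit 12624, nat_lit 9840, nat_lit 13968, R2_263, R12_205, R7_291⟩]⟩, ⟨nat_lit 6, [⟨nat_lit 0, nat_lit 18960, nat_lit 2976, nat_lit 12384, nat_lit 528, nat_lit 8064, R1_258, R2_11, R7_168⟩, ⟨nat_lit 2, nat_lit 19008, nat_lit 11856, nat_lit 13968, nat_lit 9936, nat_lit 17040, R1_291, R12_207, R14_355⟩]⟩]⟩,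
 ⟨nat_lit 7, [⟨nat_lit 4, [⟨nat_lit 2, nat_lit 18912, nat_lit 10656, nat_lit 14064, nat_lit 10944, nat_lit 13824, R2_293, R1_228, R7_288⟩, ⟨nat_lit 6, nat_lit 18864, nat_lit 14880, nat_lit 7872, nat_lit 15696, nat_lit 12768, R2_164, R11_327, R4_266⟩]⟩, ⟨nat_lit 7, [⟨nat_lit 6, nat_lit 19056, nat_lit 15504, nat_lit 8400, nat_lit 15840, nat_lit 16752, R1_175, R11_330, R5_349⟩]⟩]⟩], [⟨nat_lit 4, [⟨nat_lit 4, [⟨nat_lit 2, nat_lit 20304, nat_lit 1824, nat_lit 13968, nat_lit 10704, nat_lit 12624, R7_291, R2_223, R2_263⟩]⟩, ⟨nat_lit 5, [⟨nat_lit 2, nat_lit 20496, nat_lit 1968, nat_lit 18240, nat_lit 11856, nat_lit 13968, R14_380, R2_247, R1_291⟩]⟩]⟩,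
 ⟨nat_lit 6, [⟨nat_lit 4, [⟨nat_lit 2, nat_lit 20352, nat_lit 11472, nat_lit 13248, nat_lit 11904, nat_lit 13248, R2_276, R12_248, R2_276⟩]⟩, ⟨nat_lit 5, [⟨nat_lit 2, nat_lit 20544, nat_lit 11616, nat_lit 14448, nat_lit 12240, nat_lit 14592, R12_301, R12_255, R1_304⟩]⟩, ⟨nat_lit 6, [⟨nat_lit 2, nat_lit 20688, nat_lit 11856, nat_lit 14592, nat_lit 11952, nat_lit 14448, R1_304, R12_249, R12_301⟩]⟩]⟩,
 ⟨nat_lit 7, [⟨nat_lit 4, [⟨nat_lit 2, nat_lit 20448, nat_lit 6384, nat_lit 14352, nat_lit 11088, nat_lit 12768, R2_299, R1_231, R2_266⟩, ⟨nat_lit 6, nat_lit 20400, nat_lit 5520, nat_lit 9120, nat_lit 16848, nat_lit 8016, R2_190, R11_351, R3_167⟩]⟩, ⟨nat_lit 5, [⟨nat_lit 2, nat_lit 20640, nat_lit 6480, nat_lit 3936, nat_lit 12288, nat_lit 14112, R12_82, R1_256, R1_294⟩, ⟨nat_lit 6, nat_lit 20592, nat_lit 5760, nat_lit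 6144, nat_lit 17328, nat_lit 16992, R12_128, R11_361, R10_354⟩]⟩, ⟨nat_lit 7, [⟨nat_lit 6, nat_lit 20736, nat_lit 5712, nat_lit 9936, nat_lit 17040, nat_lit 6096, R1_207, R11_355, R0_127⟩]⟩]⟩], [], [⟨nat_lit 4, [⟨nat_lit 4, [⟨nat_lit 2, nat_lit 20928, nat_lit 10944, nat_lit 13824, nat_lit 10656, nat_lit 14064, R7_288, R2_222, R2_293⟩]⟩]⟩,
 ⟨nat_lit 6, [⟨nat_lit 4, [⟨nat_lit 2, nat_lit 20976, nat_lit 11088, nat_lit 12768, nat_lit 10560, nat_lit 14352, R2_266, R12_220, R2_299⟩]⟩, ⟨nat_lit 6, [⟨nat_lit 0, nat_lit 21072, nat_lit 2448, nat_lit 12480, nat_lit 6240, nat_lit 5472, R1_260, R2_130, R2_114⟩, ⟨nat_lit 2, nat_lit 21120, nat_lit 12288, nat_lit 14112, nat_lit 10656, nat_lit 15312, R1_294, R12_222, R12_319⟩, ⟨nat_lit 3, nat_lit 21168, nat_lit 7824, nat_lit 15600, nat_lit 4944, nat_lit 4176, R1_325, R1_103,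 R1_87⟩]⟩]⟩,
 ⟨nat_lit 7, [⟨nat_lit 4, [⟨nat_lit 2, nat_lit 21024, nat_lit 11040, nat_lit 14304, nat_lit 11040, nat_lit 14304, R2_298, R1_230, R2_298⟩]⟩, ⟨nat_lit 7, [⟨nat_lit 2, nat_lit 21264, nat_lit 11424, nat_lit 15840, nat_lit 11424, nat_lit 15840, R1_330, R1_238, R1_330⟩, ⟨nat_lit 6, nat_lit 21216, nat_lit 16512, nat_lit 8832, nat_lit 16416, nat_lit 21696, R1_184, R11_342, R11_452⟩]⟩]⟩]]], [[], [], [], [], [[], [⟨nat_lit 4, [⟨nat_lit 1, [⟨nat_lit 6, nat_lit 21888, nat_lit 624, nat_lit 2112, nat_lit 10704, nat_lit 12720, R5_44, R4_223, R11_265⟩]⟩]⟩,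
 ⟨nat_lit 7, [⟨nat_lit 1, [⟨nat_lit 6, nat_lit 21936, nat_lit 7584, nat_lit 12912, nat_lit 7296, nat_lit 12864, R11_269, R5_152, R11_268⟩]⟩, ⟨nat_lit 5, [⟨nat_lit 6, nat_lit 21840, nat_lit 7152, nat_lit 1584, nat_lit 7680, nat_lit 6960, R1_33, R5_160, R1_145⟩]⟩]⟩]], [[], [⟨nat_lit 4, [⟨nat_lit 1, [⟨nat_lit 6, nat_lit 22032, nat_lit 15168, nat_lit 10944, nat_lit 17952, nat_lit 13152, R5_228, R3_374, R11_274⟩]⟩]⟩,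
 ⟨nat_lit 5, [⟨nat_lit 1, [⟨nat_lit 6, nat_lit 22080, nat_lit 15216, nat_lit 8112, nat_lit 12096, nat_lit 13392, R0_169, R10_252, R11_279⟩]⟩]⟩,
 ⟨nat_lit 7, [⟨nat_lit 1, [⟨nat_lit 6, nat_lit 22128, nat_lit 15264, nat_lit 12960, nat_lit 5232, nat_lit 13248, R11_270, R0_109, R11_276⟩]⟩, ⟨nat_lit 5, [⟨nat_lit 6, nat_lit 21984, nat_lit 15120, nat_lit 10704, nat_lit 5424, nat_lit 7104, R1_223, R0_113, R1_148⟩]⟩]⟩]], [], [[], [⟨nat_lit 7, [⟨nat_lit 1, [⟨nat_lit 6, nat_lit 22224, nat_lit 22224, nat_lit 13008, nat_lit 6912, nat_lit 13008, R11_271, R11_144, R11_271⟩]⟩, ⟨nat_lit 5, [⟨nat_lit 6, nat_lit 22176, nat_lit 22176, nat_lit 7008, nat_lit 7296, nat_lit 7008, R1_146, R11_152, R1_146⟩]⟩]⟩], [], [], [], [⟨nat_lit 7, [⟨nat_lit 5, [⟨nat_lit 2, nat_lit 21792, nat_lit 4944, nat_lit 4176, nat_lit 7824, nat_lit 15600, R1_87,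 R1_163, R1_325⟩, ⟨nat_lit 6, nat_lit 21744, nat_lit 4464, nat_lit 4752, nat_lit 9360, nat_lit 19104, R1_99, R11_195, R10_398⟩]⟩]⟩]]]]
noncomputable def N2370 : T3 (List N0) := [[[[⟨nat_lit 0, [⟨nat_lit 2, [⟨nat_lit 6, nat_lit 96, nat_lit 3312, nat_lit 3600, nat_lit 3504, nat_lit 7008, R4_75, R4_73, R7_146⟩]⟩, ⟨nat_lit 6, [⟨nat_lit 4, nat_lit 1104, nat_lit 3936, nat_lit 3072, nat_lit 1488, nat_lit 7440, R7_64, R6_31, R6_155⟩, ⟨nat_lit 6, nat_lit 1920, nat_lit 4176, nat_lit 3648, nat_lit 1488, nat_lit 8160, R7_76, R4_31, R4_170⟩]⟩]⟩,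
 ⟨nat_lit 2, [⟨nat_lit 6, [⟨nat_lit 4, nat_lit 1152, nat_lit 11424, nat_lit 8112, nat_lit 3312, nat_lit 7488, R14_169, R4_69, R6_156⟩]⟩]⟩], [⟨nat_lit 0, [⟨nat_lit 2, [⟨nat_lit 6, nat_lit 5808, nat_lit 3024, nat_lit 3696, nat_lit 3936, nat_lit 5232, R4_77, R4_82, R2_109⟩]⟩]⟩], [⟨nat_lit 0, [⟨nat_lit 2, [⟨nat_lit 6, nat_lit 7104, nat_lit 3024, nat_lit 3840, nat_lit 3840, nat_lit 7104, R4_80, R4_80, R2_148⟩]⟩, ⟨nat_lit 6, [⟨nat_lit 4, nat_lit 8160, nat_lit 1728, nat_lit 3264, nat_lit 1872, nat_lit 9792, R7_68, R6_39, R13_204⟩, ⟨nat_lit 5, nat_lit 8784, nat_lit 2592, nat_lit 4128, nat_lit 2016, nat_lit 7632, R7_86, R8_42, R3_159⟩, ⟨nat_lit 6, nat_lit 9696, nat_lit 2928, nat_lit 3792, nat_lit 1728, nat_lit 12768, R7_79, R4_36, R3_266⟩]⟩]⟩,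
 ⟨nat_lit 2, [⟨nat_lit 4, [⟨nat_lit 4, nat_lit 7440, nat_lit 9600, nat_lit 15744, nat_lit 8784, nat_lit 12336, R7_328, R4_183, R6_257⟩, ⟨nat_lit 5, nat_lit 7680, nat_lit 10176, nat_lit 16464, nat_lit 6000, nat_lit 12576, R7_343, R5_125, R4_262⟩]⟩, ⟨nat_lit 6, [⟨nat_lit 4, nat_lit 8208, nat_lit 9696, nat_lit 8592, nat_lit 9312, nat_lit 9840, R14_179, R4_194, R13_205⟩, ⟨nat_lit 5, nat_lit 8832, nat_lit 10272, nat_lit 8640, nat_lit 6048, nat_lit 7680, R14_180, R5_126, R3_160⟩]⟩]⟩]], [], [[], [], [⟨nat_lit 0, [⟨nat_lit 6, [⟨nat_lit 5, nat_lit 8880, nat_lit 13632, nat_lit 12576, nat_lit 14928, nat_lit 7920, R7_262, R5_311, R3_165⟩]⟩]⟩,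
 ⟨nat_lit 2, [⟨nat_lit 4, [⟨nat_lit 5, nat_lit 7728, nat_lit 12768, nat_lit 16608, nat_lit 18432, nat_lit 12624, R7_346, R11_384, R4_263⟩]⟩, ⟨nat_lit 6, [⟨nat_lit 5, nat_lit 8928, nat_lit 13776, nat_lit 10992, nat_lit 19248, nat_lit 7968, R14_229, R11_401, R3_166⟩]⟩]⟩]], [[⟨nat_lit 0, [⟨nat_lit 2, [⟨nat_lit 6, nat_lit 144, nat_lit 12960, nat_lit 9888, nat_lit 13728, nat_lit 7056, R4_206, R3_286, R7_147⟩]⟩, ⟨nat_lit 6, [⟨nat_lit 4, nat_lit 1200, nat_lit 14064, nat_lit 9264, nat_lit 16416, nat_lit 7728, R7_193, R13_342, R6_161⟩, ⟨nat_lit 6, nat_lit 1968, nat_lit 14160, nat_lit 10704, nat_lit 12480, nat_lit 8304, R7_223, R3_260, R4_173⟩, ⟨nat_lit 7, nat_lit 2400, nat_lit 14112, nat_lit 10032, nat_lit 1296, nat_lit 4896, R7_209, R3_27, R8_102⟩]⟩]⟩,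
 ⟨nat_lit 2, [⟨nat_lit 4, [⟨nat_lit 7, nat_lit 912, nat_lit 13440, nat_lit 13392, nat_lit 14544, nat_lit 4992, R7_279, R10_303, R6_104⟩]⟩, ⟨nat_lit 6, [⟨nat_lit 4, nat_lit 1248, nat_lit 14544, nat_lit 9168, nat_lit 11712, nat_lit 7776, R14_191, R3_244, R6_162⟩, ⟨nat_lit 7, nat_lit 2448, nat_lit 14592, nat_lit 9216, nat_lit 15840, nat_lit 4944, R14_192, R10_330, R8_103⟩]⟩]⟩,
 ⟨nat_lit 3, [⟨nat_lit 2, [⟨nat_lit 6, nat_lit 192, nat_lit 13152, nat_lit 4896, nat_lit 13296, nat_lit 7104, R5_102, R10_277, R7_148⟩]⟩]⟩], [⟨nat_lit 0, [⟨nat_lit 2, [⟨nat_lit 6, nat_lit 5856, nat_lit 9648, nat_lit 10032, nat_lit 13824, nat_lit 5280, R4_209, R3_288, R2_110⟩]⟩]⟩,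
 ⟨nat_lit 3, [⟨nat_lit 2, [⟨nat_lit 6, nat_lit 5904, nat_lit 9888, nat_lit 5520, nat_lit 13824, nat_lit 5328, R5_115, R10_288, R2_111⟩]⟩]⟩], [⟨nat_lit 0, [⟨nat_lit 2, [⟨nat_lit 6, nat_lit 7152, nat_lit 10176, nat_lit 10176, nat_lit 13776, nat_lit 7248, R4_212, R3_287, R2_151⟩]⟩, ⟨nat_lit 6, [⟨nat_lit 4, nat_lit 8256, nat_lit 11712, nat_lit 9456, nat_lit 16464, nat_lit 10080, R7_197, R13_343, R13_210⟩, ⟨nat_lit 5, nat_lit 8976, nat_lit 11808, nat_lit 11136, nat_lit 14112, nat_lit 8208, R7_232, R9_294, R3_171⟩, ⟨nat_lit 6, nat_lit 9744, nat_lit 11856, nat_lit 10848, nat_lit 12528, nat_lit 12816, R7_226, R3_261, R3_267⟩, ⟨nat_lit 7, nat_lit 10032, nat_lit 11760, nat_lit 10368, nat_lit 1920, nat_lit 7728, R7_216, R3_40, R9_161⟩]⟩]⟩,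
 ⟨nat_lit 2, [⟨nat_lit 4, [⟨nat_lit 4, nat_lit 7488, nat_lit 10800, nat_lit 15840, nat_lit 11232, nat_lit 12384, R7_330, R3_234, R6_258⟩, ⟨nat_lit 5, nat_lit 7776, nat_lit 10896, nat_lit 16512, nat_lit 12240, nat_lit 12672, R7_344, R0_255, R4_264⟩, ⟨nat_lit 7, nat_lit 8016, nat_lit 10848, nat_lit 16176, nat_lit 14640, nat_lit 14496, R7_337, R10_305, R8_302⟩]⟩, ⟨nat_lit 6, [⟨nat_lit 4, nat_lit 8304, nat_lit 12336, nat_lit 10224, nat_lit 12192, nat_lit 10128, R14_213, R3_254, R13_211⟩, ⟨nat_lit 5, nat_lit 9024, nat_lit 12432, nat_lit 10320, nat_lit 12816, nat_lit 8256, R14_215, R0_267, R3_172⟩, ⟨nat_lit 7, nat_lit 10080, nat_lit 12384, nat_lit 10272, nat_lit 15936, nat_lit 7776, R14_214, R10_332, R9_162⟩]⟩]⟩,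
 ⟨nat_lit 3, [⟨nat_lit 2, [⟨nat_lit 6, nat_lit 7200, nat_lit 10464, nat_lit 6624, nat_lit 13728, nat_lit 7296, R5_138, R10_286, R2_152⟩]⟩]⟩], [⟨nat_lit 0, [⟨nat_lit 6, [⟨nat_lit 7, nat_lit 11088, nat_lit 3408, nat_lit 10176, nat_lit 1536, nat_lit 15264, R7_212, R3_32, R5_318⟩]⟩]⟩,
 ⟨nat_lit 2, [⟨nat_lit 4, [⟨nat_lit 7, nat_lit 10800, nat_lit 10368, nat_lit 14784, nat_lit 14592, nat_lit 13632, R7_308, R10_304, R4_284⟩]⟩, ⟨nat_lit 6, [⟨nat_lit 7, nat_lit 11136, nat_lit 10896, nat_lit 9984, nat_lit 15888, nat_lit 15456, R14_208, R10_331, R5_322⟩]⟩]⟩]], [], [], [], [[], [], [], [⟨nat_lit 0, [⟨nat_lit 6, [⟨nat_lit 7, nat_lit 10992, nat_lit 11568, nat_lit 15312, nat_lit 12528, nat_lit 15312, R7_319, R2_261, R5_319⟩]⟩]⟩,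
 ⟨nat_lit 2, [⟨nat_lit 4, [⟨nat_lit 3, nat_lit 10560, nat_lit 10560, nat_lit 14928, nat_lit 18768, nat_lit 14928, R7_311, R11_391, R7_311⟩, ⟨nat_lit 7, nat_lit 10752, nat_lit 10512, nat_lit 14832, nat_lit 13104, nat_lit 13680, R7_309, R1_273, R4_285⟩]⟩, ⟨nat_lit 6, [⟨nat_lit 7, nat_lit 11040, nat_lit 11712, nat_lit 7920, nat_lit 13872, nat_lit 15504, R14_165, R1_289, R5_323⟩]⟩]⟩,
 ⟨nat_lit 6, [⟨nat_lit 4, [⟨nat_lit 3, nat_lit 10512, nat_lit 10752, nat_lit 13680, nat_lit 13104, nat_lit 14832, R4_285, R1_273, R7_309⟩]⟩, ⟨nat_lit 7, [⟨nat_lit 0, nat_lit 11568, nat_lit 10992, nat_lit 15312, nat_lit 12528, nat_lit 15312, R5_319, R2_261, R7_319⟩, ⟨nat_lit 3, nat_lit 11712, nat_lit 11040, nat_lit 15504, nat_lit 13872, nat_lit 5856, R5_323, R1_289, R14_122⟩]⟩]⟩]]], [[[⟨nat_lit 0, [⟨nat_lit 2, [⟨nat_lit 6, nat_lit 240,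 nat_lit 9456, nat_lit 13632, nat_lit 9792, nat_lit 7296, R3_284, R4_204, R7_152⟩]⟩, ⟨nat_lit 6, [⟨nat_lit 4, nat_lit 1392, nat_lit 1632, nat_lit 1392, nat_lit 7584, nat_lit 7584, R2_29, R6_158, R6_158⟩, ⟨nat_lit 6, nat_lit 2016, nat_lit 9504, nat_lit 2016, nat_lit 8208, nat_lit 8208, R2_42, R4_171, R4_171⟩]⟩]⟩,
 ⟨nat_lit 1, [⟨nat_lit 2, [⟨nat_lit 6, nat_lit 288, nat_lit 9984, nat_lit 1584, nat_lit 6096, nat_lit 7344, R10_33, R5_127, R7_153⟩]⟩, ⟨nat_lit 6, [⟨nat_lit 4, nat_lit 1488, nat_lit 2352, nat_lit 864, nat_lit 1920, nat_lit 7680, R1_18, R8_40, R6_160⟩, ⟨nat_lit 6, nat_lit 2064, nat_lit 10032, nat_lit 1488, nat_lit 6192, nat_lit 8256, R1_31, R5_129, R4_172⟩]⟩]⟩,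
 ⟨nat_lit 2, [⟨nat_lit 6, [⟨nat_lit 4, nat_lit 1440, nat_lit 2832, nat_lit 6720, nat_lit 3408, nat_lit 7632, R12_140, R4_71, R6_159⟩]⟩]⟩], [⟨nat_lit 0, [⟨nat_lit 2, [⟨nat_lit 6, nat_lit 5952, nat_lit 768, nat_lit 13680, nat_lit 10272, nat_lit 5520, R3_285, R4_214, R2_115⟩]⟩]⟩,
 ⟨nat_lit 1, [⟨nat_lit 2, [⟨nat_lit 6, nat_lit 6000, nat_lit 7728, nat_lit 1680, nat_lit 7008, nat_lit 5568, R10_35, R5_146, R2_116⟩]⟩]⟩], [⟨nat_lit 0, [⟨nat_lit 2, [⟨nat_lit 6, nat_lit 7248, nat_lit 1728, nat_lit 13776, nat_lit 10176, nat_lit 7152, R3_287, R4_212, R2_149⟩]⟩, ⟨nat_lit 6, [⟨nat_lit 4, nat_lit 8448, nat_lit 912, nat_lit 1584, nat_lit 8016, nat_lit 9936, R2_33, R6_167, R13_207⟩, ⟨nat_lit 5, nat_lit 9216, nat_lit 1344, nat_lit 2544, nat_lit 6528, nat_lit 7776, R2_53, R8_136, R3_162⟩, ⟨nat_lit 6, nat_lit 9792, nat_lit 1632,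 nat_lit 2160, nat_lit 8448, nat_lit 12912, R2_45, R4_176, R3_269⟩]⟩]⟩,
 ⟨nat_lit 1, [⟨nat_lit 2, [⟨nat_lit 6, nat_lit 7296, nat_lit 7632, nat_lit 1824, nat_lit 6624, nat_lit 7200, R10_38, R5_138, R2_150⟩]⟩, ⟨nat_lit 6, [⟨nat_lit 4, nat_lit 8544, nat_lit 6336, nat_lit 1056, nat_lit 6432, nat_lit 10032, R1_22, R8_134, R13_209⟩, ⟨nat_lit 5, nat_lit 9312, nat_lit 7200, nat_lit 2016, nat_lit 6624, nat_lit 7872, R1_42, R9_138, R3_164⟩, ⟨nat_lit 6, nat_lit 9840, nat_lit 7536, nat_lit 1632, nat_lit 6720, nat_lit 13008, R1_34, R5_140, R3_271⟩]⟩]⟩,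
 ⟨nat_lit 2, [⟨nat_lit 6, [⟨nat_lit 4, nat_lit 8496, nat_lit 10320, nat_lit 7200, nat_lit 9456, nat_lit 9984, R12_150, R4_197, R13_208⟩, ⟨nat_lit 5, nat_lit 9264, nat_lit 10656, nat_lit 7248, nat_lit 6576, nat_lit 7824, R12_151, R5_137, R3_163⟩]⟩]⟩]], [[⟨nat_lit 1, [⟨nat_lit 2, [⟨nat_lit 6, nat_lit 336, nat_lit 3120, nat_lit 7776, nat_lit 5712, nat_lit 7536, R10_162, R11_119, R7_157⟩]⟩, ⟨nat_lit 6, [⟨nat_lit 4, nat_lit 1536, nat_lit 336, nat_lit 6288, nat_lit 14448, nat_lit 8160, R1_131, R5_301, R6_170⟩, ⟨nat_lit 6, nat_lit 2112, nat_lit 720, nat_lit 6912, nat_lit 5808, nat_lit 8544, R1_144, R11_121, R4_178⟩]⟩]⟩], [⟨nat_lit 1, [⟨nat_lit 2, [⟨nat_lit 6, nat_lit 6048, nat_lit 3120, nat_lit 7872, nat_lit 6624, nat_lit 5760, R10_164, R11_138, R2_120⟩]⟩]⟩], [⟨nat_lit 1, [⟨nat_lit 2, [⟨nat_lit 6, nat_lit 7344, nat_lit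 5472, nat_lit 8016, nat_lit 6240, nat_lit 7392, R10_167, R11_130, R2_154⟩]⟩, ⟨nat_lit 6, [⟨nat_lit 4, nat_lit 8592, nat_lit 4176, nat_lit 6480, nat_lit 14640, nat_lit 10368, R1_135, R5_305, R13_216⟩, ⟨nat_lit 5, nat_lit 9504, nat_lit 5040, nat_lit 7392, nat_lit 4464, nat_lit 8496, R1_154, R0_93, R3_177⟩, ⟨nat_lit 6, nat_lit 9888, nat_lit 5376, nat_lit 7056, nat_lit 6336, nat_lit 13056, R1_147, R11_132, R3_272⟩]⟩]⟩]], [[], [], [⟨nat_lit 0, [⟨nat_lit 6, [⟨nat_lit 5, nat_lit 9360, nat_lit 4080, nat_lit 11280, nat_lit 15408, nat_lit 8064, R2_235, R5_321, R3_168⟩]⟩]⟩,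
 ⟨nat_lit 1, [⟨nat_lit 6, [⟨nat_lit 5, nat_lit 9456, nat_lit 4800, nat_lit 11856, nat_lit 4368, nat_lit 8160, R1_247, R0_91, R3_170⟩]⟩]⟩,
 ⟨nat_lit 2, [⟨nat_lit 6, [⟨nat_lit 5, nat_lit 9408, nat_lit 5280, nat_lit 9120, nat_lit 19728, nat_lit 8112, R12_190, R11_411, R3_169⟩]⟩]⟩]], [[⟨nat_lit 0, [⟨nat_lit 2, [⟨nat_lit 6, nat_lit 384, nat_lit 3216, nat_lit 14400, nat_lit 14496, nat_lit 7392, R3_300, R3_302, R7_154⟩]⟩, ⟨nat_lit 6, [⟨nat_lit 4, nat_lit 1584, nat_lit 912, nat_lit 8448, nat_lit 17088, nat_lit 8016, R2_176, R13_356, R6_167⟩, ⟨nat_lit 6, nat_lit 2160, nat_lit 1632, nat_lit 9792, nat_lit 12912, nat_lit 8448, R2_204, R3_269, R4_176⟩, ⟨nat_lit 7, nat_lit 2544, nat_lit 1344, nat_lit 9216, nat_lit 7776, nat_lit 6528, R2_192, R3_162, R8_136⟩]⟩]⟩,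
 ⟨nat_lit 1, [⟨nat_lit 2, [⟨nat_lit 6, nat_lit 432, nat_lit 3312, nat_lit 11376, nat_lit 11328, nat_lit 7488, R10_237, R0_236, R7_156⟩]⟩, ⟨nat_lit 6, [⟨nat_lit 4, nat_lit 1680, nat_lit 960, nat_lit 9264, nat_lit 13440, nat_lit 8112, R1_193, R9_280, R6_169⟩, ⟨nat_lit 6, nat_lit 2208, nat_lit 1680, nat_lit 10608, nat_lit 11568, nat_lit 8496, R1_221, R0_241, R4_177⟩, ⟨nat_lit 7, nat_lit 2640, nat_lit 1392, nat_lit 10032, nat_lit 768, nat_lit 6624, R1_209, R0_16, R8_138⟩]⟩]⟩,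
 ⟨nat_lit 2, [⟨nat_lit 6, [⟨nat_lit 4, nat_lit 1632, nat_lit 1008, nat_lit 8064, nat_lit 11808, nat_lit 8064, R12_168, R3_246, R6_168⟩, ⟨nat_lit 7, nat_lit 2592, nat_lit 1440, nat_lit 8112, nat_lit 16704, nat_lit 6576, R12_169, R10_348, R8_137⟩]⟩]⟩,
 ⟨nat_lit 3, [⟨nat_lit 2, [⟨nat_lit 6, nat_lit 480, nat_lit 3264, nat_lit 11376, nat_lit 13392, nat_lit 7440, R0_237, R10_279, R7_155⟩]⟩]⟩], [⟨nat_lit 0, [⟨nat_lit 2, [⟨nat_lit 6, nat_lit 6096, nat_lit 1680, nat_lit 14448, nat_lit 14544, nat_lit 5616, R3_301, R3_303, R2_117⟩]⟩]⟩,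
 ⟨nat_lit 1, [⟨nat_lit 2, [⟨nat_lit 6, nat_lit 6144, nat_lit 1776, nat_lit 11520, nat_lit 11472, nat_lit 5712, R10_240, R0_239, R2_119⟩]⟩]⟩,
 ⟨nat_lit 3, [⟨nat_lit 2, [⟨nat_lit 6, nat_lit 6192, nat_lit 1728, nat_lit 11424, nat_lit 13920, nat_lit 5664, R0_238, R10_290, R2_118⟩]⟩]⟩]]], [[[⟨nat_lit 2, [⟨nat_lit 6, [⟨nat_lit 4, nat_lit 1296, nat_lit 2352, nat_lit 2784, nat_lit 3456, nat_lit 7536, R12_58, R4_72, R6_157⟩]⟩]⟩], [], [⟨nat_lit 2, [⟨nat_lit 4, [⟨nat_lit 4, nat_lit 7536, nat_lit 432, nat_lit 14448, nat_lit 8832, nat_lit 12432, R2_301, R4_184, R6_259⟩, ⟨nat_lit 5, nat_lit 7824, nat_lit 7392, nat_lit 14736, nat_lit 6912, nat_lit 12720, R2_307, R5_144, R4_265⟩]⟩, ⟨nat_lit 6, [⟨nat_lit 4, nat_lit 8352, nat_lit 480, nat_lit 4128, nat_lit 9504, nat_lit 9888, R12_86, R4_198, R13_206⟩, ⟨nat_lit 5, nat_lit 9072,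 nat_lit 7440, nat_lit 4176, nat_lit 6960, nat_lit 7728, R12_87, R5_145, R3_161⟩]⟩]⟩]], [], [[], [], [⟨nat_lit 2, [⟨nat_lit 4, [⟨nat_lit 5, nat_lit 7872, nat_lit 15696, nat_lit 14880, nat_lit 18864, nat_lit 12768, R2_310, R11_393, R4_266⟩]⟩, ⟨nat_lit 6, [⟨nat_lit 5, nat_lit 9120, nat_lit 16848, nat_lit 5520, nat_lit 20400, nat_lit 8016, R12_115, R11_425, R3_167⟩]⟩]⟩], [], [], [], [⟨nat_lit 2, [⟨nat_lit 4, [⟨nat_lit 1, nat_lit 14016, nat_lit 10896, nat_lit 10848, nat_lit 13728, nat_lit 13872, R2_226, R1_286, R4_289⟩, ⟨nat_lit 5, nat_lit 14064, nat_lit 10944, nat_lit 10656, nat_lit 18912, nat_lit 15120, R2_222, R11_394, R7_315⟩]⟩, ⟨nat_lit 5, [⟨nat_lit 1, nat_lit 14256, nat_lit 10992, nat_lit 11232, nat_lit 13776, nat_lit 15696, R1_234, R1_287, R3_327⟩, ⟨nat_lit 5, nat_lit 14304, nat_lit 11040, nat_lit 11040, nat_lit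 21024, nat_lit 14304, R1_230, R11_438, R2_298⟩]⟩, ⟨nat_lit 6, [⟨nat_lit 5, nat_lit 14352, nat_lit 11088, nat_lit 6384, nat_lit 20448, nat_lit 12768, R12_133, R11_426, R2_266⟩]⟩]⟩]], [[⟨nat_lit 2, [⟨nat_lit 4, [⟨nat_lit 7, nat_lit 960, nat_lit 576, nat_lit 11952, nat_lit 15360, nat_lit 6336, R2_249, R10_320, R6_132⟩]⟩, ⟨nat_lit 6, [⟨nat_lit 4, nat_lit 1344, nat_lit 2160, nat_lit 3168, nat_lit 11856, nat_lit 7824, R12_66, R3_247, R6_163⟩, ⟨nat_lit 7, nat_lit 2496, nat_lit 2688, nat_lit 3216, nat_lit 18048, nat_lit 5808, R12_67, R10_376, R8_121⟩]⟩]⟩], [], [⟨nat_lit 2, [⟨nat_lit 4, [⟨nat_lit 4, nat_lit 7584, nat_lit 9312, nat_lit 14544, nat_lit 11328, nat_lit 12480, R2_303, R3_236, R6_260⟩, ⟨nat_lit 5, nat_lit 7920, nat_lit 9408, nat_lit 14784, nat_lit 12624, nat_lit 12816, R2_308, R0_263, R4_267⟩, ⟨nat_lit 7, nat_lit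 8064, nat_lit 9360, nat_lit 14688, nat_lit 15456, nat_lit 14784, R2_306, R10_322, R8_308⟩]⟩, ⟨nat_lit 6, [⟨nat_lit 4, nat_lit 8400, nat_lit 10512, nat_lit 4752, nat_lit 12288, nat_lit 10176, R12_99, R3_256, R13_212⟩, ⟨nat_lit 5, nat_lit 9168, nat_lit 10608, nat_lit 4848, nat_lit 13776, nat_lit 8304, R12_101, R0_287, R3_173⟩, ⟨nat_lit 7, nat_lit 10128, nat_lit 10560, nat_lit 4800, nat_lit 18144, nat_lit 7824, R12_100, R10_378, R9_163⟩]⟩]⟩], [⟨nat_lit 2, [⟨nat_lit 4, [⟨nat_lit 7, nat_lit 10896, nat_lit 12192, nat_lit 13968, nat_lit 15408, nat_lit 13824, R2_291, R10_321, R4_288⟩]⟩, ⟨nat_lit 6, [⟨nat_lit 7, nat_lit 11232, nat_lit 12912, nat_lit 3648, nat_lit 18096, nat_lit 15552, R12_76, R10_377, R5_324⟩]⟩]⟩]], [[], [], [], [], [⟨nat_lit 2, [⟨nat_lit 5, [⟨nat_lit 0, nat_lit 12192, nat_lit 432, nat_lit 96, nat_lit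 3264, nat_lit 14064, R1_2, R4_68, R6_293⟩]⟩]⟩,
 ⟨nat_lit 6, [⟨nat_lit 5, [⟨nat_lit 0, nat_lit 12144, nat_lit 384, nat_lit 14928, nat_lit 2928, nat_lit 14112, R10_311, R7_61, R6_294⟩]⟩]⟩], [], [], [⟨nat_lit 2, [⟨nat_lit 4, [⟨nat_lit 0, nat_lit 14448, nat_lit 432, nat_lit 7536, nat_lit 8832, nat_lit 12432, R2_157, R4_184, R6_259⟩, ⟨nat_lit 3, nat_lit 14736, nat_lit 7392, nat_lit 7824, nat_lit 6912, nat_lit 12720, R2_163, R5_144, R4_265⟩]⟩, ⟨nat_lit 5, [⟨nat_lit 0, nat_lit 15024, nat_lit 528, nat_lit 8064, nat_lit 9168, nat_lit 14832, R1_168, R4_191, R8_309⟩, ⟨nat_lit 3, nat_lit 15360, nat_lit 7488, nat_lit 8352, nat_lit 7200, nat_lit 16656, R1_174, R5_150, R5_347⟩]⟩]⟩,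
 ⟨nat_lit 6, [⟨nat_lit 4, [⟨nat_lit 0, nat_lit 14400, nat_lit 2544, nat_lit 11088, nat_lit 8736, nat_lit 13152, R3_231, R7_182, R6_274⟩]⟩, ⟨nat_lit 5, [⟨nat_lit 0, nat_lit 14976, nat_lit 2928, nat_lit 14976, nat_lit 9024, nat_lit 14880, R10_312, R7_188, R8_310⟩]⟩, ⟨nat_lit 7, [⟨nat_lit 0, nat_lit 15552, nat_lit 2736, nat_lit 12336, nat_lit 8928, nat_lit 12528, R0_257, R7_186, R4_261⟩]⟩]⟩]], [], [[], [], [], [], [⟨nat_lit 2, [⟨nat_lit 4, [⟨nat_lit 1, nat_lit 11952, nat_lit 576, nat_lit 960, nat_lit 15360, nat_lit 14016, R2_20, R10_320, R6_292⟩]⟩, ⟨nat_lit 5, [⟨nat_lit 0, nat_lit 12288, nat_lit 3648, nat_lit 144, nat_lit 15984, nat_lit 14208, R1_3, R3_333, R6_296⟩, ⟨nat_lit 1, nat_lit 12432, nat_lit 4176, nat_lit 288, nat_lit 15504, nat_lit 19584, R1_6, R10_323, R13_408⟩]⟩]⟩,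
 ⟨nat_lit 6, [⟨nat_lit 4, [⟨nat_lit 1, nat_lit 11904, nat_lit 624, nat_lit 15936, nat_lit 192, nat_lit 13968, R3_332, R1_4, R6_291⟩]⟩, ⟨nat_lit 5, [⟨nat_lit 0, nat_lit 12240, nat_lit 3696, nat_lit 15072, nat_lit 1056, nat_lit 14256, R10_314, R2_22, R6_297⟩, ⟨nat_lit 1, nat_lit 12384, nat_lit 4224, nat_lit 15216, nat_lit 384, nat_lit 19536, R10_317, R1_8, R13_407⟩]⟩]⟩], [], [⟨nat_lit 2, [⟨nat_lit 4, [⟨nat_lit 1, nat_lit 13968, nat_lit 12192, nat_lit 10896, nat_lit 15408, nat_lit 13824, R2_227, R10_321, R4_288⟩]⟩, ⟨nat_lit 5, [⟨nat_lit 1, nat_lit 14208, nat_lit 12288, nat_lit 11280, nat_lit 15552, nat_lit 15744, R1_235, R10_324, R3_328⟩]⟩]⟩,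
 ⟨nat_lit 6, [⟨nat_lit 4, [⟨nat_lit 1, nat_lit 13920, nat_lit 12240, nat_lit 16704, nat_lit 5904, nat_lit 13776, R3_348, R1_123, R4_287⟩]⟩, ⟨nat_lit 5, [⟨nat_lit 1, nat_lit 14160, nat_lit 12336, nat_lit 15312, nat_lit 6048, nat_lit 15792, R10_319, R1_126, R3_329⟩]⟩]⟩], [⟨nat_lit 2, [⟨nat_lit 4, [⟨nat_lit 0, nat_lit 14544, nat_lit 9312, nat_lit 7584, nat_lit 11328, nat_lit 12480, R2_158, R3_236, R6_260⟩, ⟨nat_lit 1, nat_lit 14688, nat_lit 9360, nat_lit 8064, nat_lit 15456, nat_lit 14784, R2_168, R10_322, R8_308⟩, ⟨nat_lit 3, nat_lit 14784, nat_lit 9408, nat_lit 7920, nat_lit 12624, nat_lit 12816, R2_165, R0_263, R4_267⟩]⟩, ⟨nat_lit 5, [⟨nat_lit 0, nat_lit 15120, nat_lit 9552, nat_lit 8112, nat_lit 16320, nat_lit 14928, R1_169, R3_340, R8_311⟩, ⟨nat_lit 1, nat_lit 15264, nat_lit 9600, nat_lit 8592, nat_lit 15600,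 nat_lit 15840, R1_179, R10_325, R9_330⟩, ⟨nat_lit 3, nat_lit 15408, nat_lit 9648, nat_lit 8448, nat_lit 12672, nat_lit 16704, R1_176, R0_264, R5_348⟩]⟩]⟩,
 ⟨nat_lit 6, [⟨nat_lit 4, [⟨nat_lit 0, nat_lit 14496, nat_lit 9456, nat_lit 11280, nat_lit 7632, nat_lit 13248, R3_235, R2_159, R6_276⟩, ⟨nat_lit 1, nat_lit 14640, nat_lit 9504, nat_lit 16272, nat_lit 8160, nat_lit 14736, R3_339, R1_170, R8_307⟩]⟩, ⟨nat_lit 5, [⟨nat_lit 0, nat_lit 15072, nat_lit 9696, nat_lit 15120, nat_lit 8112, nat_lit 14976, R10_315, R2_169, R8_312⟩, ⟨nat_lit 1, nat_lit 15216, nat_lit 9744, nat_lit 15264, nat_lit 8640, nat_lit 15792, R10_318, R1_180, R9_329⟩]⟩, ⟨nat_lit 7, [⟨nat_lit 0, nat_lit 15600, nat_lit 9792, nat_lit 12480, nat_lit 7968, nat_lit 12864, R0_260, R2_166, R4_268⟩, ⟨nat_lit 1, nat_lit 15696, nat_lit 9840, nat_lit 12576,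 nat_lit 8496, nat_lit 16800, R0_262, R1_177, R5_350⟩]⟩]⟩]], [[], [], [], [⟨nat_lit 2, [⟨nat_lit 4, [⟨nat_lit 3, nat_lit 10656, nat_lit 10944, nat_lit 14064, nat_lit 18912, nat_lit 15120, R2_293, R11_394, R7_315⟩, ⟨nat_lit 7, nat_lit 10848, nat_lit 10896, nat_lit 14016, nat_lit 13728, nat_lit 13872, R2_292, R1_286, R4_289⟩]⟩, ⟨nat_lit 6, [⟨nat_lit 7, nat_lit 11184, nat_lit 12144, nat_lit 3840, nat_lit 15072, nat_lit 15600, R12_80, R1_314, R5_325⟩]⟩]⟩,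
 ⟨nat_lit 6, [⟨nat_lit 4, [⟨nat_lit 3, nat_lit 10608, nat_lit 11136, nat_lit 15360, nat_lit 13152, nat_lit 15072, R3_320, R1_274, R7_314⟩]⟩, ⟨nat_lit 7, [⟨nat_lit 0, nat_lit 11616, nat_lit 11568, nat_lit 12432, nat_lit 12720, nat_lit 15408, R0_259, R2_265, R7_321⟩, ⟨nat_lit 3, nat_lit 11760, nat_lit 11616, nat_lit 12528, nat_lit 14064, nat_lit 5904, R0_261, R1_293, R14_123⟩]⟩]⟩], [], [], [], [⟨nat_lit 2, [⟨nat_lit 4, [⟨nat_lit 3, nat_lit 14880, nat_lit 15696, nat_lit 7872, nat_lit 18864, nat_lit 12768, R2_164, R11_393, R4_266⟩]⟩, ⟨nat_lit 5, [⟨nat_lit 3, nat_lit 15504, nat_lit 15840, nat_lit 8400, nat_lit 19056, nat_lit 16752, R1_175, R11_397, R5_349⟩]⟩]⟩,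
 ⟨nat_lit 6, [⟨nat_lit 4, [⟨nat_lit 0, nat_lit 14592, nat_lit 15744, nat_lit 11184, nat_lit 3216, nat_lit 13200, R3_233, R2_67, R6_275⟩, ⟨nat_lit 3, nat_lit 14832, nat_lit 15792, nat_lit 15216, nat_lit 2688, nat_lit 13200, R3_317, R1_56, R4_275⟩]⟩, ⟨nat_lit 5, [⟨nat_lit 0, nat_lit 15168, nat_lit 15888, nat_lit 15024, nat_lit 6432, nat_lit 15024, R10_313, R2_134, R8_313⟩, ⟨nat_lit 3, nat_lit 15456, nat_lit 15936, nat_lit 15168, nat_lit 5136, nat_lit 16608, R10_316, R1_107, R5_346⟩]⟩, ⟨nat_lit 7, [⟨nat_lit 0, nat_lit 15648, nat_lit 15984, nat_lit 12384, nat_lit 4080, nat_lit 13008, R0_258, R2_85, R4_271⟩]⟩]⟩]]], [[], [], [], [[⟨nat_lit 0, [⟨nat_lit 6, [⟨nat_lit 4, nat_lit 1776, nat_lit 2064, nat_lit 3360, nat_lit 17712, nat_lit 7872, R2_70, R13_369, R6_164⟩, ⟨nat_lit 6, nat_lit 2304, nat_lit 9696, nat_lit 4800,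 nat_lit 13248, nat_lit 8352, R2_100, R3_276, R4_174⟩, ⟨nat_lit 7, nat_lit 2832, nat_lit 7008, nat_lit 4224, nat_lit 6480, nat_lit 6048, R2_88, R3_135, R8_126⟩]⟩]⟩,
 ⟨nat_lit 2, [⟨nat_lit 4, [⟨nat_lit 7, nat_lit 1056, nat_lit 3696, nat_lit 12240, nat_lit 15072, nat_lit 6720, R2_255, R10_314, R6_140⟩]⟩, ⟨nat_lit 6, [⟨nat_lit 4, nat_lit 1824, nat_lit 2208, nat_lit 3024, nat_lit 11760, nat_lit 7920, R12_63, R3_245, R6_165⟩, ⟨nat_lit 7, nat_lit 2880, nat_lit 7104, nat_lit 3264, nat_lit 17568, nat_lit 6096, R12_68, R10_366, R8_127⟩]⟩, ⟨nat_lit 7, [⟨nat_lit 7, nat_lit 3072, nat_lit 4848, nat_lit 12816, nat_lit 18576, nat_lit 7008, R1_267, R10_387, R4_146⟩]⟩]⟩,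
 ⟨nat_lit 3, [⟨nat_lit 2, [⟨nat_lit 6, nat_lit 624, nat_lit 10752, nat_lit 4896, nat_lit 13344, nat_lit 7152, R11_102, R10_278, R7_149⟩]⟩, ⟨nat_lit 6, [⟨nat_lit 4, nat_lit 1872, nat_lit 2112, nat_lit 2832, nat_lit 3120, nat_lit 7968, R1_59, R3_65, R6_166⟩, ⟨nat_lit 6, nat_lit 2352, nat_lit 9792, nat_lit 3504, nat_lit 14016, nat_lit 8400, R1_73, R10_292, R4_175⟩]⟩]⟩], [⟨nat_lit 3, [⟨nat_lit 2, [⟨nat_lit 6, nat_lit 6336, nat_lit 2352, nat_lit 5136, nat_lit 13872, nat_lit 5376, R11_107, R10_289, R2_112⟩]⟩]⟩], [⟨nat_lit 0, [⟨nat_lit 6, [⟨nat_lit 4, nat_lit 8640, nat_lit 1296, nat_lit 3648, nat_lit 17760, nat_lit 10224, R2_76, R13_370, R13_213⟩, ⟨nat_lit 5, nat_lit 9552, nat_lit 1536, nat_lit 6624, nat_lit 14736, nat_lit 8352, R2_138, R9_307, R3_174⟩, ⟨nat_lit 6, nat_lit 9936, nat_lit 1824, nat_lit 4992, nat_lit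 13296, nat_lit 12864, R2_104, R3_277, R3_268⟩, ⟨nat_lit 7, nat_lit 10176, nat_lit 1440, nat_lit 4512, nat_lit 6864, nat_lit 7872, R2_94, R3_143, R9_164⟩]⟩]⟩,
 ⟨nat_lit 2, [⟨nat_lit 4, [⟨nat_lit 4, nat_lit 7632, nat_lit 9456, nat_lit 14496, nat_lit 11280, nat_lit 12528, R2_302, R3_235, R6_261⟩, ⟨nat_lit 5, nat_lit 7968, nat_lit 9792, nat_lit 15600, nat_lit 12480, nat_lit 12864, R2_325, R0_260, R4_268⟩, ⟨nat_lit 7, nat_lit 8112, nat_lit 9696, nat_lit 15072, nat_lit 15120, nat_lit 14976, R2_314, R10_315, R8_312⟩]⟩, ⟨nat_lit 6, [⟨nat_lit 4, nat_lit 8688, nat_lit 10656, nat_lit 4608, nat_lit 12240, nat_lit 10272, R12_96, R3_255, R13_214⟩, ⟨nat_lit 5, nat_lit 9600, nat_lit 10992, nat_lit 5232, nat_lit 13440, nat_lit 8400, R12_109, R0_280, R3_175⟩, ⟨nat_lit 7, nat_lit 10224, nat_lit 10896, nat_lit 4896, nat_lit 17616,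 nat_lit 7920, R12_102, R10_367, R9_165⟩]⟩, ⟨nat_lit 7, [⟨nat_lit 7, nat_lit 10272, nat_lit 10176, nat_lit 16080, nat_lit 18624, nat_lit 7872, R1_335, R10_388, R5_164⟩]⟩]⟩,
 ⟨nat_lit 3, [⟨nat_lit 2, [⟨nat_lit 6, nat_lit 7392, nat_lit 5472, nat_lit 6240, nat_lit 13776, nat_lit 7344, R11_130, R10_287, R2_153⟩]⟩, ⟨nat_lit 6, [⟨nat_lit 4, nat_lit 8736, nat_lit 6432, nat_lit 3120, nat_lit 9024, nat_lit 10320, R1_65, R3_188, R13_215⟩, ⟨nat_lit 5, nat_lit 9648, nat_lit 6576, nat_lit 5328, nat_lit 3792, nat_lit 8448, R1_111, R0_79, R3_176⟩, ⟨nat_lit 6, nat_lit 9984, nat_lit 6864, nat_lit 3696, nat_lit 14208, nat_lit 12960, R1_77, R10_296, R3_270⟩]⟩]⟩]], [], [], [], [[⟨nat_lit 0, [⟨nat_lit 6, [⟨nat_lit 7, nat_lit 2688, nat_lit 720, nat_lit 12912, nat_lit 13056, nat_lit 6144, R2_269, R2_272, R8_128⟩]⟩]⟩,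
 ⟨nat_lit 2, [⟨nat_lit 4, [⟨nat_lit 7, nat_lit 1008, nat_lit 0, nat_lit 12048, nat_lit 13440, nat_lit 6768, R2_251, R1_280, R6_141⟩]⟩, ⟨nat_lit 6, [⟨nat_lit 7, nat_lit 2736, nat_lit 816, nat_lit 13680, nat_lit 14400, nat_lit 6240, R12_285, R1_300, R8_130⟩]⟩, ⟨nat_lit 7, [⟨nat_lit 3, nat_lit 2976, nat_lit 528, nat_lit 12384, nat_lit 18960, nat_lit 7248, R1_258, R11_395, R7_151⟩, ⟨nat_lit 7, nat_lit 3024, nat_lit 48, nat_lit 12624, nat_lit 15360, nat_lit 7344, R1_263, R1_320, R4_153⟩]⟩]⟩,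
 ⟨nat_lit 3, [⟨nat_lit 2, [⟨nat_lit 6, nat_lit 576, nat_lit 2928, nat_lit 18672, nat_lit 12432, nat_lit 7200, R11_389, R1_259, R7_150⟩]⟩, ⟨nat_lit 6, [⟨nat_lit 4, nat_lit 1728, nat_lit 672, nat_lit 13296, nat_lit 12096, nat_lit 7392, R1_277, R2_252, R6_154⟩, ⟨nat_lit 6, nat_lit 2256, nat_lit 864, nat_lit 15264, nat_lit 12672, nat_lit 8112, R1_318, R1_264, R4_169⟩, ⟨nat_lit 7, nat_lit 2784, nat_lit 768, nat_lit 14256, nat_lit 13824, nat_lit 6192, R1_297, R12_288, R8_129⟩]⟩]⟩,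
 ⟨nat_lit 4, [⟨nat_lit 3, [⟨nat_lit 2, nat_lit 720, nat_lit 2688, nat_lit 12912, nat_lit 13056, nat_lit 6144, R2_269, R2_272, R8_128⟩]⟩]⟩,
 ⟨nat_lit 6, [⟨nat_lit 3, [⟨nat_lit 0, nat_lit 672, nat_lit 1728, nat_lit 13296, nat_lit 12096, nat_lit 7392, R1_277, R2_252, R6_154⟩, ⟨nat_lit 2, nat_lit 768, nat_lit 2784, nat_lit 14256, nat_lit 13824, nat_lit 6192, R1_297, R12_288, R8_129⟩, ⟨nat_lit 3, nat_lit 864, nat_lit 2256, nat_lit 15264, nat_lit 12672, nat_lit 8112, R1_318, R1_264, R4_169⟩]⟩, ⟨nat_lit 7, [⟨nat_lit 3, nat_lit 2928, nat_lit 576, nat_lit 18672, nat_lit 12432, nat_lit 7200, R11_389, R1_259, R7_150⟩]⟩]⟩,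
 ⟨nat_lit 7, [⟨nat_lit 0, [⟨nat_lit 2, nat_lit 0, nat_lit 1008, nat_lit 12048, nat_lit 13440, nat_lit 6768, R2_251, R1_280, R6_141⟩]⟩, ⟨nat_lit 2, [⟨nat_lit 2, nat_lit 48, nat_lit 3024, nat_lit 12624, nat_lit 15360, nat_lit 7344, R1_263, R1_320, R4_153⟩, ⟨nat_lit 6, nat_lit 528, nat_lit 2976, nat_lit 12384, nat_lit 18960, nat_lit 7248, R1_258, R11_395, R7_151⟩]⟩, ⟨nat_lit 3, [⟨nat_lit 2, nat_lit 816, nat_lit 2736, nat_lit 13680, nat_lit 14400, nat_lit 6240, R12_285, R1_300, R8_130⟩]⟩]⟩], [⟨nat_lit 3, [⟨nat_lit 2, [⟨nat_lit 6, nat_lit 6288, nat_lit 2400, nat_lit 20784, nat_lit 12528, nat_lit 5424, R11_433, R1_261, R2_113⟩]⟩]⟩,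
 ⟨nat_lit 4, [⟨nat_lit 3, [⟨nat_lit 2, nat_lit 6864, nat_lit 2160, nat_lit 13008, nat_lit 13584, nat_lit 5616, R2_271, R2_283, R9_117⟩]⟩]⟩,
 ⟨nat_lit 6, [⟨nat_lit 3, [⟨nat_lit 0, nat_lit 6480, nat_lit 1200, nat_lit 13392, nat_lit 14928, nat_lit 15072, R1_279, R2_311, R8_314⟩, ⟨nat_lit 2, nat_lit 6912, nat_lit 2256, nat_lit 14352, nat_lit 14736, nat_lit 5664, R1_299, R12_307, R9_118⟩, ⟨nat_lit 3, nat_lit 7056, nat_lit 1728, nat_lit 15312, nat_lit 15936, nat_lit 5904, R1_319, R1_332, R5_123⟩]⟩]⟩,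
 ⟨nat_lit 7, [⟨nat_lit 0, [⟨nat_lit 2, nat_lit 3936, nat_lit 336, nat_lit 12336, nat_lit 13584, nat_lit 7680, R2_257, R1_283, R13_160⟩]⟩, ⟨nat_lit 2, [⟨nat_lit 2, nat_lit 5184, nat_lit 2496, nat_lit 12912, nat_lit 15456, nat_lit 13392, R1_269, R1_322, R3_279⟩, ⟨nat_lit 6, nat_lit 6240, nat_lit 2448, nat_lit 12480, nat_lit 21072, nat_lit 5472, R1_260, R11_439, R2_114⟩]⟩, ⟨nat_lit 3, [⟨nat_lit 2, nat_lit 6960, nat_lit 2208, nat_lit 13728, nat_lit 14928, nat_lit 5712, R12_286, R1_311, R9_119⟩]⟩]⟩], [], [⟨nat_lit 0, [⟨nat_lit 6, [⟨nat_lit 7, nat_lit 11424, nat_lit 10080, nat_lit 13296, nat_lit 13104, nat_lit 15360, R2_277, R2_273, R5_320⟩]⟩]⟩,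
 ⟨nat_lit 2, [⟨nat_lit 4, [⟨nat_lit 3, nat_lit 10704, nat_lit 9840, nat_lit 12624, nat_lit 18816, nat_lit 15264, R2_263, R11_392, R7_318⟩, ⟨nat_lit 7, nat_lit 10944, nat_lit 9888, nat_lit 13776, nat_lit 13488, nat_lit 13968, R2_287, R1_281, R4_291⟩]⟩, ⟨nat_lit 6, [⟨nat_lit 7, nat_lit 11472, nat_lit 10176, nat_lit 14304, nat_lit 14448, nat_lit 15648, R12_298, R1_301, R5_326⟩]⟩, ⟨nat_lit 7, [⟨nat_lit 3, nat_lit 11856, nat_lit 9936, nat_lit 13968, nat_lit 19008, nat_lit 5952, R1_291, R11_396, R14_124⟩]⟩]⟩,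
 ⟨nat_lit 3, [⟨nat_lit 6, [⟨nat_lit 7, nat_lit 11520, nat_lit 10128, nat_lit 14640, nat_lit 13872, nat_lit 15744, R1_305, R12_289, R5_328⟩]⟩]⟩,
 ⟨nat_lit 4, [⟨nat_lit 3, [⟨nat_lit 2, nat_lit 10368, nat_lit 9648, nat_lit 12960, nat_lit 13440, nat_lit 15840, R2_270, R2_280, R5_330⟩]⟩]⟩,
 ⟨nat_lit 6, [⟨nat_lit 3, [⟨nat_lit 0, nat_lit 10320, nat_lit 9744, nat_lit 13344, nat_lit 13824, nat_lit 14016, R1_278, R2_288, R4_292⟩, ⟨nat_lit 2, nat_lit 10416, nat_lit 9792, nat_lit 14304, nat_lit 14496, nat_lit 15888, R1_298, R12_302, R5_331⟩]⟩, ⟨nat_lit 7, [⟨nat_lit 0, nat_lit 11664, nat_lit 9984, nat_lit 18624, nat_lit 12672, nat_lit 15360, R11_388, R2_264, R7_320⟩, ⟨nat_lit 3, nat_lit 11808, nat_lit 10032, nat_lit 18720, nat_lit 14016, nat_lit 6000, R11_390, R1_292, R14_125⟩]⟩]⟩,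
 ⟨nat_lit 7, [⟨nat_lit 3, [⟨nat_lit 2, nat_lit 10464, nat_lit 9696, nat_lit 13776, nat_lit 14784, nat_lit 15936, R12_287, R1_308, R5_332⟩]⟩]⟩]]], [[], [], [], [], [[], [⟨nat_lit 4, [⟨nat_lit 0, [⟨nat_lit 2, nat_lit 3264, nat_lit 2208, nat_lit 1728, nat_lit 3456, nat_lit 7728, R6_36, R7_72, R13_161⟩]⟩, ⟨nat_lit 1, [⟨nat_lit 2, nat_lit 4128, nat_lit 2640, nat_lit 672, nat_lit 4416, nat_lit 6384, R8_14, R7_92, R3_133⟩]⟩, ⟨nat_lit 2, [⟨nat_lit 2, nat_lit 4752, nat_lit 2928, nat_lit 1632, nat_lit 3936, nat_lit 13104, R4_34, R7_82, R3_273⟩, ⟨nat_lit 6, nat_lit 5232, nat_lit 3024, nat_lit 3696, nat_lit 3936, nat_lit 5808, R4_77, R4_82, R2_121⟩]⟩]⟩,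
 ⟨nat_lit 6, [⟨nat_lit 0, [⟨nat_lit 0, nat_lit 3120, nat_lit 10992, nat_lit 8736, nat_lit 15936, nat_lit 12576, R4_182, R7_332, R6_262⟩, ⟨nat_lit 2, nat_lit 3312, nat_lit 11088, nat_lit 9264, nat_lit 12960, nat_lit 7776, R4_193, R14_270, R13_162⟩]⟩, ⟨nat_lit 1, [⟨nat_lit 0, nat_lit 3984, nat_lit 11376, nat_lit 5184, nat_lit 16656, nat_lit 12912, R5_108, R7_347, R4_269⟩, ⟨nat_lit 2, nat_lit 4176, nat_lit 11424, nat_lit 5232, nat_lit 13008, nat_lit 6432, R5_109, R14_271, R3_134⟩]⟩]⟩], [], [], [], [⟨nat_lit 4, [⟨nat_lit 1, [⟨nat_lit 2, nat_lit 12816, nat_lit 2592, nat_lit 1008, nat_lit 4272, nat_lit 12816, R8_21, R7_89, R2_267⟩]⟩]⟩,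
 ⟨nat_lit 6, [⟨nat_lit 1, [⟨nat_lit 0, nat_lit 12480, nat_lit 11808, nat_lit 14832, nat_lit 12144, nat_lit 15168, R5_309, R7_253, R7_316⟩, ⟨nat_lit 2, nat_lit 12864, nat_lit 11904, nat_lit 14880, nat_lit 12384, nat_lit 13152, R5_310, R14_258, R2_274⟩]⟩]⟩]], [[], [⟨nat_lit 4, [⟨nat_lit 0, [⟨nat_lit 2, nat_lit 3360, nat_lit 2064, nat_lit 7872, nat_lit 1776, nat_lit 7824, R6_164, R2_37, R13_163⟩]⟩, ⟨nat_lit 1, [⟨nat_lit 2, nat_lit 4224, nat_lit 7008, nat_lit 6048, nat_lit 2832, nat_lit 6480, R8_126, R2_59, R3_135⟩]⟩, ⟨nat_lit 2, [⟨nat_lit 2, nat_lit 4800, nat_lit 9696, nat_lit 8352, nat_lit 2304, nat_lit 13248, R4_174, R2_48, R3_276⟩, ⟨nat_lit 6, nat_lit 5280, nat_lit 9648, nat_lit 10032, nat_lit 13824, nat_lit 5856, R4_209, R3_288, R2_122⟩]⟩]⟩,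
 ⟨nat_lit 5, [⟨nat_lit 0, [⟨nat_lit 2, nat_lit 3456, nat_lit 2304, nat_lit 5568, nat_lit 1248, nat_lit 7920, R8_116, R1_26, R13_165⟩]⟩, ⟨nat_lit 1, [⟨nat_lit 2, nat_lit 4320, nat_lit 7200, nat_lit 5280, nat_lit 2304, nat_lit 6576, R9_110, R1_48, R3_137⟩]⟩, ⟨nat_lit 2, [⟨nat_lit 2, nat_lit 4848, nat_lit 9936, nat_lit 5664, nat_lit 1776, nat_lit 13440, R5_118, R1_37, R3_280⟩, ⟨nat_lit 6, nat_lit 5328, nat_lit 9888, nat_lit 5520, nat_lit 1920, nat_lit 5904, R5_115, R10_40, R2_123⟩]⟩]⟩,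
 ⟨nat_lit 6, [⟨nat_lit 0, [⟨nat_lit 2, nat_lit 3408, nat_lit 2784, nat_lit 9408, nat_lit 10224, nat_lit 7872, R4_196, R12_213, R13_164⟩]⟩, ⟨nat_lit 1, [⟨nat_lit 2, nat_lit 4272, nat_lit 7536, nat_lit 5424, nat_lit 10272, nat_lit 6528, R5_113, R12_214, R3_136⟩]⟩]⟩], [], [], [], [⟨nat_lit 4, [⟨nat_lit 1, [⟨nat_lit 2, nat_lit 12912, nat_lit 720, nat_lit 6144, nat_lit 2688, nat_lit 13056, R8_128, R2_56, R2_272⟩]⟩]⟩,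
 ⟨nat_lit 5, [⟨nat_lit 1, [⟨nat_lit 2, nat_lit 13008, nat_lit 6864, nat_lit 5616, nat_lit 2160, nat_lit 13584, R9_117, R1_45, R2_283⟩]⟩]⟩,
 ⟨nat_lit 6, [⟨nat_lit 1, [⟨nat_lit 2, nat_lit 12960, nat_lit 10368, nat_lit 15840, nat_lit 9648, nat_lit 13440, R5_330, R12_201, R2_280⟩]⟩]⟩]], [], [[], [], [], [], [], [⟨nat_lit 4, [⟨nat_lit 1, [⟨nat_lit 2, nat_lit 13056, nat_lit 2688, nat_lit 6912, nat_lit 720, nat_lit 12912, R8_144, R2_15, R2_269⟩]⟩]⟩,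
 ⟨nat_lit 6, [⟨nat_lit 1, [⟨nat_lit 0, nat_lit 12528, nat_lit 10992, nat_lit 15312, nat_lit 11568, nat_lit 15312, R5_319, R2_241, R7_319⟩, ⟨nat_lit 2, nat_lit 13104, nat_lit 11424, nat_lit 15360, nat_lit 2016, nat_lit 13296, R5_320, R12_42, R2_277⟩]⟩]⟩]]], [[], [[], [⟨nat_lit 1, [⟨nat_lit 2, [⟨nat_lit 6, nat_lit 5472, nat_lit 2448, nat_lit 12480, nat_lit 21072, nat_lit 6240, R1_260, R11_439, R2_130⟩]⟩]⟩,
 ⟨nat_lit 5, [⟨nat_lit 2, [⟨nat_lit 6, nat_lit 5424, nat_lit 2400, nat_lit 20784, nat_lit 12528, nat_lit 6288, R11_433, R1_261, R2_131⟩]⟩]⟩]], [], [], [], [[], [⟨nat_lit 5, [⟨nat_lit 0, [⟨nat_lit 2, nat_lit 3504, nat_lit 6000, nat_lit 14592, nat_lit 6672, nat_lit 8352, R5_304, R1_139, R13_174⟩]⟩, ⟨nat_lit 1, [⟨nat_lit 2, nat_lit 4368, nat_lit 6432, nat_lit 3120, nat_lit 7680, nat_lit 6960, R0_65, R1_160, R3_145⟩]⟩,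 ⟨nat_lit 2, [⟨nat_lit 2, nat_lit 4896, nat_lit 6720, nat_lit 5280, nat_lit 7200, nat_lit 13536, R11_110, R1_150, R3_282⟩, ⟨nat_lit 6, nat_lit 5376, nat_lit 6816, nat_lit 5136, nat_lit 8112, nat_lit 6336, R11_107, R10_169, R2_132⟩]⟩]⟩], [], [], [], [⟨nat_lit 5, [⟨nat_lit 1, [⟨nat_lit 2, nat_lit 13536, nat_lit 5568, nat_lit 3456, nat_lit 7536, nat_lit 13680, R0_72, R1_157, R2_285⟩]⟩]⟩]]], [[], [], [], [], [[], [], [], [], [⟨nat_lit 6, [⟨nat_lit 5, [⟨nat_lit 0, nat_lit 12000, nat_lit 576, nat_lit 13200, nat_lit 2880, nat_lit 14160, R1_275, R7_60, R6_295⟩]⟩]⟩], [⟨nat_lit 4, [⟨nat_lit 1, [⟨nat_lit 2, nat_lit 13152, nat_lit 12816, nat_lit 14880, nat_lit 12720, nat_lit 12864, R5_310, R7_265, R2_268⟩]⟩]⟩,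
 ⟨nat_lit 6, [⟨nat_lit 1, [⟨nat_lit 0, nat_lit 12576, nat_lit 14256, nat_lit 18384, nat_lit 12192, nat_lit 15216, R11_383, R7_254, R7_317⟩, ⟨nat_lit 2, nat_lit 13200, nat_lit 15072, nat_lit 19200, nat_lit 14448, nat_lit 13200, R11_400, R14_301, R2_275⟩]⟩, ⟨nat_lit 5, [⟨nat_lit 0, nat_lit 13728, nat_lit 14208, nat_lit 13248, nat_lit 12336, nat_lit 13920, R1_276, R7_257, R4_290⟩]⟩]⟩]], [[], [], [], [], [], [⟨nat_lit 4, [⟨nat_lit 1, [⟨nat_lit 2, nat_lit 13296, nat_lit 10080, nat_lit 15360, nat_lit 11424, nat_lit 13104, R5_320, R2_238, R2_273⟩]⟩]⟩,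
 ⟨nat_lit 5, [⟨nat_lit 1, [⟨nat_lit 2, nat_lit 13392, nat_lit 10752, nat_lit 13392, nat_lit 12000, nat_lit 13632, R0_279, R1_250, R2_284⟩]⟩]⟩,
 ⟨nat_lit 6, [⟨nat_lit 1, [⟨nat_lit 2, nat_lit 13344, nat_lit 12144, nat_lit 19680, nat_lit 11520, nat_lit 13488, R11_410, R12_240, R2_281⟩]⟩]⟩]], [[], [], [], [], [⟨nat_lit 6, [⟨nat_lit 5, [⟨nat_lit 0, nat_lit 12048, nat_lit 0, nat_lit 13440, nat_lit 1008, nat_lit 14304, R1_280, R2_21, R6_298⟩, ⟨nat_lit 1, nat_lit 12336, nat_lit 3936, nat_lit 13584, nat_lit 336, nat_lit 19488, R1_283, R1_7, R13_406⟩]⟩]⟩], [⟨nat_lit 6, [⟨nat_lit 1, [⟨nat_lit 0, nat_lit 12624, nat_lit 9840, nat_lit 18816, nat_lit 10704, nat_lit 15264, R11_392, R2_223, R7_318⟩, ⟨nat_lit 1, nat_lit 12768, nat_lit 10560, nat_lit 20976, nat_lit 11088, nat_lit 14352, R11_437, R1_231, R2_299⟩, ⟨nat_lit 2, nat_lit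 13248, nat_lit 11904, nat_lit 20352, nat_lit 11472, nat_lit 13248, R11_424, R12_239, R2_276⟩]⟩, ⟨nat_lit 5, [⟨nat_lit 0, nat_lit 13776, nat_lit 9888, nat_lit 13488, nat_lit 10944, nat_lit 13968, R1_281, R2_228, R4_291⟩, ⟨nat_lit 1, nat_lit 13872, nat_lit 10608, nat_lit 13632, nat_lit 11328, nat_lit 15648, R1_284, R1_236, R3_326⟩]⟩]⟩], [⟨nat_lit 6, [⟨nat_lit 5, [⟨nat_lit 1, nat_lit 14112, nat_lit 3408, nat_lit 13680, nat_lit 6000, nat_lit 15840, R1_285, R1_125, R3_330⟩]⟩]⟩]], [[], [], [], [], [⟨nat_lit 6, [⟨nat_lit 5, [⟨nat_lit 0, nat_lit 12096, nat_lit 1728, nat_lit 13296, nat_lit 672, nat_lit 14352, R1_277, R2_14, R6_299⟩]⟩]⟩], [⟨nat_lit 4, [⟨nat_lit 1, [⟨nat_lit 2, nat_lit 13440, nat_lit 2208, nat_lit 15840, nat_lit 10368, nat_lit 12960, R5_330, R2_216, R2_270⟩]⟩]⟩,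
 ⟨nat_lit 6, [⟨nat_lit 1, [⟨nat_lit 0, nat_lit 12672, nat_lit 9984, nat_lit 18624, nat_lit 11664, nat_lit 15360, R11_388, R2_243, R7_320⟩, ⟨nat_lit 2, nat_lit 13488, nat_lit 12000, nat_lit 20160, nat_lit 11712, nat_lit 13344, R11_420, R12_244, R2_278⟩]⟩, ⟨nat_lit 5, [⟨nat_lit 0, nat_lit 13824, nat_lit 9744, nat_lit 13344, nat_lit 10320, nat_lit 14016, R1_278, R2_215, R4_292⟩]⟩]⟩], [], [⟨nat_lit 6, [⟨nat_lit 5, [⟨nat_lit 0, nat_lit 14928, nat_lit 1200, nat_lit 13392, nat_lit 6480, nat_lit 15072, R1_279, R2_135, R8_314⟩, ⟨nat_lit 3, nat_lit 15312, nat_lit 6624, nat_lit 13536, nat_lit 5184, nat_lit 16560, R1_282, R1_108, R5_345⟩]⟩]⟩]]], [[], [], [], [], [[], [⟨nat_lit 4, [⟨nat_lit 0, [⟨nat_lit 2, nat_lit 3552, nat_lit 2592, nat_lit 16368, nat_lit 9600, nat_lit 7968, R13_341, R7_200, R13_166⟩]⟩, ⟨nat_lit 1, [⟨nat_lit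 2, nat_lit 4416, nat_lit 3024, nat_lit 14064, nat_lit 11280, nat_lit 6624, R9_293, R7_235, R3_138⟩]⟩, ⟨nat_lit 2, [⟨nat_lit 2, nat_lit 4944, nat_lit 3168, nat_lit 12432, nat_lit 10944, nat_lit 13152, R3_259, R7_228, R3_274⟩, ⟨nat_lit 6, nat_lit 5520, nat_lit 768, nat_lit 13680, nat_lit 10272, nat_lit 5952, R3_285, R4_214, R2_124⟩]⟩, ⟨nat_lit 3, [⟨nat_lit 2, nat_lit 6528, nat_lit 2784, nat_lit 1776, nat_lit 10464, nat_lit 5760, R3_37, R7_218, R9_120⟩]⟩]⟩,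
 ⟨nat_lit 6, [⟨nat_lit 0, [⟨nat_lit 0, nat_lit 3168, nat_lit 12816, nat_lit 11136, nat_lit 15984, nat_lit 12624, R3_232, R7_333, R6_263⟩, ⟨nat_lit 2, nat_lit 3600, nat_lit 13824, nat_lit 12048, nat_lit 13296, nat_lit 8016, R3_251, R14_277, R13_167⟩]⟩, ⟨nat_lit 1, [⟨nat_lit 0, nat_lit 4032, nat_lit 13056, nat_lit 12192, nat_lit 16704, nat_lit 12960, R0_254, R7_348, R4_270⟩, ⟨nat_lit 2, nat_lit 4464, nat_lit 14160, nat_lit 12768, nat_lit 13392, nat_lit 6672, R0_266, R14_279, R3_139⟩]⟩, ⟨nat_lit 3, [⟨nat_lit 0, nat_lit 6384, nat_lit 12960, nat_lit 14496, nat_lit 16224, nat_lit 14544, R10_302, R7_338, R8_303⟩, ⟨nat_lit 2, nat_lit 6576, nat_lit 14016, nat_lit 15792, nat_lit 13344, nat_lit 5808, R10_329, R14_278, R9_121⟩]⟩]⟩,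
 ⟨nat_lit 7, [⟨nat_lit 2, [⟨nat_lit 6, nat_lit 5568, nat_lit 7728, nat_lit 13584, nat_lit 7008, nat_lit 6000, R10_283, R5_146, R2_125⟩]⟩]⟩]], [[], [⟨nat_lit 4, [⟨nat_lit 0, [⟨nat_lit 2, nat_lit 3648, nat_lit 1296, nat_lit 17040, nat_lit 8640, nat_lit 8208, R13_355, R2_180, R13_171⟩]⟩, ⟨nat_lit 1, [⟨nat_lit 2, nat_lit 4512, nat_lit 1440, nat_lit 14400, nat_lit 10176, nat_lit 6864, R9_300, R2_212, R3_143⟩]⟩, ⟨nat_lit 2, [⟨nat_lit 2, nat_lit 4992, nat_lit 1824, nat_lit 12864, nat_lit 9936, nat_lit 13296, R3_268, R2_207, R3_277⟩, ⟨nat_lit 6, nat_lit 5616, nat_lit 1680, nat_lit 14448, nat_lit 14544, nat_lit 6096, R3_301, R3_303, R2_127⟩]⟩, ⟨nat_lit 3, [⟨nat_lit 2, nat_lit 6624, nat_lit 1536, nat_lit 8352, nat_lit 9552, nat_lit 5952, R3_174, R2_199, R9_124⟩]⟩]⟩,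
 ⟨nat_lit 5, [⟨nat_lit 0, [⟨nat_lit 2, nat_lit 3744, nat_lit 1344, nat_lit 13680, nat_lit 9456, nat_lit 8304, R9_285, R1_197, R13_173⟩]⟩, ⟨nat_lit 2, [⟨nat_lit 2, nat_lit 5040, nat_lit 1872, nat_lit 11808, nat_lit 10752, nat_lit 13488, R0_246, R1_224, R3_281⟩, ⟨nat_lit 6, nat_lit 5664, nat_lit 1728, nat_lit 11424, nat_lit 11664, nat_lit 6192, R0_238, R10_243, R2_129⟩]⟩, ⟨nat_lit 3, [⟨nat_lit 2, nat_lit 6720, nat_lit 1584, nat_lit 8640, nat_lit 10368, nat_lit 6048, R0_180, R1_216, R9_126⟩]⟩]⟩,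
 ⟨nat_lit 6, [⟨nat_lit 0, [⟨nat_lit 2, nat_lit 3696, nat_lit 1392, nat_lit 12144, nat_lit 10944, nat_lit 8256, R3_253, R12_228, R13_172⟩]⟩, ⟨nat_lit 1, [⟨nat_lit 2, nat_lit 4560, nat_lit 1488, nat_lit 13104, nat_lit 11040, nat_lit 6912, R0_273, R12_230, R3_144⟩]⟩, ⟨nat_lit 3, [⟨nat_lit 2, nat_lit 6672, nat_lit 1632, nat_lit 16656, nat_lit 10992, nat_lit 6000, R10_347, R12_229, R9_125⟩]⟩]⟩,
 ⟨nat_lit 7, [⟨nat_lit 2, [⟨nat_lit 6, nat_lit 5712, nat_lit 1776, nat_lit 13680, nat_lit 11472, nat_lit 6144, R10_285, R0_239, R2_128⟩]⟩]⟩]], [], [[], [⟨nat_lit 4, [⟨nat_lit 0, [⟨nat_lit 2, nat_lit 3792, nat_lit 2592, nat_lit 17664, nat_lit 3792, nat_lit 8064, R13_368, R2_79, R13_168⟩]⟩, ⟨nat_lit 1, [⟨nat_lit 2, nat_lit 4608, nat_lit 2784, nat_lit 14640, nat_lit 6768, nat_lit 6720, R9_305, R2_141, R3_140⟩]⟩, ⟨nat_lit 2, [⟨nat_lit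 2, nat_lit 5088, nat_lit 3168, nat_lit 13200, nat_lit 5088, nat_lit 13200, R3_275, R2_106, R3_275⟩]⟩, ⟨nat_lit 3, [⟨nat_lit 2, nat_lit 6768, nat_lit 3024, nat_lit 6720, nat_lit 4608, nat_lit 5856, R3_140, R2_96, R9_122⟩]⟩]⟩,
 ⟨nat_lit 6, [⟨nat_lit 0, [⟨nat_lit 0, nat_lit 3216, nat_lit 2544, nat_lit 11184, nat_lit 14592, nat_lit 12672, R3_233, R2_304, R6_264⟩, ⟨nat_lit 2, nat_lit 3840, nat_lit 2688, nat_lit 12096, nat_lit 5376, nat_lit 8112, R3_252, R12_112, R13_169⟩]⟩, ⟨nat_lit 1, [⟨nat_lit 0, nat_lit 4080, nat_lit 2736, nat_lit 12384, nat_lit 15648, nat_lit 13008, R0_258, R2_326, R4_271⟩, ⟨nat_lit 2, nat_lit 4656, nat_lit 2880, nat_lit 13344, nat_lit 5808, nat_lit 6768, R0_278, R12_121, R3_141⟩]⟩, ⟨nat_lit 3, [⟨nat_lit 0, nat_lit 6432, nat_lit 2928, nat_lit 15024, nat_lit 15168, nat_lit 15024, R10_313, R2_316,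 R8_313⟩, ⟨nat_lit 2, nat_lit 6816, nat_lit 3072, nat_lit 17520, nat_lit 5568, nat_lit 5904, R10_365, R12_116, R9_123⟩, ⟨nat_lit 3, nat_lit 7008, nat_lit 2976, nat_lit 18528, nat_lit 16176, nat_lit 5952, R10_386, R1_337, R5_124⟩]⟩]⟩,
 ⟨nat_lit 7, [⟨nat_lit 0, [⟨nat_lit 2, nat_lit 3888, nat_lit 2640, nat_lit 8976, nat_lit 3264, nat_lit 8160, R3_187, R1_68, R13_170⟩]⟩, ⟨nat_lit 1, [⟨nat_lit 2, nat_lit 4704, nat_lit 2832, nat_lit 3696, nat_lit 5472, nat_lit 6816, R0_77, R1_114, R3_142⟩]⟩, ⟨nat_lit 2, [⟨nat_lit 2, nat_lit 5136, nat_lit 3216, nat_lit 14160, nat_lit 3792, nat_lit 13344, R10_295, R1_79, R3_278⟩, ⟨nat_lit 6, nat_lit 5760, nat_lit 3120, nat_lit 13632, nat_lit 6624, nat_lit 6048, R10_284, R11_138, R2_126⟩]⟩]⟩], [], [], [], [⟨nat_lit 4, [⟨nat_lit 1, [⟨nat_lit 2, nat_lit 13584, nat_lit 2160, nat_lit 14688,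 nat_lit 6864, nat_lit 13008, R9_306, R2_143, R2_271⟩]⟩]⟩,
 ⟨nat_lit 6, [⟨nat_lit 1, [⟨nat_lit 0, nat_lit 12720, nat_lit 11568, nat_lit 12432, nat_lit 11616, nat_lit 15408, R0_259, R2_242, R7_321⟩, ⟨nat_lit 2, nat_lit 13632, nat_lit 12000, nat_lit 13392, nat_lit 6528, nat_lit 13392, R0_279, R12_136, R2_279⟩]⟩]⟩,
 ⟨nat_lit 7, [⟨nat_lit 1, [⟨nat_lit 2, nat_lit 13680, nat_lit 7536, nat_lit 3456, nat_lit 5568, nat_lit 13536, R0_72, R1_116, R2_282⟩]⟩]⟩]]]]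
noncomputable def N2445 : T3 (List N0) := [[[[⟨nat_lit 0, [⟨nat_lit 5, [⟨nat_lit 5, nat_lit 0, nat_lit 3504, nat_lit 1488, nat_lit 3936, nat_lit 1104, R6_31, R6_82, R2_23⟩]⟩]⟩,
 ⟨nat_lit 1, [⟨nat_lit 5, [⟨nat_lit 4, nat_lit 4848, nat_lit 8544, nat_lit 1008, nat_lit 10944, nat_lit 2976, R13_21, R6_228, R7_62⟩, ⟨nat_lit 5, nat_lit 4944, nat_lit 8736, nat_lit 1104, nat_lit 3744, nat_lit 1200, R13_23, R13_78, R2_25⟩]⟩]⟩], [⟨nat_lit 0, [⟨nat_lit 5, [⟨nat_lit 5, nat_lit 48, nat_lit 3360, nat_lit 1536, nat_lit 4032, nat_lit 0, R6_32, R6_84, R12_0⟩]⟩]⟩,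
 ⟨nat_lit 1, [⟨nat_lit 4, [⟨nat_lit 4, nat_lit 4704, nat_lit 8640, nat_lit 12192, nat_lit 11136, nat_lit 15504, R6_254, R6_232, R7_323⟩]⟩, ⟨nat_lit 5, [⟨nat_lit 4, nat_lit 4896, nat_lit 9216, nat_lit 1056, nat_lit 11232, nat_lit 1968, R13_22, R6_234, R14_41⟩, ⟨nat_lit 5, nat_lit 4992, nat_lit 9360, nat_lit 1152, nat_lit 3840, nat_lit 192, R13_24, R13_80, R12_4⟩]⟩]⟩], [⟨nat_lit 0, [⟨nat_lit 5, [⟨nat_lit 5, nat_lit 96, nat_lit 48, nat_lit 1584, nat_lit 3984, nat_lit 576, R6_33, R6_83, R1_12⟩]⟩]⟩,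
 ⟨nat_lit 1, [⟨nat_lit 5, [⟨nat_lit 5, nat_lit 5040, nat_lit 4800, nat_lit 1200, nat_lit 3792, nat_lit 672, R13_25, R13_79, R1_14⟩]⟩]⟩]], [], [[], [], [⟨nat_lit 0, [⟨nat_lit 5, [⟨nat_lit 5, nat_lit 144, nat_lit 14400, nat_lit 2016, nat_lit 4224, nat_lit 6096, R6_42, R4_88, R1_127⟩]⟩]⟩,
 ⟨nat_lit 1, [⟨nat_lit 5, [⟨nat_lit 5, nat_lit 5088, nat_lit 14544, nat_lit 1632, nat_lit 10608, nat_lit 6192, R13_34, R3_221, R1_129⟩]⟩]⟩]], [[⟨nat_lit 0, [⟨nat_lit 5, [⟨nat_lit 4, nat_lit 192, nat_lit 15312, nat_lit 1632, nat_lit 2352, nat_lit 9072, R6_34, R6_49, R7_189⟩, ⟨nat_lit 5, nat_lit 288, nat_lit 15408, nat_lit 1872, nat_lit 3744, nat_lit 8160, R6_39, R8_78, R2_170⟩, ⟨nat_lit 7, nat_lit 432, nat_lit 15360, nat_lit 1728, nat_lit 2208, nat_lit 3264, R6_36, R4_46, R2_68⟩]⟩]⟩,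
 ⟨nat_lit 1, [⟨nat_lit 5, [⟨nat_lit 4, nat_lit 5136, nat_lit 15696, nat_lit 1248, nat_lit 10992, nat_lit 9168, R13_26, R8_229, R7_191⟩, ⟨nat_lit 5, nat_lit 5232, nat_lit 15792, nat_lit 1488, nat_lit 2832, nat_lit 8256, R13_31, R9_59, R2_172⟩, ⟨nat_lit 7, nat_lit 5376, nat_lit 15744, nat_lit 1344, nat_lit 2592, nat_lit 3552, R13_28, R5_54, R2_74⟩]⟩]⟩], [⟨nat_lit 0, [⟨nat_lit 5, [⟨nat_lit 4, nat_lit 240, nat_lit 11568, nat_lit 1680, nat_lit 2400, nat_lit 2352, R6_35, R6_50, R14_49⟩, ⟨nat_lit 5, nat_lit 336, nat_lit 11664, nat_lit 1920, nat_lit 3840, nat_lit 720, R6_40, R8_80, R12_15⟩, ⟨nat_lit 7, nat_lit 480, nat_lit 11616, nat_lit 1776, nat_lit 2304, nat_lit 2688, R6_37, R4_48, R12_56⟩]⟩]⟩,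
 ⟨nat_lit 1, [⟨nat_lit 4, [⟨nat_lit 4, nat_lit 4752, nat_lit 11040, nat_lit 12240, nat_lit 11280, nat_lit 15600, R6_255, R8_235, R7_325⟩, ⟨nat_lit 7, nat_lit 4800, nat_lit 11088, nat_lit 12288, nat_lit 2544, nat_lit 14400, R6_256, R5_53, R2_300⟩]⟩, ⟨nat_lit 5, [⟨nat_lit 4, nat_lit 5184, nat_lit 11904, nat_lit 1296, nat_lit 11424, nat_lit 2832, R13_27, R8_238, R14_59⟩, ⟨nat_lit 5, nat_lit 5280, nat_lit 12000, nat_lit 1536, nat_lit 2928, nat_lit 1200, R13_32, R9_61, R12_25⟩, ⟨nat_lit 7, nat_lit 5424, nat_lit 11952, nat_lit 1392, nat_lit 2688, nat_lit 4032, R13_29, R5_56, R12_84⟩]⟩]⟩], [⟨nat_lit 0, [⟨nat_lit 5, [⟨nat_lit 5, nat_lit 384, nat_lit 13392, nat_lit 1968, nat_lit 3792, nat_lit 8976, R6_41, R8_79, R1_187⟩]⟩]⟩,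
 ⟨nat_lit 1, [⟨nat_lit 5, [⟨nat_lit 5, nat_lit 5328, nat_lit 13632, nat_lit 1584, nat_lit 2880, nat_lit 9072, R13_33, R9_60, R1_189⟩]⟩]⟩], [⟨nat_lit 0, [⟨nat_lit 5, [⟨nat_lit 7, nat_lit 528, nat_lit 3072, nat_lit 1824, nat_lit 2256, nat_lit 2736, R6_38, R4_47, R1_57⟩]⟩]⟩,
 ⟨nat_lit 1, [⟨nat_lit 5, [⟨nat_lit 7, nat_lit 5472, nat_lit 8880, nat_lit 1440, nat_lit 2640, nat_lit 3024, R13_30, R5_55, R1_63⟩]⟩]⟩]], [], [], [], [[], [], [], [⟨nat_lit 0, [⟨nat_lit 5, [⟨nat_lit 7, nat_lit 576, nat_lit 12000, nat_lit 1440, nat_lit 2880, nat_lit 13200, R6_30, R7_60, R1_275⟩]⟩]⟩]]], [[[⟨nat_lit 1, [⟨nat_lit 5, [⟨nat_lit 4, nat_lit 5712, nat_lit 144, nat_lit 1200, nat_lit 10992, nat_lit 4032, R3_25, R6_229, R7_84⟩, ⟨nat_lit 5, nat_lit 5808, nat_lit 4896, nat_lit 1296, nat_lit 3888, nat_lit 2400, R3_27, R13_81, R2_50⟩]⟩]⟩],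 [⟨nat_lit 1, [⟨nat_lit 4, [⟨nat_lit 4, nat_lit 5520, nat_lit 4416, nat_lit 12384, nat_lit 11184, nat_lit 16272, R4_258, R6_233, R7_339⟩]⟩, ⟨nat_lit 5, [⟨nat_lit 4, nat_lit 5760, nat_lit 4464, nat_lit 1248, nat_lit 11280, nat_lit 2016, R3_26, R6_235, R14_42⟩, ⟨nat_lit 5, nat_lit 5856, nat_lit 4848, nat_lit 1344, nat_lit 3984, nat_lit 240, R3_28, R13_83, R12_5⟩]⟩]⟩], [⟨nat_lit 1, [⟨nat_lit 5, [⟨nat_lit 5, nat_lit 5904, nat_lit 4032, nat_lit 1392, nat_lit 3936, nat_lit 1872, R3_29, R13_82, R1_39⟩]⟩]⟩]], [[⟨nat_lit 1, [⟨nat_lit 5, [⟨nat_lit 4, nat_lit 5952, nat_lit 14784, nat_lit 1440, nat_lit 11808, nat_lit 12480, R3_30, R4_246, R7_260⟩, ⟨nat_lit 5, nat_lit 6048, nat_lit 15264, nat_lit 1536, nat_lit 3408, nat_lit 11088, R3_32, R3_71, R2_231⟩]⟩]⟩,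
 ⟨nat_lit 5, [⟨nat_lit 5, [⟨nat_lit 4, nat_lit 13872, nat_lit 14832, nat_lit 12480, nat_lit 12864, nat_lit 12384, R2_260, R7_268, R7_258⟩, ⟨nat_lit 5, nat_lit 14016, nat_lit 15312, nat_lit 12528, nat_lit 11568, nat_lit 10992, R2_261, R2_241, R2_229⟩]⟩]⟩], [⟨nat_lit 1, [⟨nat_lit 4, [⟨nat_lit 4, nat_lit 5568, nat_lit 18288, nat_lit 12432, nat_lit 11856, nat_lit 16416, R4_259, R4_247, R7_342⟩]⟩, ⟨nat_lit 5, [⟨nat_lit 4, nat_lit 6000, nat_lit 19104, nat_lit 1488, nat_lit 11904, nat_lit 3984, R3_31, R4_248, R14_83⟩, ⟨nat_lit 5, nat_lit 6096, nat_lit 19584, nat_lit 1584, nat_lit 3504, nat_lit 2352, R3_33, R3_73, R12_49⟩]⟩]⟩,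
 ⟨nat_lit 5, [⟨nat_lit 4, [⟨nat_lit 4, nat_lit 13728, nat_lit 18336, nat_lit 13728, nat_lit 12912, nat_lit 12096, R7_286, R7_269, R7_252⟩, ⟨nat_lit 6, nat_lit 13776, nat_lit 18768, nat_lit 13776, nat_lit 10560, nat_lit 10560, R7_287, R2_220, R2_220⟩]⟩, ⟨nat_lit 5, [⟨nat_lit 4, nat_lit 13920, nat_lit 19152, nat_lit 12576, nat_lit 13008, nat_lit 3504, R2_262, R7_271, R14_73⟩, ⟨nat_lit 5, nat_lit 14064, nat_lit 19632, nat_lit 12672, nat_lit 11664, nat_lit 1872, R2_264, R2_243, R12_39⟩, ⟨nat_lit 6, nat_lit 13968, nat_lit 20304, nat_lit 12624, nat_lit 10704, nat_lit 1824, R2_263, R2_223, R12_38⟩]⟩, ⟨nat_lit 6, [⟨nat_lit 6, nat_lit 13824, nat_lit 20928, nat_lit 14064, nat_lit 10656, nat_lit 10944, R2_293, R2_222, R1_228⟩]⟩]⟩], [⟨nat_lit 1, [⟨nat_lit 5, [⟨nat_lit 5, nat_lit 6144, nat_lit 2496, nat_lit 1632, nat_lit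 3456, nat_lit 11664, R3_34, R3_72, R1_243⟩]⟩]⟩,
 ⟨nat_lit 5, [⟨nat_lit 5, [⟨nat_lit 5, nat_lit 14112, nat_lit 12432, nat_lit 12720, nat_lit 11616, nat_lit 11568, R2_265, R2_242, R1_241⟩]⟩]⟩]], [[], [], [⟨nat_lit 1, [⟨nat_lit 5, [⟨nat_lit 5, nat_lit 6192, nat_lit 2592, nat_lit 2016, nat_lit 10656, nat_lit 7296, R3_42, R3_222, R1_152⟩]⟩]⟩]], [[⟨nat_lit 1, [⟨nat_lit 5, [⟨nat_lit 4, nat_lit 6240, nat_lit 14016, nat_lit 1680, nat_lit 11040, nat_lit 11040, R3_35, R8_230, R7_230⟩, ⟨nat_lit 5, nat_lit 6336, nat_lit 14352, nat_lit 1920, nat_lit 2976, nat_lit 10032, R3_40, R9_62, R2_209⟩, ⟨nat_lit 7, nat_lit 6432, nat_lit 14592, nat_lit 1776, nat_lit 2784, nat_lit 6528, R3_37, R5_58, R2_136⟩]⟩]⟩], [⟨nat_lit 1, [⟨nat_lit 4, [⟨nat_lit 4, nat_lit 5616, nat_lit 12144, nat_lit 12480, nat_lit 11328, nat_lit 16320, R4_260, R8_236,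 R7_340⟩, ⟨nat_lit 7, nat_lit 5664, nat_lit 12336, nat_lit 12528, nat_lit 2736, nat_lit 15552, R4_261, R5_57, R2_324⟩]⟩, ⟨nat_lit 5, [⟨nat_lit 4, nat_lit 6288, nat_lit 12720, nat_lit 1728, nat_lit 11472, nat_lit 2928, R3_36, R8_239, R14_61⟩, ⟨nat_lit 5, nat_lit 6384, nat_lit 13056, nat_lit 1968, nat_lit 3024, nat_lit 1296, R3_41, R9_63, R12_27⟩, ⟨nat_lit 7, nat_lit 6480, nat_lit 13296, nat_lit 1824, nat_lit 2880, nat_lit 4512, R3_38, R5_60, R12_94⟩]⟩]⟩]]], [[[⟨nat_lit 0, [⟨nat_lit 1, [⟨nat_lit 5, nat_lit 1056, nat_lit 9648, nat_lit 1584, nat_lit 4080, nat_lit 13584, R7_33, R6_85, R3_283⟩]⟩, ⟨nat_lit 5, [⟨nat_lit 5, nat_lit 624, nat_lit 8160, nat_lit 1488, nat_lit 4176, nat_lit 1920, R4_31, R6_87, R2_40⟩]⟩]⟩,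
 ⟨nat_lit 1, [⟨nat_lit 1, [⟨nat_lit 4, nat_lit 7008, nat_lit 3600, nat_lit 96, nat_lit 11088, nat_lit 3504, R2_2, R6_231, R4_73⟩, ⟨nat_lit 5, nat_lit 7056, nat_lit 9888, nat_lit 144, nat_lit 4032, nat_lit 13728, R2_3, R13_84, R3_286⟩]⟩, ⟨nat_lit 5, [⟨nat_lit 4, nat_lit 6576, nat_lit 1584, nat_lit 12336, nat_lit 11040, nat_lit 3600, R3_257, R6_230, R7_75⟩, ⟨nat_lit 5, nat_lit 6624, nat_lit 8304, nat_lit 12480, nat_lit 4128, nat_lit 1968, R3_260, R13_86, R2_41⟩]⟩]⟩], [], [⟨nat_lit 0, [⟨nat_lit 1, [⟨nat_lit 5, nat_lit 1104, nat_lit 4512, nat_lit 1632, nat_lit 4128, nat_lit 13152, R7_34, R6_86, R10_274⟩]⟩, ⟨nat_lit 5, [⟨nat_lit 5, nat_lit 672, nat_lit 4608, nat_lit 1536, nat_lit 4224, nat_lit 1392, R4_32, R6_88, R1_29⟩]⟩]⟩,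
 ⟨nat_lit 1, [⟨nat_lit 1, [⟨nat_lit 5, nat_lit 7104, nat_lit 4896, nat_lit 192, nat_lit 4080, nat_lit 13296, R2_4, R13_85, R10_277⟩]⟩, ⟨nat_lit 5, [⟨nat_lit 5, nat_lit 6672, nat_lit 4992, nat_lit 12624, nat_lit 4176, nat_lit 1440, R3_263, R13_87, R1_30⟩]⟩]⟩]], [], [[], [], [⟨nat_lit 0, [⟨nat_lit 1, [⟨nat_lit 1, nat_lit 1200, nat_lit 17424, nat_lit 2016, nat_lit 4512, nat_lit 12336, R7_42, R7_94, R1_257⟩, ⟨nat_lit 5, nat_lit 1152, nat_lit 17376, nat_lit 2064, nat_lit 4272, nat_lit 13200, R7_43, R4_89, R10_275⟩]⟩, ⟨nat_lit 5, [⟨nat_lit 5, nat_lit 720, nat_lit 17904, nat_lit 1824, nat_lit 4320, nat_lit 6816, R4_38, R4_90, R1_142⟩]⟩]⟩,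
 ⟨nat_lit 1, [⟨nat_lit 1, [⟨nat_lit 1, nat_lit 7200, nat_lit 17568, nat_lit 576, nat_lit 2928, nat_lit 12432, R2_12, R2_61, R1_259⟩, ⟨nat_lit 5, nat_lit 7152, nat_lit 17520, nat_lit 624, nat_lit 10752, nat_lit 13344, R2_13, R3_224, R10_278⟩]⟩, ⟨nat_lit 5, [⟨nat_lit 5, nat_lit 6720, nat_lit 18048, nat_lit 12720, nat_lit 10704, nat_lit 6864, R3_265, R3_223, R1_143⟩]⟩]⟩,
 ⟨nat_lit 2, [⟨nat_lit 1, [⟨nat_lit 1, nat_lit 8064, nat_lit 17760, nat_lit 528, nat_lit 2976, nat_lit 12384, R2_11, R2_62, R1_258⟩]⟩]⟩], [], [], [], [⟨nat_lit 0, [⟨nat_lit 1, [⟨nat_lit 1, nat_lit 1248, nat_lit 12336, nat_lit 1968, nat_lit 4560, nat_lit 17424, R7_41, R7_95, R11_363⟩]⟩]⟩,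
 ⟨nat_lit 1, [⟨nat_lit 1, [⟨nat_lit 1, nat_lit 7248, nat_lit 12384, nat_lit 528, nat_lit 2976, nat_lit 17760, R2_11, R2_62, R11_370⟩]⟩]⟩,
 ⟨nat_lit 2, [⟨nat_lit 1, [⟨nat_lit 1, nat_lit 8112, nat_lit 12432, nat_lit 576, nat_lit 2928, nat_lit 17568, R2_12, R2_61, R11_366⟩]⟩]⟩]], [[⟨nat_lit 0, [⟨nat_lit 1, [⟨nat_lit 4, nat_lit 1296, nat_lit 13584, nat_lit 1680, nat_lit 4080, nat_lit 9648, R7_35, R6_85, R4_201⟩, ⟨nat_lit 5, nat_lit 1392, nat_lit 14352, nat_lit 1824, nat_lit 4032, nat_lit 14352, R7_38, R8_84, R3_299⟩]⟩, ⟨nat_lit 5, [⟨nat_lit 4, nat_lit 768, nat_lit 12336, nat_lit 1584, nat_lit 3264, nat_lit 10608, R4_33, R6_68, R7_221⟩, ⟨nat_lit 5, nat_lit 816, nat_lit 12768, nat_lit 1728, nat_lit 4176, nat_lit 9696, R4_36, R8_87, R2_202⟩, ⟨nat_lit 7, nat_lit 912, nat_lit 13104, nat_lit 1632, nat_lit 2928, nat_lit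 4752, R4_34, R4_61, R2_99⟩]⟩]⟩,
 ⟨nat_lit 1, [⟨nat_lit 1, [⟨nat_lit 4, nat_lit 7296, nat_lit 13632, nat_lit 240, nat_lit 11184, nat_lit 9792, R2_5, R8_233, R4_204⟩, ⟨nat_lit 5, nat_lit 7392, nat_lit 14400, nat_lit 384, nat_lit 3216, nat_lit 14496, R2_8, R9_67, R3_302⟩]⟩, ⟨nat_lit 5, [⟨nat_lit 4, nat_lit 6768, nat_lit 12384, nat_lit 12384, nat_lit 11136, nat_lit 10656, R3_258, R8_232, R7_222⟩, ⟨nat_lit 5, nat_lit 6816, nat_lit 12816, nat_lit 12528, nat_lit 3360, nat_lit 9744, R3_261, R9_70, R2_203⟩, ⟨nat_lit 7, nat_lit 6912, nat_lit 13152, nat_lit 12432, nat_lit 3168, nat_lit 4944, R3_259, R5_66, R2_103⟩]⟩]⟩], [], [⟨nat_lit 0, [⟨nat_lit 1, [⟨nat_lit 5, nat_lit 1440, nat_lit 11280, nat_lit 1920, nat_lit 4080, nat_lit 13248, R7_40, R8_85, R10_276⟩]⟩, ⟨nat_lit 5, [⟨nat_lit 5, nat_lit 864, nat_lit 11520, nat_lit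 1776, nat_lit 4224, nat_lit 10512, R4_37, R8_88, R1_219⟩]⟩]⟩,
 ⟨nat_lit 1, [⟨nat_lit 1, [⟨nat_lit 5, nat_lit 7440, nat_lit 11376, nat_lit 480, nat_lit 3264, nat_lit 13392, R2_10, R9_68, R10_279⟩]⟩, ⟨nat_lit 5, [⟨nat_lit 5, nat_lit 6864, nat_lit 11760, nat_lit 12672, nat_lit 3408, nat_lit 10560, R3_264, R9_71, R1_220⟩]⟩]⟩], [⟨nat_lit 0, [⟨nat_lit 1, [⟨nat_lit 4, nat_lit 1344, nat_lit 13152, nat_lit 1728, nat_lit 4128, nat_lit 4512, R7_36, R6_86, R5_94⟩, ⟨nat_lit 5, nat_lit 1488, nat_lit 13248, nat_lit 1872, nat_lit 4128, nat_lit 11280, R7_39, R8_86, R0_235⟩, ⟨nat_lit 7, nat_lit 1536, nat_lit 13200, nat_lit 1776, nat_lit 4272, nat_lit 17376, R7_37, R4_89, R11_362⟩]⟩, ⟨nat_lit 5, [⟨nat_lit 7, nat_lit 960, nat_lit 13968, nat_lit 1680, nat_lit 2976, nat_lit 3456, R4_35, R4_62, R1_72⟩]⟩]⟩,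
 ⟨nat_lit 1, [⟨nat_lit 1, [⟨nat_lit 4, nat_lit 7344, nat_lit 13440, nat_lit 288, nat_lit 11232, nat_lit 6096, R2_6, R8_234, R5_127⟩, ⟨nat_lit 7, nat_lit 7536, nat_lit 13488, nat_lit 336, nat_lit 3120, nat_lit 17472, R2_7, R5_65, R11_364⟩]⟩, ⟨nat_lit 5, [⟨nat_lit 7, nat_lit 6960, nat_lit 14112, nat_lit 12576, nat_lit 3216, nat_lit 3648, R3_262, R5_67, R1_76⟩]⟩]⟩]], [[], [], [], [], [⟨nat_lit 0, [⟨nat_lit 1, [⟨nat_lit 3, nat_lit 1584, nat_lit 9648, nat_lit 1056, nat_lit 9936, nat_lit 13584, R7_22, R6_207, R3_283⟩]⟩]⟩,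
 ⟨nat_lit 2, [⟨nat_lit 1, [⟨nat_lit 0, nat_lit 8160, nat_lit 3504, nat_lit 96, nat_lit 11088, nat_lit 3600, R2_2, R6_231, R4_75⟩, ⟨nat_lit 3, nat_lit 8208, nat_lit 9792, nat_lit 240, nat_lit 9456, nat_lit 13632, R2_5, R8_197, R3_284⟩]⟩]⟩], [], [], [⟨nat_lit 0, [⟨nat_lit 1, [⟨nat_lit 3, nat_lit 1632, nat_lit 4512, nat_lit 1104, nat_lit 10320, nat_lit 13152, R7_23, R6_215, R10_274⟩]⟩]⟩,
 ⟨nat_lit 2, [⟨nat_lit 1, [⟨nat_lit 3, nat_lit 8256, nat_lit 6096, nat_lit 288, nat_lit 9984, nat_lit 13440, R2_6, R8_208, R10_280⟩]⟩]⟩]], [], [[], [], [], [], [⟨nat_lit 0, [⟨nat_lit 1, [⟨nat_lit 0, nat_lit 1680, nat_lit 13584, nat_lit 1296, nat_lit 4080, nat_lit 9648, R7_27, R6_85, R4_201⟩, ⟨nat_lit 3, nat_lit 1824, nat_lit 14352, nat_lit 1392, nat_lit 4032, nat_lit 14352, R7_29, R8_84, R3_299⟩]⟩]⟩,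
 ⟨nat_lit 2, [⟨nat_lit 1, [⟨nat_lit 0, nat_lit 8304, nat_lit 13728, nat_lit 144, nat_lit 14208, nat_lit 9888, R2_3, R13_296, R4_206⟩, ⟨nat_lit 3, nat_lit 8448, nat_lit 14496, nat_lit 384, nat_lit 11904, nat_lit 14400, R2_8, R9_248, R3_300⟩]⟩]⟩], [], [⟨nat_lit 0, [⟨nat_lit 1, [⟨nat_lit 0, nat_lit 1728, nat_lit 13152, nat_lit 1344, nat_lit 4128, nat_lit 4512, R7_28, R6_86, R5_94⟩, ⟨nat_lit 1, nat_lit 1776, nat_lit 13200, nat_lit 1536, nat_lit 4272, nat_lit 17376, R7_32, R4_89, R11_362⟩, ⟨nat_lit 3, nat_lit 1872, nat_lit 13248, nat_lit 1488, nat_lit 4128, nat_lit 11280, R7_31, R8_86, R0_235⟩]⟩]⟩,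
 ⟨nat_lit 2, [⟨nat_lit 1, [⟨nat_lit 0, nat_lit 8352, nat_lit 13296, nat_lit 192, nat_lit 14400, nat_lit 4896, R2_4, R13_300, R5_102⟩, ⟨nat_lit 1, nat_lit 8400, nat_lit 13344, nat_lit 624, nat_lit 10752, nat_lit 17520, R2_13, R3_224, R11_365⟩, ⟨nat_lit 3, nat_lit 8496, nat_lit 13392, nat_lit 480, nat_lit 12096, nat_lit 11376, R2_10, R9_252, R0_237⟩]⟩]⟩], [⟨nat_lit 0, [⟨nat_lit 1, [⟨nat_lit 3, nat_lit 1920, nat_lit 11280, nat_lit 1440, nat_lit 4080, nat_lit 13248, R7_30, R8_85, R10_276⟩]⟩]⟩,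
 ⟨nat_lit 2, [⟨nat_lit 1, [⟨nat_lit 3, nat_lit 8544, nat_lit 11328, nat_lit 432, nat_lit 12144, nat_lit 13536, R2_9, R9_253, R10_282⟩]⟩]⟩]], [[], [], [], [⟨nat_lit 0, [⟨nat_lit 1, [⟨nat_lit 7, nat_lit 1968, nat_lit 12336, nat_lit 1248, nat_lit 4560, nat_lit 17424, R7_26, R7_95, R11_363⟩]⟩, ⟨nat_lit 5, [⟨nat_lit 7, nat_lit 1008, nat_lit 12576, nat_lit 1440, nat_lit 4608, nat_lit 15216, R4_30, R7_96, R1_317⟩]⟩]⟩], [], [], [], [⟨nat_lit 0, [⟨nat_lit 1, [⟨nat_lit 3, nat_lit 2064, nat_lit 17376, nat_lit 1152, nat_lit 4272, nat_lit 13200, R7_24, R4_89, R10_275⟩, ⟨nat_lit 7, nat_lit 2016, nat_lit 17424, nat_lit 1200, nat_lit 4512, nat_lit 12336, R7_25, R7_94, R1_257⟩]⟩]⟩,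
 ⟨nat_lit 2, [⟨nat_lit 1, [⟨nat_lit 3, nat_lit 8592, nat_lit 17472, nat_lit 336, nat_lit 3120, nat_lit 13488, R2_7, R5_65, R10_281⟩]⟩]⟩]]], [[], [], [], [[⟨nat_lit 0, [⟨nat_lit 5, [⟨nat_lit 4, nat_lit 2256, nat_lit 1200, nat_lit 1152, nat_lit 2976, nat_lit 9744, R8_24, R6_62, R7_203⟩, ⟨nat_lit 5, nat_lit 2352, nat_lit 7632, nat_lit 1344, nat_lit 3888, nat_lit 8784, R8_28, R8_81, R2_183⟩, ⟨nat_lit 7, nat_lit 2496, nat_lit 6384, nat_lit 1248, nat_lit 2640, nat_lit 4128, R8_26, R4_55, R2_86⟩]⟩]⟩,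
 ⟨nat_lit 1, [⟨nat_lit 5, [⟨nat_lit 4, nat_lit 7680, nat_lit 1680, nat_lit 480, nat_lit 11088, nat_lit 9936, R9_10, R8_231, R7_207⟩, ⟨nat_lit 5, nat_lit 7776, nat_lit 8208, nat_lit 672, nat_lit 3072, nat_lit 8976, R9_14, R9_64, R2_187⟩, ⟨nat_lit 7, nat_lit 7920, nat_lit 6624, nat_lit 576, nat_lit 3024, nat_lit 4416, R9_12, R5_63, R2_92⟩]⟩]⟩,
 ⟨nat_lit 3, [⟨nat_lit 5, [⟨nat_lit 4, nat_lit 11568, nat_lit 1440, nat_lit 14784, nat_lit 11808, nat_lit 9840, R5_308, R4_246, R7_205⟩, ⟨nat_lit 5, nat_lit 11664, nat_lit 7920, nat_lit 14928, nat_lit 13632, nat_lit 8880, R5_311, R5_284, R2_185⟩]⟩]⟩], [⟨nat_lit 0, [⟨nat_lit 4, [⟨nat_lit 4, nat_lit 2112, nat_lit 14352, nat_lit 144, nat_lit 816, nat_lit 13296, R6_3, R6_17, R7_277⟩, ⟨nat_lit 7, nat_lit 2160, nat_lit 14928, nat_lit 1008, nat_lit 384, nat_lit 12144, R6_21, R4_8,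 R2_253⟩]⟩, ⟨nat_lit 5, [⟨nat_lit 4, nat_lit 2304, nat_lit 15648, nat_lit 1200, nat_lit 3024, nat_lit 2400, R8_25, R6_63, R14_50⟩, ⟨nat_lit 5, nat_lit 2400, nat_lit 16512, nat_lit 1392, nat_lit 3984, nat_lit 768, R8_29, R8_83, R12_16⟩, ⟨nat_lit 7, nat_lit 2544, nat_lit 17424, nat_lit 1296, nat_lit 2688, nat_lit 2832, R8_27, R4_56, R12_59⟩]⟩, ⟨nat_lit 7, [⟨nat_lit 7, nat_lit 2736, nat_lit 18432, nat_lit 624, nat_lit 1296, nat_lit 12720, R4_13, R4_27, R1_265⟩]⟩]⟩,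
 ⟨nat_lit 1, [⟨nat_lit 4, [⟨nat_lit 4, nat_lit 7584, nat_lit 14448, nat_lit 13008, nat_lit 11376, nat_lit 16080, R8_271, R8_237, R7_335⟩, ⟨nat_lit 7, nat_lit 7632, nat_lit 14976, nat_lit 13056, nat_lit 2928, nat_lit 14976, R8_272, R5_61, R2_312⟩]⟩, ⟨nat_lit 5, [⟨nat_lit 4, nat_lit 7728, nat_lit 15744, nat_lit 528, nat_lit 11520, nat_lit 2880, R9_11, R8_240, R14_60⟩, ⟨nat_lit 5, nat_lit 7824, nat_lit 16608, nat_lit 720, nat_lit 3168, nat_lit 1248, R9_15, R9_66, R12_26⟩, ⟨nat_lit 7, nat_lit 7968, nat_lit 17472, nat_lit 624, nat_lit 3072, nat_lit 4224, R9_13, R5_64, R12_88⟩]⟩, ⟨nat_lit 7, [⟨nat_lit 7, nat_lit 8016, nat_lit 18480, nat_lit 240, nat_lit 2976, nat_lit 15984, R5_5, R5_62, R1_333⟩]⟩]⟩,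
 ⟨nat_lit 3, [⟨nat_lit 4, [⟨nat_lit 4, nat_lit 11424, nat_lit 14400, nat_lit 13488, nat_lit 11520, nat_lit 14640, R4_281, R4_240, R7_305⟩]⟩, ⟨nat_lit 5, [⟨nat_lit 4, nat_lit 11616, nat_lit 15696, nat_lit 14976, nat_lit 11952, nat_lit 2688, R5_312, R4_249, R14_56⟩, ⟨nat_lit 5, nat_lit 11712, nat_lit 16560, nat_lit 15120, nat_lit 13728, nat_lit 1056, R5_315, R5_286, R12_22⟩]⟩]⟩], [⟨nat_lit 0, [⟨nat_lit 5, [⟨nat_lit 5, nat_lit 2448, nat_lit 720, nat_lit 1440, nat_lit 3936, nat_lit 9600, R8_30, R8_82, R1_200⟩]⟩]⟩,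
 ⟨nat_lit 1, [⟨nat_lit 5, [⟨nat_lit 5, nat_lit 7872, nat_lit 8544, nat_lit 768, nat_lit 3120, nat_lit 9792, R9_16, R9_65, R1_204⟩]⟩]⟩,
 ⟨nat_lit 3, [⟨nat_lit 5, [⟨nat_lit 5, nat_lit 11760, nat_lit 5952, nat_lit 15216, nat_lit 13680, nat_lit 9696, R5_317, R5_285, R1_202⟩]⟩]⟩]], [], [], [], [[⟨nat_lit 0, [⟨nat_lit 5, [⟨nat_lit 7, nat_lit 2592, nat_lit 12816, nat_lit 1008, nat_lit 4272, nat_lit 12816, R8_21, R7_89, R2_267⟩]⟩]⟩,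
 ⟨nat_lit 3, [⟨nat_lit 5, [⟨nat_lit 4, nat_lit 11808, nat_lit 12480, nat_lit 14832, nat_lit 12144, nat_lit 15168, R5_309, R7_253, R7_316⟩, ⟨nat_lit 7, nat_lit 11904, nat_lit 12864, nat_lit 14880, nat_lit 12384, nat_lit 13152, R5_310, R14_258, R2_274⟩]⟩]⟩], [⟨nat_lit 0, [⟨nat_lit 4, [⟨nat_lit 7, nat_lit 2208, nat_lit 13200, nat_lit 1440, nat_lit 3408, nat_lit 12000, R6_30, R7_71, R2_250⟩]⟩, ⟨nat_lit 5, [⟨nat_lit 7, nat_lit 2640, nat_lit 14160, nat_lit 1056, nat_lit 4368, nat_lit 13584, R8_22, R7_91, R12_283⟩]⟩, ⟨nat_lit 7, [⟨nat_lit 7, nat_lit 2784, nat_lit 15216, nat_lit 1440, nat_lit 3888, nat_lit 12576, R4_30, R7_81, R1_262⟩]⟩]⟩,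
 ⟨nat_lit 3, [⟨nat_lit 4, [⟨nat_lit 4, nat_lit 11472, nat_lit 13056, nat_lit 13536, nat_lit 12960, nat_lit 14688, R4_282, R7_270, R7_306⟩, ⟨nat_lit 7, nat_lit 11520, nat_lit 13248, nat_lit 13920, nat_lit 12480, nat_lit 13728, R4_290, R14_260, R2_286⟩]⟩, ⟨nat_lit 5, [⟨nat_lit 4, nat_lit 11856, nat_lit 13824, nat_lit 15024, nat_lit 13104, nat_lit 528, R5_313, R7_273, R14_11⟩, ⟨nat_lit 7, nat_lit 11952, nat_lit 14208, nat_lit 15072, nat_lit 12528, nat_lit 13920, R5_314, R14_261, R12_290⟩]⟩]⟩], [], [⟨nat_lit 0, [⟨nat_lit 5, [⟨nat_lit 7, nat_lit 2688, nat_lit 12336, nat_lit 1104, nat_lit 4320, nat_lit 14160, R8_23, R7_90, R1_295⟩]⟩]⟩,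
 ⟨nat_lit 3, [⟨nat_lit 5, [⟨nat_lit 7, nat_lit 12000, nat_lit 12384, nat_lit 15168, nat_lit 12432, nat_lit 14496, R5_316, R14_259, R1_302⟩]⟩]⟩]]], [[], [], [], [], [[], [⟨nat_lit 3, [⟨nat_lit 7, [⟨nat_lit 7, nat_lit 12048, nat_lit 13536, nat_lit 14688, nat_lit 12240, nat_lit 13056, R7_306, R7_255, R1_272⟩]⟩]⟩,
 ⟨nat_lit 4, [⟨nat_lit 6, [⟨nat_lit 6, nat_lit 13248, nat_lit 3216, nat_lit 13680, nat_lit 10704, nat_lit 0, R6_285, R6_223, R1_0⟩]⟩]⟩,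
 ⟨nat_lit 6, [⟨nat_lit 6, [⟨nat_lit 6, nat_lit 14592, nat_lit 11664, nat_lit 13440, nat_lit 11568, nat_lit 5808, R4_280, R4_241, R1_121⟩]⟩]⟩,
 ⟨nat_lit 7, [⟨nat_lit 4, [⟨nat_lit 4, nat_lit 15456, nat_lit 8640, nat_lit 12720, nat_lit 10032, nat_lit 8640, R6_265, R6_209, R7_180⟩, ⟨nat_lit 6, nat_lit 15552, nat_lit 8784, nat_lit 12816, nat_lit 10560, nat_lit 7440, R6_267, R8_220, R2_155⟩, ⟨nat_lit 7, nat_lit 15648, nat_lit 8736, nat_lit 12768, nat_lit 10992, nat_lit 3120, R6_266, R4_229, R2_65⟩]⟩, ⟨nat_lit 6, [⟨nat_lit 6, nat_lit 16032, nat_lit 9120, nat_lit 14352, nat_lit 10608, nat_lit 7968, R8_299, R8_221, R1_166⟩]⟩, ⟨nat_lit 7, [⟨nat_lit 7, nat_lit 16368, nat_lit 8928, nat_lit 13056, nat_lit 11040, nat_lit 2592, R4_272, R4_230, R1_54⟩]⟩]⟩], [], [], [], [⟨nat_lit 0, [⟨nat_lit 3, [⟨nat_lit 3, nat_lit 2832, nat_lit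 13296, nat_lit 13728, nat_lit 10656, nat_lit 14352, R6_286, R6_222, R10_299⟩]⟩]⟩,
 ⟨nat_lit 2, [⟨nat_lit 0, [⟨nat_lit 0, nat_lit 8640, nat_lit 15504, nat_lit 12192, nat_lit 11136, nat_lit 8640, R6_254, R6_232, R4_180⟩, ⟨nat_lit 3, nat_lit 8688, nat_lit 15600, nat_lit 12240, nat_lit 10416, nat_lit 11040, R6_255, R8_217, R3_230⟩]⟩, ⟨nat_lit 2, [⟨nat_lit 0, nat_lit 8784, nat_lit 16272, nat_lit 12384, nat_lit 11184, nat_lit 4416, R4_258, R6_233, R5_92⟩, ⟨nat_lit 2, nat_lit 8832, nat_lit 16416, nat_lit 12432, nat_lit 11856, nat_lit 18288, R4_259, R4_247, R11_381⟩, ⟨nat_lit 3, nat_lit 8880, nat_lit 16320, nat_lit 12480, nat_lit 10512, nat_lit 12144, R4_260, R8_219, R0_253⟩]⟩, ⟨nat_lit 3, [⟨nat_lit 3, nat_lit 8976, nat_lit 16080, nat_lit 14400, nat_lit 10464, nat_lit 14448, R8_300, R8_218, R10_301⟩]⟩]⟩,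
 ⟨nat_lit 3, [⟨nat_lit 3, [⟨nat_lit 3, nat_lit 12288, nat_lit 14640, nat_lit 13488, nat_lit 11520, nat_lit 14400, R4_281, R4_240, R10_300⟩, ⟨nat_lit 7, nat_lit 12240, nat_lit 14688, nat_lit 13536, nat_lit 12048, nat_lit 13056, R4_282, R7_251, R1_272⟩]⟩, ⟨nat_lit 7, [⟨nat_lit 7, nat_lit 12096, nat_lit 14880, nat_lit 14880, nat_lit 12096, nat_lit 18336, R7_310, R7_252, R11_382⟩]⟩]⟩,
 ⟨nat_lit 4, [⟨nat_lit 6, [⟨nat_lit 6, nat_lit 13296, nat_lit 2832, nat_lit 13728, nat_lit 10656, nat_lit 14352, R6_286, R6_222, R10_299⟩]⟩]⟩,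
 ⟨nat_lit 6, [⟨nat_lit 2, [⟨nat_lit 2, nat_lit 14880, nat_lit 12096, nat_lit 14880, nat_lit 12096, nat_lit 18336, R7_310, R7_252, R11_382⟩]⟩, ⟨nat_lit 6, [⟨nat_lit 2, nat_lit 14688, nat_lit 12240, nat_lit 13536, nat_lit 12048, nat_lit 13056, R4_282, R7_251, R1_272⟩, ⟨nat_lit 6, nat_lit 14640, nat_lit 12288, nat_lit 13488, nat_lit 11520, nat_lit 14400, R4_281, R4_240, R10_300⟩]⟩]⟩,
 ⟨nat_lit 7, [⟨nat_lit 4, [⟨nat_lit 4, nat_lit 15504, nat_lit 8640, nat_lit 12192, nat_lit 11136, nat_lit 8640, R6_254, R6_232, R4_180⟩, ⟨nat_lit 6, nat_lit 15600, nat_lit 8688, nat_lit 12240, nat_lit 10416, nat_lit 11040, R6_255, R8_217, R3_230⟩]⟩, ⟨nat_lit 6, [⟨nat_lit 6, nat_lit 16080, nat_lit 8976, nat_lit 14400, nat_lit 10464, nat_lit 14448, R8_300, R8_218, R10_301⟩]⟩, ⟨nat_lit 7, [⟨nat_lit 4, nat_lit 16272, nat_lit 8784, nat_lit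 12384, nat_lit 11184, nat_lit 4416, R4_258, R6_233, R5_92⟩, ⟨nat_lit 6, nat_lit 16320, nat_lit 8880, nat_lit 12480, nat_lit 10512, nat_lit 12144, R4_260, R8_219, R0_253⟩, ⟨nat_lit 7, nat_lit 16416, nat_lit 8832, nat_lit 12432, nat_lit 11856, nat_lit 18288, R4_259, R4_247, R11_381⟩]⟩]⟩]], [[], [⟨nat_lit 4, [⟨nat_lit 6, [⟨nat_lit 6, nat_lit 13344, nat_lit 15888, nat_lit 13776, nat_lit 13488, nat_lit 48, R6_287, R13_281, R1_1⟩]⟩]⟩,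
 ⟨nat_lit 6, [⟨nat_lit 6, [⟨nat_lit 6, nat_lit 14736, nat_lit 16656, nat_lit 13584, nat_lit 10272, nat_lit 5856, R4_283, R3_214, R1_122⟩]⟩]⟩,
 ⟨nat_lit 7, [⟨nat_lit 4, [⟨nat_lit 4, nat_lit 15696, nat_lit 11040, nat_lit 13008, nat_lit 11280, nat_lit 8688, R6_271, R8_235, R7_181⟩, ⟨nat_lit 6, nat_lit 15792, nat_lit 11232, nat_lit 13104, nat_lit 10944, nat_lit 7488, R6_273, R9_228, R2_156⟩, ⟨nat_lit 7, nat_lit 15888, nat_lit 11136, nat_lit 13056, nat_lit 12816, nat_lit 3168, R6_272, R5_267, R2_66⟩]⟩, ⟨nat_lit 6, [⟨nat_lit 6, nat_lit 16128, nat_lit 16224, nat_lit 14448, nat_lit 10992, nat_lit 8016, R8_301, R9_229, R1_167⟩]⟩, ⟨nat_lit 7, [⟨nat_lit 7, nat_lit 16560, nat_lit 15168, nat_lit 13152, nat_lit 12864, nat_lit 2640, R4_274, R5_268, R1_55⟩]⟩]⟩], [], [], [], [⟨nat_lit 4, [⟨nat_lit 6, [⟨nat_lit 6, nat_lit 13392,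 nat_lit 912, nat_lit 13824, nat_lit 13440, nat_lit 14544, R6_288, R13_280, R10_303⟩]⟩]⟩,
 ⟨nat_lit 6, [⟨nat_lit 2, [⟨nat_lit 2, nat_lit 14928, nat_lit 10560, nat_lit 14928, nat_lit 10560, nat_lit 18768, R7_311, R2_220, R11_391⟩]⟩, ⟨nat_lit 6, [⟨nat_lit 2, nat_lit 14832, nat_lit 10752, nat_lit 13680, nat_lit 10512, nat_lit 13104, R4_285, R2_219, R1_273⟩, ⟨nat_lit 6, nat_lit 14784, nat_lit 10800, nat_lit 13632, nat_lit 10368, nat_lit 14592, R4_284, R3_216, R10_304⟩]⟩]⟩,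
 ⟨nat_lit 7, [⟨nat_lit 4, [⟨nat_lit 4, nat_lit 15744, nat_lit 7440, nat_lit 12336, nat_lit 9600, nat_lit 8784, R6_257, R8_200, R4_183⟩, ⟨nat_lit 6, nat_lit 15840, nat_lit 7488, nat_lit 12384, nat_lit 10800, nat_lit 11232, R6_258, R9_225, R3_234⟩]⟩, ⟨nat_lit 6, [⟨nat_lit 6, nat_lit 16176, nat_lit 8016, nat_lit 14496, nat_lit 10848, nat_lit 14640, R8_302, R9_226, R10_305⟩]⟩, ⟨nat_lit 7, [⟨nat_lit 4, nat_lit 16464, nat_lit 7680, nat_lit 12576, nat_lit 10176, nat_lit 6000, R4_262, R8_212, R5_125⟩, ⟨nat_lit 6, nat_lit 16512, nat_lit 7776, nat_lit 12672, nat_lit 10896, nat_lit 12240, R4_264, R9_227, R0_255⟩, ⟨nat_lit 7, nat_lit 16608, nat_lit 7728, nat_lit 12624, nat_lit 12768, nat_lit 18432, R4_263, R5_266, R11_384⟩]⟩]⟩]], [], [[], [], [], [], [], [⟨nat_lit 0, [⟨nat_lit 3, [⟨nat_lit 3, nat_lit 2928, nat_lit 12144,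 nat_lit 14112, nat_lit 384, nat_lit 14928, R6_294, R4_8, R10_311⟩, ⟨nat_lit 7, nat_lit 2880, nat_lit 12000, nat_lit 14160, nat_lit 576, nat_lit 13200, R6_295, R7_12, R1_275⟩]⟩]⟩,
 ⟨nat_lit 2, [⟨nat_lit 0, [⟨nat_lit 3, nat_lit 8736, nat_lit 14400, nat_lit 12288, nat_lit 2544, nat_lit 11088, R6_256, R5_53, R3_231⟩]⟩, ⟨nat_lit 2, [⟨nat_lit 3, nat_lit 8928, nat_lit 15552, nat_lit 12528, nat_lit 2736, nat_lit 12336, R4_261, R5_57, R0_257⟩]⟩, ⟨nat_lit 3, [⟨nat_lit 3, nat_lit 9024, nat_lit 14976, nat_lit 14880, nat_lit 2928, nat_lit 14976, R8_310, R5_61, R10_312⟩]⟩]⟩,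
 ⟨nat_lit 3, [⟨nat_lit 3, [⟨nat_lit 7, nat_lit 12336, nat_lit 13728, nat_lit 13920, nat_lit 12624, nat_lit 13248, R4_290, R14_263, R1_276⟩]⟩, ⟨nat_lit 7, [⟨nat_lit 4, nat_lit 12144, nat_lit 12480, nat_lit 15168, nat_lit 11808, nat_lit 14832, R7_316, R7_246, R5_309⟩, ⟨nat_lit 7, nat_lit 12192, nat_lit 12576, nat_lit 15216, nat_lit 12576, nat_lit 18384, R7_317, R14_262, R11_383⟩]⟩]⟩,
 ⟨nat_lit 7, [⟨nat_lit 4, [⟨nat_lit 4, nat_lit 15936, nat_lit 3120, nat_lit 12576, nat_lit 10992, nat_lit 8736, R6_262, R4_229, R4_182⟩, ⟨nat_lit 6, nat_lit 15984, nat_lit 3168, nat_lit 12624, nat_lit 12816, nat_lit 11136, R6_263, R5_267, R3_232⟩]⟩, ⟨nat_lit 6, [⟨nat_lit 6, nat_lit 16224, nat_lit 6384, nat_lit 14544, nat_lit 12960, nat_lit 14496, R8_303, R5_270, R10_302⟩]⟩, ⟨nat_lit 7, [⟨nat_lit 4, nat_lit 16656, nat_lit 3984, nat_lit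 12912, nat_lit 11376, nat_lit 5184, R4_269, R4_237, R5_108⟩, ⟨nat_lit 6, nat_lit 16704, nat_lit 4032, nat_lit 12960, nat_lit 13056, nat_lit 12192, R4_270, R5_272, R0_254⟩]⟩]⟩]]], [[], [[], [⟨nat_lit 5, [⟨nat_lit 4, [⟨nat_lit 4, nat_lit 14160, nat_lit 13056, nat_lit 13536, nat_lit 12960, nat_lit 12240, R4_282, R7_270, R7_255⟩, ⟨nat_lit 6, nat_lit 14208, nat_lit 13104, nat_lit 13680, nat_lit 10512, nat_lit 10752, R4_285, R2_219, R2_224⟩]⟩, ⟨nat_lit 6, [⟨nat_lit 6, nat_lit 14448, nat_lit 13152, nat_lit 15360, nat_lit 10608, nat_lit 11136, R3_320, R2_221, R1_232⟩]⟩]⟩]], [], [], [], [[], [⟨nat_lit 4, [⟨nat_lit 4, [⟨nat_lit 4, nat_lit 13440, nat_lit 48, nat_lit 13728, nat_lit 10656, nat_lit 2832, R6_286, R6_222, R7_59⟩, ⟨nat_lit 6, nat_lit 13536, nat_lit 96, nat_lit 13824, nat_lit 13632, nat_lit 912, R6_288, R13_284,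 R2_19⟩]⟩, ⟨nat_lit 6, [⟨nat_lit 6, nat_lit 13632, nat_lit 432, nat_lit 19152, nat_lit 13680, nat_lit 240, R13_399, R13_285, R1_5⟩]⟩]⟩,
 ⟨nat_lit 5, [⟨nat_lit 4, [⟨nat_lit 4, nat_lit 14256, nat_lit 7008, nat_lit 13488, nat_lit 11520, nat_lit 12288, R4_281, R4_240, R7_256⟩, ⟨nat_lit 6, nat_lit 14352, nat_lit 7056, nat_lit 13632, nat_lit 10368, nat_lit 10800, R4_284, R3_216, R2_225⟩]⟩, ⟨nat_lit 6, [⟨nat_lit 6, nat_lit 14496, nat_lit 7248, nat_lit 15408, nat_lit 10416, nat_lit 11184, R3_321, R3_217, R1_233⟩]⟩]⟩,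
 ⟨nat_lit 6, [⟨nat_lit 6, [⟨nat_lit 6, nat_lit 14976, nat_lit 12432, nat_lit 15456, nat_lit 10320, nat_lit 5952, R3_322, R3_215, R1_124⟩]⟩]⟩,
 ⟨nat_lit 7, [⟨nat_lit 4, [⟨nat_lit 4, nat_lit 16752, nat_lit 8784, nat_lit 13008, nat_lit 11376, nat_lit 8976, R8_271, R8_237, R7_187⟩, ⟨nat_lit 6, nat_lit 16848, nat_lit 8928, nat_lit 13104, nat_lit 11184, nat_lit 8016, R8_273, R9_233, R2_167⟩, ⟨nat_lit 7, nat_lit 16944, nat_lit 8880, nat_lit 13248, nat_lit 12960, nat_lit 6384, R8_276, R5_270, R2_133⟩]⟩, ⟨nat_lit 6, [⟨nat_lit 6, nat_lit 16992, nat_lit 9600, nat_lit 15504, nat_lit 11232, nat_lit 8544, R9_323, R9_234, R1_178⟩]⟩, ⟨nat_lit 7, [⟨nat_lit 7, nat_lit 17184, nat_lit 9312, nat_lit 16272, nat_lit 13008, nat_lit 5088, R5_339, R5_271, R1_106⟩]⟩]⟩], [], [], [], [⟨nat_lit 4, [⟨nat_lit 4, [⟨nat_lit 4, nat_lit 13488,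 nat_lit 0, nat_lit 13680, nat_lit 10704, nat_lit 3216, R6_285, R6_223, R4_67⟩, ⟨nat_lit 6, nat_lit 13584, nat_lit 48, nat_lit 13776, nat_lit 13536, nat_lit 15888, R6_287, R13_282, R3_331⟩]⟩, ⟨nat_lit 6, [⟨nat_lit 6, nat_lit 13680, nat_lit 240, nat_lit 19200, nat_lit 13584, nat_lit 14736, R13_400, R13_283, R10_307⟩]⟩]⟩,
 ⟨nat_lit 5, [⟨nat_lit 4, [⟨nat_lit 4, nat_lit 14304, nat_lit 5808, nat_lit 13440, nat_lit 11568, nat_lit 11664, R4_280, R4_241, R4_243⟩, ⟨nat_lit 6, nat_lit 14400, nat_lit 5856, nat_lit 13584, nat_lit 10272, nat_lit 16656, R4_283, R3_214, R3_347⟩]⟩, ⟨nat_lit 6, [⟨nat_lit 6, nat_lit 14544, nat_lit 5952, nat_lit 15456, nat_lit 10320, nat_lit 14880, R3_322, R3_215, R10_310⟩]⟩]⟩,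
 ⟨nat_lit 6, [⟨nat_lit 2, [⟨nat_lit 2, nat_lit 15120, nat_lit 10944, nat_lit 14064, nat_lit 10656, nat_lit 20928, R2_293, R2_222, R11_436⟩]⟩, ⟨nat_lit 6, [⟨nat_lit 2, nat_lit 15072, nat_lit 11136, nat_lit 15360, nat_lit 10608, nat_lit 13152, R3_320, R2_221, R1_274⟩, ⟨nat_lit 6, nat_lit 15024, nat_lit 11184, nat_lit 15408, nat_lit 10416, nat_lit 14784, R3_321, R3_217, R10_308⟩]⟩]⟩,
 ⟨nat_lit 7, [⟨nat_lit 4, [⟨nat_lit 4, nat_lit 16800, nat_lit 7968, nat_lit 13392, nat_lit 9648, nat_lit 9120, R8_279, R8_201, R4_190⟩, ⟨nat_lit 6, nat_lit 16896, nat_lit 8016, nat_lit 13632, nat_lit 11040, nat_lit 16224, R8_284, R9_230, R3_338⟩]⟩, ⟨nat_lit 6, [⟨nat_lit 6, nat_lit 17040, nat_lit 8544, nat_lit 15552, nat_lit 11088, nat_lit 14832, R9_324, R9_231, R10_309⟩]⟩, ⟨nat_lit 7, [⟨nat_lit 4, nat_lit 17088, nat_lit 8208, nat_lit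 16320, nat_lit 10224, nat_lit 6336, R5_340, R8_213, R5_132⟩, ⟨nat_lit 6, nat_lit 17136, nat_lit 8304, nat_lit 16368, nat_lit 11136, nat_lit 12288, R5_341, R9_232, R0_256⟩, ⟨nat_lit 7, nat_lit 17232, nat_lit 8256, nat_lit 16416, nat_lit 12912, nat_lit 18576, R5_342, R5_269, R11_387⟩]⟩]⟩]]], [[], [], [], [], [[], [], [], [], [⟨nat_lit 0, [⟨nat_lit 0, [⟨nat_lit 3, nat_lit 2976, nat_lit 9072, nat_lit 1632, nat_lit 10944, nat_lit 16272, R6_34, R6_228, R13_339⟩]⟩, ⟨nat_lit 1, [⟨nat_lit 3, nat_lit 3600, nat_lit 10608, nat_lit 1584, nat_lit 11040, nat_lit 12336, R4_33, R6_230, R3_257⟩]⟩, ⟨nat_lit 3, [⟨nat_lit 3, nat_lit 4032, nat_lit 9744, nat_lit 144, nat_lit 10992, nat_lit 1200, R8_3, R6_229, R3_25⟩]⟩]⟩,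
 ⟨nat_lit 2, [⟨nat_lit 0, [⟨nat_lit 0, nat_lit 9072, nat_lit 2976, nat_lit 16272, nat_lit 10944, nat_lit 1632, R13_339, R6_228, R6_34⟩, ⟨nat_lit 3, nat_lit 9168, nat_lit 9168, nat_lit 16320, nat_lit 10992, nat_lit 16320, R13_340, R8_229, R13_340⟩]⟩, ⟨nat_lit 1, [⟨nat_lit 0, nat_lit 10608, nat_lit 3600, nat_lit 12336, nat_lit 11040, nat_lit 1584, R3_257, R6_230, R4_33⟩, ⟨nat_lit 3, nat_lit 10656, nat_lit 10656, nat_lit 12384, nat_lit 11136, nat_lit 12384, R3_258, R8_232, R3_258⟩]⟩, ⟨nat_lit 2, [⟨nat_lit 0, nat_lit 9744, nat_lit 4032, nat_lit 1200, nat_lit 10992, nat_lit 144, R3_25, R6_229, R8_3⟩, ⟨nat_lit 2, nat_lit 9840, nat_lit 12480, nat_lit 1440, nat_lit 11808, nat_lit 14784, R3_30, R4_246, R5_308⟩, ⟨nat_lit 3, nat_lit 9936, nat_lit 11040, nat_lit 1680, nat_lit 11088, nat_lit 14016, R3_35, R8_231, R9_292⟩]⟩,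 ⟨nat_lit 3, [⟨nat_lit 3, nat_lit 11040, nat_lit 9936, nat_lit 14016, nat_lit 11040, nat_lit 1680, R9_292, R8_230, R3_35⟩]⟩]⟩,
 ⟨nat_lit 3, [⟨nat_lit 3, [⟨nat_lit 3, nat_lit 12480, nat_lit 9840, nat_lit 14784, nat_lit 11808, nat_lit 1440, R5_308, R4_246, R3_30⟩, ⟨nat_lit 7, nat_lit 12384, nat_lit 15168, nat_lit 14832, nat_lit 12864, nat_lit 12480, R5_309, R7_268, R2_260⟩]⟩]⟩,
 ⟨nat_lit 6, [⟨nat_lit 2, [⟨nat_lit 2, nat_lit 15168, nat_lit 12384, nat_lit 12480, nat_lit 12144, nat_lit 14832, R2_260, R7_253, R5_309⟩]⟩]⟩], [⟨nat_lit 0, [⟨nat_lit 0, [⟨nat_lit 3, nat_lit 3024, nat_lit 144, nat_lit 1680, nat_lit 11328, nat_lit 11568, R6_35, R6_236, R3_241⟩]⟩, ⟨nat_lit 3, [⟨nat_lit 3, nat_lit 4080, nat_lit 192, nat_lit 192, nat_lit 11376, nat_lit 15648, R8_4, R6_237, R10_326⟩]⟩]⟩,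
 ⟨nat_lit 2, [⟨nat_lit 0, [⟨nat_lit 0, nat_lit 9120, nat_lit 768, nat_lit 16512, nat_lit 11232, nat_lit 9216, R13_344, R6_234, R4_192⟩, ⟨nat_lit 3, nat_lit 9216, nat_lit 1200, nat_lit 16560, nat_lit 11568, nat_lit 11904, R13_345, R8_241, R3_248⟩]⟩, ⟨nat_lit 2, [⟨nat_lit 0, nat_lit 9792, nat_lit 816, nat_lit 1248, nat_lit 11280, nat_lit 4464, R3_26, R6_235, R5_93⟩, ⟨nat_lit 2, nat_lit 9888, nat_lit 1776, nat_lit 1488, nat_lit 11904, nat_lit 19104, R3_31, R4_248, R11_398⟩, ⟨nat_lit 3, nat_lit 9984, nat_lit 1296, nat_lit 1728, nat_lit 11664, nat_lit 12720, R3_36, R8_243, R0_265⟩]⟩, ⟨nat_lit 3, [⟨nat_lit 3, nat_lit 11088, nat_lit 1248, nat_lit 14160, nat_lit 11616, nat_lit 15744, R9_295, R8_242, R10_328⟩]⟩]⟩,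
 ⟨nat_lit 3, [⟨nat_lit 3, [⟨nat_lit 3, nat_lit 12528, nat_lit 384, nat_lit 14976, nat_lit 11952, nat_lit 15696, R5_312, R4_249, R10_327⟩, ⟨nat_lit 7, nat_lit 12432, nat_lit 480, nat_lit 15024, nat_lit 13056, nat_lit 13824, R5_313, R7_272, R1_288⟩]⟩]⟩,
 ⟨nat_lit 6, [⟨nat_lit 2, [⟨nat_lit 2, nat_lit 15216, nat_lit 3456, nat_lit 12576, nat_lit 12192, nat_lit 19152, R2_262, R7_254, R11_399⟩]⟩]⟩]], [[], [], [], [], [], [⟨nat_lit 6, [⟨nat_lit 2, [⟨nat_lit 2, nat_lit 15264, nat_lit 1824, nat_lit 12624, nat_lit 10704, nat_lit 20304, R2_263, R2_223, R11_423⟩]⟩]⟩]], [[], [], [], [], [⟨nat_lit 0, [⟨nat_lit 0, [⟨nat_lit 0, nat_lit 3072, nat_lit 1104, nat_lit 1488, nat_lit 3936, nat_lit 7440, R6_31, R6_82, R6_155⟩, ⟨nat_lit 3, nat_lit 3264, nat_lit 8160, nat_lit 1872, nat_lit 1728, nat_lit 16944, R6_39, R8_36, R13_353⟩]⟩,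 ⟨nat_lit 1, [⟨nat_lit 0, nat_lit 3648, nat_lit 1920, nat_lit 1488, nat_lit 4176, nat_lit 8160, R4_31, R6_87, R4_170⟩, ⟨nat_lit 3, nat_lit 3792, nat_lit 9696, nat_lit 1728, nat_lit 2928, nat_lit 12768, R4_36, R8_61, R3_266⟩]⟩, ⟨nat_lit 3, [⟨nat_lit 3, nat_lit 4128, nat_lit 8784, nat_lit 2016, nat_lit 2592, nat_lit 7632, R8_42, R8_54, R3_159⟩]⟩]⟩,
 ⟨nat_lit 2, [⟨nat_lit 0, [⟨nat_lit 0, nat_lit 9264, nat_lit 1200, nat_lit 16416, nat_lit 14064, nat_lit 7728, R13_342, R13_293, R6_161⟩, ⟨nat_lit 3, nat_lit 9456, nat_lit 8256, nat_lit 16464, nat_lit 11712, nat_lit 16992, R13_343, R9_244, R13_354⟩]⟩, ⟨nat_lit 1, [⟨nat_lit 0, nat_lit 10704, nat_lit 1968, nat_lit 12480, nat_lit 14160, nat_lit 8304, R3_260, R13_295, R4_173⟩, ⟨nat_lit 3, nat_lit 10848, nat_lit 9744, nat_lit 12528, nat_lit 11856, nat_lit 12816, R3_261, R9_247,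 R3_267⟩]⟩, ⟨nat_lit 2, [⟨nat_lit 0, nat_lit 10032, nat_lit 2400, nat_lit 1296, nat_lit 14112, nat_lit 4896, R3_27, R13_294, R8_102⟩, ⟨nat_lit 2, nat_lit 10176, nat_lit 11088, nat_lit 1536, nat_lit 3408, nat_lit 15264, R3_32, R3_71, R5_318⟩, ⟨nat_lit 3, nat_lit 10368, nat_lit 10032, nat_lit 1920, nat_lit 11760, nat_lit 14352, R3_40, R9_245, R9_299⟩]⟩, ⟨nat_lit 3, [⟨nat_lit 3, nat_lit 11136, nat_lit 8976, nat_lit 14112, nat_lit 11808, nat_lit 8208, R9_294, R9_246, R3_171⟩]⟩]⟩,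
 ⟨nat_lit 3, [⟨nat_lit 3, [⟨nat_lit 3, nat_lit 12576, nat_lit 8880, nat_lit 14928, nat_lit 13632, nat_lit 7920, R5_311, R5_284, R3_165⟩]⟩]⟩,
 ⟨nat_lit 6, [⟨nat_lit 2, [⟨nat_lit 2, nat_lit 15312, nat_lit 10992, nat_lit 12528, nat_lit 11568, nat_lit 15312, R2_261, R2_241, R5_319⟩]⟩]⟩], [⟨nat_lit 0, [⟨nat_lit 0, [⟨nat_lit 0, nat_lit 3120, nat_lit 0, nat_lit 1536, nat_lit 4032, nat_lit 3360, R6_32, R6_84, R4_70⟩, ⟨nat_lit 3, nat_lit 3312, nat_lit 720, nat_lit 1920, nat_lit 1824, nat_lit 11664, R6_40, R8_38, R3_243⟩]⟩, ⟨nat_lit 3, [⟨nat_lit 3, nat_lit 4176, nat_lit 768, nat_lit 2064, nat_lit 2688, nat_lit 16512, R8_43, R8_56, R10_344⟩]⟩]⟩,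
 ⟨nat_lit 2, [⟨nat_lit 0, [⟨nat_lit 0, nat_lit 9312, nat_lit 192, nat_lit 16656, nat_lit 14448, nat_lit 9360, R13_347, R13_301, R4_195⟩, ⟨nat_lit 3, nat_lit 9504, nat_lit 1200, nat_lit 16704, nat_lit 12192, nat_lit 12000, R13_348, R9_254, R3_250⟩]⟩, ⟨nat_lit 2, [⟨nat_lit 0, nat_lit 10080, nat_lit 240, nat_lit 1344, nat_lit 14496, nat_lit 4848, R3_28, R13_302, R5_101⟩, ⟨nat_lit 2, nat_lit 10224, nat_lit 2352, nat_lit 1584, nat_lit 3504, nat_lit 19584, R3_33, R3_73, R11_408⟩, ⟨nat_lit 3, nat_lit 10416, nat_lit 1296, nat_lit 1968, nat_lit 12240, nat_lit 13056, R3_41, R9_255, R0_272⟩]⟩, ⟨nat_lit 3, [⟨nat_lit 3, nat_lit 11184, nat_lit 1248, nat_lit 14256, nat_lit 12288, nat_lit 16608, R9_297, R9_256, R10_346⟩]⟩]⟩,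
 ⟨nat_lit 3, [⟨nat_lit 3, [⟨nat_lit 3, nat_lit 12624, nat_lit 1056, nat_lit 15120, nat_lit 13728, nat_lit 16560, R5_315, R5_286, R10_345⟩]⟩]⟩,
 ⟨nat_lit 6, [⟨nat_lit 2, [⟨nat_lit 2, nat_lit 15360, nat_lit 1872, nat_lit 12672, nat_lit 11664, nat_lit 19632, R2_264, R2_243, R11_409⟩]⟩]⟩], [⟨nat_lit 0, [⟨nat_lit 0, [⟨nat_lit 0, nat_lit 3168, nat_lit 576, nat_lit 1584, nat_lit 3984, nat_lit 48, R6_33, R6_83, R8_1⟩, ⟨nat_lit 1, nat_lit 3216, nat_lit 6096, nat_lit 2016, nat_lit 4224, nat_lit 14400, R6_42, R4_88, R5_300⟩, ⟨nat_lit 3, nat_lit 3360, nat_lit 8976, nat_lit 1968, nat_lit 1776, nat_lit 13392, R6_41, R8_37, R9_279⟩]⟩, ⟨nat_lit 1, [⟨nat_lit 0, nat_lit 3696, nat_lit 1392, nat_lit 1536, nat_lit 4224, nat_lit 4608, R4_32, R6_88, R5_96⟩, ⟨nat_lit 1, nat_lit 3744, nat_lit 6816, nat_lit 1824, nat_lit 4320, nat_lit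 17904, R4_38, R4_90, R11_373⟩, ⟨nat_lit 3, nat_lit 3840, nat_lit 10512, nat_lit 1776, nat_lit 2976, nat_lit 11520, R4_37, R8_62, R0_240⟩]⟩, ⟨nat_lit 3, [⟨nat_lit 3, nat_lit 4224, nat_lit 9600, nat_lit 2112, nat_lit 2640, nat_lit 720, R8_44, R8_55, R0_15⟩]⟩]⟩,
 ⟨nat_lit 2, [⟨nat_lit 0, [⟨nat_lit 0, nat_lit 9360, nat_lit 672, nat_lit 16800, nat_lit 14256, nat_lit 4800, R13_350, R13_297, R8_100⟩, ⟨nat_lit 1, nat_lit 9408, nat_lit 6192, nat_lit 16896, nat_lit 10608, nat_lit 14544, R13_352, R3_221, R5_303⟩, ⟨nat_lit 3, nat_lit 9552, nat_lit 9072, nat_lit 16848, nat_lit 11952, nat_lit 13632, R13_351, R9_249, R9_284⟩]⟩, ⟨nat_lit 1, [⟨nat_lit 0, nat_lit 10752, nat_lit 1440, nat_lit 12624, nat_lit 14352, nat_lit 4992, R3_263, R13_299, R5_104⟩, ⟨nat_lit 1, nat_lit 10800, nat_lit 6864, nat_lit 12720, nat_lit 10704, nat_lit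 18048, R3_265, R3_223, R11_376⟩, ⟨nat_lit 3, nat_lit 10896, nat_lit 10560, nat_lit 12672, nat_lit 12048, nat_lit 11760, R3_264, R9_251, R0_245⟩]⟩, ⟨nat_lit 2, [⟨nat_lit 0, nat_lit 10128, nat_lit 1872, nat_lit 1392, nat_lit 14304, nat_lit 4128, R3_29, R13_298, R9_86⟩, ⟨nat_lit 1, nat_lit 10320, nat_lit 7296, nat_lit 2016, nat_lit 10656, nat_lit 2592, R3_42, R3_222, R0_54⟩, ⟨nat_lit 2, nat_lit 10272, nat_lit 11664, nat_lit 1632, nat_lit 3456, nat_lit 2496, R3_34, R3_72, R0_52⟩]⟩, ⟨nat_lit 3, [⟨nat_lit 3, nat_lit 11232, nat_lit 9792, nat_lit 14304, nat_lit 12000, nat_lit 8544, R9_298, R9_250, R0_178⟩]⟩]⟩,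
 ⟨nat_lit 3, [⟨nat_lit 3, [⟨nat_lit 3, nat_lit 12672, nat_lit 9696, nat_lit 15216, nat_lit 13680, nat_lit 5952, R5_317, R5_285, R0_124⟩]⟩]⟩,
 ⟨nat_lit 6, [⟨nat_lit 2, [⟨nat_lit 2, nat_lit 15408, nat_lit 11568, nat_lit 12720, nat_lit 11616, nat_lit 12432, R2_265, R2_242, R0_259⟩]⟩]⟩]], [[], [], [], [], [⟨nat_lit 0, [⟨nat_lit 0, [⟨nat_lit 3, nat_lit 3456, nat_lit 3264, nat_lit 1728, nat_lit 2208, nat_lit 17568, R6_36, R4_46, R13_366⟩]⟩, ⟨nat_lit 1, [⟨nat_lit 3, nat_lit 3936, nat_lit 4752, nat_lit 1632, nat_lit 2928, nat_lit 13104, R4_34, R4_61, R3_273⟩]⟩, ⟨nat_lit 3, [⟨nat_lit 3, nat_lit 4416, nat_lit 4128, nat_lit 672, nat_lit 2640, nat_lit 6384, R8_14, R4_55, R3_133⟩, ⟨nat_lit 7, nat_lit 4272, nat_lit 12816, nat_lit 1008, nat_lit 2592, nat_lit 12816, R8_21, R7_54, R2_267⟩]⟩]⟩,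
 ⟨nat_lit 2, [⟨nat_lit 0, [⟨nat_lit 3, nat_lit 9600, nat_lit 3552, nat_lit 16368, nat_lit 2592, nat_lit 17616, R13_341, R5_54, R13_367⟩]⟩, ⟨nat_lit 1, [⟨nat_lit 3, nat_lit 10944, nat_lit 4944, nat_lit 12432, nat_lit 3168, nat_lit 13152, R3_259, R5_66, R3_274⟩]⟩, ⟨nat_lit 2, [⟨nat_lit 3, nat_lit 10464, nat_lit 6528, nat_lit 1776, nat_lit 2784, nat_lit 14592, R3_37, R5_58, R9_304⟩]⟩, ⟨nat_lit 3, [⟨nat_lit 3, nat_lit 11280, nat_lit 4416, nat_lit 14064, nat_lit 3024, nat_lit 6624, R9_293, R5_63, R3_138⟩]⟩]⟩,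
 ⟨nat_lit 3, [⟨nat_lit 3, [⟨nat_lit 7, nat_lit 12720, nat_lit 13152, nat_lit 14880, nat_lit 12816, nat_lit 12864, R5_310, R14_267, R2_268⟩]⟩]⟩], [⟨nat_lit 0, [⟨nat_lit 0, [⟨nat_lit 3, nat_lit 3504, nat_lit 12720, nat_lit 1776, nat_lit 2304, nat_lit 11616, R6_37, R4_48, R3_242⟩]⟩, ⟨nat_lit 3, [⟨nat_lit 3, nat_lit 4464, nat_lit 12864, nat_lit 720, nat_lit 2688, nat_lit 17424, R8_15, R4_56, R10_363⟩, ⟨nat_lit 7, nat_lit 4320, nat_lit 12336, nat_lit 1104, nat_lit 2688, nat_lit 14160, R8_23, R7_56, R1_295⟩]⟩]⟩,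
 ⟨nat_lit 2, [⟨nat_lit 0, [⟨nat_lit 3, nat_lit 9648, nat_lit 15552, nat_lit 16608, nat_lit 2688, nat_lit 11952, R13_346, R5_56, R3_249⟩]⟩, ⟨nat_lit 2, [⟨nat_lit 3, nat_lit 10512, nat_lit 15984, nat_lit 1824, nat_lit 2880, nat_lit 13296, R3_38, R5_60, R0_277⟩]⟩, ⟨nat_lit 3, [⟨nat_lit 3, nat_lit 11328, nat_lit 15744, nat_lit 14208, nat_lit 3072, nat_lit 17472, R9_296, R5_64, R10_364⟩]⟩]⟩,
 ⟨nat_lit 3, [⟨nat_lit 3, [⟨nat_lit 7, nat_lit 12768, nat_lit 14016, nat_lit 15072, nat_lit 12912, nat_lit 14208, R5_314, R14_269, R1_296⟩]⟩]⟩], [], [⟨nat_lit 0, [⟨nat_lit 0, [⟨nat_lit 3, nat_lit 3552, nat_lit 2736, nat_lit 1824, nat_lit 2256, nat_lit 3072, R6_38, R4_47, R3_64⟩, ⟨nat_lit 7, nat_lit 3408, nat_lit 13200, nat_lit 1440, nat_lit 2208, nat_lit 12000, R6_30, R7_46, R2_250⟩]⟩, ⟨nat_lit 1, [⟨nat_lit 3, nat_lit 3984, nat_lit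 3456, nat_lit 1680, nat_lit 2976, nat_lit 13968, R4_35, R4_62, R10_291⟩, ⟨nat_lit 7, nat_lit 3888, nat_lit 15216, nat_lit 1440, nat_lit 2784, nat_lit 12576, R4_30, R7_58, R1_262⟩]⟩, ⟨nat_lit 3, [⟨nat_lit 7, nat_lit 4368, nat_lit 14160, nat_lit 1056, nat_lit 2640, nat_lit 13584, R8_22, R7_55, R12_283⟩]⟩]⟩,
 ⟨nat_lit 2, [⟨nat_lit 0, [⟨nat_lit 3, nat_lit 9696, nat_lit 3024, nat_lit 16752, nat_lit 2640, nat_lit 8880, R13_349, R5_55, R3_185⟩]⟩, ⟨nat_lit 1, [⟨nat_lit 3, nat_lit 10992, nat_lit 3648, nat_lit 12576, nat_lit 3216, nat_lit 14112, R3_262, R5_67, R10_294⟩]⟩, ⟨nat_lit 2, [⟨nat_lit 3, nat_lit 10560, nat_lit 5232, nat_lit 1872, nat_lit 2832, nat_lit 3600, R3_39, R5_59, R0_75⟩]⟩]⟩,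
 ⟨nat_lit 3, [⟨nat_lit 3, [⟨nat_lit 7, nat_lit 12816, nat_lit 14496, nat_lit 15168, nat_lit 12864, nat_lit 13632, R5_316, R14_268, R12_284⟩]⟩]⟩]]], [[], [], [], [], [[], [⟨nat_lit 3, [⟨nat_lit 4, [⟨nat_lit 7, nat_lit 12864, nat_lit 14832, nat_lit 13872, nat_lit 12384, nat_lit 12480, R7_289, R7_258, R2_260⟩]⟩, ⟨nat_lit 7, [⟨nat_lit 7, nat_lit 13056, nat_lit 15024, nat_lit 17616, nat_lit 12432, nat_lit 13824, R14_367, R7_259, R1_288⟩]⟩]⟩,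
 ⟨nat_lit 7, [⟨nat_lit 4, [⟨nat_lit 4, nat_lit 17280, nat_lit 4416, nat_lit 12384, nat_lit 10512, nat_lit 8784, R4_258, R6_219, R7_183⟩, ⟨nat_lit 6, nat_lit 17328, nat_lit 6000, nat_lit 12576, nat_lit 10656, nat_lit 7680, R4_262, R8_222, R2_160⟩, ⟨nat_lit 7, nat_lit 17376, nat_lit 5184, nat_lit 12912, nat_lit 11376, nat_lit 3984, R4_269, R4_237, R2_83⟩]⟩, ⟨nat_lit 6, [⟨nat_lit 6, nat_lit 17760, nat_lit 6336, nat_lit 16320, nat_lit 10704, nat_lit 8208, R5_340, R8_223, R1_171⟩]⟩]⟩]], [[], [⟨nat_lit 7, [⟨nat_lit 4, [⟨nat_lit 4, nat_lit 17424, nat_lit 12144, nat_lit 12480, nat_lit 11328, nat_lit 8880, R4_260, R8_236, R7_185⟩, ⟨nat_lit 6, nat_lit 17472, nat_lit 12240, nat_lit 12672, nat_lit 11280, nat_lit 7776, R4_264, R9_235, R2_162⟩, ⟨nat_lit 7, nat_lit 17520, nat_lit 12192, nat_lit 12960, nat_lit 13056, nat_lit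 4032, R4_270, R5_272, R2_84⟩]⟩, ⟨nat_lit 6, [⟨nat_lit 6, nat_lit 17808, nat_lit 12288, nat_lit 16368, nat_lit 11328, nat_lit 8304, R5_341, R9_236, R1_173⟩]⟩]⟩]], [], [[], [⟨nat_lit 0, [⟨nat_lit 7, [⟨nat_lit 7, nat_lit 4512, nat_lit 18480, nat_lit 1200, nat_lit 2016, nat_lit 12336, R7_25, R7_42, R1_257⟩]⟩]⟩,
 ⟨nat_lit 3, [⟨nat_lit 4, [⟨nat_lit 4, nat_lit 12912, nat_lit 18336, nat_lit 13728, nat_lit 12912, nat_lit 14880, R7_286, R7_269, R7_310⟩, ⟨nat_lit 7, nat_lit 13008, nat_lit 18384, nat_lit 13920, nat_lit 12720, nat_lit 12576, R7_290, R14_265, R2_262⟩]⟩, ⟨nat_lit 7, [⟨nat_lit 7, nat_lit 13152, nat_lit 18528, nat_lit 17664, nat_lit 12768, nat_lit 13920, R14_368, R14_266, R1_290⟩]⟩]⟩,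
 ⟨nat_lit 7, [⟨nat_lit 4, [⟨nat_lit 4, nat_lit 17568, nat_lit 18288, nat_lit 12432, nat_lit 11856, nat_lit 8832, R4_259, R4_247, R7_184⟩, ⟨nat_lit 6, nat_lit 17664, nat_lit 18432, nat_lit 12624, nat_lit 12768, nat_lit 7728, R4_263, R5_266, R2_161⟩]⟩, ⟨nat_lit 6, [⟨nat_lit 6, nat_lit 17856, nat_lit 18576, nat_lit 16416, nat_lit 12912, nat_lit 8256, R5_342, R5_269, R1_172⟩]⟩]⟩], [], [], [], [⟨nat_lit 0, [⟨nat_lit 3, [⟨nat_lit 3, nat_lit 4656, nat_lit 12720, nat_lit 624, nat_lit 1296, nat_lit 18432, R4_13, R4_27, R10_384⟩, ⟨nat_lit 7, nat_lit 4608, nat_lit 12576, nat_lit 1440, nat_lit 1008, nat_lit 15216, R4_30, R7_21, R1_317⟩]⟩, ⟨nat_lit 7, [⟨nat_lit 7, nat_lit 4560, nat_lit 12336, nat_lit 1248, nat_lit 1968, nat_lit 18480, R7_26, R7_41, R11_385⟩]⟩]⟩,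
 ⟨nat_lit 2, [⟨nat_lit 3, [⟨nat_lit 3, nat_lit 11376, nat_lit 15984, nat_lit 240, nat_lit 2976, nat_lit 18480, R5_5, R5_62, R10_385⟩]⟩]⟩,
 ⟨nat_lit 3, [⟨nat_lit 4, [⟨nat_lit 4, nat_lit 12960, nat_lit 13056, nat_lit 14160, nat_lit 11472, nat_lit 13536, R7_295, R7_239, R4_282⟩]⟩, ⟨nat_lit 7, [⟨nat_lit 4, nat_lit 13104, nat_lit 13824, nat_lit 17712, nat_lit 11856, nat_lit 15024, R14_369, R7_247, R5_313⟩, ⟨nat_lit 7, nat_lit 13200, nat_lit 13920, nat_lit 17760, nat_lit 12672, nat_lit 18528, R14_370, R14_264, R11_386⟩]⟩]⟩,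
 ⟨nat_lit 7, [⟨nat_lit 4, [⟨nat_lit 4, nat_lit 17616, nat_lit 2592, nat_lit 13056, nat_lit 11040, nat_lit 8928, R4_272, R4_230, R4_186⟩, ⟨nat_lit 6, nat_lit 17712, nat_lit 2640, nat_lit 13152, nat_lit 12864, nat_lit 15168, R4_274, R5_268, R3_316⟩]⟩, ⟨nat_lit 6, [⟨nat_lit 6, nat_lit 17904, nat_lit 5088, nat_lit 16272, nat_lit 13008, nat_lit 14688, R5_339, R5_271, R10_306⟩]⟩]⟩]]]]
noncomputable def N2551 : T3 (List N0) := [[[[⟨nat_lit 1, [⟨nat_lit 4, [⟨nat_lit 4, nat_lit 2736, nat_lit 8304, nat_lit 12240, nat_lit 1920, nat_lit 432, R4_255, R4_40, R6_9⟩]⟩, ⟨nat_lit 5, [⟨nat_lit 4, nat_lit 3456, nat_lit 8880, nat_lit 3024, nat_lit 2112, nat_lit 336, R3_63, R4_44, R4_7⟩]⟩]⟩,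
 ⟨nat_lit 5, [⟨nat_lit 4, [⟨nat_lit 4, nat_lit 14352, nat_lit 13728, nat_lit 13440, nat_lit 2112, nat_lit 816, R7_280, R7_44, R6_17⟩, ⟨nat_lit 7, nat_lit 14544, nat_lit 13824, nat_lit 13536, nat_lit 912, nat_lit 4944, R7_282, R2_19, R13_103⟩]⟩, ⟨nat_lit 5, [⟨nat_lit 4, nat_lit 14928, nat_lit 14112, nat_lit 12144, nat_lit 2160, nat_lit 384, R2_253, R7_45, R4_8⟩, ⟨nat_lit 7, nat_lit 15072, nat_lit 14256, nat_lit 12240, nat_lit 1056, nat_lit 3696, R2_255, R2_22, R3_77⟩]⟩, ⟨nat_lit 7, [⟨nat_lit 7, nat_lit 15360, nat_lit 14016, nat_lit 11952, nat_lit 960, nat_lit 576, R2_249, R2_20, R3_12⟩]⟩]⟩], [⟨nat_lit 1, [⟨nat_lit 4, [⟨nat_lit 4, nat_lit 2784, nat_lit 8880, nat_lit 13104, nat_lit 10848, nat_lit 14544, R4_273, R4_226, R4_303⟩]⟩]⟩,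
 ⟨nat_lit 5, [⟨nat_lit 4, [⟨nat_lit 4, nat_lit 14400, nat_lit 13488, nat_lit 14256, nat_lit 11424, nat_lit 11520, R7_297, R7_238, R4_240⟩, ⟨nat_lit 7, nat_lit 14592, nat_lit 13632, nat_lit 14352, nat_lit 10800, nat_lit 10368, R7_299, R2_225, R3_216⟩]⟩, ⟨nat_lit 7, [⟨nat_lit 7, nat_lit 15408, nat_lit 13824, nat_lit 13968, nat_lit 10896, nat_lit 3408, R2_291, R2_227, R10_71⟩]⟩]⟩], [⟨nat_lit 1, [⟨nat_lit 4, [⟨nat_lit 4, nat_lit 2832, nat_lit 5232, nat_lit 14640, nat_lit 7440, nat_lit 18240, R4_305, R4_155, R8_380⟩, ⟨nat_lit 5, nat_lit 2880, nat_lit 5616, nat_lit 14688, nat_lit 2400, nat_lit 13248, R4_306, R3_50, R5_276⟩]⟩, ⟨nat_lit 5, [⟨nat_lit 4, nat_lit 3504, nat_lit 5280, nat_lit 3264, nat_lit 7632, nat_lit 3936, R3_68, R4_159, R5_82⟩, ⟨nat_lit 5, nat_lit 3552, nat_lit 5664, nat_lit 3312, nat_lit 2496, nat_lit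 16176, R3_69, R3_52, R11_337⟩]⟩]⟩,
 ⟨nat_lit 5, [⟨nat_lit 4, [⟨nat_lit 4, nat_lit 14448, nat_lit 13008, nat_lit 16752, nat_lit 7584, nat_lit 11376, R7_349, R7_158, R8_237⟩, ⟨nat_lit 5, nat_lit 14496, nat_lit 13248, nat_lit 16944, nat_lit 6384, nat_lit 12960, R7_353, R2_133, R5_270⟩, ⟨nat_lit 7, nat_lit 14640, nat_lit 13104, nat_lit 16848, nat_lit 8016, nat_lit 11184, R7_351, R2_167, R9_233⟩]⟩, ⟨nat_lit 5, [⟨nat_lit 4, nat_lit 14976, nat_lit 13056, nat_lit 14976, nat_lit 7632, nat_lit 2928, R2_312, R7_159, R5_61⟩, ⟨nat_lit 5, nat_lit 15024, nat_lit 13296, nat_lit 15168, nat_lit 6432, nat_lit 15888, R2_316, R2_134, R11_331⟩, ⟨nat_lit 7, nat_lit 15120, nat_lit 13200, nat_lit 15072, nat_lit 8112, nat_lit 9696, R2_314, R2_169, R0_202⟩]⟩, ⟨nat_lit 7, [⟨nat_lit 7, nat_lit 15456, nat_lit 13152, nat_lit 14688, nat_lit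 8064, nat_lit 9360, R2_306, R2_168, R0_195⟩]⟩]⟩]], [], [[], [], [⟨nat_lit 1, [⟨nat_lit 4, [⟨nat_lit 5, nat_lit 2928, nat_lit 16224, nat_lit 14880, nat_lit 8544, nat_lit 13344, R4_310, R10_178, R5_278⟩]⟩, ⟨nat_lit 5, [⟨nat_lit 5, nat_lit 3600, nat_lit 16512, nat_lit 10512, nat_lit 8592, nat_lit 16272, R3_219, R10_179, R11_339⟩]⟩]⟩,
 ⟨nat_lit 5, [⟨nat_lit 4, [⟨nat_lit 5, nat_lit 14688, nat_lit 16272, nat_lit 17184, nat_lit 5088, nat_lit 13008, R7_358, R1_106, R5_271⟩]⟩, ⟨nat_lit 5, [⟨nat_lit 5, nat_lit 15168, nat_lit 16608, nat_lit 15456, nat_lit 5136, nat_lit 15936, R2_322, R1_107, R11_332⟩]⟩]⟩]], [[⟨nat_lit 1, [⟨nat_lit 4, [⟨nat_lit 4, nat_lit 2976, nat_lit 19056, nat_lit 12288, nat_lit 1152, nat_lit 5280, R4_256, R5_24, R6_110⟩, ⟨nat_lit 7, nat_lit 3168, nat_lit 19104, nat_lit 12336, nat_lit 9504, nat_lit 6000,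 R4_257, R11_198, R13_125⟩]⟩, ⟨nat_lit 5, [⟨nat_lit 4, nat_lit 3648, nat_lit 19392, nat_lit 8832, nat_lit 3552, nat_lit 5568, R3_184, R5_74, R4_116⟩, ⟨nat_lit 7, nat_lit 3792, nat_lit 19440, nat_lit 8928, nat_lit 9696, nat_lit 4272, R3_186, R11_202, R3_89⟩]⟩]⟩,
 ⟨nat_lit 5, [⟨nat_lit 4, [⟨nat_lit 7, nat_lit 14736, nat_lit 19152, nat_lit 13632, nat_lit 240, nat_lit 5952, R7_284, R1_5, R13_124⟩]⟩, ⟨nat_lit 5, [⟨nat_lit 7, nat_lit 15216, nat_lit 19536, nat_lit 12384, nat_lit 384, nat_lit 4224, R2_258, R1_8, R3_88⟩]⟩, ⟨nat_lit 7, [⟨nat_lit 7, nat_lit 15504, nat_lit 19632, nat_lit 12432, nat_lit 288, nat_lit 4176, R2_259, R1_6, R3_87⟩]⟩]⟩], [⟨nat_lit 1, [⟨nat_lit 4, [⟨nat_lit 4, nat_lit 3024, nat_lit 15264, nat_lit 13248, nat_lit 13200, nat_lit 14592, R4_276, R5_275, R4_304⟩, ⟨nat_lit 7, nat_lit 3216, nat_lit 15312,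 nat_lit 13296, nat_lit 9648, nat_lit 10464, R4_277, R11_201, R3_218⟩]⟩]⟩,
 ⟨nat_lit 5, [⟨nat_lit 4, [⟨nat_lit 7, nat_lit 14784, nat_lit 15408, nat_lit 14496, nat_lit 11184, nat_lit 10416, R7_302, R1_233, R3_217⟩]⟩, ⟨nat_lit 7, [⟨nat_lit 7, nat_lit 15552, nat_lit 15744, nat_lit 14208, nat_lit 11280, nat_lit 3984, R2_296, R1_235, R10_83⟩]⟩]⟩], [⟨nat_lit 1, [⟨nat_lit 4, [⟨nat_lit 4, nat_lit 3072, nat_lit 15360, nat_lit 14736, nat_lit 9504, nat_lit 19104, R4_307, R5_198, R8_398⟩, ⟨nat_lit 5, nat_lit 3120, nat_lit 15456, nat_lit 14832, nat_lit 6960, nat_lit 13296, R4_309, R0_145, R5_277⟩, ⟨nat_lit 7, nat_lit 3264, nat_lit 15408, nat_lit 14784, nat_lit 9552, nat_lit 11424, R4_308, R11_199, R9_238⟩]⟩, ⟨nat_lit 5, [⟨nat_lit 4, nat_lit 3696, nat_lit 15648, nat_lit 9312, nat_lit 11760, nat_lit 12288, R3_194, R5_245, R5_256⟩,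 ⟨nat_lit 5, nat_lit 3744, nat_lit 15744, nat_lit 9408, nat_lit 7008, nat_lit 16224, R3_196, R0_146, R11_338⟩, ⟨nat_lit 7, nat_lit 3840, nat_lit 15696, nat_lit 9360, nat_lit 9744, nat_lit 9936, R3_195, R11_203, R0_207⟩]⟩]⟩,
 ⟨nat_lit 5, [⟨nat_lit 4, [⟨nat_lit 7, nat_lit 14832, nat_lit 15504, nat_lit 16992, nat_lit 8544, nat_lit 11232, R7_354, R1_178, R9_234⟩]⟩, ⟨nat_lit 5, [⟨nat_lit 7, nat_lit 15264, nat_lit 15792, nat_lit 15216, nat_lit 8640, nat_lit 9744, R2_317, R1_180, R0_203⟩]⟩, ⟨nat_lit 7, [⟨nat_lit 7, nat_lit 15600, nat_lit 15888, nat_lit 15264, nat_lit 8592, nat_lit 9600, R2_318, R1_179, R0_200⟩]⟩]⟩], [⟨nat_lit 1, [⟨nat_lit 4, [⟨nat_lit 7, nat_lit 3312, nat_lit 8640, nat_lit 13728, nat_lit 9600, nat_lit 16800, R4_286, R11_200, R3_350⟩]⟩, ⟨nat_lit 5, [⟨nat_lit 7, nat_lit 3888, nat_lit 9072, nat_lit 9072,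 nat_lit 9792, nat_lit 12480, R3_189, R11_204, R10_260⟩]⟩]⟩,
 ⟨nat_lit 5, [⟨nat_lit 4, [⟨nat_lit 7, nat_lit 14880, nat_lit 15456, nat_lit 14976, nat_lit 5952, nat_lit 10320, R7_312, R1_124, R3_215⟩]⟩, ⟨nat_lit 5, [⟨nat_lit 7, nat_lit 15312, nat_lit 15792, nat_lit 14160, nat_lit 6048, nat_lit 12336, R2_295, R1_126, R10_257⟩]⟩]⟩]]], [[[⟨nat_lit 5, [⟨nat_lit 4, [⟨nat_lit 4, nat_lit 15648, nat_lit 1200, nat_lit 4464, nat_lit 2304, nat_lit 3024, R14_93, R7_48, R6_63⟩, ⟨nat_lit 7, nat_lit 15840, nat_lit 7104, nat_lit 4896, nat_lit 2448, nat_lit 8784, R14_102, R2_51, R13_183⟩]⟩, ⟨nat_lit 5, [⟨nat_lit 4, nat_lit 17424, nat_lit 1296, nat_lit 2832, nat_lit 2544, nat_lit 2688, R12_59, R7_53, R4_56⟩, ⟨nat_lit 7, nat_lit 17568, nat_lit 7248, nat_lit 3264, nat_lit 2880, nat_lit 7104, R12_68, R2_60, R3_148⟩]⟩, ⟨nat_lit 6, [⟨nat_lit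 4, nat_lit 16512, nat_lit 1392, nat_lit 6960, nat_lit 2400, nat_lit 3984, R12_145, R7_50, R8_83⟩, ⟨nat_lit 7, nat_lit 16704, nat_lit 7344, nat_lit 8496, nat_lit 2592, nat_lit 6480, R12_177, R2_54, R9_135⟩]⟩, ⟨nat_lit 7, [⟨nat_lit 7, nat_lit 18048, nat_lit 7152, nat_lit 13104, nat_lit 2496, nat_lit 2688, R12_273, R2_52, R3_56⟩]⟩]⟩], [⟨nat_lit 5, [⟨nat_lit 4, [⟨nat_lit 4, nat_lit 15696, nat_lit 14976, nat_lit 5232, nat_lit 11616, nat_lit 11952, R14_109, R7_242, R4_249⟩, ⟨nat_lit 7, nat_lit 15888, nat_lit 15456, nat_lit 5376, nat_lit 11136, nat_lit 10896, R14_112, R2_232, R3_227⟩]⟩, ⟨nat_lit 6, [⟨nat_lit 4, nat_lit 16560, nat_lit 15120, nat_lit 7104, nat_lit 11712, nat_lit 13728, R12_148, R7_244, R5_286⟩, ⟨nat_lit 7, nat_lit 16752, nat_lit 15696, nat_lit 8736, nat_lit 11328, nat_lit 4320, R12_182, R2_236, R0_90⟩]⟩,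 ⟨nat_lit 7, [⟨nat_lit 7, nat_lit 18096, nat_lit 15552, nat_lit 14928, nat_lit 11232, nat_lit 6144, R12_311, R2_234, R10_128⟩]⟩]⟩], [⟨nat_lit 5, [⟨nat_lit 4, [⟨nat_lit 4, nat_lit 15744, nat_lit 14160, nat_lit 6240, nat_lit 7728, nat_lit 11520, R14_130, R7_161, R8_240⟩, ⟨nat_lit 5, nat_lit 15792, nat_lit 14784, nat_lit 7584, nat_lit 6576, nat_lit 14016, R14_158, R2_137, R5_292⟩, ⟨nat_lit 7, nat_lit 15936, nat_lit 14448, nat_lit 6912, nat_lit 10080, nat_lit 12720, R14_144, R2_210, R9_265⟩]⟩, ⟨nat_lit 5, [⟨nat_lit 4, nat_lit 17472, nat_lit 14208, nat_lit 4224, nat_lit 7968, nat_lit 3072, R12_88, R7_166, R5_64⟩, ⟨nat_lit 5, nat_lit 17520, nat_lit 14832, nat_lit 5568, nat_lit 6816, nat_lit 17088, R12_116, R2_142, R11_356⟩, ⟨nat_lit 7, nat_lit 17616, nat_lit 14544, nat_lit 4896, nat_lit 10224, nat_lit 10896, R12_102,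 R2_213, R0_227⟩]⟩, ⟨nat_lit 6, [⟨nat_lit 4, nat_lit 16608, nat_lit 14256, nat_lit 7584, nat_lit 7824, nat_lit 3168, R12_158, R7_163, R9_66⟩, ⟨nat_lit 5, nat_lit 16656, nat_lit 14928, nat_lit 9408, nat_lit 6672, nat_lit 1632, R12_196, R2_139, R0_34⟩]⟩, ⟨nat_lit 7, [⟨nat_lit 7, nat_lit 18144, nat_lit 14496, nat_lit 16176, nat_lit 10128, nat_lit 10560, R12_337, R2_211, R0_220⟩]⟩]⟩]], [[⟨nat_lit 4, [⟨nat_lit 4, [⟨nat_lit 4, nat_lit 13152, nat_lit 4512, nat_lit 1728, nat_lit 1344, nat_lit 10320, R7_36, R7_28, R6_215⟩, ⟨nat_lit 7, nat_lit 13296, nat_lit 4896, nat_lit 8352, nat_lit 192, nat_lit 9696, R7_174, R2_4, R13_202⟩]⟩, ⟨nat_lit 6, [⟨nat_lit 4, nat_lit 13440, nat_lit 6096, nat_lit 288, nat_lit 7344, nat_lit 11232, R2_6, R7_153, R8_234⟩, ⟨nat_lit 6, nat_lit 13584, nat_lit 7008, nat_lit 6000, nat_lit 5568, nat_lit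 7728, R2_125, R2_116, R5_161⟩, ⟨nat_lit 7, nat_lit 13728, nat_lit 6624, nat_lit 7296, nat_lit 7200, nat_lit 7632, R2_152, R2_150, R9_159⟩]⟩, ⟨nat_lit 7, [⟨nat_lit 7, nat_lit 13824, nat_lit 5520, nat_lit 5328, nat_lit 5904, nat_lit 9888, R2_111, R2_123, R3_206⟩]⟩]⟩,
 ⟨nat_lit 5, [⟨nat_lit 4, [⟨nat_lit 4, nat_lit 15984, nat_lit 4560, nat_lit 4512, nat_lit 18768, nat_lit 10608, R14_94, R14_391, R6_221⟩, ⟨nat_lit 7, nat_lit 16176, nat_lit 4944, nat_lit 4992, nat_lit 528, nat_lit 9744, R14_104, R12_11, R13_203⟩]⟩, ⟨nat_lit 5, [⟨nat_lit 4, nat_lit 17664, nat_lit 5280, nat_lit 2880, nat_lit 19680, nat_lit 11472, R12_60, R14_410, R4_239⟩, ⟨nat_lit 7, nat_lit 17808, nat_lit 5472, nat_lit 3360, nat_lit 2640, nat_lit 7584, R12_70, R12_55, R3_158⟩]⟩, ⟨nat_lit 6, [⟨nat_lit 4, nat_lit 16800, nat_lit 6144, nat_lit 7008, nat_lit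 19344, nat_lit 11952, R12_146, R14_403, R8_249⟩, ⟨nat_lit 6, nat_lit 16944, nat_lit 7056, nat_lit 7824, nat_lit 15936, nat_lit 7824, R12_163, R12_332, R5_163⟩, ⟨nat_lit 7, nat_lit 17136, nat_lit 6672, nat_lit 8592, nat_lit 1728, nat_lit 7680, R12_179, R12_36, R9_160⟩]⟩, ⟨nat_lit 7, [⟨nat_lit 7, nat_lit 18192, nat_lit 5616, nat_lit 13536, nat_lit 672, nat_lit 10224, R12_282, R12_14, R3_213⟩]⟩]⟩,
 ⟨nat_lit 6, [⟨nat_lit 6, [⟨nat_lit 6, nat_lit 19056, nat_lit 7104, nat_lit 4704, nat_lit 4272, nat_lit 7776, R1_98, R1_89, R5_162⟩]⟩]⟩,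
 ⟨nat_lit 7, [⟨nat_lit 7, [⟨nat_lit 7, nat_lit 19488, nat_lit 5568, nat_lit 4032, nat_lit 4608, nat_lit 10032, R1_84, R1_96, R3_209⟩]⟩]⟩], [⟨nat_lit 4, [⟨nat_lit 4, [⟨nat_lit 4, nat_lit 13200, nat_lit 4512, nat_lit 1776, nat_lit 1536, nat_lit 4272, R7_37, R7_32, R4_89⟩, ⟨nat_lit 7, nat_lit 13344, nat_lit 4896, nat_lit 8400, nat_lit 624, nat_lit 10752, R7_175, R2_13, R3_224⟩]⟩, ⟨nat_lit 6, [⟨nat_lit 4, nat_lit 13488, nat_lit 5712, nat_lit 336, nat_lit 7536, nat_lit 3120, R2_7, R7_157, R5_65⟩, ⟨nat_lit 6, nat_lit 13632, nat_lit 6624, nat_lit 6048, nat_lit 5760, nat_lit 7344, R2_126, R2_120, R11_153⟩, ⟨nat_lit 7, nat_lit 13776, nat_lit 6240, nat_lit 7344, nat_lit 7392, nat_lit 5472, R2_153, R2_154, R0_114⟩]⟩, ⟨nat_lit 7, [⟨nat_lit 7, nat_lit 13872, nat_lit 5136, nat_lit 5376, nat_lit 6336, nat_lit 6816, R2_112,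 R2_132, R10_142⟩]⟩]⟩,
 ⟨nat_lit 5, [⟨nat_lit 4, [⟨nat_lit 4, nat_lit 16032, nat_lit 4560, nat_lit 5280, nat_lit 21888, nat_lit 12048, R14_110, R14_456, R4_251⟩, ⟨nat_lit 7, nat_lit 16224, nat_lit 4944, nat_lit 5472, nat_lit 10512, nat_lit 10992, R14_114, R12_219, R3_229⟩]⟩, ⟨nat_lit 6, [⟨nat_lit 4, nat_lit 16848, nat_lit 5760, nat_lit 7152, nat_lit 22416, nat_lit 14256, R12_149, R14_467, R5_297⟩, ⟨nat_lit 6, nat_lit 16992, nat_lit 6672, nat_lit 7872, nat_lit 17232, nat_lit 7440, R12_164, R12_359, R11_155⟩, ⟨nat_lit 7, nat_lit 17184, nat_lit 6288, nat_lit 8832, nat_lit 11424, nat_lit 5520, R12_184, R12_238, R0_115⟩]⟩, ⟨nat_lit 7, [⟨nat_lit 7, nat_lit 18240, nat_lit 5232, nat_lit 15120, nat_lit 10896, nat_lit 6912, R12_315, R12_227, R10_144⟩]⟩]⟩,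
 ⟨nat_lit 6, [⟨nat_lit 6, [⟨nat_lit 6, nat_lit 19104, nat_lit 6720, nat_lit 4752, nat_lit 4464, nat_lit 7392, R1_99, R1_93, R11_154⟩]⟩]⟩,
 ⟨nat_lit 7, [⟨nat_lit 7, [⟨nat_lit 7, nat_lit 19536, nat_lit 5184, nat_lit 4080, nat_lit 5040, nat_lit 6864, R1_85, R1_105, R10_143⟩]⟩]⟩], [⟨nat_lit 4, [⟨nat_lit 4, [⟨nat_lit 4, nat_lit 13248, nat_lit 11280, nat_lit 1872, nat_lit 1488, nat_lit 4128, R7_39, R7_31, R8_86⟩, ⟨nat_lit 7, nat_lit 13392, nat_lit 11376, nat_lit 8496, nat_lit 480, nat_lit 12096, R7_177, R2_10, R9_252⟩]⟩, ⟨nat_lit 6, [⟨nat_lit 4, nat_lit 13536, nat_lit 11328, nat_lit 432, nat_lit 7488, nat_lit 12144, R2_9, R7_156, R9_253⟩, ⟨nat_lit 6, nat_lit 13680, nat_lit 11472, nat_lit 6144, nat_lit 5712, nat_lit 1776, R2_128, R2_119, R0_37⟩]⟩, ⟨nat_lit 7, [⟨nat_lit 7, nat_lit 13920, nat_lit 11424, nat_lit 5664,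 nat_lit 6192, nat_lit 1728, R2_118, R2_129, R0_36⟩]⟩]⟩,
 ⟨nat_lit 5, [⟨nat_lit 4, [⟨nat_lit 4, nat_lit 16080, nat_lit 12864, nat_lit 6288, nat_lit 20256, nat_lit 12096, R14_131, R14_422, R8_252⟩, ⟨nat_lit 5, nat_lit 16128, nat_lit 13488, nat_lit 7632, nat_lit 16032, nat_lit 14112, R14_159, R12_334, R5_294⟩, ⟨nat_lit 7, nat_lit 16272, nat_lit 13152, nat_lit 6960, nat_lit 7728, nat_lit 12768, R14_145, R12_161, R9_266⟩]⟩, ⟨nat_lit 5, [⟨nat_lit 4, nat_lit 17712, nat_lit 12912, nat_lit 4272, nat_lit 21552, nat_lit 14208, R12_89, R14_449, R5_296⟩, ⟨nat_lit 5, nat_lit 17760, nat_lit 13536, nat_lit 5616, nat_lit 17328, nat_lit 17184, R12_117, R12_361, R11_358⟩, ⟨nat_lit 7, nat_lit 17856, nat_lit 13248, nat_lit 4944, nat_lit 9600, nat_lit 10944, R12_103, R12_200, R0_228⟩]⟩, ⟨nat_lit 6, [⟨nat_lit 4, nat_lit 16896, nat_lit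 12960, nat_lit 7632, nat_lit 21024, nat_lit 12912, R12_159, R14_438, R9_269⟩, ⟨nat_lit 5, nat_lit 17088, nat_lit 13632, nat_lit 9456, nat_lit 16800, nat_lit 11088, R12_197, R12_350, R0_231⟩, ⟨nat_lit 6, nat_lit 17040, nat_lit 13824, nat_lit 7968, nat_lit 16656, nat_lit 11232, R12_166, R12_347, R0_234⟩]⟩, ⟨nat_lit 7, [⟨nat_lit 7, nat_lit 18288, nat_lit 13200, nat_lit 16608, nat_lit 8016, nat_lit 11184, R12_346, R12_167, R0_233⟩]⟩]⟩,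
 ⟨nat_lit 6, [⟨nat_lit 6, [⟨nat_lit 6, nat_lit 19152, nat_lit 14352, nat_lit 4848, nat_lit 4416, nat_lit 6816, R1_101, R1_92, R0_142⟩]⟩]⟩,
 ⟨nat_lit 7, [⟨nat_lit 7, [⟨nat_lit 7, nat_lit 19584, nat_lit 14016, nat_lit 4368, nat_lit 4896, nat_lit 6768, R1_91, R1_102, R0_141⟩]⟩]⟩]], [[], [], [⟨nat_lit 5, [⟨nat_lit 4, [⟨nat_lit 5, nat_lit 16320, nat_lit 3648, nat_lit 7680, nat_lit 5280, nat_lit 14064, R14_160, R1_110, R5_293⟩]⟩, ⟨nat_lit 5, [⟨nat_lit 5, nat_lit 17904, nat_lit 3744, nat_lit 5664, nat_lit 5520, nat_lit 17136, R12_118, R1_115, R11_357⟩]⟩, ⟨nat_lit 6, [⟨nat_lit 5, nat_lit 17232, nat_lit 3840, nat_lit 9504, nat_lit 5376, nat_lit 6672, R12_198, R1_112, R0_139⟩]⟩]⟩]], [[⟨nat_lit 5, [⟨nat_lit 4, [⟨nat_lit 7, nat_lit 16368, nat_lit 4080, nat_lit 4944, nat_lit 1920, nat_lit 9456, R14_103, R1_40, R13_197⟩]⟩,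 ⟨nat_lit 5, [⟨nat_lit 7, nat_lit 17952, nat_lit 4992, nat_lit 3312, nat_lit 2352, nat_lit 7488, R12_69, R1_49, R3_156⟩]⟩, ⟨nat_lit 6, [⟨nat_lit 7, nat_lit 17280, nat_lit 6576, nat_lit 8544, nat_lit 2064, nat_lit 7344, R12_178, R1_43, R9_153⟩]⟩, ⟨nat_lit 7, [⟨nat_lit 7, nat_lit 18336, nat_lit 5232, nat_lit 13344, nat_lit 1968, nat_lit 7440, R12_278, R1_41, R3_155⟩]⟩]⟩], [⟨nat_lit 5, [⟨nat_lit 4, [⟨nat_lit 7, nat_lit 16416, nat_lit 2544, nat_lit 5424, nat_lit 11712, nat_lit 10944, R14_113, R1_244, R3_228⟩]⟩, ⟨nat_lit 6, [⟨nat_lit 7, nat_lit 17328, nat_lit 4416, nat_lit 8784, nat_lit 11904, nat_lit 5184, R12_183, R1_248, R0_108⟩]⟩, ⟨nat_lit 7, [⟨nat_lit 7, nat_lit 18384, nat_lit 3072, nat_lit 15024, nat_lit 11808, nat_lit 6528, R12_313, R1_246, R10_136⟩]⟩]⟩]]], [[[⟨nat_lit 1, [⟨nat_lit 5, [⟨nat_lit 4, nat_lit 4032,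 nat_lit 1152, nat_lit 4608, nat_lit 2832, nat_lit 912, R10_96, R4_59, R4_19⟩]⟩]⟩,
 ⟨nat_lit 5, [⟨nat_lit 5, [⟨nat_lit 4, nat_lit 18432, nat_lit 624, nat_lit 12720, nat_lit 2736, nat_lit 1296, R1_265, R7_57, R4_27⟩, ⟨nat_lit 7, nat_lit 18576, nat_lit 7008, nat_lit 12816, nat_lit 3072, nat_lit 4848, R1_267, R2_64, R3_101⟩]⟩]⟩], [], [⟨nat_lit 1, [⟨nat_lit 5, [⟨nat_lit 4, nat_lit 4080, nat_lit 144, nat_lit 4656, nat_lit 8016, nat_lit 4080, R10_97, R4_167, R5_85⟩, ⟨nat_lit 5, nat_lit 4128, nat_lit 5808, nat_lit 4704, nat_lit 10128, nat_lit 16560, R10_98, R3_211, R11_345⟩]⟩]⟩,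
 ⟨nat_lit 5, [⟨nat_lit 5, [⟨nat_lit 4, nat_lit 18480, nat_lit 240, nat_lit 15984, nat_lit 8016, nat_lit 2976, R1_333, R7_167, R5_62⟩, ⟨nat_lit 5, nat_lit 18528, nat_lit 5952, nat_lit 16176, nat_lit 7008, nat_lit 16464, R1_337, R2_146, R11_343⟩, ⟨nat_lit 7, nat_lit 18624, nat_lit 7872, nat_lit 16080, nat_lit 10272, nat_lit 10176, R1_335, R2_214, R0_212⟩]⟩]⟩]], [], [[], [], [⟨nat_lit 1, [⟨nat_lit 5, [⟨nat_lit 5, nat_lit 4176, nat_lit 21456, nat_lit 5136, nat_lit 8640, nat_lit 16656, R10_107, R10_180, R11_347⟩]⟩]⟩,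
 ⟨nat_lit 5, [⟨nat_lit 5, [⟨nat_lit 5, nat_lit 18672, nat_lit 21552, nat_lit 16464, nat_lit 5712, nat_lit 16512, R1_343, R1_119, R11_344⟩]⟩]⟩], [], [], [], [⟨nat_lit 1, [⟨nat_lit 1, [⟨nat_lit 1, nat_lit 5184, nat_lit 15648, nat_lit 3888, nat_lit 7872, nat_lit 15504, R1_81, R1_164, R1_323⟩]⟩, ⟨nat_lit 5, [⟨nat_lit 1, nat_lit 4272, nat_lit 15696, nat_lit 5040, nat_lit 7920, nat_lit 12720, R10_105, R1_165, R10_265⟩, ⟨nat_lit 5, nat_lit 4224, nat_lit 15744, nat_lit 5088, nat_lit 8688, nat_lit 11520, R10_106, R10_181, R1_240⟩]⟩]⟩,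
 ⟨nat_lit 5, [⟨nat_lit 5, [⟨nat_lit 5, nat_lit 18720, nat_lit 15792, nat_lit 11376, nat_lit 15552, nat_lit 11472, R1_237, R1_324, R1_239⟩]⟩]⟩]], [[⟨nat_lit 1, [⟨nat_lit 5, [⟨nat_lit 4, nat_lit 4320, nat_lit 4464, nat_lit 4752, nat_lit 4320, nat_lit 7296, R10_99, R5_90, R4_152⟩, ⟨nat_lit 7, nat_lit 4464, nat_lit 5040, nat_lit 4848, nat_lit 10224, nat_lit 6000, R10_101, R11_213, R3_125⟩]⟩]⟩,
 ⟨nat_lit 5, [⟨nat_lit 5, [⟨nat_lit 7, nat_lit 18768, nat_lit 5088, nat_lit 12960, nat_lit 2544, nat_lit 5952, R1_270, R1_53, R3_124⟩]⟩]⟩], [], [⟨nat_lit 1, [⟨nat_lit 5, [⟨nat_lit 4, nat_lit 4368, nat_lit 14112, nat_lit 4800, nat_lit 12672, nat_lit 12528, R10_100, R5_264, R5_261⟩, ⟨nat_lit 5, nat_lit 4416, nat_lit 14208, nat_lit 4992, nat_lit 7152, nat_lit 16608, R10_104, R0_149, R11_346⟩, ⟨nat_lit 7, nat_lit 4512, nat_lit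 14160, nat_lit 4944, nat_lit 10272, nat_lit 10272, R10_103, R11_214, R0_214⟩]⟩]⟩,
 ⟨nat_lit 5, [⟨nat_lit 5, [⟨nat_lit 7, nat_lit 18816, nat_lit 14256, nat_lit 16224, nat_lit 10848, nat_lit 10224, R1_338, R1_226, R0_213⟩]⟩]⟩], [⟨nat_lit 1, [⟨nat_lit 5, [⟨nat_lit 7, nat_lit 4560, nat_lit 19248, nat_lit 4896, nat_lit 10320, nat_lit 12672, R10_102, R11_215, R10_264⟩]⟩]⟩,
 ⟨nat_lit 5, [⟨nat_lit 5, [⟨nat_lit 7, nat_lit 18864, nat_lit 19344, nat_lit 15696, nat_lit 7920, nat_lit 12624, R1_327, R1_165, R10_263⟩]⟩]⟩]], [], [], [], [[], [], [], [], [], [], [], [⟨nat_lit 1, [⟨nat_lit 5, [⟨nat_lit 3, nat_lit 5136, nat_lit 21456, nat_lit 4176, nat_lit 8640, nat_lit 16656, R10_87, R10_180, R11_347⟩]⟩]⟩]]], [[], [], [], [[⟨nat_lit 1, [⟨nat_lit 4, [⟨nat_lit 4, nat_lit 5664, nat_lit 432, nat_lit 14352, nat_lit 1440, nat_lit 6624,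 R5_299, R5_30, R6_138⟩, ⟨nat_lit 7, nat_lit 5856, nat_lit 4032, nat_lit 14736, nat_lit 9840, nat_lit 7632, R5_307, R11_205, R13_159⟩]⟩, ⟨nat_lit 5, [⟨nat_lit 4, nat_lit 6192, nat_lit 1104, nat_lit 3216, nat_lit 3792, nat_lit 6720, R0_67, R5_79, R4_140⟩, ⟨nat_lit 7, nat_lit 6336, nat_lit 6288, nat_lit 3312, nat_lit 10128, nat_lit 6336, R0_69, R11_211, R3_132⟩]⟩, ⟨nat_lit 7, [⟨nat_lit 7, nat_lit 6576, nat_lit 5760, nat_lit 5376, nat_lit 9984, nat_lit 5424, R11_112, R11_208, R3_113⟩]⟩]⟩,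
 ⟨nat_lit 5, [⟨nat_lit 7, [⟨nat_lit 7, nat_lit 18912, nat_lit 5136, nat_lit 13008, nat_lit 528, nat_lit 5904, R1_271, R1_11, R3_123⟩]⟩]⟩], [⟨nat_lit 1, [⟨nat_lit 4, [⟨nat_lit 4, nat_lit 5712, nat_lit 2928, nat_lit 16224, nat_lit 13344, nat_lit 14880, R5_338, R5_278, R4_310⟩, ⟨nat_lit 7, nat_lit 5904, nat_lit 3600, nat_lit 16512, nat_lit 9936, nat_lit 10512, R5_344, R11_207, R3_219⟩]⟩, ⟨nat_lit 7, [⟨nat_lit 7, nat_lit 6624, nat_lit 4176, nat_lit 5424, nat_lit 10080, nat_lit 5136, R11_113, R11_210, R10_107⟩]⟩]⟩,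
 ⟨nat_lit 5, [⟨nat_lit 7, [⟨nat_lit 7, nat_lit 18960, nat_lit 4224, nat_lit 15744, nat_lit 11520, nat_lit 5088, R1_328, R1_240, R10_106⟩]⟩]⟩], [⟨nat_lit 1, [⟨nat_lit 4, [⟨nat_lit 4, nat_lit 5760, nat_lit 7488, nat_lit 16992, nat_lit 9888, nat_lit 19248, R5_354, R5_206, R8_401⟩, ⟨nat_lit 5, nat_lit 5808, nat_lit 7584, nat_lit 17712, nat_lit 7056, nat_lit 13536, R5_369, R0_147, R5_282⟩, ⟨nat_lit 7, nat_lit 5952, nat_lit 7536, nat_lit 17376, nat_lit 9888, nat_lit 11568, R5_362, R11_206, R9_241⟩]⟩, ⟨nat_lit 5, [⟨nat_lit 4, nat_lit 6240, nat_lit 8688, nat_lit 3264, nat_lit 12144, nat_lit 12384, R0_68, R5_253, R5_258⟩, ⟨nat_lit 5, nat_lit 6288, nat_lit 8784, nat_lit 3408, nat_lit 7104, nat_lit 16752, R0_71, R0_148, R11_349⟩, ⟨nat_lit 7, nat_lit 6384, nat_lit 8736, nat_lit 3360, nat_lit 10176, nat_lit 10368, R0_70,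 R11_212, R0_216⟩]⟩, ⟨nat_lit 7, [⟨nat_lit 7, nat_lit 6672, nat_lit 8112, nat_lit 5472, nat_lit 10032, nat_lit 15216, R11_114, R11_209, R0_317⟩]⟩]⟩,
 ⟨nat_lit 5, [⟨nat_lit 7, [⟨nat_lit 7, nat_lit 19008, nat_lit 14304, nat_lit 16272, nat_lit 8928, nat_lit 10080, R1_339, R1_186, R0_210⟩]⟩]⟩]], [], [], [], [[⟨nat_lit 1, [⟨nat_lit 4, [⟨nat_lit 7, nat_lit 6000, nat_lit 3504, nat_lit 14592, nat_lit 6672, nat_lit 8352, R5_304, R1_139, R13_174⟩]⟩, ⟨nat_lit 5, [⟨nat_lit 7, nat_lit 6432, nat_lit 4368, nat_lit 3120, nat_lit 7680, nat_lit 6960, R0_65, R1_160, R3_145⟩]⟩, ⟨nat_lit 7, [⟨nat_lit 3, nat_lit 6816, nat_lit 5376, nat_lit 5136, nat_lit 8112, nat_lit 6336, R11_107, R10_169, R2_132⟩, ⟨nat_lit 7, nat_lit 6720, nat_lit 4896, nat_lit 5280, nat_lit 7200, nat_lit 13536, R11_110, R1_150, R3_282⟩]⟩]⟩], [⟨nat_lit 1, [⟨nat_lit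 4, [⟨nat_lit 7, nat_lit 6048, nat_lit 2976, nat_lit 16464, nat_lit 6768, nat_lit 10560, R5_343, R1_141, R3_220⟩]⟩, ⟨nat_lit 7, [⟨nat_lit 3, nat_lit 6864, nat_lit 4080, nat_lit 5184, nat_lit 8208, nat_lit 5040, R11_108, R10_171, R1_105⟩, ⟨nat_lit 7, nat_lit 6768, nat_lit 3600, nat_lit 5328, nat_lit 7248, nat_lit 5616, R11_111, R1_151, R10_117⟩]⟩]⟩], [], [⟨nat_lit 1, [⟨nat_lit 4, [⟨nat_lit 3, nat_lit 6144, nat_lit 14928, nat_lit 15552, nat_lit 7536, nat_lit 11232, R5_324, R10_157, R2_234⟩, ⟨nat_lit 7, nat_lit 6096, nat_lit 14976, nat_lit 16128, nat_lit 6720, nat_lit 17232, R5_336, R1_140, R3_359⟩]⟩, ⟨nat_lit 5, [⟨nat_lit 3, nat_lit 6528, nat_lit 15024, nat_lit 3072, nat_lit 8352, nat_lit 11808, R0_64, R10_174, R1_246⟩, ⟨nat_lit 7, nat_lit 6480, nat_lit 15072, nat_lit 3168, nat_lit 7728, nat_lit 12816, R0_66, R1_161,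 R10_267⟩]⟩, ⟨nat_lit 7, [⟨nat_lit 3, nat_lit 6912, nat_lit 15120, nat_lit 5232, nat_lit 8160, nat_lit 6672, R11_109, R10_170, R12_139⟩]⟩]⟩]]], [[], [], [], [], [[], [⟨nat_lit 0, [⟨nat_lit 0, [⟨nat_lit 0, nat_lit 0, nat_lit 12240, nat_lit 8304, nat_lit 15120, nat_lit 1920, R6_173, R6_315, R4_40⟩]⟩, ⟨nat_lit 3, [⟨nat_lit 0, nat_lit 336, nat_lit 12288, nat_lit 19056, nat_lit 15216, nat_lit 1152, R13_397, R6_317, R5_24⟩, ⟨nat_lit 3, nat_lit 384, nat_lit 12336, nat_lit 19104, nat_lit 13776, nat_lit 9504, R13_398, R13_287, R11_198⟩]⟩]⟩,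
 ⟨nat_lit 1, [⟨nat_lit 0, [⟨nat_lit 0, nat_lit 6960, nat_lit 13104, nat_lit 8880, nat_lit 14544, nat_lit 10848, R4_185, R4_303, R4_226⟩]⟩]⟩,
 ⟨nat_lit 2, [⟨nat_lit 0, [⟨nat_lit 0, nat_lit 8736, nat_lit 14640, nat_lit 5232, nat_lit 18240, nat_lit 7440, R8_109, R8_380, R4_155⟩, ⟨nat_lit 2, nat_lit 8832, nat_lit 14688, nat_lit 5616, nat_lit 13248, nat_lit 2400, R8_117, R5_276, R3_50⟩]⟩, ⟨nat_lit 2, [⟨nat_lit 2, nat_lit 9264, nat_lit 14880, nat_lit 16224, nat_lit 13344, nat_lit 8544, R5_338, R5_278, R10_178⟩]⟩, ⟨nat_lit 3, [⟨nat_lit 0, nat_lit 9456, nat_lit 14736, nat_lit 15360, nat_lit 19104, nat_lit 9504, R9_320, R8_398, R5_198⟩, ⟨nat_lit 2, nat_lit 9504, nat_lit 14832, nat_lit 15456, nat_lit 13296, nat_lit 6960, R9_322, R5_277, R0_145⟩, ⟨nat_lit 3, nat_lit 9552, nat_lit 14784, nat_lit 15408, nat_lit 11424, nat_lit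 9552, R9_321, R9_238, R11_199⟩]⟩]⟩,
 ⟨nat_lit 3, [⟨nat_lit 3, [⟨nat_lit 3, nat_lit 12384, nat_lit 13728, nat_lit 8640, nat_lit 16800, nat_lit 9600, R3_180, R3_350, R11_200⟩]⟩, ⟨nat_lit 7, [⟨nat_lit 7, nat_lit 12192, nat_lit 13824, nat_lit 13968, nat_lit 10896, nat_lit 7104, R2_291, R2_227, R10_148⟩]⟩]⟩], [], [], [], [⟨nat_lit 0, [⟨nat_lit 0, [⟨nat_lit 0, nat_lit 48, nat_lit 13440, nat_lit 13728, nat_lit 10656, nat_lit 2112, R6_286, R6_222, R7_44⟩, ⟨nat_lit 3, nat_lit 96, nat_lit 13536, nat_lit 13824, nat_lit 13632, nat_lit 912, R6_288, R13_284, R2_19⟩]⟩, ⟨nat_lit 3, [⟨nat_lit 3, nat_lit 432, nat_lit 13632, nat_lit 19152, nat_lit 13680, nat_lit 240, R13_399, R13_285, R1_5⟩]⟩]⟩,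
 ⟨nat_lit 2, [⟨nat_lit 0, [⟨nat_lit 0, nat_lit 8784, nat_lit 16752, nat_lit 13008, nat_lit 11376, nat_lit 7584, R8_271, R8_237, R7_158⟩, ⟨nat_lit 2, nat_lit 8880, nat_lit 16944, nat_lit 13248, nat_lit 12960, nat_lit 6384, R8_276, R5_270, R2_133⟩, ⟨nat_lit 3, nat_lit 8928, nat_lit 16848, nat_lit 13104, nat_lit 11184, nat_lit 8016, R8_273, R9_233, R2_167⟩]⟩, ⟨nat_lit 2, [⟨nat_lit 2, nat_lit 9312, nat_lit 17184, nat_lit 16272, nat_lit 13008, nat_lit 5088, R5_339, R5_271, R1_106⟩]⟩, ⟨nat_lit 3, [⟨nat_lit 3, nat_lit 9600, nat_lit 16992, nat_lit 15504, nat_lit 11232, nat_lit 8544, R9_323, R9_234, R1_178⟩]⟩]⟩,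
 ⟨nat_lit 3, [⟨nat_lit 3, [⟨nat_lit 3, nat_lit 12432, nat_lit 14976, nat_lit 15456, nat_lit 10320, nat_lit 5952, R3_322, R3_215, R1_124⟩]⟩]⟩]], [[], [⟨nat_lit 0, [⟨nat_lit 0, [⟨nat_lit 0, nat_lit 144, nat_lit 3024, nat_lit 8880, nat_lit 336, nat_lit 2112, R6_185, R4_7, R4_44⟩]⟩, ⟨nat_lit 3, [⟨nat_lit 0, nat_lit 480, nat_lit 8832, nat_lit 19392, nat_lit 5568, nat_lit 3552, R13_404, R4_116, R5_74⟩, ⟨nat_lit 3, nat_lit 528, nat_lit 8928, nat_lit 19440, nat_lit 4272, nat_lit 9696, R13_405, R3_89, R11_202⟩]⟩]⟩,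
 ⟨nat_lit 2, [⟨nat_lit 0, [⟨nat_lit 0, nat_lit 8976, nat_lit 3264, nat_lit 5280, nat_lit 3936, nat_lit 7632, R8_110, R5_82, R4_159⟩, ⟨nat_lit 2, nat_lit 9072, nat_lit 3312, nat_lit 5664, nat_lit 16176, nat_lit 2496, R8_118, R11_337, R3_52⟩]⟩, ⟨nat_lit 2, [⟨nat_lit 2, nat_lit 9360, nat_lit 10512, nat_lit 16512, nat_lit 16272, nat_lit 8592, R5_344, R11_339, R10_179⟩]⟩, ⟨nat_lit 3, [⟨nat_lit 0, nat_lit 9648, nat_lit 9312, nat_lit 15648, nat_lit 12288, nat_lit 11760, R9_326, R5_256, R5_245⟩, ⟨nat_lit 2, nat_lit 9696, nat_lit 9408, nat_lit 15744, nat_lit 16224, nat_lit 7008, R9_328, R11_338, R0_146⟩, ⟨nat_lit 3, nat_lit 9744, nat_lit 9360, nat_lit 15696, nat_lit 9936, nat_lit 9744, R9_327, R0_207, R11_203⟩]⟩]⟩,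
 ⟨nat_lit 3, [⟨nat_lit 3, [⟨nat_lit 3, nat_lit 12480, nat_lit 9072, nat_lit 9072, nat_lit 12480, nat_lit 9792, R3_189, R10_260, R11_204⟩]⟩, ⟨nat_lit 7, [⟨nat_lit 7, nat_lit 12288, nat_lit 15744, nat_lit 14208, nat_lit 11280, nat_lit 7296, R2_296, R1_235, R10_152⟩]⟩]⟩], [], [], [], [⟨nat_lit 0, [⟨nat_lit 0, [⟨nat_lit 0, nat_lit 192, nat_lit 12144, nat_lit 14112, nat_lit 384, nat_lit 2160, R6_294, R4_8, R7_45⟩, ⟨nat_lit 3, nat_lit 240, nat_lit 12240, nat_lit 14256, nat_lit 3696, nat_lit 1056, R6_297, R3_77, R2_22⟩]⟩, ⟨nat_lit 3, [⟨nat_lit 3, nat_lit 576, nat_lit 12384, nat_lit 19536, nat_lit 4224, nat_lit 384, R13_407, R3_88, R1_8⟩]⟩]⟩,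
 ⟨nat_lit 2, [⟨nat_lit 0, [⟨nat_lit 0, nat_lit 9024, nat_lit 14976, nat_lit 13056, nat_lit 2928, nat_lit 7632, R8_272, R5_61, R7_159⟩, ⟨nat_lit 2, nat_lit 9120, nat_lit 15168, nat_lit 13296, nat_lit 15888, nat_lit 6432, R8_277, R11_331, R2_134⟩, ⟨nat_lit 3, nat_lit 9168, nat_lit 15072, nat_lit 13200, nat_lit 9696, nat_lit 8112, R8_275, R0_202, R2_169⟩]⟩, ⟨nat_lit 2, [⟨nat_lit 2, nat_lit 9408, nat_lit 15456, nat_lit 16608, nat_lit 15936, nat_lit 5136, R5_346, R11_332, R1_107⟩]⟩, ⟨nat_lit 3, [⟨nat_lit 3, nat_lit 9792, nat_lit 15216, nat_lit 15792, nat_lit 9744, nat_lit 8640, R9_329, R0_203, R1_180⟩]⟩]⟩,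
 ⟨nat_lit 3, [⟨nat_lit 3, [⟨nat_lit 3, nat_lit 12528, nat_lit 14160, nat_lit 15792, nat_lit 12336, nat_lit 6048, R3_329, R10_257, R1_126⟩]⟩]⟩]]], [[], [[], [⟨nat_lit 4, [⟨nat_lit 4, [⟨nat_lit 4, nat_lit 13968, nat_lit 3456, nat_lit 1680, nat_lit 960, nat_lit 2976, R4_35, R7_20, R4_62⟩, ⟨nat_lit 7, nat_lit 14016, nat_lit 3504, nat_lit 8400, nat_lit 2352, nat_lit 9792, R4_175, R2_49, R3_204⟩]⟩, ⟨nat_lit 6, [⟨nat_lit 4, nat_lit 14112, nat_lit 3648, nat_lit 12576, nat_lit 6960, nat_lit 3216, R3_262, R7_145, R5_67⟩, ⟨nat_lit 6, nat_lit 14160, nat_lit 3792, nat_lit 13344, nat_lit 5136, nat_lit 9408, R3_278, R2_107, R11_196⟩, ⟨nat_lit 7, nat_lit 14208, nat_lit 3696, nat_lit 12960, nat_lit 9984, nat_lit 6864, R3_270, R2_208, R0_143⟩]⟩]⟩,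
 ⟨nat_lit 6, [⟨nat_lit 2, [⟨nat_lit 6, nat_lit 19296, nat_lit 3888, nat_lit 15648, nat_lit 15504, nat_lit 7872, R1_326, R1_323, R1_164⟩]⟩, ⟨nat_lit 6, [⟨nat_lit 6, nat_lit 19200, nat_lit 3840, nat_lit 19200, nat_lit 3840, nat_lit 9456, R10_400, R1_80, R11_197⟩]⟩]⟩,
 ⟨nat_lit 7, [⟨nat_lit 4, [⟨nat_lit 7, nat_lit 19632, nat_lit 3552, nat_lit 5712, nat_lit 1824, nat_lit 10080, R5_119, R1_38, R3_210⟩]⟩, ⟨nat_lit 6, [⟨nat_lit 7, nat_lit 19776, nat_lit 3744, nat_lit 14064, nat_lit 10800, nat_lit 6912, R0_293, R1_225, R0_144⟩]⟩, ⟨nat_lit 7, [⟨nat_lit 7, nat_lit 19968, nat_lit 3600, nat_lit 21408, nat_lit 7248, nat_lit 8496, R11_446, R1_151, R10_177⟩]⟩]⟩]], [], [], [], [[], [⟨nat_lit 0, [⟨nat_lit 0, [⟨nat_lit 0, nat_lit 672, nat_lit 14064, nat_lit 1152, nat_lit 912, nat_lit 2832, R4_24, R4_19, R4_59⟩]⟩, ⟨nat_lit 3,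 [⟨nat_lit 0, nat_lit 816, nat_lit 14256, nat_lit 4464, nat_lit 7296, nat_lit 4320, R3_93, R4_152, R5_90⟩, ⟨nat_lit 3, nat_lit 864, nat_lit 14304, nat_lit 5040, nat_lit 6000, nat_lit 10224, R3_105, R3_125, R11_213⟩]⟩]⟩,
 ⟨nat_lit 2, [⟨nat_lit 0, [⟨nat_lit 0, nat_lit 9888, nat_lit 19680, nat_lit 144, nat_lit 4080, nat_lit 8016, R5_3, R5_85, R4_167⟩, ⟨nat_lit 2, nat_lit 9984, nat_lit 19728, nat_lit 5808, nat_lit 16560, nat_lit 10128, R5_121, R11_345, R3_211⟩]⟩, ⟨nat_lit 2, [⟨nat_lit 2, nat_lit 10128, nat_lit 20016, nat_lit 21456, nat_lit 16656, nat_lit 8640, R11_447, R11_347, R10_180⟩]⟩, ⟨nat_lit 3, [⟨nat_lit 0, nat_lit 10224, nat_lit 19824, nat_lit 14112, nat_lit 12528, nat_lit 12672, R0_294, R5_261, R5_264⟩, ⟨nat_lit 2, nat_lit 10272, nat_lit 19920, nat_lit 14208, nat_lit 16608, nat_lit 7152, R0_296, R11_346,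 R0_149⟩, ⟨nat_lit 3, nat_lit 10320, nat_lit 19872, nat_lit 14160, nat_lit 10272, nat_lit 10272, R0_295, R0_214, R11_214⟩]⟩]⟩,
 ⟨nat_lit 3, [⟨nat_lit 3, [⟨nat_lit 3, nat_lit 12672, nat_lit 19248, nat_lit 19248, nat_lit 12672, nat_lit 10320, R10_401, R10_264, R11_215⟩]⟩, ⟨nat_lit 7, [⟨nat_lit 3, nat_lit 12624, nat_lit 19344, nat_lit 15696, nat_lit 12720, nat_lit 7920, R1_327, R10_265, R1_165⟩, ⟨nat_lit 7, nat_lit 12576, nat_lit 19392, nat_lit 15744, nat_lit 11520, nat_lit 8688, R1_328, R1_240, R10_181⟩]⟩]⟩,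
 ⟨nat_lit 4, [⟨nat_lit 4, [⟨nat_lit 4, nat_lit 14064, nat_lit 672, nat_lit 1152, nat_lit 912, nat_lit 2832, R4_24, R4_19, R4_59⟩]⟩, ⟨nat_lit 6, [⟨nat_lit 4, nat_lit 14256, nat_lit 816, nat_lit 4464, nat_lit 7296, nat_lit 4320, R3_93, R4_152, R5_90⟩, ⟨nat_lit 6, nat_lit 14304, nat_lit 864, nat_lit 5040, nat_lit 6000, nat_lit 10224, R3_105, R3_125, R11_213⟩]⟩]⟩,
 ⟨nat_lit 6, [⟨nat_lit 2, [⟨nat_lit 2, nat_lit 19392, nat_lit 12576, nat_lit 15744, nat_lit 11520, nat_lit 8688, R1_328, R1_240, R10_181⟩, ⟨nat_lit 6, nat_lit 19344, nat_lit 12624, nat_lit 15696, nat_lit 12720, nat_lit 7920, R1_327, R10_265, R1_165⟩]⟩, ⟨nat_lit 6, [⟨nat_lit 6, nat_lit 19248, nat_lit 12672, nat_lit 19248, nat_lit 12672, nat_lit 10320, R10_401, R10_264, R11_215⟩]⟩]⟩,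
 ⟨nat_lit 7, [⟨nat_lit 4, [⟨nat_lit 4, nat_lit 19680, nat_lit 9888, nat_lit 144, nat_lit 4080, nat_lit 8016, R5_3, R5_85, R4_167⟩, ⟨nat_lit 7, nat_lit 19728, nat_lit 9984, nat_lit 5808, nat_lit 16560, nat_lit 10128, R5_121, R11_345, R3_211⟩]⟩, ⟨nat_lit 6, [⟨nat_lit 4, nat_lit 19824, nat_lit 10224, nat_lit 14112, nat_lit 12528, nat_lit 12672, R0_294, R5_261, R5_264⟩, ⟨nat_lit 6, nat_lit 19872, nat_lit 10320, nat_lit 14160, nat_lit 10272, nat_lit 10272, R0_295, R0_214, R11_214⟩, ⟨nat_lit 7, nat_lit 19920, nat_lit 10272, nat_lit 14208, nat_lit 16608, nat_lit 7152, R0_296, R11_346, R0_149⟩]⟩, ⟨nat_lit 7, [⟨nat_lit 7, nat_lit 20016, nat_lit 10128, nat_lit 21456, nat_lit 16656, nat_lit 8640, R11_447, R11_347, R10_180⟩]⟩]⟩], [], [], [], [⟨nat_lit 0, [⟨nat_lit 0, [⟨nat_lit 0, nat_lit 720, nat_lit 12720, nat_lit 624,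 nat_lit 1296, nat_lit 2736, R4_13, R4_27, R7_57⟩, ⟨nat_lit 3, nat_lit 768, nat_lit 12816, nat_lit 7008, nat_lit 4848, nat_lit 3072, R4_146, R3_101, R2_64⟩]⟩, ⟨nat_lit 3, [⟨nat_lit 3, nat_lit 912, nat_lit 12960, nat_lit 5088, nat_lit 5952, nat_lit 2544, R3_106, R3_124, R1_53⟩]⟩]⟩,
 ⟨nat_lit 2, [⟨nat_lit 0, [⟨nat_lit 0, nat_lit 9936, nat_lit 15984, nat_lit 240, nat_lit 2976, nat_lit 8016, R5_5, R5_62, R7_167⟩, ⟨nat_lit 2, nat_lit 10032, nat_lit 16176, nat_lit 5952, nat_lit 16464, nat_lit 7008, R5_124, R11_343, R2_146⟩, ⟨nat_lit 3, nat_lit 10080, nat_lit 16080, nat_lit 7872, nat_lit 10176, nat_lit 10272, R5_164, R0_212, R2_214⟩]⟩, ⟨nat_lit 2, [⟨nat_lit 2, nat_lit 10176, nat_lit 16464, nat_lit 21552, nat_lit 16512, nat_lit 5712, R11_449, R11_344, R1_119⟩]⟩, ⟨nat_lit 3, [⟨nat_lit 3, nat_lit 10368, nat_lit 16224,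 nat_lit 14256, nat_lit 10224, nat_lit 10848, R0_297, R0_213, R1_226⟩]⟩]⟩,
 ⟨nat_lit 3, [⟨nat_lit 3, [⟨nat_lit 3, nat_lit 12720, nat_lit 15696, nat_lit 19344, nat_lit 12624, nat_lit 7920, R10_403, R10_263, R1_165⟩]⟩]⟩,
 ⟨nat_lit 6, [⟨nat_lit 2, [⟨nat_lit 2, nat_lit 19440, nat_lit 11376, nat_lit 15792, nat_lit 11472, nat_lit 15552, R1_329, R1_239, R1_324⟩]⟩]⟩]]], [[], [], [], [], [[], [], [], [], [], [⟨nat_lit 0, [⟨nat_lit 0, [⟨nat_lit 0, nat_lit 960, nat_lit 4464, nat_lit 1200, nat_lit 11376, nat_lit 2304, R8_25, R6_237, R7_48⟩, ⟨nat_lit 3, nat_lit 1008, nat_lit 4896, nat_lit 7104, nat_lit 14880, nat_lit 2448, R8_148, R13_310, R2_51⟩]⟩, ⟨nat_lit 1, [⟨nat_lit 0, nat_lit 1344, nat_lit 4512, nat_lit 4560, nat_lit 11616, nat_lit 18672, R5_95, R6_242, R14_389⟩, ⟨nat_lit 3, nat_lit 1440, nat_lit 4992, nat_lit 4944,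 nat_lit 14976, nat_lit 336, R5_103, R13_312, R12_7⟩]⟩, ⟨nat_lit 3, [⟨nat_lit 3, nat_lit 2064, nat_lit 4944, nat_lit 4080, nat_lit 14928, nat_lit 1920, R9_85, R13_311, R1_40⟩]⟩]⟩,
 ⟨nat_lit 2, [⟨nat_lit 0, [⟨nat_lit 0, nat_lit 10416, nat_lit 6240, nat_lit 14160, nat_lit 11520, nat_lit 7728, R9_295, R8_240, R7_161⟩, ⟨nat_lit 2, nat_lit 10464, nat_lit 7584, nat_lit 14784, nat_lit 14016, nat_lit 6576, R9_308, R5_292, R2_137⟩, ⟨nat_lit 3, nat_lit 10512, nat_lit 6912, nat_lit 14448, nat_lit 12720, nat_lit 10080, R9_301, R9_265, R2_210⟩]⟩, ⟨nat_lit 1, [⟨nat_lit 0, nat_lit 11040, nat_lit 6288, nat_lit 12864, nat_lit 12096, nat_lit 19200, R0_268, R8_252, R14_400⟩, ⟨nat_lit 2, nat_lit 11088, nat_lit 7632, nat_lit 13488, nat_lit 14112, nat_lit 16032, R0_281, R5_294, R12_334⟩, ⟨nat_lit 3, nat_lit 11184, nat_lit 6960, nat_lit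 13152, nat_lit 12768, nat_lit 1440, R0_274, R9_266, R12_30⟩]⟩, ⟨nat_lit 2, [⟨nat_lit 2, nat_lit 10848, nat_lit 7680, nat_lit 3648, nat_lit 14064, nat_lit 5280, R0_76, R5_293, R1_110⟩]⟩]⟩,
 ⟨nat_lit 3, [⟨nat_lit 3, [⟨nat_lit 3, nat_lit 12768, nat_lit 5712, nat_lit 2640, nat_lit 10848, nat_lit 7344, R0_55, R3_226, R1_153⟩]⟩]⟩]], [[], [], [], [], [], [⟨nat_lit 0, [⟨nat_lit 0, [⟨nat_lit 0, nat_lit 1056, nat_lit 2832, nat_lit 1296, nat_lit 2688, nat_lit 2544, R8_27, R4_56, R7_53⟩, ⟨nat_lit 3, nat_lit 1104, nat_lit 3264, nat_lit 7248, nat_lit 7104, nat_lit 2880, R8_151, R3_148, R2_60⟩]⟩, ⟨nat_lit 1, [⟨nat_lit 0, nat_lit 1488, nat_lit 2880, nat_lit 5280, nat_lit 11472, nat_lit 21744, R5_110, R4_239, R14_453⟩, ⟨nat_lit 3, nat_lit 1536, nat_lit 3360, nat_lit 5472, nat_lit 7584, nat_lit 10368, R5_114, R3_158, R12_216⟩]⟩,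 ⟨nat_lit 3, [⟨nat_lit 3, nat_lit 2112, nat_lit 3312, nat_lit 4992, nat_lit 7488, nat_lit 2352, R9_104, R3_156, R1_49⟩]⟩]⟩,
 ⟨nat_lit 2, [⟨nat_lit 0, [⟨nat_lit 0, nat_lit 10560, nat_lit 4224, nat_lit 14208, nat_lit 3072, nat_lit 7968, R9_296, R5_64, R7_166⟩, ⟨nat_lit 2, nat_lit 10608, nat_lit 5568, nat_lit 14832, nat_lit 17088, nat_lit 6816, R9_309, R11_356, R2_142⟩, ⟨nat_lit 3, nat_lit 10656, nat_lit 4896, nat_lit 14544, nat_lit 10896, nat_lit 10224, R9_303, R0_227, R2_213⟩]⟩, ⟨nat_lit 1, [⟨nat_lit 0, nat_lit 11232, nat_lit 4272, nat_lit 12912, nat_lit 14208, nat_lit 22176, R0_269, R5_296, R14_462⟩, ⟨nat_lit 2, nat_lit 11280, nat_lit 5616, nat_lit 13536, nat_lit 17184, nat_lit 17328, R0_282, R11_358, R12_361⟩, ⟨nat_lit 3, nat_lit 11328, nat_lit 4944, nat_lit 13248, nat_lit 10944, nat_lit 11184, R0_276, R0_228,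 R12_233⟩]⟩, ⟨nat_lit 2, [⟨nat_lit 2, nat_lit 10896, nat_lit 5664, nat_lit 3744, nat_lit 17136, nat_lit 5520, R0_78, R11_357, R1_115⟩]⟩]⟩,
 ⟨nat_lit 3, [⟨nat_lit 3, [⟨nat_lit 3, nat_lit 12816, nat_lit 3696, nat_lit 3168, nat_lit 13056, nat_lit 7728, R0_66, R10_272, R1_161⟩]⟩]⟩]], [[], [], [], [], [], [⟨nat_lit 0, [⟨nat_lit 0, [⟨nat_lit 0, nat_lit 1152, nat_lit 6960, nat_lit 1392, nat_lit 3984, nat_lit 2400, R8_29, R8_83, R7_50⟩, ⟨nat_lit 3, nat_lit 1200, nat_lit 8496, nat_lit 7344, nat_lit 6480, nat_lit 2592, R8_153, R9_135, R2_54⟩]⟩, ⟨nat_lit 1, [⟨nat_lit 0, nat_lit 1632, nat_lit 7008, nat_lit 6144, nat_lit 11952, nat_lit 20160, R5_128, R8_249, R14_420⟩, ⟨nat_lit 1, nat_lit 1728, nat_lit 7824, nat_lit 7056, nat_lit 7824, nat_lit 15936, R5_147, R5_163, R12_332⟩, ⟨nat_lit 3, nat_lit 1872, nat_lit 8592, nat_lit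 6672, nat_lit 7680, nat_lit 7440, R5_139, R9_160, R12_155⟩]⟩, ⟨nat_lit 3, [⟨nat_lit 3, nat_lit 2160, nat_lit 8544, nat_lit 6576, nat_lit 7344, nat_lit 2064, R9_137, R9_153, R1_43⟩]⟩]⟩,
 ⟨nat_lit 2, [⟨nat_lit 0, [⟨nat_lit 0, nat_lit 10704, nat_lit 7584, nat_lit 14256, nat_lit 12288, nat_lit 7824, R9_297, R9_256, R7_163⟩, ⟨nat_lit 2, nat_lit 10752, nat_lit 9408, nat_lit 14928, nat_lit 1632, nat_lit 6672, R9_311, R0_34, R2_139⟩]⟩, ⟨nat_lit 1, [⟨nat_lit 0, nat_lit 11424, nat_lit 7632, nat_lit 12960, nat_lit 13056, nat_lit 20880, R0_270, R9_272, R14_435⟩, ⟨nat_lit 1, nat_lit 11568, nat_lit 7968, nat_lit 13824, nat_lit 11232, nat_lit 16656, R0_288, R0_234, R12_347⟩, ⟨nat_lit 2, nat_lit 11472, nat_lit 9456, nat_lit 13632, nat_lit 11088, nat_lit 16800, R0_284, R0_231, R12_350⟩]⟩, ⟨nat_lit 2, [⟨nat_lit 2, nat_lit 10944,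 nat_lit 9504, nat_lit 3840, nat_lit 6672, nat_lit 5376, R0_80, R0_139, R1_112⟩]⟩]⟩,
 ⟨nat_lit 3, [⟨nat_lit 3, [⟨nat_lit 3, nat_lit 12864, nat_lit 9072, nat_lit 4512, nat_lit 5136, nat_lit 7440, R0_94, R0_107, R1_155⟩]⟩]⟩]]], [[], [], [], [], [[], [⟨nat_lit 0, [⟨nat_lit 3, [⟨nat_lit 0, nat_lit 2448, nat_lit 14352, nat_lit 432, nat_lit 15792, nat_lit 1440, R3_9, R6_329, R5_30⟩, ⟨nat_lit 3, nat_lit 2496, nat_lit 14736, nat_lit 4032, nat_lit 13920, nat_lit 9840, R3_84, R13_290, R11_205⟩]⟩, ⟨nat_lit 7, [⟨nat_lit 3, nat_lit 2256, nat_lit 14592, nat_lit 3504, nat_lit 13968, nat_lit 6672, R2_73, R13_291, R1_139⟩]⟩]⟩,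
 ⟨nat_lit 1, [⟨nat_lit 3, [⟨nat_lit 0, nat_lit 8544, nat_lit 16224, nat_lit 2928, nat_lit 14880, nat_lit 13344, R10_61, R4_310, R5_278⟩]⟩]⟩,
 ⟨nat_lit 2, [⟨nat_lit 3, [⟨nat_lit 0, nat_lit 11808, nat_lit 16992, nat_lit 7488, nat_lit 19248, nat_lit 9888, R0_156, R8_401, R5_206⟩, ⟨nat_lit 2, nat_lit 11856, nat_lit 17712, nat_lit 7584, nat_lit 13536, nat_lit 7056, R0_158, R5_282, R0_147⟩, ⟨nat_lit 3, nat_lit 11904, nat_lit 17376, nat_lit 7536, nat_lit 11568, nat_lit 9888, R0_157, R9_241, R11_206⟩]⟩]⟩,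
 ⟨nat_lit 3, [⟨nat_lit 7, [⟨nat_lit 3, nat_lit 12960, nat_lit 16128, nat_lit 14976, nat_lit 17232, nat_lit 6720, R12_312, R3_359, R1_140⟩, ⟨nat_lit 7, nat_lit 12912, nat_lit 15552, nat_lit 14928, nat_lit 11232, nat_lit 7536, R12_311, R2_234, R10_157⟩]⟩]⟩]], [[], [⟨nat_lit 0, [⟨nat_lit 3, [⟨nat_lit 0, nat_lit 2544, nat_lit 3216, nat_lit 1104, nat_lit 6720, nat_lit 3792, R3_23, R4_140, R5_79⟩, ⟨nat_lit 3, nat_lit 2592, nat_lit 3312, nat_lit 6288, nat_lit 6336, nat_lit 10128, R3_131, R3_132, R11_211⟩]⟩, ⟨nat_lit 7, [⟨nat_lit 3, nat_lit 2304, nat_lit 3120, nat_lit 4368, nat_lit 6960, nat_lit 7680, R2_91, R3_145, R1_160⟩]⟩]⟩,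
 ⟨nat_lit 2, [⟨nat_lit 3, [⟨nat_lit 0, nat_lit 11952, nat_lit 3264, nat_lit 8688, nat_lit 12384, nat_lit 12144, R0_181, R5_258, R5_253⟩, ⟨nat_lit 2, nat_lit 12000, nat_lit 3408, nat_lit 8784, nat_lit 16752, nat_lit 7104, R0_183, R11_349, R0_148⟩, ⟨nat_lit 3, nat_lit 12048, nat_lit 3360, nat_lit 8736, nat_lit 10368, nat_lit 10176, R0_182, R0_216, R11_212⟩]⟩]⟩,
 ⟨nat_lit 3, [⟨nat_lit 7, [⟨nat_lit 3, nat_lit 13056, nat_lit 3168, nat_lit 15072, nat_lit 12816, nat_lit 7728, R12_314, R10_267, R1_161⟩, ⟨nat_lit 7, nat_lit 13008, nat_lit 3072, nat_lit 15024, nat_lit 11808, nat_lit 8352, R12_313, R1_246, R10_174⟩]⟩]⟩]], [], [[], [⟨nat_lit 0, [⟨nat_lit 3, [⟨nat_lit 3, nat_lit 2640, nat_lit 5376, nat_lit 5760, nat_lit 5424, nat_lit 9984, R3_120, R3_113, R11_208⟩]⟩, ⟨nat_lit 7, [⟨nat_lit 3, nat_lit 2400, nat_lit 5280, nat_lit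 4896, nat_lit 13536, nat_lit 7200, R2_102, R3_282, R1_150⟩, ⟨nat_lit 7, nat_lit 2352, nat_lit 5136, nat_lit 5376, nat_lit 6336, nat_lit 8112, R2_112, R2_132, R10_169⟩]⟩]⟩,
 ⟨nat_lit 1, [⟨nat_lit 3, [⟨nat_lit 3, nat_lit 8640, nat_lit 5424, nat_lit 4176, nat_lit 5136, nat_lit 10080, R10_87, R10_107, R11_210⟩]⟩, ⟨nat_lit 7, [⟨nat_lit 3, nat_lit 8496, nat_lit 5328, nat_lit 3600, nat_lit 5616, nat_lit 7248, R1_75, R10_117, R1_151⟩, ⟨nat_lit 7, nat_lit 8448, nat_lit 5184, nat_lit 4080, nat_lit 5040, nat_lit 8208, R1_85, R1_105, R10_171⟩]⟩]⟩,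
 ⟨nat_lit 2, [⟨nat_lit 3, [⟨nat_lit 3, nat_lit 12096, nat_lit 5472, nat_lit 8112, nat_lit 15216, nat_lit 10032, R0_169, R0_317, R11_209⟩]⟩]⟩,
 ⟨nat_lit 3, [⟨nat_lit 7, [⟨nat_lit 7, nat_lit 13104, nat_lit 5232, nat_lit 15120, nat_lit 10896, nat_lit 8160, R12_315, R12_227, R10_170⟩]⟩]⟩], [], [], [], [⟨nat_lit 0, [⟨nat_lit 3, [⟨nat_lit 3, nat_lit 2688, nat_lit 13008, nat_lit 5136, nat_lit 5904, nat_lit 528, R3_107, R3_123, R1_11⟩]⟩]⟩,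
 ⟨nat_lit 1, [⟨nat_lit 3, [⟨nat_lit 3, nat_lit 8688, nat_lit 15744, nat_lit 4224, nat_lit 5088, nat_lit 11520, R10_88, R10_106, R1_240⟩]⟩]⟩,
 ⟨nat_lit 2, [⟨nat_lit 3, [⟨nat_lit 3, nat_lit 12144, nat_lit 16272, nat_lit 14304, nat_lit 10080, nat_lit 8928, R0_298, R0_210, R1_186⟩]⟩]⟩]]]]
noncomputable def N2664 : T3 (List N0) := [[[[⟨nat_lit 0, [⟨nat_lit 1, [⟨nat_lit 5, nat_lit 3264, nat_lit 1728, nat_lit 3456, nat_lit 2208, nat_lit 17568, R7_72, R4_46, R13_366⟩]⟩]⟩,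
 ⟨nat_lit 1, [⟨nat_lit 1, [⟨nat_lit 5, nat_lit 3360, nat_lit 7872, nat_lit 1776, nat_lit 2064, nat_lit 17712, R2_37, R3_43, R13_369⟩]⟩]⟩], [⟨nat_lit 0, [⟨nat_lit 1, [⟨nat_lit 5, nat_lit 4752, nat_lit 1632, nat_lit 3936, nat_lit 2928, nat_lit 13104, R7_82, R4_61, R3_273⟩]⟩, ⟨nat_lit 5, [⟨nat_lit 5, nat_lit 5232, nat_lit 3696, nat_lit 3936, nat_lit 3024, nat_lit 5808, R4_82, R4_63, R2_121⟩]⟩]⟩,
 ⟨nat_lit 1, [⟨nat_lit 1, [⟨nat_lit 5, nat_lit 4800, nat_lit 8352, nat_lit 2304, nat_lit 9696, nat_lit 13248, R2_48, R3_202, R3_276⟩]⟩, ⟨nat_lit 5, [⟨nat_lit 5, nat_lit 5280, nat_lit 10032, nat_lit 13824, nat_lit 9648, nat_lit 5856, R3_288, R3_201, R2_122⟩]⟩]⟩], [⟨nat_lit 0, [⟨nat_lit 1, [⟨nat_lit 1, nat_lit 12816, nat_lit 1008, nat_lit 4272, nat_lit 2592, nat_lit 12816, R7_89, R7_54, R2_267⟩, ⟨nat_lit 5, nat_lit 4128,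 nat_lit 672, nat_lit 4416, nat_lit 2640, nat_lit 6384, R7_92, R4_55, R3_133⟩]⟩]⟩,
 ⟨nat_lit 1, [⟨nat_lit 1, [⟨nat_lit 1, nat_lit 12912, nat_lit 6144, nat_lit 2688, nat_lit 720, nat_lit 13056, R2_56, R2_15, R2_272⟩, ⟨nat_lit 5, nat_lit 4224, nat_lit 6048, nat_lit 2832, nat_lit 7008, nat_lit 6480, R2_59, R3_146, R3_135⟩]⟩]⟩,
 ⟨nat_lit 3, [⟨nat_lit 1, [⟨nat_lit 1, nat_lit 13056, nat_lit 6912, nat_lit 720, nat_lit 2688, nat_lit 12912, R2_15, R2_56, R2_269⟩]⟩]⟩]], [], [[], [], [⟨nat_lit 0, [⟨nat_lit 1, [⟨nat_lit 1, nat_lit 13152, nat_lit 14880, nat_lit 12720, nat_lit 12816, nat_lit 12864, R7_265, R14_267, R2_268⟩]⟩]⟩,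
 ⟨nat_lit 1, [⟨nat_lit 1, [⟨nat_lit 1, nat_lit 13296, nat_lit 15360, nat_lit 11424, nat_lit 10080, nat_lit 13104, R2_238, R12_210, R2_273⟩]⟩]⟩,
 ⟨nat_lit 3, [⟨nat_lit 1, [⟨nat_lit 1, nat_lit 13440, nat_lit 15840, nat_lit 10368, nat_lit 2208, nat_lit 12960, R2_216, R12_46, R2_270⟩]⟩]⟩]], [[⟨nat_lit 0, [⟨nat_lit 1, [⟨nat_lit 5, nat_lit 3552, nat_lit 16368, nat_lit 9600, nat_lit 2592, nat_lit 17616, R7_200, R5_54, R13_367⟩]⟩]⟩,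
 ⟨nat_lit 1, [⟨nat_lit 1, [⟨nat_lit 5, nat_lit 3648, nat_lit 17040, nat_lit 8640, nat_lit 1296, nat_lit 17760, R2_180, R0_27, R13_370⟩]⟩]⟩,
 ⟨nat_lit 3, [⟨nat_lit 1, [⟨nat_lit 5, nat_lit 3792, nat_lit 17664, nat_lit 3792, nat_lit 2592, nat_lit 17664, R2_79, R11_54, R13_368⟩]⟩]⟩], [⟨nat_lit 0, [⟨nat_lit 1, [⟨nat_lit 5, nat_lit 4944, nat_lit 12432, nat_lit 10944, nat_lit 3168, nat_lit 13152, R7_228, R5_66, R3_274⟩]⟩, ⟨nat_lit 5, [⟨nat_lit 5, nat_lit 5520, nat_lit 13680, nat_lit 10272, nat_lit 768, nat_lit 5952, R4_214, R5_16, R2_124⟩]⟩]⟩,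
 ⟨nat_lit 1, [⟨nat_lit 1, [⟨nat_lit 5, nat_lit 4992, nat_lit 12864, nat_lit 9936, nat_lit 1824, nat_lit 13296, R2_207, R0_38, R3_277⟩]⟩, ⟨nat_lit 5, [⟨nat_lit 5, nat_lit 5616, nat_lit 14448, nat_lit 14544, nat_lit 1680, nat_lit 6096, R3_303, R0_35, R2_127⟩]⟩]⟩,
 ⟨nat_lit 3, [⟨nat_lit 1, [⟨nat_lit 5, nat_lit 5088, nat_lit 13200, nat_lit 5088, nat_lit 3168, nat_lit 13200, R2_106, R11_66, R3_275⟩]⟩]⟩], [⟨nat_lit 0, [⟨nat_lit 1, [⟨nat_lit 5, nat_lit 4416, nat_lit 14064, nat_lit 11280, nat_lit 3024, nat_lit 6624, R7_235, R5_63, R3_138⟩]⟩]⟩,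
 ⟨nat_lit 1, [⟨nat_lit 1, [⟨nat_lit 5, nat_lit 4512, nat_lit 14400, nat_lit 10176, nat_lit 1440, nat_lit 6864, R2_212, R0_30, R3_143⟩]⟩]⟩,
 ⟨nat_lit 3, [⟨nat_lit 1, [⟨nat_lit 1, nat_lit 13584, nat_lit 14688, nat_lit 6864, nat_lit 2160, nat_lit 13008, R2_143, R1_45, R2_271⟩, ⟨nat_lit 5, nat_lit 4608, nat_lit 14640, nat_lit 6768, nat_lit 2784, nat_lit 6720, R2_141, R11_58, R3_140⟩]⟩]⟩], [⟨nat_lit 0, [⟨nat_lit 1, [⟨nat_lit 5, nat_lit 6528, nat_lit 1776, nat_lit 10464, nat_lit 2784, nat_lit 14592, R7_218, R5_58, R9_304⟩]⟩]⟩,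
 ⟨nat_lit 3, [⟨nat_lit 1, [⟨nat_lit 5, nat_lit 6768, nat_lit 6720, nat_lit 4608, nat_lit 3024, nat_lit 14640, R2_96, R11_63, R9_305⟩]⟩]⟩]], [], [], [], [[], [], [], [⟨nat_lit 3, [⟨nat_lit 1, [⟨nat_lit 4, nat_lit 720, nat_lit 12912, nat_lit 13056, nat_lit 2688, nat_lit 6144, R2_272, R2_56, R8_128⟩, ⟨nat_lit 5, nat_lit 6864, nat_lit 13008, nat_lit 13584, nat_lit 2160, nat_lit 14688, R2_283, R1_45, R9_306⟩, ⟨nat_lit 7, nat_lit 10368, nat_lit 12960, nat_lit 13440, nat_lit 9648, nat_lit 15840, R2_280, R12_201, R5_330⟩]⟩]⟩]]], [[[⟨nat_lit 1, [⟨nat_lit 1, [⟨nat_lit 5, nat_lit 3456, nat_lit 5568, nat_lit 1248, nat_lit 2304, nat_lit 18144, R1_26, R3_48, R13_378⟩]⟩]⟩], [⟨nat_lit 1, [⟨nat_lit 1, [⟨nat_lit 5, nat_lit 4848, nat_lit 5664, nat_lit 1776, nat_lit 9936, nat_lit 13440, R1_37, R3_207, R3_280⟩]⟩, ⟨nat_lit 5, [⟨nat_lit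 5, nat_lit 5328, nat_lit 5520, nat_lit 1920, nat_lit 9888, nat_lit 5904, R10_40, R3_206, R2_123⟩]⟩]⟩], [⟨nat_lit 1, [⟨nat_lit 1, [⟨nat_lit 1, nat_lit 13008, nat_lit 5616, nat_lit 2160, nat_lit 6864, nat_lit 13584, R1_45, R2_143, R2_283⟩, ⟨nat_lit 5, nat_lit 4320, nat_lit 5280, nat_lit 2304, nat_lit 7200, nat_lit 6576, R1_48, R3_150, R3_137⟩]⟩]⟩]], [[⟨nat_lit 1, [⟨nat_lit 1, [⟨nat_lit 5, nat_lit 3504, nat_lit 14592, nat_lit 6672, nat_lit 6000, nat_lit 18240, R1_139, R10_125, R13_380⟩]⟩]⟩], [⟨nat_lit 1, [⟨nat_lit 1, [⟨nat_lit 5, nat_lit 4896, nat_lit 18096, nat_lit 7200, nat_lit 6720, nat_lit 13536, R1_150, R10_140, R3_282⟩]⟩, ⟨nat_lit 5, [⟨nat_lit 5, nat_lit 5376, nat_lit 17616, nat_lit 8112, nat_lit 6816, nat_lit 6336, R10_169, R10_142, R2_132⟩]⟩]⟩,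
 ⟨nat_lit 5, [⟨nat_lit 5, [⟨nat_lit 5, nat_lit 5424, nat_lit 17664, nat_lit 12528, nat_lit 2400, nat_lit 6288, R1_261, R1_50, R2_131⟩]⟩]⟩], [⟨nat_lit 1, [⟨nat_lit 1, [⟨nat_lit 1, nat_lit 13536, nat_lit 3456, nat_lit 7536, nat_lit 5568, nat_lit 13680, R1_157, R1_116, R2_285⟩, ⟨nat_lit 5, nat_lit 4368, nat_lit 3120, nat_lit 7680, nat_lit 6432, nat_lit 6960, R1_160, R10_134, R3_145⟩]⟩]⟩]], [[], [], [⟨nat_lit 1, [⟨nat_lit 1, [⟨nat_lit 1, nat_lit 13392, nat_lit 13392, nat_lit 12000, nat_lit 10752, nat_lit 13632, R1_250, R12_224, R2_284⟩]⟩]⟩]], [[⟨nat_lit 1, [⟨nat_lit 1, [⟨nat_lit 5, nat_lit 3744, nat_lit 13680, nat_lit 9456, nat_lit 1344, nat_lit 18192, R1_197, R0_28, R13_379⟩]⟩]⟩], [⟨nat_lit 1, [⟨nat_lit 1, [⟨nat_lit 5, nat_lit 5040, nat_lit 11808, nat_lit 10752, nat_lit 1872, nat_lit 13488, R1_224, R0_39, R3_281⟩]⟩,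 ⟨nat_lit 5, [⟨nat_lit 5, nat_lit 5664, nat_lit 11424, nat_lit 11664, nat_lit 1728, nat_lit 6192, R10_243, R0_36, R2_129⟩]⟩]⟩]]], [[[⟨nat_lit 0, [⟨nat_lit 0, [⟨nat_lit 5, nat_lit 3120, nat_lit 8736, nat_lit 15936, nat_lit 10992, nat_lit 12576, R7_332, R4_229, R6_262⟩]⟩, ⟨nat_lit 1, [⟨nat_lit 5, nat_lit 3312, nat_lit 9264, nat_lit 12960, nat_lit 11088, nat_lit 17808, R14_270, R4_231, R13_371⟩]⟩]⟩,
 ⟨nat_lit 1, [⟨nat_lit 1, [⟨nat_lit 5, nat_lit 3408, nat_lit 9408, nat_lit 10224, nat_lit 2784, nat_lit 17952, R12_213, R3_58, R13_374⟩]⟩]⟩], [], [⟨nat_lit 0, [⟨nat_lit 0, [⟨nat_lit 1, nat_lit 12480, nat_lit 14832, nat_lit 12144, nat_lit 11808, nat_lit 13872, R7_253, R7_246, R7_289⟩, ⟨nat_lit 5, nat_lit 3984, nat_lit 5184, nat_lit 16656, nat_lit 11376, nat_lit 12912, R7_347, R4_237, R4_269⟩]⟩, ⟨nat_lit 1, [⟨nat_lit 1,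 nat_lit 12864, nat_lit 14880, nat_lit 12384, nat_lit 11904, nat_lit 13152, R14_258, R7_248, R2_274⟩, ⟨nat_lit 5, nat_lit 4176, nat_lit 5232, nat_lit 13008, nat_lit 11424, nat_lit 6432, R14_271, R4_238, R3_134⟩]⟩]⟩,
 ⟨nat_lit 1, [⟨nat_lit 1, [⟨nat_lit 1, nat_lit 12960, nat_lit 15840, nat_lit 9648, nat_lit 10368, nat_lit 13440, R12_201, R2_216, R2_280⟩, ⟨nat_lit 5, nat_lit 4272, nat_lit 5424, nat_lit 10272, nat_lit 7536, nat_lit 6528, R12_214, R3_157, R3_136⟩]⟩]⟩,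
 ⟨nat_lit 3, [⟨nat_lit 0, [⟨nat_lit 1, nat_lit 12528, nat_lit 15312, nat_lit 11568, nat_lit 10992, nat_lit 14016, R2_241, R2_229, R7_292⟩]⟩, ⟨nat_lit 1, [⟨nat_lit 1, nat_lit 13104, nat_lit 15360, nat_lit 2016, nat_lit 11424, nat_lit 13296, R12_42, R2_238, R2_277⟩]⟩]⟩]], [], [[], [], [⟨nat_lit 0, [⟨nat_lit 0, [⟨nat_lit 1, nat_lit 12576, nat_lit 18384, nat_lit 12192, nat_lit 14256, nat_lit 13920, R7_254, R14_297, R7_290⟩]⟩, ⟨nat_lit 1, [⟨nat_lit 1, nat_lit 13200, nat_lit 19200, nat_lit 14448, nat_lit 15072, nat_lit 13200, R14_301, R14_314, R2_275⟩]⟩]⟩,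
 ⟨nat_lit 1, [⟨nat_lit 1, [⟨nat_lit 1, nat_lit 13344, nat_lit 19680, nat_lit 11520, nat_lit 12144, nat_lit 13488, R12_240, R12_253, R2_281⟩]⟩]⟩,
 ⟨nat_lit 2, [⟨nat_lit 0, [⟨nat_lit 1, nat_lit 12624, nat_lit 18816, nat_lit 10704, nat_lit 9840, nat_lit 13968, R2_223, R12_205, R7_291⟩]⟩, ⟨nat_lit 1, [⟨nat_lit 1, nat_lit 13248, nat_lit 20352, nat_lit 11472, nat_lit 11904, nat_lit 13248, R12_239, R12_248, R2_276⟩]⟩, ⟨nat_lit 2, [⟨nat_lit 1, nat_lit 12768, nat_lit 20976, nat_lit 11088, nat_lit 10560, nat_lit 14352, R1_231, R12_220, R2_299⟩]⟩]⟩,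
 ⟨nat_lit 3, [⟨nat_lit 0, [⟨nat_lit 1, nat_lit 12672, nat_lit 18624, nat_lit 11664, nat_lit 9984, nat_lit 14064, R2_243, R12_208, R7_293⟩]⟩, ⟨nat_lit 1, [⟨nat_lit 1, nat_lit 13488, nat_lit 20160, nat_lit 11712, nat_lit 12000, nat_lit 13344, R12_244, R12_250, R2_278⟩]⟩]⟩], [], [], [], [⟨nat_lit 0, [⟨nat_lit 0, [⟨nat_lit 0, nat_lit 12000, nat_lit 13200, nat_lit 2880, nat_lit 576, nat_lit 14160, R7_60, R7_12, R6_295⟩, ⟨nat_lit 1, nat_lit 13728, nat_lit 13248, nat_lit 12336, nat_lit 14208, nat_lit 13920, R7_257, R14_296, R4_290⟩]⟩]⟩,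
 ⟨nat_lit 2, [⟨nat_lit 0, [⟨nat_lit 0, nat_lit 12048, nat_lit 13440, nat_lit 1008, nat_lit 0, nat_lit 14304, R2_21, R2_0, R6_298⟩, ⟨nat_lit 1, nat_lit 13776, nat_lit 13488, nat_lit 10944, nat_lit 9888, nat_lit 13968, R2_228, R12_206, R4_291⟩]⟩, ⟨nat_lit 2, [⟨nat_lit 0, nat_lit 12336, nat_lit 13584, nat_lit 336, nat_lit 3936, nat_lit 19488, R1_7, R2_82, R13_406⟩, ⟨nat_lit 1, nat_lit 13872, nat_lit 13632, nat_lit 11328, nat_lit 10608, nat_lit 15648, R1_236, R12_221, R3_326⟩, ⟨nat_lit 2, nat_lit 14112, nat_lit 13680, nat_lit 6000, nat_lit 3408, nat_lit 15840, R1_125, R1_71, R3_330⟩]⟩]⟩,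
 ⟨nat_lit 3, [⟨nat_lit 0, [⟨nat_lit 0, nat_lit 12096, nat_lit 13296, nat_lit 672, nat_lit 1728, nat_lit 14352, R2_14, R2_36, R6_299⟩, ⟨nat_lit 1, nat_lit 13824, nat_lit 13344, nat_lit 10320, nat_lit 9744, nat_lit 14016, R2_215, R12_203, R4_292⟩, ⟨nat_lit 3, nat_lit 14928, nat_lit 13392, nat_lit 6480, nat_lit 1200, nat_lit 13344, R2_135, R1_25, R8_278⟩]⟩, ⟨nat_lit 3, [⟨nat_lit 3, nat_lit 15312, nat_lit 13536, nat_lit 5184, nat_lit 6624, nat_lit 16560, R1_108, R1_138, R5_345⟩]⟩]⟩]], [[⟨nat_lit 0, [⟨nat_lit 0, [⟨nat_lit 5, nat_lit 3168, nat_lit 11136, nat_lit 15984, nat_lit 12816, nat_lit 12624, R7_333, R5_267, R6_263⟩]⟩, ⟨nat_lit 1, [⟨nat_lit 5, nat_lit 3600, nat_lit 12048, nat_lit 13296, nat_lit 13824, nat_lit 17856, R14_277, R5_288, R13_372⟩]⟩]⟩,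
 ⟨nat_lit 3, [⟨nat_lit 0, [⟨nat_lit 5, nat_lit 3216, nat_lit 11184, nat_lit 14592, nat_lit 2544, nat_lit 12672, R2_304, R11_53, R6_264⟩]⟩, ⟨nat_lit 1, [⟨nat_lit 5, nat_lit 3840, nat_lit 12096, nat_lit 5376, nat_lit 2688, nat_lit 17904, R12_112, R11_56, R13_373⟩]⟩]⟩], [], [⟨nat_lit 0, [⟨nat_lit 0, [⟨nat_lit 5, nat_lit 4032, nat_lit 12192, nat_lit 16704, nat_lit 13056, nat_lit 12960, R7_348, R5_272, R4_270⟩]⟩, ⟨nat_lit 1, [⟨nat_lit 5, nat_lit 4464, nat_lit 12768, nat_lit 13392, nat_lit 14160, nat_lit 6672, R14_279, R5_295, R3_139⟩]⟩]⟩,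
 ⟨nat_lit 1, [⟨nat_lit 1, [⟨nat_lit 5, nat_lit 4560, nat_lit 13104, nat_lit 11040, nat_lit 1488, nat_lit 6912, R12_230, R0_31, R3_144⟩]⟩]⟩,
 ⟨nat_lit 3, [⟨nat_lit 0, [⟨nat_lit 1, nat_lit 12720, nat_lit 12432, nat_lit 11616, nat_lit 11568, nat_lit 14112, R2_242, R1_241, R7_294⟩, ⟨nat_lit 5, nat_lit 4080, nat_lit 12384, nat_lit 15648, nat_lit 2736, nat_lit 13008, R2_326, R11_57, R4_271⟩]⟩, ⟨nat_lit 1, [⟨nat_lit 1, nat_lit 13632, nat_lit 13392, nat_lit 6528, nat_lit 12000, nat_lit 13392, R12_136, R1_250, R2_279⟩, ⟨nat_lit 5, nat_lit 4656, nat_lit 13344, nat_lit 5808, nat_lit 2880, nat_lit 6768, R12_121, R11_60, R3_141⟩]⟩]⟩], [⟨nat_lit 0, [⟨nat_lit 0, [⟨nat_lit 5, nat_lit 6384, nat_lit 14496, nat_lit 16224, nat_lit 12960, nat_lit 13248, R7_338, R5_270, R8_276⟩]⟩, ⟨nat_lit 1, [⟨nat_lit 5, nat_lit 6576, nat_lit 15792,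 nat_lit 13344, nat_lit 14016, nat_lit 14784, R14_278, R5_292, R9_308⟩]⟩]⟩,
 ⟨nat_lit 3, [⟨nat_lit 0, [⟨nat_lit 5, nat_lit 6432, nat_lit 15024, nat_lit 15168, nat_lit 2928, nat_lit 13296, R2_316, R11_61, R8_277⟩]⟩, ⟨nat_lit 1, [⟨nat_lit 5, nat_lit 6816, nat_lit 17520, nat_lit 5568, nat_lit 3072, nat_lit 14832, R12_116, R11_64, R9_309⟩]⟩, ⟨nat_lit 3, [⟨nat_lit 5, nat_lit 7008, nat_lit 18528, nat_lit 16176, nat_lit 2976, nat_lit 5952, R1_337, R11_62, R5_124⟩]⟩]⟩]], [[], [], [], [], [⟨nat_lit 3, [⟨nat_lit 3, [⟨nat_lit 7, nat_lit 10512, nat_lit 13680, nat_lit 13104, nat_lit 10752, nat_lit 14208, R1_273, R2_224, R7_296⟩]⟩]⟩], [], [], [⟨nat_lit 3, [⟨nat_lit 0, [⟨nat_lit 7, nat_lit 11568, nat_lit 15312, nat_lit 12528, nat_lit 10992, nat_lit 14016, R2_261, R2_229, R7_292⟩]⟩, ⟨nat_lit 3, [⟨nat_lit 7, nat_lit 11712, nat_lit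 15504, nat_lit 13872, nat_lit 11040, nat_lit 16752, R1_289, R2_230, R14_349⟩]⟩]⟩]], [], [[], [], [], [], [⟨nat_lit 0, [⟨nat_lit 0, [⟨nat_lit 3, nat_lit 14400, nat_lit 11088, nat_lit 8736, nat_lit 2544, nat_lit 13152, R7_182, R5_53, R6_274⟩]⟩]⟩,
 ⟨nat_lit 2, [⟨nat_lit 0, [⟨nat_lit 3, nat_lit 14496, nat_lit 11280, nat_lit 7632, nat_lit 9456, nat_lit 13248, R2_159, R0_197, R6_276⟩]⟩, ⟨nat_lit 2, [⟨nat_lit 0, nat_lit 11904, nat_lit 15936, nat_lit 192, nat_lit 624, nat_lit 13968, R1_4, R3_13, R6_291⟩, ⟨nat_lit 2, nat_lit 13920, nat_lit 16704, nat_lit 5904, nat_lit 12240, nat_lit 13776, R1_123, R10_255, R4_287⟩, ⟨nat_lit 3, nat_lit 14640, nat_lit 16272, nat_lit 8160, nat_lit 9504, nat_lit 13680, R1_170, R0_198, R8_285⟩]⟩]⟩,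
 ⟨nat_lit 3, [⟨nat_lit 0, [⟨nat_lit 3, nat_lit 14592, nat_lit 11184, nat_lit 3216, nat_lit 15744, nat_lit 13200, R2_67, R11_328, R6_275⟩]⟩, ⟨nat_lit 3, [⟨nat_lit 3, nat_lit 14832, nat_lit 15216, nat_lit 2688, nat_lit 15792, nat_lit 13200, R1_56, R11_329, R4_275⟩, ⟨nat_lit 7, nat_lit 10608, nat_lit 15360, nat_lit 13152, nat_lit 11136, nat_lit 14448, R1_274, R1_232, R7_301⟩]⟩]⟩], [], [⟨nat_lit 0, [⟨nat_lit 0, [⟨nat_lit 0, nat_lit 12144, nat_lit 14928, nat_lit 2928, nat_lit 384, nat_lit 14112, R7_61, R4_8, R6_294⟩, ⟨nat_lit 3, nat_lit 14976, nat_lit 14976, nat_lit 9024, nat_lit 2928, nat_lit 13056, R7_188, R5_61, R8_272⟩]⟩]⟩,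
 ⟨nat_lit 2, [⟨nat_lit 0, [⟨nat_lit 0, nat_lit 12240, nat_lit 15072, nat_lit 1056, nat_lit 3696, nat_lit 14256, R2_22, R3_77, R6_297⟩, ⟨nat_lit 3, nat_lit 15072, nat_lit 15120, nat_lit 8112, nat_lit 9696, nat_lit 13200, R2_169, R0_202, R8_275⟩]⟩, ⟨nat_lit 2, [⟨nat_lit 0, nat_lit 12384, nat_lit 15216, nat_lit 384, nat_lit 4224, nat_lit 19536, R1_8, R3_88, R13_407⟩, ⟨nat_lit 2, nat_lit 14160, nat_lit 15312, nat_lit 6048, nat_lit 12336, nat_lit 15792, R1_126, R10_257, R3_329⟩, ⟨nat_lit 3, nat_lit 15216, nat_lit 15264, nat_lit 8640, nat_lit 9744, nat_lit 15792, R1_180, R0_203, R9_329⟩]⟩]⟩,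
 ⟨nat_lit 3, [⟨nat_lit 0, [⟨nat_lit 3, nat_lit 15168, nat_lit 15024, nat_lit 6432, nat_lit 15888, nat_lit 13296, R2_134, R11_331, R8_277⟩]⟩, ⟨nat_lit 3, [⟨nat_lit 3, nat_lit 15456, nat_lit 15168, nat_lit 5136, nat_lit 15936, nat_lit 16608, R1_107, R11_332, R5_346⟩]⟩]⟩], [⟨nat_lit 0, [⟨nat_lit 0, [⟨nat_lit 3, nat_lit 15552, nat_lit 12336, nat_lit 8928, nat_lit 2736, nat_lit 12528, R7_186, R5_57, R4_261⟩]⟩]⟩,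
 ⟨nat_lit 2, [⟨nat_lit 0, [⟨nat_lit 3, nat_lit 15600, nat_lit 12480, nat_lit 7968, nat_lit 9792, nat_lit 12864, R2_166, R0_204, R4_268⟩]⟩, ⟨nat_lit 2, [⟨nat_lit 3, nat_lit 15696, nat_lit 12576, nat_lit 8496, nat_lit 9840, nat_lit 16800, R1_177, R0_205, R5_350⟩]⟩]⟩,
 ⟨nat_lit 3, [⟨nat_lit 0, [⟨nat_lit 3, nat_lit 15648, nat_lit 12384, nat_lit 4080, nat_lit 15984, nat_lit 13008, R2_85, R11_333, R4_271⟩, ⟨nat_lit 7, nat_lit 11616, nat_lit 12432, nat_lit 12720, nat_lit 11568, nat_lit 14112, R2_265, R1_241, R7_294⟩]⟩, ⟨nat_lit 3, [⟨nat_lit 7, nat_lit 11760, nat_lit 12528, nat_lit 14064, nat_lit 11616, nat_lit 16800, R1_293, R1_242, R14_350⟩]⟩]⟩]], [[], [], [], [⟨nat_lit 3, [⟨nat_lit 0, [⟨nat_lit 4, nat_lit 672, nat_lit 13296, nat_lit 12096, nat_lit 1728, nat_lit 14352, R2_252, R2_36, R6_299⟩, ⟨nat_lit 5, nat_lit 6480,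 nat_lit 13392, nat_lit 14928, nat_lit 1200, nat_lit 13344, R2_311, R1_25, R8_278⟩, ⟨nat_lit 7, nat_lit 10320, nat_lit 13344, nat_lit 13824, nat_lit 9744, nat_lit 14016, R2_288, R12_203, R4_292⟩]⟩, ⟨nat_lit 1, [⟨nat_lit 4, nat_lit 768, nat_lit 14256, nat_lit 13824, nat_lit 2784, nat_lit 6192, R12_288, R2_58, R8_129⟩, ⟨nat_lit 5, nat_lit 6912, nat_lit 14352, nat_lit 14736, nat_lit 2256, nat_lit 14880, R12_307, R1_47, R9_310⟩, ⟨nat_lit 7, nat_lit 10416, nat_lit 14304, nat_lit 14496, nat_lit 9792, nat_lit 15888, R12_302, R12_204, R5_331⟩]⟩, ⟨nat_lit 3, [⟨nat_lit 4, nat_lit 864, nat_lit 15264, nat_lit 12672, nat_lit 2256, nat_lit 8112, R1_264, R2_47, R4_169⟩, ⟨nat_lit 5, nat_lit 7056, nat_lit 15312, nat_lit 15936, nat_lit 1728, nat_lit 5904, R1_332, R1_36, R5_123⟩]⟩]⟩], [], [], [], [⟨nat_lit 3, [⟨nat_lit 0, [⟨nat_lit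 7, nat_lit 11664, nat_lit 18624, nat_lit 12672, nat_lit 9984, nat_lit 14064, R2_264, R12_208, R7_293⟩]⟩, ⟨nat_lit 3, [⟨nat_lit 4, nat_lit 2928, nat_lit 18672, nat_lit 12432, nat_lit 576, nat_lit 7200, R1_259, R2_12, R7_150⟩, ⟨nat_lit 7, nat_lit 11808, nat_lit 18720, nat_lit 14016, nat_lit 10032, nat_lit 16848, R1_292, R12_209, R14_351⟩]⟩]⟩]]], [[], [], [], [[⟨nat_lit 3, [⟨nat_lit 1, [⟨nat_lit 5, nat_lit 3888, nat_lit 8976, nat_lit 3264, nat_lit 2640, nat_lit 18048, R1_68, R11_55, R13_376⟩]⟩]⟩], [⟨nat_lit 0, [⟨nat_lit 5, [⟨nat_lit 5, nat_lit 5568, nat_lit 13584, nat_lit 7008, nat_lit 7728, nat_lit 6000, R5_146, R5_161, R2_125⟩]⟩]⟩,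
 ⟨nat_lit 1, [⟨nat_lit 5, [⟨nat_lit 5, nat_lit 5712, nat_lit 13680, nat_lit 11472, nat_lit 1776, nat_lit 6144, R0_239, R0_37, R2_128⟩]⟩]⟩,
 ⟨nat_lit 3, [⟨nat_lit 1, [⟨nat_lit 5, nat_lit 5136, nat_lit 14160, nat_lit 3792, nat_lit 3216, nat_lit 13344, R1_79, R11_67, R3_278⟩]⟩, ⟨nat_lit 5, [⟨nat_lit 5, nat_lit 5760, nat_lit 13632, nat_lit 17808, nat_lit 3120, nat_lit 6048, R11_371, R11_65, R2_126⟩]⟩]⟩], [⟨nat_lit 3, [⟨nat_lit 1, [⟨nat_lit 1, nat_lit 13680, nat_lit 3456, nat_lit 5568, nat_lit 7536, nat_lit 13536, R1_116, R1_157, R2_282⟩, ⟨nat_lit 5, nat_lit 4704, nat_lit 3696, nat_lit 5472, nat_lit 2832, nat_lit 6816, R1_114, R11_59, R3_142⟩]⟩]⟩]], [], [], [], [[⟨nat_lit 3, [⟨nat_lit 1, [⟨nat_lit 4, nat_lit 0, nat_lit 12048, nat_lit 13440, nat_lit 1008, nat_lit 6768, R1_280, R2_21, R6_141⟩, ⟨nat_lit 5, nat_lit 3936,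 nat_lit 12336, nat_lit 13584, nat_lit 336, nat_lit 18096, R1_283, R1_7, R13_377⟩]⟩]⟩], [⟨nat_lit 3, [⟨nat_lit 1, [⟨nat_lit 4, nat_lit 48, nat_lit 12624, nat_lit 15360, nat_lit 3024, nat_lit 7344, R1_320, R2_63, R4_153⟩, ⟨nat_lit 5, nat_lit 5184, nat_lit 12912, nat_lit 15456, nat_lit 2496, nat_lit 13392, R1_322, R1_52, R3_279⟩]⟩, ⟨nat_lit 5, [⟨nat_lit 4, nat_lit 528, nat_lit 12384, nat_lit 17760, nat_lit 2976, nat_lit 7248, R11_370, R2_62, R7_151⟩, ⟨nat_lit 5, nat_lit 6240, nat_lit 12480, nat_lit 17856, nat_lit 2448, nat_lit 5472, R11_372, R1_51, R2_114⟩]⟩]⟩], [], [⟨nat_lit 3, [⟨nat_lit 1, [⟨nat_lit 4, nat_lit 816, nat_lit 13680, nat_lit 14400, nat_lit 2736, nat_lit 6240, R1_300, R2_57, R8_130⟩, ⟨nat_lit 5, nat_lit 6960, nat_lit 13728, nat_lit 14928, nat_lit 2208, nat_lit 14976, R1_311, R1_46, R9_312⟩, ⟨nat_lit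 7, nat_lit 10464, nat_lit 13776, nat_lit 14784, nat_lit 9696, nat_lit 15936, R1_308, R12_202, R5_332⟩]⟩]⟩]]], [[], [], [], [], [[], [⟨nat_lit 4, [⟨nat_lit 5, [⟨nat_lit 4, nat_lit 96, nat_lit 3600, nat_lit 3504, nat_lit 3312, nat_lit 7008, R4_73, R6_69, R7_146⟩, ⟨nat_lit 5, nat_lit 5808, nat_lit 3696, nat_lit 3936, nat_lit 3024, nat_lit 5232, R4_82, R4_63, R2_109⟩, ⟨nat_lit 6, nat_lit 7104, nat_lit 3840, nat_lit 3840, nat_lit 3024, nat_lit 7104, R4_80, R8_63, R2_148⟩]⟩]⟩,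
 ⟨nat_lit 7, [⟨nat_lit 5, [⟨nat_lit 4, nat_lit 144, nat_lit 9888, nat_lit 13728, nat_lit 12960, nat_lit 7056, R3_286, R13_270, R7_147⟩, ⟨nat_lit 5, nat_lit 5856, nat_lit 10032, nat_lit 13824, nat_lit 9648, nat_lit 5280, R3_288, R3_201, R2_110⟩, ⟨nat_lit 6, nat_lit 7152, nat_lit 10176, nat_lit 13776, nat_lit 10176, nat_lit 7248, R3_287, R9_212, R2_151⟩]⟩]⟩], [], [], [], [⟨nat_lit 3, [⟨nat_lit 7, [⟨nat_lit 7, nat_lit 10992, nat_lit 15312, nat_lit 12528, nat_lit 11568, nat_lit 15312, R2_261, R2_241, R5_319⟩]⟩]⟩,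
 ⟨nat_lit 4, [⟨nat_lit 4, [⟨nat_lit 4, nat_lit 1104, nat_lit 3072, nat_lit 1488, nat_lit 3936, nat_lit 7440, R6_31, R6_82, R6_155⟩, ⟨nat_lit 6, nat_lit 8160, nat_lit 3264, nat_lit 1872, nat_lit 1728, nat_lit 16944, R6_39, R8_36, R13_353⟩]⟩, ⟨nat_lit 5, [⟨nat_lit 4, nat_lit 1920, nat_lit 3648, nat_lit 1488, nat_lit 4176, nat_lit 8160, R4_31, R6_87, R4_170⟩, ⟨nat_lit 6, nat_lit 9696, nat_lit 3792, nat_lit 1728, nat_lit 2928, nat_lit 12768, R4_36, R8_61, R3_266⟩]⟩, ⟨nat_lit 6, [⟨nat_lit 6, nat_lit 8784, nat_lit 4128, nat_lit 2016, nat_lit 2592, nat_lit 7632, R8_42, R8_54, R3_159⟩]⟩]⟩,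
 ⟨nat_lit 6, [⟨nat_lit 6, [⟨nat_lit 6, nat_lit 8880, nat_lit 12576, nat_lit 14928, nat_lit 13632, nat_lit 7920, R5_311, R5_284, R3_165⟩]⟩]⟩,
 ⟨nat_lit 7, [⟨nat_lit 4, [⟨nat_lit 4, nat_lit 1200, nat_lit 9264, nat_lit 16416, nat_lit 14064, nat_lit 7728, R13_342, R13_293, R6_161⟩, ⟨nat_lit 6, nat_lit 8256, nat_lit 9456, nat_lit 16464, nat_lit 11712, nat_lit 16992, R13_343, R9_244, R13_354⟩]⟩, ⟨nat_lit 5, [⟨nat_lit 4, nat_lit 1968, nat_lit 10704, nat_lit 12480, nat_lit 14160, nat_lit 8304, R3_260, R13_295, R4_173⟩, ⟨nat_lit 6, nat_lit 9744, nat_lit 10848, nat_lit 12528, nat_lit 11856, nat_lit 12816, R3_261, R9_247, R3_267⟩]⟩, ⟨nat_lit 6, [⟨nat_lit 6, nat_lit 8976, nat_lit 11136, nat_lit 14112, nat_lit 11808, nat_lit 8208, R9_294, R9_246, R3_171⟩]⟩, ⟨nat_lit 7, [⟨nat_lit 4, nat_lit 2400, nat_lit 10032, nat_lit 1296,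 nat_lit 14112, nat_lit 4896, R3_27, R13_294, R8_102⟩, ⟨nat_lit 6, nat_lit 10032, nat_lit 10368, nat_lit 1920, nat_lit 11760, nat_lit 14352, R3_40, R9_245, R9_299⟩, ⟨nat_lit 7, nat_lit 11088, nat_lit 10176, nat_lit 1536, nat_lit 3408, nat_lit 15264, R3_32, R3_71, R5_318⟩]⟩]⟩]], [[], [⟨nat_lit 4, [⟨nat_lit 5, [⟨nat_lit 4, nat_lit 240, nat_lit 13632, nat_lit 9792, nat_lit 9456, nat_lit 7296, R4_204, R8_197, R7_152⟩, ⟨nat_lit 5, nat_lit 5952, nat_lit 13680, nat_lit 10272, nat_lit 768, nat_lit 5520, R4_214, R5_16, R2_115⟩, ⟨nat_lit 6, nat_lit 7248, nat_lit 13776, nat_lit 10176, nat_lit 1728, nat_lit 7152, R4_212, R9_36, R2_149⟩]⟩]⟩,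
 ⟨nat_lit 7, [⟨nat_lit 5, [⟨nat_lit 4, nat_lit 384, nat_lit 14400, nat_lit 14496, nat_lit 3216, nat_lit 7392, R3_302, R9_67, R7_154⟩, ⟨nat_lit 5, nat_lit 6096, nat_lit 14448, nat_lit 14544, nat_lit 1680, nat_lit 5616, R3_303, R0_35, R2_117⟩]⟩]⟩], [], [], [], [⟨nat_lit 4, [⟨nat_lit 4, [⟨nat_lit 4, nat_lit 1392, nat_lit 1392, nat_lit 7584, nat_lit 1632, nat_lit 7584, R6_158, R8_34, R6_158⟩, ⟨nat_lit 6, nat_lit 8448, nat_lit 1584, nat_lit 8016, nat_lit 912, nat_lit 17088, R6_167, R9_19, R13_356⟩]⟩, ⟨nat_lit 5, [⟨nat_lit 4, nat_lit 2016, nat_lit 2016, nat_lit 8208, nat_lit 9504, nat_lit 8208, R4_171, R8_198, R4_171⟩, ⟨nat_lit 6, nat_lit 9792, nat_lit 2160, nat_lit 8448, nat_lit 1632, nat_lit 12912, R4_176, R9_34, R3_269⟩]⟩, ⟨nat_lit 6, [⟨nat_lit 6, nat_lit 9216, nat_lit 2544, nat_lit 6528, nat_lit 1344, nat_lit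 7776, R8_136, R9_28, R3_162⟩]⟩]⟩,
 ⟨nat_lit 6, [⟨nat_lit 6, [⟨nat_lit 6, nat_lit 9360, nat_lit 11280, nat_lit 15408, nat_lit 4080, nat_lit 8064, R5_321, R0_85, R3_168⟩]⟩]⟩,
 ⟨nat_lit 7, [⟨nat_lit 4, [⟨nat_lit 4, nat_lit 1584, nat_lit 8448, nat_lit 17088, nat_lit 912, nat_lit 8016, R13_356, R9_19, R6_167⟩]⟩, ⟨nat_lit 5, [⟨nat_lit 4, nat_lit 2160, nat_lit 9792, nat_lit 12912, nat_lit 1632, nat_lit 8448, R3_269, R9_34, R4_176⟩]⟩, ⟨nat_lit 7, [⟨nat_lit 4, nat_lit 2544, nat_lit 9216, nat_lit 7776, nat_lit 1344, nat_lit 6528, R3_162, R9_28, R8_136⟩, ⟨nat_lit 7, nat_lit 11280, nat_lit 9360, nat_lit 8064, nat_lit 4080, nat_lit 15408, R3_168, R0_85, R5_321⟩]⟩]⟩]], [], [[], [], [], [], [], [⟨nat_lit 3, [⟨nat_lit 7, [⟨nat_lit 4, nat_lit 2688, nat_lit 12912, nat_lit 13056, nat_lit 720, nat_lit 6144, R2_272, R2_15, R8_128⟩,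 ⟨nat_lit 7, nat_lit 11424, nat_lit 13296, nat_lit 13104, nat_lit 10080, nat_lit 15360, R2_273, R12_210, R5_320⟩]⟩]⟩,
 ⟨nat_lit 7, [⟨nat_lit 4, [⟨nat_lit 4, nat_lit 1776, nat_lit 3360, nat_lit 17712, nat_lit 2064, nat_lit 7872, R13_369, R3_43, R6_164⟩, ⟨nat_lit 6, nat_lit 8640, nat_lit 3648, nat_lit 17760, nat_lit 1296, nat_lit 17040, R13_370, R0_27, R13_355⟩]⟩, ⟨nat_lit 5, [⟨nat_lit 4, nat_lit 2304, nat_lit 4800, nat_lit 13248, nat_lit 9696, nat_lit 8352, R3_276, R3_202, R4_174⟩, ⟨nat_lit 6, nat_lit 9936, nat_lit 4992, nat_lit 13296, nat_lit 1824, nat_lit 12864, R3_277, R0_38, R3_268⟩]⟩, ⟨nat_lit 6, [⟨nat_lit 6, nat_lit 9552, nat_lit 6624, nat_lit 14736, nat_lit 1536, nat_lit 8352, R9_307, R0_32, R3_174⟩]⟩, ⟨nat_lit 7, [⟨nat_lit 4, nat_lit 2832, nat_lit 4224, nat_lit 6480, nat_lit 7008, nat_lit 6048, R3_135,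 R3_146, R8_126⟩, ⟨nat_lit 6, nat_lit 10176, nat_lit 4512, nat_lit 6864, nat_lit 1440, nat_lit 14400, R3_143, R0_30, R9_300⟩]⟩]⟩]]], [[], [[], [⟨nat_lit 5, [⟨nat_lit 5, [⟨nat_lit 5, nat_lit 5472, nat_lit 12480, nat_lit 17856, nat_lit 2448, nat_lit 6240, R11_372, R1_51, R2_130⟩]⟩]⟩]], [], [], [], [[], [⟨nat_lit 4, [⟨nat_lit 5, [⟨nat_lit 4, nat_lit 288, nat_lit 1584, nat_lit 6096, nat_lit 9984, nat_lit 7344, R5_127, R8_208, R7_153⟩, ⟨nat_lit 5, nat_lit 6000, nat_lit 1680, nat_lit 7008, nat_lit 7728, nat_lit 5568, R5_146, R5_161, R2_116⟩, ⟨nat_lit 6, nat_lit 7296, nat_lit 1824, nat_lit 6624, nat_lit 7632, nat_lit 7200, R5_138, R9_159, R2_150⟩]⟩]⟩,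
 ⟨nat_lit 5, [⟨nat_lit 5, [⟨nat_lit 4, nat_lit 336, nat_lit 7776, nat_lit 17472, nat_lit 3120, nat_lit 7536, R11_364, R5_65, R7_157⟩, ⟨nat_lit 5, nat_lit 6048, nat_lit 7872, nat_lit 17808, nat_lit 3120, nat_lit 5760, R11_371, R11_65, R2_120⟩, ⟨nat_lit 6, nat_lit 7344, nat_lit 8016, nat_lit 17712, nat_lit 5472, nat_lit 7392, R11_369, R0_114, R2_154⟩]⟩]⟩,
 ⟨nat_lit 7, [⟨nat_lit 5, [⟨nat_lit 4, nat_lit 432, nat_lit 11376, nat_lit 11328, nat_lit 3312, nat_lit 7488, R0_236, R9_69, R7_156⟩, ⟨nat_lit 5, nat_lit 6144, nat_lit 11520, nat_lit 11472, nat_lit 1776, nat_lit 5712, R0_239, R0_37, R2_119⟩]⟩]⟩], [], [], [], [⟨nat_lit 4, [⟨nat_lit 4, [⟨nat_lit 4, nat_lit 1488, nat_lit 864, nat_lit 1920, nat_lit 2352, nat_lit 7680, R8_40, R8_49, R6_160⟩, ⟨nat_lit 6, nat_lit 8544, nat_lit 1056, nat_lit 6432, nat_lit 6336, nat_lit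 17472, R8_134, R9_132, R13_364⟩]⟩, ⟨nat_lit 5, [⟨nat_lit 4, nat_lit 2064, nat_lit 1488, nat_lit 6192, nat_lit 10032, nat_lit 8256, R5_129, R8_209, R4_172⟩, ⟨nat_lit 6, nat_lit 9840, nat_lit 1632, nat_lit 6720, nat_lit 7536, nat_lit 13008, R5_140, R9_157, R3_271⟩]⟩, ⟨nat_lit 6, [⟨nat_lit 6, nat_lit 9312, nat_lit 2016, nat_lit 6624, nat_lit 7200, nat_lit 7872, R9_138, R9_150, R3_164⟩]⟩]⟩,
 ⟨nat_lit 5, [⟨nat_lit 4, [⟨nat_lit 4, nat_lit 1536, nat_lit 6288, nat_lit 14448, nat_lit 336, nat_lit 8160, R5_301, R5_7, R6_170⟩, ⟨nat_lit 6, nat_lit 8592, nat_lit 6480, nat_lit 14640, nat_lit 4176, nat_lit 17520, R5_305, R0_87, R13_365⟩]⟩, ⟨nat_lit 5, [⟨nat_lit 4, nat_lit 2112, nat_lit 6912, nat_lit 17952, nat_lit 720, nat_lit 8544, R11_374, R5_15, R4_178⟩, ⟨nat_lit 6, nat_lit 9888, nat_lit 7056, nat_lit 18144, nat_lit 5376,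 nat_lit 13056, R11_378, R0_112, R3_272⟩]⟩, ⟨nat_lit 6, [⟨nat_lit 6, nat_lit 9504, nat_lit 7392, nat_lit 4464, nat_lit 5040, nat_lit 8496, R0_93, R0_105, R3_177⟩]⟩]⟩,
 ⟨nat_lit 6, [⟨nat_lit 6, [⟨nat_lit 6, nat_lit 9456, nat_lit 11856, nat_lit 4368, nat_lit 4800, nat_lit 8160, R0_91, R0_100, R3_170⟩]⟩]⟩,
 ⟨nat_lit 7, [⟨nat_lit 4, [⟨nat_lit 4, nat_lit 1680, nat_lit 9264, nat_lit 13440, nat_lit 960, nat_lit 8112, R9_280, R9_20, R6_169⟩]⟩, ⟨nat_lit 5, [⟨nat_lit 4, nat_lit 2208, nat_lit 10608, nat_lit 11568, nat_lit 1680, nat_lit 8496, R0_241, R9_35, R4_177⟩]⟩, ⟨nat_lit 7, [⟨nat_lit 4, nat_lit 2640, nat_lit 10032, nat_lit 768, nat_lit 1392, nat_lit 6624, R0_16, R9_29, R8_138⟩, ⟨nat_lit 7, nat_lit 11376, nat_lit 10176, nat_lit 6000, nat_lit 4128, nat_lit 15792, R0_125, R0_86, R5_329⟩]⟩]⟩]]], [[], [], [], [], [[], [],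 [], [], [⟨nat_lit 3, [⟨nat_lit 3, [⟨nat_lit 7, nat_lit 10560, nat_lit 14928, nat_lit 18768, nat_lit 10560, nat_lit 13776, R11_391, R2_220, R7_287⟩]⟩, ⟨nat_lit 7, [⟨nat_lit 7, nat_lit 10752, nat_lit 14832, nat_lit 13104, nat_lit 10512, nat_lit 13680, R1_273, R2_219, R4_285⟩]⟩]⟩,
 ⟨nat_lit 4, [⟨nat_lit 4, [⟨nat_lit 6, nat_lit 7440, nat_lit 15744, nat_lit 8784, nat_lit 9600, nat_lit 12336, R4_183, R8_200, R6_257⟩]⟩, ⟨nat_lit 6, [⟨nat_lit 6, nat_lit 7680, nat_lit 16464, nat_lit 6000, nat_lit 10176, nat_lit 12576, R5_125, R8_212, R4_262⟩]⟩]⟩,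
 ⟨nat_lit 6, [⟨nat_lit 6, [⟨nat_lit 6, nat_lit 7728, nat_lit 16608, nat_lit 18432, nat_lit 12768, nat_lit 12624, R11_384, R5_266, R4_263⟩]⟩]⟩,
 ⟨nat_lit 7, [⟨nat_lit 4, [⟨nat_lit 6, nat_lit 7488, nat_lit 15840, nat_lit 11232, nat_lit 10800, nat_lit 12384, R3_234, R9_225, R6_258⟩]⟩, ⟨nat_lit 6, [⟨nat_lit 6, nat_lit 7776, nat_lit 16512, nat_lit 12240, nat_lit 10896, nat_lit 12672, R0_255, R9_227, R4_264⟩]⟩, ⟨nat_lit 7, [⟨nat_lit 4, nat_lit 912, nat_lit 13392, nat_lit 14544, nat_lit 13440, nat_lit 13824, R10_303, R13_280, R6_288⟩, ⟨nat_lit 6, nat_lit 8016, nat_lit 16176, nat_lit 14640, nat_lit 10848, nat_lit 13104, R10_305, R9_226, R8_273⟩, ⟨nat_lit 7, nat_lit 10800, nat_lit 14784, nat_lit 14592, nat_lit 10368, nat_lit 13632, R10_304, R3_216, R4_284⟩]⟩]⟩], [⟨nat_lit 3, [⟨nat_lit 7, [⟨nat_lit 7, nat_lit 11040, nat_lit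 7920, nat_lit 13872, nat_lit 11712, nat_lit 15504, R1_289, R2_244, R5_323⟩]⟩]⟩,
 ⟨nat_lit 4, [⟨nat_lit 4, [⟨nat_lit 4, nat_lit 1152, nat_lit 8112, nat_lit 3312, nat_lit 11424, nat_lit 7488, R4_69, R6_238, R6_156⟩, ⟨nat_lit 6, nat_lit 8208, nat_lit 8592, nat_lit 9312, nat_lit 9696, nat_lit 17136, R4_194, R8_202, R13_357⟩]⟩, ⟨nat_lit 6, [⟨nat_lit 6, nat_lit 8832, nat_lit 8640, nat_lit 6048, nat_lit 10272, nat_lit 7680, R5_126, R8_214, R3_160⟩]⟩]⟩,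
 ⟨nat_lit 6, [⟨nat_lit 6, [⟨nat_lit 6, nat_lit 8928, nat_lit 10992, nat_lit 19248, nat_lit 13776, nat_lit 7968, R11_401, R5_287, R3_166⟩]⟩]⟩,
 ⟨nat_lit 7, [⟨nat_lit 4, [⟨nat_lit 4, nat_lit 1248, nat_lit 9168, nat_lit 11712, nat_lit 14544, nat_lit 7776, R3_244, R13_303, R6_162⟩, ⟨nat_lit 6, nat_lit 8304, nat_lit 10224, nat_lit 12192, nat_lit 12336, nat_lit 17184, R3_254, R9_257, R13_358⟩]⟩, ⟨nat_lit 6, [⟨nat_lit 6, nat_lit 9024, nat_lit 10320, nat_lit 12816, nat_lit 12432, nat_lit 8256, R0_267, R9_259, R3_172⟩]⟩, ⟨nat_lit 7, [⟨nat_lit 4, nat_lit 2448, nat_lit 9216, nat_lit 15840, nat_lit 14592, nat_lit 4944, R10_330, R13_304, R8_103⟩, ⟨nat_lit 6, nat_lit 10080, nat_lit 10272, nat_lit 15936, nat_lit 12384, nat_lit 14448, R10_332, R9_258, R9_301⟩, ⟨nat_lit 7, nat_lit 11136, nat_lit 9984, nat_lit 15888, nat_lit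 10896, nat_lit 15456, R10_331, R3_227, R5_322⟩]⟩]⟩]], [[], [], [], [], [], [⟨nat_lit 4, [⟨nat_lit 4, [⟨nat_lit 4, nat_lit 1440, nat_lit 6720, nat_lit 3408, nat_lit 2832, nat_lit 7632, R4_71, R8_59, R6_159⟩, ⟨nat_lit 6, nat_lit 8496, nat_lit 7200, nat_lit 9456, nat_lit 10320, nat_lit 17376, R4_197, R9_215, R13_362⟩]⟩, ⟨nat_lit 6, [⟨nat_lit 6, nat_lit 9264, nat_lit 7248, nat_lit 6576, nat_lit 10656, nat_lit 7824, R5_137, R9_222, R3_163⟩]⟩]⟩,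
 ⟨nat_lit 6, [⟨nat_lit 6, [⟨nat_lit 6, nat_lit 9408, nat_lit 9120, nat_lit 19728, nat_lit 5280, nat_lit 8112, R11_411, R0_110, R3_169⟩]⟩]⟩,
 ⟨nat_lit 7, [⟨nat_lit 4, [⟨nat_lit 4, nat_lit 1632, nat_lit 8064, nat_lit 11808, nat_lit 1008, nat_lit 8064, R3_246, R9_21, R6_168⟩]⟩, ⟨nat_lit 7, [⟨nat_lit 4, nat_lit 2592, nat_lit 8112, nat_lit 16704, nat_lit 1440, nat_lit 6576, R10_348, R9_30, R8_137⟩, ⟨nat_lit 7, nat_lit 11328, nat_lit 8880, nat_lit 16752, nat_lit 4320, nat_lit 15696, R10_349, R0_90, R5_327⟩]⟩]⟩]], [[], [], [], [], [⟨nat_lit 0, [⟨nat_lit 0, [⟨nat_lit 3, nat_lit 14448, nat_lit 7536, nat_lit 8832, nat_lit 432, nat_lit 12432, R4_184, R5_9, R6_259⟩]⟩, ⟨nat_lit 3, [⟨nat_lit 3, nat_lit 14736, nat_lit 7824, nat_lit 6912, nat_lit 7392, nat_lit 12720, R5_144, R5_154, R4_265⟩]⟩]⟩,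
 ⟨nat_lit 2, [⟨nat_lit 0, [⟨nat_lit 3, nat_lit 14544, nat_lit 7584, nat_lit 11328, nat_lit 9312, nat_lit 12480, R3_236, R0_194, R6_260⟩]⟩, ⟨nat_lit 2, [⟨nat_lit 0, nat_lit 11952, nat_lit 960, nat_lit 15360, nat_lit 576, nat_lit 14016, R10_320, R3_12, R6_292⟩, ⟨nat_lit 2, nat_lit 13968, nat_lit 10896, nat_lit 15408, nat_lit 12192, nat_lit 13824, R10_321, R10_254, R4_288⟩, ⟨nat_lit 3, nat_lit 14688, nat_lit 8064, nat_lit 15456, nat_lit 9360, nat_lit 13152, R10_322, R0_195, R8_274⟩]⟩, ⟨nat_lit 3, [⟨nat_lit 3, nat_lit 14784, nat_lit 7920, nat_lit 12624, nat_lit 9408, nat_lit 12816, R0_263, R0_196, R4_267⟩]⟩]⟩,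
 ⟨nat_lit 3, [⟨nat_lit 3, [⟨nat_lit 3, nat_lit 14880, nat_lit 7872, nat_lit 18864, nat_lit 15696, nat_lit 12768, R11_393, R11_327, R4_266⟩, ⟨nat_lit 7, nat_lit 10656, nat_lit 14064, nat_lit 18912, nat_lit 10944, nat_lit 13824, R11_394, R1_228, R7_288⟩]⟩, ⟨nat_lit 7, [⟨nat_lit 7, nat_lit 10848, nat_lit 14016, nat_lit 13728, nat_lit 10896, nat_lit 13872, R1_286, R1_227, R4_289⟩]⟩]⟩,
 ⟨nat_lit 4, [⟨nat_lit 4, [⟨nat_lit 6, nat_lit 7536, nat_lit 14448, nat_lit 8832, nat_lit 432, nat_lit 12432, R4_184, R5_9, R6_259⟩]⟩, ⟨nat_lit 6, [⟨nat_lit 6, nat_lit 7824, nat_lit 14736, nat_lit 6912, nat_lit 7392, nat_lit 12720, R5_144, R5_154, R4_265⟩]⟩]⟩,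
 ⟨nat_lit 6, [⟨nat_lit 2, [⟨nat_lit 2, nat_lit 14016, nat_lit 10848, nat_lit 13728, nat_lit 10896, nat_lit 13872, R1_286, R1_227, R4_289⟩]⟩, ⟨nat_lit 6, [⟨nat_lit 2, nat_lit 14064, nat_lit 10656, nat_lit 18912, nat_lit 10944, nat_lit 13824, R11_394, R1_228, R7_288⟩, ⟨nat_lit 6, nat_lit 7872, nat_lit 14880, nat_lit 18864, nat_lit 15696, nat_lit 12768, R11_393, R11_327, R4_266⟩]⟩]⟩,
 ⟨nat_lit 7, [⟨nat_lit 4, [⟨nat_lit 6, nat_lit 7584, nat_lit 14544, nat_lit 11328, nat_lit 9312, nat_lit 12480, R3_236, R0_194, R6_260⟩]⟩, ⟨nat_lit 6, [⟨nat_lit 6, nat_lit 7920, nat_lit 14784, nat_lit 12624, nat_lit 9408, nat_lit 12816, R0_263, R0_196, R4_267⟩]⟩, ⟨nat_lit 7, [⟨nat_lit 4, nat_lit 960, nat_lit 11952, nat_lit 15360, nat_lit 576, nat_lit 14016, R10_320, R3_12, R6_292⟩, ⟨nat_lit 6, nat_lit 8064, nat_lit 14688, nat_lit 15456,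 nat_lit 9360, nat_lit 13152, R10_322, R0_195, R8_274⟩, ⟨nat_lit 7, nat_lit 10896, nat_lit 13968, nat_lit 15408, nat_lit 12192, nat_lit 13824, R10_321, R10_254, R4_288⟩]⟩]⟩], [⟨nat_lit 3, [⟨nat_lit 7, [⟨nat_lit 7, nat_lit 11184, nat_lit 3840, nat_lit 15072, nat_lit 12144, nat_lit 15600, R1_314, R1_253, R5_325⟩]⟩]⟩,
 ⟨nat_lit 4, [⟨nat_lit 4, [⟨nat_lit 4, nat_lit 1296, nat_lit 2784, nat_lit 3456, nat_lit 2352, nat_lit 7536, R4_72, R4_49, R6_157⟩, ⟨nat_lit 6, nat_lit 8352, nat_lit 4128, nat_lit 9504, nat_lit 480, nat_lit 17232, R4_198, R5_10, R13_359⟩]⟩, ⟨nat_lit 6, [⟨nat_lit 6, nat_lit 9072, nat_lit 4176, nat_lit 6960, nat_lit 7440, nat_lit 7728, R5_145, R5_155, R3_161⟩]⟩]⟩,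
 ⟨nat_lit 6, [⟨nat_lit 6, [⟨nat_lit 2, nat_lit 14352, nat_lit 6384, nat_lit 20448, nat_lit 11088, nat_lit 12768, R11_426, R1_231, R2_266⟩, ⟨nat_lit 6, nat_lit 9120, nat_lit 5520, nat_lit 20400, nat_lit 16848, nat_lit 8016, R11_425, R11_351, R3_167⟩]⟩]⟩,
 ⟨nat_lit 7, [⟨nat_lit 4, [⟨nat_lit 4, nat_lit 1344, nat_lit 3168, nat_lit 11856, nat_lit 2160, nat_lit 7824, R3_247, R3_45, R6_163⟩, ⟨nat_lit 6, nat_lit 8400, nat_lit 4752, nat_lit 12288, nat_lit 10512, nat_lit 17280, R3_256, R0_219, R13_360⟩]⟩, ⟨nat_lit 6, [⟨nat_lit 6, nat_lit 9168, nat_lit 4848, nat_lit 13776, nat_lit 10608, nat_lit 8304, R0_287, R0_221, R3_173⟩]⟩, ⟨nat_lit 7, [⟨nat_lit 4, nat_lit 2496, nat_lit 3216, nat_lit 18048, nat_lit 2688, nat_lit 5808, R10_376, R3_56, R8_121⟩, ⟨nat_lit 6, nat_lit 10128, nat_lit 4800, nat_lit 18144, nat_lit 10560, nat_lit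 14496, R10_378, R0_220, R9_302⟩, ⟨nat_lit 7, nat_lit 11232, nat_lit 3648, nat_lit 18096, nat_lit 12912, nat_lit 15552, R10_377, R10_269, R5_324⟩]⟩]⟩], [⟨nat_lit 0, [⟨nat_lit 0, [⟨nat_lit 0, nat_lit 12192, nat_lit 96, nat_lit 3264, nat_lit 432, nat_lit 14064, R4_68, R4_9, R6_293⟩, ⟨nat_lit 3, nat_lit 15024, nat_lit 8064, nat_lit 9168, nat_lit 528, nat_lit 13440, R4_191, R5_11, R8_280⟩]⟩, ⟨nat_lit 3, [⟨nat_lit 3, nat_lit 15360, nat_lit 8352, nat_lit 7200, nat_lit 7488, nat_lit 16656, R5_150, R5_156, R5_347⟩]⟩]⟩,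
 ⟨nat_lit 2, [⟨nat_lit 0, [⟨nat_lit 0, nat_lit 12288, nat_lit 144, nat_lit 15984, nat_lit 3648, nat_lit 14208, R3_333, R3_76, R6_296⟩, ⟨nat_lit 3, nat_lit 15120, nat_lit 8112, nat_lit 16320, nat_lit 9552, nat_lit 13728, R3_340, R0_199, R8_286⟩]⟩, ⟨nat_lit 2, [⟨nat_lit 0, nat_lit 12432, nat_lit 288, nat_lit 15504, nat_lit 4176, nat_lit 19584, R10_323, R3_87, R13_408⟩, ⟨nat_lit 2, nat_lit 14208, nat_lit 11280, nat_lit 15552, nat_lit 12288, nat_lit 15744, R10_324, R10_256, R3_328⟩, ⟨nat_lit 3, nat_lit 15264, nat_lit 8592, nat_lit 15600, nat_lit 9600, nat_lit 15840, R10_325, R0_200, R9_330⟩]⟩, ⟨nat_lit 3, [⟨nat_lit 3, nat_lit 15408, nat_lit 8448, nat_lit 12672, nat_lit 9648, nat_lit 16704, R0_264, R0_201, R5_348⟩]⟩]⟩,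
 ⟨nat_lit 3, [⟨nat_lit 3, [⟨nat_lit 3, nat_lit 15504, nat_lit 8400, nat_lit 19056, nat_lit 15840, nat_lit 16752, R11_397, R11_330, R5_349⟩]⟩]⟩,
 ⟨nat_lit 6, [⟨nat_lit 2, [⟨nat_lit 2, nat_lit 14256, nat_lit 11232, nat_lit 13776, nat_lit 10992, nat_lit 15696, R1_287, R1_229, R3_327⟩]⟩, ⟨nat_lit 6, [⟨nat_lit 2, nat_lit 14304, nat_lit 11040, nat_lit 21024, nat_lit 11040, nat_lit 14304, R11_438, R1_230, R2_298⟩]⟩]⟩]], [[], [], [], [], [⟨nat_lit 3, [⟨nat_lit 3, [⟨nat_lit 7, nat_lit 10704, nat_lit 12624, nat_lit 18816, nat_lit 9840, nat_lit 13968, R11_392, R12_205, R7_291⟩]⟩, ⟨nat_lit 7, [⟨nat_lit 4, nat_lit 1008, nat_lit 12048, nat_lit 13440, nat_lit 0, nat_lit 14304, R1_280, R2_0, R6_298⟩, ⟨nat_lit 7, nat_lit 10944, nat_lit 13776, nat_lit 13488, nat_lit 9888, nat_lit 13968, R1_281, R12_206, R4_291⟩]⟩]⟩,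
 ⟨nat_lit 7, [⟨nat_lit 4, [⟨nat_lit 6, nat_lit 7632, nat_lit 14496, nat_lit 11280, nat_lit 9456, nat_lit 12528, R3_235, R0_197, R6_261⟩]⟩, ⟨nat_lit 6, [⟨nat_lit 6, nat_lit 7968, nat_lit 15600, nat_lit 12480, nat_lit 9792, nat_lit 12864, R0_260, R0_204, R4_268⟩]⟩, ⟨nat_lit 7, [⟨nat_lit 4, nat_lit 1056, nat_lit 12240, nat_lit 15072, nat_lit 3696, nat_lit 14256, R10_314, R3_77, R6_297⟩, ⟨nat_lit 6, nat_lit 8112, nat_lit 15072, nat_lit 15120, nat_lit 9696, nat_lit 13200, R10_315, R0_202, R8_275⟩]⟩]⟩], [⟨nat_lit 3, [⟨nat_lit 7, [⟨nat_lit 4, nat_lit 2736, nat_lit 13680, nat_lit 14400, nat_lit 816, nat_lit 6240, R1_300, R2_17, R8_130⟩, ⟨nat_lit 7, nat_lit 11472, nat_lit 14304, nat_lit 14448, nat_lit 10176, nat_lit 15648, R1_301, R12_212, R5_326⟩]⟩]⟩,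
 ⟨nat_lit 7, [⟨nat_lit 4, [⟨nat_lit 4, nat_lit 1824, nat_lit 3024, nat_lit 11760, nat_lit 2208, nat_lit 7920, R3_245, R3_46, R6_165⟩, ⟨nat_lit 6, nat_lit 8688, nat_lit 4608, nat_lit 12240, nat_lit 10656, nat_lit 17328, R3_255, R0_222, R13_361⟩]⟩, ⟨nat_lit 6, [⟨nat_lit 6, nat_lit 9600, nat_lit 5232, nat_lit 13440, nat_lit 10992, nat_lit 8400, R0_280, R0_229, R3_175⟩]⟩, ⟨nat_lit 7, [⟨nat_lit 4, nat_lit 2880, nat_lit 3264, nat_lit 17568, nat_lit 7104, nat_lit 6096, R10_366, R3_148, R8_127⟩, ⟨nat_lit 6, nat_lit 10224, nat_lit 4896, nat_lit 17616, nat_lit 10896, nat_lit 14544, R10_367, R0_227, R9_303⟩]⟩]⟩], [], [⟨nat_lit 3, [⟨nat_lit 3, [⟨nat_lit 4, nat_lit 2976, nat_lit 12384, nat_lit 18960, nat_lit 528, nat_lit 7248, R11_395, R2_11, R7_151⟩, ⟨nat_lit 7, nat_lit 11856, nat_lit 13968, nat_lit 19008, nat_lit 9936,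 nat_lit 16704, R11_396, R12_207, R14_348⟩]⟩, ⟨nat_lit 7, [⟨nat_lit 4, nat_lit 3024, nat_lit 12624, nat_lit 15360, nat_lit 48, nat_lit 7344, R1_320, R2_1, R4_153⟩]⟩]⟩,
 ⟨nat_lit 7, [⟨nat_lit 7, [⟨nat_lit 4, nat_lit 3072, nat_lit 12816, nat_lit 18576, nat_lit 4848, nat_lit 7008, R10_387, R3_101, R4_146⟩, ⟨nat_lit 6, nat_lit 10272, nat_lit 16080, nat_lit 18624, nat_lit 10176, nat_lit 7872, R10_388, R0_212, R5_164⟩]⟩]⟩]]], [[], [], [], [], [[], [⟨nat_lit 7, [⟨nat_lit 5, [⟨nat_lit 4, nat_lit 192, nat_lit 4896, nat_lit 13296, nat_lit 13152, nat_lit 7104, R10_277, R13_274, R7_148⟩, ⟨nat_lit 5, nat_lit 5904, nat_lit 5520, nat_lit 13824, nat_lit 9888, nat_lit 5328, R10_288, R3_206, R2_111⟩, ⟨nat_lit 6, nat_lit 7200, nat_lit 6624, nat_lit 13728, nat_lit 10464, nat_lit 7296, R10_286, R9_218, R2_152⟩]⟩]⟩]], [[], [⟨nat_lit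 7, [⟨nat_lit 5, [⟨nat_lit 4, nat_lit 480, nat_lit 11376, nat_lit 13392, nat_lit 3264, nat_lit 7440, R10_279, R9_68, R7_155⟩, ⟨nat_lit 5, nat_lit 6192, nat_lit 11424, nat_lit 13920, nat_lit 1728, nat_lit 5664, R10_290, R0_36, R2_118⟩]⟩]⟩]], [], [[], [⟨nat_lit 3, [⟨nat_lit 5, [⟨nat_lit 4, nat_lit 576, nat_lit 17568, nat_lit 12432, nat_lit 2928, nat_lit 7200, R1_259, R2_61, R7_150⟩, ⟨nat_lit 5, nat_lit 6288, nat_lit 17664, nat_lit 12528, nat_lit 2400, nat_lit 5424, R1_261, R1_50, R2_113⟩]⟩]⟩,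
 ⟨nat_lit 7, [⟨nat_lit 5, [⟨nat_lit 4, nat_lit 624, nat_lit 17520, nat_lit 13344, nat_lit 10752, nat_lit 7152, R10_278, R3_224, R7_149⟩, ⟨nat_lit 5, nat_lit 6336, nat_lit 17616, nat_lit 13872, nat_lit 2352, nat_lit 5376, R10_289, R10_49, R2_112⟩, ⟨nat_lit 6, nat_lit 7392, nat_lit 17712, nat_lit 13776, nat_lit 5472, nat_lit 7344, R10_287, R0_114, R2_153⟩]⟩]⟩], [], [], [], [⟨nat_lit 3, [⟨nat_lit 4, [⟨nat_lit 4, nat_lit 1728, nat_lit 13296, nat_lit 12096, nat_lit 672, nat_lit 7392, R2_252, R2_14, R6_154⟩]⟩, ⟨nat_lit 5, [⟨nat_lit 4, nat_lit 2256, nat_lit 15264, nat_lit 12672, nat_lit 864, nat_lit 8112, R1_264, R2_18, R4_169⟩]⟩, ⟨nat_lit 7, [⟨nat_lit 4, nat_lit 2784, nat_lit 14256, nat_lit 13824, nat_lit 768, nat_lit 6192, R12_288, R2_16, R8_129⟩, ⟨nat_lit 7, nat_lit 11520, nat_lit 14640, nat_lit 13872, nat_lit 10128,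 nat_lit 15744, R12_289, R12_211, R5_328⟩]⟩]⟩,
 ⟨nat_lit 7, [⟨nat_lit 4, [⟨nat_lit 4, nat_lit 1872, nat_lit 2832, nat_lit 3120, nat_lit 2112, nat_lit 7968, R3_65, R3_44, R6_166⟩, ⟨nat_lit 6, nat_lit 8736, nat_lit 3120, nat_lit 9024, nat_lit 6432, nat_lit 17424, R3_188, R0_134, R13_363⟩]⟩, ⟨nat_lit 5, [⟨nat_lit 4, nat_lit 2352, nat_lit 3504, nat_lit 14016, nat_lit 9792, nat_lit 8400, R10_292, R3_204, R4_175⟩, ⟨nat_lit 6, nat_lit 9984, nat_lit 3696, nat_lit 14208, nat_lit 6864, nat_lit 12960, R10_296, R0_143, R3_270⟩]⟩, ⟨nat_lit 6, [⟨nat_lit 6, nat_lit 9648, nat_lit 5328, nat_lit 3792, nat_lit 6576, nat_lit 8448, R0_79, R0_137, R3_176⟩]⟩]⟩]]]]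
noncomputable def N2675 : T3 (List N0) := [[[[⟨nat_lit 0, [⟨nat_lit 1, [⟨nat_lit 4, nat_lit 0, nat_lit 1536, nat_lit 3120, nat_lit 4032, nat_lit 3360, R7_65, R6_84, R4_70⟩, ⟨nat_lit 5, nat_lit 720, nat_lit 1920, nat_lit 3312, nat_lit 1824, nat_lit 11664, R7_69, R8_38, R3_243⟩]⟩, ⟨nat_lit 5, [⟨nat_lit 4, nat_lit 96, nat_lit 3600, nat_lit 3360, nat_lit 3216, nat_lit 3120, R4_70, R6_67, R7_65⟩, ⟨nat_lit 5, nat_lit 912, nat_lit 3744, nat_lit 3408, nat_lit 1872, nat_lit 1440, R4_71, R8_39, R2_30⟩]⟩]⟩,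
 ⟨nat_lit 1, [⟨nat_lit 1, [⟨nat_lit 4, nat_lit 6720, nat_lit 7632, nat_lit 1440, nat_lit 1872, nat_lit 3408, R2_30, R8_39, R4_71⟩, ⟨nat_lit 5, nat_lit 8064, nat_lit 8064, nat_lit 1632, nat_lit 1008, nat_lit 11808, R2_34, R9_21, R3_246⟩]⟩, ⟨nat_lit 5, [⟨nat_lit 4, nat_lit 6864, nat_lit 9120, nat_lit 11664, nat_lit 1824, nat_lit 3312, R3_243, R8_38, R7_69⟩, ⟨nat_lit 5, nat_lit 8352, nat_lit 9312, nat_lit 11808, nat_lit 1056, nat_lit 1632, R3_246, R9_22, R2_34⟩]⟩]⟩], [⟨nat_lit 0, [⟨nat_lit 5, [⟨nat_lit 4, nat_lit 144, nat_lit 3552, nat_lit 3648, nat_lit 3360, nat_lit 8208, R4_76, R6_70, R14_171⟩, ⟨nat_lit 5, nat_lit 1008, nat_lit 3888, nat_lit 3888, nat_lit 3072, nat_lit 6816, R4_81, R8_64, R12_142⟩, ⟨nat_lit 6, nat_lit 576, nat_lit 3984, nat_lit 3744, nat_lit 3120, nat_lit 2976, R4_78, R4_65, R12_62⟩]⟩]⟩,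
 ⟨nat_lit 1, [⟨nat_lit 5, [⟨nat_lit 4, nat_lit 6912, nat_lit 9840, nat_lit 13968, nat_lit 9792, nat_lit 8784, R3_291, R8_204, R14_183⟩, ⟨nat_lit 5, nat_lit 8448, nat_lit 10224, nat_lit 14160, nat_lit 1776, nat_lit 7392, R3_295, R9_37, R12_154⟩, ⟨nat_lit 6, nat_lit 7776, nat_lit 10320, nat_lit 14016, nat_lit 864, nat_lit 4416, R3_292, R5_18, R12_92⟩]⟩]⟩], [⟨nat_lit 0, [⟨nat_lit 1, [⟨nat_lit 5, nat_lit 768, nat_lit 2064, nat_lit 4176, nat_lit 2688, nat_lit 16512, R7_87, R8_56, R10_344⟩]⟩, ⟨nat_lit 5, [⟨nat_lit 5, nat_lit 960, nat_lit 1968, nat_lit 4128, nat_lit 2736, nat_lit 912, R4_86, R8_57, R1_19⟩]⟩]⟩,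
 ⟨nat_lit 1, [⟨nat_lit 1, [⟨nat_lit 5, nat_lit 8112, nat_lit 6576, nat_lit 2592, nat_lit 1440, nat_lit 16704, R2_54, R9_30, R10_348⟩]⟩, ⟨nat_lit 5, [⟨nat_lit 5, nat_lit 8400, nat_lit 6480, nat_lit 16944, nat_lit 1488, nat_lit 1104, R3_353, R9_31, R1_23⟩]⟩]⟩]], [], [[], [], [⟨nat_lit 0, [⟨nat_lit 1, [⟨nat_lit 5, nat_lit 1056, nat_lit 15120, nat_lit 12624, nat_lit 13728, nat_lit 16560, R7_263, R5_286, R10_345⟩]⟩, ⟨nat_lit 5, [⟨nat_lit 5, nat_lit 1152, nat_lit 16032, nat_lit 11760, nat_lit 12720, nat_lit 6336, R4_245, R5_265, R1_132⟩]⟩]⟩,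
 ⟨nat_lit 1, [⟨nat_lit 1, [⟨nat_lit 5, nat_lit 8880, nat_lit 15696, nat_lit 11328, nat_lit 4320, nat_lit 16752, R2_236, R0_90, R10_349⟩]⟩, ⟨nat_lit 5, [⟨nat_lit 5, nat_lit 9024, nat_lit 16176, nat_lit 17280, nat_lit 4272, nat_lit 6528, R3_360, R0_89, R1_136⟩]⟩]⟩]], [[⟨nat_lit 0, [⟨nat_lit 1, [⟨nat_lit 4, nat_lit 192, nat_lit 16656, nat_lit 9312, nat_lit 14448, nat_lit 9360, R7_194, R13_301, R4_195⟩, ⟨nat_lit 5, nat_lit 1200, nat_lit 16704, nat_lit 9504, nat_lit 12192, nat_lit 12000, R7_198, R9_254, R3_250⟩]⟩, ⟨nat_lit 5, [⟨nat_lit 4, nat_lit 384, nat_lit 18480, nat_lit 9360, nat_lit 13056, nat_lit 9312, R4_195, R13_272, R7_194⟩, ⟨nat_lit 5, nat_lit 1488, nat_lit 18576, nat_lit 9456, nat_lit 10320, nat_lit 8496, R4_197, R9_215, R2_177⟩, ⟨nat_lit 7, nat_lit 2448, nat_lit 18528, nat_lit 9408, nat_lit 2784, nat_lit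 3408, R4_196, R3_58, R2_71⟩]⟩]⟩,
 ⟨nat_lit 1, [⟨nat_lit 1, [⟨nat_lit 4, nat_lit 7200, nat_lit 17376, nat_lit 8496, nat_lit 10320, nat_lit 9456, R2_177, R9_215, R4_197⟩]⟩, ⟨nat_lit 5, [⟨nat_lit 4, nat_lit 7488, nat_lit 18960, nat_lit 12000, nat_lit 12192, nat_lit 9504, R3_250, R9_254, R7_198⟩, ⟨nat_lit 7, nat_lit 9264, nat_lit 19008, nat_lit 12144, nat_lit 1392, nat_lit 3696, R3_253, R0_29, R2_77⟩]⟩]⟩,
 ⟨nat_lit 3, [⟨nat_lit 1, [⟨nat_lit 4, nat_lit 10224, nat_lit 17952, nat_lit 3408, nat_lit 2784, nat_lit 9408, R2_71, R3_58, R4_196⟩, ⟨nat_lit 5, nat_lit 10944, nat_lit 18000, nat_lit 3696, nat_lit 1392, nat_lit 12144, R2_77, R0_29, R3_253⟩]⟩]⟩], [⟨nat_lit 0, [⟨nat_lit 5, [⟨nat_lit 4, nat_lit 432, nat_lit 14064, nat_lit 9936, nat_lit 13104, nat_lit 9360, R4_207, R13_273, R14_195⟩, ⟨nat_lit 5, nat_lit 1584, nat_lit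 14160, nat_lit 10224, nat_lit 10416, nat_lit 8256, R4_213, R9_217, R12_172⟩, ⟨nat_lit 6, nat_lit 624, nat_lit 14208, nat_lit 10080, nat_lit 9840, nat_lit 3504, R4_210, R3_205, R12_73⟩, ⟨nat_lit 7, nat_lit 2496, nat_lit 14112, nat_lit 9984, nat_lit 2880, nat_lit 3120, R4_208, R3_60, R12_65⟩]⟩]⟩,
 ⟨nat_lit 1, [⟨nat_lit 5, [⟨nat_lit 4, nat_lit 7536, nat_lit 14928, nat_lit 14688, nat_lit 12960, nat_lit 10464, R3_306, R9_270, R14_218⟩, ⟨nat_lit 6, nat_lit 7920, nat_lit 15024, nat_lit 14880, nat_lit 11136, nat_lit 5088, R3_310, R0_232, R12_106⟩, ⟨nat_lit 7, nat_lit 9312, nat_lit 14976, nat_lit 14832, nat_lit 10752, nat_lit 4704, R3_309, R0_224, R12_98⟩]⟩]⟩], [⟨nat_lit 0, [⟨nat_lit 1, [⟨nat_lit 5, nat_lit 1248, nat_lit 14256, nat_lit 11184, nat_lit 12288, nat_lit 16608, R7_233, R9_256, R10_346⟩]⟩, ⟨nat_lit 5, [⟨nat_lit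 5, nat_lit 1536, nat_lit 15168, nat_lit 10464, nat_lit 10368, nat_lit 9312, R4_218, R9_216, R1_194⟩]⟩]⟩,
 ⟨nat_lit 3, [⟨nat_lit 1, [⟨nat_lit 5, nat_lit 10992, nat_lit 14928, nat_lit 6672, nat_lit 1632, nat_lit 16656, R2_139, R0_34, R10_347⟩]⟩]⟩], [⟨nat_lit 0, [⟨nat_lit 1, [⟨nat_lit 4, nat_lit 240, nat_lit 1344, nat_lit 10080, nat_lit 14496, nat_lit 4848, R7_210, R13_302, R5_101⟩, ⟨nat_lit 5, nat_lit 1296, nat_lit 1968, nat_lit 10416, nat_lit 12240, nat_lit 13056, R7_217, R9_255, R0_272⟩, ⟨nat_lit 7, nat_lit 2352, nat_lit 1584, nat_lit 10224, nat_lit 3504, nat_lit 19584, R7_213, R3_73, R11_408⟩]⟩, ⟨nat_lit 5, [⟨nat_lit 7, nat_lit 2544, nat_lit 3216, nat_lit 9600, nat_lit 2832, nat_lit 2880, R4_200, R3_59, R1_60⟩]⟩]⟩,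
 ⟨nat_lit 1, [⟨nat_lit 1, [⟨nat_lit 4, nat_lit 7248, nat_lit 7824, nat_lit 9264, nat_lit 10656, nat_lit 6576, R2_193, R9_222, R5_137⟩]⟩]⟩,
 ⟨nat_lit 3, [⟨nat_lit 1, [⟨nat_lit 4, nat_lit 10272, nat_lit 6528, nat_lit 4272, nat_lit 7536, nat_lit 5424, R2_89, R3_157, R5_113⟩, ⟨nat_lit 5, nat_lit 11040, nat_lit 6912, nat_lit 4560, nat_lit 1488, nat_lit 13104, R2_95, R0_31, R0_273⟩]⟩]⟩]], [], [], [], [[], [], [], [⟨nat_lit 0, [⟨nat_lit 1, [⟨nat_lit 7, nat_lit 1872, nat_lit 12672, nat_lit 15360, nat_lit 11664, nat_lit 19632, R7_320, R2_243, R11_409⟩]⟩, ⟨nat_lit 5, [⟨nat_lit 7, nat_lit 2160, nat_lit 13824, nat_lit 14016, nat_lit 10320, nat_lit 13344, R4_292, R2_215, R1_278⟩]⟩]⟩,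
 ⟨nat_lit 3, [⟨nat_lit 1, [⟨nat_lit 4, nat_lit 9648, nat_lit 13440, nat_lit 12960, nat_lit 10368, nat_lit 15840, R2_270, R2_216, R5_330⟩, ⟨nat_lit 7, nat_lit 11520, nat_lit 13488, nat_lit 13344, nat_lit 12144, nat_lit 19680, R2_278, R12_253, R11_410⟩]⟩]⟩]]], [[[⟨nat_lit 1, [⟨nat_lit 1, [⟨nat_lit 4, nat_lit 6768, nat_lit 1968, nat_lit 912, nat_lit 2736, nat_lit 4128, R1_19, R8_57, R4_86⟩, ⟨nat_lit 5, nat_lit 8160, nat_lit 6480, nat_lit 1104, nat_lit 6432, nat_lit 16944, R1_23, R9_134, R3_353⟩]⟩, ⟨nat_lit 5, [⟨nat_lit 4, nat_lit 6960, nat_lit 2064, nat_lit 1152, nat_lit 2688, nat_lit 4176, R10_24, R8_56, R7_87⟩, ⟨nat_lit 5, nat_lit 8496, nat_lit 6576, nat_lit 1200, nat_lit 6480, nat_lit 2592, R10_25, R9_135, R2_54⟩]⟩]⟩], [⟨nat_lit 1, [⟨nat_lit 5, [⟨nat_lit 4, nat_lit 7008, nat_lit 6144, nat_lit 1632, nat_lit 10368,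 nat_lit 8832, R10_34, R8_216, R14_184⟩, ⟨nat_lit 5, nat_lit 8592, nat_lit 6672, nat_lit 1872, nat_lit 7680, nat_lit 7440, R10_39, R9_160, R12_155⟩, ⟨nat_lit 6, nat_lit 7824, nat_lit 7056, nat_lit 1728, nat_lit 7824, nat_lit 4464, R10_36, R5_163, R12_93⟩]⟩]⟩], [⟨nat_lit 1, [⟨nat_lit 1, [⟨nat_lit 5, nat_lit 8208, nat_lit 6672, nat_lit 2064, nat_lit 7296, nat_lit 17280, R1_43, R9_152, R10_360⟩]⟩, ⟨nat_lit 5, [⟨nat_lit 5, nat_lit 8544, nat_lit 6576, nat_lit 2160, nat_lit 7344, nat_lit 2064, R10_45, R9_153, R1_43⟩]⟩]⟩]], [[⟨nat_lit 1, [⟨nat_lit 1, [⟨nat_lit 4, nat_lit 7056, nat_lit 16032, nat_lit 6336, nat_lit 12720, nat_lit 11760, R1_132, R5_265, R4_245⟩, ⟨nat_lit 5, nat_lit 8640, nat_lit 16176, nat_lit 6528, nat_lit 4272, nat_lit 17280, R1_136, R0_89, R3_360⟩]⟩, ⟨nat_lit 5, [⟨nat_lit 4, nat_lit 7104, nat_lit 15120,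 nat_lit 7440, nat_lit 13728, nat_lit 12624, R10_155, R5_286, R7_263⟩, ⟨nat_lit 5, nat_lit 8736, nat_lit 15696, nat_lit 7488, nat_lit 4320, nat_lit 11328, R10_156, R0_90, R2_236⟩]⟩]⟩], [⟨nat_lit 1, [⟨nat_lit 5, [⟨nat_lit 4, nat_lit 7152, nat_lit 19440, nat_lit 7824, nat_lit 14256, nat_lit 11088, R10_163, R5_297, R14_231⟩, ⟨nat_lit 5, nat_lit 8832, nat_lit 20016, nat_lit 8064, nat_lit 5520, nat_lit 9216, R10_168, R0_115, R12_192⟩, ⟨nat_lit 6, nat_lit 7872, nat_lit 20592, nat_lit 7920, nat_lit 7440, nat_lit 5760, R10_165, R11_155, R12_120⟩]⟩]⟩,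
 ⟨nat_lit 5, [⟨nat_lit 5, [⟨nat_lit 6, nat_lit 15312, nat_lit 20640, nat_lit 14112, nat_lit 12288, nat_lit 6480, R1_294, R1_256, R12_135⟩]⟩]⟩], [⟨nat_lit 1, [⟨nat_lit 1, [⟨nat_lit 5, nat_lit 8688, nat_lit 4512, nat_lit 7440, nat_lit 5136, nat_lit 17376, R1_155, R0_107, R10_362⟩]⟩, ⟨nat_lit 5, [⟨nat_lit 5, nat_lit 8784, nat_lit 4416, nat_lit 8304, nat_lit 5184, nat_lit 11904, R10_173, R0_108, R1_248⟩]⟩]⟩]], [[], [], [⟨nat_lit 1, [⟨nat_lit 1, [⟨nat_lit 5, nat_lit 8928, nat_lit 4416, nat_lit 11904, nat_lit 5184, nat_lit 17328, R1_248, R0_108, R10_361⟩]⟩, ⟨nat_lit 5, [⟨nat_lit 5, nat_lit 9072, nat_lit 4512, nat_lit 12864, nat_lit 5136, nat_lit 7440, R10_268, R0_107, R1_155⟩]⟩]⟩]], [[⟨nat_lit 1, [⟨nat_lit 1, [⟨nat_lit 4, nat_lit 7296, nat_lit 15168, nat_lit 9312, nat_lit 10368, nat_lit 10464, R1_194, R9_216, R4_218⟩]⟩,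 ⟨nat_lit 5, [⟨nat_lit 4, nat_lit 7584, nat_lit 14256, nat_lit 10704, nat_lit 12288, nat_lit 11184, R10_223, R9_256, R7_233⟩, ⟨nat_lit 7, nat_lit 9408, nat_lit 14928, nat_lit 10752, nat_lit 1632, nat_lit 6672, R10_224, R0_34, R2_139⟩]⟩]⟩], [⟨nat_lit 1, [⟨nat_lit 5, [⟨nat_lit 4, nat_lit 7632, nat_lit 12960, nat_lit 11424, nat_lit 13056, nat_lit 10560, R10_238, R9_272, R14_220⟩, ⟨nat_lit 6, nat_lit 7968, nat_lit 13824, nat_lit 11568, nat_lit 11232, nat_lit 5184, R10_241, R0_234, R12_108⟩, ⟨nat_lit 7, nat_lit 9456, nat_lit 13632, nat_lit 11472, nat_lit 11088, nat_lit 5328, R10_239, R0_231, R12_111⟩]⟩]⟩]]], [[[⟨nat_lit 0, [⟨nat_lit 1, [⟨nat_lit 4, nat_lit 48, nat_lit 3552, nat_lit 8208, nat_lit 11520, nat_lit 3648, R14_171, R6_240, R4_76⟩, ⟨nat_lit 5, nat_lit 816, nat_lit 9840, nat_lit 8784, nat_lit 9792, nat_lit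 13968, R14_183, R8_204, R3_291⟩]⟩]⟩,
 ⟨nat_lit 1, [⟨nat_lit 1, [⟨nat_lit 4, nat_lit 6816, nat_lit 3888, nat_lit 6816, nat_lit 3072, nat_lit 3888, R12_142, R8_64, R4_81⟩, ⟨nat_lit 5, nat_lit 8256, nat_lit 10224, nat_lit 7392, nat_lit 10416, nat_lit 14160, R12_154, R9_217, R3_295⟩]⟩]⟩,
 ⟨nat_lit 2, [⟨nat_lit 1, [⟨nat_lit 4, nat_lit 5904, nat_lit 3984, nat_lit 2976, nat_lit 3120, nat_lit 3744, R12_62, R4_65, R4_78⟩, ⟨nat_lit 5, nat_lit 6048, nat_lit 10320, nat_lit 4416, nat_lit 864, nat_lit 14016, R12_92, R5_18, R3_292⟩]⟩]⟩], [], [⟨nat_lit 0, [⟨nat_lit 1, [⟨nat_lit 5, nat_lit 864, nat_lit 6144, nat_lit 8832, nat_lit 10368, nat_lit 16800, R14_184, R8_216, R10_350⟩]⟩]⟩,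
 ⟨nat_lit 1, [⟨nat_lit 1, [⟨nat_lit 5, nat_lit 8304, nat_lit 6672, nat_lit 7440, nat_lit 10752, nat_lit 17136, R12_155, R9_224, R10_357⟩]⟩]⟩,
 ⟨nat_lit 2, [⟨nat_lit 1, [⟨nat_lit 5, nat_lit 6096, nat_lit 7056, nat_lit 4464, nat_lit 7824, nat_lit 16944, R12_93, R5_163, R10_353⟩]⟩]⟩]], [], [[], [], [⟨nat_lit 0, [⟨nat_lit 1, [⟨nat_lit 5, nat_lit 1104, nat_lit 19440, nat_lit 11088, nat_lit 14256, nat_lit 16848, R14_231, R5_297, R10_351⟩]⟩]⟩,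
 ⟨nat_lit 1, [⟨nat_lit 1, [⟨nat_lit 5, nat_lit 8976, nat_lit 20016, nat_lit 9216, nat_lit 5520, nat_lit 17184, R12_192, R0_115, R10_358⟩]⟩]⟩,
 ⟨nat_lit 2, [⟨nat_lit 1, [⟨nat_lit 1, nat_lit 3936, nat_lit 20640, nat_lit 6480, nat_lit 12288, nat_lit 14112, R12_135, R1_256, R1_294⟩, ⟨nat_lit 5, nat_lit 6144, nat_lit 20592, nat_lit 5760, nat_lit 17328, nat_lit 16992, R12_120, R11_361, R10_354⟩]⟩]⟩], [], [], [], [⟨nat_lit 2, [⟨nat_lit 0, [⟨nat_lit 1, nat_lit 3840, nat_lit 15072, nat_lit 11184, nat_lit 12144, nat_lit 15600, R2_233, R1_253, R5_325⟩]⟩, ⟨nat_lit 1, [⟨nat_lit 1, nat_lit 3984, nat_lit 15120, nat_lit 6432, nat_lit 12240, nat_lit 19920, R12_134, R1_255, R11_415⟩]⟩, ⟨nat_lit 2, [⟨nat_lit 1, nat_lit 3888, nat_lit 15168, nat_lit 11760, nat_lit 12192, nat_lit 13920, R1_245, R1_254, R0_290⟩]⟩]⟩]], [[⟨nat_lit 0,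 [⟨nat_lit 1, [⟨nat_lit 4, nat_lit 288, nat_lit 14064, nat_lit 9360, nat_lit 15024, nat_lit 9936, R14_195, R13_313, R4_207⟩, ⟨nat_lit 5, nat_lit 1344, nat_lit 14928, nat_lit 10464, nat_lit 12960, nat_lit 14688, R14_218, R9_270, R3_306⟩]⟩]⟩,
 ⟨nat_lit 1, [⟨nat_lit 1, [⟨nat_lit 4, nat_lit 7392, nat_lit 14160, nat_lit 8256, nat_lit 10416, nat_lit 10224, R12_172, R9_217, R4_213⟩]⟩]⟩,
 ⟨nat_lit 2, [⟨nat_lit 1, [⟨nat_lit 4, nat_lit 5952, nat_lit 14208, nat_lit 3504, nat_lit 9840, nat_lit 10080, R12_73, R3_205, R4_210⟩, ⟨nat_lit 5, nat_lit 6192, nat_lit 15024, nat_lit 5088, nat_lit 11136, nat_lit 14880, R12_106, R0_232, R3_310⟩]⟩]⟩,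
 ⟨nat_lit 3, [⟨nat_lit 1, [⟨nat_lit 4, nat_lit 10320, nat_lit 14112, nat_lit 3120, nat_lit 2880, nat_lit 9984, R12_65, R3_60, R4_208⟩, ⟨nat_lit 5, nat_lit 11088, nat_lit 14976, nat_lit 4704, nat_lit 10752, nat_lit 14832, R12_98, R0_224, R3_309⟩]⟩]⟩], [], [⟨nat_lit 0, [⟨nat_lit 1, [⟨nat_lit 5, nat_lit 1392, nat_lit 12960, nat_lit 10560, nat_lit 13056, nat_lit 16896, R14_220, R9_272, R10_352⟩]⟩]⟩,
 ⟨nat_lit 2, [⟨nat_lit 1, [⟨nat_lit 5, nat_lit 6240, nat_lit 13824, nat_lit 5184, nat_lit 11232, nat_lit 17040, R12_108, R0_234, R10_355⟩]⟩]⟩,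
 ⟨nat_lit 3, [⟨nat_lit 1, [⟨nat_lit 5, nat_lit 11136, nat_lit 13632, nat_lit 5328, nat_lit 11088, nat_lit 17088, R12_111, R0_231, R10_356⟩]⟩]⟩], [⟨nat_lit 0, [⟨nat_lit 1, [⟨nat_lit 4, nat_lit 336, nat_lit 16176, nat_lit 9408, nat_lit 15072, nat_lit 4944, R14_196, R13_314, R5_103⟩, ⟨nat_lit 5, nat_lit 1440, nat_lit 16272, nat_lit 10512, nat_lit 13008, nat_lit 13152, R14_219, R9_271, R0_274⟩, ⟨nat_lit 7, nat_lit 2400, nat_lit 16224, nat_lit 10080, nat_lit 10992, nat_lit 19776, R14_210, R3_229, R11_412⟩]⟩]⟩,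
 ⟨nat_lit 1, [⟨nat_lit 1, [⟨nat_lit 4, nat_lit 7440, nat_lit 17136, nat_lit 8304, nat_lit 10752, nat_lit 6672, R12_173, R9_224, R5_139⟩]⟩]⟩,
 ⟨nat_lit 2, [⟨nat_lit 1, [⟨nat_lit 4, nat_lit 6000, nat_lit 18192, nat_lit 3552, nat_lit 10224, nat_lit 5616, R12_74, R3_213, R5_117⟩, ⟨nat_lit 5, nat_lit 6288, nat_lit 18288, nat_lit 5136, nat_lit 11184, nat_lit 13200, R12_107, R0_233, R0_275⟩, ⟨nat_lit 7, nat_lit 6672, nat_lit 18240, nat_lit 3792, nat_lit 13104, nat_lit 19872, R12_79, R10_273, R11_414⟩]⟩]⟩,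
 ⟨nat_lit 3, [⟨nat_lit 1, [⟨nat_lit 4, nat_lit 10368, nat_lit 17808, nat_lit 3360, nat_lit 7584, nat_lit 5472, R12_70, R3_158, R5_114⟩, ⟨nat_lit 5, nat_lit 11184, nat_lit 17856, nat_lit 4944, nat_lit 10944, nat_lit 13248, R12_103, R0_228, R0_276⟩]⟩]⟩]], [[], [], [], [], [⟨nat_lit 2, [⟨nat_lit 0, [⟨nat_lit 0, nat_lit 2784, nat_lit 3456, nat_lit 1296, nat_lit 2352, nat_lit 3696, R2_27, R4_49, R6_77⟩, ⟨nat_lit 3, nat_lit 4128, nat_lit 9504, nat_lit 8352, nat_lit 480, nat_lit 18432, R2_174, R5_10, R13_384⟩]⟩, ⟨nat_lit 1, [⟨nat_lit 0, nat_lit 2976, nat_lit 3984, nat_lit 5904, nat_lit 3120, nat_lit 3744, R12_123, R4_65, R4_78⟩, ⟨nat_lit 3, nat_lit 4416, nat_lit 10320, nat_lit 6048, nat_lit 864, nat_lit 14016, R12_126, R5_18, R3_292⟩]⟩, ⟨nat_lit 2, [⟨nat_lit 0, nat_lit 2928, nat_lit 4176, nat_lit 768, nat_lit 2736,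 nat_lit 624, R1_16, R4_57, R8_13⟩, ⟨nat_lit 3, nat_lit 4320, nat_lit 10512, nat_lit 9168, nat_lit 672, nat_lit 15120, R1_191, R5_14, R9_315⟩]⟩]⟩], [], [], [⟨nat_lit 2, [⟨nat_lit 0, [⟨nat_lit 3, nat_lit 4176, nat_lit 6960, nat_lit 9072, nat_lit 7440, nat_lit 7728, R2_189, R5_155, R3_161⟩]⟩, ⟨nat_lit 1, [⟨nat_lit 3, nat_lit 4464, nat_lit 7056, nat_lit 6096, nat_lit 7824, nat_lit 16944, R12_127, R5_163, R10_353⟩]⟩, ⟨nat_lit 2, [⟨nat_lit 3, nat_lit 4368, nat_lit 7248, nat_lit 9888, nat_lit 7632, nat_lit 864, R1_206, R5_159, R0_18⟩]⟩]⟩]], [], [[], [], [], [], [⟨nat_lit 2, [⟨nat_lit 0, [⟨nat_lit 0, nat_lit 3168, nat_lit 11856, nat_lit 1344, nat_lit 2160, nat_lit 9264, R2_28, R3_45, R6_193⟩, ⟨nat_lit 3, nat_lit 4752, nat_lit 12288, nat_lit 8400, nat_lit 10512, nat_lit 18912, R2_175, R0_219, R13_394⟩]⟩, ⟨nat_lit 1,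 [⟨nat_lit 0, nat_lit 3504, nat_lit 14208, nat_lit 5952, nat_lit 9840, nat_lit 10080, R12_124, R3_205, R4_210⟩, ⟨nat_lit 3, nat_lit 5088, nat_lit 15024, nat_lit 6192, nat_lit 11136, nat_lit 14880, R12_129, R0_232, R3_310⟩]⟩, ⟨nat_lit 2, [⟨nat_lit 0, nat_lit 3408, nat_lit 16992, nat_lit 816, nat_lit 7056, nat_lit 6000, R1_17, R3_147, R8_125⟩, ⟨nat_lit 3, nat_lit 4992, nat_lit 17136, nat_lit 9216, nat_lit 10800, nat_lit 15312, R1_192, R0_225, R9_319⟩]⟩]⟩], [], [⟨nat_lit 2, [⟨nat_lit 0, [⟨nat_lit 0, nat_lit 3216, nat_lit 18048, nat_lit 2496, nat_lit 2688, nat_lit 5808, R2_52, R3_56, R8_121⟩, ⟨nat_lit 1, nat_lit 3648, nat_lit 18096, nat_lit 11232, nat_lit 12912, nat_lit 15552, R2_234, R10_269, R5_324⟩, ⟨nat_lit 3, nat_lit 4800, nat_lit 18144, nat_lit 10128, nat_lit 10560, nat_lit 14496, R2_211, R0_220, R9_302⟩]⟩,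 ⟨nat_lit 1, [⟨nat_lit 0, nat_lit 3552, nat_lit 18192, nat_lit 6000, nat_lit 10224, nat_lit 5616, R12_125, R3_213, R5_117⟩, ⟨nat_lit 1, nat_lit 3792, nat_lit 18240, nat_lit 6672, nat_lit 13104, nat_lit 19872, R12_139, R10_273, R11_414⟩, ⟨nat_lit 3, nat_lit 5136, nat_lit 18288, nat_lit 6288, nat_lit 11184, nat_lit 13200, R12_131, R0_233, R0_275⟩]⟩, ⟨nat_lit 2, [⟨nat_lit 0, nat_lit 3456, nat_lit 18336, nat_lit 1968, nat_lit 7440, nat_lit 5232, R1_41, R3_155, R9_109⟩, ⟨nat_lit 1, nat_lit 3744, nat_lit 18384, nat_lit 11808, nat_lit 13008, nat_lit 3072, R1_246, R10_271, R0_64⟩]⟩]⟩], [⟨nat_lit 2, [⟨nat_lit 0, [⟨nat_lit 3, nat_lit 4848, nat_lit 13776, nat_lit 9168, nat_lit 10608, nat_lit 8304, R2_191, R0_221, R3_173⟩]⟩, ⟨nat_lit 1, [⟨nat_lit 3, nat_lit 5184, nat_lit 13824, nat_lit 6240, nat_lit 11232, nat_lit 17040,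 R12_130, R0_234, R10_355⟩]⟩, ⟨nat_lit 2, [⟨nat_lit 3, nat_lit 5040, nat_lit 13872, nat_lit 9984, nat_lit 10848, nat_lit 8976, R1_208, R0_226, R0_187⟩]⟩]⟩]], [[], [], [], [⟨nat_lit 0, [⟨nat_lit 1, [⟨nat_lit 7, nat_lit 1920, nat_lit 14016, nat_lit 8016, nat_lit 11808, nat_lit 19824, R14_167, R2_246, R11_413⟩]⟩]⟩,
 ⟨nat_lit 2, [⟨nat_lit 1, [⟨nat_lit 7, nat_lit 6432, nat_lit 15120, nat_lit 3984, nat_lit 12240, nat_lit 19920, R12_83, R1_255, R11_415⟩]⟩]⟩,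
 ⟨nat_lit 3, [⟨nat_lit 1, [⟨nat_lit 4, nat_lit 9696, nat_lit 14784, nat_lit 13776, nat_lit 10464, nat_lit 15936, R12_287, R2_218, R5_332⟩, ⟨nat_lit 7, nat_lit 11568, nat_lit 14832, nat_lit 14400, nat_lit 12288, nat_lit 19968, R12_300, R12_256, R11_416⟩]⟩]⟩], [], [], [], [⟨nat_lit 0, [⟨nat_lit 0, [⟨nat_lit 7, nat_lit 1824, nat_lit 20304, nat_lit 15264, nat_lit 10704, nat_lit 12624, R7_318, R2_223, R2_263⟩]⟩, ⟨nat_lit 1, [⟨nat_lit 7, nat_lit 1968, nat_lit 20496, nat_lit 8064, nat_lit 11856, nat_lit 13968, R14_168, R2_247, R1_291⟩]⟩]⟩,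
 ⟨nat_lit 2, [⟨nat_lit 0, [⟨nat_lit 3, nat_lit 5520, nat_lit 20400, nat_lit 9120, nat_lit 16848, nat_lit 8016, R2_190, R11_351, R3_167⟩, ⟨nat_lit 7, nat_lit 6384, nat_lit 20448, nat_lit 14352, nat_lit 11088, nat_lit 12768, R2_299, R1_231, R2_266⟩]⟩, ⟨nat_lit 1, [⟨nat_lit 3, nat_lit 5760, nat_lit 20592, nat_lit 6144, nat_lit 17328, nat_lit 16992, R12_128, R11_361, R10_354⟩, ⟨nat_lit 7, nat_lit 6480, nat_lit 20640, nat_lit 3936, nat_lit 12288, nat_lit 14112, R12_82, R1_256, R1_294⟩]⟩, ⟨nat_lit 2, [⟨nat_lit 3, nat_lit 5712, nat_lit 20736, nat_lit 9936, nat_lit 17040, nat_lit 6096, R1_207, R11_355, R0_127⟩]⟩]⟩,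
 ⟨nat_lit 3, [⟨nat_lit 0, [⟨nat_lit 7, nat_lit 11472, nat_lit 20352, nat_lit 13248, nat_lit 11904, nat_lit 13248, R2_276, R12_248, R2_276⟩]⟩, ⟨nat_lit 1, [⟨nat_lit 7, nat_lit 11616, nat_lit 20544, nat_lit 14448, nat_lit 12240, nat_lit 14592, R12_301, R12_255, R1_304⟩]⟩, ⟨nat_lit 3, [⟨nat_lit 7, nat_lit 11856, nat_lit 20688, nat_lit 14592, nat_lit 11952, nat_lit 14448, R1_304, R12_249, R12_301⟩]⟩]⟩]]], [[], [], [], [[⟨nat_lit 0, [⟨nat_lit 5, [⟨nat_lit 4, nat_lit 480, nat_lit 1344, nat_lit 4848, nat_lit 13344, nat_lit 10080, R5_101, R13_278, R7_210⟩, ⟨nat_lit 5, nat_lit 1632, nat_lit 7824, nat_lit 6576, nat_lit 10656, nat_lit 9264, R5_137, R9_222, R2_193⟩, ⟨nat_lit 7, nat_lit 2592, nat_lit 6528, nat_lit 5424, nat_lit 7536, nat_lit 4272, R5_113, R3_157, R2_89⟩]⟩]⟩,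
 ⟨nat_lit 1, [⟨nat_lit 5, [⟨nat_lit 4, nat_lit 7680, nat_lit 1968, nat_lit 13056, nat_lit 12240, nat_lit 10416, R0_272, R9_255, R7_217⟩, ⟨nat_lit 7, nat_lit 9552, nat_lit 6912, nat_lit 13104, nat_lit 1488, nat_lit 4560, R0_273, R0_31, R2_95⟩]⟩]⟩,
 ⟨nat_lit 3, [⟨nat_lit 1, [⟨nat_lit 4, nat_lit 10416, nat_lit 3216, nat_lit 2880, nat_lit 2832, nat_lit 9600, R1_60, R3_59, R4_200⟩, ⟨nat_lit 5, nat_lit 11232, nat_lit 9264, nat_lit 3168, nat_lit 6528, nat_lit 15600, R1_66, R0_136, R3_325⟩]⟩, ⟨nat_lit 5, [⟨nat_lit 4, nat_lit 10464, nat_lit 1584, nat_lit 19584, nat_lit 3504, nat_lit 10224, R11_408, R3_73, R7_213⟩, ⟨nat_lit 5, nat_lit 11328, nat_lit 8112, nat_lit 19728, nat_lit 5280, nat_lit 9408, R11_411, R0_110, R2_196⟩]⟩]⟩], [⟨nat_lit 0, [⟨nat_lit 5, [⟨nat_lit 4, nat_lit 528, nat_lit 16176, nat_lit 4944, nat_lit 13392,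 nat_lit 9408, R5_103, R13_279, R14_196⟩, ⟨nat_lit 5, nat_lit 1728, nat_lit 17136, nat_lit 6672, nat_lit 10752, nat_lit 8304, R5_139, R9_224, R12_173⟩, ⟨nat_lit 6, nat_lit 672, nat_lit 18192, nat_lit 5616, nat_lit 10224, nat_lit 3552, R5_117, R3_213, R12_74⟩, ⟨nat_lit 7, nat_lit 2640, nat_lit 17808, nat_lit 5472, nat_lit 7584, nat_lit 3360, R5_114, R3_158, R12_70⟩]⟩]⟩,
 ⟨nat_lit 1, [⟨nat_lit 5, [⟨nat_lit 4, nat_lit 7728, nat_lit 16272, nat_lit 13152, nat_lit 13008, nat_lit 10512, R0_274, R9_271, R14_219⟩, ⟨nat_lit 6, nat_lit 8016, nat_lit 18288, nat_lit 13200, nat_lit 11184, nat_lit 5136, R0_275, R0_233, R12_107⟩, ⟨nat_lit 7, nat_lit 9600, nat_lit 17856, nat_lit 13248, nat_lit 10944, nat_lit 4944, R0_276, R0_228, R12_103⟩]⟩]⟩,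
 ⟨nat_lit 3, [⟨nat_lit 5, [⟨nat_lit 4, nat_lit 10512, nat_lit 16224, nat_lit 19776, nat_lit 10992, nat_lit 10080, R11_412, R3_229, R14_210⟩, ⟨nat_lit 5, nat_lit 11424, nat_lit 17184, nat_lit 20016, nat_lit 5520, nat_lit 8976, R11_417, R0_115, R12_187⟩, ⟨nat_lit 6, nat_lit 10896, nat_lit 18240, nat_lit 19872, nat_lit 13104, nat_lit 3792, R11_414, R10_273, R12_79⟩]⟩]⟩], [⟨nat_lit 0, [⟨nat_lit 5, [⟨nat_lit 5, nat_lit 1680, nat_lit 912, nat_lit 6816, nat_lit 10704, nat_lit 10080, R5_142, R9_223, R1_210⟩]⟩]⟩,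
 ⟨nat_lit 3, [⟨nat_lit 1, [⟨nat_lit 5, nat_lit 11280, nat_lit 3840, nat_lit 5376, nat_lit 6672, nat_lit 17232, R1_112, R0_139, R10_359⟩]⟩, ⟨nat_lit 5, [⟨nat_lit 5, nat_lit 11376, nat_lit 6144, nat_lit 20112, nat_lit 5328, nat_lit 10224, R11_419, R0_111, R1_213⟩]⟩]⟩]], [], [], [], [[⟨nat_lit 0, [⟨nat_lit 5, [⟨nat_lit 7, nat_lit 2208, nat_lit 13440, nat_lit 15840, nat_lit 10368, nat_lit 12960, R5_330, R2_216, R2_270⟩]⟩]⟩,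
 ⟨nat_lit 3, [⟨nat_lit 1, [⟨nat_lit 4, nat_lit 9744, nat_lit 13824, nat_lit 13344, nat_lit 10320, nat_lit 14016, R1_278, R2_215, R4_292⟩]⟩, ⟨nat_lit 5, [⟨nat_lit 4, nat_lit 9984, nat_lit 12672, nat_lit 19632, nat_lit 11664, nat_lit 15360, R11_409, R2_243, R7_320⟩, ⟨nat_lit 7, nat_lit 12000, nat_lit 13488, nat_lit 19680, nat_lit 11712, nat_lit 13344, R11_410, R12_244, R2_278⟩]⟩]⟩], [⟨nat_lit 0, [⟨nat_lit 5, [⟨nat_lit 7, nat_lit 2256, nat_lit 14784, nat_lit 15936, nat_lit 10464, nat_lit 13776, R5_332, R2_218, R12_287⟩]⟩]⟩,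
 ⟨nat_lit 3, [⟨nat_lit 5, [⟨nat_lit 4, nat_lit 10032, nat_lit 14016, nat_lit 19824, nat_lit 11808, nat_lit 8016, R11_413, R2_246, R14_167⟩, ⟨nat_lit 6, nat_lit 10704, nat_lit 15120, nat_lit 19920, nat_lit 12240, nat_lit 3984, R11_415, R1_255, R12_83⟩, ⟨nat_lit 7, nat_lit 12048, nat_lit 14832, nat_lit 19968, nat_lit 11808, nat_lit 14400, R11_416, R12_246, R12_300⟩]⟩]⟩], [], [⟨nat_lit 0, [⟨nat_lit 5, [⟨nat_lit 7, nat_lit 2304, nat_lit 14592, nat_lit 15888, nat_lit 10416, nat_lit 14304, R5_331, R2_217, R1_298⟩]⟩]⟩,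
 ⟨nat_lit 3, [⟨nat_lit 1, [⟨nat_lit 4, nat_lit 9792, nat_lit 14496, nat_lit 14304, nat_lit 10416, nat_lit 15888, R1_298, R2_217, R5_331⟩, ⟨nat_lit 7, nat_lit 11664, nat_lit 14544, nat_lit 14688, nat_lit 12192, nat_lit 20064, R1_306, R12_254, R11_418⟩]⟩, ⟨nat_lit 5, [⟨nat_lit 7, nat_lit 12096, nat_lit 14640, nat_lit 20064, nat_lit 11760, nat_lit 14688, R11_418, R12_245, R1_306⟩]⟩]⟩]]], [[], [], [], [], [[], [⟨nat_lit 4, [⟨nat_lit 4, [⟨nat_lit 6, nat_lit 12672, nat_lit 3456, nat_lit 3696, nat_lit 2352, nat_lit 1296, R6_77, R4_49, R2_27⟩]⟩, ⟨nat_lit 5, [⟨nat_lit 6, nat_lit 12960, nat_lit 3984, nat_lit 3744, nat_lit 3120, nat_lit 5904, R4_78, R4_65, R12_123⟩]⟩, ⟨nat_lit 6, [⟨nat_lit 6, nat_lit 12816, nat_lit 4176, nat_lit 624, nat_lit 2736, nat_lit 768, R8_13, R4_57, R1_16⟩]⟩]⟩,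
 ⟨nat_lit 7, [⟨nat_lit 4, [⟨nat_lit 6, nat_lit 15504, nat_lit 9504, nat_lit 18432, nat_lit 480, nat_lit 8352, R13_384, R5_10, R2_174⟩]⟩, ⟨nat_lit 5, [⟨nat_lit 6, nat_lit 15888, nat_lit 10320, nat_lit 14016, nat_lit 864, nat_lit 6048, R3_292, R5_18, R12_126⟩]⟩, ⟨nat_lit 6, [⟨nat_lit 6, nat_lit 15696, nat_lit 10512, nat_lit 15120, nat_lit 672, nat_lit 9168, R9_315, R5_14, R1_191⟩]⟩]⟩], [], [], [], [⟨nat_lit 4, [⟨nat_lit 4, [⟨nat_lit 6, nat_lit 12720, nat_lit 3504, nat_lit 1776, nat_lit 2304, nat_lit 11616, R6_37, R4_48, R3_242⟩]⟩, ⟨nat_lit 6, [⟨nat_lit 2, nat_lit 12336, nat_lit 4320, nat_lit 1104, nat_lit 2688, nat_lit 14160, R8_23, R7_56, R1_295⟩, ⟨nat_lit 6, nat_lit 12864, nat_lit 4464, nat_lit 720, nat_lit 2688, nat_lit 17424, R8_15, R4_56, R10_363⟩]⟩]⟩,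
 ⟨nat_lit 6, [⟨nat_lit 6, [⟨nat_lit 2, nat_lit 14016, nat_lit 12768, nat_lit 15072, nat_lit 12912, nat_lit 14208, R5_314, R14_269, R1_296⟩]⟩]⟩,
 ⟨nat_lit 7, [⟨nat_lit 4, [⟨nat_lit 6, nat_lit 15552, nat_lit 9648, nat_lit 16608, nat_lit 2688, nat_lit 11952, R13_346, R5_56, R3_249⟩]⟩, ⟨nat_lit 6, [⟨nat_lit 6, nat_lit 15744, nat_lit 11328, nat_lit 14208, nat_lit 3072, nat_lit 17472, R9_296, R5_64, R10_364⟩]⟩, ⟨nat_lit 7, [⟨nat_lit 6, nat_lit 15984, nat_lit 10512, nat_lit 1824, nat_lit 2880, nat_lit 13296, R3_38, R5_60, R0_277⟩]⟩]⟩]], [[], [⟨nat_lit 4, [⟨nat_lit 4, [⟨nat_lit 6, nat_lit 13008, nat_lit 11856, nat_lit 9264, nat_lit 2160, nat_lit 1344, R6_193, R3_45, R2_28⟩]⟩, ⟨nat_lit 5, [⟨nat_lit 6, nat_lit 13488, nat_lit 14208, nat_lit 10080, nat_lit 9840, nat_lit 5952, R4_210, R3_205, R12_124⟩]⟩, ⟨nat_lit 6, [⟨nat_lit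 6, nat_lit 13248, nat_lit 16992, nat_lit 6000, nat_lit 7056, nat_lit 816, R8_125, R3_147, R1_17⟩]⟩]⟩,
 ⟨nat_lit 7, [⟨nat_lit 4, [⟨nat_lit 6, nat_lit 16080, nat_lit 12288, nat_lit 18912, nat_lit 10512, nat_lit 8400, R13_394, R0_219, R2_175⟩]⟩, ⟨nat_lit 5, [⟨nat_lit 6, nat_lit 16560, nat_lit 15024, nat_lit 14880, nat_lit 11136, nat_lit 6192, R3_310, R0_232, R12_129⟩]⟩, ⟨nat_lit 6, [⟨nat_lit 6, nat_lit 16368, nat_lit 17136, nat_lit 15312, nat_lit 10800, nat_lit 9216, R9_319, R0_225, R1_192⟩]⟩]⟩], [], [], [], [⟨nat_lit 4, [⟨nat_lit 4, [⟨nat_lit 6, nat_lit 13056, nat_lit 1824, nat_lit 7920, nat_lit 2208, nat_lit 11760, R6_165, R3_46, R3_245⟩]⟩, ⟨nat_lit 6, [⟨nat_lit 2, nat_lit 12432, nat_lit 2736, nat_lit 6240, nat_lit 816, nat_lit 14400, R8_130, R2_17, R1_300⟩, ⟨nat_lit 6, nat_lit 13296, nat_lit 2880, nat_lit 6096,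 nat_lit 7104, nat_lit 17568, R8_127, R3_148, R10_366⟩]⟩]⟩,
 ⟨nat_lit 6, [⟨nat_lit 6, [⟨nat_lit 2, nat_lit 14160, nat_lit 11472, nat_lit 15648, nat_lit 10176, nat_lit 14448, R5_326, R12_212, R1_301⟩]⟩]⟩,
 ⟨nat_lit 7, [⟨nat_lit 4, [⟨nat_lit 6, nat_lit 16128, nat_lit 8688, nat_lit 17328, nat_lit 10656, nat_lit 12240, R13_361, R0_222, R3_255⟩]⟩, ⟨nat_lit 6, [⟨nat_lit 6, nat_lit 16416, nat_lit 10224, nat_lit 14544, nat_lit 10896, nat_lit 17616, R9_303, R0_227, R10_367⟩]⟩, ⟨nat_lit 7, [⟨nat_lit 6, nat_lit 16704, nat_lit 9600, nat_lit 8400, nat_lit 10992, nat_lit 13440, R3_175, R0_229, R0_280⟩]⟩]⟩]], [], [[], [], [], [], [], [⟨nat_lit 3, [⟨nat_lit 7, [⟨nat_lit 4, nat_lit 10080, nat_lit 13104, nat_lit 13296, nat_lit 11424, nat_lit 15360, R2_277, R2_238, R5_320⟩, ⟨nat_lit 6, nat_lit 10752, nat_lit 13632, nat_lit 13392,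 nat_lit 12000, nat_lit 13392, R2_279, R1_250, R0_279⟩, ⟨nat_lit 7, nat_lit 12144, nat_lit 13488, nat_lit 13344, nat_lit 11520, nat_lit 20160, R2_278, R12_240, R11_420⟩]⟩]⟩,
 ⟨nat_lit 4, [⟨nat_lit 6, [⟨nat_lit 2, nat_lit 12576, nat_lit 768, nat_lit 7008, nat_lit 2784, nat_lit 14256, R8_146, R2_58, R1_297⟩]⟩]⟩,
 ⟨nat_lit 6, [⟨nat_lit 6, [⟨nat_lit 2, nat_lit 14592, nat_lit 10416, nat_lit 15888, nat_lit 2304, nat_lit 14304, R5_331, R12_48, R1_298⟩]⟩]⟩,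
 ⟨nat_lit 7, [⟨nat_lit 4, [⟨nat_lit 6, nat_lit 16848, nat_lit 3840, nat_lit 17904, nat_lit 2688, nat_lit 12096, R13_373, R11_56, R3_252⟩]⟩, ⟨nat_lit 6, [⟨nat_lit 2, nat_lit 15360, nat_lit 6912, nat_lit 14880, nat_lit 2256, nat_lit 14352, R9_310, R1_47, R1_299⟩, ⟨nat_lit 6, nat_lit 17040, nat_lit 6816, nat_lit 14832, nat_lit 3072, nat_lit 17520, R9_309, R11_64, R10_365⟩]⟩, ⟨nat_lit 7, [⟨nat_lit 6, nat_lit 17280, nat_lit 4656, nat_lit 6768, nat_lit 2880, nat_lit 13344, R3_141, R11_60, R0_278⟩]⟩]⟩]]], [[], [[], [⟨nat_lit 5, [⟨nat_lit 4, [⟨nat_lit 6, nat_lit 15168, nat_lit 15072, nat_lit 15600, nat_lit 12144, nat_lit 11184, R5_325, R1_253, R2_233⟩]⟩, ⟨nat_lit 5, [⟨nat_lit 6, nat_lit 15264, nat_lit 15120, nat_lit 19920, nat_lit 12240, nat_lit 6432, R11_415, R1_255, R12_134⟩]⟩, ⟨nat_lit 6, [⟨nat_lit 6, nat_lit 15216,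 nat_lit 15168, nat_lit 13920, nat_lit 12192, nat_lit 11760, R0_290, R1_254, R1_245⟩]⟩]⟩]], [], [], [], [[], [⟨nat_lit 4, [⟨nat_lit 4, [⟨nat_lit 6, nat_lit 13104, nat_lit 1248, nat_lit 5808, nat_lit 2688, nat_lit 2496, R8_121, R3_56, R2_52⟩]⟩, ⟨nat_lit 5, [⟨nat_lit 6, nat_lit 13536, nat_lit 1968, nat_lit 5616, nat_lit 10224, nat_lit 6000, R5_117, R3_213, R12_125⟩]⟩, ⟨nat_lit 6, [⟨nat_lit 6, nat_lit 13344, nat_lit 2208, nat_lit 5232, nat_lit 7440, nat_lit 1968, R9_109, R3_155, R1_41⟩]⟩]⟩,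
 ⟨nat_lit 5, [⟨nat_lit 4, [⟨nat_lit 6, nat_lit 14928, nat_lit 7536, nat_lit 15552, nat_lit 6144, nat_lit 11232, R5_324, R10_128, R2_234⟩]⟩, ⟨nat_lit 5, [⟨nat_lit 6, nat_lit 15120, nat_lit 8160, nat_lit 19872, nat_lit 6912, nat_lit 6672, R11_414, R10_144, R12_139⟩]⟩, ⟨nat_lit 6, [⟨nat_lit 6, nat_lit 15024, nat_lit 8352, nat_lit 3072, nat_lit 6528, nat_lit 11808, R0_64, R10_136, R1_246⟩]⟩]⟩,
 ⟨nat_lit 7, [⟨nat_lit 4, [⟨nat_lit 6, nat_lit 16176, nat_lit 10800, nat_lit 14496, nat_lit 10560, nat_lit 10128, R9_302, R0_220, R2_211⟩]⟩, ⟨nat_lit 5, [⟨nat_lit 6, nat_lit 16608, nat_lit 11712, nat_lit 13200, nat_lit 11184, nat_lit 6288, R0_275, R0_233, R12_131⟩]⟩]⟩], [], [], [], [⟨nat_lit 4, [⟨nat_lit 4, [⟨nat_lit 6, nat_lit 13152, nat_lit 1296, nat_lit 5760, nat_lit 2736, nat_lit 16896, R8_120, R3_57, R3_352⟩]⟩, ⟨nat_lit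 6, [⟨nat_lit 2, nat_lit 12480, nat_lit 2208, nat_lit 5712, nat_lit 6960, nat_lit 14928, R9_119, R2_145, R1_311⟩, ⟨nat_lit 6, nat_lit 13392, nat_lit 2352, nat_lit 5328, nat_lit 7488, nat_lit 17952, R9_111, R3_156, R10_374⟩]⟩]⟩,
 ⟨nat_lit 5, [⟨nat_lit 4, [⟨nat_lit 6, nat_lit 14976, nat_lit 6720, nat_lit 16128, nat_lit 6096, nat_lit 17232, R5_336, R10_127, R3_359⟩]⟩, ⟨nat_lit 6, [⟨nat_lit 2, nat_lit 14880, nat_lit 7584, nat_lit 3552, nat_lit 5664, nat_lit 15024, R0_74, R1_118, R1_313⟩, ⟨nat_lit 6, nat_lit 15072, nat_lit 7728, nat_lit 3168, nat_lit 6480, nat_lit 18000, R0_66, R10_135, R10_375⟩]⟩]⟩,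
 ⟨nat_lit 6, [⟨nat_lit 6, [⟨nat_lit 2, nat_lit 14208, nat_lit 12048, nat_lit 13680, nat_lit 10848, nat_lit 14976, R0_285, R12_226, R1_312⟩]⟩]⟩,
 ⟨nat_lit 7, [⟨nat_lit 4, [⟨nat_lit 6, nat_lit 16224, nat_lit 9504, nat_lit 15264, nat_lit 10704, nat_lit 17088, R9_318, R0_223, R3_356⟩]⟩, ⟨nat_lit 7, [⟨nat_lit 6, nat_lit 16752, nat_lit 10416, nat_lit 8928, nat_lit 11040, nat_lit 13728, R0_186, R0_230, R0_286⟩]⟩]⟩]]], [[], [], [], [], [[], [], [], [], [⟨nat_lit 2, [⟨nat_lit 0, [⟨nat_lit 0, nat_lit 2688, nat_lit 3504, nat_lit 11616, nat_lit 2304, nat_lit 1776, R3_242, R4_48, R6_37⟩, ⟨nat_lit 3, nat_lit 4032, nat_lit 9648, nat_lit 11952, nat_lit 2688, nat_lit 16608, R3_249, R5_56, R13_346⟩]⟩, ⟨nat_lit 2, [⟨nat_lit 0, nat_lit 2832, nat_lit 4464, nat_lit 17424, nat_lit 2688, nat_lit 720, R10_363, R4_56, R8_15⟩, ⟨nat_lit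 3, nat_lit 4224, nat_lit 11328, nat_lit 17472, nat_lit 3072, nat_lit 14208, R10_364, R5_64, R9_296⟩]⟩, ⟨nat_lit 3, [⟨nat_lit 3, nat_lit 4512, nat_lit 10512, nat_lit 13296, nat_lit 2880, nat_lit 1824, R0_277, R5_60, R3_38⟩]⟩]⟩,
 ⟨nat_lit 6, [⟨nat_lit 2, [⟨nat_lit 0, nat_lit 13584, nat_lit 4320, nat_lit 14160, nat_lit 2688, nat_lit 1104, R1_295, R7_56, R8_23⟩, ⟨nat_lit 2, nat_lit 13920, nat_lit 12768, nat_lit 14208, nat_lit 14352, nat_lit 15072, R1_296, R14_299, R5_314⟩]⟩]⟩], [⟨nat_lit 2, [⟨nat_lit 0, [⟨nat_lit 0, nat_lit 2736, nat_lit 11616, nat_lit 13920, nat_lit 11184, nat_lit 9744, R3_290, R4_233, R4_203⟩, ⟨nat_lit 3, nat_lit 4080, nat_lit 12000, nat_lit 14640, nat_lit 13920, nat_lit 14736, R3_305, R5_290, R3_307⟩]⟩, ⟨nat_lit 2, [⟨nat_lit 0, nat_lit 2880, nat_lit 11664, nat_lit 17664, nat_lit 11472, nat_lit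 5280, R10_368, R4_239, R5_110⟩, ⟨nat_lit 3, nat_lit 4272, nat_lit 12096, nat_lit 17712, nat_lit 14208, nat_lit 12912, R10_369, R5_296, R0_269⟩]⟩, ⟨nat_lit 3, [⟨nat_lit 3, nat_lit 4560, nat_lit 12048, nat_lit 13488, nat_lit 14112, nat_lit 16128, R0_281, R5_294, R10_336⟩]⟩]⟩,
 ⟨nat_lit 4, [⟨nat_lit 4, [⟨nat_lit 6, nat_lit 12768, nat_lit 13056, nat_lit 9744, nat_lit 11184, nat_lit 13920, R4_203, R4_233, R3_290⟩]⟩, ⟨nat_lit 6, [⟨nat_lit 2, nat_lit 12384, nat_lit 12432, nat_lit 15168, nat_lit 12000, nat_lit 14496, R5_316, R7_250, R1_302⟩, ⟨nat_lit 6, nat_lit 12912, nat_lit 13104, nat_lit 5280, nat_lit 11472, nat_lit 17664, R5_110, R4_239, R10_368⟩]⟩]⟩,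
 ⟨nat_lit 6, [⟨nat_lit 2, [⟨nat_lit 0, nat_lit 13632, nat_lit 13872, nat_lit 14496, nat_lit 12000, nat_lit 15168, R1_302, R7_250, R5_316⟩, ⟨nat_lit 2, nat_lit 13968, nat_lit 14544, nat_lit 14544, nat_lit 15168, nat_lit 19392, R1_303, R14_316, R11_404⟩]⟩, ⟨nat_lit 6, [⟨nat_lit 2, nat_lit 14064, nat_lit 14496, nat_lit 19392, nat_lit 15216, nat_lit 14544, R11_404, R14_317, R1_303⟩]⟩]⟩,
 ⟨nat_lit 7, [⟨nat_lit 4, [⟨nat_lit 6, nat_lit 15600, nat_lit 13440, nat_lit 14736, nat_lit 13920, nat_lit 14640, R3_307, R5_290, R3_305⟩]⟩, ⟨nat_lit 6, [⟨nat_lit 6, nat_lit 15792, nat_lit 13536, nat_lit 12912, nat_lit 14208, nat_lit 17712, R0_269, R5_296, R10_369⟩]⟩, ⟨nat_lit 7, [⟨nat_lit 6, nat_lit 16032, nat_lit 13488, nat_lit 16128, nat_lit 14112, nat_lit 13488, R10_336, R5_294, R0_281⟩]⟩]⟩]], [[], [], [], [], [], [⟨nat_lit 4,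 [⟨nat_lit 4, [⟨nat_lit 6, nat_lit 13200, nat_lit 10320, nat_lit 9984, nat_lit 2880, nat_lit 14112, R4_208, R3_60, R3_294⟩]⟩, ⟨nat_lit 6, [⟨nat_lit 2, nat_lit 12528, nat_lit 9696, nat_lit 15936, nat_lit 10464, nat_lit 14784, R5_332, R2_218, R1_308⟩, ⟨nat_lit 6, nat_lit 13440, nat_lit 10368, nat_lit 5472, nat_lit 7584, nat_lit 17808, R5_114, R3_158, R10_371⟩]⟩]⟩,
 ⟨nat_lit 6, [⟨nat_lit 2, [⟨nat_lit 2, nat_lit 14112, nat_lit 11616, nat_lit 14592, nat_lit 12240, nat_lit 20544, R1_304, R12_255, R11_428⟩]⟩, ⟨nat_lit 6, [⟨nat_lit 2, nat_lit 14256, nat_lit 11568, nat_lit 19968, nat_lit 12288, nat_lit 14832, R11_416, R12_256, R1_309⟩]⟩]⟩,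
 ⟨nat_lit 7, [⟨nat_lit 4, [⟨nat_lit 6, nat_lit 16272, nat_lit 11088, nat_lit 14832, nat_lit 10752, nat_lit 14976, R3_309, R0_224, R3_312⟩]⟩, ⟨nat_lit 6, [⟨nat_lit 6, nat_lit 16464, nat_lit 11184, nat_lit 13248, nat_lit 10944, nat_lit 17856, R0_276, R0_228, R10_372⟩]⟩, ⟨nat_lit 7, [⟨nat_lit 6, nat_lit 16800, nat_lit 11136, nat_lit 17088, nat_lit 11088, nat_lit 13632, R10_356, R0_231, R0_284⟩]⟩]⟩]], [[], [], [], [], [⟨nat_lit 2, [⟨nat_lit 0, [⟨nat_lit 0, nat_lit 3024, nat_lit 1824, nat_lit 11760, nat_lit 2208, nat_lit 7920, R3_245, R3_46, R6_165⟩, ⟨nat_lit 3, nat_lit 4608, nat_lit 8688, nat_lit 12240, nat_lit 10656, nat_lit 17328, R3_255, R0_222, R13_361⟩]⟩, ⟨nat_lit 2, [⟨nat_lit 0, nat_lit 3264, nat_lit 2880, nat_lit 17568, nat_lit 7104, nat_lit 6096, R10_366, R3_148, R8_127⟩, ⟨nat_lit 3, nat_lit 4896, nat_lit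 10224, nat_lit 17616, nat_lit 10896, nat_lit 14544, R10_367, R0_227, R9_303⟩]⟩, ⟨nat_lit 3, [⟨nat_lit 3, nat_lit 5232, nat_lit 9600, nat_lit 13440, nat_lit 10992, nat_lit 8400, R0_280, R0_229, R3_175⟩]⟩]⟩,
 ⟨nat_lit 6, [⟨nat_lit 2, [⟨nat_lit 0, nat_lit 13680, nat_lit 2736, nat_lit 14400, nat_lit 816, nat_lit 6240, R1_300, R2_17, R8_130⟩, ⟨nat_lit 2, nat_lit 14304, nat_lit 11472, nat_lit 14448, nat_lit 10176, nat_lit 15648, R1_301, R12_212, R5_326⟩]⟩]⟩], [⟨nat_lit 2, [⟨nat_lit 0, [⟨nat_lit 0, nat_lit 3120, nat_lit 10320, nat_lit 14112, nat_lit 2880, nat_lit 9984, R3_294, R3_60, R4_208⟩, ⟨nat_lit 3, nat_lit 4704, nat_lit 11088, nat_lit 14976, nat_lit 10752, nat_lit 14832, R3_312, R0_224, R3_309⟩]⟩, ⟨nat_lit 2, [⟨nat_lit 0, nat_lit 3360, nat_lit 10368, nat_lit 17808, nat_lit 7584, nat_lit 5472, R10_371, R3_158,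 R5_114⟩, ⟨nat_lit 3, nat_lit 4944, nat_lit 11184, nat_lit 17856, nat_lit 10944, nat_lit 13248, R10_372, R0_228, R0_276⟩]⟩, ⟨nat_lit 3, [⟨nat_lit 3, nat_lit 5328, nat_lit 11136, nat_lit 13632, nat_lit 11088, nat_lit 17088, R0_284, R0_231, R10_356⟩]⟩]⟩,
 ⟨nat_lit 6, [⟨nat_lit 2, [⟨nat_lit 0, nat_lit 13776, nat_lit 9696, nat_lit 14784, nat_lit 10464, nat_lit 15936, R1_308, R2_218, R5_332⟩, ⟨nat_lit 2, nat_lit 14400, nat_lit 11568, nat_lit 14832, nat_lit 12288, nat_lit 19968, R1_309, R12_256, R11_416⟩]⟩, ⟨nat_lit 6, [⟨nat_lit 2, nat_lit 14448, nat_lit 11616, nat_lit 20544, nat_lit 12240, nat_lit 14592, R11_428, R12_255, R1_304⟩]⟩]⟩], [⟨nat_lit 2, [⟨nat_lit 0, [⟨nat_lit 0, nat_lit 3072, nat_lit 1296, nat_lit 16896, nat_lit 2736, nat_lit 5760, R3_352, R3_57, R8_120⟩, ⟨nat_lit 1, nat_lit 3600, nat_lit 6720, nat_lit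 17232, nat_lit 12960, nat_lit 16128, R3_359, R10_270, R5_336⟩, ⟨nat_lit 3, nat_lit 4656, nat_lit 9504, nat_lit 17088, nat_lit 10704, nat_lit 15264, R3_356, R0_223, R9_318⟩]⟩, ⟨nat_lit 2, [⟨nat_lit 0, nat_lit 3312, nat_lit 2352, nat_lit 17952, nat_lit 7488, nat_lit 5328, R10_374, R3_156, R9_111⟩, ⟨nat_lit 1, nat_lit 3696, nat_lit 7728, nat_lit 18000, nat_lit 13056, nat_lit 3168, R10_375, R10_272, R0_66⟩]⟩, ⟨nat_lit 3, [⟨nat_lit 3, nat_lit 5280, nat_lit 10416, nat_lit 13728, nat_lit 11040, nat_lit 8928, R0_286, R0_230, R0_186⟩]⟩]⟩,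
 ⟨nat_lit 6, [⟨nat_lit 2, [⟨nat_lit 0, nat_lit 13728, nat_lit 2208, nat_lit 14928, nat_lit 6960, nat_lit 5712, R1_311, R2_145, R9_119⟩, ⟨nat_lit 1, nat_lit 14688, nat_lit 7584, nat_lit 15024, nat_lit 5664, nat_lit 3552, R1_313, R1_118, R0_74⟩, ⟨nat_lit 2, nat_lit 14352, nat_lit 12048, nat_lit 14976, nat_lit 10848, nat_lit 13680, R1_312, R12_226, R0_285⟩]⟩]⟩]], [[], [], [], [], [⟨nat_lit 0, [⟨nat_lit 3, [⟨nat_lit 7, nat_lit 2016, nat_lit 13104, nat_lit 15360, nat_lit 11424, nat_lit 13296, R5_320, R2_238, R2_277⟩]⟩]⟩,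
 ⟨nat_lit 2, [⟨nat_lit 0, [⟨nat_lit 3, nat_lit 5376, nat_lit 3840, nat_lit 12096, nat_lit 16896, nat_lit 17904, R3_252, R11_352, R13_373⟩]⟩, ⟨nat_lit 2, [⟨nat_lit 3, nat_lit 5568, nat_lit 6816, nat_lit 17520, nat_lit 17088, nat_lit 14832, R10_365, R11_356, R9_309⟩]⟩, ⟨nat_lit 3, [⟨nat_lit 3, nat_lit 5808, nat_lit 4656, nat_lit 13344, nat_lit 17232, nat_lit 6768, R0_278, R11_359, R3_141⟩, ⟨nat_lit 7, nat_lit 6528, nat_lit 13632, nat_lit 13392, nat_lit 12000, nat_lit 13392, R0_279, R1_250, R2_279⟩]⟩]⟩,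
 ⟨nat_lit 3, [⟨nat_lit 3, [⟨nat_lit 7, nat_lit 11712, nat_lit 13488, nat_lit 20160, nat_lit 12000, nat_lit 13344, R11_420, R12_250, R2_278⟩]⟩]⟩,
 ⟨nat_lit 6, [⟨nat_lit 2, [⟨nat_lit 0, nat_lit 13824, nat_lit 768, nat_lit 14256, nat_lit 2784, nat_lit 7008, R1_297, R2_58, R8_146⟩, ⟨nat_lit 2, nat_lit 14496, nat_lit 10416, nat_lit 14304, nat_lit 9792, nat_lit 15888, R1_298, R12_204, R5_331⟩, ⟨nat_lit 3, nat_lit 14736, nat_lit 6912, nat_lit 14352, nat_lit 2256, nat_lit 14880, R1_299, R1_47, R9_310⟩]⟩]⟩], [⟨nat_lit 0, [⟨nat_lit 3, [⟨nat_lit 7, nat_lit 2064, nat_lit 12624, nat_lit 15744, nat_lit 11520, nat_lit 14640, R5_328, R2_240, R1_305⟩]⟩]⟩,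
 ⟨nat_lit 2, [⟨nat_lit 0, [⟨nat_lit 3, nat_lit 5424, nat_lit 16896, nat_lit 14784, nat_lit 16992, nat_lit 14784, R3_308, R11_354, R3_308⟩]⟩, ⟨nat_lit 2, [⟨nat_lit 3, nat_lit 5616, nat_lit 17328, nat_lit 17760, nat_lit 17184, nat_lit 13536, R10_370, R11_358, R0_282⟩]⟩, ⟨nat_lit 3, [⟨nat_lit 3, nat_lit 5856, nat_lit 17088, nat_lit 13536, nat_lit 17280, nat_lit 17760, R0_282, R11_360, R10_370⟩, ⟨nat_lit 7, nat_lit 6576, nat_lit 15408, nat_lit 13584, nat_lit 12096, nat_lit 14736, R0_283, R1_252, R1_307⟩]⟩]⟩,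
 ⟨nat_lit 3, [⟨nat_lit 3, [⟨nat_lit 7, nat_lit 11760, nat_lit 14640, nat_lit 20208, nat_lit 12096, nat_lit 14688, R11_421, R12_252, R1_306⟩]⟩, ⟨nat_lit 7, [⟨nat_lit 4, nat_lit 10128, nat_lit 13872, nat_lit 14640, nat_lit 11520, nat_lit 15744, R1_305, R2_240, R5_328⟩, ⟨nat_lit 6, nat_lit 10800, nat_lit 14784, nat_lit 14736, nat_lit 12096, nat_lit 13584, R1_307, R1_252, R0_283⟩, ⟨nat_lit 7, nat_lit 12192, nat_lit 14544, nat_lit 14688, nat_lit 11664, nat_lit 20208, R1_306, R12_243, R11_421⟩]⟩]⟩,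
 ⟨nat_lit 4, [⟨nat_lit 6, [⟨nat_lit 2, nat_lit 12624, nat_lit 2064, nat_lit 15744, nat_lit 11520, nat_lit 14640, R5_328, R2_240, R1_305⟩]⟩]⟩,
 ⟨nat_lit 6, [⟨nat_lit 2, [⟨nat_lit 0, nat_lit 13872, nat_lit 10128, nat_lit 14640, nat_lit 11520, nat_lit 15744, R1_305, R2_240, R5_328⟩, ⟨nat_lit 2, nat_lit 14544, nat_lit 12192, nat_lit 14688, nat_lit 11664, nat_lit 20208, R1_306, R12_243, R11_421⟩, ⟨nat_lit 3, nat_lit 14784, nat_lit 10800, nat_lit 14736, nat_lit 12096, nat_lit 13584, R1_307, R1_252, R0_283⟩]⟩, ⟨nat_lit 6, [⟨nat_lit 2, nat_lit 14640, nat_lit 11760, nat_lit 20208, nat_lit 12096, nat_lit 14688, R11_421, R12_252, R1_306⟩]⟩]⟩,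
 ⟨nat_lit 7, [⟨nat_lit 4, [⟨nat_lit 6, nat_lit 16896, nat_lit 5424, nat_lit 14784, nat_lit 16992, nat_lit 14784, R3_308, R11_354, R3_308⟩]⟩, ⟨nat_lit 6, [⟨nat_lit 2, nat_lit 15408, nat_lit 6576, nat_lit 13584, nat_lit 12096, nat_lit 14736, R0_283, R1_252, R1_307⟩, ⟨nat_lit 6, nat_lit 17088, nat_lit 5856, nat_lit 13536, nat_lit 17280, nat_lit 17760, R0_282, R11_360, R10_370⟩]⟩, ⟨nat_lit 7, [⟨nat_lit 6, nat_lit 17328, nat_lit 5616, nat_lit 17760, nat_lit 17184, nat_lit 13536, R10_370, R11_358, R0_282⟩]⟩]⟩], [], [⟨nat_lit 0, [⟨nat_lit 0, [⟨nat_lit 7, nat_lit 1776, nat_lit 13488, nat_lit 13968, nat_lit 10944, nat_lit 13776, R4_291, R2_228, R2_287⟩]⟩, ⟨nat_lit 3, [⟨nat_lit 7, nat_lit 2112, nat_lit 14448, nat_lit 15648, nat_lit 11472, nat_lit 14304, R5_326, R2_239, R12_298⟩]⟩]⟩,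
 ⟨nat_lit 2, [⟨nat_lit 0, [⟨nat_lit 3, nat_lit 5472, nat_lit 3312, nat_lit 15552, nat_lit 16944, nat_lit 9216, R3_324, R11_353, R3_192⟩, ⟨nat_lit 7, nat_lit 6336, nat_lit 13632, nat_lit 15648, nat_lit 11328, nat_lit 13872, R3_326, R1_236, R2_289⟩]⟩, ⟨nat_lit 2, [⟨nat_lit 3, nat_lit 5664, nat_lit 5520, nat_lit 17904, nat_lit 17136, nat_lit 3744, R10_373, R11_357, R0_78⟩]⟩, ⟨nat_lit 3, [⟨nat_lit 7, nat_lit 6624, nat_lit 14976, nat_lit 13680, nat_lit 12048, nat_lit 14352, R0_285, R1_251, R12_299⟩]⟩]⟩,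
 ⟨nat_lit 3, [⟨nat_lit 3, [⟨nat_lit 7, nat_lit 11808, nat_lit 14832, nat_lit 20256, nat_lit 12048, nat_lit 14400, R11_422, R12_251, R12_300⟩]⟩]⟩,
 ⟨nat_lit 6, [⟨nat_lit 2, [⟨nat_lit 3, nat_lit 14832, nat_lit 5616, nat_lit 14880, nat_lit 7632, nat_lit 3504, R1_310, R1_159, R0_73⟩]⟩]⟩]]], [[], [], [], [], [[], [⟨nat_lit 7, [⟨nat_lit 4, [⟨nat_lit 6, nat_lit 15648, nat_lit 6960, nat_lit 7728, nat_lit 7440, nat_lit 9072, R3_161, R5_155, R2_189⟩]⟩, ⟨nat_lit 5, [⟨nat_lit 6, nat_lit 15936, nat_lit 7056, nat_lit 16944, nat_lit 7824, nat_lit 6096, R10_353, R5_163, R12_127⟩]⟩, ⟨nat_lit 6, [⟨nat_lit 6, nat_lit 15840, nat_lit 7248, nat_lit 864, nat_lit 7632, nat_lit 9888, R0_18, R5_159, R1_206⟩]⟩]⟩]], [[], [⟨nat_lit 7, [⟨nat_lit 4, [⟨nat_lit 6, nat_lit 16320, nat_lit 13776, nat_lit 8304, nat_lit 10608, nat_lit 9168, R3_173,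 R0_221, R2_191⟩]⟩, ⟨nat_lit 5, [⟨nat_lit 6, nat_lit 16656, nat_lit 13824, nat_lit 17040, nat_lit 11232, nat_lit 6240, R10_355, R0_234, R12_130⟩]⟩, ⟨nat_lit 6, [⟨nat_lit 6, nat_lit 16512, nat_lit 13872, nat_lit 8976, nat_lit 10848, nat_lit 9984, R0_187, R0_226, R1_208⟩]⟩]⟩]], [], [[], [⟨nat_lit 3, [⟨nat_lit 4, [⟨nat_lit 4, nat_lit 9840, nat_lit 20304, nat_lit 12624, nat_lit 10704, nat_lit 15264, R2_263, R2_223, R7_318⟩, ⟨nat_lit 6, nat_lit 10560, nat_lit 20448, nat_lit 12768, nat_lit 11088, nat_lit 14352, R2_266, R1_231, R2_299⟩, ⟨nat_lit 7, nat_lit 11904, nat_lit 20352, nat_lit 13248, nat_lit 11472, nat_lit 13248, R2_276, R12_239, R2_276⟩]⟩, ⟨nat_lit 5, [⟨nat_lit 4, nat_lit 9936, nat_lit 20496, nat_lit 13968, nat_lit 11856, nat_lit 8064, R1_291, R2_247, R14_168⟩, ⟨nat_lit 6, nat_lit 10656, nat_lit 20640, nat_lit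 14112, nat_lit 12288, nat_lit 3936, R1_294, R1_256, R12_82⟩, ⟨nat_lit 7, nat_lit 11952, nat_lit 20544, nat_lit 14592, nat_lit 11856, nat_lit 14448, R1_304, R12_247, R12_301⟩]⟩, ⟨nat_lit 7, [⟨nat_lit 7, nat_lit 12240, nat_lit 20688, nat_lit 14448, nat_lit 11616, nat_lit 14592, R12_301, R12_242, R1_304⟩]⟩]⟩,
 ⟨nat_lit 7, [⟨nat_lit 4, [⟨nat_lit 6, nat_lit 16944, nat_lit 20400, nat_lit 8016, nat_lit 7056, nat_lit 9120, R3_167, R11_147, R2_190⟩]⟩, ⟨nat_lit 5, [⟨nat_lit 6, nat_lit 17232, nat_lit 20592, nat_lit 16992, nat_lit 7440, nat_lit 6144, R10_354, R11_155, R12_128⟩]⟩, ⟨nat_lit 6, [⟨nat_lit 6, nat_lit 17136, nat_lit 20736, nat_lit 6096, nat_lit 7248, nat_lit 9936, R0_127, R11_151, R1_207⟩]⟩]⟩], [], [], [], [⟨nat_lit 3, [⟨nat_lit 4, [⟨nat_lit 4, nat_lit 9888, nat_lit 13488, nat_lit 13776, nat_lit 10944, nat_lit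 13968, R2_287, R2_228, R4_291⟩, ⟨nat_lit 6, nat_lit 10608, nat_lit 13632, nat_lit 13872, nat_lit 11328, nat_lit 15648, R2_289, R1_236, R3_326⟩]⟩, ⟨nat_lit 7, [⟨nat_lit 4, nat_lit 10176, nat_lit 14448, nat_lit 14304, nat_lit 11472, nat_lit 15648, R12_298, R2_239, R5_326⟩, ⟨nat_lit 6, nat_lit 10848, nat_lit 14976, nat_lit 14352, nat_lit 12048, nat_lit 13680, R12_299, R1_251, R0_285⟩, ⟨nat_lit 7, nat_lit 12288, nat_lit 14832, nat_lit 14400, nat_lit 11568, nat_lit 20256, R12_300, R12_241, R11_422⟩]⟩]⟩,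
 ⟨nat_lit 7, [⟨nat_lit 4, [⟨nat_lit 6, nat_lit 16992, nat_lit 3312, nat_lit 9216, nat_lit 9120, nat_lit 15552, R3_192, R11_190, R3_324⟩]⟩, ⟨nat_lit 6, [⟨nat_lit 2, nat_lit 15456, nat_lit 5616, nat_lit 3504, nat_lit 7632, nat_lit 14880, R0_73, R1_159, R1_310⟩, ⟨nat_lit 6, nat_lit 17184, nat_lit 5520, nat_lit 3744, nat_lit 9312, nat_lit 17904, R0_78, R11_194, R10_373⟩]⟩]⟩]]]]
noncomputable def N2771 : T3 (List N0) := [[[[⟨nat_lit 0, [⟨nat_lit 4, [⟨nat_lit 4, nat_lit 0, nat_lit 3408, nat_lit 0, nat_lit 480, nat_lit 0, R6_0, R6_10, R6_0⟩]⟩, ⟨nat_lit 5, [⟨nat_lit 4, nat_lit 144, nat_lit 3792, nat_lit 3264, nat_lit 2784, nat_lit 0, R8_68, R6_58, R4_0⟩]⟩, ⟨nat_lit 6, [⟨nat_lit 4, nat_lit 288, nat_lit 4272, nat_lit 0, nat_lit 1056, nat_lit 3264, R4_0, R6_22, R8_68⟩, ⟨nat_lit 6, nat_lit 384, nat_lit 4320, nat_lit 480,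 nat_lit 960, nat_lit 4752, R4_10, R4_20, R5_99⟩]⟩]⟩,
 ⟨nat_lit 1, [⟨nat_lit 4, [⟨nat_lit 4, nat_lit 48, nat_lit 8448, nat_lit 12672, nat_lit 1488, nat_lit 288, R8_264, R8_31, R6_6⟩]⟩, ⟨nat_lit 5, [⟨nat_lit 4, nat_lit 192, nat_lit 9456, nat_lit 2208, nat_lit 1584, nat_lit 192, R9_46, R8_33, R4_4⟩]⟩, ⟨nat_lit 6, [⟨nat_lit 4, nat_lit 336, nat_lit 9696, nat_lit 1872, nat_lit 1536, nat_lit 3600, R5_39, R8_32, R8_75⟩, ⟨nat_lit 6, nat_lit 432, nat_lit 9744, nat_lit 1920, nat_lit 288, nat_lit 4800, R5_40, R5_6, R5_100⟩]⟩]⟩,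
 ⟨nat_lit 2, [⟨nat_lit 4, [⟨nat_lit 4, nat_lit 96, nat_lit 10752, nat_lit 12096, nat_lit 3168, nat_lit 48, R4_252, R4_66, R6_1⟩]⟩, ⟨nat_lit 5, [⟨nat_lit 4, nat_lit 240, nat_lit 10800, nat_lit 14496, nat_lit 4368, nat_lit 48, R5_302, R4_91, R4_1⟩]⟩]⟩], [⟨nat_lit 0, [⟨nat_lit 4, [⟨nat_lit 4, nat_lit 7488, nat_lit 3168, nat_lit 48, nat_lit 912, nat_lit 12096, R6_1, R6_19, R4_252⟩]⟩, ⟨nat_lit 6, [⟨nat_lit 4, nat_lit 7632, nat_lit 4368, nat_lit 48, nat_lit 1392, nat_lit 14496, R4_1, R6_29, R5_302⟩, ⟨nat_lit 6, nat_lit 7728, nat_lit 4416, nat_lit 528, nat_lit 1392, nat_lit 4752, R4_11, R4_29, R11_99⟩]⟩]⟩,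
 ⟨nat_lit 1, [⟨nat_lit 4, [⟨nat_lit 4, nat_lit 7536, nat_lit 9072, nat_lit 13584, nat_lit 9360, nat_lit 14304, R8_283, R8_195, R4_298⟩]⟩, ⟨nat_lit 6, [⟨nat_lit 4, nat_lit 7680, nat_lit 10656, nat_lit 2064, nat_lit 9408, nat_lit 17184, R5_43, R8_196, R5_358⟩, ⟨nat_lit 6, nat_lit 7776, nat_lit 10704, nat_lit 2112, nat_lit 624, nat_lit 4800, R5_44, R5_13, R11_100⟩]⟩]⟩,
 ⟨nat_lit 2, [⟨nat_lit 4, [⟨nat_lit 4, nat_lit 7584, nat_lit 11616, nat_lit 13344, nat_lit 11616, nat_lit 13344, R4_278, R4_242, R4_278⟩]⟩]⟩], [⟨nat_lit 0, [⟨nat_lit 4, [⟨nat_lit 4, nat_lit 10368, nat_lit 1488, nat_lit 288, nat_lit 768, nat_lit 12672, R6_6, R6_16, R8_264⟩, ⟨nat_lit 5, nat_lit 10512, nat_lit 2160, nat_lit 2592, nat_lit 2400, nat_lit 8352, R6_54, R8_50, R5_174⟩]⟩, ⟨nat_lit 5, [⟨nat_lit 4, nat_lit 10656, nat_lit 1536, nat_lit 3600,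 nat_lit 2928, nat_lit 1872, R8_75, R6_61, R5_39⟩, ⟨nat_lit 5, nat_lit 10800, nat_lit 2208, nat_lit 3648, nat_lit 2544, nat_lit 10800, R8_76, R8_53, R11_225⟩]⟩, ⟨nat_lit 6, [⟨nat_lit 4, nat_lit 10944, nat_lit 1584, nat_lit 192, nat_lit 1344, nat_lit 2208, R4_4, R6_28, R9_46⟩, ⟨nat_lit 5, nat_lit 11040, nat_lit 2304, nat_lit 2496, nat_lit 2448, nat_lit 672, R4_52, R8_51, R0_14⟩, ⟨nat_lit 6, nat_lit 11136, nat_lit 2784, nat_lit 768, nat_lit 1248, nat_lit 11712, R4_16, R4_26, R0_244⟩]⟩]⟩,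
 ⟨nat_lit 1, [⟨nat_lit 4, [⟨nat_lit 4, nat_lit 10416, nat_lit 6288, nat_lit 16848, nat_lit 6288, nat_lit 16848, R8_351, R8_131, R8_351⟩, ⟨nat_lit 5, nat_lit 10560, nat_lit 6672, nat_lit 16992, nat_lit 1152, nat_lit 9696, R8_354, R9_24, R5_202⟩]⟩, ⟨nat_lit 5, [⟨nat_lit 4, nat_lit 10704, nat_lit 6336, nat_lit 2688, nat_lit 6384, nat_lit 2400, R9_56, R8_133, R5_50⟩, ⟨nat_lit 5, nat_lit 10848, nat_lit 6720, nat_lit 2736, nat_lit 1296, nat_lit 12144, R9_57, R9_27, R11_253⟩]⟩, ⟨nat_lit 6, [⟨nat_lit 4, nat_lit 10992, nat_lit 6384, nat_lit 2400, nat_lit 6336, nat_lit 2688, R5_50, R8_132, R9_56⟩, ⟨nat_lit 5, nat_lit 11088, nat_lit 6816, nat_lit 2496, nat_lit 1200, nat_lit 1152, R5_52, R9_25, R0_24⟩, ⟨nat_lit 6, nat_lit 11184, nat_lit 6864, nat_lit 2448, nat_lit 384, nat_lit 14544, R5_51, R5_8, R0_303⟩]⟩]⟩,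
 ⟨nat_lit 2, [⟨nat_lit 4, [⟨nat_lit 4, nat_lit 10464, nat_lit 9360, nat_lit 14304, nat_lit 9072, nat_lit 13584, R4_298, R4_189, R8_283⟩, ⟨nat_lit 5, nat_lit 10608, nat_lit 9840, nat_lit 15216, nat_lit 6288, nat_lit 8928, R4_317, R5_131, R5_186⟩]⟩, ⟨nat_lit 5, [⟨nat_lit 4, nat_lit 10752, nat_lit 9408, nat_lit 17184, nat_lit 10656, nat_lit 2064, R5_358, R4_222, R5_43⟩, ⟨nat_lit 5, nat_lit 10896, nat_lit 9888, nat_lit 17232, nat_lit 6432, nat_lit 11376, R5_359, R5_134, R11_237⟩]⟩]⟩]], [], [[], [], [⟨nat_lit 0, [⟨nat_lit 4, [⟨nat_lit 5, nat_lit 11232, nat_lit 16896, nat_lit 10272, nat_lit 4704, nat_lit 8448, R6_214, R5_98, R5_176⟩]⟩, ⟨nat_lit 5, [⟨nat_lit 5, nat_lit 11376, nat_lit 17232, nat_lit 10896, nat_lit 6432, nat_lit 10896, R8_227, R5_134, R11_227⟩]⟩, ⟨nat_lit 6, [⟨nat_lit 5, nat_lit 11520, nat_lit 17616,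 nat_lit 11328, nat_lit 5376, nat_lit 5904, R4_236, R5_112, R0_123⟩]⟩]⟩,
 ⟨nat_lit 1, [⟨nat_lit 4, [⟨nat_lit 5, nat_lit 11280, nat_lit 17040, nat_lit 17520, nat_lit 3936, nat_lit 9744, R8_365, R0_82, R5_203⟩]⟩, ⟨nat_lit 5, [⟨nat_lit 5, nat_lit 11424, nat_lit 17424, nat_lit 11616, nat_lit 4032, nat_lit 12192, R9_242, R0_84, R11_254⟩]⟩, ⟨nat_lit 6, [⟨nat_lit 5, nat_lit 11568, nat_lit 17760, nat_lit 13584, nat_lit 3984, nat_lit 6288, R5_283, R0_83, R0_131⟩]⟩]⟩,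
 ⟨nat_lit 2, [⟨nat_lit 4, [⟨nat_lit 5, nat_lit 11328, nat_lit 17088, nat_lit 15504, nat_lit 4704, nat_lit 9024, R4_323, R11_98, R5_188⟩]⟩, ⟨nat_lit 5, [⟨nat_lit 5, nat_lit 11472, nat_lit 17520, nat_lit 17520, nat_lit 6048, nat_lit 11472, R5_365, R11_126, R11_239⟩]⟩]⟩]], [[⟨nat_lit 0, [⟨nat_lit 4, [⟨nat_lit 4, nat_lit 480, nat_lit 19872, nat_lit 4848, nat_lit 4752, nat_lit 4848, R6_101, R13_99, R6_101⟩, ⟨nat_lit 7, nat_lit 624, nat_lit 19920, nat_lit 6048, nat_lit 96, nat_lit 5712, R6_126, R3_2, R13_119⟩]⟩, ⟨nat_lit 5, [⟨nat_lit 4, nat_lit 768, nat_lit 20592, nat_lit 8112, nat_lit 8544, nat_lit 5232, R8_169, R13_178, R4_109⟩, ⟨nat_lit 7, nat_lit 912, nat_lit 20640, nat_lit 8208, nat_lit 2352, nat_lit 3984, R8_171, R3_49, R3_83⟩]⟩, ⟨nat_lit 6, [⟨nat_lit 4, nat_lit 1056, nat_lit 21408, nat_lit 5232, nat_lit 6384,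 nat_lit 8112, R4_109, R13_133, R8_169⟩, ⟨nat_lit 6, nat_lit 1152, nat_lit 21504, nat_lit 6864, nat_lit 4656, nat_lit 5040, R4_143, R3_97, R5_105⟩, ⟨nat_lit 7, nat_lit 1248, nat_lit 21456, nat_lit 6384, nat_lit 816, nat_lit 4464, R4_133, R3_17, R9_93⟩]⟩]⟩,
 ⟨nat_lit 1, [⟨nat_lit 4, [⟨nat_lit 4, nat_lit 528, nat_lit 20160, nat_lit 12816, nat_lit 16128, nat_lit 5136, R8_267, R9_336, R6_107⟩, ⟨nat_lit 7, nat_lit 672, nat_lit 20208, nat_lit 12960, nat_lit 192, nat_lit 5808, R8_270, R0_4, R13_121⟩]⟩, ⟨nat_lit 5, [⟨nat_lit 4, nat_lit 816, nat_lit 20976, nat_lit 8976, nat_lit 17808, nat_lit 5424, R9_187, R9_371, R4_113⟩, ⟨nat_lit 7, nat_lit 960, nat_lit 21024, nat_lit 9072, nat_lit 1968, nat_lit 4080, R9_189, R0_41, R3_85⟩]⟩, ⟨nat_lit 6, [⟨nat_lit 4, nat_lit 1104, nat_lit 21744, nat_lit 10368, nat_lit 16992, nat_lit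 8832, R5_216, R9_354, R8_184⟩, ⟨nat_lit 6, nat_lit 1200, nat_lit 21840, nat_lit 10464, nat_lit 14592, nat_lit 5088, R5_218, R0_304, R5_106⟩, ⟨nat_lit 7, nat_lit 1296, nat_lit 21792, nat_lit 10416, nat_lit 1008, nat_lit 4512, R5_217, R0_21, R9_94⟩]⟩]⟩,
 ⟨nat_lit 2, [⟨nat_lit 4, [⟨nat_lit 4, nat_lit 576, nat_lit 20256, nat_lit 12192, nat_lit 16128, nat_lit 4896, R4_254, R3_336, R6_102⟩, ⟨nat_lit 7, nat_lit 720, nat_lit 20304, nat_lit 12336, nat_lit 3168, nat_lit 5760, R4_257, R10_66, R13_120⟩]⟩, ⟨nat_lit 5, [⟨nat_lit 4, nat_lit 864, nat_lit 21216, nat_lit 14688, nat_lit 17472, nat_lit 5280, R5_306, R3_364, R4_110⟩, ⟨nat_lit 7, nat_lit 1008, nat_lit 21264, nat_lit 14736, nat_lit 5856, nat_lit 4032, R5_307, R10_122, R3_84⟩]⟩]⟩], [⟨nat_lit 0, [⟨nat_lit 4, [⟨nat_lit 4, nat_lit 7824, nat_lit 16128, nat_lit 4896, nat_lit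 4848, nat_lit 12192, R6_102, R13_101, R4_254⟩, ⟨nat_lit 7, nat_lit 7968, nat_lit 16176, nat_lit 6240, nat_lit 672, nat_lit 8592, R6_130, R3_14, R3_179⟩]⟩, ⟨nat_lit 6, [⟨nat_lit 4, nat_lit 8112, nat_lit 17472, nat_lit 5280, nat_lit 6480, nat_lit 14688, R4_110, R13_135, R5_306⟩, ⟨nat_lit 6, nat_lit 8208, nat_lit 17568, nat_lit 6912, nat_lit 4752, nat_lit 5040, R4_144, R3_99, R11_105⟩, ⟨nat_lit 7, nat_lit 8304, nat_lit 17520, nat_lit 6576, nat_lit 1152, nat_lit 2928, R4_137, R3_24, R0_61⟩]⟩]⟩,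
 ⟨nat_lit 1, [⟨nat_lit 4, [⟨nat_lit 4, nat_lit 7872, nat_lit 16560, nat_lit 13872, nat_lit 16656, nat_lit 14448, R8_289, R9_347, R4_301⟩, ⟨nat_lit 7, nat_lit 8016, nat_lit 16608, nat_lit 14016, nat_lit 9888, nat_lit 8736, R8_292, R0_206, R3_182⟩]⟩, ⟨nat_lit 6, [⟨nat_lit 4, nat_lit 8160, nat_lit 17856, nat_lit 10848, nat_lit 17568, nat_lit 17328, R5_226, R9_366, R5_361⟩, ⟨nat_lit 6, nat_lit 8256, nat_lit 17952, nat_lit 10944, nat_lit 15168, nat_lit 5088, R5_228, R0_316, R11_106⟩, ⟨nat_lit 7, nat_lit 8352, nat_lit 17904, nat_lit 10896, nat_lit 10320, nat_lit 2976, R5_227, R0_215, R0_62⟩]⟩]⟩,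
 ⟨nat_lit 2, [⟨nat_lit 4, [⟨nat_lit 4, nat_lit 7920, nat_lit 16752, nat_lit 13392, nat_lit 16752, nat_lit 13392, R4_279, R3_349, R4_279⟩, ⟨nat_lit 7, nat_lit 8064, nat_lit 16800, nat_lit 13728, nat_lit 3312, nat_lit 8640, R4_286, R10_69, R3_180⟩]⟩]⟩], [⟨nat_lit 0, [⟨nat_lit 4, [⟨nat_lit 4, nat_lit 11616, nat_lit 16128, nat_lit 5136, nat_lit 4800, nat_lit 12816, R6_107, R13_100, R8_267⟩, ⟨nat_lit 5, nat_lit 11760, nat_lit 16224, nat_lit 7152, nat_lit 3888, nat_lit 8400, R6_149, R9_81, R5_175⟩, ⟨nat_lit 7, nat_lit 11856, nat_lit 16176, nat_lit 6480, nat_lit 528, nat_lit 8112, R6_135, R3_11, R9_169⟩]⟩, ⟨nat_lit 5, [⟨nat_lit 4, nat_lit 12000, nat_lit 16992, nat_lit 8832, nat_lit 8592, nat_lit 10368, R8_184, R13_179, R5_216⟩, ⟨nat_lit 5, nat_lit 12144, nat_lit 17088, nat_lit 8928, nat_lit 6192, nat_lit 10848, R8_186,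 R9_129, R11_226⟩, ⟨nat_lit 7, nat_lit 12240, nat_lit 17040, nat_lit 8880, nat_lit 2640, nat_lit 7344, R8_185, R3_55, R0_153⟩]⟩, ⟨nat_lit 6, [⟨nat_lit 4, nat_lit 12384, nat_lit 17808, nat_lit 5424, nat_lit 6432, nat_lit 8976, R4_113, R13_134, R9_187⟩, ⟨nat_lit 5, nat_lit 12480, nat_lit 17856, nat_lit 7824, nat_lit 4800, nat_lit 8496, R4_163, R9_100, R0_177⟩, ⟨nat_lit 6, nat_lit 12528, nat_lit 17904, nat_lit 7152, nat_lit 4704, nat_lit 11952, R4_149, R3_98, R0_249⟩]⟩]⟩,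
 ⟨nat_lit 1, [⟨nat_lit 4, [⟨nat_lit 4, nat_lit 11664, nat_lit 16560, nat_lit 17136, nat_lit 16560, nat_lit 17136, R8_357, R9_345, R8_357⟩, ⟨nat_lit 7, nat_lit 11904, nat_lit 16608, nat_lit 17280, nat_lit 7728, nat_lit 8592, R8_360, R0_161, R9_179⟩]⟩, ⟨nat_lit 5, [⟨nat_lit 4, nat_lit 12048, nat_lit 17424, nat_lit 9792, nat_lit 18144, nat_lit 11232, R9_204, R9_378, R5_234⟩, ⟨nat_lit 7, nat_lit 12288, nat_lit 17472, nat_lit 9840, nat_lit 9120, nat_lit 7824, R9_205, R0_190, R0_163⟩]⟩, ⟨nat_lit 6, [⟨nat_lit 4, nat_lit 12432, nat_lit 18144, nat_lit 11232, nat_lit 17424, nat_lit 9792, R5_234, R9_363, R9_204⟩, ⟨nat_lit 6, nat_lit 12576, nat_lit 18192, nat_lit 11280, nat_lit 15024, nat_lit 14832, R5_235, R0_313, R0_309⟩]⟩]⟩,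
 ⟨nat_lit 2, [⟨nat_lit 4, [⟨nat_lit 4, nat_lit 11712, nat_lit 16656, nat_lit 14448, nat_lit 16560, nat_lit 13872, R4_301, R3_345, R8_289⟩, ⟨nat_lit 5, nat_lit 11808, nat_lit 16752, nat_lit 15360, nat_lit 2352, nat_lit 8976, R4_320, R0_49, R5_187⟩, ⟨nat_lit 7, nat_lit 11952, nat_lit 16704, nat_lit 14784, nat_lit 3264, nat_lit 8304, R4_308, R10_68, R9_173⟩]⟩, ⟨nat_lit 5, [⟨nat_lit 4, nat_lit 12096, nat_lit 17568, nat_lit 17328, nat_lit 17856, nat_lit 10848, R5_361, R3_372, R5_226⟩, ⟨nat_lit 5, nat_lit 12192, nat_lit 17664, nat_lit 17424, nat_lit 4032, nat_lit 11424, R5_363, R0_84, R11_238⟩, ⟨nat_lit 7, nat_lit 12336, nat_lit 17616, nat_lit 17376, nat_lit 5952, nat_lit 7536, R5_362, R10_124, R0_157⟩]⟩]⟩], [⟨nat_lit 0, [⟨nat_lit 4, [⟨nat_lit 7, nat_lit 16032, nat_lit 2976, nat_lit 6192, nat_lit 240, nat_lit 11520,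 R6_129, R3_5, R3_240⟩]⟩, ⟨nat_lit 5, [⟨nat_lit 7, nat_lit 16176, nat_lit 3312, nat_lit 8400, nat_lit 2496, nat_lit 9072, R8_175, R3_52, R10_189⟩]⟩, ⟨nat_lit 6, [⟨nat_lit 7, nat_lit 16320, nat_lit 3600, nat_lit 6528, nat_lit 960, nat_lit 2448, R4_136, R3_20, R0_51⟩]⟩]⟩,
 ⟨nat_lit 2, [⟨nat_lit 4, [⟨nat_lit 7, nat_lit 16128, nat_lit 10464, nat_lit 13296, nat_lit 3216, nat_lit 15312, R4_277, R10_67, R3_319⟩]⟩, ⟨nat_lit 5, [⟨nat_lit 7, nat_lit 16272, nat_lit 10512, nat_lit 16512, nat_lit 5904, nat_lit 9360, R5_344, R10_123, R10_195⟩]⟩]⟩]], [], [], [], [[], [], [], [⟨nat_lit 0, [⟨nat_lit 4, [⟨nat_lit 7, nat_lit 15744, nat_lit 14592, nat_lit 12672, nat_lit 3216, nat_lit 11184, R6_264, R2_67, R3_233⟩]⟩, ⟨nat_lit 5, [⟨nat_lit 7, nat_lit 15888, nat_lit 15168, nat_lit 15024, nat_lit 6432, nat_lit 9120, R8_313, R2_134,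 R10_190⟩]⟩, ⟨nat_lit 6, [⟨nat_lit 7, nat_lit 15984, nat_lit 15648, nat_lit 13008, nat_lit 4080, nat_lit 12384, R4_271, R2_85, R0_258⟩]⟩]⟩,
 ⟨nat_lit 2, [⟨nat_lit 4, [⟨nat_lit 3, nat_lit 15696, nat_lit 14880, nat_lit 12768, nat_lit 6528, nat_lit 7872, R4_266, R11_136, R2_164⟩, ⟨nat_lit 7, nat_lit 15792, nat_lit 14832, nat_lit 13200, nat_lit 2688, nat_lit 15216, R4_275, R1_56, R3_317⟩]⟩, ⟨nat_lit 5, [⟨nat_lit 3, nat_lit 15840, nat_lit 15504, nat_lit 16752, nat_lit 6816, nat_lit 8400, R5_349, R11_142, R1_175⟩, ⟨nat_lit 7, nat_lit 15936, nat_lit 15456, nat_lit 16608, nat_lit 5136, nat_lit 9408, R5_346, R1_107, R10_196⟩]⟩]⟩]]], [[[⟨nat_lit 1, [⟨nat_lit 4, [⟨nat_lit 4, nat_lit 1776, nat_lit 2400, nat_lit 8352, nat_lit 2160, nat_lit 2592, R5_174, R8_45, R6_54⟩]⟩, ⟨nat_lit 5, [⟨nat_lit 4, nat_lit 1824, nat_lit 2448,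 nat_lit 672, nat_lit 2304, nat_lit 2496, R0_14, R8_48, R4_52⟩]⟩, ⟨nat_lit 6, [⟨nat_lit 4, nat_lit 1872, nat_lit 2544, nat_lit 1872, nat_lit 2208, nat_lit 3648, R11_39, R8_46, R8_76⟩, ⟨nat_lit 6, nat_lit 1920, nat_lit 10128, nat_lit 1920, nat_lit 6480, nat_lit 6480, R11_40, R5_135, R5_135⟩]⟩]⟩], [⟨nat_lit 1, [⟨nat_lit 4, [⟨nat_lit 4, nat_lit 8400, nat_lit 6288, nat_lit 8928, nat_lit 9840, nat_lit 15216, R5_186, R8_205, R4_317⟩]⟩, ⟨nat_lit 6, [⟨nat_lit 4, nat_lit 8448, nat_lit 6432, nat_lit 2064, nat_lit 9888, nat_lit 17232, R11_43, R8_206, R5_359⟩, ⟨nat_lit 6, nat_lit 8496, nat_lit 7296, nat_lit 2112, nat_lit 7584, nat_lit 6096, R11_44, R5_158, R11_127⟩]⟩]⟩], [⟨nat_lit 1, [⟨nat_lit 4, [⟨nat_lit 4, nat_lit 13440, nat_lit 6096, nat_lit 9696, nat_lit 6672, nat_lit 16992, R5_202, R8_139, R8_354⟩, ⟨nat_lit 5, nat_lit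 13488, nat_lit 6768, nat_lit 11952, nat_lit 7008, nat_lit 11952, R5_249, R9_146, R5_249⟩]⟩, ⟨nat_lit 5, [⟨nat_lit 4, nat_lit 13536, nat_lit 6144, nat_lit 1152, nat_lit 6816, nat_lit 2496, R0_24, R8_142, R5_52⟩, ⟨nat_lit 5, nat_lit 13584, nat_lit 6816, nat_lit 1200, nat_lit 7152, nat_lit 14928, R0_25, R9_149, R11_311⟩]⟩, ⟨nat_lit 6, [⟨nat_lit 4, nat_lit 13632, nat_lit 6192, nat_lit 2400, nat_lit 6720, nat_lit 2736, R11_50, R8_140, R9_57⟩, ⟨nat_lit 5, nat_lit 13680, nat_lit 6912, nat_lit 2496, nat_lit 7056, nat_lit 1200, R11_52, R9_147, R0_25⟩, ⟨nat_lit 6, nat_lit 13728, nat_lit 7392, nat_lit 2448, nat_lit 6864, nat_lit 14688, R11_51, R5_143, R0_306⟩]⟩]⟩]], [[⟨nat_lit 1, [⟨nat_lit 4, [⟨nat_lit 4, nat_lit 1968, nat_lit 4704, nat_lit 8448, nat_lit 16896, nat_lit 10272, R5_176, R5_352, R6_214⟩]⟩, ⟨nat_lit 5, [⟨nat_lit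 4, nat_lit 2016, nat_lit 5376, nat_lit 5904, nat_lit 17616, nat_lit 11328, R0_123, R5_367, R4_236⟩]⟩, ⟨nat_lit 6, [⟨nat_lit 4, nat_lit 2064, nat_lit 6432, nat_lit 8448, nat_lit 17232, nat_lit 10896, R11_176, R5_359, R8_227⟩, ⟨nat_lit 6, nat_lit 2112, nat_lit 7296, nat_lit 8496, nat_lit 6096, nat_lit 7584, R11_177, R11_127, R5_158⟩]⟩]⟩,
 ⟨nat_lit 5, [⟨nat_lit 6, [⟨nat_lit 6, nat_lit 2160, nat_lit 7344, nat_lit 8784, nat_lit 16368, nat_lit 7536, R1_183, R1_341, R5_157⟩]⟩]⟩], [⟨nat_lit 1, [⟨nat_lit 4, [⟨nat_lit 4, nat_lit 8544, nat_lit 4704, nat_lit 9024, nat_lit 17088, nat_lit 15504, R5_188, R5_356, R4_323⟩]⟩, ⟨nat_lit 6, [⟨nat_lit 4, nat_lit 8592, nat_lit 6048, nat_lit 8592, nat_lit 17520, nat_lit 17520, R11_179, R5_365, R5_365⟩, ⟨nat_lit 6, nat_lit 8640, nat_lit 6912, nat_lit 8640, nat_lit 7200, nat_lit 7200,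 R11_180, R11_150, R11_150⟩]⟩]⟩,
 ⟨nat_lit 5, [⟨nat_lit 6, [⟨nat_lit 6, nat_lit 8688, nat_lit 6960, nat_lit 8832, nat_lit 16512, nat_lit 7152, R1_184, R1_344, R11_149⟩]⟩]⟩], [⟨nat_lit 1, [⟨nat_lit 4, [⟨nat_lit 4, nat_lit 13920, nat_lit 3936, nat_lit 9744, nat_lit 17040, nat_lit 17520, R5_203, R5_355, R8_365⟩, ⟨nat_lit 5, nat_lit 13968, nat_lit 4608, nat_lit 12000, nat_lit 4848, nat_lit 12048, R5_250, R0_101, R5_251⟩]⟩, ⟨nat_lit 5, [⟨nat_lit 4, nat_lit 14016, nat_lit 3984, nat_lit 6288, nat_lit 17760, nat_lit 13584, R0_131, R5_370, R5_283⟩, ⟨nat_lit 5, nat_lit 14064, nat_lit 4656, nat_lit 6336, nat_lit 4992, nat_lit 15024, R0_132, R0_104, R11_313⟩]⟩, ⟨nat_lit 6, [⟨nat_lit 4, nat_lit 14112, nat_lit 4032, nat_lit 8832, nat_lit 17424, nat_lit 11616, R11_184, R5_363, R9_242⟩, ⟨nat_lit 5, nat_lit 14160, nat_lit 4752,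 nat_lit 8928, nat_lit 4896, nat_lit 10416, R11_186, R0_102, R0_217⟩, ⟨nat_lit 6, nat_lit 14208, nat_lit 5232, nat_lit 8880, nat_lit 6480, nat_lit 15264, R11_185, R11_135, R0_318⟩]⟩]⟩,
 ⟨nat_lit 5, [⟨nat_lit 6, [⟨nat_lit 6, nat_lit 14256, nat_lit 13968, nat_lit 8880, nat_lit 16416, nat_lit 10128, R1_185, R1_342, R0_211⟩]⟩]⟩]], [[], [], [⟨nat_lit 1, [⟨nat_lit 4, [⟨nat_lit 5, nat_lit 13776, nat_lit 4848, nat_lit 12048, nat_lit 4608, nat_lit 12000, R5_251, R0_96, R5_250⟩]⟩, ⟨nat_lit 5, [⟨nat_lit 5, nat_lit 13824, nat_lit 4896, nat_lit 10416, nat_lit 4752, nat_lit 14976, R0_217, R0_99, R11_312⟩]⟩, ⟨nat_lit 6, [⟨nat_lit 5, nat_lit 13872, nat_lit 4992, nat_lit 16800, nat_lit 4656, nat_lit 6336, R11_350, R0_97, R0_132⟩]⟩]⟩]], [[⟨nat_lit 1, [⟨nat_lit 4, [⟨nat_lit 4, nat_lit 2208, nat_lit 3888, nat_lit 8400, nat_lit 16224,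 nat_lit 7152, R5_175, R9_338, R6_149⟩, ⟨nat_lit 7, nat_lit 2256, nat_lit 4320, nat_lit 10320, nat_lit 384, nat_lit 9264, R5_215, R0_8, R13_193⟩]⟩, ⟨nat_lit 5, [⟨nat_lit 4, nat_lit 2304, nat_lit 4800, nat_lit 8496, nat_lit 17856, nat_lit 7824, R0_177, R9_372, R4_163⟩, ⟨nat_lit 7, nat_lit 2352, nat_lit 5184, nat_lit 8592, nat_lit 2064, nat_lit 7344, R0_179, R0_43, R3_153⟩]⟩, ⟨nat_lit 6, [⟨nat_lit 4, nat_lit 2400, nat_lit 6192, nat_lit 13632, nat_lit 17088, nat_lit 8928, R11_284, R9_356, R8_186⟩, ⟨nat_lit 6, nat_lit 2448, nat_lit 7392, nat_lit 13728, nat_lit 14688, nat_lit 6864, R11_286, R0_306, R5_143⟩, ⟨nat_lit 7, nat_lit 2496, nat_lit 6912, nat_lit 13680, nat_lit 1200, nat_lit 7056, R11_285, R0_25, R9_147⟩]⟩]⟩], [⟨nat_lit 1, [⟨nat_lit 4, [⟨nat_lit 4, nat_lit 8736, nat_lit 2352, nat_lit 8976, nat_lit 16752, nat_lit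 15360, R5_187, R9_349, R4_320⟩, ⟨nat_lit 7, nat_lit 8784, nat_lit 2784, nat_lit 10560, nat_lit 9984, nat_lit 9552, R5_220, R0_208, R3_199⟩]⟩, ⟨nat_lit 6, [⟨nat_lit 4, nat_lit 8832, nat_lit 4032, nat_lit 14112, nat_lit 17664, nat_lit 17424, R11_294, R9_368, R5_363⟩, ⟨nat_lit 6, nat_lit 8880, nat_lit 5232, nat_lit 14208, nat_lit 15264, nat_lit 6480, R11_296, R0_318, R11_135⟩, ⟨nat_lit 7, nat_lit 8928, nat_lit 4752, nat_lit 14160, nat_lit 10416, nat_lit 4896, R11_295, R0_217, R0_102⟩]⟩]⟩]]], [[[⟨nat_lit 0, [⟨nat_lit 5, [⟨nat_lit 4, nat_lit 1344, nat_lit 960, nat_lit 4752, nat_lit 10416, nat_lit 480, R5_99, R6_217, R4_10⟩]⟩]⟩,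
 ⟨nat_lit 2, [⟨nat_lit 5, [⟨nat_lit 4, nat_lit 1440, nat_lit 1392, nat_lit 4752, nat_lit 4416, nat_lit 528, R11_99, R4_92, R4_11⟩]⟩]⟩], [], [⟨nat_lit 0, [⟨nat_lit 5, [⟨nat_lit 4, nat_lit 12624, nat_lit 288, nat_lit 4800, nat_lit 10464, nat_lit 1920, R5_100, R6_218, R5_40⟩, ⟨nat_lit 5, nat_lit 12768, nat_lit 6480, nat_lit 6480, nat_lit 10128, nat_lit 12768, R5_135, R8_211, R11_266⟩]⟩]⟩,
 ⟨nat_lit 1, [⟨nat_lit 5, [⟨nat_lit 4, nat_lit 12672, nat_lit 384, nat_lit 14544, nat_lit 6864, nat_lit 2448, R0_303, R8_143, R5_51⟩, ⟨nat_lit 5, nat_lit 12816, nat_lit 6864, nat_lit 14688, nat_lit 10608, nat_lit 13200, R0_306, R9_221, R11_275⟩]⟩]⟩,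
 ⟨nat_lit 2, [⟨nat_lit 5, [⟨nat_lit 4, nat_lit 12720, nat_lit 624, nat_lit 4800, nat_lit 10704, nat_lit 2112, R11_100, R4_223, R5_44⟩, ⟨nat_lit 5, nat_lit 12864, nat_lit 7584, nat_lit 6096, nat_lit 7296, nat_lit 12912, R11_127, R5_152, R11_269⟩]⟩]⟩]], [], [[], [], [⟨nat_lit 0, [⟨nat_lit 5, [⟨nat_lit 5, nat_lit 12912, nat_lit 21936, nat_lit 7584, nat_lit 7296, nat_lit 12864, R5_158, R5_152, R11_268⟩]⟩]⟩,
 ⟨nat_lit 1, [⟨nat_lit 5, [⟨nat_lit 5, nat_lit 12960, nat_lit 22128, nat_lit 15264, nat_lit 5232, nat_lit 13248, R0_318, R0_109, R11_276⟩]⟩]⟩,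
 ⟨nat_lit 2, [⟨nat_lit 5, [⟨nat_lit 5, nat_lit 13008, nat_lit 22224, nat_lit 7200, nat_lit 6912, nat_lit 13008, R11_150, R11_144, R11_271⟩]⟩]⟩], [], [], [], [⟨nat_lit 0, [⟨nat_lit 5, [⟨nat_lit 5, nat_lit 21600, nat_lit 16368, nat_lit 7536, nat_lit 7344, nat_lit 8784, R5_157, R5_153, R1_183⟩]⟩]⟩,
 ⟨nat_lit 1, [⟨nat_lit 5, [⟨nat_lit 5, nat_lit 21648, nat_lit 16416, nat_lit 10128, nat_lit 13968, nat_lit 8880, R0_211, R0_291, R1_185⟩]⟩]⟩,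
 ⟨nat_lit 2, [⟨nat_lit 1, [⟨nat_lit 1, nat_lit 21504, nat_lit 16320, nat_lit 7152, nat_lit 5760, nat_lit 15408, R1_149, R1_120, R1_321⟩]⟩, ⟨nat_lit 5, [⟨nat_lit 1, nat_lit 21552, nat_lit 16464, nat_lit 9216, nat_lit 5712, nat_lit 10176, R11_192, R1_119, R10_212⟩, ⟨nat_lit 5, nat_lit 21696, nat_lit 16512, nat_lit 7152, nat_lit 6960, nat_lit 8832, R11_149, R11_145, R1_184⟩]⟩]⟩]], [[⟨nat_lit 0, [⟨nat_lit 5, [⟨nat_lit 4, nat_lit 1488, nat_lit 4656, nat_lit 5040, nat_lit 9504, nat_lit 6864, R5_105, R13_198, R4_143⟩, ⟨nat_lit 7, nat_lit 1632, nat_lit 5328, nat_lit 5760, nat_lit 9984, nat_lit 5712, R5_120, R3_208, R3_119⟩]⟩]⟩,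
 ⟨nat_lit 2, [⟨nat_lit 5, [⟨nat_lit 4, nat_lit 1584, nat_lit 4752, nat_lit 5040, nat_lit 17568, nat_lit 6912, R11_105, R3_366, R4_144⟩, ⟨nat_lit 7, nat_lit 1728, nat_lit 5424, nat_lit 5376, nat_lit 6576, nat_lit 5760, R11_112, R10_137, R3_120⟩]⟩]⟩], [], [⟨nat_lit 0, [⟨nat_lit 5, [⟨nat_lit 4, nat_lit 13056, nat_lit 14592, nat_lit 5088, nat_lit 9552, nat_lit 10464, R5_106, R13_199, R5_218⟩, ⟨nat_lit 5, nat_lit 13200, nat_lit 14688, nat_lit 6864, nat_lit 7392, nat_lit 12816, R5_143, R9_154, R11_267⟩, ⟨nat_lit 7, nat_lit 13296, nat_lit 14640, nat_lit 5856, nat_lit 10176, nat_lit 8064, R5_122, R3_212, R0_168⟩]⟩]⟩,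
 ⟨nat_lit 1, [⟨nat_lit 5, [⟨nat_lit 4, nat_lit 13104, nat_lit 15024, nat_lit 14832, nat_lit 18192, nat_lit 11280, R0_309, R9_379, R5_235⟩, ⟨nat_lit 7, nat_lit 13344, nat_lit 15072, nat_lit 14976, nat_lit 9264, nat_lit 8208, R0_312, R0_193, R0_171⟩]⟩]⟩,
 ⟨nat_lit 2, [⟨nat_lit 5, [⟨nat_lit 4, nat_lit 13152, nat_lit 15168, nat_lit 5088, nat_lit 17952, nat_lit 10944, R11_106, R3_374, R5_228⟩, ⟨nat_lit 5, nat_lit 13248, nat_lit 15264, nat_lit 6480, nat_lit 5232, nat_lit 12960, R11_135, R0_109, R11_270⟩, ⟨nat_lit 7, nat_lit 13392, nat_lit 15216, nat_lit 5472, nat_lit 6672, nat_lit 8112, R11_114, R10_139, R0_169⟩]⟩]⟩], [⟨nat_lit 0, [⟨nat_lit 5, [⟨nat_lit 7, nat_lit 16560, nat_lit 19728, nat_lit 5808, nat_lit 10128, nat_lit 9984, R5_121, R3_211, R10_208⟩]⟩]⟩,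
 ⟨nat_lit 2, [⟨nat_lit 5, [⟨nat_lit 7, nat_lit 16656, nat_lit 20016, nat_lit 5424, nat_lit 6624, nat_lit 10128, R11_113, R10_138, R10_211⟩]⟩]⟩]], [[], [], [], [], [⟨nat_lit 2, [⟨nat_lit 1, [⟨nat_lit 0, nat_lit 17904, nat_lit 1824, nat_lit 6816, nat_lit 4320, nat_lit 720, R1_142, R4_90, R7_15⟩, ⟨nat_lit 3, nat_lit 17952, nat_lit 8544, nat_lit 6912, nat_lit 720, nat_lit 2112, R1_144, R5_15, R2_44⟩]⟩, ⟨nat_lit 5, [⟨nat_lit 0, nat_lit 18000, nat_lit 1392, nat_lit 7728, nat_lit 4416, nat_lit 528, R11_161, R4_92, R4_11⟩]⟩]⟩], [], [], [⟨nat_lit 2, [⟨nat_lit 1, [⟨nat_lit 3, nat_lit 21840, nat_lit 7152, nat_lit 6960, nat_lit 7680, nat_lit 1584, R1_145, R5_160, R1_33⟩]⟩, ⟨nat_lit 5, [⟨nat_lit 0, nat_lit 21888, nat_lit 624, nat_lit 7776, nat_lit 10704, nat_lit 2112, R11_162, R4_223, R5_44⟩, ⟨nat_lit 3, nat_lit 21936, nat_lit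 7584, nat_lit 8496, nat_lit 7296, nat_lit 12912, R11_177, R5_152, R11_269⟩]⟩]⟩]], [], [[], [], [], [], [⟨nat_lit 2, [⟨nat_lit 1, [⟨nat_lit 0, nat_lit 18048, nat_lit 12720, nat_lit 6864, nat_lit 10704, nat_lit 6720, R1_143, R3_223, R7_140⟩, ⟨nat_lit 1, nat_lit 18096, nat_lit 13536, nat_lit 7200, nat_lit 6720, nat_lit 4896, R1_150, R10_140, R2_102⟩, ⟨nat_lit 3, nat_lit 18144, nat_lit 13056, nat_lit 7056, nat_lit 5376, nat_lit 9888, R1_147, R0_112, R2_206⟩]⟩, ⟨nat_lit 5, [⟨nat_lit 0, nat_lit 18192, nat_lit 4752, nat_lit 8208, nat_lit 17568, nat_lit 6912, R11_171, R3_366, R4_144⟩, ⟨nat_lit 1, nat_lit 18240, nat_lit 5424, nat_lit 9984, nat_lit 6576, nat_lit 5760, R11_208, R10_137, R3_120⟩]⟩]⟩], [], [⟨nat_lit 2, [⟨nat_lit 1, [⟨nat_lit 1, nat_lit 21408, nat_lit 19968, nat_lit 7248, nat_lit 6768, nat_lit 3600, R1_151,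 R10_141, R1_75⟩]⟩, ⟨nat_lit 5, [⟨nat_lit 1, nat_lit 21456, nat_lit 20016, nat_lit 10080, nat_lit 6624, nat_lit 10128, R11_210, R10_138, R10_211⟩]⟩]⟩], [⟨nat_lit 2, [⟨nat_lit 1, [⟨nat_lit 3, nat_lit 21984, nat_lit 15120, nat_lit 7104, nat_lit 5424, nat_lit 10704, R1_148, R0_113, R1_223⟩]⟩, ⟨nat_lit 5, [⟨nat_lit 0, nat_lit 22032, nat_lit 15168, nat_lit 8256, nat_lit 17952, nat_lit 10944, R11_172, R3_374, R5_228⟩, ⟨nat_lit 1, nat_lit 22080, nat_lit 15216, nat_lit 10032, nat_lit 6672, nat_lit 8112, R11_209, R10_139, R0_169⟩, ⟨nat_lit 3, nat_lit 22128, nat_lit 15264, nat_lit 8880, nat_lit 5232, nat_lit 12960, R11_185, R0_109, R11_270⟩]⟩]⟩]], [[], [], [], [⟨nat_lit 0, [⟨nat_lit 5, [⟨nat_lit 7, nat_lit 16464, nat_lit 16176, nat_lit 5952, nat_lit 7008, nat_lit 10032, R5_124, R2_146, R10_209⟩]⟩]⟩,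
 ⟨nat_lit 2, [⟨nat_lit 5, [⟨nat_lit 3, nat_lit 16416, nat_lit 16512, nat_lit 8688, nat_lit 6960, nat_lit 8832, R11_181, R11_145, R1_184⟩, ⟨nat_lit 7, nat_lit 16512, nat_lit 16464, nat_lit 5568, nat_lit 5712, nat_lit 10176, R11_116, R1_119, R10_212⟩]⟩]⟩], [], [], [], [⟨nat_lit 2, [⟨nat_lit 1, [⟨nat_lit 3, nat_lit 22176, nat_lit 22176, nat_lit 7008, nat_lit 7296, nat_lit 7008, R1_146, R11_152, R1_146⟩]⟩, ⟨nat_lit 5, [⟨nat_lit 3, nat_lit 22224, nat_lit 22224, nat_lit 8640, nat_lit 6912, nat_lit 13008, R11_180, R11_144, R11_271⟩]⟩]⟩]]], [[], [], [], [[⟨nat_lit 0, [⟨nat_lit 4, [⟨nat_lit 4, nat_lit 3264, nat_lit 96, nat_lit 5712, nat_lit 5376, nat_lit 6048, R13_119, R13_112, R6_126⟩, ⟨nat_lit 7, nat_lit 3456, nat_lit 3840, nat_lit 7440, nat_lit 3840, nat_lit 7440, R13_155, R3_80, R13_155⟩]⟩, ⟨nat_lit 5, [⟨nat_lit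 4, nat_lit 3600, nat_lit 816, nat_lit 4464, nat_lit 8976, nat_lit 6384, R9_93, R13_187, R4_133⟩, ⟨nat_lit 7, nat_lit 3744, nat_lit 6144, nat_lit 5472, nat_lit 7248, nat_lit 6240, R9_114, R3_151, R3_130⟩]⟩, ⟨nat_lit 6, [⟨nat_lit 4, nat_lit 3840, nat_lit 2352, nat_lit 3984, nat_lit 6960, nat_lit 8208, R3_83, R13_145, R8_171⟩, ⟨nat_lit 6, nat_lit 3984, nat_lit 9984, nat_lit 5712, nat_lit 5328, nat_lit 5760, R3_119, R3_111, R5_120⟩, ⟨nat_lit 7, nat_lit 4128, nat_lit 7248, nat_lit 6240, nat_lit 6144, nat_lit 5472, R3_130, R3_128, R9_114⟩]⟩, ⟨nat_lit 7, [⟨nat_lit 7, nat_lit 4224, nat_lit 5568, nat_lit 4992, nat_lit 5568, nat_lit 4992, R3_104, R3_116, R3_104⟩]⟩]⟩,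
 ⟨nat_lit 1, [⟨nat_lit 4, [⟨nat_lit 4, nat_lit 3312, nat_lit 528, nat_lit 8112, nat_lit 16176, nat_lit 6480, R9_169, R9_337, R6_135⟩, ⟨nat_lit 7, nat_lit 3504, nat_lit 4128, nat_lit 8928, nat_lit 288, nat_lit 7536, R9_186, R0_6, R13_157⟩]⟩, ⟨nat_lit 6, [⟨nat_lit 4, nat_lit 3888, nat_lit 2640, nat_lit 7344, nat_lit 17040, nat_lit 8880, R0_153, R9_355, R8_185⟩, ⟨nat_lit 6, nat_lit 4032, nat_lit 10176, nat_lit 8064, nat_lit 14640, nat_lit 5856, R0_168, R0_305, R5_122⟩, ⟨nat_lit 7, nat_lit 4176, nat_lit 7392, nat_lit 8448, nat_lit 1104, nat_lit 5520, R0_176, R0_23, R9_115⟩]⟩, ⟨nat_lit 7, [⟨nat_lit 7, nat_lit 4272, nat_lit 5856, nat_lit 12048, nat_lit 528, nat_lit 5280, R0_251, R0_11, R3_110⟩]⟩]⟩,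
 ⟨nat_lit 2, [⟨nat_lit 4, [⟨nat_lit 4, nat_lit 3360, nat_lit 672, nat_lit 8592, nat_lit 16176, nat_lit 6240, R3_179, R3_337, R6_130⟩, ⟨nat_lit 7, nat_lit 3552, nat_lit 4272, nat_lit 8928, nat_lit 3792, nat_lit 7488, R3_186, R10_79, R13_156⟩]⟩, ⟨nat_lit 5, [⟨nat_lit 4, nat_lit 3648, nat_lit 1152, nat_lit 2928, nat_lit 17520, nat_lit 6576, R0_61, R3_365, R4_137⟩, ⟨nat_lit 7, nat_lit 3792, nat_lit 6336, nat_lit 3312, nat_lit 6336, nat_lit 6288, R0_69, R10_132, R3_131⟩]⟩, ⟨nat_lit 7, [⟨nat_lit 7, nat_lit 4320, nat_lit 6000, nat_lit 4848, nat_lit 4464, nat_lit 5040, R10_101, R10_93, R3_105⟩]⟩]⟩,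
 ⟨nat_lit 3, [⟨nat_lit 4, [⟨nat_lit 4, nat_lit 3408, nat_lit 240, nat_lit 11520, nat_lit 2976, nat_lit 6192, R3_240, R3_62, R6_129⟩]⟩, ⟨nat_lit 5, [⟨nat_lit 4, nat_lit 3696, nat_lit 960, nat_lit 2448, nat_lit 3600, nat_lit 6528, R0_51, R3_75, R4_136⟩]⟩, ⟨nat_lit 6, [⟨nat_lit 4, nat_lit 3936, nat_lit 2496, nat_lit 9072, nat_lit 3312, nat_lit 8400, R10_189, R3_69, R8_175⟩, ⟨nat_lit 6, nat_lit 4080, nat_lit 10128, nat_lit 9984, nat_lit 19728, nat_lit 5808, R10_208, R10_411, R5_121⟩]⟩]⟩], [⟨nat_lit 0, [⟨nat_lit 4, [⟨nat_lit 4, nat_lit 9504, nat_lit 3168, nat_lit 5760, nat_lit 5472, nat_lit 12336, R13_120, R13_114, R4_257⟩, ⟨nat_lit 7, nat_lit 9696, nat_lit 3792, nat_lit 7488, nat_lit 4272, nat_lit 8928, R13_156, R3_89, R3_186⟩]⟩, ⟨nat_lit 6, [⟨nat_lit 4, nat_lit 9840, nat_lit 5856, nat_lit 4032, nat_lit 7056, nat_lit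 14736, R3_84, R13_147, R5_307⟩, ⟨nat_lit 6, nat_lit 9984, nat_lit 6576, nat_lit 5760, nat_lit 5424, nat_lit 5376, R3_120, R3_113, R11_112⟩, ⟨nat_lit 7, nat_lit 10128, nat_lit 6336, nat_lit 6288, nat_lit 6336, nat_lit 3312, R3_131, R3_132, R0_69⟩]⟩, ⟨nat_lit 7, [⟨nat_lit 7, nat_lit 10224, nat_lit 4464, nat_lit 5040, nat_lit 6000, nat_lit 4848, R3_105, R3_125, R10_101⟩]⟩]⟩,
 ⟨nat_lit 1, [⟨nat_lit 4, [⟨nat_lit 4, nat_lit 9552, nat_lit 3264, nat_lit 8304, nat_lit 16704, nat_lit 14784, R9_173, R9_348, R4_308⟩, ⟨nat_lit 7, nat_lit 9744, nat_lit 3840, nat_lit 9216, nat_lit 9936, nat_lit 9360, R9_192, R0_207, R3_195⟩]⟩, ⟨nat_lit 6, [⟨nat_lit 4, nat_lit 9888, nat_lit 5952, nat_lit 7536, nat_lit 17616, nat_lit 17376, R0_157, R9_367, R5_362⟩, ⟨nat_lit 6, nat_lit 10032, nat_lit 6672, nat_lit 8112, nat_lit 15216, nat_lit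 5472, R0_169, R0_317, R11_114⟩, ⟨nat_lit 7, nat_lit 10176, nat_lit 6384, nat_lit 8736, nat_lit 10368, nat_lit 3360, R0_182, R0_216, R0_70⟩]⟩, ⟨nat_lit 7, [⟨nat_lit 7, nat_lit 10272, nat_lit 4512, nat_lit 14160, nat_lit 10272, nat_lit 4944, R0_295, R0_214, R10_103⟩]⟩]⟩,
 ⟨nat_lit 2, [⟨nat_lit 4, [⟨nat_lit 4, nat_lit 9600, nat_lit 3312, nat_lit 8640, nat_lit 16800, nat_lit 13728, R3_180, R3_350, R4_286⟩, ⟨nat_lit 7, nat_lit 9792, nat_lit 3888, nat_lit 9072, nat_lit 3888, nat_lit 9072, R3_189, R10_81, R3_189⟩]⟩, ⟨nat_lit 7, [⟨nat_lit 7, nat_lit 10320, nat_lit 4560, nat_lit 4896, nat_lit 4560, nat_lit 4896, R10_102, R10_95, R10_102⟩]⟩]⟩,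
 ⟨nat_lit 3, [⟨nat_lit 4, [⟨nat_lit 4, nat_lit 9648, nat_lit 3216, nat_lit 15312, nat_lit 10464, nat_lit 13296, R3_319, R3_218, R4_277⟩]⟩, ⟨nat_lit 6, [⟨nat_lit 4, nat_lit 9936, nat_lit 5904, nat_lit 9360, nat_lit 10512, nat_lit 16512, R10_195, R3_219, R5_344⟩, ⟨nat_lit 6, nat_lit 10080, nat_lit 6624, nat_lit 10128, nat_lit 20016, nat_lit 5424, R10_211, R10_417, R11_113⟩]⟩]⟩], [⟨nat_lit 0, [⟨nat_lit 4, [⟨nat_lit 4, nat_lit 14304, nat_lit 192, nat_lit 5808, nat_lit 5424, nat_lit 12960, R13_121, R13_113, R8_270⟩, ⟨nat_lit 5, nat_lit 14496, nat_lit 384, nat_lit 9264, nat_lit 4320, nat_lit 10320, R13_193, R9_90, R5_215⟩, ⟨nat_lit 7, nat_lit 14640, nat_lit 288, nat_lit 7536, nat_lit 4128, nat_lit 8928, R13_157, R3_86, R9_186⟩]⟩, ⟨nat_lit 5, [⟨nat_lit 4, nat_lit 14784, nat_lit 1008, nat_lit 4512, nat_lit 9024, nat_lit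 10416, R9_94, R13_188, R5_217⟩, ⟨nat_lit 5, nat_lit 14928, nat_lit 1200, nat_lit 7056, nat_lit 6912, nat_lit 13584, R9_147, R9_144, R11_283⟩, ⟨nat_lit 7, nat_lit 15072, nat_lit 1104, nat_lit 5520, nat_lit 7392, nat_lit 8448, R9_115, R3_154, R0_176⟩]⟩, ⟨nat_lit 6, [⟨nat_lit 4, nat_lit 15168, nat_lit 1968, nat_lit 4080, nat_lit 7008, nat_lit 9072, R3_85, R13_146, R9_189⟩, ⟨nat_lit 5, nat_lit 15312, nat_lit 2064, nat_lit 7344, nat_lit 5184, nat_lit 8592, R3_153, R9_108, R0_179⟩, ⟨nat_lit 6, nat_lit 15408, nat_lit 2112, nat_lit 5808, nat_lit 5376, nat_lit 12096, R3_121, R3_112, R0_252⟩]⟩, ⟨nat_lit 7, [⟨nat_lit 7, nat_lit 15552, nat_lit 528, nat_lit 5280, nat_lit 5856, nat_lit 12048, R3_110, R3_122, R0_251⟩]⟩]⟩,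
 ⟨nat_lit 1, [⟨nat_lit 4, [⟨nat_lit 4, nat_lit 14352, nat_lit 7728, nat_lit 8592, nat_lit 16608, nat_lit 17280, R9_179, R9_346, R8_360⟩, ⟨nat_lit 7, nat_lit 14688, nat_lit 7872, nat_lit 9696, nat_lit 7872, nat_lit 9696, R9_202, R0_164, R9_202⟩]⟩, ⟨nat_lit 6, [⟨nat_lit 4, nat_lit 15216, nat_lit 9120, nat_lit 7824, nat_lit 17472, nat_lit 9840, R0_163, R9_364, R9_205⟩, ⟨nat_lit 6, nat_lit 15456, nat_lit 9264, nat_lit 8208, nat_lit 15072, nat_lit 14976, R0_171, R0_314, R0_312⟩]⟩, ⟨nat_lit 7, [⟨nat_lit 7, nat_lit 15600, nat_lit 8256, nat_lit 14928, nat_lit 8256, nat_lit 14928, R0_311, R0_172, R0_311⟩]⟩]⟩,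
 ⟨nat_lit 2, [⟨nat_lit 4, [⟨nat_lit 4, nat_lit 14400, nat_lit 9888, nat_lit 8736, nat_lit 16608, nat_lit 14016, R3_182, R3_346, R8_292⟩, ⟨nat_lit 5, nat_lit 14544, nat_lit 9984, nat_lit 9552, nat_lit 2784, nat_lit 10560, R3_199, R0_58, R5_220⟩, ⟨nat_lit 7, nat_lit 14736, nat_lit 9936, nat_lit 9360, nat_lit 3840, nat_lit 9216, R3_195, R10_80, R9_192⟩]⟩, ⟨nat_lit 5, [⟨nat_lit 4, nat_lit 14832, nat_lit 10320, nat_lit 2976, nat_lit 17904, nat_lit 10896, R0_62, R3_373, R5_227⟩, ⟨nat_lit 5, nat_lit 14976, nat_lit 10416, nat_lit 4896, nat_lit 4752, nat_lit 13824, R0_102, R0_99, R11_288⟩, ⟨nat_lit 7, nat_lit 15120, nat_lit 10368, nat_lit 3360, nat_lit 6384, nat_lit 8736, R0_70, R10_133, R0_182⟩]⟩, ⟨nat_lit 7, [⟨nat_lit 7, nat_lit 15648, nat_lit 10272, nat_lit 4944, nat_lit 4512, nat_lit 14160, R10_103, R10_94, R0_295⟩]⟩]⟩,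
 ⟨nat_lit 3, [⟨nat_lit 4, [⟨nat_lit 4, nat_lit 14448, nat_lit 5712, nat_lit 16512, nat_lit 8784, nat_lit 14688, R3_344, R3_183, R8_306⟩, ⟨nat_lit 5, nat_lit 14592, nat_lit 5808, nat_lit 17808, nat_lit 3024, nat_lit 10800, R3_371, R0_63, R5_225⟩]⟩, ⟨nat_lit 5, [⟨nat_lit 4, nat_lit 14880, nat_lit 6240, nat_lit 2736, nat_lit 9600, nat_lit 10608, R0_57, R3_200, R5_221⟩, ⟨nat_lit 5, nat_lit 15024, nat_lit 6336, nat_lit 4656, nat_lit 4992, nat_lit 14064, R0_97, R0_104, R11_293⟩]⟩, ⟨nat_lit 6, [⟨nat_lit 4, nat_lit 15264, nat_lit 7008, nat_lit 9696, nat_lit 9408, nat_lit 9264, R10_202, R3_196, R9_193⟩, ⟨nat_lit 5, nat_lit 15360, nat_lit 7104, nat_lit 12000, nat_lit 3408, nat_lit 8784, R10_250, R0_71, R0_183⟩, ⟨nat_lit 6, nat_lit 15504, nat_lit 7152, nat_lit 10272, nat_lit 19920, nat_lit 14208, R10_214, R10_415, R0_296⟩]⟩]⟩]],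 [], [], [], [[⟨nat_lit 0, [⟨nat_lit 4, [⟨nat_lit 7, nat_lit 2592, nat_lit 3792, nat_lit 8064, nat_lit 3792, nat_lit 8064, R13_168, R2_79, R13_168⟩]⟩, ⟨nat_lit 5, [⟨nat_lit 7, nat_lit 2784, nat_lit 4608, nat_lit 5856, nat_lit 6768, nat_lit 6720, R9_122, R2_141, R3_140⟩]⟩, ⟨nat_lit 6, [⟨nat_lit 7, nat_lit 3024, nat_lit 6768, nat_lit 6720, nat_lit 4608, nat_lit 5856, R3_140, R2_96, R9_122⟩]⟩, ⟨nat_lit 7, [⟨nat_lit 7, nat_lit 3168, nat_lit 5088, nat_lit 13200, nat_lit 5088, nat_lit 13200, R3_275, R2_106, R3_275⟩]⟩]⟩,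
 ⟨nat_lit 2, [⟨nat_lit 4, [⟨nat_lit 7, nat_lit 2640, nat_lit 3888, nat_lit 8976, nat_lit 3264, nat_lit 8160, R3_187, R1_68, R13_170⟩]⟩, ⟨nat_lit 5, [⟨nat_lit 7, nat_lit 2832, nat_lit 4704, nat_lit 3696, nat_lit 5472, nat_lit 6816, R0_77, R1_114, R3_142⟩]⟩, ⟨nat_lit 7, [⟨nat_lit 3, nat_lit 3120, nat_lit 5760, nat_lit 7872, nat_lit 6624, nat_lit 6048, R10_164, R11_138, R2_126⟩, ⟨nat_lit 7, nat_lit 3216, nat_lit 5136, nat_lit 5424, nat_lit 3792, nat_lit 13344, R10_113, R1_79, R3_278⟩]⟩]⟩,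
 ⟨nat_lit 3, [⟨nat_lit 4, [⟨nat_lit 4, nat_lit 2544, nat_lit 3216, nat_lit 11184, nat_lit 14592, nat_lit 12672, R3_233, R2_304, R6_264⟩, ⟨nat_lit 7, nat_lit 2688, nat_lit 3840, nat_lit 12096, nat_lit 5376, nat_lit 8112, R3_252, R12_112, R13_169⟩]⟩, ⟨nat_lit 5, [⟨nat_lit 4, nat_lit 2736, nat_lit 4080, nat_lit 12384, nat_lit 15648, nat_lit 13008, R0_258, R2_326, R4_271⟩, ⟨nat_lit 7, nat_lit 2880, nat_lit 4656, nat_lit 13344, nat_lit 5808, nat_lit 6768, R0_278, R12_121, R3_141⟩]⟩, ⟨nat_lit 6, [⟨nat_lit 4, nat_lit 2928, nat_lit 6432, nat_lit 9120, nat_lit 15168, nat_lit 15024, R10_190, R2_316, R8_313⟩, ⟨nat_lit 6, nat_lit 2976, nat_lit 7008, nat_lit 10032, nat_lit 16176, nat_lit 5952, R10_209, R1_337, R5_124⟩, ⟨nat_lit 7, nat_lit 3072, nat_lit 6816, nat_lit 10608, nat_lit 5568, nat_lit 5904, R10_221, R12_116, R9_123⟩]⟩]⟩],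 [⟨nat_lit 0, [⟨nat_lit 4, [⟨nat_lit 7, nat_lit 9024, nat_lit 3264, nat_lit 8160, nat_lit 3888, nat_lit 8976, R13_170, R2_81, R3_187⟩]⟩, ⟨nat_lit 6, [⟨nat_lit 7, nat_lit 9264, nat_lit 5472, nat_lit 6816, nat_lit 4704, nat_lit 3696, R3_142, R2_98, R0_77⟩]⟩, ⟨nat_lit 7, [⟨nat_lit 7, nat_lit 9408, nat_lit 3792, nat_lit 13344, nat_lit 5136, nat_lit 5424, R3_278, R2_107, R10_113⟩]⟩]⟩,
 ⟨nat_lit 2, [⟨nat_lit 4, [⟨nat_lit 7, nat_lit 9072, nat_lit 3360, nat_lit 9120, nat_lit 3360, nat_lit 9120, R3_190, R1_70, R3_190⟩]⟩, ⟨nat_lit 7, [⟨nat_lit 3, nat_lit 9360, nat_lit 4464, nat_lit 7968, nat_lit 6720, nat_lit 4752, R10_166, R11_140, R1_99⟩, ⟨nat_lit 7, nat_lit 9456, nat_lit 3840, nat_lit 5472, nat_lit 3840, nat_lit 5472, R10_114, R1_80, R10_114⟩]⟩]⟩,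
 ⟨nat_lit 3, [⟨nat_lit 4, [⟨nat_lit 4, nat_lit 8976, nat_lit 2688, nat_lit 15216, nat_lit 14832, nat_lit 13200, R3_317, R2_309, R4_275⟩, ⟨nat_lit 7, nat_lit 9120, nat_lit 3312, nat_lit 15552, nat_lit 5472, nat_lit 9216, R3_324, R12_114, R3_192⟩]⟩, ⟨nat_lit 6, [⟨nat_lit 4, nat_lit 9168, nat_lit 5136, nat_lit 9408, nat_lit 15456, nat_lit 16608, R10_196, R2_322, R5_346⟩, ⟨nat_lit 6, nat_lit 9216, nat_lit 5712, nat_lit 10176, nat_lit 16464, nat_lit 5568, R10_212, R1_343, R11_116⟩, ⟨nat_lit 7, nat_lit 9312, nat_lit 5520, nat_lit 10896, nat_lit 5664, nat_lit 3744, R10_227, R12_118, R0_78⟩]⟩]⟩], [], [⟨nat_lit 0, [⟨nat_lit 4, [⟨nat_lit 7, nat_lit 16896, nat_lit 16848, nat_lit 8112, nat_lit 3840, nat_lit 12096, R13_169, R2_80, R3_252⟩]⟩, ⟨nat_lit 5, [⟨nat_lit 7, nat_lit 17088, nat_lit 17040, nat_lit 5904, nat_lit 6816,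 nat_lit 10608, R9_123, R2_142, R10_221⟩]⟩, ⟨nat_lit 6, [⟨nat_lit 7, nat_lit 17232, nat_lit 17280, nat_lit 6768, nat_lit 4656, nat_lit 13344, R3_141, R2_97, R0_278⟩]⟩]⟩,
 ⟨nat_lit 2, [⟨nat_lit 4, [⟨nat_lit 3, nat_lit 16848, nat_lit 16944, nat_lit 8016, nat_lit 6576, nat_lit 9120, R3_167, R11_137, R2_190⟩, ⟨nat_lit 7, nat_lit 16944, nat_lit 16992, nat_lit 9216, nat_lit 3312, nat_lit 15552, R3_192, R1_69, R3_324⟩]⟩, ⟨nat_lit 5, [⟨nat_lit 3, nat_lit 17040, nat_lit 17136, nat_lit 6096, nat_lit 6864, nat_lit 9936, R0_127, R11_143, R1_207⟩, ⟨nat_lit 7, nat_lit 17136, nat_lit 17184, nat_lit 3744, nat_lit 5520, nat_lit 10896, R0_78, R1_115, R10_227⟩]⟩, ⟨nat_lit 7, [⟨nat_lit 3, nat_lit 17328, nat_lit 17232, nat_lit 7920, nat_lit 6672, nat_lit 6144, R10_165, R11_139, R12_128⟩]⟩]⟩,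
 ⟨nat_lit 3, [⟨nat_lit 4, [⟨nat_lit 7, nat_lit 16992, nat_lit 16896, nat_lit 14784, nat_lit 5424, nat_lit 14784, R3_308, R12_113, R3_308⟩]⟩, ⟨nat_lit 5, [⟨nat_lit 7, nat_lit 17184, nat_lit 17088, nat_lit 13536, nat_lit 5856, nat_lit 11280, R0_282, R12_122, R10_235⟩]⟩, ⟨nat_lit 6, [⟨nat_lit 7, nat_lit 17280, nat_lit 17328, nat_lit 11280, nat_lit 5616, nat_lit 13536, R10_235, R12_117, R0_282⟩]⟩]⟩]]], [[], [], [], [], [[], [⟨nat_lit 2, [⟨nat_lit 0, [⟨nat_lit 0, nat_lit 4368, nat_lit 15120, nat_lit 5856, nat_lit 15120, nat_lit 5856, R4_122, R4_315, R4_122⟩]⟩, ⟨nat_lit 3, [⟨nat_lit 0, nat_lit 4656, nat_lit 15456, nat_lit 8880, nat_lit 15456, nat_lit 8880, R5_185, R4_322, R5_185⟩, ⟨nat_lit 3, nat_lit 4704, nat_lit 15504, nat_lit 9024, nat_lit 17088, nat_lit 8544, R5_188, R5_356, R11_178⟩]⟩]⟩,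
 ⟨nat_lit 4, [⟨nat_lit 2, [⟨nat_lit 2, nat_lit 4512, nat_lit 4272, nat_lit 1152, nat_lit 2064, nat_lit 7584, R7_24, R7_43, R10_158⟩, ⟨nat_lit 6, nat_lit 4608, nat_lit 4320, nat_lit 720, nat_lit 1824, nat_lit 6816, R7_15, R4_38, R1_142⟩]⟩, ⟨nat_lit 6, [⟨nat_lit 6, nat_lit 4752, nat_lit 4416, nat_lit 528, nat_lit 1392, nat_lit 7728, R4_11, R4_29, R11_161⟩]⟩]⟩,
 ⟨nat_lit 6, [⟨nat_lit 0, [⟨nat_lit 0, nat_lit 4416, nat_lit 11856, nat_lit 5568, nat_lit 17568, nat_lit 12432, R7_116, R7_366, R4_259⟩, ⟨nat_lit 2, nat_lit 4464, nat_lit 11904, nat_lit 6000, nat_lit 13200, nat_lit 1488, R7_125, R14_275, R3_31⟩]⟩, ⟨nat_lit 2, [⟨nat_lit 2, nat_lit 4560, nat_lit 12048, nat_lit 17568, nat_lit 13248, nat_lit 7632, R14_366, R14_276, R10_159⟩]⟩]⟩,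
 ⟨nat_lit 7, [⟨nat_lit 6, [⟨nat_lit 6, nat_lit 4800, nat_lit 10704, nat_lit 2112, nat_lit 624, nat_lit 7776, R5_44, R5_13, R11_162⟩]⟩]⟩], [], [], [], [⟨nat_lit 2, [⟨nat_lit 0, [⟨nat_lit 0, nat_lit 18288, nat_lit 17568, nat_lit 12432, nat_lit 11856, nat_lit 5568, R4_259, R4_247, R7_116⟩, ⟨nat_lit 3, nat_lit 18432, nat_lit 17664, nat_lit 12624, nat_lit 12768, nat_lit 7728, R4_263, R5_266, R2_161⟩]⟩, ⟨nat_lit 3, [⟨nat_lit 3, nat_lit 18576, nat_lit 17856, nat_lit 16416, nat_lit 12912, nat_lit 8256, R5_342, R5_269, R1_172⟩]⟩]⟩,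
 ⟨nat_lit 4, [⟨nat_lit 2, [⟨nat_lit 2, nat_lit 18480, nat_lit 4512, nat_lit 1200, nat_lit 2016, nat_lit 12336, R7_25, R7_42, R1_257⟩]⟩]⟩,
 ⟨nat_lit 6, [⟨nat_lit 0, [⟨nat_lit 0, nat_lit 18336, nat_lit 12912, nat_lit 13728, nat_lit 12912, nat_lit 13728, R7_286, R7_269, R7_286⟩, ⟨nat_lit 2, nat_lit 18384, nat_lit 13008, nat_lit 13920, nat_lit 12720, nat_lit 12576, R7_290, R14_265, R2_262⟩]⟩, ⟨nat_lit 2, [⟨nat_lit 2, nat_lit 18528, nat_lit 13152, nat_lit 17664, nat_lit 12768, nat_lit 13920, R14_368, R14_266, R1_290⟩]⟩]⟩]], [[], [⟨nat_lit 4, [⟨nat_lit 2, [⟨nat_lit 2, nat_lit 4896, nat_lit 10752, nat_lit 7152, nat_lit 624, nat_lit 7680, R7_149, R2_13, R10_160⟩, ⟨nat_lit 6, nat_lit 4992, nat_lit 10704, nat_lit 6720, nat_lit 12720, nat_lit 6864, R7_140, R3_265, R1_143⟩]⟩, ⟨nat_lit 6, [⟨nat_lit 6, nat_lit 5040, nat_lit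 17568, nat_lit 6912, nat_lit 4752, nat_lit 8208, R4_144, R3_99, R11_171⟩]⟩]⟩,
 ⟨nat_lit 6, [⟨nat_lit 0, [⟨nat_lit 2, nat_lit 4848, nat_lit 3504, nat_lit 6096, nat_lit 10464, nat_lit 1584, R7_127, R12_218, R3_33⟩]⟩, ⟨nat_lit 2, [⟨nat_lit 2, nat_lit 4944, nat_lit 10992, nat_lit 18000, nat_lit 10512, nat_lit 7728, R14_375, R12_219, R10_161⟩]⟩]⟩,
 ⟨nat_lit 7, [⟨nat_lit 6, [⟨nat_lit 6, nat_lit 5088, nat_lit 17952, nat_lit 10944, nat_lit 15168, nat_lit 8256, R5_228, R0_316, R11_172⟩]⟩]⟩], [], [], [], [⟨nat_lit 4, [⟨nat_lit 2, [⟨nat_lit 2, nat_lit 18672, nat_lit 2928, nat_lit 7200, nat_lit 576, nat_lit 12432, R7_150, R2_12, R1_259⟩]⟩]⟩,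
 ⟨nat_lit 6, [⟨nat_lit 0, [⟨nat_lit 2, nat_lit 18624, nat_lit 11664, nat_lit 14064, nat_lit 9984, nat_lit 12672, R7_293, R12_208, R2_264⟩]⟩, ⟨nat_lit 2, [⟨nat_lit 2, nat_lit 18720, nat_lit 11808, nat_lit 18144, nat_lit 10032, nat_lit 14016, R14_378, R12_209, R1_292⟩]⟩]⟩]], [], [[], [], [], [], [], [⟨nat_lit 2, [⟨nat_lit 0, [⟨nat_lit 3, nat_lit 18864, nat_lit 14880, nat_lit 12768, nat_lit 7008, nat_lit 7872, R4_266, R11_146, R2_164⟩]⟩, ⟨nat_lit 3, [⟨nat_lit 3, nat_lit 19056, nat_lit 15504, nat_lit 16752, nat_lit 7104, nat_lit 8400, R5_349, R11_148, R1_175⟩]⟩]⟩,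
 ⟨nat_lit 4, [⟨nat_lit 2, [⟨nat_lit 2, nat_lit 18960, nat_lit 2976, nat_lit 8064, nat_lit 528, nat_lit 12384, R7_168, R2_11, R1_258⟩]⟩]⟩,
 ⟨nat_lit 6, [⟨nat_lit 0, [⟨nat_lit 0, nat_lit 18768, nat_lit 10560, nat_lit 13776, nat_lit 10560, nat_lit 13776, R7_287, R2_220, R7_287⟩, ⟨nat_lit 2, nat_lit 18816, nat_lit 10704, nat_lit 13968, nat_lit 1824, nat_lit 12624, R7_291, R12_38, R2_263⟩, ⟨nat_lit 3, nat_lit 18912, nat_lit 10656, nat_lit 13824, nat_lit 10944, nat_lit 14064, R7_288, R1_228, R2_293⟩]⟩, ⟨nat_lit 2, [⟨nat_lit 2, nat_lit 19008, nat_lit 11856, nat_lit 18240, nat_lit 1968, nat_lit 13968, R14_380, R12_41, R1_291⟩]⟩]⟩]]], [[], [[], [⟨nat_lit 5, [⟨nat_lit 2, [⟨nat_lit 6, nat_lit 5520, nat_lit 5760, nat_lit 15408, nat_lit 16320, nat_lit 7152, R1_321, R1_340, R1_149⟩]⟩, ⟨nat_lit 6, [⟨nat_lit 6, nat_lit 5568,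 nat_lit 5712, nat_lit 18672, nat_lit 16464, nat_lit 9216, R10_389, R1_343, R11_192⟩]⟩]⟩]], [], [], [], [[], [⟨nat_lit 4, [⟨nat_lit 2, [⟨nat_lit 2, nat_lit 5136, nat_lit 2352, nat_lit 5376, nat_lit 6336, nat_lit 8112, R2_112, R2_132, R10_169⟩, ⟨nat_lit 6, nat_lit 5280, nat_lit 2400, nat_lit 4896, nat_lit 13536, nat_lit 7200, R2_102, R3_282, R1_150⟩]⟩, ⟨nat_lit 6, [⟨nat_lit 6, nat_lit 5376, nat_lit 2640, nat_lit 5760, nat_lit 5424, nat_lit 9984, R3_120, R3_113, R11_208⟩]⟩]⟩,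
 ⟨nat_lit 5, [⟨nat_lit 2, [⟨nat_lit 2, nat_lit 5184, nat_lit 8448, nat_lit 4080, nat_lit 5040, nat_lit 8208, R1_85, R1_105, R10_171⟩, ⟨nat_lit 6, nat_lit 5328, nat_lit 8496, nat_lit 3600, nat_lit 5616, nat_lit 7248, R1_75, R10_117, R1_151⟩]⟩, ⟨nat_lit 6, [⟨nat_lit 6, nat_lit 5424, nat_lit 8640, nat_lit 4176, nat_lit 5136, nat_lit 10080, R10_87, R10_107, R11_210⟩]⟩]⟩,
 ⟨nat_lit 6, [⟨nat_lit 2, [⟨nat_lit 2, nat_lit 5232, nat_lit 13104, nat_lit 15120, nat_lit 10896, nat_lit 8160, R12_315, R12_227, R10_170⟩]⟩]⟩,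
 ⟨nat_lit 7, [⟨nat_lit 6, [⟨nat_lit 6, nat_lit 5472, nat_lit 12096, nat_lit 8112, nat_lit 15216, nat_lit 10032, R0_169, R0_317, R11_209⟩]⟩]⟩], [], [], [], [⟨nat_lit 4, [⟨nat_lit 2, [⟨nat_lit 2, nat_lit 20784, nat_lit 2400, nat_lit 5424, nat_lit 6288, nat_lit 12528, R2_113, R2_131, R1_261⟩]⟩]⟩,
 ⟨nat_lit 5, [⟨nat_lit 2, [⟨nat_lit 2, nat_lit 20832, nat_lit 7776, nat_lit 4128, nat_lit 4992, nat_lit 15888, R1_86, R1_104, R1_331⟩]⟩]⟩,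
 ⟨nat_lit 6, [⟨nat_lit 2, [⟨nat_lit 2, nat_lit 20880, nat_lit 12240, nat_lit 15264, nat_lit 10704, nat_lit 15120, R12_318, R12_223, R1_315⟩]⟩]⟩]]], [[], [], [], [], [[], [], [], [], [⟨nat_lit 2, [⟨nat_lit 1, [⟨nat_lit 0, nat_lit 17376, nat_lit 2064, nat_lit 7584, nat_lit 4272, nat_lit 1152, R10_158, R4_89, R7_24⟩, ⟨nat_lit 3, nat_lit 17472, nat_lit 8592, nat_lit 7776, nat_lit 3120, nat_lit 336, R10_162, R5_65, R2_7⟩]⟩]⟩,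
 ⟨nat_lit 6, [⟨nat_lit 1, [⟨nat_lit 0, nat_lit 17424, nat_lit 2016, nat_lit 12336, nat_lit 4512, nat_lit 1200, R1_257, R7_94, R7_25⟩]⟩]⟩], [⟨nat_lit 2, [⟨nat_lit 0, [⟨nat_lit 0, nat_lit 19104, nat_lit 11712, nat_lit 1488, nat_lit 11904, nat_lit 6000, R3_31, R4_248, R7_125⟩, ⟨nat_lit 3, nat_lit 19248, nat_lit 12144, nat_lit 7968, nat_lit 13776, nat_lit 8928, R3_166, R5_287, R2_186⟩]⟩, ⟨nat_lit 1, [⟨nat_lit 0, nat_lit 19296, nat_lit 11760, nat_lit 7632, nat_lit 12048, nat_lit 17568, R10_159, R4_251, R14_366⟩, ⟨nat_lit 3, nat_lit 19440, nat_lit 12240, nat_lit 7824, nat_lit 14256, nat_lit 1104, R10_163, R5_297, R12_23⟩]⟩, ⟨nat_lit 3, [⟨nat_lit 3, nat_lit 19536, nat_lit 12192, nat_lit 6048, nat_lit 13968, nat_lit 9744, R0_126, R5_291, R1_203⟩]⟩]⟩,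
 ⟨nat_lit 6, [⟨nat_lit 0, [⟨nat_lit 0, nat_lit 19152, nat_lit 13920, nat_lit 12576, nat_lit 13008, nat_lit 13920, R2_262, R7_271, R7_290⟩, ⟨nat_lit 2, nat_lit 19200, nat_lit 14640, nat_lit 13200, nat_lit 14928, nat_lit 13200, R2_275, R14_311, R2_275⟩]⟩, ⟨nat_lit 1, [⟨nat_lit 0, nat_lit 19344, nat_lit 13968, nat_lit 13920, nat_lit 13152, nat_lit 17664, R1_290, R7_274, R14_368⟩, ⟨nat_lit 2, nat_lit 19392, nat_lit 14688, nat_lit 14544, nat_lit 15024, nat_lit 14064, R1_303, R14_313, R12_293⟩]⟩, ⟨nat_lit 2, [⟨nat_lit 2, nat_lit 19488, nat_lit 14736, nat_lit 14064, nat_lit 14976, nat_lit 14544, R12_293, R14_312, R1_303⟩]⟩]⟩]], [[], [], [], [], [], [⟨nat_lit 6, [⟨nat_lit 0, [⟨nat_lit 2, nat_lit 20160, nat_lit 11712, nat_lit 13344, nat_lit 12000, nat_lit 13488, R2_278, R12_250, R2_281⟩]⟩, ⟨nat_lit 1, [⟨nat_lit 2, nat_lit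 20208, nat_lit 11760, nat_lit 14688, nat_lit 12096, nat_lit 14640, R1_306, R12_252, R12_305⟩]⟩, ⟨nat_lit 2, [⟨nat_lit 2, nat_lit 20256, nat_lit 11808, nat_lit 14256, nat_lit 12048, nat_lit 14832, R12_297, R12_251, R1_309⟩]⟩]⟩]], [[], [], [], [], [⟨nat_lit 2, [⟨nat_lit 1, [⟨nat_lit 0, nat_lit 17520, nat_lit 624, nat_lit 7680, nat_lit 10752, nat_lit 7152, R10_160, R3_224, R7_149⟩, ⟨nat_lit 1, nat_lit 17616, nat_lit 6336, nat_lit 8112, nat_lit 6816, nat_lit 5376, R10_169, R10_142, R2_112⟩, ⟨nat_lit 3, nat_lit 17712, nat_lit 7392, nat_lit 8016, nat_lit 5472, nat_lit 7344, R10_167, R0_114, R2_153⟩]⟩]⟩,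
 ⟨nat_lit 6, [⟨nat_lit 1, [⟨nat_lit 0, nat_lit 17568, nat_lit 576, nat_lit 12432, nat_lit 2928, nat_lit 7200, R1_259, R2_61, R7_150⟩, ⟨nat_lit 1, nat_lit 17664, nat_lit 6288, nat_lit 12528, nat_lit 2400, nat_lit 5424, R1_261, R1_50, R2_113⟩]⟩]⟩], [⟨nat_lit 2, [⟨nat_lit 0, [⟨nat_lit 0, nat_lit 19584, nat_lit 10464, nat_lit 1584, nat_lit 3504, nat_lit 6096, R3_33, R3_73, R7_127⟩, ⟨nat_lit 3, nat_lit 19728, nat_lit 11328, nat_lit 8112, nat_lit 5280, nat_lit 9408, R3_169, R0_110, R2_196⟩]⟩, ⟨nat_lit 1, [⟨nat_lit 0, nat_lit 19776, nat_lit 10512, nat_lit 7728, nat_lit 10992, nat_lit 18000, R10_161, R3_229, R14_375⟩, ⟨nat_lit 1, nat_lit 19872, nat_lit 10896, nat_lit 8160, nat_lit 6912, nat_lit 15120, R10_170, R10_144, R12_315⟩, ⟨nat_lit 3, nat_lit 20016, nat_lit 11424, nat_lit 8064, nat_lit 5520, nat_lit 8976, R10_168,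 R0_115, R12_187⟩]⟩, ⟨nat_lit 3, [⟨nat_lit 3, nat_lit 20112, nat_lit 11376, nat_lit 6144, nat_lit 5328, nat_lit 10224, R0_128, R0_111, R1_213⟩]⟩]⟩,
 ⟨nat_lit 6, [⟨nat_lit 0, [⟨nat_lit 0, nat_lit 19632, nat_lit 9984, nat_lit 12672, nat_lit 11664, nat_lit 14064, R2_264, R2_243, R7_293⟩, ⟨nat_lit 2, nat_lit 19680, nat_lit 12000, nat_lit 13488, nat_lit 11712, nat_lit 13344, R2_281, R12_244, R2_278⟩]⟩, ⟨nat_lit 1, [⟨nat_lit 0, nat_lit 19824, nat_lit 10032, nat_lit 14016, nat_lit 11808, nat_lit 18144, R1_292, R2_246, R14_378⟩, ⟨nat_lit 1, nat_lit 19920, nat_lit 10704, nat_lit 15120, nat_lit 12240, nat_lit 15264, R1_315, R1_255, R12_318⟩, ⟨nat_lit 2, nat_lit 19968, nat_lit 12048, nat_lit 14832, nat_lit 11808, nat_lit 14256, R1_309, R12_246, R12_297⟩]⟩, ⟨nat_lit 2, [⟨nat_lit 2, nat_lit 20064, nat_lit 12096, nat_lit 14640,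 nat_lit 11760, nat_lit 14688, R12_305, R12_245, R1_306⟩]⟩]⟩], [⟨nat_lit 2, [⟨nat_lit 1, [⟨nat_lit 1, nat_lit 21312, nat_lit 5040, nat_lit 8208, nat_lit 6864, nat_lit 4080, R10_171, R10_143, R1_85⟩]⟩]⟩,
 ⟨nat_lit 6, [⟨nat_lit 1, [⟨nat_lit 1, nat_lit 21360, nat_lit 4992, nat_lit 15888, nat_lit 7776, nat_lit 4128, R1_331, R1_162, R1_86⟩]⟩]⟩]], [[], [], [], [], [⟨nat_lit 2, [⟨nat_lit 1, [⟨nat_lit 3, nat_lit 17808, nat_lit 5760, nat_lit 7872, nat_lit 7344, nat_lit 6048, R10_164, R11_153, R2_126⟩]⟩]⟩,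
 ⟨nat_lit 6, [⟨nat_lit 1, [⟨nat_lit 0, nat_lit 17760, nat_lit 528, nat_lit 12384, nat_lit 2976, nat_lit 8064, R1_258, R2_62, R7_168⟩, ⟨nat_lit 3, nat_lit 17856, nat_lit 6240, nat_lit 12480, nat_lit 2448, nat_lit 5472, R1_260, R1_51, R2_114⟩]⟩]⟩], [⟨nat_lit 2, [⟨nat_lit 0, [⟨nat_lit 3, nat_lit 20400, nat_lit 16944, nat_lit 8016, nat_lit 7056, nat_lit 9120, R3_167, R11_147, R2_190⟩]⟩, ⟨nat_lit 1, [⟨nat_lit 3, nat_lit 20592, nat_lit 17232, nat_lit 7920, nat_lit 7440, nat_lit 6144, R10_165, R11_155, R12_128⟩]⟩, ⟨nat_lit 3, [⟨nat_lit 3, nat_lit 20736, nat_lit 17136, nat_lit 6096, nat_lit 7248, nat_lit 9936, R0_127, R11_151, R1_207⟩]⟩]⟩,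
 ⟨nat_lit 6, [⟨nat_lit 0, [⟨nat_lit 0, nat_lit 20304, nat_lit 9840, nat_lit 12624, nat_lit 10704, nat_lit 13968, R2_263, R2_223, R7_291⟩, ⟨nat_lit 2, nat_lit 20352, nat_lit 11904, nat_lit 13248, nat_lit 11472, nat_lit 13248, R2_276, R12_239, R2_276⟩, ⟨nat_lit 3, nat_lit 20448, nat_lit 10560, nat_lit 12768, nat_lit 11088, nat_lit 14352, R2_266, R1_231, R2_299⟩]⟩, ⟨nat_lit 1, [⟨nat_lit 0, nat_lit 20496, nat_lit 9936, nat_lit 13968, nat_lit 11856, nat_lit 18240, R1_291, R2_247, R14_380⟩, ⟨nat_lit 2, nat_lit 20544, nat_lit 11952, nat_lit 14592, nat_lit 11856, nat_lit 14448, R1_304, R12_247, R12_301⟩, ⟨nat_lit 3, nat_lit 20640, nat_lit 10656, nat_lit 14112, nat_lit 12288, nat_lit 3936, R1_294, R1_256, R12_82⟩]⟩, ⟨nat_lit 2, [⟨nat_lit 2, nat_lit 20688, nat_lit 12240, nat_lit 14448, nat_lit 11616, nat_lit 14592, R12_301,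 R12_242, R1_304⟩]⟩]⟩], [], [⟨nat_lit 2, [⟨nat_lit 1, [⟨nat_lit 3, nat_lit 21744, nat_lit 4464, nat_lit 7968, nat_lit 7392, nat_lit 4752, R10_166, R11_154, R1_99⟩]⟩]⟩,
 ⟨nat_lit 6, [⟨nat_lit 1, [⟨nat_lit 3, nat_lit 21792, nat_lit 4944, nat_lit 15600, nat_lit 7824, nat_lit 4176, R1_325, R1_163, R1_87⟩]⟩]⟩]]], [[], [], [], [], [[], [⟨nat_lit 2, [⟨nat_lit 3, [⟨nat_lit 0, nat_lit 5904, nat_lit 17088, nat_lit 8544, nat_lit 15504, nat_lit 9024, R11_178, R4_323, R5_188⟩, ⟨nat_lit 3, nat_lit 6048, nat_lit 17520, nat_lit 8592, nat_lit 17520, nat_lit 8592, R11_179, R5_365, R11_179⟩]⟩, ⟨nat_lit 7, [⟨nat_lit 3, nat_lit 6144, nat_lit 17472, nat_lit 6432, nat_lit 17472, nat_lit 6432, R1_134, R5_364, R1_134⟩]⟩]⟩,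
 ⟨nat_lit 4, [⟨nat_lit 2, [⟨nat_lit 2, nat_lit 5712, nat_lit 3120, nat_lit 336, nat_lit 8592, nat_lit 7776, R2_7, R7_179, R10_162⟩, ⟨nat_lit 6, nat_lit 5808, nat_lit 720, nat_lit 2112, nat_lit 8544, nat_lit 6912, R2_44, R4_178, R1_144⟩]⟩]⟩,
 ⟨nat_lit 6, [⟨nat_lit 0, [⟨nat_lit 0, nat_lit 5616, nat_lit 12768, nat_lit 7728, nat_lit 17664, nat_lit 12624, R2_161, R7_368, R4_263⟩, ⟨nat_lit 2, nat_lit 5664, nat_lit 13776, nat_lit 8928, nat_lit 13680, nat_lit 7968, R2_186, R14_285, R3_166⟩]⟩, ⟨nat_lit 2, [⟨nat_lit 2, nat_lit 5760, nat_lit 14256, nat_lit 1104, nat_lit 13776, nat_lit 7824, R12_23, R14_287, R10_163⟩]⟩, ⟨nat_lit 3, [⟨nat_lit 0, nat_lit 5952, nat_lit 12912, nat_lit 8256, nat_lit 17856, nat_lit 16416, R1_172, R7_372, R5_342⟩, ⟨nat_lit 2, nat_lit 6000, nat_lit 13968, nat_lit 9744, nat_lit 13728, nat_lit 6048,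 R1_203, R14_286, R0_126⟩]⟩]⟩,
 ⟨nat_lit 7, [⟨nat_lit 2, [⟨nat_lit 6, nat_lit 5856, nat_lit 7680, nat_lit 1584, nat_lit 7152, nat_lit 6960, R1_33, R5_149, R1_145⟩]⟩, ⟨nat_lit 6, [⟨nat_lit 6, nat_lit 6096, nat_lit 7296, nat_lit 2112, nat_lit 7584, nat_lit 8496, R11_44, R5_158, R11_177⟩]⟩]⟩]], [[], [⟨nat_lit 4, [⟨nat_lit 2, [⟨nat_lit 2, nat_lit 6240, nat_lit 5472, nat_lit 7344, nat_lit 7392, nat_lit 8016, R2_153, R2_154, R10_167⟩, ⟨nat_lit 6, nat_lit 6336, nat_lit 5376, nat_lit 9888, nat_lit 13056, nat_lit 7056, R2_206, R3_272, R1_147⟩]⟩]⟩,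
 ⟨nat_lit 6, [⟨nat_lit 0, [⟨nat_lit 2, nat_lit 6192, nat_lit 5280, nat_lit 9408, nat_lit 11328, nat_lit 8112, R2_196, R12_236, R3_169⟩]⟩, ⟨nat_lit 2, [⟨nat_lit 2, nat_lit 6288, nat_lit 5520, nat_lit 8976, nat_lit 11424, nat_lit 8064, R12_187, R12_238, R10_168⟩]⟩, ⟨nat_lit 3, [⟨nat_lit 2, nat_lit 6432, nat_lit 5328, nat_lit 10224, nat_lit 11376, nat_lit 6144, R1_213, R12_237, R0_128⟩]⟩]⟩,
 ⟨nat_lit 7, [⟨nat_lit 2, [⟨nat_lit 6, nat_lit 6384, nat_lit 5424, nat_lit 10704, nat_lit 15120, nat_lit 7104, R1_223, R0_315, R1_148⟩]⟩, ⟨nat_lit 6, [⟨nat_lit 6, nat_lit 6480, nat_lit 5232, nat_lit 14208, nat_lit 15264, nat_lit 8880, R11_296, R0_318, R11_185⟩]⟩]⟩]], [], [[], [⟨nat_lit 0, [⟨nat_lit 7, [⟨nat_lit 7, nat_lit 7344, nat_lit 6624, nat_lit 6048, nat_lit 5760, nat_lit 7872, R2_126, R2_120, R10_164⟩]⟩]⟩,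
 ⟨nat_lit 2, [⟨nat_lit 3, [⟨nat_lit 3, nat_lit 6912, nat_lit 7200, nat_lit 8640, nat_lit 7200, nat_lit 8640, R11_180, R11_150, R11_180⟩]⟩, ⟨nat_lit 7, [⟨nat_lit 3, nat_lit 7296, nat_lit 6768, nat_lit 7008, nat_lit 6768, nat_lit 7008, R1_146, R11_141, R1_146⟩, ⟨nat_lit 7, nat_lit 7392, nat_lit 6720, nat_lit 4752, nat_lit 4464, nat_lit 7968, R1_99, R1_93, R10_166⟩]⟩]⟩,
 ⟨nat_lit 3, [⟨nat_lit 4, [⟨nat_lit 4, nat_lit 7008, nat_lit 6528, nat_lit 7872, nat_lit 14880, nat_lit 12768, R2_164, R2_310, R4_266⟩, ⟨nat_lit 7, nat_lit 7056, nat_lit 6576, nat_lit 9120, nat_lit 5520, nat_lit 8016, R2_190, R12_115, R3_167⟩]⟩, ⟨nat_lit 6, [⟨nat_lit 4, nat_lit 7104, nat_lit 6816, nat_lit 8400, nat_lit 15504, nat_lit 16752, R1_175, R2_323, R5_349⟩, ⟨nat_lit 6, nat_lit 7152, nat_lit 6960, nat_lit 8832, nat_lit 16512, nat_lit 8688,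 R1_184, R1_344, R11_181⟩, ⟨nat_lit 7, nat_lit 7248, nat_lit 6864, nat_lit 9936, nat_lit 5712, nat_lit 6096, R1_207, R12_119, R0_127⟩]⟩, ⟨nat_lit 7, [⟨nat_lit 7, nat_lit 7440, nat_lit 6672, nat_lit 6144, nat_lit 5760, nat_lit 7920, R12_128, R12_120, R10_165⟩]⟩]⟩,
 ⟨nat_lit 4, [⟨nat_lit 2, [⟨nat_lit 2, nat_lit 6624, nat_lit 7344, nat_lit 6048, nat_lit 5760, nat_lit 7872, R2_126, R2_120, R10_164⟩]⟩]⟩,
 ⟨nat_lit 6, [⟨nat_lit 0, [⟨nat_lit 0, nat_lit 6528, nat_lit 7008, nat_lit 7872, nat_lit 14880, nat_lit 12768, R2_164, R2_310, R4_266⟩, ⟨nat_lit 2, nat_lit 6576, nat_lit 7056, nat_lit 9120, nat_lit 5520, nat_lit 8016, R2_190, R12_115, R3_167⟩]⟩, ⟨nat_lit 2, [⟨nat_lit 2, nat_lit 6672, nat_lit 7440, nat_lit 6144, nat_lit 5760, nat_lit 7920, R12_128, R12_120, R10_165⟩]⟩, ⟨nat_lit 3, [⟨nat_lit 0, nat_lit 6816, nat_lit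 7104, nat_lit 8400, nat_lit 15504, nat_lit 16752, R1_175, R2_323, R5_349⟩, ⟨nat_lit 2, nat_lit 6864, nat_lit 7248, nat_lit 9936, nat_lit 5712, nat_lit 6096, R1_207, R12_119, R0_127⟩, ⟨nat_lit 3, nat_lit 6960, nat_lit 7152, nat_lit 8832, nat_lit 16512, nat_lit 8688, R1_184, R1_344, R11_181⟩]⟩]⟩,
 ⟨nat_lit 7, [⟨nat_lit 2, [⟨nat_lit 2, nat_lit 6720, nat_lit 7392, nat_lit 4752, nat_lit 4464, nat_lit 7968, R1_99, R1_93, R10_166⟩, ⟨nat_lit 6, nat_lit 6768, nat_lit 7296, nat_lit 7008, nat_lit 6768, nat_lit 7008, R1_146, R11_141, R1_146⟩]⟩, ⟨nat_lit 6, [⟨nat_lit 6, nat_lit 7200, nat_lit 6912, nat_lit 8640, nat_lit 7200, nat_lit 8640, R11_180, R11_150, R11_180⟩]⟩]⟩], [], [], [], [⟨nat_lit 2, [⟨nat_lit 3, [⟨nat_lit 3, nat_lit 21216, nat_lit 16512, nat_lit 8688, nat_lit 7152, nat_lit 8832, R11_181, R11_149, R1_184⟩]⟩]⟩,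
 ⟨nat_lit 4, [⟨nat_lit 2, [⟨nat_lit 2, nat_lit 21072, nat_lit 2448, nat_lit 5472, nat_lit 6240, nat_lit 12480, R2_114, R2_130, R1_260⟩]⟩]⟩,
 ⟨nat_lit 6, [⟨nat_lit 0, [⟨nat_lit 0, nat_lit 20928, nat_lit 10944, nat_lit 14064, nat_lit 10656, nat_lit 13824, R2_293, R2_222, R7_288⟩, ⟨nat_lit 2, nat_lit 20976, nat_lit 11088, nat_lit 14352, nat_lit 6384, nat_lit 12768, R2_299, R12_133, R2_266⟩, ⟨nat_lit 3, nat_lit 21024, nat_lit 11040, nat_lit 14304, nat_lit 11040, nat_lit 14304, R2_298, R1_230, R2_298⟩]⟩, ⟨nat_lit 2, [⟨nat_lit 2, nat_lit 21120, nat_lit 12288, nat_lit 3936, nat_lit 6480, nat_lit 14112, R12_82, R12_135, R1_294⟩]⟩, ⟨nat_lit 3, [⟨nat_lit 3, nat_lit 21264, nat_lit 11424, nat_lit 15840, nat_lit 11424, nat_lit 15840, R1_330, R1_238, R1_330⟩]⟩]⟩,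
 ⟨nat_lit 7, [⟨nat_lit 2, [⟨nat_lit 2, nat_lit 21168, nat_lit 7824, nat_lit 4176, nat_lit 4944, nat_lit 15600, R1_87, R1_103, R1_325⟩]⟩]⟩]]]]
noncomputable def N3024 : T3 (List N0) := [[[[], [], [⟨nat_lit 0, [⟨nat_lit 2, [⟨nat_lit 1, nat_lit 8160, nat_lit 3504, nat_lit 11088, nat_lit 3600, nat_lit 96, R6_231, R4_75, R2_2⟩]⟩]⟩,
 ⟨nat_lit 3, [⟨nat_lit 0, [⟨nat_lit 1, nat_lit 1584, nat_lit 9648, nat_lit 9936, nat_lit 13584, nat_lit 1056, R6_207, R3_283, R7_22⟩]⟩, ⟨nat_lit 2, [⟨nat_lit 1, nat_lit 8208, nat_lit 9792, nat_lit 11184, nat_lit 13632, nat_lit 240, R8_233, R3_284, R2_5⟩]⟩]⟩], [], [], [], [⟨nat_lit 0, [⟨nat_lit 2, [⟨nat_lit 0, nat_lit 9072, nat_lit 2976, nat_lit 10944, nat_lit 1632, nat_lit 16272, R6_228, R6_34, R13_339⟩, ⟨nat_lit 1, nat_lit 10608, nat_lit 3600, nat_lit 11040, nat_lit 1584, nat_lit 12336,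 R6_230, R4_33, R3_257⟩, ⟨nat_lit 2, nat_lit 9744, nat_lit 4032, nat_lit 10992, nat_lit 144, nat_lit 1200, R6_229, R8_3, R3_25⟩]⟩]⟩,
 ⟨nat_lit 2, [⟨nat_lit 2, [⟨nat_lit 2, nat_lit 9840, nat_lit 12480, nat_lit 11808, nat_lit 14784, nat_lit 1440, R4_246, R5_308, R3_30⟩]⟩, ⟨nat_lit 6, [⟨nat_lit 2, nat_lit 15168, nat_lit 12384, nat_lit 12864, nat_lit 14832, nat_lit 12480, R7_268, R5_309, R2_260⟩]⟩]⟩,
 ⟨nat_lit 3, [⟨nat_lit 0, [⟨nat_lit 0, nat_lit 2976, nat_lit 9072, nat_lit 10944, nat_lit 16272, nat_lit 1632, R6_228, R13_339, R6_34⟩, ⟨nat_lit 1, nat_lit 3600, nat_lit 10608, nat_lit 11040, nat_lit 12336, nat_lit 1584, R6_230, R3_257, R4_33⟩, ⟨nat_lit 3, nat_lit 4032, nat_lit 9744, nat_lit 10992, nat_lit 1200, nat_lit 144, R6_229, R3_25, R8_3⟩]⟩, ⟨nat_lit 2, [⟨nat_lit 0, nat_lit 9168, nat_lit 9168, nat_lit 10992, nat_lit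 16320, nat_lit 16320, R8_229, R13_340, R13_340⟩, ⟨nat_lit 1, nat_lit 10656, nat_lit 10656, nat_lit 11136, nat_lit 12384, nat_lit 12384, R8_232, R3_258, R3_258⟩, ⟨nat_lit 3, nat_lit 11040, nat_lit 9936, nat_lit 11088, nat_lit 1680, nat_lit 14016, R8_231, R3_35, R9_292⟩]⟩, ⟨nat_lit 3, [⟨nat_lit 3, nat_lit 12480, nat_lit 9840, nat_lit 11808, nat_lit 1440, nat_lit 14784, R4_246, R3_30, R5_308⟩]⟩]⟩]], [], [[], [], [], [], [⟨nat_lit 0, [⟨nat_lit 2, [⟨nat_lit 0, nat_lit 8640, nat_lit 15504, nat_lit 11136, nat_lit 8640, nat_lit 12192, R6_232, R4_180, R6_254⟩, ⟨nat_lit 2, nat_lit 8784, nat_lit 16272, nat_lit 11184, nat_lit 4416, nat_lit 12384, R6_233, R5_92, R4_258⟩]⟩]⟩,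
 ⟨nat_lit 2, [⟨nat_lit 2, [⟨nat_lit 2, nat_lit 8832, nat_lit 16416, nat_lit 11856, nat_lit 18288, nat_lit 12432, R4_247, R11_381, R4_259⟩]⟩, ⟨nat_lit 6, [⟨nat_lit 2, nat_lit 14880, nat_lit 12096, nat_lit 12912, nat_lit 18336, nat_lit 14880, R7_269, R11_382, R7_310⟩, ⟨nat_lit 6, nat_lit 14688, nat_lit 12240, nat_lit 12960, nat_lit 13056, nat_lit 13536, R7_270, R1_272, R4_282⟩]⟩]⟩,
 ⟨nat_lit 3, [⟨nat_lit 0, [⟨nat_lit 3, nat_lit 2832, nat_lit 13296, nat_lit 10656, nat_lit 14352, nat_lit 13728, R6_222, R10_299, R6_286⟩]⟩, ⟨nat_lit 2, [⟨nat_lit 0, nat_lit 8688, nat_lit 15600, nat_lit 11280, nat_lit 11040, nat_lit 12240, R8_235, R3_230, R6_255⟩, ⟨nat_lit 2, nat_lit 8880, nat_lit 16320, nat_lit 11328, nat_lit 12144, nat_lit 12480, R8_236, R0_253, R4_260⟩, ⟨nat_lit 3, nat_lit 8976, nat_lit 16080, nat_lit 11376, nat_lit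 14448, nat_lit 14400, R8_237, R10_301, R8_300⟩]⟩, ⟨nat_lit 3, [⟨nat_lit 3, nat_lit 12288, nat_lit 14640, nat_lit 11520, nat_lit 14400, nat_lit 13488, R4_240, R10_300, R4_281⟩]⟩]⟩,
 ⟨nat_lit 4, [⟨nat_lit 7, [⟨nat_lit 4, nat_lit 15504, nat_lit 8640, nat_lit 11136, nat_lit 8640, nat_lit 12192, R6_232, R4_180, R6_254⟩, ⟨nat_lit 7, nat_lit 16272, nat_lit 8784, nat_lit 11184, nat_lit 4416, nat_lit 12384, R6_233, R5_92, R4_258⟩]⟩]⟩,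
 ⟨nat_lit 6, [⟨nat_lit 4, [⟨nat_lit 6, nat_lit 13296, nat_lit 2832, nat_lit 10656, nat_lit 14352, nat_lit 13728, R6_222, R10_299, R6_286⟩]⟩, ⟨nat_lit 6, [⟨nat_lit 6, nat_lit 14640, nat_lit 12288, nat_lit 11520, nat_lit 14400, nat_lit 13488, R4_240, R10_300, R4_281⟩]⟩, ⟨nat_lit 7, [⟨nat_lit 4, nat_lit 15600, nat_lit 8688, nat_lit 11280, nat_lit 11040, nat_lit 12240, R8_235, R3_230, R6_255⟩, ⟨nat_lit 6, nat_lit 16080, nat_lit 8976, nat_lit 11376, nat_lit 14448, nat_lit 14400, R8_237, R10_301, R8_300⟩, ⟨nat_lit 7, nat_lit 16320, nat_lit 8880, nat_lit 11328, nat_lit 12144, nat_lit 12480, R8_236, R0_253, R4_260⟩]⟩]⟩,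
 ⟨nat_lit 7, [⟨nat_lit 3, [⟨nat_lit 3, nat_lit 12240, nat_lit 14688, nat_lit 12960, nat_lit 13056, nat_lit 13536, R7_270, R1_272, R4_282⟩, ⟨nat_lit 7, nat_lit 12096, nat_lit 14880, nat_lit 12912, nat_lit 18336, nat_lit 14880, R7_269, R11_382, R7_310⟩]⟩, ⟨nat_lit 7, [⟨nat_lit 7, nat_lit 16416, nat_lit 8832, nat_lit 11856, nat_lit 18288, nat_lit 12432, R4_247, R11_381, R4_259⟩]⟩]⟩], [], [⟨nat_lit 0, [⟨nat_lit 2, [⟨nat_lit 0, nat_lit 9120, nat_lit 1968, nat_lit 11232, nat_lit 9216, nat_lit 16512, R6_234, R4_192, R13_344⟩, ⟨nat_lit 2, nat_lit 9792, nat_lit 2016, nat_lit 11280, nat_lit 4464, nat_lit 1248, R6_235, R5_93, R3_26⟩]⟩]⟩,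
 ⟨nat_lit 2, [⟨nat_lit 2, [⟨nat_lit 2, nat_lit 9888, nat_lit 3984, nat_lit 11904, nat_lit 19104, nat_lit 1488, R4_248, R11_398, R3_31⟩]⟩, ⟨nat_lit 6, [⟨nat_lit 2, nat_lit 15216, nat_lit 3504, nat_lit 13008, nat_lit 19152, nat_lit 12576, R7_271, R11_399, R2_262⟩]⟩]⟩,
 ⟨nat_lit 3, [⟨nat_lit 0, [⟨nat_lit 0, nat_lit 3024, nat_lit 2352, nat_lit 11328, nat_lit 11568, nat_lit 1680, R6_236, R3_241, R6_35⟩, ⟨nat_lit 3, nat_lit 4080, nat_lit 2400, nat_lit 11376, nat_lit 15648, nat_lit 192, R6_237, R10_326, R8_4⟩]⟩, ⟨nat_lit 2, [⟨nat_lit 0, nat_lit 9216, nat_lit 2832, nat_lit 11424, nat_lit 11904, nat_lit 16560, R8_238, R3_248, R13_345⟩, ⟨nat_lit 2, nat_lit 9984, nat_lit 2928, nat_lit 11472, nat_lit 12720, nat_lit 1728, R8_239, R0_265, R3_36⟩, ⟨nat_lit 3, nat_lit 11088, nat_lit 2880, nat_lit 11520, nat_lit 15744, nat_lit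 14160, R8_240, R10_328, R9_295⟩]⟩, ⟨nat_lit 3, [⟨nat_lit 3, nat_lit 12528, nat_lit 2688, nat_lit 11952, nat_lit 15696, nat_lit 14976, R4_249, R10_327, R5_312⟩]⟩]⟩,
 ⟨nat_lit 7, [⟨nat_lit 3, [⟨nat_lit 3, nat_lit 12432, nat_lit 528, nat_lit 13104, nat_lit 13824, nat_lit 15024, R7_273, R1_288, R5_313⟩]⟩]⟩]], [[], [], [⟨nat_lit 3, [⟨nat_lit 0, [⟨nat_lit 1, nat_lit 1632, nat_lit 4512, nat_lit 10320, nat_lit 13152, nat_lit 1104, R6_215, R10_274, R7_23⟩]⟩, ⟨nat_lit 2, [⟨nat_lit 1, nat_lit 8256, nat_lit 6096, nat_lit 11232, nat_lit 13440, nat_lit 288, R8_234, R10_280, R2_6⟩]⟩]⟩]], [], [], [[], [], [], [], [⟨nat_lit 4, [⟨nat_lit 7, [⟨nat_lit 4, nat_lit 15456, nat_lit 8640, nat_lit 10032, nat_lit 8640, nat_lit 12720, R6_209, R7_180, R6_265⟩]⟩]⟩,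
 ⟨nat_lit 6, [⟨nat_lit 4, [⟨nat_lit 6, nat_lit 13248, nat_lit 3216, nat_lit 10704, nat_lit 0, nat_lit 13680, R6_223, R1_0, R6_285⟩]⟩, ⟨nat_lit 6, [⟨nat_lit 6, nat_lit 14592, nat_lit 11664, nat_lit 11568, nat_lit 5808, nat_lit 13440, R4_241, R1_121, R4_280⟩]⟩, ⟨nat_lit 7, [⟨nat_lit 4, nat_lit 15552, nat_lit 8784, nat_lit 9600, nat_lit 7440, nat_lit 12816, R8_200, R2_155, R6_267⟩, ⟨nat_lit 6, nat_lit 16032, nat_lit 9120, nat_lit 9648, nat_lit 7968, nat_lit 14352, R8_201, R1_166, R8_299⟩]⟩]⟩,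
 ⟨nat_lit 7, [⟨nat_lit 3, [⟨nat_lit 7, nat_lit 12048, nat_lit 13536, nat_lit 11472, nat_lit 13056, nat_lit 14688, R7_239, R1_272, R7_306⟩]⟩, ⟨nat_lit 7, [⟨nat_lit 4, nat_lit 15648, nat_lit 8736, nat_lit 10992, nat_lit 3120, nat_lit 12768, R4_229, R2_65, R6_266⟩, ⟨nat_lit 7, nat_lit 16368, nat_lit 8928, nat_lit 11040, nat_lit 2592, nat_lit 13056, R4_230, R1_54, R4_272⟩]⟩]⟩], [], [], [⟨nat_lit 4, [⟨nat_lit 7, [⟨nat_lit 4, nat_lit 17280, nat_lit 4416, nat_lit 10512, nat_lit 8784, nat_lit 12384, R6_219, R7_183, R4_258⟩]⟩]⟩,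
 ⟨nat_lit 6, [⟨nat_lit 7, [⟨nat_lit 4, nat_lit 17328, nat_lit 6000, nat_lit 10176, nat_lit 7680, nat_lit 12576, R8_212, R2_160, R4_262⟩, ⟨nat_lit 6, nat_lit 17760, nat_lit 6336, nat_lit 10224, nat_lit 8208, nat_lit 16320, R8_213, R1_171, R5_340⟩]⟩]⟩,
 ⟨nat_lit 7, [⟨nat_lit 3, [⟨nat_lit 4, nat_lit 12864, nat_lit 14832, nat_lit 11808, nat_lit 12480, nat_lit 13872, R7_246, R2_260, R7_289⟩, ⟨nat_lit 7, nat_lit 13056, nat_lit 15024, nat_lit 11856, nat_lit 13824, nat_lit 17616, R7_247, R1_288, R14_367⟩]⟩, ⟨nat_lit 7, [⟨nat_lit 4, nat_lit 17376, nat_lit 5184, nat_lit 11376, nat_lit 3984, nat_lit 12912, R4_237, R2_83, R4_269⟩]⟩]⟩]]], [[[], [], [⟨nat_lit 0, [⟨nat_lit 0, [⟨nat_lit 1, nat_lit 1680, nat_lit 13584, nat_lit 4080, nat_lit 9648, nat_lit 1296, R6_85, R4_201, R7_27⟩]⟩, ⟨nat_lit 2, [⟨nat_lit 1, nat_lit 8304, nat_lit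 13728, nat_lit 14208, nat_lit 9888, nat_lit 144, R13_296, R4_206, R2_3⟩]⟩]⟩,
 ⟨nat_lit 3, [⟨nat_lit 0, [⟨nat_lit 1, nat_lit 1824, nat_lit 14352, nat_lit 4032, nat_lit 14352, nat_lit 1392, R8_84, R3_299, R7_29⟩]⟩, ⟨nat_lit 2, [⟨nat_lit 1, nat_lit 8448, nat_lit 14496, nat_lit 11904, nat_lit 14400, nat_lit 384, R9_248, R3_300, R2_8⟩]⟩]⟩], [], [], [], [⟨nat_lit 0, [⟨nat_lit 0, [⟨nat_lit 0, nat_lit 3072, nat_lit 1104, nat_lit 3936, nat_lit 7440, nat_lit 1488, R6_82, R6_155, R6_31⟩, ⟨nat_lit 1, nat_lit 3648, nat_lit 1920, nat_lit 4176, nat_lit 8160, nat_lit 1488, R6_87, R4_170, R4_31⟩]⟩, ⟨nat_lit 2, [⟨nat_lit 0, nat_lit 9264, nat_lit 1200, nat_lit 14064, nat_lit 7728, nat_lit 16416, R13_293, R6_161, R13_342⟩, ⟨nat_lit 1, nat_lit 10704, nat_lit 1968, nat_lit 14160, nat_lit 8304, nat_lit 12480, R13_295, R4_173, R3_260⟩,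 ⟨nat_lit 2, nat_lit 10032, nat_lit 2400, nat_lit 14112, nat_lit 4896, nat_lit 1296, R13_294, R8_102, R3_27⟩]⟩]⟩,
 ⟨nat_lit 2, [⟨nat_lit 2, [⟨nat_lit 2, nat_lit 10176, nat_lit 11088, nat_lit 3408, nat_lit 15264, nat_lit 1536, R3_71, R5_318, R3_32⟩]⟩, ⟨nat_lit 6, [⟨nat_lit 2, nat_lit 15312, nat_lit 10992, nat_lit 11568, nat_lit 15312, nat_lit 12528, R2_241, R5_319, R2_261⟩]⟩]⟩,
 ⟨nat_lit 3, [⟨nat_lit 0, [⟨nat_lit 0, nat_lit 3264, nat_lit 8160, nat_lit 1728, nat_lit 16944, nat_lit 1872, R8_36, R13_353, R6_39⟩, ⟨nat_lit 1, nat_lit 3792, nat_lit 9696, nat_lit 2928, nat_lit 12768, nat_lit 1728, R8_61, R3_266, R4_36⟩, ⟨nat_lit 3, nat_lit 4128, nat_lit 8784, nat_lit 2592, nat_lit 7632, nat_lit 2016, R8_54, R3_159, R8_42⟩]⟩, ⟨nat_lit 2, [⟨nat_lit 0, nat_lit 9456, nat_lit 8256, nat_lit 11712, nat_lit 16992, nat_lit 16464,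 R9_244, R13_354, R13_343⟩, ⟨nat_lit 1, nat_lit 10848, nat_lit 9744, nat_lit 11856, nat_lit 12816, nat_lit 12528, R9_247, R3_267, R3_261⟩, ⟨nat_lit 3, nat_lit 11136, nat_lit 8976, nat_lit 11808, nat_lit 8208, nat_lit 14112, R9_246, R3_171, R9_294⟩]⟩, ⟨nat_lit 3, [⟨nat_lit 3, nat_lit 12576, nat_lit 8880, nat_lit 13632, nat_lit 7920, nat_lit 14928, R5_284, R3_165, R5_311⟩]⟩]⟩]], [[], [], [⟨nat_lit 0, [⟨nat_lit 0, [⟨nat_lit 1, nat_lit 1728, nat_lit 1296, nat_lit 4128, nat_lit 4512, nat_lit 1344, R6_86, R5_94, R7_28⟩]⟩, ⟨nat_lit 2, [⟨nat_lit 1, nat_lit 8352, nat_lit 1392, nat_lit 14400, nat_lit 4896, nat_lit 192, R13_300, R5_102, R2_4⟩]⟩]⟩,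
 ⟨nat_lit 1, [⟨nat_lit 0, [⟨nat_lit 1, nat_lit 1776, nat_lit 7584, nat_lit 4272, nat_lit 17376, nat_lit 1536, R4_89, R11_362, R7_32⟩]⟩, ⟨nat_lit 2, [⟨nat_lit 1, nat_lit 8400, nat_lit 7680, nat_lit 10752, nat_lit 17520, nat_lit 624, R3_224, R11_365, R2_13⟩]⟩]⟩,
 ⟨nat_lit 3, [⟨nat_lit 0, [⟨nat_lit 1, nat_lit 1872, nat_lit 10992, nat_lit 4128, nat_lit 11280, nat_lit 1488, R8_86, R0_235, R7_31⟩]⟩, ⟨nat_lit 2, [⟨nat_lit 1, nat_lit 8496, nat_lit 11136, nat_lit 12096, nat_lit 11376, nat_lit 480, R9_252, R0_237, R2_10⟩]⟩]⟩], [], [], [], [⟨nat_lit 0, [⟨nat_lit 0, [⟨nat_lit 0, nat_lit 3168, nat_lit 576, nat_lit 3984, nat_lit 48, nat_lit 1584, R6_83, R8_1, R6_33⟩, ⟨nat_lit 1, nat_lit 3696, nat_lit 1392, nat_lit 4224, nat_lit 4608, nat_lit 1536, R6_88, R5_96, R4_32⟩]⟩, ⟨nat_lit 2, [⟨nat_lit 0, nat_lit 9360, nat_lit 672,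 nat_lit 14256, nat_lit 4800, nat_lit 16800, R13_297, R8_100, R13_350⟩, ⟨nat_lit 1, nat_lit 10752, nat_lit 1440, nat_lit 14352, nat_lit 4992, nat_lit 12624, R13_299, R5_104, R3_263⟩, ⟨nat_lit 2, nat_lit 10128, nat_lit 1872, nat_lit 14304, nat_lit 4128, nat_lit 1392, R13_298, R9_86, R3_29⟩]⟩]⟩,
 ⟨nat_lit 1, [⟨nat_lit 0, [⟨nat_lit 0, nat_lit 3216, nat_lit 6096, nat_lit 4224, nat_lit 14400, nat_lit 2016, R4_88, R5_300, R6_42⟩, ⟨nat_lit 1, nat_lit 3744, nat_lit 6816, nat_lit 4320, nat_lit 17904, nat_lit 1824, R4_90, R11_373, R4_38⟩]⟩, ⟨nat_lit 2, [⟨nat_lit 0, nat_lit 9408, nat_lit 6192, nat_lit 10608, nat_lit 14544, nat_lit 16896, R3_221, R5_303, R13_352⟩, ⟨nat_lit 1, nat_lit 10800, nat_lit 6864, nat_lit 10704, nat_lit 18048, nat_lit 12720, R3_223, R11_376, R3_265⟩, ⟨nat_lit 2, nat_lit 10320, nat_lit 7296, nat_lit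 10656, nat_lit 2592, nat_lit 2016, R3_222, R0_54, R3_42⟩]⟩]⟩,
 ⟨nat_lit 2, [⟨nat_lit 2, [⟨nat_lit 2, nat_lit 10272, nat_lit 11664, nat_lit 3456, nat_lit 2496, nat_lit 1632, R3_72, R0_52, R3_34⟩]⟩, ⟨nat_lit 6, [⟨nat_lit 2, nat_lit 15408, nat_lit 11568, nat_lit 11616, nat_lit 12432, nat_lit 12720, R2_242, R0_259, R2_265⟩]⟩]⟩,
 ⟨nat_lit 3, [⟨nat_lit 0, [⟨nat_lit 0, nat_lit 3360, nat_lit 8976, nat_lit 1776, nat_lit 13392, nat_lit 1968, R8_37, R9_279, R6_41⟩, ⟨nat_lit 1, nat_lit 3840, nat_lit 10512, nat_lit 2976, nat_lit 11520, nat_lit 1776, R8_62, R0_240, R4_37⟩, ⟨nat_lit 3, nat_lit 4224, nat_lit 9600, nat_lit 2640, nat_lit 720, nat_lit 2112, R8_55, R0_15, R8_44⟩]⟩, ⟨nat_lit 2, [⟨nat_lit 0, nat_lit 9552, nat_lit 9072, nat_lit 11952, nat_lit 13632, nat_lit 16848, R9_249, R9_284, R13_351⟩, ⟨nat_lit 1, nat_lit 10896,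 nat_lit 10560, nat_lit 12048, nat_lit 11760, nat_lit 12672, R9_251, R0_245, R3_264⟩, ⟨nat_lit 3, nat_lit 11232, nat_lit 9792, nat_lit 12000, nat_lit 8544, nat_lit 14304, R9_250, R0_178, R9_298⟩]⟩, ⟨nat_lit 3, [⟨nat_lit 3, nat_lit 12672, nat_lit 9696, nat_lit 13680, nat_lit 5952, nat_lit 15216, R5_285, R0_124, R5_317⟩]⟩]⟩]], [[], [], [], [], [], [], [⟨nat_lit 0, [⟨nat_lit 0, [⟨nat_lit 0, nat_lit 3120, nat_lit 0, nat_lit 4032, nat_lit 3360, nat_lit 1536, R6_84, R4_70, R6_32⟩]⟩, ⟨nat_lit 2, [⟨nat_lit 0, nat_lit 9312, nat_lit 192, nat_lit 14448, nat_lit 9360, nat_lit 16656, R13_301, R4_195, R13_347⟩, ⟨nat_lit 2, nat_lit 10080, nat_lit 240, nat_lit 14496, nat_lit 4848, nat_lit 1344, R13_302, R5_101, R3_28⟩]⟩]⟩,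
 ⟨nat_lit 2, [⟨nat_lit 2, [⟨nat_lit 2, nat_lit 10224, nat_lit 2352, nat_lit 3504, nat_lit 19584, nat_lit 1584, R3_73, R11_408, R3_33⟩]⟩, ⟨nat_lit 6, [⟨nat_lit 2, nat_lit 15360, nat_lit 1872, nat_lit 11664, nat_lit 19632, nat_lit 12672, R2_243, R11_409, R2_264⟩]⟩]⟩,
 ⟨nat_lit 3, [⟨nat_lit 0, [⟨nat_lit 0, nat_lit 3312, nat_lit 720, nat_lit 1824, nat_lit 11664, nat_lit 1920, R8_38, R3_243, R6_40⟩, ⟨nat_lit 3, nat_lit 4176, nat_lit 768, nat_lit 2688, nat_lit 16512, nat_lit 2064, R8_56, R10_344, R8_43⟩]⟩, ⟨nat_lit 2, [⟨nat_lit 0, nat_lit 9504, nat_lit 1200, nat_lit 12192, nat_lit 12000, nat_lit 16704, R9_254, R3_250, R13_348⟩, ⟨nat_lit 3, nat_lit 11184, nat_lit 1248, nat_lit 12288, nat_lit 16608, nat_lit 14256, R9_256, R10_346, R9_297⟩]⟩, ⟨nat_lit 3, [⟨nat_lit 3, nat_lit 12624, nat_lit 1056, nat_lit 13728, nat_lit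 16560, nat_lit 15120, R5_286, R10_345, R5_315⟩]⟩]⟩]], [[], [], [⟨nat_lit 3, [⟨nat_lit 0, [⟨nat_lit 1, nat_lit 1920, nat_lit 11280, nat_lit 4080, nat_lit 13248, nat_lit 1440, R8_85, R10_276, R7_30⟩]⟩, ⟨nat_lit 2, [⟨nat_lit 1, nat_lit 8544, nat_lit 11328, nat_lit 12144, nat_lit 13536, nat_lit 432, R9_253, R10_282, R2_9⟩]⟩]⟩]]], [[], [], [[], [], [], [], [⟨nat_lit 2, [⟨nat_lit 6, [⟨nat_lit 2, nat_lit 14928, nat_lit 10560, nat_lit 10560, nat_lit 18768, nat_lit 14928, R2_220, R11_391, R7_311⟩, ⟨nat_lit 6, nat_lit 14832, nat_lit 10752, nat_lit 10512, nat_lit 13104, nat_lit 13680, R2_219, R1_273, R4_285⟩]⟩]⟩,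
 ⟨nat_lit 4, [⟨nat_lit 7, [⟨nat_lit 4, nat_lit 15744, nat_lit 7440, nat_lit 9600, nat_lit 8784, nat_lit 12336, R8_200, R4_183, R6_257⟩, ⟨nat_lit 7, nat_lit 16464, nat_lit 7680, nat_lit 10176, nat_lit 6000, nat_lit 12576, R8_212, R5_125, R4_262⟩]⟩]⟩,
 ⟨nat_lit 6, [⟨nat_lit 4, [⟨nat_lit 6, nat_lit 13392, nat_lit 912, nat_lit 13440, nat_lit 14544, nat_lit 13824, R13_280, R10_303, R6_288⟩]⟩, ⟨nat_lit 6, [⟨nat_lit 6, nat_lit 14784, nat_lit 10800, nat_lit 10368, nat_lit 14592, nat_lit 13632, R3_216, R10_304, R4_284⟩]⟩, ⟨nat_lit 7, [⟨nat_lit 4, nat_lit 15840, nat_lit 7488, nat_lit 10800, nat_lit 11232, nat_lit 12384, R9_225, R3_234, R6_258⟩, ⟨nat_lit 6, nat_lit 16176, nat_lit 8016, nat_lit 10848, nat_lit 14640, nat_lit 14496, R9_226, R10_305, R8_302⟩, ⟨nat_lit 7, nat_lit 16512, nat_lit 7776, nat_lit 10896, nat_lit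 12240, nat_lit 12672, R9_227, R0_255, R4_264⟩]⟩]⟩,
 ⟨nat_lit 7, [⟨nat_lit 7, [⟨nat_lit 7, nat_lit 16608, nat_lit 7728, nat_lit 12768, nat_lit 18432, nat_lit 12624, R5_266, R11_384, R4_263⟩]⟩]⟩], [⟨nat_lit 2, [⟨nat_lit 6, [⟨nat_lit 2, nat_lit 15120, nat_lit 10944, nat_lit 10656, nat_lit 20928, nat_lit 14064, R2_222, R11_436, R2_293⟩, ⟨nat_lit 6, nat_lit 15072, nat_lit 11136, nat_lit 10608, nat_lit 13152, nat_lit 15360, R2_221, R1_274, R3_320⟩]⟩]⟩,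
 ⟨nat_lit 4, [⟨nat_lit 4, [⟨nat_lit 4, nat_lit 13488, nat_lit 0, nat_lit 10704, nat_lit 3216, nat_lit 13680, R6_223, R4_67, R6_285⟩]⟩, ⟨nat_lit 5, [⟨nat_lit 4, nat_lit 14304, nat_lit 5808, nat_lit 11568, nat_lit 11664, nat_lit 13440, R4_241, R4_243, R4_280⟩]⟩, ⟨nat_lit 7, [⟨nat_lit 4, nat_lit 16800, nat_lit 7968, nat_lit 9648, nat_lit 9120, nat_lit 13392, R8_201, R4_190, R8_279⟩, ⟨nat_lit 7, nat_lit 17088, nat_lit 8208, nat_lit 10224, nat_lit 6336, nat_lit 16320, R8_213, R5_132, R5_340⟩]⟩]⟩,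
 ⟨nat_lit 6, [⟨nat_lit 4, [⟨nat_lit 4, nat_lit 13584, nat_lit 48, nat_lit 13536, nat_lit 15888, nat_lit 13776, R13_282, R3_331, R6_287⟩, ⟨nat_lit 6, nat_lit 13680, nat_lit 240, nat_lit 13584, nat_lit 14736, nat_lit 19200, R13_283, R10_307, R13_400⟩]⟩, ⟨nat_lit 5, [⟨nat_lit 4, nat_lit 14400, nat_lit 5856, nat_lit 10272, nat_lit 16656, nat_lit 13584, R3_214, R3_347, R4_283⟩, ⟨nat_lit 6, nat_lit 14544, nat_lit 5952, nat_lit 10320, nat_lit 14880, nat_lit 15456, R3_215, R10_310, R3_322⟩]⟩, ⟨nat_lit 6, [⟨nat_lit 6, nat_lit 15024, nat_lit 11184, nat_lit 10416, nat_lit 14784, nat_lit 15408, R3_217, R10_308, R3_321⟩]⟩, ⟨nat_lit 7, [⟨nat_lit 4, nat_lit 16896, nat_lit 8016, nat_lit 11040, nat_lit 16224, nat_lit 13632, R9_230, R3_338, R8_284⟩, ⟨nat_lit 6, nat_lit 17040, nat_lit 8544, nat_lit 11088, nat_lit 14832, nat_lit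 15552, R9_231, R10_309, R9_324⟩, ⟨nat_lit 7, nat_lit 17136, nat_lit 8304, nat_lit 11136, nat_lit 12288, nat_lit 16368, R9_232, R0_256, R5_341⟩]⟩]⟩,
 ⟨nat_lit 7, [⟨nat_lit 7, [⟨nat_lit 7, nat_lit 17232, nat_lit 8256, nat_lit 12912, nat_lit 18576, nat_lit 16416, R5_269, R11_387, R5_342⟩]⟩]⟩], [⟨nat_lit 2, [⟨nat_lit 6, [⟨nat_lit 2, nat_lit 15264, nat_lit 1824, nat_lit 10704, nat_lit 20304, nat_lit 12624, R2_223, R11_423, R2_263⟩]⟩]⟩]], [], [], [], [[], [], [], [], [⟨nat_lit 4, [⟨nat_lit 7, [⟨nat_lit 4, nat_lit 15696, nat_lit 11040, nat_lit 11280, nat_lit 8688, nat_lit 13008, R8_235, R7_181, R6_271⟩]⟩]⟩,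
 ⟨nat_lit 6, [⟨nat_lit 4, [⟨nat_lit 6, nat_lit 13344, nat_lit 15888, nat_lit 13488, nat_lit 48, nat_lit 13776, R13_281, R1_1, R6_287⟩]⟩, ⟨nat_lit 6, [⟨nat_lit 6, nat_lit 14736, nat_lit 16656, nat_lit 10272, nat_lit 5856, nat_lit 13584, R3_214, R1_122, R4_283⟩]⟩, ⟨nat_lit 7, [⟨nat_lit 4, nat_lit 15792, nat_lit 11232, nat_lit 10944, nat_lit 7488, nat_lit 13104, R9_228, R2_156, R6_273⟩, ⟨nat_lit 6, nat_lit 16128, nat_lit 16224, nat_lit 10992, nat_lit 8016, nat_lit 14448, R9_229, R1_167, R8_301⟩]⟩]⟩,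
 ⟨nat_lit 7, [⟨nat_lit 7, [⟨nat_lit 4, nat_lit 15888, nat_lit 11136, nat_lit 12816, nat_lit 3168, nat_lit 13056, R5_267, R2_66, R6_272⟩, ⟨nat_lit 7, nat_lit 16560, nat_lit 15168, nat_lit 12864, nat_lit 2640, nat_lit 13152, R5_268, R1_55, R4_274⟩]⟩]⟩], [⟨nat_lit 4, [⟨nat_lit 4, [⟨nat_lit 4, nat_lit 13440, nat_lit 14352, nat_lit 10656, nat_lit 2832, nat_lit 13728, R6_222, R7_59, R6_286⟩]⟩, ⟨nat_lit 5, [⟨nat_lit 4, nat_lit 14256, nat_lit 14400, nat_lit 11520, nat_lit 12288, nat_lit 13488, R4_240, R7_256, R4_281⟩]⟩, ⟨nat_lit 7, [⟨nat_lit 4, nat_lit 16752, nat_lit 14448, nat_lit 11376, nat_lit 8976, nat_lit 13008, R8_237, R7_187, R8_271⟩]⟩]⟩,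
 ⟨nat_lit 6, [⟨nat_lit 4, [⟨nat_lit 4, nat_lit 13536, nat_lit 14544, nat_lit 13632, nat_lit 912, nat_lit 13824, R13_284, R2_19, R6_288⟩, ⟨nat_lit 6, nat_lit 13632, nat_lit 14736, nat_lit 13680, nat_lit 240, nat_lit 19152, R13_285, R1_5, R13_399⟩]⟩, ⟨nat_lit 5, [⟨nat_lit 4, nat_lit 14352, nat_lit 14592, nat_lit 10368, nat_lit 10800, nat_lit 13632, R3_216, R2_225, R4_284⟩, ⟨nat_lit 6, nat_lit 14496, nat_lit 14784, nat_lit 10416, nat_lit 11184, nat_lit 15408, R3_217, R1_233, R3_321⟩]⟩, ⟨nat_lit 6, [⟨nat_lit 6, nat_lit 14976, nat_lit 14880, nat_lit 10320, nat_lit 5952, nat_lit 15456, R3_215, R1_124, R3_322⟩]⟩, ⟨nat_lit 7, [⟨nat_lit 4, nat_lit 16848, nat_lit 14640, nat_lit 11184, nat_lit 8016, nat_lit 13104, R9_233, R2_167, R8_273⟩, ⟨nat_lit 6, nat_lit 16992, nat_lit 14832, nat_lit 11232, nat_lit 8544, nat_lit 15504,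 R9_234, R1_178, R9_323⟩]⟩]⟩,
 ⟨nat_lit 7, [⟨nat_lit 7, [⟨nat_lit 4, nat_lit 16944, nat_lit 14496, nat_lit 12960, nat_lit 6384, nat_lit 13248, R5_270, R2_133, R8_276⟩, ⟨nat_lit 7, nat_lit 17184, nat_lit 14688, nat_lit 13008, nat_lit 5088, nat_lit 16272, R5_271, R1_106, R5_339⟩]⟩]⟩], [], [⟨nat_lit 4, [⟨nat_lit 7, [⟨nat_lit 4, nat_lit 17424, nat_lit 12144, nat_lit 11328, nat_lit 8880, nat_lit 12480, R8_236, R7_185, R4_260⟩]⟩]⟩,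
 ⟨nat_lit 6, [⟨nat_lit 7, [⟨nat_lit 4, nat_lit 17472, nat_lit 12240, nat_lit 11280, nat_lit 7776, nat_lit 12672, R9_235, R2_162, R4_264⟩, ⟨nat_lit 6, nat_lit 17808, nat_lit 12288, nat_lit 11328, nat_lit 8304, nat_lit 16368, R9_236, R1_173, R5_341⟩]⟩]⟩,
 ⟨nat_lit 7, [⟨nat_lit 7, [⟨nat_lit 4, nat_lit 17520, nat_lit 12192, nat_lit 13056, nat_lit 4032, nat_lit 12960, R5_272, R2_84, R4_270⟩]⟩]⟩]]], [[[], [], [], [], [], [], [⟨nat_lit 3, [⟨nat_lit 0, [⟨nat_lit 0, nat_lit 3456, nat_lit 3264, nat_lit 2208, nat_lit 17568, nat_lit 1728, R4_46, R13_366, R6_36⟩, ⟨nat_lit 1, nat_lit 3936, nat_lit 4752, nat_lit 2928, nat_lit 13104, nat_lit 1632, R4_61, R3_273, R4_34⟩, ⟨nat_lit 3, nat_lit 4416, nat_lit 4128, nat_lit 2640, nat_lit 6384, nat_lit 672, R4_55, R3_133, R8_14⟩]⟩, ⟨nat_lit 2, [⟨nat_lit 0, nat_lit 9600, nat_lit 3552,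 nat_lit 2592, nat_lit 17616, nat_lit 16368, R5_54, R13_367, R13_341⟩, ⟨nat_lit 1, nat_lit 10944, nat_lit 4944, nat_lit 3168, nat_lit 13152, nat_lit 12432, R5_66, R3_274, R3_259⟩, ⟨nat_lit 2, nat_lit 10464, nat_lit 6528, nat_lit 2784, nat_lit 14592, nat_lit 1776, R5_58, R9_304, R3_37⟩, ⟨nat_lit 3, nat_lit 11280, nat_lit 4416, nat_lit 3024, nat_lit 6624, nat_lit 14064, R5_63, R3_138, R9_293⟩]⟩]⟩,
 ⟨nat_lit 7, [⟨nat_lit 0, [⟨nat_lit 3, nat_lit 4272, nat_lit 12816, nat_lit 2592, nat_lit 12816, nat_lit 1008, R7_54, R2_267, R8_21⟩]⟩, ⟨nat_lit 3, [⟨nat_lit 3, nat_lit 12720, nat_lit 13152, nat_lit 14112, nat_lit 12864, nat_lit 14880, R14_294, R2_268, R5_310⟩]⟩]⟩]], [], [[], [], [], [], [⟨nat_lit 3, [⟨nat_lit 0, [⟨nat_lit 3, nat_lit 2928, nat_lit 12144, nat_lit 384, nat_lit 14928, nat_lit 14112, R4_8, R10_311, R6_294⟩]⟩,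 ⟨nat_lit 2, [⟨nat_lit 0, nat_lit 8736, nat_lit 14400, nat_lit 2544, nat_lit 11088, nat_lit 12288, R5_53, R3_231, R6_256⟩, ⟨nat_lit 2, nat_lit 8928, nat_lit 15552, nat_lit 2736, nat_lit 12336, nat_lit 12528, R5_57, R0_257, R4_261⟩, ⟨nat_lit 3, nat_lit 9024, nat_lit 14976, nat_lit 2928, nat_lit 14976, nat_lit 14880, R5_61, R10_312, R8_310⟩]⟩]⟩,
 ⟨nat_lit 4, [⟨nat_lit 3, [⟨nat_lit 7, nat_lit 12144, nat_lit 12480, nat_lit 11808, nat_lit 14832, nat_lit 15168, R7_246, R5_309, R7_316⟩]⟩, ⟨nat_lit 7, [⟨nat_lit 4, nat_lit 15936, nat_lit 3120, nat_lit 10992, nat_lit 8736, nat_lit 12576, R4_229, R4_182, R6_262⟩, ⟨nat_lit 7, nat_lit 16656, nat_lit 3984, nat_lit 11376, nat_lit 5184, nat_lit 12912, R4_237, R5_108, R4_269⟩]⟩]⟩,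
 ⟨nat_lit 6, [⟨nat_lit 7, [⟨nat_lit 4, nat_lit 15984, nat_lit 3168, nat_lit 12816, nat_lit 11136, nat_lit 12624, R5_267, R3_232, R6_263⟩, ⟨nat_lit 6, nat_lit 16224, nat_lit 6384, nat_lit 12960, nat_lit 14496, nat_lit 14544, R5_270, R10_302, R8_303⟩, ⟨nat_lit 7, nat_lit 16704, nat_lit 4032, nat_lit 13056, nat_lit 12192, nat_lit 12960, R5_272, R0_254, R4_270⟩]⟩]⟩,
 ⟨nat_lit 7, [⟨nat_lit 0, [⟨nat_lit 3, nat_lit 2880, nat_lit 12000, nat_lit 576, nat_lit 13200, nat_lit 14160, R7_12, R1_275, R6_295⟩]⟩, ⟨nat_lit 3, [⟨nat_lit 3, nat_lit 12336, nat_lit 13728, nat_lit 14208, nat_lit 13248, nat_lit 13920, R14_296, R1_276, R4_290⟩, ⟨nat_lit 7, nat_lit 12192, nat_lit 12576, nat_lit 14256, nat_lit 18384, nat_lit 15216, R14_297, R11_383, R7_317⟩]⟩]⟩], [], [⟨nat_lit 3, [⟨nat_lit 0, [⟨nat_lit 0, nat_lit 3504, nat_lit 2688, nat_lit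 2304, nat_lit 11616, nat_lit 1776, R4_48, R3_242, R6_37⟩, ⟨nat_lit 3, nat_lit 4464, nat_lit 2832, nat_lit 2688, nat_lit 17424, nat_lit 720, R4_56, R10_363, R8_15⟩]⟩, ⟨nat_lit 2, [⟨nat_lit 0, nat_lit 9648, nat_lit 4032, nat_lit 2688, nat_lit 11952, nat_lit 16608, R5_56, R3_249, R13_346⟩, ⟨nat_lit 2, nat_lit 10512, nat_lit 4512, nat_lit 2880, nat_lit 13296, nat_lit 1824, R5_60, R0_277, R3_38⟩, ⟨nat_lit 3, nat_lit 11328, nat_lit 4224, nat_lit 3072, nat_lit 17472, nat_lit 14208, R5_64, R10_364, R9_296⟩]⟩]⟩,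
 ⟨nat_lit 7, [⟨nat_lit 0, [⟨nat_lit 3, nat_lit 4320, nat_lit 13584, nat_lit 2688, nat_lit 14160, nat_lit 1104, R7_56, R1_295, R8_23⟩]⟩, ⟨nat_lit 3, [⟨nat_lit 3, nat_lit 12768, nat_lit 13920, nat_lit 14352, nat_lit 14208, nat_lit 15072, R14_299, R1_296, R5_314⟩]⟩]⟩], [⟨nat_lit 3, [⟨nat_lit 0, [⟨nat_lit 3, nat_lit 4656, nat_lit 12720, nat_lit 1296, nat_lit 18432, nat_lit 624, R4_27, R10_384, R4_13⟩]⟩, ⟨nat_lit 2, [⟨nat_lit 3, nat_lit 11376, nat_lit 15984, nat_lit 2976, nat_lit 18480, nat_lit 240, R5_62, R10_385, R5_5⟩]⟩]⟩,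
 ⟨nat_lit 4, [⟨nat_lit 3, [⟨nat_lit 4, nat_lit 12960, nat_lit 13056, nat_lit 11472, nat_lit 13536, nat_lit 14160, R7_239, R4_282, R7_295⟩, ⟨nat_lit 7, nat_lit 13104, nat_lit 13824, nat_lit 11856, nat_lit 15024, nat_lit 17712, R7_247, R5_313, R14_369⟩]⟩, ⟨nat_lit 7, [⟨nat_lit 4, nat_lit 17616, nat_lit 2592, nat_lit 11040, nat_lit 8928, nat_lit 13056, R4_230, R4_186, R4_272⟩]⟩]⟩,
 ⟨nat_lit 6, [⟨nat_lit 7, [⟨nat_lit 4, nat_lit 17712, nat_lit 2640, nat_lit 12864, nat_lit 15168, nat_lit 13152, R5_268, R3_316, R4_274⟩, ⟨nat_lit 6, nat_lit 17904, nat_lit 5088, nat_lit 13008, nat_lit 14688, nat_lit 16272, R5_271, R10_306, R5_339⟩]⟩]⟩,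
 ⟨nat_lit 7, [⟨nat_lit 0, [⟨nat_lit 3, nat_lit 4608, nat_lit 12576, nat_lit 1008, nat_lit 15216, nat_lit 1440, R7_21, R1_317, R4_30⟩, ⟨nat_lit 7, nat_lit 4560, nat_lit 12336, nat_lit 1968, nat_lit 18480, nat_lit 1248, R7_41, R11_385, R7_26⟩]⟩, ⟨nat_lit 3, [⟨nat_lit 7, nat_lit 13200, nat_lit 13920, nat_lit 14304, nat_lit 18528, nat_lit 17760, R14_298, R11_386, R14_370⟩]⟩]⟩]], [[], [], [⟨nat_lit 3, [⟨nat_lit 0, [⟨nat_lit 1, nat_lit 2064, nat_lit 4512, nat_lit 4272, nat_lit 13200, nat_lit 1152, R4_89, R10_275, R7_24⟩]⟩, ⟨nat_lit 2, [⟨nat_lit 1, nat_lit 8592, nat_lit 5712, nat_lit 3120, nat_lit 13488, nat_lit 336, R5_65, R10_281, R2_7⟩]⟩]⟩,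
 ⟨nat_lit 7, [⟨nat_lit 0, [⟨nat_lit 1, nat_lit 2016, nat_lit 18480, nat_lit 4512, nat_lit 12336, nat_lit 1200, R7_94, R1_257, R7_25⟩]⟩]⟩], [], [], [], [⟨nat_lit 3, [⟨nat_lit 0, [⟨nat_lit 0, nat_lit 3552, nat_lit 2736, nat_lit 2256, nat_lit 3072, nat_lit 1824, R4_47, R3_64, R6_38⟩, ⟨nat_lit 1, nat_lit 3984, nat_lit 3456, nat_lit 2976, nat_lit 13968, nat_lit 1680, R4_62, R10_291, R4_35⟩]⟩, ⟨nat_lit 2, [⟨nat_lit 0, nat_lit 9696, nat_lit 3024, nat_lit 2640, nat_lit 8880, nat_lit 16752, R5_55, R3_185, R13_349⟩, ⟨nat_lit 1, nat_lit 10992, nat_lit 3648, nat_lit 3216, nat_lit 14112, nat_lit 12576, R5_67, R10_294, R3_262⟩, ⟨nat_lit 2, nat_lit 10560, nat_lit 5232, nat_lit 2832, nat_lit 3600, nat_lit 1872, R5_59, R0_75, R3_39⟩]⟩]⟩,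
 ⟨nat_lit 7, [⟨nat_lit 0, [⟨nat_lit 0, nat_lit 3408, nat_lit 13200, nat_lit 2208, nat_lit 12000, nat_lit 1440, R7_46, R2_250, R6_30⟩, ⟨nat_lit 1, nat_lit 3888, nat_lit 15216, nat_lit 2784, nat_lit 12576, nat_lit 1440, R7_58, R1_262, R4_30⟩, ⟨nat_lit 3, nat_lit 4368, nat_lit 14160, nat_lit 2640, nat_lit 13584, nat_lit 1056, R7_55, R12_283, R8_22⟩]⟩, ⟨nat_lit 3, [⟨nat_lit 3, nat_lit 12816, nat_lit 14496, nat_lit 14160, nat_lit 13632, nat_lit 15168, R14_295, R12_284, R5_316⟩]⟩]⟩]], [[], [], [], [⟨nat_lit 4, [⟨nat_lit 3, [⟨nat_lit 5, nat_lit 11808, nat_lit 12480, nat_lit 12144, nat_lit 15168, nat_lit 14832, R7_253, R7_316, R5_309⟩]⟩]⟩,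
 ⟨nat_lit 7, [⟨nat_lit 0, [⟨nat_lit 5, nat_lit 2592, nat_lit 12816, nat_lit 4272, nat_lit 12816, nat_lit 1008, R7_89, R2_267, R8_21⟩]⟩, ⟨nat_lit 3, [⟨nat_lit 5, nat_lit 11904, nat_lit 12864, nat_lit 13824, nat_lit 13152, nat_lit 14880, R14_288, R2_274, R5_310⟩]⟩]⟩]], [], [[], [], [], [⟨nat_lit 4, [⟨nat_lit 3, [⟨nat_lit 4, nat_lit 11472, nat_lit 13056, nat_lit 12960, nat_lit 14688, nat_lit 13536, R7_270, R7_306, R4_282⟩, ⟨nat_lit 5, nat_lit 11856, nat_lit 13824, nat_lit 13104, nat_lit 528, nat_lit 15024, R7_273, R14_11, R5_313⟩]⟩]⟩,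
 ⟨nat_lit 7, [⟨nat_lit 0, [⟨nat_lit 4, nat_lit 2208, nat_lit 13200, nat_lit 3408, nat_lit 12000, nat_lit 1440, R7_71, R2_250, R6_30⟩, ⟨nat_lit 5, nat_lit 2640, nat_lit 14160, nat_lit 4368, nat_lit 13584, nat_lit 1056, R7_91, R12_283, R8_22⟩, ⟨nat_lit 7, nat_lit 2784, nat_lit 15216, nat_lit 3888, nat_lit 12576, nat_lit 1440, R7_81, R1_262, R4_30⟩]⟩, ⟨nat_lit 3, [⟨nat_lit 4, nat_lit 11520, nat_lit 13248, nat_lit 14016, nat_lit 13728, nat_lit 13920, R14_292, R2_286, R4_290⟩, ⟨nat_lit 5, nat_lit 11952, nat_lit 14208, nat_lit 14064, nat_lit 13920, nat_lit 15072, R14_293, R12_290, R5_314⟩]⟩]⟩], [], [], [], [⟨nat_lit 4, [⟨nat_lit 3, [⟨nat_lit 4, nat_lit 12912, nat_lit 18336, nat_lit 12912, nat_lit 14880, nat_lit 13728, R7_269, R7_310, R7_286⟩]⟩, ⟨nat_lit 7, [⟨nat_lit 4, nat_lit 17568, nat_lit 18288, nat_lit 11856,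 nat_lit 8832, nat_lit 12432, R4_247, R7_184, R4_259⟩]⟩]⟩,
 ⟨nat_lit 6, [⟨nat_lit 7, [⟨nat_lit 4, nat_lit 17664, nat_lit 18432, nat_lit 12768, nat_lit 7728, nat_lit 12624, R5_266, R2_161, R4_263⟩, ⟨nat_lit 6, nat_lit 17856, nat_lit 18576, nat_lit 12912, nat_lit 8256, nat_lit 16416, R5_269, R1_172, R5_342⟩]⟩]⟩,
 ⟨nat_lit 7, [⟨nat_lit 0, [⟨nat_lit 7, nat_lit 4512, nat_lit 18480, nat_lit 2016, nat_lit 12336, nat_lit 1200, R7_42, R1_257, R7_25⟩]⟩, ⟨nat_lit 3, [⟨nat_lit 4, nat_lit 13008, nat_lit 18384, nat_lit 13920, nat_lit 12576, nat_lit 13920, R14_290, R2_262, R7_290⟩, ⟨nat_lit 7, nat_lit 13152, nat_lit 18528, nat_lit 13968, nat_lit 13920, nat_lit 17664, R14_291, R1_290, R14_368⟩]⟩]⟩]], [[⟨nat_lit 7, [⟨nat_lit 0, [⟨nat_lit 5, nat_lit 576, nat_lit 12000, nat_lit 2880, nat_lit 13200, nat_lit 1440, R7_60, R1_275,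 R6_30⟩]⟩]⟩], [], [⟨nat_lit 7, [⟨nat_lit 0, [⟨nat_lit 1, nat_lit 1968, nat_lit 12336, nat_lit 4560, nat_lit 17424, nat_lit 1248, R7_95, R11_363, R7_26⟩, ⟨nat_lit 5, nat_lit 1008, nat_lit 12576, nat_lit 4608, nat_lit 15216, nat_lit 1440, R7_96, R1_317, R4_30⟩]⟩]⟩], [⟨nat_lit 7, [⟨nat_lit 0, [⟨nat_lit 5, nat_lit 2688, nat_lit 13584, nat_lit 4320, nat_lit 14160, nat_lit 1104, R7_90, R1_295, R8_23⟩]⟩, ⟨nat_lit 3, [⟨nat_lit 5, nat_lit 12000, nat_lit 13632, nat_lit 13872, nat_lit 14496, nat_lit 15168, R14_289, R1_302, R5_316⟩]⟩]⟩]]], [[], [], [], [], [[⟨nat_lit 4, [⟨nat_lit 1, [⟨nat_lit 5, nat_lit 4848, nat_lit 1632, nat_lit 10944, nat_lit 2976, nat_lit 1008, R6_228, R7_62, R13_21⟩]⟩]⟩,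
 ⟨nat_lit 5, [⟨nat_lit 0, [⟨nat_lit 5, nat_lit 0, nat_lit 7440, nat_lit 3936, nat_lit 1104, nat_lit 1488, R6_82, R2_23, R6_31⟩]⟩, ⟨nat_lit 1, [⟨nat_lit 5, nat_lit 4944, nat_lit 7728, nat_lit 14064, nat_lit 1200, nat_lit 1104, R13_293, R2_25, R13_23⟩]⟩]⟩], [⟨nat_lit 4, [⟨nat_lit 1, [⟨nat_lit 5, nat_lit 5712, nat_lit 144, nat_lit 10992, nat_lit 4032, nat_lit 1200, R6_229, R7_84, R3_25⟩]⟩]⟩,
 ⟨nat_lit 5, [⟨nat_lit 1, [⟨nat_lit 5, nat_lit 5808, nat_lit 4896, nat_lit 14112, nat_lit 2400, nat_lit 1296, R13_294, R2_50, R3_27⟩]⟩]⟩], [⟨nat_lit 4, [⟨nat_lit 1, [⟨nat_lit 1, nat_lit 7008, nat_lit 3600, nat_lit 11088, nat_lit 3504, nat_lit 96, R6_231, R4_73, R2_2⟩, ⟨nat_lit 5, nat_lit 6576, nat_lit 1584, nat_lit 11040, nat_lit 3600, nat_lit 12336, R6_230, R7_75, R3_257⟩]⟩]⟩,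
 ⟨nat_lit 5, [⟨nat_lit 0, [⟨nat_lit 1, nat_lit 1056, nat_lit 9648, nat_lit 4080, nat_lit 13584, nat_lit 1584, R6_85, R3_283, R7_33⟩, ⟨nat_lit 5, nat_lit 624, nat_lit 8160, nat_lit 4176, nat_lit 1920, nat_lit 1488, R6_87, R2_40, R4_31⟩]⟩, ⟨nat_lit 1, [⟨nat_lit 1, nat_lit 7056, nat_lit 9888, nat_lit 14208, nat_lit 13728, nat_lit 144, R13_296, R3_286, R2_3⟩, ⟨nat_lit 5, nat_lit 6624, nat_lit 8304, nat_lit 14160, nat_lit 1968, nat_lit 12480, R13_295, R2_41, R3_260⟩]⟩]⟩]], [[⟨nat_lit 5, [⟨nat_lit 0, [⟨nat_lit 5, nat_lit 96, nat_lit 48, nat_lit 3984, nat_lit 576, nat_lit 1584, R6_83, R1_12, R6_33⟩]⟩, ⟨nat_lit 1, [⟨nat_lit 5, nat_lit 5040, nat_lit 4800, nat_lit 14256, nat_lit 672, nat_lit 1200, R13_297, R1_14, R13_25⟩]⟩]⟩], [⟨nat_lit 5, [⟨nat_lit 1, [⟨nat_lit 5, nat_lit 5904, nat_lit 4128, nat_lit 14304, nat_lit 1872,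 nat_lit 1392, R13_298, R1_39, R3_29⟩]⟩]⟩], [⟨nat_lit 5, [⟨nat_lit 0, [⟨nat_lit 1, nat_lit 1104, nat_lit 4512, nat_lit 4128, nat_lit 1296, nat_lit 1632, R6_86, R10_27, R7_34⟩, ⟨nat_lit 5, nat_lit 672, nat_lit 4608, nat_lit 4224, nat_lit 1392, nat_lit 1536, R6_88, R1_29, R4_32⟩]⟩, ⟨nat_lit 1, [⟨nat_lit 1, nat_lit 7104, nat_lit 4896, nat_lit 14400, nat_lit 1392, nat_lit 192, R13_300, R10_29, R2_4⟩, ⟨nat_lit 5, nat_lit 6672, nat_lit 4992, nat_lit 14352, nat_lit 1440, nat_lit 12624, R13_299, R1_30, R3_263⟩]⟩]⟩]], [[⟨nat_lit 4, [⟨nat_lit 1, [⟨nat_lit 4, nat_lit 4704, nat_lit 8640, nat_lit 11136, nat_lit 15504, nat_lit 12192, R6_232, R7_323, R6_254⟩, ⟨nat_lit 5, nat_lit 4896, nat_lit 9216, nat_lit 11232, nat_lit 1968, nat_lit 1056, R6_234, R14_41, R13_22⟩]⟩]⟩,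
 ⟨nat_lit 5, [⟨nat_lit 0, [⟨nat_lit 5, nat_lit 48, nat_lit 3360, nat_lit 4032, nat_lit 0, nat_lit 1536, R6_84, R12_0, R6_32⟩]⟩, ⟨nat_lit 1, [⟨nat_lit 5, nat_lit 4992, nat_lit 9360, nat_lit 14448, nat_lit 192, nat_lit 1152, R13_301, R12_4, R13_24⟩]⟩]⟩], [⟨nat_lit 4, [⟨nat_lit 1, [⟨nat_lit 4, nat_lit 5520, nat_lit 4416, nat_lit 11184, nat_lit 16272, nat_lit 12384, R6_233, R7_339, R4_258⟩, ⟨nat_lit 5, nat_lit 5760, nat_lit 4464, nat_lit 11280, nat_lit 2016, nat_lit 1248, R6_235, R14_42, R3_26⟩]⟩]⟩,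
 ⟨nat_lit 5, [⟨nat_lit 1, [⟨nat_lit 5, nat_lit 5856, nat_lit 4848, nat_lit 14496, nat_lit 240, nat_lit 1344, R13_302, R12_5, R3_28⟩]⟩]⟩]]], [[], [[], [], [⟨nat_lit 1, [⟨nat_lit 0, [⟨nat_lit 1, nat_lit 1248, nat_lit 12336, nat_lit 4560, nat_lit 17424, nat_lit 1968, R7_95, R11_363, R7_41⟩]⟩, ⟨nat_lit 1, [⟨nat_lit 1, nat_lit 7248, nat_lit 12384, nat_lit 2976, nat_lit 17760, nat_lit 528, R2_62, R11_370, R2_11⟩]⟩, ⟨nat_lit 2, [⟨nat_lit 1, nat_lit 8112, nat_lit 12432, nat_lit 2928, nat_lit 17568, nat_lit 576, R2_61, R11_366, R2_12⟩]⟩]⟩]], [], [], [], [[⟨nat_lit 5, [⟨nat_lit 0, [⟨nat_lit 5, nat_lit 144, nat_lit 14400, nat_lit 4224, nat_lit 6096, nat_lit 2016, R4_88, R1_127, R6_42⟩]⟩, ⟨nat_lit 1, [⟨nat_lit 5, nat_lit 5088, nat_lit 14544, nat_lit 10608, nat_lit 6192, nat_lit 1632, R3_221, R1_129, R13_34⟩]⟩]⟩], [⟨nat_lit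 5, [⟨nat_lit 1, [⟨nat_lit 5, nat_lit 6192, nat_lit 2592, nat_lit 10656, nat_lit 7296, nat_lit 2016, R3_222, R1_152, R3_42⟩]⟩]⟩], [⟨nat_lit 1, [⟨nat_lit 0, [⟨nat_lit 1, nat_lit 1200, nat_lit 18480, nat_lit 4512, nat_lit 12336, nat_lit 2016, R7_94, R1_257, R7_42⟩]⟩, ⟨nat_lit 1, [⟨nat_lit 1, nat_lit 7200, nat_lit 18672, nat_lit 2928, nat_lit 12432, nat_lit 576, R2_61, R1_259, R2_12⟩]⟩, ⟨nat_lit 2, [⟨nat_lit 1, nat_lit 8064, nat_lit 18960, nat_lit 2976, nat_lit 12384, nat_lit 528, R2_62, R1_258, R2_11⟩]⟩]⟩,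
 ⟨nat_lit 5, [⟨nat_lit 0, [⟨nat_lit 1, nat_lit 1152, nat_lit 4512, nat_lit 4272, nat_lit 7584, nat_lit 2064, R4_89, R10_158, R7_43⟩, ⟨nat_lit 5, nat_lit 720, nat_lit 4608, nat_lit 4320, nat_lit 6816, nat_lit 1824, R4_90, R1_142, R4_38⟩]⟩, ⟨nat_lit 1, [⟨nat_lit 1, nat_lit 7152, nat_lit 4896, nat_lit 10752, nat_lit 7680, nat_lit 624, R3_224, R10_160, R2_13⟩, ⟨nat_lit 5, nat_lit 6720, nat_lit 4992, nat_lit 10704, nat_lit 6864, nat_lit 12720, R3_223, R1_143, R3_265⟩]⟩]⟩]]], [[], [], [], [], [[], [⟨nat_lit 4, [⟨nat_lit 1, [⟨nat_lit 5, nat_lit 5952, nat_lit 14784, nat_lit 11808, nat_lit 12480, nat_lit 1440, R4_246, R7_260, R3_30⟩]⟩, ⟨nat_lit 5, [⟨nat_lit 5, nat_lit 13872, nat_lit 14832, nat_lit 12864, nat_lit 12384, nat_lit 12480, R7_268, R7_258, R2_260⟩]⟩]⟩,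
 ⟨nat_lit 5, [⟨nat_lit 1, [⟨nat_lit 5, nat_lit 6048, nat_lit 15264, nat_lit 3408, nat_lit 11088, nat_lit 1536, R3_71, R2_231, R3_32⟩]⟩, ⟨nat_lit 5, [⟨nat_lit 5, nat_lit 14016, nat_lit 15312, nat_lit 11568, nat_lit 10992, nat_lit 12528, R2_241, R2_229, R2_261⟩]⟩]⟩]], [[], [⟨nat_lit 5, [⟨nat_lit 1, [⟨nat_lit 5, nat_lit 6144, nat_lit 2496, nat_lit 3456, nat_lit 11664, nat_lit 1632, R3_72, R1_243, R3_34⟩]⟩, ⟨nat_lit 5, [⟨nat_lit 5, nat_lit 14112, nat_lit 12432, nat_lit 11616, nat_lit 11568, nat_lit 12720, R2_242, R1_241, R2_265⟩]⟩]⟩]], [[], [⟨nat_lit 4, [⟨nat_lit 1, [⟨nat_lit 4, nat_lit 5568, nat_lit 18288, nat_lit 11856, nat_lit 16416, nat_lit 12432, R4_247, R7_342, R4_259⟩, ⟨nat_lit 5, nat_lit 6000, nat_lit 19104, nat_lit 11904, nat_lit 3984, nat_lit 1488, R4_248, R14_83, R3_31⟩]⟩, ⟨nat_lit 5, [⟨nat_lit 4, nat_lit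 13728, nat_lit 18336, nat_lit 12912, nat_lit 12096, nat_lit 13728, R7_269, R7_252, R7_286⟩, ⟨nat_lit 5, nat_lit 13920, nat_lit 19152, nat_lit 13008, nat_lit 3504, nat_lit 12576, R7_271, R14_73, R2_262⟩]⟩]⟩,
 ⟨nat_lit 5, [⟨nat_lit 1, [⟨nat_lit 5, nat_lit 6096, nat_lit 19584, nat_lit 3504, nat_lit 2352, nat_lit 1584, R3_73, R12_49, R3_33⟩]⟩, ⟨nat_lit 5, [⟨nat_lit 5, nat_lit 14064, nat_lit 19632, nat_lit 11664, nat_lit 1872, nat_lit 12672, R2_243, R12_39, R2_264⟩]⟩]⟩,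
 ⟨nat_lit 6, [⟨nat_lit 5, [⟨nat_lit 4, nat_lit 13776, nat_lit 18768, nat_lit 10560, nat_lit 10560, nat_lit 13776, R2_220, R2_220, R7_287⟩, ⟨nat_lit 5, nat_lit 13968, nat_lit 20304, nat_lit 10704, nat_lit 1824, nat_lit 12624, R2_223, R12_38, R2_263⟩, ⟨nat_lit 6, nat_lit 13824, nat_lit 20928, nat_lit 10656, nat_lit 10944, nat_lit 14064, R2_222, R1_228, R2_293⟩]⟩]⟩], [], [], [], [⟨nat_lit 4, [⟨nat_lit 5, [⟨nat_lit 4, nat_lit 14160, nat_lit 13056, nat_lit 12960, nat_lit 12240, nat_lit 13536, R7_270, R7_255, R4_282⟩]⟩]⟩,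
 ⟨nat_lit 6, [⟨nat_lit 5, [⟨nat_lit 4, nat_lit 14208, nat_lit 13104, nat_lit 10512, nat_lit 10752, nat_lit 13680, R2_219, R2_224, R4_285⟩, ⟨nat_lit 6, nat_lit 14448, nat_lit 13152, nat_lit 10608, nat_lit 11136, nat_lit 15360, R2_221, R1_232, R3_320⟩]⟩]⟩]]], [[], [], [], [], [[⟨nat_lit 4, [⟨nat_lit 0, [⟨nat_lit 5, nat_lit 192, nat_lit 16272, nat_lit 10944, nat_lit 9072, nat_lit 1632, R6_228, R7_189, R6_34⟩]⟩, ⟨nat_lit 1, [⟨nat_lit 5, nat_lit 5136, nat_lit 16320, nat_lit 10992, nat_lit 9168, nat_lit 1248, R8_229, R7_191, R13_26⟩]⟩]⟩,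
 ⟨nat_lit 5, [⟨nat_lit 0, [⟨nat_lit 5, nat_lit 288, nat_lit 16944, nat_lit 3744, nat_lit 8160, nat_lit 1872, R8_78, R2_170, R6_39⟩]⟩, ⟨nat_lit 1, [⟨nat_lit 5, nat_lit 5232, nat_lit 16992, nat_lit 11712, nat_lit 8256, nat_lit 1488, R9_244, R2_172, R13_31⟩]⟩]⟩,
 ⟨nat_lit 7, [⟨nat_lit 0, [⟨nat_lit 5, nat_lit 432, nat_lit 17568, nat_lit 2208, nat_lit 3264, nat_lit 1728, R4_46, R2_68, R6_36⟩]⟩, ⟨nat_lit 1, [⟨nat_lit 5, nat_lit 5376, nat_lit 17616, nat_lit 2592, nat_lit 3552, nat_lit 1344, R5_54, R2_74, R13_28⟩]⟩]⟩], [⟨nat_lit 4, [⟨nat_lit 1, [⟨nat_lit 5, nat_lit 6240, nat_lit 14016, nat_lit 11040, nat_lit 11040, nat_lit 1680, R8_230, R7_230, R3_35⟩]⟩]⟩,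
 ⟨nat_lit 5, [⟨nat_lit 1, [⟨nat_lit 5, nat_lit 6336, nat_lit 14352, nat_lit 11760, nat_lit 10032, nat_lit 1920, R9_245, R2_209, R3_40⟩]⟩]⟩,
 ⟨nat_lit 7, [⟨nat_lit 1, [⟨nat_lit 5, nat_lit 6432, nat_lit 14592, nat_lit 2784, nat_lit 6528, nat_lit 1776, R5_58, R2_136, R3_37⟩]⟩]⟩], [⟨nat_lit 4, [⟨nat_lit 0, [⟨nat_lit 1, nat_lit 1296, nat_lit 13584, nat_lit 9936, nat_lit 9648, nat_lit 1680, R6_207, R4_201, R7_35⟩, ⟨nat_lit 5, nat_lit 768, nat_lit 12336, nat_lit 11040, nat_lit 10608, nat_lit 1584, R6_230, R7_221, R4_33⟩]⟩, ⟨nat_lit 1, [⟨nat_lit 1, nat_lit 7296, nat_lit 13632, nat_lit 11184, nat_lit 9792, nat_lit 240, R8_233, R4_204, R2_5⟩, ⟨nat_lit 5, nat_lit 6768, nat_lit 12384, nat_lit 11136, nat_lit 10656, nat_lit 12384, R8_232, R7_222, R3_258⟩]⟩]⟩,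
 ⟨nat_lit 5, [⟨nat_lit 0, [⟨nat_lit 1, nat_lit 1392, nat_lit 14352, nat_lit 4032, nat_lit 14352, nat_lit 1824, R8_84, R3_299, R7_38⟩, ⟨nat_lit 5, nat_lit 816, nat_lit 12768, nat_lit 4176, nat_lit 9696, nat_lit 1728, R8_87, R2_202, R4_36⟩]⟩, ⟨nat_lit 1, [⟨nat_lit 1, nat_lit 7392, nat_lit 14400, nat_lit 11904, nat_lit 14496, nat_lit 384, R9_248, R3_302, R2_8⟩, ⟨nat_lit 5, nat_lit 6816, nat_lit 12816, nat_lit 11856, nat_lit 9744, nat_lit 12528, R9_247, R2_203, R3_261⟩]⟩]⟩,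
 ⟨nat_lit 7, [⟨nat_lit 0, [⟨nat_lit 5, nat_lit 912, nat_lit 13104, nat_lit 2928, nat_lit 4752, nat_lit 1632, R4_61, R2_99, R4_34⟩]⟩, ⟨nat_lit 1, [⟨nat_lit 5, nat_lit 6912, nat_lit 13152, nat_lit 3168, nat_lit 4944, nat_lit 12432, R5_66, R2_103, R3_259⟩]⟩]⟩], [⟨nat_lit 4, [⟨nat_lit 0, [⟨nat_lit 5, nat_lit 2256, nat_lit 1200, nat_lit 10992, nat_lit 9744, nat_lit 1152, R6_229, R7_203, R8_24⟩]⟩, ⟨nat_lit 1, [⟨nat_lit 5, nat_lit 7680, nat_lit 1680, nat_lit 11088, nat_lit 9936, nat_lit 480, R8_231, R7_207, R9_10⟩]⟩, ⟨nat_lit 3, [⟨nat_lit 5, nat_lit 11568, nat_lit 1440, nat_lit 11808, nat_lit 9840, nat_lit 14784, R4_246, R7_205, R5_308⟩]⟩]⟩,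
 ⟨nat_lit 5, [⟨nat_lit 0, [⟨nat_lit 5, nat_lit 2352, nat_lit 7632, nat_lit 3888, nat_lit 8784, nat_lit 1344, R8_81, R2_183, R8_28⟩]⟩, ⟨nat_lit 1, [⟨nat_lit 5, nat_lit 7776, nat_lit 8208, nat_lit 11808, nat_lit 8976, nat_lit 672, R9_246, R2_187, R9_14⟩]⟩, ⟨nat_lit 3, [⟨nat_lit 5, nat_lit 11664, nat_lit 7920, nat_lit 13632, nat_lit 8880, nat_lit 14928, R5_284, R2_185, R5_311⟩]⟩]⟩,
 ⟨nat_lit 7, [⟨nat_lit 0, [⟨nat_lit 5, nat_lit 2496, nat_lit 6384, nat_lit 2640, nat_lit 4128, nat_lit 1248, R4_55, R2_86, R8_26⟩]⟩, ⟨nat_lit 1, [⟨nat_lit 5, nat_lit 7920, nat_lit 6624, nat_lit 3024, nat_lit 4416, nat_lit 576, R5_63, R2_92, R9_12⟩]⟩]⟩]], [[⟨nat_lit 5, [⟨nat_lit 0, [⟨nat_lit 5, nat_lit 384, nat_lit 13392, nat_lit 3792, nat_lit 8976, nat_lit 1968, R8_79, R1_187, R6_41⟩]⟩, ⟨nat_lit 1, [⟨nat_lit 5, nat_lit 5328, nat_lit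 13632, nat_lit 11952, nat_lit 9072, nat_lit 1584, R9_249, R1_189, R13_33⟩]⟩]⟩], [], [⟨nat_lit 5, [⟨nat_lit 0, [⟨nat_lit 1, nat_lit 1440, nat_lit 11280, nat_lit 4080, nat_lit 10992, nat_lit 1920, R8_85, R10_229, R7_40⟩, ⟨nat_lit 5, nat_lit 864, nat_lit 11520, nat_lit 4224, nat_lit 10512, nat_lit 1776, R8_88, R1_219, R4_37⟩]⟩, ⟨nat_lit 1, [⟨nat_lit 1, nat_lit 7440, nat_lit 11376, nat_lit 12096, nat_lit 11136, nat_lit 480, R9_252, R10_232, R2_10⟩, ⟨nat_lit 5, nat_lit 6864, nat_lit 11760, nat_lit 12048, nat_lit 10560, nat_lit 12672, R9_251, R1_220, R3_264⟩]⟩]⟩], [⟨nat_lit 5, [⟨nat_lit 0, [⟨nat_lit 5, nat_lit 2448, nat_lit 720, nat_lit 3936, nat_lit 9600, nat_lit 1440, R8_82, R1_200, R8_30⟩]⟩, ⟨nat_lit 1, [⟨nat_lit 5, nat_lit 7872, nat_lit 8544, nat_lit 12000, nat_lit 9792, nat_lit 768, R9_250, R1_204, R9_16⟩]⟩,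 ⟨nat_lit 3, [⟨nat_lit 5, nat_lit 11760, nat_lit 5952, nat_lit 13680, nat_lit 9696, nat_lit 15216, R5_285, R1_202, R5_317⟩]⟩]⟩]], [[⟨nat_lit 4, [⟨nat_lit 0, [⟨nat_lit 5, nat_lit 240, nat_lit 11568, nat_lit 11328, nat_lit 2352, nat_lit 1680, R6_236, R14_49, R6_35⟩]⟩, ⟨nat_lit 1, [⟨nat_lit 4, nat_lit 4752, nat_lit 11040, nat_lit 11280, nat_lit 15600, nat_lit 12240, R8_235, R7_325, R6_255⟩, ⟨nat_lit 5, nat_lit 5184, nat_lit 11904, nat_lit 11424, nat_lit 2832, nat_lit 1296, R8_238, R14_59, R13_27⟩]⟩]⟩,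
 ⟨nat_lit 5, [⟨nat_lit 0, [⟨nat_lit 5, nat_lit 336, nat_lit 11664, nat_lit 3840, nat_lit 720, nat_lit 1920, R8_80, R12_15, R6_40⟩]⟩, ⟨nat_lit 1, [⟨nat_lit 5, nat_lit 5280, nat_lit 12000, nat_lit 12192, nat_lit 1200, nat_lit 1536, R9_254, R12_25, R13_32⟩]⟩]⟩,
 ⟨nat_lit 7, [⟨nat_lit 0, [⟨nat_lit 5, nat_lit 480, nat_lit 11616, nat_lit 2304, nat_lit 2688, nat_lit 1776, R4_48, R12_56, R6_37⟩]⟩, ⟨nat_lit 1, [⟨nat_lit 4, nat_lit 4800, nat_lit 11088, nat_lit 2544, nat_lit 14400, nat_lit 12288, R5_53, R2_300, R6_256⟩, ⟨nat_lit 5, nat_lit 5424, nat_lit 11952, nat_lit 2688, nat_lit 4032, nat_lit 1392, R5_56, R12_84, R13_29⟩]⟩]⟩], [⟨nat_lit 4, [⟨nat_lit 1, [⟨nat_lit 4, nat_lit 5616, nat_lit 12144, nat_lit 11328, nat_lit 16320, nat_lit 12480, R8_236, R7_340, R4_260⟩, ⟨nat_lit 5, nat_lit 6288, nat_lit 12720, nat_lit 11472,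 nat_lit 2928, nat_lit 1728, R8_239, R14_61, R3_36⟩]⟩]⟩,
 ⟨nat_lit 5, [⟨nat_lit 1, [⟨nat_lit 5, nat_lit 6384, nat_lit 13056, nat_lit 12240, nat_lit 1296, nat_lit 1968, R9_255, R12_27, R3_41⟩]⟩]⟩,
 ⟨nat_lit 7, [⟨nat_lit 1, [⟨nat_lit 4, nat_lit 5664, nat_lit 12336, nat_lit 2736, nat_lit 15552, nat_lit 12528, R5_57, R2_324, R4_261⟩, ⟨nat_lit 5, nat_lit 6480, nat_lit 13296, nat_lit 2880, nat_lit 4512, nat_lit 1824, R5_60, R12_94, R3_38⟩]⟩]⟩], [], [⟨nat_lit 4, [⟨nat_lit 0, [⟨nat_lit 4, nat_lit 2112, nat_lit 14352, nat_lit 10656, nat_lit 13296, nat_lit 144, R6_222, R7_277, R6_3⟩, ⟨nat_lit 5, nat_lit 2304, nat_lit 15648, nat_lit 11376, nat_lit 2400, nat_lit 1200, R6_237, R14_50, R8_25⟩]⟩, ⟨nat_lit 1, [⟨nat_lit 4, nat_lit 7584, nat_lit 14448, nat_lit 11376, nat_lit 16080, nat_lit 13008, R8_237, R7_335, R8_271⟩, ⟨nat_lit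 5, nat_lit 7728, nat_lit 15744, nat_lit 11520, nat_lit 2880, nat_lit 528, R8_240, R14_60, R9_11⟩]⟩, ⟨nat_lit 3, [⟨nat_lit 4, nat_lit 11424, nat_lit 14400, nat_lit 11520, nat_lit 14640, nat_lit 13488, R4_240, R7_305, R4_281⟩, ⟨nat_lit 5, nat_lit 11616, nat_lit 15696, nat_lit 11952, nat_lit 2688, nat_lit 14976, R4_249, R14_56, R5_312⟩]⟩]⟩,
 ⟨nat_lit 5, [⟨nat_lit 0, [⟨nat_lit 5, nat_lit 2400, nat_lit 16512, nat_lit 3984, nat_lit 768, nat_lit 1392, R8_83, R12_16, R8_29⟩]⟩, ⟨nat_lit 1, [⟨nat_lit 5, nat_lit 7824, nat_lit 16608, nat_lit 12288, nat_lit 1248, nat_lit 720, R9_256, R12_26, R9_15⟩]⟩, ⟨nat_lit 3, [⟨nat_lit 5, nat_lit 11712, nat_lit 16560, nat_lit 13728, nat_lit 1056, nat_lit 15120, R5_286, R12_22, R5_315⟩]⟩]⟩,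
 ⟨nat_lit 7, [⟨nat_lit 0, [⟨nat_lit 4, nat_lit 2160, nat_lit 14928, nat_lit 384, nat_lit 12144, nat_lit 1008, R4_8, R2_253, R6_21⟩, ⟨nat_lit 5, nat_lit 2544, nat_lit 17424, nat_lit 2688, nat_lit 2832, nat_lit 1296, R4_56, R12_59, R8_27⟩, ⟨nat_lit 7, nat_lit 2736, nat_lit 18432, nat_lit 1296, nat_lit 12720, nat_lit 624, R4_27, R1_265, R4_13⟩]⟩, ⟨nat_lit 1, [⟨nat_lit 4, nat_lit 7632, nat_lit 14976, nat_lit 2928, nat_lit 14976, nat_lit 13056, R5_61, R2_312, R8_272⟩, ⟨nat_lit 5, nat_lit 7968, nat_lit 17472, nat_lit 3072, nat_lit 4224, nat_lit 624, R5_64, R12_88, R9_13⟩, ⟨nat_lit 7, nat_lit 8016, nat_lit 18480, nat_lit 2976, nat_lit 15984, nat_lit 240, R5_62, R1_333, R5_5⟩]⟩]⟩]], [[⟨nat_lit 7, [⟨nat_lit 0, [⟨nat_lit 5, nat_lit 528, nat_lit 3072, nat_lit 2256, nat_lit 2736, nat_lit 1824, R4_47, R1_57, R6_38⟩]⟩, ⟨nat_lit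 1, [⟨nat_lit 5, nat_lit 5472, nat_lit 8880, nat_lit 2640, nat_lit 3024, nat_lit 1440, R5_55, R1_63, R13_30⟩]⟩]⟩], [⟨nat_lit 7, [⟨nat_lit 1, [⟨nat_lit 5, nat_lit 6528, nat_lit 3600, nat_lit 2832, nat_lit 5232, nat_lit 1872, R5_59, R1_109, R3_39⟩]⟩]⟩], [⟨nat_lit 4, [⟨nat_lit 0, [⟨nat_lit 1, nat_lit 1344, nat_lit 13152, nat_lit 10320, nat_lit 4512, nat_lit 1728, R6_215, R5_94, R7_36⟩]⟩, ⟨nat_lit 1, [⟨nat_lit 1, nat_lit 7344, nat_lit 13440, nat_lit 11232, nat_lit 6096, nat_lit 288, R8_234, R5_127, R2_6⟩]⟩]⟩,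
 ⟨nat_lit 5, [⟨nat_lit 0, [⟨nat_lit 1, nat_lit 1488, nat_lit 13248, nat_lit 4128, nat_lit 11280, nat_lit 1872, R8_86, R0_235, R7_39⟩]⟩, ⟨nat_lit 1, [⟨nat_lit 1, nat_lit 7488, nat_lit 13536, nat_lit 12144, nat_lit 11328, nat_lit 432, R9_253, R0_236, R2_9⟩]⟩]⟩,
 ⟨nat_lit 7, [⟨nat_lit 0, [⟨nat_lit 1, nat_lit 1536, nat_lit 13200, nat_lit 4272, nat_lit 17376, nat_lit 1776, R4_89, R11_362, R7_37⟩, ⟨nat_lit 5, nat_lit 960, nat_lit 13968, nat_lit 2976, nat_lit 3456, nat_lit 1680, R4_62, R1_72, R4_35⟩]⟩, ⟨nat_lit 1, [⟨nat_lit 1, nat_lit 7536, nat_lit 13488, nat_lit 3120, nat_lit 17472, nat_lit 336, R5_65, R11_364, R2_7⟩, ⟨nat_lit 5, nat_lit 6960, nat_lit 14112, nat_lit 3216, nat_lit 3648, nat_lit 12576, R5_67, R1_76, R3_262⟩]⟩]⟩]]]]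
noncomputable def N3067 : T3 (List N0) := [[[[], [], [⟨nat_lit 0, [⟨nat_lit 2, [⟨nat_lit 1, nat_lit 4608, nat_lit 1536, nat_lit 10368, nat_lit 672, nat_lit 1392, R6_216, R7_14, R1_29⟩, ⟨nat_lit 5, nat_lit 4752, nat_lit 960, nat_lit 10416, nat_lit 480, nat_lit 384, R6_217, R4_10, R11_8⟩]⟩]⟩,
 ⟨nat_lit 3, [⟨nat_lit 2, [⟨nat_lit 1, nat_lit 6192, nat_lit 8256, nat_lit 10032, nat_lit 2064, nat_lit 1488, R8_209, R2_43, R1_31⟩]⟩]⟩], [], [], [], [⟨nat_lit 0, [⟨nat_lit 2, [⟨nat_lit 1, nat_lit 4512, nat_lit 1632, nat_lit 10320, nat_lit 1104, nat_lit 1296, R6_215, R7_23, R10_27⟩]⟩]⟩,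
 ⟨nat_lit 3, [⟨nat_lit 2, [⟨nat_lit 1, nat_lit 6096, nat_lit 8256, nat_lit 9984, nat_lit 288, nat_lit 1584, R8_208, R2_6, R10_33⟩]⟩]⟩]], [], [[], [], [], [], [], [], [⟨nat_lit 0, [⟨nat_lit 2, [⟨nat_lit 0, nat_lit 4464, nat_lit 2256, nat_lit 10560, nat_lit 5760, nat_lit 1248, R6_220, R7_120, R3_26⟩, ⟨nat_lit 1, nat_lit 4560, nat_lit 2304, nat_lit 10608, nat_lit 15552, nat_lit 1344, R6_221, R14_324, R10_28⟩]⟩]⟩,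
 ⟨nat_lit 2, [⟨nat_lit 2, [⟨nat_lit 0, nat_lit 5232, nat_lit 4224, nat_lit 11424, nat_lit 4176, nat_lit 6432, R4_238, R2_87, R3_134⟩, ⟨nat_lit 1, nat_lit 5280, nat_lit 4272, nat_lit 11472, nat_lit 12912, nat_lit 1488, R4_239, R12_269, R10_31⟩]⟩, ⟨nat_lit 6, [⟨nat_lit 0, nat_lit 14880, nat_lit 3840, nat_lit 11904, nat_lit 12864, nat_lit 13152, R7_248, R2_268, R2_274⟩, ⟨nat_lit 1, nat_lit 15168, nat_lit 3888, nat_lit 12000, nat_lit 12384, nat_lit 14496, R7_250, R12_258, R1_302⟩, ⟨nat_lit 2, nat_lit 15072, nat_lit 3936, nat_lit 11952, nat_lit 14208, nat_lit 14016, R7_249, R1_296, R12_292⟩]⟩]⟩,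
 ⟨nat_lit 3, [⟨nat_lit 2, [⟨nat_lit 0, nat_lit 6048, nat_lit 3264, nat_lit 10272, nat_lit 8832, nat_lit 7680, R8_214, R2_184, R3_160⟩, ⟨nat_lit 1, nat_lit 6144, nat_lit 3360, nat_lit 10368, nat_lit 864, nat_lit 1632, R8_216, R12_18, R10_34⟩, ⟨nat_lit 3, nat_lit 6384, nat_lit 3312, nat_lit 10320, nat_lit 9648, nat_lit 816, R8_215, R1_201, R0_17⟩]⟩]⟩]], [[], [], [⟨nat_lit 0, [⟨nat_lit 2, [⟨nat_lit 5, nat_lit 4800, nat_lit 288, nat_lit 10464, nat_lit 1920, nat_lit 432, R6_218, R5_40, R11_9⟩]⟩]⟩,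
 ⟨nat_lit 3, [⟨nat_lit 0, [⟨nat_lit 5, nat_lit 288, nat_lit 4800, nat_lit 10464, nat_lit 12624, nat_lit 1920, R6_218, R11_263, R5_40⟩]⟩, ⟨nat_lit 2, [⟨nat_lit 1, nat_lit 6240, nat_lit 6240, nat_lit 10080, nat_lit 1536, nat_lit 1536, R8_210, R1_32, R1_32⟩, ⟨nat_lit 5, nat_lit 6480, nat_lit 6480, nat_lit 10128, nat_lit 12768, nat_lit 1920, R8_211, R11_266, R11_40⟩]⟩]⟩]], [], [], [[], [], [], [], [⟨nat_lit 0, [⟨nat_lit 2, [⟨nat_lit 0, nat_lit 4368, nat_lit 14928, nat_lit 10176, nat_lit 5664, nat_lit 5808, R6_212, R4_118, R4_121⟩, ⟨nat_lit 3, nat_lit 4656, nat_lit 15168, nat_lit 10224, nat_lit 8160, nat_lit 8784, R6_213, R5_170, R5_183⟩]⟩]⟩,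
 ⟨nat_lit 2, [⟨nat_lit 2, [⟨nat_lit 0, nat_lit 5136, nat_lit 14976, nat_lit 11232, nat_lit 864, nat_lit 6432, R4_234, R3_18, R4_134⟩, ⟨nat_lit 3, nat_lit 5328, nat_lit 15264, nat_lit 11280, nat_lit 5856, nat_lit 9072, R4_235, R0_122, R5_189⟩]⟩, ⟨nat_lit 6, [⟨nat_lit 0, nat_lit 14784, nat_lit 11808, nat_lit 11568, nat_lit 1440, nat_lit 5952, R7_241, R3_30, R7_124⟩, ⟨nat_lit 2, nat_lit 14976, nat_lit 11952, nat_lit 11616, nat_lit 7344, nat_lit 17472, R7_242, R10_153, R14_364⟩]⟩]⟩,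
 ⟨nat_lit 3, [⟨nat_lit 2, [⟨nat_lit 3, nat_lit 6288, nat_lit 15216, nat_lit 9840, nat_lit 8400, nat_lit 8928, R8_205, R11_175, R5_186⟩]⟩]⟩,
 ⟨nat_lit 6, [⟨nat_lit 4, [⟨nat_lit 2, nat_lit 14400, nat_lit 4224, nat_lit 10848, nat_lit 6096, nat_lit 144, R6_226, R1_127, R7_3⟩]⟩, ⟨nat_lit 6, [⟨nat_lit 2, nat_lit 15984, nat_lit 12000, nat_lit 11712, nat_lit 6144, nat_lit 17520, R4_244, R1_128, R14_365⟩]⟩]⟩], [], [], [⟨nat_lit 0, [⟨nat_lit 2, [⟨nat_lit 3, nat_lit 4704, nat_lit 16896, nat_lit 10272, nat_lit 8448, nat_lit 1968, R6_214, R5_176, R11_41⟩]⟩]⟩,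
 ⟨nat_lit 2, [⟨nat_lit 2, [⟨nat_lit 3, nat_lit 5376, nat_lit 17616, nat_lit 11328, nat_lit 5904, nat_lit 2016, R4_236, R0_123, R11_42⟩]⟩, ⟨nat_lit 6, [⟨nat_lit 0, nat_lit 14928, nat_lit 13632, nat_lit 11664, nat_lit 7920, nat_lit 8880, R7_243, R3_165, R2_185⟩, ⟨nat_lit 2, nat_lit 15120, nat_lit 13728, nat_lit 11712, nat_lit 7440, nat_lit 1056, R7_244, R10_155, R12_22⟩, ⟨nat_lit 3, nat_lit 15216, nat_lit 13680, nat_lit 11760, nat_lit 5952, nat_lit 9696, R7_245, R0_124, R1_202⟩]⟩]⟩,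
 ⟨nat_lit 3, [⟨nat_lit 0, [⟨nat_lit 7, nat_lit 336, nat_lit 14448, nat_lit 10896, nat_lit 6288, nat_lit 1536, R6_227, R1_131, R2_32⟩]⟩, ⟨nat_lit 2, [⟨nat_lit 3, nat_lit 6432, nat_lit 17232, nat_lit 9888, nat_lit 8448, nat_lit 2064, R8_206, R11_176, R11_43⟩, ⟨nat_lit 7, nat_lit 6528, nat_lit 17136, nat_lit 9936, nat_lit 6384, nat_lit 1008, R8_207, R1_133, R1_21⟩]⟩, ⟨nat_lit 3, [⟨nat_lit 7, nat_lit 12720, nat_lit 16032, nat_lit 11760, nat_lit 6336, nat_lit 1152, R4_245, R1_132, R12_24⟩]⟩]⟩,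
 ⟨nat_lit 4, [⟨nat_lit 7, [⟨nat_lit 6, nat_lit 16896, nat_lit 4704, nat_lit 10272, nat_lit 8448, nat_lit 1968, R6_214, R5_176, R11_41⟩]⟩]⟩,
 ⟨nat_lit 6, [⟨nat_lit 4, [⟨nat_lit 2, nat_lit 14448, nat_lit 336, nat_lit 10896, nat_lit 6288, nat_lit 1536, R6_227, R1_131, R2_32⟩]⟩, ⟨nat_lit 6, [⟨nat_lit 2, nat_lit 16032, nat_lit 12720, nat_lit 11760, nat_lit 6336, nat_lit 1152, R4_245, R1_132, R12_24⟩]⟩, ⟨nat_lit 7, [⟨nat_lit 2, nat_lit 17136, nat_lit 6528, nat_lit 9936, nat_lit 6384, nat_lit 1008, R8_207, R1_133, R1_21⟩, ⟨nat_lit 6, nat_lit 17232, nat_lit 6432, nat_lit 9888, nat_lit 8448, nat_lit 2064, R8_206, R11_176, R11_43⟩]⟩]⟩,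
 ⟨nat_lit 7, [⟨nat_lit 3, [⟨nat_lit 4, nat_lit 13632, nat_lit 14928, nat_lit 11664, nat_lit 7920, nat_lit 8880, R7_243, R3_165, R2_185⟩, ⟨nat_lit 6, nat_lit 13680, nat_lit 15216, nat_lit 11760, nat_lit 5952, nat_lit 9696, R7_245, R0_124, R1_202⟩, ⟨nat_lit 7, nat_lit 13728, nat_lit 15120, nat_lit 11712, nat_lit 7440, nat_lit 1056, R7_244, R10_155, R12_22⟩]⟩, ⟨nat_lit 7, [⟨nat_lit 6, nat_lit 17616, nat_lit 5376, nat_lit 11328, nat_lit 5904, nat_lit 2016, R4_236, R0_123, R11_42⟩]⟩]⟩]]], [[[], [], [⟨nat_lit 0, [⟨nat_lit 0, [⟨nat_lit 5, nat_lit 0, nat_lit 4512, nat_lit 7296, nat_lit 6816, nat_lit 1584, R6_152, R4_142, R5_33⟩]⟩, ⟨nat_lit 2, [⟨nat_lit 1, nat_lit 4992, nat_lit 12624, nat_lit 13200, nat_lit 6672, nat_lit 1440, R13_275, R7_139, R1_30⟩, ⟨nat_lit 5, nat_lit 5040, nat_lit 4656, nat_lit 13248, nat_lit 6864,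 nat_lit 1152, R13_276, R4_143, R11_24⟩]⟩]⟩,
 ⟨nat_lit 1, [⟨nat_lit 0, [⟨nat_lit 5, nat_lit 96, nat_lit 5184, nat_lit 7968, nat_lit 5616, nat_lit 3984, R4_166, R3_117, R5_83⟩]⟩, ⟨nat_lit 2, [⟨nat_lit 1, nat_lit 5664, nat_lit 13440, nat_lit 9936, nat_lit 4848, nat_lit 1776, R3_207, R2_101, R1_37⟩, ⟨nat_lit 5, nat_lit 5760, nat_lit 5328, nat_lit 9984, nat_lit 5712, nat_lit 3984, R3_208, R3_119, R11_83⟩]⟩]⟩,
 ⟨nat_lit 3, [⟨nat_lit 2, [⟨nat_lit 1, nat_lit 6720, nat_lit 13008, nat_lit 10512, nat_lit 9840, nat_lit 1632, R9_219, R2_205, R1_34⟩]⟩]⟩], [], [], [], [⟨nat_lit 0, [⟨nat_lit 2, [⟨nat_lit 1, nat_lit 4896, nat_lit 192, nat_lit 13152, nat_lit 7104, nat_lit 1392, R13_274, R7_148, R10_29⟩]⟩]⟩,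
 ⟨nat_lit 1, [⟨nat_lit 2, [⟨nat_lit 1, nat_lit 5520, nat_lit 5904, nat_lit 9888, nat_lit 5328, nat_lit 1920, R3_206, R2_111, R10_40⟩]⟩]⟩,
 ⟨nat_lit 3, [⟨nat_lit 2, [⟨nat_lit 1, nat_lit 6624, nat_lit 7200, nat_lit 10464, nat_lit 7296, nat_lit 1824, R9_218, R2_152, R10_38⟩]⟩]⟩]], [[], [], [⟨nat_lit 1, [⟨nat_lit 0, [⟨nat_lit 5, nat_lit 144, nat_lit 4656, nat_lit 8016, nat_lit 4080, nat_lit 4080, R4_167, R10_85, R5_85⟩]⟩, ⟨nat_lit 2, [⟨nat_lit 1, nat_lit 5712, nat_lit 5328, nat_lit 10080, nat_lit 3552, nat_lit 1824, R3_210, R1_74, R1_38⟩, ⟨nat_lit 5, nat_lit 5808, nat_lit 4704, nat_lit 10128, nat_lit 4128, nat_lit 4080, R3_211, R10_86, R11_85⟩]⟩]⟩], [], [], [], [⟨nat_lit 1, [⟨nat_lit 2, [⟨nat_lit 1, nat_lit 5568, nat_lit 4608, nat_lit 10032, nat_lit 4032, nat_lit 2016, R3_209, R1_84, R10_42⟩]⟩]⟩]], [[], [], [],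 [], [], [], [⟨nat_lit 0, [⟨nat_lit 2, [⟨nat_lit 0, nat_lit 4848, nat_lit 480, nat_lit 13344, nat_lit 5856, nat_lit 1344, R13_278, R7_122, R3_28⟩, ⟨nat_lit 1, nat_lit 4944, nat_lit 528, nat_lit 13392, nat_lit 16464, nat_lit 1440, R13_279, R14_343, R10_30⟩]⟩]⟩,
 ⟨nat_lit 1, [⟨nat_lit 2, [⟨nat_lit 1, nat_lit 5616, nat_lit 672, nat_lit 10224, nat_lit 13536, nat_lit 1968, R3_213, R12_282, R10_41⟩]⟩]⟩,
 ⟨nat_lit 2, [⟨nat_lit 2, [⟨nat_lit 0, nat_lit 5424, nat_lit 2592, nat_lit 7536, nat_lit 4272, nat_lit 6528, R3_157, R2_89, R3_136⟩, ⟨nat_lit 1, nat_lit 5472, nat_lit 2640, nat_lit 7584, nat_lit 13440, nat_lit 1536, R3_158, R12_280, R10_32⟩]⟩, ⟨nat_lit 6, [⟨nat_lit 0, nat_lit 15840, nat_lit 2208, nat_lit 10368, nat_lit 12960, nat_lit 13440, R2_216, R2_270, R2_280⟩, ⟨nat_lit 1, nat_lit 15936, nat_lit 2256, nat_lit 10464,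 nat_lit 12528, nat_lit 14784, R2_218, R12_261, R1_308⟩, ⟨nat_lit 2, nat_lit 15888, nat_lit 2304, nat_lit 10416, nat_lit 14304, nat_lit 14592, R2_217, R1_298, R12_304⟩]⟩]⟩,
 ⟨nat_lit 3, [⟨nat_lit 2, [⟨nat_lit 0, nat_lit 6576, nat_lit 1632, nat_lit 10656, nat_lit 9264, nat_lit 7824, R9_222, R2_193, R3_163⟩, ⟨nat_lit 1, nat_lit 6672, nat_lit 1728, nat_lit 10752, nat_lit 8304, nat_lit 1872, R9_224, R12_173, R10_39⟩, ⟨nat_lit 3, nat_lit 6816, nat_lit 1680, nat_lit 10704, nat_lit 10080, nat_lit 912, R9_223, R1_210, R0_19⟩]⟩]⟩]], [[], [], [⟨nat_lit 0, [⟨nat_lit 0, [⟨nat_lit 5, nat_lit 48, nat_lit 14448, nat_lit 7344, nat_lit 8736, nat_lit 1632, R6_153, R5_182, R5_34⟩]⟩, ⟨nat_lit 2, [⟨nat_lit 5, nat_lit 5088, nat_lit 14592, nat_lit 13296, nat_lit 10464, nat_lit 1200, R13_277, R5_218, R11_25⟩]⟩]⟩,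
 ⟨nat_lit 1, [⟨nat_lit 0, [⟨nat_lit 5, nat_lit 192, nat_lit 14496, nat_lit 8064, nat_lit 8016, nat_lit 4032, R4_168, R0_167, R5_84⟩]⟩, ⟨nat_lit 2, [⟨nat_lit 5, nat_lit 5856, nat_lit 14640, nat_lit 10176, nat_lit 8064, nat_lit 4032, R3_212, R0_168, R11_84⟩]⟩]⟩,
 ⟨nat_lit 3, [⟨nat_lit 0, [⟨nat_lit 5, nat_lit 384, nat_lit 14544, nat_lit 9312, nat_lit 12672, nat_lit 2448, R8_194, R11_264, R5_51⟩]⟩, ⟨nat_lit 2, [⟨nat_lit 1, nat_lit 6768, nat_lit 14400, nat_lit 10560, nat_lit 10656, nat_lit 1680, R9_220, R1_222, R1_35⟩, ⟨nat_lit 5, nat_lit 6864, nat_lit 14688, nat_lit 10608, nat_lit 12816, nat_lit 2448, R9_221, R11_267, R11_51⟩]⟩]⟩]]], [[], [], [[], [], [], [], [⟨nat_lit 2, [⟨nat_lit 6, [⟨nat_lit 0, nat_lit 15312, nat_lit 11568, nat_lit 10992, nat_lit 12528, nat_lit 14016, R2_229, R2_261, R7_292⟩, ⟨nat_lit 2, nat_lit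 15504, nat_lit 11712, nat_lit 11040, nat_lit 13872, nat_lit 18048, R2_230, R1_289, R14_376⟩]⟩]⟩], [⟨nat_lit 2, [⟨nat_lit 6, [⟨nat_lit 2, nat_lit 15600, nat_lit 12144, nat_lit 11184, nat_lit 15072, nat_lit 15168, R2_233, R1_314, R12_316⟩]⟩]⟩], [⟨nat_lit 2, [⟨nat_lit 6, [⟨nat_lit 0, nat_lit 15360, nat_lit 2016, nat_lit 11424, nat_lit 13104, nat_lit 13296, R2_238, R2_273, R2_277⟩, ⟨nat_lit 1, nat_lit 15744, nat_lit 2064, nat_lit 11520, nat_lit 12624, nat_lit 14640, R2_240, R12_263, R1_305⟩, ⟨nat_lit 2, nat_lit 15648, nat_lit 2112, nat_lit 11472, nat_lit 14448, nat_lit 14160, R2_239, R1_301, R12_295⟩]⟩]⟩]], [], [], [], [[], [], [], [], [⟨nat_lit 2, [⟨nat_lit 6, [⟨nat_lit 0, nat_lit 15264, nat_lit 3408, nat_lit 11088, nat_lit 1536, nat_lit 6048, R2_231, R3_32, R7_126⟩, ⟨nat_lit 2, nat_lit 15456, nat_lit 10896, nat_lit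 11136, nat_lit 7392, nat_lit 17808, R2_232, R10_154, R14_371⟩]⟩]⟩,
 ⟨nat_lit 4, [⟨nat_lit 4, [⟨nat_lit 6, nat_lit 14304, nat_lit 17376, nat_lit 15744, nat_lit 1296, nat_lit 4704, R6_328, R5_27, R4_98⟩]⟩, ⟨nat_lit 7, [⟨nat_lit 6, nat_lit 16944, nat_lit 17664, nat_lit 19152, nat_lit 9648, nat_lit 10656, R8_399, R5_201, R5_222⟩]⟩]⟩,
 ⟨nat_lit 6, [⟨nat_lit 4, [⟨nat_lit 2, nat_lit 14544, nat_lit 10608, nat_lit 13872, nat_lit 6192, nat_lit 5088, R13_289, R1_129, R7_106⟩, ⟨nat_lit 6, nat_lit 14688, nat_lit 17472, nat_lit 13824, nat_lit 8112, nat_lit 5280, R13_288, R11_169, R4_110⟩]⟩, ⟨nat_lit 6, [⟨nat_lit 2, nat_lit 16080, nat_lit 10800, nat_lit 17184, nat_lit 6240, nat_lit 17856, R3_358, R1_130, R14_372⟩]⟩, ⟨nat_lit 7, [⟨nat_lit 6, nat_lit 17328, nat_lit 17856, nat_lit 11520, nat_lit 8160, nat_lit 10848, R9_240, R11_170,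 R5_226⟩]⟩]⟩,
 ⟨nat_lit 7, [⟨nat_lit 7, [⟨nat_lit 6, nat_lit 17664, nat_lit 17760, nat_lit 13488, nat_lit 5760, nat_lit 10752, R5_281, R0_120, R5_224⟩]⟩]⟩], [⟨nat_lit 2, [⟨nat_lit 6, [⟨nat_lit 2, nat_lit 15552, nat_lit 6144, nat_lit 11232, nat_lit 7536, nat_lit 14928, R2_234, R10_157, R12_311⟩]⟩]⟩,
 ⟨nat_lit 4, [⟨nat_lit 4, [⟨nat_lit 6, nat_lit 14352, nat_lit 5664, nat_lit 15792, nat_lit 1440, nat_lit 432, R6_329, R5_30, R3_9⟩]⟩, ⟨nat_lit 5, [⟨nat_lit 6, nat_lit 16224, nat_lit 5712, nat_lit 14880, nat_lit 13344, nat_lit 2928, R4_310, R5_278, R10_61⟩]⟩, ⟨nat_lit 7, [⟨nat_lit 6, nat_lit 16992, nat_lit 5760, nat_lit 19248, nat_lit 9888, nat_lit 7488, R8_401, R5_206, R0_156⟩]⟩]⟩,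
 ⟨nat_lit 6, [⟨nat_lit 4, [⟨nat_lit 2, nat_lit 14592, nat_lit 6000, nat_lit 13968, nat_lit 6672, nat_lit 3504, R13_291, R1_139, R2_73⟩, ⟨nat_lit 6, nat_lit 14736, nat_lit 5856, nat_lit 13920, nat_lit 9840, nat_lit 4032, R13_290, R11_205, R3_84⟩]⟩, ⟨nat_lit 5, [⟨nat_lit 2, nat_lit 16464, nat_lit 6048, nat_lit 10560, nat_lit 6768, nat_lit 2976, R3_220, R1_141, R1_62⟩, ⟨nat_lit 6, nat_lit 16512, nat_lit 5904, nat_lit 10512, nat_lit 9936, nat_lit 3600, R3_219, R11_207, R10_75⟩]⟩, ⟨nat_lit 6, [⟨nat_lit 2, nat_lit 16128, nat_lit 6096, nat_lit 17232, nat_lit 6720, nat_lit 14976, R3_359, R1_140, R12_312⟩]⟩, ⟨nat_lit 7, [⟨nat_lit 6, nat_lit 17376, nat_lit 5952, nat_lit 11568, nat_lit 9888, nat_lit 7536, R9_241, R11_206, R0_157⟩]⟩]⟩,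
 ⟨nat_lit 7, [⟨nat_lit 7, [⟨nat_lit 6, nat_lit 17712, nat_lit 5808, nat_lit 13536, nat_lit 7056, nat_lit 7584, R5_282, R0_147, R0_158⟩]⟩]⟩], [], [⟨nat_lit 2, [⟨nat_lit 6, [⟨nat_lit 0, nat_lit 15408, nat_lit 4080, nat_lit 11280, nat_lit 8064, nat_lit 9360, R2_235, R3_168, R2_195⟩, ⟨nat_lit 2, nat_lit 15696, nat_lit 4320, nat_lit 11328, nat_lit 7488, nat_lit 8880, R2_236, R10_156, R12_185⟩, ⟨nat_lit 3, nat_lit 15792, nat_lit 4128, nat_lit 11376, nat_lit 6000, nat_lit 10176, R2_237, R0_125, R1_212⟩]⟩]⟩,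
 ⟨nat_lit 4, [⟨nat_lit 7, [⟨nat_lit 6, nat_lit 17040, nat_lit 3936, nat_lit 19200, nat_lit 9744, nat_lit 13920, R8_400, R5_203, R11_290⟩]⟩]⟩,
 ⟨nat_lit 6, [⟨nat_lit 4, [⟨nat_lit 2, nat_lit 14640, nat_lit 4176, nat_lit 14016, nat_lit 6480, nat_lit 8592, R13_292, R1_135, R2_179⟩]⟩, ⟨nat_lit 6, [⟨nat_lit 2, nat_lit 16176, nat_lit 4272, nat_lit 17280, nat_lit 6528, nat_lit 9024, R3_360, R1_136, R12_188⟩]⟩, ⟨nat_lit 7, [⟨nat_lit 2, nat_lit 17280, nat_lit 4224, nat_lit 11664, nat_lit 6576, nat_lit 9408, R9_243, R1_137, R1_196⟩, ⟨nat_lit 6, nat_lit 17424, nat_lit 4032, nat_lit 11616, nat_lit 8832, nat_lit 14112, R9_242, R11_184, R11_294⟩]⟩]⟩,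
 ⟨nat_lit 7, [⟨nat_lit 7, [⟨nat_lit 6, nat_lit 17760, nat_lit 3984, nat_lit 13584, nat_lit 6288, nat_lit 14016, R5_283, R0_131, R11_292⟩]⟩]⟩]]], [[[], [], [], [], [], [], [⟨nat_lit 3, [⟨nat_lit 2, [⟨nat_lit 1, nat_lit 7008, nat_lit 5568, nat_lit 7728, nat_lit 6000, nat_lit 1680, R5_161, R2_125, R10_35⟩]⟩]⟩]], [], [[], [], [], [], [⟨nat_lit 3, [⟨nat_lit 2, [⟨nat_lit 0, nat_lit 6912, nat_lit 14736, nat_lit 7392, nat_lit 7824, nat_lit 12720, R5_154, R2_163, R4_265⟩, ⟨nat_lit 3, nat_lit 7200, nat_lit 15360, nat_lit 7488, nat_lit 8352, nat_lit 16656, R5_156, R1_174, R5_347⟩]⟩]⟩], [], [⟨nat_lit 3, [⟨nat_lit 2, [⟨nat_lit 0, nat_lit 6960, nat_lit 4176, nat_lit 7440, nat_lit 9072, nat_lit 7728, R5_155, R2_189, R3_161⟩, ⟨nat_lit 1, nat_lit 7056, nat_lit 4464, nat_lit 7824, nat_lit 6096, nat_lit 1728, R5_163, R12_127,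 R10_36⟩, ⟨nat_lit 3, nat_lit 7248, nat_lit 4368, nat_lit 7632, nat_lit 9888, nat_lit 864, R5_159, R1_206, R0_18⟩]⟩]⟩], [⟨nat_lit 3, [⟨nat_lit 2, [⟨nat_lit 3, nat_lit 7344, nat_lit 16368, nat_lit 7536, nat_lit 8784, nat_lit 2160, R5_157, R1_183, R11_45⟩]⟩]⟩]], [[], [], [⟨nat_lit 3, [⟨nat_lit 0, [⟨nat_lit 5, nat_lit 624, nat_lit 4800, nat_lit 10704, nat_lit 12720, nat_lit 2112, R4_223, R11_265, R5_44⟩]⟩, ⟨nat_lit 2, [⟨nat_lit 1, nat_lit 7152, nat_lit 5856, nat_lit 7680, nat_lit 6960, nat_lit 1584, R5_160, R1_145, R1_33⟩, ⟨nat_lit 5, nat_lit 7584, nat_lit 6096, nat_lit 7296, nat_lit 12864, nat_lit 2112, R5_152, R11_268, R11_44⟩]⟩]⟩], [], [], [], [⟨nat_lit 3, [⟨nat_lit 2, [⟨nat_lit 1, nat_lit 7104, nat_lit 4272, nat_lit 7776, nat_lit 4704, nat_lit 1776, R5_162, R1_98, R10_37⟩]⟩]⟩]], [[], [], [], [⟨nat_lit 3, [⟨nat_lit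 0, [⟨nat_lit 7, nat_lit 768, nat_lit 5520, nat_lit 10272, nat_lit 5952, nat_lit 13680, R4_214, R2_124, R3_285⟩]⟩, ⟨nat_lit 2, [⟨nat_lit 7, nat_lit 7728, nat_lit 5568, nat_lit 7008, nat_lit 6000, nat_lit 1680, R5_146, R2_125, R10_35⟩]⟩]⟩,
 ⟨nat_lit 4, [⟨nat_lit 3, [⟨nat_lit 4, nat_lit 12816, nat_lit 3168, nat_lit 15984, nat_lit 12624, nat_lit 11136, R7_333, R6_263, R3_232⟩, ⟨nat_lit 5, nat_lit 13056, nat_lit 4032, nat_lit 16704, nat_lit 12960, nat_lit 12192, R7_348, R4_270, R0_254⟩, ⟨nat_lit 6, nat_lit 12960, nat_lit 6384, nat_lit 16224, nat_lit 14544, nat_lit 8880, R7_338, R8_303, R10_185⟩]⟩]⟩,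
 ⟨nat_lit 7, [⟨nat_lit 0, [⟨nat_lit 4, nat_lit 2592, nat_lit 3552, nat_lit 9600, nat_lit 7968, nat_lit 1344, R7_200, R13_166, R13_28⟩, ⟨nat_lit 5, nat_lit 3024, nat_lit 4416, nat_lit 11280, nat_lit 6624, nat_lit 576, R7_235, R3_138, R9_12⟩, ⟨nat_lit 6, nat_lit 2784, nat_lit 6528, nat_lit 10464, nat_lit 5760, nat_lit 1776, R7_218, R9_120, R3_37⟩, ⟨nat_lit 7, nat_lit 3168, nat_lit 4944, nat_lit 10944, nat_lit 13152, nat_lit 12432, R7_228, R3_274, R3_259⟩]⟩, ⟨nat_lit 3, [⟨nat_lit 4, nat_lit 13824, nat_lit 3600, nat_lit 11856, nat_lit 8016, nat_lit 12048, R14_247, R13_167, R3_251⟩, ⟨nat_lit 5, nat_lit 14160, nat_lit 4464, nat_lit 11952, nat_lit 6672, nat_lit 12768, R14_249, R3_139, R0_266⟩, ⟨nat_lit 6, nat_lit 14016, nat_lit 6576, nat_lit 11904, nat_lit 5808, nat_lit 10464, R14_248, R9_121, R10_218⟩]⟩]⟩]], [], [[],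 [], [], [⟨nat_lit 3, [⟨nat_lit 0, [⟨nat_lit 7, nat_lit 816, nat_lit 4224, nat_lit 10368, nat_lit 4656, nat_lit 14256, R4_216, R1_97, R3_297⟩]⟩, ⟨nat_lit 2, [⟨nat_lit 7, nat_lit 7776, nat_lit 4272, nat_lit 7104, nat_lit 4704, nat_lit 1776, R5_148, R1_98, R10_37⟩]⟩]⟩,
 ⟨nat_lit 4, [⟨nat_lit 3, [⟨nat_lit 4, nat_lit 12864, nat_lit 2640, nat_lit 17712, nat_lit 13152, nat_lit 15168, R7_369, R4_274, R3_316⟩, ⟨nat_lit 6, nat_lit 13008, nat_lit 5088, nat_lit 17904, nat_lit 16272, nat_lit 9312, R7_373, R5_339, R10_194⟩]⟩]⟩,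
 ⟨nat_lit 7, [⟨nat_lit 0, [⟨nat_lit 4, nat_lit 2640, nat_lit 3024, nat_lit 9696, nat_lit 8880, nat_lit 1440, R7_202, R3_185, R13_30⟩, ⟨nat_lit 6, nat_lit 2832, nat_lit 5232, nat_lit 10560, nat_lit 3600, nat_lit 1872, R7_220, R0_75, R3_39⟩, ⟨nat_lit 7, nat_lit 3216, nat_lit 3648, nat_lit 10992, nat_lit 5376, nat_lit 12576, R7_229, R10_112, R3_262⟩]⟩, ⟨nat_lit 3, [⟨nat_lit 4, nat_lit 13872, nat_lit 3072, nat_lit 12288, nat_lit 9168, nat_lit 15504, R14_256, R3_191, R3_323⟩, ⟨nat_lit 6, nat_lit 14064, nat_lit 5280, nat_lit 12336, nat_lit 3648, nat_lit 10848, R14_257, R0_76, R10_226⟩]⟩]⟩], [], [], [], [⟨nat_lit 3, [⟨nat_lit 0, [⟨nat_lit 7, nat_lit 720, nat_lit 5808, nat_lit 8544, nat_lit 6912, nat_lit 2112, R4_178, R1_144, R2_44⟩]⟩, ⟨nat_lit 2, [⟨nat_lit 3, nat_lit 7296, nat_lit 6096, nat_lit 7584, nat_lit 8496,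 nat_lit 2112, R5_158, R11_177, R11_44⟩, ⟨nat_lit 7, nat_lit 7680, nat_lit 5856, nat_lit 7152, nat_lit 6960, nat_lit 1584, R5_149, R1_145, R1_33⟩]⟩]⟩,
 ⟨nat_lit 4, [⟨nat_lit 3, [⟨nat_lit 4, nat_lit 12768, nat_lit 5616, nat_lit 17664, nat_lit 12624, nat_lit 7728, R7_368, R4_263, R2_161⟩, ⟨nat_lit 6, nat_lit 12912, nat_lit 5952, nat_lit 17856, nat_lit 16416, nat_lit 8256, R7_372, R5_342, R1_172⟩]⟩, ⟨nat_lit 7, [⟨nat_lit 6, nat_lit 17088, nat_lit 5904, nat_lit 15504, nat_lit 9024, nat_lit 8544, R4_323, R5_188, R11_178⟩]⟩]⟩,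
 ⟨nat_lit 6, [⟨nat_lit 7, [⟨nat_lit 2, nat_lit 17472, nat_lit 6144, nat_lit 17472, nat_lit 6432, nat_lit 6432, R5_364, R1_134, R1_134⟩, ⟨nat_lit 6, nat_lit 17520, nat_lit 6048, nat_lit 17520, nat_lit 8592, nat_lit 8592, R5_365, R11_179, R11_179⟩]⟩]⟩,
 ⟨nat_lit 7, [⟨nat_lit 0, [⟨nat_lit 7, nat_lit 3120, nat_lit 5712, nat_lit 8592, nat_lit 7776, nat_lit 336, R7_179, R10_162, R2_7⟩]⟩, ⟨nat_lit 3, [⟨nat_lit 4, nat_lit 13776, nat_lit 5664, nat_lit 12144, nat_lit 7968, nat_lit 8928, R14_253, R3_166, R2_186⟩, ⟨nat_lit 6, nat_lit 13968, nat_lit 6000, nat_lit 12192, nat_lit 6048, nat_lit 9744, R14_254, R0_126, R1_203⟩, ⟨nat_lit 7, nat_lit 14256, nat_lit 5760, nat_lit 12240, nat_lit 7824, nat_lit 1104, R14_255, R10_163, R12_23⟩]⟩]⟩]], [[⟨nat_lit 3, [⟨nat_lit 0, [⟨nat_lit 4, nat_lit 432, nat_lit 14448, nat_lit 8832, nat_lit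 7536, nat_lit 12864, R4_184, R2_157, R6_268⟩, ⟨nat_lit 5, nat_lit 528, nat_lit 15024, nat_lit 9168, nat_lit 8064, nat_lit 14832, R4_191, R1_168, R8_309⟩]⟩, ⟨nat_lit 2, [⟨nat_lit 4, nat_lit 7392, nat_lit 14736, nat_lit 6912, nat_lit 7824, nat_lit 12720, R5_144, R2_163, R4_265⟩, ⟨nat_lit 5, nat_lit 7488, nat_lit 15360, nat_lit 7200, nat_lit 8352, nat_lit 16656, R5_150, R1_174, R5_347⟩]⟩]⟩,
 ⟨nat_lit 7, [⟨nat_lit 0, [⟨nat_lit 4, nat_lit 2544, nat_lit 14400, nat_lit 8736, nat_lit 11088, nat_lit 12288, R7_182, R3_231, R6_256⟩, ⟨nat_lit 5, nat_lit 2928, nat_lit 14976, nat_lit 9024, nat_lit 9024, nat_lit 14880, R7_188, R10_188, R8_310⟩, ⟨nat_lit 6, nat_lit 2736, nat_lit 15552, nat_lit 8928, nat_lit 12336, nat_lit 12528, R7_186, R0_257, R4_261⟩]⟩]⟩], [], [⟨nat_lit 3, [⟨nat_lit 0, [⟨nat_lit 5, nat_lit 576, nat_lit 16032,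 nat_lit 10752, nat_lit 8688, nat_lit 2160, R4_224, R1_181, R5_45⟩]⟩, ⟨nat_lit 2, [⟨nat_lit 5, nat_lit 7536, nat_lit 16368, nat_lit 7344, nat_lit 8784, nat_lit 2160, R5_153, R1_183, R11_45⟩]⟩]⟩,
 ⟨nat_lit 7, [⟨nat_lit 0, [⟨nat_lit 5, nat_lit 2976, nat_lit 15984, nat_lit 11376, nat_lit 9936, nat_lit 240, R7_237, R10_207, R5_5⟩]⟩]⟩], [⟨nat_lit 3, [⟨nat_lit 0, [⟨nat_lit 4, nat_lit 480, nat_lit 4128, nat_lit 9504, nat_lit 8352, nat_lit 3312, R4_198, R2_174, R13_69⟩, ⟨nat_lit 5, nat_lit 672, nat_lit 4320, nat_lit 10512, nat_lit 9168, nat_lit 2400, R4_219, R1_191, R9_50⟩, ⟨nat_lit 7, nat_lit 864, nat_lit 4416, nat_lit 10320, nat_lit 6048, nat_lit 14016, R4_215, R12_126, R3_292⟩]⟩, ⟨nat_lit 2, [⟨nat_lit 4, nat_lit 7440, nat_lit 4176, nat_lit 6960, nat_lit 9072, nat_lit 7728, R5_145, R2_189, R3_161⟩, ⟨nat_lit 5, nat_lit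 7632, nat_lit 4368, nat_lit 7248, nat_lit 9888, nat_lit 864, R5_151, R1_206, R0_18⟩, ⟨nat_lit 7, nat_lit 7824, nat_lit 4464, nat_lit 7056, nat_lit 6096, nat_lit 1728, R5_147, R12_127, R10_36⟩]⟩]⟩,
 ⟨nat_lit 7, [⟨nat_lit 0, [⟨nat_lit 4, nat_lit 2688, nat_lit 4032, nat_lit 9648, nat_lit 11952, nat_lit 1392, R7_201, R3_249, R13_29⟩, ⟨nat_lit 5, nat_lit 3072, nat_lit 4224, nat_lit 11328, nat_lit 10560, nat_lit 624, R7_236, R10_220, R9_13⟩, ⟨nat_lit 6, nat_lit 2880, nat_lit 4512, nat_lit 10512, nat_lit 13296, nat_lit 1824, R7_219, R0_277, R3_38⟩]⟩, ⟨nat_lit 3, [⟨nat_lit 4, nat_lit 13920, nat_lit 4080, nat_lit 12000, nat_lit 14640, nat_lit 14736, R14_250, R3_305, R3_307⟩, ⟨nat_lit 5, nat_lit 14208, nat_lit 4272, nat_lit 12096, nat_lit 11232, nat_lit 12912, R14_252, R10_234, R0_269⟩, ⟨nat_lit 6, nat_lit 14112, nat_lit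 4560, nat_lit 12048, nat_lit 13488, nat_lit 11088, R14_251, R0_281, R10_231⟩]⟩]⟩]]], [[], [], [], [], [[⟨nat_lit 4, [⟨nat_lit 1, [⟨nat_lit 4, nat_lit 7920, nat_lit 576, nat_lit 16416, nat_lit 240, nat_lit 12576, R6_342, R6_5, R8_262⟩, ⟨nat_lit 5, nat_lit 8496, nat_lit 1152, nat_lit 16608, nat_lit 144, nat_lit 2112, R6_346, R4_3, R9_44⟩, ⟨nat_lit 6, nat_lit 8208, nat_lit 2832, nat_lit 16512, nat_lit 3168, nat_lit 1776, R6_344, R8_66, R5_37⟩]⟩]⟩], [⟨nat_lit 4, [⟨nat_lit 1, [⟨nat_lit 4, nat_lit 8064, nat_lit 432, nat_lit 16464, nat_lit 2544, nat_lit 8064, R6_343, R6_53, R5_168⟩, ⟨nat_lit 5, nat_lit 8592, nat_lit 528, nat_lit 16656, nat_lit 2448, nat_lit 576, R6_347, R4_51, R0_12⟩, ⟨nat_lit 6, nat_lit 8352, nat_lit 576, nat_lit 16560, nat_lit 3216, nat_lit 1776, R6_345, R8_67, R11_37⟩]⟩]⟩], [⟨nat_lit 4, [⟨nat_lit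 1, [⟨nat_lit 5, nat_lit 8688, nat_lit 1056, nat_lit 16704, nat_lit 720, nat_lit 11616, R6_348, R4_15, R0_242⟩]⟩]⟩]], [[⟨nat_lit 4, [⟨nat_lit 1, [⟨nat_lit 4, nat_lit 7968, nat_lit 4560, nat_lit 16752, nat_lit 15504, nat_lit 16752, R6_349, R8_323, R8_349⟩, ⟨nat_lit 5, nat_lit 8544, nat_lit 4608, nat_lit 16944, nat_lit 1536, nat_lit 2496, R6_353, R5_32, R9_52⟩, ⟨nat_lit 6, nat_lit 8256, nat_lit 4656, nat_lit 16848, nat_lit 2016, nat_lit 2208, R6_351, R9_42, R5_46⟩]⟩]⟩,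
 ⟨nat_lit 5, [⟨nat_lit 0, [⟨nat_lit 4, nat_lit 1776, nat_lit 240, nat_lit 9600, nat_lit 8208, nat_lit 2160, R6_200, R5_171, R6_45⟩, ⟨nat_lit 5, nat_lit 1872, nat_lit 288, nat_lit 9696, nat_lit 10656, nat_lit 3552, R6_202, R11_222, R8_74⟩, ⟨nat_lit 6, nat_lit 1824, nat_lit 336, nat_lit 9648, nat_lit 96, nat_lit 2016, R6_201, R0_2, R4_42⟩]⟩, ⟨nat_lit 1, [⟨nat_lit 4, nat_lit 10176, nat_lit 4992, nat_lit 21552, nat_lit 9552, nat_lit 16896, R13_449, R5_199, R8_352⟩, ⟨nat_lit 5, nat_lit 10368, nat_lit 5040, nat_lit 21744, nat_lit 12000, nat_lit 2544, R13_453, R11_250, R9_53⟩, ⟨nat_lit 6, nat_lit 10272, nat_lit 5088, nat_lit 21648, nat_lit 336, nat_lit 2256, R13_451, R0_7, R5_47⟩]⟩]⟩], [⟨nat_lit 4, [⟨nat_lit 1, [⟨nat_lit 4, nat_lit 8112, nat_lit 48, nat_lit 16800, nat_lit 15648, nat_lit 9312, R6_350, R8_326, R5_194⟩,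 ⟨nat_lit 5, nat_lit 8640, nat_lit 144, nat_lit 16992, nat_lit 1728, nat_lit 960, R6_354, R5_36, R0_20⟩, ⟨nat_lit 6, nat_lit 8400, nat_lit 192, nat_lit 16896, nat_lit 2064, nat_lit 2208, R6_352, R9_43, R11_46⟩]⟩]⟩,
 ⟨nat_lit 5, [⟨nat_lit 1, [⟨nat_lit 4, nat_lit 10224, nat_lit 4416, nat_lit 21600, nat_lit 11808, nat_lit 11520, R13_450, R5_246, R5_240⟩, ⟨nat_lit 5, nat_lit 10416, nat_lit 4512, nat_lit 21792, nat_lit 14784, nat_lit 1008, R13_454, R11_308, R0_21⟩, ⟨nat_lit 6, nat_lit 10320, nat_lit 4560, nat_lit 21696, nat_lit 384, nat_lit 2256, R13_452, R0_8, R11_47⟩]⟩]⟩], [⟨nat_lit 4, [⟨nat_lit 1, [⟨nat_lit 5, nat_lit 8736, nat_lit 48, nat_lit 17040, nat_lit 1632, nat_lit 14448, R6_355, R5_34, R0_301⟩]⟩]⟩,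
 ⟨nat_lit 5, [⟨nat_lit 0, [⟨nat_lit 5, nat_lit 1920, nat_lit 4800, nat_lit 9744, nat_lit 12624, nat_lit 288, R6_203, R11_263, R5_6⟩]⟩, ⟨nat_lit 1, [⟨nat_lit 5, nat_lit 10464, nat_lit 5088, nat_lit 21840, nat_lit 13056, nat_lit 14592, R13_455, R11_272, R0_304⟩]⟩]⟩]], [[⟨nat_lit 4, [⟨nat_lit 1, [⟨nat_lit 4, nat_lit 8016, nat_lit 8976, nat_lit 17088, nat_lit 14256, nat_lit 13488, R6_356, R4_297, R8_281⟩, ⟨nat_lit 6, nat_lit 8304, nat_lit 10560, nat_lit 17184, nat_lit 16848, nat_lit 1968, R6_358, R5_351, R5_41⟩]⟩]⟩], [⟨nat_lit 4, [⟨nat_lit 1, [⟨nat_lit 4, nat_lit 8160, nat_lit 4656, nat_lit 17136, nat_lit 15168, nat_lit 8784, R6_357, R4_316, R5_183⟩, ⟨nat_lit 6, nat_lit 8448, nat_lit 4704, nat_lit 17232, nat_lit 16896, nat_lit 1968, R6_359, R5_352, R11_41⟩]⟩]⟩]]], [[], [[], [], [⟨nat_lit 1, [⟨nat_lit 0, [⟨nat_lit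 5, nat_lit 240, nat_lit 15984, nat_lit 11376, nat_lit 18480, nat_lit 2976, R7_237, R10_385, R5_62⟩]⟩, ⟨nat_lit 1, [⟨nat_lit 5, nat_lit 7872, nat_lit 16080, nat_lit 10272, nat_lit 18624, nat_lit 10176, R2_214, R10_388, R0_212⟩]⟩, ⟨nat_lit 2, [⟨nat_lit 1, nat_lit 5904, nat_lit 15936, nat_lit 7056, nat_lit 15312, nat_lit 1728, R2_147, R1_319, R1_36⟩, ⟨nat_lit 5, nat_lit 5952, nat_lit 16176, nat_lit 7008, nat_lit 18528, nat_lit 2976, R2_146, R10_386, R11_62⟩]⟩]⟩,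
 ⟨nat_lit 5, [⟨nat_lit 0, [⟨nat_lit 5, nat_lit 2160, nat_lit 16032, nat_lit 10752, nat_lit 8688, nat_lit 576, R4_224, R1_181, R5_12⟩]⟩, ⟨nat_lit 1, [⟨nat_lit 5, nat_lit 10992, nat_lit 16128, nat_lit 17616, nat_lit 8736, nat_lit 10032, R3_367, R1_182, R0_209⟩]⟩]⟩]], [], [], [], [[⟨nat_lit 5, [⟨nat_lit 0, [⟨nat_lit 4, nat_lit 1968, nat_lit 16848, nat_lit 10560, nat_lit 8304, nat_lit 9888, R4_220, R5_173, R6_206⟩, ⟨nat_lit 5, nat_lit 2064, nat_lit 17184, nat_lit 10656, nat_lit 10752, nat_lit 10848, R4_222, R11_224, R8_226⟩, ⟨nat_lit 6, nat_lit 2016, nat_lit 17568, nat_lit 10608, nat_lit 5616, nat_lit 10944, R4_221, R0_117, R4_228⟩]⟩, ⟨nat_lit 1, [⟨nat_lit 4, nat_lit 10656, nat_lit 16944, nat_lit 17664, nat_lit 9648, nat_lit 17424, R3_368, R5_201, R8_363⟩, ⟨nat_lit 5, nat_lit 10848, nat_lit 17328, nat_lit 17856,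 nat_lit 12096, nat_lit 11520, R3_372, R11_252, R9_240⟩, ⟨nat_lit 6, nat_lit 10752, nat_lit 17664, nat_lit 17760, nat_lit 5760, nat_lit 13488, R3_370, R0_120, R5_281⟩]⟩]⟩], [⟨nat_lit 5, [⟨nat_lit 1, [⟨nat_lit 4, nat_lit 10704, nat_lit 2880, nat_lit 17712, nat_lit 11856, nat_lit 11616, R3_369, R5_247, R5_242⟩, ⟨nat_lit 5, nat_lit 10896, nat_lit 2976, nat_lit 17904, nat_lit 14832, nat_lit 10320, R3_373, R11_309, R0_215⟩, ⟨nat_lit 6, nat_lit 10800, nat_lit 3024, nat_lit 17808, nat_lit 5808, nat_lit 16704, R3_371, R0_121, R11_348⟩]⟩]⟩], [⟨nat_lit 5, [⟨nat_lit 0, [⟨nat_lit 5, nat_lit 2112, nat_lit 4800, nat_lit 10704, nat_lit 12720, nat_lit 624, R4_223, R11_265, R5_13⟩]⟩, ⟨nat_lit 1, [⟨nat_lit 5, nat_lit 10944, nat_lit 5088, nat_lit 17952, nat_lit 13152, nat_lit 15168, R3_374, R11_274, R0_316⟩]⟩]⟩]]], [[], [], [],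 [], [[], [⟨nat_lit 4, [⟨nat_lit 1, [⟨nat_lit 4, nat_lit 8784, nat_lit 4656, nat_lit 15168, nat_lit 10224, nat_lit 8160, R4_316, R6_213, R5_170⟩, ⟨nat_lit 5, nat_lit 9072, nat_lit 5328, nat_lit 15264, nat_lit 11280, nat_lit 5856, R4_318, R4_235, R0_122⟩, ⟨nat_lit 6, nat_lit 8928, nat_lit 6288, nat_lit 15216, nat_lit 10800, nat_lit 8400, R4_317, R8_225, R11_175⟩]⟩, ⟨nat_lit 5, [⟨nat_lit 6, nat_lit 16320, nat_lit 6336, nat_lit 17760, nat_lit 10704, nat_lit 8208, R7_370, R8_223, R1_171⟩]⟩]⟩,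
 ⟨nat_lit 6, [⟨nat_lit 5, [⟨nat_lit 6, nat_lit 16656, nat_lit 7200, nat_lit 15360, nat_lit 7488, nat_lit 8352, R2_320, R5_156, R1_174⟩]⟩]⟩]], [[], [⟨nat_lit 4, [⟨nat_lit 1, [⟨nat_lit 4, nat_lit 8832, nat_lit 2256, nat_lit 15312, nat_lit 16704, nat_lit 9360, R4_319, R8_348, R5_195⟩, ⟨nat_lit 5, nat_lit 9120, nat_lit 2304, nat_lit 15408, nat_lit 13440, nat_lit 6192, R4_321, R5_280, R0_129⟩, ⟨nat_lit 6, nat_lit 8976, nat_lit 2352, nat_lit 15360, nat_lit 11472, nat_lit 8736, R4_320, R9_239, R11_182⟩]⟩, ⟨nat_lit 5, [⟨nat_lit 6, nat_lit 16368, nat_lit 12288, nat_lit 17808, nat_lit 11328, nat_lit 8304, R7_371, R9_236, R1_173⟩]⟩]⟩,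
 ⟨nat_lit 5, [⟨nat_lit 1, [⟨nat_lit 4, nat_lit 10512, nat_lit 2688, nat_lit 9504, nat_lit 11904, nat_lit 11568, R3_198, R5_248, R5_241⟩, ⟨nat_lit 5, nat_lit 10608, nat_lit 2736, nat_lit 9600, nat_lit 14880, nat_lit 6240, R3_200, R11_310, R0_130⟩, ⟨nat_lit 6, nat_lit 10560, nat_lit 2784, nat_lit 9552, nat_lit 9984, nat_lit 8784, R3_199, R0_208, R11_183⟩]⟩, ⟨nat_lit 5, [⟨nat_lit 6, nat_lit 16800, nat_lit 12576, nat_lit 15696, nat_lit 9840, nat_lit 8496, R2_327, R0_205, R1_177⟩]⟩]⟩,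
 ⟨nat_lit 6, [⟨nat_lit 5, [⟨nat_lit 6, nat_lit 16704, nat_lit 12672, nat_lit 15408, nat_lit 9648, nat_lit 8448, R2_321, R0_201, R1_176⟩]⟩]⟩]], [[], [⟨nat_lit 4, [⟨nat_lit 1, [⟨nat_lit 4, nat_lit 8880, nat_lit 4656, nat_lit 15456, nat_lit 15456, nat_lit 8880, R4_322, R4_322, R5_185⟩, ⟨nat_lit 6, nat_lit 9024, nat_lit 5904, nat_lit 15504, nat_lit 17088, nat_lit 8544, R4_323, R5_356, R11_178⟩]⟩, ⟨nat_lit 5, [⟨nat_lit 6, nat_lit 16416, nat_lit 5952, nat_lit 17856, nat_lit 12912, nat_lit 8256, R7_372, R5_269, R1_172⟩]⟩]⟩,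
 ⟨nat_lit 6, [⟨nat_lit 5, [⟨nat_lit 6, nat_lit 16752, nat_lit 6816, nat_lit 15504, nat_lit 7104, nat_lit 8400, R2_323, R11_148, R1_175⟩]⟩]⟩], [], [], [], [⟨nat_lit 4, [⟨nat_lit 5, [⟨nat_lit 6, nat_lit 16272, nat_lit 5088, nat_lit 17904, nat_lit 13008, nat_lit 14688, R7_373, R5_271, R10_306⟩]⟩]⟩,
 ⟨nat_lit 6, [⟨nat_lit 5, [⟨nat_lit 2, nat_lit 16560, nat_lit 5184, nat_lit 15312, nat_lit 6624, nat_lit 13536, R2_319, R1_138, R1_282⟩, ⟨nat_lit 6, nat_lit 16608, nat_lit 5136, nat_lit 15456, nat_lit 9168, nat_lit 15168, R2_322, R11_191, R10_316⟩]⟩]⟩]]], [[], [], [], [], [[⟨nat_lit 4, [⟨nat_lit 0, [⟨nat_lit 4, nat_lit 912, nat_lit 4608, nat_lit 14592, nat_lit 4800, nat_lit 4416, R6_304, R6_100, R6_92⟩, ⟨nat_lit 5, nat_lit 1488, nat_lit 6240, nat_lit 16176, nat_lit 5184, nat_lit 8016, R6_337, R4_108, R8_167⟩, ⟨nat_lit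 6, nat_lit 1200, nat_lit 8400, nat_lit 15360, nat_lit 7536, nat_lit 4656, R6_320, R8_157, R4_97⟩]⟩, ⟨nat_lit 1, [⟨nat_lit 4, nat_lit 9168, nat_lit 4656, nat_lit 18288, nat_lit 5088, nat_lit 12720, R8_381, R6_106, R8_265⟩, ⟨nat_lit 5, nat_lit 9936, nat_lit 6288, nat_lit 18576, nat_lit 5376, nat_lit 8784, R8_387, R4_112, R9_183⟩, ⟨nat_lit 6, nat_lit 9552, nat_lit 8448, nat_lit 18432, nat_lit 7872, nat_lit 10176, R8_384, R8_164, R5_212⟩]⟩]⟩,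
 ⟨nat_lit 7, [⟨nat_lit 0, [⟨nat_lit 4, nat_lit 3264, nat_lit 5232, nat_lit 4944, nat_lit 5616, nat_lit 5424, R4_103, R13_117, R6_113⟩, ⟨nat_lit 5, nat_lit 3840, nat_lit 6816, nat_lit 7584, nat_lit 3888, nat_lit 8064, R4_158, R3_81, R8_168⟩, ⟨nat_lit 6, nat_lit 3600, nat_lit 8832, nat_lit 6144, nat_lit 4368, nat_lit 5760, R4_128, R9_91, R4_120⟩]⟩, ⟨nat_lit 1, [⟨nat_lit 4, nat_lit 11328, nat_lit 5280, nat_lit 11328, nat_lit 5664, nat_lit 12864, R5_236, R13_118, R8_268⟩, ⟨nat_lit 5, nat_lit 12192, nat_lit 6864, nat_lit 11664, nat_lit 3936, nat_lit 8832, R5_243, R3_82, R9_184⟩, ⟨nat_lit 6, nat_lit 11808, nat_lit 8880, nat_lit 11520, nat_lit 4416, nat_lit 10224, R5_240, R9_92, R5_213⟩]⟩]⟩], [⟨nat_lit 4, [⟨nat_lit 1, [⟨nat_lit 4, nat_lit 9312, nat_lit 3792, nat_lit 18336, nat_lit 7104, nat_lit 8112, R8_382, R6_148,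 R5_169⟩, ⟨nat_lit 5, nat_lit 10032, nat_lit 4704, nat_lit 18624, nat_lit 7776, nat_lit 8304, R8_388, R4_162, R0_173⟩, ⟨nat_lit 6, nat_lit 9696, nat_lit 6096, nat_lit 18480, nat_lit 7968, nat_lit 13440, R8_385, R8_166, R11_280⟩]⟩]⟩,
 ⟨nat_lit 7, [⟨nat_lit 1, [⟨nat_lit 4, nat_lit 11520, nat_lit 4224, nat_lit 11808, nat_lit 9216, nat_lit 10224, R5_246, R13_192, R5_213⟩, ⟨nat_lit 5, nat_lit 12336, nat_lit 5088, nat_lit 12096, nat_lit 7296, nat_lit 8352, R5_252, R3_152, R0_174⟩, ⟨nat_lit 6, nat_lit 11952, nat_lit 6768, nat_lit 11952, nat_lit 7008, nat_lit 13488, R5_249, R9_146, R11_281⟩]⟩]⟩], [⟨nat_lit 4, [⟨nat_lit 0, [⟨nat_lit 5, nat_lit 1584, nat_lit 4512, nat_lit 16272, nat_lit 6816, nat_lit 0, R6_339, R4_142, R5_0⟩]⟩, ⟨nat_lit 1, [⟨nat_lit 5, nat_lit 10080, nat_lit 4560, nat_lit 18672, nat_lit 7104, nat_lit 11856,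 R8_389, R4_148, R0_247⟩]⟩]⟩,
 ⟨nat_lit 7, [⟨nat_lit 0, [⟨nat_lit 5, nat_lit 3984, nat_lit 5184, nat_lit 7968, nat_lit 5616, nat_lit 96, R4_166, R3_117, R5_2⟩]⟩, ⟨nat_lit 1, [⟨nat_lit 5, nat_lit 12432, nat_lit 5232, nat_lit 12576, nat_lit 5664, nat_lit 12000, R5_262, R3_118, R0_250⟩]⟩]⟩], [⟨nat_lit 4, [⟨nat_lit 0, [⟨nat_lit 4, nat_lit 1056, nat_lit 48, nat_lit 14640, nat_lit 6000, nat_lit 192, R6_305, R6_125, R13_4⟩, ⟨nat_lit 5, nat_lit 1680, nat_lit 768, nat_lit 16224, nat_lit 6336, nat_lit 96, R6_338, R4_132, R9_2⟩, ⟨nat_lit 6, nat_lit 1344, nat_lit 2256, nat_lit 15408, nat_lit 7584, nat_lit 384, R6_321, R8_158, R3_8⟩]⟩, ⟨nat_lit 1, [⟨nat_lit 4, nat_lit 9408, nat_lit 336, nat_lit 18384, nat_lit 6432, nat_lit 8016, R8_383, R6_134, R9_167⟩, ⟨nat_lit 6, nat_lit 9792, nat_lit 2544, nat_lit 18528, nat_lit 7920,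 nat_lit 7248, R8_386, R8_165, R0_151⟩]⟩, ⟨nat_lit 3, [⟨nat_lit 4, nat_lit 13104, nat_lit 192, nat_lit 14208, nat_lit 6144, nat_lit 11472, R4_296, R6_128, R3_239⟩, ⟨nat_lit 5, nat_lit 13392, nat_lit 912, nat_lit 15072, nat_lit 6480, nat_lit 2208, R4_314, R4_135, R0_46⟩, ⟨nat_lit 6, nat_lit 13248, nat_lit 2400, nat_lit 14688, nat_lit 7680, nat_lit 8832, R4_306, R8_160, R10_184⟩]⟩]⟩,
 ⟨nat_lit 7, [⟨nat_lit 0, [⟨nat_lit 4, nat_lit 3456, nat_lit 3792, nat_lit 5472, nat_lit 7344, nat_lit 768, R4_114, R13_153, R13_16⟩, ⟨nat_lit 5, nat_lit 4128, nat_lit 6096, nat_lit 7872, nat_lit 6192, nat_lit 336, R4_164, R3_129, R9_7⟩, ⟨nat_lit 6, nat_lit 3744, nat_lit 7152, nat_lit 6672, nat_lit 5376, nat_lit 1056, R4_139, R9_112, R3_22⟩, ⟨nat_lit 7, nat_lit 4224, nat_lit 5520, nat_lit 7200, nat_lit 4944, nat_lit 4416, R4_150, R3_103,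 R3_92⟩]⟩, ⟨nat_lit 1, [⟨nat_lit 4, nat_lit 11664, nat_lit 3936, nat_lit 12192, nat_lit 7392, nat_lit 8832, R5_254, R13_154, R9_184⟩, ⟨nat_lit 6, nat_lit 12096, nat_lit 7296, nat_lit 12336, nat_lit 5424, nat_lit 8352, R5_257, R9_113, R0_174⟩, ⟨nat_lit 7, nat_lit 12576, nat_lit 5664, nat_lit 12432, nat_lit 5232, nat_lit 12000, R5_259, R3_109, R0_250⟩]⟩]⟩]], [[⟨nat_lit 4, [⟨nat_lit 0, [⟨nat_lit 4, nat_lit 960, nat_lit 15984, nat_lit 15024, nat_lit 12384, nat_lit 4608, R6_313, R8_258, R6_96⟩, ⟨nat_lit 5, nat_lit 1536, nat_lit 16848, nat_lit 16944, nat_lit 8544, nat_lit 8688, R6_353, R5_178, R8_181⟩, ⟨nat_lit 6, nat_lit 1248, nat_lit 17712, nat_lit 15648, nat_lit 8160, nat_lit 4896, R6_326, R9_170, R4_102⟩]⟩, ⟨nat_lit 1, [⟨nat_lit 4, nat_lit 9216, nat_lit 16272, nat_lit 18720, nat_lit 16176, nat_lit 17040, R8_390,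 R8_337, R8_355⟩, ⟨nat_lit 5, nat_lit 9984, nat_lit 17136, nat_lit 18912, nat_lit 9984, nat_lit 9504, R8_394, R5_208, R9_198⟩, ⟨nat_lit 6, nat_lit 9600, nat_lit 17952, nat_lit 18816, nat_lit 8688, nat_lit 11040, R8_392, R9_181, R5_230⟩]⟩]⟩,
 ⟨nat_lit 5, [⟨nat_lit 0, [⟨nat_lit 4, nat_lit 2208, nat_lit 16080, nat_lit 9024, nat_lit 8256, nat_lit 6912, R8_188, R5_172, R6_144⟩, ⟨nat_lit 5, nat_lit 2400, nat_lit 16944, nat_lit 9120, nat_lit 10704, nat_lit 8784, R8_190, R11_223, R8_183⟩, ⟨nat_lit 6, nat_lit 2304, nat_lit 17760, nat_lit 9072, nat_lit 7392, nat_lit 7536, R8_189, R0_154, R4_157⟩]⟩, ⟨nat_lit 1, [⟨nat_lit 4, nat_lit 11040, nat_lit 16368, nat_lit 17952, nat_lit 9600, nat_lit 17328, R9_374, R5_200, R8_361⟩, ⟨nat_lit 5, nat_lit 11232, nat_lit 17232, nat_lit 18144, nat_lit 12048, nat_lit 9600, R9_378, R11_251,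 R9_200⟩, ⟨nat_lit 6, nat_lit 11136, nat_lit 18000, nat_lit 18048, nat_lit 7920, nat_lit 11088, R9_376, R0_165, R5_231⟩]⟩]⟩,
 ⟨nat_lit 7, [⟨nat_lit 0, [⟨nat_lit 4, nat_lit 3312, nat_lit 16032, nat_lit 5040, nat_lit 8064, nat_lit 5760, R4_105, R9_168, R6_120⟩, ⟨nat_lit 5, nat_lit 3888, nat_lit 16896, nat_lit 7680, nat_lit 7296, nat_lit 8736, R4_160, R0_152, R8_182⟩]⟩, ⟨nat_lit 1, [⟨nat_lit 4, nat_lit 11376, nat_lit 16320, nat_lit 11376, nat_lit 8544, nat_lit 17184, R5_237, R9_178, R8_358⟩, ⟨nat_lit 5, nat_lit 12240, nat_lit 17184, nat_lit 11712, nat_lit 7776, nat_lit 9552, R5_244, R0_162, R9_199⟩]⟩]⟩], [], [⟨nat_lit 4, [⟨nat_lit 0, [⟨nat_lit 5, nat_lit 1632, nat_lit 14448, nat_lit 17040, nat_lit 8736, nat_lit 48, R6_355, R5_182, R5_1⟩]⟩, ⟨nat_lit 1, [⟨nat_lit 5, nat_lit 10128, nat_lit 14736, nat_lit 18960, nat_lit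 10128, nat_lit 14736, R8_395, R5_211, R0_307⟩]⟩]⟩,
 ⟨nat_lit 5, [⟨nat_lit 0, [⟨nat_lit 5, nat_lit 2448, nat_lit 14544, nat_lit 9312, nat_lit 12672, nat_lit 384, R8_194, R11_264, R5_8⟩]⟩, ⟨nat_lit 1, [⟨nat_lit 5, nat_lit 11280, nat_lit 14832, nat_lit 18192, nat_lit 13104, nat_lit 15024, R9_379, R11_273, R0_313⟩]⟩]⟩,
 ⟨nat_lit 7, [⟨nat_lit 0, [⟨nat_lit 5, nat_lit 4032, nat_lit 14496, nat_lit 8064, nat_lit 8016, nat_lit 192, R4_168, R0_167, R5_4⟩]⟩, ⟨nat_lit 1, [⟨nat_lit 5, nat_lit 12480, nat_lit 14784, nat_lit 12624, nat_lit 8160, nat_lit 14880, R5_263, R0_170, R0_310⟩]⟩]⟩], [⟨nat_lit 4, [⟨nat_lit 0, [⟨nat_lit 4, nat_lit 1104, nat_lit 144, nat_lit 15072, nat_lit 12528, nat_lit 288, R6_314, R8_261, R13_6⟩, ⟨nat_lit 5, nat_lit 1728, nat_lit 960, nat_lit 16992, nat_lit 8640, nat_lit 144, R6_354, R5_180, R9_3⟩, ⟨nat_lit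 6, nat_lit 1392, nat_lit 1920, nat_lit 15696, nat_lit 8208, nat_lit 480, R6_327, R9_171, R3_10⟩]⟩, ⟨nat_lit 1, [⟨nat_lit 4, nat_lit 9456, nat_lit 7632, nat_lit 18768, nat_lit 16320, nat_lit 8448, R8_391, R8_340, R9_176⟩, ⟨nat_lit 6, nat_lit 9840, nat_lit 9024, nat_lit 18864, nat_lit 8736, nat_lit 7680, R8_393, R9_182, R0_160⟩]⟩, ⟨nat_lit 3, [⟨nat_lit 4, nat_lit 13152, nat_lit 5664, nat_lit 14496, nat_lit 14304, nat_lit 16464, R4_302, R8_298, R3_343⟩, ⟨nat_lit 5, nat_lit 13440, nat_lit 6192, nat_lit 15408, nat_lit 9120, nat_lit 2304, R4_321, R5_190, R0_48⟩, ⟨nat_lit 6, nat_lit 13296, nat_lit 6960, nat_lit 14832, nat_lit 8352, nat_lit 9504, R4_309, R9_174, R10_198⟩]⟩]⟩,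
 ⟨nat_lit 5, [⟨nat_lit 0, [⟨nat_lit 4, nat_lit 2256, nat_lit 336, nat_lit 9168, nat_lit 10272, nat_lit 2064, R8_191, R5_214, R13_43⟩, ⟨nat_lit 5, nat_lit 2496, nat_lit 1152, nat_lit 9264, nat_lit 13536, nat_lit 1200, R8_193, R11_282, R9_25⟩, ⟨nat_lit 6, nat_lit 2352, nat_lit 2016, nat_lit 9216, nat_lit 7440, nat_lit 2592, R8_192, R0_155, R3_54⟩]⟩, ⟨nat_lit 1, [⟨nat_lit 4, nat_lit 11088, nat_lit 7920, nat_lit 18000, nat_lit 11136, nat_lit 9936, R9_375, R5_232, R9_207⟩, ⟨nat_lit 6, nat_lit 11184, nat_lit 9168, nat_lit 18096, nat_lit 7968, nat_lit 9072, R9_377, R0_166, R0_189⟩]⟩, ⟨nat_lit 3, [⟨nat_lit 4, nat_lit 13488, nat_lit 5760, nat_lit 17664, nat_lit 10752, nat_lit 17760, R5_368, R5_224, R3_370⟩, ⟨nat_lit 5, nat_lit 13584, nat_lit 6288, nat_lit 17760, nat_lit 14016, nat_lit 3984, R5_370, R11_292, R0_83⟩, ⟨nat_lit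 6, nat_lit 13536, nat_lit 7056, nat_lit 17712, nat_lit 7584, nat_lit 11856, R5_369, R0_158, R10_247⟩]⟩]⟩,
 ⟨nat_lit 7, [⟨nat_lit 0, [⟨nat_lit 4, nat_lit 3504, nat_lit 240, nat_lit 5520, nat_lit 8880, nat_lit 864, R4_115, R9_185, R13_18⟩, ⟨nat_lit 5, nat_lit 4176, nat_lit 1056, nat_lit 7920, nat_lit 8400, nat_lit 384, R4_165, R0_175, R9_8⟩, ⟨nat_lit 7, nat_lit 4272, nat_lit 480, nat_lit 7248, nat_lit 11904, nat_lit 4608, R4_151, R0_248, R3_96⟩]⟩, ⟨nat_lit 1, [⟨nat_lit 4, nat_lit 11712, nat_lit 7776, nat_lit 12240, nat_lit 9648, nat_lit 9552, R5_255, R9_201, R9_199⟩, ⟨nat_lit 7, nat_lit 12624, nat_lit 8160, nat_lit 12480, nat_lit 14784, nat_lit 14880, R5_260, R0_308, R0_310⟩]⟩]⟩]], [[⟨nat_lit 4, [⟨nat_lit 0, [⟨nat_lit 4, nat_lit 1008, nat_lit 16032, nat_lit 15168, nat_lit 12144, nat_lit 4464, R6_316, R4_253, R6_93⟩,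 ⟨nat_lit 6, nat_lit 1296, nat_lit 17376, nat_lit 15744, nat_lit 14304, nat_lit 4704, R6_328, R5_298, R4_98⟩]⟩, ⟨nat_lit 1, [⟨nat_lit 4, nat_lit 9264, nat_lit 16368, nat_lit 19008, nat_lit 14400, nat_lit 13776, R8_396, R4_300, R8_287⟩, ⟨nat_lit 6, nat_lit 9648, nat_lit 17664, nat_lit 19152, nat_lit 16944, nat_lit 10656, R8_399, R5_353, R5_222⟩]⟩]⟩,
 ⟨nat_lit 7, [⟨nat_lit 0, [⟨nat_lit 4, nat_lit 3360, nat_lit 16080, nat_lit 5088, nat_lit 8544, nat_lit 5616, R4_106, R3_178, R6_117⟩, ⟨nat_lit 6, nat_lit 3648, nat_lit 17424, nat_lit 6240, nat_lit 2832, nat_lit 6000, R4_130, R0_59, R4_125⟩]⟩, ⟨nat_lit 1, [⟨nat_lit 4, nat_lit 11424, nat_lit 16416, nat_lit 11472, nat_lit 8688, nat_lit 13920, R5_239, R3_181, R8_290⟩, ⟨nat_lit 6, nat_lit 11856, nat_lit 17712, nat_lit 11616, nat_lit 2880, nat_lit 10704, R5_242, R0_60,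 R5_223⟩]⟩]⟩], [⟨nat_lit 4, [⟨nat_lit 1, [⟨nat_lit 4, nat_lit 9360, nat_lit 2256, nat_lit 19056, nat_lit 15312, nat_lit 8832, R8_397, R4_319, R5_184⟩, ⟨nat_lit 6, nat_lit 9744, nat_lit 3936, nat_lit 19200, nat_lit 17040, nat_lit 13920, R8_400, R5_355, R11_290⟩]⟩]⟩,
 ⟨nat_lit 7, [⟨nat_lit 1, [⟨nat_lit 4, nat_lit 11568, nat_lit 2688, nat_lit 11904, nat_lit 9504, nat_lit 10512, R5_248, R3_198, R5_219⟩, ⟨nat_lit 6, nat_lit 12000, nat_lit 4608, nat_lit 12048, nat_lit 4848, nat_lit 13968, R5_251, R0_101, R11_291⟩]⟩]⟩], [], [⟨nat_lit 4, [⟨nat_lit 0, [⟨nat_lit 4, nat_lit 1152, nat_lit 2976, nat_lit 15216, nat_lit 12288, nat_lit 240, R6_317, R4_256, R13_5⟩, ⟨nat_lit 6, nat_lit 1440, nat_lit 5664, nat_lit 15792, nat_lit 14352, nat_lit 432, R6_329, R5_299, R3_9⟩]⟩, ⟨nat_lit 1, [⟨nat_lit 4, nat_lit 9504, nat_lit 3072, nat_lit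 19104, nat_lit 14736, nat_lit 8256, R8_398, R4_307, R9_172⟩, ⟨nat_lit 6, nat_lit 9888, nat_lit 5760, nat_lit 19248, nat_lit 16992, nat_lit 7488, R8_401, R5_354, R0_156⟩]⟩, ⟨nat_lit 3, [⟨nat_lit 4, nat_lit 13200, nat_lit 3024, nat_lit 14592, nat_lit 13248, nat_lit 15264, R4_304, R4_276, R3_318⟩, ⟨nat_lit 6, nat_lit 13344, nat_lit 5712, nat_lit 14880, nat_lit 16224, nat_lit 9264, R4_310, R5_338, R10_193⟩]⟩]⟩,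
 ⟨nat_lit 7, [⟨nat_lit 0, [⟨nat_lit 4, nat_lit 3552, nat_lit 3648, nat_lit 5568, nat_lit 8832, nat_lit 816, R4_116, R3_184, R13_17⟩, ⟨nat_lit 6, nat_lit 3792, nat_lit 6192, nat_lit 6720, nat_lit 3216, nat_lit 1104, R4_140, R0_67, R3_23⟩, ⟨nat_lit 7, nat_lit 4320, nat_lit 4320, nat_lit 7296, nat_lit 4752, nat_lit 4464, R4_152, R10_99, R3_93⟩]⟩, ⟨nat_lit 1, [⟨nat_lit 4, nat_lit 11760, nat_lit 3696, nat_lit 12288, nat_lit 9312, nat_lit 9168, R5_256, R3_194, R9_191⟩, ⟨nat_lit 6, nat_lit 12144, nat_lit 6240, nat_lit 12384, nat_lit 3264, nat_lit 8688, R5_258, R0_68, R0_181⟩, ⟨nat_lit 7, nat_lit 12672, nat_lit 4368, nat_lit 12528, nat_lit 4800, nat_lit 14112, R5_261, R10_100, R0_294⟩]⟩]⟩]], [[⟨nat_lit 7, [⟨nat_lit 0, [⟨nat_lit 4, nat_lit 3408, nat_lit 2928, nat_lit 4992, nat_lit 11424, nat_lit 5568, R4_104, R3_238,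 R6_116⟩, ⟨nat_lit 5, nat_lit 3936, nat_lit 3264, nat_lit 7632, nat_lit 8976, nat_lit 8352, R4_159, R10_187, R8_174⟩, ⟨nat_lit 6, nat_lit 3696, nat_lit 3552, nat_lit 6192, nat_lit 2400, nat_lit 5952, R4_129, R0_50, R4_124⟩]⟩, ⟨nat_lit 1, [⟨nat_lit 4, nat_lit 11472, nat_lit 8688, nat_lit 11424, nat_lit 16416, nat_lit 14592, R5_238, R3_342, R8_304⟩, ⟨nat_lit 5, nat_lit 12288, nat_lit 9312, nat_lit 11760, nat_lit 9648, nat_lit 9168, R5_245, R10_201, R9_191⟩, ⟨nat_lit 6, nat_lit 11904, nat_lit 9504, nat_lit 11568, nat_lit 2688, nat_lit 10512, R5_241, R0_56, R5_219⟩]⟩]⟩], [⟨nat_lit 7, [⟨nat_lit 1, [⟨nat_lit 4, nat_lit 11616, nat_lit 2880, nat_lit 11856, nat_lit 17712, nat_lit 10704, R5_247, R3_369, R5_223⟩, ⟨nat_lit 5, nat_lit 12384, nat_lit 3264, nat_lit 12144, nat_lit 11952, nat_lit 8688, R5_253, R10_249, R0_181⟩,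 ⟨nat_lit 6, nat_lit 12048, nat_lit 4848, nat_lit 12000, nat_lit 4608, nat_lit 13776, R5_250, R0_96, R11_287⟩]⟩]⟩], [⟨nat_lit 7, [⟨nat_lit 0, [⟨nat_lit 5, nat_lit 4080, nat_lit 19680, nat_lit 8016, nat_lit 9888, nat_lit 144, R4_167, R10_206, R5_3⟩]⟩, ⟨nat_lit 1, [⟨nat_lit 5, nat_lit 12528, nat_lit 19824, nat_lit 12672, nat_lit 10224, nat_lit 14112, R5_264, R10_213, R0_294⟩]⟩]⟩]]]]
noncomputable def N3264 : T3 (List N0) := [[[[], [], [⟨nat_lit 0, [⟨nat_lit 0, [⟨nat_lit 1, nat_lit 12336, nat_lit 1584, nat_lit 3264, nat_lit 768, nat_lit 6576, R6_68, R7_16, R7_137⟩, ⟨nat_lit 5, nat_lit 4320, nat_lit 1008, nat_lit 3120, nat_lit 672, nat_lit 6768, R6_65, R4_14, R4_141⟩]⟩, ⟨nat_lit 1, [⟨nat_lit 1, nat_lit 13104, nat_lit 1632, nat_lit 2928, nat_lit 912, nat_lit 4752, R4_61, R7_19, R2_99⟩, ⟨nat_lit 5, nat_lit 4896, nat_lit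 1104, nat_lit 2784, nat_lit 816, nat_lit 5472, R4_58, R4_17, R3_114⟩]⟩, ⟨nat_lit 2, [⟨nat_lit 1, nat_lit 12768, nat_lit 1728, nat_lit 4176, nat_lit 816, nat_lit 9696, R8_87, R7_17, R2_202⟩]⟩]⟩,
 ⟨nat_lit 3, [⟨nat_lit 0, [⟨nat_lit 1, nat_lit 12480, nat_lit 8304, nat_lit 13008, nat_lit 1968, nat_lit 6624, R13_271, R2_41, R7_138⟩]⟩, ⟨nat_lit 1, [⟨nat_lit 1, nat_lit 13248, nat_lit 8352, nat_lit 9696, nat_lit 2304, nat_lit 4800, R3_202, R2_48, R2_100⟩]⟩, ⟨nat_lit 2, [⟨nat_lit 1, nat_lit 12912, nat_lit 8448, nat_lit 10224, nat_lit 2160, nat_lit 9792, R9_213, R2_45, R2_204⟩]⟩]⟩], [], [], [], [⟨nat_lit 0, [⟨nat_lit 0, [⟨nat_lit 1, nat_lit 13584, nat_lit 1680, nat_lit 4080, nat_lit 1296, nat_lit 9648, R6_85, R7_27, R4_201⟩]⟩, ⟨nat_lit 2, [⟨nat_lit 1, nat_lit 14352, nat_lit 1824, nat_lit 4032, nat_lit 1392, nat_lit 14352,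 R8_84, R7_29, R3_299⟩]⟩]⟩,
 ⟨nat_lit 3, [⟨nat_lit 0, [⟨nat_lit 1, nat_lit 13728, nat_lit 8304, nat_lit 14208, nat_lit 144, nat_lit 9888, R13_296, R2_3, R4_206⟩]⟩, ⟨nat_lit 2, [⟨nat_lit 1, nat_lit 14496, nat_lit 8448, nat_lit 11904, nat_lit 384, nat_lit 14400, R9_248, R2_8, R3_300⟩]⟩]⟩]], [], [[], [], [], [], [], [], [⟨nat_lit 0, [⟨nat_lit 0, [⟨nat_lit 0, nat_lit 11568, nat_lit 8256, nat_lit 11328, nat_lit 240, nat_lit 9024, R6_236, R7_5, R6_188⟩, ⟨nat_lit 1, nat_lit 13872, nat_lit 8304, nat_lit 11568, nat_lit 18624, nat_lit 9696, R6_241, R14_388, R4_202⟩]⟩, ⟨nat_lit 2, [⟨nat_lit 0, nat_lit 11904, nat_lit 8880, nat_lit 11424, nat_lit 5184, nat_lit 18624, R8_238, R7_108, R13_388⟩, ⟨nat_lit 1, nat_lit 14592, nat_lit 8928, nat_lit 12000, nat_lit 19104, nat_lit 14592, R8_250, R14_398, R3_304⟩]⟩]⟩,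
 ⟨nat_lit 2, [⟨nat_lit 2, [⟨nat_lit 0, nat_lit 12048, nat_lit 11136, nat_lit 13824, nat_lit 3600, nat_lit 18672, R5_288, R2_75, R13_389⟩, ⟨nat_lit 1, nat_lit 14736, nat_lit 11184, nat_lit 13920, nat_lit 15600, nat_lit 14640, R5_290, R12_325, R3_305⟩, ⟨nat_lit 2, nat_lit 15504, nat_lit 11232, nat_lit 13872, nat_lit 3072, nat_lit 9168, R5_289, R1_64, R3_191⟩]⟩]⟩,
 ⟨nat_lit 3, [⟨nat_lit 0, [⟨nat_lit 0, nat_lit 11712, nat_lit 9456, nat_lit 14640, nat_lit 1248, nat_lit 9168, R13_305, R2_26, R6_191⟩, ⟨nat_lit 1, nat_lit 14064, nat_lit 9552, nat_lit 14736, nat_lit 288, nat_lit 9936, R13_307, R12_6, R4_207⟩, ⟨nat_lit 3, nat_lit 16848, nat_lit 9504, nat_lit 14688, nat_lit 720, nat_lit 4848, R13_306, R1_15, R8_101⟩]⟩, ⟨nat_lit 2, [⟨nat_lit 0, nat_lit 12192, nat_lit 10608, nat_lit 12480, nat_lit 8304, nat_lit 18720, R9_260,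 R2_173, R13_390⟩, ⟨nat_lit 1, nat_lit 14928, nat_lit 10704, nat_lit 12576, nat_lit 1344, nat_lit 14688, R9_262, R12_28, R3_306⟩, ⟨nat_lit 3, nat_lit 17040, nat_lit 10656, nat_lit 12528, nat_lit 9120, nat_lit 15216, R9_261, R1_190, R9_317⟩]⟩, ⟨nat_lit 3, [⟨nat_lit 3, nat_lit 17184, nat_lit 10128, nat_lit 10800, nat_lit 6240, nat_lit 16080, R3_225, R1_130, R5_335⟩]⟩]⟩]], [[], [], [⟨nat_lit 0, [⟨nat_lit 0, [⟨nat_lit 5, nat_lit 4512, nat_lit 0, nat_lit 7296, nat_lit 1584, nat_lit 6816, R6_152, R5_33, R4_142⟩]⟩, ⟨nat_lit 1, [⟨nat_lit 5, nat_lit 5184, nat_lit 96, nat_lit 7968, nat_lit 3984, nat_lit 5616, R4_166, R5_83, R3_117⟩]⟩]⟩,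
 ⟨nat_lit 3, [⟨nat_lit 0, [⟨nat_lit 1, nat_lit 12624, nat_lit 4992, nat_lit 13200, nat_lit 1440, nat_lit 6672, R13_275, R1_30, R7_139⟩, ⟨nat_lit 5, nat_lit 4656, nat_lit 5040, nat_lit 13248, nat_lit 1488, nat_lit 6864, R13_276, R11_31, R4_143⟩]⟩, ⟨nat_lit 1, [⟨nat_lit 1, nat_lit 13440, nat_lit 5664, nat_lit 9936, nat_lit 1776, nat_lit 4848, R3_207, R1_37, R2_101⟩, ⟨nat_lit 5, nat_lit 5328, nat_lit 5760, nat_lit 9984, nat_lit 1632, nat_lit 5712, R3_208, R11_34, R3_119⟩]⟩, ⟨nat_lit 2, [⟨nat_lit 1, nat_lit 13008, nat_lit 6720, nat_lit 10512, nat_lit 1632, nat_lit 9840, R9_219, R1_34, R2_205⟩]⟩]⟩]]], [[[], [], [⟨nat_lit 0, [⟨nat_lit 0, [⟨nat_lit 1, nat_lit 12384, nat_lit 12384, nat_lit 11136, nat_lit 6768, nat_lit 6768, R8_232, R7_141, R7_141⟩, ⟨nat_lit 5, nat_lit 4368, nat_lit 4368, nat_lit 17856, nat_lit 7056,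 nat_lit 7056, R8_372, R4_147, R4_147⟩]⟩, ⟨nat_lit 1, [⟨nat_lit 1, nat_lit 13152, nat_lit 12432, nat_lit 3168, nat_lit 6912, nat_lit 4944, R5_66, R7_144, R2_103⟩, ⟨nat_lit 5, nat_lit 4944, nat_lit 4416, nat_lit 4224, nat_lit 7200, nat_lit 5520, R5_88, R4_150, R3_115⟩]⟩, ⟨nat_lit 2, [⟨nat_lit 1, nat_lit 12816, nat_lit 12528, nat_lit 3360, nat_lit 6816, nat_lit 9744, R9_70, R7_142, R2_203⟩]⟩]⟩,
 ⟨nat_lit 1, [⟨nat_lit 0, [⟨nat_lit 1, nat_lit 12432, nat_lit 13152, nat_lit 3168, nat_lit 4944, nat_lit 6912, R5_66, R2_103, R7_144⟩, ⟨nat_lit 5, nat_lit 4416, nat_lit 4944, nat_lit 4224, nat_lit 5520, nat_lit 7200, R5_88, R3_115, R4_150⟩]⟩, ⟨nat_lit 1, [⟨nat_lit 1, nat_lit 13200, nat_lit 13200, nat_lit 3168, nat_lit 5088, nat_lit 5088, R11_66, R2_106, R2_106⟩, ⟨nat_lit 5, nat_lit 4992, nat_lit 4992, nat_lit 4224, nat_lit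 5568, nat_lit 5568, R11_88, R3_116, R3_116⟩]⟩, ⟨nat_lit 2, [⟨nat_lit 1, nat_lit 12864, nat_lit 13296, nat_lit 1824, nat_lit 4992, nat_lit 9936, R0_38, R2_104, R2_207⟩]⟩]⟩,
 ⟨nat_lit 3, [⟨nat_lit 0, [⟨nat_lit 1, nat_lit 12528, nat_lit 12816, nat_lit 3360, nat_lit 9744, nat_lit 6816, R9_70, R2_203, R7_142⟩]⟩, ⟨nat_lit 1, [⟨nat_lit 1, nat_lit 13296, nat_lit 12864, nat_lit 1824, nat_lit 9936, nat_lit 4992, R0_38, R2_207, R2_104⟩]⟩]⟩], [], [], [], [⟨nat_lit 0, [⟨nat_lit 0, [⟨nat_lit 1, nat_lit 13632, nat_lit 240, nat_lit 11184, nat_lit 7296, nat_lit 9792, R8_233, R7_152, R4_204⟩]⟩, ⟨nat_lit 2, [⟨nat_lit 1, nat_lit 14400, nat_lit 384, nat_lit 3216, nat_lit 7392, nat_lit 14496, R9_67, R7_154, R3_302⟩]⟩]⟩,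
 ⟨nat_lit 1, [⟨nat_lit 0, [⟨nat_lit 1, nat_lit 13680, nat_lit 5952, nat_lit 768, nat_lit 5520, nat_lit 10272, R5_16, R2_115, R4_214⟩]⟩, ⟨nat_lit 2, [⟨nat_lit 1, nat_lit 14448, nat_lit 6096, nat_lit 1680, nat_lit 5616, nat_lit 14544, R0_35, R2_117, R3_303⟩]⟩]⟩,
 ⟨nat_lit 3, [⟨nat_lit 0, [⟨nat_lit 1, nat_lit 13776, nat_lit 7248, nat_lit 1728, nat_lit 7152, nat_lit 10176, R9_36, R2_149, R4_212⟩]⟩]⟩]], [[], [], [⟨nat_lit 1, [⟨nat_lit 0, [⟨nat_lit 1, nat_lit 12576, nat_lit 5376, nat_lit 3216, nat_lit 3648, nat_lit 6960, R5_67, R1_76, R7_145⟩, ⟨nat_lit 5, nat_lit 4464, nat_lit 4752, nat_lit 4320, nat_lit 4320, nat_lit 7296, R5_90, R10_90, R4_152⟩]⟩, ⟨nat_lit 1, [⟨nat_lit 1, nat_lit 13344, nat_lit 5424, nat_lit 3216, nat_lit 3792, nat_lit 5136, R11_67, R1_79, R2_107⟩, ⟨nat_lit 5, nat_lit 5040, nat_lit 4848, nat_lit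 4320, nat_lit 4464, nat_lit 6000, R11_90, R10_93, R3_125⟩]⟩, ⟨nat_lit 2, [⟨nat_lit 1, nat_lit 12960, nat_lit 5520, nat_lit 6864, nat_lit 3696, nat_lit 9984, R0_143, R1_77, R2_208⟩]⟩]⟩], [], [], [], [⟨nat_lit 1, [⟨nat_lit 0, [⟨nat_lit 1, nat_lit 14256, nat_lit 4656, nat_lit 816, nat_lit 4224, nat_lit 10368, R5_17, R1_88, R4_216⟩]⟩, ⟨nat_lit 2, [⟨nat_lit 1, nat_lit 15072, nat_lit 4800, nat_lit 6720, nat_lit 4320, nat_lit 15120, R0_140, R1_90, R3_315⟩]⟩]⟩]], [[], [], [], [], [], [], [⟨nat_lit 0, [⟨nat_lit 0, [⟨nat_lit 0, nat_lit 11664, nat_lit 6864, nat_lit 3840, nat_lit 336, nat_lit 9120, R8_80, R7_7, R6_190⟩, ⟨nat_lit 1, nat_lit 13968, nat_lit 6912, nat_lit 11808, nat_lit 20112, nat_lit 9840, R8_246, R14_419, R4_205⟩]⟩, ⟨nat_lit 2, [⟨nat_lit 0, nat_lit 12000, nat_lit 7488, nat_lit 12192, nat_lit 5280, nat_lit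 18960, R9_254, R7_110, R13_395⟩, ⟨nat_lit 1, nat_lit 14688, nat_lit 7536, nat_lit 12960, nat_lit 20784, nat_lit 14928, R9_270, R14_433, R3_311⟩]⟩]⟩,
 ⟨nat_lit 1, [⟨nat_lit 0, [⟨nat_lit 1, nat_lit 14016, nat_lit 7776, nat_lit 864, nat_lit 15888, nat_lit 10320, R5_18, R12_331, R4_215⟩]⟩, ⟨nat_lit 2, [⟨nat_lit 1, nat_lit 14880, nat_lit 7920, nat_lit 11136, nat_lit 16560, nat_lit 15024, R0_232, R12_345, R3_313⟩]⟩]⟩,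
 ⟨nat_lit 2, [⟨nat_lit 2, [⟨nat_lit 0, nat_lit 12144, nat_lit 9264, nat_lit 1392, nat_lit 3696, nat_lit 19008, R0_29, R2_77, R13_396⟩, ⟨nat_lit 1, nat_lit 14832, nat_lit 9312, nat_lit 10752, nat_lit 16272, nat_lit 14976, R0_224, R12_339, R3_312⟩, ⟨nat_lit 2, nat_lit 15600, nat_lit 9360, nat_lit 6528, nat_lit 3168, nat_lit 9264, R0_136, R1_66, R3_193⟩]⟩]⟩,
 ⟨nat_lit 3, [⟨nat_lit 0, [⟨nat_lit 0, nat_lit 11808, nat_lit 8352, nat_lit 1056, nat_lit 1632, nat_lit 9312, R9_22, R2_34, R6_194⟩, ⟨nat_lit 1, nat_lit 14160, nat_lit 8448, nat_lit 1776, nat_lit 7392, nat_lit 10224, R9_37, R12_154, R4_213⟩, ⟨nat_lit 3, nat_lit 16944, nat_lit 8400, nat_lit 1488, nat_lit 1104, nat_lit 6480, R9_31, R1_23, R8_135⟩]⟩, ⟨nat_lit 3, [⟨nat_lit 3, nat_lit 17280, nat_lit 9024, nat_lit 4272, nat_lit 6528, nat_lit 16176, R0_89, R1_136,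 R5_337⟩]⟩]⟩]], [[], [], [⟨nat_lit 0, [⟨nat_lit 0, [⟨nat_lit 5, nat_lit 4560, nat_lit 11856, nat_lit 18672, nat_lit 10080, nat_lit 7104, R8_389, R5_210, R4_148⟩]⟩, ⟨nat_lit 1, [⟨nat_lit 5, nat_lit 5232, nat_lit 12000, nat_lit 12576, nat_lit 12432, nat_lit 5664, R5_262, R5_259, R3_118⟩]⟩]⟩,
 ⟨nat_lit 1, [⟨nat_lit 0, [⟨nat_lit 5, nat_lit 4608, nat_lit 11904, nat_lit 4272, nat_lit 480, nat_lit 7248, R5_89, R0_10, R4_151⟩]⟩, ⟨nat_lit 1, [⟨nat_lit 5, nat_lit 5280, nat_lit 12048, nat_lit 4272, nat_lit 528, nat_lit 5856, R11_89, R0_11, R3_122⟩]⟩]⟩,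
 ⟨nat_lit 3, [⟨nat_lit 0, [⟨nat_lit 1, nat_lit 12672, nat_lit 11760, nat_lit 3408, nat_lit 10560, nat_lit 6864, R9_71, R1_220, R7_143⟩, ⟨nat_lit 5, nat_lit 4704, nat_lit 11952, nat_lit 3648, nat_lit 1536, nat_lit 7152, R9_76, R11_32, R4_149⟩]⟩, ⟨nat_lit 1, [⟨nat_lit 1, nat_lit 13488, nat_lit 11808, nat_lit 1872, nat_lit 10752, nat_lit 5040, R0_39, R1_224, R2_105⟩, ⟨nat_lit 5, nat_lit 5376, nat_lit 12096, nat_lit 2112, nat_lit 1680, nat_lit 5808, R0_44, R11_35, R3_121⟩]⟩]⟩]]], [[], [], [[], [], [], [], [⟨nat_lit 2, [⟨nat_lit 6, [⟨nat_lit 2, nat_lit 15360, nat_lit 10608, nat_lit 11136, nat_lit 13152, nat_lit 15072, R1_232, R1_274, R7_314⟩]⟩]⟩], [⟨nat_lit 2, [⟨nat_lit 6, [⟨nat_lit 2, nat_lit 15696, nat_lit 10992, nat_lit 11232, nat_lit 13776, nat_lit 14256, R1_234, R1_287, R2_297⟩]⟩]⟩], [⟨nat_lit 0, [⟨nat_lit 0,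 [⟨nat_lit 0, nat_lit 11616, nat_lit 2688, nat_lit 2304, nat_lit 480, nat_lit 9072, R4_48, R7_10, R6_189⟩, ⟨nat_lit 1, nat_lit 13920, nat_lit 2736, nat_lit 11184, nat_lit 21696, nat_lit 9744, R4_233, R14_452, R4_203⟩]⟩, ⟨nat_lit 2, [⟨nat_lit 0, nat_lit 11952, nat_lit 4032, nat_lit 2688, nat_lit 5424, nat_lit 18768, R5_56, R7_113, R13_391⟩, ⟨nat_lit 1, nat_lit 14640, nat_lit 4080, nat_lit 13920, nat_lit 22080, nat_lit 14736, R5_290, R14_460, R3_307⟩]⟩]⟩,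
 ⟨nat_lit 2, [⟨nat_lit 2, [⟨nat_lit 0, nat_lit 12096, nat_lit 5376, nat_lit 16896, nat_lit 3840, nat_lit 18816, R11_352, R2_80, R13_392⟩, ⟨nat_lit 1, nat_lit 14784, nat_lit 5424, nat_lit 16992, nat_lit 16896, nat_lit 14784, R11_354, R12_352, R3_308⟩, ⟨nat_lit 2, nat_lit 15552, nat_lit 5472, nat_lit 16944, nat_lit 3312, nat_lit 9216, R11_353, R1_69, R3_192⟩]⟩, ⟨nat_lit 6, [⟨nat_lit 2, nat_lit 15648, nat_lit 6336, nat_lit 11328, nat_lit 13632, nat_lit 13872, R1_236, R1_284, R2_289⟩]⟩]⟩,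
 ⟨nat_lit 3, [⟨nat_lit 0, [⟨nat_lit 0, nat_lit 11760, nat_lit 3024, nat_lit 2208, nat_lit 1824, nat_lit 9216, R3_46, R2_38, R6_192⟩, ⟨nat_lit 1, nat_lit 14112, nat_lit 3120, nat_lit 2880, nat_lit 10320, nat_lit 9984, R3_60, R12_215, R4_208⟩, ⟨nat_lit 3, nat_lit 16896, nat_lit 3072, nat_lit 2736, nat_lit 1296, nat_lit 5760, R3_57, R1_27, R8_120⟩]⟩, ⟨nat_lit 2, [⟨nat_lit 0, nat_lit 12240, nat_lit 4608, nat_lit 10656, nat_lit 8688, nat_lit 18864, R0_222, R2_181, R13_393⟩, ⟨nat_lit 1, nat_lit 14976, nat_lit 4704, nat_lit 10752, nat_lit 11088, nat_lit 14832, R0_224, R12_231, R3_309⟩, ⟨nat_lit 3, nat_lit 17088, nat_lit 4656, nat_lit 10704, nat_lit 9504, nat_lit 15264, R0_223, R1_198, R9_318⟩]⟩, ⟨nat_lit 3, [⟨nat_lit 3, nat_lit 17232, nat_lit 3600, nat_lit 12960, nat_lit 6720, nat_lit 16128, R10_270, R1_140, R5_336⟩]⟩]⟩]],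 [], [], [], [[], [], [], [], [⟨nat_lit 0, [⟨nat_lit 0, [⟨nat_lit 3, nat_lit 16080, nat_lit 8544, nat_lit 5088, nat_lit 3360, nat_lit 13872, R4_106, R5_70, R6_289⟩]⟩, ⟨nat_lit 2, [⟨nat_lit 0, nat_lit 11424, nat_lit 2928, nat_lit 3408, nat_lit 4992, nat_lit 13440, R5_71, R4_104, R6_280⟩, ⟨nat_lit 3, nat_lit 16416, nat_lit 8688, nat_lit 11472, nat_lit 11424, nat_lit 14592, R5_239, R5_238, R8_304⟩]⟩]⟩,
 ⟨nat_lit 2, [⟨nat_lit 2, [⟨nat_lit 0, nat_lit 11520, nat_lit 2976, nat_lit 16032, nat_lit 240, nat_lit 13488, R11_334, R3_5, R6_281⟩, ⟨nat_lit 2, nat_lit 15312, nat_lit 10464, nat_lit 16128, nat_lit 7200, nat_lit 13296, R11_336, R10_150, R4_277⟩, ⟨nat_lit 3, nat_lit 16512, nat_lit 8784, nat_lit 16080, nat_lit 5712, nat_lit 14688, R11_335, R0_119, R8_306⟩]⟩, ⟨nat_lit 6, [⟨nat_lit 2, nat_lit 15408, nat_lit 10416, nat_lit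 11184, nat_lit 7248, nat_lit 15024, R1_233, R10_151, R7_313⟩]⟩]⟩,
 ⟨nat_lit 3, [⟨nat_lit 0, [⟨nat_lit 3, nat_lit 16176, nat_lit 8592, nat_lit 672, nat_lit 7968, nat_lit 13920, R3_14, R11_166, R6_290⟩]⟩, ⟨nat_lit 2, [⟨nat_lit 3, nat_lit 16608, nat_lit 8736, nat_lit 9888, nat_lit 8016, nat_lit 14640, R0_206, R11_167, R8_305⟩]⟩, ⟨nat_lit 3, [⟨nat_lit 3, nat_lit 16800, nat_lit 8640, nat_lit 12384, nat_lit 8064, nat_lit 13728, R10_258, R11_168, R4_286⟩, ⟨nat_lit 7, nat_lit 10320, nat_lit 15456, nat_lit 12432, nat_lit 5952, nat_lit 14976, R10_259, R1_124, R7_312⟩]⟩]⟩,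
 ⟨nat_lit 4, [⟨nat_lit 4, [⟨nat_lit 6, nat_lit 8544, nat_lit 16080, nat_lit 5088, nat_lit 3360, nat_lit 13872, R4_106, R5_70, R6_289⟩]⟩, ⟨nat_lit 7, [⟨nat_lit 4, nat_lit 2928, nat_lit 11424, nat_lit 3408, nat_lit 4992, nat_lit 13440, R5_71, R4_104, R6_280⟩, ⟨nat_lit 6, nat_lit 8688, nat_lit 16416, nat_lit 11472, nat_lit 11424, nat_lit 14592, R5_239, R5_238, R8_304⟩]⟩]⟩,
 ⟨nat_lit 6, [⟨nat_lit 4, [⟨nat_lit 6, nat_lit 8592, nat_lit 16176, nat_lit 672, nat_lit 7968, nat_lit 13920, R3_14, R11_166, R6_290⟩]⟩, ⟨nat_lit 6, [⟨nat_lit 2, nat_lit 15456, nat_lit 10320, nat_lit 12432, nat_lit 5952, nat_lit 14976, R10_259, R1_124, R7_312⟩, ⟨nat_lit 6, nat_lit 8640, nat_lit 16800, nat_lit 12384, nat_lit 8064, nat_lit 13728, R10_258, R11_168, R4_286⟩]⟩, ⟨nat_lit 7, [⟨nat_lit 6, nat_lit 8736, nat_lit 16608, nat_lit 9888, nat_lit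 8016, nat_lit 14640, R0_206, R11_167, R8_305⟩]⟩]⟩,
 ⟨nat_lit 7, [⟨nat_lit 3, [⟨nat_lit 7, nat_lit 10416, nat_lit 15408, nat_lit 11184, nat_lit 7248, nat_lit 15024, R1_233, R10_151, R7_313⟩]⟩, ⟨nat_lit 7, [⟨nat_lit 4, nat_lit 2976, nat_lit 11520, nat_lit 16032, nat_lit 240, nat_lit 13488, R11_334, R3_5, R6_281⟩, ⟨nat_lit 6, nat_lit 8784, nat_lit 16512, nat_lit 16080, nat_lit 5712, nat_lit 14688, R11_335, R0_119, R8_306⟩, ⟨nat_lit 7, nat_lit 10464, nat_lit 15312, nat_lit 16128, nat_lit 7200, nat_lit 13296, R11_336, R10_150, R4_277⟩]⟩]⟩], [⟨nat_lit 2, [⟨nat_lit 6, [⟨nat_lit 2, nat_lit 15744, nat_lit 3984, nat_lit 11280, nat_lit 7296, nat_lit 14208, R1_235, R10_152, R2_296⟩]⟩]⟩,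
 ⟨nat_lit 4, [⟨nat_lit 4, [⟨nat_lit 4, nat_lit 3024, nat_lit 3456, nat_lit 336, nat_lit 2112, nat_lit 8880, R4_7, R4_44, R6_185⟩, ⟨nat_lit 6, nat_lit 8832, nat_lit 3648, nat_lit 5568, nat_lit 3552, nat_lit 19392, R4_116, R5_74, R13_404⟩]⟩, ⟨nat_lit 7, [⟨nat_lit 4, nat_lit 3264, nat_lit 3504, nat_lit 3936, nat_lit 7632, nat_lit 5280, R5_82, R4_159, R8_110⟩, ⟨nat_lit 6, nat_lit 9312, nat_lit 3696, nat_lit 12288, nat_lit 11760, nat_lit 15648, R5_256, R5_245, R9_326⟩]⟩]⟩,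
 ⟨nat_lit 6, [⟨nat_lit 4, [⟨nat_lit 6, nat_lit 8928, nat_lit 3792, nat_lit 4272, nat_lit 9696, nat_lit 19440, R3_89, R11_202, R13_405⟩]⟩, ⟨nat_lit 6, [⟨nat_lit 2, nat_lit 15792, nat_lit 3936, nat_lit 12528, nat_lit 6048, nat_lit 14160, R10_261, R1_126, R2_295⟩, ⟨nat_lit 6, nat_lit 9072, nat_lit 3888, nat_lit 12480, nat_lit 9792, nat_lit 9072, R10_260, R11_204, R3_189⟩]⟩, ⟨nat_lit 7, [⟨nat_lit 6, nat_lit 9360, nat_lit 3840, nat_lit 9936, nat_lit 9744, nat_lit 15696, R0_207, R11_203, R9_327⟩]⟩]⟩,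
 ⟨nat_lit 7, [⟨nat_lit 7, [⟨nat_lit 4, nat_lit 3312, nat_lit 3552, nat_lit 16176, nat_lit 2496, nat_lit 5664, R11_337, R3_52, R8_118⟩, ⟨nat_lit 6, nat_lit 9408, nat_lit 3744, nat_lit 16224, nat_lit 7008, nat_lit 15744, R11_338, R0_146, R9_328⟩, ⟨nat_lit 7, nat_lit 10512, nat_lit 3600, nat_lit 16272, nat_lit 8592, nat_lit 16512, R11_339, R10_179, R5_344⟩]⟩]⟩], [], [⟨nat_lit 0, [⟨nat_lit 0, [⟨nat_lit 3, nat_lit 17424, nat_lit 2832, nat_lit 6240, nat_lit 3648, nat_lit 6000, R4_130, R5_76, R4_125⟩]⟩, ⟨nat_lit 2, [⟨nat_lit 3, nat_lit 17712, nat_lit 2880, nat_lit 11616, nat_lit 11856, nat_lit 10704, R5_242, R5_247, R5_223⟩]⟩]⟩,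
 ⟨nat_lit 2, [⟨nat_lit 2, [⟨nat_lit 3, nat_lit 17808, nat_lit 3024, nat_lit 16704, nat_lit 5808, nat_lit 10800, R11_348, R0_121, R5_225⟩]⟩]⟩,
 ⟨nat_lit 3, [⟨nat_lit 0, [⟨nat_lit 3, nat_lit 17520, nat_lit 2928, nat_lit 1152, nat_lit 8304, nat_lit 6576, R3_24, R11_173, R4_137⟩, ⟨nat_lit 7, nat_lit 10656, nat_lit 2592, nat_lit 2016, nat_lit 7296, nat_lit 6192, R3_42, R1_152, R7_129⟩]⟩, ⟨nat_lit 2, [⟨nat_lit 3, nat_lit 17904, nat_lit 2976, nat_lit 10320, nat_lit 8352, nat_lit 10896, R0_215, R11_174, R5_227⟩]⟩, ⟨nat_lit 3, [⟨nat_lit 7, nat_lit 10848, nat_lit 2640, nat_lit 12768, nat_lit 7344, nat_lit 17952, R10_266, R1_153, R14_374⟩]⟩]⟩,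
 ⟨nat_lit 4, [⟨nat_lit 7, [⟨nat_lit 4, nat_lit 3552, nat_lit 2400, nat_lit 3696, nat_lit 6192, nat_lit 5952, R5_77, R4_129, R4_124⟩, ⟨nat_lit 6, nat_lit 9504, nat_lit 2688, nat_lit 11904, nat_lit 11568, nat_lit 10512, R5_248, R5_241, R5_219⟩]⟩]⟩,
 ⟨nat_lit 6, [⟨nat_lit 7, [⟨nat_lit 6, nat_lit 9552, nat_lit 2784, nat_lit 9984, nat_lit 8784, nat_lit 10560, R0_208, R11_183, R5_220⟩]⟩]⟩,
 ⟨nat_lit 7, [⟨nat_lit 3, [⟨nat_lit 4, nat_lit 3456, nat_lit 2496, nat_lit 11664, nat_lit 1632, nat_lit 6144, R1_243, R3_34, R7_128⟩, ⟨nat_lit 7, nat_lit 10944, nat_lit 2544, nat_lit 11712, nat_lit 8256, nat_lit 17904, R1_244, R10_172, R14_373⟩]⟩, ⟨nat_lit 7, [⟨nat_lit 4, nat_lit 3600, nat_lit 2448, nat_lit 16320, nat_lit 960, nat_lit 6528, R11_340, R3_20, R4_136⟩, ⟨nat_lit 6, nat_lit 9600, nat_lit 2736, nat_lit 16368, nat_lit 6240,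 nat_lit 10608, R11_341, R0_130, R5_221⟩]⟩]⟩]]], [[[], [], [], [], [], [], [⟨nat_lit 3, [⟨nat_lit 0, [⟨nat_lit 1, nat_lit 13824, nat_lit 5280, nat_lit 9648, nat_lit 5856, nat_lit 10032, R3_201, R2_122, R4_209⟩]⟩, ⟨nat_lit 2, [⟨nat_lit 1, nat_lit 14544, nat_lit 5616, nat_lit 1680, nat_lit 6096, nat_lit 14448, R0_35, R2_127, R3_301⟩]⟩]⟩]], [], [[], [], [], [], [⟨nat_lit 3, [⟨nat_lit 0, [⟨nat_lit 3, nat_lit 15984, nat_lit 12288, nat_lit 3648, nat_lit 144, nat_lit 14208, R3_76, R1_3, R6_296⟩]⟩, ⟨nat_lit 2, [⟨nat_lit 0, nat_lit 11328, nat_lit 14544, nat_lit 9312, nat_lit 7584, nat_lit 13296, R0_194, R2_158, R6_277⟩, ⟨nat_lit 3, nat_lit 16320, nat_lit 15120, nat_lit 9552, nat_lit 8112, nat_lit 14928, R0_199, R1_169, R8_311⟩]⟩]⟩], [], [⟨nat_lit 3, [⟨nat_lit 0, [⟨nat_lit 0, nat_lit 11856, nat_lit 3168, nat_lit 2160,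 nat_lit 1344, nat_lit 9264, R3_45, R2_28, R6_193⟩, ⟨nat_lit 1, nat_lit 14208, nat_lit 3504, nat_lit 9840, nat_lit 5952, nat_lit 10080, R3_205, R12_124, R4_210⟩, ⟨nat_lit 3, nat_lit 16992, nat_lit 3408, nat_lit 7056, nat_lit 816, nat_lit 6000, R3_147, R1_17, R8_125⟩]⟩, ⟨nat_lit 2, [⟨nat_lit 0, nat_lit 12288, nat_lit 4752, nat_lit 10512, nat_lit 8400, nat_lit 18912, R0_219, R2_175, R13_394⟩, ⟨nat_lit 1, nat_lit 15024, nat_lit 5088, nat_lit 11136, nat_lit 6192, nat_lit 14880, R0_232, R12_129, R3_310⟩, ⟨nat_lit 3, nat_lit 17136, nat_lit 4992, nat_lit 10800, nat_lit 9216, nat_lit 15312, R0_225, R1_192, R9_319⟩]⟩]⟩], [⟨nat_lit 3, [⟨nat_lit 0, [⟨nat_lit 3, nat_lit 17328, nat_lit 12864, nat_lit 4800, nat_lit 480, nat_lit 6960, R3_100, R1_10, R4_145⟩]⟩, ⟨nat_lit 2, [⟨nat_lit 3, nat_lit 17616, nat_lit 16128, nat_lit 10032,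 nat_lit 8736, nat_lit 10992, R0_209, R1_182, R5_229⟩]⟩]⟩]], [[], [], [⟨nat_lit 3, [⟨nat_lit 0, [⟨nat_lit 1, nat_lit 12720, nat_lit 4992, nat_lit 10704, nat_lit 6864, nat_lit 6720, R3_223, R1_143, R7_140⟩, ⟨nat_lit 5, nat_lit 4752, nat_lit 5040, nat_lit 17568, nat_lit 1584, nat_lit 6912, R3_366, R11_33, R4_144⟩]⟩, ⟨nat_lit 1, [⟨nat_lit 1, nat_lit 13536, nat_lit 5280, nat_lit 2400, nat_lit 7200, nat_lit 4896, R10_50, R1_150, R2_102⟩, ⟨nat_lit 5, nat_lit 5424, nat_lit 5376, nat_lit 2640, nat_lit 1728, nat_lit 5760, R10_55, R11_36, R3_120⟩]⟩, ⟨nat_lit 2, [⟨nat_lit 1, nat_lit 13056, nat_lit 6336, nat_lit 5376, nat_lit 7056, nat_lit 9888, R0_112, R1_147, R2_206⟩]⟩]⟩], [], [], [], [⟨nat_lit 3, [⟨nat_lit 0, [⟨nat_lit 1, nat_lit 14304, nat_lit 3984, nat_lit 9744, nat_lit 4560, nat_lit 10128, R3_203, R1_95, R4_211⟩]⟩,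 ⟨nat_lit 2, [⟨nat_lit 1, nat_lit 15120, nat_lit 4320, nat_lit 6720, nat_lit 4800, nat_lit 15072, R0_140, R1_100, R3_314⟩]⟩]⟩]], [[], [], [], [⟨nat_lit 3, [⟨nat_lit 0, [⟨nat_lit 7, nat_lit 9648, nat_lit 5280, nat_lit 13824, nat_lit 5856, nat_lit 10032, R3_288, R2_122, R4_209⟩]⟩, ⟨nat_lit 1, [⟨nat_lit 7, nat_lit 9888, nat_lit 5328, nat_lit 1920, nat_lit 5904, nat_lit 5520, R10_40, R2_123, R5_115⟩]⟩]⟩,
 ⟨nat_lit 7, [⟨nat_lit 0, [⟨nat_lit 4, nat_lit 2064, nat_lit 3360, nat_lit 1776, nat_lit 7824, nat_lit 7872, R2_37, R13_163, R6_164⟩, ⟨nat_lit 5, nat_lit 7008, nat_lit 4224, nat_lit 2832, nat_lit 6480, nat_lit 6048, R2_59, R3_135, R8_126⟩, ⟨nat_lit 7, nat_lit 9696, nat_lit 4800, nat_lit 2304, nat_lit 13248, nat_lit 8352, R2_48, R3_276, R4_174⟩]⟩, ⟨nat_lit 1, [⟨nat_lit 4, nat_lit 2304, nat_lit 3456, nat_lit 1248,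 nat_lit 7920, nat_lit 5568, R1_26, R13_165, R8_116⟩, ⟨nat_lit 5, nat_lit 7200, nat_lit 4320, nat_lit 2304, nat_lit 6576, nat_lit 5280, R1_48, R3_137, R9_110⟩, ⟨nat_lit 7, nat_lit 9936, nat_lit 4848, nat_lit 1776, nat_lit 13440, nat_lit 5664, R1_37, R3_280, R5_118⟩]⟩, ⟨nat_lit 3, [⟨nat_lit 4, nat_lit 2784, nat_lit 3408, nat_lit 10224, nat_lit 7872, nat_lit 9408, R12_213, R13_164, R4_196⟩, ⟨nat_lit 5, nat_lit 7536, nat_lit 4272, nat_lit 10272, nat_lit 6528, nat_lit 5424, R12_214, R3_136, R5_113⟩]⟩]⟩]], [], [[], [], [], [⟨nat_lit 3, [⟨nat_lit 0, [⟨nat_lit 7, nat_lit 9744, nat_lit 3984, nat_lit 14304, nat_lit 4560, nat_lit 10128, R3_298, R1_95, R4_211⟩]⟩, ⟨nat_lit 1, [⟨nat_lit 7, nat_lit 10032, nat_lit 4032, nat_lit 2016, nat_lit 4608, nat_lit 5568, R10_42, R1_96, R5_116⟩]⟩]⟩,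
 ⟨nat_lit 7, [⟨nat_lit 0, [⟨nat_lit 4, nat_lit 2112, nat_lit 2832, nat_lit 1872, nat_lit 3120, nat_lit 7968, R2_39, R3_65, R6_166⟩, ⟨nat_lit 7, nat_lit 9792, nat_lit 3504, nat_lit 2352, nat_lit 5280, nat_lit 8400, R2_49, R10_110, R4_175⟩]⟩, ⟨nat_lit 1, [⟨nat_lit 4, nat_lit 2448, nat_lit 2928, nat_lit 1344, nat_lit 3360, nat_lit 5712, R1_28, R3_70, R8_119⟩, ⟨nat_lit 7, nat_lit 10080, nat_lit 3552, nat_lit 1824, nat_lit 5328, nat_lit 5712, R1_38, R10_111, R5_119⟩]⟩, ⟨nat_lit 3, [⟨nat_lit 4, nat_lit 2832, nat_lit 2880, nat_lit 10416, nat_lit 3216, nat_lit 9600, R12_217, R3_67, R4_200⟩]⟩]⟩], [], [], [], [⟨nat_lit 3, [⟨nat_lit 0, [⟨nat_lit 3, nat_lit 17568, nat_lit 5040, nat_lit 4752, nat_lit 8208, nat_lit 6912, R3_99, R11_171, R4_144⟩, ⟨nat_lit 7, nat_lit 10704, nat_lit 4992, nat_lit 12720, nat_lit 6864, nat_lit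 6720, R3_265, R1_143, R7_140⟩]⟩, ⟨nat_lit 2, [⟨nat_lit 3, nat_lit 17952, nat_lit 5088, nat_lit 15168, nat_lit 8256, nat_lit 10944, R0_316, R11_172, R5_228⟩]⟩]⟩,
 ⟨nat_lit 7, [⟨nat_lit 0, [⟨nat_lit 7, nat_lit 10752, nat_lit 4896, nat_lit 624, nat_lit 7680, nat_lit 7152, R2_13, R10_160, R7_149⟩]⟩, ⟨nat_lit 3, [⟨nat_lit 4, nat_lit 3504, nat_lit 4848, nat_lit 10464, nat_lit 1584, nat_lit 6096, R12_218, R3_33, R7_127⟩, ⟨nat_lit 7, nat_lit 10992, nat_lit 4944, nat_lit 10512, nat_lit 7728, nat_lit 18000, R12_219, R10_161, R14_375⟩]⟩]⟩]], [[⟨nat_lit 3, [⟨nat_lit 0, [⟨nat_lit 5, nat_lit 3648, nat_lit 12288, nat_lit 15984, nat_lit 144, nat_lit 6672, R3_333, R1_3, R6_139⟩]⟩, ⟨nat_lit 1, [⟨nat_lit 4, nat_lit 576, nat_lit 11952, nat_lit 288, nat_lit 960, nat_lit 6336, R10_6, R2_20, R6_132⟩, ⟨nat_lit 5, nat_lit 4176, nat_lit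 12432, nat_lit 624, nat_lit 288, nat_lit 7104, R10_13, R1_6, R13_148⟩]⟩]⟩,
 ⟨nat_lit 7, [⟨nat_lit 0, [⟨nat_lit 5, nat_lit 3696, nat_lit 12240, nat_lit 1056, nat_lit 240, nat_lit 6720, R2_22, R10_5, R6_140⟩]⟩, ⟨nat_lit 1, [⟨nat_lit 4, nat_lit 624, nat_lit 11904, nat_lit 192, nat_lit 15936, nat_lit 6288, R1_4, R3_332, R6_131⟩, ⟨nat_lit 5, nat_lit 4224, nat_lit 12384, nat_lit 384, nat_lit 576, nat_lit 7152, R1_8, R10_12, R13_149⟩]⟩]⟩], [], [⟨nat_lit 3, [⟨nat_lit 0, [⟨nat_lit 5, nat_lit 4800, nat_lit 12864, nat_lit 17328, nat_lit 480, nat_lit 6960, R3_361, R1_10, R4_145⟩]⟩, ⟨nat_lit 1, [⟨nat_lit 5, nat_lit 5904, nat_lit 13008, nat_lit 2688, nat_lit 528, nat_lit 5136, R10_56, R1_11, R3_107⟩]⟩]⟩,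
 ⟨nat_lit 7, [⟨nat_lit 0, [⟨nat_lit 5, nat_lit 4848, nat_lit 12816, nat_lit 3072, nat_lit 768, nat_lit 7008, R2_64, R10_16, R4_146⟩]⟩, ⟨nat_lit 1, [⟨nat_lit 5, nat_lit 5952, nat_lit 12960, nat_lit 2544, nat_lit 912, nat_lit 5088, R1_53, R10_19, R3_106⟩]⟩]⟩], [⟨nat_lit 3, [⟨nat_lit 0, [⟨nat_lit 4, nat_lit 2160, nat_lit 3168, nat_lit 11856, nat_lit 1344, nat_lit 9264, R3_247, R2_28, R6_193⟩, ⟨nat_lit 5, nat_lit 7056, nat_lit 3408, nat_lit 16992, nat_lit 816, nat_lit 6000, R3_354, R1_17, R8_125⟩, ⟨nat_lit 7, nat_lit 9840, nat_lit 3504, nat_lit 14208, nat_lit 5952, nat_lit 10080, R3_296, R12_124, R4_210⟩]⟩, ⟨nat_lit 1, [⟨nat_lit 4, nat_lit 2688, nat_lit 3216, nat_lit 1248, nat_lit 2496, nat_lit 5808, R10_26, R2_52, R8_121⟩, ⟨nat_lit 5, nat_lit 7440, nat_lit 3456, nat_lit 2208, nat_lit 1968, nat_lit 5232, R10_46,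 R1_41, R9_109⟩, ⟨nat_lit 7, nat_lit 10224, nat_lit 3552, nat_lit 1968, nat_lit 6000, nat_lit 5616, R10_41, R12_125, R5_117⟩]⟩]⟩,
 ⟨nat_lit 7, [⟨nat_lit 0, [⟨nat_lit 4, nat_lit 2208, nat_lit 3024, nat_lit 1824, nat_lit 11760, nat_lit 7920, R2_38, R3_245, R6_165⟩, ⟨nat_lit 5, nat_lit 7104, nat_lit 3264, nat_lit 2880, nat_lit 1104, nat_lit 6096, R2_60, R10_23, R8_127⟩]⟩, ⟨nat_lit 1, [⟨nat_lit 4, nat_lit 2736, nat_lit 3072, nat_lit 1296, nat_lit 16896, nat_lit 5760, R1_27, R3_352, R8_120⟩, ⟨nat_lit 5, nat_lit 7488, nat_lit 3312, nat_lit 2352, nat_lit 2112, nat_lit 5328, R1_49, R10_44, R9_111⟩]⟩, ⟨nat_lit 3, [⟨nat_lit 4, nat_lit 2880, nat_lit 3120, nat_lit 10320, nat_lit 14112, nat_lit 9984, R12_215, R3_294, R4_208⟩, ⟨nat_lit 5, nat_lit 7584, nat_lit 3360, nat_lit 10368, nat_lit 1536, nat_lit 5472, R12_216, R10_32,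 R5_114⟩]⟩]⟩]]], [[], [], [], [], [[⟨nat_lit 4, [⟨nat_lit 1, [⟨nat_lit 4, nat_lit 0, nat_lit 624, nat_lit 1872, nat_lit 336, nat_lit 5952, R4_39, R6_7, R6_124⟩, ⟨nat_lit 5, nat_lit 3744, nat_lit 1200, nat_lit 2064, nat_lit 240, nat_lit 7200, R4_43, R4_5, R13_150⟩]⟩]⟩], [⟨nat_lit 4, [⟨nat_lit 1, [⟨nat_lit 4, nat_lit 720, nat_lit 768, nat_lit 2400, nat_lit 2640, nat_lit 6288, R4_50, R6_55, R4_131⟩, ⟨nat_lit 5, nat_lit 6048, nat_lit 864, nat_lit 2544, nat_lit 2544, nat_lit 6048, R4_53, R4_53, R3_126⟩]⟩, ⟨nat_lit 5, [⟨nat_lit 4, nat_lit 1200, nat_lit 1152, nat_lit 2256, nat_lit 2976, nat_lit 5712, R7_47, R6_62, R7_119⟩, ⟨nat_lit 5, nat_lit 6384, nat_lit 1248, nat_lit 2496, nat_lit 2640, nat_lit 4128, R7_52, R4_55, R2_86⟩, ⟨nat_lit 6, nat_lit 7632, nat_lit 1344, nat_lit 2352, nat_lit 3888, nat_lit 8784, R7_49, R8_81,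 R2_183⟩]⟩]⟩,
 ⟨nat_lit 7, [⟨nat_lit 5, [⟨nat_lit 4, nat_lit 1296, nat_lit 7056, nat_lit 2400, nat_lit 8640, nat_lit 5808, R2_50, R13_180, R7_121⟩, ⟨nat_lit 5, nat_lit 6480, nat_lit 7200, nat_lit 2832, nat_lit 7008, nat_lit 4224, R2_59, R3_146, R2_88⟩, ⟨nat_lit 6, nat_lit 7776, nat_lit 7296, nat_lit 2544, nat_lit 6240, nat_lit 9216, R2_53, R9_130, R2_192⟩]⟩]⟩], [⟨nat_lit 4, [⟨nat_lit 1, [⟨nat_lit 5, nat_lit 5472, nat_lit 1104, nat_lit 2784, nat_lit 816, nat_lit 4896, R4_58, R4_17, R3_102⟩]⟩]⟩]], [[⟨nat_lit 4, [⟨nat_lit 1, [⟨nat_lit 4, nat_lit 288, nat_lit 5136, nat_lit 7392, nat_lit 17664, nat_lit 6384, R4_154, R8_368, R6_133⟩, ⟨nat_lit 5, nat_lit 3888, nat_lit 5184, nat_lit 7584, nat_lit 3840, nat_lit 7248, R4_158, R5_80, R13_151⟩]⟩]⟩,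
 ⟨nat_lit 5, [⟨nat_lit 1, [⟨nat_lit 4, nat_lit 384, nat_lit 5472, nat_lit 2256, nat_lit 1344, nat_lit 6528, R3_47, R5_28, R6_136⟩, ⟨nat_lit 5, nat_lit 3984, nat_lit 5520, nat_lit 2352, nat_lit 912, nat_lit 7296, R3_49, R11_19, R13_152⟩]⟩]⟩], [⟨nat_lit 4, [⟨nat_lit 1, [⟨nat_lit 4, nat_lit 1008, nat_lit 240, nat_lit 7728, nat_lit 17808, nat_lit 6624, R4_161, R8_371, R4_138⟩, ⟨nat_lit 5, nat_lit 6192, nat_lit 336, nat_lit 7872, nat_lit 4128, nat_lit 6096, R4_164, R5_86, R3_127⟩]⟩, ⟨nat_lit 5, [⟨nat_lit 4, nat_lit 1680, nat_lit 480, nat_lit 7680, nat_lit 11088, nat_lit 6240, R7_160, R8_231, R7_130⟩, ⟨nat_lit 5, nat_lit 6624, nat_lit 576, nat_lit 7920, nat_lit 3024, nat_lit 4416, R7_165, R5_63, R2_92⟩, ⟨nat_lit 6, nat_lit 8208, nat_lit 672, nat_lit 7776, nat_lit 3072, nat_lit 8976, R7_162, R9_64, R2_187⟩]⟩]⟩,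
 ⟨nat_lit 5, [⟨nat_lit 1, [⟨nat_lit 4, nat_lit 1056, nat_lit 5376, nat_lit 7152, nat_lit 3744, nat_lit 6672, R3_149, R5_78, R4_139⟩, ⟨nat_lit 5, nat_lit 6240, nat_lit 5472, nat_lit 7248, nat_lit 3744, nat_lit 6144, R3_151, R11_78, R3_128⟩]⟩, ⟨nat_lit 5, [⟨nat_lit 4, nat_lit 1776, nat_lit 5760, nat_lit 6528, nat_lit 2784, nat_lit 6432, R2_136, R5_58, R7_134⟩, ⟨nat_lit 5, nat_lit 6720, nat_lit 5856, nat_lit 6768, nat_lit 2784, nat_lit 4608, R2_141, R11_58, R2_96⟩, ⟨nat_lit 6, nat_lit 8352, nat_lit 5952, nat_lit 6624, nat_lit 1536, nat_lit 9552, R2_138, R0_32, R2_199⟩]⟩]⟩,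
 ⟨nat_lit 7, [⟨nat_lit 5, [⟨nat_lit 4, nat_lit 1920, nat_lit 7728, nat_lit 10032, nat_lit 2976, nat_lit 6336, R2_209, R9_62, R7_132⟩, ⟨nat_lit 5, nat_lit 6864, nat_lit 7872, nat_lit 10176, nat_lit 1440, nat_lit 4512, R2_212, R0_30, R2_94⟩]⟩]⟩], [⟨nat_lit 4, [⟨nat_lit 1, [⟨nat_lit 5, nat_lit 5616, nat_lit 96, nat_lit 7968, nat_lit 3984, nat_lit 5184, R4_166, R5_83, R3_108⟩]⟩]⟩,
 ⟨nat_lit 5, [⟨nat_lit 1, [⟨nat_lit 5, nat_lit 5712, nat_lit 5760, nat_lit 9984, nat_lit 1632, nat_lit 5328, R3_208, R11_34, R3_111⟩]⟩]⟩]], [[⟨nat_lit 4, [⟨nat_lit 1, [⟨nat_lit 4, nat_lit 144, nat_lit 8688, nat_lit 10800, nat_lit 14112, nat_lit 6096, R4_225, R4_294, R6_127⟩]⟩]⟩], [⟨nat_lit 4, [⟨nat_lit 1, [⟨nat_lit 4, nat_lit 864, nat_lit 5136, nat_lit 11232, nat_lit 14976, nat_lit 6432, R4_234, R4_312, R4_134⟩]⟩, ⟨nat_lit 5, [⟨nat_lit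 4, nat_lit 1440, nat_lit 14784, nat_lit 11568, nat_lit 11808, nat_lit 5952, R7_241, R4_246, R7_124⟩, ⟨nat_lit 6, nat_lit 7920, nat_lit 14928, nat_lit 11664, nat_lit 13632, nat_lit 8880, R7_243, R5_284, R2_185⟩]⟩]⟩,
 ⟨nat_lit 7, [⟨nat_lit 5, [⟨nat_lit 4, nat_lit 1536, nat_lit 15264, nat_lit 11088, nat_lit 3408, nat_lit 6048, R2_231, R3_71, R7_126⟩, ⟨nat_lit 6, nat_lit 8064, nat_lit 15408, nat_lit 11280, nat_lit 4080, nat_lit 9360, R2_235, R0_85, R2_195⟩]⟩]⟩]]], [[], [[], [], [⟨nat_lit 1, [⟨nat_lit 1, [⟨nat_lit 1, nat_lit 13392, nat_lit 12912, nat_lit 2496, nat_lit 15456, nat_lit 5184, R1_52, R1_322, R2_108⟩, ⟨nat_lit 5, nat_lit 5088, nat_lit 12960, nat_lit 2544, nat_lit 18768, nat_lit 5952, R1_53, R10_391, R3_124⟩]⟩]⟩,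
 ⟨nat_lit 5, [⟨nat_lit 1, [⟨nat_lit 5, nat_lit 5136, nat_lit 13008, nat_lit 18912, nat_lit 528, nat_lit 5904, R10_394, R1_11, R3_123⟩]⟩]⟩]], [], [], [], [[⟨nat_lit 5, [⟨nat_lit 1, [⟨nat_lit 4, nat_lit 432, nat_lit 14352, nat_lit 5664, nat_lit 1440, nat_lit 6624, R10_118, R5_30, R6_138⟩, ⟨nat_lit 5, nat_lit 4032, nat_lit 14736, nat_lit 5856, nat_lit 1008, nat_lit 7632, R10_122, R11_21, R13_159⟩]⟩]⟩], [⟨nat_lit 5, [⟨nat_lit 1, [⟨nat_lit 4, nat_lit 1104, nat_lit 3216, nat_lit 6192, nat_lit 3792, nat_lit 6720, R10_129, R5_79, R4_140⟩, ⟨nat_lit 5, nat_lit 6288, nat_lit 3312, nat_lit 6336, nat_lit 3792, nat_lit 6336, R10_132, R11_79, R3_132⟩]⟩, ⟨nat_lit 5, [⟨nat_lit 4, nat_lit 1872, nat_lit 3600, nat_lit 5232, nat_lit 2832, nat_lit 6528, R1_109, R5_59, R7_136⟩, ⟨nat_lit 5, nat_lit 6816, nat_lit 3696, nat_lit 5472,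 nat_lit 2832, nat_lit 4704, R1_114, R11_59, R2_98⟩, ⟨nat_lit 6, nat_lit 8448, nat_lit 3792, nat_lit 5328, nat_lit 6576, nat_lit 9648, R1_111, R0_137, R2_201⟩]⟩]⟩], [⟨nat_lit 5, [⟨nat_lit 1, [⟨nat_lit 5, nat_lit 5760, nat_lit 5376, nat_lit 6576, nat_lit 1728, nat_lit 5424, R10_137, R11_36, R3_113⟩]⟩]⟩]]], [[], [], [], [], [[], [⟨nat_lit 4, [⟨nat_lit 5, [⟨nat_lit 4, nat_lit 1248, nat_lit 4464, nat_lit 18720, nat_lit 10560, nat_lit 5760, R14_390, R6_220, R7_120⟩, ⟨nat_lit 5, nat_lit 6432, nat_lit 5232, nat_lit 19632, nat_lit 11424, nat_lit 4176, R14_409, R4_238, R2_87⟩, ⟨nat_lit 6, nat_lit 7680, nat_lit 6048, nat_lit 19248, nat_lit 11856, nat_lit 8832, R14_401, R8_247, R2_184⟩]⟩]⟩,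
 ⟨nat_lit 6, [⟨nat_lit 5, [⟨nat_lit 6, nat_lit 7728, nat_lit 6960, nat_lit 15648, nat_lit 7440, nat_lit 9072, R12_326, R5_155, R2_189⟩]⟩]⟩,
 ⟨nat_lit 7, [⟨nat_lit 5, [⟨nat_lit 4, nat_lit 1344, nat_lit 4848, nat_lit 480, nat_lit 9600, nat_lit 5856, R12_10, R13_200, R7_122⟩, ⟨nat_lit 5, nat_lit 6528, nat_lit 5424, nat_lit 2592, nat_lit 7536, nat_lit 4272, R12_54, R3_157, R2_89⟩, ⟨nat_lit 6, nat_lit 7824, nat_lit 6576, nat_lit 1632, nat_lit 7440, nat_lit 9264, R12_34, R9_155, R2_193⟩]⟩]⟩]], [[], [⟨nat_lit 4, [⟨nat_lit 5, [⟨nat_lit 4, nat_lit 1728, nat_lit 12720, nat_lit 20208, nat_lit 11664, nat_lit 6288, R14_421, R8_243, R7_131⟩, ⟨nat_lit 5, nat_lit 6672, nat_lit 12768, nat_lit 21504, nat_lit 14160, nat_lit 4464, R14_448, R5_295, R2_93⟩, ⟨nat_lit 6, nat_lit 8256, nat_lit 12816, nat_lit 20928, nat_lit 12816, nat_lit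 9024, R14_436, R9_267, R2_188⟩]⟩]⟩,
 ⟨nat_lit 5, [⟨nat_lit 5, [⟨nat_lit 4, nat_lit 1824, nat_lit 13296, nat_lit 15984, nat_lit 2880, nat_lit 6480, R12_333, R5_60, R7_135⟩, ⟨nat_lit 5, nat_lit 6768, nat_lit 13344, nat_lit 17280, nat_lit 2880, nat_lit 4656, R12_360, R11_60, R2_97⟩, ⟨nat_lit 6, nat_lit 8400, nat_lit 13440, nat_lit 16704, nat_lit 10992, nat_lit 9600, R12_348, R0_229, R2_200⟩]⟩]⟩,
 ⟨nat_lit 6, [⟨nat_lit 5, [⟨nat_lit 6, nat_lit 8304, nat_lit 13776, nat_lit 16320, nat_lit 10608, nat_lit 9168, R12_340, R0_221, R2_191⟩]⟩]⟩,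
 ⟨nat_lit 7, [⟨nat_lit 5, [⟨nat_lit 4, nat_lit 1968, nat_lit 13056, nat_lit 7680, nat_lit 3024, nat_lit 6384, R12_160, R9_63, R7_133⟩, ⟨nat_lit 5, nat_lit 6912, nat_lit 13104, nat_lit 9552, nat_lit 1488, nat_lit 4560, R12_199, R0_31, R2_95⟩]⟩]⟩]], [[], [⟨nat_lit 4, [⟨nat_lit 5, [⟨nat_lit 4, nat_lit 1488, nat_lit 4464, nat_lit 21840, nat_lit 11904, nat_lit 6000, R14_455, R4_248, R7_125⟩, ⟨nat_lit 6, nat_lit 7968, nat_lit 5664, nat_lit 22272, nat_lit 13776, nat_lit 8928, R14_464, R5_287, R2_186⟩]⟩]⟩,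
 ⟨nat_lit 6, [⟨nat_lit 5, [⟨nat_lit 6, nat_lit 8016, nat_lit 6576, nat_lit 16944, nat_lit 7056, nat_lit 9120, R12_353, R11_147, R2_190⟩]⟩]⟩,
 ⟨nat_lit 7, [⟨nat_lit 5, [⟨nat_lit 4, nat_lit 1584, nat_lit 4848, nat_lit 10464, nat_lit 3504, nat_lit 6096, R12_218, R3_73, R7_127⟩, ⟨nat_lit 6, nat_lit 8112, nat_lit 6192, nat_lit 11328, nat_lit 5280, nat_lit 9408, R12_236, R0_110, R2_196⟩]⟩]⟩], [], [], [], [⟨nat_lit 4, [⟨nat_lit 4, [⟨nat_lit 4, nat_lit 3072, nat_lit 2736, nat_lit 528, nat_lit 2256, nat_lit 8928, R7_11, R4_47, R6_186⟩, ⟨nat_lit 6, nat_lit 8880, nat_lit 3024, nat_lit 5472, nat_lit 2640, nat_lit 19248, R7_114, R5_55, R13_401⟩]⟩, ⟨nat_lit 5, [⟨nat_lit 4, nat_lit 3168, nat_lit 2784, nat_lit 21792, nat_lit 11136, nat_lit 9552, R14_454, R4_232, R4_199⟩, ⟨nat_lit 6, nat_lit 9168, nat_lit 3072, nat_lit 22224,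 nat_lit 13872, nat_lit 15504, R14_463, R5_289, R3_323⟩]⟩]⟩,
 ⟨nat_lit 6, [⟨nat_lit 4, [⟨nat_lit 6, nat_lit 8976, nat_lit 3264, nat_lit 3888, nat_lit 9024, nat_lit 19296, R2_81, R11_188, R13_402⟩]⟩, ⟨nat_lit 5, [⟨nat_lit 6, nat_lit 9216, nat_lit 3312, nat_lit 16992, nat_lit 9120, nat_lit 15552, R12_354, R11_190, R3_324⟩]⟩, ⟨nat_lit 6, [⟨nat_lit 2, nat_lit 15840, nat_lit 3408, nat_lit 13680, nat_lit 6000, nat_lit 14112, R1_285, R1_125, R2_294⟩, ⟨nat_lit 6, nat_lit 9120, nat_lit 3360, nat_lit 3360, nat_lit 9072, nat_lit 9120, R1_70, R11_189, R3_190⟩]⟩]⟩,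
 ⟨nat_lit 7, [⟨nat_lit 4, [⟨nat_lit 4, nat_lit 3120, nat_lit 2832, nat_lit 1872, nat_lit 2112, nat_lit 8976, R2_39, R3_44, R6_187⟩, ⟨nat_lit 6, nat_lit 9024, nat_lit 3120, nat_lit 8736, nat_lit 6432, nat_lit 19344, R2_182, R0_134, R13_403⟩]⟩, ⟨nat_lit 5, [⟨nat_lit 4, nat_lit 3216, nat_lit 2880, nat_lit 10416, nat_lit 2832, nat_lit 9600, R12_217, R3_59, R4_200⟩, ⟨nat_lit 6, nat_lit 9264, nat_lit 3168, nat_lit 11232, nat_lit 6528, nat_lit 15600, R12_234, R0_136, R3_325⟩]⟩, ⟨nat_lit 7, [⟨nat_lit 4, nat_lit 3360, nat_lit 2928, nat_lit 1344, nat_lit 2448, nat_lit 5712, R1_28, R3_51, R8_119⟩, ⟨nat_lit 6, nat_lit 9456, nat_lit 3216, nat_lit 9552, nat_lit 6480, nat_lit 15600, R1_199, R0_135, R9_325⟩, ⟨nat_lit 7, nat_lit 10560, nat_lit 2976, nat_lit 6768, nat_lit 8400, nat_lit 16464, R1_141, R10_175, R5_343⟩]⟩]⟩]]],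 [[], [], [], [], [[⟨nat_lit 4, [⟨nat_lit 1, [⟨nat_lit 4, nat_lit 48, nat_lit 4512, nat_lit 1056, nat_lit 5184, nat_lit 6000, R5_22, R6_108, R6_125⟩, ⟨nat_lit 5, nat_lit 3792, nat_lit 6144, nat_lit 3456, nat_lit 5472, nat_lit 7344, R5_72, R4_114, R13_153⟩]⟩]⟩,
 ⟨nat_lit 7, [⟨nat_lit 1, [⟨nat_lit 4, nat_lit 96, nat_lit 5040, nat_lit 3264, nat_lit 5568, nat_lit 6048, R11_68, R13_116, R6_126⟩, ⟨nat_lit 5, nat_lit 3840, nat_lit 6624, nat_lit 3456, nat_lit 3840, nat_lit 7440, R11_72, R3_80, R13_155⟩]⟩]⟩], [⟨nat_lit 4, [⟨nat_lit 1, [⟨nat_lit 4, nat_lit 768, nat_lit 3744, nat_lit 1680, nat_lit 7200, nat_lit 6336, R5_35, R6_150, R4_132⟩, ⟨nat_lit 5, nat_lit 6096, nat_lit 4656, nat_lit 4128, nat_lit 7872, nat_lit 6192, R5_86, R4_164, R3_129⟩]⟩]⟩,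
 ⟨nat_lit 7, [⟨nat_lit 1, [⟨nat_lit 4, nat_lit 816, nat_lit 3984, nat_lit 3600, nat_lit 9168, nat_lit 6384, R11_75, R13_191, R4_133⟩, ⟨nat_lit 5, nat_lit 6144, nat_lit 4896, nat_lit 3744, nat_lit 7248, nat_lit 6240, R11_78, R3_151, R3_130⟩]⟩, ⟨nat_lit 5, [⟨nat_lit 4, nat_lit 1392, nat_lit 4032, nat_lit 1872, nat_lit 9120, nat_lit 5904, R1_39, R13_190, R7_123⟩, ⟨nat_lit 5, nat_lit 6576, nat_lit 4944, nat_lit 2304, nat_lit 7200, nat_lit 4320, R1_48, R3_150, R2_90⟩, ⟨nat_lit 6, nat_lit 7872, nat_lit 6528, nat_lit 2016, nat_lit 6960, nat_lit 9312, R1_42, R9_145, R2_194⟩]⟩]⟩], [⟨nat_lit 4, [⟨nat_lit 1, [⟨nat_lit 5, nat_lit 5520, nat_lit 4416, nat_lit 4224, nat_lit 7200, nat_lit 4944, R5_88, R4_150, R3_103⟩]⟩]⟩,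
 ⟨nat_lit 7, [⟨nat_lit 1, [⟨nat_lit 5, nat_lit 5568, nat_lit 4992, nat_lit 4224, nat_lit 5568, nat_lit 4992, R11_88, R3_116, R3_104⟩]⟩]⟩], [⟨nat_lit 4, [⟨nat_lit 1, [⟨nat_lit 4, nat_lit 2256, nat_lit 384, nat_lit 1344, nat_lit 6528, nat_lit 5472, R5_28, R6_136, R8_114⟩, ⟨nat_lit 5, nat_lit 7152, nat_lit 1056, nat_lit 3744, nat_lit 6672, nat_lit 5376, R5_78, R4_139, R9_112⟩]⟩]⟩,
 ⟨nat_lit 7, [⟨nat_lit 1, [⟨nat_lit 4, nat_lit 2352, nat_lit 3984, nat_lit 3840, nat_lit 7296, nat_lit 5520, R11_80, R13_152, R8_115⟩, ⟨nat_lit 5, nat_lit 7248, nat_lit 6240, nat_lit 4128, nat_lit 6144, nat_lit 5472, R11_86, R3_128, R9_114⟩, ⟨nat_lit 7, nat_lit 9984, nat_lit 5712, nat_lit 3984, nat_lit 5328, nat_lit 5760, R11_83, R3_111, R5_120⟩]⟩]⟩]], [[⟨nat_lit 4, [⟨nat_lit 1, [⟨nat_lit 4, nat_lit 336, nat_lit 13248, nat_lit 9408, nat_lit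 18384, nat_lit 6432, R5_196, R8_383, R6_134⟩, ⟨nat_lit 5, nat_lit 3936, nat_lit 13872, nat_lit 11664, nat_lit 12192, nat_lit 7392, R5_243, R5_254, R13_154⟩]⟩]⟩,
 ⟨nat_lit 5, [⟨nat_lit 1, [⟨nat_lit 4, nat_lit 480, nat_lit 13344, nat_lit 1920, nat_lit 1392, nat_lit 6576, R0_40, R5_29, R6_137⟩, ⟨nat_lit 5, nat_lit 4080, nat_lit 13968, nat_lit 1968, nat_lit 960, nat_lit 7584, R0_41, R11_20, R13_158⟩]⟩]⟩,
 ⟨nat_lit 7, [⟨nat_lit 1, [⟨nat_lit 4, nat_lit 528, nat_lit 13296, nat_lit 3312, nat_lit 1968, nat_lit 6480, R11_69, R9_41, R6_135⟩, ⟨nat_lit 5, nat_lit 4128, nat_lit 13920, nat_lit 3504, nat_lit 288, nat_lit 7536, R11_73, R0_6, R13_157⟩]⟩]⟩], [], [⟨nat_lit 4, [⟨nat_lit 1, [⟨nat_lit 5, nat_lit 5664, nat_lit 12000, nat_lit 12576, nat_lit 12432, nat_lit 5232, R5_262, R5_259, R3_109⟩]⟩]⟩,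
 ⟨nat_lit 5, [⟨nat_lit 1, [⟨nat_lit 5, nat_lit 5808, nat_lit 12096, nat_lit 2112, nat_lit 1680, nat_lit 5376, R0_44, R11_35, R3_112⟩]⟩]⟩,
 ⟨nat_lit 7, [⟨nat_lit 1, [⟨nat_lit 5, nat_lit 5856, nat_lit 12048, nat_lit 4272, nat_lit 528, nat_lit 5280, R11_89, R0_11, R3_110⟩]⟩]⟩], [⟨nat_lit 4, [⟨nat_lit 1, [⟨nat_lit 4, nat_lit 2544, nat_lit 7248, nat_lit 9792, nat_lit 18528, nat_lit 5856, R5_204, R8_386, R8_122⟩, ⟨nat_lit 5, nat_lit 7296, nat_lit 8352, nat_lit 12096, nat_lit 12336, nat_lit 5424, R5_252, R5_257, R9_113⟩]⟩]⟩,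
 ⟨nat_lit 5, [⟨nat_lit 1, [⟨nat_lit 4, nat_lit 2592, nat_lit 7440, nat_lit 2016, nat_lit 2352, nat_lit 5952, R0_42, R5_49, R8_124⟩, ⟨nat_lit 5, nat_lit 7344, nat_lit 8592, nat_lit 2064, nat_lit 2352, nat_lit 5568, R0_43, R11_49, R9_116⟩]⟩]⟩,
 ⟨nat_lit 7, [⟨nat_lit 1, [⟨nat_lit 4, nat_lit 2640, nat_lit 7344, nat_lit 3888, nat_lit 2640, nat_lit 5904, R11_81, R9_55, R8_123⟩, ⟨nat_lit 5, nat_lit 7392, nat_lit 8448, nat_lit 4176, nat_lit 1104, nat_lit 5520, R11_87, R0_23, R9_115⟩, ⟨nat_lit 7, nat_lit 10176, nat_lit 8064, nat_lit 4032, nat_lit 14640, nat_lit 5856, R11_84, R0_305, R5_122⟩]⟩]⟩]], [[⟨nat_lit 4, [⟨nat_lit 1, [⟨nat_lit 4, nat_lit 192, nat_lit 11472, nat_lit 13104, nat_lit 14208, nat_lit 6144, R5_273, R4_296, R6_128⟩]⟩]⟩,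
 ⟨nat_lit 7, [⟨nat_lit 1, [⟨nat_lit 4, nat_lit 240, nat_lit 11520, nat_lit 3408, nat_lit 2976, nat_lit 6192, R11_71, R3_62, R6_129⟩]⟩]⟩], [⟨nat_lit 4, [⟨nat_lit 1, [⟨nat_lit 4, nat_lit 912, nat_lit 2208, nat_lit 13392, nat_lit 15072, nat_lit 6480, R5_279, R4_314, R4_135⟩]⟩]⟩,
 ⟨nat_lit 7, [⟨nat_lit 1, [⟨nat_lit 4, nat_lit 960, nat_lit 2448, nat_lit 3696, nat_lit 3600, nat_lit 6528, R11_77, R3_75, R4_136⟩]⟩, ⟨nat_lit 5, [⟨nat_lit 4, nat_lit 1632, nat_lit 2496, nat_lit 11664, nat_lit 3456, nat_lit 6144, R1_243, R3_72, R7_128⟩, ⟨nat_lit 6, nat_lit 8160, nat_lit 4368, nat_lit 11856, nat_lit 4800, nat_lit 9456, R1_247, R0_100, R2_197⟩]⟩]⟩], [], [⟨nat_lit 4, [⟨nat_lit 1, [⟨nat_lit 4, nat_lit 2400, nat_lit 2880, nat_lit 13248, nat_lit 14688, nat_lit 5616, R5_276, R4_306, R8_117⟩]⟩]⟩,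
 ⟨nat_lit 7, [⟨nat_lit 1, [⟨nat_lit 4, nat_lit 2496, nat_lit 3552, nat_lit 3936, nat_lit 3312, nat_lit 5664, R11_82, R3_69, R8_118⟩, ⟨nat_lit 7, nat_lit 10128, nat_lit 4128, nat_lit 4080, nat_lit 4704, nat_lit 5808, R11_85, R10_98, R5_121⟩]⟩]⟩]], [[⟨nat_lit 7, [⟨nat_lit 1, [⟨nat_lit 4, nat_lit 672, nat_lit 8592, nat_lit 3360, nat_lit 16176, nat_lit 6240, R11_70, R3_337, R6_130⟩, ⟨nat_lit 5, nat_lit 4272, nat_lit 8928, nat_lit 3552, nat_lit 528, nat_lit 7488, R11_74, R10_11, R13_156⟩]⟩]⟩], [⟨nat_lit 7, [⟨nat_lit 1, [⟨nat_lit 4, nat_lit 1152, nat_lit 2928, nat_lit 3648, nat_lit 17520, nat_lit 6576, R11_76, R3_365, R4_137⟩, ⟨nat_lit 5, nat_lit 6336, nat_lit 3312, nat_lit 3792, nat_lit 2592, nat_lit 6288, R11_79, R10_54, R3_131⟩]⟩, ⟨nat_lit 5, [⟨nat_lit 4, nat_lit 2016, nat_lit 2592, nat_lit 7296, nat_lit 10656,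 nat_lit 6192, R1_152, R3_222, R7_129⟩, ⟨nat_lit 5, nat_lit 6960, nat_lit 3120, nat_lit 7680, nat_lit 2304, nat_lit 4368, R1_160, R10_48, R2_91⟩, ⟨nat_lit 6, nat_lit 8496, nat_lit 4464, nat_lit 7392, nat_lit 5040, nat_lit 9504, R1_154, R0_105, R2_198⟩]⟩]⟩], [⟨nat_lit 7, [⟨nat_lit 1, [⟨nat_lit 5, nat_lit 6000, nat_lit 14304, nat_lit 4320, nat_lit 864, nat_lit 5040, R11_90, R10_18, R3_105⟩]⟩]⟩]]]]
noncomputable def N3324 : T3 (List N0) := [[[[], [], [⟨nat_lit 0, [⟨nat_lit 2, [⟨nat_lit 1, nat_lit 5232, nat_lit 3936, nat_lit 3024, nat_lit 3696, nat_lit 5808, R4_63, R4_77, R2_121⟩]⟩]⟩,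
 ⟨nat_lit 3, [⟨nat_lit 2, [⟨nat_lit 1, nat_lit 5520, nat_lit 10272, nat_lit 768, nat_lit 13680, nat_lit 5952, R5_16, R3_285, R2_124⟩]⟩]⟩], [], [], [], [⟨nat_lit 0, [⟨nat_lit 2, [⟨nat_lit 0, nat_lit 3264, nat_lit 3456, nat_lit 2208, nat_lit 1728, nat_lit 17568, R4_46, R6_36, R13_366⟩, ⟨nat_lit 1, nat_lit 4752, nat_lit 3936, nat_lit 2928, nat_lit 1632, nat_lit 13104, R4_61, R4_34, R3_273⟩, ⟨nat_lit 2, nat_lit 4128, nat_lit 4416, nat_lit 2640, nat_lit 672, nat_lit 6384, R4_55, R8_14, R3_133⟩]⟩, ⟨nat_lit 6, [⟨nat_lit 2, nat_lit 12816, nat_lit 4272, nat_lit 2592, nat_lit 1008, nat_lit 12816, R7_54, R8_21, R2_267⟩]⟩]⟩,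
 ⟨nat_lit 2, [⟨nat_lit 6, [⟨nat_lit 2, nat_lit 13152, nat_lit 12720, nat_lit 12816, nat_lit 14880, nat_lit 12864, R14_267, R5_310, R2_268⟩]⟩]⟩,
 ⟨nat_lit 3, [⟨nat_lit 2, [⟨nat_lit 0, nat_lit 3552, nat_lit 9600, nat_lit 2592, nat_lit 16368, nat_lit 17616, R5_54, R13_341, R13_367⟩, ⟨nat_lit 1, nat_lit 4944, nat_lit 10944, nat_lit 3168, nat_lit 12432, nat_lit 13152, R5_66, R3_259, R3_274⟩, ⟨nat_lit 3, nat_lit 6528, nat_lit 10464, nat_lit 2784, nat_lit 1776, nat_lit 14592, R5_58, R3_37, R9_304⟩]⟩]⟩]], [], [[], [], [], [], [], [], [⟨nat_lit 0, [⟨nat_lit 2, [⟨nat_lit 0, nat_lit 3312, nat_lit 12960, nat_lit 11088, nat_lit 9264, nat_lit 17808, R4_231, R4_193, R13_371⟩, ⟨nat_lit 2, nat_lit 4176, nat_lit 13008, nat_lit 11424, nat_lit 5232, nat_lit 6432, R4_238, R5_109, R3_134⟩]⟩, ⟨nat_lit 6, [⟨nat_lit 2, nat_lit 12864,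 nat_lit 12384, nat_lit 11904, nat_lit 14880, nat_lit 13152, R7_248, R5_310, R2_274⟩]⟩]⟩,
 ⟨nat_lit 2, [⟨nat_lit 6, [⟨nat_lit 2, nat_lit 13200, nat_lit 14448, nat_lit 15072, nat_lit 19200, nat_lit 13200, R14_314, R11_400, R2_275⟩]⟩]⟩,
 ⟨nat_lit 3, [⟨nat_lit 2, [⟨nat_lit 0, nat_lit 3600, nat_lit 13296, nat_lit 13824, nat_lit 12048, nat_lit 17856, R5_288, R3_251, R13_372⟩, ⟨nat_lit 3, nat_lit 6576, nat_lit 13344, nat_lit 14016, nat_lit 15792, nat_lit 14784, R5_292, R10_329, R9_308⟩]⟩]⟩]], [[], [], [⟨nat_lit 3, [⟨nat_lit 2, [⟨nat_lit 1, nat_lit 5568, nat_lit 7008, nat_lit 7728, nat_lit 13584, nat_lit 6000, R5_161, R10_283, R2_125⟩]⟩]⟩]]], [[[], [], [⟨nat_lit 0, [⟨nat_lit 2, [⟨nat_lit 1, nat_lit 5280, nat_lit 13824, nat_lit 9648, nat_lit 10032, nat_lit 5856, R3_201, R4_209, R2_122⟩]⟩]⟩,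
 ⟨nat_lit 3, [⟨nat_lit 2, [⟨nat_lit 1, nat_lit 5616, nat_lit 14544, nat_lit 1680, nat_lit 14448, nat_lit 6096, R0_35, R3_301, R2_127⟩]⟩]⟩], [], [], [], [⟨nat_lit 0, [⟨nat_lit 2, [⟨nat_lit 0, nat_lit 3360, nat_lit 1776, nat_lit 2064, nat_lit 7872, nat_lit 17712, R3_43, R6_164, R13_369⟩, ⟨nat_lit 1, nat_lit 4800, nat_lit 2304, nat_lit 9696, nat_lit 8352, nat_lit 13248, R3_202, R4_174, R3_276⟩, ⟨nat_lit 2, nat_lit 4224, nat_lit 2832, nat_lit 7008, nat_lit 6048, nat_lit 6480, R3_146, R8_126, R3_135⟩]⟩, ⟨nat_lit 6, [⟨nat_lit 2, nat_lit 12912, nat_lit 2688, nat_lit 720, nat_lit 6144, nat_lit 13056, R2_15, R8_128, R2_272⟩]⟩]⟩,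
 ⟨nat_lit 2, [⟨nat_lit 6, [⟨nat_lit 2, nat_lit 13296, nat_lit 11424, nat_lit 10080, nat_lit 15360, nat_lit 13104, R12_210, R5_320, R2_273⟩]⟩]⟩,
 ⟨nat_lit 3, [⟨nat_lit 2, [⟨nat_lit 0, nat_lit 3648, nat_lit 8640, nat_lit 1296, nat_lit 17040, nat_lit 17760, R0_27, R13_355, R13_370⟩, ⟨nat_lit 1, nat_lit 4992, nat_lit 9936, nat_lit 1824, nat_lit 12864, nat_lit 13296, R0_38, R3_268, R3_277⟩, ⟨nat_lit 3, nat_lit 6624, nat_lit 9552, nat_lit 1536, nat_lit 8352, nat_lit 14736, R0_32, R3_174, R9_307⟩]⟩]⟩]], [[], [], [⟨nat_lit 0, [⟨nat_lit 2, [⟨nat_lit 1, nat_lit 5328, nat_lit 1920, nat_lit 9888, nat_lit 5520, nat_lit 5904, R3_206, R5_115, R2_123⟩]⟩]⟩,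
 ⟨nat_lit 1, [⟨nat_lit 2, [⟨nat_lit 1, nat_lit 5376, nat_lit 8112, nat_lit 6816, nat_lit 17616, nat_lit 6336, R10_142, R11_367, R2_132⟩]⟩]⟩,
 ⟨nat_lit 3, [⟨nat_lit 2, [⟨nat_lit 1, nat_lit 5664, nat_lit 11664, nat_lit 1728, nat_lit 11424, nat_lit 6192, R0_36, R0_238, R2_129⟩]⟩]⟩], [], [], [], [⟨nat_lit 0, [⟨nat_lit 2, [⟨nat_lit 0, nat_lit 3456, nat_lit 1248, nat_lit 2304, nat_lit 5568, nat_lit 18144, R3_48, R8_116, R13_378⟩, ⟨nat_lit 1, nat_lit 4848, nat_lit 1776, nat_lit 9936, nat_lit 5664, nat_lit 13440, R3_207, R5_118, R3_280⟩, ⟨nat_lit 2, nat_lit 4320, nat_lit 2304, nat_lit 7200, nat_lit 5280, nat_lit 6576, R3_150, R9_110, R3_137⟩]⟩, ⟨nat_lit 6, [⟨nat_lit 2, nat_lit 13008, nat_lit 2160, nat_lit 6864, nat_lit 5616, nat_lit 13584, R2_143, R9_117, R2_283⟩]⟩]⟩,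
 ⟨nat_lit 1, [⟨nat_lit 2, [⟨nat_lit 0, nat_lit 3504, nat_lit 6672, nat_lit 6000, nat_lit 14592, nat_lit 18240, R10_125, R5_304, R13_380⟩, ⟨nat_lit 1, nat_lit 4896, nat_lit 7200, nat_lit 6720, nat_lit 18096, nat_lit 13536, R10_140, R11_377, R3_282⟩, ⟨nat_lit 2, nat_lit 4368, nat_lit 7680, nat_lit 6432, nat_lit 3120, nat_lit 6960, R10_134, R0_65, R3_145⟩]⟩, ⟨nat_lit 6, [⟨nat_lit 2, nat_lit 13536, nat_lit 7536, nat_lit 5568, nat_lit 3456, nat_lit 13680, R1_116, R0_72, R2_285⟩]⟩]⟩,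
 ⟨nat_lit 2, [⟨nat_lit 6, [⟨nat_lit 2, nat_lit 13392, nat_lit 12000, nat_lit 10752, nat_lit 13392, nat_lit 13632, R12_224, R0_279, R2_284⟩]⟩]⟩,
 ⟨nat_lit 3, [⟨nat_lit 2, [⟨nat_lit 0, nat_lit 3744, nat_lit 9456, nat_lit 1344, nat_lit 13680, nat_lit 18192, R0_28, R9_285, R13_379⟩, ⟨nat_lit 1, nat_lit 5040, nat_lit 10752, nat_lit 1872, nat_lit 11808, nat_lit 13488, R0_39, R0_246, R3_281⟩, ⟨nat_lit 3, nat_lit 6720, nat_lit 10368, nat_lit 1584, nat_lit 8640, nat_lit 15024, R0_33, R0_180, R9_313⟩]⟩]⟩]], [[], [], [], [], [], [], [⟨nat_lit 0, [⟨nat_lit 2, [⟨nat_lit 0, nat_lit 3408, nat_lit 10224, nat_lit 2784, nat_lit 9408, nat_lit 17952, R3_58, R4_196, R13_374⟩, ⟨nat_lit 2, nat_lit 4272, nat_lit 10272, nat_lit 7536, nat_lit 5424, nat_lit 6528, R3_157, R5_113, R3_136⟩]⟩, ⟨nat_lit 6, [⟨nat_lit 2, nat_lit 12960, nat_lit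 9648, nat_lit 10368, nat_lit 15840, nat_lit 13440, R2_216, R5_330, R2_280⟩]⟩]⟩,
 ⟨nat_lit 2, [⟨nat_lit 6, [⟨nat_lit 2, nat_lit 13344, nat_lit 11520, nat_lit 12144, nat_lit 19680, nat_lit 13488, R12_253, R11_410, R2_281⟩]⟩]⟩,
 ⟨nat_lit 3, [⟨nat_lit 2, [⟨nat_lit 0, nat_lit 3696, nat_lit 10944, nat_lit 1392, nat_lit 12144, nat_lit 18000, R0_29, R3_253, R13_375⟩, ⟨nat_lit 3, nat_lit 6672, nat_lit 10992, nat_lit 1632, nat_lit 16656, nat_lit 14928, R0_34, R10_347, R9_311⟩]⟩]⟩]], [[], [], [⟨nat_lit 3, [⟨nat_lit 2, [⟨nat_lit 1, nat_lit 5712, nat_lit 11472, nat_lit 1776, nat_lit 13680, nat_lit 6144, R0_37, R10_285, R2_128⟩]⟩]⟩]]], [[], [], [[], [], [], [], [], [], [⟨nat_lit 2, [⟨nat_lit 6, [⟨nat_lit 2, nat_lit 13248, nat_lit 11472, nat_lit 11904, nat_lit 20352, nat_lit 13248, R12_248, R11_424, R2_276⟩]⟩]⟩]]], [[], [],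 [[], [], [], [], [⟨nat_lit 0, [⟨nat_lit 6, [⟨nat_lit 2, nat_lit 12528, nat_lit 11568, nat_lit 10992, nat_lit 15312, nat_lit 15312, R2_229, R5_319, R7_319⟩]⟩]⟩,
 ⟨nat_lit 2, [⟨nat_lit 4, [⟨nat_lit 6, nat_lit 12096, nat_lit 672, nat_lit 1728, nat_lit 13296, nat_lit 14352, R2_36, R1_277, R6_299⟩]⟩, ⟨nat_lit 6, [⟨nat_lit 2, nat_lit 12672, nat_lit 11664, nat_lit 9984, nat_lit 18624, nat_lit 15360, R12_208, R11_388, R7_320⟩, ⟨nat_lit 6, nat_lit 13824, nat_lit 10320, nat_lit 9744, nat_lit 13344, nat_lit 14016, R12_203, R1_278, R4_292⟩]⟩, ⟨nat_lit 7, [⟨nat_lit 6, nat_lit 14928, nat_lit 6480, nat_lit 1200, nat_lit 13392, nat_lit 15072, R1_25, R1_279, R8_314⟩]⟩]⟩,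
 ⟨nat_lit 3, [⟨nat_lit 2, [⟨nat_lit 0, nat_lit 3216, nat_lit 14592, nat_lit 15744, nat_lit 11184, nat_lit 12672, R11_328, R3_233, R6_264⟩, ⟨nat_lit 2, nat_lit 4080, nat_lit 15648, nat_lit 15984, nat_lit 12384, nat_lit 13008, R11_333, R0_258, R4_271⟩, ⟨nat_lit 3, nat_lit 6432, nat_lit 15168, nat_lit 15888, nat_lit 15024, nat_lit 15024, R11_331, R10_313, R8_313⟩]⟩, ⟨nat_lit 6, [⟨nat_lit 2, nat_lit 12720, nat_lit 11616, nat_lit 11568, nat_lit 12432, nat_lit 15408, R1_241, R0_259, R7_321⟩]⟩]⟩,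
 ⟨nat_lit 4, [⟨nat_lit 3, [⟨nat_lit 7, nat_lit 11568, nat_lit 12528, nat_lit 10992, nat_lit 15312, nat_lit 15312, R2_229, R5_319, R7_319⟩]⟩]⟩,
 ⟨nat_lit 6, [⟨nat_lit 3, [⟨nat_lit 7, nat_lit 11616, nat_lit 12720, nat_lit 11568, nat_lit 12432, nat_lit 15408, R1_241, R0_259, R7_321⟩]⟩, ⟨nat_lit 7, [⟨nat_lit 4, nat_lit 14592, nat_lit 3216, nat_lit 15744, nat_lit 11184, nat_lit 12672, R11_328, R3_233, R6_264⟩, ⟨nat_lit 6, nat_lit 15168, nat_lit 6432, nat_lit 15888, nat_lit 15024, nat_lit 15024, R11_331, R10_313, R8_313⟩, ⟨nat_lit 7, nat_lit 15648, nat_lit 4080, nat_lit 15984, nat_lit 12384, nat_lit 13008, R11_333, R0_258, R4_271⟩]⟩]⟩,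
 ⟨nat_lit 7, [⟨nat_lit 0, [⟨nat_lit 3, nat_lit 672, nat_lit 12096, nat_lit 1728, nat_lit 13296, nat_lit 14352, R2_36, R1_277, R6_299⟩]⟩, ⟨nat_lit 2, [⟨nat_lit 3, nat_lit 6480, nat_lit 14928, nat_lit 1200, nat_lit 13392, nat_lit 15072, R1_25, R1_279, R8_314⟩]⟩, ⟨nat_lit 3, [⟨nat_lit 3, nat_lit 10320, nat_lit 13824, nat_lit 9744, nat_lit 13344, nat_lit 14016, R12_203, R1_278, R4_292⟩, ⟨nat_lit 7, nat_lit 11664, nat_lit 12672, nat_lit 9984, nat_lit 18624, nat_lit 15360, R12_208, R11_388, R7_320⟩]⟩]⟩], [], [⟨nat_lit 0, [⟨nat_lit 6, [⟨nat_lit 2, nat_lit 13104, nat_lit 2016, nat_lit 11424, nat_lit 15360, nat_lit 13296, R2_238, R5_320, R2_277⟩]⟩]⟩,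
 ⟨nat_lit 2, [⟨nat_lit 6, [⟨nat_lit 2, nat_lit 13488, nat_lit 11712, nat_lit 12000, nat_lit 20160, nat_lit 13344, R12_250, R11_420, R2_278⟩]⟩]⟩,
 ⟨nat_lit 3, [⟨nat_lit 2, [⟨nat_lit 0, nat_lit 3840, nat_lit 5376, nat_lit 16896, nat_lit 12096, nat_lit 17904, R11_352, R3_252, R13_373⟩, ⟨nat_lit 2, nat_lit 4656, nat_lit 5808, nat_lit 17232, nat_lit 13344, nat_lit 6768, R11_359, R0_278, R3_141⟩, ⟨nat_lit 3, nat_lit 6816, nat_lit 5568, nat_lit 17088, nat_lit 17520, nat_lit 14832, R11_356, R10_365, R9_309⟩]⟩, ⟨nat_lit 6, [⟨nat_lit 2, nat_lit 13632, nat_lit 6528, nat_lit 12000, nat_lit 13392, nat_lit 13392, R1_250, R0_279, R2_279⟩]⟩]⟩,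
 ⟨nat_lit 7, [⟨nat_lit 0, [⟨nat_lit 3, nat_lit 768, nat_lit 13824, nat_lit 2784, nat_lit 14256, nat_lit 7008, R2_58, R1_297, R8_146⟩]⟩, ⟨nat_lit 2, [⟨nat_lit 3, nat_lit 6912, nat_lit 14736, nat_lit 2256, nat_lit 14352, nat_lit 14880, R1_47, R1_299, R9_310⟩]⟩, ⟨nat_lit 3, [⟨nat_lit 3, nat_lit 10416, nat_lit 14496, nat_lit 9792, nat_lit 14304, nat_lit 15888, R12_204, R1_298, R5_331⟩]⟩]⟩], [⟨nat_lit 2, [⟨nat_lit 7, [⟨nat_lit 6, nat_lit 15312, nat_lit 5184, nat_lit 6624, nat_lit 13536, nat_lit 16560, R1_138, R1_282, R5_345⟩]⟩]⟩,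
 ⟨nat_lit 3, [⟨nat_lit 2, [⟨nat_lit 3, nat_lit 7008, nat_lit 16176, nat_lit 16464, nat_lit 18528, nat_lit 5952, R11_343, R10_386, R5_124⟩]⟩]⟩,
 ⟨nat_lit 4, [⟨nat_lit 3, [⟨nat_lit 4, nat_lit 10512, nat_lit 13104, nat_lit 10752, nat_lit 13680, nat_lit 14208, R2_224, R4_285, R7_296⟩, ⟨nat_lit 7, nat_lit 11712, nat_lit 13872, nat_lit 11040, nat_lit 15504, nat_lit 18288, R2_230, R5_323, R14_381⟩]⟩]⟩,
 ⟨nat_lit 6, [⟨nat_lit 3, [⟨nat_lit 4, nat_lit 10608, nat_lit 13152, nat_lit 11136, nat_lit 15360, nat_lit 14448, R1_232, R3_320, R7_301⟩, ⟨nat_lit 7, nat_lit 11760, nat_lit 14064, nat_lit 11616, nat_lit 12528, nat_lit 18336, R1_242, R0_261, R14_382⟩]⟩, ⟨nat_lit 7, [⟨nat_lit 4, nat_lit 14832, nat_lit 2688, nat_lit 15792, nat_lit 15216, nat_lit 13200, R11_329, R3_317, R4_275⟩, ⟨nat_lit 6, nat_lit 15456, nat_lit 5136,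 nat_lit 15936, nat_lit 15168, nat_lit 16608, R11_332, R10_316, R5_346⟩]⟩]⟩,
 ⟨nat_lit 7, [⟨nat_lit 0, [⟨nat_lit 3, nat_lit 864, nat_lit 12672, nat_lit 2256, nat_lit 15264, nat_lit 8112, R2_47, R1_318, R4_169⟩, ⟨nat_lit 7, nat_lit 2928, nat_lit 12432, nat_lit 576, nat_lit 18672, nat_lit 8112, R2_12, R11_389, R7_169⟩]⟩, ⟨nat_lit 2, [⟨nat_lit 3, nat_lit 7056, nat_lit 15936, nat_lit 1728, nat_lit 15312, nat_lit 5904, R1_36, R1_319, R5_123⟩]⟩, ⟨nat_lit 3, [⟨nat_lit 7, nat_lit 11808, nat_lit 14016, nat_lit 10032, nat_lit 18720, nat_lit 18384, R12_209, R11_390, R14_383⟩]⟩]⟩]], [[], [], [⟨nat_lit 3, [⟨nat_lit 2, [⟨nat_lit 1, nat_lit 5760, nat_lit 6624, nat_lit 7344, nat_lit 13632, nat_lit 6048, R11_153, R10_284, R2_126⟩]⟩]⟩,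
 ⟨nat_lit 7, [⟨nat_lit 0, [⟨nat_lit 1, nat_lit 528, nat_lit 18960, nat_lit 2976, nat_lit 12384, nat_lit 8064, R2_62, R1_258, R7_168⟩]⟩, ⟨nat_lit 2, [⟨nat_lit 1, nat_lit 6240, nat_lit 21072, nat_lit 2448, nat_lit 12480, nat_lit 5472, R1_51, R1_260, R2_114⟩]⟩]⟩], [], [], [], [⟨nat_lit 3, [⟨nat_lit 2, [⟨nat_lit 0, nat_lit 3888, nat_lit 3264, nat_lit 9024, nat_lit 8976, nat_lit 18048, R11_188, R3_187, R13_376⟩, ⟨nat_lit 1, nat_lit 5136, nat_lit 3792, nat_lit 9408, nat_lit 14160, nat_lit 13344, R11_196, R10_295, R3_278⟩, ⟨nat_lit 2, nat_lit 4704, nat_lit 5472, nat_lit 9264, nat_lit 3696, nat_lit 6816, R11_193, R0_77, R3_142⟩]⟩, ⟨nat_lit 6, [⟨nat_lit 2, nat_lit 13680, nat_lit 5568, nat_lit 7536, nat_lit 3456, nat_lit 13536, R1_157, R0_72, R2_282⟩]⟩]⟩,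
 ⟨nat_lit 7, [⟨nat_lit 0, [⟨nat_lit 0, nat_lit 0, nat_lit 13440, nat_lit 1008, nat_lit 12048, nat_lit 6768, R2_21, R2_251, R6_141⟩, ⟨nat_lit 1, nat_lit 48, nat_lit 15360, nat_lit 3024, nat_lit 12624, nat_lit 7344, R2_63, R1_263, R4_153⟩, ⟨nat_lit 3, nat_lit 816, nat_lit 14400, nat_lit 2736, nat_lit 13680, nat_lit 6960, R2_57, R12_285, R8_145⟩]⟩, ⟨nat_lit 2, [⟨nat_lit 0, nat_lit 3936, nat_lit 13584, nat_lit 336, nat_lit 12336, nat_lit 18096, R1_7, R2_257, R13_377⟩, ⟨nat_lit 1, nat_lit 5184, nat_lit 15456, nat_lit 2496, nat_lit 12912, nat_lit 13392, R1_52, R1_269, R3_279⟩, ⟨nat_lit 3, nat_lit 6960, nat_lit 14928, nat_lit 2208, nat_lit 13728, nat_lit 14976, R1_46, R12_286, R9_312⟩]⟩, ⟨nat_lit 3, [⟨nat_lit 3, nat_lit 10464, nat_lit 14784, nat_lit 9696, nat_lit 13776, nat_lit 15936, R12_202, R12_287, R5_332⟩]⟩]⟩]],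 [[], [], [], [⟨nat_lit 4, [⟨nat_lit 3, [⟨nat_lit 5, nat_lit 10992, nat_lit 12528, nat_lit 11568, nat_lit 15312, nat_lit 15312, R2_241, R7_319, R5_319⟩]⟩]⟩,
 ⟨nat_lit 7, [⟨nat_lit 0, [⟨nat_lit 5, nat_lit 2688, nat_lit 13056, nat_lit 720, nat_lit 12912, nat_lit 6912, R2_15, R2_269, R8_144⟩]⟩, ⟨nat_lit 3, [⟨nat_lit 5, nat_lit 11424, nat_lit 13104, nat_lit 10080, nat_lit 13296, nat_lit 15360, R12_210, R2_277, R5_320⟩]⟩]⟩]], [], [[], [], [], [⟨nat_lit 4, [⟨nat_lit 3, [⟨nat_lit 4, nat_lit 10752, nat_lit 13104, nat_lit 10512, nat_lit 14832, nat_lit 13680, R2_219, R7_309, R4_285⟩, ⟨nat_lit 5, nat_lit 11040, nat_lit 13872, nat_lit 11712, nat_lit 7920, nat_lit 15504, R2_244, R14_165, R5_323⟩]⟩]⟩,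
 ⟨nat_lit 6, [⟨nat_lit 3, [⟨nat_lit 4, nat_lit 10848, nat_lit 13728, nat_lit 10896, nat_lit 14016, nat_lit 13872, R1_227, R2_292, R4_289⟩, ⟨nat_lit 5, nat_lit 11184, nat_lit 15072, nat_lit 12144, nat_lit 3840, nat_lit 15600, R1_253, R12_80, R5_325⟩]⟩]⟩,
 ⟨nat_lit 7, [⟨nat_lit 0, [⟨nat_lit 4, nat_lit 1008, nat_lit 13440, nat_lit 0, nat_lit 12048, nat_lit 6768, R2_0, R2_251, R6_141⟩, ⟨nat_lit 5, nat_lit 2736, nat_lit 14400, nat_lit 816, nat_lit 13680, nat_lit 6960, R2_17, R12_285, R8_145⟩, ⟨nat_lit 7, nat_lit 3024, nat_lit 15360, nat_lit 48, nat_lit 12624, nat_lit 7344, R2_1, R1_263, R4_153⟩]⟩, ⟨nat_lit 3, [⟨nat_lit 4, nat_lit 10944, nat_lit 13488, nat_lit 9888, nat_lit 13776, nat_lit 13968, R12_206, R2_287, R4_291⟩, ⟨nat_lit 5, nat_lit 11472, nat_lit 14448, nat_lit 10176, nat_lit 14304, nat_lit 15648, R12_212,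 R12_298, R5_326⟩]⟩]⟩], [], [], [], [⟨nat_lit 4, [⟨nat_lit 3, [⟨nat_lit 4, nat_lit 10560, nat_lit 18768, nat_lit 10560, nat_lit 14928, nat_lit 13776, R2_220, R7_311, R7_287⟩]⟩]⟩,
 ⟨nat_lit 6, [⟨nat_lit 3, [⟨nat_lit 4, nat_lit 10656, nat_lit 18912, nat_lit 10944, nat_lit 14064, nat_lit 13824, R1_228, R2_293, R7_288⟩]⟩, ⟨nat_lit 7, [⟨nat_lit 4, nat_lit 14880, nat_lit 18864, nat_lit 15696, nat_lit 7872, nat_lit 12768, R11_327, R2_164, R4_266⟩, ⟨nat_lit 6, nat_lit 15504, nat_lit 19056, nat_lit 15840, nat_lit 8400, nat_lit 16752, R11_330, R1_175, R5_349⟩]⟩]⟩,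
 ⟨nat_lit 7, [⟨nat_lit 0, [⟨nat_lit 7, nat_lit 2976, nat_lit 18960, nat_lit 528, nat_lit 12384, nat_lit 8064, R2_11, R1_258, R7_168⟩]⟩, ⟨nat_lit 3, [⟨nat_lit 4, nat_lit 10704, nat_lit 18816, nat_lit 9840, nat_lit 12624, nat_lit 13968, R12_205, R2_263, R7_291⟩, ⟨nat_lit 7, nat_lit 11856, nat_lit 19008, nat_lit 9936, nat_lit 13968, nat_lit 18240, R12_207, R1_291, R14_380⟩]⟩]⟩]], [[⟨nat_lit 7, [⟨nat_lit 0, [⟨nat_lit 5, nat_lit 1728, nat_lit 12096, nat_lit 672, nat_lit 13296, nat_lit 7392, R2_14, R1_277, R6_154⟩]⟩]⟩], [], [⟨nat_lit 7, [⟨nat_lit 0, [⟨nat_lit 1, nat_lit 576, nat_lit 12432, nat_lit 2928, nat_lit 17568, nat_lit 8112, R2_61, R11_366, R7_169⟩, ⟨nat_lit 5, nat_lit 2256, nat_lit 12672, nat_lit 864, nat_lit 15264, nat_lit 8112, R2_18, R1_318, R4_169⟩]⟩, ⟨nat_lit 2, [⟨nat_lit 1, nat_lit 6288, nat_lit 12528,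 nat_lit 2400, nat_lit 17664, nat_lit 5424, R1_50, R11_368, R2_113⟩]⟩]⟩], [⟨nat_lit 7, [⟨nat_lit 0, [⟨nat_lit 5, nat_lit 2784, nat_lit 13824, nat_lit 768, nat_lit 14256, nat_lit 7008, R2_16, R1_297, R8_146⟩]⟩, ⟨nat_lit 3, [⟨nat_lit 5, nat_lit 11520, nat_lit 13872, nat_lit 10128, nat_lit 14640, nat_lit 15744, R12_211, R1_305, R5_328⟩]⟩]⟩]]], [[], [], [], [], [[⟨nat_lit 4, [⟨nat_lit 0, [⟨nat_lit 5, nat_lit 1104, nat_lit 1488, nat_lit 3936, nat_lit 3072, nat_lit 7440, R6_82, R7_64, R6_155⟩]⟩, ⟨nat_lit 1, [⟨nat_lit 5, nat_lit 8160, nat_lit 1872, nat_lit 1728, nat_lit 3264, nat_lit 9792, R8_36, R7_68, R13_204⟩]⟩]⟩,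
 ⟨nat_lit 5, [⟨nat_lit 0, [⟨nat_lit 5, nat_lit 1392, nat_lit 7584, nat_lit 1632, nat_lit 1392, nat_lit 7584, R8_34, R2_29, R6_158⟩]⟩, ⟨nat_lit 1, [⟨nat_lit 5, nat_lit 8448, nat_lit 8016, nat_lit 912, nat_lit 1584, nat_lit 9936, R9_19, R2_33, R13_207⟩]⟩]⟩], [⟨nat_lit 4, [⟨nat_lit 1, [⟨nat_lit 5, nat_lit 8784, nat_lit 2016, nat_lit 2592, nat_lit 4128, nat_lit 7632, R8_54, R7_86, R3_159⟩]⟩]⟩,
 ⟨nat_lit 5, [⟨nat_lit 1, [⟨nat_lit 5, nat_lit 9216, nat_lit 6528, nat_lit 1344, nat_lit 2544, nat_lit 7776, R9_28, R2_53, R3_162⟩]⟩]⟩], [⟨nat_lit 4, [⟨nat_lit 0, [⟨nat_lit 1, nat_lit 96, nat_lit 3504, nat_lit 3312, nat_lit 3600, nat_lit 8160, R6_69, R4_75, R7_170⟩, ⟨nat_lit 5, nat_lit 1920, nat_lit 1488, nat_lit 4176, nat_lit 3648, nat_lit 8160, R6_87, R7_76, R4_170⟩]⟩, ⟨nat_lit 1, [⟨nat_lit 1, nat_lit 7104, nat_lit 3840,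 nat_lit 3024, nat_lit 3840, nat_lit 7104, R8_63, R4_80, R2_148⟩, ⟨nat_lit 5, nat_lit 9696, nat_lit 1728, nat_lit 2928, nat_lit 3792, nat_lit 12768, R8_61, R7_79, R3_266⟩]⟩, ⟨nat_lit 2, [⟨nat_lit 1, nat_lit 5808, nat_lit 3936, nat_lit 3024, nat_lit 3696, nat_lit 5232, R4_63, R4_77, R2_109⟩]⟩]⟩,
 ⟨nat_lit 5, [⟨nat_lit 0, [⟨nat_lit 1, nat_lit 240, nat_lit 9792, nat_lit 9456, nat_lit 13632, nat_lit 8208, R8_197, R3_284, R7_171⟩, ⟨nat_lit 5, nat_lit 2016, nat_lit 8208, nat_lit 9504, nat_lit 2016, nat_lit 8208, R8_198, R2_42, R4_171⟩]⟩, ⟨nat_lit 1, [⟨nat_lit 1, nat_lit 7248, nat_lit 10176, nat_lit 1728, nat_lit 13776, nat_lit 7152, R9_36, R3_287, R2_149⟩, ⟨nat_lit 5, nat_lit 9792, nat_lit 8448, nat_lit 1632, nat_lit 2160, nat_lit 12912, R9_34, R2_45, R3_269⟩]⟩, ⟨nat_lit 2, [⟨nat_lit 1, nat_lit 5952, nat_lit 10272,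 nat_lit 768, nat_lit 13680, nat_lit 5520, R5_16, R3_285, R2_115⟩]⟩]⟩]], [[⟨nat_lit 5, [⟨nat_lit 0, [⟨nat_lit 5, nat_lit 1488, nat_lit 1920, nat_lit 2352, nat_lit 864, nat_lit 7680, R8_49, R1_18, R6_160⟩]⟩, ⟨nat_lit 1, [⟨nat_lit 5, nat_lit 8544, nat_lit 6432, nat_lit 6336, nat_lit 1056, nat_lit 10032, R9_132, R1_22, R13_209⟩]⟩]⟩], [⟨nat_lit 5, [⟨nat_lit 1, [⟨nat_lit 5, nat_lit 9312, nat_lit 6624, nat_lit 7200, nat_lit 2016, nat_lit 7872, R9_150, R1_42, R3_164⟩]⟩]⟩], [⟨nat_lit 5, [⟨nat_lit 0, [⟨nat_lit 1, nat_lit 288, nat_lit 6096, nat_lit 9984, nat_lit 1584, nat_lit 8256, R8_208, R10_33, R7_172⟩, ⟨nat_lit 5, nat_lit 2064, nat_lit 6192, nat_lit 10032, nat_lit 1488, nat_lit 8256, R8_209, R1_31, R4_172⟩]⟩, ⟨nat_lit 1, [⟨nat_lit 1, nat_lit 7296, nat_lit 6624, nat_lit 7632, nat_lit 1824, nat_lit 7200, R9_159, R10_38,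 R2_150⟩, ⟨nat_lit 5, nat_lit 9840, nat_lit 6720, nat_lit 7536, nat_lit 1632, nat_lit 13008, R9_157, R1_34, R3_271⟩]⟩, ⟨nat_lit 2, [⟨nat_lit 1, nat_lit 6000, nat_lit 7008, nat_lit 7728, nat_lit 1680, nat_lit 5568, R5_161, R10_35, R2_116⟩]⟩]⟩]], [[⟨nat_lit 4, [⟨nat_lit 0, [⟨nat_lit 5, nat_lit 1152, nat_lit 3312, nat_lit 11424, nat_lit 8112, nat_lit 7488, R6_238, R14_169, R6_156⟩]⟩, ⟨nat_lit 1, [⟨nat_lit 4, nat_lit 7440, nat_lit 8784, nat_lit 9600, nat_lit 15744, nat_lit 12336, R8_200, R7_328, R6_257⟩, ⟨nat_lit 5, nat_lit 8208, nat_lit 9312, nat_lit 9696, nat_lit 8592, nat_lit 9840, R8_202, R14_179, R13_205⟩]⟩]⟩,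
 ⟨nat_lit 5, [⟨nat_lit 0, [⟨nat_lit 5, nat_lit 1440, nat_lit 3408, nat_lit 2832, nat_lit 6720, nat_lit 7632, R8_59, R12_140, R6_159⟩]⟩, ⟨nat_lit 1, [⟨nat_lit 5, nat_lit 8496, nat_lit 9456, nat_lit 10320, nat_lit 7200, nat_lit 9984, R9_215, R12_150, R13_208⟩]⟩]⟩,
 ⟨nat_lit 6, [⟨nat_lit 0, [⟨nat_lit 5, nat_lit 1296, nat_lit 3456, nat_lit 2352, nat_lit 2784, nat_lit 7536, R4_49, R12_58, R6_157⟩]⟩, ⟨nat_lit 1, [⟨nat_lit 4, nat_lit 7536, nat_lit 8832, nat_lit 432, nat_lit 14448, nat_lit 12432, R5_9, R2_301, R6_259⟩, ⟨nat_lit 5, nat_lit 8352, nat_lit 9504, nat_lit 480, nat_lit 4128, nat_lit 9888, R5_10, R12_86, R13_206⟩]⟩]⟩], [⟨nat_lit 4, [⟨nat_lit 1, [⟨nat_lit 4, nat_lit 7680, nat_lit 6000, nat_lit 10176, nat_lit 16464, nat_lit 12576, R8_212, R7_343, R4_262⟩, ⟨nat_lit 5, nat_lit 8832, nat_lit 6048, nat_lit 10272,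 nat_lit 8640, nat_lit 7680, R8_214, R14_180, R3_160⟩]⟩]⟩,
 ⟨nat_lit 5, [⟨nat_lit 1, [⟨nat_lit 5, nat_lit 9264, nat_lit 6576, nat_lit 10656, nat_lit 7248, nat_lit 7824, R9_222, R12_151, R3_163⟩]⟩]⟩,
 ⟨nat_lit 6, [⟨nat_lit 1, [⟨nat_lit 4, nat_lit 7824, nat_lit 6912, nat_lit 7392, nat_lit 14736, nat_lit 12720, R5_154, R2_307, R4_265⟩, ⟨nat_lit 5, nat_lit 9072, nat_lit 6960, nat_lit 7440, nat_lit 4176, nat_lit 7728, R5_155, R12_87, R3_161⟩]⟩]⟩]]], [[], [[], [], [⟨nat_lit 1, [⟨nat_lit 2, [⟨nat_lit 1, nat_lit 5424, nat_lit 12528, nat_lit 2400, nat_lit 17664, nat_lit 6288, R1_50, R11_368, R2_131⟩]⟩]⟩]], [], [], [], [[⟨nat_lit 5, [⟨nat_lit 0, [⟨nat_lit 5, nat_lit 1536, nat_lit 14448, nat_lit 336, nat_lit 6288, nat_lit 8160, R5_7, R1_131, R6_170⟩]⟩, ⟨nat_lit 1, [⟨nat_lit 5, nat_lit 8592, nat_lit 14640, nat_lit 4176,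 nat_lit 6480, nat_lit 10368, R0_87, R1_135, R13_216⟩]⟩]⟩], [⟨nat_lit 5, [⟨nat_lit 1, [⟨nat_lit 5, nat_lit 9504, nat_lit 4464, nat_lit 5040, nat_lit 7392, nat_lit 8496, R0_105, R1_154, R3_177⟩]⟩]⟩], [⟨nat_lit 1, [⟨nat_lit 2, [⟨nat_lit 1, nat_lit 5472, nat_lit 21072, nat_lit 2448, nat_lit 12480, nat_lit 6240, R1_51, R1_260, R2_130⟩]⟩]⟩,
 ⟨nat_lit 5, [⟨nat_lit 0, [⟨nat_lit 1, nat_lit 336, nat_lit 5712, nat_lit 3120, nat_lit 7776, nat_lit 8592, R5_65, R10_162, R7_179⟩, ⟨nat_lit 5, nat_lit 2112, nat_lit 5808, nat_lit 720, nat_lit 6912, nat_lit 8544, R5_15, R1_144, R4_178⟩]⟩, ⟨nat_lit 1, [⟨nat_lit 1, nat_lit 7344, nat_lit 6240, nat_lit 5472, nat_lit 8016, nat_lit 7392, R0_114, R10_167, R2_154⟩, ⟨nat_lit 5, nat_lit 9888, nat_lit 6336, nat_lit 5376, nat_lit 7056, nat_lit 13056, R0_112, R1_147, R3_272⟩]⟩, ⟨nat_lit 2,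 [⟨nat_lit 1, nat_lit 6048, nat_lit 6624, nat_lit 7344, nat_lit 7872, nat_lit 5760, R11_153, R10_164, R2_120⟩]⟩]⟩]]], [[], [], [], [], [[], [⟨nat_lit 4, [⟨nat_lit 1, [⟨nat_lit 5, nat_lit 8880, nat_lit 14928, nat_lit 13632, nat_lit 12576, nat_lit 7920, R5_284, R7_262, R3_165⟩]⟩]⟩,
 ⟨nat_lit 5, [⟨nat_lit 1, [⟨nat_lit 5, nat_lit 9360, nat_lit 15408, nat_lit 4080, nat_lit 11280, nat_lit 8064, R0_85, R2_235, R3_168⟩]⟩]⟩]], [[], [⟨nat_lit 5, [⟨nat_lit 1, [⟨nat_lit 5, nat_lit 9456, nat_lit 4368, nat_lit 4800, nat_lit 11856, nat_lit 8160, R0_100, R1_247, R3_170⟩]⟩]⟩]], [[], [⟨nat_lit 4, [⟨nat_lit 1, [⟨nat_lit 4, nat_lit 7728, nat_lit 18432, nat_lit 12768, nat_lit 16608, nat_lit 12624, R5_266, R7_346, R4_263⟩, ⟨nat_lit 5, nat_lit 8928, nat_lit 19248, nat_lit 13776, nat_lit 10992, nat_lit 7968, R5_287, R14_229, R3_166⟩]⟩]⟩,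
 ⟨nat_lit 5, [⟨nat_lit 1, [⟨nat_lit 5, nat_lit 9408, nat_lit 19728, nat_lit 5280, nat_lit 9120, nat_lit 8112, R0_110, R12_190, R3_169⟩]⟩]⟩,
 ⟨nat_lit 6, [⟨nat_lit 1, [⟨nat_lit 4, nat_lit 7872, nat_lit 18864, nat_lit 15696, nat_lit 14880, nat_lit 12768, R11_327, R2_310, R4_266⟩, ⟨nat_lit 5, nat_lit 9120, nat_lit 20400, nat_lit 16848, nat_lit 5520, nat_lit 8016, R11_351, R12_115, R3_167⟩]⟩, ⟨nat_lit 5, [⟨nat_lit 4, nat_lit 14064, nat_lit 18912, nat_lit 10944, nat_lit 10656, nat_lit 13824, R1_228, R2_222, R7_288⟩, ⟨nat_lit 5, nat_lit 14352, nat_lit 20448, nat_lit 11088, nat_lit 6384, nat_lit 12768, R1_231, R12_133, R2_266⟩, ⟨nat_lit 6, nat_lit 14304, nat_lit 21024, nat_lit 11040, nat_lit 11040, nat_lit 14304, R1_230, R1_230, R2_298⟩]⟩]⟩], [], [], [], [⟨nat_lit 6, [⟨nat_lit 5, [⟨nat_lit 4, nat_lit 14016, nat_lit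 13728, nat_lit 10896, nat_lit 10848, nat_lit 13872, R1_227, R2_226, R4_289⟩, ⟨nat_lit 6, nat_lit 14256, nat_lit 13776, nat_lit 10992, nat_lit 11232, nat_lit 15696, R1_229, R1_234, R3_327⟩]⟩]⟩]]], [[], [], [], [], [[⟨nat_lit 4, [⟨nat_lit 0, [⟨nat_lit 5, nat_lit 1200, nat_lit 16416, nat_lit 14064, nat_lit 9264, nat_lit 7728, R13_293, R7_193, R6_161⟩]⟩, ⟨nat_lit 1, [⟨nat_lit 5, nat_lit 8256, nat_lit 16464, nat_lit 11712, nat_lit 9456, nat_lit 10080, R9_244, R7_197, R13_210⟩]⟩]⟩,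
 ⟨nat_lit 5, [⟨nat_lit 0, [⟨nat_lit 5, nat_lit 1584, nat_lit 17088, nat_lit 912, nat_lit 8448, nat_lit 8016, R9_19, R2_176, R6_167⟩]⟩]⟩,
 ⟨nat_lit 7, [⟨nat_lit 0, [⟨nat_lit 5, nat_lit 1776, nat_lit 17712, nat_lit 2064, nat_lit 3360, nat_lit 7872, R3_43, R2_70, R6_164⟩]⟩, ⟨nat_lit 1, [⟨nat_lit 5, nat_lit 8640, nat_lit 17760, nat_lit 1296, nat_lit 3648, nat_lit 10224, R0_27, R2_76, R13_213⟩]⟩]⟩], [⟨nat_lit 4, [⟨nat_lit 1, [⟨nat_lit 5, nat_lit 8976, nat_lit 14112, nat_lit 11808, nat_lit 11136, nat_lit 8208, R9_246, R7_232, R3_171⟩]⟩]⟩,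
 ⟨nat_lit 7, [⟨nat_lit 1, [⟨nat_lit 5, nat_lit 9552, nat_lit 14736, nat_lit 1536, nat_lit 6624, nat_lit 8352, R0_32, R2_138, R3_174⟩]⟩]⟩], [⟨nat_lit 4, [⟨nat_lit 0, [⟨nat_lit 1, nat_lit 144, nat_lit 13728, nat_lit 12960, nat_lit 9888, nat_lit 8304, R13_270, R4_206, R7_173⟩, ⟨nat_lit 5, nat_lit 1968, nat_lit 12480, nat_lit 14160, nat_lit 10704, nat_lit 8304, R13_295, R7_223, R4_173⟩]⟩, ⟨nat_lit 1, [⟨nat_lit 1, nat_lit 7152, nat_lit 13776, nat_lit 10176, nat_lit 10176, nat_lit 7248, R9_212, R4_212, R2_151⟩, ⟨nat_lit 5, nat_lit 9744, nat_lit 12528, nat_lit 11856, nat_lit 10848, nat_lit 12816, R9_247, R7_226, R3_267⟩]⟩, ⟨nat_lit 2, [⟨nat_lit 1, nat_lit 5856, nat_lit 13824, nat_lit 9648, nat_lit 10032, nat_lit 5280, R3_201, R4_209, R2_110⟩]⟩]⟩,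
 ⟨nat_lit 5, [⟨nat_lit 0, [⟨nat_lit 1, nat_lit 384, nat_lit 14496, nat_lit 3216, nat_lit 14400, nat_lit 8448, R9_67, R3_300, R7_176⟩, ⟨nat_lit 5, nat_lit 2160, nat_lit 12912, nat_lit 1632, nat_lit 9792, nat_lit 8448, R9_34, R2_204, R4_176⟩]⟩, ⟨nat_lit 2, [⟨nat_lit 1, nat_lit 6096, nat_lit 14544, nat_lit 1680, nat_lit 14448, nat_lit 5616, R0_35, R3_301, R2_117⟩]⟩]⟩,
 ⟨nat_lit 7, [⟨nat_lit 0, [⟨nat_lit 5, nat_lit 2304, nat_lit 13248, nat_lit 9696, nat_lit 4800, nat_lit 8352, R3_202, R2_100, R4_174⟩]⟩, ⟨nat_lit 1, [⟨nat_lit 5, nat_lit 9936, nat_lit 13296, nat_lit 1824, nat_lit 4992, nat_lit 12864, R0_38, R2_104, R3_268⟩]⟩]⟩], [⟨nat_lit 4, [⟨nat_lit 0, [⟨nat_lit 5, nat_lit 2400, nat_lit 1296, nat_lit 14112, nat_lit 10032, nat_lit 7056, R13_294, R7_209, R8_147⟩]⟩, ⟨nat_lit 1, [⟨nat_lit 5, nat_lit 10032, nat_lit 1920,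 nat_lit 11760, nat_lit 10368, nat_lit 7728, R9_245, R7_216, R9_161⟩]⟩, ⟨nat_lit 3, [⟨nat_lit 5, nat_lit 11088, nat_lit 1536, nat_lit 3408, nat_lit 10176, nat_lit 15264, R3_71, R7_212, R5_318⟩]⟩]⟩,
 ⟨nat_lit 5, [⟨nat_lit 0, [⟨nat_lit 5, nat_lit 2544, nat_lit 7776, nat_lit 1344, nat_lit 9216, nat_lit 7296, R9_28, R2_192, R8_152⟩]⟩, ⟨nat_lit 3, [⟨nat_lit 5, nat_lit 11280, nat_lit 8064, nat_lit 4080, nat_lit 9360, nat_lit 15408, R0_85, R2_195, R5_321⟩]⟩]⟩,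
 ⟨nat_lit 7, [⟨nat_lit 0, [⟨nat_lit 5, nat_lit 2832, nat_lit 6480, nat_lit 7008, nat_lit 4224, nat_lit 7200, R3_146, R2_88, R8_150⟩]⟩, ⟨nat_lit 1, [⟨nat_lit 5, nat_lit 10176, nat_lit 6864, nat_lit 1440, nat_lit 4512, nat_lit 7872, R0_30, R2_94, R9_164⟩]⟩]⟩]], [[⟨nat_lit 5, [⟨nat_lit 0, [⟨nat_lit 5, nat_lit 1680, nat_lit 13440, nat_lit 960, nat_lit 9264, nat_lit 8112, R9_20, R1_193, R6_169⟩]⟩]⟩], [], [⟨nat_lit 5, [⟨nat_lit 0, [⟨nat_lit 1, nat_lit 432, nat_lit 11328, nat_lit 3312, nat_lit 11376, nat_lit 8544, R9_69, R10_237, R7_178⟩, ⟨nat_lit 5, nat_lit 2208, nat_lit 11568, nat_lit 1680, nat_lit 10608, nat_lit 8496, R9_35, R1_221, R4_177⟩]⟩, ⟨nat_lit 2, [⟨nat_lit 1, nat_lit 6144, nat_lit 11472, nat_lit 1776, nat_lit 11520, nat_lit 5712, R0_37, R10_240, R2_119⟩]⟩]⟩], [⟨nat_lit 5, [⟨nat_lit 0, [⟨nat_lit 5, nat_lit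 2640, nat_lit 768, nat_lit 1392, nat_lit 10032, nat_lit 7392, R9_29, R1_209, R8_154⟩]⟩, ⟨nat_lit 3, [⟨nat_lit 5, nat_lit 11376, nat_lit 6000, nat_lit 4128, nat_lit 10176, nat_lit 15792, R0_86, R1_212, R5_329⟩]⟩]⟩]], [[⟨nat_lit 4, [⟨nat_lit 0, [⟨nat_lit 5, nat_lit 1248, nat_lit 11712, nat_lit 14544, nat_lit 9168, nat_lit 7776, R13_303, R14_191, R6_162⟩]⟩, ⟨nat_lit 1, [⟨nat_lit 4, nat_lit 7488, nat_lit 11232, nat_lit 10800, nat_lit 15840, nat_lit 12384, R9_225, R7_330, R6_258⟩, ⟨nat_lit 5, nat_lit 8304, nat_lit 12192, nat_lit 12336, nat_lit 10224, nat_lit 10128, R9_257, R14_213, R13_211⟩]⟩]⟩,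
 ⟨nat_lit 5, [⟨nat_lit 0, [⟨nat_lit 5, nat_lit 1632, nat_lit 11808, nat_lit 1008, nat_lit 8064, nat_lit 8064, R9_21, R12_168, R6_168⟩]⟩]⟩,
 ⟨nat_lit 6, [⟨nat_lit 0, [⟨nat_lit 5, nat_lit 1344, nat_lit 11856, nat_lit 2160, nat_lit 3168, nat_lit 7824, R3_45, R12_66, R6_163⟩]⟩, ⟨nat_lit 1, [⟨nat_lit 4, nat_lit 7584, nat_lit 11328, nat_lit 9312, nat_lit 14544, nat_lit 12480, R0_194, R2_303, R6_260⟩, ⟨nat_lit 5, nat_lit 8400, nat_lit 12288, nat_lit 10512, nat_lit 4752, nat_lit 10176, R0_219, R12_99, R13_212⟩]⟩]⟩,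
 ⟨nat_lit 7, [⟨nat_lit 0, [⟨nat_lit 5, nat_lit 1824, nat_lit 11760, nat_lit 2208, nat_lit 3024, nat_lit 7920, R3_46, R12_63, R6_165⟩]⟩, ⟨nat_lit 1, [⟨nat_lit 4, nat_lit 7632, nat_lit 11280, nat_lit 9456, nat_lit 14496, nat_lit 12528, R0_197, R2_302, R6_261⟩, ⟨nat_lit 5, nat_lit 8688, nat_lit 12240, nat_lit 10656, nat_lit 4608, nat_lit 10272, R0_222, R12_96, R13_214⟩]⟩]⟩], [⟨nat_lit 4, [⟨nat_lit 1, [⟨nat_lit 4, nat_lit 7776, nat_lit 12240, nat_lit 10896, nat_lit 16512, nat_lit 12672, R9_227, R7_344, R4_264⟩, ⟨nat_lit 5, nat_lit 9024, nat_lit 12816, nat_lit 12432, nat_lit 10320, nat_lit 8256, R9_259, R14_215, R3_172⟩]⟩]⟩,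
 ⟨nat_lit 6, [⟨nat_lit 1, [⟨nat_lit 4, nat_lit 7920, nat_lit 12624, nat_lit 9408, nat_lit 14784, nat_lit 12816, R0_196, R2_308, R4_267⟩, ⟨nat_lit 5, nat_lit 9168, nat_lit 13776, nat_lit 10608, nat_lit 4848, nat_lit 8304, R0_221, R12_101, R3_173⟩]⟩]⟩,
 ⟨nat_lit 7, [⟨nat_lit 1, [⟨nat_lit 4, nat_lit 7968, nat_lit 12480, nat_lit 9792, nat_lit 15600, nat_lit 12864, R0_204, R2_325, R4_268⟩, ⟨nat_lit 5, nat_lit 9600, nat_lit 13440, nat_lit 10992, nat_lit 5232, nat_lit 8400, R0_229, R12_109, R3_175⟩]⟩]⟩], [], [⟨nat_lit 4, [⟨nat_lit 0, [⟨nat_lit 4, nat_lit 912, nat_lit 14544, nat_lit 13440, nat_lit 13392, nat_lit 4992, R13_280, R7_279, R6_104⟩, ⟨nat_lit 5, nat_lit 2448, nat_lit 15840, nat_lit 14592, nat_lit 9216, nat_lit 7104, R13_304, R14_192, R8_148⟩]⟩, ⟨nat_lit 1, [⟨nat_lit 4, nat_lit 8016, nat_lit 14640, nat_lit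 10848, nat_lit 16176, nat_lit 13104, R9_226, R7_337, R8_273⟩, ⟨nat_lit 5, nat_lit 10080, nat_lit 15936, nat_lit 12384, nat_lit 10272, nat_lit 7776, R9_258, R14_214, R9_162⟩]⟩, ⟨nat_lit 3, [⟨nat_lit 4, nat_lit 10800, nat_lit 14592, nat_lit 10368, nat_lit 14784, nat_lit 13632, R3_216, R7_308, R4_284⟩, ⟨nat_lit 5, nat_lit 11136, nat_lit 15888, nat_lit 10896, nat_lit 9984, nat_lit 15456, R3_227, R14_208, R5_322⟩]⟩]⟩,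
 ⟨nat_lit 5, [⟨nat_lit 0, [⟨nat_lit 5, nat_lit 2592, nat_lit 16704, nat_lit 1440, nat_lit 8112, nat_lit 7344, R9_30, R12_169, R8_153⟩]⟩, ⟨nat_lit 3, [⟨nat_lit 5, nat_lit 11328, nat_lit 16752, nat_lit 4320, nat_lit 8880, nat_lit 15696, R0_90, R12_185, R5_327⟩]⟩]⟩,
 ⟨nat_lit 6, [⟨nat_lit 0, [⟨nat_lit 4, nat_lit 960, nat_lit 15360, nat_lit 576, nat_lit 11952, nat_lit 6336, R3_12, R2_249, R6_132⟩, ⟨nat_lit 5, nat_lit 2496, nat_lit 18048, nat_lit 2688, nat_lit 3216, nat_lit 7152, R3_56, R12_67, R8_149⟩]⟩, ⟨nat_lit 1, [⟨nat_lit 4, nat_lit 8064, nat_lit 15456, nat_lit 9360, nat_lit 14688, nat_lit 13152, R0_195, R2_306, R8_274⟩, ⟨nat_lit 5, nat_lit 10128, nat_lit 18144, nat_lit 10560, nat_lit 4800, nat_lit 7824, R0_220, R12_100, R9_163⟩]⟩, ⟨nat_lit 3, [⟨nat_lit 4, nat_lit 10896, nat_lit 15408, nat_lit 12192, nat_lit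 13968, nat_lit 13824, R10_254, R2_291, R4_288⟩, ⟨nat_lit 5, nat_lit 11232, nat_lit 18096, nat_lit 12912, nat_lit 3648, nat_lit 15552, R10_269, R12_76, R5_324⟩]⟩]⟩,
 ⟨nat_lit 7, [⟨nat_lit 0, [⟨nat_lit 4, nat_lit 1056, nat_lit 15072, nat_lit 3696, nat_lit 12240, nat_lit 6720, R3_77, R2_255, R6_140⟩, ⟨nat_lit 5, nat_lit 2880, nat_lit 17568, nat_lit 7104, nat_lit 3264, nat_lit 7248, R3_148, R12_68, R8_151⟩, ⟨nat_lit 7, nat_lit 3072, nat_lit 18576, nat_lit 4848, nat_lit 12816, nat_lit 7008, R3_101, R1_267, R4_146⟩]⟩, ⟨nat_lit 1, [⟨nat_lit 4, nat_lit 8112, nat_lit 15120, nat_lit 9696, nat_lit 15072, nat_lit 13200, R0_202, R2_314, R8_275⟩, ⟨nat_lit 5, nat_lit 10224, nat_lit 17616, nat_lit 10896, nat_lit 4896, nat_lit 7920, R0_227, R12_102, R9_165⟩, ⟨nat_lit 7, nat_lit 10272, nat_lit 18624, nat_lit 10176, nat_lit 16080,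 nat_lit 7872, R0_212, R1_335, R5_164⟩]⟩]⟩]], [[⟨nat_lit 7, [⟨nat_lit 0, [⟨nat_lit 5, nat_lit 1872, nat_lit 3120, nat_lit 2112, nat_lit 2832, nat_lit 7968, R3_44, R1_59, R6_166⟩]⟩, ⟨nat_lit 1, [⟨nat_lit 5, nat_lit 8736, nat_lit 9024, nat_lit 6432, nat_lit 3120, nat_lit 10320, R0_134, R1_65, R13_215⟩]⟩]⟩], [⟨nat_lit 7, [⟨nat_lit 1, [⟨nat_lit 5, nat_lit 9648, nat_lit 3792, nat_lit 6576, nat_lit 5328, nat_lit 8448, R0_137, R1_111, R3_176⟩]⟩]⟩], [⟨nat_lit 4, [⟨nat_lit 0, [⟨nat_lit 1, nat_lit 192, nat_lit 13296, nat_lit 13152, nat_lit 4896, nat_lit 8352, R13_274, R5_102, R7_174⟩]⟩, ⟨nat_lit 1, [⟨nat_lit 1, nat_lit 7200, nat_lit 13728, nat_lit 10464, nat_lit 6624, nat_lit 7296, R9_218, R5_138, R2_152⟩]⟩, ⟨nat_lit 2, [⟨nat_lit 1, nat_lit 5904, nat_lit 13824, nat_lit 9888, nat_lit 5520, nat_lit 5328, R3_206, R5_115,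 R2_111⟩]⟩]⟩,
 ⟨nat_lit 5, [⟨nat_lit 0, [⟨nat_lit 1, nat_lit 480, nat_lit 13392, nat_lit 3264, nat_lit 11376, nat_lit 8496, R9_68, R0_237, R7_177⟩]⟩, ⟨nat_lit 2, [⟨nat_lit 1, nat_lit 6192, nat_lit 13920, nat_lit 1728, nat_lit 11424, nat_lit 5664, R0_36, R0_238, R2_118⟩]⟩]⟩,
 ⟨nat_lit 7, [⟨nat_lit 0, [⟨nat_lit 1, nat_lit 624, nat_lit 13344, nat_lit 10752, nat_lit 17520, nat_lit 8400, R3_224, R11_365, R7_175⟩, ⟨nat_lit 5, nat_lit 2352, nat_lit 14016, nat_lit 9792, nat_lit 3504, nat_lit 8400, R3_204, R1_73, R4_175⟩]⟩, ⟨nat_lit 1, [⟨nat_lit 1, nat_lit 7392, nat_lit 13776, nat_lit 5472, nat_lit 17712, nat_lit 7344, R0_114, R11_369, R2_153⟩, ⟨nat_lit 5, nat_lit 9984, nat_lit 14208, nat_lit 6864, nat_lit 3696, nat_lit 12960, R0_143, R1_77, R3_270⟩]⟩, ⟨nat_lit 2, [⟨nat_lit 1, nat_lit 6336, nat_lit 13872, nat_lit 2352,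 nat_lit 17616, nat_lit 5376, R10_49, R11_367, R2_112⟩]⟩]⟩]]]]
noncomputable def N3327 : T3 (List N0) := [[[[], [], [⟨nat_lit 0, [⟨nat_lit 2, [⟨nat_lit 1, nat_lit 3936, nat_lit 4032, nat_lit 3072, nat_lit 3792, nat_lit 4512, R4_64, R4_79, R1_94⟩]⟩]⟩,
 ⟨nat_lit 3, [⟨nat_lit 2, [⟨nat_lit 1, nat_lit 4224, nat_lit 10368, nat_lit 816, nat_lit 14256, nat_lit 4656, R5_17, R3_297, R1_97⟩]⟩]⟩], [], [], [], [⟨nat_lit 0, [⟨nat_lit 2, [⟨nat_lit 0, nat_lit 2736, nat_lit 3552, nat_lit 2256, nat_lit 1824, nat_lit 3072, R4_47, R6_38, R3_64⟩, ⟨nat_lit 1, nat_lit 3456, nat_lit 3984, nat_lit 2976, nat_lit 1680, nat_lit 5232, R4_62, R4_35, R10_109⟩]⟩, ⟨nat_lit 6, [⟨nat_lit 0, nat_lit 13200, nat_lit 3408, nat_lit 2208, nat_lit 1440, nat_lit 12000, R7_46, R6_30, R2_250⟩, ⟨nat_lit 1, nat_lit 15216, nat_lit 3888, nat_lit 2784, nat_lit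 1440, nat_lit 12576, R7_58, R4_30, R1_262⟩, ⟨nat_lit 2, nat_lit 14160, nat_lit 4368, nat_lit 2640, nat_lit 1056, nat_lit 13584, R7_55, R8_22, R12_283⟩]⟩]⟩,
 ⟨nat_lit 2, [⟨nat_lit 6, [⟨nat_lit 2, nat_lit 14496, nat_lit 12816, nat_lit 12864, nat_lit 15168, nat_lit 13632, R14_268, R5_316, R12_284⟩]⟩]⟩,
 ⟨nat_lit 3, [⟨nat_lit 2, [⟨nat_lit 0, nat_lit 3024, nat_lit 9696, nat_lit 2640, nat_lit 16752, nat_lit 8880, R5_55, R13_349, R3_185⟩, ⟨nat_lit 1, nat_lit 3648, nat_lit 10992, nat_lit 3216, nat_lit 12576, nat_lit 5376, R5_67, R3_262, R10_112⟩, ⟨nat_lit 3, nat_lit 5232, nat_lit 10560, nat_lit 2832, nat_lit 1872, nat_lit 3600, R5_59, R3_39, R0_75⟩]⟩]⟩]], [], [[], [], [], [], [], [], [⟨nat_lit 0, [⟨nat_lit 2, [⟨nat_lit 0, nat_lit 2784, nat_lit 13152, nat_lit 11136, nat_lit 9552, nat_lit 3168, R4_232, R4_199, R3_66⟩]⟩,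 ⟨nat_lit 6, [⟨nat_lit 0, nat_lit 13248, nat_lit 12480, nat_lit 11520, nat_lit 13920, nat_lit 13728, R7_240, R4_290, R2_286⟩, ⟨nat_lit 2, nat_lit 14208, nat_lit 12528, nat_lit 11952, nat_lit 15072, nat_lit 13920, R7_249, R5_314, R12_290⟩]⟩]⟩,
 ⟨nat_lit 2, [⟨nat_lit 6, [⟨nat_lit 2, nat_lit 14544, nat_lit 14592, nat_lit 15120, nat_lit 19488, nat_lit 13968, R14_315, R11_406, R12_291⟩]⟩]⟩,
 ⟨nat_lit 3, [⟨nat_lit 2, [⟨nat_lit 0, nat_lit 3072, nat_lit 13584, nat_lit 13872, nat_lit 15504, nat_lit 9168, R5_289, R3_323, R3_191⟩, ⟨nat_lit 3, nat_lit 5280, nat_lit 13632, nat_lit 14064, nat_lit 16320, nat_lit 3648, R5_293, R10_340, R0_76⟩]⟩]⟩]], [[], [], [⟨nat_lit 3, [⟨nat_lit 2, [⟨nat_lit 1, nat_lit 4272, nat_lit 7104, nat_lit 7776, nat_lit 19056, nat_lit 4704, R5_162, R10_397, R1_98⟩]⟩]⟩]]], [[[], [], [⟨nat_lit 0, [⟨nat_lit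 2, [⟨nat_lit 1, nat_lit 3984, nat_lit 14304, nat_lit 9744, nat_lit 10128, nat_lit 4560, R3_203, R4_211, R1_95⟩]⟩]⟩,
 ⟨nat_lit 3, [⟨nat_lit 2, [⟨nat_lit 1, nat_lit 4320, nat_lit 15120, nat_lit 6720, nat_lit 15072, nat_lit 4800, R0_140, R3_314, R1_100⟩]⟩]⟩], [], [], [], [⟨nat_lit 0, [⟨nat_lit 2, [⟨nat_lit 0, nat_lit 2832, nat_lit 1872, nat_lit 2112, nat_lit 7968, nat_lit 3120, R3_44, R6_166, R3_65⟩, ⟨nat_lit 1, nat_lit 3504, nat_lit 2352, nat_lit 9792, nat_lit 8400, nat_lit 5280, R3_204, R4_175, R10_110⟩]⟩, ⟨nat_lit 6, [⟨nat_lit 0, nat_lit 13296, nat_lit 1728, nat_lit 672, nat_lit 7392, nat_lit 12096, R2_14, R6_154, R2_252⟩, ⟨nat_lit 1, nat_lit 15264, nat_lit 2256, nat_lit 864, nat_lit 8112, nat_lit 12672, R2_18, R4_169, R1_264⟩, ⟨nat_lit 2, nat_lit 14256, nat_lit 2784, nat_lit 768, nat_lit 6192, nat_lit 13824,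 R2_16, R8_129, R12_288⟩]⟩]⟩,
 ⟨nat_lit 2, [⟨nat_lit 6, [⟨nat_lit 2, nat_lit 14640, nat_lit 11520, nat_lit 10128, nat_lit 15744, nat_lit 13872, R12_211, R5_328, R12_289⟩]⟩]⟩,
 ⟨nat_lit 3, [⟨nat_lit 2, [⟨nat_lit 0, nat_lit 3120, nat_lit 8736, nat_lit 6432, nat_lit 17424, nat_lit 9024, R0_134, R13_363, R3_188⟩, ⟨nat_lit 1, nat_lit 3696, nat_lit 9984, nat_lit 6864, nat_lit 12960, nat_lit 5520, R0_143, R3_270, R10_115⟩, ⟨nat_lit 3, nat_lit 5328, nat_lit 9648, nat_lit 6576, nat_lit 8448, nat_lit 3792, R0_137, R3_176, R0_79⟩]⟩]⟩]], [[], [], [⟨nat_lit 0, [⟨nat_lit 2, [⟨nat_lit 1, nat_lit 4032, nat_lit 2016, nat_lit 10032, nat_lit 5568, nat_lit 4608, R3_209, R5_116, R1_96⟩]⟩]⟩,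
 ⟨nat_lit 1, [⟨nat_lit 2, [⟨nat_lit 1, nat_lit 4080, nat_lit 8208, nat_lit 6864, nat_lit 21312, nat_lit 5040, R10_143, R11_444, R1_105⟩]⟩]⟩,
 ⟨nat_lit 3, [⟨nat_lit 2, [⟨nat_lit 1, nat_lit 4368, nat_lit 11760, nat_lit 6768, nat_lit 14016, nat_lit 4896, R0_141, R0_292, R1_102⟩]⟩]⟩], [], [], [], [⟨nat_lit 0, [⟨nat_lit 2, [⟨nat_lit 0, nat_lit 2928, nat_lit 1344, nat_lit 2448, nat_lit 5712, nat_lit 3360, R3_51, R8_119, R3_70⟩, ⟨nat_lit 1, nat_lit 3552, nat_lit 1824, nat_lit 10080, nat_lit 5712, nat_lit 5328, R3_210, R5_119, R10_111⟩]⟩, ⟨nat_lit 6, [⟨nat_lit 0, nat_lit 13392, nat_lit 1200, nat_lit 6480, nat_lit 13344, nat_lit 14928, R2_135, R8_278, R2_311⟩, ⟨nat_lit 1, nat_lit 15312, nat_lit 1728, nat_lit 7056, nat_lit 5904, nat_lit 15936, R2_147, R5_123, R1_332⟩, ⟨nat_lit 2, nat_lit 14352, nat_lit 2256, nat_lit 6912,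 nat_lit 5664, nat_lit 14736, R2_144, R9_118, R12_307⟩]⟩]⟩,
 ⟨nat_lit 1, [⟨nat_lit 2, [⟨nat_lit 0, nat_lit 2976, nat_lit 6768, nat_lit 6048, nat_lit 16464, nat_lit 10560, R10_126, R5_343, R3_220⟩, ⟨nat_lit 1, nat_lit 3600, nat_lit 7248, nat_lit 6768, nat_lit 21408, nat_lit 5616, R10_141, R11_446, R10_117⟩]⟩, ⟨nat_lit 6, [⟨nat_lit 0, nat_lit 13536, nat_lit 6624, nat_lit 5184, nat_lit 16560, nat_lit 15312, R1_108, R5_345, R2_319⟩, ⟨nat_lit 1, nat_lit 15408, nat_lit 7152, nat_lit 5760, nat_lit 21504, nat_lit 16320, R1_120, R11_448, R1_340⟩, ⟨nat_lit 2, nat_lit 14880, nat_lit 7632, nat_lit 5616, nat_lit 3504, nat_lit 14832, R1_117, R0_73, R12_309⟩]⟩]⟩,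
 ⟨nat_lit 2, [⟨nat_lit 6, [⟨nat_lit 2, nat_lit 14736, nat_lit 12096, nat_lit 10800, nat_lit 13584, nat_lit 14784, R12_225, R0_283, R12_308⟩]⟩]⟩,
 ⟨nat_lit 3, [⟨nat_lit 2, [⟨nat_lit 0, nat_lit 3216, nat_lit 9552, nat_lit 6480, nat_lit 15600, nat_lit 9456, R0_135, R9_325, R3_197⟩, ⟨nat_lit 1, nat_lit 3744, nat_lit 10800, nat_lit 6912, nat_lit 14064, nat_lit 5568, R0_144, R0_293, R10_116⟩, ⟨nat_lit 3, nat_lit 5424, nat_lit 10464, nat_lit 6624, nat_lit 8832, nat_lit 3888, R0_138, R0_184, R0_81⟩]⟩]⟩]], [[], [], [], [], [], [], [⟨nat_lit 0, [⟨nat_lit 2, [⟨nat_lit 0, nat_lit 2880, nat_lit 10416, nat_lit 2832, nat_lit 9600, nat_lit 3216, R3_59, R4_200, R3_67⟩]⟩, ⟨nat_lit 6, [⟨nat_lit 0, nat_lit 13344, nat_lit 9744, nat_lit 10320, nat_lit 14016, nat_lit 13824, R2_215, R4_292, R2_288⟩, ⟨nat_lit 2, nat_lit 14304, nat_lit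 9792, nat_lit 10416, nat_lit 15888, nat_lit 14496, R2_217, R5_331, R12_302⟩]⟩]⟩,
 ⟨nat_lit 2, [⟨nat_lit 6, [⟨nat_lit 2, nat_lit 14688, nat_lit 11664, nat_lit 12192, nat_lit 20064, nat_lit 14544, R12_254, R11_418, R12_303⟩]⟩]⟩,
 ⟨nat_lit 3, [⟨nat_lit 2, [⟨nat_lit 0, nat_lit 3168, nat_lit 11232, nat_lit 6528, nat_lit 15600, nat_lit 9264, R0_136, R3_325, R3_193⟩, ⟨nat_lit 3, nat_lit 5376, nat_lit 11280, nat_lit 6672, nat_lit 17232, nat_lit 3840, R0_139, R10_359, R0_80⟩]⟩]⟩]], [[], [], [⟨nat_lit 3, [⟨nat_lit 2, [⟨nat_lit 1, nat_lit 4416, nat_lit 14352, nat_lit 6816, nat_lit 19152, nat_lit 4848, R0_142, R10_399, R1_101⟩]⟩]⟩]]], [[], [], [[], [], [], [], [], [], [⟨nat_lit 2, [⟨nat_lit 6, [⟨nat_lit 2, nat_lit 14592, nat_lit 11856, nat_lit 11952, nat_lit 20688, nat_lit 14112, R12_249, R11_431, R12_294⟩]⟩]⟩]]], [[],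 [], [[], [], [], [], [], [], [], [⟨nat_lit 0, [⟨nat_lit 6, [⟨nat_lit 0, nat_lit 13728, nat_lit 10896, nat_lit 10848, nat_lit 13872, nat_lit 14016, R2_226, R4_289, R2_292⟩, ⟨nat_lit 2, nat_lit 15072, nat_lit 12144, nat_lit 11184, nat_lit 15600, nat_lit 3840, R2_233, R5_325, R12_80⟩]⟩]⟩,
 ⟨nat_lit 2, [⟨nat_lit 4, [⟨nat_lit 2, nat_lit 12528, nat_lit 2400, nat_lit 6288, nat_lit 20784, nat_lit 5424, R2_131, R11_433, R2_113⟩]⟩, ⟨nat_lit 6, [⟨nat_lit 2, nat_lit 15120, nat_lit 12240, nat_lit 10704, nat_lit 20880, nat_lit 3984, R12_223, R11_435, R12_83⟩]⟩, ⟨nat_lit 7, [⟨nat_lit 2, nat_lit 15888, nat_lit 7776, nat_lit 4992, nat_lit 20832, nat_lit 4128, R1_104, R11_434, R1_86⟩, ⟨nat_lit 6, nat_lit 16320, nat_lit 5760, nat_lit 7152, nat_lit 15408, nat_lit 5520, R1_149, R1_321, R11_115⟩]⟩]⟩,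
 ⟨nat_lit 3, [⟨nat_lit 2, [⟨nat_lit 3, nat_lit 5712, nat_lit 16464, nat_lit 16512, nat_lit 18672, nat_lit 5568, R11_344, R10_389, R11_116⟩]⟩, ⟨nat_lit 6, [⟨nat_lit 0, nat_lit 13776, nat_lit 10992, nat_lit 11232, nat_lit 15696, nat_lit 14256, R1_234, R3_327, R2_297⟩, ⟨nat_lit 2, nat_lit 15168, nat_lit 12192, nat_lit 11760, nat_lit 13920, nat_lit 3888, R1_245, R0_290, R12_81⟩, ⟨nat_lit 3, nat_lit 15552, nat_lit 11376, nat_lit 11472, nat_lit 18720, nat_lit 15792, R1_239, R10_390, R1_329⟩]⟩]⟩,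
 ⟨nat_lit 4, [⟨nat_lit 3, [⟨nat_lit 4, nat_lit 10896, nat_lit 13728, nat_lit 10848, nat_lit 13872, nat_lit 14016, R2_226, R4_289, R2_292⟩, ⟨nat_lit 7, nat_lit 12144, nat_lit 15072, nat_lit 11184, nat_lit 15600, nat_lit 3840, R2_233, R5_325, R12_80⟩]⟩]⟩,
 ⟨nat_lit 6, [⟨nat_lit 3, [⟨nat_lit 4, nat_lit 10992, nat_lit 13776, nat_lit 11232, nat_lit 15696, nat_lit 14256, R1_234, R3_327, R2_297⟩, ⟨nat_lit 6, nat_lit 11376, nat_lit 15552, nat_lit 11472, nat_lit 18720, nat_lit 15792, R1_239, R10_390, R1_329⟩, ⟨nat_lit 7, nat_lit 12192, nat_lit 15168, nat_lit 11760, nat_lit 13920, nat_lit 3888, R1_245, R0_290, R12_81⟩]⟩, ⟨nat_lit 7, [⟨nat_lit 6, nat_lit 16464, nat_lit 5712, nat_lit 16512, nat_lit 18672, nat_lit 5568, R11_344, R10_389, R11_116⟩]⟩]⟩,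
 ⟨nat_lit 7, [⟨nat_lit 0, [⟨nat_lit 7, nat_lit 2400, nat_lit 12528, nat_lit 6288, nat_lit 20784, nat_lit 5424, R2_131, R11_433, R2_113⟩]⟩, ⟨nat_lit 2, [⟨nat_lit 3, nat_lit 5760, nat_lit 16320, nat_lit 7152, nat_lit 15408, nat_lit 5520, R1_149, R1_321, R11_115⟩, ⟨nat_lit 7, nat_lit 7776, nat_lit 15888, nat_lit 4992, nat_lit 20832, nat_lit 4128, R1_104, R11_434, R1_86⟩]⟩, ⟨nat_lit 3, [⟨nat_lit 7, nat_lit 12240, nat_lit 15120, nat_lit 10704, nat_lit 20880, nat_lit 3984, R12_223, R11_435, R12_83⟩]⟩]⟩]], [[], [], [⟨nat_lit 3, [⟨nat_lit 2, [⟨nat_lit 1, nat_lit 4464, nat_lit 6720, nat_lit 7392, nat_lit 19104, nat_lit 4752, R11_154, R10_398, R1_99⟩]⟩]⟩,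
 ⟨nat_lit 7, [⟨nat_lit 2, [⟨nat_lit 1, nat_lit 4944, nat_lit 21168, nat_lit 7824, nat_lit 15600, nat_lit 4176, R1_163, R1_325, R1_87⟩]⟩]⟩], [], [], [], [⟨nat_lit 3, [⟨nat_lit 2, [⟨nat_lit 0, nat_lit 3360, nat_lit 3360, nat_lit 9072, nat_lit 9120, nat_lit 9120, R11_189, R3_190, R3_190⟩, ⟨nat_lit 1, nat_lit 3840, nat_lit 3840, nat_lit 9456, nat_lit 19200, nat_lit 5472, R11_197, R10_400, R10_114⟩]⟩, ⟨nat_lit 6, [⟨nat_lit 0, nat_lit 13680, nat_lit 3408, nat_lit 6000, nat_lit 15840, nat_lit 14112, R1_125, R3_330, R2_294⟩, ⟨nat_lit 1, nat_lit 15504, nat_lit 3888, nat_lit 7872, nat_lit 19296, nat_lit 15648, R1_164, R10_402, R1_326⟩, ⟨nat_lit 2, nat_lit 15024, nat_lit 5664, nat_lit 7584, nat_lit 3552, nat_lit 14688, R1_158, R0_74, R12_306⟩]⟩]⟩,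
 ⟨nat_lit 7, [⟨nat_lit 2, [⟨nat_lit 0, nat_lit 3408, nat_lit 13680, nat_lit 6000, nat_lit 14112, nat_lit 15840, R1_125, R2_294, R3_330⟩, ⟨nat_lit 1, nat_lit 3888, nat_lit 15504, nat_lit 7872, nat_lit 15648, nat_lit 5184, R1_164, R1_326, R10_108⟩, ⟨nat_lit 3, nat_lit 5664, nat_lit 15024, nat_lit 7584, nat_lit 14688, nat_lit 3552, R1_158, R12_306, R0_74⟩]⟩]⟩]], [[], [], [], [⟨nat_lit 4, [⟨nat_lit 3, [⟨nat_lit 5, nat_lit 11568, nat_lit 12720, nat_lit 11616, nat_lit 15408, nat_lit 12432, R2_242, R7_321, R0_259⟩]⟩]⟩,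
 ⟨nat_lit 7, [⟨nat_lit 0, [⟨nat_lit 5, nat_lit 2160, nat_lit 13584, nat_lit 6864, nat_lit 13008, nat_lit 5616, R2_143, R2_271, R9_117⟩]⟩, ⟨nat_lit 2, [⟨nat_lit 5, nat_lit 7536, nat_lit 13680, nat_lit 5568, nat_lit 13536, nat_lit 3456, R1_116, R2_282, R0_72⟩]⟩, ⟨nat_lit 3, [⟨nat_lit 5, nat_lit 12000, nat_lit 13632, nat_lit 10752, nat_lit 13392, nat_lit 13392, R12_224, R2_279, R0_279⟩]⟩]⟩]], [], [[], [], [], [⟨nat_lit 4, [⟨nat_lit 3, [⟨nat_lit 4, nat_lit 11136, nat_lit 13152, nat_lit 10608, nat_lit 15072, nat_lit 15360, R2_221, R7_314, R3_320⟩, ⟨nat_lit 5, nat_lit 11616, nat_lit 14064, nat_lit 11760, nat_lit 7968, nat_lit 12528, R2_245, R14_166, R0_261⟩]⟩]⟩,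
 ⟨nat_lit 6, [⟨nat_lit 3, [⟨nat_lit 4, nat_lit 11232, nat_lit 13776, nat_lit 10992, nat_lit 14256, nat_lit 15696, R1_229, R2_297, R3_327⟩, ⟨nat_lit 5, nat_lit 11760, nat_lit 15168, nat_lit 12192, nat_lit 3888, nat_lit 13920, R1_254, R12_81, R0_290⟩, ⟨nat_lit 6, nat_lit 11472, nat_lit 15552, nat_lit 11376, nat_lit 15792, nat_lit 19440, R1_237, R1_329, R10_405⟩]⟩]⟩,
 ⟨nat_lit 7, [⟨nat_lit 0, [⟨nat_lit 4, nat_lit 336, nat_lit 13584, nat_lit 3936, nat_lit 12336, nat_lit 7680, R2_82, R2_257, R13_160⟩, ⟨nat_lit 5, nat_lit 2208, nat_lit 14928, nat_lit 6960, nat_lit 13728, nat_lit 5712, R2_145, R12_286, R9_119⟩, ⟨nat_lit 7, nat_lit 2496, nat_lit 15456, nat_lit 5184, nat_lit 12912, nat_lit 13392, R2_108, R1_269, R3_279⟩]⟩, ⟨nat_lit 2, [⟨nat_lit 4, nat_lit 6000, nat_lit 13680, nat_lit 3408, nat_lit 14112, nat_lit 15840,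 R1_71, R2_294, R3_330⟩, ⟨nat_lit 5, nat_lit 7584, nat_lit 15024, nat_lit 5664, nat_lit 14688, nat_lit 3552, R1_118, R12_306, R0_74⟩, ⟨nat_lit 7, nat_lit 7872, nat_lit 15504, nat_lit 3888, nat_lit 15648, nat_lit 5184, R1_81, R1_326, R10_108⟩]⟩, ⟨nat_lit 3, [⟨nat_lit 4, nat_lit 11328, nat_lit 13632, nat_lit 10608, nat_lit 13872, nat_lit 15648, R12_221, R2_289, R3_326⟩, ⟨nat_lit 5, nat_lit 12048, nat_lit 14976, nat_lit 10848, nat_lit 14352, nat_lit 13680, R12_226, R12_299, R0_285⟩]⟩]⟩], [], [], [], [⟨nat_lit 4, [⟨nat_lit 3, [⟨nat_lit 4, nat_lit 10944, nat_lit 20928, nat_lit 10656, nat_lit 15120, nat_lit 14064, R2_222, R7_315, R2_293⟩]⟩]⟩,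
 ⟨nat_lit 6, [⟨nat_lit 3, [⟨nat_lit 4, nat_lit 11040, nat_lit 21024, nat_lit 11040, nat_lit 14304, nat_lit 14304, R1_230, R2_298, R2_298⟩, ⟨nat_lit 6, nat_lit 11424, nat_lit 21264, nat_lit 11424, nat_lit 15840, nat_lit 15840, R1_238, R1_330, R1_330⟩]⟩, ⟨nat_lit 7, [⟨nat_lit 6, nat_lit 16512, nat_lit 21216, nat_lit 16416, nat_lit 8832, nat_lit 8688, R11_342, R1_184, R11_181⟩]⟩]⟩,
 ⟨nat_lit 7, [⟨nat_lit 0, [⟨nat_lit 7, nat_lit 2448, nat_lit 21072, nat_lit 6240, nat_lit 12480, nat_lit 5472, R2_130, R1_260, R2_114⟩]⟩, ⟨nat_lit 2, [⟨nat_lit 7, nat_lit 7824, nat_lit 21168, nat_lit 4944, nat_lit 15600, nat_lit 4176, R1_103, R1_325, R1_87⟩]⟩, ⟨nat_lit 3, [⟨nat_lit 4, nat_lit 11088, nat_lit 20976, nat_lit 10560, nat_lit 12768, nat_lit 14352, R12_220, R2_266, R2_299⟩, ⟨nat_lit 7, nat_lit 12288, nat_lit 21120, nat_lit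 10656, nat_lit 14112, nat_lit 3936, R12_222, R1_294, R12_82⟩]⟩]⟩]], [[⟨nat_lit 7, [⟨nat_lit 0, [⟨nat_lit 5, nat_lit 1200, nat_lit 14928, nat_lit 6480, nat_lit 13392, nat_lit 15072, R2_135, R1_279, R8_314⟩]⟩, ⟨nat_lit 2, [⟨nat_lit 5, nat_lit 6624, nat_lit 15312, nat_lit 5184, nat_lit 13536, nat_lit 16560, R1_108, R1_282, R5_345⟩]⟩]⟩], [], [⟨nat_lit 7, [⟨nat_lit 0, [⟨nat_lit 5, nat_lit 1728, nat_lit 15936, nat_lit 7056, nat_lit 15312, nat_lit 5904, R2_147, R1_319, R5_123⟩]⟩, ⟨nat_lit 2, [⟨nat_lit 1, nat_lit 4992, nat_lit 15888, nat_lit 7776, nat_lit 21360, nat_lit 4128, R1_162, R11_445, R1_86⟩, ⟨nat_lit 5, nat_lit 7152, nat_lit 16320, nat_lit 5760, nat_lit 15408, nat_lit 5520, R1_120, R1_321, R11_115⟩]⟩]⟩], [⟨nat_lit 7, [⟨nat_lit 0, [⟨nat_lit 5, nat_lit 2256, nat_lit 14736, nat_lit 6912, nat_lit 14352, nat_lit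 5664, R2_144, R1_299, R9_118⟩]⟩, ⟨nat_lit 2, [⟨nat_lit 5, nat_lit 7632, nat_lit 14832, nat_lit 5616, nat_lit 14880, nat_lit 3504, R1_117, R1_310, R0_73⟩]⟩, ⟨nat_lit 3, [⟨nat_lit 5, nat_lit 12096, nat_lit 14784, nat_lit 10800, nat_lit 14736, nat_lit 13584, R12_225, R1_307, R0_283⟩]⟩]⟩]]], [[], [], [], [], [[⟨nat_lit 4, [⟨nat_lit 0, [⟨nat_lit 5, nat_lit 576, nat_lit 1584, nat_lit 3984, nat_lit 3168, nat_lit 3312, R6_83, R7_66, R8_69⟩]⟩, ⟨nat_lit 1, [⟨nat_lit 5, nat_lit 8976, nat_lit 1968, nat_lit 1776, nat_lit 3360, nat_lit 2256, R8_37, R7_70, R9_47⟩]⟩, ⟨nat_lit 2, [⟨nat_lit 5, nat_lit 6096, nat_lit 2016, nat_lit 4224, nat_lit 3216, nat_lit 14400, R4_88, R7_67, R5_300⟩]⟩]⟩,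
 ⟨nat_lit 5, [⟨nat_lit 0, [⟨nat_lit 5, nat_lit 864, nat_lit 7680, nat_lit 1680, nat_lit 1488, nat_lit 3360, R8_35, R2_31, R8_70⟩]⟩, ⟨nat_lit 1, [⟨nat_lit 5, nat_lit 9264, nat_lit 8112, nat_lit 960, nat_lit 1680, nat_lit 2304, R9_20, R2_35, R9_48⟩]⟩, ⟨nat_lit 2, [⟨nat_lit 5, nat_lit 6288, nat_lit 8160, nat_lit 336, nat_lit 1536, nat_lit 14448, R5_7, R2_32, R5_301⟩]⟩]⟩], [⟨nat_lit 4, [⟨nat_lit 1, [⟨nat_lit 5, nat_lit 9600, nat_lit 2112, nat_lit 2640, nat_lit 4224, nat_lit 720, R8_55, R7_88, R0_15⟩]⟩]⟩,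
 ⟨nat_lit 5, [⟨nat_lit 1, [⟨nat_lit 5, nat_lit 10032, nat_lit 6624, nat_lit 1392, nat_lit 2640, nat_lit 768, R9_29, R2_55, R0_16⟩]⟩]⟩], [⟨nat_lit 4, [⟨nat_lit 0, [⟨nat_lit 5, nat_lit 1392, nat_lit 1536, nat_lit 4224, nat_lit 3696, nat_lit 4608, R6_88, R7_77, R5_96⟩]⟩, ⟨nat_lit 1, [⟨nat_lit 5, nat_lit 10512, nat_lit 1776, nat_lit 2976, nat_lit 3840, nat_lit 11520, R8_62, R7_80, R0_240⟩]⟩, ⟨nat_lit 2, [⟨nat_lit 1, nat_lit 4512, nat_lit 4032, nat_lit 3072, nat_lit 3792, nat_lit 3936, R4_64, R4_79, R1_82⟩, ⟨nat_lit 5, nat_lit 6816, nat_lit 1824, nat_lit 4320, nat_lit 3744, nat_lit 4608, R4_90, R7_78, R11_96⟩]⟩]⟩,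
 ⟨nat_lit 5, [⟨nat_lit 0, [⟨nat_lit 5, nat_lit 1488, nat_lit 8256, nat_lit 9552, nat_lit 2064, nat_lit 6192, R8_199, R2_43, R5_129⟩]⟩, ⟨nat_lit 1, [⟨nat_lit 5, nat_lit 10608, nat_lit 8496, nat_lit 1680, nat_lit 2208, nat_lit 11568, R9_35, R2_46, R0_241⟩]⟩, ⟨nat_lit 2, [⟨nat_lit 1, nat_lit 4656, nat_lit 10368, nat_lit 816, nat_lit 14256, nat_lit 4224, R5_17, R3_297, R1_88⟩, ⟨nat_lit 5, nat_lit 6912, nat_lit 8544, nat_lit 720, nat_lit 2112, nat_lit 5808, R5_15, R2_44, R11_121⟩]⟩]⟩]], [[⟨nat_lit 5, [⟨nat_lit 0, [⟨nat_lit 5, nat_lit 960, nat_lit 2256, nat_lit 2496, nat_lit 960, nat_lit 3696, R8_52, R1_20, R8_77⟩]⟩, ⟨nat_lit 1, [⟨nat_lit 5, nat_lit 9360, nat_lit 6768, nat_lit 6384, nat_lit 1152, nat_lit 2784, R9_133, R1_24, R9_58⟩]⟩, ⟨nat_lit 2, [⟨nat_lit 5, nat_lit 6384, nat_lit 9936, nat_lit 6528, nat_lit 1008,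 nat_lit 17136, R5_136, R1_21, R5_357⟩]⟩]⟩], [⟨nat_lit 5, [⟨nat_lit 1, [⟨nat_lit 5, nat_lit 10128, nat_lit 6720, nat_lit 7248, nat_lit 2112, nat_lit 1248, R9_151, R1_44, R0_26⟩]⟩]⟩], [⟨nat_lit 5, [⟨nat_lit 0, [⟨nat_lit 5, nat_lit 1536, nat_lit 6240, nat_lit 10080, nat_lit 1536, nat_lit 6240, R8_210, R1_32, R5_130⟩]⟩, ⟨nat_lit 1, [⟨nat_lit 5, nat_lit 10656, nat_lit 6768, nat_lit 7584, nat_lit 1680, nat_lit 14400, R9_158, R1_35, R0_300⟩]⟩, ⟨nat_lit 2, [⟨nat_lit 1, nat_lit 4704, nat_lit 7104, nat_lit 7776, nat_lit 1776, nat_lit 4272, R5_162, R10_37, R1_89⟩, ⟨nat_lit 5, nat_lit 6960, nat_lit 7152, nat_lit 7680, nat_lit 1584, nat_lit 5856, R5_160, R1_33, R11_122⟩]⟩]⟩]], [[⟨nat_lit 4, [⟨nat_lit 0, [⟨nat_lit 4, nat_lit 0, nat_lit 3216, nat_lit 10704, nat_lit 13488, nat_lit 96, R6_223, R7_281, R6_2⟩, ⟨nat_lit 5, nat_lit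 624, nat_lit 4080, nat_lit 11472, nat_lit 8160, nat_lit 3408, R6_239, R14_170, R8_71⟩]⟩, ⟨nat_lit 1, [⟨nat_lit 4, nat_lit 7968, nat_lit 9120, nat_lit 9648, nat_lit 16800, nat_lit 13392, R8_201, R7_350, R8_279⟩, ⟨nat_lit 5, nat_lit 9024, nat_lit 10416, nat_lit 9744, nat_lit 8688, nat_lit 2352, R8_203, R14_181, R9_49⟩]⟩, ⟨nat_lit 2, [⟨nat_lit 4, nat_lit 5808, nat_lit 11664, nat_lit 11568, nat_lit 14304, nat_lit 13440, R4_241, R7_298, R4_280⟩, ⟨nat_lit 5, nat_lit 6144, nat_lit 11712, nat_lit 12000, nat_lit 8448, nat_lit 15984, R4_250, R14_176, R5_333⟩]⟩]⟩,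
 ⟨nat_lit 5, [⟨nat_lit 0, [⟨nat_lit 5, nat_lit 912, nat_lit 4128, nat_lit 2880, nat_lit 6768, nat_lit 3504, R8_60, R12_141, R8_73⟩]⟩, ⟨nat_lit 1, [⟨nat_lit 5, nat_lit 9312, nat_lit 10464, nat_lit 10368, nat_lit 7296, nat_lit 2448, R9_216, R12_152, R9_51⟩]⟩, ⟨nat_lit 2, [⟨nat_lit 5, nat_lit 6336, nat_lit 11760, nat_lit 12720, nat_lit 7056, nat_lit 16032, R5_265, R12_147, R5_334⟩]⟩]⟩,
 ⟨nat_lit 6, [⟨nat_lit 0, [⟨nat_lit 4, nat_lit 96, nat_lit 3264, nat_lit 432, nat_lit 12192, nat_lit 960, R4_9, R2_254, R6_20⟩, ⟨nat_lit 5, nat_lit 768, nat_lit 4176, nat_lit 2736, nat_lit 2928, nat_lit 3456, R4_57, R12_61, R8_72⟩, ⟨nat_lit 6, nat_lit 432, nat_lit 4464, nat_lit 1344, nat_lit 12768, nat_lit 576, R4_28, R1_266, R4_12⟩]⟩, ⟨nat_lit 1, [⟨nat_lit 4, nat_lit 8064, nat_lit 9168, nat_lit 528, nat_lit 15024, nat_lit 13440,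 R5_11, R2_313, R8_280⟩, ⟨nat_lit 5, nat_lit 9168, nat_lit 10512, nat_lit 672, nat_lit 4320, nat_lit 2400, R5_14, R12_90, R9_50⟩, ⟨nat_lit 6, nat_lit 8688, nat_lit 10752, nat_lit 576, nat_lit 16032, nat_lit 2160, R5_12, R1_334, R5_45⟩]⟩]⟩], [⟨nat_lit 4, [⟨nat_lit 1, [⟨nat_lit 4, nat_lit 8208, nat_lit 6336, nat_lit 10224, nat_lit 17088, nat_lit 16320, R8_213, R7_356, R5_340⟩, ⟨nat_lit 5, nat_lit 9648, nat_lit 6384, nat_lit 10320, nat_lit 8736, nat_lit 816, R8_215, R14_182, R0_17⟩]⟩]⟩,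
 ⟨nat_lit 5, [⟨nat_lit 1, [⟨nat_lit 5, nat_lit 10080, nat_lit 6816, nat_lit 10704, nat_lit 7344, nat_lit 912, R9_223, R12_153, R0_19⟩]⟩]⟩,
 ⟨nat_lit 6, [⟨nat_lit 1, [⟨nat_lit 4, nat_lit 8352, nat_lit 7200, nat_lit 7488, nat_lit 15360, nat_lit 16656, R5_156, R2_320, R5_347⟩, ⟨nat_lit 5, nat_lit 9888, nat_lit 7248, nat_lit 7632, nat_lit 4368, nat_lit 864, R5_159, R12_91, R0_18⟩, ⟨nat_lit 6, nat_lit 8784, nat_lit 7344, nat_lit 7536, nat_lit 16368, nat_lit 2160, R5_157, R1_341, R11_45⟩]⟩]⟩]]], [[], [[], [], [⟨nat_lit 1, [⟨nat_lit 2, [⟨nat_lit 1, nat_lit 4128, nat_lit 15888, nat_lit 7776, nat_lit 21360, nat_lit 4992, R1_162, R11_445, R1_104⟩]⟩]⟩]], [], [], [], [[⟨nat_lit 5, [⟨nat_lit 0, [⟨nat_lit 5, nat_lit 1008, nat_lit 17136, nat_lit 6528, nat_lit 6384, nat_lit 10944, R5_136, R1_133, R8_228⟩]⟩, ⟨nat_lit 1, [⟨nat_lit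 5, nat_lit 9408, nat_lit 17280, nat_lit 4224, nat_lit 6576, nat_lit 11664, R0_88, R1_137, R9_243⟩]⟩, ⟨nat_lit 2, [⟨nat_lit 5, nat_lit 6432, nat_lit 17472, nat_lit 6144, nat_lit 6432, nat_lit 17472, R11_128, R1_134, R5_364⟩]⟩]⟩], [⟨nat_lit 5, [⟨nat_lit 1, [⟨nat_lit 5, nat_lit 10320, nat_lit 4560, nat_lit 5088, nat_lit 7488, nat_lit 10464, R0_106, R1_156, R0_218⟩]⟩]⟩], [⟨nat_lit 1, [⟨nat_lit 2, [⟨nat_lit 1, nat_lit 4176, nat_lit 21168, nat_lit 7824, nat_lit 15600, nat_lit 4944, R1_163, R1_325, R1_103⟩]⟩]⟩,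
 ⟨nat_lit 5, [⟨nat_lit 0, [⟨nat_lit 5, nat_lit 1584, nat_lit 5856, nat_lit 7680, nat_lit 6960, nat_lit 7152, R5_160, R1_145, R5_149⟩]⟩, ⟨nat_lit 1, [⟨nat_lit 5, nat_lit 10704, nat_lit 6384, nat_lit 5424, nat_lit 7104, nat_lit 15120, R0_113, R1_148, R0_315⟩]⟩, ⟨nat_lit 2, [⟨nat_lit 1, nat_lit 4752, nat_lit 6720, nat_lit 7392, nat_lit 7968, nat_lit 4464, R11_154, R10_166, R1_93⟩, ⟨nat_lit 5, nat_lit 7008, nat_lit 6768, nat_lit 7296, nat_lit 7008, nat_lit 6768, R11_152, R1_146, R11_141⟩]⟩]⟩]]], [[], [], [], [], [[], [⟨nat_lit 4, [⟨nat_lit 1, [⟨nat_lit 5, nat_lit 9696, nat_lit 15216, nat_lit 13680, nat_lit 12672, nat_lit 5952, R5_285, R7_264, R0_124⟩]⟩]⟩,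
 ⟨nat_lit 5, [⟨nat_lit 1, [⟨nat_lit 5, nat_lit 10176, nat_lit 15792, nat_lit 4128, nat_lit 11376, nat_lit 6000, R0_86, R2_237, R0_125⟩]⟩]⟩]], [[], [⟨nat_lit 5, [⟨nat_lit 1, [⟨nat_lit 5, nat_lit 10272, nat_lit 4704, nat_lit 4944, nat_lit 11952, nat_lit 6384, R0_103, R1_249, R0_133⟩]⟩]⟩]], [[], [⟨nat_lit 4, [⟨nat_lit 1, [⟨nat_lit 4, nat_lit 8256, nat_lit 18576, nat_lit 12912, nat_lit 17232, nat_lit 16416, R5_269, R7_359, R5_342⟩, ⟨nat_lit 5, nat_lit 9744, nat_lit 19536, nat_lit 13968, nat_lit 11040, nat_lit 6048, R5_291, R14_230, R0_126⟩]⟩]⟩,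
 ⟨nat_lit 5, [⟨nat_lit 1, [⟨nat_lit 5, nat_lit 10224, nat_lit 20112, nat_lit 5328, nat_lit 9168, nat_lit 6144, R0_111, R12_191, R0_128⟩]⟩]⟩,
 ⟨nat_lit 6, [⟨nat_lit 1, [⟨nat_lit 4, nat_lit 8400, nat_lit 19056, nat_lit 15840, nat_lit 15504, nat_lit 16752, R11_330, R2_323, R5_349⟩, ⟨nat_lit 5, nat_lit 9936, nat_lit 20736, nat_lit 17040, nat_lit 5712, nat_lit 6096, R11_355, R12_119, R0_127⟩, ⟨nat_lit 6, nat_lit 8832, nat_lit 21216, nat_lit 16416, nat_lit 16512, nat_lit 8688, R11_342, R1_344, R11_181⟩]⟩, ⟨nat_lit 5, [⟨nat_lit 6, nat_lit 15840, nat_lit 21264, nat_lit 11424, nat_lit 11424, nat_lit 15840, R1_238, R1_238, R1_330⟩]⟩]⟩], [], [], [], [⟨nat_lit 6, [⟨nat_lit 5, [⟨nat_lit 6, nat_lit 15792, nat_lit 15552, nat_lit 11376, nat_lit 11472, nat_lit 18720, R1_237, R1_239, R10_390⟩]⟩]⟩]]], [[], [], [], [], [[⟨nat_lit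 4, [⟨nat_lit 0, [⟨nat_lit 5, nat_lit 672, nat_lit 16800, nat_lit 14256, nat_lit 9360, nat_lit 8160, R13_297, R7_195, R8_170⟩]⟩, ⟨nat_lit 1, [⟨nat_lit 5, nat_lit 9072, nat_lit 16848, nat_lit 11952, nat_lit 9552, nat_lit 9024, R9_249, R7_199, R9_188⟩]⟩, ⟨nat_lit 2, [⟨nat_lit 5, nat_lit 6192, nat_lit 16896, nat_lit 10608, nat_lit 9408, nat_lit 14544, R3_221, R7_196, R5_303⟩]⟩]⟩,
 ⟨nat_lit 5, [⟨nat_lit 0, [⟨nat_lit 5, nat_lit 1056, nat_lit 17472, nat_lit 6336, nat_lit 8544, nat_lit 8304, R9_132, R2_178, R8_173⟩]⟩, ⟨nat_lit 2, [⟨nat_lit 5, nat_lit 6480, nat_lit 17520, nat_lit 4176, nat_lit 8592, nat_lit 14640, R0_87, R2_179, R5_305⟩]⟩]⟩,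
 ⟨nat_lit 7, [⟨nat_lit 0, [⟨nat_lit 5, nat_lit 1248, nat_lit 18144, nat_lit 2304, nat_lit 3456, nat_lit 8256, R3_48, R2_72, R8_172⟩]⟩, ⟨nat_lit 1, [⟨nat_lit 5, nat_lit 9456, nat_lit 18192, nat_lit 1344, nat_lit 3744, nat_lit 9120, R0_28, R2_78, R9_190⟩]⟩, ⟨nat_lit 2, [⟨nat_lit 5, nat_lit 6672, nat_lit 18240, nat_lit 6000, nat_lit 3504, nat_lit 14592, R10_125, R2_73, R5_304⟩]⟩]⟩], [⟨nat_lit 4, [⟨nat_lit 1, [⟨nat_lit 5, nat_lit 9792, nat_lit 14304, nat_lit 12000, nat_lit 11232, nat_lit 8544, R9_250, R7_234, R0_178⟩]⟩]⟩,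
 ⟨nat_lit 7, [⟨nat_lit 1, [⟨nat_lit 5, nat_lit 10368, nat_lit 15024, nat_lit 1584, nat_lit 6720, nat_lit 8640, R0_33, R2_140, R0_180⟩]⟩]⟩], [⟨nat_lit 4, [⟨nat_lit 0, [⟨nat_lit 5, nat_lit 1440, nat_lit 12624, nat_lit 14352, nat_lit 10752, nat_lit 4992, R13_299, R7_224, R5_104⟩]⟩, ⟨nat_lit 1, [⟨nat_lit 5, nat_lit 10560, nat_lit 12672, nat_lit 12048, nat_lit 10896, nat_lit 11760, R9_251, R7_227, R0_245⟩]⟩, ⟨nat_lit 2, [⟨nat_lit 1, nat_lit 4560, nat_lit 14304, nat_lit 9744, nat_lit 10128, nat_lit 3984, R3_203, R4_211, R1_83⟩, ⟨nat_lit 5, nat_lit 6864, nat_lit 12720, nat_lit 10704, nat_lit 10800, nat_lit 4992, R3_223, R7_225, R11_104⟩]⟩]⟩,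
 ⟨nat_lit 5, [⟨nat_lit 0, [⟨nat_lit 5, nat_lit 1632, nat_lit 13008, nat_lit 7536, nat_lit 9840, nat_lit 6720, R9_157, R2_205, R5_140⟩]⟩, ⟨nat_lit 2, [⟨nat_lit 1, nat_lit 4800, nat_lit 15120, nat_lit 6720, nat_lit 15072, nat_lit 4320, R0_140, R3_314, R1_90⟩, ⟨nat_lit 5, nat_lit 7056, nat_lit 13056, nat_lit 5376, nat_lit 9888, nat_lit 6336, R0_112, R2_206, R11_132⟩]⟩]⟩,
 ⟨nat_lit 7, [⟨nat_lit 0, [⟨nat_lit 5, nat_lit 1776, nat_lit 13440, nat_lit 9936, nat_lit 4848, nat_lit 5664, R3_207, R2_101, R5_118⟩]⟩, ⟨nat_lit 1, [⟨nat_lit 5, nat_lit 10752, nat_lit 13488, nat_lit 1872, nat_lit 5040, nat_lit 11808, R0_39, R2_105, R0_246⟩]⟩, ⟨nat_lit 2, [⟨nat_lit 5, nat_lit 7200, nat_lit 13536, nat_lit 6720, nat_lit 4896, nat_lit 5280, R10_140, R2_102, R11_110⟩]⟩]⟩], [⟨nat_lit 4, [⟨nat_lit 0, [⟨nat_lit 5, nat_lit 1872, nat_lit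 1392, nat_lit 14304, nat_lit 10128, nat_lit 4128, R13_298, R7_211, R9_86⟩]⟩, ⟨nat_lit 2, [⟨nat_lit 5, nat_lit 7296, nat_lit 2016, nat_lit 10656, nat_lit 10320, nat_lit 2592, R3_222, R7_215, R0_54⟩]⟩, ⟨nat_lit 3, [⟨nat_lit 5, nat_lit 11664, nat_lit 1632, nat_lit 3456, nat_lit 10272, nat_lit 2496, R3_72, R7_214, R0_52⟩]⟩]⟩,
 ⟨nat_lit 5, [⟨nat_lit 0, [⟨nat_lit 5, nat_lit 2016, nat_lit 7872, nat_lit 7200, nat_lit 9312, nat_lit 6624, R9_150, R2_194, R9_138⟩]⟩, ⟨nat_lit 2, [⟨nat_lit 5, nat_lit 7392, nat_lit 8496, nat_lit 5040, nat_lit 9504, nat_lit 4464, R0_105, R2_198, R0_93⟩]⟩, ⟨nat_lit 3, [⟨nat_lit 5, nat_lit 11856, nat_lit 8160, nat_lit 4800, nat_lit 9456, nat_lit 4368, R0_100, R2_197, R0_91⟩]⟩]⟩,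
 ⟨nat_lit 7, [⟨nat_lit 0, [⟨nat_lit 5, nat_lit 2304, nat_lit 6576, nat_lit 7200, nat_lit 4320, nat_lit 5280, R3_150, R2_90, R9_110⟩]⟩, ⟨nat_lit 2, [⟨nat_lit 5, nat_lit 7680, nat_lit 6960, nat_lit 6432, nat_lit 4368, nat_lit 3120, R10_134, R2_91, R0_65⟩]⟩]⟩]], [[⟨nat_lit 5, [⟨nat_lit 0, [⟨nat_lit 5, nat_lit 1152, nat_lit 16800, nat_lit 6384, nat_lit 9360, nat_lit 8976, R9_133, R1_195, R8_187⟩]⟩, ⟨nat_lit 2, [⟨nat_lit 5, nat_lit 6576, nat_lit 17520, nat_lit 4224, nat_lit 9408, nat_lit 17280, R0_88, R1_196, R5_360⟩]⟩]⟩], [], [⟨nat_lit 5, [⟨nat_lit 0, [⟨nat_lit 5, nat_lit 1680, nat_lit 14400, nat_lit 7584, nat_lit 10656, nat_lit 6768, R9_158, R1_222, R5_141⟩]⟩, ⟨nat_lit 2, [⟨nat_lit 1, nat_lit 4848, nat_lit 14352, nat_lit 6816, nat_lit 11616, nat_lit 4416, R0_142, R10_242, R1_92⟩, ⟨nat_lit 5, nat_lit 7104, nat_lit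 15120, nat_lit 5424, nat_lit 10704, nat_lit 6384, R0_113, R1_223, R11_133⟩]⟩]⟩], [⟨nat_lit 5, [⟨nat_lit 0, [⟨nat_lit 5, nat_lit 2112, nat_lit 1248, nat_lit 7248, nat_lit 10128, nat_lit 6720, R9_151, R1_211, R9_140⟩]⟩, ⟨nat_lit 2, [⟨nat_lit 5, nat_lit 7488, nat_lit 10464, nat_lit 5088, nat_lit 10320, nat_lit 4560, R0_106, R1_215, R0_95⟩]⟩, ⟨nat_lit 3, [⟨nat_lit 5, nat_lit 11952, nat_lit 6384, nat_lit 4944, nat_lit 10272, nat_lit 4704, R0_103, R1_214, R0_98⟩]⟩]⟩]], [[⟨nat_lit 4, [⟨nat_lit 0, [⟨nat_lit 4, nat_lit 48, nat_lit 15888, nat_lit 13536, nat_lit 13584, nat_lit 4944, R13_282, R7_283, R6_103⟩, ⟨nat_lit 5, nat_lit 720, nat_lit 16848, nat_lit 14784, nat_lit 9264, nat_lit 8496, R13_308, R14_193, R8_177⟩]⟩, ⟨nat_lit 1, [⟨nat_lit 4, nat_lit 8016, nat_lit 16224, nat_lit 11040, nat_lit 16896, nat_lit 13632, R9_230,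 R7_352, R8_284⟩, ⟨nat_lit 5, nat_lit 9120, nat_lit 17040, nat_lit 12624, nat_lit 10368, nat_lit 9360, R9_263, R14_216, R9_195⟩]⟩, ⟨nat_lit 2, [⟨nat_lit 4, nat_lit 5856, nat_lit 16656, nat_lit 10272, nat_lit 14400, nat_lit 13584, R3_214, R7_300, R4_283⟩, ⟨nat_lit 5, nat_lit 6240, nat_lit 17184, nat_lit 10800, nat_lit 9744, nat_lit 16080, R3_225, R14_203, R5_335⟩]⟩]⟩,
 ⟨nat_lit 5, [⟨nat_lit 0, [⟨nat_lit 5, nat_lit 1104, nat_lit 16944, nat_lit 6432, nat_lit 8160, nat_lit 8640, R9_134, R12_170, R8_180⟩]⟩, ⟨nat_lit 2, [⟨nat_lit 5, nat_lit 6528, nat_lit 17280, nat_lit 4272, nat_lit 8640, nat_lit 16176, R0_89, R12_180, R5_337⟩]⟩]⟩,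
 ⟨nat_lit 6, [⟨nat_lit 0, [⟨nat_lit 4, nat_lit 144, nat_lit 15984, nat_lit 3648, nat_lit 12288, nat_lit 6672, R3_76, R2_256, R6_139⟩, ⟨nat_lit 5, nat_lit 816, nat_lit 16992, nat_lit 7056, nat_lit 3408, nat_lit 8592, R3_147, R12_71, R8_179⟩, ⟨nat_lit 6, nat_lit 480, nat_lit 17328, nat_lit 4800, nat_lit 12864, nat_lit 6960, R3_100, R1_268, R4_145⟩]⟩, ⟨nat_lit 1, [⟨nat_lit 4, nat_lit 8112, nat_lit 16320, nat_lit 9552, nat_lit 15120, nat_lit 13728, R0_199, R2_315, R8_286⟩, ⟨nat_lit 5, nat_lit 9216, nat_lit 17136, nat_lit 10800, nat_lit 4992, nat_lit 9456, R0_225, R12_104, R9_197⟩, ⟨nat_lit 6, nat_lit 8736, nat_lit 17616, nat_lit 10032, nat_lit 16128, nat_lit 10992, R0_209, R1_336, R5_229⟩]⟩]⟩,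
 ⟨nat_lit 7, [⟨nat_lit 0, [⟨nat_lit 4, nat_lit 192, nat_lit 15936, nat_lit 624, nat_lit 11904, nat_lit 6288, R3_13, R2_248, R6_131⟩, ⟨nat_lit 5, nat_lit 1296, nat_lit 16896, nat_lit 2736, nat_lit 3072, nat_lit 8544, R3_57, R12_64, R8_178⟩]⟩, ⟨nat_lit 1, [⟨nat_lit 4, nat_lit 8160, nat_lit 16272, nat_lit 9504, nat_lit 14640, nat_lit 13680, R0_198, R2_305, R8_285⟩, ⟨nat_lit 5, nat_lit 9504, nat_lit 17088, nat_lit 10704, nat_lit 4656, nat_lit 9408, R0_223, R12_97, R9_196⟩]⟩, ⟨nat_lit 2, [⟨nat_lit 4, nat_lit 5904, nat_lit 16704, nat_lit 3360, nat_lit 13920, nat_lit 13776, R10_70, R2_290, R4_287⟩, ⟨nat_lit 5, nat_lit 6720, nat_lit 17232, nat_lit 6096, nat_lit 3600, nat_lit 16128, R10_127, R12_75, R5_336⟩]⟩]⟩], [⟨nat_lit 4, [⟨nat_lit 1, [⟨nat_lit 4, nat_lit 8304, nat_lit 12288, nat_lit 11136, nat_lit 17136, nat_lit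 16368, R9_232, R7_357, R5_341⟩, ⟨nat_lit 5, nat_lit 9840, nat_lit 13008, nat_lit 12672, nat_lit 10416, nat_lit 8880, R9_264, R14_217, R0_185⟩]⟩]⟩,
 ⟨nat_lit 6, [⟨nat_lit 1, [⟨nat_lit 4, nat_lit 8448, nat_lit 12672, nat_lit 9648, nat_lit 15408, nat_lit 16704, R0_201, R2_321, R5_348⟩, ⟨nat_lit 5, nat_lit 9984, nat_lit 13872, nat_lit 10848, nat_lit 5040, nat_lit 8976, R0_226, R12_105, R0_187⟩, ⟨nat_lit 6, nat_lit 8880, nat_lit 13968, nat_lit 10128, nat_lit 16416, nat_lit 14256, R0_211, R1_342, R11_297⟩]⟩]⟩,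
 ⟨nat_lit 7, [⟨nat_lit 1, [⟨nat_lit 4, nat_lit 8496, nat_lit 12576, nat_lit 9840, nat_lit 15696, nat_lit 16800, R0_205, R2_327, R5_350⟩, ⟨nat_lit 5, nat_lit 10416, nat_lit 13728, nat_lit 11040, nat_lit 5280, nat_lit 8928, R0_230, R12_110, R0_186⟩]⟩]⟩], [], [⟨nat_lit 4, [⟨nat_lit 0, [⟨nat_lit 4, nat_lit 240, nat_lit 14736, nat_lit 13584, nat_lit 13680, nat_lit 5184, R13_283, R7_285, R13_108⟩, ⟨nat_lit 5, nat_lit 1920, nat_lit 16368, nat_lit 14832, nat_lit 9312, nat_lit 4176, R13_309, R14_194, R9_87⟩]⟩, ⟨nat_lit 1, [⟨nat_lit 4, nat_lit 8544, nat_lit 14832, nat_lit 11088, nat_lit 17040, nat_lit 15552, R9_231, R7_355, R9_324⟩]⟩, ⟨nat_lit 2, [⟨nat_lit 4, nat_lit 5952, nat_lit 14880, nat_lit 10320, nat_lit 14544, nat_lit 15456, R3_215, R7_303, R3_322⟩, ⟨nat_lit 5, nat_lit 7344, nat_lit 16464, nat_lit 10848, nat_lit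 9792, nat_lit 2640, R3_226, R14_204, R0_55⟩]⟩, ⟨nat_lit 3, [⟨nat_lit 4, nat_lit 11184, nat_lit 14784, nat_lit 10416, nat_lit 15024, nat_lit 15408, R3_217, R7_313, R3_321⟩, ⟨nat_lit 5, nat_lit 11712, nat_lit 16416, nat_lit 10944, nat_lit 10032, nat_lit 2544, R3_228, R14_209, R0_53⟩]⟩]⟩,
 ⟨nat_lit 5, [⟨nat_lit 0, [⟨nat_lit 5, nat_lit 2064, nat_lit 17280, nat_lit 7296, nat_lit 8208, nat_lit 6672, R9_152, R12_171, R9_139⟩]⟩, ⟨nat_lit 2, [⟨nat_lit 5, nat_lit 7440, nat_lit 17376, nat_lit 5136, nat_lit 8688, nat_lit 4512, R0_107, R12_181, R0_94⟩]⟩, ⟨nat_lit 3, [⟨nat_lit 5, nat_lit 11904, nat_lit 17328, nat_lit 5184, nat_lit 8928, nat_lit 4416, R0_108, R12_186, R0_92⟩]⟩]⟩,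
 ⟨nat_lit 6, [⟨nat_lit 0, [⟨nat_lit 4, nat_lit 288, nat_lit 15504, nat_lit 4176, nat_lit 12432, nat_lit 6768, R3_87, R2_259, R13_141⟩, ⟨nat_lit 5, nat_lit 1968, nat_lit 18336, nat_lit 7440, nat_lit 3456, nat_lit 5040, R3_155, R12_72, R9_105⟩, ⟨nat_lit 6, nat_lit 528, nat_lit 18912, nat_lit 5904, nat_lit 13008, nat_lit 5136, R3_123, R1_271, R3_107⟩]⟩, ⟨nat_lit 1, [⟨nat_lit 4, nat_lit 8592, nat_lit 15600, nat_lit 9600, nat_lit 15264, nat_lit 15840, R0_200, R2_318, R9_330⟩, ⟨nat_lit 6, nat_lit 8928, nat_lit 19008, nat_lit 10080, nat_lit 16272, nat_lit 14304, R0_210, R1_339, R0_298⟩]⟩, ⟨nat_lit 3, [⟨nat_lit 4, nat_lit 11280, nat_lit 15552, nat_lit 12288, nat_lit 14208, nat_lit 15744, R10_256, R2_296, R3_328⟩, ⟨nat_lit 5, nat_lit 11808, nat_lit 18384, nat_lit 13008, nat_lit 3744, nat_lit 3072, R10_271, R12_78, R0_64⟩,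 ⟨nat_lit 6, nat_lit 11520, nat_lit 18960, nat_lit 12576, nat_lit 15744, nat_lit 19392, R10_262, R1_328, R10_404⟩]⟩]⟩,
 ⟨nat_lit 7, [⟨nat_lit 0, [⟨nat_lit 4, nat_lit 384, nat_lit 15216, nat_lit 4224, nat_lit 12384, nat_lit 7152, R3_88, R2_258, R13_149⟩, ⟨nat_lit 5, nat_lit 2352, nat_lit 17952, nat_lit 7488, nat_lit 3312, nat_lit 5328, R3_156, R12_69, R9_111⟩, ⟨nat_lit 7, nat_lit 2544, nat_lit 18768, nat_lit 5952, nat_lit 12960, nat_lit 5088, R3_124, R1_270, R3_106⟩]⟩, ⟨nat_lit 1, [⟨nat_lit 4, nat_lit 8640, nat_lit 15264, nat_lit 9744, nat_lit 15216, nat_lit 15936, R0_203, R2_317, R9_332⟩, ⟨nat_lit 7, nat_lit 10848, nat_lit 18816, nat_lit 10224, nat_lit 16224, nat_lit 14256, R0_213, R1_338, R0_297⟩]⟩, ⟨nat_lit 2, [⟨nat_lit 4, nat_lit 6048, nat_lit 15312, nat_lit 3936, nat_lit 14160, nat_lit 15792, R10_82, R2_295,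 R3_329⟩, ⟨nat_lit 5, nat_lit 7728, nat_lit 18000, nat_lit 6480, nat_lit 3696, nat_lit 3168, R10_135, R12_77, R0_66⟩, ⟨nat_lit 7, nat_lit 7920, nat_lit 18864, nat_lit 5040, nat_lit 15696, nat_lit 4272, R10_105, R1_327, R10_89⟩]⟩]⟩]], [[⟨nat_lit 7, [⟨nat_lit 0, [⟨nat_lit 5, nat_lit 1344, nat_lit 3360, nat_lit 2448, nat_lit 2928, nat_lit 8448, R3_51, R1_61, R8_176⟩]⟩, ⟨nat_lit 1, [⟨nat_lit 5, nat_lit 9552, nat_lit 9456, nat_lit 6480, nat_lit 3216, nat_lit 9312, R0_135, R1_67, R9_194⟩]⟩, ⟨nat_lit 2, [⟨nat_lit 5, nat_lit 6768, nat_lit 10560, nat_lit 6048, nat_lit 2976, nat_lit 16464, R10_126, R1_62, R5_343⟩]⟩]⟩], [⟨nat_lit 7, [⟨nat_lit 1, [⟨nat_lit 5, nat_lit 10464, nat_lit 3888, nat_lit 6624, nat_lit 5424, nat_lit 8832, R0_138, R1_113, R0_184⟩]⟩]⟩], [⟨nat_lit 4, [⟨nat_lit 2, [⟨nat_lit 1, nat_lit 4608, nat_lit 19488,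 nat_lit 10032, nat_lit 5568, nat_lit 4032, R3_209, R5_116, R1_84⟩]⟩]⟩,
 ⟨nat_lit 5, [⟨nat_lit 2, [⟨nat_lit 1, nat_lit 4896, nat_lit 19584, nat_lit 6768, nat_lit 14016, nat_lit 4368, R0_141, R0_292, R1_91⟩]⟩]⟩,
 ⟨nat_lit 7, [⟨nat_lit 0, [⟨nat_lit 5, nat_lit 1824, nat_lit 19632, nat_lit 10080, nat_lit 3552, nat_lit 5712, R3_210, R1_74, R5_119⟩]⟩, ⟨nat_lit 1, [⟨nat_lit 5, nat_lit 10800, nat_lit 19776, nat_lit 6912, nat_lit 3744, nat_lit 14064, R0_144, R1_78, R0_293⟩]⟩, ⟨nat_lit 2, [⟨nat_lit 1, nat_lit 5040, nat_lit 19536, nat_lit 8448, nat_lit 21312, nat_lit 4080, R10_176, R11_444, R1_85⟩, ⟨nat_lit 5, nat_lit 7248, nat_lit 19968, nat_lit 6768, nat_lit 3600, nat_lit 5328, R10_141, R1_75, R11_111⟩]⟩]⟩]]]]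
noncomputable def N3367 : T3 (List N0) := [[[[], [], [⟨nat_lit 0, [⟨nat_lit 2, [⟨nat_lit 1, nat_lit 17904, nat_lit 1824, nat_lit 4320, nat_lit 720, nat_lit 6816, R4_90, R7_15, R1_142⟩, ⟨nat_lit 5, nat_lit 18000, nat_lit 1392, nat_lit 4416, nat_lit 528, nat_lit 7728, R4_92, R4_11, R11_161⟩]⟩]⟩,
 ⟨nat_lit 3, [⟨nat_lit 2, [⟨nat_lit 1, nat_lit 17952, nat_lit 8544, nat_lit 720, nat_lit 2112, nat_lit 6912, R5_15, R2_44, R1_144⟩]⟩]⟩], [], [], [], [⟨nat_lit 0, [⟨nat_lit 2, [⟨nat_lit 1, nat_lit 17376, nat_lit 2064, nat_lit 4272, nat_lit 1152, nat_lit 7584, R4_89, R7_24, R10_158⟩]⟩, ⟨nat_lit 6, [⟨nat_lit 1, nat_lit 17424, nat_lit 2016, nat_lit 4512, nat_lit 1200, nat_lit 12336, R7_94, R7_25, R1_257⟩]⟩]⟩,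
 ⟨nat_lit 3, [⟨nat_lit 2, [⟨nat_lit 1, nat_lit 17472, nat_lit 8592, nat_lit 3120, nat_lit 336, nat_lit 7776, R5_65, R2_7, R10_162⟩]⟩]⟩]], [], [[], [], [], [], [], [], [⟨nat_lit 0, [⟨nat_lit 2, [⟨nat_lit 0, nat_lit 19104, nat_lit 13200, nat_lit 11904, nat_lit 6000, nat_lit 1488, R4_248, R7_125, R3_31⟩, ⟨nat_lit 1, nat_lit 19296, nat_lit 13248, nat_lit 12048, nat_lit 17568, nat_lit 7632, R4_251, R14_366, R10_159⟩]⟩, ⟨nat_lit 6, [⟨nat_lit 0, nat_lit 19152, nat_lit 12720, nat_lit 13008, nat_lit 13920, nat_lit 12576, R7_271, R7_290, R2_262⟩, ⟨nat_lit 1, nat_lit 19344, nat_lit 12768, nat_lit 13152, nat_lit 17664, nat_lit 13920, R7_274, R14_368, R1_290⟩]⟩]⟩,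
 ⟨nat_lit 2, [⟨nat_lit 6, [⟨nat_lit 0, nat_lit 19200, nat_lit 14928, nat_lit 14640, nat_lit 13200, nat_lit 13200, R14_305, R2_275, R2_275⟩, ⟨nat_lit 1, nat_lit 19392, nat_lit 14976, nat_lit 14736, nat_lit 14064, nat_lit 14544, R14_307, R12_293, R1_303⟩, ⟨nat_lit 2, nat_lit 19488, nat_lit 15024, nat_lit 14688, nat_lit 14544, nat_lit 14064, R14_306, R1_303, R12_293⟩]⟩]⟩,
 ⟨nat_lit 3, [⟨nat_lit 2, [⟨nat_lit 0, nat_lit 19248, nat_lit 13680, nat_lit 13776, nat_lit 8928, nat_lit 7968, R5_287, R2_186, R3_166⟩, ⟨nat_lit 1, nat_lit 19440, nat_lit 13776, nat_lit 14256, nat_lit 1104, nat_lit 7824, R5_297, R12_23, R10_163⟩, ⟨nat_lit 3, nat_lit 19536, nat_lit 13728, nat_lit 13968, nat_lit 9744, nat_lit 6048, R5_291, R1_203, R0_126⟩]⟩]⟩]], [[], [], [⟨nat_lit 0, [⟨nat_lit 2, [⟨nat_lit 5, nat_lit 21888, nat_lit 624, nat_lit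 10704, nat_lit 2112, nat_lit 7776, R4_223, R5_44, R11_162⟩]⟩]⟩,
 ⟨nat_lit 3, [⟨nat_lit 2, [⟨nat_lit 1, nat_lit 21840, nat_lit 7152, nat_lit 7680, nat_lit 1584, nat_lit 6960, R5_160, R1_33, R1_145⟩, ⟨nat_lit 5, nat_lit 21936, nat_lit 7584, nat_lit 7296, nat_lit 12912, nat_lit 8496, R5_152, R11_269, R11_177⟩]⟩]⟩]], [], [], [[], [], [], [], [], [], [], [⟨nat_lit 3, [⟨nat_lit 2, [⟨nat_lit 3, nat_lit 6048, nat_lit 17520, nat_lit 17520, nat_lit 8592, nat_lit 8592, R5_365, R11_179, R11_179⟩]⟩]⟩]]], [[[], [], [⟨nat_lit 0, [⟨nat_lit 2, [⟨nat_lit 1, nat_lit 18048, nat_lit 12720, nat_lit 10704, nat_lit 6720, nat_lit 6864, R3_223, R7_140, R1_143⟩, ⟨nat_lit 5, nat_lit 18192, nat_lit 4752, nat_lit 17568, nat_lit 6912, nat_lit 8208, R3_366, R4_144, R11_171⟩]⟩]⟩,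
 ⟨nat_lit 1, [⟨nat_lit 2, [⟨nat_lit 1, nat_lit 18096, nat_lit 13536, nat_lit 2400, nat_lit 4896, nat_lit 7200, R10_50, R2_102, R1_150⟩, ⟨nat_lit 5, nat_lit 18240, nat_lit 5424, nat_lit 2640, nat_lit 5760, nat_lit 9984, R10_55, R3_120, R11_208⟩]⟩]⟩,
 ⟨nat_lit 3, [⟨nat_lit 2, [⟨nat_lit 1, nat_lit 18144, nat_lit 13056, nat_lit 5376, nat_lit 9888, nat_lit 7056, R0_112, R2_206, R1_147⟩]⟩]⟩], [], [], [], [⟨nat_lit 0, [⟨nat_lit 2, [⟨nat_lit 1, nat_lit 17520, nat_lit 624, nat_lit 10752, nat_lit 7152, nat_lit 7680, R3_224, R7_149, R10_160⟩]⟩, ⟨nat_lit 6, [⟨nat_lit 1, nat_lit 17568, nat_lit 576, nat_lit 2928, nat_lit 7200, nat_lit 12432, R2_61, R7_150, R1_259⟩]⟩]⟩,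
 ⟨nat_lit 1, [⟨nat_lit 2, [⟨nat_lit 1, nat_lit 17616, nat_lit 6336, nat_lit 2352, nat_lit 5376, nat_lit 8112, R10_49, R2_112, R10_169⟩]⟩, ⟨nat_lit 6, [⟨nat_lit 1, nat_lit 17664, nat_lit 6288, nat_lit 2400, nat_lit 5424, nat_lit 12528, R1_50, R2_113, R1_261⟩]⟩]⟩,
 ⟨nat_lit 3, [⟨nat_lit 2, [⟨nat_lit 1, nat_lit 17712, nat_lit 7392, nat_lit 5472, nat_lit 7344, nat_lit 8016, R0_114, R2_153, R10_167⟩]⟩]⟩]], [[], [], [⟨nat_lit 1, [⟨nat_lit 2, [⟨nat_lit 1, nat_lit 21408, nat_lit 5616, nat_lit 8496, nat_lit 3600, nat_lit 7248, R10_177, R1_75, R1_151⟩, ⟨nat_lit 5, nat_lit 21456, nat_lit 5136, nat_lit 8640, nat_lit 4176, nat_lit 10080, R10_180, R10_87, R11_210⟩]⟩]⟩], [], [], [], [⟨nat_lit 1, [⟨nat_lit 2, [⟨nat_lit 1, nat_lit 21312, nat_lit 5040, nat_lit 8448, nat_lit 4080, nat_lit 8208, R10_176, R1_85, R10_171⟩]⟩, ⟨nat_lit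 6, [⟨nat_lit 1, nat_lit 21360, nat_lit 4992, nat_lit 7776, nat_lit 4128, nat_lit 15888, R1_162, R1_86, R1_331⟩]⟩]⟩]], [[], [], [], [], [], [], [⟨nat_lit 0, [⟨nat_lit 2, [⟨nat_lit 0, nat_lit 19584, nat_lit 10464, nat_lit 3504, nat_lit 6096, nat_lit 1584, R3_73, R7_127, R3_33⟩, ⟨nat_lit 1, nat_lit 19776, nat_lit 10512, nat_lit 10992, nat_lit 18000, nat_lit 7728, R3_229, R14_375, R10_161⟩]⟩, ⟨nat_lit 6, [⟨nat_lit 0, nat_lit 19632, nat_lit 9984, nat_lit 11664, nat_lit 14064, nat_lit 12672, R2_243, R7_293, R2_264⟩, ⟨nat_lit 1, nat_lit 19824, nat_lit 10032, nat_lit 11808, nat_lit 18144, nat_lit 14016, R2_246, R14_378, R1_292⟩]⟩]⟩,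
 ⟨nat_lit 1, [⟨nat_lit 2, [⟨nat_lit 1, nat_lit 19872, nat_lit 10896, nat_lit 13104, nat_lit 15120, nat_lit 8160, R10_273, R12_315, R10_170⟩]⟩, ⟨nat_lit 6, [⟨nat_lit 1, nat_lit 19920, nat_lit 10704, nat_lit 12240, nat_lit 15264, nat_lit 15120, R1_255, R12_318, R1_315⟩]⟩]⟩,
 ⟨nat_lit 2, [⟨nat_lit 6, [⟨nat_lit 0, nat_lit 19680, nat_lit 12000, nat_lit 11712, nat_lit 13344, nat_lit 13488, R12_244, R2_278, R2_281⟩, ⟨nat_lit 1, nat_lit 19968, nat_lit 12048, nat_lit 11808, nat_lit 14256, nat_lit 14832, R12_246, R12_297, R1_309⟩, ⟨nat_lit 2, nat_lit 20064, nat_lit 12096, nat_lit 11760, nat_lit 14688, nat_lit 14640, R12_245, R1_306, R12_305⟩]⟩]⟩,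
 ⟨nat_lit 3, [⟨nat_lit 2, [⟨nat_lit 0, nat_lit 19728, nat_lit 11328, nat_lit 5280, nat_lit 9408, nat_lit 8112, R0_110, R2_196, R3_169⟩, ⟨nat_lit 1, nat_lit 20016, nat_lit 11424, nat_lit 5520, nat_lit 8976, nat_lit 8064, R0_115, R12_187, R10_168⟩, ⟨nat_lit 3, nat_lit 20112, nat_lit 11376, nat_lit 5328, nat_lit 10224, nat_lit 6144, R0_111, R1_213, R0_128⟩]⟩]⟩]], [[], [], [⟨nat_lit 0, [⟨nat_lit 2, [⟨nat_lit 5, nat_lit 22032, nat_lit 15168, nat_lit 17952, nat_lit 10944, nat_lit 8256, R3_374, R5_228, R11_172⟩]⟩]⟩,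
 ⟨nat_lit 1, [⟨nat_lit 2, [⟨nat_lit 5, nat_lit 22080, nat_lit 15216, nat_lit 12096, nat_lit 8112, nat_lit 10032, R10_252, R0_169, R11_209⟩]⟩]⟩,
 ⟨nat_lit 3, [⟨nat_lit 2, [⟨nat_lit 1, nat_lit 21984, nat_lit 15120, nat_lit 5424, nat_lit 10704, nat_lit 7104, R0_113, R1_223, R1_148⟩, ⟨nat_lit 5, nat_lit 22128, nat_lit 15264, nat_lit 5232, nat_lit 12960, nat_lit 8880, R0_109, R11_270, R11_185⟩]⟩]⟩]]], [[], [], [[], [], [], [], [], [], [⟨nat_lit 2, [⟨nat_lit 6, [⟨nat_lit 0, nat_lit 20160, nat_lit 11712, nat_lit 12000, nat_lit 13488, nat_lit 13344, R12_250, R2_281, R2_278⟩, ⟨nat_lit 1, nat_lit 20208, nat_lit 11760, nat_lit 12096, nat_lit 14640, nat_lit 14688, R12_252, R12_305, R1_306⟩, ⟨nat_lit 2, nat_lit 20256, nat_lit 11808, nat_lit 12048, nat_lit 14832, nat_lit 14256, R12_251, R1_309, R12_297⟩]⟩]⟩]]], [[], [], [[],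 [], [], [], [], [], [⟨nat_lit 3, [⟨nat_lit 2, [⟨nat_lit 1, nat_lit 20592, nat_lit 5760, nat_lit 17328, nat_lit 6144, nat_lit 7920, R11_361, R12_128, R10_165⟩]⟩]⟩]], [[], [], [⟨nat_lit 3, [⟨nat_lit 2, [⟨nat_lit 1, nat_lit 22176, nat_lit 6768, nat_lit 7296, nat_lit 7008, nat_lit 7008, R11_152, R1_146, R1_146⟩, ⟨nat_lit 5, nat_lit 22224, nat_lit 7200, nat_lit 6912, nat_lit 13008, nat_lit 8640, R11_144, R11_271, R11_180⟩]⟩]⟩]], [[], [], [], [⟨nat_lit 3, [⟨nat_lit 2, [⟨nat_lit 7, nat_lit 3120, nat_lit 5760, nat_lit 17808, nat_lit 6048, nat_lit 7872, R11_371, R2_126, R10_164⟩]⟩]⟩,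
 ⟨nat_lit 4, [⟨nat_lit 3, [⟨nat_lit 4, nat_lit 2544, nat_lit 3216, nat_lit 14592, nat_lit 12672, nat_lit 11184, R2_304, R6_264, R3_233⟩, ⟨nat_lit 5, nat_lit 2736, nat_lit 4080, nat_lit 15648, nat_lit 13008, nat_lit 12384, R2_326, R4_271, R0_258⟩, ⟨nat_lit 6, nat_lit 2928, nat_lit 6432, nat_lit 15168, nat_lit 15024, nat_lit 9120, R2_316, R8_313, R10_190⟩]⟩]⟩,
 ⟨nat_lit 6, [⟨nat_lit 3, [⟨nat_lit 6, nat_lit 2976, nat_lit 7008, nat_lit 16176, nat_lit 5952, nat_lit 10032, R1_337, R5_124, R10_209⟩]⟩]⟩,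
 ⟨nat_lit 7, [⟨nat_lit 0, [⟨nat_lit 4, nat_lit 2592, nat_lit 3792, nat_lit 3792, nat_lit 8064, nat_lit 8064, R2_79, R13_168, R13_168⟩, ⟨nat_lit 5, nat_lit 2784, nat_lit 4608, nat_lit 6768, nat_lit 6720, nat_lit 5856, R2_141, R3_140, R9_122⟩, ⟨nat_lit 6, nat_lit 3024, nat_lit 6768, nat_lit 4608, nat_lit 5856, nat_lit 6720, R2_96, R9_122, R3_140⟩, ⟨nat_lit 7, nat_lit 3168, nat_lit 5088, nat_lit 5088, nat_lit 13200, nat_lit 13200, R2_106, R3_275, R3_275⟩]⟩, ⟨nat_lit 2, [⟨nat_lit 4, nat_lit 2640, nat_lit 3888, nat_lit 3264, nat_lit 8160, nat_lit 8976, R1_68, R13_170, R3_187⟩, ⟨nat_lit 5, nat_lit 2832, nat_lit 4704, nat_lit 5472, nat_lit 6816, nat_lit 3696, R1_114, R3_142, R0_77⟩, ⟨nat_lit 7, nat_lit 3216, nat_lit 5136, nat_lit 3792, nat_lit 13344, nat_lit 5424, R1_79, R3_278, R10_113⟩]⟩, ⟨nat_lit 3, [⟨nat_lit 4,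 nat_lit 2688, nat_lit 3840, nat_lit 16848, nat_lit 8112, nat_lit 12096, R12_351, R13_169, R3_252⟩, ⟨nat_lit 5, nat_lit 2880, nat_lit 4656, nat_lit 17280, nat_lit 6768, nat_lit 13344, R12_360, R3_141, R0_278⟩, ⟨nat_lit 6, nat_lit 3072, nat_lit 6816, nat_lit 17040, nat_lit 5904, nat_lit 10608, R12_355, R9_123, R10_221⟩]⟩]⟩]], [], [[], [], [], [⟨nat_lit 3, [⟨nat_lit 2, [⟨nat_lit 7, nat_lit 9360, nat_lit 4464, nat_lit 21744, nat_lit 4752, nat_lit 7968, R11_453, R1_99, R10_166⟩]⟩]⟩,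
 ⟨nat_lit 4, [⟨nat_lit 3, [⟨nat_lit 4, nat_lit 8976, nat_lit 2688, nat_lit 14832, nat_lit 13200, nat_lit 15216, R2_309, R4_275, R3_317⟩, ⟨nat_lit 6, nat_lit 9168, nat_lit 5136, nat_lit 15456, nat_lit 16608, nat_lit 9408, R2_322, R5_346, R10_196⟩]⟩]⟩,
 ⟨nat_lit 6, [⟨nat_lit 3, [⟨nat_lit 6, nat_lit 9216, nat_lit 5712, nat_lit 16464, nat_lit 5568, nat_lit 10176, R1_343, R11_116, R10_212⟩]⟩]⟩,
 ⟨nat_lit 7, [⟨nat_lit 0, [⟨nat_lit 4, nat_lit 9024, nat_lit 3264, nat_lit 3888, nat_lit 8976, nat_lit 8160, R2_81, R3_187, R13_170⟩, ⟨nat_lit 6, nat_lit 9264, nat_lit 5472, nat_lit 4704, nat_lit 3696, nat_lit 6816, R2_98, R0_77, R3_142⟩, ⟨nat_lit 7, nat_lit 9408, nat_lit 3792, nat_lit 5136, nat_lit 5424, nat_lit 13344, R2_107, R10_113, R3_278⟩]⟩, ⟨nat_lit 2, [⟨nat_lit 4, nat_lit 9072, nat_lit 3360, nat_lit 3360, nat_lit 9120,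 nat_lit 9120, R1_70, R3_190, R3_190⟩, ⟨nat_lit 7, nat_lit 9456, nat_lit 3840, nat_lit 3840, nat_lit 5472, nat_lit 5472, R1_80, R10_114, R10_114⟩]⟩, ⟨nat_lit 3, [⟨nat_lit 4, nat_lit 9120, nat_lit 3312, nat_lit 16992, nat_lit 9216, nat_lit 15552, R12_354, R3_192, R3_324⟩, ⟨nat_lit 6, nat_lit 9312, nat_lit 5520, nat_lit 17184, nat_lit 3744, nat_lit 10896, R12_358, R0_78, R10_227⟩]⟩]⟩], [], [], [], [⟨nat_lit 0, [⟨nat_lit 6, [⟨nat_lit 0, nat_lit 6528, nat_lit 7008, nat_lit 14880, nat_lit 12768, nat_lit 7872, R2_310, R4_266, R2_164⟩, ⟨nat_lit 3, nat_lit 6816, nat_lit 7104, nat_lit 15504, nat_lit 16752, nat_lit 8400, R2_323, R5_349, R1_175⟩]⟩]⟩,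
 ⟨nat_lit 2, [⟨nat_lit 4, [⟨nat_lit 2, nat_lit 6624, nat_lit 7344, nat_lit 5760, nat_lit 7872, nat_lit 6048, R2_120, R10_164, R2_126⟩]⟩, ⟨nat_lit 6, [⟨nat_lit 0, nat_lit 6576, nat_lit 7056, nat_lit 16944, nat_lit 8016, nat_lit 9120, R12_353, R3_167, R2_190⟩, ⟨nat_lit 2, nat_lit 6672, nat_lit 7440, nat_lit 17232, nat_lit 7920, nat_lit 6144, R12_359, R10_165, R12_128⟩, ⟨nat_lit 3, nat_lit 6864, nat_lit 7248, nat_lit 17136, nat_lit 6096, nat_lit 9936, R12_357, R0_127, R1_207⟩]⟩, ⟨nat_lit 7, [⟨nat_lit 2, nat_lit 6720, nat_lit 7392, nat_lit 4464, nat_lit 7968, nat_lit 4752, R1_93, R10_166, R1_99⟩]⟩]⟩,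
 ⟨nat_lit 3, [⟨nat_lit 2, [⟨nat_lit 3, nat_lit 6912, nat_lit 7200, nat_lit 22224, nat_lit 8640, nat_lit 8640, R11_463, R11_180, R11_180⟩, ⟨nat_lit 7, nat_lit 7296, nat_lit 6768, nat_lit 22176, nat_lit 7008, nat_lit 7008, R11_462, R1_146, R1_146⟩]⟩, ⟨nat_lit 6, [⟨nat_lit 3, nat_lit 6960, nat_lit 7152, nat_lit 16512, nat_lit 8688, nat_lit 8832, R1_344, R11_181, R1_184⟩]⟩]⟩,
 ⟨nat_lit 4, [⟨nat_lit 3, [⟨nat_lit 4, nat_lit 7008, nat_lit 6528, nat_lit 14880, nat_lit 12768, nat_lit 7872, R2_310, R4_266, R2_164⟩, ⟨nat_lit 6, nat_lit 7104, nat_lit 6816, nat_lit 15504, nat_lit 16752, nat_lit 8400, R2_323, R5_349, R1_175⟩]⟩]⟩,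
 ⟨nat_lit 6, [⟨nat_lit 3, [⟨nat_lit 6, nat_lit 7152, nat_lit 6960, nat_lit 16512, nat_lit 8688, nat_lit 8832, R1_344, R11_181, R1_184⟩]⟩, ⟨nat_lit 7, [⟨nat_lit 2, nat_lit 6768, nat_lit 7296, nat_lit 22176, nat_lit 7008, nat_lit 7008, R11_462, R1_146, R1_146⟩, ⟨nat_lit 6, nat_lit 7200, nat_lit 6912, nat_lit 22224, nat_lit 8640, nat_lit 8640, R11_463, R11_180, R11_180⟩]⟩]⟩,
 ⟨nat_lit 7, [⟨nat_lit 0, [⟨nat_lit 7, nat_lit 7344, nat_lit 6624, nat_lit 5760, nat_lit 7872, nat_lit 6048, R2_120, R10_164, R2_126⟩]⟩, ⟨nat_lit 2, [⟨nat_lit 7, nat_lit 7392, nat_lit 6720, nat_lit 4464, nat_lit 7968, nat_lit 4752, R1_93, R10_166, R1_99⟩]⟩, ⟨nat_lit 3, [⟨nat_lit 4, nat_lit 7056, nat_lit 6576, nat_lit 16944, nat_lit 8016, nat_lit 9120, R12_353, R3_167, R2_190⟩, ⟨nat_lit 6, nat_lit 7248, nat_lit 6864, nat_lit 17136, nat_lit 6096,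 nat_lit 9936, R12_357, R0_127, R1_207⟩, ⟨nat_lit 7, nat_lit 7440, nat_lit 6672, nat_lit 17232, nat_lit 7920, nat_lit 6144, R12_359, R10_165, R12_128⟩]⟩]⟩]], [[⟨nat_lit 3, [⟨nat_lit 2, [⟨nat_lit 4, nat_lit 15696, nat_lit 14880, nat_lit 18864, nat_lit 7872, nat_lit 12768, R11_393, R2_164, R4_266⟩, ⟨nat_lit 5, nat_lit 15840, nat_lit 15504, nat_lit 19056, nat_lit 8400, nat_lit 16752, R11_397, R1_175, R5_349⟩]⟩]⟩,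
 ⟨nat_lit 7, [⟨nat_lit 0, [⟨nat_lit 4, nat_lit 15744, nat_lit 14592, nat_lit 3216, nat_lit 11184, nat_lit 12672, R2_67, R3_233, R6_264⟩, ⟨nat_lit 5, nat_lit 15888, nat_lit 15168, nat_lit 6432, nat_lit 9120, nat_lit 15024, R2_134, R10_190, R8_313⟩, ⟨nat_lit 6, nat_lit 15984, nat_lit 15648, nat_lit 4080, nat_lit 12384, nat_lit 13008, R2_85, R0_258, R4_271⟩]⟩, ⟨nat_lit 2, [⟨nat_lit 4, nat_lit 15792, nat_lit 14832, nat_lit 2688, nat_lit 15216, nat_lit 13200, R1_56, R3_317, R4_275⟩, ⟨nat_lit 5, nat_lit 15936, nat_lit 15456, nat_lit 5136, nat_lit 9408, nat_lit 16608, R1_107, R10_196, R5_346⟩]⟩]⟩], [], [⟨nat_lit 3, [⟨nat_lit 2, [⟨nat_lit 5, nat_lit 16416, nat_lit 16512, nat_lit 21216, nat_lit 8832, nat_lit 8688, R11_442, R1_184, R11_181⟩]⟩]⟩,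
 ⟨nat_lit 7, [⟨nat_lit 0, [⟨nat_lit 5, nat_lit 16464, nat_lit 16176, nat_lit 7008, nat_lit 10032, nat_lit 5952, R2_146, R10_209, R5_124⟩]⟩, ⟨nat_lit 2, [⟨nat_lit 5, nat_lit 16512, nat_lit 16464, nat_lit 5712, nat_lit 10176, nat_lit 5568, R1_119, R10_212, R11_116⟩]⟩]⟩], [⟨nat_lit 3, [⟨nat_lit 2, [⟨nat_lit 4, nat_lit 16848, nat_lit 5520, nat_lit 20400, nat_lit 9120, nat_lit 8016, R11_425, R2_190, R3_167⟩, ⟨nat_lit 5, nat_lit 17040, nat_lit 5712, nat_lit 20736, nat_lit 9936, nat_lit 6096, R11_432, R1_207, R0_127⟩, ⟨nat_lit 7, nat_lit 17328, nat_lit 5760, nat_lit 20592, nat_lit 6144, nat_lit 7920, R11_429, R12_128, R10_165⟩]⟩]⟩,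
 ⟨nat_lit 7, [⟨nat_lit 0, [⟨nat_lit 4, nat_lit 16896, nat_lit 5376, nat_lit 3840, nat_lit 12096, nat_lit 8112, R2_80, R3_252, R13_169⟩, ⟨nat_lit 5, nat_lit 17088, nat_lit 5568, nat_lit 6816, nat_lit 10608, nat_lit 5904, R2_142, R10_221, R9_123⟩, ⟨nat_lit 6, nat_lit 17232, nat_lit 5808, nat_lit 4656, nat_lit 13344, nat_lit 6768, R2_97, R0_278, R3_141⟩]⟩, ⟨nat_lit 2, [⟨nat_lit 4, nat_lit 16944, nat_lit 5472, nat_lit 3312, nat_lit 15552, nat_lit 9216, R1_69, R3_324, R3_192⟩, ⟨nat_lit 5, nat_lit 17136, nat_lit 5664, nat_lit 5520, nat_lit 10896, nat_lit 3744, R1_115, R10_227, R0_78⟩]⟩, ⟨nat_lit 3, [⟨nat_lit 4, nat_lit 16992, nat_lit 5424, nat_lit 16896, nat_lit 14784, nat_lit 14784, R12_352, R3_308, R3_308⟩, ⟨nat_lit 5, nat_lit 17184, nat_lit 5616, nat_lit 17328, nat_lit 11280, nat_lit 13536, R12_361, R10_235, R0_282⟩,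 ⟨nat_lit 6, nat_lit 17280, nat_lit 5856, nat_lit 17088, nat_lit 13536, nat_lit 11280, R12_356, R0_282, R10_235⟩]⟩]⟩]]], [[], [], [], [], [[⟨nat_lit 4, [⟨nat_lit 0, [⟨nat_lit 4, nat_lit 0, nat_lit 480, nat_lit 3408, nat_lit 0, nat_lit 0, R6_71, R6_0, R6_0⟩, ⟨nat_lit 5, nat_lit 144, nat_lit 1056, nat_lit 4272, nat_lit 0, nat_lit 3264, R6_89, R4_0, R8_68⟩, ⟨nat_lit 6, nat_lit 288, nat_lit 2784, nat_lit 3792, nat_lit 3264, nat_lit 0, R6_79, R8_68, R4_0⟩]⟩, ⟨nat_lit 1, [⟨nat_lit 4, nat_lit 48, nat_lit 768, nat_lit 1488, nat_lit 288, nat_lit 12672, R8_31, R6_6, R8_264⟩, ⟨nat_lit 5, nat_lit 192, nat_lit 1344, nat_lit 1584, nat_lit 192, nat_lit 2208, R8_33, R4_4, R9_46⟩, ⟨nat_lit 6, nat_lit 336, nat_lit 2928, nat_lit 1536, nat_lit 3600, nat_lit 1872, R8_32, R8_75, R5_39⟩]⟩, ⟨nat_lit 2, [⟨nat_lit 4, nat_lit 96, nat_lit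 912, nat_lit 3168, nat_lit 48, nat_lit 12096, R4_66, R6_1, R4_252⟩, ⟨nat_lit 5, nat_lit 240, nat_lit 1392, nat_lit 4368, nat_lit 48, nat_lit 14496, R4_91, R4_1, R5_302⟩]⟩]⟩,
 ⟨nat_lit 6, [⟨nat_lit 0, [⟨nat_lit 6, nat_lit 384, nat_lit 10416, nat_lit 960, nat_lit 4752, nat_lit 480, R4_20, R5_99, R4_10⟩]⟩, ⟨nat_lit 1, [⟨nat_lit 6, nat_lit 432, nat_lit 10464, nat_lit 288, nat_lit 4800, nat_lit 1920, R5_6, R5_100, R5_40⟩]⟩]⟩], [⟨nat_lit 4, [⟨nat_lit 1, [⟨nat_lit 4, nat_lit 1776, nat_lit 2400, nat_lit 2160, nat_lit 2592, nat_lit 8352, R8_45, R6_54, R5_174⟩, ⟨nat_lit 5, nat_lit 1824, nat_lit 2448, nat_lit 2304, nat_lit 2496, nat_lit 672, R8_48, R4_52, R0_14⟩, ⟨nat_lit 6, nat_lit 1872, nat_lit 2544, nat_lit 2208, nat_lit 3648, nat_lit 1872, R8_46, R8_76, R11_39⟩]⟩]⟩,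
 ⟨nat_lit 6, [⟨nat_lit 1, [⟨nat_lit 6, nat_lit 1920, nat_lit 10128, nat_lit 6480, nat_lit 6480, nat_lit 1920, R5_135, R5_135, R11_40⟩]⟩]⟩], [⟨nat_lit 4, [⟨nat_lit 0, [⟨nat_lit 5, nat_lit 1344, nat_lit 960, nat_lit 4320, nat_lit 480, nat_lit 4752, R6_90, R4_10, R5_99⟩]⟩, ⟨nat_lit 1, [⟨nat_lit 5, nat_lit 1392, nat_lit 1248, nat_lit 2784, nat_lit 768, nat_lit 11712, R8_58, R4_16, R0_244⟩]⟩, ⟨nat_lit 2, [⟨nat_lit 5, nat_lit 1440, nat_lit 1392, nat_lit 4416, nat_lit 528, nat_lit 4752, R4_92, R4_11, R11_99⟩]⟩]⟩]], [[⟨nat_lit 4, [⟨nat_lit 0, [⟨nat_lit 4, nat_lit 10368, nat_lit 1488, nat_lit 8448, nat_lit 12672, nat_lit 288, R6_176, R8_264, R6_6⟩, ⟨nat_lit 5, nat_lit 10656, nat_lit 1536, nat_lit 9696, nat_lit 1872, nat_lit 3600, R6_202, R5_39, R8_75⟩, ⟨nat_lit 6, nat_lit 10944, nat_lit 1584, nat_lit 9456, nat_lit 2208,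 nat_lit 192, R6_197, R9_46, R4_4⟩]⟩, ⟨nat_lit 1, [⟨nat_lit 4, nat_lit 10416, nat_lit 6288, nat_lit 6288, nat_lit 16848, nat_lit 16848, R8_131, R8_351, R8_351⟩, ⟨nat_lit 5, nat_lit 10704, nat_lit 6336, nat_lit 6384, nat_lit 2400, nat_lit 2688, R8_133, R5_50, R9_56⟩, ⟨nat_lit 6, nat_lit 10992, nat_lit 6384, nat_lit 6336, nat_lit 2688, nat_lit 2400, R8_132, R9_56, R5_50⟩]⟩, ⟨nat_lit 2, [⟨nat_lit 4, nat_lit 10464, nat_lit 9360, nat_lit 9072, nat_lit 13584, nat_lit 14304, R4_189, R8_283, R4_298⟩, ⟨nat_lit 5, nat_lit 10752, nat_lit 9408, nat_lit 10656, nat_lit 2064, nat_lit 17184, R4_222, R5_43, R5_358⟩]⟩]⟩,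
 ⟨nat_lit 5, [⟨nat_lit 0, [⟨nat_lit 4, nat_lit 10512, nat_lit 2160, nat_lit 2400, nat_lit 8352, nat_lit 2592, R8_50, R5_174, R6_54⟩, ⟨nat_lit 5, nat_lit 10800, nat_lit 2208, nat_lit 2544, nat_lit 10800, nat_lit 3648, R8_53, R11_225, R8_76⟩, ⟨nat_lit 6, nat_lit 11040, nat_lit 2304, nat_lit 2448, nat_lit 672, nat_lit 2496, R8_51, R0_14, R4_52⟩]⟩, ⟨nat_lit 1, [⟨nat_lit 4, nat_lit 10560, nat_lit 6672, nat_lit 6096, nat_lit 9696, nat_lit 16992, R9_127, R5_202, R8_354⟩, ⟨nat_lit 5, nat_lit 10848, nat_lit 6720, nat_lit 6192, nat_lit 12144, nat_lit 2736, R9_129, R11_253, R9_57⟩, ⟨nat_lit 6, nat_lit 11088, nat_lit 6816, nat_lit 6144, nat_lit 1152, nat_lit 2496, R9_128, R0_24, R5_52⟩]⟩, ⟨nat_lit 2, [⟨nat_lit 4, nat_lit 10608, nat_lit 9840, nat_lit 6288, nat_lit 8928, nat_lit 15216, R5_131, R5_186, R4_317⟩, ⟨nat_lit 5,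 nat_lit 10896, nat_lit 9888, nat_lit 6432, nat_lit 11376, nat_lit 17232, R5_134, R11_237, R5_359⟩]⟩]⟩,
 ⟨nat_lit 6, [⟨nat_lit 0, [⟨nat_lit 6, nat_lit 11136, nat_lit 2784, nat_lit 1248, nat_lit 11712, nat_lit 768, R4_26, R0_244, R4_16⟩]⟩, ⟨nat_lit 1, [⟨nat_lit 6, nat_lit 11184, nat_lit 6864, nat_lit 384, nat_lit 14544, nat_lit 2448, R5_8, R0_303, R5_51⟩]⟩]⟩], [⟨nat_lit 4, [⟨nat_lit 1, [⟨nat_lit 4, nat_lit 13440, nat_lit 1152, nat_lit 6672, nat_lit 16992, nat_lit 9696, R8_139, R8_354, R5_202⟩, ⟨nat_lit 5, nat_lit 13536, nat_lit 1200, nat_lit 6816, nat_lit 2496, nat_lit 1152, R8_142, R5_52, R0_24⟩, ⟨nat_lit 6, nat_lit 13632, nat_lit 1296, nat_lit 6720, nat_lit 2736, nat_lit 2400, R8_140, R9_57, R11_50⟩]⟩]⟩,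
 ⟨nat_lit 5, [⟨nat_lit 1, [⟨nat_lit 4, nat_lit 13488, nat_lit 7008, nat_lit 6768, nat_lit 11952, nat_lit 11952, R9_141, R5_249, R5_249⟩, ⟨nat_lit 5, nat_lit 13584, nat_lit 7056, nat_lit 6912, nat_lit 14928, nat_lit 1200, R9_144, R11_311, R0_25⟩, ⟨nat_lit 6, nat_lit 13680, nat_lit 7152, nat_lit 6816, nat_lit 1200, nat_lit 2496, R9_142, R0_25, R11_52⟩]⟩]⟩,
 ⟨nat_lit 6, [⟨nat_lit 1, [⟨nat_lit 6, nat_lit 13728, nat_lit 10608, nat_lit 6864, nat_lit 14688, nat_lit 2448, R5_143, R0_306, R11_51⟩]⟩]⟩], [⟨nat_lit 4, [⟨nat_lit 0, [⟨nat_lit 5, nat_lit 12624, nat_lit 288, nat_lit 9744, nat_lit 1920, nat_lit 4800, R6_203, R5_40, R5_100⟩]⟩, ⟨nat_lit 1, [⟨nat_lit 5, nat_lit 12672, nat_lit 384, nat_lit 6864, nat_lit 2448, nat_lit 14544, R8_143, R5_51, R0_303⟩]⟩, ⟨nat_lit 2, [⟨nat_lit 5, nat_lit 12720, nat_lit 624, nat_lit 10704,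 nat_lit 2112, nat_lit 4800, R4_223, R5_44, R11_100⟩]⟩]⟩,
 ⟨nat_lit 5, [⟨nat_lit 0, [⟨nat_lit 5, nat_lit 12768, nat_lit 6480, nat_lit 10128, nat_lit 12768, nat_lit 6480, R8_211, R11_266, R5_135⟩]⟩, ⟨nat_lit 1, [⟨nat_lit 5, nat_lit 12816, nat_lit 6864, nat_lit 7392, nat_lit 13200, nat_lit 14688, R9_154, R11_275, R0_306⟩]⟩, ⟨nat_lit 2, [⟨nat_lit 5, nat_lit 12864, nat_lit 7584, nat_lit 7296, nat_lit 12912, nat_lit 6096, R5_152, R11_269, R11_127⟩]⟩]⟩]], [[⟨nat_lit 4, [⟨nat_lit 0, [⟨nat_lit 4, nat_lit 7488, nat_lit 3168, nat_lit 10752, nat_lit 12096, nat_lit 48, R6_224, R4_252, R6_1⟩, ⟨nat_lit 6, nat_lit 7632, nat_lit 4368, nat_lit 10800, nat_lit 14496, nat_lit 48, R6_225, R5_302, R4_1⟩]⟩, ⟨nat_lit 1, [⟨nat_lit 4, nat_lit 7536, nat_lit 9072, nat_lit 9360, nat_lit 14304, nat_lit 13584, R8_195, R4_298, R8_283⟩, ⟨nat_lit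 6, nat_lit 7680, nat_lit 10656, nat_lit 9408, nat_lit 17184, nat_lit 2064, R8_196, R5_358, R5_43⟩]⟩, ⟨nat_lit 2, [⟨nat_lit 4, nat_lit 7584, nat_lit 11616, nat_lit 11616, nat_lit 13344, nat_lit 13344, R4_242, R4_278, R4_278⟩]⟩]⟩,
 ⟨nat_lit 6, [⟨nat_lit 0, [⟨nat_lit 6, nat_lit 7728, nat_lit 4416, nat_lit 1392, nat_lit 4752, nat_lit 528, R4_29, R11_99, R4_11⟩]⟩, ⟨nat_lit 1, [⟨nat_lit 6, nat_lit 7776, nat_lit 10704, nat_lit 624, nat_lit 4800, nat_lit 2112, R5_13, R11_100, R5_44⟩]⟩]⟩], [⟨nat_lit 4, [⟨nat_lit 1, [⟨nat_lit 4, nat_lit 8400, nat_lit 6288, nat_lit 9840, nat_lit 15216, nat_lit 8928, R8_205, R4_317, R5_186⟩, ⟨nat_lit 6, nat_lit 8448, nat_lit 6432, nat_lit 9888, nat_lit 17232, nat_lit 2064, R8_206, R5_359, R11_43⟩]⟩]⟩,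
 ⟨nat_lit 6, [⟨nat_lit 1, [⟨nat_lit 6, nat_lit 8496, nat_lit 7296, nat_lit 7584, nat_lit 6096, nat_lit 2112, R5_158, R11_127, R11_44⟩]⟩]⟩]]], [[], [[], [], [⟨nat_lit 1, [⟨nat_lit 2, [⟨nat_lit 1, nat_lit 21504, nat_lit 16320, nat_lit 5760, nat_lit 15408, nat_lit 7152, R1_120, R1_321, R1_149⟩, ⟨nat_lit 5, nat_lit 21552, nat_lit 16464, nat_lit 5712, nat_lit 18672, nat_lit 9216, R1_119, R10_389, R11_192⟩]⟩]⟩,
 ⟨nat_lit 5, [⟨nat_lit 0, [⟨nat_lit 5, nat_lit 21600, nat_lit 16368, nat_lit 7344, nat_lit 8784, nat_lit 7536, R5_153, R1_183, R5_157⟩]⟩, ⟨nat_lit 1, [⟨nat_lit 5, nat_lit 21648, nat_lit 16416, nat_lit 13968, nat_lit 8880, nat_lit 10128, R0_291, R1_185, R0_211⟩]⟩, ⟨nat_lit 2, [⟨nat_lit 5, nat_lit 21696, nat_lit 16512, nat_lit 21216, nat_lit 8832, nat_lit 7152, R11_442, R1_184, R11_149⟩]⟩]⟩]], [], [], [], [[⟨nat_lit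 5, [⟨nat_lit 0, [⟨nat_lit 4, nat_lit 11232, nat_lit 16896, nat_lit 4704, nat_lit 8448, nat_lit 10272, R5_98, R5_176, R6_214⟩, ⟨nat_lit 5, nat_lit 11376, nat_lit 17232, nat_lit 6432, nat_lit 10896, nat_lit 10896, R5_134, R11_227, R8_227⟩, ⟨nat_lit 6, nat_lit 11520, nat_lit 17616, nat_lit 5376, nat_lit 5904, nat_lit 11328, R5_112, R0_123, R4_236⟩]⟩, ⟨nat_lit 1, [⟨nat_lit 4, nat_lit 11280, nat_lit 17040, nat_lit 3936, nat_lit 9744, nat_lit 17520, R0_82, R5_203, R8_365⟩, ⟨nat_lit 5, nat_lit 11424, nat_lit 17424, nat_lit 4032, nat_lit 12192, nat_lit 11616, R0_84, R11_254, R9_242⟩, ⟨nat_lit 6, nat_lit 11568, nat_lit 17760, nat_lit 3984, nat_lit 6288, nat_lit 13584, R0_83, R0_131, R5_283⟩]⟩, ⟨nat_lit 2, [⟨nat_lit 4, nat_lit 11328, nat_lit 17088, nat_lit 5904, nat_lit 9024, nat_lit 15504, R11_123, R5_188, R4_323⟩, ⟨nat_lit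 5, nat_lit 11472, nat_lit 17520, nat_lit 6048, nat_lit 11472, nat_lit 17520, R11_126, R11_239, R5_365⟩]⟩]⟩], [⟨nat_lit 5, [⟨nat_lit 1, [⟨nat_lit 4, nat_lit 13776, nat_lit 4848, nat_lit 4608, nat_lit 12000, nat_lit 12048, R0_96, R5_250, R5_251⟩, ⟨nat_lit 5, nat_lit 13824, nat_lit 4896, nat_lit 4752, nat_lit 14976, nat_lit 10416, R0_99, R11_312, R0_217⟩, ⟨nat_lit 6, nat_lit 13872, nat_lit 4992, nat_lit 4656, nat_lit 6336, nat_lit 16800, R0_97, R0_132, R11_350⟩]⟩]⟩], [⟨nat_lit 5, [⟨nat_lit 0, [⟨nat_lit 5, nat_lit 12912, nat_lit 6096, nat_lit 7296, nat_lit 12864, nat_lit 7584, R5_152, R11_268, R5_158⟩]⟩, ⟨nat_lit 1, [⟨nat_lit 5, nat_lit 12960, nat_lit 6480, nat_lit 5232, nat_lit 13248, nat_lit 15264, R0_109, R11_276, R0_318⟩]⟩, ⟨nat_lit 2, [⟨nat_lit 5, nat_lit 13008, nat_lit 7200, nat_lit 6912, nat_lit 13008, nat_lit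 7200, R11_144, R11_271, R11_150⟩]⟩]⟩]]], [[], [], [], [], [[], [⟨nat_lit 4, [⟨nat_lit 1, [⟨nat_lit 4, nat_lit 1968, nat_lit 4704, nat_lit 16896, nat_lit 10272, nat_lit 8448, R5_352, R6_214, R5_176⟩, ⟨nat_lit 5, nat_lit 2016, nat_lit 5376, nat_lit 17616, nat_lit 11328, nat_lit 5904, R5_367, R4_236, R0_123⟩, ⟨nat_lit 6, nat_lit 2064, nat_lit 6432, nat_lit 17232, nat_lit 10896, nat_lit 8448, R5_359, R8_227, R11_176⟩]⟩]⟩,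
 ⟨nat_lit 6, [⟨nat_lit 1, [⟨nat_lit 6, nat_lit 2112, nat_lit 7296, nat_lit 21936, nat_lit 7584, nat_lit 8496, R11_457, R5_158, R11_177⟩]⟩, ⟨nat_lit 5, [⟨nat_lit 6, nat_lit 2160, nat_lit 7344, nat_lit 16368, nat_lit 7536, nat_lit 8784, R1_341, R5_157, R1_183⟩]⟩]⟩]], [[], [⟨nat_lit 4, [⟨nat_lit 1, [⟨nat_lit 4, nat_lit 13920, nat_lit 3936, nat_lit 17040, nat_lit 17520, nat_lit 9744, R5_355, R8_365, R5_203⟩, ⟨nat_lit 5, nat_lit 14016, nat_lit 3984, nat_lit 17760, nat_lit 13584, nat_lit 6288, R5_370, R5_283, R0_131⟩, ⟨nat_lit 6, nat_lit 14112, nat_lit 4032, nat_lit 17424, nat_lit 11616, nat_lit 8832, R5_363, R9_242, R11_184⟩]⟩]⟩,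
 ⟨nat_lit 5, [⟨nat_lit 1, [⟨nat_lit 4, nat_lit 13968, nat_lit 4608, nat_lit 4848, nat_lit 12048, nat_lit 12000, R0_101, R5_251, R5_250⟩, ⟨nat_lit 5, nat_lit 14064, nat_lit 4656, nat_lit 4992, nat_lit 15024, nat_lit 6336, R0_104, R11_313, R0_132⟩, ⟨nat_lit 6, nat_lit 14160, nat_lit 4752, nat_lit 4896, nat_lit 10416, nat_lit 8928, R0_102, R0_217, R11_186⟩]⟩]⟩,
 ⟨nat_lit 6, [⟨nat_lit 1, [⟨nat_lit 6, nat_lit 14208, nat_lit 5232, nat_lit 22128, nat_lit 15264, nat_lit 8880, R11_461, R0_318, R11_185⟩]⟩, ⟨nat_lit 5, [⟨nat_lit 6, nat_lit 14256, nat_lit 13968, nat_lit 16416, nat_lit 10128, nat_lit 8880, R1_342, R0_211, R1_185⟩]⟩]⟩]], [[], [⟨nat_lit 4, [⟨nat_lit 1, [⟨nat_lit 4, nat_lit 8544, nat_lit 4704, nat_lit 17088, nat_lit 15504, nat_lit 9024, R5_356, R4_323, R5_188⟩, ⟨nat_lit 6, nat_lit 8592, nat_lit 6048, nat_lit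 17520, nat_lit 17520, nat_lit 8592, R5_365, R5_365, R11_179⟩]⟩]⟩,
 ⟨nat_lit 6, [⟨nat_lit 1, [⟨nat_lit 6, nat_lit 8640, nat_lit 6912, nat_lit 22224, nat_lit 7200, nat_lit 8640, R11_463, R11_150, R11_180⟩]⟩, ⟨nat_lit 5, [⟨nat_lit 6, nat_lit 8688, nat_lit 6960, nat_lit 16512, nat_lit 7152, nat_lit 8832, R1_344, R11_149, R1_184⟩]⟩]⟩], [], [], [], [⟨nat_lit 6, [⟨nat_lit 5, [⟨nat_lit 2, nat_lit 5520, nat_lit 5760, nat_lit 16320, nat_lit 7152, nat_lit 15408, R1_340, R1_149, R1_321⟩, ⟨nat_lit 6, nat_lit 5568, nat_lit 5712, nat_lit 16464, nat_lit 9216, nat_lit 18672, R1_343, R11_192, R10_389⟩]⟩]⟩]]], [[], [], [], [], [[⟨nat_lit 4, [⟨nat_lit 0, [⟨nat_lit 4, nat_lit 480, nat_lit 4752, nat_lit 19872, nat_lit 4848, nat_lit 4848, R13_414, R6_101, R6_101⟩, ⟨nat_lit 5, nat_lit 768, nat_lit 6384, nat_lit 21408, nat_lit 5232,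 nat_lit 8112, R13_446, R4_109, R8_169⟩, ⟨nat_lit 6, nat_lit 1056, nat_lit 8544, nat_lit 20592, nat_lit 8112, nat_lit 5232, R13_429, R8_169, R4_109⟩]⟩, ⟨nat_lit 1, [⟨nat_lit 4, nat_lit 528, nat_lit 4800, nat_lit 16128, nat_lit 5136, nat_lit 12816, R9_336, R6_107, R8_267⟩, ⟨nat_lit 5, nat_lit 816, nat_lit 6432, nat_lit 17808, nat_lit 5424, nat_lit 8976, R9_371, R4_113, R9_187⟩, ⟨nat_lit 6, nat_lit 1104, nat_lit 8592, nat_lit 16992, nat_lit 8832, nat_lit 10368, R9_354, R8_184, R5_216⟩]⟩, ⟨nat_lit 2, [⟨nat_lit 4, nat_lit 576, nat_lit 4848, nat_lit 16128, nat_lit 4896, nat_lit 12192, R3_336, R6_102, R4_254⟩, ⟨nat_lit 5, nat_lit 864, nat_lit 6480, nat_lit 17472, nat_lit 5280, nat_lit 14688, R3_364, R4_110, R5_306⟩]⟩]⟩,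
 ⟨nat_lit 6, [⟨nat_lit 0, [⟨nat_lit 6, nat_lit 1152, nat_lit 9504, nat_lit 4656, nat_lit 5040, nat_lit 6864, R3_97, R5_105, R4_143⟩]⟩, ⟨nat_lit 1, [⟨nat_lit 6, nat_lit 1200, nat_lit 9552, nat_lit 14592, nat_lit 5088, nat_lit 10464, R0_304, R5_106, R5_218⟩]⟩]⟩,
 ⟨nat_lit 7, [⟨nat_lit 0, [⟨nat_lit 4, nat_lit 624, nat_lit 5376, nat_lit 96, nat_lit 5712, nat_lit 6048, R3_2, R13_119, R6_126⟩, ⟨nat_lit 5, nat_lit 912, nat_lit 6960, nat_lit 2352, nat_lit 3984, nat_lit 8208, R3_49, R3_83, R8_171⟩, ⟨nat_lit 6, nat_lit 1248, nat_lit 8976, nat_lit 816, nat_lit 4464, nat_lit 6384, R3_17, R9_93, R4_133⟩]⟩, ⟨nat_lit 1, [⟨nat_lit 4, nat_lit 672, nat_lit 5424, nat_lit 192, nat_lit 5808, nat_lit 12960, R0_4, R13_121, R8_270⟩, ⟨nat_lit 5, nat_lit 960, nat_lit 7008, nat_lit 1968, nat_lit 4080, nat_lit 9072, R0_41, R3_85, R9_189⟩,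 ⟨nat_lit 6, nat_lit 1296, nat_lit 9024, nat_lit 1008, nat_lit 4512, nat_lit 10416, R0_21, R9_94, R5_217⟩]⟩, ⟨nat_lit 2, [⟨nat_lit 4, nat_lit 720, nat_lit 5472, nat_lit 3168, nat_lit 5760, nat_lit 12336, R10_66, R13_120, R4_257⟩, ⟨nat_lit 5, nat_lit 1008, nat_lit 7056, nat_lit 5856, nat_lit 4032, nat_lit 14736, R10_122, R3_84, R5_307⟩]⟩]⟩], [⟨nat_lit 4, [⟨nat_lit 1, [⟨nat_lit 4, nat_lit 2208, nat_lit 3888, nat_lit 16224, nat_lit 7152, nat_lit 8400, R9_338, R6_149, R5_175⟩, ⟨nat_lit 5, nat_lit 2304, nat_lit 4800, nat_lit 17856, nat_lit 7824, nat_lit 8496, R9_372, R4_163, R0_177⟩, ⟨nat_lit 6, nat_lit 2400, nat_lit 6192, nat_lit 17088, nat_lit 8928, nat_lit 13632, R9_356, R8_186, R11_284⟩]⟩]⟩,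
 ⟨nat_lit 6, [⟨nat_lit 1, [⟨nat_lit 6, nat_lit 2448, nat_lit 7392, nat_lit 14688, nat_lit 6864, nat_lit 13728, R0_306, R5_143, R11_286⟩]⟩]⟩,
 ⟨nat_lit 7, [⟨nat_lit 1, [⟨nat_lit 4, nat_lit 2256, nat_lit 4320, nat_lit 384, nat_lit 9264, nat_lit 10320, R0_8, R13_193, R5_215⟩, ⟨nat_lit 5, nat_lit 2352, nat_lit 5184, nat_lit 2064, nat_lit 7344, nat_lit 8592, R0_43, R3_153, R0_179⟩, ⟨nat_lit 6, nat_lit 2496, nat_lit 6912, nat_lit 1200, nat_lit 7056, nat_lit 13680, R0_25, R9_147, R11_285⟩]⟩]⟩], [⟨nat_lit 4, [⟨nat_lit 0, [⟨nat_lit 5, nat_lit 1488, nat_lit 4656, nat_lit 21504, nat_lit 6864, nat_lit 5040, R13_448, R4_143, R5_105⟩]⟩, ⟨nat_lit 1, [⟨nat_lit 5, nat_lit 1536, nat_lit 4704, nat_lit 17904, nat_lit 7152, nat_lit 11952, R9_373, R4_149, R0_249⟩]⟩, ⟨nat_lit 2, [⟨nat_lit 5, nat_lit 1584, nat_lit 4752, nat_lit 17568,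 nat_lit 6912, nat_lit 5040, R3_366, R4_144, R11_105⟩]⟩]⟩,
 ⟨nat_lit 7, [⟨nat_lit 0, [⟨nat_lit 5, nat_lit 1632, nat_lit 5328, nat_lit 9984, nat_lit 5712, nat_lit 5760, R3_208, R3_119, R5_120⟩]⟩, ⟨nat_lit 1, [⟨nat_lit 5, nat_lit 1680, nat_lit 5376, nat_lit 2112, nat_lit 5808, nat_lit 12096, R0_44, R3_121, R0_252⟩]⟩, ⟨nat_lit 2, [⟨nat_lit 5, nat_lit 1728, nat_lit 5424, nat_lit 6576, nat_lit 5760, nat_lit 5376, R10_137, R3_120, R11_112⟩]⟩]⟩], [⟨nat_lit 4, [⟨nat_lit 0, [⟨nat_lit 4, nat_lit 3264, nat_lit 96, nat_lit 19920, nat_lit 6048, nat_lit 5712, R13_415, R6_126, R13_119⟩, ⟨nat_lit 5, nat_lit 3600, nat_lit 816, nat_lit 21456, nat_lit 6384, nat_lit 4464, R13_447, R4_133, R9_93⟩, ⟨nat_lit 6, nat_lit 3840, nat_lit 2352, nat_lit 20640, nat_lit 8208, nat_lit 3984, R13_430, R8_171, R3_83⟩]⟩, ⟨nat_lit 1, [⟨nat_lit 4,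 nat_lit 3312, nat_lit 528, nat_lit 16176, nat_lit 6480, nat_lit 8112, R9_337, R6_135, R9_169⟩, ⟨nat_lit 6, nat_lit 3888, nat_lit 2640, nat_lit 17040, nat_lit 8880, nat_lit 7344, R9_355, R8_185, R0_153⟩]⟩, ⟨nat_lit 2, [⟨nat_lit 4, nat_lit 3360, nat_lit 672, nat_lit 16176, nat_lit 6240, nat_lit 8592, R3_337, R6_130, R3_179⟩, ⟨nat_lit 5, nat_lit 3648, nat_lit 1152, nat_lit 17520, nat_lit 6576, nat_lit 2928, R3_365, R4_137, R0_61⟩]⟩, ⟨nat_lit 3, [⟨nat_lit 4, nat_lit 3408, nat_lit 240, nat_lit 2976, nat_lit 6192, nat_lit 11520, R3_62, R6_129, R3_240⟩, ⟨nat_lit 5, nat_lit 3696, nat_lit 960, nat_lit 3600, nat_lit 6528, nat_lit 2448, R3_75, R4_136, R0_51⟩, ⟨nat_lit 6, nat_lit 3936, nat_lit 2496, nat_lit 3312, nat_lit 8400, nat_lit 9072, R3_69, R8_175, R10_189⟩]⟩]⟩,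
 ⟨nat_lit 6, [⟨nat_lit 0, [⟨nat_lit 6, nat_lit 3984, nat_lit 9984, nat_lit 5328, nat_lit 5760, nat_lit 5712, R3_111, R5_120, R3_119⟩]⟩, ⟨nat_lit 1, [⟨nat_lit 6, nat_lit 4032, nat_lit 10176, nat_lit 14640, nat_lit 5856, nat_lit 8064, R0_305, R5_122, R0_168⟩]⟩, ⟨nat_lit 3, [⟨nat_lit 6, nat_lit 4080, nat_lit 10128, nat_lit 19728, nat_lit 5808, nat_lit 9984, R10_411, R5_121, R10_208⟩]⟩]⟩,
 ⟨nat_lit 7, [⟨nat_lit 0, [⟨nat_lit 4, nat_lit 3456, nat_lit 3840, nat_lit 3840, nat_lit 7440, nat_lit 7440, R3_80, R13_155, R13_155⟩, ⟨nat_lit 5, nat_lit 3744, nat_lit 6144, nat_lit 7248, nat_lit 6240, nat_lit 5472, R3_151, R3_130, R9_114⟩, ⟨nat_lit 6, nat_lit 4128, nat_lit 7248, nat_lit 6144, nat_lit 5472, nat_lit 6240, R3_128, R9_114, R3_130⟩, ⟨nat_lit 7, nat_lit 4224, nat_lit 5568, nat_lit 5568, nat_lit 4992, nat_lit 4992,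 R3_116, R3_104, R3_104⟩]⟩, ⟨nat_lit 1, [⟨nat_lit 4, nat_lit 3504, nat_lit 4128, nat_lit 288, nat_lit 7536, nat_lit 8928, R0_6, R13_157, R9_186⟩, ⟨nat_lit 6, nat_lit 4176, nat_lit 7392, nat_lit 1104, nat_lit 5520, nat_lit 8448, R0_23, R9_115, R0_176⟩, ⟨nat_lit 7, nat_lit 4272, nat_lit 5856, nat_lit 528, nat_lit 5280, nat_lit 12048, R0_11, R3_110, R0_251⟩]⟩, ⟨nat_lit 2, [⟨nat_lit 4, nat_lit 3552, nat_lit 4272, nat_lit 3792, nat_lit 7488, nat_lit 8928, R10_79, R13_156, R3_186⟩, ⟨nat_lit 5, nat_lit 3792, nat_lit 6336, nat_lit 6336, nat_lit 6288, nat_lit 3312, R10_132, R3_131, R0_69⟩, ⟨nat_lit 7, nat_lit 4320, nat_lit 6000, nat_lit 4464, nat_lit 5040, nat_lit 4848, R10_93, R3_105, R10_101⟩]⟩]⟩]], [[⟨nat_lit 4, [⟨nat_lit 0, [⟨nat_lit 4, nat_lit 11616, nat_lit 16128, nat_lit 20160, nat_lit 12816, nat_lit 5136, R13_420,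 R8_267, R6_107⟩, ⟨nat_lit 5, nat_lit 12000, nat_lit 16992, nat_lit 21744, nat_lit 10368, nat_lit 8832, R13_453, R5_216, R8_184⟩, ⟨nat_lit 6, nat_lit 12384, nat_lit 17808, nat_lit 20976, nat_lit 8976, nat_lit 5424, R13_437, R9_187, R4_113⟩]⟩, ⟨nat_lit 1, [⟨nat_lit 4, nat_lit 11664, nat_lit 16560, nat_lit 16560, nat_lit 17136, nat_lit 17136, R9_345, R8_357, R8_357⟩, ⟨nat_lit 5, nat_lit 12048, nat_lit 17424, nat_lit 18144, nat_lit 11232, nat_lit 9792, R9_378, R5_234, R9_204⟩, ⟨nat_lit 6, nat_lit 12432, nat_lit 18144, nat_lit 17424, nat_lit 9792, nat_lit 11232, R9_363, R9_204, R5_234⟩]⟩, ⟨nat_lit 2, [⟨nat_lit 4, nat_lit 11712, nat_lit 16656, nat_lit 16560, nat_lit 13872, nat_lit 14448, R3_345, R8_289, R4_301⟩, ⟨nat_lit 5, nat_lit 12096, nat_lit 17568, nat_lit 17856, nat_lit 10848, nat_lit 17328, R3_372, R5_226,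 R5_361⟩]⟩]⟩,
 ⟨nat_lit 5, [⟨nat_lit 0, [⟨nat_lit 4, nat_lit 11760, nat_lit 16224, nat_lit 3888, nat_lit 8400, nat_lit 7152, R9_81, R5_175, R6_149⟩, ⟨nat_lit 5, nat_lit 12144, nat_lit 17088, nat_lit 6192, nat_lit 10848, nat_lit 8928, R9_129, R11_226, R8_186⟩, ⟨nat_lit 6, nat_lit 12480, nat_lit 17856, nat_lit 4800, nat_lit 8496, nat_lit 7824, R9_100, R0_177, R4_163⟩]⟩, ⟨nat_lit 2, [⟨nat_lit 4, nat_lit 11808, nat_lit 16752, nat_lit 2352, nat_lit 8976, nat_lit 15360, R0_49, R5_187, R4_320⟩, ⟨nat_lit 5, nat_lit 12192, nat_lit 17664, nat_lit 4032, nat_lit 11424, nat_lit 17424, R0_84, R11_238, R5_363⟩]⟩]⟩,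
 ⟨nat_lit 6, [⟨nat_lit 0, [⟨nat_lit 6, nat_lit 12528, nat_lit 17904, nat_lit 4704, nat_lit 11952, nat_lit 7152, R3_98, R0_249, R4_149⟩]⟩, ⟨nat_lit 1, [⟨nat_lit 6, nat_lit 12576, nat_lit 18192, nat_lit 15024, nat_lit 14832, nat_lit 11280, R0_313, R0_309, R5_235⟩]⟩]⟩,
 ⟨nat_lit 7, [⟨nat_lit 0, [⟨nat_lit 4, nat_lit 11856, nat_lit 16176, nat_lit 528, nat_lit 8112, nat_lit 6480, R3_11, R9_169, R6_135⟩, ⟨nat_lit 5, nat_lit 12240, nat_lit 17040, nat_lit 2640, nat_lit 7344, nat_lit 8880, R3_55, R0_153, R8_185⟩]⟩, ⟨nat_lit 1, [⟨nat_lit 4, nat_lit 11904, nat_lit 16608, nat_lit 7728, nat_lit 8592, nat_lit 17280, R0_161, R9_179, R8_360⟩, ⟨nat_lit 5, nat_lit 12288, nat_lit 17472, nat_lit 9120, nat_lit 7824, nat_lit 9840, R0_190, R0_163, R9_205⟩]⟩, ⟨nat_lit 2, [⟨nat_lit 4, nat_lit 11952, nat_lit 16704, nat_lit 3264, nat_lit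 8304, nat_lit 14784, R10_68, R9_173, R4_308⟩, ⟨nat_lit 5, nat_lit 12336, nat_lit 17616, nat_lit 5952, nat_lit 7536, nat_lit 17376, R10_124, R0_157, R5_362⟩]⟩]⟩], [], [⟨nat_lit 4, [⟨nat_lit 0, [⟨nat_lit 5, nat_lit 13056, nat_lit 14592, nat_lit 21840, nat_lit 10464, nat_lit 5088, R13_455, R5_218, R5_106⟩]⟩, ⟨nat_lit 1, [⟨nat_lit 5, nat_lit 13104, nat_lit 15024, nat_lit 18192, nat_lit 11280, nat_lit 14832, R9_379, R5_235, R0_309⟩]⟩, ⟨nat_lit 2, [⟨nat_lit 5, nat_lit 13152, nat_lit 15168, nat_lit 17952, nat_lit 10944, nat_lit 5088, R3_374, R5_228, R11_106⟩]⟩]⟩,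
 ⟨nat_lit 5, [⟨nat_lit 0, [⟨nat_lit 5, nat_lit 13200, nat_lit 14688, nat_lit 7392, nat_lit 12816, nat_lit 6864, R9_154, R11_267, R5_143⟩]⟩, ⟨nat_lit 2, [⟨nat_lit 5, nat_lit 13248, nat_lit 15264, nat_lit 5232, nat_lit 12960, nat_lit 6480, R0_109, R11_270, R11_135⟩]⟩]⟩,
 ⟨nat_lit 7, [⟨nat_lit 0, [⟨nat_lit 5, nat_lit 13296, nat_lit 14640, nat_lit 10176, nat_lit 8064, nat_lit 5856, R3_212, R0_168, R5_122⟩]⟩, ⟨nat_lit 1, [⟨nat_lit 5, nat_lit 13344, nat_lit 15072, nat_lit 9264, nat_lit 8208, nat_lit 14976, R0_193, R0_171, R0_312⟩]⟩, ⟨nat_lit 2, [⟨nat_lit 5, nat_lit 13392, nat_lit 15216, nat_lit 6672, nat_lit 8112, nat_lit 5472, R10_139, R0_169, R11_114⟩]⟩]⟩], [⟨nat_lit 4, [⟨nat_lit 0, [⟨nat_lit 4, nat_lit 14304, nat_lit 192, nat_lit 20208, nat_lit 12960, nat_lit 5808, R13_421, R8_270, R13_121⟩, ⟨nat_lit 5, nat_lit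 14784, nat_lit 1008, nat_lit 21792, nat_lit 10416, nat_lit 4512, R13_454, R5_217, R9_94⟩, ⟨nat_lit 6, nat_lit 15168, nat_lit 1968, nat_lit 21024, nat_lit 9072, nat_lit 4080, R13_438, R9_189, R3_85⟩]⟩, ⟨nat_lit 1, [⟨nat_lit 4, nat_lit 14352, nat_lit 7728, nat_lit 16608, nat_lit 17280, nat_lit 8592, R9_346, R8_360, R9_179⟩, ⟨nat_lit 6, nat_lit 15216, nat_lit 9120, nat_lit 17472, nat_lit 9840, nat_lit 7824, R9_364, R9_205, R0_163⟩]⟩, ⟨nat_lit 2, [⟨nat_lit 4, nat_lit 14400, nat_lit 9888, nat_lit 16608, nat_lit 14016, nat_lit 8736, R3_346, R8_292, R3_182⟩, ⟨nat_lit 5, nat_lit 14832, nat_lit 10320, nat_lit 17904, nat_lit 10896, nat_lit 2976, R3_373, R5_227, R0_62⟩]⟩, ⟨nat_lit 3, [⟨nat_lit 4, nat_lit 14448, nat_lit 5712, nat_lit 8784, nat_lit 14688, nat_lit 16512, R3_183, R8_306, R3_344⟩, ⟨nat_lit 5, nat_lit 14880,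 nat_lit 6240, nat_lit 9600, nat_lit 10608, nat_lit 2736, R3_200, R5_221, R0_57⟩, ⟨nat_lit 6, nat_lit 15264, nat_lit 7008, nat_lit 9408, nat_lit 9264, nat_lit 9696, R3_196, R9_193, R10_202⟩]⟩]⟩,
 ⟨nat_lit 5, [⟨nat_lit 0, [⟨nat_lit 4, nat_lit 14496, nat_lit 384, nat_lit 4320, nat_lit 10320, nat_lit 9264, R9_90, R5_215, R13_193⟩, ⟨nat_lit 5, nat_lit 14928, nat_lit 1200, nat_lit 6912, nat_lit 13584, nat_lit 7056, R9_144, R11_283, R9_147⟩, ⟨nat_lit 6, nat_lit 15312, nat_lit 2064, nat_lit 5184, nat_lit 8592, nat_lit 7344, R9_108, R0_179, R3_153⟩]⟩, ⟨nat_lit 2, [⟨nat_lit 4, nat_lit 14544, nat_lit 9984, nat_lit 2784, nat_lit 10560, nat_lit 9552, R0_58, R5_220, R3_199⟩, ⟨nat_lit 5, nat_lit 14976, nat_lit 10416, nat_lit 4752, nat_lit 13824, nat_lit 4896, R0_99, R11_288, R0_102⟩]⟩, ⟨nat_lit 3, [⟨nat_lit 4, nat_lit 14592,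 nat_lit 5808, nat_lit 3024, nat_lit 10800, nat_lit 17808, R0_63, R5_225, R3_371⟩, ⟨nat_lit 5, nat_lit 15024, nat_lit 6336, nat_lit 4992, nat_lit 14064, nat_lit 4656, R0_104, R11_293, R0_97⟩, ⟨nat_lit 6, nat_lit 15360, nat_lit 7104, nat_lit 3408, nat_lit 8784, nat_lit 12000, R0_71, R0_183, R10_250⟩]⟩]⟩,
 ⟨nat_lit 6, [⟨nat_lit 0, [⟨nat_lit 6, nat_lit 15408, nat_lit 2112, nat_lit 5376, nat_lit 12096, nat_lit 5808, R3_112, R0_252, R3_121⟩]⟩, ⟨nat_lit 1, [⟨nat_lit 6, nat_lit 15456, nat_lit 9264, nat_lit 15072, nat_lit 14976, nat_lit 8208, R0_314, R0_312, R0_171⟩]⟩, ⟨nat_lit 3, [⟨nat_lit 6, nat_lit 15504, nat_lit 7152, nat_lit 19920, nat_lit 14208, nat_lit 10272, R10_415, R0_296, R10_214⟩]⟩]⟩,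
 ⟨nat_lit 7, [⟨nat_lit 0, [⟨nat_lit 4, nat_lit 14640, nat_lit 288, nat_lit 4128, nat_lit 8928, nat_lit 7536, R3_86, R9_186, R13_157⟩, ⟨nat_lit 5, nat_lit 15072, nat_lit 1104, nat_lit 7392, nat_lit 8448, nat_lit 5520, R3_154, R0_176, R9_115⟩, ⟨nat_lit 7, nat_lit 15552, nat_lit 528, nat_lit 5856, nat_lit 12048, nat_lit 5280, R3_122, R0_251, R3_110⟩]⟩, ⟨nat_lit 1, [⟨nat_lit 4, nat_lit 14688, nat_lit 7872, nat_lit 7872, nat_lit 9696, nat_lit 9696, R0_164, R9_202, R9_202⟩, ⟨nat_lit 7, nat_lit 15600, nat_lit 8256, nat_lit 8256, nat_lit 14928, nat_lit 14928, R0_172, R0_311, R0_311⟩]⟩, ⟨nat_lit 2, [⟨nat_lit 4, nat_lit 14736, nat_lit 9936, nat_lit 3840, nat_lit 9216, nat_lit 9360, R10_80, R9_192, R3_195⟩, ⟨nat_lit 5, nat_lit 15120, nat_lit 10368, nat_lit 6384, nat_lit 8736, nat_lit 3360, R10_133, R0_182, R0_70⟩, ⟨nat_lit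 7, nat_lit 15648, nat_lit 10272, nat_lit 4512, nat_lit 14160, nat_lit 4944, R10_94, R0_295, R10_103⟩]⟩]⟩]], [[⟨nat_lit 4, [⟨nat_lit 0, [⟨nat_lit 4, nat_lit 7824, nat_lit 16128, nat_lit 20256, nat_lit 12192, nat_lit 4896, R13_422, R4_254, R6_102⟩, ⟨nat_lit 6, nat_lit 8112, nat_lit 17472, nat_lit 21216, nat_lit 14688, nat_lit 5280, R13_442, R5_306, R4_110⟩]⟩, ⟨nat_lit 1, [⟨nat_lit 4, nat_lit 7872, nat_lit 16560, nat_lit 16656, nat_lit 14448, nat_lit 13872, R9_347, R4_301, R8_289⟩, ⟨nat_lit 6, nat_lit 8160, nat_lit 17856, nat_lit 17568, nat_lit 17328, nat_lit 10848, R9_366, R5_361, R5_226⟩]⟩, ⟨nat_lit 2, [⟨nat_lit 4, nat_lit 7920, nat_lit 16752, nat_lit 16752, nat_lit 13392, nat_lit 13392, R3_349, R4_279, R4_279⟩]⟩]⟩,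
 ⟨nat_lit 6, [⟨nat_lit 0, [⟨nat_lit 6, nat_lit 8208, nat_lit 17568, nat_lit 4752, nat_lit 5040, nat_lit 6912, R3_99, R11_105, R4_144⟩]⟩, ⟨nat_lit 1, [⟨nat_lit 6, nat_lit 8256, nat_lit 17952, nat_lit 15168, nat_lit 5088, nat_lit 10944, R0_316, R11_106, R5_228⟩]⟩]⟩,
 ⟨nat_lit 7, [⟨nat_lit 0, [⟨nat_lit 4, nat_lit 7968, nat_lit 16176, nat_lit 672, nat_lit 8592, nat_lit 6240, R3_14, R3_179, R6_130⟩, ⟨nat_lit 6, nat_lit 8304, nat_lit 17520, nat_lit 1152, nat_lit 2928, nat_lit 6576, R3_24, R0_61, R4_137⟩]⟩, ⟨nat_lit 1, [⟨nat_lit 4, nat_lit 8016, nat_lit 16608, nat_lit 9888, nat_lit 8736, nat_lit 14016, R0_206, R3_182, R8_292⟩, ⟨nat_lit 6, nat_lit 8352, nat_lit 17904, nat_lit 10320, nat_lit 2976, nat_lit 10896, R0_215, R0_62, R5_227⟩]⟩, ⟨nat_lit 2, [⟨nat_lit 4, nat_lit 8064, nat_lit 16800, nat_lit 3312, nat_lit 8640,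 nat_lit 13728, R10_69, R3_180, R4_286⟩]⟩]⟩], [⟨nat_lit 4, [⟨nat_lit 1, [⟨nat_lit 4, nat_lit 8736, nat_lit 2352, nat_lit 16752, nat_lit 15360, nat_lit 8976, R9_349, R4_320, R5_187⟩, ⟨nat_lit 6, nat_lit 8832, nat_lit 4032, nat_lit 17664, nat_lit 17424, nat_lit 14112, R9_368, R5_363, R11_294⟩]⟩]⟩,
 ⟨nat_lit 6, [⟨nat_lit 1, [⟨nat_lit 6, nat_lit 8880, nat_lit 5232, nat_lit 15264, nat_lit 6480, nat_lit 14208, R0_318, R11_135, R11_296⟩]⟩]⟩,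
 ⟨nat_lit 7, [⟨nat_lit 1, [⟨nat_lit 4, nat_lit 8784, nat_lit 2784, nat_lit 9984, nat_lit 9552, nat_lit 10560, R0_208, R3_199, R5_220⟩, ⟨nat_lit 6, nat_lit 8928, nat_lit 4752, nat_lit 10416, nat_lit 4896, nat_lit 14160, R0_217, R0_102, R11_295⟩]⟩]⟩], [], [⟨nat_lit 4, [⟨nat_lit 0, [⟨nat_lit 4, nat_lit 9504, nat_lit 3168, nat_lit 20304, nat_lit 12336, nat_lit 5760, R13_423, R4_257, R13_120⟩, ⟨nat_lit 6, nat_lit 9840, nat_lit 5856, nat_lit 21264, nat_lit 14736, nat_lit 4032, R13_443, R5_307, R3_84⟩]⟩, ⟨nat_lit 1, [⟨nat_lit 4, nat_lit 9552, nat_lit 3264, nat_lit 16704, nat_lit 14784, nat_lit 8304, R9_348, R4_308, R9_173⟩, ⟨nat_lit 6, nat_lit 9888, nat_lit 5952, nat_lit 17616, nat_lit 17376, nat_lit 7536, R9_367, R5_362, R0_157⟩]⟩, ⟨nat_lit 2, [⟨nat_lit 4, nat_lit 9600, nat_lit 3312, nat_lit 16800, nat_lit 13728,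 nat_lit 8640, R3_350, R4_286, R3_180⟩]⟩, ⟨nat_lit 3, [⟨nat_lit 4, nat_lit 9648, nat_lit 3216, nat_lit 10464, nat_lit 13296, nat_lit 15312, R3_218, R4_277, R3_319⟩, ⟨nat_lit 6, nat_lit 9936, nat_lit 5904, nat_lit 10512, nat_lit 16512, nat_lit 9360, R3_219, R5_344, R10_195⟩]⟩]⟩,
 ⟨nat_lit 6, [⟨nat_lit 0, [⟨nat_lit 6, nat_lit 9984, nat_lit 6576, nat_lit 5424, nat_lit 5376, nat_lit 5760, R3_113, R11_112, R3_120⟩]⟩, ⟨nat_lit 1, [⟨nat_lit 6, nat_lit 10032, nat_lit 6672, nat_lit 15216, nat_lit 5472, nat_lit 8112, R0_317, R11_114, R0_169⟩]⟩, ⟨nat_lit 3, [⟨nat_lit 6, nat_lit 10080, nat_lit 6624, nat_lit 20016, nat_lit 5424, nat_lit 10128, R10_417, R11_113, R10_211⟩]⟩]⟩,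
 ⟨nat_lit 7, [⟨nat_lit 0, [⟨nat_lit 4, nat_lit 9696, nat_lit 3792, nat_lit 4272, nat_lit 8928, nat_lit 7488, R3_89, R3_186, R13_156⟩, ⟨nat_lit 6, nat_lit 10128, nat_lit 6336, nat_lit 6336, nat_lit 3312, nat_lit 6288, R3_132, R0_69, R3_131⟩, ⟨nat_lit 7, nat_lit 10224, nat_lit 4464, nat_lit 6000, nat_lit 4848, nat_lit 5040, R3_125, R10_101, R3_105⟩]⟩, ⟨nat_lit 1, [⟨nat_lit 4, nat_lit 9744, nat_lit 3840, nat_lit 9936, nat_lit 9360, nat_lit 9216, R0_207, R3_195, R9_192⟩, ⟨nat_lit 6, nat_lit 10176, nat_lit 6384, nat_lit 10368, nat_lit 3360, nat_lit 8736, R0_216, R0_70, R0_182⟩, ⟨nat_lit 7, nat_lit 10272, nat_lit 4512, nat_lit 10272, nat_lit 4944, nat_lit 14160, R0_214, R10_103, R0_295⟩]⟩, ⟨nat_lit 2, [⟨nat_lit 4, nat_lit 9792, nat_lit 3888, nat_lit 3888, nat_lit 9072, nat_lit 9072, R10_81, R3_189, R3_189⟩, ⟨nat_lit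 7, nat_lit 10320, nat_lit 4560, nat_lit 4560, nat_lit 4896, nat_lit 4896, R10_95, R10_102, R10_102⟩]⟩]⟩]], [[⟨nat_lit 7, [⟨nat_lit 0, [⟨nat_lit 4, nat_lit 16032, nat_lit 2976, nat_lit 240, nat_lit 11520, nat_lit 6192, R3_5, R3_240, R6_129⟩, ⟨nat_lit 5, nat_lit 16176, nat_lit 3312, nat_lit 2496, nat_lit 9072, nat_lit 8400, R3_52, R10_189, R8_175⟩, ⟨nat_lit 6, nat_lit 16320, nat_lit 3600, nat_lit 960, nat_lit 2448, nat_lit 6528, R3_20, R0_51, R4_136⟩]⟩, ⟨nat_lit 1, [⟨nat_lit 4, nat_lit 16080, nat_lit 8784, nat_lit 5712, nat_lit 16512, nat_lit 14688, R0_119, R3_344, R8_306⟩, ⟨nat_lit 5, nat_lit 16224, nat_lit 9408, nat_lit 7008, nat_lit 9696, nat_lit 9264, R0_146, R10_202, R9_193⟩, ⟨nat_lit 6, nat_lit 16368, nat_lit 9600, nat_lit 6240, nat_lit 2736, nat_lit 10608, R0_130, R0_57, R5_221⟩]⟩, ⟨nat_lit 2, [⟨nat_lit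 4, nat_lit 16128, nat_lit 10464, nat_lit 3216, nat_lit 15312, nat_lit 13296, R10_67, R3_319, R4_277⟩, ⟨nat_lit 5, nat_lit 16272, nat_lit 10512, nat_lit 5904, nat_lit 9360, nat_lit 16512, R10_123, R10_195, R5_344⟩]⟩]⟩], [⟨nat_lit 7, [⟨nat_lit 1, [⟨nat_lit 4, nat_lit 16704, nat_lit 3024, nat_lit 5808, nat_lit 17808, nat_lit 10800, R0_121, R3_371, R5_225⟩, ⟨nat_lit 5, nat_lit 16752, nat_lit 3408, nat_lit 7104, nat_lit 12000, nat_lit 8784, R0_148, R10_250, R0_183⟩, ⟨nat_lit 6, nat_lit 16800, nat_lit 4992, nat_lit 6336, nat_lit 4656, nat_lit 13872, R0_132, R0_97, R11_289⟩]⟩]⟩], [⟨nat_lit 7, [⟨nat_lit 0, [⟨nat_lit 5, nat_lit 16560, nat_lit 19728, nat_lit 10128, nat_lit 9984, nat_lit 5808, R3_211, R10_208, R5_121⟩]⟩, ⟨nat_lit 1, [⟨nat_lit 5, nat_lit 16608, nat_lit 19920, nat_lit 7152, nat_lit 10272, nat_lit 14208,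 R0_149, R10_214, R0_296⟩]⟩, ⟨nat_lit 2, [⟨nat_lit 5, nat_lit 16656, nat_lit 20016, nat_lit 6624, nat_lit 10128, nat_lit 5424, R10_138, R10_211, R11_113⟩]⟩]⟩]]]]
noncomputable def N3440 : T3 (List N0) := [[[[], [], [⟨nat_lit 1, [⟨nat_lit 4, [⟨nat_lit 4, nat_lit 8208, nat_lit 4512, nat_lit 2064, nat_lit 11904, nat_lit 192, R6_43, R6_248, R6_4⟩, ⟨nat_lit 5, nat_lit 8496, nat_lit 5136, nat_lit 2208, nat_lit 2688, nat_lit 96, R6_46, R13_56, R4_2⟩]⟩]⟩], [], [], [], [⟨nat_lit 1, [⟨nat_lit 4, [⟨nat_lit 5, nat_lit 8544, nat_lit 4848, nat_lit 2352, nat_lit 2736, nat_lit 2976, R6_49, R13_57, R7_62⟩]⟩, ⟨nat_lit 5, [⟨nat_lit 5, nat_lit 8736, nat_lit 4944, nat_lit 1680, nat_lit 2784, nat_lit 1200, R13_35, R13_58, R2_25⟩]⟩]⟩]], [], [[], [], [], [], [⟨nat_lit 0, [⟨nat_lit 5, [⟨nat_lit 1, nat_lit 1632, nat_lit 4848, nat_lit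 2352, nat_lit 2976, nat_lit 2736, R6_49, R7_62, R13_57⟩]⟩]⟩], [], [⟨nat_lit 1, [⟨nat_lit 4, [⟨nat_lit 1, nat_lit 7488, nat_lit 15600, nat_lit 2448, nat_lit 1152, nat_lit 3312, R6_51, R2_24, R4_69⟩, ⟨nat_lit 5, nat_lit 9024, nat_lit 15648, nat_lit 2400, nat_lit 11568, nat_lit 3024, R6_50, R3_241, R7_63⟩]⟩, ⟨nat_lit 5, [⟨nat_lit 1, nat_lit 7776, nat_lit 15936, nat_lit 1776, nat_lit 1248, nat_lit 11712, R13_37, R2_26, R3_244⟩, ⟨nat_lit 5, nat_lit 9168, nat_lit 15984, nat_lit 1824, nat_lit 11712, nat_lit 1248, R13_38, R3_244, R2_26⟩]⟩]⟩]], [[], [], [⟨nat_lit 1, [⟨nat_lit 4, [⟨nat_lit 4, nat_lit 8352, nat_lit 7920, nat_lit 2112, nat_lit 12576, nat_lit 240, R6_44, R8_262, R6_5⟩, ⟨nat_lit 5, nat_lit 9360, nat_lit 8496, nat_lit 2256, nat_lit 2112, nat_lit 144, R6_47, R9_44, R4_3⟩, ⟨nat_lit 7, nat_lit 9600, nat_lit 8208,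 nat_lit 2160, nat_lit 1776, nat_lit 3168, R6_45, R5_37, R8_66⟩]⟩]⟩]], [], [], [[], [], [], [], [], [], [], [⟨nat_lit 0, [⟨nat_lit 5, [⟨nat_lit 0, nat_lit 576, nat_lit 7920, nat_lit 2112, nat_lit 240, nat_lit 12576, R6_44, R6_5, R8_262⟩, ⟨nat_lit 3, nat_lit 2832, nat_lit 8208, nat_lit 2160, nat_lit 3168, nat_lit 1776, R6_45, R8_66, R5_37⟩]⟩]⟩]]], [[[], [], [⟨nat_lit 1, [⟨nat_lit 4, [⟨nat_lit 4, nat_lit 8256, nat_lit 0, nat_lit 1872, nat_lit 11952, nat_lit 336, R4_39, R6_249, R6_7⟩, ⟨nat_lit 5, nat_lit 8592, nat_lit 3744, nat_lit 2064, nat_lit 2832, nat_lit 240, R4_43, R13_59, R4_5⟩]⟩]⟩], [], [], [], [⟨nat_lit 1, [⟨nat_lit 4, [⟨nat_lit 5, nat_lit 8640, nat_lit 3264, nat_lit 2208, nat_lit 2880, nat_lit 3456, R4_46, R13_60, R7_72⟩]⟩, ⟨nat_lit 5, [⟨nat_lit 5, nat_lit 8784, nat_lit 3360, nat_lit 2064, nat_lit 2928,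 nat_lit 1776, R3_43, R13_61, R2_37⟩]⟩]⟩]], [[], [], [⟨nat_lit 1, [⟨nat_lit 4, [⟨nat_lit 4, nat_lit 8304, nat_lit 2736, nat_lit 1920, nat_lit 12240, nat_lit 432, R4_40, R4_255, R6_9⟩, ⟨nat_lit 5, nat_lit 8880, nat_lit 3456, nat_lit 2112, nat_lit 3024, nat_lit 336, R4_44, R3_63, R4_7⟩]⟩]⟩,
 ⟨nat_lit 5, [⟨nat_lit 4, [⟨nat_lit 4, nat_lit 13728, nat_lit 14352, nat_lit 2112, nat_lit 13440, nat_lit 816, R7_44, R7_280, R6_17⟩, ⟨nat_lit 5, nat_lit 14112, nat_lit 14928, nat_lit 2160, nat_lit 12144, nat_lit 384, R7_45, R2_253, R4_8⟩]⟩, ⟨nat_lit 6, [⟨nat_lit 4, nat_lit 13824, nat_lit 14544, nat_lit 912, nat_lit 13536, nat_lit 4944, R2_19, R7_282, R13_103⟩, ⟨nat_lit 5, nat_lit 14256, nat_lit 15072, nat_lit 1056, nat_lit 12240, nat_lit 3696, R2_22, R2_255, R3_77⟩, ⟨nat_lit 6, nat_lit 14016, nat_lit 15360, nat_lit 960, nat_lit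 11952, nat_lit 576, R2_20, R2_249, R3_12⟩]⟩]⟩], [], [], [], [⟨nat_lit 1, [⟨nat_lit 4, [⟨nat_lit 5, nat_lit 8928, nat_lit 2736, nat_lit 2256, nat_lit 3072, nat_lit 3552, R4_47, R3_64, R7_74⟩]⟩, ⟨nat_lit 5, [⟨nat_lit 5, nat_lit 8976, nat_lit 2832, nat_lit 2112, nat_lit 3120, nat_lit 1872, R3_44, R3_65, R2_39⟩]⟩]⟩,
 ⟨nat_lit 5, [⟨nat_lit 4, [⟨nat_lit 5, nat_lit 14160, nat_lit 13200, nat_lit 2208, nat_lit 12000, nat_lit 3408, R7_46, R2_250, R7_71⟩]⟩, ⟨nat_lit 5, [⟨nat_lit 5, nat_lit 14352, nat_lit 13296, nat_lit 672, nat_lit 12096, nat_lit 1728, R2_14, R2_252, R2_36⟩]⟩, ⟨nat_lit 6, [⟨nat_lit 5, nat_lit 14304, nat_lit 13440, nat_lit 1008, nat_lit 12048, nat_lit 0, R2_21, R2_251, R2_0⟩]⟩]⟩]], [[], [], [], [], [], [], [⟨nat_lit 1, [⟨nat_lit 4, [⟨nat_lit 1, nat_lit 7536, nat_lit 12672, nat_lit 2352, nat_lit 1296, nat_lit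 3456, R4_49, R2_27, R4_72⟩, ⟨nat_lit 5, nat_lit 9072, nat_lit 12720, nat_lit 2304, nat_lit 11616, nat_lit 3504, R4_48, R3_242, R7_73⟩]⟩, ⟨nat_lit 5, [⟨nat_lit 1, nat_lit 7824, nat_lit 13008, nat_lit 2160, nat_lit 1344, nat_lit 11856, R3_45, R2_28, R3_247⟩, ⟨nat_lit 5, nat_lit 9216, nat_lit 13056, nat_lit 2208, nat_lit 11760, nat_lit 1824, R3_46, R3_245, R2_38⟩]⟩]⟩]], [[], [], [⟨nat_lit 1, [⟨nat_lit 4, [⟨nat_lit 4, nat_lit 8400, nat_lit 0, nat_lit 1968, nat_lit 12624, nat_lit 384, R4_41, R8_263, R6_8⟩, ⟨nat_lit 5, nat_lit 9408, nat_lit 48, nat_lit 2160, nat_lit 2160, nat_lit 288, R4_45, R9_45, R4_6⟩, ⟨nat_lit 7, nat_lit 9648, nat_lit 96, nat_lit 2016, nat_lit 1824, nat_lit 4320, R4_42, R5_38, R8_90⟩]⟩]⟩]]], [[], [], [[], [], [], [], [], [], [⟨nat_lit 1, [⟨nat_lit 5, [⟨nat_lit 1, nat_lit 7920, nat_lit 13056, nat_lit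 2208, nat_lit 1824, nat_lit 11760, R3_46, R2_38, R3_245⟩, ⟨nat_lit 5, nat_lit 9264, nat_lit 13008, nat_lit 2160, nat_lit 11856, nat_lit 1344, R3_45, R3_247, R2_28⟩]⟩]⟩]]], [[], [], [], [[], [], [⟨nat_lit 0, [⟨nat_lit 4, [⟨nat_lit 4, nat_lit 3408, nat_lit 0, nat_lit 480, nat_lit 0, nat_lit 0, R6_10, R6_0, R6_0⟩]⟩]⟩,
 ⟨nat_lit 1, [⟨nat_lit 4, [⟨nat_lit 4, nat_lit 8448, nat_lit 10368, nat_lit 1488, nat_lit 12672, nat_lit 288, R8_31, R8_264, R6_6⟩, ⟨nat_lit 5, nat_lit 9456, nat_lit 10944, nat_lit 1584, nat_lit 2208, nat_lit 192, R8_33, R9_46, R4_4⟩, ⟨nat_lit 7, nat_lit 9696, nat_lit 10656, nat_lit 1536, nat_lit 1872, nat_lit 3600, R8_32, R5_39, R8_75⟩]⟩, ⟨nat_lit 7, [⟨nat_lit 7, nat_lit 9744, nat_lit 12624, nat_lit 288, nat_lit 1920, nat_lit 4800, R5_6, R5_40, R5_100⟩]⟩]⟩]], [], [], [[], [], [], [], [], [], [],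 [⟨nat_lit 0, [⟨nat_lit 4, [⟨nat_lit 0, nat_lit 480, nat_lit 0, nat_lit 3408, nat_lit 0, nat_lit 0, R6_71, R6_0, R6_0⟩]⟩, ⟨nat_lit 5, [⟨nat_lit 0, nat_lit 768, nat_lit 48, nat_lit 1488, nat_lit 288, nat_lit 12672, R8_31, R6_6, R8_264⟩, ⟨nat_lit 3, nat_lit 2928, nat_lit 336, nat_lit 1536, nat_lit 3600, nat_lit 1872, R8_32, R8_75, R5_39⟩]⟩]⟩,
 ⟨nat_lit 3, [⟨nat_lit 5, [⟨nat_lit 3, nat_lit 10464, nat_lit 432, nat_lit 288, nat_lit 4800, nat_lit 1920, R5_6, R5_100, R5_40⟩]⟩]⟩]]], [[], [], [], [], [[⟨nat_lit 0, [⟨nat_lit 3, [⟨nat_lit 3, nat_lit 2064, nat_lit 11904, nat_lit 14400, nat_lit 8208, nat_lit 4512, R6_300, R6_171, R4_94⟩]⟩]⟩,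
 ⟨nat_lit 2, [⟨nat_lit 0, [⟨nat_lit 2, nat_lit 5328, nat_lit 15840, nat_lit 14400, nat_lit 4512, nat_lit 8208, R6_300, R4_94, R6_171⟩]⟩, ⟨nat_lit 2, [⟨nat_lit 2, nat_lit 5472, nat_lit 16320, nat_lit 14064, nat_lit 4560, nat_lit 8592, R4_293, R4_95, R4_179⟩]⟩, ⟨nat_lit 3, [⟨nat_lit 0, nat_lit 4512, nat_lit 14496, nat_lit 15120, nat_lit 4368, nat_lit 4368, R8_315, R6_91, R6_91⟩, ⟨nat_lit 2, nat_lit 5664, nat_lit 16080, nat_lit 15216, nat_lit 4608, nat_lit 7440, R8_317, R4_96, R8_155⟩, ⟨nat_lit 3, nat_lit 6816, nat_lit 15264, nat_lit 15168, nat_lit 7440, nat_lit 4608, R8_316, R8_155, R4_96⟩]⟩]⟩,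
 ⟨nat_lit 3, [⟨nat_lit 3, [⟨nat_lit 3, nat_lit 9792, nat_lit 12912, nat_lit 14064, nat_lit 8592, nat_lit 4560, R4_293, R4_179, R4_95⟩]⟩, ⟨nat_lit 7, [⟨nat_lit 3, nat_lit 10032, nat_lit 12720, nat_lit 15456, nat_lit 8640, nat_lit 8640, R7_322, R4_180, R7_180⟩, ⟨nat_lit 7, nat_lit 11136, nat_lit 12192, nat_lit 15504, nat_lit 8640, nat_lit 8640, R7_323, R7_180, R4_180⟩]⟩]⟩,
 ⟨nat_lit 4, [⟨nat_lit 6, [⟨nat_lit 6, nat_lit 11904, nat_lit 2064, nat_lit 14400, nat_lit 8208, nat_lit 4512, R6_300, R6_171, R4_94⟩]⟩]⟩,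
 ⟨nat_lit 6, [⟨nat_lit 2, [⟨nat_lit 2, nat_lit 12192, nat_lit 11136, nat_lit 15504, nat_lit 8640, nat_lit 8640, R7_323, R7_180, R4_180⟩, ⟨nat_lit 6, nat_lit 12720, nat_lit 10032, nat_lit 15456, nat_lit 8640, nat_lit 8640, R7_322, R4_180, R7_180⟩]⟩, ⟨nat_lit 6, [⟨nat_lit 6, nat_lit 12912, nat_lit 9792, nat_lit 14064, nat_lit 8592, nat_lit 4560, R4_293, R4_179, R4_95⟩]⟩]⟩,
 ⟨nat_lit 7, [⟨nat_lit 4, [⟨nat_lit 7, nat_lit 15840, nat_lit 5328, nat_lit 14400, nat_lit 4512, nat_lit 8208, R6_300, R4_94, R6_171⟩]⟩, ⟨nat_lit 6, [⟨nat_lit 4, nat_lit 14496, nat_lit 4512, nat_lit 15120, nat_lit 4368, nat_lit 4368, R8_315, R6_91, R6_91⟩, ⟨nat_lit 6, nat_lit 15264, nat_lit 6816, nat_lit 15168, nat_lit 7440, nat_lit 4608, R8_316, R8_155, R4_96⟩, ⟨nat_lit 7, nat_lit 16080, nat_lit 5664, nat_lit 15216, nat_lit 4608, nat_lit 7440,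 R8_317, R4_96, R8_155⟩]⟩, ⟨nat_lit 7, [⟨nat_lit 7, nat_lit 16320, nat_lit 5472, nat_lit 14064, nat_lit 4560, nat_lit 8592, R4_293, R4_95, R4_179⟩]⟩]⟩], [⟨nat_lit 0, [⟨nat_lit 3, [⟨nat_lit 3, nat_lit 2112, nat_lit 12144, nat_lit 14688, nat_lit 8352, nat_lit 7920, R6_306, R6_174, R5_165⟩]⟩]⟩,
 ⟨nat_lit 2, [⟨nat_lit 0, [⟨nat_lit 0, nat_lit 4368, nat_lit 15120, nat_lit 14496, nat_lit 4512, nat_lit 11712, R6_302, R6_94, R6_244⟩, ⟨nat_lit 2, nat_lit 5376, nat_lit 15264, nat_lit 14544, nat_lit 4752, nat_lit 10416, R6_303, R4_99, R13_217⟩]⟩, ⟨nat_lit 2, [⟨nat_lit 2, nat_lit 5520, nat_lit 16464, nat_lit 14160, nat_lit 4800, nat_lit 11376, R4_295, R4_100, R3_237⟩]⟩, ⟨nat_lit 3, [⟨nat_lit 0, nat_lit 4560, nat_lit 15696, nat_lit 15696, nat_lit 4560, nat_lit 12288, R8_327, R6_95, R8_256⟩, ⟨nat_lit 2, nat_lit 5712, nat_lit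 15984, nat_lit 15792, nat_lit 4848, nat_lit 7968, R8_329, R4_101, R9_166⟩, ⟨nat_lit 3, nat_lit 6864, nat_lit 15840, nat_lit 15744, nat_lit 7728, nat_lit 7968, R8_328, R8_161, R5_166⟩]⟩]⟩,
 ⟨nat_lit 3, [⟨nat_lit 3, [⟨nat_lit 3, nat_lit 9840, nat_lit 14064, nat_lit 14256, nat_lit 8976, nat_lit 8016, R4_297, R4_187, R5_167⟩]⟩]⟩,
 ⟨nat_lit 6, [⟨nat_lit 2, [⟨nat_lit 2, nat_lit 12240, nat_lit 10416, nat_lit 15600, nat_lit 8688, nat_lit 11040, R7_325, R7_181, R3_230⟩, ⟨nat_lit 6, nat_lit 12816, nat_lit 10560, nat_lit 15552, nat_lit 8784, nat_lit 7440, R7_324, R4_183, R2_155⟩]⟩]⟩], [⟨nat_lit 3, [⟨nat_lit 7, [⟨nat_lit 7, nat_lit 11184, nat_lit 12384, nat_lit 16272, nat_lit 8784, nat_lit 4416, R7_339, R7_183, R5_92⟩]⟩]⟩,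
 ⟨nat_lit 4, [⟨nat_lit 6, [⟨nat_lit 6, nat_lit 11952, nat_lit 1872, nat_lit 14448, nat_lit 8256, nat_lit 0, R6_301, R6_172, R3_0⟩]⟩]⟩,
 ⟨nat_lit 6, [⟨nat_lit 2, [⟨nat_lit 6, nat_lit 12768, nat_lit 10992, nat_lit 15648, nat_lit 8736, nat_lit 3120, R7_326, R4_182, R2_65⟩]⟩, ⟨nat_lit 6, [⟨nat_lit 6, nat_lit 12960, nat_lit 10800, nat_lit 14112, nat_lit 8688, nat_lit 144, R4_294, R4_181, R3_3⟩]⟩]⟩,
 ⟨nat_lit 7, [⟨nat_lit 4, [⟨nat_lit 4, nat_lit 14400, nat_lit 4512, nat_lit 15840, nat_lit 5328, nat_lit 528, R6_330, R6_111, R6_11⟩, ⟨nat_lit 7, nat_lit 15888, nat_lit 5616, nat_lit 15888, nat_lit 5616, nat_lit 384, R6_331, R4_117, R8_8⟩]⟩, ⟨nat_lit 6, [⟨nat_lit 4, nat_lit 14544, nat_lit 4752, nat_lit 15264, nat_lit 5376, nat_lit 4464, R8_318, R6_112, R13_93⟩, ⟨nat_lit 6, nat_lit 15312, nat_lit 7392, nat_lit 15312, nat_lit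 7488, nat_lit 288, R8_319, R8_156, R3_6⟩, ⟨nat_lit 7, nat_lit 16128, nat_lit 6048, nat_lit 15360, nat_lit 5712, nat_lit 3696, R8_320, R4_119, R9_77⟩]⟩, ⟨nat_lit 7, [⟨nat_lit 7, nat_lit 16368, nat_lit 5808, nat_lit 14928, nat_lit 5664, nat_lit 4368, R4_311, R4_118, R5_91⟩]⟩]⟩]], [[⟨nat_lit 4, [⟨nat_lit 6, [⟨nat_lit 4, nat_lit 11712, nat_lit 15120, nat_lit 14496, nat_lit 11712, nat_lit 4512, R6_302, R6_244, R6_94⟩, ⟨nat_lit 6, nat_lit 12000, nat_lit 15264, nat_lit 14544, nat_lit 10416, nat_lit 4752, R6_303, R13_217, R4_99⟩]⟩]⟩,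
 ⟨nat_lit 6, [⟨nat_lit 2, [⟨nat_lit 2, nat_lit 12336, nat_lit 10560, nat_lit 15744, nat_lit 7440, nat_lit 8784, R7_328, R2_155, R4_183⟩, ⟨nat_lit 6, nat_lit 13008, nat_lit 10416, nat_lit 15696, nat_lit 11040, nat_lit 8688, R7_327, R3_230, R7_181⟩]⟩, ⟨nat_lit 6, [⟨nat_lit 6, nat_lit 13344, nat_lit 16464, nat_lit 14160, nat_lit 11376, nat_lit 4800, R4_295, R3_237, R4_100⟩]⟩]⟩,
 ⟨nat_lit 7, [⟨nat_lit 4, [⟨nat_lit 7, nat_lit 16416, nat_lit 12144, nat_lit 14688, nat_lit 7920, nat_lit 8352, R6_306, R5_165, R6_174⟩]⟩, ⟨nat_lit 6, [⟨nat_lit 4, nat_lit 14832, nat_lit 15696, nat_lit 15408, nat_lit 12288, nat_lit 4560, R8_321, R8_256, R6_95⟩, ⟨nat_lit 6, nat_lit 15456, nat_lit 15984, nat_lit 15456, nat_lit 7968, nat_lit 4848, R8_322, R9_166, R4_101⟩, ⟨nat_lit 7, nat_lit 16752, nat_lit 15840, nat_lit 15504, nat_lit 7968,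 nat_lit 7728, R8_323, R5_166, R8_161⟩]⟩, ⟨nat_lit 7, [⟨nat_lit 7, nat_lit 17088, nat_lit 14064, nat_lit 14256, nat_lit 8016, nat_lit 8976, R4_297, R5_167, R4_187⟩]⟩]⟩], [⟨nat_lit 6, [⟨nat_lit 2, [⟨nat_lit 2, nat_lit 12384, nat_lit 10800, nat_lit 15840, nat_lit 7488, nat_lit 11232, R7_330, R2_156, R3_234⟩, ⟨nat_lit 6, nat_lit 13104, nat_lit 10944, nat_lit 15792, nat_lit 11232, nat_lit 7488, R7_329, R3_234, R2_156⟩]⟩]⟩], [⟨nat_lit 4, [⟨nat_lit 6, [⟨nat_lit 4, nat_lit 11760, nat_lit 912, nat_lit 14592, nat_lit 11808, nat_lit 4608, R6_304, R6_246, R13_96⟩, ⟨nat_lit 6, nat_lit 12048, nat_lit 1056, nat_lit 14640, nat_lit 10464, nat_lit 48, R6_305, R13_218, R3_1⟩]⟩]⟩,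
 ⟨nat_lit 6, [⟨nat_lit 2, [⟨nat_lit 6, nat_lit 13056, nat_lit 12816, nat_lit 15888, nat_lit 11136, nat_lit 3168, R7_331, R3_232, R2_66⟩]⟩, ⟨nat_lit 6, [⟨nat_lit 6, nat_lit 13392, nat_lit 13104, nat_lit 14208, nat_lit 11472, nat_lit 192, R4_296, R3_239, R3_4⟩]⟩]⟩,
 ⟨nat_lit 7, [⟨nat_lit 4, [⟨nat_lit 4, nat_lit 14688, nat_lit 7920, nat_lit 16416, nat_lit 12576, nat_lit 576, R6_342, R8_262, R6_12⟩, ⟨nat_lit 7, nat_lit 16464, nat_lit 8064, nat_lit 16464, nat_lit 8064, nat_lit 432, R6_343, R5_168, R8_9⟩]⟩, ⟨nat_lit 6, [⟨nat_lit 4, nat_lit 14880, nat_lit 9168, nat_lit 15552, nat_lit 12720, nat_lit 4656, R8_324, R8_265, R13_97⟩, ⟨nat_lit 6, nat_lit 15504, nat_lit 9408, nat_lit 15600, nat_lit 8016, nat_lit 336, R8_325, R9_167, R3_7⟩, ⟨nat_lit 7, nat_lit 16800, nat_lit 9312, nat_lit 15648, nat_lit 8112, nat_lit 3792,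 R8_326, R5_169, R9_79⟩]⟩, ⟨nat_lit 7, [⟨nat_lit 7, nat_lit 17136, nat_lit 8784, nat_lit 15168, nat_lit 8160, nat_lit 4656, R4_316, R5_170, R5_97⟩]⟩]⟩]], [[⟨nat_lit 0, [⟨nat_lit 3, [⟨nat_lit 0, nat_lit 192, nat_lit 4512, nat_lit 15840, nat_lit 528, nat_lit 5328, R6_330, R6_11, R6_111⟩, ⟨nat_lit 3, nat_lit 2496, nat_lit 5616, nat_lit 15888, nat_lit 384, nat_lit 5616, R6_331, R8_8, R4_117⟩]⟩]⟩,
 ⟨nat_lit 2, [⟨nat_lit 0, [⟨nat_lit 2, nat_lit 5952, nat_lit 1872, nat_lit 14448, nat_lit 0, nat_lit 8256, R6_301, R3_0, R6_172⟩]⟩, ⟨nat_lit 2, [⟨nat_lit 2, nat_lit 6096, nat_lit 10800, nat_lit 14112, nat_lit 144, nat_lit 8688, R4_294, R3_3, R4_181⟩]⟩, ⟨nat_lit 3, [⟨nat_lit 0, nat_lit 5040, nat_lit 4752, nat_lit 17568, nat_lit 4464, nat_lit 5376, R8_366, R13_93, R6_112⟩, ⟨nat_lit 2, nat_lit 6384, nat_lit 7392, nat_lit 17664,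 nat_lit 288, nat_lit 7488, R8_368, R3_6, R8_156⟩, ⟨nat_lit 3, nat_lit 7056, nat_lit 6048, nat_lit 17616, nat_lit 3696, nat_lit 5712, R8_367, R9_77, R4_119⟩]⟩]⟩,
 ⟨nat_lit 3, [⟨nat_lit 3, [⟨nat_lit 3, nat_lit 10176, nat_lit 5808, nat_lit 14928, nat_lit 4368, nat_lit 5664, R4_311, R5_91, R4_118⟩]⟩, ⟨nat_lit 7, [⟨nat_lit 3, nat_lit 10512, nat_lit 12384, nat_lit 17280, nat_lit 4416, nat_lit 8784, R7_360, R5_92, R7_183⟩]⟩]⟩,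
 ⟨nat_lit 6, [⟨nat_lit 2, [⟨nat_lit 2, nat_lit 12576, nat_lit 10992, nat_lit 15936, nat_lit 3120, nat_lit 8736, R7_332, R2_65, R4_182⟩]⟩]⟩], [⟨nat_lit 0, [⟨nat_lit 3, [⟨nat_lit 0, nat_lit 240, nat_lit 7920, nat_lit 16416, nat_lit 576, nat_lit 12576, R6_342, R6_12, R8_262⟩, ⟨nat_lit 3, nat_lit 2544, nat_lit 8064, nat_lit 16464, nat_lit 432, nat_lit 8064, R6_343, R8_9, R5_168⟩]⟩]⟩,
 ⟨nat_lit 2, [⟨nat_lit 0, [⟨nat_lit 0, nat_lit 4800, nat_lit 912, nat_lit 14592, nat_lit 4608, nat_lit 11808, R6_304, R13_96, R6_246⟩, ⟨nat_lit 2, nat_lit 6000, nat_lit 1056, nat_lit 14640, nat_lit 48, nat_lit 10464, R6_305, R3_1, R13_218⟩]⟩, ⟨nat_lit 2, [⟨nat_lit 2, nat_lit 6144, nat_lit 13104, nat_lit 14208, nat_lit 192, nat_lit 11472, R4_296, R3_4, R3_239⟩]⟩, ⟨nat_lit 3, [⟨nat_lit 0, nat_lit 5088, nat_lit 9168, nat_lit 18288, nat_lit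 4656, nat_lit 12720, R8_381, R13_97, R8_265⟩, ⟨nat_lit 2, nat_lit 6432, nat_lit 9408, nat_lit 18384, nat_lit 336, nat_lit 8016, R8_383, R3_7, R9_167⟩, ⟨nat_lit 3, nat_lit 7104, nat_lit 9312, nat_lit 18336, nat_lit 3792, nat_lit 8112, R8_382, R9_79, R5_169⟩]⟩]⟩,
 ⟨nat_lit 3, [⟨nat_lit 3, [⟨nat_lit 3, nat_lit 10224, nat_lit 8784, nat_lit 15168, nat_lit 4656, nat_lit 8160, R4_316, R5_97, R5_170⟩]⟩]⟩,
 ⟨nat_lit 6, [⟨nat_lit 2, [⟨nat_lit 2, nat_lit 12624, nat_lit 12816, nat_lit 15984, nat_lit 3168, nat_lit 11136, R7_333, R2_66, R3_232⟩]⟩]⟩]]], [[], [[], [], [⟨nat_lit 5, [⟨nat_lit 4, [⟨nat_lit 4, nat_lit 13680, nat_lit 0, nat_lit 3216, nat_lit 13488, nat_lit 864, R4_67, R7_281, R6_18⟩, ⟨nat_lit 5, nat_lit 14064, nat_lit 96, nat_lit 3264, nat_lit 12192, nat_lit 432, R4_68, R2_254, R4_9⟩]⟩, ⟨nat_lit 6, [⟨nat_lit 4,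 nat_lit 13776, nat_lit 48, nat_lit 15888, nat_lit 13584, nat_lit 4896, R3_331, R7_283, R13_102⟩, ⟨nat_lit 5, nat_lit 14208, nat_lit 144, nat_lit 15984, nat_lit 12288, nat_lit 3648, R3_333, R2_256, R3_76⟩, ⟨nat_lit 6, nat_lit 13968, nat_lit 192, nat_lit 15936, nat_lit 11904, nat_lit 624, R3_332, R2_248, R3_13⟩]⟩]⟩]], [], [], [], [[⟨nat_lit 4, [⟨nat_lit 6, [⟨nat_lit 4, nat_lit 11808, nat_lit 912, nat_lit 19776, nat_lit 11760, nat_lit 4656, R13_412, R6_245, R6_97⟩, ⟨nat_lit 6, nat_lit 12096, nat_lit 3264, nat_lit 19824, nat_lit 10512, nat_lit 4944, R13_413, R13_219, R4_103⟩]⟩]⟩,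
 ⟨nat_lit 5, [⟨nat_lit 6, [⟨nat_lit 4, nat_lit 13584, nat_lit 1008, nat_lit 16032, nat_lit 12144, nat_lit 4752, R3_334, R4_253, R6_99⟩, ⟨nat_lit 6, nat_lit 13872, nat_lit 3360, nat_lit 16080, nat_lit 8544, nat_lit 5088, R3_335, R3_178, R4_106⟩]⟩]⟩,
 ⟨nat_lit 6, [⟨nat_lit 2, [⟨nat_lit 2, nat_lit 12432, nat_lit 432, nat_lit 14448, nat_lit 7536, nat_lit 8832, R2_301, R2_157, R4_184⟩, ⟨nat_lit 6, nat_lit 13152, nat_lit 2544, nat_lit 14400, nat_lit 11088, nat_lit 8736, R2_300, R3_231, R7_182⟩]⟩, ⟨nat_lit 6, [⟨nat_lit 6, nat_lit 13440, nat_lit 3408, nat_lit 2928, nat_lit 11424, nat_lit 4992, R3_61, R3_238, R4_104⟩]⟩]⟩,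
 ⟨nat_lit 7, [⟨nat_lit 4, [⟨nat_lit 7, nat_lit 16512, nat_lit 1776, nat_lit 240, nat_lit 8208, nat_lit 9600, R8_5, R5_171, R6_200⟩]⟩, ⟨nat_lit 6, [⟨nat_lit 4, nat_lit 14928, nat_lit 960, nat_lit 15984, nat_lit 12384, nat_lit 4704, R9_333, R8_258, R6_98⟩, ⟨nat_lit 6, nat_lit 15552, nat_lit 3312, nat_lit 16032, nat_lit 8064, nat_lit 5040, R9_334, R9_168, R4_105⟩, ⟨nat_lit 7, nat_lit 16848, nat_lit 2208, nat_lit 16080, nat_lit 8256, nat_lit 9024, R9_335, R5_172, R8_188⟩]⟩, ⟨nat_lit 7, [⟨nat_lit 7, nat_lit 17184, nat_lit 1968, nat_lit 16848, nat_lit 8304, nat_lit 10560, R5_351, R5_173, R4_220⟩]⟩]⟩], [⟨nat_lit 6, [⟨nat_lit 2, [⟨nat_lit 2, nat_lit 12480, nat_lit 9312, nat_lit 14544, nat_lit 7584, nat_lit 11328, R2_303, R2_158, R3_236⟩, ⟨nat_lit 6, nat_lit 13248, nat_lit 9456, nat_lit 14496, nat_lit 11280, nat_lit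 7632, R2_302, R3_235, R2_159⟩]⟩]⟩], [⟨nat_lit 4, [⟨nat_lit 4, [⟨nat_lit 4, nat_lit 11664, nat_lit 0, nat_lit 3408, nat_lit 11664, nat_lit 480, R6_71, R6_243, R6_10⟩]⟩, ⟨nat_lit 6, [⟨nat_lit 4, nat_lit 11856, nat_lit 480, nat_lit 19872, nat_lit 11856, nat_lit 4752, R13_414, R6_247, R13_99⟩, ⟨nat_lit 6, nat_lit 12144, nat_lit 624, nat_lit 19920, nat_lit 10560, nat_lit 96, R13_415, R13_220, R3_2⟩]⟩]⟩,
 ⟨nat_lit 5, [⟨nat_lit 4, [⟨nat_lit 4, nat_lit 13536, nat_lit 7488, nat_lit 3168, nat_lit 12096, nat_lit 912, R4_66, R4_252, R6_19⟩]⟩, ⟨nat_lit 6, [⟨nat_lit 4, nat_lit 13632, nat_lit 7824, nat_lit 16128, nat_lit 12192, nat_lit 4848, R3_336, R4_254, R13_101⟩, ⟨nat_lit 6, nat_lit 13920, nat_lit 7968, nat_lit 16176, nat_lit 8592, nat_lit 672, R3_337, R3_179, R3_14⟩]⟩]⟩,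
 ⟨nat_lit 6, [⟨nat_lit 2, [⟨nat_lit 6, nat_lit 13200, nat_lit 15744, nat_lit 14592, nat_lit 11184, nat_lit 3216, R2_304, R3_233, R2_67⟩]⟩, ⟨nat_lit 6, [⟨nat_lit 6, nat_lit 13488, nat_lit 16032, nat_lit 2976, nat_lit 11520, nat_lit 240, R3_62, R3_240, R3_5⟩]⟩]⟩,
 ⟨nat_lit 7, [⟨nat_lit 4, [⟨nat_lit 4, nat_lit 14736, nat_lit 10368, nat_lit 1488, nat_lit 12672, nat_lit 768, R8_31, R8_264, R6_16⟩, ⟨nat_lit 7, nat_lit 16560, nat_lit 10512, nat_lit 2160, nat_lit 8352, nat_lit 2400, R8_45, R5_174, R8_50⟩]⟩, ⟨nat_lit 6, [⟨nat_lit 4, nat_lit 14976, nat_lit 11616, nat_lit 16128, nat_lit 12816, nat_lit 4800, R9_336, R8_267, R13_100⟩, ⟨nat_lit 6, nat_lit 15600, nat_lit 11856, nat_lit 16176, nat_lit 8112, nat_lit 528, R9_337, R9_169, R3_11⟩, ⟨nat_lit 7, nat_lit 16896, nat_lit 11760, nat_lit 16224, nat_lit 8400, nat_lit 3888,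 R9_338, R5_175, R9_81⟩]⟩, ⟨nat_lit 7, [⟨nat_lit 7, nat_lit 17232, nat_lit 11232, nat_lit 16896, nat_lit 8448, nat_lit 4704, R5_352, R5_176, R5_98⟩]⟩]⟩]]], [[], [], [], [], [[], [⟨nat_lit 0, [⟨nat_lit 3, [⟨nat_lit 3, nat_lit 2160, nat_lit 1776, nat_lit 240, nat_lit 9600, nat_lit 8208, R8_5, R6_200, R5_171⟩]⟩]⟩,
 ⟨nat_lit 2, [⟨nat_lit 0, [⟨nat_lit 0, nat_lit 4416, nat_lit 912, nat_lit 19776, nat_lit 4656, nat_lit 11760, R13_412, R6_97, R6_245⟩, ⟨nat_lit 2, nat_lit 5424, nat_lit 3264, nat_lit 19824, nat_lit 4944, nat_lit 10512, R13_413, R4_103, R13_219⟩]⟩, ⟨nat_lit 1, [⟨nat_lit 0, nat_lit 4464, nat_lit 1008, nat_lit 16032, nat_lit 4752, nat_lit 12144, R3_334, R6_99, R4_253⟩, ⟨nat_lit 2, nat_lit 5616, nat_lit 3360, nat_lit 16080, nat_lit 5088, nat_lit 8544, R3_335, R4_106, R3_178⟩]⟩, ⟨nat_lit 2, [⟨nat_lit 2, nat_lit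 5568, nat_lit 3408, nat_lit 2928, nat_lit 4992, nat_lit 11424, R3_61, R4_104, R3_238⟩]⟩, ⟨nat_lit 3, [⟨nat_lit 0, nat_lit 4608, nat_lit 960, nat_lit 15984, nat_lit 4704, nat_lit 12384, R9_333, R6_98, R8_258⟩, ⟨nat_lit 2, nat_lit 5760, nat_lit 3312, nat_lit 16032, nat_lit 5040, nat_lit 8064, R9_334, R4_105, R9_168⟩, ⟨nat_lit 3, nat_lit 6912, nat_lit 2208, nat_lit 16080, nat_lit 9024, nat_lit 8256, R9_335, R8_188, R5_172⟩]⟩]⟩,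
 ⟨nat_lit 3, [⟨nat_lit 3, [⟨nat_lit 3, nat_lit 9888, nat_lit 1968, nat_lit 16848, nat_lit 10560, nat_lit 8304, R5_351, R4_220, R5_173⟩]⟩]⟩,
 ⟨nat_lit 6, [⟨nat_lit 2, [⟨nat_lit 2, nat_lit 12288, nat_lit 2544, nat_lit 14400, nat_lit 8736, nat_lit 11088, R2_300, R7_182, R3_231⟩, ⟨nat_lit 6, nat_lit 12864, nat_lit 432, nat_lit 14448, nat_lit 8832, nat_lit 7536, R2_301, R4_184, R2_157⟩]⟩]⟩]], [[], [⟨nat_lit 6, [⟨nat_lit 2, [⟨nat_lit 2, nat_lit 12528, nat_lit 9456, nat_lit 14496, nat_lit 7632, nat_lit 11280, R2_302, R2_159, R3_235⟩, ⟨nat_lit 6, nat_lit 13296, nat_lit 9312, nat_lit 14544, nat_lit 11328, nat_lit 7584, R2_303, R3_236, R2_158⟩]⟩]⟩]], [[], [⟨nat_lit 0, [⟨nat_lit 0, [⟨nat_lit 0, nat_lit 0, nat_lit 0, nat_lit 3408, nat_lit 480, nat_lit 11664, R6_71, R6_10, R6_243⟩]⟩, ⟨nat_lit 1, [⟨nat_lit 0, nat_lit 48,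 nat_lit 96, nat_lit 3168, nat_lit 912, nat_lit 12096, R4_66, R6_19, R4_252⟩]⟩, ⟨nat_lit 3, [⟨nat_lit 0, nat_lit 288, nat_lit 48, nat_lit 1488, nat_lit 768, nat_lit 12672, R8_31, R6_16, R8_264⟩, ⟨nat_lit 3, nat_lit 2592, nat_lit 1776, nat_lit 2160, nat_lit 2400, nat_lit 8352, R8_45, R8_50, R5_174⟩]⟩]⟩,
 ⟨nat_lit 2, [⟨nat_lit 0, [⟨nat_lit 0, nat_lit 4848, nat_lit 480, nat_lit 19872, nat_lit 4752, nat_lit 11856, R13_414, R13_99, R6_247⟩, ⟨nat_lit 2, nat_lit 6048, nat_lit 3264, nat_lit 19920, nat_lit 96, nat_lit 10560, R13_415, R3_2, R13_220⟩]⟩, ⟨nat_lit 1, [⟨nat_lit 0, nat_lit 4896, nat_lit 576, nat_lit 16128, nat_lit 4848, nat_lit 12192, R3_336, R13_101, R4_254⟩, ⟨nat_lit 2, nat_lit 6240, nat_lit 3360, nat_lit 16176, nat_lit 672, nat_lit 8592, R3_337, R3_14, R3_179⟩]⟩, ⟨nat_lit 2, [⟨nat_lit 2, nat_lit 6192, nat_lit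 3408, nat_lit 2976, nat_lit 240, nat_lit 11520, R3_62, R3_5, R3_240⟩]⟩, ⟨nat_lit 3, [⟨nat_lit 0, nat_lit 5136, nat_lit 528, nat_lit 16128, nat_lit 4800, nat_lit 12816, R9_336, R13_100, R8_267⟩, ⟨nat_lit 2, nat_lit 6480, nat_lit 3312, nat_lit 16176, nat_lit 528, nat_lit 8112, R9_337, R3_11, R9_169⟩, ⟨nat_lit 3, nat_lit 7152, nat_lit 2208, nat_lit 16224, nat_lit 3888, nat_lit 8400, R9_338, R9_81, R5_175⟩]⟩]⟩,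
 ⟨nat_lit 3, [⟨nat_lit 3, [⟨nat_lit 3, nat_lit 10272, nat_lit 1968, nat_lit 16896, nat_lit 4704, nat_lit 8448, R5_352, R5_98, R5_176⟩]⟩]⟩,
 ⟨nat_lit 6, [⟨nat_lit 2, [⟨nat_lit 2, nat_lit 12672, nat_lit 2544, nat_lit 14592, nat_lit 3216, nat_lit 11184, R2_304, R2_67, R3_233⟩]⟩]⟩], [], [], [], [⟨nat_lit 0, [⟨nat_lit 1, [⟨nat_lit 0, nat_lit 96, nat_lit 0, nat_lit 3216, nat_lit 864, nat_lit 13488, R4_67, R6_18, R7_281⟩, ⟨nat_lit 1, nat_lit 960, nat_lit 96, nat_lit 3264, nat_lit 432, nat_lit 12192, R4_68, R4_9, R2_254⟩]⟩]⟩,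
 ⟨nat_lit 2, [⟨nat_lit 1, [⟨nat_lit 0, nat_lit 4944, nat_lit 48, nat_lit 15888, nat_lit 4896, nat_lit 13584, R3_331, R13_102, R7_283⟩, ⟨nat_lit 1, nat_lit 6672, nat_lit 144, nat_lit 15984, nat_lit 3648, nat_lit 12288, R3_333, R3_76, R2_256⟩, ⟨nat_lit 2, nat_lit 6288, nat_lit 192, nat_lit 15936, nat_lit 624, nat_lit 11904, R3_332, R3_13, R2_248⟩]⟩]⟩]]], [[], [], [], [], [[⟨nat_lit 0, [⟨nat_lit 3, [⟨nat_lit 3, nat_lit 2208, nat_lit 2688, nat_lit 96, nat_lit 8496, nat_lit 5136, R4_2, R6_177, R4_107⟩]⟩, ⟨nat_lit 7, [⟨nat_lit 3, nat_lit 2352, nat_lit 2736, nat_lit 192, nat_lit 8544, nat_lit 9072, R7_4, R6_178, R7_189⟩]⟩]⟩,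
 ⟨nat_lit 2, [⟨nat_lit 3, [⟨nat_lit 0, nat_lit 4656, nat_lit 2496, nat_lit 912, nat_lit 4416, nat_lit 4800, R5_19, R6_92, R6_100⟩, ⟨nat_lit 2, nat_lit 5808, nat_lit 4224, nat_lit 1200, nat_lit 4656, nat_lit 7536, R5_25, R4_97, R8_157⟩, ⟨nat_lit 3, nat_lit 6960, nat_lit 3408, nat_lit 1488, nat_lit 8016, nat_lit 5184, R5_31, R8_167, R4_108⟩]⟩]⟩,
 ⟨nat_lit 3, [⟨nat_lit 4, [⟨nat_lit 7, nat_lit 10944, nat_lit 1008, nat_lit 192, nat_lit 9072, nat_lit 8544, R7_4, R7_189, R6_178⟩]⟩, ⟨nat_lit 7, [⟨nat_lit 3, nat_lit 10080, nat_lit 3072, nat_lit 18480, nat_lit 9216, nat_lit 9120, R14_385, R4_192, R7_190⟩, ⟨nat_lit 7, nat_lit 11232, nat_lit 1056, nat_lit 18432, nat_lit 9120, nat_lit 9216, R14_384, R7_190, R4_192⟩]⟩]⟩,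
 ⟨nat_lit 7, [⟨nat_lit 4, [⟨nat_lit 7, nat_lit 15936, nat_lit 528, nat_lit 96, nat_lit 5136, nat_lit 8496, R4_2, R4_107, R6_177⟩]⟩, ⟨nat_lit 6, [⟨nat_lit 4, nat_lit 14592, nat_lit 0, nat_lit 912, nat_lit 4800, nat_lit 4416, R5_19, R6_100, R6_92⟩, ⟨nat_lit 6, nat_lit 15360, nat_lit 1872, nat_lit 1200, nat_lit 7536, nat_lit 4656, R5_25, R8_157, R4_97⟩, ⟨nat_lit 7, nat_lit 16176, nat_lit 576, nat_lit 1488, nat_lit 5184, nat_lit 8016, R5_31, R4_108, R8_167⟩]⟩]⟩], [⟨nat_lit 0, [⟨nat_lit 3, [⟨nat_lit 3, nat_lit 2256, nat_lit 2112, nat_lit 144, nat_lit 9360, nat_lit 8496, R4_3, R6_195, R5_177⟩]⟩]⟩,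
 ⟨nat_lit 2, [⟨nat_lit 3, [⟨nat_lit 0, nat_lit 4704, nat_lit 1824, nat_lit 960, nat_lit 4608, nat_lit 12336, R5_20, R6_96, R8_257⟩, ⟨nat_lit 2, nat_lit 5856, nat_lit 3456, nat_lit 1248, nat_lit 4896, nat_lit 8160, R5_26, R4_102, R9_170⟩, ⟨nat_lit 3, nat_lit 7008, nat_lit 2496, nat_lit 1536, nat_lit 8688, nat_lit 8544, R5_32, R8_181, R5_178⟩]⟩]⟩], [⟨nat_lit 3, [⟨nat_lit 4, [⟨nat_lit 7, nat_lit 10992, nat_lit 1200, nat_lit 2256, nat_lit 9744, nat_lit 1152, R7_47, R7_203, R8_24⟩]⟩, ⟨nat_lit 7, [⟨nat_lit 7, nat_lit 11280, nat_lit 1248, nat_lit 18576, nat_lit 9792, nat_lit 4464, R14_387, R7_204, R5_93⟩]⟩]⟩,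
 ⟨nat_lit 7, [⟨nat_lit 4, [⟨nat_lit 4, nat_lit 14448, nat_lit 0, nat_lit 1872, nat_lit 5952, nat_lit 624, R4_39, R6_124, R6_13⟩, ⟨nat_lit 7, nat_lit 15984, nat_lit 720, nat_lit 2400, nat_lit 6288, nat_lit 768, R4_50, R4_131, R8_16⟩]⟩, ⟨nat_lit 6, [⟨nat_lit 4, nat_lit 14640, nat_lit 48, nat_lit 1056, nat_lit 6000, nat_lit 4512, R5_22, R6_125, R13_94⟩, ⟨nat_lit 6, nat_lit 15408, nat_lit 2256, nat_lit 1344, nat_lit 7584, nat_lit 384, R5_28, R8_158, R3_8⟩, ⟨nat_lit 7, nat_lit 16224, nat_lit 768, nat_lit 1680, nat_lit 6336, nat_lit 3744, R5_35, R4_132, R9_78⟩]⟩]⟩], [⟨nat_lit 0, [⟨nat_lit 7, [⟨nat_lit 3, nat_lit 2400, nat_lit 11568, nat_lit 240, nat_lit 9024, nat_lit 8256, R7_5, R6_188, R14_172⟩]⟩]⟩,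
 ⟨nat_lit 2, [⟨nat_lit 3, [⟨nat_lit 0, nat_lit 4752, nat_lit 16032, nat_lit 1008, nat_lit 4464, nat_lit 12144, R5_21, R6_93, R4_253⟩, ⟨nat_lit 2, nat_lit 5904, nat_lit 17376, nat_lit 1296, nat_lit 4704, nat_lit 14304, R5_27, R4_98, R5_298⟩]⟩]⟩,
 ⟨nat_lit 3, [⟨nat_lit 4, [⟨nat_lit 3, nat_lit 9936, nat_lit 13584, nat_lit 1296, nat_lit 9648, nat_lit 1680, R7_27, R4_201, R7_35⟩, ⟨nat_lit 7, nat_lit 11040, nat_lit 12336, nat_lit 768, nat_lit 10608, nat_lit 1584, R7_16, R7_221, R4_33⟩]⟩, ⟨nat_lit 7, [⟨nat_lit 3, nat_lit 10128, nat_lit 13872, nat_lit 18528, nat_lit 9696, nat_lit 8304, R14_386, R4_202, R14_173⟩]⟩]⟩,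
 ⟨nat_lit 7, [⟨nat_lit 4, [⟨nat_lit 7, nat_lit 16032, nat_lit 4320, nat_lit 672, nat_lit 6768, nat_lit 1008, R4_14, R4_141, R4_21⟩]⟩, ⟨nat_lit 6, [⟨nat_lit 7, nat_lit 16272, nat_lit 4512, nat_lit 1584, nat_lit 6816, nat_lit 0, R5_33, R4_142, R5_0⟩]⟩]⟩]], [[⟨nat_lit 7, [⟨nat_lit 4, [⟨nat_lit 7, nat_lit 16608, nat_lit 2112, nat_lit 144, nat_lit 8496, nat_lit 9360, R4_3, R5_177, R6_195⟩]⟩, ⟨nat_lit 6, [⟨nat_lit 4, nat_lit 15024, nat_lit 1824, nat_lit 960, nat_lit 12336, nat_lit 4608, R5_20, R8_257, R6_96⟩, ⟨nat_lit 6, nat_lit 15648, nat_lit 3456, nat_lit 1248, nat_lit 8160, nat_lit 4896, R5_26, R9_170, R4_102⟩, ⟨nat_lit 7, nat_lit 16944, nat_lit 2496, nat_lit 1536, nat_lit 8544, nat_lit 8688, R5_32, R5_178, R8_181⟩]⟩]⟩], [], [⟨nat_lit 7, [⟨nat_lit 4, [⟨nat_lit 4, nat_lit 14784, nat_lit 0, nat_lit 1968, nat_lit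 12624, nat_lit 720, R4_41, R8_263, R6_15⟩, ⟨nat_lit 7, nat_lit 16656, nat_lit 576, nat_lit 2448, nat_lit 8592, nat_lit 816, R4_51, R5_179, R8_17⟩]⟩, ⟨nat_lit 6, [⟨nat_lit 4, nat_lit 15072, nat_lit 144, nat_lit 1104, nat_lit 12768, nat_lit 4704, R5_23, R8_266, R13_98⟩, ⟨nat_lit 6, nat_lit 15696, nat_lit 1920, nat_lit 1392, nat_lit 8208, nat_lit 480, R5_29, R9_171, R3_10⟩, ⟨nat_lit 7, nat_lit 16992, nat_lit 960, nat_lit 1728, nat_lit 8640, nat_lit 3840, R5_36, R5_180, R9_80⟩]⟩]⟩], [⟨nat_lit 7, [⟨nat_lit 4, [⟨nat_lit 7, nat_lit 16704, nat_lit 11616, nat_lit 720, nat_lit 8688, nat_lit 1056, R4_15, R5_181, R4_22⟩]⟩, ⟨nat_lit 6, [⟨nat_lit 7, nat_lit 17040, nat_lit 14448, nat_lit 1632, nat_lit 8736, nat_lit 48, R5_34, R5_182, R5_1⟩]⟩]⟩]], [[⟨nat_lit 0, [⟨nat_lit 3, [⟨nat_lit 0, nat_lit 336, nat_lit 0, nat_lit 1872,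 nat_lit 624, nat_lit 5952, R4_39, R6_13, R6_124⟩, ⟨nat_lit 3, nat_lit 2640, nat_lit 720, nat_lit 2400, nat_lit 768, nat_lit 6288, R4_50, R8_16, R4_131⟩]⟩, ⟨nat_lit 7, [⟨nat_lit 3, nat_lit 2976, nat_lit 1200, nat_lit 2256, nat_lit 1152, nat_lit 9744, R7_47, R8_24, R7_203⟩]⟩]⟩,
 ⟨nat_lit 2, [⟨nat_lit 3, [⟨nat_lit 0, nat_lit 5184, nat_lit 48, nat_lit 1056, nat_lit 4512, nat_lit 6000, R5_22, R13_94, R6_125⟩, ⟨nat_lit 2, nat_lit 6528, nat_lit 2256, nat_lit 1344, nat_lit 384, nat_lit 7584, R5_28, R3_8, R8_158⟩, ⟨nat_lit 3, nat_lit 7200, nat_lit 768, nat_lit 1680, nat_lit 3744, nat_lit 6336, R5_35, R9_78, R4_132⟩]⟩]⟩,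
 ⟨nat_lit 3, [⟨nat_lit 7, [⟨nat_lit 3, nat_lit 10560, nat_lit 1248, nat_lit 18720, nat_lit 4464, nat_lit 9792, R14_390, R5_93, R7_204⟩]⟩]⟩], [⟨nat_lit 0, [⟨nat_lit 3, [⟨nat_lit 0, nat_lit 384, nat_lit 0, nat_lit 1968, nat_lit 720, nat_lit 12624, R4_41, R6_15, R8_263⟩, ⟨nat_lit 3, nat_lit 2688, nat_lit 576, nat_lit 2448, nat_lit 816, nat_lit 8592, R4_51, R8_17, R5_179⟩]⟩]⟩,
 ⟨nat_lit 2, [⟨nat_lit 3, [⟨nat_lit 0, nat_lit 5232, nat_lit 144, nat_lit 1104, nat_lit 4704, nat_lit 12768, R5_23, R13_98, R8_266⟩, ⟨nat_lit 2, nat_lit 6576, nat_lit 1920, nat_lit 1392, nat_lit 480, nat_lit 8208, R5_29, R3_10, R9_171⟩, ⟨nat_lit 3, nat_lit 7248, nat_lit 960, nat_lit 1728, nat_lit 3840, nat_lit 8640, R5_36, R9_80, R5_180⟩]⟩]⟩], [], [⟨nat_lit 0, [⟨nat_lit 3, [⟨nat_lit 0, nat_lit 432, nat_lit 0, nat_lit 1920, nat_lit 672, nat_lit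 12240, R4_40, R6_14, R4_255⟩]⟩, ⟨nat_lit 7, [⟨nat_lit 0, nat_lit 816, nat_lit 48, nat_lit 2112, nat_lit 144, nat_lit 13440, R7_44, R6_3, R7_280⟩, ⟨nat_lit 3, nat_lit 3024, nat_lit 960, nat_lit 2304, nat_lit 1200, nat_lit 8352, R7_48, R8_25, R14_174⟩]⟩]⟩,
 ⟨nat_lit 2, [⟨nat_lit 3, [⟨nat_lit 0, nat_lit 5280, nat_lit 336, nat_lit 1152, nat_lit 4560, nat_lit 12288, R5_24, R13_95, R4_256⟩, ⟨nat_lit 2, nat_lit 6624, nat_lit 2448, nat_lit 1440, nat_lit 432, nat_lit 14352, R5_30, R3_9, R5_299⟩]⟩]⟩,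
 ⟨nat_lit 3, [⟨nat_lit 4, [⟨nat_lit 3, nat_lit 10320, nat_lit 1296, nat_lit 1344, nat_lit 4512, nat_lit 1728, R7_28, R5_94, R7_36⟩]⟩, ⟨nat_lit 7, [⟨nat_lit 3, nat_lit 10608, nat_lit 1344, nat_lit 18768, nat_lit 4560, nat_lit 8400, R14_391, R5_95, R14_175⟩]⟩]⟩]], [[⟨nat_lit 0, [⟨nat_lit 3, [⟨nat_lit 3, nat_lit 3120, nat_lit 4320, nat_lit 672, nat_lit 1008, nat_lit 6768, R4_14, R4_21, R4_141⟩]⟩, ⟨nat_lit 7, [⟨nat_lit 3, nat_lit 3264, nat_lit 12336, nat_lit 768, nat_lit 1584, nat_lit 10608, R7_16, R4_33, R7_221⟩, ⟨nat_lit 7, nat_lit 4080, nat_lit 13584, nat_lit 1296, nat_lit 1680, nat_lit 9648, R7_27, R7_35, R4_201⟩]⟩]⟩,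
 ⟨nat_lit 2, [⟨nat_lit 3, [⟨nat_lit 3, nat_lit 7296, nat_lit 4512, nat_lit 1584, nat_lit 0, nat_lit 6816, R5_33, R5_0, R4_142⟩]⟩]⟩,
 ⟨nat_lit 3, [⟨nat_lit 4, [⟨nat_lit 7, nat_lit 11328, nat_lit 11568, nat_lit 240, nat_lit 8256, nat_lit 9024, R7_5, R14_172, R6_188⟩]⟩, ⟨nat_lit 7, [⟨nat_lit 7, nat_lit 11568, nat_lit 13872, nat_lit 18624, nat_lit 8304, nat_lit 9696, R14_388, R14_173, R4_202⟩]⟩]⟩,
 ⟨nat_lit 7, [⟨nat_lit 6, [⟨nat_lit 4, nat_lit 15168, nat_lit 16032, nat_lit 1008, nat_lit 12144, nat_lit 4464, R5_21, R4_253, R6_93⟩, ⟨nat_lit 6, nat_lit 15744, nat_lit 17376, nat_lit 1296, nat_lit 14304, nat_lit 4704, R5_27, R5_298, R4_98⟩]⟩]⟩], [⟨nat_lit 0, [⟨nat_lit 3, [⟨nat_lit 3, nat_lit 3168, nat_lit 11616, nat_lit 720, nat_lit 1056, nat_lit 8688, R4_15, R4_22, R5_181⟩]⟩]⟩,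
 ⟨nat_lit 2, [⟨nat_lit 3, [⟨nat_lit 3, nat_lit 7344, nat_lit 14448, nat_lit 1632, nat_lit 48, nat_lit 8736, R5_34, R5_1, R5_182⟩]⟩]⟩], [⟨nat_lit 0, [⟨nat_lit 7, [⟨nat_lit 7, nat_lit 4128, nat_lit 1296, nat_lit 1344, nat_lit 1728, nat_lit 4512, R7_28, R7_36, R5_94⟩]⟩]⟩,
 ⟨nat_lit 3, [⟨nat_lit 4, [⟨nat_lit 4, nat_lit 10656, nat_lit 48, nat_lit 2112, nat_lit 13440, nat_lit 144, R7_44, R7_280, R6_3⟩, ⟨nat_lit 7, nat_lit 11376, nat_lit 960, nat_lit 2304, nat_lit 8352, nat_lit 1200, R7_48, R14_174, R8_25⟩]⟩, ⟨nat_lit 7, [⟨nat_lit 7, nat_lit 11616, nat_lit 1344, nat_lit 18672, nat_lit 8400, nat_lit 4560, R14_389, R14_175, R5_95⟩]⟩]⟩,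
 ⟨nat_lit 7, [⟨nat_lit 4, [⟨nat_lit 4, nat_lit 15120, nat_lit 0, nat_lit 1920, nat_lit 12240, nat_lit 672, R4_40, R4_255, R6_14⟩]⟩, ⟨nat_lit 6, [⟨nat_lit 4, nat_lit 15216, nat_lit 336, nat_lit 1152, nat_lit 12288, nat_lit 4560, R5_24, R4_256, R13_95⟩, ⟨nat_lit 6, nat_lit 15792, nat_lit 2448, nat_lit 1440, nat_lit 14352, nat_lit 432, R5_30, R5_299, R3_9⟩]⟩]⟩]]]]
noncomputable def N3451 : T3 (List N0) := [[[[], [], [⟨nat_lit 1, [⟨nat_lit 4, [⟨nat_lit 4, nat_lit 3696, nat_lit 5712, nat_lit 7056, nat_lit 6048, nat_lit 17616, R6_147, R4_126, R8_367⟩, ⟨nat_lit 5, nat_lit 3744, nat_lit 6336, nat_lit 7200, nat_lit 768, nat_lit 1680, R6_150, R3_16, R5_35⟩]⟩, ⟨nat_lit 5, [⟨nat_lit 4, nat_lit 3936, nat_lit 5760, nat_lit 9072, nat_lit 6144, nat_lit 3600, R13_189, R4_128, R5_75⟩, ⟨nat_lit 5, nat_lit 3984, nat_lit 6384, nat_lit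 9168, nat_lit 816, nat_lit 1248, R13_191, R3_17, R11_26⟩]⟩]⟩], [], [], [], [⟨nat_lit 1, [⟨nat_lit 5, [⟨nat_lit 5, nat_lit 4032, nat_lit 5904, nat_lit 9120, nat_lit 1392, nat_lit 1872, R13_190, R3_29, R1_39⟩]⟩]⟩]], [], [[], [], [], [], [⟨nat_lit 1, [⟨nat_lit 5, [⟨nat_lit 1, nat_lit 4128, nat_lit 5904, nat_lit 9360, nat_lit 1872, nat_lit 1392, R13_195, R1_39, R3_29⟩]⟩]⟩], [], [⟨nat_lit 1, [⟨nat_lit 5, [⟨nat_lit 1, nat_lit 4176, nat_lit 16272, nat_lit 9408, nat_lit 1920, nat_lit 2064, R13_196, R1_40, R10_43⟩, ⟨nat_lit 5, nat_lit 4080, nat_lit 16320, nat_lit 9456, nat_lit 2064, nat_lit 1920, R13_197, R10_43, R1_40⟩]⟩]⟩]], [[], [], [⟨nat_lit 1, [⟨nat_lit 4, [⟨nat_lit 4, nat_lit 3792, nat_lit 8112, nat_lit 7104, nat_lit 9312, nat_lit 18336, R6_148, R5_194, R8_382⟩, ⟨nat_lit 5, nat_lit 3840, nat_lit 8640, nat_lit 7248,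 nat_lit 960, nat_lit 1728, R6_151, R0_20, R5_36⟩, ⟨nat_lit 7, nat_lit 3888, nat_lit 8400, nat_lit 7152, nat_lit 2208, nat_lit 2064, R6_149, R11_46, R9_43⟩]⟩, ⟨nat_lit 5, [⟨nat_lit 4, nat_lit 4224, nat_lit 10224, nat_lit 9216, nat_lit 11520, nat_lit 11808, R13_192, R5_240, R5_246⟩, ⟨nat_lit 5, nat_lit 4272, nat_lit 10416, nat_lit 9312, nat_lit 1008, nat_lit 1296, R13_194, R0_21, R11_27⟩, ⟨nat_lit 7, nat_lit 4320, nat_lit 10320, nat_lit 9264, nat_lit 2256, nat_lit 384, R13_193, R11_47, R0_8⟩]⟩]⟩]], [], [], [[], [], [], [], [⟨nat_lit 0, [⟨nat_lit 5, [⟨nat_lit 0, nat_lit 0, nat_lit 5712, nat_lit 7056, nat_lit 17616, nat_lit 6048, R6_147, R8_367, R4_126⟩, ⟨nat_lit 1, nat_lit 96, nat_lit 6336, nat_lit 7200, nat_lit 1680, nat_lit 768, R6_150, R5_35, R3_16⟩]⟩]⟩,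
 ⟨nat_lit 1, [⟨nat_lit 5, [⟨nat_lit 0, nat_lit 4368, nat_lit 5760, nat_lit 8832, nat_lit 3600, nat_lit 6144, R13_184, R5_75, R4_128⟩, ⟨nat_lit 1, nat_lit 4464, nat_lit 6384, nat_lit 8976, nat_lit 1248, nat_lit 816, R13_187, R11_26, R3_17⟩]⟩]⟩], [], [], [⟨nat_lit 0, [⟨nat_lit 5, [⟨nat_lit 0, nat_lit 48, nat_lit 8112, nat_lit 7104, nat_lit 18336, nat_lit 9312, R6_148, R8_382, R5_194⟩, ⟨nat_lit 1, nat_lit 144, nat_lit 8640, nat_lit 7248, nat_lit 1728, nat_lit 960, R6_151, R5_36, R0_20⟩, ⟨nat_lit 3, nat_lit 192, nat_lit 8400, nat_lit 7152, nat_lit 2064, nat_lit 2208, R6_149, R9_43, R11_46⟩]⟩]⟩,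
 ⟨nat_lit 1, [⟨nat_lit 5, [⟨nat_lit 0, nat_lit 4416, nat_lit 10224, nat_lit 8880, nat_lit 11808, nat_lit 11520, R13_185, R5_246, R5_240⟩, ⟨nat_lit 1, nat_lit 4512, nat_lit 10416, nat_lit 9024, nat_lit 1296, nat_lit 1008, R13_188, R11_27, R0_21⟩, ⟨nat_lit 3, nat_lit 4560, nat_lit 10320, nat_lit 8928, nat_lit 384, nat_lit 2256, R13_186, R0_8, R11_47⟩]⟩]⟩]]], [[[], [], [⟨nat_lit 1, [⟨nat_lit 4, [⟨nat_lit 4, nat_lit 4608, nat_lit 1008, nat_lit 7728, nat_lit 6624, nat_lit 17760, R4_161, R4_138, R8_370⟩, ⟨nat_lit 5, nat_lit 4656, nat_lit 6192, nat_lit 7872, nat_lit 6096, nat_lit 4128, R4_164, R3_127, R5_86⟩]⟩, ⟨nat_lit 5, [⟨nat_lit 4, nat_lit 4848, nat_lit 1056, nat_lit 7152, nat_lit 6672, nat_lit 3744, R3_149, R4_139, R5_78⟩, ⟨nat_lit 5, nat_lit 4896, nat_lit 6240, nat_lit 7248, nat_lit 6144, nat_lit 4128, R3_151,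 R3_128, R11_86⟩]⟩]⟩,
 ⟨nat_lit 5, [⟨nat_lit 4, [⟨nat_lit 4, nat_lit 14016, nat_lit 1680, nat_lit 7680, nat_lit 6240, nat_lit 11040, R7_160, R7_130, R8_230⟩, ⟨nat_lit 5, nat_lit 14064, nat_lit 6624, nat_lit 7920, nat_lit 4416, nat_lit 3024, R7_165, R2_92, R5_63⟩, ⟨nat_lit 7, nat_lit 14112, nat_lit 8208, nat_lit 7776, nat_lit 8976, nat_lit 3072, R7_162, R2_187, R9_64⟩]⟩, ⟨nat_lit 5, [⟨nat_lit 4, nat_lit 14592, nat_lit 1776, nat_lit 6528, nat_lit 6432, nat_lit 2784, R2_136, R7_134, R5_58⟩, ⟨nat_lit 5, nat_lit 14640, nat_lit 6720, nat_lit 6768, nat_lit 4608, nat_lit 3024, R2_141, R2_96, R11_63⟩, ⟨nat_lit 7, nat_lit 14736, nat_lit 8352, nat_lit 6624, nat_lit 9552, nat_lit 1536, R2_138, R2_199, R0_32⟩]⟩, ⟨nat_lit 6, [⟨nat_lit 4, nat_lit 14352, nat_lit 1920, nat_lit 10032, nat_lit 6336, nat_lit 2976, R2_209, R7_132,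 R9_62⟩, ⟨nat_lit 5, nat_lit 14400, nat_lit 6864, nat_lit 10176, nat_lit 4512, nat_lit 1440, R2_212, R2_94, R0_30⟩]⟩]⟩], [], [], [], [⟨nat_lit 1, [⟨nat_lit 5, [⟨nat_lit 5, nat_lit 4944, nat_lit 4320, nat_lit 7200, nat_lit 6576, nat_lit 2304, R3_150, R3_137, R1_48⟩]⟩]⟩,
 ⟨nat_lit 5, [⟨nat_lit 5, [⟨nat_lit 5, nat_lit 14688, nat_lit 13008, nat_lit 6864, nat_lit 13584, nat_lit 2160, R2_143, R2_283, R1_45⟩]⟩]⟩]], [[], [], [⟨nat_lit 5, [⟨nat_lit 4, [⟨nat_lit 4, nat_lit 14160, nat_lit 15744, nat_lit 7728, nat_lit 19968, nat_lit 11616, R7_161, R14_416, R8_242⟩, ⟨nat_lit 5, nat_lit 14208, nat_lit 17472, nat_lit 7968, nat_lit 15744, nat_lit 3072, R7_166, R12_328, R5_64⟩, ⟨nat_lit 7, nat_lit 14256, nat_lit 16608, nat_lit 7824, nat_lit 7584, nat_lit 3168, R7_163, R12_158, R9_66⟩]⟩, ⟨nat_lit 5, [⟨nat_lit 4, nat_lit 14784,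 nat_lit 15792, nat_lit 6576, nat_lit 21264, nat_lit 14016, R2_137, R14_443, R5_292⟩, ⟨nat_lit 5, nat_lit 14832, nat_lit 17520, nat_lit 6816, nat_lit 17040, nat_lit 3072, R2_142, R12_355, R11_64⟩, ⟨nat_lit 7, nat_lit 14928, nat_lit 16656, nat_lit 6672, nat_lit 9408, nat_lit 1632, R2_139, R12_196, R0_34⟩]⟩, ⟨nat_lit 6, [⟨nat_lit 4, nat_lit 14448, nat_lit 15936, nat_lit 10080, nat_lit 20640, nat_lit 12720, R2_210, R14_430, R9_265⟩, ⟨nat_lit 5, nat_lit 14544, nat_lit 17616, nat_lit 10224, nat_lit 16416, nat_lit 10896, R2_213, R12_342, R0_227⟩, ⟨nat_lit 6, nat_lit 14496, nat_lit 18144, nat_lit 10128, nat_lit 16176, nat_lit 10560, R2_211, R12_337, R0_220⟩]⟩]⟩], [], [], [], [⟨nat_lit 5, [⟨nat_lit 5, [⟨nat_lit 5, nat_lit 14880, nat_lit 14352, nat_lit 6912, nat_lit 15360, nat_lit 2256, R2_144, R12_320, R1_47⟩]⟩]⟩]],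 [[], [], [], [], [], [], [⟨nat_lit 1, [⟨nat_lit 5, [⟨nat_lit 1, nat_lit 5040, nat_lit 13344, nat_lit 7440, nat_lit 1968, nat_lit 2208, R3_155, R1_41, R10_46⟩, ⟨nat_lit 5, nat_lit 4992, nat_lit 13392, nat_lit 7488, nat_lit 2112, nat_lit 2352, R3_156, R10_44, R1_49⟩]⟩]⟩,
 ⟨nat_lit 5, [⟨nat_lit 5, [⟨nat_lit 5, nat_lit 14976, nat_lit 12480, nat_lit 6960, nat_lit 14928, nat_lit 2208, R2_145, R1_311, R1_46⟩]⟩]⟩]], [[], [], [⟨nat_lit 1, [⟨nat_lit 4, [⟨nat_lit 4, nat_lit 4704, nat_lit 8304, nat_lit 7776, nat_lit 10032, nat_lit 18624, R4_162, R5_209, R8_388⟩, ⟨nat_lit 5, nat_lit 4752, nat_lit 8400, nat_lit 7920, nat_lit 1056, nat_lit 4176, R4_165, R0_22, R5_87⟩, ⟨nat_lit 7, nat_lit 4800, nat_lit 8496, nat_lit 7824, nat_lit 2304, nat_lit 3600, R4_163, R11_48, R9_75⟩]⟩, ⟨nat_lit 5, [⟨nat_lit 4, nat_lit 5088, nat_lit 8352,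 nat_lit 7296, nat_lit 12336, nat_lit 12096, R3_152, R5_257, R5_252⟩, ⟨nat_lit 5, nat_lit 5136, nat_lit 8448, nat_lit 7392, nat_lit 1104, nat_lit 4176, R3_154, R0_23, R11_87⟩, ⟨nat_lit 7, nat_lit 5184, nat_lit 8592, nat_lit 7344, nat_lit 2352, nat_lit 2064, R3_153, R11_49, R0_43⟩]⟩]⟩,
 ⟨nat_lit 5, [⟨nat_lit 4, [⟨nat_lit 7, nat_lit 14304, nat_lit 8544, nat_lit 7872, nat_lit 9792, nat_lit 3120, R7_164, R1_204, R9_65⟩]⟩, ⟨nat_lit 5, [⟨nat_lit 7, nat_lit 15024, nat_lit 8640, nat_lit 6720, nat_lit 10368, nat_lit 1584, R2_140, R1_216, R0_33⟩]⟩]⟩]]], [[], [], [[], [], [], [], [⟨nat_lit 1, [⟨nat_lit 1, [⟨nat_lit 1, nat_lit 5616, nat_lit 13008, nat_lit 6864, nat_lit 2160, nat_lit 13584, R2_143, R1_45, R2_283⟩]⟩, ⟨nat_lit 5, [⟨nat_lit 1, nat_lit 5280, nat_lit 4320, nat_lit 7200, nat_lit 2304, nat_lit 6576, R3_150, R1_48,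 R3_137⟩]⟩]⟩], [⟨nat_lit 1, [⟨nat_lit 1, [⟨nat_lit 1, nat_lit 5664, nat_lit 14352, nat_lit 6912, nat_lit 2256, nat_lit 15360, R2_144, R1_47, R12_320⟩]⟩]⟩], [⟨nat_lit 1, [⟨nat_lit 1, [⟨nat_lit 1, nat_lit 5712, nat_lit 12480, nat_lit 6960, nat_lit 2208, nat_lit 14928, R2_145, R1_46, R1_311⟩]⟩, ⟨nat_lit 5, [⟨nat_lit 1, nat_lit 5328, nat_lit 13392, nat_lit 7488, nat_lit 2352, nat_lit 2112, R3_156, R1_49, R10_44⟩, ⟨nat_lit 5, nat_lit 5232, nat_lit 13344, nat_lit 7440, nat_lit 2208, nat_lit 1968, R3_155, R10_46, R1_41⟩]⟩]⟩]], [], [], [], [[], [], [], [], [⟨nat_lit 0, [⟨nat_lit 1, [⟨nat_lit 0, nat_lit 480, nat_lit 1680, nat_lit 7680, nat_lit 11040, nat_lit 6240, R7_160, R8_230, R7_130⟩, ⟨nat_lit 1, nat_lit 576, nat_lit 6624, nat_lit 7920, nat_lit 3024, nat_lit 4416, R7_165, R5_63, R2_92⟩, ⟨nat_lit 3, nat_lit 672, nat_lit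 8208, nat_lit 7776, nat_lit 3072, nat_lit 8976, R7_162, R9_64, R2_187⟩]⟩, ⟨nat_lit 5, [⟨nat_lit 0, nat_lit 240, nat_lit 1008, nat_lit 7728, nat_lit 17760, nat_lit 6624, R4_161, R8_370, R4_138⟩, ⟨nat_lit 1, nat_lit 336, nat_lit 6192, nat_lit 7872, nat_lit 4128, nat_lit 6096, R4_164, R5_86, R3_127⟩]⟩]⟩,
 ⟨nat_lit 1, [⟨nat_lit 1, [⟨nat_lit 0, nat_lit 5760, nat_lit 1776, nat_lit 6528, nat_lit 2784, nat_lit 6432, R2_136, R5_58, R7_134⟩, ⟨nat_lit 1, nat_lit 5856, nat_lit 6720, nat_lit 6768, nat_lit 3024, nat_lit 4608, R2_141, R11_63, R2_96⟩, ⟨nat_lit 3, nat_lit 5952, nat_lit 8352, nat_lit 6624, nat_lit 1536, nat_lit 9552, R2_138, R0_32, R2_199⟩]⟩, ⟨nat_lit 5, [⟨nat_lit 0, nat_lit 5376, nat_lit 1056, nat_lit 7152, nat_lit 3744, nat_lit 6672, R3_149, R5_78, R4_139⟩, ⟨nat_lit 1, nat_lit 5472, nat_lit 6240, nat_lit 7248,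 nat_lit 4128, nat_lit 6144, R3_151, R11_86, R3_128⟩]⟩]⟩,
 ⟨nat_lit 2, [⟨nat_lit 1, [⟨nat_lit 0, nat_lit 7728, nat_lit 1920, nat_lit 10032, nat_lit 2976, nat_lit 6336, R2_209, R9_62, R7_132⟩, ⟨nat_lit 1, nat_lit 7872, nat_lit 6864, nat_lit 10176, nat_lit 1440, nat_lit 4512, R2_212, R0_30, R2_94⟩]⟩]⟩], [⟨nat_lit 0, [⟨nat_lit 1, [⟨nat_lit 0, nat_lit 528, nat_lit 10416, nat_lit 7728, nat_lit 11616, nat_lit 19968, R7_161, R8_242, R14_416⟩, ⟨nat_lit 1, nat_lit 624, nat_lit 10560, nat_lit 7968, nat_lit 3072, nat_lit 15744, R7_166, R5_64, R12_328⟩, ⟨nat_lit 3, nat_lit 720, nat_lit 10704, nat_lit 7824, nat_lit 3168, nat_lit 7584, R7_163, R9_66, R12_158⟩]⟩]⟩,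
 ⟨nat_lit 1, [⟨nat_lit 1, [⟨nat_lit 0, nat_lit 5808, nat_lit 10464, nat_lit 6576, nat_lit 14016, nat_lit 21264, R2_137, R5_292, R14_443⟩, ⟨nat_lit 1, nat_lit 5904, nat_lit 10608, nat_lit 6816, nat_lit 3072, nat_lit 17040, R2_142, R11_64, R12_355⟩, ⟨nat_lit 3, nat_lit 6000, nat_lit 10752, nat_lit 6672, nat_lit 1632, nat_lit 9408, R2_139, R0_34, R12_196⟩]⟩]⟩,
 ⟨nat_lit 2, [⟨nat_lit 1, [⟨nat_lit 0, nat_lit 7776, nat_lit 10512, nat_lit 10080, nat_lit 12720, nat_lit 20640, R2_210, R9_265, R14_430⟩, ⟨nat_lit 1, nat_lit 7920, nat_lit 10656, nat_lit 10224, nat_lit 10896, nat_lit 16416, R2_213, R0_227, R12_342⟩, ⟨nat_lit 2, nat_lit 7824, nat_lit 10800, nat_lit 10128, nat_lit 10560, nat_lit 16176, R2_211, R0_220, R12_337⟩]⟩]⟩], [], [⟨nat_lit 0, [⟨nat_lit 1, [⟨nat_lit 3, nat_lit 768, nat_lit 8544, nat_lit 7872, nat_lit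 3120, nat_lit 9792, R7_164, R9_65, R1_204⟩]⟩, ⟨nat_lit 5, [⟨nat_lit 0, nat_lit 288, nat_lit 8304, nat_lit 7776, nat_lit 18624, nat_lit 10032, R4_162, R8_388, R5_209⟩, ⟨nat_lit 1, nat_lit 384, nat_lit 8400, nat_lit 7920, nat_lit 4176, nat_lit 1056, R4_165, R5_87, R0_22⟩, ⟨nat_lit 3, nat_lit 432, nat_lit 8496, nat_lit 7824, nat_lit 3600, nat_lit 2304, R4_163, R9_75, R11_48⟩]⟩]⟩,
 ⟨nat_lit 1, [⟨nat_lit 1, [⟨nat_lit 3, nat_lit 6048, nat_lit 8640, nat_lit 6720, nat_lit 1584, nat_lit 10368, R2_140, R0_33, R1_216⟩]⟩, ⟨nat_lit 5, [⟨nat_lit 0, nat_lit 5424, nat_lit 8352, nat_lit 7296, nat_lit 12096, nat_lit 12336, R3_152, R5_252, R5_257⟩, ⟨nat_lit 1, nat_lit 5520, nat_lit 8448, nat_lit 7392, nat_lit 4176, nat_lit 1104, R3_154, R11_87, R0_23⟩, ⟨nat_lit 3, nat_lit 5568, nat_lit 8592, nat_lit 7344, nat_lit 2064, nat_lit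 2352, R3_153, R0_43, R11_49⟩]⟩]⟩]]], [[[], [], [], [], [], [], [⟨nat_lit 1, [⟨nat_lit 5, [⟨nat_lit 5, nat_lit 6528, nat_lit 9312, nat_lit 6960, nat_lit 7872, nat_lit 2016, R9_145, R3_164, R1_42⟩]⟩]⟩]], [], [[], [], [], [], [⟨nat_lit 1, [⟨nat_lit 5, [⟨nat_lit 1, nat_lit 6624, nat_lit 9312, nat_lit 7200, nat_lit 2016, nat_lit 7872, R9_150, R1_42, R3_164⟩]⟩]⟩], [], [⟨nat_lit 1, [⟨nat_lit 5, [⟨nat_lit 1, nat_lit 6672, nat_lit 8208, nat_lit 7296, nat_lit 2064, nat_lit 2160, R9_152, R1_43, R10_45⟩, ⟨nat_lit 5, nat_lit 6576, nat_lit 8544, nat_lit 7344, nat_lit 2160, nat_lit 2064, R9_153, R10_45, R1_43⟩]⟩]⟩], [⟨nat_lit 1, [⟨nat_lit 5, [⟨nat_lit 1, nat_lit 6720, nat_lit 10128, nat_lit 7248, nat_lit 2112, nat_lit 1248, R9_151, R1_44, R0_26⟩]⟩]⟩]], [[], [], [⟨nat_lit 1, [⟨nat_lit 4, [⟨nat_lit 4, nat_lit 6096, nat_lit 10560,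 nat_lit 6672, nat_lit 9696, nat_lit 18480, R8_139, R5_202, R8_385⟩, ⟨nat_lit 5, nat_lit 6144, nat_lit 11088, nat_lit 6816, nat_lit 1152, nat_lit 2496, R8_142, R0_24, R5_52⟩, ⟨nat_lit 7, nat_lit 6192, nat_lit 10848, nat_lit 6720, nat_lit 2400, nat_lit 2736, R8_140, R11_50, R9_57⟩]⟩, ⟨nat_lit 5, [⟨nat_lit 4, nat_lit 6768, nat_lit 13488, nat_lit 7008, nat_lit 11952, nat_lit 11952, R9_146, R5_249, R5_249⟩, ⟨nat_lit 5, nat_lit 6816, nat_lit 13680, nat_lit 7152, nat_lit 1200, nat_lit 2496, R9_149, R0_25, R11_52⟩, ⟨nat_lit 7, nat_lit 6912, nat_lit 13584, nat_lit 7056, nat_lit 2496, nat_lit 1200, R9_147, R11_52, R0_25⟩]⟩, ⟨nat_lit 7, [⟨nat_lit 7, nat_lit 7392, nat_lit 12816, nat_lit 6864, nat_lit 2448, nat_lit 14688, R5_143, R11_51, R0_306⟩]⟩]⟩], [], [], [], [⟨nat_lit 1, [⟨nat_lit 5, [⟨nat_lit 5, nat_lit 6864, nat_lit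 10128, nat_lit 7104, nat_lit 1248, nat_lit 2112, R9_148, R0_26, R1_44⟩]⟩]⟩]], [[], [], [], [⟨nat_lit 0, [⟨nat_lit 4, [⟨nat_lit 3, nat_lit 816, nat_lit 8448, nat_lit 8832, nat_lit 9936, nat_lit 1584, R6_184, R13_207, R2_33⟩]⟩, ⟨nat_lit 5, [⟨nat_lit 3, nat_lit 1104, nat_lit 8544, nat_lit 6432, nat_lit 10032, nat_lit 1056, R8_134, R13_209, R1_22⟩]⟩, ⟨nat_lit 7, [⟨nat_lit 3, nat_lit 1536, nat_lit 8496, nat_lit 9456, nat_lit 9984, nat_lit 7200, R4_197, R13_208, R12_150⟩]⟩]⟩,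
 ⟨nat_lit 1, [⟨nat_lit 4, [⟨nat_lit 3, nat_lit 6240, nat_lit 9216, nat_lit 6528, nat_lit 7776, nat_lit 2544, R8_136, R3_162, R2_53⟩]⟩, ⟨nat_lit 5, [⟨nat_lit 3, nat_lit 6960, nat_lit 9312, nat_lit 6528, nat_lit 7872, nat_lit 2016, R9_136, R3_164, R1_42⟩]⟩, ⟨nat_lit 7, [⟨nat_lit 3, nat_lit 7440, nat_lit 9264, nat_lit 6576, nat_lit 7824, nat_lit 7248, R5_137, R3_163, R12_151⟩]⟩]⟩,
 ⟨nat_lit 3, [⟨nat_lit 4, [⟨nat_lit 3, nat_lit 10224, nat_lit 9792, nat_lit 8448, nat_lit 12912, nat_lit 2160, R4_176, R3_269, R2_45⟩, ⟨nat_lit 7, nat_lit 10176, nat_lit 7248, nat_lit 10176, nat_lit 7152, nat_lit 13776, R4_212, R2_149, R3_287⟩]⟩, ⟨nat_lit 5, [⟨nat_lit 3, nat_lit 10512, nat_lit 9840, nat_lit 6720, nat_lit 13008, nat_lit 1632, R5_140, R3_271, R1_34⟩, ⟨nat_lit 7, nat_lit 10464, nat_lit 7296, nat_lit 6624, nat_lit 7200, nat_lit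 1824, R5_138, R2_150, R10_38⟩]⟩]⟩]], [], [[], [], [], [⟨nat_lit 0, [⟨nat_lit 4, [⟨nat_lit 3, nat_lit 864, nat_lit 9264, nat_lit 9552, nat_lit 2304, nat_lit 1680, R6_199, R9_48, R2_35⟩]⟩, ⟨nat_lit 5, [⟨nat_lit 3, nat_lit 1248, nat_lit 9360, nat_lit 6768, nat_lit 2784, nat_lit 1152, R8_141, R9_58, R1_24⟩]⟩, ⟨nat_lit 7, [⟨nat_lit 3, nat_lit 1584, nat_lit 9312, nat_lit 10464, nat_lit 2448, nat_lit 7296, R4_218, R9_51, R12_152⟩]⟩]⟩,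
 ⟨nat_lit 1, [⟨nat_lit 4, [⟨nat_lit 3, nat_lit 6288, nat_lit 10032, nat_lit 6624, nat_lit 768, nat_lit 2640, R8_138, R0_16, R2_55⟩]⟩, ⟨nat_lit 5, [⟨nat_lit 3, nat_lit 7104, nat_lit 10128, nat_lit 6864, nat_lit 1248, nat_lit 2112, R9_143, R0_26, R1_44⟩]⟩, ⟨nat_lit 7, [⟨nat_lit 3, nat_lit 7488, nat_lit 10080, nat_lit 6816, nat_lit 912, nat_lit 7344, R5_142, R0_19, R12_153⟩]⟩]⟩,
 ⟨nat_lit 3, [⟨nat_lit 4, [⟨nat_lit 3, nat_lit 10272, nat_lit 10608, nat_lit 8496, nat_lit 11568, nat_lit 2208, R4_177, R0_241, R2_46⟩]⟩, ⟨nat_lit 5, [⟨nat_lit 3, nat_lit 10560, nat_lit 10656, nat_lit 6768, nat_lit 14400, nat_lit 1680, R5_141, R0_300, R1_35⟩]⟩]⟩], [], [], [], [⟨nat_lit 0, [⟨nat_lit 5, [⟨nat_lit 0, nat_lit 1152, nat_lit 13440, nat_lit 6672, nat_lit 18480, nat_lit 9696, R8_139, R8_385, R5_202⟩, ⟨nat_lit 1, nat_lit 1200, nat_lit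 13536, nat_lit 6816, nat_lit 2496, nat_lit 1152, R8_142, R5_52, R0_24⟩, ⟨nat_lit 3, nat_lit 1296, nat_lit 13632, nat_lit 6720, nat_lit 2736, nat_lit 2400, R8_140, R9_57, R11_50⟩]⟩]⟩,
 ⟨nat_lit 1, [⟨nat_lit 5, [⟨nat_lit 0, nat_lit 7008, nat_lit 13488, nat_lit 6768, nat_lit 11952, nat_lit 11952, R9_141, R5_249, R5_249⟩, ⟨nat_lit 1, nat_lit 7056, nat_lit 13584, nat_lit 6912, nat_lit 2496, nat_lit 1200, R9_144, R11_52, R0_25⟩, ⟨nat_lit 3, nat_lit 7152, nat_lit 13680, nat_lit 6816, nat_lit 1200, nat_lit 2496, R9_142, R0_25, R11_52⟩]⟩]⟩,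
 ⟨nat_lit 3, [⟨nat_lit 5, [⟨nat_lit 3, nat_lit 10608, nat_lit 13728, nat_lit 6864, nat_lit 14688, nat_lit 2448, R5_143, R0_306, R11_51⟩]⟩]⟩]], [[⟨nat_lit 0, [⟨nat_lit 4, [⟨nat_lit 7, nat_lit 912, nat_lit 8448, nat_lit 8016, nat_lit 1584, nat_lit 9936, R6_167, R2_33, R13_207⟩]⟩, ⟨nat_lit 5, [⟨nat_lit 7, nat_lit 1344, nat_lit 9216, nat_lit 6528, nat_lit 2544, nat_lit 7776, R8_136, R2_53, R3_162⟩]⟩, ⟨nat_lit 7, [⟨nat_lit 3, nat_lit 1728, nat_lit 7248, nat_lit 10176, nat_lit 13776, nat_lit 7152, R4_212, R3_287, R2_149⟩, ⟨nat_lit 7, nat_lit 1632, nat_lit 9792, nat_lit 8448, nat_lit 2160, nat_lit 12912, R4_176, R2_45, R3_269⟩]⟩]⟩,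
 ⟨nat_lit 1, [⟨nat_lit 4, [⟨nat_lit 7, nat_lit 6336, nat_lit 8544, nat_lit 6432, nat_lit 1056, nat_lit 10032, R8_134, R1_22, R13_209⟩]⟩, ⟨nat_lit 5, [⟨nat_lit 7, nat_lit 7200, nat_lit 9312, nat_lit 6624, nat_lit 2016, nat_lit 7872, R9_138, R1_42, R3_164⟩]⟩, ⟨nat_lit 7, [⟨nat_lit 3, nat_lit 7632, nat_lit 7296, nat_lit 6624, nat_lit 1824, nat_lit 7200, R5_138, R10_38, R2_150⟩, ⟨nat_lit 7, nat_lit 7536, nat_lit 9840, nat_lit 6720, nat_lit 1632, nat_lit 13008, R5_140, R1_34, R3_271⟩]⟩]⟩,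
 ⟨nat_lit 3, [⟨nat_lit 4, [⟨nat_lit 7, nat_lit 10320, nat_lit 8496, nat_lit 9456, nat_lit 7200, nat_lit 9984, R4_197, R12_150, R13_208⟩]⟩, ⟨nat_lit 5, [⟨nat_lit 7, nat_lit 10656, nat_lit 9264, nat_lit 6576, nat_lit 7248, nat_lit 7824, R5_137, R12_151, R3_163⟩]⟩]⟩], [], [⟨nat_lit 0, [⟨nat_lit 4, [⟨nat_lit 7, nat_lit 960, nat_lit 9264, nat_lit 8112, nat_lit 1680, nat_lit 2304, R6_169, R2_35, R9_48⟩]⟩, ⟨nat_lit 5, [⟨nat_lit 7, nat_lit 1392, nat_lit 10032, nat_lit 6624, nat_lit 2640, nat_lit 768, R8_138, R2_55, R0_16⟩]⟩, ⟨nat_lit 7, [⟨nat_lit 7, nat_lit 1680, nat_lit 10608, nat_lit 8496, nat_lit 2208, nat_lit 11568, R4_177, R2_46, R0_241⟩]⟩]⟩,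
 ⟨nat_lit 1, [⟨nat_lit 4, [⟨nat_lit 7, nat_lit 6384, nat_lit 9360, nat_lit 6768, nat_lit 1152, nat_lit 2784, R8_141, R1_24, R9_58⟩]⟩, ⟨nat_lit 5, [⟨nat_lit 7, nat_lit 7248, nat_lit 10128, nat_lit 6720, nat_lit 2112, nat_lit 1248, R9_140, R1_44, R0_26⟩]⟩, ⟨nat_lit 7, [⟨nat_lit 7, nat_lit 7584, nat_lit 10656, nat_lit 6768, nat_lit 1680, nat_lit 14400, R5_141, R1_35, R0_300⟩]⟩]⟩,
 ⟨nat_lit 3, [⟨nat_lit 4, [⟨nat_lit 7, nat_lit 10368, nat_lit 9312, nat_lit 10464, nat_lit 7296, nat_lit 2448, R4_218, R12_152, R9_51⟩]⟩, ⟨nat_lit 5, [⟨nat_lit 7, nat_lit 10704, nat_lit 10080, nat_lit 6816, nat_lit 7344, nat_lit 912, R5_142, R12_153, R0_19⟩]⟩]⟩], [⟨nat_lit 0, [⟨nat_lit 4, [⟨nat_lit 3, nat_lit 1056, nat_lit 8352, nat_lit 9312, nat_lit 11808, nat_lit 1632, R6_194, R3_246, R2_34⟩, ⟨nat_lit 7, nat_lit 1008, nat_lit 8064, nat_lit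 8064, nat_lit 1632, nat_lit 11808, R6_168, R2_34, R3_246⟩]⟩, ⟨nat_lit 5, [⟨nat_lit 3, nat_lit 1488, nat_lit 8400, nat_lit 6480, nat_lit 16944, nat_lit 1104, R8_135, R3_353, R1_23⟩, ⟨nat_lit 7, nat_lit 1440, nat_lit 8112, nat_lit 6576, nat_lit 2592, nat_lit 1200, R8_137, R2_54, R10_25⟩]⟩, ⟨nat_lit 7, [⟨nat_lit 3, nat_lit 1776, nat_lit 8448, nat_lit 10224, nat_lit 14160, nat_lit 7392, R4_213, R3_295, R12_154⟩]⟩]⟩,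
 ⟨nat_lit 1, [⟨nat_lit 4, [⟨nat_lit 3, nat_lit 6480, nat_lit 8496, nat_lit 6576, nat_lit 1200, nat_lit 2592, R8_137, R10_25, R2_54⟩, ⟨nat_lit 7, nat_lit 6432, nat_lit 8160, nat_lit 6480, nat_lit 1104, nat_lit 16944, R8_135, R1_23, R3_353⟩]⟩, ⟨nat_lit 5, [⟨nat_lit 3, nat_lit 7344, nat_lit 8544, nat_lit 6576, nat_lit 2160, nat_lit 2064, R9_137, R10_45, R1_43⟩, ⟨nat_lit 7, nat_lit 7296, nat_lit 8208, nat_lit 6672, nat_lit 2064, nat_lit 2160, R9_139, R1_43, R10_45⟩]⟩, ⟨nat_lit 7, [⟨nat_lit 3, nat_lit 7680, nat_lit 8592, nat_lit 6672, nat_lit 1872, nat_lit 7440, R5_139, R10_39, R12_155⟩]⟩]⟩,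
 ⟨nat_lit 3, [⟨nat_lit 4, [⟨nat_lit 7, nat_lit 10416, nat_lit 8256, nat_lit 10224, nat_lit 7392, nat_lit 14160, R4_213, R12_154, R3_295⟩]⟩, ⟨nat_lit 5, [⟨nat_lit 7, nat_lit 10752, nat_lit 8304, nat_lit 6672, nat_lit 7440, nat_lit 1872, R5_139, R12_155, R10_39⟩]⟩]⟩]]], [[], [], [], [], [[⟨nat_lit 3, [⟨nat_lit 7, [⟨nat_lit 3, nat_lit 10944, nat_lit 13104, nat_lit 15792, nat_lit 11232, nat_lit 7488, R7_329, R3_234, R2_156⟩, ⟨nat_lit 7, nat_lit 10800, nat_lit 12384, nat_lit 15840, nat_lit 7488, nat_lit 11232, R7_330, R2_156, R3_234⟩]⟩]⟩], [⟨nat_lit 0, [⟨nat_lit 3, [⟨nat_lit 0, nat_lit 1824, nat_lit 12336, nat_lit 14928, nat_lit 15024, nat_lit 960, R6_311, R6_313, R5_20⟩, ⟨nat_lit 3, nat_lit 1872, nat_lit 12480, nat_lit 14976, nat_lit 10800, nat_lit 11616, R6_312, R13_225, R11_242⟩]⟩]⟩,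
 ⟨nat_lit 2, [⟨nat_lit 0, [⟨nat_lit 0, nat_lit 7968, nat_lit 15456, nat_lit 15456, nat_lit 17904, nat_lit 4848, R6_322, R8_373, R4_101⟩, ⟨nat_lit 2, nat_lit 8016, nat_lit 15600, nat_lit 15504, nat_lit 9408, nat_lit 336, R6_323, R5_196, R3_7⟩]⟩, ⟨nat_lit 2, [⟨nat_lit 2, nat_lit 8256, nat_lit 16656, nat_lit 14736, nat_lit 9504, nat_lit 9456, R4_307, R5_198, R10_197⟩]⟩, ⟨nat_lit 3, [⟨nat_lit 0, nat_lit 8400, nat_lit 16128, nat_lit 16224, nat_lit 18720, nat_lit 9216, R8_338, R8_390, R5_192⟩, ⟨nat_lit 2, nat_lit 8448, nat_lit 16416, nat_lit 16320, nat_lit 9456, nat_lit 7632, R8_340, R5_197, R0_159⟩, ⟨nat_lit 3, nat_lit 8496, nat_lit 16272, nat_lit 16272, nat_lit 8496, nat_lit 11664, R8_339, R9_177, R11_243⟩]⟩]⟩,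
 ⟨nat_lit 3, [⟨nat_lit 3, [⟨nat_lit 3, nat_lit 11376, nat_lit 14256, nat_lit 14448, nat_lit 16560, nat_lit 11712, R4_301, R3_345, R11_244⟩]⟩, ⟨nat_lit 7, [⟨nat_lit 3, nat_lit 10992, nat_lit 14448, nat_lit 16128, nat_lit 16224, nat_lit 8016, R7_336, R3_338, R1_167⟩, ⟨nat_lit 7, nat_lit 10848, nat_lit 14496, nat_lit 16176, nat_lit 8016, nat_lit 8928, R7_337, R2_167, R10_186⟩]⟩]⟩], [⟨nat_lit 3, [⟨nat_lit 7, [⟨nat_lit 7, nat_lit 10896, nat_lit 12672, nat_lit 16512, nat_lit 7776, nat_lit 12240, R7_344, R2_162, R0_255⟩]⟩]⟩]], [[⟨nat_lit 3, [⟨nat_lit 7, [⟨nat_lit 3, nat_lit 11184, nat_lit 14496, nat_lit 16848, nat_lit 8928, nat_lit 8016, R7_351, R10_186, R2_167⟩, ⟨nat_lit 7, nat_lit 11040, nat_lit 14448, nat_lit 16896, nat_lit 8016, nat_lit 16224, R7_352, R1_167, R3_338⟩]⟩]⟩,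
 ⟨nat_lit 4, [⟨nat_lit 6, [⟨nat_lit 4, nat_lit 13104, nat_lit 15456, nat_lit 15456, nat_lit 4848, nat_lit 17904, R6_322, R4_101, R8_373⟩, ⟨nat_lit 6, nat_lit 13248, nat_lit 15600, nat_lit 15504, nat_lit 336, nat_lit 9408, R6_323, R3_7, R5_196⟩]⟩]⟩,
 ⟨nat_lit 7, [⟨nat_lit 4, [⟨nat_lit 4, nat_lit 15984, nat_lit 12336, nat_lit 14928, nat_lit 960, nat_lit 15024, R6_311, R5_20, R6_313⟩, ⟨nat_lit 7, nat_lit 16128, nat_lit 12480, nat_lit 14976, nat_lit 11616, nat_lit 10800, R6_312, R11_242, R13_225⟩]⟩, ⟨nat_lit 6, [⟨nat_lit 4, nat_lit 16272, nat_lit 16128, nat_lit 17040, nat_lit 9216, nat_lit 18720, R8_355, R5_192, R8_390⟩, ⟨nat_lit 6, nat_lit 16416, nat_lit 16416, nat_lit 17088, nat_lit 7632, nat_lit 9456, R8_356, R0_159, R5_197⟩, ⟨nat_lit 7, nat_lit 16560, nat_lit 16272, nat_lit 17136, nat_lit 11664, nat_lit 8496,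 R8_357, R11_243, R9_177⟩]⟩, ⟨nat_lit 7, [⟨nat_lit 7, nat_lit 16656, nat_lit 14256, nat_lit 14448, nat_lit 11712, nat_lit 16560, R4_301, R11_244, R3_345⟩]⟩]⟩], [⟨nat_lit 0, [⟨nat_lit 3, [⟨nat_lit 0, nat_lit 1920, nat_lit 13152, nat_lit 15552, nat_lit 5040, nat_lit 3312, R6_324, R4_105, R5_69⟩, ⟨nat_lit 3, nat_lit 1968, nat_lit 13296, nat_lit 15600, nat_lit 528, nat_lit 11856, R6_325, R3_11, R11_247⟩]⟩]⟩,
 ⟨nat_lit 2, [⟨nat_lit 0, [⟨nat_lit 0, nat_lit 8064, nat_lit 16032, nat_lit 15552, nat_lit 3312, nat_lit 5040, R6_324, R5_69, R4_105⟩, ⟨nat_lit 2, nat_lit 8112, nat_lit 16176, nat_lit 15600, nat_lit 11856, nat_lit 528, R6_325, R11_247, R3_11⟩]⟩, ⟨nat_lit 2, [⟨nat_lit 2, nat_lit 8304, nat_lit 16704, nat_lit 14784, nat_lit 11952, nat_lit 9552, R4_308, R11_249, R10_199⟩]⟩, ⟨nat_lit 3, [⟨nat_lit 0, nat_lit 8544,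 nat_lit 16320, nat_lit 17184, nat_lit 11376, nat_lit 11376, R8_358, R5_237, R5_237⟩, ⟨nat_lit 2, nat_lit 8592, nat_lit 16608, nat_lit 17280, nat_lit 11904, nat_lit 7728, R8_360, R11_248, R0_161⟩, ⟨nat_lit 3, nat_lit 8640, nat_lit 16464, nat_lit 17232, nat_lit 7728, nat_lit 11904, R8_359, R0_161, R11_248⟩]⟩]⟩,
 ⟨nat_lit 3, [⟨nat_lit 3, [⟨nat_lit 3, nat_lit 11424, nat_lit 15408, nat_lit 14784, nat_lit 9552, nat_lit 11952, R4_308, R10_199, R11_249⟩]⟩, ⟨nat_lit 7, [⟨nat_lit 3, nat_lit 11232, nat_lit 15504, nat_lit 16992, nat_lit 9600, nat_lit 8544, R7_354, R10_200, R1_178⟩, ⟨nat_lit 7, nat_lit 11088, nat_lit 15552, nat_lit 17040, nat_lit 8544, nat_lit 9600, R7_355, R1_178, R10_200⟩]⟩]⟩,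
 ⟨nat_lit 4, [⟨nat_lit 6, [⟨nat_lit 4, nat_lit 13152, nat_lit 1920, nat_lit 15552, nat_lit 5040, nat_lit 3312, R6_324, R4_105, R5_69⟩, ⟨nat_lit 6, nat_lit 13296, nat_lit 1968, nat_lit 15600, nat_lit 528, nat_lit 11856, R6_325, R3_11, R11_247⟩]⟩]⟩,
 ⟨nat_lit 6, [⟨nat_lit 2, [⟨nat_lit 2, nat_lit 15552, nat_lit 11088, nat_lit 17040, nat_lit 8544, nat_lit 9600, R7_355, R1_178, R10_200⟩, ⟨nat_lit 6, nat_lit 15504, nat_lit 11232, nat_lit 16992, nat_lit 9600, nat_lit 8544, R7_354, R10_200, R1_178⟩]⟩, ⟨nat_lit 6, [⟨nat_lit 6, nat_lit 15408, nat_lit 11424, nat_lit 14784, nat_lit 9552, nat_lit 11952, R4_308, R10_199, R11_249⟩]⟩]⟩,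
 ⟨nat_lit 7, [⟨nat_lit 4, [⟨nat_lit 4, nat_lit 16032, nat_lit 8064, nat_lit 15552, nat_lit 3312, nat_lit 5040, R6_324, R5_69, R4_105⟩, ⟨nat_lit 7, nat_lit 16176, nat_lit 8112, nat_lit 15600, nat_lit 11856, nat_lit 528, R6_325, R11_247, R3_11⟩]⟩, ⟨nat_lit 6, [⟨nat_lit 4, nat_lit 16320, nat_lit 8544, nat_lit 17184, nat_lit 11376, nat_lit 11376, R8_358, R5_237, R5_237⟩, ⟨nat_lit 6, nat_lit 16464, nat_lit 8640, nat_lit 17232, nat_lit 7728, nat_lit 11904, R8_359, R0_161, R11_248⟩, ⟨nat_lit 7, nat_lit 16608, nat_lit 8592, nat_lit 17280, nat_lit 11904, nat_lit 7728, R8_360, R11_248, R0_161⟩]⟩, ⟨nat_lit 7, [⟨nat_lit 7, nat_lit 16704, nat_lit 8304, nat_lit 14784, nat_lit 11952, nat_lit 9552, R4_308, R11_249, R10_199⟩]⟩]⟩], [⟨nat_lit 3, [⟨nat_lit 7, [⟨nat_lit 7, nat_lit 11136, nat_lit 16368, nat_lit 17136, nat_lit 8304,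 nat_lit 12288, R7_357, R1_173, R0_256⟩]⟩]⟩,
 ⟨nat_lit 4, [⟨nat_lit 6, [⟨nat_lit 4, nat_lit 13200, nat_lit 1248, nat_lit 15648, nat_lit 4896, nat_lit 17712, R6_326, R4_102, R9_369⟩, ⟨nat_lit 6, nat_lit 13344, nat_lit 1392, nat_lit 15696, nat_lit 480, nat_lit 1920, R6_327, R3_10, R0_40⟩]⟩]⟩,
 ⟨nat_lit 6, [⟨nat_lit 6, [⟨nat_lit 6, nat_lit 15456, nat_lit 13296, nat_lit 14832, nat_lit 9504, nat_lit 6960, R4_309, R10_198, R0_145⟩]⟩]⟩,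
 ⟨nat_lit 7, [⟨nat_lit 4, [⟨nat_lit 4, nat_lit 16080, nat_lit 8256, nat_lit 16848, nat_lit 2208, nat_lit 9024, R6_351, R5_46, R8_188⟩, ⟨nat_lit 7, nat_lit 16224, nat_lit 8400, nat_lit 16896, nat_lit 11760, nat_lit 192, R6_352, R11_245, R9_4⟩]⟩, ⟨nat_lit 6, [⟨nat_lit 4, nat_lit 16368, nat_lit 9600, nat_lit 17328, nat_lit 11040, nat_lit 17952, R8_361, R5_230, R9_374⟩, ⟨nat_lit 6, nat_lit 16512, nat_lit 9840, nat_lit 17376, nat_lit 7680, nat_lit 9024, R8_362, R0_160, R0_188⟩]⟩, ⟨nat_lit 7, [⟨nat_lit 7, nat_lit 16752, nat_lit 8976, nat_lit 15360, nat_lit 11808, nat_lit 2352, R4_320, R11_246, R0_49⟩]⟩]⟩]], [[⟨nat_lit 3, [⟨nat_lit 7, [⟨nat_lit 3, nat_lit 11280, nat_lit 12672, nat_lit 17472, nat_lit 12240, nat_lit 7776, R7_364, R0_255, R2_162⟩]⟩]⟩], [⟨nat_lit 0, [⟨nat_lit 3, [⟨nat_lit 0, nat_lit 2016, nat_lit 8256,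 nat_lit 16848, nat_lit 9024, nat_lit 2208, R6_351, R8_188, R5_46⟩, ⟨nat_lit 3, nat_lit 2064, nat_lit 8400, nat_lit 16896, nat_lit 192, nat_lit 11760, R6_352, R9_4, R11_245⟩]⟩]⟩,
 ⟨nat_lit 2, [⟨nat_lit 0, [⟨nat_lit 0, nat_lit 8160, nat_lit 1248, nat_lit 15648, nat_lit 17712, nat_lit 4896, R6_326, R9_369, R4_102⟩, ⟨nat_lit 2, nat_lit 8208, nat_lit 1392, nat_lit 15696, nat_lit 1920, nat_lit 480, R6_327, R0_40, R3_10⟩]⟩, ⟨nat_lit 2, [⟨nat_lit 2, nat_lit 8352, nat_lit 13296, nat_lit 14832, nat_lit 6960, nat_lit 9504, R4_309, R0_145, R10_198⟩]⟩, ⟨nat_lit 3, [⟨nat_lit 0, nat_lit 8688, nat_lit 9600, nat_lit 18816, nat_lit 17952, nat_lit 11040, R8_392, R9_374, R5_230⟩, ⟨nat_lit 2, nat_lit 8736, nat_lit 9840, nat_lit 18864, nat_lit 9024, nat_lit 7680, R8_393, R0_188, R0_160⟩]⟩]⟩,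
 ⟨nat_lit 3, [⟨nat_lit 3, [⟨nat_lit 3, nat_lit 11472, nat_lit 8976, nat_lit 15360, nat_lit 2352, nat_lit 11808, R4_320, R0_49, R11_246⟩]⟩, ⟨nat_lit 7, [⟨nat_lit 3, nat_lit 11328, nat_lit 16368, nat_lit 17808, nat_lit 12288, nat_lit 8304, R7_371, R0_256, R1_173⟩]⟩]⟩]]], [[], [[], [], [⟨nat_lit 4, [⟨nat_lit 4, [⟨nat_lit 4, nat_lit 13392, nat_lit 8976, nat_lit 9504, nat_lit 384, nat_lit 3792, R6_198, R7_8, R8_79⟩, ⟨nat_lit 7, nat_lit 13440, nat_lit 9264, nat_lit 9552, nat_lit 1680, nat_lit 864, R6_199, R2_35, R9_18⟩]⟩, ⟨nat_lit 6, [⟨nat_lit 4, nat_lit 13632, nat_lit 9072, nat_lit 20688, nat_lit 5328, nat_lit 11952, R13_431, R7_111, R9_249⟩, ⟨nat_lit 6, nat_lit 13680, nat_lit 9456, nat_lit 20736, nat_lit 3744, nat_lit 1344, R13_432, R2_78, R0_28⟩]⟩]⟩,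
 ⟨nat_lit 5, [⟨nat_lit 4, [⟨nat_lit 4, nat_lit 15072, nat_lit 9024, nat_lit 10416, nat_lit 19920, nat_lit 11760, R4_217, R14_415, R8_245⟩, ⟨nat_lit 5, nat_lit 15120, nat_lit 9168, nat_lit 10512, nat_lit 15696, nat_lit 672, R4_219, R12_327, R5_14⟩, ⟨nat_lit 7, nat_lit 15168, nat_lit 9312, nat_lit 10464, nat_lit 7296, nat_lit 1584, R4_218, R12_152, R9_33⟩]⟩, ⟨nat_lit 6, [⟨nat_lit 4, nat_lit 15216, nat_lit 9120, nat_lit 17040, nat_lit 20592, nat_lit 12624, R3_355, R14_429, R9_263⟩, ⟨nat_lit 5, nat_lit 15312, nat_lit 9216, nat_lit 17136, nat_lit 16368, nat_lit 10800, R3_357, R12_341, R0_225⟩, ⟨nat_lit 6, nat_lit 15264, nat_lit 9504, nat_lit 17088, nat_lit 16224, nat_lit 10704, R3_356, R12_338, R0_223⟩]⟩]⟩,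
 ⟨nat_lit 6, [⟨nat_lit 6, [⟨nat_lit 6, nat_lit 15600, nat_lit 9552, nat_lit 9456, nat_lit 3216, nat_lit 6480, R3_197, R1_67, R0_135⟩]⟩]⟩,
 ⟨nat_lit 7, [⟨nat_lit 4, [⟨nat_lit 7, nat_lit 16800, nat_lit 9360, nat_lit 6768, nat_lit 1152, nat_lit 1248, R8_141, R1_24, R9_26⟩]⟩, ⟨nat_lit 7, [⟨nat_lit 7, nat_lit 17520, nat_lit 9408, nat_lit 17280, nat_lit 6576, nat_lit 4224, R5_360, R1_137, R0_88⟩]⟩]⟩]], [], [], [], [[⟨nat_lit 4, [⟨nat_lit 4, [⟨nat_lit 4, nat_lit 13488, nat_lit 8496, nat_lit 9360, nat_lit 144, nat_lit 16608, R6_195, R4_3, R6_346⟩]⟩, ⟨nat_lit 6, [⟨nat_lit 4, nat_lit 13728, nat_lit 9936, nat_lit 20784, nat_lit 5376, nat_lit 18000, R13_433, R4_112, R8_375⟩, ⟨nat_lit 6, nat_lit 13872, nat_lit 12192, nat_lit 20832, nat_lit 3936, nat_lit 11664, R13_434, R3_82, R5_243⟩]⟩]⟩,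
 ⟨nat_lit 6, [⟨nat_lit 6, [⟨nat_lit 6, nat_lit 15648, nat_lit 12288, nat_lit 9312, nat_lit 9648, nat_lit 11760, R3_194, R10_201, R5_245⟩]⟩]⟩,
 ⟨nat_lit 7, [⟨nat_lit 4, [⟨nat_lit 4, nat_lit 16848, nat_lit 8544, nat_lit 4608, nat_lit 1536, nat_lit 16944, R8_96, R5_32, R6_353⟩, ⟨nat_lit 7, nat_lit 16992, nat_lit 10368, nat_lit 5040, nat_lit 12000, nat_lit 12720, R8_105, R11_250, R13_265⟩]⟩, ⟨nat_lit 6, [⟨nat_lit 4, nat_lit 17136, nat_lit 9984, nat_lit 17136, nat_lit 9984, nat_lit 18912, R9_357, R5_208, R8_394⟩, ⟨nat_lit 6, nat_lit 17280, nat_lit 12240, nat_lit 17184, nat_lit 7776, nat_lit 11712, R9_358, R0_162, R5_244⟩, ⟨nat_lit 7, nat_lit 17424, nat_lit 11232, nat_lit 17232, nat_lit 12048, nat_lit 9984, R9_359, R11_251, R9_208⟩]⟩, ⟨nat_lit 7, [⟨nat_lit 7, nat_lit 17568, nat_lit 10848, nat_lit 17328, nat_lit 12096,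 nat_lit 17856, R5_361, R11_252, R3_372⟩]⟩]⟩], [⟨nat_lit 4, [⟨nat_lit 4, [⟨nat_lit 4, nat_lit 13536, nat_lit 48, nat_lit 9408, nat_lit 288, nat_lit 2160, R6_196, R4_6, R4_45⟩]⟩, ⟨nat_lit 6, [⟨nat_lit 4, nat_lit 13776, nat_lit 240, nat_lit 20880, nat_lit 5520, nat_lit 3504, R13_435, R4_115, R5_73⟩, ⟨nat_lit 6, nat_lit 13920, nat_lit 288, nat_lit 20928, nat_lit 4128, nat_lit 14640, R13_436, R3_86, R11_305⟩]⟩]⟩,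
 ⟨nat_lit 6, [⟨nat_lit 2, [⟨nat_lit 2, nat_lit 15840, nat_lit 9600, nat_lit 15264, nat_lit 8592, nat_lit 9840, R2_318, R1_179, R10_205⟩, ⟨nat_lit 6, nat_lit 15792, nat_lit 9744, nat_lit 15216, nat_lit 9792, nat_lit 8640, R2_317, R10_204, R1_180⟩]⟩, ⟨nat_lit 6, [⟨nat_lit 6, nat_lit 15696, nat_lit 9936, nat_lit 9360, nat_lit 9744, nat_lit 14736, R3_195, R10_203, R11_307⟩]⟩]⟩,
 ⟨nat_lit 7, [⟨nat_lit 4, [⟨nat_lit 4, nat_lit 16896, nat_lit 7296, nat_lit 5376, nat_lit 3888, nat_lit 7680, R8_112, R5_81, R4_160⟩, ⟨nat_lit 7, nat_lit 17040, nat_lit 7344, nat_lit 5904, nat_lit 12240, nat_lit 2640, R8_123, R11_255, R3_55⟩]⟩, ⟨nat_lit 6, [⟨nat_lit 4, nat_lit 17184, nat_lit 7776, nat_lit 17280, nat_lit 12240, nat_lit 11712, R9_360, R5_255, R5_244⟩, ⟨nat_lit 6, nat_lit 17328, nat_lit 7872, nat_lit 17328, nat_lit 7872, nat_lit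 14688, R9_361, R0_164, R11_306⟩, ⟨nat_lit 7, nat_lit 17472, nat_lit 7824, nat_lit 17376, nat_lit 12288, nat_lit 9120, R9_362, R11_256, R0_190⟩]⟩, ⟨nat_lit 7, [⟨nat_lit 7, nat_lit 17616, nat_lit 7536, nat_lit 17376, nat_lit 12336, nat_lit 11904, R5_362, R11_257, R10_248⟩]⟩]⟩], [⟨nat_lit 4, [⟨nat_lit 4, [⟨nat_lit 4, nat_lit 13584, nat_lit 192, nat_lit 9456, nat_lit 192, nat_lit 4272, R6_197, R4_4, R8_89⟩]⟩, ⟨nat_lit 6, [⟨nat_lit 4, nat_lit 13824, nat_lit 816, nat_lit 20976, nat_lit 5424, nat_lit 17808, R13_437, R4_113, R9_371⟩, ⟨nat_lit 6, nat_lit 13968, nat_lit 960, nat_lit 21024, nat_lit 4080, nat_lit 1968, R13_438, R3_85, R0_41⟩]⟩]⟩,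
 ⟨nat_lit 6, [⟨nat_lit 6, [⟨nat_lit 6, nat_lit 15744, nat_lit 16224, nat_lit 9408, nat_lit 9696, nat_lit 7008, R3_196, R10_202, R0_146⟩]⟩]⟩,
 ⟨nat_lit 7, [⟨nat_lit 4, [⟨nat_lit 4, nat_lit 16944, nat_lit 10704, nat_lit 6336, nat_lit 2400, nat_lit 9120, R8_132, R5_50, R8_190⟩, ⟨nat_lit 7, nat_lit 17088, nat_lit 10848, nat_lit 6720, nat_lit 12144, nat_lit 1296, R8_140, R11_253, R9_27⟩]⟩, ⟨nat_lit 6, [⟨nat_lit 4, nat_lit 17232, nat_lit 12048, nat_lit 17424, nat_lit 11232, nat_lit 18144, R9_363, R5_234, R9_378⟩, ⟨nat_lit 6, nat_lit 17376, nat_lit 12288, nat_lit 17472, nat_lit 7824, nat_lit 9120, R9_364, R0_163, R0_190⟩]⟩, ⟨nat_lit 7, [⟨nat_lit 7, nat_lit 17664, nat_lit 11424, nat_lit 17424, nat_lit 12192, nat_lit 4032, R5_363, R11_254, R0_84⟩]⟩]⟩]]], [[], [], [], [], [[], [⟨nat_lit 0, [⟨nat_lit 0, [⟨nat_lit 0, nat_lit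 2112, nat_lit 8496, nat_lit 9360, nat_lit 16608, nat_lit 144, R6_195, R6_346, R4_3⟩]⟩, ⟨nat_lit 3, [⟨nat_lit 0, nat_lit 2496, nat_lit 8544, nat_lit 4608, nat_lit 16944, nat_lit 1536, R8_96, R6_353, R5_32⟩, ⟨nat_lit 3, nat_lit 2544, nat_lit 10368, nat_lit 5040, nat_lit 12720, nat_lit 12000, R8_105, R13_265, R11_250⟩]⟩]⟩,
 ⟨nat_lit 2, [⟨nat_lit 0, [⟨nat_lit 0, nat_lit 8784, nat_lit 9936, nat_lit 20784, nat_lit 18000, nat_lit 5376, R13_433, R8_375, R4_112⟩, ⟨nat_lit 2, nat_lit 8832, nat_lit 12192, nat_lit 20832, nat_lit 11664, nat_lit 3936, R13_434, R5_243, R3_82⟩]⟩, ⟨nat_lit 2, [⟨nat_lit 2, nat_lit 9168, nat_lit 12288, nat_lit 9312, nat_lit 11760, nat_lit 9648, R3_194, R5_245, R10_201⟩]⟩, ⟨nat_lit 3, [⟨nat_lit 0, nat_lit 9504, nat_lit 9984, nat_lit 17136, nat_lit 18912, nat_lit 9984, R9_357, R8_394, R5_208⟩, ⟨nat_lit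 2, nat_lit 9552, nat_lit 12240, nat_lit 17184, nat_lit 11712, nat_lit 7776, R9_358, R5_244, R0_162⟩, ⟨nat_lit 3, nat_lit 9600, nat_lit 11232, nat_lit 17232, nat_lit 9984, nat_lit 12048, R9_359, R9_208, R11_251⟩]⟩]⟩,
 ⟨nat_lit 3, [⟨nat_lit 3, [⟨nat_lit 3, nat_lit 11520, nat_lit 10848, nat_lit 17328, nat_lit 17856, nat_lit 12096, R5_361, R3_372, R11_252⟩]⟩]⟩]], [[], [⟨nat_lit 0, [⟨nat_lit 0, [⟨nat_lit 0, nat_lit 2160, nat_lit 48, nat_lit 9408, nat_lit 2160, nat_lit 288, R6_196, R4_45, R4_6⟩]⟩, ⟨nat_lit 3, [⟨nat_lit 0, nat_lit 2592, nat_lit 7296, nat_lit 5376, nat_lit 7680, nat_lit 3888, R8_112, R4_160, R5_81⟩, ⟨nat_lit 3, nat_lit 2640, nat_lit 7344, nat_lit 5904, nat_lit 2640, nat_lit 12240, R8_123, R3_55, R11_255⟩]⟩]⟩,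
 ⟨nat_lit 2, [⟨nat_lit 0, [⟨nat_lit 0, nat_lit 8880, nat_lit 240, nat_lit 20880, nat_lit 3504, nat_lit 5520, R13_435, R5_73, R4_115⟩, ⟨nat_lit 2, nat_lit 8928, nat_lit 288, nat_lit 20928, nat_lit 14640, nat_lit 4128, R13_436, R11_305, R3_86⟩]⟩, ⟨nat_lit 2, [⟨nat_lit 2, nat_lit 9216, nat_lit 9936, nat_lit 9360, nat_lit 14736, nat_lit 9744, R3_195, R11_307, R10_203⟩]⟩, ⟨nat_lit 3, [⟨nat_lit 0, nat_lit 9648, nat_lit 7776, nat_lit 17280, nat_lit 11712, nat_lit 12240, R9_360, R5_244, R5_255⟩, ⟨nat_lit 2, nat_lit 9696, nat_lit 7872, nat_lit 17328, nat_lit 14688, nat_lit 7872, R9_361, R11_306, R0_164⟩, ⟨nat_lit 3, nat_lit 9744, nat_lit 7824, nat_lit 17376, nat_lit 9120, nat_lit 12288, R9_362, R0_190, R11_256⟩]⟩]⟩,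
 ⟨nat_lit 3, [⟨nat_lit 3, [⟨nat_lit 3, nat_lit 11568, nat_lit 7536, nat_lit 17376, nat_lit 11904, nat_lit 12336, R5_362, R10_248, R11_257⟩]⟩]⟩,
 ⟨nat_lit 6, [⟨nat_lit 2, [⟨nat_lit 2, nat_lit 15936, nat_lit 9744, nat_lit 15216, nat_lit 8640, nat_lit 9792, R2_317, R1_180, R10_204⟩, ⟨nat_lit 6, nat_lit 15888, nat_lit 9600, nat_lit 15264, nat_lit 9840, nat_lit 8592, R2_318, R10_205, R1_179⟩]⟩]⟩]], [[], [⟨nat_lit 0, [⟨nat_lit 0, [⟨nat_lit 0, nat_lit 2208, nat_lit 10944, nat_lit 9456, nat_lit 4272, nat_lit 192, R6_197, R8_89, R4_4⟩]⟩, ⟨nat_lit 3, [⟨nat_lit 0, nat_lit 2688, nat_lit 10992, nat_lit 6336, nat_lit 9120, nat_lit 2400, R8_132, R8_190, R5_50⟩, ⟨nat_lit 3, nat_lit 2736, nat_lit 13632, nat_lit 6720, nat_lit 1296, nat_lit 12144, R8_140, R9_27, R11_253⟩]⟩]⟩,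
 ⟨nat_lit 2, [⟨nat_lit 0, [⟨nat_lit 0, nat_lit 8976, nat_lit 12384, nat_lit 20976, nat_lit 17808, nat_lit 5424, R13_437, R9_371, R4_113⟩, ⟨nat_lit 2, nat_lit 9072, nat_lit 15168, nat_lit 21024, nat_lit 1968, nat_lit 4080, R13_438, R0_41, R3_85⟩]⟩, ⟨nat_lit 2, [⟨nat_lit 2, nat_lit 9264, nat_lit 15264, nat_lit 9408, nat_lit 7008, nat_lit 9696, R3_196, R0_146, R10_202⟩]⟩, ⟨nat_lit 3, [⟨nat_lit 0, nat_lit 9792, nat_lit 12432, nat_lit 17424, nat_lit 18144, nat_lit 11232, R9_363, R9_378, R5_234⟩, ⟨nat_lit 2, nat_lit 9840, nat_lit 15216, nat_lit 17472, nat_lit 9120, nat_lit 7824, R9_364, R0_190, R0_163⟩]⟩]⟩,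
 ⟨nat_lit 3, [⟨nat_lit 3, [⟨nat_lit 3, nat_lit 11616, nat_lit 14112, nat_lit 17424, nat_lit 4032, nat_lit 12192, R5_363, R0_84, R11_254⟩]⟩]⟩], [], [], [], [⟨nat_lit 0, [⟨nat_lit 0, [⟨nat_lit 0, nat_lit 2256, nat_lit 8976, nat_lit 9504, nat_lit 3792, nat_lit 384, R6_198, R8_79, R7_8⟩, ⟨nat_lit 3, nat_lit 2304, nat_lit 9264, nat_lit 9552, nat_lit 864, nat_lit 1680, R6_199, R9_18, R2_35⟩]⟩, ⟨nat_lit 1, [⟨nat_lit 0, nat_lit 2352, nat_lit 9024, nat_lit 10416, nat_lit 11760, nat_lit 19920, R4_217, R8_245, R14_415⟩, ⟨nat_lit 1, nat_lit 2400, nat_lit 9168, nat_lit 10512, nat_lit 672, nat_lit 15696, R4_219, R5_14, R12_327⟩, ⟨nat_lit 3, nat_lit 2448, nat_lit 9312, nat_lit 10464, nat_lit 1584, nat_lit 7296, R4_218, R9_33, R12_152⟩]⟩, ⟨nat_lit 3, [⟨nat_lit 3, nat_lit 2784, nat_lit 9360, nat_lit 6768, nat_lit 1248, nat_lit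 1152, R8_141, R9_26, R1_24⟩]⟩]⟩,
 ⟨nat_lit 2, [⟨nat_lit 0, [⟨nat_lit 0, nat_lit 9024, nat_lit 9072, nat_lit 20688, nat_lit 11952, nat_lit 5328, R13_431, R9_249, R7_111⟩, ⟨nat_lit 2, nat_lit 9120, nat_lit 9456, nat_lit 20736, nat_lit 1344, nat_lit 3744, R13_432, R0_28, R2_78⟩]⟩, ⟨nat_lit 1, [⟨nat_lit 0, nat_lit 9360, nat_lit 9120, nat_lit 17040, nat_lit 12624, nat_lit 20592, R3_355, R9_263, R14_429⟩, ⟨nat_lit 1, nat_lit 9456, nat_lit 9216, nat_lit 17136, nat_lit 10800, nat_lit 16368, R3_357, R0_225, R12_341⟩, ⟨nat_lit 2, nat_lit 9408, nat_lit 9504, nat_lit 17088, nat_lit 10704, nat_lit 16224, R3_356, R0_223, R12_338⟩]⟩, ⟨nat_lit 2, [⟨nat_lit 2, nat_lit 9312, nat_lit 9552, nat_lit 9456, nat_lit 6480, nat_lit 3216, R3_197, R0_135, R1_67⟩]⟩]⟩,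
 ⟨nat_lit 3, [⟨nat_lit 3, [⟨nat_lit 3, nat_lit 11664, nat_lit 9408, nat_lit 17280, nat_lit 4224, nat_lit 6576, R5_360, R0_88, R1_137⟩]⟩]⟩]]], [[], [], [], [], [[⟨nat_lit 0, [⟨nat_lit 7, [⟨nat_lit 3, nat_lit 2832, nat_lit 11472, nat_lit 5232, nat_lit 11184, nat_lit 8256, R7_109, R13_233, R2_172⟩]⟩]⟩,
 ⟨nat_lit 3, [⟨nat_lit 4, [⟨nat_lit 7, nat_lit 11712, nat_lit 10080, nat_lit 5232, nat_lit 8256, nat_lit 11184, R7_109, R2_172, R13_233⟩]⟩, ⟨nat_lit 7, [⟨nat_lit 3, nat_lit 12480, nat_lit 12096, nat_lit 20352, nat_lit 12192, nat_lit 8304, R14_424, R3_254, R2_173⟩, ⟨nat_lit 7, nat_lit 12336, nat_lit 10128, nat_lit 20304, nat_lit 8304, nat_lit 12192, R14_423, R2_173, R3_254⟩]⟩]⟩], [⟨nat_lit 0, [⟨nat_lit 3, [⟨nat_lit 0, nat_lit 3456, nat_lit 8160, nat_lit 4896, nat_lit 15648, nat_lit 1248, R4_102, R6_326, R5_26⟩, ⟨nat_lit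 3, nat_lit 3504, nat_lit 8976, nat_lit 5424, nat_lit 12336, nat_lit 12384, R4_113, R13_257, R11_258⟩]⟩, ⟨nat_lit 7, [⟨nat_lit 3, nat_lit 2880, nat_lit 9024, nat_lit 5328, nat_lit 12384, nat_lit 9072, R7_111, R13_258, R1_189⟩]⟩]⟩,
 ⟨nat_lit 2, [⟨nat_lit 3, [⟨nat_lit 0, nat_lit 9888, nat_lit 8688, nat_lit 11040, nat_lit 18816, nat_lit 9600, R5_230, R8_392, R5_200⟩, ⟨nat_lit 2, nat_lit 9936, nat_lit 10032, nat_lit 11136, nat_lit 11088, nat_lit 7920, R5_232, R5_231, R0_165⟩, ⟨nat_lit 3, nat_lit 9984, nat_lit 9792, nat_lit 11232, nat_lit 9600, nat_lit 12432, R5_234, R9_200, R11_259⟩]⟩]⟩,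
 ⟨nat_lit 3, [⟨nat_lit 4, [⟨nat_lit 7, nat_lit 11760, nat_lit 7728, nat_lit 6336, nat_lit 10032, nat_lit 1920, R7_132, R2_209, R3_40⟩]⟩, ⟨nat_lit 7, [⟨nat_lit 3, nat_lit 12528, nat_lit 9360, nat_lit 20448, nat_lit 17040, nat_lit 9120, R14_426, R3_355, R1_190⟩, ⟨nat_lit 7, nat_lit 12384, nat_lit 7776, nat_lit 20400, nat_lit 10080, nat_lit 10512, R14_425, R2_210, R10_219⟩]⟩]⟩], [⟨nat_lit 3, [⟨nat_lit 4, [⟨nat_lit 7, nat_lit 11808, nat_lit 8208, nat_lit 7776, nat_lit 8976, nat_lit 672, R7_162, R2_187, R9_14⟩]⟩, ⟨nat_lit 7, [⟨nat_lit 7, nat_lit 12432, nat_lit 8256, nat_lit 20544, nat_lit 9024, nat_lit 12816, R14_428, R2_188, R0_267⟩]⟩]⟩], [⟨nat_lit 0, [⟨nat_lit 7, [⟨nat_lit 3, nat_lit 2928, nat_lit 12000, nat_lit 5280, nat_lit 11904, nat_lit 7488, R7_110, R13_248, R12_156⟩]⟩]⟩,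
 ⟨nat_lit 3, [⟨nat_lit 4, [⟨nat_lit 3, nat_lit 11904, nat_lit 14400, nat_lit 7392, nat_lit 14496, nat_lit 384, R7_154, R3_302, R2_8⟩, ⟨nat_lit 7, nat_lit 11856, nat_lit 12816, nat_lit 6816, nat_lit 9744, nat_lit 12528, R7_142, R2_203, R3_261⟩]⟩, ⟨nat_lit 7, [⟨nat_lit 3, nat_lit 12576, nat_lit 14688, nat_lit 20496, nat_lit 14928, nat_lit 7536, R14_427, R3_311, R12_157⟩]⟩]⟩]], [[⟨nat_lit 0, [⟨nat_lit 7, [⟨nat_lit 3, nat_lit 2976, nat_lit 7728, nat_lit 6336, nat_lit 1920, nat_lit 10032, R7_132, R3_40, R2_209⟩]⟩]⟩,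
 ⟨nat_lit 3, [⟨nat_lit 4, [⟨nat_lit 7, nat_lit 11952, nat_lit 9024, nat_lit 5328, nat_lit 9072, nat_lit 12384, R7_111, R1_189, R13_258⟩]⟩, ⟨nat_lit 7, [⟨nat_lit 3, nat_lit 12720, nat_lit 7776, nat_lit 20640, nat_lit 10512, nat_lit 10080, R14_430, R10_219, R2_210⟩, ⟨nat_lit 7, nat_lit 12624, nat_lit 9360, nat_lit 20592, nat_lit 9120, nat_lit 17040, R14_429, R1_190, R3_355⟩]⟩]⟩,
 ⟨nat_lit 7, [⟨nat_lit 4, [⟨nat_lit 4, nat_lit 17712, nat_lit 8160, nat_lit 4896, nat_lit 1248, nat_lit 15648, R4_102, R5_26, R6_326⟩, ⟨nat_lit 7, nat_lit 17808, nat_lit 8976, nat_lit 5424, nat_lit 12384, nat_lit 12336, R4_113, R11_258, R13_257⟩]⟩, ⟨nat_lit 6, [⟨nat_lit 4, nat_lit 17952, nat_lit 8688, nat_lit 11040, nat_lit 9600, nat_lit 18816, R5_230, R5_200, R8_392⟩, ⟨nat_lit 6, nat_lit 18048, nat_lit 10032, nat_lit 11136, nat_lit 7920,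 nat_lit 11088, R5_232, R0_165, R5_231⟩, ⟨nat_lit 7, nat_lit 18144, nat_lit 9792, nat_lit 11232, nat_lit 12432, nat_lit 9600, R5_234, R11_259, R9_200⟩]⟩]⟩], [], [⟨nat_lit 3, [⟨nat_lit 4, [⟨nat_lit 7, nat_lit 12000, nat_lit 8544, nat_lit 7872, nat_lit 9792, nat_lit 768, R7_164, R1_204, R9_16⟩]⟩, ⟨nat_lit 7, [⟨nat_lit 7, nat_lit 12672, nat_lit 8880, nat_lit 20736, nat_lit 9840, nat_lit 13008, R14_432, R1_205, R0_271⟩]⟩]⟩,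
 ⟨nat_lit 7, [⟨nat_lit 4, [⟨nat_lit 4, nat_lit 17760, nat_lit 7392, nat_lit 7536, nat_lit 2304, nat_lit 9072, R4_157, R5_48, R8_189⟩, ⟨nat_lit 7, nat_lit 17856, nat_lit 8496, nat_lit 7824, nat_lit 12480, nat_lit 432, R4_163, R11_260, R9_9⟩]⟩, ⟨nat_lit 6, [⟨nat_lit 4, nat_lit 18000, nat_lit 7920, nat_lit 11088, nat_lit 11136, nat_lit 18048, R5_231, R5_232, R9_376⟩, ⟨nat_lit 6, nat_lit 18096, nat_lit 9168, nat_lit 11184, nat_lit 7968, nat_lit 9072, R5_233, R0_166, R0_189⟩]⟩]⟩], [⟨nat_lit 0, [⟨nat_lit 7, [⟨nat_lit 3, nat_lit 3024, nat_lit 13056, nat_lit 6384, nat_lit 1968, nat_lit 7680, R7_133, R3_41, R12_160⟩]⟩]⟩,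
 ⟨nat_lit 3, [⟨nat_lit 4, [⟨nat_lit 3, nat_lit 12096, nat_lit 11376, nat_lit 7440, nat_lit 11136, nat_lit 480, R7_155, R10_232, R2_10⟩, ⟨nat_lit 7, nat_lit 12048, nat_lit 11760, nat_lit 6864, nat_lit 10560, nat_lit 12672, R7_143, R1_220, R3_264⟩]⟩, ⟨nat_lit 7, [⟨nat_lit 3, nat_lit 12768, nat_lit 13152, nat_lit 20688, nat_lit 11184, nat_lit 7728, R14_431, R10_233, R12_161⟩]⟩]⟩,
 ⟨nat_lit 7, [⟨nat_lit 4, [⟨nat_lit 7, nat_lit 17904, nat_lit 11952, nat_lit 7152, nat_lit 12528, nat_lit 4704, R4_149, R11_261, R3_98⟩]⟩, ⟨nat_lit 6, [⟨nat_lit 7, nat_lit 18192, nat_lit 14832, nat_lit 11280, nat_lit 12576, nat_lit 15024, R5_235, R11_262, R0_313⟩]⟩]⟩]], [[⟨nat_lit 0, [⟨nat_lit 7, [⟨nat_lit 3, nat_lit 3072, nat_lit 8208, nat_lit 7776, nat_lit 672, nat_lit 8976, R7_162, R9_14, R2_187⟩]⟩]⟩,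
 ⟨nat_lit 3, [⟨nat_lit 7, [⟨nat_lit 3, nat_lit 12816, nat_lit 8256, nat_lit 20928, nat_lit 12816, nat_lit 9024, R14_436, R0_267, R2_188⟩]⟩]⟩], [⟨nat_lit 0, [⟨nat_lit 3, [⟨nat_lit 0, nat_lit 3552, nat_lit 7392, nat_lit 7536, nat_lit 9072, nat_lit 2304, R4_157, R8_189, R5_48⟩, ⟨nat_lit 3, nat_lit 3600, nat_lit 8496, nat_lit 7824, nat_lit 432, nat_lit 12480, R4_163, R9_9, R11_260⟩]⟩, ⟨nat_lit 7, [⟨nat_lit 3, nat_lit 3120, nat_lit 8544, nat_lit 7872, nat_lit 768, nat_lit 9792, R7_164, R9_16, R1_204⟩]⟩]⟩,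
 ⟨nat_lit 2, [⟨nat_lit 3, [⟨nat_lit 0, nat_lit 10032, nat_lit 7920, nat_lit 11088, nat_lit 18048, nat_lit 11136, R5_231, R9_376, R5_232⟩, ⟨nat_lit 2, nat_lit 10080, nat_lit 9168, nat_lit 11184, nat_lit 9072, nat_lit 7968, R5_233, R0_189, R0_166⟩]⟩]⟩,
 ⟨nat_lit 3, [⟨nat_lit 7, [⟨nat_lit 3, nat_lit 12864, nat_lit 8880, nat_lit 20976, nat_lit 13008, nat_lit 9840, R14_437, R0_271, R1_205⟩]⟩]⟩], [], [⟨nat_lit 0, [⟨nat_lit 7, [⟨nat_lit 3, nat_lit 3168, nat_lit 10704, nat_lit 7824, nat_lit 720, nat_lit 7584, R7_163, R9_15, R12_158⟩]⟩]⟩,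
 ⟨nat_lit 3, [⟨nat_lit 4, [⟨nat_lit 3, nat_lit 12144, nat_lit 11376, nat_lit 7488, nat_lit 11328, nat_lit 432, R7_156, R0_236, R2_9⟩]⟩, ⟨nat_lit 7, [⟨nat_lit 3, nat_lit 12912, nat_lit 11424, nat_lit 21024, nat_lit 12960, nat_lit 7632, R14_438, R0_270, R12_159⟩]⟩]⟩]], [[⟨nat_lit 0, [⟨nat_lit 7, [⟨nat_lit 3, nat_lit 3360, nat_lit 12816, nat_lit 6816, nat_lit 12528, nat_lit 9744, R7_142, R3_261, R2_203⟩, ⟨nat_lit 7, nat_lit 3216, nat_lit 14400, nat_lit 7392, nat_lit 384, nat_lit 14496, R7_154, R2_8, R3_302⟩]⟩]⟩,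
 ⟨nat_lit 3, [⟨nat_lit 4, [⟨nat_lit 7, nat_lit 12192, nat_lit 12000, nat_lit 5280, nat_lit 7488, nat_lit 11904, R7_110, R12_156, R13_248⟩]⟩, ⟨nat_lit 7, [⟨nat_lit 7, nat_lit 12960, nat_lit 14688, nat_lit 20784, nat_lit 7536, nat_lit 14928, R14_433, R12_157, R3_311⟩]⟩]⟩], [⟨nat_lit 0, [⟨nat_lit 3, [⟨nat_lit 3, nat_lit 3648, nat_lit 11952, nat_lit 7152, nat_lit 4704, nat_lit 12528, R4_149, R3_98, R11_261⟩]⟩, ⟨nat_lit 7, [⟨nat_lit 3, nat_lit 3408, nat_lit 11760, nat_lit 6864, nat_lit 12672, nat_lit 10560, R7_143, R3_264, R1_220⟩, ⟨nat_lit 7, nat_lit 3264, nat_lit 11376, nat_lit 7440, nat_lit 480, nat_lit 11136, R7_155, R2_10, R10_232⟩]⟩]⟩,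
 ⟨nat_lit 2, [⟨nat_lit 3, [⟨nat_lit 3, nat_lit 10128, nat_lit 14832, nat_lit 11280, nat_lit 15024, nat_lit 12576, R5_235, R0_313, R11_262⟩]⟩]⟩,
 ⟨nat_lit 3, [⟨nat_lit 4, [⟨nat_lit 7, nat_lit 12240, nat_lit 13056, nat_lit 6384, nat_lit 7680, nat_lit 1968, R7_133, R12_160, R3_41⟩]⟩, ⟨nat_lit 7, [⟨nat_lit 7, nat_lit 13008, nat_lit 13152, nat_lit 20832, nat_lit 7728, nat_lit 11184, R14_434, R12_161, R10_233⟩]⟩]⟩], [⟨nat_lit 0, [⟨nat_lit 7, [⟨nat_lit 7, nat_lit 3312, nat_lit 11376, nat_lit 7488, nat_lit 432, nat_lit 11328, R7_156, R2_9, R0_236⟩]⟩]⟩,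
 ⟨nat_lit 3, [⟨nat_lit 4, [⟨nat_lit 7, nat_lit 12288, nat_lit 10704, nat_lit 7824, nat_lit 7584, nat_lit 720, R7_163, R12_158, R9_15⟩]⟩, ⟨nat_lit 7, [⟨nat_lit 7, nat_lit 13056, nat_lit 11424, nat_lit 20880, nat_lit 7632, nat_lit 12960, R14_435, R12_159, R0_270⟩]⟩]⟩]]]]
noncomputable def N3550 : T3 (List N0) := [[[[], [], [⟨nat_lit 1, [⟨nat_lit 4, [⟨nat_lit 4, nat_lit 4368, nat_lit 5808, nat_lit 14928, nat_lit 5664, nat_lit 10176, R4_311, R4_118, R6_212⟩, ⟨nat_lit 5, nat_lit 5136, nat_lit 6432, nat_lit 14976, nat_lit 864, nat_lit 11232, R4_312, R3_18, R4_234⟩]⟩]⟩,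
 ⟨nat_lit 5, [⟨nat_lit 4, [⟨nat_lit 4, nat_lit 4416, nat_lit 12384, nat_lit 17280, nat_lit 5520, nat_lit 10512, R7_360, R7_115, R6_219⟩, ⟨nat_lit 5, nat_lit 5184, nat_lit 12912, nat_lit 17376, nat_lit 3984, nat_lit 11376, R7_362, R2_83, R4_237⟩, ⟨nat_lit 7, nat_lit 6000, nat_lit 12576, nat_lit 17328, nat_lit 7680, nat_lit 10656, R7_361, R2_160, R8_222⟩]⟩, ⟨nat_lit 7, [⟨nat_lit 7, nat_lit 6912, nat_lit 12720, nat_lit 14736, nat_lit 7824, nat_lit 7392, R2_307, R2_163, R5_154⟩]⟩]⟩], [], [], [], [⟨nat_lit 1, [⟨nat_lit 4, [⟨nat_lit 5, nat_lit 14784, nat_lit 5952, nat_lit 11808, nat_lit 1440, nat_lit 12480, R4_246, R3_30, R7_260⟩]⟩, ⟨nat_lit 5, [⟨nat_lit 5, nat_lit 15264, nat_lit 6048, nat_lit 3408, nat_lit 1536, nat_lit 11088, R3_71, R3_32, R2_231⟩]⟩]⟩,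
 ⟨nat_lit 5, [⟨nat_lit 4, [⟨nat_lit 5, nat_lit 14832, nat_lit 13872, nat_lit 12864, nat_lit 12480, nat_lit 12384, R7_268, R2_260, R7_258⟩]⟩, ⟨nat_lit 5, [⟨nat_lit 5, nat_lit 15312, nat_lit 14016, nat_lit 11568, nat_lit 12528, nat_lit 10992, R2_241, R2_261, R2_229⟩]⟩]⟩]], [], [[], [], [], [], [], [], [⟨nat_lit 1, [⟨nat_lit 4, [⟨nat_lit 1, nat_lit 15984, nat_lit 17088, nat_lit 12000, nat_lit 6144, nat_lit 11712, R4_250, R1_128, R4_244⟩, ⟨nat_lit 5, nat_lit 14976, nat_lit 17136, nat_lit 11952, nat_lit 7344, nat_lit 12528, R4_249, R10_153, R7_261⟩]⟩, ⟨nat_lit 5, [⟨nat_lit 1, nat_lit 16080, nat_lit 17232, nat_lit 10800, nat_lit 6240, nat_lit 17184, R3_225, R1_130, R3_358⟩, ⟨nat_lit 5, nat_lit 15456, nat_lit 17280, nat_lit 10896, nat_lit 7392, nat_lit 11136, R3_227, R10_154, R2_232⟩]⟩]⟩,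
 ⟨nat_lit 5, [⟨nat_lit 4, [⟨nat_lit 5, nat_lit 15024, nat_lit 16608, nat_lit 13056, nat_lit 13824, nat_lit 12432, R7_272, R1_288, R7_259⟩]⟩, ⟨nat_lit 5, [⟨nat_lit 5, nat_lit 15504, nat_lit 16752, nat_lit 11712, nat_lit 13872, nat_lit 11040, R2_244, R1_289, R2_230⟩]⟩]⟩]], [[], [], [⟨nat_lit 1, [⟨nat_lit 4, [⟨nat_lit 4, nat_lit 4656, nat_lit 8784, nat_lit 15168, nat_lit 8160, nat_lit 10224, R4_316, R5_170, R6_213⟩, ⟨nat_lit 5, nat_lit 5328, nat_lit 9072, nat_lit 15264, nat_lit 5856, nat_lit 11280, R4_318, R0_122, R4_235⟩, ⟨nat_lit 7, nat_lit 6288, nat_lit 8928, nat_lit 15216, nat_lit 8400, nat_lit 10800, R4_317, R11_175, R8_225⟩]⟩]⟩,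
 ⟨nat_lit 5, [⟨nat_lit 4, [⟨nat_lit 7, nat_lit 6336, nat_lit 16320, nat_lit 17760, nat_lit 8208, nat_lit 10704, R7_370, R1_171, R8_223⟩]⟩, ⟨nat_lit 7, [⟨nat_lit 7, nat_lit 7200, nat_lit 16656, nat_lit 15360, nat_lit 8352, nat_lit 7488, R2_320, R1_174, R5_156⟩]⟩]⟩]]], [[[], [], [⟨nat_lit 5, [⟨nat_lit 4, [⟨nat_lit 4, nat_lit 4464, nat_lit 1248, nat_lit 960, nat_lit 5760, nat_lit 10560, R14_20, R7_120, R6_220⟩, ⟨nat_lit 5, nat_lit 5232, nat_lit 6432, nat_lit 1872, nat_lit 4176, nat_lit 11424, R14_39, R2_87, R4_238⟩, ⟨nat_lit 7, nat_lit 6048, nat_lit 7680, nat_lit 1488, nat_lit 8832, nat_lit 11856, R14_31, R2_184, R8_247⟩]⟩, ⟨nat_lit 6, [⟨nat_lit 4, nat_lit 4848, nat_lit 1344, nat_lit 480, nat_lit 5856, nat_lit 9600, R12_10, R7_122, R13_200⟩, ⟨nat_lit 5, nat_lit 5424, nat_lit 6528, nat_lit 2592, nat_lit 4272, nat_lit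 7536, R12_54, R2_89, R3_157⟩, ⟨nat_lit 7, nat_lit 6576, nat_lit 7824, nat_lit 1632, nat_lit 9264, nat_lit 7440, R12_34, R2_193, R9_155⟩]⟩, ⟨nat_lit 7, [⟨nat_lit 7, nat_lit 6960, nat_lit 7728, nat_lit 15648, nat_lit 9072, nat_lit 7440, R12_326, R2_189, R5_155⟩]⟩]⟩], [], [], [], [⟨nat_lit 5, [⟨nat_lit 4, [⟨nat_lit 5, nat_lit 14880, nat_lit 13152, nat_lit 3648, nat_lit 12864, nat_lit 12720, R14_76, R2_268, R7_265⟩]⟩, ⟨nat_lit 5, [⟨nat_lit 5, nat_lit 15360, nat_lit 13296, nat_lit 2016, nat_lit 13104, nat_lit 11424, R12_42, R2_273, R2_238⟩]⟩, ⟨nat_lit 6, [⟨nat_lit 5, nat_lit 15840, nat_lit 13440, nat_lit 2208, nat_lit 12960, nat_lit 10368, R12_46, R2_270, R2_216⟩]⟩]⟩]], [[], [], [⟨nat_lit 4, [⟨nat_lit 4, [⟨nat_lit 4, nat_lit 4512, nat_lit 13152, nat_lit 1632, nat_lit 1104, nat_lit 10320, R7_34, R7_23, R6_215⟩, ⟨nat_lit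 7, nat_lit 6096, nat_lit 13440, nat_lit 8256, nat_lit 288, nat_lit 11232, R7_172, R2_6, R8_234⟩]⟩, ⟨nat_lit 6, [⟨nat_lit 4, nat_lit 4896, nat_lit 13296, nat_lit 192, nat_lit 7104, nat_lit 9696, R2_4, R7_148, R13_202⟩, ⟨nat_lit 6, nat_lit 5520, nat_lit 13824, nat_lit 5904, nat_lit 5328, nat_lit 9888, R2_123, R2_111, R3_206⟩, ⟨nat_lit 7, nat_lit 6624, nat_lit 13728, nat_lit 7200, nat_lit 7296, nat_lit 7632, R2_150, R2_152, R9_159⟩]⟩, ⟨nat_lit 7, [⟨nat_lit 7, nat_lit 7008, nat_lit 13584, nat_lit 5568, nat_lit 6000, nat_lit 7728, R2_116, R2_125, R5_161⟩]⟩]⟩,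
 ⟨nat_lit 5, [⟨nat_lit 4, [⟨nat_lit 4, nat_lit 4560, nat_lit 15984, nat_lit 1008, nat_lit 15840, nat_lit 10608, R14_21, R14_330, R6_221⟩, ⟨nat_lit 5, nat_lit 5280, nat_lit 17664, nat_lit 1920, nat_lit 12912, nat_lit 11472, R14_40, R12_269, R4_239⟩, ⟨nat_lit 7, nat_lit 6144, nat_lit 16800, nat_lit 1584, nat_lit 7008, nat_lit 11952, R14_33, R12_146, R8_249⟩]⟩, ⟨nat_lit 6, [⟨nat_lit 4, nat_lit 4944, nat_lit 16176, nat_lit 528, nat_lit 16368, nat_lit 9744, R12_11, R14_341, R13_203⟩, ⟨nat_lit 5, nat_lit 5472, nat_lit 17808, nat_lit 2640, nat_lit 13440, nat_lit 7584, R12_55, R12_280, R3_158⟩, ⟨nat_lit 6, nat_lit 5616, nat_lit 18192, nat_lit 672, nat_lit 13536, nat_lit 10224, R12_14, R12_282, R3_213⟩, ⟨nat_lit 7, nat_lit 6672, nat_lit 17136, nat_lit 1728, nat_lit 8592, nat_lit 7680, R12_36, R12_179, R9_160⟩]⟩, ⟨nat_lit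 7, [⟨nat_lit 7, nat_lit 7056, nat_lit 16944, nat_lit 15936, nat_lit 7824, nat_lit 7824, R12_332, R12_163, R5_163⟩]⟩]⟩,
 ⟨nat_lit 6, [⟨nat_lit 6, [⟨nat_lit 6, nat_lit 5568, nat_lit 19488, nat_lit 4608, nat_lit 4032, nat_lit 10032, R1_96, R1_84, R3_209⟩]⟩]⟩,
 ⟨nat_lit 7, [⟨nat_lit 7, [⟨nat_lit 7, nat_lit 7104, nat_lit 19056, nat_lit 4272, nat_lit 4704, nat_lit 7776, R1_89, R1_98, R5_162⟩]⟩]⟩], [], [], [], [⟨nat_lit 5, [⟨nat_lit 4, [⟨nat_lit 5, nat_lit 15168, nat_lit 14496, nat_lit 3696, nat_lit 12384, nat_lit 12816, R14_77, R12_258, R7_267⟩]⟩, ⟨nat_lit 5, [⟨nat_lit 5, nat_lit 15744, nat_lit 14640, nat_lit 2064, nat_lit 12624, nat_lit 11520, R12_43, R12_263, R2_240⟩]⟩, ⟨nat_lit 6, [⟨nat_lit 5, nat_lit 15936, nat_lit 14784, nat_lit 2256, nat_lit 12528, nat_lit 10464, R12_47, R12_261, R2_218⟩]⟩]⟩]], [[], [], [],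 [], [], [], [⟨nat_lit 5, [⟨nat_lit 4, [⟨nat_lit 5, nat_lit 15072, nat_lit 14016, nat_lit 3744, nat_lit 14208, nat_lit 12768, R14_78, R1_296, R7_266⟩]⟩, ⟨nat_lit 5, [⟨nat_lit 5, nat_lit 15648, nat_lit 14160, nat_lit 2112, nat_lit 14448, nat_lit 11472, R12_44, R1_301, R2_239⟩]⟩, ⟨nat_lit 6, [⟨nat_lit 5, nat_lit 15888, nat_lit 14592, nat_lit 2304, nat_lit 14304, nat_lit 10416, R12_48, R1_298, R2_217⟩]⟩]⟩]], [[], [], [⟨nat_lit 5, [⟨nat_lit 4, [⟨nat_lit 7, nat_lit 6384, nat_lit 816, nat_lit 1536, nat_lit 9648, nat_lit 11904, R14_32, R1_201, R8_248⟩]⟩, ⟨nat_lit 6, [⟨nat_lit 7, nat_lit 6816, nat_lit 912, nat_lit 1680, nat_lit 10080, nat_lit 7488, R12_35, R1_210, R9_156⟩]⟩, ⟨nat_lit 7, [⟨nat_lit 7, nat_lit 7248, nat_lit 864, nat_lit 15840, nat_lit 9888, nat_lit 7632, R12_330, R1_206, R5_159⟩]⟩]⟩]]], [[], [], [[], [],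 [], [], [], [], [⟨nat_lit 1, [⟨nat_lit 5, [⟨nat_lit 1, nat_lit 16128, nat_lit 14976, nat_lit 6096, nat_lit 6720, nat_lit 17232, R10_127, R1_140, R3_359⟩, ⟨nat_lit 5, nat_lit 15552, nat_lit 14928, nat_lit 6144, nat_lit 7536, nat_lit 11232, R10_128, R10_157, R2_234⟩]⟩]⟩,
 ⟨nat_lit 5, [⟨nat_lit 5, [⟨nat_lit 5, nat_lit 15600, nat_lit 15168, nat_lit 12144, nat_lit 15072, nat_lit 11184, R1_253, R1_314, R2_233⟩]⟩]⟩]]], [[], [], [], [[], [], [⟨nat_lit 1, [⟨nat_lit 4, [⟨nat_lit 4, nat_lit 4704, nat_lit 11232, nat_lit 16896, nat_lit 8448, nat_lit 10272, R5_352, R5_176, R6_214⟩, ⟨nat_lit 5, nat_lit 5376, nat_lit 11520, nat_lit 17616, nat_lit 5904, nat_lit 11328, R5_367, R0_123, R4_236⟩, ⟨nat_lit 7, nat_lit 6432, nat_lit 11376, nat_lit 17232, nat_lit 8448, nat_lit 10896, R5_359, R11_176, R8_227⟩]⟩, ⟨nat_lit 7, [⟨nat_lit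 7, nat_lit 7296, nat_lit 12912, nat_lit 6096, nat_lit 8496, nat_lit 7584, R11_127, R11_177, R5_158⟩]⟩]⟩,
 ⟨nat_lit 5, [⟨nat_lit 7, [⟨nat_lit 7, nat_lit 7344, nat_lit 21600, nat_lit 16368, nat_lit 8784, nat_lit 7536, R1_341, R1_183, R5_157⟩]⟩]⟩]]], [], [[], [[], [], [⟨nat_lit 4, [⟨nat_lit 4, [⟨nat_lit 4, nat_lit 4608, nat_lit 1392, nat_lit 1536, nat_lit 672, nat_lit 10368, R4_32, R7_14, R6_216⟩, ⟨nat_lit 7, nat_lit 6192, nat_lit 1488, nat_lit 8256, nat_lit 2064, nat_lit 9552, R4_172, R2_43, R8_199⟩]⟩, ⟨nat_lit 6, [⟨nat_lit 4, nat_lit 4992, nat_lit 1440, nat_lit 12624, nat_lit 6672, nat_lit 9648, R3_263, R7_139, R13_201⟩, ⟨nat_lit 6, nat_lit 5664, nat_lit 1776, nat_lit 13440, nat_lit 4848, nat_lit 9936, R3_280, R2_101, R3_207⟩, ⟨nat_lit 7, nat_lit 6720, nat_lit 1632, nat_lit 13008, nat_lit 9840, nat_lit 7536,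 R3_271, R2_205, R9_157⟩]⟩]⟩,
 ⟨nat_lit 6, [⟨nat_lit 2, [⟨nat_lit 6, nat_lit 5904, nat_lit 1728, nat_lit 15936, nat_lit 15312, nat_lit 7056, R1_332, R1_319, R2_147⟩]⟩, ⟨nat_lit 6, [⟨nat_lit 6, nat_lit 5712, nat_lit 1824, nat_lit 19632, nat_lit 3552, nat_lit 10080, R10_409, R1_74, R3_210⟩]⟩]⟩,
 ⟨nat_lit 7, [⟨nat_lit 4, [⟨nat_lit 7, nat_lit 6240, nat_lit 1536, nat_lit 6240, nat_lit 1536, nat_lit 10080, R5_130, R1_32, R8_210⟩]⟩, ⟨nat_lit 6, [⟨nat_lit 7, nat_lit 6768, nat_lit 1680, nat_lit 14400, nat_lit 10656, nat_lit 7584, R0_300, R1_222, R9_158⟩]⟩, ⟨nat_lit 7, [⟨nat_lit 7, nat_lit 7152, nat_lit 1584, nat_lit 21840, nat_lit 6960, nat_lit 7680, R11_455, R1_145, R5_160⟩]⟩]⟩]], [], [], [], [[⟨nat_lit 0, [⟨nat_lit 3, [⟨nat_lit 0, nat_lit 1584, nat_lit 0, nat_lit 4512, nat_lit 6816, nat_lit 7296, R3_94, R4_142, R6_152⟩,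 ⟨nat_lit 3, nat_lit 3984, nat_lit 96, nat_lit 5184, nat_lit 5616, nat_lit 7968, R3_108, R3_117, R4_166⟩]⟩]⟩,
 ⟨nat_lit 2, [⟨nat_lit 0, [⟨nat_lit 2, nat_lit 1920, nat_lit 288, nat_lit 4800, nat_lit 12624, nat_lit 9744, R5_100, R11_263, R6_203⟩]⟩, ⟨nat_lit 2, [⟨nat_lit 2, nat_lit 2112, nat_lit 624, nat_lit 21888, nat_lit 12720, nat_lit 10704, R11_456, R11_265, R4_223⟩]⟩, ⟨nat_lit 3, [⟨nat_lit 0, nat_lit 1632, nat_lit 48, nat_lit 14448, nat_lit 8736, nat_lit 7344, R0_301, R5_182, R6_153⟩, ⟨nat_lit 2, nat_lit 2448, nat_lit 384, nat_lit 14544, nat_lit 12672, nat_lit 9312, R0_303, R11_264, R8_194⟩, ⟨nat_lit 3, nat_lit 4032, nat_lit 192, nat_lit 14496, nat_lit 8016, nat_lit 8064, R0_302, R0_167, R4_168⟩]⟩]⟩,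
 ⟨nat_lit 3, [⟨nat_lit 3, [⟨nat_lit 3, nat_lit 4080, nat_lit 144, nat_lit 19680, nat_lit 9888, nat_lit 8016, R10_410, R10_206, R4_167⟩]⟩, ⟨nat_lit 7, [⟨nat_lit 3, nat_lit 2976, nat_lit 240, nat_lit 15984, nat_lit 9936, nat_lit 11376, R1_333, R10_207, R7_237⟩, ⟨nat_lit 7, nat_lit 576, nat_lit 2160, nat_lit 16032, nat_lit 8688, nat_lit 10752, R1_334, R1_181, R4_224⟩]⟩]⟩,
 ⟨nat_lit 4, [⟨nat_lit 6, [⟨nat_lit 4, nat_lit 0, nat_lit 1584, nat_lit 4512, nat_lit 6816, nat_lit 7296, R3_94, R4_142, R6_152⟩, ⟨nat_lit 6, nat_lit 96, nat_lit 3984, nat_lit 5184, nat_lit 5616, nat_lit 7968, R3_108, R3_117, R4_166⟩]⟩]⟩,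
 ⟨nat_lit 6, [⟨nat_lit 2, [⟨nat_lit 2, nat_lit 2160, nat_lit 576, nat_lit 16032, nat_lit 8688, nat_lit 10752, R1_334, R1_181, R4_224⟩, ⟨nat_lit 6, nat_lit 240, nat_lit 2976, nat_lit 15984, nat_lit 9936, nat_lit 11376, R1_333, R10_207, R7_237⟩]⟩, ⟨nat_lit 6, [⟨nat_lit 6, nat_lit 144, nat_lit 4080, nat_lit 19680, nat_lit 9888, nat_lit 8016, R10_410, R10_206, R4_167⟩]⟩]⟩,
 ⟨nat_lit 7, [⟨nat_lit 4, [⟨nat_lit 7, nat_lit 288, nat_lit 1920, nat_lit 4800, nat_lit 12624, nat_lit 9744, R5_100, R11_263, R6_203⟩]⟩, ⟨nat_lit 6, [⟨nat_lit 4, nat_lit 48, nat_lit 1632, nat_lit 14448, nat_lit 8736, nat_lit 7344, R0_301, R5_182, R6_153⟩, ⟨nat_lit 6, nat_lit 192, nat_lit 4032, nat_lit 14496, nat_lit 8016, nat_lit 8064, R0_302, R0_167, R4_168⟩, ⟨nat_lit 7, nat_lit 384, nat_lit 2448, nat_lit 14544, nat_lit 12672, nat_lit 9312, R0_303,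 R11_264, R8_194⟩]⟩, ⟨nat_lit 7, [⟨nat_lit 7, nat_lit 624, nat_lit 2112, nat_lit 21888, nat_lit 12720, nat_lit 10704, R11_456, R11_265, R4_223⟩]⟩]⟩], [⟨nat_lit 0, [⟨nat_lit 0, [⟨nat_lit 0, nat_lit 8688, nat_lit 11616, nat_lit 1056, nat_lit 720, nat_lit 16704, R4_22, R4_15, R6_348⟩]⟩, ⟨nat_lit 3, [⟨nat_lit 0, nat_lit 10080, nat_lit 11856, nat_lit 4560, nat_lit 7104, nat_lit 18096, R3_95, R4_148, R8_377⟩, ⟨nat_lit 3, nat_lit 12432, nat_lit 12000, nat_lit 5232, nat_lit 5664, nat_lit 12576, R3_109, R3_118, R5_262⟩]⟩]⟩,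
 ⟨nat_lit 2, [⟨nat_lit 0, [⟨nat_lit 0, nat_lit 8736, nat_lit 14448, nat_lit 48, nat_lit 1632, nat_lit 17040, R5_1, R5_34, R6_355⟩, ⟨nat_lit 2, nat_lit 10464, nat_lit 14592, nat_lit 5088, nat_lit 13056, nat_lit 12912, R5_106, R11_272, R13_269⟩]⟩, ⟨nat_lit 2, [⟨nat_lit 2, nat_lit 10944, nat_lit 15168, nat_lit 22032, nat_lit 13152, nat_lit 17952, R11_459, R11_274, R3_374⟩]⟩, ⟨nat_lit 3, [⟨nat_lit 0, nat_lit 10128, nat_lit 14736, nat_lit 14736, nat_lit 10128, nat_lit 18960, R0_307, R5_211, R8_395⟩, ⟨nat_lit 2, nat_lit 11280, nat_lit 15024, nat_lit 14832, nat_lit 13104, nat_lit 10128, R0_309, R11_273, R9_211⟩, ⟨nat_lit 3, nat_lit 12480, nat_lit 14880, nat_lit 14784, nat_lit 8160, nat_lit 12624, R0_308, R0_170, R5_263⟩]⟩]⟩,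
 ⟨nat_lit 3, [⟨nat_lit 3, [⟨nat_lit 3, nat_lit 12528, nat_lit 14112, nat_lit 19824, nat_lit 10224, nat_lit 12672, R10_413, R10_213, R5_264⟩]⟩]⟩,
 ⟨nat_lit 6, [⟨nat_lit 2, [⟨nat_lit 2, nat_lit 10992, nat_lit 10032, nat_lit 16128, nat_lit 8736, nat_lit 17616, R1_336, R1_182, R3_367⟩, ⟨nat_lit 6, nat_lit 7872, nat_lit 10176, nat_lit 16080, nat_lit 10080, nat_lit 10272, R1_335, R10_210, R2_214⟩]⟩]⟩], [⟨nat_lit 3, [⟨nat_lit 7, [⟨nat_lit 7, nat_lit 7536, nat_lit 21600, nat_lit 16368, nat_lit 8784, nat_lit 7344, R1_341, R1_183, R5_153⟩]⟩]⟩,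
 ⟨nat_lit 4, [⟨nat_lit 4, [⟨nat_lit 4, nat_lit 4752, nat_lit 1344, nat_lit 960, nat_lit 480, nat_lit 10416, R4_20, R4_10, R6_217⟩]⟩, ⟨nat_lit 6, [⟨nat_lit 4, nat_lit 5040, nat_lit 1488, nat_lit 4656, nat_lit 6864, nat_lit 9504, R3_97, R4_143, R13_198⟩, ⟨nat_lit 6, nat_lit 5760, nat_lit 1632, nat_lit 5328, nat_lit 5712, nat_lit 9984, R3_111, R3_119, R3_208⟩]⟩]⟩,
 ⟨nat_lit 6, [⟨nat_lit 2, [⟨nat_lit 6, nat_lit 5952, nat_lit 16464, nat_lit 16176, nat_lit 10032, nat_lit 7008, R1_337, R10_209, R2_146⟩]⟩, ⟨nat_lit 6, [⟨nat_lit 6, nat_lit 5808, nat_lit 16560, nat_lit 19728, nat_lit 9984, nat_lit 10128, R10_411, R10_208, R3_211⟩]⟩]⟩,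
 ⟨nat_lit 7, [⟨nat_lit 4, [⟨nat_lit 4, nat_lit 4800, nat_lit 12624, nat_lit 288, nat_lit 1920, nat_lit 10464, R5_6, R5_40, R6_218⟩, ⟨nat_lit 7, nat_lit 6480, nat_lit 12768, nat_lit 6480, nat_lit 12768, nat_lit 10128, R5_135, R11_266, R8_211⟩]⟩, ⟨nat_lit 6, [⟨nat_lit 4, nat_lit 5088, nat_lit 13056, nat_lit 14592, nat_lit 10464, nat_lit 9552, R0_304, R5_218, R13_199⟩, ⟨nat_lit 6, nat_lit 5856, nat_lit 13296, nat_lit 14640, nat_lit 8064, nat_lit 10176, R0_305, R0_168, R3_212⟩, ⟨nat_lit 7, nat_lit 6864, nat_lit 13200, nat_lit 14688, nat_lit 12816, nat_lit 7392, R0_306, R11_267, R9_154⟩]⟩, ⟨nat_lit 7, [⟨nat_lit 7, nat_lit 7584, nat_lit 12912, nat_lit 21936, nat_lit 12864, nat_lit 7296, R11_457, R11_268, R5_152⟩]⟩]⟩]]], [[], [], [], [], [[], [⟨nat_lit 0, [⟨nat_lit 0, [⟨nat_lit 0, nat_lit 8064, nat_lit 8064, nat_lit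 432, nat_lit 16464, nat_lit 16464, R8_9, R6_343, R6_343⟩]⟩, ⟨nat_lit 1, [⟨nat_lit 0, nat_lit 8784, nat_lit 8160, nat_lit 4656, nat_lit 17136, nat_lit 15168, R5_97, R6_357, R4_316⟩]⟩, ⟨nat_lit 3, [⟨nat_lit 0, nat_lit 9312, nat_lit 8112, nat_lit 3792, nat_lit 16800, nat_lit 15648, R9_79, R6_350, R8_326⟩, ⟨nat_lit 3, nat_lit 11520, nat_lit 10224, nat_lit 4224, nat_lit 12768, nat_lit 11808, R9_88, R13_266, R5_246⟩]⟩]⟩,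
 ⟨nat_lit 2, [⟨nat_lit 0, [⟨nat_lit 0, nat_lit 8112, nat_lit 9312, nat_lit 3792, nat_lit 15648, nat_lit 16800, R9_79, R8_326, R6_350⟩, ⟨nat_lit 2, nat_lit 10224, nat_lit 11520, nat_lit 4224, nat_lit 11808, nat_lit 12768, R9_88, R5_246, R13_266⟩]⟩, ⟨nat_lit 1, [⟨nat_lit 0, nat_lit 8832, nat_lit 9360, nat_lit 2256, nat_lit 16704, nat_lit 15312, R0_47, R8_348, R4_319⟩, ⟨nat_lit 2, nat_lit 10512, nat_lit 11568, nat_lit 2688, nat_lit 11904, nat_lit 9504, R0_56, R5_248, R3_198⟩]⟩, ⟨nat_lit 2, [⟨nat_lit 2, nat_lit 10704, nat_lit 11616, nat_lit 2880, nat_lit 11856, nat_lit 17712, R0_60, R5_247, R3_369⟩]⟩]⟩,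
 ⟨nat_lit 3, [⟨nat_lit 3, [⟨nat_lit 3, nat_lit 11616, nat_lit 10704, nat_lit 2880, nat_lit 17712, nat_lit 11856, R0_60, R3_369, R5_247⟩]⟩]⟩]], [[], [⟨nat_lit 0, [⟨nat_lit 0, [⟨nat_lit 0, nat_lit 8592, nat_lit 576, nat_lit 528, nat_lit 2448, nat_lit 16656, R8_11, R4_51, R6_347⟩]⟩, ⟨nat_lit 1, [⟨nat_lit 0, nat_lit 9072, nat_lit 5856, nat_lit 5328, nat_lit 11280, nat_lit 15264, R5_111, R4_235, R4_318⟩]⟩, ⟨nat_lit 3, [⟨nat_lit 0, nat_lit 10032, nat_lit 8304, nat_lit 4704, nat_lit 7776, nat_lit 18048, R9_98, R4_162, R8_376⟩, ⟨nat_lit 3, nat_lit 12336, nat_lit 8352, nat_lit 5088, nat_lit 7296, nat_lit 12096, R9_106, R3_152, R5_252⟩]⟩]⟩,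
 ⟨nat_lit 2, [⟨nat_lit 0, [⟨nat_lit 0, nat_lit 8640, nat_lit 960, nat_lit 3840, nat_lit 1728, nat_lit 16992, R9_80, R5_36, R6_354⟩, ⟨nat_lit 2, nat_lit 10416, nat_lit 1008, nat_lit 4272, nat_lit 14784, nat_lit 12864, R9_89, R11_308, R13_268⟩]⟩, ⟨nat_lit 1, [⟨nat_lit 0, nat_lit 9120, nat_lit 6192, nat_lit 2304, nat_lit 13440, nat_lit 15408, R0_48, R5_280, R4_321⟩, ⟨nat_lit 2, nat_lit 10608, nat_lit 6240, nat_lit 2736, nat_lit 14880, nat_lit 9600, R0_57, R11_310, R3_200⟩]⟩, ⟨nat_lit 2, [⟨nat_lit 2, nat_lit 10896, nat_lit 10320, nat_lit 2976, nat_lit 14832, nat_lit 17904, R0_62, R11_309, R3_373⟩]⟩]⟩,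
 ⟨nat_lit 3, [⟨nat_lit 3, [⟨nat_lit 3, nat_lit 12384, nat_lit 8688, nat_lit 3264, nat_lit 11952, nat_lit 12144, R0_68, R10_249, R5_253⟩]⟩]⟩]], [[], [⟨nat_lit 0, [⟨nat_lit 0, [⟨nat_lit 0, nat_lit 8352, nat_lit 10512, nat_lit 576, nat_lit 3216, nat_lit 16560, R8_12, R8_67, R6_345⟩]⟩, ⟨nat_lit 1, [⟨nat_lit 0, nat_lit 8928, nat_lit 10608, nat_lit 6288, nat_lit 10800, nat_lit 15216, R5_131, R8_225, R4_317⟩]⟩, ⟨nat_lit 3, [⟨nat_lit 0, nat_lit 9696, nat_lit 10560, nat_lit 6096, nat_lit 7968, nat_lit 16992, R9_127, R8_166, R8_354⟩, ⟨nat_lit 3, nat_lit 11952, nat_lit 13488, nat_lit 6768, nat_lit 7008, nat_lit 11952, R9_141, R9_146, R5_249⟩]⟩]⟩,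
 ⟨nat_lit 2, [⟨nat_lit 0, [⟨nat_lit 0, nat_lit 8400, nat_lit 11760, nat_lit 3888, nat_lit 16224, nat_lit 16896, R9_81, R9_338, R6_352⟩, ⟨nat_lit 2, nat_lit 10320, nat_lit 14496, nat_lit 4320, nat_lit 384, nat_lit 12816, R9_90, R0_8, R13_267⟩]⟩, ⟨nat_lit 1, [⟨nat_lit 0, nat_lit 8976, nat_lit 11808, nat_lit 2352, nat_lit 16752, nat_lit 15360, R0_49, R9_349, R4_320⟩, ⟨nat_lit 2, nat_lit 10560, nat_lit 14544, nat_lit 2784, nat_lit 9984, nat_lit 9552, R0_58, R0_208, R3_199⟩]⟩, ⟨nat_lit 2, [⟨nat_lit 2, nat_lit 10800, nat_lit 14592, nat_lit 3024, nat_lit 5808, nat_lit 17808, R0_63, R0_121, R3_371⟩]⟩]⟩,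
 ⟨nat_lit 3, [⟨nat_lit 3, [⟨nat_lit 3, nat_lit 12048, nat_lit 13968, nat_lit 4848, nat_lit 4608, nat_lit 12000, R0_101, R0_96, R5_250⟩]⟩]⟩], [], [], [], [⟨nat_lit 0, [⟨nat_lit 1, [⟨nat_lit 0, nat_lit 16320, nat_lit 8208, nat_lit 6336, nat_lit 10704, nat_lit 17088, R5_132, R8_223, R7_356⟩, ⟨nat_lit 1, nat_lit 16656, nat_lit 8352, nat_lit 7200, nat_lit 7488, nat_lit 15360, R5_150, R5_156, R2_320⟩]⟩]⟩,
 ⟨nat_lit 2, [⟨nat_lit 1, [⟨nat_lit 0, nat_lit 16368, nat_lit 8304, nat_lit 12288, nat_lit 11136, nat_lit 17136, R0_256, R9_232, R7_357⟩, ⟨nat_lit 1, nat_lit 16704, nat_lit 8448, nat_lit 12672, nat_lit 9648, nat_lit 15408, R0_264, R0_201, R2_321⟩, ⟨nat_lit 2, nat_lit 16800, nat_lit 8496, nat_lit 12576, nat_lit 9840, nat_lit 15696, R0_262, R0_205, R2_327⟩]⟩]⟩]]], [[], [], [], [], [[⟨nat_lit 0, [⟨nat_lit 3, [⟨nat_lit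 0, nat_lit 1056, nat_lit 10464, nat_lit 48, nat_lit 12048, nat_lit 5184, R3_1, R6_251, R6_108⟩, ⟨nat_lit 3, nat_lit 3456, nat_lit 11088, nat_lit 3792, nat_lit 11232, nat_lit 5472, R3_79, R13_234, R4_114⟩]⟩, ⟨nat_lit 7, [⟨nat_lit 3, nat_lit 2592, nat_lit 11136, nat_lit 3552, nat_lit 11280, nat_lit 9600, R2_74, R13_235, R7_200⟩]⟩]⟩,
 ⟨nat_lit 2, [⟨nat_lit 3, [⟨nat_lit 0, nat_lit 1104, nat_lit 10752, nat_lit 144, nat_lit 12528, nat_lit 5232, R0_3, R8_261, R6_109⟩, ⟨nat_lit 2, nat_lit 2256, nat_lit 12672, nat_lit 336, nat_lit 10272, nat_lit 9168, R0_7, R5_214, R8_191⟩, ⟨nat_lit 3, nat_lit 3504, nat_lit 12288, nat_lit 240, nat_lit 8880, nat_lit 5520, R0_5, R9_185, R4_115⟩]⟩]⟩,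
 ⟨nat_lit 3, [⟨nat_lit 7, [⟨nat_lit 3, nat_lit 2688, nat_lit 11856, nat_lit 15552, nat_lit 11952, nat_lit 9648, R12_324, R3_249, R7_201⟩, ⟨nat_lit 7, nat_lit 480, nat_lit 9888, nat_lit 15504, nat_lit 8352, nat_lit 9504, R12_323, R2_174, R4_198⟩]⟩]⟩], [⟨nat_lit 0, [⟨nat_lit 3, [⟨nat_lit 0, nat_lit 9408, nat_lit 8016, nat_lit 336, nat_lit 15504, nat_lit 15600, R3_7, R6_323, R8_325⟩, ⟨nat_lit 3, nat_lit 11664, nat_lit 8832, nat_lit 3936, nat_lit 12432, nat_lit 12192, R3_82, R13_259, R5_254⟩]⟩]⟩,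
 ⟨nat_lit 2, [⟨nat_lit 3, [⟨nat_lit 0, nat_lit 9456, nat_lit 8448, nat_lit 7632, nat_lit 16320, nat_lit 16416, R0_159, R8_340, R8_342⟩, ⟨nat_lit 2, nat_lit 11088, nat_lit 9936, nat_lit 7920, nat_lit 11136, nat_lit 10032, R0_165, R5_232, R9_209⟩, ⟨nat_lit 3, nat_lit 11712, nat_lit 9552, nat_lit 7776, nat_lit 9648, nat_lit 12240, R0_162, R9_201, R5_255⟩]⟩]⟩], [⟨nat_lit 3, [⟨nat_lit 7, [⟨nat_lit 7, nat_lit 7440, nat_lit 7728, nat_lit 15648, nat_lit 9072, nat_lit 6960, R12_326, R2_189, R5_145⟩]⟩]⟩], [⟨nat_lit 0, [⟨nat_lit 3, [⟨nat_lit 0, nat_lit 13104, nat_lit 11472, nat_lit 192, nat_lit 13392, nat_lit 14208, R3_4, R6_279, R4_296⟩]⟩, ⟨nat_lit 7, [⟨nat_lit 0, nat_lit 12816, nat_lit 11136, nat_lit 3168, nat_lit 13056, nat_lit 15888, R2_66, R6_272, R7_331⟩, ⟨nat_lit 3, nat_lit 13824, nat_lit 12048, nat_lit 3600, nat_lit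 11952, nat_lit 11136, R2_75, R13_249, R14_232⟩]⟩]⟩,
 ⟨nat_lit 2, [⟨nat_lit 3, [⟨nat_lit 0, nat_lit 13152, nat_lit 16464, nat_lit 5664, nat_lit 14304, nat_lit 14496, R0_118, R8_298, R4_302⟩, ⟨nat_lit 2, nat_lit 13488, nat_lit 17760, nat_lit 5760, nat_lit 10752, nat_lit 17664, R0_120, R5_224, R5_368⟩]⟩]⟩,
 ⟨nat_lit 3, [⟨nat_lit 7, [⟨nat_lit 3, nat_lit 13920, nat_lit 14736, nat_lit 15600, nat_lit 14640, nat_lit 11184, R12_325, R3_305, R14_233⟩]⟩]⟩]], [[⟨nat_lit 0, [⟨nat_lit 3, [⟨nat_lit 0, nat_lit 1680, nat_lit 96, nat_lit 768, nat_lit 6336, nat_lit 7200, R3_16, R4_132, R6_150⟩, ⟨nat_lit 3, nat_lit 4128, nat_lit 336, nat_lit 6096, nat_lit 6192, nat_lit 7872, R3_127, R3_129, R4_164⟩]⟩, ⟨nat_lit 7, [⟨nat_lit 3, nat_lit 3024, nat_lit 576, nat_lit 4416, nat_lit 6624, nat_lit 11280, R2_92, R3_138, R7_235⟩]⟩]⟩,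
 ⟨nat_lit 2, [⟨nat_lit 3, [⟨nat_lit 0, nat_lit 1728, nat_lit 144, nat_lit 960, nat_lit 8640, nat_lit 7248, R0_20, R5_180, R6_151⟩, ⟨nat_lit 2, nat_lit 2496, nat_lit 1200, nat_lit 1152, nat_lit 13536, nat_lit 9264, R0_24, R11_282, R8_193⟩, ⟨nat_lit 3, nat_lit 4176, nat_lit 384, nat_lit 1056, nat_lit 8400, nat_lit 7920, R0_22, R0_175, R4_165⟩]⟩]⟩,
 ⟨nat_lit 3, [⟨nat_lit 7, [⟨nat_lit 3, nat_lit 3072, nat_lit 624, nat_lit 15744, nat_lit 10560, nat_lit 11328, R12_328, R10_220, R7_236⟩, ⟨nat_lit 7, nat_lit 672, nat_lit 2400, nat_lit 15696, nat_lit 9168, nat_lit 10512, R12_327, R1_191, R4_219⟩]⟩]⟩], [], [⟨nat_lit 3, [⟨nat_lit 7, [⟨nat_lit 7, nat_lit 7632, nat_lit 864, nat_lit 15840, nat_lit 9888, nat_lit 7248, R12_330, R1_206, R5_151⟩]⟩]⟩], [⟨nat_lit 0, [⟨nat_lit 3, [⟨nat_lit 0, nat_lit 13392, nat_lit 2208, nat_lit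 912, nat_lit 6480, nat_lit 15072, R3_19, R4_135, R4_314⟩]⟩, ⟨nat_lit 7, [⟨nat_lit 0, nat_lit 13056, nat_lit 12192, nat_lit 4032, nat_lit 12960, nat_lit 17520, R2_84, R4_270, R7_365⟩, ⟨nat_lit 3, nat_lit 14160, nat_lit 12768, nat_lit 4464, nat_lit 6672, nat_lit 11424, R2_93, R3_139, R14_238⟩]⟩]⟩,
 ⟨nat_lit 2, [⟨nat_lit 3, [⟨nat_lit 0, nat_lit 13440, nat_lit 2304, nat_lit 6192, nat_lit 9120, nat_lit 15408, R0_129, R5_190, R4_321⟩, ⟨nat_lit 2, nat_lit 13584, nat_lit 3984, nat_lit 6288, nat_lit 14016, nat_lit 17760, R0_131, R11_292, R5_370⟩]⟩]⟩,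
 ⟨nat_lit 3, [⟨nat_lit 7, [⟨nat_lit 3, nat_lit 14208, nat_lit 12912, nat_lit 15792, nat_lit 11232, nat_lit 11472, R12_329, R10_234, R14_239⟩]⟩]⟩]], [[⟨nat_lit 0, [⟨nat_lit 3, [⟨nat_lit 0, nat_lit 1344, nat_lit 384, nat_lit 2256, nat_lit 7584, nat_lit 6528, R3_47, R8_158, R6_136⟩, ⟨nat_lit 3, nat_lit 3744, nat_lit 1056, nat_lit 7152, nat_lit 5376, nat_lit 6672, R3_149, R9_112, R4_139⟩]⟩, ⟨nat_lit 7, [⟨nat_lit 3, nat_lit 2784, nat_lit 1776, nat_lit 6528, nat_lit 5760, nat_lit 10464, R2_136, R9_120, R7_218⟩]⟩]⟩,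
 ⟨nat_lit 2, [⟨nat_lit 3, [⟨nat_lit 0, nat_lit 1392, nat_lit 480, nat_lit 1920, nat_lit 13344, nat_lit 6576, R0_40, R9_278, R6_137⟩, ⟨nat_lit 2, nat_lit 2352, nat_lit 2592, nat_lit 2016, nat_lit 7440, nat_lit 9216, R0_42, R0_155, R8_192⟩]⟩]⟩,
 ⟨nat_lit 3, [⟨nat_lit 7, [⟨nat_lit 3, nat_lit 2880, nat_lit 1824, nat_lit 15984, nat_lit 13296, nat_lit 10512, R12_333, R0_277, R7_219⟩]⟩]⟩], [⟨nat_lit 0, [⟨nat_lit 3, [⟨nat_lit 0, nat_lit 9792, nat_lit 7248, nat_lit 2544, nat_lit 7920, nat_lit 16944, R3_53, R8_165, R8_353⟩, ⟨nat_lit 3, nat_lit 12096, nat_lit 8352, nat_lit 7296, nat_lit 5424, nat_lit 12336, R3_152, R9_113, R5_257⟩]⟩]⟩,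
 ⟨nat_lit 2, [⟨nat_lit 3, [⟨nat_lit 0, nat_lit 9840, nat_lit 7680, nat_lit 9024, nat_lit 16512, nat_lit 17376, R0_188, R9_344, R8_362⟩, ⟨nat_lit 2, nat_lit 11184, nat_lit 9072, nat_lit 9168, nat_lit 7968, nat_lit 10080, R0_191, R0_166, R9_210⟩]⟩]⟩], [], [⟨nat_lit 0, [⟨nat_lit 3, [⟨nat_lit 0, nat_lit 13248, nat_lit 8832, nat_lit 2400, nat_lit 7680, nat_lit 14688, R3_50, R8_160, R4_306⟩]⟩, ⟨nat_lit 7, [⟨nat_lit 0, nat_lit 12960, nat_lit 8880, nat_lit 6384, nat_lit 14544, nat_lit 16944, R2_133, R8_303, R7_353⟩, ⟨nat_lit 3, nat_lit 14016, nat_lit 10464, nat_lit 6576, nat_lit 5808, nat_lit 11280, R2_137, R9_121, R14_235⟩]⟩]⟩,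
 ⟨nat_lit 2, [⟨nat_lit 3, [⟨nat_lit 0, nat_lit 13296, nat_lit 9504, nat_lit 6960, nat_lit 15456, nat_lit 14832, R0_145, R9_322, R4_309⟩, ⟨nat_lit 2, nat_lit 13536, nat_lit 11856, nat_lit 7056, nat_lit 7584, nat_lit 17712, R0_147, R0_158, R5_369⟩]⟩]⟩,
 ⟨nat_lit 3, [⟨nat_lit 7, [⟨nat_lit 3, nat_lit 14112, nat_lit 11088, nat_lit 16032, nat_lit 13488, nat_lit 11328, R12_334, R0_281, R14_236⟩]⟩]⟩]], [[⟨nat_lit 0, [⟨nat_lit 3, [⟨nat_lit 3, nat_lit 4224, nat_lit 4416, nat_lit 5520, nat_lit 4944, nat_lit 7200, R3_115, R3_103, R4_150⟩]⟩, ⟨nat_lit 7, [⟨nat_lit 3, nat_lit 3168, nat_lit 12432, nat_lit 4944, nat_lit 13152, nat_lit 10944, R2_103, R3_274, R7_228⟩, ⟨nat_lit 7, nat_lit 768, nat_lit 13680, nat_lit 5520, nat_lit 5952, nat_lit 10272, R2_115, R2_124, R4_214⟩]⟩]⟩,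
 ⟨nat_lit 2, [⟨nat_lit 3, [⟨nat_lit 3, nat_lit 4272, nat_lit 4608, nat_lit 480, nat_lit 11904, nat_lit 7248, R0_10, R0_248, R4_151⟩]⟩]⟩,
 ⟨nat_lit 3, [⟨nat_lit 7, [⟨nat_lit 7, nat_lit 864, nat_lit 14016, nat_lit 15888, nat_lit 7776, nat_lit 10320, R12_331, R12_162, R4_215⟩]⟩]⟩], [⟨nat_lit 0, [⟨nat_lit 3, [⟨nat_lit 3, nat_lit 12576, nat_lit 12000, nat_lit 5664, nat_lit 5232, nat_lit 12432, R3_118, R3_109, R5_259⟩]⟩]⟩,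
 ⟨nat_lit 2, [⟨nat_lit 3, [⟨nat_lit 3, nat_lit 12624, nat_lit 14880, nat_lit 8160, nat_lit 14784, nat_lit 12480, R0_170, R0_308, R5_260⟩]⟩]⟩], [⟨nat_lit 0, [⟨nat_lit 7, [⟨nat_lit 7, nat_lit 7728, nat_lit 1680, nat_lit 5568, nat_lit 6000, nat_lit 7008, R2_116, R2_125, R5_146⟩]⟩]⟩,
 ⟨nat_lit 3, [⟨nat_lit 7, [⟨nat_lit 7, nat_lit 7824, nat_lit 1728, nat_lit 15936, nat_lit 7824, nat_lit 7056, R12_332, R12_163, R5_147⟩]⟩]⟩]]]]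
noncomputable def N3651 : T3 (List N0) := [[[[], [], [⟨nat_lit 1, [⟨nat_lit 5, [⟨nat_lit 4, nat_lit 2832, nat_lit 6000, nat_lit 17424, nat_lit 6240, nat_lit 3648, R3_363, R4_130, R5_76⟩, ⟨nat_lit 5, nat_lit 2928, nat_lit 6576, nat_lit 17520, nat_lit 1152, nat_lit 8304, R3_365, R3_24, R11_173⟩]⟩]⟩], [], [], [], [⟨nat_lit 1, [⟨nat_lit 5, [⟨nat_lit 5, nat_lit 2592, nat_lit 6192, nat_lit 10656, nat_lit 2016, nat_lit 7296, R3_222, R3_42, R1_152⟩]⟩]⟩]], [], [[], [], [], [], [⟨nat_lit 1, [⟨nat_lit 1, [⟨nat_lit 1, nat_lit 12432, nat_lit 14112, nat_lit 11616, nat_lit 11568, nat_lit 12720, R2_242, R1_241, R2_265⟩]⟩, ⟨nat_lit 5, [⟨nat_lit 1, nat_lit 2496, nat_lit 6144, nat_lit 3456, nat_lit 11664, nat_lit 1632, R3_72, R1_243, R3_34⟩]⟩]⟩], [], [⟨nat_lit 1, [⟨nat_lit 1, [⟨nat_lit 1, nat_lit 12528, nat_lit 18096, nat_lit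 11760, nat_lit 11616, nat_lit 14064, R2_245, R1_242, R1_293⟩]⟩, ⟨nat_lit 5, [⟨nat_lit 1, nat_lit 2544, nat_lit 17904, nat_lit 10944, nat_lit 11712, nat_lit 8256, R3_228, R1_244, R10_172⟩, ⟨nat_lit 5, nat_lit 2640, nat_lit 17952, nat_lit 10848, nat_lit 12768, nat_lit 7344, R3_226, R10_266, R1_153⟩]⟩]⟩]], [[], [], [⟨nat_lit 1, [⟨nat_lit 5, [⟨nat_lit 4, nat_lit 2880, nat_lit 10704, nat_lit 17712, nat_lit 11616, nat_lit 11856, R3_369, R5_242, R5_247⟩, ⟨nat_lit 5, nat_lit 2976, nat_lit 10896, nat_lit 17904, nat_lit 10320, nat_lit 8352, R3_373, R0_215, R11_174⟩, ⟨nat_lit 7, nat_lit 3024, nat_lit 10800, nat_lit 17808, nat_lit 16704, nat_lit 5808, R3_371, R11_348, R0_121⟩]⟩]⟩]], [], [], [[], [], [], [], [⟨nat_lit 0, [⟨nat_lit 1, [⟨nat_lit 0, nat_lit 12144, nat_lit 12480, nat_lit 17424, nat_lit 11328, nat_lit 5616, R7_363,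 R8_236, R7_117⟩, ⟨nat_lit 1, nat_lit 12192, nat_lit 12960, nat_lit 17520, nat_lit 13056, nat_lit 4032, R7_365, R5_272, R2_84⟩, ⟨nat_lit 3, nat_lit 12240, nat_lit 12672, nat_lit 17472, nat_lit 11280, nat_lit 7776, R7_364, R9_235, R2_162⟩]⟩, ⟨nat_lit 5, [⟨nat_lit 0, nat_lit 2160, nat_lit 5904, nat_lit 15024, nat_lit 18192, nat_lit 6096, R4_313, R8_379, R4_127⟩, ⟨nat_lit 1, nat_lit 2208, nat_lit 6480, nat_lit 15072, nat_lit 13392, nat_lit 912, R4_314, R5_279, R3_19⟩]⟩]⟩,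
 ⟨nat_lit 1, [⟨nat_lit 1, [⟨nat_lit 0, nat_lit 12336, nat_lit 12528, nat_lit 15552, nat_lit 2736, nat_lit 5664, R2_324, R5_57, R7_118⟩, ⟨nat_lit 1, nat_lit 12384, nat_lit 13008, nat_lit 15648, nat_lit 15984, nat_lit 4080, R2_326, R11_333, R2_85⟩, ⟨nat_lit 3, nat_lit 12480, nat_lit 12864, nat_lit 15600, nat_lit 9792, nat_lit 7968, R2_325, R0_204, R2_166⟩]⟩, ⟨nat_lit 5, [⟨nat_lit 0, nat_lit 2400, nat_lit 5952, nat_lit 3552, nat_lit 3696, nat_lit 6192, R3_74, R5_77, R4_129⟩, ⟨nat_lit 1, nat_lit 2448, nat_lit 6528, nat_lit 3600, nat_lit 16320, nat_lit 960, R3_75, R11_340, R3_20⟩]⟩]⟩,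
 ⟨nat_lit 3, [⟨nat_lit 1, [⟨nat_lit 3, nat_lit 12624, nat_lit 12816, nat_lit 14784, nat_lit 9408, nat_lit 7920, R2_308, R0_196, R2_165⟩]⟩]⟩], [], [], [⟨nat_lit 0, [⟨nat_lit 1, [⟨nat_lit 3, nat_lit 12288, nat_lit 16368, nat_lit 17808, nat_lit 11328, nat_lit 8304, R7_371, R9_236, R1_173⟩]⟩, ⟨nat_lit 5, [⟨nat_lit 0, nat_lit 2256, nat_lit 8832, nat_lit 15312, nat_lit 19056, nat_lit 9360, R4_319, R8_397, R5_195⟩, ⟨nat_lit 1, nat_lit 2304, nat_lit 9120, nat_lit 15408, nat_lit 13440, nat_lit 6192, R4_321, R5_280, R0_129⟩, ⟨nat_lit 3, nat_lit 2352, nat_lit 8976, nat_lit 15360, nat_lit 11472, nat_lit 8736, R4_320, R9_239, R11_182⟩]⟩]⟩,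
 ⟨nat_lit 1, [⟨nat_lit 1, [⟨nat_lit 3, nat_lit 12576, nat_lit 16800, nat_lit 15696, nat_lit 9840, nat_lit 8496, R2_327, R0_205, R1_177⟩]⟩, ⟨nat_lit 5, [⟨nat_lit 0, nat_lit 2688, nat_lit 10512, nat_lit 9504, nat_lit 11904, nat_lit 11568, R3_198, R5_248, R5_241⟩, ⟨nat_lit 1, nat_lit 2736, nat_lit 10608, nat_lit 9600, nat_lit 16368, nat_lit 6240, R3_200, R11_341, R0_130⟩, ⟨nat_lit 3, nat_lit 2784, nat_lit 10560, nat_lit 9552, nat_lit 9984, nat_lit 8784, R3_199, R0_208, R11_183⟩]⟩]⟩,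
 ⟨nat_lit 3, [⟨nat_lit 1, [⟨nat_lit 3, nat_lit 12672, nat_lit 16704, nat_lit 15408, nat_lit 9648, nat_lit 8448, R2_321, R0_201, R1_176⟩]⟩]⟩]]], [[[], [], [⟨nat_lit 1, [⟨nat_lit 5, [⟨nat_lit 4, nat_lit 3216, nat_lit 1104, nat_lit 2544, nat_lit 6720, nat_lit 3792, R10_53, R4_140, R5_79⟩, ⟨nat_lit 5, nat_lit 3312, nat_lit 6288, nat_lit 2592, nat_lit 6336, nat_lit 10128, R10_54, R3_132, R11_211⟩]⟩]⟩,
 ⟨nat_lit 5, [⟨nat_lit 5, [⟨nat_lit 4, nat_lit 3600, nat_lit 1872, nat_lit 5232, nat_lit 6528, nat_lit 2832, R1_109, R7_136, R5_59⟩, ⟨nat_lit 5, nat_lit 3696, nat_lit 6816, nat_lit 5472, nat_lit 4704, nat_lit 9264, R1_114, R2_98, R11_193⟩, ⟨nat_lit 7, nat_lit 3792, nat_lit 8448, nat_lit 5328, nat_lit 9648, nat_lit 6576, R1_111, R2_201, R0_137⟩]⟩]⟩], [], [], [], [⟨nat_lit 1, [⟨nat_lit 5, [⟨nat_lit 5, nat_lit 3120, nat_lit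 4368, nat_lit 2304, nat_lit 6960, nat_lit 7680, R10_48, R3_145, R1_160⟩]⟩]⟩,
 ⟨nat_lit 5, [⟨nat_lit 5, [⟨nat_lit 5, nat_lit 3456, nat_lit 13536, nat_lit 5568, nat_lit 13680, nat_lit 7536, R1_116, R2_285, R1_157⟩]⟩]⟩]], [[], [], [⟨nat_lit 5, [⟨nat_lit 5, [⟨nat_lit 4, nat_lit 3648, nat_lit 16320, nat_lit 5280, nat_lit 21408, nat_lit 14064, R1_110, R14_446, R5_293⟩, ⟨nat_lit 5, nat_lit 3744, nat_lit 17904, nat_lit 5520, nat_lit 17184, nat_lit 9312, R1_115, R12_358, R11_194⟩, ⟨nat_lit 7, nat_lit 3840, nat_lit 17232, nat_lit 5376, nat_lit 9504, nat_lit 6672, R1_112, R12_198, R0_139⟩]⟩]⟩], [], [], [], [⟨nat_lit 5, [⟨nat_lit 5, [⟨nat_lit 5, nat_lit 3504, nat_lit 14880, nat_lit 5616, nat_lit 15456, nat_lit 7632, R1_117, R12_322, R1_159⟩]⟩]⟩]], [[], [], [], [], [], [], [⟨nat_lit 1, [⟨nat_lit 1, [⟨nat_lit 1, nat_lit 13920,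 nat_lit 15216, nat_lit 12192, nat_lit 11760, nat_lit 15168, R1_254, R1_245, R1_316⟩]⟩, ⟨nat_lit 5, [⟨nat_lit 1, nat_lit 3072, nat_lit 15024, nat_lit 13008, nat_lit 11808, nat_lit 8352, R10_271, R1_246, R10_174⟩, ⟨nat_lit 5, nat_lit 3168, nat_lit 15072, nat_lit 13056, nat_lit 12816, nat_lit 7728, R10_272, R10_267, R1_161⟩]⟩]⟩,
 ⟨nat_lit 5, [⟨nat_lit 5, [⟨nat_lit 5, nat_lit 3552, nat_lit 14880, nat_lit 5664, nat_lit 15024, nat_lit 7584, R1_118, R1_313, R1_158⟩]⟩]⟩]], [[], [], [⟨nat_lit 1, [⟨nat_lit 5, [⟨nat_lit 4, nat_lit 3264, nat_lit 8688, nat_lit 11952, nat_lit 12384, nat_lit 12144, R10_249, R5_258, R5_253⟩, ⟨nat_lit 5, nat_lit 3360, nat_lit 8736, nat_lit 12048, nat_lit 10368, nat_lit 10176, R10_251, R0_216, R11_212⟩, ⟨nat_lit 7, nat_lit 3408, nat_lit 8784, nat_lit 12000, nat_lit 16752, nat_lit 7104, R10_250,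 R11_349, R0_148⟩]⟩]⟩,
 ⟨nat_lit 5, [⟨nat_lit 5, [⟨nat_lit 7, nat_lit 3888, nat_lit 8832, nat_lit 5424, nat_lit 10464, nat_lit 6624, R1_113, R1_218, R0_138⟩]⟩]⟩]]], [[], [], [[], [], [], [], [⟨nat_lit 1, [⟨nat_lit 1, [⟨nat_lit 1, nat_lit 13392, nat_lit 13392, nat_lit 6528, nat_lit 12000, nat_lit 13632, R12_136, R1_250, R2_284⟩]⟩]⟩], [⟨nat_lit 1, [⟨nat_lit 1, [⟨nat_lit 1, nat_lit 13584, nat_lit 14736, nat_lit 6576, nat_lit 12096, nat_lit 15408, R12_137, R1_252, R12_321⟩]⟩]⟩], [⟨nat_lit 1, [⟨nat_lit 1, [⟨nat_lit 1, nat_lit 13680, nat_lit 14208, nat_lit 6624, nat_lit 12048, nat_lit 14976, R12_138, R1_251, R1_312⟩]⟩]⟩]], [], [], [], [[], [], [], [], [⟨nat_lit 0, [⟨nat_lit 1, [⟨nat_lit 0, nat_lit 12720, nat_lit 1728, nat_lit 6528, nat_lit 11472, nat_lit 6288, R14_136, R8_239, R7_131⟩, ⟨nat_lit 1, nat_lit 12768, nat_lit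 6672, nat_lit 7824, nat_lit 14160, nat_lit 4464, R14_163, R5_295, R2_93⟩, ⟨nat_lit 3, nat_lit 12816, nat_lit 8256, nat_lit 7248, nat_lit 12816, nat_lit 9024, R14_151, R9_267, R2_188⟩]⟩]⟩,
 ⟨nat_lit 1, [⟨nat_lit 1, [⟨nat_lit 0, nat_lit 13296, nat_lit 1824, nat_lit 4512, nat_lit 2880, nat_lit 6480, R12_94, R5_60, R7_135⟩, ⟨nat_lit 1, nat_lit 13344, nat_lit 6768, nat_lit 5808, nat_lit 17232, nat_lit 4656, R12_121, R11_359, R2_97⟩, ⟨nat_lit 3, nat_lit 13440, nat_lit 8400, nat_lit 5232, nat_lit 10992, nat_lit 9600, R12_109, R0_229, R2_200⟩]⟩]⟩,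
 ⟨nat_lit 2, [⟨nat_lit 1, [⟨nat_lit 0, nat_lit 13056, nat_lit 1968, nat_lit 7680, nat_lit 3024, nat_lit 6384, R12_160, R9_63, R7_133⟩, ⟨nat_lit 1, nat_lit 13104, nat_lit 6912, nat_lit 9552, nat_lit 1488, nat_lit 4560, R12_199, R0_31, R2_95⟩]⟩]⟩,
 ⟨nat_lit 3, [⟨nat_lit 1, [⟨nat_lit 3, nat_lit 13776, nat_lit 8304, nat_lit 16320, nat_lit 10608, nat_lit 9168, R12_340, R0_221, R2_191⟩]⟩]⟩], [⟨nat_lit 0, [⟨nat_lit 0, [⟨nat_lit 0, nat_lit 11280, nat_lit 10992, nat_lit 1920, nat_lit 4080, nat_lit 1440, R7_40, R8_85, R7_30⟩, ⟨nat_lit 3, nat_lit 11328, nat_lit 11376, nat_lit 8544, nat_lit 12144, nat_lit 432, R7_178, R9_253, R2_9⟩]⟩, ⟨nat_lit 1, [⟨nat_lit 0, nat_lit 12864, nat_lit 11040, nat_lit 6576, nat_lit 12048, nat_lit 20016, R14_137, R8_251, R14_417⟩, ⟨nat_lit 1, nat_lit 12912, nat_lit 11232, nat_lit 7872, nat_lit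 14208, nat_lit 15792, R14_164, R5_296, R12_329⟩, ⟨nat_lit 3, nat_lit 12960, nat_lit 11424, nat_lit 7344, nat_lit 12912, nat_lit 7632, R14_153, R9_269, R12_159⟩]⟩]⟩,
 ⟨nat_lit 1, [⟨nat_lit 1, [⟨nat_lit 0, nat_lit 13488, nat_lit 11088, nat_lit 4560, nat_lit 14112, nat_lit 21312, R12_95, R5_294, R14_444⟩, ⟨nat_lit 1, nat_lit 13536, nat_lit 11280, nat_lit 5856, nat_lit 17280, nat_lit 17088, R12_122, R11_360, R12_356⟩, ⟨nat_lit 3, nat_lit 13632, nat_lit 11472, nat_lit 5328, nat_lit 11088, nat_lit 9456, R12_111, R0_231, R12_197⟩]⟩]⟩,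
 ⟨nat_lit 2, [⟨nat_lit 0, [⟨nat_lit 0, nat_lit 11376, nat_lit 11136, nat_lit 480, nat_lit 12096, nat_lit 7440, R2_10, R9_252, R7_155⟩, ⟨nat_lit 2, nat_lit 11424, nat_lit 11664, nat_lit 6192, nat_lit 1728, nat_lit 5664, R2_129, R0_36, R2_118⟩]⟩, ⟨nat_lit 1, [⟨nat_lit 0, nat_lit 13152, nat_lit 11184, nat_lit 7728, nat_lit 12768, nat_lit 20688, R12_161, R9_266, R14_431⟩, ⟨nat_lit 1, nat_lit 13248, nat_lit 11328, nat_lit 9600, nat_lit 10944, nat_lit 16464, R12_200, R0_228, R12_343⟩, ⟨nat_lit 2, nat_lit 13200, nat_lit 11712, nat_lit 8016, nat_lit 11184, nat_lit 16608, R12_167, R0_233, R12_346⟩]⟩, ⟨nat_lit 2, [⟨nat_lit 2, nat_lit 14016, nat_lit 11760, nat_lit 4896, nat_lit 6768, nat_lit 4368, R1_102, R0_141, R1_91⟩]⟩]⟩,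
 ⟨nat_lit 3, [⟨nat_lit 0, [⟨nat_lit 3, nat_lit 11472, nat_lit 11520, nat_lit 5712, nat_lit 1776, nat_lit 6144, R2_119, R0_37, R2_128⟩]⟩, ⟨nat_lit 1, [⟨nat_lit 3, nat_lit 13824, nat_lit 11568, nat_lit 16656, nat_lit 11232, nat_lit 7968, R12_347, R0_234, R12_166⟩]⟩, ⟨nat_lit 3, [⟨nat_lit 3, nat_lit 14352, nat_lit 11616, nat_lit 4416, nat_lit 6816, nat_lit 4848, R1_92, R0_142, R1_101⟩]⟩]⟩], [], [⟨nat_lit 0, [⟨nat_lit 1, [⟨nat_lit 3, nat_lit 13008, nat_lit 8880, nat_lit 7296, nat_lit 12864, nat_lit 9840, R14_152, R9_268, R1_205⟩]⟩]⟩,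
 ⟨nat_lit 1, [⟨nat_lit 1, [⟨nat_lit 3, nat_lit 13728, nat_lit 8928, nat_lit 5280, nat_lit 11040, nat_lit 10416, R12_110, R0_230, R1_217⟩]⟩]⟩,
 ⟨nat_lit 3, [⟨nat_lit 1, [⟨nat_lit 3, nat_lit 13872, nat_lit 8976, nat_lit 16512, nat_lit 10848, nat_lit 9984, R12_344, R0_226, R1_208⟩]⟩]⟩]]], [[[], [], [], [], [], [], [⟨nat_lit 1, [⟨nat_lit 5, [⟨nat_lit 5, nat_lit 4464, nat_lit 9504, nat_lit 5040, nat_lit 8496, nat_lit 7392, R0_105, R3_177, R1_154⟩]⟩]⟩]], [], [[], [], [], [], [⟨nat_lit 1, [⟨nat_lit 5, [⟨nat_lit 1, nat_lit 4368, nat_lit 9456, nat_lit 4800, nat_lit 11856, nat_lit 8160, R0_100, R1_247, R3_170⟩]⟩]⟩], [], [⟨nat_lit 1, [⟨nat_lit 5, [⟨nat_lit 1, nat_lit 4416, nat_lit 8928, nat_lit 5184, nat_lit 11904, nat_lit 8304, R0_108, R1_248, R10_173⟩, ⟨nat_lit 5, nat_lit 4512, nat_lit 9072, nat_lit 5136, nat_lit 12864,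 nat_lit 7440, R0_107, R10_268, R1_155⟩]⟩]⟩], [⟨nat_lit 1, [⟨nat_lit 5, [⟨nat_lit 1, nat_lit 4704, nat_lit 10272, nat_lit 4944, nat_lit 11952, nat_lit 6384, R0_103, R1_249, R0_133⟩]⟩]⟩]], [[], [], [⟨nat_lit 1, [⟨nat_lit 5, [⟨nat_lit 4, nat_lit 4848, nat_lit 13968, nat_lit 4608, nat_lit 12048, nat_lit 12000, R0_96, R5_251, R5_250⟩, ⟨nat_lit 5, nat_lit 4896, nat_lit 14160, nat_lit 4752, nat_lit 10416, nat_lit 8928, R0_99, R0_217, R11_186⟩, ⟨nat_lit 7, nat_lit 4992, nat_lit 14064, nat_lit 4656, nat_lit 16800, nat_lit 6336, R0_97, R11_350, R0_132⟩]⟩]⟩], [], [], [], [⟨nat_lit 1, [⟨nat_lit 5, [⟨nat_lit 5, nat_lit 4560, nat_lit 10320, nat_lit 5088, nat_lit 10464, nat_lit 7488, R0_106, R0_218, R1_156⟩]⟩]⟩]], [[], [], [], [⟨nat_lit 0, [⟨nat_lit 5, [⟨nat_lit 3, nat_lit 4176, nat_lit 8592, nat_lit 14640, nat_lit 10368,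 nat_lit 6480, R5_305, R13_216, R1_135⟩]⟩]⟩,
 ⟨nat_lit 1, [⟨nat_lit 5, [⟨nat_lit 3, nat_lit 5040, nat_lit 9504, nat_lit 4464, nat_lit 8496, nat_lit 7392, R0_93, R3_177, R1_154⟩]⟩]⟩,
 ⟨nat_lit 3, [⟨nat_lit 5, [⟨nat_lit 3, nat_lit 5376, nat_lit 9888, nat_lit 6336, nat_lit 13056, nat_lit 7056, R11_132, R3_272, R1_147⟩, ⟨nat_lit 7, nat_lit 5472, nat_lit 7344, nat_lit 6240, nat_lit 7392, nat_lit 8016, R11_130, R2_154, R10_167⟩]⟩]⟩]], [], [[], [], [], [⟨nat_lit 0, [⟨nat_lit 5, [⟨nat_lit 3, nat_lit 4224, nat_lit 9408, nat_lit 17280, nat_lit 11664, nat_lit 6576, R5_360, R9_243, R1_137⟩]⟩]⟩,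
 ⟨nat_lit 1, [⟨nat_lit 5, [⟨nat_lit 3, nat_lit 5088, nat_lit 10320, nat_lit 4560, nat_lit 10464, nat_lit 7488, R0_95, R0_218, R1_156⟩]⟩]⟩,
 ⟨nat_lit 3, [⟨nat_lit 5, [⟨nat_lit 3, nat_lit 5424, nat_lit 10704, nat_lit 6384, nat_lit 15120, nat_lit 7104, R11_133, R0_315, R1_148⟩]⟩]⟩], [], [], [], [⟨nat_lit 0, [⟨nat_lit 5, [⟨nat_lit 0, nat_lit 3936, nat_lit 13920, nat_lit 17040, nat_lit 19200, nat_lit 9744, R5_355, R8_400, R5_203⟩, ⟨nat_lit 1, nat_lit 3984, nat_lit 14016, nat_lit 17760, nat_lit 13584, nat_lit 6288, R5_370, R5_283, R0_131⟩, ⟨nat_lit 3, nat_lit 4032, nat_lit 14112, nat_lit 17424, nat_lit 11616, nat_lit 8832, R5_363, R9_242, R11_184⟩]⟩]⟩,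
 ⟨nat_lit 1, [⟨nat_lit 5, [⟨nat_lit 0, nat_lit 4608, nat_lit 13968, nat_lit 4848, nat_lit 12048, nat_lit 12000, R0_101, R5_251, R5_250⟩, ⟨nat_lit 1, nat_lit 4656, nat_lit 14064, nat_lit 4992, nat_lit 16800, nat_lit 6336, R0_104, R11_350, R0_132⟩, ⟨nat_lit 3, nat_lit 4752, nat_lit 14160, nat_lit 4896, nat_lit 10416, nat_lit 8928, R0_102, R0_217, R11_186⟩]⟩]⟩,
 ⟨nat_lit 3, [⟨nat_lit 1, [⟨nat_lit 3, nat_lit 13968, nat_lit 14256, nat_lit 16416, nat_lit 10128, nat_lit 8880, R1_342, R0_211, R1_185⟩]⟩, ⟨nat_lit 5, [⟨nat_lit 3, nat_lit 5232, nat_lit 14208, nat_lit 6480, nat_lit 15264, nat_lit 8880, R11_135, R0_318, R11_185⟩]⟩]⟩]], [[⟨nat_lit 0, [⟨nat_lit 5, [⟨nat_lit 7, nat_lit 4080, nat_lit 9360, nat_lit 15408, nat_lit 11280, nat_lit 8064, R5_321, R2_235, R3_168⟩]⟩]⟩,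
 ⟨nat_lit 1, [⟨nat_lit 5, [⟨nat_lit 7, nat_lit 4800, nat_lit 9456, nat_lit 4368, nat_lit 11856, nat_lit 8160, R0_91, R1_247, R3_170⟩]⟩]⟩,
 ⟨nat_lit 3, [⟨nat_lit 5, [⟨nat_lit 7, nat_lit 5280, nat_lit 9408, nat_lit 6192, nat_lit 9120, nat_lit 8112, R11_129, R12_190, R3_169⟩]⟩]⟩], [], [⟨nat_lit 0, [⟨nat_lit 5, [⟨nat_lit 7, nat_lit 4128, nat_lit 10176, nat_lit 15792, nat_lit 11376, nat_lit 6000, R5_329, R2_237, R0_125⟩]⟩]⟩,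
 ⟨nat_lit 1, [⟨nat_lit 5, [⟨nat_lit 7, nat_lit 4944, nat_lit 10272, nat_lit 4704, nat_lit 11952, nat_lit 6384, R0_98, R1_249, R0_133⟩]⟩]⟩,
 ⟨nat_lit 3, [⟨nat_lit 5, [⟨nat_lit 7, nat_lit 5328, nat_lit 10224, nat_lit 6432, nat_lit 9168, nat_lit 6144, R11_134, R12_191, R0_128⟩]⟩]⟩], [⟨nat_lit 0, [⟨nat_lit 5, [⟨nat_lit 3, nat_lit 4272, nat_lit 9024, nat_lit 16176, nat_lit 17280, nat_lit 6528, R5_337, R3_360, R1_136⟩, ⟨nat_lit 7, nat_lit 4320, nat_lit 8880, nat_lit 15696, nat_lit 11328, nat_lit 7488, R5_327, R2_236, R10_156⟩]⟩]⟩,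
 ⟨nat_lit 1, [⟨nat_lit 5, [⟨nat_lit 3, nat_lit 5136, nat_lit 9072, nat_lit 4512, nat_lit 12864, nat_lit 7440, R0_94, R10_268, R1_155⟩, ⟨nat_lit 7, nat_lit 5184, nat_lit 8928, nat_lit 4416, nat_lit 11904, nat_lit 8304, R0_92, R1_248, R10_173⟩]⟩]⟩,
 ⟨nat_lit 3, [⟨nat_lit 5, [⟨nat_lit 7, nat_lit 5520, nat_lit 8976, nat_lit 6288, nat_lit 9216, nat_lit 8064, R11_131, R12_192, R10_168⟩]⟩]⟩]]], [[], [], [], [], [[⟨nat_lit 3, [⟨nat_lit 7, [⟨nat_lit 3, nat_lit 9312, nat_lit 13296, nat_lit 14544, nat_lit 11328, nat_lit 7584, R2_303, R3_236, R2_158⟩, ⟨nat_lit 7, nat_lit 9456, nat_lit 12528, nat_lit 14496, nat_lit 7632, nat_lit 11280, R2_302, R2_159, R3_235⟩]⟩]⟩], [⟨nat_lit 3, [⟨nat_lit 7, [⟨nat_lit 3, nat_lit 9552, nat_lit 14928, nat_lit 15120, nat_lit 16320, nat_lit 8112, R2_315, R3_340, R1_169⟩, ⟨nat_lit 7, nat_lit 9696,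 nat_lit 14976, nat_lit 15072, nat_lit 8112, nat_lit 9168, R2_314, R2_169, R10_191⟩]⟩]⟩], [⟨nat_lit 3, [⟨nat_lit 7, [⟨nat_lit 7, nat_lit 9792, nat_lit 12864, nat_lit 15600, nat_lit 7968, nat_lit 12480, R2_325, R2_166, R0_260⟩]⟩]⟩]], [[⟨nat_lit 3, [⟨nat_lit 7, [⟨nat_lit 3, nat_lit 9360, nat_lit 14784, nat_lit 14688, nat_lit 9216, nat_lit 8064, R2_306, R10_192, R2_168⟩, ⟨nat_lit 7, nat_lit 9504, nat_lit 14736, nat_lit 14640, nat_lit 8160, nat_lit 16272, R2_305, R1_170, R3_339⟩]⟩]⟩,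
 ⟨nat_lit 4, [⟨nat_lit 4, [⟨nat_lit 4, nat_lit 0, nat_lit 12624, nat_lit 8400, nat_lit 1968, nat_lit 14784, R6_175, R4_41, R6_308⟩]⟩, ⟨nat_lit 5, [⟨nat_lit 4, nat_lit 5568, nat_lit 13536, nat_lit 9024, nat_lit 10896, nat_lit 14352, R4_188, R4_227, R4_299⟩]⟩, ⟨nat_lit 6, [⟨nat_lit 4, nat_lit 7200, nat_lit 16800, nat_lit 5328, nat_lit 7488, nat_lit 17952, R8_111, R4_156, R8_374⟩, ⟨nat_lit 6, nat_lit 7248, nat_lit 16944, nat_lit 5856, nat_lit 2544, nat_lit 9792, R8_122, R3_53, R5_204⟩]⟩]⟩,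
 ⟨nat_lit 7, [⟨nat_lit 4, [⟨nat_lit 4, nat_lit 144, nat_lit 12768, nat_lit 20064, nat_lit 1104, nat_lit 15072, R13_418, R5_23, R6_314⟩, ⟨nat_lit 7, nat_lit 192, nat_lit 12912, nat_lit 20112, nat_lit 14304, nat_lit 10944, R13_419, R11_298, R13_228⟩]⟩, ⟨nat_lit 5, [⟨nat_lit 4, nat_lit 5664, nat_lit 13824, nat_lit 16464, nat_lit 13152, nat_lit 14496, R3_343, R5_274, R4_302⟩, ⟨nat_lit 7, nat_lit 5712, nat_lit 13968, nat_lit 16512, nat_lit 14448, nat_lit 8784, R3_344, R11_301, R3_183⟩]⟩, ⟨nat_lit 6, [⟨nat_lit 4, nat_lit 7632, nat_lit 17088, nat_lit 16416, nat_lit 9456, nat_lit 18768, R9_342, R5_197, R8_391⟩, ⟨nat_lit 6, nat_lit 7680, nat_lit 17376, nat_lit 16512, nat_lit 9024, nat_lit 9840, R9_344, R0_188, R5_205⟩, ⟨nat_lit 7, nat_lit 7728, nat_lit 17232, nat_lit 16464, nat_lit 14352, nat_lit 8640, R9_343, R11_299,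 R9_180⟩]⟩, ⟨nat_lit 7, [⟨nat_lit 7, nat_lit 9888, nat_lit 14640, nat_lit 8736, nat_lit 14400, nat_lit 16608, R3_182, R11_300, R3_346⟩]⟩]⟩], [⟨nat_lit 3, [⟨nat_lit 7, [⟨nat_lit 3, nat_lit 9600, nat_lit 15888, nat_lit 15264, nat_lit 9840, nat_lit 8592, R2_318, R10_205, R1_179⟩, ⟨nat_lit 7, nat_lit 9744, nat_lit 15936, nat_lit 15216, nat_lit 8640, nat_lit 9792, R2_317, R1_180, R10_204⟩]⟩]⟩,
 ⟨nat_lit 4, [⟨nat_lit 4, [⟨nat_lit 4, nat_lit 48, nat_lit 2160, nat_lit 9408, nat_lit 2160, nat_lit 288, R6_196, R4_45, R4_6⟩]⟩, ⟨nat_lit 6, [⟨nat_lit 4, nat_lit 7296, nat_lit 2592, nat_lit 5376, nat_lit 7680, nat_lit 3888, R8_112, R4_160, R5_81⟩, ⟨nat_lit 6, nat_lit 7344, nat_lit 2640, nat_lit 5904, nat_lit 2640, nat_lit 12240, R8_123, R3_55, R11_255⟩]⟩]⟩,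
 ⟨nat_lit 6, [⟨nat_lit 6, [⟨nat_lit 6, nat_lit 7536, nat_lit 11568, nat_lit 17376, nat_lit 11904, nat_lit 12336, R5_362, R10_248, R11_257⟩]⟩]⟩,
 ⟨nat_lit 7, [⟨nat_lit 4, [⟨nat_lit 4, nat_lit 240, nat_lit 8880, nat_lit 20880, nat_lit 3504, nat_lit 5520, R13_435, R5_73, R4_115⟩, ⟨nat_lit 7, nat_lit 288, nat_lit 8928, nat_lit 20928, nat_lit 14640, nat_lit 4128, R13_436, R11_305, R3_86⟩]⟩, ⟨nat_lit 6, [⟨nat_lit 4, nat_lit 7776, nat_lit 9648, nat_lit 17280, nat_lit 11712, nat_lit 12240, R9_360, R5_244, R5_255⟩, ⟨nat_lit 6, nat_lit 7824, nat_lit 9744, nat_lit 17376, nat_lit 9120, nat_lit 12288, R9_362, R0_190, R11_256⟩, ⟨nat_lit 7, nat_lit 7872, nat_lit 9696, nat_lit 17328, nat_lit 14688, nat_lit 7872, R9_361, R11_306, R0_164⟩]⟩, ⟨nat_lit 7, [⟨nat_lit 7, nat_lit 9936, nat_lit 9216, nat_lit 9360, nat_lit 14736, nat_lit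 9744, R3_195, R11_307, R10_203⟩]⟩]⟩], [⟨nat_lit 3, [⟨nat_lit 7, [⟨nat_lit 7, nat_lit 9840, nat_lit 16800, nat_lit 15696, nat_lit 8496, nat_lit 12576, R2_327, R1_177, R0_262⟩]⟩]⟩,
 ⟨nat_lit 4, [⟨nat_lit 4, [⟨nat_lit 4, nat_lit 96, nat_lit 1824, nat_lit 9648, nat_lit 2016, nat_lit 4320, R6_201, R4_42, R8_90⟩]⟩, ⟨nat_lit 5, [⟨nat_lit 4, nat_lit 5616, nat_lit 2016, nat_lit 10608, nat_lit 10944, nat_lit 17568, R4_221, R4_228, R5_366⟩]⟩, ⟨nat_lit 6, [⟨nat_lit 4, nat_lit 7392, nat_lit 2304, nat_lit 5424, nat_lit 7536, nat_lit 17760, R8_113, R4_157, R9_370⟩, ⟨nat_lit 6, nat_lit 7440, nat_lit 2352, nat_lit 5952, nat_lit 2592, nat_lit 2016, R8_124, R3_54, R0_42⟩]⟩]⟩,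
 ⟨nat_lit 7, [⟨nat_lit 4, [⟨nat_lit 4, nat_lit 336, nat_lit 10272, nat_lit 21648, nat_lit 2256, nat_lit 9168, R13_451, R5_47, R8_191⟩, ⟨nat_lit 7, nat_lit 384, nat_lit 10320, nat_lit 21696, nat_lit 14496, nat_lit 4560, R13_452, R11_302, R9_95⟩]⟩, ⟨nat_lit 5, [⟨nat_lit 4, nat_lit 5760, nat_lit 10752, nat_lit 17760, nat_lit 13488, nat_lit 17664, R3_370, R5_281, R5_368⟩, ⟨nat_lit 7, nat_lit 5808, nat_lit 10800, nat_lit 17808, nat_lit 14592, nat_lit 3024, R3_371, R11_304, R0_63⟩]⟩, ⟨nat_lit 6, [⟨nat_lit 4, nat_lit 7920, nat_lit 11136, nat_lit 18048, nat_lit 11088, nat_lit 18000, R9_376, R5_231, R9_375⟩, ⟨nat_lit 6, nat_lit 7968, nat_lit 11184, nat_lit 18096, nat_lit 9072, nat_lit 9168, R9_377, R0_189, R0_191⟩]⟩, ⟨nat_lit 7, [⟨nat_lit 7, nat_lit 9984, nat_lit 10560, nat_lit 9552, nat_lit 14544, nat_lit 2784, R3_199,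 R11_303, R0_58⟩]⟩]⟩]], [[⟨nat_lit 3, [⟨nat_lit 7, [⟨nat_lit 3, nat_lit 9408, nat_lit 12816, nat_lit 14784, nat_lit 12624, nat_lit 7920, R2_308, R0_263, R2_165⟩]⟩]⟩], [⟨nat_lit 3, [⟨nat_lit 7, [⟨nat_lit 3, nat_lit 9648, nat_lit 16704, nat_lit 15408, nat_lit 12672, nat_lit 8448, R2_321, R0_264, R1_176⟩]⟩]⟩]]], [[], [[], [], [⟨nat_lit 4, [⟨nat_lit 4, [⟨nat_lit 4, nat_lit 720, nat_lit 9600, nat_lit 1440, nat_lit 2448, nat_lit 3936, R8_30, R7_51, R8_82⟩, ⟨nat_lit 7, nat_lit 768, nat_lit 10032, nat_lit 7392, nat_lit 2640, nat_lit 6288, R8_154, R2_55, R9_131⟩]⟩, ⟨nat_lit 5, [⟨nat_lit 4, nat_lit 5952, nat_lit 9696, nat_lit 15216, nat_lit 11760, nat_lit 13680, R5_317, R7_245, R5_285⟩, ⟨nat_lit 7, nat_lit 6000, nat_lit 10176, nat_lit 15792, nat_lit 11376, nat_lit 4128, R5_329, R2_237, R0_86⟩]⟩, ⟨nat_lit 6, [⟨nat_lit 4,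 nat_lit 8544, nat_lit 9792, nat_lit 14304, nat_lit 7872, nat_lit 12000, R9_298, R7_164, R9_250⟩, ⟨nat_lit 6, nat_lit 8640, nat_lit 10368, nat_lit 15024, nat_lit 6720, nat_lit 1584, R9_313, R2_140, R0_33⟩]⟩]⟩,
 ⟨nat_lit 5, [⟨nat_lit 4, [⟨nat_lit 4, nat_lit 816, nat_lit 9648, nat_lit 6384, nat_lit 20064, nat_lit 11904, R5_133, R14_418, R8_248⟩, ⟨nat_lit 5, nat_lit 864, nat_lit 9888, nat_lit 7248, nat_lit 15840, nat_lit 7632, R5_151, R12_330, R5_159⟩, ⟨nat_lit 7, nat_lit 912, nat_lit 10080, nat_lit 6816, nat_lit 7344, nat_lit 7488, R5_142, R12_153, R9_156⟩]⟩, ⟨nat_lit 5, [⟨nat_lit 4, nat_lit 6048, nat_lit 9744, nat_lit 6000, nat_lit 21360, nat_lit 13968, R11_125, R14_445, R5_291⟩, ⟨nat_lit 5, nat_lit 6096, nat_lit 9936, nat_lit 6864, nat_lit 17136, nat_lit 7248, R11_143, R12_357, R11_151⟩, ⟨nat_lit 7, nat_lit 6144,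 nat_lit 10224, nat_lit 6432, nat_lit 9168, nat_lit 5328, R11_134, R12_191, R0_111⟩]⟩, ⟨nat_lit 6, [⟨nat_lit 4, nat_lit 8880, nat_lit 9840, nat_lit 13008, nat_lit 20736, nat_lit 12672, R0_271, R14_432, R9_264⟩, ⟨nat_lit 5, nat_lit 8976, nat_lit 9984, nat_lit 13872, nat_lit 16512, nat_lit 10848, R0_289, R12_344, R0_226⟩, ⟨nat_lit 6, nat_lit 8928, nat_lit 10416, nat_lit 13728, nat_lit 16752, nat_lit 11040, R0_286, R12_349, R0_230⟩]⟩]⟩,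
 ⟨nat_lit 6, [⟨nat_lit 6, [⟨nat_lit 6, nat_lit 8832, nat_lit 10464, nat_lit 3888, nat_lit 5424, nat_lit 6624, R0_81, R1_113, R0_138⟩]⟩]⟩,
 ⟨nat_lit 7, [⟨nat_lit 4, [⟨nat_lit 7, nat_lit 1248, nat_lit 10128, nat_lit 6864, nat_lit 2112, nat_lit 7104, R9_143, R1_44, R9_148⟩]⟩, ⟨nat_lit 5, [⟨nat_lit 7, nat_lit 6384, nat_lit 10272, nat_lit 4704, nat_lit 11952, nat_lit 4944, R0_98, R1_249, R0_103⟩]⟩, ⟨nat_lit 7, [⟨nat_lit 7, nat_lit 10464, nat_lit 10320, nat_lit 4560, nat_lit 7488, nat_lit 5088, R0_95, R1_156, R0_106⟩]⟩]⟩]], [], [], [], [[⟨nat_lit 4, [⟨nat_lit 4, [⟨nat_lit 4, nat_lit 576, nat_lit 8592, nat_lit 816, nat_lit 2448, nat_lit 16656, R8_17, R4_51, R6_347⟩]⟩, ⟨nat_lit 5, [⟨nat_lit 4, nat_lit 5856, nat_lit 9072, nat_lit 5328, nat_lit 11280, nat_lit 15264, R5_111, R4_235, R4_318⟩]⟩, ⟨nat_lit 6, [⟨nat_lit 4,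 nat_lit 8304, nat_lit 10032, nat_lit 4704, nat_lit 7776, nat_lit 18048, R9_98, R4_162, R8_376⟩, ⟨nat_lit 6, nat_lit 8352, nat_lit 12336, nat_lit 5088, nat_lit 7296, nat_lit 12096, R9_106, R3_152, R5_252⟩]⟩]⟩,
 ⟨nat_lit 6, [⟨nat_lit 6, [⟨nat_lit 6, nat_lit 8688, nat_lit 12384, nat_lit 3264, nat_lit 11952, nat_lit 12144, R0_68, R10_249, R5_253⟩]⟩]⟩,
 ⟨nat_lit 7, [⟨nat_lit 4, [⟨nat_lit 4, nat_lit 960, nat_lit 8640, nat_lit 3840, nat_lit 1728, nat_lit 16992, R9_80, R5_36, R6_354⟩, ⟨nat_lit 7, nat_lit 1008, nat_lit 10416, nat_lit 4272, nat_lit 14784, nat_lit 12864, R9_89, R11_308, R13_268⟩]⟩, ⟨nat_lit 5, [⟨nat_lit 4, nat_lit 6192, nat_lit 9120, nat_lit 2304, nat_lit 13440, nat_lit 15408, R0_48, R5_280, R4_321⟩, ⟨nat_lit 7, nat_lit 6240, nat_lit 10608, nat_lit 2736, nat_lit 14880, nat_lit 9600, R0_57, R11_310, R3_200⟩]⟩,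 ⟨nat_lit 7, [⟨nat_lit 7, nat_lit 10320, nat_lit 10896, nat_lit 2976, nat_lit 14832, nat_lit 17904, R0_62, R11_309, R3_373⟩]⟩]⟩], [⟨nat_lit 4, [⟨nat_lit 4, [⟨nat_lit 4, nat_lit 624, nat_lit 624, nat_lit 912, nat_lit 2592, nat_lit 2592, R8_19, R4_54, R4_54⟩]⟩, ⟨nat_lit 6, [⟨nat_lit 4, nat_lit 8400, nat_lit 1056, nat_lit 4752, nat_lit 7920, nat_lit 4176, R9_99, R4_165, R5_87⟩, ⟨nat_lit 6, nat_lit 8448, nat_lit 1104, nat_lit 5136, nat_lit 7392, nat_lit 15072, R9_107, R3_154, R11_314⟩]⟩]⟩,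
 ⟨nat_lit 6, [⟨nat_lit 6, [⟨nat_lit 6, nat_lit 8736, nat_lit 10368, nat_lit 3360, nat_lit 12048, nat_lit 15120, R0_70, R10_251, R11_315⟩]⟩]⟩,
 ⟨nat_lit 7, [⟨nat_lit 4, [⟨nat_lit 4, nat_lit 1056, nat_lit 8400, nat_lit 4752, nat_lit 4176, nat_lit 7920, R9_99, R5_87, R4_165⟩, ⟨nat_lit 7, nat_lit 1104, nat_lit 8448, nat_lit 5136, nat_lit 15072, nat_lit 7392, R9_107, R11_314, R3_154⟩]⟩, ⟨nat_lit 7, [⟨nat_lit 7, nat_lit 10368, nat_lit 8736, nat_lit 3360, nat_lit 15120, nat_lit 12048, R0_70, R11_315, R10_251⟩]⟩]⟩], [⟨nat_lit 4, [⟨nat_lit 4, [⟨nat_lit 4, nat_lit 672, nat_lit 1824, nat_lit 960, nat_lit 2496, nat_lit 4368, R8_20, R4_52, R8_91⟩]⟩, ⟨nat_lit 5, [⟨nat_lit 4, nat_lit 5904, nat_lit 2016, nat_lit 5376, nat_lit 11328, nat_lit 17616, R5_112, R4_236, R5_367⟩]⟩, ⟨nat_lit 6, [⟨nat_lit 4, nat_lit 8496, nat_lit 2304,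 nat_lit 4800, nat_lit 7824, nat_lit 17856, R9_100, R4_163, R9_372⟩, ⟨nat_lit 6, nat_lit 8592, nat_lit 2352, nat_lit 5184, nat_lit 7344, nat_lit 2064, R9_108, R3_153, R0_43⟩]⟩]⟩,
 ⟨nat_lit 6, [⟨nat_lit 6, [⟨nat_lit 6, nat_lit 8784, nat_lit 16752, nat_lit 3408, nat_lit 12000, nat_lit 7104, R0_71, R10_250, R0_148⟩]⟩]⟩,
 ⟨nat_lit 7, [⟨nat_lit 4, [⟨nat_lit 4, nat_lit 1152, nat_lit 13536, nat_lit 6144, nat_lit 2496, nat_lit 9264, R9_128, R5_52, R8_193⟩, ⟨nat_lit 7, nat_lit 1200, nat_lit 13584, nat_lit 6816, nat_lit 14928, nat_lit 7152, R9_142, R11_311, R9_149⟩]⟩, ⟨nat_lit 5, [⟨nat_lit 4, nat_lit 6288, nat_lit 14016, nat_lit 3984, nat_lit 13584, nat_lit 17760, R0_83, R5_283, R5_370⟩, ⟨nat_lit 7, nat_lit 6336, nat_lit 14064, nat_lit 4656, nat_lit 15024, nat_lit 4992, R0_97, R11_313, R0_104⟩]⟩, ⟨nat_lit 7, [⟨nat_lit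 7, nat_lit 10416, nat_lit 13824, nat_lit 4896, nat_lit 14976, nat_lit 4752, R0_102, R11_312, R0_99⟩]⟩]⟩]]], [[], [], [], [], [[], [⟨nat_lit 0, [⟨nat_lit 0, [⟨nat_lit 0, nat_lit 11616, nat_lit 8688, nat_lit 1056, nat_lit 16704, nat_lit 720, R4_22, R6_348, R4_15⟩]⟩, ⟨nat_lit 3, [⟨nat_lit 0, nat_lit 14448, nat_lit 8736, nat_lit 48, nat_lit 17040, nat_lit 1632, R5_1, R6_355, R5_34⟩, ⟨nat_lit 3, nat_lit 14592, nat_lit 10464, nat_lit 5088, nat_lit 12912, nat_lit 13056, R5_106, R13_269, R11_272⟩]⟩]⟩,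
 ⟨nat_lit 2, [⟨nat_lit 0, [⟨nat_lit 0, nat_lit 11856, nat_lit 10080, nat_lit 4560, nat_lit 18096, nat_lit 7104, R3_95, R8_377, R4_148⟩, ⟨nat_lit 2, nat_lit 12000, nat_lit 12432, nat_lit 5232, nat_lit 12576, nat_lit 5664, R3_109, R5_262, R3_118⟩]⟩, ⟨nat_lit 2, [⟨nat_lit 2, nat_lit 14112, nat_lit 12528, nat_lit 19824, nat_lit 12672, nat_lit 10224, R10_413, R5_264, R10_213⟩]⟩, ⟨nat_lit 3, [⟨nat_lit 0, nat_lit 14736, nat_lit 10128, nat_lit 14736, nat_lit 18960, nat_lit 10128, R0_307, R8_395, R5_211⟩, ⟨nat_lit 2, nat_lit 14880, nat_lit 12480, nat_lit 14784, nat_lit 12624, nat_lit 8160, R0_308, R5_263, R0_170⟩, ⟨nat_lit 3, nat_lit 15024, nat_lit 11280, nat_lit 14832, nat_lit 10128, nat_lit 13104, R0_309, R9_211, R11_273⟩]⟩]⟩,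
 ⟨nat_lit 3, [⟨nat_lit 3, [⟨nat_lit 3, nat_lit 15168, nat_lit 10944, nat_lit 22032, nat_lit 17952, nat_lit 13152, R11_459, R3_374, R11_274⟩]⟩, ⟨nat_lit 7, [⟨nat_lit 3, nat_lit 10032, nat_lit 10992, nat_lit 16128, nat_lit 17616, nat_lit 8736, R1_336, R3_367, R1_182⟩, ⟨nat_lit 7, nat_lit 10176, nat_lit 7872, nat_lit 16080, nat_lit 10272, nat_lit 10080, R1_335, R2_214, R10_210⟩]⟩]⟩]], [[], [⟨nat_lit 0, [⟨nat_lit 0, [⟨nat_lit 0, nat_lit 11664, nat_lit 432, nat_lit 1200, nat_lit 2880, nat_lit 864, R4_25, R4_60, R4_18⟩]⟩, ⟨nat_lit 3, [⟨nat_lit 0, nat_lit 14496, nat_lit 8016, nat_lit 192, nat_lit 8064, nat_lit 4032, R5_4, R4_168, R5_84⟩, ⟨nat_lit 3, nat_lit 14640, nat_lit 8064, nat_lit 5856, nat_lit 10176, nat_lit 13296, R5_122, R3_212, R11_277⟩]⟩]⟩,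
 ⟨nat_lit 2, [⟨nat_lit 0, [⟨nat_lit 0, nat_lit 11904, nat_lit 480, nat_lit 4608, nat_lit 4272, nat_lit 7248, R3_96, R5_89, R4_151⟩, ⟨nat_lit 2, nat_lit 12048, nat_lit 528, nat_lit 5280, nat_lit 15552, nat_lit 5856, R3_110, R11_324, R3_122⟩]⟩, ⟨nat_lit 2, [⟨nat_lit 2, nat_lit 14160, nat_lit 10272, nat_lit 19872, nat_lit 15648, nat_lit 10320, R10_414, R11_326, R10_215⟩]⟩, ⟨nat_lit 3, [⟨nat_lit 0, nat_lit 14784, nat_lit 8160, nat_lit 14880, nat_lit 12624, nat_lit 12480, R0_310, R5_263, R5_260⟩, ⟨nat_lit 2, nat_lit 14928, nat_lit 8256, nat_lit 14928, nat_lit 15600, nat_lit 8256, R0_311, R11_325, R0_172⟩, ⟨nat_lit 3, nat_lit 15072, nat_lit 8208, nat_lit 14976, nat_lit 9264, nat_lit 13344, R0_312, R0_193, R11_278⟩]⟩]⟩,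
 ⟨nat_lit 3, [⟨nat_lit 3, [⟨nat_lit 3, nat_lit 15216, nat_lit 8112, nat_lit 22080, nat_lit 12096, nat_lit 13392, R11_460, R10_252, R11_279⟩]⟩, ⟨nat_lit 7, [⟨nat_lit 3, nat_lit 10080, nat_lit 14304, nat_lit 16272, nat_lit 12144, nat_lit 8928, R1_339, R10_253, R1_186⟩, ⟨nat_lit 7, nat_lit 10224, nat_lit 14256, nat_lit 16224, nat_lit 10848, nat_lit 10368, R1_338, R1_226, R10_216⟩]⟩]⟩,
 ⟨nat_lit 4, [⟨nat_lit 4, [⟨nat_lit 4, nat_lit 432, nat_lit 11664, nat_lit 1200, nat_lit 2880, nat_lit 864, R4_25, R4_60, R4_18⟩]⟩, ⟨nat_lit 6, [⟨nat_lit 4, nat_lit 8016, nat_lit 14496, nat_lit 192, nat_lit 8064, nat_lit 4032, R5_4, R4_168, R5_84⟩, ⟨nat_lit 6, nat_lit 8064, nat_lit 14640, nat_lit 5856, nat_lit 10176, nat_lit 13296, R5_122, R3_212, R11_277⟩]⟩]⟩,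
 ⟨nat_lit 6, [⟨nat_lit 2, [⟨nat_lit 2, nat_lit 14256, nat_lit 10224, nat_lit 16224, nat_lit 10848, nat_lit 10368, R1_338, R1_226, R10_216⟩, ⟨nat_lit 6, nat_lit 14304, nat_lit 10080, nat_lit 16272, nat_lit 12144, nat_lit 8928, R1_339, R10_253, R1_186⟩]⟩, ⟨nat_lit 6, [⟨nat_lit 6, nat_lit 8112, nat_lit 15216, nat_lit 22080, nat_lit 12096, nat_lit 13392, R11_460, R10_252, R11_279⟩]⟩]⟩,
 ⟨nat_lit 7, [⟨nat_lit 4, [⟨nat_lit 4, nat_lit 480, nat_lit 11904, nat_lit 4608, nat_lit 4272, nat_lit 7248, R3_96, R5_89, R4_151⟩, ⟨nat_lit 7, nat_lit 528, nat_lit 12048, nat_lit 5280, nat_lit 15552, nat_lit 5856, R3_110, R11_324, R3_122⟩]⟩, ⟨nat_lit 6, [⟨nat_lit 4, nat_lit 8160, nat_lit 14784, nat_lit 14880, nat_lit 12624, nat_lit 12480, R0_310, R5_263, R5_260⟩, ⟨nat_lit 6, nat_lit 8208, nat_lit 15072, nat_lit 14976, nat_lit 9264,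 nat_lit 13344, R0_312, R0_193, R11_278⟩, ⟨nat_lit 7, nat_lit 8256, nat_lit 14928, nat_lit 14928, nat_lit 15600, nat_lit 8256, R0_311, R11_325, R0_172⟩]⟩, ⟨nat_lit 7, [⟨nat_lit 7, nat_lit 10272, nat_lit 14160, nat_lit 19872, nat_lit 15648, nat_lit 10320, R10_414, R11_326, R10_215⟩]⟩]⟩]], [[], [⟨nat_lit 0, [⟨nat_lit 0, [⟨nat_lit 0, nat_lit 11712, nat_lit 11136, nat_lit 1248, nat_lit 4416, nat_lit 768, R4_26, R8_92, R4_16⟩]⟩, ⟨nat_lit 3, [⟨nat_lit 0, nat_lit 14544, nat_lit 11184, nat_lit 384, nat_lit 9312, nat_lit 2448, R5_8, R8_194, R5_51⟩, ⟨nat_lit 3, nat_lit 14688, nat_lit 13728, nat_lit 6864, nat_lit 10608, nat_lit 13200, R5_143, R9_221, R11_275⟩]⟩]⟩,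
 ⟨nat_lit 2, [⟨nat_lit 0, [⟨nat_lit 0, nat_lit 11952, nat_lit 12528, nat_lit 4704, nat_lit 17904, nat_lit 7152, R3_98, R9_373, R4_149⟩, ⟨nat_lit 2, nat_lit 12096, nat_lit 15408, nat_lit 5376, nat_lit 2112, nat_lit 5808, R3_112, R0_44, R3_121⟩]⟩, ⟨nat_lit 2, [⟨nat_lit 2, nat_lit 14208, nat_lit 15504, nat_lit 19920, nat_lit 7152, nat_lit 10272, R10_415, R0_149, R10_214⟩]⟩, ⟨nat_lit 3, [⟨nat_lit 0, nat_lit 14832, nat_lit 12576, nat_lit 15024, nat_lit 18192, nat_lit 11280, R0_313, R9_379, R5_235⟩, ⟨nat_lit 2, nat_lit 14976, nat_lit 15456, nat_lit 15072, nat_lit 9264, nat_lit 8208, R0_314, R0_193, R0_171⟩]⟩]⟩,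
 ⟨nat_lit 3, [⟨nat_lit 3, [⟨nat_lit 3, nat_lit 15264, nat_lit 14208, nat_lit 22128, nat_lit 5232, nat_lit 13248, R11_461, R0_109, R11_276⟩]⟩, ⟨nat_lit 7, [⟨nat_lit 3, nat_lit 10128, nat_lit 14256, nat_lit 16416, nat_lit 13968, nat_lit 8880, R1_342, R0_291, R1_185⟩]⟩]⟩], [], [], [], [⟨nat_lit 0, [⟨nat_lit 0, [⟨nat_lit 0, nat_lit 11520, nat_lit 10512, nat_lit 1776, nat_lit 4224, nat_lit 864, R4_37, R8_88, R7_18⟩, ⟨nat_lit 3, nat_lit 11568, nat_lit 10608, nat_lit 8496, nat_lit 10272, nat_lit 2208, R4_177, R9_214, R2_46⟩]⟩, ⟨nat_lit 3, [⟨nat_lit 3, nat_lit 14400, nat_lit 10656, nat_lit 6768, nat_lit 10560, nat_lit 1680, R5_141, R9_220, R1_35⟩]⟩]⟩,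
 ⟨nat_lit 2, [⟨nat_lit 0, [⟨nat_lit 0, nat_lit 11760, nat_lit 10560, nat_lit 12672, nat_lit 12048, nat_lit 6864, R3_264, R9_251, R7_143⟩, ⟨nat_lit 2, nat_lit 11808, nat_lit 10752, nat_lit 13488, nat_lit 1872, nat_lit 5040, R3_281, R0_39, R2_105⟩]⟩, ⟨nat_lit 2, [⟨nat_lit 2, nat_lit 14064, nat_lit 10800, nat_lit 19776, nat_lit 6912, nat_lit 3744, R10_412, R0_144, R1_78⟩]⟩]⟩,
 ⟨nat_lit 3, [⟨nat_lit 3, [⟨nat_lit 3, nat_lit 15120, nat_lit 10704, nat_lit 21984, nat_lit 5424, nat_lit 7104, R11_458, R0_113, R1_148⟩]⟩]⟩]]], [[], [], [], [], [[⟨nat_lit 3, [⟨nat_lit 4, [⟨nat_lit 7, nat_lit 1296, nat_lit 10224, nat_lit 3648, nat_lit 8640, nat_lit 11424, R2_76, R2_180, R13_238⟩]⟩, ⟨nat_lit 5, [⟨nat_lit 7, nat_lit 6432, nat_lit 10320, nat_lit 3120, nat_lit 8736, nat_lit 9024, R1_65, R2_182, R3_188⟩]⟩, ⟨nat_lit 7, [⟨nat_lit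 3, nat_lit 10512, nat_lit 12192, nat_lit 16080, nat_lit 12288, nat_lit 8400, R12_335, R3_256, R2_175⟩, ⟨nat_lit 7, nat_lit 10656, nat_lit 10272, nat_lit 16128, nat_lit 8688, nat_lit 12240, R12_336, R2_181, R3_255⟩]⟩]⟩], [⟨nat_lit 3, [⟨nat_lit 4, [⟨nat_lit 7, nat_lit 1440, nat_lit 7872, nat_lit 4512, nat_lit 10176, nat_lit 6864, R2_94, R2_212, R3_143⟩]⟩, ⟨nat_lit 7, [⟨nat_lit 3, nat_lit 10800, nat_lit 9456, nat_lit 16368, nat_lit 17136, nat_lit 9216, R12_341, R3_357, R1_192⟩, ⟨nat_lit 7, nat_lit 10896, nat_lit 7920, nat_lit 16416, nat_lit 10224, nat_lit 10656, R12_342, R2_213, R10_222⟩]⟩]⟩], [⟨nat_lit 3, [⟨nat_lit 4, [⟨nat_lit 7, nat_lit 1536, nat_lit 8352, nat_lit 6624, nat_lit 9552, nat_lit 5952, R2_138, R2_199, R9_124⟩]⟩, ⟨nat_lit 5, [⟨nat_lit 7, nat_lit 6576, nat_lit 8448, nat_lit 5328, nat_lit 9648, nat_lit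 3792, R1_111, R2_201, R0_79⟩]⟩, ⟨nat_lit 7, [⟨nat_lit 7, nat_lit 10992, nat_lit 8400, nat_lit 16704, nat_lit 9600, nat_lit 13440, R12_348, R2_200, R0_280⟩]⟩]⟩], [⟨nat_lit 3, [⟨nat_lit 4, [⟨nat_lit 3, nat_lit 1680, nat_lit 14448, nat_lit 5616, nat_lit 14544, nat_lit 6096, R2_117, R3_303, R2_127⟩, ⟨nat_lit 7, nat_lit 1824, nat_lit 12864, nat_lit 4992, nat_lit 9936, nat_lit 13296, R2_104, R2_207, R3_277⟩]⟩, ⟨nat_lit 5, [⟨nat_lit 3, nat_lit 6720, nat_lit 15072, nat_lit 4320, nat_lit 15120, nat_lit 4800, R1_90, R3_315, R1_100⟩, ⟨nat_lit 7, nat_lit 6864, nat_lit 12960, nat_lit 3696, nat_lit 9984, nat_lit 5520, R1_77, R2_208, R10_115⟩]⟩, ⟨nat_lit 7, [⟨nat_lit 3, nat_lit 11136, nat_lit 14880, nat_lit 16560, nat_lit 15024, nat_lit 7920, R12_345, R3_313, R12_165⟩]⟩]⟩]], [[⟨nat_lit 3, [⟨nat_lit 4, [⟨nat_lit 7, nat_lit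 1344, nat_lit 9120, nat_lit 3744, nat_lit 9456, nat_lit 12576, R2_78, R1_197, R13_262⟩]⟩, ⟨nat_lit 5, [⟨nat_lit 7, nat_lit 6480, nat_lit 9312, nat_lit 3216, nat_lit 9552, nat_lit 9456, R1_67, R1_199, R3_197⟩]⟩, ⟨nat_lit 7, [⟨nat_lit 3, nat_lit 10560, nat_lit 7824, nat_lit 16176, nat_lit 10800, nat_lit 10128, R12_337, R10_225, R2_211⟩, ⟨nat_lit 7, nat_lit 10704, nat_lit 9408, nat_lit 16224, nat_lit 9504, nat_lit 17088, R12_338, R1_198, R3_356⟩]⟩]⟩,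
 ⟨nat_lit 7, [⟨nat_lit 4, [⟨nat_lit 4, nat_lit 1920, nat_lit 8208, nat_lit 480, nat_lit 1392, nat_lit 15696, R3_10, R5_29, R6_327⟩, ⟨nat_lit 7, nat_lit 1968, nat_lit 9072, nat_lit 4080, nat_lit 15168, nat_lit 12528, R3_85, R11_316, R13_261⟩]⟩, ⟨nat_lit 5, [⟨nat_lit 4, nat_lit 6960, nat_lit 8352, nat_lit 3120, nat_lit 13296, nat_lit 14832, R10_65, R5_277, R4_309⟩, ⟨nat_lit 7, nat_lit 7008, nat_lit 9264, nat_lit 3744, nat_lit 15264, nat_lit 9408, R10_78, R11_318, R3_196⟩]⟩, ⟨nat_lit 6, [⟨nat_lit 4, nat_lit 9024, nat_lit 8736, nat_lit 7680, nat_lit 9840, nat_lit 18864, R0_160, R5_205, R8_393⟩, ⟨nat_lit 6, nat_lit 9072, nat_lit 10080, nat_lit 7968, nat_lit 9168, nat_lit 11184, R0_166, R0_191, R5_233⟩, ⟨nat_lit 7, nat_lit 9120, nat_lit 9840, nat_lit 7824, nat_lit 15216, nat_lit 9744, R0_163, R11_317, R9_203⟩]⟩]⟩],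 [], [⟨nat_lit 3, [⟨nat_lit 4, [⟨nat_lit 7, nat_lit 1584, nat_lit 8640, nat_lit 6720, nat_lit 10368, nat_lit 6048, R2_140, R1_216, R9_126⟩]⟩, ⟨nat_lit 5, [⟨nat_lit 7, nat_lit 6624, nat_lit 8832, nat_lit 5424, nat_lit 10464, nat_lit 3888, R1_113, R1_218, R0_81⟩]⟩, ⟨nat_lit 7, [⟨nat_lit 7, nat_lit 11040, nat_lit 8928, nat_lit 16752, nat_lit 10416, nat_lit 13728, R12_349, R1_217, R0_286⟩]⟩]⟩,
 ⟨nat_lit 7, [⟨nat_lit 4, [⟨nat_lit 4, nat_lit 2016, nat_lit 7440, nat_lit 2592, nat_lit 2352, nat_lit 9216, R3_54, R5_49, R8_192⟩, ⟨nat_lit 7, nat_lit 2064, nat_lit 8592, nat_lit 7344, nat_lit 15312, nat_lit 5568, R3_153, R11_319, R9_116⟩]⟩, ⟨nat_lit 5, [⟨nat_lit 4, nat_lit 7056, nat_lit 7584, nat_lit 5808, nat_lit 13536, nat_lit 17712, R10_121, R5_282, R5_369⟩, ⟨nat_lit 7, nat_lit 7104, nat_lit 8784, nat_lit 6288, nat_lit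 15360, nat_lit 3408, R10_131, R11_320, R0_71⟩]⟩, ⟨nat_lit 6, [⟨nat_lit 4, nat_lit 9168, nat_lit 7968, nat_lit 9072, nat_lit 11184, nat_lit 18096, R0_189, R5_233, R9_377⟩, ⟨nat_lit 6, nat_lit 9216, nat_lit 9216, nat_lit 9216, nat_lit 9216, nat_lit 9216, R0_192, R0_192, R0_192⟩]⟩]⟩], [⟨nat_lit 3, [⟨nat_lit 4, [⟨nat_lit 3, nat_lit 1728, nat_lit 11424, nat_lit 5664, nat_lit 11664, nat_lit 6192, R2_118, R10_243, R2_129⟩, ⟨nat_lit 7, nat_lit 1872, nat_lit 11808, nat_lit 5040, nat_lit 10752, nat_lit 13488, R2_105, R1_224, R3_281⟩]⟩, ⟨nat_lit 5, [⟨nat_lit 3, nat_lit 6768, nat_lit 14016, nat_lit 4368, nat_lit 11760, nat_lit 4896, R1_91, R10_245, R1_102⟩, ⟨nat_lit 7, nat_lit 6912, nat_lit 14064, nat_lit 3744, nat_lit 10800, nat_lit 5568, R1_78, R1_225, R10_116⟩]⟩, ⟨nat_lit 7, [⟨nat_lit 3, nat_lit 11184, nat_lit 13200,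 nat_lit 16608, nat_lit 11712, nat_lit 8016, R12_346, R10_244, R12_167⟩]⟩]⟩,
 ⟨nat_lit 7, [⟨nat_lit 4, [⟨nat_lit 7, nat_lit 2112, nat_lit 12096, nat_lit 5808, nat_lit 15408, nat_lit 5376, R3_121, R11_321, R3_112⟩]⟩, ⟨nat_lit 5, [⟨nat_lit 7, nat_lit 7152, nat_lit 14208, nat_lit 4416, nat_lit 15504, nat_lit 4992, R10_92, R11_323, R10_104⟩]⟩, ⟨nat_lit 6, [⟨nat_lit 7, nat_lit 9264, nat_lit 14976, nat_lit 8208, nat_lit 15456, nat_lit 15072, R0_171, R11_322, R0_314⟩]⟩]⟩]], [[⟨nat_lit 3, [⟨nat_lit 7, [⟨nat_lit 3, nat_lit 10608, nat_lit 8304, nat_lit 16320, nat_lit 13776, nat_lit 9168, R12_340, R0_287, R2_191⟩]⟩]⟩], [⟨nat_lit 3, [⟨nat_lit 7, [⟨nat_lit 3, nat_lit 10848, nat_lit 8976, nat_lit 16512, nat_lit 13872, nat_lit 9984, R12_344, R0_289, R1_208⟩]⟩]⟩], [], [⟨nat_lit 3, [⟨nat_lit 4, [⟨nat_lit 3, nat_lit 1776, nat_lit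 11520, nat_lit 5712, nat_lit 11472, nat_lit 6144, R2_119, R0_239, R2_128⟩]⟩, ⟨nat_lit 5, [⟨nat_lit 3, nat_lit 6816, nat_lit 11616, nat_lit 4416, nat_lit 14352, nat_lit 4848, R1_92, R0_299, R1_101⟩]⟩, ⟨nat_lit 7, [⟨nat_lit 3, nat_lit 11232, nat_lit 11568, nat_lit 16656, nat_lit 13824, nat_lit 7968, R12_347, R0_288, R12_166⟩]⟩]⟩]], [[⟨nat_lit 3, [⟨nat_lit 4, [⟨nat_lit 7, nat_lit 1392, nat_lit 12144, nat_lit 3696, nat_lit 9264, nat_lit 12048, R2_77, R12_193, R13_251⟩]⟩, ⟨nat_lit 5, [⟨nat_lit 7, nat_lit 6528, nat_lit 15600, nat_lit 3168, nat_lit 9360, nat_lit 9264, R1_66, R12_195, R3_193⟩]⟩, ⟨nat_lit 7, [⟨nat_lit 7, nat_lit 10752, nat_lit 14832, nat_lit 16272, nat_lit 9312, nat_lit 14976, R12_339, R12_194, R3_312⟩]⟩]⟩], [⟨nat_lit 3, [⟨nat_lit 4, [⟨nat_lit 7, nat_lit 1488, nat_lit 13104, nat_lit 4560, nat_lit 9552,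 nat_lit 6912, R2_95, R12_199, R3_144⟩]⟩, ⟨nat_lit 7, [⟨nat_lit 7, nat_lit 10944, nat_lit 13248, nat_lit 16464, nat_lit 9600, nat_lit 11328, R12_343, R12_200, R10_236⟩]⟩]⟩], [⟨nat_lit 3, [⟨nat_lit 4, [⟨nat_lit 7, nat_lit 1632, nat_lit 10752, nat_lit 6672, nat_lit 9408, nat_lit 6000, R2_139, R12_196, R9_125⟩]⟩, ⟨nat_lit 5, [⟨nat_lit 7, nat_lit 6672, nat_lit 10944, nat_lit 5376, nat_lit 9504, nat_lit 3840, R1_112, R12_198, R0_80⟩]⟩, ⟨nat_lit 7, [⟨nat_lit 7, nat_lit 11088, nat_lit 11472, nat_lit 16800, nat_lit 9456, nat_lit 13632, R12_350, R12_197, R0_284⟩]⟩]⟩]]]]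
noncomputable def N3740 : T3 (List N0) := [[[[], [], [⟨nat_lit 0, [⟨nat_lit 4, [⟨nat_lit 5, nat_lit 15600, nat_lit 96, nat_lit 2208, nat_lit 8496, nat_lit 5136, R6_46, R6_177, R4_107⟩]⟩, ⟨nat_lit 6, [⟨nat_lit 5, nat_lit 15648, nat_lit 240, nat_lit 2064, nat_lit 8592, nat_lit 3744, R4_43, R6_179, R3_78⟩]⟩]⟩,
 ⟨nat_lit 1, [⟨nat_lit 4, [⟨nat_lit 4, nat_lit 15120, nat_lit 4752, nat_lit 17568, nat_lit 12000, nat_lit 5040, R8_366, R6_250, R6_105⟩, ⟨nat_lit 5, nat_lit 16080, nat_lit 5328, nat_lit 17712, nat_lit 10992, nat_lit 5328, R8_369, R13_229, R4_111⟩]⟩, ⟨nat_lit 6, [⟨nat_lit 4, nat_lit 15168, nat_lit 4944, nat_lit 3264, nat_lit 12096, nat_lit 5520, R5_68, R6_252, R13_115⟩, ⟨nat_lit 5, nat_lit 16128, nat_lit 5472, nat_lit 3456, nat_lit 11088, nat_lit 3792, R5_72, R13_231, R3_79⟩]⟩]⟩], [], [], [], [⟨nat_lit 0,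 [⟨nat_lit 4, [⟨nat_lit 5, nat_lit 15312, nat_lit 192, nat_lit 2352, nat_lit 8544, nat_lit 9072, R6_49, R6_178, R7_189⟩]⟩, ⟨nat_lit 5, [⟨nat_lit 5, nat_lit 15408, nat_lit 288, nat_lit 3744, nat_lit 8688, nat_lit 8160, R8_78, R6_181, R2_170⟩]⟩, ⟨nat_lit 6, [⟨nat_lit 5, nat_lit 15360, nat_lit 432, nat_lit 2208, nat_lit 8640, nat_lit 3264, R4_46, R6_180, R2_68⟩]⟩]⟩,
 ⟨nat_lit 1, [⟨nat_lit 4, [⟨nat_lit 5, nat_lit 15696, nat_lit 5136, nat_lit 10992, nat_lit 11040, nat_lit 9168, R8_229, R13_230, R7_191⟩]⟩, ⟨nat_lit 5, [⟨nat_lit 5, nat_lit 15792, nat_lit 5232, nat_lit 2832, nat_lit 11184, nat_lit 8256, R9_59, R13_233, R2_172⟩]⟩, ⟨nat_lit 6, [⟨nat_lit 5, nat_lit 15744, nat_lit 5376, nat_lit 2592, nat_lit 11136, nat_lit 3552, R5_54, R13_232, R2_74⟩]⟩]⟩]], [], [[], [], [], [], [⟨nat_lit 0, [⟨nat_lit 4, [⟨nat_lit 1, nat_lit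 16272, nat_lit 192, nat_lit 10944, nat_lit 9072, nat_lit 8544, R6_228, R7_189, R6_178⟩]⟩, ⟨nat_lit 5, [⟨nat_lit 1, nat_lit 16320, nat_lit 5136, nat_lit 10992, nat_lit 9168, nat_lit 11040, R8_229, R7_191, R13_230⟩]⟩]⟩,
 ⟨nat_lit 1, [⟨nat_lit 4, [⟨nat_lit 1, nat_lit 16944, nat_lit 288, nat_lit 3744, nat_lit 8160, nat_lit 8688, R8_78, R2_170, R6_181⟩]⟩, ⟨nat_lit 5, [⟨nat_lit 1, nat_lit 16992, nat_lit 5232, nat_lit 11712, nat_lit 8256, nat_lit 11184, R9_244, R2_172, R13_233⟩]⟩]⟩,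
 ⟨nat_lit 2, [⟨nat_lit 4, [⟨nat_lit 1, nat_lit 17568, nat_lit 432, nat_lit 2208, nat_lit 3264, nat_lit 8640, R4_46, R2_68, R6_180⟩]⟩, ⟨nat_lit 5, [⟨nat_lit 1, nat_lit 17616, nat_lit 5376, nat_lit 2592, nat_lit 3552, nat_lit 11136, R5_54, R2_74, R13_232⟩]⟩]⟩], [], [⟨nat_lit 0, [⟨nat_lit 4, [⟨nat_lit 1, nat_lit 16512, nat_lit 18432, nat_lit 11232, nat_lit 9120, nat_lit 9216, R6_234, R7_190, R4_192⟩, ⟨nat_lit 5, nat_lit 18288, nat_lit 18480, nat_lit 10080, nat_lit 9216, nat_lit 9120, R6_210, R4_192, R7_190⟩]⟩, ⟨nat_lit 5, [⟨nat_lit 1, nat_lit 16560, nat_lit 18816, nat_lit 11568, nat_lit 9216, nat_lit 11904, R8_241, R7_192, R3_248⟩, ⟨nat_lit 5, nat_lit 18384, nat_lit 18864, nat_lit 11712, nat_lit 9312, nat_lit 8208, R8_244, R4_194, R2_171⟩]⟩, ⟨nat_lit 6, [⟨nat_lit 5, nat_lit 18336, nat_lit 19392, nat_lit 11088,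 nat_lit 9264, nat_lit 3312, R4_231, R4_193, R2_69⟩]⟩]⟩,
 ⟨nat_lit 1, [⟨nat_lit 4, [⟨nat_lit 1, nat_lit 17136, nat_lit 19728, nat_lit 11712, nat_lit 8208, nat_lit 9312, R8_244, R2_171, R4_194⟩, ⟨nat_lit 5, nat_lit 18624, nat_lit 19776, nat_lit 11568, nat_lit 11904, nat_lit 9216, R8_241, R3_248, R7_192⟩]⟩, ⟨nat_lit 5, [⟨nat_lit 1, nat_lit 17184, nat_lit 20304, nat_lit 12336, nat_lit 8304, nat_lit 12192, R9_257, R2_173, R3_254⟩, ⟨nat_lit 5, nat_lit 18720, nat_lit 20352, nat_lit 12480, nat_lit 12192, nat_lit 8304, R9_260, R3_254, R2_173⟩]⟩, ⟨nat_lit 6, [⟨nat_lit 5, nat_lit 18672, nat_lit 21072, nat_lit 13824, nat_lit 12048, nat_lit 3600, R5_288, R3_251, R2_75⟩]⟩]⟩,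
 ⟨nat_lit 2, [⟨nat_lit 4, [⟨nat_lit 1, nat_lit 17808, nat_lit 21600, nat_lit 11088, nat_lit 3312, nat_lit 9264, R4_231, R2_69, R4_193⟩]⟩, ⟨nat_lit 5, [⟨nat_lit 1, nat_lit 17856, nat_lit 21936, nat_lit 13824, nat_lit 3600, nat_lit 12048, R5_288, R2_75, R3_251⟩]⟩]⟩]], [[], [], [⟨nat_lit 0, [⟨nat_lit 4, [⟨nat_lit 4, nat_lit 19776, nat_lit 912, nat_lit 4656, nat_lit 4416, nat_lit 4800, R6_97, R6_92, R6_100⟩, ⟨nat_lit 5, nat_lit 20496, nat_lit 1488, nat_lit 6960, nat_lit 8016, nat_lit 5184, R6_145, R8_167, R4_108⟩, ⟨nat_lit 7, nat_lit 21312, nat_lit 1200, nat_lit 5808, nat_lit 4656, nat_lit 7536, R6_121, R4_97, R8_157⟩]⟩, ⟨nat_lit 6, [⟨nat_lit 4, nat_lit 19824, nat_lit 3264, nat_lit 4944, nat_lit 5424, nat_lit 5616, R4_103, R6_113, R13_117⟩, ⟨nat_lit 5, nat_lit 20544, nat_lit 3840, nat_lit 7584, nat_lit 8064, nat_lit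 3888, R4_158, R8_168, R3_81⟩, ⟨nat_lit 7, nat_lit 21360, nat_lit 3600, nat_lit 6144, nat_lit 5760, nat_lit 4368, R4_128, R4_120, R9_91⟩]⟩]⟩,
 ⟨nat_lit 1, [⟨nat_lit 4, [⟨nat_lit 4, nat_lit 19968, nat_lit 9168, nat_lit 18288, nat_lit 12720, nat_lit 5088, R8_381, R8_265, R6_106⟩, ⟨nat_lit 5, nat_lit 20784, nat_lit 9936, nat_lit 18576, nat_lit 8784, nat_lit 5376, R8_387, R9_183, R4_112⟩, ⟨nat_lit 7, nat_lit 21552, nat_lit 9552, nat_lit 18432, nat_lit 10176, nat_lit 7872, R8_384, R5_212, R8_164⟩]⟩, ⟨nat_lit 6, [⟨nat_lit 4, nat_lit 20016, nat_lit 11328, nat_lit 11328, nat_lit 12864, nat_lit 5664, R5_236, R8_268, R13_118⟩, ⟨nat_lit 5, nat_lit 20832, nat_lit 12192, nat_lit 11664, nat_lit 8832, nat_lit 3936, R5_243, R9_184, R3_82⟩, ⟨nat_lit 7, nat_lit 21600, nat_lit 11808, nat_lit 11520, nat_lit 10224, nat_lit 4416,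 R5_240, R5_213, R9_92⟩]⟩]⟩]], [], [], [[], [], [], [], [⟨nat_lit 0, [⟨nat_lit 4, [⟨nat_lit 1, nat_lit 6048, nat_lit 96, nat_lit 15936, nat_lit 5136, nat_lit 8496, R6_332, R4_107, R6_177⟩]⟩, ⟨nat_lit 5, [⟨nat_lit 0, nat_lit 4464, nat_lit 4752, nat_lit 17568, nat_lit 5040, nat_lit 12000, R8_366, R6_105, R6_250⟩, ⟨nat_lit 1, nat_lit 6096, nat_lit 5328, nat_lit 17712, nat_lit 5328, nat_lit 10992, R8_369, R4_111, R13_229⟩]⟩]⟩,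
 ⟨nat_lit 2, [⟨nat_lit 4, [⟨nat_lit 1, nat_lit 6528, nat_lit 240, nat_lit 2064, nat_lit 3744, nat_lit 8592, R4_43, R3_78, R6_179⟩]⟩, ⟨nat_lit 5, [⟨nat_lit 0, nat_lit 4992, nat_lit 4944, nat_lit 3264, nat_lit 5520, nat_lit 12096, R5_68, R13_115, R6_252⟩, ⟨nat_lit 1, nat_lit 6576, nat_lit 5472, nat_lit 3456, nat_lit 3792, nat_lit 11088, R5_72, R3_79, R13_231⟩]⟩]⟩], [], [], [⟨nat_lit 0, [⟨nat_lit 4, [⟨nat_lit 0, nat_lit 4608, nat_lit 912, nat_lit 14592, nat_lit 4800, nat_lit 4416, R6_304, R6_100, R6_92⟩, ⟨nat_lit 1, nat_lit 6240, nat_lit 1488, nat_lit 16176, nat_lit 5184, nat_lit 8016, R6_337, R4_108, R8_167⟩, ⟨nat_lit 3, nat_lit 8400, nat_lit 1200, nat_lit 15360, nat_lit 7536, nat_lit 4656, R6_320, R8_157, R4_97⟩]⟩, ⟨nat_lit 5, [⟨nat_lit 0, nat_lit 4656, nat_lit 9168, nat_lit 18288, nat_lit 5088, nat_lit 12720,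 R8_381, R6_106, R8_265⟩, ⟨nat_lit 1, nat_lit 6288, nat_lit 9936, nat_lit 18576, nat_lit 5376, nat_lit 8784, R8_387, R4_112, R9_183⟩, ⟨nat_lit 3, nat_lit 8448, nat_lit 9552, nat_lit 18432, nat_lit 7872, nat_lit 10176, R8_384, R8_164, R5_212⟩]⟩]⟩,
 ⟨nat_lit 2, [⟨nat_lit 4, [⟨nat_lit 0, nat_lit 5232, nat_lit 3264, nat_lit 4944, nat_lit 5616, nat_lit 5424, R4_103, R13_117, R6_113⟩, ⟨nat_lit 1, nat_lit 6816, nat_lit 3840, nat_lit 7584, nat_lit 3888, nat_lit 8064, R4_158, R3_81, R8_168⟩, ⟨nat_lit 3, nat_lit 8832, nat_lit 3600, nat_lit 6144, nat_lit 4368, nat_lit 5760, R4_128, R9_91, R4_120⟩]⟩, ⟨nat_lit 5, [⟨nat_lit 0, nat_lit 5280, nat_lit 11328, nat_lit 11328, nat_lit 5664, nat_lit 12864, R5_236, R13_118, R8_268⟩, ⟨nat_lit 1, nat_lit 6864, nat_lit 12192, nat_lit 11664, nat_lit 3936, nat_lit 8832, R5_243, R3_82, R9_184⟩,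 ⟨nat_lit 3, nat_lit 8880, nat_lit 11808, nat_lit 11520, nat_lit 4416, nat_lit 10224, R5_240, R9_92, R5_213⟩]⟩]⟩]]], [[[], [], [⟨nat_lit 1, [⟨nat_lit 4, [⟨nat_lit 4, nat_lit 15216, nat_lit 48, nat_lit 1056, nat_lit 12048, nat_lit 5184, R5_22, R6_251, R6_108⟩, ⟨nat_lit 5, nat_lit 16176, nat_lit 3792, nat_lit 3456, nat_lit 11232, nat_lit 5472, R5_72, R13_234, R4_114⟩]⟩, ⟨nat_lit 6, [⟨nat_lit 4, nat_lit 15264, nat_lit 96, nat_lit 3264, nat_lit 12144, nat_lit 5568, R11_68, R6_253, R13_116⟩, ⟨nat_lit 5, nat_lit 16224, nat_lit 3840, nat_lit 3456, nat_lit 11328, nat_lit 3840, R11_72, R13_236, R3_80⟩]⟩]⟩], [], [], [], [⟨nat_lit 1, [⟨nat_lit 4, [⟨nat_lit 5, nat_lit 15840, nat_lit 3552, nat_lit 2592, nat_lit 11280, nat_lit 9600, R5_54, R13_235, R7_200⟩]⟩, ⟨nat_lit 5, [⟨nat_lit 5, nat_lit 15936, nat_lit 3648, nat_lit 1296,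 nat_lit 11424, nat_lit 8640, R0_27, R13_238, R2_180⟩]⟩, ⟨nat_lit 6, [⟨nat_lit 5, nat_lit 15888, nat_lit 3792, nat_lit 2592, nat_lit 11376, nat_lit 3792, R11_54, R13_237, R2_79⟩]⟩]⟩]], [[], [], [⟨nat_lit 1, [⟨nat_lit 4, [⟨nat_lit 4, nat_lit 19056, nat_lit 2976, nat_lit 1152, nat_lit 12288, nat_lit 5280, R5_24, R4_256, R6_110⟩, ⟨nat_lit 5, nat_lit 19392, nat_lit 3648, nat_lit 3552, nat_lit 8832, nat_lit 5568, R5_74, R3_184, R4_116⟩]⟩, ⟨nat_lit 6, [⟨nat_lit 4, nat_lit 19104, nat_lit 3168, nat_lit 9504, nat_lit 12336, nat_lit 6000, R11_198, R4_257, R13_125⟩, ⟨nat_lit 5, nat_lit 19440, nat_lit 3792, nat_lit 9696, nat_lit 8928, nat_lit 4272, R11_202, R3_186, R3_89⟩]⟩]⟩,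
 ⟨nat_lit 5, [⟨nat_lit 6, [⟨nat_lit 4, nat_lit 19152, nat_lit 14736, nat_lit 240, nat_lit 13632, nat_lit 5952, R1_5, R7_284, R13_124⟩, ⟨nat_lit 5, nat_lit 19536, nat_lit 15216, nat_lit 384, nat_lit 12384, nat_lit 4224, R1_8, R2_258, R3_88⟩, ⟨nat_lit 6, nat_lit 19632, nat_lit 15504, nat_lit 288, nat_lit 12432, nat_lit 4176, R1_6, R2_259, R3_87⟩]⟩]⟩], [], [], [], [⟨nat_lit 1, [⟨nat_lit 4, [⟨nat_lit 5, nat_lit 19248, nat_lit 3024, nat_lit 2640, nat_lit 8880, nat_lit 9696, R5_55, R3_185, R7_202⟩]⟩, ⟨nat_lit 5, [⟨nat_lit 5, nat_lit 19344, nat_lit 3120, nat_lit 6432, nat_lit 9024, nat_lit 8736, R0_134, R3_188, R2_182⟩]⟩, ⟨nat_lit 6, [⟨nat_lit 5, nat_lit 19296, nat_lit 3264, nat_lit 9024, nat_lit 8976, nat_lit 3888, R11_188, R3_187, R2_81⟩]⟩]⟩,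
 ⟨nat_lit 5, [⟨nat_lit 6, [⟨nat_lit 5, nat_lit 19488, nat_lit 13584, nat_lit 336, nat_lit 12336, nat_lit 3936, R1_7, R2_257, R2_82⟩]⟩]⟩]], [[], [], [], [], [], [], [⟨nat_lit 1, [⟨nat_lit 4, [⟨nat_lit 1, nat_lit 17232, nat_lit 15504, nat_lit 480, nat_lit 8352, nat_lit 9504, R5_10, R2_174, R4_198⟩, ⟨nat_lit 5, nat_lit 18768, nat_lit 15552, nat_lit 2688, nat_lit 11952, nat_lit 9648, R5_56, R3_249, R7_201⟩]⟩, ⟨nat_lit 5, [⟨nat_lit 1, nat_lit 17280, nat_lit 16080, nat_lit 10512, nat_lit 8400, nat_lit 12288, R0_219, R2_175, R3_256⟩, ⟨nat_lit 5, nat_lit 18864, nat_lit 16128, nat_lit 10656, nat_lit 12240, nat_lit 8688, R0_222, R3_255, R2_181⟩]⟩, ⟨nat_lit 6, [⟨nat_lit 5, nat_lit 18816, nat_lit 16848, nat_lit 16896, nat_lit 12096, nat_lit 3840, R11_352, R3_252, R2_80⟩]⟩]⟩]], [[], [], [⟨nat_lit 1, [⟨nat_lit 4, [⟨nat_lit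 4, nat_lit 20064, nat_lit 144, nat_lit 1104, nat_lit 12768, nat_lit 5232, R5_23, R8_266, R6_109⟩, ⟨nat_lit 5, nat_lit 20880, nat_lit 240, nat_lit 3504, nat_lit 8880, nat_lit 5520, R5_73, R9_185, R4_115⟩, ⟨nat_lit 7, nat_lit 21648, nat_lit 336, nat_lit 2256, nat_lit 10272, nat_lit 9168, R5_47, R5_214, R8_191⟩]⟩, ⟨nat_lit 6, [⟨nat_lit 4, nat_lit 20112, nat_lit 192, nat_lit 14304, nat_lit 12912, nat_lit 5856, R11_298, R8_269, R13_122⟩, ⟨nat_lit 5, nat_lit 20928, nat_lit 288, nat_lit 14640, nat_lit 8928, nat_lit 4128, R11_305, R9_186, R3_86⟩, ⟨nat_lit 7, nat_lit 21696, nat_lit 384, nat_lit 14496, nat_lit 10320, nat_lit 4560, R11_302, R5_215, R9_95⟩]⟩]⟩]]], [[], [], [[], [], [], [], [⟨nat_lit 0, [⟨nat_lit 5, [⟨nat_lit 1, nat_lit 16368, nat_lit 3552, nat_lit 2592, nat_lit 9600, nat_lit 11280, R5_54, R7_200, R13_235⟩]⟩]⟩,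
 ⟨nat_lit 1, [⟨nat_lit 5, [⟨nat_lit 1, nat_lit 17040, nat_lit 3648, nat_lit 1296, nat_lit 8640, nat_lit 11424, R0_27, R2_180, R13_238⟩]⟩]⟩,
 ⟨nat_lit 2, [⟨nat_lit 5, [⟨nat_lit 1, nat_lit 17664, nat_lit 3792, nat_lit 2592, nat_lit 3792, nat_lit 11376, R11_54, R2_79, R13_237⟩]⟩]⟩], [⟨nat_lit 2, [⟨nat_lit 1, [⟨nat_lit 1, nat_lit 18096, nat_lit 13584, nat_lit 336, nat_lit 3936, nat_lit 12336, R1_7, R2_82, R2_257⟩]⟩, ⟨nat_lit 5, [⟨nat_lit 1, nat_lit 18048, nat_lit 3264, nat_lit 2640, nat_lit 3888, nat_lit 8976, R11_55, R2_81, R3_187⟩]⟩]⟩], [⟨nat_lit 0, [⟨nat_lit 5, [⟨nat_lit 1, nat_lit 16608, nat_lit 15552, nat_lit 2688, nat_lit 9648, nat_lit 11952, R5_56, R7_201, R3_249⟩, ⟨nat_lit 5, nat_lit 18432, nat_lit 15504, nat_lit 480, nat_lit 9504, nat_lit 8352, R5_10, R4_198, R2_174⟩]⟩]⟩,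
 ⟨nat_lit 1, [⟨nat_lit 5, [⟨nat_lit 1, nat_lit 17328, nat_lit 16128, nat_lit 10656, nat_lit 8688, nat_lit 12240, R0_222, R2_181, R3_255⟩, ⟨nat_lit 5, nat_lit 18912, nat_lit 16080, nat_lit 10512, nat_lit 12288, nat_lit 8400, R0_219, R3_256, R2_175⟩]⟩]⟩,
 ⟨nat_lit 2, [⟨nat_lit 5, [⟨nat_lit 1, nat_lit 17904, nat_lit 16848, nat_lit 2688, nat_lit 3840, nat_lit 12096, R11_56, R2_80, R3_252⟩]⟩]⟩]], [], [], [], [[], [], [], [], [⟨nat_lit 0, [⟨nat_lit 5, [⟨nat_lit 0, nat_lit 4512, nat_lit 48, nat_lit 1056, nat_lit 5184, nat_lit 12048, R5_22, R6_108, R6_251⟩, ⟨nat_lit 1, nat_lit 6144, nat_lit 3792, nat_lit 3456, nat_lit 5472, nat_lit 11232, R5_72, R4_114, R13_234⟩]⟩]⟩,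
 ⟨nat_lit 2, [⟨nat_lit 5, [⟨nat_lit 0, nat_lit 5040, nat_lit 96, nat_lit 624, nat_lit 5568, nat_lit 12144, R11_13, R13_116, R6_253⟩, ⟨nat_lit 1, nat_lit 6624, nat_lit 3840, nat_lit 3456, nat_lit 3840, nat_lit 11328, R11_72, R3_80, R13_236⟩]⟩]⟩], [⟨nat_lit 2, [⟨nat_lit 1, [⟨nat_lit 0, nat_lit 5136, nat_lit 432, nat_lit 240, nat_lit 5952, nat_lit 13632, R1_5, R13_124, R7_284⟩, ⟨nat_lit 1, nat_lit 6720, nat_lit 576, nat_lit 384, nat_lit 4224, nat_lit 12384, R1_8, R3_88, R2_258⟩, ⟨nat_lit 2, nat_lit 7104, nat_lit 624, nat_lit 288, nat_lit 4176, nat_lit 12432, R1_6, R3_87, R2_259⟩]⟩, ⟨nat_lit 5, [⟨nat_lit 0, nat_lit 5088, nat_lit 384, nat_lit 720, nat_lit 6000, nat_lit 12336, R11_15, R13_125, R4_257⟩, ⟨nat_lit 1, nat_lit 6672, nat_lit 528, nat_lit 3552, nat_lit 4272, nat_lit 8928, R11_74, R3_89, R3_186⟩]⟩]⟩], [],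 [⟨nat_lit 0, [⟨nat_lit 5, [⟨nat_lit 0, nat_lit 4704, nat_lit 144, nat_lit 1104, nat_lit 5232, nat_lit 12768, R5_23, R6_109, R8_266⟩, ⟨nat_lit 1, nat_lit 6336, nat_lit 240, nat_lit 3504, nat_lit 5520, nat_lit 8880, R5_73, R4_115, R9_185⟩, ⟨nat_lit 3, nat_lit 8496, nat_lit 336, nat_lit 2256, nat_lit 9168, nat_lit 10272, R5_47, R8_191, R5_214⟩]⟩]⟩,
 ⟨nat_lit 2, [⟨nat_lit 5, [⟨nat_lit 0, nat_lit 5328, nat_lit 192, nat_lit 672, nat_lit 5856, nat_lit 12912, R11_14, R13_122, R8_269⟩, ⟨nat_lit 1, nat_lit 6912, nat_lit 288, nat_lit 3504, nat_lit 4128, nat_lit 8928, R11_73, R3_86, R9_186⟩, ⟨nat_lit 3, nat_lit 8928, nat_lit 384, nat_lit 2256, nat_lit 4560, nat_lit 10320, R11_47, R9_95, R5_215⟩]⟩]⟩]]], [[[], [], [], [], [], [], [⟨nat_lit 0, [⟨nat_lit 4, [⟨nat_lit 5, nat_lit 15456, nat_lit 1200, nat_lit 1680, nat_lit 8736,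 nat_lit 9264, R13_35, R6_182, R7_193⟩]⟩, ⟨nat_lit 5, [⟨nat_lit 5, nat_lit 15552, nat_lit 1584, nat_lit 816, nat_lit 8832, nat_lit 8448, R9_17, R6_184, R2_176⟩]⟩, ⟨nat_lit 6, [⟨nat_lit 5, nat_lit 15504, nat_lit 1776, nat_lit 2064, nat_lit 8784, nat_lit 3360, R3_43, R6_183, R2_70⟩]⟩]⟩,
 ⟨nat_lit 1, [⟨nat_lit 4, [⟨nat_lit 5, nat_lit 15984, nat_lit 8256, nat_lit 2832, nat_lit 11472, nat_lit 9456, R9_59, R13_239, R7_197⟩]⟩, ⟨nat_lit 6, [⟨nat_lit 5, nat_lit 16032, nat_lit 8640, nat_lit 1296, nat_lit 11520, nat_lit 3648, R0_27, R13_240, R2_76⟩]⟩]⟩]], [], [[], [], [], [], [⟨nat_lit 0, [⟨nat_lit 4, [⟨nat_lit 1, nat_lit 16416, nat_lit 1200, nat_lit 3744, nat_lit 9264, nat_lit 8736, R13_78, R7_193, R6_182⟩]⟩, ⟨nat_lit 5, [⟨nat_lit 1, nat_lit 16464, nat_lit 8256, nat_lit 2832, nat_lit 9456, nat_lit 11472, R9_59, R7_197,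 R13_239⟩]⟩]⟩,
 ⟨nat_lit 1, [⟨nat_lit 4, [⟨nat_lit 1, nat_lit 17088, nat_lit 1584, nat_lit 816, nat_lit 8448, nat_lit 8832, R9_17, R2_176, R6_184⟩]⟩]⟩,
 ⟨nat_lit 2, [⟨nat_lit 4, [⟨nat_lit 1, nat_lit 17712, nat_lit 1776, nat_lit 2064, nat_lit 3360, nat_lit 8784, R3_43, R2_70, R6_183⟩]⟩, ⟨nat_lit 5, [⟨nat_lit 1, nat_lit 17760, nat_lit 8640, nat_lit 1296, nat_lit 3648, nat_lit 11520, R0_27, R2_76, R13_240⟩]⟩]⟩], [], [⟨nat_lit 0, [⟨nat_lit 4, [⟨nat_lit 1, nat_lit 16656, nat_lit 192, nat_lit 3840, nat_lit 9312, nat_lit 9360, R13_80, R7_194, R4_195⟩, ⟨nat_lit 5, nat_lit 18480, nat_lit 384, nat_lit 2304, nat_lit 9360, nat_lit 9312, R13_48, R4_195, R7_194⟩]⟩, ⟨nat_lit 5, [⟨nat_lit 1, nat_lit 16704, nat_lit 1200, nat_lit 2928, nat_lit 9504, nat_lit 12000, R9_61, R7_198, R3_250⟩, ⟨nat_lit 5, nat_lit 18576, nat_lit 1488,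 nat_lit 1536, nat_lit 9456, nat_lit 8496, R9_32, R4_197, R2_177⟩]⟩, ⟨nat_lit 6, [⟨nat_lit 5, nat_lit 18528, nat_lit 2448, nat_lit 2784, nat_lit 9408, nat_lit 3408, R3_58, R4_196, R2_71⟩]⟩]⟩,
 ⟨nat_lit 1, [⟨nat_lit 4, [⟨nat_lit 1, nat_lit 17376, nat_lit 7200, nat_lit 1536, nat_lit 8496, nat_lit 9456, R9_32, R2_177, R4_197⟩, ⟨nat_lit 5, nat_lit 18960, nat_lit 7488, nat_lit 2928, nat_lit 12000, nat_lit 9504, R9_61, R3_250, R7_198⟩]⟩, ⟨nat_lit 6, [⟨nat_lit 5, nat_lit 19008, nat_lit 9264, nat_lit 1392, nat_lit 12144, nat_lit 3696, R0_29, R3_253, R2_77⟩]⟩]⟩,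
 ⟨nat_lit 2, [⟨nat_lit 4, [⟨nat_lit 1, nat_lit 17952, nat_lit 10224, nat_lit 2784, nat_lit 3408, nat_lit 9408, R3_58, R2_71, R4_196⟩]⟩, ⟨nat_lit 5, [⟨nat_lit 1, nat_lit 18000, nat_lit 10944, nat_lit 1392, nat_lit 3696, nat_lit 12144, R0_29, R2_77, R3_253⟩]⟩]⟩], [⟨nat_lit 0, [⟨nat_lit 4, [⟨nat_lit 1, nat_lit 16800, nat_lit 672, nat_lit 3792, nat_lit 9360, nat_lit 8160, R13_79, R7_195, R8_170⟩]⟩, ⟨nat_lit 5, [⟨nat_lit 1, nat_lit 16848, nat_lit 9072, nat_lit 2880, nat_lit 9552, nat_lit 9024, R9_60, R7_199, R9_188⟩]⟩]⟩,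
 ⟨nat_lit 1, [⟨nat_lit 4, [⟨nat_lit 1, nat_lit 17472, nat_lit 1056, nat_lit 1104, nat_lit 8544, nat_lit 8304, R9_23, R2_178, R8_173⟩]⟩]⟩,
 ⟨nat_lit 2, [⟨nat_lit 4, [⟨nat_lit 1, nat_lit 18144, nat_lit 1248, nat_lit 2304, nat_lit 3456, nat_lit 8256, R3_48, R2_72, R8_172⟩]⟩, ⟨nat_lit 5, [⟨nat_lit 1, nat_lit 18192, nat_lit 9456, nat_lit 1344, nat_lit 3744, nat_lit 9120, R0_28, R2_78, R9_190⟩]⟩, ⟨nat_lit 7, [⟨nat_lit 1, nat_lit 18240, nat_lit 6672, nat_lit 2256, nat_lit 3504, nat_lit 14592, R10_47, R2_73, R5_304⟩]⟩]⟩]], [[], [], [⟨nat_lit 0, [⟨nat_lit 4, [⟨nat_lit 4, nat_lit 19872, nat_lit 480, nat_lit 48, nat_lit 4848, nat_lit 4848, R13_1, R6_101, R6_101⟩, ⟨nat_lit 5, nat_lit 20592, nat_lit 1056, nat_lit 1968, nat_lit 8112, nat_lit 5232, R13_41, R8_169, R4_109⟩, ⟨nat_lit 7, nat_lit 21408, nat_lit 768, nat_lit 624,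 nat_lit 5232, nat_lit 8112, R13_13, R4_109, R8_169⟩]⟩, ⟨nat_lit 6, [⟨nat_lit 4, nat_lit 19920, nat_lit 3264, nat_lit 96, nat_lit 6048, nat_lit 5712, R3_2, R6_126, R13_119⟩, ⟨nat_lit 5, nat_lit 20640, nat_lit 3840, nat_lit 2352, nat_lit 8208, nat_lit 3984, R3_49, R8_171, R3_83⟩, ⟨nat_lit 7, nat_lit 21456, nat_lit 3600, nat_lit 816, nat_lit 6384, nat_lit 4464, R3_17, R4_133, R9_93⟩]⟩, ⟨nat_lit 7, [⟨nat_lit 7, nat_lit 21504, nat_lit 1488, nat_lit 4656, nat_lit 6864, nat_lit 5040, R3_97, R4_143, R5_105⟩]⟩]⟩,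
 ⟨nat_lit 1, [⟨nat_lit 4, [⟨nat_lit 4, nat_lit 20160, nat_lit 11616, nat_lit 1872, nat_lit 12816, nat_lit 5136, R9_39, R8_267, R6_107⟩, ⟨nat_lit 5, nat_lit 20976, nat_lit 12384, nat_lit 3504, nat_lit 8976, nat_lit 5424, R9_73, R9_187, R4_113⟩, ⟨nat_lit 7, nat_lit 21744, nat_lit 12000, nat_lit 2544, nat_lit 10368, nat_lit 8832, R9_53, R5_216, R8_184⟩]⟩, ⟨nat_lit 6, [⟨nat_lit 4, nat_lit 20208, nat_lit 14304, nat_lit 192, nat_lit 12960, nat_lit 5808, R0_4, R8_270, R13_121⟩, ⟨nat_lit 5, nat_lit 21024, nat_lit 15168, nat_lit 1968, nat_lit 9072, nat_lit 4080, R0_41, R9_189, R3_85⟩, ⟨nat_lit 7, nat_lit 21792, nat_lit 14784, nat_lit 1008, nat_lit 10416, nat_lit 4512, R0_21, R5_217, R9_94⟩]⟩, ⟨nat_lit 7, [⟨nat_lit 7, nat_lit 21840, nat_lit 13056, nat_lit 14592, nat_lit 10464, nat_lit 5088, R0_304, R5_218, R5_106⟩]⟩]⟩,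
 ⟨nat_lit 3, [⟨nat_lit 4, [⟨nat_lit 4, nat_lit 20256, nat_lit 7824, nat_lit 16128, nat_lit 12192, nat_lit 4896, R3_336, R4_254, R6_102⟩, ⟨nat_lit 5, nat_lit 21216, nat_lit 8112, nat_lit 17472, nat_lit 14688, nat_lit 5280, R3_364, R5_306, R4_110⟩]⟩, ⟨nat_lit 6, [⟨nat_lit 4, nat_lit 20304, nat_lit 9504, nat_lit 384, nat_lit 12336, nat_lit 5760, R10_8, R4_257, R13_120⟩, ⟨nat_lit 5, nat_lit 21264, nat_lit 9840, nat_lit 2496, nat_lit 14736, nat_lit 4032, R10_52, R5_307, R3_84⟩]⟩]⟩], [], [], [], [⟨nat_lit 0, [⟨nat_lit 4, [⟨nat_lit 5, nat_lit 20352, nat_lit 672, nat_lit 1920, nat_lit 8160, nat_lit 9360, R13_40, R8_170, R7_195⟩]⟩, ⟨nat_lit 5, [⟨nat_lit 5, nat_lit 20448, nat_lit 1056, nat_lit 1104, nat_lit 8304, nat_lit 8544, R9_23, R8_173, R2_178⟩]⟩, ⟨nat_lit 6, [⟨nat_lit 5, nat_lit 20400, nat_lit 1248, nat_lit 2304,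 nat_lit 8256, nat_lit 3456, R3_48, R8_172, R2_72⟩]⟩]⟩,
 ⟨nat_lit 1, [⟨nat_lit 4, [⟨nat_lit 5, nat_lit 20688, nat_lit 9072, nat_lit 2880, nat_lit 9024, nat_lit 9552, R9_60, R9_188, R7_199⟩]⟩, ⟨nat_lit 6, [⟨nat_lit 5, nat_lit 20736, nat_lit 9456, nat_lit 1344, nat_lit 9120, nat_lit 3744, R0_28, R9_190, R2_78⟩]⟩]⟩,
 ⟨nat_lit 3, [⟨nat_lit 4, [⟨nat_lit 5, nat_lit 21072, nat_lit 6192, nat_lit 10608, nat_lit 14544, nat_lit 9408, R3_221, R5_303, R7_196⟩]⟩, ⟨nat_lit 5, [⟨nat_lit 5, nat_lit 21168, nat_lit 6480, nat_lit 4176, nat_lit 14640, nat_lit 8592, R0_87, R5_305, R2_179⟩]⟩, ⟨nat_lit 6, [⟨nat_lit 5, nat_lit 21120, nat_lit 6672, nat_lit 2256, nat_lit 14592, nat_lit 3504, R10_47, R5_304, R2_73⟩]⟩]⟩]], [[], [], [], [⟨nat_lit 0, [⟨nat_lit 4, [⟨nat_lit 3, nat_lit 1728, nat_lit 1200, nat_lit 2784, nat_lit 7728, nat_lit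 9264, R13_58, R6_161, R7_193⟩]⟩, ⟨nat_lit 7, [⟨nat_lit 3, nat_lit 1776, nat_lit 1248, nat_lit 11712, nat_lit 7776, nat_lit 9168, R3_244, R6_162, R14_191⟩]⟩]⟩,
 ⟨nat_lit 2, [⟨nat_lit 4, [⟨nat_lit 3, nat_lit 2160, nat_lit 2400, nat_lit 1296, nat_lit 7056, nat_lit 10032, R3_27, R8_147, R7_209⟩]⟩, ⟨nat_lit 7, [⟨nat_lit 0, nat_lit 384, nat_lit 912, nat_lit 96, nat_lit 4992, nat_lit 13392, R10_2, R6_104, R7_279⟩, ⟨nat_lit 3, nat_lit 2208, nat_lit 2448, nat_lit 1008, nat_lit 7104, nat_lit 9216, R10_21, R8_148, R14_192⟩]⟩]⟩,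
 ⟨nat_lit 3, [⟨nat_lit 4, [⟨nat_lit 3, nat_lit 2352, nat_lit 1968, nat_lit 12480, nat_lit 8304, nat_lit 10704, R3_260, R4_173, R7_223⟩, ⟨nat_lit 7, nat_lit 4032, nat_lit 144, nat_lit 13728, nat_lit 8304, nat_lit 9888, R3_286, R7_173, R4_206⟩]⟩, ⟨nat_lit 6, [⟨nat_lit 7, nat_lit 4080, nat_lit 192, nat_lit 1392, nat_lit 8352, nat_lit 4896, R10_29, R7_174, R5_102⟩]⟩]⟩]], [], [[], [], [], [⟨nat_lit 0, [⟨nat_lit 4, [⟨nat_lit 3, nat_lit 8688, nat_lit 672, nat_lit 3504, nat_lit 8160, nat_lit 9360, R13_73, R8_170, R7_195⟩]⟩, ⟨nat_lit 7, [⟨nat_lit 3, nat_lit 8736, nat_lit 720, nat_lit 16848, nat_lit 8496, nat_lit 9264, R3_351, R8_177, R14_193⟩]⟩]⟩,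
 ⟨nat_lit 2, [⟨nat_lit 4, [⟨nat_lit 3, nat_lit 9360, nat_lit 1872, nat_lit 1392, nat_lit 4128, nat_lit 10128, R3_29, R9_86, R7_211⟩]⟩, ⟨nat_lit 7, [⟨nat_lit 0, nat_lit 5904, nat_lit 240, nat_lit 432, nat_lit 5184, nat_lit 13680, R10_9, R13_108, R7_285⟩, ⟨nat_lit 3, nat_lit 9408, nat_lit 1920, nat_lit 2064, nat_lit 4176, nat_lit 9312, R10_43, R9_87, R14_194⟩]⟩]⟩,
 ⟨nat_lit 3, [⟨nat_lit 4, [⟨nat_lit 3, nat_lit 9648, nat_lit 1440, nat_lit 12624, nat_lit 4992, nat_lit 10752, R3_263, R5_104, R7_224⟩]⟩]⟩], [], [], [], [⟨nat_lit 0, [⟨nat_lit 4, [⟨nat_lit 0, nat_lit 4752, nat_lit 480, nat_lit 2544, nat_lit 4848, nat_lit 4848, R13_53, R6_101, R6_101⟩, ⟨nat_lit 1, nat_lit 6384, nat_lit 768, nat_lit 4272, nat_lit 5232, nat_lit 8112, R13_89, R4_109, R8_169⟩, ⟨nat_lit 3, nat_lit 8544, nat_lit 1056, nat_lit 3456, nat_lit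 8112, nat_lit 5232, R13_72, R8_169, R4_109⟩]⟩, ⟨nat_lit 5, [⟨nat_lit 0, nat_lit 4800, nat_lit 528, nat_lit 1872, nat_lit 5136, nat_lit 12816, R9_39, R6_107, R8_267⟩, ⟨nat_lit 1, nat_lit 6432, nat_lit 816, nat_lit 3504, nat_lit 5424, nat_lit 8976, R9_73, R4_113, R9_187⟩, ⟨nat_lit 3, nat_lit 8592, nat_lit 1104, nat_lit 2544, nat_lit 8832, nat_lit 10368, R9_53, R8_184, R5_216⟩]⟩]⟩,
 ⟨nat_lit 2, [⟨nat_lit 4, [⟨nat_lit 0, nat_lit 5376, nat_lit 624, nat_lit 96, nat_lit 5712, nat_lit 6048, R3_2, R13_119, R6_126⟩, ⟨nat_lit 1, nat_lit 6960, nat_lit 912, nat_lit 2352, nat_lit 3984, nat_lit 8208, R3_49, R3_83, R8_171⟩, ⟨nat_lit 3, nat_lit 8976, nat_lit 1248, nat_lit 816, nat_lit 4464, nat_lit 6384, R3_17, R9_93, R4_133⟩]⟩, ⟨nat_lit 5, [⟨nat_lit 0, nat_lit 5424, nat_lit 672, nat_lit 192, nat_lit 5808, nat_lit 12960, R0_4,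 R13_121, R8_270⟩, ⟨nat_lit 1, nat_lit 7008, nat_lit 960, nat_lit 1968, nat_lit 4080, nat_lit 9072, R0_41, R3_85, R9_189⟩, ⟨nat_lit 3, nat_lit 9024, nat_lit 1296, nat_lit 1008, nat_lit 4512, nat_lit 10416, R0_21, R9_94, R5_217⟩]⟩, ⟨nat_lit 7, [⟨nat_lit 0, nat_lit 5472, nat_lit 720, nat_lit 384, nat_lit 5760, nat_lit 12336, R10_8, R13_120, R4_257⟩, ⟨nat_lit 1, nat_lit 7056, nat_lit 1008, nat_lit 2496, nat_lit 4032, nat_lit 14736, R10_52, R3_84, R5_307⟩]⟩]⟩,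
 ⟨nat_lit 3, [⟨nat_lit 4, [⟨nat_lit 3, nat_lit 9504, nat_lit 1152, nat_lit 4656, nat_lit 5040, nat_lit 6864, R3_97, R5_105, R4_143⟩]⟩, ⟨nat_lit 5, [⟨nat_lit 3, nat_lit 9552, nat_lit 1200, nat_lit 14592, nat_lit 5088, nat_lit 10464, R0_304, R5_106, R5_218⟩]⟩]⟩]], [[⟨nat_lit 0, [⟨nat_lit 4, [⟨nat_lit 7, nat_lit 14064, nat_lit 1200, nat_lit 1104, nat_lit 9264, nat_lit 7728, R13_23, R7_193, R6_161⟩]⟩, ⟨nat_lit 6, [⟨nat_lit 7, nat_lit 14112, nat_lit 2400, nat_lit 1296, nat_lit 10032, nat_lit 7056, R3_27, R7_209, R8_147⟩]⟩, ⟨nat_lit 7, [⟨nat_lit 3, nat_lit 12960, nat_lit 144, nat_lit 13728, nat_lit 9888, nat_lit 8304, R3_286, R4_206, R7_173⟩, ⟨nat_lit 7, nat_lit 14160, nat_lit 1968, nat_lit 12480, nat_lit 10704, nat_lit 8304, R3_260, R7_223, R4_173⟩]⟩]⟩,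
 ⟨nat_lit 2, [⟨nat_lit 7, [⟨nat_lit 3, nat_lit 13152, nat_lit 192, nat_lit 1392, nat_lit 4896, nat_lit 8352, R10_29, R5_102, R7_174⟩]⟩]⟩,
 ⟨nat_lit 3, [⟨nat_lit 4, [⟨nat_lit 7, nat_lit 14544, nat_lit 1248, nat_lit 11712, nat_lit 9168, nat_lit 7776, R3_244, R14_191, R6_162⟩]⟩, ⟨nat_lit 6, [⟨nat_lit 4, nat_lit 13440, nat_lit 912, nat_lit 96, nat_lit 13392, nat_lit 4992, R10_2, R7_279, R6_104⟩, ⟨nat_lit 7, nat_lit 14592, nat_lit 2448, nat_lit 1008, nat_lit 9216, nat_lit 7104, R10_21, R14_192, R8_148⟩]⟩]⟩], [], [⟨nat_lit 0, [⟨nat_lit 4, [⟨nat_lit 7, nat_lit 14256, nat_lit 672, nat_lit 1200, nat_lit 9360, nat_lit 8160, R13_25, R7_195, R8_170⟩]⟩, ⟨nat_lit 6, [⟨nat_lit 7, nat_lit 14304, nat_lit 1872, nat_lit 1392, nat_lit 10128, nat_lit 4128, R3_29, R7_211, R9_86⟩]⟩, ⟨nat_lit 7, [⟨nat_lit 7, nat_lit 14352, nat_lit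 1440, nat_lit 12624, nat_lit 10752, nat_lit 4992, R3_263, R7_224, R5_104⟩]⟩]⟩,
 ⟨nat_lit 3, [⟨nat_lit 4, [⟨nat_lit 4, nat_lit 13536, nat_lit 48, nat_lit 15888, nat_lit 13584, nat_lit 4944, R3_331, R7_283, R6_103⟩, ⟨nat_lit 7, nat_lit 14784, nat_lit 720, nat_lit 16848, nat_lit 9264, nat_lit 8496, R3_351, R14_193, R8_177⟩]⟩, ⟨nat_lit 6, [⟨nat_lit 4, nat_lit 13584, nat_lit 240, nat_lit 432, nat_lit 13680, nat_lit 5184, R10_9, R7_285, R13_108⟩, ⟨nat_lit 7, nat_lit 14832, nat_lit 1920, nat_lit 2064, nat_lit 9312, nat_lit 4176, R10_43, R14_194, R9_87⟩]⟩]⟩], [⟨nat_lit 0, [⟨nat_lit 4, [⟨nat_lit 3, nat_lit 13056, nat_lit 384, nat_lit 3120, nat_lit 9360, nat_lit 9312, R13_65, R4_195, R7_194⟩, ⟨nat_lit 7, nat_lit 14448, nat_lit 192, nat_lit 1152, nat_lit 9312, nat_lit 9360, R13_24, R7_194, R4_195⟩]⟩, ⟨nat_lit 6, [⟨nat_lit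 7, nat_lit 14496, nat_lit 240, nat_lit 1344, nat_lit 10080, nat_lit 4848, R3_28, R7_210, R5_101⟩]⟩, ⟨nat_lit 7, [⟨nat_lit 3, nat_lit 13104, nat_lit 432, nat_lit 14064, nat_lit 9936, nat_lit 9360, R3_293, R4_207, R14_195⟩]⟩]⟩,
 ⟨nat_lit 2, [⟨nat_lit 4, [⟨nat_lit 3, nat_lit 13344, nat_lit 480, nat_lit 1344, nat_lit 4848, nat_lit 10080, R3_28, R5_101, R7_210⟩]⟩, ⟨nat_lit 7, [⟨nat_lit 3, nat_lit 13392, nat_lit 528, nat_lit 1440, nat_lit 4944, nat_lit 9408, R10_30, R5_103, R14_196⟩]⟩]⟩,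
 ⟨nat_lit 3, [⟨nat_lit 4, [⟨nat_lit 7, nat_lit 15024, nat_lit 288, nat_lit 14064, nat_lit 9360, nat_lit 9936, R3_293, R14_195, R4_207⟩]⟩, ⟨nat_lit 6, [⟨nat_lit 7, nat_lit 15072, nat_lit 336, nat_lit 1440, nat_lit 9408, nat_lit 4944, R10_30, R14_196, R5_103⟩]⟩]⟩]]], [[], [], [], [], [[⟨nat_lit 4, [⟨nat_lit 2, [⟨nat_lit 6, nat_lit 2736, nat_lit 2352, nat_lit 192, nat_lit 8544, nat_lit 9072, R7_4, R6_178, R7_189⟩]⟩, ⟨nat_lit 6, [⟨nat_lit 6, nat_lit 2688, nat_lit 2208, nat_lit 96, nat_lit 8496, nat_lit 5136, R4_2, R6_177, R4_107⟩]⟩]⟩,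
 ⟨nat_lit 6, [⟨nat_lit 0, [⟨nat_lit 2, nat_lit 1008, nat_lit 10944, nat_lit 192, nat_lit 9072, nat_lit 8544, R7_4, R7_189, R6_178⟩]⟩, ⟨nat_lit 2, [⟨nat_lit 2, nat_lit 1056, nat_lit 11232, nat_lit 18432, nat_lit 9120, nat_lit 9216, R14_384, R7_190, R4_192⟩, ⟨nat_lit 6, nat_lit 3072, nat_lit 10080, nat_lit 18480, nat_lit 9216, nat_lit 9120, R14_385, R4_192, R7_190⟩]⟩]⟩,
 ⟨nat_lit 7, [⟨nat_lit 6, [⟨nat_lit 4, nat_lit 2496, nat_lit 4656, nat_lit 912, nat_lit 4416, nat_lit 4800, R5_19, R6_92, R6_100⟩, ⟨nat_lit 6, nat_lit 3408, nat_lit 6960, nat_lit 1488, nat_lit 8016, nat_lit 5184, R5_31, R8_167, R4_108⟩, ⟨nat_lit 7, nat_lit 4224, nat_lit 5808, nat_lit 1200, nat_lit 4656, nat_lit 7536, R5_25, R4_97, R8_157⟩]⟩]⟩], [⟨nat_lit 2, [⟨nat_lit 0, [⟨nat_lit 0, nat_lit 96, nat_lit 17568, nat_lit 4752, nat_lit 5040, nat_lit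 12000, R4_99, R6_105, R6_250⟩, ⟨nat_lit 2, nat_lit 672, nat_lit 17712, nat_lit 5328, nat_lit 5328, nat_lit 10992, R4_111, R4_111, R13_229⟩]⟩, ⟨nat_lit 3, [⟨nat_lit 0, nat_lit 144, nat_lit 18288, nat_lit 9168, nat_lit 5088, nat_lit 12432, R5_191, R6_106, R8_259⟩, ⟨nat_lit 2, nat_lit 720, nat_lit 18576, nat_lit 9936, nat_lit 5376, nat_lit 8784, R5_207, R4_112, R9_183⟩, ⟨nat_lit 3, nat_lit 2016, nat_lit 18432, nat_lit 9552, nat_lit 7872, nat_lit 10176, R5_199, R8_164, R5_212⟩]⟩]⟩,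
 ⟨nat_lit 4, [⟨nat_lit 2, [⟨nat_lit 6, nat_lit 2976, nat_lit 3744, nat_lit 288, nat_lit 8688, nat_lit 8160, R7_6, R6_181, R2_170⟩]⟩]⟩,
 ⟨nat_lit 6, [⟨nat_lit 0, [⟨nat_lit 2, nat_lit 1248, nat_lit 10992, nat_lit 5136, nat_lit 9168, nat_lit 11040, R7_107, R7_191, R13_230⟩]⟩, ⟨nat_lit 2, [⟨nat_lit 2, nat_lit 1296, nat_lit 11568, nat_lit 18816, nat_lit 9216, nat_lit 11904, R14_392, R7_192, R3_248⟩, ⟨nat_lit 6, nat_lit 3264, nat_lit 11712, nat_lit 18864, nat_lit 9312, nat_lit 8208, R14_393, R4_194, R2_171⟩]⟩]⟩], [⟨nat_lit 4, [⟨nat_lit 2, [⟨nat_lit 6, nat_lit 2880, nat_lit 2208, nat_lit 432, nat_lit 8640, nat_lit 3264, R7_9, R6_180, R2_68⟩]⟩, ⟨nat_lit 6, [⟨nat_lit 6, nat_lit 2832, nat_lit 2064, nat_lit 240, nat_lit 8592, nat_lit 3744, R4_5, R6_179, R3_78⟩]⟩]⟩,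
 ⟨nat_lit 7, [⟨nat_lit 6, [⟨nat_lit 4, nat_lit 2592, nat_lit 4944, nat_lit 3264, nat_lit 5424, nat_lit 4992, R5_68, R6_113, R13_104⟩, ⟨nat_lit 6, nat_lit 3552, nat_lit 7584, nat_lit 3840, nat_lit 8064, nat_lit 3888, R5_80, R8_168, R3_81⟩, ⟨nat_lit 7, nat_lit 4320, nat_lit 6144, nat_lit 3600, nat_lit 5760, nat_lit 3936, R5_75, R4_120, R9_82⟩]⟩]⟩]], [[⟨nat_lit 4, [⟨nat_lit 2, [⟨nat_lit 6, nat_lit 11040, nat_lit 10992, nat_lit 5136, nat_lit 11040, nat_lit 9168, R7_107, R13_230, R7_191⟩]⟩, ⟨nat_lit 6, [⟨nat_lit 4, nat_lit 10416, nat_lit 17568, nat_lit 4752, nat_lit 12000, nat_lit 5040, R4_99, R6_250, R6_105⟩, ⟨nat_lit 6, nat_lit 10992, nat_lit 17712, nat_lit 5328, nat_lit 10992, nat_lit 5328, R4_111, R13_229, R4_111⟩]⟩]⟩,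
 ⟨nat_lit 6, [⟨nat_lit 0, [⟨nat_lit 2, nat_lit 9792, nat_lit 3744, nat_lit 288, nat_lit 8160, nat_lit 8688, R7_6, R2_170, R6_181⟩]⟩, ⟨nat_lit 2, [⟨nat_lit 2, nat_lit 9840, nat_lit 11712, nat_lit 19728, nat_lit 8208, nat_lit 9312, R14_411, R2_171, R4_194⟩, ⟨nat_lit 6, nat_lit 11808, nat_lit 11568, nat_lit 19776, nat_lit 11904, nat_lit 9216, R14_412, R3_248, R7_192⟩]⟩]⟩,
 ⟨nat_lit 7, [⟨nat_lit 6, [⟨nat_lit 4, nat_lit 10704, nat_lit 18288, nat_lit 9168, nat_lit 12432, nat_lit 5088, R5_191, R8_259, R6_106⟩, ⟨nat_lit 6, nat_lit 12240, nat_lit 18576, nat_lit 9936, nat_lit 8784, nat_lit 5376, R5_207, R9_183, R4_112⟩, ⟨nat_lit 7, nat_lit 12624, nat_lit 18432, nat_lit 9552, nat_lit 10176, nat_lit 7872, R5_199, R5_212, R8_164⟩]⟩]⟩], [⟨nat_lit 4, [⟨nat_lit 2, [⟨nat_lit 6, nat_lit 11472, nat_lit 2832, nat_lit 5232, nat_lit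 11184, nat_lit 8256, R7_109, R13_233, R2_172⟩]⟩]⟩,
 ⟨nat_lit 6, [⟨nat_lit 0, [⟨nat_lit 2, nat_lit 10080, nat_lit 11712, nat_lit 5232, nat_lit 8256, nat_lit 11184, R7_109, R2_172, R13_233⟩]⟩, ⟨nat_lit 2, [⟨nat_lit 2, nat_lit 10128, nat_lit 12336, nat_lit 20304, nat_lit 8304, nat_lit 12192, R14_423, R2_173, R3_254⟩, ⟨nat_lit 6, nat_lit 12096, nat_lit 12480, nat_lit 20352, nat_lit 12192, nat_lit 8304, R14_424, R3_254, R2_173⟩]⟩]⟩], [⟨nat_lit 4, [⟨nat_lit 2, [⟨nat_lit 6, nat_lit 11280, nat_lit 2592, nat_lit 5376, nat_lit 11136, nat_lit 3552, R7_112, R13_232, R2_74⟩]⟩, ⟨nat_lit 6, [⟨nat_lit 4, nat_lit 10512, nat_lit 3264, nat_lit 4944, nat_lit 12096, nat_lit 5232, R4_103, R6_252, R13_109⟩, ⟨nat_lit 6, nat_lit 11232, nat_lit 3456, nat_lit 5472, nat_lit 11088, nat_lit 3792, R4_114, R13_231, R3_79⟩]⟩]⟩,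
 ⟨nat_lit 7, [⟨nat_lit 6, [⟨nat_lit 4, nat_lit 10848, nat_lit 11328, nat_lit 11328, nat_lit 12864, nat_lit 5280, R5_236, R8_268, R13_110⟩, ⟨nat_lit 6, nat_lit 12432, nat_lit 11664, nat_lit 12192, nat_lit 8832, nat_lit 3936, R5_254, R9_184, R3_82⟩, ⟨nat_lit 7, nat_lit 12768, nat_lit 11520, nat_lit 11808, nat_lit 10224, nat_lit 4224, R5_246, R5_213, R9_88⟩]⟩]⟩]], [[⟨nat_lit 6, [⟨nat_lit 0, [⟨nat_lit 2, nat_lit 7728, nat_lit 2208, nat_lit 432, nat_lit 3264, nat_lit 8640, R7_9, R2_68, R6_180⟩]⟩, ⟨nat_lit 2, [⟨nat_lit 2, nat_lit 7776, nat_lit 11088, nat_lit 21600, nat_lit 3312, nat_lit 9264, R14_450, R2_69, R4_193⟩]⟩]⟩], [⟨nat_lit 2, [⟨nat_lit 0, [⟨nat_lit 0, nat_lit 5616, nat_lit 3264, nat_lit 4944, nat_lit 5232, nat_lit 12096, R4_103, R13_109, R6_252⟩, ⟨nat_lit 2, nat_lit 7344, nat_lit 3456, nat_lit 5472, nat_lit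 3792, nat_lit 11088, R4_114, R3_79, R13_231⟩]⟩, ⟨nat_lit 3, [⟨nat_lit 0, nat_lit 5664, nat_lit 11328, nat_lit 11328, nat_lit 5280, nat_lit 12864, R5_236, R13_110, R8_268⟩, ⟨nat_lit 2, nat_lit 7392, nat_lit 11664, nat_lit 12192, nat_lit 3936, nat_lit 8832, R5_254, R3_82, R9_184⟩, ⟨nat_lit 3, nat_lit 9216, nat_lit 11520, nat_lit 11808, nat_lit 4224, nat_lit 10224, R5_246, R9_88, R5_213⟩]⟩]⟩,
 ⟨nat_lit 6, [⟨nat_lit 0, [⟨nat_lit 2, nat_lit 7968, nat_lit 2592, nat_lit 5376, nat_lit 3552, nat_lit 11136, R7_112, R2_74, R13_232⟩]⟩, ⟨nat_lit 2, [⟨nat_lit 2, nat_lit 8016, nat_lit 13824, nat_lit 21936, nat_lit 3600, nat_lit 12048, R14_457, R2_75, R3_251⟩]⟩]⟩]]], [[], [[], [], [⟨nat_lit 5, [⟨nat_lit 2, [⟨nat_lit 6, nat_lit 19728, nat_lit 336, nat_lit 13584, nat_lit 12336, nat_lit 3936, R1_283, R2_257, R2_82⟩]⟩, ⟨nat_lit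 6, [⟨nat_lit 4, nat_lit 19200, nat_lit 240, nat_lit 14736, nat_lit 13680, nat_lit 5904, R10_307, R7_285, R13_123⟩, ⟨nat_lit 5, nat_lit 19584, nat_lit 288, nat_lit 15504, nat_lit 12432, nat_lit 4176, R10_323, R2_259, R3_87⟩, ⟨nat_lit 6, nat_lit 19680, nat_lit 384, nat_lit 15216, nat_lit 12384, nat_lit 4224, R10_317, R2_258, R3_88⟩]⟩]⟩]], [], [], [], [[⟨nat_lit 4, [⟨nat_lit 2, [⟨nat_lit 6, nat_lit 11136, nat_lit 2592, nat_lit 3552, nat_lit 11280, nat_lit 9600, R2_74, R13_235, R7_200⟩]⟩, ⟨nat_lit 6, [⟨nat_lit 4, nat_lit 10464, nat_lit 1056, nat_lit 48, nat_lit 12048, nat_lit 5184, R3_1, R6_251, R6_108⟩, ⟨nat_lit 6, nat_lit 11088, nat_lit 3456, nat_lit 3792, nat_lit 11232, nat_lit 5472, R3_79, R13_234, R4_114⟩]⟩]⟩,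
 ⟨nat_lit 5, [⟨nat_lit 2, [⟨nat_lit 6, nat_lit 11616, nat_lit 2640, nat_lit 3024, nat_lit 8880, nat_lit 9696, R1_63, R3_185, R7_202⟩]⟩, ⟨nat_lit 6, [⟨nat_lit 4, nat_lit 10608, nat_lit 1152, nat_lit 2976, nat_lit 12288, nat_lit 5280, R10_62, R4_256, R6_110⟩, ⟨nat_lit 6, nat_lit 11568, nat_lit 3552, nat_lit 3648, nat_lit 8832, nat_lit 5568, R10_76, R3_184, R4_116⟩]⟩]⟩,
 ⟨nat_lit 6, [⟨nat_lit 2, [⟨nat_lit 2, nat_lit 9888, nat_lit 480, nat_lit 15504, nat_lit 8352, nat_lit 9504, R12_323, R2_174, R4_198⟩, ⟨nat_lit 6, nat_lit 11856, nat_lit 2688, nat_lit 15552, nat_lit 11952, nat_lit 9648, R12_324, R3_249, R7_201⟩]⟩]⟩,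
 ⟨nat_lit 7, [⟨nat_lit 6, [⟨nat_lit 4, nat_lit 10752, nat_lit 1104, nat_lit 144, nat_lit 12528, nat_lit 5232, R0_3, R8_261, R6_109⟩, ⟨nat_lit 6, nat_lit 12288, nat_lit 3504, nat_lit 240, nat_lit 8880, nat_lit 5520, R0_5, R9_185, R4_115⟩, ⟨nat_lit 7, nat_lit 12672, nat_lit 2256, nat_lit 336, nat_lit 10272, nat_lit 9168, R0_7, R5_214, R8_191⟩]⟩]⟩], [⟨nat_lit 4, [⟨nat_lit 2, [⟨nat_lit 6, nat_lit 11520, nat_lit 1296, nat_lit 3648, nat_lit 11424, nat_lit 8640, R2_76, R13_238, R2_180⟩]⟩]⟩,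
 ⟨nat_lit 5, [⟨nat_lit 2, [⟨nat_lit 6, nat_lit 11760, nat_lit 6432, nat_lit 3120, nat_lit 9024, nat_lit 8736, R1_65, R3_188, R2_182⟩]⟩]⟩,
 ⟨nat_lit 6, [⟨nat_lit 2, [⟨nat_lit 2, nat_lit 10176, nat_lit 10512, nat_lit 16080, nat_lit 8400, nat_lit 12288, R12_335, R2_175, R3_256⟩, ⟨nat_lit 6, nat_lit 12144, nat_lit 10656, nat_lit 16128, nat_lit 12240, nat_lit 8688, R12_336, R3_255, R2_181⟩]⟩]⟩], [⟨nat_lit 4, [⟨nat_lit 2, [⟨nat_lit 6, nat_lit 11376, nat_lit 2592, nat_lit 3792, nat_lit 11376, nat_lit 3792, R2_79, R13_237, R2_79⟩]⟩, ⟨nat_lit 6, [⟨nat_lit 4, nat_lit 10560, nat_lit 3264, nat_lit 96, nat_lit 12144, nat_lit 5376, R3_2, R6_253, R13_112⟩, ⟨nat_lit 6, nat_lit 11328, nat_lit 3456, nat_lit 3840, nat_lit 11328, nat_lit 3840, R3_80, R13_236, R3_80⟩]⟩]⟩,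
 ⟨nat_lit 5, [⟨nat_lit 2, [⟨nat_lit 6, nat_lit 11712, nat_lit 9024, nat_lit 3264, nat_lit 8976, nat_lit 3888, R1_68, R3_187, R2_81⟩]⟩, ⟨nat_lit 6, [⟨nat_lit 4, nat_lit 10656, nat_lit 9504, nat_lit 3168, nat_lit 12336, nat_lit 5472, R10_66, R4_257, R13_114⟩, ⟨nat_lit 6, nat_lit 11664, nat_lit 9696, nat_lit 3792, nat_lit 8928, nat_lit 4272, R10_79, R3_186, R3_89⟩]⟩]⟩,
 ⟨nat_lit 6, [⟨nat_lit 2, [⟨nat_lit 6, nat_lit 12000, nat_lit 16896, nat_lit 16848, nat_lit 12096, nat_lit 3840, R12_351, R3_252, R2_80⟩]⟩]⟩,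
 ⟨nat_lit 7, [⟨nat_lit 6, [⟨nat_lit 4, nat_lit 10896, nat_lit 14304, nat_lit 192, nat_lit 12960, nat_lit 5424, R0_4, R8_270, R13_113⟩, ⟨nat_lit 6, nat_lit 12480, nat_lit 14640, nat_lit 288, nat_lit 8928, nat_lit 4128, R0_6, R9_186, R3_86⟩, ⟨nat_lit 7, nat_lit 12816, nat_lit 14496, nat_lit 384, nat_lit 10320, nat_lit 4320, R0_8, R5_215, R9_90⟩]⟩]⟩]]], [[], [], [], [], [[], [⟨nat_lit 2, [⟨nat_lit 0, [⟨nat_lit 0, nat_lit 192, nat_lit 1056, nat_lit 48, nat_lit 5184, nat_lit 12048, R3_1, R6_108, R6_251⟩, ⟨nat_lit 2, nat_lit 768, nat_lit 3456, nat_lit 3792, nat_lit 5472, nat_lit 11232, R3_79, R4_114, R13_234⟩]⟩, ⟨nat_lit 1, [⟨nat_lit 0, nat_lit 240, nat_lit 1152, nat_lit 336, nat_lit 5280, nat_lit 12288, R10_7, R6_110, R4_256⟩, ⟨nat_lit 2, nat_lit 816, nat_lit 3552, nat_lit 480, nat_lit 5568, nat_lit 8832, R10_10,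 R4_116, R3_184⟩]⟩, ⟨nat_lit 3, [⟨nat_lit 0, nat_lit 288, nat_lit 1104, nat_lit 144, nat_lit 5232, nat_lit 12528, R0_3, R6_109, R8_261⟩, ⟨nat_lit 2, nat_lit 864, nat_lit 3504, nat_lit 240, nat_lit 5520, nat_lit 8880, R0_5, R4_115, R9_185⟩, ⟨nat_lit 3, nat_lit 2064, nat_lit 2256, nat_lit 336, nat_lit 9168, nat_lit 10272, R0_7, R8_191, R5_214⟩]⟩]⟩,
 ⟨nat_lit 6, [⟨nat_lit 0, [⟨nat_lit 2, nat_lit 1344, nat_lit 2592, nat_lit 3552, nat_lit 9600, nat_lit 11280, R2_74, R7_200, R13_235⟩]⟩, ⟨nat_lit 1, [⟨nat_lit 2, nat_lit 1440, nat_lit 2640, nat_lit 3024, nat_lit 9696, nat_lit 8880, R1_63, R7_202, R3_185⟩]⟩, ⟨nat_lit 2, [⟨nat_lit 2, nat_lit 1392, nat_lit 2688, nat_lit 15552, nat_lit 9648, nat_lit 11952, R12_324, R7_201, R3_249⟩, ⟨nat_lit 6, nat_lit 3312, nat_lit 480, nat_lit 15504, nat_lit 9504, nat_lit 8352, R12_323,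 R4_198, R2_174⟩]⟩]⟩]], [[], [⟨nat_lit 6, [⟨nat_lit 0, [⟨nat_lit 2, nat_lit 10224, nat_lit 1296, nat_lit 3648, nat_lit 8640, nat_lit 11424, R2_76, R2_180, R13_238⟩]⟩, ⟨nat_lit 1, [⟨nat_lit 2, nat_lit 10320, nat_lit 6432, nat_lit 3120, nat_lit 8736, nat_lit 9024, R1_65, R2_182, R3_188⟩]⟩, ⟨nat_lit 2, [⟨nat_lit 2, nat_lit 10272, nat_lit 10656, nat_lit 16128, nat_lit 8688, nat_lit 12240, R12_336, R2_181, R3_255⟩, ⟨nat_lit 6, nat_lit 12192, nat_lit 10512, nat_lit 16080, nat_lit 12288, nat_lit 8400, R12_335, R3_256, R2_175⟩]⟩]⟩]], [[], [⟨nat_lit 2, [⟨nat_lit 0, [⟨nat_lit 0, nat_lit 5712, nat_lit 624, nat_lit 96, nat_lit 5376, nat_lit 12144, R3_2, R13_112, R6_253⟩, ⟨nat_lit 2, nat_lit 7440, nat_lit 3456, nat_lit 3840, nat_lit 3840, nat_lit 11328, R3_80, R3_80, R13_236⟩]⟩, ⟨nat_lit 1, [⟨nat_lit 0, nat_lit 5760, nat_lit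 720, nat_lit 384, nat_lit 5472, nat_lit 12336, R10_8, R13_114, R4_257⟩, ⟨nat_lit 2, nat_lit 7488, nat_lit 3552, nat_lit 528, nat_lit 4272, nat_lit 8928, R10_11, R3_89, R3_186⟩]⟩, ⟨nat_lit 3, [⟨nat_lit 0, nat_lit 5808, nat_lit 672, nat_lit 192, nat_lit 5424, nat_lit 12960, R0_4, R13_113, R8_270⟩, ⟨nat_lit 2, nat_lit 7536, nat_lit 3504, nat_lit 288, nat_lit 4128, nat_lit 8928, R0_6, R3_86, R9_186⟩, ⟨nat_lit 3, nat_lit 9264, nat_lit 2256, nat_lit 384, nat_lit 4320, nat_lit 10320, R0_8, R9_90, R5_215⟩]⟩]⟩,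
 ⟨nat_lit 6, [⟨nat_lit 0, [⟨nat_lit 2, nat_lit 8064, nat_lit 2592, nat_lit 3792, nat_lit 3792, nat_lit 11376, R2_79, R2_79, R13_237⟩]⟩, ⟨nat_lit 1, [⟨nat_lit 2, nat_lit 8160, nat_lit 2640, nat_lit 3264, nat_lit 3888, nat_lit 8976, R1_68, R2_81, R3_187⟩]⟩, ⟨nat_lit 2, [⟨nat_lit 2, nat_lit 8112, nat_lit 2688, nat_lit 16848, nat_lit 3840, nat_lit 12096, R12_351, R2_80, R3_252⟩]⟩]⟩], [], [], [], [⟨nat_lit 2, [⟨nat_lit 1, [⟨nat_lit 0, nat_lit 5184, nat_lit 240, nat_lit 432, nat_lit 5904, nat_lit 13680, R10_9, R13_123, R7_285⟩, ⟨nat_lit 1, nat_lit 6768, nat_lit 288, nat_lit 624, nat_lit 4176, nat_lit 12432, R10_13, R3_87, R2_259⟩, ⟨nat_lit 2, nat_lit 7152, nat_lit 384, nat_lit 576, nat_lit 4224, nat_lit 12384, R10_12, R3_88, R2_258⟩]⟩]⟩,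
 ⟨nat_lit 6, [⟨nat_lit 1, [⟨nat_lit 2, nat_lit 7680, nat_lit 336, nat_lit 13584, nat_lit 3936, nat_lit 12336, R1_283, R2_82, R2_257⟩]⟩]⟩]]], [[], [], [], [], [[⟨nat_lit 0, [⟨nat_lit 7, [⟨nat_lit 3, nat_lit 1680, nat_lit 2784, nat_lit 1200, nat_lit 8736, nat_lit 9264, R2_25, R6_182, R7_193⟩]⟩]⟩,
 ⟨nat_lit 2, [⟨nat_lit 3, [⟨nat_lit 0, nat_lit 48, nat_lit 2544, nat_lit 480, nat_lit 4848, nat_lit 4848, R11_10, R6_101, R6_101⟩, ⟨nat_lit 2, nat_lit 624, nat_lit 4272, nat_lit 768, nat_lit 5232, nat_lit 8112, R11_16, R4_109, R8_169⟩, ⟨nat_lit 3, nat_lit 1968, nat_lit 3456, nat_lit 1056, nat_lit 8112, nat_lit 5232, R11_22, R8_169, R4_109⟩]⟩, ⟨nat_lit 7, [⟨nat_lit 3, nat_lit 1920, nat_lit 3504, nat_lit 672, nat_lit 8160, nat_lit 9360, R1_14, R8_170, R7_195⟩]⟩]⟩,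
 ⟨nat_lit 3, [⟨nat_lit 4, [⟨nat_lit 7, nat_lit 3744, nat_lit 1104, nat_lit 1200, nat_lit 9264, nat_lit 8736, R2_25, R7_193, R6_182⟩]⟩, ⟨nat_lit 6, [⟨nat_lit 7, nat_lit 3792, nat_lit 1200, nat_lit 672, nat_lit 9360, nat_lit 8160, R1_14, R7_195, R8_170⟩]⟩, ⟨nat_lit 7, [⟨nat_lit 3, nat_lit 2304, nat_lit 3120, nat_lit 384, nat_lit 9360, nat_lit 9312, R12_8, R4_195, R7_194⟩, ⟨nat_lit 7, nat_lit 3840, nat_lit 1152, nat_lit 192, nat_lit 9312, nat_lit 9360, R12_4, R7_194, R4_195⟩]⟩]⟩,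
 ⟨nat_lit 4, [⟨nat_lit 2, [⟨nat_lit 6, nat_lit 2784, nat_lit 1680, nat_lit 1200, nat_lit 8736, nat_lit 9264, R2_25, R6_182, R7_193⟩]⟩]⟩,
 ⟨nat_lit 6, [⟨nat_lit 0, [⟨nat_lit 2, nat_lit 1104, nat_lit 3744, nat_lit 1200, nat_lit 9264, nat_lit 8736, R2_25, R7_193, R6_182⟩]⟩, ⟨nat_lit 2, [⟨nat_lit 2, nat_lit 1152, nat_lit 3840, nat_lit 192, nat_lit 9312, nat_lit 9360, R12_4, R7_194, R4_195⟩, ⟨nat_lit 6, nat_lit 3120, nat_lit 2304, nat_lit 384, nat_lit 9360, nat_lit 9312, R12_8, R4_195, R7_194⟩]⟩, ⟨nat_lit 3, [⟨nat_lit 2, nat_lit 1200, nat_lit 3792, nat_lit 672, nat_lit 9360, nat_lit 8160, R1_14, R7_195, R8_170⟩]⟩]⟩,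
 ⟨nat_lit 7, [⟨nat_lit 2, [⟨nat_lit 6, nat_lit 3504, nat_lit 1920, nat_lit 672, nat_lit 8160, nat_lit 9360, R1_14, R8_170, R7_195⟩]⟩, ⟨nat_lit 6, [⟨nat_lit 4, nat_lit 2544, nat_lit 48, nat_lit 480, nat_lit 4848, nat_lit 4848, R11_10, R6_101, R6_101⟩, ⟨nat_lit 6, nat_lit 3456, nat_lit 1968, nat_lit 1056, nat_lit 8112, nat_lit 5232, R11_22, R8_169, R4_109⟩, ⟨nat_lit 7, nat_lit 4272, nat_lit 624, nat_lit 768, nat_lit 5232, nat_lit 8112, R11_16, R4_109, R8_169⟩]⟩]⟩], [⟨nat_lit 2, [⟨nat_lit 3, [⟨nat_lit 0, nat_lit 336, nat_lit 1872, nat_lit 528, nat_lit 5136, nat_lit 12480, R11_11, R6_107, R8_260⟩, ⟨nat_lit 2, nat_lit 912, nat_lit 3504, nat_lit 816, nat_lit 5424, nat_lit 8976, R11_17, R4_113, R9_187⟩, ⟨nat_lit 3, nat_lit 2112, nat_lit 2544, nat_lit 1104, nat_lit 8832, nat_lit 10368, R11_23, R8_184, R5_216⟩]⟩]⟩,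
 ⟨nat_lit 4, [⟨nat_lit 2, [⟨nat_lit 6, nat_lit 3024, nat_lit 816, nat_lit 1584, nat_lit 8832, nat_lit 8448, R2_33, R6_184, R2_176⟩]⟩]⟩,
 ⟨nat_lit 6, [⟨nat_lit 0, [⟨nat_lit 2, nat_lit 1488, nat_lit 2832, nat_lit 8256, nat_lit 9456, nat_lit 11472, R2_172, R7_197, R13_239⟩]⟩, ⟨nat_lit 2, [⟨nat_lit 2, nat_lit 1536, nat_lit 2928, nat_lit 1200, nat_lit 9504, nat_lit 12000, R12_25, R7_198, R3_250⟩, ⟨nat_lit 6, nat_lit 3360, nat_lit 1536, nat_lit 1488, nat_lit 9456, nat_lit 8496, R12_31, R4_197, R2_177⟩]⟩, ⟨nat_lit 3, [⟨nat_lit 2, nat_lit 1584, nat_lit 2880, nat_lit 9072, nat_lit 9552, nat_lit 9024, R1_189, R7_199, R9_188⟩]⟩]⟩,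
 ⟨nat_lit 7, [⟨nat_lit 2, [⟨nat_lit 6, nat_lit 3696, nat_lit 1104, nat_lit 1056, nat_lit 8304, nat_lit 8544, R1_22, R8_173, R2_178⟩]⟩]⟩], [⟨nat_lit 3, [⟨nat_lit 4, [⟨nat_lit 7, nat_lit 3888, nat_lit 1296, nat_lit 2400, nat_lit 10032, nat_lit 7056, R2_50, R7_209, R8_147⟩]⟩, ⟨nat_lit 6, [⟨nat_lit 7, nat_lit 3936, nat_lit 1392, nat_lit 1872, nat_lit 10128, nat_lit 4032, R1_39, R7_211, R9_84⟩]⟩, ⟨nat_lit 7, [⟨nat_lit 7, nat_lit 3984, nat_lit 1344, nat_lit 240, nat_lit 10080, nat_lit 4848, R12_5, R7_210, R5_101⟩]⟩]⟩,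
 ⟨nat_lit 4, [⟨nat_lit 2, [⟨nat_lit 6, nat_lit 2928, nat_lit 2064, nat_lit 1776, nat_lit 8784, nat_lit 3360, R2_37, R6_183, R2_70⟩]⟩]⟩,
 ⟨nat_lit 6, [⟨nat_lit 2, [⟨nat_lit 6, nat_lit 3216, nat_lit 2784, nat_lit 2448, nat_lit 9408, nat_lit 3408, R12_51, R4_196, R2_71⟩]⟩]⟩,
 ⟨nat_lit 7, [⟨nat_lit 2, [⟨nat_lit 6, nat_lit 3648, nat_lit 2304, nat_lit 1248, nat_lit 8256, nat_lit 3456, R1_26, R8_172, R2_72⟩]⟩, ⟨nat_lit 6, [⟨nat_lit 4, nat_lit 2640, nat_lit 96, nat_lit 3264, nat_lit 6048, nat_lit 5040, R11_68, R6_126, R13_105⟩, ⟨nat_lit 6, nat_lit 3600, nat_lit 2352, nat_lit 3840, nat_lit 8208, nat_lit 3984, R11_80, R8_171, R3_83⟩, ⟨nat_lit 7, nat_lit 4368, nat_lit 816, nat_lit 3600, nat_lit 6384, nat_lit 3984, R11_75, R4_133, R9_83⟩]⟩]⟩], [⟨nat_lit 0, [⟨nat_lit 7, [⟨nat_lit 3, nat_lit 1824, nat_lit 11712, nat_lit 1248,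 nat_lit 9168, nat_lit 9456, R2_26, R6_191, R14_197⟩]⟩]⟩,
 ⟨nat_lit 2, [⟨nat_lit 3, [⟨nat_lit 0, nat_lit 480, nat_lit 16128, nat_lit 576, nat_lit 4896, nat_lit 12192, R11_12, R6_102, R4_254⟩, ⟨nat_lit 2, nat_lit 960, nat_lit 17472, nat_lit 864, nat_lit 5280, nat_lit 14688, R11_18, R4_110, R5_306⟩]⟩, ⟨nat_lit 7, [⟨nat_lit 0, nat_lit 432, nat_lit 15888, nat_lit 48, nat_lit 4944, nat_lit 13344, R1_1, R6_103, R7_278⟩, ⟨nat_lit 3, nat_lit 2256, nat_lit 16848, nat_lit 720, nat_lit 8496, nat_lit 9504, R1_15, R8_177, R14_198⟩]⟩]⟩,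
 ⟨nat_lit 3, [⟨nat_lit 4, [⟨nat_lit 3, nat_lit 2400, nat_lit 13728, nat_lit 144, nat_lit 9888, nat_lit 8304, R2_3, R4_206, R7_173⟩, ⟨nat_lit 7, nat_lit 4128, nat_lit 12480, nat_lit 1968, nat_lit 10704, nat_lit 8304, R2_41, R7_223, R4_173⟩]⟩, ⟨nat_lit 6, [⟨nat_lit 7, nat_lit 4176, nat_lit 12624, nat_lit 1440, nat_lit 10752, nat_lit 4992, R1_30, R7_224, R5_104⟩]⟩, ⟨nat_lit 7, [⟨nat_lit 3, nat_lit 2448, nat_lit 14064, nat_lit 432, nat_lit 9936, nat_lit 9552, R12_9, R4_207, R14_199⟩]⟩]⟩,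
 ⟨nat_lit 6, [⟨nat_lit 3, [⟨nat_lit 2, nat_lit 1632, nat_lit 10608, nat_lit 6192, nat_lit 9408, nat_lit 14544, R1_129, R7_196, R5_303⟩]⟩]⟩,
 ⟨nat_lit 7, [⟨nat_lit 6, [⟨nat_lit 7, nat_lit 4416, nat_lit 4656, nat_lit 1488, nat_lit 6864, nat_lit 5040, R11_31, R4_143, R5_105⟩]⟩]⟩]], [[⟨nat_lit 4, [⟨nat_lit 2, [⟨nat_lit 6, nat_lit 11184, nat_lit 2832, nat_lit 8256, nat_lit 11472, nat_lit 9456, R2_172, R13_239, R7_197⟩]⟩]⟩,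
 ⟨nat_lit 6, [⟨nat_lit 0, [⟨nat_lit 2, nat_lit 9936, nat_lit 816, nat_lit 1584, nat_lit 8448, nat_lit 8832, R2_33, R2_176, R6_184⟩]⟩, ⟨nat_lit 2, [⟨nat_lit 2, nat_lit 9984, nat_lit 1536, nat_lit 7200, nat_lit 8496, nat_lit 9456, R12_150, R2_177, R4_197⟩, ⟨nat_lit 6, nat_lit 11904, nat_lit 2928, nat_lit 7488, nat_lit 12000, nat_lit 9504, R12_156, R3_250, R7_198⟩]⟩, ⟨nat_lit 3, [⟨nat_lit 2, nat_lit 10032, nat_lit 1104, nat_lit 1056, nat_lit 8544, nat_lit 8304, R1_22, R2_178, R8_173⟩]⟩]⟩,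
 ⟨nat_lit 7, [⟨nat_lit 2, [⟨nat_lit 6, nat_lit 12384, nat_lit 2880, nat_lit 9072, nat_lit 9024, nat_lit 9552, R1_189, R9_188, R7_199⟩]⟩, ⟨nat_lit 6, [⟨nat_lit 4, nat_lit 10800, nat_lit 1872, nat_lit 11616, nat_lit 12480, nat_lit 5136, R11_242, R8_260, R6_107⟩, ⟨nat_lit 6, nat_lit 12336, nat_lit 3504, nat_lit 12384, nat_lit 8976, nat_lit 5424, R11_258, R9_187, R4_113⟩, ⟨nat_lit 7, nat_lit 12720, nat_lit 2544, nat_lit 12000, nat_lit 10368, nat_lit 8832, R11_250, R5_216, R8_184⟩]⟩]⟩], [], [⟨nat_lit 4, [⟨nat_lit 2, [⟨nat_lit 6, nat_lit 11424, nat_lit 1296, nat_lit 8640, nat_lit 11520, nat_lit 3648, R2_180, R13_240, R2_76⟩]⟩]⟩,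
 ⟨nat_lit 6, [⟨nat_lit 2, [⟨nat_lit 6, nat_lit 12048, nat_lit 1392, nat_lit 9264, nat_lit 12144, nat_lit 3696, R12_193, R3_253, R2_77⟩]⟩]⟩,
 ⟨nat_lit 7, [⟨nat_lit 2, [⟨nat_lit 6, nat_lit 12576, nat_lit 1344, nat_lit 9456, nat_lit 9120, nat_lit 3744, R1_197, R9_190, R2_78⟩]⟩, ⟨nat_lit 6, [⟨nat_lit 4, nat_lit 10944, nat_lit 192, nat_lit 14304, nat_lit 12912, nat_lit 5328, R11_298, R8_269, R13_111⟩, ⟨nat_lit 6, nat_lit 12528, nat_lit 1968, nat_lit 15168, nat_lit 9072, nat_lit 4080, R11_316, R9_189, R3_85⟩, ⟨nat_lit 7, nat_lit 12864, nat_lit 1008, nat_lit 14784, nat_lit 10416, nat_lit 4272, R11_308, R5_217, R9_89⟩]⟩]⟩], [⟨nat_lit 6, [⟨nat_lit 3, [⟨nat_lit 2, nat_lit 10368, nat_lit 4176, nat_lit 6480, nat_lit 8592, nat_lit 14640, R1_135, R2_179, R5_305⟩]⟩]⟩,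
 ⟨nat_lit 7, [⟨nat_lit 6, [⟨nat_lit 7, nat_lit 12912, nat_lit 14592, nat_lit 13056, nat_lit 10464, nat_lit 5088, R11_272, R5_218, R5_106⟩]⟩]⟩]], [[⟨nat_lit 0, [⟨nat_lit 7, [⟨nat_lit 3, nat_lit 8640, nat_lit 1296, nat_lit 2400, nat_lit 7056, nat_lit 10032, R2_50, R8_147, R7_209⟩]⟩]⟩,
 ⟨nat_lit 2, [⟨nat_lit 3, [⟨nat_lit 0, nat_lit 5568, nat_lit 96, nat_lit 624, nat_lit 5040, nat_lit 6048, R11_13, R13_105, R6_126⟩, ⟨nat_lit 2, nat_lit 7296, nat_lit 2352, nat_lit 912, nat_lit 3984, nat_lit 8208, R11_19, R3_83, R8_171⟩, ⟨nat_lit 3, nat_lit 9168, nat_lit 816, nat_lit 1248, nat_lit 3984, nat_lit 6384, R11_26, R9_83, R4_133⟩]⟩, ⟨nat_lit 7, [⟨nat_lit 3, nat_lit 9120, nat_lit 1392, nat_lit 1872, nat_lit 4032, nat_lit 10128, R1_39, R9_84, R7_211⟩]⟩]⟩,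
 ⟨nat_lit 3, [⟨nat_lit 7, [⟨nat_lit 3, nat_lit 9600, nat_lit 1344, nat_lit 480, nat_lit 4848, nat_lit 10080, R12_10, R5_101, R7_210⟩]⟩]⟩,
 ⟨nat_lit 6, [⟨nat_lit 0, [⟨nat_lit 2, nat_lit 7824, nat_lit 2064, nat_lit 1776, nat_lit 3360, nat_lit 8784, R2_37, R2_70, R6_183⟩]⟩, ⟨nat_lit 2, [⟨nat_lit 2, nat_lit 7872, nat_lit 2784, nat_lit 10224, nat_lit 3408, nat_lit 9408, R12_213, R2_71, R4_196⟩]⟩, ⟨nat_lit 3, [⟨nat_lit 2, nat_lit 7920, nat_lit 2304, nat_lit 1248, nat_lit 3456, nat_lit 8256, R1_26, R2_72, R8_172⟩]⟩]⟩], [⟨nat_lit 2, [⟨nat_lit 3, [⟨nat_lit 0, nat_lit 5856, nat_lit 192, nat_lit 672, nat_lit 5328, nat_lit 12912, R11_14, R13_111, R8_269⟩, ⟨nat_lit 2, nat_lit 7584, nat_lit 1968, nat_lit 960, nat_lit 4080, nat_lit 9072, R11_20, R3_85, R9_189⟩, ⟨nat_lit 3, nat_lit 9312, nat_lit 1008, nat_lit 1296, nat_lit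 4272, nat_lit 10416, R11_27, R9_89, R5_217⟩]⟩]⟩,
 ⟨nat_lit 6, [⟨nat_lit 0, [⟨nat_lit 2, nat_lit 8208, nat_lit 1296, nat_lit 8640, nat_lit 3648, nat_lit 11520, R2_180, R2_76, R13_240⟩]⟩, ⟨nat_lit 2, [⟨nat_lit 2, nat_lit 8256, nat_lit 1392, nat_lit 10944, nat_lit 3696, nat_lit 12144, R12_228, R2_77, R3_253⟩]⟩, ⟨nat_lit 3, [⟨nat_lit 2, nat_lit 8304, nat_lit 1344, nat_lit 9456, nat_lit 3744, nat_lit 9120, R1_197, R2_78, R9_190⟩]⟩]⟩], [], [⟨nat_lit 0, [⟨nat_lit 7, [⟨nat_lit 0, nat_lit 4944, nat_lit 96, nat_lit 912, nat_lit 4992, nat_lit 13536, R2_19, R6_104, R7_282⟩, ⟨nat_lit 3, nat_lit 8784, nat_lit 1008, nat_lit 2448, nat_lit 7104, nat_lit 9600, R2_51, R8_148, R14_200⟩]⟩]⟩,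
 ⟨nat_lit 2, [⟨nat_lit 3, [⟨nat_lit 0, nat_lit 6000, nat_lit 384, nat_lit 720, nat_lit 5088, nat_lit 12336, R11_15, R13_106, R4_257⟩, ⟨nat_lit 2, nat_lit 7632, nat_lit 2496, nat_lit 1008, nat_lit 4032, nat_lit 14736, R11_21, R3_84, R5_307⟩]⟩, ⟨nat_lit 7, [⟨nat_lit 0, nat_lit 5952, nat_lit 432, nat_lit 240, nat_lit 5136, nat_lit 13632, R1_5, R13_107, R7_284⟩, ⟨nat_lit 3, nat_lit 9456, nat_lit 2064, nat_lit 1920, nat_lit 4080, nat_lit 9648, R1_40, R9_85, R14_201⟩]⟩]⟩,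
 ⟨nat_lit 3, [⟨nat_lit 4, [⟨nat_lit 3, nat_lit 9696, nat_lit 1392, nat_lit 192, nat_lit 4896, nat_lit 8352, R2_4, R5_102, R7_174⟩]⟩, ⟨nat_lit 7, [⟨nat_lit 3, nat_lit 9744, nat_lit 1440, nat_lit 528, nat_lit 4944, nat_lit 9696, R12_11, R5_103, R14_202⟩]⟩]⟩,
 ⟨nat_lit 6, [⟨nat_lit 3, [⟨nat_lit 2, nat_lit 8352, nat_lit 2256, nat_lit 6672, nat_lit 3504, nat_lit 14592, R1_139, R2_73, R5_304⟩]⟩]⟩]], [[⟨nat_lit 0, [⟨nat_lit 7, [⟨nat_lit 3, nat_lit 13008, nat_lit 12480, nat_lit 1968, nat_lit 8304, nat_lit 10704, R2_41, R4_173, R7_223⟩, ⟨nat_lit 7, nat_lit 14208, nat_lit 13728, nat_lit 144, nat_lit 8304, nat_lit 9888, R2_3, R7_173, R4_206⟩]⟩]⟩,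
 ⟨nat_lit 2, [⟨nat_lit 3, [⟨nat_lit 3, nat_lit 13248, nat_lit 4656, nat_lit 1152, nat_lit 5040, nat_lit 6864, R11_24, R5_105, R4_143⟩]⟩, ⟨nat_lit 7, [⟨nat_lit 3, nat_lit 13200, nat_lit 12624, nat_lit 1440, nat_lit 4992, nat_lit 10752, R1_30, R5_104, R7_224⟩]⟩]⟩,
 ⟨nat_lit 3, [⟨nat_lit 4, [⟨nat_lit 7, nat_lit 14640, nat_lit 11712, nat_lit 1248, nat_lit 9456, nat_lit 9168, R2_26, R14_197, R6_191⟩]⟩, ⟨nat_lit 6, [⟨nat_lit 4, nat_lit 13488, nat_lit 15888, nat_lit 48, nat_lit 13344, nat_lit 4944, R1_1, R7_278, R6_103⟩, ⟨nat_lit 7, nat_lit 14688, nat_lit 16848, nat_lit 720, nat_lit 9504, nat_lit 8496, R1_15, R14_198, R8_177⟩]⟩, ⟨nat_lit 7, [⟨nat_lit 7, nat_lit 14736, nat_lit 14064, nat_lit 288, nat_lit 9552, nat_lit 9936, R12_6, R14_199, R4_207⟩]⟩]⟩,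
 ⟨nat_lit 7, [⟨nat_lit 2, [⟨nat_lit 6, nat_lit 13872, nat_lit 10608, nat_lit 6192, nat_lit 14544, nat_lit 9408, R1_129, R5_303, R7_196⟩]⟩, ⟨nat_lit 6, [⟨nat_lit 4, nat_lit 13728, nat_lit 16128, nat_lit 7824, nat_lit 12192, nat_lit 4896, R11_163, R4_254, R6_102⟩, ⟨nat_lit 6, nat_lit 13824, nat_lit 17472, nat_lit 8112, nat_lit 14688, nat_lit 5280, R11_169, R5_306, R4_110⟩]⟩]⟩], [⟨nat_lit 2, [⟨nat_lit 3, [⟨nat_lit 3, nat_lit 13296, nat_lit 14592, nat_lit 1200, nat_lit 5088, nat_lit 10464, R11_25, R5_106, R5_218⟩]⟩]⟩,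
 ⟨nat_lit 7, [⟨nat_lit 2, [⟨nat_lit 6, nat_lit 14016, nat_lit 4176, nat_lit 6480, nat_lit 14640, nat_lit 8592, R1_135, R5_305, R2_179⟩]⟩]⟩], [⟨nat_lit 0, [⟨nat_lit 7, [⟨nat_lit 7, nat_lit 14400, nat_lit 1392, nat_lit 192, nat_lit 8352, nat_lit 4896, R2_4, R7_174, R5_102⟩]⟩]⟩,
 ⟨nat_lit 3, [⟨nat_lit 4, [⟨nat_lit 4, nat_lit 13632, nat_lit 96, nat_lit 912, nat_lit 13536, nat_lit 4992, R2_19, R7_282, R6_104⟩, ⟨nat_lit 7, nat_lit 14880, nat_lit 1008, nat_lit 2448, nat_lit 9600, nat_lit 7104, R2_51, R14_200, R8_148⟩]⟩, ⟨nat_lit 6, [⟨nat_lit 4, nat_lit 13680, nat_lit 432, nat_lit 240, nat_lit 13632, nat_lit 5136, R1_5, R7_284, R13_107⟩, ⟨nat_lit 7, nat_lit 14928, nat_lit 2064, nat_lit 1920, nat_lit 9648, nat_lit 4080, R1_40, R14_201, R9_85⟩]⟩, ⟨nat_lit 7, [⟨nat_lit 7, nat_lit 14976, nat_lit 1440, nat_lit 336, nat_lit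 9696, nat_lit 4944, R12_7, R14_202, R5_103⟩]⟩]⟩,
 ⟨nat_lit 7, [⟨nat_lit 2, [⟨nat_lit 6, nat_lit 13968, nat_lit 2256, nat_lit 6672, nat_lit 14592, nat_lit 3504, R1_139, R5_304, R2_73⟩]⟩, ⟨nat_lit 6, [⟨nat_lit 4, nat_lit 13776, nat_lit 384, nat_lit 9504, nat_lit 12336, nat_lit 5088, R11_198, R4_257, R13_106⟩, ⟨nat_lit 6, nat_lit 13920, nat_lit 2496, nat_lit 9840, nat_lit 14736, nat_lit 4032, R11_205, R5_307, R3_84⟩]⟩]⟩]]]]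
noncomputable def N3753 : T3 (List N0) := [[[[], [], [⟨nat_lit 1, [⟨nat_lit 6, [⟨nat_lit 4, nat_lit 2832, nat_lit 6240, nat_lit 3648, nat_lit 6000, nat_lit 17424, R5_76, R4_125, R3_363⟩, ⟨nat_lit 5, nat_lit 3216, nat_lit 6720, nat_lit 3792, nat_lit 1104, nat_lit 6192, R5_79, R3_23, R10_129⟩]⟩]⟩], [], [], [], [⟨nat_lit 1, [⟨nat_lit 6, [⟨nat_lit 5, nat_lit 3600, nat_lit 6528, nat_lit 2832, nat_lit 1872, nat_lit 5232, R5_59, R3_39, R1_109⟩]⟩]⟩]], [], [[], [], [], [], [⟨nat_lit 1, [⟨nat_lit 4, [⟨nat_lit 1, nat_lit 720, nat_lit 2448, nat_lit 3936, nat_lit 9600, nat_lit 1440, R8_82, R1_200, R8_30⟩]⟩, ⟨nat_lit 5, [⟨nat_lit 1, nat_lit 8544, nat_lit 7872, nat_lit 12000, nat_lit 9792, nat_lit 768, R9_250, R1_204, R9_16⟩]⟩, ⟨nat_lit 6, [⟨nat_lit 1, nat_lit 5952, nat_lit 11760, nat_lit 13680, nat_lit 9696, nat_lit 15216,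 R5_285, R1_202, R5_317⟩]⟩]⟩], [], [⟨nat_lit 1, [⟨nat_lit 4, [⟨nat_lit 1, nat_lit 816, nat_lit 20064, nat_lit 11904, nat_lit 9648, nat_lit 6384, R8_248, R1_201, R5_133⟩]⟩, ⟨nat_lit 5, [⟨nat_lit 1, nat_lit 8880, nat_lit 20736, nat_lit 12672, nat_lit 9840, nat_lit 13008, R9_264, R1_205, R0_271⟩]⟩, ⟨nat_lit 6, [⟨nat_lit 1, nat_lit 6048, nat_lit 21360, nat_lit 13968, nat_lit 9744, nat_lit 6000, R5_291, R1_203, R11_125⟩, ⟨nat_lit 5, nat_lit 3648, nat_lit 21408, nat_lit 14064, nat_lit 10848, nat_lit 5280, R5_293, R10_226, R1_110⟩]⟩]⟩]], [[], [], [⟨nat_lit 1, [⟨nat_lit 6, [⟨nat_lit 4, nat_lit 2880, nat_lit 11616, nat_lit 11856, nat_lit 10704, nat_lit 17712, R5_247, R5_223, R3_369⟩, ⟨nat_lit 5, nat_lit 3264, nat_lit 12384, nat_lit 12144, nat_lit 8688, nat_lit 6240, R5_253, R0_181, R10_130⟩, ⟨nat_lit 7, nat_lit 4848,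 nat_lit 12048, nat_lit 12000, nat_lit 13776, nat_lit 4608, R5_250, R11_287, R0_96⟩]⟩]⟩]], [], [], [[], [], [], [], [⟨nat_lit 0, [⟨nat_lit 4, [⟨nat_lit 0, nat_lit 0, nat_lit 1968, nat_lit 14784, nat_lit 12624, nat_lit 720, R6_308, R8_263, R6_15⟩, ⟨nat_lit 1, nat_lit 576, nat_lit 2448, nat_lit 16656, nat_lit 8592, nat_lit 816, R6_347, R5_179, R8_17⟩]⟩, ⟨nat_lit 5, [⟨nat_lit 0, nat_lit 7200, nat_lit 7488, nat_lit 17952, nat_lit 16800, nat_lit 5328, R8_374, R8_350, R8_111⟩, ⟨nat_lit 1, nat_lit 8304, nat_lit 7776, nat_lit 18048, nat_lit 10032, nat_lit 288, R8_376, R5_209, R9_6⟩]⟩, ⟨nat_lit 6, [⟨nat_lit 0, nat_lit 5568, nat_lit 10896, nat_lit 14352, nat_lit 13536, nat_lit 9024, R4_299, R8_282, R4_188⟩, ⟨nat_lit 1, nat_lit 5856, nat_lit 11280, nat_lit 15264, nat_lit 9072, nat_lit 5328, R4_318, R5_189, R5_111⟩]⟩]⟩,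
 ⟨nat_lit 1, [⟨nat_lit 4, [⟨nat_lit 0, nat_lit 96, nat_lit 2016, nat_lit 4320, nat_lit 1824, nat_lit 2880, R8_90, R5_38, R6_60⟩, ⟨nat_lit 1, nat_lit 672, nat_lit 2496, nat_lit 4368, nat_lit 11040, nat_lit 960, R8_91, R11_230, R8_20⟩]⟩, ⟨nat_lit 5, [⟨nat_lit 0, nat_lit 7392, nat_lit 7536, nat_lit 17760, nat_lit 2304, nat_lit 5424, R9_370, R5_48, R8_113⟩, ⟨nat_lit 1, nat_lit 8496, nat_lit 7824, nat_lit 17856, nat_lit 12480, nat_lit 432, R9_372, R11_260, R9_9⟩]⟩, ⟨nat_lit 6, [⟨nat_lit 0, nat_lit 5616, nat_lit 10944, nat_lit 17568, nat_lit 2016, nat_lit 10608, R5_366, R5_42, R4_221⟩, ⟨nat_lit 1, nat_lit 5904, nat_lit 11328, nat_lit 17616, nat_lit 11520, nat_lit 5376, R5_367, R11_240, R5_112⟩]⟩]⟩,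
 ⟨nat_lit 2, [⟨nat_lit 4, [⟨nat_lit 0, nat_lit 48, nat_lit 2160, nat_lit 288, nat_lit 2160, nat_lit 1296, R4_6, R9_45, R6_27⟩, ⟨nat_lit 1, nat_lit 624, nat_lit 2592, nat_lit 2592, nat_lit 624, nat_lit 912, R4_54, R0_13, R8_19⟩, ⟨nat_lit 2, nat_lit 432, nat_lit 2880, nat_lit 864, nat_lit 11664, nat_lit 1200, R4_18, R0_243, R4_25⟩]⟩, ⟨nat_lit 5, [⟨nat_lit 0, nat_lit 7296, nat_lit 7680, nat_lit 3888, nat_lit 2592, nat_lit 5376, R5_81, R9_54, R8_112⟩, ⟨nat_lit 1, nat_lit 8400, nat_lit 7920, nat_lit 4176, nat_lit 1056, nat_lit 384, R5_87, R0_22, R9_8⟩, ⟨nat_lit 2, nat_lit 8016, nat_lit 8064, nat_lit 4032, nat_lit 14496, nat_lit 192, R5_84, R0_302, R5_4⟩]⟩]⟩], [], [], [⟨nat_lit 0, [⟨nat_lit 4, [⟨nat_lit 0, nat_lit 144, nat_lit 1104, nat_lit 15072, nat_lit 12768, nat_lit 4704, R6_314, R8_266, R13_98⟩, ⟨nat_lit 1, nat_lit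 960, nat_lit 1728, nat_lit 16992, nat_lit 8640, nat_lit 3840, R6_354, R5_180, R9_80⟩, ⟨nat_lit 3, nat_lit 1920, nat_lit 1392, nat_lit 15696, nat_lit 8208, nat_lit 480, R6_327, R9_171, R3_10⟩]⟩, ⟨nat_lit 5, [⟨nat_lit 0, nat_lit 7632, nat_lit 9456, nat_lit 18768, nat_lit 17088, nat_lit 16416, R8_391, R8_356, R9_342⟩, ⟨nat_lit 3, nat_lit 9024, nat_lit 9840, nat_lit 18864, nat_lit 8736, nat_lit 7680, R8_393, R9_182, R0_160⟩]⟩, ⟨nat_lit 6, [⟨nat_lit 0, nat_lit 5664, nat_lit 13152, nat_lit 14496, nat_lit 13824, nat_lit 16464, R4_302, R8_288, R3_343⟩, ⟨nat_lit 1, nat_lit 6192, nat_lit 13440, nat_lit 15408, nat_lit 9120, nat_lit 2304, R4_321, R5_190, R0_48⟩, ⟨nat_lit 3, nat_lit 6960, nat_lit 13296, nat_lit 14832, nat_lit 8352, nat_lit 3120, R4_309, R9_174, R10_65⟩]⟩]⟩,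
 ⟨nat_lit 1, [⟨nat_lit 4, [⟨nat_lit 0, nat_lit 336, nat_lit 2256, nat_lit 9168, nat_lit 10272, nat_lit 8496, R8_191, R5_214, R13_177⟩, ⟨nat_lit 1, nat_lit 1152, nat_lit 2496, nat_lit 9264, nat_lit 11088, nat_lit 6144, R8_193, R11_231, R9_128⟩, ⟨nat_lit 3, nat_lit 2016, nat_lit 2352, nat_lit 9216, nat_lit 7440, nat_lit 2592, R8_192, R0_155, R3_54⟩]⟩, ⟨nat_lit 5, [⟨nat_lit 0, nat_lit 7920, nat_lit 11088, nat_lit 18000, nat_lit 11136, nat_lit 18048, R9_375, R5_232, R9_376⟩, ⟨nat_lit 3, nat_lit 9168, nat_lit 11184, nat_lit 18096, nat_lit 7968, nat_lit 9072, R9_377, R0_166, R0_189⟩]⟩, ⟨nat_lit 6, [⟨nat_lit 0, nat_lit 5760, nat_lit 13488, nat_lit 17664, nat_lit 10752, nat_lit 17760, R5_368, R5_224, R3_370⟩, ⟨nat_lit 1, nat_lit 6288, nat_lit 13584, nat_lit 17760, nat_lit 11568, nat_lit 3984, R5_370, R11_241, R0_83⟩,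 ⟨nat_lit 3, nat_lit 7056, nat_lit 13536, nat_lit 17712, nat_lit 7584, nat_lit 5808, R5_369, R0_158, R10_121⟩]⟩]⟩,
 ⟨nat_lit 2, [⟨nat_lit 4, [⟨nat_lit 0, nat_lit 240, nat_lit 3504, nat_lit 5520, nat_lit 8880, nat_lit 6336, R4_115, R9_185, R13_132⟩, ⟨nat_lit 1, nat_lit 1056, nat_lit 4176, nat_lit 7920, nat_lit 8400, nat_lit 4752, R4_165, R0_175, R9_99⟩, ⟨nat_lit 2, nat_lit 480, nat_lit 4272, nat_lit 7248, nat_lit 11904, nat_lit 4608, R4_151, R0_248, R3_96⟩]⟩, ⟨nat_lit 5, [⟨nat_lit 0, nat_lit 7776, nat_lit 11712, nat_lit 12240, nat_lit 9648, nat_lit 17280, R5_255, R9_201, R9_360⟩, ⟨nat_lit 2, nat_lit 8160, nat_lit 12624, nat_lit 12480, nat_lit 14784, nat_lit 14880, R5_260, R0_308, R0_310⟩]⟩]⟩]]], [[[], [], [⟨nat_lit 1, [⟨nat_lit 6, [⟨nat_lit 4, nat_lit 2928, nat_lit 1152, nat_lit 3648, nat_lit 6576, nat_lit 17520,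 R11_76, R4_137, R3_365⟩, ⟨nat_lit 5, nat_lit 3312, nat_lit 6336, nat_lit 3792, nat_lit 6288, nat_lit 6336, R11_79, R3_131, R10_132⟩]⟩]⟩,
 ⟨nat_lit 5, [⟨nat_lit 6, [⟨nat_lit 4, nat_lit 2592, nat_lit 2016, nat_lit 7296, nat_lit 6192, nat_lit 10656, R1_152, R7_129, R3_222⟩, ⟨nat_lit 5, nat_lit 3120, nat_lit 6960, nat_lit 7680, nat_lit 4368, nat_lit 6432, R1_160, R2_91, R10_134⟩, ⟨nat_lit 7, nat_lit 4464, nat_lit 8496, nat_lit 7392, nat_lit 9504, nat_lit 5040, R1_154, R2_198, R0_105⟩]⟩]⟩], [], [], [], [⟨nat_lit 1, [⟨nat_lit 6, [⟨nat_lit 5, nat_lit 3696, nat_lit 4704, nat_lit 2832, nat_lit 6816, nat_lit 5472, R11_59, R3_142, R1_114⟩]⟩]⟩,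
 ⟨nat_lit 5, [⟨nat_lit 6, [⟨nat_lit 5, nat_lit 3456, nat_lit 13680, nat_lit 7536, nat_lit 13536, nat_lit 5568, R1_157, R2_282, R1_116⟩]⟩]⟩]], [[], [], [⟨nat_lit 5, [⟨nat_lit 6, [⟨nat_lit 4, nat_lit 2640, nat_lit 16464, nat_lit 7344, nat_lit 17952, nat_lit 10848, R1_153, R14_374, R3_226⟩, ⟨nat_lit 5, nat_lit 3168, nat_lit 18000, nat_lit 7728, nat_lit 15072, nat_lit 6480, R1_161, R12_314, R10_135⟩, ⟨nat_lit 7, nat_lit 4512, nat_lit 17376, nat_lit 7440, nat_lit 9072, nat_lit 5136, R1_155, R12_189, R0_107⟩]⟩]⟩], [], [], [], [⟨nat_lit 5, [⟨nat_lit 6, [⟨nat_lit 5, nat_lit 3552, nat_lit 15024, nat_lit 7584, nat_lit 14880, nat_lit 5664, R1_158, R12_310, R1_118⟩]⟩]⟩]], [[], [], [], [], [], [], [⟨nat_lit 1, [⟨nat_lit 4, [⟨nat_lit 1, nat_lit 864, nat_lit 15840, nat_lit 7632, nat_lit 9888, nat_lit 7248, R5_159, R1_206,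 R5_151⟩]⟩, ⟨nat_lit 5, [⟨nat_lit 1, nat_lit 8976, nat_lit 16512, nat_lit 10848, nat_lit 9984, nat_lit 13872, R0_226, R1_208, R0_289⟩]⟩, ⟨nat_lit 6, [⟨nat_lit 1, nat_lit 6096, nat_lit 17136, nat_lit 17040, nat_lit 9936, nat_lit 6864, R11_355, R1_207, R11_143⟩, ⟨nat_lit 5, nat_lit 3744, nat_lit 17184, nat_lit 17136, nat_lit 10896, nat_lit 5520, R11_357, R10_227, R1_115⟩]⟩]⟩,
 ⟨nat_lit 5, [⟨nat_lit 6, [⟨nat_lit 5, nat_lit 3504, nat_lit 15456, nat_lit 7632, nat_lit 14880, nat_lit 5616, R1_159, R1_310, R1_117⟩]⟩]⟩]], [[], [], [⟨nat_lit 1, [⟨nat_lit 6, [⟨nat_lit 4, nat_lit 2976, nat_lit 10320, nat_lit 14832, nat_lit 10896, nat_lit 17904, R11_309, R5_227, R3_373⟩, ⟨nat_lit 5, nat_lit 3360, nat_lit 10368, nat_lit 15120, nat_lit 8736, nat_lit 6384, R11_315, R0_182, R10_133⟩, ⟨nat_lit 7, nat_lit 4896, nat_lit 10416, nat_lit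 14976, nat_lit 13824, nat_lit 4752, R11_312, R11_288, R0_99⟩]⟩]⟩,
 ⟨nat_lit 5, [⟨nat_lit 6, [⟨nat_lit 7, nat_lit 4560, nat_lit 10464, nat_lit 7488, nat_lit 10320, nat_lit 5088, R1_156, R1_215, R0_106⟩]⟩]⟩]]], [[], [], [[], [], [], [], [⟨nat_lit 1, [⟨nat_lit 5, [⟨nat_lit 1, nat_lit 8640, nat_lit 6720, nat_lit 1584, nat_lit 10368, nat_lit 6048, R0_33, R1_216, R9_126⟩]⟩]⟩], [], [⟨nat_lit 1, [⟨nat_lit 5, [⟨nat_lit 1, nat_lit 8928, nat_lit 16752, nat_lit 11040, nat_lit 10416, nat_lit 13728, R0_230, R1_217, R0_286⟩]⟩]⟩]], [], [], [], [[], [], [], [], [⟨nat_lit 0, [⟨nat_lit 5, [⟨nat_lit 0, nat_lit 7248, nat_lit 2544, nat_lit 9792, nat_lit 16944, nat_lit 5856, R5_204, R8_353, R8_122⟩, ⟨nat_lit 1, nat_lit 8352, nat_lit 7296, nat_lit 12096, nat_lit 12336, nat_lit 5424, R5_252, R5_257, R9_113⟩]⟩]⟩,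
 ⟨nat_lit 1, [⟨nat_lit 5, [⟨nat_lit 0, nat_lit 7440, nat_lit 2592, nat_lit 2016, nat_lit 2352, nat_lit 5952, R0_42, R5_49, R8_124⟩, ⟨nat_lit 1, nat_lit 8592, nat_lit 7344, nat_lit 2064, nat_lit 15312, nat_lit 5568, R0_43, R11_319, R9_116⟩]⟩]⟩,
 ⟨nat_lit 2, [⟨nat_lit 5, [⟨nat_lit 0, nat_lit 7344, nat_lit 2640, nat_lit 12240, nat_lit 2640, nat_lit 5904, R11_255, R9_55, R8_123⟩, ⟨nat_lit 1, nat_lit 8448, nat_lit 7392, nat_lit 15072, nat_lit 1104, nat_lit 5520, R11_314, R0_23, R9_115⟩, ⟨nat_lit 2, nat_lit 8064, nat_lit 10176, nat_lit 13296, nat_lit 14640, nat_lit 5856, R11_277, R0_305, R5_122⟩]⟩]⟩], [⟨nat_lit 2, [⟨nat_lit 1, [⟨nat_lit 2, nat_lit 14304, nat_lit 12144, nat_lit 8928, nat_lit 10080, nat_lit 16272, R1_186, R0_210, R1_339⟩]⟩, ⟨nat_lit 5, [⟨nat_lit 0, nat_lit 7536, nat_lit 11904, nat_lit 12336, nat_lit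 11568, nat_lit 17376, R11_257, R9_241, R5_362⟩, ⟨nat_lit 1, nat_lit 8736, nat_lit 12048, nat_lit 15120, nat_lit 10368, nat_lit 3360, R11_315, R0_216, R0_70⟩, ⟨nat_lit 2, nat_lit 8112, nat_lit 12096, nat_lit 13392, nat_lit 15216, nat_lit 5472, R11_279, R0_317, R11_114⟩]⟩]⟩], [], [⟨nat_lit 0, [⟨nat_lit 5, [⟨nat_lit 0, nat_lit 7680, nat_lit 9024, nat_lit 9840, nat_lit 17376, nat_lit 16512, R5_205, R8_362, R9_344⟩, ⟨nat_lit 3, nat_lit 9072, nat_lit 9168, nat_lit 11184, nat_lit 10080, nat_lit 7968, R5_233, R9_210, R0_166⟩]⟩]⟩,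
 ⟨nat_lit 1, [⟨nat_lit 5, [⟨nat_lit 0, nat_lit 7968, nat_lit 9072, nat_lit 9168, nat_lit 11184, nat_lit 18096, R0_191, R5_233, R9_377⟩, ⟨nat_lit 3, nat_lit 9216, nat_lit 9216, nat_lit 9216, nat_lit 9216, nat_lit 9216, R0_192, R0_192, R0_192⟩]⟩]⟩,
 ⟨nat_lit 2, [⟨nat_lit 5, [⟨nat_lit 0, nat_lit 7824, nat_lit 9120, nat_lit 12288, nat_lit 9744, nat_lit 17376, R11_256, R9_203, R9_362⟩, ⟨nat_lit 2, nat_lit 8208, nat_lit 9264, nat_lit 13344, nat_lit 15072, nat_lit 14976, R11_278, R0_314, R0_312⟩]⟩]⟩]]], [[[], [], [], [], [], [], [⟨nat_lit 1, [⟨nat_lit 6, [⟨nat_lit 5, nat_lit 3792, nat_lit 9648, nat_lit 6576, nat_lit 8448, nat_lit 5328, R0_137, R3_176, R1_111⟩]⟩]⟩]], [], [[], [], [], [], [⟨nat_lit 1, [⟨nat_lit 4, [⟨nat_lit 1, nat_lit 768, nat_lit 2640, nat_lit 6288, nat_lit 10032, nat_lit 7392, R9_131, R1_209, R8_154⟩]⟩,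 ⟨nat_lit 6, [⟨nat_lit 1, nat_lit 6000, nat_lit 11376, nat_lit 4128, nat_lit 10176, nat_lit 15792, R0_86, R1_212, R5_329⟩]⟩]⟩], [], [⟨nat_lit 1, [⟨nat_lit 4, [⟨nat_lit 1, nat_lit 912, nat_lit 7344, nat_lit 7488, nat_lit 10080, nat_lit 6816, R9_156, R1_210, R5_142⟩]⟩, ⟨nat_lit 6, [⟨nat_lit 1, nat_lit 6144, nat_lit 9168, nat_lit 5328, nat_lit 10224, nat_lit 6432, R0_111, R1_213, R11_134⟩, ⟨nat_lit 5, nat_lit 3840, nat_lit 9504, nat_lit 6672, nat_lit 10944, nat_lit 5376, R0_139, R10_228, R1_112⟩]⟩]⟩], [⟨nat_lit 1, [⟨nat_lit 4, [⟨nat_lit 1, nat_lit 1248, nat_lit 2112, nat_lit 7104, nat_lit 10128, nat_lit 6864, R9_148, R1_211, R9_143⟩]⟩, ⟨nat_lit 6, [⟨nat_lit 1, nat_lit 6384, nat_lit 11952, nat_lit 4944, nat_lit 10272, nat_lit 4704, R0_103, R1_214, R0_98⟩]⟩]⟩]], [[], [], [⟨nat_lit 1, [⟨nat_lit 6, [⟨nat_lit 4, nat_lit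 3024, nat_lit 14592, nat_lit 5808, nat_lit 10800, nat_lit 17808, R0_121, R5_225, R3_371⟩, ⟨nat_lit 5, nat_lit 3408, nat_lit 15360, nat_lit 7104, nat_lit 8784, nat_lit 6288, R0_148, R0_183, R10_131⟩, ⟨nat_lit 7, nat_lit 4992, nat_lit 15024, nat_lit 6336, nat_lit 13872, nat_lit 4656, R0_132, R11_289, R0_97⟩]⟩]⟩], [], [], [], [⟨nat_lit 1, [⟨nat_lit 6, [⟨nat_lit 5, nat_lit 3888, nat_lit 10464, nat_lit 6624, nat_lit 8832, nat_lit 5424, R0_138, R0_184, R1_113⟩]⟩]⟩]], [[], [], [], [⟨nat_lit 0, [⟨nat_lit 4, [⟨nat_lit 3, nat_lit 1296, nat_lit 8640, nat_lit 11424, nat_lit 10224, nat_lit 3648, R13_238, R13_213, R2_76⟩]⟩, ⟨nat_lit 6, [⟨nat_lit 3, nat_lit 6432, nat_lit 8736, nat_lit 9024, nat_lit 10320, nat_lit 3120, R3_188, R13_215, R1_65⟩]⟩, ⟨nat_lit 7, [⟨nat_lit 3, nat_lit 10656, nat_lit 8688, nat_lit 12240, nat_lit 10272,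 nat_lit 4608, R3_255, R13_214, R12_96⟩]⟩]⟩,
 ⟨nat_lit 1, [⟨nat_lit 4, [⟨nat_lit 3, nat_lit 1536, nat_lit 9552, nat_lit 5952, nat_lit 8352, nat_lit 6624, R9_124, R3_174, R2_138⟩]⟩, ⟨nat_lit 6, [⟨nat_lit 3, nat_lit 6576, nat_lit 9648, nat_lit 3792, nat_lit 8448, nat_lit 5328, R0_79, R3_176, R1_111⟩]⟩, ⟨nat_lit 7, [⟨nat_lit 3, nat_lit 10992, nat_lit 9600, nat_lit 13440, nat_lit 8400, nat_lit 5232, R0_280, R3_175, R12_109⟩]⟩]⟩,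
 ⟨nat_lit 2, [⟨nat_lit 4, [⟨nat_lit 3, nat_lit 1440, nat_lit 10176, nat_lit 6864, nat_lit 7872, nat_lit 4512, R3_143, R9_164, R2_94⟩]⟩, ⟨nat_lit 7, [⟨nat_lit 0, nat_lit 9696, nat_lit 8112, nat_lit 9168, nat_lit 14976, nat_lit 15072, R10_191, R8_312, R2_314⟩, ⟨nat_lit 2, nat_lit 10176, nat_lit 10272, nat_lit 10080, nat_lit 7872, nat_lit 16080, R10_210, R5_164, R1_335⟩, ⟨nat_lit 3, nat_lit 10896, nat_lit 10224, nat_lit 10656, nat_lit 7920, nat_lit 4896, R10_222, R9_165, R12_102⟩]⟩]⟩,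
 ⟨nat_lit 3, [⟨nat_lit 4, [⟨nat_lit 3, nat_lit 1824, nat_lit 9936, nat_lit 13296, nat_lit 12864, nat_lit 4992, R3_277, R3_268, R2_104⟩]⟩, ⟨nat_lit 6, [⟨nat_lit 3, nat_lit 6864, nat_lit 9984, nat_lit 5520, nat_lit 12960, nat_lit 3696, R10_115, R3_270, R1_77⟩, ⟨nat_lit 7, nat_lit 5472, nat_lit 7392, nat_lit 8016, nat_lit 7344, nat_lit 6240, R10_167, R2_153, R11_130⟩]⟩]⟩]], [], [[], [], [], [⟨nat_lit 0, [⟨nat_lit 4, [⟨nat_lit 3, nat_lit 1344, nat_lit 9456, nat_lit 12576, nat_lit 9120, nat_lit 3744, R13_262, R9_190, R2_78⟩]⟩, ⟨nat_lit 6, [⟨nat_lit 3, nat_lit 6480, nat_lit 9552, nat_lit 9456, nat_lit 9312, nat_lit 3216, R3_197, R9_194, R1_67⟩]⟩, ⟨nat_lit 7, [⟨nat_lit 3, nat_lit 10704, nat_lit 9504, nat_lit 17088, nat_lit 9408, nat_lit 4656, R3_356, R9_196, R12_97⟩]⟩]⟩,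
 ⟨nat_lit 1, [⟨nat_lit 4, [⟨nat_lit 3, nat_lit 1584, nat_lit 10368, nat_lit 6048, nat_lit 8640, nat_lit 6720, R9_126, R0_180, R2_140⟩]⟩, ⟨nat_lit 6, [⟨nat_lit 3, nat_lit 6624, nat_lit 10464, nat_lit 3888, nat_lit 8832, nat_lit 5424, R0_81, R0_184, R1_113⟩]⟩, ⟨nat_lit 7, [⟨nat_lit 3, nat_lit 11040, nat_lit 10416, nat_lit 13728, nat_lit 8928, nat_lit 5280, R0_286, R0_186, R12_110⟩]⟩]⟩,
 ⟨nat_lit 2, [⟨nat_lit 7, [⟨nat_lit 0, nat_lit 9744, nat_lit 8640, nat_lit 9792, nat_lit 15936, nat_lit 15216, R10_204, R9_332, R2_317⟩, ⟨nat_lit 2, nat_lit 10224, nat_lit 10848, nat_lit 10368, nat_lit 14256, nat_lit 16224, R10_216, R0_297, R1_338⟩]⟩]⟩,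
 ⟨nat_lit 3, [⟨nat_lit 4, [⟨nat_lit 3, nat_lit 1872, nat_lit 10752, nat_lit 13488, nat_lit 11808, nat_lit 5040, R3_281, R0_246, R2_105⟩]⟩, ⟨nat_lit 6, [⟨nat_lit 3, nat_lit 6912, nat_lit 10800, nat_lit 5568, nat_lit 14064, nat_lit 3744, R10_116, R0_293, R1_78⟩]⟩]⟩], [], [], [], [⟨nat_lit 0, [⟨nat_lit 4, [⟨nat_lit 0, nat_lit 192, nat_lit 14304, nat_lit 10944, nat_lit 12912, nat_lit 5328, R13_228, R8_269, R13_111⟩, ⟨nat_lit 1, nat_lit 1008, nat_lit 14784, nat_lit 12864, nat_lit 10416, nat_lit 4272, R13_268, R5_217, R9_89⟩, ⟨nat_lit 3, nat_lit 1968, nat_lit 15168, nat_lit 12528, nat_lit 9072, nat_lit 4080, R13_261, R9_189, R3_85⟩]⟩, ⟨nat_lit 5, [⟨nat_lit 0, nat_lit 7728, nat_lit 14352, nat_lit 8640, nat_lit 17232, nat_lit 16464, R9_180, R8_359, R9_343⟩, ⟨nat_lit 3, nat_lit 9120, nat_lit 15216, nat_lit 9744, nat_lit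 9840, nat_lit 7824, R9_203, R9_205, R0_163⟩]⟩, ⟨nat_lit 6, [⟨nat_lit 0, nat_lit 5712, nat_lit 14448, nat_lit 8784, nat_lit 13968, nat_lit 16512, R3_183, R8_291, R3_344⟩, ⟨nat_lit 1, nat_lit 6240, nat_lit 14880, nat_lit 9600, nat_lit 10608, nat_lit 2736, R3_200, R5_221, R0_57⟩, ⟨nat_lit 3, nat_lit 7008, nat_lit 15264, nat_lit 9408, nat_lit 9264, nat_lit 3744, R3_196, R9_193, R10_78⟩]⟩]⟩,
 ⟨nat_lit 1, [⟨nat_lit 4, [⟨nat_lit 0, nat_lit 384, nat_lit 14496, nat_lit 4560, nat_lit 10320, nat_lit 8928, R9_95, R5_215, R13_186⟩, ⟨nat_lit 1, nat_lit 1200, nat_lit 14928, nat_lit 7152, nat_lit 13680, nat_lit 6816, R9_149, R11_285, R9_142⟩, ⟨nat_lit 3, nat_lit 2064, nat_lit 15312, nat_lit 5568, nat_lit 8592, nat_lit 7344, R9_116, R0_179, R3_153⟩]⟩, ⟨nat_lit 6, [⟨nat_lit 0, nat_lit 5808, nat_lit 14592, nat_lit 3024, nat_lit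 10800, nat_lit 17808, R0_63, R5_225, R3_371⟩, ⟨nat_lit 1, nat_lit 6336, nat_lit 15024, nat_lit 4992, nat_lit 13872, nat_lit 4656, R0_104, R11_289, R0_97⟩, ⟨nat_lit 3, nat_lit 7104, nat_lit 15360, nat_lit 3408, nat_lit 8784, nat_lit 6288, R0_71, R0_183, R10_131⟩]⟩]⟩,
 ⟨nat_lit 2, [⟨nat_lit 4, [⟨nat_lit 0, nat_lit 288, nat_lit 14640, nat_lit 4128, nat_lit 8928, nat_lit 6912, R3_86, R9_186, R13_144⟩, ⟨nat_lit 1, nat_lit 1104, nat_lit 15072, nat_lit 7392, nat_lit 8448, nat_lit 5136, R3_154, R0_176, R9_107⟩, ⟨nat_lit 2, nat_lit 528, nat_lit 15552, nat_lit 5856, nat_lit 12048, nat_lit 5280, R3_122, R0_251, R3_110⟩]⟩, ⟨nat_lit 5, [⟨nat_lit 0, nat_lit 7872, nat_lit 14688, nat_lit 7872, nat_lit 9696, nat_lit 17328, R0_164, R9_202, R9_361⟩, ⟨nat_lit 2, nat_lit 8256, nat_lit 15600, nat_lit 8256, nat_lit 14928, nat_lit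 14928, R0_172, R0_311, R0_311⟩]⟩, ⟨nat_lit 7, [⟨nat_lit 0, nat_lit 9936, nat_lit 14736, nat_lit 9744, nat_lit 9216, nat_lit 9360, R10_203, R9_192, R3_195⟩, ⟨nat_lit 1, nat_lit 10368, nat_lit 15120, nat_lit 12048, nat_lit 8736, nat_lit 3360, R10_251, R0_182, R0_70⟩, ⟨nat_lit 2, nat_lit 10272, nat_lit 15648, nat_lit 10320, nat_lit 14160, nat_lit 19872, R10_215, R0_295, R10_414⟩]⟩]⟩,
 ⟨nat_lit 3, [⟨nat_lit 4, [⟨nat_lit 3, nat_lit 2112, nat_lit 15408, nat_lit 5376, nat_lit 12096, nat_lit 5808, R3_112, R0_252, R3_121⟩]⟩, ⟨nat_lit 5, [⟨nat_lit 3, nat_lit 9264, nat_lit 15456, nat_lit 15072, nat_lit 14976, nat_lit 8208, R0_314, R0_312, R0_171⟩]⟩, ⟨nat_lit 6, [⟨nat_lit 3, nat_lit 7152, nat_lit 15504, nat_lit 4992, nat_lit 14208, nat_lit 4416, R10_104, R0_296, R10_92⟩]⟩]⟩]], [[⟨nat_lit 0, [⟨nat_lit 6, [⟨nat_lit 7, nat_lit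 4080, nat_lit 11280, nat_lit 8064, nat_lit 9360, nat_lit 15408, R3_168, R2_195, R5_321⟩]⟩]⟩,
 ⟨nat_lit 1, [⟨nat_lit 6, [⟨nat_lit 7, nat_lit 4128, nat_lit 11376, nat_lit 6000, nat_lit 10176, nat_lit 15792, R0_125, R1_212, R5_329⟩]⟩]⟩,
 ⟨nat_lit 3, [⟨nat_lit 6, [⟨nat_lit 7, nat_lit 4320, nat_lit 11328, nat_lit 7488, nat_lit 8880, nat_lit 15696, R10_156, R12_185, R5_327⟩]⟩]⟩], [], [⟨nat_lit 0, [⟨nat_lit 6, [⟨nat_lit 7, nat_lit 4800, nat_lit 11856, nat_lit 8160, nat_lit 9456, nat_lit 4368, R3_170, R2_197, R0_91⟩]⟩]⟩,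
 ⟨nat_lit 1, [⟨nat_lit 6, [⟨nat_lit 7, nat_lit 4944, nat_lit 11952, nat_lit 6384, nat_lit 10272, nat_lit 4704, R0_133, R1_214, R0_98⟩]⟩]⟩,
 ⟨nat_lit 3, [⟨nat_lit 6, [⟨nat_lit 7, nat_lit 5184, nat_lit 11904, nat_lit 8304, nat_lit 8928, nat_lit 4416, R10_173, R12_186, R0_92⟩]⟩]⟩], [⟨nat_lit 0, [⟨nat_lit 4, [⟨nat_lit 3, nat_lit 1392, nat_lit 9264, nat_lit 12048, nat_lit 12144, nat_lit 3696, R13_251, R3_253, R2_77⟩]⟩, ⟨nat_lit 6, [⟨nat_lit 3, nat_lit 6528, nat_lit 9360, nat_lit 9264, nat_lit 15600, nat_lit 3168, R3_193, R3_325, R1_66⟩, ⟨nat_lit 7, nat_lit 5280, nat_lit 9120, nat_lit 8112, nat_lit 9408, nat_lit 6192, R3_169, R2_196, R11_129⟩]⟩, ⟨nat_lit 7, [⟨nat_lit 3, nat_lit 10752, nat_lit 9312, nat_lit 14976, nat_lit 14832, nat_lit 4704, R3_312, R3_309, R12_98⟩]⟩]⟩,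
 ⟨nat_lit 1, [⟨nat_lit 4, [⟨nat_lit 3, nat_lit 1632, nat_lit 9408, nat_lit 6000, nat_lit 10752, nat_lit 6672, R9_125, R10_224, R2_139⟩]⟩, ⟨nat_lit 6, [⟨nat_lit 3, nat_lit 6672, nat_lit 9504, nat_lit 3840, nat_lit 10944, nat_lit 5376, R0_80, R10_228, R1_112⟩, ⟨nat_lit 7, nat_lit 5328, nat_lit 9168, nat_lit 6144, nat_lit 10224, nat_lit 6432, R0_128, R1_213, R11_134⟩]⟩, ⟨nat_lit 7, [⟨nat_lit 3, nat_lit 11088, nat_lit 9456, nat_lit 13632, nat_lit 11472, nat_lit 5328, R0_284, R10_239, R12_111⟩]⟩]⟩,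
 ⟨nat_lit 2, [⟨nat_lit 4, [⟨nat_lit 3, nat_lit 1488, nat_lit 9552, nat_lit 6912, nat_lit 13104, nat_lit 4560, R3_144, R0_273, R2_95⟩]⟩, ⟨nat_lit 7, [⟨nat_lit 3, nat_lit 10944, nat_lit 9600, nat_lit 11328, nat_lit 13248, nat_lit 4944, R10_236, R0_276, R12_103⟩]⟩]⟩,
 ⟨nat_lit 3, [⟨nat_lit 6, [⟨nat_lit 7, nat_lit 5520, nat_lit 9216, nat_lit 8064, nat_lit 8976, nat_lit 6288, R10_168, R12_187, R11_131⟩]⟩]⟩]]], [[], [], [], [], [[], [⟨nat_lit 2, [⟨nat_lit 0, [⟨nat_lit 2, nat_lit 11856, nat_lit 18096, nat_lit 7104, nat_lit 10080, nat_lit 4560, R4_148, R5_210, R3_95⟩]⟩, ⟨nat_lit 3, [⟨nat_lit 2, nat_lit 14736, nat_lit 18960, nat_lit 10128, nat_lit 10128, nat_lit 14736, R5_211, R5_211, R0_307⟩]⟩]⟩]], [[⟨nat_lit 4, [⟨nat_lit 2, [⟨nat_lit 4, nat_lit 12144, nat_lit 11328, nat_lit 5616, nat_lit 12480, nat_lit 17424, R7_117,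 R4_260, R7_363⟩, ⟨nat_lit 6, nat_lit 12720, nat_lit 11472, nat_lit 6288, nat_lit 1728, nat_lit 9072, R7_131, R3_36, R14_189⟩]⟩, ⟨nat_lit 6, [⟨nat_lit 4, nat_lit 2160, nat_lit 18192, nat_lit 6096, nat_lit 5904, nat_lit 15024, R4_127, R4_123, R4_313⟩]⟩]⟩,
 ⟨nat_lit 6, [⟨nat_lit 0, [⟨nat_lit 2, nat_lit 11520, nat_lit 4224, nat_lit 864, nat_lit 10512, nat_lit 1776, R7_18, R1_219, R4_37⟩, ⟨nat_lit 6, nat_lit 11280, nat_lit 4080, nat_lit 1440, nat_lit 10992, nat_lit 1920, R7_30, R10_229, R7_40⟩]⟩, ⟨nat_lit 2, [⟨nat_lit 6, nat_lit 12864, nat_lit 12048, nat_lit 20016, nat_lit 11040, nat_lit 9120, R14_417, R10_230, R14_190⟩]⟩]⟩,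
 ⟨nat_lit 7, [⟨nat_lit 6, [⟨nat_lit 4, nat_lit 2256, nat_lit 19056, nat_lit 9360, nat_lit 8832, nat_lit 15312, R5_195, R5_184, R4_319⟩, ⟨nat_lit 7, nat_lit 3936, nat_lit 19200, nat_lit 9744, nat_lit 13920, nat_lit 17040, R5_203, R11_290, R5_355⟩]⟩]⟩], [⟨nat_lit 2, [⟨nat_lit 0, [⟨nat_lit 2, nat_lit 11952, nat_lit 17904, nat_lit 7152, nat_lit 12528, nat_lit 4704, R4_149, R11_261, R3_98⟩]⟩, ⟨nat_lit 3, [⟨nat_lit 2, nat_lit 14832, nat_lit 18192, nat_lit 11280, nat_lit 12576, nat_lit 15024, R5_235, R11_262, R0_313⟩]⟩]⟩,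
 ⟨nat_lit 4, [⟨nat_lit 2, [⟨nat_lit 6, nat_lit 13056, nat_lit 3024, nat_lit 6384, nat_lit 1968, nat_lit 7680, R7_133, R3_41, R12_160⟩]⟩]⟩,
 ⟨nat_lit 6, [⟨nat_lit 0, [⟨nat_lit 2, nat_lit 11760, nat_lit 12048, nat_lit 6864, nat_lit 10560, nat_lit 12672, R7_143, R1_220, R3_264⟩, ⟨nat_lit 6, nat_lit 11376, nat_lit 12096, nat_lit 7440, nat_lit 11136, nat_lit 480, R7_155, R10_232, R2_10⟩]⟩, ⟨nat_lit 2, [⟨nat_lit 6, nat_lit 13152, nat_lit 12768, nat_lit 20688, nat_lit 11184, nat_lit 7728, R14_431, R10_233, R12_161⟩]⟩]⟩], [⟨nat_lit 4, [⟨nat_lit 2, [⟨nat_lit 4, nat_lit 12336, nat_lit 2736, nat_lit 5664, nat_lit 12528, nat_lit 15552, R7_118, R4_261, R2_324⟩, ⟨nat_lit 6, nat_lit 13296, nat_lit 2880, nat_lit 6480, nat_lit 1824, nat_lit 4512, R7_135, R3_38, R12_94⟩]⟩, ⟨nat_lit 6, [⟨nat_lit 4, nat_lit 2400, nat_lit 3696,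 nat_lit 6192, nat_lit 5952, nat_lit 3552, R4_129, R4_124, R3_74⟩]⟩]⟩,
 ⟨nat_lit 7, [⟨nat_lit 6, [⟨nat_lit 4, nat_lit 2688, nat_lit 11904, nat_lit 11568, nat_lit 10512, nat_lit 9504, R5_241, R5_219, R3_198⟩, ⟨nat_lit 7, nat_lit 4608, nat_lit 12048, nat_lit 12000, nat_lit 13968, nat_lit 4848, R5_250, R11_291, R0_101⟩]⟩]⟩]], [[], [⟨nat_lit 2, [⟨nat_lit 0, [⟨nat_lit 2, nat_lit 11904, nat_lit 4272, nat_lit 7248, nat_lit 480, nat_lit 4608, R4_151, R0_10, R3_96⟩]⟩, ⟨nat_lit 3, [⟨nat_lit 2, nat_lit 14784, nat_lit 12624, nat_lit 12480, nat_lit 8160, nat_lit 14880, R5_260, R0_170, R0_310⟩]⟩]⟩]]], [[], [[], [], [⟨nat_lit 4, [⟨nat_lit 2, [⟨nat_lit 4, nat_lit 12432, nat_lit 11568, nat_lit 12720, nat_lit 14112, nat_lit 11616, R2_265, R7_294, R2_242⟩, ⟨nat_lit 6, nat_lit 13392, nat_lit 12000, nat_lit 13632, nat_lit 13392,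 nat_lit 6528, R2_284, R2_279, R12_136⟩]⟩, ⟨nat_lit 6, [⟨nat_lit 4, nat_lit 2496, nat_lit 11664, nat_lit 1632, nat_lit 6144, nat_lit 3456, R3_34, R7_128, R3_72⟩, ⟨nat_lit 7, nat_lit 4368, nat_lit 11856, nat_lit 8160, nat_lit 9456, nat_lit 4800, R3_170, R2_197, R0_100⟩]⟩]⟩,
 ⟨nat_lit 5, [⟨nat_lit 2, [⟨nat_lit 4, nat_lit 12528, nat_lit 11616, nat_lit 14064, nat_lit 18096, nat_lit 11760, R1_293, R14_377, R2_245⟩, ⟨nat_lit 5, nat_lit 13920, nat_lit 11760, nat_lit 15168, nat_lit 15216, nat_lit 12192, R1_316, R12_317, R1_254⟩, ⟨nat_lit 6, nat_lit 13680, nat_lit 12048, nat_lit 14976, nat_lit 14208, nat_lit 6624, R1_312, R12_296, R12_138⟩]⟩, ⟨nat_lit 6, [⟨nat_lit 4, nat_lit 2544, nat_lit 11712, nat_lit 16416, nat_lit 17904, nat_lit 10944, R10_342, R14_373, R3_228⟩, ⟨nat_lit 5, nat_lit 3072, nat_lit 11808, nat_lit 18384,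 nat_lit 15024, nat_lit 6528, R10_383, R12_313, R10_136⟩, ⟨nat_lit 7, nat_lit 4416, nat_lit 11904, nat_lit 17328, nat_lit 8928, nat_lit 5184, R10_361, R12_186, R0_108⟩]⟩]⟩,
 ⟨nat_lit 6, [⟨nat_lit 2, [⟨nat_lit 6, nat_lit 13584, nat_lit 12096, nat_lit 15408, nat_lit 14736, nat_lit 6576, R12_321, R1_307, R12_137⟩]⟩]⟩,
 ⟨nat_lit 7, [⟨nat_lit 6, [⟨nat_lit 7, nat_lit 4704, nat_lit 11952, nat_lit 6384, nat_lit 10272, nat_lit 4944, R0_133, R1_214, R0_103⟩]⟩]⟩]], [], [], [], [[⟨nat_lit 4, [⟨nat_lit 2, [⟨nat_lit 4, nat_lit 12192, nat_lit 13056, nat_lit 4032, nat_lit 12960, nat_lit 17520, R2_84, R4_270, R7_365⟩, ⟨nat_lit 6, nat_lit 12768, nat_lit 14160, nat_lit 4464, nat_lit 6672, nat_lit 11424, R2_93, R3_139, R14_238⟩]⟩, ⟨nat_lit 6, [⟨nat_lit 4, nat_lit 2208, nat_lit 13392, nat_lit 912, nat_lit 6480, nat_lit 15072, R3_19,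 R4_135, R4_314⟩]⟩]⟩,
 ⟨nat_lit 6, [⟨nat_lit 2, [⟨nat_lit 6, nat_lit 12912, nat_lit 14208, nat_lit 15792, nat_lit 11232, nat_lit 11472, R12_329, R10_234, R14_239⟩]⟩]⟩,
 ⟨nat_lit 7, [⟨nat_lit 6, [⟨nat_lit 4, nat_lit 2304, nat_lit 13440, nat_lit 6192, nat_lit 9120, nat_lit 15408, R0_129, R5_190, R4_321⟩, ⟨nat_lit 7, nat_lit 3984, nat_lit 13584, nat_lit 6288, nat_lit 14016, nat_lit 17760, R0_131, R11_292, R5_370⟩]⟩]⟩], [⟨nat_lit 4, [⟨nat_lit 2, [⟨nat_lit 6, nat_lit 13104, nat_lit 1488, nat_lit 4560, nat_lit 6912, nat_lit 9552, R2_95, R3_144, R12_199⟩]⟩]⟩,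
 ⟨nat_lit 6, [⟨nat_lit 2, [⟨nat_lit 6, nat_lit 13248, nat_lit 10944, nat_lit 16464, nat_lit 11328, nat_lit 9600, R12_343, R10_236, R12_200⟩]⟩]⟩], [⟨nat_lit 4, [⟨nat_lit 2, [⟨nat_lit 4, nat_lit 12384, nat_lit 2736, nat_lit 4080, nat_lit 13008, nat_lit 15648, R2_85, R4_271, R2_326⟩, ⟨nat_lit 6, nat_lit 13344, nat_lit 2880, nat_lit 4656, nat_lit 6768, nat_lit 5808, R2_97, R3_141, R12_121⟩]⟩, ⟨nat_lit 6, [⟨nat_lit 4, nat_lit 2448, nat_lit 3696, nat_lit 960, nat_lit 6528, nat_lit 3600, R3_20, R4_136, R3_75⟩]⟩]⟩,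
 ⟨nat_lit 6, [⟨nat_lit 2, [⟨nat_lit 6, nat_lit 13536, nat_lit 17184, nat_lit 17088, nat_lit 11280, nat_lit 5856, R12_356, R10_235, R12_122⟩]⟩]⟩,
 ⟨nat_lit 7, [⟨nat_lit 6, [⟨nat_lit 4, nat_lit 2736, nat_lit 14880, nat_lit 6240, nat_lit 10608, nat_lit 9600, R0_130, R5_221, R3_200⟩, ⟨nat_lit 7, nat_lit 4656, nat_lit 15024, nat_lit 6336, nat_lit 14064, nat_lit 4992, R0_132, R11_293, R0_104⟩]⟩]⟩]]], [[], [], [], [], [[], [⟨nat_lit 2, [⟨nat_lit 0, [⟨nat_lit 2, nat_lit 12000, nat_lit 12576, nat_lit 5664, nat_lit 12432, nat_lit 5232, R3_118, R5_259, R3_109⟩]⟩, ⟨nat_lit 1, [⟨nat_lit 2, nat_lit 14112, nat_lit 12672, nat_lit 10224, nat_lit 12528, nat_lit 4800, R10_213, R5_261, R10_100⟩]⟩, ⟨nat_lit 3, [⟨nat_lit 2, nat_lit 14880, nat_lit 12624, nat_lit 8160, nat_lit 12480, nat_lit 14784, R0_170, R5_260, R0_308⟩]⟩]⟩]], [[],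 [⟨nat_lit 2, [⟨nat_lit 0, [⟨nat_lit 2, nat_lit 12096, nat_lit 2112, nat_lit 5808, nat_lit 15408, nat_lit 5376, R3_121, R11_321, R3_112⟩]⟩, ⟨nat_lit 1, [⟨nat_lit 2, nat_lit 14208, nat_lit 7152, nat_lit 10272, nat_lit 15504, nat_lit 4992, R10_214, R11_323, R10_104⟩]⟩]⟩,
 ⟨nat_lit 6, [⟨nat_lit 0, [⟨nat_lit 2, nat_lit 11808, nat_lit 1872, nat_lit 5040, nat_lit 10752, nat_lit 13488, R2_105, R1_224, R3_281⟩, ⟨nat_lit 6, nat_lit 11424, nat_lit 1728, nat_lit 5664, nat_lit 11664, nat_lit 6192, R2_118, R10_243, R2_129⟩]⟩, ⟨nat_lit 1, [⟨nat_lit 2, nat_lit 14064, nat_lit 6912, nat_lit 3744, nat_lit 10800, nat_lit 5568, R1_78, R1_225, R10_116⟩, ⟨nat_lit 6, nat_lit 14016, nat_lit 6768, nat_lit 4368, nat_lit 11760, nat_lit 4896, R1_91, R10_245, R1_102⟩]⟩, ⟨nat_lit 2, [⟨nat_lit 6, nat_lit 13200, nat_lit 11184, nat_lit 16608,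 nat_lit 11712, nat_lit 8016, R12_346, R10_244, R12_167⟩]⟩]⟩]], [[], [⟨nat_lit 2, [⟨nat_lit 0, [⟨nat_lit 2, nat_lit 12048, nat_lit 15552, nat_lit 5856, nat_lit 528, nat_lit 5280, R3_122, R0_11, R3_110⟩]⟩, ⟨nat_lit 1, [⟨nat_lit 2, nat_lit 14160, nat_lit 15648, nat_lit 10320, nat_lit 10272, nat_lit 4944, R10_215, R0_214, R10_103⟩]⟩, ⟨nat_lit 3, [⟨nat_lit 2, nat_lit 14928, nat_lit 15600, nat_lit 8256, nat_lit 8256, nat_lit 14928, R0_172, R0_172, R0_311⟩]⟩]⟩], [], [], [], [⟨nat_lit 2, [⟨nat_lit 1, [⟨nat_lit 2, nat_lit 14256, nat_lit 10848, nat_lit 10368, nat_lit 10224, nat_lit 16224, R10_216, R0_213, R1_338⟩]⟩]⟩]]], [[], [], [], [], [[⟨nat_lit 2, [⟨nat_lit 3, [⟨nat_lit 2, nat_lit 14592, nat_lit 12912, nat_lit 13056, nat_lit 10464, nat_lit 5088, R11_272, R5_218, R5_106⟩]⟩]⟩,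
 ⟨nat_lit 3, [⟨nat_lit 6, [⟨nat_lit 7, nat_lit 4176, nat_lit 10368, nat_lit 6480, nat_lit 8592, nat_lit 14640, R1_135, R2_179, R5_305⟩]⟩]⟩], [⟨nat_lit 2, [⟨nat_lit 3, [⟨nat_lit 2, nat_lit 15024, nat_lit 10128, nat_lit 13104, nat_lit 11280, nat_lit 14832, R11_273, R5_235, R0_309⟩]⟩]⟩], [⟨nat_lit 3, [⟨nat_lit 6, [⟨nat_lit 7, nat_lit 5040, nat_lit 8496, nat_lit 7392, nat_lit 9504, nat_lit 4464, R1_154, R2_198, R0_93⟩]⟩]⟩], [⟨nat_lit 0, [⟨nat_lit 7, [⟨nat_lit 3, nat_lit 10512, nat_lit 12288, nat_lit 8400, nat_lit 12192, nat_lit 4752, R2_175, R13_254, R12_99⟩]⟩]⟩,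
 ⟨nat_lit 2, [⟨nat_lit 3, [⟨nat_lit 2, nat_lit 15168, nat_lit 17952, nat_lit 13152, nat_lit 10944, nat_lit 5088, R11_274, R5_228, R11_106⟩]⟩, ⟨nat_lit 7, [⟨nat_lit 0, nat_lit 9552, nat_lit 16320, nat_lit 8112, nat_lit 14928, nat_lit 15120, R1_169, R8_311, R2_315⟩, ⟨nat_lit 2, nat_lit 10032, nat_lit 17616, nat_lit 8736, nat_lit 10992, nat_lit 16128, R1_182, R5_229, R1_336⟩, ⟨nat_lit 3, nat_lit 10800, nat_lit 17136, nat_lit 9216, nat_lit 9456, nat_lit 4992, R1_192, R9_197, R12_104⟩]⟩]⟩,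
 ⟨nat_lit 3, [⟨nat_lit 4, [⟨nat_lit 3, nat_lit 1680, nat_lit 14544, nat_lit 6096, nat_lit 14448, nat_lit 5616, R2_127, R3_301, R2_117⟩]⟩, ⟨nat_lit 6, [⟨nat_lit 3, nat_lit 6720, nat_lit 15120, nat_lit 4800, nat_lit 15072, nat_lit 4320, R1_100, R3_314, R1_90⟩, ⟨nat_lit 7, nat_lit 5376, nat_lit 13056, nat_lit 7056, nat_lit 9888, nat_lit 6336, R1_147, R2_206, R11_132⟩]⟩, ⟨nat_lit 7, [⟨nat_lit 3, nat_lit 11136, nat_lit 15024, nat_lit 7920, nat_lit 14880, nat_lit 5088, R12_165, R3_310, R12_106⟩]⟩]⟩]], [[⟨nat_lit 3, [⟨nat_lit 6, [⟨nat_lit 7, nat_lit 4224, nat_lit 11664, nat_lit 6576, nat_lit 9408, nat_lit 17280, R1_137, R1_196, R5_360⟩]⟩]⟩,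
 ⟨nat_lit 4, [⟨nat_lit 2, [⟨nat_lit 4, nat_lit 12240, nat_lit 11280, nat_lit 7776, nat_lit 12672, nat_lit 17472, R2_162, R4_264, R7_364⟩, ⟨nat_lit 6, nat_lit 12816, nat_lit 12816, nat_lit 9024, nat_lit 8256, nat_lit 10848, R2_188, R3_172, R14_226⟩]⟩]⟩,
 ⟨nat_lit 6, [⟨nat_lit 0, [⟨nat_lit 2, nat_lit 11568, nat_lit 10272, nat_lit 2208, nat_lit 10608, nat_lit 8496, R2_46, R1_221, R4_177⟩, ⟨nat_lit 6, nat_lit 11328, nat_lit 12144, nat_lit 432, nat_lit 11376, nat_lit 8544, R2_9, R10_237, R7_178⟩]⟩, ⟨nat_lit 2, [⟨nat_lit 6, nat_lit 12960, nat_lit 12912, nat_lit 7632, nat_lit 11424, nat_lit 10944, R12_159, R10_238, R14_228⟩]⟩, ⟨nat_lit 3, [⟨nat_lit 2, nat_lit 14400, nat_lit 10560, nat_lit 1680, nat_lit 10656, nat_lit 6768, R1_35, R1_222, R5_141⟩]⟩]⟩,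
 ⟨nat_lit 7, [⟨nat_lit 2, [⟨nat_lit 4, nat_lit 12288, nat_lit 11328, nat_lit 8304, nat_lit 16368, nat_lit 17808, R1_173, R5_341, R7_371⟩, ⟨nat_lit 6, nat_lit 13008, nat_lit 12864, nat_lit 9840, nat_lit 8880, nat_lit 10896, R1_205, R0_185, R14_227⟩]⟩, ⟨nat_lit 6, [⟨nat_lit 4, nat_lit 2352, nat_lit 11472, nat_lit 11808, nat_lit 8976, nat_lit 15360, R11_246, R5_187, R4_320⟩, ⟨nat_lit 7, nat_lit 4032, nat_lit 11616, nat_lit 12192, nat_lit 14112, nat_lit 17424, R11_254, R11_294, R5_363⟩]⟩]⟩], [], [⟨nat_lit 3, [⟨nat_lit 6, [⟨nat_lit 7, nat_lit 5088, nat_lit 10464, nat_lit 7488, nat_lit 10320, nat_lit 4560, R1_156, R1_215, R0_95⟩]⟩]⟩,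
 ⟨nat_lit 4, [⟨nat_lit 2, [⟨nat_lit 4, nat_lit 12480, nat_lit 9792, nat_lit 7968, nat_lit 12864, nat_lit 15600, R2_166, R4_268, R2_325⟩, ⟨nat_lit 6, nat_lit 13440, nat_lit 10992, nat_lit 9600, nat_lit 8400, nat_lit 5232, R2_200, R3_175, R12_109⟩]⟩]⟩,
 ⟨nat_lit 7, [⟨nat_lit 2, [⟨nat_lit 4, nat_lit 12576, nat_lit 9840, nat_lit 8496, nat_lit 16800, nat_lit 15696, R1_177, R5_350, R2_327⟩, ⟨nat_lit 6, nat_lit 13728, nat_lit 11040, nat_lit 10416, nat_lit 8928, nat_lit 5280, R1_217, R0_186, R12_110⟩]⟩, ⟨nat_lit 6, [⟨nat_lit 4, nat_lit 2784, nat_lit 9984, nat_lit 14544, nat_lit 10560, nat_lit 9552, R11_303, R5_220, R3_199⟩, ⟨nat_lit 7, nat_lit 4752, nat_lit 10416, nat_lit 14976, nat_lit 14160, nat_lit 4896, R11_312, R11_295, R0_102⟩]⟩]⟩], [⟨nat_lit 0, [⟨nat_lit 7, [⟨nat_lit 0, nat_lit 9408, nat_lit 12624, nat_lit 7920,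 nat_lit 12816, nat_lit 14784, R2_165, R4_267, R2_308⟩, ⟨nat_lit 3, nat_lit 10608, nat_lit 13776, nat_lit 9168, nat_lit 8304, nat_lit 4848, R2_191, R3_173, R12_101⟩]⟩]⟩,
 ⟨nat_lit 2, [⟨nat_lit 3, [⟨nat_lit 2, nat_lit 15264, nat_lit 5232, nat_lit 13248, nat_lit 14208, nat_lit 6480, R11_276, R11_296, R11_135⟩]⟩, ⟨nat_lit 7, [⟨nat_lit 0, nat_lit 9648, nat_lit 12672, nat_lit 8448, nat_lit 16704, nat_lit 15408, R1_176, R5_348, R2_321⟩, ⟨nat_lit 2, nat_lit 10128, nat_lit 13968, nat_lit 8880, nat_lit 14256, nat_lit 16416, R1_185, R11_297, R1_342⟩, ⟨nat_lit 3, nat_lit 10848, nat_lit 13872, nat_lit 9984, nat_lit 8976, nat_lit 5040, R1_208, R0_187, R12_105⟩]⟩]⟩,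
 ⟨nat_lit 3, [⟨nat_lit 4, [⟨nat_lit 3, nat_lit 1776, nat_lit 11472, nat_lit 6144, nat_lit 11520, nat_lit 5712, R2_128, R10_240, R2_119⟩]⟩, ⟨nat_lit 6, [⟨nat_lit 3, nat_lit 6816, nat_lit 14352, nat_lit 4848, nat_lit 11616, nat_lit 4416, R1_101, R10_242, R1_92⟩, ⟨nat_lit 7, nat_lit 5424, nat_lit 15120, nat_lit 7104, nat_lit 10704, nat_lit 6384, R1_148, R1_223, R11_133⟩]⟩, ⟨nat_lit 7, [⟨nat_lit 3, nat_lit 11232, nat_lit 13824, nat_lit 7968, nat_lit 11568, nat_lit 5184, R12_166, R10_241, R12_108⟩]⟩]⟩,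
 ⟨nat_lit 4, [⟨nat_lit 2, [⟨nat_lit 4, nat_lit 12624, nat_lit 9408, nat_lit 7920, nat_lit 12816, nat_lit 14784, R2_165, R4_267, R2_308⟩, ⟨nat_lit 6, nat_lit 13776, nat_lit 10608, nat_lit 9168, nat_lit 8304, nat_lit 4848, R2_191, R3_173, R12_101⟩]⟩]⟩,
 ⟨nat_lit 6, [⟨nat_lit 0, [⟨nat_lit 6, nat_lit 11472, nat_lit 1776, nat_lit 6144, nat_lit 11520, nat_lit 5712, R2_128, R10_240, R2_119⟩]⟩, ⟨nat_lit 2, [⟨nat_lit 6, nat_lit 13824, nat_lit 11232, nat_lit 7968, nat_lit 11568, nat_lit 5184, R12_166, R10_241, R12_108⟩]⟩, ⟨nat_lit 3, [⟨nat_lit 2, nat_lit 15120, nat_lit 5424, nat_lit 7104, nat_lit 10704, nat_lit 6384, R1_148, R1_223, R11_133⟩, ⟨nat_lit 6, nat_lit 14352, nat_lit 6816, nat_lit 4848, nat_lit 11616, nat_lit 4416, R1_101, R10_242, R1_92⟩]⟩]⟩,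
 ⟨nat_lit 7, [⟨nat_lit 2, [⟨nat_lit 4, nat_lit 12672, nat_lit 9648, nat_lit 8448, nat_lit 16704, nat_lit 15408, R1_176, R5_348, R2_321⟩, ⟨nat_lit 6, nat_lit 13872, nat_lit 10848, nat_lit 9984, nat_lit 8976, nat_lit 5040, R1_208, R0_187, R12_105⟩, ⟨nat_lit 7, nat_lit 13968, nat_lit 10128, nat_lit 8880, nat_lit 14256, nat_lit 16416, R1_185, R11_297, R1_342⟩]⟩, ⟨nat_lit 6, [⟨nat_lit 7, nat_lit 5232, nat_lit 15264, nat_lit 13248, nat_lit 14208, nat_lit 6480, R11_276, R11_296, R11_135⟩]⟩]⟩]], [[⟨nat_lit 2, [⟨nat_lit 3, [⟨nat_lit 2, nat_lit 14640, nat_lit 10176, nat_lit 13296, nat_lit 8064, nat_lit 5856, R11_277, R0_168, R5_122⟩]⟩]⟩], [⟨nat_lit 2, [⟨nat_lit 3, [⟨nat_lit 2, nat_lit 15072, nat_lit 9264, nat_lit 13344, nat_lit 8208, nat_lit 14976, R11_278, R0_171, R0_312⟩]⟩]⟩], [], [⟨nat_lit 0, [⟨nat_lit 7, [⟨nat_lit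 0, nat_lit 9360, nat_lit 9216, nat_lit 8064, nat_lit 14784, nat_lit 14688, R2_168, R8_308, R2_306⟩, ⟨nat_lit 3, nat_lit 10560, nat_lit 10800, nat_lit 10128, nat_lit 7824, nat_lit 4800, R2_211, R9_163, R12_100⟩]⟩]⟩,
 ⟨nat_lit 2, [⟨nat_lit 3, [⟨nat_lit 2, nat_lit 15216, nat_lit 12096, nat_lit 13392, nat_lit 8112, nat_lit 5472, R11_279, R0_169, R11_114⟩]⟩, ⟨nat_lit 7, [⟨nat_lit 0, nat_lit 9600, nat_lit 9840, nat_lit 8592, nat_lit 15888, nat_lit 15264, R1_179, R9_331, R2_318⟩, ⟨nat_lit 2, nat_lit 10080, nat_lit 12144, nat_lit 8928, nat_lit 14304, nat_lit 16272, R1_186, R0_298, R1_339⟩]⟩]⟩,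
 ⟨nat_lit 3, [⟨nat_lit 4, [⟨nat_lit 3, nat_lit 1728, nat_lit 11664, nat_lit 6192, nat_lit 11424, nat_lit 5664, R2_129, R0_238, R2_118⟩]⟩, ⟨nat_lit 6, [⟨nat_lit 3, nat_lit 6768, nat_lit 11760, nat_lit 4896, nat_lit 14016, nat_lit 4368, R1_102, R0_292, R1_91⟩]⟩, ⟨nat_lit 7, [⟨nat_lit 3, nat_lit 11184, nat_lit 11712, nat_lit 8016, nat_lit 13200, nat_lit 5136, R12_167, R0_275, R12_107⟩]⟩]⟩]], [[⟨nat_lit 3, [⟨nat_lit 6, [⟨nat_lit 7, nat_lit 4272, nat_lit 17280, nat_lit 6528, nat_lit 9024, nat_lit 16176, R1_136, R12_188, R5_337⟩]⟩]⟩], [], [⟨nat_lit 3, [⟨nat_lit 6, [⟨nat_lit 7, nat_lit 5136, nat_lit 12864, nat_lit 7440, nat_lit 9072, nat_lit 4512, R1_155, R12_189, R0_94⟩]⟩]⟩]]]]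
noncomputable def N3770 : T3 (List N0) := [[[[], [], [⟨nat_lit 0, [⟨nat_lit 4, [⟨nat_lit 4, nat_lit 0, nat_lit 1872, nat_lit 336, nat_lit 624, nat_lit 5952, R6_7, R6_13, R6_124⟩, ⟨nat_lit 5, nat_lit 720, nat_lit 2400, nat_lit 2640, nat_lit 768, nat_lit 6288, R6_55, R8_16, R4_131⟩]⟩, ⟨nat_lit 6, [⟨nat_lit 4, nat_lit 3744, nat_lit 2064, nat_lit 240, nat_lit 1200, nat_lit 7200, R4_5, R6_25, R13_150⟩, ⟨nat_lit 5, nat_lit 6048, nat_lit 2544, nat_lit 2544, nat_lit 864, nat_lit 6048, R4_53, R8_18, R3_126⟩, ⟨nat_lit 6, nat_lit 5472, nat_lit 2784, nat_lit 816, nat_lit 1104, nat_lit 4896, R4_17, R4_23, R3_102⟩]⟩]⟩,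
 ⟨nat_lit 1, [⟨nat_lit 4, [⟨nat_lit 4, nat_lit 288, nat_lit 7392, nat_lit 17664, nat_lit 5136, nat_lit 6384, R8_368, R8_107, R6_133⟩, ⟨nat_lit 5, nat_lit 1008, nat_lit 7728, nat_lit 17808, nat_lit 240, nat_lit 6624, R8_371, R9_5, R4_138⟩]⟩, ⟨nat_lit 6, [⟨nat_lit 4, nat_lit 3888, nat_lit 7584, nat_lit 3840, nat_lit 5184, nat_lit 7248, R5_80, R8_108, R13_151⟩, ⟨nat_lit 5, nat_lit 6192, nat_lit 7872, nat_lit 4128, nat_lit 336, nat_lit 6096, R5_86, R9_7, R3_127⟩, ⟨nat_lit 6, nat_lit 5616, nat_lit 7968, nat_lit 3984, nat_lit 96, nat_lit 5184, R5_83, R5_2, R3_108⟩]⟩]⟩,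
 ⟨nat_lit 2, [⟨nat_lit 4, [⟨nat_lit 4, nat_lit 144, nat_lit 10800, nat_lit 14112, nat_lit 8688, nat_lit 6096, R4_294, R4_181, R6_127⟩, ⟨nat_lit 5, nat_lit 864, nat_lit 11232, nat_lit 14976, nat_lit 5136, nat_lit 6432, R4_312, R5_107, R4_134⟩]⟩]⟩], [], [], [], [⟨nat_lit 0, [⟨nat_lit 4, [⟨nat_lit 5, nat_lit 1200, nat_lit 2256, nat_lit 2976, nat_lit 1152, nat_lit 9744, R6_62, R8_24, R7_203⟩]⟩, ⟨nat_lit 5, [⟨nat_lit 5, nat_lit 7632, nat_lit 2352, nat_lit 3888, nat_lit 1344, nat_lit 8784, R8_81, R8_28, R2_183⟩]⟩, ⟨nat_lit 6, [⟨nat_lit 5, nat_lit 6384, nat_lit 2496, nat_lit 2640, nat_lit 1248, nat_lit 4128, R4_55, R8_26, R2_86⟩]⟩]⟩,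
 ⟨nat_lit 1, [⟨nat_lit 4, [⟨nat_lit 5, nat_lit 1680, nat_lit 7680, nat_lit 11088, nat_lit 480, nat_lit 9936, R8_231, R9_10, R7_207⟩]⟩, ⟨nat_lit 5, [⟨nat_lit 5, nat_lit 8208, nat_lit 7776, nat_lit 3072, nat_lit 672, nat_lit 8976, R9_64, R9_14, R2_187⟩]⟩, ⟨nat_lit 6, [⟨nat_lit 5, nat_lit 6624, nat_lit 7920, nat_lit 3024, nat_lit 576, nat_lit 4416, R5_63, R9_12, R2_92⟩]⟩]⟩,
 ⟨nat_lit 2, [⟨nat_lit 4, [⟨nat_lit 5, nat_lit 1440, nat_lit 11568, nat_lit 11808, nat_lit 14784, nat_lit 9840, R4_246, R5_308, R7_205⟩]⟩, ⟨nat_lit 5, [⟨nat_lit 5, nat_lit 7920, nat_lit 11664, nat_lit 13632, nat_lit 14928, nat_lit 8880, R5_284, R5_311, R2_185⟩]⟩]⟩]], [], [[], [], [], [], [⟨nat_lit 2, [⟨nat_lit 4, [⟨nat_lit 1, nat_lit 3072, nat_lit 528, nat_lit 2256, nat_lit 2736, nat_lit 8928, R4_47, R1_57, R6_186⟩]⟩, ⟨nat_lit 5, [⟨nat_lit 1,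 nat_lit 8880, nat_lit 5472, nat_lit 2640, nat_lit 3024, nat_lit 11616, R5_55, R1_63, R13_242⟩]⟩]⟩], [], [⟨nat_lit 0, [⟨nat_lit 4, [⟨nat_lit 5, nat_lit 1248, nat_lit 18720, nat_lit 10560, nat_lit 4464, nat_lit 9792, R6_220, R5_93, R7_204⟩]⟩, ⟨nat_lit 5, [⟨nat_lit 5, nat_lit 7680, nat_lit 19248, nat_lit 11856, nat_lit 6048, nat_lit 8832, R8_247, R5_126, R2_184⟩]⟩, ⟨nat_lit 6, [⟨nat_lit 5, nat_lit 6432, nat_lit 19632, nat_lit 11424, nat_lit 5232, nat_lit 4176, R4_238, R5_109, R2_87⟩]⟩]⟩,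
 ⟨nat_lit 1, [⟨nat_lit 4, [⟨nat_lit 5, nat_lit 1728, nat_lit 20208, nat_lit 11664, nat_lit 12720, nat_lit 9984, R8_243, R0_265, R7_208⟩]⟩, ⟨nat_lit 5, [⟨nat_lit 5, nat_lit 8256, nat_lit 20928, nat_lit 12816, nat_lit 12816, nat_lit 9024, R9_267, R0_267, R2_188⟩]⟩, ⟨nat_lit 6, [⟨nat_lit 5, nat_lit 6672, nat_lit 21504, nat_lit 14160, nat_lit 12768, nat_lit 4464, R5_295, R0_266, R2_93⟩]⟩]⟩,
 ⟨nat_lit 2, [⟨nat_lit 4, [⟨nat_lit 1, nat_lit 3168, nat_lit 21792, nat_lit 11136, nat_lit 2784, nat_lit 9552, R4_232, R1_58, R4_199⟩, ⟨nat_lit 5, nat_lit 1488, nat_lit 21840, nat_lit 11904, nat_lit 4464, nat_lit 9888, R4_248, R11_93, R7_206⟩]⟩, ⟨nat_lit 5, [⟨nat_lit 1, nat_lit 9168, nat_lit 22224, nat_lit 13872, nat_lit 3072, nat_lit 15504, R5_289, R1_64, R3_323⟩, ⟨nat_lit 5, nat_lit 7968, nat_lit 22272, nat_lit 13776, nat_lit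 5664, nat_lit 8928, R5_287, R11_118, R2_186⟩]⟩]⟩]], [[], [], [⟨nat_lit 0, [⟨nat_lit 4, [⟨nat_lit 4, nat_lit 48, nat_lit 1056, nat_lit 5184, nat_lit 4512, nat_lit 6000, R6_108, R13_94, R6_125⟩, ⟨nat_lit 5, nat_lit 768, nat_lit 1680, nat_lit 7200, nat_lit 3744, nat_lit 6336, R6_150, R9_78, R4_132⟩, ⟨nat_lit 7, nat_lit 2256, nat_lit 1344, nat_lit 6528, nat_lit 384, nat_lit 7584, R6_136, R3_8, R8_158⟩]⟩, ⟨nat_lit 6, [⟨nat_lit 4, nat_lit 3792, nat_lit 3456, nat_lit 5472, nat_lit 6144, nat_lit 7344, R4_114, R13_128, R13_153⟩, ⟨nat_lit 5, nat_lit 6096, nat_lit 4128, nat_lit 7872, nat_lit 4656, nat_lit 6192, R4_164, R9_97, R3_129⟩, ⟨nat_lit 6, nat_lit 5520, nat_lit 4224, nat_lit 7200, nat_lit 4416, nat_lit 4944, R4_150, R3_92, R3_103⟩, ⟨nat_lit 7, nat_lit 7152, nat_lit 3744, nat_lit 6672, nat_lit 1056, nat_lit 5376,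 R4_139, R3_22, R9_112⟩]⟩]⟩,
 ⟨nat_lit 1, [⟨nat_lit 4, [⟨nat_lit 4, nat_lit 336, nat_lit 9408, nat_lit 18384, nat_lit 13248, nat_lit 6432, R8_383, R9_276, R6_134⟩, ⟨nat_lit 7, nat_lit 2544, nat_lit 9792, nat_lit 18528, nat_lit 7248, nat_lit 7920, R8_386, R0_151, R8_165⟩]⟩, ⟨nat_lit 6, [⟨nat_lit 4, nat_lit 3936, nat_lit 11664, nat_lit 12192, nat_lit 13872, nat_lit 7392, R5_254, R9_289, R13_154⟩, ⟨nat_lit 6, nat_lit 5664, nat_lit 12576, nat_lit 12432, nat_lit 12000, nat_lit 5232, R5_259, R0_250, R3_109⟩, ⟨nat_lit 7, nat_lit 7296, nat_lit 12096, nat_lit 12336, nat_lit 8352, nat_lit 5424, R5_257, R0_174, R9_113⟩]⟩]⟩,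
 ⟨nat_lit 2, [⟨nat_lit 4, [⟨nat_lit 4, nat_lit 192, nat_lit 13104, nat_lit 14208, nat_lit 11472, nat_lit 6144, R4_296, R3_239, R6_128⟩, ⟨nat_lit 5, nat_lit 912, nat_lit 13392, nat_lit 15072, nat_lit 2208, nat_lit 6480, R4_314, R0_46, R4_135⟩, ⟨nat_lit 7, nat_lit 2400, nat_lit 13248, nat_lit 14688, nat_lit 2880, nat_lit 7680, R4_306, R10_60, R8_160⟩]⟩]⟩]], [], [], [[], [], [], [], [⟨nat_lit 2, [⟨nat_lit 4, [⟨nat_lit 1, nat_lit 3024, nat_lit 336, nat_lit 2112, nat_lit 3456, nat_lit 8880, R4_44, R10_72, R6_185⟩]⟩, ⟨nat_lit 5, [⟨nat_lit 0, nat_lit 8544, nat_lit 5088, nat_lit 3360, nat_lit 16080, nat_lit 13872, R5_70, R3_335, R6_289⟩, ⟨nat_lit 1, nat_lit 8832, nat_lit 5568, nat_lit 3552, nat_lit 3648, nat_lit 11568, R5_74, R10_76, R13_241⟩]⟩]⟩], [], [], [⟨nat_lit 2, [⟨nat_lit 4, [⟨nat_lit 0, nat_lit 2928, nat_lit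 3408, nat_lit 4992, nat_lit 11424, nat_lit 5568, R4_104, R3_238, R6_116⟩, ⟨nat_lit 1, nat_lit 3264, nat_lit 3936, nat_lit 7632, nat_lit 3504, nat_lit 8352, R4_159, R10_73, R8_174⟩, ⟨nat_lit 3, nat_lit 3552, nat_lit 3696, nat_lit 6192, nat_lit 2400, nat_lit 5952, R4_129, R0_50, R4_124⟩]⟩, ⟨nat_lit 5, [⟨nat_lit 0, nat_lit 8688, nat_lit 11472, nat_lit 11424, nat_lit 16416, nat_lit 14592, R5_238, R3_342, R8_304⟩, ⟨nat_lit 1, nat_lit 9312, nat_lit 12288, nat_lit 11760, nat_lit 3696, nat_lit 9168, R5_245, R10_77, R9_191⟩, ⟨nat_lit 3, nat_lit 9504, nat_lit 11904, nat_lit 11568, nat_lit 2688, nat_lit 10512, R5_241, R0_56, R5_219⟩]⟩]⟩]]], [[[], [], [⟨nat_lit 1, [⟨nat_lit 4, [⟨nat_lit 4, nat_lit 384, nat_lit 2256, nat_lit 1344, nat_lit 5472, nat_lit 6528, R5_28, R8_114, R6_136⟩, ⟨nat_lit 5, nat_lit 1056, nat_lit 7152,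 nat_lit 3744, nat_lit 5376, nat_lit 6672, R5_78, R9_112, R4_139⟩]⟩, ⟨nat_lit 6, [⟨nat_lit 4, nat_lit 3984, nat_lit 2352, nat_lit 3840, nat_lit 5520, nat_lit 7296, R11_80, R8_115, R13_152⟩, ⟨nat_lit 5, nat_lit 6240, nat_lit 7248, nat_lit 4128, nat_lit 5472, nat_lit 6144, R11_86, R9_114, R3_128⟩, ⟨nat_lit 6, nat_lit 5712, nat_lit 9984, nat_lit 3984, nat_lit 5760, nat_lit 5328, R11_83, R5_120, R3_111⟩]⟩]⟩], [], [], [], [⟨nat_lit 1, [⟨nat_lit 4, [⟨nat_lit 5, nat_lit 1776, nat_lit 6528, nat_lit 2784, nat_lit 5760, nat_lit 10464, R5_58, R9_120, R7_218⟩]⟩, ⟨nat_lit 5, [⟨nat_lit 5, nat_lit 8352, nat_lit 6624, nat_lit 1536, nat_lit 5952, nat_lit 9552, R0_32, R9_124, R2_199⟩]⟩, ⟨nat_lit 6, [⟨nat_lit 5, nat_lit 6720, nat_lit 6768, nat_lit 3024, nat_lit 5856, nat_lit 4608, R11_63, R9_122, R2_96⟩]⟩]⟩]], [[], [], [⟨nat_lit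 1, [⟨nat_lit 4, [⟨nat_lit 4, nat_lit 432, nat_lit 5664, nat_lit 1440, nat_lit 14352, nat_lit 6624, R5_30, R5_299, R6_138⟩, ⟨nat_lit 5, nat_lit 1104, nat_lit 6192, nat_lit 3792, nat_lit 3216, nat_lit 6720, R5_79, R0_67, R4_140⟩]⟩, ⟨nat_lit 6, [⟨nat_lit 4, nat_lit 4032, nat_lit 5856, nat_lit 9840, nat_lit 14736, nat_lit 7632, R11_205, R5_307, R13_159⟩, ⟨nat_lit 5, nat_lit 6288, nat_lit 6336, nat_lit 10128, nat_lit 3312, nat_lit 6336, R11_211, R0_69, R3_132⟩, ⟨nat_lit 6, nat_lit 5760, nat_lit 6576, nat_lit 9984, nat_lit 5376, nat_lit 5424, R11_208, R11_112, R3_113⟩]⟩]⟩,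
 ⟨nat_lit 5, [⟨nat_lit 6, [⟨nat_lit 6, nat_lit 5136, nat_lit 18912, nat_lit 528, nat_lit 13008, nat_lit 5904, R1_11, R1_271, R3_123⟩]⟩]⟩], [], [], [], [⟨nat_lit 1, [⟨nat_lit 4, [⟨nat_lit 5, nat_lit 1872, nat_lit 5232, nat_lit 2832, nat_lit 3600, nat_lit 10560, R5_59, R0_75, R7_220⟩]⟩, ⟨nat_lit 5, [⟨nat_lit 5, nat_lit 8448, nat_lit 5328, nat_lit 6576, nat_lit 3792, nat_lit 9648, R0_137, R0_79, R2_201⟩]⟩, ⟨nat_lit 6, [⟨nat_lit 5, nat_lit 6816, nat_lit 5472, nat_lit 9264, nat_lit 3696, nat_lit 4704, R11_193, R0_77, R2_98⟩]⟩]⟩]], [[], [], [], [], [], [], [⟨nat_lit 1, [⟨nat_lit 4, [⟨nat_lit 5, nat_lit 1824, nat_lit 15984, nat_lit 2880, nat_lit 13296, nat_lit 10512, R5_60, R0_277, R7_219⟩]⟩, ⟨nat_lit 5, [⟨nat_lit 5, nat_lit 8400, nat_lit 16704, nat_lit 10992, nat_lit 13440, nat_lit 9600, R0_229, R0_280, R2_200⟩]⟩,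 ⟨nat_lit 6, [⟨nat_lit 5, nat_lit 6768, nat_lit 17280, nat_lit 17232, nat_lit 13344, nat_lit 4656, R11_359, R0_278, R2_97⟩]⟩]⟩]], [[], [], [⟨nat_lit 1, [⟨nat_lit 4, [⟨nat_lit 4, nat_lit 480, nat_lit 1920, nat_lit 1392, nat_lit 13344, nat_lit 6576, R5_29, R9_278, R6_137⟩, ⟨nat_lit 7, nat_lit 2592, nat_lit 2016, nat_lit 2352, nat_lit 7440, nat_lit 9216, R5_49, R0_155, R8_192⟩]⟩, ⟨nat_lit 6, [⟨nat_lit 4, nat_lit 4080, nat_lit 1968, nat_lit 15168, nat_lit 13968, nat_lit 7584, R11_316, R9_291, R13_158⟩, ⟨nat_lit 6, nat_lit 5808, nat_lit 2112, nat_lit 15408, nat_lit 12096, nat_lit 5376, R11_321, R0_252, R3_112⟩, ⟨nat_lit 7, nat_lit 7344, nat_lit 2064, nat_lit 15312, nat_lit 8592, nat_lit 5568, R11_319, R0_179, R9_116⟩]⟩]⟩]]], [[], [], [[], [], [], [], [⟨nat_lit 2, [⟨nat_lit 5, [⟨nat_lit 1, nat_lit 8976, nat_lit 3888,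 nat_lit 9024, nat_lit 3264, nat_lit 11712, R11_188, R1_68, R13_244⟩]⟩]⟩], [⟨nat_lit 2, [⟨nat_lit 1, [⟨nat_lit 1, nat_lit 15840, nat_lit 13680, nat_lit 6000, nat_lit 3408, nat_lit 14112, R1_125, R1_71, R2_294⟩]⟩, ⟨nat_lit 5, [⟨nat_lit 1, nat_lit 9120, nat_lit 3360, nat_lit 9072, nat_lit 3360, nat_lit 9120, R11_189, R1_70, R3_190⟩]⟩]⟩], [⟨nat_lit 0, [⟨nat_lit 5, [⟨nat_lit 5, nat_lit 7728, nat_lit 15648, nat_lit 7440, nat_lit 6960, nat_lit 9072, R5_155, R5_145, R2_189⟩]⟩]⟩,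
 ⟨nat_lit 1, [⟨nat_lit 5, [⟨nat_lit 5, nat_lit 8304, nat_lit 16320, nat_lit 10608, nat_lit 13776, nat_lit 9168, R0_221, R0_287, R2_191⟩]⟩]⟩,
 ⟨nat_lit 2, [⟨nat_lit 5, [⟨nat_lit 1, nat_lit 9216, nat_lit 16992, nat_lit 9120, nat_lit 3312, nat_lit 15552, R11_190, R1_69, R3_324⟩, ⟨nat_lit 5, nat_lit 8016, nat_lit 16944, nat_lit 7056, nat_lit 6576, nat_lit 9120, R11_147, R11_137, R2_190⟩]⟩]⟩]], [], [], [], [[], [], [], [], [⟨nat_lit 2, [⟨nat_lit 5, [⟨nat_lit 0, nat_lit 8592, nat_lit 672, nat_lit 7968, nat_lit 16176, nat_lit 13920, R11_166, R3_337, R6_290⟩, ⟨nat_lit 1, nat_lit 8928, nat_lit 4272, nat_lit 9696, nat_lit 3792, nat_lit 11664, R11_202, R10_79, R13_243⟩]⟩]⟩], [⟨nat_lit 2, [⟨nat_lit 1, [⟨nat_lit 0, nat_lit 15456, nat_lit 12432, nat_lit 5952, nat_lit 10320, nat_lit 14976, R1_124, R3_215, R7_312⟩, ⟨nat_lit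 1, nat_lit 15792, nat_lit 12528, nat_lit 6048, nat_lit 3936, nat_lit 14160, R1_126, R10_82, R2_295⟩]⟩, ⟨nat_lit 5, [⟨nat_lit 0, nat_lit 8640, nat_lit 12384, nat_lit 8064, nat_lit 16800, nat_lit 13728, R11_168, R3_350, R4_286⟩, ⟨nat_lit 1, nat_lit 9072, nat_lit 12480, nat_lit 9792, nat_lit 3888, nat_lit 9072, R11_204, R10_81, R3_189⟩]⟩]⟩], [], [⟨nat_lit 2, [⟨nat_lit 5, [⟨nat_lit 0, nat_lit 8736, nat_lit 9888, nat_lit 8016, nat_lit 16608, nat_lit 14640, R11_167, R3_346, R8_305⟩, ⟨nat_lit 1, nat_lit 9360, nat_lit 9936, nat_lit 9744, nat_lit 3840, nat_lit 9216, R11_203, R10_80, R9_192⟩, ⟨nat_lit 3, nat_lit 9552, nat_lit 9984, nat_lit 8784, nat_lit 2784, nat_lit 10560, R11_183, R0_58, R5_220⟩]⟩]⟩]]], [[[], [], [], [], [], [], [⟨nat_lit 0, [⟨nat_lit 4, [⟨nat_lit 5, nat_lit 1296, nat_lit 2400, nat_lit 8640, nat_lit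 7056, nat_lit 10032, R13_180, R8_147, R7_209⟩]⟩, ⟨nat_lit 5, [⟨nat_lit 5, nat_lit 7776, nat_lit 2544, nat_lit 6240, nat_lit 7296, nat_lit 9216, R9_130, R8_152, R2_192⟩]⟩, ⟨nat_lit 6, [⟨nat_lit 5, nat_lit 6480, nat_lit 2832, nat_lit 7008, nat_lit 7200, nat_lit 4224, R3_146, R8_150, R2_88⟩]⟩]⟩,
 ⟨nat_lit 1, [⟨nat_lit 4, [⟨nat_lit 5, nat_lit 1920, nat_lit 10032, nat_lit 2976, nat_lit 7728, nat_lit 10368, R9_62, R9_161, R7_216⟩]⟩, ⟨nat_lit 6, [⟨nat_lit 5, nat_lit 6864, nat_lit 10176, nat_lit 1440, nat_lit 7872, nat_lit 4512, R0_30, R9_164, R2_94⟩]⟩]⟩,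
 ⟨nat_lit 2, [⟨nat_lit 4, [⟨nat_lit 5, nat_lit 1536, nat_lit 11088, nat_lit 3408, nat_lit 15264, nat_lit 10176, R3_71, R5_318, R7_212⟩]⟩, ⟨nat_lit 5, [⟨nat_lit 5, nat_lit 8064, nat_lit 11280, nat_lit 4080, nat_lit 15408, nat_lit 9360, R0_85, R5_321, R2_195⟩]⟩]⟩]], [], [[], [], [], [], [⟨nat_lit 2, [⟨nat_lit 4, [⟨nat_lit 1, nat_lit 3120, nat_lit 1872, nat_lit 2112, nat_lit 2832, nat_lit 8976, R3_44, R1_59, R6_187⟩]⟩, ⟨nat_lit 5, [⟨nat_lit 1, nat_lit 9024, nat_lit 8736, nat_lit 6432, nat_lit 3120, nat_lit 11760, R0_134, R1_65, R13_245⟩]⟩]⟩], [], [⟨nat_lit 0, [⟨nat_lit 4, [⟨nat_lit 5, nat_lit 1344, nat_lit 480, nat_lit 9600, nat_lit 4848, nat_lit 10080, R13_200, R5_101, R7_210⟩]⟩, ⟨nat_lit 5, [⟨nat_lit 5, nat_lit 7824, nat_lit 1632, nat_lit 7440, nat_lit 6576, nat_lit 9264, R9_155, R5_137, R2_193⟩]⟩, ⟨nat_lit 6,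 [⟨nat_lit 5, nat_lit 6528, nat_lit 2592, nat_lit 7536, nat_lit 5424, nat_lit 4272, R3_157, R5_113, R2_89⟩]⟩]⟩,
 ⟨nat_lit 1, [⟨nat_lit 4, [⟨nat_lit 5, nat_lit 1968, nat_lit 7680, nat_lit 3024, nat_lit 13056, nat_lit 10416, R9_63, R0_272, R7_217⟩]⟩, ⟨nat_lit 6, [⟨nat_lit 5, nat_lit 6912, nat_lit 9552, nat_lit 1488, nat_lit 13104, nat_lit 4560, R0_31, R0_273, R2_95⟩]⟩]⟩,
 ⟨nat_lit 2, [⟨nat_lit 4, [⟨nat_lit 1, nat_lit 3216, nat_lit 10416, nat_lit 2832, nat_lit 2880, nat_lit 9600, R3_59, R1_60, R4_200⟩, ⟨nat_lit 5, nat_lit 1584, nat_lit 10464, nat_lit 3504, nat_lit 4848, nat_lit 10224, R3_73, R11_101, R7_213⟩]⟩, ⟨nat_lit 5, [⟨nat_lit 1, nat_lit 9264, nat_lit 11232, nat_lit 6528, nat_lit 3168, nat_lit 15600, R0_136, R1_66, R3_325⟩, ⟨nat_lit 5, nat_lit 8112, nat_lit 11328, nat_lit 5280, nat_lit 6192, nat_lit 9408,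 R0_110, R11_129, R2_196⟩]⟩]⟩], [⟨nat_lit 2, [⟨nat_lit 4, [⟨nat_lit 1, nat_lit 3360, nat_lit 1344, nat_lit 2448, nat_lit 2928, nat_lit 8448, R3_51, R1_61, R8_176⟩]⟩, ⟨nat_lit 5, [⟨nat_lit 1, nat_lit 9456, nat_lit 9552, nat_lit 6480, nat_lit 3216, nat_lit 9312, R0_135, R1_67, R9_194⟩]⟩, ⟨nat_lit 7, [⟨nat_lit 1, nat_lit 10560, nat_lit 6768, nat_lit 8400, nat_lit 2976, nat_lit 16464, R10_175, R1_62, R5_343⟩]⟩]⟩]], [[], [], [⟨nat_lit 0, [⟨nat_lit 4, [⟨nat_lit 4, nat_lit 96, nat_lit 624, nat_lit 5568, nat_lit 5040, nat_lit 6048, R13_116, R13_105, R6_126⟩, ⟨nat_lit 5, nat_lit 816, nat_lit 1248, nat_lit 9168, nat_lit 3984, nat_lit 6384, R13_191, R9_83, R4_133⟩, ⟨nat_lit 7, nat_lit 2352, nat_lit 912, nat_lit 7296, nat_lit 3984, nat_lit 8208, R13_152, R3_83, R8_171⟩]⟩, ⟨nat_lit 6, [⟨nat_lit 4, nat_lit 3840, nat_lit 3456,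 nat_lit 3840, nat_lit 6624, nat_lit 7440, R3_80, R13_138, R13_155⟩, ⟨nat_lit 5, nat_lit 6144, nat_lit 4128, nat_lit 7248, nat_lit 4896, nat_lit 6240, R3_151, R9_102, R3_130⟩, ⟨nat_lit 6, nat_lit 5568, nat_lit 4224, nat_lit 5568, nat_lit 4992, nat_lit 4992, R3_116, R3_104, R3_104⟩, ⟨nat_lit 7, nat_lit 7248, nat_lit 3744, nat_lit 6144, nat_lit 6240, nat_lit 5472, R3_128, R3_130, R9_114⟩]⟩, ⟨nat_lit 7, [⟨nat_lit 7, nat_lit 9984, nat_lit 1632, nat_lit 5328, nat_lit 5712, nat_lit 5760, R3_111, R3_119, R5_120⟩]⟩]⟩,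
 ⟨nat_lit 1, [⟨nat_lit 4, [⟨nat_lit 4, nat_lit 528, nat_lit 11856, nat_lit 1968, nat_lit 13296, nat_lit 6480, R9_41, R9_277, R6_135⟩, ⟨nat_lit 7, nat_lit 2640, nat_lit 12240, nat_lit 2640, nat_lit 7344, nat_lit 8880, R9_55, R0_153, R8_185⟩]⟩, ⟨nat_lit 6, [⟨nat_lit 4, nat_lit 4128, nat_lit 14640, nat_lit 288, nat_lit 13920, nat_lit 7536, R0_6, R9_290, R13_157⟩, ⟨nat_lit 6, nat_lit 5856, nat_lit 15552, nat_lit 528, nat_lit 12048, nat_lit 5280, R0_11, R0_251, R3_110⟩, ⟨nat_lit 7, nat_lit 7392, nat_lit 15072, nat_lit 1104, nat_lit 8448, nat_lit 5520, R0_23, R0_176, R9_115⟩]⟩, ⟨nat_lit 7, [⟨nat_lit 7, nat_lit 10176, nat_lit 13296, nat_lit 14640, nat_lit 8064, nat_lit 5856, R0_305, R0_168, R5_122⟩]⟩]⟩,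
 ⟨nat_lit 2, [⟨nat_lit 4, [⟨nat_lit 4, nat_lit 240, nat_lit 16032, nat_lit 2976, nat_lit 11520, nat_lit 6192, R3_62, R3_240, R6_129⟩, ⟨nat_lit 5, nat_lit 960, nat_lit 16320, nat_lit 3600, nat_lit 2448, nat_lit 6528, R3_75, R0_51, R4_136⟩, ⟨nat_lit 7, nat_lit 2496, nat_lit 16176, nat_lit 3312, nat_lit 3552, nat_lit 8400, R3_69, R10_74, R8_175⟩]⟩, ⟨nat_lit 7, [⟨nat_lit 7, nat_lit 10128, nat_lit 16560, nat_lit 4704, nat_lit 4128, nat_lit 5808, R10_98, R10_86, R5_121⟩]⟩]⟩,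
 ⟨nat_lit 3, [⟨nat_lit 4, [⟨nat_lit 4, nat_lit 672, nat_lit 7968, nat_lit 16176, nat_lit 8592, nat_lit 6240, R3_337, R3_179, R6_130⟩, ⟨nat_lit 5, nat_lit 1152, nat_lit 8304, nat_lit 17520, nat_lit 2928, nat_lit 6576, R3_365, R0_61, R4_137⟩]⟩, ⟨nat_lit 6, [⟨nat_lit 4, nat_lit 4272, nat_lit 9696, nat_lit 528, nat_lit 8928, nat_lit 7488, R10_11, R3_186, R13_156⟩, ⟨nat_lit 5, nat_lit 6336, nat_lit 10128, nat_lit 2592, nat_lit 3312, nat_lit 6288, R10_54, R0_69, R3_131⟩, ⟨nat_lit 6, nat_lit 6000, nat_lit 10224, nat_lit 864, nat_lit 14304, nat_lit 5040, R10_18, R10_298, R3_105⟩]⟩]⟩], [], [], [], [⟨nat_lit 0, [⟨nat_lit 4, [⟨nat_lit 5, nat_lit 1392, nat_lit 1872, nat_lit 9120, nat_lit 4032, nat_lit 10128, R13_190, R9_84, R7_211⟩]⟩, ⟨nat_lit 5, [⟨nat_lit 5, nat_lit 7872, nat_lit 2016, nat_lit 6960, nat_lit 6528, nat_lit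 9312, R9_145, R9_136, R2_194⟩]⟩, ⟨nat_lit 6, [⟨nat_lit 5, nat_lit 6576, nat_lit 2304, nat_lit 7200, nat_lit 4944, nat_lit 4320, R3_150, R9_103, R2_90⟩]⟩]⟩,
 ⟨nat_lit 2, [⟨nat_lit 4, [⟨nat_lit 5, nat_lit 1632, nat_lit 11664, nat_lit 3456, nat_lit 2496, nat_lit 10272, R3_72, R0_52, R7_214⟩]⟩, ⟨nat_lit 5, [⟨nat_lit 5, nat_lit 8160, nat_lit 11856, nat_lit 4800, nat_lit 4368, nat_lit 9456, R0_100, R0_91, R2_197⟩]⟩]⟩,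
 ⟨nat_lit 3, [⟨nat_lit 4, [⟨nat_lit 5, nat_lit 2016, nat_lit 7296, nat_lit 10656, nat_lit 2592, nat_lit 10320, R3_222, R0_54, R7_215⟩]⟩, ⟨nat_lit 5, [⟨nat_lit 5, nat_lit 8496, nat_lit 7392, nat_lit 5040, nat_lit 4464, nat_lit 9504, R0_105, R0_93, R2_198⟩]⟩, ⟨nat_lit 6, [⟨nat_lit 5, nat_lit 6960, nat_lit 7680, nat_lit 2304, nat_lit 3120, nat_lit 4368, R10_48, R0_65, R2_91⟩]⟩]⟩]], [[], [], [], [⟨nat_lit 2, [⟨nat_lit 4, [⟨nat_lit 3, nat_lit 3408, nat_lit 11088, nat_lit 1536, nat_lit 15264, nat_lit 10176, R3_32, R5_318, R7_212⟩]⟩, ⟨nat_lit 7, [⟨nat_lit 0, nat_lit 10368, nat_lit 10800, nat_lit 7056, nat_lit 13632, nat_lit 14784, R10_147, R4_284, R7_308⟩, ⟨nat_lit 3, nat_lit 10896, nat_lit 11136, nat_lit 7392, nat_lit 15456, nat_lit 9984, R10_154, R5_322, R14_208⟩]⟩]⟩]], [], [[], [], [], [⟨nat_lit 2, [⟨nat_lit 4,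 [⟨nat_lit 3, nat_lit 3456, nat_lit 11664, nat_lit 1632, nat_lit 2496, nat_lit 10272, R3_34, R0_52, R7_214⟩]⟩, ⟨nat_lit 7, [⟨nat_lit 0, nat_lit 10416, nat_lit 11184, nat_lit 7248, nat_lit 15408, nat_lit 15024, R10_151, R3_321, R7_313⟩, ⟨nat_lit 3, nat_lit 10944, nat_lit 11712, nat_lit 8256, nat_lit 2544, nat_lit 10032, R10_172, R0_53, R14_209⟩]⟩]⟩], [], [], [], [⟨nat_lit 2, [⟨nat_lit 4, [⟨nat_lit 0, nat_lit 2976, nat_lit 16032, nat_lit 240, nat_lit 11520, nat_lit 6192, R3_5, R3_240, R6_129⟩, ⟨nat_lit 1, nat_lit 3312, nat_lit 16176, nat_lit 2496, nat_lit 3552, nat_lit 8400, R3_52, R10_74, R8_175⟩, ⟨nat_lit 3, nat_lit 3600, nat_lit 16320, nat_lit 960, nat_lit 2448, nat_lit 6528, R3_20, R0_51, R4_136⟩]⟩, ⟨nat_lit 5, [⟨nat_lit 0, nat_lit 8784, nat_lit 16080, nat_lit 5712, nat_lit 16512, nat_lit 14688, R0_119, R3_344,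 R8_306⟩, ⟨nat_lit 1, nat_lit 9408, nat_lit 16224, nat_lit 7008, nat_lit 3744, nat_lit 9264, R0_146, R10_78, R9_193⟩, ⟨nat_lit 3, nat_lit 9600, nat_lit 16368, nat_lit 6240, nat_lit 2736, nat_lit 10608, R0_130, R0_57, R5_221⟩]⟩, ⟨nat_lit 7, [⟨nat_lit 0, nat_lit 10464, nat_lit 16128, nat_lit 7200, nat_lit 15312, nat_lit 13296, R10_150, R3_319, R4_277⟩, ⟨nat_lit 1, nat_lit 10512, nat_lit 16272, nat_lit 8592, nat_lit 3600, nat_lit 16512, R10_179, R10_75, R5_344⟩]⟩]⟩]], [[⟨nat_lit 0, [⟨nat_lit 4, [⟨nat_lit 7, nat_lit 2064, nat_lit 1776, nat_lit 7824, nat_lit 3360, nat_lit 7872, R13_163, R2_70, R6_164⟩]⟩, ⟨nat_lit 6, [⟨nat_lit 7, nat_lit 7008, nat_lit 2832, nat_lit 6480, nat_lit 4224, nat_lit 7200, R3_135, R2_88, R8_150⟩]⟩, ⟨nat_lit 7, [⟨nat_lit 7, nat_lit 9696, nat_lit 2304, nat_lit 13248, nat_lit 4800, nat_lit 8352,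 R3_276, R2_100, R4_174⟩]⟩]⟩,
 ⟨nat_lit 2, [⟨nat_lit 4, [⟨nat_lit 7, nat_lit 2112, nat_lit 1872, nat_lit 3120, nat_lit 2832, nat_lit 7968, R3_65, R1_59, R6_166⟩]⟩, ⟨nat_lit 7, [⟨nat_lit 3, nat_lit 10752, nat_lit 624, nat_lit 7680, nat_lit 4896, nat_lit 8400, R10_160, R11_102, R7_175⟩, ⟨nat_lit 7, nat_lit 9792, nat_lit 2352, nat_lit 5280, nat_lit 3504, nat_lit 8400, R10_110, R1_73, R4_175⟩]⟩]⟩,
 ⟨nat_lit 3, [⟨nat_lit 4, [⟨nat_lit 7, nat_lit 2208, nat_lit 1824, nat_lit 11760, nat_lit 3024, nat_lit 7920, R3_245, R12_63, R6_165⟩]⟩, ⟨nat_lit 6, [⟨nat_lit 4, nat_lit 3696, nat_lit 1056, nat_lit 240, nat_lit 12240, nat_lit 6720, R10_5, R2_255, R6_140⟩, ⟨nat_lit 6, nat_lit 4848, nat_lit 3072, nat_lit 768, nat_lit 12816, nat_lit 7008, R10_16, R1_267, R4_146⟩, ⟨nat_lit 7, nat_lit 7104, nat_lit 2880, nat_lit 1104, nat_lit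 3264, nat_lit 7248, R10_23, R12_68, R8_151⟩]⟩]⟩], [], [⟨nat_lit 0, [⟨nat_lit 4, [⟨nat_lit 7, nat_lit 2304, nat_lit 1248, nat_lit 7920, nat_lit 3456, nat_lit 8256, R13_165, R2_72, R8_172⟩]⟩, ⟨nat_lit 6, [⟨nat_lit 7, nat_lit 7200, nat_lit 2304, nat_lit 6576, nat_lit 4320, nat_lit 5280, R3_137, R2_90, R9_110⟩]⟩, ⟨nat_lit 7, [⟨nat_lit 7, nat_lit 9936, nat_lit 1776, nat_lit 13440, nat_lit 4848, nat_lit 5664, R3_280, R2_101, R5_118⟩]⟩]⟩,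
 ⟨nat_lit 2, [⟨nat_lit 4, [⟨nat_lit 7, nat_lit 2448, nat_lit 1344, nat_lit 3360, nat_lit 2928, nat_lit 8448, R3_70, R1_61, R8_176⟩]⟩, ⟨nat_lit 7, [⟨nat_lit 7, nat_lit 10080, nat_lit 1824, nat_lit 5328, nat_lit 3552, nat_lit 5712, R10_111, R1_74, R5_119⟩]⟩]⟩,
 ⟨nat_lit 3, [⟨nat_lit 4, [⟨nat_lit 4, nat_lit 624, nat_lit 192, nat_lit 15936, nat_lit 11904, nat_lit 6288, R3_332, R2_248, R6_131⟩, ⟨nat_lit 7, nat_lit 2736, nat_lit 1296, nat_lit 16896, nat_lit 3072, nat_lit 8544, R3_352, R12_64, R8_178⟩]⟩, ⟨nat_lit 6, [⟨nat_lit 4, nat_lit 4224, nat_lit 384, nat_lit 576, nat_lit 12384, nat_lit 7152, R10_12, R2_258, R13_149⟩, ⟨nat_lit 6, nat_lit 5952, nat_lit 2544, nat_lit 912, nat_lit 12960, nat_lit 5088, R10_19, R1_270, R3_106⟩, ⟨nat_lit 7, nat_lit 7488, nat_lit 2352, nat_lit 2112, nat_lit 3312, nat_lit 5328, R10_44,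 R12_69, R9_111⟩]⟩]⟩], [⟨nat_lit 0, [⟨nat_lit 4, [⟨nat_lit 7, nat_lit 2784, nat_lit 10224, nat_lit 7872, nat_lit 3408, nat_lit 9408, R13_164, R2_71, R4_196⟩]⟩, ⟨nat_lit 6, [⟨nat_lit 7, nat_lit 7536, nat_lit 10272, nat_lit 6528, nat_lit 4272, nat_lit 5424, R3_136, R2_89, R5_113⟩]⟩]⟩,
 ⟨nat_lit 2, [⟨nat_lit 4, [⟨nat_lit 3, nat_lit 3504, nat_lit 10464, nat_lit 1584, nat_lit 4848, nat_lit 10224, R3_33, R11_101, R7_213⟩, ⟨nat_lit 7, nat_lit 2832, nat_lit 10416, nat_lit 3216, nat_lit 2880, nat_lit 9600, R3_67, R1_60, R4_200⟩]⟩, ⟨nat_lit 7, [⟨nat_lit 3, nat_lit 10992, nat_lit 10512, nat_lit 7728, nat_lit 4944, nat_lit 10080, R10_161, R11_103, R14_210⟩]⟩]⟩,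
 ⟨nat_lit 3, [⟨nat_lit 4, [⟨nat_lit 7, nat_lit 2880, nat_lit 10320, nat_lit 14112, nat_lit 3120, nat_lit 9984, R3_294, R12_65, R4_208⟩]⟩, ⟨nat_lit 6, [⟨nat_lit 7, nat_lit 7584, nat_lit 10368, nat_lit 1536, nat_lit 3360, nat_lit 5472, R10_32, R12_70, R5_114⟩]⟩]⟩]]], [[], [], [], [], [[⟨nat_lit 4, [⟨nat_lit 2, [⟨nat_lit 2, nat_lit 13584, nat_lit 4080, nat_lit 1296, nat_lit 1680, nat_lit 9648, R7_27, R7_35, R4_201⟩, ⟨nat_lit 6, nat_lit 12336, nat_lit 3264, nat_lit 768, nat_lit 1584, nat_lit 10608, R7_16, R4_33, R7_221⟩]⟩, ⟨nat_lit 6, [⟨nat_lit 6, nat_lit 4320, nat_lit 3120, nat_lit 672, nat_lit 1008, nat_lit 6768, R4_14, R4_21, R4_141⟩]⟩]⟩,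
 ⟨nat_lit 6, [⟨nat_lit 0, [⟨nat_lit 2, nat_lit 11568, nat_lit 11328, nat_lit 240, nat_lit 8256, nat_lit 9024, R7_5, R14_172, R6_188⟩]⟩, ⟨nat_lit 2, [⟨nat_lit 2, nat_lit 13872, nat_lit 11568, nat_lit 18624, nat_lit 8304, nat_lit 9696, R14_388, R14_173, R4_202⟩]⟩]⟩,
 ⟨nat_lit 7, [⟨nat_lit 6, [⟨nat_lit 6, nat_lit 4512, nat_lit 7296, nat_lit 1584, nat_lit 0, nat_lit 6816, R5_33, R5_0, R4_142⟩]⟩]⟩], [⟨nat_lit 2, [⟨nat_lit 0, [⟨nat_lit 0, nat_lit 11376, nat_lit 18144, nat_lit 4800, nat_lit 14160, nat_lit 13344, R4_100, R4_295, R6_278⟩]⟩, ⟨nat_lit 3, [⟨nat_lit 0, nat_lit 16368, nat_lit 19008, nat_lit 9264, nat_lit 14400, nat_lit 14208, R5_193, R4_300, R8_296⟩, ⟨nat_lit 3, nat_lit 17664, nat_lit 19152, nat_lit 9648, nat_lit 16944, nat_lit 10656, R5_201, R5_353, R5_222⟩]⟩]⟩,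
 ⟨nat_lit 4, [⟨nat_lit 2, [⟨nat_lit 2, nat_lit 14352, nat_lit 4032, nat_lit 1392, nat_lit 1824, nat_lit 14352, R7_29, R7_38, R3_299⟩, ⟨nat_lit 6, nat_lit 12768, nat_lit 4176, nat_lit 816, nat_lit 1728, nat_lit 9696, R7_17, R4_36, R2_202⟩]⟩]⟩,
 ⟨nat_lit 6, [⟨nat_lit 0, [⟨nat_lit 0, nat_lit 11040, nat_lit 11280, nat_lit 4752, nat_lit 15696, nat_lit 13008, R7_99, R7_327, R6_271⟩, ⟨nat_lit 2, nat_lit 11904, nat_lit 11424, nat_lit 5184, nat_lit 8880, nat_lit 11808, R7_108, R14_185, R13_246⟩]⟩, ⟨nat_lit 2, [⟨nat_lit 2, nat_lit 14592, nat_lit 12000, nat_lit 19104, nat_lit 8928, nat_lit 14592, R14_398, R14_186, R3_304⟩]⟩]⟩], [⟨nat_lit 4, [⟨nat_lit 2, [⟨nat_lit 6, nat_lit 13104, nat_lit 2928, nat_lit 912, nat_lit 1632, nat_lit 4752, R7_19, R4_34, R2_99⟩]⟩, ⟨nat_lit 6, [⟨nat_lit 6, nat_lit 4896, nat_lit 2784, nat_lit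 816, nat_lit 1104, nat_lit 5472, R4_17, R4_23, R3_114⟩]⟩]⟩,
 ⟨nat_lit 7, [⟨nat_lit 6, [⟨nat_lit 6, nat_lit 5184, nat_lit 7968, nat_lit 3984, nat_lit 96, nat_lit 5616, R5_83, R5_2, R3_117⟩]⟩]⟩]], [[⟨nat_lit 4, [⟨nat_lit 2, [⟨nat_lit 2, nat_lit 13632, nat_lit 11184, nat_lit 7296, nat_lit 240, nat_lit 9792, R7_152, R2_5, R4_204⟩, ⟨nat_lit 6, nat_lit 12384, nat_lit 11136, nat_lit 6768, nat_lit 12384, nat_lit 10656, R7_141, R3_258, R7_222⟩]⟩, ⟨nat_lit 6, [⟨nat_lit 6, nat_lit 4368, nat_lit 17856, nat_lit 7056, nat_lit 4368, nat_lit 7056, R4_147, R3_91, R4_147⟩]⟩]⟩,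
 ⟨nat_lit 6, [⟨nat_lit 0, [⟨nat_lit 2, nat_lit 11664, nat_lit 3840, nat_lit 336, nat_lit 6864, nat_lit 9120, R7_7, R12_143, R6_190⟩]⟩, ⟨nat_lit 2, [⟨nat_lit 2, nat_lit 13968, nat_lit 11808, nat_lit 20112, nat_lit 6912, nat_lit 9840, R14_419, R12_144, R4_205⟩]⟩]⟩,
 ⟨nat_lit 7, [⟨nat_lit 6, [⟨nat_lit 6, nat_lit 4560, nat_lit 18672, nat_lit 10080, nat_lit 11856, nat_lit 7104, R5_210, R0_247, R4_148⟩]⟩]⟩], [⟨nat_lit 4, [⟨nat_lit 2, [⟨nat_lit 2, nat_lit 14400, nat_lit 3216, nat_lit 7392, nat_lit 384, nat_lit 14496, R7_154, R2_8, R3_302⟩, ⟨nat_lit 6, nat_lit 12816, nat_lit 3360, nat_lit 6816, nat_lit 12528, nat_lit 9744, R7_142, R3_261, R2_203⟩]⟩]⟩,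
 ⟨nat_lit 6, [⟨nat_lit 0, [⟨nat_lit 2, nat_lit 12000, nat_lit 12192, nat_lit 5280, nat_lit 7488, nat_lit 11904, R7_110, R12_156, R13_248⟩]⟩, ⟨nat_lit 2, [⟨nat_lit 2, nat_lit 14688, nat_lit 12960, nat_lit 20784, nat_lit 7536, nat_lit 14928, R14_433, R12_157, R3_311⟩]⟩]⟩], [⟨nat_lit 4, [⟨nat_lit 2, [⟨nat_lit 6, nat_lit 13152, nat_lit 3168, nat_lit 6912, nat_lit 12432, nat_lit 4944, R7_144, R3_259, R2_103⟩]⟩, ⟨nat_lit 6, [⟨nat_lit 6, nat_lit 4944, nat_lit 4224, nat_lit 7200, nat_lit 4416, nat_lit 5520, R4_150, R3_92, R3_115⟩]⟩]⟩,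
 ⟨nat_lit 7, [⟨nat_lit 6, [⟨nat_lit 6, nat_lit 5232, nat_lit 12576, nat_lit 12432, nat_lit 12000, nat_lit 5664, R5_259, R0_250, R3_118⟩]⟩]⟩]], [[⟨nat_lit 6, [⟨nat_lit 0, [⟨nat_lit 2, nat_lit 11616, nat_lit 2304, nat_lit 480, nat_lit 2688, nat_lit 9072, R7_10, R12_56, R6_189⟩]⟩, ⟨nat_lit 2, [⟨nat_lit 2, nat_lit 13920, nat_lit 11184, nat_lit 21696, nat_lit 2736, nat_lit 9744, R14_452, R12_57, R4_203⟩]⟩]⟩], [⟨nat_lit 2, [⟨nat_lit 0, [⟨nat_lit 0, nat_lit 11424, nat_lit 3408, nat_lit 4992, nat_lit 2928, nat_lit 13440, R4_104, R3_61, R6_280⟩]⟩, ⟨nat_lit 3, [⟨nat_lit 0, nat_lit 16416, nat_lit 11472, nat_lit 11424, nat_lit 8688, nat_lit 14592, R5_238, R3_181, R8_304⟩, ⟨nat_lit 3, nat_lit 17712, nat_lit 11616, nat_lit 11856, nat_lit 2880, nat_lit 10704, R5_247, R0_60, R5_223⟩]⟩]⟩,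
 ⟨nat_lit 6, [⟨nat_lit 0, [⟨nat_lit 0, nat_lit 11088, nat_lit 2544, nat_lit 4800, nat_lit 14400, nat_lit 13152, R7_100, R2_300, R6_274⟩, ⟨nat_lit 2, nat_lit 11952, nat_lit 2688, nat_lit 5424, nat_lit 4032, nat_lit 11856, R7_113, R12_84, R13_247⟩]⟩, ⟨nat_lit 2, [⟨nat_lit 2, nat_lit 14640, nat_lit 13920, nat_lit 22080, nat_lit 4080, nat_lit 14736, R14_460, R12_85, R3_307⟩]⟩]⟩]]], [[], [[], [], [⟨nat_lit 5, [⟨nat_lit 2, [⟨nat_lit 6, nat_lit 13392, nat_lit 2496, nat_lit 15456, nat_lit 12912, nat_lit 5184, R1_322, R1_269, R2_108⟩]⟩, ⟨nat_lit 6, [⟨nat_lit 6, nat_lit 5088, nat_lit 2544, nat_lit 18768, nat_lit 12960, nat_lit 5952, R10_391, R1_270, R3_124⟩]⟩]⟩]], [], [], [], [[⟨nat_lit 4, [⟨nat_lit 2, [⟨nat_lit 2, nat_lit 13680, nat_lit 768, nat_lit 5520, nat_lit 5952, nat_lit 10272, R2_115, R2_124, R4_214⟩, ⟨nat_lit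 6, nat_lit 12432, nat_lit 3168, nat_lit 4944, nat_lit 13152, nat_lit 10944, R2_103, R3_274, R7_228⟩]⟩, ⟨nat_lit 6, [⟨nat_lit 6, nat_lit 4416, nat_lit 4224, nat_lit 5520, nat_lit 4944, nat_lit 7200, R3_115, R3_103, R4_150⟩]⟩]⟩,
 ⟨nat_lit 5, [⟨nat_lit 2, [⟨nat_lit 2, nat_lit 14256, nat_lit 816, nat_lit 4224, nat_lit 4656, nat_lit 10368, R1_88, R1_97, R4_216⟩, ⟨nat_lit 6, nat_lit 12576, nat_lit 3216, nat_lit 3648, nat_lit 5376, nat_lit 10992, R1_76, R10_112, R7_229⟩]⟩, ⟨nat_lit 6, [⟨nat_lit 6, nat_lit 4464, nat_lit 4320, nat_lit 4320, nat_lit 4752, nat_lit 7296, R10_90, R10_99, R4_152⟩]⟩]⟩,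
 ⟨nat_lit 6, [⟨nat_lit 2, [⟨nat_lit 2, nat_lit 14016, nat_lit 864, nat_lit 15888, nat_lit 7776, nat_lit 10320, R12_331, R12_162, R4_215⟩]⟩]⟩,
 ⟨nat_lit 7, [⟨nat_lit 6, [⟨nat_lit 6, nat_lit 4608, nat_lit 4272, nat_lit 480, nat_lit 11904, nat_lit 7248, R0_10, R0_248, R4_151⟩]⟩]⟩], [⟨nat_lit 4, [⟨nat_lit 2, [⟨nat_lit 2, nat_lit 14448, nat_lit 1680, nat_lit 5616, nat_lit 6096, nat_lit 14544, R2_117, R2_127, R3_303⟩, ⟨nat_lit 6, nat_lit 12864, nat_lit 1824, nat_lit 4992, nat_lit 13296, nat_lit 9936, R2_104, R3_277, R2_207⟩]⟩]⟩,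
 ⟨nat_lit 5, [⟨nat_lit 2, [⟨nat_lit 2, nat_lit 15072, nat_lit 6720, nat_lit 4320, nat_lit 4800, nat_lit 15120, R1_90, R1_100, R3_315⟩, ⟨nat_lit 6, nat_lit 12960, nat_lit 6864, nat_lit 3696, nat_lit 5520, nat_lit 9984, R1_77, R10_115, R2_208⟩]⟩]⟩,
 ⟨nat_lit 6, [⟨nat_lit 2, [⟨nat_lit 2, nat_lit 14880, nat_lit 11136, nat_lit 16560, nat_lit 7920, nat_lit 15024, R12_345, R12_165, R3_313⟩]⟩]⟩], [⟨nat_lit 4, [⟨nat_lit 2, [⟨nat_lit 6, nat_lit 13200, nat_lit 3168, nat_lit 5088, nat_lit 13200, nat_lit 5088, R2_106, R3_275, R2_106⟩]⟩, ⟨nat_lit 6, [⟨nat_lit 6, nat_lit 4992, nat_lit 4224, nat_lit 5568, nat_lit 4992, nat_lit 5568, R3_116, R3_104, R3_116⟩]⟩]⟩,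
 ⟨nat_lit 5, [⟨nat_lit 2, [⟨nat_lit 6, nat_lit 13344, nat_lit 9408, nat_lit 3792, nat_lit 5424, nat_lit 5136, R1_79, R10_113, R2_107⟩]⟩, ⟨nat_lit 6, [⟨nat_lit 6, nat_lit 5040, nat_lit 10224, nat_lit 4464, nat_lit 4848, nat_lit 6000, R10_93, R10_101, R3_125⟩]⟩]⟩,
 ⟨nat_lit 7, [⟨nat_lit 6, [⟨nat_lit 6, nat_lit 5280, nat_lit 15552, nat_lit 528, nat_lit 12048, nat_lit 5856, R0_11, R0_251, R3_122⟩]⟩]⟩]]], [[], [], [], [], [[], [⟨nat_lit 2, [⟨nat_lit 0, [⟨nat_lit 0, nat_lit 11472, nat_lit 13104, nat_lit 192, nat_lit 14208, nat_lit 13392, R3_4, R4_296, R6_279⟩]⟩, ⟨nat_lit 1, [⟨nat_lit 0, nat_lit 15264, nat_lit 13200, nat_lit 7152, nat_lit 14592, nat_lit 13248, R10_149, R4_304, R4_276⟩]⟩, ⟨nat_lit 3, [⟨nat_lit 0, nat_lit 16464, nat_lit 13152, nat_lit 5664, nat_lit 14496, nat_lit 14304, R0_118, R4_302, R8_298⟩, ⟨nat_lit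 3, nat_lit 17760, nat_lit 13488, nat_lit 5760, nat_lit 17664, nat_lit 10752, R0_120, R5_368, R5_224⟩]⟩]⟩,
 ⟨nat_lit 6, [⟨nat_lit 0, [⟨nat_lit 0, nat_lit 11136, nat_lit 12816, nat_lit 3168, nat_lit 15888, nat_lit 13056, R2_66, R7_331, R6_272⟩, ⟨nat_lit 2, nat_lit 12048, nat_lit 13824, nat_lit 3600, nat_lit 11136, nat_lit 11952, R2_75, R14_232, R13_249⟩]⟩, ⟨nat_lit 1, [⟨nat_lit 0, nat_lit 15168, nat_lit 12864, nat_lit 2640, nat_lit 16560, nat_lit 13152, R1_55, R7_345, R4_274⟩, ⟨nat_lit 2, nat_lit 15504, nat_lit 13872, nat_lit 3072, nat_lit 11232, nat_lit 9168, R1_64, R14_234, R3_191⟩]⟩, ⟨nat_lit 2, [⟨nat_lit 2, nat_lit 14736, nat_lit 13920, nat_lit 15600, nat_lit 11184, nat_lit 14640, R12_325, R14_233, R3_305⟩]⟩]⟩]], [[], [⟨nat_lit 6, [⟨nat_lit 0, [⟨nat_lit 2, nat_lit 12144, nat_lit 1392, nat_lit 3696, nat_lit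 9264, nat_lit 12048, R2_77, R12_193, R13_251⟩]⟩, ⟨nat_lit 1, [⟨nat_lit 2, nat_lit 15600, nat_lit 6528, nat_lit 3168, nat_lit 9360, nat_lit 9264, R1_66, R12_195, R3_193⟩]⟩, ⟨nat_lit 2, [⟨nat_lit 2, nat_lit 14832, nat_lit 10752, nat_lit 16272, nat_lit 9312, nat_lit 14976, R12_339, R12_194, R3_312⟩]⟩]⟩]], [[], [⟨nat_lit 2, [⟨nat_lit 0, [⟨nat_lit 0, nat_lit 11520, nat_lit 16032, nat_lit 240, nat_lit 2976, nat_lit 13488, R3_5, R3_62, R6_281⟩]⟩, ⟨nat_lit 1, [⟨nat_lit 0, nat_lit 15312, nat_lit 16128, nat_lit 7200, nat_lit 10464, nat_lit 13296, R10_150, R3_218, R4_277⟩]⟩, ⟨nat_lit 3, [⟨nat_lit 0, nat_lit 16512, nat_lit 16080, nat_lit 5712, nat_lit 8784, nat_lit 14688, R0_119, R3_183, R8_306⟩, ⟨nat_lit 3, nat_lit 17808, nat_lit 16704, nat_lit 5808, nat_lit 3024, nat_lit 10800, R0_121, R0_63, R5_225⟩]⟩]⟩,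
 ⟨nat_lit 6, [⟨nat_lit 0, [⟨nat_lit 0, nat_lit 11184, nat_lit 15744, nat_lit 3216, nat_lit 14592, nat_lit 13200, R2_67, R2_304, R6_275⟩, ⟨nat_lit 2, nat_lit 12096, nat_lit 16896, nat_lit 3840, nat_lit 5376, nat_lit 12000, R2_80, R12_112, R13_250⟩]⟩, ⟨nat_lit 1, [⟨nat_lit 0, nat_lit 15216, nat_lit 15792, nat_lit 2688, nat_lit 14832, nat_lit 13200, R1_56, R2_309, R4_275⟩, ⟨nat_lit 2, nat_lit 15552, nat_lit 16944, nat_lit 3312, nat_lit 5472, nat_lit 9216, R1_69, R12_114, R3_192⟩]⟩, ⟨nat_lit 2, [⟨nat_lit 2, nat_lit 14784, nat_lit 16992, nat_lit 16896, nat_lit 5424, nat_lit 14784, R12_352, R12_113, R3_308⟩]⟩]⟩], [], [], [], [⟨nat_lit 2, [⟨nat_lit 1, [⟨nat_lit 0, nat_lit 15408, nat_lit 11184, nat_lit 7248, nat_lit 10416, nat_lit 15024, R10_151, R3_217, R7_313⟩, ⟨nat_lit 1, nat_lit 15744, nat_lit 11280, nat_lit 7296,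 nat_lit 3984, nat_lit 14208, R10_152, R10_83, R2_296⟩]⟩]⟩,
 ⟨nat_lit 6, [⟨nat_lit 1, [⟨nat_lit 0, nat_lit 15360, nat_lit 11136, nat_lit 13152, nat_lit 10608, nat_lit 15072, R1_274, R2_221, R7_314⟩, ⟨nat_lit 1, nat_lit 15696, nat_lit 11232, nat_lit 13776, nat_lit 10992, nat_lit 14256, R1_287, R1_229, R2_297⟩, ⟨nat_lit 2, nat_lit 15648, nat_lit 11328, nat_lit 13632, nat_lit 6336, nat_lit 13872, R1_284, R12_132, R2_289⟩]⟩]⟩]]], [[], [], [], [], [[⟨nat_lit 2, [⟨nat_lit 3, [⟨nat_lit 0, nat_lit 16128, nat_lit 13728, nat_lit 7824, nat_lit 12192, nat_lit 4896, R11_163, R4_254, R6_102⟩, ⟨nat_lit 3, nat_lit 17472, nat_lit 13824, nat_lit 8112, nat_lit 14688, nat_lit 5280, R11_169, R5_306, R4_110⟩]⟩, ⟨nat_lit 7, [⟨nat_lit 3, nat_lit 10608, nat_lit 13872, nat_lit 6192, nat_lit 14544, nat_lit 9408, R1_129, R5_303, R7_196⟩]⟩]⟩,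
 ⟨nat_lit 4, [⟨nat_lit 2, [⟨nat_lit 2, nat_lit 13728, nat_lit 14208, nat_lit 144, nat_lit 8304, nat_lit 9888, R2_3, R7_173, R4_206⟩, ⟨nat_lit 6, nat_lit 12480, nat_lit 13008, nat_lit 1968, nat_lit 8304, nat_lit 10704, R2_41, R4_173, R7_223⟩]⟩]⟩,
 ⟨nat_lit 6, [⟨nat_lit 0, [⟨nat_lit 2, nat_lit 11712, nat_lit 14640, nat_lit 1248, nat_lit 9456, nat_lit 9168, R2_26, R14_197, R6_191⟩]⟩, ⟨nat_lit 2, [⟨nat_lit 2, nat_lit 14064, nat_lit 14736, nat_lit 288, nat_lit 9552, nat_lit 9936, R12_6, R14_199, R4_207⟩]⟩, ⟨nat_lit 3, [⟨nat_lit 0, nat_lit 15888, nat_lit 13488, nat_lit 48, nat_lit 13344, nat_lit 4944, R1_1, R7_278, R6_103⟩, ⟨nat_lit 2, nat_lit 16848, nat_lit 14688, nat_lit 720, nat_lit 9504, nat_lit 8496, R1_15, R14_198, R8_177⟩]⟩]⟩,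
 ⟨nat_lit 7, [⟨nat_lit 2, [⟨nat_lit 6, nat_lit 12624, nat_lit 13200, nat_lit 1440, nat_lit 4992, nat_lit 10752, R1_30, R5_104, R7_224⟩]⟩, ⟨nat_lit 6, [⟨nat_lit 6, nat_lit 4656, nat_lit 13248, nat_lit 1152, nat_lit 5040, nat_lit 6864, R11_24, R5_105, R4_143⟩]⟩]⟩], [⟨nat_lit 2, [⟨nat_lit 3, [⟨nat_lit 0, nat_lit 16560, nat_lit 11376, nat_lit 7872, nat_lit 14448, nat_lit 14256, R11_164, R4_301, R8_297⟩, ⟨nat_lit 3, nat_lit 17856, nat_lit 11520, nat_lit 8160, nat_lit 17328, nat_lit 10848, R11_170, R5_361, R5_226⟩]⟩]⟩,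
 ⟨nat_lit 4, [⟨nat_lit 2, [⟨nat_lit 2, nat_lit 14496, nat_lit 11904, nat_lit 384, nat_lit 8448, nat_lit 14400, R2_8, R7_176, R3_300⟩, ⟨nat_lit 6, nat_lit 12912, nat_lit 10224, nat_lit 2160, nat_lit 8448, nat_lit 9792, R2_45, R4_176, R2_204⟩]⟩]⟩,
 ⟨nat_lit 6, [⟨nat_lit 0, [⟨nat_lit 0, nat_lit 11232, nat_lit 10944, nat_lit 7488, nat_lit 15792, nat_lit 13104, R2_156, R7_329, R6_273⟩, ⟨nat_lit 2, nat_lit 12192, nat_lit 12480, nat_lit 8304, nat_lit 10608, nat_lit 12096, R2_173, R14_221, R13_252⟩]⟩, ⟨nat_lit 2, [⟨nat_lit 2, nat_lit 14928, nat_lit 12576, nat_lit 1344, nat_lit 10704, nat_lit 14688, R12_28, R14_223, R3_306⟩]⟩, ⟨nat_lit 3, [⟨nat_lit 0, nat_lit 16224, nat_lit 10992, nat_lit 8016, nat_lit 16128, nat_lit 14448, R1_167, R7_336, R8_301⟩, ⟨nat_lit 2, nat_lit 17040, nat_lit 12528, nat_lit 9120, nat_lit 10656,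 nat_lit 9360, R1_190, R14_222, R9_195⟩]⟩]⟩,
 ⟨nat_lit 7, [⟨nat_lit 2, [⟨nat_lit 6, nat_lit 13008, nat_lit 10512, nat_lit 1632, nat_lit 6720, nat_lit 9840, R1_34, R5_140, R2_205⟩]⟩]⟩], [⟨nat_lit 4, [⟨nat_lit 2, [⟨nat_lit 6, nat_lit 13248, nat_lit 9696, nat_lit 2304, nat_lit 8352, nat_lit 4800, R2_48, R4_174, R2_100⟩]⟩]⟩,
 ⟨nat_lit 7, [⟨nat_lit 2, [⟨nat_lit 6, nat_lit 13440, nat_lit 9936, nat_lit 1776, nat_lit 5664, nat_lit 4848, R1_37, R5_118, R2_101⟩]⟩, ⟨nat_lit 6, [⟨nat_lit 6, nat_lit 5328, nat_lit 9984, nat_lit 3984, nat_lit 5760, nat_lit 5712, R11_83, R5_120, R3_119⟩]⟩]⟩], [⟨nat_lit 2, [⟨nat_lit 3, [⟨nat_lit 0, nat_lit 16752, nat_lit 16752, nat_lit 7920, nat_lit 13392, nat_lit 13392, R11_165, R4_279, R4_279⟩]⟩, ⟨nat_lit 7, [⟨nat_lit 0, nat_lit 10272, nat_lit 16656, nat_lit 5856, nat_lit 13584, nat_lit 14736,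 R1_122, R4_283, R7_307⟩, ⟨nat_lit 3, nat_lit 10800, nat_lit 17184, nat_lit 6240, nat_lit 16080, nat_lit 10128, R1_130, R5_335, R14_211⟩]⟩]⟩,
 ⟨nat_lit 6, [⟨nat_lit 3, [⟨nat_lit 0, nat_lit 16656, nat_lit 10272, nat_lit 5856, nat_lit 14736, nat_lit 13584, R1_122, R7_307, R4_283⟩, ⟨nat_lit 2, nat_lit 17184, nat_lit 10800, nat_lit 6240, nat_lit 10128, nat_lit 16080, R1_130, R14_211, R5_335⟩]⟩]⟩]], [[⟨nat_lit 4, [⟨nat_lit 2, [⟨nat_lit 2, nat_lit 13776, nat_lit 1728, nat_lit 7152, nat_lit 7248, nat_lit 10176, R2_149, R2_151, R4_212⟩, ⟨nat_lit 6, nat_lit 12528, nat_lit 3360, nat_lit 9744, nat_lit 12816, nat_lit 10848, R2_203, R3_267, R7_226⟩]⟩]⟩,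
 ⟨nat_lit 6, [⟨nat_lit 0, [⟨nat_lit 2, nat_lit 11808, nat_lit 1056, nat_lit 1632, nat_lit 8352, nat_lit 9312, R2_34, R12_174, R6_194⟩]⟩, ⟨nat_lit 2, [⟨nat_lit 2, nat_lit 14160, nat_lit 1776, nat_lit 7392, nat_lit 8448, nat_lit 10224, R12_154, R12_176, R4_213⟩]⟩, ⟨nat_lit 3, [⟨nat_lit 2, nat_lit 16944, nat_lit 1488, nat_lit 1104, nat_lit 8400, nat_lit 8640, R1_23, R12_175, R8_180⟩]⟩]⟩,
 ⟨nat_lit 7, [⟨nat_lit 2, [⟨nat_lit 6, nat_lit 12672, nat_lit 3408, nat_lit 10560, nat_lit 11760, nat_lit 10896, R1_220, R0_245, R7_227⟩]⟩, ⟨nat_lit 6, [⟨nat_lit 6, nat_lit 4704, nat_lit 3648, nat_lit 12528, nat_lit 11952, nat_lit 7152, R11_261, R0_249, R4_149⟩]⟩]⟩], [], [⟨nat_lit 4, [⟨nat_lit 2, [⟨nat_lit 6, nat_lit 13296, nat_lit 1824, nat_lit 9936, nat_lit 12864, nat_lit 4992, R2_207, R3_268, R2_104⟩]⟩]⟩,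
 ⟨nat_lit 7, [⟨nat_lit 2, [⟨nat_lit 6, nat_lit 13488, nat_lit 1872, nat_lit 10752, nat_lit 11808, nat_lit 5040, R1_224, R0_246, R2_105⟩]⟩, ⟨nat_lit 6, [⟨nat_lit 6, nat_lit 5376, nat_lit 2112, nat_lit 15408, nat_lit 12096, nat_lit 5808, R11_321, R0_252, R3_121⟩]⟩]⟩], [⟨nat_lit 6, [⟨nat_lit 3, [⟨nat_lit 2, nat_lit 17280, nat_lit 4272, nat_lit 6528, nat_lit 9024, nat_lit 16176, R1_136, R12_188, R5_337⟩]⟩]⟩]], [[⟨nat_lit 2, [⟨nat_lit 3, [⟨nat_lit 0, nat_lit 16176, nat_lit 672, nat_lit 7968, nat_lit 8592, nat_lit 6240, R11_166, R3_179, R6_130⟩, ⟨nat_lit 3, nat_lit 17520, nat_lit 1152, nat_lit 8304, nat_lit 2928, nat_lit 6576, R11_173, R0_61, R4_137⟩]⟩, ⟨nat_lit 7, [⟨nat_lit 3, nat_lit 10656, nat_lit 2016, nat_lit 7296, nat_lit 2592, nat_lit 10320, R1_152, R0_54, R7_215⟩]⟩]⟩,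
 ⟨nat_lit 6, [⟨nat_lit 0, [⟨nat_lit 2, nat_lit 11760, nat_lit 2208, nat_lit 1824, nat_lit 3024, nat_lit 9216, R2_38, R12_63, R6_192⟩]⟩, ⟨nat_lit 2, [⟨nat_lit 2, nat_lit 14112, nat_lit 2880, nat_lit 10320, nat_lit 3120, nat_lit 9984, R12_215, R12_65, R4_208⟩]⟩, ⟨nat_lit 3, [⟨nat_lit 0, nat_lit 15936, nat_lit 624, nat_lit 192, nat_lit 11904, nat_lit 6288, R1_4, R2_248, R6_131⟩, ⟨nat_lit 2, nat_lit 16896, nat_lit 2736, nat_lit 1296, nat_lit 3072, nat_lit 8544, R1_27, R12_64, R8_178⟩]⟩]⟩], [⟨nat_lit 2, [⟨nat_lit 3, [⟨nat_lit 0, nat_lit 16608, nat_lit 9888, nat_lit 8016, nat_lit 8736, nat_lit 14640, R11_167, R3_182, R8_305⟩, ⟨nat_lit 3, nat_lit 17904, nat_lit 10320, nat_lit 8352, nat_lit 2976, nat_lit 10896, R11_174, R0_62, R5_227⟩]⟩]⟩,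
 ⟨nat_lit 6, [⟨nat_lit 0, [⟨nat_lit 0, nat_lit 11280, nat_lit 9456, nat_lit 7632, nat_lit 14496, nat_lit 13248, R2_159, R2_302, R6_276⟩, ⟨nat_lit 2, nat_lit 12240, nat_lit 10656, nat_lit 8688, nat_lit 4608, nat_lit 12144, R2_181, R12_96, R13_253⟩]⟩, ⟨nat_lit 2, [⟨nat_lit 2, nat_lit 14976, nat_lit 10752, nat_lit 11088, nat_lit 4704, nat_lit 14832, R12_231, R12_98, R3_309⟩]⟩, ⟨nat_lit 3, [⟨nat_lit 0, nat_lit 16272, nat_lit 9504, nat_lit 8160, nat_lit 14640, nat_lit 14736, R1_170, R2_305, R8_307⟩, ⟨nat_lit 2, nat_lit 17088, nat_lit 10704, nat_lit 9504, nat_lit 4656, nat_lit 9408, R1_198, R12_97, R9_196⟩]⟩]⟩], [], [⟨nat_lit 2, [⟨nat_lit 3, [⟨nat_lit 0, nat_lit 16800, nat_lit 12384, nat_lit 8064, nat_lit 8640, nat_lit 13728, R11_168, R3_180, R4_286⟩]⟩, ⟨nat_lit 7, [⟨nat_lit 0, nat_lit 10320, nat_lit 12432, nat_lit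 5952, nat_lit 15456, nat_lit 14976, R1_124, R3_322, R7_312⟩, ⟨nat_lit 3, nat_lit 10848, nat_lit 12768, nat_lit 7344, nat_lit 2640, nat_lit 10176, R1_153, R0_55, R14_212⟩]⟩]⟩,
 ⟨nat_lit 6, [⟨nat_lit 3, [⟨nat_lit 0, nat_lit 16704, nat_lit 12240, nat_lit 5904, nat_lit 13920, nat_lit 13776, R1_123, R2_290, R4_287⟩, ⟨nat_lit 2, nat_lit 17232, nat_lit 12960, nat_lit 6720, nat_lit 3600, nat_lit 16128, R1_140, R12_75, R5_336⟩]⟩]⟩]], [[⟨nat_lit 0, [⟨nat_lit 7, [⟨nat_lit 7, nat_lit 9648, nat_lit 13824, nat_lit 5856, nat_lit 5280, nat_lit 10032, R2_122, R2_110, R4_209⟩]⟩]⟩,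
 ⟨nat_lit 2, [⟨nat_lit 3, [⟨nat_lit 3, nat_lit 17568, nat_lit 4752, nat_lit 8208, nat_lit 5040, nat_lit 6912, R11_171, R11_105, R4_144⟩]⟩, ⟨nat_lit 7, [⟨nat_lit 3, nat_lit 10704, nat_lit 12720, nat_lit 6864, nat_lit 4992, nat_lit 10800, R1_143, R11_104, R7_225⟩, ⟨nat_lit 7, nat_lit 9744, nat_lit 14304, nat_lit 4560, nat_lit 3984, nat_lit 10128, R1_95, R1_83, R4_211⟩]⟩]⟩,
 ⟨nat_lit 3, [⟨nat_lit 4, [⟨nat_lit 7, nat_lit 2160, nat_lit 11856, nat_lit 1344, nat_lit 3168, nat_lit 9264, R2_28, R12_66, R6_193⟩]⟩, ⟨nat_lit 6, [⟨nat_lit 4, nat_lit 3648, nat_lit 15984, nat_lit 144, nat_lit 12288, nat_lit 6672, R1_3, R2_256, R6_139⟩, ⟨nat_lit 6, nat_lit 4800, nat_lit 17328, nat_lit 480, nat_lit 12864, nat_lit 6960, R1_10, R1_268, R4_145⟩, ⟨nat_lit 7, nat_lit 7056, nat_lit 16992, nat_lit 816, nat_lit 3408, nat_lit 8592, R1_17,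 R12_71, R8_179⟩]⟩, ⟨nat_lit 7, [⟨nat_lit 7, nat_lit 9840, nat_lit 14208, nat_lit 5952, nat_lit 3504, nat_lit 10080, R12_124, R12_73, R4_210⟩]⟩]⟩,
 ⟨nat_lit 4, [⟨nat_lit 2, [⟨nat_lit 2, nat_lit 13824, nat_lit 9648, nat_lit 5856, nat_lit 5280, nat_lit 10032, R2_122, R2_110, R4_209⟩]⟩]⟩,
 ⟨nat_lit 6, [⟨nat_lit 0, [⟨nat_lit 2, nat_lit 11856, nat_lit 2160, nat_lit 1344, nat_lit 3168, nat_lit 9264, R2_28, R12_66, R6_193⟩]⟩, ⟨nat_lit 2, [⟨nat_lit 2, nat_lit 14208, nat_lit 9840, nat_lit 5952, nat_lit 3504, nat_lit 10080, R12_124, R12_73, R4_210⟩]⟩, ⟨nat_lit 3, [⟨nat_lit 0, nat_lit 15984, nat_lit 3648, nat_lit 144, nat_lit 12288, nat_lit 6672, R1_3, R2_256, R6_139⟩, ⟨nat_lit 2, nat_lit 16992, nat_lit 7056, nat_lit 816, nat_lit 3408, nat_lit 8592, R1_17, R12_71, R8_179⟩, ⟨nat_lit 3, nat_lit 17328, nat_lit 4800, nat_lit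 480, nat_lit 12864, nat_lit 6960, R1_10, R1_268, R4_145⟩]⟩]⟩,
 ⟨nat_lit 7, [⟨nat_lit 2, [⟨nat_lit 2, nat_lit 14304, nat_lit 9744, nat_lit 4560, nat_lit 3984, nat_lit 10128, R1_95, R1_83, R4_211⟩, ⟨nat_lit 6, nat_lit 12720, nat_lit 10704, nat_lit 6864, nat_lit 4992, nat_lit 10800, R1_143, R11_104, R7_225⟩]⟩, ⟨nat_lit 6, [⟨nat_lit 6, nat_lit 4752, nat_lit 17568, nat_lit 8208, nat_lit 5040, nat_lit 6912, R11_171, R11_105, R4_144⟩]⟩]⟩], [⟨nat_lit 2, [⟨nat_lit 3, [⟨nat_lit 3, nat_lit 17952, nat_lit 15168, nat_lit 8256, nat_lit 5088, nat_lit 10944, R11_172, R11_106, R5_228⟩]⟩]⟩,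
 ⟨nat_lit 4, [⟨nat_lit 2, [⟨nat_lit 2, nat_lit 14544, nat_lit 1680, nat_lit 6096, nat_lit 5616, nat_lit 14448, R2_127, R2_117, R3_301⟩]⟩]⟩,
 ⟨nat_lit 6, [⟨nat_lit 0, [⟨nat_lit 0, nat_lit 11328, nat_lit 9312, nat_lit 7584, nat_lit 14544, nat_lit 13296, R2_158, R2_303, R6_277⟩, ⟨nat_lit 2, nat_lit 12288, nat_lit 10512, nat_lit 8400, nat_lit 4752, nat_lit 12192, R2_175, R12_99, R13_254⟩]⟩, ⟨nat_lit 2, [⟨nat_lit 2, nat_lit 15024, nat_lit 11136, nat_lit 6192, nat_lit 5088, nat_lit 14880, R12_129, R12_106, R3_310⟩]⟩, ⟨nat_lit 3, [⟨nat_lit 0, nat_lit 16320, nat_lit 9552, nat_lit 8112, nat_lit 15120, nat_lit 14928, R1_169, R2_315, R8_311⟩, ⟨nat_lit 2, nat_lit 17136, nat_lit 10800, nat_lit 9216, nat_lit 4992, nat_lit 9456, R1_192, R12_104, R9_197⟩, ⟨nat_lit 3, nat_lit 17616, nat_lit 10032, nat_lit 8736, nat_lit 16128,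 nat_lit 10992, R1_182, R1_336, R5_229⟩]⟩]⟩,
 ⟨nat_lit 7, [⟨nat_lit 2, [⟨nat_lit 2, nat_lit 15120, nat_lit 6720, nat_lit 4800, nat_lit 4320, nat_lit 15072, R1_100, R1_90, R3_314⟩, ⟨nat_lit 6, nat_lit 13056, nat_lit 5376, nat_lit 7056, nat_lit 6336, nat_lit 9888, R1_147, R11_132, R2_206⟩]⟩]⟩], [⟨nat_lit 0, [⟨nat_lit 7, [⟨nat_lit 7, nat_lit 9888, nat_lit 1920, nat_lit 5904, nat_lit 5328, nat_lit 5520, R2_123, R2_111, R5_115⟩]⟩]⟩,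
 ⟨nat_lit 2, [⟨nat_lit 7, [⟨nat_lit 7, nat_lit 10032, nat_lit 2016, nat_lit 4608, nat_lit 4032, nat_lit 5568, R1_96, R1_84, R5_116⟩]⟩]⟩,
 ⟨nat_lit 3, [⟨nat_lit 4, [⟨nat_lit 4, nat_lit 576, nat_lit 288, nat_lit 960, nat_lit 11952, nat_lit 6336, R2_20, R2_249, R6_132⟩, ⟨nat_lit 7, nat_lit 2688, nat_lit 1248, nat_lit 2496, nat_lit 3216, nat_lit 7152, R2_52, R12_67, R8_149⟩]⟩, ⟨nat_lit 6, [⟨nat_lit 4, nat_lit 4176, nat_lit 624, nat_lit 288, nat_lit 12432, nat_lit 7104, R1_6, R2_259, R13_148⟩, ⟨nat_lit 6, nat_lit 5904, nat_lit 2688, nat_lit 528, nat_lit 13008, nat_lit 5136, R1_11, R1_271, R3_107⟩, ⟨nat_lit 7, nat_lit 7440, nat_lit 2208, nat_lit 1968, nat_lit 3456, nat_lit 5232, R1_41, R12_72, R9_109⟩]⟩, ⟨nat_lit 7, [⟨nat_lit 7, nat_lit 10224, nat_lit 1968, nat_lit 6000, nat_lit 3552, nat_lit 5616, R12_125, R12_74,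 R5_117⟩]⟩]⟩,
 ⟨nat_lit 7, [⟨nat_lit 2, [⟨nat_lit 6, nat_lit 13536, nat_lit 2400, nat_lit 7200, nat_lit 5280, nat_lit 4896, R1_150, R11_110, R2_102⟩]⟩, ⟨nat_lit 6, [⟨nat_lit 6, nat_lit 5424, nat_lit 2640, nat_lit 9984, nat_lit 5376, nat_lit 5760, R11_208, R11_112, R3_120⟩]⟩]⟩]]]]
noncomputable def N6005 : T3 (List N0) := [[[[], [⟨nat_lit 2, [⟨nat_lit 6, [⟨nat_lit 6, nat_lit 13536, nat_lit 12048, nat_lit 14688, nat_lit 12240, nat_lit 13056, R7_306, R7_255, R1_272⟩]⟩]⟩,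
 ⟨nat_lit 4, [⟨nat_lit 7, [⟨nat_lit 7, nat_lit 3216, nat_lit 13248, nat_lit 13680, nat_lit 10704, nat_lit 0, R6_285, R6_223, R1_0⟩]⟩]⟩,
 ⟨nat_lit 6, [⟨nat_lit 4, [⟨nat_lit 4, nat_lit 8640, nat_lit 15456, nat_lit 12720, nat_lit 10032, nat_lit 4704, R6_265, R6_209, R7_98⟩, ⟨nat_lit 6, nat_lit 8736, nat_lit 15648, nat_lit 12768, nat_lit 10992, nat_lit 3120, R6_266, R4_229, R2_65⟩, ⟨nat_lit 7, nat_lit 8784, nat_lit 15552, nat_lit 12816, nat_lit 10560, nat_lit 7440, R6_267, R8_220, R2_155⟩]⟩, ⟨nat_lit 6, [⟨nat_lit 6, nat_lit 8928, nat_lit 16368, nat_lit 13056, nat_lit 11040, nat_lit 2592, R4_272, R4_230, R1_54⟩]⟩, ⟨nat_lit 7, [⟨nat_lit 7, nat_lit 9120, nat_lit 16032, nat_lit 14352, nat_lit 10608, nat_lit 7968, R8_299, R8_221, R1_166⟩]⟩]⟩,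
 ⟨nat_lit 7, [⟨nat_lit 7, [⟨nat_lit 7, nat_lit 11664, nat_lit 14592, nat_lit 13440, nat_lit 11568, nat_lit 5808, R4_280, R4_241, R1_121⟩]⟩]⟩], [], [], [], [⟨nat_lit 0, [⟨nat_lit 2, [⟨nat_lit 2, nat_lit 12096, nat_lit 3168, nat_lit 13536, nat_lit 10752, nat_lit 7488, R6_282, R6_224, R11_156⟩]⟩]⟩,
 ⟨nat_lit 2, [⟨nat_lit 2, [⟨nat_lit 2, nat_lit 13344, nat_lit 11616, nat_lit 13344, nat_lit 11616, nat_lit 7584, R4_278, R4_242, R11_158⟩]⟩, ⟨nat_lit 6, [⟨nat_lit 2, nat_lit 13440, nat_lit 11568, nat_lit 14592, nat_lit 11664, nat_lit 5808, R7_304, R4_243, R1_121⟩, ⟨nat_lit 6, nat_lit 13488, nat_lit 11520, nat_lit 14640, nat_lit 12288, nat_lit 7008, R7_305, R7_256, R10_146⟩]⟩]⟩,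
 ⟨nat_lit 3, [⟨nat_lit 0, [⟨nat_lit 0, nat_lit 14064, nat_lit 8592, nat_lit 12912, nat_lit 9792, nat_lit 4560, R6_269, R6_204, R4_95⟩, ⟨nat_lit 3, nat_lit 14112, nat_lit 8688, nat_lit 12960, nat_lit 10800, nat_lit 144, R6_270, R4_225, R3_3⟩]⟩, ⟨nat_lit 2, [⟨nat_lit 0, nat_lit 14256, nat_lit 8976, nat_lit 14064, nat_lit 9840, nat_lit 8016, R8_293, R6_205, R5_167⟩, ⟨nat_lit 2, nat_lit 14304, nat_lit 9072, nat_lit 14112, nat_lit 10752, nat_lit 7536, R8_294, R8_224, R11_157⟩]⟩, ⟨nat_lit 3, [⟨nat_lit 3, nat_lit 14544, nat_lit 8880, nat_lit 13104, nat_lit 10848, nat_lit 6960, R4_273, R4_226, R10_145⟩]⟩]⟩,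
 ⟨nat_lit 4, [⟨nat_lit 7, [⟨nat_lit 7, nat_lit 3168, nat_lit 12096, nat_lit 13536, nat_lit 10752, nat_lit 7488, R6_282, R6_224, R11_156⟩]⟩]⟩,
 ⟨nat_lit 6, [⟨nat_lit 4, [⟨nat_lit 4, nat_lit 8592, nat_lit 14064, nat_lit 12912, nat_lit 9792, nat_lit 4560, R6_269, R6_204, R4_95⟩, ⟨nat_lit 6, nat_lit 8688, nat_lit 14112, nat_lit 12960, nat_lit 10800, nat_lit 144, R6_270, R4_225, R3_3⟩]⟩, ⟨nat_lit 6, [⟨nat_lit 6, nat_lit 8880, nat_lit 14544, nat_lit 13104, nat_lit 10848, nat_lit 6960, R4_273, R4_226, R10_145⟩]⟩, ⟨nat_lit 7, [⟨nat_lit 4, nat_lit 8976, nat_lit 14256, nat_lit 14064, nat_lit 9840, nat_lit 8016, R8_293, R6_205, R5_167⟩, ⟨nat_lit 7, nat_lit 9072, nat_lit 14304, nat_lit 14112, nat_lit 10752, nat_lit 7536, R8_294, R8_224, R11_157⟩]⟩]⟩,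
 ⟨nat_lit 7, [⟨nat_lit 3, [⟨nat_lit 3, nat_lit 11520, nat_lit 13488, nat_lit 14640, nat_lit 12288, nat_lit 7008, R7_305, R7_256, R10_146⟩, ⟨nat_lit 7, nat_lit 11568, nat_lit 13440, nat_lit 14592, nat_lit 11664, nat_lit 5808, R7_304, R4_243, R1_121⟩]⟩, ⟨nat_lit 7, [⟨nat_lit 7, nat_lit 11616, nat_lit 13344, nat_lit 13344, nat_lit 11616, nat_lit 7584, R4_278, R4_242, R11_158⟩]⟩]⟩]], [[], [⟨nat_lit 2, [⟨nat_lit 6, [⟨nat_lit 6, nat_lit 13680, nat_lit 10512, nat_lit 14832, nat_lit 10752, nat_lit 13104, R7_309, R2_224, R1_273⟩]⟩]⟩], [], [], [], [⟨nat_lit 0, [⟨nat_lit 2, [⟨nat_lit 0, nat_lit 12144, nat_lit 16032, nat_lit 13584, nat_lit 15168, nat_lit 1008, R6_283, R6_316, R5_21⟩, ⟨nat_lit 2, nat_lit 12192, nat_lit 16128, nat_lit 13632, nat_lit 13728, nat_lit 7824, R6_284, R13_286, R11_163⟩]⟩]⟩,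
 ⟨nat_lit 2, [⟨nat_lit 2, [⟨nat_lit 2, nat_lit 13392, nat_lit 16752, nat_lit 13392, nat_lit 16752, nat_lit 7920, R4_279, R3_349, R11_165⟩]⟩, ⟨nat_lit 6, [⟨nat_lit 2, nat_lit 13584, nat_lit 10272, nat_lit 14736, nat_lit 16656, nat_lit 5856, R7_307, R3_347, R1_122⟩, ⟨nat_lit 6, nat_lit 13632, nat_lit 10368, nat_lit 14784, nat_lit 10800, nat_lit 7056, R7_308, R2_225, R10_147⟩]⟩]⟩,
 ⟨nat_lit 3, [⟨nat_lit 0, [⟨nat_lit 0, nat_lit 14160, nat_lit 11376, nat_lit 13344, nat_lit 18144, nat_lit 4800, R6_278, R8_378, R4_100⟩, ⟨nat_lit 3, nat_lit 14208, nat_lit 11472, nat_lit 13392, nat_lit 13104, nat_lit 192, R6_279, R5_273, R3_4⟩]⟩, ⟨nat_lit 2, [⟨nat_lit 0, nat_lit 14400, nat_lit 16368, nat_lit 14208, nat_lit 19008, nat_lit 9264, R8_296, R8_396, R5_193⟩, ⟨nat_lit 2, nat_lit 14448, nat_lit 16560, nat_lit 14256, nat_lit 11376,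 nat_lit 7872, R8_297, R9_237, R11_164⟩]⟩, ⟨nat_lit 3, [⟨nat_lit 3, nat_lit 14592, nat_lit 15264, nat_lit 13248, nat_lit 13200, nat_lit 7152, R4_276, R5_275, R10_149⟩]⟩]⟩]], [], [[], [⟨nat_lit 4, [⟨nat_lit 7, [⟨nat_lit 7, nat_lit 3264, nat_lit 12192, nat_lit 14064, nat_lit 432, nat_lit 96, R6_293, R4_9, R1_2⟩]⟩]⟩,
 ⟨nat_lit 6, [⟨nat_lit 4, [⟨nat_lit 7, nat_lit 8832, nat_lit 14448, nat_lit 12864, nat_lit 432, nat_lit 7536, R6_268, R5_9, R2_157⟩]⟩, ⟨nat_lit 7, [⟨nat_lit 7, nat_lit 9168, nat_lit 15024, nat_lit 14832, nat_lit 528, nat_lit 8064, R8_309, R5_11, R1_168⟩]⟩]⟩]]], [[], [[], [⟨nat_lit 2, [⟨nat_lit 6, [⟨nat_lit 6, nat_lit 13872, nat_lit 10896, nat_lit 14016, nat_lit 10848, nat_lit 13728, R2_292, R2_226, R1_286⟩]⟩]⟩], [], [], [], [⟨nat_lit 0, [⟨nat_lit 0, [⟨nat_lit 0, nat_lit 12240, nat_lit 0, nat_lit 8304,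 nat_lit 15120, nat_lit 1920, R6_173, R6_315, R4_40⟩]⟩, ⟨nat_lit 2, [⟨nat_lit 0, nat_lit 12288, nat_lit 336, nat_lit 19056, nat_lit 15216, nat_lit 1152, R13_397, R6_317, R5_24⟩, ⟨nat_lit 2, nat_lit 12336, nat_lit 384, nat_lit 19104, nat_lit 13776, nat_lit 9504, R13_398, R13_287, R11_198⟩]⟩]⟩,
 ⟨nat_lit 1, [⟨nat_lit 0, [⟨nat_lit 0, nat_lit 13104, nat_lit 6960, nat_lit 8880, nat_lit 14544, nat_lit 10848, R4_185, R4_303, R4_226⟩]⟩, ⟨nat_lit 2, [⟨nat_lit 0, nat_lit 13248, nat_lit 7152, nat_lit 15264, nat_lit 14592, nat_lit 13200, R3_318, R4_304, R5_275⟩, ⟨nat_lit 2, nat_lit 13296, nat_lit 7200, nat_lit 15312, nat_lit 10464, nat_lit 9648, R3_319, R3_218, R11_201⟩]⟩]⟩,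
 ⟨nat_lit 2, [⟨nat_lit 2, [⟨nat_lit 2, nat_lit 13728, nat_lit 12384, nat_lit 8640, nat_lit 16800, nat_lit 9600, R3_180, R3_350, R11_200⟩]⟩, ⟨nat_lit 6, [⟨nat_lit 2, nat_lit 13776, nat_lit 12240, nat_lit 13920, nat_lit 16704, nat_lit 5904, R2_290, R3_348, R1_123⟩, ⟨nat_lit 6, nat_lit 13824, nat_lit 12192, nat_lit 13968, nat_lit 10896, nat_lit 7104, R2_291, R2_227, R10_148⟩]⟩]⟩,
 ⟨nat_lit 3, [⟨nat_lit 0, [⟨nat_lit 0, nat_lit 14640, nat_lit 8736, nat_lit 5232, nat_lit 18240, nat_lit 7440, R8_109, R8_380, R4_155⟩, ⟨nat_lit 3, nat_lit 14688, nat_lit 8832, nat_lit 5616, nat_lit 13248, nat_lit 2400, R8_117, R5_276, R3_50⟩]⟩, ⟨nat_lit 2, [⟨nat_lit 0, nat_lit 14736, nat_lit 9456, nat_lit 15360, nat_lit 19104, nat_lit 9504, R9_320, R8_398, R5_198⟩, ⟨nat_lit 2, nat_lit 14784, nat_lit 9552, nat_lit 15408, nat_lit 11424,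 nat_lit 9552, R9_321, R9_238, R11_199⟩]⟩, ⟨nat_lit 3, [⟨nat_lit 3, nat_lit 14880, nat_lit 9264, nat_lit 16224, nat_lit 13344, nat_lit 8544, R5_338, R5_278, R10_178⟩]⟩]⟩]], [], [], [], [[], [], [], [], [], [⟨nat_lit 1, [⟨nat_lit 0, [⟨nat_lit 0, nat_lit 13056, nat_lit 2592, nat_lit 8928, nat_lit 17616, nat_lit 11040, R4_186, R7_367, R4_230⟩]⟩, ⟨nat_lit 2, [⟨nat_lit 0, nat_lit 13152, nat_lit 2640, nat_lit 15168, nat_lit 17712, nat_lit 12864, R3_316, R7_369, R5_268⟩, ⟨nat_lit 2, nat_lit 13200, nat_lit 2688, nat_lit 15216, nat_lit 14832, nat_lit 8976, R3_317, R2_309, R11_187⟩]⟩]⟩]]], [[[⟨nat_lit 4, [⟨nat_lit 5, [⟨nat_lit 7, nat_lit 3504, nat_lit 8160, nat_lit 3600, nat_lit 11088, nat_lit 96, R4_75, R6_231, R2_2⟩]⟩]⟩,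
 ⟨nat_lit 6, [⟨nat_lit 5, [⟨nat_lit 4, nat_lit 9648, nat_lit 1584, nat_lit 13584, nat_lit 9936, nat_lit 1056, R3_283, R6_207, R7_22⟩, ⟨nat_lit 7, nat_lit 9792, nat_lit 8208, nat_lit 13632, nat_lit 11184, nat_lit 240, R3_284, R8_233, R2_5⟩]⟩]⟩], [⟨nat_lit 2, [⟨nat_lit 6, [⟨nat_lit 6, nat_lit 13920, nat_lit 3408, nat_lit 13728, nat_lit 12336, nat_lit 13248, R2_286, R7_257, R1_276⟩]⟩]⟩,
 ⟨nat_lit 4, [⟨nat_lit 4, [⟨nat_lit 7, nat_lit 3312, nat_lit 0, nat_lit 3648, nat_lit 11424, nat_lit 1152, R6_76, R6_238, R2_24⟩]⟩, ⟨nat_lit 5, [⟨nat_lit 7, nat_lit 3552, nat_lit 96, nat_lit 3648, nat_lit 11520, nat_lit 48, R4_76, R6_240, R12_1⟩]⟩, ⟨nat_lit 7, [⟨nat_lit 7, nat_lit 4080, nat_lit 48, nat_lit 96, nat_lit 11472, nat_lit 624, R8_2, R6_239, R1_13⟩]⟩]⟩,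
 ⟨nat_lit 6, [⟨nat_lit 4, [⟨nat_lit 4, nat_lit 9216, nat_lit 672, nat_lit 18288, nat_lit 10080, nat_lit 4896, R13_381, R6_210, R7_102⟩, ⟨nat_lit 6, nat_lit 9264, nat_lit 1632, nat_lit 18336, nat_lit 11088, nat_lit 3312, R13_382, R4_231, R2_69⟩, ⟨nat_lit 7, nat_lit 9312, nat_lit 1056, nat_lit 18384, nat_lit 11712, nat_lit 8208, R13_383, R8_244, R2_171⟩]⟩, ⟨nat_lit 5, [⟨nat_lit 4, nat_lit 9696, nat_lit 720, nat_lit 13872, nat_lit 10128, nat_lit 15504, R3_289, R6_211, R14_323⟩, ⟨nat_lit 6, nat_lit 9744, nat_lit 1680, nat_lit 13920, nat_lit 11184, nat_lit 12768, R3_290, R4_233, R12_266⟩, ⟨nat_lit 7, nat_lit 9840, nat_lit 1152, nat_lit 13968, nat_lit 11808, nat_lit 816, R3_291, R8_246, R12_17⟩]⟩, ⟨nat_lit 6, [⟨nat_lit 6, nat_lit 9552, nat_lit 1728, nat_lit 3168, nat_lit 11136, nat_lit 2784, R3_66, R4_232, R1_58⟩]⟩,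 ⟨nat_lit 7, [⟨nat_lit 7, nat_lit 10416, nat_lit 1104, nat_lit 15072, nat_lit 11760, nat_lit 9024, R9_314, R8_245, R1_188⟩]⟩]⟩,
 ⟨nat_lit 7, [⟨nat_lit 7, [⟨nat_lit 7, nat_lit 11712, nat_lit 336, nat_lit 15984, nat_lit 12000, nat_lit 6144, R5_333, R4_250, R1_128⟩]⟩]⟩]], [[], [⟨nat_lit 2, [⟨nat_lit 6, [⟨nat_lit 6, nat_lit 13968, nat_lit 1776, nat_lit 13776, nat_lit 10944, nat_lit 13488, R2_287, R2_228, R1_281⟩]⟩]⟩]], [[⟨nat_lit 4, [⟨nat_lit 5, [⟨nat_lit 4, nat_lit 3600, nat_lit 96, nat_lit 3504, nat_lit 3312, nat_lit 7008, R4_73, R6_69, R7_146⟩, ⟨nat_lit 5, nat_lit 3696, nat_lit 5808, nat_lit 3936, nat_lit 3024, nat_lit 5232, R4_82, R4_63, R2_109⟩, ⟨nat_lit 7, nat_lit 3840, nat_lit 7104, nat_lit 3840, nat_lit 3024, nat_lit 7104, R4_80, R8_63, R2_148⟩]⟩]⟩,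
 ⟨nat_lit 6, [⟨nat_lit 5, [⟨nat_lit 4, nat_lit 9888, nat_lit 144, nat_lit 13728, nat_lit 12960, nat_lit 7056, R3_286, R13_270, R7_147⟩, ⟨nat_lit 5, nat_lit 10032, nat_lit 5856, nat_lit 13824, nat_lit 9648, nat_lit 5280, R3_288, R3_201, R2_110⟩, ⟨nat_lit 7, nat_lit 10176, nat_lit 7152, nat_lit 13776, nat_lit 10176, nat_lit 7248, R3_287, R9_212, R2_151⟩]⟩]⟩], [⟨nat_lit 2, [⟨nat_lit 6, [⟨nat_lit 6, nat_lit 14016, nat_lit 2160, nat_lit 13824, nat_lit 10320, nat_lit 13344, R2_288, R2_215, R1_278⟩]⟩]⟩,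
 ⟨nat_lit 4, [⟨nat_lit 4, [⟨nat_lit 4, nat_lit 3360, nat_lit 96, nat_lit 3600, nat_lit 3216, nat_lit 48, R6_75, R6_67, R7_1⟩, ⟨nat_lit 7, nat_lit 3408, nat_lit 912, nat_lit 3744, nat_lit 1872, nat_lit 1440, R6_78, R8_39, R2_30⟩]⟩, ⟨nat_lit 5, [⟨nat_lit 4, nat_lit 3648, nat_lit 144, nat_lit 3552, nat_lit 3360, nat_lit 15888, R4_74, R6_70, R14_331⟩, ⟨nat_lit 5, nat_lit 3744, nat_lit 576, nat_lit 3984, nat_lit 3120, nat_lit 12960, R4_83, R4_65, R12_270⟩, ⟨nat_lit 7, nat_lit 3888, nat_lit 1008, nat_lit 3888, nat_lit 3072, nat_lit 6816, R4_81, R8_64, R12_142⟩]⟩, ⟨nat_lit 7, [⟨nat_lit 7, nat_lit 4128, nat_lit 960, nat_lit 1968, nat_lit 2736, nat_lit 912, R8_41, R8_57, R1_19⟩]⟩]⟩,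
 ⟨nat_lit 6, [⟨nat_lit 4, [⟨nat_lit 4, nat_lit 9360, nat_lit 384, nat_lit 18480, nat_lit 13056, nat_lit 4992, R13_385, R13_272, R7_104⟩, ⟨nat_lit 6, nat_lit 9408, nat_lit 2448, nat_lit 18528, nat_lit 2784, nat_lit 3408, R13_386, R3_58, R2_71⟩, ⟨nat_lit 7, nat_lit 9456, nat_lit 1488, nat_lit 18576, nat_lit 10320, nat_lit 8496, R13_387, R9_215, R2_177⟩]⟩, ⟨nat_lit 5, [⟨nat_lit 4, nat_lit 9936, nat_lit 432, nat_lit 14064, nat_lit 13104, nat_lit 16416, R3_293, R13_273, R14_342⟩, ⟨nat_lit 5, nat_lit 10080, nat_lit 624, nat_lit 14208, nat_lit 9840, nat_lit 13488, R3_296, R3_205, R12_281⟩, ⟨nat_lit 6, nat_lit 9984, nat_lit 2496, nat_lit 14112, nat_lit 2880, nat_lit 13200, R3_294, R3_60, R12_275⟩, ⟨nat_lit 7, nat_lit 10224, nat_lit 1584, nat_lit 14160, nat_lit 10416, nat_lit 8256, R3_295, R9_217, R12_172⟩]⟩, ⟨nat_lit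 6, [⟨nat_lit 6, nat_lit 9600, nat_lit 2544, nat_lit 3216, nat_lit 2832, nat_lit 2880, R3_67, R3_59, R1_60⟩]⟩, ⟨nat_lit 7, [⟨nat_lit 7, nat_lit 10464, nat_lit 1536, nat_lit 15168, nat_lit 10368, nat_lit 9312, R9_316, R9_216, R1_194⟩]⟩]⟩,
 ⟨nat_lit 7, [⟨nat_lit 7, [⟨nat_lit 7, nat_lit 11760, nat_lit 1152, nat_lit 16032, nat_lit 12720, nat_lit 6336, R5_334, R5_265, R1_132⟩]⟩]⟩], [⟨nat_lit 4, [⟨nat_lit 5, [⟨nat_lit 5, nat_lit 3792, nat_lit 4512, nat_lit 4032, nat_lit 3072, nat_lit 3936, R4_84, R4_64, R1_82⟩]⟩]⟩,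
 ⟨nat_lit 6, [⟨nat_lit 5, [⟨nat_lit 5, nat_lit 10128, nat_lit 4560, nat_lit 14304, nat_lit 9744, nat_lit 3984, R3_298, R3_203, R1_83⟩]⟩]⟩]], [[⟨nat_lit 4, [⟨nat_lit 5, [⟨nat_lit 7, nat_lit 3936, nat_lit 5232, nat_lit 3696, nat_lit 3024, nat_lit 5808, R4_77, R4_63, R2_121⟩]⟩]⟩,
 ⟨nat_lit 6, [⟨nat_lit 5, [⟨nat_lit 7, nat_lit 10272, nat_lit 5520, nat_lit 13680, nat_lit 768, nat_lit 5952, R3_285, R5_16, R2_124⟩]⟩]⟩], [⟨nat_lit 4, [⟨nat_lit 4, [⟨nat_lit 7, nat_lit 3456, nat_lit 12672, nat_lit 3696, nat_lit 2352, nat_lit 1296, R6_77, R4_49, R2_27⟩]⟩, ⟨nat_lit 5, [⟨nat_lit 7, nat_lit 3984, nat_lit 12960, nat_lit 3744, nat_lit 3120, nat_lit 5904, R4_78, R4_65, R12_123⟩]⟩, ⟨nat_lit 7, [⟨nat_lit 7, nat_lit 4176, nat_lit 12816, nat_lit 624, nat_lit 2736, nat_lit 768, R8_13, R4_57, R1_16⟩]⟩]⟩,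
 ⟨nat_lit 6, [⟨nat_lit 4, [⟨nat_lit 7, nat_lit 9504, nat_lit 15504, nat_lit 18432, nat_lit 480, nat_lit 8352, R13_384, R5_10, R2_174⟩]⟩, ⟨nat_lit 5, [⟨nat_lit 7, nat_lit 10320, nat_lit 15888, nat_lit 14016, nat_lit 864, nat_lit 6048, R3_292, R5_18, R12_126⟩]⟩, ⟨nat_lit 7, [⟨nat_lit 7, nat_lit 10512, nat_lit 15696, nat_lit 15120, nat_lit 672, nat_lit 9168, R9_315, R5_14, R1_191⟩]⟩]⟩], [], [⟨nat_lit 4, [⟨nat_lit 5, [⟨nat_lit 7, nat_lit 4032, nat_lit 3936, nat_lit 3792, nat_lit 3072, nat_lit 4512, R4_79, R4_64, R1_94⟩]⟩]⟩,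
 ⟨nat_lit 6, [⟨nat_lit 5, [⟨nat_lit 7, nat_lit 10368, nat_lit 4224, nat_lit 14256, nat_lit 816, nat_lit 4656, R3_297, R5_17, R1_97⟩]⟩]⟩]]], [[[], [], [], [], [], [⟨nat_lit 3, [⟨nat_lit 0, [⟨nat_lit 0, nat_lit 14928, nat_lit 4368, nat_lit 5808, nat_lit 10176, nat_lit 5664, R4_121, R6_212, R4_118⟩, ⟨nat_lit 3, nat_lit 14976, nat_lit 5136, nat_lit 6432, nat_lit 11232, nat_lit 864, R4_134, R4_234, R3_18⟩]⟩, ⟨nat_lit 2, [⟨nat_lit 0, nat_lit 15168, nat_lit 4656, nat_lit 8784, nat_lit 10224, nat_lit 8160, R5_183, R6_213, R5_170⟩, ⟨nat_lit 2, nat_lit 15216, nat_lit 6288, nat_lit 8928, nat_lit 10800, nat_lit 8400, R5_186, R8_225, R11_175⟩]⟩]⟩,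
 ⟨nat_lit 4, [⟨nat_lit 3, [⟨nat_lit 7, nat_lit 4224, nat_lit 14400, nat_lit 144, nat_lit 10848, nat_lit 6096, R7_3, R6_226, R1_127⟩]⟩, ⟨nat_lit 7, [⟨nat_lit 7, nat_lit 4368, nat_lit 14496, nat_lit 48, nat_lit 10800, nat_lit 7632, R4_1, R6_225, R11_159⟩]⟩]⟩,
 ⟨nat_lit 6, [⟨nat_lit 7, [⟨nat_lit 4, nat_lit 10560, nat_lit 16848, nat_lit 1968, nat_lit 9888, nat_lit 8304, R5_41, R6_206, R5_173⟩, ⟨nat_lit 7, nat_lit 10656, nat_lit 17184, nat_lit 2064, nat_lit 10848, nat_lit 7680, R5_43, R8_226, R11_160⟩]⟩]⟩,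
 ⟨nat_lit 7, [⟨nat_lit 0, [⟨nat_lit 3, nat_lit 11808, nat_lit 14784, nat_lit 5952, nat_lit 12480, nat_lit 1440, R7_124, R7_260, R3_30⟩]⟩, ⟨nat_lit 3, [⟨nat_lit 3, nat_lit 11952, nat_lit 14976, nat_lit 17472, nat_lit 12528, nat_lit 7344, R14_364, R7_261, R10_153⟩, ⟨nat_lit 7, nat_lit 12000, nat_lit 15984, nat_lit 17520, nat_lit 11712, nat_lit 6144, R14_365, R4_244, R1_128⟩]⟩]⟩]], [], [], [[], [⟨nat_lit 4, [⟨nat_lit 7, [⟨nat_lit 7, nat_lit 4464, nat_lit 12768, nat_lit 576, nat_lit 1344, nat_lit 432, R4_12, R4_28, R1_9⟩]⟩]⟩,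
 ⟨nat_lit 6, [⟨nat_lit 7, [⟨nat_lit 7, nat_lit 10752, nat_lit 16032, nat_lit 2160, nat_lit 576, nat_lit 8688, R5_45, R5_12, R1_181⟩]⟩]⟩], [], [], [], [⟨nat_lit 3, [⟨nat_lit 0, [⟨nat_lit 0, nat_lit 15120, nat_lit 4368, nat_lit 5856, nat_lit 15120, nat_lit 5856, R4_122, R4_315, R4_122⟩]⟩, ⟨nat_lit 2, [⟨nat_lit 0, nat_lit 15456, nat_lit 4656, nat_lit 8880, nat_lit 15456, nat_lit 8880, R5_185, R4_322, R5_185⟩, ⟨nat_lit 2, nat_lit 15504, nat_lit 4704, nat_lit 9024, nat_lit 17088, nat_lit 8544, R5_188, R5_356, R11_178⟩]⟩]⟩,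
 ⟨nat_lit 4, [⟨nat_lit 3, [⟨nat_lit 3, nat_lit 4272, nat_lit 4512, nat_lit 1152, nat_lit 2064, nat_lit 7584, R7_24, R7_43, R10_158⟩, ⟨nat_lit 7, nat_lit 4320, nat_lit 4608, nat_lit 720, nat_lit 1824, nat_lit 6816, R7_15, R4_38, R1_142⟩]⟩, ⟨nat_lit 7, [⟨nat_lit 7, nat_lit 4416, nat_lit 4752, nat_lit 528, nat_lit 1392, nat_lit 7728, R4_11, R4_29, R11_161⟩]⟩]⟩,
 ⟨nat_lit 6, [⟨nat_lit 7, [⟨nat_lit 7, nat_lit 10704, nat_lit 4800, nat_lit 2112, nat_lit 624, nat_lit 7776, R5_44, R5_13, R11_162⟩]⟩]⟩,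
 ⟨nat_lit 7, [⟨nat_lit 0, [⟨nat_lit 0, nat_lit 11856, nat_lit 4416, nat_lit 5568, nat_lit 17568, nat_lit 12432, R7_116, R7_366, R4_259⟩, ⟨nat_lit 3, nat_lit 11904, nat_lit 4464, nat_lit 6000, nat_lit 13200, nat_lit 1488, R7_125, R14_275, R3_31⟩]⟩, ⟨nat_lit 3, [⟨nat_lit 3, nat_lit 12048, nat_lit 4560, nat_lit 17568, nat_lit 13248, nat_lit 7632, R14_366, R14_276, R10_159⟩]⟩]⟩]]], [], [[], [], [], [], [], [[], [], [], [], [], [⟨nat_lit 1, [⟨nat_lit 0, [⟨nat_lit 0, nat_lit 12432, nat_lit 4416, nat_lit 5568, nat_lit 17568, nat_lit 11856, R7_116, R7_366, R4_247⟩]⟩, ⟨nat_lit 2, [⟨nat_lit 0, nat_lit 12624, nat_lit 5616, nat_lit 7728, nat_lit 17664, nat_lit 12768, R2_161, R7_368, R5_266⟩, ⟨nat_lit 2, nat_lit 12768, nat_lit 6528, nat_lit 7872, nat_lit 14880, nat_lit 7008, R2_164, R2_310, R11_146⟩]⟩]⟩]]]]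
noncomputable def N6015 : T3 (List N0) := [[[[], [⟨nat_lit 4, [⟨nat_lit 7, [⟨nat_lit 7, nat_lit 15888, nat_lit 13344, nat_lit 13776, nat_lit 13488, nat_lit 48, R6_287, R13_281, R1_1⟩]⟩]⟩,
 ⟨nat_lit 6, [⟨nat_lit 4, [⟨nat_lit 4, nat_lit 11040, nat_lit 15696, nat_lit 13008, nat_lit 11280, nat_lit 4752, R6_271, R8_235, R7_99⟩, ⟨nat_lit 6, nat_lit 11136, nat_lit 15888, nat_lit 13056, nat_lit 12816, nat_lit 3168, R6_272, R5_267, R2_66⟩, ⟨nat_lit 7, nat_lit 11232, nat_lit 15792, nat_lit 13104, nat_lit 10944, nat_lit 7488, R6_273, R9_228, R2_156⟩]⟩, ⟨nat_lit 6, [⟨nat_lit 6, nat_lit 15168, nat_lit 16560, nat_lit 13152, nat_lit 12864, nat_lit 2640, R4_274, R5_268, R1_55⟩]⟩, ⟨nat_lit 7, [⟨nat_lit 7, nat_lit 16224, nat_lit 16128, nat_lit 14448, nat_lit 10992, nat_lit 8016, R8_301, R9_229, R1_167⟩]⟩]⟩,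
 ⟨nat_lit 7, [⟨nat_lit 7, [⟨nat_lit 7, nat_lit 16656, nat_lit 14736, nat_lit 13584, nat_lit 10272, nat_lit 5856, R4_283, R3_214, R1_122⟩]⟩]⟩], [], [], [], [⟨nat_lit 4, [⟨nat_lit 7, [⟨nat_lit 4, nat_lit 16032, nat_lit 12144, nat_lit 13584, nat_lit 15168, nat_lit 1008, R6_283, R6_316, R5_21⟩, ⟨nat_lit 7, nat_lit 16128, nat_lit 12192, nat_lit 13632, nat_lit 13728, nat_lit 7824, R6_284, R13_286, R11_163⟩]⟩]⟩,
 ⟨nat_lit 6, [⟨nat_lit 4, [⟨nat_lit 4, nat_lit 11376, nat_lit 14160, nat_lit 13344, nat_lit 18144, nat_lit 4800, R6_278, R8_378, R4_100⟩]⟩, ⟨nat_lit 7, [⟨nat_lit 4, nat_lit 16368, nat_lit 14400, nat_lit 14208, nat_lit 19008, nat_lit 9264, R8_296, R8_396, R5_193⟩, ⟨nat_lit 7, nat_lit 16560, nat_lit 14448, nat_lit 14256, nat_lit 11376, nat_lit 7872, R8_297, R9_237, R11_164⟩]⟩]⟩,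
 ⟨nat_lit 7, [⟨nat_lit 3, [⟨nat_lit 3, nat_lit 10368, nat_lit 13632, nat_lit 14784, nat_lit 10800, nat_lit 7056, R7_308, R2_225, R10_147⟩, ⟨nat_lit 7, nat_lit 10272, nat_lit 13584, nat_lit 14736, nat_lit 16656, nat_lit 5856, R7_307, R3_347, R1_122⟩]⟩, ⟨nat_lit 7, [⟨nat_lit 7, nat_lit 16752, nat_lit 13392, nat_lit 13392, nat_lit 16752, nat_lit 7920, R4_279, R3_349, R11_165⟩]⟩]⟩]], [[], [⟨nat_lit 2, [⟨nat_lit 6, [⟨nat_lit 6, nat_lit 15360, nat_lit 10608, nat_lit 15072, nat_lit 11136, nat_lit 13152, R7_314, R1_232, R1_274⟩]⟩]⟩,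
 ⟨nat_lit 4, [⟨nat_lit 7, [⟨nat_lit 7, nat_lit 15936, nat_lit 11904, nat_lit 13968, nat_lit 624, nat_lit 192, R6_291, R3_13, R1_4⟩]⟩]⟩,
 ⟨nat_lit 6, [⟨nat_lit 4, [⟨nat_lit 4, nat_lit 11088, nat_lit 14400, nat_lit 13152, nat_lit 2544, nat_lit 4800, R6_274, R5_53, R7_100⟩, ⟨nat_lit 6, nat_lit 11184, nat_lit 14592, nat_lit 13200, nat_lit 15744, nat_lit 3216, R6_275, R11_328, R2_67⟩]⟩, ⟨nat_lit 6, [⟨nat_lit 6, nat_lit 15216, nat_lit 14832, nat_lit 13200, nat_lit 15792, nat_lit 2688, R4_275, R11_329, R1_56⟩]⟩]⟩,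
 ⟨nat_lit 7, [⟨nat_lit 7, [⟨nat_lit 7, nat_lit 16704, nat_lit 13920, nat_lit 13776, nat_lit 12240, nat_lit 5904, R4_287, R10_255, R1_123⟩]⟩]⟩], [], [], [], [⟨nat_lit 0, [⟨nat_lit 2, [⟨nat_lit 0, nat_lit 8544, nat_lit 16080, nat_lit 13872, nat_lit 5088, nat_lit 3360, R6_289, R4_106, R5_70⟩, ⟨nat_lit 2, nat_lit 8592, nat_lit 16176, nat_lit 13920, nat_lit 672, nat_lit 7968, R6_290, R3_14, R11_166⟩]⟩]⟩,
 ⟨nat_lit 2, [⟨nat_lit 2, [⟨nat_lit 2, nat_lit 8640, nat_lit 16800, nat_lit 13728, nat_lit 12384, nat_lit 8064, R4_286, R10_258, R11_168⟩]⟩, ⟨nat_lit 6, [⟨nat_lit 2, nat_lit 15456, nat_lit 10320, nat_lit 14976, nat_lit 12432, nat_lit 5952, R7_312, R10_259, R1_124⟩, ⟨nat_lit 6, nat_lit 15408, nat_lit 10416, nat_lit 15024, nat_lit 11184, nat_lit 7248, R7_313, R1_233, R10_151⟩]⟩]⟩,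
 ⟨nat_lit 3, [⟨nat_lit 0, [⟨nat_lit 0, nat_lit 2928, nat_lit 11424, nat_lit 13440, nat_lit 3408, nat_lit 4992, R6_280, R5_71, R4_104⟩, ⟨nat_lit 3, nat_lit 2976, nat_lit 11520, nat_lit 13488, nat_lit 16032, nat_lit 240, R6_281, R11_334, R3_5⟩]⟩, ⟨nat_lit 2, [⟨nat_lit 0, nat_lit 8688, nat_lit 16416, nat_lit 14592, nat_lit 11472, nat_lit 11424, R8_304, R5_239, R5_238⟩]⟩, ⟨nat_lit 3, [⟨nat_lit 3, nat_lit 10464, nat_lit 15312, nat_lit 13296, nat_lit 16128, nat_lit 7200, R4_277, R11_336, R10_150⟩]⟩]⟩,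
 ⟨nat_lit 4, [⟨nat_lit 7, [⟨nat_lit 4, nat_lit 16080, nat_lit 8544, nat_lit 13872, nat_lit 5088, nat_lit 3360, R6_289, R4_106, R5_70⟩, ⟨nat_lit 7, nat_lit 16176, nat_lit 8592, nat_lit 13920, nat_lit 672, nat_lit 7968, R6_290, R3_14, R11_166⟩]⟩]⟩,
 ⟨nat_lit 6, [⟨nat_lit 4, [⟨nat_lit 4, nat_lit 11424, nat_lit 2928, nat_lit 13440, nat_lit 3408, nat_lit 4992, R6_280, R5_71, R4_104⟩, ⟨nat_lit 6, nat_lit 11520, nat_lit 2976, nat_lit 13488, nat_lit 16032, nat_lit 240, R6_281, R11_334, R3_5⟩]⟩, ⟨nat_lit 6, [⟨nat_lit 6, nat_lit 15312, nat_lit 10464, nat_lit 13296, nat_lit 16128, nat_lit 7200, R4_277, R11_336, R10_150⟩]⟩, ⟨nat_lit 7, [⟨nat_lit 4, nat_lit 16416, nat_lit 8688, nat_lit 14592, nat_lit 11472, nat_lit 11424, R8_304, R5_239, R5_238⟩]⟩]⟩,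
 ⟨nat_lit 7, [⟨nat_lit 3, [⟨nat_lit 3, nat_lit 10416, nat_lit 15408, nat_lit 15024, nat_lit 11184, nat_lit 7248, R7_313, R1_233, R10_151⟩, ⟨nat_lit 7, nat_lit 10320, nat_lit 15456, nat_lit 14976, nat_lit 12432, nat_lit 5952, R7_312, R10_259, R1_124⟩]⟩, ⟨nat_lit 7, [⟨nat_lit 7, nat_lit 16800, nat_lit 8640, nat_lit 13728, nat_lit 12384, nat_lit 8064, R4_286, R10_258, R11_168⟩]⟩]⟩]], [], [[], [⟨nat_lit 4, [⟨nat_lit 7, [⟨nat_lit 7, nat_lit 15984, nat_lit 12288, nat_lit 14208, nat_lit 3648, nat_lit 144, R6_296, R3_76, R1_3⟩]⟩]⟩]]], [[], [[], [⟨nat_lit 2, [⟨nat_lit 6, [⟨nat_lit 6, nat_lit 15696, nat_lit 10992, nat_lit 14256, nat_lit 11232, nat_lit 13776, R2_297, R1_234, R1_287⟩]⟩]⟩], [], [], [], [⟨nat_lit 0, [⟨nat_lit 0, [⟨nat_lit 0, nat_lit 3024, nat_lit 144, nat_lit 8880, nat_lit 336, nat_lit 2112, R6_185, R4_7,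 R4_44⟩]⟩, ⟨nat_lit 2, [⟨nat_lit 0, nat_lit 8832, nat_lit 480, nat_lit 19392, nat_lit 5568, nat_lit 3552, R13_404, R4_116, R5_74⟩, ⟨nat_lit 2, nat_lit 8928, nat_lit 528, nat_lit 19440, nat_lit 4272, nat_lit 9696, R13_405, R3_89, R11_202⟩]⟩]⟩,
 ⟨nat_lit 2, [⟨nat_lit 2, [⟨nat_lit 2, nat_lit 9072, nat_lit 12480, nat_lit 9072, nat_lit 12480, nat_lit 9792, R3_189, R10_260, R11_204⟩]⟩, ⟨nat_lit 6, [⟨nat_lit 2, nat_lit 15792, nat_lit 12336, nat_lit 14160, nat_lit 12528, nat_lit 6048, R2_295, R10_261, R1_126⟩, ⟨nat_lit 6, nat_lit 15744, nat_lit 12288, nat_lit 14208, nat_lit 11280, nat_lit 7296, R2_296, R1_235, R10_152⟩]⟩]⟩,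
 ⟨nat_lit 3, [⟨nat_lit 0, [⟨nat_lit 0, nat_lit 3264, nat_lit 8976, nat_lit 5280, nat_lit 3936, nat_lit 7632, R8_110, R5_82, R4_159⟩, ⟨nat_lit 3, nat_lit 3312, nat_lit 9072, nat_lit 5664, nat_lit 16176, nat_lit 2496, R8_118, R11_337, R3_52⟩]⟩, ⟨nat_lit 2, [⟨nat_lit 0, nat_lit 9312, nat_lit 9648, nat_lit 15648, nat_lit 12288, nat_lit 11760, R9_326, R5_256, R5_245⟩]⟩, ⟨nat_lit 3, [⟨nat_lit 3, nat_lit 10512, nat_lit 9360, nat_lit 16512, nat_lit 16272, nat_lit 8592, R5_344, R11_339, R10_179⟩]⟩]⟩]], [], [], [], [[], [], [], [], [], [⟨nat_lit 0, [⟨nat_lit 0, [⟨nat_lit 0, nat_lit 3072, nat_lit 2736, nat_lit 8928, nat_lit 528, nat_lit 2256, R6_186, R7_11, R4_47⟩, ⟨nat_lit 3, nat_lit 3120, nat_lit 2832, nat_lit 8976, nat_lit 1872, nat_lit 2112, R6_187, R2_39, R3_44⟩]⟩, ⟨nat_lit 2, [⟨nat_lit 0, nat_lit 8880, nat_lit 3024,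 nat_lit 19248, nat_lit 5472, nat_lit 2640, R13_401, R7_114, R5_55⟩, ⟨nat_lit 2, nat_lit 8976, nat_lit 3264, nat_lit 19296, nat_lit 3888, nat_lit 9024, R13_402, R2_81, R11_188⟩]⟩]⟩,
 ⟨nat_lit 1, [⟨nat_lit 0, [⟨nat_lit 0, nat_lit 3168, nat_lit 2784, nat_lit 9552, nat_lit 21792, nat_lit 11136, R4_199, R14_454, R4_232⟩, ⟨nat_lit 3, nat_lit 3216, nat_lit 2880, nat_lit 9600, nat_lit 10416, nat_lit 2832, R4_200, R12_217, R3_59⟩]⟩, ⟨nat_lit 2, [⟨nat_lit 0, nat_lit 9168, nat_lit 3072, nat_lit 15504, nat_lit 22224, nat_lit 13872, R3_323, R14_463, R5_289⟩, ⟨nat_lit 2, nat_lit 9216, nat_lit 3312, nat_lit 15552, nat_lit 16992, nat_lit 9120, R3_324, R12_354, R11_190⟩]⟩]⟩,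
 ⟨nat_lit 2, [⟨nat_lit 2, [⟨nat_lit 2, nat_lit 9120, nat_lit 3360, nat_lit 9120, nat_lit 3360, nat_lit 9072, R3_190, R1_70, R11_189⟩]⟩, ⟨nat_lit 6, [⟨nat_lit 2, nat_lit 15840, nat_lit 3408, nat_lit 14112, nat_lit 13680, nat_lit 6000, R2_294, R1_285, R1_125⟩]⟩]⟩,
 ⟨nat_lit 3, [⟨nat_lit 0, [⟨nat_lit 3, nat_lit 3360, nat_lit 2928, nat_lit 5712, nat_lit 1344, nat_lit 2448, R8_119, R1_28, R3_51⟩]⟩, ⟨nat_lit 3, [⟨nat_lit 3, nat_lit 10560, nat_lit 2976, nat_lit 16464, nat_lit 6768, nat_lit 8400, R5_343, R1_141, R10_175⟩]⟩]⟩]]], [[[⟨nat_lit 4, [⟨nat_lit 5, [⟨nat_lit 4, nat_lit 13584, nat_lit 1680, nat_lit 9648, nat_lit 4080, nat_lit 1296, R4_201, R6_85, R7_27⟩, ⟨nat_lit 7, nat_lit 13728, nat_lit 8304, nat_lit 9888, nat_lit 14208, nat_lit 144, R4_206, R13_296, R2_3⟩]⟩]⟩,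
 ⟨nat_lit 6, [⟨nat_lit 5, [⟨nat_lit 4, nat_lit 14352, nat_lit 1824, nat_lit 14352, nat_lit 4032, nat_lit 1392, R3_299, R8_84, R7_29⟩, ⟨nat_lit 7, nat_lit 14496, nat_lit 8448, nat_lit 14400, nat_lit 11904, nat_lit 384, R3_300, R9_248, R2_8⟩]⟩]⟩], [⟨nat_lit 4, [⟨nat_lit 4, [⟨nat_lit 4, nat_lit 11568, nat_lit 4320, nat_lit 9024, nat_lit 11328, nat_lit 240, R6_188, R6_236, R7_5⟩, ⟨nat_lit 7, nat_lit 11712, nat_lit 4656, nat_lit 9168, nat_lit 14640, nat_lit 1248, R6_191, R13_305, R2_26⟩]⟩, ⟨nat_lit 5, [⟨nat_lit 4, nat_lit 13872, nat_lit 4368, nat_lit 9696, nat_lit 11568, nat_lit 18624, R4_202, R6_241, R14_388⟩, ⟨nat_lit 7, nat_lit 14064, nat_lit 4752, nat_lit 9936, nat_lit 14736, nat_lit 288, R4_207, R13_307, R12_6⟩]⟩, ⟨nat_lit 7, [⟨nat_lit 7, nat_lit 16848, nat_lit 4704, nat_lit 4848, nat_lit 14688, nat_lit 720,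 R8_101, R13_306, R1_15⟩]⟩]⟩,
 ⟨nat_lit 6, [⟨nat_lit 4, [⟨nat_lit 4, nat_lit 11904, nat_lit 6048, nat_lit 18624, nat_lit 11424, nat_lit 5184, R13_388, R8_238, R7_108⟩, ⟨nat_lit 6, nat_lit 12048, nat_lit 7392, nat_lit 18672, nat_lit 13824, nat_lit 3600, R13_389, R5_288, R2_75⟩, ⟨nat_lit 7, nat_lit 12192, nat_lit 6624, nat_lit 18720, nat_lit 12480, nat_lit 8304, R13_390, R9_260, R2_173⟩]⟩, ⟨nat_lit 5, [⟨nat_lit 4, nat_lit 14592, nat_lit 6096, nat_lit 14592, nat_lit 12000, nat_lit 19104, R3_304, R8_250, R14_398⟩, ⟨nat_lit 6, nat_lit 14736, nat_lit 7440, nat_lit 14640, nat_lit 13920, nat_lit 15600, R3_305, R5_290, R12_325⟩, ⟨nat_lit 7, nat_lit 14928, nat_lit 6720, nat_lit 14688, nat_lit 12576, nat_lit 1344, R3_306, R9_262, R12_28⟩]⟩, ⟨nat_lit 6, [⟨nat_lit 6, nat_lit 15504, nat_lit 7488, nat_lit 9168, nat_lit 13872,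 nat_lit 3072, R3_191, R5_289, R1_64⟩]⟩, ⟨nat_lit 7, [⟨nat_lit 7, nat_lit 17040, nat_lit 6672, nat_lit 15216, nat_lit 12528, nat_lit 9120, R9_317, R9_261, R1_190⟩]⟩]⟩,
 ⟨nat_lit 7, [⟨nat_lit 7, [⟨nat_lit 7, nat_lit 17184, nat_lit 5616, nat_lit 16080, nat_lit 10800, nat_lit 6240, R5_335, R3_225, R1_130⟩]⟩]⟩]], [[], [⟨nat_lit 2, [⟨nat_lit 6, [⟨nat_lit 6, nat_lit 15648, nat_lit 6336, nat_lit 13872, nat_lit 11328, nat_lit 13632, R2_289, R1_236, R1_284⟩]⟩]⟩,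
 ⟨nat_lit 4, [⟨nat_lit 4, [⟨nat_lit 4, nat_lit 11616, nat_lit 2688, nat_lit 9072, nat_lit 2304, nat_lit 480, R6_189, R4_48, R7_10⟩, ⟨nat_lit 7, nat_lit 11760, nat_lit 3024, nat_lit 9216, nat_lit 2208, nat_lit 1824, R6_192, R3_46, R2_38⟩]⟩, ⟨nat_lit 5, [⟨nat_lit 4, nat_lit 13920, nat_lit 2736, nat_lit 9744, nat_lit 11184, nat_lit 21696, R4_203, R4_233, R14_452⟩, ⟨nat_lit 7, nat_lit 14112, nat_lit 3120, nat_lit 9984, nat_lit 2880, nat_lit 10320, R4_208, R3_60, R12_215⟩]⟩, ⟨nat_lit 7, [⟨nat_lit 7, nat_lit 16896, nat_lit 3072, nat_lit 5760, nat_lit 2736, nat_lit 1296, R8_120, R3_57, R1_27⟩]⟩]⟩,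
 ⟨nat_lit 6, [⟨nat_lit 4, [⟨nat_lit 4, nat_lit 11952, nat_lit 4032, nat_lit 18768, nat_lit 2688, nat_lit 5424, R13_391, R5_56, R7_113⟩, ⟨nat_lit 6, nat_lit 12096, nat_lit 5376, nat_lit 18816, nat_lit 16896, nat_lit 3840, R13_392, R11_352, R2_80⟩]⟩, ⟨nat_lit 5, [⟨nat_lit 4, nat_lit 14640, nat_lit 4080, nat_lit 14736, nat_lit 13920, nat_lit 22080, R3_307, R5_290, R14_460⟩, ⟨nat_lit 6, nat_lit 14784, nat_lit 5424, nat_lit 14784, nat_lit 16992, nat_lit 16896, R3_308, R11_354, R12_352⟩]⟩, ⟨nat_lit 6, [⟨nat_lit 6, nat_lit 15552, nat_lit 5472, nat_lit 9216, nat_lit 16944, nat_lit 3312, R3_192, R11_353, R1_69⟩]⟩]⟩,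
 ⟨nat_lit 7, [⟨nat_lit 7, [⟨nat_lit 7, nat_lit 17232, nat_lit 3600, nat_lit 16128, nat_lit 12960, nat_lit 6720, R5_336, R10_270, R1_140⟩]⟩]⟩]], [[⟨nat_lit 4, [⟨nat_lit 5, [⟨nat_lit 4, nat_lit 13632, nat_lit 240, nat_lit 9792, nat_lit 11184, nat_lit 7296, R4_204, R8_233, R7_152⟩, ⟨nat_lit 5, nat_lit 13680, nat_lit 5952, nat_lit 10272, nat_lit 768, nat_lit 5520, R4_214, R5_16, R2_115⟩, ⟨nat_lit 7, nat_lit 13776, nat_lit 7248, nat_lit 10176, nat_lit 1728, nat_lit 7152, R4_212, R9_36, R2_149⟩]⟩]⟩,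
 ⟨nat_lit 6, [⟨nat_lit 5, [⟨nat_lit 4, nat_lit 14400, nat_lit 384, nat_lit 14496, nat_lit 3216, nat_lit 7392, R3_302, R9_67, R7_154⟩]⟩]⟩], [⟨nat_lit 4, [⟨nat_lit 4, [⟨nat_lit 4, nat_lit 11664, nat_lit 6864, nat_lit 9120, nat_lit 3840, nat_lit 336, R6_190, R8_80, R7_7⟩, ⟨nat_lit 7, nat_lit 11808, nat_lit 8352, nat_lit 9312, nat_lit 1056, nat_lit 1632, R6_194, R9_22, R2_34⟩]⟩, ⟨nat_lit 5, [⟨nat_lit 4, nat_lit 13968, nat_lit 6912, nat_lit 9840, nat_lit 11808, nat_lit 20112, R4_205, R8_246, R14_419⟩, ⟨nat_lit 5, nat_lit 14016, nat_lit 7776, nat_lit 10320, nat_lit 864, nat_lit 15888, R4_215, R5_18, R12_331⟩, ⟨nat_lit 7, nat_lit 14160, nat_lit 8448, nat_lit 10224, nat_lit 1776, nat_lit 7392, R4_213, R9_37, R12_154⟩]⟩, ⟨nat_lit 7, [⟨nat_lit 7, nat_lit 16944, nat_lit 8400, nat_lit 6480, nat_lit 1488, nat_lit 1104, R8_135,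 R9_31, R1_23⟩]⟩]⟩,
 ⟨nat_lit 6, [⟨nat_lit 4, [⟨nat_lit 4, nat_lit 12000, nat_lit 7488, nat_lit 18960, nat_lit 12192, nat_lit 5280, R13_395, R9_254, R7_110⟩]⟩, ⟨nat_lit 5, [⟨nat_lit 4, nat_lit 14688, nat_lit 7536, nat_lit 14928, nat_lit 12960, nat_lit 20784, R3_311, R9_270, R14_433⟩]⟩]⟩], [⟨nat_lit 4, [⟨nat_lit 5, [⟨nat_lit 5, nat_lit 14256, nat_lit 4656, nat_lit 10368, nat_lit 816, nat_lit 4224, R4_216, R5_17, R1_88⟩]⟩]⟩]], [[⟨nat_lit 4, [⟨nat_lit 5, [⟨nat_lit 7, nat_lit 13824, nat_lit 5280, nat_lit 10032, nat_lit 9648, nat_lit 5856, R4_209, R3_201, R2_122⟩]⟩]⟩], [⟨nat_lit 4, [⟨nat_lit 4, [⟨nat_lit 7, nat_lit 11856, nat_lit 13008, nat_lit 9264, nat_lit 2160, nat_lit 1344, R6_193, R3_45, R2_28⟩]⟩, ⟨nat_lit 5, [⟨nat_lit 7, nat_lit 14208, nat_lit 13488, nat_lit 10080, nat_lit 9840, nat_lit 5952, R4_210, R3_205,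 R12_124⟩]⟩, ⟨nat_lit 7, [⟨nat_lit 7, nat_lit 16992, nat_lit 13248, nat_lit 6000, nat_lit 7056, nat_lit 816, R8_125, R3_147, R1_17⟩]⟩]⟩], [], [⟨nat_lit 4, [⟨nat_lit 5, [⟨nat_lit 7, nat_lit 14304, nat_lit 3984, nat_lit 10128, nat_lit 9744, nat_lit 4560, R4_211, R3_203, R1_95⟩]⟩]⟩]]], [[[], [], [], [], [], [⟨nat_lit 4, [⟨nat_lit 3, [⟨nat_lit 7, nat_lit 10608, nat_lit 14544, nat_lit 5088, nat_lit 13872, nat_lit 6192, R7_106, R13_289, R1_129⟩]⟩, ⟨nat_lit 7, [⟨nat_lit 4, nat_lit 17376, nat_lit 14304, nat_lit 4704, nat_lit 15744, nat_lit 1296, R4_98, R6_328, R5_27⟩, ⟨nat_lit 7, nat_lit 17472, nat_lit 14688, nat_lit 5280, nat_lit 13824, nat_lit 8112, R4_110, R13_288, R11_169⟩]⟩]⟩,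
 ⟨nat_lit 6, [⟨nat_lit 7, [⟨nat_lit 4, nat_lit 17664, nat_lit 16944, nat_lit 10656, nat_lit 19152, nat_lit 9648, R5_222, R8_399, R5_201⟩, ⟨nat_lit 7, nat_lit 17856, nat_lit 17328, nat_lit 10848, nat_lit 11520, nat_lit 8160, R5_226, R9_240, R11_170⟩]⟩]⟩,
 ⟨nat_lit 7, [⟨nat_lit 0, [⟨nat_lit 3, nat_lit 3408, nat_lit 15264, nat_lit 6048, nat_lit 11088, nat_lit 1536, R7_126, R2_231, R3_32⟩]⟩, ⟨nat_lit 3, [⟨nat_lit 3, nat_lit 10896, nat_lit 15456, nat_lit 17808, nat_lit 11136, nat_lit 7392, R14_371, R2_232, R10_154⟩, ⟨nat_lit 7, nat_lit 10800, nat_lit 16080, nat_lit 17856, nat_lit 17184, nat_lit 6240, R14_372, R3_358, R1_130⟩]⟩]⟩]], [], [], [[], [⟨nat_lit 4, [⟨nat_lit 7, [⟨nat_lit 7, nat_lit 17328, nat_lit 12864, nat_lit 6960, nat_lit 4800, nat_lit 480, R4_145, R3_100, R1_10⟩]⟩]⟩], [], [], [], [⟨nat_lit 4, [⟨nat_lit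 3, [⟨nat_lit 3, nat_lit 10752, nat_lit 4896, nat_lit 7152, nat_lit 624, nat_lit 7680, R7_149, R2_13, R10_160⟩, ⟨nat_lit 7, nat_lit 10704, nat_lit 4992, nat_lit 6720, nat_lit 12720, nat_lit 6864, R7_140, R3_265, R1_143⟩]⟩, ⟨nat_lit 7, [⟨nat_lit 7, nat_lit 17568, nat_lit 5040, nat_lit 6912, nat_lit 4752, nat_lit 8208, R4_144, R3_99, R11_171⟩]⟩]⟩,
 ⟨nat_lit 7, [⟨nat_lit 0, [⟨nat_lit 3, nat_lit 3504, nat_lit 4848, nat_lit 6096, nat_lit 10464, nat_lit 1584, R7_127, R12_218, R3_33⟩]⟩, ⟨nat_lit 3, [⟨nat_lit 3, nat_lit 10992, nat_lit 4944, nat_lit 18000, nat_lit 10512, nat_lit 7728, R14_375, R12_219, R10_161⟩]⟩]⟩]]], [], [[], [], [], [], [], [[], [], [], [], [], [⟨nat_lit 1, [⟨nat_lit 0, [⟨nat_lit 0, nat_lit 1488, nat_lit 4464, nat_lit 6000, nat_lit 21840, nat_lit 11904, R7_125, R14_455, R4_248⟩, ⟨nat_lit 3, nat_lit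 1584, nat_lit 4848, nat_lit 6096, nat_lit 10464, nat_lit 3504, R7_127, R12_218, R3_73⟩]⟩, ⟨nat_lit 2, [⟨nat_lit 0, nat_lit 7968, nat_lit 5664, nat_lit 8928, nat_lit 22272, nat_lit 13776, R2_186, R14_464, R5_287⟩, ⟨nat_lit 2, nat_lit 8016, nat_lit 6576, nat_lit 9120, nat_lit 16944, nat_lit 7056, R2_190, R12_353, R11_147⟩]⟩]⟩]]]]
noncomputable def N6115 : T3 (List N0) := [[[[], [⟨nat_lit 4, [⟨nat_lit 4, [⟨nat_lit 4, nat_lit 48, nat_lit 13440, nat_lit 13728, nat_lit 10656, nat_lit 2112, R6_286, R6_222, R7_44⟩, ⟨nat_lit 7, nat_lit 96, nat_lit 13536, nat_lit 13824, nat_lit 13632, nat_lit 912, R6_288, R13_284, R2_19⟩]⟩, ⟨nat_lit 7, [⟨nat_lit 7, nat_lit 432, nat_lit 13632, nat_lit 19152, nat_lit 13680, nat_lit 240, R13_399, R13_285, R1_5⟩]⟩]⟩,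
 ⟨nat_lit 5, [⟨nat_lit 4, [⟨nat_lit 4, nat_lit 7008, nat_lit 14256, nat_lit 13488, nat_lit 11520, nat_lit 11424, R4_281, R4_240, R7_238⟩, ⟨nat_lit 7, nat_lit 7056, nat_lit 14352, nat_lit 13632, nat_lit 10368, nat_lit 10800, R4_284, R3_216, R2_225⟩]⟩, ⟨nat_lit 7, [⟨nat_lit 7, nat_lit 7248, nat_lit 14496, nat_lit 15408, nat_lit 10416, nat_lit 11184, R3_321, R3_217, R1_233⟩]⟩]⟩,
 ⟨nat_lit 6, [⟨nat_lit 4, [⟨nat_lit 4, nat_lit 8784, nat_lit 16752, nat_lit 13008, nat_lit 11376, nat_lit 7584, R8_271, R8_237, R7_158⟩, ⟨nat_lit 6, nat_lit 8880, nat_lit 16944, nat_lit 13248, nat_lit 12960, nat_lit 6384, R8_276, R5_270, R2_133⟩, ⟨nat_lit 7, nat_lit 8928, nat_lit 16848, nat_lit 13104, nat_lit 11184, nat_lit 8016, R8_273, R9_233, R2_167⟩]⟩, ⟨nat_lit 6, [⟨nat_lit 6, nat_lit 9312, nat_lit 17184, nat_lit 16272, nat_lit 13008,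 nat_lit 5088, R5_339, R5_271, R1_106⟩]⟩, ⟨nat_lit 7, [⟨nat_lit 7, nat_lit 9600, nat_lit 16992, nat_lit 15504, nat_lit 11232, nat_lit 8544, R9_323, R9_234, R1_178⟩]⟩]⟩,
 ⟨nat_lit 7, [⟨nat_lit 7, [⟨nat_lit 7, nat_lit 12432, nat_lit 14976, nat_lit 15456, nat_lit 10320, nat_lit 5952, R3_322, R3_215, R1_124⟩]⟩]⟩], [], [], [], [⟨nat_lit 4, [⟨nat_lit 4, [⟨nat_lit 4, nat_lit 0, nat_lit 12240, nat_lit 8304, nat_lit 15120, nat_lit 1920, R6_173, R6_315, R4_40⟩]⟩, ⟨nat_lit 7, [⟨nat_lit 4, nat_lit 336, nat_lit 12288, nat_lit 19056, nat_lit 15216, nat_lit 1152, R13_397, R6_317, R5_24⟩, ⟨nat_lit 7, nat_lit 384, nat_lit 12336, nat_lit 19104, nat_lit 13776, nat_lit 9504, R13_398, R13_287, R11_198⟩]⟩]⟩,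
 ⟨nat_lit 5, [⟨nat_lit 4, [⟨nat_lit 4, nat_lit 6960, nat_lit 13104, nat_lit 8880, nat_lit 14544, nat_lit 10848, R4_185, R4_303, R4_226⟩]⟩, ⟨nat_lit 7, [⟨nat_lit 4, nat_lit 7152, nat_lit 13248, nat_lit 15264, nat_lit 14592, nat_lit 13200, R3_318, R4_304, R5_275⟩, ⟨nat_lit 7, nat_lit 7200, nat_lit 13296, nat_lit 15312, nat_lit 10464, nat_lit 9648, R3_319, R3_218, R11_201⟩]⟩]⟩,
 ⟨nat_lit 6, [⟨nat_lit 4, [⟨nat_lit 4, nat_lit 8736, nat_lit 14640, nat_lit 5232, nat_lit 18240, nat_lit 7440, R8_109, R8_380, R4_155⟩]⟩, ⟨nat_lit 7, [⟨nat_lit 4, nat_lit 9456, nat_lit 14736, nat_lit 15360, nat_lit 19104, nat_lit 9504, R9_320, R8_398, R5_198⟩, ⟨nat_lit 7, nat_lit 9552, nat_lit 14784, nat_lit 15408, nat_lit 11424, nat_lit 9552, R9_321, R9_238, R11_199⟩]⟩]⟩,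
 ⟨nat_lit 7, [⟨nat_lit 3, [⟨nat_lit 3, nat_lit 12192, nat_lit 13824, nat_lit 13968, nat_lit 10896, nat_lit 7104, R2_291, R2_227, R10_148⟩, ⟨nat_lit 7, nat_lit 12240, nat_lit 13776, nat_lit 13920, nat_lit 16704, nat_lit 5904, R2_290, R3_348, R1_123⟩]⟩, ⟨nat_lit 7, [⟨nat_lit 7, nat_lit 12384, nat_lit 13728, nat_lit 8640, nat_lit 16800, nat_lit 9600, R3_180, R3_350, R11_200⟩]⟩]⟩]], [[], [⟨nat_lit 4, [⟨nat_lit 4, [⟨nat_lit 4, nat_lit 192, nat_lit 12144, nat_lit 14112, nat_lit 384, nat_lit 2160, R6_294, R4_8, R7_45⟩, ⟨nat_lit 7, nat_lit 240, nat_lit 12240, nat_lit 14256, nat_lit 3696, nat_lit 1056, R6_297, R3_77, R2_22⟩]⟩, ⟨nat_lit 7, [⟨nat_lit 7, nat_lit 576, nat_lit 12384, nat_lit 19536, nat_lit 4224, nat_lit 384, R13_407, R3_88, R1_8⟩]⟩]⟩,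
 ⟨nat_lit 6, [⟨nat_lit 4, [⟨nat_lit 4, nat_lit 9024, nat_lit 14976, nat_lit 13056, nat_lit 2928, nat_lit 7632, R8_272, R5_61, R7_159⟩, ⟨nat_lit 6, nat_lit 9120, nat_lit 15168, nat_lit 13296, nat_lit 15888, nat_lit 6432, R8_277, R11_331, R2_134⟩]⟩, ⟨nat_lit 6, [⟨nat_lit 6, nat_lit 9408, nat_lit 15456, nat_lit 16608, nat_lit 15936, nat_lit 5136, R5_346, R11_332, R1_107⟩]⟩]⟩,
 ⟨nat_lit 7, [⟨nat_lit 7, [⟨nat_lit 7, nat_lit 12528, nat_lit 14160, nat_lit 15792, nat_lit 12336, nat_lit 6048, R3_329, R10_257, R1_126⟩]⟩]⟩]], [], [[], [⟨nat_lit 4, [⟨nat_lit 4, [⟨nat_lit 7, nat_lit 288, nat_lit 11952, nat_lit 14016, nat_lit 576, nat_lit 960, R6_292, R3_12, R2_20⟩]⟩, ⟨nat_lit 7, [⟨nat_lit 7, nat_lit 624, nat_lit 12432, nat_lit 19632, nat_lit 4176, nat_lit 288, R13_409, R3_87, R1_6⟩]⟩]⟩,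
 ⟨nat_lit 5, [⟨nat_lit 4, [⟨nat_lit 7, nat_lit 7104, nat_lit 13968, nat_lit 13824, nat_lit 3408, nat_lit 10896, R4_288, R10_71, R2_227⟩]⟩, ⟨nat_lit 7, [⟨nat_lit 7, nat_lit 7296, nat_lit 14208, nat_lit 15744, nat_lit 3984, nat_lit 11280, R3_328, R10_83, R1_235⟩]⟩]⟩]]], [[], [[], [⟨nat_lit 2, [⟨nat_lit 6, [⟨nat_lit 6, nat_lit 19440, nat_lit 11376, nat_lit 15792, nat_lit 11472, nat_lit 15552, R1_329, R1_239, R1_324⟩]⟩]⟩,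
 ⟨nat_lit 4, [⟨nat_lit 4, [⟨nat_lit 4, nat_lit 720, nat_lit 12720, nat_lit 624, nat_lit 1296, nat_lit 2736, R4_13, R4_27, R7_57⟩, ⟨nat_lit 7, nat_lit 768, nat_lit 12816, nat_lit 7008, nat_lit 4848, nat_lit 3072, R4_146, R3_101, R2_64⟩]⟩, ⟨nat_lit 7, [⟨nat_lit 7, nat_lit 912, nat_lit 12960, nat_lit 5088, nat_lit 5952, nat_lit 2544, R3_106, R3_124, R1_53⟩]⟩]⟩,
 ⟨nat_lit 6, [⟨nat_lit 4, [⟨nat_lit 4, nat_lit 9936, nat_lit 15984, nat_lit 240, nat_lit 2976, nat_lit 8016, R5_5, R5_62, R7_167⟩, ⟨nat_lit 6, nat_lit 10032, nat_lit 16176, nat_lit 5952, nat_lit 16464, nat_lit 7008, R5_124, R11_343, R2_146⟩]⟩, ⟨nat_lit 6, [⟨nat_lit 6, nat_lit 10176, nat_lit 16464, nat_lit 21552, nat_lit 16512, nat_lit 5712, R11_449, R11_344, R1_119⟩]⟩]⟩,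
 ⟨nat_lit 7, [⟨nat_lit 7, [⟨nat_lit 7, nat_lit 12720, nat_lit 15696, nat_lit 19344, nat_lit 12624, nat_lit 7920, R10_403, R10_263, R1_165⟩]⟩]⟩], [], [], [], [⟨nat_lit 0, [⟨nat_lit 0, [⟨nat_lit 0, nat_lit 14064, nat_lit 672, nat_lit 1152, nat_lit 912, nat_lit 2832, R4_24, R4_19, R4_59⟩]⟩, ⟨nat_lit 2, [⟨nat_lit 0, nat_lit 14256, nat_lit 816, nat_lit 4464, nat_lit 7296, nat_lit 4320, R3_93, R4_152, R5_90⟩, ⟨nat_lit 2, nat_lit 14304, nat_lit 864, nat_lit 5040, nat_lit 6000, nat_lit 10224, R3_105, R3_125, R11_213⟩]⟩]⟩,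
 ⟨nat_lit 2, [⟨nat_lit 2, [⟨nat_lit 2, nat_lit 19248, nat_lit 12672, nat_lit 19248, nat_lit 12672, nat_lit 10320, R10_401, R10_264, R11_215⟩]⟩, ⟨nat_lit 6, [⟨nat_lit 2, nat_lit 19344, nat_lit 12624, nat_lit 15696, nat_lit 12720, nat_lit 7920, R1_327, R10_265, R1_165⟩, ⟨nat_lit 6, nat_lit 19392, nat_lit 12576, nat_lit 15744, nat_lit 11520, nat_lit 8688, R1_328, R1_240, R10_181⟩]⟩]⟩,
 ⟨nat_lit 3, [⟨nat_lit 0, [⟨nat_lit 0, nat_lit 19680, nat_lit 9888, nat_lit 144, nat_lit 4080, nat_lit 8016, R5_3, R5_85, R4_167⟩, ⟨nat_lit 3, nat_lit 19728, nat_lit 9984, nat_lit 5808, nat_lit 16560, nat_lit 10128, R5_121, R11_345, R3_211⟩]⟩, ⟨nat_lit 3, [⟨nat_lit 3, nat_lit 20016, nat_lit 10128, nat_lit 21456, nat_lit 16656, nat_lit 8640, R11_447, R11_347, R10_180⟩]⟩]⟩,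
 ⟨nat_lit 4, [⟨nat_lit 4, [⟨nat_lit 4, nat_lit 672, nat_lit 14064, nat_lit 1152, nat_lit 912, nat_lit 2832, R4_24, R4_19, R4_59⟩]⟩, ⟨nat_lit 7, [⟨nat_lit 4, nat_lit 816, nat_lit 14256, nat_lit 4464, nat_lit 7296, nat_lit 4320, R3_93, R4_152, R5_90⟩, ⟨nat_lit 7, nat_lit 864, nat_lit 14304, nat_lit 5040, nat_lit 6000, nat_lit 10224, R3_105, R3_125, R11_213⟩]⟩]⟩,
 ⟨nat_lit 6, [⟨nat_lit 4, [⟨nat_lit 4, nat_lit 9888, nat_lit 19680, nat_lit 144, nat_lit 4080, nat_lit 8016, R5_3, R5_85, R4_167⟩, ⟨nat_lit 6, nat_lit 9984, nat_lit 19728, nat_lit 5808, nat_lit 16560, nat_lit 10128, R5_121, R11_345, R3_211⟩]⟩, ⟨nat_lit 6, [⟨nat_lit 6, nat_lit 10128, nat_lit 20016, nat_lit 21456, nat_lit 16656, nat_lit 8640, R11_447, R11_347, R10_180⟩]⟩]⟩,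
 ⟨nat_lit 7, [⟨nat_lit 3, [⟨nat_lit 3, nat_lit 12576, nat_lit 19392, nat_lit 15744, nat_lit 11520, nat_lit 8688, R1_328, R1_240, R10_181⟩, ⟨nat_lit 7, nat_lit 12624, nat_lit 19344, nat_lit 15696, nat_lit 12720, nat_lit 7920, R1_327, R10_265, R1_165⟩]⟩, ⟨nat_lit 7, [⟨nat_lit 7, nat_lit 12672, nat_lit 19248, nat_lit 19248, nat_lit 12672, nat_lit 10320, R10_401, R10_264, R11_215⟩]⟩]⟩]], [], [], [], [[], [], [], [], [], [⟨nat_lit 0, [⟨nat_lit 0, [⟨nat_lit 0, nat_lit 13968, nat_lit 3456, nat_lit 1680, nat_lit 960, nat_lit 2976, R4_35, R7_20, R4_62⟩, ⟨nat_lit 3, nat_lit 14016, nat_lit 3504, nat_lit 8400, nat_lit 2352, nat_lit 9792, R4_175, R2_49, R3_204⟩]⟩, ⟨nat_lit 2, [⟨nat_lit 0, nat_lit 14112, nat_lit 3648, nat_lit 12576, nat_lit 6960, nat_lit 3216, R3_262, R7_145, R5_67⟩, ⟨nat_lit 2, nat_lit 14160, nat_lit 3792,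 nat_lit 13344, nat_lit 5136, nat_lit 9408, R3_278, R2_107, R11_196⟩]⟩]⟩,
 ⟨nat_lit 2, [⟨nat_lit 2, [⟨nat_lit 2, nat_lit 19200, nat_lit 3840, nat_lit 19200, nat_lit 3840, nat_lit 9456, R10_400, R1_80, R11_197⟩]⟩, ⟨nat_lit 6, [⟨nat_lit 2, nat_lit 19296, nat_lit 3888, nat_lit 15648, nat_lit 15504, nat_lit 7872, R1_326, R1_323, R1_164⟩]⟩]⟩,
 ⟨nat_lit 3, [⟨nat_lit 0, [⟨nat_lit 3, nat_lit 19632, nat_lit 3552, nat_lit 5712, nat_lit 1824, nat_lit 10080, R5_119, R1_38, R3_210⟩]⟩, ⟨nat_lit 3, [⟨nat_lit 3, nat_lit 19968, nat_lit 3600, nat_lit 21408, nat_lit 7248, nat_lit 8496, R11_446, R1_151, R10_177⟩]⟩]⟩]]], [[[⟨nat_lit 4, [⟨nat_lit 5, [⟨nat_lit 4, nat_lit 1296, nat_lit 1728, nat_lit 4512, nat_lit 4128, nat_lit 1344, R5_94, R6_86, R7_28⟩, ⟨nat_lit 7, nat_lit 1392, nat_lit 8352, nat_lit 4896, nat_lit 14400, nat_lit 192,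 R5_102, R13_300, R2_4⟩]⟩]⟩], [⟨nat_lit 4, [⟨nat_lit 4, [⟨nat_lit 4, nat_lit 960, nat_lit 4464, nat_lit 1200, nat_lit 11376, nat_lit 2304, R8_25, R6_237, R7_48⟩, ⟨nat_lit 7, nat_lit 1008, nat_lit 4896, nat_lit 7104, nat_lit 14880, nat_lit 2448, R8_148, R13_310, R2_51⟩]⟩, ⟨nat_lit 5, [⟨nat_lit 4, nat_lit 1344, nat_lit 4512, nat_lit 4560, nat_lit 11616, nat_lit 18672, R5_95, R6_242, R14_389⟩, ⟨nat_lit 7, nat_lit 1440, nat_lit 4992, nat_lit 4944, nat_lit 14976, nat_lit 336, R5_103, R13_312, R12_7⟩]⟩, ⟨nat_lit 7, [⟨nat_lit 7, nat_lit 2064, nat_lit 4944, nat_lit 4080, nat_lit 14928, nat_lit 1920, R9_85, R13_311, R1_40⟩]⟩]⟩,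
 ⟨nat_lit 6, [⟨nat_lit 4, [⟨nat_lit 4, nat_lit 10416, nat_lit 6240, nat_lit 14160, nat_lit 11520, nat_lit 7728, R9_295, R8_240, R7_161⟩, ⟨nat_lit 6, nat_lit 10464, nat_lit 7584, nat_lit 14784, nat_lit 14016, nat_lit 6576, R9_308, R5_292, R2_137⟩, ⟨nat_lit 7, nat_lit 10512, nat_lit 6912, nat_lit 14448, nat_lit 12720, nat_lit 10080, R9_301, R9_265, R2_210⟩]⟩]⟩]], [[], [⟨nat_lit 4, [⟨nat_lit 4, [⟨nat_lit 4, nat_lit 1056, nat_lit 2832, nat_lit 1296, nat_lit 2688, nat_lit 2544, R8_27, R4_56, R7_53⟩, ⟨nat_lit 7, nat_lit 1104, nat_lit 3264, nat_lit 7248, nat_lit 7104, nat_lit 2880, R8_151, R3_148, R2_60⟩]⟩, ⟨nat_lit 5, [⟨nat_lit 4, nat_lit 1488, nat_lit 2880, nat_lit 5280, nat_lit 11472, nat_lit 21744, R5_110, R4_239, R14_453⟩, ⟨nat_lit 7, nat_lit 1536, nat_lit 3360, nat_lit 5472, nat_lit 7584, nat_lit 10368, R5_114,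 R3_158, R12_216⟩]⟩, ⟨nat_lit 7, [⟨nat_lit 7, nat_lit 2112, nat_lit 3312, nat_lit 4992, nat_lit 7488, nat_lit 2352, R9_104, R3_156, R1_49⟩]⟩]⟩,
 ⟨nat_lit 6, [⟨nat_lit 4, [⟨nat_lit 4, nat_lit 10560, nat_lit 4224, nat_lit 14208, nat_lit 3072, nat_lit 7968, R9_296, R5_64, R7_166⟩, ⟨nat_lit 6, nat_lit 10608, nat_lit 5568, nat_lit 14832, nat_lit 17088, nat_lit 6816, R9_309, R11_356, R2_142⟩]⟩]⟩]], [[⟨nat_lit 4, [⟨nat_lit 5, [⟨nat_lit 4, nat_lit 1584, nat_lit 288, nat_lit 6096, nat_lit 11232, nat_lit 7344, R5_127, R8_234, R7_153⟩, ⟨nat_lit 5, nat_lit 1680, nat_lit 6000, nat_lit 7008, nat_lit 7728, nat_lit 5568, R5_146, R5_161, R2_116⟩, ⟨nat_lit 7, nat_lit 1824, nat_lit 7296, nat_lit 6624, nat_lit 7632, nat_lit 7200, R5_138, R9_159, R2_150⟩]⟩]⟩], [⟨nat_lit 4, [⟨nat_lit 4, [⟨nat_lit 4, nat_lit 1152, nat_lit 6960, nat_lit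 1392, nat_lit 3984, nat_lit 2400, R8_29, R8_83, R7_50⟩, ⟨nat_lit 7, nat_lit 1200, nat_lit 8496, nat_lit 7344, nat_lit 6480, nat_lit 2592, R8_153, R9_135, R2_54⟩]⟩, ⟨nat_lit 5, [⟨nat_lit 4, nat_lit 1632, nat_lit 7008, nat_lit 6144, nat_lit 11952, nat_lit 20160, R5_128, R8_249, R14_420⟩, ⟨nat_lit 5, nat_lit 1728, nat_lit 7824, nat_lit 7056, nat_lit 7824, nat_lit 15936, R5_147, R5_163, R12_332⟩, ⟨nat_lit 7, nat_lit 1872, nat_lit 8592, nat_lit 6672, nat_lit 7680, nat_lit 7440, R5_139, R9_160, R12_155⟩]⟩, ⟨nat_lit 7, [⟨nat_lit 7, nat_lit 2160, nat_lit 8544, nat_lit 6576, nat_lit 7344, nat_lit 2064, R9_137, R9_153, R1_43⟩]⟩]⟩,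
 ⟨nat_lit 6, [⟨nat_lit 4, [⟨nat_lit 4, nat_lit 10704, nat_lit 7584, nat_lit 14256, nat_lit 12288, nat_lit 7824, R9_297, R9_256, R7_163⟩]⟩]⟩], [⟨nat_lit 4, [⟨nat_lit 5, [⟨nat_lit 5, nat_lit 1776, nat_lit 4704, nat_lit 7104, nat_lit 7776, nat_lit 4272, R5_148, R5_162, R1_89⟩]⟩]⟩]], [[⟨nat_lit 4, [⟨nat_lit 5, [⟨nat_lit 7, nat_lit 1920, nat_lit 5328, nat_lit 5520, nat_lit 9888, nat_lit 5904, R5_115, R3_206, R2_123⟩]⟩]⟩], [⟨nat_lit 4, [⟨nat_lit 4, [⟨nat_lit 7, nat_lit 1248, nat_lit 13104, nat_lit 7152, nat_lit 2688, nat_lit 2496, R8_149, R3_56, R2_52⟩]⟩, ⟨nat_lit 5, [⟨nat_lit 7, nat_lit 1968, nat_lit 13536, nat_lit 5616, nat_lit 10224, nat_lit 6000, R5_117, R3_213, R12_125⟩]⟩, ⟨nat_lit 7, [⟨nat_lit 7, nat_lit 2208, nat_lit 13344, nat_lit 5232, nat_lit 7440, nat_lit 1968, R9_109, R3_155, R1_41⟩]⟩]⟩], [], [⟨nat_lit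 4, [⟨nat_lit 5, [⟨nat_lit 7, nat_lit 2016, nat_lit 4032, nat_lit 5568, nat_lit 10032, nat_lit 4608, R5_116, R3_209, R1_96⟩]⟩]⟩]]], [[[], [], [], [], [], [⟨nat_lit 4, [⟨nat_lit 3, [⟨nat_lit 7, nat_lit 2256, nat_lit 14592, nat_lit 3504, nat_lit 13968, nat_lit 6672, R2_73, R13_291, R1_139⟩]⟩, ⟨nat_lit 7, [⟨nat_lit 4, nat_lit 2448, nat_lit 14352, nat_lit 432, nat_lit 15792, nat_lit 1440, R3_9, R6_329, R5_30⟩, ⟨nat_lit 7, nat_lit 2496, nat_lit 14736, nat_lit 4032, nat_lit 13920, nat_lit 9840, R3_84, R13_290, R11_205⟩]⟩]⟩,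
 ⟨nat_lit 5, [⟨nat_lit 3, [⟨nat_lit 7, nat_lit 8400, nat_lit 16464, nat_lit 2976, nat_lit 10560, nat_lit 6768, R1_62, R3_220, R1_141⟩]⟩, ⟨nat_lit 7, [⟨nat_lit 4, nat_lit 8544, nat_lit 16224, nat_lit 2928, nat_lit 14880, nat_lit 13344, R10_61, R4_310, R5_278⟩, ⟨nat_lit 7, nat_lit 8592, nat_lit 16512, nat_lit 3600, nat_lit 10512, nat_lit 9936, R10_75, R3_219, R11_207⟩]⟩]⟩,
 ⟨nat_lit 7, [⟨nat_lit 3, [⟨nat_lit 3, nat_lit 12912, nat_lit 15552, nat_lit 14928, nat_lit 11232, nat_lit 7536, R12_311, R2_234, R10_157⟩, ⟨nat_lit 7, nat_lit 12960, nat_lit 16128, nat_lit 14976, nat_lit 17232, nat_lit 6720, R12_312, R3_359, R1_140⟩]⟩]⟩]], [], [], [[], [⟨nat_lit 4, [⟨nat_lit 7, [⟨nat_lit 7, nat_lit 2688, nat_lit 13008, nat_lit 5136, nat_lit 5904, nat_lit 528, R3_107, R3_123, R1_11⟩]⟩]⟩,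
 ⟨nat_lit 5, [⟨nat_lit 7, [⟨nat_lit 7, nat_lit 8688, nat_lit 15744, nat_lit 4224, nat_lit 5088, nat_lit 11520, R10_88, R10_106, R1_240⟩]⟩]⟩], [], [], [], [⟨nat_lit 4, [⟨nat_lit 3, [⟨nat_lit 3, nat_lit 2352, nat_lit 5136, nat_lit 5376, nat_lit 6336, nat_lit 8112, R2_112, R2_132, R10_169⟩, ⟨nat_lit 7, nat_lit 2400, nat_lit 5280, nat_lit 4896, nat_lit 13536, nat_lit 7200, R2_102, R3_282, R1_150⟩]⟩, ⟨nat_lit 7, [⟨nat_lit 7, nat_lit 2640, nat_lit 5376, nat_lit 5760, nat_lit 5424, nat_lit 9984, R3_120, R3_113, R11_208⟩]⟩]⟩,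
 ⟨nat_lit 5, [⟨nat_lit 3, [⟨nat_lit 3, nat_lit 8448, nat_lit 5184, nat_lit 4080, nat_lit 5040, nat_lit 8208, R1_85, R1_105, R10_171⟩, ⟨nat_lit 7, nat_lit 8496, nat_lit 5328, nat_lit 3600, nat_lit 5616, nat_lit 7248, R1_75, R10_117, R1_151⟩]⟩, ⟨nat_lit 7, [⟨nat_lit 7, nat_lit 8640, nat_lit 5424, nat_lit 4176, nat_lit 5136, nat_lit 10080, R10_87, R10_107, R11_210⟩]⟩]⟩,
 ⟨nat_lit 7, [⟨nat_lit 3, [⟨nat_lit 3, nat_lit 13104, nat_lit 5232, nat_lit 15120, nat_lit 10896, nat_lit 8160, R12_315, R12_227, R10_170⟩]⟩]⟩]]], [], [[], [], [], [], [], [[], [], [], [], [], [⟨nat_lit 0, [⟨nat_lit 0, [⟨nat_lit 0, nat_lit 13200, nat_lit 4512, nat_lit 1776, nat_lit 1536, nat_lit 4272, R7_37, R7_32, R4_89⟩, ⟨nat_lit 3, nat_lit 13344, nat_lit 4896, nat_lit 8400, nat_lit 624, nat_lit 10752, R7_175, R2_13, R3_224⟩]⟩, ⟨nat_lit 2, [⟨nat_lit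 0, nat_lit 13488, nat_lit 5712, nat_lit 336, nat_lit 7536, nat_lit 3120, R2_7, R7_157, R5_65⟩, ⟨nat_lit 2, nat_lit 13632, nat_lit 6624, nat_lit 6048, nat_lit 5760, nat_lit 7344, R2_126, R2_120, R11_153⟩]⟩, ⟨nat_lit 3, [⟨nat_lit 3, nat_lit 13872, nat_lit 5136, nat_lit 5376, nat_lit 6336, nat_lit 6816, R2_112, R2_132, R10_142⟩]⟩]⟩,
 ⟨nat_lit 1, [⟨nat_lit 0, [⟨nat_lit 0, nat_lit 16032, nat_lit 4560, nat_lit 5280, nat_lit 21888, nat_lit 12048, R14_110, R14_456, R4_251⟩, ⟨nat_lit 3, nat_lit 16224, nat_lit 4944, nat_lit 5472, nat_lit 10512, nat_lit 10992, R14_114, R12_219, R3_229⟩]⟩, ⟨nat_lit 2, [⟨nat_lit 0, nat_lit 16848, nat_lit 5760, nat_lit 7152, nat_lit 22416, nat_lit 14256, R12_149, R14_467, R5_297⟩, ⟨nat_lit 2, nat_lit 16992, nat_lit 6672, nat_lit 7872, nat_lit 17232, nat_lit 7440, R12_164, R12_359, R11_155⟩]⟩,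 ⟨nat_lit 3, [⟨nat_lit 3, nat_lit 18240, nat_lit 5232, nat_lit 15120, nat_lit 10896, nat_lit 6912, R12_315, R12_227, R10_144⟩]⟩]⟩,
 ⟨nat_lit 2, [⟨nat_lit 2, [⟨nat_lit 2, nat_lit 19104, nat_lit 6720, nat_lit 4752, nat_lit 4464, nat_lit 7392, R1_99, R1_93, R11_154⟩]⟩]⟩,
 ⟨nat_lit 3, [⟨nat_lit 3, [⟨nat_lit 3, nat_lit 19536, nat_lit 5184, nat_lit 4080, nat_lit 5040, nat_lit 6864, R1_85, R1_105, R10_143⟩]⟩]⟩]]]]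
noncomputable def N6201 : T3 (List N0) := [[[[], [⟨nat_lit 0, [⟨nat_lit 0, [⟨nat_lit 2, nat_lit 144, nat_lit 3024, nat_lit 1680, nat_lit 11328, nat_lit 11568, R6_35, R6_236, R3_241⟩]⟩, ⟨nat_lit 2, [⟨nat_lit 2, nat_lit 192, nat_lit 4080, nat_lit 192, nat_lit 11376, nat_lit 15648, R8_4, R6_237, R10_326⟩]⟩]⟩,
 ⟨nat_lit 2, [⟨nat_lit 2, [⟨nat_lit 2, nat_lit 384, nat_lit 12528, nat_lit 14976, nat_lit 11952, nat_lit 15696, R5_312, R4_249, R10_327⟩, ⟨nat_lit 6, nat_lit 480, nat_lit 12432, nat_lit 15024, nat_lit 13056, nat_lit 13824, R5_313, R7_272, R1_288⟩]⟩]⟩,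
 ⟨nat_lit 3, [⟨nat_lit 0, [⟨nat_lit 0, nat_lit 768, nat_lit 9120, nat_lit 16512, nat_lit 11232, nat_lit 9216, R13_344, R6_234, R4_192⟩, ⟨nat_lit 2, nat_lit 1200, nat_lit 9216, nat_lit 16560, nat_lit 11568, nat_lit 11904, R13_345, R8_241, R3_248⟩]⟩, ⟨nat_lit 2, [⟨nat_lit 2, nat_lit 1248, nat_lit 11088, nat_lit 14160, nat_lit 11616, nat_lit 15744, R9_295, R8_242, R10_328⟩]⟩, ⟨nat_lit 3, [⟨nat_lit 0, nat_lit 816, nat_lit 9792, nat_lit 1248, nat_lit 11280, nat_lit 4464, R3_26, R6_235, R5_93⟩, ⟨nat_lit 3, nat_lit 1776, nat_lit 9888, nat_lit 1488, nat_lit 11904, nat_lit 19104, R3_31, R4_248, R11_398⟩]⟩]⟩,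
 ⟨nat_lit 7, [⟨nat_lit 3, [⟨nat_lit 3, nat_lit 3456, nat_lit 15216, nat_lit 12576, nat_lit 12192, nat_lit 19152, R2_262, R7_254, R11_399⟩]⟩]⟩], [], [], [], [⟨nat_lit 0, [⟨nat_lit 0, [⟨nat_lit 2, nat_lit 0, nat_lit 3312, nat_lit 3648, nat_lit 11424, nat_lit 1152, R6_76, R6_238, R2_24⟩]⟩, ⟨nat_lit 1, [⟨nat_lit 2, nat_lit 96, nat_lit 3552, nat_lit 3648, nat_lit 11520, nat_lit 48, R4_76, R6_240, R12_1⟩]⟩, ⟨nat_lit 2, [⟨nat_lit 2, nat_lit 48, nat_lit 4080, nat_lit 96, nat_lit 11472, nat_lit 624, R8_2, R6_239, R1_13⟩]⟩]⟩,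
 ⟨nat_lit 3, [⟨nat_lit 0, [⟨nat_lit 0, nat_lit 672, nat_lit 9216, nat_lit 18288, nat_lit 10080, nat_lit 9120, R13_381, R6_210, R7_190⟩, ⟨nat_lit 2, nat_lit 1056, nat_lit 9312, nat_lit 18384, nat_lit 11712, nat_lit 8208, R13_383, R8_244, R2_171⟩, ⟨nat_lit 3, nat_lit 1632, nat_lit 9264, nat_lit 18336, nat_lit 11088, nat_lit 3312, R13_382, R4_231, R2_69⟩]⟩, ⟨nat_lit 1, [⟨nat_lit 0, nat_lit 720, nat_lit 9696, nat_lit 13872, nat_lit 10128, nat_lit 240, R3_289, R6_211, R14_5⟩, ⟨nat_lit 2, nat_lit 1152, nat_lit 9840, nat_lit 13968, nat_lit 11808, nat_lit 816, R3_291, R8_246, R12_17⟩, ⟨nat_lit 3, nat_lit 1680, nat_lit 9744, nat_lit 13920, nat_lit 11184, nat_lit 12768, R3_290, R4_233, R12_266⟩]⟩, ⟨nat_lit 2, [⟨nat_lit 2, nat_lit 1104, nat_lit 10416, nat_lit 15072, nat_lit 11760, nat_lit 9024, R9_314, R8_245, R1_188⟩]⟩,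 ⟨nat_lit 3, [⟨nat_lit 3, nat_lit 1728, nat_lit 9552, nat_lit 3168, nat_lit 11136, nat_lit 2784, R3_66, R4_232, R1_58⟩]⟩]⟩,
 ⟨nat_lit 7, [⟨nat_lit 3, [⟨nat_lit 3, nat_lit 3408, nat_lit 13920, nat_lit 13728, nat_lit 12336, nat_lit 13248, R2_286, R7_257, R1_276⟩]⟩]⟩]], [[], [⟨nat_lit 0, [⟨nat_lit 0, [⟨nat_lit 0, nat_lit 4416, nat_lit 1152, nat_lit 7488, nat_lit 11424, nat_lit 3312, R6_156, R6_238, R4_69⟩, ⟨nat_lit 2, nat_lit 4800, nat_lit 1248, nat_lit 7776, nat_lit 14544, nat_lit 11712, R6_162, R13_303, R3_244⟩]⟩, ⟨nat_lit 2, [⟨nat_lit 2, nat_lit 4848, nat_lit 2448, nat_lit 4944, nat_lit 14592, nat_lit 15840, R8_103, R13_304, R10_330⟩]⟩]⟩,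
 ⟨nat_lit 2, [⟨nat_lit 2, [⟨nat_lit 2, nat_lit 5664, nat_lit 11136, nat_lit 15456, nat_lit 10896, nat_lit 15888, R5_322, R3_227, R10_331⟩, ⟨nat_lit 6, nat_lit 5856, nat_lit 11040, nat_lit 15504, nat_lit 11712, nat_lit 13872, R5_323, R2_244, R1_289⟩]⟩]⟩,
 ⟨nat_lit 3, [⟨nat_lit 0, [⟨nat_lit 0, nat_lit 6144, nat_lit 8208, nat_lit 17136, nat_lit 9696, nat_lit 9312, R13_357, R8_202, R4_194⟩, ⟨nat_lit 2, nat_lit 6768, nat_lit 8304, nat_lit 17184, nat_lit 12336, nat_lit 12192, R13_358, R9_257, R3_254⟩]⟩, ⟨nat_lit 2, [⟨nat_lit 2, nat_lit 6816, nat_lit 10080, nat_lit 14448, nat_lit 12384, nat_lit 15936, R9_301, R9_258, R10_332⟩]⟩, ⟨nat_lit 3, [⟨nat_lit 0, nat_lit 6192, nat_lit 8832, nat_lit 7680, nat_lit 10272, nat_lit 6048, R3_160, R8_214, R5_126⟩, ⟨nat_lit 3, nat_lit 7536, nat_lit 8928, nat_lit 7968, nat_lit 13776,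 nat_lit 19248, R3_166, R5_287, R11_401⟩]⟩]⟩], [], [], [], [⟨nat_lit 0, [⟨nat_lit 0, [⟨nat_lit 0, nat_lit 4320, nat_lit 11568, nat_lit 9024, nat_lit 11328, nat_lit 3024, R6_188, R6_236, R7_63⟩, ⟨nat_lit 2, nat_lit 4656, nat_lit 11712, nat_lit 9168, nat_lit 14640, nat_lit 1248, R6_191, R13_305, R2_26⟩]⟩, ⟨nat_lit 1, [⟨nat_lit 0, nat_lit 4368, nat_lit 13872, nat_lit 9696, nat_lit 11568, nat_lit 864, R4_202, R6_241, R14_18⟩, ⟨nat_lit 2, nat_lit 4752, nat_lit 14064, nat_lit 9936, nat_lit 14736, nat_lit 288, R4_207, R13_307, R12_6⟩]⟩, ⟨nat_lit 2, [⟨nat_lit 2, nat_lit 4704, nat_lit 16848, nat_lit 4848, nat_lit 14688, nat_lit 720, R8_101, R13_306, R1_15⟩]⟩]⟩,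
 ⟨nat_lit 3, [⟨nat_lit 0, [⟨nat_lit 0, nat_lit 6048, nat_lit 11904, nat_lit 18624, nat_lit 11424, nat_lit 9216, R13_388, R8_238, R7_192⟩, ⟨nat_lit 2, nat_lit 6624, nat_lit 12192, nat_lit 18720, nat_lit 12480, nat_lit 8304, R13_390, R9_260, R2_173⟩]⟩, ⟨nat_lit 1, [⟨nat_lit 0, nat_lit 6096, nat_lit 14592, nat_lit 14592, nat_lit 12000, nat_lit 1344, R3_304, R8_250, R14_28⟩, ⟨nat_lit 2, nat_lit 6720, nat_lit 14928, nat_lit 14688, nat_lit 12576, nat_lit 1344, R3_306, R9_262, R12_28⟩]⟩, ⟨nat_lit 2, [⟨nat_lit 2, nat_lit 6672, nat_lit 17040, nat_lit 15216, nat_lit 12528, nat_lit 9120, R9_317, R9_261, R1_190⟩]⟩]⟩]], [], [[], [⟨nat_lit 3, [⟨nat_lit 0, [⟨nat_lit 0, nat_lit 11520, nat_lit 3312, nat_lit 17808, nat_lit 11088, nat_lit 9264, R13_371, R4_231, R4_193⟩, ⟨nat_lit 2, nat_lit 11856, nat_lit 3600, nat_lit 17856, nat_lit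 13824, nat_lit 12048, R13_372, R5_288, R3_251⟩]⟩, ⟨nat_lit 2, [⟨nat_lit 2, nat_lit 11904, nat_lit 6576, nat_lit 14784, nat_lit 14016, nat_lit 15792, R9_308, R5_292, R10_329⟩]⟩, ⟨nat_lit 3, [⟨nat_lit 0, nat_lit 11568, nat_lit 4176, nat_lit 6432, nat_lit 11424, nat_lit 5232, R3_134, R4_238, R5_109⟩]⟩]⟩,
 ⟨nat_lit 7, [⟨nat_lit 3, [⟨nat_lit 0, nat_lit 13824, nat_lit 12864, nat_lit 13152, nat_lit 11904, nat_lit 14880, R2_274, R7_248, R5_310⟩, ⟨nat_lit 3, nat_lit 14400, nat_lit 13200, nat_lit 13200, nat_lit 14832, nat_lit 19200, R2_275, R14_309, R11_400⟩]⟩]⟩]]], [[], [[], [⟨nat_lit 0, [⟨nat_lit 0, [⟨nat_lit 0, nat_lit 4560, nat_lit 624, nat_lit 96, nat_lit 11472, nat_lit 4080, R8_2, R6_239, R4_85⟩, ⟨nat_lit 2, nat_lit 5040, nat_lit 720, nat_lit 4848, nat_lit 14784, nat_lit 16848, R8_101, R13_308, R3_351⟩]⟩, ⟨nat_lit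 2, [⟨nat_lit 2, nat_lit 5088, nat_lit 1920, nat_lit 4176, nat_lit 14832, nat_lit 16368, R9_87, R13_309, R10_341⟩]⟩]⟩,
 ⟨nat_lit 1, [⟨nat_lit 0, [⟨nat_lit 0, nat_lit 5328, nat_lit 6144, nat_lit 15984, nat_lit 12000, nat_lit 11712, R5_333, R4_250, R4_244⟩, ⟨nat_lit 2, nat_lit 5520, nat_lit 6240, nat_lit 16080, nat_lit 10800, nat_lit 17184, R5_335, R3_225, R3_358⟩]⟩]⟩,
 ⟨nat_lit 3, [⟨nat_lit 0, [⟨nat_lit 0, nat_lit 6336, nat_lit 9024, nat_lit 15072, nat_lit 9744, nat_lit 10416, R9_314, R8_203, R4_217⟩, ⟨nat_lit 2, nat_lit 7008, nat_lit 9120, nat_lit 15216, nat_lit 12624, nat_lit 17040, R9_317, R9_263, R3_355⟩]⟩]⟩], [], [], [], [⟨nat_lit 0, [⟨nat_lit 0, [⟨nat_lit 0, nat_lit 4464, nat_lit 960, nat_lit 192, nat_lit 11376, nat_lit 4080, R8_4, R6_237, R7_85⟩, ⟨nat_lit 2, nat_lit 4896, nat_lit 1008, nat_lit 4944, nat_lit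 14880, nat_lit 2448, R8_103, R13_310, R2_51⟩]⟩, ⟨nat_lit 1, [⟨nat_lit 0, nat_lit 4512, nat_lit 1344, nat_lit 4560, nat_lit 11616, nat_lit 912, R5_95, R6_242, R14_19⟩, ⟨nat_lit 2, nat_lit 4992, nat_lit 1440, nat_lit 4944, nat_lit 14976, nat_lit 336, R5_103, R13_312, R12_7⟩]⟩, ⟨nat_lit 2, [⟨nat_lit 2, nat_lit 4944, nat_lit 2064, nat_lit 4080, nat_lit 14928, nat_lit 1920, R9_85, R13_311, R1_40⟩]⟩]⟩,
 ⟨nat_lit 1, [⟨nat_lit 0, [⟨nat_lit 0, nat_lit 5232, nat_lit 7344, nat_lit 14976, nat_lit 11952, nat_lit 12528, R5_312, R4_249, R7_261⟩, ⟨nat_lit 2, nat_lit 5376, nat_lit 7392, nat_lit 15456, nat_lit 10896, nat_lit 11136, R5_322, R3_227, R2_232⟩]⟩, ⟨nat_lit 1, [⟨nat_lit 0, nat_lit 5280, nat_lit 7632, nat_lit 19296, nat_lit 12048, nat_lit 1824, R11_402, R4_251, R14_38⟩, ⟨nat_lit 2, nat_lit 5472, nat_lit 7728, nat_lit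 19776, nat_lit 10992, nat_lit 2400, R11_412, R3_229, R12_50⟩]⟩]⟩,
 ⟨nat_lit 3, [⟨nat_lit 0, [⟨nat_lit 0, nat_lit 6240, nat_lit 10416, nat_lit 14160, nat_lit 11520, nat_lit 11088, R9_295, R8_240, R7_231⟩, ⟨nat_lit 2, nat_lit 6912, nat_lit 10512, nat_lit 14448, nat_lit 12720, nat_lit 10080, R9_301, R9_265, R2_210⟩, ⟨nat_lit 3, nat_lit 7584, nat_lit 10464, nat_lit 14784, nat_lit 14016, nat_lit 6576, R9_308, R5_292, R2_137⟩]⟩]⟩]], [], [], [], [[], [], [], [], [], [⟨nat_lit 1, [⟨nat_lit 0, [⟨nat_lit 0, nat_lit 16512, nat_lit 13824, nat_lit 15024, nat_lit 13104, nat_lit 12432, R5_313, R7_273, R7_259⟩, ⟨nat_lit 2, nat_lit 16896, nat_lit 13872, nat_lit 15504, nat_lit 11712, nat_lit 11040, R5_323, R2_244, R2_230⟩]⟩, ⟨nat_lit 1, [⟨nat_lit 0, nat_lit 16560, nat_lit 13920, nat_lit 19344, nat_lit 13200, nat_lit 3600, R11_403,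 R7_275, R14_75⟩, ⟨nat_lit 1, nat_lit 16704, nat_lit 13968, nat_lit 20496, nat_lit 11856, nat_lit 1968, R11_427, R2_247, R12_41⟩, ⟨nat_lit 2, nat_lit 16992, nat_lit 14016, nat_lit 19824, nat_lit 11808, nat_lit 1920, R11_413, R2_246, R12_40⟩]⟩]⟩]]], [[[⟨nat_lit 2, [⟨nat_lit 6, [⟨nat_lit 6, nat_lit 528, nat_lit 12432, nat_lit 13824, nat_lit 13104, nat_lit 15024, R1_288, R7_273, R5_313⟩]⟩]⟩,
 ⟨nat_lit 4, [⟨nat_lit 4, [⟨nat_lit 7, nat_lit 1968, nat_lit 9120, nat_lit 9216, nat_lit 11232, nat_lit 16512, R4_192, R6_234, R13_344⟩]⟩, ⟨nat_lit 7, [⟨nat_lit 7, nat_lit 2016, nat_lit 9792, nat_lit 4464, nat_lit 11280, nat_lit 1248, R5_93, R6_235, R3_26⟩]⟩]⟩,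
 ⟨nat_lit 6, [⟨nat_lit 4, [⟨nat_lit 4, nat_lit 2352, nat_lit 3024, nat_lit 11568, nat_lit 11328, nat_lit 1680, R3_241, R6_236, R6_35⟩, ⟨nat_lit 7, nat_lit 2832, nat_lit 9216, nat_lit 11904, nat_lit 11424, nat_lit 16560, R3_248, R8_238, R13_345⟩]⟩, ⟨nat_lit 6, [⟨nat_lit 4, nat_lit 2400, nat_lit 4080, nat_lit 15648, nat_lit 11376, nat_lit 192, R10_326, R6_237, R8_4⟩, ⟨nat_lit 6, nat_lit 2688, nat_lit 12528, nat_lit 15696, nat_lit 11952, nat_lit 14976, R10_327, R4_249, R5_312⟩, ⟨nat_lit 7, nat_lit 2880, nat_lit 11088, nat_lit 15744, nat_lit 11520, nat_lit 14160, R10_328, R8_240, R9_295⟩]⟩]⟩,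
 ⟨nat_lit 7, [⟨nat_lit 7, [⟨nat_lit 3, nat_lit 3504, nat_lit 15216, nat_lit 19152, nat_lit 13008, nat_lit 12576, R11_399, R7_271, R2_262⟩, ⟨nat_lit 7, nat_lit 3984, nat_lit 9888, nat_lit 19104, nat_lit 11904, nat_lit 1488, R11_398, R4_248, R3_31⟩]⟩]⟩], [⟨nat_lit 0, [⟨nat_lit 0, [⟨nat_lit 2, nat_lit 240, nat_lit 2064, nat_lit 9696, nat_lit 11568, nat_lit 13872, R4_202, R6_241, R3_289⟩]⟩, ⟨nat_lit 2, [⟨nat_lit 2, nat_lit 288, nat_lit 2112, nat_lit 4560, nat_lit 11616, nat_lit 15984, R5_95, R6_242, R10_333⟩]⟩]⟩,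
 ⟨nat_lit 2, [⟨nat_lit 2, [⟨nat_lit 2, nat_lit 432, nat_lit 4032, nat_lit 19296, nat_lit 12048, nat_lit 16032, R11_402, R4_251, R10_334⟩, ⟨nat_lit 6, nat_lit 624, nat_lit 3552, nat_lit 19344, nat_lit 13152, nat_lit 13920, R11_403, R7_274, R1_290⟩]⟩, ⟨nat_lit 6, [⟨nat_lit 6, nat_lit 576, nat_lit 3600, nat_lit 13920, nat_lit 13200, nat_lit 19344, R1_290, R7_275, R11_403⟩]⟩]⟩,
 ⟨nat_lit 3, [⟨nat_lit 0, [⟨nat_lit 0, nat_lit 864, nat_lit 2448, nat_lit 13872, nat_lit 11568, nat_lit 9696, R3_289, R6_241, R4_202⟩, ⟨nat_lit 2, nat_lit 1344, nat_lit 2976, nat_lit 14592, nat_lit 12000, nat_lit 14592, R3_304, R8_250, R3_304⟩]⟩, ⟨nat_lit 3, [⟨nat_lit 0, nat_lit 912, nat_lit 2496, nat_lit 15984, nat_lit 11616, nat_lit 4560, R10_333, R6_242, R5_95⟩, ⟨nat_lit 3, nat_lit 1824, nat_lit 2736, nat_lit 16032, nat_lit 12048, nat_lit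 19296, R10_334, R4_251, R11_402⟩]⟩]⟩,
 ⟨nat_lit 4, [⟨nat_lit 4, [⟨nat_lit 7, nat_lit 2064, nat_lit 240, nat_lit 9696, nat_lit 11568, nat_lit 13872, R4_202, R6_241, R3_289⟩]⟩, ⟨nat_lit 7, [⟨nat_lit 7, nat_lit 2112, nat_lit 288, nat_lit 4560, nat_lit 11616, nat_lit 15984, R5_95, R6_242, R10_333⟩]⟩]⟩,
 ⟨nat_lit 6, [⟨nat_lit 4, [⟨nat_lit 4, nat_lit 2448, nat_lit 864, nat_lit 13872, nat_lit 11568, nat_lit 9696, R3_289, R6_241, R4_202⟩, ⟨nat_lit 7, nat_lit 2976, nat_lit 1344, nat_lit 14592, nat_lit 12000, nat_lit 14592, R3_304, R8_250, R3_304⟩]⟩, ⟨nat_lit 6, [⟨nat_lit 4, nat_lit 2496, nat_lit 912, nat_lit 15984, nat_lit 11616, nat_lit 4560, R10_333, R6_242, R5_95⟩, ⟨nat_lit 6, nat_lit 2736, nat_lit 1824, nat_lit 16032, nat_lit 12048, nat_lit 19296, R10_334, R4_251, R11_402⟩]⟩]⟩,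
 ⟨nat_lit 7, [⟨nat_lit 3, [⟨nat_lit 3, nat_lit 3600, nat_lit 576, nat_lit 13920, nat_lit 13200, nat_lit 19344, R1_290, R7_275, R11_403⟩]⟩, ⟨nat_lit 7, [⟨nat_lit 3, nat_lit 3552, nat_lit 624, nat_lit 19344, nat_lit 13152, nat_lit 13920, R11_403, R7_274, R1_290⟩, ⟨nat_lit 7, nat_lit 4032, nat_lit 432, nat_lit 19296, nat_lit 12048, nat_lit 16032, R11_402, R4_251, R10_334⟩]⟩]⟩]], [[], [⟨nat_lit 0, [⟨nat_lit 0, [⟨nat_lit 0, nat_lit 4608, nat_lit 48, nat_lit 3648, nat_lit 11520, nat_lit 3552, R4_76, R6_240, R4_74⟩, ⟨nat_lit 2, nat_lit 5136, nat_lit 288, nat_lit 9936, nat_lit 15024, nat_lit 14064, R4_207, R13_313, R3_293⟩]⟩, ⟨nat_lit 2, [⟨nat_lit 2, nat_lit 5184, nat_lit 336, nat_lit 4944, nat_lit 15072, nat_lit 16176, R5_103, R13_314, R10_337⟩]⟩]⟩,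
 ⟨nat_lit 2, [⟨nat_lit 2, [⟨nat_lit 2, nat_lit 5808, nat_lit 2400, nat_lit 19776, nat_lit 10992, nat_lit 16224, R11_412, R3_229, R10_338⟩, ⟨nat_lit 6, nat_lit 6000, nat_lit 1920, nat_lit 19824, nat_lit 11808, nat_lit 14016, R11_413, R2_246, R1_292⟩]⟩, ⟨nat_lit 6, [⟨nat_lit 6, nat_lit 5952, nat_lit 1968, nat_lit 13968, nat_lit 11856, nat_lit 20496, R1_291, R2_247, R11_427⟩]⟩]⟩,
 ⟨nat_lit 3, [⟨nat_lit 0, [⟨nat_lit 0, nat_lit 6432, nat_lit 816, nat_lit 13968, nat_lit 9792, nat_lit 9840, R3_291, R8_204, R4_205⟩, ⟨nat_lit 2, nat_lit 7104, nat_lit 1344, nat_lit 14688, nat_lit 12960, nat_lit 14928, R3_306, R9_270, R3_311⟩]⟩, ⟨nat_lit 3, [⟨nat_lit 0, nat_lit 6480, nat_lit 864, nat_lit 16800, nat_lit 10368, nat_lit 6144, R10_350, R8_216, R5_128⟩, ⟨nat_lit 3, nat_lit 7776, nat_lit 1104, nat_lit 16848, nat_lit 14256, nat_lit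 19440, R10_351, R5_297, R11_405⟩]⟩]⟩]], [[⟨nat_lit 2, [⟨nat_lit 6, [⟨nat_lit 6, nat_lit 7920, nat_lit 11040, nat_lit 13872, nat_lit 11712, nat_lit 15504, R1_289, R2_244, R5_323⟩]⟩]⟩,
 ⟨nat_lit 4, [⟨nat_lit 4, [⟨nat_lit 4, nat_lit 8112, nat_lit 1152, nat_lit 3312, nat_lit 11424, nat_lit 7488, R4_69, R6_238, R6_156⟩, ⟨nat_lit 7, nat_lit 8592, nat_lit 8208, nat_lit 9312, nat_lit 9696, nat_lit 17136, R4_194, R8_202, R13_357⟩]⟩, ⟨nat_lit 7, [⟨nat_lit 7, nat_lit 8640, nat_lit 8832, nat_lit 6048, nat_lit 10272, nat_lit 7680, R5_126, R8_214, R3_160⟩]⟩]⟩,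
 ⟨nat_lit 6, [⟨nat_lit 4, [⟨nat_lit 4, nat_lit 9168, nat_lit 1248, nat_lit 11712, nat_lit 14544, nat_lit 7776, R3_244, R13_303, R6_162⟩, ⟨nat_lit 7, nat_lit 10224, nat_lit 8304, nat_lit 12192, nat_lit 12336, nat_lit 17184, R3_254, R9_257, R13_358⟩]⟩, ⟨nat_lit 6, [⟨nat_lit 4, nat_lit 9216, nat_lit 2448, nat_lit 15840, nat_lit 14592, nat_lit 4944, R10_330, R13_304, R8_103⟩, ⟨nat_lit 6, nat_lit 9984, nat_lit 11136, nat_lit 15888, nat_lit 10896, nat_lit 15456, R10_331, R3_227, R5_322⟩, ⟨nat_lit 7, nat_lit 10272, nat_lit 10080, nat_lit 15936, nat_lit 12384, nat_lit 14448, R10_332, R9_258, R9_301⟩]⟩]⟩,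
 ⟨nat_lit 7, [⟨nat_lit 7, [⟨nat_lit 7, nat_lit 10992, nat_lit 8928, nat_lit 19248, nat_lit 13776, nat_lit 7968, R11_401, R5_287, R3_166⟩]⟩]⟩], [⟨nat_lit 2, [⟨nat_lit 2, [⟨nat_lit 6, nat_lit 8064, nat_lit 1968, nat_lit 20496, nat_lit 11856, nat_lit 13968, R11_427, R2_247, R1_291⟩]⟩, ⟨nat_lit 6, [⟨nat_lit 6, nat_lit 8016, nat_lit 1920, nat_lit 14016, nat_lit 11808, nat_lit 19824, R1_292, R2_246, R11_413⟩]⟩]⟩,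
 ⟨nat_lit 4, [⟨nat_lit 4, [⟨nat_lit 4, nat_lit 8208, nat_lit 48, nat_lit 3552, nat_lit 11520, nat_lit 3648, R4_74, R6_240, R4_76⟩, ⟨nat_lit 7, nat_lit 8784, nat_lit 816, nat_lit 9840, nat_lit 9792, nat_lit 13968, R4_205, R8_204, R3_291⟩]⟩, ⟨nat_lit 7, [⟨nat_lit 7, nat_lit 8832, nat_lit 864, nat_lit 6144, nat_lit 10368, nat_lit 16800, R5_128, R8_216, R10_350⟩]⟩]⟩,
 ⟨nat_lit 6, [⟨nat_lit 4, [⟨nat_lit 4, nat_lit 9360, nat_lit 288, nat_lit 14064, nat_lit 15024, nat_lit 9936, R3_293, R13_313, R4_207⟩, ⟨nat_lit 7, nat_lit 10464, nat_lit 1344, nat_lit 14928, nat_lit 12960, nat_lit 14688, R3_311, R9_270, R3_306⟩]⟩, ⟨nat_lit 6, [⟨nat_lit 4, nat_lit 9408, nat_lit 336, nat_lit 16176, nat_lit 15072, nat_lit 4944, R10_337, R13_314, R5_103⟩, ⟨nat_lit 6, nat_lit 10080, nat_lit 2400, nat_lit 16224, nat_lit 10992, nat_lit 19776,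 R10_338, R3_229, R11_412⟩]⟩]⟩,
 ⟨nat_lit 7, [⟨nat_lit 7, [⟨nat_lit 7, nat_lit 11088, nat_lit 1104, nat_lit 19440, nat_lit 14256, nat_lit 16848, R11_405, R5_297, R10_351⟩]⟩]⟩], [⟨nat_lit 4, [⟨nat_lit 4, [⟨nat_lit 4, nat_lit 8160, nat_lit 624, nat_lit 4080, nat_lit 11472, nat_lit 96, R4_85, R6_239, R8_2⟩, ⟨nat_lit 5, nat_lit 8448, nat_lit 6144, nat_lit 11712, nat_lit 12000, nat_lit 15984, R4_244, R4_250, R5_333⟩, ⟨nat_lit 7, nat_lit 8688, nat_lit 9024, nat_lit 10416, nat_lit 9744, nat_lit 15072, R4_217, R8_203, R9_314⟩]⟩]⟩,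
 ⟨nat_lit 6, [⟨nat_lit 4, [⟨nat_lit 4, nat_lit 9264, nat_lit 720, nat_lit 16848, nat_lit 14784, nat_lit 4848, R3_351, R13_308, R8_101⟩, ⟨nat_lit 5, nat_lit 9744, nat_lit 6240, nat_lit 17184, nat_lit 10800, nat_lit 16080, R3_358, R3_225, R5_335⟩, ⟨nat_lit 7, nat_lit 10368, nat_lit 9120, nat_lit 17040, nat_lit 12624, nat_lit 15216, R3_355, R9_263, R9_317⟩]⟩, ⟨nat_lit 6, [⟨nat_lit 4, nat_lit 9312, nat_lit 1920, nat_lit 16368, nat_lit 14832, nat_lit 4176, R10_341, R13_309, R9_87⟩]⟩]⟩]], [[⟨nat_lit 4, [⟨nat_lit 4, [⟨nat_lit 7, nat_lit 12960, nat_lit 3312, nat_lit 9264, nat_lit 11088, nat_lit 17808, R4_193, R4_231, R13_371⟩]⟩, ⟨nat_lit 7, [⟨nat_lit 3, nat_lit 12384, nat_lit 12864, nat_lit 14880, nat_lit 11904, nat_lit 13152, R5_310, R7_248, R2_274⟩, ⟨nat_lit 7, nat_lit 13008, nat_lit 4176, nat_lit 5232, nat_lit 11424,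 nat_lit 6432, R5_109, R4_238, R3_134⟩]⟩]⟩,
 ⟨nat_lit 6, [⟨nat_lit 4, [⟨nat_lit 7, nat_lit 13296, nat_lit 3600, nat_lit 12048, nat_lit 13824, nat_lit 17856, R3_251, R5_288, R13_372⟩]⟩, ⟨nat_lit 6, [⟨nat_lit 7, nat_lit 13344, nat_lit 6576, nat_lit 15792, nat_lit 14016, nat_lit 14784, R10_329, R5_292, R9_308⟩]⟩]⟩,
 ⟨nat_lit 7, [⟨nat_lit 7, [⟨nat_lit 3, nat_lit 14448, nat_lit 13200, nat_lit 19200, nat_lit 15072, nat_lit 13200, R11_400, R14_314, R2_275⟩]⟩]⟩], [⟨nat_lit 3, [⟨nat_lit 0, [⟨nat_lit 0, nat_lit 11616, nat_lit 2736, nat_lit 13920, nat_lit 11184, nat_lit 9744, R3_290, R4_233, R4_203⟩, ⟨nat_lit 2, nat_lit 12000, nat_lit 4080, nat_lit 14640, nat_lit 13920, nat_lit 14736, R3_305, R5_290, R3_307⟩]⟩, ⟨nat_lit 3, [⟨nat_lit 0, nat_lit 11664, nat_lit 2880, nat_lit 17664, nat_lit 11472, nat_lit 5280, R10_368, R4_239,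 R5_110⟩]⟩]⟩,
 ⟨nat_lit 4, [⟨nat_lit 4, [⟨nat_lit 7, nat_lit 13056, nat_lit 12768, nat_lit 9744, nat_lit 11184, nat_lit 13920, R4_203, R4_233, R3_290⟩]⟩, ⟨nat_lit 7, [⟨nat_lit 3, nat_lit 12432, nat_lit 12384, nat_lit 15168, nat_lit 12000, nat_lit 14496, R5_316, R7_250, R1_302⟩, ⟨nat_lit 7, nat_lit 13104, nat_lit 12912, nat_lit 5280, nat_lit 11472, nat_lit 17664, R5_110, R4_239, R10_368⟩]⟩]⟩,
 ⟨nat_lit 6, [⟨nat_lit 4, [⟨nat_lit 7, nat_lit 13440, nat_lit 15600, nat_lit 14736, nat_lit 13920, nat_lit 14640, R3_307, R5_290, R3_305⟩]⟩]⟩,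
 ⟨nat_lit 7, [⟨nat_lit 3, [⟨nat_lit 0, nat_lit 13872, nat_lit 13632, nat_lit 14496, nat_lit 12000, nat_lit 15168, R1_302, R7_250, R5_316⟩, ⟨nat_lit 3, nat_lit 14544, nat_lit 13968, nat_lit 14544, nat_lit 15168, nat_lit 19392, R1_303, R14_316, R11_404⟩]⟩, ⟨nat_lit 7, [⟨nat_lit 3, nat_lit 14496, nat_lit 14064, nat_lit 19392, nat_lit 15216, nat_lit 14544, R11_404, R14_317, R1_303⟩]⟩]⟩], [], [⟨nat_lit 4, [⟨nat_lit 4, [⟨nat_lit 3, nat_lit 12480, nat_lit 13248, nat_lit 13920, nat_lit 11520, nat_lit 13728, R4_290, R7_240, R2_286⟩, ⟨nat_lit 7, nat_lit 13152, nat_lit 2784, nat_lit 9552, nat_lit 11136, nat_lit 3168, R4_199, R4_232, R3_66⟩]⟩, ⟨nat_lit 7, [⟨nat_lit 3, nat_lit 12528, nat_lit 14208, nat_lit 15072, nat_lit 11952, nat_lit 13920, R5_314, R7_249, R12_290⟩]⟩]⟩,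
 ⟨nat_lit 6, [⟨nat_lit 4, [⟨nat_lit 7, nat_lit 13584, nat_lit 3072, nat_lit 15504, nat_lit 13872, nat_lit 9168, R3_323, R5_289, R3_191⟩]⟩]⟩,
 ⟨nat_lit 7, [⟨nat_lit 7, [⟨nat_lit 3, nat_lit 14592, nat_lit 14544, nat_lit 19488, nat_lit 15120, nat_lit 13968, R11_406, R14_315, R12_291⟩]⟩]⟩]]], [[[], [], [], [], [], [⟨nat_lit 3, [⟨nat_lit 0, [⟨nat_lit 0, nat_lit 960, nat_lit 4464, nat_lit 1248, nat_lit 10560, nat_lit 9792, R3_26, R6_220, R7_204⟩, ⟨nat_lit 2, nat_lit 1488, nat_lit 6048, nat_lit 7680, nat_lit 11856, nat_lit 8832, R3_160, R8_247, R2_184⟩, ⟨nat_lit 3, nat_lit 1872, nat_lit 5232, nat_lit 6432, nat_lit 11424, nat_lit 4176, R3_134, R4_238, R2_87⟩]⟩, ⟨nat_lit 1, [⟨nat_lit 0, nat_lit 1008, nat_lit 4560, nat_lit 15984, nat_lit 10608, nat_lit 288, R10_333, R6_221, R14_6⟩, ⟨nat_lit 2, nat_lit 1584, nat_lit 6144,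 nat_lit 16800, nat_lit 11952, nat_lit 864, R10_350, R8_249, R12_18⟩, ⟨nat_lit 3, nat_lit 1920, nat_lit 5280, nat_lit 17664, nat_lit 11472, nat_lit 12912, R10_368, R4_239, R12_269⟩]⟩]⟩,
 ⟨nat_lit 7, [⟨nat_lit 0, [⟨nat_lit 3, nat_lit 3648, nat_lit 14880, nat_lit 13152, nat_lit 12720, nat_lit 12864, R2_274, R7_265, R2_268⟩]⟩, ⟨nat_lit 1, [⟨nat_lit 3, nat_lit 3696, nat_lit 15168, nat_lit 14496, nat_lit 12816, nat_lit 12384, R1_302, R7_267, R12_258⟩]⟩, ⟨nat_lit 3, [⟨nat_lit 3, nat_lit 3744, nat_lit 15072, nat_lit 14016, nat_lit 12768, nat_lit 14208, R12_292, R7_266, R1_296⟩]⟩]⟩]], [], [], [[], [⟨nat_lit 3, [⟨nat_lit 0, [⟨nat_lit 0, nat_lit 11808, nat_lit 2784, nat_lit 3168, nat_lit 11136, nat_lit 9552, R3_66, R4_232, R4_199⟩, ⟨nat_lit 2, nat_lit 12288, nat_lit 3072, nat_lit 9168, nat_lit 13872, nat_lit 15504, R3_191,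 R5_289, R3_323⟩]⟩]⟩,
 ⟨nat_lit 7, [⟨nat_lit 0, [⟨nat_lit 0, nat_lit 14016, nat_lit 13248, nat_lit 13728, nat_lit 11520, nat_lit 13920, R2_286, R7_240, R4_290⟩]⟩, ⟨nat_lit 3, [⟨nat_lit 0, nat_lit 14064, nat_lit 14208, nat_lit 13920, nat_lit 11952, nat_lit 15072, R12_290, R7_249, R5_314⟩, ⟨nat_lit 3, nat_lit 14784, nat_lit 14544, nat_lit 13968, nat_lit 14880, nat_lit 19488, R12_291, R14_310, R11_406⟩]⟩]⟩], [], [], [], [⟨nat_lit 3, [⟨nat_lit 0, [⟨nat_lit 0, nat_lit 11712, nat_lit 19104, nat_lit 1488, nat_lit 11904, nat_lit 9888, R3_31, R4_248, R7_206⟩, ⟨nat_lit 2, nat_lit 12144, nat_lit 19248, nat_lit 7968, nat_lit 13776, nat_lit 8928, R3_166, R5_287, R2_186⟩]⟩, ⟨nat_lit 1, [⟨nat_lit 0, nat_lit 11760, nat_lit 19296, nat_lit 16032, nat_lit 12048, nat_lit 432, R10_334, R4_251, R14_9⟩, ⟨nat_lit 2, nat_lit 12240, nat_lit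 19440, nat_lit 16848, nat_lit 14256, nat_lit 1104, R10_351, R5_297, R12_23⟩]⟩]⟩,
 ⟨nat_lit 7, [⟨nat_lit 0, [⟨nat_lit 0, nat_lit 13920, nat_lit 19152, nat_lit 12576, nat_lit 13008, nat_lit 15216, R2_262, R7_271, R7_317⟩, ⟨nat_lit 3, nat_lit 14640, nat_lit 19200, nat_lit 13200, nat_lit 14928, nat_lit 13200, R2_275, R14_311, R2_275⟩]⟩, ⟨nat_lit 1, [⟨nat_lit 0, nat_lit 13968, nat_lit 19344, nat_lit 13920, nat_lit 13152, nat_lit 624, R1_290, R7_274, R14_13⟩, ⟨nat_lit 3, nat_lit 14688, nat_lit 19392, nat_lit 14544, nat_lit 15024, nat_lit 14064, R1_303, R14_313, R12_293⟩]⟩, ⟨nat_lit 3, [⟨nat_lit 3, nat_lit 14736, nat_lit 19488, nat_lit 14064, nat_lit 14976, nat_lit 14544, R12_293, R14_312, R1_303⟩]⟩]⟩]]], [[], [], [], [[], [], [], [], [], [], [], [⟨nat_lit 4, [⟨nat_lit 1, [⟨nat_lit 3, nat_lit 12624, nat_lit 13728,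 nat_lit 13920, nat_lit 12336, nat_lit 13248, R4_290, R7_257, R1_276⟩]⟩, ⟨nat_lit 5, [⟨nat_lit 3, nat_lit 12576, nat_lit 12576, nat_lit 15216, nat_lit 12192, nat_lit 19152, R7_317, R7_254, R11_399⟩]⟩]⟩,
 ⟨nat_lit 7, [⟨nat_lit 5, [⟨nat_lit 0, nat_lit 14112, nat_lit 13152, nat_lit 12864, nat_lit 12720, nat_lit 14880, R2_268, R7_265, R5_310⟩, ⟨nat_lit 3, nat_lit 14832, nat_lit 13200, nat_lit 13200, nat_lit 14400, nat_lit 19200, R2_275, R14_300, R11_400⟩]⟩]⟩]], [[], [], [], [], [⟨nat_lit 4, [⟨nat_lit 1, [⟨nat_lit 1, nat_lit 15312, nat_lit 3648, nat_lit 3312, nat_lit 11424, nat_lit 1152, R4_69, R6_238, R2_24⟩]⟩, ⟨nat_lit 5, [⟨nat_lit 1, nat_lit 15264, nat_lit 1680, nat_lit 3024, nat_lit 11328, nat_lit 11568, R7_63, R6_236, R3_241⟩]⟩]⟩,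
 ⟨nat_lit 5, [⟨nat_lit 1, [⟨nat_lit 0, nat_lit 15648, nat_lit 9024, nat_lit 11568, nat_lit 11328, nat_lit 3024, R3_241, R6_236, R7_63⟩, ⟨nat_lit 1, nat_lit 15984, nat_lit 9168, nat_lit 11712, nat_lit 14640, nat_lit 1248, R3_244, R13_305, R2_26⟩]⟩, ⟨nat_lit 5, [⟨nat_lit 0, nat_lit 15600, nat_lit 7488, nat_lit 1152, nat_lit 11424, nat_lit 3312, R2_24, R6_238, R4_69⟩, ⟨nat_lit 1, nat_lit 15936, nat_lit 7776, nat_lit 1248, nat_lit 14544, nat_lit 11712, R2_26, R13_303, R3_244⟩]⟩]⟩], [⟨nat_lit 4, [⟨nat_lit 1, [⟨nat_lit 1, nat_lit 15456, nat_lit 3648, nat_lit 3552, nat_lit 11520, nat_lit 48, R4_74, R6_240, R12_1⟩]⟩]⟩,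
 ⟨nat_lit 5, [⟨nat_lit 1, [⟨nat_lit 0, nat_lit 15696, nat_lit 9696, nat_lit 13872, nat_lit 11568, nat_lit 2064, R3_289, R6_241, R14_43⟩, ⟨nat_lit 1, nat_lit 16128, nat_lit 9936, nat_lit 14064, nat_lit 14736, nat_lit 288, R3_293, R13_307, R12_6⟩]⟩]⟩], [⟨nat_lit 4, [⟨nat_lit 1, [⟨nat_lit 1, nat_lit 15408, nat_lit 96, nat_lit 4080, nat_lit 11472, nat_lit 624, R4_85, R6_239, R1_13⟩]⟩, ⟨nat_lit 5, [⟨nat_lit 1, nat_lit 15360, nat_lit 192, nat_lit 4080, nat_lit 11376, nat_lit 15648, R7_85, R6_237, R10_326⟩]⟩]⟩,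
 ⟨nat_lit 5, [⟨nat_lit 1, [⟨nat_lit 1, nat_lit 16080, nat_lit 4848, nat_lit 16848, nat_lit 14688, nat_lit 720, R3_351, R13_306, R1_15⟩]⟩, ⟨nat_lit 5, [⟨nat_lit 1, nat_lit 16032, nat_lit 4944, nat_lit 2448, nat_lit 14592, nat_lit 15840, R2_51, R13_304, R10_330⟩]⟩]⟩]], [], [[], [], [], [], [], [], [⟨nat_lit 4, [⟨nat_lit 1, [⟨nat_lit 1, nat_lit 17520, nat_lit 15984, nat_lit 11712, nat_lit 12000, nat_lit 6144, R4_244, R4_250, R1_128⟩]⟩, ⟨nat_lit 5, [⟨nat_lit 1, nat_lit 17472, nat_lit 14976, nat_lit 12528, nat_lit 11952, nat_lit 15696, R7_261, R4_249, R10_327⟩, ⟨nat_lit 5, nat_lit 17616, nat_lit 15024, nat_lit 12432, nat_lit 13056, nat_lit 13824, R7_259, R7_272, R1_288⟩]⟩]⟩]], [[], [], [], [], [⟨nat_lit 4, [⟨nat_lit 1, [⟨nat_lit 0, nat_lit 18480, nat_lit 18288, nat_lit 9216, nat_lit 10080, nat_lit 9120, R4_192, R6_210,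 R7_190⟩, ⟨nat_lit 1, nat_lit 18864, nat_lit 18384, nat_lit 9312, nat_lit 11712, nat_lit 8208, R4_194, R8_244, R2_171⟩, ⟨nat_lit 3, nat_lit 19392, nat_lit 18336, nat_lit 9264, nat_lit 11088, nat_lit 3312, R4_193, R4_231, R2_69⟩]⟩, ⟨nat_lit 5, [⟨nat_lit 0, nat_lit 18432, nat_lit 16512, nat_lit 9120, nat_lit 11232, nat_lit 9216, R7_190, R6_234, R4_192⟩, ⟨nat_lit 1, nat_lit 18816, nat_lit 16560, nat_lit 9216, nat_lit 11568, nat_lit 11904, R7_192, R8_241, R3_248⟩]⟩]⟩,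
 ⟨nat_lit 5, [⟨nat_lit 1, [⟨nat_lit 0, nat_lit 19776, nat_lit 18624, nat_lit 11904, nat_lit 11568, nat_lit 9216, R3_248, R8_241, R7_192⟩, ⟨nat_lit 1, nat_lit 20352, nat_lit 18720, nat_lit 12192, nat_lit 12480, nat_lit 8304, R3_254, R9_260, R2_173⟩]⟩, ⟨nat_lit 5, [⟨nat_lit 0, nat_lit 19728, nat_lit 17136, nat_lit 8208, nat_lit 11712, nat_lit 9312, R2_171, R8_244, R4_194⟩, ⟨nat_lit 1, nat_lit 20304, nat_lit 17184, nat_lit 8304, nat_lit 12336, nat_lit 12192, R2_173, R9_257, R3_254⟩]⟩]⟩,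
 ⟨nat_lit 7, [⟨nat_lit 5, [⟨nat_lit 0, nat_lit 21600, nat_lit 17808, nat_lit 3312, nat_lit 11088, nat_lit 9264, R2_69, R4_231, R4_193⟩, ⟨nat_lit 1, nat_lit 21936, nat_lit 17856, nat_lit 3600, nat_lit 13824, nat_lit 12048, R2_75, R5_288, R3_251⟩]⟩]⟩], [⟨nat_lit 4, [⟨nat_lit 1, [⟨nat_lit 0, nat_lit 18528, nat_lit 13872, nat_lit 9696, nat_lit 10128, nat_lit 2448, R4_202, R6_211, R14_51⟩, ⟨nat_lit 1, nat_lit 19008, nat_lit 13968, nat_lit 9840, nat_lit 11808, nat_lit 816, R4_205, R8_246, R12_17⟩, ⟨nat_lit 3, nat_lit 19440, nat_lit 13920, nat_lit 9744, nat_lit 11184, nat_lit 2736, R4_203, R4_233, R12_57⟩]⟩]⟩,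
 ⟨nat_lit 5, [⟨nat_lit 1, [⟨nat_lit 0, nat_lit 19824, nat_lit 14592, nat_lit 14592, nat_lit 12000, nat_lit 2976, R3_304, R8_250, R14_62⟩, ⟨nat_lit 1, nat_lit 20496, nat_lit 14688, nat_lit 14928, nat_lit 12576, nat_lit 1344, R3_311, R9_262, R12_28⟩]⟩]⟩], [], [⟨nat_lit 4, [⟨nat_lit 1, [⟨nat_lit 3, nat_lit 19536, nat_lit 3168, nat_lit 9552, nat_lit 11136, nat_lit 2784, R4_199, R4_232, R1_58⟩]⟩, ⟨nat_lit 5, [⟨nat_lit 0, nat_lit 18576, nat_lit 1248, nat_lit 9792, nat_lit 11280, nat_lit 4464, R7_204, R6_235, R5_93⟩, ⟨nat_lit 3, nat_lit 19488, nat_lit 1488, nat_lit 9888, nat_lit 11904, nat_lit 19104, R7_206, R4_248, R11_398⟩]⟩]⟩,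
 ⟨nat_lit 7, [⟨nat_lit 5, [⟨nat_lit 0, nat_lit 21648, nat_lit 6432, nat_lit 4176, nat_lit 11424, nat_lit 5232, R2_87, R4_238, R5_109⟩]⟩]⟩]]], [[], [], [], [], [[], [], [], [], [⟨nat_lit 5, [⟨nat_lit 1, [⟨nat_lit 0, nat_lit 15792, nat_lit 192, nat_lit 960, nat_lit 11376, nat_lit 4080, R10_20, R6_237, R7_85⟩, ⟨nat_lit 1, nat_lit 16224, nat_lit 4944, nat_lit 1008, nat_lit 14880, nat_lit 2448, R10_21, R13_310, R2_51⟩]⟩]⟩], [⟨nat_lit 5, [⟨nat_lit 1, [⟨nat_lit 0, nat_lit 15840, nat_lit 4560, nat_lit 1344, nat_lit 11616, nat_lit 2112, R10_28, R6_242, R14_44⟩, ⟨nat_lit 1, nat_lit 16368, nat_lit 4944, nat_lit 1440, nat_lit 14976, nat_lit 336, R10_30, R13_312, R12_7⟩]⟩]⟩]], [[], [], [], [], [⟨nat_lit 5, [⟨nat_lit 1, [⟨nat_lit 0, nat_lit 17136, nat_lit 14976, nat_lit 7344, nat_lit 11952, nat_lit 12528, R10_153, R4_249,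 R7_261⟩, ⟨nat_lit 1, nat_lit 17280, nat_lit 15456, nat_lit 7392, nat_lit 10896, nat_lit 11136, R10_154, R3_227, R2_232⟩]⟩]⟩], [⟨nat_lit 1, [⟨nat_lit 1, [⟨nat_lit 0, nat_lit 16656, nat_lit 19344, nat_lit 13920, nat_lit 13152, nat_lit 3552, R1_290, R7_274, R14_74⟩, ⟨nat_lit 1, nat_lit 16848, nat_lit 19824, nat_lit 14016, nat_lit 11808, nat_lit 1920, R1_292, R2_246, R12_40⟩, ⟨nat_lit 2, nat_lit 17040, nat_lit 20496, nat_lit 13968, nat_lit 11856, nat_lit 1968, R1_291, R2_247, R12_41⟩]⟩]⟩,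
 ⟨nat_lit 5, [⟨nat_lit 1, [⟨nat_lit 0, nat_lit 17184, nat_lit 19296, nat_lit 7632, nat_lit 12048, nat_lit 4032, R10_159, R4_251, R14_84⟩, ⟨nat_lit 1, nat_lit 17424, nat_lit 19776, nat_lit 7728, nat_lit 10992, nat_lit 2400, R10_161, R3_229, R12_50⟩]⟩]⟩]], [], [[], [], [], [], [⟨nat_lit 5, [⟨nat_lit 1, [⟨nat_lit 0, nat_lit 19968, nat_lit 14160, nat_lit 10416, nat_lit 11616, nat_lit 11088, R10_217, R8_242, R7_231⟩, ⟨nat_lit 1, nat_lit 20640, nat_lit 14448, nat_lit 10512, nat_lit 12720, nat_lit 10080, R10_219, R9_265, R2_210⟩]⟩]⟩]]], [[[⟨nat_lit 4, [⟨nat_lit 4, [⟨nat_lit 7, nat_lit 2160, nat_lit 9216, nat_lit 9120, nat_lit 10080, nat_lit 18288, R7_190, R6_210, R13_381⟩]⟩, ⟨nat_lit 5, [⟨nat_lit 7, nat_lit 2208, nat_lit 9696, nat_lit 240, nat_lit 10128, nat_lit 13872, R14_5, R6_211, R3_289⟩]⟩]⟩,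
 ⟨nat_lit 6, [⟨nat_lit 4, [⟨nat_lit 4, nat_lit 2544, nat_lit 3312, nat_lit 1152, nat_lit 11424, nat_lit 3648, R2_24, R6_238, R6_76⟩, ⟨nat_lit 7, nat_lit 3120, nat_lit 9312, nat_lit 8208, nat_lit 9696, nat_lit 18384, R2_171, R8_202, R13_383⟩]⟩, ⟨nat_lit 5, [⟨nat_lit 4, nat_lit 2640, nat_lit 3552, nat_lit 48, nat_lit 11520, nat_lit 3648, R12_1, R6_240, R4_76⟩, ⟨nat_lit 7, nat_lit 3216, nat_lit 9840, nat_lit 816, nat_lit 9792, nat_lit 13968, R12_17, R8_204, R3_291⟩]⟩, ⟨nat_lit 6, [⟨nat_lit 4, nat_lit 2592, nat_lit 4080, nat_lit 624, nat_lit 11472, nat_lit 96, R1_13, R6_239, R8_2⟩, ⟨nat_lit 6, nat_lit 2784, nat_lit 11712, nat_lit 6144, nat_lit 12000, nat_lit 15984, R1_128, R4_250, R5_333⟩, ⟨nat_lit 7, nat_lit 3168, nat_lit 10416, nat_lit 9024, nat_lit 9744, nat_lit 15072, R1_188, R8_203, R9_314⟩]⟩]⟩,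
 ⟨nat_lit 7, [⟨nat_lit 4, [⟨nat_lit 7, nat_lit 4080, nat_lit 9264, nat_lit 3312, nat_lit 11088, nat_lit 18336, R2_69, R4_231, R13_382⟩]⟩, ⟨nat_lit 5, [⟨nat_lit 7, nat_lit 4128, nat_lit 9744, nat_lit 12768, nat_lit 11184, nat_lit 13920, R12_266, R4_233, R3_290⟩]⟩, ⟨nat_lit 7, [⟨nat_lit 3, nat_lit 3792, nat_lit 13920, nat_lit 13248, nat_lit 11520, nat_lit 13728, R1_276, R7_240, R2_286⟩, ⟨nat_lit 7, nat_lit 4176, nat_lit 9552, nat_lit 2784, nat_lit 11136, nat_lit 3168, R1_58, R4_232, R3_66⟩]⟩]⟩], [], [], [⟨nat_lit 4, [⟨nat_lit 4, [⟨nat_lit 7, nat_lit 2256, nat_lit 4464, nat_lit 9792, nat_lit 10560, nat_lit 1248, R7_204, R6_220, R3_26⟩]⟩, ⟨nat_lit 5, [⟨nat_lit 7, nat_lit 2304, nat_lit 4560, nat_lit 288, nat_lit 10608, nat_lit 15984, R14_6, R6_221, R10_333⟩]⟩]⟩,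
 ⟨nat_lit 6, [⟨nat_lit 4, [⟨nat_lit 7, nat_lit 3264, nat_lit 6048, nat_lit 8832, nat_lit 10272, nat_lit 7680, R2_184, R8_214, R3_160⟩]⟩, ⟨nat_lit 5, [⟨nat_lit 7, nat_lit 3360, nat_lit 6144, nat_lit 864, nat_lit 10368, nat_lit 16800, R12_18, R8_216, R10_350⟩]⟩]⟩,
 ⟨nat_lit 7, [⟨nat_lit 4, [⟨nat_lit 3, nat_lit 3840, nat_lit 14880, nat_lit 12864, nat_lit 11904, nat_lit 13152, R2_268, R7_248, R2_274⟩, ⟨nat_lit 7, nat_lit 4224, nat_lit 5232, nat_lit 4176, nat_lit 11424, nat_lit 6432, R2_87, R4_238, R3_134⟩]⟩, ⟨nat_lit 5, [⟨nat_lit 3, nat_lit 3888, nat_lit 15168, nat_lit 12384, nat_lit 12000, nat_lit 14496, R12_258, R7_250, R1_302⟩, ⟨nat_lit 7, nat_lit 4272, nat_lit 5280, nat_lit 12912, nat_lit 11472, nat_lit 17664, R12_269, R4_239, R10_368⟩]⟩, ⟨nat_lit 7, [⟨nat_lit 3, nat_lit 3936, nat_lit 15072, nat_lit 14208, nat_lit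 11952, nat_lit 14016, R1_296, R7_249, R12_292⟩]⟩]⟩]], [], [[⟨nat_lit 4, [⟨nat_lit 4, [⟨nat_lit 4, nat_lit 8256, nat_lit 11568, nat_lit 3024, nat_lit 11328, nat_lit 9024, R7_63, R6_236, R6_188⟩, ⟨nat_lit 7, nat_lit 8880, nat_lit 11904, nat_lit 9216, nat_lit 11424, nat_lit 18624, R7_192, R8_238, R13_388⟩]⟩, ⟨nat_lit 5, [⟨nat_lit 4, nat_lit 8304, nat_lit 13872, nat_lit 864, nat_lit 11568, nat_lit 9696, R14_18, R6_241, R4_202⟩, ⟨nat_lit 7, nat_lit 8928, nat_lit 14592, nat_lit 1344, nat_lit 12000, nat_lit 14592, R14_28, R8_250, R3_304⟩]⟩]⟩,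
 ⟨nat_lit 6, [⟨nat_lit 4, [⟨nat_lit 4, nat_lit 9456, nat_lit 11712, nat_lit 1248, nat_lit 14640, nat_lit 9168, R2_26, R13_305, R6_191⟩, ⟨nat_lit 7, nat_lit 10608, nat_lit 12192, nat_lit 8304, nat_lit 12480, nat_lit 18720, R2_173, R9_260, R13_390⟩]⟩, ⟨nat_lit 5, [⟨nat_lit 4, nat_lit 9552, nat_lit 14064, nat_lit 288, nat_lit 14736, nat_lit 9936, R12_6, R13_307, R4_207⟩, ⟨nat_lit 7, nat_lit 10704, nat_lit 14928, nat_lit 1344, nat_lit 12576, nat_lit 14688, R12_28, R9_262, R3_306⟩]⟩, ⟨nat_lit 6, [⟨nat_lit 4, nat_lit 9504, nat_lit 16848, nat_lit 720, nat_lit 14688, nat_lit 4848, R1_15, R13_306, R8_101⟩, ⟨nat_lit 6, nat_lit 10128, nat_lit 17184, nat_lit 6240, nat_lit 10800, nat_lit 16080, R1_130, R3_225, R5_335⟩, ⟨nat_lit 7, nat_lit 10656, nat_lit 17040, nat_lit 9120, nat_lit 12528, nat_lit 15216, R1_190, R9_261, R9_317⟩]⟩]⟩,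
 ⟨nat_lit 7, [⟨nat_lit 4, [⟨nat_lit 7, nat_lit 11136, nat_lit 12048, nat_lit 3600, nat_lit 13824, nat_lit 18672, R2_75, R5_288, R13_389⟩]⟩, ⟨nat_lit 5, [⟨nat_lit 7, nat_lit 11184, nat_lit 14736, nat_lit 15600, nat_lit 13920, nat_lit 14640, R12_325, R5_290, R3_305⟩]⟩, ⟨nat_lit 7, [⟨nat_lit 7, nat_lit 11232, nat_lit 15504, nat_lit 3072, nat_lit 13872, nat_lit 9168, R1_64, R5_289, R3_191⟩]⟩]⟩], [], [⟨nat_lit 4, [⟨nat_lit 4, [⟨nat_lit 4, nat_lit 8352, nat_lit 15648, nat_lit 4080, nat_lit 11376, nat_lit 192, R7_85, R6_237, R8_4⟩, ⟨nat_lit 5, nat_lit 8496, nat_lit 15696, nat_lit 12528, nat_lit 11952, nat_lit 14976, R7_261, R4_249, R5_312⟩, ⟨nat_lit 7, nat_lit 8976, nat_lit 15744, nat_lit 11088, nat_lit 11520, nat_lit 14160, R7_231, R8_240, R9_295⟩]⟩, ⟨nat_lit 5, [⟨nat_lit 4, nat_lit 8400, nat_lit 15984, nat_lit 912,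 nat_lit 11616, nat_lit 4560, R14_19, R6_242, R5_95⟩, ⟨nat_lit 5, nat_lit 8544, nat_lit 16032, nat_lit 1824, nat_lit 12048, nat_lit 19296, R14_38, R4_251, R11_402⟩]⟩]⟩,
 ⟨nat_lit 6, [⟨nat_lit 4, [⟨nat_lit 4, nat_lit 9600, nat_lit 15840, nat_lit 2448, nat_lit 14880, nat_lit 4944, R2_51, R13_310, R8_103⟩, ⟨nat_lit 5, nat_lit 9840, nat_lit 15888, nat_lit 11136, nat_lit 10896, nat_lit 15456, R2_232, R3_227, R5_322⟩, ⟨nat_lit 7, nat_lit 10752, nat_lit 15936, nat_lit 10080, nat_lit 12720, nat_lit 14448, R2_210, R9_265, R9_301⟩]⟩, ⟨nat_lit 5, [⟨nat_lit 4, nat_lit 9696, nat_lit 16176, nat_lit 336, nat_lit 14976, nat_lit 4944, R12_7, R13_312, R5_103⟩, ⟨nat_lit 5, nat_lit 9936, nat_lit 16224, nat_lit 2400, nat_lit 10992, nat_lit 19776, R12_50, R3_229, R11_412⟩]⟩, ⟨nat_lit 6, [⟨nat_lit 4, nat_lit 9648, nat_lit 16368, nat_lit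 1920, nat_lit 14928, nat_lit 4080, R1_40, R13_311, R9_85⟩]⟩]⟩,
 ⟨nat_lit 7, [⟨nat_lit 4, [⟨nat_lit 7, nat_lit 11280, nat_lit 15792, nat_lit 6576, nat_lit 14016, nat_lit 14784, R2_137, R5_292, R9_308⟩]⟩]⟩]], [[], [], [], [⟨nat_lit 4, [⟨nat_lit 4, [⟨nat_lit 3, nat_lit 12720, nat_lit 19152, nat_lit 15216, nat_lit 13008, nat_lit 12576, R7_317, R7_271, R2_262⟩, ⟨nat_lit 7, nat_lit 13200, nat_lit 19104, nat_lit 9888, nat_lit 11904, nat_lit 1488, R7_206, R4_248, R3_31⟩]⟩, ⟨nat_lit 5, [⟨nat_lit 3, nat_lit 12768, nat_lit 19344, nat_lit 624, nat_lit 13152, nat_lit 13920, R14_13, R7_274, R1_290⟩, ⟨nat_lit 7, nat_lit 13248, nat_lit 19296, nat_lit 432, nat_lit 12048, nat_lit 16032, R14_9, R4_251, R10_334⟩]⟩]⟩,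
 ⟨nat_lit 6, [⟨nat_lit 4, [⟨nat_lit 7, nat_lit 13680, nat_lit 19248, nat_lit 8928, nat_lit 13776, nat_lit 7968, R2_186, R5_287, R3_166⟩]⟩, ⟨nat_lit 5, [⟨nat_lit 7, nat_lit 13776, nat_lit 19440, nat_lit 1104, nat_lit 14256, nat_lit 16848, R12_23, R5_297, R10_351⟩]⟩]⟩,
 ⟨nat_lit 7, [⟨nat_lit 4, [⟨nat_lit 3, nat_lit 14928, nat_lit 19200, nat_lit 13200, nat_lit 14640, nat_lit 13200, R2_275, R14_305, R2_275⟩]⟩, ⟨nat_lit 5, [⟨nat_lit 3, nat_lit 14976, nat_lit 19392, nat_lit 14064, nat_lit 14736, nat_lit 14544, R12_293, R14_307, R1_303⟩]⟩, ⟨nat_lit 7, [⟨nat_lit 3, nat_lit 15024, nat_lit 19488, nat_lit 14544, nat_lit 14688, nat_lit 14064, R1_303, R14_306, R12_293⟩]⟩]⟩], [], [], [], [⟨nat_lit 4, [⟨nat_lit 5, [⟨nat_lit 3, nat_lit 12672, nat_lit 13920, nat_lit 576, nat_lit 13200, nat_lit 19344, R14_12, R7_275, R11_403⟩]⟩]⟩,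
 ⟨nat_lit 7, [⟨nat_lit 5, [⟨nat_lit 0, nat_lit 14160, nat_lit 14496, nat_lit 13632, nat_lit 12816, nat_lit 15168, R12_284, R7_267, R5_316⟩, ⟨nat_lit 3, nat_lit 14880, nat_lit 14544, nat_lit 13968, nat_lit 14784, nat_lit 19392, R12_291, R14_308, R11_404⟩]⟩]⟩]], [[], [], [], [], [⟨nat_lit 4, [⟨nat_lit 5, [⟨nat_lit 1, nat_lit 15504, nat_lit 9696, nat_lit 2064, nat_lit 11568, nat_lit 13872, R14_43, R6_241, R3_289⟩]⟩]⟩,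
 ⟨nat_lit 5, [⟨nat_lit 5, [⟨nat_lit 0, nat_lit 15888, nat_lit 3648, nat_lit 48, nat_lit 11520, nat_lit 3552, R12_1, R6_240, R4_74⟩, ⟨nat_lit 1, nat_lit 16416, nat_lit 9936, nat_lit 288, nat_lit 15024, nat_lit 14064, R12_6, R13_313, R3_293⟩]⟩]⟩], [], [⟨nat_lit 4, [⟨nat_lit 5, [⟨nat_lit 1, nat_lit 15552, nat_lit 4560, nat_lit 2112, nat_lit 11616, nat_lit 15984, R14_44, R6_242, R10_333⟩]⟩]⟩,
 ⟨nat_lit 5, [⟨nat_lit 5, [⟨nat_lit 1, nat_lit 16464, nat_lit 4944, nat_lit 336, nat_lit 15072, nat_lit 16176, R12_7, R13_314, R10_337⟩]⟩]⟩]], [], [[], [], [⟨nat_lit 4, [⟨nat_lit 4, [⟨nat_lit 5, nat_lit 17712, nat_lit 13824, nat_lit 12432, nat_lit 13104, nat_lit 15024, R7_259, R7_273, R5_313⟩]⟩, ⟨nat_lit 5, [⟨nat_lit 5, nat_lit 17760, nat_lit 13920, nat_lit 3600, nat_lit 13200, nat_lit 19344, R14_75, R7_275, R11_403⟩]⟩]⟩,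
 ⟨nat_lit 6, [⟨nat_lit 4, [⟨nat_lit 5, nat_lit 18288, nat_lit 13872, nat_lit 11040, nat_lit 11712, nat_lit 15504, R2_230, R2_244, R5_323⟩]⟩, ⟨nat_lit 5, [⟨nat_lit 5, nat_lit 18384, nat_lit 14016, nat_lit 1920, nat_lit 11808, nat_lit 19824, R12_40, R2_246, R11_413⟩]⟩]⟩], [], [], [], [⟨nat_lit 4, [⟨nat_lit 5, [⟨nat_lit 1, nat_lit 17568, nat_lit 19296, nat_lit 4032, nat_lit 12048, nat_lit 16032, R14_84, R4_251, R10_334⟩, ⟨nat_lit 5, nat_lit 17664, nat_lit 19344, nat_lit 3552, nat_lit 13152, nat_lit 13920, R14_74, R7_274, R1_290⟩]⟩]⟩,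
 ⟨nat_lit 6, [⟨nat_lit 5, [⟨nat_lit 5, nat_lit 18240, nat_lit 20496, nat_lit 1968, nat_lit 11856, nat_lit 13968, R12_41, R2_247, R1_291⟩]⟩]⟩]], [[], [], [], [], [⟨nat_lit 4, [⟨nat_lit 5, [⟨nat_lit 0, nat_lit 18624, nat_lit 13872, nat_lit 2448, nat_lit 11568, nat_lit 9696, R14_51, R6_241, R4_202⟩, ⟨nat_lit 1, nat_lit 19104, nat_lit 14592, nat_lit 2976, nat_lit 12000, nat_lit 14592, R14_62, R8_250, R3_304⟩]⟩]⟩,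
 ⟨nat_lit 5, [⟨nat_lit 5, [⟨nat_lit 0, nat_lit 20112, nat_lit 13968, nat_lit 816, nat_lit 11808, nat_lit 9840, R12_17, R8_246, R4_205⟩, ⟨nat_lit 1, nat_lit 20784, nat_lit 14688, nat_lit 1344, nat_lit 12960, nat_lit 14928, R12_28, R9_270, R3_311⟩]⟩]⟩,
 ⟨nat_lit 7, [⟨nat_lit 5, [⟨nat_lit 0, nat_lit 21696, nat_lit 13920, nat_lit 2736, nat_lit 11184, nat_lit 9744, R12_57, R4_233, R4_203⟩, ⟨nat_lit 1, nat_lit 22080, nat_lit 14640, nat_lit 4080, nat_lit 13920, nat_lit 14736, R12_85, R5_290, R3_307⟩]⟩]⟩], [], [], [⟨nat_lit 4, [⟨nat_lit 5, [⟨nat_lit 0, nat_lit 18672, nat_lit 15984, nat_lit 2496, nat_lit 11616, nat_lit 4560, R14_52, R6_242, R5_95⟩, ⟨nat_lit 3, nat_lit 19584, nat_lit 16032, nat_lit 2736, nat_lit 12048, nat_lit 19296, R14_57, R4_251, R11_402⟩]⟩]⟩,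
 ⟨nat_lit 5, [⟨nat_lit 5, [⟨nat_lit 0, nat_lit 20160, nat_lit 16800, nat_lit 864, nat_lit 11952, nat_lit 6144, R12_18, R8_249, R5_128⟩]⟩]⟩,
 ⟨nat_lit 7, [⟨nat_lit 5, [⟨nat_lit 0, nat_lit 21744, nat_lit 17664, nat_lit 2880, nat_lit 11472, nat_lit 5280, R12_60, R4_239, R5_110⟩]⟩]⟩]]], [[], [], [], [[], [], [], [], [⟨nat_lit 7, [⟨nat_lit 1, [⟨nat_lit 0, nat_lit 14256, nat_lit 12576, nat_lit 19152, nat_lit 12192, nat_lit 15216, R11_399, R7_254, R7_317⟩, ⟨nat_lit 3, nat_lit 15072, nat_lit 13200, nat_lit 19200, nat_lit 14448, nat_lit 13200, R11_400, R14_301, R2_275⟩]⟩]⟩], [⟨nat_lit 4, [⟨nat_lit 1, [⟨nat_lit 3, nat_lit 12864, nat_lit 14496, nat_lit 15168, nat_lit 12816, nat_lit 13632, R5_316, R7_267, R12_284⟩]⟩]⟩,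
 ⟨nat_lit 7, [⟨nat_lit 1, [⟨nat_lit 0, nat_lit 14304, nat_lit 13920, nat_lit 19344, nat_lit 13200, nat_lit 576, R11_403, R7_275, R14_12⟩, ⟨nat_lit 3, nat_lit 15120, nat_lit 14544, nat_lit 19392, nat_lit 14592, nat_lit 13968, R11_404, R14_304, R12_291⟩]⟩]⟩]], [], [], [], [[], [], [], [], [⟨nat_lit 4, [⟨nat_lit 1, [⟨nat_lit 0, nat_lit 18720, nat_lit 1248, nat_lit 4464, nat_lit 10560, nat_lit 9792, R5_93, R6_220, R7_204⟩, ⟨nat_lit 1, nat_lit 19248, nat_lit 7680, nat_lit 6048, nat_lit 11856, nat_lit 8832, R5_126, R8_247, R2_184⟩]⟩]⟩,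
 ⟨nat_lit 7, [⟨nat_lit 1, [⟨nat_lit 0, nat_lit 21840, nat_lit 1488, nat_lit 19104, nat_lit 11904, nat_lit 9888, R11_398, R4_248, R7_206⟩, ⟨nat_lit 1, nat_lit 22272, nat_lit 7968, nat_lit 19248, nat_lit 13776, nat_lit 8928, R11_401, R5_287, R2_186⟩]⟩]⟩], [⟨nat_lit 4, [⟨nat_lit 1, [⟨nat_lit 0, nat_lit 18768, nat_lit 15984, nat_lit 4560, nat_lit 10608, nat_lit 2496, R5_95, R6_221, R14_52⟩, ⟨nat_lit 1, nat_lit 19344, nat_lit 16800, nat_lit 6144, nat_lit 11952, nat_lit 864, R5_128, R8_249, R12_18⟩, ⟨nat_lit 3, nat_lit 19680, nat_lit 17664, nat_lit 5280, nat_lit 11472, nat_lit 2880, R5_110, R4_239, R12_60⟩]⟩]⟩,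
 ⟨nat_lit 7, [⟨nat_lit 1, [⟨nat_lit 0, nat_lit 21888, nat_lit 16032, nat_lit 19296, nat_lit 12048, nat_lit 2736, R11_402, R4_251, R14_57⟩, ⟨nat_lit 1, nat_lit 22416, nat_lit 16848, nat_lit 19440, nat_lit 14256, nat_lit 1104, R11_405, R5_297, R12_23⟩]⟩]⟩]]]]
noncomputable def N6233 : T3 (List N0) := [[[[], [⟨nat_lit 0, [⟨nat_lit 0, [⟨nat_lit 2, nat_lit 2736, nat_lit 3552, nat_lit 1824, nat_lit 2256, nat_lit 3072, R6_38, R4_47, R3_64⟩, ⟨nat_lit 6, nat_lit 13200, nat_lit 3408, nat_lit 1440, nat_lit 2208, nat_lit 12000, R6_30, R7_46, R2_250⟩]⟩, ⟨nat_lit 1, [⟨nat_lit 2, nat_lit 3456, nat_lit 3984, nat_lit 1680, nat_lit 2976, nat_lit 13968, R4_35, R4_62, R10_291⟩, ⟨nat_lit 6, nat_lit 15216, nat_lit 3888, nat_lit 1440, nat_lit 2784, nat_lit 12576, R4_30, R7_58, R1_262⟩]⟩, ⟨nat_lit 2, [⟨nat_lit 6, nat_lit 14160, nat_lit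 4368, nat_lit 1056, nat_lit 2640, nat_lit 13584, R8_22, R7_55, R12_283⟩]⟩]⟩,
 ⟨nat_lit 2, [⟨nat_lit 2, [⟨nat_lit 6, nat_lit 14496, nat_lit 12816, nat_lit 15168, nat_lit 12864, nat_lit 13632, R5_316, R14_268, R12_284⟩]⟩]⟩,
 ⟨nat_lit 3, [⟨nat_lit 0, [⟨nat_lit 2, nat_lit 3024, nat_lit 9696, nat_lit 16752, nat_lit 2640, nat_lit 8880, R13_349, R5_55, R3_185⟩]⟩, ⟨nat_lit 1, [⟨nat_lit 2, nat_lit 3648, nat_lit 10992, nat_lit 12576, nat_lit 3216, nat_lit 14112, R3_262, R5_67, R10_294⟩]⟩]⟩], [], [], [], [⟨nat_lit 0, [⟨nat_lit 1, [⟨nat_lit 2, nat_lit 3936, nat_lit 4032, nat_lit 3792, nat_lit 3072, nat_lit 4512, R4_79, R4_64, R1_94⟩]⟩]⟩,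
 ⟨nat_lit 3, [⟨nat_lit 1, [⟨nat_lit 2, nat_lit 4224, nat_lit 10368, nat_lit 14256, nat_lit 816, nat_lit 4656, R3_297, R5_17, R1_97⟩]⟩]⟩]], [[], [⟨nat_lit 0, [⟨nat_lit 0, [⟨nat_lit 2, nat_lit 2832, nat_lit 1872, nat_lit 7968, nat_lit 2112, nat_lit 3120, R6_166, R3_44, R3_65⟩, ⟨nat_lit 6, nat_lit 13296, nat_lit 1728, nat_lit 7392, nat_lit 672, nat_lit 12096, R6_154, R2_14, R2_252⟩]⟩, ⟨nat_lit 1, [⟨nat_lit 2, nat_lit 3504, nat_lit 2352, nat_lit 8400, nat_lit 9792, nat_lit 14016, R4_175, R3_204, R10_292⟩, ⟨nat_lit 6, nat_lit 15264, nat_lit 2256, nat_lit 8112, nat_lit 864, nat_lit 12672, R4_169, R2_18, R1_264⟩]⟩, ⟨nat_lit 2, [⟨nat_lit 6, nat_lit 14256, nat_lit 2784, nat_lit 6192, nat_lit 768, nat_lit 13824, R8_129, R2_16, R12_288⟩]⟩]⟩,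
 ⟨nat_lit 2, [⟨nat_lit 2, [⟨nat_lit 6, nat_lit 14640, nat_lit 11520, nat_lit 15744, nat_lit 10128, nat_lit 13872, R5_328, R12_211, R12_289⟩]⟩]⟩], [], [], [], [⟨nat_lit 0, [⟨nat_lit 1, [⟨nat_lit 2, nat_lit 3984, nat_lit 14304, nat_lit 10128, nat_lit 9744, nat_lit 4560, R4_211, R3_203, R1_95⟩]⟩]⟩]], [], [[], [⟨nat_lit 0, [⟨nat_lit 0, [⟨nat_lit 6, nat_lit 13440, nat_lit 0, nat_lit 6768, nat_lit 1008, nat_lit 12048, R6_141, R2_21, R2_251⟩]⟩, ⟨nat_lit 1, [⟨nat_lit 6, nat_lit 15360, nat_lit 48, nat_lit 7344, nat_lit 3024, nat_lit 12624, R4_153, R2_63, R1_263⟩]⟩, ⟨nat_lit 2, [⟨nat_lit 6, nat_lit 14400, nat_lit 816, nat_lit 6960, nat_lit 2736, nat_lit 13680, R8_145, R2_57, R12_285⟩]⟩]⟩,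
 ⟨nat_lit 2, [⟨nat_lit 2, [⟨nat_lit 6, nat_lit 14784, nat_lit 10464, nat_lit 15936, nat_lit 2256, nat_lit 13776, R5_332, R12_47, R12_287⟩]⟩]⟩,
 ⟨nat_lit 3, [⟨nat_lit 0, [⟨nat_lit 2, nat_lit 3264, nat_lit 3888, nat_lit 18048, nat_lit 2640, nat_lit 8976, R13_376, R11_55, R3_187⟩, ⟨nat_lit 6, nat_lit 13584, nat_lit 3936, nat_lit 18096, nat_lit 336, nat_lit 12336, R13_377, R1_7, R2_257⟩]⟩, ⟨nat_lit 1, [⟨nat_lit 2, nat_lit 3792, nat_lit 5136, nat_lit 13344, nat_lit 3216, nat_lit 14160, R3_278, R11_67, R10_295⟩, ⟨nat_lit 6, nat_lit 15456, nat_lit 5184, nat_lit 13392, nat_lit 2496, nat_lit 12912, R3_279, R1_52, R1_269⟩]⟩, ⟨nat_lit 2, [⟨nat_lit 6, nat_lit 14928, nat_lit 6960, nat_lit 14976, nat_lit 2208, nat_lit 13728, R9_312, R1_46, R12_286⟩]⟩]⟩]]], [[], [[], [⟨nat_lit 0, [⟨nat_lit 0, [⟨nat_lit 2, nat_lit 2928, nat_lit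 1344, nat_lit 5712, nat_lit 2448, nat_lit 3360, R8_119, R3_51, R3_70⟩, ⟨nat_lit 6, nat_lit 13392, nat_lit 1200, nat_lit 13344, nat_lit 6480, nat_lit 14928, R8_278, R2_135, R2_311⟩]⟩, ⟨nat_lit 1, [⟨nat_lit 2, nat_lit 3552, nat_lit 1824, nat_lit 5712, nat_lit 10080, nat_lit 19632, R5_119, R3_210, R10_409⟩, ⟨nat_lit 6, nat_lit 15312, nat_lit 1728, nat_lit 5904, nat_lit 7056, nat_lit 15936, R5_123, R2_147, R1_332⟩]⟩, ⟨nat_lit 2, [⟨nat_lit 6, nat_lit 14352, nat_lit 2256, nat_lit 5664, nat_lit 6912, nat_lit 14736, R9_118, R2_144, R12_307⟩]⟩]⟩,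
 ⟨nat_lit 1, [⟨nat_lit 0, [⟨nat_lit 2, nat_lit 2976, nat_lit 6768, nat_lit 16464, nat_lit 6048, nat_lit 10560, R5_343, R10_126, R3_220⟩, ⟨nat_lit 6, nat_lit 13536, nat_lit 6624, nat_lit 16560, nat_lit 5184, nat_lit 15312, R5_345, R1_108, R2_319⟩]⟩, ⟨nat_lit 1, [⟨nat_lit 2, nat_lit 3600, nat_lit 7248, nat_lit 21408, nat_lit 6768, nat_lit 19968, R11_446, R10_141, R10_416⟩, ⟨nat_lit 6, nat_lit 15408, nat_lit 7152, nat_lit 21504, nat_lit 5760, nat_lit 16320, R11_448, R1_120, R1_340⟩]⟩]⟩], [], [], [], [⟨nat_lit 0, [⟨nat_lit 1, [⟨nat_lit 2, nat_lit 4032, nat_lit 2016, nat_lit 5568, nat_lit 10032, nat_lit 4608, R5_116, R3_209, R1_96⟩]⟩]⟩,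
 ⟨nat_lit 1, [⟨nat_lit 1, [⟨nat_lit 2, nat_lit 4080, nat_lit 8208, nat_lit 21312, nat_lit 6864, nat_lit 5040, R11_444, R10_143, R1_105⟩]⟩]⟩]], [], [], [], [[], [], [], [], [], [⟨nat_lit 1, [⟨nat_lit 1, [⟨nat_lit 2, nat_lit 4128, nat_lit 15888, nat_lit 21360, nat_lit 7776, nat_lit 4992, R11_445, R1_162, R1_104⟩]⟩]⟩]]], [[[⟨nat_lit 0, [⟨nat_lit 0, [⟨nat_lit 2, nat_lit 2592, nat_lit 17616, nat_lit 8928, nat_lit 11040, nat_lit 13056, R4_186, R4_230, R4_272⟩, ⟨nat_lit 6, nat_lit 13056, nat_lit 12960, nat_lit 13536, nat_lit 11472, nat_lit 14160, R4_282, R7_239, R7_295⟩]⟩, ⟨nat_lit 2, [⟨nat_lit 6, nat_lit 13824, nat_lit 13104, nat_lit 15024, nat_lit 11856, nat_lit 16512, R5_313, R7_247, R14_344⟩]⟩]⟩,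
 ⟨nat_lit 2, [⟨nat_lit 2, [⟨nat_lit 4, nat_lit 12336, nat_lit 4560, nat_lit 18480, nat_lit 1968, nat_lit 1248, R11_385, R7_41, R7_26⟩, ⟨nat_lit 6, nat_lit 13920, nat_lit 13200, nat_lit 18528, nat_lit 14304, nat_lit 16560, R11_386, R14_298, R14_345⟩]⟩, ⟨nat_lit 6, [⟨nat_lit 4, nat_lit 12576, nat_lit 4608, nat_lit 15216, nat_lit 1008, nat_lit 1440, R1_317, R7_21, R4_30⟩]⟩]⟩,
 ⟨nat_lit 3, [⟨nat_lit 0, [⟨nat_lit 2, nat_lit 2640, nat_lit 17712, nat_lit 15168, nat_lit 12864, nat_lit 13152, R3_316, R5_268, R4_274⟩]⟩, ⟨nat_lit 3, [⟨nat_lit 2, nat_lit 5088, nat_lit 17904, nat_lit 14688, nat_lit 13008, nat_lit 16272, R10_306, R5_271, R5_339⟩]⟩]⟩,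
 ⟨nat_lit 6, [⟨nat_lit 6, [⟨nat_lit 4, nat_lit 12720, nat_lit 4656, nat_lit 18432, nat_lit 1296, nat_lit 624, R10_384, R4_27, R4_13⟩, ⟨nat_lit 7, nat_lit 15984, nat_lit 11376, nat_lit 18480, nat_lit 2976, nat_lit 240, R10_385, R5_62, R5_5⟩]⟩]⟩], [⟨nat_lit 0, [⟨nat_lit 0, [⟨nat_lit 2, nat_lit 2784, nat_lit 13152, nat_lit 9552, nat_lit 11136, nat_lit 3168, R4_199, R4_232, R3_66⟩, ⟨nat_lit 6, nat_lit 13248, nat_lit 12480, nat_lit 13920, nat_lit 11520, nat_lit 13728, R4_290, R7_240, R2_286⟩]⟩, ⟨nat_lit 2, [⟨nat_lit 6, nat_lit 14208, nat_lit 12528, nat_lit 15072, nat_lit 11952, nat_lit 13920, R5_314, R7_249, R12_290⟩]⟩]⟩,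
 ⟨nat_lit 2, [⟨nat_lit 2, [⟨nat_lit 6, nat_lit 14544, nat_lit 14592, nat_lit 19488, nat_lit 15120, nat_lit 13968, R11_406, R14_315, R12_291⟩]⟩]⟩,
 ⟨nat_lit 3, [⟨nat_lit 0, [⟨nat_lit 2, nat_lit 3072, nat_lit 13584, nat_lit 15504, nat_lit 13872, nat_lit 9168, R3_323, R5_289, R3_191⟩]⟩]⟩]], [[], [⟨nat_lit 0, [⟨nat_lit 0, [⟨nat_lit 2, nat_lit 2880, nat_lit 10416, nat_lit 9600, nat_lit 2832, nat_lit 3216, R4_200, R3_59, R3_67⟩, ⟨nat_lit 6, nat_lit 13344, nat_lit 9744, nat_lit 14016, nat_lit 10320, nat_lit 13824, R4_292, R2_215, R2_288⟩]⟩, ⟨nat_lit 2, [⟨nat_lit 6, nat_lit 14304, nat_lit 9792, nat_lit 15888, nat_lit 10416, nat_lit 14496, R5_331, R2_217, R12_302⟩]⟩]⟩,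
 ⟨nat_lit 2, [⟨nat_lit 2, [⟨nat_lit 6, nat_lit 14688, nat_lit 11664, nat_lit 20064, nat_lit 12192, nat_lit 14544, R11_418, R12_254, R12_303⟩]⟩]⟩]], [[⟨nat_lit 2, [⟨nat_lit 2, [⟨nat_lit 4, nat_lit 12384, nat_lit 2976, nat_lit 18960, nat_lit 528, nat_lit 7248, R11_395, R2_11, R7_151⟩, ⟨nat_lit 6, nat_lit 13968, nat_lit 11856, nat_lit 19008, nat_lit 9936, nat_lit 16704, R11_396, R12_207, R14_348⟩]⟩, ⟨nat_lit 6, [⟨nat_lit 4, nat_lit 12624, nat_lit 3024, nat_lit 15360, nat_lit 48, nat_lit 7344, R1_320, R2_1, R4_153⟩]⟩]⟩,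
 ⟨nat_lit 6, [⟨nat_lit 6, [⟨nat_lit 4, nat_lit 12816, nat_lit 3072, nat_lit 18576, nat_lit 4848, nat_lit 7008, R10_387, R3_101, R4_146⟩]⟩]⟩], [⟨nat_lit 2, [⟨nat_lit 2, [⟨nat_lit 6, nat_lit 14592, nat_lit 11856, nat_lit 20688, nat_lit 11952, nat_lit 14112, R11_431, R12_249, R12_294⟩]⟩]⟩], [⟨nat_lit 2, [⟨nat_lit 2, [⟨nat_lit 4, nat_lit 12480, nat_lit 2448, nat_lit 21072, nat_lit 6240, nat_lit 5472, R11_439, R2_130, R2_114⟩, ⟨nat_lit 5, nat_lit 15600, nat_lit 7824, nat_lit 21168, nat_lit 4944, nat_lit 4176, R11_441, R1_103, R1_87⟩, ⟨nat_lit 6, nat_lit 14112, nat_lit 12288, nat_lit 21120, nat_lit 10656, nat_lit 15312, R11_440, R12_222, R12_319⟩]⟩, ⟨nat_lit 6, [⟨nat_lit 4, nat_lit 12912, nat_lit 2496, nat_lit 15456, nat_lit 5184, nat_lit 13392, R1_322, R2_108, R3_279⟩, ⟨nat_lit 5, nat_lit 15648, nat_lit 7872, nat_lit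 15504, nat_lit 3888, nat_lit 19296, R1_323, R1_81, R10_402⟩]⟩]⟩,
 ⟨nat_lit 6, [⟨nat_lit 6, [⟨nat_lit 4, nat_lit 12960, nat_lit 2544, nat_lit 18768, nat_lit 5952, nat_lit 5088, R10_391, R3_124, R3_106⟩, ⟨nat_lit 5, nat_lit 15696, nat_lit 7920, nat_lit 18864, nat_lit 12624, nat_lit 19344, R10_393, R10_263, R10_403⟩]⟩]⟩]], [[⟨nat_lit 0, [⟨nat_lit 0, [⟨nat_lit 6, nat_lit 13104, nat_lit 10512, nat_lit 13680, nat_lit 10752, nat_lit 14208, R4_285, R2_224, R7_296⟩]⟩, ⟨nat_lit 2, [⟨nat_lit 6, nat_lit 13872, nat_lit 11712, nat_lit 15504, nat_lit 11040, nat_lit 16896, R5_323, R2_230, R14_352⟩]⟩]⟩,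
 ⟨nat_lit 2, [⟨nat_lit 2, [⟨nat_lit 4, nat_lit 12432, nat_lit 2928, nat_lit 18672, nat_lit 576, nat_lit 8112, R11_389, R2_12, R7_169⟩, ⟨nat_lit 6, nat_lit 14016, nat_lit 11808, nat_lit 18720, nat_lit 10032, nat_lit 16992, R11_390, R12_209, R14_354⟩]⟩, ⟨nat_lit 6, [⟨nat_lit 4, nat_lit 12672, nat_lit 864, nat_lit 15264, nat_lit 2256, nat_lit 8112, R1_318, R2_47, R4_169⟩, ⟨nat_lit 7, nat_lit 15936, nat_lit 7056, nat_lit 15312, nat_lit 1728, nat_lit 5904, R1_319, R1_36, R5_123⟩]⟩]⟩,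
 ⟨nat_lit 3, [⟨nat_lit 0, [⟨nat_lit 2, nat_lit 2688, nat_lit 14832, nat_lit 15216, nat_lit 15792, nat_lit 13200, R3_317, R11_329, R4_275⟩, ⟨nat_lit 6, nat_lit 13152, nat_lit 10608, nat_lit 15360, nat_lit 11136, nat_lit 14448, R3_320, R1_232, R7_301⟩]⟩, ⟨nat_lit 3, [⟨nat_lit 2, nat_lit 5136, nat_lit 15456, nat_lit 15168, nat_lit 15936, nat_lit 16608, R10_316, R11_332, R5_346⟩]⟩]⟩,
 ⟨nat_lit 6, [⟨nat_lit 6, [⟨nat_lit 7, nat_lit 16176, nat_lit 7008, nat_lit 18528, nat_lit 16464, nat_lit 5952, R10_386, R11_343, R5_124⟩]⟩]⟩,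
 ⟨nat_lit 7, [⟨nat_lit 3, [⟨nat_lit 2, nat_lit 5184, nat_lit 15312, nat_lit 13536, nat_lit 6624, nat_lit 16560, R1_282, R1_138, R5_345⟩]⟩]⟩], [⟨nat_lit 0, [⟨nat_lit 0, [⟨nat_lit 6, nat_lit 13488, nat_lit 1776, nat_lit 13968, nat_lit 10944, nat_lit 13776, R4_291, R2_228, R2_287⟩]⟩, ⟨nat_lit 2, [⟨nat_lit 6, nat_lit 14448, nat_lit 2112, nat_lit 15648, nat_lit 11472, nat_lit 14304, R5_326, R2_239, R12_298⟩]⟩]⟩,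
 ⟨nat_lit 2, [⟨nat_lit 2, [⟨nat_lit 6, nat_lit 14832, nat_lit 11808, nat_lit 20256, nat_lit 12048, nat_lit 14400, R11_422, R12_251, R12_300⟩]⟩]⟩,
 ⟨nat_lit 3, [⟨nat_lit 0, [⟨nat_lit 2, nat_lit 3312, nat_lit 5472, nat_lit 15552, nat_lit 16944, nat_lit 9216, R3_324, R11_353, R3_192⟩, ⟨nat_lit 6, nat_lit 13632, nat_lit 6336, nat_lit 15648, nat_lit 11328, nat_lit 13872, R3_326, R1_236, R2_289⟩]⟩]⟩], [], [⟨nat_lit 0, [⟨nat_lit 0, [⟨nat_lit 6, nat_lit 13728, nat_lit 10896, nat_lit 13872, nat_lit 10848, nat_lit 14016, R4_289, R2_226, R2_292⟩]⟩, ⟨nat_lit 2, [⟨nat_lit 6, nat_lit 15072, nat_lit 12144, nat_lit 15600, nat_lit 11184, nat_lit 15168, R5_325, R2_233, R12_316⟩]⟩]⟩,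
 ⟨nat_lit 2, [⟨nat_lit 2, [⟨nat_lit 4, nat_lit 12528, nat_lit 2400, nat_lit 20784, nat_lit 6288, nat_lit 5424, R11_433, R2_131, R2_113⟩, ⟨nat_lit 6, nat_lit 15120, nat_lit 12240, nat_lit 20880, nat_lit 10704, nat_lit 15264, R11_435, R12_223, R12_318⟩, ⟨nat_lit 7, nat_lit 15888, nat_lit 7776, nat_lit 20832, nat_lit 4992, nat_lit 4128, R11_434, R1_104, R1_86⟩]⟩, ⟨nat_lit 6, [⟨nat_lit 7, nat_lit 16320, nat_lit 5760, nat_lit 15408, nat_lit 7152, nat_lit 21504, R1_321, R1_149, R11_448⟩]⟩]⟩,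
 ⟨nat_lit 3, [⟨nat_lit 0, [⟨nat_lit 6, nat_lit 13776, nat_lit 10992, nat_lit 15696, nat_lit 11232, nat_lit 14256, R3_327, R1_234, R2_297⟩]⟩, ⟨nat_lit 3, [⟨nat_lit 2, nat_lit 5712, nat_lit 16464, nat_lit 18672, nat_lit 16512, nat_lit 21552, R10_389, R11_344, R11_449⟩, ⟨nat_lit 6, nat_lit 15552, nat_lit 11376, nat_lit 18720, nat_lit 11472, nat_lit 15792, R10_390, R1_239, R1_329⟩]⟩]⟩,
 ⟨nat_lit 4, [⟨nat_lit 4, [⟨nat_lit 3, nat_lit 10896, nat_lit 13728, nat_lit 13872, nat_lit 10848, nat_lit 14016, R4_289, R2_226, R2_292⟩]⟩, ⟨nat_lit 7, [⟨nat_lit 3, nat_lit 12144, nat_lit 15072, nat_lit 15600, nat_lit 11184, nat_lit 15168, R5_325, R2_233, R12_316⟩]⟩]⟩,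
 ⟨nat_lit 6, [⟨nat_lit 4, [⟨nat_lit 3, nat_lit 10992, nat_lit 13776, nat_lit 15696, nat_lit 11232, nat_lit 14256, R3_327, R1_234, R2_297⟩]⟩, ⟨nat_lit 6, [⟨nat_lit 3, nat_lit 11376, nat_lit 15552, nat_lit 18720, nat_lit 11472, nat_lit 15792, R10_390, R1_239, R1_329⟩, ⟨nat_lit 7, nat_lit 16464, nat_lit 5712, nat_lit 18672, nat_lit 16512, nat_lit 21552, R10_389, R11_344, R11_449⟩]⟩]⟩,
 ⟨nat_lit 7, [⟨nat_lit 3, [⟨nat_lit 2, nat_lit 5760, nat_lit 16320, nat_lit 15408, nat_lit 7152, nat_lit 21504, R1_321, R1_149, R11_448⟩]⟩, ⟨nat_lit 7, [⟨nat_lit 0, nat_lit 2400, nat_lit 12528, nat_lit 20784, nat_lit 6288, nat_lit 5424, R11_433, R2_131, R2_113⟩, ⟨nat_lit 2, nat_lit 7776, nat_lit 15888, nat_lit 20832, nat_lit 4992, nat_lit 4128, R11_434, R1_104, R1_86⟩, ⟨nat_lit 3, nat_lit 12240, nat_lit 15120, nat_lit 20880, nat_lit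 10704, nat_lit 15264, R11_435, R12_223, R12_318⟩]⟩]⟩]]], [[[], [], [], [], [], [⟨nat_lit 3, [⟨nat_lit 1, [⟨nat_lit 2, nat_lit 4272, nat_lit 7104, nat_lit 19056, nat_lit 7776, nat_lit 4704, R10_397, R5_162, R1_98⟩]⟩]⟩]], [], [], [[], [⟨nat_lit 3, [⟨nat_lit 0, [⟨nat_lit 2, nat_lit 3360, nat_lit 3360, nat_lit 9120, nat_lit 9072, nat_lit 9120, R3_190, R11_189, R3_190⟩, ⟨nat_lit 6, nat_lit 13680, nat_lit 3408, nat_lit 15840, nat_lit 6000, nat_lit 14112, R3_330, R1_125, R2_294⟩]⟩, ⟨nat_lit 1, [⟨nat_lit 2, nat_lit 3840, nat_lit 3840, nat_lit 19200, nat_lit 9456, nat_lit 19200, R10_400, R11_197, R10_400⟩, ⟨nat_lit 6, nat_lit 15504, nat_lit 3888, nat_lit 19296, nat_lit 7872, nat_lit 15648, R10_402, R1_164, R1_326⟩]⟩]⟩,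
 ⟨nat_lit 7, [⟨nat_lit 0, [⟨nat_lit 2, nat_lit 3408, nat_lit 13680, nat_lit 14112, nat_lit 6000, nat_lit 15840, R2_294, R1_125, R3_330⟩]⟩, ⟨nat_lit 1, [⟨nat_lit 2, nat_lit 3888, nat_lit 15504, nat_lit 15648, nat_lit 7872, nat_lit 19296, R1_326, R1_164, R10_402⟩]⟩]⟩], [], [], [], [⟨nat_lit 3, [⟨nat_lit 1, [⟨nat_lit 2, nat_lit 4464, nat_lit 21744, nat_lit 19104, nat_lit 7392, nat_lit 4752, R10_398, R11_154, R1_99⟩]⟩]⟩,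
 ⟨nat_lit 7, [⟨nat_lit 1, [⟨nat_lit 2, nat_lit 4944, nat_lit 21792, nat_lit 15600, nat_lit 7824, nat_lit 4176, R1_325, R1_163, R1_87⟩]⟩]⟩]]], [[], [], [], [[], [], [], [], [], [], [], [⟨nat_lit 7, [⟨nat_lit 5, [⟨nat_lit 0, nat_lit 2160, nat_lit 13584, nat_lit 13008, nat_lit 6864, nat_lit 5616, R2_271, R2_143, R9_117⟩]⟩]⟩]], [[], [], [], [], [⟨nat_lit 4, [⟨nat_lit 5, [⟨nat_lit 0, nat_lit 576, nat_lit 1584, nat_lit 3168, nat_lit 3984, nat_lit 3312, R7_66, R6_83, R8_69⟩, ⟨nat_lit 1, nat_lit 8976, nat_lit 1968, nat_lit 3360, nat_lit 1776, nat_lit 13392, R7_70, R8_37, R9_279⟩, ⟨nat_lit 2, nat_lit 6096, nat_lit 2016, nat_lit 3216, nat_lit 4224, nat_lit 14400, R7_67, R4_88, R5_300⟩]⟩]⟩,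
 ⟨nat_lit 5, [⟨nat_lit 5, [⟨nat_lit 0, nat_lit 864, nat_lit 7680, nat_lit 1488, nat_lit 1680, nat_lit 3360, R2_31, R8_35, R8_70⟩, ⟨nat_lit 1, nat_lit 9264, nat_lit 8112, nat_lit 1680, nat_lit 960, nat_lit 13440, R2_35, R9_20, R9_280⟩, ⟨nat_lit 2, nat_lit 6288, nat_lit 8160, nat_lit 1536, nat_lit 336, nat_lit 14448, R2_32, R5_7, R5_301⟩]⟩]⟩], [⟨nat_lit 4, [⟨nat_lit 1, [⟨nat_lit 2, nat_lit 4512, nat_lit 4032, nat_lit 3792, nat_lit 3072, nat_lit 3936, R4_79, R4_64, R1_82⟩]⟩, ⟨nat_lit 5, [⟨nat_lit 0, nat_lit 1392, nat_lit 1536, nat_lit 3696, nat_lit 4224, nat_lit 4608, R7_77, R6_88, R5_96⟩, ⟨nat_lit 2, nat_lit 6816, nat_lit 1824, nat_lit 3744, nat_lit 4320, nat_lit 17904, R7_78, R4_90, R11_373⟩]⟩]⟩,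
 ⟨nat_lit 5, [⟨nat_lit 1, [⟨nat_lit 2, nat_lit 4656, nat_lit 10368, nat_lit 14256, nat_lit 816, nat_lit 4224, R3_297, R5_17, R1_88⟩]⟩, ⟨nat_lit 5, [⟨nat_lit 0, nat_lit 1488, nat_lit 8256, nat_lit 2064, nat_lit 9552, nat_lit 6192, R2_43, R8_199, R5_129⟩, ⟨nat_lit 2, nat_lit 6912, nat_lit 8544, nat_lit 2112, nat_lit 720, nat_lit 17952, R2_44, R5_15, R11_374⟩]⟩]⟩]], [], [], [[], [], [], [], [⟨nat_lit 4, [⟨nat_lit 5, [⟨nat_lit 0, nat_lit 672, nat_lit 16800, nat_lit 9360, nat_lit 14256, nat_lit 8160, R7_195, R13_297, R8_170⟩, ⟨nat_lit 1, nat_lit 9072, nat_lit 16848, nat_lit 9552, nat_lit 11952, nat_lit 13632, R7_199, R9_249, R9_284⟩, ⟨nat_lit 2, nat_lit 6192, nat_lit 16896, nat_lit 9408, nat_lit 10608, nat_lit 14544, R7_196, R3_221, R5_303⟩]⟩]⟩,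
 ⟨nat_lit 5, [⟨nat_lit 5, [⟨nat_lit 0, nat_lit 1056, nat_lit 17472, nat_lit 8544, nat_lit 6336, nat_lit 8304, R2_178, R9_132, R8_173⟩]⟩]⟩,
 ⟨nat_lit 7, [⟨nat_lit 5, [⟨nat_lit 0, nat_lit 1248, nat_lit 18144, nat_lit 3456, nat_lit 2304, nat_lit 8256, R2_72, R3_48, R8_172⟩, ⟨nat_lit 2, nat_lit 6672, nat_lit 18240, nat_lit 3504, nat_lit 6000, nat_lit 14592, R2_73, R10_125, R5_304⟩]⟩]⟩], [⟨nat_lit 4, [⟨nat_lit 1, [⟨nat_lit 2, nat_lit 4560, nat_lit 14304, nat_lit 10128, nat_lit 9744, nat_lit 3984, R4_211, R3_203, R1_83⟩]⟩, ⟨nat_lit 5, [⟨nat_lit 0, nat_lit 1440, nat_lit 12624, nat_lit 10752, nat_lit 14352, nat_lit 4992, R7_224, R13_299, R5_104⟩, ⟨nat_lit 2, nat_lit 6864, nat_lit 12720, nat_lit 10800, nat_lit 10704, nat_lit 18048, R7_225, R3_223, R11_376⟩]⟩]⟩,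
 ⟨nat_lit 5, [⟨nat_lit 5, [⟨nat_lit 0, nat_lit 1632, nat_lit 13008, nat_lit 9840, nat_lit 7536, nat_lit 6720, R2_205, R9_157, R5_140⟩]⟩]⟩,
 ⟨nat_lit 7, [⟨nat_lit 5, [⟨nat_lit 0, nat_lit 1776, nat_lit 13440, nat_lit 4848, nat_lit 9936, nat_lit 5664, R2_101, R3_207, R5_118⟩, ⟨nat_lit 2, nat_lit 7200, nat_lit 13536, nat_lit 4896, nat_lit 6720, nat_lit 18096, R2_102, R10_140, R11_377⟩]⟩]⟩], [], [⟨nat_lit 4, [⟨nat_lit 5, [⟨nat_lit 0, nat_lit 1872, nat_lit 1392, nat_lit 10128, nat_lit 14304, nat_lit 4128, R7_211, R13_298, R9_86⟩]⟩]⟩,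
 ⟨nat_lit 7, [⟨nat_lit 5, [⟨nat_lit 0, nat_lit 2304, nat_lit 6576, nat_lit 4320, nat_lit 7200, nat_lit 5280, R2_90, R3_150, R9_110⟩]⟩]⟩]]], [[], [], [], [], [[], [], [], [], [], [⟨nat_lit 5, [⟨nat_lit 1, [⟨nat_lit 2, nat_lit 4704, nat_lit 7104, nat_lit 1776, nat_lit 7776, nat_lit 4272, R10_37, R5_162, R1_89⟩]⟩, ⟨nat_lit 5, [⟨nat_lit 0, nat_lit 1536, nat_lit 6240, nat_lit 1536, nat_lit 10080, nat_lit 6240, R1_32, R8_210, R5_130⟩, ⟨nat_lit 2, nat_lit 6960, nat_lit 7152, nat_lit 1584, nat_lit 7680, nat_lit 21840, R1_33, R5_160, R11_455⟩]⟩]⟩]], [[], [], [], [], [], [⟨nat_lit 1, [⟨nat_lit 1, [⟨nat_lit 2, nat_lit 4176, nat_lit 21792, nat_lit 15600, nat_lit 7824, nat_lit 4944, R1_325, R1_163, R1_103⟩]⟩]⟩,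
 ⟨nat_lit 5, [⟨nat_lit 1, [⟨nat_lit 2, nat_lit 4752, nat_lit 21744, nat_lit 7968, nat_lit 7392, nat_lit 4464, R10_166, R11_154, R1_93⟩]⟩, ⟨nat_lit 5, [⟨nat_lit 0, nat_lit 1584, nat_lit 21840, nat_lit 6960, nat_lit 7680, nat_lit 7152, R1_145, R5_160, R5_149⟩, ⟨nat_lit 2, nat_lit 7008, nat_lit 22176, nat_lit 7008, nat_lit 7296, nat_lit 22176, R1_146, R11_152, R11_462⟩]⟩]⟩]]], [[[⟨nat_lit 6, [⟨nat_lit 6, [⟨nat_lit 4, nat_lit 12768, nat_lit 4464, nat_lit 432, nat_lit 1344, nat_lit 576, R1_9, R4_28, R4_12⟩, ⟨nat_lit 7, nat_lit 16032, nat_lit 10752, nat_lit 8688, nat_lit 576, nat_lit 2160, R1_181, R5_12, R5_45⟩]⟩]⟩], [], [], [⟨nat_lit 6, [⟨nat_lit 6, [⟨nat_lit 7, nat_lit 16368, nat_lit 7344, nat_lit 8784, nat_lit 7536, nat_lit 21600, R1_183, R5_157, R11_450⟩]⟩]⟩]], [], [[⟨nat_lit 6, [⟨nat_lit 6, [⟨nat_lit 4, nat_lit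 12864, nat_lit 17328, nat_lit 480, nat_lit 4800, nat_lit 6960, R1_10, R3_100, R4_145⟩]⟩]⟩], [], [⟨nat_lit 6, [⟨nat_lit 6, [⟨nat_lit 4, nat_lit 13008, nat_lit 18912, nat_lit 528, nat_lit 5904, nat_lit 5136, R1_11, R3_123, R3_107⟩, ⟨nat_lit 5, nat_lit 15744, nat_lit 18960, nat_lit 11520, nat_lit 12576, nat_lit 19392, R1_240, R10_262, R10_404⟩]⟩]⟩]], [[], [], [], [⟨nat_lit 4, [⟨nat_lit 4, [⟨nat_lit 3, nat_lit 10944, nat_lit 20928, nat_lit 15120, nat_lit 10656, nat_lit 14064, R7_315, R2_222, R2_293⟩]⟩]⟩,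
 ⟨nat_lit 6, [⟨nat_lit 4, [⟨nat_lit 3, nat_lit 11040, nat_lit 21024, nat_lit 14304, nat_lit 11040, nat_lit 14304, R2_298, R1_230, R2_298⟩]⟩, ⟨nat_lit 6, [⟨nat_lit 3, nat_lit 11424, nat_lit 21264, nat_lit 15840, nat_lit 11424, nat_lit 15840, R1_330, R1_238, R1_330⟩, ⟨nat_lit 7, nat_lit 16512, nat_lit 21216, nat_lit 8832, nat_lit 16416, nat_lit 21696, R1_184, R11_342, R11_452⟩]⟩]⟩,
 ⟨nat_lit 7, [⟨nat_lit 4, [⟨nat_lit 3, nat_lit 11088, nat_lit 20976, nat_lit 12768, nat_lit 10560, nat_lit 14352, R2_266, R12_220, R2_299⟩]⟩, ⟨nat_lit 7, [⟨nat_lit 0, nat_lit 2448, nat_lit 21072, nat_lit 12480, nat_lit 6240, nat_lit 5472, R1_260, R2_130, R2_114⟩, ⟨nat_lit 2, nat_lit 7824, nat_lit 21168, nat_lit 15600, nat_lit 4944, nat_lit 4176, R1_325, R1_103, R1_87⟩, ⟨nat_lit 3, nat_lit 12288, nat_lit 21120, nat_lit 14112, nat_lit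 10656, nat_lit 15312, R1_294, R12_222, R12_319⟩]⟩]⟩], [], [], [], [⟨nat_lit 4, [⟨nat_lit 4, [⟨nat_lit 3, nat_lit 11136, nat_lit 13152, nat_lit 15072, nat_lit 10608, nat_lit 15360, R7_314, R2_221, R3_320⟩]⟩]⟩,
 ⟨nat_lit 6, [⟨nat_lit 4, [⟨nat_lit 3, nat_lit 11232, nat_lit 13776, nat_lit 14256, nat_lit 10992, nat_lit 15696, R2_297, R1_229, R3_327⟩]⟩, ⟨nat_lit 6, [⟨nat_lit 3, nat_lit 11472, nat_lit 15552, nat_lit 15792, nat_lit 11376, nat_lit 19440, R1_329, R1_237, R10_405⟩]⟩]⟩,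
 ⟨nat_lit 7, [⟨nat_lit 4, [⟨nat_lit 0, nat_lit 336, nat_lit 13584, nat_lit 12336, nat_lit 3936, nat_lit 19728, R2_257, R2_82, R13_411⟩, ⟨nat_lit 2, nat_lit 6000, nat_lit 13680, nat_lit 14112, nat_lit 3408, nat_lit 15840, R2_294, R1_71, R3_330⟩, ⟨nat_lit 3, nat_lit 11328, nat_lit 13632, nat_lit 13872, nat_lit 10608, nat_lit 15648, R2_289, R12_221, R3_326⟩]⟩, ⟨nat_lit 5, [⟨nat_lit 0, nat_lit 2208, nat_lit 14928, nat_lit 13728, nat_lit 6960, nat_lit 5712, R12_286, R2_145, R9_119⟩]⟩, ⟨nat_lit 7, [⟨nat_lit 0, nat_lit 2496, nat_lit 15456, nat_lit 12912, nat_lit 5184, nat_lit 13392, R1_269, R2_108, R3_279⟩, ⟨nat_lit 2, nat_lit 7872, nat_lit 15504, nat_lit 15648, nat_lit 3888, nat_lit 5184, R1_326, R1_81, R10_108⟩]⟩]⟩]], [[], [], [], [], [⟨nat_lit 4, [⟨nat_lit 4, [⟨nat_lit 0, nat_lit 0, nat_lit 3216, nat_lit 13488,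 nat_lit 10704, nat_lit 13680, R7_281, R6_223, R6_285⟩, ⟨nat_lit 1, nat_lit 7968, nat_lit 9120, nat_lit 16800, nat_lit 9648, nat_lit 13392, R7_350, R8_201, R8_279⟩, ⟨nat_lit 2, nat_lit 5808, nat_lit 11664, nat_lit 14304, nat_lit 11568, nat_lit 13440, R7_298, R4_241, R4_280⟩]⟩, ⟨nat_lit 5, [⟨nat_lit 0, nat_lit 624, nat_lit 4080, nat_lit 8160, nat_lit 11472, nat_lit 3408, R14_170, R6_239, R8_71⟩, ⟨nat_lit 1, nat_lit 9024, nat_lit 10416, nat_lit 8688, nat_lit 9744, nat_lit 15072, R14_181, R8_203, R9_314⟩, ⟨nat_lit 2, nat_lit 6144, nat_lit 11712, nat_lit 8448, nat_lit 12000, nat_lit 15984, R14_176, R4_250, R5_333⟩]⟩]⟩,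
 ⟨nat_lit 6, [⟨nat_lit 4, [⟨nat_lit 0, nat_lit 96, nat_lit 3264, nat_lit 12192, nat_lit 432, nat_lit 14064, R2_254, R4_9, R6_293⟩, ⟨nat_lit 1, nat_lit 8064, nat_lit 9168, nat_lit 15024, nat_lit 528, nat_lit 13440, R2_313, R5_11, R8_280⟩]⟩, ⟨nat_lit 5, [⟨nat_lit 0, nat_lit 768, nat_lit 4176, nat_lit 2928, nat_lit 2736, nat_lit 3456, R12_61, R4_57, R8_72⟩, ⟨nat_lit 1, nat_lit 9168, nat_lit 10512, nat_lit 4320, nat_lit 672, nat_lit 15120, R12_90, R5_14, R9_315⟩]⟩, ⟨nat_lit 6, [⟨nat_lit 0, nat_lit 432, nat_lit 4464, nat_lit 12768, nat_lit 1344, nat_lit 576, R1_266, R4_28, R4_12⟩, ⟨nat_lit 1, nat_lit 8688, nat_lit 10752, nat_lit 16032, nat_lit 576, nat_lit 2160, R1_334, R5_12, R5_45⟩]⟩]⟩], [], [⟨nat_lit 4, [⟨nat_lit 4, [⟨nat_lit 1, nat_lit 8208, nat_lit 6336, nat_lit 17088, nat_lit 10224, nat_lit 16320, R7_356, R8_213,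 R5_340⟩]⟩]⟩,
 ⟨nat_lit 6, [⟨nat_lit 4, [⟨nat_lit 1, nat_lit 8352, nat_lit 7200, nat_lit 15360, nat_lit 7488, nat_lit 16656, R2_320, R5_156, R5_347⟩]⟩, ⟨nat_lit 6, [⟨nat_lit 1, nat_lit 8784, nat_lit 7344, nat_lit 16368, nat_lit 7536, nat_lit 21600, R1_341, R5_157, R11_450⟩]⟩]⟩]], [], [[], [], [⟨nat_lit 6, [⟨nat_lit 6, [⟨nat_lit 5, nat_lit 15792, nat_lit 15552, nat_lit 11472, nat_lit 11376, nat_lit 19440, R1_239, R1_237, R10_405⟩]⟩]⟩], [], [], [], [⟨nat_lit 4, [⟨nat_lit 4, [⟨nat_lit 1, nat_lit 8256, nat_lit 18576, nat_lit 17232, nat_lit 12912, nat_lit 16416, R7_359, R5_269, R5_342⟩]⟩]⟩,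
 ⟨nat_lit 6, [⟨nat_lit 4, [⟨nat_lit 1, nat_lit 8400, nat_lit 19056, nat_lit 15504, nat_lit 15840, nat_lit 16752, R2_323, R11_330, R5_349⟩]⟩, ⟨nat_lit 6, [⟨nat_lit 1, nat_lit 8832, nat_lit 21216, nat_lit 16512, nat_lit 16416, nat_lit 21696, R1_344, R11_342, R11_452⟩, ⟨nat_lit 5, nat_lit 15840, nat_lit 21264, nat_lit 11424, nat_lit 11424, nat_lit 15840, R1_238, R1_238, R1_330⟩]⟩]⟩]], [[], [], [], [], [⟨nat_lit 4, [⟨nat_lit 4, [⟨nat_lit 0, nat_lit 48, nat_lit 15888, nat_lit 13584, nat_lit 13536, nat_lit 13776, R7_283, R13_282, R6_287⟩, ⟨nat_lit 1, nat_lit 8016, nat_lit 16224, nat_lit 16896, nat_lit 11040, nat_lit 13632, R7_352, R9_230, R8_284⟩, ⟨nat_lit 2, nat_lit 5856, nat_lit 16656, nat_lit 14400, nat_lit 10272, nat_lit 13584, R7_300, R3_214, R4_283⟩]⟩, ⟨nat_lit 5, [⟨nat_lit 0, nat_lit 720, nat_lit 16848, nat_lit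 9264, nat_lit 14784, nat_lit 8496, R14_193, R13_308, R8_177⟩, ⟨nat_lit 1, nat_lit 9120, nat_lit 17040, nat_lit 10368, nat_lit 12624, nat_lit 15216, R14_216, R9_263, R9_317⟩, ⟨nat_lit 2, nat_lit 6240, nat_lit 17184, nat_lit 9744, nat_lit 10800, nat_lit 16080, R14_203, R3_225, R5_335⟩]⟩]⟩,
 ⟨nat_lit 6, [⟨nat_lit 4, [⟨nat_lit 0, nat_lit 144, nat_lit 15984, nat_lit 12288, nat_lit 3648, nat_lit 14208, R2_256, R3_76, R6_296⟩]⟩, ⟨nat_lit 5, [⟨nat_lit 0, nat_lit 816, nat_lit 16992, nat_lit 3408, nat_lit 7056, nat_lit 8592, R12_71, R3_147, R8_179⟩]⟩, ⟨nat_lit 6, [⟨nat_lit 0, nat_lit 480, nat_lit 17328, nat_lit 12864, nat_lit 4800, nat_lit 6960, R1_268, R3_100, R4_145⟩]⟩]⟩,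
 ⟨nat_lit 7, [⟨nat_lit 4, [⟨nat_lit 0, nat_lit 192, nat_lit 15936, nat_lit 11904, nat_lit 624, nat_lit 13968, R2_248, R3_13, R6_291⟩, ⟨nat_lit 2, nat_lit 5904, nat_lit 16704, nat_lit 13920, nat_lit 3360, nat_lit 13776, R2_290, R10_70, R4_287⟩]⟩, ⟨nat_lit 5, [⟨nat_lit 0, nat_lit 1296, nat_lit 16896, nat_lit 3072, nat_lit 2736, nat_lit 8544, R12_64, R3_57, R8_178⟩, ⟨nat_lit 2, nat_lit 6720, nat_lit 17232, nat_lit 3600, nat_lit 6096, nat_lit 16128, R12_75, R10_127, R5_336⟩]⟩]⟩], [], [], [⟨nat_lit 4, [⟨nat_lit 4, [⟨nat_lit 0, nat_lit 240, nat_lit 14736, nat_lit 13680, nat_lit 13584, nat_lit 19200, R7_285, R13_283, R13_400⟩, ⟨nat_lit 1, nat_lit 8544, nat_lit 14832, nat_lit 17040, nat_lit 11088, nat_lit 15552, R7_355, R9_231, R9_324⟩, ⟨nat_lit 2, nat_lit 5952, nat_lit 14880, nat_lit 14544, nat_lit 10320, nat_lit 15456,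 R7_303, R3_215, R3_322⟩, ⟨nat_lit 3, nat_lit 11184, nat_lit 14784, nat_lit 15024, nat_lit 10416, nat_lit 15408, R7_313, R3_217, R3_321⟩]⟩, ⟨nat_lit 5, [⟨nat_lit 0, nat_lit 1920, nat_lit 16368, nat_lit 9312, nat_lit 14832, nat_lit 4176, R14_194, R13_309, R9_87⟩]⟩]⟩,
 ⟨nat_lit 6, [⟨nat_lit 4, [⟨nat_lit 0, nat_lit 288, nat_lit 15504, nat_lit 12432, nat_lit 4176, nat_lit 19584, R2_259, R3_87, R13_408⟩, ⟨nat_lit 3, nat_lit 11280, nat_lit 15552, nat_lit 14208, nat_lit 12288, nat_lit 15744, R2_296, R10_256, R3_328⟩]⟩, ⟨nat_lit 5, [⟨nat_lit 0, nat_lit 1968, nat_lit 18336, nat_lit 3456, nat_lit 7440, nat_lit 5040, R12_72, R3_155, R9_105⟩]⟩, ⟨nat_lit 6, [⟨nat_lit 0, nat_lit 528, nat_lit 18912, nat_lit 13008, nat_lit 5904, nat_lit 5136, R1_271, R3_123, R3_107⟩, ⟨nat_lit 3, nat_lit 11520, nat_lit 18960, nat_lit 15744, nat_lit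 12576, nat_lit 19392, R1_328, R10_262, R10_404⟩]⟩]⟩,
 ⟨nat_lit 7, [⟨nat_lit 4, [⟨nat_lit 0, nat_lit 384, nat_lit 15216, nat_lit 12384, nat_lit 4224, nat_lit 19680, R2_258, R3_88, R13_410⟩, ⟨nat_lit 2, nat_lit 6048, nat_lit 15312, nat_lit 14160, nat_lit 3936, nat_lit 15792, R2_295, R10_82, R3_329⟩]⟩, ⟨nat_lit 5, [⟨nat_lit 0, nat_lit 2352, nat_lit 17952, nat_lit 3312, nat_lit 7488, nat_lit 5328, R12_69, R3_156, R9_111⟩]⟩, ⟨nat_lit 7, [⟨nat_lit 0, nat_lit 2544, nat_lit 18768, nat_lit 12960, nat_lit 5952, nat_lit 5088, R1_270, R3_124, R3_106⟩, ⟨nat_lit 2, nat_lit 7920, nat_lit 18864, nat_lit 15696, nat_lit 5040, nat_lit 4272, R1_327, R10_105, R10_89⟩]⟩]⟩]]], [[], [], [], [[], [], [], [], [], [⟨nat_lit 7, [⟨nat_lit 1, [⟨nat_lit 2, nat_lit 4992, nat_lit 15888, nat_lit 21360, nat_lit 7776, nat_lit 4128, R11_445, R1_162,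 R1_86⟩]⟩, ⟨nat_lit 5, [⟨nat_lit 0, nat_lit 1728, nat_lit 15936, nat_lit 15312, nat_lit 7056, nat_lit 5904, R1_319, R2_147, R5_123⟩, ⟨nat_lit 2, nat_lit 7152, nat_lit 16320, nat_lit 15408, nat_lit 5760, nat_lit 21504, R1_321, R1_120, R11_448⟩]⟩]⟩]], [], [], [], [[], [], [], [], [], [⟨nat_lit 4, [⟨nat_lit 1, [⟨nat_lit 2, nat_lit 4608, nat_lit 19488, nat_lit 5568, nat_lit 10032, nat_lit 4032, R5_116, R3_209, R1_84⟩]⟩]⟩,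
 ⟨nat_lit 7, [⟨nat_lit 1, [⟨nat_lit 2, nat_lit 5040, nat_lit 19536, nat_lit 21312, nat_lit 8448, nat_lit 4080, R11_444, R10_176, R1_85⟩]⟩, ⟨nat_lit 5, [⟨nat_lit 0, nat_lit 1824, nat_lit 19632, nat_lit 3552, nat_lit 10080, nat_lit 5712, R1_74, R3_210, R5_119⟩, ⟨nat_lit 2, nat_lit 7248, nat_lit 19968, nat_lit 3600, nat_lit 6768, nat_lit 21408, R1_75, R10_141, R11_446⟩]⟩]⟩]]]]
noncomputable def N6437 : T3 (List N0) := [[[[], [⟨nat_lit 0, [⟨nat_lit 5, [⟨nat_lit 6, nat_lit 12000, nat_lit 576, nat_lit 14160, nat_lit 2880, nat_lit 13200, R6_295, R7_60, R1_275⟩]⟩]⟩], [], [], [], [⟨nat_lit 0, [⟨nat_lit 5, [⟨nat_lit 2, nat_lit 12192, nat_lit 432, nat_lit 14064, nat_lit 3264, nat_lit 96, R6_293, R4_68, R1_2⟩, ⟨nat_lit 6, nat_lit 12144, nat_lit 384, nat_lit 14112, nat_lit 2928, nat_lit 192, R6_294, R7_61, R10_4⟩]⟩]⟩]],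 [[], [⟨nat_lit 0, [⟨nat_lit 5, [⟨nat_lit 6, nat_lit 12048, nat_lit 0, nat_lit 14304, nat_lit 1008, nat_lit 13440, R6_298, R2_21, R1_280⟩]⟩]⟩,
 ⟨nat_lit 1, [⟨nat_lit 5, [⟨nat_lit 6, nat_lit 12336, nat_lit 3936, nat_lit 19728, nat_lit 336, nat_lit 13584, R13_411, R1_7, R1_283⟩]⟩]⟩], [], [], [], [⟨nat_lit 0, [⟨nat_lit 5, [⟨nat_lit 2, nat_lit 12288, nat_lit 3648, nat_lit 14208, nat_lit 15984, nat_lit 144, R6_296, R3_333, R1_3⟩, ⟨nat_lit 6, nat_lit 12240, nat_lit 3696, nat_lit 14256, nat_lit 1056, nat_lit 240, R6_297, R2_22, R10_5⟩]⟩]⟩,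
 ⟨nat_lit 1, [⟨nat_lit 4, [⟨nat_lit 2, nat_lit 11952, nat_lit 576, nat_lit 14016, nat_lit 288, nat_lit 960, R6_292, R10_6, R2_20⟩, ⟨nat_lit 6, nat_lit 11904, nat_lit 624, nat_lit 13968, nat_lit 192, nat_lit 15936, R6_291, R1_4, R3_332⟩]⟩, ⟨nat_lit 5, [⟨nat_lit 2, nat_lit 12432, nat_lit 4176, nat_lit 19632, nat_lit 624, nat_lit 288, R13_409, R10_13, R1_6⟩, ⟨nat_lit 6, nat_lit 12384, nat_lit 4224, nat_lit 19680, nat_lit 384, nat_lit 576, R13_410, R1_8, R10_12⟩]⟩]⟩]], [], [[], [⟨nat_lit 0, [⟨nat_lit 5, [⟨nat_lit 6, nat_lit 12096, nat_lit 1728, nat_lit 14352, nat_lit 672, nat_lit 13296, R6_299, R2_14, R1_277⟩]⟩]⟩]]], [[], [[], [⟨nat_lit 1, [⟨nat_lit 5, [⟨nat_lit 6, nat_lit 14112, nat_lit 3408, nat_lit 15840, nat_lit 6000, nat_lit 13680, R3_330, R1_125, R1_285⟩]⟩]⟩], [], [], [], [⟨nat_lit 1, [⟨nat_lit 4, [⟨nat_lit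 2, nat_lit 13968, nat_lit 3408, nat_lit 13824, nat_lit 7104, nat_lit 10896, R4_288, R10_148, R2_227⟩, ⟨nat_lit 6, nat_lit 13920, nat_lit 3360, nat_lit 13776, nat_lit 5904, nat_lit 16704, R4_287, R1_123, R3_348⟩]⟩, ⟨nat_lit 5, [⟨nat_lit 2, nat_lit 14208, nat_lit 3984, nat_lit 15744, nat_lit 7296, nat_lit 11280, R3_328, R10_152, R1_235⟩, ⟨nat_lit 6, nat_lit 14160, nat_lit 3936, nat_lit 15792, nat_lit 6048, nat_lit 12528, R3_329, R1_126, R10_261⟩]⟩]⟩]], [], [], [], [[], [], [], [], [], [⟨nat_lit 1, [⟨nat_lit 4, [⟨nat_lit 2, nat_lit 14016, nat_lit 10896, nat_lit 13872, nat_lit 13728, nat_lit 10848, R4_289, R1_286, R2_226⟩]⟩, ⟨nat_lit 5, [⟨nat_lit 2, nat_lit 14256, nat_lit 10992, nat_lit 15696, nat_lit 13776, nat_lit 11232, R3_327, R1_287, R1_234⟩]⟩]⟩,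
 ⟨nat_lit 5, [⟨nat_lit 4, [⟨nat_lit 2, nat_lit 14064, nat_lit 10944, nat_lit 15120, nat_lit 20928, nat_lit 10656, R7_315, R11_436, R2_222⟩]⟩, ⟨nat_lit 5, [⟨nat_lit 2, nat_lit 14304, nat_lit 11040, nat_lit 14304, nat_lit 21024, nat_lit 11040, R2_298, R11_438, R1_230⟩]⟩, ⟨nat_lit 6, [⟨nat_lit 2, nat_lit 14352, nat_lit 11088, nat_lit 12768, nat_lit 20976, nat_lit 6384, R2_266, R11_437, R12_133⟩]⟩]⟩]]], [[[⟨nat_lit 0, [⟨nat_lit 1, [⟨nat_lit 6, nat_lit 12480, nat_lit 11808, nat_lit 15168, nat_lit 12144, nat_lit 14832, R7_316, R7_253, R5_309⟩]⟩]⟩,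
 ⟨nat_lit 2, [⟨nat_lit 1, [⟨nat_lit 4, nat_lit 12816, nat_lit 2592, nat_lit 12816, nat_lit 4272, nat_lit 1008, R2_267, R7_89, R8_21⟩, ⟨nat_lit 6, nat_lit 12864, nat_lit 11904, nat_lit 13152, nat_lit 13824, nat_lit 14880, R2_274, R14_288, R5_310⟩]⟩]⟩], [⟨nat_lit 0, [⟨nat_lit 1, [⟨nat_lit 6, nat_lit 12576, nat_lit 12576, nat_lit 15216, nat_lit 12192, nat_lit 19152, R7_317, R7_254, R11_399⟩]⟩, ⟨nat_lit 5, [⟨nat_lit 6, nat_lit 13728, nat_lit 12624, nat_lit 13920, nat_lit 12336, nat_lit 13248, R4_290, R7_257, R1_276⟩]⟩]⟩,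
 ⟨nat_lit 2, [⟨nat_lit 1, [⟨nat_lit 4, nat_lit 13152, nat_lit 14112, nat_lit 12864, nat_lit 12720, nat_lit 14880, R2_268, R7_265, R5_310⟩, ⟨nat_lit 6, nat_lit 13200, nat_lit 14832, nat_lit 13200, nat_lit 14400, nat_lit 19200, R2_275, R14_300, R11_400⟩]⟩]⟩]], [[], [⟨nat_lit 0, [⟨nat_lit 1, [⟨nat_lit 6, nat_lit 12624, nat_lit 9840, nat_lit 15264, nat_lit 10704, nat_lit 20304, R7_318, R2_223, R11_423⟩]⟩, ⟨nat_lit 5, [⟨nat_lit 6, nat_lit 13776, nat_lit 9888, nat_lit 13968, nat_lit 10944, nat_lit 13488, R4_291, R2_228, R1_281⟩]⟩]⟩,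
 ⟨nat_lit 1, [⟨nat_lit 1, [⟨nat_lit 6, nat_lit 12768, nat_lit 10560, nat_lit 14352, nat_lit 11088, nat_lit 20448, R2_299, R1_231, R11_426⟩]⟩, ⟨nat_lit 5, [⟨nat_lit 6, nat_lit 13872, nat_lit 10608, nat_lit 15648, nat_lit 11328, nat_lit 13632, R3_326, R1_236, R1_284⟩]⟩]⟩,
 ⟨nat_lit 2, [⟨nat_lit 1, [⟨nat_lit 6, nat_lit 13248, nat_lit 11904, nat_lit 13248, nat_lit 11472, nat_lit 20352, R2_276, R12_239, R11_424⟩]⟩]⟩]], [[⟨nat_lit 2, [⟨nat_lit 1, [⟨nat_lit 4, nat_lit 12912, nat_lit 720, nat_lit 13056, nat_lit 2688, nat_lit 6144, R2_272, R2_56, R8_128⟩, ⟨nat_lit 5, nat_lit 13008, nat_lit 6864, nat_lit 13584, nat_lit 2160, nat_lit 14688, R2_283, R1_45, R9_306⟩, ⟨nat_lit 6, nat_lit 12960, nat_lit 10368, nat_lit 13440, nat_lit 9648, nat_lit 15840, R2_280, R12_201, R5_330⟩]⟩]⟩], [⟨nat_lit 2, [⟨nat_lit 1, [⟨nat_lit 4, nat_lit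 13296, nat_lit 10080, nat_lit 13104, nat_lit 11424, nat_lit 15360, R2_273, R2_238, R5_320⟩, ⟨nat_lit 6, nat_lit 13344, nat_lit 12144, nat_lit 13488, nat_lit 11520, nat_lit 20160, R2_281, R12_240, R11_420⟩]⟩]⟩]], [[⟨nat_lit 0, [⟨nat_lit 1, [⟨nat_lit 6, nat_lit 12528, nat_lit 10992, nat_lit 15312, nat_lit 11568, nat_lit 15312, R7_319, R2_241, R5_319⟩]⟩]⟩,
 ⟨nat_lit 2, [⟨nat_lit 1, [⟨nat_lit 4, nat_lit 13056, nat_lit 2688, nat_lit 12912, nat_lit 720, nat_lit 6912, R2_269, R2_15, R8_144⟩, ⟨nat_lit 6, nat_lit 13104, nat_lit 11424, nat_lit 13296, nat_lit 10080, nat_lit 15360, R2_277, R12_210, R5_320⟩]⟩]⟩], [⟨nat_lit 0, [⟨nat_lit 1, [⟨nat_lit 6, nat_lit 12672, nat_lit 1872, nat_lit 15360, nat_lit 11664, nat_lit 19632, R7_320, R2_243, R11_409⟩]⟩, ⟨nat_lit 5, [⟨nat_lit 6, nat_lit 13824, nat_lit 2160, nat_lit 14016, nat_lit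 10320, nat_lit 13344, R4_292, R2_215, R1_278⟩]⟩]⟩,
 ⟨nat_lit 2, [⟨nat_lit 1, [⟨nat_lit 4, nat_lit 13440, nat_lit 9648, nat_lit 12960, nat_lit 10368, nat_lit 15840, R2_270, R2_216, R5_330⟩, ⟨nat_lit 6, nat_lit 13488, nat_lit 11520, nat_lit 13344, nat_lit 12144, nat_lit 19680, R2_278, R12_253, R11_410⟩]⟩]⟩], [], [⟨nat_lit 2, [⟨nat_lit 1, [⟨nat_lit 4, nat_lit 13584, nat_lit 2160, nat_lit 13008, nat_lit 6864, nat_lit 14688, R2_271, R2_143, R9_306⟩]⟩]⟩]]], [[[], [], [], [], [], [⟨nat_lit 0, [⟨nat_lit 4, [⟨nat_lit 2, nat_lit 14448, nat_lit 432, nat_lit 12864, nat_lit 8832, nat_lit 7536, R6_268, R4_184, R2_157⟩, ⟨nat_lit 6, nat_lit 14400, nat_lit 2544, nat_lit 12288, nat_lit 8736, nat_lit 11088, R6_256, R7_182, R3_231⟩]⟩, ⟨nat_lit 5, [⟨nat_lit 2, nat_lit 15024, nat_lit 528, nat_lit 14832, nat_lit 9168, nat_lit 8064,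 R8_309, R4_191, R1_168⟩, ⟨nat_lit 6, nat_lit 14976, nat_lit 2928, nat_lit 14880, nat_lit 9024, nat_lit 9024, R8_310, R7_188, R10_188⟩]⟩]⟩,
 ⟨nat_lit 3, [⟨nat_lit 4, [⟨nat_lit 2, nat_lit 14736, nat_lit 7392, nat_lit 12720, nat_lit 6912, nat_lit 7824, R4_265, R5_144, R2_163⟩]⟩, ⟨nat_lit 5, [⟨nat_lit 2, nat_lit 15360, nat_lit 7488, nat_lit 16656, nat_lit 7200, nat_lit 8352, R5_347, R5_150, R1_174⟩]⟩]⟩]], [], [], [[], [⟨nat_lit 0, [⟨nat_lit 5, [⟨nat_lit 6, nat_lit 14928, nat_lit 1200, nat_lit 15072, nat_lit 6480, nat_lit 13392, R8_314, R2_135, R1_279⟩]⟩]⟩,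
 ⟨nat_lit 3, [⟨nat_lit 5, [⟨nat_lit 6, nat_lit 15312, nat_lit 6624, nat_lit 16560, nat_lit 5184, nat_lit 13536, R5_345, R1_108, R1_282⟩]⟩]⟩], [], [], [], [⟨nat_lit 0, [⟨nat_lit 4, [⟨nat_lit 6, nat_lit 14592, nat_lit 15744, nat_lit 12672, nat_lit 3216, nat_lit 11184, R6_264, R2_67, R3_233⟩]⟩, ⟨nat_lit 5, [⟨nat_lit 6, nat_lit 15168, nat_lit 15888, nat_lit 15024, nat_lit 6432, nat_lit 9120, R8_313, R2_134, R10_190⟩]⟩]⟩,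
 ⟨nat_lit 3, [⟨nat_lit 4, [⟨nat_lit 2, nat_lit 14880, nat_lit 15696, nat_lit 12768, nat_lit 6528, nat_lit 7872, R4_266, R11_136, R2_164⟩, ⟨nat_lit 6, nat_lit 14832, nat_lit 15792, nat_lit 13200, nat_lit 2688, nat_lit 15216, R4_275, R1_56, R3_317⟩]⟩, ⟨nat_lit 5, [⟨nat_lit 2, nat_lit 15504, nat_lit 15840, nat_lit 16752, nat_lit 6816, nat_lit 8400, R5_349, R11_142, R1_175⟩, ⟨nat_lit 6, nat_lit 15456, nat_lit 15936, nat_lit 16608, nat_lit 5136, nat_lit 9408, R5_346, R1_107, R10_196⟩]⟩]⟩]]], [[], [], [], [[], [], [], [], [], [], [], [⟨nat_lit 0, [⟨nat_lit 3, [⟨nat_lit 6, nat_lit 672, nat_lit 1728, nat_lit 7392, nat_lit 12096, nat_lit 13296, R6_154, R2_252, R1_277⟩]⟩]⟩,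
 ⟨nat_lit 2, [⟨nat_lit 0, [⟨nat_lit 7, nat_lit 0, nat_lit 1008, nat_lit 6768, nat_lit 13440, nat_lit 12048, R6_141, R1_280, R2_251⟩]⟩, ⟨nat_lit 2, [⟨nat_lit 7, nat_lit 48, nat_lit 3024, nat_lit 7344, nat_lit 15360, nat_lit 12624, R4_153, R1_320, R1_263⟩]⟩, ⟨nat_lit 3, [⟨nat_lit 4, nat_lit 720, nat_lit 2688, nat_lit 6912, nat_lit 13056, nat_lit 12912, R8_144, R2_272, R2_269⟩, ⟨nat_lit 6, nat_lit 768, nat_lit 2784, nat_lit 7008, nat_lit 12576, nat_lit 14256, R8_146, R12_262, R1_297⟩, ⟨nat_lit 7, nat_lit 816, nat_lit 2736, nat_lit 6960, nat_lit 14400, nat_lit 12432, R8_145, R1_300, R12_259⟩]⟩]⟩,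
 ⟨nat_lit 3, [⟨nat_lit 3, [⟨nat_lit 6, nat_lit 864, nat_lit 2256, nat_lit 8112, nat_lit 12672, nat_lit 15264, R4_169, R1_264, R1_318⟩]⟩, ⟨nat_lit 7, [⟨nat_lit 2, nat_lit 2976, nat_lit 528, nat_lit 8064, nat_lit 17760, nat_lit 12384, R7_168, R11_370, R1_258⟩, ⟨nat_lit 6, nat_lit 2928, nat_lit 576, nat_lit 8112, nat_lit 12432, nat_lit 17568, R7_169, R1_259, R11_366⟩]⟩]⟩,
 ⟨nat_lit 4, [⟨nat_lit 6, [⟨nat_lit 3, nat_lit 1728, nat_lit 672, nat_lit 7392, nat_lit 12096, nat_lit 13296, R6_154, R2_252, R1_277⟩]⟩]⟩,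
 ⟨nat_lit 6, [⟨nat_lit 2, [⟨nat_lit 3, nat_lit 576, nat_lit 2928, nat_lit 8112, nat_lit 12432, nat_lit 17568, R7_169, R1_259, R11_366⟩, ⟨nat_lit 7, nat_lit 528, nat_lit 2976, nat_lit 8064, nat_lit 17760, nat_lit 12384, R7_168, R11_370, R1_258⟩]⟩, ⟨nat_lit 6, [⟨nat_lit 3, nat_lit 2256, nat_lit 864, nat_lit 8112, nat_lit 12672, nat_lit 15264, R4_169, R1_264, R1_318⟩]⟩]⟩,
 ⟨nat_lit 7, [⟨nat_lit 4, [⟨nat_lit 2, nat_lit 1008, nat_lit 0, nat_lit 6768, nat_lit 13440, nat_lit 12048, R6_141, R1_280, R2_251⟩]⟩, ⟨nat_lit 6, [⟨nat_lit 0, nat_lit 2688, nat_lit 720, nat_lit 6912, nat_lit 13056, nat_lit 12912, R8_144, R2_272, R2_269⟩, ⟨nat_lit 2, nat_lit 2736, nat_lit 816, nat_lit 6960, nat_lit 14400, nat_lit 12432, R8_145, R1_300, R12_259⟩, ⟨nat_lit 3, nat_lit 2784, nat_lit 768, nat_lit 7008, nat_lit 12576, nat_lit 14256,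 R8_146, R12_262, R1_297⟩]⟩, ⟨nat_lit 7, [⟨nat_lit 2, nat_lit 3024, nat_lit 48, nat_lit 7344, nat_lit 15360, nat_lit 12624, R4_153, R1_320, R1_263⟩]⟩]⟩]], [[], [], [], [], [⟨nat_lit 4, [⟨nat_lit 6, [⟨nat_lit 0, nat_lit 1104, nat_lit 2304, nat_lit 7440, nat_lit 3456, nat_lit 3072, R6_155, R6_72, R7_64⟩, ⟨nat_lit 2, nat_lit 1152, nat_lit 2448, nat_lit 7488, nat_lit 3312, nat_lit 4416, R6_156, R4_69, R14_92⟩]⟩]⟩,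
 ⟨nat_lit 6, [⟨nat_lit 2, [⟨nat_lit 0, nat_lit 96, nat_lit 11088, nat_lit 8160, nat_lit 3504, nat_lit 3600, R7_170, R4_73, R4_75⟩]⟩, ⟨nat_lit 6, [⟨nat_lit 0, nat_lit 1920, nat_lit 9984, nat_lit 8160, nat_lit 1488, nat_lit 3648, R4_170, R4_31, R7_76⟩]⟩]⟩], [⟨nat_lit 4, [⟨nat_lit 6, [⟨nat_lit 2, nat_lit 1296, nat_lit 2352, nat_lit 7536, nat_lit 3456, nat_lit 2784, R6_157, R4_72, R12_58⟩]⟩]⟩], [⟨nat_lit 4, [⟨nat_lit 6, [⟨nat_lit 0, nat_lit 1392, nat_lit 1632, nat_lit 7584, nat_lit 3552, nat_lit 1392, R6_158, R6_74, R2_29⟩, ⟨nat_lit 1, nat_lit 1488, nat_lit 2352, nat_lit 7680, nat_lit 1920, nat_lit 864, R6_160, R8_40, R1_18⟩, ⟨nat_lit 2, nat_lit 1440, nat_lit 2832, nat_lit 7632, nat_lit 3408, nat_lit 6720, R6_159, R4_71, R12_140⟩]⟩]⟩,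
 ⟨nat_lit 6, [⟨nat_lit 2, [⟨nat_lit 0, nat_lit 240, nat_lit 9456, nat_lit 8208, nat_lit 9792, nat_lit 13632, R7_171, R4_204, R3_284⟩, ⟨nat_lit 1, nat_lit 288, nat_lit 9984, nat_lit 8256, nat_lit 6096, nat_lit 13440, R7_172, R5_127, R10_280⟩]⟩, ⟨nat_lit 6, [⟨nat_lit 0, nat_lit 2016, nat_lit 9504, nat_lit 8208, nat_lit 8208, nat_lit 2016, R4_171, R4_171, R2_42⟩, ⟨nat_lit 1, nat_lit 2064, nat_lit 10032, nat_lit 8256, nat_lit 6192, nat_lit 1488, R4_172, R5_129, R1_31⟩]⟩]⟩]], [], [[], [], [], [], [], [], [⟨nat_lit 6, [⟨nat_lit 2, [⟨nat_lit 1, nat_lit 336, nat_lit 3120, nat_lit 8592, nat_lit 17472, nat_lit 13488, R7_179, R11_364, R10_281⟩]⟩]⟩]], [[], [], [], [], [⟨nat_lit 4, [⟨nat_lit 6, [⟨nat_lit 0, nat_lit 1200, nat_lit 1728, nat_lit 7728, nat_lit 15456, nat_lit 9264, R6_161, R13_322, R7_193⟩, ⟨nat_lit 2, nat_lit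 1248, nat_lit 1776, nat_lit 7776, nat_lit 11712, nat_lit 4800, R6_162, R3_244, R14_100⟩]⟩]⟩,
 ⟨nat_lit 6, [⟨nat_lit 2, [⟨nat_lit 0, nat_lit 144, nat_lit 4032, nat_lit 8304, nat_lit 13728, nat_lit 9888, R7_173, R3_286, R4_206⟩, ⟨nat_lit 3, nat_lit 192, nat_lit 4080, nat_lit 8352, nat_lit 13296, nat_lit 4896, R7_174, R10_277, R5_102⟩]⟩, ⟨nat_lit 6, [⟨nat_lit 0, nat_lit 1968, nat_lit 2352, nat_lit 8304, nat_lit 12480, nat_lit 10704, R4_173, R3_260, R7_223⟩]⟩]⟩,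
 ⟨nat_lit 7, [⟨nat_lit 4, [⟨nat_lit 2, nat_lit 912, nat_lit 384, nat_lit 4992, nat_lit 14544, nat_lit 13392, R6_104, R10_303, R7_279⟩]⟩, ⟨nat_lit 6, [⟨nat_lit 0, nat_lit 2400, nat_lit 2160, nat_lit 7056, nat_lit 1296, nat_lit 10032, R8_147, R3_27, R7_209⟩, ⟨nat_lit 2, nat_lit 2448, nat_lit 2208, nat_lit 7104, nat_lit 15840, nat_lit 4848, R8_148, R10_330, R14_101⟩]⟩]⟩], [⟨nat_lit 4, [⟨nat_lit 6, [⟨nat_lit 2, nat_lit 1344, nat_lit 2160, nat_lit 7824, nat_lit 11856, nat_lit 3168, R6_163, R3_247, R12_66⟩]⟩]⟩,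
 ⟨nat_lit 7, [⟨nat_lit 4, [⟨nat_lit 2, nat_lit 960, nat_lit 576, nat_lit 6336, nat_lit 15360, nat_lit 11952, R6_132, R10_320, R2_249⟩]⟩, ⟨nat_lit 6, [⟨nat_lit 2, nat_lit 2496, nat_lit 2688, nat_lit 7152, nat_lit 18048, nat_lit 3216, R8_149, R10_376, R12_67⟩]⟩]⟩], [], [⟨nat_lit 4, [⟨nat_lit 6, [⟨nat_lit 0, nat_lit 1776, nat_lit 2064, nat_lit 7872, nat_lit 15504, nat_lit 3360, R6_164, R13_323, R2_70⟩, ⟨nat_lit 2, nat_lit 1824, nat_lit 2208, nat_lit 7920, nat_lit 11760, nat_lit 13056, R6_165, R3_245, R12_272⟩, ⟨nat_lit 3, nat_lit 1872, nat_lit 2112, nat_lit 7968, nat_lit 3120, nat_lit 2832, R6_166, R3_65, R1_59⟩]⟩]⟩,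
 ⟨nat_lit 6, [⟨nat_lit 2, [⟨nat_lit 3, nat_lit 624, nat_lit 10752, nat_lit 8400, nat_lit 13344, nat_lit 17520, R7_175, R10_278, R11_365⟩]⟩, ⟨nat_lit 6, [⟨nat_lit 0, nat_lit 2304, nat_lit 9696, nat_lit 8352, nat_lit 13248, nat_lit 4800, R4_174, R3_276, R2_100⟩, ⟨nat_lit 3, nat_lit 2352, nat_lit 9792, nat_lit 8400, nat_lit 14016, nat_lit 3504, R4_175, R10_292, R1_73⟩]⟩]⟩,
 ⟨nat_lit 7, [⟨nat_lit 4, [⟨nat_lit 2, nat_lit 1056, nat_lit 3696, nat_lit 6720, nat_lit 15072, nat_lit 12240, R6_140, R10_314, R2_255⟩]⟩, ⟨nat_lit 6, [⟨nat_lit 0, nat_lit 2832, nat_lit 7008, nat_lit 7200, nat_lit 6480, nat_lit 4224, R8_150, R3_135, R2_88⟩, ⟨nat_lit 2, nat_lit 2880, nat_lit 7104, nat_lit 7248, nat_lit 17568, nat_lit 13296, R8_151, R10_366, R12_277⟩]⟩, ⟨nat_lit 7, [⟨nat_lit 2, nat_lit 3072, nat_lit 4848, nat_lit 7008, nat_lit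 18576, nat_lit 12816, R4_146, R10_387, R1_267⟩]⟩]⟩]]], [[], [], [], [], [[], [], [], [], [], [⟨nat_lit 4, [⟨nat_lit 4, [⟨nat_lit 2, nat_lit 7536, nat_lit 432, nat_lit 12432, nat_lit 8832, nat_lit 14448, R6_259, R4_184, R2_301⟩]⟩, ⟨nat_lit 6, [⟨nat_lit 2, nat_lit 8352, nat_lit 480, nat_lit 9888, nat_lit 9504, nat_lit 4128, R13_206, R4_198, R12_86⟩]⟩]⟩,
 ⟨nat_lit 5, [⟨nat_lit 4, [⟨nat_lit 2, nat_lit 7824, nat_lit 7392, nat_lit 12720, nat_lit 6912, nat_lit 14736, R4_265, R5_144, R2_307⟩]⟩, ⟨nat_lit 6, [⟨nat_lit 2, nat_lit 9072, nat_lit 7440, nat_lit 7728, nat_lit 6960, nat_lit 4176, R3_161, R5_145, R12_87⟩]⟩]⟩]], [[], [], [], [], [], [⟨nat_lit 5, [⟨nat_lit 4, [⟨nat_lit 2, nat_lit 7872, nat_lit 15696, nat_lit 12768, nat_lit 6528, nat_lit 14880, R4_266, R11_136, R2_310⟩]⟩, ⟨nat_lit 6, [⟨nat_lit 2, nat_lit 9120, nat_lit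 16848, nat_lit 8016, nat_lit 6576, nat_lit 5520, R3_167, R11_137, R12_115⟩]⟩]⟩]]], [[[⟨nat_lit 0, [⟨nat_lit 0, [⟨nat_lit 6, nat_lit 3120, nat_lit 10992, nat_lit 12576, nat_lit 15936, nat_lit 8736, R6_262, R7_332, R4_182⟩]⟩, ⟨nat_lit 1, [⟨nat_lit 6, nat_lit 3984, nat_lit 11376, nat_lit 12912, nat_lit 16656, nat_lit 5184, R4_269, R7_347, R5_108⟩]⟩]⟩,
 ⟨nat_lit 2, [⟨nat_lit 0, [⟨nat_lit 4, nat_lit 3264, nat_lit 2208, nat_lit 7728, nat_lit 3456, nat_lit 8640, R13_161, R7_72, R6_180⟩, ⟨nat_lit 6, nat_lit 3312, nat_lit 11088, nat_lit 7776, nat_lit 11520, nat_lit 9264, R13_162, R14_240, R4_193⟩]⟩, ⟨nat_lit 1, [⟨nat_lit 4, nat_lit 4128, nat_lit 2640, nat_lit 6384, nat_lit 4416, nat_lit 672, R3_133, R7_92, R8_14⟩, ⟨nat_lit 6, nat_lit 4176, nat_lit 11424, nat_lit 6432, nat_lit 11568, nat_lit 5232, R3_134, R14_241, R5_109⟩]⟩,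 ⟨nat_lit 2, [⟨nat_lit 4, nat_lit 4752, nat_lit 2928, nat_lit 13104, nat_lit 3936, nat_lit 1632, R3_273, R7_82, R4_34⟩]⟩]⟩,
 ⟨nat_lit 6, [⟨nat_lit 2, [⟨nat_lit 4, nat_lit 5232, nat_lit 3024, nat_lit 5808, nat_lit 3936, nat_lit 3696, R2_121, R4_82, R4_77⟩]⟩]⟩], [], [], [⟨nat_lit 0, [⟨nat_lit 0, [⟨nat_lit 6, nat_lit 3168, nat_lit 12816, nat_lit 12624, nat_lit 15984, nat_lit 11136, R6_263, R7_333, R3_232⟩]⟩, ⟨nat_lit 3, [⟨nat_lit 6, nat_lit 6384, nat_lit 12960, nat_lit 14544, nat_lit 16224, nat_lit 14496, R8_303, R7_338, R10_302⟩]⟩]⟩,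
 ⟨nat_lit 2, [⟨nat_lit 0, [⟨nat_lit 4, nat_lit 3552, nat_lit 2592, nat_lit 7968, nat_lit 9600, nat_lit 15840, R13_166, R7_200, R13_330⟩, ⟨nat_lit 6, nat_lit 3600, nat_lit 13824, nat_lit 8016, nat_lit 11856, nat_lit 12048, R13_167, R14_247, R3_251⟩]⟩, ⟨nat_lit 1, [⟨nat_lit 4, nat_lit 4416, nat_lit 3024, nat_lit 6624, nat_lit 11280, nat_lit 14064, R3_138, R7_235, R9_293⟩]⟩, ⟨nat_lit 2, [⟨nat_lit 4, nat_lit 4944, nat_lit 3168, nat_lit 13152, nat_lit 10944, nat_lit 12432, R3_274, R7_228, R3_259⟩]⟩, ⟨nat_lit 3, [⟨nat_lit 4, nat_lit 6528, nat_lit 2784, nat_lit 5760, nat_lit 10464, nat_lit 1776, R9_120, R7_218, R3_37⟩, ⟨nat_lit 6, nat_lit 6576, nat_lit 14016, nat_lit 5808, nat_lit 11904, nat_lit 15792, R9_121, R14_248, R10_329⟩]⟩]⟩,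
 ⟨nat_lit 6, [⟨nat_lit 2, [⟨nat_lit 4, nat_lit 5520, nat_lit 768, nat_lit 5952, nat_lit 10272, nat_lit 13680, R2_124, R4_214, R3_285⟩, ⟨nat_lit 7, nat_lit 5568, nat_lit 7728, nat_lit 6000, nat_lit 7008, nat_lit 13584, R2_125, R5_146, R10_283⟩]⟩]⟩]], [], [[⟨nat_lit 2, [⟨nat_lit 0, [⟨nat_lit 4, nat_lit 3360, nat_lit 2064, nat_lit 7824, nat_lit 1776, nat_lit 8784, R13_163, R2_37, R6_183⟩, ⟨nat_lit 5, nat_lit 3456, nat_lit 2304, nat_lit 7920, nat_lit 1248, nat_lit 5568, R13_165, R1_26, R8_116⟩, ⟨nat_lit 6, nat_lit 3408, nat_lit 2784, nat_lit 7872, nat_lit 10224, nat_lit 9408, R13_164, R12_213, R4_196⟩]⟩, ⟨nat_lit 1, [⟨nat_lit 4, nat_lit 4224, nat_lit 7008, nat_lit 6480, nat_lit 2832, nat_lit 6048, R3_135, R2_59, R8_126⟩, ⟨nat_lit 5, nat_lit 4320, nat_lit 7200, nat_lit 6576, nat_lit 2304, nat_lit 4944, R3_137, R1_48,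 R9_103⟩, ⟨nat_lit 6, nat_lit 4272, nat_lit 7536, nat_lit 6528, nat_lit 10272, nat_lit 5424, R3_136, R12_214, R5_113⟩]⟩, ⟨nat_lit 2, [⟨nat_lit 4, nat_lit 4800, nat_lit 9696, nat_lit 13248, nat_lit 2304, nat_lit 8352, R3_276, R2_48, R4_174⟩, ⟨nat_lit 5, nat_lit 4848, nat_lit 9936, nat_lit 13440, nat_lit 1776, nat_lit 5664, R3_280, R1_37, R5_118⟩]⟩]⟩,
 ⟨nat_lit 6, [⟨nat_lit 2, [⟨nat_lit 4, nat_lit 5280, nat_lit 9648, nat_lit 5856, nat_lit 13824, nat_lit 10032, R2_122, R3_288, R4_209⟩, ⟨nat_lit 5, nat_lit 5328, nat_lit 9888, nat_lit 5904, nat_lit 13824, nat_lit 5520, R2_123, R10_288, R5_115⟩]⟩]⟩], [], [⟨nat_lit 2, [⟨nat_lit 0, [⟨nat_lit 5, nat_lit 3504, nat_lit 2256, nat_lit 8352, nat_lit 6672, nat_lit 14592, R13_174, R1_139, R5_304⟩]⟩, ⟨nat_lit 2, [⟨nat_lit 5, nat_lit 4896, nat_lit 2400, nat_lit 13536, nat_lit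 7200, nat_lit 18096, R3_282, R1_150, R11_377⟩]⟩]⟩,
 ⟨nat_lit 6, [⟨nat_lit 2, [⟨nat_lit 5, nat_lit 5376, nat_lit 2352, nat_lit 6336, nat_lit 13872, nat_lit 17616, R2_132, R10_289, R11_367⟩]⟩]⟩]], [[], [], [], [⟨nat_lit 0, [⟨nat_lit 0, [⟨nat_lit 6, nat_lit 3216, nat_lit 2544, nat_lit 12672, nat_lit 14592, nat_lit 11184, R6_264, R2_304, R3_233⟩]⟩, ⟨nat_lit 3, [⟨nat_lit 6, nat_lit 6432, nat_lit 2928, nat_lit 15024, nat_lit 15168, nat_lit 15024, R8_313, R2_316, R10_313⟩]⟩]⟩,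
 ⟨nat_lit 2, [⟨nat_lit 0, [⟨nat_lit 4, nat_lit 3792, nat_lit 2592, nat_lit 8064, nat_lit 3792, nat_lit 15888, R13_168, R2_79, R13_331⟩, ⟨nat_lit 6, nat_lit 3840, nat_lit 2688, nat_lit 8112, nat_lit 16848, nat_lit 12096, R13_169, R12_351, R3_252⟩, ⟨nat_lit 7, nat_lit 3888, nat_lit 2640, nat_lit 8160, nat_lit 3264, nat_lit 8976, R13_170, R1_68, R3_187⟩]⟩, ⟨nat_lit 1, [⟨nat_lit 4, nat_lit 4608, nat_lit 2784, nat_lit 6720, nat_lit 6768, nat_lit 14640, R3_140, R2_141, R9_305⟩]⟩, ⟨nat_lit 2, [⟨nat_lit 4, nat_lit 5088, nat_lit 3168, nat_lit 13200, nat_lit 5088, nat_lit 13200, R3_275, R2_106, R3_275⟩, ⟨nat_lit 7, nat_lit 5136, nat_lit 3216, nat_lit 13344, nat_lit 3792, nat_lit 14160, R3_278, R1_79, R10_295⟩]⟩, ⟨nat_lit 3, [⟨nat_lit 4, nat_lit 6768, nat_lit 3024, nat_lit 5856, nat_lit 4608, nat_lit 6720, R9_122, R2_96,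 R3_140⟩, ⟨nat_lit 6, nat_lit 6816, nat_lit 3072, nat_lit 5904, nat_lit 17040, nat_lit 17520, R9_123, R12_355, R10_365⟩]⟩]⟩,
 ⟨nat_lit 3, [⟨nat_lit 3, [⟨nat_lit 6, nat_lit 7008, nat_lit 2976, nat_lit 5952, nat_lit 16176, nat_lit 18528, R5_124, R1_337, R10_386⟩]⟩]⟩,
 ⟨nat_lit 6, [⟨nat_lit 2, [⟨nat_lit 7, nat_lit 5760, nat_lit 3120, nat_lit 6048, nat_lit 17808, nat_lit 13632, R2_126, R11_371, R10_284⟩]⟩]⟩], [], [], [], [⟨nat_lit 0, [⟨nat_lit 3, [⟨nat_lit 6, nat_lit 6480, nat_lit 1200, nat_lit 15072, nat_lit 14928, nat_lit 13392, R8_314, R2_311, R1_279⟩]⟩]⟩,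
 ⟨nat_lit 2, [⟨nat_lit 0, [⟨nat_lit 7, nat_lit 3936, nat_lit 336, nat_lit 7680, nat_lit 13584, nat_lit 12336, R13_160, R1_283, R2_257⟩]⟩, ⟨nat_lit 2, [⟨nat_lit 7, nat_lit 5184, nat_lit 2496, nat_lit 13392, nat_lit 15456, nat_lit 12912, R3_279, R1_322, R1_269⟩]⟩, ⟨nat_lit 3, [⟨nat_lit 4, nat_lit 6864, nat_lit 2160, nat_lit 5616, nat_lit 13584, nat_lit 13008, R9_117, R2_283, R2_271⟩, ⟨nat_lit 6, nat_lit 6912, nat_lit 2256, nat_lit 5664, nat_lit 15360, nat_lit 14352, R9_118, R12_320, R1_299⟩, ⟨nat_lit 7, nat_lit 6960, nat_lit 2208, nat_lit 5712, nat_lit 14928, nat_lit 12480, R9_119, R1_311, R12_260⟩]⟩]⟩,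
 ⟨nat_lit 3, [⟨nat_lit 3, [⟨nat_lit 6, nat_lit 7056, nat_lit 1728, nat_lit 5904, nat_lit 15936, nat_lit 15312, R5_123, R1_332, R1_319⟩]⟩]⟩,
 ⟨nat_lit 6, [⟨nat_lit 2, [⟨nat_lit 3, nat_lit 6288, nat_lit 2400, nat_lit 5424, nat_lit 12528, nat_lit 17664, R2_113, R1_261, R11_368⟩, ⟨nat_lit 7, nat_lit 6240, nat_lit 2448, nat_lit 5472, nat_lit 17856, nat_lit 12480, R2_114, R11_372, R1_260⟩]⟩]⟩]], [[], [], [], [], [⟨nat_lit 6, [⟨nat_lit 2, [⟨nat_lit 0, nat_lit 5808, nat_lit 3024, nat_lit 5232, nat_lit 3936, nat_lit 3696, R2_109, R4_82, R4_77⟩]⟩]⟩], [], [⟨nat_lit 6, [⟨nat_lit 2, [⟨nat_lit 0, nat_lit 5952, nat_lit 768, nat_lit 5520, nat_lit 10272, nat_lit 13680, R2_115, R4_214, R3_285⟩, ⟨nat_lit 1, nat_lit 6000, nat_lit 7728, nat_lit 5568, nat_lit 7008, nat_lit 13584, R2_116, R5_146, R10_283⟩]⟩]⟩]], [], [[], [], [⟨nat_lit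 6, [⟨nat_lit 2, [⟨nat_lit 1, nat_lit 5472, nat_lit 2448, nat_lit 6240, nat_lit 17856, nat_lit 12480, R2_130, R11_372, R1_260⟩, ⟨nat_lit 5, nat_lit 5424, nat_lit 2400, nat_lit 6288, nat_lit 12528, nat_lit 17664, R2_131, R1_261, R11_368⟩]⟩]⟩], [], [], [], [⟨nat_lit 6, [⟨nat_lit 2, [⟨nat_lit 1, nat_lit 6048, nat_lit 3120, nat_lit 5760, nat_lit 17808, nat_lit 13632, R2_120, R11_371, R10_284⟩]⟩]⟩]], [[], [], [], [], [⟨nat_lit 6, [⟨nat_lit 2, [⟨nat_lit 0, nat_lit 5856, nat_lit 9648, nat_lit 5280, nat_lit 13824, nat_lit 10032, R2_110, R3_288, R4_209⟩, ⟨nat_lit 3, nat_lit 5904, nat_lit 9888, nat_lit 5328, nat_lit 13824, nat_lit 5520, R2_111, R10_288, R5_115⟩]⟩]⟩], [], [], [⟨nat_lit 6, [⟨nat_lit 2, [⟨nat_lit 3, nat_lit 6336, nat_lit 2352, nat_lit 5376, nat_lit 13872, nat_lit 17616, R2_112, R10_289, R11_367⟩]⟩]⟩]]], [[],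 [], [], [[], [], [], [], [⟨nat_lit 0, [⟨nat_lit 7, [⟨nat_lit 6, nat_lit 11568, nat_lit 10992, nat_lit 15312, nat_lit 12528, nat_lit 15312, R7_319, R2_261, R5_319⟩]⟩]⟩,
 ⟨nat_lit 3, [⟨nat_lit 4, [⟨nat_lit 2, nat_lit 10560, nat_lit 10560, nat_lit 14928, nat_lit 18768, nat_lit 14928, R7_311, R11_391, R7_311⟩, ⟨nat_lit 6, nat_lit 10512, nat_lit 10752, nat_lit 14832, nat_lit 13104, nat_lit 13680, R7_309, R1_273, R4_285⟩]⟩, ⟨nat_lit 7, [⟨nat_lit 6, nat_lit 11712, nat_lit 11040, nat_lit 7920, nat_lit 13872, nat_lit 15504, R14_165, R1_289, R5_323⟩]⟩]⟩,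
 ⟨nat_lit 7, [⟨nat_lit 4, [⟨nat_lit 2, nat_lit 10752, nat_lit 10512, nat_lit 13680, nat_lit 13104, nat_lit 14832, R4_285, R1_273, R7_309⟩]⟩, ⟨nat_lit 6, [⟨nat_lit 0, nat_lit 10992, nat_lit 11568, nat_lit 15312, nat_lit 12528, nat_lit 15312, R5_319, R2_261, R7_319⟩, ⟨nat_lit 2, nat_lit 11040, nat_lit 11712, nat_lit 15504, nat_lit 13872, nat_lit 5856, R5_323, R1_289, R14_122⟩]⟩]⟩], [⟨nat_lit 3, [⟨nat_lit 4, [⟨nat_lit 2, nat_lit 10656, nat_lit 10944, nat_lit 15120, nat_lit 20928, nat_lit 14064, R7_315, R11_436, R2_293⟩, ⟨nat_lit 6, nat_lit 10608, nat_lit 11136, nat_lit 15072, nat_lit 13152, nat_lit 15360, R7_314, R1_274, R3_320⟩]⟩]⟩,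
 ⟨nat_lit 7, [⟨nat_lit 4, [⟨nat_lit 2, nat_lit 10848, nat_lit 10896, nat_lit 13872, nat_lit 13728, nat_lit 14016, R4_289, R1_286, R2_292⟩]⟩, ⟨nat_lit 6, [⟨nat_lit 2, nat_lit 11184, nat_lit 12144, nat_lit 15600, nat_lit 15072, nat_lit 3840, R5_325, R1_314, R12_80⟩]⟩]⟩], [], [⟨nat_lit 0, [⟨nat_lit 3, [⟨nat_lit 6, nat_lit 10320, nat_lit 2160, nat_lit 14016, nat_lit 13824, nat_lit 13344, R4_292, R2_288, R1_278⟩]⟩, ⟨nat_lit 7, [⟨nat_lit 6, nat_lit 11664, nat_lit 1872, nat_lit 15360, nat_lit 12672, nat_lit 19632, R7_320, R2_264, R11_409⟩]⟩]⟩,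
 ⟨nat_lit 2, [⟨nat_lit 3, [⟨nat_lit 4, nat_lit 10368, nat_lit 2208, nat_lit 15840, nat_lit 13440, nat_lit 12960, R5_330, R2_280, R2_270⟩, ⟨nat_lit 6, nat_lit 10416, nat_lit 2304, nat_lit 15888, nat_lit 14592, nat_lit 14304, R5_331, R12_304, R1_298⟩, ⟨nat_lit 7, nat_lit 10464, nat_lit 2256, nat_lit 15936, nat_lit 14784, nat_lit 12528, R5_332, R1_308, R12_261⟩]⟩]⟩,
 ⟨nat_lit 3, [⟨nat_lit 4, [⟨nat_lit 2, nat_lit 10704, nat_lit 1824, nat_lit 15264, nat_lit 20304, nat_lit 12624, R7_318, R11_423, R2_263⟩]⟩, ⟨nat_lit 7, [⟨nat_lit 2, nat_lit 11856, nat_lit 1968, nat_lit 8064, nat_lit 20496, nat_lit 13968, R14_168, R11_427, R1_291⟩, ⟨nat_lit 6, nat_lit 11808, nat_lit 1920, nat_lit 8016, nat_lit 14016, nat_lit 19824, R14_167, R1_292, R11_413⟩]⟩]⟩,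
 ⟨nat_lit 7, [⟨nat_lit 4, [⟨nat_lit 2, nat_lit 10944, nat_lit 1776, nat_lit 13968, nat_lit 13488, nat_lit 13776, R4_291, R1_281, R2_287⟩]⟩, ⟨nat_lit 6, [⟨nat_lit 0, nat_lit 11424, nat_lit 2016, nat_lit 15360, nat_lit 13104, nat_lit 13296, R5_320, R2_273, R2_277⟩, ⟨nat_lit 2, nat_lit 11472, nat_lit 2112, nat_lit 15648, nat_lit 14448, nat_lit 14160, R5_326, R1_301, R12_295⟩, ⟨nat_lit 3, nat_lit 11520, nat_lit 2064, nat_lit 15744, nat_lit 12624, nat_lit 14640, R5_328, R12_263, R1_305⟩]⟩]⟩]], [], [], [], [[], [], [], [], [⟨nat_lit 7, [⟨nat_lit 4, [⟨nat_lit 2, nat_lit 10800, nat_lit 10368, nat_lit 13632, nat_lit 14592, nat_lit 14784, R4_284, R10_304, R7_308⟩]⟩, ⟨nat_lit 6, [⟨nat_lit 0, nat_lit 11088, nat_lit 3408, nat_lit 15264, nat_lit 1536, nat_lit 10176, R5_318, R3_32, R7_212⟩, ⟨nat_lit 2, nat_lit 11136, nat_lit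 10896, nat_lit 15456, nat_lit 15888, nat_lit 5664, R5_322, R10_331, R14_118⟩]⟩]⟩], [⟨nat_lit 7, [⟨nat_lit 4, [⟨nat_lit 2, nat_lit 10896, nat_lit 12192, nat_lit 13824, nat_lit 15408, nat_lit 13968, R4_288, R10_321, R2_291⟩]⟩, ⟨nat_lit 6, [⟨nat_lit 2, nat_lit 11232, nat_lit 12912, nat_lit 15552, nat_lit 18096, nat_lit 3648, R5_324, R10_377, R12_76⟩]⟩]⟩]]]]
noncomputable def N6446 : T3 (List N0) := [[[[], [⟨nat_lit 0, [⟨nat_lit 5, [⟨nat_lit 5, nat_lit 48, nat_lit 96, nat_lit 3840, nat_lit 2736, nat_lit 576, R6_80, R6_57, R1_12⟩]⟩]⟩,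
 ⟨nat_lit 1, [⟨nat_lit 5, [⟨nat_lit 5, nat_lit 4800, nat_lit 5040, nat_lit 3504, nat_lit 1920, nat_lit 672, R13_73, R13_40, R1_14⟩]⟩]⟩], [], [], [], [⟨nat_lit 0, [⟨nat_lit 5, [⟨nat_lit 5, nat_lit 0, nat_lit 0, nat_lit 3792, nat_lit 2784, nat_lit 288, R6_79, R6_58, R11_6⟩]⟩]⟩,
 ⟨nat_lit 1, [⟨nat_lit 4, [⟨nat_lit 4, nat_lit 4464, nat_lit 4608, nat_lit 15264, nat_lit 6816, nat_lit 15168, R6_318, R6_142, R8_316⟩, ⟨nat_lit 5, nat_lit 4704, nat_lit 4656, nat_lit 15360, nat_lit 1872, nat_lit 1200, R6_320, R13_39, R5_25⟩]⟩, ⟨nat_lit 5, [⟨nat_lit 4, nat_lit 4512, nat_lit 5184, nat_lit 3408, nat_lit 6960, nat_lit 1488, R13_71, R6_145, R5_31⟩, ⟨nat_lit 5, nat_lit 4752, nat_lit 5232, nat_lit 3456, nat_lit 1968, nat_lit 1056, R13_72, R13_41, R11_22⟩]⟩]⟩]], [[], [⟨nat_lit 1, [⟨nat_lit 5, [⟨nat_lit 5, nat_lit 5568, nat_lit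 3456, nat_lit 3648, nat_lit 2304, nat_lit 1248, R13_76, R3_48, R1_26⟩]⟩]⟩], [], [], [], [⟨nat_lit 1, [⟨nat_lit 4, [⟨nat_lit 4, nat_lit 5136, nat_lit 288, nat_lit 15312, nat_lit 7392, nat_lit 15312, R6_319, R4_154, R8_319⟩, ⟨nat_lit 5, nat_lit 5472, nat_lit 384, nat_lit 15408, nat_lit 2256, nat_lit 1344, R6_321, R3_47, R5_28⟩]⟩, ⟨nat_lit 5, [⟨nat_lit 4, nat_lit 5184, nat_lit 3888, nat_lit 3552, nat_lit 7584, nat_lit 3840, R13_74, R4_158, R5_80⟩, ⟨nat_lit 5, nat_lit 5520, nat_lit 3984, nat_lit 3600, nat_lit 2352, nat_lit 3840, R13_75, R3_49, R11_80⟩]⟩]⟩]], [], [[], [⟨nat_lit 0, [⟨nat_lit 5, [⟨nat_lit 5, nat_lit 1920, nat_lit 1488, nat_lit 3888, nat_lit 2352, nat_lit 864, R6_81, R8_49, R1_18⟩]⟩]⟩,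
 ⟨nat_lit 1, [⟨nat_lit 5, [⟨nat_lit 5, nat_lit 6432, nat_lit 8544, nat_lit 3696, nat_lit 1104, nat_lit 1056, R13_77, R9_23, R1_22⟩]⟩]⟩]]], [[], [[], [⟨nat_lit 1, [⟨nat_lit 5, [⟨nat_lit 5, nat_lit 5712, nat_lit 2928, nat_lit 3360, nat_lit 2448, nat_lit 1344, R3_70, R3_51, R1_28⟩]⟩]⟩,
 ⟨nat_lit 5, [⟨nat_lit 5, [⟨nat_lit 5, nat_lit 13344, nat_lit 13392, nat_lit 14928, nat_lit 6480, nat_lit 1200, R2_311, R2_135, R1_25⟩]⟩]⟩], [], [], [], [⟨nat_lit 1, [⟨nat_lit 4, [⟨nat_lit 4, nat_lit 5232, nat_lit 2832, nat_lit 14640, nat_lit 7440, nat_lit 16512, R4_305, R4_155, R8_344⟩, ⟨nat_lit 5, nat_lit 5616, nat_lit 2880, nat_lit 14688, nat_lit 2400, nat_lit 13248, R4_306, R3_50, R5_276⟩]⟩, ⟨nat_lit 5, [⟨nat_lit 4, nat_lit 5280, nat_lit 3504, nat_lit 3264, nat_lit 7632, nat_lit 3936, R3_68, R4_159, R5_82⟩, ⟨nat_lit 5, nat_lit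 5664, nat_lit 3552, nat_lit 3312, nat_lit 2496, nat_lit 3936, R3_69, R3_52, R11_82⟩]⟩]⟩,
 ⟨nat_lit 5, [⟨nat_lit 4, [⟨nat_lit 4, nat_lit 13008, nat_lit 14448, nat_lit 16752, nat_lit 7584, nat_lit 10464, R7_349, R7_158, R8_218⟩, ⟨nat_lit 5, nat_lit 13248, nat_lit 14496, nat_lit 16944, nat_lit 6384, nat_lit 12960, R7_353, R2_133, R5_270⟩, ⟨nat_lit 6, nat_lit 13104, nat_lit 14640, nat_lit 16848, nat_lit 8016, nat_lit 11184, R7_351, R2_167, R9_233⟩]⟩, ⟨nat_lit 5, [⟨nat_lit 4, nat_lit 13056, nat_lit 14976, nat_lit 14976, nat_lit 7632, nat_lit 2928, R2_312, R7_159, R5_61⟩, ⟨nat_lit 5, nat_lit 13296, nat_lit 15024, nat_lit 15168, nat_lit 6432, nat_lit 2928, R2_316, R2_134, R11_61⟩]⟩]⟩]], [], [], [], [[], [], [], [], [], [⟨nat_lit 5, [⟨nat_lit 4, [⟨nat_lit 4, nat_lit 13392, nat_lit 7968, nat_lit 16800, nat_lit 9120,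 nat_lit 10608, R7_350, R4_190, R8_221⟩, ⟨nat_lit 6, nat_lit 13632, nat_lit 8016, nat_lit 16896, nat_lit 16224, nat_lit 11040, R7_352, R3_338, R9_230⟩]⟩, ⟨nat_lit 5, [⟨nat_lit 4, nat_lit 13440, nat_lit 8064, nat_lit 15024, nat_lit 9168, nat_lit 528, R2_313, R4_191, R5_11⟩]⟩]⟩]]], [[[⟨nat_lit 0, [⟨nat_lit 1, [⟨nat_lit 5, nat_lit 144, nat_lit 5712, nat_lit 4032, nat_lit 2976, nat_lit 1200, R7_84, R6_62, R3_25⟩]⟩]⟩,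
 ⟨nat_lit 1, [⟨nat_lit 1, [⟨nat_lit 5, nat_lit 4896, nat_lit 5808, nat_lit 2400, nat_lit 2160, nat_lit 1296, R2_50, R13_45, R3_27⟩]⟩]⟩], [⟨nat_lit 0, [⟨nat_lit 1, [⟨nat_lit 5, nat_lit 192, nat_lit 15360, nat_lit 4080, nat_lit 3024, nat_lit 15648, R7_85, R6_63, R10_326⟩]⟩, ⟨nat_lit 5, [⟨nat_lit 5, nat_lit 96, nat_lit 15408, nat_lit 4080, nat_lit 3072, nat_lit 624, R4_85, R6_64, R1_13⟩]⟩]⟩,
 ⟨nat_lit 1, [⟨nat_lit 1, [⟨nat_lit 5, nat_lit 4944, nat_lit 16032, nat_lit 2448, nat_lit 2208, nat_lit 15840, R2_51, R13_46, R10_330⟩]⟩, ⟨nat_lit 5, [⟨nat_lit 5, nat_lit 4848, nat_lit 16080, nat_lit 16848, nat_lit 2256, nat_lit 720, R3_351, R13_47, R1_15⟩]⟩]⟩]], [[], [⟨nat_lit 1, [⟨nat_lit 1, [⟨nat_lit 5, nat_lit 5808, nat_lit 13104, nat_lit 2496, nat_lit 2688, nat_lit 18048, R2_52, R3_56, R10_376⟩]⟩, ⟨nat_lit 5, [⟨nat_lit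 5, nat_lit 5760, nat_lit 13152, nat_lit 16896, nat_lit 2736, nat_lit 1296, R3_352, R3_57, R1_27⟩]⟩]⟩]], [[⟨nat_lit 0, [⟨nat_lit 1, [⟨nat_lit 1, nat_lit 1008, nat_lit 12816, nat_lit 4272, nat_lit 2592, nat_lit 12816, R7_89, R7_54, R2_267⟩, ⟨nat_lit 5, nat_lit 672, nat_lit 4128, nat_lit 4416, nat_lit 2640, nat_lit 6384, R7_92, R4_55, R3_133⟩]⟩]⟩,
 ⟨nat_lit 1, [⟨nat_lit 1, [⟨nat_lit 1, nat_lit 6144, nat_lit 12912, nat_lit 2688, nat_lit 720, nat_lit 13056, R2_56, R2_15, R2_272⟩, ⟨nat_lit 5, nat_lit 6048, nat_lit 4224, nat_lit 2832, nat_lit 7008, nat_lit 6480, R2_59, R3_146, R3_135⟩]⟩]⟩,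
 ⟨nat_lit 2, [⟨nat_lit 1, [⟨nat_lit 1, nat_lit 6912, nat_lit 13056, nat_lit 720, nat_lit 2688, nat_lit 12912, R2_15, R2_56, R2_269⟩]⟩]⟩], [⟨nat_lit 0, [⟨nat_lit 1, [⟨nat_lit 1, nat_lit 1104, nat_lit 12336, nat_lit 4320, nat_lit 2688, nat_lit 14160, R7_90, R7_56, R1_295⟩, ⟨nat_lit 5, nat_lit 720, nat_lit 12864, nat_lit 4464, nat_lit 2688, nat_lit 17424, R7_93, R4_56, R10_363⟩]⟩, ⟨nat_lit 5, [⟨nat_lit 5, nat_lit 624, nat_lit 12816, nat_lit 4176, nat_lit 2736, nat_lit 768, R4_87, R4_57, R1_16⟩]⟩]⟩,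
 ⟨nat_lit 1, [⟨nat_lit 1, [⟨nat_lit 1, nat_lit 6240, nat_lit 12432, nat_lit 2736, nat_lit 816, nat_lit 14400, R2_57, R2_17, R1_300⟩, ⟨nat_lit 5, nat_lit 6096, nat_lit 13296, nat_lit 2880, nat_lit 7104, nat_lit 17568, R2_60, R3_148, R10_366⟩]⟩, ⟨nat_lit 5, [⟨nat_lit 5, nat_lit 6000, nat_lit 13248, nat_lit 16992, nat_lit 7056, nat_lit 816, R3_354, R3_147, R1_17⟩]⟩]⟩,
 ⟨nat_lit 2, [⟨nat_lit 1, [⟨nat_lit 1, nat_lit 7008, nat_lit 12576, nat_lit 768, nat_lit 2784, nat_lit 14256, R2_16, R2_58, R1_297⟩]⟩]⟩], [⟨nat_lit 0, [⟨nat_lit 1, [⟨nat_lit 1, nat_lit 1056, nat_lit 14160, nat_lit 4368, nat_lit 2640, nat_lit 12336, R7_91, R7_55, R12_257⟩]⟩]⟩,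
 ⟨nat_lit 1, [⟨nat_lit 1, [⟨nat_lit 1, nat_lit 6192, nat_lit 14256, nat_lit 2784, nat_lit 768, nat_lit 12576, R2_58, R2_16, R12_262⟩]⟩]⟩,
 ⟨nat_lit 2, [⟨nat_lit 1, [⟨nat_lit 1, nat_lit 6960, nat_lit 14400, nat_lit 816, nat_lit 2736, nat_lit 12432, R2_17, R2_57, R12_259⟩]⟩]⟩]], [[⟨nat_lit 0, [⟨nat_lit 1, [⟨nat_lit 5, nat_lit 2016, nat_lit 8784, nat_lit 4128, nat_lit 2592, nat_lit 7632, R7_86, R8_54, R3_159⟩]⟩]⟩,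
 ⟨nat_lit 1, [⟨nat_lit 1, [⟨nat_lit 5, nat_lit 6528, nat_lit 9216, nat_lit 2544, nat_lit 1344, nat_lit 7776, R2_53, R9_28, R3_162⟩]⟩]⟩], [⟨nat_lit 0, [⟨nat_lit 1, [⟨nat_lit 5, nat_lit 2064, nat_lit 768, nat_lit 4176, nat_lit 2688, nat_lit 16512, R7_87, R8_56, R10_344⟩]⟩, ⟨nat_lit 5, [⟨nat_lit 5, nat_lit 1968, nat_lit 960, nat_lit 4128, nat_lit 2736, nat_lit 912, R4_86, R8_57, R1_19⟩]⟩]⟩,
 ⟨nat_lit 1, [⟨nat_lit 1, [⟨nat_lit 5, nat_lit 6576, nat_lit 8112, nat_lit 2592, nat_lit 1440, nat_lit 16704, R2_54, R9_30, R10_348⟩]⟩, ⟨nat_lit 5, [⟨nat_lit 5, nat_lit 6480, nat_lit 8400, nat_lit 16944, nat_lit 1488, nat_lit 1104, R3_353, R9_31, R1_23⟩]⟩]⟩]]], [[[], [], [], [], [], [⟨nat_lit 0, [⟨nat_lit 4, [⟨nat_lit 5, nat_lit 240, nat_lit 1776, nat_lit 2160, nat_lit 2832, nat_lit 8208, R6_45, R6_59, R5_171⟩]⟩, ⟨nat_lit 5,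 [⟨nat_lit 5, nat_lit 288, nat_lit 1872, nat_lit 3552, nat_lit 2928, nat_lit 336, R8_74, R6_61, R11_7⟩]⟩]⟩,
 ⟨nat_lit 1, [⟨nat_lit 4, [⟨nat_lit 4, nat_lit 4560, nat_lit 7968, nat_lit 16752, nat_lit 6864, nat_lit 15744, R8_349, R6_143, R8_328⟩, ⟨nat_lit 5, nat_lit 4992, nat_lit 10176, nat_lit 16896, nat_lit 2016, nat_lit 9552, R8_352, R13_42, R5_199⟩]⟩, ⟨nat_lit 5, [⟨nat_lit 4, nat_lit 4608, nat_lit 8544, nat_lit 2496, nat_lit 7008, nat_lit 1536, R9_52, R6_146, R5_32⟩, ⟨nat_lit 5, nat_lit 5040, nat_lit 10368, nat_lit 2544, nat_lit 2112, nat_lit 1104, R9_53, R13_44, R11_23⟩]⟩]⟩]], [], [], [[], [⟨nat_lit 0, [⟨nat_lit 5, [⟨nat_lit 5, nat_lit 2256, nat_lit 960, nat_lit 3696, nat_lit 2496, nat_lit 960, R8_77, R8_52, R1_20⟩]⟩]⟩,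
 ⟨nat_lit 1, [⟨nat_lit 5, [⟨nat_lit 5, nat_lit 6768, nat_lit 9360, nat_lit 2784, nat_lit 1248, nat_lit 1152, R9_58, R9_26, R1_24⟩]⟩]⟩,
 ⟨nat_lit 3, [⟨nat_lit 5, [⟨nat_lit 5, nat_lit 9936, nat_lit 6384, nat_lit 17136, nat_lit 6528, nat_lit 1008, R5_357, R5_136, R1_21⟩]⟩]⟩], [], [], [], [⟨nat_lit 0, [⟨nat_lit 4, [⟨nat_lit 4, nat_lit 1488, nat_lit 10368, nat_lit 288, nat_lit 768, nat_lit 12192, R6_6, R6_16, R8_254⟩, ⟨nat_lit 5, nat_lit 2160, nat_lit 10512, nat_lit 2592, nat_lit 2400, nat_lit 8352, R6_54, R8_50, R5_174⟩]⟩, ⟨nat_lit 5, [⟨nat_lit 4, nat_lit 1536, nat_lit 10656, nat_lit 3600, nat_lit 2928, nat_lit 1872, R8_75, R6_61, R5_39⟩, ⟨nat_lit 5, nat_lit 2208, nat_lit 10800, nat_lit 3648, nat_lit 2544, nat_lit 1872, R8_76, R8_53, R11_39⟩]⟩, ⟨nat_lit 7, [⟨nat_lit 4, nat_lit 1584, nat_lit 10944, nat_lit 192, nat_lit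 1344, nat_lit 2208, R4_4, R6_28, R9_46⟩]⟩]⟩,
 ⟨nat_lit 1, [⟨nat_lit 4, [⟨nat_lit 4, nat_lit 6288, nat_lit 10416, nat_lit 16848, nat_lit 6288, nat_lit 15888, R8_351, R8_131, R8_331⟩, ⟨nat_lit 5, nat_lit 6672, nat_lit 10560, nat_lit 16992, nat_lit 1152, nat_lit 9696, R8_354, R9_24, R5_202⟩]⟩, ⟨nat_lit 5, [⟨nat_lit 4, nat_lit 6336, nat_lit 10704, nat_lit 2688, nat_lit 6384, nat_lit 2400, R9_56, R8_133, R5_50⟩, ⟨nat_lit 5, nat_lit 6720, nat_lit 10848, nat_lit 2736, nat_lit 1296, nat_lit 2400, R9_57, R9_27, R11_50⟩]⟩, ⟨nat_lit 7, [⟨nat_lit 4, nat_lit 6384, nat_lit 10992, nat_lit 2400, nat_lit 6336, nat_lit 2688, R5_50, R8_132, R9_56⟩]⟩]⟩,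
 ⟨nat_lit 3, [⟨nat_lit 4, [⟨nat_lit 4, nat_lit 9360, nat_lit 10464, nat_lit 14304, nat_lit 9072, nat_lit 14112, R4_298, R4_189, R8_294⟩, ⟨nat_lit 5, nat_lit 9840, nat_lit 10608, nat_lit 15216, nat_lit 6288, nat_lit 8928, R4_317, R5_131, R5_186⟩]⟩, ⟨nat_lit 5, [⟨nat_lit 4, nat_lit 9408, nat_lit 10752, nat_lit 17184, nat_lit 10656, nat_lit 2064, R5_358, R4_222, R5_43⟩, ⟨nat_lit 5, nat_lit 9888, nat_lit 10896, nat_lit 17232, nat_lit 6432, nat_lit 2064, R5_359, R5_134, R11_43⟩]⟩]⟩]]], [[], [], [], [[], [], [], [], [], [], [], [⟨nat_lit 0, [⟨nat_lit 3, [⟨nat_lit 4, nat_lit 1632, nat_lit 1392, nat_lit 7584, nat_lit 3552, nat_lit 1392, R6_158, R6_74, R2_29⟩, ⟨nat_lit 5, nat_lit 2352, nat_lit 1488, nat_lit 7680, nat_lit 1920, nat_lit 864, R6_160, R8_40, R1_18⟩, ⟨nat_lit 7, nat_lit 2832, nat_lit 1440, nat_lit 7632, nat_lit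 3408, nat_lit 6720, R6_159, R4_71, R12_140⟩]⟩]⟩,
 ⟨nat_lit 3, [⟨nat_lit 3, [⟨nat_lit 4, nat_lit 9504, nat_lit 2016, nat_lit 8208, nat_lit 8208, nat_lit 2016, R4_171, R4_171, R2_42⟩, ⟨nat_lit 5, nat_lit 10032, nat_lit 2064, nat_lit 8256, nat_lit 6192, nat_lit 1488, R4_172, R5_129, R1_31⟩]⟩, ⟨nat_lit 7, [⟨nat_lit 4, nat_lit 9456, nat_lit 240, nat_lit 8208, nat_lit 9792, nat_lit 13632, R7_171, R4_204, R3_284⟩, ⟨nat_lit 5, nat_lit 9984, nat_lit 288, nat_lit 8256, nat_lit 6096, nat_lit 1584, R7_172, R5_127, R10_33⟩]⟩]⟩]], [[], [], [], [], [⟨nat_lit 3, [⟨nat_lit 3, [⟨nat_lit 7, nat_lit 10560, nat_lit 12816, nat_lit 8784, nat_lit 15552, nat_lit 7440, R4_183, R7_324, R2_155⟩]⟩, ⟨nat_lit 7, [⟨nat_lit 7, nat_lit 10416, nat_lit 12240, nat_lit 8688, nat_lit 15600, nat_lit 11040, R7_181, R7_325, R3_230⟩]⟩]⟩,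
 ⟨nat_lit 4, [⟨nat_lit 6, [⟨nat_lit 6, nat_lit 12144, nat_lit 2112, nat_lit 8352, nat_lit 14688, nat_lit 7920, R6_174, R6_306, R5_165⟩]⟩]⟩,
 ⟨nat_lit 6, [⟨nat_lit 6, [⟨nat_lit 6, nat_lit 14064, nat_lit 9840, nat_lit 8976, nat_lit 14256, nat_lit 8016, R4_187, R4_297, R5_167⟩]⟩]⟩,
 ⟨nat_lit 7, [⟨nat_lit 4, [⟨nat_lit 4, nat_lit 15120, nat_lit 4368, nat_lit 4512, nat_lit 14496, nat_lit 11712, R6_94, R6_302, R6_244⟩, ⟨nat_lit 6, nat_lit 15696, nat_lit 4560, nat_lit 4560, nat_lit 15696, nat_lit 12288, R6_95, R8_327, R8_256⟩]⟩, ⟨nat_lit 6, [⟨nat_lit 6, nat_lit 15840, nat_lit 6864, nat_lit 7728, nat_lit 15744, nat_lit 7968, R8_161, R8_328, R5_166⟩]⟩, ⟨nat_lit 7, [⟨nat_lit 4, nat_lit 15264, nat_lit 5376, nat_lit 4752, nat_lit 14544, nat_lit 10416, R4_99, R6_303, R13_217⟩, ⟨nat_lit 6, nat_lit 15984, nat_lit 5712, nat_lit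 4848, nat_lit 15792, nat_lit 7968, R4_101, R8_329, R9_166⟩, ⟨nat_lit 7, nat_lit 16464, nat_lit 5520, nat_lit 4800, nat_lit 14160, nat_lit 11376, R4_100, R4_295, R3_237⟩]⟩]⟩], [⟨nat_lit 7, [⟨nat_lit 4, [⟨nat_lit 4, nat_lit 15216, nat_lit 4608, nat_lit 5664, nat_lit 16080, nat_lit 7440, R6_118, R6_335, R8_155⟩, ⟨nat_lit 6, nat_lit 15792, nat_lit 4848, nat_lit 5712, nat_lit 15984, nat_lit 13104, R6_119, R8_333, R9_273⟩]⟩, ⟨nat_lit 7, [⟨nat_lit 4, nat_lit 15360, nat_lit 5712, nat_lit 6048, nat_lit 16128, nat_lit 0, R4_126, R6_336, R9_0⟩]⟩]⟩], [⟨nat_lit 0, [⟨nat_lit 3, [⟨nat_lit 3, nat_lit 3120, nat_lit 12192, nat_lit 8448, nat_lit 14736, nat_lit 10368, R6_176, R6_307, R11_216⟩]⟩]⟩,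
 ⟨nat_lit 2, [⟨nat_lit 0, [⟨nat_lit 0, nat_lit 7440, nat_lit 15168, nat_lit 6816, nat_lit 15264, nat_lit 4608, R6_142, R6_318, R4_96⟩, ⟨nat_lit 3, nat_lit 7728, nat_lit 15744, nat_lit 6864, nat_lit 15840, nat_lit 7968, R6_143, R8_330, R5_166⟩]⟩, ⟨nat_lit 2, [⟨nat_lit 0, nat_lit 7488, nat_lit 15312, nat_lit 7392, nat_lit 15312, nat_lit 288, R4_154, R6_319, R3_6⟩, ⟨nat_lit 2, nat_lit 7632, nat_lit 16512, nat_lit 7440, nat_lit 14640, nat_lit 8736, R4_155, R4_305, R10_182⟩]⟩, ⟨nat_lit 3, [⟨nat_lit 3, nat_lit 7824, nat_lit 15888, nat_lit 7824, nat_lit 15888, nat_lit 10416, R8_163, R8_331, R11_217⟩]⟩]⟩,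
 ⟨nat_lit 3, [⟨nat_lit 3, [⟨nat_lit 3, nat_lit 10752, nat_lit 14112, nat_lit 9072, nat_lit 14304, nat_lit 10464, R4_189, R4_298, R11_218⟩, ⟨nat_lit 7, nat_lit 10608, nat_lit 14352, nat_lit 9120, nat_lit 16032, nat_lit 7968, R4_190, R7_334, R1_166⟩]⟩, ⟨nat_lit 7, [⟨nat_lit 7, nat_lit 10464, nat_lit 14400, nat_lit 8976, nat_lit 16080, nat_lit 8784, R7_187, R7_335, R10_183⟩]⟩]⟩,
 ⟨nat_lit 4, [⟨nat_lit 6, [⟨nat_lit 6, nat_lit 12192, nat_lit 3120, nat_lit 8448, nat_lit 14736, nat_lit 10368, R6_176, R6_307, R11_216⟩]⟩]⟩,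
 ⟨nat_lit 6, [⟨nat_lit 2, [⟨nat_lit 2, nat_lit 14400, nat_lit 10464, nat_lit 8976, nat_lit 16080, nat_lit 8784, R7_187, R7_335, R10_183⟩]⟩, ⟨nat_lit 6, [⟨nat_lit 2, nat_lit 14352, nat_lit 10608, nat_lit 9120, nat_lit 16032, nat_lit 7968, R4_190, R7_334, R1_166⟩, ⟨nat_lit 6, nat_lit 14112, nat_lit 10752, nat_lit 9072, nat_lit 14304, nat_lit 10464, R4_189, R4_298, R11_218⟩]⟩]⟩,
 ⟨nat_lit 7, [⟨nat_lit 4, [⟨nat_lit 4, nat_lit 15168, nat_lit 7440, nat_lit 6816, nat_lit 15264, nat_lit 4608, R6_142, R6_318, R4_96⟩, ⟨nat_lit 6, nat_lit 15744, nat_lit 7728, nat_lit 6864, nat_lit 15840, nat_lit 7968, R6_143, R8_330, R5_166⟩]⟩, ⟨nat_lit 6, [⟨nat_lit 6, nat_lit 15888, nat_lit 7824, nat_lit 7824, nat_lit 15888, nat_lit 10416, R8_163, R8_331, R11_217⟩]⟩, ⟨nat_lit 7, [⟨nat_lit 4, nat_lit 15312, nat_lit 7488, nat_lit 7392,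 nat_lit 15312, nat_lit 288, R4_154, R6_319, R3_6⟩, ⟨nat_lit 7, nat_lit 16512, nat_lit 7632, nat_lit 7440, nat_lit 14640, nat_lit 8736, R4_155, R4_305, R10_182⟩]⟩]⟩]], [], [[], [], [], [], [], [], [⟨nat_lit 0, [⟨nat_lit 3, [⟨nat_lit 3, nat_lit 3552, nat_lit 1872, nat_lit 9696, nat_lit 288, nat_lit 10656, R6_202, R8_6, R11_222⟩]⟩]⟩,
 ⟨nat_lit 2, [⟨nat_lit 0, [⟨nat_lit 0, nat_lit 8016, nat_lit 1488, nat_lit 6960, nat_lit 20496, nat_lit 5184, R6_145, R13_427, R4_108⟩, ⟨nat_lit 3, nat_lit 8688, nat_lit 1536, nat_lit 7008, nat_lit 16848, nat_lit 8544, R6_146, R9_351, R5_178⟩]⟩, ⟨nat_lit 2, [⟨nat_lit 0, nat_lit 8064, nat_lit 3840, nat_lit 7584, nat_lit 20544, nat_lit 3888, R4_158, R13_428, R3_81⟩, ⟨nat_lit 2, nat_lit 8352, nat_lit 3936, nat_lit 7632, nat_lit 3264, nat_lit 8976, R4_159, R3_68, R10_187⟩]⟩, ⟨nat_lit 3,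 [⟨nat_lit 3, nat_lit 8784, nat_lit 2400, nat_lit 9120, nat_lit 16944, nat_lit 10704, R8_190, R9_353, R11_223⟩]⟩]⟩,
 ⟨nat_lit 3, [⟨nat_lit 3, [⟨nat_lit 3, nat_lit 10848, nat_lit 2064, nat_lit 10656, nat_lit 17184, nat_lit 10752, R4_222, R5_358, R11_224⟩]⟩]⟩,
 ⟨nat_lit 6, [⟨nat_lit 2, [⟨nat_lit 2, nat_lit 14880, nat_lit 2928, nat_lit 9024, nat_lit 14976, nat_lit 9024, R7_188, R2_312, R10_188⟩]⟩, ⟨nat_lit 6, [⟨nat_lit 2, nat_lit 14832, nat_lit 528, nat_lit 9168, nat_lit 15024, nat_lit 8064, R4_191, R2_313, R1_168⟩]⟩]⟩]], [[], [], [], [], [⟨nat_lit 0, [⟨nat_lit 3, [⟨nat_lit 7, nat_lit 3744, nat_lit 2976, nat_lit 8688, nat_lit 288, nat_lit 8160, R6_181, R7_6, R2_170⟩]⟩]⟩,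
 ⟨nat_lit 3, [⟨nat_lit 3, [⟨nat_lit 7, nat_lit 11712, nat_lit 3264, nat_lit 9312, nat_lit 18864, nat_lit 8208, R4_194, R14_393, R2_171⟩]⟩, ⟨nat_lit 7, [⟨nat_lit 4, nat_lit 10992, nat_lit 1248, nat_lit 9168, nat_lit 5136, nat_lit 11040, R7_191, R7_107, R13_230⟩, ⟨nat_lit 7, nat_lit 11568, nat_lit 1296, nat_lit 9216, nat_lit 18816, nat_lit 11904, R7_192, R14_392, R3_248⟩]⟩]⟩,
 ⟨nat_lit 7, [⟨nat_lit 4, [⟨nat_lit 4, nat_lit 17568, nat_lit 96, nat_lit 5040, nat_lit 4752, nat_lit 12000, R6_105, R4_99, R6_250⟩, ⟨nat_lit 6, nat_lit 18288, nat_lit 144, nat_lit 5088, nat_lit 9168, nat_lit 12432, R6_106, R5_191, R8_259⟩]⟩, ⟨nat_lit 6, [⟨nat_lit 6, nat_lit 18432, nat_lit 2016, nat_lit 7872, nat_lit 9552, nat_lit 10176, R8_164, R5_199, R5_212⟩]⟩, ⟨nat_lit 7, [⟨nat_lit 4, nat_lit 17712, nat_lit 672, nat_lit 5328, nat_lit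 5328, nat_lit 10992, R4_111, R4_111, R13_229⟩, ⟨nat_lit 6, nat_lit 18576, nat_lit 720, nat_lit 5376, nat_lit 9936, nat_lit 8784, R4_112, R5_207, R9_183⟩]⟩]⟩], [⟨nat_lit 3, [⟨nat_lit 7, [⟨nat_lit 4, nat_lit 11088, nat_lit 1680, nat_lit 9936, nat_lit 7680, nat_lit 480, R7_207, R7_160, R9_10⟩]⟩]⟩,
 ⟨nat_lit 7, [⟨nat_lit 4, [⟨nat_lit 4, nat_lit 17664, nat_lit 288, nat_lit 6384, nat_lit 7392, nat_lit 7488, R6_133, R4_154, R8_156⟩, ⟨nat_lit 6, nat_lit 18384, nat_lit 336, nat_lit 6432, nat_lit 9408, nat_lit 13248, R6_134, R5_196, R9_276⟩]⟩, ⟨nat_lit 7, [⟨nat_lit 4, nat_lit 17808, nat_lit 1008, nat_lit 6624, nat_lit 7728, nat_lit 240, R4_138, R4_161, R9_5⟩]⟩]⟩], [⟨nat_lit 0, [⟨nat_lit 3, [⟨nat_lit 3, nat_lit 4272, nat_lit 2208, nat_lit 9456, nat_lit 192, nat_lit 10944, R6_197, R4_4, R11_228⟩, ⟨nat_lit 7, nat_lit 3792,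 nat_lit 2256, nat_lit 9504, nat_lit 384, nat_lit 8976, R6_198, R7_8, R1_187⟩]⟩]⟩,
 ⟨nat_lit 2, [⟨nat_lit 0, [⟨nat_lit 3, nat_lit 9024, nat_lit 2016, nat_lit 6912, nat_lit 2208, nat_lit 8256, R6_144, R5_46, R5_172⟩]⟩, ⟨nat_lit 3, [⟨nat_lit 3, nat_lit 9120, nat_lit 2688, nat_lit 8784, nat_lit 2400, nat_lit 10992, R8_183, R5_50, R11_229⟩]⟩]⟩,
 ⟨nat_lit 3, [⟨nat_lit 3, [⟨nat_lit 7, nat_lit 11760, nat_lit 2352, nat_lit 10416, nat_lit 18960, nat_lit 9024, R4_217, R14_395, R1_188⟩]⟩, ⟨nat_lit 7, [⟨nat_lit 4, nat_lit 11040, nat_lit 480, nat_lit 11040, nat_lit 6240, nat_lit 1680, R7_230, R7_130, R3_35⟩, ⟨nat_lit 7, nat_lit 11616, nat_lit 528, nat_lit 11088, nat_lit 18912, nat_lit 10416, R7_231, R14_394, R10_217⟩]⟩]⟩,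
 ⟨nat_lit 7, [⟨nat_lit 4, [⟨nat_lit 4, nat_lit 17616, nat_lit 0, nat_lit 7056, nat_lit 6048, nat_lit 5712, R6_147, R4_126, R4_119⟩, ⟨nat_lit 6, nat_lit 18336, nat_lit 48, nat_lit 7104, nat_lit 9312, nat_lit 8112, R6_148, R5_194, R5_169⟩]⟩, ⟨nat_lit 6, [⟨nat_lit 6, nat_lit 18480, nat_lit 1152, nat_lit 7968, nat_lit 9696, nat_lit 13440, R8_166, R5_202, R11_280⟩]⟩, ⟨nat_lit 7, [⟨nat_lit 4, nat_lit 17760, nat_lit 240, nat_lit 7728, nat_lit 6624, nat_lit 1008, R4_161, R4_138, R3_21⟩]⟩]⟩], [⟨nat_lit 0, [⟨nat_lit 3, [⟨nat_lit 7, nat_lit 3840, nat_lit 11664, nat_lit 9120, nat_lit 336, nat_lit 6864, R6_190, R7_7, R12_143⟩]⟩]⟩,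
 ⟨nat_lit 3, [⟨nat_lit 3, [⟨nat_lit 4, nat_lit 11184, nat_lit 13632, nat_lit 9792, nat_lit 7296, nat_lit 240, R4_204, R7_152, R2_5⟩, ⟨nat_lit 7, nat_lit 11808, nat_lit 13968, nat_lit 9840, nat_lit 19008, nat_lit 6912, R4_205, R14_396, R12_144⟩]⟩, ⟨nat_lit 7, [⟨nat_lit 4, nat_lit 11136, nat_lit 12384, nat_lit 10656, nat_lit 6768, nat_lit 12384, R7_222, R7_141, R3_258⟩]⟩]⟩,
 ⟨nat_lit 7, [⟨nat_lit 7, [⟨nat_lit 4, nat_lit 17856, nat_lit 4368, nat_lit 7056, nat_lit 7056, nat_lit 4368, R4_147, R4_147, R3_91⟩]⟩]⟩]]], [[], [], [], [], [[], [], [], [], [], [⟨nat_lit 4, [⟨nat_lit 4, [⟨nat_lit 6, nat_lit 12384, nat_lit 960, nat_lit 14928, nat_lit 15024, nat_lit 15984, R6_311, R6_313, R9_333⟩]⟩]⟩,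
 ⟨nat_lit 7, [⟨nat_lit 4, [⟨nat_lit 4, nat_lit 15504, nat_lit 7968, nat_lit 16752, nat_lit 16752, nat_lit 7728, R8_349, R6_349, R8_161⟩, ⟨nat_lit 6, nat_lit 16176, nat_lit 9216, nat_lit 17040, nat_lit 16368, nat_lit 16272, R8_355, R8_341, R9_339⟩]⟩, ⟨nat_lit 7, [⟨nat_lit 4, nat_lit 15648, nat_lit 8112, nat_lit 9312, nat_lit 16800, nat_lit 48, R5_194, R6_350, R9_1⟩]⟩]⟩]], [[], [], [], [], [], [⟨nat_lit 4, [⟨nat_lit 4, [⟨nat_lit 4, nat_lit 12672, nat_lit 10368, nat_lit 14736, nat_lit 8448, nat_lit 3120, R6_307, R6_176, R8_65⟩, ⟨nat_lit 6, nat_lit 12816, nat_lit 11616, nat_lit 14976, nat_lit 20160, nat_lit 16128, R6_312, R13_420, R9_336⟩]⟩]⟩,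
 ⟨nat_lit 5, [⟨nat_lit 4, [⟨nat_lit 4, nat_lit 13584, nat_lit 10464, nat_lit 14304, nat_lit 9072, nat_lit 10752, R4_298, R4_189, R8_224⟩, ⟨nat_lit 6, nat_lit 13872, nat_lit 11712, nat_lit 14448, nat_lit 16560, nat_lit 16656, R4_301, R3_345, R9_347⟩]⟩]⟩,
 ⟨nat_lit 7, [⟨nat_lit 4, [⟨nat_lit 4, nat_lit 16848, nat_lit 10416, nat_lit 16848, nat_lit 6288, nat_lit 7824, R8_351, R8_131, R8_163⟩, ⟨nat_lit 6, nat_lit 17136, nat_lit 11664, nat_lit 17136, nat_lit 16560, nat_lit 16560, R8_357, R9_345, R9_345⟩]⟩, ⟨nat_lit 7, [⟨nat_lit 4, nat_lit 16992, nat_lit 13440, nat_lit 9696, nat_lit 6672, nat_lit 1152, R5_202, R8_139, R9_24⟩]⟩]⟩]]], [[[⟨nat_lit 0, [⟨nat_lit 0, [⟨nat_lit 5, nat_lit 384, nat_lit 5616, nat_lit 2496, nat_lit 2496, nat_lit 5616, R6_52, R6_52, R4_117⟩]⟩, ⟨nat_lit 1, [⟨nat_lit 5, nat_lit 480, nat_lit 6288,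 nat_lit 2400, nat_lit 2640, nat_lit 720, R4_50, R6_55, R3_15⟩]⟩]⟩], [], [], [⟨nat_lit 0, [⟨nat_lit 0, [⟨nat_lit 5, nat_lit 432, nat_lit 8064, nat_lit 2544, nat_lit 2544, nat_lit 8064, R6_53, R6_53, R5_168⟩]⟩, ⟨nat_lit 3, [⟨nat_lit 5, nat_lit 576, nat_lit 8352, nat_lit 3216, nat_lit 2592, nat_lit 1776, R8_67, R6_54, R11_37⟩]⟩]⟩]], [], [[⟨nat_lit 0, [⟨nat_lit 0, [⟨nat_lit 1, nat_lit 1152, nat_lit 1200, nat_lit 2976, nat_lit 2256, nat_lit 5712, R6_62, R7_47, R7_119⟩, ⟨nat_lit 5, nat_lit 768, nat_lit 720, nat_lit 2640, nat_lit 2400, nat_lit 6288, R6_55, R4_50, R4_131⟩]⟩, ⟨nat_lit 1, [⟨nat_lit 1, nat_lit 1248, nat_lit 6384, nat_lit 2640, nat_lit 2496, nat_lit 4128, R4_55, R7_52, R2_86⟩, ⟨nat_lit 5, nat_lit 864, nat_lit 6048, nat_lit 2544, nat_lit 2544, nat_lit 6048, R4_53, R4_53, R3_126⟩]⟩, ⟨nat_lit 3, [⟨nat_lit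 1, nat_lit 1344, nat_lit 7632, nat_lit 3888, nat_lit 2352, nat_lit 8784, R8_81, R7_49, R2_183⟩]⟩]⟩,
 ⟨nat_lit 2, [⟨nat_lit 0, [⟨nat_lit 1, nat_lit 7056, nat_lit 1296, nat_lit 8640, nat_lit 2400, nat_lit 5808, R13_180, R2_50, R7_121⟩]⟩, ⟨nat_lit 1, [⟨nat_lit 1, nat_lit 7200, nat_lit 6480, nat_lit 7008, nat_lit 2832, nat_lit 4224, R3_146, R2_59, R2_88⟩]⟩, ⟨nat_lit 3, [⟨nat_lit 1, nat_lit 7296, nat_lit 7776, nat_lit 6240, nat_lit 2544, nat_lit 9216, R9_130, R2_53, R2_192⟩]⟩]⟩], [], [⟨nat_lit 0, [⟨nat_lit 0, [⟨nat_lit 1, nat_lit 1200, nat_lit 960, nat_lit 3024, nat_lit 2304, nat_lit 15792, R6_63, R7_48, R14_329⟩]⟩, ⟨nat_lit 1, [⟨nat_lit 1, nat_lit 1296, nat_lit 1056, nat_lit 2688, nat_lit 2544, nat_lit 12864, R4_56, R7_53, R12_268⟩]⟩, ⟨nat_lit 3, [⟨nat_lit 1, nat_lit 1392, nat_lit 1152, nat_lit 3984, nat_lit 2400,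 nat_lit 6960, R8_83, R7_50, R12_145⟩]⟩]⟩,
 ⟨nat_lit 2, [⟨nat_lit 0, [⟨nat_lit 1, nat_lit 7104, nat_lit 1008, nat_lit 8784, nat_lit 2448, nat_lit 16224, R13_183, R2_51, R14_338⟩]⟩, ⟨nat_lit 1, [⟨nat_lit 1, nat_lit 7248, nat_lit 1104, nat_lit 7104, nat_lit 2880, nat_lit 13296, R3_148, R2_60, R12_277⟩]⟩, ⟨nat_lit 2, [⟨nat_lit 1, nat_lit 7152, nat_lit 1248, nat_lit 2688, nat_lit 2496, nat_lit 13104, R3_56, R2_52, R12_273⟩]⟩, ⟨nat_lit 3, [⟨nat_lit 1, nat_lit 7344, nat_lit 1200, nat_lit 6480, nat_lit 2592, nat_lit 8496, R9_135, R2_54, R12_177⟩]⟩]⟩]], [[], [], [], [⟨nat_lit 0, [⟨nat_lit 0, [⟨nat_lit 5, nat_lit 2400, nat_lit 1776, nat_lit 2592, nat_lit 2160, nat_lit 8352, R6_54, R8_45, R5_174⟩]⟩, ⟨nat_lit 3, [⟨nat_lit 5, nat_lit 2544, nat_lit 1872, nat_lit 3648, nat_lit 2208, nat_lit 1872, R8_76, R8_46, R11_39⟩]⟩]⟩,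
 ⟨nat_lit 3, [⟨nat_lit 3, [⟨nat_lit 5, nat_lit 10128, nat_lit 1920, nat_lit 6480, nat_lit 6480, nat_lit 1920, R5_135, R5_135, R11_40⟩]⟩]⟩], [], [], [], [⟨nat_lit 0, [⟨nat_lit 3, [⟨nat_lit 4, nat_lit 1680, nat_lit 864, nat_lit 3360, nat_lit 3888, nat_lit 1488, R8_70, R6_81, R2_31⟩, ⟨nat_lit 5, nat_lit 2496, nat_lit 960, nat_lit 3696, nat_lit 2256, nat_lit 960, R8_77, R8_47, R1_20⟩, ⟨nat_lit 7, nat_lit 2880, nat_lit 912, nat_lit 3504, nat_lit 4128, nat_lit 6768, R8_73, R4_86, R12_141⟩]⟩]⟩,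
 ⟨nat_lit 3, [⟨nat_lit 3, [⟨nat_lit 4, nat_lit 9552, nat_lit 1488, nat_lit 6192, nat_lit 8256, nat_lit 2064, R5_129, R4_172, R2_43⟩, ⟨nat_lit 5, nat_lit 10080, nat_lit 1536, nat_lit 6240, nat_lit 6240, nat_lit 1536, R5_130, R5_130, R1_32⟩]⟩]⟩]], [[], [], [], [], [⟨nat_lit 3, [⟨nat_lit 3, [⟨nat_lit 7, nat_lit 10656, nat_lit 12576, nat_lit 6000, nat_lit 17328, nat_lit 7680, R5_125, R7_361, R2_160⟩]⟩]⟩], [], [⟨nat_lit 0, [⟨nat_lit 0, [⟨nat_lit 3, nat_lit 3168, nat_lit 8208, nat_lit 2832, nat_lit 16512, nat_lit 1776, R6_59, R6_344, R5_37⟩]⟩, ⟨nat_lit 3, [⟨nat_lit 3, nat_lit 3216, nat_lit 8352, nat_lit 576, nat_lit 16560, nat_lit 10512, R8_12, R6_345, R11_219⟩]⟩]⟩,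
 ⟨nat_lit 2, [⟨nat_lit 0, [⟨nat_lit 0, nat_lit 7536, nat_lit 1200, nat_lit 8400, nat_lit 15360, nat_lit 4656, R13_175, R6_320, R4_97⟩, ⟨nat_lit 3, nat_lit 7872, nat_lit 9552, nat_lit 8448, nat_lit 18432, nat_lit 10176, R13_176, R8_384, R5_212⟩]⟩, ⟨nat_lit 2, [⟨nat_lit 0, nat_lit 7584, nat_lit 1344, nat_lit 2256, nat_lit 15408, nat_lit 384, R3_47, R6_321, R3_8⟩, ⟨nat_lit 2, nat_lit 7680, nat_lit 13248, nat_lit 2400, nat_lit 14688, nat_lit 8832, R3_50, R4_306, R10_184⟩]⟩, ⟨nat_lit 3, [⟨nat_lit 3, nat_lit 7968, nat_lit 9696, nat_lit 6096, nat_lit 18480, nat_lit 10560, R9_127, R8_385, R11_220⟩]⟩]⟩,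
 ⟨nat_lit 3, [⟨nat_lit 3, [⟨nat_lit 3, nat_lit 10800, nat_lit 8928, nat_lit 6288, nat_lit 15216, nat_lit 10608, R5_131, R4_317, R11_221⟩, ⟨nat_lit 7, nat_lit 10704, nat_lit 16320, nat_lit 6336, nat_lit 17760, nat_lit 8208, R5_132, R7_370, R1_171⟩]⟩]⟩,
 ⟨nat_lit 6, [⟨nat_lit 2, [⟨nat_lit 2, nat_lit 14544, nat_lit 12960, nat_lit 6384, nat_lit 16224, nat_lit 8880, R2_133, R7_338, R10_185⟩]⟩]⟩]], [], [[], [], [⟨nat_lit 0, [⟨nat_lit 0, [⟨nat_lit 0, nat_lit 3312, nat_lit 576, nat_lit 2736, nat_lit 3840, nat_lit 96, R6_57, R6_80, R7_2⟩, ⟨nat_lit 1, nat_lit 3408, nat_lit 624, nat_lit 3072, nat_lit 4080, nat_lit 15744, R6_64, R4_85, R14_328⟩]⟩, ⟨nat_lit 1, [⟨nat_lit 1, nat_lit 3456, nat_lit 768, nat_lit 2736, nat_lit 4176, nat_lit 12816, R4_57, R4_87, R12_267⟩]⟩, ⟨nat_lit 3, [⟨nat_lit 0, nat_lit 3360, nat_lit 864, nat_lit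 1680, nat_lit 3888, nat_lit 1488, R8_35, R6_81, R2_31⟩, ⟨nat_lit 1, nat_lit 3504, nat_lit 912, nat_lit 2880, nat_lit 4128, nat_lit 6768, R8_60, R4_86, R12_141⟩, ⟨nat_lit 3, nat_lit 3696, nat_lit 960, nat_lit 2496, nat_lit 2256, nat_lit 960, R8_52, R8_47, R1_20⟩]⟩]⟩,
 ⟨nat_lit 2, [⟨nat_lit 0, [⟨nat_lit 0, nat_lit 8160, nat_lit 672, nat_lit 8688, nat_lit 20352, nat_lit 5040, R13_181, R13_424, R7_105⟩, ⟨nat_lit 1, nat_lit 8496, nat_lit 720, nat_lit 8736, nat_lit 16848, nat_lit 16176, R13_182, R3_351, R14_337⟩]⟩, ⟨nat_lit 1, [⟨nat_lit 1, nat_lit 8592, nat_lit 816, nat_lit 7056, nat_lit 16992, nat_lit 13248, R3_147, R3_354, R12_276⟩]⟩, ⟨nat_lit 2, [⟨nat_lit 0, nat_lit 8256, nat_lit 1248, nat_lit 2304, nat_lit 20400, nat_lit 3456, R3_48, R13_425, R2_72⟩, ⟨nat_lit 1, nat_lit 8544, nat_lit 1296, nat_lit 2736, nat_lit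 16896, nat_lit 13152, R3_57, R3_352, R12_274⟩, ⟨nat_lit 2, nat_lit 8448, nat_lit 1344, nat_lit 2448, nat_lit 3360, nat_lit 2928, R3_51, R3_70, R1_61⟩]⟩, ⟨nat_lit 3, [⟨nat_lit 0, nat_lit 8304, nat_lit 1056, nat_lit 6336, nat_lit 20448, nat_lit 8544, R9_132, R13_426, R2_178⟩, ⟨nat_lit 1, nat_lit 8640, nat_lit 1104, nat_lit 6432, nat_lit 16944, nat_lit 8160, R9_134, R3_353, R12_170⟩, ⟨nat_lit 3, nat_lit 8976, nat_lit 1152, nat_lit 6384, nat_lit 16800, nat_lit 9360, R9_133, R9_350, R1_195⟩]⟩]⟩,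
 ⟨nat_lit 3, [⟨nat_lit 3, [⟨nat_lit 3, nat_lit 10944, nat_lit 1008, nat_lit 6528, nat_lit 17136, nat_lit 6384, R5_136, R5_357, R1_133⟩]⟩]⟩,
 ⟨nat_lit 6, [⟨nat_lit 2, [⟨nat_lit 2, nat_lit 15072, nat_lit 1200, nat_lit 6480, nat_lit 14928, nat_lit 13392, R2_135, R2_311, R1_279⟩]⟩]⟩], [], [], [], [⟨nat_lit 0, [⟨nat_lit 0, [⟨nat_lit 0, nat_lit 3264, nat_lit 288, nat_lit 2784, nat_lit 3792, nat_lit 0, R6_58, R6_79, R4_0⟩, ⟨nat_lit 3, nat_lit 3600, nat_lit 336, nat_lit 2928, nat_lit 1536, nat_lit 1872, R6_61, R8_32, R5_39⟩]⟩, ⟨nat_lit 3, [⟨nat_lit 3, nat_lit 3648, nat_lit 1872, nat_lit 2544, nat_lit 2208, nat_lit 10800, R8_53, R8_46, R11_225⟩]⟩]⟩,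
 ⟨nat_lit 2, [⟨nat_lit 0, [⟨nat_lit 0, nat_lit 8112, nat_lit 1056, nat_lit 8544, nat_lit 20592, nat_lit 5232, R13_178, R13_429, R4_109⟩, ⟨nat_lit 3, nat_lit 8832, nat_lit 1104, nat_lit 8592, nat_lit 16992, nat_lit 10368, R13_179, R9_354, R5_216⟩]⟩, ⟨nat_lit 2, [⟨nat_lit 0, nat_lit 8208, nat_lit 3840, nat_lit 2352, nat_lit 20640, nat_lit 3984, R3_49, R13_430, R3_83⟩, ⟨nat_lit 2, nat_lit 8400, nat_lit 3936, nat_lit 2496, nat_lit 3312, nat_lit 9072, R3_52, R3_69, R10_189⟩]⟩, ⟨nat_lit 3, [⟨nat_lit 3, nat_lit 8928, nat_lit 2400, nat_lit 6192, nat_lit 17088, nat_lit 10848, R9_129, R9_356, R11_226⟩]⟩]⟩,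
 ⟨nat_lit 3, [⟨nat_lit 3, [⟨nat_lit 3, nat_lit 10896, nat_lit 2064, nat_lit 6432, nat_lit 17232, nat_lit 10896, R5_134, R5_359, R11_227⟩]⟩]⟩,
 ⟨nat_lit 6, [⟨nat_lit 2, [⟨nat_lit 2, nat_lit 15024, nat_lit 2928, nat_lit 6432, nat_lit 15168, nat_lit 9120, R2_134, R2_316, R10_190⟩]⟩]⟩]], [[], [], [], [], [⟨nat_lit 0, [⟨nat_lit 3, [⟨nat_lit 7, nat_lit 3888, nat_lit 7632, nat_lit 1344, nat_lit 2352, nat_lit 8784, R8_28, R7_49, R2_183⟩]⟩]⟩,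
 ⟨nat_lit 3, [⟨nat_lit 3, [⟨nat_lit 7, nat_lit 11856, nat_lit 7680, nat_lit 6048, nat_lit 19248, nat_lit 8832, R5_126, R14_401, R2_184⟩]⟩]⟩], [], [], [⟨nat_lit 0, [⟨nat_lit 3, [⟨nat_lit 7, nat_lit 3984, nat_lit 1152, nat_lit 1392, nat_lit 2400, nat_lit 6960, R8_29, R7_50, R12_145⟩]⟩]⟩,
 ⟨nat_lit 3, [⟨nat_lit 3, [⟨nat_lit 4, nat_lit 11232, nat_lit 1584, nat_lit 6096, nat_lit 7344, nat_lit 288, R5_127, R7_153, R2_6⟩, ⟨nat_lit 7, nat_lit 11952, nat_lit 1632, nat_lit 6144, nat_lit 19344, nat_lit 7008, R5_128, R14_403, R12_146⟩]⟩]⟩]]], [[], [], [], [[], [], [], [], [⟨nat_lit 0, [⟨nat_lit 3, [⟨nat_lit 7, nat_lit 3024, nat_lit 7104, nat_lit 3840, nat_lit 3840, nat_lit 7104, R4_80, R4_80, R2_148⟩]⟩, ⟨nat_lit 7, [⟨nat_lit 4, nat_lit 1728, nat_lit 8160, nat_lit 3264, nat_lit 1872, nat_lit 9792, R7_68, R6_39, R13_204⟩,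 ⟨nat_lit 5, nat_lit 2592, nat_lit 8784, nat_lit 4128, nat_lit 2016, nat_lit 7632, R7_86, R8_42, R3_159⟩, ⟨nat_lit 7, nat_lit 2928, nat_lit 9696, nat_lit 3792, nat_lit 1728, nat_lit 12768, R7_79, R4_36, R3_266⟩]⟩]⟩,
 ⟨nat_lit 3, [⟨nat_lit 4, [⟨nat_lit 4, nat_lit 9600, nat_lit 7440, nat_lit 15744, nat_lit 8784, nat_lit 12336, R7_328, R4_183, R6_257⟩, ⟨nat_lit 5, nat_lit 10176, nat_lit 7680, nat_lit 16464, nat_lit 6000, nat_lit 12576, R7_343, R5_125, R4_262⟩]⟩, ⟨nat_lit 7, [⟨nat_lit 4, nat_lit 9696, nat_lit 8208, nat_lit 8592, nat_lit 9312, nat_lit 9840, R14_179, R4_194, R13_205⟩, ⟨nat_lit 5, nat_lit 10272, nat_lit 8832, nat_lit 8640, nat_lit 6048, nat_lit 7680, R14_180, R5_126, R3_160⟩]⟩]⟩], [⟨nat_lit 0, [⟨nat_lit 7, [⟨nat_lit 4, nat_lit 1776, nat_lit 8976, nat_lit 3360, nat_lit 1968, nat_lit 2256, R7_70, R6_41,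 R9_47⟩]⟩]⟩,
 ⟨nat_lit 3, [⟨nat_lit 4, [⟨nat_lit 4, nat_lit 9648, nat_lit 7968, nat_lit 16800, nat_lit 9120, nat_lit 14352, R7_350, R4_190, R8_299⟩, ⟨nat_lit 5, nat_lit 10224, nat_lit 8208, nat_lit 17088, nat_lit 6336, nat_lit 16320, R7_356, R5_132, R5_340⟩]⟩, ⟨nat_lit 7, [⟨nat_lit 4, nat_lit 9744, nat_lit 9024, nat_lit 8688, nat_lit 10416, nat_lit 2352, R14_181, R4_217, R9_49⟩]⟩]⟩], [], [⟨nat_lit 0, [⟨nat_lit 3, [⟨nat_lit 4, nat_lit 1872, nat_lit 912, nat_lit 3408, nat_lit 3744, nat_lit 1440, R4_71, R6_78, R2_30⟩, ⟨nat_lit 5, nat_lit 2736, nat_lit 960, nat_lit 4128, nat_lit 1968, nat_lit 912, R4_86, R8_41, R1_19⟩, ⟨nat_lit 7, nat_lit 3072, nat_lit 1008, nat_lit 3888, nat_lit 3888, nat_lit 6816, R4_81, R4_81, R12_142⟩]⟩, ⟨nat_lit 7, [⟨nat_lit 4, nat_lit 1824, nat_lit 720, nat_lit 3312, nat_lit 1920, nat_lit 11664,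 R7_69, R6_40, R3_243⟩, ⟨nat_lit 5, nat_lit 2688, nat_lit 768, nat_lit 4176, nat_lit 2064, nat_lit 1152, R7_87, R8_43, R10_24⟩]⟩]⟩,
 ⟨nat_lit 3, [⟨nat_lit 7, [⟨nat_lit 4, nat_lit 9792, nat_lit 816, nat_lit 8784, nat_lit 9840, nat_lit 13968, R14_183, R4_205, R3_291⟩, ⟨nat_lit 5, nat_lit 10368, nat_lit 864, nat_lit 8832, nat_lit 6144, nat_lit 1632, R14_184, R5_128, R10_34⟩]⟩]⟩]], [], [], [], [[], [], [], [], [⟨nat_lit 0, [⟨nat_lit 3, [⟨nat_lit 7, nat_lit 4176, nat_lit 12768, nat_lit 1728, nat_lit 816, nat_lit 9696, R4_36, R7_17, R2_202⟩]⟩, ⟨nat_lit 7, [⟨nat_lit 7, nat_lit 4032, nat_lit 14352, nat_lit 1824, nat_lit 1392, nat_lit 14352, R7_38, R7_29, R3_299⟩]⟩]⟩,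
 ⟨nat_lit 3, [⟨nat_lit 4, [⟨nat_lit 4, nat_lit 11280, nat_lit 11040, nat_lit 15696, nat_lit 4752, nat_lit 13008, R7_327, R7_99, R6_271⟩]⟩, ⟨nat_lit 7, [⟨nat_lit 4, nat_lit 11424, nat_lit 11904, nat_lit 8880, nat_lit 5184, nat_lit 11808, R14_185, R7_108, R13_246⟩, ⟨nat_lit 7, nat_lit 12000, nat_lit 14592, nat_lit 8928, nat_lit 19104, nat_lit 14592, R14_186, R14_398, R3_304⟩]⟩]⟩,
 ⟨nat_lit 7, [⟨nat_lit 4, [⟨nat_lit 4, nat_lit 18144, nat_lit 11376, nat_lit 14160, nat_lit 4800, nat_lit 13344, R4_295, R4_100, R6_278⟩, ⟨nat_lit 6, nat_lit 19008, nat_lit 16368, nat_lit 14400, nat_lit 9264, nat_lit 14208, R4_300, R5_193, R8_296⟩]⟩, ⟨nat_lit 6, [⟨nat_lit 6, nat_lit 19152, nat_lit 17664, nat_lit 16944, nat_lit 9648, nat_lit 10656, R5_353, R5_201, R5_222⟩]⟩]⟩], [⟨nat_lit 3, [⟨nat_lit 4, [⟨nat_lit 4, nat_lit 11376, nat_lit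 8784, nat_lit 16752, nat_lit 7584, nat_lit 14400, R7_349, R7_158, R8_300⟩]⟩, ⟨nat_lit 7, [⟨nat_lit 4, nat_lit 11520, nat_lit 10416, nat_lit 8976, nat_lit 7728, nat_lit 528, R14_187, R7_161, R9_11⟩]⟩]⟩,
 ⟨nat_lit 7, [⟨nat_lit 4, [⟨nat_lit 4, nat_lit 18240, nat_lit 8736, nat_lit 14640, nat_lit 7440, nat_lit 7632, R4_305, R4_155, R8_159⟩, ⟨nat_lit 6, nat_lit 19104, nat_lit 9456, nat_lit 14736, nat_lit 9504, nat_lit 15360, R4_307, R5_198, R9_320⟩]⟩]⟩]]]]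
noncomputable def N6477 : T3 (List N0) := [[[[], [⟨nat_lit 0, [⟨nat_lit 5, [⟨nat_lit 6, nat_lit 3072, nat_lit 528, nat_lit 8928, nat_lit 2256, nat_lit 2736, R6_186, R4_47, R1_57⟩]⟩]⟩,
 ⟨nat_lit 1, [⟨nat_lit 5, [⟨nat_lit 6, nat_lit 8880, nat_lit 5472, nat_lit 11616, nat_lit 2640, nat_lit 3024, R13_242, R5_55, R1_63⟩]⟩]⟩], [], [], [], [⟨nat_lit 0, [⟨nat_lit 5, [⟨nat_lit 6, nat_lit 3024, nat_lit 336, nat_lit 8880, nat_lit 2112, nat_lit 144, R6_185, R4_44, R10_3⟩]⟩]⟩,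
 ⟨nat_lit 1, [⟨nat_lit 4, [⟨nat_lit 6, nat_lit 8544, nat_lit 5088, nat_lit 13872, nat_lit 3360, nat_lit 16080, R6_289, R5_70, R3_335⟩]⟩, ⟨nat_lit 5, [⟨nat_lit 6, nat_lit 8832, nat_lit 5568, nat_lit 11568, nat_lit 3552, nat_lit 480, R13_241, R5_74, R10_10⟩]⟩]⟩]], [[], [⟨nat_lit 1, [⟨nat_lit 5, [⟨nat_lit 6, nat_lit 8976, nat_lit 3888, nat_lit 11712, nat_lit 2640, nat_lit 3264, R13_244, R11_55, R1_68⟩]⟩]⟩], [], [], [], [⟨nat_lit 1, [⟨nat_lit 4, [⟨nat_lit 6, nat_lit 8592, nat_lit 672, nat_lit 13920, nat_lit 3360, nat_lit 16176, R6_290, R11_70, R3_337⟩]⟩, ⟨nat_lit 5, [⟨nat_lit 6, nat_lit 8928, nat_lit 4272, nat_lit 11664, nat_lit 3552, nat_lit 528, R13_243, R11_74, R10_11⟩]⟩]⟩]], [], [[], [⟨nat_lit 0, [⟨nat_lit 5, [⟨nat_lit 6, nat_lit 3120, nat_lit 1872, nat_lit 8976, nat_lit 2112, nat_lit 2832, R6_187, R3_44, R1_59⟩]⟩]⟩]]],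 [[], [[], [⟨nat_lit 1, [⟨nat_lit 5, [⟨nat_lit 6, nat_lit 9120, nat_lit 3360, nat_lit 9120, nat_lit 9072, nat_lit 3360, R3_190, R11_189, R1_70⟩]⟩]⟩,
 ⟨nat_lit 5, [⟨nat_lit 5, [⟨nat_lit 6, nat_lit 15840, nat_lit 13680, nat_lit 14112, nat_lit 6000, nat_lit 3408, R2_294, R1_125, R1_71⟩]⟩]⟩], [], [], [], [⟨nat_lit 1, [⟨nat_lit 4, [⟨nat_lit 6, nat_lit 8640, nat_lit 3312, nat_lit 13728, nat_lit 9600, nat_lit 16800, R4_286, R11_200, R3_350⟩]⟩, ⟨nat_lit 5, [⟨nat_lit 6, nat_lit 9072, nat_lit 3888, nat_lit 9072, nat_lit 9792, nat_lit 12480, R3_189, R11_204, R10_260⟩]⟩]⟩,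
 ⟨nat_lit 5, [⟨nat_lit 4, [⟨nat_lit 6, nat_lit 15456, nat_lit 14880, nat_lit 14976, nat_lit 5952, nat_lit 10320, R7_312, R1_124, R3_215⟩]⟩, ⟨nat_lit 5, [⟨nat_lit 6, nat_lit 15792, nat_lit 15312, nat_lit 14160, nat_lit 6048, nat_lit 12336, R2_295, R1_126, R10_257⟩]⟩]⟩]], [], [], [], [[], [], [], [], [], [⟨nat_lit 5, [⟨nat_lit 4, [⟨nat_lit 2, nat_lit 15360, nat_lit 11136, nat_lit 15072, nat_lit 13152, nat_lit 10608, R7_314, R1_274, R2_221⟩, ⟨nat_lit 6, nat_lit 15408, nat_lit 11184, nat_lit 15024, nat_lit 14784, nat_lit 10416, R7_313, R10_308, R3_217⟩]⟩, ⟨nat_lit 5, [⟨nat_lit 2, nat_lit 15696, nat_lit 11232, nat_lit 14256, nat_lit 13776, nat_lit 10992, R2_297, R1_287, R1_229⟩, ⟨nat_lit 6, nat_lit 15744, nat_lit 11280, nat_lit 14208, nat_lit 15552, nat_lit 12288, R2_296, R10_324, R10_256⟩]⟩, ⟨nat_lit 6, [⟨nat_lit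 2, nat_lit 15648, nat_lit 11328, nat_lit 13872, nat_lit 13632, nat_lit 6336, R2_289, R1_284, R12_132⟩]⟩]⟩]]], [[[⟨nat_lit 0, [⟨nat_lit 1, [⟨nat_lit 4, nat_lit 1200, nat_lit 2256, nat_lit 9744, nat_lit 10992, nat_lit 1152, R7_203, R6_229, R8_24⟩, ⟨nat_lit 5, nat_lit 1680, nat_lit 7680, nat_lit 9936, nat_lit 11088, nat_lit 14016, R7_207, R8_231, R9_292⟩, ⟨nat_lit 6, nat_lit 1440, nat_lit 11568, nat_lit 9840, nat_lit 11808, nat_lit 14784, R7_205, R4_246, R5_308⟩]⟩]⟩,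
 ⟨nat_lit 1, [⟨nat_lit 1, [⟨nat_lit 4, nat_lit 7632, nat_lit 2352, nat_lit 8784, nat_lit 3888, nat_lit 1344, R2_183, R8_81, R8_28⟩, ⟨nat_lit 5, nat_lit 8208, nat_lit 7776, nat_lit 8976, nat_lit 11808, nat_lit 14112, R2_187, R9_246, R9_294⟩, ⟨nat_lit 6, nat_lit 7920, nat_lit 11664, nat_lit 8880, nat_lit 13632, nat_lit 14928, R2_185, R5_284, R5_311⟩]⟩]⟩,
 ⟨nat_lit 2, [⟨nat_lit 1, [⟨nat_lit 4, nat_lit 6384, nat_lit 2496, nat_lit 4128, nat_lit 2640, nat_lit 1248, R2_86, R4_55, R8_26⟩, ⟨nat_lit 5, nat_lit 6624, nat_lit 7920, nat_lit 4416, nat_lit 3024, nat_lit 14064, R2_92, R5_63, R9_293⟩]⟩]⟩], [⟨nat_lit 0, [⟨nat_lit 1, [⟨nat_lit 4, nat_lit 1248, nat_lit 18576, nat_lit 9792, nat_lit 11280, nat_lit 4464, R7_204, R6_235, R5_93⟩, ⟨nat_lit 6, nat_lit 1488, nat_lit 19488, nat_lit 9888, nat_lit 11904, nat_lit 19104, R7_206,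 R4_248, R11_398⟩]⟩, ⟨nat_lit 5, [⟨nat_lit 6, nat_lit 3168, nat_lit 19536, nat_lit 9552, nat_lit 11136, nat_lit 2784, R4_199, R4_232, R1_58⟩]⟩]⟩,
 ⟨nat_lit 1, [⟨nat_lit 1, [⟨nat_lit 4, nat_lit 7680, nat_lit 19872, nat_lit 8832, nat_lit 11856, nat_lit 6048, R2_184, R8_247, R5_126⟩, ⟨nat_lit 6, nat_lit 7968, nat_lit 21168, nat_lit 8928, nat_lit 13776, nat_lit 19248, R2_186, R5_287, R11_401⟩]⟩, ⟨nat_lit 5, [⟨nat_lit 6, nat_lit 9168, nat_lit 21216, nat_lit 15504, nat_lit 13872, nat_lit 3072, R3_323, R5_289, R1_64⟩]⟩]⟩,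
 ⟨nat_lit 2, [⟨nat_lit 1, [⟨nat_lit 4, nat_lit 6432, nat_lit 21648, nat_lit 4176, nat_lit 11424, nat_lit 5232, R2_87, R4_238, R5_109⟩]⟩]⟩]], [[], [⟨nat_lit 1, [⟨nat_lit 1, [⟨nat_lit 4, nat_lit 7728, nat_lit 15648, nat_lit 9072, nat_lit 7440, nat_lit 6960, R2_189, R5_155, R5_145⟩, ⟨nat_lit 6, nat_lit 8016, nat_lit 16944, nat_lit 9120, nat_lit 16848, nat_lit 20400, R2_190, R11_351, R11_425⟩]⟩, ⟨nat_lit 5, [⟨nat_lit 6, nat_lit 9216, nat_lit 16992, nat_lit 15552, nat_lit 16944, nat_lit 3312, R3_324, R11_353, R1_69⟩]⟩]⟩]], [[⟨nat_lit 0, [⟨nat_lit 1, [⟨nat_lit 5, nat_lit 1776, nat_lit 6528, nat_lit 10464, nat_lit 2784, nat_lit 14592, R7_218, R5_58, R9_304⟩]⟩]⟩,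
 ⟨nat_lit 2, [⟨nat_lit 1, [⟨nat_lit 5, nat_lit 6720, nat_lit 6768, nat_lit 4608, nat_lit 2784, nat_lit 14640, R2_96, R11_58, R9_305⟩]⟩]⟩]], [[⟨nat_lit 0, [⟨nat_lit 1, [⟨nat_lit 4, nat_lit 1296, nat_lit 2400, nat_lit 10032, nat_lit 3888, nat_lit 7056, R7_209, R13_81, R8_147⟩, ⟨nat_lit 5, nat_lit 1920, nat_lit 10032, nat_lit 10368, nat_lit 2976, nat_lit 14352, R7_216, R9_62, R9_299⟩, ⟨nat_lit 6, nat_lit 1536, nat_lit 11088, nat_lit 10176, nat_lit 3408, nat_lit 15264, R7_212, R3_71, R5_318⟩]⟩]⟩,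
 ⟨nat_lit 1, [⟨nat_lit 1, [⟨nat_lit 4, nat_lit 7776, nat_lit 2544, nat_lit 9216, nat_lit 6240, nat_lit 7296, R2_192, R9_130, R8_152⟩]⟩]⟩,
 ⟨nat_lit 2, [⟨nat_lit 1, [⟨nat_lit 4, nat_lit 6480, nat_lit 2832, nat_lit 4224, nat_lit 7008, nat_lit 7200, R2_88, R3_146, R8_150⟩]⟩]⟩], [⟨nat_lit 0, [⟨nat_lit 1, [⟨nat_lit 4, nat_lit 1344, nat_lit 240, nat_lit 10080, nat_lit 3984, nat_lit 4848, R7_210, R13_83, R5_101⟩, ⟨nat_lit 6, nat_lit 1584, nat_lit 2352, nat_lit 10224, nat_lit 3504, nat_lit 19584, R7_213, R3_73, R11_408⟩]⟩, ⟨nat_lit 5, [⟨nat_lit 6, nat_lit 3216, nat_lit 2544, nat_lit 9600, nat_lit 2832, nat_lit 2880, R4_200, R3_59, R1_60⟩]⟩]⟩,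
 ⟨nat_lit 1, [⟨nat_lit 1, [⟨nat_lit 4, nat_lit 7824, nat_lit 7248, nat_lit 9264, nat_lit 7440, nat_lit 6576, R2_193, R9_155, R5_137⟩]⟩]⟩,
 ⟨nat_lit 2, [⟨nat_lit 1, [⟨nat_lit 4, nat_lit 6528, nat_lit 10272, nat_lit 4272, nat_lit 7536, nat_lit 5424, R2_89, R3_157, R5_113⟩]⟩]⟩], [], [⟨nat_lit 0, [⟨nat_lit 1, [⟨nat_lit 4, nat_lit 1392, nat_lit 1872, nat_lit 10128, nat_lit 3936, nat_lit 4032, R7_211, R13_82, R9_84⟩]⟩]⟩,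
 ⟨nat_lit 1, [⟨nat_lit 1, [⟨nat_lit 4, nat_lit 7872, nat_lit 2016, nat_lit 9312, nat_lit 6960, nat_lit 6528, R2_194, R9_145, R9_136⟩]⟩]⟩,
 ⟨nat_lit 2, [⟨nat_lit 1, [⟨nat_lit 4, nat_lit 6576, nat_lit 2304, nat_lit 4320, nat_lit 7200, nat_lit 4944, R2_90, R3_150, R9_103⟩]⟩]⟩]]], [[[], [], [], [], [], [⟨nat_lit 0, [⟨nat_lit 4, [⟨nat_lit 6, nat_lit 2928, nat_lit 3408, nat_lit 5568, nat_lit 4992, nat_lit 11424, R6_116, R4_104, R3_238⟩]⟩, ⟨nat_lit 5, [⟨nat_lit 6, nat_lit 3264, nat_lit 3936, nat_lit 8352, nat_lit 7632, nat_lit 8976, R8_174, R4_159, R10_187⟩]⟩]⟩,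
 ⟨nat_lit 1, [⟨nat_lit 4, [⟨nat_lit 6, nat_lit 8688, nat_lit 11472, nat_lit 14592, nat_lit 11424, nat_lit 16416, R8_304, R5_238, R3_342⟩]⟩, ⟨nat_lit 5, [⟨nat_lit 6, nat_lit 9312, nat_lit 12288, nat_lit 9168, nat_lit 11760, nat_lit 9648, R9_191, R5_245, R10_201⟩]⟩]⟩]], [], [], [[], [⟨nat_lit 0, [⟨nat_lit 5, [⟨nat_lit 6, nat_lit 3360, nat_lit 1344, nat_lit 8448, nat_lit 2448, nat_lit 2928, R8_176, R3_51, R1_61⟩]⟩]⟩,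
 ⟨nat_lit 3, [⟨nat_lit 5, [⟨nat_lit 6, nat_lit 10560, nat_lit 6768, nat_lit 16464, nat_lit 8400, nat_lit 2976, R5_343, R10_175, R1_62⟩]⟩]⟩], [], [], [], [⟨nat_lit 0, [⟨nat_lit 4, [⟨nat_lit 6, nat_lit 2976, nat_lit 16032, nat_lit 6192, nat_lit 240, nat_lit 11520, R6_129, R3_5, R3_240⟩]⟩, ⟨nat_lit 5, [⟨nat_lit 6, nat_lit 3312, nat_lit 16176, nat_lit 8400, nat_lit 2496, nat_lit 9072, R8_175, R3_52, R10_189⟩]⟩]⟩,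
 ⟨nat_lit 3, [⟨nat_lit 4, [⟨nat_lit 6, nat_lit 10464, nat_lit 16128, nat_lit 13296, nat_lit 7200, nat_lit 15312, R4_277, R10_150, R3_319⟩]⟩, ⟨nat_lit 5, [⟨nat_lit 6, nat_lit 10512, nat_lit 16272, nat_lit 16512, nat_lit 8592, nat_lit 9360, R5_344, R10_179, R10_195⟩]⟩]⟩]]], [[], [], [], [[], [], [], [], [], [], [], [⟨nat_lit 0, [⟨nat_lit 3, [⟨nat_lit 4, nat_lit 2064, nat_lit 1776, nat_lit 7872, nat_lit 2928, nat_lit 3360, R6_164, R13_61, R2_70⟩, ⟨nat_lit 6, nat_lit 2112, nat_lit 1872, nat_lit 7968, nat_lit 3120, nat_lit 2832, R6_166, R3_65, R1_59⟩, ⟨nat_lit 7, nat_lit 2208, nat_lit 1824, nat_lit 7920, nat_lit 11760, nat_lit 13056, R6_165, R3_245, R12_272⟩]⟩]⟩,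
 ⟨nat_lit 2, [⟨nat_lit 0, [⟨nat_lit 7, nat_lit 3696, nat_lit 1056, nat_lit 6720, nat_lit 240, nat_lit 12240, R6_140, R10_5, R2_255⟩]⟩, ⟨nat_lit 2, [⟨nat_lit 7, nat_lit 4848, nat_lit 3072, nat_lit 7008, nat_lit 768, nat_lit 12816, R4_146, R10_16, R1_267⟩]⟩, ⟨nat_lit 3, [⟨nat_lit 4, nat_lit 7008, nat_lit 2832, nat_lit 7200, nat_lit 6480, nat_lit 4224, R8_150, R3_135, R2_88⟩, ⟨nat_lit 7, nat_lit 7104, nat_lit 2880, nat_lit 7248, nat_lit 1104, nat_lit 13296, R8_151, R10_23, R12_277⟩]⟩]⟩,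
 ⟨nat_lit 3, [⟨nat_lit 3, [⟨nat_lit 4, nat_lit 9696, nat_lit 2304, nat_lit 8352, nat_lit 13248, nat_lit 4800, R4_174, R3_276, R2_100⟩, ⟨nat_lit 6, nat_lit 9792, nat_lit 2352, nat_lit 8400, nat_lit 5280, nat_lit 3504, R4_175, R10_110, R1_73⟩]⟩, ⟨nat_lit 7, [⟨nat_lit 6, nat_lit 10752, nat_lit 624, nat_lit 8400, nat_lit 7680, nat_lit 17520, R7_175, R10_160, R11_365⟩]⟩]⟩]], [[], [], [], [], [⟨nat_lit 2, [⟨nat_lit 2, [⟨nat_lit 0, nat_lit 4320, nat_lit 16032, nat_lit 6768, nat_lit 672, nat_lit 1008, R4_141, R4_14, R4_21⟩, ⟨nat_lit 3, nat_lit 4512, nat_lit 16272, nat_lit 6816, nat_lit 1584, nat_lit 0, R4_142, R5_33, R5_0⟩]⟩]⟩,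
 ⟨nat_lit 4, [⟨nat_lit 6, [⟨nat_lit 2, nat_lit 11568, nat_lit 2400, nat_lit 9024, nat_lit 240, nat_lit 4320, R6_188, R7_5, R14_90⟩]⟩]⟩,
 ⟨nat_lit 6, [⟨nat_lit 2, [⟨nat_lit 0, nat_lit 12336, nat_lit 11040, nat_lit 10608, nat_lit 768, nat_lit 1584, R7_221, R7_16, R4_33⟩]⟩, ⟨nat_lit 6, [⟨nat_lit 0, nat_lit 13584, nat_lit 9936, nat_lit 9648, nat_lit 1296, nat_lit 1680, R4_201, R7_27, R7_35⟩, ⟨nat_lit 2, nat_lit 13872, nat_lit 10128, nat_lit 9696, nat_lit 18528, nat_lit 4368, R4_202, R14_386, R14_91⟩]⟩]⟩,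
 ⟨nat_lit 7, [⟨nat_lit 4, [⟨nat_lit 6, nat_lit 16032, nat_lit 4752, nat_lit 4464, nat_lit 1008, nat_lit 12144, R6_93, R5_21, R4_253⟩]⟩, ⟨nat_lit 7, [⟨nat_lit 6, nat_lit 17376, nat_lit 5904, nat_lit 4704, nat_lit 1296, nat_lit 14304, R4_98, R5_27, R5_298⟩]⟩]⟩], [⟨nat_lit 4, [⟨nat_lit 6, [⟨nat_lit 2, nat_lit 11616, nat_lit 2304, nat_lit 9072, nat_lit 480, nat_lit 2688, R6_189, R7_10, R12_56⟩]⟩]⟩,
 ⟨nat_lit 6, [⟨nat_lit 6, [⟨nat_lit 2, nat_lit 13920, nat_lit 11184, nat_lit 9744, nat_lit 19440, nat_lit 2736, R4_203, R14_405, R12_57⟩]⟩]⟩,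
 ⟨nat_lit 7, [⟨nat_lit 4, [⟨nat_lit 6, nat_lit 16080, nat_lit 5088, nat_lit 5616, nat_lit 3360, nat_lit 8544, R6_117, R5_70, R3_178⟩]⟩]⟩], [⟨nat_lit 2, [⟨nat_lit 2, [⟨nat_lit 0, nat_lit 4368, nat_lit 17856, nat_lit 7056, nat_lit 7056, nat_lit 4368, R4_147, R4_147, R3_91⟩]⟩]⟩,
 ⟨nat_lit 4, [⟨nat_lit 6, [⟨nat_lit 2, nat_lit 11664, nat_lit 3840, nat_lit 9120, nat_lit 336, nat_lit 6864, R6_190, R7_7, R12_143⟩]⟩]⟩,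
 ⟨nat_lit 6, [⟨nat_lit 2, [⟨nat_lit 0, nat_lit 12384, nat_lit 11136, nat_lit 10656, nat_lit 6768, nat_lit 12384, R7_222, R7_141, R3_258⟩]⟩, ⟨nat_lit 6, [⟨nat_lit 0, nat_lit 13632, nat_lit 11184, nat_lit 9792, nat_lit 7296, nat_lit 240, R4_204, R7_152, R2_5⟩, ⟨nat_lit 2, nat_lit 13968, nat_lit 11808, nat_lit 9840, nat_lit 19008, nat_lit 6912, R4_205, R14_396, R12_144⟩]⟩]⟩]], [], [[], [], [], [], [], [], [⟨nat_lit 2, [⟨nat_lit 2, [⟨nat_lit 0, nat_lit 4416, nat_lit 4224, nat_lit 7200, nat_lit 5520, nat_lit 4944, R4_150, R3_115, R3_103⟩, ⟨nat_lit 1, nat_lit 4464, nat_lit 4320, nat_lit 7296, nat_lit 816, nat_lit 14256, R4_152, R10_17, R10_297⟩]⟩]⟩,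
 ⟨nat_lit 6, [⟨nat_lit 2, [⟨nat_lit 0, nat_lit 12432, nat_lit 3168, nat_lit 10944, nat_lit 4944, nat_lit 13152, R7_228, R2_103, R3_274⟩, ⟨nat_lit 1, nat_lit 12576, nat_lit 3216, nat_lit 10992, nat_lit 3648, nat_lit 14112, R7_229, R1_76, R10_294⟩]⟩]⟩]], [[], [], [], [], [⟨nat_lit 2, [⟨nat_lit 2, [⟨nat_lit 3, nat_lit 4656, nat_lit 4416, nat_lit 6864, nat_lit 1488, nat_lit 5040, R4_143, R11_31, R5_105⟩]⟩]⟩,
 ⟨nat_lit 3, [⟨nat_lit 7, [⟨nat_lit 6, nat_lit 10608, nat_lit 1632, nat_lit 9408, nat_lit 6192, nat_lit 14544, R7_196, R1_129, R5_303⟩]⟩]⟩,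
 ⟨nat_lit 4, [⟨nat_lit 6, [⟨nat_lit 2, nat_lit 11712, nat_lit 1824, nat_lit 9168, nat_lit 1248, nat_lit 4656, R6_191, R2_26, R14_97⟩]⟩]⟩,
 ⟨nat_lit 6, [⟨nat_lit 2, [⟨nat_lit 0, nat_lit 12480, nat_lit 4128, nat_lit 10704, nat_lit 1968, nat_lit 8304, R7_223, R2_41, R4_173⟩, ⟨nat_lit 3, nat_lit 12624, nat_lit 4176, nat_lit 10752, nat_lit 1440, nat_lit 4992, R7_224, R1_30, R5_104⟩]⟩, ⟨nat_lit 6, [⟨nat_lit 0, nat_lit 13728, nat_lit 2400, nat_lit 9888, nat_lit 144, nat_lit 8304, R4_206, R2_3, R7_173⟩, ⟨nat_lit 2, nat_lit 14064, nat_lit 2448, nat_lit 9936, nat_lit 432, nat_lit 4752, R4_207, R12_9, R14_99⟩]⟩]⟩,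
 ⟨nat_lit 7, [⟨nat_lit 4, [⟨nat_lit 2, nat_lit 15888, nat_lit 432, nat_lit 4944, nat_lit 48, nat_lit 13344, R6_103, R1_1, R7_278⟩, ⟨nat_lit 6, nat_lit 16128, nat_lit 480, nat_lit 4896, nat_lit 576, nat_lit 12192, R6_102, R11_12, R4_254⟩]⟩, ⟨nat_lit 6, [⟨nat_lit 2, nat_lit 16848, nat_lit 2256, nat_lit 8496, nat_lit 720, nat_lit 4704, R8_177, R1_15, R14_98⟩]⟩, ⟨nat_lit 7, [⟨nat_lit 6, nat_lit 17472, nat_lit 960, nat_lit 5280, nat_lit 864, nat_lit 14688, R4_110, R11_18, R5_306⟩]⟩]⟩], [⟨nat_lit 4, [⟨nat_lit 6, [⟨nat_lit 2, nat_lit 11760, nat_lit 2208, nat_lit 9216, nat_lit 1824, nat_lit 3024, R6_192, R2_38, R12_63⟩]⟩]⟩,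
 ⟨nat_lit 6, [⟨nat_lit 6, [⟨nat_lit 2, nat_lit 14112, nat_lit 2880, nat_lit 9984, nat_lit 2496, nat_lit 3120, R4_208, R12_52, R12_65⟩]⟩]⟩,
 ⟨nat_lit 7, [⟨nat_lit 4, [⟨nat_lit 2, nat_lit 15936, nat_lit 624, nat_lit 6288, nat_lit 192, nat_lit 11904, R6_131, R1_4, R2_248⟩, ⟨nat_lit 6, nat_lit 16176, nat_lit 672, nat_lit 6240, nat_lit 3360, nat_lit 8592, R6_130, R11_70, R3_179⟩]⟩, ⟨nat_lit 6, [⟨nat_lit 2, nat_lit 16896, nat_lit 2736, nat_lit 8544, nat_lit 1296, nat_lit 3072, R8_178, R1_27, R12_64⟩]⟩]⟩], [], [⟨nat_lit 0, [⟨nat_lit 3, [⟨nat_lit 7, nat_lit 2160, nat_lit 11856, nat_lit 9264, nat_lit 1344, nat_lit 13008, R6_193, R2_28, R12_271⟩]⟩]⟩,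
 ⟨nat_lit 2, [⟨nat_lit 0, [⟨nat_lit 7, nat_lit 3648, nat_lit 15984, nat_lit 6672, nat_lit 144, nat_lit 12288, R6_139, R1_3, R2_256⟩]⟩, ⟨nat_lit 2, [⟨nat_lit 3, nat_lit 4752, nat_lit 17568, nat_lit 6912, nat_lit 1584, nat_lit 18192, R4_144, R11_33, R11_379⟩, ⟨nat_lit 7, nat_lit 4800, nat_lit 17328, nat_lit 6960, nat_lit 480, nat_lit 12864, R4_145, R1_10, R1_268⟩]⟩, ⟨nat_lit 3, [⟨nat_lit 7, nat_lit 7056, nat_lit 16992, nat_lit 8592, nat_lit 816, nat_lit 13248, R8_179, R1_17, R12_276⟩]⟩]⟩,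
 ⟨nat_lit 3, [⟨nat_lit 3, [⟨nat_lit 4, nat_lit 9648, nat_lit 13824, nat_lit 10032, nat_lit 5856, nat_lit 5280, R4_209, R2_122, R2_110⟩, ⟨nat_lit 6, nat_lit 9744, nat_lit 14304, nat_lit 10128, nat_lit 4560, nat_lit 3984, R4_211, R1_95, R1_83⟩, ⟨nat_lit 7, nat_lit 9840, nat_lit 14208, nat_lit 10080, nat_lit 624, nat_lit 13488, R4_210, R12_13, R12_281⟩]⟩, ⟨nat_lit 7, [⟨nat_lit 6, nat_lit 10704, nat_lit 12720, nat_lit 10800, nat_lit 6864, nat_lit 18048, R7_225, R1_143, R11_376⟩]⟩]⟩,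
 ⟨nat_lit 4, [⟨nat_lit 6, [⟨nat_lit 2, nat_lit 11856, nat_lit 2160, nat_lit 9264, nat_lit 1344, nat_lit 13008, R6_193, R2_28, R12_271⟩]⟩]⟩,
 ⟨nat_lit 6, [⟨nat_lit 2, [⟨nat_lit 3, nat_lit 12720, nat_lit 10704, nat_lit 10800, nat_lit 6864, nat_lit 18048, R7_225, R1_143, R11_376⟩]⟩, ⟨nat_lit 6, [⟨nat_lit 0, nat_lit 13824, nat_lit 9648, nat_lit 10032, nat_lit 5856, nat_lit 5280, R4_209, R2_122, R2_110⟩, ⟨nat_lit 2, nat_lit 14208, nat_lit 9840, nat_lit 10080, nat_lit 624, nat_lit 13488, R4_210, R12_13, R12_281⟩, ⟨nat_lit 3, nat_lit 14304, nat_lit 9744, nat_lit 10128, nat_lit 4560, nat_lit 3984, R4_211, R1_95, R1_83⟩]⟩]⟩,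
 ⟨nat_lit 7, [⟨nat_lit 4, [⟨nat_lit 2, nat_lit 15984, nat_lit 3648, nat_lit 6672, nat_lit 144, nat_lit 12288, R6_139, R1_3, R2_256⟩]⟩, ⟨nat_lit 6, [⟨nat_lit 2, nat_lit 16992, nat_lit 7056, nat_lit 8592, nat_lit 816, nat_lit 13248, R8_179, R1_17, R12_276⟩]⟩, ⟨nat_lit 7, [⟨nat_lit 2, nat_lit 17328, nat_lit 4800, nat_lit 6960, nat_lit 480, nat_lit 12864, R4_145, R1_10, R1_268⟩, ⟨nat_lit 6, nat_lit 17568, nat_lit 4752, nat_lit 6912, nat_lit 1584, nat_lit 18192, R4_144, R11_33, R11_379⟩]⟩]⟩]]], [[], [], [], [], [[], [], [], [], [], [⟨nat_lit 4, [⟨nat_lit 4, [⟨nat_lit 2, nat_lit 11088, nat_lit 2544, nat_lit 13152, nat_lit 4800, nat_lit 14400, R6_274, R7_100, R2_300⟩, ⟨nat_lit 6, nat_lit 11424, nat_lit 3408, nat_lit 13440, nat_lit 4992, nat_lit 2928, R6_280, R4_104, R3_61⟩]⟩, ⟨nat_lit 6, [⟨nat_lit 2, nat_lit 11952,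 nat_lit 2688, nat_lit 11856, nat_lit 5424, nat_lit 4032, R13_247, R7_113, R12_84⟩]⟩]⟩,
 ⟨nat_lit 6, [⟨nat_lit 6, [⟨nat_lit 2, nat_lit 14640, nat_lit 13920, nat_lit 14736, nat_lit 21120, nat_lit 4080, R3_307, R14_440, R12_85⟩]⟩]⟩,
 ⟨nat_lit 7, [⟨nat_lit 4, [⟨nat_lit 6, nat_lit 16416, nat_lit 11472, nat_lit 14592, nat_lit 11424, nat_lit 8688, R8_304, R5_238, R3_181⟩]⟩]⟩]], [[], [], [], [], [], [⟨nat_lit 4, [⟨nat_lit 4, [⟨nat_lit 2, nat_lit 11184, nat_lit 15744, nat_lit 13200, nat_lit 3216, nat_lit 14592, R6_275, R2_67, R2_304⟩, ⟨nat_lit 6, nat_lit 11520, nat_lit 16032, nat_lit 13488, nat_lit 240, nat_lit 2976, R6_281, R3_5, R3_62⟩]⟩, ⟨nat_lit 6, [⟨nat_lit 2, nat_lit 12096, nat_lit 16896, nat_lit 12000, nat_lit 3840, nat_lit 5376, R13_250, R2_80, R12_112⟩]⟩]⟩,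
 ⟨nat_lit 5, [⟨nat_lit 4, [⟨nat_lit 2, nat_lit 15216, nat_lit 15792, nat_lit 13200, nat_lit 2688, nat_lit 14832, R4_275, R1_56, R2_309⟩, ⟨nat_lit 6, nat_lit 15312, nat_lit 16128, nat_lit 13296, nat_lit 3216, nat_lit 10464, R4_277, R10_67, R3_218⟩]⟩, ⟨nat_lit 6, [⟨nat_lit 2, nat_lit 15552, nat_lit 16944, nat_lit 9216, nat_lit 3312, nat_lit 5472, R3_192, R1_69, R12_114⟩]⟩]⟩,
 ⟨nat_lit 6, [⟨nat_lit 6, [⟨nat_lit 2, nat_lit 14784, nat_lit 16992, nat_lit 14784, nat_lit 16896, nat_lit 5424, R3_308, R12_352, R12_113⟩]⟩]⟩]]], [[[⟨nat_lit 0, [⟨nat_lit 0, [⟨nat_lit 4, nat_lit 0, nat_lit 1872, nat_lit 5952, nat_lit 14448, nat_lit 8256, R6_124, R6_301, R6_172⟩, ⟨nat_lit 5, nat_lit 288, nat_lit 7392, nat_lit 6384, nat_lit 17664, nat_lit 5136, R6_133, R8_368, R8_107⟩, ⟨nat_lit 6, nat_lit 144, nat_lit 10800, nat_lit 6096, nat_lit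 14112, nat_lit 8688, R6_127, R4_294, R4_181⟩]⟩, ⟨nat_lit 1, [⟨nat_lit 4, nat_lit 720, nat_lit 2400, nat_lit 6288, nat_lit 15984, nat_lit 768, R4_131, R6_333, R8_16⟩, ⟨nat_lit 5, nat_lit 1008, nat_lit 7728, nat_lit 6624, nat_lit 17808, nat_lit 4608, R4_138, R8_371, R9_96⟩, ⟨nat_lit 6, nat_lit 864, nat_lit 11232, nat_lit 6432, nat_lit 14976, nat_lit 5136, R4_134, R4_312, R5_107⟩]⟩]⟩,
 ⟨nat_lit 2, [⟨nat_lit 0, [⟨nat_lit 4, nat_lit 3744, nat_lit 2064, nat_lit 7200, nat_lit 240, nat_lit 8592, R13_150, R4_5, R6_179⟩, ⟨nat_lit 5, nat_lit 3888, nat_lit 7584, nat_lit 7248, nat_lit 3840, nat_lit 5184, R13_151, R5_80, R8_108⟩]⟩, ⟨nat_lit 1, [⟨nat_lit 4, nat_lit 6048, nat_lit 2544, nat_lit 6048, nat_lit 2544, nat_lit 864, R3_126, R4_53, R8_18⟩, ⟨nat_lit 5, nat_lit 6192, nat_lit 7872, nat_lit 6096, nat_lit 4128, nat_lit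 4656, R3_127, R5_86, R9_97⟩]⟩, ⟨nat_lit 2, [⟨nat_lit 4, nat_lit 5472, nat_lit 2784, nat_lit 4896, nat_lit 816, nat_lit 1104, R3_102, R4_17, R4_23⟩, ⟨nat_lit 5, nat_lit 5616, nat_lit 7968, nat_lit 5184, nat_lit 3984, nat_lit 96, R3_108, R5_83, R5_2⟩]⟩]⟩], [], [], [⟨nat_lit 0, [⟨nat_lit 0, [⟨nat_lit 4, nat_lit 48, nat_lit 1056, nat_lit 6000, nat_lit 14640, nat_lit 15216, R6_125, R6_305, R13_317⟩, ⟨nat_lit 5, nat_lit 336, nat_lit 9408, nat_lit 6432, nat_lit 18384, nat_lit 13248, R6_134, R8_383, R9_276⟩, ⟨nat_lit 6, nat_lit 192, nat_lit 13104, nat_lit 6144, nat_lit 14208, nat_lit 11472, R6_128, R4_296, R3_239⟩]⟩, ⟨nat_lit 1, [⟨nat_lit 4, nat_lit 768, nat_lit 1680, nat_lit 6336, nat_lit 16224, nat_lit 3744, R4_132, R6_338, R9_78⟩]⟩, ⟨nat_lit 3, [⟨nat_lit 4, nat_lit 2256, nat_lit 1344, nat_lit 7584, nat_lit 15408,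 nat_lit 384, R8_158, R6_321, R3_8⟩, ⟨nat_lit 6, nat_lit 2400, nat_lit 13248, nat_lit 7680, nat_lit 14688, nat_lit 2880, R8_160, R4_306, R10_60⟩]⟩]⟩,
 ⟨nat_lit 2, [⟨nat_lit 0, [⟨nat_lit 4, nat_lit 3792, nat_lit 3456, nat_lit 7344, nat_lit 5472, nat_lit 16176, R13_153, R4_114, R13_337⟩, ⟨nat_lit 5, nat_lit 3936, nat_lit 11664, nat_lit 7392, nat_lit 12192, nat_lit 13872, R13_154, R5_254, R9_289⟩]⟩, ⟨nat_lit 1, [⟨nat_lit 4, nat_lit 6096, nat_lit 4128, nat_lit 6192, nat_lit 7872, nat_lit 4656, R3_129, R4_164, R9_97⟩]⟩, ⟨nat_lit 2, [⟨nat_lit 4, nat_lit 5520, nat_lit 4224, nat_lit 4944, nat_lit 7200, nat_lit 4416, R3_103, R4_150, R3_92⟩]⟩, ⟨nat_lit 3, [⟨nat_lit 4, nat_lit 7152, nat_lit 3744, nat_lit 5376, nat_lit 6672, nat_lit 1056, R9_112, R4_139, R3_22⟩]⟩]⟩]], [], [[⟨nat_lit 0, [⟨nat_lit 0, [⟨nat_lit 5, nat_lit 384,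 nat_lit 2256, nat_lit 6528, nat_lit 1344, nat_lit 5472, R6_136, R5_28, R8_114⟩]⟩, ⟨nat_lit 1, [⟨nat_lit 5, nat_lit 1056, nat_lit 7152, nat_lit 6672, nat_lit 3744, nat_lit 4848, R4_139, R5_78, R9_101⟩]⟩]⟩,
 ⟨nat_lit 2, [⟨nat_lit 0, [⟨nat_lit 5, nat_lit 3984, nat_lit 2352, nat_lit 7296, nat_lit 912, nat_lit 5520, R13_152, R11_19, R8_115⟩]⟩, ⟨nat_lit 1, [⟨nat_lit 5, nat_lit 6240, nat_lit 7248, nat_lit 6144, nat_lit 3744, nat_lit 4896, R3_128, R11_78, R9_102⟩]⟩, ⟨nat_lit 2, [⟨nat_lit 5, nat_lit 5712, nat_lit 9984, nat_lit 5328, nat_lit 1632, nat_lit 5760, R3_111, R11_34, R5_120⟩]⟩]⟩], [], [⟨nat_lit 0, [⟨nat_lit 0, [⟨nat_lit 5, nat_lit 432, nat_lit 2448, nat_lit 6624, nat_lit 1440, nat_lit 14352, R6_138, R5_30, R5_299⟩]⟩]⟩,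
 ⟨nat_lit 2, [⟨nat_lit 0, [⟨nat_lit 5, nat_lit 4032, nat_lit 2496, nat_lit 7632, nat_lit 1008, nat_lit 14736, R13_159, R11_21, R5_307⟩]⟩, ⟨nat_lit 2, [⟨nat_lit 1, nat_lit 5136, nat_lit 2688, nat_lit 5904, nat_lit 528, nat_lit 13008, R3_123, R1_11, R1_271⟩, ⟨nat_lit 5, nat_lit 5760, nat_lit 2640, nat_lit 5424, nat_lit 1728, nat_lit 18240, R3_113, R11_36, R11_380⟩]⟩]⟩]], [[], [], [], [⟨nat_lit 0, [⟨nat_lit 0, [⟨nat_lit 4, nat_lit 96, nat_lit 3264, nat_lit 6048, nat_lit 2640, nat_lit 15264, R6_126, R13_55, R13_318⟩, ⟨nat_lit 5, nat_lit 528, nat_lit 3312, nat_lit 6480, nat_lit 1968, nat_lit 13296, R6_135, R9_41, R9_277⟩, ⟨nat_lit 6, nat_lit 240, nat_lit 3408, nat_lit 6192, nat_lit 2976, nat_lit 11520, R6_129, R3_62, R3_240⟩, ⟨nat_lit 7, nat_lit 672, nat_lit 3360, nat_lit 6240, nat_lit 16176, nat_lit 8592, R6_130,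 R3_337, R3_179⟩]⟩, ⟨nat_lit 1, [⟨nat_lit 4, nat_lit 816, nat_lit 3600, nat_lit 6384, nat_lit 4368, nat_lit 3984, R4_133, R13_91, R9_83⟩]⟩, ⟨nat_lit 3, [⟨nat_lit 4, nat_lit 2352, nat_lit 3840, nat_lit 8208, nat_lit 3600, nat_lit 3984, R8_171, R13_75, R3_83⟩, ⟨nat_lit 6, nat_lit 2496, nat_lit 3936, nat_lit 8400, nat_lit 3312, nat_lit 3552, R8_175, R3_69, R10_74⟩]⟩]⟩,
 ⟨nat_lit 2, [⟨nat_lit 0, [⟨nat_lit 4, nat_lit 3840, nat_lit 3456, nat_lit 7440, nat_lit 3840, nat_lit 16224, R13_155, R3_80, R13_338⟩, ⟨nat_lit 7, nat_lit 4272, nat_lit 3552, nat_lit 7488, nat_lit 528, nat_lit 8928, R13_156, R10_11, R3_186⟩]⟩, ⟨nat_lit 1, [⟨nat_lit 4, nat_lit 6144, nat_lit 3744, nat_lit 6240, nat_lit 7248, nat_lit 4896, R3_130, R3_151, R9_102⟩]⟩, ⟨nat_lit 2, [⟨nat_lit 4, nat_lit 5568, nat_lit 4224, nat_lit 4992, nat_lit 5568, nat_lit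 4992, R3_104, R3_116, R3_104⟩, ⟨nat_lit 7, nat_lit 6000, nat_lit 4320, nat_lit 5040, nat_lit 864, nat_lit 14304, R3_105, R10_18, R10_298⟩]⟩, ⟨nat_lit 3, [⟨nat_lit 4, nat_lit 7248, nat_lit 4128, nat_lit 5472, nat_lit 6144, nat_lit 6240, R9_114, R3_128, R3_130⟩]⟩]⟩,
 ⟨nat_lit 3, [⟨nat_lit 3, [⟨nat_lit 4, nat_lit 9984, nat_lit 3984, nat_lit 5760, nat_lit 5328, nat_lit 5712, R5_120, R3_111, R3_119⟩, ⟨nat_lit 6, nat_lit 10128, nat_lit 4080, nat_lit 5808, nat_lit 4704, nat_lit 4128, R5_121, R10_98, R10_86⟩]⟩]⟩], [], [], [], [⟨nat_lit 0, [⟨nat_lit 0, [⟨nat_lit 7, nat_lit 624, nat_lit 192, nat_lit 6288, nat_lit 15936, nat_lit 11904, R6_131, R3_332, R2_248⟩]⟩, ⟨nat_lit 3, [⟨nat_lit 4, nat_lit 2304, nat_lit 1248, nat_lit 8256, nat_lit 3648, nat_lit 3456, R8_172, R13_76, R2_72⟩, ⟨nat_lit 6, nat_lit 2448, nat_lit 1344,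 nat_lit 8448, nat_lit 3360, nat_lit 2928, R8_176, R3_70, R1_61⟩, ⟨nat_lit 7, nat_lit 2736, nat_lit 1296, nat_lit 8544, nat_lit 16896, nat_lit 13152, R8_178, R3_352, R12_274⟩]⟩]⟩,
 ⟨nat_lit 2, [⟨nat_lit 0, [⟨nat_lit 7, nat_lit 4224, nat_lit 384, nat_lit 7152, nat_lit 576, nat_lit 12384, R13_149, R10_12, R2_258⟩]⟩, ⟨nat_lit 2, [⟨nat_lit 7, nat_lit 5952, nat_lit 2544, nat_lit 5088, nat_lit 912, nat_lit 12960, R3_106, R10_19, R1_270⟩]⟩, ⟨nat_lit 3, [⟨nat_lit 4, nat_lit 7200, nat_lit 2304, nat_lit 5280, nat_lit 6576, nat_lit 4320, R9_110, R3_137, R2_90⟩, ⟨nat_lit 7, nat_lit 7488, nat_lit 2352, nat_lit 5328, nat_lit 2112, nat_lit 13392, R9_111, R10_44, R12_279⟩]⟩]⟩,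
 ⟨nat_lit 3, [⟨nat_lit 3, [⟨nat_lit 4, nat_lit 9936, nat_lit 1776, nat_lit 5664, nat_lit 13440, nat_lit 4848, R5_118, R3_280, R2_101⟩, ⟨nat_lit 6, nat_lit 10080, nat_lit 1824, nat_lit 5712, nat_lit 5328, nat_lit 3552, R5_119, R10_111, R1_74⟩]⟩]⟩]], [[], [], [], [], [⟨nat_lit 2, [⟨nat_lit 2, [⟨nat_lit 0, nat_lit 4896, nat_lit 2784, nat_lit 5472, nat_lit 816, nat_lit 1104, R3_114, R4_17, R4_23⟩, ⟨nat_lit 3, nat_lit 5184, nat_lit 7968, nat_lit 5616, nat_lit 3984, nat_lit 96, R3_117, R5_83, R5_2⟩]⟩]⟩,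
 ⟨nat_lit 6, [⟨nat_lit 2, [⟨nat_lit 0, nat_lit 13104, nat_lit 2928, nat_lit 4752, nat_lit 912, nat_lit 1632, R2_99, R7_19, R4_34⟩]⟩]⟩], [], [⟨nat_lit 2, [⟨nat_lit 2, [⟨nat_lit 0, nat_lit 4944, nat_lit 4224, nat_lit 5520, nat_lit 7200, nat_lit 4416, R3_115, R4_150, R3_92⟩]⟩]⟩,
 ⟨nat_lit 6, [⟨nat_lit 2, [⟨nat_lit 0, nat_lit 13152, nat_lit 3168, nat_lit 4944, nat_lit 6912, nat_lit 12432, R2_103, R7_144, R3_259⟩]⟩]⟩]], [], [[], [], [⟨nat_lit 2, [⟨nat_lit 2, [⟨nat_lit 1, nat_lit 5088, nat_lit 2544, nat_lit 5952, nat_lit 912, nat_lit 12960, R3_124, R10_19, R1_270⟩]⟩]⟩,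
 ⟨nat_lit 6, [⟨nat_lit 2, [⟨nat_lit 1, nat_lit 13392, nat_lit 2496, nat_lit 5184, nat_lit 15456, nat_lit 12912, R2_108, R1_322, R1_269⟩]⟩]⟩], [], [], [], [⟨nat_lit 2, [⟨nat_lit 2, [⟨nat_lit 0, nat_lit 4992, nat_lit 4224, nat_lit 5568, nat_lit 5568, nat_lit 4992, R3_116, R3_116, R3_104⟩, ⟨nat_lit 1, nat_lit 5040, nat_lit 4320, nat_lit 6000, nat_lit 864, nat_lit 14304, R3_125, R10_18, R10_298⟩]⟩]⟩,
 ⟨nat_lit 6, [⟨nat_lit 2, [⟨nat_lit 0, nat_lit 13200, nat_lit 3168, nat_lit 5088, nat_lit 5088, nat_lit 13200, R2_106, R2_106, R3_275⟩, ⟨nat_lit 1, nat_lit 13344, nat_lit 3216, nat_lit 5136, nat_lit 3792, nat_lit 14160, R2_107, R1_79, R10_295⟩]⟩]⟩]], [[], [], [], [], [⟨nat_lit 2, [⟨nat_lit 2, [⟨nat_lit 3, nat_lit 5328, nat_lit 9984, nat_lit 5712, nat_lit 1632, nat_lit 5760, R3_119, R11_34, R5_120⟩]⟩]⟩,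
 ⟨nat_lit 6, [⟨nat_lit 2, [⟨nat_lit 0, nat_lit 13248, nat_lit 9696, nat_lit 4800, nat_lit 2304, nat_lit 8352, R2_100, R2_48, R4_174⟩, ⟨nat_lit 3, nat_lit 13440, nat_lit 9936, nat_lit 4848, nat_lit 1776, nat_lit 5664, R2_101, R1_37, R5_118⟩]⟩]⟩], [], [], [⟨nat_lit 0, [⟨nat_lit 0, [⟨nat_lit 7, nat_lit 576, nat_lit 288, nat_lit 6336, nat_lit 960, nat_lit 11952, R6_132, R2_20, R2_249⟩]⟩, ⟨nat_lit 3, [⟨nat_lit 7, nat_lit 2688, nat_lit 1248, nat_lit 7152, nat_lit 2496, nat_lit 13104, R8_149, R2_52, R12_273⟩]⟩]⟩,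
 ⟨nat_lit 2, [⟨nat_lit 0, [⟨nat_lit 7, nat_lit 4176, nat_lit 624, nat_lit 7104, nat_lit 288, nat_lit 12432, R13_148, R1_6, R2_259⟩]⟩, ⟨nat_lit 2, [⟨nat_lit 3, nat_lit 5424, nat_lit 2640, nat_lit 5760, nat_lit 1728, nat_lit 18240, R3_120, R11_36, R11_380⟩, ⟨nat_lit 7, nat_lit 5904, nat_lit 2688, nat_lit 5136, nat_lit 528, nat_lit 13008, R3_107, R1_11, R1_271⟩]⟩, ⟨nat_lit 3, [⟨nat_lit 7, nat_lit 7440, nat_lit 2208, nat_lit 5232, nat_lit 1968, nat_lit 13344, R9_109, R1_41, R12_278⟩]⟩]⟩,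
 ⟨nat_lit 3, [⟨nat_lit 3, [⟨nat_lit 4, nat_lit 9888, nat_lit 1920, nat_lit 5520, nat_lit 5904, nat_lit 5328, R5_115, R2_123, R2_111⟩, ⟨nat_lit 6, nat_lit 10032, nat_lit 2016, nat_lit 5568, nat_lit 4608, nat_lit 4032, R5_116, R1_96, R1_84⟩, ⟨nat_lit 7, nat_lit 10224, nat_lit 1968, nat_lit 5616, nat_lit 672, nat_lit 13536, R5_117, R12_14, R12_282⟩]⟩]⟩,
 ⟨nat_lit 6, [⟨nat_lit 2, [⟨nat_lit 3, nat_lit 13536, nat_lit 2400, nat_lit 4896, nat_lit 7200, nat_lit 18096, R2_102, R1_150, R11_377⟩]⟩]⟩]]], [[], [], [], [[], [], [], [], [⟨nat_lit 0, [⟨nat_lit 7, [⟨nat_lit 6, nat_lit 3408, nat_lit 11088, nat_lit 10176, nat_lit 1536, nat_lit 15264, R7_212, R3_32, R5_318⟩]⟩]⟩,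
 ⟨nat_lit 3, [⟨nat_lit 4, [⟨nat_lit 6, nat_lit 10368, nat_lit 10800, nat_lit 14784, nat_lit 7056, nat_lit 13632, R7_308, R10_147, R4_284⟩]⟩, ⟨nat_lit 7, [⟨nat_lit 6, nat_lit 10896, nat_lit 11136, nat_lit 9984, nat_lit 7392, nat_lit 15456, R14_208, R10_154, R5_322⟩]⟩]⟩], [⟨nat_lit 3, [⟨nat_lit 4, [⟨nat_lit 6, nat_lit 10416, nat_lit 11184, nat_lit 15024, nat_lit 7248, nat_lit 15408, R7_313, R10_151, R3_321⟩]⟩]⟩], [], [⟨nat_lit 0, [⟨nat_lit 3, [⟨nat_lit 4, nat_lit 2784, nat_lit 2448, nat_lit 9408, nat_lit 3216, nat_lit 3408, R4_196, R13_67, R2_71⟩, ⟨nat_lit 6, nat_lit 2832, nat_lit 2544, nat_lit 9600, nat_lit 3216, nat_lit 2880, R4_200, R3_67, R1_60⟩, ⟨nat_lit 7, nat_lit 2880, nat_lit 2496, nat_lit 9984, nat_lit 14112, nat_lit 13200, R4_208, R3_294, R12_275⟩]⟩, ⟨nat_lit 7, [⟨nat_lit 6, nat_lit 3504, nat_lit 2352,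 nat_lit 10224, nat_lit 1584, nat_lit 19584, R7_213, R3_33, R11_408⟩]⟩]⟩,
 ⟨nat_lit 2, [⟨nat_lit 3, [⟨nat_lit 4, nat_lit 7536, nat_lit 2592, nat_lit 5424, nat_lit 6528, nat_lit 4272, R5_113, R3_136, R2_89⟩, ⟨nat_lit 7, nat_lit 7584, nat_lit 2640, nat_lit 5472, nat_lit 1536, nat_lit 13440, R5_114, R10_32, R12_280⟩]⟩]⟩,
 ⟨nat_lit 3, [⟨nat_lit 7, [⟨nat_lit 6, nat_lit 10992, nat_lit 2400, nat_lit 10080, nat_lit 7728, nat_lit 19776, R14_210, R10_161, R11_412⟩]⟩]⟩]], [], [], [], [[], [], [], [], [⟨nat_lit 3, [⟨nat_lit 4, [⟨nat_lit 6, nat_lit 10272, nat_lit 16656, nat_lit 14736, nat_lit 5856, nat_lit 13584, R7_307, R1_122, R4_283⟩]⟩, ⟨nat_lit 7, [⟨nat_lit 6, nat_lit 10800, nat_lit 17184, nat_lit 10128, nat_lit 6240, nat_lit 16080, R14_211, R1_130, R5_335⟩]⟩]⟩,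
 ⟨nat_lit 7, [⟨nat_lit 4, [⟨nat_lit 2, nat_lit 16656, nat_lit 10272, nat_lit 13584, nat_lit 5856, nat_lit 14736, R4_283, R1_122, R7_307⟩, ⟨nat_lit 6, nat_lit 16752, nat_lit 16752, nat_lit 13392, nat_lit 7920, nat_lit 13392, R4_279, R11_165, R4_279⟩]⟩, ⟨nat_lit 6, [⟨nat_lit 2, nat_lit 17184, nat_lit 10800, nat_lit 16080, nat_lit 6240, nat_lit 5616, R5_335, R1_130, R14_117⟩]⟩]⟩], [⟨nat_lit 3, [⟨nat_lit 4, [⟨nat_lit 6, nat_lit 10320, nat_lit 12432, nat_lit 14976, nat_lit 5952, nat_lit 15456, R7_312, R1_124, R3_322⟩]⟩]⟩,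
 ⟨nat_lit 7, [⟨nat_lit 4, [⟨nat_lit 2, nat_lit 16704, nat_lit 12240, nat_lit 13776, nat_lit 5904, nat_lit 13920, R4_287, R1_123, R2_290⟩, ⟨nat_lit 6, nat_lit 16800, nat_lit 12384, nat_lit 13728, nat_lit 9600, nat_lit 8640, R4_286, R11_200, R3_180⟩]⟩, ⟨nat_lit 6, [⟨nat_lit 2, nat_lit 17232, nat_lit 12960, nat_lit 16128, nat_lit 6720, nat_lit 3600, R5_336, R1_140, R12_75⟩]⟩]⟩]]]]
noncomputable def N6554 : T3 (List N0) := [[[[], [⟨nat_lit 1, [⟨nat_lit 5, [⟨nat_lit 4, nat_lit 14784, nat_lit 5952, nat_lit 1440, nat_lit 11808, nat_lit 12480, R3_30, R4_246, R7_260⟩]⟩]⟩,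
 ⟨nat_lit 5, [⟨nat_lit 5, [⟨nat_lit 4, nat_lit 14832, nat_lit 13872, nat_lit 12480, nat_lit 12864, nat_lit 12384, R2_260, R7_268, R7_258⟩]⟩]⟩], [], [], [], [⟨nat_lit 1, [⟨nat_lit 4, [⟨nat_lit 4, nat_lit 4368, nat_lit 5808, nat_lit 5664, nat_lit 14928, nat_lit 10176, R4_118, R4_311, R6_212⟩]⟩, ⟨nat_lit 5, [⟨nat_lit 4, nat_lit 5136, nat_lit 6432, nat_lit 864, nat_lit 14976, nat_lit 11232, R3_18, R4_312, R4_234⟩]⟩]⟩]], [[], [⟨nat_lit 5, [⟨nat_lit 5, [⟨nat_lit 4, nat_lit 14880, nat_lit 13152, nat_lit 12864, nat_lit 3648, nat_lit 12720, R2_268, R14_76, R7_265⟩, ⟨nat_lit 6, nat_lit 15840, nat_lit 13440, nat_lit 12960, nat_lit 2208, nat_lit 10368, R2_270, R12_46, R2_216⟩]⟩]⟩]], [], [[], [⟨nat_lit 1, [⟨nat_lit 5, [⟨nat_lit 4, nat_lit 14928, nat_lit 8880, nat_lit 7920, nat_lit 13632, nat_lit 12576, R3_165, R5_284, R7_262⟩]⟩]⟩]]],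 [[], [[], [], [], [], [], [⟨nat_lit 4, [⟨nat_lit 4, [⟨nat_lit 4, nat_lit 4512, nat_lit 13152, nat_lit 1104, nat_lit 1632, nat_lit 10320, R7_23, R7_34, R6_215⟩, ⟨nat_lit 6, nat_lit 4896, nat_lit 13296, nat_lit 7104, nat_lit 192, nat_lit 9696, R7_148, R2_4, R13_202⟩]⟩, ⟨nat_lit 6, [⟨nat_lit 6, nat_lit 5520, nat_lit 13824, nat_lit 5328, nat_lit 5904, nat_lit 9888, R2_111, R2_123, R3_206⟩]⟩, ⟨nat_lit 7, [⟨nat_lit 4, nat_lit 6096, nat_lit 13440, nat_lit 288, nat_lit 8256, nat_lit 11232, R2_6, R7_172, R8_234⟩, ⟨nat_lit 6, nat_lit 6624, nat_lit 13728, nat_lit 7296, nat_lit 7200, nat_lit 7632, R2_152, R2_150, R9_159⟩, ⟨nat_lit 7, nat_lit 7008, nat_lit 13584, nat_lit 6000, nat_lit 5568, nat_lit 7728, R2_125, R2_116, R5_161⟩]⟩]⟩,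
 ⟨nat_lit 5, [⟨nat_lit 4, [⟨nat_lit 4, nat_lit 4560, nat_lit 15984, nat_lit 15840, nat_lit 1008, nat_lit 10608, R14_330, R14_21, R6_221⟩, ⟨nat_lit 6, nat_lit 4944, nat_lit 16176, nat_lit 16368, nat_lit 528, nat_lit 9744, R14_341, R12_11, R13_203⟩]⟩, ⟨nat_lit 5, [⟨nat_lit 4, nat_lit 5280, nat_lit 17664, nat_lit 12912, nat_lit 1920, nat_lit 11472, R12_269, R14_40, R4_239⟩, ⟨nat_lit 6, nat_lit 5472, nat_lit 17808, nat_lit 13440, nat_lit 2640, nat_lit 7584, R12_280, R12_55, R3_158⟩]⟩, ⟨nat_lit 6, [⟨nat_lit 6, nat_lit 5616, nat_lit 18192, nat_lit 13536, nat_lit 672, nat_lit 10224, R12_282, R12_14, R3_213⟩]⟩, ⟨nat_lit 7, [⟨nat_lit 4, nat_lit 6144, nat_lit 16800, nat_lit 7008, nat_lit 1584, nat_lit 11952, R12_146, R14_33, R8_249⟩, ⟨nat_lit 6, nat_lit 6672, nat_lit 17136, nat_lit 8592, nat_lit 1728, nat_lit 7680, R12_179,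 R12_36, R9_160⟩, ⟨nat_lit 7, nat_lit 7056, nat_lit 16944, nat_lit 7824, nat_lit 15936, nat_lit 7824, R12_163, R12_332, R5_163⟩]⟩]⟩]]], [], [[[], [], [], [], [], [⟨nat_lit 1, [⟨nat_lit 4, [⟨nat_lit 4, nat_lit 4656, nat_lit 8784, nat_lit 8160, nat_lit 15168, nat_lit 10224, R5_170, R4_316, R6_213⟩]⟩, ⟨nat_lit 7, [⟨nat_lit 4, nat_lit 6288, nat_lit 8928, nat_lit 8400, nat_lit 15216, nat_lit 10800, R11_175, R4_317, R8_225⟩]⟩]⟩]], [], [], [[], [], [], [], [], [⟨nat_lit 1, [⟨nat_lit 4, [⟨nat_lit 4, nat_lit 4704, nat_lit 1968, nat_lit 8448, nat_lit 16896, nat_lit 10272, R5_176, R5_352, R6_214⟩]⟩, ⟨nat_lit 7, [⟨nat_lit 4, nat_lit 6432, nat_lit 2064, nat_lit 8448, nat_lit 17232, nat_lit 10896, R11_176, R5_359, R8_227⟩, ⟨nat_lit 7, nat_lit 7296, nat_lit 2112, nat_lit 8496, nat_lit 6096, nat_lit 7584, R11_177, R11_127, R5_158⟩]⟩]⟩]]],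 [], [[], [], [], [], [[], [], [], [], [⟨nat_lit 0, [⟨nat_lit 0, [⟨nat_lit 3, nat_lit 1488, nat_lit 8016, nat_lit 5184, nat_lit 20496, nat_lit 6960, R4_108, R13_427, R6_145⟩]⟩, ⟨nat_lit 3, [⟨nat_lit 3, nat_lit 3840, nat_lit 8064, nat_lit 3888, nat_lit 20544, nat_lit 7584, R3_81, R13_428, R4_158⟩]⟩]⟩,
 ⟨nat_lit 2, [⟨nat_lit 0, [⟨nat_lit 3, nat_lit 1536, nat_lit 8688, nat_lit 8544, nat_lit 16848, nat_lit 7008, R5_178, R9_351, R6_146⟩]⟩, ⟨nat_lit 2, [⟨nat_lit 0, nat_lit 1872, nat_lit 3552, nat_lit 10656, nat_lit 288, nat_lit 9696, R11_222, R8_6, R6_202⟩, ⟨nat_lit 2, nat_lit 2064, nat_lit 10848, nat_lit 10752, nat_lit 17184, nat_lit 10656, R11_224, R5_358, R4_222⟩, ⟨nat_lit 3, nat_lit 2400, nat_lit 8784, nat_lit 10704, nat_lit 16944, nat_lit 6384, R11_223, R9_353, R8_133⟩]⟩]⟩,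
 ⟨nat_lit 3, [⟨nat_lit 3, [⟨nat_lit 3, nat_lit 3936, nat_lit 8352, nat_lit 8976, nat_lit 3264, nat_lit 7632, R10_187, R3_68, R4_159⟩]⟩]⟩]], [[], [], [], [], [⟨nat_lit 0, [⟨nat_lit 0, [⟨nat_lit 3, nat_lit 1584, nat_lit 0, nat_lit 6816, nat_lit 4512, nat_lit 7296, R4_142, R3_94, R6_152⟩]⟩, ⟨nat_lit 3, [⟨nat_lit 3, nat_lit 3984, nat_lit 96, nat_lit 5616, nat_lit 5184, nat_lit 7968, R3_117, R3_108, R4_166⟩]⟩]⟩,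
 ⟨nat_lit 2, [⟨nat_lit 2, [⟨nat_lit 0, nat_lit 1920, nat_lit 288, nat_lit 12624, nat_lit 4800, nat_lit 9744, R11_263, R5_100, R6_203⟩, ⟨nat_lit 2, nat_lit 2112, nat_lit 624, nat_lit 12720, nat_lit 21888, nat_lit 10704, R11_265, R11_456, R4_223⟩]⟩]⟩,
 ⟨nat_lit 3, [⟨nat_lit 3, [⟨nat_lit 3, nat_lit 4080, nat_lit 144, nat_lit 9888, nat_lit 19680, nat_lit 8016, R10_206, R10_410, R4_167⟩]⟩]⟩,
 ⟨nat_lit 4, [⟨nat_lit 4, [⟨nat_lit 6, nat_lit 0, nat_lit 1584, nat_lit 6816, nat_lit 4512, nat_lit 7296, R4_142, R3_94, R6_152⟩]⟩, ⟨nat_lit 6, [⟨nat_lit 6, nat_lit 96, nat_lit 3984, nat_lit 5616, nat_lit 5184, nat_lit 7968, R3_117, R3_108, R4_166⟩]⟩]⟩,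
 ⟨nat_lit 6, [⟨nat_lit 6, [⟨nat_lit 6, nat_lit 144, nat_lit 4080, nat_lit 9888, nat_lit 19680, nat_lit 8016, R10_206, R10_410, R4_167⟩]⟩]⟩,
 ⟨nat_lit 7, [⟨nat_lit 7, [⟨nat_lit 4, nat_lit 288, nat_lit 1920, nat_lit 12624, nat_lit 4800, nat_lit 9744, R11_263, R5_100, R6_203⟩, ⟨nat_lit 7, nat_lit 624, nat_lit 2112, nat_lit 12720, nat_lit 21888, nat_lit 10704, R11_265, R11_456, R4_223⟩]⟩]⟩], [⟨nat_lit 4, [⟨nat_lit 4, [⟨nat_lit 4, nat_lit 4752, nat_lit 384, nat_lit 480, nat_lit 960, nat_lit 10416, R4_10, R4_20, R6_217⟩, ⟨nat_lit 6, nat_lit 5040, nat_lit 1152, nat_lit 6864, nat_lit 4656, nat_lit 9504, R4_143, R3_97, R13_198⟩]⟩, ⟨nat_lit 6, [⟨nat_lit 6, nat_lit 5760, nat_lit 3984, nat_lit 5712, nat_lit 5328, nat_lit 9984, R3_119, R3_111, R3_208⟩]⟩]⟩,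
 ⟨nat_lit 6, [⟨nat_lit 6, [⟨nat_lit 6, nat_lit 5808, nat_lit 4080, nat_lit 9984, nat_lit 19728, nat_lit 10128, R10_208, R10_411, R3_211⟩]⟩]⟩,
 ⟨nat_lit 7, [⟨nat_lit 4, [⟨nat_lit 4, nat_lit 4800, nat_lit 432, nat_lit 1920, nat_lit 288, nat_lit 10464, R5_40, R5_6, R6_218⟩]⟩, ⟨nat_lit 7, [⟨nat_lit 4, nat_lit 6480, nat_lit 1920, nat_lit 12768, nat_lit 6480, nat_lit 10128, R11_266, R5_135, R8_211⟩, ⟨nat_lit 7, nat_lit 7584, nat_lit 2112, nat_lit 12864, nat_lit 21936, nat_lit 7296, R11_268, R11_457, R5_152⟩]⟩]⟩]], [], [[], [], [], [], [⟨nat_lit 0, [⟨nat_lit 0, [⟨nat_lit 3, nat_lit 1680, nat_lit 96, nat_lit 6336, nat_lit 768, nat_lit 7200, R4_132, R3_16, R6_150⟩]⟩, ⟨nat_lit 3, [⟨nat_lit 3, nat_lit 4128, nat_lit 336, nat_lit 6192, nat_lit 6096, nat_lit 7872, R3_129, R3_127, R4_164⟩, ⟨nat_lit 7, nat_lit 3024, nat_lit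 576, nat_lit 6624, nat_lit 4416, nat_lit 7920, R3_138, R2_92, R7_165⟩]⟩]⟩,
 ⟨nat_lit 3, [⟨nat_lit 3, [⟨nat_lit 7, nat_lit 3072, nat_lit 624, nat_lit 10560, nat_lit 15744, nat_lit 7968, R10_220, R12_328, R7_166⟩]⟩]⟩]]], [[], [], [], [], [[], [], [], [], [⟨nat_lit 0, [⟨nat_lit 0, [⟨nat_lit 3, nat_lit 1200, nat_lit 4656, nat_lit 7536, nat_lit 21312, nat_lit 5808, R8_157, R13_444, R6_121⟩]⟩, ⟨nat_lit 3, [⟨nat_lit 3, nat_lit 3600, nat_lit 5760, nat_lit 4368, nat_lit 21360, nat_lit 6144, R9_91, R13_445, R4_128⟩]⟩]⟩,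
 ⟨nat_lit 2, [⟨nat_lit 0, [⟨nat_lit 3, nat_lit 1248, nat_lit 4896, nat_lit 13200, nat_lit 17712, nat_lit 5856, R9_275, R9_369, R6_122⟩]⟩]⟩]], [], [], [[], [], [], [], [⟨nat_lit 0, [⟨nat_lit 0, [⟨nat_lit 3, nat_lit 1344, nat_lit 384, nat_lit 7584, nat_lit 2256, nat_lit 6528, R8_158, R3_47, R6_136⟩]⟩, ⟨nat_lit 3, [⟨nat_lit 3, nat_lit 3744, nat_lit 1056, nat_lit 5376, nat_lit 7152, nat_lit 6672, R9_112, R3_149, R4_139⟩, ⟨nat_lit 7, nat_lit 2784, nat_lit 1776, nat_lit 5760, nat_lit 6528, nat_lit 6432, R9_120, R2_136, R7_134⟩]⟩]⟩]]], [[], [], [], [[], [], [], [], [⟨nat_lit 1, [⟨nat_lit 3, [⟨nat_lit 7, nat_lit 3120, nat_lit 336, nat_lit 7776, nat_lit 5712, nat_lit 7536, R10_162, R11_119, R7_157⟩]⟩]⟩]], [], [], [], [[], [], [], [], [⟨nat_lit 0, [⟨nat_lit 3, [⟨nat_lit 3, nat_lit 4224, nat_lit 4416, nat_lit 4944, nat_lit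 5520, nat_lit 7200, R3_103, R3_115, R4_150⟩, ⟨nat_lit 7, nat_lit 3168, nat_lit 12432, nat_lit 13152, nat_lit 4944, nat_lit 6912, R3_274, R2_103, R7_144⟩]⟩, ⟨nat_lit 7, [⟨nat_lit 7, nat_lit 768, nat_lit 13680, nat_lit 5952, nat_lit 5520, nat_lit 10272, R2_124, R2_115, R4_214⟩]⟩]⟩,
 ⟨nat_lit 1, [⟨nat_lit 3, [⟨nat_lit 3, nat_lit 4320, nat_lit 4464, nat_lit 4752, nat_lit 4320, nat_lit 7296, R10_99, R10_90, R4_152⟩]⟩]⟩,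
 ⟨nat_lit 3, [⟨nat_lit 7, [⟨nat_lit 7, nat_lit 864, nat_lit 14016, nat_lit 7776, nat_lit 15888, nat_lit 10320, R12_162, R12_331, R4_215⟩]⟩]⟩], [⟨nat_lit 0, [⟨nat_lit 7, [⟨nat_lit 7, nat_lit 7728, nat_lit 1680, nat_lit 6000, nat_lit 5568, nat_lit 7008, R2_125, R2_116, R5_146⟩]⟩]⟩,
 ⟨nat_lit 3, [⟨nat_lit 7, [⟨nat_lit 7, nat_lit 7824, nat_lit 1728, nat_lit 7824, nat_lit 15936, nat_lit 7056, R12_163, R12_332, R5_147⟩]⟩]⟩]]]]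
noncomputable def N6600 : T3 (List N0) := [[[[], [⟨nat_lit 0, [⟨nat_lit 1, [⟨nat_lit 2, nat_lit 9648, nat_lit 1584, nat_lit 1056, nat_lit 9936, nat_lit 13584, R7_22, R6_207, R3_283⟩]⟩]⟩,
 ⟨nat_lit 3, [⟨nat_lit 1, [⟨nat_lit 0, nat_lit 3504, nat_lit 8160, nat_lit 96, nat_lit 11088, nat_lit 3600, R2_2, R6_231, R4_75⟩, ⟨nat_lit 2, nat_lit 9792, nat_lit 8208, nat_lit 240, nat_lit 9456, nat_lit 13632, R2_5, R8_197, R3_284⟩]⟩]⟩], [], [], [], [⟨nat_lit 0, [⟨nat_lit 1, [⟨nat_lit 2, nat_lit 8160, nat_lit 1488, nat_lit 624, nat_lit 9984, nat_lit 1920, R7_13, R6_208, R2_40⟩]⟩]⟩,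
 ⟨nat_lit 3, [⟨nat_lit 1, [⟨nat_lit 0, nat_lit 1488, nat_lit 8160, nat_lit 1920, nat_lit 9984, nat_lit 624, R2_40, R6_208, R7_13⟩, ⟨nat_lit 2, nat_lit 8208, nat_lit 8208, nat_lit 2016, nat_lit 9504, nat_lit 2016, R2_42, R8_198, R2_42⟩]⟩]⟩]], [[], [⟨nat_lit 0, [⟨nat_lit 1, [⟨nat_lit 0, nat_lit 3600, nat_lit 96, nat_lit 7008, nat_lit 3312, nat_lit 3504, R7_146, R6_69, R4_73⟩, ⟨nat_lit 2, nat_lit 9888, nat_lit 144, nat_lit 7056, nat_lit 12960, nat_lit 13728, R7_147, R13_270, R3_286⟩]⟩]⟩,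
 ⟨nat_lit 1, [⟨nat_lit 1, [⟨nat_lit 0, nat_lit 3696, nat_lit 5808, nat_lit 5232, nat_lit 3024, nat_lit 3936, R2_109, R4_63, R4_82⟩, ⟨nat_lit 2, nat_lit 10032, nat_lit 5856, nat_lit 5280, nat_lit 9648, nat_lit 13824, R2_110, R3_201, R3_288⟩]⟩]⟩,
 ⟨nat_lit 3, [⟨nat_lit 1, [⟨nat_lit 0, nat_lit 3840, nat_lit 7104, nat_lit 7104, nat_lit 3024, nat_lit 3840, R2_148, R8_63, R4_80⟩, ⟨nat_lit 2, nat_lit 10176, nat_lit 7152, nat_lit 7248, nat_lit 10176, nat_lit 13776, R2_151, R9_212, R3_287⟩]⟩]⟩], [], [], [], [⟨nat_lit 0, [⟨nat_lit 1, [⟨nat_lit 0, nat_lit 1584, nat_lit 12336, nat_lit 6576, nat_lit 3264, nat_lit 768, R7_137, R6_68, R7_16⟩, ⟨nat_lit 2, nat_lit 8304, nat_lit 12480, nat_lit 6624, nat_lit 13008, nat_lit 1968, R7_138, R13_271, R2_41⟩]⟩, ⟨nat_lit 5, [⟨nat_lit 0, nat_lit 1008, nat_lit 4320, nat_lit 6768, nat_lit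 3120, nat_lit 672, R4_141, R6_65, R4_14⟩]⟩]⟩,
 ⟨nat_lit 1, [⟨nat_lit 1, [⟨nat_lit 0, nat_lit 1632, nat_lit 13104, nat_lit 4752, nat_lit 2928, nat_lit 912, R2_99, R4_61, R7_19⟩, ⟨nat_lit 2, nat_lit 8352, nat_lit 13248, nat_lit 4800, nat_lit 9696, nat_lit 2304, R2_100, R3_202, R2_48⟩]⟩, ⟨nat_lit 5, [⟨nat_lit 0, nat_lit 1104, nat_lit 4896, nat_lit 5472, nat_lit 2784, nat_lit 816, R3_114, R4_58, R4_17⟩]⟩]⟩,
 ⟨nat_lit 3, [⟨nat_lit 1, [⟨nat_lit 0, nat_lit 1728, nat_lit 12768, nat_lit 9696, nat_lit 4176, nat_lit 816, R2_202, R8_87, R7_17⟩, ⟨nat_lit 2, nat_lit 8448, nat_lit 12912, nat_lit 9792, nat_lit 10224, nat_lit 2160, R2_204, R9_213, R2_45⟩]⟩]⟩]], [], [[], [⟨nat_lit 3, [⟨nat_lit 1, [⟨nat_lit 0, nat_lit 3936, nat_lit 5232, nat_lit 5808, nat_lit 3024, nat_lit 3696, R2_121, R4_63, R4_77⟩, ⟨nat_lit 2, nat_lit 10272,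 nat_lit 5520, nat_lit 5952, nat_lit 768, nat_lit 13680, R2_124, R5_16, R3_285⟩]⟩]⟩]]], [[], [[], [⟨nat_lit 1, [⟨nat_lit 1, [⟨nat_lit 0, nat_lit 3792, nat_lit 4512, nat_lit 3936, nat_lit 3072, nat_lit 4032, R1_82, R4_64, R4_84⟩, ⟨nat_lit 2, nat_lit 10128, nat_lit 4560, nat_lit 3984, nat_lit 9744, nat_lit 14304, R1_83, R3_203, R3_298⟩]⟩]⟩], [], [], [], [⟨nat_lit 1, [⟨nat_lit 1, [⟨nat_lit 0, nat_lit 1680, nat_lit 5232, nat_lit 3456, nat_lit 2976, nat_lit 960, R1_72, R4_62, R7_20⟩, ⟨nat_lit 2, nat_lit 8400, nat_lit 5280, nat_lit 3504, nat_lit 9792, nat_lit 2352, R1_73, R3_204, R2_49⟩]⟩, ⟨nat_lit 5, [⟨nat_lit 0, nat_lit 1152, nat_lit 4608, nat_lit 4032, nat_lit 2832, nat_lit 912, R10_84, R4_59, R4_19⟩]⟩]⟩]], [], [], [], [[], [], [], [], [], [⟨nat_lit 1, [⟨nat_lit 1, [⟨nat_lit 0, nat_lit 1440, nat_lit 12576, nat_lit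 15216, nat_lit 4608, nat_lit 1008, R1_317, R7_96, R7_21⟩, ⟨nat_lit 1, nat_lit 7344, nat_lit 12624, nat_lit 15360, nat_lit 3024, nat_lit 48, R1_320, R2_63, R2_1⟩, ⟨nat_lit 2, nat_lit 8112, nat_lit 12672, nat_lit 15264, nat_lit 864, nat_lit 2256, R1_318, R2_18, R2_47⟩]⟩, ⟨nat_lit 5, [⟨nat_lit 0, nat_lit 624, nat_lit 12720, nat_lit 18432, nat_lit 4656, nat_lit 1296, R10_384, R7_97, R4_27⟩, ⟨nat_lit 1, nat_lit 7008, nat_lit 12816, nat_lit 18576, nat_lit 3072, nat_lit 4848, R10_387, R2_64, R3_101⟩]⟩]⟩,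
 ⟨nat_lit 5, [⟨nat_lit 5, [⟨nat_lit 0, nat_lit 576, nat_lit 12768, nat_lit 432, nat_lit 4464, nat_lit 1344, R1_9, R4_93, R4_28⟩, ⟨nat_lit 1, nat_lit 6960, nat_lit 12864, nat_lit 480, nat_lit 17328, nat_lit 4800, R1_10, R3_361, R3_100⟩]⟩]⟩]]], [[[⟨nat_lit 0, [⟨nat_lit 0, [⟨nat_lit 2, nat_lit 8640, nat_lit 15456, nat_lit 4704, nat_lit 10032, nat_lit 12720, R7_98, R6_209, R6_265⟩]⟩]⟩,
 ⟨nat_lit 2, [⟨nat_lit 0, [⟨nat_lit 2, nat_lit 8736, nat_lit 15648, nat_lit 3120, nat_lit 10992, nat_lit 12768, R2_65, R4_229, R6_266⟩]⟩, ⟨nat_lit 2, [⟨nat_lit 2, nat_lit 8928, nat_lit 16368, nat_lit 2592, nat_lit 11040, nat_lit 13056, R1_54, R4_230, R4_272⟩, ⟨nat_lit 6, nat_lit 13536, nat_lit 12048, nat_lit 13056, nat_lit 11472, nat_lit 14160, R1_272, R7_239, R7_295⟩]⟩]⟩,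
 ⟨nat_lit 3, [⟨nat_lit 0, [⟨nat_lit 2, nat_lit 8784, nat_lit 15552, nat_lit 7440, nat_lit 9600, nat_lit 12816, R2_155, R8_200, R6_267⟩]⟩, ⟨nat_lit 3, [⟨nat_lit 0, nat_lit 3216, nat_lit 13248, nat_lit 0, nat_lit 10704, nat_lit 13680, R1_0, R6_223, R6_285⟩, ⟨nat_lit 2, nat_lit 9120, nat_lit 16032, nat_lit 7968, nat_lit 9648, nat_lit 13392, R1_166, R8_201, R8_279⟩, ⟨nat_lit 3, nat_lit 11664, nat_lit 14592, nat_lit 5808, nat_lit 11568, nat_lit 13440, R1_121, R4_241, R4_280⟩]⟩]⟩], [⟨nat_lit 0, [⟨nat_lit 0, [⟨nat_lit 2, nat_lit 9216, nat_lit 2160, nat_lit 4896, nat_lit 10080, nat_lit 18288, R7_102, R6_210, R13_381⟩]⟩, ⟨nat_lit 1, [⟨nat_lit 2, nat_lit 9696, nat_lit 2208, nat_lit 15504, nat_lit 10128, nat_lit 13872, R14_323, R6_211, R3_289⟩]⟩]⟩,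
 ⟨nat_lit 2, [⟨nat_lit 0, [⟨nat_lit 2, nat_lit 9264, nat_lit 4080, nat_lit 3312, nat_lit 11088, nat_lit 18336, R2_69, R4_231, R13_382⟩]⟩, ⟨nat_lit 1, [⟨nat_lit 2, nat_lit 9744, nat_lit 4128, nat_lit 12768, nat_lit 11184, nat_lit 13920, R12_266, R4_233, R3_290⟩]⟩, ⟨nat_lit 2, [⟨nat_lit 2, nat_lit 9552, nat_lit 4176, nat_lit 2784, nat_lit 11136, nat_lit 3168, R1_58, R4_232, R3_66⟩, ⟨nat_lit 6, nat_lit 13920, nat_lit 3792, nat_lit 13248, nat_lit 11520, nat_lit 13728, R1_276, R7_240, R2_286⟩]⟩]⟩,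
 ⟨nat_lit 3, [⟨nat_lit 0, [⟨nat_lit 0, nat_lit 3312, nat_lit 2544, nat_lit 1152, nat_lit 11424, nat_lit 3648, R2_24, R6_238, R6_76⟩, ⟨nat_lit 2, nat_lit 9312, nat_lit 3120, nat_lit 8208, nat_lit 9696, nat_lit 18384, R2_171, R8_202, R13_383⟩]⟩, ⟨nat_lit 1, [⟨nat_lit 0, nat_lit 3552, nat_lit 2640, nat_lit 48, nat_lit 11520, nat_lit 3648, R12_1, R6_240, R4_76⟩, ⟨nat_lit 2, nat_lit 9840, nat_lit 3216, nat_lit 816, nat_lit 9792, nat_lit 13968, R12_17, R8_204, R3_291⟩]⟩, ⟨nat_lit 3, [⟨nat_lit 0, nat_lit 4080, nat_lit 2592, nat_lit 624, nat_lit 11472, nat_lit 96, R1_13, R6_239, R8_2⟩, ⟨nat_lit 2, nat_lit 10416, nat_lit 3168, nat_lit 9024, nat_lit 9744, nat_lit 15072, R1_188, R8_203, R9_314⟩, ⟨nat_lit 3, nat_lit 11712, nat_lit 2784, nat_lit 6144, nat_lit 12000, nat_lit 15984, R1_128, R4_250, R5_333⟩]⟩]⟩]], [[], [⟨nat_lit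 0, [⟨nat_lit 0, [⟨nat_lit 0, nat_lit 3360, nat_lit 96, nat_lit 48, nat_lit 3216, nat_lit 3600, R7_1, R6_67, R6_75⟩, ⟨nat_lit 2, nat_lit 9360, nat_lit 384, nat_lit 4992, nat_lit 13056, nat_lit 18480, R7_104, R13_272, R13_385⟩]⟩, ⟨nat_lit 1, [⟨nat_lit 0, nat_lit 3648, nat_lit 144, nat_lit 15888, nat_lit 3360, nat_lit 3552, R14_331, R6_70, R4_74⟩, ⟨nat_lit 2, nat_lit 9936, nat_lit 432, nat_lit 16416, nat_lit 13104, nat_lit 14064, R14_342, R13_273, R3_293⟩]⟩]⟩,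
 ⟨nat_lit 1, [⟨nat_lit 1, [⟨nat_lit 0, nat_lit 3744, nat_lit 576, nat_lit 12960, nat_lit 3120, nat_lit 3984, R12_270, R4_65, R4_83⟩, ⟨nat_lit 2, nat_lit 10080, nat_lit 624, nat_lit 13488, nat_lit 9840, nat_lit 14208, R12_281, R3_205, R3_296⟩]⟩]⟩,
 ⟨nat_lit 2, [⟨nat_lit 0, [⟨nat_lit 2, nat_lit 9408, nat_lit 2448, nat_lit 3408, nat_lit 2784, nat_lit 18528, R2_71, R3_58, R13_386⟩]⟩, ⟨nat_lit 1, [⟨nat_lit 2, nat_lit 9984, nat_lit 2496, nat_lit 13200, nat_lit 2880, nat_lit 14112, R12_275, R3_60, R3_294⟩]⟩, ⟨nat_lit 2, [⟨nat_lit 2, nat_lit 9600, nat_lit 2544, nat_lit 2880, nat_lit 2832, nat_lit 3216, R1_60, R3_59, R3_67⟩, ⟨nat_lit 6, nat_lit 14016, nat_lit 2160, nat_lit 13344, nat_lit 10320, nat_lit 13824, R1_278, R2_215, R2_288⟩]⟩]⟩,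
 ⟨nat_lit 3, [⟨nat_lit 0, [⟨nat_lit 0, nat_lit 3408, nat_lit 912, nat_lit 1440, nat_lit 1872, nat_lit 3744, R2_30, R8_39, R6_78⟩, ⟨nat_lit 2, nat_lit 9456, nat_lit 1488, nat_lit 8496, nat_lit 10320, nat_lit 18576, R2_177, R9_215, R13_387⟩]⟩, ⟨nat_lit 1, [⟨nat_lit 0, nat_lit 3888, nat_lit 1008, nat_lit 6816, nat_lit 3072, nat_lit 3888, R12_142, R8_64, R4_81⟩, ⟨nat_lit 2, nat_lit 10224, nat_lit 1584, nat_lit 8256, nat_lit 10416, nat_lit 14160, R12_172, R9_217, R3_295⟩]⟩]⟩]], [[⟨nat_lit 2, [⟨nat_lit 2, [⟨nat_lit 6, nat_lit 13680, nat_lit 10512, nat_lit 13104, nat_lit 10752, nat_lit 14208, R1_273, R2_224, R7_296⟩]⟩]⟩], [⟨nat_lit 2, [⟨nat_lit 2, [⟨nat_lit 6, nat_lit 13968, nat_lit 1776, nat_lit 13488, nat_lit 10944, nat_lit 13776, R1_281, R2_228, R2_287⟩]⟩]⟩], [⟨nat_lit 2, [⟨nat_lit 2, [⟨nat_lit 6, nat_lit 13872,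 nat_lit 10896, nat_lit 13728, nat_lit 10848, nat_lit 14016, R1_286, R2_226, R2_292⟩]⟩]⟩]], [[⟨nat_lit 3, [⟨nat_lit 0, [⟨nat_lit 2, nat_lit 8832, nat_lit 14448, nat_lit 7536, nat_lit 432, nat_lit 12864, R2_157, R5_9, R6_268⟩]⟩, ⟨nat_lit 3, [⟨nat_lit 0, nat_lit 3264, nat_lit 12192, nat_lit 96, nat_lit 432, nat_lit 14064, R1_2, R4_9, R6_293⟩, ⟨nat_lit 2, nat_lit 9168, nat_lit 15024, nat_lit 8064, nat_lit 528, nat_lit 13440, R1_168, R5_11, R8_280⟩]⟩]⟩], [⟨nat_lit 3, [⟨nat_lit 0, [⟨nat_lit 0, nat_lit 3456, nat_lit 2784, nat_lit 1296, nat_lit 2352, nat_lit 3696, R2_27, R4_49, R6_77⟩, ⟨nat_lit 2, nat_lit 9504, nat_lit 4128, nat_lit 8352, nat_lit 480, nat_lit 18432, R2_174, R5_10, R13_384⟩]⟩, ⟨nat_lit 1, [⟨nat_lit 0, nat_lit 3984, nat_lit 2976, nat_lit 5904, nat_lit 3120, nat_lit 3744, R12_123, R4_65, R4_78⟩, ⟨nat_lit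 2, nat_lit 10320, nat_lit 4416, nat_lit 6048, nat_lit 864, nat_lit 14016, R12_126, R5_18, R3_292⟩]⟩, ⟨nat_lit 3, [⟨nat_lit 0, nat_lit 4176, nat_lit 2928, nat_lit 768, nat_lit 2736, nat_lit 624, R1_16, R4_57, R8_13⟩, ⟨nat_lit 2, nat_lit 10512, nat_lit 4320, nat_lit 9168, nat_lit 672, nat_lit 15120, R1_191, R5_14, R9_315⟩]⟩]⟩], [], [⟨nat_lit 3, [⟨nat_lit 3, [⟨nat_lit 0, nat_lit 4464, nat_lit 12768, nat_lit 432, nat_lit 1344, nat_lit 576, R1_9, R4_28, R4_12⟩, ⟨nat_lit 2, nat_lit 10752, nat_lit 16032, nat_lit 8688, nat_lit 576, nat_lit 2160, R1_181, R5_12, R5_45⟩]⟩]⟩]]], [[[], [], [], [], [], [⟨nat_lit 3, [⟨nat_lit 1, [⟨nat_lit 0, nat_lit 1536, nat_lit 4608, nat_lit 1392, nat_lit 10368, nat_lit 672, R1_29, R6_216, R7_14⟩, ⟨nat_lit 2, nat_lit 8256, nat_lit 6192, nat_lit 1488, nat_lit 9552, nat_lit 2064, R1_31, R8_199,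 R2_43⟩]⟩, ⟨nat_lit 5, [⟨nat_lit 0, nat_lit 960, nat_lit 4752, nat_lit 1344, nat_lit 10416, nat_lit 480, R11_28, R6_217, R4_10⟩]⟩]⟩]], [], [], [[], [⟨nat_lit 3, [⟨nat_lit 1, [⟨nat_lit 0, nat_lit 4032, nat_lit 3936, nat_lit 4512, nat_lit 3072, nat_lit 3792, R1_94, R4_64, R4_79⟩, ⟨nat_lit 2, nat_lit 10368, nat_lit 4224, nat_lit 4656, nat_lit 816, nat_lit 14256, R1_97, R5_17, R3_297⟩]⟩]⟩], [], [], [], [⟨nat_lit 3, [⟨nat_lit 1, [⟨nat_lit 0, nat_lit 1824, nat_lit 17904, nat_lit 6816, nat_lit 4320, nat_lit 720, R1_142, R4_90, R7_15⟩, ⟨nat_lit 2, nat_lit 8544, nat_lit 17952, nat_lit 6912, nat_lit 720, nat_lit 2112, R1_144, R5_15, R2_44⟩]⟩, ⟨nat_lit 5, [⟨nat_lit 0, nat_lit 1392, nat_lit 18000, nat_lit 1440, nat_lit 4416, nat_lit 528, R11_30, R4_92, R4_11⟩]⟩]⟩]]], [[], [], [], [[], [], [], [], [], [], [], [⟨nat_lit 3,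 [⟨nat_lit 7, [⟨nat_lit 0, nat_lit 3024, nat_lit 5232, nat_lit 5808, nat_lit 3936, nat_lit 3696, R2_121, R4_82, R4_77⟩]⟩]⟩,
 ⟨nat_lit 4, [⟨nat_lit 4, [⟨nat_lit 3, nat_lit 10992, nat_lit 3120, nat_lit 12576, nat_lit 15936, nat_lit 8736, R6_262, R7_332, R4_182⟩]⟩, ⟨nat_lit 5, [⟨nat_lit 3, nat_lit 11376, nat_lit 3984, nat_lit 12912, nat_lit 16656, nat_lit 5184, R4_269, R7_347, R5_108⟩]⟩]⟩,
 ⟨nat_lit 7, [⟨nat_lit 4, [⟨nat_lit 0, nat_lit 2208, nat_lit 3264, nat_lit 7728, nat_lit 3456, nat_lit 8640, R13_161, R7_72, R6_180⟩, ⟨nat_lit 3, nat_lit 11088, nat_lit 3312, nat_lit 7776, nat_lit 11520, nat_lit 9264, R13_162, R14_240, R4_193⟩]⟩, ⟨nat_lit 5, [⟨nat_lit 0, nat_lit 2640, nat_lit 4128, nat_lit 6384, nat_lit 4416, nat_lit 672, R3_133, R7_92, R8_14⟩, ⟨nat_lit 3, nat_lit 11424, nat_lit 4176, nat_lit 6432, nat_lit 11568,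 nat_lit 5232, R3_134, R14_241, R5_109⟩]⟩, ⟨nat_lit 7, [⟨nat_lit 0, nat_lit 2928, nat_lit 4752, nat_lit 13104, nat_lit 3936, nat_lit 1632, R3_273, R7_82, R4_34⟩]⟩]⟩]], [[], [], [], [], [⟨nat_lit 4, [⟨nat_lit 4, [⟨nat_lit 1, nat_lit 4512, nat_lit 528, nat_lit 192, nat_lit 15840, nat_lit 5328, R6_4, R6_330, R6_111⟩]⟩, ⟨nat_lit 5, [⟨nat_lit 1, nat_lit 5136, nat_lit 1104, nat_lit 96, nat_lit 15936, nat_lit 6048, R4_2, R6_332, R13_126⟩]⟩]⟩], [⟨nat_lit 4, [⟨nat_lit 5, [⟨nat_lit 1, nat_lit 6768, nat_lit 1008, nat_lit 672, nat_lit 16032, nat_lit 4320, R4_14, R6_334, R3_90⟩]⟩]⟩], [⟨nat_lit 4, [⟨nat_lit 4, [⟨nat_lit 1, nat_lit 5616, nat_lit 384, nat_lit 2496, nat_lit 15888, nat_lit 5616, R6_52, R6_331, R4_117⟩]⟩, ⟨nat_lit 5, [⟨nat_lit 1, nat_lit 6288, nat_lit 480, nat_lit 2400, nat_lit 15984, nat_lit 720, R4_50, R6_333,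 R3_15⟩]⟩]⟩]], [], [[], [], [], [], [], [], [⟨nat_lit 4, [⟨nat_lit 4, [⟨nat_lit 1, nat_lit 5808, nat_lit 4368, nat_lit 10176, nat_lit 14928, nat_lit 5664, R6_212, R4_311, R4_118⟩, ⟨nat_lit 5, nat_lit 12384, nat_lit 4416, nat_lit 10512, nat_lit 17280, nat_lit 5520, R6_219, R7_360, R7_115⟩]⟩, ⟨nat_lit 5, [⟨nat_lit 1, nat_lit 6432, nat_lit 5136, nat_lit 11232, nat_lit 14976, nat_lit 864, R4_234, R4_312, R3_18⟩, ⟨nat_lit 5, nat_lit 12912, nat_lit 5184, nat_lit 11376, nat_lit 17376, nat_lit 3984, R4_237, R7_362, R2_83⟩]⟩, ⟨nat_lit 6, [⟨nat_lit 5, nat_lit 12576, nat_lit 6000, nat_lit 10656, nat_lit 17328, nat_lit 7680, R8_222, R7_361, R2_160⟩]⟩]⟩,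
 ⟨nat_lit 6, [⟨nat_lit 6, [⟨nat_lit 5, nat_lit 12720, nat_lit 6912, nat_lit 7392, nat_lit 14736, nat_lit 7824, R5_154, R2_307, R2_163⟩]⟩]⟩]], [[], [], [], [], [⟨nat_lit 4, [⟨nat_lit 4, [⟨nat_lit 1, nat_lit 4752, nat_lit 4464, nat_lit 5040, nat_lit 17568, nat_lit 5376, R6_105, R8_366, R6_112⟩]⟩, ⟨nat_lit 5, [⟨nat_lit 0, nat_lit 96, nat_lit 6048, nat_lit 5136, nat_lit 15936, nat_lit 1104, R4_107, R6_332, R6_23⟩, ⟨nat_lit 1, nat_lit 5328, nat_lit 6096, nat_lit 5328, nat_lit 17712, nat_lit 6096, R4_111, R8_369, R13_127⟩]⟩]⟩,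
 ⟨nat_lit 7, [⟨nat_lit 4, [⟨nat_lit 1, nat_lit 4944, nat_lit 4992, nat_lit 5520, nat_lit 3264, nat_lit 5424, R13_115, R5_68, R6_113⟩]⟩, ⟨nat_lit 5, [⟨nat_lit 0, nat_lit 240, nat_lit 6528, nat_lit 3744, nat_lit 2064, nat_lit 1200, R3_78, R4_43, R6_25⟩, ⟨nat_lit 1, nat_lit 5472, nat_lit 6576, nat_lit 3792, nat_lit 3456, nat_lit 6144, R3_79, R5_72, R13_128⟩]⟩]⟩], [⟨nat_lit 4, [⟨nat_lit 5, [⟨nat_lit 0, nat_lit 672, nat_lit 4320, nat_lit 6768, nat_lit 16032, nat_lit 1008, R4_141, R6_334, R4_21⟩, ⟨nat_lit 1, nat_lit 7056, nat_lit 4368, nat_lit 7056, nat_lit 17856, nat_lit 4368, R4_147, R8_372, R3_91⟩]⟩]⟩,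
 ⟨nat_lit 7, [⟨nat_lit 5, [⟨nat_lit 0, nat_lit 816, nat_lit 4896, nat_lit 5472, nat_lit 2784, nat_lit 1104, R3_114, R4_58, R4_23⟩, ⟨nat_lit 1, nat_lit 7200, nat_lit 4944, nat_lit 5520, nat_lit 4224, nat_lit 4416, R3_115, R5_88, R3_92⟩]⟩]⟩], [], [⟨nat_lit 4, [⟨nat_lit 4, [⟨nat_lit 0, nat_lit 1872, nat_lit 0, nat_lit 5952, nat_lit 14448, nat_lit 8256, R6_124, R6_301, R6_172⟩, ⟨nat_lit 1, nat_lit 7392, nat_lit 288, nat_lit 6384, nat_lit 17664, nat_lit 5136, R6_133, R8_368, R8_107⟩, ⟨nat_lit 3, nat_lit 10800, nat_lit 144, nat_lit 6096, nat_lit 14112, nat_lit 8688, R6_127, R4_294, R4_181⟩]⟩, ⟨nat_lit 5, [⟨nat_lit 0, nat_lit 2400, nat_lit 720, nat_lit 6288, nat_lit 15984, nat_lit 768, R4_131, R6_333, R8_16⟩, ⟨nat_lit 1, nat_lit 7728, nat_lit 1008, nat_lit 6624, nat_lit 17808, nat_lit 4608, R4_138, R8_371, R9_96⟩,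 ⟨nat_lit 3, nat_lit 11232, nat_lit 864, nat_lit 6432, nat_lit 14976, nat_lit 5136, R4_134, R4_312, R5_107⟩]⟩]⟩,
 ⟨nat_lit 7, [⟨nat_lit 4, [⟨nat_lit 0, nat_lit 2064, nat_lit 3744, nat_lit 7200, nat_lit 240, nat_lit 8592, R13_150, R4_5, R6_179⟩, ⟨nat_lit 1, nat_lit 7584, nat_lit 3888, nat_lit 7248, nat_lit 3840, nat_lit 5184, R13_151, R5_80, R8_108⟩]⟩, ⟨nat_lit 5, [⟨nat_lit 0, nat_lit 2544, nat_lit 6048, nat_lit 6048, nat_lit 2544, nat_lit 864, R3_126, R4_53, R8_18⟩, ⟨nat_lit 1, nat_lit 7872, nat_lit 6192, nat_lit 6096, nat_lit 4128, nat_lit 4656, R3_127, R5_86, R9_97⟩]⟩, ⟨nat_lit 7, [⟨nat_lit 0, nat_lit 2784, nat_lit 5472, nat_lit 4896, nat_lit 816, nat_lit 1104, R3_102, R4_17, R4_23⟩, ⟨nat_lit 1, nat_lit 7968, nat_lit 5616, nat_lit 5184, nat_lit 3984, nat_lit 96, R3_108, R5_83, R5_2⟩]⟩]⟩]]], [[], [], [], [],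 [[], [], [], [], [⟨nat_lit 4, [⟨nat_lit 4, [⟨nat_lit 1, nat_lit 4608, nat_lit 4464, nat_lit 15216, nat_lit 16080, nat_lit 5664, R8_317, R6_335, R6_118⟩]⟩, ⟨nat_lit 5, [⟨nat_lit 1, nat_lit 5184, nat_lit 4512, nat_lit 1488, nat_lit 16176, nat_lit 6240, R5_31, R6_337, R13_130⟩]⟩]⟩,
 ⟨nat_lit 5, [⟨nat_lit 4, [⟨nat_lit 1, nat_lit 4656, nat_lit 4704, nat_lit 1200, nat_lit 21312, nat_lit 5808, R5_25, R13_444, R6_121⟩]⟩, ⟨nat_lit 5, [⟨nat_lit 0, nat_lit 0, nat_lit 0, nat_lit 144, nat_lit 4272, nat_lit 1056, R11_3, R6_89, R6_22⟩, ⟨nat_lit 1, nat_lit 5232, nat_lit 4752, nat_lit 768, nat_lit 21408, nat_lit 6384, R11_16, R13_446, R13_133⟩]⟩]⟩], [⟨nat_lit 4, [⟨nat_lit 5, [⟨nat_lit 1, nat_lit 6816, nat_lit 0, nat_lit 1584, nat_lit 16272, nat_lit 4512, R5_33, R6_339, R3_94⟩]⟩]⟩,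
 ⟨nat_lit 5, [⟨nat_lit 5, [⟨nat_lit 0, nat_lit 480, nat_lit 4752, nat_lit 1344, nat_lit 4320, nat_lit 960, R11_28, R6_90, R4_20⟩, ⟨nat_lit 1, nat_lit 6864, nat_lit 5040, nat_lit 1488, nat_lit 21504, nat_lit 4656, R11_31, R13_448, R3_97⟩]⟩]⟩]], [[], [], [], [], [⟨nat_lit 5, [⟨nat_lit 4, [⟨nat_lit 1, nat_lit 4704, nat_lit 14304, nat_lit 1296, nat_lit 17376, nat_lit 5904, R5_27, R3_362, R6_123⟩]⟩, ⟨nat_lit 5, [⟨nat_lit 0, nat_lit 48, nat_lit 14496, nat_lit 240, nat_lit 4368, nat_lit 1392, R11_5, R4_91, R6_29⟩, ⟨nat_lit 1, nat_lit 5280, nat_lit 14688, nat_lit 864, nat_lit 17472, nat_lit 6480, R11_18, R3_364, R13_135⟩]⟩]⟩], [⟨nat_lit 5, [⟨nat_lit 5, [⟨nat_lit 0, nat_lit 528, nat_lit 18000, nat_lit 1440, nat_lit 4416, nat_lit 1392, R11_30, R4_92, R4_29⟩, ⟨nat_lit 1, nat_lit 6912, nat_lit 18192, nat_lit 1584, nat_lit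 17568, nat_lit 4752, R11_33, R3_366, R3_99⟩]⟩]⟩]], [], [[], [], [], [], [⟨nat_lit 4, [⟨nat_lit 4, [⟨nat_lit 1, nat_lit 4848, nat_lit 13104, nat_lit 15792, nat_lit 17904, nat_lit 5712, R8_329, R8_373, R6_119⟩]⟩, ⟨nat_lit 5, [⟨nat_lit 0, nat_lit 144, nat_lit 13488, nat_lit 8496, nat_lit 16608, nat_lit 1152, R5_177, R6_346, R6_24⟩, ⟨nat_lit 1, nat_lit 5376, nat_lit 13728, nat_lit 9936, nat_lit 18000, nat_lit 6288, R5_207, R8_375, R13_131⟩]⟩]⟩,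
 ⟨nat_lit 5, [⟨nat_lit 4, [⟨nat_lit 1, nat_lit 4896, nat_lit 13200, nat_lit 1248, nat_lit 17712, nat_lit 5856, R5_26, R9_369, R6_122⟩]⟩, ⟨nat_lit 5, [⟨nat_lit 0, nat_lit 192, nat_lit 13584, nat_lit 192, nat_lit 4272, nat_lit 1344, R11_4, R8_89, R6_28⟩, ⟨nat_lit 1, nat_lit 5424, nat_lit 13824, nat_lit 816, nat_lit 17808, nat_lit 6432, R11_17, R9_371, R13_134⟩]⟩]⟩,
 ⟨nat_lit 7, [⟨nat_lit 4, [⟨nat_lit 1, nat_lit 5040, nat_lit 13152, nat_lit 1920, nat_lit 3312, nat_lit 5760, R9_40, R5_69, R6_120⟩]⟩]⟩]]], [[[⟨nat_lit 0, [⟨nat_lit 0, [⟨nat_lit 2, nat_lit 8592, nat_lit 14064, nat_lit 4560, nat_lit 9792, nat_lit 12912, R4_95, R6_204, R6_269⟩]⟩, ⟨nat_lit 3, [⟨nat_lit 2, nat_lit 8976, nat_lit 14256, nat_lit 8016, nat_lit 9840, nat_lit 13488, R5_167, R6_205, R8_281⟩]⟩]⟩,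
 ⟨nat_lit 2, [⟨nat_lit 0, [⟨nat_lit 2, nat_lit 8688, nat_lit 14112, nat_lit 144, nat_lit 10800, nat_lit 12960, R3_3, R4_225, R6_270⟩]⟩, ⟨nat_lit 2, [⟨nat_lit 2, nat_lit 8880, nat_lit 14544, nat_lit 6960, nat_lit 10848, nat_lit 13104, R10_145, R4_226, R4_273⟩, ⟨nat_lit 6, nat_lit 13488, nat_lit 11520, nat_lit 7008, nat_lit 11424, nat_lit 14256, R10_146, R7_238, R7_297⟩]⟩]⟩,
 ⟨nat_lit 3, [⟨nat_lit 3, [⟨nat_lit 0, nat_lit 3168, nat_lit 12096, nat_lit 7488, nat_lit 10752, nat_lit 13536, R11_156, R6_224, R6_282⟩, ⟨nat_lit 2, nat_lit 9072, nat_lit 14304, nat_lit 7536, nat_lit 9360, nat_lit 13584, R11_157, R8_195, R8_283⟩, ⟨nat_lit 3, nat_lit 11616, nat_lit 13344, nat_lit 7584, nat_lit 11616, nat_lit 13344, R11_158, R4_242, R4_278⟩]⟩, ⟨nat_lit 7, [⟨nat_lit 3, nat_lit 11568, nat_lit 13440, nat_lit 5808, nat_lit 11664,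 nat_lit 14304, R1_121, R4_243, R7_298⟩]⟩]⟩,
 ⟨nat_lit 4, [⟨nat_lit 4, [⟨nat_lit 7, nat_lit 14064, nat_lit 8592, nat_lit 4560, nat_lit 9792, nat_lit 12912, R4_95, R6_204, R6_269⟩]⟩, ⟨nat_lit 6, [⟨nat_lit 7, nat_lit 14256, nat_lit 8976, nat_lit 8016, nat_lit 9840, nat_lit 13488, R5_167, R6_205, R8_281⟩]⟩]⟩,
 ⟨nat_lit 6, [⟨nat_lit 2, [⟨nat_lit 6, nat_lit 13440, nat_lit 11568, nat_lit 5808, nat_lit 11664, nat_lit 14304, R1_121, R4_243, R7_298⟩]⟩, ⟨nat_lit 6, [⟨nat_lit 4, nat_lit 12096, nat_lit 3168, nat_lit 7488, nat_lit 10752, nat_lit 13536, R11_156, R6_224, R6_282⟩, ⟨nat_lit 6, nat_lit 13344, nat_lit 11616, nat_lit 7584, nat_lit 11616, nat_lit 13344, R11_158, R4_242, R4_278⟩, ⟨nat_lit 7, nat_lit 14304, nat_lit 9072, nat_lit 7536, nat_lit 9360, nat_lit 13584, R11_157, R8_195, R8_283⟩]⟩]⟩,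
 ⟨nat_lit 7, [⟨nat_lit 4, [⟨nat_lit 7, nat_lit 14112, nat_lit 8688, nat_lit 144, nat_lit 10800, nat_lit 12960, R3_3, R4_225, R6_270⟩]⟩, ⟨nat_lit 7, [⟨nat_lit 3, nat_lit 11520, nat_lit 13488, nat_lit 7008, nat_lit 11424, nat_lit 14256, R10_146, R7_238, R7_297⟩, ⟨nat_lit 7, nat_lit 14544, nat_lit 8880, nat_lit 6960, nat_lit 10848, nat_lit 13104, R10_145, R4_226, R4_273⟩]⟩]⟩], [], [], [⟨nat_lit 0, [⟨nat_lit 3, [⟨nat_lit 2, nat_lit 10560, nat_lit 16848, nat_lit 8304, nat_lit 9888, nat_lit 1968, R5_173, R6_206, R5_41⟩]⟩]⟩,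
 ⟨nat_lit 3, [⟨nat_lit 3, [⟨nat_lit 0, nat_lit 4368, nat_lit 14496, nat_lit 7632, nat_lit 10800, nat_lit 48, R11_159, R6_225, R4_1⟩, ⟨nat_lit 2, nat_lit 10656, nat_lit 17184, nat_lit 7680, nat_lit 9408, nat_lit 2064, R11_160, R8_196, R5_43⟩]⟩, ⟨nat_lit 7, [⟨nat_lit 0, nat_lit 4224, nat_lit 14400, nat_lit 6096, nat_lit 10848, nat_lit 144, R1_127, R6_226, R7_3⟩, ⟨nat_lit 3, nat_lit 12000, nat_lit 15984, nat_lit 6144, nat_lit 11712, nat_lit 17088, R1_128, R4_244, R14_356⟩]⟩]⟩,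
 ⟨nat_lit 4, [⟨nat_lit 4, [⟨nat_lit 7, nat_lit 14928, nat_lit 4368, nat_lit 5664, nat_lit 10176, nat_lit 5808, R4_118, R6_212, R4_121⟩]⟩, ⟨nat_lit 6, [⟨nat_lit 7, nat_lit 15168, nat_lit 4656, nat_lit 8160, nat_lit 10224, nat_lit 8784, R5_170, R6_213, R5_183⟩]⟩]⟩,
 ⟨nat_lit 6, [⟨nat_lit 6, [⟨nat_lit 7, nat_lit 15216, nat_lit 6288, nat_lit 8400, nat_lit 9840, nat_lit 8928, R11_175, R8_205, R5_186⟩]⟩]⟩,
 ⟨nat_lit 7, [⟨nat_lit 4, [⟨nat_lit 3, nat_lit 11808, nat_lit 14784, nat_lit 1440, nat_lit 11568, nat_lit 5952, R3_30, R7_241, R7_124⟩, ⟨nat_lit 7, nat_lit 14976, nat_lit 5136, nat_lit 864, nat_lit 11232, nat_lit 6432, R3_18, R4_234, R4_134⟩]⟩, ⟨nat_lit 7, [⟨nat_lit 3, nat_lit 11952, nat_lit 14976, nat_lit 7344, nat_lit 11616, nat_lit 17136, R10_153, R7_242, R14_357⟩]⟩]⟩]], [], [[⟨nat_lit 2, [⟨nat_lit 2, [⟨nat_lit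 6, nat_lit 13632, nat_lit 10368, nat_lit 7056, nat_lit 10800, nat_lit 14352, R10_147, R2_225, R7_299⟩]⟩]⟩,
 ⟨nat_lit 4, [⟨nat_lit 4, [⟨nat_lit 7, nat_lit 14160, nat_lit 11376, nat_lit 4800, nat_lit 18144, nat_lit 13344, R4_100, R8_378, R6_278⟩]⟩, ⟨nat_lit 6, [⟨nat_lit 4, nat_lit 12144, nat_lit 16032, nat_lit 1008, nat_lit 15168, nat_lit 13584, R5_21, R6_316, R6_283⟩, ⟨nat_lit 7, nat_lit 14400, nat_lit 16368, nat_lit 9264, nat_lit 19008, nat_lit 13776, R5_193, R8_396, R8_287⟩]⟩]⟩,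
 ⟨nat_lit 6, [⟨nat_lit 2, [⟨nat_lit 6, nat_lit 13584, nat_lit 10272, nat_lit 5856, nat_lit 16656, nat_lit 14400, R1_122, R3_347, R7_300⟩]⟩, ⟨nat_lit 6, [⟨nat_lit 4, nat_lit 12192, nat_lit 16128, nat_lit 7824, nat_lit 13728, nat_lit 13632, R11_163, R13_286, R6_284⟩, ⟨nat_lit 6, nat_lit 13392, nat_lit 16752, nat_lit 7920, nat_lit 16752, nat_lit 13392, R11_165, R3_349, R4_279⟩, ⟨nat_lit 7, nat_lit 14448, nat_lit 16560, nat_lit 7872, nat_lit 11376, nat_lit 13872, R11_164, R9_237, R8_289⟩]⟩]⟩,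
 ⟨nat_lit 7, [⟨nat_lit 4, [⟨nat_lit 7, nat_lit 14208, nat_lit 11472, nat_lit 192, nat_lit 13104, nat_lit 13392, R3_4, R5_273, R6_279⟩]⟩, ⟨nat_lit 7, [⟨nat_lit 7, nat_lit 14592, nat_lit 15264, nat_lit 7152, nat_lit 13200, nat_lit 13248, R10_149, R5_275, R4_276⟩]⟩]⟩], [], [⟨nat_lit 2, [⟨nat_lit 2, [⟨nat_lit 6, nat_lit 13824, nat_lit 3408, nat_lit 7104, nat_lit 10896, nat_lit 13968, R10_148, R2_227, R2_291⟩]⟩]⟩,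
 ⟨nat_lit 4, [⟨nat_lit 4, [⟨nat_lit 4, nat_lit 12240, nat_lit 2736, nat_lit 1920, nat_lit 15120, nat_lit 8304, R4_40, R6_315, R6_173⟩, ⟨nat_lit 5, nat_lit 13104, nat_lit 2784, nat_lit 10848, nat_lit 14544, nat_lit 8880, R4_226, R4_303, R4_185⟩, ⟨nat_lit 7, nat_lit 14640, nat_lit 2832, nat_lit 7440, nat_lit 18240, nat_lit 5232, R4_155, R8_380, R8_109⟩]⟩, ⟨nat_lit 6, [⟨nat_lit 4, nat_lit 12288, nat_lit 2976, nat_lit 1152, nat_lit 15216, nat_lit 19056, R5_24, R6_317, R13_397⟩, ⟨nat_lit 5, nat_lit 13248, nat_lit 3024, nat_lit 13200, nat_lit 14592, nat_lit 15264, R5_275, R4_304, R3_318⟩, ⟨nat_lit 7, nat_lit 14736, nat_lit 3072, nat_lit 9504, nat_lit 19104, nat_lit 15360, R5_198, R8_398, R9_320⟩]⟩]⟩,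
 ⟨nat_lit 6, [⟨nat_lit 2, [⟨nat_lit 6, nat_lit 13776, nat_lit 3360, nat_lit 5904, nat_lit 16704, nat_lit 13920, R1_123, R3_348, R2_290⟩]⟩, ⟨nat_lit 6, [⟨nat_lit 4, nat_lit 12336, nat_lit 3168, nat_lit 9504, nat_lit 13776, nat_lit 19104, R11_198, R13_287, R13_398⟩, ⟨nat_lit 5, nat_lit 13296, nat_lit 3216, nat_lit 9648, nat_lit 10464, nat_lit 15312, R11_201, R3_218, R3_319⟩, ⟨nat_lit 6, nat_lit 13728, nat_lit 3312, nat_lit 9600, nat_lit 16800, nat_lit 8640, R11_200, R3_350, R3_180⟩, ⟨nat_lit 7, nat_lit 14784, nat_lit 3264, nat_lit 9552, nat_lit 11424, nat_lit 15408, R11_199, R9_238, R9_321⟩]⟩]⟩,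
 ⟨nat_lit 7, [⟨nat_lit 4, [⟨nat_lit 7, nat_lit 14688, nat_lit 2880, nat_lit 2400, nat_lit 13248, nat_lit 5616, R3_50, R5_276, R8_117⟩]⟩, ⟨nat_lit 7, [⟨nat_lit 7, nat_lit 14880, nat_lit 2928, nat_lit 8544, nat_lit 13344, nat_lit 16224, R10_178, R5_278, R5_338⟩]⟩]⟩]], [[], [], [], [⟨nat_lit 3, [⟨nat_lit 3, [⟨nat_lit 0, nat_lit 4416, nat_lit 4752, nat_lit 7728, nat_lit 1392, nat_lit 528, R11_161, R4_29, R4_11⟩, ⟨nat_lit 2, nat_lit 10704, nat_lit 4800, nat_lit 7776, nat_lit 624, nat_lit 2112, R11_162, R5_13, R5_44⟩]⟩, ⟨nat_lit 7, [⟨nat_lit 0, nat_lit 4320, nat_lit 4608, nat_lit 6816, nat_lit 1824, nat_lit 720, R1_142, R4_38, R7_15⟩]⟩]⟩,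
 ⟨nat_lit 4, [⟨nat_lit 4, [⟨nat_lit 3, nat_lit 11856, nat_lit 4416, nat_lit 12432, nat_lit 17568, nat_lit 5568, R4_259, R7_366, R7_116⟩, ⟨nat_lit 7, nat_lit 15120, nat_lit 4368, nat_lit 5856, nat_lit 15120, nat_lit 5856, R4_122, R4_315, R4_122⟩]⟩, ⟨nat_lit 6, [⟨nat_lit 7, nat_lit 15456, nat_lit 4656, nat_lit 8880, nat_lit 15456, nat_lit 8880, R5_185, R4_322, R5_185⟩]⟩]⟩,
 ⟨nat_lit 6, [⟨nat_lit 6, [⟨nat_lit 7, nat_lit 15504, nat_lit 4704, nat_lit 8544, nat_lit 17088, nat_lit 9024, R11_178, R5_356, R5_188⟩]⟩]⟩,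
 ⟨nat_lit 7, [⟨nat_lit 4, [⟨nat_lit 3, nat_lit 11904, nat_lit 4464, nat_lit 1488, nat_lit 11712, nat_lit 6000, R3_31, R14_244, R7_125⟩]⟩, ⟨nat_lit 7, [⟨nat_lit 0, nat_lit 4272, nat_lit 4512, nat_lit 7584, nat_lit 2064, nat_lit 1152, R10_158, R7_43, R7_24⟩, ⟨nat_lit 3, nat_lit 12048, nat_lit 4560, nat_lit 7632, nat_lit 11760, nat_lit 17184, R10_159, R14_245, R14_358⟩]⟩]⟩], [], [], [], [⟨nat_lit 3, [⟨nat_lit 7, [⟨nat_lit 0, nat_lit 3072, nat_lit 3936, nat_lit 4512, nat_lit 4032, nat_lit 3792, R1_94, R4_84, R4_79⟩]⟩]⟩,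
 ⟨nat_lit 4, [⟨nat_lit 4, [⟨nat_lit 3, nat_lit 11040, nat_lit 2592, nat_lit 13056, nat_lit 17616, nat_lit 8928, R4_272, R7_367, R4_186⟩]⟩]⟩,
 ⟨nat_lit 7, [⟨nat_lit 4, [⟨nat_lit 0, nat_lit 2256, nat_lit 2736, nat_lit 3072, nat_lit 3552, nat_lit 8928, R3_64, R7_74, R6_186⟩, ⟨nat_lit 3, nat_lit 11136, nat_lit 2784, nat_lit 3168, nat_lit 11808, nat_lit 9552, R3_66, R14_246, R4_199⟩]⟩, ⟨nat_lit 7, [⟨nat_lit 0, nat_lit 2976, nat_lit 3456, nat_lit 5232, nat_lit 3984, nat_lit 1680, R10_109, R7_83, R4_35⟩]⟩]⟩]], [[], [], [], [], [⟨nat_lit 4, [⟨nat_lit 4, [⟨nat_lit 1, nat_lit 4560, nat_lit 8592, nat_lit 14064, nat_lit 16320, nat_lit 5472, R4_293, R6_340, R6_114⟩]⟩]⟩], [], [⟨nat_lit 4, [⟨nat_lit 4, [⟨nat_lit 1, nat_lit 5664, nat_lit 4368, nat_lit 14928, nat_lit 16368, nat_lit 5808, R4_311, R6_341, R4_121⟩]⟩]⟩]], [], [[],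 [], [⟨nat_lit 4, [⟨nat_lit 4, [⟨nat_lit 5, nat_lit 13056, nat_lit 2592, nat_lit 11040, nat_lit 17616, nat_lit 8928, R4_230, R7_367, R4_186⟩]⟩, ⟨nat_lit 6, [⟨nat_lit 5, nat_lit 13152, nat_lit 2640, nat_lit 12864, nat_lit 17712, nat_lit 15168, R5_268, R7_369, R3_316⟩]⟩]⟩,
 ⟨nat_lit 6, [⟨nat_lit 6, [⟨nat_lit 5, nat_lit 13200, nat_lit 2688, nat_lit 8976, nat_lit 14832, nat_lit 15216, R11_187, R2_309, R3_317⟩]⟩]⟩], [], [], [], [⟨nat_lit 4, [⟨nat_lit 4, [⟨nat_lit 1, nat_lit 5856, nat_lit 4368, nat_lit 15120, nat_lit 15120, nat_lit 5856, R4_315, R4_315, R4_122⟩, ⟨nat_lit 5, nat_lit 12432, nat_lit 4416, nat_lit 11856, nat_lit 17568, nat_lit 5568, R4_247, R7_366, R7_116⟩]⟩, ⟨nat_lit 6, [⟨nat_lit 5, nat_lit 12624, nat_lit 5616, nat_lit 12768, nat_lit 17664, nat_lit 7728, R5_266, R7_368, R2_161⟩]⟩]⟩,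
 ⟨nat_lit 6, [⟨nat_lit 6, [⟨nat_lit 5, nat_lit 12768, nat_lit 6528, nat_lit 7008, nat_lit 14880, nat_lit 7872, R11_146, R2_310, R2_164⟩]⟩]⟩]], [[], [], [], [], [⟨nat_lit 4, [⟨nat_lit 4, [⟨nat_lit 1, nat_lit 4800, nat_lit 11376, nat_lit 14160, nat_lit 18144, nat_lit 5520, R4_295, R8_378, R6_115⟩]⟩]⟩,
 ⟨nat_lit 7, [⟨nat_lit 4, [⟨nat_lit 1, nat_lit 4992, nat_lit 11424, nat_lit 2928, nat_lit 3408, nat_lit 5568, R3_61, R5_71, R6_116⟩]⟩]⟩], [], [], [⟨nat_lit 4, [⟨nat_lit 4, [⟨nat_lit 0, nat_lit 1920, nat_lit 2736, nat_lit 12240, nat_lit 15120, nat_lit 8304, R4_255, R6_315, R6_173⟩, ⟨nat_lit 1, nat_lit 7440, nat_lit 2832, nat_lit 14640, nat_lit 18240, nat_lit 5232, R4_305, R8_380, R8_109⟩, ⟨nat_lit 3, nat_lit 10848, nat_lit 2784, nat_lit 13104, nat_lit 14544, nat_lit 8880, R4_273, R4_303, R4_185⟩]⟩]⟩,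
 ⟨nat_lit 7, [⟨nat_lit 4, [⟨nat_lit 0, nat_lit 2112, nat_lit 3456, nat_lit 3024, nat_lit 336, nat_lit 8880, R3_63, R4_7, R6_185⟩, ⟨nat_lit 1, nat_lit 7632, nat_lit 3504, nat_lit 3264, nat_lit 3936, nat_lit 5280, R3_68, R5_82, R8_110⟩]⟩, ⟨nat_lit 7, [⟨nat_lit 0, nat_lit 2832, nat_lit 4032, nat_lit 4608, nat_lit 912, nat_lit 1152, R10_96, R4_19, R4_24⟩, ⟨nat_lit 1, nat_lit 8016, nat_lit 4080, nat_lit 4656, nat_lit 4080, nat_lit 144, R10_97, R5_85, R5_3⟩]⟩]⟩]]], [[], [], [], [[], [], [], [], [⟨nat_lit 7, [⟨nat_lit 5, [⟨nat_lit 0, nat_lit 384, nat_lit 12144, nat_lit 192, nat_lit 2928, nat_lit 1008, R10_4, R7_61, R6_21⟩]⟩]⟩], [⟨nat_lit 3, [⟨nat_lit 5, [⟨nat_lit 0, nat_lit 1344, nat_lit 12768, nat_lit 432, nat_lit 4464, nat_lit 576, R1_9, R4_93, R4_12⟩]⟩]⟩,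
 ⟨nat_lit 7, [⟨nat_lit 5, [⟨nat_lit 0, nat_lit 1296, nat_lit 12720, nat_lit 720, nat_lit 4656, nat_lit 624, R10_15, R7_97, R4_13⟩]⟩]⟩]], [], [], [], [[], [], [], [], [⟨nat_lit 7, [⟨nat_lit 4, [⟨nat_lit 1, nat_lit 5088, nat_lit 8544, nat_lit 16080, nat_lit 3360, nat_lit 5616, R3_335, R5_70, R6_117⟩]⟩, ⟨nat_lit 5, [⟨nat_lit 0, nat_lit 336, nat_lit 3024, nat_lit 144, nat_lit 2112, nat_lit 1248, R10_3, R4_44, R6_26⟩, ⟨nat_lit 1, nat_lit 5568, nat_lit 8832, nat_lit 480, nat_lit 3552, nat_lit 6192, R10_10, R5_74, R13_129⟩]⟩]⟩], [⟨nat_lit 7, [⟨nat_lit 5, [⟨nat_lit 0, nat_lit 912, nat_lit 14064, nat_lit 672, nat_lit 2832, nat_lit 1152, R10_14, R4_59, R4_24⟩, ⟨nat_lit 1, nat_lit 7296, nat_lit 14256, nat_lit 816, nat_lit 4320, nat_lit 4464, R10_17, R5_90, R3_93⟩]⟩]⟩]]]]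
noncomputable def N6637 : T3 (List N0) := [[[[], [⟨nat_lit 0, [⟨nat_lit 1, [⟨nat_lit 6, nat_lit 12336, nat_lit 1968, nat_lit 1248, nat_lit 4560, nat_lit 17424, R7_26, R7_95, R11_363⟩]⟩, ⟨nat_lit 5, [⟨nat_lit 6, nat_lit 12576, nat_lit 1008, nat_lit 1440, nat_lit 4608, nat_lit 15216, R4_30, R7_96, R1_317⟩]⟩]⟩], [], [], [], [⟨nat_lit 0, [⟨nat_lit 5, [⟨nat_lit 2, nat_lit 12768, nat_lit 1344, nat_lit 576, nat_lit 4464, nat_lit 432, R4_12, R4_93, R1_9⟩, ⟨nat_lit 6, nat_lit 12720, nat_lit 1296, nat_lit 624, nat_lit 4656, nat_lit 720, R4_13, R7_97, R10_15⟩]⟩]⟩]], [[], [⟨nat_lit 0, [⟨nat_lit 1, [⟨nat_lit 6, nat_lit 12384, nat_lit 528, nat_lit 7248, nat_lit 2976, nat_lit 17760, R7_151, R2_62, R11_370⟩]⟩, ⟨nat_lit 5, [⟨nat_lit 6, nat_lit 12624, nat_lit 48, nat_lit 7344, nat_lit 3024, nat_lit 15360, R4_153, R2_63, R1_320⟩]⟩]⟩,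
 ⟨nat_lit 1, [⟨nat_lit 1, [⟨nat_lit 6, nat_lit 12480, nat_lit 6240, nat_lit 5472, nat_lit 2448, nat_lit 17856, R2_114, R1_51, R11_372⟩]⟩, ⟨nat_lit 5, [⟨nat_lit 6, nat_lit 12912, nat_lit 5184, nat_lit 13392, nat_lit 2496, nat_lit 15456, R3_279, R1_52, R1_322⟩]⟩]⟩], [], [], [], [⟨nat_lit 0, [⟨nat_lit 5, [⟨nat_lit 2, nat_lit 12864, nat_lit 4800, nat_lit 6960, nat_lit 17328, nat_lit 480, R4_145, R3_361, R1_10⟩, ⟨nat_lit 6, nat_lit 12816, nat_lit 4848, nat_lit 7008, nat_lit 3072, nat_lit 768, R4_146, R2_64, R10_16⟩]⟩]⟩,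
 ⟨nat_lit 1, [⟨nat_lit 5, [⟨nat_lit 2, nat_lit 13008, nat_lit 5904, nat_lit 5136, nat_lit 2688, nat_lit 528, R3_107, R10_56, R1_11⟩, ⟨nat_lit 6, nat_lit 12960, nat_lit 5952, nat_lit 5088, nat_lit 2544, nat_lit 912, R3_106, R1_53, R10_19⟩]⟩]⟩]], [], [[], [⟨nat_lit 0, [⟨nat_lit 1, [⟨nat_lit 6, nat_lit 12432, nat_lit 576, nat_lit 8112, nat_lit 2928, nat_lit 17568, R7_169, R2_61, R11_366⟩]⟩, ⟨nat_lit 5, [⟨nat_lit 6, nat_lit 12672, nat_lit 2256, nat_lit 8112, nat_lit 864, nat_lit 15264, R4_169, R2_18, R1_318⟩]⟩]⟩,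
 ⟨nat_lit 3, [⟨nat_lit 1, [⟨nat_lit 6, nat_lit 12528, nat_lit 6288, nat_lit 5424, nat_lit 2400, nat_lit 17664, R2_113, R1_50, R11_368⟩]⟩]⟩]]], [[], [[], [⟨nat_lit 1, [⟨nat_lit 1, [⟨nat_lit 6, nat_lit 15600, nat_lit 4944, nat_lit 4176, nat_lit 7824, nat_lit 21792, R1_87, R1_163, R11_454⟩]⟩, ⟨nat_lit 5, [⟨nat_lit 6, nat_lit 15648, nat_lit 3888, nat_lit 5184, nat_lit 7872, nat_lit 15504, R10_108, R1_164, R1_323⟩]⟩]⟩], [], [], [], [⟨nat_lit 1, [⟨nat_lit 5, [⟨nat_lit 2, nat_lit 15744, nat_lit 5088, nat_lit 4224, nat_lit 8688, nat_lit 11520, R10_88, R10_181, R1_240⟩, ⟨nat_lit 6, nat_lit 15696, nat_lit 5040, nat_lit 4272, nat_lit 7920, nat_lit 12720, R10_89, R1_165, R10_265⟩]⟩]⟩]], [], [], [], [[], [], [], [], [], [⟨nat_lit 1, [⟨nat_lit 5, [⟨nat_lit 2, nat_lit 15792, nat_lit 11376, nat_lit 18720, nat_lit 15552, nat_lit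 11472, R10_390, R1_324, R1_239⟩]⟩]⟩,
 ⟨nat_lit 5, [⟨nat_lit 5, [⟨nat_lit 2, nat_lit 15840, nat_lit 11424, nat_lit 15840, nat_lit 21264, nat_lit 11424, R1_330, R11_443, R1_238⟩]⟩]⟩]]], [[[⟨nat_lit 0, [⟨nat_lit 0, [⟨nat_lit 6, nat_lit 13056, nat_lit 11472, nat_lit 14160, nat_lit 12960, nat_lit 13536, R7_295, R7_270, R4_282⟩]⟩, ⟨nat_lit 1, [⟨nat_lit 6, nat_lit 13824, nat_lit 11856, nat_lit 17712, nat_lit 13104, nat_lit 15024, R14_369, R7_273, R5_313⟩]⟩]⟩,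
 ⟨nat_lit 2, [⟨nat_lit 0, [⟨nat_lit 4, nat_lit 13200, nat_lit 2208, nat_lit 12000, nat_lit 3408, nat_lit 14160, R2_250, R7_71, R6_295⟩, ⟨nat_lit 6, nat_lit 13248, nat_lit 11520, nat_lit 13728, nat_lit 14016, nat_lit 13920, R2_286, R14_292, R4_290⟩]⟩, ⟨nat_lit 1, [⟨nat_lit 4, nat_lit 14160, nat_lit 2640, nat_lit 13584, nat_lit 4368, nat_lit 1056, R12_283, R7_91, R8_22⟩, ⟨nat_lit 6, nat_lit 14208, nat_lit 11952, nat_lit 13920, nat_lit 14064, nat_lit 15072, R12_290, R14_293, R5_314⟩]⟩, ⟨nat_lit 2, [⟨nat_lit 4, nat_lit 15216, nat_lit 2784, nat_lit 12576, nat_lit 3888, nat_lit 1440, R1_262, R7_81, R4_30⟩]⟩]⟩], [⟨nat_lit 0, [⟨nat_lit 1, [⟨nat_lit 6, nat_lit 13920, nat_lit 12672, nat_lit 17760, nat_lit 13200, nat_lit 19344, R14_370, R7_275, R11_403⟩]⟩]⟩,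
 ⟨nat_lit 2, [⟨nat_lit 1, [⟨nat_lit 4, nat_lit 14496, nat_lit 14160, nat_lit 13632, nat_lit 12816, nat_lit 15168, R12_284, R7_267, R5_316⟩, ⟨nat_lit 6, nat_lit 14544, nat_lit 14880, nat_lit 13968, nat_lit 14784, nat_lit 19392, R12_291, R14_308, R11_404⟩]⟩]⟩]], [[], [⟨nat_lit 0, [⟨nat_lit 1, [⟨nat_lit 6, nat_lit 13968, nat_lit 9936, nat_lit 18192, nat_lit 11856, nat_lit 20496, R14_379, R2_247, R11_427⟩]⟩]⟩,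
 ⟨nat_lit 1, [⟨nat_lit 1, [⟨nat_lit 6, nat_lit 14112, nat_lit 10656, nat_lit 15312, nat_lit 12288, nat_lit 20640, R12_319, R1_256, R11_430⟩]⟩]⟩,
 ⟨nat_lit 2, [⟨nat_lit 1, [⟨nat_lit 6, nat_lit 14592, nat_lit 11952, nat_lit 14112, nat_lit 11856, nat_lit 20544, R12_294, R12_247, R11_428⟩]⟩]⟩]], [[⟨nat_lit 2, [⟨nat_lit 0, [⟨nat_lit 4, nat_lit 13296, nat_lit 672, nat_lit 12096, nat_lit 1728, nat_lit 14352, R2_252, R2_36, R6_299⟩, ⟨nat_lit 5, nat_lit 13392, nat_lit 6480, nat_lit 14928, nat_lit 1200, nat_lit 13344, R2_311, R1_25, R8_278⟩, ⟨nat_lit 6, nat_lit 13344, nat_lit 10320, nat_lit 13824, nat_lit 9744, nat_lit 14016, R2_288, R12_203, R4_292⟩]⟩, ⟨nat_lit 1, [⟨nat_lit 4, nat_lit 14256, nat_lit 768, nat_lit 13824, nat_lit 2784, nat_lit 6192, R12_288, R2_58, R8_129⟩, ⟨nat_lit 5, nat_lit 14352, nat_lit 6912, nat_lit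 14736, nat_lit 2256, nat_lit 14880, R12_307, R1_47, R9_310⟩, ⟨nat_lit 6, nat_lit 14304, nat_lit 10416, nat_lit 14496, nat_lit 9792, nat_lit 15888, R12_302, R12_204, R5_331⟩]⟩, ⟨nat_lit 2, [⟨nat_lit 4, nat_lit 15264, nat_lit 864, nat_lit 12672, nat_lit 2256, nat_lit 8112, R1_264, R2_47, R4_169⟩, ⟨nat_lit 5, nat_lit 15312, nat_lit 7056, nat_lit 15936, nat_lit 1728, nat_lit 5904, R1_332, R1_36, R5_123⟩]⟩]⟩], [⟨nat_lit 2, [⟨nat_lit 1, [⟨nat_lit 4, nat_lit 14640, nat_lit 10128, nat_lit 13872, nat_lit 11520, nat_lit 15744, R12_289, R2_240, R5_328⟩, ⟨nat_lit 6, nat_lit 14688, nat_lit 12192, nat_lit 14544, nat_lit 11664, nat_lit 20208, R12_303, R12_243, R11_421⟩]⟩]⟩], [⟨nat_lit 2, [⟨nat_lit 0, [⟨nat_lit 5, nat_lit 13536, nat_lit 5184, nat_lit 15312, nat_lit 6624, nat_lit 16560, R2_319, R1_138, R5_345⟩]⟩, ⟨nat_lit 2,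 [⟨nat_lit 5, nat_lit 15408, nat_lit 5760, nat_lit 16320, nat_lit 7152, nat_lit 21504, R1_340, R1_149, R11_448⟩]⟩]⟩]], [[⟨nat_lit 0, [⟨nat_lit 0, [⟨nat_lit 6, nat_lit 13104, nat_lit 10752, nat_lit 14208, nat_lit 10512, nat_lit 13680, R7_296, R2_219, R4_285⟩]⟩, ⟨nat_lit 1, [⟨nat_lit 6, nat_lit 13872, nat_lit 11040, nat_lit 18288, nat_lit 11712, nat_lit 15504, R14_381, R2_244, R5_323⟩]⟩]⟩,
 ⟨nat_lit 2, [⟨nat_lit 0, [⟨nat_lit 4, nat_lit 13440, nat_lit 1008, nat_lit 12048, nat_lit 0, nat_lit 14304, R2_251, R2_0, R6_298⟩, ⟨nat_lit 6, nat_lit 13488, nat_lit 10944, nat_lit 13776, nat_lit 9888, nat_lit 13968, R2_287, R12_206, R4_291⟩]⟩, ⟨nat_lit 1, [⟨nat_lit 4, nat_lit 14400, nat_lit 2736, nat_lit 13680, nat_lit 816, nat_lit 6960, R12_285, R2_17, R8_145⟩, ⟨nat_lit 6, nat_lit 14448, nat_lit 11472, nat_lit 14304, nat_lit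 10176, nat_lit 15648, R12_298, R12_212, R5_326⟩]⟩, ⟨nat_lit 2, [⟨nat_lit 4, nat_lit 15360, nat_lit 3024, nat_lit 12624, nat_lit 48, nat_lit 7344, R1_263, R2_1, R4_153⟩]⟩]⟩,
 ⟨nat_lit 3, [⟨nat_lit 0, [⟨nat_lit 6, nat_lit 13728, nat_lit 10848, nat_lit 14016, nat_lit 10896, nat_lit 13872, R2_292, R1_227, R4_289⟩]⟩, ⟨nat_lit 1, [⟨nat_lit 6, nat_lit 15072, nat_lit 11184, nat_lit 3840, nat_lit 12144, nat_lit 15600, R12_80, R1_253, R5_325⟩]⟩]⟩], [⟨nat_lit 0, [⟨nat_lit 1, [⟨nat_lit 6, nat_lit 14016, nat_lit 1920, nat_lit 18384, nat_lit 11808, nat_lit 19824, R14_383, R2_246, R11_413⟩]⟩]⟩,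
 ⟨nat_lit 2, [⟨nat_lit 1, [⟨nat_lit 4, nat_lit 14784, nat_lit 9696, nat_lit 13776, nat_lit 10464, nat_lit 15936, R12_287, R2_218, R5_332⟩, ⟨nat_lit 6, nat_lit 14832, nat_lit 11568, nat_lit 14400, nat_lit 12288, nat_lit 19968, R12_300, R12_256, R11_416⟩]⟩]⟩,
 ⟨nat_lit 3, [⟨nat_lit 1, [⟨nat_lit 6, nat_lit 15120, nat_lit 6432, nat_lit 3984, nat_lit 12240, nat_lit 19920, R12_83, R1_255, R11_415⟩]⟩]⟩], [], [⟨nat_lit 0, [⟨nat_lit 0, [⟨nat_lit 6, nat_lit 13152, nat_lit 11136, nat_lit 14448, nat_lit 10608, nat_lit 15360, R7_301, R2_221, R3_320⟩]⟩]⟩,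
 ⟨nat_lit 2, [⟨nat_lit 0, [⟨nat_lit 4, nat_lit 13584, nat_lit 336, nat_lit 12336, nat_lit 3936, nat_lit 19488, R2_257, R2_82, R13_406⟩, ⟨nat_lit 6, nat_lit 13632, nat_lit 11328, nat_lit 13872, nat_lit 10608, nat_lit 15648, R2_289, R12_221, R3_326⟩, ⟨nat_lit 7, nat_lit 13680, nat_lit 6000, nat_lit 14112, nat_lit 3408, nat_lit 15840, R2_294, R1_71, R3_330⟩]⟩, ⟨nat_lit 1, [⟨nat_lit 4, nat_lit 14928, nat_lit 2208, nat_lit 13728, nat_lit 6960, nat_lit 14976, R12_286, R2_145, R9_312⟩]⟩, ⟨nat_lit 2, [⟨nat_lit 4, nat_lit 15456, nat_lit 2496, nat_lit 12912, nat_lit 5184, nat_lit 13392, R1_269, R2_108, R3_279⟩, ⟨nat_lit 7, nat_lit 15504, nat_lit 7872, nat_lit 15648, nat_lit 3888, nat_lit 19296, R1_326, R1_81, R10_402⟩]⟩]⟩,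
 ⟨nat_lit 3, [⟨nat_lit 0, [⟨nat_lit 6, nat_lit 13776, nat_lit 11232, nat_lit 14256, nat_lit 10992, nat_lit 15696, R2_297, R1_229, R3_327⟩]⟩, ⟨nat_lit 3, [⟨nat_lit 6, nat_lit 15552, nat_lit 11472, nat_lit 15792, nat_lit 11376, nat_lit 18720, R1_329, R1_237, R10_390⟩]⟩]⟩]]], [[[], [], [], [], [], [⟨nat_lit 0, [⟨nat_lit 5, [⟨nat_lit 2, nat_lit 16032, nat_lit 576, nat_lit 2160, nat_lit 10752, nat_lit 8688, R5_45, R4_224, R1_181⟩, ⟨nat_lit 6, nat_lit 15984, nat_lit 2976, nat_lit 240, nat_lit 11376, nat_lit 9936, R5_5, R7_237, R10_207⟩]⟩]⟩,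
 ⟨nat_lit 3, [⟨nat_lit 5, [⟨nat_lit 2, nat_lit 16368, nat_lit 7536, nat_lit 21600, nat_lit 7344, nat_lit 8784, R11_450, R5_153, R1_183⟩]⟩]⟩]], [], [], [[], [⟨nat_lit 0, [⟨nat_lit 5, [⟨nat_lit 6, nat_lit 15936, nat_lit 1728, nat_lit 5904, nat_lit 7056, nat_lit 15312, R5_123, R2_147, R1_319⟩]⟩]⟩,
 ⟨nat_lit 3, [⟨nat_lit 1, [⟨nat_lit 6, nat_lit 15888, nat_lit 4992, nat_lit 4128, nat_lit 7776, nat_lit 21360, R1_86, R1_162, R11_445⟩]⟩, ⟨nat_lit 5, [⟨nat_lit 6, nat_lit 16320, nat_lit 7152, nat_lit 21504, nat_lit 5760, nat_lit 15408, R11_448, R1_120, R1_321⟩]⟩]⟩], [], [], [], [⟨nat_lit 0, [⟨nat_lit 5, [⟨nat_lit 6, nat_lit 16176, nat_lit 16464, nat_lit 5952, nat_lit 7008, nat_lit 10032, R5_124, R2_146, R10_209⟩]⟩]⟩,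
 ⟨nat_lit 3, [⟨nat_lit 5, [⟨nat_lit 2, nat_lit 16512, nat_lit 16416, nat_lit 21696, nat_lit 6960, nat_lit 8832, R11_452, R11_145, R1_184⟩, ⟨nat_lit 6, nat_lit 16464, nat_lit 16512, nat_lit 21552, nat_lit 5712, nat_lit 10176, R11_449, R1_119, R10_212⟩]⟩]⟩]]], [[], [], [], [[], [], [], [], [], [], [], [⟨nat_lit 3, [⟨nat_lit 7, [⟨nat_lit 2, nat_lit 2448, nat_lit 6240, nat_lit 5472, nat_lit 17856, nat_lit 12480, R2_114, R11_372, R1_260⟩, ⟨nat_lit 6, nat_lit 2400, nat_lit 6288, nat_lit 5424, nat_lit 12528, nat_lit 17664, R2_113, R1_261, R11_368⟩]⟩]⟩,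
 ⟨nat_lit 4, [⟨nat_lit 6, [⟨nat_lit 3, nat_lit 1200, nat_lit 6480, nat_lit 15072, nat_lit 14928, nat_lit 13392, R8_314, R2_311, R1_279⟩]⟩]⟩,
 ⟨nat_lit 6, [⟨nat_lit 6, [⟨nat_lit 3, nat_lit 1728, nat_lit 7056, nat_lit 5904, nat_lit 15936, nat_lit 15312, R5_123, R1_332, R1_319⟩]⟩]⟩,
 ⟨nat_lit 7, [⟨nat_lit 4, [⟨nat_lit 2, nat_lit 336, nat_lit 3936, nat_lit 7680, nat_lit 13584, nat_lit 12336, R13_160, R1_283, R2_257⟩]⟩, ⟨nat_lit 7, [⟨nat_lit 2, nat_lit 2496, nat_lit 5184, nat_lit 13392, nat_lit 15456, nat_lit 12912, R3_279, R1_322, R1_269⟩]⟩]⟩]], [[], [], [], [], [⟨nat_lit 4, [⟨nat_lit 4, [⟨nat_lit 2, nat_lit 0, nat_lit 864, nat_lit 96, nat_lit 3216, nat_lit 13488, R6_2, R4_67, R7_281⟩]⟩, ⟨nat_lit 6, [⟨nat_lit 0, nat_lit 576, nat_lit 2736, nat_lit 3312, nat_lit 3840, nat_lit 3168, R8_69, R6_80, R7_66⟩, ⟨nat_lit 2,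 nat_lit 624, nat_lit 3072, nat_lit 3408, nat_lit 4080, nat_lit 4560, R8_71, R4_85, R14_95⟩]⟩]⟩,
 ⟨nat_lit 6, [⟨nat_lit 6, [⟨nat_lit 0, nat_lit 1392, nat_lit 10368, nat_lit 4608, nat_lit 1536, nat_lit 3696, R5_96, R4_32, R7_77⟩]⟩]⟩], [⟨nat_lit 4, [⟨nat_lit 4, [⟨nat_lit 2, nat_lit 96, nat_lit 432, nat_lit 960, nat_lit 3264, nat_lit 12192, R6_20, R4_68, R2_254⟩]⟩, ⟨nat_lit 5, [⟨nat_lit 2, nat_lit 432, nat_lit 1344, nat_lit 576, nat_lit 4464, nat_lit 12768, R4_12, R4_93, R1_266⟩]⟩, ⟨nat_lit 6, [⟨nat_lit 2, nat_lit 768, nat_lit 2736, nat_lit 3456, nat_lit 4176, nat_lit 2928, R8_72, R4_87, R12_61⟩]⟩]⟩], [⟨nat_lit 4, [⟨nat_lit 6, [⟨nat_lit 0, nat_lit 864, nat_lit 1680, nat_lit 3360, nat_lit 3888, nat_lit 1488, R8_70, R6_81, R2_31⟩, ⟨nat_lit 1, nat_lit 960, nat_lit 2496, nat_lit 3696, nat_lit 2256, nat_lit 960, R8_77,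 R8_47, R1_20⟩, ⟨nat_lit 2, nat_lit 912, nat_lit 2880, nat_lit 3504, nat_lit 4128, nat_lit 6768, R8_73, R4_86, R12_141⟩]⟩]⟩,
 ⟨nat_lit 6, [⟨nat_lit 6, [⟨nat_lit 0, nat_lit 1488, nat_lit 9552, nat_lit 6192, nat_lit 8256, nat_lit 2064, R5_129, R4_172, R2_43⟩, ⟨nat_lit 1, nat_lit 1536, nat_lit 10080, nat_lit 6240, nat_lit 6240, nat_lit 1536, R5_130, R5_130, R1_32⟩]⟩]⟩]], [], [[], [], [], [], [], [], [⟨nat_lit 4, [⟨nat_lit 6, [⟨nat_lit 1, nat_lit 1008, nat_lit 6528, nat_lit 10944, nat_lit 17136, nat_lit 6384, R8_228, R5_357, R1_133⟩]⟩]⟩,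
 ⟨nat_lit 6, [⟨nat_lit 6, [⟨nat_lit 1, nat_lit 1584, nat_lit 7680, nat_lit 7152, nat_lit 21840, nat_lit 6960, R5_149, R11_455, R1_145⟩]⟩]⟩]], [[], [], [], [], [⟨nat_lit 4, [⟨nat_lit 4, [⟨nat_lit 2, nat_lit 48, nat_lit 4896, nat_lit 4944, nat_lit 15888, nat_lit 13584, R6_103, R3_331, R7_283⟩]⟩, ⟨nat_lit 6, [⟨nat_lit 0, nat_lit 672, nat_lit 8688, nat_lit 8160, nat_lit 20352, nat_lit 9360, R8_170, R13_424, R7_195⟩, ⟨nat_lit 2, nat_lit 720, nat_lit 8736, nat_lit 8496, nat_lit 16848, nat_lit 5040, R8_177, R3_351, R14_105⟩]⟩]⟩,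
 ⟨nat_lit 6, [⟨nat_lit 6, [⟨nat_lit 0, nat_lit 1440, nat_lit 9648, nat_lit 4992, nat_lit 12624, nat_lit 10752, R5_104, R3_263, R7_224⟩]⟩]⟩,
 ⟨nat_lit 7, [⟨nat_lit 4, [⟨nat_lit 2, nat_lit 240, nat_lit 5904, nat_lit 5184, nat_lit 14736, nat_lit 13680, R13_108, R10_307, R7_285⟩]⟩, ⟨nat_lit 6, [⟨nat_lit 0, nat_lit 1872, nat_lit 9360, nat_lit 4128, nat_lit 1392, nat_lit 10128, R9_86, R3_29, R7_211⟩, ⟨nat_lit 2, nat_lit 1920, nat_lit 9408, nat_lit 4176, nat_lit 16368, nat_lit 5088, R9_87, R10_341, R14_106⟩]⟩]⟩], [⟨nat_lit 4, [⟨nat_lit 4, [⟨nat_lit 2, nat_lit 144, nat_lit 3648, nat_lit 6672, nat_lit 15984, nat_lit 12288, R6_139, R3_333, R2_256⟩]⟩, ⟨nat_lit 5, [⟨nat_lit 2, nat_lit 480, nat_lit 4800, nat_lit 6960, nat_lit 17328, nat_lit 12864, R4_145, R3_361, R1_268⟩]⟩, ⟨nat_lit 6, [⟨nat_lit 2, nat_lit 816, nat_lit 7056,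 nat_lit 8592, nat_lit 16992, nat_lit 3408, R8_179, R3_354, R12_71⟩]⟩]⟩,
 ⟨nat_lit 7, [⟨nat_lit 4, [⟨nat_lit 2, nat_lit 288, nat_lit 4176, nat_lit 6768, nat_lit 15504, nat_lit 12432, R13_141, R10_323, R2_259⟩]⟩, ⟨nat_lit 5, [⟨nat_lit 2, nat_lit 528, nat_lit 5904, nat_lit 5136, nat_lit 18912, nat_lit 13008, R3_107, R10_394, R1_271⟩]⟩, ⟨nat_lit 6, [⟨nat_lit 2, nat_lit 1968, nat_lit 7440, nat_lit 5040, nat_lit 18336, nat_lit 3456, R9_105, R10_382, R12_72⟩]⟩]⟩], [], [⟨nat_lit 4, [⟨nat_lit 4, [⟨nat_lit 2, nat_lit 192, nat_lit 624, nat_lit 6288, nat_lit 15936, nat_lit 11904, R6_131, R3_332, R2_248⟩]⟩, ⟨nat_lit 6, [⟨nat_lit 0, nat_lit 1248, nat_lit 2304, nat_lit 8256, nat_lit 20400, nat_lit 3456, R8_172, R13_425, R2_72⟩, ⟨nat_lit 2, nat_lit 1296, nat_lit 2736, nat_lit 8544, nat_lit 16896, nat_lit 13152, R8_178, R3_352,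 R12_274⟩, ⟨nat_lit 3, nat_lit 1344, nat_lit 2448, nat_lit 8448, nat_lit 3360, nat_lit 2928, R8_176, R3_70, R1_61⟩]⟩]⟩,
 ⟨nat_lit 6, [⟨nat_lit 6, [⟨nat_lit 0, nat_lit 1776, nat_lit 9936, nat_lit 5664, nat_lit 13440, nat_lit 4848, R5_118, R3_280, R2_101⟩, ⟨nat_lit 3, nat_lit 1824, nat_lit 10080, nat_lit 5712, nat_lit 19632, nat_lit 3552, R5_119, R10_409, R1_74⟩]⟩]⟩,
 ⟨nat_lit 7, [⟨nat_lit 4, [⟨nat_lit 2, nat_lit 384, nat_lit 4224, nat_lit 7152, nat_lit 15216, nat_lit 12384, R13_149, R10_317, R2_258⟩]⟩, ⟨nat_lit 7, [⟨nat_lit 2, nat_lit 2544, nat_lit 5952, nat_lit 5088, nat_lit 18768, nat_lit 12960, R3_106, R10_391, R1_270⟩]⟩]⟩]]], [[], [], [], [], [[], [], [], [], [], [⟨nat_lit 4, [⟨nat_lit 4, [⟨nat_lit 2, nat_lit 8064, nat_lit 528, nat_lit 13440, nat_lit 9168, nat_lit 15024, R8_280, R4_191, R2_313⟩]⟩, ⟨nat_lit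 5, [⟨nat_lit 2, nat_lit 8688, nat_lit 576, nat_lit 2160, nat_lit 10752, nat_lit 16032, R5_45, R4_224, R1_334⟩]⟩, ⟨nat_lit 6, [⟨nat_lit 2, nat_lit 9168, nat_lit 672, nat_lit 2400, nat_lit 10512, nat_lit 4320, R9_50, R4_219, R12_90⟩]⟩]⟩,
 ⟨nat_lit 5, [⟨nat_lit 4, [⟨nat_lit 2, nat_lit 8352, nat_lit 7488, nat_lit 16656, nat_lit 7200, nat_lit 15360, R5_347, R5_150, R2_320⟩]⟩, ⟨nat_lit 5, [⟨nat_lit 2, nat_lit 8784, nat_lit 7536, nat_lit 21600, nat_lit 7344, nat_lit 16368, R11_450, R5_153, R1_341⟩]⟩]⟩]], [[], [], [], [], [], [⟨nat_lit 5, [⟨nat_lit 4, [⟨nat_lit 2, nat_lit 8400, nat_lit 15840, nat_lit 16752, nat_lit 6816, nat_lit 15504, R5_349, R11_142, R2_323⟩]⟩, ⟨nat_lit 5, [⟨nat_lit 2, nat_lit 8832, nat_lit 16416, nat_lit 21696, nat_lit 6960, nat_lit 16512, R11_452, R11_145, R1_344⟩]⟩]⟩]]], [[[⟨nat_lit 0, [⟨nat_lit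 0, [⟨nat_lit 6, nat_lit 2592, nat_lit 11040, nat_lit 13056, nat_lit 17616, nat_lit 8928, R4_272, R7_367, R4_186⟩]⟩]⟩,
 ⟨nat_lit 2, [⟨nat_lit 0, [⟨nat_lit 4, nat_lit 2736, nat_lit 2256, nat_lit 3072, nat_lit 3552, nat_lit 8928, R3_64, R7_74, R6_186⟩, ⟨nat_lit 6, nat_lit 2784, nat_lit 11136, nat_lit 3168, nat_lit 11808, nat_lit 9552, R3_66, R14_246, R4_199⟩]⟩, ⟨nat_lit 2, [⟨nat_lit 4, nat_lit 3456, nat_lit 2976, nat_lit 5232, nat_lit 3984, nat_lit 1680, R10_109, R7_83, R4_35⟩]⟩]⟩,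
 ⟨nat_lit 6, [⟨nat_lit 2, [⟨nat_lit 4, nat_lit 3936, nat_lit 3072, nat_lit 4512, nat_lit 4032, nat_lit 3792, R1_94, R4_84, R4_79⟩]⟩]⟩], [], [], [⟨nat_lit 0, [⟨nat_lit 0, [⟨nat_lit 6, nat_lit 2640, nat_lit 12864, nat_lit 13152, nat_lit 17712, nat_lit 15168, R4_274, R7_369, R3_316⟩]⟩, ⟨nat_lit 3, [⟨nat_lit 6, nat_lit 5088, nat_lit 13008, nat_lit 16272, nat_lit 17904, nat_lit 14688, R5_339, R7_373, R10_306⟩]⟩]⟩,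
 ⟨nat_lit 2, [⟨nat_lit 0, [⟨nat_lit 4, nat_lit 3024, nat_lit 2640, nat_lit 8880, nat_lit 9696, nat_lit 19248, R3_185, R7_202, R13_401⟩, ⟨nat_lit 6, nat_lit 3072, nat_lit 13872, nat_lit 9168, nat_lit 12288, nat_lit 15504, R3_191, R14_256, R3_323⟩]⟩, ⟨nat_lit 2, [⟨nat_lit 4, nat_lit 3648, nat_lit 3216, nat_lit 5376, nat_lit 10992, nat_lit 12576, R10_112, R7_229, R3_262⟩]⟩]⟩,
 ⟨nat_lit 6, [⟨nat_lit 2, [⟨nat_lit 4, nat_lit 4224, nat_lit 816, nat_lit 4656, nat_lit 10368, nat_lit 14256, R1_97, R4_216, R3_297⟩, ⟨nat_lit 7, nat_lit 4272, nat_lit 7776, nat_lit 4704, nat_lit 7104, nat_lit 19056, R1_98, R5_148, R10_397⟩]⟩]⟩]], [], [[⟨nat_lit 2, [⟨nat_lit 0, [⟨nat_lit 4, nat_lit 2832, nat_lit 2112, nat_lit 3120, nat_lit 1872, nat_lit 8976, R3_65, R2_39, R6_187⟩, ⟨nat_lit 5, nat_lit 2928, nat_lit 2448, nat_lit 3360, nat_lit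 1344, nat_lit 5712, R3_70, R1_28, R8_119⟩, ⟨nat_lit 6, nat_lit 2880, nat_lit 2832, nat_lit 3216, nat_lit 10416, nat_lit 9600, R3_67, R12_217, R4_200⟩]⟩, ⟨nat_lit 2, [⟨nat_lit 4, nat_lit 3504, nat_lit 9792, nat_lit 5280, nat_lit 2352, nat_lit 8400, R10_110, R2_49, R4_175⟩, ⟨nat_lit 5, nat_lit 3552, nat_lit 10080, nat_lit 5328, nat_lit 1824, nat_lit 5712, R10_111, R1_38, R5_119⟩]⟩]⟩,
 ⟨nat_lit 6, [⟨nat_lit 2, [⟨nat_lit 4, nat_lit 3984, nat_lit 9744, nat_lit 4560, nat_lit 14304, nat_lit 10128, R1_95, R3_298, R4_211⟩, ⟨nat_lit 5, nat_lit 4032, nat_lit 10032, nat_lit 4608, nat_lit 19488, nat_lit 5568, R1_96, R10_406, R5_116⟩]⟩]⟩], [], [⟨nat_lit 2, [⟨nat_lit 0, [⟨nat_lit 5, nat_lit 2976, nat_lit 8400, nat_lit 10560, nat_lit 6768, nat_lit 16464, R3_220, R1_141, R5_343⟩]⟩, ⟨nat_lit 2, [⟨nat_lit 5, nat_lit 3600, nat_lit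 8496, nat_lit 5616, nat_lit 7248, nat_lit 21408, R10_117, R1_151, R11_446⟩]⟩]⟩,
 ⟨nat_lit 6, [⟨nat_lit 2, [⟨nat_lit 5, nat_lit 4080, nat_lit 8448, nat_lit 5040, nat_lit 19536, nat_lit 21312, R1_105, R10_407, R11_444⟩]⟩]⟩]], [[], [], [], [⟨nat_lit 0, [⟨nat_lit 0, [⟨nat_lit 6, nat_lit 2688, nat_lit 8976, nat_lit 13200, nat_lit 14832, nat_lit 15216, R4_275, R2_309, R3_317⟩]⟩, ⟨nat_lit 3, [⟨nat_lit 6, nat_lit 5136, nat_lit 9168, nat_lit 16608, nat_lit 15456, nat_lit 15168, R5_346, R2_322, R10_316⟩]⟩]⟩,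
 ⟨nat_lit 2, [⟨nat_lit 0, [⟨nat_lit 4, nat_lit 3264, nat_lit 9024, nat_lit 8976, nat_lit 3888, nat_lit 19296, R3_187, R2_81, R13_402⟩, ⟨nat_lit 6, nat_lit 3312, nat_lit 9120, nat_lit 9216, nat_lit 16992, nat_lit 15552, R3_192, R12_354, R3_324⟩, ⟨nat_lit 7, nat_lit 3360, nat_lit 9072, nat_lit 9120, nat_lit 3360, nat_lit 9120, R3_190, R1_70, R3_190⟩]⟩, ⟨nat_lit 2, [⟨nat_lit 4, nat_lit 3792, nat_lit 9408, nat_lit 5424, nat_lit 5136, nat_lit 13344, R10_113, R2_107, R3_278⟩, ⟨nat_lit 7, nat_lit 3840, nat_lit 9456, nat_lit 5472, nat_lit 3840, nat_lit 19200, R10_114, R1_80, R10_400⟩]⟩]⟩,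
 ⟨nat_lit 3, [⟨nat_lit 3, [⟨nat_lit 6, nat_lit 5712, nat_lit 9216, nat_lit 5568, nat_lit 16464, nat_lit 18672, R11_116, R1_343, R10_389⟩]⟩]⟩,
 ⟨nat_lit 6, [⟨nat_lit 2, [⟨nat_lit 7, nat_lit 4464, nat_lit 9360, nat_lit 4752, nat_lit 21744, nat_lit 19104, R1_99, R11_453, R10_398⟩]⟩]⟩], [], [], [], [⟨nat_lit 0, [⟨nat_lit 3, [⟨nat_lit 6, nat_lit 5184, nat_lit 6624, nat_lit 16560, nat_lit 15312, nat_lit 13536, R5_345, R2_319, R1_282⟩]⟩]⟩,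
 ⟨nat_lit 2, [⟨nat_lit 0, [⟨nat_lit 7, nat_lit 3408, nat_lit 6000, nat_lit 15840, nat_lit 13680, nat_lit 14112, R3_330, R1_285, R2_294⟩]⟩, ⟨nat_lit 2, [⟨nat_lit 7, nat_lit 3888, nat_lit 7872, nat_lit 5184, nat_lit 15504, nat_lit 15648, R10_108, R1_323, R1_326⟩]⟩]⟩,
 ⟨nat_lit 3, [⟨nat_lit 3, [⟨nat_lit 6, nat_lit 5760, nat_lit 7152, nat_lit 5520, nat_lit 16320, nat_lit 15408, R11_115, R1_340, R1_321⟩]⟩, ⟨nat_lit 7, [⟨nat_lit 2, nat_lit 7824, nat_lit 4944, nat_lit 4176, nat_lit 21792, nat_lit 15600, R1_87, R11_454, R1_325⟩, ⟨nat_lit 6, nat_lit 7776, nat_lit 4992, nat_lit 4128, nat_lit 15888, nat_lit 21360, R1_86, R1_331, R11_445⟩]⟩]⟩,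
 ⟨nat_lit 4, [⟨nat_lit 6, [⟨nat_lit 3, nat_lit 6624, nat_lit 5184, nat_lit 16560, nat_lit 15312, nat_lit 13536, R5_345, R2_319, R1_282⟩]⟩]⟩,
 ⟨nat_lit 6, [⟨nat_lit 2, [⟨nat_lit 3, nat_lit 4992, nat_lit 7776, nat_lit 4128, nat_lit 15888, nat_lit 21360, R1_86, R1_331, R11_445⟩, ⟨nat_lit 7, nat_lit 4944, nat_lit 7824, nat_lit 4176, nat_lit 21792, nat_lit 15600, R1_87, R11_454, R1_325⟩]⟩, ⟨nat_lit 6, [⟨nat_lit 3, nat_lit 7152, nat_lit 5760, nat_lit 5520, nat_lit 16320, nat_lit 15408, R11_115, R1_340, R1_321⟩]⟩]⟩,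
 ⟨nat_lit 7, [⟨nat_lit 4, [⟨nat_lit 2, nat_lit 6000, nat_lit 3408, nat_lit 15840, nat_lit 13680, nat_lit 14112, R3_330, R1_285, R2_294⟩]⟩, ⟨nat_lit 7, [⟨nat_lit 2, nat_lit 7872, nat_lit 3888, nat_lit 5184, nat_lit 15504, nat_lit 15648, R10_108, R1_323, R1_326⟩]⟩]⟩]], [[], [], [], [], [⟨nat_lit 4, [⟨nat_lit 4, [⟨nat_lit 2, nat_lit 5808, nat_lit 11568, nat_lit 13440, nat_lit 11664, nat_lit 14304, R4_280, R4_243, R7_298⟩]⟩, ⟨nat_lit 6, [⟨nat_lit 0, nat_lit 6096, nat_lit 4224, nat_lit 14400, nat_lit 10848, nat_lit 3216, R5_300, R6_226, R7_67⟩, ⟨nat_lit 2, nat_lit 6144, nat_lit 12000, nat_lit 15984, nat_lit 11712, nat_lit 5328, R5_333, R4_244, R14_111⟩]⟩]⟩,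
 ⟨nat_lit 6, [⟨nat_lit 2, [⟨nat_lit 0, nat_lit 4512, nat_lit 3072, nat_lit 3936, nat_lit 4032, nat_lit 3792, R1_82, R4_84, R4_79⟩]⟩, ⟨nat_lit 6, [⟨nat_lit 0, nat_lit 6816, nat_lit 4320, nat_lit 4608, nat_lit 1824, nat_lit 3744, R11_96, R4_38, R7_78⟩]⟩]⟩], [], [⟨nat_lit 4, [⟨nat_lit 6, [⟨nat_lit 0, nat_lit 6288, nat_lit 336, nat_lit 14448, nat_lit 10896, nat_lit 1536, R5_301, R6_227, R2_32⟩, ⟨nat_lit 1, nat_lit 6384, nat_lit 6528, nat_lit 17136, nat_lit 9936, nat_lit 1008, R5_357, R8_207, R1_21⟩, ⟨nat_lit 2, nat_lit 6336, nat_lit 12720, nat_lit 16032, nat_lit 11760, nat_lit 7056, R5_334, R4_245, R12_147⟩]⟩]⟩,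
 ⟨nat_lit 6, [⟨nat_lit 2, [⟨nat_lit 0, nat_lit 4656, nat_lit 816, nat_lit 4224, nat_lit 10368, nat_lit 14256, R1_88, R4_216, R3_297⟩, ⟨nat_lit 1, nat_lit 4704, nat_lit 7776, nat_lit 4272, nat_lit 7104, nat_lit 19056, R1_89, R5_148, R10_397⟩]⟩, ⟨nat_lit 6, [⟨nat_lit 0, nat_lit 6912, nat_lit 720, nat_lit 5808, nat_lit 8544, nat_lit 2112, R11_121, R4_178, R2_44⟩, ⟨nat_lit 1, nat_lit 6960, nat_lit 7680, nat_lit 5856, nat_lit 7152, nat_lit 1584, R11_122, R5_149, R1_33⟩]⟩]⟩]], [], [[], [], [⟨nat_lit 6, [⟨nat_lit 2, [⟨nat_lit 1, nat_lit 4176, nat_lit 7824, nat_lit 4944, nat_lit 21792, nat_lit 15600, R1_103, R11_454, R1_325⟩, ⟨nat_lit 5, nat_lit 4128, nat_lit 7776, nat_lit 4992, nat_lit 15888, nat_lit 21360, R1_104, R1_331, R11_445⟩]⟩]⟩], [], [], [], [⟨nat_lit 4, [⟨nat_lit 6, [⟨nat_lit 1, nat_lit 6432, nat_lit 6144,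 nat_lit 17472, nat_lit 17472, nat_lit 6432, R5_364, R5_364, R1_134⟩]⟩]⟩,
 ⟨nat_lit 6, [⟨nat_lit 2, [⟨nat_lit 1, nat_lit 4752, nat_lit 9360, nat_lit 4464, nat_lit 21744, nat_lit 19104, R1_93, R11_453, R10_398⟩]⟩, ⟨nat_lit 6, [⟨nat_lit 1, nat_lit 7008, nat_lit 7296, nat_lit 6768, nat_lit 22176, nat_lit 7008, R11_141, R11_462, R1_146⟩]⟩]⟩]], [[], [], [], [], [⟨nat_lit 4, [⟨nat_lit 4, [⟨nat_lit 2, nat_lit 5856, nat_lit 10272, nat_lit 13584, nat_lit 16656, nat_lit 14400, R4_283, R3_347, R7_300⟩]⟩, ⟨nat_lit 6, [⟨nat_lit 0, nat_lit 6192, nat_lit 10608, nat_lit 14544, nat_lit 21072, nat_lit 9408, R5_303, R13_439, R7_196⟩, ⟨nat_lit 2, nat_lit 6240, nat_lit 10800, nat_lit 16080, nat_lit 17184, nat_lit 5520, R5_335, R3_358, R14_115⟩]⟩]⟩,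
 ⟨nat_lit 6, [⟨nat_lit 2, [⟨nat_lit 0, nat_lit 4560, nat_lit 9744, nat_lit 3984, nat_lit 14304, nat_lit 10128, R1_83, R3_298, R4_211⟩, ⟨nat_lit 3, nat_lit 4608, nat_lit 10032, nat_lit 4032, nat_lit 19488, nat_lit 5568, R1_84, R10_406, R5_116⟩]⟩, ⟨nat_lit 6, [⟨nat_lit 0, nat_lit 6864, nat_lit 10704, nat_lit 4992, nat_lit 12720, nat_lit 10800, R11_104, R3_265, R7_225⟩]⟩]⟩,
 ⟨nat_lit 7, [⟨nat_lit 4, [⟨nat_lit 2, nat_lit 5952, nat_lit 10320, nat_lit 15456, nat_lit 14880, nat_lit 14544, R3_322, R10_310, R7_303⟩]⟩]⟩], [], [], [⟨nat_lit 4, [⟨nat_lit 4, [⟨nat_lit 2, nat_lit 5904, nat_lit 3360, nat_lit 13776, nat_lit 16704, nat_lit 13920, R4_287, R3_348, R2_290⟩]⟩, ⟨nat_lit 6, [⟨nat_lit 0, nat_lit 6672, nat_lit 6000, nat_lit 14592, nat_lit 21120, nat_lit 3504, R5_304, R13_440, R2_73⟩, ⟨nat_lit 2, nat_lit 6720, nat_lit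 6096, nat_lit 16128, nat_lit 17232, nat_lit 14976, R5_336, R3_359, R12_312⟩, ⟨nat_lit 3, nat_lit 6768, nat_lit 6048, nat_lit 16464, nat_lit 10560, nat_lit 2976, R5_343, R3_220, R1_62⟩]⟩]⟩,
 ⟨nat_lit 6, [⟨nat_lit 2, [⟨nat_lit 3, nat_lit 5040, nat_lit 8448, nat_lit 4080, nat_lit 19536, nat_lit 21312, R1_85, R10_407, R11_444⟩]⟩, ⟨nat_lit 6, [⟨nat_lit 0, nat_lit 7200, nat_lit 6720, nat_lit 5280, nat_lit 13536, nat_lit 4896, R11_110, R3_282, R2_102⟩, ⟨nat_lit 3, nat_lit 7248, nat_lit 6768, nat_lit 5328, nat_lit 19968, nat_lit 3600, R11_111, R10_416, R1_75⟩]⟩]⟩,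
 ⟨nat_lit 7, [⟨nat_lit 4, [⟨nat_lit 2, nat_lit 6048, nat_lit 3936, nat_lit 15792, nat_lit 15312, nat_lit 14160, R3_329, R10_319, R2_295⟩]⟩, ⟨nat_lit 7, [⟨nat_lit 2, nat_lit 7920, nat_lit 5040, nat_lit 4272, nat_lit 18864, nat_lit 15696, R10_89, R10_393, R1_327⟩]⟩]⟩]]], [[], [], [], [[], [], [], [], [⟨nat_lit 3, [⟨nat_lit 4, [⟨nat_lit 2, nat_lit 10944, nat_lit 10656, nat_lit 14064, nat_lit 18912, nat_lit 15120, R2_293, R11_394, R7_315⟩, ⟨nat_lit 6, nat_lit 10896, nat_lit 10848, nat_lit 14016, nat_lit 13728, nat_lit 13872, R2_292, R1_286, R4_289⟩]⟩, ⟨nat_lit 7, [⟨nat_lit 6, nat_lit 12144, nat_lit 11184, nat_lit 3840, nat_lit 15072, nat_lit 15600, R12_80, R1_314, R5_325⟩]⟩]⟩,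
 ⟨nat_lit 7, [⟨nat_lit 4, [⟨nat_lit 2, nat_lit 11136, nat_lit 10608, nat_lit 15360, nat_lit 13152, nat_lit 15072, R3_320, R1_274, R7_314⟩]⟩]⟩], [⟨nat_lit 3, [⟨nat_lit 4, [⟨nat_lit 2, nat_lit 11040, nat_lit 11040, nat_lit 14304, nat_lit 21024, nat_lit 14304, R2_298, R11_438, R2_298⟩, ⟨nat_lit 6, nat_lit 10992, nat_lit 11232, nat_lit 14256, nat_lit 13776, nat_lit 15696, R2_297, R1_287, R3_327⟩]⟩, ⟨nat_lit 5, [⟨nat_lit 2, nat_lit 11424, nat_lit 11424, nat_lit 15840, nat_lit 21264, nat_lit 15840, R1_330, R11_443, R1_330⟩, ⟨nat_lit 6, nat_lit 11376, nat_lit 11472, nat_lit 15792, nat_lit 15552, nat_lit 19440, R1_329, R1_324, R10_405⟩]⟩]⟩,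
 ⟨nat_lit 7, [⟨nat_lit 4, [⟨nat_lit 2, nat_lit 11232, nat_lit 10992, nat_lit 15696, nat_lit 13776, nat_lit 14256, R3_327, R1_287, R2_297⟩]⟩, ⟨nat_lit 5, [⟨nat_lit 2, nat_lit 11472, nat_lit 11376, nat_lit 19440, nat_lit 15552, nat_lit 15792, R10_405, R1_324, R1_329⟩]⟩]⟩], [], [⟨nat_lit 3, [⟨nat_lit 4, [⟨nat_lit 2, nat_lit 11088, nat_lit 6384, nat_lit 14352, nat_lit 20448, nat_lit 12768, R2_299, R11_426, R2_266⟩]⟩, ⟨nat_lit 7, [⟨nat_lit 2, nat_lit 12288, nat_lit 6480, nat_lit 3936, nat_lit 20640, nat_lit 14112, R12_82, R11_430, R1_294⟩, ⟨nat_lit 6, nat_lit 12240, nat_lit 6432, nat_lit 3984, nat_lit 15120, nat_lit 19920, R12_83, R1_315, R11_415⟩]⟩]⟩,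
 ⟨nat_lit 7, [⟨nat_lit 4, [⟨nat_lit 2, nat_lit 11328, nat_lit 6336, nat_lit 15648, nat_lit 13632, nat_lit 13872, R3_326, R1_284, R2_289⟩]⟩]⟩]], [], [], [], [[], [], [], [], [⟨nat_lit 7, [⟨nat_lit 4, [⟨nat_lit 2, nat_lit 11184, nat_lit 10416, nat_lit 15408, nat_lit 14784, nat_lit 15024, R3_321, R10_308, R7_313⟩]⟩]⟩], [⟨nat_lit 7, [⟨nat_lit 4, [⟨nat_lit 2, nat_lit 11280, nat_lit 12288, nat_lit 15744, nat_lit 15552, nat_lit 14208, R3_328, R10_324, R2_296⟩]⟩, ⟨nat_lit 5, [⟨nat_lit 2, nat_lit 11520, nat_lit 12576, nat_lit 19392, nat_lit 18960, nat_lit 15744, R10_404, R10_395, R1_328⟩]⟩]⟩]]]]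
noncomputable def N6662 : T3 (List N0) := [[[[], [⟨nat_lit 0, [⟨nat_lit 1, [⟨nat_lit 1, nat_lit 12336, nat_lit 1248, nat_lit 1968, nat_lit 4560, nat_lit 18480, R7_41, R7_95, R11_385⟩]⟩]⟩,
 ⟨nat_lit 1, [⟨nat_lit 1, [⟨nat_lit 1, nat_lit 12384, nat_lit 7248, nat_lit 528, nat_lit 2976, nat_lit 18960, R2_11, R2_62, R11_395⟩]⟩]⟩,
 ⟨nat_lit 3, [⟨nat_lit 1, [⟨nat_lit 1, nat_lit 12432, nat_lit 8112, nat_lit 576, nat_lit 2928, nat_lit 18672, R2_12, R2_61, R11_389⟩]⟩]⟩], [], [], [], [⟨nat_lit 0, [⟨nat_lit 1, [⟨nat_lit 1, nat_lit 12576, nat_lit 1440, nat_lit 1008, nat_lit 4608, nat_lit 15216, R7_21, R7_96, R1_317⟩]⟩, ⟨nat_lit 5, [⟨nat_lit 1, nat_lit 12720, nat_lit 624, nat_lit 1296, nat_lit 4656, nat_lit 720, R4_27, R7_97, R10_15⟩, ⟨nat_lit 5, nat_lit 12768, nat_lit 576, nat_lit 1344, nat_lit 4464, nat_lit 432, R4_28, R4_93,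 R1_9⟩]⟩]⟩,
 ⟨nat_lit 1, [⟨nat_lit 1, [⟨nat_lit 1, nat_lit 12624, nat_lit 7344, nat_lit 48, nat_lit 3024, nat_lit 15360, R2_1, R2_63, R1_320⟩]⟩, ⟨nat_lit 5, [⟨nat_lit 1, nat_lit 12816, nat_lit 7008, nat_lit 4848, nat_lit 3072, nat_lit 768, R3_101, R2_64, R10_16⟩, ⟨nat_lit 5, nat_lit 12864, nat_lit 6960, nat_lit 4800, nat_lit 17328, nat_lit 480, R3_100, R3_361, R1_10⟩]⟩]⟩,
 ⟨nat_lit 3, [⟨nat_lit 1, [⟨nat_lit 1, nat_lit 12672, nat_lit 8112, nat_lit 2256, nat_lit 864, nat_lit 15264, R2_47, R2_18, R1_318⟩]⟩]⟩]], [[], [⟨nat_lit 1, [⟨nat_lit 1, [⟨nat_lit 1, nat_lit 12480, nat_lit 5472, nat_lit 6240, nat_lit 2448, nat_lit 21072, R2_130, R1_51, R11_439⟩]⟩]⟩], [], [], [], [⟨nat_lit 1, [⟨nat_lit 1, [⟨nat_lit 1, nat_lit 12912, nat_lit 13392, nat_lit 5184, nat_lit 2496, nat_lit 15456, R2_108, R1_52, R1_322⟩]⟩, ⟨nat_lit 5,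 [⟨nat_lit 1, nat_lit 12960, nat_lit 5088, nat_lit 5952, nat_lit 2544, nat_lit 912, R3_124, R1_53, R10_19⟩, ⟨nat_lit 5, nat_lit 13008, nat_lit 5136, nat_lit 5904, nat_lit 2688, nat_lit 528, R3_123, R10_56, R1_11⟩]⟩]⟩]], [], [[], [⟨nat_lit 3, [⟨nat_lit 1, [⟨nat_lit 1, nat_lit 12528, nat_lit 5424, nat_lit 6288, nat_lit 2400, nat_lit 20784, R2_131, R1_50, R11_433⟩]⟩]⟩]]], [[], [[], [⟨nat_lit 1, [⟨nat_lit 1, [⟨nat_lit 1, nat_lit 15600, nat_lit 4176, nat_lit 4944, nat_lit 7824, nat_lit 21168, R1_103, R1_163, R11_441⟩]⟩]⟩], [], [], [], [⟨nat_lit 1, [⟨nat_lit 1, [⟨nat_lit 1, nat_lit 15648, nat_lit 5184, nat_lit 3888, nat_lit 7872, nat_lit 15504, R1_81, R1_164, R1_323⟩]⟩, ⟨nat_lit 5, [⟨nat_lit 1, nat_lit 15696, nat_lit 4272, nat_lit 5040, nat_lit 7920, nat_lit 12720, R10_105, R1_165, R10_265⟩, ⟨nat_lit 5, nat_lit 15744,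 nat_lit 4224, nat_lit 5088, nat_lit 8688, nat_lit 11520, R10_106, R10_181, R1_240⟩]⟩]⟩,
 ⟨nat_lit 5, [⟨nat_lit 5, [⟨nat_lit 5, nat_lit 15792, nat_lit 18720, nat_lit 11376, nat_lit 15552, nat_lit 11472, R1_237, R1_324, R1_239⟩]⟩]⟩]], [], [], [], [[], [], [], [], [], [⟨nat_lit 5, [⟨nat_lit 5, [⟨nat_lit 5, nat_lit 15840, nat_lit 15840, nat_lit 11424, nat_lit 21264, nat_lit 11424, R1_238, R11_443, R1_238⟩]⟩]⟩]]], [[[⟨nat_lit 0, [⟨nat_lit 0, [⟨nat_lit 1, nat_lit 13056, nat_lit 14160, nat_lit 11472, nat_lit 12960, nat_lit 13536, R7_239, R7_270, R4_282⟩]⟩]⟩,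
 ⟨nat_lit 3, [⟨nat_lit 0, [⟨nat_lit 1, nat_lit 13104, nat_lit 14208, nat_lit 10752, nat_lit 10512, nat_lit 13680, R2_224, R2_219, R4_285⟩]⟩, ⟨nat_lit 3, [⟨nat_lit 1, nat_lit 13152, nat_lit 14448, nat_lit 11136, nat_lit 10608, nat_lit 15360, R1_232, R2_221, R3_320⟩]⟩]⟩], [⟨nat_lit 0, [⟨nat_lit 0, [⟨nat_lit 1, nat_lit 13824, nat_lit 17712, nat_lit 11856, nat_lit 13104, nat_lit 15024, R7_247, R7_273, R5_313⟩]⟩, ⟨nat_lit 1, [⟨nat_lit 1, nat_lit 13920, nat_lit 17760, nat_lit 12672, nat_lit 13200, nat_lit 18528, R14_264, R7_275, R11_386⟩]⟩]⟩,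
 ⟨nat_lit 1, [⟨nat_lit 1, [⟨nat_lit 1, nat_lit 13968, nat_lit 18192, nat_lit 9936, nat_lit 11856, nat_lit 19008, R12_207, R2_247, R11_396⟩]⟩]⟩,
 ⟨nat_lit 3, [⟨nat_lit 0, [⟨nat_lit 1, nat_lit 13872, nat_lit 18288, nat_lit 11040, nat_lit 11712, nat_lit 15504, R2_230, R2_244, R5_323⟩]⟩, ⟨nat_lit 1, [⟨nat_lit 1, nat_lit 14016, nat_lit 18384, nat_lit 1920, nat_lit 11808, nat_lit 18720, R12_40, R2_246, R11_390⟩]⟩]⟩]], [[], [⟨nat_lit 1, [⟨nat_lit 1, [⟨nat_lit 1, nat_lit 14112, nat_lit 15312, nat_lit 10656, nat_lit 12288, nat_lit 21120, R12_222, R1_256, R11_440⟩]⟩]⟩]], [[⟨nat_lit 0, [⟨nat_lit 0, [⟨nat_lit 0, nat_lit 13200, nat_lit 12000, nat_lit 2208, nat_lit 3408, nat_lit 14160, R7_46, R7_71, R6_295⟩, ⟨nat_lit 1, nat_lit 13248, nat_lit 13728, nat_lit 11520, nat_lit 14016, nat_lit 13920, R7_240, R14_292, R4_290⟩]⟩]⟩,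
 ⟨nat_lit 2, [⟨nat_lit 0, [⟨nat_lit 0, nat_lit 13296, nat_lit 12096, nat_lit 672, nat_lit 1728, nat_lit 14352, R2_14, R2_36, R6_299⟩, ⟨nat_lit 1, nat_lit 13344, nat_lit 13824, nat_lit 10320, nat_lit 9744, nat_lit 14016, R2_215, R12_203, R4_292⟩, ⟨nat_lit 2, nat_lit 13392, nat_lit 14928, nat_lit 6480, nat_lit 1200, nat_lit 13344, R2_135, R1_25, R8_278⟩]⟩, ⟨nat_lit 2, [⟨nat_lit 2, nat_lit 13536, nat_lit 15312, nat_lit 5184, nat_lit 6624, nat_lit 16560, R1_108, R1_138, R5_345⟩]⟩]⟩,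
 ⟨nat_lit 3, [⟨nat_lit 0, [⟨nat_lit 0, nat_lit 13440, nat_lit 12048, nat_lit 1008, nat_lit 0, nat_lit 14304, R2_21, R2_0, R6_298⟩, ⟨nat_lit 1, nat_lit 13488, nat_lit 13776, nat_lit 10944, nat_lit 9888, nat_lit 13968, R2_228, R12_206, R4_291⟩]⟩, ⟨nat_lit 3, [⟨nat_lit 0, nat_lit 13584, nat_lit 12336, nat_lit 336, nat_lit 3936, nat_lit 19488, R1_7, R2_82, R13_406⟩, ⟨nat_lit 1, nat_lit 13632, nat_lit 13872, nat_lit 11328, nat_lit 10608, nat_lit 15648, R1_236, R12_221, R3_326⟩, ⟨nat_lit 3, nat_lit 13680, nat_lit 14112, nat_lit 6000, nat_lit 3408, nat_lit 15840, R1_125, R1_71, R3_330⟩]⟩]⟩], [⟨nat_lit 0, [⟨nat_lit 0, [⟨nat_lit 0, nat_lit 14160, nat_lit 13584, nat_lit 2640, nat_lit 4368, nat_lit 1056, R7_55, R7_91, R8_22⟩, ⟨nat_lit 1, nat_lit 14208, nat_lit 13920, nat_lit 11952, nat_lit 14064, nat_lit 15072, R7_249,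 R14_293, R5_314⟩]⟩, ⟨nat_lit 1, [⟨nat_lit 0, nat_lit 14496, nat_lit 13632, nat_lit 14160, nat_lit 12816, nat_lit 15168, R14_295, R7_267, R5_316⟩, ⟨nat_lit 1, nat_lit 14544, nat_lit 13968, nat_lit 14880, nat_lit 14784, nat_lit 19488, R14_310, R14_308, R11_406⟩]⟩]⟩,
 ⟨nat_lit 1, [⟨nat_lit 1, [⟨nat_lit 1, nat_lit 14592, nat_lit 14112, nat_lit 11952, nat_lit 11856, nat_lit 20688, R12_249, R12_247, R11_431⟩]⟩]⟩,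
 ⟨nat_lit 2, [⟨nat_lit 0, [⟨nat_lit 0, nat_lit 14256, nat_lit 13824, nat_lit 768, nat_lit 2784, nat_lit 6192, R2_16, R2_58, R8_129⟩, ⟨nat_lit 1, nat_lit 14304, nat_lit 14496, nat_lit 10416, nat_lit 9792, nat_lit 15888, R2_217, R12_204, R5_331⟩, ⟨nat_lit 2, nat_lit 14352, nat_lit 14736, nat_lit 6912, nat_lit 2256, nat_lit 14880, R2_144, R1_47, R9_310⟩]⟩, ⟨nat_lit 1, [⟨nat_lit 0, nat_lit 14640, nat_lit 13872, nat_lit 10128, nat_lit 11520, nat_lit 15744, R12_211, R2_240, R5_328⟩, ⟨nat_lit 1, nat_lit 14688, nat_lit 14544, nat_lit 12192, nat_lit 11664, nat_lit 20064, R12_254, R12_243, R11_418⟩]⟩]⟩,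
 ⟨nat_lit 3, [⟨nat_lit 0, [⟨nat_lit 0, nat_lit 14400, nat_lit 13680, nat_lit 2736, nat_lit 816, nat_lit 6960, R2_57, R2_17, R8_145⟩, ⟨nat_lit 1, nat_lit 14448, nat_lit 14304, nat_lit 11472, nat_lit 10176, nat_lit 15648, R2_239, R12_212, R5_326⟩]⟩, ⟨nat_lit 1, [⟨nat_lit 0, nat_lit 14784, nat_lit 13776, nat_lit 9696, nat_lit 10464, nat_lit 15936, R12_202, R2_218, R5_332⟩, ⟨nat_lit 1, nat_lit 14832, nat_lit 14400, nat_lit 11568, nat_lit 12288, nat_lit 20256, R12_241, R12_256, R11_422⟩]⟩, ⟨nat_lit 3, [⟨nat_lit 0, nat_lit 14928, nat_lit 13728, nat_lit 2208, nat_lit 6960, nat_lit 14976, R1_46, R2_145, R9_312⟩]⟩]⟩], [⟨nat_lit 0, [⟨nat_lit 0, [⟨nat_lit 0, nat_lit 15216, nat_lit 12576, nat_lit 2784, nat_lit 3888, nat_lit 1440, R7_58, R7_81, R4_30⟩]⟩]⟩,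
 ⟨nat_lit 2, [⟨nat_lit 0, [⟨nat_lit 0, nat_lit 15264, nat_lit 12672, nat_lit 864, nat_lit 2256, nat_lit 8112, R2_18, R2_47, R4_169⟩, ⟨nat_lit 2, nat_lit 15312, nat_lit 15936, nat_lit 7056, nat_lit 1728, nat_lit 5904, R2_147, R1_36, R5_123⟩]⟩, ⟨nat_lit 2, [⟨nat_lit 2, nat_lit 15408, nat_lit 16320, nat_lit 5760, nat_lit 7152, nat_lit 21504, R1_120, R1_149, R11_448⟩]⟩]⟩,
 ⟨nat_lit 3, [⟨nat_lit 0, [⟨nat_lit 0, nat_lit 15360, nat_lit 12624, nat_lit 3024, nat_lit 48, nat_lit 7344, R2_63, R2_1, R4_153⟩]⟩, ⟨nat_lit 3, [⟨nat_lit 0, nat_lit 15456, nat_lit 12912, nat_lit 2496, nat_lit 5184, nat_lit 13392, R1_52, R2_108, R3_279⟩, ⟨nat_lit 3, nat_lit 15504, nat_lit 15648, nat_lit 7872, nat_lit 3888, nat_lit 19296, R1_164, R1_81, R10_402⟩]⟩]⟩]], [[⟨nat_lit 3, [⟨nat_lit 0, [⟨nat_lit 1, nat_lit 13728, nat_lit 14016, nat_lit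 10848, nat_lit 10896, nat_lit 13872, R2_226, R1_227, R4_289⟩]⟩, ⟨nat_lit 3, [⟨nat_lit 1, nat_lit 13776, nat_lit 14256, nat_lit 11232, nat_lit 10992, nat_lit 15696, R1_234, R1_229, R3_327⟩]⟩]⟩], [⟨nat_lit 3, [⟨nat_lit 0, [⟨nat_lit 1, nat_lit 15072, nat_lit 3840, nat_lit 11184, nat_lit 12144, nat_lit 15600, R2_233, R1_253, R5_325⟩]⟩, ⟨nat_lit 1, [⟨nat_lit 1, nat_lit 15120, nat_lit 3984, nat_lit 6432, nat_lit 12240, nat_lit 20880, R12_134, R1_255, R11_435⟩]⟩]⟩], [], [⟨nat_lit 3, [⟨nat_lit 3, [⟨nat_lit 1, nat_lit 15552, nat_lit 15792, nat_lit 11472, nat_lit 11376, nat_lit 18720, R1_239, R1_237, R10_390⟩]⟩]⟩]]], [[[], [], [], [], [], [⟨nat_lit 0, [⟨nat_lit 5, [⟨nat_lit 1, nat_lit 15984, nat_lit 240, nat_lit 2976, nat_lit 11376, nat_lit 9936, R5_62, R7_237, R10_207⟩, ⟨nat_lit 5, nat_lit 16032, nat_lit 2160, nat_lit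 576, nat_lit 10752, nat_lit 8688, R5_12, R4_224, R1_181⟩]⟩]⟩,
 ⟨nat_lit 3, [⟨nat_lit 1, [⟨nat_lit 1, nat_lit 15936, nat_lit 5904, nat_lit 1728, nat_lit 7056, nat_lit 15312, R1_36, R2_147, R1_319⟩]⟩, ⟨nat_lit 5, [⟨nat_lit 1, nat_lit 16176, nat_lit 5952, nat_lit 16464, nat_lit 7008, nat_lit 10032, R11_343, R2_146, R10_209⟩]⟩]⟩]], [], [], [[], [⟨nat_lit 3, [⟨nat_lit 1, [⟨nat_lit 1, nat_lit 15888, nat_lit 4128, nat_lit 4992, nat_lit 7776, nat_lit 20832, R1_104, R1_162, R11_434⟩]⟩]⟩], [], [], [], [⟨nat_lit 0, [⟨nat_lit 5, [⟨nat_lit 5, nat_lit 16368, nat_lit 21600, nat_lit 7536, nat_lit 7344, nat_lit 8784, R5_157, R5_153, R1_183⟩]⟩]⟩,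
 ⟨nat_lit 3, [⟨nat_lit 1, [⟨nat_lit 1, nat_lit 16320, nat_lit 21504, nat_lit 7152, nat_lit 5760, nat_lit 15408, R1_149, R1_120, R1_321⟩]⟩, ⟨nat_lit 5, [⟨nat_lit 1, nat_lit 16464, nat_lit 21552, nat_lit 16512, nat_lit 5712, nat_lit 10176, R11_344, R1_119, R10_212⟩, ⟨nat_lit 5, nat_lit 16512, nat_lit 21696, nat_lit 16416, nat_lit 21216, nat_lit 8832, R11_342, R11_442, R1_184⟩]⟩]⟩]]], [[], [], [], [[], [], [], [], [], [], [], [⟨nat_lit 3, [⟨nat_lit 7, [⟨nat_lit 1, nat_lit 2400, nat_lit 5424, nat_lit 6288, nat_lit 12528, nat_lit 20784, R2_131, R1_261, R11_433⟩, ⟨nat_lit 5, nat_lit 2448, nat_lit 5472, nat_lit 6240, nat_lit 21072, nat_lit 12480, R2_130, R11_439, R1_260⟩]⟩]⟩]], [[], [], [], [], [⟨nat_lit 4, [⟨nat_lit 4, [⟨nat_lit 5, nat_lit 0, nat_lit 96, nat_lit 864, nat_lit 3216, nat_lit 13488, R6_18, R4_67, R7_281⟩]⟩,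 ⟨nat_lit 5, [⟨nat_lit 5, nat_lit 96, nat_lit 960, nat_lit 432, nat_lit 3264, nat_lit 12192, R4_9, R4_68, R2_254⟩]⟩]⟩,
 ⟨nat_lit 7, [⟨nat_lit 4, [⟨nat_lit 5, nat_lit 48, nat_lit 4944, nat_lit 4896, nat_lit 15888, nat_lit 13584, R13_102, R3_331, R7_283⟩]⟩, ⟨nat_lit 5, [⟨nat_lit 5, nat_lit 144, nat_lit 6672, nat_lit 3648, nat_lit 15984, nat_lit 12288, R3_76, R3_333, R2_256⟩]⟩, ⟨nat_lit 7, [⟨nat_lit 5, nat_lit 192, nat_lit 6288, nat_lit 624, nat_lit 15936, nat_lit 11904, R3_13, R3_332, R2_248⟩]⟩]⟩], [⟨nat_lit 4, [⟨nat_lit 5, [⟨nat_lit 5, nat_lit 432, nat_lit 576, nat_lit 1344, nat_lit 4464, nat_lit 12768, R4_28, R4_93, R1_266⟩]⟩]⟩,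
 ⟨nat_lit 7, [⟨nat_lit 5, [⟨nat_lit 5, nat_lit 480, nat_lit 6960, nat_lit 4800, nat_lit 17328, nat_lit 12864, R3_100, R3_361, R1_268⟩]⟩]⟩], [⟨nat_lit 3, [⟨nat_lit 7, [⟨nat_lit 7, nat_lit 1200, nat_lit 15072, nat_lit 6480, nat_lit 14928, nat_lit 13392, R2_135, R2_311, R1_279⟩]⟩]⟩,
 ⟨nat_lit 4, [⟨nat_lit 4, [⟨nat_lit 4, nat_lit 576, nat_lit 3312, nat_lit 2736, nat_lit 3840, nat_lit 3168, R6_57, R6_80, R7_66⟩, ⟨nat_lit 5, nat_lit 624, nat_lit 3408, nat_lit 3072, nat_lit 4080, nat_lit 4560, R6_64, R4_85, R14_95⟩]⟩, ⟨nat_lit 5, [⟨nat_lit 5, nat_lit 768, nat_lit 3456, nat_lit 2736, nat_lit 4176, nat_lit 2928, R4_57, R4_87, R12_61⟩]⟩, ⟨nat_lit 6, [⟨nat_lit 4, nat_lit 864, nat_lit 3360, nat_lit 1680, nat_lit 3888, nat_lit 1488, R8_35, R6_81, R2_31⟩, ⟨nat_lit 5, nat_lit 912, nat_lit 3504, nat_lit 2880, nat_lit 4128,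 nat_lit 6768, R8_60, R4_86, R12_141⟩, ⟨nat_lit 6, nat_lit 960, nat_lit 3696, nat_lit 2496, nat_lit 2256, nat_lit 960, R8_52, R8_47, R1_20⟩]⟩]⟩,
 ⟨nat_lit 6, [⟨nat_lit 6, [⟨nat_lit 6, nat_lit 1008, nat_lit 10944, nat_lit 6528, nat_lit 17136, nat_lit 6384, R5_136, R5_357, R1_133⟩]⟩]⟩,
 ⟨nat_lit 7, [⟨nat_lit 4, [⟨nat_lit 4, nat_lit 672, nat_lit 8160, nat_lit 8688, nat_lit 20352, nat_lit 9360, R13_181, R13_424, R7_195⟩, ⟨nat_lit 5, nat_lit 720, nat_lit 8496, nat_lit 8736, nat_lit 16848, nat_lit 5040, R13_182, R3_351, R14_105⟩]⟩, ⟨nat_lit 5, [⟨nat_lit 5, nat_lit 816, nat_lit 8592, nat_lit 7056, nat_lit 16992, nat_lit 3408, R3_147, R3_354, R12_71⟩]⟩, ⟨nat_lit 7, [⟨nat_lit 4, nat_lit 1248, nat_lit 8256, nat_lit 2304, nat_lit 20400, nat_lit 3456, R3_48, R13_425, R2_72⟩, ⟨nat_lit 5, nat_lit 1296, nat_lit 8544, nat_lit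 2736, nat_lit 16896, nat_lit 13152, R3_57, R3_352, R12_274⟩, ⟨nat_lit 7, nat_lit 1344, nat_lit 8448, nat_lit 2448, nat_lit 3360, nat_lit 2928, R3_51, R3_70, R1_61⟩]⟩]⟩]], [], [[], [], [], [], [], [], [⟨nat_lit 3, [⟨nat_lit 7, [⟨nat_lit 7, nat_lit 1728, nat_lit 5904, nat_lit 7056, nat_lit 15936, nat_lit 15312, R2_147, R1_332, R1_319⟩]⟩]⟩,
 ⟨nat_lit 4, [⟨nat_lit 4, [⟨nat_lit 4, nat_lit 1392, nat_lit 4608, nat_lit 10368, nat_lit 1536, nat_lit 3696, R6_216, R4_32, R7_77⟩]⟩, ⟨nat_lit 6, [⟨nat_lit 4, nat_lit 1488, nat_lit 6192, nat_lit 9552, nat_lit 8256, nat_lit 2064, R8_199, R4_172, R2_43⟩, ⟨nat_lit 6, nat_lit 1536, nat_lit 6240, nat_lit 10080, nat_lit 6240, nat_lit 1536, R8_210, R5_130, R1_32⟩]⟩]⟩,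
 ⟨nat_lit 6, [⟨nat_lit 6, [⟨nat_lit 6, nat_lit 1584, nat_lit 7152, nat_lit 7680, nat_lit 21840, nat_lit 6960, R5_160, R11_455, R1_145⟩]⟩]⟩,
 ⟨nat_lit 7, [⟨nat_lit 4, [⟨nat_lit 4, nat_lit 1440, nat_lit 4992, nat_lit 9648, nat_lit 12624, nat_lit 10752, R13_201, R3_263, R7_224⟩]⟩, ⟨nat_lit 7, [⟨nat_lit 4, nat_lit 1776, nat_lit 5664, nat_lit 9936, nat_lit 13440, nat_lit 4848, R3_207, R3_280, R2_101⟩, ⟨nat_lit 7, nat_lit 1824, nat_lit 5712, nat_lit 10080, nat_lit 19632, nat_lit 3552, R3_210, R10_409, R1_74⟩]⟩]⟩]], [[], [], [], [], [⟨nat_lit 3, [⟨nat_lit 7, [⟨nat_lit 5, nat_lit 336, nat_lit 7680, nat_lit 3936, nat_lit 13584, nat_lit 12336, R2_82, R1_283, R2_257⟩]⟩]⟩,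
 ⟨nat_lit 7, [⟨nat_lit 4, [⟨nat_lit 5, nat_lit 240, nat_lit 5184, nat_lit 5904, nat_lit 14736, nat_lit 13680, R13_123, R10_307, R7_285⟩]⟩, ⟨nat_lit 5, [⟨nat_lit 5, nat_lit 288, nat_lit 6768, nat_lit 4176, nat_lit 15504, nat_lit 12432, R3_87, R10_323, R2_259⟩]⟩, ⟨nat_lit 7, [⟨nat_lit 5, nat_lit 384, nat_lit 7152, nat_lit 4224, nat_lit 15216, nat_lit 12384, R3_88, R10_317, R2_258⟩]⟩]⟩], [⟨nat_lit 7, [⟨nat_lit 5, [⟨nat_lit 5, nat_lit 528, nat_lit 5136, nat_lit 5904, nat_lit 18912, nat_lit 13008, R3_123, R10_394, R1_271⟩]⟩]⟩], [], [⟨nat_lit 3, [⟨nat_lit 7, [⟨nat_lit 5, nat_lit 2496, nat_lit 13392, nat_lit 5184, nat_lit 15456, nat_lit 12912, R2_108, R1_322, R1_269⟩]⟩]⟩,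
 ⟨nat_lit 7, [⟨nat_lit 7, [⟨nat_lit 5, nat_lit 2544, nat_lit 5088, nat_lit 5952, nat_lit 18768, nat_lit 12960, R3_124, R10_391, R1_270⟩]⟩]⟩]]], [[], [], [], [], [[], [], [], [], [], [⟨nat_lit 4, [⟨nat_lit 5, [⟨nat_lit 5, nat_lit 8688, nat_lit 2160, nat_lit 576, nat_lit 10752, nat_lit 16032, R5_12, R4_224, R1_334⟩]⟩]⟩]], [[], [], [], [], [], [⟨nat_lit 4, [⟨nat_lit 5, [⟨nat_lit 5, nat_lit 8784, nat_lit 21600, nat_lit 7536, nat_lit 7344, nat_lit 16368, R5_157, R5_153, R1_341⟩]⟩]⟩,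
 ⟨nat_lit 5, [⟨nat_lit 5, [⟨nat_lit 5, nat_lit 8832, nat_lit 21696, nat_lit 16416, nat_lit 21216, nat_lit 16512, R11_342, R11_442, R1_344⟩]⟩]⟩]]], [[[⟨nat_lit 0, [⟨nat_lit 0, [⟨nat_lit 1, nat_lit 2592, nat_lit 13056, nat_lit 11040, nat_lit 17616, nat_lit 8928, R4_230, R7_367, R4_186⟩]⟩, ⟨nat_lit 3, [⟨nat_lit 1, nat_lit 2640, nat_lit 13152, nat_lit 12864, nat_lit 17712, nat_lit 15168, R5_268, R7_369, R3_316⟩]⟩]⟩,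
 ⟨nat_lit 3, [⟨nat_lit 3, [⟨nat_lit 1, nat_lit 2688, nat_lit 13200, nat_lit 8976, nat_lit 14832, nat_lit 15216, R11_187, R2_309, R3_317⟩]⟩]⟩], [], [], [⟨nat_lit 0, [⟨nat_lit 3, [⟨nat_lit 1, nat_lit 5088, nat_lit 16272, nat_lit 13008, nat_lit 17904, nat_lit 14688, R5_271, R7_373, R10_306⟩]⟩]⟩,
 ⟨nat_lit 3, [⟨nat_lit 3, [⟨nat_lit 1, nat_lit 5136, nat_lit 16608, nat_lit 9168, nat_lit 15456, nat_lit 15168, R11_191, R2_322, R10_316⟩]⟩, ⟨nat_lit 7, [⟨nat_lit 1, nat_lit 5184, nat_lit 16560, nat_lit 6624, nat_lit 15312, nat_lit 13536, R1_138, R2_319, R1_282⟩]⟩]⟩]], [], [], [[], [], [], [⟨nat_lit 3, [⟨nat_lit 3, [⟨nat_lit 1, nat_lit 5712, nat_lit 5568, nat_lit 9216, nat_lit 16464, nat_lit 18672, R11_192, R1_343, R10_389⟩]⟩, ⟨nat_lit 7, [⟨nat_lit 1, nat_lit 5760, nat_lit 5520, nat_lit 7152, nat_lit 16320, nat_lit 15408,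 R1_149, R1_340, R1_321⟩]⟩]⟩], [], [], [], [⟨nat_lit 3, [⟨nat_lit 7, [⟨nat_lit 1, nat_lit 7776, nat_lit 4128, nat_lit 4992, nat_lit 15888, nat_lit 20832, R1_104, R1_331, R11_434⟩, ⟨nat_lit 5, nat_lit 7824, nat_lit 4176, nat_lit 4944, nat_lit 21168, nat_lit 15600, R1_103, R11_441, R1_325⟩]⟩]⟩]], [[], [], [], [], [⟨nat_lit 4, [⟨nat_lit 4, [⟨nat_lit 5, nat_lit 5808, nat_lit 13440, nat_lit 11568, nat_lit 11664, nat_lit 14304, R4_241, R4_243, R7_298⟩]⟩]⟩,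
 ⟨nat_lit 7, [⟨nat_lit 4, [⟨nat_lit 5, nat_lit 5856, nat_lit 13584, nat_lit 10272, nat_lit 16656, nat_lit 14400, R3_214, R3_347, R7_300⟩]⟩, ⟨nat_lit 7, [⟨nat_lit 5, nat_lit 5904, nat_lit 13776, nat_lit 3360, nat_lit 16704, nat_lit 13920, R10_70, R3_348, R2_290⟩]⟩]⟩], [], [⟨nat_lit 3, [⟨nat_lit 7, [⟨nat_lit 7, nat_lit 6624, nat_lit 16560, nat_lit 5184, nat_lit 15312, nat_lit 13536, R1_108, R2_319, R1_282⟩]⟩]⟩,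
 ⟨nat_lit 4, [⟨nat_lit 4, [⟨nat_lit 4, nat_lit 6096, nat_lit 14400, nat_lit 4224, nat_lit 10848, nat_lit 3216, R4_88, R6_226, R7_67⟩, ⟨nat_lit 5, nat_lit 6144, nat_lit 15984, nat_lit 12000, nat_lit 11712, nat_lit 5328, R4_250, R4_244, R14_111⟩]⟩, ⟨nat_lit 6, [⟨nat_lit 4, nat_lit 6288, nat_lit 14448, nat_lit 336, nat_lit 10896, nat_lit 1536, R5_7, R6_227, R2_32⟩, ⟨nat_lit 5, nat_lit 6336, nat_lit 16032, nat_lit 12720, nat_lit 11760, nat_lit 7056, R5_265, R4_245, R12_147⟩, ⟨nat_lit 6, nat_lit 6384, nat_lit 17136, nat_lit 6528, nat_lit 9936, nat_lit 1008, R5_136, R8_207, R1_21⟩]⟩]⟩,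
 ⟨nat_lit 6, [⟨nat_lit 6, [⟨nat_lit 6, nat_lit 6432, nat_lit 17472, nat_lit 6144, nat_lit 17472, nat_lit 6432, R11_128, R5_364, R1_134⟩]⟩]⟩,
 ⟨nat_lit 7, [⟨nat_lit 4, [⟨nat_lit 4, nat_lit 6192, nat_lit 14544, nat_lit 10608, nat_lit 21072, nat_lit 9408, R3_221, R13_439, R7_196⟩, ⟨nat_lit 5, nat_lit 6240, nat_lit 16080, nat_lit 10800, nat_lit 17184, nat_lit 5520, R3_225, R3_358, R14_115⟩]⟩, ⟨nat_lit 7, [⟨nat_lit 4, nat_lit 6672, nat_lit 14592, nat_lit 6000, nat_lit 21120, nat_lit 3504, R10_125, R13_440, R2_73⟩, ⟨nat_lit 5, nat_lit 6720, nat_lit 16128, nat_lit 6096, nat_lit 17232, nat_lit 14976, R10_127, R3_359, R12_312⟩, ⟨nat_lit 7, nat_lit 6768, nat_lit 16464, nat_lit 6048, nat_lit 10560, nat_lit 2976, R10_126, R3_220, R1_62⟩]⟩]⟩]], [], [[], [], [⟨nat_lit 0, [⟨nat_lit 0, [⟨nat_lit 0, nat_lit 3936, nat_lit 4512,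 nat_lit 3072, nat_lit 4032, nat_lit 3792, R4_64, R4_84, R4_79⟩]⟩, ⟨nat_lit 3, [⟨nat_lit 0, nat_lit 4224, nat_lit 4656, nat_lit 816, nat_lit 10368, nat_lit 14256, R5_17, R4_216, R3_297⟩, ⟨nat_lit 3, nat_lit 4272, nat_lit 4704, nat_lit 7776, nat_lit 7104, nat_lit 19056, R5_162, R5_148, R10_397⟩]⟩]⟩,
 ⟨nat_lit 2, [⟨nat_lit 0, [⟨nat_lit 0, nat_lit 3984, nat_lit 4560, nat_lit 9744, nat_lit 14304, nat_lit 10128, R3_203, R3_298, R4_211⟩, ⟨nat_lit 2, nat_lit 4032, nat_lit 4608, nat_lit 10032, nat_lit 19488, nat_lit 5568, R3_209, R10_406, R5_116⟩]⟩, ⟨nat_lit 2, [⟨nat_lit 2, nat_lit 4080, nat_lit 5040, nat_lit 8448, nat_lit 19536, nat_lit 21312, R10_176, R10_407, R11_444⟩]⟩]⟩,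
 ⟨nat_lit 3, [⟨nat_lit 3, [⟨nat_lit 3, nat_lit 4464, nat_lit 4752, nat_lit 9360, nat_lit 21744, nat_lit 19104, R11_195, R11_453, R10_398⟩]⟩, ⟨nat_lit 7, [⟨nat_lit 3, nat_lit 4944, nat_lit 4176, nat_lit 7824, nat_lit 21792, nat_lit 15600, R1_163, R11_454, R1_325⟩, ⟨nat_lit 7, nat_lit 4992, nat_lit 4128, nat_lit 7776, nat_lit 15888, nat_lit 21360, R1_162, R1_331, R11_445⟩]⟩]⟩,
 ⟨nat_lit 4, [⟨nat_lit 4, [⟨nat_lit 4, nat_lit 4512, nat_lit 3936, nat_lit 3072, nat_lit 4032, nat_lit 3792, R4_64, R4_84, R4_79⟩]⟩, ⟨nat_lit 6, [⟨nat_lit 4, nat_lit 4656, nat_lit 4224, nat_lit 816, nat_lit 10368, nat_lit 14256, R5_17, R4_216, R3_297⟩, ⟨nat_lit 6, nat_lit 4704, nat_lit 4272, nat_lit 7776, nat_lit 7104, nat_lit 19056, R5_162, R5_148, R10_397⟩]⟩]⟩,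
 ⟨nat_lit 6, [⟨nat_lit 2, [⟨nat_lit 2, nat_lit 4128, nat_lit 4992, nat_lit 7776, nat_lit 15888, nat_lit 21360, R1_162, R1_331, R11_445⟩, ⟨nat_lit 6, nat_lit 4176, nat_lit 4944, nat_lit 7824, nat_lit 21792, nat_lit 15600, R1_163, R11_454, R1_325⟩]⟩, ⟨nat_lit 6, [⟨nat_lit 6, nat_lit 4752, nat_lit 4464, nat_lit 9360, nat_lit 21744, nat_lit 19104, R11_195, R11_453, R10_398⟩]⟩]⟩,
 ⟨nat_lit 7, [⟨nat_lit 4, [⟨nat_lit 4, nat_lit 4560, nat_lit 3984, nat_lit 9744, nat_lit 14304, nat_lit 10128, R3_203, R3_298, R4_211⟩, ⟨nat_lit 7, nat_lit 4608, nat_lit 4032, nat_lit 10032, nat_lit 19488, nat_lit 5568, R3_209, R10_406, R5_116⟩]⟩, ⟨nat_lit 7, [⟨nat_lit 7, nat_lit 5040, nat_lit 4080, nat_lit 8448, nat_lit 19536, nat_lit 21312, R10_176, R10_407, R11_444⟩]⟩]⟩], [], [], [], [⟨nat_lit 3, [⟨nat_lit 7, [⟨nat_lit 7, nat_lit 7152,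 nat_lit 5520, nat_lit 5760, nat_lit 16320, nat_lit 15408, R1_120, R1_340, R1_321⟩]⟩]⟩,
 ⟨nat_lit 4, [⟨nat_lit 4, [⟨nat_lit 4, nat_lit 6816, nat_lit 4608, nat_lit 4320, nat_lit 1824, nat_lit 3744, R4_90, R4_38, R7_78⟩]⟩, ⟨nat_lit 6, [⟨nat_lit 4, nat_lit 6912, nat_lit 5808, nat_lit 720, nat_lit 8544, nat_lit 2112, R5_15, R4_178, R2_44⟩, ⟨nat_lit 6, nat_lit 6960, nat_lit 5856, nat_lit 7680, nat_lit 7152, nat_lit 1584, R5_160, R5_149, R1_33⟩]⟩]⟩,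
 ⟨nat_lit 6, [⟨nat_lit 6, [⟨nat_lit 6, nat_lit 7008, nat_lit 6768, nat_lit 7296, nat_lit 22176, nat_lit 7008, R11_152, R11_462, R1_146⟩]⟩]⟩,
 ⟨nat_lit 7, [⟨nat_lit 4, [⟨nat_lit 4, nat_lit 6864, nat_lit 4992, nat_lit 10704, nat_lit 12720, nat_lit 10800, R3_223, R3_265, R7_225⟩]⟩, ⟨nat_lit 7, [⟨nat_lit 4, nat_lit 7200, nat_lit 5280, nat_lit 6720, nat_lit 13536, nat_lit 4896, R10_140, R3_282, R2_102⟩, ⟨nat_lit 7, nat_lit 7248, nat_lit 5328, nat_lit 6768, nat_lit 19968, nat_lit 3600, R10_141, R10_416, R1_75⟩]⟩]⟩]], [[], [], [], [], [⟨nat_lit 3, [⟨nat_lit 7, [⟨nat_lit 5, nat_lit 6000, nat_lit 15840, nat_lit 3408, nat_lit 13680, nat_lit 14112, R1_71, R1_285, R2_294⟩]⟩]⟩,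
 ⟨nat_lit 7, [⟨nat_lit 4, [⟨nat_lit 5, nat_lit 5952, nat_lit 15456, nat_lit 10320, nat_lit 14880, nat_lit 14544, R3_215, R10_310, R7_303⟩]⟩, ⟨nat_lit 7, [⟨nat_lit 5, nat_lit 6048, nat_lit 15792, nat_lit 3936, nat_lit 15312, nat_lit 14160, R10_82, R10_319, R2_295⟩]⟩]⟩], [], [], [⟨nat_lit 3, [⟨nat_lit 7, [⟨nat_lit 5, nat_lit 7872, nat_lit 5184, nat_lit 3888, nat_lit 15504, nat_lit 15648, R1_81, R1_323, R1_326⟩]⟩]⟩,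
 ⟨nat_lit 7, [⟨nat_lit 7, [⟨nat_lit 5, nat_lit 7920, nat_lit 4272, nat_lit 5040, nat_lit 18864, nat_lit 15696, R10_105, R10_393, R1_327⟩]⟩]⟩]]], [[], [], [], [[], [], [], [], [], [⟨nat_lit 3, [⟨nat_lit 5, [⟨nat_lit 1, nat_lit 11376, nat_lit 15792, nat_lit 11472, nat_lit 15552, nat_lit 19440, R1_239, R1_324, R10_405⟩, ⟨nat_lit 5, nat_lit 11424, nat_lit 15840, nat_lit 11424, nat_lit 21264, nat_lit 15840, R1_238, R11_443, R1_330⟩]⟩]⟩]], [], [], [], [[], [], [], [], [], [⟨nat_lit 3, [⟨nat_lit 5, [⟨nat_lit 5, nat_lit 11472, nat_lit 19440, nat_lit 11376, nat_lit 15552, nat_lit 15792, R1_237, R1_324, R1_329⟩]⟩]⟩,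
 ⟨nat_lit 7, [⟨nat_lit 5, [⟨nat_lit 5, nat_lit 11520, nat_lit 19392, nat_lit 12576, nat_lit 18960, nat_lit 15744, R10_262, R10_395, R1_328⟩]⟩]⟩]]]]
noncomputable def N6677 : T3 (List N0) := [[[[], [⟨nat_lit 0, [⟨nat_lit 1, [⟨nat_lit 4, nat_lit 13152, nat_lit 1344, nat_lit 1728, nat_lit 4128, nat_lit 4512, R7_36, R6_86, R5_94⟩, ⟨nat_lit 6, nat_lit 13200, nat_lit 1536, nat_lit 1776, nat_lit 4272, nat_lit 17376, R7_37, R4_89, R11_362⟩]⟩, ⟨nat_lit 5, [⟨nat_lit 6, nat_lit 13968, nat_lit 960, nat_lit 1680, nat_lit 2976, nat_lit 3456, R4_35, R4_62, R1_72⟩]⟩]⟩,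
 ⟨nat_lit 1, [⟨nat_lit 1, [⟨nat_lit 4, nat_lit 13440, nat_lit 7344, nat_lit 288, nat_lit 11232, nat_lit 6096, R2_6, R8_234, R5_127⟩, ⟨nat_lit 6, nat_lit 13488, nat_lit 7536, nat_lit 336, nat_lit 3120, nat_lit 17472, R2_7, R5_65, R11_364⟩]⟩, ⟨nat_lit 5, [⟨nat_lit 6, nat_lit 14112, nat_lit 6960, nat_lit 12576, nat_lit 3216, nat_lit 3648, R3_262, R5_67, R1_76⟩]⟩]⟩], [], [], [], [⟨nat_lit 0, [⟨nat_lit 5, [⟨nat_lit 6, nat_lit 14064, nat_lit 912, nat_lit 1152, nat_lit 2832, nat_lit 672, R4_24, R4_59, R10_14⟩]⟩]⟩,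
 ⟨nat_lit 1, [⟨nat_lit 5, [⟨nat_lit 6, nat_lit 14256, nat_lit 7296, nat_lit 4464, nat_lit 4320, nat_lit 816, R3_93, R5_90, R10_17⟩]⟩]⟩]], [[], [⟨nat_lit 1, [⟨nat_lit 1, [⟨nat_lit 4, nat_lit 13584, nat_lit 5568, nat_lit 6000, nat_lit 7728, nat_lit 7008, R2_125, R5_161, R5_146⟩, ⟨nat_lit 6, nat_lit 13632, nat_lit 5760, nat_lit 6048, nat_lit 3120, nat_lit 17808, R2_126, R11_65, R11_371⟩]⟩, ⟨nat_lit 5, [⟨nat_lit 6, nat_lit 14160, nat_lit 5136, nat_lit 13344, nat_lit 3216, nat_lit 3792, R3_278, R11_67, R1_79⟩]⟩]⟩], [], [], [], [⟨nat_lit 1, [⟨nat_lit 5, [⟨nat_lit 6, nat_lit 14304, nat_lit 6000, nat_lit 5040, nat_lit 4320, nat_lit 864, R3_105, R11_90, R10_18⟩]⟩]⟩]], [], [[], [⟨nat_lit 0, [⟨nat_lit 1, [⟨nat_lit 4, nat_lit 13296, nat_lit 192, nat_lit 8352, nat_lit 14400, nat_lit 4896, R7_174, R13_300, R5_102⟩, ⟨nat_lit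 6, nat_lit 13344, nat_lit 624, nat_lit 8400, nat_lit 10752, nat_lit 17520, R7_175, R3_224, R11_365⟩]⟩, ⟨nat_lit 5, [⟨nat_lit 6, nat_lit 14016, nat_lit 2352, nat_lit 8400, nat_lit 9792, nat_lit 3504, R4_175, R3_204, R1_73⟩]⟩]⟩,
 ⟨nat_lit 1, [⟨nat_lit 1, [⟨nat_lit 4, nat_lit 13728, nat_lit 7200, nat_lit 7296, nat_lit 7632, nat_lit 6624, R2_152, R9_159, R5_138⟩]⟩]⟩,
 ⟨nat_lit 3, [⟨nat_lit 1, [⟨nat_lit 4, nat_lit 13824, nat_lit 5904, nat_lit 5328, nat_lit 9888, nat_lit 5520, R2_111, R3_206, R5_115⟩, ⟨nat_lit 6, nat_lit 13872, nat_lit 6336, nat_lit 5376, nat_lit 6816, nat_lit 17616, R2_112, R10_142, R11_367⟩]⟩]⟩]]], [[], [[], [⟨nat_lit 1, [⟨nat_lit 1, [⟨nat_lit 4, nat_lit 19056, nat_lit 4272, nat_lit 4704, nat_lit 7776, nat_lit 7104, R1_98, R5_162, R5_148⟩, ⟨nat_lit 6, nat_lit 19104, nat_lit 4464, nat_lit 4752, nat_lit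 9360, nat_lit 21744, R1_99, R11_195, R11_453⟩]⟩, ⟨nat_lit 5, [⟨nat_lit 6, nat_lit 19200, nat_lit 3840, nat_lit 5472, nat_lit 9456, nat_lit 3840, R10_114, R11_197, R1_80⟩]⟩]⟩,
 ⟨nat_lit 5, [⟨nat_lit 5, [⟨nat_lit 6, nat_lit 19296, nat_lit 15504, nat_lit 15648, nat_lit 7872, nat_lit 3888, R1_326, R1_164, R1_81⟩]⟩]⟩], [], [], [], [⟨nat_lit 1, [⟨nat_lit 5, [⟨nat_lit 6, nat_lit 19248, nat_lit 4560, nat_lit 4896, nat_lit 10320, nat_lit 12672, R10_102, R11_215, R10_264⟩]⟩]⟩,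
 ⟨nat_lit 5, [⟨nat_lit 5, [⟨nat_lit 6, nat_lit 19344, nat_lit 18864, nat_lit 15696, nat_lit 7920, nat_lit 12624, R1_327, R1_165, R10_263⟩]⟩]⟩]], [], [], [], [[], [], [], [], [], [⟨nat_lit 5, [⟨nat_lit 5, [⟨nat_lit 2, nat_lit 19440, nat_lit 11472, nat_lit 15792, nat_lit 15552, nat_lit 11376, R1_329, R1_324, R1_237⟩, ⟨nat_lit 6, nat_lit 19392, nat_lit 11520, nat_lit 15744, nat_lit 18960, nat_lit 12576, R1_328, R10_395, R10_262⟩]⟩]⟩]]], [[[⟨nat_lit 0, [⟨nat_lit 0, [⟨nat_lit 4, nat_lit 14352, nat_lit 2112, nat_lit 13440, nat_lit 10656, nat_lit 13728, R7_280, R6_222, R6_286⟩, ⟨nat_lit 5, nat_lit 14448, nat_lit 7584, nat_lit 16752, nat_lit 11376, nat_lit 13008, R7_349, R8_237, R8_271⟩, ⟨nat_lit 6, nat_lit 14400, nat_lit 11424, nat_lit 14256, nat_lit 11520, nat_lit 13488, R7_297, R4_240, R4_281⟩]⟩, ⟨nat_lit 1, [⟨nat_lit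 4, nat_lit 15648, nat_lit 2304, nat_lit 8352, nat_lit 11376, nat_lit 1200, R14_174, R6_237, R8_25⟩, ⟨nat_lit 5, nat_lit 15744, nat_lit 7728, nat_lit 8976, nat_lit 11520, nat_lit 14160, R14_187, R8_240, R9_295⟩, ⟨nat_lit 6, nat_lit 15696, nat_lit 11616, nat_lit 8496, nat_lit 11952, nat_lit 14976, R14_177, R4_249, R5_312⟩]⟩]⟩,
 ⟨nat_lit 1, [⟨nat_lit 1, [⟨nat_lit 4, nat_lit 16512, nat_lit 2400, nat_lit 6960, nat_lit 3984, nat_lit 1392, R12_145, R8_83, R8_29⟩, ⟨nat_lit 5, nat_lit 16608, nat_lit 7824, nat_lit 7584, nat_lit 12288, nat_lit 14256, R12_158, R9_256, R9_297⟩, ⟨nat_lit 6, nat_lit 16560, nat_lit 11712, nat_lit 7104, nat_lit 13728, nat_lit 15120, R12_148, R5_286, R5_315⟩]⟩]⟩,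
 ⟨nat_lit 2, [⟨nat_lit 0, [⟨nat_lit 4, nat_lit 14928, nat_lit 2160, nat_lit 12144, nat_lit 384, nat_lit 14112, R2_253, R4_8, R6_294⟩, ⟨nat_lit 5, nat_lit 14976, nat_lit 7632, nat_lit 14976, nat_lit 2928, nat_lit 13056, R2_312, R5_61, R8_272⟩]⟩, ⟨nat_lit 1, [⟨nat_lit 4, nat_lit 17424, nat_lit 2544, nat_lit 2832, nat_lit 2688, nat_lit 1296, R12_59, R4_56, R8_27⟩, ⟨nat_lit 5, nat_lit 17472, nat_lit 7968, nat_lit 4224, nat_lit 3072, nat_lit 14208, R12_88, R5_64, R9_296⟩]⟩, ⟨nat_lit 2, [⟨nat_lit 4, nat_lit 18432, nat_lit 2736, nat_lit 12720, nat_lit 1296, nat_lit 624, R1_265, R4_27, R4_13⟩, ⟨nat_lit 5, nat_lit 18480, nat_lit 8016, nat_lit 15984, nat_lit 2976, nat_lit 240, R1_333, R5_62, R5_5⟩]⟩]⟩], [⟨nat_lit 0, [⟨nat_lit 1, [⟨nat_lit 4, nat_lit 15984, nat_lit 18672, nat_lit 8400, nat_lit 11616, nat_lit 4560, R14_175,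 R6_242, R5_95⟩, ⟨nat_lit 6, nat_lit 16032, nat_lit 19584, nat_lit 8544, nat_lit 12048, nat_lit 19296, R14_178, R4_251, R11_402⟩]⟩]⟩,
 ⟨nat_lit 1, [⟨nat_lit 1, [⟨nat_lit 4, nat_lit 16800, nat_lit 20160, nat_lit 7008, nat_lit 11952, nat_lit 6144, R12_146, R8_249, R5_128⟩, ⟨nat_lit 6, nat_lit 16848, nat_lit 21456, nat_lit 7152, nat_lit 14256, nat_lit 19440, R12_149, R5_297, R11_405⟩]⟩]⟩,
 ⟨nat_lit 2, [⟨nat_lit 1, [⟨nat_lit 4, nat_lit 17664, nat_lit 21744, nat_lit 2880, nat_lit 11472, nat_lit 5280, R12_60, R4_239, R5_110⟩]⟩]⟩]], [[], [⟨nat_lit 1, [⟨nat_lit 1, [⟨nat_lit 4, nat_lit 16944, nat_lit 15936, nat_lit 7824, nat_lit 7824, nat_lit 7056, R12_163, R5_163, R5_147⟩, ⟨nat_lit 6, nat_lit 16992, nat_lit 17232, nat_lit 7872, nat_lit 17328, nat_lit 20592, R12_164, R11_361, R11_429⟩]⟩]⟩]], [[⟨nat_lit 0, [⟨nat_lit 0,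 [⟨nat_lit 5, nat_lit 14496, nat_lit 6384, nat_lit 16944, nat_lit 12960, nat_lit 13248, R7_353, R5_270, R8_276⟩]⟩, ⟨nat_lit 1, [⟨nat_lit 5, nat_lit 15792, nat_lit 6576, nat_lit 11280, nat_lit 14016, nat_lit 14784, R14_235, R5_292, R9_308⟩]⟩]⟩,
 ⟨nat_lit 2, [⟨nat_lit 0, [⟨nat_lit 5, nat_lit 15024, nat_lit 6432, nat_lit 15168, nat_lit 15888, nat_lit 13296, R2_316, R11_331, R8_277⟩]⟩, ⟨nat_lit 1, [⟨nat_lit 5, nat_lit 17520, nat_lit 6816, nat_lit 5568, nat_lit 17088, nat_lit 14832, R12_116, R11_356, R9_309⟩]⟩, ⟨nat_lit 2, [⟨nat_lit 5, nat_lit 18528, nat_lit 7008, nat_lit 16176, nat_lit 16464, nat_lit 5952, R1_337, R11_343, R5_124⟩]⟩]⟩], [], [⟨nat_lit 0, [⟨nat_lit 0, [⟨nat_lit 5, nat_lit 14688, nat_lit 5088, nat_lit 17184, nat_lit 13008, nat_lit 16272, R7_358, R5_271, R5_339⟩]⟩]⟩,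
 ⟨nat_lit 2, [⟨nat_lit 0, [⟨nat_lit 5, nat_lit 15168, nat_lit 5136, nat_lit 15456, nat_lit 15936, nat_lit 16608, R2_322, R11_332, R5_346⟩]⟩, ⟨nat_lit 2, [⟨nat_lit 1, nat_lit 18720, nat_lit 15552, nat_lit 11376, nat_lit 11472, nat_lit 15792, R1_237, R1_239, R1_329⟩, ⟨nat_lit 5, nat_lit 18672, nat_lit 5712, nat_lit 16464, nat_lit 16512, nat_lit 21552, R1_343, R11_344, R11_449⟩]⟩]⟩]], [[⟨nat_lit 0, [⟨nat_lit 0, [⟨nat_lit 4, nat_lit 14544, nat_lit 912, nat_lit 13536, nat_lit 13632, nat_lit 13824, R7_282, R13_284, R6_288⟩, ⟨nat_lit 5, nat_lit 14640, nat_lit 8016, nat_lit 16848, nat_lit 11184, nat_lit 13104, R7_351, R9_233, R8_273⟩, ⟨nat_lit 6, nat_lit 14592, nat_lit 10800, nat_lit 14352, nat_lit 10368, nat_lit 13632, R7_299, R3_216, R4_284⟩]⟩, ⟨nat_lit 1, [⟨nat_lit 4, nat_lit 15840, nat_lit 2448, nat_lit 9600, nat_lit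 14880, nat_lit 7104, R14_200, R13_310, R8_148⟩, ⟨nat_lit 5, nat_lit 15936, nat_lit 10080, nat_lit 10752, nat_lit 12720, nat_lit 14448, R14_224, R9_265, R9_301⟩, ⟨nat_lit 6, nat_lit 15888, nat_lit 11136, nat_lit 9840, nat_lit 10896, nat_lit 15456, R14_205, R3_227, R5_322⟩]⟩]⟩,
 ⟨nat_lit 1, [⟨nat_lit 1, [⟨nat_lit 4, nat_lit 16704, nat_lit 2592, nat_lit 8496, nat_lit 6480, nat_lit 7344, R12_177, R9_135, R8_153⟩]⟩]⟩,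
 ⟨nat_lit 2, [⟨nat_lit 0, [⟨nat_lit 4, nat_lit 15072, nat_lit 1056, nat_lit 12240, nat_lit 3696, nat_lit 14256, R2_255, R3_77, R6_297⟩]⟩, ⟨nat_lit 1, [⟨nat_lit 4, nat_lit 17568, nat_lit 2880, nat_lit 3264, nat_lit 7104, nat_lit 7248, R12_68, R3_148, R8_151⟩]⟩, ⟨nat_lit 2, [⟨nat_lit 4, nat_lit 18576, nat_lit 3072, nat_lit 12816, nat_lit 4848, nat_lit 7008, R1_267, R3_101, R4_146⟩]⟩]⟩,
 ⟨nat_lit 3, [⟨nat_lit 0, [⟨nat_lit 4, nat_lit 15360, nat_lit 960, nat_lit 11952, nat_lit 576, nat_lit 14016, R2_249, R3_12, R6_292⟩, ⟨nat_lit 6, nat_lit 15408, nat_lit 10896, nat_lit 13968, nat_lit 3408, nat_lit 13824, R2_291, R10_71, R4_288⟩]⟩, ⟨nat_lit 1, [⟨nat_lit 4, nat_lit 18048, nat_lit 2496, nat_lit 3216, nat_lit 2688, nat_lit 7152, R12_67, R3_56, R8_149⟩, ⟨nat_lit 6, nat_lit 18096, nat_lit 11232, nat_lit 3648, nat_lit 6144,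 nat_lit 15552, R12_76, R10_128, R5_324⟩]⟩]⟩], [⟨nat_lit 0, [⟨nat_lit 1, [⟨nat_lit 4, nat_lit 16176, nat_lit 336, nat_lit 9696, nat_lit 14976, nat_lit 4944, R14_202, R13_312, R5_103⟩, ⟨nat_lit 6, nat_lit 16224, nat_lit 2400, nat_lit 9936, nat_lit 10992, nat_lit 19776, R14_207, R3_229, R11_412⟩]⟩]⟩,
 ⟨nat_lit 1, [⟨nat_lit 1, [⟨nat_lit 4, nat_lit 17136, nat_lit 7440, nat_lit 8592, nat_lit 7680, nat_lit 6672, R12_179, R9_160, R5_139⟩]⟩]⟩,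
 ⟨nat_lit 2, [⟨nat_lit 1, [⟨nat_lit 4, nat_lit 17808, nat_lit 10368, nat_lit 3360, nat_lit 7584, nat_lit 5472, R12_70, R3_158, R5_114⟩]⟩]⟩,
 ⟨nat_lit 3, [⟨nat_lit 1, [⟨nat_lit 4, nat_lit 18192, nat_lit 6000, nat_lit 3552, nat_lit 10224, nat_lit 5616, R12_74, R3_213, R5_117⟩, ⟨nat_lit 6, nat_lit 18240, nat_lit 6672, nat_lit 3792, nat_lit 6912, nat_lit 19872, R12_79, R10_144, R11_414⟩]⟩]⟩], [], [⟨nat_lit 0, [⟨nat_lit 0, [⟨nat_lit 4, nat_lit 14736, nat_lit 240, nat_lit 13632, nat_lit 13680, nat_lit 19152, R7_284, R13_285, R13_399⟩, ⟨nat_lit 5, nat_lit 14832, nat_lit 8544, nat_lit 16992, nat_lit 11232, nat_lit 15504, R7_354, R9_234, R9_323⟩, ⟨nat_lit 6, nat_lit 14784, nat_lit 11184, nat_lit 14496, nat_lit 10416, nat_lit 15408, R7_302, R3_217, R3_321⟩, ⟨nat_lit 7, nat_lit 14880, nat_lit 5952, nat_lit 14976, nat_lit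 10320, nat_lit 15456, R7_312, R3_215, R3_322⟩]⟩, ⟨nat_lit 1, [⟨nat_lit 4, nat_lit 16368, nat_lit 1920, nat_lit 9648, nat_lit 14928, nat_lit 4080, R14_201, R13_311, R9_85⟩]⟩]⟩,
 ⟨nat_lit 1, [⟨nat_lit 1, [⟨nat_lit 4, nat_lit 17280, nat_lit 2064, nat_lit 8544, nat_lit 7344, nat_lit 6576, R12_178, R9_153, R9_137⟩]⟩]⟩,
 ⟨nat_lit 2, [⟨nat_lit 0, [⟨nat_lit 4, nat_lit 15216, nat_lit 384, nat_lit 12384, nat_lit 4224, nat_lit 19536, R2_258, R3_88, R13_407⟩, ⟨nat_lit 7, nat_lit 15312, nat_lit 6048, nat_lit 14160, nat_lit 12336, nat_lit 15792, R2_295, R10_257, R3_329⟩]⟩, ⟨nat_lit 1, [⟨nat_lit 4, nat_lit 17952, nat_lit 2352, nat_lit 3312, nat_lit 7488, nat_lit 4992, R12_69, R3_156, R9_104⟩]⟩, ⟨nat_lit 2, [⟨nat_lit 4, nat_lit 18768, nat_lit 2544, nat_lit 12960, nat_lit 5952, nat_lit 5088, R1_270, R3_124, R3_106⟩, ⟨nat_lit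 7, nat_lit 18864, nat_lit 7920, nat_lit 15696, nat_lit 12624, nat_lit 19344, R1_327, R10_263, R10_403⟩]⟩]⟩,
 ⟨nat_lit 3, [⟨nat_lit 0, [⟨nat_lit 4, nat_lit 15504, nat_lit 288, nat_lit 12432, nat_lit 4176, nat_lit 19632, R2_259, R3_87, R13_409⟩, ⟨nat_lit 6, nat_lit 15552, nat_lit 11280, nat_lit 14208, nat_lit 3984, nat_lit 15744, R2_296, R10_83, R3_328⟩]⟩, ⟨nat_lit 1, [⟨nat_lit 4, nat_lit 18336, nat_lit 1968, nat_lit 3456, nat_lit 7440, nat_lit 5232, R12_72, R3_155, R9_109⟩]⟩, ⟨nat_lit 3, [⟨nat_lit 4, nat_lit 18912, nat_lit 528, nat_lit 13008, nat_lit 5904, nat_lit 5136, R1_271, R3_123, R3_107⟩, ⟨nat_lit 6, nat_lit 18960, nat_lit 11520, nat_lit 15744, nat_lit 5088, nat_lit 4224, R1_328, R10_106, R10_88⟩]⟩]⟩]]], [[[], [], [], [], [], [⟨nat_lit 0, [⟨nat_lit 5, [⟨nat_lit 6, nat_lit 19680, nat_lit 4080, nat_lit 144,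 nat_lit 8016, nat_lit 9888, R5_3, R4_167, R10_206⟩]⟩]⟩]], [], [], [[], [⟨nat_lit 0, [⟨nat_lit 5, [⟨nat_lit 6, nat_lit 19632, nat_lit 1824, nat_lit 5712, nat_lit 10080, nat_lit 3552, R5_119, R3_210, R1_74⟩]⟩]⟩,
 ⟨nat_lit 3, [⟨nat_lit 1, [⟨nat_lit 4, nat_lit 19488, nat_lit 4608, nat_lit 4032, nat_lit 10032, nat_lit 5568, R1_84, R3_209, R5_116⟩, ⟨nat_lit 6, nat_lit 19536, nat_lit 5040, nat_lit 4080, nat_lit 6864, nat_lit 21312, R1_85, R10_143, R11_444⟩]⟩, ⟨nat_lit 5, [⟨nat_lit 6, nat_lit 19968, nat_lit 7248, nat_lit 21408, nat_lit 8496, nat_lit 3600, R11_446, R10_177, R1_75⟩]⟩]⟩], [], [], [], [⟨nat_lit 0, [⟨nat_lit 5, [⟨nat_lit 6, nat_lit 19728, nat_lit 16560, nat_lit 5808, nat_lit 10128, nat_lit 9984, R5_121, R3_211, R10_208⟩]⟩]⟩,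
 ⟨nat_lit 3, [⟨nat_lit 5, [⟨nat_lit 6, nat_lit 20016, nat_lit 16656, nat_lit 21456, nat_lit 8640, nat_lit 10128, R11_447, R10_180, R10_211⟩]⟩]⟩]]], [[], [], [], [[], [], [], [], [], [], [], [⟨nat_lit 3, [⟨nat_lit 7, [⟨nat_lit 6, nat_lit 2352, nat_lit 6336, nat_lit 5376, nat_lit 8112, nat_lit 17616, R2_112, R10_169, R11_367⟩]⟩]⟩]], [[], [], [], [], [⟨nat_lit 4, [⟨nat_lit 4, [⟨nat_lit 2, nat_lit 48, nat_lit 816, nat_lit 144, nat_lit 2112, nat_lit 13440, R6_3, R7_44, R7_280⟩, ⟨nat_lit 6, nat_lit 0, nat_lit 432, nat_lit 672, nat_lit 1920, nat_lit 12240, R6_14, R4_40, R4_255⟩]⟩, ⟨nat_lit 6, [⟨nat_lit 2, nat_lit 960, nat_lit 3024, nat_lit 1200, nat_lit 2304, nat_lit 4464, R8_25, R7_48, R14_93⟩]⟩]⟩,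
 ⟨nat_lit 6, [⟨nat_lit 6, [⟨nat_lit 0, nat_lit 1296, nat_lit 10320, nat_lit 4512, nat_lit 1344, nat_lit 1728, R5_94, R7_28, R7_36⟩, ⟨nat_lit 2, nat_lit 1344, nat_lit 10608, nat_lit 4560, nat_lit 18768, nat_lit 4512, R5_95, R14_391, R14_94⟩]⟩]⟩,
 ⟨nat_lit 7, [⟨nat_lit 4, [⟨nat_lit 6, nat_lit 336, nat_lit 5280, nat_lit 4560, nat_lit 1152, nat_lit 12288, R13_95, R5_24, R4_256⟩]⟩, ⟨nat_lit 7, [⟨nat_lit 6, nat_lit 2448, nat_lit 6624, nat_lit 432, nat_lit 1440, nat_lit 14352, R3_9, R5_30, R5_299⟩]⟩]⟩], [⟨nat_lit 4, [⟨nat_lit 4, [⟨nat_lit 2, nat_lit 192, nat_lit 384, nat_lit 1008, nat_lit 2160, nat_lit 12144, R6_21, R7_45, R2_253⟩, ⟨nat_lit 6, nat_lit 144, nat_lit 336, nat_lit 1248, nat_lit 2112, nat_lit 3024, R6_26, R4_44, R3_63⟩]⟩, ⟨nat_lit 5, [⟨nat_lit 2, nat_lit 720, nat_lit 1296, nat_lit 624, nat_lit 2736, nat_lit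 12720, R4_13, R7_57, R1_265⟩, ⟨nat_lit 6, nat_lit 672, nat_lit 912, nat_lit 1152, nat_lit 2832, nat_lit 14064, R4_24, R4_59, R10_293⟩]⟩, ⟨nat_lit 6, [⟨nat_lit 2, nat_lit 1056, nat_lit 2688, nat_lit 1296, nat_lit 2544, nat_lit 2832, R8_27, R7_53, R12_59⟩]⟩]⟩,
 ⟨nat_lit 6, [⟨nat_lit 6, [⟨nat_lit 2, nat_lit 1488, nat_lit 11472, nat_lit 5280, nat_lit 19680, nat_lit 2880, R5_110, R14_410, R12_60⟩]⟩]⟩,
 ⟨nat_lit 7, [⟨nat_lit 4, [⟨nat_lit 6, nat_lit 480, nat_lit 5568, nat_lit 6192, nat_lit 3552, nat_lit 8832, R13_129, R5_74, R3_184⟩]⟩, ⟨nat_lit 5, [⟨nat_lit 6, nat_lit 816, nat_lit 7296, nat_lit 4464, nat_lit 4320, nat_lit 14256, R3_93, R5_90, R10_297⟩]⟩]⟩], [⟨nat_lit 4, [⟨nat_lit 6, [⟨nat_lit 2, nat_lit 1152, nat_lit 3984, nat_lit 1392, nat_lit 2400, nat_lit 6960, R8_29, R7_50, R12_145⟩]⟩]⟩,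
 ⟨nat_lit 6, [⟨nat_lit 6, [⟨nat_lit 0, nat_lit 1584, nat_lit 11232, nat_lit 6096, nat_lit 7344, nat_lit 288, R5_127, R7_153, R2_6⟩, ⟨nat_lit 2, nat_lit 1632, nat_lit 11952, nat_lit 6144, nat_lit 19344, nat_lit 7008, R5_128, R14_403, R12_146⟩]⟩]⟩]], [], [[], [], [], [], [], [], [⟨nat_lit 6, [⟨nat_lit 6, [⟨nat_lit 0, nat_lit 1680, nat_lit 7728, nat_lit 7008, nat_lit 5568, nat_lit 6000, R5_146, R2_116, R2_125⟩, ⟨nat_lit 1, nat_lit 1776, nat_lit 7776, nat_lit 7104, nat_lit 4272, nat_lit 4704, R5_148, R1_89, R1_98⟩, ⟨nat_lit 2, nat_lit 1728, nat_lit 7824, nat_lit 7056, nat_lit 15936, nat_lit 7824, R5_147, R12_332, R12_163⟩]⟩]⟩]], [[], [], [], [], [⟨nat_lit 3, [⟨nat_lit 7, [⟨nat_lit 6, nat_lit 2256, nat_lit 8352, nat_lit 3504, nat_lit 6672, nat_lit 14592, R2_73, R1_139, R5_304⟩]⟩]⟩,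
 ⟨nat_lit 4, [⟨nat_lit 4, [⟨nat_lit 2, nat_lit 96, nat_lit 4944, nat_lit 4992, nat_lit 912, nat_lit 13536, R6_104, R2_19, R7_282⟩]⟩, ⟨nat_lit 6, [⟨nat_lit 2, nat_lit 1008, nat_lit 8784, nat_lit 7104, nat_lit 2448, nat_lit 4896, R8_148, R2_51, R14_102⟩]⟩]⟩,
 ⟨nat_lit 6, [⟨nat_lit 6, [⟨nat_lit 0, nat_lit 1392, nat_lit 9696, nat_lit 4896, nat_lit 192, nat_lit 8352, R5_102, R2_4, R7_174⟩, ⟨nat_lit 2, nat_lit 1440, nat_lit 9744, nat_lit 4944, nat_lit 528, nat_lit 4992, R5_103, R12_11, R14_104⟩]⟩]⟩,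
 ⟨nat_lit 7, [⟨nat_lit 4, [⟨nat_lit 2, nat_lit 432, nat_lit 5952, nat_lit 5136, nat_lit 240, nat_lit 13632, R13_107, R1_5, R7_284⟩, ⟨nat_lit 6, nat_lit 384, nat_lit 6000, nat_lit 5088, nat_lit 720, nat_lit 12336, R13_106, R11_15, R4_257⟩]⟩, ⟨nat_lit 6, [⟨nat_lit 2, nat_lit 2064, nat_lit 9456, nat_lit 4080, nat_lit 1920, nat_lit 4944, R9_85, R1_40, R14_103⟩]⟩, ⟨nat_lit 7, [⟨nat_lit 6, nat_lit 2496, nat_lit 7632, nat_lit 4032, nat_lit 1008, nat_lit 14736, R3_84, R11_21, R5_307⟩]⟩]⟩], [⟨nat_lit 4, [⟨nat_lit 4, [⟨nat_lit 2, nat_lit 240, nat_lit 3696, nat_lit 6720, nat_lit 1056, nat_lit 12240, R6_140, R2_22, R2_255⟩]⟩, ⟨nat_lit 5, [⟨nat_lit 2, nat_lit 768, nat_lit 4848, nat_lit 7008, nat_lit 3072, nat_lit 12816, R4_146, R2_64, R1_267⟩]⟩, ⟨nat_lit 6, [⟨nat_lit 2, nat_lit 1104, nat_lit 7104, nat_lit 7248, nat_lit 2880,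 nat_lit 3264, R8_151, R2_60, R12_68⟩]⟩]⟩,
 ⟨nat_lit 6, [⟨nat_lit 6, [⟨nat_lit 2, nat_lit 1536, nat_lit 7584, nat_lit 5472, nat_lit 2640, nat_lit 3360, R5_114, R12_55, R12_70⟩]⟩]⟩,
 ⟨nat_lit 7, [⟨nat_lit 4, [⟨nat_lit 2, nat_lit 576, nat_lit 4224, nat_lit 6720, nat_lit 384, nat_lit 12384, R13_140, R1_8, R2_258⟩, ⟨nat_lit 6, nat_lit 528, nat_lit 4272, nat_lit 6672, nat_lit 3552, nat_lit 8928, R13_139, R11_74, R3_186⟩]⟩, ⟨nat_lit 5, [⟨nat_lit 2, nat_lit 912, nat_lit 5952, nat_lit 5088, nat_lit 2544, nat_lit 12960, R3_106, R1_53, R1_270⟩, ⟨nat_lit 6, nat_lit 864, nat_lit 6000, nat_lit 5040, nat_lit 4320, nat_lit 14304, R3_105, R11_90, R10_298⟩]⟩, ⟨nat_lit 6, [⟨nat_lit 2, nat_lit 2112, nat_lit 7488, nat_lit 4992, nat_lit 2352, nat_lit 3312, R9_104, R1_49, R12_69⟩]⟩]⟩], [], [⟨nat_lit 3, [⟨nat_lit 7, [⟨nat_lit 6, nat_lit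 2400, nat_lit 13536, nat_lit 4896, nat_lit 7200, nat_lit 18096, R2_102, R1_150, R11_377⟩]⟩]⟩,
 ⟨nat_lit 4, [⟨nat_lit 4, [⟨nat_lit 2, nat_lit 288, nat_lit 576, nat_lit 6336, nat_lit 960, nat_lit 11952, R6_132, R2_20, R2_249⟩]⟩, ⟨nat_lit 6, [⟨nat_lit 2, nat_lit 1248, nat_lit 2688, nat_lit 7152, nat_lit 2496, nat_lit 13104, R8_149, R2_52, R12_273⟩]⟩]⟩,
 ⟨nat_lit 6, [⟨nat_lit 6, [⟨nat_lit 0, nat_lit 1920, nat_lit 9888, nat_lit 5520, nat_lit 5904, nat_lit 5328, R5_115, R2_123, R2_111⟩, ⟨nat_lit 2, nat_lit 1968, nat_lit 10224, nat_lit 5616, nat_lit 672, nat_lit 13536, R5_117, R12_14, R12_282⟩, ⟨nat_lit 3, nat_lit 2016, nat_lit 10032, nat_lit 5568, nat_lit 4608, nat_lit 4032, R5_116, R1_96, R1_84⟩]⟩]⟩,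
 ⟨nat_lit 7, [⟨nat_lit 4, [⟨nat_lit 2, nat_lit 624, nat_lit 4176, nat_lit 7104, nat_lit 288, nat_lit 12432, R13_148, R1_6, R2_259⟩]⟩, ⟨nat_lit 7, [⟨nat_lit 2, nat_lit 2688, nat_lit 5904, nat_lit 5136, nat_lit 528, nat_lit 13008, R3_107, R1_11, R1_271⟩, ⟨nat_lit 6, nat_lit 2640, nat_lit 5424, nat_lit 5760, nat_lit 1728, nat_lit 18240, R3_120, R11_36, R11_380⟩]⟩]⟩]]], [[], [], [], [], [[], [], [], [], [⟨nat_lit 4, [⟨nat_lit 4, [⟨nat_lit 2, nat_lit 8784, nat_lit 11376, nat_lit 13008, nat_lit 7584, nat_lit 16752, R8_271, R7_158, R7_349⟩, ⟨nat_lit 6, nat_lit 8736, nat_lit 18240, nat_lit 5232, nat_lit 7440, nat_lit 14640, R8_109, R4_155, R4_305⟩]⟩]⟩,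
 ⟨nat_lit 7, [⟨nat_lit 4, [⟨nat_lit 6, nat_lit 9456, nat_lit 19104, nat_lit 15360, nat_lit 9504, nat_lit 14736, R9_320, R5_198, R4_307⟩]⟩]⟩], [⟨nat_lit 4, [⟨nat_lit 4, [⟨nat_lit 2, nat_lit 9024, nat_lit 2928, nat_lit 13056, nat_lit 7632, nat_lit 14976, R8_272, R7_159, R2_312⟩, ⟨nat_lit 6, nat_lit 8976, nat_lit 3936, nat_lit 5280, nat_lit 7632, nat_lit 3264, R8_110, R4_159, R3_68⟩]⟩, ⟨nat_lit 5, [⟨nat_lit 2, nat_lit 9936, nat_lit 2976, nat_lit 240, nat_lit 8016, nat_lit 15984, R5_5, R7_167, R1_333⟩, ⟨nat_lit 6, nat_lit 9888, nat_lit 4080, nat_lit 144, nat_lit 8016, nat_lit 19680, R5_3, R4_167, R10_410⟩]⟩, ⟨nat_lit 6, [⟨nat_lit 2, nat_lit 10560, nat_lit 3072, nat_lit 624, nat_lit 7968, nat_lit 4224, R9_13, R7_166, R12_88⟩]⟩]⟩,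
 ⟨nat_lit 7, [⟨nat_lit 4, [⟨nat_lit 6, nat_lit 9648, nat_lit 12288, nat_lit 15648, nat_lit 11760, nat_lit 9312, R9_326, R5_245, R3_194⟩]⟩]⟩]], [[], [], [], [], [⟨nat_lit 4, [⟨nat_lit 4, [⟨nat_lit 2, nat_lit 8880, nat_lit 12960, nat_lit 13248, nat_lit 6384, nat_lit 16944, R8_276, R2_133, R7_353⟩, ⟨nat_lit 6, nat_lit 8832, nat_lit 13248, nat_lit 5616, nat_lit 2400, nat_lit 14688, R8_117, R3_50, R4_306⟩]⟩]⟩,
 ⟨nat_lit 5, [⟨nat_lit 4, [⟨nat_lit 6, nat_lit 9264, nat_lit 13344, nat_lit 16224, nat_lit 5712, nat_lit 14880, R5_338, R10_119, R4_310⟩]⟩]⟩], [⟨nat_lit 4, [⟨nat_lit 4, [⟨nat_lit 2, nat_lit 9120, nat_lit 15888, nat_lit 13296, nat_lit 6432, nat_lit 15168, R8_277, R2_134, R2_316⟩, ⟨nat_lit 6, nat_lit 9072, nat_lit 16176, nat_lit 5664, nat_lit 2496, nat_lit 3312, R8_118, R3_52, R3_69⟩]⟩, ⟨nat_lit 5, [⟨nat_lit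 2, nat_lit 10032, nat_lit 16464, nat_lit 5952, nat_lit 7008, nat_lit 16176, R5_124, R2_146, R1_337⟩, ⟨nat_lit 6, nat_lit 9984, nat_lit 16560, nat_lit 5808, nat_lit 10128, nat_lit 19728, R5_121, R3_211, R10_411⟩]⟩, ⟨nat_lit 6, [⟨nat_lit 2, nat_lit 10608, nat_lit 17088, nat_lit 5904, nat_lit 6816, nat_lit 5568, R9_123, R2_142, R12_116⟩]⟩]⟩,
 ⟨nat_lit 5, [⟨nat_lit 4, [⟨nat_lit 2, nat_lit 9408, nat_lit 15936, nat_lit 16608, nat_lit 5136, nat_lit 15456, R5_346, R1_107, R2_322⟩, ⟨nat_lit 6, nat_lit 9360, nat_lit 16272, nat_lit 16512, nat_lit 5904, nat_lit 10512, R5_344, R10_123, R3_219⟩]⟩, ⟨nat_lit 5, [⟨nat_lit 2, nat_lit 10176, nat_lit 16512, nat_lit 21552, nat_lit 5712, nat_lit 16464, R11_449, R1_119, R1_343⟩, ⟨nat_lit 6, nat_lit 10128, nat_lit 16656, nat_lit 21456, nat_lit 6624, nat_lit 20016, R11_447, R10_138,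 R10_417⟩]⟩]⟩]], [], [[], [], [], [], [⟨nat_lit 4, [⟨nat_lit 4, [⟨nat_lit 2, nat_lit 8928, nat_lit 11184, nat_lit 13104, nat_lit 8016, nat_lit 16848, R8_273, R2_167, R7_351⟩]⟩]⟩,
 ⟨nat_lit 7, [⟨nat_lit 4, [⟨nat_lit 6, nat_lit 9552, nat_lit 11424, nat_lit 15408, nat_lit 11952, nat_lit 14784, R9_321, R11_249, R4_308⟩]⟩]⟩]]], [[[⟨nat_lit 0, [⟨nat_lit 0, [⟨nat_lit 4, nat_lit 2736, nat_lit 1920, nat_lit 12240, nat_lit 15120, nat_lit 8304, R4_255, R6_315, R6_173⟩, ⟨nat_lit 5, nat_lit 2832, nat_lit 7440, nat_lit 14640, nat_lit 18240, nat_lit 5232, R4_305, R8_380, R8_109⟩, ⟨nat_lit 6, nat_lit 2784, nat_lit 10848, nat_lit 13104, nat_lit 14544, nat_lit 8880, R4_273, R4_303, R4_185⟩]⟩]⟩,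
 ⟨nat_lit 2, [⟨nat_lit 0, [⟨nat_lit 4, nat_lit 3456, nat_lit 2112, nat_lit 3024, nat_lit 336, nat_lit 8880, R3_63, R4_7, R6_185⟩, ⟨nat_lit 5, nat_lit 3504, nat_lit 7632, nat_lit 3264, nat_lit 3936, nat_lit 5280, R3_68, R5_82, R8_110⟩]⟩, ⟨nat_lit 2, [⟨nat_lit 4, nat_lit 4032, nat_lit 2832, nat_lit 4608, nat_lit 912, nat_lit 1152, R10_96, R4_19, R4_24⟩, ⟨nat_lit 5, nat_lit 4080, nat_lit 8016, nat_lit 4656, nat_lit 4080, nat_lit 144, R10_97, R5_85, R5_3⟩]⟩]⟩], [], [], [⟨nat_lit 0, [⟨nat_lit 0, [⟨nat_lit 4, nat_lit 2976, nat_lit 1152, nat_lit 12288, nat_lit 15216, nat_lit 19056, R4_256, R6_317, R13_397⟩, ⟨nat_lit 5, nat_lit 3072, nat_lit 9504, nat_lit 14736, nat_lit 19104, nat_lit 15360, R4_307, R8_398, R9_320⟩, ⟨nat_lit 6, nat_lit 3024, nat_lit 13200, nat_lit 13248, nat_lit 14592, nat_lit 15264, R4_276, R4_304,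 R3_318⟩]⟩, ⟨nat_lit 3, [⟨nat_lit 4, nat_lit 5664, nat_lit 1440, nat_lit 14352, nat_lit 15792, nat_lit 432, R5_299, R6_329, R3_9⟩, ⟨nat_lit 6, nat_lit 5712, nat_lit 13344, nat_lit 16224, nat_lit 14880, nat_lit 2928, R5_338, R4_310, R10_61⟩]⟩]⟩,
 ⟨nat_lit 2, [⟨nat_lit 0, [⟨nat_lit 4, nat_lit 3648, nat_lit 3552, nat_lit 8832, nat_lit 5568, nat_lit 19392, R3_184, R4_116, R13_404⟩, ⟨nat_lit 5, nat_lit 3696, nat_lit 11760, nat_lit 9312, nat_lit 12288, nat_lit 15648, R3_194, R5_256, R9_326⟩]⟩, ⟨nat_lit 2, [⟨nat_lit 4, nat_lit 4320, nat_lit 4320, nat_lit 4752, nat_lit 7296, nat_lit 4464, R10_99, R4_152, R3_93⟩]⟩]⟩]], [], [[⟨nat_lit 0, [⟨nat_lit 0, [⟨nat_lit 5, nat_lit 2880, nat_lit 2400, nat_lit 14688, nat_lit 13248, nat_lit 5616, R4_306, R5_276, R8_117⟩]⟩]⟩,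
 ⟨nat_lit 2, [⟨nat_lit 0, [⟨nat_lit 5, nat_lit 3552, nat_lit 2496, nat_lit 3312, nat_lit 16176, nat_lit 5664, R3_69, R11_337, R8_118⟩]⟩, ⟨nat_lit 2, [⟨nat_lit 5, nat_lit 4128, nat_lit 10128, nat_lit 4704, nat_lit 16560, nat_lit 5808, R10_98, R11_345, R5_121⟩]⟩]⟩], [], [⟨nat_lit 0, [⟨nat_lit 0, [⟨nat_lit 5, nat_lit 2928, nat_lit 8544, nat_lit 14880, nat_lit 13344, nat_lit 16224, R4_310, R5_278, R5_338⟩]⟩]⟩,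
 ⟨nat_lit 2, [⟨nat_lit 0, [⟨nat_lit 5, nat_lit 3600, nat_lit 8592, nat_lit 10512, nat_lit 16272, nat_lit 16512, R3_219, R11_339, R5_344⟩]⟩, ⟨nat_lit 2, [⟨nat_lit 1, nat_lit 4224, nat_lit 8688, nat_lit 5088, nat_lit 11520, nat_lit 15744, R10_106, R1_240, R1_328⟩, ⟨nat_lit 5, nat_lit 4176, nat_lit 8640, nat_lit 5136, nat_lit 16656, nat_lit 21456, R10_107, R11_347, R11_447⟩]⟩]⟩]], [[], [], [], [⟨nat_lit 0, [⟨nat_lit 0, [⟨nat_lit 4, nat_lit 3168, nat_lit 9504, nat_lit 12336, nat_lit 13776, nat_lit 19104, R4_257, R13_287, R13_398⟩, ⟨nat_lit 5, nat_lit 3264, nat_lit 9552, nat_lit 14784, nat_lit 11424, nat_lit 15408, R4_308, R9_238, R9_321⟩, ⟨nat_lit 6, nat_lit 3216, nat_lit 9648, nat_lit 13296, nat_lit 10464, nat_lit 15312, R4_277, R3_218, R3_319⟩, ⟨nat_lit 7, nat_lit 3312, nat_lit 9600, nat_lit 13728, nat_lit 16800,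 nat_lit 8640, R4_286, R3_350, R3_180⟩]⟩, ⟨nat_lit 3, [⟨nat_lit 4, nat_lit 5856, nat_lit 9840, nat_lit 14736, nat_lit 13920, nat_lit 4032, R5_307, R13_290, R3_84⟩, ⟨nat_lit 6, nat_lit 5904, nat_lit 9936, nat_lit 16512, nat_lit 10512, nat_lit 3600, R5_344, R3_219, R10_75⟩]⟩]⟩,
 ⟨nat_lit 2, [⟨nat_lit 0, [⟨nat_lit 4, nat_lit 3792, nat_lit 9696, nat_lit 8928, nat_lit 4272, nat_lit 19440, R3_186, R3_89, R13_405⟩, ⟨nat_lit 7, nat_lit 3888, nat_lit 9792, nat_lit 9072, nat_lit 12480, nat_lit 9072, R3_189, R10_260, R3_189⟩]⟩, ⟨nat_lit 2, [⟨nat_lit 4, nat_lit 4464, nat_lit 10224, nat_lit 4848, nat_lit 6000, nat_lit 5040, R10_101, R3_125, R3_105⟩, ⟨nat_lit 7, nat_lit 4560, nat_lit 10320, nat_lit 4896, nat_lit 12672, nat_lit 19248, R10_102, R10_264, R10_401⟩]⟩]⟩,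
 ⟨nat_lit 3, [⟨nat_lit 3, [⟨nat_lit 4, nat_lit 6576, nat_lit 9984, nat_lit 5376, nat_lit 5424, nat_lit 5760, R11_112, R3_113, R3_120⟩, ⟨nat_lit 6, nat_lit 6624, nat_lit 10080, nat_lit 5424, nat_lit 5136, nat_lit 4176, R11_113, R10_107, R10_87⟩]⟩]⟩], [], [], [], [⟨nat_lit 0, [⟨nat_lit 0, [⟨nat_lit 7, nat_lit 3360, nat_lit 5904, nat_lit 13776, nat_lit 16704, nat_lit 13920, R4_287, R3_348, R2_290⟩]⟩, ⟨nat_lit 3, [⟨nat_lit 4, nat_lit 6000, nat_lit 6672, nat_lit 14592, nat_lit 13968, nat_lit 3504, R5_304, R13_291, R2_73⟩, ⟨nat_lit 6, nat_lit 6048, nat_lit 6768, nat_lit 16464, nat_lit 10560, nat_lit 2976, R5_343, R3_220, R1_62⟩, ⟨nat_lit 7, nat_lit 6096, nat_lit 6720, nat_lit 16128, nat_lit 17232, nat_lit 14976, R5_336, R3_359, R12_312⟩]⟩]⟩,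
 ⟨nat_lit 2, [⟨nat_lit 0, [⟨nat_lit 7, nat_lit 3936, nat_lit 6048, nat_lit 15792, nat_lit 12528, nat_lit 14160, R3_329, R10_261, R2_295⟩]⟩, ⟨nat_lit 2, [⟨nat_lit 7, nat_lit 5040, nat_lit 7920, nat_lit 4272, nat_lit 12720, nat_lit 15696, R10_89, R10_265, R1_327⟩]⟩]⟩,
 ⟨nat_lit 3, [⟨nat_lit 3, [⟨nat_lit 4, nat_lit 6720, nat_lit 7200, nat_lit 5280, nat_lit 13536, nat_lit 4896, R11_110, R3_282, R2_102⟩, ⟨nat_lit 6, nat_lit 6768, nat_lit 7248, nat_lit 5328, nat_lit 5616, nat_lit 3600, R11_111, R10_117, R1_75⟩]⟩, ⟨nat_lit 7, [⟨nat_lit 6, nat_lit 8448, nat_lit 5040, nat_lit 4080, nat_lit 8208, nat_lit 21312, R1_85, R10_171, R11_444⟩]⟩]⟩]], [[], [], [], [], [⟨nat_lit 2, [⟨nat_lit 2, [⟨nat_lit 0, nat_lit 4608, nat_lit 2832, nat_lit 4032, nat_lit 912, nat_lit 1152, R10_84, R4_19, R4_24⟩, ⟨nat_lit 3, nat_lit 4656, nat_lit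 8016, nat_lit 4080, nat_lit 4080, nat_lit 144, R10_85, R5_85, R5_3⟩]⟩]⟩,
 ⟨nat_lit 4, [⟨nat_lit 4, [⟨nat_lit 2, nat_lit 7008, nat_lit 11520, nat_lit 13488, nat_lit 11424, nat_lit 14256, R4_281, R7_238, R7_297⟩, ⟨nat_lit 6, nat_lit 6960, nat_lit 14544, nat_lit 8880, nat_lit 10848, nat_lit 13104, R4_185, R4_226, R4_273⟩]⟩, ⟨nat_lit 6, [⟨nat_lit 2, nat_lit 7344, nat_lit 11952, nat_lit 14976, nat_lit 11616, nat_lit 5232, R5_312, R7_242, R14_109⟩]⟩]⟩,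
 ⟨nat_lit 6, [⟨nat_lit 2, [⟨nat_lit 0, nat_lit 5232, nat_lit 2976, nat_lit 3456, nat_lit 960, nat_lit 1680, R1_72, R7_20, R4_35⟩]⟩, ⟨nat_lit 6, [⟨nat_lit 0, nat_lit 7584, nat_lit 4272, nat_lit 4512, nat_lit 1536, nat_lit 1776, R11_94, R7_32, R7_37⟩, ⟨nat_lit 2, nat_lit 7632, nat_lit 12048, nat_lit 4560, nat_lit 21888, nat_lit 5280, R11_95, R14_456, R14_110⟩]⟩]⟩,
 ⟨nat_lit 7, [⟨nat_lit 4, [⟨nat_lit 6, nat_lit 7152, nat_lit 14592, nat_lit 15264, nat_lit 13200, nat_lit 13248, R3_318, R5_275, R4_276⟩]⟩, ⟨nat_lit 7, [⟨nat_lit 6, nat_lit 8544, nat_lit 14880, nat_lit 2928, nat_lit 13344, nat_lit 16224, R10_61, R5_278, R5_338⟩]⟩]⟩], [], [⟨nat_lit 2, [⟨nat_lit 2, [⟨nat_lit 0, nat_lit 4752, nat_lit 4320, nat_lit 4320, nat_lit 7296, nat_lit 4464, R10_90, R4_152, R3_93⟩]⟩]⟩,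
 ⟨nat_lit 4, [⟨nat_lit 6, [⟨nat_lit 2, nat_lit 7440, nat_lit 13728, nat_lit 15120, nat_lit 11712, nat_lit 7104, R5_315, R7_244, R12_148⟩]⟩]⟩,
 ⟨nat_lit 6, [⟨nat_lit 2, [⟨nat_lit 0, nat_lit 5376, nat_lit 3216, nat_lit 3648, nat_lit 6960, nat_lit 12576, R1_76, R7_145, R3_262⟩]⟩, ⟨nat_lit 6, [⟨nat_lit 0, nat_lit 7776, nat_lit 3120, nat_lit 5712, nat_lit 7536, nat_lit 336, R11_119, R7_157, R2_7⟩, ⟨nat_lit 2, nat_lit 7824, nat_lit 14256, nat_lit 5760, nat_lit 22416, nat_lit 7152, R11_120, R14_467, R12_149⟩]⟩]⟩]], [], [[], [], [⟨nat_lit 2, [⟨nat_lit 2, [⟨nat_lit 1, nat_lit 4272, nat_lit 7920, nat_lit 5040, nat_lit 12720, nat_lit 15696, R10_105, R10_265, R1_327⟩]⟩]⟩,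
 ⟨nat_lit 6, [⟨nat_lit 2, [⟨nat_lit 1, nat_lit 5184, nat_lit 7872, nat_lit 3888, nat_lit 15504, nat_lit 15648, R1_81, R1_323, R1_326⟩]⟩]⟩], [], [], [], [⟨nat_lit 2, [⟨nat_lit 2, [⟨nat_lit 0, nat_lit 4848, nat_lit 10224, nat_lit 4464, nat_lit 6000, nat_lit 5040, R10_93, R3_125, R3_105⟩, ⟨nat_lit 1, nat_lit 4896, nat_lit 10320, nat_lit 4560, nat_lit 12672, nat_lit 19248, R10_95, R10_264, R10_401⟩]⟩]⟩,
 ⟨nat_lit 6, [⟨nat_lit 2, [⟨nat_lit 0, nat_lit 5424, nat_lit 9408, nat_lit 3792, nat_lit 5136, nat_lit 13344, R1_79, R2_107, R3_278⟩, ⟨nat_lit 1, nat_lit 5472, nat_lit 9456, nat_lit 3840, nat_lit 3840, nat_lit 19200, R1_80, R1_80, R10_400⟩]⟩, ⟨nat_lit 6, [⟨nat_lit 0, nat_lit 7872, nat_lit 7344, nat_lit 6624, nat_lit 5760, nat_lit 6048, R11_138, R2_120, R2_126⟩, ⟨nat_lit 1, nat_lit 7968, nat_lit 7392, nat_lit 6720,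 nat_lit 4464, nat_lit 4752, R11_140, R1_93, R1_99⟩, ⟨nat_lit 2, nat_lit 7920, nat_lit 7440, nat_lit 6672, nat_lit 17232, nat_lit 7872, R11_139, R12_359, R12_164⟩]⟩]⟩]], [[], [], [], [], [⟨nat_lit 2, [⟨nat_lit 2, [⟨nat_lit 3, nat_lit 4704, nat_lit 10128, nat_lit 4128, nat_lit 16560, nat_lit 5808, R10_86, R11_345, R5_121⟩]⟩]⟩,
 ⟨nat_lit 3, [⟨nat_lit 7, [⟨nat_lit 6, nat_lit 8400, nat_lit 10560, nat_lit 2976, nat_lit 6768, nat_lit 16464, R1_62, R1_141, R5_343⟩]⟩]⟩,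
 ⟨nat_lit 4, [⟨nat_lit 4, [⟨nat_lit 2, nat_lit 7056, nat_lit 10368, nat_lit 13632, nat_lit 10800, nat_lit 14352, R4_284, R2_225, R7_299⟩]⟩, ⟨nat_lit 6, [⟨nat_lit 2, nat_lit 7392, nat_lit 10896, nat_lit 15456, nat_lit 11136, nat_lit 5376, R5_322, R2_232, R14_112⟩]⟩]⟩,
 ⟨nat_lit 6, [⟨nat_lit 2, [⟨nat_lit 0, nat_lit 5280, nat_lit 9792, nat_lit 3504, nat_lit 2352, nat_lit 8400, R1_73, R2_49, R4_175⟩, ⟨nat_lit 3, nat_lit 5328, nat_lit 10080, nat_lit 3552, nat_lit 1824, nat_lit 5712, R1_74, R1_38, R5_119⟩]⟩, ⟨nat_lit 6, [⟨nat_lit 0, nat_lit 7680, nat_lit 10752, nat_lit 4896, nat_lit 624, nat_lit 8400, R11_102, R2_13, R7_175⟩, ⟨nat_lit 2, nat_lit 7728, nat_lit 10992, nat_lit 4944, nat_lit 10512, nat_lit 5472, R11_103, R12_219, R14_114⟩]⟩]⟩,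
 ⟨nat_lit 7, [⟨nat_lit 4, [⟨nat_lit 2, nat_lit 7248, nat_lit 10416, nat_lit 15408, nat_lit 11184, nat_lit 14496, R3_321, R1_233, R7_302⟩, ⟨nat_lit 6, nat_lit 7200, nat_lit 10464, nat_lit 15312, nat_lit 16128, nat_lit 13296, R3_319, R11_336, R4_277⟩]⟩, ⟨nat_lit 7, [⟨nat_lit 6, nat_lit 8592, nat_lit 10512, nat_lit 3600, nat_lit 16272, nat_lit 16512, R10_75, R11_339, R5_344⟩]⟩]⟩], [], [], [⟨nat_lit 0, [⟨nat_lit 0, [⟨nat_lit 7, nat_lit 3408, nat_lit 7104, nat_lit 13824, nat_lit 10896, nat_lit 13968, R4_288, R2_227, R2_291⟩]⟩, ⟨nat_lit 3, [⟨nat_lit 7, nat_lit 6144, nat_lit 7536, nat_lit 15552, nat_lit 11232, nat_lit 14928, R5_324, R2_234, R12_311⟩]⟩]⟩,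
 ⟨nat_lit 2, [⟨nat_lit 0, [⟨nat_lit 7, nat_lit 3984, nat_lit 7296, nat_lit 15744, nat_lit 11280, nat_lit 14208, R3_328, R1_235, R2_296⟩]⟩, ⟨nat_lit 2, [⟨nat_lit 3, nat_lit 5136, nat_lit 8640, nat_lit 4176, nat_lit 16656, nat_lit 21456, R10_87, R11_347, R11_447⟩, ⟨nat_lit 7, nat_lit 5088, nat_lit 8688, nat_lit 4224, nat_lit 11520, nat_lit 15744, R10_88, R1_240, R1_328⟩]⟩]⟩,
 ⟨nat_lit 3, [⟨nat_lit 3, [⟨nat_lit 4, nat_lit 6816, nat_lit 8112, nat_lit 5136, nat_lit 6336, nat_lit 5376, R11_107, R2_132, R2_112⟩, ⟨nat_lit 6, nat_lit 6864, nat_lit 8208, nat_lit 5184, nat_lit 5040, nat_lit 4080, R11_108, R1_105, R1_85⟩, ⟨nat_lit 7, nat_lit 6912, nat_lit 8160, nat_lit 5232, nat_lit 10896, nat_lit 15120, R11_109, R12_227, R12_315⟩]⟩, ⟨nat_lit 7, [⟨nat_lit 6, nat_lit 8496, nat_lit 5616, nat_lit 3600, nat_lit 7248, nat_lit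 21408, R1_75, R1_151, R11_446⟩]⟩]⟩,
 ⟨nat_lit 4, [⟨nat_lit 4, [⟨nat_lit 2, nat_lit 7104, nat_lit 3408, nat_lit 13824, nat_lit 10896, nat_lit 13968, R4_288, R2_227, R2_291⟩]⟩, ⟨nat_lit 6, [⟨nat_lit 2, nat_lit 7536, nat_lit 6144, nat_lit 15552, nat_lit 11232, nat_lit 14928, R5_324, R2_234, R12_311⟩]⟩]⟩,
 ⟨nat_lit 6, [⟨nat_lit 2, [⟨nat_lit 3, nat_lit 5616, nat_lit 8496, nat_lit 3600, nat_lit 7248, nat_lit 21408, R1_75, R1_151, R11_446⟩]⟩, ⟨nat_lit 6, [⟨nat_lit 0, nat_lit 8112, nat_lit 6816, nat_lit 5136, nat_lit 6336, nat_lit 5376, R11_107, R2_132, R2_112⟩, ⟨nat_lit 2, nat_lit 8160, nat_lit 6912, nat_lit 5232, nat_lit 10896, nat_lit 15120, R11_109, R12_227, R12_315⟩, ⟨nat_lit 3, nat_lit 8208, nat_lit 6864, nat_lit 5184, nat_lit 5040, nat_lit 4080, R11_108, R1_105, R1_85⟩]⟩]⟩,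
 ⟨nat_lit 7, [⟨nat_lit 4, [⟨nat_lit 2, nat_lit 7296, nat_lit 3984, nat_lit 15744, nat_lit 11280, nat_lit 14208, R3_328, R1_235, R2_296⟩]⟩, ⟨nat_lit 7, [⟨nat_lit 2, nat_lit 8688, nat_lit 5088, nat_lit 4224, nat_lit 11520, nat_lit 15744, R10_88, R1_240, R1_328⟩, ⟨nat_lit 6, nat_lit 8640, nat_lit 5136, nat_lit 4176, nat_lit 16656, nat_lit 21456, R10_87, R11_347, R11_447⟩]⟩]⟩]]], [[], [], [], [[], [], [], [], [⟨nat_lit 3, [⟨nat_lit 4, [⟨nat_lit 6, nat_lit 12192, nat_lit 10896, nat_lit 13968, nat_lit 7104, nat_lit 13824, R2_291, R10_148, R4_288⟩]⟩, ⟨nat_lit 7, [⟨nat_lit 6, nat_lit 12912, nat_lit 11232, nat_lit 3648, nat_lit 7536, nat_lit 15552, R12_76, R10_157, R5_324⟩]⟩]⟩], [⟨nat_lit 3, [⟨nat_lit 4, [⟨nat_lit 6, nat_lit 12288, nat_lit 11280, nat_lit 14208, nat_lit 7296, nat_lit 15744, R2_296, R10_152, R3_328⟩]⟩,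 ⟨nat_lit 5, [⟨nat_lit 6, nat_lit 12576, nat_lit 11520, nat_lit 15744, nat_lit 8688, nat_lit 19392, R1_328, R10_181, R10_404⟩]⟩]⟩], [], [⟨nat_lit 3, [⟨nat_lit 7, [⟨nat_lit 6, nat_lit 13104, nat_lit 6672, nat_lit 3792, nat_lit 8160, nat_lit 19872, R12_79, R10_170, R11_414⟩]⟩]⟩]], [], [], [], [[], [], [], [], [⟨nat_lit 3, [⟨nat_lit 4, [⟨nat_lit 6, nat_lit 12240, nat_lit 16704, nat_lit 13920, nat_lit 5904, nat_lit 13776, R2_290, R1_123, R4_287⟩]⟩, ⟨nat_lit 7, [⟨nat_lit 6, nat_lit 12960, nat_lit 17232, nat_lit 3600, nat_lit 6720, nat_lit 16128, R12_75, R1_140, R5_336⟩]⟩]⟩,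
 ⟨nat_lit 7, [⟨nat_lit 4, [⟨nat_lit 2, nat_lit 12432, nat_lit 10320, nat_lit 15456, nat_lit 5952, nat_lit 14976, R3_322, R1_124, R7_312⟩, ⟨nat_lit 6, nat_lit 12384, nat_lit 16800, nat_lit 8640, nat_lit 8064, nat_lit 13728, R3_180, R11_168, R4_286⟩]⟩]⟩], [⟨nat_lit 3, [⟨nat_lit 4, [⟨nat_lit 6, nat_lit 12336, nat_lit 12528, nat_lit 14160, nat_lit 6048, nat_lit 15792, R2_295, R1_126, R3_329⟩]⟩, ⟨nat_lit 5, [⟨nat_lit 6, nat_lit 12624, nat_lit 12720, nat_lit 15696, nat_lit 7920, nat_lit 19344, R1_327, R1_165, R10_403⟩]⟩]⟩,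
 ⟨nat_lit 7, [⟨nat_lit 4, [⟨nat_lit 2, nat_lit 12528, nat_lit 12336, nat_lit 15792, nat_lit 6048, nat_lit 14160, R3_329, R1_126, R2_295⟩, ⟨nat_lit 6, nat_lit 12480, nat_lit 12480, nat_lit 9072, nat_lit 9792, nat_lit 9072, R3_189, R11_204, R3_189⟩]⟩, ⟨nat_lit 5, [⟨nat_lit 2, nat_lit 12720, nat_lit 12624, nat_lit 19344, nat_lit 7920, nat_lit 15696, R10_403, R1_165, R1_327⟩, ⟨nat_lit 6, nat_lit 12672, nat_lit 12672, nat_lit 19248, nat_lit 10320, nat_lit 19248, R10_401, R11_215, R10_401⟩]⟩]⟩]]]]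
noncomputable def N6775 : T3 (List N0) := [[[[], [⟨nat_lit 0, [⟨nat_lit 4, [⟨nat_lit 4, nat_lit 14352, nat_lit 2112, nat_lit 144, nat_lit 816, nat_lit 13440, R6_3, R6_17, R7_280⟩, ⟨nat_lit 6, nat_lit 14928, nat_lit 2160, nat_lit 1008, nat_lit 384, nat_lit 12144, R6_21, R4_8, R2_253⟩]⟩, ⟨nat_lit 5, [⟨nat_lit 4, nat_lit 15648, nat_lit 2304, nat_lit 1200, nat_lit 3024, nat_lit 8352, R8_25, R6_63, R14_174⟩, ⟨nat_lit 5, nat_lit 16512, nat_lit 2400, nat_lit 1392, nat_lit 3984, nat_lit 6960, R8_29, R8_83, R12_145⟩, ⟨nat_lit 6, nat_lit 17424, nat_lit 2544, nat_lit 1296, nat_lit 2688, nat_lit 2832, R8_27, R4_56, R12_59⟩]⟩, ⟨nat_lit 6, [⟨nat_lit 6, nat_lit 18432, nat_lit 2736, nat_lit 624, nat_lit 1296, nat_lit 12720, R4_13, R4_27, R1_265⟩]⟩]⟩,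
 ⟨nat_lit 1, [⟨nat_lit 4, [⟨nat_lit 4, nat_lit 14448, nat_lit 7584, nat_lit 13008, nat_lit 11376, nat_lit 16752, R8_271, R8_237, R7_349⟩, ⟨nat_lit 6, nat_lit 14976, nat_lit 7632, nat_lit 13056, nat_lit 2928, nat_lit 14976, R8_272, R5_61, R2_312⟩]⟩, ⟨nat_lit 5, [⟨nat_lit 4, nat_lit 15744, nat_lit 7728, nat_lit 528, nat_lit 11520, nat_lit 8976, R9_11, R8_240, R14_187⟩, ⟨nat_lit 5, nat_lit 16608, nat_lit 7824, nat_lit 720, nat_lit 3168, nat_lit 7584, R9_15, R9_66, R12_158⟩, ⟨nat_lit 6, nat_lit 17472, nat_lit 7968, nat_lit 624, nat_lit 3072, nat_lit 4224, R9_13, R5_64, R12_88⟩]⟩, ⟨nat_lit 6, [⟨nat_lit 6, nat_lit 18480, nat_lit 8016, nat_lit 240, nat_lit 2976, nat_lit 15984, R5_5, R5_62, R1_333⟩]⟩]⟩,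
 ⟨nat_lit 2, [⟨nat_lit 4, [⟨nat_lit 4, nat_lit 14400, nat_lit 11424, nat_lit 13488, nat_lit 11520, nat_lit 14256, R4_281, R4_240, R7_297⟩]⟩, ⟨nat_lit 5, [⟨nat_lit 4, nat_lit 15696, nat_lit 11616, nat_lit 14976, nat_lit 11952, nat_lit 8496, R5_312, R4_249, R14_177⟩, ⟨nat_lit 5, nat_lit 16560, nat_lit 11712, nat_lit 15120, nat_lit 13728, nat_lit 7104, R5_315, R5_286, R12_148⟩]⟩]⟩], [], [], [], [⟨nat_lit 0, [⟨nat_lit 4, [⟨nat_lit 4, nat_lit 2736, nat_lit 1920, nat_lit 672, nat_lit 432, nat_lit 12240, R6_14, R6_9, R4_255⟩, ⟨nat_lit 6, nat_lit 3456, nat_lit 2112, nat_lit 1248, nat_lit 336, nat_lit 3024, R6_26, R4_7, R3_63⟩]⟩, ⟨nat_lit 6, [⟨nat_lit 6, nat_lit 4032, nat_lit 2832, nat_lit 1152, nat_lit 912, nat_lit 4608, R4_24, R4_19, R10_96⟩]⟩]⟩,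
 ⟨nat_lit 1, [⟨nat_lit 4, [⟨nat_lit 4, nat_lit 2832, nat_lit 7440, nat_lit 5232, nat_lit 18240, nat_lit 14640, R8_109, R8_380, R4_305⟩, ⟨nat_lit 6, nat_lit 3504, nat_lit 7632, nat_lit 5280, nat_lit 3936, nat_lit 3264, R8_110, R5_82, R3_68⟩]⟩, ⟨nat_lit 6, [⟨nat_lit 6, nat_lit 4080, nat_lit 8016, nat_lit 144, nat_lit 4080, nat_lit 4656, R5_3, R5_85, R10_97⟩]⟩]⟩,
 ⟨nat_lit 2, [⟨nat_lit 4, [⟨nat_lit 4, nat_lit 2784, nat_lit 10848, nat_lit 8880, nat_lit 14544, nat_lit 13104, R4_185, R4_303, R4_273⟩]⟩]⟩]], [[], [⟨nat_lit 1, [⟨nat_lit 4, [⟨nat_lit 4, nat_lit 14496, nat_lit 6384, nat_lit 13248, nat_lit 12960, nat_lit 16944, R8_276, R5_270, R7_353⟩, ⟨nat_lit 6, nat_lit 15024, nat_lit 6432, nat_lit 13296, nat_lit 2928, nat_lit 15168, R8_277, R11_61, R2_316⟩]⟩, ⟨nat_lit 5, [⟨nat_lit 4, nat_lit 15792, nat_lit 6576, nat_lit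 5808, nat_lit 14016, nat_lit 11280, R9_121, R5_292, R14_235⟩, ⟨nat_lit 6, nat_lit 17520, nat_lit 6816, nat_lit 5904, nat_lit 3072, nat_lit 5568, R9_123, R11_64, R12_116⟩]⟩, ⟨nat_lit 6, [⟨nat_lit 6, nat_lit 18528, nat_lit 7008, nat_lit 5952, nat_lit 2976, nat_lit 16176, R5_124, R11_62, R1_337⟩]⟩]⟩], [], [], [], [⟨nat_lit 1, [⟨nat_lit 4, [⟨nat_lit 4, nat_lit 2880, nat_lit 2400, nat_lit 5616, nat_lit 13248, nat_lit 14688, R8_117, R5_276, R4_306⟩, ⟨nat_lit 6, nat_lit 3552, nat_lit 2496, nat_lit 5664, nat_lit 3936, nat_lit 3312, R8_118, R11_82, R3_69⟩]⟩, ⟨nat_lit 6, [⟨nat_lit 6, nat_lit 4128, nat_lit 10128, nat_lit 5808, nat_lit 4080, nat_lit 4704, R5_121, R11_85, R10_98⟩]⟩]⟩]], [], [[], [⟨nat_lit 0, [⟨nat_lit 4, [⟨nat_lit 4, nat_lit 14544, nat_lit 912, nat_lit 4992, nat_lit 4944, nat_lit 13536, R6_104, R13_103,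 R7_282⟩, ⟨nat_lit 6, nat_lit 15072, nat_lit 1056, nat_lit 6720, nat_lit 3696, nat_lit 12240, R6_140, R3_77, R2_255⟩, ⟨nat_lit 7, nat_lit 15360, nat_lit 960, nat_lit 6336, nat_lit 576, nat_lit 11952, R6_132, R3_12, R2_249⟩]⟩, ⟨nat_lit 5, [⟨nat_lit 4, nat_lit 15840, nat_lit 2448, nat_lit 7104, nat_lit 8784, nat_lit 9600, R8_148, R13_183, R14_200⟩, ⟨nat_lit 5, nat_lit 16704, nat_lit 2592, nat_lit 7344, nat_lit 6480, nat_lit 8496, R8_153, R9_135, R12_177⟩, ⟨nat_lit 6, nat_lit 17568, nat_lit 2880, nat_lit 7248, nat_lit 7104, nat_lit 3264, R8_151, R3_148, R12_68⟩, ⟨nat_lit 7, nat_lit 18048, nat_lit 2496, nat_lit 7152, nat_lit 2688, nat_lit 3216, R8_149, R3_56, R12_67⟩]⟩, ⟨nat_lit 6, [⟨nat_lit 6, nat_lit 18576, nat_lit 3072, nat_lit 7008, nat_lit 4848, nat_lit 12816, R4_146, R3_101, R1_267⟩]⟩]⟩,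
 ⟨nat_lit 1, [⟨nat_lit 4, [⟨nat_lit 4, nat_lit 14640, nat_lit 8016, nat_lit 13104, nat_lit 11184, nat_lit 16848, R8_273, R9_233, R7_351⟩]⟩, ⟨nat_lit 5, [⟨nat_lit 4, nat_lit 15936, nat_lit 10080, nat_lit 7776, nat_lit 12720, nat_lit 10752, R9_162, R9_265, R14_224⟩]⟩]⟩,
 ⟨nat_lit 2, [⟨nat_lit 4, [⟨nat_lit 4, nat_lit 14592, nat_lit 10800, nat_lit 13632, nat_lit 10368, nat_lit 14352, R4_284, R3_216, R7_299⟩, ⟨nat_lit 7, nat_lit 15408, nat_lit 10896, nat_lit 13824, nat_lit 3408, nat_lit 13968, R4_288, R10_71, R2_291⟩]⟩, ⟨nat_lit 5, [⟨nat_lit 4, nat_lit 15888, nat_lit 11136, nat_lit 15456, nat_lit 10896, nat_lit 9840, R5_322, R3_227, R14_205⟩, ⟨nat_lit 7, nat_lit 18096, nat_lit 11232, nat_lit 15552, nat_lit 6144, nat_lit 3648, R5_324, R10_128, R12_76⟩]⟩]⟩]]], [[], [[], [⟨nat_lit 1, [⟨nat_lit 4, [⟨nat_lit 4, nat_lit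 14688, nat_lit 5088, nat_lit 16272, nat_lit 13008, nat_lit 17184, R5_339, R5_271, R7_358⟩, ⟨nat_lit 6, nat_lit 15168, nat_lit 5136, nat_lit 16608, nat_lit 9168, nat_lit 15456, R5_346, R11_191, R2_322⟩]⟩, ⟨nat_lit 6, [⟨nat_lit 6, nat_lit 18672, nat_lit 5712, nat_lit 5568, nat_lit 9216, nat_lit 16464, R11_116, R11_192, R1_343⟩]⟩]⟩,
 ⟨nat_lit 5, [⟨nat_lit 6, [⟨nat_lit 6, nat_lit 18720, nat_lit 15552, nat_lit 15792, nat_lit 11472, nat_lit 11376, R1_329, R1_239, R1_237⟩]⟩]⟩], [], [], [], [⟨nat_lit 1, [⟨nat_lit 4, [⟨nat_lit 4, nat_lit 2928, nat_lit 5712, nat_lit 16224, nat_lit 13344, nat_lit 14880, R5_338, R5_278, R4_310⟩, ⟨nat_lit 6, nat_lit 3600, nat_lit 5904, nat_lit 16512, nat_lit 9936, nat_lit 10512, R5_344, R11_207, R3_219⟩]⟩, ⟨nat_lit 6, [⟨nat_lit 6, nat_lit 4176, nat_lit 6624, nat_lit 5424, nat_lit 10080,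 nat_lit 5136, R11_113, R11_210, R10_107⟩]⟩]⟩,
 ⟨nat_lit 5, [⟨nat_lit 6, [⟨nat_lit 6, nat_lit 4224, nat_lit 18960, nat_lit 15744, nat_lit 11520, nat_lit 5088, R1_328, R1_240, R10_106⟩]⟩]⟩]], [], [], [], [[], [], [], [], [], [⟨nat_lit 5, [⟨nat_lit 6, [⟨nat_lit 2, nat_lit 5184, nat_lit 7872, nat_lit 15648, nat_lit 15504, nat_lit 3888, R1_326, R1_323, R1_81⟩, ⟨nat_lit 6, nat_lit 4272, nat_lit 7920, nat_lit 15696, nat_lit 18864, nat_lit 5040, R1_327, R10_393, R10_105⟩]⟩]⟩]]], [[[⟨nat_lit 0, [⟨nat_lit 5, [⟨nat_lit 4, nat_lit 13152, nat_lit 1344, nat_lit 4512, nat_lit 10320, nat_lit 1728, R5_94, R6_215, R7_36⟩, ⟨nat_lit 5, nat_lit 13440, nat_lit 7344, nat_lit 6096, nat_lit 11232, nat_lit 288, R5_127, R8_234, R2_6⟩]⟩]⟩,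
 ⟨nat_lit 2, [⟨nat_lit 1, [⟨nat_lit 4, nat_lit 13968, nat_lit 960, nat_lit 3456, nat_lit 2976, nat_lit 1680, R1_72, R4_62, R4_35⟩, ⟨nat_lit 5, nat_lit 14112, nat_lit 6960, nat_lit 3648, nat_lit 3216, nat_lit 12576, R1_76, R5_67, R3_262⟩]⟩, ⟨nat_lit 5, [⟨nat_lit 4, nat_lit 13200, nat_lit 1536, nat_lit 4512, nat_lit 4272, nat_lit 1776, R11_94, R4_89, R7_37⟩, ⟨nat_lit 5, nat_lit 13488, nat_lit 7536, nat_lit 5712, nat_lit 3120, nat_lit 336, R11_119, R5_65, R2_7⟩]⟩]⟩], [⟨nat_lit 0, [⟨nat_lit 5, [⟨nat_lit 4, nat_lit 15984, nat_lit 18768, nat_lit 4560, nat_lit 10608, nat_lit 8400, R5_95, R6_221, R14_175⟩, ⟨nat_lit 5, nat_lit 16800, nat_lit 19344, nat_lit 6144, nat_lit 11952, nat_lit 7008, R5_128, R8_249, R12_146⟩, ⟨nat_lit 6, nat_lit 17664, nat_lit 19680, nat_lit 5280, nat_lit 11472, nat_lit 2880, R5_110, R4_239, R12_60⟩]⟩]⟩,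
 ⟨nat_lit 2, [⟨nat_lit 5, [⟨nat_lit 4, nat_lit 16032, nat_lit 21888, nat_lit 4560, nat_lit 12048, nat_lit 8544, R11_95, R4_251, R14_178⟩, ⟨nat_lit 5, nat_lit 16848, nat_lit 22416, nat_lit 5760, nat_lit 14256, nat_lit 7152, R11_120, R5_297, R12_149⟩]⟩]⟩]], [], [[⟨nat_lit 0, [⟨nat_lit 5, [⟨nat_lit 5, nat_lit 13584, nat_lit 5568, nat_lit 7008, nat_lit 7728, nat_lit 6000, R5_146, R5_161, R2_125⟩]⟩]⟩,
 ⟨nat_lit 2, [⟨nat_lit 1, [⟨nat_lit 5, nat_lit 14160, nat_lit 5136, nat_lit 3792, nat_lit 9408, nat_lit 13344, R1_79, R11_196, R3_278⟩]⟩, ⟨nat_lit 5, [⟨nat_lit 5, nat_lit 13632, nat_lit 5760, nat_lit 6624, nat_lit 7344, nat_lit 6048, R11_138, R11_153, R2_126⟩]⟩]⟩], [⟨nat_lit 0, [⟨nat_lit 5, [⟨nat_lit 5, nat_lit 16944, nat_lit 15936, nat_lit 7056, nat_lit 7824, nat_lit 7824, R5_147, R5_163, R12_163⟩]⟩]⟩,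
 ⟨nat_lit 2, [⟨nat_lit 5, [⟨nat_lit 5, nat_lit 16992, nat_lit 17232, nat_lit 6672, nat_lit 7440, nat_lit 7872, R11_139, R11_155, R12_164⟩]⟩]⟩], [⟨nat_lit 0, [⟨nat_lit 5, [⟨nat_lit 5, nat_lit 19056, nat_lit 4272, nat_lit 7104, nat_lit 7776, nat_lit 4704, R5_148, R5_162, R1_98⟩]⟩]⟩,
 ⟨nat_lit 2, [⟨nat_lit 1, [⟨nat_lit 1, nat_lit 19296, nat_lit 15504, nat_lit 3888, nat_lit 7872, nat_lit 15648, R1_81, R1_164, R1_326⟩, ⟨nat_lit 5, nat_lit 19200, nat_lit 3840, nat_lit 3840, nat_lit 9456, nat_lit 19200, R1_80, R11_197, R10_400⟩]⟩, ⟨nat_lit 5, [⟨nat_lit 5, nat_lit 19104, nat_lit 4464, nat_lit 6720, nat_lit 7392, nat_lit 4752, R11_140, R11_154, R1_99⟩]⟩]⟩]], [[⟨nat_lit 0, [⟨nat_lit 5, [⟨nat_lit 4, nat_lit 13296, nat_lit 192, nat_lit 4896, nat_lit 9696, nat_lit 8352, R5_102, R13_202, R7_174⟩, ⟨nat_lit 5, nat_lit 13728,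 nat_lit 7200, nat_lit 6624, nat_lit 7632, nat_lit 7296, R5_138, R9_159, R2_152⟩, ⟨nat_lit 7, nat_lit 13824, nat_lit 5904, nat_lit 5520, nat_lit 9888, nat_lit 5328, R5_115, R3_206, R2_111⟩]⟩]⟩,
 ⟨nat_lit 2, [⟨nat_lit 1, [⟨nat_lit 4, nat_lit 14016, nat_lit 2352, nat_lit 3504, nat_lit 9792, nat_lit 8400, R1_73, R3_204, R4_175⟩]⟩, ⟨nat_lit 5, [⟨nat_lit 4, nat_lit 13344, nat_lit 624, nat_lit 4896, nat_lit 10752, nat_lit 8400, R11_102, R3_224, R7_175⟩, ⟨nat_lit 7, nat_lit 13872, nat_lit 6336, nat_lit 5136, nat_lit 6816, nat_lit 5376, R11_107, R10_142, R2_112⟩]⟩]⟩], [⟨nat_lit 0, [⟨nat_lit 5, [⟨nat_lit 4, nat_lit 16176, nat_lit 528, nat_lit 4944, nat_lit 9744, nat_lit 9696, R5_103, R13_203, R14_202⟩, ⟨nat_lit 5, nat_lit 17136, nat_lit 1728, nat_lit 6672, nat_lit 7680, nat_lit 8592, R5_139, R9_160, R12_179⟩, ⟨nat_lit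 6, nat_lit 17808, nat_lit 2640, nat_lit 5472, nat_lit 7584, nat_lit 3360, R5_114, R3_158, R12_70⟩, ⟨nat_lit 7, nat_lit 18192, nat_lit 672, nat_lit 5616, nat_lit 10224, nat_lit 3552, R5_117, R3_213, R12_74⟩]⟩]⟩,
 ⟨nat_lit 2, [⟨nat_lit 5, [⟨nat_lit 4, nat_lit 16224, nat_lit 10512, nat_lit 4944, nat_lit 10992, nat_lit 9936, R11_103, R3_229, R14_207⟩, ⟨nat_lit 7, nat_lit 18240, nat_lit 10896, nat_lit 5232, nat_lit 6912, nat_lit 3792, R11_109, R10_144, R12_79⟩]⟩]⟩], [], [⟨nat_lit 0, [⟨nat_lit 5, [⟨nat_lit 7, nat_lit 19488, nat_lit 4608, nat_lit 5568, nat_lit 10032, nat_lit 4032, R5_116, R3_209, R1_84⟩]⟩]⟩,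
 ⟨nat_lit 2, [⟨nat_lit 1, [⟨nat_lit 4, nat_lit 19632, nat_lit 1824, nat_lit 3552, nat_lit 10080, nat_lit 5712, R1_74, R3_210, R5_119⟩, ⟨nat_lit 7, nat_lit 19968, nat_lit 7248, nat_lit 3600, nat_lit 8496, nat_lit 21408, R1_75, R10_177, R11_446⟩]⟩, ⟨nat_lit 5, [⟨nat_lit 7, nat_lit 19536, nat_lit 5040, nat_lit 5184, nat_lit 6864, nat_lit 4080, R11_108, R10_143, R1_85⟩]⟩]⟩]]], [[[], [], [], [], [], [⟨nat_lit 0, [⟨nat_lit 4, [⟨nat_lit 4, nat_lit 2976, nat_lit 1152, nat_lit 4560, nat_lit 5280, nat_lit 12288, R13_95, R6_110, R4_256⟩, ⟨nat_lit 6, nat_lit 3648, nat_lit 3552, nat_lit 6192, nat_lit 5568, nat_lit 8832, R13_129, R4_116, R3_184⟩]⟩, ⟨nat_lit 6, [⟨nat_lit 6, nat_lit 4320, nat_lit 4320, nat_lit 4464, nat_lit 7296, nat_lit 4752, R3_93, R4_152, R10_99⟩]⟩, ⟨nat_lit 7, [⟨nat_lit 4, nat_lit 5664, nat_lit 1440, nat_lit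 432, nat_lit 6624, nat_lit 14352, R3_9, R6_138, R5_299⟩]⟩]⟩,
 ⟨nat_lit 1, [⟨nat_lit 4, [⟨nat_lit 4, nat_lit 3072, nat_lit 9504, nat_lit 15360, nat_lit 19104, nat_lit 14736, R9_320, R8_398, R4_307⟩, ⟨nat_lit 6, nat_lit 3696, nat_lit 11760, nat_lit 15648, nat_lit 12288, nat_lit 9312, R9_326, R5_256, R3_194⟩]⟩]⟩,
 ⟨nat_lit 2, [⟨nat_lit 4, [⟨nat_lit 4, nat_lit 3024, nat_lit 13200, nat_lit 15264, nat_lit 14592, nat_lit 13248, R3_318, R4_304, R4_276⟩]⟩, ⟨nat_lit 7, [⟨nat_lit 4, nat_lit 5712, nat_lit 13344, nat_lit 2928, nat_lit 14880, nat_lit 16224, R10_61, R4_310, R5_338⟩]⟩]⟩]], [], [], [[], [⟨nat_lit 0, [⟨nat_lit 4, [⟨nat_lit 4, nat_lit 14736, nat_lit 240, nat_lit 5136, nat_lit 5952, nat_lit 13632, R13_107, R13_124, R7_284⟩, ⟨nat_lit 6, nat_lit 15216, nat_lit 384, nat_lit 6720, nat_lit 4224, nat_lit 12384, R13_140,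 R3_88, R2_258⟩, ⟨nat_lit 7, nat_lit 15504, nat_lit 288, nat_lit 7104, nat_lit 4176, nat_lit 12432, R13_148, R3_87, R2_259⟩]⟩, ⟨nat_lit 5, [⟨nat_lit 4, nat_lit 16368, nat_lit 1920, nat_lit 4080, nat_lit 9456, nat_lit 9648, R9_85, R13_197, R14_201⟩, ⟨nat_lit 5, nat_lit 17280, nat_lit 2064, nat_lit 6576, nat_lit 7344, nat_lit 8544, R9_137, R9_153, R12_178⟩, ⟨nat_lit 6, nat_lit 17952, nat_lit 2352, nat_lit 4992, nat_lit 7488, nat_lit 3312, R9_104, R3_156, R12_69⟩, ⟨nat_lit 7, nat_lit 18336, nat_lit 1968, nat_lit 5232, nat_lit 7440, nat_lit 3456, R9_109, R3_155, R12_72⟩]⟩, ⟨nat_lit 6, [⟨nat_lit 6, nat_lit 18768, nat_lit 2544, nat_lit 5088, nat_lit 5952, nat_lit 12960, R3_106, R3_124, R1_270⟩]⟩, ⟨nat_lit 7, [⟨nat_lit 7, nat_lit 18912, nat_lit 528, nat_lit 5136, nat_lit 5904, nat_lit 13008, R3_107, R3_123, R1_271⟩]⟩]⟩,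
 ⟨nat_lit 1, [⟨nat_lit 4, [⟨nat_lit 4, nat_lit 14832, nat_lit 8544, nat_lit 15504, nat_lit 11232, nat_lit 16992, R9_323, R9_234, R7_354⟩]⟩]⟩,
 ⟨nat_lit 2, [⟨nat_lit 4, [⟨nat_lit 4, nat_lit 14784, nat_lit 11184, nat_lit 15408, nat_lit 10416, nat_lit 14496, R3_321, R3_217, R7_302⟩, ⟨nat_lit 7, nat_lit 15552, nat_lit 11280, nat_lit 15744, nat_lit 3984, nat_lit 14208, R3_328, R10_83, R2_296⟩]⟩, ⟨nat_lit 7, [⟨nat_lit 7, nat_lit 18960, nat_lit 11520, nat_lit 4224, nat_lit 5088, nat_lit 15744, R10_88, R10_106, R1_328⟩]⟩]⟩,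
 ⟨nat_lit 3, [⟨nat_lit 4, [⟨nat_lit 4, nat_lit 14880, nat_lit 5952, nat_lit 15456, nat_lit 10320, nat_lit 14976, R3_322, R3_215, R7_312⟩, ⟨nat_lit 6, nat_lit 15312, nat_lit 6048, nat_lit 15792, nat_lit 12336, nat_lit 14160, R3_329, R10_257, R2_295⟩]⟩, ⟨nat_lit 6, [⟨nat_lit 6, nat_lit 18864, nat_lit 7920, nat_lit 19344, nat_lit 12624, nat_lit 15696, R10_403, R10_263, R1_327⟩]⟩]⟩], [], [], [], [⟨nat_lit 0, [⟨nat_lit 4, [⟨nat_lit 4, nat_lit 3168, nat_lit 9504, nat_lit 5088, nat_lit 6000, nat_lit 12336, R13_106, R13_125, R4_257⟩, ⟨nat_lit 6, nat_lit 3792, nat_lit 9696, nat_lit 6672, nat_lit 4272, nat_lit 8928, R13_139, R3_89, R3_186⟩]⟩, ⟨nat_lit 6, [⟨nat_lit 6, nat_lit 4464, nat_lit 10224, nat_lit 5040, nat_lit 6000, nat_lit 4848, R3_105, R3_125, R10_101⟩]⟩, ⟨nat_lit 7, [⟨nat_lit 4, nat_lit 5856, nat_lit 9840, nat_lit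 4032, nat_lit 7632, nat_lit 14736, R3_84, R13_159, R5_307⟩, ⟨nat_lit 7, nat_lit 6576, nat_lit 9984, nat_lit 5760, nat_lit 5424, nat_lit 5376, R3_120, R3_113, R11_112⟩]⟩]⟩,
 ⟨nat_lit 1, [⟨nat_lit 4, [⟨nat_lit 4, nat_lit 3264, nat_lit 9552, nat_lit 15408, nat_lit 11424, nat_lit 14784, R9_321, R9_238, R4_308⟩]⟩]⟩,
 ⟨nat_lit 2, [⟨nat_lit 4, [⟨nat_lit 4, nat_lit 3216, nat_lit 9648, nat_lit 15312, nat_lit 10464, nat_lit 13296, R3_319, R3_218, R4_277⟩]⟩, ⟨nat_lit 7, [⟨nat_lit 4, nat_lit 5904, nat_lit 9936, nat_lit 3600, nat_lit 10512, nat_lit 16512, R10_75, R3_219, R5_344⟩, ⟨nat_lit 7, nat_lit 6624, nat_lit 10080, nat_lit 4176, nat_lit 5136, nat_lit 5424, R10_87, R10_107, R11_113⟩]⟩]⟩,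
 ⟨nat_lit 3, [⟨nat_lit 4, [⟨nat_lit 4, nat_lit 3312, nat_lit 9600, nat_lit 8640, nat_lit 16800, nat_lit 13728, R3_180, R3_350, R4_286⟩, ⟨nat_lit 6, nat_lit 3888, nat_lit 9792, nat_lit 9072, nat_lit 12480, nat_lit 9072, R3_189, R10_260, R3_189⟩]⟩, ⟨nat_lit 6, [⟨nat_lit 6, nat_lit 4560, nat_lit 10320, nat_lit 19248, nat_lit 12672, nat_lit 4896, R10_401, R10_264, R10_102⟩]⟩]⟩]]], [[], [], [], [[], [], [], [], [], [], [], [⟨nat_lit 2, [⟨nat_lit 0, [⟨nat_lit 7, nat_lit 12192, nat_lit 10896, nat_lit 13824, nat_lit 7104, nat_lit 13968, R4_288, R10_148, R2_291⟩]⟩, ⟨nat_lit 3, [⟨nat_lit 7, nat_lit 12912, nat_lit 11232, nat_lit 15552, nat_lit 7536, nat_lit 3648, R5_324, R10_157, R12_76⟩]⟩]⟩]], [[], [], [], [], [⟨nat_lit 2, [⟨nat_lit 0, [⟨nat_lit 0, nat_lit 0, nat_lit 15120, nat_lit 12240, nat_lit 1920, nat_lit 672, R4_255,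 R4_40, R6_14⟩, ⟨nat_lit 3, nat_lit 336, nat_lit 15216, nat_lit 12288, nat_lit 1152, nat_lit 4560, R4_256, R5_24, R13_95⟩]⟩, ⟨nat_lit 3, [⟨nat_lit 3, nat_lit 2448, nat_lit 15792, nat_lit 14352, nat_lit 1440, nat_lit 432, R5_299, R5_30, R3_9⟩]⟩]⟩,
 ⟨nat_lit 4, [⟨nat_lit 2, [⟨nat_lit 2, nat_lit 1296, nat_lit 4128, nat_lit 1728, nat_lit 1344, nat_lit 4512, R7_36, R7_28, R5_94⟩]⟩]⟩,
 ⟨nat_lit 6, [⟨nat_lit 0, [⟨nat_lit 0, nat_lit 48, nat_lit 10656, nat_lit 13440, nat_lit 2112, nat_lit 144, R7_280, R7_44, R6_3⟩]⟩, ⟨nat_lit 2, [⟨nat_lit 0, nat_lit 960, nat_lit 11376, nat_lit 8352, nat_lit 2304, nat_lit 1200, R14_174, R7_48, R8_25⟩, ⟨nat_lit 2, nat_lit 1344, nat_lit 11616, nat_lit 8400, nat_lit 18672, nat_lit 4560, R14_175, R14_389, R5_95⟩]⟩]⟩], [⟨nat_lit 2, [⟨nat_lit 0, [⟨nat_lit 0, nat_lit 6960, nat_lit 14544, nat_lit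 13104, nat_lit 10848, nat_lit 8880, R4_273, R4_226, R4_185⟩, ⟨nat_lit 3, nat_lit 7152, nat_lit 14592, nat_lit 13248, nat_lit 13200, nat_lit 15264, R4_276, R5_275, R3_318⟩]⟩, ⟨nat_lit 3, [⟨nat_lit 3, nat_lit 8544, nat_lit 14880, nat_lit 16224, nat_lit 13344, nat_lit 2928, R5_338, R5_278, R10_61⟩]⟩]⟩,
 ⟨nat_lit 4, [⟨nat_lit 2, [⟨nat_lit 2, nat_lit 7584, nat_lit 4272, nat_lit 1776, nat_lit 1536, nat_lit 4512, R7_37, R7_32, R11_94⟩]⟩, ⟨nat_lit 6, [⟨nat_lit 2, nat_lit 5232, nat_lit 2976, nat_lit 1680, nat_lit 960, nat_lit 3456, R4_35, R7_20, R1_72⟩, ⟨nat_lit 6, nat_lit 4608, nat_lit 2832, nat_lit 1152, nat_lit 912, nat_lit 4032, R4_24, R4_19, R10_84⟩]⟩]⟩,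
 ⟨nat_lit 6, [⟨nat_lit 0, [⟨nat_lit 0, nat_lit 7008, nat_lit 11520, nat_lit 14256, nat_lit 11424, nat_lit 13488, R7_297, R7_238, R4_281⟩]⟩, ⟨nat_lit 2, [⟨nat_lit 0, nat_lit 7344, nat_lit 11952, nat_lit 8496, nat_lit 11616, nat_lit 14976, R14_177, R7_242, R5_312⟩, ⟨nat_lit 2, nat_lit 7632, nat_lit 12048, nat_lit 8544, nat_lit 19584, nat_lit 4560, R14_178, R14_408, R11_95⟩]⟩]⟩,
 ⟨nat_lit 7, [⟨nat_lit 6, [⟨nat_lit 6, nat_lit 4656, nat_lit 8016, nat_lit 144, nat_lit 4080, nat_lit 4080, R5_3, R5_85, R10_85⟩]⟩]⟩], [⟨nat_lit 2, [⟨nat_lit 0, [⟨nat_lit 0, nat_lit 8736, nat_lit 18240, nat_lit 14640, nat_lit 7440, nat_lit 5232, R4_305, R4_155, R8_109⟩, ⟨nat_lit 3, nat_lit 9456, nat_lit 19104, nat_lit 14736, nat_lit 9504, nat_lit 15360, R4_307, R5_198, R9_320⟩]⟩]⟩,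
 ⟨nat_lit 6, [⟨nat_lit 0, [⟨nat_lit 0, nat_lit 8784, nat_lit 11376, nat_lit 16752, nat_lit 7584, nat_lit 13008, R7_349, R7_158, R8_271⟩]⟩, ⟨nat_lit 2, [⟨nat_lit 0, nat_lit 10416, nat_lit 11520, nat_lit 8976, nat_lit 7728, nat_lit 528, R14_187, R7_161, R9_11⟩]⟩]⟩]], [], [[], [], [], [], [], [], [⟨nat_lit 2, [⟨nat_lit 0, [⟨nat_lit 0, nat_lit 8832, nat_lit 13248, nat_lit 14688, nat_lit 2400, nat_lit 5616, R4_306, R3_50, R8_117⟩, ⟨nat_lit 1, nat_lit 9264, nat_lit 13344, nat_lit 14880, nat_lit 8544, nat_lit 16224, R4_310, R10_178, R5_338⟩]⟩]⟩,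
 ⟨nat_lit 6, [⟨nat_lit 0, [⟨nat_lit 0, nat_lit 8880, nat_lit 12960, nat_lit 16944, nat_lit 6384, nat_lit 13248, R7_353, R2_133, R8_276⟩, ⟨nat_lit 1, nat_lit 9312, nat_lit 13008, nat_lit 17184, nat_lit 5088, nat_lit 16272, R7_358, R1_106, R5_339⟩]⟩, ⟨nat_lit 2, [⟨nat_lit 0, nat_lit 10464, nat_lit 14016, nat_lit 11280, nat_lit 6576, nat_lit 5808, R14_235, R2_137, R9_121⟩]⟩]⟩]], [[], [], [], [], [⟨nat_lit 2, [⟨nat_lit 0, [⟨nat_lit 3, nat_lit 384, nat_lit 13776, nat_lit 12336, nat_lit 9504, nat_lit 5088, R4_257, R11_198, R13_106⟩]⟩, ⟨nat_lit 3, [⟨nat_lit 3, nat_lit 2496, nat_lit 13920, nat_lit 14736, nat_lit 9840, nat_lit 4032, R5_307, R11_205, R3_84⟩, ⟨nat_lit 7, nat_lit 2256, nat_lit 13968, nat_lit 14592, nat_lit 6672, nat_lit 3504, R5_304, R1_139, R2_73⟩]⟩]⟩,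
 ⟨nat_lit 4, [⟨nat_lit 2, [⟨nat_lit 2, nat_lit 1392, nat_lit 14400, nat_lit 8352, nat_lit 192, nat_lit 4896, R7_174, R2_4, R5_102⟩]⟩]⟩,
 ⟨nat_lit 6, [⟨nat_lit 0, [⟨nat_lit 0, nat_lit 96, nat_lit 13632, nat_lit 13536, nat_lit 912, nat_lit 4992, R7_282, R2_19, R6_104⟩, ⟨nat_lit 3, nat_lit 432, nat_lit 13680, nat_lit 13632, nat_lit 240, nat_lit 5136, R7_284, R1_5, R13_107⟩]⟩, ⟨nat_lit 2, [⟨nat_lit 0, nat_lit 1008, nat_lit 14880, nat_lit 9600, nat_lit 2448, nat_lit 7104, R14_200, R2_51, R8_148⟩, ⟨nat_lit 2, nat_lit 1440, nat_lit 14976, nat_lit 9696, nat_lit 336, nat_lit 4944, R14_202, R12_7, R5_103⟩, ⟨nat_lit 3, nat_lit 2064, nat_lit 14928, nat_lit 9648, nat_lit 1920, nat_lit 4080, R14_201, R1_40, R9_85⟩]⟩]⟩], [⟨nat_lit 2, [⟨nat_lit 0, [⟨nat_lit 3, nat_lit 7200, nat_lit 10464, nat_lit 13296, nat_lit 9648, nat_lit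 15312, R4_277, R11_201, R3_319⟩]⟩, ⟨nat_lit 3, [⟨nat_lit 3, nat_lit 8592, nat_lit 10512, nat_lit 16512, nat_lit 9936, nat_lit 3600, R5_344, R11_207, R10_75⟩, ⟨nat_lit 7, nat_lit 8400, nat_lit 10560, nat_lit 16464, nat_lit 6768, nat_lit 2976, R5_343, R1_141, R1_62⟩]⟩]⟩,
 ⟨nat_lit 4, [⟨nat_lit 2, [⟨nat_lit 2, nat_lit 7680, nat_lit 10752, nat_lit 8400, nat_lit 624, nat_lit 4896, R7_175, R2_13, R11_102⟩]⟩, ⟨nat_lit 6, [⟨nat_lit 2, nat_lit 5280, nat_lit 9792, nat_lit 8400, nat_lit 2352, nat_lit 3504, R4_175, R2_49, R1_73⟩]⟩]⟩,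
 ⟨nat_lit 6, [⟨nat_lit 0, [⟨nat_lit 0, nat_lit 7056, nat_lit 10368, nat_lit 14352, nat_lit 10800, nat_lit 13632, R7_299, R2_225, R4_284⟩, ⟨nat_lit 3, nat_lit 7248, nat_lit 10416, nat_lit 14496, nat_lit 11184, nat_lit 15408, R7_302, R1_233, R3_321⟩]⟩, ⟨nat_lit 2, [⟨nat_lit 0, nat_lit 7392, nat_lit 10896, nat_lit 9840, nat_lit 11136, nat_lit 15456, R14_205, R2_232, R5_322⟩, ⟨nat_lit 2, nat_lit 7728, nat_lit 10992, nat_lit 9936, nat_lit 2400, nat_lit 4944, R14_207, R12_50, R11_103⟩]⟩]⟩,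
 ⟨nat_lit 7, [⟨nat_lit 6, [⟨nat_lit 2, nat_lit 5328, nat_lit 10080, nat_lit 5712, nat_lit 1824, nat_lit 3552, R5_119, R1_38, R1_74⟩, ⟨nat_lit 6, nat_lit 4704, nat_lit 10128, nat_lit 5808, nat_lit 4080, nat_lit 4128, R5_121, R11_85, R10_86⟩]⟩]⟩], [⟨nat_lit 2, [⟨nat_lit 0, [⟨nat_lit 3, nat_lit 9552, nat_lit 11424, nat_lit 14784, nat_lit 9552, nat_lit 15408, R4_308, R11_199, R9_321⟩]⟩]⟩,
 ⟨nat_lit 6, [⟨nat_lit 0, [⟨nat_lit 0, nat_lit 8928, nat_lit 11184, nat_lit 16848, nat_lit 8016, nat_lit 13104, R7_351, R2_167, R8_273⟩, ⟨nat_lit 3, nat_lit 9600, nat_lit 11232, nat_lit 16992, nat_lit 8544, nat_lit 15504, R7_354, R1_178, R9_323⟩]⟩, ⟨nat_lit 2, [⟨nat_lit 0, nat_lit 10512, nat_lit 12720, nat_lit 10752, nat_lit 10080, nat_lit 7776, R14_224, R2_210, R9_162⟩]⟩]⟩], [⟨nat_lit 2, [⟨nat_lit 0, [⟨nat_lit 3, nat_lit 12384,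 nat_lit 16800, nat_lit 13728, nat_lit 9600, nat_lit 8640, R4_286, R11_200, R3_180⟩, ⟨nat_lit 7, nat_lit 12240, nat_lit 16704, nat_lit 13776, nat_lit 5904, nat_lit 13920, R4_287, R1_123, R2_290⟩]⟩, ⟨nat_lit 3, [⟨nat_lit 7, nat_lit 12960, nat_lit 17232, nat_lit 16128, nat_lit 6720, nat_lit 3600, R5_336, R1_140, R12_75⟩]⟩]⟩,
 ⟨nat_lit 6, [⟨nat_lit 0, [⟨nat_lit 3, nat_lit 12432, nat_lit 10320, nat_lit 14976, nat_lit 5952, nat_lit 15456, R7_312, R1_124, R3_322⟩]⟩]⟩]]], [[], [], [], [], [[], [], [], [], [⟨nat_lit 4, [⟨nat_lit 2, [⟨nat_lit 2, nat_lit 1584, nat_lit 11232, nat_lit 288, nat_lit 7344, nat_lit 6096, R2_6, R7_153, R5_127⟩]⟩]⟩,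
 ⟨nat_lit 6, [⟨nat_lit 2, [⟨nat_lit 0, nat_lit 1152, nat_lit 3984, nat_lit 6960, nat_lit 2400, nat_lit 1392, R12_145, R7_50, R8_29⟩, ⟨nat_lit 2, nat_lit 1632, nat_lit 11952, nat_lit 7008, nat_lit 20160, nat_lit 6144, R12_146, R14_420, R5_128⟩]⟩]⟩], [⟨nat_lit 4, [⟨nat_lit 2, [⟨nat_lit 2, nat_lit 7776, nat_lit 3120, nat_lit 336, nat_lit 7536, nat_lit 5712, R2_7, R7_157, R11_119⟩]⟩, ⟨nat_lit 6, [⟨nat_lit 2, nat_lit 5376, nat_lit 3216, nat_lit 12576, nat_lit 6960, nat_lit 3648, R3_262, R7_145, R1_76⟩, ⟨nat_lit 6, nat_lit 4752, nat_lit 4320, nat_lit 4464, nat_lit 7296, nat_lit 4320, R3_93, R4_152, R10_90⟩]⟩]⟩,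
 ⟨nat_lit 6, [⟨nat_lit 2, [⟨nat_lit 0, nat_lit 7440, nat_lit 13728, nat_lit 7104, nat_lit 11712, nat_lit 15120, R12_148, R7_244, R5_315⟩, ⟨nat_lit 2, nat_lit 7824, nat_lit 14256, nat_lit 7152, nat_lit 21456, nat_lit 5760, R12_149, R14_447, R11_120⟩]⟩]⟩]], [[], [], [], [], [⟨nat_lit 4, [⟨nat_lit 2, [⟨nat_lit 2, nat_lit 1680, nat_lit 7728, nat_lit 6000, nat_lit 5568, nat_lit 7008, R2_125, R2_116, R5_146⟩]⟩]⟩,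
 ⟨nat_lit 6, [⟨nat_lit 2, [⟨nat_lit 2, nat_lit 1728, nat_lit 7824, nat_lit 7824, nat_lit 15936, nat_lit 7056, R12_163, R12_332, R5_147⟩]⟩]⟩], [⟨nat_lit 4, [⟨nat_lit 2, [⟨nat_lit 2, nat_lit 7872, nat_lit 7344, nat_lit 6048, nat_lit 5760, nat_lit 6624, R2_126, R2_120, R11_138⟩]⟩, ⟨nat_lit 6, [⟨nat_lit 2, nat_lit 5424, nat_lit 9408, nat_lit 13344, nat_lit 5136, nat_lit 3792, R3_278, R2_107, R1_79⟩, ⟨nat_lit 6, nat_lit 4848, nat_lit 10224, nat_lit 5040, nat_lit 6000, nat_lit 4464, R3_105, R3_125, R10_93⟩]⟩]⟩,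
 ⟨nat_lit 5, [⟨nat_lit 2, [⟨nat_lit 2, nat_lit 7968, nat_lit 7392, nat_lit 4752, nat_lit 4464, nat_lit 6720, R1_99, R1_93, R11_140⟩]⟩, ⟨nat_lit 6, [⟨nat_lit 2, nat_lit 5472, nat_lit 9456, nat_lit 5472, nat_lit 3840, nat_lit 3840, R10_114, R1_80, R1_80⟩, ⟨nat_lit 6, nat_lit 4896, nat_lit 10320, nat_lit 4896, nat_lit 4560, nat_lit 4560, R10_102, R10_95, R10_95⟩]⟩]⟩,
 ⟨nat_lit 6, [⟨nat_lit 2, [⟨nat_lit 2, nat_lit 7920, nat_lit 7440, nat_lit 7872, nat_lit 17232, nat_lit 6672, R12_164, R12_359, R11_139⟩]⟩]⟩]], [], [[], [], [], [], [⟨nat_lit 4, [⟨nat_lit 2, [⟨nat_lit 2, nat_lit 1824, nat_lit 7632, nat_lit 7296, nat_lit 7200, nat_lit 6624, R2_152, R2_150, R5_138⟩]⟩]⟩,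
 ⟨nat_lit 6, [⟨nat_lit 2, [⟨nat_lit 0, nat_lit 1200, nat_lit 6480, nat_lit 8496, nat_lit 2592, nat_lit 7344, R12_177, R2_54, R8_153⟩, ⟨nat_lit 2, nat_lit 1872, nat_lit 7680, nat_lit 8592, nat_lit 7440, nat_lit 6672, R12_179, R12_155, R5_139⟩]⟩]⟩]]], [[[⟨nat_lit 2, [⟨nat_lit 1, [⟨nat_lit 4, nat_lit 14064, nat_lit 912, nat_lit 4032, nat_lit 2832, nat_lit 1152, R10_84, R4_59, R4_24⟩, ⟨nat_lit 5, nat_lit 14256, nat_lit 7296, nat_lit 4320, nat_lit 4320, nat_lit 4464, R10_90, R5_90, R3_93⟩]⟩]⟩], [], [], [⟨nat_lit 2, [⟨nat_lit 1, [⟨nat_lit 4, nat_lit 19680, nat_lit 4080, nat_lit 4080, nat_lit 8016, nat_lit 144, R10_85, R4_167, R5_3⟩]⟩]⟩]], [], [[⟨nat_lit 2, [⟨nat_lit 1, [⟨nat_lit 5, nat_lit 14304, nat_lit 6000, nat_lit 4464, nat_lit 10224, nat_lit 5040, R10_93, R11_213, R3_105⟩]⟩]⟩], [], [⟨nat_lit 2, [⟨nat_lit 1, [⟨nat_lit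 1, nat_lit 19344, nat_lit 12720, nat_lit 5040, nat_lit 7920, nat_lit 15696, R10_105, R1_165, R1_327⟩, ⟨nat_lit 5, nat_lit 19248, nat_lit 12672, nat_lit 4560, nat_lit 10320, nat_lit 19248, R10_95, R11_215, R10_401⟩]⟩]⟩]], [[], [], [], [⟨nat_lit 2, [⟨nat_lit 1, [⟨nat_lit 4, nat_lit 19728, nat_lit 16560, nat_lit 4128, nat_lit 10128, nat_lit 5808, R10_86, R3_211, R5_121⟩, ⟨nat_lit 7, nat_lit 20016, nat_lit 16656, nat_lit 4176, nat_lit 8640, nat_lit 21456, R10_87, R10_180, R11_447⟩]⟩]⟩], [], [], [], [⟨nat_lit 2, [⟨nat_lit 0, [⟨nat_lit 7, nat_lit 12288, nat_lit 11280, nat_lit 15744, nat_lit 7296, nat_lit 14208, R3_328, R10_152, R2_296⟩]⟩, ⟨nat_lit 1, [⟨nat_lit 7, nat_lit 12576, nat_lit 11520, nat_lit 4224, nat_lit 8688, nat_lit 15744, R10_88, R10_181, R1_328⟩]⟩]⟩]], [[], [], [], [], [⟨nat_lit 2, [⟨nat_lit 0, [⟨nat_lit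 0, nat_lit 144, nat_lit 336, nat_lit 3024, nat_lit 2112, nat_lit 1248, R3_63, R4_44, R6_26⟩, ⟨nat_lit 3, nat_lit 480, nat_lit 5568, nat_lit 8832, nat_lit 3552, nat_lit 6192, R3_184, R5_74, R13_129⟩]⟩, ⟨nat_lit 1, [⟨nat_lit 0, nat_lit 672, nat_lit 912, nat_lit 4608, nat_lit 2832, nat_lit 1152, R10_96, R4_59, R4_24⟩, ⟨nat_lit 3, nat_lit 816, nat_lit 7296, nat_lit 4752, nat_lit 4320, nat_lit 4464, R10_99, R5_90, R3_93⟩]⟩]⟩,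
 ⟨nat_lit 6, [⟨nat_lit 0, [⟨nat_lit 0, nat_lit 192, nat_lit 384, nat_lit 12144, nat_lit 2160, nat_lit 1008, R2_253, R7_45, R6_21⟩]⟩, ⟨nat_lit 1, [⟨nat_lit 0, nat_lit 720, nat_lit 1296, nat_lit 12720, nat_lit 2736, nat_lit 624, R1_265, R7_57, R4_13⟩]⟩, ⟨nat_lit 2, [⟨nat_lit 0, nat_lit 1056, nat_lit 2688, nat_lit 2832, nat_lit 2544, nat_lit 1296, R12_59, R7_53, R8_27⟩, ⟨nat_lit 2, nat_lit 1488, nat_lit 11472, nat_lit 2880, nat_lit 21744, nat_lit 5280, R12_60, R14_453, R5_110⟩]⟩]⟩], [], [⟨nat_lit 2, [⟨nat_lit 0, [⟨nat_lit 0, nat_lit 8976, nat_lit 3936, nat_lit 3264, nat_lit 7632, nat_lit 5280, R3_68, R4_159, R8_110⟩, ⟨nat_lit 3, nat_lit 9648, nat_lit 12288, nat_lit 9312, nat_lit 11760, nat_lit 15648, R3_194, R5_245, R9_326⟩]⟩, ⟨nat_lit 1, [⟨nat_lit 0, nat_lit 9888, nat_lit 4080, nat_lit 4656, nat_lit 8016, nat_lit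 144, R10_97, R4_167, R5_3⟩]⟩]⟩,
 ⟨nat_lit 6, [⟨nat_lit 0, [⟨nat_lit 0, nat_lit 9024, nat_lit 2928, nat_lit 14976, nat_lit 7632, nat_lit 13056, R2_312, R7_159, R8_272⟩]⟩, ⟨nat_lit 1, [⟨nat_lit 0, nat_lit 9936, nat_lit 2976, nat_lit 15984, nat_lit 8016, nat_lit 240, R1_333, R7_167, R5_5⟩]⟩, ⟨nat_lit 2, [⟨nat_lit 0, nat_lit 10560, nat_lit 3072, nat_lit 4224, nat_lit 7968, nat_lit 624, R12_88, R7_166, R9_13⟩]⟩]⟩]], [], [[], [], [⟨nat_lit 2, [⟨nat_lit 1, [⟨nat_lit 1, nat_lit 19392, nat_lit 11520, nat_lit 5088, nat_lit 8688, nat_lit 15744, R10_106, R10_181, R1_328⟩]⟩]⟩,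
 ⟨nat_lit 6, [⟨nat_lit 1, [⟨nat_lit 1, nat_lit 19440, nat_lit 11472, nat_lit 11376, nat_lit 15552, nat_lit 15792, R1_237, R1_324, R1_329⟩]⟩]⟩], [], [], [], [⟨nat_lit 2, [⟨nat_lit 0, [⟨nat_lit 0, nat_lit 9072, nat_lit 16176, nat_lit 3312, nat_lit 2496, nat_lit 5664, R3_69, R3_52, R8_118⟩, ⟨nat_lit 1, nat_lit 9360, nat_lit 16272, nat_lit 10512, nat_lit 8592, nat_lit 16512, R3_219, R10_179, R5_344⟩]⟩, ⟨nat_lit 1, [⟨nat_lit 0, nat_lit 9984, nat_lit 16560, nat_lit 4704, nat_lit 10128, nat_lit 5808, R10_98, R3_211, R5_121⟩, ⟨nat_lit 1, nat_lit 10128, nat_lit 16656, nat_lit 5136, nat_lit 8640, nat_lit 21456, R10_107, R10_180, R11_447⟩]⟩]⟩,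
 ⟨nat_lit 6, [⟨nat_lit 0, [⟨nat_lit 0, nat_lit 9120, nat_lit 15888, nat_lit 15168, nat_lit 6432, nat_lit 13296, R2_316, R2_134, R8_277⟩, ⟨nat_lit 1, nat_lit 9408, nat_lit 15936, nat_lit 15456, nat_lit 5136, nat_lit 16608, R2_322, R1_107, R5_346⟩]⟩, ⟨nat_lit 1, [⟨nat_lit 0, nat_lit 10032, nat_lit 16464, nat_lit 16176, nat_lit 7008, nat_lit 5952, R1_337, R2_146, R5_124⟩, ⟨nat_lit 1, nat_lit 10176, nat_lit 16512, nat_lit 16464, nat_lit 5712, nat_lit 21552, R1_343, R1_119, R11_449⟩]⟩, ⟨nat_lit 2, [⟨nat_lit 0, nat_lit 10608, nat_lit 17088, nat_lit 5568, nat_lit 6816, nat_lit 5904, R12_116, R2_142, R9_123⟩]⟩]⟩]], [[], [], [], [], [⟨nat_lit 2, [⟨nat_lit 0, [⟨nat_lit 3, nat_lit 528, nat_lit 4272, nat_lit 8928, nat_lit 9696, nat_lit 6672, R3_186, R11_202, R13_139⟩]⟩, ⟨nat_lit 1, [⟨nat_lit 3, nat_lit 864, nat_lit 6000,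 nat_lit 4848, nat_lit 10224, nat_lit 5040, R10_101, R11_213, R3_105⟩]⟩]⟩,
 ⟨nat_lit 6, [⟨nat_lit 0, [⟨nat_lit 0, nat_lit 240, nat_lit 3696, nat_lit 12240, nat_lit 1056, nat_lit 6720, R2_255, R2_22, R6_140⟩, ⟨nat_lit 3, nat_lit 576, nat_lit 4224, nat_lit 12384, nat_lit 384, nat_lit 6720, R2_258, R1_8, R13_140⟩]⟩, ⟨nat_lit 1, [⟨nat_lit 0, nat_lit 768, nat_lit 4848, nat_lit 12816, nat_lit 3072, nat_lit 7008, R1_267, R2_64, R4_146⟩, ⟨nat_lit 3, nat_lit 912, nat_lit 5952, nat_lit 12960, nat_lit 2544, nat_lit 5088, R1_270, R1_53, R3_106⟩]⟩, ⟨nat_lit 2, [⟨nat_lit 0, nat_lit 1104, nat_lit 7104, nat_lit 3264, nat_lit 2880, nat_lit 7248, R12_68, R2_60, R8_151⟩, ⟨nat_lit 2, nat_lit 1536, nat_lit 7584, nat_lit 3360, nat_lit 10368, nat_lit 5472, R12_70, R12_216, R5_114⟩, ⟨nat_lit 3, nat_lit 2112, nat_lit 7488, nat_lit 3312,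 nat_lit 2352, nat_lit 4992, R12_69, R1_49, R9_104⟩]⟩]⟩], [], [], [⟨nat_lit 2, [⟨nat_lit 0, [⟨nat_lit 3, nat_lit 12480, nat_lit 12480, nat_lit 9072, nat_lit 9792, nat_lit 9072, R3_189, R11_204, R3_189⟩, ⟨nat_lit 7, nat_lit 12336, nat_lit 12528, nat_lit 15792, nat_lit 6048, nat_lit 14160, R3_329, R1_126, R2_295⟩]⟩, ⟨nat_lit 1, [⟨nat_lit 3, nat_lit 12672, nat_lit 12672, nat_lit 4896, nat_lit 10320, nat_lit 19248, R10_102, R11_215, R10_401⟩, ⟨nat_lit 7, nat_lit 12624, nat_lit 12720, nat_lit 4272, nat_lit 7920, nat_lit 15696, R10_89, R1_165, R1_327⟩]⟩]⟩,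
 ⟨nat_lit 6, [⟨nat_lit 0, [⟨nat_lit 3, nat_lit 12528, nat_lit 12336, nat_lit 14160, nat_lit 6048, nat_lit 15792, R2_295, R1_126, R3_329⟩]⟩, ⟨nat_lit 1, [⟨nat_lit 3, nat_lit 12720, nat_lit 12624, nat_lit 15696, nat_lit 7920, nat_lit 19344, R1_327, R1_165, R10_403⟩]⟩]⟩]]], [[], [], [], [[], [], [], [], [⟨nat_lit 2, [⟨nat_lit 3, [⟨nat_lit 7, nat_lit 2352, nat_lit 6336, nat_lit 5136, nat_lit 8112, nat_lit 5376, R11_107, R10_169, R2_112⟩]⟩]⟩], [⟨nat_lit 0, [⟨nat_lit 7, [⟨nat_lit 4, nat_lit 6000, nat_lit 6672, nat_lit 3504, nat_lit 8352, nat_lit 14592, R2_73, R13_174, R5_304⟩, ⟨nat_lit 7, nat_lit 6720, nat_lit 7200, nat_lit 4896, nat_lit 13536, nat_lit 5280, R2_102, R3_282, R11_110⟩]⟩]⟩,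
 ⟨nat_lit 2, [⟨nat_lit 3, [⟨nat_lit 7, nat_lit 8448, nat_lit 5040, nat_lit 5184, nat_lit 8208, nat_lit 4080, R11_108, R10_171, R1_85⟩]⟩, ⟨nat_lit 7, [⟨nat_lit 4, nat_lit 6048, nat_lit 6768, nat_lit 2976, nat_lit 10560, nat_lit 16464, R1_62, R3_220, R5_343⟩, ⟨nat_lit 7, nat_lit 6768, nat_lit 7248, nat_lit 3600, nat_lit 5616, nat_lit 5328, R1_75, R10_117, R11_111⟩]⟩]⟩,
 ⟨nat_lit 3, [⟨nat_lit 4, [⟨nat_lit 4, nat_lit 3360, nat_lit 5904, nat_lit 13920, nat_lit 16704, nat_lit 13776, R2_290, R3_348, R4_287⟩, ⟨nat_lit 6, nat_lit 3936, nat_lit 6048, nat_lit 14160, nat_lit 12528, nat_lit 15792, R2_295, R10_261, R3_329⟩]⟩, ⟨nat_lit 6, [⟨nat_lit 6, nat_lit 5040, nat_lit 7920, nat_lit 15696, nat_lit 12720, nat_lit 4272, R1_327, R10_265, R10_89⟩]⟩, ⟨nat_lit 7, [⟨nat_lit 4, nat_lit 6096, nat_lit 6720, nat_lit 3600, nat_lit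 17232, nat_lit 16128, R12_75, R3_359, R5_336⟩]⟩]⟩], [], [⟨nat_lit 2, [⟨nat_lit 3, [⟨nat_lit 7, nat_lit 13104, nat_lit 10896, nat_lit 5232, nat_lit 8160, nat_lit 3792, R11_109, R10_170, R12_79⟩]⟩]⟩]], [], [], [], [[], [], [], [], [⟨nat_lit 2, [⟨nat_lit 3, [⟨nat_lit 3, nat_lit 2640, nat_lit 5424, nat_lit 5376, nat_lit 9984, nat_lit 5760, R11_112, R11_208, R3_120⟩, ⟨nat_lit 7, nat_lit 2400, nat_lit 13536, nat_lit 5280, nat_lit 7200, nat_lit 4896, R11_110, R1_150, R2_102⟩]⟩]⟩,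
 ⟨nat_lit 4, [⟨nat_lit 2, [⟨nat_lit 2, nat_lit 1920, nat_lit 9888, nat_lit 5328, nat_lit 5904, nat_lit 5520, R2_111, R2_123, R5_115⟩]⟩]⟩,
 ⟨nat_lit 6, [⟨nat_lit 0, [⟨nat_lit 0, nat_lit 288, nat_lit 576, nat_lit 11952, nat_lit 960, nat_lit 6336, R2_249, R2_20, R6_132⟩, ⟨nat_lit 3, nat_lit 624, nat_lit 4176, nat_lit 12432, nat_lit 288, nat_lit 7104, R2_259, R1_6, R13_148⟩]⟩, ⟨nat_lit 2, [⟨nat_lit 0, nat_lit 1248, nat_lit 2688, nat_lit 3216, nat_lit 2496, nat_lit 7152, R12_67, R2_52, R8_149⟩, ⟨nat_lit 2, nat_lit 1968, nat_lit 10224, nat_lit 3552, nat_lit 6000, nat_lit 5616, R12_74, R12_125, R5_117⟩, ⟨nat_lit 3, nat_lit 2208, nat_lit 7440, nat_lit 3456, nat_lit 1968, nat_lit 5232, R12_72, R1_41, R9_109⟩]⟩, ⟨nat_lit 3, [⟨nat_lit 3, nat_lit 2688, nat_lit 5904, nat_lit 13008, nat_lit 528, nat_lit 5136, R1_271, R1_11,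 R3_107⟩]⟩]⟩,
 ⟨nat_lit 7, [⟨nat_lit 2, [⟨nat_lit 2, nat_lit 2016, nat_lit 10032, nat_lit 4032, nat_lit 4608, nat_lit 5568, R1_84, R1_96, R5_116⟩]⟩]⟩], [⟨nat_lit 0, [⟨nat_lit 7, [⟨nat_lit 7, nat_lit 6816, nat_lit 8112, nat_lit 5376, nat_lit 6336, nat_lit 5136, R2_112, R2_132, R11_107⟩]⟩]⟩,
 ⟨nat_lit 2, [⟨nat_lit 3, [⟨nat_lit 3, nat_lit 8640, nat_lit 5136, nat_lit 5424, nat_lit 10080, nat_lit 4176, R11_113, R11_210, R10_87⟩, ⟨nat_lit 7, nat_lit 8496, nat_lit 5616, nat_lit 5328, nat_lit 7248, nat_lit 3600, R11_111, R1_151, R1_75⟩]⟩, ⟨nat_lit 7, [⟨nat_lit 7, nat_lit 6864, nat_lit 8208, nat_lit 4080, nat_lit 5040, nat_lit 5184, R1_85, R1_105, R11_108⟩]⟩]⟩,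
 ⟨nat_lit 3, [⟨nat_lit 4, [⟨nat_lit 4, nat_lit 3408, nat_lit 7104, nat_lit 13968, nat_lit 10896, nat_lit 13824, R2_291, R2_227, R4_288⟩, ⟨nat_lit 6, nat_lit 3984, nat_lit 7296, nat_lit 14208, nat_lit 11280, nat_lit 15744, R2_296, R1_235, R3_328⟩]⟩, ⟨nat_lit 6, [⟨nat_lit 6, nat_lit 5088, nat_lit 8688, nat_lit 15744, nat_lit 11520, nat_lit 4224, R1_328, R1_240, R10_88⟩]⟩, ⟨nat_lit 7, [⟨nat_lit 4, nat_lit 6144, nat_lit 7536, nat_lit 3648, nat_lit 11232, nat_lit 15552, R12_76, R2_234, R5_324⟩, ⟨nat_lit 7, nat_lit 6912, nat_lit 8160, nat_lit 3792, nat_lit 6672, nat_lit 5232, R12_79, R12_139, R11_109⟩]⟩]⟩,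
 ⟨nat_lit 4, [⟨nat_lit 2, [⟨nat_lit 2, nat_lit 8112, nat_lit 6816, nat_lit 5376, nat_lit 6336, nat_lit 5136, R2_112, R2_132, R11_107⟩]⟩]⟩,
 ⟨nat_lit 6, [⟨nat_lit 0, [⟨nat_lit 0, nat_lit 7104, nat_lit 3408, nat_lit 13968, nat_lit 10896, nat_lit 13824, R2_291, R2_227, R4_288⟩, ⟨nat_lit 3, nat_lit 7296, nat_lit 3984, nat_lit 14208, nat_lit 11280, nat_lit 15744, R2_296, R1_235, R3_328⟩]⟩, ⟨nat_lit 2, [⟨nat_lit 0, nat_lit 7536, nat_lit 6144, nat_lit 3648, nat_lit 11232, nat_lit 15552, R12_76, R2_234, R5_324⟩, ⟨nat_lit 2, nat_lit 8160, nat_lit 6912, nat_lit 3792, nat_lit 6672, nat_lit 5232, R12_79, R12_139, R11_109⟩]⟩, ⟨nat_lit 3, [⟨nat_lit 3, nat_lit 8688, nat_lit 5088, nat_lit 15744, nat_lit 11520, nat_lit 4224, R1_328, R1_240, R10_88⟩]⟩]⟩,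
 ⟨nat_lit 7, [⟨nat_lit 2, [⟨nat_lit 2, nat_lit 8208, nat_lit 6864, nat_lit 4080, nat_lit 5040, nat_lit 5184, R1_85, R1_105, R11_108⟩]⟩, ⟨nat_lit 6, [⟨nat_lit 2, nat_lit 5616, nat_lit 8496, nat_lit 5328, nat_lit 7248, nat_lit 3600, R11_111, R1_151, R1_75⟩, ⟨nat_lit 6, nat_lit 5136, nat_lit 8640, nat_lit 5424, nat_lit 10080, nat_lit 4176, R11_113, R11_210, R10_87⟩]⟩]⟩]]]]

end Pool.Agent.AKU6.VZ476
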