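import Pool.Agent.AKU6.VZ476.R0
import Pool.Agent.AKU6.VZ476.R1
import Pool.Agent.AKU6.VZ476.R2
import Pool.Agent.AKU6.VZ476.R3

set_option autoImplicit false
set_option maxRecDepth 1000000

namespace Pool.Agent.AKU6.VZ476

open Pool.Agent.AKY Pool.Agent.AKU5

noncomputable def N0030 : T3 (List N0) := [[[[], [], [⟨nat_lit 6, [⟨nat_lit 4, [⟨nat_lit 4, nat_lit 528, nat_lit 2064, nat_lit 192, nat_lit 4512, nat_lit 11904, R6_4, R4_94, R6_248⟩, ⟨nat_lit 7, nat_lit 576, nat_lit 2112, nat_lit 240, nat_lit 7920, nat_lit 12144, R6_5, R5_165, R8_253⟩]⟩, ⟨nat_lit 7, [⟨nat_lit 7, nat_lit 2832, nat_lit 2160, nat_lit 3168, nat_lit 8208, nat_lit 1776, R8_66, R5_171, R5_37⟩]⟩]⟩]], [], [[], [], [⟨nat_lit 6, [⟨nat_lit 4, [⟨nat_lit 5, nat_lit 672, nat_lit 1920, nat_lit 432, nat_lit 0, nat_lit 12240, R6_9, R10_0, R4_255⟩]⟩]⟩]],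 [[⟨nat_lit 2, [⟨nat_lit 2, [⟨nat_lit 6, nat_lit 3600, nat_lit 3216, nat_lit 3360, nat_lit 96, nat_lit 48, R4_70, R12_2, R7_1⟩]⟩, ⟨nat_lit 6, [⟨nat_lit 6, nat_lit 1536, nat_lit 4032, nat_lit 3120, nat_lit 0, nat_lit 3360, R7_65, R12_0, R4_70⟩]⟩]⟩,
 ⟨nat_lit 3, [⟨nat_lit 0, [⟨nat_lit 2, nat_lit 3408, nat_lit 480, nat_lit 0, nat_lit 0, nat_lit 0, R6_0, R11_0, R6_0⟩]⟩, ⟨nat_lit 2, [⟨nat_lit 2, nat_lit 3792, nat_lit 2784, nat_lit 3264, nat_lit 288, nat_lit 0, R8_68, R11_6, R4_0⟩]⟩, ⟨nat_lit 3, [⟨nat_lit 2, nat_lit 4272, nat_lit 1056, nat_lit 0, nat_lit 144, nat_lit 0, R4_0, R11_3, R8_0⟩]⟩]⟩,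
 ⟨nat_lit 6, [⟨nat_lit 4, [⟨nat_lit 7, nat_lit 480, nat_lit 3408, nat_lit 0, nat_lit 0, nat_lit 0, R6_0, R11_0, R6_0⟩]⟩, ⟨nat_lit 6, [⟨nat_lit 7, nat_lit 1056, nat_lit 4272, nat_lit 0, nat_lit 144, nat_lit 0, R4_0, R11_3, R8_0⟩]⟩, ⟨nat_lit 7, [⟨nat_lit 7, nat_lit 2784, nat_lit 3792, nat_lit 3264, nat_lit 288, nat_lit 0, R8_68, R11_6, R4_0⟩]⟩]⟩,
 ⟨nat_lit 7, [⟨nat_lit 3, [⟨nat_lit 3, nat_lit 4032, nat_lit 1536, nat_lit 3120, nat_lit 0, nat_lit 3360, R7_65, R12_0, R4_70⟩]⟩, ⟨nat_lit 7, [⟨nat_lit 3, nat_lit 3216, nat_lit 3600, nat_lit 3360, nat_lit 96, nat_lit 48, R4_70, R12_2, R7_1⟩]⟩]⟩], [], [⟨nat_lit 6, [⟨nat_lit 4, [⟨nat_lit 7, nat_lit 768, nat_lit 1488, nat_lit 288, nat_lit 48, nat_lit 12192, R6_6, R11_1, R8_254⟩]⟩, ⟨nat_lit 6, [⟨nat_lit 7, nat_lit 1344, nat_lit 1584, nat_lit 192, nat_lit 192, nat_lit 2208,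 R4_4, R11_4, R9_46⟩]⟩, ⟨nat_lit 7, [⟨nat_lit 7, nat_lit 2928, nat_lit 1536, nat_lit 3600, nat_lit 336, nat_lit 1872, R8_75, R11_7, R5_39⟩]⟩]⟩], [⟨nat_lit 3, [⟨nat_lit 3, [⟨nat_lit 2, nat_lit 4320, nat_lit 960, nat_lit 480, nat_lit 1344, nat_lit 4752, R4_10, R11_28, R5_99⟩]⟩]⟩,
 ⟨nat_lit 6, [⟨nat_lit 4, [⟨nat_lit 7, nat_lit 912, nat_lit 3168, nat_lit 48, nat_lit 96, nat_lit 12096, R6_1, R11_2, R4_252⟩]⟩, ⟨nat_lit 6, [⟨nat_lit 7, nat_lit 1392, nat_lit 4368, nat_lit 48, nat_lit 240, nat_lit 14496, R4_1, R11_5, R5_302⟩]⟩]⟩,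
 ⟨nat_lit 7, [⟨nat_lit 7, [⟨nat_lit 3, nat_lit 3360, nat_lit 3552, nat_lit 3648, nat_lit 144, nat_lit 96, R4_76, R12_3, R14_2⟩]⟩]⟩]], [[], [], [], [], [], [], [], [⟨nat_lit 4, [⟨nat_lit 7, [⟨nat_lit 0, nat_lit 2064, nat_lit 192, nat_lit 528, nat_lit 11904, nat_lit 4512, R6_11, R6_248, R4_94⟩, ⟨nat_lit 1, nat_lit 2112, nat_lit 240, nat_lit 576, nat_lit 12144, nat_lit 7920, R6_12, R8_253, R5_165⟩]⟩]⟩,
 ⟨nat_lit 6, [⟨nat_lit 4, [⟨nat_lit 0, nat_lit 192, nat_lit 2064, nat_lit 528, nat_lit 4512, nat_lit 11904, R6_11, R4_94, R6_248⟩, ⟨nat_lit 1, nat_lit 240, nat_lit 2112, nat_lit 576, nat_lit 7920, nat_lit 12144, R6_12, R5_165, R8_253⟩]⟩, ⟨nat_lit 7, [⟨nat_lit 0, nat_lit 2496, nat_lit 2496, nat_lit 384, nat_lit 5616, nat_lit 5616, R8_8, R4_117, R4_117⟩, ⟨nat_lit 1, nat_lit 2544, nat_lit 2544, nat_lit 432, nat_lit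 8064, nat_lit 8064, R8_9, R5_168, R5_168⟩]⟩]⟩]], [], [[], [], [], [], [⟨nat_lit 6, [⟨nat_lit 4, [⟨nat_lit 1, nat_lit 0, nat_lit 3408, nat_lit 480, nat_lit 0, nat_lit 11664, R6_10, R11_0, R6_243⟩]⟩]⟩], [], [⟨nat_lit 6, [⟨nat_lit 4, [⟨nat_lit 1, nat_lit 48, nat_lit 3168, nat_lit 912, nat_lit 96, nat_lit 12096, R6_19, R11_2, R4_252⟩]⟩]⟩], [⟨nat_lit 4, [⟨nat_lit 7, [⟨nat_lit 1, nat_lit 2160, nat_lit 240, nat_lit 2832, nat_lit 1776, nat_lit 8208, R6_59, R5_37, R5_171⟩]⟩]⟩,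
 ⟨nat_lit 6, [⟨nat_lit 4, [⟨nat_lit 1, nat_lit 288, nat_lit 1488, nat_lit 768, nat_lit 48, nat_lit 12192, R6_16, R11_1, R8_254⟩]⟩, ⟨nat_lit 7, [⟨nat_lit 1, nat_lit 2592, nat_lit 2160, nat_lit 2400, nat_lit 1776, nat_lit 8352, R8_50, R11_37, R5_174⟩]⟩]⟩]], [[], [], [], [⟨nat_lit 4, [⟨nat_lit 7, [⟨nat_lit 0, nat_lit 2352, nat_lit 192, nat_lit 1632, nat_lit 2736, nat_lit 9072, R6_34, R13_57, R7_189⟩]⟩]⟩,
 ⟨nat_lit 6, [⟨nat_lit 4, [⟨nat_lit 3, nat_lit 816, nat_lit 2112, nat_lit 144, nat_lit 48, nat_lit 13296, R6_3, R10_1, R7_277⟩]⟩, ⟨nat_lit 7, [⟨nat_lit 3, nat_lit 3024, nat_lit 2304, nat_lit 1200, nat_lit 960, nat_lit 192, R8_25, R10_20, R14_4⟩]⟩]⟩,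
 ⟨nat_lit 7, [⟨nat_lit 3, [⟨nat_lit 2, nat_lit 4128, nat_lit 1344, nat_lit 1728, nat_lit 1296, nat_lit 4512, R7_36, R10_27, R5_94⟩]⟩]⟩], [], [], [], [⟨nat_lit 4, [⟨nat_lit 7, [⟨nat_lit 0, nat_lit 2208, nat_lit 96, nat_lit 1104, nat_lit 2688, nat_lit 5136, R6_23, R13_56, R4_107⟩, ⟨nat_lit 1, nat_lit 2256, nat_lit 144, nat_lit 1152, nat_lit 2112, nat_lit 8496, R6_24, R9_44, R5_177⟩]⟩]⟩,
 ⟨nat_lit 6, [⟨nat_lit 4, [⟨nat_lit 3, nat_lit 432, nat_lit 1920, nat_lit 672, nat_lit 0, nat_lit 12240, R6_14, R10_0, R4_255⟩]⟩]⟩]]], [[[⟨nat_lit 0, [⟨nat_lit 0, [⟨nat_lit 2, nat_lit 8208, nat_lit 2064, nat_lit 11904, nat_lit 4512, nat_lit 192, R6_248, R4_94, R6_4⟩]⟩, ⟨nat_lit 2, [⟨nat_lit 2, nat_lit 8496, nat_lit 2208, nat_lit 2688, nat_lit 5136, nat_lit 96, R13_56, R4_107, R4_2⟩, ⟨nat_lit 6, nat_lit 8544, nat_lit 2352, nat_lit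 2736, nat_lit 4848, nat_lit 192, R13_57, R7_101, R7_4⟩]⟩]⟩,
 ⟨nat_lit 3, [⟨nat_lit 0, [⟨nat_lit 2, nat_lit 8352, nat_lit 2112, nat_lit 12144, nat_lit 7920, nat_lit 240, R8_253, R5_165, R6_5⟩]⟩, ⟨nat_lit 2, [⟨nat_lit 2, nat_lit 9360, nat_lit 2256, nat_lit 2112, nat_lit 8496, nat_lit 144, R9_44, R5_177, R4_3⟩]⟩, ⟨nat_lit 3, [⟨nat_lit 2, nat_lit 9600, nat_lit 2160, nat_lit 1776, nat_lit 8208, nat_lit 240, R5_37, R5_171, R8_5⟩]⟩]⟩]], [[⟨nat_lit 1, [⟨nat_lit 0, [⟨nat_lit 2, nat_lit 8304, nat_lit 1920, nat_lit 12240, nat_lit 2736, nat_lit 432, R4_255, R10_57, R6_9⟩]⟩]⟩]], [], [[⟨nat_lit 3, [⟨nat_lit 0, [⟨nat_lit 2, nat_lit 8448, nat_lit 3120, nat_lit 12192, nat_lit 10368, nat_lit 288, R8_254, R11_216, R6_6⟩]⟩, ⟨nat_lit 2, [⟨nat_lit 2, nat_lit 9456, nat_lit 4272, nat_lit 2208, nat_lit 10944, nat_lit 192, R9_46, R11_228,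 R4_4⟩]⟩, ⟨nat_lit 3, [⟨nat_lit 2, nat_lit 9696, nat_lit 3552, nat_lit 1872, nat_lit 10656, nat_lit 288, R5_39, R11_222, R8_6⟩]⟩]⟩], [], [], [⟨nat_lit 3, [⟨nat_lit 3, [⟨nat_lit 2, nat_lit 9744, nat_lit 288, nat_lit 1920, nat_lit 12624, nat_lit 4800, R5_40, R11_263, R5_100⟩]⟩]⟩]]], [[], [], [], [], [[], [], [], [], [⟨nat_lit 4, [⟨nat_lit 4, [⟨nat_lit 1, nat_lit 4368, nat_lit 14496, nat_lit 4512, nat_lit 15120, nat_lit 11712, R6_94, R8_315, R6_244⟩]⟩, ⟨nat_lit 5, [⟨nat_lit 0, nat_lit 5328, nat_lit 14400, nat_lit 4512, nat_lit 15840, nat_lit 8208, R4_94, R6_330, R6_171⟩, ⟨nat_lit 1, nat_lit 5376, nat_lit 14544, nat_lit 4752, nat_lit 15264, nat_lit 15120, R4_99, R8_318, R13_315⟩]⟩]⟩,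
 ⟨nat_lit 6, [⟨nat_lit 4, [⟨nat_lit 1, nat_lit 4800, nat_lit 14592, nat_lit 0, nat_lit 912, nat_lit 11808, R13_0, R5_19, R6_246⟩]⟩]⟩], [⟨nat_lit 4, [⟨nat_lit 5, [⟨nat_lit 0, nat_lit 5472, nat_lit 14064, nat_lit 4560, nat_lit 16320, nat_lit 8592, R4_95, R6_340, R4_179⟩]⟩]⟩], [], [⟨nat_lit 4, [⟨nat_lit 4, [⟨nat_lit 0, nat_lit 4512, nat_lit 15120, nat_lit 4368, nat_lit 14496, nat_lit 11712, R6_91, R6_302, R6_244⟩, ⟨nat_lit 1, nat_lit 4560, nat_lit 15696, nat_lit 4560, nat_lit 15696, nat_lit 12288, R6_95, R8_327, R8_256⟩]⟩, ⟨nat_lit 5, [⟨nat_lit 0, nat_lit 5664, nat_lit 15216, nat_lit 4608, nat_lit 16080, nat_lit 7440, R4_96, R6_335, R8_155⟩, ⟨nat_lit 1, nat_lit 5712, nat_lit 15792, nat_lit 4848, nat_lit 15984, nat_lit 13104, R4_101, R8_333, R9_273⟩]⟩, ⟨nat_lit 7, [⟨nat_lit 0, nat_lit 6816, nat_lit 15168, nat_lit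 7440, nat_lit 15264, nat_lit 4608, R8_155, R6_318, R4_96⟩, ⟨nat_lit 1, nat_lit 6864, nat_lit 15744, nat_lit 7728, nat_lit 15840, nat_lit 7968, R8_161, R8_330, R5_166⟩]⟩]⟩,
 ⟨nat_lit 6, [⟨nat_lit 4, [⟨nat_lit 0, nat_lit 5040, nat_lit 17568, nat_lit 96, nat_lit 4752, nat_lit 12000, R13_2, R4_99, R6_250⟩, ⟨nat_lit 1, nat_lit 5088, nat_lit 18288, nat_lit 144, nat_lit 9168, nat_lit 12432, R13_3, R5_191, R8_259⟩]⟩, ⟨nat_lit 7, [⟨nat_lit 0, nat_lit 7056, nat_lit 17616, nat_lit 0, nat_lit 6048, nat_lit 5712, R9_0, R4_126, R4_119⟩, ⟨nat_lit 1, nat_lit 7104, nat_lit 18336, nat_lit 48, nat_lit 9312, nat_lit 8112, R9_1, R5_194, R5_169⟩]⟩]⟩]], [], [[], [], [], [], [⟨nat_lit 4, [⟨nat_lit 4, [⟨nat_lit 1, nat_lit 4416, nat_lit 2496, nat_lit 4656, nat_lit 912, nat_lit 11760, R6_97, R5_19, R6_245⟩]⟩, ⟨nat_lit 5, [⟨nat_lit 1,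 nat_lit 5424, nat_lit 2592, nat_lit 4944, nat_lit 3264, nat_lit 15168, R4_103, R5_68, R13_316⟩]⟩]⟩,
 ⟨nat_lit 6, [⟨nat_lit 4, [⟨nat_lit 1, nat_lit 4848, nat_lit 2544, nat_lit 48, nat_lit 480, nat_lit 11856, R13_1, R11_10, R6_247⟩]⟩]⟩], [], [], [⟨nat_lit 4, [⟨nat_lit 4, [⟨nat_lit 1, nat_lit 4608, nat_lit 1824, nat_lit 4704, nat_lit 960, nat_lit 12336, R6_98, R5_20, R8_257⟩]⟩, ⟨nat_lit 7, [⟨nat_lit 1, nat_lit 6912, nat_lit 2016, nat_lit 9024, nat_lit 2208, nat_lit 8256, R8_188, R5_46, R5_172⟩]⟩]⟩,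
 ⟨nat_lit 6, [⟨nat_lit 4, [⟨nat_lit 1, nat_lit 5136, nat_lit 1872, nat_lit 336, nat_lit 528, nat_lit 12480, R13_7, R11_11, R8_260⟩]⟩, ⟨nat_lit 7, [⟨nat_lit 1, nat_lit 7152, nat_lit 2064, nat_lit 192, nat_lit 2208, nat_lit 8400, R9_4, R11_46, R5_175⟩]⟩]⟩]], [[], [], [], [], [], [], [], [⟨nat_lit 4, [⟨nat_lit 4, [⟨nat_lit 0, nat_lit 4656, nat_lit 912, nat_lit 4416, nat_lit 2496, nat_lit 11760, R6_92, R13_52, R6_245⟩, ⟨nat_lit 1, nat_lit 4704, nat_lit 960, nat_lit 4608, nat_lit 1824, nat_lit 12384, R6_96, R9_38, R8_258⟩]⟩, ⟨nat_lit 5, [⟨nat_lit 0, nat_lit 5808, nat_lit 1200, nat_lit 4656, nat_lit 4224, nat_lit 7536, R4_97, R13_88, R8_157⟩, ⟨nat_lit 1, nat_lit 5856, nat_lit 1248, nat_lit 4896, nat_lit 3456, nat_lit 13200, R4_102, R9_72, R9_275⟩]⟩, ⟨nat_lit 7, [⟨nat_lit 0, nat_lit 6960, nat_lit 1488, nat_lit 8016,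 nat_lit 3408, nat_lit 5184, R8_167, R13_71, R4_108⟩, ⟨nat_lit 1, nat_lit 7008, nat_lit 1536, nat_lit 8688, nat_lit 2496, nat_lit 8544, R8_181, R9_52, R5_178⟩]⟩]⟩,
 ⟨nat_lit 6, [⟨nat_lit 4, [⟨nat_lit 3, nat_lit 5280, nat_lit 1152, nat_lit 240, nat_lit 336, nat_lit 12288, R13_5, R10_7, R4_256⟩]⟩]⟩]]], [[], [], [], [[⟨nat_lit 3, [⟨nat_lit 0, [⟨nat_lit 2, nat_lit 10752, nat_lit 3168, nat_lit 12096, nat_lit 7488, nat_lit 48, R4_252, R11_156, R6_1⟩]⟩, ⟨nat_lit 2, [⟨nat_lit 2, nat_lit 10800, nat_lit 4368, nat_lit 14496, nat_lit 7632, nat_lit 48, R5_302, R11_159, R4_1⟩]⟩]⟩,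
 ⟨nat_lit 6, [⟨nat_lit 7, [⟨nat_lit 7, nat_lit 10416, nat_lit 960, nat_lit 4752, nat_lit 384, nat_lit 480, R5_99, R11_8, R4_10⟩]⟩]⟩,
 ⟨nat_lit 7, [⟨nat_lit 3, [⟨nat_lit 3, nat_lit 11520, nat_lit 3552, nat_lit 2640, nat_lit 48, nat_lit 3648, R14_55, R12_1, R4_76⟩]⟩]⟩], [], [⟨nat_lit 6, [⟨nat_lit 7, [⟨nat_lit 7, nat_lit 10464, nat_lit 288, nat_lit 4800, nat_lit 432, nat_lit 1920, R5_100, R11_9, R5_40⟩]⟩]⟩]], [[], [], [], [⟨nat_lit 4, [⟨nat_lit 3, [⟨nat_lit 0, nat_lit 11136, nat_lit 15504, nat_lit 8640, nat_lit 12192, nat_lit 8640, R7_180, R6_254, R4_180⟩, ⟨nat_lit 2, nat_lit 11184, nat_lit 16272, nat_lit 8784, nat_lit 12384, nat_lit 4416, R7_183, R4_258, R5_92⟩]⟩, ⟨nat_lit 7, [⟨nat_lit 0, nat_lit 10032, nat_lit 15456, nat_lit 8640, nat_lit 12720, nat_lit 8640, R4_180, R6_265, R7_180⟩]⟩]⟩,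
 ⟨nat_lit 6, [⟨nat_lit 7, [⟨nat_lit 0, nat_lit 10512, nat_lit 17280, nat_lit 4416, nat_lit 12384, nat_lit 8784, R5_92, R4_258, R7_183⟩]⟩]⟩], [], [], [], [⟨nat_lit 4, [⟨nat_lit 7, [⟨nat_lit 0, nat_lit 9792, nat_lit 14064, nat_lit 8592, nat_lit 12912, nat_lit 4560, R4_179, R6_269, R4_95⟩, ⟨nat_lit 1, nat_lit 9840, nat_lit 14256, nat_lit 8976, nat_lit 14064, nat_lit 8016, R4_187, R8_293, R5_167⟩]⟩]⟩,
 ⟨nat_lit 6, [⟨nat_lit 7, [⟨nat_lit 0, nat_lit 10176, nat_lit 14928, nat_lit 4368, nat_lit 5808, nat_lit 5664, R5_91, R4_121, R4_118⟩, ⟨nat_lit 1, nat_lit 10224, nat_lit 15168, nat_lit 4656, nat_lit 8784, nat_lit 8160, R5_97, R5_183, R5_170⟩]⟩]⟩]], [], [], [[⟨nat_lit 4, [⟨nat_lit 3, [⟨nat_lit 0, nat_lit 10944, nat_lit 2976, nat_lit 9072, nat_lit 1008, nat_lit 1632, R7_189, R13_21, R6_34⟩]⟩]⟩,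
 ⟨nat_lit 6, [⟨nat_lit 7, [⟨nat_lit 3, nat_lit 10320, nat_lit 1632, nat_lit 4512, nat_lit 1296, nat_lit 1104, R5_94, R10_27, R7_23⟩]⟩]⟩,
 ⟨nat_lit 7, [⟨nat_lit 0, [⟨nat_lit 2, nat_lit 10656, nat_lit 2832, nat_lit 13296, nat_lit 48, nat_lit 144, R7_277, R10_1, R6_3⟩]⟩, ⟨nat_lit 3, [⟨nat_lit 2, nat_lit 11376, nat_lit 4080, nat_lit 2400, nat_lit 960, nat_lit 192, R14_50, R10_20, R8_4⟩]⟩]⟩], [], [], [⟨nat_lit 4, [⟨nat_lit 3, [⟨nat_lit 0, nat_lit 11232, nat_lit 768, nat_lit 9120, nat_lit 1056, nat_lit 9216, R7_190, R13_22, R4_192⟩]⟩, ⟨nat_lit 7, [⟨nat_lit 0, nat_lit 10080, nat_lit 672, nat_lit 9216, nat_lit 3072, nat_lit 9120, R4_192, R13_64, R7_190⟩]⟩]⟩,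
 ⟨nat_lit 6, [⟨nat_lit 7, [⟨nat_lit 3, nat_lit 10608, nat_lit 1008, nat_lit 4560, nat_lit 1344, nat_lit 288, R5_95, R10_28, R14_6⟩]⟩]⟩,
 ⟨nat_lit 7, [⟨nat_lit 3, [⟨nat_lit 2, nat_lit 11616, nat_lit 912, nat_lit 2496, nat_lit 1344, nat_lit 4560, R14_52, R10_28, R5_95⟩]⟩]⟩]]], [[], [], [], [], [[], [⟨nat_lit 4, [⟨nat_lit 1, [⟨nat_lit 0, nat_lit 11904, nat_lit 14400, nat_lit 8208, nat_lit 2064, nat_lit 4512, R6_171, R6_43, R4_94⟩]⟩]⟩,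
 ⟨nat_lit 5, [⟨nat_lit 0, [⟨nat_lit 0, nat_lit 11712, nat_lit 14496, nat_lit 11712, nat_lit 15120, nat_lit 4512, R6_244, R8_315, R6_94⟩, ⟨nat_lit 2, nat_lit 11760, nat_lit 14592, nat_lit 11808, nat_lit 912, nat_lit 0, R6_246, R5_19, R13_0⟩]⟩, ⟨nat_lit 1, [⟨nat_lit 0, nat_lit 12000, nat_lit 14544, nat_lit 10416, nat_lit 15264, nat_lit 4752, R13_217, R8_318, R4_99⟩]⟩]⟩]], [[⟨nat_lit 5, [⟨nat_lit 0, [⟨nat_lit 2, nat_lit 11664, nat_lit 3408, nat_lit 11664, nat_lit 0, nat_lit 480, R6_243, R11_0, R6_10⟩]⟩]⟩], [⟨nat_lit 5, [⟨nat_lit 0, [⟨nat_lit 0, nat_lit 11808, nat_lit 19776, nat_lit 11760, nat_lit 912, nat_lit 4656, R6_245, R5_19, R6_97⟩, ⟨nat_lit 2, nat_lit 11856, nat_lit 19872, nat_lit 11856, nat_lit 480, nat_lit 48, R6_247, R11_10, R13_1⟩]⟩, ⟨nat_lit 1, [⟨nat_lit 0, nat_lit 12096, nat_lit 19824, nat_lit 10512,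 nat_lit 3264, nat_lit 4944, R13_219, R5_68, R4_103⟩]⟩]⟩]]], [[], [[⟨nat_lit 1, [⟨nat_lit 0, [⟨nat_lit 2, nat_lit 13728, nat_lit 2832, nat_lit 13296, nat_lit 14352, nat_lit 816, R7_277, R10_299, R6_17⟩]⟩]⟩]], [], [], [], [[⟨nat_lit 5, [⟨nat_lit 0, [⟨nat_lit 2, nat_lit 13536, nat_lit 3168, nat_lit 12096, nat_lit 7488, nat_lit 912, R4_252, R11_156, R6_19⟩]⟩]⟩]]], [[], [], [], [], [[], [⟨nat_lit 4, [⟨nat_lit 1, [⟨nat_lit 0, nat_lit 12912, nat_lit 14064, nat_lit 8592, nat_lit 9792, nat_lit 4560, R4_179, R6_204, R4_95⟩]⟩]⟩], [], [], [], [⟨nat_lit 4, [⟨nat_lit 1, [⟨nat_lit 0, nat_lit 12720, nat_lit 15456, nat_lit 8640, nat_lit 10032, nat_lit 8640, R4_180, R6_209, R7_180⟩]⟩, ⟨nat_lit 5, [⟨nat_lit 0, nat_lit 12192, nat_lit 15504, nat_lit 8640, nat_lit 11136, nat_lit 8640, R7_180, R6_232, R4_180⟩]⟩]⟩]]], [[], [], [],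 [], [[⟨nat_lit 4, [⟨nat_lit 0, [⟨nat_lit 2, nat_lit 14400, nat_lit 15840, nat_lit 5328, nat_lit 4512, nat_lit 528, R6_111, R4_94, R6_11⟩]⟩, ⟨nat_lit 3, [⟨nat_lit 0, nat_lit 15840, nat_lit 14400, nat_lit 4512, nat_lit 5328, nat_lit 528, R4_94, R6_111, R6_11⟩, ⟨nat_lit 2, nat_lit 15888, nat_lit 15888, nat_lit 5616, nat_lit 5616, nat_lit 384, R4_117, R4_117, R8_8⟩]⟩]⟩,
 ⟨nat_lit 5, [⟨nat_lit 0, [⟨nat_lit 2, nat_lit 14688, nat_lit 16416, nat_lit 12144, nat_lit 7920, nat_lit 576, R8_253, R5_165, R6_12⟩]⟩, ⟨nat_lit 3, [⟨nat_lit 0, nat_lit 16416, nat_lit 14688, nat_lit 7920, nat_lit 12144, nat_lit 576, R5_165, R8_253, R6_12⟩, ⟨nat_lit 2, nat_lit 16464, nat_lit 16464, nat_lit 8064, nat_lit 8064, nat_lit 432, R5_168, R5_168, R8_9⟩]⟩]⟩], [⟨nat_lit 4, [⟨nat_lit 0, [⟨nat_lit 0, nat_lit 14496, nat_lit 15120, nat_lit 4368,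 nat_lit 4512, nat_lit 4368, R6_91, R6_94, R6_91⟩, ⟨nat_lit 2, nat_lit 14544, nat_lit 15264, nat_lit 5376, nat_lit 4752, nat_lit 96, R6_112, R4_99, R13_2⟩]⟩, ⟨nat_lit 1, [⟨nat_lit 0, nat_lit 15264, nat_lit 15168, nat_lit 7440, nat_lit 6816, nat_lit 4608, R8_155, R6_142, R4_96⟩]⟩, ⟨nat_lit 3, [⟨nat_lit 0, nat_lit 16080, nat_lit 15216, nat_lit 4608, nat_lit 5664, nat_lit 7440, R4_96, R6_118, R8_155⟩, ⟨nat_lit 2, nat_lit 16128, nat_lit 15360, nat_lit 5712, nat_lit 6048, nat_lit 0, R4_119, R4_126, R9_0⟩]⟩]⟩,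
 ⟨nat_lit 5, [⟨nat_lit 0, [⟨nat_lit 0, nat_lit 14832, nat_lit 15408, nat_lit 12288, nat_lit 15696, nat_lit 4560, R8_256, R8_327, R6_95⟩, ⟨nat_lit 2, nat_lit 14880, nat_lit 15552, nat_lit 12432, nat_lit 9168, nat_lit 144, R8_259, R5_191, R13_3⟩]⟩, ⟨nat_lit 1, [⟨nat_lit 0, nat_lit 15456, nat_lit 15456, nat_lit 7968, nat_lit 15984, nat_lit 4848, R9_166, R8_333, R4_101⟩]⟩, ⟨nat_lit 3, [⟨nat_lit 0, nat_lit 16752, nat_lit 15504, nat_lit 7968, nat_lit 15840, nat_lit 7728, R5_166, R8_330, R8_161⟩, ⟨nat_lit 2, nat_lit 16800, nat_lit 15648, nat_lit 8112, nat_lit 9312, nat_lit 48, R5_169, R5_194, R9_1⟩]⟩]⟩], [], [⟨nat_lit 4, [⟨nat_lit 3, [⟨nat_lit 0, nat_lit 16320, nat_lit 14064, nat_lit 4560, nat_lit 5472, nat_lit 8592, R4_95, R6_114, R4_179⟩, ⟨nat_lit 2, nat_lit 16368, nat_lit 14928, nat_lit 5664, nat_lit 5808, nat_lit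 4368, R4_118, R4_121, R5_91⟩]⟩]⟩,
 ⟨nat_lit 5, [⟨nat_lit 3, [⟨nat_lit 0, nat_lit 17088, nat_lit 14256, nat_lit 8016, nat_lit 14064, nat_lit 8976, R5_167, R8_293, R4_187⟩, ⟨nat_lit 2, nat_lit 17136, nat_lit 15168, nat_lit 8160, nat_lit 8784, nat_lit 4656, R5_170, R5_183, R5_97⟩]⟩]⟩]], [[⟨nat_lit 5, [⟨nat_lit 0, [⟨nat_lit 2, nat_lit 14736, nat_lit 3120, nat_lit 12192, nat_lit 10368, nat_lit 768, R8_254, R11_216, R6_16⟩]⟩, ⟨nat_lit 3, [⟨nat_lit 0, nat_lit 16512, nat_lit 3168, nat_lit 8208, nat_lit 1776, nat_lit 2832, R5_171, R5_37, R6_59⟩, ⟨nat_lit 2, nat_lit 16560, nat_lit 3216, nat_lit 8352, nat_lit 10512, nat_lit 576, R5_174, R11_219, R8_12⟩]⟩]⟩], [⟨nat_lit 5, [⟨nat_lit 0, [⟨nat_lit 0, nat_lit 14928, nat_lit 15984, nat_lit 12336, nat_lit 960, nat_lit 4704, R8_257, R5_20, R6_98⟩, ⟨nat_lit 2, nat_lit 14976, nat_lit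 16128, nat_lit 12480, nat_lit 11616, nat_lit 336, R8_260, R11_242, R13_7⟩]⟩, ⟨nat_lit 1, [⟨nat_lit 0, nat_lit 15552, nat_lit 16032, nat_lit 8064, nat_lit 3312, nat_lit 5040, R9_168, R5_69, R4_105⟩]⟩, ⟨nat_lit 3, [⟨nat_lit 0, nat_lit 16848, nat_lit 16080, nat_lit 8256, nat_lit 2208, nat_lit 9024, R5_172, R5_46, R8_188⟩, ⟨nat_lit 2, nat_lit 16896, nat_lit 16224, nat_lit 8400, nat_lit 11760, nat_lit 192, R5_175, R11_245, R9_4⟩]⟩]⟩], [], [⟨nat_lit 5, [⟨nat_lit 3, [⟨nat_lit 0, nat_lit 17184, nat_lit 16848, nat_lit 8304, nat_lit 1968, nat_lit 10560, R5_173, R5_41, R4_220⟩, ⟨nat_lit 2, nat_lit 17232, nat_lit 16896, nat_lit 8448, nat_lit 11232, nat_lit 4704, R5_176, R11_234, R5_98⟩]⟩]⟩]], [], [[⟨nat_lit 4, [⟨nat_lit 3, [⟨nat_lit 0, nat_lit 15936, nat_lit 96, nat_lit 5136, nat_lit 528, nat_lit 1104, R4_107, R13_11, R6_23⟩]⟩]⟩,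
 ⟨nat_lit 5, [⟨nat_lit 3, [⟨nat_lit 0, nat_lit 16608, nat_lit 144, nat_lit 8496, nat_lit 2112, nat_lit 1152, R5_177, R9_44, R6_24⟩]⟩]⟩,
 ⟨nat_lit 7, [⟨nat_lit 0, [⟨nat_lit 2, nat_lit 15120, nat_lit 1920, nat_lit 12240, nat_lit 0, nat_lit 672, R4_255, R10_0, R6_14⟩]⟩]⟩], [⟨nat_lit 4, [⟨nat_lit 0, [⟨nat_lit 0, nat_lit 14592, nat_lit 912, nat_lit 4800, nat_lit 0, nat_lit 4416, R6_100, R13_0, R6_92⟩]⟩, ⟨nat_lit 1, [⟨nat_lit 0, nat_lit 15360, nat_lit 1200, nat_lit 7536, nat_lit 1872, nat_lit 4656, R8_157, R13_39, R4_97⟩]⟩, ⟨nat_lit 3, [⟨nat_lit 0, nat_lit 16176, nat_lit 1488, nat_lit 5184, nat_lit 576, nat_lit 8016, R4_108, R13_12, R8_167⟩]⟩]⟩,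
 ⟨nat_lit 5, [⟨nat_lit 0, [⟨nat_lit 0, nat_lit 15024, nat_lit 960, nat_lit 12384, nat_lit 1824, nat_lit 4608, R8_258, R9_38, R6_96⟩]⟩, ⟨nat_lit 1, [⟨nat_lit 0, nat_lit 15648, nat_lit 1248, nat_lit 8160, nat_lit 3456, nat_lit 4896, R9_170, R9_72, R4_102⟩]⟩, ⟨nat_lit 3, [⟨nat_lit 0, nat_lit 16944, nat_lit 1536, nat_lit 8544, nat_lit 2496, nat_lit 8688, R5_178, R9_52, R8_181⟩]⟩]⟩,
 ⟨nat_lit 7, [⟨nat_lit 0, [⟨nat_lit 2, nat_lit 15216, nat_lit 1152, nat_lit 12288, nat_lit 336, nat_lit 240, R4_256, R10_7, R13_5⟩]⟩]⟩]]]]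
noncomputable def N0033 : T3 (List N0) := [[[], [], [], [[⟨nat_lit 3, [⟨nat_lit 0, [⟨nat_lit 2, nat_lit 3168, nat_lit 912, nat_lit 48, nat_lit 96, nat_lit 12096, R6_1, R11_2, R4_252⟩]⟩]⟩], [], [], [⟨nat_lit 2, [⟨nat_lit 2, [⟨nat_lit 6, nat_lit 3984, nat_lit 3120, nat_lit 3744, nat_lit 576, nat_lit 12960, R4_78, R12_12, R12_270⟩]⟩]⟩,
 ⟨nat_lit 3, [⟨nat_lit 3, [⟨nat_lit 2, nat_lit 4416, nat_lit 1392, nat_lit 528, nat_lit 1440, nat_lit 18000, R4_11, R11_30, R11_375⟩]⟩]⟩,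
 ⟨nat_lit 6, [⟨nat_lit 6, [⟨nat_lit 7, nat_lit 1392, nat_lit 4416, nat_lit 528, nat_lit 1440, nat_lit 18000, R4_11, R11_30, R11_375⟩]⟩]⟩,
 ⟨nat_lit 7, [⟨nat_lit 7, [⟨nat_lit 3, nat_lit 3120, nat_lit 3984, nat_lit 3744, nat_lit 576, nat_lit 12960, R4_78, R12_12, R12_270⟩]⟩]⟩]], [[], [], [], [], [], [], [], [⟨nat_lit 4, [⟨nat_lit 7, [⟨nat_lit 0, nat_lit 1872, nat_lit 336, nat_lit 624, nat_lit 11952, nat_lit 0, R6_13, R6_249, R3_0⟩, ⟨nat_lit 2, nat_lit 1920, nat_lit 432, nat_lit 672, nat_lit 12240, nat_lit 2736, R6_14, R4_255, R10_57⟩]⟩]⟩,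
 ⟨nat_lit 6, [⟨nat_lit 4, [⟨nat_lit 0, nat_lit 96, nat_lit 2208, nat_lit 1104, nat_lit 5136, nat_lit 15600, R6_23, R4_107, R13_325⟩, ⟨nat_lit 1, nat_lit 144, nat_lit 2256, nat_lit 1152, nat_lit 8496, nat_lit 13488, R6_24, R5_177, R9_281⟩]⟩, ⟨nat_lit 6, [⟨nat_lit 0, nat_lit 672, nat_lit 3120, nat_lit 1008, nat_lit 6768, nat_lit 4320, R4_21, R4_141, R3_90⟩]⟩, ⟨nat_lit 7, [⟨nat_lit 0, nat_lit 2400, nat_lit 2640, nat_lit 480, nat_lit 6288, nat_lit 720, R8_10, R4_131, R3_15⟩]⟩]⟩]], [], [[], [], [], [], [⟨nat_lit 6, [⟨nat_lit 4, [⟨nat_lit 1, nat_lit 0, nat_lit 4272, nat_lit 1056, nat_lit 144, nat_lit 0, R6_22, R11_3, R8_0⟩]⟩, ⟨nat_lit 6, [⟨nat_lit 1, nat_lit 480, nat_lit 4320, nat_lit 960, nat_lit 1344, nat_lit 4752, R4_20, R11_28, R5_99⟩]⟩]⟩], [], [⟨nat_lit 6, [⟨nat_lit 4, [⟨nat_lit 1, nat_lit 48, nat_lit 4368, nat_lit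 1392, nat_lit 240, nat_lit 14496, R6_29, R11_5, R5_302⟩]⟩, ⟨nat_lit 6, [⟨nat_lit 1, nat_lit 528, nat_lit 4416, nat_lit 1392, nat_lit 1440, nat_lit 18000, R4_29, R11_30, R11_375⟩]⟩]⟩], [⟨nat_lit 6, [⟨nat_lit 4, [⟨nat_lit 1, nat_lit 192, nat_lit 1584, nat_lit 1344, nat_lit 192, nat_lit 13584, R6_28, R11_4, R9_283⟩]⟩]⟩]], [[], [], [], [⟨nat_lit 4, [⟨nat_lit 7, [⟨nat_lit 3, nat_lit 2304, nat_lit 480, nat_lit 1776, nat_lit 11616, nat_lit 12720, R6_37, R3_242, R12_265⟩]⟩]⟩,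
 ⟨nat_lit 6, [⟨nat_lit 7, [⟨nat_lit 3, nat_lit 2688, nat_lit 2544, nat_lit 1296, nat_lit 1056, nat_lit 12864, R8_27, R10_22, R12_268⟩]⟩]⟩,
 ⟨nat_lit 7, [⟨nat_lit 3, [⟨nat_lit 2, nat_lit 4272, nat_lit 1536, nat_lit 1776, nat_lit 7584, nat_lit 17376, R7_37, R10_158, R11_362⟩]⟩]⟩], [], [], [], [⟨nat_lit 6, [⟨nat_lit 6, [⟨nat_lit 3, nat_lit 912, nat_lit 2832, nat_lit 1152, nat_lit 672, nat_lit 14064, R4_24, R10_14, R10_293⟩]⟩]⟩,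
 ⟨nat_lit 7, [⟨nat_lit 7, [⟨nat_lit 2, nat_lit 2832, nat_lit 912, nat_lit 1152, nat_lit 4608, nat_lit 4032, R4_24, R10_96, R10_84⟩]⟩]⟩]]], [[[⟨nat_lit 0, [⟨nat_lit 0, [⟨nat_lit 2, nat_lit 8592, nat_lit 9792, nat_lit 12912, nat_lit 4560, nat_lit 14064, R6_269, R4_95, R4_293⟩, ⟨nat_lit 6, nat_lit 8640, nat_lit 10032, nat_lit 12720, nat_lit 4704, nat_lit 15456, R6_265, R7_98, R7_322⟩]⟩, ⟨nat_lit 2, [⟨nat_lit 6, nat_lit 9216, nat_lit 10080, nat_lit 3072, nat_lit 4896, nat_lit 672, R13_64, R7_102, R14_14⟩]⟩]⟩,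
 ⟨nat_lit 3, [⟨nat_lit 0, [⟨nat_lit 2, nat_lit 8976, nat_lit 9840, nat_lit 14064, nat_lit 8016, nat_lit 14256, R8_293, R5_167, R4_297⟩]⟩, ⟨nat_lit 3, [⟨nat_lit 2, nat_lit 10560, nat_lit 9888, nat_lit 1968, nat_lit 8304, nat_lit 16848, R5_41, R5_173, R5_351⟩]⟩]⟩], [], [⟨nat_lit 0, [⟨nat_lit 2, [⟨nat_lit 6, nat_lit 9360, nat_lit 2304, nat_lit 3120, nat_lit 4992, nat_lit 384, R13_65, R7_104, R12_8⟩]⟩]⟩,
 ⟨nat_lit 2, [⟨nat_lit 2, [⟨nat_lit 6, nat_lit 9936, nat_lit 2448, nat_lit 14064, nat_lit 16128, nat_lit 432, R3_293, R14_336, R12_9⟩]⟩]⟩]], [[⟨nat_lit 0, [⟨nat_lit 0, [⟨nat_lit 2, nat_lit 8688, nat_lit 10800, nat_lit 12960, nat_lit 144, nat_lit 14112, R6_270, R3_3, R4_294⟩]⟩]⟩,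
 ⟨nat_lit 1, [⟨nat_lit 0, [⟨nat_lit 2, nat_lit 8880, nat_lit 10848, nat_lit 13104, nat_lit 2784, nat_lit 14544, R4_273, R10_58, R4_303⟩]⟩]⟩,
 ⟨nat_lit 2, [⟨nat_lit 2, [⟨nat_lit 6, nat_lit 9744, nat_lit 11184, nat_lit 13920, nat_lit 12768, nat_lit 1680, R3_290, R12_266, R14_35⟩]⟩]⟩], [], [⟨nat_lit 2, [⟨nat_lit 2, [⟨nat_lit 6, nat_lit 9984, nat_lit 2880, nat_lit 14112, nat_lit 13200, nat_lit 2496, R3_294, R12_275, R12_52⟩]⟩]⟩]], [[], [], [⟨nat_lit 2, [⟨nat_lit 2, [⟨nat_lit 6, nat_lit 10080, nat_lit 9840, nat_lit 14208, nat_lit 13488, nat_lit 624, R3_296, R12_281, R12_13⟩]⟩]⟩]], [[⟨nat_lit 3, [⟨nat_lit 0, [⟨nat_lit 2, nat_lit 9072, nat_lit 10752, nat_lit 14112, nat_lit 10464, nat_lit 14304, R8_294, R11_218, R4_298⟩]⟩, ⟨nat_lit 3, [⟨nat_lit 2, nat_lit 10656, nat_lit 10848, nat_lit 2064, nat_lit 10752, nat_lit 17184,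 R5_43, R11_224, R5_358⟩]⟩]⟩], [], [⟨nat_lit 2, [⟨nat_lit 2, [⟨nat_lit 6, nat_lit 10224, nat_lit 1776, nat_lit 14160, nat_lit 8448, nat_lit 1584, R3_295, R12_176, R12_33⟩]⟩]⟩], [⟨nat_lit 2, [⟨nat_lit 2, [⟨nat_lit 6, nat_lit 10320, nat_lit 864, nat_lit 14016, nat_lit 7776, nat_lit 15888, R3_292, R12_162, R12_331⟩]⟩]⟩,
 ⟨nat_lit 3, [⟨nat_lit 3, [⟨nat_lit 2, nat_lit 10704, nat_lit 624, nat_lit 2112, nat_lit 12720, nat_lit 21888, R5_44, R11_265, R11_456⟩]⟩]⟩]]], [[], [], [], [], [[], [], [], [], [⟨nat_lit 4, [⟨nat_lit 4, [⟨nat_lit 0, nat_lit 4512, nat_lit 15840, nat_lit 5328, nat_lit 14400, nat_lit 8208, R6_111, R6_300, R6_171⟩, ⟨nat_lit 1, nat_lit 4608, nat_lit 16080, nat_lit 5664, nat_lit 15216, nat_lit 4464, R6_118, R8_317, R8_93⟩, ⟨nat_lit 2, nat_lit 4560, nat_lit 16320, nat_lit 5472, nat_lit 14064, nat_lit 8592,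 R6_114, R4_293, R4_179⟩]⟩, ⟨nat_lit 5, [⟨nat_lit 0, nat_lit 5616, nat_lit 15888, nat_lit 5616, nat_lit 15888, nat_lit 384, R4_117, R6_331, R8_8⟩, ⟨nat_lit 1, nat_lit 5712, nat_lit 16128, nat_lit 6048, nat_lit 15360, nat_lit 3696, R4_126, R8_320, R9_77⟩, ⟨nat_lit 2, nat_lit 5664, nat_lit 16368, nat_lit 5808, nat_lit 14928, nat_lit 4368, R4_121, R4_311, R5_91⟩]⟩]⟩,
 ⟨nat_lit 6, [⟨nat_lit 4, [⟨nat_lit 0, nat_lit 5136, nat_lit 15936, nat_lit 528, nat_lit 96, nat_lit 8496, R13_11, R4_2, R6_177⟩, ⟨nat_lit 1, nat_lit 5184, nat_lit 16176, nat_lit 576, nat_lit 1488, nat_lit 4512, R13_12, R5_31, R8_94⟩]⟩, ⟨nat_lit 5, [⟨nat_lit 0, nat_lit 6288, nat_lit 15984, nat_lit 720, nat_lit 2400, nat_lit 480, R3_15, R4_50, R8_10⟩, ⟨nat_lit 1, nat_lit 6336, nat_lit 16224, nat_lit 768, nat_lit 1680, nat_lit 3744, R3_16, R5_35, R9_78⟩]⟩,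 ⟨nat_lit 6, [⟨nat_lit 0, nat_lit 6768, nat_lit 16032, nat_lit 4320, nat_lit 672, nat_lit 1008, R3_90, R4_14, R4_21⟩, ⟨nat_lit 1, nat_lit 6816, nat_lit 16272, nat_lit 4512, nat_lit 1584, nat_lit 0, R3_94, R5_33, R5_0⟩]⟩]⟩], [⟨nat_lit 4, [⟨nat_lit 5, [⟨nat_lit 0, nat_lit 5808, nat_lit 14928, nat_lit 5664, nat_lit 16368, nat_lit 4368, R4_118, R6_341, R5_91⟩, ⟨nat_lit 2, nat_lit 5856, nat_lit 15120, nat_lit 5856, nat_lit 15120, nat_lit 4368, R4_122, R4_315, R11_91⟩]⟩]⟩,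
 ⟨nat_lit 6, [⟨nat_lit 5, [⟨nat_lit 0, nat_lit 6432, nat_lit 14976, nat_lit 864, nat_lit 11232, nat_lit 5136, R3_18, R4_234, R5_107⟩]⟩]⟩], [], [⟨nat_lit 4, [⟨nat_lit 4, [⟨nat_lit 0, nat_lit 4752, nat_lit 15264, nat_lit 5376, nat_lit 14544, nat_lit 15120, R6_112, R6_303, R13_315⟩, ⟨nat_lit 1, nat_lit 4848, nat_lit 15984, nat_lit 5712, nat_lit 15792, nat_lit 13104, R6_119, R8_329, R9_273⟩, ⟨nat_lit 2, nat_lit 4800, nat_lit 16464, nat_lit 5520, nat_lit 14160, nat_lit 11376, R6_115, R4_295, R3_237⟩]⟩, ⟨nat_lit 5, [⟨nat_lit 0, nat_lit 6048, nat_lit 15360, nat_lit 5712, nat_lit 16128, nat_lit 3696, R4_119, R6_336, R9_77⟩]⟩, ⟨nat_lit 7, [⟨nat_lit 0, nat_lit 7392, nat_lit 15312, nat_lit 7488, nat_lit 15312, nat_lit 288, R8_156, R6_319, R3_6⟩, ⟨nat_lit 2, nat_lit 7440, nat_lit 16512, nat_lit 7632, nat_lit 14640, nat_lit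 2832, R8_159, R4_305, R10_59⟩]⟩]⟩,
 ⟨nat_lit 6, [⟨nat_lit 4, [⟨nat_lit 0, nat_lit 5328, nat_lit 17712, nat_lit 672, nat_lit 5328, nat_lit 16080, R13_14, R4_111, R13_335⟩, ⟨nat_lit 1, nat_lit 5376, nat_lit 18576, nat_lit 720, nat_lit 9936, nat_lit 13728, R13_15, R5_207, R9_286⟩]⟩, ⟨nat_lit 5, [⟨nat_lit 0, nat_lit 6624, nat_lit 17808, nat_lit 1008, nat_lit 7728, nat_lit 4608, R3_21, R4_161, R9_96⟩]⟩, ⟨nat_lit 6, [⟨nat_lit 0, nat_lit 7056, nat_lit 17856, nat_lit 4368, nat_lit 7056, nat_lit 4368, R3_91, R4_147, R3_91⟩]⟩, ⟨nat_lit 7, [⟨nat_lit 0, nat_lit 7728, nat_lit 17760, nat_lit 240, nat_lit 6624, nat_lit 1008, R9_5, R4_138, R3_21⟩]⟩]⟩]], [], [[], [], [], [], [⟨nat_lit 4, [⟨nat_lit 4, [⟨nat_lit 1, nat_lit 4656, nat_lit 4224, nat_lit 5808, nat_lit 1200, nat_lit 4704, R6_121, R5_25, R8_98⟩]⟩, ⟨nat_lit 5, [⟨nat_lit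 1, nat_lit 5760, nat_lit 4320, nat_lit 6144, nat_lit 3600, nat_lit 3936, R4_128, R5_75, R9_82⟩]⟩]⟩,
 ⟨nat_lit 6, [⟨nat_lit 4, [⟨nat_lit 1, nat_lit 5232, nat_lit 4272, nat_lit 624, nat_lit 768, nat_lit 4752, R13_13, R11_16, R8_99⟩]⟩, ⟨nat_lit 5, [⟨nat_lit 1, nat_lit 6384, nat_lit 4368, nat_lit 816, nat_lit 3600, nat_lit 3984, R3_17, R11_75, R9_83⟩]⟩, ⟨nat_lit 6, [⟨nat_lit 1, nat_lit 6864, nat_lit 4416, nat_lit 4656, nat_lit 1488, nat_lit 5040, R3_97, R11_31, R5_105⟩]⟩]⟩], [], [], [⟨nat_lit 4, [⟨nat_lit 4, [⟨nat_lit 1, nat_lit 4896, nat_lit 3456, nat_lit 5856, nat_lit 1248, nat_lit 13200, R6_122, R5_26, R9_275⟩]⟩]⟩,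
 ⟨nat_lit 6, [⟨nat_lit 4, [⟨nat_lit 1, nat_lit 5424, nat_lit 3504, nat_lit 912, nat_lit 816, nat_lit 13824, R13_19, R11_17, R9_288⟩]⟩]⟩]], [[], [], [], [], [], [], [], [⟨nat_lit 4, [⟨nat_lit 4, [⟨nat_lit 0, nat_lit 4944, nat_lit 3264, nat_lit 5424, nat_lit 2592, nat_lit 15168, R6_113, R13_54, R13_316⟩, ⟨nat_lit 1, nat_lit 5040, nat_lit 3312, nat_lit 5760, nat_lit 1920, nat_lit 13152, R6_120, R9_40, R9_274⟩]⟩, ⟨nat_lit 5, [⟨nat_lit 0, nat_lit 6144, nat_lit 3600, nat_lit 5760, nat_lit 4320, nat_lit 3936, R4_120, R13_90, R9_82⟩]⟩]⟩,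
 ⟨nat_lit 7, [⟨nat_lit 7, [⟨nat_lit 2, nat_lit 8016, nat_lit 4080, nat_lit 144, nat_lit 4656, nat_lit 4080, R5_3, R10_97, R10_85⟩]⟩]⟩]]], [[], [], [], [[⟨nat_lit 3, [⟨nat_lit 0, [⟨nat_lit 2, nat_lit 11616, nat_lit 11616, nat_lit 13344, nat_lit 7584, nat_lit 13344, R4_278, R11_158, R4_278⟩]⟩]⟩]], [[], [], [], [⟨nat_lit 4, [⟨nat_lit 3, [⟨nat_lit 2, nat_lit 11856, nat_lit 16416, nat_lit 8832, nat_lit 12432, nat_lit 18288, R7_184, R4_259, R11_381⟩]⟩]⟩], [], [], [], [⟨nat_lit 4, [⟨nat_lit 7, [⟨nat_lit 0, nat_lit 10800, nat_lit 14112, nat_lit 8688, nat_lit 12960, nat_lit 144, R4_181, R6_270, R3_3⟩, ⟨nat_lit 2, nat_lit 10848, nat_lit 14544, nat_lit 8880, nat_lit 13104, nat_lit 2784, R4_185, R4_273, R10_58⟩]⟩]⟩,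
 ⟨nat_lit 6, [⟨nat_lit 7, [⟨nat_lit 0, nat_lit 11232, nat_lit 14976, nat_lit 5136, nat_lit 6432, nat_lit 864, R5_107, R4_134, R3_18⟩]⟩]⟩]], [], [], [[⟨nat_lit 7, [⟨nat_lit 0, [⟨nat_lit 2, nat_lit 11520, nat_lit 12288, nat_lit 14640, nat_lit 7008, nat_lit 13488, R7_305, R10_146, R4_281⟩]⟩, ⟨nat_lit 3, [⟨nat_lit 2, nat_lit 11952, nat_lit 12528, nat_lit 2688, nat_lit 7344, nat_lit 14976, R14_56, R10_153, R5_312⟩]⟩]⟩], [], [], [⟨nat_lit 4, [⟨nat_lit 3, [⟨nat_lit 2, nat_lit 11904, nat_lit 1776, nat_lit 9888, nat_lit 1488, nat_lit 19104, R7_206, R3_31, R11_398⟩]⟩, ⟨nat_lit 7, [⟨nat_lit 3, nat_lit 11184, nat_lit 1680, nat_lit 9744, nat_lit 13920, nat_lit 12768, R4_203, R3_290, R12_266⟩]⟩]⟩,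
 ⟨nat_lit 6, [⟨nat_lit 7, [⟨nat_lit 3, nat_lit 11472, nat_lit 1920, nat_lit 5280, nat_lit 1488, nat_lit 12912, R5_110, R10_31, R12_269⟩]⟩]⟩,
 ⟨nat_lit 7, [⟨nat_lit 3, [⟨nat_lit 2, nat_lit 12048, nat_lit 1824, nat_lit 2736, nat_lit 7632, nat_lit 19296, R14_57, R10_159, R11_402⟩]⟩]⟩]]], [[], [], [], [], [[], [⟨nat_lit 4, [⟨nat_lit 1, [⟨nat_lit 2, nat_lit 12240, nat_lit 15120, nat_lit 8304, nat_lit 1920, nat_lit 0, R6_173, R4_40, R10_0⟩]⟩]⟩,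
 ⟨nat_lit 5, [⟨nat_lit 0, [⟨nat_lit 2, nat_lit 12144, nat_lit 15168, nat_lit 13584, nat_lit 1008, nat_lit 16032, R6_283, R5_21, R3_334⟩]⟩, ⟨nat_lit 1, [⟨nat_lit 2, nat_lit 12288, nat_lit 15216, nat_lit 10608, nat_lit 1152, nat_lit 336, R13_221, R5_24, R10_7⟩]⟩]⟩]], [[⟨nat_lit 5, [⟨nat_lit 0, [⟨nat_lit 2, nat_lit 12096, nat_lit 10752, nat_lit 13536, nat_lit 96, nat_lit 3168, R6_282, R11_2, R4_66⟩]⟩]⟩], [⟨nat_lit 5, [⟨nat_lit 0, [⟨nat_lit 2, nat_lit 12192, nat_lit 20256, nat_lit 13632, nat_lit 576, nat_lit 16128, R6_284, R11_12, R3_336⟩]⟩, ⟨nat_lit 1, [⟨nat_lit 2, nat_lit 12336, nat_lit 20304, nat_lit 10656, nat_lit 720, nat_lit 384, R13_222, R11_15, R10_8⟩]⟩]⟩]]], [[], [[⟨nat_lit 1, [⟨nat_lit 0, [⟨nat_lit 2, nat_lit 13488, nat_lit 12288, nat_lit 14640, nat_lit 14400, nat_lit 11520, R7_305, R10_300, R4_240⟩]⟩]⟩]],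 [], [], [], [[⟨nat_lit 5, [⟨nat_lit 0, [⟨nat_lit 2, nat_lit 13344, nat_lit 11616, nat_lit 13344, nat_lit 7584, nat_lit 11616, R4_278, R11_158, R4_242⟩]⟩]⟩], [⟨nat_lit 5, [⟨nat_lit 0, [⟨nat_lit 2, nat_lit 13392, nat_lit 16752, nat_lit 13392, nat_lit 7920, nat_lit 16752, R4_279, R11_165, R3_349⟩]⟩, ⟨nat_lit 1, [⟨nat_lit 2, nat_lit 13728, nat_lit 16800, nat_lit 8640, nat_lit 8064, nat_lit 12384, R3_180, R11_168, R10_258⟩]⟩]⟩]]], [[], [], [], [], [[], [⟨nat_lit 4, [⟨nat_lit 1, [⟨nat_lit 2, nat_lit 13104, nat_lit 14544, nat_lit 8880, nat_lit 10848, nat_lit 6960, R4_185, R4_226, R10_145⟩]⟩]⟩,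
 ⟨nat_lit 5, [⟨nat_lit 1, [⟨nat_lit 2, nat_lit 13248, nat_lit 14592, nat_lit 15264, nat_lit 13200, nat_lit 7152, R3_318, R5_275, R10_149⟩]⟩]⟩], [], [], [], [⟨nat_lit 4, [⟨nat_lit 5, [⟨nat_lit 0, nat_lit 12384, nat_lit 16272, nat_lit 8784, nat_lit 11184, nat_lit 4416, R7_183, R6_233, R5_92⟩, ⟨nat_lit 2, nat_lit 12432, nat_lit 16416, nat_lit 8832, nat_lit 11856, nat_lit 18288, R7_184, R4_247, R11_381⟩]⟩]⟩]]], [[], [], [], [], [[⟨nat_lit 4, [⟨nat_lit 0, [⟨nat_lit 2, nat_lit 14064, nat_lit 16320, nat_lit 5472, nat_lit 4560, nat_lit 8592, R6_114, R4_95, R4_179⟩]⟩, ⟨nat_lit 3, [⟨nat_lit 2, nat_lit 14928, nat_lit 16368, nat_lit 5808, nat_lit 5664, nat_lit 4368, R4_121, R4_118, R5_91⟩]⟩]⟩,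
 ⟨nat_lit 5, [⟨nat_lit 0, [⟨nat_lit 2, nat_lit 14256, nat_lit 17088, nat_lit 14064, nat_lit 8016, nat_lit 8976, R8_293, R5_167, R4_187⟩]⟩, ⟨nat_lit 3, [⟨nat_lit 2, nat_lit 15168, nat_lit 17136, nat_lit 8784, nat_lit 8160, nat_lit 4656, R5_183, R5_170, R5_97⟩]⟩]⟩], [⟨nat_lit 4, [⟨nat_lit 0, [⟨nat_lit 2, nat_lit 14160, nat_lit 16464, nat_lit 5520, nat_lit 4800, nat_lit 11376, R6_115, R4_100, R3_237⟩]⟩, ⟨nat_lit 1, [⟨nat_lit 2, nat_lit 14640, nat_lit 16512, nat_lit 7632, nat_lit 7440, nat_lit 8736, R8_159, R4_155, R10_182⟩]⟩]⟩,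
 ⟨nat_lit 5, [⟨nat_lit 0, [⟨nat_lit 2, nat_lit 14400, nat_lit 16608, nat_lit 14208, nat_lit 9264, nat_lit 16368, R8_296, R5_193, R3_341⟩]⟩, ⟨nat_lit 1, [⟨nat_lit 2, nat_lit 14736, nat_lit 16656, nat_lit 8256, nat_lit 9504, nat_lit 9456, R9_172, R5_198, R10_197⟩]⟩]⟩], [], [⟨nat_lit 4, [⟨nat_lit 3, [⟨nat_lit 2, nat_lit 15120, nat_lit 15120, nat_lit 5856, nat_lit 5856, nat_lit 4368, R4_122, R4_122, R11_91⟩]⟩]⟩,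
 ⟨nat_lit 5, [⟨nat_lit 3, [⟨nat_lit 2, nat_lit 15456, nat_lit 15456, nat_lit 8880, nat_lit 8880, nat_lit 4656, R5_185, R5_185, R11_97⟩]⟩]⟩]], [[⟨nat_lit 5, [⟨nat_lit 0, [⟨nat_lit 2, nat_lit 14304, nat_lit 10752, nat_lit 14112, nat_lit 10464, nat_lit 9072, R8_294, R11_218, R4_189⟩]⟩, ⟨nat_lit 3, [⟨nat_lit 2, nat_lit 15216, nat_lit 10800, nat_lit 8928, nat_lit 10608, nat_lit 6288, R5_186, R11_221, R5_131⟩]⟩]⟩], [⟨nat_lit 5, [⟨nat_lit 1, [⟨nat_lit 2, nat_lit 14784, nat_lit 16704, nat_lit 8304, nat_lit 11952, nat_lit 9552, R9_173, R11_249, R10_199⟩]⟩]⟩], [], [⟨nat_lit 5, [⟨nat_lit 3, [⟨nat_lit 2, nat_lit 15504, nat_lit 17088, nat_lit 9024, nat_lit 11328, nat_lit 5904, R5_188, R11_236, R11_123⟩]⟩]⟩]], [], [[⟨nat_lit 4, [⟨nat_lit 0, [⟨nat_lit 2, nat_lit 14112, nat_lit 10800, nat_lit 6096, nat_lit 144, nat_lit 8688,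 R6_127, R3_3, R4_181⟩]⟩, ⟨nat_lit 3, [⟨nat_lit 2, nat_lit 14976, nat_lit 11232, nat_lit 6432, nat_lit 864, nat_lit 5136, R4_134, R3_18, R5_107⟩]⟩]⟩,
 ⟨nat_lit 7, [⟨nat_lit 0, [⟨nat_lit 2, nat_lit 14544, nat_lit 10848, nat_lit 13104, nat_lit 6960, nat_lit 8880, R4_273, R10_145, R4_185⟩]⟩]⟩], [⟨nat_lit 4, [⟨nat_lit 0, [⟨nat_lit 2, nat_lit 14208, nat_lit 13104, nat_lit 6144, nat_lit 192, nat_lit 11472, R6_128, R3_4, R3_239⟩]⟩, ⟨nat_lit 1, [⟨nat_lit 2, nat_lit 14688, nat_lit 13248, nat_lit 7680, nat_lit 2400, nat_lit 8832, R8_160, R3_50, R10_184⟩]⟩]⟩,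
 ⟨nat_lit 7, [⟨nat_lit 0, [⟨nat_lit 2, nat_lit 14592, nat_lit 13200, nat_lit 13248, nat_lit 7152, nat_lit 15264, R4_276, R10_149, R3_318⟩]⟩, ⟨nat_lit 1, [⟨nat_lit 2, nat_lit 14880, nat_lit 13344, nat_lit 16224, nat_lit 8544, nat_lit 9264, R5_338, R10_178, R10_193⟩]⟩]⟩]]]]
noncomputable def N0066 : T3 (List N0) := [[[], [], [], [[⟨nat_lit 3, [⟨nat_lit 0, [⟨nat_lit 5, nat_lit 3168, nat_lit 48, nat_lit 912, nat_lit 7488, nat_lit 12096, R6_19, R11_156, R4_252⟩]⟩]⟩], [], [], [⟨nat_lit 3, [⟨nat_lit 3, [⟨nat_lit 5, nat_lit 4416, nat_lit 528, nat_lit 1392, nat_lit 7728, nat_lit 4752, R4_29, R11_161, R11_99⟩]⟩]⟩]], [[], [], [], [], [], [], [], [⟨nat_lit 4, [⟨nat_lit 7, [⟨nat_lit 5, nat_lit 1920, nat_lit 672, nat_lit 432, nat_lit 12240, nat_lit 2736, R6_9, R4_255, R10_57⟩]⟩]⟩]], [], [[], [], [], [], [⟨nat_lit 4, [⟨nat_lit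 7, [⟨nat_lit 4, nat_lit 96, nat_lit 1104, nat_lit 2208, nat_lit 5136, nat_lit 15600, R6_46, R4_107, R13_325⟩]⟩]⟩], [], [⟨nat_lit 0, [⟨nat_lit 2, [⟨nat_lit 0, nat_lit 1008, nat_lit 672, nat_lit 3120, nat_lit 6768, nat_lit 4320, R6_65, R4_141, R3_90⟩]⟩]⟩,
 ⟨nat_lit 2, [⟨nat_lit 2, [⟨nat_lit 0, nat_lit 1104, nat_lit 816, nat_lit 2784, nat_lit 5472, nat_lit 4896, R4_58, R3_114, R3_102⟩, ⟨nat_lit 2, nat_lit 1152, nat_lit 912, nat_lit 2832, nat_lit 672, nat_lit 14064, R4_59, R10_14, R10_293⟩]⟩]⟩,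
 ⟨nat_lit 3, [⟨nat_lit 0, [⟨nat_lit 3, nat_lit 960, nat_lit 480, nat_lit 4320, nat_lit 1344, nat_lit 4752, R6_90, R11_28, R5_99⟩]⟩, ⟨nat_lit 3, [⟨nat_lit 3, nat_lit 1392, nat_lit 528, nat_lit 4416, nat_lit 1440, nat_lit 18000, R4_92, R11_30, R11_375⟩]⟩]⟩,
 ⟨nat_lit 4, [⟨nat_lit 7, [⟨nat_lit 4, nat_lit 672, nat_lit 1008, nat_lit 3120, nat_lit 6768, nat_lit 4320, R6_65, R4_141, R3_90⟩]⟩]⟩,
 ⟨nat_lit 6, [⟨nat_lit 4, [⟨nat_lit 6, nat_lit 480, nat_lit 960, nat_lit 4320, nat_lit 1344, nat_lit 4752, R6_90, R11_28, R5_99⟩]⟩, ⟨nat_lit 6, [⟨nat_lit 6, nat_lit 528, nat_lit 1392, nat_lit 4416, nat_lit 1440, nat_lit 18000, R4_92, R11_30, R11_375⟩]⟩]⟩,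
 ⟨nat_lit 7, [⟨nat_lit 7, [⟨nat_lit 4, nat_lit 816, nat_lit 1104, nat_lit 2784, nat_lit 5472, nat_lit 4896, R4_58, R3_114, R3_102⟩, ⟨nat_lit 7, nat_lit 912, nat_lit 1152, nat_lit 2832, nat_lit 672, nat_lit 14064, R4_59, R10_14, R10_293⟩]⟩]⟩], [⟨nat_lit 4, [⟨nat_lit 7, [⟨nat_lit 4, nat_lit 2400, nat_lit 480, nat_lit 2640, nat_lit 6288, nat_lit 720, R6_55, R4_131, R3_15⟩]⟩]⟩,
 ⟨nat_lit 7, [⟨nat_lit 3, [⟨nat_lit 4, nat_lit 2640, nat_lit 1248, nat_lit 2496, nat_lit 6384, nat_lit 4128, R7_52, R3_133, R2_86⟩, ⟨nat_lit 7, nat_lit 2688, nat_lit 1296, nat_lit 2544, nat_lit 1056, nat_lit 12864, R7_53, R10_22, R12_268⟩]⟩, ⟨nat_lit 7, [⟨nat_lit 4, nat_lit 2544, nat_lit 864, nat_lit 2544, nat_lit 6048, nat_lit 6048, R4_53, R3_126, R3_126⟩]⟩]⟩]], [[], [], [], [⟨nat_lit 7, [⟨nat_lit 3, [⟨nat_lit 5, nat_lit 4272, nat_lit 1776,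 nat_lit 1536, nat_lit 7584, nat_lit 4512, R7_32, R10_158, R11_94⟩]⟩]⟩], [], [], [], [⟨nat_lit 3, [⟨nat_lit 3, [⟨nat_lit 7, nat_lit 3120, nat_lit 3744, nat_lit 3984, nat_lit 576, nat_lit 12960, R4_83, R12_12, R12_270⟩]⟩]⟩,
 ⟨nat_lit 7, [⟨nat_lit 7, [⟨nat_lit 5, nat_lit 2832, nat_lit 1152, nat_lit 912, nat_lit 4608, nat_lit 4032, R4_19, R10_96, R10_84⟩]⟩]⟩]]], [[[⟨nat_lit 0, [⟨nat_lit 0, [⟨nat_lit 1, nat_lit 8640, nat_lit 12720, nat_lit 10032, nat_lit 4704, nat_lit 15456, R6_209, R7_98, R7_322⟩, ⟨nat_lit 5, nat_lit 8592, nat_lit 12912, nat_lit 9792, nat_lit 4560, nat_lit 14064, R6_204, R4_95, R4_293⟩]⟩]⟩,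
 ⟨nat_lit 1, [⟨nat_lit 0, [⟨nat_lit 1, nat_lit 8736, nat_lit 12768, nat_lit 10992, nat_lit 3120, nat_lit 15648, R4_229, R2_65, R7_326⟩, ⟨nat_lit 5, nat_lit 8688, nat_lit 12960, nat_lit 10800, nat_lit 144, nat_lit 14112, R4_225, R3_3, R4_294⟩]⟩]⟩,
 ⟨nat_lit 3, [⟨nat_lit 0, [⟨nat_lit 1, nat_lit 8784, nat_lit 12816, nat_lit 10560, nat_lit 7440, nat_lit 15552, R8_220, R2_155, R7_324⟩]⟩, ⟨nat_lit 3, [⟨nat_lit 1, nat_lit 8832, nat_lit 12864, nat_lit 432, nat_lit 7536, nat_lit 14448, R5_9, R2_157, R2_301⟩]⟩]⟩], [], [⟨nat_lit 0, [⟨nat_lit 0, [⟨nat_lit 1, nat_lit 9216, nat_lit 3072, nat_lit 10080, nat_lit 4896, nat_lit 672, R6_210, R7_102, R14_14⟩]⟩, ⟨nat_lit 2, [⟨nat_lit 1, nat_lit 9360, nat_lit 3120, nat_lit 2304, nat_lit 4992, nat_lit 384, R13_48, R7_104, R12_8⟩]⟩]⟩,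
 ⟨nat_lit 1, [⟨nat_lit 0, [⟨nat_lit 1, nat_lit 9264, nat_lit 3168, nat_lit 11088, nat_lit 3312, nat_lit 1632, R4_231, R2_69, R14_34⟩]⟩, ⟨nat_lit 2, [⟨nat_lit 1, nat_lit 9408, nat_lit 3216, nat_lit 2784, nat_lit 3408, nat_lit 2448, R3_58, R2_71, R12_51⟩]⟩]⟩,
 ⟨nat_lit 3, [⟨nat_lit 0, [⟨nat_lit 1, nat_lit 9312, nat_lit 3264, nat_lit 11712, nat_lit 8208, nat_lit 1056, R8_244, R2_171, R14_22⟩]⟩, ⟨nat_lit 2, [⟨nat_lit 1, nat_lit 9456, nat_lit 3360, nat_lit 1536, nat_lit 8496, nat_lit 1488, R9_32, R2_177, R12_31⟩]⟩, ⟨nat_lit 3, [⟨nat_lit 1, nat_lit 9504, nat_lit 3312, nat_lit 480, nat_lit 8352, nat_lit 15504, R5_10, R2_174, R12_323⟩]⟩]⟩]], [[⟨nat_lit 1, [⟨nat_lit 0, [⟨nat_lit 5, nat_lit 8880, nat_lit 13104, nat_lit 10848, nat_lit 2784, nat_lit 14544, R4_226, R10_58, R4_303⟩]⟩]⟩]], [[], [], [⟨nat_lit 0, [⟨nat_lit 0,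 [⟨nat_lit 0, nat_lit 9648, nat_lit 13584, nat_lit 9936, nat_lit 1056, nat_lit 1584, R6_207, R7_22, R7_33⟩, ⟨nat_lit 1, nat_lit 9696, nat_lit 13872, nat_lit 10128, nat_lit 15696, nat_lit 720, R6_211, R14_327, R14_15⟩]⟩, ⟨nat_lit 2, [⟨nat_lit 0, nat_lit 9888, nat_lit 13728, nat_lit 2400, nat_lit 7056, nat_lit 144, R13_50, R7_147, R2_3⟩, ⟨nat_lit 1, nat_lit 9936, nat_lit 14064, nat_lit 2448, nat_lit 16128, nat_lit 432, R13_51, R14_336, R12_9⟩]⟩]⟩,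
 ⟨nat_lit 1, [⟨nat_lit 0, [⟨nat_lit 1, nat_lit 9744, nat_lit 13920, nat_lit 11184, nat_lit 12768, nat_lit 1680, R4_233, R12_266, R14_35⟩]⟩, ⟨nat_lit 2, [⟨nat_lit 1, nat_lit 9984, nat_lit 14112, nat_lit 2880, nat_lit 13200, nat_lit 2496, R3_60, R12_275, R12_52⟩]⟩]⟩,
 ⟨nat_lit 2, [⟨nat_lit 2, [⟨nat_lit 0, nat_lit 10032, nat_lit 13824, nat_lit 9648, nat_lit 5280, nat_lit 5856, R3_201, R2_110, R2_122⟩, ⟨nat_lit 1, nat_lit 10080, nat_lit 14208, nat_lit 9840, nat_lit 13488, nat_lit 624, R3_205, R12_281, R12_13⟩]⟩]⟩,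
 ⟨nat_lit 3, [⟨nat_lit 0, [⟨nat_lit 0, nat_lit 9792, nat_lit 13632, nat_lit 11184, nat_lit 240, nat_lit 8208, R8_233, R2_5, R7_171⟩, ⟨nat_lit 1, nat_lit 9840, nat_lit 13968, nat_lit 11808, nat_lit 6912, nat_lit 1152, R8_246, R12_144, R14_24⟩]⟩, ⟨nat_lit 2, [⟨nat_lit 0, nat_lit 10176, nat_lit 13776, nat_lit 1728, nat_lit 7248, nat_lit 7152, R9_36, R2_151, R2_149⟩, ⟨nat_lit 1, nat_lit 10224, nat_lit 14160, nat_lit 1776, nat_lit 8448, nat_lit 1584, R9_37, R12_176, R12_33⟩]⟩, ⟨nat_lit 3, [⟨nat_lit 0, nat_lit 10272, nat_lit 13680, nat_lit 768, nat_lit 5952, nat_lit 5520, R5_16, R2_124, R2_115⟩, ⟨nat_lit 1, nat_lit 10320, nat_lit 14016, nat_lit 864, nat_lit 7776, nat_lit 15888, R5_18, R12_162, R12_331⟩]⟩]⟩], [], [], [], [⟨nat_lit 0, [⟨nat_lit 0, [⟨nat_lit 0, nat_lit 8160, nat_lit 1920, nat_lit 9984, nat_lit 624, nat_lit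 1488, R6_208, R7_13, R4_31⟩]⟩, ⟨nat_lit 2, [⟨nat_lit 0, nat_lit 8304, nat_lit 1968, nat_lit 2352, nat_lit 6624, nat_lit 12480, R13_49, R7_138, R3_260⟩]⟩]⟩,
 ⟨nat_lit 2, [⟨nat_lit 2, [⟨nat_lit 0, nat_lit 8352, nat_lit 2304, nat_lit 9696, nat_lit 4800, nat_lit 13248, R3_202, R2_100, R3_276⟩]⟩]⟩,
 ⟨nat_lit 3, [⟨nat_lit 0, [⟨nat_lit 0, nat_lit 8208, nat_lit 2016, nat_lit 9504, nat_lit 2016, nat_lit 8208, R8_198, R2_42, R4_171⟩]⟩, ⟨nat_lit 2, [⟨nat_lit 0, nat_lit 8448, nat_lit 2160, nat_lit 1632, nat_lit 9792, nat_lit 12912, R9_34, R2_204, R3_269⟩]⟩]⟩]], [[⟨nat_lit 0, [⟨nat_lit 0, [⟨nat_lit 5, nat_lit 8976, nat_lit 14064, nat_lit 9840, nat_lit 8016, nat_lit 14256, R6_205, R5_167, R4_297⟩]⟩]⟩,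
 ⟨nat_lit 3, [⟨nat_lit 0, [⟨nat_lit 5, nat_lit 9072, nat_lit 14112, nat_lit 10752, nat_lit 7536, nat_lit 14304, R8_224, R11_157, R4_298⟩]⟩]⟩], [], [], [⟨nat_lit 0, [⟨nat_lit 0, [⟨nat_lit 5, nat_lit 10560, nat_lit 1968, nat_lit 9888, nat_lit 8304, nat_lit 16848, R6_206, R5_173, R5_351⟩]⟩]⟩,
 ⟨nat_lit 3, [⟨nat_lit 0, [⟨nat_lit 5, nat_lit 10656, nat_lit 2064, nat_lit 10848, nat_lit 7680, nat_lit 17184, R8_226, R11_160, R5_358⟩]⟩, ⟨nat_lit 3, [⟨nat_lit 5, nat_lit 10704, nat_lit 2112, nat_lit 624, nat_lit 7776, nat_lit 4800, R5_13, R11_162, R11_100⟩]⟩]⟩]]], [[], [], [], [], [[], [], [], [], [⟨nat_lit 4, [⟨nat_lit 4, [⟨nat_lit 4, nat_lit 4512, nat_lit 5328, nat_lit 15840, nat_lit 14400, nat_lit 8208, R6_330, R6_300, R6_171⟩, ⟨nat_lit 5, nat_lit 4560, nat_lit 5472, nat_lit 16320, nat_lit 14064, nat_lit 8592, R6_340,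 R4_293, R4_179⟩, ⟨nat_lit 6, nat_lit 4608, nat_lit 5664, nat_lit 16080, nat_lit 15216, nat_lit 4464, R6_335, R8_317, R8_93⟩]⟩, ⟨nat_lit 7, [⟨nat_lit 4, nat_lit 4752, nat_lit 5376, nat_lit 15264, nat_lit 14544, nat_lit 15120, R8_318, R6_303, R13_315⟩, ⟨nat_lit 5, nat_lit 4800, nat_lit 5520, nat_lit 16464, nat_lit 14160, nat_lit 11376, R8_343, R4_295, R3_237⟩, ⟨nat_lit 6, nat_lit 4848, nat_lit 5712, nat_lit 15984, nat_lit 15792, nat_lit 13104, R8_333, R8_329, R9_273⟩]⟩]⟩,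
 ⟨nat_lit 6, [⟨nat_lit 4, [⟨nat_lit 6, nat_lit 4656, nat_lit 5808, nat_lit 4224, nat_lit 1200, nat_lit 4704, R13_88, R5_25, R8_98⟩]⟩, ⟨nat_lit 6, [⟨nat_lit 6, nat_lit 4704, nat_lit 5904, nat_lit 17376, nat_lit 1296, nat_lit 14304, R3_362, R5_27, R5_298⟩]⟩, ⟨nat_lit 7, [⟨nat_lit 6, nat_lit 4896, nat_lit 5856, nat_lit 3456, nat_lit 1248, nat_lit 13200, R9_72, R5_26, R9_275⟩]⟩]⟩,
 ⟨nat_lit 7, [⟨nat_lit 7, [⟨nat_lit 4, nat_lit 4944, nat_lit 5424, nat_lit 3264, nat_lit 2592, nat_lit 15168, R5_68, R13_54, R13_316⟩, ⟨nat_lit 5, nat_lit 4992, nat_lit 5568, nat_lit 3408, nat_lit 2928, nat_lit 11424, R5_71, R3_61, R3_238⟩, ⟨nat_lit 6, nat_lit 5040, nat_lit 5760, nat_lit 3312, nat_lit 1920, nat_lit 13152, R5_69, R9_40, R9_274⟩, ⟨nat_lit 7, nat_lit 5088, nat_lit 5616, nat_lit 3360, nat_lit 16080, nat_lit 8544, R5_70, R3_335,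 R3_178⟩]⟩]⟩], [⟨nat_lit 4, [⟨nat_lit 4, [⟨nat_lit 4, nat_lit 5616, nat_lit 5616, nat_lit 15888, nat_lit 15888, nat_lit 384, R6_331, R6_331, R8_8⟩, ⟨nat_lit 5, nat_lit 5664, nat_lit 5808, nat_lit 16368, nat_lit 14928, nat_lit 4368, R6_341, R4_311, R5_91⟩, ⟨nat_lit 6, nat_lit 5712, nat_lit 6048, nat_lit 16128, nat_lit 15360, nat_lit 3696, R6_336, R8_320, R9_77⟩]⟩, ⟨nat_lit 5, [⟨nat_lit 4, nat_lit 5808, nat_lit 5664, nat_lit 14928, nat_lit 16368, nat_lit 4368, R4_311, R6_341, R5_91⟩, ⟨nat_lit 5, nat_lit 5856, nat_lit 5856, nat_lit 15120, nat_lit 15120, nat_lit 4368, R4_315, R4_315, R11_91⟩]⟩, ⟨nat_lit 7, [⟨nat_lit 4, nat_lit 6048, nat_lit 5712, nat_lit 15360, nat_lit 16128, nat_lit 3696, R8_320, R6_336, R9_77⟩]⟩]⟩,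
 ⟨nat_lit 6, [⟨nat_lit 4, [⟨nat_lit 6, nat_lit 5760, nat_lit 6144, nat_lit 4320, nat_lit 3600, nat_lit 3936, R13_90, R5_75, R9_82⟩]⟩]⟩,
 ⟨nat_lit 7, [⟨nat_lit 7, [⟨nat_lit 4, nat_lit 6144, nat_lit 5760, nat_lit 3600, nat_lit 4320, nat_lit 3936, R5_75, R13_90, R9_82⟩]⟩]⟩], [], [⟨nat_lit 4, [⟨nat_lit 7, [⟨nat_lit 4, nat_lit 7392, nat_lit 7488, nat_lit 15312, nat_lit 15312, nat_lit 288, R8_319, R6_319, R3_6⟩, ⟨nat_lit 5, nat_lit 7440, nat_lit 7632, nat_lit 16512, nat_lit 14640, nat_lit 2832, R8_344, R4_305, R10_59⟩]⟩]⟩,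
 ⟨nat_lit 7, [⟨nat_lit 7, [⟨nat_lit 4, nat_lit 7584, nat_lit 8064, nat_lit 3840, nat_lit 3552, nat_lit 3888, R5_80, R13_74, R3_81⟩, ⟨nat_lit 5, nat_lit 7632, nat_lit 8352, nat_lit 3936, nat_lit 3264, nat_lit 3504, R5_82, R3_68, R10_73⟩]⟩]⟩]], [], [[], [], [], [], [⟨nat_lit 4, [⟨nat_lit 4, [⟨nat_lit 4, nat_lit 5136, nat_lit 528, nat_lit 15936, nat_lit 96, nat_lit 8496, R6_332, R4_2, R6_177⟩, ⟨nat_lit 6, nat_lit 5184, nat_lit 576, nat_lit 16176, nat_lit 1488, nat_lit 4512, R6_337, R5_31, R8_94⟩]⟩, ⟨nat_lit 7, [⟨nat_lit 4, nat_lit 5328, nat_lit 672, nat_lit 17712, nat_lit 5328, nat_lit 16080, R8_369, R4_111, R13_335⟩, ⟨nat_lit 6, nat_lit 5376, nat_lit 720, nat_lit 18576, nat_lit 9936, nat_lit 13728, R8_387, R5_207, R9_286⟩]⟩]⟩,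
 ⟨nat_lit 6, [⟨nat_lit 4, [⟨nat_lit 6, nat_lit 5232, nat_lit 624, nat_lit 4272, nat_lit 768, nat_lit 4752, R13_89, R11_16, R8_99⟩]⟩, ⟨nat_lit 6, [⟨nat_lit 6, nat_lit 5280, nat_lit 960, nat_lit 17472, nat_lit 864, nat_lit 14688, R3_364, R11_18, R5_306⟩]⟩, ⟨nat_lit 7, [⟨nat_lit 6, nat_lit 5424, nat_lit 912, nat_lit 3504, nat_lit 816, nat_lit 13824, R9_73, R11_17, R9_288⟩]⟩]⟩,
 ⟨nat_lit 7, [⟨nat_lit 7, [⟨nat_lit 4, nat_lit 5472, nat_lit 768, nat_lit 3456, nat_lit 3792, nat_lit 16128, R5_72, R3_79, R13_336⟩, ⟨nat_lit 7, nat_lit 5568, nat_lit 816, nat_lit 3552, nat_lit 480, nat_lit 8832, R5_74, R10_10, R3_184⟩]⟩]⟩], [⟨nat_lit 4, [⟨nat_lit 4, [⟨nat_lit 4, nat_lit 6288, nat_lit 720, nat_lit 15984, nat_lit 2400, nat_lit 480, R6_333, R4_50, R8_10⟩, ⟨nat_lit 6, nat_lit 6336, nat_lit 768, nat_lit 16224, nat_lit 1680, nat_lit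 3744, R6_338, R5_35, R9_78⟩]⟩, ⟨nat_lit 5, [⟨nat_lit 4, nat_lit 6432, nat_lit 864, nat_lit 14976, nat_lit 11232, nat_lit 5136, R4_312, R4_234, R5_107⟩]⟩, ⟨nat_lit 7, [⟨nat_lit 4, nat_lit 6624, nat_lit 1008, nat_lit 17808, nat_lit 7728, nat_lit 4608, R8_371, R4_161, R9_96⟩]⟩]⟩,
 ⟨nat_lit 6, [⟨nat_lit 4, [⟨nat_lit 6, nat_lit 6384, nat_lit 816, nat_lit 4368, nat_lit 3600, nat_lit 3984, R13_91, R11_75, R9_83⟩]⟩]⟩,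
 ⟨nat_lit 7, [⟨nat_lit 7, [⟨nat_lit 4, nat_lit 6672, nat_lit 1056, nat_lit 3744, nat_lit 7152, nat_lit 4848, R5_78, R3_149, R9_101⟩]⟩]⟩], [⟨nat_lit 4, [⟨nat_lit 4, [⟨nat_lit 4, nat_lit 6768, nat_lit 4320, nat_lit 16032, nat_lit 672, nat_lit 1008, R6_334, R4_14, R4_21⟩, ⟨nat_lit 6, nat_lit 6816, nat_lit 4512, nat_lit 16272, nat_lit 1584, nat_lit 0, R6_339, R5_33, R5_0⟩]⟩, ⟨nat_lit 7, [⟨nat_lit 4, nat_lit 7056, nat_lit 4368, nat_lit 17856, nat_lit 7056, nat_lit 4368, R8_372, R4_147, R3_91⟩]⟩]⟩,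
 ⟨nat_lit 6, [⟨nat_lit 4, [⟨nat_lit 6, nat_lit 6864, nat_lit 4656, nat_lit 4416, nat_lit 1488, nat_lit 5040, R13_92, R11_31, R5_105⟩]⟩, ⟨nat_lit 6, [⟨nat_lit 6, nat_lit 6912, nat_lit 4752, nat_lit 17568, nat_lit 1584, nat_lit 18192, R3_366, R11_33, R11_379⟩]⟩]⟩,
 ⟨nat_lit 7, [⟨nat_lit 7, [⟨nat_lit 4, nat_lit 7200, nat_lit 4416, nat_lit 4224, nat_lit 5520, nat_lit 4944, R5_88, R3_115, R3_103⟩, ⟨nat_lit 7, nat_lit 7296, nat_lit 4464, nat_lit 4320, nat_lit 816, nat_lit 14256, R5_90, R10_17, R10_297⟩]⟩]⟩], [⟨nat_lit 4, [⟨nat_lit 7, [⟨nat_lit 4, nat_lit 7728, nat_lit 240, nat_lit 17760, nat_lit 6624, nat_lit 1008, R8_370, R4_138, R3_21⟩]⟩]⟩,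
 ⟨nat_lit 7, [⟨nat_lit 7, [⟨nat_lit 4, nat_lit 7872, nat_lit 336, nat_lit 4128, nat_lit 6096, nat_lit 6192, R5_86, R3_127, R3_129⟩]⟩]⟩]], [[], [], [], [], [], [], [], [⟨nat_lit 7, [⟨nat_lit 7, [⟨nat_lit 5, nat_lit 8016, nat_lit 144, nat_lit 4080, nat_lit 4656, nat_lit 4080, R5_85, R10_97, R10_85⟩]⟩]⟩]]], [[], [], [], [[⟨nat_lit 3, [⟨nat_lit 0, [⟨nat_lit 5, nat_lit 11616, nat_lit 13344, nat_lit 11616, nat_lit 7584, nat_lit 13344, R4_242, R11_158, R4_278⟩]⟩]⟩]], [[], [], [], [⟨nat_lit 4, [⟨nat_lit 3, [⟨nat_lit 5, nat_lit 11856, nat_lit 8832, nat_lit 16416, nat_lit 12432, nat_lit 4416, R7_342, R4_259, R11_92⟩]⟩]⟩,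
 ⟨nat_lit 7, [⟨nat_lit 0, [⟨nat_lit 5, nat_lit 11808, nat_lit 9840, nat_lit 12480, nat_lit 1440, nat_lit 14784, R7_260, R3_30, R5_308⟩]⟩, ⟨nat_lit 3, [⟨nat_lit 5, nat_lit 11904, nat_lit 9888, nat_lit 1776, nat_lit 1488, nat_lit 4464, R14_37, R3_31, R11_93⟩]⟩]⟩], [], [], [], [⟨nat_lit 4, [⟨nat_lit 3, [⟨nat_lit 4, nat_lit 10992, nat_lit 8736, nat_lit 15648, nat_lit 12768, nat_lit 3120, R7_326, R6_266, R2_65⟩]⟩, ⟨nat_lit 7, [⟨nat_lit 4, nat_lit 10800, nat_lit 8688, nat_lit 14112, nat_lit 12960, nat_lit 144, R4_294, R6_270, R3_3⟩, ⟨nat_lit 5, nat_lit 10848, nat_lit 8880, nat_lit 14544, nat_lit 13104, nat_lit 2784, R4_303, R4_273, R10_58⟩]⟩]⟩,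
 ⟨nat_lit 7, [⟨nat_lit 3, [⟨nat_lit 4, nat_lit 11088, nat_lit 9264, nat_lit 1632, nat_lit 3168, nat_lit 3312, R14_34, R13_66, R2_69⟩, ⟨nat_lit 7, nat_lit 11184, nat_lit 9744, nat_lit 1680, nat_lit 13920, nat_lit 12768, R14_35, R3_290, R12_266⟩]⟩]⟩]], [], [[], [], [], [], [], [], [], [⟨nat_lit 4, [⟨nat_lit 3, [⟨nat_lit 4, nat_lit 11376, nat_lit 5184, nat_lit 17376, nat_lit 12912, nat_lit 3984, R7_362, R4_269, R2_83⟩]⟩, ⟨nat_lit 7, [⟨nat_lit 4, nat_lit 11232, nat_lit 5136, nat_lit 14976, nat_lit 6432, nat_lit 864, R4_312, R4_134, R3_18⟩]⟩]⟩,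
 ⟨nat_lit 7, [⟨nat_lit 3, [⟨nat_lit 4, nat_lit 11424, nat_lit 5232, nat_lit 1872, nat_lit 6432, nat_lit 4176, R14_39, R3_134, R2_87⟩, ⟨nat_lit 7, nat_lit 11472, nat_lit 5280, nat_lit 1920, nat_lit 1488, nat_lit 12912, R14_40, R10_31, R12_269⟩]⟩]⟩]], [[⟨nat_lit 7, [⟨nat_lit 0, [⟨nat_lit 5, nat_lit 11520, nat_lit 14640, nat_lit 12288, nat_lit 7008, nat_lit 13488, R7_256, R10_146, R4_281⟩]⟩]⟩], [], [], [⟨nat_lit 7, [⟨nat_lit 0, [⟨nat_lit 5, nat_lit 11952, nat_lit 2688, nat_lit 12528, nat_lit 7344, nat_lit 14976, R7_261, R10_153, R5_312⟩]⟩, ⟨nat_lit 3, [⟨nat_lit 5, nat_lit 12048, nat_lit 2736, nat_lit 1824, nat_lit 7632, nat_lit 4560, R14_38, R10_159, R11_95⟩]⟩]⟩]]], [[], [], [], [], [[], [⟨nat_lit 4, [⟨nat_lit 1, [⟨nat_lit 5, nat_lit 12240, nat_lit 8304, nat_lit 15120, nat_lit 1920, nat_lit 0, R6_315, R4_40, R10_0⟩]⟩]⟩]],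 [[⟨nat_lit 4, [⟨nat_lit 1, [⟨nat_lit 5, nat_lit 12144, nat_lit 13584, nat_lit 15168, nat_lit 1008, nat_lit 16032, R6_316, R5_21, R3_334⟩]⟩]⟩,
 ⟨nat_lit 5, [⟨nat_lit 0, [⟨nat_lit 5, nat_lit 12096, nat_lit 13536, nat_lit 10752, nat_lit 7488, nat_lit 3168, R6_224, R11_156, R4_66⟩]⟩, ⟨nat_lit 1, [⟨nat_lit 5, nat_lit 12192, nat_lit 13632, nat_lit 20256, nat_lit 7824, nat_lit 16128, R13_422, R11_163, R3_336⟩]⟩]⟩], [⟨nat_lit 4, [⟨nat_lit 1, [⟨nat_lit 5, nat_lit 12288, nat_lit 10608, nat_lit 15216, nat_lit 1152, nat_lit 336, R6_317, R5_24, R10_7⟩]⟩]⟩,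
 ⟨nat_lit 5, [⟨nat_lit 1, [⟨nat_lit 5, nat_lit 12336, nat_lit 10656, nat_lit 20304, nat_lit 9504, nat_lit 384, R13_423, R11_198, R10_8⟩]⟩]⟩]]], [[], [[⟨nat_lit 1, [⟨nat_lit 0, [⟨nat_lit 5, nat_lit 13488, nat_lit 14640, nat_lit 12288, nat_lit 14400, nat_lit 11520, R7_256, R10_300, R4_240⟩]⟩, ⟨nat_lit 1, [⟨nat_lit 5, nat_lit 13632, nat_lit 14784, nat_lit 10800, nat_lit 14592, nat_lit 10368, R2_225, R10_304, R3_216⟩]⟩]⟩]], [], [], [], [[⟨nat_lit 5, [⟨nat_lit 0, [⟨nat_lit 5, nat_lit 13344, nat_lit 13344, nat_lit 11616, nat_lit 7584, nat_lit 11616, R4_242, R11_158, R4_242⟩]⟩]⟩]]], [[], [], [], [], [[], [⟨nat_lit 4, [⟨nat_lit 1, [⟨nat_lit 5, nat_lit 13104, nat_lit 8880, nat_lit 14544, nat_lit 10848, nat_lit 6960, R4_303, R4_226, R10_145⟩]⟩]⟩], [], [], [], [⟨nat_lit 4, [⟨nat_lit 5, [⟨nat_lit 4, nat_lit 12384, nat_lit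 8784, nat_lit 16272, nat_lit 11184, nat_lit 4416, R7_339, R6_233, R5_92⟩, ⟨nat_lit 5, nat_lit 12432, nat_lit 8832, nat_lit 16416, nat_lit 11856, nat_lit 4416, R7_342, R4_247, R11_92⟩]⟩]⟩]]], [[], [], [], [], [[⟨nat_lit 4, [⟨nat_lit 0, [⟨nat_lit 5, nat_lit 14064, nat_lit 5472, nat_lit 16320, nat_lit 4560, nat_lit 8592, R6_340, R4_95, R4_179⟩]⟩, ⟨nat_lit 1, [⟨nat_lit 5, nat_lit 14160, nat_lit 5520, nat_lit 16464, nat_lit 4800, nat_lit 11376, R8_343, R4_100, R3_237⟩]⟩]⟩,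
 ⟨nat_lit 7, [⟨nat_lit 0, [⟨nat_lit 5, nat_lit 14112, nat_lit 6096, nat_lit 10800, nat_lit 144, nat_lit 8688, R4_225, R3_3, R4_181⟩]⟩, ⟨nat_lit 1, [⟨nat_lit 5, nat_lit 14208, nat_lit 6144, nat_lit 13104, nat_lit 192, nat_lit 11472, R5_273, R3_4, R3_239⟩]⟩]⟩], [⟨nat_lit 4, [⟨nat_lit 1, [⟨nat_lit 5, nat_lit 14640, nat_lit 7632, nat_lit 16512, nat_lit 7440, nat_lit 8736, R8_344, R4_155, R10_182⟩]⟩]⟩], [], [⟨nat_lit 4, [⟨nat_lit 0, [⟨nat_lit 5, nat_lit 14928, nat_lit 5808, nat_lit 16368, nat_lit 5664, nat_lit 4368, R6_341, R4_118, R5_91⟩]⟩, ⟨nat_lit 3, [⟨nat_lit 5, nat_lit 15120, nat_lit 5856, nat_lit 15120, nat_lit 5856, nat_lit 4368, R4_315, R4_122, R11_91⟩]⟩]⟩,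
 ⟨nat_lit 7, [⟨nat_lit 0, [⟨nat_lit 5, nat_lit 14976, nat_lit 6432, nat_lit 11232, nat_lit 864, nat_lit 5136, R4_234, R3_18, R5_107⟩]⟩]⟩]], [[⟨nat_lit 4, [⟨nat_lit 0, [⟨nat_lit 5, nat_lit 14256, nat_lit 14064, nat_lit 17088, nat_lit 8016, nat_lit 8976, R6_356, R5_167, R4_187⟩]⟩, ⟨nat_lit 1, [⟨nat_lit 5, nat_lit 14400, nat_lit 14208, nat_lit 16608, nat_lit 9264, nat_lit 16368, R8_346, R5_193, R3_341⟩]⟩]⟩,
 ⟨nat_lit 5, [⟨nat_lit 0, [⟨nat_lit 5, nat_lit 14304, nat_lit 14112, nat_lit 10752, nat_lit 7536, nat_lit 9072, R8_224, R11_157, R4_189⟩]⟩, ⟨nat_lit 1, [⟨nat_lit 5, nat_lit 14448, nat_lit 14256, nat_lit 16656, nat_lit 7872, nat_lit 16560, R9_347, R11_164, R3_345⟩]⟩]⟩], [⟨nat_lit 4, [⟨nat_lit 1, [⟨nat_lit 5, nat_lit 14736, nat_lit 8256, nat_lit 16656, nat_lit 9504, nat_lit 9456, R8_347, R5_198, R10_197⟩]⟩]⟩,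
 ⟨nat_lit 5, [⟨nat_lit 1, [⟨nat_lit 5, nat_lit 14784, nat_lit 8304, nat_lit 16704, nat_lit 9552, nat_lit 9552, R9_348, R11_199, R10_199⟩]⟩]⟩], [], [⟨nat_lit 4, [⟨nat_lit 0, [⟨nat_lit 5, nat_lit 15168, nat_lit 8784, nat_lit 17136, nat_lit 8160, nat_lit 4656, R6_357, R5_170, R5_97⟩]⟩, ⟨nat_lit 3, [⟨nat_lit 5, nat_lit 15456, nat_lit 8880, nat_lit 15456, nat_lit 8880, nat_lit 4656, R4_322, R5_185, R11_97⟩]⟩]⟩,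
 ⟨nat_lit 5, [⟨nat_lit 0, [⟨nat_lit 5, nat_lit 15216, nat_lit 8928, nat_lit 10800, nat_lit 8400, nat_lit 6288, R8_225, R11_175, R5_131⟩]⟩, ⟨nat_lit 3, [⟨nat_lit 5, nat_lit 15504, nat_lit 9024, nat_lit 17088, nat_lit 8544, nat_lit 4704, R5_356, R11_178, R11_98⟩]⟩]⟩]], [], [[⟨nat_lit 7, [⟨nat_lit 0, [⟨nat_lit 5, nat_lit 14544, nat_lit 13104, nat_lit 10848, nat_lit 6960, nat_lit 8880, R4_226, R10_145, R4_185⟩]⟩]⟩], [⟨nat_lit 7, [⟨nat_lit 1, [⟨nat_lit 5, nat_lit 14880, nat_lit 16224, nat_lit 13344, nat_lit 8544, nat_lit 9264, R5_278, R10_178, R10_193⟩]⟩]⟩]]]]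
noncomputable def N0073 : T3 (List N0) := [[[], [], [], [[⟨nat_lit 3, [⟨nat_lit 0, [⟨nat_lit 6, nat_lit 2112, nat_lit 816, nat_lit 144, nat_lit 14352, nat_lit 13296, R6_3, R10_299, R7_277⟩]⟩, ⟨nat_lit 2, [⟨nat_lit 6, nat_lit 2304, nat_lit 3024, nat_lit 1200, nat_lit 15648, nat_lit 192, R8_25, R10_326, R14_4⟩]⟩]⟩], [], [⟨nat_lit 3, [⟨nat_lit 2, [⟨nat_lit 6, nat_lit 2400, nat_lit 3984, nat_lit 1392, nat_lit 16512, nat_lit 768, R8_29, R10_344, R12_16⟩]⟩]⟩]], [[], [], [], [], [], [], [], [⟨nat_lit 2, [⟨nat_lit 6, [⟨nat_lit 3, nat_lit 1632, nat_lit 4128, nat_lit 1104, nat_lit 4512, nat_lit 13152, R7_23, R5_94, R10_274⟩]⟩]⟩,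
 ⟨nat_lit 4, [⟨nat_lit 7, [⟨nat_lit 2, nat_lit 2832, nat_lit 816, nat_lit 144, nat_lit 13296, nat_lit 14352, R6_3, R7_277, R10_299⟩]⟩]⟩,
 ⟨nat_lit 6, [⟨nat_lit 7, [⟨nat_lit 2, nat_lit 4080, nat_lit 3024, nat_lit 192, nat_lit 192, nat_lit 15648, R8_4, R14_4, R10_326⟩]⟩]⟩]], [], [], [[], [], [], [], [], [], [], [⟨nat_lit 2, [⟨nat_lit 6, [⟨nat_lit 3, nat_lit 2064, nat_lit 4272, nat_lit 1152, nat_lit 17376, nat_lit 13200, R7_24, R11_362, R10_275⟩]⟩]⟩,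
 ⟨nat_lit 6, [⟨nat_lit 7, [⟨nat_lit 2, nat_lit 4464, nat_lit 2688, nat_lit 720, nat_lit 12864, nat_lit 17424, R8_15, R12_268, R10_363⟩]⟩]⟩]]], [[[⟨nat_lit 0, [⟨nat_lit 0, [⟨nat_lit 6, nat_lit 4704, nat_lit 11136, nat_lit 12192, nat_lit 8640, nat_lit 15504, R6_254, R4_180, R7_323⟩]⟩, ⟨nat_lit 2, [⟨nat_lit 4, nat_lit 4848, nat_lit 10944, nat_lit 1008, nat_lit 8544, nat_lit 2976, R13_21, R6_178, R7_62⟩, ⟨nat_lit 6, nat_lit 4896, nat_lit 11232, nat_lit 1056, nat_lit 9216, nat_lit 768, R13_22, R4_192, R14_16⟩]⟩]⟩,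
 ⟨nat_lit 1, [⟨nat_lit 0, [⟨nat_lit 6, nat_lit 5520, nat_lit 11184, nat_lit 12384, nat_lit 4416, nat_lit 16272, R4_258, R5_92, R7_339⟩]⟩]⟩], [], [⟨nat_lit 0, [⟨nat_lit 2, [⟨nat_lit 6, nat_lit 4992, nat_lit 3840, nat_lit 1152, nat_lit 9360, nat_lit 192, R13_24, R4_195, R12_4⟩]⟩]⟩,
 ⟨nat_lit 1, [⟨nat_lit 2, [⟨nat_lit 6, nat_lit 5856, nat_lit 3984, nat_lit 1344, nat_lit 4848, nat_lit 240, R3_28, R5_101, R12_5⟩]⟩]⟩]], [[⟨nat_lit 1, [⟨nat_lit 0, [⟨nat_lit 6, nat_lit 5568, nat_lit 11856, nat_lit 12432, nat_lit 4416, nat_lit 16416, R4_259, R11_92, R7_342⟩]⟩, ⟨nat_lit 2, [⟨nat_lit 4, nat_lit 5952, nat_lit 11808, nat_lit 1440, nat_lit 14784, nat_lit 12480, R3_30, R5_308, R7_260⟩, ⟨nat_lit 6, nat_lit 6000, nat_lit 11904, nat_lit 1488, nat_lit 4464, nat_lit 1776, R3_31, R11_93, R14_37⟩]⟩]⟩], [], [⟨nat_lit 1, [⟨nat_lit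 2, [⟨nat_lit 6, nat_lit 6096, nat_lit 3504, nat_lit 1584, nat_lit 4848, nat_lit 2352, R3_33, R11_101, R12_49⟩]⟩]⟩]], [], [[⟨nat_lit 0, [⟨nat_lit 2, [⟨nat_lit 4, nat_lit 5136, nat_lit 10992, nat_lit 1248, nat_lit 15696, nat_lit 9168, R13_26, R13_327, R7_191⟩]⟩]⟩,
 ⟨nat_lit 3, [⟨nat_lit 0, [⟨nat_lit 6, nat_lit 7584, nat_lit 10464, nat_lit 14400, nat_lit 14448, nat_lit 16080, R8_300, R10_301, R7_335⟩]⟩, ⟨nat_lit 2, [⟨nat_lit 6, nat_lit 7728, nat_lit 11616, nat_lit 528, nat_lit 15744, nat_lit 1248, R9_11, R10_328, R14_26⟩]⟩]⟩], [], [⟨nat_lit 0, [⟨nat_lit 2, [⟨nat_lit 6, nat_lit 5280, nat_lit 2928, nat_lit 1536, nat_lit 12000, nat_lit 1200, R13_32, R3_250, R12_25⟩]⟩]⟩,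
 ⟨nat_lit 3, [⟨nat_lit 2, [⟨nat_lit 6, nat_lit 7824, nat_lit 3168, nat_lit 720, nat_lit 16608, nat_lit 1248, R9_15, R10_346, R12_26⟩]⟩]⟩], [⟨nat_lit 0, [⟨nat_lit 2, [⟨nat_lit 6, nat_lit 5424, nat_lit 2688, nat_lit 1392, nat_lit 11952, nat_lit 15552, R13_29, R3_249, R12_324⟩]⟩]⟩,
 ⟨nat_lit 3, [⟨nat_lit 2, [⟨nat_lit 6, nat_lit 7968, nat_lit 3072, nat_lit 624, nat_lit 17472, nat_lit 15744, R9_13, R10_364, R12_328⟩]⟩]⟩]]], [[], [], [], [], [[], [], [], [], [⟨nat_lit 4, [⟨nat_lit 4, [⟨nat_lit 2, nat_lit 8640, nat_lit 11136, nat_lit 12192, nat_lit 15504, nat_lit 8640, R6_254, R7_323, R4_180⟩]⟩, ⟨nat_lit 5, [⟨nat_lit 2, nat_lit 8784, nat_lit 11184, nat_lit 12384, nat_lit 16272, nat_lit 4416, R4_258, R7_339, R5_92⟩]⟩]⟩,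
 ⟨nat_lit 6, [⟨nat_lit 4, [⟨nat_lit 0, nat_lit 9072, nat_lit 10944, nat_lit 1008, nat_lit 2976, nat_lit 8544, R13_21, R7_62, R6_178⟩, ⟨nat_lit 2, nat_lit 9120, nat_lit 11232, nat_lit 1056, nat_lit 768, nat_lit 9216, R13_22, R14_16, R4_192⟩]⟩, ⟨nat_lit 5, [⟨nat_lit 0, nat_lit 9744, nat_lit 10992, nat_lit 1200, nat_lit 4032, nat_lit 144, R3_25, R7_84, R8_3⟩, ⟨nat_lit 2, nat_lit 9792, nat_lit 11280, nat_lit 1248, nat_lit 816, nat_lit 4464, R3_26, R14_17, R5_93⟩]⟩, ⟨nat_lit 6, [⟨nat_lit 0, nat_lit 10608, nat_lit 11040, nat_lit 12336, nat_lit 3600, nat_lit 1584, R3_257, R7_75, R4_33⟩]⟩]⟩], [⟨nat_lit 4, [⟨nat_lit 5, [⟨nat_lit 2, nat_lit 8832, nat_lit 11856, nat_lit 12432, nat_lit 16416, nat_lit 4416, R4_259, R7_342, R11_92⟩]⟩]⟩,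
 ⟨nat_lit 6, [⟨nat_lit 5, [⟨nat_lit 0, nat_lit 9840, nat_lit 11808, nat_lit 1440, nat_lit 12480, nat_lit 14784, R3_30, R7_260, R5_308⟩, ⟨nat_lit 2, nat_lit 9888, nat_lit 11904, nat_lit 1488, nat_lit 1776, nat_lit 4464, R3_31, R14_37, R11_93⟩]⟩]⟩], [], [⟨nat_lit 4, [⟨nat_lit 4, [⟨nat_lit 2, nat_lit 8688, nat_lit 10416, nat_lit 12240, nat_lit 15600, nat_lit 11040, R6_255, R7_325, R3_230⟩]⟩, ⟨nat_lit 7, [⟨nat_lit 2, nat_lit 8976, nat_lit 10464, nat_lit 14400, nat_lit 16080, nat_lit 14448, R8_300, R7_335, R10_301⟩]⟩]⟩,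
 ⟨nat_lit 6, [⟨nat_lit 4, [⟨nat_lit 0, nat_lit 9168, nat_lit 10992, nat_lit 1248, nat_lit 9168, nat_lit 15696, R13_26, R7_191, R13_327⟩, ⟨nat_lit 2, nat_lit 9216, nat_lit 11568, nat_lit 1296, nat_lit 1200, nat_lit 11904, R13_27, R14_25, R3_248⟩]⟩, ⟨nat_lit 5, [⟨nat_lit 0, nat_lit 9936, nat_lit 11088, nat_lit 1680, nat_lit 11040, nat_lit 14016, R3_35, R7_230, R9_292⟩]⟩, ⟨nat_lit 6, [⟨nat_lit 0, nat_lit 10656, nat_lit 11136, nat_lit 12384, nat_lit 10656, nat_lit 12384, R3_258, R7_222, R3_258⟩]⟩, ⟨nat_lit 7, [⟨nat_lit 0, nat_lit 11040, nat_lit 11040, nat_lit 480, nat_lit 9936, nat_lit 1680, R9_10, R7_207, R3_35⟩, ⟨nat_lit 2, nat_lit 11088, nat_lit 11616, nat_lit 528, nat_lit 1248, nat_lit 15744, R9_11, R14_26, R10_328⟩]⟩]⟩]], [], [[], [], [], [], [⟨nat_lit 6, [⟨nat_lit 4, [⟨nat_lit 2, nat_lit 9312, nat_lit 3840,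 nat_lit 1152, nat_lit 192, nat_lit 9360, R13_24, R12_4, R4_195⟩]⟩, ⟨nat_lit 5, [⟨nat_lit 2, nat_lit 10080, nat_lit 3984, nat_lit 1344, nat_lit 240, nat_lit 4848, R3_28, R12_5, R5_101⟩]⟩]⟩], [⟨nat_lit 6, [⟨nat_lit 5, [⟨nat_lit 2, nat_lit 10224, nat_lit 3504, nat_lit 1584, nat_lit 2352, nat_lit 4848, R3_33, R12_49, R11_101⟩]⟩]⟩], [], [⟨nat_lit 6, [⟨nat_lit 4, [⟨nat_lit 2, nat_lit 9504, nat_lit 2928, nat_lit 1536, nat_lit 1200, nat_lit 12000, R13_32, R12_25, R3_250⟩]⟩, ⟨nat_lit 7, [⟨nat_lit 2, nat_lit 11184, nat_lit 3168, nat_lit 720, nat_lit 1248, nat_lit 16608, R9_15, R12_26, R10_346⟩]⟩]⟩]], [[], [], [], [], [], [], [], [⟨nat_lit 6, [⟨nat_lit 7, [⟨nat_lit 2, nat_lit 11328, nat_lit 3072, nat_lit 624, nat_lit 15744, nat_lit 17472, R9_13, R12_328, R10_364⟩]⟩]⟩]]], [[], [], [], [[⟨nat_lit 3, [⟨nat_lit 0, [⟨nat_lit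 6, nat_lit 11424, nat_lit 11520, nat_lit 13488, nat_lit 14400, nat_lit 14640, R4_281, R10_300, R7_305⟩]⟩, ⟨nat_lit 2, [⟨nat_lit 4, nat_lit 11568, nat_lit 11808, nat_lit 14784, nat_lit 1440, nat_lit 9840, R5_308, R3_30, R7_205⟩, ⟨nat_lit 6, nat_lit 11616, nat_lit 11952, nat_lit 14976, nat_lit 15696, nat_lit 384, R5_312, R10_327, R14_8⟩]⟩]⟩], [], [⟨nat_lit 3, [⟨nat_lit 2, [⟨nat_lit 6, nat_lit 11712, nat_lit 13728, nat_lit 15120, nat_lit 16560, nat_lit 1056, R5_315, R10_345, R12_22⟩]⟩]⟩]], [[], [], [], [⟨nat_lit 4, [⟨nat_lit 3, [⟨nat_lit 2, nat_lit 12096, nat_lit 12096, nat_lit 14880, nat_lit 14880, nat_lit 18336, R7_310, R7_310, R11_382⟩]⟩]⟩], [], [], [], [⟨nat_lit 4, [⟨nat_lit 7, [⟨nat_lit 2, nat_lit 12288, nat_lit 11520, nat_lit 13488, nat_lit 14640, nat_lit 14400, R4_281, R7_305, R10_300⟩]⟩]⟩,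
 ⟨nat_lit 6, [⟨nat_lit 7, [⟨nat_lit 0, nat_lit 12480, nat_lit 11808, nat_lit 14784, nat_lit 9840, nat_lit 1440, R5_308, R7_205, R3_30⟩, ⟨nat_lit 2, nat_lit 12528, nat_lit 11952, nat_lit 14976, nat_lit 384, nat_lit 15696, R5_312, R14_8, R10_327⟩]⟩]⟩]], [], [[], [], [], [], [], [], [], [⟨nat_lit 6, [⟨nat_lit 7, [⟨nat_lit 2, nat_lit 12624, nat_lit 13728, nat_lit 15120, nat_lit 1056, nat_lit 16560, R5_315, R12_22, R10_345⟩]⟩]⟩]], [[⟨nat_lit 7, [⟨nat_lit 0, [⟨nat_lit 6, nat_lit 12912, nat_lit 12096, nat_lit 14880, nat_lit 18336, nat_lit 14880, R7_310, R11_382, R7_310⟩]⟩]⟩]]], [[], [], [], [], [[], [⟨nat_lit 4, [⟨nat_lit 1, [⟨nat_lit 2, nat_lit 13296, nat_lit 10656, nat_lit 13728, nat_lit 2832, nat_lit 48, R6_286, R7_59, R10_1⟩]⟩]⟩]], [[⟨nat_lit 5, [⟨nat_lit 0, [⟨nat_lit 6, nat_lit 13440, nat_lit 10656, nat_lit 13728,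 nat_lit 48, nat_lit 2832, R6_286, R10_1, R7_59⟩]⟩]⟩]]], [[], [[⟨nat_lit 1, [⟨nat_lit 0, [⟨nat_lit 6, nat_lit 13728, nat_lit 12096, nat_lit 14880, nat_lit 18336, nat_lit 12096, R7_310, R11_382, R7_252⟩]⟩]⟩]], [], [], [], [[⟨nat_lit 5, [⟨nat_lit 0, [⟨nat_lit 6, nat_lit 14256, nat_lit 11520, nat_lit 13488, nat_lit 7008, nat_lit 12288, R4_281, R10_146, R7_256⟩]⟩]⟩]]], [[], [], [], [], [[], [⟨nat_lit 4, [⟨nat_lit 1, [⟨nat_lit 2, nat_lit 14640, nat_lit 11520, nat_lit 13488, nat_lit 12288, nat_lit 7008, R4_281, R7_256, R10_146⟩]⟩]⟩], [], [], [], [⟨nat_lit 4, [⟨nat_lit 5, [⟨nat_lit 2, nat_lit 14880, nat_lit 12096, nat_lit 14880, nat_lit 12096, nat_lit 18336, R7_310, R7_252, R11_382⟩]⟩]⟩]]], [[], [], [], [], [[⟨nat_lit 4, [⟨nat_lit 0, [⟨nat_lit 2, nat_lit 15504, nat_lit 11136, nat_lit 12192, nat_lit 8640, nat_lit 8640,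 R6_254, R7_180, R4_180⟩, ⟨nat_lit 6, nat_lit 15456, nat_lit 10032, nat_lit 12720, nat_lit 8640, nat_lit 8640, R6_265, R4_180, R7_180⟩]⟩, ⟨nat_lit 3, [⟨nat_lit 2, nat_lit 16272, nat_lit 11184, nat_lit 12384, nat_lit 8784, nat_lit 4416, R4_258, R7_183, R5_92⟩]⟩]⟩,
 ⟨nat_lit 7, [⟨nat_lit 0, [⟨nat_lit 6, nat_lit 17280, nat_lit 10512, nat_lit 12384, nat_lit 4416, nat_lit 8784, R4_258, R5_92, R7_183⟩]⟩]⟩], [⟨nat_lit 4, [⟨nat_lit 0, [⟨nat_lit 2, nat_lit 15600, nat_lit 10416, nat_lit 12240, nat_lit 8688, nat_lit 11040, R6_255, R7_181, R3_230⟩]⟩, ⟨nat_lit 1, [⟨nat_lit 2, nat_lit 16080, nat_lit 10464, nat_lit 14400, nat_lit 8976, nat_lit 8784, R8_300, R7_187, R10_183⟩]⟩]⟩], [], [⟨nat_lit 4, [⟨nat_lit 3, [⟨nat_lit 2, nat_lit 16416, nat_lit 11856, nat_lit 12432, nat_lit 8832, nat_lit 4416, R4_259, R7_184, R11_92⟩]⟩]⟩]],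 [[⟨nat_lit 5, [⟨nat_lit 0, [⟨nat_lit 6, nat_lit 16752, nat_lit 10464, nat_lit 14400, nat_lit 8784, nat_lit 8976, R8_300, R10_183, R7_187⟩]⟩]⟩]], [], [[⟨nat_lit 7, [⟨nat_lit 0, [⟨nat_lit 6, nat_lit 17568, nat_lit 11856, nat_lit 12432, nat_lit 4416, nat_lit 8832, R4_259, R11_92, R7_184⟩]⟩]⟩]]]]
noncomputable def N0102 : T3 (List N0) := [[], [[[⟨nat_lit 0, [⟨nat_lit 0, [⟨nat_lit 2, nat_lit 4464, nat_lit 5040, nat_lit 4752, nat_lit 12000, nat_lit 17568, R4_99, R6_250, R8_366⟩]⟩]⟩,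
 ⟨nat_lit 3, [⟨nat_lit 0, [⟨nat_lit 0, nat_lit 4608, nat_lit 4800, nat_lit 912, nat_lit 11808, nat_lit 14592, R5_19, R6_246, R6_304⟩, ⟨nat_lit 2, nat_lit 4656, nat_lit 5088, nat_lit 9168, nat_lit 12720, nat_lit 18288, R5_191, R8_265, R8_381⟩]⟩, ⟨nat_lit 3, [⟨nat_lit 0, nat_lit 4752, nat_lit 4848, nat_lit 480, nat_lit 11856, nat_lit 2544, R11_10, R6_247, R13_53⟩, ⟨nat_lit 2, nat_lit 4800, nat_lit 5136, nat_lit 528, nat_lit 12816, nat_lit 1872, R11_11, R8_267, R9_39⟩]⟩]⟩], [], [⟨nat_lit 0, [⟨nat_lit 0, [⟨nat_lit 2, nat_lit 4992, nat_lit 5520, nat_lit 4944, nat_lit 12096, nat_lit 3264, R4_103, R6_252, R5_68⟩]⟩, ⟨nat_lit 2, [⟨nat_lit 2, nat_lit 5040, nat_lit 5568, nat_lit 96, nat_lit 12144, nat_lit 624, R3_2, R6_253, R11_13⟩]⟩]⟩,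
 ⟨nat_lit 2, [⟨nat_lit 2, [⟨nat_lit 2, nat_lit 5088, nat_lit 6000, nat_lit 384, nat_lit 12336, nat_lit 720, R10_8, R4_257, R11_15⟩]⟩]⟩,
 ⟨nat_lit 3, [⟨nat_lit 0, [⟨nat_lit 0, nat_lit 5232, nat_lit 5616, nat_lit 3264, nat_lit 12096, nat_lit 4944, R5_68, R6_252, R4_103⟩, ⟨nat_lit 2, nat_lit 5280, nat_lit 5664, nat_lit 11328, nat_lit 12864, nat_lit 11328, R5_236, R8_268, R5_236⟩]⟩, ⟨nat_lit 3, [⟨nat_lit 0, nat_lit 5376, nat_lit 5712, nat_lit 624, nat_lit 12144, nat_lit 96, R11_13, R6_253, R3_2⟩, ⟨nat_lit 3, nat_lit 5472, nat_lit 5760, nat_lit 720, nat_lit 12336, nat_lit 384, R11_15, R4_257, R10_8⟩]⟩]⟩,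
 ⟨nat_lit 4, [⟨nat_lit 4, [⟨nat_lit 7, nat_lit 5520, nat_lit 4992, nat_lit 4944, nat_lit 12096, nat_lit 3264, R4_103, R6_252, R5_68⟩]⟩, ⟨nat_lit 7, [⟨nat_lit 7, nat_lit 5568, nat_lit 5040, nat_lit 96, nat_lit 12144, nat_lit 624, R3_2, R6_253, R11_13⟩]⟩]⟩,
 ⟨nat_lit 6, [⟨nat_lit 4, [⟨nat_lit 4, nat_lit 5616, nat_lit 5232, nat_lit 3264, nat_lit 12096, nat_lit 4944, R5_68, R6_252, R4_103⟩, ⟨nat_lit 7, nat_lit 5664, nat_lit 5280, nat_lit 11328, nat_lit 12864, nat_lit 11328, R5_236, R8_268, R5_236⟩]⟩, ⟨nat_lit 6, [⟨nat_lit 4, nat_lit 5712, nat_lit 5376, nat_lit 624, nat_lit 12144, nat_lit 96, R11_13, R6_253, R3_2⟩, ⟨nat_lit 6, nat_lit 5760, nat_lit 5472, nat_lit 720, nat_lit 12336, nat_lit 384, R11_15, R4_257, R10_8⟩]⟩]⟩,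
 ⟨nat_lit 7, [⟨nat_lit 7, [⟨nat_lit 7, nat_lit 6000, nat_lit 5088, nat_lit 384, nat_lit 12336, nat_lit 720, R10_8, R4_257, R11_15⟩]⟩]⟩]], [[⟨nat_lit 0, [⟨nat_lit 0, [⟨nat_lit 0, nat_lit 6048, nat_lit 5136, nat_lit 96, nat_lit 8496, nat_lit 15936, R4_2, R6_177, R6_332⟩, ⟨nat_lit 2, nat_lit 6096, nat_lit 5328, nat_lit 5328, nat_lit 16080, nat_lit 17712, R4_111, R13_335, R8_369⟩]⟩, ⟨nat_lit 2, [⟨nat_lit 2, nat_lit 6144, nat_lit 5472, nat_lit 3792, nat_lit 16128, nat_lit 3456, R3_79, R13_336, R5_72⟩]⟩]⟩,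
 ⟨nat_lit 2, [⟨nat_lit 2, [⟨nat_lit 2, nat_lit 6192, nat_lit 5568, nat_lit 480, nat_lit 8832, nat_lit 3552, R10_10, R3_184, R5_74⟩]⟩]⟩,
 ⟨nat_lit 3, [⟨nat_lit 0, [⟨nat_lit 0, nat_lit 6240, nat_lit 5184, nat_lit 1488, nat_lit 4512, nat_lit 16176, R5_31, R8_94, R6_337⟩, ⟨nat_lit 2, nat_lit 6288, nat_lit 5376, nat_lit 9936, nat_lit 13728, nat_lit 18576, R5_207, R9_286, R8_387⟩]⟩, ⟨nat_lit 3, [⟨nat_lit 0, nat_lit 6384, nat_lit 5232, nat_lit 768, nat_lit 4752, nat_lit 4272, R11_16, R8_99, R13_89⟩, ⟨nat_lit 2, nat_lit 6432, nat_lit 5424, nat_lit 816, nat_lit 13824, nat_lit 3504, R11_17, R9_288, R9_73⟩, ⟨nat_lit 3, nat_lit 6480, nat_lit 5280, nat_lit 864, nat_lit 14688, nat_lit 17472, R11_18, R5_306, R3_364⟩]⟩]⟩], [], [⟨nat_lit 0, [⟨nat_lit 0, [⟨nat_lit 0, nat_lit 6528, nat_lit 3744, nat_lit 240, nat_lit 8592, nat_lit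 2064, R4_5, R6_179, R4_43⟩, ⟨nat_lit 2, nat_lit 6576, nat_lit 3792, nat_lit 5472, nat_lit 16176, nat_lit 3456, R4_114, R13_337, R5_72⟩]⟩, ⟨nat_lit 2, [⟨nat_lit 2, nat_lit 6624, nat_lit 3840, nat_lit 3840, nat_lit 16224, nat_lit 3456, R3_80, R13_338, R11_72⟩]⟩]⟩,
 ⟨nat_lit 2, [⟨nat_lit 2, [⟨nat_lit 2, nat_lit 6672, nat_lit 4272, nat_lit 528, nat_lit 8928, nat_lit 3552, R10_11, R3_186, R11_74⟩]⟩]⟩,
 ⟨nat_lit 3, [⟨nat_lit 0, [⟨nat_lit 0, nat_lit 6816, nat_lit 3888, nat_lit 3840, nat_lit 5184, nat_lit 7584, R5_80, R8_108, R4_158⟩, ⟨nat_lit 2, nat_lit 6864, nat_lit 3936, nat_lit 12192, nat_lit 13872, nat_lit 11664, R5_254, R9_289, R5_243⟩]⟩, ⟨nat_lit 3, [⟨nat_lit 0, nat_lit 6960, nat_lit 3984, nat_lit 912, nat_lit 5520, nat_lit 2352, R11_19, R8_115, R3_49⟩, ⟨nat_lit 3, nat_lit 7056, nat_lit 4032, nat_lit 1008, nat_lit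 14736, nat_lit 2496, R11_21, R5_307, R10_52⟩]⟩]⟩]], [[], [], [⟨nat_lit 4, [⟨nat_lit 4, [⟨nat_lit 4, nat_lit 7200, nat_lit 3744, nat_lit 2064, nat_lit 8592, nat_lit 240, R4_43, R6_179, R4_5⟩, ⟨nat_lit 7, nat_lit 7248, nat_lit 3888, nat_lit 7584, nat_lit 5184, nat_lit 3840, R4_158, R8_108, R5_80⟩]⟩, ⟨nat_lit 7, [⟨nat_lit 7, nat_lit 7296, nat_lit 3984, nat_lit 2352, nat_lit 5520, nat_lit 912, R3_49, R8_115, R11_19⟩]⟩]⟩,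
 ⟨nat_lit 6, [⟨nat_lit 4, [⟨nat_lit 4, nat_lit 7344, nat_lit 3792, nat_lit 3456, nat_lit 16176, nat_lit 5472, R5_72, R13_337, R4_114⟩, ⟨nat_lit 7, nat_lit 7392, nat_lit 3936, nat_lit 11664, nat_lit 13872, nat_lit 12192, R5_243, R9_289, R5_254⟩]⟩, ⟨nat_lit 6, [⟨nat_lit 4, nat_lit 7440, nat_lit 3840, nat_lit 3456, nat_lit 16224, nat_lit 3840, R11_72, R13_338, R3_80⟩, ⟨nat_lit 6, nat_lit 7488, nat_lit 4272, nat_lit 3552, nat_lit 8928, nat_lit 528, R11_74, R3_186, R10_11⟩]⟩]⟩,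
 ⟨nat_lit 7, [⟨nat_lit 7, [⟨nat_lit 7, nat_lit 7632, nat_lit 4032, nat_lit 2496, nat_lit 14736, nat_lit 1008, R10_52, R5_307, R11_21⟩]⟩]⟩], [], [], [], [⟨nat_lit 4, [⟨nat_lit 4, [⟨nat_lit 4, nat_lit 7728, nat_lit 3264, nat_lit 2208, nat_lit 8640, nat_lit 432, R4_46, R6_180, R7_9⟩, ⟨nat_lit 5, nat_lit 7776, nat_lit 3312, nat_lit 11088, nat_lit 9264, nat_lit 21600, R4_231, R4_193, R14_450⟩]⟩, ⟨nat_lit 7, [⟨nat_lit 4, nat_lit 7824, nat_lit 3360, nat_lit 2064, nat_lit 8784, nat_lit 1776, R3_43, R6_183, R2_37⟩, ⟨nat_lit 5, nat_lit 7872, nat_lit 3408, nat_lit 2784, nat_lit 9408, nat_lit 10224, R3_58, R4_196, R12_213⟩]⟩]⟩,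
 ⟨nat_lit 6, [⟨nat_lit 4, [⟨nat_lit 4, nat_lit 7968, nat_lit 3552, nat_lit 2592, nat_lit 15840, nat_lit 5376, R5_54, R13_330, R7_112⟩, ⟨nat_lit 5, nat_lit 8016, nat_lit 3600, nat_lit 13824, nat_lit 12048, nat_lit 21936, R5_288, R3_251, R14_457⟩]⟩, ⟨nat_lit 6, [⟨nat_lit 4, nat_lit 8064, nat_lit 3792, nat_lit 2592, nat_lit 15888, nat_lit 3792, R11_54, R13_331, R2_79⟩, ⟨nat_lit 5, nat_lit 8112, nat_lit 3840, nat_lit 2688, nat_lit 12096, nat_lit 16848, R11_56, R3_252, R12_351⟩]⟩]⟩]], [[⟨nat_lit 3, [⟨nat_lit 0, [⟨nat_lit 0, nat_lit 8400, nat_lit 7536, nat_lit 1200, nat_lit 4656, nat_lit 15360, R5_25, R4_97, R6_320⟩, ⟨nat_lit 2, nat_lit 8448, nat_lit 7872, nat_lit 9552, nat_lit 10176, nat_lit 18432, R5_199, R5_212, R8_384⟩]⟩, ⟨nat_lit 3, [⟨nat_lit 0, nat_lit 8544, nat_lit 8112, nat_lit 1056, nat_lit 5232, nat_lit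 3456, R11_22, R4_109, R13_72⟩, ⟨nat_lit 2, nat_lit 8592, nat_lit 8832, nat_lit 1104, nat_lit 10368, nat_lit 2544, R11_23, R5_216, R9_53⟩]⟩]⟩,
 ⟨nat_lit 4, [⟨nat_lit 7, [⟨nat_lit 3, nat_lit 8640, nat_lit 7056, nat_lit 1296, nat_lit 5808, nat_lit 2400, R3_27, R7_121, R2_50⟩]⟩]⟩,
 ⟨nat_lit 7, [⟨nat_lit 7, [⟨nat_lit 3, nat_lit 8784, nat_lit 7104, nat_lit 1008, nat_lit 16224, nat_lit 2448, R10_21, R14_338, R2_51⟩]⟩]⟩], [], [⟨nat_lit 3, [⟨nat_lit 0, [⟨nat_lit 0, nat_lit 8832, nat_lit 4368, nat_lit 3600, nat_lit 5760, nat_lit 6144, R5_75, R4_120, R4_128⟩, ⟨nat_lit 2, nat_lit 8880, nat_lit 4416, nat_lit 11808, nat_lit 10224, nat_lit 11520, R5_246, R5_213, R5_240⟩]⟩, ⟨nat_lit 3, [⟨nat_lit 0, nat_lit 8976, nat_lit 4464, nat_lit 1248, nat_lit 6384, nat_lit 816, R11_26, R4_133, R3_17⟩]⟩]⟩,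
 ⟨nat_lit 4, [⟨nat_lit 4, [⟨nat_lit 7, nat_lit 9072, nat_lit 3936, nat_lit 6144, nat_lit 5760, nat_lit 3600, R4_128, R4_120, R5_75⟩]⟩, ⟨nat_lit 7, [⟨nat_lit 7, nat_lit 9168, nat_lit 3984, nat_lit 816, nat_lit 6384, nat_lit 1248, R3_17, R4_133, R11_26⟩]⟩]⟩,
 ⟨nat_lit 6, [⟨nat_lit 4, [⟨nat_lit 7, nat_lit 9216, nat_lit 4224, nat_lit 11520, nat_lit 10224, nat_lit 11808, R5_240, R5_213, R5_246⟩]⟩]⟩], [⟨nat_lit 3, [⟨nat_lit 3, [⟨nat_lit 0, nat_lit 9504, nat_lit 5040, nat_lit 1152, nat_lit 6864, nat_lit 4656, R11_24, R4_143, R3_97⟩]⟩]⟩,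
 ⟨nat_lit 4, [⟨nat_lit 7, [⟨nat_lit 3, nat_lit 9600, nat_lit 4848, nat_lit 1344, nat_lit 5856, nat_lit 480, R3_28, R7_122, R12_10⟩]⟩]⟩,
 ⟨nat_lit 7, [⟨nat_lit 7, [⟨nat_lit 3, nat_lit 9744, nat_lit 4944, nat_lit 1440, nat_lit 16368, nat_lit 528, R10_30, R14_341, R12_11⟩]⟩]⟩]]], [[], [], [[], [], [], [], [], [], [⟨nat_lit 4, [⟨nat_lit 4, [⟨nat_lit 4, nat_lit 9792, nat_lit 8160, nat_lit 3744, nat_lit 8688, nat_lit 288, R8_78, R6_181, R7_6⟩, ⟨nat_lit 5, nat_lit 9840, nat_lit 8208, nat_lit 11712, nat_lit 9312, nat_lit 19728, R8_244, R4_194, R14_411⟩]⟩, ⟨nat_lit 5, [⟨nat_lit 5, nat_lit 9888, nat_lit 8352, nat_lit 480, nat_lit 9504, nat_lit 15504, R5_10, R4_198, R12_323⟩]⟩, ⟨nat_lit 7, [⟨nat_lit 4, nat_lit 9936, nat_lit 8448, nat_lit 816, nat_lit 8832, nat_lit 1584, R9_17, R6_184, R2_33⟩, ⟨nat_lit 5, nat_lit 9984,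 nat_lit 8496, nat_lit 1536, nat_lit 9456, nat_lit 7200, R9_32, R4_197, R12_150⟩]⟩]⟩,
 ⟨nat_lit 6, [⟨nat_lit 4, [⟨nat_lit 4, nat_lit 10080, nat_lit 8256, nat_lit 11712, nat_lit 15984, nat_lit 5232, R9_244, R13_333, R7_109⟩, ⟨nat_lit 5, nat_lit 10128, nat_lit 8304, nat_lit 12336, nat_lit 12192, nat_lit 20304, R9_257, R3_254, R14_423⟩]⟩]⟩]], [], [[], [], [], [], [⟨nat_lit 4, [⟨nat_lit 4, [⟨nat_lit 1, nat_lit 10416, nat_lit 12000, nat_lit 17568, nat_lit 5040, nat_lit 4752, R8_366, R6_105, R4_99⟩]⟩, ⟨nat_lit 5, [⟨nat_lit 1, nat_lit 10464, nat_lit 12048, nat_lit 1056, nat_lit 5184, nat_lit 48, R5_22, R6_108, R3_1⟩]⟩]⟩,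
 ⟨nat_lit 5, [⟨nat_lit 4, [⟨nat_lit 1, nat_lit 10512, nat_lit 12096, nat_lit 3264, nat_lit 5232, nat_lit 4944, R5_68, R13_109, R4_103⟩]⟩, ⟨nat_lit 5, [⟨nat_lit 1, nat_lit 10560, nat_lit 12144, nat_lit 624, nat_lit 5376, nat_lit 96, R11_13, R13_112, R3_2⟩]⟩]⟩], [⟨nat_lit 4, [⟨nat_lit 5, [⟨nat_lit 1, nat_lit 10608, nat_lit 12288, nat_lit 1152, nat_lit 5280, nat_lit 2976, R5_24, R6_110, R10_62⟩]⟩]⟩,
 ⟨nat_lit 5, [⟨nat_lit 5, [⟨nat_lit 1, nat_lit 10656, nat_lit 12336, nat_lit 720, nat_lit 5472, nat_lit 3168, R11_15, R13_114, R10_66⟩]⟩]⟩], [], [⟨nat_lit 4, [⟨nat_lit 4, [⟨nat_lit 1, nat_lit 10704, nat_lit 12432, nat_lit 18288, nat_lit 5088, nat_lit 9168, R8_381, R6_106, R5_191⟩]⟩, ⟨nat_lit 7, [⟨nat_lit 1, nat_lit 10800, nat_lit 12480, nat_lit 1872, nat_lit 5136, nat_lit 528, R9_39, R6_107, R11_11⟩]⟩]⟩,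
 ⟨nat_lit 5, [⟨nat_lit 4, [⟨nat_lit 1, nat_lit 10848, nat_lit 12864, nat_lit 11328, nat_lit 5280, nat_lit 11328, R5_236, R13_110, R5_236⟩]⟩]⟩]], [], [[], [], [], [], [⟨nat_lit 4, [⟨nat_lit 4, [⟨nat_lit 1, nat_lit 10992, nat_lit 10992, nat_lit 17712, nat_lit 5328, nat_lit 5328, R8_369, R4_111, R4_111⟩, ⟨nat_lit 5, nat_lit 11040, nat_lit 11040, nat_lit 10992, nat_lit 5136, nat_lit 5136, R8_229, R7_107, R7_107⟩]⟩, ⟨nat_lit 5, [⟨nat_lit 1, nat_lit 11088, nat_lit 11232, nat_lit 3456, nat_lit 5472, nat_lit 3792, R5_72, R4_114, R3_79⟩, ⟨nat_lit 5, nat_lit 11136, nat_lit 11280, nat_lit 2592, nat_lit 5376, nat_lit 3552, R5_54, R7_112, R2_74⟩]⟩, ⟨nat_lit 7, [⟨nat_lit 5, nat_lit 11184, nat_lit 11472, nat_lit 2832, nat_lit 5232, nat_lit 8256, R9_59, R7_109, R2_172⟩]⟩]⟩,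
 ⟨nat_lit 5, [⟨nat_lit 4, [⟨nat_lit 1, nat_lit 11232, nat_lit 11088, nat_lit 3456, nat_lit 3792, nat_lit 5472, R5_72, R3_79, R4_114⟩, ⟨nat_lit 5, nat_lit 11280, nat_lit 11136, nat_lit 2592, nat_lit 3552, nat_lit 5376, R5_54, R2_74, R7_112⟩]⟩, ⟨nat_lit 5, [⟨nat_lit 1, nat_lit 11328, nat_lit 11328, nat_lit 3456, nat_lit 3840, nat_lit 3840, R11_72, R3_80, R3_80⟩, ⟨nat_lit 5, nat_lit 11376, nat_lit 11376, nat_lit 2592, nat_lit 3792, nat_lit 3792, R11_54, R2_79, R2_79⟩]⟩]⟩,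
 ⟨nat_lit 6, [⟨nat_lit 4, [⟨nat_lit 5, nat_lit 11472, nat_lit 11184, nat_lit 2832, nat_lit 8256, nat_lit 5232, R9_59, R2_172, R7_109⟩]⟩]⟩], [⟨nat_lit 4, [⟨nat_lit 5, [⟨nat_lit 1, nat_lit 11568, nat_lit 8832, nat_lit 3552, nat_lit 5568, nat_lit 3648, R5_74, R4_116, R10_76⟩]⟩]⟩,
 ⟨nat_lit 5, [⟨nat_lit 5, [⟨nat_lit 1, nat_lit 11664, nat_lit 8928, nat_lit 3552, nat_lit 4272, nat_lit 3792, R11_74, R3_89, R10_79⟩]⟩]⟩], [⟨nat_lit 4, [⟨nat_lit 4, [⟨nat_lit 5, nat_lit 11808, nat_lit 11904, nat_lit 11568, nat_lit 5184, nat_lit 19776, R8_241, R7_108, R14_412⟩]⟩, ⟨nat_lit 5, [⟨nat_lit 5, nat_lit 11856, nat_lit 11952, nat_lit 2688, nat_lit 5424, nat_lit 15552, R5_56, R7_113, R12_324⟩]⟩, ⟨nat_lit 7, [⟨nat_lit 5, nat_lit 11904, nat_lit 12000, nat_lit 2928, nat_lit 5280, nat_lit 7488, R9_61, R7_110, R12_156⟩]⟩]⟩,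
 ⟨nat_lit 5, [⟨nat_lit 4, [⟨nat_lit 5, nat_lit 11952, nat_lit 12048, nat_lit 13824, nat_lit 3600, nat_lit 21072, R5_288, R2_75, R14_439⟩]⟩, ⟨nat_lit 5, [⟨nat_lit 5, nat_lit 12000, nat_lit 12096, nat_lit 2688, nat_lit 3840, nat_lit 16848, R11_56, R2_80, R12_351⟩]⟩]⟩,
 ⟨nat_lit 6, [⟨nat_lit 4, [⟨nat_lit 5, nat_lit 12096, nat_lit 12192, nat_lit 12480, nat_lit 8304, nat_lit 20352, R9_260, R2_173, R14_424⟩]⟩]⟩], [⟨nat_lit 4, [⟨nat_lit 4, [⟨nat_lit 1, nat_lit 12240, nat_lit 8784, nat_lit 18576, nat_lit 5376, nat_lit 9936, R8_387, R4_112, R5_207⟩]⟩, ⟨nat_lit 7, [⟨nat_lit 1, nat_lit 12336, nat_lit 8976, nat_lit 3504, nat_lit 5424, nat_lit 816, R9_73, R4_113, R11_17⟩]⟩]⟩,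
 ⟨nat_lit 5, [⟨nat_lit 4, [⟨nat_lit 1, nat_lit 12432, nat_lit 8832, nat_lit 11664, nat_lit 3936, nat_lit 12192, R5_243, R3_82, R5_254⟩]⟩]⟩]], [[], [], [], [], [], [], [], [⟨nat_lit 4, [⟨nat_lit 4, [⟨nat_lit 1, nat_lit 12624, nat_lit 10176, nat_lit 18432, nat_lit 4992, nat_lit 9552, R8_384, R8_104, R5_199⟩]⟩, ⟨nat_lit 7, [⟨nat_lit 1, nat_lit 12720, nat_lit 10368, nat_lit 2544, nat_lit 5040, nat_lit 1104, R9_53, R8_105, R11_23⟩]⟩]⟩,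
 ⟨nat_lit 5, [⟨nat_lit 4, [⟨nat_lit 1, nat_lit 12768, nat_lit 10224, nat_lit 11520, nat_lit 4224, nat_lit 11808, R5_240, R9_88, R5_246⟩]⟩]⟩]]], [[], [], [], [[⟨nat_lit 7, [⟨nat_lit 3, [⟨nat_lit 0, nat_lit 13056, nat_lit 9360, nat_lit 384, nat_lit 4992, nat_lit 3120, R12_8, R7_104, R13_65⟩, ⟨nat_lit 3, nat_lit 13104, nat_lit 9936, nat_lit 432, nat_lit 16416, nat_lit 14064, R12_9, R14_342, R3_293⟩]⟩]⟩], [], [⟨nat_lit 4, [⟨nat_lit 3, [⟨nat_lit 3, nat_lit 13152, nat_lit 4896, nat_lit 192, nat_lit 7104, nat_lit 1392, R2_4, R7_148, R10_29⟩]⟩, ⟨nat_lit 7, [⟨nat_lit 7, nat_lit 13248, nat_lit 5040, nat_lit 4656, nat_lit 6864, nat_lit 1152, R3_97, R4_143, R11_24⟩]⟩]⟩,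
 ⟨nat_lit 7, [⟨nat_lit 3, [⟨nat_lit 0, nat_lit 13344, nat_lit 4848, nat_lit 480, nat_lit 5856, nat_lit 1344, R12_10, R7_122, R3_28⟩, ⟨nat_lit 3, nat_lit 13392, nat_lit 4944, nat_lit 528, nat_lit 16464, nat_lit 1440, R12_11, R14_343, R10_30⟩]⟩]⟩]], [[], [], [], [⟨nat_lit 4, [⟨nat_lit 3, [⟨nat_lit 1, nat_lit 13440, nat_lit 13392, nat_lit 912, nat_lit 4992, nat_lit 96, R2_19, R6_104, R10_2⟩]⟩]⟩,
 ⟨nat_lit 5, [⟨nat_lit 7, [⟨nat_lit 0, nat_lit 13632, nat_lit 13536, nat_lit 96, nat_lit 4992, nat_lit 912, R10_2, R6_104, R2_19⟩]⟩]⟩], [], [], [], [⟨nat_lit 4, [⟨nat_lit 7, [⟨nat_lit 1, nat_lit 13728, nat_lit 12192, nat_lit 16128, nat_lit 4896, nat_lit 576, R3_336, R6_102, R11_12⟩]⟩]⟩,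
 ⟨nat_lit 5, [⟨nat_lit 7, [⟨nat_lit 1, nat_lit 13776, nat_lit 12336, nat_lit 384, nat_lit 5088, nat_lit 720, R10_8, R13_106, R11_15⟩]⟩]⟩]], [], [[], [], [], [], [], [], [], [⟨nat_lit 4, [⟨nat_lit 7, [⟨nat_lit 1, nat_lit 13824, nat_lit 14688, nat_lit 17472, nat_lit 5280, nat_lit 864, R3_364, R4_110, R11_18⟩]⟩]⟩,
 ⟨nat_lit 5, [⟨nat_lit 7, [⟨nat_lit 1, nat_lit 13920, nat_lit 14736, nat_lit 2496, nat_lit 4032, nat_lit 1008, R10_52, R3_84, R11_21⟩]⟩]⟩]], [[⟨nat_lit 4, [⟨nat_lit 3, [⟨nat_lit 0, nat_lit 14064, nat_lit 9264, nat_lit 1200, nat_lit 7728, nat_lit 1104, R2_25, R6_161, R13_23⟩, ⟨nat_lit 1, nat_lit 14112, nat_lit 10032, nat_lit 2400, nat_lit 4896, nat_lit 1296, R2_50, R8_102, R3_27⟩, ⟨nat_lit 3, nat_lit 14160, nat_lit 10704, nat_lit 1968, nat_lit 8304, nat_lit 12480, R2_41, R4_173, R3_260⟩]⟩, ⟨nat_lit 7,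 [⟨nat_lit 3, nat_lit 14208, nat_lit 8304, nat_lit 13728, nat_lit 9888, nat_lit 144, R3_286, R4_206, R2_3⟩]⟩]⟩,
 ⟨nat_lit 5, [⟨nat_lit 7, [⟨nat_lit 3, nat_lit 14400, nat_lit 8352, nat_lit 1392, nat_lit 4896, nat_lit 192, R10_29, R5_102, R2_4⟩]⟩]⟩,
 ⟨nat_lit 7, [⟨nat_lit 3, [⟨nat_lit 0, nat_lit 14448, nat_lit 9312, nat_lit 192, nat_lit 9360, nat_lit 1152, R12_4, R4_195, R13_24⟩, ⟨nat_lit 1, nat_lit 14496, nat_lit 10080, nat_lit 240, nat_lit 4848, nat_lit 1344, R12_5, R5_101, R3_28⟩]⟩]⟩], [], [], [⟨nat_lit 4, [⟨nat_lit 7, [⟨nat_lit 3, nat_lit 14736, nat_lit 4752, nat_lit 14064, nat_lit 9936, nat_lit 288, R3_293, R4_207, R12_6⟩]⟩]⟩,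
 ⟨nat_lit 5, [⟨nat_lit 7, [⟨nat_lit 3, nat_lit 14976, nat_lit 4992, nat_lit 1440, nat_lit 4944, nat_lit 336, R10_30, R5_103, R12_7⟩]⟩]⟩,
 ⟨nat_lit 7, [⟨nat_lit 3, [⟨nat_lit 0, nat_lit 15024, nat_lit 5136, nat_lit 288, nat_lit 9936, nat_lit 14064, R12_6, R4_207, R3_293⟩, ⟨nat_lit 1, nat_lit 15072, nat_lit 5184, nat_lit 336, nat_lit 4944, nat_lit 1440, R12_7, R5_103, R10_30⟩]⟩]⟩]]], [[], [], [], [], [[], [⟨nat_lit 5, [⟨nat_lit 0, [⟨nat_lit 0, nat_lit 15120, nat_lit 12000, nat_lit 4752, nat_lit 5040, nat_lit 17568, R4_99, R6_105, R8_366⟩, ⟨nat_lit 1, nat_lit 15168, nat_lit 12096, nat_lit 4944, nat_lit 5520, nat_lit 3264, R4_103, R13_115, R5_68⟩]⟩, ⟨nat_lit 1, [⟨nat_lit 0, nat_lit 15216, nat_lit 12048, nat_lit 48, nat_lit 5184, nat_lit 1056, R3_1, R6_108, R5_22⟩, ⟨nat_lit 1, nat_lit 15264, nat_lit 12144, nat_lit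 96, nat_lit 5568, nat_lit 624, R3_2, R13_116, R11_13⟩]⟩]⟩]], [[⟨nat_lit 1, [⟨nat_lit 0, [⟨nat_lit 0, nat_lit 15312, nat_lit 8544, nat_lit 192, nat_lit 4848, nat_lit 2352, R7_4, R7_101, R6_49⟩, ⟨nat_lit 1, nat_lit 15360, nat_lit 8640, nat_lit 432, nat_lit 3264, nat_lit 2208, R7_9, R2_68, R4_46⟩, ⟨nat_lit 2, nat_lit 15408, nat_lit 8688, nat_lit 288, nat_lit 8160, nat_lit 3744, R7_6, R2_170, R8_78⟩]⟩, ⟨nat_lit 3, [⟨nat_lit 0, nat_lit 15456, nat_lit 8736, nat_lit 1200, nat_lit 4944, nat_lit 1680, R2_25, R7_103, R13_35⟩, ⟨nat_lit 1, nat_lit 15504, nat_lit 8784, nat_lit 1776, nat_lit 3360, nat_lit 2064, R2_37, R2_70, R3_43⟩, ⟨nat_lit 2, nat_lit 15552, nat_lit 8832, nat_lit 1584, nat_lit 8448, nat_lit 816, R2_33, R2_176, R9_17⟩]⟩]⟩,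
 ⟨nat_lit 5, [⟨nat_lit 0, [⟨nat_lit 0, nat_lit 15600, nat_lit 8496, nat_lit 96, nat_lit 5136, nat_lit 2208, R4_2, R4_107, R6_46⟩, ⟨nat_lit 1, nat_lit 15648, nat_lit 8592, nat_lit 240, nat_lit 3744, nat_lit 2064, R4_5, R3_78, R4_43⟩]⟩]⟩], [⟨nat_lit 1, [⟨nat_lit 0, [⟨nat_lit 0, nat_lit 15696, nat_lit 15696, nat_lit 5136, nat_lit 5136, nat_lit 10992, R7_107, R7_107, R8_229⟩]⟩]⟩,
 ⟨nat_lit 5, [⟨nat_lit 0, [⟨nat_lit 0, nat_lit 16080, nat_lit 16080, nat_lit 5328, nat_lit 5328, nat_lit 17712, R4_111, R4_111, R8_369⟩, ⟨nat_lit 1, nat_lit 16128, nat_lit 16176, nat_lit 5472, nat_lit 3792, nat_lit 3456, R4_114, R3_79, R5_72⟩]⟩, ⟨nat_lit 1, [⟨nat_lit 0, nat_lit 16176, nat_lit 16128, nat_lit 3792, nat_lit 5472, nat_lit 3456, R3_79, R4_114, R5_72⟩, ⟨nat_lit 1, nat_lit 16224, nat_lit 16224, nat_lit 3840, nat_lit 3840, nat_lit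 3456, R3_80, R3_80, R11_72⟩]⟩]⟩]]], [[], [[⟨nat_lit 0, [⟨nat_lit 0, [⟨nat_lit 0, nat_lit 16272, nat_lit 9072, nat_lit 192, nat_lit 8544, nat_lit 10944, R7_4, R6_178, R6_228⟩, ⟨nat_lit 2, nat_lit 16320, nat_lit 9168, nat_lit 5136, nat_lit 15696, nat_lit 10992, R7_107, R13_327, R8_229⟩]⟩, ⟨nat_lit 2, [⟨nat_lit 2, nat_lit 16368, nat_lit 9600, nat_lit 3552, nat_lit 15744, nat_lit 2592, R2_74, R13_328, R5_54⟩]⟩, ⟨nat_lit 3, [⟨nat_lit 0, nat_lit 16416, nat_lit 9264, nat_lit 1200, nat_lit 8736, nat_lit 3744, R2_25, R6_182, R13_78⟩, ⟨nat_lit 2, nat_lit 16464, nat_lit 9456, nat_lit 8256, nat_lit 15792, nat_lit 2832, R2_172, R13_329, R9_59⟩]⟩]⟩,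
 ⟨nat_lit 1, [⟨nat_lit 0, [⟨nat_lit 0, nat_lit 16512, nat_lit 9120, nat_lit 18432, nat_lit 9216, nat_lit 11232, R14_384, R4_192, R6_234⟩, ⟨nat_lit 2, nat_lit 16560, nat_lit 9216, nat_lit 18816, nat_lit 11904, nat_lit 11568, R14_392, R3_248, R8_241⟩]⟩, ⟨nat_lit 2, [⟨nat_lit 2, nat_lit 16608, nat_lit 9648, nat_lit 15552, nat_lit 11952, nat_lit 2688, R12_324, R3_249, R5_56⟩]⟩, ⟨nat_lit 3, [⟨nat_lit 0, nat_lit 16656, nat_lit 9312, nat_lit 192, nat_lit 9360, nat_lit 3840, R12_4, R4_195, R13_80⟩, ⟨nat_lit 2, nat_lit 16704, nat_lit 9504, nat_lit 1200, nat_lit 12000, nat_lit 2928, R12_25, R3_250, R9_61⟩]⟩]⟩], [], [⟨nat_lit 0, [⟨nat_lit 0, [⟨nat_lit 0, nat_lit 17568, nat_lit 3264, nat_lit 432, nat_lit 8640, nat_lit 2208, R7_9, R6_180, R4_46⟩, ⟨nat_lit 2, nat_lit 17616, nat_lit 3552, nat_lit 5376, nat_lit 15840, nat_lit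 2592, R7_112, R13_330, R5_54⟩]⟩, ⟨nat_lit 2, [⟨nat_lit 2, nat_lit 17664, nat_lit 3792, nat_lit 3792, nat_lit 15888, nat_lit 2592, R2_79, R13_331, R11_54⟩]⟩, ⟨nat_lit 3, [⟨nat_lit 0, nat_lit 17712, nat_lit 3360, nat_lit 1776, nat_lit 8784, nat_lit 2064, R2_37, R6_183, R3_43⟩]⟩]⟩,
 ⟨nat_lit 1, [⟨nat_lit 0, [⟨nat_lit 0, nat_lit 17808, nat_lit 3312, nat_lit 21600, nat_lit 9264, nat_lit 11088, R14_450, R4_193, R4_231⟩, ⟨nat_lit 2, nat_lit 17856, nat_lit 3600, nat_lit 21936, nat_lit 12048, nat_lit 13824, R14_457, R3_251, R5_288⟩]⟩, ⟨nat_lit 2, [⟨nat_lit 2, nat_lit 17904, nat_lit 3840, nat_lit 16848, nat_lit 12096, nat_lit 2688, R12_351, R3_252, R11_56⟩]⟩, ⟨nat_lit 3, [⟨nat_lit 0, nat_lit 17952, nat_lit 3408, nat_lit 10224, nat_lit 9408, nat_lit 2784, R12_213, R4_196, R3_58⟩]⟩]⟩]], [], [], [], [[⟨nat_lit 1, [⟨nat_lit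 0, [⟨nat_lit 0, nat_lit 18288, nat_lit 9216, nat_lit 18480, nat_lit 4896, nat_lit 10080, R14_385, R7_102, R6_210⟩]⟩, ⟨nat_lit 3, [⟨nat_lit 0, nat_lit 18480, nat_lit 9360, nat_lit 384, nat_lit 4992, nat_lit 2304, R12_8, R7_104, R13_48⟩]⟩]⟩], [⟨nat_lit 1, [⟨nat_lit 0, [⟨nat_lit 0, nat_lit 18624, nat_lit 11904, nat_lit 19776, nat_lit 5184, nat_lit 11568, R14_412, R7_108, R8_241⟩]⟩, ⟨nat_lit 1, [⟨nat_lit 0, nat_lit 18768, nat_lit 11952, nat_lit 15552, nat_lit 5424, nat_lit 2688, R12_324, R7_113, R5_56⟩]⟩, ⟨nat_lit 3, [⟨nat_lit 0, nat_lit 18960, nat_lit 12000, nat_lit 7488, nat_lit 5280, nat_lit 2928, R12_156, R7_110, R9_61⟩]⟩]⟩]]], [[], [], [], [], [[], [⟨nat_lit 5, [⟨nat_lit 1, [⟨nat_lit 0, nat_lit 19056, nat_lit 12288, nat_lit 336, nat_lit 5280, nat_lit 1152, R10_7, R6_110, R5_24⟩, ⟨nat_lit 1, nat_lit 19104, nat_lit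 12336, nat_lit 384, nat_lit 6000, nat_lit 720, R10_8, R13_125, R11_15⟩]⟩]⟩]]], [[], [], [], [], [[⟨nat_lit 5, [⟨nat_lit 0, [⟨nat_lit 0, nat_lit 19776, nat_lit 11808, nat_lit 912, nat_lit 4800, nat_lit 4656, R5_19, R6_100, R6_97⟩, ⟨nat_lit 1, nat_lit 19824, nat_lit 12096, nat_lit 3264, nat_lit 5616, nat_lit 4944, R5_68, R13_117, R4_103⟩]⟩, ⟨nat_lit 3, [⟨nat_lit 0, nat_lit 19872, nat_lit 11856, nat_lit 480, nat_lit 4848, nat_lit 48, R11_10, R6_101, R13_1⟩, ⟨nat_lit 1, nat_lit 19920, nat_lit 12144, nat_lit 624, nat_lit 5712, nat_lit 96, R11_13, R13_119, R3_2⟩]⟩]⟩], [⟨nat_lit 5, [⟨nat_lit 0, [⟨nat_lit 0, nat_lit 19968, nat_lit 12720, nat_lit 9168, nat_lit 5088, nat_lit 18288, R5_191, R6_106, R8_381⟩, ⟨nat_lit 1, nat_lit 20016, nat_lit 12864, nat_lit 11328, nat_lit 5664, nat_lit 11328, R5_236, R13_118, R5_236⟩]⟩,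 ⟨nat_lit 3, [⟨nat_lit 0, nat_lit 20160, nat_lit 12816, nat_lit 528, nat_lit 5136, nat_lit 1872, R11_11, R6_107, R9_39⟩]⟩]⟩], [], [⟨nat_lit 5, [⟨nat_lit 3, [⟨nat_lit 0, nat_lit 20256, nat_lit 12192, nat_lit 576, nat_lit 4896, nat_lit 16128, R11_12, R6_102, R3_336⟩, ⟨nat_lit 1, nat_lit 20304, nat_lit 12336, nat_lit 720, nat_lit 5760, nat_lit 384, R11_15, R13_120, R10_8⟩]⟩]⟩]], [[⟨nat_lit 5, [⟨nat_lit 0, [⟨nat_lit 0, nat_lit 20496, nat_lit 8016, nat_lit 1488, nat_lit 5184, nat_lit 6960, R5_31, R4_108, R6_145⟩, ⟨nat_lit 1, nat_lit 20544, nat_lit 8064, nat_lit 3840, nat_lit 3888, nat_lit 7584, R5_80, R3_81, R4_158⟩]⟩, ⟨nat_lit 3, [⟨nat_lit 0, nat_lit 20592, nat_lit 8112, nat_lit 768, nat_lit 5232, nat_lit 1968, R11_16, R4_109, R13_41⟩, ⟨nat_lit 1, nat_lit 20640, nat_lit 8208, nat_lit 912, nat_lit 3984, nat_lit 2352,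 R11_19, R3_83, R3_49⟩]⟩]⟩], [⟨nat_lit 5, [⟨nat_lit 0, [⟨nat_lit 0, nat_lit 20784, nat_lit 13728, nat_lit 9936, nat_lit 5376, nat_lit 18576, R5_207, R4_112, R8_387⟩]⟩, ⟨nat_lit 3, [⟨nat_lit 0, nat_lit 20976, nat_lit 13824, nat_lit 816, nat_lit 5424, nat_lit 3504, R11_17, R4_113, R9_73⟩]⟩]⟩]], [], [[⟨nat_lit 5, [⟨nat_lit 0, [⟨nat_lit 0, nat_lit 21312, nat_lit 4656, nat_lit 1200, nat_lit 4704, nat_lit 5808, R5_25, R8_98, R6_121⟩, ⟨nat_lit 1, nat_lit 21360, nat_lit 5760, nat_lit 3600, nat_lit 4368, nat_lit 6144, R5_75, R9_91, R4_128⟩]⟩, ⟨nat_lit 3, [⟨nat_lit 0, nat_lit 21408, nat_lit 5232, nat_lit 1056, nat_lit 4752, nat_lit 624, R11_22, R8_99, R13_13⟩, ⟨nat_lit 1, nat_lit 21456, nat_lit 6384, nat_lit 1248, nat_lit 4464, nat_lit 816, R11_26, R9_93, R3_17⟩, ⟨nat_lit 3, nat_lit 21504, nat_lit 6864, nat_lit 1152, nat_lit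 5040, nat_lit 4656, R11_24, R5_105, R3_97⟩]⟩]⟩], [⟨nat_lit 5, [⟨nat_lit 0, [⟨nat_lit 0, nat_lit 21552, nat_lit 10176, nat_lit 9552, nat_lit 4992, nat_lit 18432, R5_199, R8_104, R8_384⟩, ⟨nat_lit 1, nat_lit 21600, nat_lit 10224, nat_lit 11808, nat_lit 4416, nat_lit 11520, R5_246, R9_92, R5_240⟩]⟩, ⟨nat_lit 3, [⟨nat_lit 0, nat_lit 21744, nat_lit 10368, nat_lit 1104, nat_lit 5040, nat_lit 2544, R11_23, R8_105, R9_53⟩]⟩]⟩]]]]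
noncomputable def N0132 : T3 (List N0) := [[], [[[⟨nat_lit 0, [⟨nat_lit 0, [⟨nat_lit 2, nat_lit 3696, nat_lit 7056, nat_lit 6048, nat_lit 5712, nat_lit 17616, R4_126, R4_119, R8_367⟩]⟩]⟩,
 ⟨nat_lit 3, [⟨nat_lit 0, [⟨nat_lit 2, nat_lit 3792, nat_lit 7104, nat_lit 9312, nat_lit 8112, nat_lit 18336, R5_194, R5_169, R8_382⟩]⟩, ⟨nat_lit 3, [⟨nat_lit 2, nat_lit 3888, nat_lit 7152, nat_lit 2208, nat_lit 8400, nat_lit 2064, R11_46, R5_175, R9_43⟩]⟩]⟩], [], [⟨nat_lit 0, [⟨nat_lit 0, [⟨nat_lit 2, nat_lit 3936, nat_lit 9072, nat_lit 6144, nat_lit 5760, nat_lit 3600, R4_128, R4_120, R5_75⟩]⟩]⟩,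
 ⟨nat_lit 3, [⟨nat_lit 0, [⟨nat_lit 2, nat_lit 4224, nat_lit 9216, nat_lit 11520, nat_lit 10224, nat_lit 11808, R5_240, R5_213, R5_246⟩]⟩]⟩,
 ⟨nat_lit 6, [⟨nat_lit 4, [⟨nat_lit 4, nat_lit 4368, nat_lit 8832, nat_lit 3600, nat_lit 5760, nat_lit 6144, R5_75, R4_120, R4_128⟩, ⟨nat_lit 7, nat_lit 4416, nat_lit 8880, nat_lit 11808, nat_lit 10224, nat_lit 11520, R5_246, R5_213, R5_240⟩]⟩]⟩]], [], [], [[⟨nat_lit 3, [⟨nat_lit 0, [⟨nat_lit 2, nat_lit 6096, nat_lit 7968, nat_lit 9696, nat_lit 10560, nat_lit 18480, R5_202, R11_220, R8_385⟩]⟩, ⟨nat_lit 3, [⟨nat_lit 2, nat_lit 6192, nat_lit 8928, nat_lit 2400, nat_lit 10848, nat_lit 2736, R11_50, R11_226, R9_57⟩]⟩]⟩], [], [⟨nat_lit 3, [⟨nat_lit 0, [⟨nat_lit 2, nat_lit 6768, nat_lit 7008, nat_lit 11952, nat_lit 13488, nat_lit 11952, R5_249, R11_281, R5_249⟩]⟩]⟩,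
 ⟨nat_lit 6, [⟨nat_lit 4, [⟨nat_lit 7, nat_lit 7008, nat_lit 6768, nat_lit 11952, nat_lit 13488, nat_lit 11952, R5_249, R11_281, R5_249⟩]⟩]⟩], [⟨nat_lit 7, [⟨nat_lit 7, [⟨nat_lit 3, nat_lit 7680, nat_lit 6672, nat_lit 1872, nat_lit 8592, nat_lit 1728, R10_39, R12_179, R12_36⟩]⟩]⟩]]], [[], [], [[], [], [], [], [], [], [⟨nat_lit 6, [⟨nat_lit 4, [⟨nat_lit 4, nat_lit 7728, nat_lit 10032, nat_lit 11760, nat_lit 1920, nat_lit 6336, R9_245, R3_40, R7_132⟩, ⟨nat_lit 5, nat_lit 7776, nat_lit 10080, nat_lit 12384, nat_lit 10512, nat_lit 20400, R9_258, R10_219, R14_425⟩]⟩]⟩]], [], [[], [], [], [], [⟨nat_lit 4, [⟨nat_lit 4, [⟨nat_lit 1, nat_lit 7968, nat_lit 15456, nat_lit 17904, nat_lit 15456, nat_lit 4848, R8_373, R8_322, R4_101⟩]⟩, ⟨nat_lit 5, [⟨nat_lit 1, nat_lit 8016, nat_lit 15504, nat_lit 9408, nat_lit 15600, nat_lit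 336, R5_196, R8_325, R3_7⟩]⟩]⟩,
 ⟨nat_lit 5, [⟨nat_lit 4, [⟨nat_lit 1, nat_lit 8064, nat_lit 15552, nat_lit 3312, nat_lit 16032, nat_lit 5040, R5_69, R9_334, R4_105⟩]⟩, ⟨nat_lit 5, [⟨nat_lit 1, nat_lit 8112, nat_lit 15600, nat_lit 11856, nat_lit 16176, nat_lit 528, R11_247, R9_337, R3_11⟩]⟩]⟩,
 ⟨nat_lit 6, [⟨nat_lit 4, [⟨nat_lit 1, nat_lit 8160, nat_lit 15648, nat_lit 3456, nat_lit 1248, nat_lit 4896, R9_72, R5_26, R4_102⟩]⟩]⟩], [⟨nat_lit 4, [⟨nat_lit 5, [⟨nat_lit 1, nat_lit 8256, nat_lit 14736, nat_lit 9504, nat_lit 16656, nat_lit 3072, R5_198, R8_347, R10_64⟩]⟩]⟩,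
 ⟨nat_lit 5, [⟨nat_lit 5, [⟨nat_lit 1, nat_lit 8304, nat_lit 14784, nat_lit 11952, nat_lit 16704, nat_lit 3264, R11_249, R9_348, R10_68⟩]⟩]⟩], [], [⟨nat_lit 4, [⟨nat_lit 4, [⟨nat_lit 1, nat_lit 8400, nat_lit 16224, nat_lit 18720, nat_lit 16128, nat_lit 9216, R8_390, R8_336, R5_192⟩]⟩, ⟨nat_lit 7, [⟨nat_lit 1, nat_lit 8496, nat_lit 16272, nat_lit 8496, nat_lit 16272, nat_lit 11664, R9_177, R8_339, R11_243⟩]⟩]⟩,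
 ⟨nat_lit 5, [⟨nat_lit 4, [⟨nat_lit 1, nat_lit 8544, nat_lit 17184, nat_lit 11376, nat_lit 16320, nat_lit 11376, R5_237, R9_340, R5_237⟩]⟩]⟩,
 ⟨nat_lit 6, [⟨nat_lit 4, [⟨nat_lit 1, nat_lit 8688, nat_lit 18816, nat_lit 9888, nat_lit 9600, nat_lit 11040, R9_206, R5_200, R5_230⟩]⟩]⟩]], [], [[], [], [], [], [⟨nat_lit 4, [⟨nat_lit 4, [⟨nat_lit 1, nat_lit 8784, nat_lit 12240, nat_lit 18000, nat_lit 9936, nat_lit 5376, R8_375, R5_207, R4_112⟩]⟩, ⟨nat_lit 5, [⟨nat_lit 1, nat_lit 8832, nat_lit 12432, nat_lit 11664, nat_lit 12192, nat_lit 3936, R5_243, R5_254, R3_82⟩]⟩]⟩,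
 ⟨nat_lit 6, [⟨nat_lit 4, [⟨nat_lit 1, nat_lit 8976, nat_lit 12336, nat_lit 3504, nat_lit 12384, nat_lit 5424, R9_73, R11_258, R4_113⟩]⟩]⟩], [⟨nat_lit 4, [⟨nat_lit 5, [⟨nat_lit 1, nat_lit 9168, nat_lit 9312, nat_lit 11760, nat_lit 12288, nat_lit 3696, R5_245, R5_256, R10_77⟩]⟩]⟩], [], [⟨nat_lit 4, [⟨nat_lit 4, [⟨nat_lit 1, nat_lit 9504, nat_lit 9504, nat_lit 18912, nat_lit 9984, nat_lit 9984, R8_394, R5_208, R5_208⟩]⟩, ⟨nat_lit 7, [⟨nat_lit 1, nat_lit 9600, nat_lit 9792, nat_lit 9984, nat_lit 11232, nat_lit 12048, R9_208, R5_234, R11_251⟩]⟩]⟩,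
 ⟨nat_lit 6, [⟨nat_lit 4, [⟨nat_lit 1, nat_lit 9792, nat_lit 9600, nat_lit 9984, nat_lit 12432, nat_lit 11232, R9_208, R11_259, R5_234⟩]⟩]⟩]], [[], [], [], [], [], [], [], [⟨nat_lit 4, [⟨nat_lit 4, [⟨nat_lit 1, nat_lit 9888, nat_lit 11040, nat_lit 18816, nat_lit 8688, nat_lit 9600, R8_392, R9_181, R5_200⟩]⟩, ⟨nat_lit 7, [⟨nat_lit 1, nat_lit 9984, nat_lit 11232, nat_lit 9600, nat_lit 9792, nat_lit 12432, R9_200, R9_204, R11_259⟩]⟩]⟩]]], [[], [], [], [[⟨nat_lit 7, [⟨nat_lit 3, [⟨nat_lit 3, nat_lit 10416, nat_lit 10224, nat_lit 1584, nat_lit 8256, nat_lit 14160, R12_33, R12_172, R3_295⟩]⟩]⟩], [], [⟨nat_lit 4, [⟨nat_lit 3, [⟨nat_lit 3, nat_lit 10464, nat_lit 6624, nat_lit 7200, nat_lit 7296, nat_lit 1824, R2_150, R2_152, R10_38⟩]⟩]⟩,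
 ⟨nat_lit 7, [⟨nat_lit 3, [⟨nat_lit 0, nat_lit 10656, nat_lit 6576, nat_lit 1632, nat_lit 9264, nat_lit 7824, R12_34, R2_193, R3_163⟩, ⟨nat_lit 3, nat_lit 10752, nat_lit 6672, nat_lit 1728, nat_lit 8304, nat_lit 1872, R12_36, R12_173, R10_39⟩]⟩]⟩]], [[], [], [], [⟨nat_lit 4, [⟨nat_lit 3, [⟨nat_lit 0, nat_lit 10800, nat_lit 15840, nat_lit 7488, nat_lit 12384, nat_lit 11232, R2_156, R6_258, R3_234⟩, ⟨nat_lit 1, nat_lit 10848, nat_lit 16176, nat_lit 8016, nat_lit 14496, nat_lit 8928, R2_167, R8_302, R10_186⟩]⟩, ⟨nat_lit 7, [⟨nat_lit 0, nat_lit 10944, nat_lit 15792, nat_lit 11232, nat_lit 13104, nat_lit 7488, R3_234, R6_273, R2_156⟩]⟩]⟩,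
 ⟨nat_lit 5, [⟨nat_lit 7, [⟨nat_lit 0, nat_lit 11184, nat_lit 16848, nat_lit 8928, nat_lit 14496, nat_lit 8016, R10_186, R8_302, R2_167⟩]⟩]⟩], [], [], [], [⟨nat_lit 4, [⟨nat_lit 7, [⟨nat_lit 1, nat_lit 11376, nat_lit 14448, nat_lit 16560, nat_lit 14256, nat_lit 11712, R3_345, R8_297, R11_244⟩]⟩]⟩,
 ⟨nat_lit 5, [⟨nat_lit 7, [⟨nat_lit 1, nat_lit 11424, nat_lit 14784, nat_lit 9552, nat_lit 15408, nat_lit 11952, R10_199, R9_321, R11_249⟩]⟩]⟩]], [], [[], [], [], [], [], [], [], [⟨nat_lit 4, [⟨nat_lit 7, [⟨nat_lit 1, nat_lit 11520, nat_lit 17328, nat_lit 17856, nat_lit 10848, nat_lit 12096, R3_372, R5_226, R11_252⟩]⟩]⟩]], [[⟨nat_lit 4, [⟨nat_lit 3, [⟨nat_lit 0, nat_lit 11712, nat_lit 9456, nat_lit 8256, nat_lit 10080, nat_lit 1488, R2_172, R13_210, R13_31⟩, ⟨nat_lit 1, nat_lit 11760, nat_lit 10368, nat_lit 10032,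 nat_lit 7728, nat_lit 1920, R2_209, R9_161, R3_40⟩, ⟨nat_lit 2, nat_lit 11808, nat_lit 11136, nat_lit 8976, nat_lit 8208, nat_lit 672, R2_187, R3_171, R9_14⟩, ⟨nat_lit 3, nat_lit 11856, nat_lit 10848, nat_lit 9744, nat_lit 12816, nat_lit 12528, R2_203, R3_267, R3_261⟩]⟩, ⟨nat_lit 7, [⟨nat_lit 3, nat_lit 11904, nat_lit 8448, nat_lit 14496, nat_lit 14400, nat_lit 384, R3_302, R3_300, R2_8⟩]⟩]⟩,
 ⟨nat_lit 7, [⟨nat_lit 3, [⟨nat_lit 0, nat_lit 12192, nat_lit 9504, nat_lit 1200, nat_lit 12000, nat_lit 1536, R12_25, R3_250, R13_32⟩, ⟨nat_lit 2, nat_lit 12288, nat_lit 11184, nat_lit 1248, nat_lit 10704, nat_lit 720, R12_26, R10_223, R9_15⟩]⟩]⟩], [], [], [⟨nat_lit 4, [⟨nat_lit 7, [⟨nat_lit 3, nat_lit 12576, nat_lit 6720, nat_lit 14928, nat_lit 14688, nat_lit 1344, R3_311, R3_306, R12_28⟩]⟩]⟩,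
 ⟨nat_lit 7, [⟨nat_lit 3, [⟨nat_lit 0, nat_lit 12960, nat_lit 7104, nat_lit 1344, nat_lit 14688, nat_lit 14928, R12_28, R3_306, R3_311⟩]⟩]⟩]]], [[], [], [], [], [[], [⟨nat_lit 5, [⟨nat_lit 0, [⟨nat_lit 0, nat_lit 13104, nat_lit 15456, nat_lit 4848, nat_lit 15456, nat_lit 17904, R4_101, R8_322, R8_373⟩, ⟨nat_lit 1, nat_lit 13152, nat_lit 15552, nat_lit 5040, nat_lit 1920, nat_lit 3312, R4_105, R9_40, R5_69⟩, ⟨nat_lit 2, nat_lit 13200, nat_lit 15648, nat_lit 4896, nat_lit 1248, nat_lit 3456, R4_102, R5_26, R9_72⟩]⟩, ⟨nat_lit 1, [⟨nat_lit 0, nat_lit 13248, nat_lit 15504, nat_lit 336, nat_lit 15600, nat_lit 9408, R3_7, R8_325, R5_196⟩, ⟨nat_lit 1, nat_lit 13296, nat_lit 15600, nat_lit 528, nat_lit 1968, nat_lit 11856, R3_11, R9_41, R11_247⟩]⟩]⟩]], [[⟨nat_lit 5, [⟨nat_lit 0, [⟨nat_lit 0, nat_lit 13488, nat_lit 9360,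 nat_lit 144, nat_lit 8496, nat_lit 2256, R4_3, R5_177, R6_47⟩, ⟨nat_lit 2, nat_lit 13584, nat_lit 9456, nat_lit 192, nat_lit 192, nat_lit 4272, R4_4, R11_4, R8_89⟩]⟩]⟩], [⟨nat_lit 5, [⟨nat_lit 0, [⟨nat_lit 0, nat_lit 13728, nat_lit 20784, nat_lit 5376, nat_lit 9936, nat_lit 18000, R4_112, R5_207, R8_375⟩, ⟨nat_lit 2, nat_lit 13824, nat_lit 20976, nat_lit 5424, nat_lit 816, nat_lit 3504, R4_113, R11_17, R9_73⟩]⟩, ⟨nat_lit 1, [⟨nat_lit 0, nat_lit 13872, nat_lit 20832, nat_lit 3936, nat_lit 12192, nat_lit 11664, R3_82, R5_254, R5_243⟩]⟩]⟩]]], [[], [[⟨nat_lit 0, [⟨nat_lit 0, [⟨nat_lit 2, nat_lit 14016, nat_lit 11040, nat_lit 6240, nat_lit 1680, nat_lit 11040, R7_130, R3_35, R8_230⟩]⟩, ⟨nat_lit 2, [⟨nat_lit 2, nat_lit 14064, nat_lit 11280, nat_lit 4416, nat_lit 6624, nat_lit 3024, R2_92, R3_138, R5_63⟩]⟩, ⟨nat_lit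 3, [⟨nat_lit 2, nat_lit 14112, nat_lit 11136, nat_lit 8976, nat_lit 8208, nat_lit 3072, R2_187, R3_171, R9_64⟩]⟩]⟩,
 ⟨nat_lit 1, [⟨nat_lit 0, [⟨nat_lit 2, nat_lit 14160, nat_lit 11088, nat_lit 18912, nat_lit 15744, nat_lit 11616, R14_394, R10_328, R8_242⟩]⟩, ⟨nat_lit 2, [⟨nat_lit 2, nat_lit 14208, nat_lit 11328, nat_lit 15744, nat_lit 17472, nat_lit 3072, R12_328, R10_364, R5_64⟩]⟩, ⟨nat_lit 3, [⟨nat_lit 2, nat_lit 14256, nat_lit 11184, nat_lit 1248, nat_lit 16608, nat_lit 3168, R12_26, R10_346, R9_66⟩]⟩]⟩], [], [⟨nat_lit 0, [⟨nat_lit 0, [⟨nat_lit 2, nat_lit 14592, nat_lit 6528, nat_lit 6432, nat_lit 1776, nat_lit 2784, R7_134, R3_37, R5_58⟩]⟩, ⟨nat_lit 2, [⟨nat_lit 2, nat_lit 14640, nat_lit 6768, nat_lit 4608, nat_lit 6720, nat_lit 3024, R2_96, R3_140, R11_63⟩]⟩]⟩,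
 ⟨nat_lit 1, [⟨nat_lit 0, [⟨nat_lit 2, nat_lit 14784, nat_lit 6576, nat_lit 21984, nat_lit 15792, nat_lit 14016, R14_458, R10_329, R5_292⟩]⟩, ⟨nat_lit 2, [⟨nat_lit 2, nat_lit 14832, nat_lit 6816, nat_lit 17040, nat_lit 17520, nat_lit 3072, R12_355, R10_365, R11_64⟩]⟩]⟩]]], [[], [], [], [], [[], [⟨nat_lit 5, [⟨nat_lit 1, [⟨nat_lit 0, nat_lit 15360, nat_lit 14736, nat_lit 9456, nat_lit 16656, nat_lit 9504, R10_197, R8_347, R5_198⟩, ⟨nat_lit 1, nat_lit 15408, nat_lit 14784, nat_lit 9552, nat_lit 11424, nat_lit 11952, R10_199, R9_238, R11_249⟩]⟩]⟩]]], [[], [], [], [], [[⟨nat_lit 5, [⟨nat_lit 0, [⟨nat_lit 0, nat_lit 15984, nat_lit 14928, nat_lit 960, nat_lit 12336, nat_lit 4704, R5_20, R8_257, R6_98⟩, ⟨nat_lit 1, nat_lit 16032, nat_lit 15552, nat_lit 3312, nat_lit 8064, nat_lit 5040, R5_69, R9_168, R4_105⟩, ⟨nat_lit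 2, nat_lit 16080, nat_lit 16848, nat_lit 2208, nat_lit 8256, nat_lit 9024, R5_46, R5_172, R8_188⟩]⟩, ⟨nat_lit 3, [⟨nat_lit 0, nat_lit 16128, nat_lit 14976, nat_lit 11616, nat_lit 12480, nat_lit 336, R11_242, R8_260, R13_7⟩, ⟨nat_lit 1, nat_lit 16176, nat_lit 15600, nat_lit 11856, nat_lit 8112, nat_lit 528, R11_247, R9_169, R3_11⟩, ⟨nat_lit 2, nat_lit 16224, nat_lit 16896, nat_lit 11760, nat_lit 8400, nat_lit 192, R11_245, R5_175, R9_4⟩]⟩]⟩], [⟨nat_lit 5, [⟨nat_lit 0, [⟨nat_lit 0, nat_lit 16272, nat_lit 17040, nat_lit 9216, nat_lit 16128, nat_lit 18720, R5_192, R8_336, R8_390⟩, ⟨nat_lit 1, nat_lit 16320, nat_lit 17184, nat_lit 11376, nat_lit 8544, nat_lit 11376, R5_237, R9_178, R5_237⟩, ⟨nat_lit 2, nat_lit 16368, nat_lit 17328, nat_lit 11040, nat_lit 9600, nat_lit 9888, R5_230, R5_200, R9_206⟩]⟩, ⟨nat_lit 3,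 [⟨nat_lit 0, nat_lit 16560, nat_lit 17136, nat_lit 11664, nat_lit 16272, nat_lit 8496, R11_243, R8_339, R9_177⟩]⟩]⟩], [], [⟨nat_lit 5, [⟨nat_lit 3, [⟨nat_lit 0, nat_lit 16656, nat_lit 14448, nat_lit 11712, nat_lit 14256, nat_lit 16560, R11_244, R8_297, R3_345⟩, ⟨nat_lit 1, nat_lit 16704, nat_lit 14784, nat_lit 11952, nat_lit 8304, nat_lit 9552, R11_249, R9_173, R10_199⟩]⟩]⟩]], [[⟨nat_lit 5, [⟨nat_lit 0, [⟨nat_lit 0, nat_lit 16848, nat_lit 8688, nat_lit 1536, nat_lit 8544, nat_lit 7008, R5_32, R5_178, R6_146⟩, ⟨nat_lit 2, nat_lit 16944, nat_lit 8784, nat_lit 2400, nat_lit 10704, nat_lit 9120, R5_50, R11_223, R8_190⟩]⟩, ⟨nat_lit 3, [⟨nat_lit 0, nat_lit 16992, nat_lit 8832, nat_lit 12000, nat_lit 10368, nat_lit 2112, R11_250, R5_216, R13_44⟩, ⟨nat_lit 2, nat_lit 17088, nat_lit 8928, nat_lit 12144, nat_lit 10848,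 nat_lit 1296, R11_253, R11_226, R9_27⟩]⟩]⟩], [⟨nat_lit 5, [⟨nat_lit 0, [⟨nat_lit 0, nat_lit 17136, nat_lit 17136, nat_lit 9984, nat_lit 9984, nat_lit 18912, R5_208, R5_208, R8_394⟩, ⟨nat_lit 2, nat_lit 17232, nat_lit 17424, nat_lit 11232, nat_lit 12048, nat_lit 9984, R5_234, R11_251, R9_208⟩]⟩, ⟨nat_lit 3, [⟨nat_lit 0, nat_lit 17424, nat_lit 17232, nat_lit 12048, nat_lit 11232, nat_lit 9984, R11_251, R5_234, R9_208⟩]⟩]⟩]], [], [[⟨nat_lit 5, [⟨nat_lit 0, [⟨nat_lit 0, nat_lit 17712, nat_lit 4896, nat_lit 1248, nat_lit 8160, nat_lit 5856, R5_26, R9_170, R6_122⟩]⟩, ⟨nat_lit 3, [⟨nat_lit 0, nat_lit 17808, nat_lit 5424, nat_lit 12384, nat_lit 8976, nat_lit 912, R11_258, R9_187, R13_19⟩]⟩]⟩], [⟨nat_lit 5, [⟨nat_lit 0, [⟨nat_lit 0, nat_lit 17952, nat_lit 11040, nat_lit 9600, nat_lit 8688, nat_lit 18816, R5_200, R9_181,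 R8_392⟩]⟩, ⟨nat_lit 3, [⟨nat_lit 0, nat_lit 18144, nat_lit 11232, nat_lit 12432, nat_lit 9792, nat_lit 9600, R11_259, R9_204, R9_200⟩]⟩]⟩]]]]
noncomputable def N0247 : T3 (List N0) := [[], [], [[], [], [], [], [[], [], [], [], [⟨nat_lit 0, [⟨nat_lit 2, [⟨nat_lit 3, nat_lit 3168, nat_lit 2832, nat_lit 8208, nat_lit 2160, nat_lit 1776, R5_171, R6_45, R5_37⟩]⟩]⟩,
 ⟨nat_lit 2, [⟨nat_lit 2, [⟨nat_lit 0, nat_lit 3264, nat_lit 2784, nat_lit 288, nat_lit 3792, nat_lit 0, R11_6, R6_79, R4_0⟩, ⟨nat_lit 3, nat_lit 3600, nat_lit 2928, nat_lit 336, nat_lit 1536, nat_lit 1872, R11_7, R8_32, R5_39⟩]⟩]⟩,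
 ⟨nat_lit 7, [⟨nat_lit 7, [⟨nat_lit 6, nat_lit 2400, nat_lit 2592, nat_lit 1776, nat_lit 2160, nat_lit 8352, R11_37, R8_45, R5_174⟩]⟩]⟩], [], [], [⟨nat_lit 0, [⟨nat_lit 2, [⟨nat_lit 3, nat_lit 3216, nat_lit 576, nat_lit 8352, nat_lit 2592, nat_lit 10512, R5_174, R6_54, R11_219⟩]⟩]⟩,
 ⟨nat_lit 2, [⟨nat_lit 2, [⟨nat_lit 3, nat_lit 3648, nat_lit 2544, nat_lit 1872, nat_lit 2208, nat_lit 10800, R11_39, R8_46, R11_225⟩]⟩]⟩,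
 ⟨nat_lit 3, [⟨nat_lit 0, [⟨nat_lit 7, nat_lit 3888, nat_lit 1344, nat_lit 7632, nat_lit 2352, nat_lit 8784, R3_159, R7_49, R2_183⟩]⟩, ⟨nat_lit 3, [⟨nat_lit 7, nat_lit 3984, nat_lit 1392, nat_lit 1152, nat_lit 2400, nat_lit 6960, R10_24, R7_50, R12_145⟩]⟩]⟩,
 ⟨nat_lit 4, [⟨nat_lit 7, [⟨nat_lit 6, nat_lit 576, nat_lit 3216, nat_lit 8352, nat_lit 2592, nat_lit 10512, R5_174, R6_54, R11_219⟩]⟩]⟩,
 ⟨nat_lit 6, [⟨nat_lit 4, [⟨nat_lit 2, nat_lit 1344, nat_lit 3888, nat_lit 7632, nat_lit 2352, nat_lit 8784, R3_159, R7_49, R2_183⟩]⟩, ⟨nat_lit 6, [⟨nat_lit 2, nat_lit 1392, nat_lit 3984, nat_lit 1152, nat_lit 2400, nat_lit 6960, R10_24, R7_50, R12_145⟩]⟩]⟩,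
 ⟨nat_lit 7, [⟨nat_lit 7, [⟨nat_lit 6, nat_lit 2544, nat_lit 3648, nat_lit 1872, nat_lit 2208, nat_lit 10800, R11_39, R8_46, R11_225⟩]⟩]⟩]], [], [[], [], [], [], [⟨nat_lit 0, [⟨nat_lit 2, [⟨nat_lit 0, nat_lit 7536, nat_lit 8400, nat_lit 1200, nat_lit 15360, nat_lit 4656, R5_25, R6_320, R4_97⟩, ⟨nat_lit 3, nat_lit 7872, nat_lit 8448, nat_lit 9552, nat_lit 18432, nat_lit 10176, R5_199, R8_384, R5_212⟩]⟩]⟩,
 ⟨nat_lit 2, [⟨nat_lit 2, [⟨nat_lit 0, nat_lit 8112, nat_lit 8544, nat_lit 1056, nat_lit 3456, nat_lit 5232, R11_22, R13_72, R4_109⟩, ⟨nat_lit 3, nat_lit 8832, nat_lit 8592, nat_lit 1104, nat_lit 2544, nat_lit 10368, R11_23, R9_53, R5_216⟩]⟩]⟩,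
 ⟨nat_lit 6, [⟨nat_lit 4, [⟨nat_lit 2, nat_lit 7056, nat_lit 8640, nat_lit 1296, nat_lit 2400, nat_lit 5808, R3_27, R2_50, R7_121⟩]⟩, ⟨nat_lit 6, [⟨nat_lit 2, nat_lit 7104, nat_lit 8784, nat_lit 1008, nat_lit 2448, nat_lit 16224, R10_21, R2_51, R14_338⟩]⟩]⟩], [⟨nat_lit 6, [⟨nat_lit 4, [⟨nat_lit 2, nat_lit 7200, nat_lit 7008, nat_lit 6480, nat_lit 2832, nat_lit 4224, R3_135, R2_59, R2_88⟩]⟩, ⟨nat_lit 6, [⟨nat_lit 2, nat_lit 7248, nat_lit 7104, nat_lit 1104, nat_lit 2880, nat_lit 13296, R10_23, R2_60, R12_277⟩]⟩]⟩], [⟨nat_lit 0, [⟨nat_lit 2, [⟨nat_lit 0, nat_lit 7584, nat_lit 2256, nat_lit 1344, nat_lit 15408, nat_lit 384, R5_28, R6_321, R3_8⟩, ⟨nat_lit 1, nat_lit 7680, nat_lit 2400, nat_lit 13248, nat_lit 14688, nat_lit 8832, R5_276, R4_306, R10_184⟩]⟩]⟩,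
 ⟨nat_lit 2, [⟨nat_lit 2, [⟨nat_lit 0, nat_lit 8208, nat_lit 2352, nat_lit 3840, nat_lit 3600, nat_lit 3984, R11_80, R13_75, R3_83⟩, ⟨nat_lit 1, nat_lit 8400, nat_lit 2496, nat_lit 3936, nat_lit 3312, nat_lit 9072, R11_82, R3_69, R10_189⟩]⟩]⟩,
 ⟨nat_lit 6, [⟨nat_lit 6, [⟨nat_lit 2, nat_lit 7152, nat_lit 2688, nat_lit 1248, nat_lit 2496, nat_lit 13104, R10_26, R2_52, R12_273⟩]⟩]⟩], [⟨nat_lit 0, [⟨nat_lit 2, [⟨nat_lit 3, nat_lit 7968, nat_lit 6096, nat_lit 9696, nat_lit 18480, nat_lit 10560, R5_202, R8_385, R11_220⟩]⟩]⟩,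
 ⟨nat_lit 2, [⟨nat_lit 2, [⟨nat_lit 3, nat_lit 8928, nat_lit 6192, nat_lit 2400, nat_lit 2736, nat_lit 10848, R11_50, R9_57, R11_226⟩]⟩]⟩,
 ⟨nat_lit 6, [⟨nat_lit 4, [⟨nat_lit 2, nat_lit 7296, nat_lit 6240, nat_lit 7776, nat_lit 2544, nat_lit 9216, R3_162, R2_53, R2_192⟩]⟩, ⟨nat_lit 6, [⟨nat_lit 2, nat_lit 7344, nat_lit 6480, nat_lit 1200, nat_lit 2592, nat_lit 8496, R10_25, R2_54, R12_177⟩]⟩]⟩]], [[], [], [], [], [], [], [], [⟨nat_lit 0, [⟨nat_lit 2, [⟨nat_lit 3, nat_lit 10800, nat_lit 6288, nat_lit 8928, nat_lit 15216, nat_lit 10608, R5_186, R4_317, R11_221⟩]⟩]⟩,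
 ⟨nat_lit 2, [⟨nat_lit 2, [⟨nat_lit 3, nat_lit 10896, nat_lit 6432, nat_lit 2064, nat_lit 17232, nat_lit 10896, R11_43, R5_359, R11_227⟩]⟩]⟩,
 ⟨nat_lit 3, [⟨nat_lit 3, [⟨nat_lit 7, nat_lit 11952, nat_lit 6144, nat_lit 1632, nat_lit 1584, nat_lit 7008, R10_34, R14_33, R12_146⟩]⟩]⟩,
 ⟨nat_lit 7, [⟨nat_lit 7, [⟨nat_lit 6, nat_lit 10128, nat_lit 6480, nat_lit 1920, nat_lit 6480, nat_lit 12768, R11_40, R5_135, R11_266⟩]⟩]⟩]]], [[], [], [], [[⟨nat_lit 3, [⟨nat_lit 0, [⟨nat_lit 4, nat_lit 18144, nat_lit 14160, nat_lit 11376, nat_lit 4800, nat_lit 13344, R3_237, R4_100, R6_278⟩, ⟨nat_lit 5, nat_lit 19008, nat_lit 14400, nat_lit 16368, nat_lit 9264, nat_lit 14208, R3_341, R5_193, R8_296⟩]⟩, ⟨nat_lit 1, [⟨nat_lit 4, nat_lit 18240, nat_lit 14640, nat_lit 8736, nat_lit 7440, nat_lit 7632, R10_182, R4_155, R8_159⟩, ⟨nat_lit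 5, nat_lit 19104, nat_lit 14736, nat_lit 9456, nat_lit 9504, nat_lit 15360, R10_197, R5_198, R9_320⟩]⟩]⟩], [], [⟨nat_lit 3, [⟨nat_lit 0, [⟨nat_lit 5, nat_lit 19152, nat_lit 16944, nat_lit 17664, nat_lit 9648, nat_lit 10656, R3_368, R5_201, R5_222⟩]⟩]⟩]], [[], [], [], [⟨nat_lit 3, [⟨nat_lit 0, [⟨nat_lit 7, nat_lit 4032, nat_lit 1824, nat_lit 14352, nat_lit 1392, nat_lit 14352, R3_299, R7_29, R3_299⟩]⟩]⟩,
 ⟨nat_lit 7, [⟨nat_lit 0, [⟨nat_lit 4, nat_lit 1728, nat_lit 3264, nat_lit 8160, nat_lit 1872, nat_lit 9792, R2_170, R6_39, R13_204⟩, ⟨nat_lit 6, nat_lit 2592, nat_lit 4128, nat_lit 8784, nat_lit 2016, nat_lit 7632, R2_183, R8_42, R3_159⟩, ⟨nat_lit 7, nat_lit 2928, nat_lit 3792, nat_lit 9696, nat_lit 1728, nat_lit 12768, R2_202, R4_36, R3_266⟩]⟩, ⟨nat_lit 3, [⟨nat_lit 4, nat_lit 1824, nat_lit 3312, nat_lit 720,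 nat_lit 1920, nat_lit 11664, R12_15, R6_40, R3_243⟩, ⟨nat_lit 6, nat_lit 2688, nat_lit 4176, nat_lit 768, nat_lit 2064, nat_lit 1152, R12_16, R8_43, R10_24⟩]⟩]⟩], [], [], [], [⟨nat_lit 3, [⟨nat_lit 0, [⟨nat_lit 7, nat_lit 4176, nat_lit 1728, nat_lit 12768, nat_lit 816, nat_lit 9696, R3_266, R7_17, R2_202⟩]⟩]⟩,
 ⟨nat_lit 7, [⟨nat_lit 0, [⟨nat_lit 7, nat_lit 3024, nat_lit 3840, nat_lit 7104, nat_lit 3840, nat_lit 7104, R2_148, R4_80, R2_148⟩]⟩, ⟨nat_lit 3, [⟨nat_lit 4, nat_lit 1872, nat_lit 3408, nat_lit 912, nat_lit 3744, nat_lit 1440, R12_19, R6_78, R2_30⟩, ⟨nat_lit 7, nat_lit 3072, nat_lit 3888, nat_lit 1008, nat_lit 3888, nat_lit 6816, R12_21, R4_81, R12_142⟩]⟩]⟩]], [], [], [[⟨nat_lit 3, [⟨nat_lit 0, [⟨nat_lit 4, nat_lit 11280, nat_lit 15696, nat_lit 11040, nat_lit 8688, nat_lit 13008, R3_230, R7_181, R6_271⟩]⟩,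 ⟨nat_lit 1, [⟨nat_lit 4, nat_lit 11376, nat_lit 16752, nat_lit 8784, nat_lit 8976, nat_lit 14400, R10_183, R7_187, R8_300⟩]⟩]⟩,
 ⟨nat_lit 7, [⟨nat_lit 0, [⟨nat_lit 4, nat_lit 9600, nat_lit 15744, nat_lit 7440, nat_lit 8784, nat_lit 12336, R2_155, R4_183, R6_257⟩, ⟨nat_lit 6, nat_lit 10176, nat_lit 16464, nat_lit 7680, nat_lit 6000, nat_lit 12576, R2_160, R5_125, R4_262⟩]⟩]⟩], [], [], [⟨nat_lit 3, [⟨nat_lit 0, [⟨nat_lit 4, nat_lit 11424, nat_lit 8880, nat_lit 11904, nat_lit 9216, nat_lit 11808, R3_248, R7_192, R13_246⟩, ⟨nat_lit 7, nat_lit 12000, nat_lit 8928, nat_lit 14592, nat_lit 1344, nat_lit 14592, R3_304, R14_28, R3_304⟩]⟩, ⟨nat_lit 1, [⟨nat_lit 4, nat_lit 11520, nat_lit 8976, nat_lit 10416, nat_lit 11088, nat_lit 528, R10_217, R7_231, R9_11⟩]⟩]⟩,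
 ⟨nat_lit 7, [⟨nat_lit 3, [⟨nat_lit 4, nat_lit 9792, nat_lit 8784, nat_lit 816, nat_lit 9840, nat_lit 13968, R12_17, R4_205, R3_291⟩, ⟨nat_lit 6, nat_lit 10368, nat_lit 8832, nat_lit 864, nat_lit 6144, nat_lit 1632, R12_18, R5_128, R10_34⟩]⟩]⟩]]], [[], [], [], [], [[], [⟨nat_lit 4, [⟨nat_lit 1, [⟨nat_lit 6, nat_lit 0, nat_lit 3792, nat_lit 0, nat_lit 2784, nat_lit 144, R4_0, R6_58, R11_3⟩]⟩]⟩]], [[⟨nat_lit 4, [⟨nat_lit 1, [⟨nat_lit 4, nat_lit 4464, nat_lit 15264, nat_lit 4608, nat_lit 6816, nat_lit 15168, R4_96, R6_142, R8_316⟩, ⟨nat_lit 6, nat_lit 4704, nat_lit 15360, nat_lit 4656, nat_lit 1872, nat_lit 1200, R4_97, R13_39, R5_25⟩]⟩]⟩,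
 ⟨nat_lit 5, [⟨nat_lit 1, [⟨nat_lit 4, nat_lit 5136, nat_lit 15312, nat_lit 288, nat_lit 7392, nat_lit 15312, R3_6, R4_154, R8_319⟩, ⟨nat_lit 6, nat_lit 5472, nat_lit 15408, nat_lit 384, nat_lit 2256, nat_lit 1344, R3_8, R3_47, R5_28⟩]⟩]⟩], [⟨nat_lit 4, [⟨nat_lit 1, [⟨nat_lit 4, nat_lit 4512, nat_lit 3408, nat_lit 5184, nat_lit 6960, nat_lit 1488, R4_108, R6_145, R5_31⟩, ⟨nat_lit 6, nat_lit 4752, nat_lit 3456, nat_lit 5232, nat_lit 1968, nat_lit 768, R4_109, R13_41, R11_16⟩]⟩]⟩,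
 ⟨nat_lit 5, [⟨nat_lit 1, [⟨nat_lit 4, nat_lit 5184, nat_lit 3552, nat_lit 3888, nat_lit 7584, nat_lit 3840, R3_81, R4_158, R5_80⟩, ⟨nat_lit 6, nat_lit 5520, nat_lit 3600, nat_lit 3984, nat_lit 2352, nat_lit 912, R3_83, R3_49, R11_19⟩]⟩]⟩]]], [[], [[⟨nat_lit 5, [⟨nat_lit 1, [⟨nat_lit 4, nat_lit 13008, nat_lit 16752, nat_lit 14448, nat_lit 8976, nat_lit 10464, R10_301, R7_187, R8_218⟩, ⟨nat_lit 5, nat_lit 13104, nat_lit 16848, nat_lit 14640, nat_lit 8016, nat_lit 11184, R10_305, R2_167, R9_233⟩, ⟨nat_lit 6, nat_lit 13248, nat_lit 16944, nat_lit 14496, nat_lit 6384, nat_lit 12960, R10_302, R2_133, R5_270⟩]⟩]⟩]], [], [], [], [[⟨nat_lit 5, [⟨nat_lit 1, [⟨nat_lit 4, nat_lit 5232, nat_lit 14640, nat_lit 2832, nat_lit 7440, nat_lit 16512, R10_59, R4_155, R8_344⟩, ⟨nat_lit 6, nat_lit 5616, nat_lit 14688, nat_lit 2880,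 nat_lit 2400, nat_lit 13248, R10_60, R3_50, R5_276⟩]⟩]⟩], [⟨nat_lit 5, [⟨nat_lit 1, [⟨nat_lit 4, nat_lit 5280, nat_lit 3264, nat_lit 3504, nat_lit 7632, nat_lit 3936, R10_73, R4_159, R5_82⟩, ⟨nat_lit 6, nat_lit 5664, nat_lit 3312, nat_lit 3552, nat_lit 2496, nat_lit 16176, R10_74, R3_52, R11_337⟩]⟩]⟩]]], [[], [], [], [], [[], [], [], [], [], [⟨nat_lit 4, [⟨nat_lit 5, [⟨nat_lit 6, nat_lit 192, nat_lit 4080, nat_lit 15360, nat_lit 3024, nat_lit 15648, R14_320, R6_63, R10_326⟩]⟩]⟩,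
 ⟨nat_lit 6, [⟨nat_lit 5, [⟨nat_lit 6, nat_lit 720, nat_lit 4464, nat_lit 12864, nat_lit 2688, nat_lit 17424, R12_268, R4_56, R10_363⟩]⟩]⟩,
 ⟨nat_lit 7, [⟨nat_lit 5, [⟨nat_lit 6, nat_lit 2064, nat_lit 4176, nat_lit 768, nat_lit 2688, nat_lit 16512, R12_16, R8_56, R10_344⟩]⟩]⟩]]], [[], [], [], [], [[⟨nat_lit 4, [⟨nat_lit 1, [⟨nat_lit 6, nat_lit 240, nat_lit 2160, nat_lit 1776, nat_lit 2832, nat_lit 8208, R5_37, R6_59, R5_171⟩]⟩]⟩,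
 ⟨nat_lit 7, [⟨nat_lit 1, [⟨nat_lit 4, nat_lit 1488, nat_lit 288, nat_lit 10368, nat_lit 768, nat_lit 12192, R11_216, R6_16, R8_254⟩, ⟨nat_lit 6, nat_lit 2160, nat_lit 2592, nat_lit 10512, nat_lit 2400, nat_lit 8352, R11_219, R8_50, R5_174⟩]⟩]⟩], [⟨nat_lit 4, [⟨nat_lit 1, [⟨nat_lit 6, nat_lit 288, nat_lit 3552, nat_lit 1872, nat_lit 2928, nat_lit 10656, R5_39, R6_61, R11_222⟩]⟩]⟩,
 ⟨nat_lit 7, [⟨nat_lit 1, [⟨nat_lit 4, nat_lit 1536, nat_lit 3600, nat_lit 10656, nat_lit 2928, nat_lit 1872, R11_222, R6_61, R5_39⟩, ⟨nat_lit 6, nat_lit 2208, nat_lit 3648, nat_lit 10800, nat_lit 2544, nat_lit 10800, R11_225, R8_53, R11_225⟩]⟩]⟩], [], [⟨nat_lit 7, [⟨nat_lit 1, [⟨nat_lit 4, nat_lit 1584, nat_lit 192, nat_lit 10944, nat_lit 1344, nat_lit 2208, R11_228, R6_28, R9_46⟩]⟩]⟩]], [[⟨nat_lit 4, [⟨nat_lit 1, [⟨nat_lit 4, nat_lit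 4560, nat_lit 16752, nat_lit 7968, nat_lit 6864, nat_lit 15744, R5_166, R6_143, R8_328⟩, ⟨nat_lit 6, nat_lit 4992, nat_lit 16896, nat_lit 10176, nat_lit 2016, nat_lit 9552, R5_212, R13_42, R5_199⟩]⟩]⟩,
 ⟨nat_lit 7, [⟨nat_lit 1, [⟨nat_lit 4, nat_lit 6288, nat_lit 16848, nat_lit 10416, nat_lit 7824, nat_lit 15888, R11_217, R8_163, R8_331⟩, ⟨nat_lit 6, nat_lit 6672, nat_lit 16992, nat_lit 10560, nat_lit 1152, nat_lit 9696, R11_220, R9_24, R5_202⟩]⟩]⟩], [⟨nat_lit 4, [⟨nat_lit 1, [⟨nat_lit 4, nat_lit 4608, nat_lit 2496, nat_lit 8544, nat_lit 7008, nat_lit 1536, R5_178, R6_146, R5_32⟩, ⟨nat_lit 6, nat_lit 5040, nat_lit 2544, nat_lit 10368, nat_lit 2112, nat_lit 12000, R5_216, R13_44, R11_250⟩]⟩]⟩,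
 ⟨nat_lit 7, [⟨nat_lit 1, [⟨nat_lit 4, nat_lit 6336, nat_lit 2688, nat_lit 10704, nat_lit 9120, nat_lit 2400, R11_223, R8_190, R5_50⟩, ⟨nat_lit 6, nat_lit 6720, nat_lit 2736, nat_lit 10848, nat_lit 1296, nat_lit 12144, R11_226, R9_27, R11_253⟩]⟩]⟩], [], [⟨nat_lit 4, [⟨nat_lit 1, [⟨nat_lit 4, nat_lit 4656, nat_lit 2208, nat_lit 8256, nat_lit 6912, nat_lit 2016, R5_172, R6_144, R9_42⟩]⟩]⟩,
 ⟨nat_lit 7, [⟨nat_lit 1, [⟨nat_lit 4, nat_lit 6384, nat_lit 2400, nat_lit 10992, nat_lit 8784, nat_lit 2688, R11_229, R8_183, R9_56⟩]⟩]⟩]], [], [[⟨nat_lit 7, [⟨nat_lit 1, [⟨nat_lit 4, nat_lit 9360, nat_lit 14304, nat_lit 10464, nat_lit 9072, nat_lit 14112, R11_218, R4_189, R8_294⟩, ⟨nat_lit 6, nat_lit 9840, nat_lit 15216, nat_lit 10608, nat_lit 6288, nat_lit 8928, R11_221, R5_131, R5_186⟩]⟩]⟩], [⟨nat_lit 7, [⟨nat_lit 1, [⟨nat_lit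 4, nat_lit 9408, nat_lit 17184, nat_lit 10752, nat_lit 10656, nat_lit 2064, R11_224, R4_222, R5_43⟩, ⟨nat_lit 6, nat_lit 9888, nat_lit 17232, nat_lit 10896, nat_lit 6432, nat_lit 11376, R11_227, R5_134, R11_237⟩]⟩]⟩]]]]
noncomputable def N0267 : T3 (List N0) := [[], [], [[], [], [], [], [], [], [[], [], [], [], [], [], [], [⟨nat_lit 0, [⟨nat_lit 2, [⟨nat_lit 3, nat_lit 7008, nat_lit 6768, nat_lit 11952, nat_lit 11952, nat_lit 13488, R5_249, R5_249, R11_281⟩]⟩]⟩,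
 ⟨nat_lit 4, [⟨nat_lit 7, [⟨nat_lit 6, nat_lit 6768, nat_lit 7008, nat_lit 11952, nat_lit 11952, nat_lit 13488, R5_249, R5_249, R11_281⟩]⟩]⟩]], [[], [], [], [], [], [], [], [⟨nat_lit 3, [⟨nat_lit 3, [⟨nat_lit 7, nat_lit 7680, nat_lit 6672, nat_lit 1872, nat_lit 1728, nat_lit 8592, R10_39, R12_36, R12_179⟩]⟩]⟩]]], [[], [], [], [[⟨nat_lit 3, [⟨nat_lit 0, [⟨nat_lit 5, nat_lit 11376, nat_lit 14448, nat_lit 16560, nat_lit 11712, nat_lit 14256, R3_345, R11_244, R8_297⟩]⟩, ⟨nat_lit 1, [⟨nat_lit 5, nat_lit 11424, nat_lit 14784, nat_lit 9552, nat_lit 11952, nat_lit 15408, R10_199, R11_249, R9_321⟩]⟩]⟩], [], [⟨nat_lit 3, [⟨nat_lit 0, [⟨nat_lit 5, nat_lit 11520, nat_lit 17328, nat_lit 17856, nat_lit 12096, nat_lit 10848, R3_372, R11_252, R5_226⟩]⟩]⟩]], [[], [], [], [⟨nat_lit 3, [⟨nat_lit 0, [⟨nat_lit 7, nat_lit 11904,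 nat_lit 8448, nat_lit 14496, nat_lit 384, nat_lit 14400, R3_302, R2_8, R3_300⟩]⟩]⟩,
 ⟨nat_lit 7, [⟨nat_lit 0, [⟨nat_lit 4, nat_lit 11712, nat_lit 9456, nat_lit 8256, nat_lit 1488, nat_lit 10080, R2_172, R13_31, R13_210⟩, ⟨nat_lit 5, nat_lit 11760, nat_lit 10368, nat_lit 10032, nat_lit 1920, nat_lit 7728, R2_209, R3_40, R9_161⟩, ⟨nat_lit 6, nat_lit 11808, nat_lit 11136, nat_lit 8976, nat_lit 672, nat_lit 8208, R2_187, R9_14, R3_171⟩, ⟨nat_lit 7, nat_lit 11856, nat_lit 10848, nat_lit 9744, nat_lit 12528, nat_lit 12816, R2_203, R3_261, R3_267⟩]⟩, ⟨nat_lit 3, [⟨nat_lit 4, nat_lit 12192, nat_lit 9504, nat_lit 1200, nat_lit 1536, nat_lit 12000, R12_25, R13_32, R3_250⟩, ⟨nat_lit 6, nat_lit 12288, nat_lit 11184, nat_lit 1248, nat_lit 720, nat_lit 10704, R12_26, R9_15, R10_223⟩]⟩]⟩], [], [], [], [⟨nat_lit 3, [⟨nat_lit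 0, [⟨nat_lit 7, nat_lit 10224, nat_lit 8448, nat_lit 12912, nat_lit 2160, nat_lit 9792, R3_269, R2_45, R2_204⟩]⟩]⟩,
 ⟨nat_lit 7, [⟨nat_lit 0, [⟨nat_lit 7, nat_lit 10176, nat_lit 10176, nat_lit 7152, nat_lit 13776, nat_lit 7248, R2_149, R3_287, R2_151⟩]⟩, ⟨nat_lit 3, [⟨nat_lit 4, nat_lit 10320, nat_lit 9456, nat_lit 1488, nat_lit 3360, nat_lit 8496, R12_31, R13_70, R2_177⟩, ⟨nat_lit 7, nat_lit 10416, nat_lit 10224, nat_lit 1584, nat_lit 14160, nat_lit 8256, R12_33, R3_295, R12_172⟩]⟩]⟩]], [], [[], [], [], [], [], [], [], [⟨nat_lit 7, [⟨nat_lit 0, [⟨nat_lit 7, nat_lit 10464, nat_lit 6624, nat_lit 7200, nat_lit 1824, nat_lit 7296, R2_150, R10_38, R2_152⟩]⟩, ⟨nat_lit 3, [⟨nat_lit 4, nat_lit 10656, nat_lit 6576, nat_lit 1632, nat_lit 7824, nat_lit 9264, R12_34, R3_163, R2_193⟩, ⟨nat_lit 7, nat_lit 10752, nat_lit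 6672, nat_lit 1728, nat_lit 1872, nat_lit 8304, R12_36, R10_39, R12_173⟩]⟩]⟩]], [[⟨nat_lit 3, [⟨nat_lit 0, [⟨nat_lit 4, nat_lit 10944, nat_lit 15792, nat_lit 11232, nat_lit 7488, nat_lit 13104, R3_234, R2_156, R6_273⟩]⟩, ⟨nat_lit 1, [⟨nat_lit 4, nat_lit 11184, nat_lit 16848, nat_lit 8928, nat_lit 8016, nat_lit 14496, R10_186, R2_167, R8_302⟩]⟩]⟩,
 ⟨nat_lit 7, [⟨nat_lit 0, [⟨nat_lit 4, nat_lit 10800, nat_lit 15840, nat_lit 7488, nat_lit 11232, nat_lit 12384, R2_156, R3_234, R6_258⟩, ⟨nat_lit 5, nat_lit 10848, nat_lit 16176, nat_lit 8016, nat_lit 8928, nat_lit 14496, R2_167, R10_186, R8_302⟩]⟩]⟩], [], [], [⟨nat_lit 3, [⟨nat_lit 0, [⟨nat_lit 7, nat_lit 12576, nat_lit 10704, nat_lit 14928, nat_lit 1344, nat_lit 14688, R3_311, R12_28, R3_306⟩]⟩]⟩,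
 ⟨nat_lit 7, [⟨nat_lit 3, [⟨nat_lit 4, nat_lit 12960, nat_lit 10464, nat_lit 1344, nat_lit 14928, nat_lit 14688, R12_28, R3_311, R3_306⟩]⟩]⟩]]], [[], [], [], [], [[], [⟨nat_lit 4, [⟨nat_lit 1, [⟨nat_lit 4, nat_lit 13488, nat_lit 9360, nat_lit 144, nat_lit 2256, nat_lit 8496, R4_3, R6_47, R5_177⟩, ⟨nat_lit 6, nat_lit 13584, nat_lit 9456, nat_lit 192, nat_lit 4272, nat_lit 192, R4_4, R8_89, R11_4⟩]⟩]⟩]], [[⟨nat_lit 4, [⟨nat_lit 1, [⟨nat_lit 4, nat_lit 13104, nat_lit 15456, nat_lit 4848, nat_lit 17904, nat_lit 15456, R4_101, R8_373, R8_322⟩, ⟨nat_lit 5, nat_lit 13152, nat_lit 15552, nat_lit 5040, nat_lit 3312, nat_lit 1920, R4_105, R5_69, R9_40⟩, ⟨nat_lit 6, nat_lit 13200, nat_lit 15648, nat_lit 4896, nat_lit 3456, nat_lit 1248, R4_102, R9_72, R5_26⟩]⟩]⟩,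
 ⟨nat_lit 5, [⟨nat_lit 1, [⟨nat_lit 4, nat_lit 13248, nat_lit 15504, nat_lit 336, nat_lit 9408, nat_lit 15600, R3_7, R5_196, R8_325⟩, ⟨nat_lit 5, nat_lit 13296, nat_lit 15600, nat_lit 528, nat_lit 11856, nat_lit 1968, R3_11, R11_247, R9_41⟩]⟩]⟩], [⟨nat_lit 4, [⟨nat_lit 1, [⟨nat_lit 4, nat_lit 13728, nat_lit 12240, nat_lit 5376, nat_lit 18000, nat_lit 9936, R4_112, R8_375, R5_207⟩, ⟨nat_lit 6, nat_lit 13824, nat_lit 12336, nat_lit 5424, nat_lit 3504, nat_lit 816, R4_113, R9_73, R11_17⟩]⟩]⟩,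
 ⟨nat_lit 5, [⟨nat_lit 1, [⟨nat_lit 4, nat_lit 13872, nat_lit 12432, nat_lit 3936, nat_lit 11664, nat_lit 12192, R3_82, R5_243, R5_254⟩]⟩]⟩]]], [[], [], [], [], [], [[⟨nat_lit 5, [⟨nat_lit 1, [⟨nat_lit 4, nat_lit 15360, nat_lit 14736, nat_lit 3072, nat_lit 9504, nat_lit 16656, R10_64, R5_198, R8_347⟩, ⟨nat_lit 5, nat_lit 15408, nat_lit 14784, nat_lit 3264, nat_lit 11952, nat_lit 11424, R10_68, R11_249, R9_238⟩]⟩]⟩], [⟨nat_lit 5, [⟨nat_lit 1, [⟨nat_lit 4, nat_lit 15648, nat_lit 9312, nat_lit 3696, nat_lit 11760, nat_lit 12288, R10_77, R5_245, R5_256⟩]⟩]⟩]]], [[], [], [], [], [[], [], [], [], [], [⟨nat_lit 4, [⟨nat_lit 5, [⟨nat_lit 6, nat_lit 14160, nat_lit 11088, nat_lit 18912, nat_lit 11616, nat_lit 15744, R14_394, R8_242, R10_328⟩]⟩]⟩,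
 ⟨nat_lit 7, [⟨nat_lit 5, [⟨nat_lit 6, nat_lit 14256, nat_lit 11184, nat_lit 1248, nat_lit 3168, nat_lit 16608, R12_26, R9_66, R10_346⟩]⟩]⟩]]], [[], [], [], [], [[⟨nat_lit 4, [⟨nat_lit 1, [⟨nat_lit 4, nat_lit 15984, nat_lit 4608, nat_lit 960, nat_lit 4704, nat_lit 12336, R5_20, R6_98, R8_257⟩, ⟨nat_lit 5, nat_lit 16032, nat_lit 5760, nat_lit 3312, nat_lit 5040, nat_lit 8064, R5_69, R4_105, R9_168⟩, ⟨nat_lit 6, nat_lit 16080, nat_lit 6912, nat_lit 2208, nat_lit 9024, nat_lit 8256, R5_46, R8_188, R5_172⟩]⟩]⟩,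
 ⟨nat_lit 7, [⟨nat_lit 1, [⟨nat_lit 4, nat_lit 16128, nat_lit 5136, nat_lit 11616, nat_lit 336, nat_lit 12480, R11_242, R13_7, R8_260⟩, ⟨nat_lit 5, nat_lit 16176, nat_lit 6480, nat_lit 11856, nat_lit 528, nat_lit 8112, R11_247, R3_11, R9_169⟩, ⟨nat_lit 6, nat_lit 16224, nat_lit 7152, nat_lit 11760, nat_lit 192, nat_lit 8400, R11_245, R9_4, R5_175⟩]⟩]⟩], [⟨nat_lit 4, [⟨nat_lit 1, [⟨nat_lit 4, nat_lit 16848, nat_lit 8688, nat_lit 1536, nat_lit 7008, nat_lit 8544, R5_32, R6_146, R5_178⟩, ⟨nat_lit 6, nat_lit 16944, nat_lit 8784, nat_lit 2400, nat_lit 9120, nat_lit 10704, R5_50, R8_190, R11_223⟩]⟩]⟩,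
 ⟨nat_lit 7, [⟨nat_lit 1, [⟨nat_lit 4, nat_lit 16992, nat_lit 8832, nat_lit 12000, nat_lit 2112, nat_lit 10368, R11_250, R13_44, R5_216⟩, ⟨nat_lit 6, nat_lit 17088, nat_lit 8928, nat_lit 12144, nat_lit 1296, nat_lit 10848, R11_253, R9_27, R11_226⟩]⟩]⟩], [], [⟨nat_lit 4, [⟨nat_lit 1, [⟨nat_lit 4, nat_lit 17712, nat_lit 4896, nat_lit 1248, nat_lit 5856, nat_lit 8160, R5_26, R6_122, R9_170⟩]⟩]⟩,
 ⟨nat_lit 7, [⟨nat_lit 1, [⟨nat_lit 4, nat_lit 17808, nat_lit 5424, nat_lit 12384, nat_lit 912, nat_lit 8976, R11_258, R13_19, R9_187⟩]⟩]⟩]], [[⟨nat_lit 4, [⟨nat_lit 1, [⟨nat_lit 4, nat_lit 16272, nat_lit 17040, nat_lit 9216, nat_lit 18720, nat_lit 16128, R5_192, R8_390, R8_336⟩, ⟨nat_lit 5, nat_lit 16320, nat_lit 17184, nat_lit 11376, nat_lit 11376, nat_lit 8544, R5_237, R5_237, R9_178⟩, ⟨nat_lit 6, nat_lit 16368, nat_lit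 17328, nat_lit 11040, nat_lit 9888, nat_lit 9600, R5_230, R9_206, R5_200⟩]⟩]⟩,
 ⟨nat_lit 7, [⟨nat_lit 1, [⟨nat_lit 4, nat_lit 16560, nat_lit 17136, nat_lit 11664, nat_lit 8496, nat_lit 16272, R11_243, R9_177, R8_339⟩]⟩]⟩], [], [], [⟨nat_lit 4, [⟨nat_lit 1, [⟨nat_lit 4, nat_lit 17952, nat_lit 11040, nat_lit 9600, nat_lit 18816, nat_lit 8688, R5_200, R8_392, R9_181⟩]⟩]⟩,
 ⟨nat_lit 7, [⟨nat_lit 1, [⟨nat_lit 4, nat_lit 18144, nat_lit 11232, nat_lit 12432, nat_lit 9600, nat_lit 9792, R11_259, R9_200, R9_204⟩]⟩]⟩]], [], [[⟨nat_lit 7, [⟨nat_lit 1, [⟨nat_lit 4, nat_lit 16656, nat_lit 14448, nat_lit 11712, nat_lit 16560, nat_lit 14256, R11_244, R3_345, R8_297⟩, ⟨nat_lit 5, nat_lit 16704, nat_lit 14784, nat_lit 11952, nat_lit 9552, nat_lit 8304, R11_249, R10_199, R9_173⟩]⟩]⟩], [⟨nat_lit 7, [⟨nat_lit 1, [⟨nat_lit 4, nat_lit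 17568, nat_lit 17328, nat_lit 12096, nat_lit 17856, nat_lit 10848, R11_252, R3_372, R5_226⟩]⟩]⟩]]]]
noncomputable def N0347 : T3 (List N0) := [[], [], [], [[], [], [], [], [[], [], [], [⟨nat_lit 3, [⟨nat_lit 2, [⟨nat_lit 7, nat_lit 4272, nat_lit 2064, nat_lit 17376, nat_lit 1152, nat_lit 7584, R11_362, R7_24, R10_158⟩]⟩]⟩,
 ⟨nat_lit 7, [⟨nat_lit 3, [⟨nat_lit 6, nat_lit 2688, nat_lit 4464, nat_lit 12864, nat_lit 720, nat_lit 1056, R12_268, R8_15, R10_22⟩]⟩]⟩], [], [], [], [⟨nat_lit 2, [⟨nat_lit 4, [⟨nat_lit 2, nat_lit 3936, nat_lit 3024, nat_lit 5232, nat_lit 3696, nat_lit 5808, R2_109, R4_77, R2_121⟩]⟩, ⟨nat_lit 6, [⟨nat_lit 0, nat_lit 3456, nat_lit 2352, nat_lit 12672, nat_lit 3696, nat_lit 1296, R12_264, R6_77, R2_27⟩, ⟨nat_lit 2, nat_lit 3984, nat_lit 3120, nat_lit 12960, nat_lit 3744, nat_lit 5904, R12_270,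 R4_78, R12_123⟩]⟩]⟩,
 ⟨nat_lit 3, [⟨nat_lit 2, [⟨nat_lit 3, nat_lit 4416, nat_lit 1392, nat_lit 18000, nat_lit 528, nat_lit 7728, R11_375, R4_11, R11_161⟩]⟩]⟩,
 ⟨nat_lit 6, [⟨nat_lit 7, [⟨nat_lit 6, nat_lit 1392, nat_lit 4416, nat_lit 18000, nat_lit 528, nat_lit 7728, R11_375, R4_11, R11_161⟩]⟩]⟩,
 ⟨nat_lit 7, [⟨nat_lit 0, [⟨nat_lit 7, nat_lit 3024, nat_lit 3936, nat_lit 5232, nat_lit 3696, nat_lit 5808, R2_109, R4_77, R2_121⟩]⟩, ⟨nat_lit 3, [⟨nat_lit 4, nat_lit 2352, nat_lit 3456, nat_lit 12672, nat_lit 3696, nat_lit 1296, R12_264, R6_77, R2_27⟩, ⟨nat_lit 7, nat_lit 3120, nat_lit 3984, nat_lit 12960, nat_lit 3744, nat_lit 5904, R12_270, R4_78, R12_123⟩]⟩]⟩]], [], [[], [], [], [], [], [], [], [⟨nat_lit 0, [⟨nat_lit 6, [⟨nat_lit 0, nat_lit 8832, nat_lit 432, nat_lit 14448, nat_lit 12864, nat_lit 7536, R2_301,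 R6_268, R2_157⟩]⟩]⟩,
 ⟨nat_lit 2, [⟨nat_lit 4, [⟨nat_lit 2, nat_lit 10272, nat_lit 768, nat_lit 5520, nat_lit 13680, nat_lit 5952, R2_115, R3_285, R2_124⟩]⟩, ⟨nat_lit 6, [⟨nat_lit 0, nat_lit 9504, nat_lit 480, nat_lit 15504, nat_lit 3312, nat_lit 8352, R12_323, R13_69, R2_174⟩, ⟨nat_lit 2, nat_lit 10320, nat_lit 864, nat_lit 15888, nat_lit 14016, nat_lit 6048, R12_331, R3_292, R12_126⟩]⟩]⟩,
 ⟨nat_lit 3, [⟨nat_lit 2, [⟨nat_lit 3, nat_lit 10704, nat_lit 624, nat_lit 21888, nat_lit 2112, nat_lit 7776, R11_456, R5_44, R11_162⟩]⟩]⟩]], [[⟨nat_lit 3, [⟨nat_lit 2, [⟨nat_lit 4, nat_lit 11856, nat_lit 17568, nat_lit 18288, nat_lit 8832, nat_lit 12432, R11_381, R7_184, R4_259⟩]⟩]⟩,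
 ⟨nat_lit 7, [⟨nat_lit 0, [⟨nat_lit 4, nat_lit 10992, nat_lit 15936, nat_lit 3120, nat_lit 8736, nat_lit 12576, R2_65, R4_182, R6_262⟩, ⟨nat_lit 6, nat_lit 11376, nat_lit 16656, nat_lit 3984, nat_lit 5184, nat_lit 12912, R2_83, R5_108, R4_269⟩]⟩]⟩], [], [], [⟨nat_lit 3, [⟨nat_lit 2, [⟨nat_lit 4, nat_lit 11904, nat_lit 13200, nat_lit 19104, nat_lit 9888, nat_lit 1488, R11_398, R7_206, R3_31⟩, ⟨nat_lit 7, nat_lit 12048, nat_lit 13248, nat_lit 19296, nat_lit 432, nat_lit 7632, R11_402, R14_9, R10_159⟩]⟩]⟩,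
 ⟨nat_lit 7, [⟨nat_lit 3, [⟨nat_lit 4, nat_lit 11184, nat_lit 13056, nat_lit 12768, nat_lit 9744, nat_lit 13920, R12_266, R4_203, R3_290⟩, ⟨nat_lit 6, nat_lit 11472, nat_lit 13104, nat_lit 12912, nat_lit 5280, nat_lit 1488, R12_269, R5_110, R10_31⟩]⟩]⟩]]], [[], [], [], [], [[], [⟨nat_lit 4, [⟨nat_lit 1, [⟨nat_lit 6, nat_lit 0, nat_lit 4272, nat_lit 0, nat_lit 1056, nat_lit 288, R8_0, R6_22, R11_6⟩]⟩]⟩,
 ⟨nat_lit 6, [⟨nat_lit 1, [⟨nat_lit 6, nat_lit 480, nat_lit 4320, nat_lit 4752, nat_lit 960, nat_lit 384, R5_99, R4_20, R11_8⟩]⟩]⟩]], [[⟨nat_lit 4, [⟨nat_lit 0, [⟨nat_lit 4, nat_lit 4512, nat_lit 15840, nat_lit 8208, nat_lit 5328, nat_lit 192, R6_171, R6_111, R6_4⟩, ⟨nat_lit 6, nat_lit 5136, nat_lit 15936, nat_lit 8496, nat_lit 528, nat_lit 96, R6_177, R13_11, R4_2⟩]⟩, ⟨nat_lit 1, [⟨nat_lit 4, nat_lit 4608, nat_lit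 16080, nat_lit 4464, nat_lit 5664, nat_lit 15216, R8_93, R6_118, R8_317⟩, ⟨nat_lit 6, nat_lit 5184, nat_lit 16176, nat_lit 4512, nat_lit 576, nat_lit 1488, R8_94, R13_12, R5_31⟩]⟩, ⟨nat_lit 2, [⟨nat_lit 4, nat_lit 4560, nat_lit 16320, nat_lit 8592, nat_lit 5472, nat_lit 14064, R4_179, R6_114, R4_293⟩]⟩]⟩,
 ⟨nat_lit 5, [⟨nat_lit 0, [⟨nat_lit 4, nat_lit 5616, nat_lit 15888, nat_lit 384, nat_lit 5616, nat_lit 2496, R8_8, R4_117, R6_52⟩, ⟨nat_lit 6, nat_lit 6288, nat_lit 15984, nat_lit 480, nat_lit 720, nat_lit 2400, R8_10, R3_15, R4_50⟩]⟩, ⟨nat_lit 1, [⟨nat_lit 4, nat_lit 5712, nat_lit 16128, nat_lit 3696, nat_lit 6048, nat_lit 15360, R9_77, R4_126, R8_320⟩, ⟨nat_lit 6, nat_lit 6336, nat_lit 16224, nat_lit 3744, nat_lit 768, nat_lit 1680, R9_78, R3_16, R5_35⟩]⟩, ⟨nat_lit 2, [⟨nat_lit 4, nat_lit 5664, nat_lit 16368,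 nat_lit 4368, nat_lit 5808, nat_lit 14928, R5_91, R4_121, R4_311⟩]⟩]⟩,
 ⟨nat_lit 6, [⟨nat_lit 0, [⟨nat_lit 6, nat_lit 6768, nat_lit 16032, nat_lit 1008, nat_lit 4320, nat_lit 672, R4_21, R3_90, R4_14⟩]⟩, ⟨nat_lit 1, [⟨nat_lit 6, nat_lit 6816, nat_lit 16272, nat_lit 0, nat_lit 4512, nat_lit 1584, R5_0, R3_94, R5_33⟩]⟩]⟩], [⟨nat_lit 4, [⟨nat_lit 1, [⟨nat_lit 4, nat_lit 4656, nat_lit 4224, nat_lit 4704, nat_lit 5808, nat_lit 1200, R8_98, R6_121, R5_25⟩, ⟨nat_lit 6, nat_lit 5232, nat_lit 4272, nat_lit 4752, nat_lit 624, nat_lit 1056, R8_99, R13_13, R11_22⟩]⟩]⟩,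
 ⟨nat_lit 5, [⟨nat_lit 1, [⟨nat_lit 4, nat_lit 5760, nat_lit 4320, nat_lit 3936, nat_lit 6144, nat_lit 3600, R9_82, R4_128, R5_75⟩, ⟨nat_lit 6, nat_lit 6384, nat_lit 4368, nat_lit 3984, nat_lit 816, nat_lit 1248, R9_83, R3_17, R11_26⟩]⟩]⟩,
 ⟨nat_lit 6, [⟨nat_lit 1, [⟨nat_lit 6, nat_lit 6864, nat_lit 4416, nat_lit 5040, nat_lit 4656, nat_lit 1152, R5_105, R3_97, R11_24⟩]⟩]⟩]]], [[], [[⟨nat_lit 5, [⟨nat_lit 0, [⟨nat_lit 4, nat_lit 12384, nat_lit 17280, nat_lit 4416, nat_lit 8784, nat_lit 10512, R5_92, R7_183, R6_219⟩, ⟨nat_lit 5, nat_lit 12576, nat_lit 17328, nat_lit 6000, nat_lit 7680, nat_lit 10656, R5_125, R2_160, R8_222⟩, ⟨nat_lit 6, nat_lit 12912, nat_lit 17376, nat_lit 5184, nat_lit 3984, nat_lit 11376, R5_108, R2_83, R4_237⟩]⟩, ⟨nat_lit 2, [⟨nat_lit 4, nat_lit 12432, nat_lit 17568, nat_lit 18288, nat_lit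 8832, nat_lit 11856, R11_381, R7_184, R4_247⟩, ⟨nat_lit 5, nat_lit 12624, nat_lit 17664, nat_lit 18432, nat_lit 7728, nat_lit 12768, R11_384, R2_161, R5_266⟩]⟩]⟩], [], [⟨nat_lit 5, [⟨nat_lit 0, [⟨nat_lit 5, nat_lit 12720, nat_lit 14736, nat_lit 6912, nat_lit 7824, nat_lit 7392, R5_144, R2_163, R5_154⟩]⟩, ⟨nat_lit 2, [⟨nat_lit 5, nat_lit 12768, nat_lit 14880, nat_lit 18864, nat_lit 7872, nat_lit 7008, R11_393, R2_164, R11_146⟩]⟩]⟩]], [], [], [], [[⟨nat_lit 5, [⟨nat_lit 0, [⟨nat_lit 4, nat_lit 5808, nat_lit 14928, nat_lit 4368, nat_lit 5664, nat_lit 10176, R5_91, R4_118, R6_212⟩, ⟨nat_lit 6, nat_lit 6432, nat_lit 14976, nat_lit 5136, nat_lit 864, nat_lit 11232, R5_107, R3_18, R4_234⟩]⟩, ⟨nat_lit 2, [⟨nat_lit 4, nat_lit 5856, nat_lit 15120, nat_lit 4368, nat_lit 5856, nat_lit 15120, R11_91, R4_122, R4_315⟩]⟩]⟩]]],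 [[], [], [], [], [[], [⟨nat_lit 4, [⟨nat_lit 1, [⟨nat_lit 6, nat_lit 48, nat_lit 4368, nat_lit 14496, nat_lit 1392, nat_lit 7632, R5_302, R6_29, R11_159⟩]⟩]⟩,
 ⟨nat_lit 6, [⟨nat_lit 1, [⟨nat_lit 6, nat_lit 528, nat_lit 4416, nat_lit 18000, nat_lit 1392, nat_lit 7728, R11_375, R4_29, R11_161⟩]⟩]⟩]]], [[], [], [], [], [[⟨nat_lit 4, [⟨nat_lit 0, [⟨nat_lit 6, nat_lit 96, nat_lit 2208, nat_lit 15600, nat_lit 1104, nat_lit 5136, R13_325, R6_23, R4_107⟩]⟩, ⟨nat_lit 1, [⟨nat_lit 6, nat_lit 144, nat_lit 2256, nat_lit 13488, nat_lit 1152, nat_lit 8496, R9_281, R6_24, R5_177⟩]⟩]⟩,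
 ⟨nat_lit 6, [⟨nat_lit 0, [⟨nat_lit 6, nat_lit 672, nat_lit 3120, nat_lit 4320, nat_lit 1008, nat_lit 6768, R3_90, R4_21, R4_141⟩]⟩]⟩,
 ⟨nat_lit 7, [⟨nat_lit 0, [⟨nat_lit 4, nat_lit 1872, nat_lit 336, nat_lit 0, nat_lit 624, nat_lit 5952, R3_0, R6_13, R6_124⟩, ⟨nat_lit 6, nat_lit 2400, nat_lit 2640, nat_lit 720, nat_lit 768, nat_lit 6288, R3_15, R8_16, R4_131⟩]⟩, ⟨nat_lit 2, [⟨nat_lit 4, nat_lit 1920, nat_lit 432, nat_lit 2736, nat_lit 672, nat_lit 12240, R10_57, R6_14, R4_255⟩]⟩]⟩], [⟨nat_lit 4, [⟨nat_lit 1, [⟨nat_lit 6, nat_lit 192, nat_lit 4272, nat_lit 13584, nat_lit 1344, nat_lit 10944, R9_283, R6_28, R11_228⟩]⟩]⟩], [], [⟨nat_lit 4, [⟨nat_lit 0, [⟨nat_lit 6, nat_lit 240, nat_lit 2064, nat_lit 15648, nat_lit 1200, nat_lit 3744, R13_326, R6_25, R3_78⟩]⟩, ⟨nat_lit 3, [⟨nat_lit 6, nat_lit 336, nat_lit 2112,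 nat_lit 3024, nat_lit 1248, nat_lit 144, R3_63, R6_26, R10_3⟩]⟩]⟩,
 ⟨nat_lit 6, [⟨nat_lit 0, [⟨nat_lit 6, nat_lit 816, nat_lit 2784, nat_lit 4896, nat_lit 1104, nat_lit 5472, R3_102, R4_23, R3_114⟩]⟩, ⟨nat_lit 3, [⟨nat_lit 6, nat_lit 912, nat_lit 2832, nat_lit 14064, nat_lit 1152, nat_lit 672, R10_293, R4_24, R10_14⟩]⟩]⟩,
 ⟨nat_lit 7, [⟨nat_lit 0, [⟨nat_lit 4, nat_lit 2064, nat_lit 240, nat_lit 3744, nat_lit 1200, nat_lit 7200, R3_78, R6_25, R13_150⟩, ⟨nat_lit 6, nat_lit 2544, nat_lit 2544, nat_lit 6048, nat_lit 864, nat_lit 6048, R3_126, R8_18, R3_126⟩, ⟨nat_lit 7, nat_lit 2784, nat_lit 816, nat_lit 5472, nat_lit 1104, nat_lit 4896, R3_114, R4_23, R3_102⟩]⟩, ⟨nat_lit 2, [⟨nat_lit 4, nat_lit 2112, nat_lit 336, nat_lit 3456, nat_lit 1248, nat_lit 3024, R10_72, R6_26, R3_63⟩, ⟨nat_lit 7, nat_lit 2832, nat_lit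 912, nat_lit 4032, nat_lit 1152, nat_lit 4608, R10_84, R4_24, R10_96⟩]⟩]⟩]], [[⟨nat_lit 4, [⟨nat_lit 0, [⟨nat_lit 4, nat_lit 4752, nat_lit 17568, nat_lit 15120, nat_lit 5376, nat_lit 5040, R13_315, R6_112, R6_105⟩, ⟨nat_lit 6, nat_lit 5328, nat_lit 17712, nat_lit 16080, nat_lit 672, nat_lit 5328, R13_335, R13_14, R4_111⟩]⟩, ⟨nat_lit 1, [⟨nat_lit 4, nat_lit 4848, nat_lit 17904, nat_lit 13104, nat_lit 5712, nat_lit 15792, R9_273, R6_119, R8_329⟩, ⟨nat_lit 6, nat_lit 5376, nat_lit 18000, nat_lit 13728, nat_lit 720, nat_lit 9936, R9_286, R13_15, R5_207⟩]⟩, ⟨nat_lit 2, [⟨nat_lit 4, nat_lit 4800, nat_lit 18144, nat_lit 11376, nat_lit 5520, nat_lit 14160, R3_237, R6_115, R4_295⟩]⟩]⟩,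
 ⟨nat_lit 5, [⟨nat_lit 0, [⟨nat_lit 4, nat_lit 6048, nat_lit 17616, nat_lit 3696, nat_lit 5712, nat_lit 7056, R9_77, R4_119, R6_147⟩, ⟨nat_lit 6, nat_lit 6624, nat_lit 17760, nat_lit 4608, nat_lit 1008, nat_lit 7728, R9_96, R3_21, R4_161⟩]⟩]⟩,
 ⟨nat_lit 6, [⟨nat_lit 0, [⟨nat_lit 6, nat_lit 7056, nat_lit 17856, nat_lit 4368, nat_lit 4368, nat_lit 7056, R3_91, R3_91, R4_147⟩]⟩]⟩,
 ⟨nat_lit 7, [⟨nat_lit 0, [⟨nat_lit 4, nat_lit 7392, nat_lit 17664, nat_lit 288, nat_lit 7488, nat_lit 6384, R3_6, R8_156, R6_133⟩, ⟨nat_lit 6, nat_lit 7728, nat_lit 17808, nat_lit 1008, nat_lit 240, nat_lit 6624, R3_21, R9_5, R4_138⟩]⟩, ⟨nat_lit 2, [⟨nat_lit 4, nat_lit 7440, nat_lit 18240, nat_lit 2832, nat_lit 7632, nat_lit 14640, R10_59, R8_159, R4_305⟩]⟩]⟩], [⟨nat_lit 4, [⟨nat_lit 1, [⟨nat_lit 4, nat_lit 4896, nat_lit 3456, nat_lit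 13200, nat_lit 5856, nat_lit 1248, R9_275, R6_122, R5_26⟩, ⟨nat_lit 6, nat_lit 5424, nat_lit 3504, nat_lit 13824, nat_lit 912, nat_lit 12384, R9_288, R13_19, R11_258⟩]⟩]⟩], [], [⟨nat_lit 4, [⟨nat_lit 0, [⟨nat_lit 4, nat_lit 4944, nat_lit 3264, nat_lit 15168, nat_lit 5424, nat_lit 5520, R13_316, R6_113, R13_115⟩]⟩, ⟨nat_lit 1, [⟨nat_lit 4, nat_lit 5040, nat_lit 3312, nat_lit 13152, nat_lit 5760, nat_lit 1920, R9_274, R6_120, R9_40⟩]⟩]⟩,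
 ⟨nat_lit 5, [⟨nat_lit 0, [⟨nat_lit 4, nat_lit 6144, nat_lit 3600, nat_lit 3936, nat_lit 5760, nat_lit 9072, R9_82, R4_120, R13_189⟩]⟩]⟩,
 ⟨nat_lit 7, [⟨nat_lit 2, [⟨nat_lit 7, nat_lit 8016, nat_lit 4080, nat_lit 4080, nat_lit 144, nat_lit 4656, R10_85, R5_3, R10_97⟩]⟩]⟩]], [], [[⟨nat_lit 7, [⟨nat_lit 0, [⟨nat_lit 4, nat_lit 10800, nat_lit 14112, nat_lit 144, nat_lit 8688, nat_lit 6096, R3_3, R4_181, R6_127⟩, ⟨nat_lit 6, nat_lit 11232, nat_lit 14976, nat_lit 864, nat_lit 5136, nat_lit 6432, R3_18, R5_107, R4_134⟩]⟩, ⟨nat_lit 2, [⟨nat_lit 4, nat_lit 10848, nat_lit 14544, nat_lit 2784, nat_lit 8880, nat_lit 13104, R10_58, R4_185, R4_273⟩]⟩]⟩]]]]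
noncomputable def N0373 : T3 (List N0) := [[], [], [], [[], [], [], [], [[], [], [], [], [], [], [], [⟨nat_lit 6, [⟨nat_lit 7, [⟨nat_lit 2, nat_lit 13248, nat_lit 12048, nat_lit 19296, nat_lit 432, nat_lit 16032, R11_402, R14_9, R10_334⟩]⟩]⟩]]], [[], [], [], [], [[], [⟨nat_lit 4, [⟨nat_lit 0, [⟨nat_lit 2, nat_lit 15264, nat_lit 11328, nat_lit 1680, nat_lit 3024, nat_lit 11568, R6_35, R7_63, R3_241⟩]⟩, ⟨nat_lit 1, [⟨nat_lit 2, nat_lit 15360, nat_lit 11376, nat_lit 192, nat_lit 4080, nat_lit 960, R8_4, R7_85, R10_20⟩]⟩, ⟨nat_lit 2, [⟨nat_lit 6, nat_lit 15456, nat_lit 11520, nat_lit 3648, nat_lit 3552, nat_lit 48, R4_76, R4_74, R12_1⟩]⟩]⟩,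
 ⟨nat_lit 6, [⟨nat_lit 0, [⟨nat_lit 2, nat_lit 15504, nat_lit 11568, nat_lit 9696, nat_lit 2064, nat_lit 13872, R4_202, R14_43, R3_289⟩]⟩, ⟨nat_lit 1, [⟨nat_lit 2, nat_lit 15552, nat_lit 11616, nat_lit 4560, nat_lit 2112, nat_lit 1344, R5_95, R14_44, R10_28⟩]⟩]⟩]], [[⟨nat_lit 4, [⟨nat_lit 0, [⟨nat_lit 6, nat_lit 15648, nat_lit 11328, nat_lit 9024, nat_lit 11568, nat_lit 3024, R6_188, R3_241, R7_63⟩]⟩, ⟨nat_lit 2, [⟨nat_lit 6, nat_lit 15696, nat_lit 11568, nat_lit 9696, nat_lit 13872, nat_lit 2064, R4_202, R3_289, R14_43⟩]⟩]⟩,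
 ⟨nat_lit 5, [⟨nat_lit 0, [⟨nat_lit 6, nat_lit 15792, nat_lit 11376, nat_lit 192, nat_lit 960, nat_lit 4080, R8_4, R10_20, R7_85⟩]⟩, ⟨nat_lit 2, [⟨nat_lit 6, nat_lit 15840, nat_lit 11616, nat_lit 4560, nat_lit 1344, nat_lit 2112, R5_95, R10_28, R14_44⟩]⟩]⟩,
 ⟨nat_lit 6, [⟨nat_lit 0, [⟨nat_lit 2, nat_lit 15888, nat_lit 11520, nat_lit 3648, nat_lit 48, nat_lit 3552, R4_76, R12_1, R4_74⟩]⟩]⟩], [⟨nat_lit 4, [⟨nat_lit 2, [⟨nat_lit 6, nat_lit 16128, nat_lit 14736, nat_lit 9936, nat_lit 14064, nat_lit 288, R4_207, R3_293, R12_6⟩]⟩]⟩,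
 ⟨nat_lit 5, [⟨nat_lit 2, [⟨nat_lit 6, nat_lit 16368, nat_lit 14976, nat_lit 4944, nat_lit 1440, nat_lit 336, R5_103, R10_30, R12_7⟩]⟩]⟩,
 ⟨nat_lit 6, [⟨nat_lit 0, [⟨nat_lit 2, nat_lit 16416, nat_lit 15024, nat_lit 9936, nat_lit 288, nat_lit 14064, R4_207, R12_6, R3_293⟩]⟩, ⟨nat_lit 1, [⟨nat_lit 2, nat_lit 16464, nat_lit 15072, nat_lit 4944, nat_lit 336, nat_lit 1440, R5_103, R12_7, R10_30⟩]⟩]⟩]]], [[], [], [], [], [], [[⟨nat_lit 5, [⟨nat_lit 0, [⟨nat_lit 6, nat_lit 17136, nat_lit 11952, nat_lit 14976, nat_lit 7344, nat_lit 12528, R5_312, R10_153, R7_261⟩]⟩, ⟨nat_lit 2, [⟨nat_lit 6, nat_lit 17184, nat_lit 12048, nat_lit 4560, nat_lit 7632, nat_lit 4032, R11_95, R10_159, R14_84⟩]⟩]⟩], [⟨nat_lit 5, [⟨nat_lit 2, [⟨nat_lit 6, nat_lit 17424, nat_lit 10992, nat_lit 4944, nat_lit 7728, nat_lit 2400, R11_103, R10_161,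 R12_50⟩]⟩]⟩]]], [[], [], [], [], [[], [⟨nat_lit 4, [⟨nat_lit 1, [⟨nat_lit 2, nat_lit 17472, nat_lit 11952, nat_lit 14976, nat_lit 12528, nat_lit 7344, R5_312, R7_261, R10_153⟩]⟩]⟩,
 ⟨nat_lit 6, [⟨nat_lit 1, [⟨nat_lit 2, nat_lit 17568, nat_lit 12048, nat_lit 19296, nat_lit 4032, nat_lit 7632, R11_402, R14_84, R10_159⟩]⟩]⟩]]], [[], [], [], [], [[⟨nat_lit 4, [⟨nat_lit 0, [⟨nat_lit 2, nat_lit 18432, nat_lit 11232, nat_lit 16512, nat_lit 9120, nat_lit 9216, R13_344, R7_190, R4_192⟩, ⟨nat_lit 6, nat_lit 18480, nat_lit 10080, nat_lit 18288, nat_lit 9216, nat_lit 9120, R13_381, R4_192, R7_190⟩]⟩, ⟨nat_lit 2, [⟨nat_lit 6, nat_lit 18528, nat_lit 10128, nat_lit 13872, nat_lit 9696, nat_lit 2448, R3_289, R4_202, R14_51⟩]⟩, ⟨nat_lit 3, [⟨nat_lit 2, nat_lit 18576, nat_lit 11280, nat_lit 1248, nat_lit 9792, nat_lit 4464, R3_26,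 R7_204, R5_93⟩]⟩]⟩,
 ⟨nat_lit 6, [⟨nat_lit 0, [⟨nat_lit 2, nat_lit 18624, nat_lit 11568, nat_lit 13872, nat_lit 2448, nat_lit 9696, R3_289, R14_51, R4_202⟩]⟩, ⟨nat_lit 3, [⟨nat_lit 2, nat_lit 18672, nat_lit 11616, nat_lit 15984, nat_lit 2496, nat_lit 4560, R10_333, R14_52, R5_95⟩]⟩]⟩,
 ⟨nat_lit 7, [⟨nat_lit 0, [⟨nat_lit 6, nat_lit 18720, nat_lit 10560, nat_lit 1248, nat_lit 4464, nat_lit 9792, R3_26, R5_93, R7_204⟩]⟩, ⟨nat_lit 2, [⟨nat_lit 6, nat_lit 18768, nat_lit 10608, nat_lit 15984, nat_lit 4560, nat_lit 2496, R10_333, R5_95, R14_52⟩]⟩]⟩], [⟨nat_lit 4, [⟨nat_lit 0, [⟨nat_lit 2, nat_lit 18816, nat_lit 11568, nat_lit 16560, nat_lit 9216, nat_lit 11904, R13_345, R7_192, R3_248⟩]⟩, ⟨nat_lit 1, [⟨nat_lit 2, nat_lit 18912, nat_lit 11616, nat_lit 14160, nat_lit 11088, nat_lit 10416, R9_295, R7_231, R10_217⟩]⟩,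 ⟨nat_lit 2, [⟨nat_lit 6, nat_lit 19008, nat_lit 11808, nat_lit 13968, nat_lit 9840, nat_lit 816, R3_291, R4_205, R12_17⟩]⟩]⟩,
 ⟨nat_lit 6, [⟨nat_lit 0, [⟨nat_lit 2, nat_lit 19104, nat_lit 12000, nat_lit 14592, nat_lit 2976, nat_lit 14592, R3_304, R14_62, R3_304⟩]⟩]⟩,
 ⟨nat_lit 7, [⟨nat_lit 2, [⟨nat_lit 6, nat_lit 19344, nat_lit 11952, nat_lit 16800, nat_lit 6144, nat_lit 864, R10_350, R5_128, R12_18⟩]⟩]⟩], [], [⟨nat_lit 4, [⟨nat_lit 2, [⟨nat_lit 6, nat_lit 19440, nat_lit 11184, nat_lit 13920, nat_lit 9744, nat_lit 2736, R3_290, R4_203, R12_57⟩]⟩, ⟨nat_lit 3, [⟨nat_lit 2, nat_lit 19488, nat_lit 11904, nat_lit 1488, nat_lit 9888, nat_lit 4464, R3_31, R7_206, R11_93⟩]⟩]⟩,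
 ⟨nat_lit 6, [⟨nat_lit 3, [⟨nat_lit 2, nat_lit 19584, nat_lit 12048, nat_lit 16032, nat_lit 2736, nat_lit 4560, R10_334, R14_57, R11_95⟩]⟩]⟩,
 ⟨nat_lit 7, [⟨nat_lit 2, [⟨nat_lit 6, nat_lit 19680, nat_lit 11472, nat_lit 17664, nat_lit 5280, nat_lit 2880, R10_368, R5_110, R12_60⟩]⟩]⟩]], [[⟨nat_lit 5, [⟨nat_lit 0, [⟨nat_lit 6, nat_lit 19968, nat_lit 11616, nat_lit 14160, nat_lit 10416, nat_lit 11088, R9_295, R10_217, R7_231⟩]⟩]⟩,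
 ⟨nat_lit 6, [⟨nat_lit 3, [⟨nat_lit 2, nat_lit 20160, nat_lit 11952, nat_lit 16800, nat_lit 864, nat_lit 6144, R10_350, R12_18, R5_128⟩]⟩]⟩], [], [], [⟨nat_lit 6, [⟨nat_lit 3, [⟨nat_lit 2, nat_lit 21456, nat_lit 14256, nat_lit 16848, nat_lit 1104, nat_lit 5760, R10_351, R12_23, R11_120⟩]⟩]⟩]], [], [[⟨nat_lit 6, [⟨nat_lit 0, [⟨nat_lit 2, nat_lit 21696, nat_lit 11184, nat_lit 13920, nat_lit 2736, nat_lit 9744, R3_290, R12_57, R4_203⟩]⟩, ⟨nat_lit 3, [⟨nat_lit 2, nat_lit 21744, nat_lit 11472, nat_lit 17664, nat_lit 2880, nat_lit 5280, R10_368, R12_60, R5_110⟩]⟩]⟩,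
 ⟨nat_lit 7, [⟨nat_lit 0, [⟨nat_lit 6, nat_lit 21840, nat_lit 11904, nat_lit 1488, nat_lit 4464, nat_lit 9888, R3_31, R11_93, R7_206⟩]⟩, ⟨nat_lit 2, [⟨nat_lit 6, nat_lit 21888, nat_lit 12048, nat_lit 16032, nat_lit 4560, nat_lit 2736, R10_334, R11_95, R14_57⟩]⟩]⟩], [⟨nat_lit 6, [⟨nat_lit 0, [⟨nat_lit 2, nat_lit 22080, nat_lit 13920, nat_lit 14640, nat_lit 4080, nat_lit 14736, R3_305, R12_85, R3_307⟩]⟩]⟩,
 ⟨nat_lit 7, [⟨nat_lit 2, [⟨nat_lit 6, nat_lit 22416, nat_lit 14256, nat_lit 16848, nat_lit 5760, nat_lit 1104, R10_351, R11_120, R12_23⟩]⟩]⟩]]]]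
noncomputable def N0451 : T3 (List N0) := [[], [], [], [], [[], [], [], [], [], [[], [⟨nat_lit 0, [⟨nat_lit 3, [⟨nat_lit 0, nat_lit 5520, nat_lit 4992, nat_lit 12096, nat_lit 4944, nat_lit 3264, R6_252, R4_103, R5_68⟩, ⟨nat_lit 3, nat_lit 5568, nat_lit 5040, nat_lit 12144, nat_lit 96, nat_lit 624, R6_253, R3_2, R11_13⟩]⟩]⟩,
 ⟨nat_lit 2, [⟨nat_lit 0, [⟨nat_lit 0, nat_lit 5616, nat_lit 5232, nat_lit 12096, nat_lit 3264, nat_lit 4944, R6_252, R5_68, R4_103⟩, ⟨nat_lit 2, nat_lit 5712, nat_lit 5376, nat_lit 12144, nat_lit 624, nat_lit 96, R6_253, R11_13, R3_2⟩]⟩, ⟨nat_lit 2, [⟨nat_lit 2, nat_lit 5760, nat_lit 5472, nat_lit 12336, nat_lit 720, nat_lit 384, R4_257, R11_15, R10_8⟩]⟩, ⟨nat_lit 3, [⟨nat_lit 0, nat_lit 5664, nat_lit 5280, nat_lit 12864, nat_lit 11328, nat_lit 11328, R8_268, R5_236, R5_236⟩]⟩]⟩,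
 ⟨nat_lit 3, [⟨nat_lit 3, [⟨nat_lit 3, nat_lit 6000, nat_lit 5088, nat_lit 12336, nat_lit 384, nat_lit 720, R4_257, R10_8, R11_15⟩]⟩]⟩,
 ⟨nat_lit 4, [⟨nat_lit 6, [⟨nat_lit 4, nat_lit 4992, nat_lit 5520, nat_lit 12096, nat_lit 4944, nat_lit 3264, R6_252, R4_103, R5_68⟩, ⟨nat_lit 6, nat_lit 5040, nat_lit 5568, nat_lit 12144, nat_lit 96, nat_lit 624, R6_253, R3_2, R11_13⟩]⟩]⟩,
 ⟨nat_lit 6, [⟨nat_lit 6, [⟨nat_lit 6, nat_lit 5088, nat_lit 6000, nat_lit 12336, nat_lit 384, nat_lit 720, R4_257, R10_8, R11_15⟩]⟩]⟩,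
 ⟨nat_lit 7, [⟨nat_lit 4, [⟨nat_lit 4, nat_lit 5232, nat_lit 5616, nat_lit 12096, nat_lit 3264, nat_lit 4944, R6_252, R5_68, R4_103⟩, ⟨nat_lit 7, nat_lit 5376, nat_lit 5712, nat_lit 12144, nat_lit 624, nat_lit 96, R6_253, R11_13, R3_2⟩]⟩, ⟨nat_lit 6, [⟨nat_lit 4, nat_lit 5280, nat_lit 5664, nat_lit 12864, nat_lit 11328, nat_lit 11328, R8_268, R5_236, R5_236⟩]⟩, ⟨nat_lit 7, [⟨nat_lit 7, nat_lit 5472, nat_lit 5760, nat_lit 12336, nat_lit 720, nat_lit 384, R4_257, R11_15, R10_8⟩]⟩]⟩]]], [[], [[⟨nat_lit 4, [⟨nat_lit 4, [⟨nat_lit 4, nat_lit 16272, nat_lit 4848, nat_lit 8544, nat_lit 192, nat_lit 10944, R6_178, R7_4, R6_228⟩]⟩, ⟨nat_lit 6, [⟨nat_lit 4, nat_lit 16320, nat_lit 5136, nat_lit 15696, nat_lit 5136, nat_lit 10992, R13_327, R7_107, R8_229⟩]⟩]⟩,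
 ⟨nat_lit 5, [⟨nat_lit 4, [⟨nat_lit 4, nat_lit 16512, nat_lit 4896, nat_lit 9216, nat_lit 18432, nat_lit 11232, R4_192, R14_384, R6_234⟩, ⟨nat_lit 7, nat_lit 16656, nat_lit 4992, nat_lit 9360, nat_lit 192, nat_lit 3840, R4_195, R12_4, R13_80⟩]⟩, ⟨nat_lit 6, [⟨nat_lit 4, nat_lit 16560, nat_lit 5184, nat_lit 11904, nat_lit 18816, nat_lit 11568, R3_248, R14_392, R8_241⟩, ⟨nat_lit 6, nat_lit 16608, nat_lit 5424, nat_lit 11952, nat_lit 15552, nat_lit 2688, R3_249, R12_324, R5_56⟩, ⟨nat_lit 7, nat_lit 16704, nat_lit 5280, nat_lit 12000, nat_lit 1200, nat_lit 2928, R3_250, R12_25, R9_61⟩]⟩]⟩]], [], [], [], [[⟨nat_lit 4, [⟨nat_lit 4, [⟨nat_lit 4, nat_lit 6048, nat_lit 5136, nat_lit 8496, nat_lit 96, nat_lit 15936, R6_177, R4_2, R6_332⟩]⟩, ⟨nat_lit 6, [⟨nat_lit 4, nat_lit 6096, nat_lit 5328, nat_lit 16080, nat_lit 5328,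 nat_lit 17712, R13_335, R4_111, R8_369⟩, ⟨nat_lit 6, nat_lit 6144, nat_lit 5472, nat_lit 16128, nat_lit 3792, nat_lit 3456, R13_336, R3_79, R5_72⟩]⟩]⟩,
 ⟨nat_lit 6, [⟨nat_lit 6, [⟨nat_lit 6, nat_lit 6192, nat_lit 5568, nat_lit 8832, nat_lit 480, nat_lit 3552, R3_184, R10_10, R5_74⟩]⟩]⟩,
 ⟨nat_lit 7, [⟨nat_lit 4, [⟨nat_lit 4, nat_lit 6240, nat_lit 5184, nat_lit 4512, nat_lit 1488, nat_lit 16176, R8_94, R5_31, R6_337⟩, ⟨nat_lit 7, nat_lit 6384, nat_lit 5232, nat_lit 4752, nat_lit 768, nat_lit 4272, R8_99, R11_16, R13_89⟩]⟩, ⟨nat_lit 6, [⟨nat_lit 4, nat_lit 6288, nat_lit 5376, nat_lit 13728, nat_lit 9936, nat_lit 18576, R9_286, R5_207, R8_387⟩, ⟨nat_lit 7, nat_lit 6432, nat_lit 5424, nat_lit 13824, nat_lit 816, nat_lit 3504, R9_288, R11_17, R9_73⟩]⟩, ⟨nat_lit 7, [⟨nat_lit 7, nat_lit 6480, nat_lit 5280, nat_lit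 14688, nat_lit 864, nat_lit 17472, R5_306, R11_18, R3_364⟩]⟩]⟩], [⟨nat_lit 4, [⟨nat_lit 4, [⟨nat_lit 4, nat_lit 6528, nat_lit 3744, nat_lit 8592, nat_lit 240, nat_lit 2064, R6_179, R4_5, R4_43⟩]⟩, ⟨nat_lit 6, [⟨nat_lit 4, nat_lit 6576, nat_lit 3792, nat_lit 16176, nat_lit 5472, nat_lit 3456, R13_337, R4_114, R5_72⟩, ⟨nat_lit 6, nat_lit 6624, nat_lit 3840, nat_lit 16224, nat_lit 3840, nat_lit 3456, R13_338, R3_80, R11_72⟩]⟩]⟩,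
 ⟨nat_lit 6, [⟨nat_lit 6, [⟨nat_lit 6, nat_lit 6672, nat_lit 4272, nat_lit 8928, nat_lit 528, nat_lit 3552, R3_186, R10_11, R11_74⟩]⟩]⟩,
 ⟨nat_lit 7, [⟨nat_lit 4, [⟨nat_lit 4, nat_lit 6816, nat_lit 3888, nat_lit 5184, nat_lit 3840, nat_lit 7584, R8_108, R5_80, R4_158⟩, ⟨nat_lit 7, nat_lit 6960, nat_lit 3984, nat_lit 5520, nat_lit 912, nat_lit 2352, R8_115, R11_19, R3_49⟩]⟩, ⟨nat_lit 6, [⟨nat_lit 4, nat_lit 6864, nat_lit 3936, nat_lit 13872, nat_lit 12192, nat_lit 11664, R9_289, R5_254, R5_243⟩]⟩, ⟨nat_lit 7, [⟨nat_lit 7, nat_lit 7056, nat_lit 4032, nat_lit 14736, nat_lit 1008, nat_lit 2496, R5_307, R11_21, R10_52⟩]⟩]⟩]]], [[], [], [], [], [[], [⟨nat_lit 0, [⟨nat_lit 0, [⟨nat_lit 0, nat_lit 528, nat_lit 5136, nat_lit 8496, nat_lit 15936, nat_lit 96, R6_177, R6_332, R4_2⟩]⟩, ⟨nat_lit 3, [⟨nat_lit 0, nat_lit 576,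 nat_lit 5184, nat_lit 4512, nat_lit 16176, nat_lit 1488, R8_94, R6_337, R5_31⟩, ⟨nat_lit 3, nat_lit 624, nat_lit 5232, nat_lit 4752, nat_lit 4272, nat_lit 768, R8_99, R13_89, R11_16⟩]⟩]⟩,
 ⟨nat_lit 2, [⟨nat_lit 0, [⟨nat_lit 0, nat_lit 672, nat_lit 5328, nat_lit 16080, nat_lit 17712, nat_lit 5328, R13_335, R8_369, R4_111⟩, ⟨nat_lit 2, nat_lit 768, nat_lit 5472, nat_lit 16128, nat_lit 3456, nat_lit 3792, R13_336, R5_72, R3_79⟩]⟩, ⟨nat_lit 2, [⟨nat_lit 2, nat_lit 816, nat_lit 5568, nat_lit 8832, nat_lit 3552, nat_lit 480, R3_184, R5_74, R10_10⟩]⟩, ⟨nat_lit 3, [⟨nat_lit 0, nat_lit 720, nat_lit 5376, nat_lit 13728, nat_lit 18576, nat_lit 9936, R9_286, R8_387, R5_207⟩, ⟨nat_lit 3, nat_lit 912, nat_lit 5424, nat_lit 13824, nat_lit 3504, nat_lit 816, R9_288, R9_73, R11_17⟩]⟩]⟩,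
 ⟨nat_lit 3, [⟨nat_lit 3, [⟨nat_lit 3, nat_lit 960, nat_lit 5280, nat_lit 14688, nat_lit 17472, nat_lit 864, R5_306, R3_364, R11_18⟩]⟩]⟩], [], [], [], [⟨nat_lit 0, [⟨nat_lit 0, [⟨nat_lit 0, nat_lit 1008, nat_lit 4848, nat_lit 8544, nat_lit 10944, nat_lit 192, R6_178, R6_228, R7_4⟩]⟩, ⟨nat_lit 1, [⟨nat_lit 0, nat_lit 1056, nat_lit 4896, nat_lit 9216, nat_lit 11232, nat_lit 18432, R4_192, R6_234, R14_384⟩, ⟨nat_lit 3, nat_lit 1152, nat_lit 4992, nat_lit 9360, nat_lit 3840, nat_lit 192, R4_195, R13_80, R12_4⟩]⟩]⟩,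
 ⟨nat_lit 2, [⟨nat_lit 0, [⟨nat_lit 0, nat_lit 1248, nat_lit 5136, nat_lit 15696, nat_lit 10992, nat_lit 5136, R13_327, R8_229, R7_107⟩]⟩]⟩]]], [[], [], [], [], [[], [⟨nat_lit 0, [⟨nat_lit 3, [⟨nat_lit 0, nat_lit 1872, nat_lit 4704, nat_lit 4656, nat_lit 15360, nat_lit 1200, R4_97, R6_320, R5_25⟩, ⟨nat_lit 3, nat_lit 1968, nat_lit 4752, nat_lit 5232, nat_lit 3456, nat_lit 1056, R4_109, R13_72, R11_22⟩]⟩]⟩,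
 ⟨nat_lit 2, [⟨nat_lit 3, [⟨nat_lit 0, nat_lit 2016, nat_lit 4992, nat_lit 10176, nat_lit 18432, nat_lit 9552, R5_212, R8_384, R5_199⟩, ⟨nat_lit 3, nat_lit 2112, nat_lit 5040, nat_lit 10368, nat_lit 2544, nat_lit 1104, R5_216, R9_53, R11_23⟩]⟩]⟩], [], [⟨nat_lit 0, [⟨nat_lit 7, [⟨nat_lit 3, nat_lit 2304, nat_lit 9360, nat_lit 4992, nat_lit 3120, nat_lit 384, R7_104, R13_65, R12_8⟩]⟩]⟩,
 ⟨nat_lit 3, [⟨nat_lit 7, [⟨nat_lit 3, nat_lit 2448, nat_lit 9936, nat_lit 16128, nat_lit 14064, nat_lit 432, R14_336, R3_293, R12_9⟩]⟩]⟩]], [[⟨nat_lit 7, [⟨nat_lit 4, [⟨nat_lit 4, nat_lit 8400, nat_lit 4704, nat_lit 4656, nat_lit 1200, nat_lit 15360, R4_97, R5_25, R6_320⟩, ⟨nat_lit 7, nat_lit 8544, nat_lit 4752, nat_lit 5232, nat_lit 1056, nat_lit 3456, R4_109, R11_22, R13_72⟩]⟩, ⟨nat_lit 6, [⟨nat_lit 4, nat_lit 8448, nat_lit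 4992, nat_lit 10176, nat_lit 9552, nat_lit 18432, R5_212, R5_199, R8_384⟩, ⟨nat_lit 7, nat_lit 8592, nat_lit 5040, nat_lit 10368, nat_lit 1104, nat_lit 2544, R5_216, R11_23, R9_53⟩]⟩]⟩], [⟨nat_lit 0, [⟨nat_lit 3, [⟨nat_lit 0, nat_lit 9072, nat_lit 3936, nat_lit 5760, nat_lit 6144, nat_lit 3600, R4_120, R4_128, R5_75⟩]⟩]⟩,
 ⟨nat_lit 2, [⟨nat_lit 3, [⟨nat_lit 0, nat_lit 9216, nat_lit 4224, nat_lit 10224, nat_lit 11520, nat_lit 11808, R5_213, R5_240, R5_246⟩]⟩]⟩,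
 ⟨nat_lit 7, [⟨nat_lit 4, [⟨nat_lit 4, nat_lit 8832, nat_lit 4368, nat_lit 5760, nat_lit 3600, nat_lit 6144, R4_120, R5_75, R4_128⟩]⟩, ⟨nat_lit 6, [⟨nat_lit 4, nat_lit 8880, nat_lit 4416, nat_lit 10224, nat_lit 11808, nat_lit 11520, R5_213, R5_246, R5_240⟩]⟩]⟩], [], [⟨nat_lit 3, [⟨nat_lit 7, [⟨nat_lit 3, nat_lit 9744, nat_lit 4944, nat_lit 16368, nat_lit 1440, nat_lit 528, R14_341, R10_30, R12_11⟩]⟩]⟩]], [], [[⟨nat_lit 3, [⟨nat_lit 4, [⟨nat_lit 7, nat_lit 13056, nat_lit 9360, nat_lit 4992, nat_lit 384, nat_lit 3120, R7_104, R12_8, R13_65⟩]⟩, ⟨nat_lit 7, [⟨nat_lit 7, nat_lit 13104, nat_lit 9936, nat_lit 16416, nat_lit 432, nat_lit 14064, R14_342, R12_9, R3_293⟩]⟩]⟩], [⟨nat_lit 0, [⟨nat_lit 3, [⟨nat_lit 3, nat_lit 13248, nat_lit 5040, nat_lit 6864, nat_lit 4656, nat_lit 1152, R4_143, R3_97, R11_24⟩]⟩]⟩,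
 ⟨nat_lit 3, [⟨nat_lit 4, [⟨nat_lit 7, nat_lit 13344, nat_lit 4848, nat_lit 5856, nat_lit 480, nat_lit 1344, R7_122, R12_10, R3_28⟩]⟩, ⟨nat_lit 7, [⟨nat_lit 7, nat_lit 13392, nat_lit 4944, nat_lit 16464, nat_lit 528, nat_lit 1440, R14_343, R12_11, R10_30⟩]⟩]⟩]]]]
noncomputable def N0550 : T3 (List N0) := [[], [], [], [], [], [[], [], [], [], [], [[⟨nat_lit 0, [⟨nat_lit 3, [⟨nat_lit 0, nat_lit 672, nat_lit 1008, nat_lit 4320, nat_lit 6768, nat_lit 3120, R3_90, R4_141, R6_65⟩, ⟨nat_lit 3, nat_lit 816, nat_lit 1104, nat_lit 4896, nat_lit 5472, nat_lit 2784, R3_102, R3_114, R4_58⟩]⟩]⟩,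
 ⟨nat_lit 2, [⟨nat_lit 0, [⟨nat_lit 2, nat_lit 480, nat_lit 960, nat_lit 4752, nat_lit 1344, nat_lit 4320, R5_99, R11_28, R6_90⟩]⟩, ⟨nat_lit 2, [⟨nat_lit 2, nat_lit 528, nat_lit 1392, nat_lit 18000, nat_lit 1440, nat_lit 4416, R11_375, R11_30, R4_92⟩]⟩]⟩,
 ⟨nat_lit 3, [⟨nat_lit 3, [⟨nat_lit 3, nat_lit 912, nat_lit 1152, nat_lit 14064, nat_lit 672, nat_lit 2832, R10_293, R10_14, R4_59⟩]⟩]⟩,
 ⟨nat_lit 4, [⟨nat_lit 6, [⟨nat_lit 4, nat_lit 1008, nat_lit 672, nat_lit 4320, nat_lit 6768, nat_lit 3120, R3_90, R4_141, R6_65⟩, ⟨nat_lit 6, nat_lit 1104, nat_lit 816, nat_lit 4896, nat_lit 5472, nat_lit 2784, R3_102, R3_114, R4_58⟩]⟩]⟩,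
 ⟨nat_lit 6, [⟨nat_lit 6, [⟨nat_lit 6, nat_lit 1152, nat_lit 912, nat_lit 14064, nat_lit 672, nat_lit 2832, R10_293, R10_14, R4_59⟩]⟩]⟩,
 ⟨nat_lit 7, [⟨nat_lit 4, [⟨nat_lit 7, nat_lit 960, nat_lit 480, nat_lit 4752, nat_lit 1344, nat_lit 4320, R5_99, R11_28, R6_90⟩]⟩, ⟨nat_lit 7, [⟨nat_lit 7, nat_lit 1392, nat_lit 528, nat_lit 18000, nat_lit 1440, nat_lit 4416, R11_375, R11_30, R4_92⟩]⟩]⟩], [⟨nat_lit 0, [⟨nat_lit 0, [⟨nat_lit 0, nat_lit 6768, nat_lit 4320, nat_lit 1008, nat_lit 672, nat_lit 16032, R4_21, R4_14, R6_334⟩]⟩, ⟨nat_lit 3, [⟨nat_lit 0, nat_lit 7056, nat_lit 4368, nat_lit 4368, nat_lit 7056, nat_lit 17856, R3_91, R4_147, R8_372⟩, ⟨nat_lit 3, nat_lit 7200, nat_lit 4416, nat_lit 4944, nat_lit 5520, nat_lit 4224, R3_103, R3_115, R5_88⟩]⟩]⟩,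
 ⟨nat_lit 2, [⟨nat_lit 0, [⟨nat_lit 0, nat_lit 6816, nat_lit 4512, nat_lit 0, nat_lit 1584, nat_lit 16272, R5_0, R5_33, R6_339⟩, ⟨nat_lit 2, nat_lit 6864, nat_lit 4656, nat_lit 5040, nat_lit 1488, nat_lit 4416, R5_105, R11_31, R13_92⟩]⟩, ⟨nat_lit 2, [⟨nat_lit 2, nat_lit 6912, nat_lit 4752, nat_lit 18192, nat_lit 1584, nat_lit 17568, R11_379, R11_33, R3_366⟩]⟩]⟩,
 ⟨nat_lit 3, [⟨nat_lit 3, [⟨nat_lit 3, nat_lit 7296, nat_lit 4464, nat_lit 14256, nat_lit 816, nat_lit 4320, R10_297, R10_17, R5_90⟩]⟩]⟩]]], [[], [], [], [], [[], [⟨nat_lit 0, [⟨nat_lit 0, [⟨nat_lit 0, nat_lit 5616, nat_lit 5616, nat_lit 384, nat_lit 15888, nat_lit 15888, R8_8, R6_331, R6_331⟩]⟩, ⟨nat_lit 1, [⟨nat_lit 0, nat_lit 5808, nat_lit 5664, nat_lit 4368, nat_lit 16368, nat_lit 14928, R5_91, R6_341, R4_311⟩]⟩, ⟨nat_lit 3, [⟨nat_lit 0, nat_lit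 6048, nat_lit 5712, nat_lit 3696, nat_lit 16128, nat_lit 15360, R9_77, R6_336, R8_320⟩, ⟨nat_lit 3, nat_lit 6144, nat_lit 5760, nat_lit 3936, nat_lit 4320, nat_lit 3600, R9_82, R13_90, R5_75⟩]⟩]⟩,
 ⟨nat_lit 1, [⟨nat_lit 0, [⟨nat_lit 0, nat_lit 5664, nat_lit 5808, nat_lit 4368, nat_lit 14928, nat_lit 16368, R5_91, R4_311, R6_341⟩]⟩, ⟨nat_lit 1, [⟨nat_lit 0, nat_lit 5856, nat_lit 5856, nat_lit 4368, nat_lit 15120, nat_lit 15120, R11_91, R4_315, R4_315⟩]⟩]⟩,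
 ⟨nat_lit 2, [⟨nat_lit 0, [⟨nat_lit 0, nat_lit 5712, nat_lit 6048, nat_lit 3696, nat_lit 15360, nat_lit 16128, R9_77, R8_320, R6_336⟩, ⟨nat_lit 2, nat_lit 5760, nat_lit 6144, nat_lit 3936, nat_lit 3600, nat_lit 4320, R9_82, R5_75, R13_90⟩]⟩]⟩], [], [], [], [⟨nat_lit 0, [⟨nat_lit 1, [⟨nat_lit 0, nat_lit 12384, nat_lit 5520, nat_lit 4416, nat_lit 11184, nat_lit 16272, R5_92, R6_233, R7_339⟩]⟩]⟩,
 ⟨nat_lit 1, [⟨nat_lit 1, [⟨nat_lit 0, nat_lit 12432, nat_lit 5568, nat_lit 4416, nat_lit 11856, nat_lit 16416, R11_92, R4_247, R7_342⟩]⟩]⟩]]], [[], [], [], [], [[⟨nat_lit 0, [⟨nat_lit 3, [⟨nat_lit 0, nat_lit 1872, nat_lit 8256, nat_lit 0, nat_lit 11952, nat_lit 336, R3_0, R6_249, R6_7⟩, ⟨nat_lit 3, nat_lit 2064, nat_lit 8592, nat_lit 3744, nat_lit 2832, nat_lit 240, R3_78, R13_59, R4_5⟩]⟩]⟩,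
 ⟨nat_lit 1, [⟨nat_lit 3, [⟨nat_lit 0, nat_lit 1920, nat_lit 8304, nat_lit 2736, nat_lit 12240, nat_lit 432, R10_57, R4_255, R6_9⟩, ⟨nat_lit 3, nat_lit 2112, nat_lit 8880, nat_lit 3456, nat_lit 3024, nat_lit 336, R10_72, R3_63, R4_7⟩]⟩]⟩,
 ⟨nat_lit 3, [⟨nat_lit 7, [⟨nat_lit 3, nat_lit 2304, nat_lit 9072, nat_lit 12720, nat_lit 11616, nat_lit 3504, R12_265, R3_242, R7_73⟩]⟩]⟩], [⟨nat_lit 0, [⟨nat_lit 3, [⟨nat_lit 0, nat_lit 7392, nat_lit 5136, nat_lit 288, nat_lit 15312, nat_lit 15312, R3_6, R6_319, R8_319⟩, ⟨nat_lit 3, nat_lit 7584, nat_lit 5184, nat_lit 3888, nat_lit 3552, nat_lit 3840, R3_81, R13_74, R5_80⟩]⟩]⟩,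
 ⟨nat_lit 1, [⟨nat_lit 3, [⟨nat_lit 0, nat_lit 7440, nat_lit 5232, nat_lit 2832, nat_lit 14640, nat_lit 16512, R10_59, R4_305, R8_344⟩, ⟨nat_lit 3, nat_lit 7632, nat_lit 5280, nat_lit 3504, nat_lit 3264, nat_lit 3936, R10_73, R3_68, R5_82⟩]⟩]⟩], [], [⟨nat_lit 0, [⟨nat_lit 3, [⟨nat_lit 0, nat_lit 10800, nat_lit 8688, nat_lit 144, nat_lit 12960, nat_lit 14112, R3_3, R6_270, R4_294⟩]⟩]⟩,
 ⟨nat_lit 1, [⟨nat_lit 3, [⟨nat_lit 0, nat_lit 10848, nat_lit 8880, nat_lit 2784, nat_lit 13104, nat_lit 14544, R10_58, R4_273, R4_303⟩]⟩]⟩,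
 ⟨nat_lit 3, [⟨nat_lit 7, [⟨nat_lit 3, nat_lit 11184, nat_lit 9744, nat_lit 12768, nat_lit 13920, nat_lit 4128, R12_266, R3_290, R14_86⟩]⟩]⟩]], [[⟨nat_lit 3, [⟨nat_lit 7, [⟨nat_lit 3, nat_lit 2688, nat_lit 720, nat_lit 12864, nat_lit 1056, nat_lit 4464, R12_268, R10_22, R7_93⟩]⟩]⟩], [], [], [⟨nat_lit 3, [⟨nat_lit 7, [⟨nat_lit 3, nat_lit 11472, nat_lit 5280, nat_lit 12912, nat_lit 1488, nat_lit 4272, R12_269, R10_31, R14_89⟩]⟩]⟩]], [], [[⟨nat_lit 0, [⟨nat_lit 3, [⟨nat_lit 3, nat_lit 2784, nat_lit 1104, nat_lit 5472, nat_lit 4896, nat_lit 816, R3_114, R3_102, R4_17⟩]⟩]⟩,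
 ⟨nat_lit 1, [⟨nat_lit 3, [⟨nat_lit 3, nat_lit 2832, nat_lit 1152, nat_lit 4032, nat_lit 4608, nat_lit 912, R10_84, R10_96, R4_19⟩]⟩]⟩,
 ⟨nat_lit 3, [⟨nat_lit 7, [⟨nat_lit 7, nat_lit 3120, nat_lit 3744, nat_lit 12960, nat_lit 576, nat_lit 3984, R12_270, R12_12, R4_83⟩]⟩]⟩], [⟨nat_lit 0, [⟨nat_lit 3, [⟨nat_lit 3, nat_lit 7968, nat_lit 96, nat_lit 5616, nat_lit 5184, nat_lit 3984, R3_117, R3_108, R5_83⟩]⟩]⟩,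
 ⟨nat_lit 1, [⟨nat_lit 3, [⟨nat_lit 3, nat_lit 8016, nat_lit 144, nat_lit 4080, nat_lit 4656, nat_lit 4080, R10_85, R10_97, R5_85⟩]⟩]⟩]]]]
noncomputable def N0741 : T3 (List N0) := [[], [], [], [], [], [], [], [[], [], [], [], [[⟨nat_lit 7, [⟨nat_lit 6, [⟨nat_lit 4, nat_lit 1488, nat_lit 768, nat_lit 48, nat_lit 288, nat_lit 12192, R11_1, R6_6, R8_254⟩, ⟨nat_lit 6, nat_lit 1536, nat_lit 2928, nat_lit 336, nat_lit 3600, nat_lit 1872, R11_7, R8_75, R5_39⟩]⟩]⟩], [⟨nat_lit 2, [⟨nat_lit 3, [⟨nat_lit 0, nat_lit 2400, nat_lit 2160, nat_lit 1776, nat_lit 2592, nat_lit 8352, R11_37, R6_54, R5_174⟩, ⟨nat_lit 3, nat_lit 2544, nat_lit 2208, nat_lit 1872, nat_lit 3648, nat_lit 1872, R11_39, R8_76, R11_39⟩]⟩]⟩,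
 ⟨nat_lit 3, [⟨nat_lit 7, [⟨nat_lit 7, nat_lit 2688, nat_lit 2064, nat_lit 768, nat_lit 4176, nat_lit 1152, R12_16, R7_87, R10_24⟩]⟩]⟩,
 ⟨nat_lit 6, [⟨nat_lit 2, [⟨nat_lit 2, nat_lit 2064, nat_lit 2688, nat_lit 768, nat_lit 4176, nat_lit 1152, R12_16, R7_87, R10_24⟩]⟩]⟩,
 ⟨nat_lit 7, [⟨nat_lit 6, [⟨nat_lit 4, nat_lit 2160, nat_lit 2400, nat_lit 1776, nat_lit 2592, nat_lit 8352, R11_37, R6_54, R5_174⟩, ⟨nat_lit 6, nat_lit 2208, nat_lit 2544, nat_lit 1872, nat_lit 3648, nat_lit 1872, R11_39, R8_76, R11_39⟩]⟩]⟩], [], [⟨nat_lit 3, [⟨nat_lit 7, [⟨nat_lit 3, nat_lit 3072, nat_lit 3888, nat_lit 1008, nat_lit 3888, nat_lit 1008, R12_21, R4_81, R12_21⟩]⟩]⟩]], [[⟨nat_lit 7, [⟨nat_lit 6, [⟨nat_lit 4, nat_lit 6288, nat_lit 6288, nat_lit 10416, nat_lit 15888, nat_lit 15888, R11_217, R8_331, R8_331⟩, ⟨nat_lit 6, nat_lit 6336,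 nat_lit 6384, nat_lit 10992, nat_lit 2688, nat_lit 2400, R11_229, R9_56, R5_50⟩, ⟨nat_lit 7, nat_lit 6384, nat_lit 6336, nat_lit 10704, nat_lit 2400, nat_lit 2688, R11_223, R5_50, R9_56⟩]⟩]⟩], [⟨nat_lit 7, [⟨nat_lit 6, [⟨nat_lit 4, nat_lit 6672, nat_lit 1152, nat_lit 13440, nat_lit 18480, nat_lit 9696, R11_280, R8_385, R5_202⟩, ⟨nat_lit 6, nat_lit 6720, nat_lit 1296, nat_lit 13632, nat_lit 2736, nat_lit 2400, R11_284, R9_57, R11_50⟩]⟩]⟩]], [], [[⟨nat_lit 3, [⟨nat_lit 7, [⟨nat_lit 7, nat_lit 9792, nat_lit 9840, nat_lit 816, nat_lit 3216, nat_lit 13968, R12_17, R14_67, R3_291⟩]⟩]⟩,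
 ⟨nat_lit 7, [⟨nat_lit 6, [⟨nat_lit 4, nat_lit 9360, nat_lit 9072, nat_lit 7536, nat_lit 14304, nat_lit 14112, R11_157, R4_298, R8_294⟩, ⟨nat_lit 6, nat_lit 9408, nat_lit 10656, nat_lit 7680, nat_lit 17184, nat_lit 2064, R11_160, R5_358, R5_43⟩]⟩]⟩], [⟨nat_lit 2, [⟨nat_lit 3, [⟨nat_lit 3, nat_lit 10128, nat_lit 6480, nat_lit 1920, nat_lit 6480, nat_lit 1920, R11_40, R5_135, R11_40⟩]⟩]⟩,
 ⟨nat_lit 3, [⟨nat_lit 7, [⟨nat_lit 7, nat_lit 10368, nat_lit 6144, nat_lit 864, nat_lit 3360, nat_lit 1632, R12_18, R14_70, R10_34⟩]⟩]⟩,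
 ⟨nat_lit 7, [⟨nat_lit 6, [⟨nat_lit 4, nat_lit 9840, nat_lit 6288, nat_lit 8400, nat_lit 15216, nat_lit 8928, R11_175, R4_317, R5_186⟩, ⟨nat_lit 6, nat_lit 9888, nat_lit 6432, nat_lit 8448, nat_lit 17232, nat_lit 2064, R11_176, R5_359, R11_43⟩]⟩]⟩]]]]
noncomputable def N0770 : T3 (List N0) := [[], [], [], [], [], [], [], [[], [], [], [], [[⟨nat_lit 2, [⟨nat_lit 3, [⟨nat_lit 0, nat_lit 3168, nat_lit 10752, nat_lit 7488, nat_lit 12096, nat_lit 48, R11_156, R4_252, R6_1⟩, ⟨nat_lit 3, nat_lit 4368, nat_lit 10800, nat_lit 7632, nat_lit 14496, nat_lit 48, R11_159, R5_302, R4_1⟩]⟩]⟩], [⟨nat_lit 2, [⟨nat_lit 3, [⟨nat_lit 0, nat_lit 9072, nat_lit 9360, nat_lit 7536, nat_lit 14304, nat_lit 14112, R11_157, R4_298, R8_294⟩, ⟨nat_lit 3, nat_lit 10656, nat_lit 9408, nat_lit 7680, nat_lit 17184, nat_lit 2064, R11_160, R5_358,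 R5_43⟩]⟩]⟩]], [], [], [[⟨nat_lit 2, [⟨nat_lit 3, [⟨nat_lit 3, nat_lit 4416, nat_lit 1392, nat_lit 7728, nat_lit 4752, nat_lit 528, R11_161, R11_99, R4_11⟩]⟩]⟩,
 ⟨nat_lit 3, [⟨nat_lit 7, [⟨nat_lit 7, nat_lit 3120, nat_lit 3984, nat_lit 5904, nat_lit 2976, nat_lit 3744, R12_123, R12_62, R4_78⟩]⟩]⟩,
 ⟨nat_lit 6, [⟨nat_lit 2, [⟨nat_lit 2, nat_lit 3984, nat_lit 3120, nat_lit 5904, nat_lit 2976, nat_lit 3744, R12_123, R12_62, R4_78⟩]⟩]⟩,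
 ⟨nat_lit 7, [⟨nat_lit 6, [⟨nat_lit 6, nat_lit 1392, nat_lit 4416, nat_lit 7728, nat_lit 4752, nat_lit 528, R11_161, R11_99, R4_11⟩]⟩]⟩], [⟨nat_lit 2, [⟨nat_lit 3, [⟨nat_lit 3, nat_lit 10704, nat_lit 624, nat_lit 7776, nat_lit 4800, nat_lit 2112, R11_162, R11_100, R5_44⟩]⟩]⟩,
 ⟨nat_lit 6, [⟨nat_lit 2, [⟨nat_lit 2, nat_lit 10320, nat_lit 864, nat_lit 6048, nat_lit 4416, nat_lit 14016, R12_126, R12_92, R3_292⟩]⟩]⟩]]]]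
noncomputable def N1054 : T3 (List N0) := [[[], [], [], [], [[], [], [], [], [⟨nat_lit 0, [⟨nat_lit 2, [⟨nat_lit 0, nat_lit 4512, nat_lit 14400, nat_lit 5328, nat_lit 528, nat_lit 15840, R6_111, R6_11, R6_330⟩, ⟨nat_lit 3, nat_lit 4752, nat_lit 14544, nat_lit 5376, nat_lit 4464, nat_lit 15264, R6_112, R13_93, R8_318⟩]⟩]⟩,
 ⟨nat_lit 2, [⟨nat_lit 2, [⟨nat_lit 0, nat_lit 5616, nat_lit 15888, nat_lit 5616, nat_lit 384, nat_lit 15888, R4_117, R8_8, R6_331⟩, ⟨nat_lit 2, nat_lit 5808, nat_lit 16368, nat_lit 5664, nat_lit 4368, nat_lit 14928, R4_118, R5_91, R4_311⟩, ⟨nat_lit 3, nat_lit 6048, nat_lit 16128, nat_lit 5712, nat_lit 3696, nat_lit 15360, R4_119, R9_77, R8_320⟩]⟩, ⟨nat_lit 6, [⟨nat_lit 2, nat_lit 12384, nat_lit 11184, nat_lit 5520, nat_lit 4416, nat_lit 16272, R7_115, R5_92, R7_339⟩]⟩]⟩,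
 ⟨nat_lit 3, [⟨nat_lit 0, [⟨nat_lit 3, nat_lit 1872, nat_lit 11952, nat_lit 8256, nat_lit 0, nat_lit 14448, R6_172, R3_0, R6_301⟩]⟩, ⟨nat_lit 2, [⟨nat_lit 3, nat_lit 7392, nat_lit 15312, nat_lit 5136, nat_lit 288, nat_lit 15312, R8_107, R3_6, R8_319⟩]⟩, ⟨nat_lit 3, [⟨nat_lit 3, nat_lit 10800, nat_lit 12960, nat_lit 8688, nat_lit 144, nat_lit 14112, R4_181, R3_3, R4_294⟩, ⟨nat_lit 7, nat_lit 10992, nat_lit 12768, nat_lit 8736, nat_lit 3120, nat_lit 15648, R4_182, R2_65, R7_326⟩]⟩]⟩], [], [], [⟨nat_lit 0, [⟨nat_lit 2, [⟨nat_lit 3, nat_lit 4944, nat_lit 2592, nat_lit 5424, nat_lit 4992, nat_lit 3264, R6_113, R13_104, R5_68⟩]⟩]⟩,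
 ⟨nat_lit 2, [⟨nat_lit 2, [⟨nat_lit 3, nat_lit 6144, nat_lit 4320, nat_lit 5760, nat_lit 3936, nat_lit 3600, R4_120, R9_82, R5_75⟩]⟩]⟩,
 ⟨nat_lit 3, [⟨nat_lit 0, [⟨nat_lit 3, nat_lit 2064, nat_lit 2832, nat_lit 8592, nat_lit 3744, nat_lit 240, R6_179, R3_78, R4_5⟩, ⟨nat_lit 7, nat_lit 2208, nat_lit 2880, nat_lit 8640, nat_lit 3264, nat_lit 432, R6_180, R2_68, R7_9⟩]⟩, ⟨nat_lit 2, [⟨nat_lit 3, nat_lit 7584, nat_lit 3552, nat_lit 5184, nat_lit 3888, nat_lit 3840, R8_108, R3_81, R5_80⟩]⟩, ⟨nat_lit 3, [⟨nat_lit 7, nat_lit 11088, nat_lit 3168, nat_lit 9264, nat_lit 3312, nat_lit 19392, R4_193, R2_69, R14_404⟩]⟩]⟩]], [[], [], [], [], [⟨nat_lit 0, [⟨nat_lit 2, [⟨nat_lit 0, nat_lit 4560, nat_lit 14064, nat_lit 5472, nat_lit 8592, nat_lit 16320, R6_114, R4_179, R6_340⟩, ⟨nat_lit 3, nat_lit 4800, nat_lit 14160, nat_lit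 5520, nat_lit 11376, nat_lit 16464, R6_115, R3_237, R8_343⟩]⟩]⟩,
 ⟨nat_lit 2, [⟨nat_lit 2, [⟨nat_lit 0, nat_lit 5664, nat_lit 14928, nat_lit 5808, nat_lit 4368, nat_lit 16368, R4_121, R5_91, R6_341⟩, ⟨nat_lit 2, nat_lit 5856, nat_lit 15120, nat_lit 5856, nat_lit 4368, nat_lit 15120, R4_122, R11_91, R4_315⟩, ⟨nat_lit 3, nat_lit 6096, nat_lit 15024, nat_lit 5904, nat_lit 2160, nat_lit 16560, R4_123, R0_45, R8_345⟩]⟩, ⟨nat_lit 6, [⟨nat_lit 2, nat_lit 12432, nat_lit 11856, nat_lit 5568, nat_lit 4416, nat_lit 16416, R7_116, R11_92, R7_342⟩]⟩]⟩,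
 ⟨nat_lit 3, [⟨nat_lit 0, [⟨nat_lit 3, nat_lit 1920, nat_lit 12240, nat_lit 8304, nat_lit 2736, nat_lit 15120, R6_173, R10_57, R6_315⟩]⟩, ⟨nat_lit 2, [⟨nat_lit 3, nat_lit 7440, nat_lit 14640, nat_lit 5232, nat_lit 2832, nat_lit 16512, R8_109, R10_59, R8_344⟩]⟩, ⟨nat_lit 3, [⟨nat_lit 3, nat_lit 10848, nat_lit 13104, nat_lit 8880, nat_lit 2784, nat_lit 14544, R4_185, R10_58, R4_303⟩, ⟨nat_lit 7, nat_lit 11040, nat_lit 13056, nat_lit 8928, nat_lit 2592, nat_lit 16368, R4_186, R1_54, R7_341⟩]⟩]⟩,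
 ⟨nat_lit 4, [⟨nat_lit 7, [⟨nat_lit 4, nat_lit 14064, nat_lit 4560, nat_lit 5472, nat_lit 8592, nat_lit 16320, R6_114, R4_179, R6_340⟩, ⟨nat_lit 6, nat_lit 14160, nat_lit 4800, nat_lit 5520, nat_lit 11376, nat_lit 16464, R6_115, R3_237, R8_343⟩]⟩]⟩,
 ⟨nat_lit 6, [⟨nat_lit 4, [⟨nat_lit 6, nat_lit 12240, nat_lit 1920, nat_lit 8304, nat_lit 2736, nat_lit 15120, R6_173, R10_57, R6_315⟩]⟩, ⟨nat_lit 6, [⟨nat_lit 2, nat_lit 13056, nat_lit 11040, nat_lit 8928, nat_lit 2592, nat_lit 16368, R4_186, R1_54, R7_341⟩, ⟨nat_lit 6, nat_lit 13104, nat_lit 10848, nat_lit 8880, nat_lit 2784, nat_lit 14544, R4_185, R10_58, R4_303⟩]⟩, ⟨nat_lit 7, [⟨nat_lit 6, nat_lit 14640, nat_lit 7440, nat_lit 5232, nat_lit 2832, nat_lit 16512, R8_109, R10_59, R8_344⟩]⟩]⟩,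
 ⟨nat_lit 7, [⟨nat_lit 3, [⟨nat_lit 7, nat_lit 11856, nat_lit 12432, nat_lit 5568, nat_lit 4416, nat_lit 16416, R7_116, R11_92, R7_342⟩]⟩, ⟨nat_lit 7, [⟨nat_lit 4, nat_lit 14928, nat_lit 5664, nat_lit 5808, nat_lit 4368, nat_lit 16368, R4_121, R5_91, R6_341⟩, ⟨nat_lit 6, nat_lit 15024, nat_lit 6096, nat_lit 5904, nat_lit 2160, nat_lit 16560, R4_123, R0_45, R8_345⟩, ⟨nat_lit 7, nat_lit 15120, nat_lit 5856, nat_lit 5856, nat_lit 4368, nat_lit 15120, R4_122, R11_91, R4_315⟩]⟩]⟩], [], [], [⟨nat_lit 0, [⟨nat_lit 2, [⟨nat_lit 3, nat_lit 4992, nat_lit 2928, nat_lit 5568, nat_lit 11424, nat_lit 3408, R6_116, R3_238, R5_71⟩]⟩]⟩,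
 ⟨nat_lit 2, [⟨nat_lit 2, [⟨nat_lit 3, nat_lit 6192, nat_lit 3552, nat_lit 5952, nat_lit 2400, nat_lit 3696, R4_124, R0_50, R5_77⟩]⟩]⟩,
 ⟨nat_lit 3, [⟨nat_lit 0, [⟨nat_lit 3, nat_lit 2112, nat_lit 3024, nat_lit 8880, nat_lit 3456, nat_lit 336, R6_185, R10_72, R4_7⟩, ⟨nat_lit 7, nat_lit 2256, nat_lit 3072, nat_lit 8928, nat_lit 2736, nat_lit 528, R6_186, R1_57, R7_11⟩]⟩, ⟨nat_lit 2, [⟨nat_lit 3, nat_lit 7632, nat_lit 3264, nat_lit 5280, nat_lit 3504, nat_lit 3936, R8_110, R10_73, R5_82⟩]⟩, ⟨nat_lit 3, [⟨nat_lit 7, nat_lit 11136, nat_lit 3168, nat_lit 9552, nat_lit 2784, nat_lit 19536, R4_199, R1_58, R14_407⟩]⟩]⟩,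
 ⟨nat_lit 4, [⟨nat_lit 7, [⟨nat_lit 4, nat_lit 14112, nat_lit 144, nat_lit 6096, nat_lit 8688, nat_lit 10800, R6_127, R4_181, R4_225⟩, ⟨nat_lit 6, nat_lit 14208, nat_lit 192, nat_lit 6144, nat_lit 11472, nat_lit 13104, R6_128, R3_239, R5_273⟩]⟩]⟩,
 ⟨nat_lit 6, [⟨nat_lit 7, [⟨nat_lit 6, nat_lit 14688, nat_lit 2400, nat_lit 5616, nat_lit 2880, nat_lit 13248, R8_117, R10_60, R5_276⟩]⟩]⟩,
 ⟨nat_lit 7, [⟨nat_lit 3, [⟨nat_lit 4, nat_lit 11808, nat_lit 1440, nat_lit 5952, nat_lit 14784, nat_lit 11568, R7_124, R5_308, R7_241⟩, ⟨nat_lit 7, nat_lit 11904, nat_lit 1488, nat_lit 6000, nat_lit 4464, nat_lit 19488, R7_125, R11_93, R14_406⟩]⟩, ⟨nat_lit 7, [⟨nat_lit 4, nat_lit 14976, nat_lit 864, nat_lit 6432, nat_lit 5136, nat_lit 11232, R4_134, R5_107, R4_234⟩, ⟨nat_lit 6, nat_lit 15072, nat_lit 912, nat_lit 6480, nat_lit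 2208, nat_lit 13392, R4_135, R0_46, R5_279⟩]⟩]⟩]], [[], [], [], [], [⟨nat_lit 0, [⟨nat_lit 2, [⟨nat_lit 0, nat_lit 4608, nat_lit 15216, nat_lit 5664, nat_lit 4464, nat_lit 16080, R6_118, R8_93, R6_335⟩, ⟨nat_lit 3, nat_lit 4848, nat_lit 15792, nat_lit 5712, nat_lit 13104, nat_lit 15984, R6_119, R9_273, R8_333⟩]⟩]⟩,
 ⟨nat_lit 2, [⟨nat_lit 2, [⟨nat_lit 0, nat_lit 5712, nat_lit 15360, nat_lit 6048, nat_lit 0, nat_lit 16128, R4_126, R9_0, R6_336⟩, ⟨nat_lit 2, nat_lit 5904, nat_lit 16560, nat_lit 6096, nat_lit 2160, nat_lit 15024, R4_127, R0_45, R4_313⟩]⟩, ⟨nat_lit 6, [⟨nat_lit 2, nat_lit 12480, nat_lit 10512, nat_lit 5616, nat_lit 12144, nat_lit 16320, R7_117, R0_253, R7_340⟩]⟩]⟩,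
 ⟨nat_lit 3, [⟨nat_lit 0, [⟨nat_lit 3, nat_lit 1968, nat_lit 12240, nat_lit 8400, nat_lit 0, nat_lit 14784, R6_175, R0_0, R6_308⟩]⟩, ⟨nat_lit 2, [⟨nat_lit 3, nat_lit 7488, nat_lit 15936, nat_lit 5328, nat_lit 7200, nat_lit 16032, R8_111, R0_150, R8_334⟩]⟩, ⟨nat_lit 3, [⟨nat_lit 3, nat_lit 10896, nat_lit 14160, nat_lit 9024, nat_lit 5568, nat_lit 14352, R4_188, R0_116, R4_299⟩]⟩]⟩], [], [⟨nat_lit 0, [⟨nat_lit 2, [⟨nat_lit 0, nat_lit 4656, nat_lit 1200, nat_lit 5808, nat_lit 4704, nat_lit 21312, R6_121, R8_98, R13_444⟩, ⟨nat_lit 1, nat_lit 4704, nat_lit 1296, nat_lit 5904, nat_lit 14304, nat_lit 17376, R6_123, R5_298, R3_362⟩, ⟨nat_lit 3, nat_lit 4896, nat_lit 1248, nat_lit 5856, nat_lit 13200, nat_lit 17712, R6_122, R9_275, R9_369⟩]⟩]⟩,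
 ⟨nat_lit 2, [⟨nat_lit 2, [⟨nat_lit 0, nat_lit 5760, nat_lit 3600, nat_lit 6144, nat_lit 4368, nat_lit 21360, R4_128, R9_91, R13_445⟩, ⟨nat_lit 1, nat_lit 6000, nat_lit 3648, nat_lit 6240, nat_lit 2832, nat_lit 17424, R4_130, R0_59, R3_363⟩, ⟨nat_lit 2, nat_lit 5952, nat_lit 3696, nat_lit 6192, nat_lit 2400, nat_lit 3552, R4_129, R0_50, R3_74⟩]⟩, ⟨nat_lit 6, [⟨nat_lit 2, nat_lit 12528, nat_lit 2736, nat_lit 5664, nat_lit 12336, nat_lit 15552, R7_118, R0_257, R2_324⟩]⟩]⟩,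
 ⟨nat_lit 3, [⟨nat_lit 0, [⟨nat_lit 3, nat_lit 2016, nat_lit 1824, nat_lit 9648, nat_lit 96, nat_lit 336, R6_201, R0_2, R8_7⟩]⟩, ⟨nat_lit 2, [⟨nat_lit 3, nat_lit 7536, nat_lit 2304, nat_lit 5424, nat_lit 7392, nat_lit 17760, R8_113, R0_154, R9_370⟩]⟩, ⟨nat_lit 3, [⟨nat_lit 3, nat_lit 10944, nat_lit 2016, nat_lit 10608, nat_lit 5616, nat_lit 17568, R4_221, R0_117, R5_366⟩]⟩]⟩], [⟨nat_lit 0, [⟨nat_lit 2, [⟨nat_lit 3, nat_lit 5040, nat_lit 1920, nat_lit 5760, nat_lit 13152, nat_lit 3312, R6_120, R9_274, R5_69⟩]⟩]⟩,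
 ⟨nat_lit 3, [⟨nat_lit 0, [⟨nat_lit 3, nat_lit 2160, nat_lit 2160, nat_lit 9408, nat_lit 48, nat_lit 288, R6_196, R0_1, R4_6⟩]⟩, ⟨nat_lit 2, [⟨nat_lit 3, nat_lit 7680, nat_lit 2592, nat_lit 5376, nat_lit 7296, nat_lit 3888, R8_112, R0_152, R5_81⟩]⟩]⟩]], [[], [], [], [⟨nat_lit 3, [⟨nat_lit 0, [⟨nat_lit 7, nat_lit 2352, nat_lit 1296, nat_lit 7536, nat_lit 2784, nat_lit 3456, R6_157, R12_58, R4_72⟩]⟩]⟩], [], [], [], [⟨nat_lit 0, [⟨nat_lit 2, [⟨nat_lit 3, nat_lit 5088, nat_lit 16080, nat_lit 5616, nat_lit 8544, nat_lit 3360, R6_117, R3_178, R5_70⟩]⟩]⟩,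
 ⟨nat_lit 2, [⟨nat_lit 2, [⟨nat_lit 3, nat_lit 6240, nat_lit 17424, nat_lit 6000, nat_lit 2832, nat_lit 3648, R4_125, R0_59, R5_76⟩]⟩]⟩,
 ⟨nat_lit 3, [⟨nat_lit 0, [⟨nat_lit 7, nat_lit 2304, nat_lit 11616, nat_lit 9072, nat_lit 2688, nat_lit 480, R6_189, R12_56, R7_10⟩]⟩, ⟨nat_lit 3, [⟨nat_lit 7, nat_lit 11184, nat_lit 13920, nat_lit 9744, nat_lit 2736, nat_lit 19440, R4_203, R12_57, R14_405⟩]⟩]⟩]]], [[[⟨nat_lit 1, [⟨nat_lit 0, [⟨nat_lit 5, nat_lit 1008, nat_lit 6768, nat_lit 672, nat_lit 4320, nat_lit 3120, R4_14, R3_90, R6_65⟩]⟩]⟩], [], [⟨nat_lit 1, [⟨nat_lit 0, [⟨nat_lit 5, nat_lit 1104, nat_lit 5472, nat_lit 816, nat_lit 4896, nat_lit 2784, R4_17, R3_102, R4_58⟩]⟩]⟩]], [], [[], [], [⟨nat_lit 1, [⟨nat_lit 0, [⟨nat_lit 1, nat_lit 624, nat_lit 720, nat_lit 1296, nat_lit 12720, nat_lit 2736, R4_27, R1_265, R7_57⟩,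 ⟨nat_lit 5, nat_lit 1152, nat_lit 672, nat_lit 912, nat_lit 14064, nat_lit 2832, R4_19, R10_293, R4_59⟩]⟩, ⟨nat_lit 2, [⟨nat_lit 1, nat_lit 7008, nat_lit 768, nat_lit 4848, nat_lit 12816, nat_lit 3072, R3_101, R1_267, R2_64⟩]⟩]⟩], [], [], [], [⟨nat_lit 1, [⟨nat_lit 0, [⟨nat_lit 1, nat_lit 576, nat_lit 432, nat_lit 1344, nat_lit 12768, nat_lit 4464, R4_28, R1_266, R4_93⟩]⟩, ⟨nat_lit 2, [⟨nat_lit 1, nat_lit 6960, nat_lit 480, nat_lit 4800, nat_lit 12864, nat_lit 17328, R3_100, R1_268, R3_361⟩]⟩]⟩]], [[⟨nat_lit 1, [⟨nat_lit 0, [⟨nat_lit 5, nat_lit 1056, nat_lit 8688, nat_lit 720, nat_lit 11616, nat_lit 3168, R4_15, R0_242, R6_66⟩]⟩]⟩], [], [⟨nat_lit 1, [⟨nat_lit 0, [⟨nat_lit 5, nat_lit 1200, nat_lit 432, nat_lit 864, nat_lit 11664, nat_lit 2880, R4_18, R0_243, R4_60⟩]⟩]⟩], [⟨nat_lit 1, [⟨nat_lit 0, [⟨nat_lit 4,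 nat_lit 960, nat_lit 1344, nat_lit 480, nat_lit 4752, nat_lit 4320, R4_10, R5_99, R6_90⟩, ⟨nat_lit 5, nat_lit 1248, nat_lit 1392, nat_lit 768, nat_lit 11712, nat_lit 2784, R4_16, R0_244, R8_58⟩, ⟨nat_lit 7, nat_lit 1392, nat_lit 1440, nat_lit 528, nat_lit 18000, nat_lit 4416, R4_11, R11_375, R4_92⟩]⟩]⟩]], [[], [], [], [], [⟨nat_lit 0, [⟨nat_lit 0, [⟨nat_lit 3, nat_lit 96, nat_lit 5136, nat_lit 1104, nat_lit 6048, nat_lit 15936, R6_23, R13_126, R6_332⟩]⟩, ⟨nat_lit 2, [⟨nat_lit 0, nat_lit 5136, nat_lit 96, nat_lit 6048, nat_lit 1104, nat_lit 15936, R13_126, R6_23, R6_332⟩, ⟨nat_lit 3, nat_lit 5328, nat_lit 5328, nat_lit 6096, nat_lit 6096, nat_lit 17712, R13_127, R13_127, R8_369⟩]⟩]⟩,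
 ⟨nat_lit 1, [⟨nat_lit 0, [⟨nat_lit 3, nat_lit 672, nat_lit 6768, nat_lit 1008, nat_lit 4320, nat_lit 16032, R4_21, R3_90, R6_334⟩]⟩, ⟨nat_lit 2, [⟨nat_lit 0, nat_lit 6768, nat_lit 672, nat_lit 4320, nat_lit 1008, nat_lit 16032, R3_90, R4_21, R6_334⟩, ⟨nat_lit 3, nat_lit 7056, nat_lit 7056, nat_lit 4368, nat_lit 4368, nat_lit 17856, R3_91, R3_91, R8_372⟩]⟩]⟩,
 ⟨nat_lit 2, [⟨nat_lit 2, [⟨nat_lit 0, nat_lit 6288, nat_lit 2400, nat_lit 720, nat_lit 480, nat_lit 15984, R3_15, R8_10, R6_333⟩, ⟨nat_lit 2, nat_lit 6432, nat_lit 11232, nat_lit 864, nat_lit 5136, nat_lit 14976, R3_18, R5_107, R4_312⟩, ⟨nat_lit 3, nat_lit 6624, nat_lit 7728, nat_lit 1008, nat_lit 4608, nat_lit 17808, R3_21, R9_96, R8_371⟩]⟩, ⟨nat_lit 6, [⟨nat_lit 2, nat_lit 12912, nat_lit 11376, nat_lit 3984, nat_lit 5184, nat_lit 16656, R2_83, R5_108,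 R7_347⟩]⟩]⟩,
 ⟨nat_lit 3, [⟨nat_lit 0, [⟨nat_lit 3, nat_lit 2400, nat_lit 6288, nat_lit 480, nat_lit 720, nat_lit 15984, R8_10, R3_15, R6_333⟩]⟩, ⟨nat_lit 2, [⟨nat_lit 3, nat_lit 7728, nat_lit 6624, nat_lit 4608, nat_lit 1008, nat_lit 17760, R9_96, R3_21, R8_370⟩]⟩, ⟨nat_lit 3, [⟨nat_lit 3, nat_lit 11232, nat_lit 6432, nat_lit 5136, nat_lit 864, nat_lit 14976, R5_107, R3_18, R4_312⟩, ⟨nat_lit 7, nat_lit 11376, nat_lit 12912, nat_lit 5184, nat_lit 3984, nat_lit 17376, R5_108, R2_83, R7_362⟩]⟩]⟩], [], [], [⟨nat_lit 0, [⟨nat_lit 0, [⟨nat_lit 3, nat_lit 240, nat_lit 3744, nat_lit 1200, nat_lit 6528, nat_lit 2064, R6_25, R13_136, R4_43⟩]⟩, ⟨nat_lit 2, [⟨nat_lit 3, nat_lit 5472, nat_lit 3792, nat_lit 6144, nat_lit 6576, nat_lit 3456, R13_128, R13_137, R5_72⟩]⟩]⟩,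
 ⟨nat_lit 1, [⟨nat_lit 0, [⟨nat_lit 3, nat_lit 816, nat_lit 5472, nat_lit 1104, nat_lit 4896, nat_lit 2784, R4_23, R3_102, R4_58⟩]⟩, ⟨nat_lit 2, [⟨nat_lit 3, nat_lit 7200, nat_lit 5520, nat_lit 4416, nat_lit 4944, nat_lit 4224, R3_92, R3_103, R5_88⟩]⟩]⟩,
 ⟨nat_lit 2, [⟨nat_lit 2, [⟨nat_lit 3, nat_lit 6672, nat_lit 7152, nat_lit 1056, nat_lit 4848, nat_lit 3744, R3_22, R9_101, R5_78⟩]⟩]⟩,
 ⟨nat_lit 3, [⟨nat_lit 0, [⟨nat_lit 3, nat_lit 2544, nat_lit 6048, nat_lit 864, nat_lit 6048, nat_lit 2544, R8_18, R3_126, R4_53⟩, ⟨nat_lit 7, nat_lit 2640, nat_lit 6384, nat_lit 1248, nat_lit 4128, nat_lit 2496, R8_26, R2_86, R7_52⟩]⟩, ⟨nat_lit 2, [⟨nat_lit 3, nat_lit 7872, nat_lit 6096, nat_lit 4656, nat_lit 6192, nat_lit 4128, R9_97, R3_129, R5_86⟩]⟩, ⟨nat_lit 3, [⟨nat_lit 7, nat_lit 11424, nat_lit 6432, nat_lit 5232, nat_lit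 4176, nat_lit 19632, R5_109, R2_87, R14_409⟩]⟩]⟩]], [], [[], [], [], [], [⟨nat_lit 0, [⟨nat_lit 0, [⟨nat_lit 3, nat_lit 144, nat_lit 8496, nat_lit 1152, nat_lit 13488, nat_lit 16608, R6_24, R9_281, R6_346⟩]⟩, ⟨nat_lit 2, [⟨nat_lit 0, nat_lit 5184, nat_lit 1488, nat_lit 6240, nat_lit 4512, nat_lit 16176, R13_130, R8_94, R6_337⟩, ⟨nat_lit 3, nat_lit 5376, nat_lit 9936, nat_lit 6288, nat_lit 13728, nat_lit 18576, R13_131, R9_286, R8_387⟩]⟩]⟩,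
 ⟨nat_lit 1, [⟨nat_lit 0, [⟨nat_lit 3, nat_lit 720, nat_lit 8688, nat_lit 1056, nat_lit 11616, nat_lit 16704, R4_22, R0_242, R6_348⟩]⟩, ⟨nat_lit 2, [⟨nat_lit 0, nat_lit 6816, nat_lit 1584, nat_lit 4512, nat_lit 0, nat_lit 16272, R3_94, R5_0, R6_339⟩, ⟨nat_lit 3, nat_lit 7104, nat_lit 10080, nat_lit 4560, nat_lit 11856, nat_lit 18672, R3_95, R0_247, R8_389⟩]⟩]⟩,
 ⟨nat_lit 2, [⟨nat_lit 2, [⟨nat_lit 0, nat_lit 6336, nat_lit 1680, nat_lit 768, nat_lit 96, nat_lit 16224, R3_16, R9_2, R6_338⟩, ⟨nat_lit 2, nat_lit 6480, nat_lit 13392, nat_lit 912, nat_lit 2208, nat_lit 15072, R3_19, R0_46, R4_314⟩]⟩, ⟨nat_lit 6, [⟨nat_lit 2, nat_lit 12960, nat_lit 13056, nat_lit 4032, nat_lit 12192, nat_lit 16704, R2_84, R0_254, R7_348⟩]⟩]⟩,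
 ⟨nat_lit 3, [⟨nat_lit 0, [⟨nat_lit 3, nat_lit 2448, nat_lit 8592, nat_lit 528, nat_lit 576, nat_lit 16656, R8_11, R0_12, R6_347⟩]⟩, ⟨nat_lit 2, [⟨nat_lit 3, nat_lit 7776, nat_lit 10032, nat_lit 4704, nat_lit 8304, nat_lit 18624, R9_98, R0_173, R8_388⟩]⟩, ⟨nat_lit 3, [⟨nat_lit 3, nat_lit 11280, nat_lit 9072, nat_lit 5328, nat_lit 5856, nat_lit 15264, R5_111, R0_122, R4_318⟩]⟩]⟩], [], [⟨nat_lit 0, [⟨nat_lit 0, [⟨nat_lit 0, nat_lit 0, nat_lit 144, nat_lit 1056, nat_lit 0, nat_lit 4272, R6_22, R8_0, R6_89⟩, ⟨nat_lit 1, nat_lit 48, nat_lit 240, nat_lit 1392, nat_lit 14496, nat_lit 4368, R6_29, R5_302, R4_91⟩, ⟨nat_lit 3, nat_lit 192, nat_lit 192, nat_lit 1344, nat_lit 13584, nat_lit 1584, R6_28, R9_283, R8_33⟩]⟩, ⟨nat_lit 2, [⟨nat_lit 0, nat_lit 5232, nat_lit 768, nat_lit 6384, nat_lit 4752, nat_lit 21408, R13_133,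 R8_99, R13_446⟩, ⟨nat_lit 1, nat_lit 5280, nat_lit 864, nat_lit 6480, nat_lit 14688, nat_lit 17472, R13_135, R5_306, R3_364⟩, ⟨nat_lit 3, nat_lit 5424, nat_lit 816, nat_lit 6432, nat_lit 13824, nat_lit 17808, R13_134, R9_288, R9_371⟩]⟩]⟩,
 ⟨nat_lit 1, [⟨nat_lit 0, [⟨nat_lit 0, nat_lit 480, nat_lit 1344, nat_lit 960, nat_lit 4752, nat_lit 4320, R4_20, R5_99, R6_90⟩, ⟨nat_lit 1, nat_lit 528, nat_lit 1440, nat_lit 1392, nat_lit 18000, nat_lit 4416, R4_29, R11_375, R4_92⟩, ⟨nat_lit 3, nat_lit 768, nat_lit 1392, nat_lit 1248, nat_lit 11712, nat_lit 2784, R4_26, R0_244, R8_58⟩]⟩, ⟨nat_lit 2, [⟨nat_lit 0, nat_lit 6864, nat_lit 1488, nat_lit 4656, nat_lit 5040, nat_lit 21504, R3_97, R5_105, R13_448⟩, ⟨nat_lit 1, nat_lit 6912, nat_lit 1584, nat_lit 4752, nat_lit 18192, nat_lit 17568, R3_99, R11_379, R3_366⟩, ⟨nat_lit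 3, nat_lit 7152, nat_lit 1536, nat_lit 4704, nat_lit 11952, nat_lit 17904, R3_98, R0_249, R9_373⟩]⟩]⟩,
 ⟨nat_lit 2, [⟨nat_lit 2, [⟨nat_lit 0, nat_lit 6384, nat_lit 3600, nat_lit 816, nat_lit 4464, nat_lit 21456, R3_17, R9_93, R13_447⟩, ⟨nat_lit 1, nat_lit 6576, nat_lit 3648, nat_lit 1152, nat_lit 2928, nat_lit 17520, R3_24, R0_61, R3_365⟩, ⟨nat_lit 2, nat_lit 6528, nat_lit 3696, nat_lit 960, nat_lit 2448, nat_lit 3600, R3_20, R0_51, R3_75⟩]⟩, ⟨nat_lit 6, [⟨nat_lit 2, nat_lit 13008, nat_lit 2736, nat_lit 4080, nat_lit 12384, nat_lit 15648, R2_85, R0_258, R2_326⟩]⟩]⟩,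
 ⟨nat_lit 3, [⟨nat_lit 0, [⟨nat_lit 3, nat_lit 2496, nat_lit 1824, nat_lit 2448, nat_lit 672, nat_lit 2304, R8_51, R0_14, R8_48⟩]⟩, ⟨nat_lit 2, [⟨nat_lit 3, nat_lit 7824, nat_lit 2304, nat_lit 4800, nat_lit 8496, nat_lit 17856, R9_100, R0_177, R9_372⟩]⟩, ⟨nat_lit 3, [⟨nat_lit 3, nat_lit 11328, nat_lit 2016, nat_lit 5376, nat_lit 5904, nat_lit 17616, R5_112, R0_123, R5_367⟩]⟩]⟩], [⟨nat_lit 0, [⟨nat_lit 0, [⟨nat_lit 3, nat_lit 288, nat_lit 48, nat_lit 1296, nat_lit 13536, nat_lit 2160, R6_27, R9_282, R4_45⟩]⟩, ⟨nat_lit 2, [⟨nat_lit 3, nat_lit 5520, nat_lit 240, nat_lit 6336, nat_lit 13776, nat_lit 3504, R13_132, R9_287, R5_73⟩]⟩]⟩,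
 ⟨nat_lit 1, [⟨nat_lit 0, [⟨nat_lit 3, nat_lit 864, nat_lit 432, nat_lit 1200, nat_lit 11664, nat_lit 2880, R4_25, R0_243, R4_60⟩]⟩, ⟨nat_lit 2, [⟨nat_lit 3, nat_lit 7248, nat_lit 480, nat_lit 4608, nat_lit 11904, nat_lit 4272, R3_96, R0_248, R5_89⟩]⟩]⟩,
 ⟨nat_lit 3, [⟨nat_lit 0, [⟨nat_lit 3, nat_lit 2592, nat_lit 624, nat_lit 912, nat_lit 624, nat_lit 2592, R8_19, R0_13, R4_54⟩]⟩, ⟨nat_lit 2, [⟨nat_lit 3, nat_lit 7920, nat_lit 1056, nat_lit 4752, nat_lit 8400, nat_lit 4176, R9_99, R0_175, R5_87⟩]⟩]⟩]], [[], [], [], [⟨nat_lit 0, [⟨nat_lit 0, [⟨nat_lit 7, nat_lit 432, nat_lit 96, nat_lit 960, nat_lit 12192, nat_lit 3264, R6_20, R2_254, R4_68⟩]⟩]⟩,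
 ⟨nat_lit 1, [⟨nat_lit 0, [⟨nat_lit 7, nat_lit 1344, nat_lit 432, nat_lit 576, nat_lit 12768, nat_lit 4464, R4_12, R1_266, R4_93⟩]⟩]⟩,
 ⟨nat_lit 3, [⟨nat_lit 0, [⟨nat_lit 7, nat_lit 2736, nat_lit 768, nat_lit 3456, nat_lit 2928, nat_lit 4176, R8_72, R12_61, R4_87⟩]⟩]⟩], [], [], [], [⟨nat_lit 0, [⟨nat_lit 0, [⟨nat_lit 3, nat_lit 336, nat_lit 144, nat_lit 1248, nat_lit 3024, nat_lit 2112, R6_26, R3_63, R4_44⟩, ⟨nat_lit 7, nat_lit 384, nat_lit 192, nat_lit 1008, nat_lit 12144, nat_lit 2160, R6_21, R2_253, R7_45⟩]⟩, ⟨nat_lit 2, [⟨nat_lit 3, nat_lit 5568, nat_lit 480, nat_lit 6192, nat_lit 8832, nat_lit 3552, R13_129, R3_184, R5_74⟩]⟩]⟩,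
 ⟨nat_lit 1, [⟨nat_lit 0, [⟨nat_lit 3, nat_lit 912, nat_lit 672, nat_lit 1152, nat_lit 14064, nat_lit 2832, R4_24, R10_293, R4_59⟩, ⟨nat_lit 7, nat_lit 1296, nat_lit 720, nat_lit 624, nat_lit 12720, nat_lit 2736, R4_13, R1_265, R7_57⟩]⟩, ⟨nat_lit 2, [⟨nat_lit 3, nat_lit 7296, nat_lit 816, nat_lit 4464, nat_lit 14256, nat_lit 4320, R3_93, R10_297, R5_90⟩]⟩]⟩,
 ⟨nat_lit 2, [⟨nat_lit 2, [⟨nat_lit 3, nat_lit 6720, nat_lit 2544, nat_lit 1104, nat_lit 3216, nat_lit 3792, R3_23, R0_67, R5_79⟩]⟩]⟩,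
 ⟨nat_lit 3, [⟨nat_lit 0, [⟨nat_lit 7, nat_lit 2688, nat_lit 1056, nat_lit 1296, nat_lit 2832, nat_lit 2544, R8_27, R12_59, R7_53⟩]⟩, ⟨nat_lit 3, [⟨nat_lit 7, nat_lit 11472, nat_lit 1488, nat_lit 5280, nat_lit 2880, nat_lit 19680, R5_110, R12_60, R14_410⟩]⟩]⟩]]], [[], [], [], [], [[], [], [], [], [⟨nat_lit 2, [⟨nat_lit 6, [⟨nat_lit 2, nat_lit 12576, nat_lit 10656, nat_lit 7680, nat_lit 6000, nat_lit 16464, R2_160, R5_125, R7_343⟩]⟩]⟩], [⟨nat_lit 2, [⟨nat_lit 6, [⟨nat_lit 2, nat_lit 12720, nat_lit 7392, nat_lit 7824, nat_lit 6912, nat_lit 14736, R2_163, R5_144, R2_307⟩]⟩]⟩]], [[], [], [], [], [⟨nat_lit 2, [⟨nat_lit 6, [⟨nat_lit 2, nat_lit 12624, nat_lit 12768, nat_lit 7728, nat_lit 5616, nat_lit 16608, R2_161, R11_117, R7_346⟩]⟩]⟩,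
 ⟨nat_lit 4, [⟨nat_lit 4, [⟨nat_lit 6, nat_lit 12144, nat_lit 1008, nat_lit 13584, nat_lit 16032, nat_lit 15168, R6_283, R3_334, R6_316⟩]⟩, ⟨nat_lit 7, [⟨nat_lit 4, nat_lit 14256, nat_lit 8016, nat_lit 13488, nat_lit 8976, nat_lit 17088, R8_281, R4_187, R6_356⟩, ⟨nat_lit 6, nat_lit 14400, nat_lit 9264, nat_lit 13776, nat_lit 16368, nat_lit 16608, R8_287, R3_341, R8_346⟩]⟩]⟩,
 ⟨nat_lit 6, [⟨nat_lit 4, [⟨nat_lit 6, nat_lit 12288, nat_lit 1152, nat_lit 10608, nat_lit 2976, nat_lit 15216, R13_221, R10_62, R6_317⟩]⟩, ⟨nat_lit 6, [⟨nat_lit 2, nat_lit 13152, nat_lit 12864, nat_lit 15168, nat_lit 2640, nat_lit 16560, R3_316, R1_55, R7_345⟩, ⟨nat_lit 6, nat_lit 13248, nat_lit 13200, nat_lit 15264, nat_lit 3024, nat_lit 14592, R3_318, R10_63, R4_304⟩]⟩, ⟨nat_lit 7, [⟨nat_lit 6, nat_lit 14736, nat_lit 9504, nat_lit 8256,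 nat_lit 3072, nat_lit 16656, R9_172, R10_64, R8_347⟩]⟩]⟩,
 ⟨nat_lit 7, [⟨nat_lit 7, [⟨nat_lit 4, nat_lit 15168, nat_lit 8160, nat_lit 8784, nat_lit 4656, nat_lit 17136, R5_183, R5_97, R6_357⟩, ⟨nat_lit 6, nat_lit 15312, nat_lit 9360, nat_lit 8832, nat_lit 2256, nat_lit 16704, R5_184, R0_47, R8_348⟩, ⟨nat_lit 7, nat_lit 15456, nat_lit 8880, nat_lit 8880, nat_lit 4656, nat_lit 15456, R5_185, R11_97, R4_322⟩]⟩]⟩], [⟨nat_lit 2, [⟨nat_lit 6, [⟨nat_lit 2, nat_lit 12768, nat_lit 7008, nat_lit 7872, nat_lit 6528, nat_lit 14880, R2_164, R11_136, R2_310⟩]⟩]⟩,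
 ⟨nat_lit 4, [⟨nat_lit 4, [⟨nat_lit 4, nat_lit 12096, nat_lit 7488, nat_lit 13536, nat_lit 3168, nat_lit 10752, R6_282, R4_66, R6_224⟩, ⟨nat_lit 6, nat_lit 12192, nat_lit 7824, nat_lit 13632, nat_lit 16128, nat_lit 20256, R6_284, R3_336, R13_422⟩]⟩, ⟨nat_lit 5, [⟨nat_lit 4, nat_lit 13344, nat_lit 7584, nat_lit 13344, nat_lit 11616, nat_lit 11616, R4_278, R4_242, R4_242⟩, ⟨nat_lit 6, nat_lit 13392, nat_lit 7920, nat_lit 13392, nat_lit 16752, nat_lit 16752, R4_279, R3_349, R3_349⟩]⟩, ⟨nat_lit 7, [⟨nat_lit 4, nat_lit 14304, nat_lit 7536, nat_lit 13584, nat_lit 9072, nat_lit 9360, R8_283, R4_189, R8_195⟩, ⟨nat_lit 6, nat_lit 14448, nat_lit 7872, nat_lit 13872, nat_lit 16560, nat_lit 16656, R8_289, R3_345, R9_347⟩]⟩]⟩,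
 ⟨nat_lit 6, [⟨nat_lit 4, [⟨nat_lit 6, nat_lit 12336, nat_lit 9504, nat_lit 10656, nat_lit 3168, nat_lit 20304, R13_222, R10_66, R13_423⟩]⟩, ⟨nat_lit 5, [⟨nat_lit 6, nat_lit 13728, nat_lit 9600, nat_lit 8640, nat_lit 3312, nat_lit 16800, R3_180, R10_69, R3_350⟩]⟩, ⟨nat_lit 6, [⟨nat_lit 2, nat_lit 13200, nat_lit 8976, nat_lit 15216, nat_lit 2688, nat_lit 14832, R3_317, R1_56, R2_309⟩, ⟨nat_lit 6, nat_lit 13296, nat_lit 9648, nat_lit 15312, nat_lit 3216, nat_lit 10464, R3_319, R10_67, R3_218⟩]⟩, ⟨nat_lit 7, [⟨nat_lit 6, nat_lit 14784, nat_lit 9552, nat_lit 8304, nat_lit 3264, nat_lit 16704, R9_173, R10_68, R9_348⟩]⟩]⟩,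
 ⟨nat_lit 7, [⟨nat_lit 7, [⟨nat_lit 4, nat_lit 15216, nat_lit 8400, nat_lit 8928, nat_lit 6288, nat_lit 9840, R5_186, R5_131, R8_205⟩, ⟨nat_lit 6, nat_lit 15360, nat_lit 8736, nat_lit 8976, nat_lit 2352, nat_lit 16752, R5_187, R0_49, R9_349⟩, ⟨nat_lit 7, nat_lit 15504, nat_lit 8544, nat_lit 9024, nat_lit 4704, nat_lit 17088, R5_188, R11_98, R5_356⟩]⟩]⟩], [], [⟨nat_lit 4, [⟨nat_lit 7, [⟨nat_lit 4, nat_lit 14352, nat_lit 5568, nat_lit 13536, nat_lit 9024, nat_lit 10896, R8_282, R4_188, R4_227⟩, ⟨nat_lit 6, nat_lit 14496, nat_lit 5664, nat_lit 13824, nat_lit 16464, nat_lit 13152, R8_288, R3_343, R5_274⟩]⟩]⟩,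
 ⟨nat_lit 6, [⟨nat_lit 7, [⟨nat_lit 6, nat_lit 14832, nat_lit 6960, nat_lit 8352, nat_lit 3120, nat_lit 13296, R9_174, R10_65, R5_277⟩]⟩]⟩,
 ⟨nat_lit 7, [⟨nat_lit 7, [⟨nat_lit 4, nat_lit 15264, nat_lit 5856, nat_lit 9072, nat_lit 5328, nat_lit 11280, R5_189, R5_111, R4_235⟩, ⟨nat_lit 6, nat_lit 15408, nat_lit 6192, nat_lit 9120, nat_lit 2304, nat_lit 13440, R5_190, R0_48, R5_280⟩]⟩]⟩]], [[], [], [], [], [⟨nat_lit 2, [⟨nat_lit 6, [⟨nat_lit 2, nat_lit 12672, nat_lit 10896, nat_lit 7776, nat_lit 12240, nat_lit 16512, R2_162, R0_255, R7_344⟩]⟩]⟩], [⟨nat_lit 2, [⟨nat_lit 6, [⟨nat_lit 2, nat_lit 12816, nat_lit 9408, nat_lit 7920, nat_lit 12624, nat_lit 14784, R2_165, R0_263, R2_308⟩]⟩]⟩], [⟨nat_lit 2, [⟨nat_lit 6, [⟨nat_lit 2, nat_lit 12864, nat_lit 9792, nat_lit 7968, nat_lit 12480, nat_lit 15600, R2_166, R0_260,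 R2_325⟩]⟩]⟩]]], [[], [], [], [], [[], [], [], [⟨nat_lit 3, [⟨nat_lit 0, [⟨nat_lit 7, nat_lit 3024, nat_lit 5808, nat_lit 3696, nat_lit 5232, nat_lit 3936, R4_77, R2_109, R4_82⟩]⟩]⟩], [], [], [], [⟨nat_lit 3, [⟨nat_lit 0, [⟨nat_lit 3, nat_lit 2784, nat_lit 4896, nat_lit 1104, nat_lit 5472, nat_lit 816, R4_23, R3_114, R4_17⟩, ⟨nat_lit 7, nat_lit 2928, nat_lit 13104, nat_lit 1632, nat_lit 4752, nat_lit 912, R4_34, R2_99, R7_19⟩]⟩, ⟨nat_lit 2, [⟨nat_lit 3, nat_lit 7968, nat_lit 5184, nat_lit 96, nat_lit 5616, nat_lit 3984, R5_2, R3_117, R5_83⟩]⟩]⟩]], [[], [], [], [⟨nat_lit 3, [⟨nat_lit 0, [⟨nat_lit 7, nat_lit 3072, nat_lit 4512, nat_lit 3792, nat_lit 3936, nat_lit 4032, R4_79, R1_82, R4_84⟩]⟩]⟩,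
 ⟨nat_lit 4, [⟨nat_lit 3, [⟨nat_lit 4, nat_lit 11568, nat_lit 5808, nat_lit 14304, nat_lit 13440, nat_lit 11664, R7_298, R4_280, R4_243⟩]⟩]⟩,
 ⟨nat_lit 7, [⟨nat_lit 0, [⟨nat_lit 4, nat_lit 4224, nat_lit 6096, nat_lit 3216, nat_lit 14400, nat_lit 2016, R7_67, R5_300, R6_42⟩, ⟨nat_lit 7, nat_lit 4320, nat_lit 6816, nat_lit 3744, nat_lit 4608, nat_lit 1824, R7_78, R11_96, R4_38⟩]⟩, ⟨nat_lit 3, [⟨nat_lit 4, nat_lit 12000, nat_lit 6144, nat_lit 5328, nat_lit 15984, nat_lit 11712, R14_111, R5_333, R4_244⟩]⟩]⟩], [], [], [], [⟨nat_lit 3, [⟨nat_lit 0, [⟨nat_lit 3, nat_lit 2832, nat_lit 4608, nat_lit 1152, nat_lit 4032, nat_lit 912, R4_24, R10_84, R4_19⟩, ⟨nat_lit 7, nat_lit 2976, nat_lit 5232, nat_lit 1680, nat_lit 3456, nat_lit 960, R4_35, R1_72, R7_20⟩]⟩, ⟨nat_lit 2, [⟨nat_lit 3, nat_lit 8016, nat_lit 4656, nat_lit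 144, nat_lit 4080, nat_lit 4080, R5_3, R10_85, R5_85⟩]⟩]⟩,
 ⟨nat_lit 4, [⟨nat_lit 3, [⟨nat_lit 4, nat_lit 11520, nat_lit 7008, nat_lit 14256, nat_lit 13488, nat_lit 11424, R7_297, R4_281, R7_238⟩]⟩, ⟨nat_lit 7, [⟨nat_lit 4, nat_lit 14544, nat_lit 6960, nat_lit 13104, nat_lit 8880, nat_lit 10848, R4_273, R4_185, R4_226⟩, ⟨nat_lit 6, nat_lit 14592, nat_lit 7152, nat_lit 13248, nat_lit 15264, nat_lit 13200, R4_276, R3_318, R5_275⟩]⟩]⟩,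
 ⟨nat_lit 6, [⟨nat_lit 7, [⟨nat_lit 6, nat_lit 14880, nat_lit 8544, nat_lit 16224, nat_lit 2928, nat_lit 13344, R5_338, R10_61, R5_278⟩]⟩]⟩,
 ⟨nat_lit 7, [⟨nat_lit 0, [⟨nat_lit 7, nat_lit 4272, nat_lit 7584, nat_lit 1776, nat_lit 4512, nat_lit 1536, R7_37, R11_94, R7_32⟩]⟩, ⟨nat_lit 3, [⟨nat_lit 4, nat_lit 11952, nat_lit 7344, nat_lit 5232, nat_lit 14976, nat_lit 11616, R14_109, R5_312, R7_242⟩, ⟨nat_lit 7, nat_lit 12048, nat_lit 7632, nat_lit 5280, nat_lit 4560, nat_lit 19584, R14_110, R11_95, R14_408⟩]⟩]⟩]], [[], [], [], [], [], [], [], [⟨nat_lit 3, [⟨nat_lit 0, [⟨nat_lit 3, nat_lit 2880, nat_lit 11664, nat_lit 1200, nat_lit 432, nat_lit 864, R4_25, R0_9, R4_18⟩]⟩, ⟨nat_lit 2, [⟨nat_lit 3, nat_lit 8064, nat_lit 14496, nat_lit 192, nat_lit 8016, nat_lit 4032, R5_4, R0_167, R5_84⟩]⟩]⟩]], [[], [], [], [⟨nat_lit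 3, [⟨nat_lit 0, [⟨nat_lit 7, nat_lit 3120, nat_lit 576, nat_lit 3744, nat_lit 2976, nat_lit 3984, R4_78, R12_62, R4_83⟩]⟩]⟩]]], [[], [[⟨nat_lit 4, [⟨nat_lit 1, [⟨nat_lit 4, nat_lit 8640, nat_lit 4704, nat_lit 12720, nat_lit 15456, nat_lit 10032, R6_265, R7_322, R6_209⟩]⟩]⟩,
 ⟨nat_lit 5, [⟨nat_lit 0, [⟨nat_lit 5, nat_lit 3360, nat_lit 48, nat_lit 3600, nat_lit 96, nat_lit 3216, R6_75, R12_2, R6_67⟩]⟩, ⟨nat_lit 1, [⟨nat_lit 4, nat_lit 9216, nat_lit 4896, nat_lit 18288, nat_lit 2160, nat_lit 10080, R13_381, R14_45, R6_210⟩, ⟨nat_lit 5, nat_lit 9360, nat_lit 4992, nat_lit 18480, nat_lit 384, nat_lit 2304, R13_385, R12_8, R13_48⟩]⟩]⟩], [⟨nat_lit 4, [⟨nat_lit 1, [⟨nat_lit 4, nat_lit 8736, nat_lit 3120, nat_lit 12768, nat_lit 15648, nat_lit 10992, R6_266, R7_326, R4_229⟩]⟩]⟩,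
 ⟨nat_lit 5, [⟨nat_lit 1, [⟨nat_lit 4, nat_lit 9264, nat_lit 3312, nat_lit 18336, nat_lit 4080, nat_lit 11088, R13_382, R14_85, R4_231⟩, ⟨nat_lit 5, nat_lit 9408, nat_lit 3408, nat_lit 18528, nat_lit 2448, nat_lit 2784, R13_386, R12_51, R3_58⟩]⟩]⟩], [], [⟨nat_lit 4, [⟨nat_lit 1, [⟨nat_lit 4, nat_lit 8784, nat_lit 7440, nat_lit 12816, nat_lit 15552, nat_lit 9600, R6_267, R7_324, R8_200⟩, ⟨nat_lit 7, nat_lit 8832, nat_lit 7536, nat_lit 12864, nat_lit 14448, nat_lit 432, R6_268, R2_301, R5_9⟩]⟩]⟩,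
 ⟨nat_lit 5, [⟨nat_lit 0, [⟨nat_lit 4, nat_lit 3312, nat_lit 1152, nat_lit 3648, nat_lit 2544, nat_lit 2448, R6_76, R14_53, R6_51⟩, ⟨nat_lit 5, nat_lit 3408, nat_lit 1440, nat_lit 3744, nat_lit 912, nat_lit 2832, R6_78, R12_19, R8_59⟩, ⟨nat_lit 7, nat_lit 3456, nat_lit 1296, nat_lit 3696, nat_lit 2784, nat_lit 2352, R6_77, R12_58, R4_49⟩]⟩, ⟨nat_lit 1, [⟨nat_lit 4, nat_lit 9312, nat_lit 8208, nat_lit 18384, nat_lit 3120, nat_lit 9696, R13_383, R14_65, R8_202⟩, ⟨nat_lit 5, nat_lit 9456, nat_lit 8496, nat_lit 18576, nat_lit 1488, nat_lit 1536, R13_387, R12_31, R9_32⟩, ⟨nat_lit 7, nat_lit 9504, nat_lit 8352, nat_lit 18432, nat_lit 4128, nat_lit 480, R13_384, R12_86, R5_10⟩]⟩]⟩]], [], [], [], [[⟨nat_lit 4, [⟨nat_lit 1, [⟨nat_lit 4, nat_lit 8592, nat_lit 4560, nat_lit 12912, nat_lit 14064, nat_lit 9792, R6_269, R4_293,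 R6_204⟩]⟩]⟩], [⟨nat_lit 4, [⟨nat_lit 1, [⟨nat_lit 4, nat_lit 8688, nat_lit 144, nat_lit 12960, nat_lit 14112, nat_lit 10800, R6_270, R4_294, R4_225⟩]⟩]⟩]]], [[[⟨nat_lit 1, [⟨nat_lit 0, [⟨nat_lit 5, nat_lit 1584, nat_lit 6576, nat_lit 3600, nat_lit 12336, nat_lit 3264, R7_75, R3_257, R6_68⟩]⟩, ⟨nat_lit 1, [⟨nat_lit 4, nat_lit 8160, nat_lit 624, nat_lit 1920, nat_lit 1488, nat_lit 9984, R2_40, R4_31, R6_208⟩, ⟨nat_lit 5, nat_lit 8304, nat_lit 6624, nat_lit 1968, nat_lit 12480, nat_lit 2352, R2_41, R3_260, R13_49⟩]⟩]⟩,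
 ⟨nat_lit 5, [⟨nat_lit 0, [⟨nat_lit 5, nat_lit 3600, nat_lit 7008, nat_lit 3504, nat_lit 96, nat_lit 3312, R4_73, R2_2, R6_69⟩]⟩, ⟨nat_lit 1, [⟨nat_lit 4, nat_lit 9648, nat_lit 1056, nat_lit 13584, nat_lit 1584, nat_lit 9936, R3_283, R7_33, R6_207⟩, ⟨nat_lit 5, nat_lit 9888, nat_lit 7056, nat_lit 13728, nat_lit 144, nat_lit 2400, R3_286, R2_3, R13_50⟩]⟩]⟩], [], [⟨nat_lit 1, [⟨nat_lit 0, [⟨nat_lit 5, nat_lit 1632, nat_lit 4752, nat_lit 3936, nat_lit 13104, nat_lit 2928, R7_82, R3_273, R4_61⟩]⟩, ⟨nat_lit 1, [⟨nat_lit 5, nat_lit 8352, nat_lit 4800, nat_lit 2304, nat_lit 13248, nat_lit 9696, R2_48, R3_276, R3_202⟩]⟩]⟩,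
 ⟨nat_lit 5, [⟨nat_lit 0, [⟨nat_lit 5, nat_lit 3696, nat_lit 5232, nat_lit 3936, nat_lit 5808, nat_lit 3024, R4_82, R2_121, R4_63⟩]⟩, ⟨nat_lit 1, [⟨nat_lit 5, nat_lit 10032, nat_lit 5280, nat_lit 13824, nat_lit 5856, nat_lit 9648, R3_288, R2_122, R3_201⟩]⟩]⟩], [⟨nat_lit 1, [⟨nat_lit 0, [⟨nat_lit 4, nat_lit 1488, nat_lit 1920, nat_lit 3648, nat_lit 8160, nat_lit 4176, R7_76, R4_170, R6_87⟩, ⟨nat_lit 5, nat_lit 1728, nat_lit 9696, nat_lit 3792, nat_lit 12768, nat_lit 2928, R7_79, R3_266, R8_61⟩]⟩, ⟨nat_lit 1, [⟨nat_lit 4, nat_lit 8208, nat_lit 2016, nat_lit 2016, nat_lit 8208, nat_lit 9504, R2_42, R4_171, R8_198⟩, ⟨nat_lit 5, nat_lit 8448, nat_lit 9792, nat_lit 2160, nat_lit 12912, nat_lit 1632, R2_45, R3_269, R9_34⟩]⟩]⟩,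
 ⟨nat_lit 5, [⟨nat_lit 0, [⟨nat_lit 4, nat_lit 3504, nat_lit 96, nat_lit 3600, nat_lit 8160, nat_lit 3312, R4_75, R7_170, R6_69⟩, ⟨nat_lit 5, nat_lit 3840, nat_lit 7104, nat_lit 3840, nat_lit 7104, nat_lit 3024, R4_80, R2_148, R8_63⟩, ⟨nat_lit 7, nat_lit 3936, nat_lit 5808, nat_lit 3696, nat_lit 5232, nat_lit 3024, R4_77, R2_109, R4_63⟩]⟩, ⟨nat_lit 1, [⟨nat_lit 4, nat_lit 9792, nat_lit 240, nat_lit 13632, nat_lit 8208, nat_lit 9456, R3_284, R7_171, R8_197⟩, ⟨nat_lit 5, nat_lit 10176, nat_lit 7248, nat_lit 13776, nat_lit 7152, nat_lit 1728, R3_287, R2_149, R9_36⟩, ⟨nat_lit 7, nat_lit 10272, nat_lit 5952, nat_lit 13680, nat_lit 5520, nat_lit 768, R3_285, R2_115, R5_16⟩]⟩]⟩]], [[⟨nat_lit 5, [⟨nat_lit 0, [⟨nat_lit 5, nat_lit 3648, nat_lit 15456, nat_lit 3552, nat_lit 144, nat_lit 3360, R4_74, R12_3, R6_70⟩]⟩, ⟨nat_lit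 1, [⟨nat_lit 4, nat_lit 9696, nat_lit 15696, nat_lit 13872, nat_lit 2208, nat_lit 10128, R3_289, R14_46, R6_211⟩, ⟨nat_lit 5, nat_lit 9936, nat_lit 16128, nat_lit 14064, nat_lit 432, nat_lit 2448, R3_293, R12_9, R13_51⟩]⟩]⟩], [⟨nat_lit 5, [⟨nat_lit 1, [⟨nat_lit 4, nat_lit 9744, nat_lit 12768, nat_lit 13920, nat_lit 4128, nat_lit 11184, R3_290, R14_86, R4_233⟩, ⟨nat_lit 5, nat_lit 9984, nat_lit 13200, nat_lit 14112, nat_lit 2496, nat_lit 2880, R3_294, R12_52, R3_60⟩]⟩]⟩], [⟨nat_lit 5, [⟨nat_lit 0, [⟨nat_lit 5, nat_lit 3744, nat_lit 12960, nat_lit 3984, nat_lit 576, nat_lit 3120, R4_83, R12_12, R4_65⟩]⟩, ⟨nat_lit 1, [⟨nat_lit 5, nat_lit 10080, nat_lit 13488, nat_lit 14208, nat_lit 624, nat_lit 9840, R3_296, R12_13, R3_205⟩]⟩]⟩], [⟨nat_lit 5, [⟨nat_lit 0, [⟨nat_lit 4, nat_lit 3552, nat_lit 144, nat_lit 3648, nat_lit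 2640, nat_lit 3360, R4_76, R14_55, R6_70⟩, ⟨nat_lit 5, nat_lit 3888, nat_lit 1008, nat_lit 3888, nat_lit 1008, nat_lit 3072, R4_81, R12_21, R8_64⟩, ⟨nat_lit 7, nat_lit 3984, nat_lit 576, nat_lit 3744, nat_lit 2976, nat_lit 3120, R4_78, R12_62, R4_65⟩]⟩, ⟨nat_lit 1, [⟨nat_lit 4, nat_lit 9840, nat_lit 6912, nat_lit 13968, nat_lit 3216, nat_lit 9792, R3_291, R14_67, R8_204⟩, ⟨nat_lit 5, nat_lit 10224, nat_lit 8448, nat_lit 14160, nat_lit 1584, nat_lit 1776, R3_295, R12_33, R9_37⟩, ⟨nat_lit 7, nat_lit 10320, nat_lit 7776, nat_lit 14016, nat_lit 4416, nat_lit 864, R3_292, R12_92, R5_18⟩]⟩]⟩]], [[], [], [⟨nat_lit 1, [⟨nat_lit 0, [⟨nat_lit 1, nat_lit 1440, nat_lit 15216, nat_lit 3888, nat_lit 12576, nat_lit 2784, R7_81, R1_262, R7_58⟩, ⟨nat_lit 5, nat_lit 1680, nat_lit 3456, nat_lit 3984, nat_lit 13968, nat_lit 2976,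 R7_83, R10_291, R4_62⟩]⟩, ⟨nat_lit 1, [⟨nat_lit 1, nat_lit 8112, nat_lit 15264, nat_lit 2256, nat_lit 12672, nat_lit 864, R2_47, R1_264, R2_18⟩, ⟨nat_lit 5, nat_lit 8400, nat_lit 3504, nat_lit 2352, nat_lit 14016, nat_lit 9792, R2_49, R10_292, R3_204⟩]⟩, ⟨nat_lit 2, [⟨nat_lit 1, nat_lit 7344, nat_lit 15360, nat_lit 48, nat_lit 12624, nat_lit 3024, R2_1, R1_263, R2_63⟩]⟩]⟩,
 ⟨nat_lit 5, [⟨nat_lit 0, [⟨nat_lit 5, nat_lit 3792, nat_lit 3936, nat_lit 4032, nat_lit 4512, nat_lit 3072, R4_84, R1_94, R4_64⟩]⟩, ⟨nat_lit 1, [⟨nat_lit 5, nat_lit 10128, nat_lit 3984, nat_lit 14304, nat_lit 4560, nat_lit 9744, R3_298, R1_95, R3_203⟩]⟩]⟩]], [[], [], [], [⟨nat_lit 1, [⟨nat_lit 0, [⟨nat_lit 4, nat_lit 1536, nat_lit 1392, nat_lit 3696, nat_lit 4608, nat_lit 4224, R7_77, R5_96, R6_88⟩, ⟨nat_lit 5, nat_lit 1776, nat_lit 10512,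 nat_lit 3840, nat_lit 11520, nat_lit 2976, R7_80, R0_240, R8_62⟩, ⟨nat_lit 7, nat_lit 1824, nat_lit 6816, nat_lit 3744, nat_lit 17904, nat_lit 4320, R7_78, R11_373, R4_90⟩]⟩, ⟨nat_lit 1, [⟨nat_lit 4, nat_lit 8256, nat_lit 1488, nat_lit 2064, nat_lit 6192, nat_lit 9552, R2_43, R5_129, R8_199⟩, ⟨nat_lit 5, nat_lit 8496, nat_lit 10608, nat_lit 2208, nat_lit 11568, nat_lit 1680, R2_46, R0_241, R9_35⟩, ⟨nat_lit 7, nat_lit 8544, nat_lit 6912, nat_lit 2112, nat_lit 17952, nat_lit 720, R2_44, R11_374, R5_15⟩]⟩]⟩,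
 ⟨nat_lit 5, [⟨nat_lit 0, [⟨nat_lit 7, nat_lit 4032, nat_lit 4512, nat_lit 3792, nat_lit 3936, nat_lit 3072, R4_79, R1_82, R4_64⟩]⟩, ⟨nat_lit 1, [⟨nat_lit 7, nat_lit 10368, nat_lit 4656, nat_lit 14256, nat_lit 4224, nat_lit 816, R3_297, R1_88, R5_17⟩]⟩]⟩]]], [[], [[], [⟨nat_lit 4, [⟨nat_lit 1, [⟨nat_lit 4, nat_lit 8928, nat_lit 2592, nat_lit 13056, nat_lit 16368, nat_lit 11040, R4_272, R7_341, R4_230⟩]⟩, ⟨nat_lit 5, [⟨nat_lit 4, nat_lit 13536, nat_lit 13056, nat_lit 14160, nat_lit 12048, nat_lit 11472, R7_295, R7_251, R7_239⟩, ⟨nat_lit 6, nat_lit 13680, nat_lit 13104, nat_lit 14208, nat_lit 10512, nat_lit 10752, R7_296, R2_219, R2_224⟩]⟩]⟩,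
 ⟨nat_lit 5, [⟨nat_lit 1, [⟨nat_lit 4, nat_lit 9552, nat_lit 2784, nat_lit 3168, nat_lit 4176, nat_lit 11136, R3_66, R14_87, R4_232⟩, ⟨nat_lit 5, nat_lit 9600, nat_lit 2880, nat_lit 3216, nat_lit 2544, nat_lit 2832, R3_67, R12_53, R3_59⟩]⟩, ⟨nat_lit 5, [⟨nat_lit 4, nat_lit 13920, nat_lit 13248, nat_lit 13728, nat_lit 3792, nat_lit 11520, R2_286, R14_79, R7_240⟩, ⟨nat_lit 5, nat_lit 14016, nat_lit 13344, nat_lit 13824, nat_lit 2160, nat_lit 10320, R2_288, R12_45, R2_215⟩, ⟨nat_lit 6, nat_lit 13968, nat_lit 13488, nat_lit 13776, nat_lit 1776, nat_lit 10944, R2_287, R12_37, R2_228⟩]⟩]⟩,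
 ⟨nat_lit 6, [⟨nat_lit 5, [⟨nat_lit 6, nat_lit 13872, nat_lit 13728, nat_lit 14016, nat_lit 10896, nat_lit 10848, R2_292, R1_227, R2_226⟩]⟩]⟩]], [], [], [], [[], [⟨nat_lit 4, [⟨nat_lit 1, [⟨nat_lit 4, nat_lit 8880, nat_lit 6960, nat_lit 13104, nat_lit 14544, nat_lit 10848, R4_273, R4_303, R4_226⟩]⟩, ⟨nat_lit 5, [⟨nat_lit 4, nat_lit 13488, nat_lit 7008, nat_lit 14256, nat_lit 11520, nat_lit 11424, R7_297, R4_240, R7_238⟩, ⟨nat_lit 6, nat_lit 13632, nat_lit 7056, nat_lit 14352, nat_lit 10368, nat_lit 10800, R7_299, R3_216, R2_225⟩]⟩]⟩,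
 ⟨nat_lit 6, [⟨nat_lit 5, [⟨nat_lit 6, nat_lit 13824, nat_lit 7104, nat_lit 13968, nat_lit 3408, nat_lit 10896, R2_291, R10_71, R2_227⟩]⟩]⟩], [], [], [], [⟨nat_lit 4, [⟨nat_lit 5, [⟨nat_lit 4, nat_lit 13440, nat_lit 5808, nat_lit 14304, nat_lit 11568, nat_lit 11664, R7_298, R4_241, R4_243⟩, ⟨nat_lit 6, nat_lit 13584, nat_lit 5856, nat_lit 14400, nat_lit 10272, nat_lit 16656, R7_300, R3_214, R3_347⟩]⟩]⟩,
 ⟨nat_lit 6, [⟨nat_lit 5, [⟨nat_lit 6, nat_lit 13776, nat_lit 5904, nat_lit 13920, nat_lit 3360, nat_lit 16704, R2_290, R10_70, R3_348⟩]⟩]⟩]]], [[], [[], [], [], [⟨nat_lit 4, [⟨nat_lit 0, [⟨nat_lit 4, nat_lit 3216, nat_lit 0, nat_lit 13680, nat_lit 13248, nat_lit 864, R6_285, R7_276, R6_18⟩, ⟨nat_lit 7, nat_lit 3264, nat_lit 96, nat_lit 14064, nat_lit 12192, nat_lit 432, R6_293, R2_254, R4_9⟩]⟩, ⟨nat_lit 1, [⟨nat_lit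 4, nat_lit 9120, nat_lit 7968, nat_lit 13392, nat_lit 16032, nat_lit 9648, R8_279, R7_334, R8_201⟩, ⟨nat_lit 7, nat_lit 9168, nat_lit 8064, nat_lit 13440, nat_lit 15024, nat_lit 528, R8_280, R2_313, R5_11⟩]⟩, ⟨nat_lit 3, [⟨nat_lit 4, nat_lit 11664, nat_lit 5808, nat_lit 13440, nat_lit 14592, nat_lit 11568, R4_280, R7_304, R4_241⟩]⟩]⟩,
 ⟨nat_lit 5, [⟨nat_lit 0, [⟨nat_lit 4, nat_lit 4080, nat_lit 624, nat_lit 3408, nat_lit 2592, nat_lit 3072, R8_71, R14_54, R6_64⟩, ⟨nat_lit 5, nat_lit 4128, nat_lit 912, nat_lit 3504, nat_lit 960, nat_lit 2880, R8_73, R12_20, R8_60⟩, ⟨nat_lit 7, nat_lit 4176, nat_lit 768, nat_lit 3456, nat_lit 2928, nat_lit 2736, R8_72, R12_61, R4_57⟩]⟩, ⟨nat_lit 1, [⟨nat_lit 4, nat_lit 10416, nat_lit 9024, nat_lit 15072, nat_lit 3168, nat_lit 9744, R9_314, R14_66, R8_203⟩, ⟨nat_lit 5, nat_lit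 10464, nat_lit 9312, nat_lit 15168, nat_lit 1536, nat_lit 1584, R9_316, R12_32, R9_33⟩, ⟨nat_lit 7, nat_lit 10512, nat_lit 9168, nat_lit 15120, nat_lit 4320, nat_lit 672, R9_315, R12_90, R5_14⟩]⟩, ⟨nat_lit 3, [⟨nat_lit 4, nat_lit 11712, nat_lit 6144, nat_lit 15984, nat_lit 2784, nat_lit 12000, R5_333, R14_58, R4_250⟩, ⟨nat_lit 5, nat_lit 11760, nat_lit 6336, nat_lit 16032, nat_lit 1152, nat_lit 12720, R5_334, R12_24, R5_265⟩]⟩]⟩,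
 ⟨nat_lit 7, [⟨nat_lit 0, [⟨nat_lit 7, nat_lit 4464, nat_lit 432, nat_lit 576, nat_lit 12768, nat_lit 1344, R4_12, R1_266, R4_28⟩]⟩, ⟨nat_lit 1, [⟨nat_lit 7, nat_lit 10752, nat_lit 8688, nat_lit 2160, nat_lit 16032, nat_lit 576, R5_45, R1_334, R5_12⟩]⟩]⟩]], [], [], [], [[⟨nat_lit 4, [⟨nat_lit 1, [⟨nat_lit 4, nat_lit 8976, nat_lit 8016, nat_lit 13488, nat_lit 14256, nat_lit 9840, R8_281, R4_297, R6_205⟩]⟩]⟩,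
 ⟨nat_lit 7, [⟨nat_lit 1, [⟨nat_lit 4, nat_lit 10560, nat_lit 8304, nat_lit 1968, nat_lit 16848, nat_lit 9888, R5_41, R5_351, R6_206⟩]⟩]⟩], [⟨nat_lit 4, [⟨nat_lit 1, [⟨nat_lit 4, nat_lit 9024, nat_lit 5568, nat_lit 13536, nat_lit 14352, nat_lit 10896, R8_282, R4_299, R4_227⟩]⟩]⟩,
 ⟨nat_lit 7, [⟨nat_lit 1, [⟨nat_lit 4, nat_lit 10608, nat_lit 5616, nat_lit 2016, nat_lit 17568, nat_lit 10944, R5_42, R5_366, R4_228⟩]⟩]⟩], [], [⟨nat_lit 4, [⟨nat_lit 0, [⟨nat_lit 4, nat_lit 3168, nat_lit 7488, nat_lit 13536, nat_lit 12096, nat_lit 912, R6_282, R4_252, R6_19⟩]⟩, ⟨nat_lit 1, [⟨nat_lit 4, nat_lit 9072, nat_lit 7536, nat_lit 13584, nat_lit 14304, nat_lit 9360, R8_283, R4_298, R8_195⟩]⟩, ⟨nat_lit 3, [⟨nat_lit 4, nat_lit 11616, nat_lit 7584, nat_lit 13344, nat_lit 13344, nat_lit 11616, R4_278, R4_278, R4_242⟩]⟩]⟩,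
 ⟨nat_lit 7, [⟨nat_lit 0, [⟨nat_lit 4, nat_lit 4368, nat_lit 7632, nat_lit 48, nat_lit 14496, nat_lit 1392, R4_1, R5_302, R6_29⟩, ⟨nat_lit 7, nat_lit 4416, nat_lit 7728, nat_lit 528, nat_lit 4752, nat_lit 1392, R4_11, R11_99, R4_29⟩]⟩, ⟨nat_lit 1, [⟨nat_lit 4, nat_lit 10656, nat_lit 7680, nat_lit 2064, nat_lit 17184, nat_lit 9408, R5_43, R5_358, R8_196⟩, ⟨nat_lit 7, nat_lit 10704, nat_lit 7776, nat_lit 2112, nat_lit 4800, nat_lit 624, R5_44, R11_100, R5_13⟩]⟩]⟩]]]]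
noncomputable def N1064 : T3 (List N0) := [[[], [], [], [], [[], [], [], [], [⟨nat_lit 3, [⟨nat_lit 3, [⟨nat_lit 7, nat_lit 10560, nat_lit 12816, nat_lit 8784, nat_lit 7440, nat_lit 15552, R4_183, R2_155, R7_324⟩]⟩]⟩,
 ⟨nat_lit 4, [⟨nat_lit 7, [⟨nat_lit 4, nat_lit 15120, nat_lit 4368, nat_lit 4512, nat_lit 11712, nat_lit 14496, R6_94, R6_244, R6_302⟩, ⟨nat_lit 6, nat_lit 15696, nat_lit 4560, nat_lit 4560, nat_lit 12288, nat_lit 15696, R6_95, R8_256, R8_327⟩]⟩]⟩,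
 ⟨nat_lit 6, [⟨nat_lit 4, [⟨nat_lit 6, nat_lit 12144, nat_lit 2112, nat_lit 8352, nat_lit 7920, nat_lit 14688, R6_174, R5_165, R6_306⟩]⟩, ⟨nat_lit 6, [⟨nat_lit 6, nat_lit 14064, nat_lit 9840, nat_lit 8976, nat_lit 8016, nat_lit 14256, R4_187, R5_167, R4_297⟩]⟩, ⟨nat_lit 7, [⟨nat_lit 6, nat_lit 15840, nat_lit 6864, nat_lit 4560, nat_lit 7968, nat_lit 15744, R8_95, R5_166, R8_328⟩]⟩]⟩,
 ⟨nat_lit 7, [⟨nat_lit 3, [⟨nat_lit 7, nat_lit 10416, nat_lit 12240, nat_lit 4752, nat_lit 11040, nat_lit 15600, R7_99, R3_230, R7_325⟩]⟩, ⟨nat_lit 7, [⟨nat_lit 4, nat_lit 15264, nat_lit 5376, nat_lit 4752, nat_lit 10416, nat_lit 14544, R4_99, R13_217, R6_303⟩, ⟨nat_lit 6, nat_lit 15984, nat_lit 5712, nat_lit 4848, nat_lit 7968, nat_lit 15792, R4_101, R9_166, R8_329⟩, ⟨nat_lit 7, nat_lit 16464, nat_lit 5520, nat_lit 4800, nat_lit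 11376, nat_lit 14160, R4_100, R3_237, R4_295⟩]⟩]⟩], [], [], [⟨nat_lit 3, [⟨nat_lit 0, [⟨nat_lit 7, nat_lit 3744, nat_lit 2976, nat_lit 8688, nat_lit 8160, nat_lit 288, R6_181, R2_170, R7_6⟩]⟩, ⟨nat_lit 3, [⟨nat_lit 7, nat_lit 11712, nat_lit 3264, nat_lit 9312, nat_lit 8208, nat_lit 18864, R4_194, R2_171, R14_393⟩]⟩]⟩,
 ⟨nat_lit 4, [⟨nat_lit 7, [⟨nat_lit 4, nat_lit 17568, nat_lit 96, nat_lit 5040, nat_lit 12000, nat_lit 4752, R6_105, R6_250, R4_99⟩, ⟨nat_lit 6, nat_lit 18288, nat_lit 144, nat_lit 5088, nat_lit 12432, nat_lit 9168, R6_106, R8_259, R5_191⟩]⟩]⟩,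
 ⟨nat_lit 6, [⟨nat_lit 7, [⟨nat_lit 6, nat_lit 18432, nat_lit 2016, nat_lit 4992, nat_lit 10176, nat_lit 9552, R8_104, R5_212, R5_199⟩]⟩]⟩,
 ⟨nat_lit 7, [⟨nat_lit 3, [⟨nat_lit 4, nat_lit 10992, nat_lit 1248, nat_lit 5136, nat_lit 11040, nat_lit 5136, R7_107, R13_230, R7_107⟩, ⟨nat_lit 7, nat_lit 11568, nat_lit 1296, nat_lit 5184, nat_lit 11904, nat_lit 18816, R7_108, R3_248, R14_392⟩]⟩, ⟨nat_lit 7, [⟨nat_lit 4, nat_lit 17712, nat_lit 672, nat_lit 5328, nat_lit 10992, nat_lit 5328, R4_111, R13_229, R4_111⟩, ⟨nat_lit 6, nat_lit 18576, nat_lit 720, nat_lit 5376, nat_lit 8784, nat_lit 9936, R4_112, R9_183, R5_207⟩]⟩]⟩]], [[], [], [], [], [⟨nat_lit 4, [⟨nat_lit 7, [⟨nat_lit 4, nat_lit 15216, nat_lit 4608, nat_lit 5664, nat_lit 7440, nat_lit 16080, R6_118, R8_155, R6_335⟩, ⟨nat_lit 6, nat_lit 15792, nat_lit 4848,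 nat_lit 5712, nat_lit 13104, nat_lit 15984, R6_119, R9_273, R8_333⟩]⟩]⟩,
 ⟨nat_lit 6, [⟨nat_lit 4, [⟨nat_lit 6, nat_lit 12240, nat_lit 1968, nat_lit 8400, nat_lit 0, nat_lit 14784, R6_175, R0_0, R6_308⟩]⟩, ⟨nat_lit 6, [⟨nat_lit 6, nat_lit 14160, nat_lit 10896, nat_lit 9024, nat_lit 5568, nat_lit 14352, R4_188, R0_116, R4_299⟩]⟩, ⟨nat_lit 7, [⟨nat_lit 6, nat_lit 15936, nat_lit 7488, nat_lit 5328, nat_lit 7200, nat_lit 16032, R8_111, R0_150, R8_334⟩]⟩]⟩,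
 ⟨nat_lit 7, [⟨nat_lit 3, [⟨nat_lit 7, nat_lit 10512, nat_lit 12480, nat_lit 5616, nat_lit 12144, nat_lit 16320, R7_117, R0_253, R7_340⟩]⟩, ⟨nat_lit 7, [⟨nat_lit 4, nat_lit 15360, nat_lit 5712, nat_lit 6048, nat_lit 0, nat_lit 16128, R4_126, R9_0, R6_336⟩, ⟨nat_lit 7, nat_lit 16560, nat_lit 5904, nat_lit 6096, nat_lit 2160, nat_lit 15024, R4_127, R0_45, R4_313⟩]⟩]⟩], [], [], [⟨nat_lit 4, [⟨nat_lit 7, [⟨nat_lit 4, nat_lit 17664, nat_lit 288, nat_lit 6384, nat_lit 7488, nat_lit 7392, R6_133, R8_156, R4_154⟩, ⟨nat_lit 6, nat_lit 18384, nat_lit 336, nat_lit 6432, nat_lit 13248, nat_lit 9408, R6_134, R9_276, R5_196⟩]⟩]⟩,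
 ⟨nat_lit 6, [⟨nat_lit 7, [⟨nat_lit 6, nat_lit 18528, nat_lit 2544, nat_lit 5856, nat_lit 7248, nat_lit 9792, R8_122, R0_151, R5_204⟩]⟩]⟩,
 ⟨nat_lit 7, [⟨nat_lit 3, [⟨nat_lit 4, nat_lit 11088, nat_lit 1680, nat_lit 6240, nat_lit 480, nat_lit 7680, R7_130, R9_10, R7_160⟩, ⟨nat_lit 7, nat_lit 11664, nat_lit 1728, nat_lit 6288, nat_lit 12720, nat_lit 19056, R7_131, R0_265, R14_397⟩]⟩, ⟨nat_lit 7, [⟨nat_lit 4, nat_lit 17808, nat_lit 1008, nat_lit 6624, nat_lit 240, nat_lit 7728, R4_138, R9_5, R4_161⟩]⟩]⟩]], [[], [], [], [], [⟨nat_lit 0, [⟨nat_lit 2, [⟨nat_lit 0, nat_lit 7440, nat_lit 15168, nat_lit 6816, nat_lit 4608, nat_lit 15264, R6_142, R4_96, R6_318⟩, ⟨nat_lit 3, nat_lit 7728, nat_lit 15744, nat_lit 6864, nat_lit 7968, nat_lit 15840, R6_143, R5_166, R8_330⟩]⟩]⟩,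
 ⟨nat_lit 2, [⟨nat_lit 2, [⟨nat_lit 0, nat_lit 7488, nat_lit 15312, nat_lit 7392, nat_lit 288, nat_lit 15312, R4_154, R3_6, R6_319⟩, ⟨nat_lit 2, nat_lit 7632, nat_lit 16512, nat_lit 7440, nat_lit 8736, nat_lit 14640, R4_155, R10_182, R4_305⟩, ⟨nat_lit 3, nat_lit 7776, nat_lit 16032, nat_lit 7488, nat_lit 7200, nat_lit 15936, R4_156, R0_150, R8_332⟩]⟩, ⟨nat_lit 6, [⟨nat_lit 2, nat_lit 14400, nat_lit 10464, nat_lit 7584, nat_lit 8784, nat_lit 16080, R7_158, R10_183, R7_335⟩]⟩]⟩,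
 ⟨nat_lit 3, [⟨nat_lit 0, [⟨nat_lit 3, nat_lit 3120, nat_lit 12192, nat_lit 8448, nat_lit 10368, nat_lit 14736, R6_176, R11_216, R6_307⟩]⟩, ⟨nat_lit 2, [⟨nat_lit 3, nat_lit 7824, nat_lit 15888, nat_lit 6288, nat_lit 10416, nat_lit 15888, R8_131, R11_217, R8_331⟩]⟩, ⟨nat_lit 3, [⟨nat_lit 3, nat_lit 10752, nat_lit 14112, nat_lit 9072, nat_lit 10464, nat_lit 14304, R4_189, R11_218, R4_298⟩, ⟨nat_lit 7, nat_lit 10608, nat_lit 14352, nat_lit 9120, nat_lit 7968, nat_lit 16032, R4_190, R1_166, R7_334⟩]⟩]⟩,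
 ⟨nat_lit 4, [⟨nat_lit 7, [⟨nat_lit 4, nat_lit 15168, nat_lit 7440, nat_lit 6816, nat_lit 4608, nat_lit 15264, R6_142, R4_96, R6_318⟩, ⟨nat_lit 6, nat_lit 15744, nat_lit 7728, nat_lit 6864, nat_lit 7968, nat_lit 15840, R6_143, R5_166, R8_330⟩]⟩]⟩,
 ⟨nat_lit 6, [⟨nat_lit 4, [⟨nat_lit 6, nat_lit 12192, nat_lit 3120, nat_lit 8448, nat_lit 10368, nat_lit 14736, R6_176, R11_216, R6_307⟩]⟩, ⟨nat_lit 6, [⟨nat_lit 2, nat_lit 14352, nat_lit 10608, nat_lit 9120, nat_lit 7968, nat_lit 16032, R4_190, R1_166, R7_334⟩, ⟨nat_lit 6, nat_lit 14112, nat_lit 10752, nat_lit 9072, nat_lit 10464, nat_lit 14304, R4_189, R11_218, R4_298⟩]⟩, ⟨nat_lit 7, [⟨nat_lit 6, nat_lit 15888, nat_lit 7824, nat_lit 6288, nat_lit 10416, nat_lit 15888, R8_131, R11_217, R8_331⟩]⟩]⟩,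
 ⟨nat_lit 7, [⟨nat_lit 3, [⟨nat_lit 7, nat_lit 10464, nat_lit 14400, nat_lit 7584, nat_lit 8784, nat_lit 16080, R7_158, R10_183, R7_335⟩]⟩, ⟨nat_lit 7, [⟨nat_lit 4, nat_lit 15312, nat_lit 7488, nat_lit 7392, nat_lit 288, nat_lit 15312, R4_154, R3_6, R6_319⟩, ⟨nat_lit 6, nat_lit 16032, nat_lit 7776, nat_lit 7488, nat_lit 7200, nat_lit 15936, R4_156, R0_150, R8_332⟩, ⟨nat_lit 7, nat_lit 16512, nat_lit 7632, nat_lit 7440, nat_lit 8736, nat_lit 14640, R4_155, R10_182, R4_305⟩]⟩]⟩], [], [⟨nat_lit 0, [⟨nat_lit 2, [⟨nat_lit 0, nat_lit 8016, nat_lit 1488, nat_lit 6960, nat_lit 5184, nat_lit 20496, R6_145, R4_108, R13_427⟩, ⟨nat_lit 3, nat_lit 8688, nat_lit 1536, nat_lit 7008, nat_lit 8544, nat_lit 16848, R6_146, R5_178, R9_351⟩]⟩]⟩,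
 ⟨nat_lit 2, [⟨nat_lit 2, [⟨nat_lit 0, nat_lit 8064, nat_lit 3840, nat_lit 7584, nat_lit 3888, nat_lit 20544, R4_158, R3_81, R13_428⟩, ⟨nat_lit 2, nat_lit 8352, nat_lit 3936, nat_lit 7632, nat_lit 8976, nat_lit 3264, R4_159, R10_187, R3_68⟩, ⟨nat_lit 3, nat_lit 8736, nat_lit 3888, nat_lit 7680, nat_lit 7296, nat_lit 16896, R4_160, R0_152, R9_352⟩]⟩, ⟨nat_lit 6, [⟨nat_lit 2, nat_lit 14880, nat_lit 2928, nat_lit 7632, nat_lit 9024, nat_lit 14976, R7_159, R10_188, R2_312⟩]⟩]⟩,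
 ⟨nat_lit 3, [⟨nat_lit 0, [⟨nat_lit 3, nat_lit 3552, nat_lit 1872, nat_lit 9696, nat_lit 10656, nat_lit 288, R6_202, R11_222, R8_6⟩]⟩, ⟨nat_lit 2, [⟨nat_lit 3, nat_lit 8784, nat_lit 2400, nat_lit 6384, nat_lit 10704, nat_lit 16944, R8_133, R11_223, R9_353⟩]⟩, ⟨nat_lit 3, [⟨nat_lit 3, nat_lit 10848, nat_lit 2064, nat_lit 10656, nat_lit 10752, nat_lit 17184, R4_222, R11_224, R5_358⟩]⟩]⟩,
 ⟨nat_lit 6, [⟨nat_lit 6, [⟨nat_lit 2, nat_lit 14832, nat_lit 528, nat_lit 9168, nat_lit 8064, nat_lit 15024, R4_191, R1_168, R2_313⟩]⟩]⟩], [⟨nat_lit 0, [⟨nat_lit 2, [⟨nat_lit 3, nat_lit 9024, nat_lit 2016, nat_lit 6912, nat_lit 8256, nat_lit 2208, R6_144, R5_172, R5_46⟩]⟩]⟩,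
 ⟨nat_lit 2, [⟨nat_lit 2, [⟨nat_lit 3, nat_lit 9072, nat_lit 3552, nat_lit 7536, nat_lit 7392, nat_lit 2304, R4_157, R0_154, R5_48⟩]⟩]⟩,
 ⟨nat_lit 3, [⟨nat_lit 0, [⟨nat_lit 3, nat_lit 4272, nat_lit 2208, nat_lit 9456, nat_lit 10944, nat_lit 192, R6_197, R11_228, R4_4⟩, ⟨nat_lit 7, nat_lit 3792, nat_lit 2256, nat_lit 9504, nat_lit 8976, nat_lit 384, R6_198, R1_187, R7_8⟩]⟩, ⟨nat_lit 2, [⟨nat_lit 3, nat_lit 9120, nat_lit 2688, nat_lit 6336, nat_lit 10992, nat_lit 2400, R8_132, R11_229, R5_50⟩]⟩, ⟨nat_lit 3, [⟨nat_lit 7, nat_lit 11760, nat_lit 2352, nat_lit 10416, nat_lit 9024, nat_lit 18960, R4_217, R1_188, R14_395⟩]⟩]⟩,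
 ⟨nat_lit 4, [⟨nat_lit 7, [⟨nat_lit 4, nat_lit 17616, nat_lit 0, nat_lit 7056, nat_lit 5712, nat_lit 6048, R6_147, R4_119, R4_126⟩, ⟨nat_lit 6, nat_lit 18336, nat_lit 48, nat_lit 7104, nat_lit 8112, nat_lit 9312, R6_148, R5_169, R5_194⟩]⟩]⟩,
 ⟨nat_lit 6, [⟨nat_lit 7, [⟨nat_lit 6, nat_lit 18480, nat_lit 1152, nat_lit 6672, nat_lit 13440, nat_lit 9696, R8_139, R11_280, R5_202⟩]⟩]⟩,
 ⟨nat_lit 7, [⟨nat_lit 3, [⟨nat_lit 4, nat_lit 11040, nat_lit 480, nat_lit 7680, nat_lit 1680, nat_lit 6240, R7_160, R3_35, R7_130⟩, ⟨nat_lit 7, nat_lit 11616, nat_lit 528, nat_lit 7728, nat_lit 10416, nat_lit 18912, R7_161, R10_217, R14_394⟩]⟩, ⟨nat_lit 7, [⟨nat_lit 4, nat_lit 17760, nat_lit 240, nat_lit 7728, nat_lit 1008, nat_lit 6624, R4_161, R3_21, R4_138⟩, ⟨nat_lit 6, nat_lit 18624, nat_lit 288, nat_lit 7776, nat_lit 8304, nat_lit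 10032, R4_162, R0_173, R5_209⟩]⟩]⟩]], [[], [], [], [⟨nat_lit 3, [⟨nat_lit 0, [⟨nat_lit 4, nat_lit 1632, nat_lit 1392, nat_lit 7584, nat_lit 1392, nat_lit 3552, R6_158, R2_29, R6_74⟩, ⟨nat_lit 5, nat_lit 2352, nat_lit 1488, nat_lit 7680, nat_lit 864, nat_lit 1920, R6_160, R1_18, R8_40⟩, ⟨nat_lit 7, nat_lit 2832, nat_lit 1440, nat_lit 7632, nat_lit 6720, nat_lit 3408, R6_159, R12_140, R4_71⟩]⟩, ⟨nat_lit 3, [⟨nat_lit 4, nat_lit 9504, nat_lit 2016, nat_lit 8208, nat_lit 2016, nat_lit 8208, R4_171, R2_42, R4_171⟩, ⟨nat_lit 5, nat_lit 10032, nat_lit 2064, nat_lit 8256, nat_lit 1488, nat_lit 6192, R4_172, R1_31, R5_129⟩]⟩]⟩,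
 ⟨nat_lit 7, [⟨nat_lit 3, [⟨nat_lit 4, nat_lit 9456, nat_lit 240, nat_lit 7296, nat_lit 13632, nat_lit 9792, R7_152, R3_284, R4_204⟩, ⟨nat_lit 5, nat_lit 9984, nat_lit 288, nat_lit 7344, nat_lit 1584, nat_lit 6096, R7_153, R10_33, R5_127⟩]⟩]⟩], [], [], [], [⟨nat_lit 3, [⟨nat_lit 0, [⟨nat_lit 7, nat_lit 3840, nat_lit 11664, nat_lit 9120, nat_lit 6864, nat_lit 336, R6_190, R12_143, R7_7⟩]⟩, ⟨nat_lit 3, [⟨nat_lit 4, nat_lit 11184, nat_lit 13632, nat_lit 9792, nat_lit 240, nat_lit 7296, R4_204, R2_5, R7_152⟩, ⟨nat_lit 7, nat_lit 11808, nat_lit 13968, nat_lit 9840, nat_lit 6912, nat_lit 19008, R4_205, R12_144, R14_396⟩]⟩]⟩,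
 ⟨nat_lit 7, [⟨nat_lit 3, [⟨nat_lit 4, nat_lit 11136, nat_lit 12384, nat_lit 6768, nat_lit 12384, nat_lit 6768, R7_141, R3_258, R7_141⟩]⟩, ⟨nat_lit 7, [⟨nat_lit 4, nat_lit 17856, nat_lit 4368, nat_lit 7056, nat_lit 4368, nat_lit 7056, R4_147, R3_91, R4_147⟩, ⟨nat_lit 6, nat_lit 18672, nat_lit 4560, nat_lit 7104, nat_lit 11856, nat_lit 10080, R4_148, R0_247, R5_210⟩]⟩]⟩]]], [[[⟨nat_lit 0, [⟨nat_lit 0, [⟨nat_lit 5, nat_lit 384, nat_lit 5616, nat_lit 2496, nat_lit 5616, nat_lit 2496, R6_52, R4_117, R6_52⟩]⟩]⟩,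
 ⟨nat_lit 1, [⟨nat_lit 0, [⟨nat_lit 5, nat_lit 480, nat_lit 6288, nat_lit 2400, nat_lit 720, nat_lit 2640, R4_50, R3_15, R6_55⟩]⟩]⟩], [], [⟨nat_lit 0, [⟨nat_lit 0, [⟨nat_lit 1, nat_lit 1152, nat_lit 1200, nat_lit 2976, nat_lit 5712, nat_lit 2256, R6_62, R7_119, R7_47⟩, ⟨nat_lit 5, nat_lit 768, nat_lit 720, nat_lit 2640, nat_lit 6288, nat_lit 2400, R6_55, R4_131, R4_50⟩]⟩, ⟨nat_lit 2, [⟨nat_lit 1, nat_lit 7056, nat_lit 1296, nat_lit 8640, nat_lit 5808, nat_lit 2400, R13_180, R7_121, R2_50⟩]⟩]⟩,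
 ⟨nat_lit 1, [⟨nat_lit 0, [⟨nat_lit 1, nat_lit 1248, nat_lit 6384, nat_lit 2640, nat_lit 4128, nat_lit 2496, R4_55, R2_86, R7_52⟩, ⟨nat_lit 5, nat_lit 864, nat_lit 6048, nat_lit 2544, nat_lit 6048, nat_lit 2544, R4_53, R3_126, R4_53⟩]⟩, ⟨nat_lit 2, [⟨nat_lit 1, nat_lit 7200, nat_lit 6480, nat_lit 7008, nat_lit 4224, nat_lit 2832, R3_146, R2_88, R2_59⟩]⟩]⟩,
 ⟨nat_lit 3, [⟨nat_lit 0, [⟨nat_lit 1, nat_lit 1344, nat_lit 7632, nat_lit 3888, nat_lit 8784, nat_lit 2352, R8_81, R2_183, R7_49⟩]⟩, ⟨nat_lit 2, [⟨nat_lit 1, nat_lit 7296, nat_lit 7776, nat_lit 6240, nat_lit 9216, nat_lit 2544, R9_130, R2_192, R2_53⟩]⟩]⟩]], [], [[], [], [⟨nat_lit 0, [⟨nat_lit 0, [⟨nat_lit 1, nat_lit 1200, nat_lit 960, nat_lit 3024, nat_lit 15792, nat_lit 2304, R6_63, R14_329, R7_48⟩]⟩, ⟨nat_lit 2, [⟨nat_lit 1, nat_lit 7104, nat_lit 1008,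 nat_lit 8784, nat_lit 16224, nat_lit 2448, R13_183, R14_338, R2_51⟩]⟩]⟩,
 ⟨nat_lit 1, [⟨nat_lit 0, [⟨nat_lit 1, nat_lit 1296, nat_lit 1056, nat_lit 2688, nat_lit 12864, nat_lit 2544, R4_56, R12_268, R7_53⟩]⟩, ⟨nat_lit 2, [⟨nat_lit 1, nat_lit 7248, nat_lit 1104, nat_lit 7104, nat_lit 13296, nat_lit 2880, R3_148, R12_277, R2_60⟩]⟩]⟩,
 ⟨nat_lit 2, [⟨nat_lit 2, [⟨nat_lit 1, nat_lit 7152, nat_lit 1248, nat_lit 2688, nat_lit 13104, nat_lit 2496, R3_56, R12_273, R2_52⟩]⟩]⟩,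
 ⟨nat_lit 3, [⟨nat_lit 0, [⟨nat_lit 1, nat_lit 1392, nat_lit 1152, nat_lit 3984, nat_lit 6960, nat_lit 2400, R8_83, R12_145, R7_50⟩]⟩, ⟨nat_lit 2, [⟨nat_lit 1, nat_lit 7344, nat_lit 1200, nat_lit 6480, nat_lit 8496, nat_lit 2592, R9_135, R12_177, R2_54⟩]⟩]⟩], [], [], [], [⟨nat_lit 0, [⟨nat_lit 0, [⟨nat_lit 0, nat_lit 3312, nat_lit 576, nat_lit 2736, nat_lit 96, nat_lit 3840, R6_57, R7_2, R6_80⟩, ⟨nat_lit 1, nat_lit 3408, nat_lit 624, nat_lit 3072, nat_lit 15744, nat_lit 4080, R6_64, R14_328, R4_85⟩]⟩, ⟨nat_lit 2, [⟨nat_lit 0, nat_lit 8160, nat_lit 672, nat_lit 8688, nat_lit 5040, nat_lit 20352, R13_181, R7_105, R13_424⟩, ⟨nat_lit 1, nat_lit 8496, nat_lit 720, nat_lit 8736, nat_lit 16176, nat_lit 16848, R13_182, R14_337, R3_351⟩]⟩]⟩,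
 ⟨nat_lit 1, [⟨nat_lit 0, [⟨nat_lit 1, nat_lit 3456, nat_lit 768, nat_lit 2736, nat_lit 12816, nat_lit 4176, R4_57, R12_267, R4_87⟩]⟩, ⟨nat_lit 2, [⟨nat_lit 1, nat_lit 8592, nat_lit 816, nat_lit 7056, nat_lit 13248, nat_lit 16992, R3_147, R12_276, R3_354⟩]⟩]⟩,
 ⟨nat_lit 2, [⟨nat_lit 2, [⟨nat_lit 0, nat_lit 8256, nat_lit 1248, nat_lit 2304, nat_lit 3456, nat_lit 20400, R3_48, R2_72, R13_425⟩, ⟨nat_lit 1, nat_lit 8544, nat_lit 1296, nat_lit 2736, nat_lit 13152, nat_lit 16896, R3_57, R12_274, R3_352⟩, ⟨nat_lit 2, nat_lit 8448, nat_lit 1344, nat_lit 2448, nat_lit 2928, nat_lit 3360, R3_51, R1_61, R3_70⟩]⟩, ⟨nat_lit 6, [⟨nat_lit 2, nat_lit 15072, nat_lit 1200, nat_lit 6480, nat_lit 13392, nat_lit 14928, R2_135, R1_279, R2_311⟩]⟩]⟩,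
 ⟨nat_lit 3, [⟨nat_lit 0, [⟨nat_lit 0, nat_lit 3360, nat_lit 864, nat_lit 1680, nat_lit 1488, nat_lit 3888, R8_35, R2_31, R6_81⟩, ⟨nat_lit 1, nat_lit 3504, nat_lit 912, nat_lit 2880, nat_lit 6768, nat_lit 4128, R8_60, R12_141, R4_86⟩, ⟨nat_lit 3, nat_lit 3696, nat_lit 960, nat_lit 2496, nat_lit 960, nat_lit 2256, R8_52, R1_20, R8_47⟩]⟩, ⟨nat_lit 2, [⟨nat_lit 0, nat_lit 8304, nat_lit 1056, nat_lit 6336, nat_lit 8544, nat_lit 20448, R9_132, R2_178, R13_426⟩, ⟨nat_lit 1, nat_lit 8640, nat_lit 1104, nat_lit 6432, nat_lit 8160, nat_lit 16944, R9_134, R12_170, R3_353⟩, ⟨nat_lit 3, nat_lit 8976, nat_lit 1152, nat_lit 6384, nat_lit 9360, nat_lit 16800, R9_133, R1_195, R9_350⟩]⟩, ⟨nat_lit 3, [⟨nat_lit 3, nat_lit 10944, nat_lit 1008, nat_lit 6528, nat_lit 6384, nat_lit 17136, R5_136, R1_133, R5_357⟩]⟩]⟩]], [[⟨nat_lit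 0, [⟨nat_lit 0, [⟨nat_lit 5, nat_lit 432, nat_lit 8064, nat_lit 2544, nat_lit 8064, nat_lit 2544, R6_53, R5_168, R6_53⟩]⟩]⟩,
 ⟨nat_lit 1, [⟨nat_lit 0, [⟨nat_lit 5, nat_lit 528, nat_lit 8592, nat_lit 2448, nat_lit 576, nat_lit 2688, R4_51, R0_12, R6_56⟩]⟩]⟩,
 ⟨nat_lit 3, [⟨nat_lit 0, [⟨nat_lit 5, nat_lit 576, nat_lit 8352, nat_lit 3216, nat_lit 1776, nat_lit 2592, R8_67, R11_37, R6_54⟩]⟩]⟩], [], [⟨nat_lit 0, [⟨nat_lit 0, [⟨nat_lit 5, nat_lit 816, nat_lit 576, nat_lit 2688, nat_lit 8592, nat_lit 2448, R6_56, R5_179, R4_51⟩]⟩]⟩,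
 ⟨nat_lit 1, [⟨nat_lit 0, [⟨nat_lit 5, nat_lit 912, nat_lit 624, nat_lit 2592, nat_lit 624, nat_lit 2592, R4_54, R0_13, R4_54⟩]⟩]⟩,
 ⟨nat_lit 3, [⟨nat_lit 0, [⟨nat_lit 1, nat_lit 1440, nat_lit 720, nat_lit 3936, nat_lit 9600, nat_lit 2448, R8_82, R1_200, R7_51⟩, ⟨nat_lit 5, nat_lit 960, nat_lit 672, nat_lit 4368, nat_lit 1824, nat_lit 2496, R8_91, R11_38, R4_52⟩]⟩, ⟨nat_lit 2, [⟨nat_lit 1, nat_lit 7392, nat_lit 768, nat_lit 6288, nat_lit 10032, nat_lit 2640, R9_131, R1_209, R2_55⟩]⟩]⟩], [⟨nat_lit 0, [⟨nat_lit 0, [⟨nat_lit 5, nat_lit 2400, nat_lit 1776, nat_lit 2592, nat_lit 8352, nat_lit 2160, R6_54, R5_174, R8_45⟩]⟩]⟩,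
 ⟨nat_lit 1, [⟨nat_lit 0, [⟨nat_lit 5, nat_lit 2448, nat_lit 1824, nat_lit 2496, nat_lit 672, nat_lit 2304, R4_52, R0_14, R8_48⟩]⟩]⟩,
 ⟨nat_lit 3, [⟨nat_lit 0, [⟨nat_lit 5, nat_lit 2544, nat_lit 1872, nat_lit 3648, nat_lit 1872, nat_lit 2208, R8_76, R11_39, R8_46⟩]⟩, ⟨nat_lit 3, [⟨nat_lit 5, nat_lit 10128, nat_lit 1920, nat_lit 6480, nat_lit 1920, nat_lit 6480, R5_135, R11_40, R5_135⟩]⟩]⟩]], [[], [], [], [], [⟨nat_lit 3, [⟨nat_lit 3, [⟨nat_lit 7, nat_lit 10656, nat_lit 12576, nat_lit 6000, nat_lit 7680, nat_lit 17328, R5_125, R2_160, R7_361⟩]⟩]⟩], [], [], [⟨nat_lit 3, [⟨nat_lit 0, [⟨nat_lit 7, nat_lit 3888, nat_lit 7632, nat_lit 1344, nat_lit 8784, nat_lit 2352, R8_28, R2_183, R7_49⟩]⟩, ⟨nat_lit 3, [⟨nat_lit 7, nat_lit 11856, nat_lit 7680, nat_lit 6048, nat_lit 8832, nat_lit 19248, R5_126, R2_184, R14_401⟩]⟩]⟩]],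 [], [[], [], [], [], [⟨nat_lit 0, [⟨nat_lit 0, [⟨nat_lit 3, nat_lit 3168, nat_lit 8208, nat_lit 2832, nat_lit 1776, nat_lit 16512, R6_59, R5_37, R6_344⟩]⟩, ⟨nat_lit 2, [⟨nat_lit 0, nat_lit 7536, nat_lit 1200, nat_lit 8400, nat_lit 4656, nat_lit 15360, R13_175, R4_97, R6_320⟩, ⟨nat_lit 3, nat_lit 7872, nat_lit 9552, nat_lit 8448, nat_lit 10176, nat_lit 18432, R13_176, R5_212, R8_384⟩]⟩]⟩,
 ⟨nat_lit 2, [⟨nat_lit 2, [⟨nat_lit 0, nat_lit 7584, nat_lit 1344, nat_lit 2256, nat_lit 384, nat_lit 15408, R3_47, R3_8, R6_321⟩, ⟨nat_lit 2, nat_lit 7680, nat_lit 13248, nat_lit 2400, nat_lit 8832, nat_lit 14688, R3_50, R10_184, R4_306⟩, ⟨nat_lit 3, nat_lit 7920, nat_lit 9792, nat_lit 2544, nat_lit 7248, nat_lit 18528, R3_53, R0_151, R8_386⟩]⟩, ⟨nat_lit 6, [⟨nat_lit 2, nat_lit 14544, nat_lit 12960, nat_lit 6384, nat_lit 8880,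 nat_lit 16224, R2_133, R10_185, R7_338⟩]⟩]⟩,
 ⟨nat_lit 3, [⟨nat_lit 0, [⟨nat_lit 3, nat_lit 3216, nat_lit 8352, nat_lit 576, nat_lit 10512, nat_lit 16560, R8_12, R11_219, R6_345⟩]⟩, ⟨nat_lit 2, [⟨nat_lit 3, nat_lit 7968, nat_lit 9696, nat_lit 6096, nat_lit 10560, nat_lit 18480, R9_127, R11_220, R8_385⟩]⟩, ⟨nat_lit 3, [⟨nat_lit 3, nat_lit 10800, nat_lit 8928, nat_lit 6288, nat_lit 10608, nat_lit 15216, R5_131, R11_221, R4_317⟩, ⟨nat_lit 7, nat_lit 10704, nat_lit 16320, nat_lit 6336, nat_lit 8208, nat_lit 17760, R5_132, R1_171, R7_370⟩]⟩]⟩], [], [⟨nat_lit 0, [⟨nat_lit 0, [⟨nat_lit 0, nat_lit 3264, nat_lit 288, nat_lit 2784, nat_lit 0, nat_lit 3792, R6_58, R4_0, R6_79⟩, ⟨nat_lit 3, nat_lit 3600, nat_lit 336, nat_lit 2928, nat_lit 1872, nat_lit 1536, R6_61, R5_39, R8_32⟩]⟩, ⟨nat_lit 2, [⟨nat_lit 0, nat_lit 8112,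 nat_lit 1056, nat_lit 8544, nat_lit 5232, nat_lit 20592, R13_178, R4_109, R13_429⟩, ⟨nat_lit 3, nat_lit 8832, nat_lit 1104, nat_lit 8592, nat_lit 10368, nat_lit 16992, R13_179, R5_216, R9_354⟩]⟩]⟩,
 ⟨nat_lit 2, [⟨nat_lit 2, [⟨nat_lit 0, nat_lit 8208, nat_lit 3840, nat_lit 2352, nat_lit 3984, nat_lit 20640, R3_49, R3_83, R13_430⟩, ⟨nat_lit 2, nat_lit 8400, nat_lit 3936, nat_lit 2496, nat_lit 9072, nat_lit 3312, R3_52, R10_189, R3_69⟩, ⟨nat_lit 3, nat_lit 8880, nat_lit 3888, nat_lit 2640, nat_lit 7344, nat_lit 17040, R3_55, R0_153, R9_355⟩]⟩, ⟨nat_lit 6, [⟨nat_lit 2, nat_lit 15024, nat_lit 2928, nat_lit 6432, nat_lit 9120, nat_lit 15168, R2_134, R10_190, R2_316⟩]⟩]⟩,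
 ⟨nat_lit 3, [⟨nat_lit 0, [⟨nat_lit 3, nat_lit 3648, nat_lit 1872, nat_lit 2544, nat_lit 10800, nat_lit 2208, R8_53, R11_225, R8_46⟩]⟩, ⟨nat_lit 2, [⟨nat_lit 3, nat_lit 8928, nat_lit 2400, nat_lit 6192, nat_lit 10848, nat_lit 17088, R9_129, R11_226, R9_356⟩]⟩, ⟨nat_lit 3, [⟨nat_lit 3, nat_lit 10896, nat_lit 2064, nat_lit 6432, nat_lit 10896, nat_lit 17232, R5_134, R11_227, R5_359⟩]⟩]⟩], [⟨nat_lit 0, [⟨nat_lit 0, [⟨nat_lit 3, nat_lit 4320, nat_lit 96, nat_lit 2880, nat_lit 1824, nat_lit 2016, R6_60, R5_38, R4_42⟩]⟩, ⟨nat_lit 2, [⟨nat_lit 3, nat_lit 9168, nat_lit 336, nat_lit 8496, nat_lit 10272, nat_lit 2256, R13_177, R5_214, R5_47⟩]⟩]⟩,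
 ⟨nat_lit 2, [⟨nat_lit 2, [⟨nat_lit 3, nat_lit 9216, nat_lit 2016, nat_lit 2592, nat_lit 7440, nat_lit 2352, R3_54, R0_155, R5_49⟩]⟩]⟩,
 ⟨nat_lit 3, [⟨nat_lit 0, [⟨nat_lit 3, nat_lit 4368, nat_lit 672, nat_lit 960, nat_lit 11040, nat_lit 2496, R8_20, R11_230, R4_52⟩, ⟨nat_lit 7, nat_lit 3936, nat_lit 720, nat_lit 1440, nat_lit 9600, nat_lit 2448, R8_30, R1_200, R7_51⟩]⟩, ⟨nat_lit 2, [⟨nat_lit 3, nat_lit 9264, nat_lit 1152, nat_lit 6144, nat_lit 11088, nat_lit 2496, R9_128, R11_231, R5_52⟩]⟩, ⟨nat_lit 3, [⟨nat_lit 7, nat_lit 11904, nat_lit 816, nat_lit 6384, nat_lit 9648, nat_lit 19296, R5_133, R1_201, R14_402⟩]⟩]⟩]], [[], [], [], [⟨nat_lit 3, [⟨nat_lit 0, [⟨nat_lit 4, nat_lit 1680, nat_lit 864, nat_lit 3360, nat_lit 1488, nat_lit 3888, R8_70, R2_31, R6_81⟩, ⟨nat_lit 5, nat_lit 2496, nat_lit 960, nat_lit 3696,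 nat_lit 960, nat_lit 2256, R8_77, R1_20, R8_47⟩, ⟨nat_lit 7, nat_lit 2880, nat_lit 912, nat_lit 3504, nat_lit 6768, nat_lit 4128, R8_73, R12_141, R4_86⟩]⟩, ⟨nat_lit 3, [⟨nat_lit 4, nat_lit 9552, nat_lit 1488, nat_lit 6192, nat_lit 2064, nat_lit 8256, R5_129, R2_43, R4_172⟩, ⟨nat_lit 5, nat_lit 10080, nat_lit 1536, nat_lit 6240, nat_lit 1536, nat_lit 6240, R5_130, R1_32, R5_130⟩]⟩]⟩], [], [], [], [⟨nat_lit 3, [⟨nat_lit 0, [⟨nat_lit 7, nat_lit 3984, nat_lit 1152, nat_lit 1392, nat_lit 6960, nat_lit 2400, R8_29, R12_145, R7_50⟩]⟩, ⟨nat_lit 3, [⟨nat_lit 4, nat_lit 11232, nat_lit 1584, nat_lit 6096, nat_lit 288, nat_lit 7344, R5_127, R2_6, R7_153⟩, ⟨nat_lit 7, nat_lit 11952, nat_lit 1632, nat_lit 6144, nat_lit 7008, nat_lit 19344, R5_128, R12_146, R14_403⟩]⟩]⟩]]], [[], [], [], [], [[], [], [], [], [⟨nat_lit 4, [⟨nat_lit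 4, [⟨nat_lit 6, nat_lit 12288, nat_lit 15408, nat_lit 14832, nat_lit 15408, nat_lit 14832, R6_309, R8_321, R6_309⟩]⟩, ⟨nat_lit 7, [⟨nat_lit 4, nat_lit 15408, nat_lit 12288, nat_lit 15408, nat_lit 14832, nat_lit 14832, R8_321, R6_309, R6_309⟩, ⟨nat_lit 6, nat_lit 16080, nat_lit 16080, nat_lit 16080, nat_lit 16080, nat_lit 16080, R8_335, R8_335, R8_335⟩]⟩]⟩,
 ⟨nat_lit 6, [⟨nat_lit 4, [⟨nat_lit 6, nat_lit 12432, nat_lit 15552, nat_lit 10704, nat_lit 9168, nat_lit 14880, R13_223, R5_191, R6_310⟩]⟩, ⟨nat_lit 6, [⟨nat_lit 6, nat_lit 14208, nat_lit 16608, nat_lit 16368, nat_lit 9264, nat_lit 14400, R3_341, R5_193, R4_300⟩]⟩, ⟨nat_lit 7, [⟨nat_lit 6, nat_lit 16224, nat_lit 16368, nat_lit 8400, nat_lit 9216, nat_lit 16128, R9_175, R5_192, R8_336⟩]⟩]⟩,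
 ⟨nat_lit 7, [⟨nat_lit 7, [⟨nat_lit 4, nat_lit 15552, nat_lit 12432, nat_lit 9168, nat_lit 10704, nat_lit 14880, R5_191, R13_223, R6_310⟩, ⟨nat_lit 6, nat_lit 16368, nat_lit 16224, nat_lit 9216, nat_lit 8400, nat_lit 16176, R5_192, R9_175, R8_337⟩, ⟨nat_lit 7, nat_lit 16608, nat_lit 14208, nat_lit 9264, nat_lit 16368, nat_lit 14400, R5_193, R3_341, R4_300⟩]⟩]⟩], [⟨nat_lit 4, [⟨nat_lit 4, [⟨nat_lit 4, nat_lit 12576, nat_lit 7920, nat_lit 14688, nat_lit 16416, nat_lit 8352, R6_306, R6_342, R6_174⟩, ⟨nat_lit 6, nat_lit 12720, nat_lit 9168, nat_lit 14880, nat_lit 15552, nat_lit 19968, R6_310, R8_324, R13_416⟩]⟩, ⟨nat_lit 5, [⟨nat_lit 4, nat_lit 13488, nat_lit 8016, nat_lit 14256, nat_lit 17088, nat_lit 8976, R4_297, R6_356, R4_187⟩, ⟨nat_lit 6, nat_lit 13776, nat_lit 9264, nat_lit 14400, nat_lit 16608, nat_lit 16368,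 R4_300, R8_346, R3_341⟩]⟩, ⟨nat_lit 7, [⟨nat_lit 4, nat_lit 16752, nat_lit 7968, nat_lit 15504, nat_lit 16752, nat_lit 4560, R8_323, R6_349, R8_95⟩, ⟨nat_lit 6, nat_lit 17040, nat_lit 9216, nat_lit 16176, nat_lit 16368, nat_lit 16272, R8_337, R8_341, R9_339⟩]⟩]⟩,
 ⟨nat_lit 6, [⟨nat_lit 4, [⟨nat_lit 6, nat_lit 12864, nat_lit 11328, nat_lit 10848, nat_lit 11328, nat_lit 20016, R13_226, R5_236, R13_417⟩]⟩, ⟨nat_lit 5, [⟨nat_lit 6, nat_lit 13920, nat_lit 11424, nat_lit 8688, nat_lit 11472, nat_lit 16416, R3_181, R5_239, R3_342⟩]⟩, ⟨nat_lit 6, [⟨nat_lit 6, nat_lit 14592, nat_lit 11472, nat_lit 16416, nat_lit 11424, nat_lit 8688, R3_342, R5_238, R3_181⟩]⟩, ⟨nat_lit 7, [⟨nat_lit 6, nat_lit 17184, nat_lit 11376, nat_lit 8544, nat_lit 11376, nat_lit 16320, R9_178, R5_237, R9_340⟩]⟩]⟩,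
 ⟨nat_lit 7, [⟨nat_lit 7, [⟨nat_lit 4, nat_lit 16896, nat_lit 10176, nat_lit 9552, nat_lit 12624, nat_lit 4992, R5_199, R13_263, R8_104⟩, ⟨nat_lit 6, nat_lit 17328, nat_lit 11040, nat_lit 9600, nat_lit 9888, nat_lit 16368, R5_200, R9_206, R9_341⟩, ⟨nat_lit 7, nat_lit 17424, nat_lit 10656, nat_lit 9648, nat_lit 17664, nat_lit 16944, R5_201, R3_368, R5_353⟩]⟩]⟩], [], [⟨nat_lit 4, [⟨nat_lit 7, [⟨nat_lit 4, nat_lit 17904, nat_lit 7968, nat_lit 15456, nat_lit 15456, nat_lit 4848, R8_322, R6_322, R4_101⟩, ⟨nat_lit 6, nat_lit 18720, nat_lit 8400, nat_lit 16128, nat_lit 16224, nat_lit 9216, R8_336, R8_338, R5_192⟩]⟩]⟩,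
 ⟨nat_lit 6, [⟨nat_lit 7, [⟨nat_lit 6, nat_lit 18816, nat_lit 9888, nat_lit 8688, nat_lit 11040, nat_lit 9600, R9_181, R5_230, R5_200⟩]⟩]⟩,
 ⟨nat_lit 7, [⟨nat_lit 7, [⟨nat_lit 4, nat_lit 18000, nat_lit 8784, nat_lit 9936, nat_lit 12240, nat_lit 5376, R5_207, R13_255, R4_112⟩, ⟨nat_lit 6, nat_lit 18912, nat_lit 9504, nat_lit 9984, nat_lit 9504, nat_lit 9984, R5_208, R9_198, R5_208⟩]⟩]⟩]], [[], [], [], [], [⟨nat_lit 4, [⟨nat_lit 4, [⟨nat_lit 6, nat_lit 12384, nat_lit 960, nat_lit 14928, nat_lit 15984, nat_lit 15024, R6_311, R9_333, R6_313⟩]⟩, ⟨nat_lit 7, [⟨nat_lit 4, nat_lit 15504, nat_lit 7968, nat_lit 16752, nat_lit 7728, nat_lit 16752, R8_349, R8_161, R6_349⟩, ⟨nat_lit 6, nat_lit 16176, nat_lit 9216, nat_lit 17040, nat_lit 16272, nat_lit 16368, R8_355, R9_339, R8_341⟩]⟩]⟩,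
 ⟨nat_lit 6, [⟨nat_lit 4, [⟨nat_lit 6, nat_lit 12528, nat_lit 1104, nat_lit 10752, nat_lit 144, nat_lit 15072, R13_224, R0_3, R6_314⟩]⟩, ⟨nat_lit 6, [⟨nat_lit 6, nat_lit 14304, nat_lit 13152, nat_lit 16464, nat_lit 5664, nat_lit 14496, R3_343, R0_118, R4_302⟩]⟩, ⟨nat_lit 7, [⟨nat_lit 6, nat_lit 16320, nat_lit 9456, nat_lit 8448, nat_lit 7632, nat_lit 16416, R9_176, R0_159, R8_342⟩]⟩]⟩,
 ⟨nat_lit 7, [⟨nat_lit 7, [⟨nat_lit 4, nat_lit 15648, nat_lit 8112, nat_lit 9312, nat_lit 48, nat_lit 16800, R5_194, R9_1, R6_350⟩, ⟨nat_lit 7, nat_lit 16704, nat_lit 8832, nat_lit 9360, nat_lit 2256, nat_lit 15312, R5_195, R0_47, R4_319⟩]⟩]⟩], [⟨nat_lit 4, [⟨nat_lit 4, [⟨nat_lit 4, nat_lit 12672, nat_lit 10368, nat_lit 14736, nat_lit 3120, nat_lit 8448, R6_307, R8_65, R6_176⟩, ⟨nat_lit 6, nat_lit 12816, nat_lit 11616, nat_lit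 14976, nat_lit 16128, nat_lit 20160, R6_312, R9_336, R13_420⟩]⟩, ⟨nat_lit 5, [⟨nat_lit 4, nat_lit 13584, nat_lit 10464, nat_lit 14304, nat_lit 10752, nat_lit 9072, R4_298, R8_224, R4_189⟩, ⟨nat_lit 6, nat_lit 13872, nat_lit 11712, nat_lit 14448, nat_lit 16656, nat_lit 16560, R4_301, R9_347, R3_345⟩]⟩, ⟨nat_lit 7, [⟨nat_lit 4, nat_lit 16848, nat_lit 10416, nat_lit 16848, nat_lit 7824, nat_lit 6288, R8_351, R8_163, R8_131⟩, ⟨nat_lit 6, nat_lit 17136, nat_lit 11664, nat_lit 17136, nat_lit 16560, nat_lit 16560, R8_357, R9_345, R9_345⟩]⟩]⟩,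
 ⟨nat_lit 6, [⟨nat_lit 4, [⟨nat_lit 6, nat_lit 12960, nat_lit 14304, nat_lit 10896, nat_lit 192, nat_lit 20208, R13_227, R0_4, R13_421⟩]⟩, ⟨nat_lit 5, [⟨nat_lit 6, nat_lit 14016, nat_lit 14400, nat_lit 8736, nat_lit 9888, nat_lit 16608, R3_182, R0_206, R3_346⟩]⟩, ⟨nat_lit 6, [⟨nat_lit 6, nat_lit 14688, nat_lit 14448, nat_lit 16512, nat_lit 5712, nat_lit 8784, R3_344, R0_119, R3_183⟩]⟩, ⟨nat_lit 7, [⟨nat_lit 6, nat_lit 17280, nat_lit 14352, nat_lit 8592, nat_lit 7728, nat_lit 16608, R9_179, R0_161, R9_346⟩]⟩]⟩,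
 ⟨nat_lit 7, [⟨nat_lit 7, [⟨nat_lit 4, nat_lit 16992, nat_lit 13440, nat_lit 9696, nat_lit 1152, nat_lit 6672, R5_202, R9_24, R8_139⟩, ⟨nat_lit 7, nat_lit 17520, nat_lit 13920, nat_lit 9744, nat_lit 3936, nat_lit 17040, R5_203, R0_82, R5_355⟩]⟩]⟩], [], [⟨nat_lit 4, [⟨nat_lit 7, [⟨nat_lit 4, nat_lit 17952, nat_lit 7200, nat_lit 16800, nat_lit 7776, nat_lit 7488, R8_350, R8_162, R4_156⟩, ⟨nat_lit 6, nat_lit 18768, nat_lit 7632, nat_lit 17088, nat_lit 16416, nat_lit 9456, R8_356, R9_342, R5_197⟩]⟩]⟩,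
 ⟨nat_lit 6, [⟨nat_lit 7, [⟨nat_lit 6, nat_lit 18864, nat_lit 9024, nat_lit 8736, nat_lit 7680, nat_lit 9840, R9_182, R0_160, R5_205⟩]⟩]⟩,
 ⟨nat_lit 7, [⟨nat_lit 7, [⟨nat_lit 4, nat_lit 18048, nat_lit 8304, nat_lit 10032, nat_lit 288, nat_lit 7776, R5_209, R9_6, R4_162⟩]⟩]⟩]], [[], [], [], [], [⟨nat_lit 2, [⟨nat_lit 6, [⟨nat_lit 2, nat_lit 14496, nat_lit 10848, nat_lit 8016, nat_lit 8928, nat_lit 16176, R2_167, R10_186, R7_337⟩]⟩]⟩,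
 ⟨nat_lit 4, [⟨nat_lit 4, [⟨nat_lit 6, nat_lit 12336, nat_lit 1824, nat_lit 15024, nat_lit 960, nat_lit 14928, R6_313, R5_20, R6_311⟩]⟩, ⟨nat_lit 7, [⟨nat_lit 4, nat_lit 15456, nat_lit 7968, nat_lit 17904, nat_lit 4848, nat_lit 15456, R8_373, R4_101, R6_322⟩, ⟨nat_lit 6, nat_lit 16128, nat_lit 8400, nat_lit 18720, nat_lit 9216, nat_lit 16224, R8_390, R5_192, R8_338⟩]⟩]⟩,
 ⟨nat_lit 6, [⟨nat_lit 4, [⟨nat_lit 6, nat_lit 12480, nat_lit 1872, nat_lit 10800, nat_lit 11616, nat_lit 14976, R13_225, R11_242, R6_312⟩]⟩, ⟨nat_lit 6, [⟨nat_lit 2, nat_lit 14448, nat_lit 10992, nat_lit 16224, nat_lit 8016, nat_lit 16128, R3_338, R1_167, R7_336⟩, ⟨nat_lit 6, nat_lit 14256, nat_lit 11376, nat_lit 16560, nat_lit 11712, nat_lit 14448, R3_345, R11_244, R4_301⟩]⟩, ⟨nat_lit 7, [⟨nat_lit 6, nat_lit 16272, nat_lit 8496, nat_lit 8496,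 nat_lit 11664, nat_lit 16272, R9_177, R11_243, R8_339⟩]⟩]⟩,
 ⟨nat_lit 7, [⟨nat_lit 7, [⟨nat_lit 4, nat_lit 15600, nat_lit 8016, nat_lit 9408, nat_lit 336, nat_lit 15504, R5_196, R3_7, R6_323⟩, ⟨nat_lit 6, nat_lit 16416, nat_lit 8448, nat_lit 9456, nat_lit 7632, nat_lit 16320, R5_197, R0_159, R8_340⟩, ⟨nat_lit 7, nat_lit 16656, nat_lit 8256, nat_lit 9504, nat_lit 9456, nat_lit 14736, R5_198, R10_197, R4_307⟩]⟩]⟩], [⟨nat_lit 2, [⟨nat_lit 6, [⟨nat_lit 2, nat_lit 14784, nat_lit 9360, nat_lit 8064, nat_lit 9216, nat_lit 14688, R2_168, R10_192, R2_306⟩]⟩]⟩,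
 ⟨nat_lit 4, [⟨nat_lit 4, [⟨nat_lit 4, nat_lit 12624, nat_lit 0, nat_lit 14784, nat_lit 1968, nat_lit 8400, R6_308, R4_41, R6_175⟩, ⟨nat_lit 6, nat_lit 12768, nat_lit 144, nat_lit 15072, nat_lit 1104, nat_lit 20064, R6_314, R5_23, R13_418⟩]⟩, ⟨nat_lit 5, [⟨nat_lit 4, nat_lit 13536, nat_lit 5568, nat_lit 14352, nat_lit 10896, nat_lit 9024, R4_299, R4_227, R4_188⟩, ⟨nat_lit 6, nat_lit 13824, nat_lit 5664, nat_lit 14496, nat_lit 13152, nat_lit 16464, R4_302, R5_274, R3_343⟩]⟩, ⟨nat_lit 7, [⟨nat_lit 4, nat_lit 16800, nat_lit 7200, nat_lit 17952, nat_lit 7488, nat_lit 5328, R8_374, R4_156, R8_111⟩, ⟨nat_lit 6, nat_lit 17088, nat_lit 7632, nat_lit 18768, nat_lit 9456, nat_lit 16416, R8_391, R5_197, R9_342⟩]⟩]⟩,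
 ⟨nat_lit 6, [⟨nat_lit 4, [⟨nat_lit 6, nat_lit 12912, nat_lit 192, nat_lit 10944, nat_lit 14304, nat_lit 20112, R13_228, R11_298, R13_419⟩]⟩, ⟨nat_lit 5, [⟨nat_lit 6, nat_lit 13968, nat_lit 5712, nat_lit 8784, nat_lit 14448, nat_lit 16512, R3_183, R11_301, R3_344⟩]⟩, ⟨nat_lit 6, [⟨nat_lit 2, nat_lit 14736, nat_lit 9504, nat_lit 16272, nat_lit 8160, nat_lit 14640, R3_339, R1_170, R2_305⟩, ⟨nat_lit 6, nat_lit 14640, nat_lit 9888, nat_lit 16608, nat_lit 14400, nat_lit 8736, R3_346, R11_300, R3_182⟩]⟩, ⟨nat_lit 7, [⟨nat_lit 6, nat_lit 17232, nat_lit 7728, nat_lit 8640, nat_lit 14352, nat_lit 16464, R9_180, R11_299, R9_343⟩]⟩]⟩,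
 ⟨nat_lit 7, [⟨nat_lit 7, [⟨nat_lit 4, nat_lit 16944, nat_lit 7248, nat_lit 9792, nat_lit 2544, nat_lit 5856, R5_204, R3_53, R8_122⟩, ⟨nat_lit 6, nat_lit 17376, nat_lit 7680, nat_lit 9840, nat_lit 9024, nat_lit 16512, R5_205, R0_188, R9_344⟩, ⟨nat_lit 7, nat_lit 17472, nat_lit 7488, nat_lit 9888, nat_lit 11808, nat_lit 16992, R5_206, R10_246, R5_354⟩]⟩]⟩], [⟨nat_lit 2, [⟨nat_lit 6, [⟨nat_lit 2, nat_lit 14976, nat_lit 9696, nat_lit 8112, nat_lit 9168, nat_lit 15072, R2_169, R10_191, R2_314⟩]⟩]⟩,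
 ⟨nat_lit 6, [⟨nat_lit 6, [⟨nat_lit 2, nat_lit 14928, nat_lit 9552, nat_lit 16320, nat_lit 8112, nat_lit 15120, R3_340, R1_169, R2_315⟩]⟩]⟩]], [[], [], [], [], [], [], [], [⟨nat_lit 7, [⟨nat_lit 7, [⟨nat_lit 4, nat_lit 18096, nat_lit 11856, nat_lit 10080, nat_lit 4560, nat_lit 7104, R5_210, R3_95, R4_148⟩, ⟨nat_lit 6, nat_lit 18960, nat_lit 14736, nat_lit 10128, nat_lit 14736, nat_lit 10128, R5_211, R0_307, R5_211⟩]⟩]⟩]]], [[], [], [], [], [[], [], [], [⟨nat_lit 3, [⟨nat_lit 0, [⟨nat_lit 7, nat_lit 3024, nat_lit 7104, nat_lit 3840, nat_lit 7104, nat_lit 3840, R4_80, R2_148, R4_80⟩]⟩]⟩,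
 ⟨nat_lit 4, [⟨nat_lit 3, [⟨nat_lit 4, nat_lit 9600, nat_lit 7440, nat_lit 15744, nat_lit 12336, nat_lit 8784, R7_328, R6_257, R4_183⟩, ⟨nat_lit 5, nat_lit 10176, nat_lit 7680, nat_lit 16464, nat_lit 12576, nat_lit 6000, R7_343, R4_262, R5_125⟩]⟩]⟩,
 ⟨nat_lit 7, [⟨nat_lit 0, [⟨nat_lit 4, nat_lit 1728, nat_lit 8160, nat_lit 3264, nat_lit 9792, nat_lit 1872, R7_68, R13_204, R6_39⟩, ⟨nat_lit 5, nat_lit 2592, nat_lit 8784, nat_lit 4128, nat_lit 7632, nat_lit 2016, R7_86, R3_159, R8_42⟩, ⟨nat_lit 7, nat_lit 2928, nat_lit 9696, nat_lit 3792, nat_lit 12768, nat_lit 1728, R7_79, R3_266, R4_36⟩]⟩, ⟨nat_lit 3, [⟨nat_lit 4, nat_lit 9696, nat_lit 8208, nat_lit 6144, nat_lit 9840, nat_lit 9312, R14_128, R13_205, R4_194⟩, ⟨nat_lit 5, nat_lit 10272, nat_lit 8832, nat_lit 6192, nat_lit 7680, nat_lit 6048, R14_129, R3_160, R5_126⟩]⟩]⟩],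 [], [], [], [⟨nat_lit 3, [⟨nat_lit 0, [⟨nat_lit 7, nat_lit 4176, nat_lit 12768, nat_lit 1728, nat_lit 9696, nat_lit 816, R4_36, R2_202, R7_17⟩]⟩]⟩,
 ⟨nat_lit 4, [⟨nat_lit 3, [⟨nat_lit 4, nat_lit 11280, nat_lit 11040, nat_lit 15696, nat_lit 13008, nat_lit 4752, R7_327, R6_271, R7_99⟩]⟩, ⟨nat_lit 7, [⟨nat_lit 4, nat_lit 18144, nat_lit 11376, nat_lit 14160, nat_lit 13344, nat_lit 4800, R4_295, R6_278, R4_100⟩, ⟨nat_lit 6, nat_lit 19008, nat_lit 16368, nat_lit 14400, nat_lit 14208, nat_lit 9264, R4_300, R8_296, R5_193⟩]⟩]⟩,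
 ⟨nat_lit 6, [⟨nat_lit 7, [⟨nat_lit 6, nat_lit 19152, nat_lit 17664, nat_lit 16944, nat_lit 10656, nat_lit 9648, R5_353, R5_222, R5_201⟩]⟩]⟩,
 ⟨nat_lit 7, [⟨nat_lit 0, [⟨nat_lit 7, nat_lit 4032, nat_lit 14352, nat_lit 1824, nat_lit 14352, nat_lit 1392, R7_38, R3_299, R7_29⟩]⟩, ⟨nat_lit 3, [⟨nat_lit 4, nat_lit 11424, nat_lit 11904, nat_lit 6048, nat_lit 11808, nat_lit 5184, R14_126, R13_246, R7_108⟩, ⟨nat_lit 7, nat_lit 12000, nat_lit 14592, nat_lit 6096, nat_lit 14592, nat_lit 19104, R14_127, R3_304, R14_398⟩]⟩]⟩]], [[], [], [], [⟨nat_lit 4, [⟨nat_lit 3, [⟨nat_lit 4, nat_lit 9648, nat_lit 7968, nat_lit 16800, nat_lit 14352, nat_lit 9120, R7_350, R8_299, R4_190⟩, ⟨nat_lit 5, nat_lit 10224, nat_lit 8208, nat_lit 17088, nat_lit 16320, nat_lit 6336, R7_356, R5_340, R5_132⟩]⟩]⟩,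
 ⟨nat_lit 7, [⟨nat_lit 0, [⟨nat_lit 4, nat_lit 1776, nat_lit 8976, nat_lit 3360, nat_lit 2256, nat_lit 1968, R7_70, R9_47, R6_41⟩, ⟨nat_lit 5, nat_lit 2640, nat_lit 9600, nat_lit 4224, nat_lit 720, nat_lit 2112, R7_88, R0_15, R8_44⟩, ⟨nat_lit 7, nat_lit 2976, nat_lit 10512, nat_lit 3840, nat_lit 11520, nat_lit 1776, R7_80, R0_240, R4_37⟩]⟩, ⟨nat_lit 3, [⟨nat_lit 4, nat_lit 9744, nat_lit 9024, nat_lit 6336, nat_lit 2352, nat_lit 10416, R14_132, R9_49, R4_217⟩, ⟨nat_lit 5, nat_lit 10320, nat_lit 9648, nat_lit 6384, nat_lit 816, nat_lit 6384, R14_133, R0_17, R5_133⟩]⟩]⟩], [], [], [], [⟨nat_lit 4, [⟨nat_lit 3, [⟨nat_lit 4, nat_lit 11376, nat_lit 8784, nat_lit 16752, nat_lit 14400, nat_lit 7584, R7_349, R8_300, R7_158⟩]⟩, ⟨nat_lit 7, [⟨nat_lit 4, nat_lit 18240, nat_lit 8736, nat_lit 14640, nat_lit 7632, nat_lit 7440,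 R4_305, R8_159, R4_155⟩, ⟨nat_lit 6, nat_lit 19104, nat_lit 9456, nat_lit 14736, nat_lit 15360, nat_lit 9504, R4_307, R9_320, R5_198⟩]⟩]⟩,
 ⟨nat_lit 6, [⟨nat_lit 7, [⟨nat_lit 6, nat_lit 19248, nat_lit 11808, nat_lit 16992, nat_lit 7488, nat_lit 9888, R5_354, R0_156, R5_206⟩]⟩]⟩,
 ⟨nat_lit 7, [⟨nat_lit 0, [⟨nat_lit 7, nat_lit 4128, nat_lit 10992, nat_lit 1872, nat_lit 11280, nat_lit 1488, R7_39, R0_235, R7_31⟩]⟩, ⟨nat_lit 3, [⟨nat_lit 4, nat_lit 11520, nat_lit 10416, nat_lit 6240, nat_lit 528, nat_lit 7728, R14_130, R9_11, R7_161⟩, ⟨nat_lit 7, nat_lit 12096, nat_lit 11040, nat_lit 6288, nat_lit 12864, nat_lit 19200, R14_131, R0_268, R14_400⟩]⟩]⟩]], [[], [], [], [], [], [], [], [⟨nat_lit 3, [⟨nat_lit 0, [⟨nat_lit 3, nat_lit 4416, nat_lit 11712, nat_lit 1248, nat_lit 11136, nat_lit 768, R4_26, R11_232, R4_16⟩,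 ⟨nat_lit 7, nat_lit 4224, nat_lit 11520, nat_lit 1776, nat_lit 10512, nat_lit 864, R4_37, R1_219, R7_18⟩]⟩, ⟨nat_lit 2, [⟨nat_lit 3, nat_lit 9312, nat_lit 14544, nat_lit 384, nat_lit 11184, nat_lit 2448, R5_8, R11_233, R5_51⟩]⟩]⟩,
 ⟨nat_lit 4, [⟨nat_lit 3, [⟨nat_lit 4, nat_lit 11328, nat_lit 12144, nat_lit 17424, nat_lit 12480, nat_lit 5616, R7_363, R4_260, R7_117⟩]⟩, ⟨nat_lit 7, [⟨nat_lit 4, nat_lit 18192, nat_lit 2160, nat_lit 15024, nat_lit 5904, nat_lit 6096, R4_313, R4_123, R4_127⟩, ⟨nat_lit 6, nat_lit 19056, nat_lit 2256, nat_lit 15312, nat_lit 8832, nat_lit 9360, R4_319, R5_184, R5_195⟩]⟩]⟩,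
 ⟨nat_lit 6, [⟨nat_lit 7, [⟨nat_lit 6, nat_lit 19200, nat_lit 3936, nat_lit 17040, nat_lit 13920, nat_lit 9744, R5_355, R11_290, R5_203⟩]⟩]⟩,
 ⟨nat_lit 7, [⟨nat_lit 0, [⟨nat_lit 7, nat_lit 4080, nat_lit 11280, nat_lit 1920, nat_lit 10992, nat_lit 1440, R7_40, R10_229, R7_30⟩]⟩, ⟨nat_lit 3, [⟨nat_lit 4, nat_lit 11472, nat_lit 12720, nat_lit 6528, nat_lit 1728, nat_lit 6288, R14_136, R3_36, R7_131⟩, ⟨nat_lit 7, nat_lit 12048, nat_lit 12864, nat_lit 6576, nat_lit 11040, nat_lit 19152, R14_137, R10_230, R14_399⟩]⟩]⟩]], [[], [], [], [⟨nat_lit 3, [⟨nat_lit 0, [⟨nat_lit 4, nat_lit 1872, nat_lit 912, nat_lit 3408, nat_lit 1440, nat_lit 3744, R4_71, R2_30, R6_78⟩, ⟨nat_lit 5, nat_lit 2736, nat_lit 960, nat_lit 4128, nat_lit 912, nat_lit 1968, R4_86, R1_19, R8_41⟩, ⟨nat_lit 7, nat_lit 3072, nat_lit 1008, nat_lit 3888,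 nat_lit 6816, nat_lit 3888, R4_81, R12_142, R4_81⟩]⟩]⟩,
 ⟨nat_lit 7, [⟨nat_lit 0, [⟨nat_lit 4, nat_lit 1824, nat_lit 720, nat_lit 3312, nat_lit 11664, nat_lit 1920, R7_69, R3_243, R6_40⟩, ⟨nat_lit 5, nat_lit 2688, nat_lit 768, nat_lit 4176, nat_lit 1152, nat_lit 2064, R7_87, R10_24, R8_43⟩]⟩, ⟨nat_lit 3, [⟨nat_lit 4, nat_lit 9792, nat_lit 816, nat_lit 6432, nat_lit 13968, nat_lit 9840, R14_134, R3_291, R4_205⟩, ⟨nat_lit 5, nat_lit 10368, nat_lit 864, nat_lit 6480, nat_lit 1632, nat_lit 6144, R14_135, R10_34, R5_128⟩]⟩]⟩]]], [[], [[⟨nat_lit 5, [⟨nat_lit 0, [⟨nat_lit 5, nat_lit 48, nat_lit 96, nat_lit 3840, nat_lit 576, nat_lit 2736, R6_80, R1_12, R6_57⟩]⟩, ⟨nat_lit 1, [⟨nat_lit 5, nat_lit 4800, nat_lit 5040, nat_lit 20352, nat_lit 672, nat_lit 1920, R13_424, R1_14, R13_40⟩]⟩]⟩], [⟨nat_lit 5, [⟨nat_lit 1, [⟨nat_lit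 5, nat_lit 5568, nat_lit 3456, nat_lit 20400, nat_lit 1248, nat_lit 2304, R13_425, R1_26, R3_48⟩]⟩]⟩], [], [⟨nat_lit 5, [⟨nat_lit 0, [⟨nat_lit 5, nat_lit 1920, nat_lit 1488, nat_lit 3888, nat_lit 864, nat_lit 2352, R6_81, R1_18, R8_49⟩]⟩, ⟨nat_lit 1, [⟨nat_lit 5, nat_lit 6432, nat_lit 8544, nat_lit 20448, nat_lit 1056, nat_lit 1104, R13_426, R1_22, R9_23⟩]⟩]⟩]], [], [], [], [[⟨nat_lit 4, [⟨nat_lit 1, [⟨nat_lit 4, nat_lit 4464, nat_lit 4608, nat_lit 15264, nat_lit 15168, nat_lit 6816, R6_318, R8_316, R6_142⟩, ⟨nat_lit 5, nat_lit 4704, nat_lit 4656, nat_lit 15360, nat_lit 1200, nat_lit 1872, R6_320, R5_25, R13_39⟩]⟩]⟩,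
 ⟨nat_lit 5, [⟨nat_lit 0, [⟨nat_lit 5, nat_lit 0, nat_lit 0, nat_lit 3792, nat_lit 288, nat_lit 2784, R6_79, R11_6, R6_58⟩]⟩, ⟨nat_lit 1, [⟨nat_lit 4, nat_lit 4512, nat_lit 5184, nat_lit 20496, nat_lit 1488, nat_lit 6960, R13_427, R5_31, R6_145⟩, ⟨nat_lit 5, nat_lit 4752, nat_lit 5232, nat_lit 20592, nat_lit 1056, nat_lit 1968, R13_429, R11_22, R13_41⟩]⟩]⟩], [⟨nat_lit 4, [⟨nat_lit 1, [⟨nat_lit 4, nat_lit 5136, nat_lit 288, nat_lit 15312, nat_lit 15312, nat_lit 7392, R6_319, R8_319, R4_154⟩, ⟨nat_lit 5, nat_lit 5472, nat_lit 384, nat_lit 15408, nat_lit 1344, nat_lit 2256, R6_321, R5_28, R3_47⟩]⟩]⟩,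
 ⟨nat_lit 5, [⟨nat_lit 1, [⟨nat_lit 4, nat_lit 5184, nat_lit 3888, nat_lit 20544, nat_lit 3840, nat_lit 7584, R13_428, R5_80, R4_158⟩, ⟨nat_lit 5, nat_lit 5520, nat_lit 3984, nat_lit 20640, nat_lit 3840, nat_lit 2352, R13_430, R11_80, R3_49⟩]⟩]⟩]]], [[[⟨nat_lit 1, [⟨nat_lit 0, [⟨nat_lit 5, nat_lit 144, nat_lit 5712, nat_lit 4032, nat_lit 1200, nat_lit 2976, R7_84, R3_25, R6_62⟩]⟩, ⟨nat_lit 1, [⟨nat_lit 5, nat_lit 4896, nat_lit 5808, nat_lit 2400, nat_lit 1296, nat_lit 2160, R2_50, R3_27, R13_45⟩]⟩]⟩], [], [⟨nat_lit 1, [⟨nat_lit 0, [⟨nat_lit 1, nat_lit 1008, nat_lit 12816, nat_lit 4272, nat_lit 12816, nat_lit 2592, R7_89, R2_267, R7_54⟩, ⟨nat_lit 5, nat_lit 672, nat_lit 4128, nat_lit 4416, nat_lit 6384, nat_lit 2640, R7_92, R3_133, R4_55⟩]⟩, ⟨nat_lit 1, [⟨nat_lit 1, nat_lit 6144, nat_lit 12912, nat_lit 2688,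 nat_lit 13056, nat_lit 720, R2_56, R2_272, R2_15⟩, ⟨nat_lit 5, nat_lit 6048, nat_lit 4224, nat_lit 2832, nat_lit 6480, nat_lit 7008, R2_59, R3_135, R3_146⟩]⟩, ⟨nat_lit 2, [⟨nat_lit 1, nat_lit 6912, nat_lit 13056, nat_lit 720, nat_lit 12912, nat_lit 2688, R2_15, R2_269, R2_56⟩]⟩]⟩], [⟨nat_lit 1, [⟨nat_lit 0, [⟨nat_lit 5, nat_lit 2016, nat_lit 8784, nat_lit 4128, nat_lit 7632, nat_lit 2592, R7_86, R3_159, R8_54⟩]⟩, ⟨nat_lit 1, [⟨nat_lit 5, nat_lit 6528, nat_lit 9216, nat_lit 2544, nat_lit 7776, nat_lit 1344, R2_53, R3_162, R9_28⟩]⟩]⟩]], [[⟨nat_lit 1, [⟨nat_lit 0, [⟨nat_lit 5, nat_lit 192, nat_lit 15360, nat_lit 4080, nat_lit 15648, nat_lit 3024, R7_85, R10_326, R6_63⟩]⟩, ⟨nat_lit 1, [⟨nat_lit 5, nat_lit 4944, nat_lit 16032, nat_lit 2448, nat_lit 15840, nat_lit 2208, R2_51, R10_330, R13_46⟩]⟩]⟩,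
 ⟨nat_lit 5, [⟨nat_lit 0, [⟨nat_lit 5, nat_lit 96, nat_lit 15408, nat_lit 4080, nat_lit 624, nat_lit 3072, R4_85, R1_13, R6_64⟩]⟩, ⟨nat_lit 1, [⟨nat_lit 5, nat_lit 4848, nat_lit 16080, nat_lit 16848, nat_lit 720, nat_lit 2256, R3_351, R1_15, R13_47⟩]⟩]⟩], [⟨nat_lit 1, [⟨nat_lit 1, [⟨nat_lit 5, nat_lit 5808, nat_lit 13104, nat_lit 2496, nat_lit 18048, nat_lit 2688, R2_52, R10_376, R3_56⟩]⟩]⟩,
 ⟨nat_lit 5, [⟨nat_lit 1, [⟨nat_lit 5, nat_lit 5760, nat_lit 13152, nat_lit 16896, nat_lit 1296, nat_lit 2736, R3_352, R1_27, R3_57⟩]⟩]⟩], [⟨nat_lit 1, [⟨nat_lit 0, [⟨nat_lit 1, nat_lit 1104, nat_lit 12336, nat_lit 4320, nat_lit 14160, nat_lit 2688, R7_90, R1_295, R7_56⟩, ⟨nat_lit 5, nat_lit 720, nat_lit 12864, nat_lit 4464, nat_lit 17424, nat_lit 2688, R7_93, R10_363, R4_56⟩]⟩, ⟨nat_lit 1, [⟨nat_lit 1, nat_lit 6240, nat_lit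 12432, nat_lit 2736, nat_lit 14400, nat_lit 816, R2_57, R1_300, R2_17⟩, ⟨nat_lit 5, nat_lit 6096, nat_lit 13296, nat_lit 2880, nat_lit 17568, nat_lit 7104, R2_60, R10_366, R3_148⟩]⟩, ⟨nat_lit 2, [⟨nat_lit 1, nat_lit 7008, nat_lit 12576, nat_lit 768, nat_lit 14256, nat_lit 2784, R2_16, R1_297, R2_58⟩]⟩]⟩,
 ⟨nat_lit 5, [⟨nat_lit 0, [⟨nat_lit 5, nat_lit 624, nat_lit 12816, nat_lit 4176, nat_lit 768, nat_lit 2736, R4_87, R1_16, R4_57⟩]⟩, ⟨nat_lit 1, [⟨nat_lit 5, nat_lit 6000, nat_lit 13248, nat_lit 16992, nat_lit 816, nat_lit 7056, R3_354, R1_17, R3_147⟩]⟩]⟩], [⟨nat_lit 1, [⟨nat_lit 0, [⟨nat_lit 5, nat_lit 2064, nat_lit 768, nat_lit 4176, nat_lit 16512, nat_lit 2688, R7_87, R10_344, R8_56⟩]⟩, ⟨nat_lit 1, [⟨nat_lit 5, nat_lit 6576, nat_lit 8112, nat_lit 2592, nat_lit 16704, nat_lit 1440, R2_54, R10_348, R9_30⟩]⟩]⟩,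
 ⟨nat_lit 5, [⟨nat_lit 0, [⟨nat_lit 5, nat_lit 1968, nat_lit 960, nat_lit 4128, nat_lit 912, nat_lit 2736, R4_86, R1_19, R8_57⟩]⟩, ⟨nat_lit 1, [⟨nat_lit 5, nat_lit 6480, nat_lit 8400, nat_lit 16944, nat_lit 1104, nat_lit 1488, R3_353, R1_23, R9_31⟩]⟩]⟩]], [[], [], [⟨nat_lit 1, [⟨nat_lit 0, [⟨nat_lit 1, nat_lit 1056, nat_lit 14160, nat_lit 4368, nat_lit 12336, nat_lit 2640, R7_91, R12_257, R7_55⟩]⟩, ⟨nat_lit 1, [⟨nat_lit 1, nat_lit 6192, nat_lit 14256, nat_lit 2784, nat_lit 12576, nat_lit 768, R2_58, R12_262, R2_16⟩]⟩, ⟨nat_lit 2, [⟨nat_lit 1, nat_lit 6960, nat_lit 14400, nat_lit 816, nat_lit 12432, nat_lit 2736, R2_17, R12_259, R2_57⟩]⟩]⟩]], [[], [], [], [⟨nat_lit 1, [⟨nat_lit 0, [⟨nat_lit 5, nat_lit 2112, nat_lit 9600, nat_lit 4224, nat_lit 720, nat_lit 2640, R7_88, R0_15, R8_55⟩]⟩, ⟨nat_lit 1, [⟨nat_lit 5,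 nat_lit 6624, nat_lit 10032, nat_lit 2640, nat_lit 768, nat_lit 1392, R2_55, R0_16, R9_29⟩]⟩]⟩]]], [[], [[], [⟨nat_lit 5, [⟨nat_lit 1, [⟨nat_lit 5, nat_lit 5712, nat_lit 2928, nat_lit 3360, nat_lit 1344, nat_lit 2448, R3_70, R1_28, R3_51⟩]⟩, ⟨nat_lit 5, [⟨nat_lit 5, nat_lit 13344, nat_lit 13392, nat_lit 14928, nat_lit 1200, nat_lit 6480, R2_311, R1_25, R2_135⟩]⟩]⟩]], [], [], [], [[], [⟨nat_lit 4, [⟨nat_lit 1, [⟨nat_lit 4, nat_lit 5232, nat_lit 8736, nat_lit 14640, nat_lit 16512, nat_lit 7440, R4_305, R8_344, R4_155⟩, ⟨nat_lit 5, nat_lit 5616, nat_lit 8832, nat_lit 14688, nat_lit 13248, nat_lit 2400, R4_306, R5_276, R3_50⟩]⟩, ⟨nat_lit 5, [⟨nat_lit 4, nat_lit 13008, nat_lit 8784, nat_lit 16752, nat_lit 10464, nat_lit 7584, R7_349, R8_218, R7_158⟩, ⟨nat_lit 5, nat_lit 13248, nat_lit 8880, nat_lit 16944, nat_lit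 12960, nat_lit 6384, R7_353, R5_270, R2_133⟩, ⟨nat_lit 6, nat_lit 13104, nat_lit 8928, nat_lit 16848, nat_lit 11184, nat_lit 8016, R7_351, R9_233, R2_167⟩]⟩]⟩,
 ⟨nat_lit 5, [⟨nat_lit 1, [⟨nat_lit 4, nat_lit 5280, nat_lit 8976, nat_lit 3264, nat_lit 3936, nat_lit 7632, R3_68, R5_82, R4_159⟩, ⟨nat_lit 5, nat_lit 5664, nat_lit 9072, nat_lit 3312, nat_lit 3936, nat_lit 2496, R3_69, R11_82, R3_52⟩]⟩, ⟨nat_lit 5, [⟨nat_lit 4, nat_lit 13056, nat_lit 9024, nat_lit 14976, nat_lit 2928, nat_lit 7632, R2_312, R5_61, R7_159⟩, ⟨nat_lit 5, nat_lit 13296, nat_lit 9120, nat_lit 15168, nat_lit 2928, nat_lit 6432, R2_316, R11_61, R2_134⟩, ⟨nat_lit 6, nat_lit 13200, nat_lit 9168, nat_lit 15072, nat_lit 9696, nat_lit 8112, R2_314, R0_202, R2_169⟩]⟩]⟩,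
 ⟨nat_lit 6, [⟨nat_lit 5, [⟨nat_lit 6, nat_lit 13152, nat_lit 9216, nat_lit 14688, nat_lit 9360, nat_lit 8064, R2_306, R0_195, R2_168⟩]⟩]⟩], [], [], [], [⟨nat_lit 4, [⟨nat_lit 5, [⟨nat_lit 4, nat_lit 13392, nat_lit 7968, nat_lit 16800, nat_lit 10608, nat_lit 9120, R7_350, R8_221, R4_190⟩, ⟨nat_lit 6, nat_lit 13632, nat_lit 8016, nat_lit 16896, nat_lit 11040, nat_lit 16224, R7_352, R9_230, R3_338⟩]⟩]⟩,
 ⟨nat_lit 5, [⟨nat_lit 5, [⟨nat_lit 4, nat_lit 13440, nat_lit 8064, nat_lit 15024, nat_lit 528, nat_lit 9168, R2_313, R5_11, R4_191⟩, ⟨nat_lit 6, nat_lit 13728, nat_lit 8112, nat_lit 15120, nat_lit 9552, nat_lit 16320, R2_315, R0_199, R3_340⟩]⟩]⟩,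
 ⟨nat_lit 6, [⟨nat_lit 5, [⟨nat_lit 6, nat_lit 13680, nat_lit 8160, nat_lit 14640, nat_lit 9504, nat_lit 16272, R2_305, R0_198, R3_339⟩]⟩]⟩]]], [[], [[], [], [], [⟨nat_lit 5, [⟨nat_lit 0, [⟨nat_lit 5, nat_lit 2256, nat_lit 960, nat_lit 3696, nat_lit 960, nat_lit 2496, R8_77, R1_20, R8_52⟩]⟩, ⟨nat_lit 1, [⟨nat_lit 5, nat_lit 6768, nat_lit 9360, nat_lit 16800, nat_lit 1152, nat_lit 1248, R9_350, R1_24, R9_26⟩]⟩, ⟨nat_lit 3, [⟨nat_lit 5, nat_lit 9936, nat_lit 6384, nat_lit 17136, nat_lit 1008, nat_lit 6528, R5_357, R1_21, R5_136⟩]⟩]⟩]], [], [], [], [[⟨nat_lit 4, [⟨nat_lit 0, [⟨nat_lit 5, nat_lit 240, nat_lit 1776, nat_lit 16512, nat_lit 8208, nat_lit 2832, R6_344, R5_171, R6_59⟩]⟩, ⟨nat_lit 1, [⟨nat_lit 4, nat_lit 4560, nat_lit 7968, nat_lit 16752, nat_lit 15744, nat_lit 6864, R8_349, R8_328, R6_143⟩, ⟨nat_lit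 5, nat_lit 4992, nat_lit 10176, nat_lit 16896, nat_lit 9552, nat_lit 2016, R8_352, R5_199, R13_42⟩]⟩]⟩,
 ⟨nat_lit 5, [⟨nat_lit 0, [⟨nat_lit 5, nat_lit 288, nat_lit 1872, nat_lit 3552, nat_lit 336, nat_lit 2928, R8_74, R11_7, R6_61⟩]⟩, ⟨nat_lit 1, [⟨nat_lit 4, nat_lit 4608, nat_lit 8544, nat_lit 16848, nat_lit 1536, nat_lit 7008, R9_351, R5_32, R6_146⟩, ⟨nat_lit 5, nat_lit 5040, nat_lit 10368, nat_lit 16992, nat_lit 1104, nat_lit 2112, R9_354, R11_23, R13_44⟩]⟩]⟩,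
 ⟨nat_lit 7, [⟨nat_lit 0, [⟨nat_lit 5, nat_lit 336, nat_lit 1824, nat_lit 2016, nat_lit 96, nat_lit 2880, R4_42, R0_2, R6_60⟩]⟩, ⟨nat_lit 1, [⟨nat_lit 4, nat_lit 4656, nat_lit 8256, nat_lit 2208, nat_lit 2016, nat_lit 6912, R5_46, R9_42, R6_144⟩, ⟨nat_lit 5, nat_lit 5088, nat_lit 10272, nat_lit 2256, nat_lit 336, nat_lit 2064, R5_47, R0_7, R13_43⟩]⟩]⟩], [⟨nat_lit 4, [⟨nat_lit 1, [⟨nat_lit 4, nat_lit 5328, nat_lit 7200, nat_lit 16800, nat_lit 16032, nat_lit 7488, R8_350, R8_334, R4_156⟩, ⟨nat_lit 5, nat_lit 5856, nat_lit 7248, nat_lit 16944, nat_lit 9792, nat_lit 2544, R8_353, R5_204, R3_53⟩]⟩]⟩,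
 ⟨nat_lit 5, [⟨nat_lit 1, [⟨nat_lit 4, nat_lit 5376, nat_lit 7296, nat_lit 16896, nat_lit 3888, nat_lit 7680, R9_352, R5_81, R4_160⟩, ⟨nat_lit 5, nat_lit 5904, nat_lit 7344, nat_lit 17040, nat_lit 3888, nat_lit 2640, R9_355, R11_81, R3_55⟩]⟩]⟩,
 ⟨nat_lit 7, [⟨nat_lit 1, [⟨nat_lit 4, nat_lit 5424, nat_lit 7392, nat_lit 2304, nat_lit 3552, nat_lit 7536, R5_48, R9_74, R4_157⟩, ⟨nat_lit 5, nat_lit 5952, nat_lit 7440, nat_lit 2352, nat_lit 2016, nat_lit 2592, R5_49, R0_42, R3_54⟩]⟩]⟩], [], [⟨nat_lit 4, [⟨nat_lit 0, [⟨nat_lit 4, nat_lit 1488, nat_lit 10368, nat_lit 14736, nat_lit 12192, nat_lit 768, R6_307, R8_254, R6_16⟩, ⟨nat_lit 5, nat_lit 2160, nat_lit 10512, nat_lit 16560, nat_lit 8352, nat_lit 2400, R6_345, R5_174, R8_50⟩]⟩, ⟨nat_lit 1, [⟨nat_lit 4, nat_lit 6288, nat_lit 10416, nat_lit 16848, nat_lit 15888,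 nat_lit 6288, R8_351, R8_331, R8_131⟩, ⟨nat_lit 5, nat_lit 6672, nat_lit 10560, nat_lit 16992, nat_lit 9696, nat_lit 1152, R8_354, R5_202, R9_24⟩]⟩, ⟨nat_lit 3, [⟨nat_lit 4, nat_lit 9360, nat_lit 10464, nat_lit 14304, nat_lit 14112, nat_lit 9072, R4_298, R8_294, R4_189⟩, ⟨nat_lit 5, nat_lit 9840, nat_lit 10608, nat_lit 15216, nat_lit 8928, nat_lit 6288, R4_317, R5_186, R5_131⟩]⟩]⟩,
 ⟨nat_lit 5, [⟨nat_lit 0, [⟨nat_lit 4, nat_lit 1536, nat_lit 10656, nat_lit 3600, nat_lit 1872, nat_lit 2928, R8_75, R5_39, R6_61⟩, ⟨nat_lit 5, nat_lit 2208, nat_lit 10800, nat_lit 3648, nat_lit 1872, nat_lit 2544, R8_76, R11_39, R8_53⟩]⟩, ⟨nat_lit 1, [⟨nat_lit 4, nat_lit 6336, nat_lit 10704, nat_lit 16944, nat_lit 2400, nat_lit 6384, R9_353, R5_50, R8_133⟩, ⟨nat_lit 5, nat_lit 6720, nat_lit 10848, nat_lit 17088, nat_lit 2400, nat_lit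 1296, R9_356, R11_50, R9_27⟩]⟩, ⟨nat_lit 3, [⟨nat_lit 4, nat_lit 9408, nat_lit 10752, nat_lit 17184, nat_lit 2064, nat_lit 10656, R5_358, R5_43, R4_222⟩, ⟨nat_lit 5, nat_lit 9888, nat_lit 10896, nat_lit 17232, nat_lit 2064, nat_lit 6432, R5_359, R11_43, R5_134⟩]⟩]⟩,
 ⟨nat_lit 7, [⟨nat_lit 0, [⟨nat_lit 4, nat_lit 1584, nat_lit 10944, nat_lit 192, nat_lit 2208, nat_lit 1344, R4_4, R9_46, R6_28⟩, ⟨nat_lit 5, nat_lit 2304, nat_lit 11040, nat_lit 2496, nat_lit 672, nat_lit 2448, R4_52, R0_14, R8_51⟩, ⟨nat_lit 7, nat_lit 2784, nat_lit 11136, nat_lit 768, nat_lit 11712, nat_lit 1248, R4_16, R0_244, R4_26⟩]⟩, ⟨nat_lit 1, [⟨nat_lit 4, nat_lit 6384, nat_lit 10992, nat_lit 2400, nat_lit 2688, nat_lit 6336, R5_50, R9_56, R8_132⟩, ⟨nat_lit 5, nat_lit 6816, nat_lit 11088, nat_lit 2496, nat_lit 1152, nat_lit 1200, R5_52, R0_24,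 R9_25⟩, ⟨nat_lit 7, nat_lit 6864, nat_lit 11184, nat_lit 2448, nat_lit 14544, nat_lit 384, R5_51, R0_303, R5_8⟩]⟩]⟩]]]]
noncomputable def N1100 : T3 (List N0) := [[], [[[⟨nat_lit 0, [⟨nat_lit 0, [⟨nat_lit 2, nat_lit 8592, nat_lit 14064, nat_lit 4560, nat_lit 12912, nat_lit 9792, R4_95, R6_269, R6_204⟩]⟩, ⟨nat_lit 2, [⟨nat_lit 2, nat_lit 8688, nat_lit 14112, nat_lit 144, nat_lit 12960, nat_lit 10800, R3_3, R6_270, R4_225⟩]⟩]⟩,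
 ⟨nat_lit 2, [⟨nat_lit 2, [⟨nat_lit 2, nat_lit 8880, nat_lit 14544, nat_lit 6960, nat_lit 13104, nat_lit 10848, R10_145, R4_273, R4_226⟩, ⟨nat_lit 6, nat_lit 13488, nat_lit 11520, nat_lit 7008, nat_lit 14256, nat_lit 11424, R10_146, R7_297, R7_238⟩]⟩, ⟨nat_lit 6, [⟨nat_lit 6, nat_lit 13440, nat_lit 11568, nat_lit 5808, nat_lit 14304, nat_lit 11664, R1_121, R7_298, R4_243⟩]⟩]⟩,
 ⟨nat_lit 3, [⟨nat_lit 0, [⟨nat_lit 2, nat_lit 8976, nat_lit 14256, nat_lit 8016, nat_lit 13488, nat_lit 9840, R5_167, R8_281, R6_205⟩]⟩, ⟨nat_lit 2, [⟨nat_lit 2, nat_lit 9024, nat_lit 14352, nat_lit 5568, nat_lit 13536, nat_lit 10896, R0_116, R8_282, R4_227⟩]⟩, ⟨nat_lit 3, [⟨nat_lit 0, nat_lit 3168, nat_lit 12096, nat_lit 7488, nat_lit 13536, nat_lit 10752, R11_156, R6_282, R6_224⟩, ⟨nat_lit 2, nat_lit 9072, nat_lit 14304, nat_lit 7536,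 nat_lit 13584, nat_lit 9360, R11_157, R8_283, R8_195⟩, ⟨nat_lit 3, nat_lit 11616, nat_lit 13344, nat_lit 7584, nat_lit 13344, nat_lit 11616, R11_158, R4_278, R4_242⟩]⟩]⟩,
 ⟨nat_lit 4, [⟨nat_lit 4, [⟨nat_lit 7, nat_lit 14064, nat_lit 8592, nat_lit 4560, nat_lit 12912, nat_lit 9792, R4_95, R6_269, R6_204⟩]⟩, ⟨nat_lit 7, [⟨nat_lit 7, nat_lit 14112, nat_lit 8688, nat_lit 144, nat_lit 12960, nat_lit 10800, R3_3, R6_270, R4_225⟩]⟩]⟩,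
 ⟨nat_lit 6, [⟨nat_lit 4, [⟨nat_lit 7, nat_lit 14256, nat_lit 8976, nat_lit 8016, nat_lit 13488, nat_lit 9840, R5_167, R8_281, R6_205⟩]⟩, ⟨nat_lit 6, [⟨nat_lit 4, nat_lit 12096, nat_lit 3168, nat_lit 7488, nat_lit 13536, nat_lit 10752, R11_156, R6_282, R6_224⟩, ⟨nat_lit 6, nat_lit 13344, nat_lit 11616, nat_lit 7584, nat_lit 13344, nat_lit 11616, R11_158, R4_278, R4_242⟩, ⟨nat_lit 7, nat_lit 14304, nat_lit 9072, nat_lit 7536, nat_lit 13584, nat_lit 9360, R11_157, R8_283, R8_195⟩]⟩, ⟨nat_lit 7, [⟨nat_lit 7, nat_lit 14352, nat_lit 9024, nat_lit 5568, nat_lit 13536, nat_lit 10896, R0_116, R8_282, R4_227⟩]⟩]⟩,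
 ⟨nat_lit 7, [⟨nat_lit 3, [⟨nat_lit 3, nat_lit 11568, nat_lit 13440, nat_lit 5808, nat_lit 14304, nat_lit 11664, R1_121, R7_298, R4_243⟩]⟩, ⟨nat_lit 7, [⟨nat_lit 3, nat_lit 11520, nat_lit 13488, nat_lit 7008, nat_lit 14256, nat_lit 11424, R10_146, R7_297, R7_238⟩, ⟨nat_lit 7, nat_lit 14544, nat_lit 8880, nat_lit 6960, nat_lit 13104, nat_lit 10848, R10_145, R4_273, R4_226⟩]⟩]⟩], [], [⟨nat_lit 2, [⟨nat_lit 2, [⟨nat_lit 6, nat_lit 13632, nat_lit 10368, nat_lit 7056, nat_lit 14352, nat_lit 10800, R10_147, R7_299, R2_225⟩]⟩, ⟨nat_lit 6, [⟨nat_lit 6, nat_lit 13584, nat_lit 10272, nat_lit 5856, nat_lit 14400, nat_lit 16656, R1_122, R7_300, R3_347⟩]⟩]⟩,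
 ⟨nat_lit 4, [⟨nat_lit 4, [⟨nat_lit 7, nat_lit 14160, nat_lit 11376, nat_lit 4800, nat_lit 13344, nat_lit 18144, R4_100, R6_278, R8_378⟩]⟩, ⟨nat_lit 7, [⟨nat_lit 7, nat_lit 14208, nat_lit 11472, nat_lit 192, nat_lit 13392, nat_lit 13104, R3_4, R6_279, R5_273⟩]⟩]⟩,
 ⟨nat_lit 6, [⟨nat_lit 4, [⟨nat_lit 4, nat_lit 12144, nat_lit 16032, nat_lit 1008, nat_lit 13584, nat_lit 15168, R5_21, R6_283, R6_316⟩, ⟨nat_lit 7, nat_lit 14400, nat_lit 16368, nat_lit 9264, nat_lit 13776, nat_lit 19008, R5_193, R8_287, R8_396⟩]⟩, ⟨nat_lit 6, [⟨nat_lit 4, nat_lit 12192, nat_lit 16128, nat_lit 7824, nat_lit 13632, nat_lit 13728, R11_163, R6_284, R13_286⟩, ⟨nat_lit 6, nat_lit 13392, nat_lit 16752, nat_lit 7920, nat_lit 13392, nat_lit 16752, R11_165, R4_279, R3_349⟩, ⟨nat_lit 7, nat_lit 14448, nat_lit 16560, nat_lit 7872, nat_lit 13872,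 nat_lit 11376, R11_164, R8_289, R9_237⟩]⟩, ⟨nat_lit 7, [⟨nat_lit 7, nat_lit 14496, nat_lit 16464, nat_lit 5664, nat_lit 13824, nat_lit 13152, R0_118, R8_288, R5_274⟩]⟩]⟩,
 ⟨nat_lit 7, [⟨nat_lit 7, [⟨nat_lit 7, nat_lit 14592, nat_lit 15264, nat_lit 7152, nat_lit 13248, nat_lit 13200, R10_149, R4_276, R5_275⟩]⟩]⟩]], [], [[], [], [⟨nat_lit 2, [⟨nat_lit 2, [⟨nat_lit 6, nat_lit 13824, nat_lit 3408, nat_lit 7104, nat_lit 13968, nat_lit 10896, R10_148, R2_291, R2_227⟩]⟩, ⟨nat_lit 6, [⟨nat_lit 6, nat_lit 13776, nat_lit 3360, nat_lit 5904, nat_lit 13920, nat_lit 16704, R1_123, R2_290, R3_348⟩]⟩]⟩,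
 ⟨nat_lit 4, [⟨nat_lit 4, [⟨nat_lit 4, nat_lit 12240, nat_lit 2736, nat_lit 1920, nat_lit 8304, nat_lit 15120, R4_40, R6_173, R6_315⟩, ⟨nat_lit 5, nat_lit 13104, nat_lit 2784, nat_lit 10848, nat_lit 8880, nat_lit 14544, R4_226, R4_185, R4_303⟩, ⟨nat_lit 7, nat_lit 14640, nat_lit 2832, nat_lit 7440, nat_lit 5232, nat_lit 18240, R4_155, R8_109, R8_380⟩]⟩, ⟨nat_lit 7, [⟨nat_lit 7, nat_lit 14688, nat_lit 2880, nat_lit 2400, nat_lit 5616, nat_lit 13248, R3_50, R8_117, R5_276⟩]⟩]⟩,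
 ⟨nat_lit 6, [⟨nat_lit 4, [⟨nat_lit 4, nat_lit 12288, nat_lit 2976, nat_lit 1152, nat_lit 19056, nat_lit 15216, R5_24, R13_397, R6_317⟩, ⟨nat_lit 5, nat_lit 13248, nat_lit 3024, nat_lit 13200, nat_lit 15264, nat_lit 14592, R5_275, R3_318, R4_304⟩, ⟨nat_lit 7, nat_lit 14736, nat_lit 3072, nat_lit 9504, nat_lit 15360, nat_lit 19104, R5_198, R9_320, R8_398⟩]⟩, ⟨nat_lit 6, [⟨nat_lit 4, nat_lit 12336, nat_lit 3168, nat_lit 9504, nat_lit 19104, nat_lit 13776, R11_198, R13_398, R13_287⟩, ⟨nat_lit 5, nat_lit 13296, nat_lit 3216, nat_lit 9648, nat_lit 15312, nat_lit 10464, R11_201, R3_319, R3_218⟩, ⟨nat_lit 6, nat_lit 13728, nat_lit 3312, nat_lit 9600, nat_lit 8640, nat_lit 16800, R11_200, R3_180, R3_350⟩, ⟨nat_lit 7, nat_lit 14784, nat_lit 3264, nat_lit 9552, nat_lit 15408, nat_lit 11424, R11_199, R9_321, R9_238⟩]⟩,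 ⟨nat_lit 7, [⟨nat_lit 7, nat_lit 14832, nat_lit 3120, nat_lit 6960, nat_lit 15456, nat_lit 13296, R0_145, R9_322, R5_277⟩]⟩]⟩,
 ⟨nat_lit 7, [⟨nat_lit 7, [⟨nat_lit 7, nat_lit 14880, nat_lit 2928, nat_lit 8544, nat_lit 16224, nat_lit 13344, R10_178, R5_338, R5_278⟩]⟩]⟩], [], [], [], [⟨nat_lit 4, [⟨nat_lit 4, [⟨nat_lit 5, nat_lit 13056, nat_lit 2592, nat_lit 11040, nat_lit 8928, nat_lit 17616, R4_230, R4_186, R7_367⟩]⟩]⟩,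
 ⟨nat_lit 6, [⟨nat_lit 4, [⟨nat_lit 5, nat_lit 13152, nat_lit 2640, nat_lit 12864, nat_lit 15168, nat_lit 17712, R5_268, R3_316, R7_369⟩]⟩, ⟨nat_lit 6, [⟨nat_lit 5, nat_lit 13200, nat_lit 2688, nat_lit 8976, nat_lit 15216, nat_lit 14832, R11_187, R3_317, R2_309⟩]⟩]⟩]], [[⟨nat_lit 3, [⟨nat_lit 0, [⟨nat_lit 2, nat_lit 10560, nat_lit 16848, nat_lit 8304, nat_lit 1968, nat_lit 9888, R5_173, R5_41, R6_206⟩]⟩, ⟨nat_lit 2, [⟨nat_lit 2, nat_lit 10608, nat_lit 17568, nat_lit 5616, nat_lit 2016, nat_lit 10944, R0_117, R5_42, R4_228⟩]⟩, ⟨nat_lit 3, [⟨nat_lit 0, nat_lit 4368, nat_lit 14496, nat_lit 7632, nat_lit 48, nat_lit 10800, R11_159, R4_1, R6_225⟩, ⟨nat_lit 2, nat_lit 10656, nat_lit 17184, nat_lit 7680, nat_lit 2064, nat_lit 9408, R11_160, R5_43, R8_196⟩]⟩]⟩,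
 ⟨nat_lit 4, [⟨nat_lit 4, [⟨nat_lit 7, nat_lit 14928, nat_lit 4368, nat_lit 5664, nat_lit 5808, nat_lit 10176, R4_118, R4_121, R6_212⟩]⟩, ⟨nat_lit 7, [⟨nat_lit 3, nat_lit 11808, nat_lit 14784, nat_lit 1440, nat_lit 5952, nat_lit 11568, R3_30, R7_124, R7_241⟩, ⟨nat_lit 7, nat_lit 14976, nat_lit 5136, nat_lit 864, nat_lit 6432, nat_lit 11232, R3_18, R4_134, R4_234⟩]⟩]⟩,
 ⟨nat_lit 6, [⟨nat_lit 4, [⟨nat_lit 7, nat_lit 15168, nat_lit 4656, nat_lit 8160, nat_lit 8784, nat_lit 10224, R5_170, R5_183, R6_213⟩]⟩, ⟨nat_lit 6, [⟨nat_lit 7, nat_lit 15216, nat_lit 6288, nat_lit 8400, nat_lit 8928, nat_lit 9840, R11_175, R5_186, R8_205⟩]⟩, ⟨nat_lit 7, [⟨nat_lit 7, nat_lit 15264, nat_lit 5328, nat_lit 5856, nat_lit 9072, nat_lit 11280, R0_122, R5_189, R4_235⟩]⟩]⟩,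
 ⟨nat_lit 7, [⟨nat_lit 3, [⟨nat_lit 0, nat_lit 4224, nat_lit 14400, nat_lit 6096, nat_lit 144, nat_lit 10848, R1_127, R7_3, R6_226⟩, ⟨nat_lit 3, nat_lit 12000, nat_lit 15984, nat_lit 6144, nat_lit 17088, nat_lit 11712, R1_128, R14_356, R4_244⟩]⟩, ⟨nat_lit 7, [⟨nat_lit 3, nat_lit 11952, nat_lit 14976, nat_lit 7344, nat_lit 17136, nat_lit 11616, R10_153, R14_357, R7_242⟩]⟩]⟩], [], [⟨nat_lit 4, [⟨nat_lit 4, [⟨nat_lit 7, nat_lit 15024, nat_lit 2160, nat_lit 6096, nat_lit 5904, nat_lit 18192, R4_127, R4_123, R8_379⟩]⟩, ⟨nat_lit 7, [⟨nat_lit 7, nat_lit 15072, nat_lit 2208, nat_lit 912, nat_lit 6480, nat_lit 13392, R3_19, R4_135, R5_279⟩]⟩]⟩,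
 ⟨nat_lit 6, [⟨nat_lit 4, [⟨nat_lit 7, nat_lit 15312, nat_lit 2256, nat_lit 9360, nat_lit 8832, nat_lit 19056, R5_195, R5_184, R8_397⟩]⟩, ⟨nat_lit 6, [⟨nat_lit 7, nat_lit 15360, nat_lit 2352, nat_lit 8736, nat_lit 8976, nat_lit 11472, R11_182, R5_187, R9_239⟩]⟩, ⟨nat_lit 7, [⟨nat_lit 7, nat_lit 15408, nat_lit 2304, nat_lit 6192, nat_lit 9120, nat_lit 13440, R0_129, R5_190, R5_280⟩]⟩]⟩], [⟨nat_lit 3, [⟨nat_lit 3, [⟨nat_lit 0, nat_lit 4416, nat_lit 4752, nat_lit 7728, nat_lit 528, nat_lit 1392, R11_161, R4_11, R4_29⟩, ⟨nat_lit 2, nat_lit 10704, nat_lit 4800, nat_lit 7776, nat_lit 2112, nat_lit 624, R11_162, R5_44, R5_13⟩]⟩]⟩,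
 ⟨nat_lit 4, [⟨nat_lit 4, [⟨nat_lit 3, nat_lit 11856, nat_lit 4416, nat_lit 12432, nat_lit 5568, nat_lit 17568, R4_259, R7_116, R7_366⟩, ⟨nat_lit 7, nat_lit 15120, nat_lit 4368, nat_lit 5856, nat_lit 5856, nat_lit 15120, R4_122, R4_122, R4_315⟩]⟩, ⟨nat_lit 7, [⟨nat_lit 3, nat_lit 11904, nat_lit 4464, nat_lit 1488, nat_lit 6000, nat_lit 11712, R3_31, R7_125, R14_244⟩]⟩]⟩,
 ⟨nat_lit 6, [⟨nat_lit 4, [⟨nat_lit 7, nat_lit 15456, nat_lit 4656, nat_lit 8880, nat_lit 8880, nat_lit 15456, R5_185, R5_185, R4_322⟩]⟩, ⟨nat_lit 6, [⟨nat_lit 7, nat_lit 15504, nat_lit 4704, nat_lit 8544, nat_lit 9024, nat_lit 17088, R11_178, R5_188, R5_356⟩]⟩]⟩,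
 ⟨nat_lit 7, [⟨nat_lit 3, [⟨nat_lit 0, nat_lit 4320, nat_lit 4608, nat_lit 6816, nat_lit 720, nat_lit 1824, R1_142, R7_15, R4_38⟩]⟩, ⟨nat_lit 7, [⟨nat_lit 0, nat_lit 4272, nat_lit 4512, nat_lit 7584, nat_lit 1152, nat_lit 2064, R10_158, R7_24, R7_43⟩, ⟨nat_lit 3, nat_lit 12048, nat_lit 4560, nat_lit 7632, nat_lit 17184, nat_lit 11760, R10_159, R14_358, R14_245⟩]⟩]⟩]], [[], [], [], [], [⟨nat_lit 4, [⟨nat_lit 4, [⟨nat_lit 1, nat_lit 4560, nat_lit 8592, nat_lit 14064, nat_lit 5472, nat_lit 16320, R4_293, R6_114, R6_340⟩]⟩]⟩], [], [], [⟨nat_lit 4, [⟨nat_lit 4, [⟨nat_lit 1, nat_lit 4800, nat_lit 11376, nat_lit 14160, nat_lit 5520, nat_lit 18144, R4_295, R6_115, R8_378⟩]⟩, ⟨nat_lit 7, [⟨nat_lit 1, nat_lit 4992, nat_lit 11424, nat_lit 2928, nat_lit 5568, nat_lit 3408, R3_61, R6_116, R5_71⟩]⟩]⟩]], [], [[], [], [], [],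 [⟨nat_lit 4, [⟨nat_lit 4, [⟨nat_lit 1, nat_lit 5664, nat_lit 4368, nat_lit 14928, nat_lit 5808, nat_lit 16368, R4_311, R4_121, R6_341⟩]⟩]⟩], [], [⟨nat_lit 4, [⟨nat_lit 4, [⟨nat_lit 1, nat_lit 5856, nat_lit 4368, nat_lit 15120, nat_lit 5856, nat_lit 15120, R4_315, R4_122, R4_315⟩, ⟨nat_lit 5, nat_lit 12432, nat_lit 4416, nat_lit 11856, nat_lit 5568, nat_lit 17568, R4_247, R7_116, R7_366⟩]⟩]⟩,
 ⟨nat_lit 6, [⟨nat_lit 4, [⟨nat_lit 5, nat_lit 12624, nat_lit 5616, nat_lit 12768, nat_lit 7728, nat_lit 17664, R5_266, R2_161, R7_368⟩]⟩, ⟨nat_lit 6, [⟨nat_lit 5, nat_lit 12768, nat_lit 6528, nat_lit 7008, nat_lit 7872, nat_lit 14880, R11_146, R2_164, R2_310⟩]⟩]⟩], [⟨nat_lit 4, [⟨nat_lit 4, [⟨nat_lit 1, nat_lit 6096, nat_lit 2160, nat_lit 15024, nat_lit 5904, nat_lit 18192, R4_313, R4_123, R8_379⟩]⟩, ⟨nat_lit 7, [⟨nat_lit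 1, nat_lit 6192, nat_lit 2400, nat_lit 3552, nat_lit 5952, nat_lit 3696, R3_74, R4_124, R5_77⟩]⟩]⟩]], [[], [], [], [⟨nat_lit 4, [⟨nat_lit 4, [⟨nat_lit 3, nat_lit 11040, nat_lit 2592, nat_lit 13056, nat_lit 8928, nat_lit 17616, R4_272, R4_186, R7_367⟩]⟩, ⟨nat_lit 7, [⟨nat_lit 0, nat_lit 2256, nat_lit 2736, nat_lit 3072, nat_lit 8928, nat_lit 3552, R3_64, R6_186, R7_74⟩, ⟨nat_lit 3, nat_lit 11136, nat_lit 2784, nat_lit 3168, nat_lit 9552, nat_lit 11808, R3_66, R4_199, R14_246⟩]⟩]⟩,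
 ⟨nat_lit 7, [⟨nat_lit 3, [⟨nat_lit 0, nat_lit 3072, nat_lit 3936, nat_lit 4512, nat_lit 3792, nat_lit 4032, R1_94, R4_79, R4_84⟩]⟩, ⟨nat_lit 7, [⟨nat_lit 0, nat_lit 2976, nat_lit 3456, nat_lit 5232, nat_lit 1680, nat_lit 3984, R10_109, R4_35, R7_83⟩]⟩]⟩], [], [], [], [⟨nat_lit 4, [⟨nat_lit 4, [⟨nat_lit 0, nat_lit 1920, nat_lit 2736, nat_lit 12240, nat_lit 8304, nat_lit 15120, R4_255, R6_173, R6_315⟩, ⟨nat_lit 1, nat_lit 7440, nat_lit 2832, nat_lit 14640, nat_lit 5232, nat_lit 18240, R4_305, R8_109, R8_380⟩, ⟨nat_lit 3, nat_lit 10848, nat_lit 2784, nat_lit 13104, nat_lit 8880, nat_lit 14544, R4_273, R4_185, R4_303⟩]⟩, ⟨nat_lit 7, [⟨nat_lit 0, nat_lit 2112, nat_lit 3456, nat_lit 3024, nat_lit 8880, nat_lit 336, R3_63, R6_185, R4_7⟩, ⟨nat_lit 1, nat_lit 7632, nat_lit 3504, nat_lit 3264, nat_lit 5280, nat_lit 3936,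 R3_68, R8_110, R5_82⟩]⟩]⟩,
 ⟨nat_lit 7, [⟨nat_lit 7, [⟨nat_lit 0, nat_lit 2832, nat_lit 4032, nat_lit 4608, nat_lit 1152, nat_lit 912, R10_96, R4_24, R4_19⟩, ⟨nat_lit 1, nat_lit 8016, nat_lit 4080, nat_lit 4656, nat_lit 144, nat_lit 4080, R10_97, R5_3, R5_85⟩]⟩]⟩]]], [[], [], [], [], [[], [], [], [], [⟨nat_lit 4, [⟨nat_lit 4, [⟨nat_lit 1, nat_lit 4608, nat_lit 4464, nat_lit 15216, nat_lit 5664, nat_lit 16080, R8_317, R6_118, R6_335⟩]⟩, ⟨nat_lit 5, [⟨nat_lit 1, nat_lit 4656, nat_lit 4704, nat_lit 1200, nat_lit 5808, nat_lit 21312, R5_25, R6_121, R13_444⟩]⟩]⟩,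
 ⟨nat_lit 5, [⟨nat_lit 4, [⟨nat_lit 1, nat_lit 5184, nat_lit 4512, nat_lit 1488, nat_lit 6240, nat_lit 16176, R5_31, R13_130, R6_337⟩]⟩, ⟨nat_lit 5, [⟨nat_lit 0, nat_lit 0, nat_lit 0, nat_lit 144, nat_lit 1056, nat_lit 4272, R11_3, R6_22, R6_89⟩, ⟨nat_lit 1, nat_lit 5232, nat_lit 4752, nat_lit 768, nat_lit 6384, nat_lit 21408, R11_16, R13_133, R13_446⟩]⟩]⟩], [⟨nat_lit 4, [⟨nat_lit 5, [⟨nat_lit 1, nat_lit 4704, nat_lit 14304, nat_lit 1296, nat_lit 5904, nat_lit 17376, R5_27, R6_123, R3_362⟩]⟩]⟩,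
 ⟨nat_lit 5, [⟨nat_lit 5, [⟨nat_lit 0, nat_lit 48, nat_lit 14496, nat_lit 240, nat_lit 1392, nat_lit 4368, R11_5, R6_29, R4_91⟩, ⟨nat_lit 1, nat_lit 5280, nat_lit 14688, nat_lit 864, nat_lit 6480, nat_lit 17472, R11_18, R13_135, R3_364⟩]⟩]⟩], [], [⟨nat_lit 4, [⟨nat_lit 4, [⟨nat_lit 1, nat_lit 4848, nat_lit 13104, nat_lit 15792, nat_lit 5712, nat_lit 17904, R8_329, R6_119, R8_373⟩]⟩, ⟨nat_lit 5, [⟨nat_lit 1, nat_lit 4896, nat_lit 13200, nat_lit 1248, nat_lit 5856, nat_lit 17712, R5_26, R6_122, R9_369⟩]⟩, ⟨nat_lit 7, [⟨nat_lit 1, nat_lit 5040, nat_lit 13152, nat_lit 1920, nat_lit 5760, nat_lit 3312, R9_40, R6_120, R5_69⟩]⟩]⟩,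
 ⟨nat_lit 5, [⟨nat_lit 4, [⟨nat_lit 0, nat_lit 144, nat_lit 13488, nat_lit 8496, nat_lit 1152, nat_lit 16608, R5_177, R6_24, R6_346⟩, ⟨nat_lit 1, nat_lit 5376, nat_lit 13728, nat_lit 9936, nat_lit 6288, nat_lit 18000, R5_207, R13_131, R8_375⟩]⟩, ⟨nat_lit 5, [⟨nat_lit 0, nat_lit 192, nat_lit 13584, nat_lit 192, nat_lit 1344, nat_lit 4272, R11_4, R6_28, R8_89⟩, ⟨nat_lit 1, nat_lit 5424, nat_lit 13824, nat_lit 816, nat_lit 6432, nat_lit 17808, R11_17, R13_134, R9_371⟩]⟩, ⟨nat_lit 7, [⟨nat_lit 0, nat_lit 288, nat_lit 13536, nat_lit 48, nat_lit 1296, nat_lit 2160, R0_1, R6_27, R4_45⟩, ⟨nat_lit 1, nat_lit 5520, nat_lit 13776, nat_lit 240, nat_lit 6336, nat_lit 3504, R0_5, R13_132, R5_73⟩]⟩]⟩]], [[], [], [], [], [⟨nat_lit 5, [⟨nat_lit 4, [⟨nat_lit 1, nat_lit 6816, nat_lit 0, nat_lit 1584, nat_lit 4512, nat_lit 16272,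 R5_33, R3_94, R6_339⟩]⟩, ⟨nat_lit 5, [⟨nat_lit 0, nat_lit 480, nat_lit 4752, nat_lit 1344, nat_lit 960, nat_lit 4320, R11_28, R4_20, R6_90⟩, ⟨nat_lit 1, nat_lit 6864, nat_lit 5040, nat_lit 1488, nat_lit 4656, nat_lit 21504, R11_31, R3_97, R13_448⟩]⟩]⟩], [⟨nat_lit 5, [⟨nat_lit 5, [⟨nat_lit 0, nat_lit 528, nat_lit 18000, nat_lit 1440, nat_lit 1392, nat_lit 4416, R11_30, R4_29, R4_92⟩, ⟨nat_lit 1, nat_lit 6912, nat_lit 18192, nat_lit 1584, nat_lit 4752, nat_lit 17568, R11_33, R3_99, R3_366⟩]⟩]⟩], [], [⟨nat_lit 5, [⟨nat_lit 4, [⟨nat_lit 0, nat_lit 720, nat_lit 11616, nat_lit 8688, nat_lit 1056, nat_lit 16704, R5_181, R4_22, R6_348⟩, ⟨nat_lit 1, nat_lit 7104, nat_lit 11856, nat_lit 10080, nat_lit 4560, nat_lit 18096, R5_210, R3_95, R8_377⟩]⟩, ⟨nat_lit 5, [⟨nat_lit 0, nat_lit 768, nat_lit 11712, nat_lit 1392, nat_lit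 1248, nat_lit 4416, R11_29, R4_26, R8_92⟩, ⟨nat_lit 1, nat_lit 7152, nat_lit 11952, nat_lit 1536, nat_lit 4704, nat_lit 17904, R11_32, R3_98, R9_373⟩]⟩, ⟨nat_lit 7, [⟨nat_lit 0, nat_lit 864, nat_lit 11664, nat_lit 432, nat_lit 1200, nat_lit 2880, R0_9, R4_25, R4_60⟩, ⟨nat_lit 1, nat_lit 7248, nat_lit 11904, nat_lit 480, nat_lit 4608, nat_lit 4272, R0_10, R3_96, R5_89⟩]⟩]⟩]], [[], [], [], [], [⟨nat_lit 4, [⟨nat_lit 4, [⟨nat_lit 1, nat_lit 5712, nat_lit 0, nat_lit 15360, nat_lit 6048, nat_lit 16128, R8_320, R4_126, R6_336⟩]⟩, ⟨nat_lit 5, [⟨nat_lit 1, nat_lit 5760, nat_lit 4368, nat_lit 3600, nat_lit 6144, nat_lit 21360, R5_75, R4_128, R13_445⟩]⟩]⟩,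
 ⟨nat_lit 5, [⟨nat_lit 4, [⟨nat_lit 1, nat_lit 6336, nat_lit 96, nat_lit 1680, nat_lit 768, nat_lit 16224, R5_35, R3_16, R6_338⟩]⟩, ⟨nat_lit 5, [⟨nat_lit 1, nat_lit 6384, nat_lit 4464, nat_lit 3600, nat_lit 816, nat_lit 21456, R11_75, R3_17, R13_447⟩]⟩]⟩], [⟨nat_lit 4, [⟨nat_lit 5, [⟨nat_lit 1, nat_lit 6000, nat_lit 2832, nat_lit 3648, nat_lit 6240, nat_lit 17424, R5_76, R4_130, R3_363⟩]⟩]⟩,
 ⟨nat_lit 5, [⟨nat_lit 5, [⟨nat_lit 1, nat_lit 6576, nat_lit 2928, nat_lit 3648, nat_lit 1152, nat_lit 17520, R11_76, R3_24, R3_365⟩]⟩]⟩], [⟨nat_lit 4, [⟨nat_lit 4, [⟨nat_lit 1, nat_lit 5904, nat_lit 2160, nat_lit 16560, nat_lit 6096, nat_lit 15024, R8_345, R4_127, R4_313⟩, ⟨nat_lit 5, nat_lit 12480, nat_lit 12144, nat_lit 10512, nat_lit 5616, nat_lit 17424, R8_219, R7_117, R7_363⟩]⟩, ⟨nat_lit 5, [⟨nat_lit 1, nat_lit 5952,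 nat_lit 2400, nat_lit 3696, nat_lit 6192, nat_lit 3552, R5_77, R4_129, R3_74⟩, ⟨nat_lit 5, nat_lit 12528, nat_lit 12336, nat_lit 2736, nat_lit 5664, nat_lit 15552, R5_57, R7_118, R2_324⟩]⟩]⟩,
 ⟨nat_lit 5, [⟨nat_lit 4, [⟨nat_lit 1, nat_lit 6480, nat_lit 2208, nat_lit 13392, nat_lit 912, nat_lit 15072, R5_279, R3_19, R4_314⟩, ⟨nat_lit 5, nat_lit 12960, nat_lit 12192, nat_lit 13056, nat_lit 4032, nat_lit 17520, R5_272, R2_84, R7_365⟩]⟩, ⟨nat_lit 5, [⟨nat_lit 1, nat_lit 6528, nat_lit 2448, nat_lit 3696, nat_lit 960, nat_lit 3600, R11_77, R3_20, R3_75⟩, ⟨nat_lit 5, nat_lit 13008, nat_lit 12384, nat_lit 2736, nat_lit 4080, nat_lit 15648, R11_57, R2_85, R2_326⟩]⟩]⟩,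
 ⟨nat_lit 6, [⟨nat_lit 4, [⟨nat_lit 5, nat_lit 12672, nat_lit 12240, nat_lit 11280, nat_lit 7776, nat_lit 17472, R9_235, R2_162, R7_364⟩]⟩, ⟨nat_lit 5, [⟨nat_lit 5, nat_lit 12864, nat_lit 12480, nat_lit 9792, nat_lit 7968, nat_lit 15600, R0_204, R2_166, R2_325⟩]⟩, ⟨nat_lit 6, [⟨nat_lit 5, nat_lit 12816, nat_lit 12624, nat_lit 9408, nat_lit 7920, nat_lit 14784, R0_196, R2_165, R2_308⟩]⟩]⟩]], [[], [], [], [], [], [], [], [⟨nat_lit 4, [⟨nat_lit 4, [⟨nat_lit 0, nat_lit 1968, nat_lit 0, nat_lit 12240, nat_lit 8400, nat_lit 14784, R8_255, R6_175, R6_308⟩, ⟨nat_lit 1, nat_lit 7488, nat_lit 7200, nat_lit 15936, nat_lit 5328, nat_lit 17952, R8_332, R8_111, R8_374⟩, ⟨nat_lit 3, nat_lit 10896, nat_lit 5568, nat_lit 14160, nat_lit 9024, nat_lit 14352, R8_295, R4_188, R4_299⟩]⟩, ⟨nat_lit 5, [⟨nat_lit 0, nat_lit 2016, nat_lit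 96, nat_lit 1824, nat_lit 9648, nat_lit 4320, R5_38, R6_201, R8_90⟩, ⟨nat_lit 1, nat_lit 7536, nat_lit 7392, nat_lit 2304, nat_lit 5424, nat_lit 17760, R5_48, R8_113, R9_370⟩, ⟨nat_lit 3, nat_lit 10944, nat_lit 5616, nat_lit 2016, nat_lit 10608, nat_lit 17568, R5_42, R4_221, R5_366⟩]⟩, ⟨nat_lit 7, [⟨nat_lit 0, nat_lit 2160, nat_lit 48, nat_lit 2160, nat_lit 9408, nat_lit 288, R9_45, R6_196, R4_6⟩, ⟨nat_lit 1, nat_lit 7680, nat_lit 7296, nat_lit 2592, nat_lit 5376, nat_lit 3888, R9_54, R8_112, R5_81⟩]⟩]⟩,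
 ⟨nat_lit 5, [⟨nat_lit 4, [⟨nat_lit 0, nat_lit 2448, nat_lit 576, nat_lit 8592, nat_lit 816, nat_lit 16656, R5_179, R8_17, R6_347⟩, ⟨nat_lit 1, nat_lit 7776, nat_lit 8304, nat_lit 10032, nat_lit 4704, nat_lit 18048, R5_209, R9_98, R8_376⟩, ⟨nat_lit 3, nat_lit 11280, nat_lit 5856, nat_lit 9072, nat_lit 5328, nat_lit 15264, R5_189, R5_111, R4_318⟩]⟩, ⟨nat_lit 5, [⟨nat_lit 0, nat_lit 2496, nat_lit 672, nat_lit 1824, nat_lit 960, nat_lit 4368, R11_38, R8_20, R8_91⟩, ⟨nat_lit 1, nat_lit 7824, nat_lit 8496, nat_lit 2304, nat_lit 4800, nat_lit 17856, R11_48, R9_100, R9_372⟩, ⟨nat_lit 3, nat_lit 11328, nat_lit 5904, nat_lit 2016, nat_lit 5376, nat_lit 17616, R11_42, R5_112, R5_367⟩]⟩, ⟨nat_lit 7, [⟨nat_lit 0, nat_lit 2592, nat_lit 624, nat_lit 624, nat_lit 912, nat_lit 2592, R0_13, R8_19, R4_54⟩, ⟨nat_lit 1, nat_lit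 7920, nat_lit 8400, nat_lit 1056, nat_lit 4752, nat_lit 4176, R0_22, R9_99, R5_87⟩]⟩]⟩,
 ⟨nat_lit 7, [⟨nat_lit 7, [⟨nat_lit 0, nat_lit 2880, nat_lit 432, nat_lit 11664, nat_lit 1200, nat_lit 864, R0_243, R4_25, R4_18⟩, ⟨nat_lit 1, nat_lit 8064, nat_lit 8016, nat_lit 14496, nat_lit 192, nat_lit 4032, R0_302, R5_4, R5_84⟩]⟩]⟩]]], [[], [], [], [], [[], [], [], [⟨nat_lit 5, [⟨nat_lit 3, [⟨nat_lit 0, nat_lit 432, nat_lit 12192, nat_lit 96, nat_lit 960, nat_lit 3264, R1_2, R6_20, R4_68⟩]⟩, ⟨nat_lit 7, [⟨nat_lit 0, nat_lit 384, nat_lit 12144, nat_lit 192, nat_lit 1008, nat_lit 2928, R10_4, R6_21, R7_61⟩]⟩]⟩], [], [], [], [⟨nat_lit 4, [⟨nat_lit 7, [⟨nat_lit 1, nat_lit 5088, nat_lit 8544, nat_lit 16080, nat_lit 5616, nat_lit 3360, R3_335, R6_117, R5_70⟩]⟩]⟩,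
 ⟨nat_lit 5, [⟨nat_lit 7, [⟨nat_lit 0, nat_lit 336, nat_lit 3024, nat_lit 144, nat_lit 1248, nat_lit 2112, R10_3, R6_26, R4_44⟩, ⟨nat_lit 1, nat_lit 5568, nat_lit 8832, nat_lit 480, nat_lit 6192, nat_lit 3552, R10_10, R13_129, R5_74⟩]⟩]⟩]], [[], [], [], [⟨nat_lit 5, [⟨nat_lit 3, [⟨nat_lit 0, nat_lit 1344, nat_lit 12768, nat_lit 432, nat_lit 576, nat_lit 4464, R1_9, R4_12, R4_93⟩]⟩, ⟨nat_lit 7, [⟨nat_lit 0, nat_lit 1296, nat_lit 12720, nat_lit 720, nat_lit 624, nat_lit 4656, R10_15, R4_13, R7_97⟩]⟩]⟩], [], [], [], [⟨nat_lit 5, [⟨nat_lit 7, [⟨nat_lit 0, nat_lit 912, nat_lit 14064, nat_lit 672, nat_lit 1152, nat_lit 2832, R10_14, R4_24, R4_59⟩, ⟨nat_lit 1, nat_lit 7296, nat_lit 14256, nat_lit 816, nat_lit 4464, nat_lit 4320, R10_17, R3_93, R5_90⟩]⟩]⟩]], [[], [], [], [], [], [], [], [⟨nat_lit 4, [⟨nat_lit 7, [⟨nat_lit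 1, nat_lit 6240, nat_lit 2832, nat_lit 17424, nat_lit 6000, nat_lit 3648, R3_363, R4_125, R5_76⟩]⟩]⟩,
 ⟨nat_lit 5, [⟨nat_lit 7, [⟨nat_lit 1, nat_lit 6720, nat_lit 3216, nat_lit 2544, nat_lit 1104, nat_lit 3792, R10_53, R3_23, R5_79⟩]⟩]⟩]], [[], [], [], [⟨nat_lit 4, [⟨nat_lit 3, [⟨nat_lit 0, nat_lit 2352, nat_lit 2784, nat_lit 1296, nat_lit 7536, nat_lit 3456, R2_27, R6_157, R4_72⟩]⟩, ⟨nat_lit 7, [⟨nat_lit 0, nat_lit 2304, nat_lit 2688, nat_lit 11616, nat_lit 9072, nat_lit 3504, R3_242, R6_189, R7_73⟩, ⟨nat_lit 3, nat_lit 11184, nat_lit 2736, nat_lit 13920, nat_lit 9744, nat_lit 11616, R3_290, R4_203, R14_242⟩]⟩]⟩,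
 ⟨nat_lit 5, [⟨nat_lit 3, [⟨nat_lit 0, nat_lit 2736, nat_lit 2928, nat_lit 768, nat_lit 624, nat_lit 4176, R1_16, R8_13, R4_87⟩]⟩, ⟨nat_lit 7, [⟨nat_lit 0, nat_lit 2688, nat_lit 2832, nat_lit 1056, nat_lit 720, nat_lit 4464, R10_22, R8_15, R7_93⟩, ⟨nat_lit 3, nat_lit 11472, nat_lit 2880, nat_lit 1488, nat_lit 5280, nat_lit 11664, R10_31, R5_110, R14_243⟩]⟩]⟩,
 ⟨nat_lit 7, [⟨nat_lit 3, [⟨nat_lit 0, nat_lit 3120, nat_lit 2976, nat_lit 5904, nat_lit 3744, nat_lit 3984, R12_123, R4_78, R4_83⟩]⟩]⟩]]], [[], [[⟨nat_lit 1, [⟨nat_lit 0, [⟨nat_lit 2, nat_lit 9648, nat_lit 1584, nat_lit 1056, nat_lit 13584, nat_lit 9936, R7_22, R3_283, R6_207⟩]⟩, ⟨nat_lit 3, [⟨nat_lit 0, nat_lit 3504, nat_lit 8160, nat_lit 96, nat_lit 3600, nat_lit 11088, R2_2, R4_75, R6_231⟩, ⟨nat_lit 2, nat_lit 9792, nat_lit 8208, nat_lit 240, nat_lit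 13632, nat_lit 9456, R2_5, R3_284, R8_197⟩]⟩]⟩], [⟨nat_lit 1, [⟨nat_lit 0, [⟨nat_lit 0, nat_lit 3600, nat_lit 96, nat_lit 7008, nat_lit 3504, nat_lit 3312, R7_146, R4_73, R6_69⟩, ⟨nat_lit 2, nat_lit 9888, nat_lit 144, nat_lit 7056, nat_lit 13728, nat_lit 12960, R7_147, R3_286, R13_270⟩]⟩, ⟨nat_lit 1, [⟨nat_lit 0, nat_lit 3696, nat_lit 5808, nat_lit 5232, nat_lit 3936, nat_lit 3024, R2_109, R4_82, R4_63⟩, ⟨nat_lit 2, nat_lit 10032, nat_lit 5856, nat_lit 5280, nat_lit 13824, nat_lit 9648, R2_110, R3_288, R3_201⟩]⟩, ⟨nat_lit 3, [⟨nat_lit 0, nat_lit 3840, nat_lit 7104, nat_lit 7104, nat_lit 3840, nat_lit 3024, R2_148, R4_80, R8_63⟩, ⟨nat_lit 2, nat_lit 10176, nat_lit 7152, nat_lit 7248, nat_lit 13776, nat_lit 10176, R2_151, R3_287, R9_212⟩]⟩]⟩], [], [⟨nat_lit 1, [⟨nat_lit 3, [⟨nat_lit 0, nat_lit 3936, nat_lit 5232,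 nat_lit 5808, nat_lit 3696, nat_lit 3024, R2_121, R4_77, R4_63⟩, ⟨nat_lit 2, nat_lit 10272, nat_lit 5520, nat_lit 5952, nat_lit 13680, nat_lit 768, R2_124, R3_285, R5_16⟩]⟩]⟩]], [], [], [], [[⟨nat_lit 1, [⟨nat_lit 0, [⟨nat_lit 2, nat_lit 8160, nat_lit 1488, nat_lit 624, nat_lit 1920, nat_lit 9984, R7_13, R2_40, R6_208⟩]⟩, ⟨nat_lit 3, [⟨nat_lit 0, nat_lit 1488, nat_lit 8160, nat_lit 1920, nat_lit 624, nat_lit 9984, R2_40, R7_13, R6_208⟩, ⟨nat_lit 2, nat_lit 8208, nat_lit 8208, nat_lit 2016, nat_lit 2016, nat_lit 9504, R2_42, R2_42, R8_198⟩]⟩]⟩], [⟨nat_lit 1, [⟨nat_lit 0, [⟨nat_lit 0, nat_lit 1584, nat_lit 12336, nat_lit 6576, nat_lit 768, nat_lit 3264, R7_137, R7_16, R6_68⟩, ⟨nat_lit 2, nat_lit 8304, nat_lit 12480, nat_lit 6624, nat_lit 1968, nat_lit 13008, R7_138, R2_41, R13_271⟩]⟩, ⟨nat_lit 1, [⟨nat_lit 0,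 nat_lit 1632, nat_lit 13104, nat_lit 4752, nat_lit 912, nat_lit 2928, R2_99, R7_19, R4_61⟩, ⟨nat_lit 2, nat_lit 8352, nat_lit 13248, nat_lit 4800, nat_lit 2304, nat_lit 9696, R2_100, R2_48, R3_202⟩]⟩, ⟨nat_lit 3, [⟨nat_lit 0, nat_lit 1728, nat_lit 12768, nat_lit 9696, nat_lit 816, nat_lit 4176, R2_202, R7_17, R8_87⟩, ⟨nat_lit 2, nat_lit 8448, nat_lit 12912, nat_lit 9792, nat_lit 2160, nat_lit 10224, R2_204, R2_45, R9_213⟩]⟩]⟩,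
 ⟨nat_lit 5, [⟨nat_lit 0, [⟨nat_lit 0, nat_lit 1008, nat_lit 4320, nat_lit 6768, nat_lit 672, nat_lit 3120, R4_141, R4_14, R6_65⟩]⟩, ⟨nat_lit 1, [⟨nat_lit 0, nat_lit 1104, nat_lit 4896, nat_lit 5472, nat_lit 816, nat_lit 2784, R3_114, R4_17, R4_58⟩]⟩]⟩]]], [[[⟨nat_lit 0, [⟨nat_lit 0, [⟨nat_lit 2, nat_lit 8640, nat_lit 15456, nat_lit 4704, nat_lit 12720, nat_lit 10032, R7_98, R6_265, R6_209⟩]⟩, ⟨nat_lit 2, [⟨nat_lit 2, nat_lit 8736, nat_lit 15648, nat_lit 3120, nat_lit 12768, nat_lit 10992, R2_65, R6_266, R4_229⟩]⟩, ⟨nat_lit 3, [⟨nat_lit 2, nat_lit 8784, nat_lit 15552, nat_lit 7440, nat_lit 12816, nat_lit 9600, R2_155, R6_267, R8_200⟩]⟩]⟩,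
 ⟨nat_lit 2, [⟨nat_lit 2, [⟨nat_lit 2, nat_lit 8928, nat_lit 16368, nat_lit 2592, nat_lit 13056, nat_lit 11040, R1_54, R4_272, R4_230⟩, ⟨nat_lit 6, nat_lit 13536, nat_lit 12048, nat_lit 13056, nat_lit 14160, nat_lit 11472, R1_272, R7_295, R7_239⟩]⟩]⟩,
 ⟨nat_lit 3, [⟨nat_lit 3, [⟨nat_lit 0, nat_lit 3216, nat_lit 13248, nat_lit 0, nat_lit 13680, nat_lit 10704, R1_0, R6_285, R6_223⟩, ⟨nat_lit 2, nat_lit 9120, nat_lit 16032, nat_lit 7968, nat_lit 13392, nat_lit 9648, R1_166, R8_279, R8_201⟩, ⟨nat_lit 3, nat_lit 11664, nat_lit 14592, nat_lit 5808, nat_lit 13440, nat_lit 11568, R1_121, R4_280, R4_241⟩]⟩]⟩], [], [⟨nat_lit 2, [⟨nat_lit 2, [⟨nat_lit 6, nat_lit 13680, nat_lit 10512, nat_lit 13104, nat_lit 14208, nat_lit 10752, R1_273, R7_296, R2_224⟩]⟩]⟩], [⟨nat_lit 0, [⟨nat_lit 3, [⟨nat_lit 2, nat_lit 8832, nat_lit 14448,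 nat_lit 7536, nat_lit 12864, nat_lit 432, R2_157, R6_268, R5_9⟩]⟩]⟩,
 ⟨nat_lit 3, [⟨nat_lit 3, [⟨nat_lit 0, nat_lit 3264, nat_lit 12192, nat_lit 96, nat_lit 14064, nat_lit 432, R1_2, R6_293, R4_9⟩, ⟨nat_lit 2, nat_lit 9168, nat_lit 15024, nat_lit 8064, nat_lit 13440, nat_lit 528, R1_168, R8_280, R5_11⟩]⟩]⟩]], [[⟨nat_lit 0, [⟨nat_lit 0, [⟨nat_lit 2, nat_lit 9216, nat_lit 2160, nat_lit 4896, nat_lit 18288, nat_lit 10080, R7_102, R13_381, R6_210⟩]⟩, ⟨nat_lit 2, [⟨nat_lit 2, nat_lit 9264, nat_lit 4080, nat_lit 3312, nat_lit 18336, nat_lit 11088, R2_69, R13_382, R4_231⟩]⟩, ⟨nat_lit 3, [⟨nat_lit 0, nat_lit 3312, nat_lit 2544, nat_lit 1152, nat_lit 3648, nat_lit 11424, R2_24, R6_76, R6_238⟩, ⟨nat_lit 2, nat_lit 9312, nat_lit 3120, nat_lit 8208, nat_lit 18384, nat_lit 9696, R2_171, R13_383, R8_202⟩]⟩]⟩,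
 ⟨nat_lit 1, [⟨nat_lit 0, [⟨nat_lit 2, nat_lit 9696, nat_lit 2208, nat_lit 15504, nat_lit 13872, nat_lit 10128, R14_323, R3_289, R6_211⟩]⟩, ⟨nat_lit 2, [⟨nat_lit 2, nat_lit 9744, nat_lit 4128, nat_lit 12768, nat_lit 13920, nat_lit 11184, R12_266, R3_290, R4_233⟩]⟩, ⟨nat_lit 3, [⟨nat_lit 0, nat_lit 3552, nat_lit 2640, nat_lit 48, nat_lit 3648, nat_lit 11520, R12_1, R4_76, R6_240⟩, ⟨nat_lit 2, nat_lit 9840, nat_lit 3216, nat_lit 816, nat_lit 13968, nat_lit 9792, R12_17, R3_291, R8_204⟩]⟩]⟩,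
 ⟨nat_lit 2, [⟨nat_lit 2, [⟨nat_lit 2, nat_lit 9552, nat_lit 4176, nat_lit 2784, nat_lit 3168, nat_lit 11136, R1_58, R3_66, R4_232⟩, ⟨nat_lit 6, nat_lit 13920, nat_lit 3792, nat_lit 13248, nat_lit 13728, nat_lit 11520, R1_276, R2_286, R7_240⟩]⟩]⟩,
 ⟨nat_lit 3, [⟨nat_lit 3, [⟨nat_lit 0, nat_lit 4080, nat_lit 2592, nat_lit 624, nat_lit 96, nat_lit 11472, R1_13, R8_2, R6_239⟩, ⟨nat_lit 2, nat_lit 10416, nat_lit 3168, nat_lit 9024, nat_lit 15072, nat_lit 9744, R1_188, R9_314, R8_203⟩, ⟨nat_lit 3, nat_lit 11712, nat_lit 2784, nat_lit 6144, nat_lit 15984, nat_lit 12000, R1_128, R5_333, R4_250⟩]⟩]⟩], [⟨nat_lit 0, [⟨nat_lit 0, [⟨nat_lit 0, nat_lit 3360, nat_lit 96, nat_lit 48, nat_lit 3600, nat_lit 3216, R7_1, R6_75, R6_67⟩, ⟨nat_lit 2, nat_lit 9360, nat_lit 384, nat_lit 4992, nat_lit 18480, nat_lit 13056, R7_104, R13_385,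 R13_272⟩]⟩, ⟨nat_lit 2, [⟨nat_lit 2, nat_lit 9408, nat_lit 2448, nat_lit 3408, nat_lit 18528, nat_lit 2784, R2_71, R13_386, R3_58⟩]⟩, ⟨nat_lit 3, [⟨nat_lit 0, nat_lit 3408, nat_lit 912, nat_lit 1440, nat_lit 3744, nat_lit 1872, R2_30, R6_78, R8_39⟩, ⟨nat_lit 2, nat_lit 9456, nat_lit 1488, nat_lit 8496, nat_lit 18576, nat_lit 10320, R2_177, R13_387, R9_215⟩]⟩]⟩,
 ⟨nat_lit 1, [⟨nat_lit 0, [⟨nat_lit 0, nat_lit 3648, nat_lit 144, nat_lit 15888, nat_lit 3552, nat_lit 3360, R14_331, R4_74, R6_70⟩, ⟨nat_lit 2, nat_lit 9936, nat_lit 432, nat_lit 16416, nat_lit 14064, nat_lit 13104, R14_342, R3_293, R13_273⟩]⟩, ⟨nat_lit 1, [⟨nat_lit 0, nat_lit 3744, nat_lit 576, nat_lit 12960, nat_lit 3984, nat_lit 3120, R12_270, R4_83, R4_65⟩, ⟨nat_lit 2, nat_lit 10080, nat_lit 624, nat_lit 13488, nat_lit 14208, nat_lit 9840, R12_281,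 R3_296, R3_205⟩]⟩, ⟨nat_lit 2, [⟨nat_lit 2, nat_lit 9984, nat_lit 2496, nat_lit 13200, nat_lit 14112, nat_lit 2880, R12_275, R3_294, R3_60⟩]⟩, ⟨nat_lit 3, [⟨nat_lit 0, nat_lit 3888, nat_lit 1008, nat_lit 6816, nat_lit 3888, nat_lit 3072, R12_142, R4_81, R8_64⟩, ⟨nat_lit 2, nat_lit 10224, nat_lit 1584, nat_lit 8256, nat_lit 14160, nat_lit 10416, R12_172, R3_295, R9_217⟩]⟩]⟩,
 ⟨nat_lit 2, [⟨nat_lit 2, [⟨nat_lit 2, nat_lit 9600, nat_lit 2544, nat_lit 2880, nat_lit 3216, nat_lit 2832, R1_60, R3_67, R3_59⟩, ⟨nat_lit 6, nat_lit 14016, nat_lit 2160, nat_lit 13344, nat_lit 13824, nat_lit 10320, R1_278, R2_288, R2_215⟩]⟩]⟩,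
 ⟨nat_lit 3, [⟨nat_lit 3, [⟨nat_lit 0, nat_lit 4128, nat_lit 960, nat_lit 912, nat_lit 1968, nat_lit 2736, R1_19, R8_41, R8_57⟩, ⟨nat_lit 2, nat_lit 10464, nat_lit 1536, nat_lit 9312, nat_lit 15168, nat_lit 10368, R1_194, R9_316, R9_216⟩, ⟨nat_lit 3, nat_lit 11760, nat_lit 1152, nat_lit 6336, nat_lit 16032, nat_lit 12720, R1_132, R5_334, R5_265⟩]⟩]⟩], [⟨nat_lit 2, [⟨nat_lit 2, [⟨nat_lit 6, nat_lit 13968, nat_lit 1776, nat_lit 13488, nat_lit 13776, nat_lit 10944, R1_281, R2_287, R2_228⟩]⟩]⟩], [⟨nat_lit 0, [⟨nat_lit 3, [⟨nat_lit 0, nat_lit 3456, nat_lit 2784, nat_lit 1296, nat_lit 3696, nat_lit 2352, R2_27, R6_77, R4_49⟩, ⟨nat_lit 2, nat_lit 9504, nat_lit 4128, nat_lit 8352, nat_lit 18432, nat_lit 480, R2_174, R13_384, R5_10⟩]⟩]⟩,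
 ⟨nat_lit 1, [⟨nat_lit 3, [⟨nat_lit 0, nat_lit 3984, nat_lit 2976, nat_lit 5904, nat_lit 3744, nat_lit 3120, R12_123, R4_78, R4_65⟩, ⟨nat_lit 2, nat_lit 10320, nat_lit 4416, nat_lit 6048, nat_lit 14016, nat_lit 864, R12_126, R3_292, R5_18⟩]⟩]⟩,
 ⟨nat_lit 3, [⟨nat_lit 3, [⟨nat_lit 0, nat_lit 4176, nat_lit 2928, nat_lit 768, nat_lit 624, nat_lit 2736, R1_16, R8_13, R4_57⟩, ⟨nat_lit 2, nat_lit 10512, nat_lit 4320, nat_lit 9168, nat_lit 15120, nat_lit 672, R1_191, R9_315, R5_14⟩]⟩]⟩]], [[], [], [⟨nat_lit 2, [⟨nat_lit 2, [⟨nat_lit 6, nat_lit 13872, nat_lit 10896, nat_lit 13728, nat_lit 14016, nat_lit 10848, R1_286, R2_292, R2_226⟩]⟩]⟩]], [[], [], [], [⟨nat_lit 3, [⟨nat_lit 3, [⟨nat_lit 0, nat_lit 4464, nat_lit 12768, nat_lit 432, nat_lit 576, nat_lit 1344, R1_9, R4_12, R4_28⟩, ⟨nat_lit 2, nat_lit 10752, nat_lit 16032,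 nat_lit 8688, nat_lit 2160, nat_lit 576, R1_181, R5_45, R5_12⟩]⟩]⟩]]], [[], [[], [⟨nat_lit 1, [⟨nat_lit 1, [⟨nat_lit 0, nat_lit 3792, nat_lit 4512, nat_lit 3936, nat_lit 4032, nat_lit 3072, R1_82, R4_84, R4_64⟩, ⟨nat_lit 2, nat_lit 10128, nat_lit 4560, nat_lit 3984, nat_lit 14304, nat_lit 9744, R1_83, R3_298, R3_203⟩]⟩]⟩]], [], [], [], [[], [⟨nat_lit 1, [⟨nat_lit 1, [⟨nat_lit 0, nat_lit 1680, nat_lit 13968, nat_lit 3456, nat_lit 960, nat_lit 2976, R1_72, R7_20, R4_62⟩, ⟨nat_lit 2, nat_lit 8400, nat_lit 14016, nat_lit 3504, nat_lit 2352, nat_lit 9792, R1_73, R2_49, R3_204⟩]⟩]⟩,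
 ⟨nat_lit 5, [⟨nat_lit 1, [⟨nat_lit 0, nat_lit 1152, nat_lit 14064, nat_lit 672, nat_lit 912, nat_lit 2832, R10_14, R4_19, R4_59⟩]⟩]⟩], [], [], [], [⟨nat_lit 1, [⟨nat_lit 1, [⟨nat_lit 0, nat_lit 1440, nat_lit 12576, nat_lit 15216, nat_lit 1008, nat_lit 4608, R1_317, R7_21, R7_96⟩, ⟨nat_lit 1, nat_lit 7344, nat_lit 12624, nat_lit 15360, nat_lit 48, nat_lit 3024, R1_320, R2_1, R2_63⟩, ⟨nat_lit 2, nat_lit 8112, nat_lit 12672, nat_lit 15264, nat_lit 2256, nat_lit 864, R1_318, R2_47, R2_18⟩]⟩]⟩,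
 ⟨nat_lit 5, [⟨nat_lit 1, [⟨nat_lit 0, nat_lit 624, nat_lit 12720, nat_lit 720, nat_lit 1296, nat_lit 4656, R10_15, R4_27, R7_97⟩, ⟨nat_lit 1, nat_lit 7008, nat_lit 12816, nat_lit 768, nat_lit 4848, nat_lit 3072, R10_16, R3_101, R2_64⟩]⟩, ⟨nat_lit 5, [⟨nat_lit 0, nat_lit 576, nat_lit 12768, nat_lit 432, nat_lit 1344, nat_lit 4464, R1_9, R4_28, R4_93⟩, ⟨nat_lit 1, nat_lit 6960, nat_lit 12864, nat_lit 480, nat_lit 4800, nat_lit 17328, R1_10, R3_100, R3_361⟩]⟩]⟩]]], [[], [[], [], [], [⟨nat_lit 1, [⟨nat_lit 3, [⟨nat_lit 0, nat_lit 4032, nat_lit 3936, nat_lit 4512, nat_lit 3792, nat_lit 3072, R1_94, R4_79, R4_64⟩, ⟨nat_lit 2, nat_lit 10368, nat_lit 4224, nat_lit 4656, nat_lit 14256, nat_lit 816, R1_97, R3_297, R5_17⟩]⟩]⟩]], [], [], [], [[⟨nat_lit 1, [⟨nat_lit 3, [⟨nat_lit 0, nat_lit 1536, nat_lit 4608, nat_lit 1392,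 nat_lit 672, nat_lit 10368, R1_29, R7_14, R6_216⟩, ⟨nat_lit 2, nat_lit 8256, nat_lit 6192, nat_lit 1488, nat_lit 2064, nat_lit 9552, R1_31, R2_43, R8_199⟩]⟩]⟩,
 ⟨nat_lit 5, [⟨nat_lit 3, [⟨nat_lit 0, nat_lit 960, nat_lit 4752, nat_lit 1344, nat_lit 480, nat_lit 10416, R11_28, R4_10, R6_217⟩]⟩]⟩], [⟨nat_lit 1, [⟨nat_lit 3, [⟨nat_lit 0, nat_lit 1776, nat_lit 11520, nat_lit 10512, nat_lit 864, nat_lit 4224, R1_219, R7_18, R8_88⟩, ⟨nat_lit 2, nat_lit 8496, nat_lit 11568, nat_lit 10608, nat_lit 2208, nat_lit 10272, R1_221, R2_46, R9_214⟩]⟩]⟩,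
 ⟨nat_lit 5, [⟨nat_lit 0, [⟨nat_lit 0, nat_lit 1056, nat_lit 11616, nat_lit 8688, nat_lit 720, nat_lit 3168, R5_181, R4_15, R6_66⟩]⟩, ⟨nat_lit 1, [⟨nat_lit 0, nat_lit 1200, nat_lit 11664, nat_lit 432, nat_lit 864, nat_lit 2880, R0_9, R4_18, R4_60⟩]⟩, ⟨nat_lit 3, [⟨nat_lit 0, nat_lit 1248, nat_lit 11712, nat_lit 1392, nat_lit 768, nat_lit 4416, R11_29, R4_16, R8_92⟩]⟩]⟩], [], [⟨nat_lit 1, [⟨nat_lit 3, [⟨nat_lit 0, nat_lit 1824, nat_lit 17904, nat_lit 6816, nat_lit 720, nat_lit 4320, R1_142, R7_15, R4_90⟩, ⟨nat_lit 2, nat_lit 8544, nat_lit 17952, nat_lit 6912, nat_lit 2112, nat_lit 720, R1_144, R2_44, R5_15⟩]⟩]⟩,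
 ⟨nat_lit 5, [⟨nat_lit 3, [⟨nat_lit 0, nat_lit 1392, nat_lit 18000, nat_lit 1440, nat_lit 528, nat_lit 4416, R11_30, R4_11, R4_92⟩]⟩]⟩]]]]
noncomputable def N1126 : T3 (List N0) := [[], [[[], [], [⟨nat_lit 3, [⟨nat_lit 0, [⟨nat_lit 0, nat_lit 3024, nat_lit 8880, nat_lit 2640, nat_lit 19248, nat_lit 9696, R5_55, R13_401, R7_202⟩, ⟨nat_lit 1, nat_lit 3072, nat_lit 9168, nat_lit 13872, nat_lit 15504, nat_lit 12288, R5_289, R3_323, R14_256⟩]⟩, ⟨nat_lit 2, [⟨nat_lit 0, nat_lit 3120, nat_lit 9024, nat_lit 6432, nat_lit 19344, nat_lit 8736, R0_134, R13_403, R2_182⟩, ⟨nat_lit 1, nat_lit 3168, nat_lit 9264, nat_lit 6528, nat_lit 15600, nat_lit 11232, R0_136, R3_325, R12_234⟩, ⟨nat_lit 2, nat_lit 3216, nat_lit 9456, nat_lit 6480, nat_lit 15600, nat_lit 9552, R0_135, R9_325, R1_199⟩]⟩, ⟨nat_lit 3, [⟨nat_lit 0, nat_lit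 3264, nat_lit 8976, nat_lit 9024, nat_lit 19296, nat_lit 3888, R11_188, R13_402, R2_81⟩, ⟨nat_lit 1, nat_lit 3312, nat_lit 9216, nat_lit 9120, nat_lit 15552, nat_lit 16992, R11_190, R3_324, R12_354⟩, ⟨nat_lit 3, nat_lit 3360, nat_lit 9120, nat_lit 9072, nat_lit 9120, nat_lit 3360, R11_189, R3_190, R1_70⟩]⟩]⟩,
 ⟨nat_lit 7, [⟨nat_lit 3, [⟨nat_lit 3, nat_lit 3408, nat_lit 15840, nat_lit 6000, nat_lit 14112, nat_lit 13680, R1_125, R2_294, R1_285⟩]⟩]⟩]], [], [[], [], [⟨nat_lit 2, [⟨nat_lit 2, [⟨nat_lit 2, nat_lit 3600, nat_lit 5616, nat_lit 8496, nat_lit 21408, nat_lit 7248, R10_177, R11_446, R1_151⟩]⟩]⟩,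
 ⟨nat_lit 3, [⟨nat_lit 0, [⟨nat_lit 0, nat_lit 3648, nat_lit 5376, nat_lit 3216, nat_lit 12576, nat_lit 10992, R5_67, R3_262, R7_229⟩]⟩, ⟨nat_lit 2, [⟨nat_lit 0, nat_lit 3696, nat_lit 5520, nat_lit 6864, nat_lit 12960, nat_lit 9984, R0_143, R3_270, R2_208⟩, ⟨nat_lit 2, nat_lit 3744, nat_lit 5568, nat_lit 6912, nat_lit 14064, nat_lit 10800, R0_144, R0_293, R1_225⟩]⟩, ⟨nat_lit 3, [⟨nat_lit 0, nat_lit 3792, nat_lit 5424, nat_lit 9408, nat_lit 13344, nat_lit 5136, R11_196, R3_278, R2_107⟩, ⟨nat_lit 3, nat_lit 3840, nat_lit 5472, nat_lit 9456, nat_lit 19200, nat_lit 3840, R11_197, R10_400, R1_80⟩]⟩]⟩,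
 ⟨nat_lit 7, [⟨nat_lit 3, [⟨nat_lit 3, nat_lit 3888, nat_lit 5184, nat_lit 7872, nat_lit 15648, nat_lit 15504, R1_164, R1_326, R1_323⟩]⟩]⟩], [], [], [], [⟨nat_lit 0, [⟨nat_lit 0, [⟨nat_lit 0, nat_lit 3936, nat_lit 4512, nat_lit 3072, nat_lit 3792, nat_lit 4032, R4_64, R4_79, R4_84⟩]⟩, ⟨nat_lit 2, [⟨nat_lit 0, nat_lit 3984, nat_lit 4560, nat_lit 9744, nat_lit 10128, nat_lit 14304, R3_203, R4_211, R3_298⟩, ⟨nat_lit 2, nat_lit 4032, nat_lit 4608, nat_lit 10032, nat_lit 5568, nat_lit 19488, R3_209, R5_116, R10_406⟩]⟩]⟩,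
 ⟨nat_lit 2, [⟨nat_lit 2, [⟨nat_lit 2, nat_lit 4080, nat_lit 5040, nat_lit 8448, nat_lit 21312, nat_lit 19536, R10_176, R11_444, R10_407⟩]⟩, ⟨nat_lit 6, [⟨nat_lit 2, nat_lit 4128, nat_lit 4992, nat_lit 7776, nat_lit 21360, nat_lit 15888, R1_162, R11_445, R1_331⟩, ⟨nat_lit 6, nat_lit 4176, nat_lit 4944, nat_lit 7824, nat_lit 15600, nat_lit 21792, R1_163, R1_325, R11_454⟩]⟩]⟩,
 ⟨nat_lit 3, [⟨nat_lit 0, [⟨nat_lit 0, nat_lit 4224, nat_lit 4656, nat_lit 816, nat_lit 14256, nat_lit 10368, R5_17, R3_297, R4_216⟩, ⟨nat_lit 3, nat_lit 4272, nat_lit 4704, nat_lit 7776, nat_lit 19056, nat_lit 7104, R5_162, R10_397, R5_148⟩]⟩, ⟨nat_lit 2, [⟨nat_lit 0, nat_lit 4320, nat_lit 4800, nat_lit 6720, nat_lit 15072, nat_lit 15120, R0_140, R3_314, R3_315⟩, ⟨nat_lit 2, nat_lit 4368, nat_lit 4896, nat_lit 6768, nat_lit 14016, nat_lit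 19584, R0_141, R0_292, R10_408⟩, ⟨nat_lit 3, nat_lit 4416, nat_lit 4848, nat_lit 6816, nat_lit 19152, nat_lit 14352, R0_142, R10_399, R0_299⟩]⟩, ⟨nat_lit 3, [⟨nat_lit 3, nat_lit 4464, nat_lit 4752, nat_lit 9360, nat_lit 19104, nat_lit 21744, R11_195, R10_398, R11_453⟩]⟩]⟩,
 ⟨nat_lit 4, [⟨nat_lit 4, [⟨nat_lit 4, nat_lit 4512, nat_lit 3936, nat_lit 3072, nat_lit 3792, nat_lit 4032, R4_64, R4_79, R4_84⟩]⟩, ⟨nat_lit 7, [⟨nat_lit 4, nat_lit 4560, nat_lit 3984, nat_lit 9744, nat_lit 10128, nat_lit 14304, R3_203, R4_211, R3_298⟩, ⟨nat_lit 7, nat_lit 4608, nat_lit 4032, nat_lit 10032, nat_lit 5568, nat_lit 19488, R3_209, R5_116, R10_406⟩]⟩]⟩,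
 ⟨nat_lit 6, [⟨nat_lit 4, [⟨nat_lit 4, nat_lit 4656, nat_lit 4224, nat_lit 816, nat_lit 14256, nat_lit 10368, R5_17, R3_297, R4_216⟩, ⟨nat_lit 6, nat_lit 4704, nat_lit 4272, nat_lit 7776, nat_lit 19056, nat_lit 7104, R5_162, R10_397, R5_148⟩]⟩, ⟨nat_lit 6, [⟨nat_lit 6, nat_lit 4752, nat_lit 4464, nat_lit 9360, nat_lit 19104, nat_lit 21744, R11_195, R10_398, R11_453⟩]⟩, ⟨nat_lit 7, [⟨nat_lit 4, nat_lit 4800, nat_lit 4320, nat_lit 6720, nat_lit 15072, nat_lit 15120, R0_140, R3_314, R3_315⟩, ⟨nat_lit 6, nat_lit 4848, nat_lit 4416, nat_lit 6816, nat_lit 19152, nat_lit 14352, R0_142, R10_399, R0_299⟩, ⟨nat_lit 7, nat_lit 4896, nat_lit 4368, nat_lit 6768, nat_lit 14016, nat_lit 19584, R0_141, R0_292, R10_408⟩]⟩]⟩,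
 ⟨nat_lit 7, [⟨nat_lit 3, [⟨nat_lit 3, nat_lit 4944, nat_lit 4176, nat_lit 7824, nat_lit 15600, nat_lit 21792, R1_163, R1_325, R11_454⟩, ⟨nat_lit 7, nat_lit 4992, nat_lit 4128, nat_lit 7776, nat_lit 21360, nat_lit 15888, R1_162, R11_445, R1_331⟩]⟩, ⟨nat_lit 7, [⟨nat_lit 7, nat_lit 5040, nat_lit 4080, nat_lit 8448, nat_lit 21312, nat_lit 19536, R10_176, R11_444, R10_407⟩]⟩]⟩]], [[⟨nat_lit 3, [⟨nat_lit 0, [⟨nat_lit 1, nat_lit 5088, nat_lit 16272, nat_lit 13008, nat_lit 14688, nat_lit 17904, R5_271, R10_306, R7_373⟩]⟩, ⟨nat_lit 3, [⟨nat_lit 1, nat_lit 5136, nat_lit 16608, nat_lit 9168, nat_lit 15168, nat_lit 15456, R11_191, R10_316, R2_322⟩]⟩]⟩,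
 ⟨nat_lit 7, [⟨nat_lit 3, [⟨nat_lit 1, nat_lit 5184, nat_lit 16560, nat_lit 6624, nat_lit 13536, nat_lit 15312, R1_138, R1_282, R2_319⟩]⟩]⟩], [], [⟨nat_lit 3, [⟨nat_lit 0, [⟨nat_lit 0, nat_lit 5232, nat_lit 3600, nat_lit 2832, nat_lit 1872, nat_lit 10560, R5_59, R3_39, R7_220⟩, ⟨nat_lit 1, nat_lit 5280, nat_lit 3648, nat_lit 14064, nat_lit 16320, nat_lit 12336, R5_293, R10_340, R14_257⟩]⟩, ⟨nat_lit 2, [⟨nat_lit 0, nat_lit 5328, nat_lit 3792, nat_lit 6576, nat_lit 8448, nat_lit 9648, R0_137, R3_176, R2_201⟩, ⟨nat_lit 1, nat_lit 5376, nat_lit 3840, nat_lit 6672, nat_lit 17232, nat_lit 11280, R0_139, R10_359, R12_235⟩, ⟨nat_lit 2, nat_lit 5424, nat_lit 3888, nat_lit 6624, nat_lit 8832, nat_lit 10464, R0_138, R0_184, R1_218⟩]⟩, ⟨nat_lit 3, [⟨nat_lit 0, nat_lit 5472, nat_lit 3696, nat_lit 9264, nat_lit 6816, nat_lit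 4704, R11_193, R3_142, R2_98⟩, ⟨nat_lit 1, nat_lit 5520, nat_lit 3744, nat_lit 9312, nat_lit 17904, nat_lit 17184, R11_194, R10_373, R12_358⟩]⟩]⟩,
 ⟨nat_lit 7, [⟨nat_lit 3, [⟨nat_lit 0, nat_lit 5568, nat_lit 3456, nat_lit 7536, nat_lit 13536, nat_lit 13680, R1_157, R2_282, R2_285⟩, ⟨nat_lit 1, nat_lit 5616, nat_lit 3504, nat_lit 7632, nat_lit 14880, nat_lit 15456, R1_159, R1_310, R12_322⟩, ⟨nat_lit 3, nat_lit 5664, nat_lit 3552, nat_lit 7584, nat_lit 14880, nat_lit 15024, R1_158, R12_310, R1_313⟩]⟩]⟩], [⟨nat_lit 3, [⟨nat_lit 3, [⟨nat_lit 1, nat_lit 5712, nat_lit 5568, nat_lit 9216, nat_lit 18672, nat_lit 16464, R11_192, R10_389, R1_343⟩]⟩]⟩,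
 ⟨nat_lit 7, [⟨nat_lit 3, [⟨nat_lit 1, nat_lit 5760, nat_lit 5520, nat_lit 7152, nat_lit 15408, nat_lit 16320, R1_149, R1_321, R1_340⟩]⟩]⟩]], [[], [], [], [], [⟨nat_lit 4, [⟨nat_lit 4, [⟨nat_lit 5, nat_lit 5808, nat_lit 13440, nat_lit 11568, nat_lit 14304, nat_lit 11664, R4_241, R7_298, R4_243⟩]⟩, ⟨nat_lit 7, [⟨nat_lit 5, nat_lit 5856, nat_lit 13584, nat_lit 10272, nat_lit 14400, nat_lit 16656, R3_214, R7_300, R3_347⟩]⟩]⟩,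
 ⟨nat_lit 7, [⟨nat_lit 7, [⟨nat_lit 5, nat_lit 5904, nat_lit 13776, nat_lit 3360, nat_lit 13920, nat_lit 16704, R10_70, R2_290, R3_348⟩]⟩]⟩], [], [], [⟨nat_lit 4, [⟨nat_lit 7, [⟨nat_lit 5, nat_lit 5952, nat_lit 15456, nat_lit 10320, nat_lit 14544, nat_lit 14880, R3_215, R7_303, R10_310⟩]⟩]⟩,
 ⟨nat_lit 7, [⟨nat_lit 3, [⟨nat_lit 5, nat_lit 6000, nat_lit 15840, nat_lit 3408, nat_lit 14112, nat_lit 13680, R1_71, R2_294, R1_285⟩]⟩, ⟨nat_lit 7, [⟨nat_lit 5, nat_lit 6048, nat_lit 15792, nat_lit 3936, nat_lit 14160, nat_lit 15312, R10_82, R2_295, R10_319⟩]⟩]⟩]], [], [[], [], [], [], [⟨nat_lit 4, [⟨nat_lit 4, [⟨nat_lit 4, nat_lit 6096, nat_lit 14400, nat_lit 4224, nat_lit 3216, nat_lit 10848, R4_88, R7_67, R6_226⟩, ⟨nat_lit 5, nat_lit 6144, nat_lit 15984, nat_lit 12000, nat_lit 5328, nat_lit 11712, R4_250, R14_111, R4_244⟩]⟩,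 ⟨nat_lit 7, [⟨nat_lit 4, nat_lit 6192, nat_lit 14544, nat_lit 10608, nat_lit 9408, nat_lit 21072, R3_221, R7_196, R13_439⟩, ⟨nat_lit 5, nat_lit 6240, nat_lit 16080, nat_lit 10800, nat_lit 5520, nat_lit 17184, R3_225, R14_115, R3_358⟩]⟩]⟩,
 ⟨nat_lit 6, [⟨nat_lit 4, [⟨nat_lit 4, nat_lit 6288, nat_lit 14448, nat_lit 336, nat_lit 1536, nat_lit 10896, R5_7, R2_32, R6_227⟩, ⟨nat_lit 5, nat_lit 6336, nat_lit 16032, nat_lit 12720, nat_lit 7056, nat_lit 11760, R5_265, R12_147, R4_245⟩, ⟨nat_lit 6, nat_lit 6384, nat_lit 17136, nat_lit 6528, nat_lit 1008, nat_lit 9936, R5_136, R1_21, R8_207⟩]⟩, ⟨nat_lit 6, [⟨nat_lit 6, nat_lit 6432, nat_lit 17472, nat_lit 6144, nat_lit 6432, nat_lit 17472, R11_128, R1_134, R5_364⟩]⟩, ⟨nat_lit 7, [⟨nat_lit 4, nat_lit 6480, nat_lit 14640, nat_lit 4176, nat_lit 8592, nat_lit 21168, R0_87,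 R2_179, R13_441⟩, ⟨nat_lit 5, nat_lit 6528, nat_lit 16176, nat_lit 4272, nat_lit 8640, nat_lit 17280, R0_89, R12_180, R3_360⟩, ⟨nat_lit 6, nat_lit 6576, nat_lit 17280, nat_lit 4224, nat_lit 9408, nat_lit 17520, R0_88, R1_196, R9_365⟩]⟩]⟩,
 ⟨nat_lit 7, [⟨nat_lit 3, [⟨nat_lit 7, nat_lit 6624, nat_lit 16560, nat_lit 5184, nat_lit 13536, nat_lit 15312, R1_108, R1_282, R2_319⟩]⟩, ⟨nat_lit 7, [⟨nat_lit 4, nat_lit 6672, nat_lit 14592, nat_lit 6000, nat_lit 3504, nat_lit 21120, R10_125, R2_73, R13_440⟩, ⟨nat_lit 5, nat_lit 6720, nat_lit 16128, nat_lit 6096, nat_lit 14976, nat_lit 17232, R10_127, R12_312, R3_359⟩, ⟨nat_lit 7, nat_lit 6768, nat_lit 16464, nat_lit 6048, nat_lit 2976, nat_lit 10560, R10_126, R1_62, R3_220⟩]⟩]⟩], [], [⟨nat_lit 4, [⟨nat_lit 4, [⟨nat_lit 4, nat_lit 6816, nat_lit 4608, nat_lit 4320, nat_lit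 3744, nat_lit 1824, R4_90, R7_78, R4_38⟩]⟩, ⟨nat_lit 7, [⟨nat_lit 4, nat_lit 6864, nat_lit 4992, nat_lit 10704, nat_lit 10800, nat_lit 12720, R3_223, R7_225, R3_265⟩]⟩]⟩,
 ⟨nat_lit 6, [⟨nat_lit 4, [⟨nat_lit 4, nat_lit 6912, nat_lit 5808, nat_lit 720, nat_lit 2112, nat_lit 8544, R5_15, R2_44, R4_178⟩, ⟨nat_lit 6, nat_lit 6960, nat_lit 5856, nat_lit 7680, nat_lit 1584, nat_lit 7152, R5_160, R1_33, R5_149⟩]⟩, ⟨nat_lit 6, [⟨nat_lit 6, nat_lit 7008, nat_lit 6768, nat_lit 7296, nat_lit 7008, nat_lit 22176, R11_152, R1_146, R11_462⟩]⟩, ⟨nat_lit 7, [⟨nat_lit 4, nat_lit 7056, nat_lit 6336, nat_lit 5376, nat_lit 9888, nat_lit 13056, R0_112, R2_206, R3_272⟩, ⟨nat_lit 6, nat_lit 7104, nat_lit 6384, nat_lit 5424, nat_lit 10704, nat_lit 15120, R0_113, R1_223, R0_315⟩]⟩]⟩,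
 ⟨nat_lit 7, [⟨nat_lit 3, [⟨nat_lit 7, nat_lit 7152, nat_lit 5520, nat_lit 5760, nat_lit 15408, nat_lit 16320, R1_120, R1_321, R1_340⟩]⟩, ⟨nat_lit 7, [⟨nat_lit 4, nat_lit 7200, nat_lit 5280, nat_lit 6720, nat_lit 4896, nat_lit 13536, R10_140, R2_102, R3_282⟩, ⟨nat_lit 7, nat_lit 7248, nat_lit 5328, nat_lit 6768, nat_lit 3600, nat_lit 19968, R10_141, R1_75, R10_416⟩]⟩]⟩], [⟨nat_lit 4, [⟨nat_lit 7, [⟨nat_lit 4, nat_lit 7296, nat_lit 2592, nat_lit 10656, nat_lit 10320, nat_lit 2016, R3_222, R7_215, R3_42⟩, ⟨nat_lit 5, nat_lit 7344, nat_lit 2640, nat_lit 10848, nat_lit 5568, nat_lit 16464, R3_226, R14_116, R10_343⟩]⟩]⟩,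
 ⟨nat_lit 6, [⟨nat_lit 7, [⟨nat_lit 4, nat_lit 7392, nat_lit 4464, nat_lit 5040, nat_lit 9504, nat_lit 8496, R0_105, R2_198, R3_177⟩, ⟨nat_lit 5, nat_lit 7440, nat_lit 4512, nat_lit 5136, nat_lit 8688, nat_lit 17376, R0_107, R12_181, R10_362⟩, ⟨nat_lit 6, nat_lit 7488, nat_lit 4560, nat_lit 5088, nat_lit 10320, nat_lit 10464, R0_106, R1_215, R0_218⟩]⟩]⟩,
 ⟨nat_lit 7, [⟨nat_lit 3, [⟨nat_lit 4, nat_lit 7536, nat_lit 3456, nat_lit 5568, nat_lit 13536, nat_lit 13680, R1_116, R2_282, R2_285⟩, ⟨nat_lit 5, nat_lit 7584, nat_lit 3552, nat_lit 5664, nat_lit 14880, nat_lit 15024, R1_118, R12_310, R1_313⟩, ⟨nat_lit 7, nat_lit 7632, nat_lit 3504, nat_lit 5616, nat_lit 14880, nat_lit 15456, R1_117, R1_310, R12_322⟩]⟩, ⟨nat_lit 7, [⟨nat_lit 4, nat_lit 7680, nat_lit 3120, nat_lit 6432, nat_lit 4368, nat_lit 6960, R10_134,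 R2_91, R3_145⟩, ⟨nat_lit 5, nat_lit 7728, nat_lit 3168, nat_lit 6480, nat_lit 15072, nat_lit 18000, R10_135, R12_314, R10_375⟩]⟩]⟩]], [[], [], [], [⟨nat_lit 7, [⟨nat_lit 3, [⟨nat_lit 1, nat_lit 7776, nat_lit 4128, nat_lit 4992, nat_lit 20832, nat_lit 15888, R1_104, R11_434, R1_331⟩, ⟨nat_lit 5, nat_lit 7824, nat_lit 4176, nat_lit 4944, nat_lit 15600, nat_lit 21168, R1_103, R1_325, R11_441⟩]⟩]⟩], [], [], [], [⟨nat_lit 7, [⟨nat_lit 3, [⟨nat_lit 5, nat_lit 7872, nat_lit 5184, nat_lit 3888, nat_lit 15648, nat_lit 15504, R1_81, R1_326, R1_323⟩]⟩, ⟨nat_lit 7, [⟨nat_lit 5, nat_lit 7920, nat_lit 4272, nat_lit 5040, nat_lit 15696, nat_lit 18864, R10_105, R1_327, R10_393⟩]⟩]⟩]]], [[], [], [], [], [[], [], [], [], [⟨nat_lit 4, [⟨nat_lit 4, [⟨nat_lit 5, nat_lit 7968, nat_lit 13392, nat_lit 9648, nat_lit 16800, nat_lit 9120,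 R8_201, R7_350, R4_190⟩]⟩, ⟨nat_lit 7, [⟨nat_lit 5, nat_lit 8016, nat_lit 13632, nat_lit 11040, nat_lit 16896, nat_lit 16224, R9_230, R7_352, R3_338⟩]⟩]⟩,
 ⟨nat_lit 5, [⟨nat_lit 4, [⟨nat_lit 5, nat_lit 8064, nat_lit 13440, nat_lit 528, nat_lit 15024, nat_lit 9168, R5_11, R2_313, R4_191⟩]⟩, ⟨nat_lit 7, [⟨nat_lit 5, nat_lit 8112, nat_lit 13728, nat_lit 9552, nat_lit 15120, nat_lit 16320, R0_199, R2_315, R3_340⟩]⟩]⟩,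
 ⟨nat_lit 7, [⟨nat_lit 7, [⟨nat_lit 5, nat_lit 8160, nat_lit 13680, nat_lit 9504, nat_lit 14640, nat_lit 16272, R0_198, R2_305, R3_339⟩]⟩]⟩], [⟨nat_lit 4, [⟨nat_lit 4, [⟨nat_lit 5, nat_lit 8208, nat_lit 16320, nat_lit 10224, nat_lit 17088, nat_lit 6336, R8_213, R7_356, R5_132⟩]⟩, ⟨nat_lit 5, [⟨nat_lit 5, nat_lit 8256, nat_lit 16416, nat_lit 12912, nat_lit 17232, nat_lit 18576, R5_269, R7_359, R11_387⟩]⟩, ⟨nat_lit 7, [⟨nat_lit 5, nat_lit 8304, nat_lit 16368, nat_lit 11136, nat_lit 17136, nat_lit 12288, R9_232, R7_357, R0_256⟩]⟩]⟩,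
 ⟨nat_lit 5, [⟨nat_lit 4, [⟨nat_lit 5, nat_lit 8352, nat_lit 16656, nat_lit 7488, nat_lit 15360, nat_lit 7200, R5_156, R2_320, R5_150⟩]⟩, ⟨nat_lit 5, [⟨nat_lit 5, nat_lit 8400, nat_lit 16752, nat_lit 15840, nat_lit 15504, nat_lit 19056, R11_330, R2_323, R11_397⟩]⟩, ⟨nat_lit 7, [⟨nat_lit 5, nat_lit 8448, nat_lit 16704, nat_lit 9648, nat_lit 15408, nat_lit 12672, R0_201, R2_321, R0_264⟩]⟩]⟩,
 ⟨nat_lit 7, [⟨nat_lit 7, [⟨nat_lit 5, nat_lit 8496, nat_lit 16800, nat_lit 9840, nat_lit 15696, nat_lit 12576, R0_205, R2_327, R0_262⟩]⟩]⟩], [], [⟨nat_lit 4, [⟨nat_lit 7, [⟨nat_lit 5, nat_lit 8544, nat_lit 15552, nat_lit 11088, nat_lit 17040, nat_lit 14832, R9_231, R7_355, R10_309⟩]⟩]⟩,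
 ⟨nat_lit 5, [⟨nat_lit 7, [⟨nat_lit 5, nat_lit 8592, nat_lit 15840, nat_lit 9600, nat_lit 15264, nat_lit 15600, R0_200, R2_318, R10_325⟩]⟩]⟩,
 ⟨nat_lit 7, [⟨nat_lit 7, [⟨nat_lit 5, nat_lit 8640, nat_lit 15936, nat_lit 9744, nat_lit 15216, nat_lit 15264, R0_203, R2_317, R10_318⟩]⟩]⟩]], [[], [], [], [], [⟨nat_lit 5, [⟨nat_lit 4, [⟨nat_lit 5, nat_lit 8688, nat_lit 2160, nat_lit 576, nat_lit 16032, nat_lit 10752, R5_12, R1_334, R4_224⟩]⟩, ⟨nat_lit 7, [⟨nat_lit 5, nat_lit 8736, nat_lit 10992, nat_lit 10032, nat_lit 16128, nat_lit 17616, R0_209, R1_336, R3_367⟩]⟩]⟩], [⟨nat_lit 5, [⟨nat_lit 4, [⟨nat_lit 5, nat_lit 8784, nat_lit 21600, nat_lit 7536, nat_lit 16368, nat_lit 7344, R5_157, R1_341, R5_153⟩]⟩, ⟨nat_lit 5, [⟨nat_lit 5, nat_lit 8832, nat_lit 21696, nat_lit 16416, nat_lit 16512, nat_lit 21216, R11_342, R1_344,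 R11_442⟩]⟩, ⟨nat_lit 7, [⟨nat_lit 5, nat_lit 8880, nat_lit 21648, nat_lit 10128, nat_lit 16416, nat_lit 13968, R0_211, R1_342, R0_291⟩]⟩]⟩], [], [⟨nat_lit 5, [⟨nat_lit 7, [⟨nat_lit 5, nat_lit 8928, nat_lit 14304, nat_lit 10080, nat_lit 16272, nat_lit 19008, R0_210, R1_339, R10_396⟩]⟩]⟩]], [[], [], [], [], [⟨nat_lit 4, [⟨nat_lit 4, [⟨nat_lit 4, nat_lit 8976, nat_lit 2256, nat_lit 1776, nat_lit 3360, nat_lit 9504, R8_37, R7_70, R6_198⟩, ⟨nat_lit 5, nat_lit 9024, nat_lit 2352, nat_lit 9744, nat_lit 6336, nat_lit 10416, R8_203, R14_132, R4_217⟩]⟩, ⟨nat_lit 7, [⟨nat_lit 4, nat_lit 9072, nat_lit 9024, nat_lit 11952, nat_lit 9552, nat_lit 20688, R9_249, R7_199, R13_431⟩, ⟨nat_lit 5, nat_lit 9120, nat_lit 9360, nat_lit 12624, nat_lit 7008, nat_lit 17040, R9_263, R14_146, R3_355⟩]⟩]⟩,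
 ⟨nat_lit 5, [⟨nat_lit 4, [⟨nat_lit 5, nat_lit 9168, nat_lit 2400, nat_lit 672, nat_lit 4320, nat_lit 10512, R5_14, R12_90, R4_219⟩]⟩, ⟨nat_lit 7, [⟨nat_lit 5, nat_lit 9216, nat_lit 9456, nat_lit 10800, nat_lit 4992, nat_lit 17136, R0_225, R12_104, R3_357⟩]⟩]⟩,
 ⟨nat_lit 6, [⟨nat_lit 4, [⟨nat_lit 4, nat_lit 9264, nat_lit 2304, nat_lit 864, nat_lit 1680, nat_lit 9552, R9_18, R2_35, R6_199⟩, ⟨nat_lit 5, nat_lit 9312, nat_lit 2448, nat_lit 1584, nat_lit 7296, nat_lit 10464, R9_33, R12_152, R4_218⟩, ⟨nat_lit 6, nat_lit 9360, nat_lit 2784, nat_lit 1248, nat_lit 1152, nat_lit 6768, R9_26, R1_24, R8_141⟩]⟩, ⟨nat_lit 6, [⟨nat_lit 6, nat_lit 9408, nat_lit 11664, nat_lit 4224, nat_lit 6576, nat_lit 17280, R0_88, R1_137, R5_360⟩]⟩]⟩,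
 ⟨nat_lit 7, [⟨nat_lit 7, [⟨nat_lit 4, nat_lit 9456, nat_lit 9120, nat_lit 1344, nat_lit 3744, nat_lit 20736, R0_28, R2_78, R13_432⟩, ⟨nat_lit 5, nat_lit 9504, nat_lit 9408, nat_lit 10704, nat_lit 16224, nat_lit 17088, R0_223, R12_338, R3_356⟩, ⟨nat_lit 7, nat_lit 9552, nat_lit 9312, nat_lit 6480, nat_lit 3216, nat_lit 9456, R0_135, R1_67, R3_197⟩]⟩]⟩], [⟨nat_lit 4, [⟨nat_lit 4, [⟨nat_lit 4, nat_lit 9600, nat_lit 720, nat_lit 2640, nat_lit 4224, nat_lit 2112, R8_55, R7_88, R8_44⟩, ⟨nat_lit 5, nat_lit 9648, nat_lit 816, nat_lit 10320, nat_lit 6384, nat_lit 6384, R8_215, R14_133, R5_133⟩]⟩, ⟨nat_lit 5, [⟨nat_lit 4, nat_lit 9696, nat_lit 5952, nat_lit 13680, nat_lit 12672, nat_lit 15216, R5_285, R7_264, R5_317⟩, ⟨nat_lit 5, nat_lit 9744, nat_lit 6048, nat_lit 13968, nat_lit 7728, nat_lit 19536, R5_291, R14_161,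 R11_407⟩]⟩, ⟨nat_lit 7, [⟨nat_lit 4, nat_lit 9792, nat_lit 8544, nat_lit 12000, nat_lit 11232, nat_lit 14304, R9_250, R7_234, R9_298⟩, ⟨nat_lit 5, nat_lit 9840, nat_lit 8880, nat_lit 12672, nat_lit 7056, nat_lit 13008, R9_264, R14_147, R0_271⟩]⟩]⟩,
 ⟨nat_lit 5, [⟨nat_lit 4, [⟨nat_lit 5, nat_lit 9888, nat_lit 864, nat_lit 7632, nat_lit 4368, nat_lit 7248, R5_159, R12_91, R5_151⟩]⟩, ⟨nat_lit 5, [⟨nat_lit 5, nat_lit 9936, nat_lit 6096, nat_lit 17040, nat_lit 5712, nat_lit 20736, R11_355, R12_119, R11_432⟩]⟩, ⟨nat_lit 7, [⟨nat_lit 5, nat_lit 9984, nat_lit 8976, nat_lit 10848, nat_lit 5040, nat_lit 13872, R0_226, R12_105, R0_289⟩]⟩]⟩,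
 ⟨nat_lit 6, [⟨nat_lit 4, [⟨nat_lit 4, nat_lit 10032, nat_lit 768, nat_lit 6288, nat_lit 2640, nat_lit 6624, R9_131, R2_55, R8_138⟩, ⟨nat_lit 5, nat_lit 10080, nat_lit 912, nat_lit 7488, nat_lit 7344, nat_lit 6816, R9_156, R12_153, R5_142⟩, ⟨nat_lit 6, nat_lit 10128, nat_lit 1248, nat_lit 7104, nat_lit 2112, nat_lit 6864, R9_148, R1_44, R9_143⟩]⟩, ⟨nat_lit 5, [⟨nat_lit 4, nat_lit 10176, nat_lit 6000, nat_lit 4128, nat_lit 11376, nat_lit 15792, R0_86, R2_237, R5_329⟩, ⟨nat_lit 5, nat_lit 10224, nat_lit 6144, nat_lit 5328, nat_lit 9168, nat_lit 20112, R0_111, R12_191, R11_419⟩, ⟨nat_lit 6, nat_lit 10272, nat_lit 6384, nat_lit 4944, nat_lit 11952, nat_lit 4704, R0_103, R1_249, R0_98⟩]⟩, ⟨nat_lit 6, [⟨nat_lit 6, nat_lit 10320, nat_lit 10464, nat_lit 5088, nat_lit 7488, nat_lit 4560, R0_106, R1_156, R0_95⟩]⟩]⟩,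
 ⟨nat_lit 7, [⟨nat_lit 7, [⟨nat_lit 4, nat_lit 10368, nat_lit 8640, nat_lit 1584, nat_lit 6720, nat_lit 15024, R0_33, R2_140, R9_313⟩, ⟨nat_lit 5, nat_lit 10416, nat_lit 8928, nat_lit 11040, nat_lit 16752, nat_lit 13728, R0_230, R12_349, R0_286⟩, ⟨nat_lit 7, nat_lit 10464, nat_lit 8832, nat_lit 6624, nat_lit 5424, nat_lit 3888, R0_138, R1_113, R0_81⟩]⟩]⟩], [⟨nat_lit 4, [⟨nat_lit 4, [⟨nat_lit 4, nat_lit 10512, nat_lit 11520, nat_lit 2976, nat_lit 3840, nat_lit 1776, R8_62, R7_80, R4_37⟩]⟩, ⟨nat_lit 7, [⟨nat_lit 4, nat_lit 10560, nat_lit 11760, nat_lit 12048, nat_lit 10896, nat_lit 12672, R9_251, R7_227, R3_264⟩]⟩]⟩,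
 ⟨nat_lit 6, [⟨nat_lit 4, [⟨nat_lit 4, nat_lit 10608, nat_lit 11568, nat_lit 10272, nat_lit 2208, nat_lit 8496, R9_214, R2_46, R4_177⟩, ⟨nat_lit 6, nat_lit 10656, nat_lit 14400, nat_lit 10560, nat_lit 1680, nat_lit 6768, R9_220, R1_35, R5_141⟩]⟩, ⟨nat_lit 6, [⟨nat_lit 6, nat_lit 10704, nat_lit 15120, nat_lit 5424, nat_lit 7104, nat_lit 21984, R0_113, R1_148, R11_458⟩]⟩]⟩,
 ⟨nat_lit 7, [⟨nat_lit 7, [⟨nat_lit 4, nat_lit 10752, nat_lit 11808, nat_lit 1872, nat_lit 5040, nat_lit 13488, R0_39, R2_105, R3_281⟩, ⟨nat_lit 7, nat_lit 10800, nat_lit 14064, nat_lit 6912, nat_lit 3744, nat_lit 19776, R0_144, R1_78, R10_412⟩]⟩]⟩]], [[], [], [], [], [], [], [], [⟨nat_lit 7, [⟨nat_lit 7, [⟨nat_lit 5, nat_lit 10848, nat_lit 14256, nat_lit 10224, nat_lit 16224, nat_lit 18816, R0_213, R1_338, R10_392⟩]⟩]⟩]]], [[], [], [], [],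 [[], [], [], [⟨nat_lit 4, [⟨nat_lit 3, [⟨nat_lit 1, nat_lit 10896, nat_lit 14016, nat_lit 10848, nat_lit 13872, nat_lit 13728, R2_226, R4_289, R1_286⟩, ⟨nat_lit 5, nat_lit 10944, nat_lit 14064, nat_lit 10656, nat_lit 15120, nat_lit 20928, R2_222, R7_315, R11_436⟩]⟩]⟩,
 ⟨nat_lit 5, [⟨nat_lit 3, [⟨nat_lit 1, nat_lit 10992, nat_lit 14256, nat_lit 11232, nat_lit 15696, nat_lit 13776, R1_234, R3_327, R1_287⟩, ⟨nat_lit 5, nat_lit 11040, nat_lit 14304, nat_lit 11040, nat_lit 14304, nat_lit 21024, R1_230, R2_298, R11_438⟩]⟩]⟩,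
 ⟨nat_lit 7, [⟨nat_lit 3, [⟨nat_lit 5, nat_lit 11088, nat_lit 14352, nat_lit 6384, nat_lit 12768, nat_lit 20976, R12_133, R2_266, R11_437⟩]⟩]⟩], [], [], [], [⟨nat_lit 4, [⟨nat_lit 3, [⟨nat_lit 5, nat_lit 11136, nat_lit 15360, nat_lit 10608, nat_lit 15072, nat_lit 13152, R2_221, R7_314, R1_274⟩]⟩, ⟨nat_lit 7, [⟨nat_lit 5, nat_lit 11184, nat_lit 15408, nat_lit 10416, nat_lit 15024, nat_lit 14784, R3_217, R7_313, R10_308⟩]⟩]⟩,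
 ⟨nat_lit 5, [⟨nat_lit 3, [⟨nat_lit 5, nat_lit 11232, nat_lit 15696, nat_lit 10992, nat_lit 14256, nat_lit 13776, R1_229, R2_297, R1_287⟩]⟩, ⟨nat_lit 7, [⟨nat_lit 5, nat_lit 11280, nat_lit 15744, nat_lit 12288, nat_lit 14208, nat_lit 15552, R10_256, R2_296, R10_324⟩]⟩]⟩,
 ⟨nat_lit 7, [⟨nat_lit 3, [⟨nat_lit 5, nat_lit 11328, nat_lit 15648, nat_lit 6336, nat_lit 13872, nat_lit 13632, R12_132, R2_289, R1_284⟩]⟩]⟩]], [[], [], [], [⟨nat_lit 5, [⟨nat_lit 3, [⟨nat_lit 1, nat_lit 11376, nat_lit 15792, nat_lit 11472, nat_lit 19440, nat_lit 15552, R1_239, R10_405, R1_324⟩, ⟨nat_lit 5, nat_lit 11424, nat_lit 15840, nat_lit 11424, nat_lit 15840, nat_lit 21264, R1_238, R1_330, R11_443⟩]⟩]⟩], [], [], [], [⟨nat_lit 5, [⟨nat_lit 3, [⟨nat_lit 5, nat_lit 11472, nat_lit 19440, nat_lit 11376, nat_lit 15792, nat_lit 15552, R1_237,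 R1_329, R1_324⟩]⟩, ⟨nat_lit 7, [⟨nat_lit 5, nat_lit 11520, nat_lit 19392, nat_lit 12576, nat_lit 15744, nat_lit 18960, R10_262, R1_328, R10_395⟩]⟩]⟩]], [[], [], [], [], [], [], [], [⟨nat_lit 4, [⟨nat_lit 3, [⟨nat_lit 4, nat_lit 11568, nat_lit 12432, nat_lit 11616, nat_lit 15408, nat_lit 12720, R2_242, R7_321, R2_265⟩, ⟨nat_lit 5, nat_lit 11616, nat_lit 12528, nat_lit 11760, nat_lit 5904, nat_lit 14064, R2_245, R14_123, R1_293⟩]⟩, ⟨nat_lit 7, [⟨nat_lit 4, nat_lit 11664, nat_lit 2496, nat_lit 3456, nat_lit 10272, nat_lit 1632, R3_72, R7_214, R3_34⟩, ⟨nat_lit 5, nat_lit 11712, nat_lit 2544, nat_lit 10944, nat_lit 5760, nat_lit 16416, R3_228, R14_120, R10_342⟩]⟩]⟩,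
 ⟨nat_lit 5, [⟨nat_lit 3, [⟨nat_lit 5, nat_lit 11760, nat_lit 13920, nat_lit 12192, nat_lit 3888, nat_lit 15168, R1_254, R12_81, R1_316⟩]⟩, ⟨nat_lit 7, [⟨nat_lit 5, nat_lit 11808, nat_lit 3072, nat_lit 13008, nat_lit 3744, nat_lit 18384, R10_271, R12_78, R10_383⟩]⟩]⟩,
 ⟨nat_lit 6, [⟨nat_lit 7, [⟨nat_lit 4, nat_lit 11856, nat_lit 4368, nat_lit 4800, nat_lit 9456, nat_lit 8160, R0_100, R2_197, R3_170⟩, ⟨nat_lit 5, nat_lit 11904, nat_lit 4416, nat_lit 5184, nat_lit 8928, nat_lit 17328, R0_108, R12_186, R10_361⟩, ⟨nat_lit 6, nat_lit 11952, nat_lit 4704, nat_lit 4944, nat_lit 10272, nat_lit 6384, R0_103, R1_214, R0_133⟩]⟩]⟩,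
 ⟨nat_lit 7, [⟨nat_lit 3, [⟨nat_lit 4, nat_lit 12000, nat_lit 13392, nat_lit 6528, nat_lit 13392, nat_lit 13632, R12_136, R2_279, R2_284⟩, ⟨nat_lit 5, nat_lit 12048, nat_lit 13680, nat_lit 6624, nat_lit 14208, nat_lit 14976, R12_138, R12_296, R1_312⟩, ⟨nat_lit 7, nat_lit 12096, nat_lit 13584, nat_lit 6576, nat_lit 14736, nat_lit 15408, R12_137, R1_307, R12_321⟩]⟩]⟩]], [[], [], [], [⟨nat_lit 4, [⟨nat_lit 3, [⟨nat_lit 1, nat_lit 12144, nat_lit 3840, nat_lit 11184, nat_lit 15600, nat_lit 15072, R2_233, R5_325, R1_314⟩]⟩]⟩,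
 ⟨nat_lit 5, [⟨nat_lit 3, [⟨nat_lit 1, nat_lit 12192, nat_lit 3888, nat_lit 11760, nat_lit 13920, nat_lit 15168, R1_245, R0_290, R1_316⟩]⟩]⟩,
 ⟨nat_lit 7, [⟨nat_lit 3, [⟨nat_lit 1, nat_lit 12240, nat_lit 3984, nat_lit 6432, nat_lit 20880, nat_lit 15120, R12_134, R11_435, R1_315⟩, ⟨nat_lit 5, nat_lit 12288, nat_lit 3936, nat_lit 6480, nat_lit 14112, nat_lit 21120, R12_135, R1_294, R11_440⟩]⟩]⟩]]], [[], [[⟨nat_lit 1, [⟨nat_lit 0, [⟨nat_lit 1, nat_lit 12336, nat_lit 1248, nat_lit 1968, nat_lit 18480, nat_lit 4560, R7_41, R11_385, R7_95⟩]⟩, ⟨nat_lit 1, [⟨nat_lit 1, nat_lit 12384, nat_lit 7248, nat_lit 528, nat_lit 18960, nat_lit 2976, R2_11, R11_395, R2_62⟩]⟩, ⟨nat_lit 3, [⟨nat_lit 1, nat_lit 12432, nat_lit 8112, nat_lit 576, nat_lit 18672, nat_lit 2928, R2_12, R11_389, R2_61⟩]⟩]⟩], [⟨nat_lit 1, [⟨nat_lit 1, [⟨nat_lit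 1, nat_lit 12480, nat_lit 5472, nat_lit 6240, nat_lit 21072, nat_lit 2448, R2_130, R11_439, R1_51⟩]⟩]⟩], [], [⟨nat_lit 1, [⟨nat_lit 3, [⟨nat_lit 1, nat_lit 12528, nat_lit 5424, nat_lit 6288, nat_lit 20784, nat_lit 2400, R2_131, R11_433, R1_50⟩]⟩]⟩]], [], [], [], [[⟨nat_lit 1, [⟨nat_lit 0, [⟨nat_lit 1, nat_lit 12576, nat_lit 1440, nat_lit 1008, nat_lit 15216, nat_lit 4608, R7_21, R1_317, R7_96⟩]⟩, ⟨nat_lit 1, [⟨nat_lit 1, nat_lit 12624, nat_lit 7344, nat_lit 48, nat_lit 15360, nat_lit 3024, R2_1, R1_320, R2_63⟩]⟩, ⟨nat_lit 3, [⟨nat_lit 1, nat_lit 12672, nat_lit 8112, nat_lit 2256, nat_lit 15264, nat_lit 864, R2_47, R1_318, R2_18⟩]⟩]⟩,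
 ⟨nat_lit 5, [⟨nat_lit 0, [⟨nat_lit 1, nat_lit 12720, nat_lit 624, nat_lit 1296, nat_lit 720, nat_lit 4656, R4_27, R10_15, R7_97⟩, ⟨nat_lit 5, nat_lit 12768, nat_lit 576, nat_lit 1344, nat_lit 432, nat_lit 4464, R4_28, R1_9, R4_93⟩]⟩, ⟨nat_lit 1, [⟨nat_lit 1, nat_lit 12816, nat_lit 7008, nat_lit 4848, nat_lit 768, nat_lit 3072, R3_101, R10_16, R2_64⟩, ⟨nat_lit 5, nat_lit 12864, nat_lit 6960, nat_lit 4800, nat_lit 480, nat_lit 17328, R3_100, R1_10, R3_361⟩]⟩]⟩], [⟨nat_lit 1, [⟨nat_lit 1, [⟨nat_lit 1, nat_lit 12912, nat_lit 13392, nat_lit 5184, nat_lit 15456, nat_lit 2496, R2_108, R1_322, R1_52⟩]⟩]⟩,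
 ⟨nat_lit 5, [⟨nat_lit 1, [⟨nat_lit 1, nat_lit 12960, nat_lit 5088, nat_lit 5952, nat_lit 912, nat_lit 2544, R3_124, R10_19, R1_53⟩, ⟨nat_lit 5, nat_lit 13008, nat_lit 5136, nat_lit 5904, nat_lit 528, nat_lit 2688, R3_123, R1_11, R10_56⟩]⟩]⟩]]], [[[⟨nat_lit 0, [⟨nat_lit 0, [⟨nat_lit 1, nat_lit 13056, nat_lit 14160, nat_lit 11472, nat_lit 13536, nat_lit 12960, R7_239, R4_282, R7_270⟩]⟩, ⟨nat_lit 3, [⟨nat_lit 1, nat_lit 13104, nat_lit 14208, nat_lit 10752, nat_lit 13680, nat_lit 10512, R2_224, R4_285, R2_219⟩]⟩]⟩,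
 ⟨nat_lit 3, [⟨nat_lit 3, [⟨nat_lit 1, nat_lit 13152, nat_lit 14448, nat_lit 11136, nat_lit 15360, nat_lit 10608, R1_232, R3_320, R2_221⟩]⟩]⟩], [], [⟨nat_lit 0, [⟨nat_lit 0, [⟨nat_lit 0, nat_lit 13200, nat_lit 12000, nat_lit 2208, nat_lit 14160, nat_lit 3408, R7_46, R6_295, R7_71⟩, ⟨nat_lit 1, nat_lit 13248, nat_lit 13728, nat_lit 11520, nat_lit 13920, nat_lit 14016, R7_240, R4_290, R14_292⟩]⟩, ⟨nat_lit 2, [⟨nat_lit 0, nat_lit 13296, nat_lit 12096, nat_lit 672, nat_lit 14352, nat_lit 1728, R2_14, R6_299, R2_36⟩, ⟨nat_lit 1, nat_lit 13344, nat_lit 13824, nat_lit 10320, nat_lit 14016, nat_lit 9744, R2_215, R4_292, R12_203⟩, ⟨nat_lit 2, nat_lit 13392, nat_lit 14928, nat_lit 6480, nat_lit 13344, nat_lit 1200, R2_135, R8_278, R1_25⟩]⟩, ⟨nat_lit 3, [⟨nat_lit 0, nat_lit 13440, nat_lit 12048, nat_lit 1008, nat_lit 14304,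 nat_lit 0, R2_21, R6_298, R2_0⟩, ⟨nat_lit 1, nat_lit 13488, nat_lit 13776, nat_lit 10944, nat_lit 13968, nat_lit 9888, R2_228, R4_291, R12_206⟩]⟩]⟩,
 ⟨nat_lit 2, [⟨nat_lit 2, [⟨nat_lit 2, nat_lit 13536, nat_lit 15312, nat_lit 5184, nat_lit 16560, nat_lit 6624, R1_108, R5_345, R1_138⟩]⟩]⟩,
 ⟨nat_lit 3, [⟨nat_lit 3, [⟨nat_lit 0, nat_lit 13584, nat_lit 12336, nat_lit 336, nat_lit 19488, nat_lit 3936, R1_7, R13_406, R2_82⟩, ⟨nat_lit 1, nat_lit 13632, nat_lit 13872, nat_lit 11328, nat_lit 15648, nat_lit 10608, R1_236, R3_326, R12_221⟩, ⟨nat_lit 3, nat_lit 13680, nat_lit 14112, nat_lit 6000, nat_lit 15840, nat_lit 3408, R1_125, R3_330, R1_71⟩]⟩]⟩], [⟨nat_lit 0, [⟨nat_lit 3, [⟨nat_lit 1, nat_lit 13728, nat_lit 14016, nat_lit 10848, nat_lit 13872, nat_lit 10896, R2_226, R4_289, R1_227⟩]⟩]⟩,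
 ⟨nat_lit 3, [⟨nat_lit 3, [⟨nat_lit 1, nat_lit 13776, nat_lit 14256, nat_lit 11232, nat_lit 15696, nat_lit 10992, R1_234, R3_327, R1_229⟩]⟩]⟩]], [[⟨nat_lit 0, [⟨nat_lit 0, [⟨nat_lit 1, nat_lit 13824, nat_lit 17712, nat_lit 11856, nat_lit 15024, nat_lit 13104, R7_247, R5_313, R7_273⟩]⟩, ⟨nat_lit 3, [⟨nat_lit 1, nat_lit 13872, nat_lit 18288, nat_lit 11040, nat_lit 15504, nat_lit 11712, R2_230, R5_323, R2_244⟩]⟩]⟩,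
 ⟨nat_lit 1, [⟨nat_lit 0, [⟨nat_lit 1, nat_lit 13920, nat_lit 17760, nat_lit 12672, nat_lit 18528, nat_lit 13200, R14_264, R11_386, R7_275⟩]⟩, ⟨nat_lit 1, [⟨nat_lit 1, nat_lit 13968, nat_lit 18192, nat_lit 9936, nat_lit 19008, nat_lit 11856, R12_207, R11_396, R2_247⟩]⟩, ⟨nat_lit 3, [⟨nat_lit 1, nat_lit 14016, nat_lit 18384, nat_lit 1920, nat_lit 18720, nat_lit 11808, R12_40, R11_390, R2_246⟩]⟩]⟩,
 ⟨nat_lit 3, [⟨nat_lit 3, [⟨nat_lit 1, nat_lit 14064, nat_lit 18336, nat_lit 11616, nat_lit 12528, nat_lit 11760, R1_242, R0_261, R2_245⟩]⟩]⟩], [⟨nat_lit 1, [⟨nat_lit 1, [⟨nat_lit 1, nat_lit 14112, nat_lit 15312, nat_lit 10656, nat_lit 21120, nat_lit 12288, R12_222, R11_440, R1_256⟩]⟩]⟩], [⟨nat_lit 0, [⟨nat_lit 0, [⟨nat_lit 0, nat_lit 14160, nat_lit 13584, nat_lit 2640, nat_lit 1056, nat_lit 4368, R7_55, R8_22, R7_91⟩,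 ⟨nat_lit 1, nat_lit 14208, nat_lit 13920, nat_lit 11952, nat_lit 15072, nat_lit 14064, R7_249, R5_314, R14_293⟩]⟩, ⟨nat_lit 2, [⟨nat_lit 0, nat_lit 14256, nat_lit 13824, nat_lit 768, nat_lit 6192, nat_lit 2784, R2_16, R8_129, R2_58⟩, ⟨nat_lit 1, nat_lit 14304, nat_lit 14496, nat_lit 10416, nat_lit 15888, nat_lit 9792, R2_217, R5_331, R12_204⟩, ⟨nat_lit 2, nat_lit 14352, nat_lit 14736, nat_lit 6912, nat_lit 14880, nat_lit 2256, R2_144, R9_310, R1_47⟩]⟩, ⟨nat_lit 3, [⟨nat_lit 0, nat_lit 14400, nat_lit 13680, nat_lit 2736, nat_lit 6960, nat_lit 816, R2_57, R8_145, R2_17⟩, ⟨nat_lit 1, nat_lit 14448, nat_lit 14304, nat_lit 11472, nat_lit 15648, nat_lit 10176, R2_239, R5_326, R12_212⟩]⟩]⟩,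
 ⟨nat_lit 1, [⟨nat_lit 0, [⟨nat_lit 0, nat_lit 14496, nat_lit 13632, nat_lit 14160, nat_lit 15168, nat_lit 12816, R14_295, R5_316, R7_267⟩, ⟨nat_lit 1, nat_lit 14544, nat_lit 13968, nat_lit 14880, nat_lit 19488, nat_lit 14784, R14_310, R11_406, R14_308⟩]⟩, ⟨nat_lit 1, [⟨nat_lit 1, nat_lit 14592, nat_lit 14112, nat_lit 11952, nat_lit 20688, nat_lit 11856, R12_249, R11_431, R12_247⟩]⟩, ⟨nat_lit 2, [⟨nat_lit 0, nat_lit 14640, nat_lit 13872, nat_lit 10128, nat_lit 15744, nat_lit 11520, R12_211, R5_328, R2_240⟩, ⟨nat_lit 1, nat_lit 14688, nat_lit 14544, nat_lit 12192, nat_lit 20064, nat_lit 11664, R12_254, R11_418, R12_243⟩, ⟨nat_lit 2, nat_lit 14736, nat_lit 14784, nat_lit 10800, nat_lit 13584, nat_lit 12096, R12_225, R0_283, R1_252⟩]⟩, ⟨nat_lit 3, [⟨nat_lit 0, nat_lit 14784, nat_lit 13776, nat_lit 9696, nat_lit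 15936, nat_lit 10464, R12_202, R5_332, R2_218⟩, ⟨nat_lit 1, nat_lit 14832, nat_lit 14400, nat_lit 11568, nat_lit 20256, nat_lit 12288, R12_241, R11_422, R12_256⟩]⟩]⟩,
 ⟨nat_lit 2, [⟨nat_lit 2, [⟨nat_lit 2, nat_lit 14880, nat_lit 14832, nat_lit 5616, nat_lit 3504, nat_lit 7632, R1_117, R0_73, R1_159⟩]⟩]⟩,
 ⟨nat_lit 3, [⟨nat_lit 3, [⟨nat_lit 0, nat_lit 14928, nat_lit 13728, nat_lit 2208, nat_lit 14976, nat_lit 6960, R1_46, R9_312, R2_145⟩, ⟨nat_lit 1, nat_lit 14976, nat_lit 14352, nat_lit 12048, nat_lit 13680, nat_lit 10848, R1_251, R0_285, R12_226⟩, ⟨nat_lit 3, nat_lit 15024, nat_lit 14688, nat_lit 7584, nat_lit 3552, nat_lit 5664, R1_158, R0_74, R1_118⟩]⟩]⟩], [⟨nat_lit 0, [⟨nat_lit 3, [⟨nat_lit 1, nat_lit 15072, nat_lit 3840, nat_lit 11184, nat_lit 15600, nat_lit 12144, R2_233, R5_325, R1_253⟩]⟩]⟩,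
 ⟨nat_lit 1, [⟨nat_lit 3, [⟨nat_lit 1, nat_lit 15120, nat_lit 3984, nat_lit 6432, nat_lit 20880, nat_lit 12240, R12_134, R11_435, R1_255⟩]⟩]⟩,
 ⟨nat_lit 3, [⟨nat_lit 3, [⟨nat_lit 1, nat_lit 15168, nat_lit 3888, nat_lit 11760, nat_lit 13920, nat_lit 12192, R1_245, R0_290, R1_254⟩]⟩]⟩]], [[], [], [⟨nat_lit 0, [⟨nat_lit 0, [⟨nat_lit 0, nat_lit 15216, nat_lit 12576, nat_lit 2784, nat_lit 1440, nat_lit 3888, R7_58, R4_30, R7_81⟩]⟩, ⟨nat_lit 2, [⟨nat_lit 0, nat_lit 15264, nat_lit 12672, nat_lit 864, nat_lit 8112, nat_lit 2256, R2_18, R4_169, R2_47⟩, ⟨nat_lit 2, nat_lit 15312, nat_lit 15936, nat_lit 7056, nat_lit 5904, nat_lit 1728, R2_147, R5_123, R1_36⟩]⟩, ⟨nat_lit 3, [⟨nat_lit 0, nat_lit 15360, nat_lit 12624, nat_lit 3024, nat_lit 7344, nat_lit 48, R2_63, R4_153, R2_1⟩]⟩]⟩,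
 ⟨nat_lit 2, [⟨nat_lit 2, [⟨nat_lit 2, nat_lit 15408, nat_lit 16320, nat_lit 5760, nat_lit 21504, nat_lit 7152, R1_120, R11_448, R1_149⟩]⟩]⟩,
 ⟨nat_lit 3, [⟨nat_lit 3, [⟨nat_lit 0, nat_lit 15456, nat_lit 12912, nat_lit 2496, nat_lit 13392, nat_lit 5184, R1_52, R3_279, R2_108⟩, ⟨nat_lit 3, nat_lit 15504, nat_lit 15648, nat_lit 7872, nat_lit 19296, nat_lit 3888, R1_164, R10_402, R1_81⟩]⟩]⟩]], [[], [], [], [⟨nat_lit 3, [⟨nat_lit 3, [⟨nat_lit 1, nat_lit 15552, nat_lit 15792, nat_lit 11472, nat_lit 18720, nat_lit 11376, R1_239, R10_390, R1_237⟩]⟩]⟩]]], [[], [[], [⟨nat_lit 1, [⟨nat_lit 1, [⟨nat_lit 1, nat_lit 15600, nat_lit 4176, nat_lit 4944, nat_lit 21168, nat_lit 7824, R1_103, R11_441, R1_163⟩]⟩]⟩]], [], [], [], [[], [⟨nat_lit 1, [⟨nat_lit 1, [⟨nat_lit 1, nat_lit 15648, nat_lit 19296, nat_lit 3888, nat_lit 15504,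 nat_lit 7872, R1_81, R1_323, R1_164⟩]⟩]⟩,
 ⟨nat_lit 5, [⟨nat_lit 1, [⟨nat_lit 1, nat_lit 15696, nat_lit 19344, nat_lit 12624, nat_lit 12720, nat_lit 7920, R10_263, R10_265, R1_165⟩, ⟨nat_lit 5, nat_lit 15744, nat_lit 19392, nat_lit 12576, nat_lit 11520, nat_lit 8688, R10_262, R1_240, R10_181⟩]⟩, ⟨nat_lit 5, [⟨nat_lit 5, nat_lit 15792, nat_lit 19440, nat_lit 11376, nat_lit 11472, nat_lit 15552, R1_237, R1_239, R1_324⟩]⟩]⟩], [], [], [], [⟨nat_lit 5, [⟨nat_lit 5, [⟨nat_lit 5, nat_lit 15840, nat_lit 15840, nat_lit 11424, nat_lit 11424, nat_lit 21264, R1_238, R1_238, R11_443⟩]⟩]⟩]]], [[], [[], [], [], [⟨nat_lit 1, [⟨nat_lit 3, [⟨nat_lit 1, nat_lit 15888, nat_lit 4128, nat_lit 4992, nat_lit 20832, nat_lit 7776, R1_104, R11_434, R1_162⟩]⟩]⟩]], [], [], [], [[⟨nat_lit 1, [⟨nat_lit 3, [⟨nat_lit 1, nat_lit 15936, nat_lit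 5904, nat_lit 1728, nat_lit 15312, nat_lit 7056, R1_36, R1_319, R2_147⟩]⟩]⟩,
 ⟨nat_lit 5, [⟨nat_lit 0, [⟨nat_lit 1, nat_lit 15984, nat_lit 240, nat_lit 2976, nat_lit 9936, nat_lit 11376, R5_62, R10_207, R7_237⟩, ⟨nat_lit 5, nat_lit 16032, nat_lit 2160, nat_lit 576, nat_lit 8688, nat_lit 10752, R5_12, R1_181, R4_224⟩]⟩, ⟨nat_lit 1, [⟨nat_lit 1, nat_lit 16080, nat_lit 7872, nat_lit 10176, nat_lit 10080, nat_lit 10272, R0_212, R10_210, R2_214⟩, ⟨nat_lit 5, nat_lit 16128, nat_lit 10992, nat_lit 10032, nat_lit 8736, nat_lit 17616, R0_209, R1_182, R3_367⟩]⟩, ⟨nat_lit 3, [⟨nat_lit 1, nat_lit 16176, nat_lit 5952, nat_lit 16464, nat_lit 10032, nat_lit 7008, R11_343, R10_209, R2_146⟩]⟩]⟩], [⟨nat_lit 5, [⟨nat_lit 1, [⟨nat_lit 1, nat_lit 16224, nat_lit 14256, nat_lit 10224, nat_lit 10368, nat_lit 10848, R0_213, R10_216,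 R1_226⟩, ⟨nat_lit 5, nat_lit 16272, nat_lit 14304, nat_lit 10080, nat_lit 8928, nat_lit 12144, R0_210, R1_186, R10_253⟩]⟩]⟩], [], [⟨nat_lit 1, [⟨nat_lit 3, [⟨nat_lit 1, nat_lit 16320, nat_lit 21504, nat_lit 7152, nat_lit 15408, nat_lit 5760, R1_149, R1_321, R1_120⟩]⟩]⟩,
 ⟨nat_lit 5, [⟨nat_lit 0, [⟨nat_lit 5, nat_lit 16368, nat_lit 21600, nat_lit 7536, nat_lit 8784, nat_lit 7344, R5_157, R1_183, R5_153⟩]⟩, ⟨nat_lit 1, [⟨nat_lit 5, nat_lit 16416, nat_lit 21648, nat_lit 10128, nat_lit 8880, nat_lit 13968, R0_211, R1_185, R0_291⟩]⟩, ⟨nat_lit 3, [⟨nat_lit 1, nat_lit 16464, nat_lit 21552, nat_lit 16512, nat_lit 10176, nat_lit 5712, R11_344, R10_212, R1_119⟩, ⟨nat_lit 5, nat_lit 16512, nat_lit 21696, nat_lit 16416, nat_lit 8832, nat_lit 21216, R11_342, R1_184, R11_442⟩]⟩]⟩]]]]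
noncomputable def N1144 : T3 (List N0) := [[], [[[⟨nat_lit 0, [⟨nat_lit 0, [⟨nat_lit 5, nat_lit 8592, nat_lit 4560, nat_lit 14064, nat_lit 12912, nat_lit 9792, R4_293, R6_269, R6_204⟩]⟩]⟩], [], [⟨nat_lit 0, [⟨nat_lit 0, [⟨nat_lit 5, nat_lit 8688, nat_lit 144, nat_lit 14112, nat_lit 12960, nat_lit 10800, R4_294, R6_270, R4_225⟩]⟩]⟩]], [], [[], [], [⟨nat_lit 0, [⟨nat_lit 0, [⟨nat_lit 1, nat_lit 13488, nat_lit 7008, nat_lit 11520, nat_lit 14256, nat_lit 11424, R4_240, R7_297, R7_238⟩, ⟨nat_lit 5, nat_lit 8880, nat_lit 6960, nat_lit 14544, nat_lit 13104, nat_lit 10848, R4_303, R4_273, R4_226⟩]⟩]⟩]], [[⟨nat_lit 0, [⟨nat_lit 0, [⟨nat_lit 5, nat_lit 8976, nat_lit 8016, nat_lit 14256, nat_lit 13488, nat_lit 9840, R4_297, R8_281, R6_205⟩]⟩]⟩,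
 ⟨nat_lit 3, [⟨nat_lit 0, [⟨nat_lit 5, nat_lit 10560, nat_lit 8304, nat_lit 16848, nat_lit 1968, nat_lit 9888, R5_351, R5_41, R6_206⟩]⟩]⟩], [], [], [⟨nat_lit 0, [⟨nat_lit 0, [⟨nat_lit 4, nat_lit 3168, nat_lit 7488, nat_lit 12096, nat_lit 13536, nat_lit 10752, R4_252, R6_282, R6_224⟩, ⟨nat_lit 5, nat_lit 9072, nat_lit 7536, nat_lit 14304, nat_lit 13584, nat_lit 9360, R4_298, R8_283, R8_195⟩, ⟨nat_lit 7, nat_lit 11616, nat_lit 7584, nat_lit 13344, nat_lit 13344, nat_lit 11616, R4_278, R4_278, R4_242⟩]⟩]⟩,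
 ⟨nat_lit 3, [⟨nat_lit 0, [⟨nat_lit 4, nat_lit 4368, nat_lit 7632, nat_lit 14496, nat_lit 48, nat_lit 10800, R5_302, R4_1, R6_225⟩, ⟨nat_lit 5, nat_lit 10656, nat_lit 7680, nat_lit 17184, nat_lit 2064, nat_lit 9408, R5_358, R5_43, R8_196⟩]⟩, ⟨nat_lit 3, [⟨nat_lit 4, nat_lit 4416, nat_lit 7728, nat_lit 4752, nat_lit 528, nat_lit 1392, R11_99, R4_11, R4_29⟩, ⟨nat_lit 5, nat_lit 10704, nat_lit 7776, nat_lit 4800, nat_lit 2112, nat_lit 624, R11_100, R5_44, R5_13⟩]⟩]⟩]], [[], [], [], [], [⟨nat_lit 0, [⟨nat_lit 0, [⟨nat_lit 3, nat_lit 14064, nat_lit 4560, nat_lit 8592, nat_lit 5472, nat_lit 16320, R4_179, R6_114, R6_340⟩]⟩, ⟨nat_lit 2, [⟨nat_lit 3, nat_lit 14160, nat_lit 4800, nat_lit 11376, nat_lit 5520, nat_lit 18144, R3_237, R6_115, R8_378⟩]⟩]⟩,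
 ⟨nat_lit 2, [⟨nat_lit 2, [⟨nat_lit 0, nat_lit 12240, nat_lit 1920, nat_lit 2736, nat_lit 8304, nat_lit 15120, R10_57, R6_173, R6_315⟩, ⟨nat_lit 2, nat_lit 13104, nat_lit 10848, nat_lit 2784, nat_lit 8880, nat_lit 14544, R10_58, R4_185, R4_303⟩, ⟨nat_lit 3, nat_lit 14640, nat_lit 7440, nat_lit 2832, nat_lit 5232, nat_lit 18240, R10_59, R8_109, R8_380⟩]⟩, ⟨nat_lit 6, [⟨nat_lit 2, nat_lit 13056, nat_lit 11040, nat_lit 2592, nat_lit 8928, nat_lit 17616, R1_54, R4_186, R7_367⟩]⟩]⟩,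
 ⟨nat_lit 3, [⟨nat_lit 0, [⟨nat_lit 3, nat_lit 14928, nat_lit 5664, nat_lit 4368, nat_lit 5808, nat_lit 16368, R5_91, R4_121, R6_341⟩]⟩, ⟨nat_lit 2, [⟨nat_lit 3, nat_lit 15024, nat_lit 6096, nat_lit 2160, nat_lit 5904, nat_lit 18192, R0_45, R4_123, R8_379⟩]⟩, ⟨nat_lit 3, [⟨nat_lit 3, nat_lit 15120, nat_lit 5856, nat_lit 4368, nat_lit 5856, nat_lit 15120, R11_91, R4_122, R4_315⟩, ⟨nat_lit 7, nat_lit 11856, nat_lit 12432, nat_lit 4416, nat_lit 5568, nat_lit 17568, R11_92, R7_116, R7_366⟩]⟩]⟩,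
 ⟨nat_lit 4, [⟨nat_lit 4, [⟨nat_lit 6, nat_lit 4560, nat_lit 14064, nat_lit 8592, nat_lit 5472, nat_lit 16320, R4_179, R6_114, R6_340⟩]⟩, ⟨nat_lit 7, [⟨nat_lit 6, nat_lit 4800, nat_lit 14160, nat_lit 11376, nat_lit 5520, nat_lit 18144, R3_237, R6_115, R8_378⟩]⟩]⟩,
 ⟨nat_lit 6, [⟨nat_lit 4, [⟨nat_lit 6, nat_lit 5664, nat_lit 14928, nat_lit 4368, nat_lit 5808, nat_lit 16368, R5_91, R4_121, R6_341⟩]⟩, ⟨nat_lit 6, [⟨nat_lit 2, nat_lit 12432, nat_lit 11856, nat_lit 4416, nat_lit 5568, nat_lit 17568, R11_92, R7_116, R7_366⟩, ⟨nat_lit 6, nat_lit 5856, nat_lit 15120, nat_lit 4368, nat_lit 5856, nat_lit 15120, R11_91, R4_122, R4_315⟩]⟩, ⟨nat_lit 7, [⟨nat_lit 6, nat_lit 6096, nat_lit 15024, nat_lit 2160, nat_lit 5904, nat_lit 18192, R0_45, R4_123, R8_379⟩]⟩]⟩,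
 ⟨nat_lit 7, [⟨nat_lit 3, [⟨nat_lit 7, nat_lit 11040, nat_lit 13056, nat_lit 2592, nat_lit 8928, nat_lit 17616, R1_54, R4_186, R7_367⟩]⟩, ⟨nat_lit 7, [⟨nat_lit 4, nat_lit 1920, nat_lit 12240, nat_lit 2736, nat_lit 8304, nat_lit 15120, R10_57, R6_173, R6_315⟩, ⟨nat_lit 6, nat_lit 7440, nat_lit 14640, nat_lit 2832, nat_lit 5232, nat_lit 18240, R10_59, R8_109, R8_380⟩, ⟨nat_lit 7, nat_lit 10848, nat_lit 13104, nat_lit 2784, nat_lit 8880, nat_lit 14544, R10_58, R4_185, R4_303⟩]⟩]⟩], [], [], [⟨nat_lit 0, [⟨nat_lit 0, [⟨nat_lit 3, nat_lit 14112, nat_lit 144, nat_lit 8688, nat_lit 6096, nat_lit 10800, R4_181, R6_127, R4_225⟩]⟩, ⟨nat_lit 2, [⟨nat_lit 3, nat_lit 14208, nat_lit 192, nat_lit 11472, nat_lit 6144, nat_lit 13104, R3_239, R6_128, R5_273⟩]⟩]⟩,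
 ⟨nat_lit 2, [⟨nat_lit 2, [⟨nat_lit 3, nat_lit 14688, nat_lit 2400, nat_lit 2880, nat_lit 5616, nat_lit 13248, R10_60, R8_117, R5_276⟩]⟩]⟩,
 ⟨nat_lit 3, [⟨nat_lit 0, [⟨nat_lit 3, nat_lit 14976, nat_lit 864, nat_lit 5136, nat_lit 6432, nat_lit 11232, R5_107, R4_134, R4_234⟩, ⟨nat_lit 7, nat_lit 11808, nat_lit 1440, nat_lit 14784, nat_lit 5952, nat_lit 11568, R5_308, R7_124, R7_241⟩]⟩, ⟨nat_lit 2, [⟨nat_lit 3, nat_lit 15072, nat_lit 912, nat_lit 2208, nat_lit 6480, nat_lit 13392, R0_46, R4_135, R5_279⟩]⟩, ⟨nat_lit 3, [⟨nat_lit 7, nat_lit 11904, nat_lit 1488, nat_lit 4464, nat_lit 6000, nat_lit 21840, R11_93, R7_125, R14_455⟩]⟩]⟩,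
 ⟨nat_lit 4, [⟨nat_lit 7, [⟨nat_lit 6, nat_lit 4992, nat_lit 2928, nat_lit 11424, nat_lit 5568, nat_lit 3408, R3_238, R6_116, R5_71⟩]⟩]⟩,
 ⟨nat_lit 6, [⟨nat_lit 7, [⟨nat_lit 6, nat_lit 6192, nat_lit 3552, nat_lit 2400, nat_lit 5952, nat_lit 3696, R0_50, R4_124, R5_77⟩]⟩]⟩,
 ⟨nat_lit 7, [⟨nat_lit 3, [⟨nat_lit 4, nat_lit 2256, nat_lit 3072, nat_lit 2736, nat_lit 8928, nat_lit 528, R1_57, R6_186, R7_11⟩, ⟨nat_lit 7, nat_lit 11136, nat_lit 3168, nat_lit 2784, nat_lit 9552, nat_lit 21792, R1_58, R4_199, R14_454⟩]⟩, ⟨nat_lit 7, [⟨nat_lit 4, nat_lit 2112, nat_lit 3024, nat_lit 3456, nat_lit 8880, nat_lit 336, R10_72, R6_185, R4_7⟩, ⟨nat_lit 6, nat_lit 7632, nat_lit 3264, nat_lit 3504, nat_lit 5280, nat_lit 3936, R10_73, R8_110, R5_82⟩]⟩]⟩]], [], [[], [], [], [], [⟨nat_lit 0, [⟨nat_lit 0, [⟨nat_lit 3, nat_lit 14256,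 nat_lit 8016, nat_lit 8976, nat_lit 13488, nat_lit 17088, R4_187, R8_281, R6_356⟩]⟩, ⟨nat_lit 2, [⟨nat_lit 0, nat_lit 12144, nat_lit 1008, nat_lit 16032, nat_lit 13584, nat_lit 15168, R3_334, R6_283, R6_316⟩, ⟨nat_lit 3, nat_lit 14400, nat_lit 9264, nat_lit 16368, nat_lit 13776, nat_lit 19008, R3_341, R8_287, R8_396⟩]⟩]⟩,
 ⟨nat_lit 2, [⟨nat_lit 2, [⟨nat_lit 0, nat_lit 12288, nat_lit 1152, nat_lit 2976, nat_lit 10608, nat_lit 15216, R10_62, R13_221, R6_317⟩, ⟨nat_lit 2, nat_lit 13248, nat_lit 13200, nat_lit 3024, nat_lit 15264, nat_lit 14592, R10_63, R3_318, R4_304⟩, ⟨nat_lit 3, nat_lit 14736, nat_lit 9504, nat_lit 3072, nat_lit 8256, nat_lit 19104, R10_64, R9_172, R8_398⟩]⟩, ⟨nat_lit 6, [⟨nat_lit 2, nat_lit 13152, nat_lit 12864, nat_lit 2640, nat_lit 15168, nat_lit 17712, R1_55, R3_316, R7_369⟩]⟩]⟩,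
 ⟨nat_lit 3, [⟨nat_lit 0, [⟨nat_lit 3, nat_lit 15168, nat_lit 8160, nat_lit 4656, nat_lit 8784, nat_lit 17136, R5_97, R5_183, R6_357⟩]⟩, ⟨nat_lit 2, [⟨nat_lit 3, nat_lit 15312, nat_lit 9360, nat_lit 2256, nat_lit 8832, nat_lit 19056, R0_47, R5_184, R8_397⟩]⟩, ⟨nat_lit 3, [⟨nat_lit 3, nat_lit 15456, nat_lit 8880, nat_lit 4656, nat_lit 8880, nat_lit 15456, R11_97, R5_185, R4_322⟩]⟩]⟩,
 ⟨nat_lit 6, [⟨nat_lit 6, [⟨nat_lit 2, nat_lit 12624, nat_lit 12768, nat_lit 5616, nat_lit 7728, nat_lit 17664, R11_117, R2_161, R7_368⟩]⟩]⟩], [], [⟨nat_lit 0, [⟨nat_lit 0, [⟨nat_lit 0, nat_lit 12096, nat_lit 7488, nat_lit 3168, nat_lit 13536, nat_lit 10752, R4_66, R6_282, R6_224⟩, ⟨nat_lit 1, nat_lit 13344, nat_lit 7584, nat_lit 11616, nat_lit 13344, nat_lit 11616, R4_242, R4_278, R4_242⟩, ⟨nat_lit 3, nat_lit 14304, nat_lit 7536,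 nat_lit 9072, nat_lit 13584, nat_lit 9360, R4_189, R8_283, R8_195⟩]⟩, ⟨nat_lit 2, [⟨nat_lit 0, nat_lit 12192, nat_lit 7824, nat_lit 16128, nat_lit 13632, nat_lit 20256, R3_336, R6_284, R13_422⟩, ⟨nat_lit 1, nat_lit 13392, nat_lit 7920, nat_lit 16752, nat_lit 13392, nat_lit 16752, R3_349, R4_279, R3_349⟩, ⟨nat_lit 3, nat_lit 14448, nat_lit 7872, nat_lit 16560, nat_lit 13872, nat_lit 16656, R3_345, R8_289, R9_347⟩]⟩]⟩,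
 ⟨nat_lit 2, [⟨nat_lit 2, [⟨nat_lit 0, nat_lit 12336, nat_lit 9504, nat_lit 3168, nat_lit 10656, nat_lit 20304, R10_66, R13_222, R13_423⟩, ⟨nat_lit 1, nat_lit 13728, nat_lit 9600, nat_lit 3312, nat_lit 8640, nat_lit 16800, R10_69, R3_180, R3_350⟩, ⟨nat_lit 2, nat_lit 13296, nat_lit 9648, nat_lit 3216, nat_lit 15312, nat_lit 10464, R10_67, R3_319, R3_218⟩, ⟨nat_lit 3, nat_lit 14784, nat_lit 9552, nat_lit 3264, nat_lit 8304, nat_lit 16704, R10_68, R9_173, R9_348⟩]⟩, ⟨nat_lit 6, [⟨nat_lit 2, nat_lit 13200, nat_lit 8976, nat_lit 2688, nat_lit 15216, nat_lit 14832, R1_56, R3_317, R2_309⟩]⟩]⟩,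
 ⟨nat_lit 3, [⟨nat_lit 0, [⟨nat_lit 3, nat_lit 15216, nat_lit 8400, nat_lit 6288, nat_lit 8928, nat_lit 9840, R5_131, R5_186, R8_205⟩]⟩, ⟨nat_lit 2, [⟨nat_lit 3, nat_lit 15360, nat_lit 8736, nat_lit 2352, nat_lit 8976, nat_lit 16752, R0_49, R5_187, R9_349⟩]⟩, ⟨nat_lit 3, [⟨nat_lit 3, nat_lit 15504, nat_lit 8544, nat_lit 4704, nat_lit 9024, nat_lit 17088, R11_98, R5_188, R5_356⟩]⟩]⟩,
 ⟨nat_lit 6, [⟨nat_lit 6, [⟨nat_lit 2, nat_lit 12768, nat_lit 7008, nat_lit 6528, nat_lit 7872, nat_lit 14880, R11_136, R2_164, R2_310⟩]⟩]⟩], [⟨nat_lit 0, [⟨nat_lit 0, [⟨nat_lit 3, nat_lit 14352, nat_lit 5568, nat_lit 9024, nat_lit 13536, nat_lit 10896, R4_188, R8_282, R4_227⟩]⟩, ⟨nat_lit 2, [⟨nat_lit 3, nat_lit 14496, nat_lit 5664, nat_lit 16464, nat_lit 13824, nat_lit 13152, R3_343, R8_288, R5_274⟩]⟩]⟩,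
 ⟨nat_lit 2, [⟨nat_lit 2, [⟨nat_lit 3, nat_lit 14832, nat_lit 6960, nat_lit 3120, nat_lit 8352, nat_lit 13296, R10_65, R9_174, R5_277⟩]⟩]⟩,
 ⟨nat_lit 3, [⟨nat_lit 0, [⟨nat_lit 3, nat_lit 15264, nat_lit 5856, nat_lit 5328, nat_lit 9072, nat_lit 11280, R5_111, R5_189, R4_235⟩]⟩, ⟨nat_lit 2, [⟨nat_lit 3, nat_lit 15408, nat_lit 6192, nat_lit 2304, nat_lit 9120, nat_lit 13440, R0_48, R5_190, R5_280⟩]⟩]⟩]], [[], [], [], [⟨nat_lit 0, [⟨nat_lit 0, [⟨nat_lit 7, nat_lit 11568, nat_lit 5808, nat_lit 13440, nat_lit 14304, nat_lit 11664, R4_280, R7_298, R4_243⟩]⟩]⟩,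
 ⟨nat_lit 3, [⟨nat_lit 0, [⟨nat_lit 4, nat_lit 4224, nat_lit 6096, nat_lit 14400, nat_lit 3216, nat_lit 10848, R5_300, R7_67, R6_226⟩, ⟨nat_lit 7, nat_lit 12000, nat_lit 6144, nat_lit 15984, nat_lit 5328, nat_lit 11712, R5_333, R14_111, R4_244⟩]⟩, ⟨nat_lit 3, [⟨nat_lit 4, nat_lit 4320, nat_lit 6816, nat_lit 4608, nat_lit 3744, nat_lit 1824, R11_96, R7_78, R4_38⟩]⟩]⟩,
 ⟨nat_lit 7, [⟨nat_lit 3, [⟨nat_lit 4, nat_lit 3072, nat_lit 4512, nat_lit 3936, nat_lit 3792, nat_lit 4032, R1_82, R4_79, R4_84⟩]⟩]⟩], [], [], [], [⟨nat_lit 0, [⟨nat_lit 0, [⟨nat_lit 3, nat_lit 14544, nat_lit 6960, nat_lit 8880, nat_lit 13104, nat_lit 10848, R4_185, R4_273, R4_226⟩, ⟨nat_lit 7, nat_lit 11520, nat_lit 7008, nat_lit 13488, nat_lit 14256, nat_lit 11424, R4_281, R7_297, R7_238⟩]⟩, ⟨nat_lit 2, [⟨nat_lit 3, nat_lit 14592, nat_lit 7152,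 nat_lit 15264, nat_lit 13248, nat_lit 13200, R3_318, R4_276, R5_275⟩]⟩]⟩,
 ⟨nat_lit 2, [⟨nat_lit 2, [⟨nat_lit 3, nat_lit 14880, nat_lit 8544, nat_lit 2928, nat_lit 16224, nat_lit 13344, R10_61, R5_338, R5_278⟩]⟩]⟩,
 ⟨nat_lit 3, [⟨nat_lit 0, [⟨nat_lit 7, nat_lit 11952, nat_lit 7344, nat_lit 14976, nat_lit 5232, nat_lit 11616, R5_312, R14_109, R7_242⟩]⟩, ⟨nat_lit 3, [⟨nat_lit 4, nat_lit 4272, nat_lit 7584, nat_lit 4512, nat_lit 1776, nat_lit 1536, R11_94, R7_37, R7_32⟩, ⟨nat_lit 7, nat_lit 12048, nat_lit 7632, nat_lit 4560, nat_lit 5280, nat_lit 21888, R11_95, R14_110, R14_456⟩]⟩]⟩,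
 ⟨nat_lit 7, [⟨nat_lit 3, [⟨nat_lit 4, nat_lit 2976, nat_lit 5232, nat_lit 3456, nat_lit 1680, nat_lit 960, R1_72, R4_35, R7_20⟩]⟩, ⟨nat_lit 7, [⟨nat_lit 4, nat_lit 2832, nat_lit 4608, nat_lit 4032, nat_lit 1152, nat_lit 912, R10_84, R4_24, R4_19⟩, ⟨nat_lit 6, nat_lit 8016, nat_lit 4656, nat_lit 4080, nat_lit 144, nat_lit 4080, R10_85, R5_3, R5_85⟩]⟩]⟩]]], [[], [], [], [], [[], [], [], [], [⟨nat_lit 4, [⟨nat_lit 4, [⟨nat_lit 6, nat_lit 4608, nat_lit 15216, nat_lit 4464, nat_lit 5664, nat_lit 16080, R8_93, R6_118, R6_335⟩]⟩, ⟨nat_lit 7, [⟨nat_lit 6, nat_lit 4848, nat_lit 15792, nat_lit 13104, nat_lit 5712, nat_lit 17904, R9_273, R6_119, R8_373⟩]⟩]⟩,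
 ⟨nat_lit 6, [⟨nat_lit 4, [⟨nat_lit 6, nat_lit 5712, nat_lit 15360, nat_lit 0, nat_lit 6048, nat_lit 16128, R9_0, R4_126, R6_336⟩]⟩, ⟨nat_lit 6, [⟨nat_lit 2, nat_lit 12480, nat_lit 10512, nat_lit 12144, nat_lit 5616, nat_lit 17424, R0_253, R7_117, R7_363⟩, ⟨nat_lit 6, nat_lit 5904, nat_lit 16560, nat_lit 2160, nat_lit 6096, nat_lit 15024, R0_45, R4_127, R4_313⟩]⟩]⟩,
 ⟨nat_lit 7, [⟨nat_lit 7, [⟨nat_lit 4, nat_lit 1968, nat_lit 12240, nat_lit 0, nat_lit 8400, nat_lit 14784, R0_0, R6_175, R6_308⟩, ⟨nat_lit 6, nat_lit 7488, nat_lit 15936, nat_lit 7200, nat_lit 5328, nat_lit 17952, R0_150, R8_111, R8_374⟩, ⟨nat_lit 7, nat_lit 10896, nat_lit 14160, nat_lit 5568, nat_lit 9024, nat_lit 14352, R0_116, R4_188, R4_299⟩]⟩]⟩], [⟨nat_lit 4, [⟨nat_lit 4, [⟨nat_lit 6, nat_lit 4656, nat_lit 1200, nat_lit 4704, nat_lit 5808,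 nat_lit 21312, R8_98, R6_121, R13_444⟩]⟩, ⟨nat_lit 5, [⟨nat_lit 6, nat_lit 4704, nat_lit 1296, nat_lit 14304, nat_lit 5904, nat_lit 17376, R5_298, R6_123, R3_362⟩]⟩, ⟨nat_lit 7, [⟨nat_lit 6, nat_lit 4896, nat_lit 1248, nat_lit 13200, nat_lit 5856, nat_lit 17712, R9_275, R6_122, R9_369⟩]⟩]⟩,
 ⟨nat_lit 6, [⟨nat_lit 4, [⟨nat_lit 6, nat_lit 5760, nat_lit 3600, nat_lit 4368, nat_lit 6144, nat_lit 21360, R9_91, R4_128, R13_445⟩]⟩, ⟨nat_lit 5, [⟨nat_lit 6, nat_lit 6000, nat_lit 3648, nat_lit 2832, nat_lit 6240, nat_lit 17424, R0_59, R4_130, R3_363⟩]⟩, ⟨nat_lit 6, [⟨nat_lit 2, nat_lit 12528, nat_lit 2736, nat_lit 12336, nat_lit 5664, nat_lit 15552, R0_257, R7_118, R2_324⟩, ⟨nat_lit 6, nat_lit 5952, nat_lit 3696, nat_lit 2400, nat_lit 6192, nat_lit 3552, R0_50, R4_129, R3_74⟩]⟩]⟩,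
 ⟨nat_lit 7, [⟨nat_lit 7, [⟨nat_lit 4, nat_lit 2016, nat_lit 1824, nat_lit 96, nat_lit 9648, nat_lit 336, R0_2, R6_201, R8_7⟩, ⟨nat_lit 6, nat_lit 7536, nat_lit 2304, nat_lit 7392, nat_lit 5424, nat_lit 17760, R0_154, R8_113, R9_370⟩, ⟨nat_lit 7, nat_lit 10944, nat_lit 2016, nat_lit 5616, nat_lit 10608, nat_lit 17568, R0_117, R4_221, R5_366⟩]⟩]⟩], [], [⟨nat_lit 4, [⟨nat_lit 7, [⟨nat_lit 6, nat_lit 5040, nat_lit 1920, nat_lit 13152, nat_lit 5760, nat_lit 3312, R9_274, R6_120, R5_69⟩]⟩]⟩,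
 ⟨nat_lit 7, [⟨nat_lit 7, [⟨nat_lit 4, nat_lit 2160, nat_lit 2160, nat_lit 48, nat_lit 9408, nat_lit 288, R0_1, R6_196, R4_6⟩, ⟨nat_lit 6, nat_lit 7680, nat_lit 2592, nat_lit 7296, nat_lit 5376, nat_lit 3888, R0_152, R8_112, R5_81⟩]⟩]⟩]], [[], [], [], [], [⟨nat_lit 4, [⟨nat_lit 4, [⟨nat_lit 6, nat_lit 5184, nat_lit 1488, nat_lit 4512, nat_lit 6240, nat_lit 16176, R8_94, R13_130, R6_337⟩]⟩, ⟨nat_lit 7, [⟨nat_lit 4, nat_lit 144, nat_lit 8496, nat_lit 13488, nat_lit 1152, nat_lit 16608, R9_281, R6_24, R6_346⟩, ⟨nat_lit 6, nat_lit 5376, nat_lit 9936, nat_lit 13728, nat_lit 6288, nat_lit 18000, R9_286, R13_131, R8_375⟩]⟩]⟩,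
 ⟨nat_lit 5, [⟨nat_lit 4, [⟨nat_lit 6, nat_lit 6816, nat_lit 1584, nat_lit 0, nat_lit 4512, nat_lit 16272, R5_0, R3_94, R6_339⟩]⟩, ⟨nat_lit 7, [⟨nat_lit 4, nat_lit 720, nat_lit 8688, nat_lit 11616, nat_lit 1056, nat_lit 16704, R0_242, R4_22, R6_348⟩, ⟨nat_lit 6, nat_lit 7104, nat_lit 10080, nat_lit 11856, nat_lit 4560, nat_lit 18096, R0_247, R3_95, R8_377⟩]⟩]⟩,
 ⟨nat_lit 6, [⟨nat_lit 4, [⟨nat_lit 6, nat_lit 6336, nat_lit 1680, nat_lit 96, nat_lit 768, nat_lit 16224, R9_2, R3_16, R6_338⟩]⟩, ⟨nat_lit 6, [⟨nat_lit 2, nat_lit 12960, nat_lit 13056, nat_lit 12192, nat_lit 4032, nat_lit 17520, R0_254, R2_84, R7_365⟩, ⟨nat_lit 6, nat_lit 6480, nat_lit 13392, nat_lit 2208, nat_lit 912, nat_lit 15072, R0_46, R3_19, R4_314⟩]⟩]⟩,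
 ⟨nat_lit 7, [⟨nat_lit 7, [⟨nat_lit 4, nat_lit 2448, nat_lit 8592, nat_lit 576, nat_lit 528, nat_lit 16656, R0_12, R8_11, R6_347⟩, ⟨nat_lit 6, nat_lit 7776, nat_lit 10032, nat_lit 8304, nat_lit 4704, nat_lit 18048, R0_173, R9_98, R8_376⟩, ⟨nat_lit 7, nat_lit 11280, nat_lit 9072, nat_lit 5856, nat_lit 5328, nat_lit 15264, R0_122, R5_111, R4_318⟩]⟩]⟩], [⟨nat_lit 4, [⟨nat_lit 4, [⟨nat_lit 4, nat_lit 0, nat_lit 144, nat_lit 0, nat_lit 1056, nat_lit 4272, R8_0, R6_22, R6_89⟩, ⟨nat_lit 6, nat_lit 5232, nat_lit 768, nat_lit 4752, nat_lit 6384, nat_lit 21408, R8_99, R13_133, R13_446⟩]⟩, ⟨nat_lit 5, [⟨nat_lit 4, nat_lit 48, nat_lit 240, nat_lit 14496, nat_lit 1392, nat_lit 4368, R5_302, R6_29, R4_91⟩, ⟨nat_lit 6, nat_lit 5280, nat_lit 864, nat_lit 14688, nat_lit 6480, nat_lit 17472, R5_306, R13_135, R3_364⟩]⟩, ⟨nat_lit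 7, [⟨nat_lit 4, nat_lit 192, nat_lit 192, nat_lit 13584, nat_lit 1344, nat_lit 1584, R9_283, R6_28, R8_33⟩, ⟨nat_lit 6, nat_lit 5424, nat_lit 816, nat_lit 13824, nat_lit 6432, nat_lit 17808, R9_288, R13_134, R9_371⟩]⟩]⟩,
 ⟨nat_lit 5, [⟨nat_lit 4, [⟨nat_lit 4, nat_lit 480, nat_lit 1344, nat_lit 4752, nat_lit 960, nat_lit 4320, R5_99, R4_20, R6_90⟩, ⟨nat_lit 6, nat_lit 6864, nat_lit 1488, nat_lit 5040, nat_lit 4656, nat_lit 21504, R5_105, R3_97, R13_448⟩]⟩, ⟨nat_lit 5, [⟨nat_lit 4, nat_lit 528, nat_lit 1440, nat_lit 18000, nat_lit 1392, nat_lit 4416, R11_375, R4_29, R4_92⟩, ⟨nat_lit 6, nat_lit 6912, nat_lit 1584, nat_lit 18192, nat_lit 4752, nat_lit 17568, R11_379, R3_99, R3_366⟩]⟩, ⟨nat_lit 7, [⟨nat_lit 4, nat_lit 768, nat_lit 1392, nat_lit 11712, nat_lit 1248, nat_lit 2784, R0_244, R4_26, R8_58⟩, ⟨nat_lit 6,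 nat_lit 7152, nat_lit 1536, nat_lit 11952, nat_lit 4704, nat_lit 17904, R0_249, R3_98, R9_373⟩]⟩]⟩,
 ⟨nat_lit 6, [⟨nat_lit 4, [⟨nat_lit 6, nat_lit 6384, nat_lit 3600, nat_lit 4464, nat_lit 816, nat_lit 21456, R9_93, R3_17, R13_447⟩]⟩, ⟨nat_lit 5, [⟨nat_lit 6, nat_lit 6576, nat_lit 3648, nat_lit 2928, nat_lit 1152, nat_lit 17520, R0_61, R3_24, R3_365⟩]⟩, ⟨nat_lit 6, [⟨nat_lit 2, nat_lit 13008, nat_lit 2736, nat_lit 12384, nat_lit 4080, nat_lit 15648, R0_258, R2_85, R2_326⟩, ⟨nat_lit 6, nat_lit 6528, nat_lit 3696, nat_lit 2448, nat_lit 960, nat_lit 3600, R0_51, R3_20, R3_75⟩]⟩]⟩,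
 ⟨nat_lit 7, [⟨nat_lit 7, [⟨nat_lit 4, nat_lit 2496, nat_lit 1824, nat_lit 672, nat_lit 2448, nat_lit 2304, R0_14, R8_51, R8_48⟩, ⟨nat_lit 6, nat_lit 7824, nat_lit 2304, nat_lit 8496, nat_lit 4800, nat_lit 17856, R0_177, R9_100, R9_372⟩, ⟨nat_lit 7, nat_lit 11328, nat_lit 2016, nat_lit 5904, nat_lit 5376, nat_lit 17616, R0_123, R5_112, R5_367⟩]⟩]⟩], [], [⟨nat_lit 4, [⟨nat_lit 7, [⟨nat_lit 4, nat_lit 288, nat_lit 48, nat_lit 13536, nat_lit 1296, nat_lit 2160, R9_282, R6_27, R4_45⟩, ⟨nat_lit 6, nat_lit 5520, nat_lit 240, nat_lit 13776, nat_lit 6336, nat_lit 3504, R9_287, R13_132, R5_73⟩]⟩]⟩,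
 ⟨nat_lit 5, [⟨nat_lit 7, [⟨nat_lit 4, nat_lit 864, nat_lit 432, nat_lit 11664, nat_lit 1200, nat_lit 2880, R0_243, R4_25, R4_60⟩, ⟨nat_lit 6, nat_lit 7248, nat_lit 480, nat_lit 11904, nat_lit 4608, nat_lit 4272, R0_248, R3_96, R5_89⟩]⟩]⟩,
 ⟨nat_lit 7, [⟨nat_lit 7, [⟨nat_lit 4, nat_lit 2592, nat_lit 624, nat_lit 624, nat_lit 912, nat_lit 2592, R0_13, R8_19, R4_54⟩, ⟨nat_lit 6, nat_lit 7920, nat_lit 1056, nat_lit 8400, nat_lit 4752, nat_lit 4176, R0_175, R9_99, R5_87⟩]⟩]⟩]], [[], [], [], [], [⟨nat_lit 6, [⟨nat_lit 6, [⟨nat_lit 2, nat_lit 12672, nat_lit 11280, nat_lit 12240, nat_lit 7776, nat_lit 17472, R0_255, R2_162, R7_364⟩]⟩]⟩], [⟨nat_lit 6, [⟨nat_lit 6, [⟨nat_lit 2, nat_lit 12864, nat_lit 9792, nat_lit 12480, nat_lit 7968, nat_lit 15600, R0_260, R2_166, R2_325⟩]⟩]⟩], [⟨nat_lit 6, [⟨nat_lit 6, [⟨nat_lit 2,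 nat_lit 12816, nat_lit 9408, nat_lit 12624, nat_lit 7920, nat_lit 14784, R0_263, R2_165, R2_308⟩]⟩]⟩]], [[], [], [], [], [], [], [], [⟨nat_lit 7, [⟨nat_lit 7, [⟨nat_lit 4, nat_lit 2880, nat_lit 11664, nat_lit 432, nat_lit 1200, nat_lit 864, R0_9, R4_25, R4_18⟩, ⟨nat_lit 6, nat_lit 8064, nat_lit 14496, nat_lit 8016, nat_lit 192, nat_lit 4032, R0_167, R5_4, R5_84⟩]⟩]⟩]]], [[], [], [], [], [[], [], [], [⟨nat_lit 7, [⟨nat_lit 3, [⟨nat_lit 4, nat_lit 2352, nat_lit 1296, nat_lit 2784, nat_lit 7536, nat_lit 3456, R12_58, R6_157, R4_72⟩]⟩]⟩], [], [], [], [⟨nat_lit 4, [⟨nat_lit 7, [⟨nat_lit 6, nat_lit 5088, nat_lit 16080, nat_lit 8544, nat_lit 5616, nat_lit 3360, R3_178, R6_117, R5_70⟩]⟩]⟩,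
 ⟨nat_lit 6, [⟨nat_lit 7, [⟨nat_lit 6, nat_lit 6240, nat_lit 17424, nat_lit 2832, nat_lit 6000, nat_lit 3648, R0_59, R4_125, R5_76⟩]⟩]⟩,
 ⟨nat_lit 7, [⟨nat_lit 3, [⟨nat_lit 4, nat_lit 2304, nat_lit 11616, nat_lit 2688, nat_lit 9072, nat_lit 480, R12_56, R6_189, R7_10⟩, ⟨nat_lit 7, nat_lit 11184, nat_lit 13920, nat_lit 2736, nat_lit 9744, nat_lit 21696, R12_57, R4_203, R14_452⟩]⟩]⟩]], [[], [], [], [⟨nat_lit 4, [⟨nat_lit 3, [⟨nat_lit 4, nat_lit 432, nat_lit 96, nat_lit 12192, nat_lit 960, nat_lit 3264, R2_254, R6_20, R4_68⟩]⟩]⟩,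
 ⟨nat_lit 5, [⟨nat_lit 3, [⟨nat_lit 4, nat_lit 1344, nat_lit 432, nat_lit 12768, nat_lit 576, nat_lit 4464, R1_266, R4_12, R4_93⟩]⟩]⟩,
 ⟨nat_lit 7, [⟨nat_lit 3, [⟨nat_lit 4, nat_lit 2736, nat_lit 768, nat_lit 2928, nat_lit 3456, nat_lit 4176, R12_61, R8_72, R4_87⟩]⟩]⟩], [], [], [], [⟨nat_lit 4, [⟨nat_lit 3, [⟨nat_lit 4, nat_lit 384, nat_lit 192, nat_lit 12144, nat_lit 1008, nat_lit 2160, R2_253, R6_21, R7_45⟩]⟩, ⟨nat_lit 7, [⟨nat_lit 4, nat_lit 336, nat_lit 144, nat_lit 3024, nat_lit 1248, nat_lit 2112, R3_63, R6_26, R4_44⟩, ⟨nat_lit 6, nat_lit 5568, nat_lit 480, nat_lit 8832, nat_lit 6192, nat_lit 3552, R3_184, R13_129, R5_74⟩]⟩]⟩,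
 ⟨nat_lit 5, [⟨nat_lit 3, [⟨nat_lit 4, nat_lit 1296, nat_lit 720, nat_lit 12720, nat_lit 624, nat_lit 2736, R1_265, R4_13, R7_57⟩]⟩, ⟨nat_lit 7, [⟨nat_lit 4, nat_lit 912, nat_lit 672, nat_lit 14064, nat_lit 1152, nat_lit 2832, R10_293, R4_24, R4_59⟩, ⟨nat_lit 6, nat_lit 7296, nat_lit 816, nat_lit 14256, nat_lit 4464, nat_lit 4320, R10_297, R3_93, R5_90⟩]⟩]⟩,
 ⟨nat_lit 6, [⟨nat_lit 7, [⟨nat_lit 6, nat_lit 6720, nat_lit 2544, nat_lit 3216, nat_lit 1104, nat_lit 3792, R0_67, R3_23, R5_79⟩]⟩]⟩,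
 ⟨nat_lit 7, [⟨nat_lit 3, [⟨nat_lit 4, nat_lit 2688, nat_lit 1056, nat_lit 2832, nat_lit 1296, nat_lit 2544, R12_59, R8_27, R7_53⟩, ⟨nat_lit 7, nat_lit 11472, nat_lit 1488, nat_lit 2880, nat_lit 5280, nat_lit 21744, R12_60, R5_110, R14_453⟩]⟩]⟩]], [], [[], [], [], [⟨nat_lit 7, [⟨nat_lit 3, [⟨nat_lit 4, nat_lit 3120, nat_lit 5904, nat_lit 2976, nat_lit 3744, nat_lit 3984, R12_62, R4_78, R4_83⟩]⟩]⟩]]], [[], [[⟨nat_lit 1, [⟨nat_lit 0, [⟨nat_lit 5, nat_lit 9648, nat_lit 1056, nat_lit 1584, nat_lit 13584, nat_lit 9936, R7_33, R3_283, R6_207⟩]⟩, ⟨nat_lit 1, [⟨nat_lit 4, nat_lit 3600, nat_lit 7008, nat_lit 96, nat_lit 3504, nat_lit 3312, R2_2, R4_73, R6_69⟩, ⟨nat_lit 5, nat_lit 9888, nat_lit 7056, nat_lit 144, nat_lit 13728, nat_lit 12960, R2_3, R3_286, R13_270⟩]⟩]⟩,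
 ⟨nat_lit 5, [⟨nat_lit 0, [⟨nat_lit 5, nat_lit 8160, nat_lit 624, nat_lit 1488, nat_lit 1920, nat_lit 9984, R4_31, R2_40, R6_208⟩]⟩, ⟨nat_lit 1, [⟨nat_lit 4, nat_lit 1584, nat_lit 6576, nat_lit 12336, nat_lit 3600, nat_lit 3264, R3_257, R7_75, R6_68⟩, ⟨nat_lit 5, nat_lit 8304, nat_lit 6624, nat_lit 12480, nat_lit 1968, nat_lit 13008, R3_260, R2_41, R13_271⟩]⟩]⟩], [⟨nat_lit 1, [⟨nat_lit 1, [⟨nat_lit 4, nat_lit 3696, nat_lit 5232, nat_lit 5808, nat_lit 3936, nat_lit 3024, R2_121, R4_82, R4_63⟩, ⟨nat_lit 5, nat_lit 10032, nat_lit 5280, nat_lit 5856, nat_lit 13824, nat_lit 9648, R2_122, R3_288, R3_201⟩]⟩]⟩,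
 ⟨nat_lit 5, [⟨nat_lit 1, [⟨nat_lit 4, nat_lit 1632, nat_lit 4752, nat_lit 13104, nat_lit 3936, nat_lit 2928, R3_273, R7_82, R4_61⟩, ⟨nat_lit 5, nat_lit 8352, nat_lit 4800, nat_lit 13248, nat_lit 2304, nat_lit 9696, R3_276, R2_48, R3_202⟩]⟩]⟩], [], [⟨nat_lit 1, [⟨nat_lit 0, [⟨nat_lit 4, nat_lit 3504, nat_lit 96, nat_lit 8160, nat_lit 3600, nat_lit 11088, R7_170, R4_75, R6_231⟩, ⟨nat_lit 5, nat_lit 9792, nat_lit 240, nat_lit 8208, nat_lit 13632, nat_lit 9456, R7_171, R3_284, R8_197⟩]⟩, ⟨nat_lit 1, [⟨nat_lit 4, nat_lit 3840, nat_lit 7104, nat_lit 7104, nat_lit 3840, nat_lit 3024, R2_148, R4_80, R8_63⟩, ⟨nat_lit 5, nat_lit 10176, nat_lit 7248, nat_lit 7152, nat_lit 13776, nat_lit 10176, R2_149, R3_287, R9_212⟩]⟩, ⟨nat_lit 3, [⟨nat_lit 4, nat_lit 3936, nat_lit 5808, nat_lit 5232, nat_lit 3696, nat_lit 3024, R2_109,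 R4_77, R4_63⟩, ⟨nat_lit 5, nat_lit 10272, nat_lit 5952, nat_lit 5520, nat_lit 13680, nat_lit 768, R2_115, R3_285, R5_16⟩]⟩]⟩,
 ⟨nat_lit 5, [⟨nat_lit 0, [⟨nat_lit 4, nat_lit 1488, nat_lit 1920, nat_lit 8160, nat_lit 3648, nat_lit 9984, R4_170, R7_76, R6_208⟩, ⟨nat_lit 5, nat_lit 8208, nat_lit 2016, nat_lit 8208, nat_lit 2016, nat_lit 9504, R4_171, R2_42, R8_198⟩]⟩, ⟨nat_lit 1, [⟨nat_lit 4, nat_lit 1728, nat_lit 9696, nat_lit 12768, nat_lit 3792, nat_lit 2928, R3_266, R7_79, R8_61⟩, ⟨nat_lit 5, nat_lit 8448, nat_lit 9792, nat_lit 12912, nat_lit 2160, nat_lit 10224, R3_269, R2_45, R9_213⟩]⟩]⟩]], [], [], [], [[⟨nat_lit 5, [⟨nat_lit 1, [⟨nat_lit 4, nat_lit 1008, nat_lit 6768, nat_lit 4320, nat_lit 672, nat_lit 3120, R3_90, R4_14, R6_65⟩]⟩]⟩], [⟨nat_lit 5, [⟨nat_lit 1, [⟨nat_lit 4, nat_lit 1104, nat_lit 5472, nat_lit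 4896, nat_lit 816, nat_lit 2784, R3_102, R4_17, R4_58⟩]⟩]⟩]]], [[[⟨nat_lit 0, [⟨nat_lit 0, [⟨nat_lit 5, nat_lit 8640, nat_lit 4704, nat_lit 15456, nat_lit 12720, nat_lit 10032, R7_322, R6_265, R6_209⟩]⟩]⟩,
 ⟨nat_lit 1, [⟨nat_lit 0, [⟨nat_lit 5, nat_lit 9216, nat_lit 4896, nat_lit 2160, nat_lit 18288, nat_lit 10080, R14_45, R13_381, R6_210⟩]⟩, ⟨nat_lit 1, [⟨nat_lit 4, nat_lit 3360, nat_lit 48, nat_lit 96, nat_lit 3600, nat_lit 3216, R12_2, R6_75, R6_67⟩, ⟨nat_lit 5, nat_lit 9360, nat_lit 4992, nat_lit 384, nat_lit 18480, nat_lit 13056, R12_8, R13_385, R13_272⟩]⟩]⟩], [], [⟨nat_lit 0, [⟨nat_lit 0, [⟨nat_lit 5, nat_lit 8736, nat_lit 3120, nat_lit 15648, nat_lit 12768, nat_lit 10992, R7_326, R6_266, R4_229⟩]⟩]⟩,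
 ⟨nat_lit 1, [⟨nat_lit 0, [⟨nat_lit 5, nat_lit 9264, nat_lit 3312, nat_lit 4080, nat_lit 18336, nat_lit 11088, R14_85, R13_382, R4_231⟩]⟩, ⟨nat_lit 1, [⟨nat_lit 5, nat_lit 9408, nat_lit 3408, nat_lit 2448, nat_lit 18528, nat_lit 2784, R12_51, R13_386, R3_58⟩]⟩]⟩], [⟨nat_lit 0, [⟨nat_lit 0, [⟨nat_lit 5, nat_lit 8784, nat_lit 7440, nat_lit 15552, nat_lit 12816, nat_lit 9600, R7_324, R6_267, R8_200⟩]⟩, ⟨nat_lit 3, [⟨nat_lit 5, nat_lit 8832, nat_lit 7536, nat_lit 14448, nat_lit 12864, nat_lit 432, R2_301, R6_268, R5_9⟩]⟩]⟩,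
 ⟨nat_lit 1, [⟨nat_lit 0, [⟨nat_lit 4, nat_lit 3312, nat_lit 1152, nat_lit 2544, nat_lit 3648, nat_lit 11424, R14_53, R6_76, R6_238⟩, ⟨nat_lit 5, nat_lit 9312, nat_lit 8208, nat_lit 3120, nat_lit 18384, nat_lit 9696, R14_65, R13_383, R8_202⟩]⟩, ⟨nat_lit 1, [⟨nat_lit 4, nat_lit 3408, nat_lit 1440, nat_lit 912, nat_lit 3744, nat_lit 2832, R12_19, R6_78, R8_59⟩, ⟨nat_lit 5, nat_lit 9456, nat_lit 8496, nat_lit 1488, nat_lit 18576, nat_lit 10320, R12_31, R13_387, R9_215⟩]⟩, ⟨nat_lit 3, [⟨nat_lit 4, nat_lit 3456, nat_lit 1296, nat_lit 2784, nat_lit 3696, nat_lit 2352, R12_58, R6_77, R4_49⟩, ⟨nat_lit 5, nat_lit 9504, nat_lit 8352, nat_lit 4128, nat_lit 18432, nat_lit 480, R12_86, R13_384, R5_10⟩]⟩]⟩]], [[⟨nat_lit 1, [⟨nat_lit 0, [⟨nat_lit 5, nat_lit 9696, nat_lit 15504, nat_lit 2208, nat_lit 13872, nat_lit 10128, R14_46,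 R3_289, R6_211⟩]⟩, ⟨nat_lit 1, [⟨nat_lit 4, nat_lit 3648, nat_lit 15888, nat_lit 144, nat_lit 3552, nat_lit 3360, R12_3, R4_74, R6_70⟩, ⟨nat_lit 5, nat_lit 9936, nat_lit 16416, nat_lit 432, nat_lit 14064, nat_lit 13104, R12_9, R3_293, R13_273⟩]⟩]⟩], [⟨nat_lit 1, [⟨nat_lit 1, [⟨nat_lit 4, nat_lit 3744, nat_lit 12960, nat_lit 576, nat_lit 3984, nat_lit 3120, R12_12, R4_83, R4_65⟩, ⟨nat_lit 5, nat_lit 10080, nat_lit 13488, nat_lit 624, nat_lit 14208, nat_lit 9840, R12_13, R3_296, R3_205⟩]⟩]⟩], [⟨nat_lit 1, [⟨nat_lit 0, [⟨nat_lit 5, nat_lit 9744, nat_lit 12768, nat_lit 4128, nat_lit 13920, nat_lit 11184, R14_86, R3_290, R4_233⟩]⟩, ⟨nat_lit 1, [⟨nat_lit 5, nat_lit 9984, nat_lit 13200, nat_lit 2496, nat_lit 14112, nat_lit 2880, R12_52, R3_294, R3_60⟩]⟩]⟩], [⟨nat_lit 1, [⟨nat_lit 0, [⟨nat_lit 4, nat_lit 3552, nat_lit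 48, nat_lit 2640, nat_lit 3648, nat_lit 11520, R14_55, R4_76, R6_240⟩, ⟨nat_lit 5, nat_lit 9840, nat_lit 816, nat_lit 3216, nat_lit 13968, nat_lit 9792, R14_67, R3_291, R8_204⟩]⟩, ⟨nat_lit 1, [⟨nat_lit 4, nat_lit 3888, nat_lit 6816, nat_lit 1008, nat_lit 3888, nat_lit 3072, R12_21, R4_81, R8_64⟩, ⟨nat_lit 5, nat_lit 10224, nat_lit 8256, nat_lit 1584, nat_lit 14160, nat_lit 10416, R12_33, R3_295, R9_217⟩]⟩, ⟨nat_lit 3, [⟨nat_lit 4, nat_lit 3984, nat_lit 5904, nat_lit 2976, nat_lit 3744, nat_lit 3120, R12_62, R4_78, R4_65⟩, ⟨nat_lit 5, nat_lit 10320, nat_lit 6048, nat_lit 4416, nat_lit 14016, nat_lit 864, R12_92, R3_292, R5_18⟩]⟩]⟩]], [[], [], [⟨nat_lit 0, [⟨nat_lit 0, [⟨nat_lit 1, nat_lit 13536, nat_lit 13056, nat_lit 12048, nat_lit 14160, nat_lit 11472, R7_251, R7_295, R7_239⟩, ⟨nat_lit 5, nat_lit 8928, nat_lit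 2592, nat_lit 16368, nat_lit 13056, nat_lit 11040, R7_341, R4_272, R4_230⟩]⟩, ⟨nat_lit 2, [⟨nat_lit 1, nat_lit 13680, nat_lit 13104, nat_lit 10512, nat_lit 14208, nat_lit 10752, R2_219, R7_296, R2_224⟩]⟩]⟩,
 ⟨nat_lit 1, [⟨nat_lit 0, [⟨nat_lit 1, nat_lit 13920, nat_lit 13248, nat_lit 3792, nat_lit 13728, nat_lit 11520, R14_79, R2_286, R7_240⟩, ⟨nat_lit 5, nat_lit 9552, nat_lit 2784, nat_lit 4176, nat_lit 3168, nat_lit 11136, R14_87, R3_66, R4_232⟩]⟩, ⟨nat_lit 1, [⟨nat_lit 1, nat_lit 14016, nat_lit 13344, nat_lit 2160, nat_lit 13824, nat_lit 10320, R12_45, R2_288, R2_215⟩, ⟨nat_lit 5, nat_lit 9600, nat_lit 2880, nat_lit 2544, nat_lit 3216, nat_lit 2832, R12_53, R3_67, R3_59⟩]⟩, ⟨nat_lit 2, [⟨nat_lit 1, nat_lit 13968, nat_lit 13488, nat_lit 1776, nat_lit 13776, nat_lit 10944, R12_37, R2_287, R2_228⟩]⟩]⟩,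
 ⟨nat_lit 2, [⟨nat_lit 2, [⟨nat_lit 1, nat_lit 13872, nat_lit 13728, nat_lit 10896, nat_lit 14016, nat_lit 10848, R1_227, R2_292, R2_226⟩]⟩]⟩]], [[], [], [], [⟨nat_lit 0, [⟨nat_lit 0, [⟨nat_lit 4, nat_lit 3216, nat_lit 0, nat_lit 13248, nat_lit 13680, nat_lit 10704, R7_276, R6_285, R6_223⟩, ⟨nat_lit 5, nat_lit 9120, nat_lit 7968, nat_lit 16032, nat_lit 13392, nat_lit 9648, R7_334, R8_279, R8_201⟩, ⟨nat_lit 7, nat_lit 11664, nat_lit 5808, nat_lit 14592, nat_lit 13440, nat_lit 11568, R7_304, R4_280, R4_241⟩]⟩, ⟨nat_lit 3, [⟨nat_lit 4, nat_lit 3264, nat_lit 96, nat_lit 12192, nat_lit 14064, nat_lit 432, R2_254, R6_293, R4_9⟩, ⟨nat_lit 5, nat_lit 9168, nat_lit 8064, nat_lit 15024, nat_lit 13440, nat_lit 528, R2_313, R8_280, R5_11⟩]⟩]⟩,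
 ⟨nat_lit 1, [⟨nat_lit 0, [⟨nat_lit 4, nat_lit 4080, nat_lit 624, nat_lit 2592, nat_lit 3408, nat_lit 11472, R14_54, R8_71, R6_239⟩, ⟨nat_lit 5, nat_lit 10416, nat_lit 9024, nat_lit 3168, nat_lit 15072, nat_lit 9744, R14_66, R9_314, R8_203⟩, ⟨nat_lit 7, nat_lit 11712, nat_lit 6144, nat_lit 2784, nat_lit 15984, nat_lit 12000, R14_58, R5_333, R4_250⟩]⟩, ⟨nat_lit 1, [⟨nat_lit 4, nat_lit 4128, nat_lit 912, nat_lit 960, nat_lit 3504, nat_lit 2880, R12_20, R8_73, R8_60⟩, ⟨nat_lit 5, nat_lit 10464, nat_lit 9312, nat_lit 1536, nat_lit 15168, nat_lit 10368, R12_32, R9_316, R9_216⟩, ⟨nat_lit 7, nat_lit 11760, nat_lit 6336, nat_lit 1152, nat_lit 16032, nat_lit 12720, R12_24, R5_334, R5_265⟩]⟩, ⟨nat_lit 3, [⟨nat_lit 4, nat_lit 4176, nat_lit 768, nat_lit 2928, nat_lit 3456, nat_lit 2736, R12_61, R8_72, R4_57⟩, ⟨nat_lit 5,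 nat_lit 10512, nat_lit 9168, nat_lit 4320, nat_lit 15120, nat_lit 672, R12_90, R9_315, R5_14⟩]⟩]⟩,
 ⟨nat_lit 3, [⟨nat_lit 3, [⟨nat_lit 4, nat_lit 4464, nat_lit 432, nat_lit 12768, nat_lit 576, nat_lit 1344, R1_266, R4_12, R4_28⟩, ⟨nat_lit 5, nat_lit 10752, nat_lit 8688, nat_lit 16032, nat_lit 2160, nat_lit 576, R1_334, R5_45, R5_12⟩]⟩]⟩]]], [[], [[], [⟨nat_lit 1, [⟨nat_lit 1, [⟨nat_lit 4, nat_lit 3792, nat_lit 3936, nat_lit 4512, nat_lit 4032, nat_lit 3072, R1_94, R4_84, R4_64⟩, ⟨nat_lit 5, nat_lit 10128, nat_lit 3984, nat_lit 4560, nat_lit 14304, nat_lit 9744, R1_95, R3_298, R3_203⟩]⟩]⟩,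
 ⟨nat_lit 5, [⟨nat_lit 1, [⟨nat_lit 4, nat_lit 1680, nat_lit 3456, nat_lit 13968, nat_lit 3984, nat_lit 2976, R10_291, R7_83, R4_62⟩, ⟨nat_lit 5, nat_lit 8400, nat_lit 3504, nat_lit 14016, nat_lit 2352, nat_lit 9792, R10_292, R2_49, R3_204⟩]⟩, ⟨nat_lit 5, [⟨nat_lit 4, nat_lit 1440, nat_lit 15216, nat_lit 12576, nat_lit 3888, nat_lit 2784, R1_262, R7_81, R7_58⟩, ⟨nat_lit 5, nat_lit 8112, nat_lit 15264, nat_lit 12672, nat_lit 2256, nat_lit 864, R1_264, R2_47, R2_18⟩, ⟨nat_lit 6, nat_lit 7344, nat_lit 15360, nat_lit 12624, nat_lit 48, nat_lit 3024, R1_263, R2_1, R2_63⟩]⟩]⟩]], [], [], [], [[], [⟨nat_lit 5, [⟨nat_lit 1, [⟨nat_lit 4, nat_lit 1152, nat_lit 672, nat_lit 14064, nat_lit 912, nat_lit 2832, R10_293, R4_19, R4_59⟩]⟩, ⟨nat_lit 5, [⟨nat_lit 4, nat_lit 624, nat_lit 720, nat_lit 12720, nat_lit 1296, nat_lit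 2736, R1_265, R4_27, R7_57⟩, ⟨nat_lit 6, nat_lit 7008, nat_lit 768, nat_lit 12816, nat_lit 4848, nat_lit 3072, R1_267, R3_101, R2_64⟩]⟩]⟩], [], [], [], [⟨nat_lit 5, [⟨nat_lit 5, [⟨nat_lit 4, nat_lit 576, nat_lit 432, nat_lit 12768, nat_lit 1344, nat_lit 4464, R1_266, R4_28, R4_93⟩, ⟨nat_lit 6, nat_lit 6960, nat_lit 480, nat_lit 12864, nat_lit 4800, nat_lit 17328, R1_268, R3_100, R3_361⟩]⟩]⟩]]], [[], [[], [], [], [⟨nat_lit 1, [⟨nat_lit 3, [⟨nat_lit 4, nat_lit 4032, nat_lit 4512, nat_lit 3936, nat_lit 3792, nat_lit 3072, R1_82, R4_79, R4_64⟩, ⟨nat_lit 5, nat_lit 10368, nat_lit 4656, nat_lit 4224, nat_lit 14256, nat_lit 816, R1_88, R3_297, R5_17⟩]⟩]⟩,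
 ⟨nat_lit 5, [⟨nat_lit 0, [⟨nat_lit 4, nat_lit 1536, nat_lit 1392, nat_lit 4608, nat_lit 3696, nat_lit 10368, R5_96, R7_77, R6_216⟩, ⟨nat_lit 5, nat_lit 8256, nat_lit 1488, nat_lit 6192, nat_lit 2064, nat_lit 9552, R5_129, R2_43, R8_199⟩]⟩, ⟨nat_lit 1, [⟨nat_lit 4, nat_lit 1776, nat_lit 10512, nat_lit 11520, nat_lit 3840, nat_lit 2976, R0_240, R7_80, R8_62⟩, ⟨nat_lit 5, nat_lit 8496, nat_lit 10608, nat_lit 11568, nat_lit 2208, nat_lit 10272, R0_241, R2_46, R9_214⟩]⟩, ⟨nat_lit 3, [⟨nat_lit 4, nat_lit 1824, nat_lit 6816, nat_lit 17904, nat_lit 3744, nat_lit 4320, R11_373, R7_78, R4_90⟩, ⟨nat_lit 5, nat_lit 8544, nat_lit 6912, nat_lit 17952, nat_lit 2112, nat_lit 720, R11_374, R2_44, R5_15⟩]⟩]⟩]], [], [], [], [[⟨nat_lit 5, [⟨nat_lit 1, [⟨nat_lit 4, nat_lit 1056, nat_lit 8688, nat_lit 11616, nat_lit 720, nat_lit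 3168, R0_242, R4_15, R6_66⟩]⟩]⟩], [⟨nat_lit 5, [⟨nat_lit 1, [⟨nat_lit 4, nat_lit 1200, nat_lit 432, nat_lit 11664, nat_lit 864, nat_lit 2880, R0_243, R4_18, R4_60⟩]⟩]⟩], [], [⟨nat_lit 5, [⟨nat_lit 0, [⟨nat_lit 4, nat_lit 960, nat_lit 1344, nat_lit 4752, nat_lit 480, nat_lit 10416, R5_99, R4_10, R6_217⟩]⟩, ⟨nat_lit 1, [⟨nat_lit 4, nat_lit 1248, nat_lit 1392, nat_lit 11712, nat_lit 768, nat_lit 2784, R0_244, R4_16, R8_58⟩]⟩, ⟨nat_lit 3, [⟨nat_lit 4, nat_lit 1392, nat_lit 1440, nat_lit 18000, nat_lit 528, nat_lit 4416, R11_375, R4_11, R4_92⟩]⟩]⟩]]]]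
noncomputable def N1167 : T3 (List N0) := [[], [[[], [], [⟨nat_lit 0, [⟨nat_lit 2, [⟨nat_lit 1, nat_lit 2496, nat_lit 1632, nat_lit 3456, nat_lit 6144, nat_lit 11664, R3_72, R7_128, R1_243⟩, ⟨nat_lit 5, nat_lit 2448, nat_lit 960, nat_lit 3600, nat_lit 6528, nat_lit 16320, R3_75, R4_136, R11_340⟩]⟩]⟩,
 ⟨nat_lit 3, [⟨nat_lit 2, [⟨nat_lit 1, nat_lit 4368, nat_lit 8160, nat_lit 4800, nat_lit 9456, nat_lit 11856, R0_100, R2_197, R1_247⟩]⟩]⟩]], [], [[], [], [⟨nat_lit 0, [⟨nat_lit 2, [⟨nat_lit 1, nat_lit 2544, nat_lit 8256, nat_lit 10944, nat_lit 17376, nat_lit 11712, R3_228, R14_362, R1_244⟩]⟩]⟩,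
 ⟨nat_lit 2, [⟨nat_lit 2, [⟨nat_lit 1, nat_lit 3072, nat_lit 8352, nat_lit 6528, nat_lit 15024, nat_lit 11808, R10_136, R12_313, R1_246⟩]⟩]⟩,
 ⟨nat_lit 3, [⟨nat_lit 2, [⟨nat_lit 1, nat_lit 4416, nat_lit 8304, nat_lit 5184, nat_lit 8784, nat_lit 11904, R0_108, R12_183, R1_248⟩]⟩]⟩], [], [], [], [⟨nat_lit 0, [⟨nat_lit 2, [⟨nat_lit 0, nat_lit 2592, nat_lit 7296, nat_lit 10656, nat_lit 6192, nat_lit 2016, R3_222, R7_129, R3_42⟩, ⟨nat_lit 1, nat_lit 2640, nat_lit 7344, nat_lit 10848, nat_lit 17328, nat_lit 12768, R3_226, R14_361, R10_266⟩]⟩]⟩,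
 ⟨nat_lit 2, [⟨nat_lit 2, [⟨nat_lit 0, nat_lit 3120, nat_lit 7680, nat_lit 6432, nat_lit 4368, nat_lit 6960, R10_134, R2_91, R3_145⟩, ⟨nat_lit 1, nat_lit 3168, nat_lit 7728, nat_lit 6480, nat_lit 15072, nat_lit 12816, R10_135, R12_314, R10_267⟩]⟩, ⟨nat_lit 6, [⟨nat_lit 0, nat_lit 3456, nat_lit 7536, nat_lit 5568, nat_lit 13536, nat_lit 13680, R1_116, R2_282, R2_285⟩, ⟨nat_lit 1, nat_lit 3552, nat_lit 7584, nat_lit 5664, nat_lit 14880, nat_lit 15024, R1_118, R12_310, R1_313⟩, ⟨nat_lit 2, nat_lit 3504, nat_lit 7632, nat_lit 5616, nat_lit 14880, nat_lit 15456, R1_117, R1_310, R12_322⟩]⟩]⟩,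
 ⟨nat_lit 3, [⟨nat_lit 2, [⟨nat_lit 0, nat_lit 4464, nat_lit 7392, nat_lit 5040, nat_lit 9504, nat_lit 8496, R0_105, R2_198, R3_177⟩, ⟨nat_lit 1, nat_lit 4512, nat_lit 7440, nat_lit 5136, nat_lit 8688, nat_lit 12864, R0_107, R12_181, R10_268⟩, ⟨nat_lit 3, nat_lit 4560, nat_lit 7488, nat_lit 5088, nat_lit 10320, nat_lit 10464, R0_106, R1_215, R0_218⟩]⟩]⟩]], [[⟨nat_lit 0, [⟨nat_lit 2, [⟨nat_lit 5, nat_lit 2688, nat_lit 11568, nat_lit 9504, nat_lit 10512, nat_lit 11904, R3_198, R5_219, R5_248⟩]⟩]⟩,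
 ⟨nat_lit 3, [⟨nat_lit 0, [⟨nat_lit 5, nat_lit 3936, nat_lit 9744, nat_lit 17040, nat_lit 13920, nat_lit 19200, R5_355, R11_290, R8_400⟩]⟩, ⟨nat_lit 2, [⟨nat_lit 5, nat_lit 4608, nat_lit 12000, nat_lit 4848, nat_lit 13968, nat_lit 12048, R0_101, R11_291, R5_251⟩]⟩]⟩], [], [⟨nat_lit 0, [⟨nat_lit 2, [⟨nat_lit 5, nat_lit 2736, nat_lit 6240, nat_lit 9600, nat_lit 10608, nat_lit 16368, R3_200, R5_221, R11_341⟩]⟩]⟩,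
 ⟨nat_lit 3, [⟨nat_lit 0, [⟨nat_lit 5, nat_lit 3984, nat_lit 6288, nat_lit 17760, nat_lit 14016, nat_lit 13584, R5_370, R11_292, R5_283⟩]⟩, ⟨nat_lit 2, [⟨nat_lit 1, nat_lit 4704, nat_lit 6384, nat_lit 4944, nat_lit 10272, nat_lit 11952, R0_103, R1_214, R1_249⟩, ⟨nat_lit 5, nat_lit 4656, nat_lit 6336, nat_lit 4992, nat_lit 14064, nat_lit 16800, R0_104, R11_293, R11_350⟩]⟩]⟩], [⟨nat_lit 0, [⟨nat_lit 2, [⟨nat_lit 5, nat_lit 2784, nat_lit 8784, nat_lit 9552, nat_lit 10560, nat_lit 9984, R3_199, R5_220, R0_208⟩]⟩]⟩,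
 ⟨nat_lit 3, [⟨nat_lit 0, [⟨nat_lit 5, nat_lit 4032, nat_lit 8832, nat_lit 17424, nat_lit 14112, nat_lit 11616, R5_363, R11_294, R9_242⟩]⟩, ⟨nat_lit 2, [⟨nat_lit 5, nat_lit 4752, nat_lit 8928, nat_lit 4896, nat_lit 14160, nat_lit 10416, R0_102, R11_295, R0_217⟩]⟩, ⟨nat_lit 3, [⟨nat_lit 5, nat_lit 5232, nat_lit 8880, nat_lit 6480, nat_lit 14208, nat_lit 15264, R11_135, R11_296, R0_318⟩]⟩]⟩]], [[], [], [], [], [⟨nat_lit 4, [⟨nat_lit 4, [⟨nat_lit 6, nat_lit 5568, nat_lit 14352, nat_lit 9024, nat_lit 13536, nat_lit 10896, R4_188, R8_282, R4_227⟩]⟩, ⟨nat_lit 7, [⟨nat_lit 6, nat_lit 5664, nat_lit 14496, nat_lit 16464, nat_lit 13824, nat_lit 13152, R3_343, R8_288, R5_274⟩]⟩]⟩,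
 ⟨nat_lit 6, [⟨nat_lit 4, [⟨nat_lit 6, nat_lit 5856, nat_lit 15264, nat_lit 5328, nat_lit 9072, nat_lit 11280, R5_111, R5_189, R4_235⟩]⟩, ⟨nat_lit 7, [⟨nat_lit 6, nat_lit 6192, nat_lit 15408, nat_lit 2304, nat_lit 9120, nat_lit 13440, R0_48, R5_190, R5_280⟩]⟩]⟩,
 ⟨nat_lit 7, [⟨nat_lit 7, [⟨nat_lit 6, nat_lit 6960, nat_lit 14832, nat_lit 3120, nat_lit 8352, nat_lit 13296, R10_65, R9_174, R5_277⟩]⟩]⟩], [], [], [⟨nat_lit 3, [⟨nat_lit 0, [⟨nat_lit 7, nat_lit 4080, nat_lit 8064, nat_lit 15408, nat_lit 9360, nat_lit 11280, R5_321, R2_195, R2_235⟩]⟩, ⟨nat_lit 2, [⟨nat_lit 7, nat_lit 4800, nat_lit 8160, nat_lit 4368, nat_lit 9456, nat_lit 11856, R0_91, R2_197, R1_247⟩]⟩, ⟨nat_lit 3, [⟨nat_lit 7, nat_lit 5280, nat_lit 8112, nat_lit 6192, nat_lit 9408, nat_lit 11328, R11_129, R2_196, R12_236⟩]⟩]⟩,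
 ⟨nat_lit 4, [⟨nat_lit 7, [⟨nat_lit 6, nat_lit 5712, nat_lit 8784, nat_lit 16512, nat_lit 13968, nat_lit 16080, R3_344, R8_291, R11_335⟩]⟩]⟩,
 ⟨nat_lit 6, [⟨nat_lit 7, [⟨nat_lit 6, nat_lit 6240, nat_lit 9600, nat_lit 2736, nat_lit 10608, nat_lit 16368, R0_57, R5_221, R11_341⟩]⟩]⟩,
 ⟨nat_lit 7, [⟨nat_lit 3, [⟨nat_lit 4, nat_lit 6432, nat_lit 9024, nat_lit 3120, nat_lit 11760, nat_lit 8736, R1_65, R13_245, R2_182⟩, ⟨nat_lit 6, nat_lit 6480, nat_lit 9456, nat_lit 3216, nat_lit 9312, nat_lit 9552, R1_67, R9_194, R1_199⟩, ⟨nat_lit 7, nat_lit 6528, nat_lit 9264, nat_lit 3168, nat_lit 15600, nat_lit 11232, R1_66, R3_325, R12_234⟩]⟩, ⟨nat_lit 7, [⟨nat_lit 6, nat_lit 7008, nat_lit 9408, nat_lit 3744, nat_lit 9264, nat_lit 16224, R10_78, R9_193, R11_338⟩]⟩]⟩]], [], [[], [], [], [], [⟨nat_lit 0, [⟨nat_lit 2, [⟨nat_lit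 0, nat_lit 2832, nat_lit 3648, nat_lit 17424, nat_lit 6000, nat_lit 6240, R3_363, R4_125, R4_130⟩, ⟨nat_lit 3, nat_lit 2880, nat_lit 11856, nat_lit 17712, nat_lit 10704, nat_lit 11616, R3_369, R5_223, R5_242⟩]⟩]⟩,
 ⟨nat_lit 2, [⟨nat_lit 2, [⟨nat_lit 0, nat_lit 3216, nat_lit 3792, nat_lit 6192, nat_lit 1104, nat_lit 6720, R10_129, R3_23, R4_140⟩, ⟨nat_lit 3, nat_lit 3264, nat_lit 12144, nat_lit 6240, nat_lit 8688, nat_lit 12384, R10_130, R0_181, R5_258⟩]⟩, ⟨nat_lit 6, [⟨nat_lit 0, nat_lit 3600, nat_lit 2832, nat_lit 5232, nat_lit 1872, nat_lit 6528, R1_109, R3_39, R7_136⟩, ⟨nat_lit 2, nat_lit 3648, nat_lit 14064, nat_lit 5280, nat_lit 10848, nat_lit 22320, R1_110, R10_226, R14_465⟩]⟩]⟩,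
 ⟨nat_lit 3, [⟨nat_lit 2, [⟨nat_lit 3, nat_lit 4848, nat_lit 12000, nat_lit 4608, nat_lit 13776, nat_lit 12048, R0_96, R11_287, R5_251⟩]⟩]⟩,
 ⟨nat_lit 4, [⟨nat_lit 4, [⟨nat_lit 6, nat_lit 5616, nat_lit 17568, nat_lit 10608, nat_lit 2016, nat_lit 10944, R4_221, R5_42, R4_228⟩]⟩, ⟨nat_lit 7, [⟨nat_lit 6, nat_lit 5760, nat_lit 17664, nat_lit 17760, nat_lit 10752, nat_lit 13488, R3_370, R5_224, R5_281⟩]⟩]⟩,
 ⟨nat_lit 6, [⟨nat_lit 4, [⟨nat_lit 2, nat_lit 5952, nat_lit 13680, nat_lit 15216, nat_lit 9696, nat_lit 11760, R5_317, R1_202, R7_245⟩, ⟨nat_lit 6, nat_lit 5904, nat_lit 17616, nat_lit 5376, nat_lit 11520, nat_lit 11328, R5_112, R11_240, R4_236⟩]⟩, ⟨nat_lit 6, [⟨nat_lit 2, nat_lit 6048, nat_lit 13968, nat_lit 6000, nat_lit 9744, nat_lit 22368, R11_125, R1_203, R14_466⟩]⟩, ⟨nat_lit 7, [⟨nat_lit 6, nat_lit 6288,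 nat_lit 17760, nat_lit 3984, nat_lit 11568, nat_lit 13584, R0_83, R11_241, R5_283⟩]⟩]⟩,
 ⟨nat_lit 7, [⟨nat_lit 7, [⟨nat_lit 6, nat_lit 7056, nat_lit 17712, nat_lit 5808, nat_lit 7584, nat_lit 13536, R10_121, R0_158, R5_282⟩]⟩]⟩], [], [⟨nat_lit 0, [⟨nat_lit 2, [⟨nat_lit 0, nat_lit 2928, nat_lit 8304, nat_lit 17520, nat_lit 6576, nat_lit 1152, R3_365, R4_137, R3_24⟩, ⟨nat_lit 3, nat_lit 2976, nat_lit 8352, nat_lit 17904, nat_lit 10896, nat_lit 10320, R3_373, R5_227, R0_215⟩]⟩]⟩,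
 ⟨nat_lit 2, [⟨nat_lit 2, [⟨nat_lit 0, nat_lit 3312, nat_lit 10128, nat_lit 6336, nat_lit 6288, nat_lit 6336, R10_132, R3_131, R3_132⟩, ⟨nat_lit 3, nat_lit 3360, nat_lit 10176, nat_lit 6384, nat_lit 8736, nat_lit 10368, R10_133, R0_182, R0_216⟩]⟩, ⟨nat_lit 6, [⟨nat_lit 0, nat_lit 3696, nat_lit 9264, nat_lit 5472, nat_lit 6816, nat_lit 4704, R1_114, R3_142, R2_98⟩, ⟨nat_lit 2, nat_lit 3744, nat_lit 9312, nat_lit 5520, nat_lit 10896, nat_lit 17184, R1_115, R10_227, R12_358⟩]⟩]⟩,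
 ⟨nat_lit 3, [⟨nat_lit 2, [⟨nat_lit 3, nat_lit 4896, nat_lit 8928, nat_lit 4752, nat_lit 13824, nat_lit 10416, R0_99, R11_288, R0_217⟩]⟩]⟩,
 ⟨nat_lit 6, [⟨nat_lit 6, [⟨nat_lit 2, nat_lit 6096, nat_lit 7248, nat_lit 6864, nat_lit 9936, nat_lit 17136, R11_143, R1_207, R12_357⟩]⟩]⟩], [⟨nat_lit 0, [⟨nat_lit 2, [⟨nat_lit 3, nat_lit 3024, nat_lit 5808, nat_lit 17808, nat_lit 10800, nat_lit 16704, R3_371, R5_225, R11_348⟩]⟩]⟩,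
 ⟨nat_lit 2, [⟨nat_lit 2, [⟨nat_lit 3, nat_lit 3408, nat_lit 7104, nat_lit 6288, nat_lit 8784, nat_lit 16752, R10_131, R0_183, R11_349⟩]⟩, ⟨nat_lit 6, [⟨nat_lit 0, nat_lit 3792, nat_lit 6576, nat_lit 5328, nat_lit 8448, nat_lit 9648, R1_111, R3_176, R2_201⟩, ⟨nat_lit 2, nat_lit 3840, nat_lit 6672, nat_lit 5376, nat_lit 10944, nat_lit 11280, R1_112, R10_228, R12_235⟩, ⟨nat_lit 3, nat_lit 3888, nat_lit 6624, nat_lit 5424, nat_lit 8832, nat_lit 10464, R1_113, R0_184, R1_218⟩]⟩]⟩,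
 ⟨nat_lit 3, [⟨nat_lit 0, [⟨nat_lit 7, nat_lit 4128, nat_lit 6000, nat_lit 15792, nat_lit 10176, nat_lit 11376, R5_329, R1_212, R2_237⟩]⟩, ⟨nat_lit 2, [⟨nat_lit 3, nat_lit 4992, nat_lit 6336, nat_lit 4656, nat_lit 13872, nat_lit 16800, R0_97, R11_289, R11_350⟩, ⟨nat_lit 7, nat_lit 4944, nat_lit 6384, nat_lit 4704, nat_lit 10272, nat_lit 11952, R0_98, R1_214, R1_249⟩]⟩, ⟨nat_lit 3, [⟨nat_lit 7, nat_lit 5328, nat_lit 6144, nat_lit 6432, nat_lit 10224, nat_lit 11376, R11_134, R1_213, R12_237⟩]⟩]⟩,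
 ⟨nat_lit 4, [⟨nat_lit 7, [⟨nat_lit 6, nat_lit 5808, nat_lit 3024, nat_lit 17808, nat_lit 10800, nat_lit 16704, R3_371, R5_225, R11_348⟩]⟩]⟩,
 ⟨nat_lit 6, [⟨nat_lit 4, [⟨nat_lit 2, nat_lit 6000, nat_lit 4128, nat_lit 15792, nat_lit 10176, nat_lit 11376, R5_329, R1_212, R2_237⟩]⟩, ⟨nat_lit 6, [⟨nat_lit 2, nat_lit 6144, nat_lit 5328, nat_lit 6432, nat_lit 10224, nat_lit 11376, R11_134, R1_213, R12_237⟩]⟩, ⟨nat_lit 7, [⟨nat_lit 2, nat_lit 6384, nat_lit 4944, nat_lit 4704, nat_lit 10272, nat_lit 11952, R0_98, R1_214, R1_249⟩, ⟨nat_lit 6, nat_lit 6336, nat_lit 4992, nat_lit 4656, nat_lit 13872, nat_lit 16800, R0_97, R11_289, R11_350⟩]⟩]⟩,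
 ⟨nat_lit 7, [⟨nat_lit 3, [⟨nat_lit 4, nat_lit 6576, nat_lit 3792, nat_lit 5328, nat_lit 8448, nat_lit 9648, R1_111, R3_176, R2_201⟩, ⟨nat_lit 6, nat_lit 6624, nat_lit 3888, nat_lit 5424, nat_lit 8832, nat_lit 10464, R1_113, R0_184, R1_218⟩, ⟨nat_lit 7, nat_lit 6672, nat_lit 3840, nat_lit 5376, nat_lit 10944, nat_lit 11280, R1_112, R10_228, R12_235⟩]⟩, ⟨nat_lit 7, [⟨nat_lit 6, nat_lit 7104, nat_lit 3408, nat_lit 6288, nat_lit 8784, nat_lit 16752, R10_131, R0_183, R11_349⟩]⟩]⟩]], [[], [], [], [⟨nat_lit 3, [⟨nat_lit 0, [⟨nat_lit 4, nat_lit 4176, nat_lit 6480, nat_lit 14640, nat_lit 8592, nat_lit 14016, R5_305, R2_179, R13_292⟩, ⟨nat_lit 5, nat_lit 4224, nat_lit 6576, nat_lit 17280, nat_lit 9408, nat_lit 11664, R5_360, R1_196, R9_243⟩, ⟨nat_lit 7, nat_lit 4272, nat_lit 6528, nat_lit 16176, nat_lit 8640, nat_lit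 17280, R5_337, R12_180, R3_360⟩]⟩, ⟨nat_lit 2, [⟨nat_lit 4, nat_lit 5040, nat_lit 7392, nat_lit 4464, nat_lit 9504, nat_lit 8496, R0_93, R2_198, R3_177⟩, ⟨nat_lit 5, nat_lit 5088, nat_lit 7488, nat_lit 4560, nat_lit 10320, nat_lit 10464, R0_95, R1_215, R0_218⟩, ⟨nat_lit 7, nat_lit 5136, nat_lit 7440, nat_lit 4512, nat_lit 8688, nat_lit 12864, R0_94, R12_181, R10_268⟩]⟩, ⟨nat_lit 3, [⟨nat_lit 4, nat_lit 5376, nat_lit 7056, nat_lit 6336, nat_lit 9888, nat_lit 13056, R11_132, R2_206, R3_272⟩, ⟨nat_lit 5, nat_lit 5424, nat_lit 7104, nat_lit 6384, nat_lit 10704, nat_lit 15120, R11_133, R1_223, R0_315⟩]⟩]⟩,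
 ⟨nat_lit 7, [⟨nat_lit 3, [⟨nat_lit 4, nat_lit 6720, nat_lit 4800, nat_lit 4320, nat_lit 15072, nat_lit 15120, R1_90, R3_314, R3_315⟩, ⟨nat_lit 5, nat_lit 6816, nat_lit 4848, nat_lit 4416, nat_lit 11616, nat_lit 14352, R1_92, R10_242, R0_299⟩, ⟨nat_lit 6, nat_lit 6768, nat_lit 4896, nat_lit 4368, nat_lit 14016, nat_lit 11760, R1_91, R0_292, R10_245⟩]⟩]⟩], [], [], [], [⟨nat_lit 3, [⟨nat_lit 0, [⟨nat_lit 7, nat_lit 4320, nat_lit 7488, nat_lit 15696, nat_lit 8736, nat_lit 11328, R5_327, R12_182, R2_236⟩]⟩, ⟨nat_lit 2, [⟨nat_lit 7, nat_lit 5184, nat_lit 8304, nat_lit 4416, nat_lit 8784, nat_lit 11904, R0_92, R12_183, R1_248⟩]⟩, ⟨nat_lit 3, [⟨nat_lit 4, nat_lit 5472, nat_lit 8016, nat_lit 6240, nat_lit 7344, nat_lit 7392, R11_130, R2_153, R2_154⟩, ⟨nat_lit 7, nat_lit 5520, nat_lit 8064, nat_lit 6288, nat_lit 8832,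 nat_lit 11424, R11_131, R12_184, R12_238⟩]⟩]⟩,
 ⟨nat_lit 7, [⟨nat_lit 3, [⟨nat_lit 4, nat_lit 6864, nat_lit 5520, nat_lit 3696, nat_lit 12960, nat_lit 9984, R1_77, R3_270, R2_208⟩, ⟨nat_lit 6, nat_lit 6912, nat_lit 5568, nat_lit 3744, nat_lit 14064, nat_lit 10800, R1_78, R0_293, R1_225⟩]⟩, ⟨nat_lit 7, [⟨nat_lit 6, nat_lit 7152, nat_lit 4992, nat_lit 4416, nat_lit 14208, nat_lit 16608, R10_92, R0_296, R11_346⟩]⟩]⟩]]], [[], [], [], [], [[], [], [], [], [⟨nat_lit 4, [⟨nat_lit 4, [⟨nat_lit 6, nat_lit 7200, nat_lit 17952, nat_lit 5328, nat_lit 16800, nat_lit 7488, R8_111, R8_350, R4_156⟩]⟩, ⟨nat_lit 7, [⟨nat_lit 6, nat_lit 7632, nat_lit 18768, nat_lit 16416, nat_lit 17088, nat_lit 9456, R9_342, R8_356, R5_197⟩]⟩]⟩,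
 ⟨nat_lit 6, [⟨nat_lit 4, [⟨nat_lit 6, nat_lit 8304, nat_lit 18048, nat_lit 288, nat_lit 10032, nat_lit 7776, R9_6, R5_209, R4_162⟩]⟩]⟩,
 ⟨nat_lit 7, [⟨nat_lit 7, [⟨nat_lit 6, nat_lit 9024, nat_lit 18864, nat_lit 7680, nat_lit 8736, nat_lit 9840, R0_160, R9_182, R5_205⟩]⟩]⟩], [⟨nat_lit 4, [⟨nat_lit 4, [⟨nat_lit 6, nat_lit 7248, nat_lit 9792, nat_lit 5856, nat_lit 16944, nat_lit 2544, R8_122, R8_353, R3_53⟩]⟩, ⟨nat_lit 5, [⟨nat_lit 6, nat_lit 7488, nat_lit 9888, nat_lit 16992, nat_lit 17472, nat_lit 5760, R5_354, R8_364, R10_120⟩]⟩, ⟨nat_lit 7, [⟨nat_lit 6, nat_lit 7680, nat_lit 9840, nat_lit 16512, nat_lit 17376, nat_lit 9024, R9_344, R8_362, R0_188⟩]⟩]⟩,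
 ⟨nat_lit 6, [⟨nat_lit 4, [⟨nat_lit 6, nat_lit 8352, nat_lit 12096, nat_lit 5424, nat_lit 12336, nat_lit 7296, R9_113, R5_257, R3_152⟩]⟩, ⟨nat_lit 5, [⟨nat_lit 6, nat_lit 8688, nat_lit 12144, nat_lit 3264, nat_lit 12384, nat_lit 6240, R0_68, R5_258, R10_130⟩]⟩]⟩,
 ⟨nat_lit 7, [⟨nat_lit 7, [⟨nat_lit 6, nat_lit 9072, nat_lit 11184, nat_lit 7968, nat_lit 10080, nat_lit 9168, R0_166, R9_210, R0_191⟩]⟩]⟩], [], [⟨nat_lit 4, [⟨nat_lit 7, [⟨nat_lit 6, nat_lit 7728, nat_lit 8640, nat_lit 16464, nat_lit 17232, nat_lit 11904, R9_343, R8_359, R11_248⟩]⟩]⟩,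
 ⟨nat_lit 7, [⟨nat_lit 7, [⟨nat_lit 6, nat_lit 9120, nat_lit 9744, nat_lit 7824, nat_lit 9840, nat_lit 12288, R0_163, R9_205, R11_256⟩]⟩]⟩]], [[], [], [], [], [⟨nat_lit 4, [⟨nat_lit 4, [⟨nat_lit 6, nat_lit 7296, nat_lit 3888, nat_lit 5376, nat_lit 16896, nat_lit 7680, R8_112, R9_352, R4_160⟩]⟩, ⟨nat_lit 7, [⟨nat_lit 6, nat_lit 7776, nat_lit 12240, nat_lit 17280, nat_lit 17184, nat_lit 11712, R9_360, R9_358, R5_244⟩]⟩]⟩,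
 ⟨nat_lit 5, [⟨nat_lit 4, [⟨nat_lit 6, nat_lit 8016, nat_lit 4032, nat_lit 192, nat_lit 14496, nat_lit 8064, R5_4, R0_302, R4_168⟩]⟩, ⟨nat_lit 7, [⟨nat_lit 6, nat_lit 8160, nat_lit 12480, nat_lit 14880, nat_lit 14784, nat_lit 12624, R0_310, R0_308, R5_263⟩]⟩]⟩,
 ⟨nat_lit 6, [⟨nat_lit 4, [⟨nat_lit 6, nat_lit 8400, nat_lit 4176, nat_lit 384, nat_lit 1056, nat_lit 7920, R9_8, R0_22, R4_165⟩]⟩]⟩], [⟨nat_lit 4, [⟨nat_lit 4, [⟨nat_lit 6, nat_lit 7344, nat_lit 12240, nat_lit 5904, nat_lit 17040, nat_lit 2640, R8_123, R9_355, R3_55⟩]⟩, ⟨nat_lit 5, [⟨nat_lit 6, nat_lit 7536, nat_lit 12336, nat_lit 17376, nat_lit 17616, nat_lit 5952, R5_362, R9_367, R10_124⟩]⟩, ⟨nat_lit 7, [⟨nat_lit 6, nat_lit 7824, nat_lit 12288, nat_lit 17376, nat_lit 17472, nat_lit 9120, R9_362, R9_364, R0_190⟩]⟩]⟩,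
 ⟨nat_lit 5, [⟨nat_lit 4, [⟨nat_lit 6, nat_lit 8064, nat_lit 13296, nat_lit 5856, nat_lit 14640, nat_lit 10176, R5_122, R0_305, R3_212⟩]⟩, ⟨nat_lit 5, [⟨nat_lit 6, nat_lit 8112, nat_lit 13392, nat_lit 22080, nat_lit 15216, nat_lit 6672, R11_460, R0_317, R10_139⟩]⟩, ⟨nat_lit 7, [⟨nat_lit 6, nat_lit 8208, nat_lit 13344, nat_lit 14976, nat_lit 15072, nat_lit 9264, R0_312, R0_314, R0_193⟩]⟩]⟩,
 ⟨nat_lit 6, [⟨nat_lit 4, [⟨nat_lit 6, nat_lit 8448, nat_lit 15072, nat_lit 5520, nat_lit 1104, nat_lit 7392, R9_115, R0_23, R3_154⟩]⟩, ⟨nat_lit 5, [⟨nat_lit 6, nat_lit 8736, nat_lit 15120, nat_lit 3360, nat_lit 10368, nat_lit 6384, R0_70, R0_216, R10_133⟩]⟩]⟩], [], [⟨nat_lit 4, [⟨nat_lit 7, [⟨nat_lit 6, nat_lit 7872, nat_lit 7872, nat_lit 17328, nat_lit 17328, nat_lit 14688, R9_361, R9_361, R11_306⟩]⟩]⟩,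
 ⟨nat_lit 5, [⟨nat_lit 7, [⟨nat_lit 6, nat_lit 8256, nat_lit 8256, nat_lit 14928, nat_lit 14928, nat_lit 15600, R0_311, R0_311, R11_325⟩]⟩]⟩]], [[], [], [], [], [⟨nat_lit 4, [⟨nat_lit 4, [⟨nat_lit 6, nat_lit 7392, nat_lit 3552, nat_lit 5424, nat_lit 2304, nat_lit 7536, R8_113, R5_48, R4_157⟩]⟩, ⟨nat_lit 7, [⟨nat_lit 6, nat_lit 7920, nat_lit 10032, nat_lit 18048, nat_lit 11136, nat_lit 11088, R9_376, R5_232, R5_231⟩]⟩]⟩,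
 ⟨nat_lit 6, [⟨nat_lit 4, [⟨nat_lit 2, nat_lit 8544, nat_lit 3120, nat_lit 768, nat_lit 9792, nat_lit 7872, R9_16, R1_204, R7_164⟩, ⟨nat_lit 6, nat_lit 8496, nat_lit 3600, nat_lit 432, nat_lit 12480, nat_lit 7824, R9_9, R11_260, R4_163⟩]⟩, ⟨nat_lit 6, [⟨nat_lit 2, nat_lit 8880, nat_lit 12864, nat_lit 13008, nat_lit 9840, nat_lit 20976, R0_271, R1_205, R14_437⟩]⟩]⟩,
 ⟨nat_lit 7, [⟨nat_lit 7, [⟨nat_lit 6, nat_lit 9168, nat_lit 10080, nat_lit 9072, nat_lit 7968, nat_lit 11184, R0_189, R0_166, R5_233⟩]⟩]⟩], [⟨nat_lit 4, [⟨nat_lit 4, [⟨nat_lit 6, nat_lit 7440, nat_lit 2016, nat_lit 5952, nat_lit 2352, nat_lit 2592, R8_124, R5_49, R3_54⟩]⟩, ⟨nat_lit 5, [⟨nat_lit 6, nat_lit 7584, nat_lit 7056, nat_lit 17712, nat_lit 13536, nat_lit 5808, R5_369, R5_282, R10_121⟩]⟩, ⟨nat_lit 7, [⟨nat_lit 6, nat_lit 7968, nat_lit 9168,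 nat_lit 18096, nat_lit 11184, nat_lit 9072, R9_377, R5_233, R0_189⟩]⟩]⟩,
 ⟨nat_lit 6, [⟨nat_lit 4, [⟨nat_lit 2, nat_lit 8640, nat_lit 1584, nat_lit 6048, nat_lit 10368, nat_lit 6720, R9_126, R1_216, R2_140⟩, ⟨nat_lit 6, nat_lit 8592, nat_lit 2064, nat_lit 5568, nat_lit 15312, nat_lit 7344, R9_116, R11_319, R3_153⟩]⟩, ⟨nat_lit 5, [⟨nat_lit 2, nat_lit 8832, nat_lit 6624, nat_lit 3888, nat_lit 10464, nat_lit 5424, R0_81, R1_218, R1_113⟩, ⟨nat_lit 6, nat_lit 8784, nat_lit 7104, nat_lit 3408, nat_lit 15360, nat_lit 6288, R0_71, R11_320, R10_131⟩]⟩, ⟨nat_lit 6, [⟨nat_lit 2, nat_lit 8928, nat_lit 11040, nat_lit 13728, nat_lit 10416, nat_lit 16752, R0_286, R1_217, R12_349⟩]⟩]⟩,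
 ⟨nat_lit 7, [⟨nat_lit 7, [⟨nat_lit 6, nat_lit 9216, nat_lit 9216, nat_lit 9216, nat_lit 9216, nat_lit 9216, R0_192, R0_192, R0_192⟩]⟩]⟩], [⟨nat_lit 6, [⟨nat_lit 6, [⟨nat_lit 2, nat_lit 8976, nat_lit 10848, nat_lit 13872, nat_lit 9984, nat_lit 16512, R0_289, R1_208, R12_344⟩]⟩]⟩]], [[], [], [], [], [], [], [], [⟨nat_lit 7, [⟨nat_lit 7, [⟨nat_lit 6, nat_lit 9264, nat_lit 15072, nat_lit 8208, nat_lit 14976, nat_lit 13344, R0_171, R0_312, R11_278⟩]⟩]⟩]]], [[], [], [], [], [[], [], [], [⟨nat_lit 4, [⟨nat_lit 3, [⟨nat_lit 4, nat_lit 9312, nat_lit 7584, nat_lit 14544, nat_lit 12480, nat_lit 11328, R2_303, R6_260, R3_236⟩, ⟨nat_lit 5, nat_lit 9408, nat_lit 7920, nat_lit 14784, nat_lit 12816, nat_lit 12624, R2_308, R4_267, R0_263⟩, ⟨nat_lit 6, nat_lit 9360, nat_lit 8064, nat_lit 14688, nat_lit 14784, nat_lit 9216, R2_306,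 R8_308, R10_192⟩]⟩]⟩,
 ⟨nat_lit 7, [⟨nat_lit 3, [⟨nat_lit 4, nat_lit 10512, nat_lit 8400, nat_lit 4752, nat_lit 10176, nat_lit 12288, R12_99, R13_212, R3_256⟩, ⟨nat_lit 5, nat_lit 10608, nat_lit 9168, nat_lit 4848, nat_lit 8304, nat_lit 13776, R12_101, R3_173, R0_287⟩, ⟨nat_lit 6, nat_lit 10560, nat_lit 10128, nat_lit 4800, nat_lit 7824, nat_lit 10800, R12_100, R9_163, R10_225⟩]⟩]⟩], [], [], [], [⟨nat_lit 4, [⟨nat_lit 3, [⟨nat_lit 4, nat_lit 9456, nat_lit 11280, nat_lit 14496, nat_lit 13248, nat_lit 7632, R2_302, R6_276, R2_159⟩, ⟨nat_lit 6, nat_lit 9504, nat_lit 16272, nat_lit 14640, nat_lit 14736, nat_lit 8160, R2_305, R8_307, R1_170⟩]⟩, ⟨nat_lit 7, [⟨nat_lit 6, nat_lit 9888, nat_lit 16608, nat_lit 8736, nat_lit 14640, nat_lit 8016, R3_182, R8_305, R11_167⟩]⟩]⟩,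
 ⟨nat_lit 6, [⟨nat_lit 7, [⟨nat_lit 6, nat_lit 10320, nat_lit 17904, nat_lit 2976, nat_lit 10896, nat_lit 8352, R0_62, R5_227, R11_174⟩]⟩]⟩,
 ⟨nat_lit 7, [⟨nat_lit 3, [⟨nat_lit 4, nat_lit 10656, nat_lit 12240, nat_lit 4608, nat_lit 12144, nat_lit 8688, R12_96, R13_253, R2_181⟩, ⟨nat_lit 6, nat_lit 10704, nat_lit 17088, nat_lit 4656, nat_lit 9408, nat_lit 9504, R12_97, R9_196, R1_198⟩, ⟨nat_lit 7, nat_lit 10752, nat_lit 14976, nat_lit 4704, nat_lit 14832, nat_lit 11088, R12_98, R3_309, R12_231⟩]⟩]⟩]], [[], [], [], [⟨nat_lit 4, [⟨nat_lit 3, [⟨nat_lit 4, nat_lit 9552, nat_lit 8112, nat_lit 15120, nat_lit 14928, nat_lit 16320, R2_315, R8_311, R3_340⟩, ⟨nat_lit 5, nat_lit 9648, nat_lit 8448, nat_lit 15408, nat_lit 16704, nat_lit 12672, R2_321, R5_348, R0_264⟩, ⟨nat_lit 6, nat_lit 9600, nat_lit 8592, nat_lit 15264,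 nat_lit 15840, nat_lit 9840, R2_318, R9_330, R10_205⟩]⟩]⟩,
 ⟨nat_lit 5, [⟨nat_lit 3, [⟨nat_lit 4, nat_lit 10032, nat_lit 8736, nat_lit 16128, nat_lit 10992, nat_lit 17616, R1_336, R5_229, R3_367⟩, ⟨nat_lit 5, nat_lit 10128, nat_lit 8880, nat_lit 16416, nat_lit 14256, nat_lit 13968, R1_342, R11_297, R0_291⟩, ⟨nat_lit 6, nat_lit 10080, nat_lit 8928, nat_lit 16272, nat_lit 14304, nat_lit 12144, R1_339, R0_298, R10_253⟩]⟩]⟩,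
 ⟨nat_lit 7, [⟨nat_lit 3, [⟨nat_lit 4, nat_lit 10800, nat_lit 9216, nat_lit 4992, nat_lit 9456, nat_lit 17136, R12_104, R9_197, R3_357⟩, ⟨nat_lit 5, nat_lit 10848, nat_lit 9984, nat_lit 5040, nat_lit 8976, nat_lit 13872, R12_105, R0_187, R0_289⟩]⟩]⟩], [], [], [], [⟨nat_lit 4, [⟨nat_lit 3, [⟨nat_lit 4, nat_lit 9696, nat_lit 9168, nat_lit 15072, nat_lit 14976, nat_lit 8112, R2_314, R8_312, R2_169⟩, ⟨nat_lit 6, nat_lit 9744, nat_lit 9792, nat_lit 15216, nat_lit 15792, nat_lit 8640, R2_317, R9_329, R1_180⟩]⟩, ⟨nat_lit 7, [⟨nat_lit 6, nat_lit 9936, nat_lit 9744, nat_lit 9360, nat_lit 15696, nat_lit 9744, R3_195, R9_327, R11_203⟩]⟩]⟩,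
 ⟨nat_lit 5, [⟨nat_lit 3, [⟨nat_lit 4, nat_lit 10176, nat_lit 10080, nat_lit 16080, nat_lit 7872, nat_lit 10272, R1_335, R5_164, R2_214⟩, ⟨nat_lit 6, nat_lit 10224, nat_lit 10368, nat_lit 16224, nat_lit 14256, nat_lit 10848, R1_338, R0_297, R1_226⟩]⟩, ⟨nat_lit 7, [⟨nat_lit 6, nat_lit 10272, nat_lit 10320, nat_lit 19872, nat_lit 14160, nat_lit 10272, R10_414, R0_295, R11_214⟩]⟩]⟩,
 ⟨nat_lit 6, [⟨nat_lit 7, [⟨nat_lit 6, nat_lit 10368, nat_lit 12048, nat_lit 3360, nat_lit 8736, nat_lit 10176, R0_70, R0_182, R11_212⟩]⟩]⟩,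
 ⟨nat_lit 7, [⟨nat_lit 3, [⟨nat_lit 4, nat_lit 10896, nat_lit 10656, nat_lit 4896, nat_lit 7920, nat_lit 10224, R12_102, R9_165, R2_213⟩, ⟨nat_lit 7, nat_lit 10944, nat_lit 11328, nat_lit 4944, nat_lit 13248, nat_lit 11184, R12_103, R0_276, R12_233⟩]⟩]⟩]], [[], [], [], [], [], [], [], [⟨nat_lit 4, [⟨nat_lit 3, [⟨nat_lit 4, nat_lit 9792, nat_lit 12480, nat_lit 15600, nat_lit 12864, nat_lit 7968, R2_325, R4_268, R2_166⟩, ⟨nat_lit 6, nat_lit 9840, nat_lit 12576, nat_lit 15696, nat_lit 16800, nat_lit 8496, R2_327, R5_350, R1_177⟩]⟩, ⟨nat_lit 7, [⟨nat_lit 6, nat_lit 9984, nat_lit 2784, nat_lit 9552, nat_lit 10560, nat_lit 8784, R3_199, R5_220, R11_183⟩]⟩]⟩,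
 ⟨nat_lit 6, [⟨nat_lit 7, [⟨nat_lit 2, nat_lit 10464, nat_lit 5088, nat_lit 4560, nat_lit 10320, nat_lit 7488, R0_95, R1_215, R1_156⟩, ⟨nat_lit 6, nat_lit 10416, nat_lit 4752, nat_lit 4896, nat_lit 14160, nat_lit 8928, R0_102, R11_295, R11_186⟩]⟩]⟩,
 ⟨nat_lit 7, [⟨nat_lit 3, [⟨nat_lit 4, nat_lit 10992, nat_lit 13440, nat_lit 5232, nat_lit 8400, nat_lit 9600, R12_109, R3_175, R2_200⟩, ⟨nat_lit 6, nat_lit 11040, nat_lit 13728, nat_lit 5280, nat_lit 8928, nat_lit 10416, R12_110, R0_186, R1_217⟩, ⟨nat_lit 7, nat_lit 11088, nat_lit 13632, nat_lit 5328, nat_lit 11472, nat_lit 11136, R12_111, R10_239, R12_232⟩]⟩]⟩]], [[], [], [], [⟨nat_lit 7, [⟨nat_lit 3, [⟨nat_lit 4, nat_lit 11136, nat_lit 6192, nat_lit 5088, nat_lit 14880, nat_lit 15024, R12_106, R3_310, R3_313⟩, ⟨nat_lit 5, nat_lit 11232, nat_lit 6240, nat_lit 5184,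 nat_lit 11568, nat_lit 13824, R12_108, R10_241, R0_288⟩, ⟨nat_lit 6, nat_lit 11184, nat_lit 6288, nat_lit 5136, nat_lit 13200, nat_lit 11712, R12_107, R0_275, R10_244⟩]⟩]⟩]]], [[], [[⟨nat_lit 1, [⟨nat_lit 0, [⟨nat_lit 5, nat_lit 11280, nat_lit 1440, nat_lit 1920, nat_lit 13248, nat_lit 4080, R7_40, R10_276, R8_85⟩]⟩, ⟨nat_lit 1, [⟨nat_lit 5, nat_lit 11376, nat_lit 7440, nat_lit 480, nat_lit 13392, nat_lit 3264, R2_10, R10_279, R9_68⟩]⟩]⟩,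
 ⟨nat_lit 5, [⟨nat_lit 0, [⟨nat_lit 5, nat_lit 11520, nat_lit 864, nat_lit 1776, nat_lit 10512, nat_lit 4224, R4_37, R1_219, R8_88⟩]⟩, ⟨nat_lit 1, [⟨nat_lit 5, nat_lit 11760, nat_lit 6864, nat_lit 12672, nat_lit 10560, nat_lit 3408, R3_264, R1_220, R9_71⟩]⟩]⟩], [⟨nat_lit 1, [⟨nat_lit 1, [⟨nat_lit 5, nat_lit 11424, nat_lit 5664, nat_lit 6192, nat_lit 13920, nat_lit 1728, R2_129, R10_290, R0_36⟩]⟩]⟩,
 ⟨nat_lit 5, [⟨nat_lit 1, [⟨nat_lit 5, nat_lit 11808, nat_lit 5040, nat_lit 13488, nat_lit 10752, nat_lit 1872, R3_281, R1_224, R0_39⟩]⟩]⟩], [], [⟨nat_lit 1, [⟨nat_lit 0, [⟨nat_lit 5, nat_lit 11328, nat_lit 432, nat_lit 8544, nat_lit 13536, nat_lit 12144, R7_178, R10_282, R9_253⟩]⟩, ⟨nat_lit 3, [⟨nat_lit 5, nat_lit 11472, nat_lit 6144, nat_lit 5712, nat_lit 13680, nat_lit 1776, R2_119, R10_285, R0_37⟩]⟩]⟩,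
 ⟨nat_lit 5, [⟨nat_lit 0, [⟨nat_lit 5, nat_lit 11568, nat_lit 2208, nat_lit 8496, nat_lit 10608, nat_lit 10272, R4_177, R1_221, R9_214⟩]⟩]⟩]], [], [], [], [[⟨nat_lit 5, [⟨nat_lit 0, [⟨nat_lit 4, nat_lit 11616, nat_lit 720, nat_lit 1056, nat_lit 8688, nat_lit 3168, R4_22, R5_181, R6_66⟩, ⟨nat_lit 5, nat_lit 11712, nat_lit 768, nat_lit 1248, nat_lit 11136, nat_lit 4416, R4_26, R11_232, R8_92⟩, ⟨nat_lit 6, nat_lit 11664, nat_lit 864, nat_lit 1200, nat_lit 432, nat_lit 2880, R4_25, R0_9, R4_60⟩]⟩, ⟨nat_lit 1, [⟨nat_lit 4, nat_lit 11856, nat_lit 7104, nat_lit 4560, nat_lit 10080, nat_lit 18096, R3_95, R5_210, R8_377⟩, ⟨nat_lit 5, nat_lit 11952, nat_lit 7152, nat_lit 4704, nat_lit 12528, nat_lit 3648, R3_98, R11_261, R9_76⟩, ⟨nat_lit 6, nat_lit 11904, nat_lit 7248, nat_lit 4608, nat_lit 480, nat_lit 4272, R3_96, R0_10,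 R5_89⟩]⟩]⟩], [⟨nat_lit 5, [⟨nat_lit 1, [⟨nat_lit 4, nat_lit 12000, nat_lit 5664, nat_lit 5232, nat_lit 12432, nat_lit 12576, R3_109, R5_259, R5_262⟩, ⟨nat_lit 5, nat_lit 12096, nat_lit 5808, nat_lit 5376, nat_lit 15408, nat_lit 2112, R3_112, R11_321, R0_44⟩, ⟨nat_lit 6, nat_lit 12048, nat_lit 5856, nat_lit 5280, nat_lit 528, nat_lit 4272, R3_110, R0_11, R11_89⟩]⟩]⟩]]], [[[⟨nat_lit 0, [⟨nat_lit 0, [⟨nat_lit 5, nat_lit 12144, nat_lit 5616, nat_lit 17424, nat_lit 12480, nat_lit 11328, R7_363, R4_260, R8_236⟩]⟩, ⟨nat_lit 2, [⟨nat_lit 5, nat_lit 12336, nat_lit 5664, nat_lit 15552, nat_lit 12528, nat_lit 2736, R2_324, R4_261, R5_57⟩]⟩]⟩,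
 ⟨nat_lit 1, [⟨nat_lit 0, [⟨nat_lit 5, nat_lit 12720, nat_lit 6288, nat_lit 9072, nat_lit 1728, nat_lit 11472, R14_189, R3_36, R8_239⟩]⟩, ⟨nat_lit 1, [⟨nat_lit 5, nat_lit 13056, nat_lit 6384, nat_lit 7680, nat_lit 1968, nat_lit 12240, R12_160, R3_41, R9_255⟩]⟩, ⟨nat_lit 2, [⟨nat_lit 5, nat_lit 13296, nat_lit 6480, nat_lit 4512, nat_lit 1824, nat_lit 2880, R12_94, R3_38, R5_60⟩]⟩]⟩], [], [⟨nat_lit 0, [⟨nat_lit 0, [⟨nat_lit 5, nat_lit 12192, nat_lit 4032, nat_lit 17520, nat_lit 12960, nat_lit 13056, R7_365, R4_270, R5_272⟩]⟩, ⟨nat_lit 2, [⟨nat_lit 1, nat_lit 12432, nat_lit 12720, nat_lit 11616, nat_lit 14112, nat_lit 11568, R2_242, R7_294, R1_241⟩, ⟨nat_lit 5, nat_lit 12384, nat_lit 4080, nat_lit 15648, nat_lit 13008, nat_lit 15984, R2_326, R4_271, R11_333⟩]⟩]⟩,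
 ⟨nat_lit 1, [⟨nat_lit 0, [⟨nat_lit 5, nat_lit 12768, nat_lit 4464, nat_lit 11424, nat_lit 6672, nat_lit 14160, R14_238, R3_139, R5_295⟩]⟩, ⟨nat_lit 1, [⟨nat_lit 5, nat_lit 13104, nat_lit 4560, nat_lit 9552, nat_lit 6912, nat_lit 1488, R12_199, R3_144, R0_31⟩]⟩, ⟨nat_lit 2, [⟨nat_lit 1, nat_lit 13392, nat_lit 13632, nat_lit 6528, nat_lit 13392, nat_lit 12000, R12_136, R2_279, R1_250⟩, ⟨nat_lit 5, nat_lit 13344, nat_lit 4656, nat_lit 5808, nat_lit 6768, nat_lit 17232, R12_121, R3_141, R11_359⟩]⟩]⟩], [⟨nat_lit 0, [⟨nat_lit 0, [⟨nat_lit 5, nat_lit 12240, nat_lit 7776, nat_lit 17472, nat_lit 12672, nat_lit 11280, R7_364, R4_264, R9_235⟩]⟩, ⟨nat_lit 2, [⟨nat_lit 5, nat_lit 12480, nat_lit 7968, nat_lit 15600, nat_lit 12864, nat_lit 9792, R2_325, R4_268, R0_204⟩]⟩, ⟨nat_lit 3, [⟨nat_lit 5, nat_lit 12624, nat_lit 7920,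 nat_lit 14784, nat_lit 12816, nat_lit 9408, R2_308, R4_267, R0_196⟩]⟩]⟩,
 ⟨nat_lit 1, [⟨nat_lit 0, [⟨nat_lit 5, nat_lit 12816, nat_lit 9024, nat_lit 10848, nat_lit 8256, nat_lit 12816, R14_226, R3_172, R9_267⟩]⟩, ⟨nat_lit 2, [⟨nat_lit 5, nat_lit 13440, nat_lit 9600, nat_lit 5232, nat_lit 8400, nat_lit 10992, R12_109, R3_175, R0_229⟩]⟩, ⟨nat_lit 3, [⟨nat_lit 5, nat_lit 13776, nat_lit 9168, nat_lit 4848, nat_lit 8304, nat_lit 10608, R12_101, R3_173, R0_221⟩]⟩]⟩]], [[⟨nat_lit 1, [⟨nat_lit 0, [⟨nat_lit 5, nat_lit 12864, nat_lit 19152, nat_lit 9120, nat_lit 16080, nat_lit 12048, R14_190, R10_335, R8_251⟩]⟩, ⟨nat_lit 1, [⟨nat_lit 5, nat_lit 13152, nat_lit 20832, nat_lit 7728, nat_lit 16272, nat_lit 13008, R12_161, R10_339, R9_271⟩]⟩, ⟨nat_lit 2, [⟨nat_lit 5, nat_lit 13488, nat_lit 22128, nat_lit 4560, nat_lit 16128,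 nat_lit 14112, R12_95, R10_336, R5_294⟩]⟩]⟩], [⟨nat_lit 1, [⟨nat_lit 1, [⟨nat_lit 5, nat_lit 13200, nat_lit 16608, nat_lit 8016, nat_lit 18288, nat_lit 11184, R12_167, R10_381, R0_233⟩]⟩]⟩], [⟨nat_lit 1, [⟨nat_lit 0, [⟨nat_lit 5, nat_lit 12912, nat_lit 15792, nat_lit 11472, nat_lit 17712, nat_lit 14208, R14_239, R10_369, R5_296⟩]⟩, ⟨nat_lit 1, [⟨nat_lit 5, nat_lit 13248, nat_lit 16464, nat_lit 9600, nat_lit 17856, nat_lit 10944, R12_200, R10_372, R0_228⟩]⟩, ⟨nat_lit 2, [⟨nat_lit 1, nat_lit 13584, nat_lit 15408, nat_lit 6576, nat_lit 14736, nat_lit 12096, R12_137, R1_307, R1_252⟩, ⟨nat_lit 5, nat_lit 13536, nat_lit 17088, nat_lit 5856, nat_lit 17760, nat_lit 17280, R12_122, R10_370, R11_360⟩]⟩]⟩], [⟨nat_lit 1, [⟨nat_lit 0, [⟨nat_lit 5, nat_lit 12960, nat_lit 1392, nat_lit 10944, nat_lit 16896, nat_lit 12912,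 R14_228, R10_352, R9_269⟩]⟩, ⟨nat_lit 2, [⟨nat_lit 5, nat_lit 13632, nat_lit 11136, nat_lit 5328, nat_lit 17088, nat_lit 11088, R12_111, R10_356, R0_231⟩]⟩, ⟨nat_lit 3, [⟨nat_lit 5, nat_lit 13824, nat_lit 6240, nat_lit 5184, nat_lit 17040, nat_lit 11232, R12_108, R10_355, R0_234⟩]⟩]⟩]], [[], [], [⟨nat_lit 0, [⟨nat_lit 2, [⟨nat_lit 1, nat_lit 12528, nat_lit 14064, nat_lit 11760, nat_lit 16800, nat_lit 11616, R2_245, R14_350, R1_242⟩]⟩]⟩,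
 ⟨nat_lit 1, [⟨nat_lit 2, [⟨nat_lit 1, nat_lit 13680, nat_lit 14976, nat_lit 6624, nat_lit 14208, nat_lit 12048, R12_138, R12_296, R1_251⟩]⟩]⟩,
 ⟨nat_lit 2, [⟨nat_lit 2, [⟨nat_lit 1, nat_lit 13920, nat_lit 15168, nat_lit 12192, nat_lit 15216, nat_lit 11760, R1_254, R12_317, R1_245⟩]⟩]⟩]], [[], [], [], [⟨nat_lit 0, [⟨nat_lit 0, [⟨nat_lit 5, nat_lit 12288, nat_lit 8304, nat_lit 17808, nat_lit 16368, nat_lit 11328, R7_371, R5_341, R9_236⟩]⟩, ⟨nat_lit 2, [⟨nat_lit 5, nat_lit 12576, nat_lit 8496, nat_lit 15696, nat_lit 16800, nat_lit 9840, R2_327, R5_350, R0_205⟩]⟩, ⟨nat_lit 3, [⟨nat_lit 5, nat_lit 12672, nat_lit 8448, nat_lit 15408, nat_lit 16704, nat_lit 9648, R2_321, R5_348, R0_201⟩]⟩]⟩,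
 ⟨nat_lit 1, [⟨nat_lit 0, [⟨nat_lit 5, nat_lit 13008, nat_lit 9840, nat_lit 10896, nat_lit 8880, nat_lit 12864, R14_227, R0_185, R9_268⟩]⟩, ⟨nat_lit 2, [⟨nat_lit 5, nat_lit 13728, nat_lit 10416, nat_lit 5280, nat_lit 8928, nat_lit 11040, R12_110, R0_186, R0_230⟩]⟩, ⟨nat_lit 3, [⟨nat_lit 5, nat_lit 13872, nat_lit 9984, nat_lit 5040, nat_lit 8976, nat_lit 10848, R12_105, R0_187, R0_226⟩]⟩]⟩,
 ⟨nat_lit 3, [⟨nat_lit 3, [⟨nat_lit 5, nat_lit 13968, nat_lit 8880, nat_lit 16416, nat_lit 14256, nat_lit 10128, R1_342, R11_297, R0_211⟩]⟩]⟩]]], [[], [[], [⟨nat_lit 1, [⟨nat_lit 1, [⟨nat_lit 5, nat_lit 14016, nat_lit 4368, nat_lit 4896, nat_lit 19584, nat_lit 6768, R1_102, R10_408, R0_141⟩]⟩]⟩,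
 ⟨nat_lit 5, [⟨nat_lit 1, [⟨nat_lit 5, nat_lit 14064, nat_lit 3744, nat_lit 19776, nat_lit 10800, nat_lit 6912, R10_412, R1_225, R0_144⟩]⟩]⟩]], [], [], [], [[], [⟨nat_lit 5, [⟨nat_lit 1, [⟨nat_lit 4, nat_lit 14112, nat_lit 10224, nat_lit 19824, nat_lit 12528, nat_lit 12672, R10_413, R5_261, R5_264⟩, ⟨nat_lit 5, nat_lit 14208, nat_lit 10272, nat_lit 19920, nat_lit 15504, nat_lit 7152, R10_415, R11_323, R0_149⟩, ⟨nat_lit 6, nat_lit 14160, nat_lit 10320, nat_lit 19872, nat_lit 10272, nat_lit 10272, R10_414, R0_214, R11_214⟩]⟩, ⟨nat_lit 5, [⟨nat_lit 6, nat_lit 14256, nat_lit 10368, nat_lit 16224, nat_lit 10224, nat_lit 10848, R1_338, R0_213, R1_226⟩]⟩]⟩], [], [], [], [⟨nat_lit 5, [⟨nat_lit 5, [⟨nat_lit 6, nat_lit 14304, nat_lit 8928, nat_lit 16272, nat_lit 10080, nat_lit 19008, R1_339, R0_210, R10_396⟩]⟩]⟩]]], [[],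 [[], [], [], [⟨nat_lit 1, [⟨nat_lit 3, [⟨nat_lit 5, nat_lit 14352, nat_lit 4848, nat_lit 4416, nat_lit 19152, nat_lit 6816, R1_92, R10_399, R0_142⟩]⟩]⟩,
 ⟨nat_lit 5, [⟨nat_lit 0, [⟨nat_lit 5, nat_lit 14400, nat_lit 1680, nat_lit 6768, nat_lit 10656, nat_lit 10560, R5_141, R1_222, R9_220⟩]⟩, ⟨nat_lit 3, [⟨nat_lit 5, nat_lit 15120, nat_lit 7104, nat_lit 21984, nat_lit 10704, nat_lit 5424, R11_458, R1_223, R0_113⟩]⟩]⟩]], [], [], [], [[⟨nat_lit 5, [⟨nat_lit 0, [⟨nat_lit 4, nat_lit 14448, nat_lit 1632, nat_lit 48, nat_lit 8736, nat_lit 7344, R5_1, R5_182, R6_153⟩, ⟨nat_lit 5, nat_lit 14544, nat_lit 2448, nat_lit 384, nat_lit 11184, nat_lit 9312, R5_8, R11_233, R8_194⟩, ⟨nat_lit 6, nat_lit 14496, nat_lit 4032, nat_lit 192, nat_lit 8016, nat_lit 8064, R5_4, R0_167, R4_168⟩]⟩, ⟨nat_lit 1, [⟨nat_lit 4, nat_lit 14736,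 nat_lit 10128, nat_lit 14736, nat_lit 10128, nat_lit 18960, R0_307, R5_211, R8_395⟩, ⟨nat_lit 5, nat_lit 14832, nat_lit 11280, nat_lit 15024, nat_lit 12576, nat_lit 10128, R0_313, R11_262, R9_211⟩, ⟨nat_lit 6, nat_lit 14784, nat_lit 12480, nat_lit 14880, nat_lit 8160, nat_lit 12624, R0_310, R0_170, R5_263⟩]⟩]⟩], [⟨nat_lit 5, [⟨nat_lit 1, [⟨nat_lit 4, nat_lit 14880, nat_lit 8160, nat_lit 14784, nat_lit 12480, nat_lit 12624, R0_308, R5_260, R5_263⟩, ⟨nat_lit 5, nat_lit 14976, nat_lit 8208, nat_lit 15072, nat_lit 15456, nat_lit 9264, R0_314, R11_322, R0_193⟩, ⟨nat_lit 6, nat_lit 14928, nat_lit 8256, nat_lit 14928, nat_lit 8256, nat_lit 15600, R0_311, R0_172, R11_325⟩]⟩]⟩], [], [⟨nat_lit 5, [⟨nat_lit 0, [⟨nat_lit 4, nat_lit 14592, nat_lit 13056, nat_lit 5088, nat_lit 10464, nat_lit 13296, R5_106, R5_218, R13_277⟩,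 ⟨nat_lit 5, nat_lit 14688, nat_lit 13200, nat_lit 6864, nat_lit 13728, nat_lit 10608, R5_143, R11_286, R9_221⟩, ⟨nat_lit 6, nat_lit 14640, nat_lit 13296, nat_lit 5856, nat_lit 8064, nat_lit 10176, R5_122, R0_168, R3_212⟩]⟩, ⟨nat_lit 1, [⟨nat_lit 4, nat_lit 15024, nat_lit 13104, nat_lit 14832, nat_lit 11280, nat_lit 10128, R0_309, R5_235, R9_211⟩, ⟨nat_lit 6, nat_lit 15072, nat_lit 13344, nat_lit 14976, nat_lit 8208, nat_lit 9264, R0_312, R0_171, R0_193⟩]⟩, ⟨nat_lit 3, [⟨nat_lit 4, nat_lit 15168, nat_lit 13152, nat_lit 22032, nat_lit 10944, nat_lit 17952, R11_459, R5_228, R3_374⟩, ⟨nat_lit 5, nat_lit 15264, nat_lit 13248, nat_lit 22128, nat_lit 14208, nat_lit 5232, R11_461, R11_296, R0_109⟩, ⟨nat_lit 6, nat_lit 15216, nat_lit 13392, nat_lit 22080, nat_lit 8112, nat_lit 12096, R11_460, R0_169, R10_252⟩]⟩]⟩]]]]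
noncomputable def N1244 : T3 (List N0) := [[[], [], [], [], [[], [], [], [], [⟨nat_lit 0, [⟨nat_lit 0, [⟨nat_lit 3, nat_lit 15120, nat_lit 11712, nat_lit 11712, nat_lit 4512, nat_lit 14496, R6_244, R6_94, R6_302⟩]⟩, ⟨nat_lit 2, [⟨nat_lit 3, nat_lit 15696, nat_lit 14832, nat_lit 12288, nat_lit 4560, nat_lit 15408, R8_256, R6_95, R8_321⟩]⟩]⟩,
 ⟨nat_lit 2, [⟨nat_lit 2, [⟨nat_lit 0, nat_lit 12144, nat_lit 16416, nat_lit 7920, nat_lit 8352, nat_lit 14688, R5_165, R6_174, R6_306⟩, ⟨nat_lit 2, nat_lit 14064, nat_lit 17088, nat_lit 8016, nat_lit 8976, nat_lit 14256, R5_167, R4_187, R4_297⟩, ⟨nat_lit 3, nat_lit 15840, nat_lit 16752, nat_lit 7968, nat_lit 4560, nat_lit 15504, R5_166, R8_95, R8_323⟩]⟩]⟩,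
 ⟨nat_lit 3, [⟨nat_lit 0, [⟨nat_lit 3, nat_lit 15264, nat_lit 12000, nat_lit 10416, nat_lit 4752, nat_lit 14544, R13_217, R4_99, R6_303⟩]⟩, ⟨nat_lit 2, [⟨nat_lit 3, nat_lit 15984, nat_lit 15456, nat_lit 7968, nat_lit 4848, nat_lit 15456, R9_166, R4_101, R8_322⟩]⟩, ⟨nat_lit 3, [⟨nat_lit 3, nat_lit 16464, nat_lit 13344, nat_lit 11376, nat_lit 4800, nat_lit 14160, R3_237, R4_100, R4_295⟩, ⟨nat_lit 7, nat_lit 10416, nat_lit 13008, nat_lit 11040, nat_lit 4752, nat_lit 15696, R3_230, R7_99, R7_327⟩]⟩]⟩], [], [], [⟨nat_lit 0, [⟨nat_lit 0, [⟨nat_lit 3, nat_lit 17568, nat_lit 10416, nat_lit 12000, nat_lit 5040, nat_lit 4752, R6_250, R6_105, R4_99⟩]⟩, ⟨nat_lit 2, [⟨nat_lit 3, nat_lit 18288, nat_lit 10704, nat_lit 12432, nat_lit 5088, nat_lit 9168, R8_259, R6_106, R5_191⟩]⟩]⟩,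
 ⟨nat_lit 2, [⟨nat_lit 2, [⟨nat_lit 3, nat_lit 18432, nat_lit 12624, nat_lit 10176, nat_lit 4992, nat_lit 9552, R5_212, R8_104, R5_199⟩]⟩]⟩,
 ⟨nat_lit 3, [⟨nat_lit 0, [⟨nat_lit 3, nat_lit 17712, nat_lit 10992, nat_lit 10992, nat_lit 5328, nat_lit 5328, R13_229, R4_111, R4_111⟩, ⟨nat_lit 7, nat_lit 10992, nat_lit 11040, nat_lit 11040, nat_lit 5136, nat_lit 5136, R13_230, R7_107, R7_107⟩]⟩, ⟨nat_lit 2, [⟨nat_lit 3, nat_lit 18576, nat_lit 12240, nat_lit 8784, nat_lit 5376, nat_lit 9936, R9_183, R4_112, R5_207⟩]⟩, ⟨nat_lit 3, [⟨nat_lit 7, nat_lit 11568, nat_lit 11808, nat_lit 11904, nat_lit 5184, nat_lit 19776, R3_248, R7_108, R14_412⟩]⟩]⟩]], [], [[], [], [], [], [⟨nat_lit 0, [⟨nat_lit 0, [⟨nat_lit 3, nat_lit 15408, nat_lit 12288, nat_lit 14832, nat_lit 15408, nat_lit 14832, R6_309, R8_321, R6_309⟩]⟩, ⟨nat_lit 2,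 [⟨nat_lit 0, nat_lit 12288, nat_lit 15408, nat_lit 15408, nat_lit 14832, nat_lit 14832, R8_321, R6_309, R6_309⟩, ⟨nat_lit 3, nat_lit 16080, nat_lit 16080, nat_lit 16080, nat_lit 16080, nat_lit 16080, R8_335, R8_335, R8_335⟩]⟩]⟩,
 ⟨nat_lit 2, [⟨nat_lit 2, [⟨nat_lit 0, nat_lit 12432, nat_lit 15552, nat_lit 9168, nat_lit 10704, nat_lit 14880, R5_191, R13_223, R6_310⟩, ⟨nat_lit 2, nat_lit 14208, nat_lit 16608, nat_lit 9264, nat_lit 16368, nat_lit 14400, R5_193, R3_341, R4_300⟩, ⟨nat_lit 3, nat_lit 16224, nat_lit 16368, nat_lit 9216, nat_lit 8400, nat_lit 16176, R5_192, R9_175, R8_337⟩]⟩]⟩,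
 ⟨nat_lit 3, [⟨nat_lit 0, [⟨nat_lit 3, nat_lit 15552, nat_lit 12432, nat_lit 10704, nat_lit 9168, nat_lit 14880, R13_223, R5_191, R6_310⟩]⟩, ⟨nat_lit 2, [⟨nat_lit 3, nat_lit 16368, nat_lit 16224, nat_lit 8400, nat_lit 9216, nat_lit 16128, R9_175, R5_192, R8_336⟩]⟩, ⟨nat_lit 3, [⟨nat_lit 3, nat_lit 16608, nat_lit 14208, nat_lit 16368, nat_lit 9264, nat_lit 14400, R3_341, R5_193, R4_300⟩]⟩]⟩], [], [⟨nat_lit 0, [⟨nat_lit 0, [⟨nat_lit 0, nat_lit 12576, nat_lit 7920, nat_lit 16416, nat_lit 14688, nat_lit 8352, R6_342, R6_306, R6_174⟩, ⟨nat_lit 1, nat_lit 13488, nat_lit 8016, nat_lit 17088, nat_lit 14256, nat_lit 8976, R6_356, R4_297, R4_187⟩, ⟨nat_lit 3, nat_lit 16752, nat_lit 7968, nat_lit 16752, nat_lit 15504, nat_lit 4560, R6_349, R8_323, R8_95⟩]⟩, ⟨nat_lit 2, [⟨nat_lit 0, nat_lit 12720, nat_lit 9168, nat_lit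 15552, nat_lit 14880, nat_lit 19968, R8_324, R6_310, R13_416⟩, ⟨nat_lit 1, nat_lit 13776, nat_lit 9264, nat_lit 16608, nat_lit 14400, nat_lit 16368, R8_346, R4_300, R3_341⟩, ⟨nat_lit 3, nat_lit 17040, nat_lit 9216, nat_lit 16368, nat_lit 16176, nat_lit 16272, R8_341, R8_337, R9_339⟩]⟩]⟩,
 ⟨nat_lit 2, [⟨nat_lit 2, [⟨nat_lit 0, nat_lit 12864, nat_lit 11328, nat_lit 11328, nat_lit 10848, nat_lit 20016, R5_236, R13_226, R13_417⟩, ⟨nat_lit 1, nat_lit 13920, nat_lit 11424, nat_lit 11472, nat_lit 8688, nat_lit 16416, R5_239, R3_181, R3_342⟩, ⟨nat_lit 2, nat_lit 14592, nat_lit 11472, nat_lit 11424, nat_lit 16416, nat_lit 8688, R5_238, R3_342, R3_181⟩, ⟨nat_lit 3, nat_lit 17184, nat_lit 11376, nat_lit 11376, nat_lit 8544, nat_lit 16320, R5_237, R9_178, R9_340⟩]⟩]⟩,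
 ⟨nat_lit 3, [⟨nat_lit 0, [⟨nat_lit 3, nat_lit 16896, nat_lit 10176, nat_lit 12624, nat_lit 9552, nat_lit 4992, R13_263, R5_199, R8_104⟩]⟩, ⟨nat_lit 2, [⟨nat_lit 3, nat_lit 17328, nat_lit 11040, nat_lit 9888, nat_lit 9600, nat_lit 16368, R9_206, R5_200, R9_341⟩]⟩, ⟨nat_lit 3, [⟨nat_lit 3, nat_lit 17424, nat_lit 10656, nat_lit 17664, nat_lit 9648, nat_lit 16944, R3_368, R5_201, R5_353⟩]⟩]⟩], [⟨nat_lit 0, [⟨nat_lit 0, [⟨nat_lit 3, nat_lit 17904, nat_lit 7968, nat_lit 15456, nat_lit 15456, nat_lit 4848, R6_322, R8_322, R4_101⟩]⟩, ⟨nat_lit 2, [⟨nat_lit 3, nat_lit 18720, nat_lit 8400, nat_lit 16224, nat_lit 16128, nat_lit 9216, R8_338, R8_336, R5_192⟩]⟩]⟩,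
 ⟨nat_lit 2, [⟨nat_lit 2, [⟨nat_lit 3, nat_lit 18816, nat_lit 9888, nat_lit 11040, nat_lit 8688, nat_lit 9600, R5_230, R9_181, R5_200⟩]⟩]⟩,
 ⟨nat_lit 3, [⟨nat_lit 0, [⟨nat_lit 3, nat_lit 18000, nat_lit 8784, nat_lit 12240, nat_lit 9936, nat_lit 5376, R13_255, R5_207, R4_112⟩]⟩, ⟨nat_lit 2, [⟨nat_lit 3, nat_lit 18912, nat_lit 9504, nat_lit 9504, nat_lit 9984, nat_lit 9984, R9_198, R5_208, R5_208⟩]⟩]⟩]], [[], [], [], [], [], [], [], [⟨nat_lit 0, [⟨nat_lit 0, [⟨nat_lit 3, nat_lit 18144, nat_lit 11376, nat_lit 13344, nat_lit 14160, nat_lit 4800, R6_278, R4_295, R4_100⟩, ⟨nat_lit 7, nat_lit 11280, nat_lit 11040, nat_lit 13008, nat_lit 15696, nat_lit 4752, R6_271, R7_327, R7_99⟩]⟩, ⟨nat_lit 2, [⟨nat_lit 3, nat_lit 19008, nat_lit 16368, nat_lit 14208, nat_lit 14400, nat_lit 9264, R8_296, R4_300, R5_193⟩]⟩]⟩,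
 ⟨nat_lit 2, [⟨nat_lit 2, [⟨nat_lit 3, nat_lit 19152, nat_lit 17664, nat_lit 10656, nat_lit 16944, nat_lit 9648, R5_222, R5_353, R5_201⟩]⟩]⟩,
 ⟨nat_lit 3, [⟨nat_lit 0, [⟨nat_lit 7, nat_lit 11424, nat_lit 11904, nat_lit 11808, nat_lit 6048, nat_lit 5184, R13_246, R14_126, R7_108⟩]⟩, ⟨nat_lit 3, [⟨nat_lit 4, nat_lit 4032, nat_lit 14352, nat_lit 14352, nat_lit 1824, nat_lit 1392, R3_299, R7_38, R7_29⟩, ⟨nat_lit 7, nat_lit 12000, nat_lit 14592, nat_lit 14592, nat_lit 6096, nat_lit 19824, R3_304, R14_127, R14_413⟩]⟩]⟩]]], [[[⟨nat_lit 0, [⟨nat_lit 0, [⟨nat_lit 5, nat_lit 4464, nat_lit 4608, nat_lit 15168, nat_lit 15264, nat_lit 6816, R8_316, R6_318, R6_142⟩]⟩, ⟨nat_lit 1, [⟨nat_lit 5, nat_lit 4704, nat_lit 4656, nat_lit 1200, nat_lit 15360, nat_lit 8400, R5_25, R6_320, R13_175⟩]⟩]⟩,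
 ⟨nat_lit 1, [⟨nat_lit 0, [⟨nat_lit 5, nat_lit 4512, nat_lit 5184, nat_lit 1488, nat_lit 20496, nat_lit 6960, R5_31, R13_427, R6_145⟩]⟩, ⟨nat_lit 1, [⟨nat_lit 5, nat_lit 4752, nat_lit 5232, nat_lit 1056, nat_lit 20592, nat_lit 8544, R11_22, R13_429, R13_178⟩]⟩]⟩], [], [⟨nat_lit 0, [⟨nat_lit 0, [⟨nat_lit 5, nat_lit 5136, nat_lit 288, nat_lit 15312, nat_lit 15312, nat_lit 7392, R8_319, R6_319, R4_154⟩]⟩, ⟨nat_lit 1, [⟨nat_lit 5, nat_lit 5472, nat_lit 384, nat_lit 1344, nat_lit 15408, nat_lit 2256, R5_28, R6_321, R3_47⟩]⟩]⟩,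
 ⟨nat_lit 1, [⟨nat_lit 0, [⟨nat_lit 5, nat_lit 5184, nat_lit 3888, nat_lit 3840, nat_lit 20544, nat_lit 7584, R5_80, R13_428, R4_158⟩]⟩, ⟨nat_lit 1, [⟨nat_lit 5, nat_lit 5520, nat_lit 3984, nat_lit 3840, nat_lit 20640, nat_lit 2352, R11_80, R13_430, R3_49⟩]⟩]⟩]], [], [[], [], [⟨nat_lit 0, [⟨nat_lit 0, [⟨nat_lit 1, nat_lit 13008, nat_lit 8784, nat_lit 10464, nat_lit 16752, nat_lit 7584, R8_218, R7_349, R7_158⟩, ⟨nat_lit 5, nat_lit 5232, nat_lit 8736, nat_lit 16512, nat_lit 14640, nat_lit 7440, R8_344, R4_305, R4_155⟩]⟩, ⟨nat_lit 1, [⟨nat_lit 5, nat_lit 5616, nat_lit 8832, nat_lit 13248, nat_lit 14688, nat_lit 2400, R5_276, R4_306, R3_50⟩]⟩]⟩,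
 ⟨nat_lit 1, [⟨nat_lit 0, [⟨nat_lit 5, nat_lit 5280, nat_lit 8976, nat_lit 3936, nat_lit 3264, nat_lit 7632, R5_82, R3_68, R4_159⟩]⟩, ⟨nat_lit 1, [⟨nat_lit 5, nat_lit 5664, nat_lit 9072, nat_lit 3936, nat_lit 3312, nat_lit 2496, R11_82, R3_69, R3_52⟩]⟩]⟩]], [[⟨nat_lit 0, [⟨nat_lit 0, [⟨nat_lit 5, nat_lit 4560, nat_lit 7968, nat_lit 15744, nat_lit 16752, nat_lit 6864, R8_328, R8_349, R6_143⟩]⟩, ⟨nat_lit 1, [⟨nat_lit 4, nat_lit 240, nat_lit 1776, nat_lit 8208, nat_lit 16512, nat_lit 2832, R5_171, R6_344, R6_59⟩, ⟨nat_lit 5, nat_lit 4992, nat_lit 10176, nat_lit 9552, nat_lit 16896, nat_lit 8448, R5_199, R8_352, R13_176⟩]⟩]⟩,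
 ⟨nat_lit 1, [⟨nat_lit 0, [⟨nat_lit 5, nat_lit 4608, nat_lit 8544, nat_lit 1536, nat_lit 16848, nat_lit 7008, R5_32, R9_351, R6_146⟩]⟩, ⟨nat_lit 1, [⟨nat_lit 4, nat_lit 288, nat_lit 1872, nat_lit 336, nat_lit 3552, nat_lit 2928, R11_7, R8_74, R6_61⟩, ⟨nat_lit 5, nat_lit 5040, nat_lit 10368, nat_lit 1104, nat_lit 16992, nat_lit 8592, R11_23, R9_354, R13_179⟩]⟩]⟩,
 ⟨nat_lit 3, [⟨nat_lit 0, [⟨nat_lit 5, nat_lit 4656, nat_lit 8256, nat_lit 2016, nat_lit 2208, nat_lit 6912, R9_42, R5_46, R6_144⟩]⟩]⟩], [], [], [⟨nat_lit 0, [⟨nat_lit 0, [⟨nat_lit 4, nat_lit 1488, nat_lit 10368, nat_lit 12192, nat_lit 14736, nat_lit 8448, R8_254, R6_307, R6_176⟩, ⟨nat_lit 5, nat_lit 6288, nat_lit 10416, nat_lit 15888, nat_lit 16848, nat_lit 6288, R8_331, R8_351, R8_131⟩, ⟨nat_lit 7, nat_lit 9360, nat_lit 10464, nat_lit 14112, nat_lit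 14304, nat_lit 9072, R8_294, R4_298, R4_189⟩]⟩, ⟨nat_lit 1, [⟨nat_lit 4, nat_lit 2160, nat_lit 10512, nat_lit 8352, nat_lit 16560, nat_lit 2400, R5_174, R6_345, R8_50⟩, ⟨nat_lit 5, nat_lit 6672, nat_lit 10560, nat_lit 9696, nat_lit 16992, nat_lit 6096, R5_202, R8_354, R9_127⟩, ⟨nat_lit 7, nat_lit 9840, nat_lit 10608, nat_lit 8928, nat_lit 15216, nat_lit 6288, R5_186, R4_317, R5_131⟩]⟩]⟩,
 ⟨nat_lit 1, [⟨nat_lit 0, [⟨nat_lit 4, nat_lit 1536, nat_lit 10656, nat_lit 1872, nat_lit 3600, nat_lit 9696, R5_39, R8_75, R6_202⟩, ⟨nat_lit 5, nat_lit 6336, nat_lit 10704, nat_lit 2400, nat_lit 16944, nat_lit 6384, R5_50, R9_353, R8_133⟩, ⟨nat_lit 7, nat_lit 9408, nat_lit 10752, nat_lit 2064, nat_lit 17184, nat_lit 10656, R5_43, R5_358, R4_222⟩]⟩, ⟨nat_lit 1, [⟨nat_lit 4, nat_lit 2208, nat_lit 10800, nat_lit 1872, nat_lit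 3648, nat_lit 2544, R11_39, R8_76, R8_53⟩, ⟨nat_lit 5, nat_lit 6720, nat_lit 10848, nat_lit 2400, nat_lit 17088, nat_lit 6192, R11_50, R9_356, R9_129⟩, ⟨nat_lit 7, nat_lit 9888, nat_lit 10896, nat_lit 2064, nat_lit 17232, nat_lit 6432, R11_43, R5_359, R5_134⟩]⟩]⟩,
 ⟨nat_lit 3, [⟨nat_lit 0, [⟨nat_lit 4, nat_lit 1584, nat_lit 10944, nat_lit 2208, nat_lit 192, nat_lit 9456, R9_46, R4_4, R6_197⟩, ⟨nat_lit 5, nat_lit 6384, nat_lit 10992, nat_lit 2688, nat_lit 2400, nat_lit 6336, R9_56, R5_50, R8_132⟩]⟩]⟩]], [[], [], [], [], [⟨nat_lit 0, [⟨nat_lit 0, [⟨nat_lit 3, nat_lit 15216, nat_lit 4608, nat_lit 7440, nat_lit 5664, nat_lit 16080, R8_155, R6_118, R6_335⟩]⟩, ⟨nat_lit 2, [⟨nat_lit 3, nat_lit 15792, nat_lit 4848, nat_lit 13104, nat_lit 5712, nat_lit 17904, R9_273, R6_119, R8_373⟩]⟩]⟩,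
 ⟨nat_lit 3, [⟨nat_lit 0, [⟨nat_lit 3, nat_lit 15360, nat_lit 5712, nat_lit 0, nat_lit 6048, nat_lit 16128, R9_0, R4_126, R6_336⟩]⟩]⟩], [], [], [⟨nat_lit 0, [⟨nat_lit 0, [⟨nat_lit 3, nat_lit 17664, nat_lit 288, nat_lit 7488, nat_lit 6384, nat_lit 7392, R8_156, R6_133, R4_154⟩]⟩, ⟨nat_lit 2, [⟨nat_lit 3, nat_lit 18384, nat_lit 336, nat_lit 13248, nat_lit 6432, nat_lit 9408, R9_276, R6_134, R5_196⟩]⟩]⟩,
 ⟨nat_lit 3, [⟨nat_lit 0, [⟨nat_lit 3, nat_lit 17808, nat_lit 1008, nat_lit 240, nat_lit 6624, nat_lit 7728, R9_5, R4_138, R4_161⟩, ⟨nat_lit 7, nat_lit 11088, nat_lit 1680, nat_lit 480, nat_lit 6240, nat_lit 7680, R9_10, R7_130, R7_160⟩]⟩]⟩]], [], [[], [], [], [], [⟨nat_lit 0, [⟨nat_lit 0, [⟨nat_lit 3, nat_lit 15504, nat_lit 7968, nat_lit 7728, nat_lit 16752, nat_lit 16752, R8_161, R8_349, R6_349⟩]⟩, ⟨nat_lit 2,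 [⟨nat_lit 0, nat_lit 12384, nat_lit 960, nat_lit 15984, nat_lit 14928, nat_lit 15024, R9_333, R6_311, R6_313⟩, ⟨nat_lit 3, nat_lit 16176, nat_lit 9216, nat_lit 16272, nat_lit 17040, nat_lit 18720, R9_339, R8_355, R8_390⟩]⟩]⟩,
 ⟨nat_lit 3, [⟨nat_lit 0, [⟨nat_lit 3, nat_lit 15648, nat_lit 8112, nat_lit 48, nat_lit 9312, nat_lit 16800, R9_1, R5_194, R6_350⟩]⟩]⟩], [], [⟨nat_lit 0, [⟨nat_lit 0, [⟨nat_lit 0, nat_lit 12672, nat_lit 10368, nat_lit 3120, nat_lit 14736, nat_lit 8448, R8_65, R6_307, R6_176⟩, ⟨nat_lit 1, nat_lit 13584, nat_lit 10464, nat_lit 10752, nat_lit 14304, nat_lit 9072, R8_224, R4_298, R4_189⟩, ⟨nat_lit 3, nat_lit 16848, nat_lit 10416, nat_lit 7824, nat_lit 16848, nat_lit 6288, R8_163, R8_351, R8_131⟩]⟩, ⟨nat_lit 2, [⟨nat_lit 0, nat_lit 12816, nat_lit 11616, nat_lit 16128, nat_lit 14976, nat_lit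 20160, R9_336, R6_312, R13_420⟩, ⟨nat_lit 1, nat_lit 13872, nat_lit 11712, nat_lit 16656, nat_lit 14448, nat_lit 16560, R9_347, R4_301, R3_345⟩, ⟨nat_lit 3, nat_lit 17136, nat_lit 11664, nat_lit 16560, nat_lit 17136, nat_lit 16560, R9_345, R8_357, R9_345⟩]⟩]⟩,
 ⟨nat_lit 3, [⟨nat_lit 0, [⟨nat_lit 3, nat_lit 16992, nat_lit 13440, nat_lit 1152, nat_lit 9696, nat_lit 6672, R9_24, R5_202, R8_139⟩]⟩]⟩]], [[], [], [], [], [], [], [], [⟨nat_lit 0, [⟨nat_lit 0, [⟨nat_lit 3, nat_lit 18240, nat_lit 8736, nat_lit 7632, nat_lit 14640, nat_lit 7440, R8_159, R4_305, R4_155⟩, ⟨nat_lit 7, nat_lit 11376, nat_lit 8784, nat_lit 14400, nat_lit 16752, nat_lit 7584, R8_300, R7_349, R7_158⟩]⟩, ⟨nat_lit 2, [⟨nat_lit 3, nat_lit 19104, nat_lit 9456, nat_lit 15360, nat_lit 14736, nat_lit 9504, R9_320, R4_307, R5_198⟩]⟩]⟩,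
 ⟨nat_lit 3, [⟨nat_lit 0, [⟨nat_lit 7, nat_lit 11520, nat_lit 10416, nat_lit 528, nat_lit 6240, nat_lit 7728, R9_11, R14_130, R7_161⟩]⟩]⟩]]], [[], [], [], [], [[], [], [], [], [⟨nat_lit 0, [⟨nat_lit 0, [⟨nat_lit 3, nat_lit 15168, nat_lit 7440, nat_lit 4608, nat_lit 6816, nat_lit 15264, R4_96, R6_142, R6_318⟩]⟩, ⟨nat_lit 2, [⟨nat_lit 3, nat_lit 15744, nat_lit 7728, nat_lit 7968, nat_lit 6864, nat_lit 16752, R5_166, R6_143, R8_349⟩]⟩]⟩,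
 ⟨nat_lit 2, [⟨nat_lit 2, [⟨nat_lit 0, nat_lit 12192, nat_lit 3120, nat_lit 10368, nat_lit 8448, nat_lit 14736, R11_216, R6_176, R6_307⟩, ⟨nat_lit 2, nat_lit 14112, nat_lit 10752, nat_lit 10464, nat_lit 9072, nat_lit 14304, R11_218, R4_189, R4_298⟩, ⟨nat_lit 3, nat_lit 15888, nat_lit 7824, nat_lit 10416, nat_lit 6288, nat_lit 16848, R11_217, R8_131, R8_351⟩]⟩, ⟨nat_lit 6, [⟨nat_lit 2, nat_lit 14352, nat_lit 10608, nat_lit 7968, nat_lit 9120, nat_lit 16800, R1_166, R4_190, R7_350⟩]⟩]⟩,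
 ⟨nat_lit 3, [⟨nat_lit 0, [⟨nat_lit 3, nat_lit 15312, nat_lit 7488, nat_lit 288, nat_lit 7392, nat_lit 15312, R3_6, R4_154, R6_319⟩]⟩, ⟨nat_lit 2, [⟨nat_lit 3, nat_lit 16032, nat_lit 7776, nat_lit 7200, nat_lit 7488, nat_lit 16800, R0_150, R4_156, R8_350⟩]⟩, ⟨nat_lit 3, [⟨nat_lit 3, nat_lit 16512, nat_lit 7632, nat_lit 8736, nat_lit 7440, nat_lit 14640, R10_182, R4_155, R4_305⟩, ⟨nat_lit 7, nat_lit 10464, nat_lit 14400, nat_lit 8784, nat_lit 7584, nat_lit 16752, R10_183, R7_158, R7_349⟩]⟩]⟩,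
 ⟨nat_lit 4, [⟨nat_lit 4, [⟨nat_lit 6, nat_lit 7440, nat_lit 15168, nat_lit 4608, nat_lit 6816, nat_lit 15264, R4_96, R6_142, R6_318⟩]⟩, ⟨nat_lit 7, [⟨nat_lit 6, nat_lit 7728, nat_lit 15744, nat_lit 7968, nat_lit 6864, nat_lit 16752, R5_166, R6_143, R8_349⟩]⟩]⟩,
 ⟨nat_lit 6, [⟨nat_lit 4, [⟨nat_lit 6, nat_lit 7488, nat_lit 15312, nat_lit 288, nat_lit 7392, nat_lit 15312, R3_6, R4_154, R6_319⟩]⟩, ⟨nat_lit 6, [⟨nat_lit 2, nat_lit 14400, nat_lit 10464, nat_lit 8784, nat_lit 7584, nat_lit 16752, R10_183, R7_158, R7_349⟩, ⟨nat_lit 6, nat_lit 7632, nat_lit 16512, nat_lit 8736, nat_lit 7440, nat_lit 14640, R10_182, R4_155, R4_305⟩]⟩, ⟨nat_lit 7, [⟨nat_lit 6, nat_lit 7776, nat_lit 16032, nat_lit 7200, nat_lit 7488, nat_lit 16800, R0_150, R4_156, R8_350⟩]⟩]⟩,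
 ⟨nat_lit 7, [⟨nat_lit 3, [⟨nat_lit 7, nat_lit 10608, nat_lit 14352, nat_lit 7968, nat_lit 9120, nat_lit 16800, R1_166, R4_190, R7_350⟩]⟩, ⟨nat_lit 7, [⟨nat_lit 4, nat_lit 3120, nat_lit 12192, nat_lit 10368, nat_lit 8448, nat_lit 14736, R11_216, R6_176, R6_307⟩, ⟨nat_lit 6, nat_lit 7824, nat_lit 15888, nat_lit 10416, nat_lit 6288, nat_lit 16848, R11_217, R8_131, R8_351⟩, ⟨nat_lit 7, nat_lit 10752, nat_lit 14112, nat_lit 10464, nat_lit 9072, nat_lit 14304, R11_218, R4_189, R4_298⟩]⟩]⟩], [⟨nat_lit 2, [⟨nat_lit 6, [⟨nat_lit 2, nat_lit 14832, nat_lit 528, nat_lit 8064, nat_lit 9168, nat_lit 15024, R1_168, R4_191, R2_313⟩]⟩]⟩,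
 ⟨nat_lit 4, [⟨nat_lit 4, [⟨nat_lit 6, nat_lit 8016, nat_lit 1488, nat_lit 5184, nat_lit 6960, nat_lit 20496, R4_108, R6_145, R13_427⟩]⟩, ⟨nat_lit 7, [⟨nat_lit 6, nat_lit 8688, nat_lit 1536, nat_lit 8544, nat_lit 7008, nat_lit 16848, R5_178, R6_146, R9_351⟩]⟩]⟩,
 ⟨nat_lit 6, [⟨nat_lit 4, [⟨nat_lit 6, nat_lit 8064, nat_lit 3840, nat_lit 3888, nat_lit 7584, nat_lit 20544, R3_81, R4_158, R13_428⟩]⟩, ⟨nat_lit 6, [⟨nat_lit 2, nat_lit 14880, nat_lit 2928, nat_lit 9024, nat_lit 7632, nat_lit 14976, R10_188, R7_159, R2_312⟩, ⟨nat_lit 6, nat_lit 8352, nat_lit 3936, nat_lit 8976, nat_lit 7632, nat_lit 3264, R10_187, R4_159, R3_68⟩]⟩, ⟨nat_lit 7, [⟨nat_lit 6, nat_lit 8736, nat_lit 3888, nat_lit 7296, nat_lit 7680, nat_lit 16896, R0_152, R4_160, R9_352⟩]⟩]⟩,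
 ⟨nat_lit 7, [⟨nat_lit 7, [⟨nat_lit 4, nat_lit 3552, nat_lit 1872, nat_lit 10656, nat_lit 9696, nat_lit 288, R11_222, R6_202, R8_6⟩, ⟨nat_lit 6, nat_lit 8784, nat_lit 2400, nat_lit 10704, nat_lit 6384, nat_lit 16944, R11_223, R8_133, R9_353⟩, ⟨nat_lit 7, nat_lit 10848, nat_lit 2064, nat_lit 10752, nat_lit 10656, nat_lit 17184, R11_224, R4_222, R5_358⟩]⟩]⟩], [], [⟨nat_lit 0, [⟨nat_lit 0, [⟨nat_lit 3, nat_lit 17616, nat_lit 0, nat_lit 5712, nat_lit 7056, nat_lit 6048, R4_119, R6_147, R4_126⟩]⟩, ⟨nat_lit 2, [⟨nat_lit 3, nat_lit 18336, nat_lit 48, nat_lit 8112, nat_lit 7104, nat_lit 9312, R5_169, R6_148, R5_194⟩]⟩]⟩,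
 ⟨nat_lit 2, [⟨nat_lit 2, [⟨nat_lit 3, nat_lit 18480, nat_lit 1152, nat_lit 13440, nat_lit 6672, nat_lit 9696, R11_280, R8_139, R5_202⟩]⟩]⟩,
 ⟨nat_lit 3, [⟨nat_lit 0, [⟨nat_lit 3, nat_lit 17760, nat_lit 240, nat_lit 1008, nat_lit 7728, nat_lit 6624, R3_21, R4_161, R4_138⟩, ⟨nat_lit 7, nat_lit 11040, nat_lit 480, nat_lit 1680, nat_lit 7680, nat_lit 6240, R3_35, R7_160, R7_130⟩]⟩, ⟨nat_lit 2, [⟨nat_lit 3, nat_lit 18624, nat_lit 288, nat_lit 8304, nat_lit 7776, nat_lit 10032, R0_173, R4_162, R5_209⟩]⟩, ⟨nat_lit 3, [⟨nat_lit 7, nat_lit 11616, nat_lit 528, nat_lit 10416, nat_lit 7728, nat_lit 19968, R10_217, R7_161, R14_416⟩]⟩]⟩,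
 ⟨nat_lit 4, [⟨nat_lit 7, [⟨nat_lit 6, nat_lit 9024, nat_lit 2016, nat_lit 8256, nat_lit 6912, nat_lit 2208, R5_172, R6_144, R5_46⟩]⟩]⟩,
 ⟨nat_lit 6, [⟨nat_lit 7, [⟨nat_lit 6, nat_lit 9072, nat_lit 3552, nat_lit 7392, nat_lit 7536, nat_lit 2304, R0_154, R4_157, R5_48⟩]⟩]⟩,
 ⟨nat_lit 7, [⟨nat_lit 3, [⟨nat_lit 4, nat_lit 3792, nat_lit 2256, nat_lit 8976, nat_lit 9504, nat_lit 384, R1_187, R6_198, R7_8⟩, ⟨nat_lit 7, nat_lit 11760, nat_lit 2352, nat_lit 9024, nat_lit 10416, nat_lit 19920, R1_188, R4_217, R14_415⟩]⟩, ⟨nat_lit 7, [⟨nat_lit 4, nat_lit 4272, nat_lit 2208, nat_lit 10944, nat_lit 9456, nat_lit 192, R11_228, R6_197, R4_4⟩, ⟨nat_lit 6, nat_lit 9120, nat_lit 2688, nat_lit 10992, nat_lit 6336, nat_lit 2400, R11_229, R8_132, R5_50⟩]⟩]⟩]], [[], [], [], [], [⟨nat_lit 4, [⟨nat_lit 4, [⟨nat_lit 6, nat_lit 7536,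 nat_lit 1200, nat_lit 4656, nat_lit 8400, nat_lit 15360, R4_97, R13_175, R6_320⟩]⟩, ⟨nat_lit 7, [⟨nat_lit 4, nat_lit 3168, nat_lit 8208, nat_lit 1776, nat_lit 2832, nat_lit 16512, R5_37, R6_59, R6_344⟩, ⟨nat_lit 6, nat_lit 7872, nat_lit 9552, nat_lit 10176, nat_lit 8448, nat_lit 16896, R5_212, R13_176, R8_352⟩]⟩]⟩,
 ⟨nat_lit 6, [⟨nat_lit 4, [⟨nat_lit 6, nat_lit 7584, nat_lit 1344, nat_lit 384, nat_lit 2256, nat_lit 15408, R3_8, R3_47, R6_321⟩]⟩, ⟨nat_lit 6, [⟨nat_lit 2, nat_lit 14544, nat_lit 12960, nat_lit 8880, nat_lit 6384, nat_lit 16944, R10_185, R2_133, R7_353⟩, ⟨nat_lit 6, nat_lit 7680, nat_lit 13248, nat_lit 8832, nat_lit 2400, nat_lit 14688, R10_184, R3_50, R4_306⟩]⟩, ⟨nat_lit 7, [⟨nat_lit 6, nat_lit 7920, nat_lit 9792, nat_lit 7248, nat_lit 2544, nat_lit 16944, R0_151, R3_53, R8_353⟩]⟩]⟩,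
 ⟨nat_lit 7, [⟨nat_lit 3, [⟨nat_lit 7, nat_lit 10704, nat_lit 16320, nat_lit 8208, nat_lit 6336, nat_lit 17088, R1_171, R5_132, R7_356⟩]⟩, ⟨nat_lit 7, [⟨nat_lit 4, nat_lit 3216, nat_lit 8352, nat_lit 10512, nat_lit 576, nat_lit 16560, R11_219, R8_12, R6_345⟩, ⟨nat_lit 6, nat_lit 7968, nat_lit 9696, nat_lit 10560, nat_lit 6096, nat_lit 16992, R11_220, R9_127, R8_354⟩, ⟨nat_lit 7, nat_lit 10800, nat_lit 8928, nat_lit 10608, nat_lit 6288, nat_lit 15216, R11_221, R5_131, R4_317⟩]⟩]⟩], [⟨nat_lit 4, [⟨nat_lit 4, [⟨nat_lit 4, nat_lit 3264, nat_lit 288, nat_lit 0, nat_lit 2784, nat_lit 3792, R4_0, R6_58, R6_79⟩, ⟨nat_lit 6, nat_lit 8112, nat_lit 1056, nat_lit 5232, nat_lit 8544, nat_lit 20592, R4_109, R13_178, R13_429⟩]⟩, ⟨nat_lit 7, [⟨nat_lit 4, nat_lit 3600, nat_lit 336, nat_lit 1872, nat_lit 2928, nat_lit 1536, R5_39,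 R6_61, R8_32⟩, ⟨nat_lit 6, nat_lit 8832, nat_lit 1104, nat_lit 10368, nat_lit 8592, nat_lit 16992, R5_216, R13_179, R9_354⟩]⟩]⟩,
 ⟨nat_lit 6, [⟨nat_lit 4, [⟨nat_lit 6, nat_lit 8208, nat_lit 3840, nat_lit 3984, nat_lit 2352, nat_lit 20640, R3_83, R3_49, R13_430⟩]⟩, ⟨nat_lit 6, [⟨nat_lit 2, nat_lit 15024, nat_lit 2928, nat_lit 9120, nat_lit 6432, nat_lit 15168, R10_190, R2_134, R2_316⟩, ⟨nat_lit 6, nat_lit 8400, nat_lit 3936, nat_lit 9072, nat_lit 2496, nat_lit 3312, R10_189, R3_52, R3_69⟩]⟩, ⟨nat_lit 7, [⟨nat_lit 6, nat_lit 8880, nat_lit 3888, nat_lit 7344, nat_lit 2640, nat_lit 17040, R0_153, R3_55, R9_355⟩]⟩]⟩,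
 ⟨nat_lit 7, [⟨nat_lit 7, [⟨nat_lit 4, nat_lit 3648, nat_lit 1872, nat_lit 10800, nat_lit 2544, nat_lit 2208, R11_225, R8_53, R8_46⟩, ⟨nat_lit 6, nat_lit 8928, nat_lit 2400, nat_lit 10848, nat_lit 6192, nat_lit 17088, R11_226, R9_129, R9_356⟩, ⟨nat_lit 7, nat_lit 10896, nat_lit 2064, nat_lit 10896, nat_lit 6432, nat_lit 17232, R11_227, R5_134, R5_359⟩]⟩]⟩], [], [⟨nat_lit 4, [⟨nat_lit 7, [⟨nat_lit 4, nat_lit 4320, nat_lit 96, nat_lit 1824, nat_lit 2880, nat_lit 2016, R5_38, R6_60, R4_42⟩, ⟨nat_lit 6, nat_lit 9168, nat_lit 336, nat_lit 10272, nat_lit 8496, nat_lit 2256, R5_214, R13_177, R5_47⟩]⟩]⟩,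
 ⟨nat_lit 6, [⟨nat_lit 7, [⟨nat_lit 6, nat_lit 9216, nat_lit 2016, nat_lit 7440, nat_lit 2592, nat_lit 2352, R0_155, R3_54, R5_49⟩]⟩]⟩,
 ⟨nat_lit 7, [⟨nat_lit 3, [⟨nat_lit 4, nat_lit 3936, nat_lit 720, nat_lit 9600, nat_lit 1440, nat_lit 2448, R1_200, R8_30, R7_51⟩, ⟨nat_lit 7, nat_lit 11904, nat_lit 816, nat_lit 9648, nat_lit 6384, nat_lit 20064, R1_201, R5_133, R14_418⟩]⟩, ⟨nat_lit 7, [⟨nat_lit 4, nat_lit 4368, nat_lit 672, nat_lit 11040, nat_lit 960, nat_lit 2496, R11_230, R8_20, R4_52⟩, ⟨nat_lit 6, nat_lit 9264, nat_lit 1152, nat_lit 11088, nat_lit 6144, nat_lit 2496, R11_231, R9_128, R5_52⟩]⟩]⟩]], [[], [], [], [], [⟨nat_lit 0, [⟨nat_lit 0, [⟨nat_lit 3, nat_lit 15456, nat_lit 13104, nat_lit 4848, nat_lit 17904, nat_lit 15456, R4_101, R8_373, R6_322⟩]⟩, ⟨nat_lit 2, [⟨nat_lit 0, nat_lit 12336, nat_lit 15984,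 nat_lit 960, nat_lit 15024, nat_lit 14928, R5_20, R6_313, R6_311⟩, ⟨nat_lit 3, nat_lit 16128, nat_lit 16272, nat_lit 9216, nat_lit 18720, nat_lit 17040, R5_192, R8_390, R8_355⟩]⟩]⟩,
 ⟨nat_lit 2, [⟨nat_lit 2, [⟨nat_lit 0, nat_lit 12480, nat_lit 16128, nat_lit 11616, nat_lit 10800, nat_lit 14976, R11_242, R13_225, R6_312⟩, ⟨nat_lit 2, nat_lit 14256, nat_lit 16656, nat_lit 11712, nat_lit 16560, nat_lit 14448, R11_244, R3_345, R4_301⟩, ⟨nat_lit 3, nat_lit 16272, nat_lit 16560, nat_lit 11664, nat_lit 8496, nat_lit 17136, R11_243, R9_177, R8_357⟩]⟩, ⟨nat_lit 6, [⟨nat_lit 2, nat_lit 14448, nat_lit 11040, nat_lit 8016, nat_lit 16224, nat_lit 16896, R1_167, R3_338, R7_352⟩]⟩]⟩,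
 ⟨nat_lit 3, [⟨nat_lit 0, [⟨nat_lit 3, nat_lit 15600, nat_lit 13248, nat_lit 336, nat_lit 9408, nat_lit 15504, R3_7, R5_196, R6_323⟩]⟩, ⟨nat_lit 2, [⟨nat_lit 3, nat_lit 16416, nat_lit 16416, nat_lit 7632, nat_lit 9456, nat_lit 17088, R0_159, R5_197, R8_356⟩]⟩, ⟨nat_lit 3, [⟨nat_lit 3, nat_lit 16656, nat_lit 15360, nat_lit 9456, nat_lit 9504, nat_lit 14736, R10_197, R5_198, R4_307⟩]⟩]⟩,
 ⟨nat_lit 6, [⟨nat_lit 6, [⟨nat_lit 2, nat_lit 14496, nat_lit 11184, nat_lit 8928, nat_lit 8016, nat_lit 16848, R10_186, R2_167, R7_351⟩]⟩]⟩], [⟨nat_lit 2, [⟨nat_lit 6, [⟨nat_lit 2, nat_lit 14928, nat_lit 9552, nat_lit 8112, nat_lit 16320, nat_lit 15120, R1_169, R3_340, R2_315⟩]⟩]⟩,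
 ⟨nat_lit 6, [⟨nat_lit 6, [⟨nat_lit 2, nat_lit 14976, nat_lit 9696, nat_lit 9168, nat_lit 8112, nat_lit 15072, R10_191, R2_169, R2_314⟩]⟩]⟩], [⟨nat_lit 0, [⟨nat_lit 0, [⟨nat_lit 0, nat_lit 12624, nat_lit 0, nat_lit 1968, nat_lit 14784, nat_lit 8400, R4_41, R6_308, R6_175⟩, ⟨nat_lit 1, nat_lit 13536, nat_lit 5568, nat_lit 10896, nat_lit 14352, nat_lit 9024, R4_227, R4_299, R4_188⟩, ⟨nat_lit 3, nat_lit 16800, nat_lit 7200, nat_lit 7488, nat_lit 17952, nat_lit 5328, R4_156, R8_374, R8_111⟩]⟩, ⟨nat_lit 2, [⟨nat_lit 0, nat_lit 12768, nat_lit 144, nat_lit 1104, nat_lit 15072, nat_lit 20064, R5_23, R6_314, R13_418⟩, ⟨nat_lit 1, nat_lit 13824, nat_lit 5664, nat_lit 13152, nat_lit 14496, nat_lit 16464, R5_274, R4_302, R3_343⟩, ⟨nat_lit 3, nat_lit 17088, nat_lit 7632, nat_lit 9456, nat_lit 18768, nat_lit 16416, R5_197,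 R8_391, R9_342⟩]⟩]⟩,
 ⟨nat_lit 2, [⟨nat_lit 2, [⟨nat_lit 0, nat_lit 12912, nat_lit 192, nat_lit 14304, nat_lit 10944, nat_lit 20112, R11_298, R13_228, R13_419⟩, ⟨nat_lit 1, nat_lit 13968, nat_lit 5712, nat_lit 14448, nat_lit 8784, nat_lit 16512, R11_301, R3_183, R3_344⟩, ⟨nat_lit 2, nat_lit 14640, nat_lit 9888, nat_lit 14400, nat_lit 16608, nat_lit 8736, R11_300, R3_346, R3_182⟩, ⟨nat_lit 3, nat_lit 17232, nat_lit 7728, nat_lit 14352, nat_lit 8640, nat_lit 16464, R11_299, R9_180, R9_343⟩]⟩, ⟨nat_lit 6, [⟨nat_lit 2, nat_lit 14736, nat_lit 9504, nat_lit 8160, nat_lit 16272, nat_lit 14640, R1_170, R3_339, R2_305⟩]⟩]⟩,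
 ⟨nat_lit 3, [⟨nat_lit 0, [⟨nat_lit 3, nat_lit 16944, nat_lit 7248, nat_lit 2544, nat_lit 9792, nat_lit 5856, R3_53, R5_204, R8_122⟩]⟩, ⟨nat_lit 2, [⟨nat_lit 3, nat_lit 17376, nat_lit 7680, nat_lit 9024, nat_lit 9840, nat_lit 16512, R0_188, R5_205, R9_344⟩]⟩, ⟨nat_lit 3, [⟨nat_lit 3, nat_lit 17472, nat_lit 7488, nat_lit 11808, nat_lit 9888, nat_lit 16992, R10_246, R5_206, R5_354⟩]⟩]⟩,
 ⟨nat_lit 6, [⟨nat_lit 6, [⟨nat_lit 2, nat_lit 14784, nat_lit 9360, nat_lit 9216, nat_lit 8064, nat_lit 14688, R10_192, R2_168, R2_306⟩]⟩]⟩]], [[], [], [], [], [], [], [], [⟨nat_lit 0, [⟨nat_lit 0, [⟨nat_lit 3, nat_lit 18192, nat_lit 2160, nat_lit 5904, nat_lit 15024, nat_lit 6096, R4_123, R4_313, R4_127⟩, ⟨nat_lit 7, nat_lit 11328, nat_lit 12144, nat_lit 12480, nat_lit 17424, nat_lit 5616, R4_260, R7_363, R7_117⟩]⟩, ⟨nat_lit 2,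 [⟨nat_lit 3, nat_lit 19056, nat_lit 2256, nat_lit 8832, nat_lit 15312, nat_lit 9360, R5_184, R4_319, R5_195⟩]⟩]⟩,
 ⟨nat_lit 2, [⟨nat_lit 2, [⟨nat_lit 3, nat_lit 19200, nat_lit 3936, nat_lit 13920, nat_lit 17040, nat_lit 9744, R11_290, R5_355, R5_203⟩]⟩]⟩,
 ⟨nat_lit 3, [⟨nat_lit 0, [⟨nat_lit 7, nat_lit 11472, nat_lit 12720, nat_lit 1728, nat_lit 6528, nat_lit 6288, R3_36, R14_136, R7_131⟩]⟩, ⟨nat_lit 3, [⟨nat_lit 4, nat_lit 4080, nat_lit 11280, nat_lit 10992, nat_lit 1920, nat_lit 1440, R10_229, R7_40, R7_30⟩, ⟨nat_lit 7, nat_lit 12048, nat_lit 12864, nat_lit 11040, nat_lit 6576, nat_lit 20016, R10_230, R14_137, R14_417⟩]⟩]⟩,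
 ⟨nat_lit 7, [⟨nat_lit 3, [⟨nat_lit 4, nat_lit 4224, nat_lit 11520, nat_lit 10512, nat_lit 1776, nat_lit 864, R1_219, R4_37, R7_18⟩]⟩, ⟨nat_lit 7, [⟨nat_lit 4, nat_lit 4416, nat_lit 11712, nat_lit 11136, nat_lit 1248, nat_lit 768, R11_232, R4_26, R4_16⟩, ⟨nat_lit 6, nat_lit 9312, nat_lit 14544, nat_lit 11184, nat_lit 384, nat_lit 2448, R11_233, R5_8, R5_51⟩]⟩]⟩]]], [[], [], [], [], [[], [], [], [⟨nat_lit 3, [⟨nat_lit 0, [⟨nat_lit 7, nat_lit 9456, nat_lit 240, nat_lit 13632, nat_lit 7296, nat_lit 9792, R3_284, R7_152, R4_204⟩]⟩, ⟨nat_lit 1, [⟨nat_lit 7, nat_lit 9984, nat_lit 288, nat_lit 1584, nat_lit 7344, nat_lit 6096, R10_33, R7_153, R5_127⟩]⟩]⟩,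
 ⟨nat_lit 7, [⟨nat_lit 0, [⟨nat_lit 4, nat_lit 1632, nat_lit 1392, nat_lit 1392, nat_lit 7584, nat_lit 7584, R2_29, R6_158, R6_158⟩, ⟨nat_lit 7, nat_lit 9504, nat_lit 2016, nat_lit 2016, nat_lit 8208, nat_lit 8208, R2_42, R4_171, R4_171⟩]⟩, ⟨nat_lit 1, [⟨nat_lit 4, nat_lit 2352, nat_lit 1488, nat_lit 864, nat_lit 7680, nat_lit 1920, R1_18, R6_160, R8_40⟩, ⟨nat_lit 7, nat_lit 10032, nat_lit 2064, nat_lit 1488, nat_lit 8256, nat_lit 6192, R1_31, R4_172, R5_129⟩]⟩, ⟨nat_lit 3, [⟨nat_lit 4, nat_lit 2832, nat_lit 1440, nat_lit 6720, nat_lit 7632, nat_lit 3408, R12_140, R6_159, R4_71⟩]⟩]⟩], [], [], [], [⟨nat_lit 3, [⟨nat_lit 0, [⟨nat_lit 3, nat_lit 17856, nat_lit 4368, nat_lit 4368, nat_lit 7056, nat_lit 7056, R3_91, R4_147, R4_147⟩, ⟨nat_lit 7, nat_lit 11136, nat_lit 12384, nat_lit 12384, nat_lit 6768, nat_lit 6768,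 R3_258, R7_141, R7_141⟩]⟩, ⟨nat_lit 2, [⟨nat_lit 3, nat_lit 18672, nat_lit 4560, nat_lit 11856, nat_lit 7104, nat_lit 10080, R0_247, R4_148, R5_210⟩]⟩]⟩,
 ⟨nat_lit 7, [⟨nat_lit 0, [⟨nat_lit 7, nat_lit 11184, nat_lit 13632, nat_lit 240, nat_lit 9792, nat_lit 7296, R2_5, R4_204, R7_152⟩]⟩, ⟨nat_lit 3, [⟨nat_lit 4, nat_lit 3840, nat_lit 11664, nat_lit 6864, nat_lit 9120, nat_lit 336, R12_143, R6_190, R7_7⟩, ⟨nat_lit 7, nat_lit 11808, nat_lit 13968, nat_lit 6912, nat_lit 9840, nat_lit 20112, R12_144, R4_205, R14_419⟩]⟩]⟩]], [[], [], [], [⟨nat_lit 7, [⟨nat_lit 0, [⟨nat_lit 4, nat_lit 1680, nat_lit 864, nat_lit 1488, nat_lit 3360, nat_lit 7680, R2_31, R8_70, R6_160⟩, ⟨nat_lit 7, nat_lit 9552, nat_lit 1488, nat_lit 2064, nat_lit 6192, nat_lit 8256, R2_43, R5_129, R4_172⟩]⟩, ⟨nat_lit 1, [⟨nat_lit 4, nat_lit 2496, nat_lit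 960, nat_lit 960, nat_lit 3696, nat_lit 2256, R1_20, R8_77, R8_47⟩, ⟨nat_lit 7, nat_lit 10080, nat_lit 1536, nat_lit 1536, nat_lit 6240, nat_lit 6240, R1_32, R5_130, R5_130⟩]⟩, ⟨nat_lit 3, [⟨nat_lit 4, nat_lit 2880, nat_lit 912, nat_lit 6768, nat_lit 3504, nat_lit 4128, R12_141, R8_73, R4_86⟩]⟩]⟩], [], [], [], [⟨nat_lit 7, [⟨nat_lit 0, [⟨nat_lit 7, nat_lit 11232, nat_lit 1584, nat_lit 288, nat_lit 6096, nat_lit 7344, R2_6, R5_127, R7_153⟩]⟩, ⟨nat_lit 3, [⟨nat_lit 4, nat_lit 3984, nat_lit 1152, nat_lit 6960, nat_lit 1392, nat_lit 2400, R12_145, R8_29, R7_50⟩, ⟨nat_lit 7, nat_lit 11952, nat_lit 1632, nat_lit 7008, nat_lit 6144, nat_lit 20160, R12_146, R5_128, R14_420⟩]⟩]⟩]], [[], [], [], [], [], [], [], [⟨nat_lit 3, [⟨nat_lit 0, [⟨nat_lit 3, nat_lit 18096, nat_lit 11856, nat_lit 4560, nat_lit 10080, nat_lit 7104,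 R3_95, R5_210, R4_148⟩]⟩, ⟨nat_lit 2, [⟨nat_lit 3, nat_lit 18960, nat_lit 14736, nat_lit 14736, nat_lit 10128, nat_lit 10128, R0_307, R5_211, R5_211⟩]⟩]⟩]], [[], [], [], [⟨nat_lit 3, [⟨nat_lit 0, [⟨nat_lit 4, nat_lit 1824, nat_lit 6864, nat_lit 11664, nat_lit 3312, nat_lit 9120, R3_243, R7_69, R6_190⟩, ⟨nat_lit 7, nat_lit 9792, nat_lit 6912, nat_lit 13968, nat_lit 6432, nat_lit 9840, R3_291, R14_134, R4_205⟩]⟩, ⟨nat_lit 1, [⟨nat_lit 4, nat_lit 2688, nat_lit 6960, nat_lit 1152, nat_lit 4176, nat_lit 2064, R10_24, R7_87, R8_43⟩, ⟨nat_lit 7, nat_lit 10368, nat_lit 7008, nat_lit 1632, nat_lit 6480, nat_lit 6144, R10_34, R14_135, R5_128⟩]⟩]⟩,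
 ⟨nat_lit 7, [⟨nat_lit 0, [⟨nat_lit 4, nat_lit 1872, nat_lit 6720, nat_lit 1440, nat_lit 3408, nat_lit 7632, R2_30, R4_71, R6_159⟩]⟩, ⟨nat_lit 1, [⟨nat_lit 4, nat_lit 2736, nat_lit 6768, nat_lit 912, nat_lit 4128, nat_lit 1968, R1_19, R4_86, R8_41⟩]⟩, ⟨nat_lit 3, [⟨nat_lit 4, nat_lit 3072, nat_lit 6816, nat_lit 6816, nat_lit 3888, nat_lit 3888, R12_142, R4_81, R4_81⟩]⟩]⟩]]], [[], [[⟨nat_lit 5, [⟨nat_lit 1, [⟨nat_lit 4, nat_lit 144, nat_lit 5712, nat_lit 1200, nat_lit 4032, nat_lit 2976, R3_25, R7_84, R6_62⟩, ⟨nat_lit 5, nat_lit 4896, nat_lit 5808, nat_lit 1296, nat_lit 2400, nat_lit 8640, R3_27, R2_50, R13_180⟩]⟩]⟩], [⟨nat_lit 5, [⟨nat_lit 1, [⟨nat_lit 4, nat_lit 672, nat_lit 4128, nat_lit 6384, nat_lit 4416, nat_lit 2640, R3_133, R7_92, R4_55⟩, ⟨nat_lit 5, nat_lit 6048, nat_lit 4224, nat_lit 6480, nat_lit 2832,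 nat_lit 7008, R3_135, R2_59, R3_146⟩]⟩, ⟨nat_lit 5, [⟨nat_lit 4, nat_lit 1008, nat_lit 12816, nat_lit 12816, nat_lit 4272, nat_lit 2592, R2_267, R7_89, R7_54⟩, ⟨nat_lit 5, nat_lit 6144, nat_lit 12912, nat_lit 13056, nat_lit 2688, nat_lit 720, R2_272, R2_56, R2_15⟩, ⟨nat_lit 6, nat_lit 6912, nat_lit 13056, nat_lit 12912, nat_lit 720, nat_lit 2688, R2_269, R2_15, R2_56⟩]⟩]⟩], [], [⟨nat_lit 5, [⟨nat_lit 1, [⟨nat_lit 4, nat_lit 2016, nat_lit 8784, nat_lit 7632, nat_lit 4128, nat_lit 2592, R3_159, R7_86, R8_54⟩, ⟨nat_lit 5, nat_lit 6528, nat_lit 9216, nat_lit 7776, nat_lit 2544, nat_lit 6240, R3_162, R2_53, R9_130⟩]⟩]⟩]], [], [], [], [[⟨nat_lit 4, [⟨nat_lit 1, [⟨nat_lit 4, nat_lit 384, nat_lit 5616, nat_lit 5616, nat_lit 2496, nat_lit 2496, R4_117, R6_52, R6_52⟩]⟩]⟩,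
 ⟨nat_lit 5, [⟨nat_lit 1, [⟨nat_lit 4, nat_lit 480, nat_lit 6288, nat_lit 720, nat_lit 2400, nat_lit 2640, R3_15, R4_50, R6_55⟩]⟩]⟩], [⟨nat_lit 4, [⟨nat_lit 1, [⟨nat_lit 4, nat_lit 768, nat_lit 720, nat_lit 6288, nat_lit 2640, nat_lit 2400, R4_131, R6_55, R4_50⟩]⟩, ⟨nat_lit 5, [⟨nat_lit 4, nat_lit 1152, nat_lit 1200, nat_lit 5712, nat_lit 2976, nat_lit 2256, R7_119, R6_62, R7_47⟩, ⟨nat_lit 6, nat_lit 7056, nat_lit 1296, nat_lit 5808, nat_lit 8640, nat_lit 2400, R7_121, R13_180, R2_50⟩]⟩]⟩,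
 ⟨nat_lit 5, [⟨nat_lit 1, [⟨nat_lit 4, nat_lit 864, nat_lit 6048, nat_lit 6048, nat_lit 2544, nat_lit 2544, R3_126, R4_53, R4_53⟩]⟩, ⟨nat_lit 5, [⟨nat_lit 4, nat_lit 1248, nat_lit 6384, nat_lit 4128, nat_lit 2640, nat_lit 2496, R2_86, R4_55, R7_52⟩, ⟨nat_lit 6, nat_lit 7200, nat_lit 6480, nat_lit 4224, nat_lit 7008, nat_lit 2832, R2_88, R3_146, R2_59⟩]⟩]⟩,
 ⟨nat_lit 7, [⟨nat_lit 5, [⟨nat_lit 4, nat_lit 1344, nat_lit 7632, nat_lit 8784, nat_lit 3888, nat_lit 2352, R2_183, R8_81, R7_49⟩, ⟨nat_lit 6, nat_lit 7296, nat_lit 7776, nat_lit 9216, nat_lit 6240, nat_lit 2544, R2_192, R9_130, R2_53⟩]⟩]⟩]]], [[[⟨nat_lit 1, [⟨nat_lit 1, [⟨nat_lit 4, nat_lit 48, nat_lit 96, nat_lit 576, nat_lit 3840, nat_lit 2736, R1_12, R6_80, R6_57⟩, ⟨nat_lit 5, nat_lit 4800, nat_lit 5040, nat_lit 672, nat_lit 20352, nat_lit 8688, R1_14,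 R13_424, R13_181⟩]⟩]⟩], [], [⟨nat_lit 1, [⟨nat_lit 1, [⟨nat_lit 5, nat_lit 5568, nat_lit 3456, nat_lit 1248, nat_lit 20400, nat_lit 2304, R1_26, R13_425, R3_48⟩]⟩]⟩], [⟨nat_lit 1, [⟨nat_lit 1, [⟨nat_lit 4, nat_lit 1920, nat_lit 1488, nat_lit 864, nat_lit 3888, nat_lit 2352, R1_18, R6_81, R8_49⟩, ⟨nat_lit 5, nat_lit 6432, nat_lit 8544, nat_lit 1056, nat_lit 20448, nat_lit 6336, R1_22, R13_426, R9_132⟩]⟩]⟩]], [[⟨nat_lit 1, [⟨nat_lit 1, [⟨nat_lit 4, nat_lit 96, nat_lit 15744, nat_lit 624, nat_lit 4080, nat_lit 3072, R1_13, R4_85, R6_64⟩, ⟨nat_lit 5, nat_lit 4848, nat_lit 16176, nat_lit 720, nat_lit 16848, nat_lit 8736, R1_15, R3_351, R13_182⟩]⟩]⟩,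
 ⟨nat_lit 5, [⟨nat_lit 1, [⟨nat_lit 4, nat_lit 192, nat_lit 15792, nat_lit 15648, nat_lit 4080, nat_lit 3024, R10_326, R7_85, R6_63⟩, ⟨nat_lit 5, nat_lit 4944, nat_lit 16224, nat_lit 15840, nat_lit 2448, nat_lit 8784, R10_330, R2_51, R13_183⟩]⟩]⟩], [⟨nat_lit 1, [⟨nat_lit 1, [⟨nat_lit 4, nat_lit 624, nat_lit 12816, nat_lit 768, nat_lit 4176, nat_lit 2736, R1_16, R4_87, R4_57⟩, ⟨nat_lit 5, nat_lit 6000, nat_lit 13248, nat_lit 816, nat_lit 16992, nat_lit 7056, R1_17, R3_354, R3_147⟩]⟩]⟩,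
 ⟨nat_lit 5, [⟨nat_lit 1, [⟨nat_lit 4, nat_lit 720, nat_lit 12864, nat_lit 17424, nat_lit 4464, nat_lit 2688, R10_363, R7_93, R4_56⟩, ⟨nat_lit 5, nat_lit 6096, nat_lit 13296, nat_lit 17568, nat_lit 2880, nat_lit 7104, R10_366, R2_60, R3_148⟩]⟩, ⟨nat_lit 5, [⟨nat_lit 4, nat_lit 1104, nat_lit 12336, nat_lit 14160, nat_lit 4320, nat_lit 2688, R1_295, R7_90, R7_56⟩, ⟨nat_lit 5, nat_lit 6240, nat_lit 12432, nat_lit 14400, nat_lit 2736, nat_lit 816, R1_300, R2_57, R2_17⟩, ⟨nat_lit 6, nat_lit 7008, nat_lit 12576, nat_lit 14256, nat_lit 768, nat_lit 2784, R1_297, R2_16, R2_58⟩]⟩]⟩], [⟨nat_lit 1, [⟨nat_lit 1, [⟨nat_lit 5, nat_lit 5760, nat_lit 13152, nat_lit 1296, nat_lit 16896, nat_lit 2736, R1_27, R3_352, R3_57⟩]⟩]⟩,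
 ⟨nat_lit 5, [⟨nat_lit 1, [⟨nat_lit 5, nat_lit 5808, nat_lit 13104, nat_lit 18048, nat_lit 2496, nat_lit 2688, R10_376, R2_52, R3_56⟩]⟩]⟩], [⟨nat_lit 1, [⟨nat_lit 1, [⟨nat_lit 4, nat_lit 1968, nat_lit 6768, nat_lit 912, nat_lit 4128, nat_lit 2736, R1_19, R4_86, R8_57⟩, ⟨nat_lit 5, nat_lit 6480, nat_lit 8160, nat_lit 1104, nat_lit 16944, nat_lit 6432, R1_23, R3_353, R9_134⟩]⟩]⟩,
 ⟨nat_lit 5, [⟨nat_lit 1, [⟨nat_lit 4, nat_lit 2064, nat_lit 6960, nat_lit 16512, nat_lit 4176, nat_lit 2688, R10_344, R7_87, R8_56⟩, ⟨nat_lit 5, nat_lit 6576, nat_lit 8496, nat_lit 16704, nat_lit 2592, nat_lit 6480, R10_348, R2_54, R9_135⟩]⟩]⟩]], [[], [], [⟨nat_lit 1, [⟨nat_lit 1, [⟨nat_lit 1, nat_lit 13344, nat_lit 13392, nat_lit 1200, nat_lit 14928, nat_lit 6480, R1_25, R2_311, R2_135⟩, ⟨nat_lit 5, nat_lit 5712, nat_lit 2928, nat_lit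 1344, nat_lit 3360, nat_lit 2448, R1_28, R3_70, R3_51⟩]⟩]⟩]], [[], [], [], [⟨nat_lit 1, [⟨nat_lit 1, [⟨nat_lit 4, nat_lit 2256, nat_lit 960, nat_lit 960, nat_lit 3696, nat_lit 2496, R1_20, R8_77, R8_52⟩, ⟨nat_lit 5, nat_lit 6768, nat_lit 9360, nat_lit 1152, nat_lit 16800, nat_lit 6384, R1_24, R9_350, R9_133⟩, ⟨nat_lit 7, nat_lit 9936, nat_lit 6384, nat_lit 1008, nat_lit 17136, nat_lit 6528, R1_21, R5_357, R5_136⟩]⟩]⟩]]], [[], [[], [⟨nat_lit 5, [⟨nat_lit 5, [⟨nat_lit 4, nat_lit 1056, nat_lit 14160, nat_lit 12336, nat_lit 4368, nat_lit 2640, R12_257, R7_91, R7_55⟩, ⟨nat_lit 5, nat_lit 6192, nat_lit 14256, nat_lit 12576, nat_lit 2784, nat_lit 768, R12_262, R2_58, R2_16⟩, ⟨nat_lit 6, nat_lit 6960, nat_lit 14400, nat_lit 12432, nat_lit 816, nat_lit 2736, R12_259, R2_17, R2_57⟩]⟩]⟩]], [], [], [], [[], [⟨nat_lit 4,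 [⟨nat_lit 5, [⟨nat_lit 4, nat_lit 1200, nat_lit 960, nat_lit 15792, nat_lit 3024, nat_lit 2304, R14_329, R6_63, R7_48⟩, ⟨nat_lit 6, nat_lit 7104, nat_lit 1008, nat_lit 16224, nat_lit 8784, nat_lit 2448, R14_338, R13_183, R2_51⟩]⟩]⟩,
 ⟨nat_lit 5, [⟨nat_lit 5, [⟨nat_lit 4, nat_lit 1296, nat_lit 1056, nat_lit 12864, nat_lit 2688, nat_lit 2544, R12_268, R4_56, R7_53⟩, ⟨nat_lit 6, nat_lit 7248, nat_lit 1104, nat_lit 13296, nat_lit 7104, nat_lit 2880, R12_277, R3_148, R2_60⟩]⟩]⟩,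
 ⟨nat_lit 6, [⟨nat_lit 5, [⟨nat_lit 6, nat_lit 7152, nat_lit 1248, nat_lit 13104, nat_lit 2688, nat_lit 2496, R12_273, R3_56, R2_52⟩]⟩]⟩,
 ⟨nat_lit 7, [⟨nat_lit 5, [⟨nat_lit 4, nat_lit 1392, nat_lit 1152, nat_lit 6960, nat_lit 3984, nat_lit 2400, R12_145, R8_83, R7_50⟩, ⟨nat_lit 6, nat_lit 7344, nat_lit 1200, nat_lit 8496, nat_lit 6480, nat_lit 2592, R12_177, R9_135, R2_54⟩]⟩]⟩], [], [], [], [⟨nat_lit 4, [⟨nat_lit 4, [⟨nat_lit 4, nat_lit 3312, nat_lit 576, nat_lit 96, nat_lit 2736, nat_lit 3840, R7_2, R6_57, R6_80⟩, ⟨nat_lit 6, nat_lit 8160, nat_lit 672, nat_lit 5040, nat_lit 8688, nat_lit 20352, R7_105, R13_181, R13_424⟩]⟩, ⟨nat_lit 5, [⟨nat_lit 4, nat_lit 3408, nat_lit 624, nat_lit 15744, nat_lit 3072, nat_lit 4080, R14_328, R6_64, R4_85⟩, ⟨nat_lit 6, nat_lit 8496, nat_lit 720, nat_lit 16176, nat_lit 8736,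 nat_lit 16848, R14_337, R13_182, R3_351⟩]⟩]⟩,
 ⟨nat_lit 5, [⟨nat_lit 5, [⟨nat_lit 4, nat_lit 3456, nat_lit 768, nat_lit 12816, nat_lit 2736, nat_lit 4176, R12_267, R4_57, R4_87⟩, ⟨nat_lit 6, nat_lit 8592, nat_lit 816, nat_lit 13248, nat_lit 7056, nat_lit 16992, R12_276, R3_147, R3_354⟩]⟩]⟩,
 ⟨nat_lit 6, [⟨nat_lit 4, [⟨nat_lit 6, nat_lit 8256, nat_lit 1248, nat_lit 3456, nat_lit 2304, nat_lit 20400, R2_72, R3_48, R13_425⟩]⟩, ⟨nat_lit 5, [⟨nat_lit 6, nat_lit 8544, nat_lit 1296, nat_lit 13152, nat_lit 2736, nat_lit 16896, R12_274, R3_57, R3_352⟩]⟩, ⟨nat_lit 6, [⟨nat_lit 2, nat_lit 15072, nat_lit 1200, nat_lit 13392, nat_lit 6480, nat_lit 14928, R1_279, R2_135, R2_311⟩, ⟨nat_lit 6, nat_lit 8448, nat_lit 1344, nat_lit 2928, nat_lit 2448, nat_lit 3360, R1_61, R3_51, R3_70⟩]⟩]⟩,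
 ⟨nat_lit 7, [⟨nat_lit 4, [⟨nat_lit 4, nat_lit 3360, nat_lit 864, nat_lit 1488, nat_lit 1680, nat_lit 3888, R2_31, R8_35, R6_81⟩, ⟨nat_lit 6, nat_lit 8304, nat_lit 1056, nat_lit 8544, nat_lit 6336, nat_lit 20448, R2_178, R9_132, R13_426⟩]⟩, ⟨nat_lit 5, [⟨nat_lit 4, nat_lit 3504, nat_lit 912, nat_lit 6768, nat_lit 2880, nat_lit 4128, R12_141, R8_60, R4_86⟩, ⟨nat_lit 6, nat_lit 8640, nat_lit 1104, nat_lit 8160, nat_lit 6432, nat_lit 16944, R12_170, R9_134, R3_353⟩]⟩, ⟨nat_lit 7, [⟨nat_lit 4, nat_lit 3696, nat_lit 960, nat_lit 960, nat_lit 2496, nat_lit 2256, R1_20, R8_52, R8_47⟩, ⟨nat_lit 6, nat_lit 8976, nat_lit 1152, nat_lit 9360, nat_lit 6384, nat_lit 16800, R1_195, R9_133, R9_350⟩, ⟨nat_lit 7, nat_lit 10944, nat_lit 1008, nat_lit 6384, nat_lit 6528, nat_lit 17136, R1_133, R5_136, R5_357⟩]⟩]⟩]]], [[], [[],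 [], [], [⟨nat_lit 5, [⟨nat_lit 1, [⟨nat_lit 4, nat_lit 2112, nat_lit 9600, nat_lit 720, nat_lit 4224, nat_lit 2640, R0_15, R7_88, R8_55⟩, ⟨nat_lit 5, nat_lit 6624, nat_lit 10032, nat_lit 768, nat_lit 2640, nat_lit 6288, R0_16, R2_55, R9_131⟩]⟩]⟩]], [], [], [], [[⟨nat_lit 4, [⟨nat_lit 1, [⟨nat_lit 4, nat_lit 432, nat_lit 8064, nat_lit 8064, nat_lit 2544, nat_lit 2544, R5_168, R6_53, R6_53⟩]⟩]⟩,
 ⟨nat_lit 5, [⟨nat_lit 1, [⟨nat_lit 4, nat_lit 528, nat_lit 8592, nat_lit 576, nat_lit 2448, nat_lit 2688, R0_12, R4_51, R6_56⟩]⟩]⟩,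
 ⟨nat_lit 7, [⟨nat_lit 1, [⟨nat_lit 4, nat_lit 576, nat_lit 8352, nat_lit 1776, nat_lit 3216, nat_lit 2592, R11_37, R8_67, R6_54⟩]⟩]⟩], [⟨nat_lit 4, [⟨nat_lit 1, [⟨nat_lit 4, nat_lit 816, nat_lit 576, nat_lit 8592, nat_lit 2688, nat_lit 2448, R5_179, R6_56, R4_51⟩]⟩]⟩,
 ⟨nat_lit 5, [⟨nat_lit 1, [⟨nat_lit 4, nat_lit 912, nat_lit 624, nat_lit 624, nat_lit 2592, nat_lit 2592, R0_13, R4_54, R4_54⟩]⟩]⟩,
 ⟨nat_lit 7, [⟨nat_lit 1, [⟨nat_lit 4, nat_lit 960, nat_lit 672, nat_lit 1824, nat_lit 4368, nat_lit 2496, R11_38, R8_91, R4_52⟩]⟩, ⟨nat_lit 5, [⟨nat_lit 4, nat_lit 1440, nat_lit 720, nat_lit 9600, nat_lit 3936, nat_lit 2448, R1_200, R8_82, R7_51⟩, ⟨nat_lit 6, nat_lit 7392, nat_lit 768, nat_lit 10032, nat_lit 6288, nat_lit 2640, R1_209, R9_131, R2_55⟩]⟩]⟩], [], [⟨nat_lit 4, [⟨nat_lit 1, [⟨nat_lit 4, nat_lit 2400,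 nat_lit 1776, nat_lit 8352, nat_lit 2592, nat_lit 2160, R5_174, R6_54, R8_45⟩]⟩]⟩,
 ⟨nat_lit 5, [⟨nat_lit 1, [⟨nat_lit 4, nat_lit 2448, nat_lit 1824, nat_lit 672, nat_lit 2496, nat_lit 2304, R0_14, R4_52, R8_48⟩]⟩]⟩,
 ⟨nat_lit 7, [⟨nat_lit 1, [⟨nat_lit 4, nat_lit 2544, nat_lit 1872, nat_lit 1872, nat_lit 3648, nat_lit 2208, R11_39, R8_76, R8_46⟩, ⟨nat_lit 7, nat_lit 10128, nat_lit 1920, nat_lit 1920, nat_lit 6480, nat_lit 6480, R11_40, R5_135, R5_135⟩]⟩]⟩]]]]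
noncomputable def N1257 : T3 (List N0) := [[], [], [[], [], [], [], [[], [], [], [], [⟨nat_lit 0, [⟨nat_lit 2, [⟨nat_lit 0, nat_lit 96, nat_lit 4320, nat_lit 1824, nat_lit 2880, nat_lit 2016, R5_38, R6_60, R4_42⟩, ⟨nat_lit 3, nat_lit 336, nat_lit 9168, nat_lit 10272, nat_lit 8496, nat_lit 2256, R5_214, R13_177, R5_47⟩]⟩]⟩,
 ⟨nat_lit 2, [⟨nat_lit 2, [⟨nat_lit 0, nat_lit 672, nat_lit 4368, nat_lit 11040, nat_lit 960, nat_lit 2496, R11_230, R8_20, R4_52⟩, ⟨nat_lit 3, nat_lit 1152, nat_lit 9264, nat_lit 11088, nat_lit 6144, nat_lit 2496, R11_231, R9_128, R5_52⟩]⟩, ⟨nat_lit 6, [⟨nat_lit 0, nat_lit 720, nat_lit 3936, nat_lit 9600, nat_lit 1440, nat_lit 2448, R1_200, R8_30, R7_51⟩, ⟨nat_lit 2, nat_lit 816, nat_lit 11904, nat_lit 9648, nat_lit 6384, nat_lit 20064, R1_201, R5_133, R14_418⟩]⟩]⟩,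
 ⟨nat_lit 3, [⟨nat_lit 2, [⟨nat_lit 3, nat_lit 2016, nat_lit 9216, nat_lit 7440, nat_lit 2592, nat_lit 2352, R0_155, R3_54, R5_49⟩]⟩]⟩], [⟨nat_lit 2, [⟨nat_lit 6, [⟨nat_lit 2, nat_lit 864, nat_lit 7632, nat_lit 9888, nat_lit 7248, nat_lit 15840, R1_206, R5_151, R12_330⟩]⟩]⟩], [], [⟨nat_lit 0, [⟨nat_lit 2, [⟨nat_lit 3, nat_lit 384, nat_lit 4560, nat_lit 10320, nat_lit 8928, nat_lit 14496, R5_215, R13_186, R11_302⟩]⟩]⟩,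
 ⟨nat_lit 2, [⟨nat_lit 2, [⟨nat_lit 3, nat_lit 1200, nat_lit 7152, nat_lit 13680, nat_lit 6816, nat_lit 14928, R11_285, R9_142, R11_311⟩]⟩, ⟨nat_lit 6, [⟨nat_lit 0, nat_lit 768, nat_lit 6288, nat_lit 10032, nat_lit 7392, nat_lit 2640, R1_209, R8_154, R2_55⟩, ⟨nat_lit 2, nat_lit 912, nat_lit 7488, nat_lit 10080, nat_lit 6816, nat_lit 7344, R1_210, R5_142, R12_153⟩, ⟨nat_lit 3, nat_lit 1248, nat_lit 7104, nat_lit 10128, nat_lit 6864, nat_lit 2112, R1_211, R9_143, R1_44⟩]⟩]⟩,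
 ⟨nat_lit 3, [⟨nat_lit 0, [⟨nat_lit 7, nat_lit 1536, nat_lit 5952, nat_lit 8352, nat_lit 6624, nat_lit 9552, R3_174, R2_138, R2_199⟩]⟩, ⟨nat_lit 2, [⟨nat_lit 3, nat_lit 2064, nat_lit 5568, nat_lit 8592, nat_lit 7344, nat_lit 15312, R0_179, R3_153, R11_319⟩, ⟨nat_lit 7, nat_lit 1584, nat_lit 6048, nat_lit 8640, nat_lit 6720, nat_lit 10368, R0_180, R2_140, R1_216⟩]⟩, ⟨nat_lit 3, [⟨nat_lit 7, nat_lit 1632, nat_lit 6000, nat_lit 10752, nat_lit 6672, nat_lit 9408, R10_224, R2_139, R12_196⟩]⟩]⟩]], [[], [], [], [], [⟨nat_lit 0, [⟨nat_lit 2, [⟨nat_lit 0, nat_lit 5616, nat_lit 17568, nat_lit 2016, nat_lit 10608, nat_lit 10944, R5_42, R4_221, R4_228⟩, ⟨nat_lit 3, nat_lit 5760, nat_lit 17664, nat_lit 10752, nat_lit 17760, nat_lit 13488, R5_224, R3_370, R5_281⟩]⟩]⟩,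
 ⟨nat_lit 2, [⟨nat_lit 2, [⟨nat_lit 0, nat_lit 5904, nat_lit 17616, nat_lit 11520, nat_lit 5376, nat_lit 11328, R11_240, R5_112, R4_236⟩, ⟨nat_lit 3, nat_lit 6288, nat_lit 17760, nat_lit 11568, nat_lit 3984, nat_lit 13584, R11_241, R0_83, R5_283⟩]⟩, ⟨nat_lit 6, [⟨nat_lit 0, nat_lit 5952, nat_lit 13680, nat_lit 9696, nat_lit 15216, nat_lit 11760, R1_202, R5_317, R7_245⟩, ⟨nat_lit 2, nat_lit 6048, nat_lit 13968, nat_lit 9744, nat_lit 6000, nat_lit 21360, R1_203, R11_125, R14_445⟩]⟩]⟩,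
 ⟨nat_lit 3, [⟨nat_lit 2, [⟨nat_lit 3, nat_lit 7056, nat_lit 17712, nat_lit 7584, nat_lit 5808, nat_lit 13536, R0_158, R10_121, R5_282⟩]⟩]⟩,
 ⟨nat_lit 4, [⟨nat_lit 4, [⟨nat_lit 6, nat_lit 2832, nat_lit 3648, nat_lit 6000, nat_lit 17424, nat_lit 6240, R4_125, R3_363, R4_130⟩]⟩, ⟨nat_lit 7, [⟨nat_lit 6, nat_lit 2880, nat_lit 11856, nat_lit 10704, nat_lit 17712, nat_lit 11616, R5_223, R3_369, R5_242⟩]⟩]⟩,
 ⟨nat_lit 6, [⟨nat_lit 4, [⟨nat_lit 2, nat_lit 3600, nat_lit 2832, nat_lit 1872, nat_lit 5232, nat_lit 6528, R3_39, R1_109, R7_136⟩, ⟨nat_lit 6, nat_lit 3216, nat_lit 3792, nat_lit 1104, nat_lit 6192, nat_lit 6720, R3_23, R10_129, R4_140⟩]⟩, ⟨nat_lit 6, [⟨nat_lit 2, nat_lit 3648, nat_lit 14064, nat_lit 10848, nat_lit 5280, nat_lit 21408, R10_226, R1_110, R14_446⟩]⟩, ⟨nat_lit 7, [⟨nat_lit 6, nat_lit 3264, nat_lit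 12144, nat_lit 8688, nat_lit 6240, nat_lit 12384, R0_181, R10_130, R5_258⟩]⟩]⟩,
 ⟨nat_lit 7, [⟨nat_lit 7, [⟨nat_lit 6, nat_lit 4848, nat_lit 12000, nat_lit 13776, nat_lit 4608, nat_lit 12048, R11_287, R0_96, R5_251⟩]⟩]⟩], [⟨nat_lit 2, [⟨nat_lit 6, [⟨nat_lit 2, nat_lit 6096, nat_lit 7248, nat_lit 9936, nat_lit 6864, nat_lit 17136, R1_207, R11_143, R12_357⟩]⟩]⟩,
 ⟨nat_lit 4, [⟨nat_lit 4, [⟨nat_lit 6, nat_lit 2928, nat_lit 8304, nat_lit 6576, nat_lit 17520, nat_lit 1152, R4_137, R3_365, R3_24⟩]⟩, ⟨nat_lit 7, [⟨nat_lit 6, nat_lit 2976, nat_lit 8352, nat_lit 10896, nat_lit 17904, nat_lit 10320, R5_227, R3_373, R0_215⟩]⟩]⟩,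
 ⟨nat_lit 6, [⟨nat_lit 4, [⟨nat_lit 2, nat_lit 3696, nat_lit 9264, nat_lit 6816, nat_lit 5472, nat_lit 4704, R3_142, R1_114, R2_98⟩, ⟨nat_lit 6, nat_lit 3312, nat_lit 10128, nat_lit 6288, nat_lit 6336, nat_lit 6336, R3_131, R10_132, R3_132⟩]⟩, ⟨nat_lit 6, [⟨nat_lit 2, nat_lit 3744, nat_lit 9312, nat_lit 10896, nat_lit 5520, nat_lit 17184, R10_227, R1_115, R12_358⟩]⟩, ⟨nat_lit 7, [⟨nat_lit 6, nat_lit 3360, nat_lit 10176, nat_lit 8736, nat_lit 6384, nat_lit 10368, R0_182, R10_133, R0_216⟩]⟩]⟩,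
 ⟨nat_lit 7, [⟨nat_lit 7, [⟨nat_lit 6, nat_lit 4896, nat_lit 8928, nat_lit 13824, nat_lit 4752, nat_lit 10416, R11_288, R0_99, R0_217⟩]⟩]⟩], [], [⟨nat_lit 0, [⟨nat_lit 2, [⟨nat_lit 3, nat_lit 5808, nat_lit 3024, nat_lit 10800, nat_lit 17808, nat_lit 14592, R5_225, R3_371, R11_304⟩]⟩]⟩,
 ⟨nat_lit 2, [⟨nat_lit 2, [⟨nat_lit 3, nat_lit 6336, nat_lit 4992, nat_lit 13872, nat_lit 4656, nat_lit 15024, R11_289, R0_97, R11_313⟩]⟩, ⟨nat_lit 6, [⟨nat_lit 0, nat_lit 6000, nat_lit 4128, nat_lit 10176, nat_lit 15792, nat_lit 11376, R1_212, R5_329, R2_237⟩, ⟨nat_lit 2, nat_lit 6144, nat_lit 5328, nat_lit 10224, nat_lit 6432, nat_lit 9168, R1_213, R11_134, R12_191⟩, ⟨nat_lit 3, nat_lit 6384, nat_lit 4944, nat_lit 10272, nat_lit 4704, nat_lit 11952, R1_214, R0_98, R1_249⟩]⟩]⟩,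
 ⟨nat_lit 3, [⟨nat_lit 0, [⟨nat_lit 7, nat_lit 6576, nat_lit 3792, nat_lit 8448, nat_lit 5328, nat_lit 9648, R3_176, R1_111, R2_201⟩]⟩, ⟨nat_lit 2, [⟨nat_lit 3, nat_lit 7104, nat_lit 3408, nat_lit 8784, nat_lit 6288, nat_lit 15360, R0_183, R10_131, R11_320⟩, ⟨nat_lit 7, nat_lit 6624, nat_lit 3888, nat_lit 8832, nat_lit 5424, nat_lit 10464, R0_184, R1_113, R1_218⟩]⟩, ⟨nat_lit 3, [⟨nat_lit 7, nat_lit 6672, nat_lit 3840, nat_lit 10944, nat_lit 5376, nat_lit 9504, R10_228, R1_112, R12_198⟩]⟩]⟩,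
 ⟨nat_lit 4, [⟨nat_lit 7, [⟨nat_lit 6, nat_lit 3024, nat_lit 5808, nat_lit 10800, nat_lit 17808, nat_lit 14592, R5_225, R3_371, R11_304⟩]⟩]⟩,
 ⟨nat_lit 6, [⟨nat_lit 4, [⟨nat_lit 2, nat_lit 3792, nat_lit 6576, nat_lit 8448, nat_lit 5328, nat_lit 9648, R3_176, R1_111, R2_201⟩]⟩, ⟨nat_lit 6, [⟨nat_lit 2, nat_lit 3840, nat_lit 6672, nat_lit 10944, nat_lit 5376, nat_lit 9504, R10_228, R1_112, R12_198⟩]⟩, ⟨nat_lit 7, [⟨nat_lit 2, nat_lit 3888, nat_lit 6624, nat_lit 8832, nat_lit 5424, nat_lit 10464, R0_184, R1_113, R1_218⟩, ⟨nat_lit 6, nat_lit 3408, nat_lit 7104, nat_lit 8784, nat_lit 6288, nat_lit 15360, R0_183, R10_131, R11_320⟩]⟩]⟩,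
 ⟨nat_lit 7, [⟨nat_lit 3, [⟨nat_lit 4, nat_lit 4128, nat_lit 6000, nat_lit 10176, nat_lit 15792, nat_lit 11376, R1_212, R5_329, R2_237⟩, ⟨nat_lit 6, nat_lit 4944, nat_lit 6384, nat_lit 10272, nat_lit 4704, nat_lit 11952, R1_214, R0_98, R1_249⟩, ⟨nat_lit 7, nat_lit 5328, nat_lit 6144, nat_lit 10224, nat_lit 6432, nat_lit 9168, R1_213, R11_134, R12_191⟩]⟩, ⟨nat_lit 7, [⟨nat_lit 6, nat_lit 4992, nat_lit 6336, nat_lit 13872, nat_lit 4656, nat_lit 15024, R11_289, R0_97, R11_313⟩]⟩]⟩]], [[], [], [], [], [⟨nat_lit 0, [⟨nat_lit 2, [⟨nat_lit 0, nat_lit 7392, nat_lit 17760, nat_lit 2304, nat_lit 5424, nat_lit 7536, R5_48, R8_113, R4_157⟩, ⟨nat_lit 3, nat_lit 7920, nat_lit 18000, nat_lit 11136, nat_lit 18048, nat_lit 11088, R5_232, R9_376, R5_231⟩]⟩]⟩,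
 ⟨nat_lit 2, [⟨nat_lit 2, [⟨nat_lit 0, nat_lit 8496, nat_lit 17856, nat_lit 12480, nat_lit 432, nat_lit 7824, R11_260, R9_9, R4_163⟩]⟩, ⟨nat_lit 6, [⟨nat_lit 0, nat_lit 8544, nat_lit 12000, nat_lit 9792, nat_lit 768, nat_lit 7872, R1_204, R9_16, R7_164⟩, ⟨nat_lit 2, nat_lit 8880, nat_lit 12672, nat_lit 9840, nat_lit 13008, nat_lit 20736, R1_205, R0_271, R14_432⟩]⟩]⟩,
 ⟨nat_lit 3, [⟨nat_lit 2, [⟨nat_lit 3, nat_lit 9168, nat_lit 18096, nat_lit 7968, nat_lit 9072, nat_lit 11184, R0_166, R0_189, R5_233⟩]⟩]⟩], [⟨nat_lit 2, [⟨nat_lit 6, [⟨nat_lit 2, nat_lit 8976, nat_lit 10848, nat_lit 9984, nat_lit 13872, nat_lit 16512, R1_208, R0_289, R12_344⟩]⟩]⟩], [⟨nat_lit 0, [⟨nat_lit 2, [⟨nat_lit 0, nat_lit 7440, nat_lit 2016, nat_lit 2352, nat_lit 5952, nat_lit 2592, R5_49, R8_124, R3_54⟩, ⟨nat_lit 1, nat_lit 7584, nat_lit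 7056, nat_lit 13536, nat_lit 17712, nat_lit 11856, R5_282, R5_369, R10_247⟩, ⟨nat_lit 3, nat_lit 7968, nat_lit 9168, nat_lit 11184, nat_lit 18096, nat_lit 9072, R5_233, R9_377, R0_189⟩]⟩]⟩,
 ⟨nat_lit 2, [⟨nat_lit 2, [⟨nat_lit 0, nat_lit 8592, nat_lit 2064, nat_lit 15312, nat_lit 5568, nat_lit 7344, R11_319, R9_116, R3_153⟩, ⟨nat_lit 1, nat_lit 8784, nat_lit 7104, nat_lit 15360, nat_lit 3408, nat_lit 12000, R11_320, R0_71, R10_250⟩]⟩, ⟨nat_lit 6, [⟨nat_lit 0, nat_lit 8640, nat_lit 1584, nat_lit 10368, nat_lit 6048, nat_lit 6720, R1_216, R9_126, R2_140⟩, ⟨nat_lit 1, nat_lit 8832, nat_lit 6624, nat_lit 10464, nat_lit 3888, nat_lit 5424, R1_218, R0_81, R1_113⟩, ⟨nat_lit 2, nat_lit 8928, nat_lit 11040, nat_lit 10416, nat_lit 13728, nat_lit 16752, R1_217, R0_286, R12_349⟩]⟩]⟩,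
 ⟨nat_lit 3, [⟨nat_lit 2, [⟨nat_lit 3, nat_lit 9216, nat_lit 9216, nat_lit 9216, nat_lit 9216, nat_lit 9216, R0_192, R0_192, R0_192⟩]⟩]⟩]], [[], [], [], [], [], [], [], [⟨nat_lit 0, [⟨nat_lit 0, [⟨nat_lit 7, nat_lit 9792, nat_lit 12480, nat_lit 12864, nat_lit 15600, nat_lit 7968, R4_268, R2_325, R2_166⟩]⟩, ⟨nat_lit 2, [⟨nat_lit 3, nat_lit 9984, nat_lit 2784, nat_lit 10560, nat_lit 9552, nat_lit 14544, R5_220, R3_199, R11_303⟩, ⟨nat_lit 7, nat_lit 9840, nat_lit 12576, nat_lit 16800, nat_lit 15696, nat_lit 8496, R5_350, R2_327, R1_177⟩]⟩]⟩,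
 ⟨nat_lit 2, [⟨nat_lit 2, [⟨nat_lit 3, nat_lit 10416, nat_lit 4752, nat_lit 14160, nat_lit 4896, nat_lit 14976, R11_295, R0_102, R11_312⟩]⟩, ⟨nat_lit 6, [⟨nat_lit 3, nat_lit 10464, nat_lit 5088, nat_lit 10320, nat_lit 4560, nat_lit 7488, R1_215, R0_95, R1_156⟩]⟩]⟩,
 ⟨nat_lit 3, [⟨nat_lit 0, [⟨nat_lit 7, nat_lit 10992, nat_lit 13440, nat_lit 8400, nat_lit 5232, nat_lit 9600, R3_175, R12_109, R2_200⟩]⟩, ⟨nat_lit 2, [⟨nat_lit 7, nat_lit 11040, nat_lit 13728, nat_lit 8928, nat_lit 5280, nat_lit 10416, R0_186, R12_110, R1_217⟩]⟩, ⟨nat_lit 3, [⟨nat_lit 7, nat_lit 11088, nat_lit 13632, nat_lit 11472, nat_lit 5328, nat_lit 9456, R10_239, R12_111, R12_197⟩]⟩]⟩]]], [[], [], [], [], [[], [], [], [⟨nat_lit 3, [⟨nat_lit 0, [⟨nat_lit 7, nat_lit 1680, nat_lit 6096, nat_lit 14448, nat_lit 5616, nat_lit 14544, R3_301, R2_117,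 R3_303⟩]⟩, ⟨nat_lit 1, [⟨nat_lit 7, nat_lit 1776, nat_lit 6144, nat_lit 11520, nat_lit 5712, nat_lit 11472, R10_240, R2_119, R0_239⟩]⟩, ⟨nat_lit 2, [⟨nat_lit 7, nat_lit 1728, nat_lit 6192, nat_lit 11424, nat_lit 5664, nat_lit 11664, R0_238, R2_118, R10_243⟩]⟩]⟩], [], [], [], [⟨nat_lit 3, [⟨nat_lit 0, [⟨nat_lit 7, nat_lit 1824, nat_lit 13296, nat_lit 12864, nat_lit 4992, nat_lit 9936, R3_268, R2_104, R2_207⟩]⟩, ⟨nat_lit 2, [⟨nat_lit 3, nat_lit 2112, nat_lit 5376, nat_lit 12096, nat_lit 5808, nat_lit 15408, R0_252, R3_121, R11_321⟩, ⟨nat_lit 7, nat_lit 1872, nat_lit 13488, nat_lit 11808, nat_lit 5040, nat_lit 10752, R0_246, R2_105, R1_224⟩]⟩]⟩]], [[], [], [], [⟨nat_lit 3, [⟨nat_lit 0, [⟨nat_lit 7, nat_lit 6720, nat_lit 4800, nat_lit 15072, nat_lit 4320, nat_lit 15120, R3_314, R1_90, R3_315⟩]⟩, ⟨nat_lit 1, [⟨nat_lit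 7, nat_lit 6816, nat_lit 4848, nat_lit 11616, nat_lit 4416, nat_lit 14352, R10_242, R1_92, R0_299⟩]⟩, ⟨nat_lit 2, [⟨nat_lit 7, nat_lit 6768, nat_lit 4896, nat_lit 14016, nat_lit 4368, nat_lit 11760, R0_292, R1_91, R10_245⟩]⟩]⟩,
 ⟨nat_lit 7, [⟨nat_lit 0, [⟨nat_lit 4, nat_lit 4176, nat_lit 6480, nat_lit 8592, nat_lit 14640, nat_lit 10368, R2_179, R5_305, R13_216⟩, ⟨nat_lit 6, nat_lit 5040, nat_lit 7392, nat_lit 9504, nat_lit 4464, nat_lit 8496, R2_198, R0_93, R3_177⟩, ⟨nat_lit 7, nat_lit 5376, nat_lit 7056, nat_lit 9888, nat_lit 6336, nat_lit 13056, R2_206, R11_132, R3_272⟩]⟩, ⟨nat_lit 1, [⟨nat_lit 4, nat_lit 4224, nat_lit 6576, nat_lit 9408, nat_lit 17280, nat_lit 11664, R1_196, R5_360, R9_243⟩, ⟨nat_lit 6, nat_lit 5088, nat_lit 7488, nat_lit 10320, nat_lit 4560, nat_lit 10464, R1_215, R0_95, R0_218⟩, ⟨nat_lit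 7, nat_lit 5424, nat_lit 7104, nat_lit 10704, nat_lit 6384, nat_lit 15120, R1_223, R11_133, R0_315⟩]⟩, ⟨nat_lit 3, [⟨nat_lit 4, nat_lit 4272, nat_lit 6528, nat_lit 8640, nat_lit 16176, nat_lit 17280, R12_180, R5_337, R3_360⟩, ⟨nat_lit 6, nat_lit 5136, nat_lit 7440, nat_lit 8688, nat_lit 4512, nat_lit 12864, R12_181, R0_94, R10_268⟩]⟩]⟩], [], [], [], [⟨nat_lit 3, [⟨nat_lit 0, [⟨nat_lit 7, nat_lit 6864, nat_lit 5520, nat_lit 12960, nat_lit 3696, nat_lit 9984, R3_270, R1_77, R2_208⟩]⟩, ⟨nat_lit 2, [⟨nat_lit 3, nat_lit 7152, nat_lit 4992, nat_lit 14208, nat_lit 4416, nat_lit 15504, R0_296, R10_92, R11_323⟩, ⟨nat_lit 7, nat_lit 6912, nat_lit 5568, nat_lit 14064, nat_lit 3744, nat_lit 10800, R0_293, R1_78, R1_225⟩]⟩]⟩,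
 ⟨nat_lit 7, [⟨nat_lit 0, [⟨nat_lit 7, nat_lit 5472, nat_lit 8016, nat_lit 7344, nat_lit 6240, nat_lit 7392, R2_153, R11_130, R2_154⟩]⟩, ⟨nat_lit 3, [⟨nat_lit 4, nat_lit 4320, nat_lit 7488, nat_lit 8736, nat_lit 15696, nat_lit 11328, R12_182, R5_327, R2_236⟩, ⟨nat_lit 6, nat_lit 5184, nat_lit 8304, nat_lit 8784, nat_lit 4416, nat_lit 11904, R12_183, R0_92, R1_248⟩, ⟨nat_lit 7, nat_lit 5520, nat_lit 8064, nat_lit 8832, nat_lit 6288, nat_lit 9216, R12_184, R11_131, R12_192⟩]⟩]⟩]], [[], [], [], [], [], [], [], [⟨nat_lit 3, [⟨nat_lit 2, [⟨nat_lit 3, nat_lit 9264, nat_lit 15072, nat_lit 14976, nat_lit 8208, nat_lit 15456, R0_312, R0_171, R11_322⟩]⟩]⟩]], [[], [], [], [⟨nat_lit 3, [⟨nat_lit 0, [⟨nat_lit 7, nat_lit 11136, nat_lit 7920, nat_lit 14880, nat_lit 5088, nat_lit 15024, R3_310, R12_106, R3_313⟩]⟩, ⟨nat_lit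 1, [⟨nat_lit 7, nat_lit 11232, nat_lit 7968, nat_lit 11568, nat_lit 5184, nat_lit 13824, R10_241, R12_108, R0_288⟩]⟩, ⟨nat_lit 2, [⟨nat_lit 7, nat_lit 11184, nat_lit 8016, nat_lit 13200, nat_lit 5136, nat_lit 11712, R0_275, R12_107, R10_244⟩]⟩]⟩]]], [[], [[⟨nat_lit 4, [⟨nat_lit 1, [⟨nat_lit 4, nat_lit 12144, nat_lit 5616, nat_lit 12480, nat_lit 17424, nat_lit 11328, R4_260, R7_363, R8_236⟩, ⟨nat_lit 6, nat_lit 12336, nat_lit 5664, nat_lit 12528, nat_lit 15552, nat_lit 2736, R4_261, R2_324, R5_57⟩]⟩]⟩,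
 ⟨nat_lit 5, [⟨nat_lit 1, [⟨nat_lit 4, nat_lit 12720, nat_lit 6288, nat_lit 1728, nat_lit 9072, nat_lit 11472, R3_36, R14_189, R8_239⟩, ⟨nat_lit 5, nat_lit 13056, nat_lit 6384, nat_lit 1968, nat_lit 7680, nat_lit 3024, R3_41, R12_160, R9_63⟩, ⟨nat_lit 6, nat_lit 13296, nat_lit 6480, nat_lit 1824, nat_lit 4512, nat_lit 2880, R3_38, R12_94, R5_60⟩]⟩]⟩], [⟨nat_lit 4, [⟨nat_lit 1, [⟨nat_lit 4, nat_lit 12192, nat_lit 4032, nat_lit 12960, nat_lit 17520, nat_lit 13056, R4_270, R7_365, R5_272⟩, ⟨nat_lit 6, nat_lit 12384, nat_lit 4080, nat_lit 13008, nat_lit 15648, nat_lit 2736, R4_271, R2_326, R11_57⟩]⟩, ⟨nat_lit 5, [⟨nat_lit 6, nat_lit 12432, nat_lit 12720, nat_lit 14112, nat_lit 11616, nat_lit 11568, R7_294, R2_242, R1_241⟩]⟩]⟩,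
 ⟨nat_lit 5, [⟨nat_lit 1, [⟨nat_lit 4, nat_lit 12768, nat_lit 4464, nat_lit 6672, nat_lit 11424, nat_lit 14160, R3_139, R14_238, R5_295⟩, ⟨nat_lit 5, nat_lit 13104, nat_lit 4560, nat_lit 6912, nat_lit 9552, nat_lit 1488, R3_144, R12_199, R0_31⟩, ⟨nat_lit 6, nat_lit 13344, nat_lit 4656, nat_lit 6768, nat_lit 5808, nat_lit 2880, R3_141, R12_121, R11_60⟩]⟩, ⟨nat_lit 5, [⟨nat_lit 6, nat_lit 13392, nat_lit 13632, nat_lit 13392, nat_lit 6528, nat_lit 12000, R2_279, R12_136, R1_250⟩]⟩]⟩], [], [⟨nat_lit 4, [⟨nat_lit 1, [⟨nat_lit 4, nat_lit 12240, nat_lit 7776, nat_lit 12672, nat_lit 17472, nat_lit 11280, R4_264, R7_364, R9_235⟩, ⟨nat_lit 6, nat_lit 12480, nat_lit 7968, nat_lit 12864, nat_lit 15600, nat_lit 9792, R4_268, R2_325, R0_204⟩, ⟨nat_lit 7, nat_lit 12624, nat_lit 7920, nat_lit 12816, nat_lit 14784, nat_lit 9408,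 R4_267, R2_308, R0_196⟩]⟩]⟩,
 ⟨nat_lit 5, [⟨nat_lit 1, [⟨nat_lit 4, nat_lit 12816, nat_lit 9024, nat_lit 8256, nat_lit 10848, nat_lit 12816, R3_172, R14_226, R9_267⟩, ⟨nat_lit 6, nat_lit 13440, nat_lit 9600, nat_lit 8400, nat_lit 5232, nat_lit 10992, R3_175, R12_109, R0_229⟩, ⟨nat_lit 7, nat_lit 13776, nat_lit 9168, nat_lit 8304, nat_lit 4848, nat_lit 10608, R3_173, R12_101, R0_221⟩]⟩]⟩]], [], [], [], [[⟨nat_lit 4, [⟨nat_lit 1, [⟨nat_lit 4, nat_lit 2160, nat_lit 6096, nat_lit 5904, nat_lit 15024, nat_lit 18192, R4_123, R4_313, R8_379⟩, ⟨nat_lit 6, nat_lit 2400, nat_lit 6192, nat_lit 5952, nat_lit 3552, nat_lit 3696, R4_124, R3_74, R5_77⟩]⟩]⟩], [⟨nat_lit 4, [⟨nat_lit 1, [⟨nat_lit 4, nat_lit 2208, nat_lit 912, nat_lit 6480, nat_lit 15072, nat_lit 13392, R4_135, R4_314, R5_279⟩, ⟨nat_lit 6, nat_lit 2448, nat_lit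 960, nat_lit 6528, nat_lit 3600, nat_lit 3696, R4_136, R3_75, R11_77⟩]⟩, ⟨nat_lit 5, [⟨nat_lit 6, nat_lit 2496, nat_lit 1632, nat_lit 6144, nat_lit 3456, nat_lit 11664, R7_128, R3_72, R1_243⟩]⟩]⟩,
 ⟨nat_lit 7, [⟨nat_lit 5, [⟨nat_lit 6, nat_lit 4368, nat_lit 8160, nat_lit 9456, nat_lit 4800, nat_lit 11856, R2_197, R0_100, R1_247⟩]⟩]⟩]]], [[[⟨nat_lit 1, [⟨nat_lit 1, [⟨nat_lit 4, nat_lit 11520, nat_lit 864, nat_lit 10512, nat_lit 1776, nat_lit 4224, R1_219, R4_37, R8_88⟩, ⟨nat_lit 5, nat_lit 11760, nat_lit 6864, nat_lit 10560, nat_lit 12672, nat_lit 12048, R1_220, R3_264, R9_251⟩]⟩]⟩,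
 ⟨nat_lit 5, [⟨nat_lit 1, [⟨nat_lit 4, nat_lit 11280, nat_lit 1440, nat_lit 13248, nat_lit 1920, nat_lit 4080, R10_276, R7_40, R8_85⟩, ⟨nat_lit 5, nat_lit 11376, nat_lit 7440, nat_lit 13392, nat_lit 480, nat_lit 12096, R10_279, R2_10, R9_252⟩]⟩]⟩], [], [⟨nat_lit 1, [⟨nat_lit 1, [⟨nat_lit 5, nat_lit 11808, nat_lit 5040, nat_lit 10752, nat_lit 13488, nat_lit 1872, R1_224, R3_281, R0_39⟩]⟩]⟩,
 ⟨nat_lit 5, [⟨nat_lit 1, [⟨nat_lit 5, nat_lit 11424, nat_lit 5664, nat_lit 13920, nat_lit 6192, nat_lit 1728, R10_290, R2_129, R0_36⟩]⟩]⟩], [⟨nat_lit 1, [⟨nat_lit 1, [⟨nat_lit 4, nat_lit 11568, nat_lit 2208, nat_lit 10608, nat_lit 8496, nat_lit 10272, R1_221, R4_177, R9_214⟩]⟩]⟩,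
 ⟨nat_lit 5, [⟨nat_lit 1, [⟨nat_lit 4, nat_lit 11328, nat_lit 432, nat_lit 13536, nat_lit 8544, nat_lit 12144, R10_282, R7_178, R9_253⟩, ⟨nat_lit 7, nat_lit 11472, nat_lit 6144, nat_lit 13680, nat_lit 5712, nat_lit 1776, R10_285, R2_119, R0_37⟩]⟩]⟩]], [[⟨nat_lit 5, [⟨nat_lit 1, [⟨nat_lit 4, nat_lit 12864, nat_lit 20016, nat_lit 16080, nat_lit 9120, nat_lit 12048, R10_335, R14_190, R8_251⟩, ⟨nat_lit 5, nat_lit 13152, nat_lit 20688, nat_lit 16272, nat_lit 7728, nat_lit 12768, R10_339, R12_161, R9_266⟩, ⟨nat_lit 6, nat_lit 13488, nat_lit 21312, nat_lit 16128, nat_lit 4560, nat_lit 14112, R10_336, R12_95, R5_294⟩]⟩]⟩], [⟨nat_lit 5, [⟨nat_lit 1, [⟨nat_lit 4, nat_lit 12912, nat_lit 15792, nat_lit 17712, nat_lit 11472, nat_lit 14208, R10_369, R14_239, R5_296⟩, ⟨nat_lit 5, nat_lit 13248, nat_lit 16464, nat_lit 17856,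 nat_lit 9600, nat_lit 10944, R10_372, R12_200, R0_228⟩, ⟨nat_lit 6, nat_lit 13536, nat_lit 17088, nat_lit 17760, nat_lit 5856, nat_lit 17184, R10_370, R12_122, R11_358⟩]⟩, ⟨nat_lit 5, [⟨nat_lit 6, nat_lit 13584, nat_lit 15408, nat_lit 14736, nat_lit 6576, nat_lit 12096, R1_307, R12_137, R1_252⟩]⟩]⟩], [⟨nat_lit 5, [⟨nat_lit 1, [⟨nat_lit 5, nat_lit 13200, nat_lit 16608, nat_lit 18288, nat_lit 8016, nat_lit 11184, R10_381, R12_167, R0_233⟩]⟩]⟩], [⟨nat_lit 5, [⟨nat_lit 1, [⟨nat_lit 4, nat_lit 12960, nat_lit 7632, nat_lit 16896, nat_lit 10944, nat_lit 12912, R10_352, R14_228, R9_269⟩, ⟨nat_lit 6, nat_lit 13632, nat_lit 9456, nat_lit 17088, nat_lit 5328, nat_lit 11088, R10_356, R12_111, R0_231⟩, ⟨nat_lit 7, nat_lit 13824, nat_lit 7968, nat_lit 17040, nat_lit 5184, nat_lit 11232, R10_355, R12_108, R0_234⟩]⟩]⟩]], [[],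 [], [⟨nat_lit 1, [⟨nat_lit 1, [⟨nat_lit 5, nat_lit 14064, nat_lit 3744, nat_lit 10800, nat_lit 19776, nat_lit 6912, R1_225, R10_412, R0_144⟩]⟩]⟩,
 ⟨nat_lit 5, [⟨nat_lit 1, [⟨nat_lit 5, nat_lit 14016, nat_lit 4368, nat_lit 19584, nat_lit 4896, nat_lit 6768, R10_408, R1_102, R0_141⟩]⟩]⟩]], [[], [], [], [⟨nat_lit 1, [⟨nat_lit 1, [⟨nat_lit 4, nat_lit 14400, nat_lit 1680, nat_lit 10656, nat_lit 6768, nat_lit 10560, R1_222, R5_141, R9_220⟩, ⟨nat_lit 7, nat_lit 15120, nat_lit 7104, nat_lit 10704, nat_lit 21984, nat_lit 5424, R1_223, R11_458, R0_113⟩]⟩]⟩,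
 ⟨nat_lit 5, [⟨nat_lit 1, [⟨nat_lit 7, nat_lit 14352, nat_lit 4848, nat_lit 19152, nat_lit 4416, nat_lit 6816, R10_399, R1_92, R0_142⟩]⟩]⟩]]], [[], [[], [⟨nat_lit 4, [⟨nat_lit 5, [⟨nat_lit 6, nat_lit 12528, nat_lit 14064, nat_lit 16800, nat_lit 11760, nat_lit 11616, R14_350, R2_245, R1_242⟩]⟩]⟩,
 ⟨nat_lit 5, [⟨nat_lit 5, [⟨nat_lit 6, nat_lit 13680, nat_lit 14976, nat_lit 14208, nat_lit 6624, nat_lit 12048, R12_296, R12_138, R1_251⟩]⟩]⟩,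
 ⟨nat_lit 6, [⟨nat_lit 5, [⟨nat_lit 6, nat_lit 13920, nat_lit 15168, nat_lit 15216, nat_lit 12192, nat_lit 11760, R12_317, R1_254, R1_245⟩]⟩]⟩]], [], [], [], [[], [⟨nat_lit 4, [⟨nat_lit 5, [⟨nat_lit 6, nat_lit 2544, nat_lit 8256, nat_lit 17376, nat_lit 10944, nat_lit 11712, R14_362, R3_228, R1_244⟩]⟩]⟩,
 ⟨nat_lit 6, [⟨nat_lit 5, [⟨nat_lit 6, nat_lit 3072, nat_lit 8352, nat_lit 15024, nat_lit 6528, nat_lit 11808, R12_313, R10_136, R1_246⟩]⟩]⟩,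
 ⟨nat_lit 7, [⟨nat_lit 5, [⟨nat_lit 6, nat_lit 4416, nat_lit 8304, nat_lit 8784, nat_lit 5184, nat_lit 11904, R12_183, R0_108, R1_248⟩]⟩]⟩], [], [], [], [⟨nat_lit 4, [⟨nat_lit 4, [⟨nat_lit 6, nat_lit 2592, nat_lit 7296, nat_lit 6192, nat_lit 10656, nat_lit 2016, R7_129, R3_222, R3_42⟩]⟩, ⟨nat_lit 5, [⟨nat_lit 6, nat_lit 2640, nat_lit 7344, nat_lit 17328, nat_lit 10848, nat_lit 16464, R14_361, R3_226, R10_343⟩]⟩]⟩,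
 ⟨nat_lit 6, [⟨nat_lit 4, [⟨nat_lit 2, nat_lit 3456, nat_lit 7536, nat_lit 13536, nat_lit 5568, nat_lit 13680, R2_282, R1_116, R2_285⟩, ⟨nat_lit 6, nat_lit 3120, nat_lit 7680, nat_lit 4368, nat_lit 6432, nat_lit 6960, R2_91, R10_134, R3_145⟩]⟩, ⟨nat_lit 5, [⟨nat_lit 2, nat_lit 3552, nat_lit 7584, nat_lit 14880, nat_lit 5664, nat_lit 15024, R12_310, R1_118, R1_313⟩, ⟨nat_lit 6, nat_lit 3168, nat_lit 7728, nat_lit 15072, nat_lit 6480, nat_lit 18000, R12_314, R10_135, R10_375⟩]⟩, ⟨nat_lit 6, [⟨nat_lit 2, nat_lit 3504, nat_lit 7632, nat_lit 14880, nat_lit 5616, nat_lit 15456, R1_310, R1_117, R12_322⟩]⟩]⟩,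
 ⟨nat_lit 7, [⟨nat_lit 4, [⟨nat_lit 6, nat_lit 4464, nat_lit 7392, nat_lit 9504, nat_lit 5040, nat_lit 8496, R2_198, R0_105, R3_177⟩]⟩, ⟨nat_lit 5, [⟨nat_lit 6, nat_lit 4512, nat_lit 7440, nat_lit 8688, nat_lit 5136, nat_lit 17376, R12_181, R0_107, R10_362⟩]⟩, ⟨nat_lit 7, [⟨nat_lit 6, nat_lit 4560, nat_lit 7488, nat_lit 10320, nat_lit 5088, nat_lit 10464, R1_215, R0_106, R0_218⟩]⟩]⟩]]], [[], [[], [], [], [⟨nat_lit 4, [⟨nat_lit 1, [⟨nat_lit 4, nat_lit 12288, nat_lit 8304, nat_lit 16368, nat_lit 17808, nat_lit 11328, R5_341, R7_371, R9_236⟩, ⟨nat_lit 6, nat_lit 12576, nat_lit 8496, nat_lit 16800, nat_lit 15696, nat_lit 9840, R5_350, R2_327, R0_205⟩, ⟨nat_lit 7, nat_lit 12672, nat_lit 8448, nat_lit 16704, nat_lit 15408, nat_lit 9648, R5_348, R2_321, R0_201⟩]⟩]⟩,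
 ⟨nat_lit 5, [⟨nat_lit 1, [⟨nat_lit 4, nat_lit 13008, nat_lit 9840, nat_lit 8880, nat_lit 10896, nat_lit 12864, R0_185, R14_227, R9_268⟩, ⟨nat_lit 6, nat_lit 13728, nat_lit 10416, nat_lit 8928, nat_lit 5280, nat_lit 11040, R0_186, R12_110, R0_230⟩, ⟨nat_lit 7, nat_lit 13872, nat_lit 9984, nat_lit 8976, nat_lit 5040, nat_lit 10848, R0_187, R12_105, R0_226⟩]⟩]⟩,
 ⟨nat_lit 7, [⟨nat_lit 1, [⟨nat_lit 7, nat_lit 13968, nat_lit 8880, nat_lit 14256, nat_lit 16416, nat_lit 10128, R11_297, R1_342, R0_211⟩]⟩]⟩]], [], [], [], [[⟨nat_lit 4, [⟨nat_lit 1, [⟨nat_lit 4, nat_lit 2256, nat_lit 9360, nat_lit 8832, nat_lit 15312, nat_lit 19056, R5_184, R4_319, R8_397⟩, ⟨nat_lit 6, nat_lit 2688, nat_lit 11568, nat_lit 10512, nat_lit 9504, nat_lit 11904, R5_219, R3_198, R5_248⟩]⟩]⟩,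
 ⟨nat_lit 7, [⟨nat_lit 1, [⟨nat_lit 4, nat_lit 3936, nat_lit 9744, nat_lit 13920, nat_lit 17040, nat_lit 19200, R11_290, R5_355, R8_400⟩, ⟨nat_lit 6, nat_lit 4608, nat_lit 12000, nat_lit 13968, nat_lit 4848, nat_lit 12048, R11_291, R0_101, R5_251⟩]⟩]⟩], [⟨nat_lit 4, [⟨nat_lit 1, [⟨nat_lit 4, nat_lit 2304, nat_lit 6192, nat_lit 9120, nat_lit 15408, nat_lit 13440, R5_190, R4_321, R5_280⟩, ⟨nat_lit 6, nat_lit 2736, nat_lit 6240, nat_lit 10608, nat_lit 9600, nat_lit 14880, R5_221, R3_200, R11_310⟩]⟩]⟩,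
 ⟨nat_lit 7, [⟨nat_lit 1, [⟨nat_lit 4, nat_lit 3984, nat_lit 6288, nat_lit 14016, nat_lit 17760, nat_lit 13584, R11_292, R5_370, R5_283⟩, ⟨nat_lit 6, nat_lit 4656, nat_lit 6336, nat_lit 14064, nat_lit 4992, nat_lit 15024, R11_293, R0_104, R11_313⟩]⟩, ⟨nat_lit 5, [⟨nat_lit 6, nat_lit 4704, nat_lit 6384, nat_lit 10272, nat_lit 4944, nat_lit 11952, R1_214, R0_103, R1_249⟩]⟩]⟩], [], [⟨nat_lit 4, [⟨nat_lit 1, [⟨nat_lit 4, nat_lit 2352, nat_lit 8736, nat_lit 8976, nat_lit 15360, nat_lit 11472, R5_187, R4_320, R9_239⟩, ⟨nat_lit 6, nat_lit 2784, nat_lit 8784, nat_lit 10560, nat_lit 9552, nat_lit 9984, R5_220, R3_199, R0_208⟩]⟩]⟩,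
 ⟨nat_lit 7, [⟨nat_lit 1, [⟨nat_lit 4, nat_lit 4032, nat_lit 8832, nat_lit 14112, nat_lit 17424, nat_lit 11616, R11_294, R5_363, R9_242⟩, ⟨nat_lit 6, nat_lit 4752, nat_lit 8928, nat_lit 14160, nat_lit 4896, nat_lit 10416, R11_295, R0_102, R0_217⟩, ⟨nat_lit 7, nat_lit 5232, nat_lit 8880, nat_lit 14208, nat_lit 6480, nat_lit 15264, R11_296, R11_135, R0_318⟩]⟩]⟩]]]]
noncomputable def N1266 : T3 (List N0) := [[], [], [[], [], [], [], [[], [], [], [], [⟨nat_lit 3, [⟨nat_lit 3, [⟨nat_lit 7, nat_lit 9360, nat_lit 14784, nat_lit 9216, nat_lit 8064, nat_lit 14688, R10_192, R2_168, R2_306⟩]⟩]⟩,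
 ⟨nat_lit 7, [⟨nat_lit 3, [⟨nat_lit 7, nat_lit 9504, nat_lit 14736, nat_lit 8160, nat_lit 16272, nat_lit 14640, R1_170, R3_339, R2_305⟩]⟩, ⟨nat_lit 7, [⟨nat_lit 4, nat_lit 192, nat_lit 12912, nat_lit 14304, nat_lit 10944, nat_lit 20112, R11_298, R13_228, R13_419⟩, ⟨nat_lit 5, nat_lit 5712, nat_lit 13968, nat_lit 14448, nat_lit 8784, nat_lit 16512, R11_301, R3_183, R3_344⟩, ⟨nat_lit 6, nat_lit 7728, nat_lit 17232, nat_lit 14352, nat_lit 8640, nat_lit 16464, R11_299, R9_180, R9_343⟩, ⟨nat_lit 7, nat_lit 9888, nat_lit 14640, nat_lit 14400, nat_lit 16608, nat_lit 8736, R11_300, R3_346, R3_182⟩]⟩]⟩], [⟨nat_lit 7, [⟨nat_lit 7, [⟨nat_lit 4, nat_lit 1008, nat_lit 10416, nat_lit 14784, nat_lit 12864, nat_lit 4272, R11_308, R13_268, R9_89⟩, ⟨nat_lit 5, nat_lit 6240, nat_lit 10608, nat_lit 14880, nat_lit 9600, nat_lit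 2736, R11_310, R3_200, R0_57⟩, ⟨nat_lit 7, nat_lit 10320, nat_lit 10896, nat_lit 14832, nat_lit 17904, nat_lit 2976, R11_309, R3_373, R0_62⟩]⟩]⟩], [], [⟨nat_lit 3, [⟨nat_lit 3, [⟨nat_lit 7, nat_lit 10560, nat_lit 7824, nat_lit 10800, nat_lit 10128, nat_lit 16176, R10_225, R2_211, R12_337⟩]⟩]⟩,
 ⟨nat_lit 7, [⟨nat_lit 3, [⟨nat_lit 4, nat_lit 1344, nat_lit 9120, nat_lit 9456, nat_lit 12576, nat_lit 3744, R1_197, R13_262, R2_78⟩, ⟨nat_lit 5, nat_lit 6480, nat_lit 9312, nat_lit 9552, nat_lit 9456, nat_lit 3216, R1_199, R3_197, R1_67⟩, ⟨nat_lit 7, nat_lit 10704, nat_lit 9408, nat_lit 9504, nat_lit 17088, nat_lit 16224, R1_198, R3_356, R12_338⟩]⟩, ⟨nat_lit 7, [⟨nat_lit 4, nat_lit 1968, nat_lit 9072, nat_lit 15168, nat_lit 12528, nat_lit 4080, R11_316, R13_261, R3_85⟩, ⟨nat_lit 5, nat_lit 7008, nat_lit 9264, nat_lit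 15264, nat_lit 9408, nat_lit 3744, R11_318, R3_196, R10_78⟩, ⟨nat_lit 6, nat_lit 9120, nat_lit 9840, nat_lit 15216, nat_lit 9744, nat_lit 7824, R11_317, R9_203, R0_163⟩]⟩]⟩]], [], [[], [], [], [], [⟨nat_lit 3, [⟨nat_lit 3, [⟨nat_lit 7, nat_lit 9600, nat_lit 15888, nat_lit 9840, nat_lit 8592, nat_lit 15264, R10_205, R1_179, R2_318⟩]⟩]⟩,
 ⟨nat_lit 7, [⟨nat_lit 3, [⟨nat_lit 7, nat_lit 9744, nat_lit 15936, nat_lit 8640, nat_lit 9792, nat_lit 15216, R1_180, R10_204, R2_317⟩]⟩, ⟨nat_lit 7, [⟨nat_lit 4, nat_lit 288, nat_lit 8928, nat_lit 14640, nat_lit 4128, nat_lit 20928, R11_305, R3_86, R13_436⟩, ⟨nat_lit 6, nat_lit 7872, nat_lit 9696, nat_lit 14688, nat_lit 7872, nat_lit 17328, R11_306, R0_164, R9_361⟩, ⟨nat_lit 7, nat_lit 9936, nat_lit 9216, nat_lit 14736, nat_lit 9744, nat_lit 9360, R11_307, R10_203, R3_195⟩]⟩]⟩],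 [⟨nat_lit 7, [⟨nat_lit 7, [⟨nat_lit 4, nat_lit 1104, nat_lit 8448, nat_lit 15072, nat_lit 7392, nat_lit 5136, R11_314, R3_154, R9_107⟩, ⟨nat_lit 7, nat_lit 10368, nat_lit 8736, nat_lit 15120, nat_lit 12048, nat_lit 3360, R11_315, R10_251, R0_70⟩]⟩]⟩], [⟨nat_lit 0, [⟨nat_lit 0, [⟨nat_lit 0, nat_lit 11664, nat_lit 432, nat_lit 2880, nat_lit 864, nat_lit 1200, R4_60, R4_18, R4_25⟩, ⟨nat_lit 3, nat_lit 14496, nat_lit 8016, nat_lit 8064, nat_lit 4032, nat_lit 192, R4_168, R5_84, R5_4⟩]⟩, ⟨nat_lit 2, [⟨nat_lit 0, nat_lit 11904, nat_lit 480, nat_lit 4272, nat_lit 7248, nat_lit 4608, R5_89, R4_151, R3_96⟩, ⟨nat_lit 3, nat_lit 14784, nat_lit 8160, nat_lit 12624, nat_lit 12480, nat_lit 14880, R5_263, R5_260, R0_310⟩]⟩]⟩,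
 ⟨nat_lit 2, [⟨nat_lit 2, [⟨nat_lit 0, nat_lit 12048, nat_lit 528, nat_lit 15552, nat_lit 5856, nat_lit 5280, R11_324, R3_122, R3_110⟩, ⟨nat_lit 2, nat_lit 14160, nat_lit 10272, nat_lit 15648, nat_lit 10320, nat_lit 19872, R11_326, R10_215, R10_414⟩, ⟨nat_lit 3, nat_lit 14928, nat_lit 8256, nat_lit 15600, nat_lit 8256, nat_lit 14928, R11_325, R0_172, R0_311⟩]⟩, ⟨nat_lit 6, [⟨nat_lit 2, nat_lit 14256, nat_lit 10224, nat_lit 10848, nat_lit 10368, nat_lit 16224, R1_226, R10_216, R1_338⟩]⟩]⟩,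
 ⟨nat_lit 3, [⟨nat_lit 0, [⟨nat_lit 3, nat_lit 14640, nat_lit 8064, nat_lit 10176, nat_lit 13296, nat_lit 5856, R3_212, R11_277, R5_122⟩]⟩, ⟨nat_lit 2, [⟨nat_lit 3, nat_lit 15072, nat_lit 8208, nat_lit 9264, nat_lit 13344, nat_lit 14976, R0_193, R11_278, R0_312⟩]⟩, ⟨nat_lit 3, [⟨nat_lit 3, nat_lit 15216, nat_lit 8112, nat_lit 12096, nat_lit 13392, nat_lit 22080, R10_252, R11_279, R11_460⟩, ⟨nat_lit 7, nat_lit 10080, nat_lit 14304, nat_lit 12144, nat_lit 8928, nat_lit 16272, R10_253, R1_186, R1_339⟩]⟩]⟩,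
 ⟨nat_lit 4, [⟨nat_lit 4, [⟨nat_lit 4, nat_lit 432, nat_lit 11664, nat_lit 2880, nat_lit 864, nat_lit 1200, R4_60, R4_18, R4_25⟩, ⟨nat_lit 6, nat_lit 8016, nat_lit 14496, nat_lit 8064, nat_lit 4032, nat_lit 192, R4_168, R5_84, R5_4⟩]⟩, ⟨nat_lit 7, [⟨nat_lit 4, nat_lit 480, nat_lit 11904, nat_lit 4272, nat_lit 7248, nat_lit 4608, R5_89, R4_151, R3_96⟩, ⟨nat_lit 6, nat_lit 8160, nat_lit 14784, nat_lit 12624, nat_lit 12480, nat_lit 14880, R5_263, R5_260, R0_310⟩]⟩]⟩,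
 ⟨nat_lit 6, [⟨nat_lit 4, [⟨nat_lit 6, nat_lit 8064, nat_lit 14640, nat_lit 10176, nat_lit 13296, nat_lit 5856, R3_212, R11_277, R5_122⟩]⟩, ⟨nat_lit 6, [⟨nat_lit 2, nat_lit 14304, nat_lit 10080, nat_lit 12144, nat_lit 8928, nat_lit 16272, R10_253, R1_186, R1_339⟩, ⟨nat_lit 6, nat_lit 8112, nat_lit 15216, nat_lit 12096, nat_lit 13392, nat_lit 22080, R10_252, R11_279, R11_460⟩]⟩, ⟨nat_lit 7, [⟨nat_lit 6, nat_lit 8208, nat_lit 15072, nat_lit 9264, nat_lit 13344, nat_lit 14976, R0_193, R11_278, R0_312⟩]⟩]⟩,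
 ⟨nat_lit 7, [⟨nat_lit 3, [⟨nat_lit 7, nat_lit 10224, nat_lit 14256, nat_lit 10848, nat_lit 10368, nat_lit 16224, R1_226, R10_216, R1_338⟩]⟩, ⟨nat_lit 7, [⟨nat_lit 4, nat_lit 528, nat_lit 12048, nat_lit 15552, nat_lit 5856, nat_lit 5280, R11_324, R3_122, R3_110⟩, ⟨nat_lit 6, nat_lit 8256, nat_lit 14928, nat_lit 15600, nat_lit 8256, nat_lit 14928, R11_325, R0_172, R0_311⟩, ⟨nat_lit 7, nat_lit 10272, nat_lit 14160, nat_lit 15648, nat_lit 10320, nat_lit 19872, R11_326, R10_215, R10_414⟩]⟩]⟩]], [[], [], [], [], [], [], [], [⟨nat_lit 3, [⟨nat_lit 3, [⟨nat_lit 4, nat_lit 1728, nat_lit 11424, nat_lit 11664, nat_lit 6192, nat_lit 5664, R10_243, R2_129, R2_118⟩, ⟨nat_lit 5, nat_lit 6768, nat_lit 14016, nat_lit 11760, nat_lit 4896, nat_lit 4368, R10_245, R1_102, R1_91⟩, ⟨nat_lit 7, nat_lit 11184, nat_lit 13200, nat_lit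 11712, nat_lit 8016, nat_lit 16608, R10_244, R12_167, R12_346⟩]⟩]⟩,
 ⟨nat_lit 7, [⟨nat_lit 3, [⟨nat_lit 4, nat_lit 1872, nat_lit 11808, nat_lit 10752, nat_lit 13488, nat_lit 5040, R1_224, R3_281, R2_105⟩, ⟨nat_lit 5, nat_lit 6912, nat_lit 14064, nat_lit 10800, nat_lit 5568, nat_lit 3744, R1_225, R10_116, R1_78⟩]⟩, ⟨nat_lit 7, [⟨nat_lit 4, nat_lit 2112, nat_lit 12096, nat_lit 15408, nat_lit 5376, nat_lit 5808, R11_321, R3_112, R3_121⟩, ⟨nat_lit 5, nat_lit 7152, nat_lit 14208, nat_lit 15504, nat_lit 4992, nat_lit 4416, R11_323, R10_104, R10_92⟩, ⟨nat_lit 6, nat_lit 9264, nat_lit 14976, nat_lit 15456, nat_lit 15072, nat_lit 8208, R11_322, R0_314, R0_171⟩]⟩]⟩]]], [[], [], [], [], [[], [], [], [⟨nat_lit 7, [⟨nat_lit 0, [⟨nat_lit 5, nat_lit 4080, nat_lit 9360, nat_lit 11280, nat_lit 8064, nat_lit 15408, R2_235, R3_168,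 R5_321⟩]⟩, ⟨nat_lit 1, [⟨nat_lit 5, nat_lit 4800, nat_lit 9456, nat_lit 11856, nat_lit 8160, nat_lit 4368, R1_247, R3_170, R0_91⟩]⟩, ⟨nat_lit 3, [⟨nat_lit 5, nat_lit 5280, nat_lit 9408, nat_lit 9120, nat_lit 8112, nat_lit 6192, R12_190, R3_169, R11_129⟩]⟩]⟩], [], [], [], [⟨nat_lit 7, [⟨nat_lit 3, [⟨nat_lit 4, nat_lit 1392, nat_lit 12144, nat_lit 9264, nat_lit 12048, nat_lit 3696, R12_193, R13_251, R2_77⟩, ⟨nat_lit 5, nat_lit 6528, nat_lit 15600, nat_lit 9360, nat_lit 9264, nat_lit 3168, R12_195, R3_193, R1_66⟩, ⟨nat_lit 7, nat_lit 10752, nat_lit 14832, nat_lit 9312, nat_lit 14976, nat_lit 16272, R12_194, R3_312, R12_339⟩]⟩]⟩]], [[], [], [], [⟨nat_lit 7, [⟨nat_lit 0, [⟨nat_lit 5, nat_lit 4128, nat_lit 10176, nat_lit 11376, nat_lit 6000, nat_lit 15792, R2_237, R0_125, R5_329⟩]⟩, ⟨nat_lit 1, [⟨nat_lit 5, nat_lit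 4944, nat_lit 10272, nat_lit 11952, nat_lit 6384, nat_lit 4704, R1_249, R0_133, R0_98⟩]⟩, ⟨nat_lit 3, [⟨nat_lit 5, nat_lit 5328, nat_lit 10224, nat_lit 9168, nat_lit 6144, nat_lit 6432, R12_191, R0_128, R11_134⟩]⟩]⟩], [], [], [], [⟨nat_lit 7, [⟨nat_lit 3, [⟨nat_lit 4, nat_lit 1632, nat_lit 10752, nat_lit 9408, nat_lit 6000, nat_lit 6672, R12_196, R9_125, R2_139⟩, ⟨nat_lit 5, nat_lit 6672, nat_lit 10944, nat_lit 9504, nat_lit 3840, nat_lit 5376, R12_198, R0_80, R1_112⟩, ⟨nat_lit 7, nat_lit 11088, nat_lit 11472, nat_lit 9456, nat_lit 13632, nat_lit 16800, R12_197, R0_284, R12_350⟩]⟩]⟩]], [[], [], [], [], [], [], [], [⟨nat_lit 7, [⟨nat_lit 3, [⟨nat_lit 4, nat_lit 1488, nat_lit 13104, nat_lit 9552, nat_lit 6912, nat_lit 4560, R12_199, R3_144, R2_95⟩, ⟨nat_lit 7, nat_lit 10944, nat_lit 13248, nat_lit 9600, nat_lit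 11328, nat_lit 16464, R12_200, R10_236, R12_343⟩]⟩]⟩]], [[], [], [], [⟨nat_lit 3, [⟨nat_lit 0, [⟨nat_lit 5, nat_lit 4272, nat_lit 9024, nat_lit 17280, nat_lit 6528, nat_lit 16176, R3_360, R1_136, R5_337⟩]⟩, ⟨nat_lit 1, [⟨nat_lit 5, nat_lit 5136, nat_lit 9072, nat_lit 12864, nat_lit 7440, nat_lit 4512, R10_268, R1_155, R0_94⟩]⟩]⟩,
 ⟨nat_lit 7, [⟨nat_lit 0, [⟨nat_lit 5, nat_lit 4320, nat_lit 8880, nat_lit 11328, nat_lit 7488, nat_lit 15696, R2_236, R10_156, R5_327⟩]⟩, ⟨nat_lit 1, [⟨nat_lit 5, nat_lit 5184, nat_lit 8928, nat_lit 11904, nat_lit 8304, nat_lit 4416, R1_248, R10_173, R0_92⟩]⟩, ⟨nat_lit 3, [⟨nat_lit 5, nat_lit 5520, nat_lit 8976, nat_lit 9216, nat_lit 8064, nat_lit 6288, R12_192, R10_168, R11_131⟩]⟩]⟩]]], [[], [[⟨nat_lit 5, [⟨nat_lit 1, [⟨nat_lit 5, nat_lit 2592, nat_lit 6192, nat_lit 2016, nat_lit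 7296, nat_lit 10656, R3_42, R1_152, R3_222⟩]⟩]⟩], [⟨nat_lit 5, [⟨nat_lit 1, [⟨nat_lit 5, nat_lit 3120, nat_lit 4368, nat_lit 6960, nat_lit 7680, nat_lit 2304, R3_145, R1_160, R10_48⟩]⟩, ⟨nat_lit 5, [⟨nat_lit 5, nat_lit 3456, nat_lit 13536, nat_lit 13680, nat_lit 7536, nat_lit 5568, R2_285, R1_157, R1_116⟩]⟩]⟩], [], [⟨nat_lit 5, [⟨nat_lit 1, [⟨nat_lit 5, nat_lit 4464, nat_lit 9504, nat_lit 8496, nat_lit 7392, nat_lit 5040, R3_177, R1_154, R0_105⟩]⟩]⟩]], [], [], [], [[⟨nat_lit 4, [⟨nat_lit 1, [⟨nat_lit 5, nat_lit 2832, nat_lit 6000, nat_lit 6240, nat_lit 3648, nat_lit 17424, R4_130, R5_76, R3_363⟩]⟩]⟩,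
 ⟨nat_lit 5, [⟨nat_lit 1, [⟨nat_lit 5, nat_lit 2928, nat_lit 6576, nat_lit 1152, nat_lit 8304, nat_lit 17520, R3_24, R11_173, R3_365⟩]⟩]⟩], [⟨nat_lit 4, [⟨nat_lit 1, [⟨nat_lit 5, nat_lit 3216, nat_lit 1104, nat_lit 6720, nat_lit 3792, nat_lit 2544, R4_140, R5_79, R10_53⟩]⟩, ⟨nat_lit 5, [⟨nat_lit 5, nat_lit 3600, nat_lit 1872, nat_lit 6528, nat_lit 2832, nat_lit 5232, R7_136, R5_59, R1_109⟩]⟩]⟩,
 ⟨nat_lit 5, [⟨nat_lit 1, [⟨nat_lit 5, nat_lit 3312, nat_lit 6288, nat_lit 6336, nat_lit 10128, nat_lit 2592, R3_132, R11_211, R10_54⟩]⟩, ⟨nat_lit 5, [⟨nat_lit 5, nat_lit 3696, nat_lit 6816, nat_lit 4704, nat_lit 9264, nat_lit 5472, R2_98, R11_193, R1_114⟩]⟩]⟩,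
 ⟨nat_lit 7, [⟨nat_lit 5, [⟨nat_lit 5, nat_lit 3792, nat_lit 8448, nat_lit 9648, nat_lit 6576, nat_lit 5328, R2_201, R0_137, R1_111⟩]⟩]⟩]]], [[[⟨nat_lit 1, [⟨nat_lit 1, [⟨nat_lit 1, nat_lit 12432, nat_lit 14112, nat_lit 11568, nat_lit 12720, nat_lit 11616, R1_241, R2_265, R2_242⟩, ⟨nat_lit 5, nat_lit 2496, nat_lit 6144, nat_lit 11664, nat_lit 1632, nat_lit 3456, R1_243, R3_34, R3_72⟩]⟩]⟩], [], [⟨nat_lit 1, [⟨nat_lit 1, [⟨nat_lit 1, nat_lit 13392, nat_lit 13392, nat_lit 12000, nat_lit 13632, nat_lit 6528, R1_250, R2_284, R12_136⟩]⟩]⟩], [⟨nat_lit 1, [⟨nat_lit 1, [⟨nat_lit 5, nat_lit 4368, nat_lit 9456, nat_lit 11856, nat_lit 8160, nat_lit 4800, R1_247, R3_170, R0_100⟩]⟩]⟩]], [[⟨nat_lit 1, [⟨nat_lit 1, [⟨nat_lit 1, nat_lit 12528, nat_lit 18096, nat_lit 11616, nat_lit 14064, nat_lit 11760, R1_242, R1_293, R2_245⟩,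 ⟨nat_lit 5, nat_lit 2544, nat_lit 17904, nat_lit 11712, nat_lit 16416, nat_lit 10944, R1_244, R10_342, R3_228⟩]⟩]⟩,
 ⟨nat_lit 5, [⟨nat_lit 1, [⟨nat_lit 5, nat_lit 2640, nat_lit 17952, nat_lit 16464, nat_lit 7344, nat_lit 10848, R10_343, R1_153, R3_226⟩]⟩]⟩], [⟨nat_lit 1, [⟨nat_lit 1, [⟨nat_lit 1, nat_lit 13920, nat_lit 15216, nat_lit 11760, nat_lit 15168, nat_lit 12192, R1_245, R1_316, R1_254⟩, ⟨nat_lit 5, nat_lit 3072, nat_lit 15024, nat_lit 11808, nat_lit 18384, nat_lit 13008, R1_246, R10_383, R10_271⟩]⟩]⟩,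
 ⟨nat_lit 5, [⟨nat_lit 1, [⟨nat_lit 5, nat_lit 3168, nat_lit 15072, nat_lit 18000, nat_lit 7728, nat_lit 13056, R10_375, R1_161, R10_272⟩]⟩, ⟨nat_lit 5, [⟨nat_lit 5, nat_lit 3552, nat_lit 14880, nat_lit 15024, nat_lit 7584, nat_lit 5664, R1_313, R1_158, R1_118⟩]⟩]⟩], [⟨nat_lit 1, [⟨nat_lit 1, [⟨nat_lit 1, nat_lit 13680, nat_lit 14208, nat_lit 12048, nat_lit 14976, nat_lit 6624, R1_251, R1_312, R12_138⟩]⟩]⟩], [⟨nat_lit 1, [⟨nat_lit 1, [⟨nat_lit 5, nat_lit 4416, nat_lit 8928, nat_lit 11904, nat_lit 17328, nat_lit 5184, R1_248, R10_361, R0_108⟩]⟩]⟩,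
 ⟨nat_lit 5, [⟨nat_lit 1, [⟨nat_lit 5, nat_lit 4512, nat_lit 9072, nat_lit 17376, nat_lit 7440, nat_lit 5136, R10_362, R1_155, R0_107⟩]⟩]⟩]], [[], [], [⟨nat_lit 1, [⟨nat_lit 1, [⟨nat_lit 1, nat_lit 13584, nat_lit 14736, nat_lit 12096, nat_lit 15408, nat_lit 6576, R1_252, R12_321, R12_137⟩]⟩]⟩]], [[], [], [], [⟨nat_lit 1, [⟨nat_lit 1, [⟨nat_lit 5, nat_lit 4704, nat_lit 10272, nat_lit 11952, nat_lit 6384, nat_lit 4944, R1_249, R0_133, R0_103⟩]⟩]⟩]]], [[], [[], [⟨nat_lit 5, [⟨nat_lit 5, [⟨nat_lit 5, nat_lit 3504, nat_lit 14880, nat_lit 15456, nat_lit 7632, nat_lit 5616, R12_322, R1_159, R1_117⟩]⟩]⟩]], [], [], [], [[], [⟨nat_lit 4, [⟨nat_lit 5, [⟨nat_lit 5, nat_lit 3648, nat_lit 10848, nat_lit 21408, nat_lit 14064, nat_lit 5280, R14_446, R5_293, R1_110⟩]⟩]⟩,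
 ⟨nat_lit 5, [⟨nat_lit 5, [⟨nat_lit 5, nat_lit 3744, nat_lit 10896, nat_lit 17184, nat_lit 9312, nat_lit 5520, R12_358, R11_194, R1_115⟩]⟩]⟩,
 ⟨nat_lit 7, [⟨nat_lit 5, [⟨nat_lit 5, nat_lit 3840, nat_lit 10944, nat_lit 9504, nat_lit 6672, nat_lit 5376, R12_198, R0_139, R1_112⟩]⟩]⟩], [], [], [], [⟨nat_lit 4, [⟨nat_lit 4, [⟨nat_lit 4, nat_lit 720, nat_lit 9600, nat_lit 2448, nat_lit 3936, nat_lit 1440, R7_51, R8_82, R8_30⟩, ⟨nat_lit 5, nat_lit 5952, nat_lit 9696, nat_lit 11760, nat_lit 13680, nat_lit 15216, R7_245, R5_285, R5_317⟩, ⟨nat_lit 6, nat_lit 8544, nat_lit 9792, nat_lit 7872, nat_lit 12000, nat_lit 14304, R7_164, R9_250, R9_298⟩]⟩, ⟨nat_lit 5, [⟨nat_lit 4, nat_lit 816, nat_lit 9648, nat_lit 20064, nat_lit 11904, nat_lit 6384, R14_418, R8_248, R5_133⟩, ⟨nat_lit 5, nat_lit 6048, nat_lit 9744, nat_lit 21360,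 nat_lit 13968, nat_lit 6000, R14_445, R5_291, R11_125⟩, ⟨nat_lit 6, nat_lit 8880, nat_lit 9840, nat_lit 20736, nat_lit 12672, nat_lit 13008, R14_432, R9_264, R0_271⟩]⟩]⟩,
 ⟨nat_lit 5, [⟨nat_lit 5, [⟨nat_lit 4, nat_lit 864, nat_lit 9888, nat_lit 15840, nat_lit 7632, nat_lit 7248, R12_330, R5_159, R5_151⟩, ⟨nat_lit 5, nat_lit 6096, nat_lit 9936, nat_lit 17136, nat_lit 7248, nat_lit 6864, R12_357, R11_151, R11_143⟩, ⟨nat_lit 6, nat_lit 8976, nat_lit 9984, nat_lit 16512, nat_lit 10848, nat_lit 13872, R12_344, R0_226, R0_289⟩]⟩]⟩,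
 ⟨nat_lit 6, [⟨nat_lit 4, [⟨nat_lit 6, nat_lit 8640, nat_lit 10368, nat_lit 6720, nat_lit 1584, nat_lit 15024, R2_140, R0_33, R9_313⟩]⟩, ⟨nat_lit 5, [⟨nat_lit 6, nat_lit 8928, nat_lit 10416, nat_lit 16752, nat_lit 11040, nat_lit 13728, R12_349, R0_230, R0_286⟩]⟩, ⟨nat_lit 6, [⟨nat_lit 6, nat_lit 8832, nat_lit 10464, nat_lit 5424, nat_lit 6624, nat_lit 3888, R1_113, R0_138, R0_81⟩]⟩]⟩,
 ⟨nat_lit 7, [⟨nat_lit 4, [⟨nat_lit 4, nat_lit 768, nat_lit 10032, nat_lit 2640, nat_lit 6288, nat_lit 7392, R2_55, R9_131, R8_154⟩, ⟨nat_lit 5, nat_lit 6000, nat_lit 10176, nat_lit 11376, nat_lit 4128, nat_lit 15792, R2_237, R0_86, R5_329⟩]⟩, ⟨nat_lit 5, [⟨nat_lit 4, nat_lit 912, nat_lit 10080, nat_lit 7344, nat_lit 7488, nat_lit 6816, R12_153, R9_156, R5_142⟩, ⟨nat_lit 5, nat_lit 6144, nat_lit 10224, nat_lit 9168, nat_lit 5328,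 nat_lit 6432, R12_191, R0_111, R11_134⟩]⟩, ⟨nat_lit 7, [⟨nat_lit 4, nat_lit 1248, nat_lit 10128, nat_lit 2112, nat_lit 7104, nat_lit 6864, R1_44, R9_148, R9_143⟩, ⟨nat_lit 5, nat_lit 6384, nat_lit 10272, nat_lit 11952, nat_lit 4944, nat_lit 4704, R1_249, R0_103, R0_98⟩, ⟨nat_lit 7, nat_lit 10464, nat_lit 10320, nat_lit 7488, nat_lit 5088, nat_lit 4560, R1_156, R0_106, R0_95⟩]⟩]⟩]]], [[], [[], [], [], [⟨nat_lit 5, [⟨nat_lit 1, [⟨nat_lit 5, nat_lit 4560, nat_lit 10320, nat_lit 10464, nat_lit 7488, nat_lit 5088, R0_218, R1_156, R0_106⟩]⟩]⟩]], [], [], [], [[⟨nat_lit 4, [⟨nat_lit 1, [⟨nat_lit 5, nat_lit 2880, nat_lit 10704, nat_lit 11616, nat_lit 11856, nat_lit 17712, R5_242, R5_247, R3_369⟩]⟩]⟩,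
 ⟨nat_lit 5, [⟨nat_lit 1, [⟨nat_lit 5, nat_lit 2976, nat_lit 10896, nat_lit 10320, nat_lit 8352, nat_lit 17904, R0_215, R11_174, R3_373⟩]⟩]⟩,
 ⟨nat_lit 7, [⟨nat_lit 1, [⟨nat_lit 5, nat_lit 3024, nat_lit 10800, nat_lit 16704, nat_lit 5808, nat_lit 17808, R11_348, R0_121, R3_371⟩]⟩]⟩], [⟨nat_lit 4, [⟨nat_lit 1, [⟨nat_lit 5, nat_lit 3264, nat_lit 8688, nat_lit 12384, nat_lit 12144, nat_lit 11952, R5_258, R5_253, R10_249⟩]⟩]⟩,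
 ⟨nat_lit 5, [⟨nat_lit 1, [⟨nat_lit 5, nat_lit 3360, nat_lit 8736, nat_lit 10368, nat_lit 10176, nat_lit 12048, R0_216, R11_212, R10_251⟩]⟩]⟩,
 ⟨nat_lit 7, [⟨nat_lit 1, [⟨nat_lit 5, nat_lit 3408, nat_lit 8784, nat_lit 16752, nat_lit 7104, nat_lit 12000, R11_349, R0_148, R10_250⟩]⟩, ⟨nat_lit 5, [⟨nat_lit 5, nat_lit 3888, nat_lit 8832, nat_lit 10464, nat_lit 6624, nat_lit 5424, R1_218, R0_138, R1_113⟩]⟩]⟩], [], [⟨nat_lit 4, [⟨nat_lit 1, [⟨nat_lit 5, nat_lit 4848, nat_lit 13776, nat_lit 12048, nat_lit 12000, nat_lit 4608, R5_251, R5_250, R0_96⟩]⟩]⟩,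
 ⟨nat_lit 5, [⟨nat_lit 1, [⟨nat_lit 5, nat_lit 4896, nat_lit 13824, nat_lit 10416, nat_lit 8928, nat_lit 4752, R0_217, R11_186, R0_99⟩]⟩]⟩,
 ⟨nat_lit 7, [⟨nat_lit 1, [⟨nat_lit 5, nat_lit 4992, nat_lit 13872, nat_lit 16800, nat_lit 6336, nat_lit 4656, R11_350, R0_132, R0_97⟩]⟩]⟩]]]]
noncomputable def N1343 : T3 (List N0) := [[], [], [], [[], [], [], [], [[], [], [], [⟨nat_lit 0, [⟨nat_lit 6, [⟨nat_lit 3, nat_lit 1008, nat_lit 0, nat_lit 12048, nat_lit 6768, nat_lit 13440, R2_251, R6_141, R1_280⟩]⟩]⟩,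
 ⟨nat_lit 2, [⟨nat_lit 4, [⟨nat_lit 3, nat_lit 2688, nat_lit 720, nat_lit 12912, nat_lit 6144, nat_lit 13056, R2_269, R8_128, R2_272⟩]⟩, ⟨nat_lit 6, [⟨nat_lit 3, nat_lit 2736, nat_lit 816, nat_lit 12432, nat_lit 6240, nat_lit 14400, R12_259, R8_130, R1_300⟩]⟩, ⟨nat_lit 7, [⟨nat_lit 0, nat_lit 1728, nat_lit 672, nat_lit 13296, nat_lit 7392, nat_lit 12096, R1_277, R6_154, R2_252⟩, ⟨nat_lit 2, nat_lit 2256, nat_lit 864, nat_lit 15264, nat_lit 8112, nat_lit 12672, R1_318, R4_169, R1_264⟩, ⟨nat_lit 3, nat_lit 2784, nat_lit 768, nat_lit 14256, nat_lit 6192, nat_lit 13824, R1_297, R8_129, R12_288⟩]⟩]⟩,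
 ⟨nat_lit 3, [⟨nat_lit 2, [⟨nat_lit 7, nat_lit 2928, nat_lit 576, nat_lit 17568, nat_lit 7200, nat_lit 12432, R11_366, R7_150, R1_259⟩]⟩, ⟨nat_lit 6, [⟨nat_lit 3, nat_lit 3024, nat_lit 48, nat_lit 12624, nat_lit 7344, nat_lit 15360, R1_263, R4_153, R1_320⟩, ⟨nat_lit 7, nat_lit 2976, nat_lit 528, nat_lit 12384, nat_lit 7248, nat_lit 18960, R1_258, R7_151, R11_395⟩]⟩]⟩,
 ⟨nat_lit 4, [⟨nat_lit 3, [⟨nat_lit 6, nat_lit 0, nat_lit 1008, nat_lit 12048, nat_lit 6768, nat_lit 13440, R2_251, R6_141, R1_280⟩]⟩]⟩,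
 ⟨nat_lit 6, [⟨nat_lit 3, [⟨nat_lit 2, nat_lit 528, nat_lit 2976, nat_lit 12384, nat_lit 7248, nat_lit 18960, R1_258, R7_151, R11_395⟩, ⟨nat_lit 6, nat_lit 48, nat_lit 3024, nat_lit 12624, nat_lit 7344, nat_lit 15360, R1_263, R4_153, R1_320⟩]⟩, ⟨nat_lit 7, [⟨nat_lit 2, nat_lit 576, nat_lit 2928, nat_lit 17568, nat_lit 7200, nat_lit 12432, R11_366, R7_150, R1_259⟩]⟩]⟩,
 ⟨nat_lit 7, [⟨nat_lit 0, [⟨nat_lit 6, nat_lit 720, nat_lit 2688, nat_lit 12912, nat_lit 6144, nat_lit 13056, R2_269, R8_128, R2_272⟩]⟩, ⟨nat_lit 2, [⟨nat_lit 4, nat_lit 672, nat_lit 1728, nat_lit 13296, nat_lit 7392, nat_lit 12096, R1_277, R6_154, R2_252⟩, ⟨nat_lit 6, nat_lit 768, nat_lit 2784, nat_lit 14256, nat_lit 6192, nat_lit 13824, R1_297, R8_129, R12_288⟩, ⟨nat_lit 7, nat_lit 864, nat_lit 2256, nat_lit 15264, nat_lit 8112, nat_lit 12672,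 R1_318, R4_169, R1_264⟩]⟩, ⟨nat_lit 3, [⟨nat_lit 6, nat_lit 816, nat_lit 2736, nat_lit 12432, nat_lit 6240, nat_lit 14400, R12_259, R8_130, R1_300⟩]⟩]⟩], [], [], [], [⟨nat_lit 0, [⟨nat_lit 6, [⟨nat_lit 3, nat_lit 1056, nat_lit 3696, nat_lit 12240, nat_lit 6720, nat_lit 15072, R2_255, R6_140, R10_314⟩]⟩]⟩,
 ⟨nat_lit 2, [⟨nat_lit 4, [⟨nat_lit 0, nat_lit 1776, nat_lit 2064, nat_lit 3360, nat_lit 7872, nat_lit 17712, R2_70, R6_164, R13_369⟩, ⟨nat_lit 2, nat_lit 2304, nat_lit 9696, nat_lit 4800, nat_lit 8352, nat_lit 13248, R2_100, R4_174, R3_276⟩, ⟨nat_lit 3, nat_lit 2832, nat_lit 7008, nat_lit 4224, nat_lit 6048, nat_lit 6480, R2_88, R8_126, R3_135⟩]⟩, ⟨nat_lit 6, [⟨nat_lit 0, nat_lit 1824, nat_lit 2208, nat_lit 13056, nat_lit 7920, nat_lit 11760, R12_272, R6_165, R3_245⟩, ⟨nat_lit 3, nat_lit 2880, nat_lit 7104,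 nat_lit 13296, nat_lit 6096, nat_lit 17568, R12_277, R8_127, R10_366⟩]⟩, ⟨nat_lit 7, [⟨nat_lit 0, nat_lit 1872, nat_lit 2112, nat_lit 2832, nat_lit 7968, nat_lit 3120, R1_59, R6_166, R3_65⟩, ⟨nat_lit 2, nat_lit 2352, nat_lit 9792, nat_lit 3504, nat_lit 8400, nat_lit 14016, R1_73, R4_175, R10_292⟩]⟩]⟩,
 ⟨nat_lit 3, [⟨nat_lit 6, [⟨nat_lit 3, nat_lit 3072, nat_lit 4848, nat_lit 12816, nat_lit 7008, nat_lit 18576, R1_267, R4_146, R10_387⟩]⟩]⟩,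
 ⟨nat_lit 6, [⟨nat_lit 7, [⟨nat_lit 2, nat_lit 624, nat_lit 10752, nat_lit 17520, nat_lit 7152, nat_lit 13344, R11_365, R7_149, R10_278⟩]⟩]⟩]], [[], [], [], [⟨nat_lit 4, [⟨nat_lit 3, [⟨nat_lit 6, nat_lit 3936, nat_lit 336, nat_lit 12336, nat_lit 7680, nat_lit 13584, R2_257, R13_160, R1_283⟩]⟩]⟩,
 ⟨nat_lit 6, [⟨nat_lit 3, [⟨nat_lit 2, nat_lit 6240, nat_lit 2448, nat_lit 12480, nat_lit 5472, nat_lit 21072, R1_260, R2_114, R11_439⟩, ⟨nat_lit 6, nat_lit 5184, nat_lit 2496, nat_lit 12912, nat_lit 13392, nat_lit 15456, R1_269, R3_279, R1_322⟩]⟩, ⟨nat_lit 7, [⟨nat_lit 2, nat_lit 6288, nat_lit 2400, nat_lit 17664, nat_lit 5424, nat_lit 12528, R11_368, R2_113, R1_261⟩]⟩]⟩,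
 ⟨nat_lit 7, [⟨nat_lit 0, [⟨nat_lit 6, nat_lit 6864, nat_lit 2160, nat_lit 13008, nat_lit 5616, nat_lit 13584, R2_271, R9_117, R2_283⟩]⟩, ⟨nat_lit 2, [⟨nat_lit 4, nat_lit 6480, nat_lit 1200, nat_lit 13392, nat_lit 15072, nat_lit 14928, R1_279, R8_314, R2_311⟩, ⟨nat_lit 6, nat_lit 6912, nat_lit 2256, nat_lit 14352, nat_lit 5664, nat_lit 14736, R1_299, R9_118, R12_307⟩, ⟨nat_lit 7, nat_lit 7056, nat_lit 1728, nat_lit 15312, nat_lit 5904, nat_lit 15936, R1_319, R5_123, R1_332⟩]⟩, ⟨nat_lit 3, [⟨nat_lit 6, nat_lit 6960, nat_lit 2208, nat_lit 12480, nat_lit 5712, nat_lit 14928, R12_260, R9_119, R1_311⟩]⟩]⟩], [], [], [], [⟨nat_lit 6, [⟨nat_lit 7, [⟨nat_lit 2, nat_lit 6336, nat_lit 2352, nat_lit 17616, nat_lit 5376, nat_lit 13872, R11_367, R2_112, R10_289⟩]⟩]⟩]], [[], [], [], [], [], [], [], [⟨nat_lit 0, [⟨nat_lit 6,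 [⟨nat_lit 0, nat_lit 7632, nat_lit 9456, nat_lit 14496, nat_lit 12528, nat_lit 11280, R2_302, R6_261, R3_235⟩, ⟨nat_lit 1, nat_lit 7968, nat_lit 9792, nat_lit 15600, nat_lit 12864, nat_lit 12480, R2_325, R4_268, R0_260⟩, ⟨nat_lit 3, nat_lit 8112, nat_lit 9696, nat_lit 15072, nat_lit 14976, nat_lit 15120, R2_314, R8_312, R10_315⟩]⟩]⟩,
 ⟨nat_lit 2, [⟨nat_lit 4, [⟨nat_lit 0, nat_lit 8640, nat_lit 1296, nat_lit 3648, nat_lit 10224, nat_lit 17760, R2_76, R13_213, R13_370⟩, ⟨nat_lit 1, nat_lit 9552, nat_lit 1536, nat_lit 6624, nat_lit 8352, nat_lit 14736, R2_138, R3_174, R9_307⟩, ⟨nat_lit 2, nat_lit 9936, nat_lit 1824, nat_lit 4992, nat_lit 12864, nat_lit 13296, R2_104, R3_268, R3_277⟩, ⟨nat_lit 3, nat_lit 10176, nat_lit 1440, nat_lit 4512, nat_lit 7872, nat_lit 6864, R2_94, R9_164, R3_143⟩]⟩, ⟨nat_lit 6, [⟨nat_lit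 0, nat_lit 8688, nat_lit 10656, nat_lit 16128, nat_lit 10272, nat_lit 12240, R12_336, R13_214, R3_255⟩, ⟨nat_lit 1, nat_lit 9600, nat_lit 10992, nat_lit 16704, nat_lit 8400, nat_lit 13440, R12_348, R3_175, R0_280⟩, ⟨nat_lit 3, nat_lit 10224, nat_lit 10896, nat_lit 16416, nat_lit 7920, nat_lit 17616, R12_342, R9_165, R10_367⟩]⟩, ⟨nat_lit 7, [⟨nat_lit 0, nat_lit 8736, nat_lit 6432, nat_lit 3120, nat_lit 10320, nat_lit 9024, R1_65, R13_215, R3_188⟩, ⟨nat_lit 1, nat_lit 9648, nat_lit 6576, nat_lit 5328, nat_lit 8448, nat_lit 3792, R1_111, R3_176, R0_79⟩, ⟨nat_lit 2, nat_lit 9984, nat_lit 6864, nat_lit 3696, nat_lit 12960, nat_lit 14208, R1_77, R3_270, R10_296⟩]⟩]⟩,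
 ⟨nat_lit 3, [⟨nat_lit 6, [⟨nat_lit 3, nat_lit 10272, nat_lit 10176, nat_lit 16080, nat_lit 7872, nat_lit 18624, R1_335, R5_164, R10_388⟩]⟩]⟩,
 ⟨nat_lit 6, [⟨nat_lit 7, [⟨nat_lit 2, nat_lit 7392, nat_lit 5472, nat_lit 17712, nat_lit 7344, nat_lit 13776, R11_369, R2_153, R10_287⟩]⟩]⟩]], [[], [], [], [⟨nat_lit 0, [⟨nat_lit 6, [⟨nat_lit 3, nat_lit 10944, nat_lit 9888, nat_lit 13776, nat_lit 13968, nat_lit 13488, R2_287, R4_291, R1_281⟩, ⟨nat_lit 7, nat_lit 10704, nat_lit 9840, nat_lit 12624, nat_lit 15264, nat_lit 18816, R2_263, R7_318, R11_392⟩]⟩]⟩,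
 ⟨nat_lit 2, [⟨nat_lit 4, [⟨nat_lit 3, nat_lit 11424, nat_lit 10080, nat_lit 13296, nat_lit 15360, nat_lit 13104, R2_277, R5_320, R2_273⟩]⟩, ⟨nat_lit 6, [⟨nat_lit 3, nat_lit 11472, nat_lit 10176, nat_lit 14160, nat_lit 15648, nat_lit 14448, R12_295, R5_326, R1_301⟩]⟩, ⟨nat_lit 7, [⟨nat_lit 3, nat_lit 11520, nat_lit 10128, nat_lit 14640, nat_lit 15744, nat_lit 13872, R1_305, R5_328, R12_289⟩]⟩]⟩,
 ⟨nat_lit 3, [⟨nat_lit 2, [⟨nat_lit 4, nat_lit 11664, nat_lit 9984, nat_lit 19632, nat_lit 15360, nat_lit 12672, R11_409, R7_320, R2_264⟩, ⟨nat_lit 7, nat_lit 11808, nat_lit 10032, nat_lit 19824, nat_lit 6000, nat_lit 14016, R11_413, R14_125, R1_292⟩]⟩, ⟨nat_lit 6, [⟨nat_lit 7, nat_lit 11856, nat_lit 9936, nat_lit 13968, nat_lit 5952, nat_lit 19008, R1_291, R14_124, R11_396⟩]⟩]⟩,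
 ⟨nat_lit 7, [⟨nat_lit 0, [⟨nat_lit 6, nat_lit 10368, nat_lit 9648, nat_lit 12960, nat_lit 15840, nat_lit 13440, R2_270, R5_330, R2_280⟩]⟩, ⟨nat_lit 2, [⟨nat_lit 4, nat_lit 10320, nat_lit 9744, nat_lit 13344, nat_lit 14016, nat_lit 13824, R1_278, R4_292, R2_288⟩, ⟨nat_lit 6, nat_lit 10416, nat_lit 9792, nat_lit 14304, nat_lit 15888, nat_lit 14496, R1_298, R5_331, R12_302⟩]⟩, ⟨nat_lit 3, [⟨nat_lit 6, nat_lit 10464, nat_lit 9696, nat_lit 12528, nat_lit 15936, nat_lit 14784, R12_261, R5_332, R1_308⟩]⟩]⟩]]], [[], [[⟨nat_lit 5, [⟨nat_lit 0, [⟨nat_lit 6, nat_lit 12816, nat_lit 2592, nat_lit 1008, nat_lit 12816, nat_lit 4272, R8_21, R2_267, R7_89⟩]⟩, ⟨nat_lit 2, [⟨nat_lit 4, nat_lit 12480, nat_lit 11808, nat_lit 14832, nat_lit 15168, nat_lit 12144, R5_309, R7_316, R7_253⟩, ⟨nat_lit 6, nat_lit 12864, nat_lit 11904,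 nat_lit 14880, nat_lit 13152, nat_lit 12384, R5_310, R2_274, R14_258⟩]⟩]⟩], [⟨nat_lit 5, [⟨nat_lit 0, [⟨nat_lit 6, nat_lit 12912, nat_lit 720, nat_lit 6144, nat_lit 13056, nat_lit 2688, R8_128, R2_272, R2_56⟩]⟩, ⟨nat_lit 1, [⟨nat_lit 6, nat_lit 13008, nat_lit 6864, nat_lit 14688, nat_lit 13584, nat_lit 2160, R9_306, R2_283, R1_45⟩]⟩, ⟨nat_lit 2, [⟨nat_lit 6, nat_lit 12960, nat_lit 10368, nat_lit 15840, nat_lit 13440, nat_lit 9648, R5_330, R2_280, R12_201⟩]⟩]⟩], [], [⟨nat_lit 5, [⟨nat_lit 0, [⟨nat_lit 6, nat_lit 13056, nat_lit 2688, nat_lit 6912, nat_lit 12912, nat_lit 720, R8_144, R2_269, R2_15⟩]⟩, ⟨nat_lit 2, [⟨nat_lit 4, nat_lit 12528, nat_lit 10992, nat_lit 15312, nat_lit 15312, nat_lit 11568, R5_319, R7_319, R2_241⟩, ⟨nat_lit 6, nat_lit 13104, nat_lit 11424, nat_lit 15360, nat_lit 13296, nat_lit 2016, R5_320,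 R2_277, R12_42⟩]⟩]⟩]], [], [], [], [[⟨nat_lit 4, [⟨nat_lit 0, [⟨nat_lit 6, nat_lit 3264, nat_lit 2208, nat_lit 8640, nat_lit 7728, nat_lit 3456, R6_180, R13_161, R7_72⟩]⟩, ⟨nat_lit 2, [⟨nat_lit 4, nat_lit 3120, nat_lit 10992, nat_lit 8736, nat_lit 12576, nat_lit 15936, R4_182, R6_262, R7_332⟩, ⟨nat_lit 6, nat_lit 3312, nat_lit 11088, nat_lit 9264, nat_lit 7776, nat_lit 12960, R4_193, R13_162, R14_270⟩]⟩]⟩,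
 ⟨nat_lit 5, [⟨nat_lit 0, [⟨nat_lit 6, nat_lit 4128, nat_lit 2640, nat_lit 672, nat_lit 6384, nat_lit 4416, R8_14, R3_133, R7_92⟩]⟩, ⟨nat_lit 2, [⟨nat_lit 4, nat_lit 3984, nat_lit 11376, nat_lit 5184, nat_lit 12912, nat_lit 16656, R5_108, R4_269, R7_347⟩, ⟨nat_lit 6, nat_lit 4176, nat_lit 11424, nat_lit 5232, nat_lit 6432, nat_lit 13008, R5_109, R3_134, R14_271⟩]⟩]⟩,
 ⟨nat_lit 6, [⟨nat_lit 0, [⟨nat_lit 2, nat_lit 5232, nat_lit 3024, nat_lit 3696, nat_lit 5808, nat_lit 3936, R4_77, R2_121, R4_82⟩, ⟨nat_lit 6, nat_lit 4752, nat_lit 2928, nat_lit 1632, nat_lit 13104, nat_lit 3936, R4_34, R3_273, R7_82⟩]⟩]⟩], [⟨nat_lit 4, [⟨nat_lit 0, [⟨nat_lit 6, nat_lit 3360, nat_lit 2064, nat_lit 8784, nat_lit 7824, nat_lit 1776, R6_183, R13_163, R2_37⟩]⟩, ⟨nat_lit 1, [⟨nat_lit 6, nat_lit 3456, nat_lit 2304, nat_lit 5568, nat_lit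 7920, nat_lit 1248, R8_116, R13_165, R1_26⟩]⟩, ⟨nat_lit 2, [⟨nat_lit 6, nat_lit 3408, nat_lit 2784, nat_lit 9408, nat_lit 7872, nat_lit 10224, R4_196, R13_164, R12_213⟩]⟩]⟩,
 ⟨nat_lit 5, [⟨nat_lit 0, [⟨nat_lit 6, nat_lit 4224, nat_lit 7008, nat_lit 6048, nat_lit 6480, nat_lit 2832, R8_126, R3_135, R2_59⟩]⟩, ⟨nat_lit 1, [⟨nat_lit 6, nat_lit 4320, nat_lit 7200, nat_lit 4944, nat_lit 6576, nat_lit 2304, R9_103, R3_137, R1_48⟩]⟩, ⟨nat_lit 2, [⟨nat_lit 6, nat_lit 4272, nat_lit 7536, nat_lit 5424, nat_lit 6528, nat_lit 10272, R5_113, R3_136, R12_214⟩]⟩]⟩,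
 ⟨nat_lit 6, [⟨nat_lit 0, [⟨nat_lit 2, nat_lit 5280, nat_lit 9648, nat_lit 10032, nat_lit 5856, nat_lit 13824, R4_209, R2_122, R3_288⟩, ⟨nat_lit 6, nat_lit 4800, nat_lit 9696, nat_lit 8352, nat_lit 13248, nat_lit 2304, R4_174, R3_276, R2_48⟩]⟩, ⟨nat_lit 1, [⟨nat_lit 2, nat_lit 5328, nat_lit 9888, nat_lit 5520, nat_lit 5904, nat_lit 1920, R5_115, R2_123, R10_40⟩, ⟨nat_lit 6, nat_lit 4848, nat_lit 9936, nat_lit 5664, nat_lit 13440, nat_lit 1776, R5_118, R3_280, R1_37⟩]⟩]⟩]]], [[[⟨nat_lit 1, [⟨nat_lit 2, [⟨nat_lit 4, nat_lit 12000, nat_lit 576, nat_lit 13200, nat_lit 14160, nat_lit 2880, R1_275, R6_295, R7_60⟩]⟩]⟩], [], [⟨nat_lit 1, [⟨nat_lit 2, [⟨nat_lit 4, nat_lit 12048, nat_lit 0, nat_lit 13440, nat_lit 14304, nat_lit 1008, R1_280, R6_298, R2_21⟩, ⟨nat_lit 5, nat_lit 12336, nat_lit 3936, nat_lit 13584, nat_lit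 19488, nat_lit 336, R1_283, R13_406, R1_7⟩]⟩]⟩], [⟨nat_lit 1, [⟨nat_lit 2, [⟨nat_lit 4, nat_lit 12096, nat_lit 1728, nat_lit 13296, nat_lit 14352, nat_lit 672, R1_277, R6_299, R2_14⟩]⟩]⟩]], [[⟨nat_lit 1, [⟨nat_lit 2, [⟨nat_lit 4, nat_lit 13728, nat_lit 14208, nat_lit 13248, nat_lit 13920, nat_lit 12336, R1_276, R4_290, R7_257⟩]⟩]⟩,
 ⟨nat_lit 5, [⟨nat_lit 0, [⟨nat_lit 6, nat_lit 13152, nat_lit 12816, nat_lit 14880, nat_lit 12864, nat_lit 12720, R5_310, R2_268, R7_265⟩]⟩, ⟨nat_lit 2, [⟨nat_lit 4, nat_lit 12576, nat_lit 14256, nat_lit 19152, nat_lit 15216, nat_lit 12192, R11_399, R7_317, R7_254⟩, ⟨nat_lit 6, nat_lit 13200, nat_lit 15072, nat_lit 19200, nat_lit 13200, nat_lit 14448, R11_400, R2_275, R14_301⟩]⟩]⟩], [⟨nat_lit 5, [⟨nat_lit 0, [⟨nat_lit 6, nat_lit 13296, nat_lit 10080, nat_lit 15360, nat_lit 13104,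 nat_lit 11424, R5_320, R2_273, R2_238⟩]⟩, ⟨nat_lit 1, [⟨nat_lit 6, nat_lit 13392, nat_lit 10752, nat_lit 13392, nat_lit 13632, nat_lit 12000, R0_279, R2_284, R1_250⟩]⟩, ⟨nat_lit 2, [⟨nat_lit 6, nat_lit 13344, nat_lit 12144, nat_lit 20160, nat_lit 13488, nat_lit 11520, R11_420, R2_281, R12_240⟩]⟩]⟩], [⟨nat_lit 1, [⟨nat_lit 2, [⟨nat_lit 4, nat_lit 13776, nat_lit 9888, nat_lit 13488, nat_lit 13968, nat_lit 10944, R1_281, R4_291, R2_228⟩, ⟨nat_lit 5, nat_lit 13872, nat_lit 10608, nat_lit 13632, nat_lit 15648, nat_lit 11328, R1_284, R3_326, R1_236⟩]⟩]⟩,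
 ⟨nat_lit 5, [⟨nat_lit 2, [⟨nat_lit 4, nat_lit 12624, nat_lit 9840, nat_lit 20304, nat_lit 15264, nat_lit 10704, R11_423, R7_318, R2_223⟩, ⟨nat_lit 5, nat_lit 12768, nat_lit 10560, nat_lit 20448, nat_lit 14352, nat_lit 11088, R11_426, R2_299, R1_231⟩, ⟨nat_lit 6, nat_lit 13248, nat_lit 11904, nat_lit 20352, nat_lit 13248, nat_lit 11472, R11_424, R2_276, R12_239⟩]⟩]⟩], [⟨nat_lit 1, [⟨nat_lit 2, [⟨nat_lit 4, nat_lit 13824, nat_lit 9744, nat_lit 13344, nat_lit 14016, nat_lit 10320, R1_278, R4_292, R2_215⟩]⟩]⟩,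
 ⟨nat_lit 5, [⟨nat_lit 0, [⟨nat_lit 6, nat_lit 13440, nat_lit 2208, nat_lit 15840, nat_lit 12960, nat_lit 10368, R5_330, R2_270, R2_216⟩]⟩, ⟨nat_lit 2, [⟨nat_lit 4, nat_lit 12672, nat_lit 9984, nat_lit 19632, nat_lit 15360, nat_lit 11664, R11_409, R7_320, R2_243⟩, ⟨nat_lit 6, nat_lit 13488, nat_lit 12000, nat_lit 19680, nat_lit 13344, nat_lit 11712, R11_410, R2_278, R12_244⟩]⟩]⟩]], [[], [], [⟨nat_lit 1, [⟨nat_lit 2, [⟨nat_lit 5, nat_lit 14112, nat_lit 3408, nat_lit 13680, nat_lit 15840, nat_lit 6000, R1_285, R3_330, R1_125⟩]⟩]⟩]], [[], [], [], [⟨nat_lit 1, [⟨nat_lit 2, [⟨nat_lit 4, nat_lit 14928, nat_lit 1200, nat_lit 13392, nat_lit 15072, nat_lit 6480, R1_279, R8_314, R2_135⟩, ⟨nat_lit 7, nat_lit 15312, nat_lit 6624, nat_lit 13536, nat_lit 16560, nat_lit 5184, R1_282, R5_345, R1_108⟩]⟩]⟩]]], [[], [[], [⟨nat_lit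 5, [⟨nat_lit 1, [⟨nat_lit 6, nat_lit 13536, nat_lit 5568, nat_lit 3456, nat_lit 13680, nat_lit 7536, R0_72, R2_285, R1_157⟩]⟩]⟩]], [], [], [], [[], [⟨nat_lit 4, [⟨nat_lit 1, [⟨nat_lit 6, nat_lit 3504, nat_lit 2256, nat_lit 14592, nat_lit 8352, nat_lit 6672, R5_304, R13_174, R1_139⟩]⟩]⟩,
 ⟨nat_lit 5, [⟨nat_lit 1, [⟨nat_lit 6, nat_lit 4368, nat_lit 2304, nat_lit 3120, nat_lit 6960, nat_lit 7680, R0_65, R3_145, R1_160⟩]⟩]⟩,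
 ⟨nat_lit 6, [⟨nat_lit 1, [⟨nat_lit 2, nat_lit 5376, nat_lit 2352, nat_lit 17616, nat_lit 6336, nat_lit 8112, R11_367, R2_132, R10_169⟩, ⟨nat_lit 6, nat_lit 4896, nat_lit 2400, nat_lit 18096, nat_lit 13536, nat_lit 7200, R11_377, R3_282, R1_150⟩]⟩]⟩], [], [], [], [⟨nat_lit 6, [⟨nat_lit 1, [⟨nat_lit 2, nat_lit 5424, nat_lit 2400, nat_lit 17664, nat_lit 6288, nat_lit 12528, R11_368, R2_131, R1_261⟩]⟩, ⟨nat_lit 5, [⟨nat_lit 2, nat_lit 5472, nat_lit 2448, nat_lit 12480, nat_lit 6240, nat_lit 21072, R1_260, R2_130, R11_439⟩]⟩]⟩]]], [[], [[], [], [], [⟨nat_lit 5, [⟨nat_lit 0, [⟨nat_lit 6, nat_lit 13584, nat_lit 2160, nat_lit 14688, nat_lit 13008, nat_lit 6864, R9_306, R2_271, R2_143⟩]⟩, ⟨nat_lit 2, [⟨nat_lit 4, nat_lit 12720, nat_lit 11568, nat_lit 12432, nat_lit 15408, nat_lit 11616, R0_259, R7_321, R2_242⟩, ⟨nat_lit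 6, nat_lit 13632, nat_lit 12000, nat_lit 13392, nat_lit 13392, nat_lit 6528, R0_279, R2_279, R12_136⟩]⟩, ⟨nat_lit 3, [⟨nat_lit 6, nat_lit 13680, nat_lit 7536, nat_lit 3456, nat_lit 13536, nat_lit 5568, R0_72, R2_282, R1_116⟩]⟩]⟩]], [], [], [], [[⟨nat_lit 4, [⟨nat_lit 0, [⟨nat_lit 6, nat_lit 3552, nat_lit 2592, nat_lit 15840, nat_lit 7968, nat_lit 9600, R13_330, R13_166, R7_200⟩]⟩, ⟨nat_lit 2, [⟨nat_lit 4, nat_lit 3168, nat_lit 12816, nat_lit 11136, nat_lit 12624, nat_lit 15984, R3_232, R6_263, R7_333⟩, ⟨nat_lit 6, nat_lit 3600, nat_lit 13824, nat_lit 12048, nat_lit 8016, nat_lit 13296, R3_251, R13_167, R14_277⟩]⟩]⟩,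
 ⟨nat_lit 5, [⟨nat_lit 0, [⟨nat_lit 6, nat_lit 4416, nat_lit 3024, nat_lit 14064, nat_lit 6624, nat_lit 11280, R9_293, R3_138, R7_235⟩]⟩, ⟨nat_lit 2, [⟨nat_lit 4, nat_lit 4032, nat_lit 13056, nat_lit 12192, nat_lit 12960, nat_lit 16704, R0_254, R4_270, R7_348⟩, ⟨nat_lit 6, nat_lit 4464, nat_lit 14160, nat_lit 12768, nat_lit 6672, nat_lit 13392, R0_266, R3_139, R14_279⟩]⟩]⟩,
 ⟨nat_lit 6, [⟨nat_lit 0, [⟨nat_lit 2, nat_lit 5520, nat_lit 768, nat_lit 13680, nat_lit 5952, nat_lit 10272, R3_285, R2_124, R4_214⟩, ⟨nat_lit 6, nat_lit 4944, nat_lit 3168, nat_lit 12432, nat_lit 13152, nat_lit 10944, R3_259, R3_274, R7_228⟩]⟩, ⟨nat_lit 3, [⟨nat_lit 2, nat_lit 5568, nat_lit 7728, nat_lit 13584, nat_lit 6000, nat_lit 7008, R10_283, R2_125, R5_146⟩]⟩]⟩,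
 ⟨nat_lit 7, [⟨nat_lit 0, [⟨nat_lit 6, nat_lit 6528, nat_lit 2784, nat_lit 1776, nat_lit 5760, nat_lit 10464, R3_37, R9_120, R7_218⟩]⟩, ⟨nat_lit 2, [⟨nat_lit 4, nat_lit 6384, nat_lit 12960, nat_lit 14496, nat_lit 14544, nat_lit 16224, R10_302, R8_303, R7_338⟩, ⟨nat_lit 6, nat_lit 6576, nat_lit 14016, nat_lit 15792, nat_lit 5808, nat_lit 13344, R10_329, R9_121, R14_278⟩]⟩]⟩], [⟨nat_lit 4, [⟨nat_lit 0, [⟨nat_lit 6, nat_lit 3648, nat_lit 1296, nat_lit 15936, nat_lit 8208, nat_lit 8640, R13_332, R13_171, R2_180⟩]⟩, ⟨nat_lit 1, [⟨nat_lit 6, nat_lit 3744, nat_lit 1344, nat_lit 13680, nat_lit 8304, nat_lit 9456, R9_285, R13_173, R1_197⟩]⟩, ⟨nat_lit 2, [⟨nat_lit 6, nat_lit 3696, nat_lit 1392, nat_lit 12144, nat_lit 8256, nat_lit 10944, R3_253, R13_172, R12_228⟩]⟩]⟩,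
 ⟨nat_lit 5, [⟨nat_lit 0, [⟨nat_lit 6, nat_lit 4512, nat_lit 1440, nat_lit 14400, nat_lit 6864, nat_lit 10176, R9_300, R3_143, R2_212⟩]⟩, ⟨nat_lit 2, [⟨nat_lit 6, nat_lit 4560, nat_lit 1488, nat_lit 13104, nat_lit 6912, nat_lit 11040, R0_273, R3_144, R12_230⟩]⟩]⟩,
 ⟨nat_lit 6, [⟨nat_lit 0, [⟨nat_lit 2, nat_lit 5616, nat_lit 1680, nat_lit 14448, nat_lit 6096, nat_lit 14544, R3_301, R2_127, R3_303⟩, ⟨nat_lit 6, nat_lit 4992, nat_lit 1824, nat_lit 12864, nat_lit 13296, nat_lit 9936, R3_268, R3_277, R2_207⟩]⟩, ⟨nat_lit 1, [⟨nat_lit 2, nat_lit 5664, nat_lit 1728, nat_lit 11424, nat_lit 6192, nat_lit 11664, R0_238, R2_129, R10_243⟩, ⟨nat_lit 6, nat_lit 5040, nat_lit 1872, nat_lit 11808, nat_lit 13488, nat_lit 10752, R0_246, R3_281, R1_224⟩]⟩, ⟨nat_lit 3, [⟨nat_lit 2, nat_lit 5712, nat_lit 1776, nat_lit 13680, nat_lit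 6144, nat_lit 11472, R10_285, R2_128, R0_239⟩]⟩]⟩,
 ⟨nat_lit 7, [⟨nat_lit 0, [⟨nat_lit 6, nat_lit 6624, nat_lit 1536, nat_lit 8352, nat_lit 5952, nat_lit 9552, R3_174, R9_124, R2_199⟩]⟩, ⟨nat_lit 1, [⟨nat_lit 6, nat_lit 6720, nat_lit 1584, nat_lit 8640, nat_lit 6048, nat_lit 10368, R0_180, R9_126, R1_216⟩]⟩, ⟨nat_lit 2, [⟨nat_lit 6, nat_lit 6672, nat_lit 1632, nat_lit 16656, nat_lit 6000, nat_lit 10992, R10_347, R9_125, R12_229⟩]⟩]⟩], [], [⟨nat_lit 4, [⟨nat_lit 0, [⟨nat_lit 6, nat_lit 3792, nat_lit 2592, nat_lit 15888, nat_lit 8064, nat_lit 3792, R13_331, R13_168, R2_79⟩]⟩, ⟨nat_lit 2, [⟨nat_lit 4, nat_lit 3216, nat_lit 2544, nat_lit 11184, nat_lit 12672, nat_lit 14592, R3_233, R6_264, R2_304⟩, ⟨nat_lit 6, nat_lit 3840, nat_lit 2688, nat_lit 12096, nat_lit 8112, nat_lit 5376, R3_252, R13_169, R12_112⟩]⟩, ⟨nat_lit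 3, [⟨nat_lit 6, nat_lit 3888, nat_lit 2640, nat_lit 8976, nat_lit 8160, nat_lit 3264, R3_187, R13_170, R1_68⟩]⟩]⟩,
 ⟨nat_lit 5, [⟨nat_lit 0, [⟨nat_lit 6, nat_lit 4608, nat_lit 2784, nat_lit 14640, nat_lit 6720, nat_lit 6768, R9_305, R3_140, R2_141⟩]⟩, ⟨nat_lit 2, [⟨nat_lit 4, nat_lit 4080, nat_lit 2736, nat_lit 12384, nat_lit 13008, nat_lit 15648, R0_258, R4_271, R2_326⟩, ⟨nat_lit 6, nat_lit 4656, nat_lit 2880, nat_lit 13344, nat_lit 6768, nat_lit 5808, R0_278, R3_141, R12_121⟩]⟩, ⟨nat_lit 3, [⟨nat_lit 6, nat_lit 4704, nat_lit 2832, nat_lit 3696, nat_lit 6816, nat_lit 5472, R0_77, R3_142, R1_114⟩]⟩]⟩,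
 ⟨nat_lit 6, [⟨nat_lit 0, [⟨nat_lit 6, nat_lit 5088, nat_lit 3168, nat_lit 13200, nat_lit 13200, nat_lit 5088, R3_275, R3_275, R2_106⟩]⟩, ⟨nat_lit 3, [⟨nat_lit 2, nat_lit 5760, nat_lit 3120, nat_lit 13632, nat_lit 6048, nat_lit 6624, R10_284, R2_126, R11_138⟩, ⟨nat_lit 6, nat_lit 5136, nat_lit 3216, nat_lit 14160, nat_lit 13344, nat_lit 3792, R10_295, R3_278, R1_79⟩]⟩]⟩,
 ⟨nat_lit 7, [⟨nat_lit 0, [⟨nat_lit 6, nat_lit 6768, nat_lit 3024, nat_lit 6720, nat_lit 5856, nat_lit 4608, R3_140, R9_122, R2_96⟩]⟩, ⟨nat_lit 2, [⟨nat_lit 4, nat_lit 6432, nat_lit 2928, nat_lit 15024, nat_lit 15024, nat_lit 15168, R10_313, R8_313, R2_316⟩, ⟨nat_lit 6, nat_lit 6816, nat_lit 3072, nat_lit 17520, nat_lit 5904, nat_lit 5568, R10_365, R9_123, R12_116⟩, ⟨nat_lit 7, nat_lit 7008, nat_lit 2976, nat_lit 18528, nat_lit 5952, nat_lit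 16176, R10_386, R5_124, R1_337⟩]⟩]⟩]]]]
noncomputable def N1367 : T3 (List N0) := [[], [], [], [[], [], [], [], [[], [], [], [⟨nat_lit 3, [⟨nat_lit 2, [⟨nat_lit 7, nat_lit 5472, nat_lit 7392, nat_lit 17712, nat_lit 7344, nat_lit 8016, R11_369, R2_153, R10_167⟩]⟩]⟩,
 ⟨nat_lit 7, [⟨nat_lit 0, [⟨nat_lit 4, nat_lit 1296, nat_lit 8640, nat_lit 3648, nat_lit 10224, nat_lit 8208, R2_76, R13_213, R13_171⟩, ⟨nat_lit 5, nat_lit 1536, nat_lit 9552, nat_lit 6624, nat_lit 8352, nat_lit 5952, R2_138, R3_174, R9_124⟩, ⟨nat_lit 6, nat_lit 1440, nat_lit 10176, nat_lit 4512, nat_lit 7872, nat_lit 6864, R2_94, R9_164, R3_143⟩, ⟨nat_lit 7, nat_lit 1824, nat_lit 9936, nat_lit 4992, nat_lit 12864, nat_lit 13296, R2_104, R3_268, R3_277⟩]⟩, ⟨nat_lit 2, [⟨nat_lit 4, nat_lit 6432, nat_lit 8736, nat_lit 3120, nat_lit 10320, nat_lit 9024,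 R1_65, R13_215, R3_188⟩, ⟨nat_lit 5, nat_lit 6576, nat_lit 9648, nat_lit 5328, nat_lit 8448, nat_lit 3792, R1_111, R3_176, R0_79⟩, ⟨nat_lit 7, nat_lit 6864, nat_lit 9984, nat_lit 3696, nat_lit 12960, nat_lit 5520, R1_77, R3_270, R10_115⟩]⟩, ⟨nat_lit 3, [⟨nat_lit 4, nat_lit 10656, nat_lit 8688, nat_lit 16128, nat_lit 10272, nat_lit 12240, R12_336, R13_214, R3_255⟩, ⟨nat_lit 5, nat_lit 10992, nat_lit 9600, nat_lit 16704, nat_lit 8400, nat_lit 13440, R12_348, R3_175, R0_280⟩, ⟨nat_lit 6, nat_lit 10896, nat_lit 10224, nat_lit 16416, nat_lit 7920, nat_lit 10656, R12_342, R9_165, R10_222⟩]⟩]⟩], [], [], [], [⟨nat_lit 3, [⟨nat_lit 2, [⟨nat_lit 7, nat_lit 5376, nat_lit 13056, nat_lit 18144, nat_lit 9888, nat_lit 7056, R11_378, R2_206, R1_147⟩]⟩]⟩,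
 ⟨nat_lit 6, [⟨nat_lit 7, [⟨nat_lit 6, nat_lit 15168, nat_lit 17952, nat_lit 22032, nat_lit 10944, nat_lit 8256, R11_459, R5_228, R11_172⟩]⟩]⟩,
 ⟨nat_lit 7, [⟨nat_lit 0, [⟨nat_lit 7, nat_lit 1680, nat_lit 14544, nat_lit 5616, nat_lit 14448, nat_lit 6096, R2_117, R3_301, R2_127⟩]⟩, ⟨nat_lit 2, [⟨nat_lit 7, nat_lit 6720, nat_lit 15120, nat_lit 4320, nat_lit 15072, nat_lit 4800, R1_90, R3_314, R1_100⟩]⟩, ⟨nat_lit 3, [⟨nat_lit 4, nat_lit 10512, nat_lit 12288, nat_lit 16080, nat_lit 12192, nat_lit 8400, R12_335, R13_254, R2_175⟩, ⟨nat_lit 6, nat_lit 10800, nat_lit 17136, nat_lit 16368, nat_lit 9456, nat_lit 9216, R12_341, R9_197, R1_192⟩, ⟨nat_lit 7, nat_lit 11136, nat_lit 15024, nat_lit 16560, nat_lit 14880, nat_lit 6192, R12_345, R3_310, R12_129⟩]⟩]⟩]], [[], [], [], [⟨nat_lit 4, [⟨nat_lit 3, [⟨nat_lit 4, nat_lit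 9504, nat_lit 8160, nat_lit 14640, nat_lit 14736, nat_lit 16272, R2_305, R8_307, R3_339⟩, ⟨nat_lit 5, nat_lit 9840, nat_lit 8496, nat_lit 15696, nat_lit 16800, nat_lit 12576, R2_327, R5_350, R0_262⟩, ⟨nat_lit 6, nat_lit 9744, nat_lit 8640, nat_lit 15216, nat_lit 15936, nat_lit 9792, R2_317, R9_332, R10_204⟩]⟩]⟩,
 ⟨nat_lit 6, [⟨nat_lit 3, [⟨nat_lit 6, nat_lit 10224, nat_lit 10848, nat_lit 16224, nat_lit 14256, nat_lit 10368, R1_338, R0_297, R10_216⟩]⟩]⟩,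
 ⟨nat_lit 7, [⟨nat_lit 0, [⟨nat_lit 4, nat_lit 1344, nat_lit 9456, nat_lit 3744, nat_lit 9120, nat_lit 8304, R2_78, R9_190, R13_173⟩, ⟨nat_lit 5, nat_lit 1584, nat_lit 10368, nat_lit 6720, nat_lit 8640, nat_lit 6048, R2_140, R0_180, R9_126⟩, ⟨nat_lit 7, nat_lit 1872, nat_lit 10752, nat_lit 5040, nat_lit 11808, nat_lit 13488, R2_105, R0_246, R3_281⟩]⟩, ⟨nat_lit 2, [⟨nat_lit 4, nat_lit 6480, nat_lit 9552, nat_lit 3216, nat_lit 9312, nat_lit 9456, R1_67, R9_194, R3_197⟩, ⟨nat_lit 5, nat_lit 6624, nat_lit 10464, nat_lit 5424, nat_lit 8832, nat_lit 3888, R1_113, R0_184, R0_81⟩, ⟨nat_lit 7, nat_lit 6912, nat_lit 10800, nat_lit 3744, nat_lit 14064, nat_lit 5568, R1_78, R0_293, R10_116⟩]⟩, ⟨nat_lit 3, [⟨nat_lit 4, nat_lit 10704, nat_lit 9504, nat_lit 16224, nat_lit 9408, nat_lit 17088, R12_338, R9_196, R3_356⟩, ⟨nat_lit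 5, nat_lit 11040, nat_lit 10416, nat_lit 16752, nat_lit 8928, nat_lit 13728, R12_349, R0_186, R0_286⟩]⟩]⟩], [], [], [], [⟨nat_lit 4, [⟨nat_lit 3, [⟨nat_lit 4, nat_lit 9360, nat_lit 9216, nat_lit 14688, nat_lit 14784, nat_lit 8064, R2_306, R8_308, R2_168⟩, ⟨nat_lit 6, nat_lit 9600, nat_lit 9840, nat_lit 15264, nat_lit 15888, nat_lit 8592, R2_318, R9_331, R1_179⟩]⟩]⟩,
 ⟨nat_lit 6, [⟨nat_lit 3, [⟨nat_lit 6, nat_lit 10080, nat_lit 12144, nat_lit 16272, nat_lit 14304, nat_lit 8928, R1_339, R0_298, R1_186⟩]⟩, ⟨nat_lit 7, [⟨nat_lit 6, nat_lit 15216, nat_lit 12096, nat_lit 22080, nat_lit 8112, nat_lit 10032, R11_460, R0_169, R11_209⟩]⟩]⟩,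
 ⟨nat_lit 7, [⟨nat_lit 0, [⟨nat_lit 7, nat_lit 1728, nat_lit 11664, nat_lit 5664, nat_lit 11424, nat_lit 6192, R2_118, R0_238, R2_129⟩]⟩, ⟨nat_lit 2, [⟨nat_lit 7, nat_lit 6768, nat_lit 11760, nat_lit 4368, nat_lit 14016, nat_lit 4896, R1_91, R0_292, R1_102⟩]⟩, ⟨nat_lit 3, [⟨nat_lit 4, nat_lit 10560, nat_lit 10800, nat_lit 16176, nat_lit 7824, nat_lit 10128, R12_337, R9_163, R2_211⟩, ⟨nat_lit 7, nat_lit 11184, nat_lit 11712, nat_lit 16608, nat_lit 13200, nat_lit 6288, R12_346, R0_275, R12_131⟩]⟩]⟩]], [[], [], [], [], [], [], [], [⟨nat_lit 0, [⟨nat_lit 6, [⟨nat_lit 0, nat_lit 12624, nat_lit 9408, nat_lit 14784, nat_lit 12816, nat_lit 7920, R2_308, R4_267, R2_165⟩, ⟨nat_lit 3, nat_lit 12672, nat_lit 9648, nat_lit 15408, nat_lit 16704, nat_lit 8448, R2_321, R5_348, R1_176⟩]⟩]⟩,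
 ⟨nat_lit 2, [⟨nat_lit 4, [⟨nat_lit 2, nat_lit 11472, nat_lit 1776, nat_lit 5712, nat_lit 11520, nat_lit 6144, R2_119, R10_240, R2_128⟩]⟩, ⟨nat_lit 6, [⟨nat_lit 0, nat_lit 13776, nat_lit 10608, nat_lit 16320, nat_lit 8304, nat_lit 9168, R12_340, R3_173, R2_191⟩, ⟨nat_lit 2, nat_lit 13824, nat_lit 11232, nat_lit 16656, nat_lit 11568, nat_lit 6240, R12_347, R10_241, R12_130⟩, ⟨nat_lit 3, nat_lit 13872, nat_lit 10848, nat_lit 16512, nat_lit 8976, nat_lit 9984, R12_344, R0_187, R1_208⟩]⟩, ⟨nat_lit 7, [⟨nat_lit 2, nat_lit 14352, nat_lit 6816, nat_lit 4416, nat_lit 11616, nat_lit 4848, R1_92, R10_242, R1_101⟩]⟩]⟩,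
 ⟨nat_lit 3, [⟨nat_lit 2, [⟨nat_lit 3, nat_lit 5232, nat_lit 15264, nat_lit 22128, nat_lit 14208, nat_lit 8880, R11_461, R11_296, R11_185⟩, ⟨nat_lit 7, nat_lit 5424, nat_lit 15120, nat_lit 21984, nat_lit 10704, nat_lit 7104, R11_458, R1_223, R1_148⟩]⟩, ⟨nat_lit 6, [⟨nat_lit 3, nat_lit 13968, nat_lit 10128, nat_lit 16416, nat_lit 14256, nat_lit 8880, R1_342, R11_297, R1_185⟩]⟩]⟩,
 ⟨nat_lit 4, [⟨nat_lit 3, [⟨nat_lit 4, nat_lit 9408, nat_lit 12624, nat_lit 14784, nat_lit 12816, nat_lit 7920, R2_308, R4_267, R2_165⟩, ⟨nat_lit 6, nat_lit 9648, nat_lit 12672, nat_lit 15408, nat_lit 16704, nat_lit 8448, R2_321, R5_348, R1_176⟩]⟩]⟩,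
 ⟨nat_lit 6, [⟨nat_lit 3, [⟨nat_lit 6, nat_lit 10128, nat_lit 13968, nat_lit 16416, nat_lit 14256, nat_lit 8880, R1_342, R11_297, R1_185⟩]⟩, ⟨nat_lit 7, [⟨nat_lit 2, nat_lit 15120, nat_lit 5424, nat_lit 21984, nat_lit 10704, nat_lit 7104, R11_458, R1_223, R1_148⟩, ⟨nat_lit 6, nat_lit 15264, nat_lit 5232, nat_lit 22128, nat_lit 14208, nat_lit 8880, R11_461, R11_296, R11_185⟩]⟩]⟩,
 ⟨nat_lit 7, [⟨nat_lit 0, [⟨nat_lit 7, nat_lit 1776, nat_lit 11472, nat_lit 5712, nat_lit 11520, nat_lit 6144, R2_119, R10_240, R2_128⟩]⟩, ⟨nat_lit 2, [⟨nat_lit 7, nat_lit 6816, nat_lit 14352, nat_lit 4416, nat_lit 11616, nat_lit 4848, R1_92, R10_242, R1_101⟩]⟩, ⟨nat_lit 3, [⟨nat_lit 4, nat_lit 10608, nat_lit 13776, nat_lit 16320, nat_lit 8304, nat_lit 9168, R12_340, R3_173, R2_191⟩, ⟨nat_lit 6, nat_lit 10848, nat_lit 13872, nat_lit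 16512, nat_lit 8976, nat_lit 9984, R12_344, R0_187, R1_208⟩, ⟨nat_lit 7, nat_lit 11232, nat_lit 13824, nat_lit 16656, nat_lit 11568, nat_lit 6240, R12_347, R10_241, R12_130⟩]⟩]⟩]], [[], [], [], [⟨nat_lit 3, [⟨nat_lit 2, [⟨nat_lit 4, nat_lit 5280, nat_lit 11328, nat_lit 19728, nat_lit 9408, nat_lit 8112, R11_411, R2_196, R3_169⟩, ⟨nat_lit 5, nat_lit 5328, nat_lit 11376, nat_lit 20112, nat_lit 10224, nat_lit 6144, R11_419, R1_213, R0_128⟩, ⟨nat_lit 7, nat_lit 5520, nat_lit 11424, nat_lit 20016, nat_lit 8976, nat_lit 8064, R11_417, R12_187, R10_168⟩]⟩]⟩,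
 ⟨nat_lit 7, [⟨nat_lit 0, [⟨nat_lit 4, nat_lit 1392, nat_lit 10944, nat_lit 3696, nat_lit 12144, nat_lit 8256, R2_77, R3_253, R13_172⟩, ⟨nat_lit 5, nat_lit 1632, nat_lit 10992, nat_lit 6672, nat_lit 10752, nat_lit 6000, R2_139, R10_224, R9_125⟩, ⟨nat_lit 6, nat_lit 1488, nat_lit 11040, nat_lit 4560, nat_lit 13104, nat_lit 6912, R2_95, R0_273, R3_144⟩]⟩, ⟨nat_lit 2, [⟨nat_lit 4, nat_lit 6528, nat_lit 11232, nat_lit 3168, nat_lit 15600, nat_lit 9264, R1_66, R3_325, R3_193⟩, ⟨nat_lit 5, nat_lit 6672, nat_lit 11280, nat_lit 5376, nat_lit 10944, nat_lit 3840, R1_112, R10_228, R0_80⟩]⟩, ⟨nat_lit 3, [⟨nat_lit 4, nat_lit 10752, nat_lit 11088, nat_lit 16272, nat_lit 14832, nat_lit 14976, R12_339, R3_309, R3_312⟩, ⟨nat_lit 5, nat_lit 11088, nat_lit 11136, nat_lit 16800, nat_lit 11472, nat_lit 13632, R12_350, R10_239,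 R0_284⟩, ⟨nat_lit 6, nat_lit 10944, nat_lit 11184, nat_lit 16464, nat_lit 13248, nat_lit 11328, R12_343, R0_276, R10_236⟩]⟩]⟩]]], [[], [[⟨nat_lit 5, [⟨nat_lit 0, [⟨nat_lit 5, nat_lit 720, nat_lit 2448, nat_lit 1440, nat_lit 9600, nat_lit 3936, R8_30, R1_200, R8_82⟩]⟩, ⟨nat_lit 1, [⟨nat_lit 5, nat_lit 8544, nat_lit 7872, nat_lit 14304, nat_lit 9792, nat_lit 3120, R9_298, R1_204, R9_65⟩]⟩, ⟨nat_lit 2, [⟨nat_lit 5, nat_lit 5952, nat_lit 11760, nat_lit 15216, nat_lit 9696, nat_lit 13680, R5_317, R1_202, R5_285⟩]⟩]⟩], [⟨nat_lit 5, [⟨nat_lit 1, [⟨nat_lit 5, nat_lit 8640, nat_lit 6720, nat_lit 15024, nat_lit 10368, nat_lit 1584, R9_313, R1_216, R0_33⟩]⟩]⟩], [], [⟨nat_lit 5, [⟨nat_lit 0, [⟨nat_lit 5, nat_lit 768, nat_lit 2640, nat_lit 7392, nat_lit 10032, nat_lit 6288, R8_154, R1_209, R9_131⟩]⟩, ⟨nat_lit 2, [⟨nat_lit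 5, nat_lit 6000, nat_lit 11376, nat_lit 15792, nat_lit 10176, nat_lit 4128, R5_329, R1_212, R0_86⟩]⟩]⟩]], [], [], [], [[⟨nat_lit 4, [⟨nat_lit 0, [⟨nat_lit 4, nat_lit 0, nat_lit 1968, nat_lit 8400, nat_lit 12624, nat_lit 384, R6_175, R8_263, R6_8⟩, ⟨nat_lit 5, nat_lit 96, nat_lit 2016, nat_lit 9648, nat_lit 1824, nat_lit 4320, R6_201, R5_38, R8_90⟩, ⟨nat_lit 6, nat_lit 48, nat_lit 2160, nat_lit 9408, nat_lit 2160, nat_lit 288, R6_196, R9_45, R4_6⟩]⟩, ⟨nat_lit 1, [⟨nat_lit 4, nat_lit 7200, nat_lit 7488, nat_lit 5328, nat_lit 16800, nat_lit 17952, R8_111, R8_350, R8_374⟩, ⟨nat_lit 5, nat_lit 7392, nat_lit 7536, nat_lit 5424, nat_lit 2304, nat_lit 3552, R8_113, R5_48, R9_74⟩, ⟨nat_lit 6, nat_lit 7296, nat_lit 7680, nat_lit 5376, nat_lit 2592, nat_lit 3888, R8_112, R9_54, R5_81⟩]⟩, ⟨nat_lit 2, [⟨nat_lit 4, nat_lit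 5568, nat_lit 10896, nat_lit 9024, nat_lit 13536, nat_lit 14352, R4_188, R8_282, R4_299⟩, ⟨nat_lit 5, nat_lit 5616, nat_lit 10944, nat_lit 10608, nat_lit 2016, nat_lit 17568, R4_221, R5_42, R5_366⟩]⟩]⟩,
 ⟨nat_lit 5, [⟨nat_lit 0, [⟨nat_lit 4, nat_lit 576, nat_lit 2448, nat_lit 816, nat_lit 8592, nat_lit 2688, R8_17, R5_179, R6_56⟩, ⟨nat_lit 5, nat_lit 672, nat_lit 2496, nat_lit 960, nat_lit 11040, nat_lit 4368, R8_20, R11_230, R8_91⟩, ⟨nat_lit 6, nat_lit 624, nat_lit 2592, nat_lit 912, nat_lit 624, nat_lit 2592, R8_19, R0_13, R4_54⟩]⟩, ⟨nat_lit 1, [⟨nat_lit 4, nat_lit 8304, nat_lit 7776, nat_lit 4704, nat_lit 10032, nat_lit 18048, R9_98, R5_209, R8_376⟩, ⟨nat_lit 5, nat_lit 8496, nat_lit 7824, nat_lit 4800, nat_lit 12480, nat_lit 3600, R9_100, R11_260, R9_75⟩, ⟨nat_lit 6, nat_lit 8400, nat_lit 7920, nat_lit 4752,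 nat_lit 1056, nat_lit 4176, R9_99, R0_22, R5_87⟩]⟩, ⟨nat_lit 2, [⟨nat_lit 4, nat_lit 5856, nat_lit 11280, nat_lit 5328, nat_lit 9072, nat_lit 15264, R5_111, R5_189, R4_318⟩, ⟨nat_lit 5, nat_lit 5904, nat_lit 11328, nat_lit 5376, nat_lit 11520, nat_lit 17616, R5_112, R11_240, R5_367⟩]⟩]⟩,
 ⟨nat_lit 6, [⟨nat_lit 0, [⟨nat_lit 6, nat_lit 432, nat_lit 2880, nat_lit 1200, nat_lit 11664, nat_lit 864, R4_25, R0_243, R4_18⟩]⟩, ⟨nat_lit 1, [⟨nat_lit 6, nat_lit 8016, nat_lit 8064, nat_lit 192, nat_lit 14496, nat_lit 4032, R5_4, R0_302, R5_84⟩]⟩]⟩], [⟨nat_lit 4, [⟨nat_lit 1, [⟨nat_lit 4, nat_lit 7248, nat_lit 2544, nat_lit 5856, nat_lit 16944, nat_lit 9792, R8_122, R8_353, R5_204⟩, ⟨nat_lit 5, nat_lit 7440, nat_lit 2592, nat_lit 5952, nat_lit 2352, nat_lit 2016, R8_124, R5_49, R0_42⟩, ⟨nat_lit 6, nat_lit 7344, nat_lit 2640,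 nat_lit 5904, nat_lit 2640, nat_lit 3888, R8_123, R9_55, R11_81⟩]⟩]⟩,
 ⟨nat_lit 5, [⟨nat_lit 1, [⟨nat_lit 4, nat_lit 8352, nat_lit 7296, nat_lit 5088, nat_lit 12336, nat_lit 12096, R9_106, R5_257, R5_252⟩, ⟨nat_lit 5, nat_lit 8592, nat_lit 7344, nat_lit 5184, nat_lit 15312, nat_lit 2064, R9_108, R11_319, R0_43⟩, ⟨nat_lit 6, nat_lit 8448, nat_lit 7392, nat_lit 5136, nat_lit 1104, nat_lit 4176, R9_107, R0_23, R11_87⟩]⟩]⟩,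
 ⟨nat_lit 6, [⟨nat_lit 1, [⟨nat_lit 6, nat_lit 8064, nat_lit 10176, nat_lit 5856, nat_lit 14640, nat_lit 4032, R5_122, R0_305, R11_84⟩]⟩]⟩]]], [[[⟨nat_lit 1, [⟨nat_lit 2, [⟨nat_lit 5, nat_lit 3600, nat_lit 6528, nat_lit 5232, nat_lit 1872, nat_lit 2832, R1_109, R3_39, R5_59⟩]⟩]⟩], [], [⟨nat_lit 1, [⟨nat_lit 2, [⟨nat_lit 1, nat_lit 3456, nat_lit 13680, nat_lit 5568, nat_lit 13536, nat_lit 7536, R1_116, R2_282, R1_157⟩, ⟨nat_lit 5, nat_lit 3696, nat_lit 4704, nat_lit 5472, nat_lit 6816, nat_lit 9264, R1_114, R3_142, R11_193⟩]⟩]⟩], [⟨nat_lit 1, [⟨nat_lit 2, [⟨nat_lit 5, nat_lit 3792, nat_lit 9648, nat_lit 5328, nat_lit 8448, nat_lit 6576, R1_111, R3_176, R0_137⟩]⟩]⟩]], [[⟨nat_lit 1, [⟨nat_lit 2, [⟨nat_lit 5, nat_lit 3648, nat_lit 22320, nat_lit 5280, nat_lit 16320, nat_lit 14064, R1_110, R10_340, R5_293⟩]⟩]⟩,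
 ⟨nat_lit 5, [⟨nat_lit 0, [⟨nat_lit 5, nat_lit 816, nat_lit 19296, nat_lit 6384, nat_lit 9648, nat_lit 11904, R5_133, R1_201, R8_248⟩]⟩, ⟨nat_lit 1, [⟨nat_lit 5, nat_lit 8880, nat_lit 20976, nat_lit 13008, nat_lit 9840, nat_lit 12864, R0_271, R1_205, R9_268⟩]⟩, ⟨nat_lit 2, [⟨nat_lit 5, nat_lit 6048, nat_lit 22368, nat_lit 19536, nat_lit 9744, nat_lit 13968, R11_407, R1_203, R5_291⟩]⟩]⟩], [⟨nat_lit 5, [⟨nat_lit 1, [⟨nat_lit 5, nat_lit 8928, nat_lit 16752, nat_lit 13728, nat_lit 10416, nat_lit 11040, R0_286, R1_217, R0_230⟩]⟩]⟩], [⟨nat_lit 1, [⟨nat_lit 2, [⟨nat_lit 1, nat_lit 3504, nat_lit 15456, nat_lit 5616, nat_lit 14880, nat_lit 7632, R1_117, R1_310, R1_159⟩, ⟨nat_lit 5, nat_lit 3744, nat_lit 17184, nat_lit 5520, nat_lit 17904, nat_lit 9312, R1_115, R10_373, R11_194⟩]⟩]⟩,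
 ⟨nat_lit 5, [⟨nat_lit 0, [⟨nat_lit 5, nat_lit 864, nat_lit 15840, nat_lit 7248, nat_lit 9888, nat_lit 7632, R5_151, R1_206, R5_159⟩]⟩, ⟨nat_lit 1, [⟨nat_lit 5, nat_lit 8976, nat_lit 16512, nat_lit 13872, nat_lit 9984, nat_lit 10848, R0_289, R1_208, R0_226⟩]⟩, ⟨nat_lit 2, [⟨nat_lit 5, nat_lit 6096, nat_lit 17136, nat_lit 20736, nat_lit 9936, nat_lit 7248, R11_432, R1_207, R11_151⟩]⟩]⟩], [⟨nat_lit 1, [⟨nat_lit 2, [⟨nat_lit 5, nat_lit 3840, nat_lit 11280, nat_lit 5376, nat_lit 17232, nat_lit 6672, R1_112, R10_359, R0_139⟩]⟩]⟩,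
 ⟨nat_lit 5, [⟨nat_lit 0, [⟨nat_lit 5, nat_lit 912, nat_lit 1680, nat_lit 6816, nat_lit 10080, nat_lit 7488, R5_142, R1_210, R9_156⟩]⟩, ⟨nat_lit 2, [⟨nat_lit 5, nat_lit 6144, nat_lit 11376, nat_lit 20112, nat_lit 10224, nat_lit 5328, R11_419, R1_213, R0_111⟩]⟩]⟩]], [[], [], [⟨nat_lit 1, [⟨nat_lit 2, [⟨nat_lit 1, nat_lit 3552, nat_lit 15024, nat_lit 5664, nat_lit 14880, nat_lit 7584, R1_118, R12_310, R1_158⟩]⟩]⟩]], [[], [], [], [⟨nat_lit 1, [⟨nat_lit 2, [⟨nat_lit 5, nat_lit 3888, nat_lit 10464, nat_lit 5424, nat_lit 8832, nat_lit 6624, R1_113, R0_184, R0_138⟩]⟩]⟩]]], [[], [[], [⟨nat_lit 5, [⟨nat_lit 1, [⟨nat_lit 5, nat_lit 8832, nat_lit 5424, nat_lit 3888, nat_lit 10464, nat_lit 6624, R0_81, R1_218, R0_138⟩]⟩]⟩]], [], [], [], [[], [⟨nat_lit 4, [⟨nat_lit 1, [⟨nat_lit 4, nat_lit 7488, nat_lit 11808, nat_lit 16992,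 nat_lit 17472, nat_lit 9888, R5_354, R8_364, R5_206⟩, ⟨nat_lit 5, nat_lit 7584, nat_lit 11856, nat_lit 17712, nat_lit 13536, nat_lit 7056, R5_369, R5_282, R0_147⟩, ⟨nat_lit 6, nat_lit 7536, nat_lit 11904, nat_lit 17376, nat_lit 11568, nat_lit 9888, R5_362, R9_241, R11_206⟩]⟩]⟩,
 ⟨nat_lit 5, [⟨nat_lit 1, [⟨nat_lit 4, nat_lit 8688, nat_lit 11952, nat_lit 3264, nat_lit 12384, nat_lit 12144, R0_68, R5_258, R5_253⟩, ⟨nat_lit 5, nat_lit 8784, nat_lit 12000, nat_lit 3408, nat_lit 15360, nat_lit 7104, R0_71, R11_320, R0_148⟩, ⟨nat_lit 6, nat_lit 8736, nat_lit 12048, nat_lit 3360, nat_lit 10368, nat_lit 10176, R0_70, R0_216, R11_212⟩]⟩]⟩,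
 ⟨nat_lit 6, [⟨nat_lit 1, [⟨nat_lit 6, nat_lit 8112, nat_lit 12096, nat_lit 22080, nat_lit 15216, nat_lit 10032, R11_460, R0_317, R11_209⟩]⟩, ⟨nat_lit 5, [⟨nat_lit 6, nat_lit 14304, nat_lit 12144, nat_lit 16272, nat_lit 10080, nat_lit 8928, R1_339, R0_210, R1_186⟩]⟩]⟩], [], [], [], [⟨nat_lit 6, [⟨nat_lit 5, [⟨nat_lit 6, nat_lit 14256, nat_lit 10848, nat_lit 16224, nat_lit 10224, nat_lit 18816, R1_338, R0_213, R10_392⟩]⟩]⟩]]], [[], [[], [], [], [⟨nat_lit 5, [⟨nat_lit 0, [⟨nat_lit 5, nat_lit 1248, nat_lit 2112, nat_lit 6864, nat_lit 10128, nat_lit 7104, R9_143, R1_211, R9_148⟩]⟩, ⟨nat_lit 2, [⟨nat_lit 5, nat_lit 6384, nat_lit 11952, nat_lit 4704, nat_lit 10272, nat_lit 4944, R0_98, R1_214, R0_103⟩]⟩, ⟨nat_lit 3, [⟨nat_lit 5, nat_lit 10464, nat_lit 7488, nat_lit 4560, nat_lit 10320, nat_lit 5088, R0_95, R1_215,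 R0_106⟩]⟩]⟩]], [], [], [], [[⟨nat_lit 4, [⟨nat_lit 0, [⟨nat_lit 4, nat_lit 144, nat_lit 1104, nat_lit 20064, nat_lit 12768, nat_lit 5232, R13_418, R8_266, R6_109⟩, ⟨nat_lit 5, nat_lit 336, nat_lit 2256, nat_lit 21648, nat_lit 10272, nat_lit 9168, R13_451, R5_214, R8_191⟩, ⟨nat_lit 6, nat_lit 240, nat_lit 3504, nat_lit 20880, nat_lit 8880, nat_lit 5520, R13_435, R9_185, R4_115⟩]⟩, ⟨nat_lit 1, [⟨nat_lit 4, nat_lit 7632, nat_lit 9456, nat_lit 16416, nat_lit 17088, nat_lit 18768, R9_342, R8_356, R8_391⟩, ⟨nat_lit 5, nat_lit 7920, nat_lit 11088, nat_lit 18048, nat_lit 11136, nat_lit 10032, R9_376, R5_232, R9_209⟩, ⟨nat_lit 6, nat_lit 7776, nat_lit 11712, nat_lit 17280, nat_lit 9648, nat_lit 12240, R9_360, R9_201, R5_255⟩]⟩, ⟨nat_lit 2, [⟨nat_lit 4, nat_lit 5664, nat_lit 13152, nat_lit 16464, nat_lit 13824, nat_lit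 14496, R3_343, R8_288, R4_302⟩, ⟨nat_lit 5, nat_lit 5760, nat_lit 13488, nat_lit 17760, nat_lit 10752, nat_lit 17664, R3_370, R5_224, R5_368⟩]⟩]⟩,
 ⟨nat_lit 5, [⟨nat_lit 0, [⟨nat_lit 4, nat_lit 960, nat_lit 1728, nat_lit 3840, nat_lit 8640, nat_lit 7248, R9_80, R5_180, R6_151⟩, ⟨nat_lit 5, nat_lit 1152, nat_lit 2496, nat_lit 6144, nat_lit 11088, nat_lit 9264, R9_128, R11_231, R8_193⟩, ⟨nat_lit 6, nat_lit 1056, nat_lit 4176, nat_lit 4752, nat_lit 8400, nat_lit 7920, R9_99, R0_175, R4_165⟩]⟩, ⟨nat_lit 2, [⟨nat_lit 4, nat_lit 6192, nat_lit 13440, nat_lit 2304, nat_lit 9120, nat_lit 15408, R0_48, R5_190, R4_321⟩, ⟨nat_lit 5, nat_lit 6288, nat_lit 13584, nat_lit 3984, nat_lit 11568, nat_lit 17760, R0_83, R11_241, R5_370⟩]⟩]⟩,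
 ⟨nat_lit 6, [⟨nat_lit 0, [⟨nat_lit 6, nat_lit 480, nat_lit 4272, nat_lit 4608, nat_lit 11904, nat_lit 7248, R3_96, R0_248, R4_151⟩]⟩, ⟨nat_lit 1, [⟨nat_lit 6, nat_lit 8160, nat_lit 12624, nat_lit 14880, nat_lit 14784, nat_lit 12480, R0_310, R0_308, R5_260⟩]⟩]⟩,
 ⟨nat_lit 7, [⟨nat_lit 0, [⟨nat_lit 4, nat_lit 1920, nat_lit 1392, nat_lit 480, nat_lit 8208, nat_lit 6576, R3_10, R9_171, R6_137⟩, ⟨nat_lit 5, nat_lit 2016, nat_lit 2352, nat_lit 2592, nat_lit 7440, nat_lit 9216, R3_54, R0_155, R8_192⟩]⟩, ⟨nat_lit 1, [⟨nat_lit 4, nat_lit 9024, nat_lit 9840, nat_lit 7680, nat_lit 8736, nat_lit 18864, R0_160, R9_182, R8_393⟩, ⟨nat_lit 5, nat_lit 9168, nat_lit 11184, nat_lit 9072, nat_lit 7968, nat_lit 10080, R0_189, R0_166, R9_210⟩]⟩, ⟨nat_lit 2, [⟨nat_lit 4, nat_lit 6960, nat_lit 13296, nat_lit 3120, nat_lit 8352, nat_lit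 14832, R10_65, R9_174, R4_309⟩, ⟨nat_lit 5, nat_lit 7056, nat_lit 13536, nat_lit 5808, nat_lit 7584, nat_lit 17712, R10_121, R0_158, R5_369⟩]⟩]⟩], [⟨nat_lit 4, [⟨nat_lit 1, [⟨nat_lit 4, nat_lit 7680, nat_lit 9024, nat_lit 16512, nat_lit 17376, nat_lit 9840, R9_344, R8_362, R5_205⟩, ⟨nat_lit 5, nat_lit 7968, nat_lit 9072, nat_lit 18096, nat_lit 11184, nat_lit 9168, R9_377, R5_233, R0_191⟩, ⟨nat_lit 6, nat_lit 7824, nat_lit 9120, nat_lit 17376, nat_lit 9744, nat_lit 15216, R9_362, R9_203, R11_317⟩]⟩]⟩,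
 ⟨nat_lit 6, [⟨nat_lit 1, [⟨nat_lit 6, nat_lit 8208, nat_lit 9264, nat_lit 14976, nat_lit 15072, nat_lit 15456, R0_312, R0_314, R11_322⟩]⟩]⟩,
 ⟨nat_lit 7, [⟨nat_lit 1, [⟨nat_lit 4, nat_lit 9072, nat_lit 9168, nat_lit 7968, nat_lit 10080, nat_lit 11184, R0_166, R9_210, R5_233⟩, ⟨nat_lit 5, nat_lit 9216, nat_lit 9216, nat_lit 9216, nat_lit 9216, nat_lit 9216, R0_192, R0_192, R0_192⟩]⟩]⟩], [], [⟨nat_lit 4, [⟨nat_lit 0, [⟨nat_lit 4, nat_lit 192, nat_lit 14304, nat_lit 20112, nat_lit 12912, nat_lit 5856, R13_419, R8_269, R13_122⟩, ⟨nat_lit 5, nat_lit 384, nat_lit 14496, nat_lit 21696, nat_lit 10320, nat_lit 4560, R13_452, R5_215, R9_95⟩, ⟨nat_lit 6, nat_lit 288, nat_lit 14640, nat_lit 20928, nat_lit 8928, nat_lit 4128, R13_436, R9_186, R3_86⟩]⟩, ⟨nat_lit 1, [⟨nat_lit 4, nat_lit 7728, nat_lit 14352, nat_lit 16464,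 nat_lit 17232, nat_lit 8640, R9_343, R8_359, R9_180⟩, ⟨nat_lit 6, nat_lit 7872, nat_lit 14688, nat_lit 17328, nat_lit 9696, nat_lit 7872, R9_361, R9_202, R0_164⟩]⟩, ⟨nat_lit 2, [⟨nat_lit 4, nat_lit 5712, nat_lit 14448, nat_lit 16512, nat_lit 13968, nat_lit 8784, R3_344, R8_291, R3_183⟩, ⟨nat_lit 5, nat_lit 5808, nat_lit 14592, nat_lit 17808, nat_lit 10800, nat_lit 3024, R3_371, R5_225, R0_63⟩]⟩, ⟨nat_lit 3, [⟨nat_lit 4, nat_lit 9888, nat_lit 14400, nat_lit 8736, nat_lit 14640, nat_lit 16608, R3_182, R8_305, R3_346⟩, ⟨nat_lit 5, nat_lit 9984, nat_lit 14544, nat_lit 9552, nat_lit 10560, nat_lit 2784, R3_199, R5_220, R0_58⟩, ⟨nat_lit 6, nat_lit 9936, nat_lit 14736, nat_lit 9360, nat_lit 9216, nat_lit 9744, R3_195, R9_192, R10_203⟩]⟩]⟩,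
 ⟨nat_lit 5, [⟨nat_lit 0, [⟨nat_lit 4, nat_lit 1008, nat_lit 14784, nat_lit 4272, nat_lit 10416, nat_lit 9312, R9_89, R5_217, R13_194⟩, ⟨nat_lit 5, nat_lit 1200, nat_lit 14928, nat_lit 6816, nat_lit 13680, nat_lit 7152, R9_142, R11_285, R9_149⟩, ⟨nat_lit 6, nat_lit 1104, nat_lit 15072, nat_lit 5136, nat_lit 8448, nat_lit 7392, R9_107, R0_176, R3_154⟩]⟩, ⟨nat_lit 2, [⟨nat_lit 4, nat_lit 6240, nat_lit 14880, nat_lit 2736, nat_lit 10608, nat_lit 9600, R0_57, R5_221, R3_200⟩, ⟨nat_lit 5, nat_lit 6336, nat_lit 15024, nat_lit 4656, nat_lit 13872, nat_lit 4992, R0_97, R11_289, R0_104⟩]⟩, ⟨nat_lit 3, [⟨nat_lit 4, nat_lit 10320, nat_lit 14832, nat_lit 2976, nat_lit 10896, nat_lit 17904, R0_62, R5_227, R3_373⟩, ⟨nat_lit 5, nat_lit 10416, nat_lit 14976, nat_lit 4896, nat_lit 14160, nat_lit 4752, R0_102, R11_295, R0_99⟩,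 ⟨nat_lit 6, nat_lit 10368, nat_lit 15120, nat_lit 3360, nat_lit 8736, nat_lit 12048, R0_70, R0_182, R10_251⟩]⟩]⟩,
 ⟨nat_lit 6, [⟨nat_lit 0, [⟨nat_lit 6, nat_lit 528, nat_lit 15552, nat_lit 5280, nat_lit 12048, nat_lit 5856, R3_110, R0_251, R3_122⟩]⟩, ⟨nat_lit 1, [⟨nat_lit 6, nat_lit 8256, nat_lit 15600, nat_lit 14928, nat_lit 14928, nat_lit 8256, R0_311, R0_311, R0_172⟩]⟩, ⟨nat_lit 3, [⟨nat_lit 6, nat_lit 10272, nat_lit 15648, nat_lit 19872, nat_lit 14160, nat_lit 10320, R10_414, R0_295, R10_215⟩]⟩]⟩,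
 ⟨nat_lit 7, [⟨nat_lit 0, [⟨nat_lit 4, nat_lit 1968, nat_lit 15168, nat_lit 4080, nat_lit 9072, nat_lit 7584, R3_85, R9_189, R13_158⟩, ⟨nat_lit 5, nat_lit 2064, nat_lit 15312, nat_lit 7344, nat_lit 8592, nat_lit 5568, R3_153, R0_179, R9_116⟩, ⟨nat_lit 7, nat_lit 2112, nat_lit 15408, nat_lit 5808, nat_lit 12096, nat_lit 5376, R3_121, R0_252, R3_112⟩]⟩, ⟨nat_lit 1, [⟨nat_lit 4, nat_lit 9120, nat_lit 15216, nat_lit 7824, nat_lit 9840, nat_lit 9744, R0_163, R9_205, R9_203⟩, ⟨nat_lit 7, nat_lit 9264, nat_lit 15456, nat_lit 8208, nat_lit 14976, nat_lit 15072, R0_171, R0_312, R0_314⟩]⟩, ⟨nat_lit 2, [⟨nat_lit 4, nat_lit 7008, nat_lit 15264, nat_lit 3744, nat_lit 9264, nat_lit 9408, R10_78, R9_193, R3_196⟩, ⟨nat_lit 5, nat_lit 7104, nat_lit 15360, nat_lit 6288, nat_lit 8784, nat_lit 3408, R10_131, R0_183, R0_71⟩, ⟨nat_lit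 7, nat_lit 7152, nat_lit 15504, nat_lit 4416, nat_lit 14208, nat_lit 4992, R10_92, R0_296, R10_104⟩]⟩]⟩]]]]
noncomputable def N1413 : T3 (List N0) := [[], [], [], [], [[], [[⟨nat_lit 0, [⟨nat_lit 3, [⟨nat_lit 2, nat_lit 14400, nat_lit 8736, nat_lit 12288, nat_lit 11088, nat_lit 2544, R6_256, R3_231, R5_53⟩]⟩]⟩,
 ⟨nat_lit 2, [⟨nat_lit 0, [⟨nat_lit 2, nat_lit 12144, nat_lit 2928, nat_lit 14112, nat_lit 14928, nat_lit 384, R6_294, R10_311, R4_8⟩, ⟨nat_lit 6, nat_lit 12000, nat_lit 2880, nat_lit 14160, nat_lit 13200, nat_lit 576, R6_295, R1_275, R7_12⟩]⟩, ⟨nat_lit 2, [⟨nat_lit 6, nat_lit 13728, nat_lit 12336, nat_lit 13920, nat_lit 13248, nat_lit 12624, R4_290, R1_276, R14_263⟩]⟩, ⟨nat_lit 3, [⟨nat_lit 2, nat_lit 14976, nat_lit 9024, nat_lit 13056, nat_lit 14976, nat_lit 2928, R8_272, R10_312, R5_61⟩]⟩]⟩,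
 ⟨nat_lit 3, [⟨nat_lit 3, [⟨nat_lit 2, nat_lit 15552, nat_lit 8928, nat_lit 12528, nat_lit 12336, nat_lit 2736, R4_261, R0_257, R5_57⟩]⟩]⟩,
 ⟨nat_lit 6, [⟨nat_lit 2, [⟨nat_lit 4, nat_lit 12480, nat_lit 12144, nat_lit 13872, nat_lit 14832, nat_lit 11808, R7_289, R5_309, R7_246⟩, ⟨nat_lit 6, nat_lit 12576, nat_lit 12192, nat_lit 13920, nat_lit 18384, nat_lit 12576, R7_290, R11_383, R14_262⟩]⟩]⟩], [⟨nat_lit 0, [⟨nat_lit 3, [⟨nat_lit 2, nat_lit 14496, nat_lit 7632, nat_lit 12528, nat_lit 11280, nat_lit 9456, R6_261, R3_235, R0_197⟩]⟩]⟩,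
 ⟨nat_lit 2, [⟨nat_lit 0, [⟨nat_lit 2, nat_lit 12240, nat_lit 1056, nat_lit 14256, nat_lit 15072, nat_lit 3696, R6_297, R10_314, R3_77⟩, ⟨nat_lit 6, nat_lit 12048, nat_lit 1008, nat_lit 14304, nat_lit 13440, nat_lit 0, R6_298, R1_280, R2_0⟩]⟩, ⟨nat_lit 2, [⟨nat_lit 6, nat_lit 13776, nat_lit 10944, nat_lit 13968, nat_lit 13488, nat_lit 9888, R4_291, R1_281, R12_206⟩]⟩, ⟨nat_lit 3, [⟨nat_lit 2, nat_lit 15072, nat_lit 8112, nat_lit 13200, nat_lit 15120, nat_lit 9696, R8_275, R10_315, R0_202⟩]⟩]⟩,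
 ⟨nat_lit 3, [⟨nat_lit 3, [⟨nat_lit 2, nat_lit 15600, nat_lit 7968, nat_lit 12864, nat_lit 12480, nat_lit 9792, R4_268, R0_260, R0_204⟩]⟩]⟩,
 ⟨nat_lit 6, [⟨nat_lit 2, [⟨nat_lit 6, nat_lit 12624, nat_lit 10704, nat_lit 13968, nat_lit 18816, nat_lit 9840, R7_291, R11_392, R12_205⟩]⟩]⟩], [], [⟨nat_lit 0, [⟨nat_lit 3, [⟨nat_lit 2, nat_lit 14592, nat_lit 3216, nat_lit 12672, nat_lit 11184, nat_lit 2544, R6_264, R3_233, R11_53⟩]⟩]⟩,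
 ⟨nat_lit 2, [⟨nat_lit 0, [⟨nat_lit 6, nat_lit 12096, nat_lit 672, nat_lit 14352, nat_lit 13296, nat_lit 1728, R6_299, R1_277, R2_36⟩]⟩, ⟨nat_lit 2, [⟨nat_lit 6, nat_lit 13824, nat_lit 10320, nat_lit 14016, nat_lit 13344, nat_lit 2160, R4_292, R1_278, R12_45⟩]⟩, ⟨nat_lit 3, [⟨nat_lit 2, nat_lit 15168, nat_lit 6432, nat_lit 13296, nat_lit 15024, nat_lit 2928, R8_277, R10_313, R11_61⟩, ⟨nat_lit 6, nat_lit 14928, nat_lit 6480, nat_lit 13344, nat_lit 13392, nat_lit 1200, R8_278, R1_279, R1_25⟩]⟩]⟩,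
 ⟨nat_lit 3, [⟨nat_lit 3, [⟨nat_lit 2, nat_lit 15648, nat_lit 4080, nat_lit 13008, nat_lit 12384, nat_lit 2736, R4_271, R0_258, R11_57⟩]⟩, ⟨nat_lit 7, [⟨nat_lit 0, nat_lit 11568, nat_lit 12528, nat_lit 14016, nat_lit 15312, nat_lit 10992, R7_292, R5_319, R2_229⟩, ⟨nat_lit 2, nat_lit 11616, nat_lit 12720, nat_lit 14112, nat_lit 12432, nat_lit 11568, R7_294, R0_259, R1_241⟩, ⟨nat_lit 3, nat_lit 11664, nat_lit 12672, nat_lit 14064, nat_lit 18624, nat_lit 1872, R7_293, R11_388, R12_39⟩]⟩]⟩,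
 ⟨nat_lit 4, [⟨nat_lit 6, [⟨nat_lit 7, nat_lit 3216, nat_lit 14592, nat_lit 12672, nat_lit 11184, nat_lit 2544, R6_264, R3_233, R11_53⟩]⟩]⟩,
 ⟨nat_lit 6, [⟨nat_lit 2, [⟨nat_lit 4, nat_lit 12528, nat_lit 11568, nat_lit 14016, nat_lit 15312, nat_lit 10992, R7_292, R5_319, R2_229⟩, ⟨nat_lit 6, nat_lit 12672, nat_lit 11664, nat_lit 14064, nat_lit 18624, nat_lit 1872, R7_293, R11_388, R12_39⟩, ⟨nat_lit 7, nat_lit 12720, nat_lit 11616, nat_lit 14112, nat_lit 12432, nat_lit 11568, R7_294, R0_259, R1_241⟩]⟩, ⟨nat_lit 6, [⟨nat_lit 7, nat_lit 4080, nat_lit 15648, nat_lit 13008, nat_lit 12384, nat_lit 2736, R4_271, R0_258, R11_57⟩]⟩]⟩,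
 ⟨nat_lit 7, [⟨nat_lit 4, [⟨nat_lit 3, nat_lit 672, nat_lit 12096, nat_lit 14352, nat_lit 13296, nat_lit 1728, R6_299, R1_277, R2_36⟩]⟩, ⟨nat_lit 6, [⟨nat_lit 3, nat_lit 6480, nat_lit 14928, nat_lit 13344, nat_lit 13392, nat_lit 1200, R8_278, R1_279, R1_25⟩, ⟨nat_lit 7, nat_lit 6432, nat_lit 15168, nat_lit 13296, nat_lit 15024, nat_lit 2928, R8_277, R10_313, R11_61⟩]⟩, ⟨nat_lit 7, [⟨nat_lit 3, nat_lit 10320, nat_lit 13824, nat_lit 14016, nat_lit 13344, nat_lit 2160, R4_292, R1_278, R12_45⟩]⟩]⟩]], [], [], [], [[⟨nat_lit 0, [⟨nat_lit 3, [⟨nat_lit 2, nat_lit 14448, nat_lit 8832, nat_lit 12864, nat_lit 7536, nat_lit 432, R6_268, R2_157, R5_9⟩]⟩]⟩,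
 ⟨nat_lit 2, [⟨nat_lit 0, [⟨nat_lit 2, nat_lit 12192, nat_lit 3264, nat_lit 14064, nat_lit 96, nat_lit 432, R6_293, R1_2, R4_9⟩]⟩, ⟨nat_lit 3, [⟨nat_lit 2, nat_lit 15024, nat_lit 9168, nat_lit 13440, nat_lit 8064, nat_lit 528, R8_280, R1_168, R5_11⟩]⟩]⟩], [⟨nat_lit 0, [⟨nat_lit 3, [⟨nat_lit 2, nat_lit 14544, nat_lit 11328, nat_lit 13296, nat_lit 7584, nat_lit 9312, R6_277, R2_158, R0_194⟩]⟩]⟩,
 ⟨nat_lit 2, [⟨nat_lit 0, [⟨nat_lit 2, nat_lit 12288, nat_lit 15984, nat_lit 14208, nat_lit 144, nat_lit 3648, R6_296, R1_3, R3_76⟩]⟩, ⟨nat_lit 3, [⟨nat_lit 2, nat_lit 15120, nat_lit 16320, nat_lit 13728, nat_lit 8112, nat_lit 9552, R8_286, R1_169, R0_199⟩]⟩]⟩]]], [[[⟨nat_lit 4, [⟨nat_lit 6, [⟨nat_lit 4, nat_lit 3264, nat_lit 3456, nat_lit 17568, nat_lit 1728, nat_lit 2208, R13_366, R6_36, R4_46⟩, ⟨nat_lit 7, nat_lit 3552,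 nat_lit 9600, nat_lit 17616, nat_lit 16368, nat_lit 2592, R13_367, R13_341, R5_54⟩]⟩]⟩,
 ⟨nat_lit 5, [⟨nat_lit 6, [⟨nat_lit 4, nat_lit 4752, nat_lit 3936, nat_lit 13104, nat_lit 1632, nat_lit 2928, R3_273, R4_34, R4_61⟩, ⟨nat_lit 7, nat_lit 4944, nat_lit 10944, nat_lit 13152, nat_lit 12432, nat_lit 3168, R3_274, R3_259, R5_66⟩]⟩]⟩,
 ⟨nat_lit 6, [⟨nat_lit 2, [⟨nat_lit 4, nat_lit 12816, nat_lit 4272, nat_lit 12816, nat_lit 1008, nat_lit 2592, R2_267, R8_21, R7_54⟩, ⟨nat_lit 6, nat_lit 13152, nat_lit 12720, nat_lit 12864, nat_lit 14880, nat_lit 14112, R2_268, R5_310, R14_294⟩]⟩, ⟨nat_lit 6, [⟨nat_lit 4, nat_lit 4128, nat_lit 4416, nat_lit 6384, nat_lit 672, nat_lit 2640, R3_133, R8_14, R4_55⟩, ⟨nat_lit 7, nat_lit 4416, nat_lit 11280, nat_lit 6624, nat_lit 14064, nat_lit 3024, R3_138, R9_293, R5_63⟩]⟩]⟩,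
 ⟨nat_lit 7, [⟨nat_lit 6, [⟨nat_lit 7, nat_lit 6528, nat_lit 10464, nat_lit 14592, nat_lit 1776, nat_lit 2784, R9_304, R3_37, R5_58⟩]⟩]⟩], [], [⟨nat_lit 4, [⟨nat_lit 6, [⟨nat_lit 4, nat_lit 3360, nat_lit 1776, nat_lit 17712, nat_lit 7872, nat_lit 2064, R13_369, R6_164, R3_43⟩, ⟨nat_lit 7, nat_lit 3648, nat_lit 8640, nat_lit 17760, nat_lit 17040, nat_lit 1296, R13_370, R13_355, R0_27⟩]⟩]⟩,
 ⟨nat_lit 5, [⟨nat_lit 6, [⟨nat_lit 4, nat_lit 4800, nat_lit 2304, nat_lit 13248, nat_lit 8352, nat_lit 9696, R3_276, R4_174, R3_202⟩, ⟨nat_lit 7, nat_lit 4992, nat_lit 9936, nat_lit 13296, nat_lit 12864, nat_lit 1824, R3_277, R3_268, R0_38⟩]⟩]⟩,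
 ⟨nat_lit 6, [⟨nat_lit 2, [⟨nat_lit 4, nat_lit 12912, nat_lit 2688, nat_lit 13056, nat_lit 6144, nat_lit 720, R2_272, R8_128, R2_15⟩, ⟨nat_lit 6, nat_lit 13296, nat_lit 11424, nat_lit 13104, nat_lit 15360, nat_lit 10080, R2_273, R5_320, R12_210⟩]⟩, ⟨nat_lit 6, [⟨nat_lit 4, nat_lit 4224, nat_lit 2832, nat_lit 6480, nat_lit 6048, nat_lit 7008, R3_135, R8_126, R3_146⟩, ⟨nat_lit 7, nat_lit 4512, nat_lit 10176, nat_lit 6864, nat_lit 14400, nat_lit 1440, R3_143, R9_300, R0_30⟩]⟩]⟩,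
 ⟨nat_lit 7, [⟨nat_lit 6, [⟨nat_lit 7, nat_lit 6624, nat_lit 9552, nat_lit 14736, nat_lit 8352, nat_lit 1536, R9_307, R3_174, R0_32⟩]⟩]⟩], [⟨nat_lit 4, [⟨nat_lit 6, [⟨nat_lit 7, nat_lit 3792, nat_lit 3792, nat_lit 17664, nat_lit 17664, nat_lit 2592, R13_368, R13_368, R11_54⟩]⟩]⟩,
 ⟨nat_lit 5, [⟨nat_lit 6, [⟨nat_lit 7, nat_lit 5088, nat_lit 5088, nat_lit 13200, nat_lit 13200, nat_lit 3168, R3_275, R3_275, R11_66⟩]⟩]⟩,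
 ⟨nat_lit 6, [⟨nat_lit 2, [⟨nat_lit 4, nat_lit 13056, nat_lit 720, nat_lit 12912, nat_lit 6912, nat_lit 2688, R2_269, R8_144, R2_56⟩, ⟨nat_lit 6, nat_lit 13440, nat_lit 10368, nat_lit 12960, nat_lit 15840, nat_lit 9648, R2_270, R5_330, R12_201⟩, ⟨nat_lit 7, nat_lit 13584, nat_lit 6864, nat_lit 13008, nat_lit 14688, nat_lit 2160, R2_271, R9_306, R1_45⟩]⟩, ⟨nat_lit 6, [⟨nat_lit 7, nat_lit 4608, nat_lit 6768, nat_lit 6720, nat_lit 14640, nat_lit 2784, R3_140, R9_305, R11_58⟩]⟩]⟩,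
 ⟨nat_lit 7, [⟨nat_lit 4, [⟨nat_lit 3, nat_lit 720, nat_lit 13056, nat_lit 6912, nat_lit 12912, nat_lit 2688, R8_144, R2_269, R2_56⟩]⟩, ⟨nat_lit 6, [⟨nat_lit 3, nat_lit 6864, nat_lit 13584, nat_lit 14688, nat_lit 13008, nat_lit 2160, R9_306, R2_271, R1_45⟩, ⟨nat_lit 7, nat_lit 6768, nat_lit 4608, nat_lit 14640, nat_lit 6720, nat_lit 3024, R9_305, R3_140, R11_63⟩]⟩, ⟨nat_lit 7, [⟨nat_lit 3, nat_lit 10368, nat_lit 13440, nat_lit 15840, nat_lit 12960, nat_lit 2208, R5_330, R2_270, R12_46⟩]⟩]⟩]], [[⟨nat_lit 4, [⟨nat_lit 6, [⟨nat_lit 4, nat_lit 3312, nat_lit 11520, nat_lit 17808, nat_lit 9264, nat_lit 11088, R13_371, R4_193, R4_231⟩, ⟨nat_lit 7, nat_lit 3600, nat_lit 11856, nat_lit 17856, nat_lit 12048, nat_lit 13824, R13_372, R3_251, R5_288⟩]⟩]⟩,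
 ⟨nat_lit 6, [⟨nat_lit 2, [⟨nat_lit 4, nat_lit 12864, nat_lit 13824, nat_lit 13152, nat_lit 14880, nat_lit 11904, R2_274, R5_310, R7_248⟩, ⟨nat_lit 6, nat_lit 13200, nat_lit 14400, nat_lit 13200, nat_lit 19200, nat_lit 14832, R2_275, R11_400, R14_309⟩]⟩, ⟨nat_lit 6, [⟨nat_lit 4, nat_lit 4176, nat_lit 11568, nat_lit 6432, nat_lit 5232, nat_lit 11424, R3_134, R5_109, R4_238⟩, ⟨nat_lit 7, nat_lit 4464, nat_lit 11952, nat_lit 6672, nat_lit 12768, nat_lit 14160, R3_139, R0_266, R5_295⟩]⟩]⟩,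
 ⟨nat_lit 7, [⟨nat_lit 6, [⟨nat_lit 7, nat_lit 6576, nat_lit 11904, nat_lit 14784, nat_lit 15792, nat_lit 14016, R9_308, R10_329, R5_292⟩]⟩]⟩], [⟨nat_lit 6, [⟨nat_lit 2, [⟨nat_lit 6, nat_lit 13248, nat_lit 11472, nat_lit 13248, nat_lit 20352, nat_lit 11904, R2_276, R11_424, R12_248⟩]⟩]⟩], [⟨nat_lit 4, [⟨nat_lit 6, [⟨nat_lit 4, nat_lit 3408, nat_lit 10224, nat_lit 17952, nat_lit 9408, nat_lit 2784, R13_374, R4_196, R3_58⟩, ⟨nat_lit 7, nat_lit 3696, nat_lit 10944, nat_lit 18000, nat_lit 12144, nat_lit 1392, R13_375, R3_253, R0_29⟩]⟩]⟩,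
 ⟨nat_lit 6, [⟨nat_lit 2, [⟨nat_lit 4, nat_lit 12960, nat_lit 9648, nat_lit 13440, nat_lit 15840, nat_lit 10368, R2_280, R5_330, R2_216⟩, ⟨nat_lit 6, nat_lit 13344, nat_lit 11520, nat_lit 13488, nat_lit 19680, nat_lit 12144, R2_281, R11_410, R12_253⟩]⟩, ⟨nat_lit 6, [⟨nat_lit 4, nat_lit 4272, nat_lit 10272, nat_lit 6528, nat_lit 5424, nat_lit 7536, R3_136, R5_113, R3_157⟩, ⟨nat_lit 7, nat_lit 4560, nat_lit 11040, nat_lit 6912, nat_lit 13104, nat_lit 1488, R3_144, R0_273, R0_31⟩]⟩]⟩,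
 ⟨nat_lit 7, [⟨nat_lit 6, [⟨nat_lit 7, nat_lit 6672, nat_lit 10992, nat_lit 14928, nat_lit 16656, nat_lit 1632, R9_311, R10_347, R0_34⟩]⟩]⟩], [⟨nat_lit 4, [⟨nat_lit 6, [⟨nat_lit 7, nat_lit 3840, nat_lit 16848, nat_lit 17904, nat_lit 12096, nat_lit 2688, R13_373, R3_252, R11_56⟩]⟩]⟩,
 ⟨nat_lit 6, [⟨nat_lit 2, [⟨nat_lit 4, nat_lit 13104, nat_lit 10080, nat_lit 13296, nat_lit 15360, nat_lit 11424, R2_277, R5_320, R2_238⟩, ⟨nat_lit 6, nat_lit 13488, nat_lit 12144, nat_lit 13344, nat_lit 20160, nat_lit 11520, R2_278, R11_420, R12_240⟩, ⟨nat_lit 7, nat_lit 13632, nat_lit 10752, nat_lit 13392, nat_lit 13392, nat_lit 12000, R2_279, R0_279, R1_250⟩]⟩, ⟨nat_lit 6, [⟨nat_lit 7, nat_lit 4656, nat_lit 17280, nat_lit 6768, nat_lit 13344, nat_lit 2880, R3_141, R0_278, R11_60⟩]⟩]⟩,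
 ⟨nat_lit 7, [⟨nat_lit 4, [⟨nat_lit 3, nat_lit 768, nat_lit 12576, nat_lit 7008, nat_lit 14256, nat_lit 2784, R8_146, R1_297, R2_58⟩]⟩, ⟨nat_lit 6, [⟨nat_lit 3, nat_lit 6912, nat_lit 15360, nat_lit 14880, nat_lit 14352, nat_lit 2256, R9_310, R1_299, R1_47⟩, ⟨nat_lit 7, nat_lit 6816, nat_lit 17040, nat_lit 14832, nat_lit 17520, nat_lit 3072, R9_309, R10_365, R11_64⟩]⟩, ⟨nat_lit 7, [⟨nat_lit 3, nat_lit 10416, nat_lit 14592, nat_lit 15888, nat_lit 14304, nat_lit 2304, R5_331, R1_298, R12_48⟩]⟩]⟩]], [[], [], [⟨nat_lit 4, [⟨nat_lit 6, [⟨nat_lit 4, nat_lit 3456, nat_lit 1248, nat_lit 18144, nat_lit 5568, nat_lit 2304, R13_378, R8_116, R3_48⟩, ⟨nat_lit 5, nat_lit 3504, nat_lit 6672, nat_lit 18240, nat_lit 14592, nat_lit 2256, R13_380, R5_304, R10_47⟩, ⟨nat_lit 7, nat_lit 3744, nat_lit 9456, nat_lit 18192, nat_lit 13680,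 nat_lit 1344, R13_379, R9_285, R0_28⟩]⟩]⟩,
 ⟨nat_lit 5, [⟨nat_lit 6, [⟨nat_lit 4, nat_lit 4848, nat_lit 1776, nat_lit 13440, nat_lit 5664, nat_lit 9936, R3_280, R5_118, R3_207⟩, ⟨nat_lit 5, nat_lit 4896, nat_lit 7200, nat_lit 13536, nat_lit 18096, nat_lit 2400, R3_282, R11_377, R10_50⟩, ⟨nat_lit 7, nat_lit 5040, nat_lit 10752, nat_lit 13488, nat_lit 11808, nat_lit 1872, R3_281, R0_246, R0_39⟩]⟩]⟩,
 ⟨nat_lit 6, [⟨nat_lit 2, [⟨nat_lit 4, nat_lit 13008, nat_lit 2160, nat_lit 13584, nat_lit 5616, nat_lit 6864, R2_283, R9_117, R2_143⟩, ⟨nat_lit 5, nat_lit 13536, nat_lit 7536, nat_lit 13680, nat_lit 3456, nat_lit 5568, R2_285, R0_72, R1_116⟩, ⟨nat_lit 6, nat_lit 13392, nat_lit 12000, nat_lit 13632, nat_lit 13392, nat_lit 10752, R2_284, R0_279, R12_224⟩]⟩, ⟨nat_lit 6, [⟨nat_lit 4, nat_lit 4320, nat_lit 2304, nat_lit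 6576, nat_lit 5280, nat_lit 7200, R3_137, R9_110, R3_150⟩, ⟨nat_lit 5, nat_lit 4368, nat_lit 7680, nat_lit 6960, nat_lit 3120, nat_lit 2304, R3_145, R0_65, R10_48⟩]⟩]⟩,
 ⟨nat_lit 7, [⟨nat_lit 6, [⟨nat_lit 7, nat_lit 6720, nat_lit 10368, nat_lit 15024, nat_lit 8640, nat_lit 1584, R9_313, R0_180, R0_33⟩]⟩]⟩]], [[], [], [], [⟨nat_lit 4, [⟨nat_lit 4, [⟨nat_lit 3, nat_lit 0, nat_lit 13440, nat_lit 6768, nat_lit 12048, nat_lit 1008, R6_141, R2_251, R2_21⟩]⟩, ⟨nat_lit 6, [⟨nat_lit 3, nat_lit 3936, nat_lit 13584, nat_lit 18096, nat_lit 12336, nat_lit 336, R13_377, R2_257, R1_7⟩, ⟨nat_lit 7, nat_lit 3888, nat_lit 3264, nat_lit 18048, nat_lit 8976, nat_lit 2640, R13_376, R3_187, R11_55⟩]⟩]⟩,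
 ⟨nat_lit 5, [⟨nat_lit 4, [⟨nat_lit 3, nat_lit 48, nat_lit 15360, nat_lit 7344, nat_lit 12624, nat_lit 3024, R4_153, R1_263, R2_63⟩]⟩, ⟨nat_lit 6, [⟨nat_lit 3, nat_lit 5184, nat_lit 15456, nat_lit 13392, nat_lit 12912, nat_lit 2496, R3_279, R1_269, R1_52⟩, ⟨nat_lit 7, nat_lit 5136, nat_lit 3792, nat_lit 13344, nat_lit 14160, nat_lit 3216, R3_278, R10_295, R11_67⟩]⟩]⟩,
 ⟨nat_lit 6, [⟨nat_lit 2, [⟨nat_lit 7, nat_lit 13680, nat_lit 5568, nat_lit 13536, nat_lit 3456, nat_lit 7536, R2_282, R0_72, R1_157⟩]⟩, ⟨nat_lit 6, [⟨nat_lit 7, nat_lit 4704, nat_lit 5472, nat_lit 6816, nat_lit 3696, nat_lit 2832, R3_142, R0_77, R11_59⟩]⟩]⟩,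
 ⟨nat_lit 7, [⟨nat_lit 4, [⟨nat_lit 3, nat_lit 816, nat_lit 14400, nat_lit 6960, nat_lit 13680, nat_lit 2736, R8_145, R12_285, R2_57⟩]⟩, ⟨nat_lit 6, [⟨nat_lit 3, nat_lit 6960, nat_lit 14928, nat_lit 14976, nat_lit 13728, nat_lit 2208, R9_312, R12_286, R1_46⟩]⟩, ⟨nat_lit 7, [⟨nat_lit 3, nat_lit 10464, nat_lit 14784, nat_lit 15936, nat_lit 13776, nat_lit 2256, R5_332, R12_287, R12_47⟩]⟩]⟩]]], [[], [[], [⟨nat_lit 0, [⟨nat_lit 0, [⟨nat_lit 2, nat_lit 11904, nat_lit 192, nat_lit 13968, nat_lit 15936, nat_lit 624, R6_291, R3_332, R3_13⟩]⟩, ⟨nat_lit 1, [⟨nat_lit 2, nat_lit 13920, nat_lit 5904, nat_lit 13776, nat_lit 16704, nat_lit 3360, R4_287, R3_348, R10_70⟩]⟩, ⟨nat_lit 3, [⟨nat_lit 2, nat_lit 14640, nat_lit 8160, nat_lit 13680, nat_lit 16272, nat_lit 9504, R8_285, R3_339, R0_198⟩]⟩]⟩,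
 ⟨nat_lit 2, [⟨nat_lit 0, [⟨nat_lit 2, nat_lit 12384, nat_lit 384, nat_lit 19680, nat_lit 15216, nat_lit 4224, R13_410, R10_317, R3_88⟩, ⟨nat_lit 6, nat_lit 12336, nat_lit 336, nat_lit 19728, nat_lit 13584, nat_lit 3936, R13_411, R1_283, R2_82⟩]⟩, ⟨nat_lit 1, [⟨nat_lit 2, nat_lit 14160, nat_lit 6048, nat_lit 15792, nat_lit 15312, nat_lit 3936, R3_329, R10_319, R10_82⟩, ⟨nat_lit 6, nat_lit 14112, nat_lit 6000, nat_lit 15840, nat_lit 13680, nat_lit 3408, R3_330, R1_285, R1_71⟩]⟩, ⟨nat_lit 2, [⟨nat_lit 6, nat_lit 13872, nat_lit 11328, nat_lit 15648, nat_lit 13632, nat_lit 10608, R3_326, R1_284, R12_221⟩]⟩, ⟨nat_lit 3, [⟨nat_lit 2, nat_lit 15216, nat_lit 8640, nat_lit 15936, nat_lit 15264, nat_lit 9744, R9_332, R10_318, R0_203⟩]⟩]⟩,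
 ⟨nat_lit 3, [⟨nat_lit 3, [⟨nat_lit 2, nat_lit 15696, nat_lit 8496, nat_lit 16800, nat_lit 12576, nat_lit 9840, R5_350, R0_262, R0_205⟩]⟩]⟩,
 ⟨nat_lit 6, [⟨nat_lit 2, [⟨nat_lit 6, nat_lit 12768, nat_lit 11088, nat_lit 14352, nat_lit 20976, nat_lit 10560, R2_299, R11_437, R12_220⟩]⟩]⟩]], [], [], [], [[], [⟨nat_lit 0, [⟨nat_lit 0, [⟨nat_lit 2, nat_lit 11952, nat_lit 15360, nat_lit 14016, nat_lit 960, nat_lit 576, R6_292, R2_20, R3_12⟩]⟩, ⟨nat_lit 1, [⟨nat_lit 2, nat_lit 13968, nat_lit 15408, nat_lit 13824, nat_lit 10896, nat_lit 3408, R4_288, R2_227, R10_71⟩]⟩, ⟨nat_lit 3, [⟨nat_lit 2, nat_lit 14688, nat_lit 15456, nat_lit 13152, nat_lit 8064, nat_lit 9360, R8_274, R2_168, R0_195⟩]⟩]⟩,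
 ⟨nat_lit 2, [⟨nat_lit 0, [⟨nat_lit 2, nat_lit 12432, nat_lit 15504, nat_lit 19632, nat_lit 288, nat_lit 4176, R13_409, R1_6, R3_87⟩]⟩, ⟨nat_lit 1, [⟨nat_lit 2, nat_lit 14208, nat_lit 15552, nat_lit 15744, nat_lit 11280, nat_lit 3984, R3_328, R1_235, R10_83⟩]⟩, ⟨nat_lit 3, [⟨nat_lit 2, nat_lit 15264, nat_lit 15600, nat_lit 15888, nat_lit 8592, nat_lit 9600, R9_331, R1_179, R0_200⟩]⟩]⟩], [], [], [], [⟨nat_lit 0, [⟨nat_lit 1, [⟨nat_lit 2, nat_lit 14016, nat_lit 13728, nat_lit 13872, nat_lit 10848, nat_lit 10896, R4_289, R2_226, R1_227⟩]⟩]⟩,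
 ⟨nat_lit 2, [⟨nat_lit 1, [⟨nat_lit 2, nat_lit 14256, nat_lit 13776, nat_lit 15696, nat_lit 11232, nat_lit 10992, R3_327, R1_234, R1_229⟩]⟩]⟩]]], [[], [[], [], [], [⟨nat_lit 0, [⟨nat_lit 3, [⟨nat_lit 2, nat_lit 14832, nat_lit 2688, nat_lit 13200, nat_lit 15216, nat_lit 8976, R4_275, R3_317, R11_187⟩]⟩, ⟨nat_lit 7, [⟨nat_lit 0, nat_lit 10512, nat_lit 13104, nat_lit 14208, nat_lit 13680, nat_lit 10752, R7_296, R4_285, R2_224⟩, ⟨nat_lit 2, nat_lit 10608, nat_lit 13152, nat_lit 14448, nat_lit 15360, nat_lit 11136, R7_301, R3_320, R1_232⟩]⟩]⟩,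
 ⟨nat_lit 2, [⟨nat_lit 3, [⟨nat_lit 2, nat_lit 15456, nat_lit 5136, nat_lit 16608, nat_lit 15168, nat_lit 9168, R5_346, R10_316, R11_191⟩, ⟨nat_lit 6, nat_lit 15312, nat_lit 5184, nat_lit 16560, nat_lit 13536, nat_lit 6624, R5_345, R1_282, R1_138⟩]⟩]⟩,
 ⟨nat_lit 3, [⟨nat_lit 4, [⟨nat_lit 3, nat_lit 2928, nat_lit 12432, nat_lit 8112, nat_lit 18672, nat_lit 576, R7_169, R11_389, R2_12⟩]⟩, ⟨nat_lit 7, [⟨nat_lit 0, nat_lit 11712, nat_lit 13872, nat_lit 16896, nat_lit 15504, nat_lit 11040, R14_352, R5_323, R2_230⟩, ⟨nat_lit 2, nat_lit 11760, nat_lit 14064, nat_lit 16944, nat_lit 12528, nat_lit 11616, R14_353, R0_261, R1_242⟩, ⟨nat_lit 3, nat_lit 11808, nat_lit 14016, nat_lit 16992, nat_lit 18720, nat_lit 1920, R14_354, R11_390, R12_40⟩]⟩]⟩,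
 ⟨nat_lit 7, [⟨nat_lit 4, [⟨nat_lit 3, nat_lit 864, nat_lit 12672, nat_lit 8112, nat_lit 15264, nat_lit 2256, R4_169, R1_318, R2_47⟩]⟩, ⟨nat_lit 6, [⟨nat_lit 3, nat_lit 7056, nat_lit 15936, nat_lit 5904, nat_lit 15312, nat_lit 1728, R5_123, R1_319, R1_36⟩, ⟨nat_lit 7, nat_lit 7008, nat_lit 16176, nat_lit 5952, nat_lit 18528, nat_lit 2976, R5_124, R10_386, R11_62⟩]⟩]⟩]], [], [], [], [[⟨nat_lit 0, [⟨nat_lit 3, [⟨nat_lit 2, nat_lit 14736, nat_lit 6912, nat_lit 12720, nat_lit 7824, nat_lit 7392, R4_265, R2_163, R5_154⟩]⟩]⟩,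
 ⟨nat_lit 2, [⟨nat_lit 3, [⟨nat_lit 2, nat_lit 15360, nat_lit 7200, nat_lit 16656, nat_lit 8352, nat_lit 7488, R5_347, R1_174, R5_156⟩]⟩]⟩], [⟨nat_lit 0, [⟨nat_lit 3, [⟨nat_lit 2, nat_lit 14784, nat_lit 12624, nat_lit 12816, nat_lit 7920, nat_lit 9408, R4_267, R2_165, R0_196⟩]⟩]⟩,
 ⟨nat_lit 2, [⟨nat_lit 3, [⟨nat_lit 2, nat_lit 15408, nat_lit 12672, nat_lit 16704, nat_lit 8448, nat_lit 9648, R5_348, R1_176, R0_201⟩]⟩]⟩], [], [⟨nat_lit 0, [⟨nat_lit 3, [⟨nat_lit 2, nat_lit 14880, nat_lit 18864, nat_lit 12768, nat_lit 7872, nat_lit 7008, R4_266, R2_164, R11_146⟩]⟩, ⟨nat_lit 7, [⟨nat_lit 0, nat_lit 10560, nat_lit 18768, nat_lit 13776, nat_lit 14928, nat_lit 10560, R7_287, R7_311, R2_220⟩, ⟨nat_lit 2, nat_lit 10656, nat_lit 18912, nat_lit 13824, nat_lit 14064, nat_lit 10944, R7_288, R2_293, R1_228⟩, ⟨nat_lit 3, nat_lit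 10704, nat_lit 18816, nat_lit 13968, nat_lit 12624, nat_lit 1824, R7_291, R2_263, R12_38⟩]⟩]⟩,
 ⟨nat_lit 2, [⟨nat_lit 3, [⟨nat_lit 2, nat_lit 15504, nat_lit 19056, nat_lit 16752, nat_lit 8400, nat_lit 7104, R5_349, R1_175, R11_148⟩]⟩]⟩,
 ⟨nat_lit 3, [⟨nat_lit 4, [⟨nat_lit 3, nat_lit 2976, nat_lit 18960, nat_lit 8064, nat_lit 12384, nat_lit 528, R7_168, R1_258, R2_11⟩]⟩, ⟨nat_lit 7, [⟨nat_lit 3, nat_lit 11856, nat_lit 19008, nat_lit 17040, nat_lit 13968, nat_lit 1968, R14_355, R1_291, R12_41⟩]⟩]⟩]]]]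
noncomputable def N1500 : T3 (List N0) := [[], [], [], [], [[], [], [], [], [], [[⟨nat_lit 1, [⟨nat_lit 3, [⟨nat_lit 0, nat_lit 1584, nat_lit 9648, nat_lit 13584, nat_lit 1056, nat_lit 9936, R3_283, R7_22, R6_207⟩]⟩]⟩], [⟨nat_lit 1, [⟨nat_lit 0, [⟨nat_lit 0, nat_lit 1680, nat_lit 13584, nat_lit 9648, nat_lit 1296, nat_lit 4080, R4_201, R7_27, R6_85⟩]⟩, ⟨nat_lit 3, [⟨nat_lit 0, nat_lit 1824, nat_lit 14352, nat_lit 14352, nat_lit 1392, nat_lit 4032, R3_299, R7_29, R8_84⟩]⟩]⟩]]], [[[⟨nat_lit 0, [⟨nat_lit 0, [⟨nat_lit 2, nat_lit 8640, nat_lit 15504, nat_lit 8640, nat_lit 12192, nat_lit 11136, R4_180, R6_254, R6_232⟩]⟩, ⟨nat_lit 3, [⟨nat_lit 2, nat_lit 8688, nat_lit 15600, nat_lit 11040, nat_lit 12240, nat_lit 11280, R3_230, R6_255, R8_235⟩]⟩]⟩,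
 ⟨nat_lit 2, [⟨nat_lit 0, [⟨nat_lit 2, nat_lit 8784, nat_lit 16272, nat_lit 4416, nat_lit 12384, nat_lit 11184, R5_92, R4_258, R6_233⟩]⟩, ⟨nat_lit 2, [⟨nat_lit 2, nat_lit 8832, nat_lit 16416, nat_lit 18288, nat_lit 12432, nat_lit 11856, R11_381, R4_259, R4_247⟩, ⟨nat_lit 6, nat_lit 14880, nat_lit 12096, nat_lit 18336, nat_lit 13728, nat_lit 12912, R11_382, R7_286, R7_269⟩]⟩, ⟨nat_lit 3, [⟨nat_lit 2, nat_lit 8880, nat_lit 16320, nat_lit 12144, nat_lit 12480, nat_lit 11328, R0_253, R4_260, R8_236⟩]⟩]⟩,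
 ⟨nat_lit 3, [⟨nat_lit 3, [⟨nat_lit 0, nat_lit 2832, nat_lit 13296, nat_lit 14352, nat_lit 13728, nat_lit 10656, R10_299, R6_286, R6_222⟩, ⟨nat_lit 2, nat_lit 8976, nat_lit 16080, nat_lit 14448, nat_lit 13008, nat_lit 11376, R10_301, R8_271, R8_237⟩, ⟨nat_lit 3, nat_lit 12288, nat_lit 14640, nat_lit 14400, nat_lit 13488, nat_lit 11520, R10_300, R4_281, R4_240⟩]⟩, ⟨nat_lit 7, [⟨nat_lit 3, nat_lit 12240, nat_lit 14688, nat_lit 13056, nat_lit 13536, nat_lit 12960, R1_272, R4_282, R7_270⟩]⟩]⟩,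
 ⟨nat_lit 4, [⟨nat_lit 4, [⟨nat_lit 7, nat_lit 15504, nat_lit 8640, nat_lit 8640, nat_lit 12192, nat_lit 11136, R4_180, R6_254, R6_232⟩]⟩, ⟨nat_lit 6, [⟨nat_lit 7, nat_lit 15600, nat_lit 8688, nat_lit 11040, nat_lit 12240, nat_lit 11280, R3_230, R6_255, R8_235⟩]⟩]⟩,
 ⟨nat_lit 6, [⟨nat_lit 2, [⟨nat_lit 6, nat_lit 14688, nat_lit 12240, nat_lit 13056, nat_lit 13536, nat_lit 12960, R1_272, R4_282, R7_270⟩]⟩, ⟨nat_lit 6, [⟨nat_lit 4, nat_lit 13296, nat_lit 2832, nat_lit 14352, nat_lit 13728, nat_lit 10656, R10_299, R6_286, R6_222⟩, ⟨nat_lit 6, nat_lit 14640, nat_lit 12288, nat_lit 14400, nat_lit 13488, nat_lit 11520, R10_300, R4_281, R4_240⟩, ⟨nat_lit 7, nat_lit 16080, nat_lit 8976, nat_lit 14448, nat_lit 13008, nat_lit 11376, R10_301, R8_271, R8_237⟩]⟩]⟩,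
 ⟨nat_lit 7, [⟨nat_lit 4, [⟨nat_lit 7, nat_lit 16272, nat_lit 8784, nat_lit 4416, nat_lit 12384, nat_lit 11184, R5_92, R4_258, R6_233⟩]⟩, ⟨nat_lit 6, [⟨nat_lit 7, nat_lit 16320, nat_lit 8880, nat_lit 12144, nat_lit 12480, nat_lit 11328, R0_253, R4_260, R8_236⟩]⟩, ⟨nat_lit 7, [⟨nat_lit 3, nat_lit 12096, nat_lit 14880, nat_lit 18336, nat_lit 13728, nat_lit 12912, R11_382, R7_286, R7_269⟩, ⟨nat_lit 7, nat_lit 16416, nat_lit 8832, nat_lit 18288, nat_lit 12432, nat_lit 11856, R11_381, R4_259, R4_247⟩]⟩]⟩], [], [⟨nat_lit 2, [⟨nat_lit 2, [⟨nat_lit 6, nat_lit 14928, nat_lit 10560, nat_lit 18768, nat_lit 13776, nat_lit 10560, R11_391, R7_287, R2_220⟩]⟩]⟩,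
 ⟨nat_lit 4, [⟨nat_lit 4, [⟨nat_lit 7, nat_lit 15744, nat_lit 7440, nat_lit 8784, nat_lit 12336, nat_lit 9600, R4_183, R6_257, R8_200⟩]⟩, ⟨nat_lit 6, [⟨nat_lit 7, nat_lit 15840, nat_lit 7488, nat_lit 11232, nat_lit 12384, nat_lit 10800, R3_234, R6_258, R9_225⟩]⟩]⟩,
 ⟨nat_lit 6, [⟨nat_lit 2, [⟨nat_lit 6, nat_lit 14832, nat_lit 10752, nat_lit 13104, nat_lit 13680, nat_lit 10512, R1_273, R4_285, R2_219⟩]⟩, ⟨nat_lit 6, [⟨nat_lit 4, nat_lit 13392, nat_lit 912, nat_lit 14544, nat_lit 13824, nat_lit 13440, R10_303, R6_288, R13_280⟩, ⟨nat_lit 6, nat_lit 14784, nat_lit 10800, nat_lit 14592, nat_lit 13632, nat_lit 10368, R10_304, R4_284, R3_216⟩, ⟨nat_lit 7, nat_lit 16176, nat_lit 8016, nat_lit 14640, nat_lit 13104, nat_lit 10848, R10_305, R8_273, R9_226⟩]⟩]⟩,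
 ⟨nat_lit 7, [⟨nat_lit 4, [⟨nat_lit 7, nat_lit 16464, nat_lit 7680, nat_lit 6000, nat_lit 12576, nat_lit 10176, R5_125, R4_262, R8_212⟩]⟩, ⟨nat_lit 6, [⟨nat_lit 7, nat_lit 16512, nat_lit 7776, nat_lit 12240, nat_lit 12672, nat_lit 10896, R0_255, R4_264, R9_227⟩]⟩, ⟨nat_lit 7, [⟨nat_lit 7, nat_lit 16608, nat_lit 7728, nat_lit 18432, nat_lit 12624, nat_lit 12768, R11_384, R4_263, R5_266⟩]⟩]⟩], [⟨nat_lit 0, [⟨nat_lit 3, [⟨nat_lit 2, nat_lit 8736, nat_lit 14400, nat_lit 11088, nat_lit 12288, nat_lit 2544, R3_231, R6_256, R5_53⟩]⟩]⟩,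
 ⟨nat_lit 2, [⟨nat_lit 3, [⟨nat_lit 2, nat_lit 8928, nat_lit 15552, nat_lit 12336, nat_lit 12528, nat_lit 2736, R0_257, R4_261, R5_57⟩]⟩]⟩,
 ⟨nat_lit 3, [⟨nat_lit 3, [⟨nat_lit 0, nat_lit 2928, nat_lit 12144, nat_lit 14928, nat_lit 14112, nat_lit 384, R10_311, R6_294, R4_8⟩, ⟨nat_lit 2, nat_lit 9024, nat_lit 14976, nat_lit 14976, nat_lit 13056, nat_lit 2928, R10_312, R8_272, R5_61⟩]⟩, ⟨nat_lit 7, [⟨nat_lit 0, nat_lit 2880, nat_lit 12000, nat_lit 13200, nat_lit 14160, nat_lit 576, R1_275, R6_295, R7_12⟩, ⟨nat_lit 3, nat_lit 12336, nat_lit 13728, nat_lit 13248, nat_lit 13920, nat_lit 14208, R1_276, R4_290, R14_296⟩]⟩]⟩,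
 ⟨nat_lit 4, [⟨nat_lit 4, [⟨nat_lit 7, nat_lit 15936, nat_lit 3120, nat_lit 8736, nat_lit 12576, nat_lit 10992, R4_182, R6_262, R4_229⟩]⟩, ⟨nat_lit 6, [⟨nat_lit 7, nat_lit 15984, nat_lit 3168, nat_lit 11136, nat_lit 12624, nat_lit 12816, R3_232, R6_263, R5_267⟩]⟩]⟩,
 ⟨nat_lit 6, [⟨nat_lit 6, [⟨nat_lit 7, nat_lit 16224, nat_lit 6384, nat_lit 14496, nat_lit 13248, nat_lit 12960, R10_302, R8_276, R5_270⟩]⟩]⟩,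
 ⟨nat_lit 7, [⟨nat_lit 4, [⟨nat_lit 3, nat_lit 12144, nat_lit 12480, nat_lit 14832, nat_lit 13872, nat_lit 11808, R5_309, R7_289, R7_246⟩, ⟨nat_lit 7, nat_lit 16656, nat_lit 3984, nat_lit 5184, nat_lit 12912, nat_lit 11376, R5_108, R4_269, R4_237⟩]⟩, ⟨nat_lit 6, [⟨nat_lit 7, nat_lit 16704, nat_lit 4032, nat_lit 12192, nat_lit 12960, nat_lit 13056, R0_254, R4_270, R5_272⟩]⟩, ⟨nat_lit 7, [⟨nat_lit 3, nat_lit 12192, nat_lit 12576, nat_lit 18384, nat_lit 13920, nat_lit 14256, R11_383, R7_290, R14_297⟩]⟩]⟩]], [[⟨nat_lit 0, [⟨nat_lit 0, [⟨nat_lit 2, nat_lit 9120, nat_lit 1968, nat_lit 9216, nat_lit 16512, nat_lit 11232, R4_192, R13_344, R6_234⟩]⟩, ⟨nat_lit 3, [⟨nat_lit 0, nat_lit 3024, nat_lit 2352, nat_lit 11568, nat_lit 1680, nat_lit 11328, R3_241, R6_35, R6_236⟩, ⟨nat_lit 2, nat_lit 9216, nat_lit 2832, nat_lit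 11904, nat_lit 16560, nat_lit 11424, R3_248, R13_345, R8_238⟩]⟩]⟩,
 ⟨nat_lit 2, [⟨nat_lit 0, [⟨nat_lit 2, nat_lit 9792, nat_lit 2016, nat_lit 4464, nat_lit 1248, nat_lit 11280, R5_93, R3_26, R6_235⟩]⟩, ⟨nat_lit 2, [⟨nat_lit 2, nat_lit 9888, nat_lit 3984, nat_lit 19104, nat_lit 1488, nat_lit 11904, R11_398, R3_31, R4_248⟩, ⟨nat_lit 6, nat_lit 15216, nat_lit 3504, nat_lit 19152, nat_lit 12576, nat_lit 13008, R11_399, R2_262, R7_271⟩]⟩, ⟨nat_lit 3, [⟨nat_lit 2, nat_lit 9984, nat_lit 2928, nat_lit 12720, nat_lit 1728, nat_lit 11472, R0_265, R3_36, R8_239⟩]⟩]⟩,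
 ⟨nat_lit 3, [⟨nat_lit 3, [⟨nat_lit 0, nat_lit 4080, nat_lit 2400, nat_lit 15648, nat_lit 192, nat_lit 11376, R10_326, R8_4, R6_237⟩, ⟨nat_lit 2, nat_lit 11088, nat_lit 2880, nat_lit 15744, nat_lit 14160, nat_lit 11520, R10_328, R9_295, R8_240⟩, ⟨nat_lit 3, nat_lit 12528, nat_lit 2688, nat_lit 15696, nat_lit 14976, nat_lit 11952, R10_327, R5_312, R4_249⟩]⟩, ⟨nat_lit 7, [⟨nat_lit 3, nat_lit 12432, nat_lit 528, nat_lit 13824, nat_lit 15024, nat_lit 13104, R1_288, R5_313, R7_273⟩]⟩]⟩], [⟨nat_lit 0, [⟨nat_lit 0, [⟨nat_lit 0, nat_lit 3120, nat_lit 0, nat_lit 3360, nat_lit 1536, nat_lit 4032, R4_70, R6_32, R6_84⟩, ⟨nat_lit 2, nat_lit 9312, nat_lit 192, nat_lit 9360, nat_lit 16656, nat_lit 14448, R4_195, R13_347, R13_301⟩]⟩, ⟨nat_lit 3, [⟨nat_lit 0, nat_lit 3312, nat_lit 720, nat_lit 11664, nat_lit 1920, nat_lit 1824,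 R3_243, R6_40, R8_38⟩, ⟨nat_lit 2, nat_lit 9504, nat_lit 1200, nat_lit 12000, nat_lit 16704, nat_lit 12192, R3_250, R13_348, R9_254⟩]⟩]⟩,
 ⟨nat_lit 2, [⟨nat_lit 0, [⟨nat_lit 2, nat_lit 10080, nat_lit 240, nat_lit 4848, nat_lit 1344, nat_lit 14496, R5_101, R3_28, R13_302⟩]⟩, ⟨nat_lit 2, [⟨nat_lit 2, nat_lit 10224, nat_lit 2352, nat_lit 19584, nat_lit 1584, nat_lit 3504, R11_408, R3_33, R3_73⟩, ⟨nat_lit 6, nat_lit 15360, nat_lit 1872, nat_lit 19632, nat_lit 12672, nat_lit 11664, R11_409, R2_264, R2_243⟩]⟩, ⟨nat_lit 3, [⟨nat_lit 2, nat_lit 10416, nat_lit 1296, nat_lit 13056, nat_lit 1968, nat_lit 12240, R0_272, R3_41, R9_255⟩]⟩]⟩,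
 ⟨nat_lit 3, [⟨nat_lit 3, [⟨nat_lit 0, nat_lit 4176, nat_lit 768, nat_lit 16512, nat_lit 2064, nat_lit 2688, R10_344, R8_43, R8_56⟩, ⟨nat_lit 2, nat_lit 11184, nat_lit 1248, nat_lit 16608, nat_lit 14256, nat_lit 12288, R10_346, R9_297, R9_256⟩, ⟨nat_lit 3, nat_lit 12624, nat_lit 1056, nat_lit 16560, nat_lit 15120, nat_lit 13728, R10_345, R5_315, R5_286⟩]⟩]⟩], [⟨nat_lit 2, [⟨nat_lit 2, [⟨nat_lit 6, nat_lit 15264, nat_lit 1824, nat_lit 20304, nat_lit 12624, nat_lit 10704, R11_423, R2_263, R2_223⟩]⟩]⟩], [⟨nat_lit 0, [⟨nat_lit 3, [⟨nat_lit 0, nat_lit 3504, nat_lit 2688, nat_lit 11616, nat_lit 1776, nat_lit 2304, R3_242, R6_37, R4_48⟩, ⟨nat_lit 2, nat_lit 9648, nat_lit 4032, nat_lit 11952, nat_lit 16608, nat_lit 2688, R3_249, R13_346, R5_56⟩]⟩]⟩,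
 ⟨nat_lit 2, [⟨nat_lit 3, [⟨nat_lit 2, nat_lit 10512, nat_lit 4512, nat_lit 13296, nat_lit 1824, nat_lit 2880, R0_277, R3_38, R5_60⟩]⟩]⟩,
 ⟨nat_lit 3, [⟨nat_lit 3, [⟨nat_lit 0, nat_lit 4464, nat_lit 2832, nat_lit 17424, nat_lit 720, nat_lit 2688, R10_363, R8_15, R4_56⟩, ⟨nat_lit 2, nat_lit 11328, nat_lit 4224, nat_lit 17472, nat_lit 14208, nat_lit 3072, R10_364, R9_296, R5_64⟩]⟩, ⟨nat_lit 7, [⟨nat_lit 0, nat_lit 4320, nat_lit 13584, nat_lit 14160, nat_lit 1104, nat_lit 2688, R1_295, R8_23, R7_56⟩, ⟨nat_lit 3, nat_lit 12768, nat_lit 13920, nat_lit 14208, nat_lit 15072, nat_lit 14352, R1_296, R5_314, R14_299⟩]⟩]⟩]], [[], [], [⟨nat_lit 2, [⟨nat_lit 2, [⟨nat_lit 6, nat_lit 15120, nat_lit 10944, nat_lit 20928, nat_lit 14064, nat_lit 10656, R11_436, R2_293, R2_222⟩]⟩]⟩,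
 ⟨nat_lit 4, [⟨nat_lit 4, [⟨nat_lit 4, nat_lit 13488, nat_lit 0, nat_lit 3216, nat_lit 13680, nat_lit 10704, R4_67, R6_285, R6_223⟩, ⟨nat_lit 5, nat_lit 14304, nat_lit 5808, nat_lit 11664, nat_lit 13440, nat_lit 11568, R4_243, R4_280, R4_241⟩, ⟨nat_lit 7, nat_lit 16800, nat_lit 7968, nat_lit 9120, nat_lit 13392, nat_lit 9648, R4_190, R8_279, R8_201⟩]⟩, ⟨nat_lit 6, [⟨nat_lit 4, nat_lit 13584, nat_lit 48, nat_lit 15888, nat_lit 13776, nat_lit 13536, R3_331, R6_287, R13_282⟩, ⟨nat_lit 5, nat_lit 14400, nat_lit 5856, nat_lit 16656, nat_lit 13584, nat_lit 10272, R3_347, R4_283, R3_214⟩, ⟨nat_lit 7, nat_lit 16896, nat_lit 8016, nat_lit 16224, nat_lit 13632, nat_lit 11040, R3_338, R8_284, R9_230⟩]⟩]⟩,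
 ⟨nat_lit 6, [⟨nat_lit 2, [⟨nat_lit 6, nat_lit 15072, nat_lit 11136, nat_lit 13152, nat_lit 15360, nat_lit 10608, R1_274, R3_320, R2_221⟩]⟩, ⟨nat_lit 6, [⟨nat_lit 4, nat_lit 13680, nat_lit 240, nat_lit 14736, nat_lit 19200, nat_lit 13584, R10_307, R13_400, R13_283⟩, ⟨nat_lit 5, nat_lit 14544, nat_lit 5952, nat_lit 14880, nat_lit 15456, nat_lit 10320, R10_310, R3_322, R3_215⟩, ⟨nat_lit 6, nat_lit 15024, nat_lit 11184, nat_lit 14784, nat_lit 15408, nat_lit 10416, R10_308, R3_321, R3_217⟩, ⟨nat_lit 7, nat_lit 17040, nat_lit 8544, nat_lit 14832, nat_lit 15552, nat_lit 11088, R10_309, R9_324, R9_231⟩]⟩]⟩,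
 ⟨nat_lit 7, [⟨nat_lit 4, [⟨nat_lit 7, nat_lit 17088, nat_lit 8208, nat_lit 6336, nat_lit 16320, nat_lit 10224, R5_132, R5_340, R8_213⟩]⟩, ⟨nat_lit 6, [⟨nat_lit 7, nat_lit 17136, nat_lit 8304, nat_lit 12288, nat_lit 16368, nat_lit 11136, R0_256, R5_341, R9_232⟩]⟩, ⟨nat_lit 7, [⟨nat_lit 7, nat_lit 17232, nat_lit 8256, nat_lit 18576, nat_lit 16416, nat_lit 12912, R11_387, R5_342, R5_269⟩]⟩]⟩]], [[], [], [], [⟨nat_lit 3, [⟨nat_lit 3, [⟨nat_lit 0, nat_lit 4656, nat_lit 12720, nat_lit 18432, nat_lit 624, nat_lit 1296, R10_384, R4_13, R4_27⟩, ⟨nat_lit 2, nat_lit 11376, nat_lit 15984, nat_lit 18480, nat_lit 240, nat_lit 2976, R10_385, R5_5, R5_62⟩]⟩, ⟨nat_lit 7, [⟨nat_lit 0, nat_lit 4608, nat_lit 12576, nat_lit 15216, nat_lit 1440, nat_lit 1008, R1_317, R4_30, R7_21⟩]⟩]⟩,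
 ⟨nat_lit 4, [⟨nat_lit 4, [⟨nat_lit 3, nat_lit 12960, nat_lit 13056, nat_lit 13536, nat_lit 14160, nat_lit 11472, R4_282, R7_295, R7_239⟩, ⟨nat_lit 7, nat_lit 17616, nat_lit 2592, nat_lit 8928, nat_lit 13056, nat_lit 11040, R4_186, R4_272, R4_230⟩]⟩, ⟨nat_lit 6, [⟨nat_lit 7, nat_lit 17712, nat_lit 2640, nat_lit 15168, nat_lit 13152, nat_lit 12864, R3_316, R4_274, R5_268⟩]⟩]⟩,
 ⟨nat_lit 6, [⟨nat_lit 6, [⟨nat_lit 7, nat_lit 17904, nat_lit 5088, nat_lit 14688, nat_lit 16272, nat_lit 13008, R10_306, R5_339, R5_271⟩]⟩]⟩,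
 ⟨nat_lit 7, [⟨nat_lit 4, [⟨nat_lit 3, nat_lit 13104, nat_lit 13824, nat_lit 15024, nat_lit 16512, nat_lit 11856, R5_313, R14_344, R7_247⟩]⟩, ⟨nat_lit 7, [⟨nat_lit 0, nat_lit 4560, nat_lit 12336, nat_lit 18480, nat_lit 1248, nat_lit 1968, R11_385, R7_26, R7_41⟩, ⟨nat_lit 3, nat_lit 13200, nat_lit 13920, nat_lit 18528, nat_lit 16560, nat_lit 14304, R11_386, R14_345, R14_298⟩]⟩]⟩]]], [[], [[], [⟨nat_lit 0, [⟨nat_lit 0, [⟨nat_lit 0, nat_lit 3168, nat_lit 576, nat_lit 48, nat_lit 1584, nat_lit 3984, R8_1, R6_33, R6_83⟩, ⟨nat_lit 2, nat_lit 9360, nat_lit 672, nat_lit 4800, nat_lit 16800, nat_lit 14256, R8_100, R13_350, R13_297⟩]⟩, ⟨nat_lit 1, [⟨nat_lit 0, nat_lit 3216, nat_lit 6096, nat_lit 14400, nat_lit 2016, nat_lit 4224, R5_300, R6_42, R4_88⟩, ⟨nat_lit 2, nat_lit 9408, nat_lit 6192, nat_lit 14544, nat_lit 16896,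 nat_lit 10608, R5_303, R13_352, R3_221⟩]⟩, ⟨nat_lit 3, [⟨nat_lit 0, nat_lit 3360, nat_lit 8976, nat_lit 13392, nat_lit 1968, nat_lit 1776, R9_279, R6_41, R8_37⟩, ⟨nat_lit 2, nat_lit 9552, nat_lit 9072, nat_lit 13632, nat_lit 16848, nat_lit 11952, R9_284, R13_351, R9_249⟩]⟩]⟩,
 ⟨nat_lit 1, [⟨nat_lit 0, [⟨nat_lit 0, nat_lit 3696, nat_lit 1392, nat_lit 4608, nat_lit 1536, nat_lit 4224, R5_96, R4_32, R6_88⟩, ⟨nat_lit 2, nat_lit 10752, nat_lit 1440, nat_lit 4992, nat_lit 12624, nat_lit 14352, R5_104, R3_263, R13_299⟩]⟩, ⟨nat_lit 1, [⟨nat_lit 0, nat_lit 3744, nat_lit 6816, nat_lit 17904, nat_lit 1824, nat_lit 4320, R11_373, R4_38, R4_90⟩, ⟨nat_lit 2, nat_lit 10800, nat_lit 6864, nat_lit 18048, nat_lit 12720, nat_lit 10704, R11_376, R3_265, R3_223⟩]⟩, ⟨nat_lit 3, [⟨nat_lit 0, nat_lit 3840, nat_lit 10512, nat_lit 11520,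 nat_lit 1776, nat_lit 2976, R0_240, R4_37, R8_62⟩, ⟨nat_lit 2, nat_lit 10896, nat_lit 10560, nat_lit 11760, nat_lit 12672, nat_lit 12048, R0_245, R3_264, R9_251⟩]⟩]⟩,
 ⟨nat_lit 2, [⟨nat_lit 0, [⟨nat_lit 2, nat_lit 10128, nat_lit 1872, nat_lit 4128, nat_lit 1392, nat_lit 14304, R9_86, R3_29, R13_298⟩]⟩, ⟨nat_lit 1, [⟨nat_lit 2, nat_lit 10320, nat_lit 7296, nat_lit 2592, nat_lit 2016, nat_lit 10656, R0_54, R3_42, R3_222⟩]⟩, ⟨nat_lit 2, [⟨nat_lit 2, nat_lit 10272, nat_lit 11664, nat_lit 2496, nat_lit 1632, nat_lit 3456, R0_52, R3_34, R3_72⟩, ⟨nat_lit 6, nat_lit 15408, nat_lit 11568, nat_lit 12432, nat_lit 12720, nat_lit 11616, R0_259, R2_265, R2_242⟩]⟩]⟩,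
 ⟨nat_lit 3, [⟨nat_lit 3, [⟨nat_lit 0, nat_lit 4224, nat_lit 9600, nat_lit 720, nat_lit 2112, nat_lit 2640, R0_15, R8_44, R8_55⟩, ⟨nat_lit 2, nat_lit 11232, nat_lit 9792, nat_lit 8544, nat_lit 14304, nat_lit 12000, R0_178, R9_298, R9_250⟩, ⟨nat_lit 3, nat_lit 12672, nat_lit 9696, nat_lit 5952, nat_lit 15216, nat_lit 13680, R0_124, R5_317, R5_285⟩]⟩]⟩]], [], [], [], [[], [⟨nat_lit 1, [⟨nat_lit 0, [⟨nat_lit 0, nat_lit 1728, nat_lit 13152, nat_lit 4512, nat_lit 1344, nat_lit 4128, R5_94, R7_28, R6_86⟩, ⟨nat_lit 2, nat_lit 8352, nat_lit 13296, nat_lit 4896, nat_lit 192, nat_lit 14400, R5_102, R2_4, R13_300⟩]⟩, ⟨nat_lit 1, [⟨nat_lit 0, nat_lit 1776, nat_lit 13200, nat_lit 17376, nat_lit 1536, nat_lit 4272, R11_362, R7_32, R4_89⟩, ⟨nat_lit 2, nat_lit 8400, nat_lit 13344, nat_lit 17520, nat_lit 624, nat_lit 10752,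 R11_365, R2_13, R3_224⟩]⟩, ⟨nat_lit 3, [⟨nat_lit 0, nat_lit 1872, nat_lit 13248, nat_lit 11280, nat_lit 1488, nat_lit 4128, R0_235, R7_31, R8_86⟩, ⟨nat_lit 2, nat_lit 8496, nat_lit 13392, nat_lit 11376, nat_lit 480, nat_lit 12096, R0_237, R2_10, R9_252⟩]⟩]⟩], [], [], [], [⟨nat_lit 1, [⟨nat_lit 1, [⟨nat_lit 0, nat_lit 1248, nat_lit 12336, nat_lit 17424, nat_lit 1968, nat_lit 4560, R11_363, R7_41, R7_95⟩, ⟨nat_lit 1, nat_lit 7248, nat_lit 12384, nat_lit 17760, nat_lit 528, nat_lit 2976, R11_370, R2_11, R2_62⟩, ⟨nat_lit 2, nat_lit 8112, nat_lit 12432, nat_lit 17568, nat_lit 576, nat_lit 2928, R11_366, R2_12, R2_61⟩]⟩]⟩]]], [[], [[], [], [], [⟨nat_lit 0, [⟨nat_lit 3, [⟨nat_lit 0, nat_lit 3552, nat_lit 2736, nat_lit 3072, nat_lit 1824, nat_lit 2256, R3_64, R6_38, R4_47⟩, ⟨nat_lit 2, nat_lit 9696, nat_lit 3024, nat_lit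 8880, nat_lit 16752, nat_lit 2640, R3_185, R13_349, R5_55⟩]⟩, ⟨nat_lit 7, [⟨nat_lit 0, nat_lit 3408, nat_lit 13200, nat_lit 12000, nat_lit 1440, nat_lit 2208, R2_250, R6_30, R7_46⟩]⟩]⟩,
 ⟨nat_lit 1, [⟨nat_lit 3, [⟨nat_lit 0, nat_lit 3984, nat_lit 3456, nat_lit 13968, nat_lit 1680, nat_lit 2976, R10_291, R4_35, R4_62⟩, ⟨nat_lit 2, nat_lit 10992, nat_lit 3648, nat_lit 14112, nat_lit 12576, nat_lit 3216, R10_294, R3_262, R5_67⟩]⟩, ⟨nat_lit 7, [⟨nat_lit 0, nat_lit 3888, nat_lit 15216, nat_lit 12576, nat_lit 1440, nat_lit 2784, R1_262, R4_30, R7_58⟩]⟩]⟩,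
 ⟨nat_lit 2, [⟨nat_lit 3, [⟨nat_lit 2, nat_lit 10560, nat_lit 5232, nat_lit 3600, nat_lit 1872, nat_lit 2832, R0_75, R3_39, R5_59⟩]⟩]⟩,
 ⟨nat_lit 3, [⟨nat_lit 7, [⟨nat_lit 0, nat_lit 4368, nat_lit 14160, nat_lit 13584, nat_lit 1056, nat_lit 2640, R12_283, R8_22, R7_55⟩, ⟨nat_lit 3, nat_lit 12816, nat_lit 14496, nat_lit 13632, nat_lit 15168, nat_lit 14160, R12_284, R5_316, R14_295⟩]⟩]⟩]], [], [], [], [[⟨nat_lit 1, [⟨nat_lit 3, [⟨nat_lit 0, nat_lit 1632, nat_lit 4512, nat_lit 13152, nat_lit 1104, nat_lit 10320, R10_274, R7_23, R6_215⟩, ⟨nat_lit 2, nat_lit 8256, nat_lit 6096, nat_lit 13440, nat_lit 288, nat_lit 11232, R10_280, R2_6, R8_234⟩]⟩]⟩], [⟨nat_lit 1, [⟨nat_lit 3, [⟨nat_lit 0, nat_lit 1920, nat_lit 11280, nat_lit 13248, nat_lit 1440, nat_lit 4080, R10_276, R7_30, R8_85⟩, ⟨nat_lit 2, nat_lit 8544, nat_lit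 11328, nat_lit 13536, nat_lit 432, nat_lit 12144, R10_282, R2_9, R9_253⟩]⟩]⟩], [], [⟨nat_lit 1, [⟨nat_lit 3, [⟨nat_lit 0, nat_lit 2064, nat_lit 17376, nat_lit 13200, nat_lit 1152, nat_lit 4272, R10_275, R7_24, R4_89⟩, ⟨nat_lit 2, nat_lit 8592, nat_lit 17472, nat_lit 13488, nat_lit 336, nat_lit 3120, R10_281, R2_7, R5_65⟩]⟩, ⟨nat_lit 7, [⟨nat_lit 0, nat_lit 2016, nat_lit 17424, nat_lit 12336, nat_lit 1200, nat_lit 4512, R1_257, R7_25, R7_94⟩]⟩]⟩]]]]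
noncomputable def N1511 : T3 (List N0) := [[], [[[⟨nat_lit 4, [⟨nat_lit 4, [⟨nat_lit 4, nat_lit 96, nat_lit 3360, nat_lit 3120, nat_lit 3600, nat_lit 3216, R7_65, R6_75, R6_67⟩, ⟨nat_lit 7, nat_lit 384, nat_lit 9360, nat_lit 9312, nat_lit 18480, nat_lit 13056, R7_194, R13_385, R13_272⟩]⟩]⟩,
 ⟨nat_lit 5, [⟨nat_lit 4, [⟨nat_lit 4, nat_lit 144, nat_lit 3648, nat_lit 4608, nat_lit 3552, nat_lit 3360, R14_96, R4_74, R6_70⟩, ⟨nat_lit 7, nat_lit 432, nat_lit 9936, nat_lit 5136, nat_lit 14064, nat_lit 13104, R14_107, R3_293, R13_273⟩]⟩, ⟨nat_lit 6, [⟨nat_lit 4, nat_lit 1008, nat_lit 3888, nat_lit 6816, nat_lit 3888, nat_lit 3072, R12_142, R4_81, R8_64⟩, ⟨nat_lit 7, nat_lit 1584, nat_lit 10224, nat_lit 8256, nat_lit 14160, nat_lit 10416, R12_172, R3_295, R9_217⟩]⟩, ⟨nat_lit 7, [⟨nat_lit 7, nat_lit 2496, nat_lit 9984,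 nat_lit 13200, nat_lit 14112, nat_lit 2880, R12_275, R3_294, R3_60⟩]⟩]⟩], [], [⟨nat_lit 4, [⟨nat_lit 4, [⟨nat_lit 4, nat_lit 6864, nat_lit 11664, nat_lit 3312, nat_lit 9120, nat_lit 1824, R7_69, R6_190, R8_38⟩, ⟨nat_lit 7, nat_lit 7488, nat_lit 12000, nat_lit 9504, nat_lit 18960, nat_lit 12192, R7_198, R13_395, R9_254⟩]⟩]⟩,
 ⟨nat_lit 5, [⟨nat_lit 4, [⟨nat_lit 4, nat_lit 6912, nat_lit 13968, nat_lit 6432, nat_lit 9840, nat_lit 9792, R14_134, R4_205, R8_204⟩, ⟨nat_lit 7, nat_lit 7536, nat_lit 14688, nat_lit 7104, nat_lit 14928, nat_lit 12960, R14_148, R3_311, R9_270⟩]⟩, ⟨nat_lit 6, [⟨nat_lit 4, nat_lit 8448, nat_lit 14160, nat_lit 7392, nat_lit 10224, nat_lit 1776, R12_154, R4_213, R9_37⟩]⟩]⟩]]], [], [], [[], [], [], [], [], [[], [⟨nat_lit 0, [⟨nat_lit 0, [⟨nat_lit 0, nat_lit 2688, nat_lit 11616, nat_lit 9072,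 nat_lit 3504, nat_lit 2304, R6_189, R7_73, R4_48⟩]⟩, ⟨nat_lit 3, [⟨nat_lit 0, nat_lit 4032, nat_lit 11952, nat_lit 18768, nat_lit 9648, nat_lit 2688, R13_391, R7_201, R5_56⟩]⟩]⟩,
 ⟨nat_lit 1, [⟨nat_lit 0, [⟨nat_lit 0, nat_lit 2736, nat_lit 13920, nat_lit 9744, nat_lit 11616, nat_lit 11184, R4_203, R14_242, R4_233⟩, ⟨nat_lit 2, nat_lit 3120, nat_lit 14112, nat_lit 9984, nat_lit 10320, nat_lit 2880, R4_208, R12_215, R3_60⟩]⟩, ⟨nat_lit 3, [⟨nat_lit 0, nat_lit 4080, nat_lit 14640, nat_lit 14736, nat_lit 12000, nat_lit 13920, R3_307, R14_250, R5_290⟩, ⟨nat_lit 3, nat_lit 5424, nat_lit 14784, nat_lit 14784, nat_lit 16896, nat_lit 16992, R3_308, R12_352, R11_354⟩]⟩]⟩]]], [[[⟨nat_lit 4, [⟨nat_lit 4, [⟨nat_lit 4, nat_lit 0, nat_lit 3120, nat_lit 3360, nat_lit 1536, nat_lit 4032, R4_70, R6_32, R6_84⟩, ⟨nat_lit 7, nat_lit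 192, nat_lit 9312, nat_lit 9360, nat_lit 16656, nat_lit 14448, R4_195, R13_347, R13_301⟩]⟩, ⟨nat_lit 6, [⟨nat_lit 4, nat_lit 720, nat_lit 3312, nat_lit 11664, nat_lit 1920, nat_lit 1824, R3_243, R6_40, R8_38⟩, ⟨nat_lit 7, nat_lit 1200, nat_lit 9504, nat_lit 12000, nat_lit 16704, nat_lit 12192, R3_250, R13_348, R9_254⟩]⟩]⟩,
 ⟨nat_lit 6, [⟨nat_lit 6, [⟨nat_lit 4, nat_lit 768, nat_lit 4176, nat_lit 16512, nat_lit 2064, nat_lit 2688, R10_344, R8_43, R8_56⟩, ⟨nat_lit 6, nat_lit 1056, nat_lit 12624, nat_lit 16560, nat_lit 15120, nat_lit 13728, R10_345, R5_315, R5_286⟩, ⟨nat_lit 7, nat_lit 1248, nat_lit 11184, nat_lit 16608, nat_lit 14256, nat_lit 12288, R10_346, R9_297, R9_256⟩]⟩]⟩,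
 ⟨nat_lit 7, [⟨nat_lit 4, [⟨nat_lit 7, nat_lit 240, nat_lit 10080, nat_lit 4848, nat_lit 1344, nat_lit 14496, R5_101, R3_28, R13_302⟩]⟩, ⟨nat_lit 7, [⟨nat_lit 3, nat_lit 1872, nat_lit 15360, nat_lit 19632, nat_lit 12672, nat_lit 11664, R11_409, R2_264, R2_243⟩, ⟨nat_lit 7, nat_lit 2352, nat_lit 10224, nat_lit 19584, nat_lit 1584, nat_lit 3504, R11_408, R3_33, R3_73⟩]⟩]⟩], [], [⟨nat_lit 4, [⟨nat_lit 4, [⟨nat_lit 4, nat_lit 6720, nat_lit 1440, nat_lit 3408, nat_lit 7632, nat_lit 1872, R4_71, R6_159, R8_39⟩, ⟨nat_lit 7, nat_lit 7200, nat_lit 8496, nat_lit 9456, nat_lit 17376, nat_lit 10320, R4_197, R13_362, R9_215⟩]⟩, ⟨nat_lit 6, [⟨nat_lit 4, nat_lit 8064, nat_lit 1632, nat_lit 11808, nat_lit 8064, nat_lit 1008, R3_246, R6_168, R9_21⟩]⟩]⟩,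
 ⟨nat_lit 6, [⟨nat_lit 6, [⟨nat_lit 4, nat_lit 8112, nat_lit 2592, nat_lit 16704, nat_lit 6576, nat_lit 1440, R10_348, R8_137, R9_30⟩, ⟨nat_lit 6, nat_lit 8880, nat_lit 11328, nat_lit 16752, nat_lit 15696, nat_lit 4320, R10_349, R5_327, R0_90⟩]⟩]⟩,
 ⟨nat_lit 7, [⟨nat_lit 4, [⟨nat_lit 7, nat_lit 7248, nat_lit 9264, nat_lit 6576, nat_lit 7824, nat_lit 10656, R5_137, R3_163, R9_222⟩]⟩, ⟨nat_lit 7, [⟨nat_lit 7, nat_lit 9120, nat_lit 9408, nat_lit 19728, nat_lit 8112, nat_lit 5280, R11_411, R3_169, R0_110⟩]⟩]⟩], [⟨nat_lit 4, [⟨nat_lit 4, [⟨nat_lit 7, nat_lit 10224, nat_lit 3408, nat_lit 9408, nat_lit 17952, nat_lit 2784, R4_196, R13_374, R3_58⟩]⟩, ⟨nat_lit 6, [⟨nat_lit 7, nat_lit 10944, nat_lit 3696, nat_lit 12144, nat_lit 18000, nat_lit 1392, R3_253, R13_375, R0_29⟩]⟩]⟩,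
 ⟨nat_lit 6, [⟨nat_lit 6, [⟨nat_lit 7, nat_lit 10992, nat_lit 6672, nat_lit 16656, nat_lit 14928, nat_lit 1632, R10_347, R9_311, R0_34⟩]⟩]⟩,
 ⟨nat_lit 7, [⟨nat_lit 4, [⟨nat_lit 3, nat_lit 9648, nat_lit 12960, nat_lit 15840, nat_lit 13440, nat_lit 10368, R5_330, R2_280, R2_216⟩, ⟨nat_lit 7, nat_lit 10272, nat_lit 4272, nat_lit 5424, nat_lit 6528, nat_lit 7536, R5_113, R3_136, R3_157⟩]⟩, ⟨nat_lit 6, [⟨nat_lit 7, nat_lit 11040, nat_lit 4560, nat_lit 13104, nat_lit 6912, nat_lit 1488, R0_273, R3_144, R0_31⟩]⟩, ⟨nat_lit 7, [⟨nat_lit 3, nat_lit 11520, nat_lit 13344, nat_lit 19680, nat_lit 13488, nat_lit 12144, R11_410, R2_281, R12_253⟩]⟩]⟩]], [[⟨nat_lit 4, [⟨nat_lit 4, [⟨nat_lit 4, nat_lit 48, nat_lit 4608, nat_lit 3648, nat_lit 3552, nat_lit 11520, R4_76, R4_74, R6_240⟩, ⟨nat_lit 7, nat_lit 288, nat_lit 5136, nat_lit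 9936, nat_lit 14064, nat_lit 15024, R4_207, R3_293, R13_313⟩]⟩, ⟨nat_lit 6, [⟨nat_lit 4, nat_lit 816, nat_lit 6432, nat_lit 13968, nat_lit 9840, nat_lit 9792, R3_291, R4_205, R8_204⟩, ⟨nat_lit 7, nat_lit 1344, nat_lit 7104, nat_lit 14688, nat_lit 14928, nat_lit 12960, R3_306, R3_311, R9_270⟩]⟩]⟩,
 ⟨nat_lit 6, [⟨nat_lit 6, [⟨nat_lit 4, nat_lit 864, nat_lit 6480, nat_lit 16800, nat_lit 6144, nat_lit 10368, R10_350, R5_128, R8_216⟩, ⟨nat_lit 6, nat_lit 1104, nat_lit 7776, nat_lit 16848, nat_lit 19440, nat_lit 14256, R10_351, R11_405, R5_297⟩, ⟨nat_lit 7, nat_lit 1392, nat_lit 7200, nat_lit 16896, nat_lit 12960, nat_lit 13056, R10_352, R0_270, R9_272⟩]⟩]⟩,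
 ⟨nat_lit 7, [⟨nat_lit 4, [⟨nat_lit 7, nat_lit 336, nat_lit 5184, nat_lit 4944, nat_lit 16176, nat_lit 15072, R5_103, R10_337, R13_314⟩]⟩, ⟨nat_lit 7, [⟨nat_lit 3, nat_lit 1920, nat_lit 6000, nat_lit 19824, nat_lit 14016, nat_lit 11808, R11_413, R1_292, R2_246⟩, ⟨nat_lit 7, nat_lit 2400, nat_lit 5808, nat_lit 19776, nat_lit 16224, nat_lit 10992, R11_412, R10_338, R3_229⟩]⟩]⟩], [⟨nat_lit 0, [⟨nat_lit 0, [⟨nat_lit 0, nat_lit 2976, nat_lit 5904, nat_lit 3744, nat_lit 3984, nat_lit 3120, R4_78, R4_83, R4_65⟩, ⟨nat_lit 2, nat_lit 3504, nat_lit 5952, nat_lit 10080, nat_lit 14208, nat_lit 9840, R4_210, R3_296, R3_205⟩]⟩, ⟨nat_lit 3, [⟨nat_lit 0, nat_lit 4416, nat_lit 6048, nat_lit 14016, nat_lit 10320, nat_lit 864, R3_292, R4_215, R5_18⟩, ⟨nat_lit 2, nat_lit 5088, nat_lit 6192, nat_lit 14880, nat_lit 15024, nat_lit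 11136, R3_310, R3_313, R0_232⟩]⟩]⟩,
 ⟨nat_lit 2, [⟨nat_lit 0, [⟨nat_lit 2, nat_lit 3552, nat_lit 6000, nat_lit 5616, nat_lit 18192, nat_lit 10224, R5_117, R10_379, R3_213⟩]⟩, ⟨nat_lit 2, [⟨nat_lit 2, nat_lit 3792, nat_lit 6672, nat_lit 19872, nat_lit 18240, nat_lit 13104, R11_414, R10_380, R10_273⟩, ⟨nat_lit 6, nat_lit 3984, nat_lit 6432, nat_lit 19920, nat_lit 15120, nat_lit 12240, R11_415, R1_315, R1_255⟩]⟩, ⟨nat_lit 3, [⟨nat_lit 2, nat_lit 5136, nat_lit 6288, nat_lit 13200, nat_lit 18288, nat_lit 11184, R0_275, R10_381, R0_233⟩]⟩]⟩,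
 ⟨nat_lit 3, [⟨nat_lit 3, [⟨nat_lit 0, nat_lit 4464, nat_lit 6096, nat_lit 16944, nat_lit 7056, nat_lit 7824, R10_353, R5_147, R5_163⟩, ⟨nat_lit 2, nat_lit 5184, nat_lit 6240, nat_lit 17040, nat_lit 13824, nat_lit 11232, R10_355, R0_288, R0_234⟩, ⟨nat_lit 3, nat_lit 5760, nat_lit 6144, nat_lit 16992, nat_lit 20592, nat_lit 17328, R10_354, R11_429, R11_361⟩]⟩, ⟨nat_lit 7, [⟨nat_lit 3, nat_lit 6480, nat_lit 3936, nat_lit 14112, nat_lit 20640, nat_lit 12288, R1_294, R11_430, R1_256⟩]⟩]⟩,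
 ⟨nat_lit 4, [⟨nat_lit 4, [⟨nat_lit 4, nat_lit 5904, nat_lit 2976, nat_lit 3744, nat_lit 3984, nat_lit 3120, R4_78, R4_83, R4_65⟩, ⟨nat_lit 7, nat_lit 5952, nat_lit 3504, nat_lit 10080, nat_lit 14208, nat_lit 9840, R4_210, R3_296, R3_205⟩]⟩, ⟨nat_lit 6, [⟨nat_lit 4, nat_lit 6048, nat_lit 4416, nat_lit 14016, nat_lit 10320, nat_lit 864, R3_292, R4_215, R5_18⟩, ⟨nat_lit 7, nat_lit 6192, nat_lit 5088, nat_lit 14880, nat_lit 15024, nat_lit 11136, R3_310, R3_313, R0_232⟩]⟩]⟩,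
 ⟨nat_lit 6, [⟨nat_lit 2, [⟨nat_lit 6, nat_lit 3936, nat_lit 6480, nat_lit 14112, nat_lit 20640, nat_lit 12288, R1_294, R11_430, R1_256⟩]⟩, ⟨nat_lit 6, [⟨nat_lit 4, nat_lit 6096, nat_lit 4464, nat_lit 16944, nat_lit 7056, nat_lit 7824, R10_353, R5_147, R5_163⟩, ⟨nat_lit 6, nat_lit 6144, nat_lit 5760, nat_lit 16992, nat_lit 20592, nat_lit 17328, R10_354, R11_429, R11_361⟩, ⟨nat_lit 7, nat_lit 6240, nat_lit 5184, nat_lit 17040, nat_lit 13824, nat_lit 11232, R10_355, R0_288, R0_234⟩]⟩]⟩,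
 ⟨nat_lit 7, [⟨nat_lit 4, [⟨nat_lit 7, nat_lit 6000, nat_lit 3552, nat_lit 5616, nat_lit 18192, nat_lit 10224, R5_117, R10_379, R3_213⟩]⟩, ⟨nat_lit 6, [⟨nat_lit 7, nat_lit 6288, nat_lit 5136, nat_lit 13200, nat_lit 18288, nat_lit 11184, R0_275, R10_381, R0_233⟩]⟩, ⟨nat_lit 7, [⟨nat_lit 3, nat_lit 6432, nat_lit 3984, nat_lit 19920, nat_lit 15120, nat_lit 12240, R11_415, R1_315, R1_255⟩, ⟨nat_lit 7, nat_lit 6672, nat_lit 3792, nat_lit 19872, nat_lit 18240, nat_lit 13104, R11_414, R10_380, R10_273⟩]⟩]⟩], [⟨nat_lit 4, [⟨nat_lit 4, [⟨nat_lit 4, nat_lit 6816, nat_lit 6816, nat_lit 3888, nat_lit 3888, nat_lit 3072, R4_81, R4_81, R8_64⟩, ⟨nat_lit 7, nat_lit 7392, nat_lit 8256, nat_lit 10224, nat_lit 14160, nat_lit 10416, R4_213, R3_295, R9_217⟩]⟩, ⟨nat_lit 6, [⟨nat_lit 4, nat_lit 8256, nat_lit 7392, nat_lit 14160, nat_lit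 10224, nat_lit 10416, R3_295, R4_213, R9_217⟩]⟩]⟩,
 ⟨nat_lit 6, [⟨nat_lit 6, [⟨nat_lit 4, nat_lit 8304, nat_lit 7440, nat_lit 17136, nat_lit 6672, nat_lit 10752, R10_357, R5_139, R9_224⟩, ⟨nat_lit 6, nat_lit 8976, nat_lit 9216, nat_lit 17184, nat_lit 20016, nat_lit 5520, R10_358, R11_417, R0_115⟩]⟩]⟩,
 ⟨nat_lit 7, [⟨nat_lit 4, [⟨nat_lit 7, nat_lit 7440, nat_lit 8304, nat_lit 6672, nat_lit 17136, nat_lit 10752, R5_139, R10_357, R9_224⟩]⟩, ⟨nat_lit 7, [⟨nat_lit 7, nat_lit 9216, nat_lit 8976, nat_lit 20016, nat_lit 17184, nat_lit 5520, R11_417, R10_358, R0_115⟩]⟩]⟩], [⟨nat_lit 3, [⟨nat_lit 7, [⟨nat_lit 3, nat_lit 11616, nat_lit 14112, nat_lit 14592, nat_lit 20544, nat_lit 12240, R1_304, R11_428, R12_255⟩]⟩]⟩,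
 ⟨nat_lit 4, [⟨nat_lit 4, [⟨nat_lit 7, nat_lit 10320, nat_lit 13200, nat_lit 9984, nat_lit 14112, nat_lit 2880, R4_208, R3_294, R3_60⟩]⟩, ⟨nat_lit 6, [⟨nat_lit 7, nat_lit 11088, nat_lit 16272, nat_lit 14832, nat_lit 14976, nat_lit 10752, R3_309, R3_312, R0_224⟩]⟩]⟩,
 ⟨nat_lit 6, [⟨nat_lit 6, [⟨nat_lit 7, nat_lit 11136, nat_lit 16800, nat_lit 17088, nat_lit 13632, nat_lit 11088, R10_356, R0_284, R0_231⟩]⟩]⟩,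
 ⟨nat_lit 7, [⟨nat_lit 4, [⟨nat_lit 3, nat_lit 9696, nat_lit 12528, nat_lit 15936, nat_lit 14784, nat_lit 10464, R5_332, R1_308, R2_218⟩, ⟨nat_lit 7, nat_lit 10368, nat_lit 13440, nat_lit 5472, nat_lit 17808, nat_lit 7584, R5_114, R10_371, R3_158⟩]⟩, ⟨nat_lit 6, [⟨nat_lit 7, nat_lit 11184, nat_lit 16464, nat_lit 13248, nat_lit 17856, nat_lit 10944, R0_276, R10_372, R0_228⟩]⟩, ⟨nat_lit 7, [⟨nat_lit 3, nat_lit 11568, nat_lit 14256, nat_lit 19968, nat_lit 14832, nat_lit 12288, R11_416, R1_309, R12_256⟩]⟩]⟩]], [[], [], [⟨nat_lit 4, [⟨nat_lit 4, [⟨nat_lit 4, nat_lit 6768, nat_lit 912, nat_lit 4128, nat_lit 1968, nat_lit 2736, R4_86, R8_41, R8_57⟩, ⟨nat_lit 5, nat_lit 7056, nat_lit 6336, nat_lit 11760, nat_lit 16032, nat_lit 12720, R4_245, R5_334, R5_265⟩, ⟨nat_lit 7, nat_lit 7296, nat_lit 9312, nat_lit 10464, nat_lit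 15168, nat_lit 10368, R4_218, R9_316, R9_216⟩]⟩, ⟨nat_lit 6, [⟨nat_lit 4, nat_lit 8160, nat_lit 1104, nat_lit 16944, nat_lit 6480, nat_lit 6432, R3_353, R8_135, R9_134⟩, ⟨nat_lit 5, nat_lit 8640, nat_lit 6528, nat_lit 17280, nat_lit 16176, nat_lit 4272, R3_360, R5_337, R0_89⟩]⟩]⟩,
 ⟨nat_lit 6, [⟨nat_lit 6, [⟨nat_lit 4, nat_lit 8208, nat_lit 2064, nat_lit 17280, nat_lit 6672, nat_lit 7296, R10_360, R9_139, R9_152⟩, ⟨nat_lit 5, nat_lit 8688, nat_lit 7440, nat_lit 17376, nat_lit 4512, nat_lit 5136, R10_362, R0_94, R0_107⟩, ⟨nat_lit 6, nat_lit 8928, nat_lit 11904, nat_lit 17328, nat_lit 4416, nat_lit 5184, R10_361, R0_92, R0_108⟩]⟩]⟩,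
 ⟨nat_lit 7, [⟨nat_lit 4, [⟨nat_lit 7, nat_lit 7344, nat_lit 10080, nat_lit 6816, nat_lit 912, nat_lit 10704, R5_142, R0_19, R9_223⟩]⟩, ⟨nat_lit 7, [⟨nat_lit 7, nat_lit 9168, nat_lit 10224, nat_lit 20112, nat_lit 6144, nat_lit 5328, R11_419, R0_128, R0_111⟩]⟩]⟩]], [[], [], [], [⟨nat_lit 4, [⟨nat_lit 4, [⟨nat_lit 3, nat_lit 9744, nat_lit 13344, nat_lit 14016, nat_lit 13824, nat_lit 10320, R4_292, R2_288, R2_215⟩, ⟨nat_lit 7, nat_lit 10416, nat_lit 2880, nat_lit 9600, nat_lit 3216, nat_lit 2832, R4_200, R3_67, R3_59⟩]⟩, ⟨nat_lit 6, [⟨nat_lit 7, nat_lit 11232, nat_lit 3168, nat_lit 15600, nat_lit 9264, nat_lit 6528, R3_325, R3_193, R0_136⟩]⟩]⟩,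
 ⟨nat_lit 6, [⟨nat_lit 6, [⟨nat_lit 7, nat_lit 11280, nat_lit 5376, nat_lit 17232, nat_lit 3840, nat_lit 6672, R10_359, R0_80, R0_139⟩]⟩]⟩,
 ⟨nat_lit 7, [⟨nat_lit 4, [⟨nat_lit 3, nat_lit 9792, nat_lit 14304, nat_lit 15888, nat_lit 14496, nat_lit 10416, R5_331, R12_302, R2_217⟩]⟩, ⟨nat_lit 7, [⟨nat_lit 3, nat_lit 11664, nat_lit 14688, nat_lit 20064, nat_lit 14544, nat_lit 12192, R11_418, R12_303, R12_254⟩]⟩]⟩]]], [[], [[], [⟨nat_lit 0, [⟨nat_lit 0, [⟨nat_lit 0, nat_lit 2928, nat_lit 768, nat_lit 624, nat_lit 4176, nat_lit 2736, R8_13, R4_87, R4_57⟩, ⟨nat_lit 2, nat_lit 3408, nat_lit 816, nat_lit 6000, nat_lit 16992, nat_lit 7056, R8_125, R3_354, R3_147⟩]⟩, ⟨nat_lit 3, [⟨nat_lit 0, nat_lit 4320, nat_lit 9168, nat_lit 15120, nat_lit 10512, nat_lit 672, R9_315, R4_219, R5_14⟩, ⟨nat_lit 2, nat_lit 4992, nat_lit 9216,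 nat_lit 15312, nat_lit 17136, nat_lit 10800, R9_319, R3_357, R0_225⟩]⟩]⟩,
 ⟨nat_lit 2, [⟨nat_lit 0, [⟨nat_lit 2, nat_lit 3456, nat_lit 1968, nat_lit 5040, nat_lit 18336, nat_lit 7440, R9_105, R10_382, R3_155⟩]⟩, ⟨nat_lit 2, [⟨nat_lit 2, nat_lit 3744, nat_lit 11808, nat_lit 3072, nat_lit 18384, nat_lit 13008, R0_64, R10_383, R10_271⟩, ⟨nat_lit 6, nat_lit 3888, nat_lit 11760, nat_lit 13920, nat_lit 15168, nat_lit 12192, R0_290, R1_316, R1_254⟩]⟩]⟩,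
 ⟨nat_lit 3, [⟨nat_lit 3, [⟨nat_lit 0, nat_lit 4368, nat_lit 9888, nat_lit 864, nat_lit 7248, nat_lit 7632, R0_18, R5_151, R5_159⟩, ⟨nat_lit 2, nat_lit 5040, nat_lit 9984, nat_lit 8976, nat_lit 13872, nat_lit 10848, R0_187, R0_289, R0_226⟩, ⟨nat_lit 3, nat_lit 5712, nat_lit 9936, nat_lit 6096, nat_lit 20736, nat_lit 17040, R0_127, R11_432, R11_355⟩]⟩]⟩]], [], [], [], [[], [⟨nat_lit 0, [⟨nat_lit 0, [⟨nat_lit 0, nat_lit 2832, nat_lit 17424, nat_lit 720, nat_lit 4464, nat_lit 2688, R8_15, R7_93, R4_56⟩, ⟨nat_lit 2, nat_lit 3264, nat_lit 17568, nat_lit 6096, nat_lit 2880, nat_lit 7104, R8_127, R2_60, R3_148⟩]⟩, ⟨nat_lit 3, [⟨nat_lit 0, nat_lit 4224, nat_lit 17472, nat_lit 14208, nat_lit 11328, nat_lit 3072, R9_296, R7_236, R5_64⟩, ⟨nat_lit 2, nat_lit 4896, nat_lit 17616, nat_lit 14544, nat_lit 10224, nat_lit 10896,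 R9_303, R2_213, R0_227⟩, ⟨nat_lit 3, nat_lit 5568, nat_lit 17520, nat_lit 14832, nat_lit 6816, nat_lit 17088, R9_309, R2_142, R11_356⟩]⟩]⟩,
 ⟨nat_lit 1, [⟨nat_lit 0, [⟨nat_lit 0, nat_lit 2880, nat_lit 17664, nat_lit 5280, nat_lit 11664, nat_lit 11472, R5_110, R14_243, R4_239⟩, ⟨nat_lit 2, nat_lit 3360, nat_lit 17808, nat_lit 5472, nat_lit 10368, nat_lit 7584, R5_114, R12_216, R3_158⟩]⟩, ⟨nat_lit 3, [⟨nat_lit 0, nat_lit 4272, nat_lit 17712, nat_lit 12912, nat_lit 12096, nat_lit 14208, R0_269, R14_252, R5_296⟩, ⟨nat_lit 2, nat_lit 4944, nat_lit 17856, nat_lit 13248, nat_lit 11184, nat_lit 10944, R0_276, R12_233, R0_228⟩, ⟨nat_lit 3, nat_lit 5616, nat_lit 17760, nat_lit 13536, nat_lit 17328, nat_lit 17184, R0_282, R12_361, R11_358⟩]⟩]⟩,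
 ⟨nat_lit 2, [⟨nat_lit 0, [⟨nat_lit 2, nat_lit 3312, nat_lit 17952, nat_lit 4992, nat_lit 2352, nat_lit 7488, R9_104, R1_49, R3_156⟩]⟩, ⟨nat_lit 2, [⟨nat_lit 2, nat_lit 3696, nat_lit 18000, nat_lit 3168, nat_lit 7728, nat_lit 13056, R0_66, R1_161, R10_272⟩]⟩]⟩,
 ⟨nat_lit 3, [⟨nat_lit 3, [⟨nat_lit 3, nat_lit 5664, nat_lit 17904, nat_lit 3744, nat_lit 5520, nat_lit 17136, R0_78, R1_115, R11_357⟩]⟩]⟩], [], [], [], [⟨nat_lit 0, [⟨nat_lit 0, [⟨nat_lit 0, nat_lit 13584, nat_lit 14160, nat_lit 1104, nat_lit 4320, nat_lit 2688, R8_23, R7_90, R7_56⟩, ⟨nat_lit 2, nat_lit 13680, nat_lit 14400, nat_lit 6240, nat_lit 2736, nat_lit 816, R8_130, R2_57, R2_17⟩, ⟨nat_lit 3, nat_lit 13824, nat_lit 14256, nat_lit 7008, nat_lit 768, nat_lit 2784, R8_146, R2_16, R2_58⟩]⟩, ⟨nat_lit 1, [⟨nat_lit 0, nat_lit 13920, nat_lit 14208, nat_lit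 15072, nat_lit 12768, nat_lit 14352, R5_314, R7_266, R14_299⟩, ⟨nat_lit 2, nat_lit 14304, nat_lit 14448, nat_lit 15648, nat_lit 11472, nat_lit 10176, R5_326, R2_239, R12_212⟩, ⟨nat_lit 3, nat_lit 14496, nat_lit 14304, nat_lit 15888, nat_lit 10416, nat_lit 9792, R5_331, R2_217, R12_204⟩]⟩, ⟨nat_lit 3, [⟨nat_lit 3, nat_lit 14736, nat_lit 14352, nat_lit 14880, nat_lit 6912, nat_lit 2256, R9_310, R2_144, R1_47⟩]⟩]⟩,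
 ⟨nat_lit 1, [⟨nat_lit 0, [⟨nat_lit 0, nat_lit 13632, nat_lit 14496, nat_lit 15168, nat_lit 13872, nat_lit 12000, R5_316, R14_289, R7_250⟩, ⟨nat_lit 2, nat_lit 13776, nat_lit 14784, nat_lit 15936, nat_lit 9696, nat_lit 10464, R5_332, R12_202, R2_218⟩, ⟨nat_lit 3, nat_lit 13872, nat_lit 14640, nat_lit 15744, nat_lit 10128, nat_lit 11520, R5_328, R12_211, R2_240⟩]⟩, ⟨nat_lit 1, [⟨nat_lit 0, nat_lit 13968, nat_lit 14544, nat_lit 19392, nat_lit 14544, nat_lit 15168, R11_404, R14_303, R14_316⟩, ⟨nat_lit 1, nat_lit 14112, nat_lit 14592, nat_lit 20544, nat_lit 11616, nat_lit 12240, R11_428, R12_242, R12_255⟩, ⟨nat_lit 2, nat_lit 14400, nat_lit 14832, nat_lit 19968, nat_lit 11568, nat_lit 12288, R11_416, R12_241, R12_256⟩, ⟨nat_lit 3, nat_lit 14544, nat_lit 14688, nat_lit 20208, nat_lit 12192, nat_lit 11664, R11_421,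 R12_254, R12_243⟩]⟩, ⟨nat_lit 3, [⟨nat_lit 3, nat_lit 14784, nat_lit 14736, nat_lit 13584, nat_lit 10800, nat_lit 12096, R0_283, R12_225, R1_252⟩]⟩]⟩,
 ⟨nat_lit 2, [⟨nat_lit 0, [⟨nat_lit 2, nat_lit 13728, nat_lit 14928, nat_lit 14976, nat_lit 2208, nat_lit 6960, R9_312, R1_46, R2_145⟩]⟩, ⟨nat_lit 1, [⟨nat_lit 2, nat_lit 14352, nat_lit 14976, nat_lit 13680, nat_lit 12048, nat_lit 10848, R0_285, R1_251, R12_226⟩]⟩, ⟨nat_lit 2, [⟨nat_lit 2, nat_lit 14688, nat_lit 15024, nat_lit 3552, nat_lit 7584, nat_lit 5664, R0_74, R1_158, R1_118⟩]⟩]⟩,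
 ⟨nat_lit 3, [⟨nat_lit 3, [⟨nat_lit 3, nat_lit 14832, nat_lit 14880, nat_lit 3504, nat_lit 5616, nat_lit 7632, R0_73, R1_117, R1_159⟩]⟩]⟩]]], [[], [[], [], [], [⟨nat_lit 3, [⟨nat_lit 7, [⟨nat_lit 3, nat_lit 11856, nat_lit 14592, nat_lit 14112, nat_lit 20688, nat_lit 11952, R12_294, R11_431, R12_249⟩]⟩]⟩]], [], [], [], [[⟨nat_lit 0, [⟨nat_lit 7, [⟨nat_lit 3, nat_lit 2016, nat_lit 15360, nat_lit 13296, nat_lit 13104, nat_lit 11424, R2_277, R2_273, R2_238⟩]⟩]⟩,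
 ⟨nat_lit 1, [⟨nat_lit 7, [⟨nat_lit 3, nat_lit 2064, nat_lit 15744, nat_lit 14640, nat_lit 12624, nat_lit 11520, R1_305, R12_263, R2_240⟩]⟩]⟩,
 ⟨nat_lit 3, [⟨nat_lit 7, [⟨nat_lit 3, nat_lit 2112, nat_lit 15648, nat_lit 14160, nat_lit 14448, nat_lit 11472, R12_295, R1_301, R2_239⟩]⟩]⟩], [⟨nat_lit 0, [⟨nat_lit 3, [⟨nat_lit 0, nat_lit 4512, nat_lit 13296, nat_lit 1824, nat_lit 10512, nat_lit 2880, R3_38, R7_219, R5_60⟩, ⟨nat_lit 2, nat_lit 5232, nat_lit 13440, nat_lit 8400, nat_lit 9600, nat_lit 10992, R3_175, R2_200, R0_229⟩, ⟨nat_lit 3, nat_lit 5808, nat_lit 13344, nat_lit 6768, nat_lit 4656, nat_lit 17232, R3_141, R2_97, R11_359⟩]⟩, ⟨nat_lit 7, [⟨nat_lit 3, nat_lit 6528, nat_lit 13392, nat_lit 13392, nat_lit 13632, nat_lit 12000, R2_279, R2_284, R1_250⟩]⟩]⟩,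
 ⟨nat_lit 1, [⟨nat_lit 3, [⟨nat_lit 0, nat_lit 4560, nat_lit 13488, nat_lit 16128, nat_lit 12048, nat_lit 14112, R10_336, R14_251, R5_294⟩, ⟨nat_lit 2, nat_lit 5328, nat_lit 13632, nat_lit 17088, nat_lit 11136, nat_lit 11088, R10_356, R12_232, R0_231⟩, ⟨nat_lit 3, nat_lit 5856, nat_lit 13536, nat_lit 17760, nat_lit 17088, nat_lit 17280, R10_370, R12_356, R11_360⟩]⟩, ⟨nat_lit 7, [⟨nat_lit 3, nat_lit 6576, nat_lit 13584, nat_lit 14736, nat_lit 15408, nat_lit 12096, R1_307, R12_321, R1_252⟩]⟩]⟩,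
 ⟨nat_lit 2, [⟨nat_lit 3, [⟨nat_lit 2, nat_lit 5280, nat_lit 13728, nat_lit 8928, nat_lit 10416, nat_lit 11040, R0_186, R1_217, R0_230⟩]⟩]⟩,
 ⟨nat_lit 3, [⟨nat_lit 7, [⟨nat_lit 3, nat_lit 6624, nat_lit 13680, nat_lit 14208, nat_lit 14976, nat_lit 12048, R12_296, R1_312, R1_251⟩]⟩]⟩], [], [⟨nat_lit 0, [⟨nat_lit 7, [⟨nat_lit 3, nat_lit 11712, nat_lit 20160, nat_lit 13344, nat_lit 13488, nat_lit 12000, R2_278, R2_281, R12_250⟩]⟩]⟩,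
 ⟨nat_lit 1, [⟨nat_lit 7, [⟨nat_lit 3, nat_lit 11760, nat_lit 20208, nat_lit 14688, nat_lit 14640, nat_lit 12096, R1_306, R12_305, R12_252⟩]⟩]⟩,
 ⟨nat_lit 3, [⟨nat_lit 7, [⟨nat_lit 3, nat_lit 11808, nat_lit 20256, nat_lit 14256, nat_lit 14832, nat_lit 12048, R12_297, R1_309, R12_251⟩]⟩]⟩]]]]
noncomputable def N1522 : T3 (List N0) := [[], [], [], [], [], [[[⟨nat_lit 0, [⟨nat_lit 0, [⟨nat_lit 0, nat_lit 0, nat_lit 13488, nat_lit 3216, nat_lit 13680, nat_lit 10704, R4_67, R6_285, R6_223⟩, ⟨nat_lit 1, nat_lit 5808, nat_lit 14304, nat_lit 11664, nat_lit 13440, nat_lit 11568, R4_243, R4_280, R4_241⟩, ⟨nat_lit 2, nat_lit 7968, nat_lit 16800, nat_lit 9120, nat_lit 13392, nat_lit 9648, R4_190, R8_279, R8_201⟩]⟩, ⟨nat_lit 3, [⟨nat_lit 0, nat_lit 48, nat_lit 13584, nat_lit 15888, nat_lit 13776, nat_lit 13536, R3_331, R6_287,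 R13_282⟩, ⟨nat_lit 1, nat_lit 5856, nat_lit 14400, nat_lit 16656, nat_lit 13584, nat_lit 10272, R3_347, R4_283, R3_214⟩, ⟨nat_lit 2, nat_lit 8016, nat_lit 16896, nat_lit 16224, nat_lit 13632, nat_lit 11040, R3_338, R8_284, R9_230⟩]⟩]⟩,
 ⟨nat_lit 2, [⟨nat_lit 0, [⟨nat_lit 2, nat_lit 8208, nat_lit 17088, nat_lit 6336, nat_lit 16320, nat_lit 10224, R5_132, R5_340, R8_213⟩]⟩, ⟨nat_lit 2, [⟨nat_lit 2, nat_lit 8256, nat_lit 17232, nat_lit 18576, nat_lit 16416, nat_lit 12912, R11_387, R5_342, R5_269⟩]⟩, ⟨nat_lit 3, [⟨nat_lit 2, nat_lit 8304, nat_lit 17136, nat_lit 12288, nat_lit 16368, nat_lit 11136, R0_256, R5_341, R9_232⟩]⟩]⟩,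
 ⟨nat_lit 3, [⟨nat_lit 3, [⟨nat_lit 0, nat_lit 240, nat_lit 13680, nat_lit 14736, nat_lit 19200, nat_lit 13584, R10_307, R13_400, R13_283⟩, ⟨nat_lit 1, nat_lit 5952, nat_lit 14544, nat_lit 14880, nat_lit 15456, nat_lit 10320, R10_310, R3_322, R3_215⟩, ⟨nat_lit 2, nat_lit 8544, nat_lit 17040, nat_lit 14832, nat_lit 15552, nat_lit 11088, R10_309, R9_324, R9_231⟩, ⟨nat_lit 3, nat_lit 11184, nat_lit 15024, nat_lit 14784, nat_lit 15408, nat_lit 10416, R10_308, R3_321, R3_217⟩]⟩, ⟨nat_lit 7, [⟨nat_lit 3, nat_lit 11136, nat_lit 15072, nat_lit 13152, nat_lit 15360, nat_lit 10608, R1_274, R3_320, R2_221⟩]⟩]⟩,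
 ⟨nat_lit 7, [⟨nat_lit 7, [⟨nat_lit 3, nat_lit 10944, nat_lit 15120, nat_lit 20928, nat_lit 14064, nat_lit 10656, R11_436, R2_293, R2_222⟩]⟩]⟩], [], [⟨nat_lit 0, [⟨nat_lit 0, [⟨nat_lit 0, nat_lit 96, nat_lit 12192, nat_lit 3264, nat_lit 14064, nat_lit 432, R4_68, R6_293, R4_9⟩, ⟨nat_lit 2, nat_lit 8064, nat_lit 15024, nat_lit 9168, nat_lit 13440, nat_lit 528, R4_191, R8_280, R5_11⟩]⟩, ⟨nat_lit 3, [⟨nat_lit 0, nat_lit 144, nat_lit 12288, nat_lit 15984, nat_lit 14208, nat_lit 3648, R3_333, R6_296, R3_76⟩, ⟨nat_lit 2, nat_lit 8112, nat_lit 15120, nat_lit 16320, nat_lit 13728, nat_lit 9552, R3_340, R8_286, R0_199⟩]⟩]⟩,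
 ⟨nat_lit 2, [⟨nat_lit 0, [⟨nat_lit 2, nat_lit 8352, nat_lit 15360, nat_lit 7200, nat_lit 16656, nat_lit 7488, R5_150, R5_347, R5_156⟩]⟩, ⟨nat_lit 2, [⟨nat_lit 2, nat_lit 8400, nat_lit 15504, nat_lit 19056, nat_lit 16752, nat_lit 15840, R11_397, R5_349, R11_330⟩]⟩, ⟨nat_lit 3, [⟨nat_lit 2, nat_lit 8448, nat_lit 15408, nat_lit 12672, nat_lit 16704, nat_lit 9648, R0_264, R5_348, R0_201⟩]⟩]⟩,
 ⟨nat_lit 3, [⟨nat_lit 3, [⟨nat_lit 0, nat_lit 288, nat_lit 12432, nat_lit 15504, nat_lit 19584, nat_lit 4176, R10_323, R13_408, R3_87⟩, ⟨nat_lit 2, nat_lit 8592, nat_lit 15264, nat_lit 15600, nat_lit 15840, nat_lit 9600, R10_325, R9_330, R0_200⟩, ⟨nat_lit 3, nat_lit 11280, nat_lit 14208, nat_lit 15552, nat_lit 15744, nat_lit 12288, R10_324, R3_328, R10_256⟩]⟩, ⟨nat_lit 7, [⟨nat_lit 3, nat_lit 11232, nat_lit 14256, nat_lit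 13776, nat_lit 15696, nat_lit 10992, R1_287, R3_327, R1_229⟩]⟩]⟩,
 ⟨nat_lit 7, [⟨nat_lit 7, [⟨nat_lit 3, nat_lit 11040, nat_lit 14304, nat_lit 21024, nat_lit 14304, nat_lit 11040, R11_438, R2_298, R1_230⟩]⟩]⟩], [⟨nat_lit 0, [⟨nat_lit 3, [⟨nat_lit 0, nat_lit 192, nat_lit 11904, nat_lit 15936, nat_lit 13968, nat_lit 624, R3_332, R6_291, R3_13⟩, ⟨nat_lit 1, nat_lit 5904, nat_lit 13920, nat_lit 16704, nat_lit 13776, nat_lit 3360, R3_348, R4_287, R10_70⟩, ⟨nat_lit 2, nat_lit 8160, nat_lit 14640, nat_lit 16272, nat_lit 13680, nat_lit 9504, R3_339, R8_285, R0_198⟩]⟩]⟩,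
 ⟨nat_lit 2, [⟨nat_lit 3, [⟨nat_lit 2, nat_lit 8496, nat_lit 15696, nat_lit 12576, nat_lit 16800, nat_lit 9840, R0_262, R5_350, R0_205⟩]⟩]⟩,
 ⟨nat_lit 3, [⟨nat_lit 3, [⟨nat_lit 0, nat_lit 384, nat_lit 12384, nat_lit 15216, nat_lit 19680, nat_lit 4224, R10_317, R13_410, R3_88⟩, ⟨nat_lit 1, nat_lit 6048, nat_lit 14160, nat_lit 15312, nat_lit 15792, nat_lit 3936, R10_319, R3_329, R10_82⟩, ⟨nat_lit 2, nat_lit 8640, nat_lit 15216, nat_lit 15264, nat_lit 15936, nat_lit 9744, R10_318, R9_332, R0_203⟩]⟩, ⟨nat_lit 7, [⟨nat_lit 0, nat_lit 336, nat_lit 12336, nat_lit 13584, nat_lit 19728, nat_lit 3936, R1_283, R13_411, R2_82⟩, ⟨nat_lit 1, nat_lit 6000, nat_lit 14112, nat_lit 13680, nat_lit 15840, nat_lit 3408, R1_285, R3_330, R1_71⟩, ⟨nat_lit 3, nat_lit 11328, nat_lit 13872, nat_lit 13632, nat_lit 15648, nat_lit 10608,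 R1_284, R3_326, R12_221⟩]⟩]⟩,
 ⟨nat_lit 7, [⟨nat_lit 7, [⟨nat_lit 3, nat_lit 11088, nat_lit 12768, nat_lit 20976, nat_lit 14352, nat_lit 10560, R11_437, R2_299, R12_220⟩]⟩]⟩]], [[⟨nat_lit 0, [⟨nat_lit 0, [⟨nat_lit 0, nat_lit 624, nat_lit 8160, nat_lit 4080, nat_lit 3408, nat_lit 11472, R4_85, R8_71, R6_239⟩, ⟨nat_lit 1, nat_lit 6144, nat_lit 8448, nat_lit 11712, nat_lit 15984, nat_lit 12000, R4_244, R5_333, R4_250⟩, ⟨nat_lit 2, nat_lit 9024, nat_lit 8688, nat_lit 10416, nat_lit 15072, nat_lit 9744, R4_217, R9_314, R8_203⟩]⟩, ⟨nat_lit 3, [⟨nat_lit 0, nat_lit 720, nat_lit 9264, nat_lit 16848, nat_lit 8496, nat_lit 14784, R3_351, R8_177, R13_308⟩, ⟨nat_lit 1, nat_lit 6240, nat_lit 9744, nat_lit 17184, nat_lit 16080, nat_lit 10800, R3_358, R5_335, R3_225⟩, ⟨nat_lit 2, nat_lit 9120, nat_lit 10368, nat_lit 17040,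 nat_lit 15216, nat_lit 12624, R3_355, R9_317, R9_263⟩]⟩]⟩,
 ⟨nat_lit 2, [⟨nat_lit 0, [⟨nat_lit 2, nat_lit 9648, nat_lit 8736, nat_lit 6384, nat_lit 816, nat_lit 10320, R5_133, R0_17, R8_215⟩]⟩, ⟨nat_lit 2, [⟨nat_lit 2, nat_lit 9744, nat_lit 11040, nat_lit 19536, nat_lit 6048, nat_lit 13968, R11_407, R0_126, R5_291⟩]⟩, ⟨nat_lit 3, [⟨nat_lit 2, nat_lit 9840, nat_lit 10416, nat_lit 13008, nat_lit 8880, nat_lit 12672, R0_271, R0_185, R9_264⟩]⟩]⟩,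
 ⟨nat_lit 3, [⟨nat_lit 3, [⟨nat_lit 0, nat_lit 1920, nat_lit 9312, nat_lit 16368, nat_lit 4176, nat_lit 14832, R10_341, R9_87, R13_309⟩, ⟨nat_lit 1, nat_lit 7344, nat_lit 9792, nat_lit 16464, nat_lit 2640, nat_lit 10848, R10_343, R0_55, R3_226⟩, ⟨nat_lit 3, nat_lit 11712, nat_lit 10032, nat_lit 16416, nat_lit 2544, nat_lit 10944, R10_342, R0_53, R3_228⟩]⟩, ⟨nat_lit 7, [⟨nat_lit 3, nat_lit 11616, nat_lit 7968, nat_lit 14064, nat_lit 12528, nat_lit 11760, R1_293, R0_261, R2_245⟩]⟩]⟩], [⟨nat_lit 0, [⟨nat_lit 0, [⟨nat_lit 0, nat_lit 912, nat_lit 6768, nat_lit 4128, nat_lit 3504, nat_lit 2880, R4_86, R8_73, R8_60⟩, ⟨nat_lit 1, nat_lit 6336, nat_lit 7056, nat_lit 11760, nat_lit 16032, nat_lit 12720, R4_245, R5_334, R5_265⟩, ⟨nat_lit 2, nat_lit 9312, nat_lit 7296, nat_lit 10464, nat_lit 15168, nat_lit 10368, R4_218,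 R9_316, R9_216⟩]⟩, ⟨nat_lit 3, [⟨nat_lit 0, nat_lit 1104, nat_lit 8160, nat_lit 16944, nat_lit 8640, nat_lit 6432, R3_353, R8_180, R9_134⟩, ⟨nat_lit 1, nat_lit 6528, nat_lit 8640, nat_lit 17280, nat_lit 16176, nat_lit 4272, R3_360, R5_337, R0_89⟩]⟩]⟩,
 ⟨nat_lit 2, [⟨nat_lit 0, [⟨nat_lit 2, nat_lit 10080, nat_lit 7344, nat_lit 6816, nat_lit 912, nat_lit 10704, R5_142, R0_19, R9_223⟩]⟩, ⟨nat_lit 2, [⟨nat_lit 2, nat_lit 10224, nat_lit 9168, nat_lit 20112, nat_lit 6144, nat_lit 5328, R11_419, R0_128, R0_111⟩]⟩]⟩,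
 ⟨nat_lit 3, [⟨nat_lit 3, [⟨nat_lit 0, nat_lit 2064, nat_lit 8208, nat_lit 17280, nat_lit 6672, nat_lit 7296, R10_360, R9_139, R9_152⟩, ⟨nat_lit 1, nat_lit 7440, nat_lit 8688, nat_lit 17376, nat_lit 4512, nat_lit 5136, R10_362, R0_94, R0_107⟩, ⟨nat_lit 3, nat_lit 11904, nat_lit 8928, nat_lit 17328, nat_lit 4416, nat_lit 5184, R10_361, R0_92, R0_108⟩]⟩]⟩], [⟨nat_lit 0, [⟨nat_lit 0, [⟨nat_lit 0, nat_lit 768, nat_lit 2928, nat_lit 4176, nat_lit 3456, nat_lit 2736, R4_87, R8_72, R4_57⟩, ⟨nat_lit 2, nat_lit 9168, nat_lit 4320, nat_lit 10512, nat_lit 15120, nat_lit 672, R4_219, R9_315, R5_14⟩]⟩, ⟨nat_lit 3, [⟨nat_lit 0, nat_lit 816, nat_lit 3408, nat_lit 16992, nat_lit 8592, nat_lit 7056, R3_354, R8_179, R3_147⟩, ⟨nat_lit 2, nat_lit 9216, nat_lit 4992, nat_lit 17136, nat_lit 15312, nat_lit 10800, R3_357, R9_319, R0_225⟩]⟩]⟩,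
 ⟨nat_lit 2, [⟨nat_lit 0, [⟨nat_lit 2, nat_lit 9888, nat_lit 4368, nat_lit 7248, nat_lit 864, nat_lit 7632, R5_151, R0_18, R5_159⟩]⟩, ⟨nat_lit 2, [⟨nat_lit 2, nat_lit 9936, nat_lit 5712, nat_lit 20736, nat_lit 6096, nat_lit 17040, R11_432, R0_127, R11_355⟩]⟩, ⟨nat_lit 3, [⟨nat_lit 2, nat_lit 9984, nat_lit 5040, nat_lit 13872, nat_lit 8976, nat_lit 10848, R0_289, R0_187, R0_226⟩]⟩]⟩,
 ⟨nat_lit 3, [⟨nat_lit 3, [⟨nat_lit 0, nat_lit 1968, nat_lit 3456, nat_lit 18336, nat_lit 5040, nat_lit 7440, R10_382, R9_105, R3_155⟩, ⟨nat_lit 3, nat_lit 11808, nat_lit 3744, nat_lit 18384, nat_lit 3072, nat_lit 13008, R10_383, R0_64, R10_271⟩]⟩, ⟨nat_lit 7, [⟨nat_lit 3, nat_lit 11760, nat_lit 3888, nat_lit 15168, nat_lit 13920, nat_lit 12192, R1_316, R0_290, R1_254⟩]⟩]⟩], [⟨nat_lit 0, [⟨nat_lit 3, [⟨nat_lit 0, nat_lit 1296, nat_lit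 3072, nat_lit 16896, nat_lit 8544, nat_lit 2736, R3_352, R8_178, R3_57⟩, ⟨nat_lit 1, nat_lit 6720, nat_lit 3600, nat_lit 17232, nat_lit 16128, nat_lit 6096, R3_359, R5_336, R10_127⟩, ⟨nat_lit 2, nat_lit 9504, nat_lit 4656, nat_lit 17088, nat_lit 15264, nat_lit 10704, R3_356, R9_318, R0_223⟩]⟩]⟩,
 ⟨nat_lit 2, [⟨nat_lit 3, [⟨nat_lit 2, nat_lit 10416, nat_lit 5280, nat_lit 13728, nat_lit 8928, nat_lit 11040, R0_286, R0_186, R0_230⟩]⟩]⟩,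
 ⟨nat_lit 3, [⟨nat_lit 3, [⟨nat_lit 0, nat_lit 2352, nat_lit 3312, nat_lit 17952, nat_lit 5328, nat_lit 7488, R10_374, R9_111, R3_156⟩, ⟨nat_lit 1, nat_lit 7728, nat_lit 3696, nat_lit 18000, nat_lit 3168, nat_lit 6480, R10_375, R0_66, R10_135⟩]⟩, ⟨nat_lit 7, [⟨nat_lit 0, nat_lit 2208, nat_lit 13728, nat_lit 14928, nat_lit 5712, nat_lit 6960, R1_311, R9_119, R2_145⟩, ⟨nat_lit 1, nat_lit 7584, nat_lit 14688, nat_lit 15024, nat_lit 3552, nat_lit 5664, R1_313, R0_74, R1_118⟩, ⟨nat_lit 3, nat_lit 12048, nat_lit 14352, nat_lit 14976, nat_lit 13680, nat_lit 10848, R1_312, R0_285, R12_226⟩]⟩]⟩]], [[], [], [⟨nat_lit 0, [⟨nat_lit 0, [⟨nat_lit 0, nat_lit 432, nat_lit 12768, nat_lit 4464, nat_lit 576, nat_lit 1344, R4_93, R4_12, R4_28⟩, ⟨nat_lit 2, nat_lit 8688, nat_lit 16032, nat_lit 10752, nat_lit 2160, nat_lit 576, R4_224,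 R5_45, R5_12⟩]⟩, ⟨nat_lit 3, [⟨nat_lit 0, nat_lit 480, nat_lit 12864, nat_lit 17328, nat_lit 6960, nat_lit 4800, R3_361, R4_145, R3_100⟩, ⟨nat_lit 2, nat_lit 8736, nat_lit 16128, nat_lit 17616, nat_lit 10992, nat_lit 10032, R3_367, R5_229, R0_209⟩]⟩]⟩,
 ⟨nat_lit 2, [⟨nat_lit 0, [⟨nat_lit 2, nat_lit 8784, nat_lit 16368, nat_lit 7344, nat_lit 21600, nat_lit 7536, R5_153, R11_450, R5_157⟩]⟩, ⟨nat_lit 2, [⟨nat_lit 2, nat_lit 8832, nat_lit 16512, nat_lit 21216, nat_lit 21696, nat_lit 16416, R11_442, R11_452, R11_342⟩, ⟨nat_lit 6, nat_lit 15840, nat_lit 11424, nat_lit 21264, nat_lit 15840, nat_lit 11424, R11_443, R1_330, R1_238⟩]⟩, ⟨nat_lit 3, [⟨nat_lit 2, nat_lit 8880, nat_lit 16416, nat_lit 13968, nat_lit 21648, nat_lit 10128, R0_291, R11_451, R0_211⟩]⟩]⟩,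
 ⟨nat_lit 3, [⟨nat_lit 3, [⟨nat_lit 0, nat_lit 528, nat_lit 13008, nat_lit 18912, nat_lit 5136, nat_lit 5904, R10_394, R3_107, R3_123⟩, ⟨nat_lit 2, nat_lit 8928, nat_lit 16272, nat_lit 19008, nat_lit 14304, nat_lit 10080, R10_396, R0_298, R0_210⟩, ⟨nat_lit 3, nat_lit 11520, nat_lit 15744, nat_lit 18960, nat_lit 19392, nat_lit 12576, R10_395, R10_404, R10_262⟩]⟩, ⟨nat_lit 7, [⟨nat_lit 3, nat_lit 11472, nat_lit 15792, nat_lit 15552, nat_lit 19440, nat_lit 11376, R1_324, R10_405, R1_237⟩]⟩]⟩,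
 ⟨nat_lit 4, [⟨nat_lit 4, [⟨nat_lit 4, nat_lit 12768, nat_lit 432, nat_lit 4464, nat_lit 576, nat_lit 1344, R4_93, R4_12, R4_28⟩, ⟨nat_lit 7, nat_lit 16032, nat_lit 8688, nat_lit 10752, nat_lit 2160, nat_lit 576, R4_224, R5_45, R5_12⟩]⟩, ⟨nat_lit 6, [⟨nat_lit 4, nat_lit 12864, nat_lit 480, nat_lit 17328, nat_lit 6960, nat_lit 4800, R3_361, R4_145, R3_100⟩, ⟨nat_lit 7, nat_lit 16128, nat_lit 8736, nat_lit 17616, nat_lit 10992, nat_lit 10032, R3_367, R5_229, R0_209⟩]⟩]⟩,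
 ⟨nat_lit 6, [⟨nat_lit 2, [⟨nat_lit 6, nat_lit 15792, nat_lit 11472, nat_lit 15552, nat_lit 19440, nat_lit 11376, R1_324, R10_405, R1_237⟩]⟩, ⟨nat_lit 6, [⟨nat_lit 4, nat_lit 13008, nat_lit 528, nat_lit 18912, nat_lit 5136, nat_lit 5904, R10_394, R3_107, R3_123⟩, ⟨nat_lit 6, nat_lit 15744, nat_lit 11520, nat_lit 18960, nat_lit 19392, nat_lit 12576, R10_395, R10_404, R10_262⟩, ⟨nat_lit 7, nat_lit 16272, nat_lit 8928, nat_lit 19008, nat_lit 14304, nat_lit 10080, R10_396, R0_298, R0_210⟩]⟩]⟩,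
 ⟨nat_lit 7, [⟨nat_lit 4, [⟨nat_lit 7, nat_lit 16368, nat_lit 8784, nat_lit 7344, nat_lit 21600, nat_lit 7536, R5_153, R11_450, R5_157⟩]⟩, ⟨nat_lit 6, [⟨nat_lit 7, nat_lit 16416, nat_lit 8880, nat_lit 13968, nat_lit 21648, nat_lit 10128, R0_291, R11_451, R0_211⟩]⟩, ⟨nat_lit 7, [⟨nat_lit 3, nat_lit 11424, nat_lit 15840, nat_lit 21264, nat_lit 15840, nat_lit 11424, R11_443, R1_330, R1_238⟩, ⟨nat_lit 7, nat_lit 16512, nat_lit 8832, nat_lit 21216, nat_lit 21696, nat_lit 16416, R11_442, R11_452, R11_342⟩]⟩]⟩]], [[], [], [], [⟨nat_lit 3, [⟨nat_lit 3, [⟨nat_lit 0, nat_lit 2544, nat_lit 12960, nat_lit 18768, nat_lit 5088, nat_lit 5952, R10_391, R3_106, R3_124⟩, ⟨nat_lit 1, nat_lit 7920, nat_lit 15696, nat_lit 18864, nat_lit 4272, nat_lit 5040, R10_393, R10_89, R10_105⟩, ⟨nat_lit 2, nat_lit 10848, nat_lit 16224, nat_lit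 18816, nat_lit 14256, nat_lit 10224, R10_392, R0_297, R0_213⟩]⟩, ⟨nat_lit 7, [⟨nat_lit 0, nat_lit 2496, nat_lit 12912, nat_lit 15456, nat_lit 13392, nat_lit 5184, R1_322, R3_279, R2_108⟩, ⟨nat_lit 1, nat_lit 7872, nat_lit 15648, nat_lit 15504, nat_lit 5184, nat_lit 3888, R1_323, R10_108, R1_81⟩]⟩]⟩,
 ⟨nat_lit 7, [⟨nat_lit 7, [⟨nat_lit 0, nat_lit 2448, nat_lit 12480, nat_lit 21072, nat_lit 5472, nat_lit 6240, R11_439, R2_114, R2_130⟩, ⟨nat_lit 1, nat_lit 7824, nat_lit 15600, nat_lit 21168, nat_lit 4176, nat_lit 4944, R11_441, R1_87, R1_103⟩, ⟨nat_lit 3, nat_lit 12288, nat_lit 14112, nat_lit 21120, nat_lit 15312, nat_lit 10656, R11_440, R12_319, R12_222⟩]⟩]⟩]]], [[], [[], [⟨nat_lit 0, [⟨nat_lit 0, [⟨nat_lit 0, nat_lit 960, nat_lit 960, nat_lit 2256, nat_lit 3696, nat_lit 2496, R8_47, R8_77, R8_52⟩, ⟨nat_lit 1,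 nat_lit 6384, nat_lit 1008, nat_lit 9936, nat_lit 17136, nat_lit 6528, R8_207, R5_357, R5_136⟩, ⟨nat_lit 2, nat_lit 9360, nat_lit 1152, nat_lit 6768, nat_lit 16800, nat_lit 6384, R8_141, R9_350, R9_133⟩]⟩, ⟨nat_lit 1, [⟨nat_lit 0, nat_lit 1008, nat_lit 6384, nat_lit 17136, nat_lit 10944, nat_lit 6528, R5_357, R8_228, R5_136⟩, ⟨nat_lit 1, nat_lit 6432, nat_lit 6432, nat_lit 17472, nat_lit 17472, nat_lit 6144, R5_364, R5_364, R11_128⟩, ⟨nat_lit 2, nat_lit 9408, nat_lit 6576, nat_lit 17280, nat_lit 17520, nat_lit 4224, R5_360, R9_365, R0_88⟩]⟩, ⟨nat_lit 3, [⟨nat_lit 0, nat_lit 1152, nat_lit 9360, nat_lit 16800, nat_lit 8976, nat_lit 6384, R9_350, R8_187, R9_133⟩, ⟨nat_lit 1, nat_lit 6576, nat_lit 9408, nat_lit 17520, nat_lit 17280, nat_lit 4224, R9_365, R5_360, R0_88⟩]⟩]⟩,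
 ⟨nat_lit 1, [⟨nat_lit 0, [⟨nat_lit 0, nat_lit 1536, nat_lit 1536, nat_lit 6240, nat_lit 6240, nat_lit 10080, R5_130, R5_130, R8_210⟩, ⟨nat_lit 1, nat_lit 6960, nat_lit 1584, nat_lit 7152, nat_lit 5856, nat_lit 7680, R5_149, R11_122, R5_160⟩, ⟨nat_lit 2, nat_lit 10656, nat_lit 1680, nat_lit 6768, nat_lit 14400, nat_lit 7584, R5_141, R0_300, R9_158⟩]⟩, ⟨nat_lit 1, [⟨nat_lit 0, nat_lit 1584, nat_lit 6960, nat_lit 21840, nat_lit 7152, nat_lit 7680, R11_455, R5_149, R5_160⟩, ⟨nat_lit 1, nat_lit 7008, nat_lit 7008, nat_lit 22176, nat_lit 6768, nat_lit 7296, R11_462, R11_141, R11_152⟩, ⟨nat_lit 2, nat_lit 10704, nat_lit 7104, nat_lit 21984, nat_lit 15120, nat_lit 5424, R11_458, R0_315, R0_113⟩]⟩, ⟨nat_lit 3, [⟨nat_lit 0, nat_lit 1680, nat_lit 10656, nat_lit 14400, nat_lit 6768, nat_lit 7584, R0_300, R5_141, R9_158⟩,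 ⟨nat_lit 1, nat_lit 7104, nat_lit 10704, nat_lit 15120, nat_lit 6384, nat_lit 5424, R0_315, R11_133, R0_113⟩]⟩]⟩,
 ⟨nat_lit 2, [⟨nat_lit 0, [⟨nat_lit 2, nat_lit 10128, nat_lit 2112, nat_lit 6720, nat_lit 1248, nat_lit 7248, R9_140, R0_26, R9_151⟩]⟩, ⟨nat_lit 1, [⟨nat_lit 2, nat_lit 10320, nat_lit 7488, nat_lit 4560, nat_lit 10464, nat_lit 5088, R0_95, R0_218, R0_106⟩]⟩, ⟨nat_lit 2, [⟨nat_lit 2, nat_lit 10272, nat_lit 11952, nat_lit 4704, nat_lit 6384, nat_lit 4944, R0_98, R0_133, R0_103⟩]⟩]⟩,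
 ⟨nat_lit 3, [⟨nat_lit 3, [⟨nat_lit 0, nat_lit 2112, nat_lit 10128, nat_lit 1248, nat_lit 6720, nat_lit 7248, R0_26, R9_140, R9_151⟩, ⟨nat_lit 1, nat_lit 7488, nat_lit 10320, nat_lit 10464, nat_lit 4560, nat_lit 5088, R0_218, R0_95, R0_106⟩, ⟨nat_lit 3, nat_lit 11952, nat_lit 10272, nat_lit 6384, nat_lit 4704, nat_lit 4944, R0_133, R0_98, R0_103⟩]⟩]⟩]], [], [], [], [[], [⟨nat_lit 1, [⟨nat_lit 0, [⟨nat_lit 1, nat_lit 4704, nat_lit 19056, nat_lit 7104, nat_lit 4272, nat_lit 7776, R5_148, R1_89, R5_162⟩]⟩, ⟨nat_lit 1, [⟨nat_lit 1, nat_lit 4752, nat_lit 19104, nat_lit 21744, nat_lit 4464, nat_lit 9360, R11_453, R1_93, R11_195⟩]⟩, ⟨nat_lit 3, [⟨nat_lit 1, nat_lit 4848, nat_lit 19152, nat_lit 14352, nat_lit 4416, nat_lit 6816, R0_299, R1_92, R0_142⟩]⟩]⟩], [], [], [], [⟨nat_lit 1, [⟨nat_lit 1, [⟨nat_lit 1, nat_lit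 4176, nat_lit 15600, nat_lit 21792, nat_lit 4944, nat_lit 7824, R11_454, R1_103, R1_163⟩]⟩]⟩]]], [[], [[], [], [], [⟨nat_lit 0, [⟨nat_lit 3, [⟨nat_lit 0, nat_lit 1344, nat_lit 2928, nat_lit 3360, nat_lit 8448, nat_lit 2448, R3_70, R8_176, R3_51⟩, ⟨nat_lit 1, nat_lit 6768, nat_lit 2976, nat_lit 10560, nat_lit 16464, nat_lit 6048, R3_220, R5_343, R10_126⟩, ⟨nat_lit 2, nat_lit 9552, nat_lit 3216, nat_lit 9456, nat_lit 15600, nat_lit 6480, R3_197, R9_325, R0_135⟩]⟩, ⟨nat_lit 7, [⟨nat_lit 0, nat_lit 1200, nat_lit 13392, nat_lit 14928, nat_lit 15072, nat_lit 6480, R2_311, R8_314, R2_135⟩, ⟨nat_lit 1, nat_lit 6624, nat_lit 13536, nat_lit 15312, nat_lit 16560, nat_lit 5184, R2_319, R5_345, R1_108⟩]⟩]⟩,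
 ⟨nat_lit 1, [⟨nat_lit 3, [⟨nat_lit 0, nat_lit 1824, nat_lit 3552, nat_lit 19632, nat_lit 5712, nat_lit 10080, R10_409, R5_119, R3_210⟩, ⟨nat_lit 1, nat_lit 7248, nat_lit 3600, nat_lit 19968, nat_lit 5328, nat_lit 6768, R10_416, R11_111, R10_141⟩, ⟨nat_lit 2, nat_lit 10800, nat_lit 3744, nat_lit 19776, nat_lit 14064, nat_lit 6912, R10_412, R0_293, R0_144⟩]⟩, ⟨nat_lit 7, [⟨nat_lit 0, nat_lit 1728, nat_lit 15312, nat_lit 15936, nat_lit 5904, nat_lit 7056, R1_332, R5_123, R2_147⟩, ⟨nat_lit 1, nat_lit 7152, nat_lit 15408, nat_lit 16320, nat_lit 5520, nat_lit 5760, R1_340, R11_115, R1_120⟩]⟩]⟩,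
 ⟨nat_lit 2, [⟨nat_lit 3, [⟨nat_lit 2, nat_lit 10464, nat_lit 5424, nat_lit 3888, nat_lit 8832, nat_lit 6624, R0_81, R0_184, R0_138⟩]⟩]⟩,
 ⟨nat_lit 3, [⟨nat_lit 7, [⟨nat_lit 0, nat_lit 2256, nat_lit 14352, nat_lit 14736, nat_lit 5664, nat_lit 6912, R12_307, R9_118, R2_144⟩, ⟨nat_lit 1, nat_lit 7632, nat_lit 14880, nat_lit 14832, nat_lit 3504, nat_lit 5616, R12_309, R0_73, R1_117⟩, ⟨nat_lit 3, nat_lit 12096, nat_lit 14736, nat_lit 14784, nat_lit 13584, nat_lit 10800, R12_308, R0_283, R12_225⟩]⟩]⟩]], [], [], [], [[⟨nat_lit 1, [⟨nat_lit 3, [⟨nat_lit 1, nat_lit 4608, nat_lit 5568, nat_lit 19488, nat_lit 4032, nat_lit 10032, R10_406, R1_84, R3_209⟩]⟩]⟩], [⟨nat_lit 1, [⟨nat_lit 3, [⟨nat_lit 1, nat_lit 4896, nat_lit 14016, nat_lit 19584, nat_lit 4368, nat_lit 6768, R10_408, R1_91, R0_141⟩]⟩]⟩], [], [⟨nat_lit 1, [⟨nat_lit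 3, [⟨nat_lit 1, nat_lit 5040, nat_lit 21312, nat_lit 19536, nat_lit 4080, nat_lit 8448, R10_407, R1_85, R10_176⟩]⟩, ⟨nat_lit 7, [⟨nat_lit 1, nat_lit 4992, nat_lit 21360, nat_lit 15888, nat_lit 4128, nat_lit 7776, R1_331, R1_86, R1_162⟩]⟩]⟩]]]]
noncomputable def N2001 : T3 (List N0) := [[[[⟨nat_lit 2, [⟨nat_lit 6, [⟨nat_lit 6, nat_lit 12384, nat_lit 11184, nat_lit 8784, nat_lit 16272, nat_lit 4416, R7_183, R7_339, R5_92⟩]⟩]⟩,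
 ⟨nat_lit 4, [⟨nat_lit 7, [⟨nat_lit 7, nat_lit 1872, nat_lit 11952, nat_lit 8256, nat_lit 14448, nat_lit 0, R6_172, R6_301, R3_0⟩]⟩]⟩,
 ⟨nat_lit 6, [⟨nat_lit 4, [⟨nat_lit 4, nat_lit 4512, nat_lit 14400, nat_lit 5328, nat_lit 15840, nat_lit 528, R6_111, R6_330, R6_11⟩, ⟨nat_lit 7, nat_lit 4752, nat_lit 14544, nat_lit 5376, nat_lit 15264, nat_lit 4464, R6_112, R8_318, R13_93⟩]⟩, ⟨nat_lit 6, [⟨nat_lit 4, nat_lit 5616, nat_lit 15888, nat_lit 5616, nat_lit 15888, nat_lit 384, R4_117, R6_331, R8_8⟩, ⟨nat_lit 6, nat_lit 5808, nat_lit 16368, nat_lit 5664, nat_lit 14928, nat_lit 4368, R4_118, R4_311, R5_91⟩, ⟨nat_lit 7, nat_lit 6048, nat_lit 16128, nat_lit 5712, nat_lit 15360, nat_lit 3696, R4_119, R8_320, R9_77⟩]⟩, ⟨nat_lit 7, [⟨nat_lit 7, nat_lit 7392, nat_lit 15312, nat_lit 7488, nat_lit 15312, nat_lit 288, R8_156,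 R8_319, R3_6⟩]⟩]⟩,
 ⟨nat_lit 7, [⟨nat_lit 7, [⟨nat_lit 3, nat_lit 10992, nat_lit 12768, nat_lit 8736, nat_lit 15648, nat_lit 3120, R4_182, R7_326, R2_65⟩, ⟨nat_lit 7, nat_lit 10800, nat_lit 12960, nat_lit 8688, nat_lit 14112, nat_lit 144, R4_181, R4_294, R3_3⟩]⟩]⟩], [⟨nat_lit 0, [⟨nat_lit 2, [⟨nat_lit 2, nat_lit 12240, nat_lit 1920, nat_lit 8304, nat_lit 15120, nat_lit 2736, R6_173, R6_315, R10_57⟩]⟩]⟩,
 ⟨nat_lit 2, [⟨nat_lit 2, [⟨nat_lit 2, nat_lit 13104, nat_lit 10848, nat_lit 8880, nat_lit 14544, nat_lit 2784, R4_185, R4_303, R10_58⟩, ⟨nat_lit 6, nat_lit 13056, nat_lit 11040, nat_lit 8928, nat_lit 16368, nat_lit 2592, R4_186, R7_341, R1_54⟩]⟩, ⟨nat_lit 6, [⟨nat_lit 6, nat_lit 12432, nat_lit 11856, nat_lit 8832, nat_lit 16416, nat_lit 4416, R7_184, R7_342, R11_92⟩]⟩]⟩,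
 ⟨nat_lit 3, [⟨nat_lit 0, [⟨nat_lit 0, nat_lit 14064, nat_lit 4560, nat_lit 5472, nat_lit 16320, nat_lit 8592, R6_114, R6_340, R4_179⟩, ⟨nat_lit 2, nat_lit 14160, nat_lit 4800, nat_lit 5520, nat_lit 16464, nat_lit 11376, R6_115, R8_343, R3_237⟩]⟩, ⟨nat_lit 2, [⟨nat_lit 2, nat_lit 14640, nat_lit 7440, nat_lit 7632, nat_lit 16512, nat_lit 2832, R8_159, R8_344, R10_59⟩]⟩, ⟨nat_lit 3, [⟨nat_lit 0, nat_lit 14928, nat_lit 5664, nat_lit 5808, nat_lit 16368, nat_lit 4368, R4_121, R6_341, R5_91⟩, ⟨nat_lit 2, nat_lit 15024, nat_lit 6096, nat_lit 5904, nat_lit 16560, nat_lit 2160, R4_123, R8_345, R0_45⟩, ⟨nat_lit 3, nat_lit 15120, nat_lit 5856, nat_lit 5856, nat_lit 15120, nat_lit 4368, R4_122, R4_315, R11_91⟩]⟩]⟩,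
 ⟨nat_lit 4, [⟨nat_lit 7, [⟨nat_lit 7, nat_lit 1920, nat_lit 12240, nat_lit 8304, nat_lit 15120, nat_lit 2736, R6_173, R6_315, R10_57⟩]⟩]⟩,
 ⟨nat_lit 6, [⟨nat_lit 4, [⟨nat_lit 4, nat_lit 4560, nat_lit 14064, nat_lit 5472, nat_lit 16320, nat_lit 8592, R6_114, R6_340, R4_179⟩, ⟨nat_lit 7, nat_lit 4800, nat_lit 14160, nat_lit 5520, nat_lit 16464, nat_lit 11376, R6_115, R8_343, R3_237⟩]⟩, ⟨nat_lit 6, [⟨nat_lit 4, nat_lit 5664, nat_lit 14928, nat_lit 5808, nat_lit 16368, nat_lit 4368, R4_121, R6_341, R5_91⟩, ⟨nat_lit 6, nat_lit 5856, nat_lit 15120, nat_lit 5856, nat_lit 15120, nat_lit 4368, R4_122, R4_315, R11_91⟩, ⟨nat_lit 7, nat_lit 6096, nat_lit 15024, nat_lit 5904, nat_lit 16560, nat_lit 2160, R4_123, R8_345, R0_45⟩]⟩, ⟨nat_lit 7, [⟨nat_lit 7, nat_lit 7440, nat_lit 14640, nat_lit 7632, nat_lit 16512, nat_lit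 2832, R8_159, R8_344, R10_59⟩]⟩]⟩,
 ⟨nat_lit 7, [⟨nat_lit 3, [⟨nat_lit 3, nat_lit 11856, nat_lit 12432, nat_lit 8832, nat_lit 16416, nat_lit 4416, R7_184, R7_342, R11_92⟩]⟩, ⟨nat_lit 7, [⟨nat_lit 3, nat_lit 11040, nat_lit 13056, nat_lit 8928, nat_lit 16368, nat_lit 2592, R4_186, R7_341, R1_54⟩, ⟨nat_lit 7, nat_lit 10848, nat_lit 13104, nat_lit 8880, nat_lit 14544, nat_lit 2784, R4_185, R4_303, R10_58⟩]⟩]⟩], [⟨nat_lit 2, [⟨nat_lit 6, [⟨nat_lit 6, nat_lit 12480, nat_lit 10512, nat_lit 8880, nat_lit 16320, nat_lit 12144, R7_185, R7_340, R0_253⟩]⟩]⟩,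
 ⟨nat_lit 4, [⟨nat_lit 7, [⟨nat_lit 7, nat_lit 1968, nat_lit 12240, nat_lit 8400, nat_lit 14784, nat_lit 0, R6_175, R6_308, R0_0⟩]⟩]⟩,
 ⟨nat_lit 6, [⟨nat_lit 4, [⟨nat_lit 4, nat_lit 4608, nat_lit 15216, nat_lit 5664, nat_lit 16080, nat_lit 4464, R6_118, R6_335, R8_93⟩, ⟨nat_lit 7, nat_lit 4848, nat_lit 15792, nat_lit 5712, nat_lit 15984, nat_lit 13104, R6_119, R8_333, R9_273⟩]⟩, ⟨nat_lit 6, [⟨nat_lit 4, nat_lit 5712, nat_lit 15360, nat_lit 6048, nat_lit 16128, nat_lit 0, R4_126, R6_336, R9_0⟩, ⟨nat_lit 6, nat_lit 5904, nat_lit 16560, nat_lit 6096, nat_lit 15024, nat_lit 2160, R4_127, R4_313, R0_45⟩]⟩, ⟨nat_lit 7, [⟨nat_lit 7, nat_lit 7488, nat_lit 15936, nat_lit 7776, nat_lit 16032, nat_lit 7200, R8_162, R8_334, R0_150⟩]⟩]⟩,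
 ⟨nat_lit 7, [⟨nat_lit 7, [⟨nat_lit 7, nat_lit 10896, nat_lit 14160, nat_lit 9024, nat_lit 14352, nat_lit 5568, R4_188, R4_299, R0_116⟩]⟩]⟩]], [], [[], [], [⟨nat_lit 2, [⟨nat_lit 6, [⟨nat_lit 6, nat_lit 12528, nat_lit 2736, nat_lit 8928, nat_lit 15552, nat_lit 12336, R7_186, R2_324, R0_257⟩]⟩]⟩,
 ⟨nat_lit 4, [⟨nat_lit 7, [⟨nat_lit 7, nat_lit 2016, nat_lit 1824, nat_lit 9648, nat_lit 336, nat_lit 96, R6_201, R8_7, R0_2⟩]⟩]⟩,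
 ⟨nat_lit 6, [⟨nat_lit 4, [⟨nat_lit 4, nat_lit 4656, nat_lit 1200, nat_lit 5808, nat_lit 21312, nat_lit 4704, R6_121, R13_444, R8_98⟩, ⟨nat_lit 5, nat_lit 4704, nat_lit 1296, nat_lit 5904, nat_lit 17376, nat_lit 14304, R6_123, R3_362, R5_298⟩, ⟨nat_lit 7, nat_lit 4896, nat_lit 1248, nat_lit 5856, nat_lit 17712, nat_lit 13200, R6_122, R9_369, R9_275⟩]⟩, ⟨nat_lit 6, [⟨nat_lit 4, nat_lit 5760, nat_lit 3600, nat_lit 6144, nat_lit 21360, nat_lit 4368, R4_128, R13_445, R9_91⟩, ⟨nat_lit 5, nat_lit 6000, nat_lit 3648, nat_lit 6240, nat_lit 17424, nat_lit 2832, R4_130, R3_363, R0_59⟩, ⟨nat_lit 6, nat_lit 5952, nat_lit 3696, nat_lit 6192, nat_lit 3552, nat_lit 2400, R4_129, R3_74, R0_50⟩]⟩, ⟨nat_lit 7, [⟨nat_lit 7, nat_lit 7536, nat_lit 2304, nat_lit 9072, nat_lit 17760, nat_lit 7392, R8_189, R9_370, R0_154⟩]⟩]⟩,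
 ⟨nat_lit 7, [⟨nat_lit 7, [⟨nat_lit 7, nat_lit 10944, nat_lit 2016, nat_lit 10608, nat_lit 17568, nat_lit 5616, R4_221, R5_366, R0_117⟩]⟩]⟩]], [[⟨nat_lit 4, [⟨nat_lit 7, [⟨nat_lit 3, nat_lit 2208, nat_lit 2880, nat_lit 8640, nat_lit 432, nat_lit 3264, R6_180, R7_9, R2_68⟩, ⟨nat_lit 7, nat_lit 2064, nat_lit 2832, nat_lit 8592, nat_lit 240, nat_lit 3744, R6_179, R4_5, R3_78⟩]⟩]⟩,
 ⟨nat_lit 6, [⟨nat_lit 4, [⟨nat_lit 7, nat_lit 4944, nat_lit 2592, nat_lit 5424, nat_lit 3264, nat_lit 4992, R6_113, R5_68, R13_104⟩]⟩, ⟨nat_lit 6, [⟨nat_lit 7, nat_lit 6144, nat_lit 4320, nat_lit 5760, nat_lit 3600, nat_lit 3936, R4_120, R5_75, R9_82⟩]⟩, ⟨nat_lit 7, [⟨nat_lit 7, nat_lit 7584, nat_lit 3552, nat_lit 8064, nat_lit 3840, nat_lit 3888, R8_168, R5_80, R3_81⟩]⟩]⟩,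
 ⟨nat_lit 7, [⟨nat_lit 7, [⟨nat_lit 3, nat_lit 11088, nat_lit 3168, nat_lit 9264, nat_lit 19392, nat_lit 3312, R4_193, R14_404, R2_69⟩]⟩]⟩], [⟨nat_lit 3, [⟨nat_lit 0, [⟨nat_lit 0, nat_lit 14112, nat_lit 144, nat_lit 6096, nat_lit 10800, nat_lit 8688, R6_127, R4_225, R4_181⟩, ⟨nat_lit 2, nat_lit 14208, nat_lit 192, nat_lit 6144, nat_lit 13104, nat_lit 11472, R6_128, R5_273, R3_239⟩]⟩, ⟨nat_lit 2, [⟨nat_lit 2, nat_lit 14688, nat_lit 2400, nat_lit 7680, nat_lit 13248, nat_lit 2880, R8_160, R5_276, R10_60⟩]⟩, ⟨nat_lit 3, [⟨nat_lit 0, nat_lit 14976, nat_lit 864, nat_lit 6432, nat_lit 11232, nat_lit 5136, R4_134, R4_234, R5_107⟩, ⟨nat_lit 2, nat_lit 15072, nat_lit 912, nat_lit 6480, nat_lit 13392, nat_lit 2208, R4_135, R5_279, R0_46⟩]⟩]⟩,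
 ⟨nat_lit 4, [⟨nat_lit 7, [⟨nat_lit 3, nat_lit 2256, nat_lit 3072, nat_lit 8928, nat_lit 528, nat_lit 2736, R6_186, R7_11, R1_57⟩, ⟨nat_lit 7, nat_lit 2112, nat_lit 3024, nat_lit 8880, nat_lit 336, nat_lit 3456, R6_185, R4_7, R10_72⟩]⟩]⟩,
 ⟨nat_lit 6, [⟨nat_lit 4, [⟨nat_lit 7, nat_lit 4992, nat_lit 2928, nat_lit 5568, nat_lit 3408, nat_lit 11424, R6_116, R5_71, R3_238⟩]⟩, ⟨nat_lit 6, [⟨nat_lit 7, nat_lit 6192, nat_lit 3552, nat_lit 5952, nat_lit 3696, nat_lit 2400, R4_124, R5_77, R0_50⟩]⟩, ⟨nat_lit 7, [⟨nat_lit 7, nat_lit 7632, nat_lit 3264, nat_lit 8352, nat_lit 3936, nat_lit 3504, R8_174, R5_82, R10_73⟩]⟩]⟩,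
 ⟨nat_lit 7, [⟨nat_lit 3, [⟨nat_lit 0, nat_lit 11808, nat_lit 1440, nat_lit 9840, nat_lit 11568, nat_lit 14784, R7_205, R7_241, R5_308⟩, ⟨nat_lit 3, nat_lit 11904, nat_lit 1488, nat_lit 9888, nat_lit 19488, nat_lit 4464, R7_206, R14_406, R11_93⟩]⟩, ⟨nat_lit 7, [⟨nat_lit 3, nat_lit 11136, nat_lit 3168, nat_lit 9552, nat_lit 19536, nat_lit 2784, R4_199, R14_407, R1_58⟩]⟩]⟩], [⟨nat_lit 4, [⟨nat_lit 7, [⟨nat_lit 7, nat_lit 2160, nat_lit 2160, nat_lit 9408, nat_lit 288, nat_lit 48, R6_196, R4_6, R0_1⟩]⟩]⟩,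
 ⟨nat_lit 6, [⟨nat_lit 4, [⟨nat_lit 7, nat_lit 5040, nat_lit 1920, nat_lit 5760, nat_lit 3312, nat_lit 13152, R6_120, R5_69, R9_274⟩]⟩, ⟨nat_lit 7, [⟨nat_lit 7, nat_lit 7680, nat_lit 2592, nat_lit 8736, nat_lit 3888, nat_lit 7296, R8_182, R5_81, R0_152⟩]⟩]⟩], [⟨nat_lit 4, [⟨nat_lit 7, [⟨nat_lit 3, nat_lit 2304, nat_lit 11616, nat_lit 9072, nat_lit 480, nat_lit 2688, R6_189, R7_10, R12_56⟩]⟩]⟩,
 ⟨nat_lit 6, [⟨nat_lit 4, [⟨nat_lit 7, nat_lit 5088, nat_lit 16080, nat_lit 5616, nat_lit 3360, nat_lit 8544, R6_117, R5_70, R3_178⟩]⟩]⟩,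
 ⟨nat_lit 7, [⟨nat_lit 7, [⟨nat_lit 3, nat_lit 11184, nat_lit 13920, nat_lit 9744, nat_lit 19440, nat_lit 2736, R4_203, R14_405, R12_57⟩]⟩]⟩]], [], [], [], [[], [], [], [⟨nat_lit 4, [⟨nat_lit 7, [⟨nat_lit 3, nat_lit 2352, nat_lit 1296, nat_lit 7536, nat_lit 3456, nat_lit 2784, R6_157, R4_72, R12_58⟩]⟩]⟩]]], [[[⟨nat_lit 2, [⟨nat_lit 6, [⟨nat_lit 6, nat_lit 12576, nat_lit 10656, nat_lit 7680, nat_lit 16464, nat_lit 6000, R2_160, R7_343, R5_125⟩]⟩]⟩], [⟨nat_lit 0, [⟨nat_lit 0, [⟨nat_lit 2, nat_lit 12144, nat_lit 1008, nat_lit 13584, nat_lit 15168, nat_lit 16032, R6_283, R6_316, R3_334⟩]⟩, ⟨nat_lit 2, [⟨nat_lit 2, nat_lit 12288, nat_lit 1152, nat_lit 10608, nat_lit 15216, nat_lit 2976, R13_221, R6_317, R10_62⟩]⟩]⟩,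
 ⟨nat_lit 2, [⟨nat_lit 2, [⟨nat_lit 2, nat_lit 13248, nat_lit 13200, nat_lit 15264, nat_lit 14592, nat_lit 3024, R3_318, R4_304, R10_63⟩, ⟨nat_lit 6, nat_lit 13152, nat_lit 12864, nat_lit 15168, nat_lit 16560, nat_lit 2640, R3_316, R7_345, R1_55⟩]⟩, ⟨nat_lit 6, [⟨nat_lit 6, nat_lit 12624, nat_lit 12768, nat_lit 7728, nat_lit 16608, nat_lit 5616, R2_161, R7_346, R11_117⟩]⟩]⟩,
 ⟨nat_lit 3, [⟨nat_lit 0, [⟨nat_lit 0, nat_lit 14256, nat_lit 8016, nat_lit 13488, nat_lit 17088, nat_lit 8976, R8_281, R6_356, R4_187⟩, ⟨nat_lit 2, nat_lit 14400, nat_lit 9264, nat_lit 13776, nat_lit 16608, nat_lit 16368, R8_287, R8_346, R3_341⟩]⟩, ⟨nat_lit 2, [⟨nat_lit 2, nat_lit 14736, nat_lit 9504, nat_lit 8256, nat_lit 16656, nat_lit 3072, R9_172, R8_347, R10_64⟩]⟩, ⟨nat_lit 3, [⟨nat_lit 0, nat_lit 15168, nat_lit 8160, nat_lit 8784,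 nat_lit 17136, nat_lit 4656, R5_183, R6_357, R5_97⟩, ⟨nat_lit 2, nat_lit 15312, nat_lit 9360, nat_lit 8832, nat_lit 16704, nat_lit 2256, R5_184, R8_348, R0_47⟩, ⟨nat_lit 3, nat_lit 15456, nat_lit 8880, nat_lit 8880, nat_lit 15456, nat_lit 4656, R5_185, R4_322, R11_97⟩]⟩]⟩], [⟨nat_lit 2, [⟨nat_lit 6, [⟨nat_lit 6, nat_lit 12672, nat_lit 10896, nat_lit 7776, nat_lit 16512, nat_lit 12240, R2_162, R7_344, R0_255⟩]⟩]⟩]], [[⟨nat_lit 2, [⟨nat_lit 6, [⟨nat_lit 6, nat_lit 12720, nat_lit 7392, nat_lit 7824, nat_lit 14736, nat_lit 6912, R2_163, R2_307, R5_144⟩]⟩]⟩], [⟨nat_lit 0, [⟨nat_lit 0, [⟨nat_lit 0, nat_lit 12096, nat_lit 7488, nat_lit 13536, nat_lit 10752, nat_lit 3168, R6_282, R6_224, R4_66⟩, ⟨nat_lit 2, nat_lit 12192, nat_lit 7824, nat_lit 13632, nat_lit 20256, nat_lit 16128, R6_284, R13_422, R3_336⟩]⟩, ⟨nat_lit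 2, [⟨nat_lit 2, nat_lit 12336, nat_lit 9504, nat_lit 10656, nat_lit 20304, nat_lit 3168, R13_222, R13_423, R10_66⟩]⟩]⟩,
 ⟨nat_lit 1, [⟨nat_lit 0, [⟨nat_lit 0, nat_lit 13344, nat_lit 7584, nat_lit 13344, nat_lit 11616, nat_lit 11616, R4_278, R4_242, R4_242⟩, ⟨nat_lit 2, nat_lit 13392, nat_lit 7920, nat_lit 13392, nat_lit 16752, nat_lit 16752, R4_279, R3_349, R3_349⟩]⟩, ⟨nat_lit 2, [⟨nat_lit 2, nat_lit 13728, nat_lit 9600, nat_lit 8640, nat_lit 16800, nat_lit 3312, R3_180, R3_350, R10_69⟩]⟩]⟩,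
 ⟨nat_lit 2, [⟨nat_lit 2, [⟨nat_lit 2, nat_lit 13296, nat_lit 9648, nat_lit 15312, nat_lit 10464, nat_lit 3216, R3_319, R3_218, R10_67⟩, ⟨nat_lit 6, nat_lit 13200, nat_lit 8976, nat_lit 15216, nat_lit 14832, nat_lit 2688, R3_317, R2_309, R1_56⟩]⟩, ⟨nat_lit 6, [⟨nat_lit 6, nat_lit 12768, nat_lit 7008, nat_lit 7872, nat_lit 14880, nat_lit 6528, R2_164, R2_310, R11_136⟩]⟩]⟩,
 ⟨nat_lit 3, [⟨nat_lit 0, [⟨nat_lit 0, nat_lit 14304, nat_lit 7536, nat_lit 13584, nat_lit 9360, nat_lit 9072, R8_283, R8_195, R4_189⟩, ⟨nat_lit 2, nat_lit 14448, nat_lit 7872, nat_lit 13872, nat_lit 16656, nat_lit 16560, R8_289, R9_347, R3_345⟩]⟩, ⟨nat_lit 2, [⟨nat_lit 2, nat_lit 14784, nat_lit 9552, nat_lit 8304, nat_lit 16704, nat_lit 3264, R9_173, R9_348, R10_68⟩]⟩, ⟨nat_lit 3, [⟨nat_lit 0, nat_lit 15216, nat_lit 8400, nat_lit 8928, nat_lit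 9840, nat_lit 6288, R5_186, R8_205, R5_131⟩, ⟨nat_lit 2, nat_lit 15360, nat_lit 8736, nat_lit 8976, nat_lit 16752, nat_lit 2352, R5_187, R9_349, R0_49⟩, ⟨nat_lit 3, nat_lit 15504, nat_lit 8544, nat_lit 9024, nat_lit 17088, nat_lit 4704, R5_188, R5_356, R11_98⟩]⟩]⟩], [⟨nat_lit 2, [⟨nat_lit 6, [⟨nat_lit 6, nat_lit 12816, nat_lit 9408, nat_lit 7920, nat_lit 14784, nat_lit 12624, R2_165, R2_308, R0_263⟩]⟩]⟩]], [[], [], [⟨nat_lit 2, [⟨nat_lit 6, [⟨nat_lit 6, nat_lit 12864, nat_lit 9792, nat_lit 7968, nat_lit 15600, nat_lit 12480, R2_166, R2_325, R0_260⟩]⟩]⟩]], [[], [⟨nat_lit 3, [⟨nat_lit 0, [⟨nat_lit 0, nat_lit 14352, nat_lit 5568, nat_lit 13536, nat_lit 10896, nat_lit 9024, R8_282, R4_227, R4_188⟩, ⟨nat_lit 2, nat_lit 14496, nat_lit 5664, nat_lit 13824, nat_lit 13152, nat_lit 16464, R8_288, R5_274, R3_343⟩]⟩, ⟨nat_lit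 2, [⟨nat_lit 2, nat_lit 14832, nat_lit 6960, nat_lit 8352, nat_lit 13296, nat_lit 3120, R9_174, R5_277, R10_65⟩]⟩, ⟨nat_lit 3, [⟨nat_lit 0, nat_lit 15264, nat_lit 5856, nat_lit 9072, nat_lit 11280, nat_lit 5328, R5_189, R4_235, R5_111⟩, ⟨nat_lit 2, nat_lit 15408, nat_lit 6192, nat_lit 9120, nat_lit 13440, nat_lit 2304, R5_190, R5_280, R0_48⟩]⟩]⟩]]], [[[⟨nat_lit 2, [⟨nat_lit 6, [⟨nat_lit 6, nat_lit 12912, nat_lit 11376, nat_lit 3984, nat_lit 16656, nat_lit 5184, R2_83, R7_347, R5_108⟩]⟩]⟩,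
 ⟨nat_lit 4, [⟨nat_lit 4, [⟨nat_lit 7, nat_lit 96, nat_lit 5136, nat_lit 1104, nat_lit 15936, nat_lit 6048, R6_23, R6_332, R13_126⟩]⟩, ⟨nat_lit 5, [⟨nat_lit 7, nat_lit 672, nat_lit 6768, nat_lit 1008, nat_lit 16032, nat_lit 4320, R4_21, R6_334, R3_90⟩]⟩, ⟨nat_lit 7, [⟨nat_lit 7, nat_lit 2400, nat_lit 6288, nat_lit 480, nat_lit 15984, nat_lit 720, R8_10, R6_333, R3_15⟩]⟩]⟩,
 ⟨nat_lit 6, [⟨nat_lit 4, [⟨nat_lit 4, nat_lit 5136, nat_lit 96, nat_lit 6048, nat_lit 15936, nat_lit 1104, R13_126, R6_332, R6_23⟩, ⟨nat_lit 7, nat_lit 5328, nat_lit 5328, nat_lit 6096, nat_lit 17712, nat_lit 6096, R13_127, R8_369, R13_127⟩]⟩, ⟨nat_lit 5, [⟨nat_lit 4, nat_lit 6768, nat_lit 672, nat_lit 4320, nat_lit 16032, nat_lit 1008, R3_90, R6_334, R4_21⟩, ⟨nat_lit 7, nat_lit 7056, nat_lit 7056, nat_lit 4368, nat_lit 17856, nat_lit 4368,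 R3_91, R8_372, R3_91⟩]⟩, ⟨nat_lit 6, [⟨nat_lit 4, nat_lit 6288, nat_lit 2400, nat_lit 720, nat_lit 15984, nat_lit 480, R3_15, R6_333, R8_10⟩, ⟨nat_lit 6, nat_lit 6432, nat_lit 11232, nat_lit 864, nat_lit 14976, nat_lit 5136, R3_18, R4_312, R5_107⟩, ⟨nat_lit 7, nat_lit 6624, nat_lit 7728, nat_lit 1008, nat_lit 17808, nat_lit 4608, R3_21, R8_371, R9_96⟩]⟩, ⟨nat_lit 7, [⟨nat_lit 7, nat_lit 7728, nat_lit 6624, nat_lit 4608, nat_lit 17760, nat_lit 1008, R9_96, R8_370, R3_21⟩]⟩]⟩,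
 ⟨nat_lit 7, [⟨nat_lit 7, [⟨nat_lit 3, nat_lit 11376, nat_lit 12912, nat_lit 5184, nat_lit 17376, nat_lit 3984, R5_108, R7_362, R2_83⟩, ⟨nat_lit 7, nat_lit 11232, nat_lit 6432, nat_lit 5136, nat_lit 14976, nat_lit 864, R5_107, R4_312, R3_18⟩]⟩]⟩], [], [⟨nat_lit 2, [⟨nat_lit 6, [⟨nat_lit 6, nat_lit 12960, nat_lit 13056, nat_lit 4032, nat_lit 16704, nat_lit 12192, R2_84, R7_348, R0_254⟩]⟩]⟩,
 ⟨nat_lit 4, [⟨nat_lit 4, [⟨nat_lit 7, nat_lit 144, nat_lit 8496, nat_lit 1152, nat_lit 16608, nat_lit 13488, R6_24, R6_346, R9_281⟩]⟩, ⟨nat_lit 5, [⟨nat_lit 7, nat_lit 720, nat_lit 8688, nat_lit 1056, nat_lit 16704, nat_lit 11616, R4_22, R6_348, R0_242⟩]⟩, ⟨nat_lit 7, [⟨nat_lit 7, nat_lit 2448, nat_lit 8592, nat_lit 528, nat_lit 16656, nat_lit 576, R8_11, R6_347, R0_12⟩]⟩]⟩,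
 ⟨nat_lit 6, [⟨nat_lit 4, [⟨nat_lit 4, nat_lit 5184, nat_lit 1488, nat_lit 6240, nat_lit 16176, nat_lit 4512, R13_130, R6_337, R8_94⟩, ⟨nat_lit 7, nat_lit 5376, nat_lit 9936, nat_lit 6288, nat_lit 18576, nat_lit 13728, R13_131, R8_387, R9_286⟩]⟩, ⟨nat_lit 5, [⟨nat_lit 4, nat_lit 6816, nat_lit 1584, nat_lit 4512, nat_lit 16272, nat_lit 0, R3_94, R6_339, R5_0⟩, ⟨nat_lit 7, nat_lit 7104, nat_lit 10080, nat_lit 4560, nat_lit 18672, nat_lit 11856, R3_95, R8_389, R0_247⟩]⟩, ⟨nat_lit 6, [⟨nat_lit 4, nat_lit 6336, nat_lit 1680, nat_lit 768, nat_lit 16224, nat_lit 96, R3_16, R6_338, R9_2⟩, ⟨nat_lit 6, nat_lit 6480, nat_lit 13392, nat_lit 912, nat_lit 15072, nat_lit 2208, R3_19, R4_314, R0_46⟩]⟩, ⟨nat_lit 7, [⟨nat_lit 7, nat_lit 7776, nat_lit 10032, nat_lit 4704, nat_lit 18624, nat_lit 8304, R9_98, R8_388, R0_173⟩]⟩]⟩,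
 ⟨nat_lit 7, [⟨nat_lit 7, [⟨nat_lit 7, nat_lit 11280, nat_lit 9072, nat_lit 5328, nat_lit 15264, nat_lit 5856, R5_111, R4_318, R0_122⟩]⟩]⟩]], [], [[], [], [⟨nat_lit 2, [⟨nat_lit 6, [⟨nat_lit 6, nat_lit 13008, nat_lit 2736, nat_lit 4080, nat_lit 15648, nat_lit 12384, R2_85, R2_326, R0_258⟩]⟩]⟩,
 ⟨nat_lit 4, [⟨nat_lit 4, [⟨nat_lit 4, nat_lit 0, nat_lit 144, nat_lit 1056, nat_lit 4272, nat_lit 0, R6_22, R6_89, R8_0⟩, ⟨nat_lit 5, nat_lit 48, nat_lit 240, nat_lit 1392, nat_lit 4368, nat_lit 14496, R6_29, R4_91, R5_302⟩, ⟨nat_lit 7, nat_lit 192, nat_lit 192, nat_lit 1344, nat_lit 1584, nat_lit 13584, R6_28, R8_33, R9_283⟩]⟩, ⟨nat_lit 5, [⟨nat_lit 4, nat_lit 480, nat_lit 1344, nat_lit 960, nat_lit 4320, nat_lit 4752, R4_20, R6_90, R5_99⟩, ⟨nat_lit 5, nat_lit 528, nat_lit 1440, nat_lit 1392, nat_lit 4416, nat_lit 18000,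 R4_29, R4_92, R11_375⟩, ⟨nat_lit 7, nat_lit 768, nat_lit 1392, nat_lit 1248, nat_lit 2784, nat_lit 11712, R4_26, R8_58, R0_244⟩]⟩, ⟨nat_lit 7, [⟨nat_lit 7, nat_lit 2496, nat_lit 1824, nat_lit 2448, nat_lit 2304, nat_lit 672, R8_51, R8_48, R0_14⟩]⟩]⟩,
 ⟨nat_lit 6, [⟨nat_lit 4, [⟨nat_lit 4, nat_lit 5232, nat_lit 768, nat_lit 6384, nat_lit 21408, nat_lit 4752, R13_133, R13_446, R8_99⟩, ⟨nat_lit 5, nat_lit 5280, nat_lit 864, nat_lit 6480, nat_lit 17472, nat_lit 14688, R13_135, R3_364, R5_306⟩, ⟨nat_lit 7, nat_lit 5424, nat_lit 816, nat_lit 6432, nat_lit 17808, nat_lit 13824, R13_134, R9_371, R9_288⟩]⟩, ⟨nat_lit 5, [⟨nat_lit 4, nat_lit 6864, nat_lit 1488, nat_lit 4656, nat_lit 21504, nat_lit 5040, R3_97, R13_448, R5_105⟩, ⟨nat_lit 5, nat_lit 6912, nat_lit 1584, nat_lit 4752, nat_lit 17568, nat_lit 18192, R3_99, R3_366,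 R11_379⟩, ⟨nat_lit 7, nat_lit 7152, nat_lit 1536, nat_lit 4704, nat_lit 17904, nat_lit 11952, R3_98, R9_373, R0_249⟩]⟩, ⟨nat_lit 6, [⟨nat_lit 4, nat_lit 6384, nat_lit 3600, nat_lit 816, nat_lit 21456, nat_lit 4464, R3_17, R13_447, R9_93⟩, ⟨nat_lit 5, nat_lit 6576, nat_lit 3648, nat_lit 1152, nat_lit 17520, nat_lit 2928, R3_24, R3_365, R0_61⟩, ⟨nat_lit 6, nat_lit 6528, nat_lit 3696, nat_lit 960, nat_lit 3600, nat_lit 2448, R3_20, R3_75, R0_51⟩]⟩, ⟨nat_lit 7, [⟨nat_lit 7, nat_lit 7824, nat_lit 2304, nat_lit 4800, nat_lit 17856, nat_lit 8496, R9_100, R9_372, R0_177⟩]⟩]⟩,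
 ⟨nat_lit 7, [⟨nat_lit 7, [⟨nat_lit 7, nat_lit 11328, nat_lit 2016, nat_lit 5376, nat_lit 17616, nat_lit 5904, R5_112, R5_367, R0_123⟩]⟩]⟩], [], [], [], [⟨nat_lit 4, [⟨nat_lit 5, [⟨nat_lit 5, nat_lit 576, nat_lit 432, nat_lit 1344, nat_lit 4464, nat_lit 12768, R4_28, R4_93, R1_266⟩]⟩]⟩,
 ⟨nat_lit 6, [⟨nat_lit 5, [⟨nat_lit 5, nat_lit 6960, nat_lit 480, nat_lit 4800, nat_lit 17328, nat_lit 12864, R3_100, R3_361, R1_268⟩]⟩]⟩]], [[⟨nat_lit 4, [⟨nat_lit 4, [⟨nat_lit 7, nat_lit 240, nat_lit 3744, nat_lit 1200, nat_lit 2064, nat_lit 6528, R6_25, R4_43, R13_136⟩]⟩, ⟨nat_lit 5, [⟨nat_lit 7, nat_lit 816, nat_lit 5472, nat_lit 1104, nat_lit 2784, nat_lit 4896, R4_23, R4_58, R3_102⟩]⟩, ⟨nat_lit 7, [⟨nat_lit 3, nat_lit 2640, nat_lit 6384, nat_lit 1248, nat_lit 2496, nat_lit 4128, R8_26, R7_52, R2_86⟩, ⟨nat_lit 7, nat_lit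 2544, nat_lit 6048, nat_lit 864, nat_lit 2544, nat_lit 6048, R8_18, R4_53, R3_126⟩]⟩]⟩,
 ⟨nat_lit 6, [⟨nat_lit 4, [⟨nat_lit 7, nat_lit 5472, nat_lit 3792, nat_lit 6144, nat_lit 3456, nat_lit 6576, R13_128, R5_72, R13_137⟩]⟩, ⟨nat_lit 5, [⟨nat_lit 7, nat_lit 7200, nat_lit 5520, nat_lit 4416, nat_lit 4224, nat_lit 4944, R3_92, R5_88, R3_103⟩]⟩, ⟨nat_lit 6, [⟨nat_lit 7, nat_lit 6672, nat_lit 7152, nat_lit 1056, nat_lit 3744, nat_lit 4848, R3_22, R5_78, R9_101⟩]⟩, ⟨nat_lit 7, [⟨nat_lit 7, nat_lit 7872, nat_lit 6096, nat_lit 4656, nat_lit 4128, nat_lit 6192, R9_97, R5_86, R3_129⟩]⟩]⟩,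
 ⟨nat_lit 7, [⟨nat_lit 7, [⟨nat_lit 3, nat_lit 11424, nat_lit 6432, nat_lit 5232, nat_lit 19632, nat_lit 4176, R5_109, R14_409, R2_87⟩]⟩]⟩], [], [⟨nat_lit 4, [⟨nat_lit 4, [⟨nat_lit 7, nat_lit 288, nat_lit 48, nat_lit 1296, nat_lit 2160, nat_lit 13536, R6_27, R4_45, R9_282⟩]⟩, ⟨nat_lit 5, [⟨nat_lit 7, nat_lit 864, nat_lit 432, nat_lit 1200, nat_lit 2880, nat_lit 11664, R4_25, R4_60, R0_243⟩]⟩, ⟨nat_lit 7, [⟨nat_lit 7, nat_lit 2592, nat_lit 624, nat_lit 912, nat_lit 2592, nat_lit 624, R8_19, R4_54, R0_13⟩]⟩]⟩,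
 ⟨nat_lit 6, [⟨nat_lit 4, [⟨nat_lit 7, nat_lit 5520, nat_lit 240, nat_lit 6336, nat_lit 3504, nat_lit 13776, R13_132, R5_73, R9_287⟩]⟩, ⟨nat_lit 5, [⟨nat_lit 7, nat_lit 7248, nat_lit 480, nat_lit 4608, nat_lit 4272, nat_lit 11904, R3_96, R5_89, R0_248⟩]⟩, ⟨nat_lit 7, [⟨nat_lit 7, nat_lit 7920, nat_lit 1056, nat_lit 4752, nat_lit 4176, nat_lit 8400, R9_99, R5_87, R0_175⟩]⟩]⟩], [⟨nat_lit 4, [⟨nat_lit 4, [⟨nat_lit 3, nat_lit 384, nat_lit 192, nat_lit 1008, nat_lit 2160, nat_lit 12144, R6_21, R7_45, R2_253⟩, ⟨nat_lit 7, nat_lit 336, nat_lit 144, nat_lit 1248, nat_lit 2112, nat_lit 3024, R6_26, R4_44, R3_63⟩]⟩, ⟨nat_lit 5, [⟨nat_lit 3, nat_lit 1296, nat_lit 720, nat_lit 624, nat_lit 2736, nat_lit 12720, R4_13, R7_57, R1_265⟩, ⟨nat_lit 7, nat_lit 912, nat_lit 672, nat_lit 1152, nat_lit 2832, nat_lit 14064, R4_24,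 R4_59, R10_293⟩]⟩, ⟨nat_lit 7, [⟨nat_lit 3, nat_lit 2688, nat_lit 1056, nat_lit 1296, nat_lit 2544, nat_lit 2832, R8_27, R7_53, R12_59⟩]⟩]⟩,
 ⟨nat_lit 6, [⟨nat_lit 4, [⟨nat_lit 7, nat_lit 5568, nat_lit 480, nat_lit 6192, nat_lit 3552, nat_lit 8832, R13_129, R5_74, R3_184⟩]⟩, ⟨nat_lit 5, [⟨nat_lit 7, nat_lit 7296, nat_lit 816, nat_lit 4464, nat_lit 4320, nat_lit 14256, R3_93, R5_90, R10_297⟩]⟩]⟩,
 ⟨nat_lit 7, [⟨nat_lit 7, [⟨nat_lit 3, nat_lit 11472, nat_lit 1488, nat_lit 5280, nat_lit 19680, nat_lit 2880, R5_110, R14_410, R12_60⟩]⟩]⟩]], [[], [], [], [], [⟨nat_lit 4, [⟨nat_lit 5, [⟨nat_lit 1, nat_lit 1008, nat_lit 6768, nat_lit 672, nat_lit 3120, nat_lit 4320, R4_14, R6_65, R3_90⟩]⟩]⟩]], [], [[], [], [], [], [⟨nat_lit 4, [⟨nat_lit 5, [⟨nat_lit 1, nat_lit 1104, nat_lit 5472, nat_lit 816, nat_lit 2784, nat_lit 4896,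 R4_17, R4_58, R3_102⟩]⟩]⟩], [], [⟨nat_lit 4, [⟨nat_lit 5, [⟨nat_lit 1, nat_lit 1152, nat_lit 672, nat_lit 912, nat_lit 2832, nat_lit 14064, R4_19, R4_59, R10_293⟩, ⟨nat_lit 5, nat_lit 624, nat_lit 720, nat_lit 1296, nat_lit 2736, nat_lit 12720, R4_27, R7_57, R1_265⟩]⟩]⟩,
 ⟨nat_lit 6, [⟨nat_lit 5, [⟨nat_lit 5, nat_lit 7008, nat_lit 768, nat_lit 4848, nat_lit 3072, nat_lit 12816, R3_101, R2_64, R1_267⟩]⟩]⟩]], [[], [], [], [⟨nat_lit 4, [⟨nat_lit 4, [⟨nat_lit 3, nat_lit 432, nat_lit 96, nat_lit 960, nat_lit 3264, nat_lit 12192, R6_20, R4_68, R2_254⟩]⟩, ⟨nat_lit 5, [⟨nat_lit 3, nat_lit 1344, nat_lit 432, nat_lit 576, nat_lit 4464, nat_lit 12768, R4_12, R4_93, R1_266⟩]⟩, ⟨nat_lit 7, [⟨nat_lit 3, nat_lit 2736, nat_lit 768, nat_lit 3456, nat_lit 4176, nat_lit 2928, R8_72, R4_87, R12_61⟩]⟩]⟩], [], [], [], [⟨nat_lit 4,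 [⟨nat_lit 5, [⟨nat_lit 0, nat_lit 960, nat_lit 1344, nat_lit 480, nat_lit 4320, nat_lit 4752, R4_10, R6_90, R5_99⟩, ⟨nat_lit 3, nat_lit 1392, nat_lit 1440, nat_lit 528, nat_lit 4416, nat_lit 18000, R4_11, R4_92, R11_375⟩]⟩]⟩]]], [[], [], [], [[⟨nat_lit 4, [⟨nat_lit 7, [⟨nat_lit 3, nat_lit 2928, nat_lit 13104, nat_lit 1632, nat_lit 912, nat_lit 4752, R4_34, R7_19, R2_99⟩, ⟨nat_lit 7, nat_lit 2784, nat_lit 4896, nat_lit 1104, nat_lit 816, nat_lit 5472, R4_23, R4_17, R3_114⟩]⟩]⟩,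
 ⟨nat_lit 6, [⟨nat_lit 7, [⟨nat_lit 7, nat_lit 7968, nat_lit 5184, nat_lit 96, nat_lit 3984, nat_lit 5616, R5_2, R5_83, R3_117⟩]⟩]⟩], [⟨nat_lit 3, [⟨nat_lit 0, [⟨nat_lit 0, nat_lit 14544, nat_lit 6960, nat_lit 13104, nat_lit 10848, nat_lit 8880, R4_273, R4_226, R4_185⟩, ⟨nat_lit 2, nat_lit 14592, nat_lit 7152, nat_lit 13248, nat_lit 13200, nat_lit 15264, R4_276, R5_275, R3_318⟩]⟩, ⟨nat_lit 2, [⟨nat_lit 2, nat_lit 14880, nat_lit 8544, nat_lit 16224, nat_lit 13344, nat_lit 2928, R5_338, R5_278, R10_61⟩]⟩]⟩,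
 ⟨nat_lit 4, [⟨nat_lit 3, [⟨nat_lit 3, nat_lit 4272, nat_lit 7584, nat_lit 1776, nat_lit 1536, nat_lit 4512, R7_37, R7_32, R11_94⟩]⟩, ⟨nat_lit 7, [⟨nat_lit 3, nat_lit 2976, nat_lit 5232, nat_lit 1680, nat_lit 960, nat_lit 3456, R4_35, R7_20, R1_72⟩, ⟨nat_lit 7, nat_lit 2832, nat_lit 4608, nat_lit 1152, nat_lit 912, nat_lit 4032, R4_24, R4_19, R10_84⟩]⟩]⟩,
 ⟨nat_lit 6, [⟨nat_lit 7, [⟨nat_lit 7, nat_lit 8016, nat_lit 4656, nat_lit 144, nat_lit 4080, nat_lit 4080, R5_3, R5_85, R10_85⟩]⟩]⟩,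
 ⟨nat_lit 7, [⟨nat_lit 0, [⟨nat_lit 0, nat_lit 11520, nat_lit 7008, nat_lit 14256, nat_lit 11424, nat_lit 13488, R7_297, R7_238, R4_281⟩]⟩, ⟨nat_lit 3, [⟨nat_lit 0, nat_lit 11952, nat_lit 7344, nat_lit 8496, nat_lit 11616, nat_lit 14976, R14_177, R7_242, R5_312⟩, ⟨nat_lit 3, nat_lit 12048, nat_lit 7632, nat_lit 8544, nat_lit 19584, nat_lit 4560, R14_178, R14_408, R11_95⟩]⟩]⟩], [⟨nat_lit 4, [⟨nat_lit 7, [⟨nat_lit 7, nat_lit 2880, nat_lit 11664, nat_lit 1200, nat_lit 864, nat_lit 432, R4_25, R4_18, R0_9⟩]⟩]⟩,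
 ⟨nat_lit 6, [⟨nat_lit 7, [⟨nat_lit 7, nat_lit 8064, nat_lit 14496, nat_lit 192, nat_lit 4032, nat_lit 8016, R5_4, R5_84, R0_167⟩]⟩]⟩]], [], [], [], [[⟨nat_lit 4, [⟨nat_lit 7, [⟨nat_lit 3, nat_lit 3024, nat_lit 5808, nat_lit 3696, nat_lit 3936, nat_lit 5232, R4_77, R4_82, R2_109⟩]⟩]⟩], [⟨nat_lit 4, [⟨nat_lit 3, [⟨nat_lit 0, nat_lit 4224, nat_lit 6096, nat_lit 3216, nat_lit 2016, nat_lit 14400, R7_67, R6_42, R5_300⟩, ⟨nat_lit 3, nat_lit 4320, nat_lit 6816, nat_lit 3744, nat_lit 1824, nat_lit 4608, R7_78, R4_38, R11_96⟩]⟩, ⟨nat_lit 7, [⟨nat_lit 3, nat_lit 3072, nat_lit 4512, nat_lit 3792, nat_lit 4032, nat_lit 3936, R4_79, R4_84, R1_82⟩]⟩]⟩,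
 ⟨nat_lit 7, [⟨nat_lit 0, [⟨nat_lit 0, nat_lit 11568, nat_lit 5808, nat_lit 14304, nat_lit 11664, nat_lit 13440, R7_298, R4_243, R4_280⟩]⟩, ⟨nat_lit 3, [⟨nat_lit 0, nat_lit 12000, nat_lit 6144, nat_lit 8448, nat_lit 11712, nat_lit 15984, R14_176, R4_244, R5_333⟩]⟩]⟩], [], [⟨nat_lit 4, [⟨nat_lit 7, [⟨nat_lit 3, nat_lit 3120, nat_lit 576, nat_lit 3744, nat_lit 3984, nat_lit 2976, R4_78, R4_83, R12_62⟩]⟩]⟩]]], [[], [], [], [], [[], [⟨nat_lit 5, [⟨nat_lit 0, [⟨nat_lit 0, nat_lit 8592, nat_lit 4560, nat_lit 12912, nat_lit 9792, nat_lit 14064, R6_269, R6_204, R4_293⟩]⟩]⟩], [], [], [], [⟨nat_lit 4, [⟨nat_lit 1, [⟨nat_lit 1, nat_lit 3360, nat_lit 48, nat_lit 3600, nat_lit 3216, nat_lit 96, R6_75, R6_67, R12_2⟩]⟩]⟩,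
 ⟨nat_lit 5, [⟨nat_lit 0, [⟨nat_lit 0, nat_lit 8640, nat_lit 4704, nat_lit 12720, nat_lit 10032, nat_lit 15456, R6_265, R6_209, R7_322⟩]⟩, ⟨nat_lit 1, [⟨nat_lit 0, nat_lit 9216, nat_lit 4896, nat_lit 3072, nat_lit 10080, nat_lit 2160, R13_64, R6_210, R14_45⟩, ⟨nat_lit 1, nat_lit 9360, nat_lit 4992, nat_lit 3120, nat_lit 2304, nat_lit 384, R13_65, R13_48, R12_8⟩]⟩]⟩]], [[], [⟨nat_lit 5, [⟨nat_lit 0, [⟨nat_lit 0, nat_lit 8688, nat_lit 144, nat_lit 12960, nat_lit 10800, nat_lit 14112, R6_270, R4_225, R4_294⟩]⟩]⟩], [], [], [], [⟨nat_lit 5, [⟨nat_lit 0, [⟨nat_lit 0, nat_lit 8736, nat_lit 3120, nat_lit 12768, nat_lit 10992, nat_lit 15648, R6_266, R4_229, R7_326⟩]⟩, ⟨nat_lit 1, [⟨nat_lit 0, nat_lit 9264, nat_lit 3312, nat_lit 3168, nat_lit 11088, nat_lit 4080, R13_66, R4_231, R14_85⟩, ⟨nat_lit 1, nat_lit 9408, nat_lit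 3408, nat_lit 3216, nat_lit 2784, nat_lit 2448, R13_67, R3_58, R12_51⟩]⟩]⟩]], [], [[], [], [], [], [], [⟨nat_lit 4, [⟨nat_lit 1, [⟨nat_lit 0, nat_lit 3312, nat_lit 1152, nat_lit 3648, nat_lit 2448, nat_lit 2544, R6_76, R6_51, R14_53⟩, ⟨nat_lit 1, nat_lit 3408, nat_lit 1440, nat_lit 3744, nat_lit 2832, nat_lit 912, R6_78, R8_59, R12_19⟩, ⟨nat_lit 3, nat_lit 3456, nat_lit 1296, nat_lit 3696, nat_lit 2352, nat_lit 2784, R6_77, R4_49, R12_58⟩]⟩]⟩,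
 ⟨nat_lit 5, [⟨nat_lit 0, [⟨nat_lit 0, nat_lit 8784, nat_lit 7440, nat_lit 12816, nat_lit 9600, nat_lit 15552, R6_267, R8_200, R7_324⟩, ⟨nat_lit 3, nat_lit 8832, nat_lit 7536, nat_lit 12864, nat_lit 432, nat_lit 14448, R6_268, R5_9, R2_301⟩]⟩, ⟨nat_lit 1, [⟨nat_lit 0, nat_lit 9312, nat_lit 8208, nat_lit 3264, nat_lit 9696, nat_lit 3120, R13_68, R8_202, R14_65⟩, ⟨nat_lit 1, nat_lit 9456, nat_lit 8496, nat_lit 3360, nat_lit 1536, nat_lit 1488, R13_70, R9_32, R12_31⟩, ⟨nat_lit 3, nat_lit 9504, nat_lit 8352, nat_lit 3312, nat_lit 480, nat_lit 4128, R13_69, R5_10, R12_86⟩]⟩]⟩]]], [[], [[], [⟨nat_lit 1, [⟨nat_lit 0, [⟨nat_lit 0, nat_lit 13440, nat_lit 5808, nat_lit 14304, nat_lit 11664, nat_lit 11568, R7_298, R4_243, R4_241⟩, ⟨nat_lit 2, nat_lit 13584, nat_lit 5856, nat_lit 14400, nat_lit 16656, nat_lit 10272, R7_300,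 R3_347, R3_214⟩]⟩, ⟨nat_lit 2, [⟨nat_lit 2, nat_lit 13776, nat_lit 5904, nat_lit 13920, nat_lit 16704, nat_lit 3360, R2_290, R3_348, R10_70⟩]⟩]⟩]], [], [], [], [[], [⟨nat_lit 1, [⟨nat_lit 0, [⟨nat_lit 0, nat_lit 13488, nat_lit 14400, nat_lit 14256, nat_lit 11424, nat_lit 11520, R7_297, R7_238, R4_240⟩, ⟨nat_lit 2, nat_lit 13632, nat_lit 14592, nat_lit 14352, nat_lit 10800, nat_lit 10368, R7_299, R2_225, R3_216⟩]⟩, ⟨nat_lit 2, [⟨nat_lit 2, nat_lit 13824, nat_lit 15408, nat_lit 13968, nat_lit 10896, nat_lit 3408, R2_291, R2_227, R10_71⟩]⟩]⟩,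
 ⟨nat_lit 5, [⟨nat_lit 0, [⟨nat_lit 0, nat_lit 8880, nat_lit 2784, nat_lit 13104, nat_lit 10848, nat_lit 14544, R4_273, R4_226, R4_303⟩]⟩]⟩], [], [], [], [⟨nat_lit 1, [⟨nat_lit 0, [⟨nat_lit 0, nat_lit 13536, nat_lit 13056, nat_lit 14160, nat_lit 11472, nat_lit 12048, R7_295, R7_239, R7_251⟩, ⟨nat_lit 2, nat_lit 13680, nat_lit 13104, nat_lit 14208, nat_lit 10752, nat_lit 10512, R7_296, R2_224, R2_219⟩]⟩, ⟨nat_lit 1, [⟨nat_lit 0, nat_lit 13920, nat_lit 13248, nat_lit 13728, nat_lit 11520, nat_lit 3792, R2_286, R7_240, R14_79⟩, ⟨nat_lit 1, nat_lit 14016, nat_lit 13344, nat_lit 13824, nat_lit 10320, nat_lit 2160, R2_288, R2_215, R12_45⟩, ⟨nat_lit 2, nat_lit 13968, nat_lit 13488, nat_lit 13776, nat_lit 10944, nat_lit 1776, R2_287, R2_228, R12_37⟩]⟩, ⟨nat_lit 2, [⟨nat_lit 2, nat_lit 13872, nat_lit 13728, nat_lit 14016,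 nat_lit 10848, nat_lit 10896, R2_292, R2_226, R1_227⟩]⟩]⟩,
 ⟨nat_lit 5, [⟨nat_lit 0, [⟨nat_lit 0, nat_lit 8928, nat_lit 2592, nat_lit 13056, nat_lit 11040, nat_lit 16368, R4_272, R4_230, R7_341⟩]⟩, ⟨nat_lit 1, [⟨nat_lit 0, nat_lit 9552, nat_lit 2784, nat_lit 3168, nat_lit 11136, nat_lit 4176, R3_66, R4_232, R14_87⟩, ⟨nat_lit 1, nat_lit 9600, nat_lit 2880, nat_lit 3216, nat_lit 2832, nat_lit 2544, R3_67, R3_59, R12_53⟩]⟩]⟩]]], [[], [], [], [], [[], [], [], [], [⟨nat_lit 4, [⟨nat_lit 1, [⟨nat_lit 1, nat_lit 3600, nat_lit 7008, nat_lit 3504, nat_lit 3312, nat_lit 96, R4_73, R6_69, R2_2⟩]⟩, ⟨nat_lit 5, [⟨nat_lit 1, nat_lit 1584, nat_lit 6576, nat_lit 3600, nat_lit 3264, nat_lit 12336, R7_75, R6_68, R3_257⟩]⟩]⟩,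
 ⟨nat_lit 5, [⟨nat_lit 1, [⟨nat_lit 0, nat_lit 9648, nat_lit 1056, nat_lit 13584, nat_lit 9936, nat_lit 1584, R3_283, R6_207, R7_33⟩, ⟨nat_lit 1, nat_lit 9888, nat_lit 7056, nat_lit 13728, nat_lit 2400, nat_lit 144, R3_286, R13_50, R2_3⟩]⟩, ⟨nat_lit 5, [⟨nat_lit 0, nat_lit 8160, nat_lit 624, nat_lit 1920, nat_lit 9984, nat_lit 1488, R2_40, R6_208, R4_31⟩, ⟨nat_lit 1, nat_lit 8304, nat_lit 6624, nat_lit 1968, nat_lit 2352, nat_lit 12480, R2_41, R13_49, R3_260⟩]⟩]⟩], [⟨nat_lit 4, [⟨nat_lit 1, [⟨nat_lit 1, nat_lit 3648, nat_lit 15456, nat_lit 3552, nat_lit 3360, nat_lit 144, R4_74, R6_70, R12_3⟩]⟩]⟩,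
 ⟨nat_lit 5, [⟨nat_lit 1, [⟨nat_lit 0, nat_lit 9696, nat_lit 15696, nat_lit 13872, nat_lit 10128, nat_lit 2208, R3_289, R6_211, R14_46⟩, ⟨nat_lit 1, nat_lit 9936, nat_lit 16128, nat_lit 14064, nat_lit 2448, nat_lit 432, R3_293, R13_51, R12_9⟩]⟩]⟩]], [[], [], [], [], [], [⟨nat_lit 5, [⟨nat_lit 1, [⟨nat_lit 0, nat_lit 9744, nat_lit 12768, nat_lit 13920, nat_lit 11184, nat_lit 4128, R3_290, R4_233, R14_86⟩, ⟨nat_lit 1, nat_lit 9984, nat_lit 13200, nat_lit 14112, nat_lit 2880, nat_lit 2496, R3_294, R3_60, R12_52⟩]⟩]⟩]], [[], [], [], [], [⟨nat_lit 4, [⟨nat_lit 1, [⟨nat_lit 1, nat_lit 3696, nat_lit 5232, nat_lit 3936, nat_lit 3024, nat_lit 5808, R4_82, R4_63, R2_121⟩]⟩, ⟨nat_lit 5, [⟨nat_lit 1, nat_lit 1632, nat_lit 4752, nat_lit 3936, nat_lit 2928, nat_lit 13104, R7_82, R4_61, R3_273⟩]⟩]⟩,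
 ⟨nat_lit 5, [⟨nat_lit 1, [⟨nat_lit 1, nat_lit 10032, nat_lit 5280, nat_lit 13824, nat_lit 9648, nat_lit 5856, R3_288, R3_201, R2_122⟩]⟩, ⟨nat_lit 5, [⟨nat_lit 1, nat_lit 8352, nat_lit 4800, nat_lit 2304, nat_lit 9696, nat_lit 13248, R2_48, R3_202, R3_276⟩]⟩]⟩], [⟨nat_lit 4, [⟨nat_lit 1, [⟨nat_lit 1, nat_lit 3744, nat_lit 12960, nat_lit 3984, nat_lit 3120, nat_lit 576, R4_83, R4_65, R12_12⟩]⟩]⟩,
 ⟨nat_lit 5, [⟨nat_lit 1, [⟨nat_lit 1, nat_lit 10080, nat_lit 13488, nat_lit 14208, nat_lit 9840, nat_lit 624, R3_296, R3_205, R12_13⟩]⟩]⟩], [⟨nat_lit 4, [⟨nat_lit 1, [⟨nat_lit 1, nat_lit 3792, nat_lit 3936, nat_lit 4032, nat_lit 3072, nat_lit 4512, R4_84, R4_64, R1_94⟩]⟩, ⟨nat_lit 5, [⟨nat_lit 1, nat_lit 1680, nat_lit 3456, nat_lit 3984, nat_lit 2976, nat_lit 13968, R7_83, R4_62, R10_291⟩, ⟨nat_lit 5, nat_lit 1440,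 nat_lit 15216, nat_lit 3888, nat_lit 2784, nat_lit 12576, R7_81, R7_58, R1_262⟩]⟩]⟩,
 ⟨nat_lit 5, [⟨nat_lit 1, [⟨nat_lit 1, nat_lit 10128, nat_lit 3984, nat_lit 14304, nat_lit 9744, nat_lit 4560, R3_298, R3_203, R1_95⟩]⟩, ⟨nat_lit 5, [⟨nat_lit 1, nat_lit 8400, nat_lit 3504, nat_lit 2352, nat_lit 9792, nat_lit 14016, R2_49, R3_204, R10_292⟩, ⟨nat_lit 5, nat_lit 8112, nat_lit 15264, nat_lit 2256, nat_lit 864, nat_lit 12672, R2_47, R2_18, R1_264⟩]⟩]⟩,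
 ⟨nat_lit 6, [⟨nat_lit 5, [⟨nat_lit 5, nat_lit 7344, nat_lit 15360, nat_lit 48, nat_lit 3024, nat_lit 12624, R2_1, R2_63, R1_263⟩]⟩]⟩]], [[], [], [], [], [⟨nat_lit 4, [⟨nat_lit 1, [⟨nat_lit 0, nat_lit 3504, nat_lit 96, nat_lit 3600, nat_lit 3312, nat_lit 8160, R4_75, R6_69, R7_170⟩, ⟨nat_lit 1, nat_lit 3840, nat_lit 7104, nat_lit 3840, nat_lit 3024, nat_lit 7104, R4_80, R8_63, R2_148⟩, ⟨nat_lit 3, nat_lit 3936, nat_lit 5808, nat_lit 3696, nat_lit 3024, nat_lit 5232, R4_77, R4_63, R2_109⟩]⟩, ⟨nat_lit 5, [⟨nat_lit 0, nat_lit 1488, nat_lit 1920, nat_lit 3648, nat_lit 4176, nat_lit 8160, R7_76, R6_87, R4_170⟩, ⟨nat_lit 1, nat_lit 1728, nat_lit 9696, nat_lit 3792, nat_lit 2928, nat_lit 12768, R7_79, R8_61, R3_266⟩]⟩]⟩,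
 ⟨nat_lit 5, [⟨nat_lit 1, [⟨nat_lit 0, nat_lit 9792, nat_lit 240, nat_lit 13632, nat_lit 9456, nat_lit 8208, R3_284, R8_197, R7_171⟩, ⟨nat_lit 3, nat_lit 10272, nat_lit 5952, nat_lit 13680, nat_lit 768, nat_lit 5520, R3_285, R5_16, R2_115⟩]⟩]⟩], [⟨nat_lit 4, [⟨nat_lit 1, [⟨nat_lit 0, nat_lit 3552, nat_lit 144, nat_lit 3648, nat_lit 3360, nat_lit 2640, R4_76, R6_70, R14_55⟩, ⟨nat_lit 1, nat_lit 3888, nat_lit 1008, nat_lit 3888, nat_lit 3072, nat_lit 1008, R4_81, R8_64, R12_21⟩, ⟨nat_lit 3, nat_lit 3984, nat_lit 576, nat_lit 3744, nat_lit 3120, nat_lit 2976, R4_78, R4_65, R12_62⟩]⟩]⟩], [], [⟨nat_lit 4, [⟨nat_lit 1, [⟨nat_lit 3, nat_lit 4032, nat_lit 4512, nat_lit 3792, nat_lit 3072, nat_lit 3936, R4_79, R4_64, R1_82⟩]⟩, ⟨nat_lit 5, [⟨nat_lit 0, nat_lit 1536, nat_lit 1392, nat_lit 3696, nat_lit 4224, nat_lit 4608,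 R7_77, R6_88, R5_96⟩, ⟨nat_lit 3, nat_lit 1824, nat_lit 6816, nat_lit 3744, nat_lit 4320, nat_lit 17904, R7_78, R4_90, R11_373⟩]⟩]⟩]]], [[], [], [], [], [[], [⟨nat_lit 5, [⟨nat_lit 0, [⟨nat_lit 0, nat_lit 8976, nat_lit 8016, nat_lit 13488, nat_lit 9840, nat_lit 14256, R8_281, R6_205, R4_297⟩]⟩, ⟨nat_lit 3, [⟨nat_lit 0, nat_lit 10560, nat_lit 8304, nat_lit 1968, nat_lit 9888, nat_lit 16848, R5_41, R6_206, R5_351⟩]⟩]⟩]], [], [], [[], [⟨nat_lit 4, [⟨nat_lit 0, [⟨nat_lit 0, nat_lit 3168, nat_lit 7488, nat_lit 48, nat_lit 912, nat_lit 12096, R6_1, R6_19, R4_252⟩]⟩, ⟨nat_lit 3, [⟨nat_lit 0, nat_lit 4368, nat_lit 7632, nat_lit 48, nat_lit 1392, nat_lit 14496, R4_1, R6_29, R5_302⟩, ⟨nat_lit 3, nat_lit 4416, nat_lit 7728, nat_lit 528, nat_lit 1392, nat_lit 4752, R4_11, R4_29, R11_99⟩]⟩]⟩,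
 ⟨nat_lit 5, [⟨nat_lit 0, [⟨nat_lit 0, nat_lit 9072, nat_lit 7536, nat_lit 13584, nat_lit 9360, nat_lit 14304, R8_283, R8_195, R4_298⟩]⟩, ⟨nat_lit 3, [⟨nat_lit 0, nat_lit 10656, nat_lit 7680, nat_lit 2064, nat_lit 9408, nat_lit 17184, R5_43, R8_196, R5_358⟩, ⟨nat_lit 3, nat_lit 10704, nat_lit 7776, nat_lit 2112, nat_lit 624, nat_lit 4800, R5_44, R5_13, R11_100⟩]⟩]⟩,
 ⟨nat_lit 7, [⟨nat_lit 0, [⟨nat_lit 0, nat_lit 11616, nat_lit 7584, nat_lit 13344, nat_lit 11616, nat_lit 13344, R4_278, R4_242, R4_278⟩]⟩]⟩], [], [], [], [⟨nat_lit 4, [⟨nat_lit 0, [⟨nat_lit 0, nat_lit 3216, nat_lit 0, nat_lit 96, nat_lit 864, nat_lit 13248, R6_2, R6_18, R7_276⟩, ⟨nat_lit 3, nat_lit 3264, nat_lit 96, nat_lit 960, nat_lit 432, nat_lit 12192, R6_20, R4_9, R2_254⟩]⟩, ⟨nat_lit 1, [⟨nat_lit 0, nat_lit 4080, nat_lit 624, nat_lit 3408,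 nat_lit 3072, nat_lit 2592, R8_71, R6_64, R14_54⟩, ⟨nat_lit 1, nat_lit 4128, nat_lit 912, nat_lit 3504, nat_lit 2880, nat_lit 960, R8_73, R8_60, R12_20⟩, ⟨nat_lit 3, nat_lit 4176, nat_lit 768, nat_lit 3456, nat_lit 2736, nat_lit 2928, R8_72, R4_57, R12_61⟩]⟩, ⟨nat_lit 3, [⟨nat_lit 3, nat_lit 4464, nat_lit 432, nat_lit 576, nat_lit 1344, nat_lit 12768, R4_12, R4_28, R1_266⟩]⟩]⟩,
 ⟨nat_lit 5, [⟨nat_lit 0, [⟨nat_lit 0, nat_lit 9120, nat_lit 7968, nat_lit 13392, nat_lit 9648, nat_lit 16032, R8_279, R8_201, R7_334⟩, ⟨nat_lit 3, nat_lit 9168, nat_lit 8064, nat_lit 13440, nat_lit 528, nat_lit 15024, R8_280, R5_11, R2_313⟩]⟩, ⟨nat_lit 1, [⟨nat_lit 0, nat_lit 10416, nat_lit 9024, nat_lit 2352, nat_lit 9744, nat_lit 3168, R9_49, R8_203, R14_66⟩, ⟨nat_lit 1, nat_lit 10464, nat_lit 9312, nat_lit 2448, nat_lit 1584, nat_lit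 1536, R9_51, R9_33, R12_32⟩, ⟨nat_lit 3, nat_lit 10512, nat_lit 9168, nat_lit 2400, nat_lit 672, nat_lit 4320, R9_50, R5_14, R12_90⟩]⟩, ⟨nat_lit 3, [⟨nat_lit 3, nat_lit 10752, nat_lit 8688, nat_lit 2160, nat_lit 576, nat_lit 16032, R5_45, R5_12, R1_334⟩]⟩]⟩,
 ⟨nat_lit 7, [⟨nat_lit 0, [⟨nat_lit 0, nat_lit 11664, nat_lit 5808, nat_lit 13440, nat_lit 11568, nat_lit 14592, R4_280, R4_241, R7_304⟩]⟩, ⟨nat_lit 1, [⟨nat_lit 0, nat_lit 11712, nat_lit 6144, nat_lit 15984, nat_lit 12000, nat_lit 2784, R5_333, R4_250, R14_58⟩, ⟨nat_lit 1, nat_lit 11760, nat_lit 6336, nat_lit 16032, nat_lit 12720, nat_lit 1152, R5_334, R5_265, R12_24⟩]⟩]⟩]]]]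
noncomputable def N2030 : T3 (List N0) := [[[[⟨nat_lit 0, [⟨nat_lit 2, [⟨nat_lit 2, nat_lit 2688, nat_lit 2208, nat_lit 8496, nat_lit 96, nat_lit 5136, R6_177, R4_2, R4_107⟩, ⟨nat_lit 6, nat_lit 2736, nat_lit 2352, nat_lit 8544, nat_lit 192, nat_lit 4848, R6_178, R7_4, R7_101⟩]⟩]⟩,
 ⟨nat_lit 2, [⟨nat_lit 2, [⟨nat_lit 6, nat_lit 3072, nat_lit 10080, nat_lit 9216, nat_lit 18480, nat_lit 4896, R4_192, R14_385, R7_102⟩]⟩, ⟨nat_lit 6, [⟨nat_lit 4, nat_lit 1008, nat_lit 10944, nat_lit 9072, nat_lit 192, nat_lit 8544, R7_189, R7_4, R6_178⟩, ⟨nat_lit 6, nat_lit 1056, nat_lit 11232, nat_lit 9120, nat_lit 18432, nat_lit 9216, R7_190, R14_384, R4_192⟩]⟩]⟩,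
 ⟨nat_lit 3, [⟨nat_lit 0, [⟨nat_lit 2, nat_lit 2496, nat_lit 4656, nat_lit 4416, nat_lit 912, nat_lit 4800, R6_92, R5_19, R6_100⟩]⟩, ⟨nat_lit 2, [⟨nat_lit 2, nat_lit 3408, nat_lit 6960, nat_lit 8016, nat_lit 1488, nat_lit 5184, R8_167, R5_31, R4_108⟩]⟩, ⟨nat_lit 3, [⟨nat_lit 2, nat_lit 4224, nat_lit 5808, nat_lit 4656, nat_lit 1200, nat_lit 4704, R4_97, R5_25, R8_98⟩]⟩]⟩,
 ⟨nat_lit 6, [⟨nat_lit 4, [⟨nat_lit 7, nat_lit 0, nat_lit 14592, nat_lit 4800, nat_lit 912, nat_lit 4416, R6_100, R5_19, R6_92⟩]⟩, ⟨nat_lit 6, [⟨nat_lit 4, nat_lit 528, nat_lit 15936, nat_lit 5136, nat_lit 96, nat_lit 8496, R4_107, R4_2, R6_177⟩, ⟨nat_lit 7, nat_lit 576, nat_lit 16176, nat_lit 5184, nat_lit 1488, nat_lit 4512, R4_108, R5_31, R8_94⟩]⟩, ⟨nat_lit 7, [⟨nat_lit 7, nat_lit 1872, nat_lit 15360, nat_lit 7536, nat_lit 1200, nat_lit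 4656, R8_157, R5_25, R4_97⟩]⟩]⟩], [⟨nat_lit 0, [⟨nat_lit 2, [⟨nat_lit 2, nat_lit 2832, nat_lit 2064, nat_lit 8592, nat_lit 240, nat_lit 3744, R6_179, R4_5, R3_78⟩, ⟨nat_lit 6, nat_lit 2880, nat_lit 2208, nat_lit 8640, nat_lit 432, nat_lit 3264, R6_180, R7_9, R2_68⟩]⟩]⟩,
 ⟨nat_lit 2, [⟨nat_lit 2, [⟨nat_lit 6, nat_lit 3168, nat_lit 11088, nat_lit 9264, nat_lit 19392, nat_lit 3312, R4_193, R14_404, R2_69⟩]⟩]⟩,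
 ⟨nat_lit 3, [⟨nat_lit 0, [⟨nat_lit 2, nat_lit 2592, nat_lit 4944, nat_lit 5424, nat_lit 3264, nat_lit 4992, R6_113, R5_68, R13_104⟩]⟩, ⟨nat_lit 2, [⟨nat_lit 2, nat_lit 3552, nat_lit 7584, nat_lit 8064, nat_lit 3840, nat_lit 3888, R8_168, R5_80, R3_81⟩]⟩, ⟨nat_lit 3, [⟨nat_lit 2, nat_lit 4320, nat_lit 6144, nat_lit 5760, nat_lit 3600, nat_lit 3936, R4_120, R5_75, R9_82⟩]⟩]⟩], [⟨nat_lit 0, [⟨nat_lit 2, [⟨nat_lit 6, nat_lit 2976, nat_lit 3744, nat_lit 8688, nat_lit 288, nat_lit 8160, R6_181, R7_6, R2_170⟩]⟩]⟩,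
 ⟨nat_lit 2, [⟨nat_lit 2, [⟨nat_lit 6, nat_lit 3264, nat_lit 11712, nat_lit 9312, nat_lit 18864, nat_lit 8208, R4_194, R14_393, R2_171⟩]⟩, ⟨nat_lit 6, [⟨nat_lit 4, nat_lit 1248, nat_lit 10992, nat_lit 9168, nat_lit 5136, nat_lit 11040, R7_191, R7_107, R13_230⟩, ⟨nat_lit 6, nat_lit 1296, nat_lit 11568, nat_lit 9216, nat_lit 18816, nat_lit 11904, R7_192, R14_392, R3_248⟩]⟩]⟩,
 ⟨nat_lit 6, [⟨nat_lit 4, [⟨nat_lit 4, nat_lit 96, nat_lit 17568, nat_lit 5040, nat_lit 4752, nat_lit 12000, R6_105, R4_99, R6_250⟩, ⟨nat_lit 7, nat_lit 144, nat_lit 18288, nat_lit 5088, nat_lit 9168, nat_lit 12432, R6_106, R5_191, R8_259⟩]⟩, ⟨nat_lit 7, [⟨nat_lit 7, nat_lit 2016, nat_lit 18432, nat_lit 7872, nat_lit 9552, nat_lit 10176, R8_164, R5_199, R5_212⟩]⟩]⟩]], [], [[], [], [⟨nat_lit 2, [⟨nat_lit 2, [⟨nat_lit 6, nat_lit 3312, nat_lit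 480, nat_lit 9504, nat_lit 15504, nat_lit 8352, R4_198, R12_323, R2_174⟩]⟩, ⟨nat_lit 6, [⟨nat_lit 4, nat_lit 1344, nat_lit 2592, nat_lit 9600, nat_lit 3552, nat_lit 11280, R7_200, R2_74, R13_235⟩, ⟨nat_lit 5, nat_lit 1440, nat_lit 2640, nat_lit 9696, nat_lit 3024, nat_lit 8880, R7_202, R1_63, R3_185⟩, ⟨nat_lit 6, nat_lit 1392, nat_lit 2688, nat_lit 9648, nat_lit 15552, nat_lit 11952, R7_201, R12_324, R3_249⟩]⟩]⟩]], [[⟨nat_lit 0, [⟨nat_lit 2, [⟨nat_lit 6, nat_lit 2784, nat_lit 1680, nat_lit 8736, nat_lit 1200, nat_lit 4944, R6_182, R2_25, R7_103⟩]⟩]⟩,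
 ⟨nat_lit 2, [⟨nat_lit 2, [⟨nat_lit 6, nat_lit 3120, nat_lit 2304, nat_lit 9360, nat_lit 384, nat_lit 4992, R4_195, R12_8, R7_104⟩]⟩, ⟨nat_lit 6, [⟨nat_lit 4, nat_lit 1104, nat_lit 3744, nat_lit 9264, nat_lit 1200, nat_lit 8736, R7_193, R2_25, R6_182⟩, ⟨nat_lit 6, nat_lit 1152, nat_lit 3840, nat_lit 9312, nat_lit 192, nat_lit 9360, R7_194, R12_4, R4_195⟩, ⟨nat_lit 7, nat_lit 1200, nat_lit 3792, nat_lit 9360, nat_lit 672, nat_lit 4800, R7_195, R1_14, R8_100⟩]⟩]⟩,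
 ⟨nat_lit 3, [⟨nat_lit 0, [⟨nat_lit 2, nat_lit 2544, nat_lit 48, nat_lit 4848, nat_lit 480, nat_lit 4848, R6_101, R11_10, R6_101⟩]⟩, ⟨nat_lit 2, [⟨nat_lit 2, nat_lit 3456, nat_lit 1968, nat_lit 8112, nat_lit 1056, nat_lit 5232, R8_169, R11_22, R4_109⟩, ⟨nat_lit 6, nat_lit 3504, nat_lit 1920, nat_lit 8160, nat_lit 672, nat_lit 5040, R8_170, R1_14, R7_105⟩]⟩, ⟨nat_lit 3, [⟨nat_lit 2, nat_lit 4272, nat_lit 624, nat_lit 5232, nat_lit 768, nat_lit 4752, R4_109, R11_16, R8_99⟩]⟩]⟩,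
 ⟨nat_lit 4, [⟨nat_lit 7, [⟨nat_lit 3, nat_lit 1680, nat_lit 2784, nat_lit 8736, nat_lit 1200, nat_lit 4944, R6_182, R2_25, R7_103⟩]⟩]⟩,
 ⟨nat_lit 6, [⟨nat_lit 4, [⟨nat_lit 7, nat_lit 48, nat_lit 2544, nat_lit 4848, nat_lit 480, nat_lit 4848, R6_101, R11_10, R6_101⟩]⟩, ⟨nat_lit 6, [⟨nat_lit 7, nat_lit 624, nat_lit 4272, nat_lit 5232, nat_lit 768, nat_lit 4752, R4_109, R11_16, R8_99⟩]⟩, ⟨nat_lit 7, [⟨nat_lit 3, nat_lit 1920, nat_lit 3504, nat_lit 8160, nat_lit 672, nat_lit 5040, R8_170, R1_14, R7_105⟩, ⟨nat_lit 7, nat_lit 1968, nat_lit 3456, nat_lit 8112, nat_lit 1056, nat_lit 5232, R8_169, R11_22, R4_109⟩]⟩]⟩,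
 ⟨nat_lit 7, [⟨nat_lit 3, [⟨nat_lit 0, nat_lit 3744, nat_lit 1104, nat_lit 9264, nat_lit 1200, nat_lit 8736, R7_193, R2_25, R6_182⟩, ⟨nat_lit 2, nat_lit 3792, nat_lit 1200, nat_lit 9360, nat_lit 672, nat_lit 4800, R7_195, R1_14, R8_100⟩, ⟨nat_lit 3, nat_lit 3840, nat_lit 1152, nat_lit 9312, nat_lit 192, nat_lit 9360, R7_194, R12_4, R4_195⟩]⟩, ⟨nat_lit 7, [⟨nat_lit 3, nat_lit 2304, nat_lit 3120, nat_lit 9360, nat_lit 384, nat_lit 4992, R4_195, R12_8, R7_104⟩]⟩]⟩], [⟨nat_lit 0, [⟨nat_lit 2, [⟨nat_lit 6, nat_lit 2928, nat_lit 2064, nat_lit 8784, nat_lit 1776, nat_lit 3360, R6_183, R2_37, R2_70⟩]⟩]⟩,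
 ⟨nat_lit 2, [⟨nat_lit 2, [⟨nat_lit 6, nat_lit 3216, nat_lit 2784, nat_lit 9408, nat_lit 2448, nat_lit 3408, R4_196, R12_51, R2_71⟩]⟩]⟩,
 ⟨nat_lit 3, [⟨nat_lit 0, [⟨nat_lit 2, nat_lit 2640, nat_lit 96, nat_lit 6048, nat_lit 3264, nat_lit 5040, R6_126, R11_68, R13_105⟩]⟩, ⟨nat_lit 2, [⟨nat_lit 2, nat_lit 3600, nat_lit 2352, nat_lit 8208, nat_lit 3840, nat_lit 3984, R8_171, R11_80, R3_83⟩, ⟨nat_lit 6, nat_lit 3648, nat_lit 2304, nat_lit 8256, nat_lit 1248, nat_lit 3456, R8_172, R1_26, R2_72⟩]⟩, ⟨nat_lit 3, [⟨nat_lit 2, nat_lit 4368, nat_lit 816, nat_lit 6384, nat_lit 3600, nat_lit 3984, R4_133, R11_75, R9_83⟩]⟩]⟩,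
 ⟨nat_lit 7, [⟨nat_lit 3, [⟨nat_lit 0, nat_lit 3888, nat_lit 1296, nat_lit 10032, nat_lit 2400, nat_lit 7056, R7_209, R2_50, R8_147⟩, ⟨nat_lit 2, nat_lit 3936, nat_lit 1392, nat_lit 10128, nat_lit 1872, nat_lit 4032, R7_211, R1_39, R9_84⟩, ⟨nat_lit 3, nat_lit 3984, nat_lit 1344, nat_lit 10080, nat_lit 240, nat_lit 4848, R7_210, R12_5, R5_101⟩]⟩]⟩], [⟨nat_lit 0, [⟨nat_lit 2, [⟨nat_lit 6, nat_lit 3024, nat_lit 816, nat_lit 8832, nat_lit 1584, nat_lit 8448, R6_184, R2_33, R2_176⟩]⟩]⟩,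
 ⟨nat_lit 2, [⟨nat_lit 2, [⟨nat_lit 6, nat_lit 3360, nat_lit 1536, nat_lit 9456, nat_lit 1488, nat_lit 8496, R4_197, R12_31, R2_177⟩]⟩, ⟨nat_lit 6, [⟨nat_lit 4, nat_lit 1488, nat_lit 2832, nat_lit 9456, nat_lit 8256, nat_lit 11472, R7_197, R2_172, R13_239⟩, ⟨nat_lit 6, nat_lit 1536, nat_lit 2928, nat_lit 9504, nat_lit 1200, nat_lit 12000, R7_198, R12_25, R3_250⟩, ⟨nat_lit 7, nat_lit 1584, nat_lit 2880, nat_lit 9552, nat_lit 9072, nat_lit 9024, R7_199, R1_189, R9_188⟩]⟩]⟩,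
 ⟨nat_lit 3, [⟨nat_lit 2, [⟨nat_lit 6, nat_lit 3696, nat_lit 1104, nat_lit 8304, nat_lit 1056, nat_lit 8544, R8_173, R1_22, R2_178⟩]⟩]⟩,
 ⟨nat_lit 6, [⟨nat_lit 4, [⟨nat_lit 7, nat_lit 336, nat_lit 1872, nat_lit 5136, nat_lit 528, nat_lit 12480, R6_107, R11_11, R8_260⟩]⟩, ⟨nat_lit 6, [⟨nat_lit 7, nat_lit 912, nat_lit 3504, nat_lit 5424, nat_lit 816, nat_lit 8976, R4_113, R11_17, R9_187⟩]⟩, ⟨nat_lit 7, [⟨nat_lit 7, nat_lit 2112, nat_lit 2544, nat_lit 8832, nat_lit 1104, nat_lit 10368, R8_184, R11_23, R5_216⟩]⟩]⟩], [⟨nat_lit 2, [⟨nat_lit 6, [⟨nat_lit 7, nat_lit 1632, nat_lit 10608, nat_lit 9408, nat_lit 6192, nat_lit 14544, R7_196, R1_129, R5_303⟩]⟩]⟩,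
 ⟨nat_lit 3, [⟨nat_lit 3, [⟨nat_lit 2, nat_lit 4416, nat_lit 4656, nat_lit 6864, nat_lit 1488, nat_lit 5040, R4_143, R11_31, R5_105⟩]⟩]⟩,
 ⟨nat_lit 4, [⟨nat_lit 7, [⟨nat_lit 3, nat_lit 1824, nat_lit 11712, nat_lit 9168, nat_lit 1248, nat_lit 4656, R6_191, R2_26, R14_97⟩]⟩]⟩,
 ⟨nat_lit 6, [⟨nat_lit 4, [⟨nat_lit 3, nat_lit 432, nat_lit 15888, nat_lit 4944, nat_lit 48, nat_lit 13344, R6_103, R1_1, R7_278⟩, ⟨nat_lit 7, nat_lit 480, nat_lit 16128, nat_lit 4896, nat_lit 576, nat_lit 12192, R6_102, R11_12, R4_254⟩]⟩, ⟨nat_lit 6, [⟨nat_lit 7, nat_lit 960, nat_lit 17472, nat_lit 5280, nat_lit 864, nat_lit 14688, R4_110, R11_18, R5_306⟩]⟩, ⟨nat_lit 7, [⟨nat_lit 3, nat_lit 2256, nat_lit 16848, nat_lit 8496, nat_lit 720, nat_lit 4704, R8_177, R1_15, R14_98⟩]⟩]⟩,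
 ⟨nat_lit 7, [⟨nat_lit 3, [⟨nat_lit 0, nat_lit 4128, nat_lit 12480, nat_lit 10704, nat_lit 1968, nat_lit 8304, R7_223, R2_41, R4_173⟩, ⟨nat_lit 2, nat_lit 4176, nat_lit 12624, nat_lit 10752, nat_lit 1440, nat_lit 4992, R7_224, R1_30, R5_104⟩]⟩, ⟨nat_lit 7, [⟨nat_lit 0, nat_lit 2400, nat_lit 13728, nat_lit 9888, nat_lit 144, nat_lit 8304, R4_206, R2_3, R7_173⟩, ⟨nat_lit 3, nat_lit 2448, nat_lit 14064, nat_lit 9936, nat_lit 432, nat_lit 4752, R4_207, R12_9, R14_99⟩]⟩]⟩]], [], [], [], [[], [], [], [⟨nat_lit 4, [⟨nat_lit 7, [⟨nat_lit 0, nat_lit 1728, nat_lit 1200, nat_lit 7728, nat_lit 2784, nat_lit 9264, R6_161, R13_58, R7_193⟩, ⟨nat_lit 3, nat_lit 1776, nat_lit 1248, nat_lit 7776, nat_lit 11712, nat_lit 4800, R6_162, R3_244, R14_100⟩]⟩]⟩,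
 ⟨nat_lit 6, [⟨nat_lit 4, [⟨nat_lit 3, nat_lit 384, nat_lit 912, nat_lit 4992, nat_lit 96, nat_lit 13392, R6_104, R10_2, R7_279⟩]⟩, ⟨nat_lit 7, [⟨nat_lit 0, nat_lit 2160, nat_lit 2400, nat_lit 7056, nat_lit 1296, nat_lit 10032, R8_147, R3_27, R7_209⟩, ⟨nat_lit 3, nat_lit 2208, nat_lit 2448, nat_lit 7104, nat_lit 1008, nat_lit 4848, R8_148, R10_21, R14_101⟩]⟩]⟩,
 ⟨nat_lit 7, [⟨nat_lit 3, [⟨nat_lit 0, nat_lit 4032, nat_lit 144, nat_lit 8304, nat_lit 13728, nat_lit 9888, R7_173, R3_286, R4_206⟩, ⟨nat_lit 2, nat_lit 4080, nat_lit 192, nat_lit 8352, nat_lit 1392, nat_lit 4896, R7_174, R10_29, R5_102⟩]⟩, ⟨nat_lit 7, [⟨nat_lit 0, nat_lit 2352, nat_lit 1968, nat_lit 8304, nat_lit 12480, nat_lit 10704, R4_173, R3_260, R7_223⟩]⟩]⟩]]], [[[⟨nat_lit 0, [⟨nat_lit 0, [⟨nat_lit 2, nat_lit 10416, nat_lit 17568, nat_lit 12000,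 nat_lit 4752, nat_lit 5040, R6_250, R4_99, R6_105⟩]⟩, ⟨nat_lit 2, [⟨nat_lit 2, nat_lit 10992, nat_lit 17712, nat_lit 10992, nat_lit 5328, nat_lit 5328, R13_229, R4_111, R4_111⟩, ⟨nat_lit 6, nat_lit 11040, nat_lit 10992, nat_lit 11040, nat_lit 5136, nat_lit 5136, R13_230, R7_107, R7_107⟩]⟩]⟩,
 ⟨nat_lit 2, [⟨nat_lit 2, [⟨nat_lit 6, nat_lit 11808, nat_lit 11568, nat_lit 11904, nat_lit 19776, nat_lit 5184, R3_248, R14_412, R7_108⟩]⟩, ⟨nat_lit 6, [⟨nat_lit 4, nat_lit 9792, nat_lit 3744, nat_lit 8160, nat_lit 288, nat_lit 8688, R2_170, R7_6, R6_181⟩, ⟨nat_lit 6, nat_lit 9840, nat_lit 11712, nat_lit 8208, nat_lit 19728, nat_lit 9312, R2_171, R14_411, R4_194⟩]⟩]⟩,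
 ⟨nat_lit 3, [⟨nat_lit 0, [⟨nat_lit 2, nat_lit 10704, nat_lit 18288, nat_lit 12432, nat_lit 9168, nat_lit 5088, R8_259, R5_191, R6_106⟩]⟩, ⟨nat_lit 2, [⟨nat_lit 2, nat_lit 12240, nat_lit 18576, nat_lit 8784, nat_lit 9936, nat_lit 5376, R9_183, R5_207, R4_112⟩]⟩, ⟨nat_lit 3, [⟨nat_lit 2, nat_lit 12624, nat_lit 18432, nat_lit 10176, nat_lit 9552, nat_lit 4992, R5_212, R5_199, R8_104⟩]⟩]⟩], [⟨nat_lit 0, [⟨nat_lit 0, [⟨nat_lit 2, nat_lit 10512, nat_lit 3264, nat_lit 12096, nat_lit 4944, nat_lit 5232, R6_252, R4_103, R13_109⟩]⟩, ⟨nat_lit 2, [⟨nat_lit 2, nat_lit 11232, nat_lit 3456, nat_lit 11088, nat_lit 5472, nat_lit 3792, R13_231, R4_114, R3_79⟩, ⟨nat_lit 6, nat_lit 11280, nat_lit 2592, nat_lit 11136, nat_lit 5376, nat_lit 3552, R13_232, R7_112, R2_74⟩]⟩]⟩,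
 ⟨nat_lit 2, [⟨nat_lit 2, [⟨nat_lit 6, nat_lit 11952, nat_lit 13824, nat_lit 12048, nat_lit 21072, nat_lit 3600, R3_251, R14_439, R2_75⟩]⟩]⟩,
 ⟨nat_lit 3, [⟨nat_lit 0, [⟨nat_lit 2, nat_lit 10848, nat_lit 11328, nat_lit 12864, nat_lit 11328, nat_lit 5280, R8_268, R5_236, R13_110⟩]⟩, ⟨nat_lit 2, [⟨nat_lit 2, nat_lit 12432, nat_lit 11664, nat_lit 8832, nat_lit 12192, nat_lit 3936, R9_184, R5_254, R3_82⟩]⟩, ⟨nat_lit 3, [⟨nat_lit 2, nat_lit 12768, nat_lit 11520, nat_lit 10224, nat_lit 11808, nat_lit 4224, R5_213, R5_246, R9_88⟩]⟩]⟩], [⟨nat_lit 0, [⟨nat_lit 2, [⟨nat_lit 6, nat_lit 11472, nat_lit 2832, nat_lit 11184, nat_lit 5232, nat_lit 8256, R13_233, R7_109, R2_172⟩]⟩]⟩,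
 ⟨nat_lit 2, [⟨nat_lit 2, [⟨nat_lit 6, nat_lit 12096, nat_lit 12480, nat_lit 12192, nat_lit 20352, nat_lit 8304, R3_254, R14_424, R2_173⟩]⟩, ⟨nat_lit 6, [⟨nat_lit 4, nat_lit 10080, nat_lit 11712, nat_lit 8256, nat_lit 5232, nat_lit 11184, R2_172, R7_109, R13_233⟩, ⟨nat_lit 6, nat_lit 10128, nat_lit 12336, nat_lit 8304, nat_lit 20304, nat_lit 12192, R2_173, R14_423, R3_254⟩]⟩]⟩]], [[⟨nat_lit 0, [⟨nat_lit 0, [⟨nat_lit 2, nat_lit 10464, nat_lit 1056, nat_lit 12048, nat_lit 48, nat_lit 5184, R6_251, R3_1, R6_108⟩]⟩, ⟨nat_lit 2, [⟨nat_lit 2, nat_lit 11088, nat_lit 3456, nat_lit 11232, nat_lit 3792, nat_lit 5472, R13_234, R3_79, R4_114⟩, ⟨nat_lit 6, nat_lit 11136, nat_lit 2592, nat_lit 11280, nat_lit 3552, nat_lit 5376, R13_235, R2_74, R7_112⟩]⟩]⟩,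
 ⟨nat_lit 1, [⟨nat_lit 0, [⟨nat_lit 2, nat_lit 10608, nat_lit 1152, nat_lit 12288, nat_lit 2976, nat_lit 5280, R4_256, R10_62, R6_110⟩]⟩, ⟨nat_lit 2, [⟨nat_lit 2, nat_lit 11568, nat_lit 3552, nat_lit 8832, nat_lit 3648, nat_lit 5568, R3_184, R10_76, R4_116⟩, ⟨nat_lit 6, nat_lit 11616, nat_lit 2640, nat_lit 8880, nat_lit 3024, nat_lit 5472, R3_185, R1_63, R7_114⟩]⟩]⟩,
 ⟨nat_lit 2, [⟨nat_lit 2, [⟨nat_lit 6, nat_lit 11856, nat_lit 2688, nat_lit 11952, nat_lit 15552, nat_lit 5424, R3_249, R12_324, R7_113⟩]⟩, ⟨nat_lit 6, [⟨nat_lit 6, nat_lit 9888, nat_lit 480, nat_lit 8352, nat_lit 15504, nat_lit 9504, R2_174, R12_323, R4_198⟩]⟩]⟩,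
 ⟨nat_lit 3, [⟨nat_lit 0, [⟨nat_lit 2, nat_lit 10752, nat_lit 1104, nat_lit 12528, nat_lit 144, nat_lit 5232, R8_261, R0_3, R6_109⟩]⟩, ⟨nat_lit 2, [⟨nat_lit 2, nat_lit 12288, nat_lit 3504, nat_lit 8880, nat_lit 240, nat_lit 5520, R9_185, R0_5, R4_115⟩]⟩, ⟨nat_lit 3, [⟨nat_lit 2, nat_lit 12672, nat_lit 2256, nat_lit 10272, nat_lit 336, nat_lit 5088, R5_214, R0_7, R8_106⟩]⟩]⟩], [⟨nat_lit 0, [⟨nat_lit 0, [⟨nat_lit 2, nat_lit 10560, nat_lit 624, nat_lit 12144, nat_lit 96, nat_lit 5376, R6_253, R3_2, R13_112⟩]⟩, ⟨nat_lit 2, [⟨nat_lit 2, nat_lit 11328, nat_lit 3456, nat_lit 11328, nat_lit 3840, nat_lit 3840, R13_236, R3_80, R3_80⟩, ⟨nat_lit 6, nat_lit 11376, nat_lit 2592, nat_lit 11376, nat_lit 3792, nat_lit 3792, R13_237, R2_79, R2_79⟩]⟩]⟩,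
 ⟨nat_lit 1, [⟨nat_lit 0, [⟨nat_lit 2, nat_lit 10656, nat_lit 720, nat_lit 12336, nat_lit 3168, nat_lit 5472, R4_257, R10_66, R13_114⟩]⟩, ⟨nat_lit 2, [⟨nat_lit 2, nat_lit 11664, nat_lit 3552, nat_lit 8928, nat_lit 3792, nat_lit 4272, R3_186, R10_79, R3_89⟩, ⟨nat_lit 6, nat_lit 11712, nat_lit 2640, nat_lit 8976, nat_lit 3264, nat_lit 3888, R3_187, R1_68, R2_81⟩]⟩]⟩,
 ⟨nat_lit 2, [⟨nat_lit 2, [⟨nat_lit 6, nat_lit 12000, nat_lit 2688, nat_lit 12096, nat_lit 16848, nat_lit 3840, R3_252, R12_351, R2_80⟩]⟩]⟩,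
 ⟨nat_lit 3, [⟨nat_lit 0, [⟨nat_lit 2, nat_lit 10896, nat_lit 672, nat_lit 12960, nat_lit 192, nat_lit 5424, R8_270, R0_4, R13_113⟩]⟩, ⟨nat_lit 2, [⟨nat_lit 2, nat_lit 12480, nat_lit 3504, nat_lit 8928, nat_lit 288, nat_lit 4128, R9_186, R0_6, R3_86⟩]⟩, ⟨nat_lit 3, [⟨nat_lit 2, nat_lit 12816, nat_lit 2256, nat_lit 10320, nat_lit 384, nat_lit 4320, R5_215, R0_8, R9_90⟩]⟩]⟩], [⟨nat_lit 0, [⟨nat_lit 2, [⟨nat_lit 6, nat_lit 11520, nat_lit 1296, nat_lit 11424, nat_lit 3648, nat_lit 8640, R13_238, R2_76, R2_180⟩]⟩]⟩,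
 ⟨nat_lit 1, [⟨nat_lit 2, [⟨nat_lit 6, nat_lit 11760, nat_lit 6432, nat_lit 9024, nat_lit 3120, nat_lit 8736, R3_188, R1_65, R2_182⟩]⟩]⟩,
 ⟨nat_lit 2, [⟨nat_lit 2, [⟨nat_lit 6, nat_lit 12144, nat_lit 10656, nat_lit 12240, nat_lit 16128, nat_lit 8688, R3_255, R12_336, R2_181⟩]⟩, ⟨nat_lit 6, [⟨nat_lit 6, nat_lit 10176, nat_lit 10512, nat_lit 8400, nat_lit 16080, nat_lit 12288, R2_175, R12_335, R3_256⟩]⟩]⟩]], [[], [], [⟨nat_lit 2, [⟨nat_lit 2, [⟨nat_lit 6, nat_lit 12192, nat_lit 10512, nat_lit 12288, nat_lit 16080, nat_lit 8400, R3_256, R12_335, R2_175⟩]⟩, ⟨nat_lit 6, [⟨nat_lit 4, nat_lit 10224, nat_lit 1296, nat_lit 8640, nat_lit 3648, nat_lit 11424, R2_180, R2_76, R13_238⟩, ⟨nat_lit 5, nat_lit 10320, nat_lit 6432, nat_lit 8736, nat_lit 3120, nat_lit 9024, R2_182, R1_65, R3_188⟩, ⟨nat_lit 6, nat_lit 10272, nat_lit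 10656, nat_lit 8688, nat_lit 16128, nat_lit 12240, R2_181, R12_336, R3_255⟩]⟩]⟩]], [[⟨nat_lit 0, [⟨nat_lit 2, [⟨nat_lit 6, nat_lit 11184, nat_lit 2832, nat_lit 11472, nat_lit 8256, nat_lit 5232, R13_239, R2_172, R7_109⟩]⟩]⟩,
 ⟨nat_lit 2, [⟨nat_lit 2, [⟨nat_lit 6, nat_lit 11904, nat_lit 2928, nat_lit 12000, nat_lit 7488, nat_lit 5280, R3_250, R12_156, R7_110⟩]⟩, ⟨nat_lit 6, [⟨nat_lit 4, nat_lit 9936, nat_lit 816, nat_lit 8448, nat_lit 1584, nat_lit 8832, R2_176, R2_33, R6_184⟩, ⟨nat_lit 6, nat_lit 9984, nat_lit 1536, nat_lit 8496, nat_lit 7200, nat_lit 9456, R2_177, R12_150, R4_197⟩, ⟨nat_lit 7, nat_lit 10032, nat_lit 1104, nat_lit 8544, nat_lit 1056, nat_lit 6432, R2_178, R1_22, R8_134⟩]⟩]⟩,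
 ⟨nat_lit 3, [⟨nat_lit 0, [⟨nat_lit 2, nat_lit 10800, nat_lit 1872, nat_lit 12480, nat_lit 11616, nat_lit 5136, R8_260, R11_242, R6_107⟩]⟩, ⟨nat_lit 2, [⟨nat_lit 2, nat_lit 12336, nat_lit 3504, nat_lit 8976, nat_lit 12384, nat_lit 5424, R9_187, R11_258, R4_113⟩, ⟨nat_lit 6, nat_lit 12384, nat_lit 2880, nat_lit 9024, nat_lit 9072, nat_lit 5328, R9_188, R1_189, R7_111⟩]⟩, ⟨nat_lit 3, [⟨nat_lit 2, nat_lit 12720, nat_lit 2544, nat_lit 10368, nat_lit 12000, nat_lit 5040, R5_216, R11_250, R8_105⟩]⟩]⟩], [⟨nat_lit 0, [⟨nat_lit 2, [⟨nat_lit 6, nat_lit 11424, nat_lit 1296, nat_lit 11520, nat_lit 8640, nat_lit 3648, R13_240, R2_180, R2_76⟩]⟩]⟩,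
 ⟨nat_lit 2, [⟨nat_lit 2, [⟨nat_lit 6, nat_lit 12048, nat_lit 1392, nat_lit 12144, nat_lit 9264, nat_lit 3696, R3_253, R12_193, R2_77⟩]⟩]⟩,
 ⟨nat_lit 3, [⟨nat_lit 0, [⟨nat_lit 2, nat_lit 10944, nat_lit 192, nat_lit 12912, nat_lit 14304, nat_lit 5328, R8_269, R11_298, R13_111⟩]⟩, ⟨nat_lit 2, [⟨nat_lit 2, nat_lit 12528, nat_lit 1968, nat_lit 9072, nat_lit 15168, nat_lit 4080, R9_189, R11_316, R3_85⟩, ⟨nat_lit 6, nat_lit 12576, nat_lit 1344, nat_lit 9120, nat_lit 9456, nat_lit 3744, R9_190, R1_197, R2_78⟩]⟩, ⟨nat_lit 3, [⟨nat_lit 2, nat_lit 12864, nat_lit 1008, nat_lit 10416, nat_lit 14784, nat_lit 4272, R5_217, R11_308, R9_89⟩]⟩]⟩]]], [[[⟨nat_lit 2, [⟨nat_lit 6, [⟨nat_lit 4, nat_lit 7728, nat_lit 2208, nat_lit 3264, nat_lit 432, nat_lit 8640, R2_68, R7_9, R6_180⟩, ⟨nat_lit 6, nat_lit 7776, nat_lit 11088, nat_lit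 3312, nat_lit 21600, nat_lit 9264, R2_69, R14_450, R4_193⟩]⟩]⟩,
 ⟨nat_lit 6, [⟨nat_lit 4, [⟨nat_lit 7, nat_lit 5520, nat_lit 4944, nat_lit 4992, nat_lit 3264, nat_lit 5424, R13_104, R5_68, R6_113⟩]⟩, ⟨nat_lit 6, [⟨nat_lit 4, nat_lit 7200, nat_lit 2064, nat_lit 3744, nat_lit 240, nat_lit 8592, R3_78, R4_5, R6_179⟩, ⟨nat_lit 7, nat_lit 7248, nat_lit 7584, nat_lit 3888, nat_lit 3840, nat_lit 5184, R3_81, R5_80, R8_108⟩]⟩, ⟨nat_lit 7, [⟨nat_lit 7, nat_lit 9072, nat_lit 6144, nat_lit 3936, nat_lit 3600, nat_lit 5760, R9_82, R5_75, R4_120⟩]⟩]⟩], [], [⟨nat_lit 2, [⟨nat_lit 6, [⟨nat_lit 4, nat_lit 7968, nat_lit 2592, nat_lit 3552, nat_lit 5376, nat_lit 11136, R2_74, R7_112, R13_232⟩, ⟨nat_lit 6, nat_lit 8016, nat_lit 13824, nat_lit 3600, nat_lit 21936, nat_lit 12048, R2_75, R14_457, R3_251⟩]⟩]⟩,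
 ⟨nat_lit 6, [⟨nat_lit 4, [⟨nat_lit 4, nat_lit 5616, nat_lit 3264, nat_lit 5232, nat_lit 4944, nat_lit 12096, R13_109, R4_103, R6_252⟩, ⟨nat_lit 7, nat_lit 5664, nat_lit 11328, nat_lit 5280, nat_lit 11328, nat_lit 12864, R13_110, R5_236, R8_268⟩]⟩, ⟨nat_lit 6, [⟨nat_lit 4, nat_lit 7344, nat_lit 3456, nat_lit 3792, nat_lit 5472, nat_lit 11088, R3_79, R4_114, R13_231⟩, ⟨nat_lit 7, nat_lit 7392, nat_lit 11664, nat_lit 3936, nat_lit 12192, nat_lit 8832, R3_82, R5_254, R9_184⟩]⟩, ⟨nat_lit 7, [⟨nat_lit 7, nat_lit 9216, nat_lit 11520, nat_lit 4224, nat_lit 11808, nat_lit 10224, R9_88, R5_246, R5_213⟩]⟩]⟩]], [], [[], [], [⟨nat_lit 2, [⟨nat_lit 6, [⟨nat_lit 4, nat_lit 8064, nat_lit 2592, nat_lit 3792, nat_lit 3792, nat_lit 11376, R2_79, R2_79, R13_237⟩, ⟨nat_lit 5, nat_lit 8160, nat_lit 2640, nat_lit 3888, nat_lit 3264,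 nat_lit 8976, R2_81, R1_68, R3_187⟩, ⟨nat_lit 6, nat_lit 8112, nat_lit 2688, nat_lit 3840, nat_lit 16848, nat_lit 12096, R2_80, R12_351, R3_252⟩]⟩]⟩,
 ⟨nat_lit 6, [⟨nat_lit 4, [⟨nat_lit 4, nat_lit 5712, nat_lit 624, nat_lit 5376, nat_lit 96, nat_lit 12144, R13_112, R3_2, R6_253⟩, ⟨nat_lit 5, nat_lit 5760, nat_lit 720, nat_lit 5472, nat_lit 384, nat_lit 12336, R13_114, R10_8, R4_257⟩, ⟨nat_lit 7, nat_lit 5808, nat_lit 672, nat_lit 5424, nat_lit 192, nat_lit 12960, R13_113, R0_4, R8_270⟩]⟩, ⟨nat_lit 6, [⟨nat_lit 4, nat_lit 7440, nat_lit 3456, nat_lit 3840, nat_lit 3840, nat_lit 11328, R3_80, R3_80, R13_236⟩, ⟨nat_lit 5, nat_lit 7488, nat_lit 3552, nat_lit 4272, nat_lit 528, nat_lit 8928, R3_89, R10_11, R3_186⟩, ⟨nat_lit 7, nat_lit 7536, nat_lit 3504, nat_lit 4128, nat_lit 288, nat_lit 8928, R3_86, R0_6, R9_186⟩]⟩,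 ⟨nat_lit 7, [⟨nat_lit 7, nat_lit 9264, nat_lit 2256, nat_lit 4320, nat_lit 384, nat_lit 10320, R9_90, R0_8, R5_215⟩]⟩]⟩], [], [], [], [⟨nat_lit 2, [⟨nat_lit 6, [⟨nat_lit 5, nat_lit 7680, nat_lit 336, nat_lit 3936, nat_lit 13584, nat_lit 12336, R2_82, R1_283, R2_257⟩]⟩]⟩,
 ⟨nat_lit 6, [⟨nat_lit 4, [⟨nat_lit 5, nat_lit 5184, nat_lit 240, nat_lit 5904, nat_lit 432, nat_lit 13680, R13_123, R10_9, R7_285⟩]⟩, ⟨nat_lit 5, [⟨nat_lit 5, nat_lit 6768, nat_lit 288, nat_lit 4176, nat_lit 624, nat_lit 12432, R3_87, R10_13, R2_259⟩]⟩, ⟨nat_lit 6, [⟨nat_lit 5, nat_lit 7152, nat_lit 384, nat_lit 4224, nat_lit 576, nat_lit 12384, R3_88, R10_12, R2_258⟩]⟩]⟩]], [[⟨nat_lit 2, [⟨nat_lit 6, [⟨nat_lit 4, nat_lit 7824, nat_lit 2064, nat_lit 3360, nat_lit 1776, nat_lit 8784, R2_70, R2_37, R6_183⟩, ⟨nat_lit 6, nat_lit 7872, nat_lit 2784,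 nat_lit 3408, nat_lit 10224, nat_lit 9408, R2_71, R12_213, R4_196⟩, ⟨nat_lit 7, nat_lit 7920, nat_lit 2304, nat_lit 3456, nat_lit 1248, nat_lit 5568, R2_72, R1_26, R8_116⟩]⟩]⟩,
 ⟨nat_lit 4, [⟨nat_lit 7, [⟨nat_lit 3, nat_lit 8640, nat_lit 1296, nat_lit 7056, nat_lit 2400, nat_lit 5808, R8_147, R2_50, R7_121⟩]⟩]⟩,
 ⟨nat_lit 6, [⟨nat_lit 4, [⟨nat_lit 7, nat_lit 5568, nat_lit 96, nat_lit 5040, nat_lit 624, nat_lit 6048, R13_105, R11_13, R6_126⟩]⟩, ⟨nat_lit 6, [⟨nat_lit 7, nat_lit 7296, nat_lit 2352, nat_lit 3984, nat_lit 912, nat_lit 5520, R3_83, R11_19, R8_115⟩]⟩, ⟨nat_lit 7, [⟨nat_lit 3, nat_lit 9120, nat_lit 1392, nat_lit 4032, nat_lit 1872, nat_lit 5904, R9_84, R1_39, R7_123⟩, ⟨nat_lit 7, nat_lit 9168, nat_lit 816, nat_lit 3984, nat_lit 1248, nat_lit 6384, R9_83, R11_26, R4_133⟩]⟩]⟩,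
 ⟨nat_lit 7, [⟨nat_lit 7, [⟨nat_lit 3, nat_lit 9600, nat_lit 1344, nat_lit 4848, nat_lit 480, nat_lit 5856, R5_101, R12_10, R7_122⟩]⟩]⟩], [], [⟨nat_lit 2, [⟨nat_lit 6, [⟨nat_lit 4, nat_lit 8208, nat_lit 1296, nat_lit 3648, nat_lit 8640, nat_lit 11520, R2_76, R2_180, R13_240⟩, ⟨nat_lit 6, nat_lit 8256, nat_lit 1392, nat_lit 3696, nat_lit 10944, nat_lit 12144, R2_77, R12_228, R3_253⟩, ⟨nat_lit 7, nat_lit 8304, nat_lit 1344, nat_lit 3744, nat_lit 9456, nat_lit 9120, R2_78, R1_197, R9_190⟩]⟩]⟩,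
 ⟨nat_lit 6, [⟨nat_lit 4, [⟨nat_lit 7, nat_lit 5856, nat_lit 192, nat_lit 5328, nat_lit 672, nat_lit 12912, R13_111, R11_14, R8_269⟩]⟩, ⟨nat_lit 6, [⟨nat_lit 7, nat_lit 7584, nat_lit 1968, nat_lit 4080, nat_lit 960, nat_lit 9072, R3_85, R11_20, R9_189⟩]⟩, ⟨nat_lit 7, [⟨nat_lit 7, nat_lit 9312, nat_lit 1008, nat_lit 4272, nat_lit 1296, nat_lit 10416, R9_89, R11_27, R5_217⟩]⟩]⟩], [⟨nat_lit 2, [⟨nat_lit 6, [⟨nat_lit 7, nat_lit 8352, nat_lit 2256, nat_lit 3504, nat_lit 6672, nat_lit 14592, R2_73, R1_139, R5_304⟩]⟩]⟩,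
 ⟨nat_lit 4, [⟨nat_lit 4, [⟨nat_lit 3, nat_lit 4944, nat_lit 96, nat_lit 4992, nat_lit 912, nat_lit 13536, R6_104, R2_19, R7_282⟩]⟩, ⟨nat_lit 7, [⟨nat_lit 3, nat_lit 8784, nat_lit 1008, nat_lit 7104, nat_lit 2448, nat_lit 4896, R8_148, R2_51, R14_102⟩]⟩]⟩,
 ⟨nat_lit 6, [⟨nat_lit 4, [⟨nat_lit 3, nat_lit 5952, nat_lit 432, nat_lit 5136, nat_lit 240, nat_lit 13632, R13_107, R1_5, R7_284⟩, ⟨nat_lit 7, nat_lit 6000, nat_lit 384, nat_lit 5088, nat_lit 720, nat_lit 12336, R13_106, R11_15, R4_257⟩]⟩, ⟨nat_lit 6, [⟨nat_lit 7, nat_lit 7632, nat_lit 2496, nat_lit 4032, nat_lit 1008, nat_lit 14736, R3_84, R11_21, R5_307⟩]⟩, ⟨nat_lit 7, [⟨nat_lit 3, nat_lit 9456, nat_lit 2064, nat_lit 4080, nat_lit 1920, nat_lit 4944, R9_85, R1_40, R14_103⟩]⟩]⟩,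
 ⟨nat_lit 7, [⟨nat_lit 7, [⟨nat_lit 0, nat_lit 9696, nat_lit 1392, nat_lit 4896, nat_lit 192, nat_lit 8352, R5_102, R2_4, R7_174⟩, ⟨nat_lit 3, nat_lit 9744, nat_lit 1440, nat_lit 4944, nat_lit 528, nat_lit 4992, R5_103, R12_11, R14_104⟩]⟩]⟩]], [[], [], [], [], [⟨nat_lit 4, [⟨nat_lit 4, [⟨nat_lit 1, nat_lit 4464, nat_lit 4752, nat_lit 5040, nat_lit 17568, nat_lit 12000, R6_105, R8_366, R6_250⟩]⟩, ⟨nat_lit 5, [⟨nat_lit 0, nat_lit 6048, nat_lit 96, nat_lit 5136, nat_lit 15936, nat_lit 8496, R4_107, R6_332, R6_177⟩, ⟨nat_lit 1, nat_lit 6096, nat_lit 5328, nat_lit 5328, nat_lit 17712, nat_lit 16080, R4_111, R8_369, R13_335⟩]⟩]⟩,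
 ⟨nat_lit 6, [⟨nat_lit 4, [⟨nat_lit 1, nat_lit 4992, nat_lit 4944, nat_lit 5520, nat_lit 3264, nat_lit 12096, R13_115, R5_68, R6_252⟩]⟩, ⟨nat_lit 5, [⟨nat_lit 0, nat_lit 6528, nat_lit 240, nat_lit 3744, nat_lit 2064, nat_lit 8592, R3_78, R4_43, R6_179⟩, ⟨nat_lit 1, nat_lit 6576, nat_lit 5472, nat_lit 3792, nat_lit 3456, nat_lit 16176, R3_79, R5_72, R13_337⟩]⟩]⟩], [], [], [⟨nat_lit 4, [⟨nat_lit 4, [⟨nat_lit 0, nat_lit 4608, nat_lit 912, nat_lit 4800, nat_lit 14592, nat_lit 11808, R6_100, R6_304, R6_246⟩, ⟨nat_lit 1, nat_lit 4656, nat_lit 9168, nat_lit 5088, nat_lit 18288, nat_lit 12720, R6_106, R8_381, R8_265⟩]⟩, ⟨nat_lit 5, [⟨nat_lit 0, nat_lit 6240, nat_lit 1488, nat_lit 5184, nat_lit 16176, nat_lit 8016, R4_108, R6_337, R8_167⟩, ⟨nat_lit 1, nat_lit 6288, nat_lit 9936, nat_lit 5376, nat_lit 18576, nat_lit 13728,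 R4_112, R8_387, R9_286⟩]⟩, ⟨nat_lit 7, [⟨nat_lit 0, nat_lit 8400, nat_lit 1200, nat_lit 7536, nat_lit 15360, nat_lit 4656, R8_157, R6_320, R4_97⟩, ⟨nat_lit 1, nat_lit 8448, nat_lit 9552, nat_lit 7872, nat_lit 18432, nat_lit 10176, R8_164, R8_384, R5_212⟩]⟩]⟩,
 ⟨nat_lit 6, [⟨nat_lit 4, [⟨nat_lit 0, nat_lit 5232, nat_lit 3264, nat_lit 5616, nat_lit 4944, nat_lit 12096, R13_117, R4_103, R6_252⟩, ⟨nat_lit 1, nat_lit 5280, nat_lit 11328, nat_lit 5664, nat_lit 11328, nat_lit 12864, R13_118, R5_236, R8_268⟩]⟩, ⟨nat_lit 5, [⟨nat_lit 0, nat_lit 6816, nat_lit 3840, nat_lit 3888, nat_lit 7584, nat_lit 8064, R3_81, R4_158, R8_168⟩, ⟨nat_lit 1, nat_lit 6864, nat_lit 12192, nat_lit 3936, nat_lit 11664, nat_lit 13872, R3_82, R5_243, R9_289⟩]⟩, ⟨nat_lit 7, [⟨nat_lit 0, nat_lit 8832, nat_lit 3600, nat_lit 4368, nat_lit 6144,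 nat_lit 5760, R9_91, R4_128, R4_120⟩, ⟨nat_lit 1, nat_lit 8880, nat_lit 11808, nat_lit 4416, nat_lit 11520, nat_lit 10224, R9_92, R5_240, R5_213⟩]⟩]⟩]], [], [[], [], [], [], [⟨nat_lit 4, [⟨nat_lit 4, [⟨nat_lit 1, nat_lit 4512, nat_lit 48, nat_lit 5184, nat_lit 1056, nat_lit 12048, R6_108, R5_22, R6_251⟩]⟩, ⟨nat_lit 5, [⟨nat_lit 1, nat_lit 6144, nat_lit 3792, nat_lit 5472, nat_lit 3456, nat_lit 16128, R4_114, R5_72, R13_336⟩]⟩]⟩,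
 ⟨nat_lit 6, [⟨nat_lit 4, [⟨nat_lit 1, nat_lit 5040, nat_lit 96, nat_lit 5568, nat_lit 624, nat_lit 12144, R13_116, R11_13, R6_253⟩]⟩, ⟨nat_lit 5, [⟨nat_lit 1, nat_lit 6624, nat_lit 3840, nat_lit 3840, nat_lit 3456, nat_lit 16224, R3_80, R11_72, R13_338⟩]⟩]⟩], [], [⟨nat_lit 4, [⟨nat_lit 4, [⟨nat_lit 1, nat_lit 4560, nat_lit 336, nat_lit 5280, nat_lit 1152, nat_lit 12288, R6_110, R5_24, R4_256⟩]⟩, ⟨nat_lit 5, [⟨nat_lit 1, nat_lit 6192, nat_lit 480, nat_lit 5568, nat_lit 3552, nat_lit 8832, R4_116, R5_74, R3_184⟩]⟩]⟩,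
 ⟨nat_lit 6, [⟨nat_lit 4, [⟨nat_lit 1, nat_lit 5088, nat_lit 384, nat_lit 6000, nat_lit 720, nat_lit 12336, R13_125, R11_15, R4_257⟩, ⟨nat_lit 5, nat_lit 5136, nat_lit 432, nat_lit 5952, nat_lit 240, nat_lit 13632, R13_124, R1_5, R7_284⟩]⟩, ⟨nat_lit 5, [⟨nat_lit 1, nat_lit 6672, nat_lit 528, nat_lit 4272, nat_lit 3552, nat_lit 8928, R3_89, R11_74, R3_186⟩, ⟨nat_lit 5, nat_lit 6720, nat_lit 576, nat_lit 4224, nat_lit 384, nat_lit 12384, R3_88, R1_8, R2_258⟩]⟩, ⟨nat_lit 6, [⟨nat_lit 5, nat_lit 7104, nat_lit 624, nat_lit 4176, nat_lit 288, nat_lit 12432, R3_87, R1_6, R2_259⟩]⟩]⟩], [⟨nat_lit 4, [⟨nat_lit 7, [⟨nat_lit 1, nat_lit 8496, nat_lit 336, nat_lit 9168, nat_lit 2256, nat_lit 10272, R8_191, R5_47, R5_214⟩]⟩]⟩,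
 ⟨nat_lit 6, [⟨nat_lit 4, [⟨nat_lit 1, nat_lit 5328, nat_lit 192, nat_lit 5856, nat_lit 672, nat_lit 12912, R13_122, R11_14, R8_269⟩]⟩, ⟨nat_lit 7, [⟨nat_lit 1, nat_lit 8928, nat_lit 384, nat_lit 4560, nat_lit 2256, nat_lit 10320, R9_95, R11_47, R5_215⟩]⟩]⟩]], [[], [], [], [⟨nat_lit 4, [⟨nat_lit 4, [⟨nat_lit 3, nat_lit 4896, nat_lit 48, nat_lit 4944, nat_lit 15888, nat_lit 13584, R6_103, R3_331, R7_283⟩]⟩, ⟨nat_lit 7, [⟨nat_lit 0, nat_lit 8688, nat_lit 672, nat_lit 8160, nat_lit 3504, nat_lit 9360, R8_170, R13_73, R7_195⟩, ⟨nat_lit 3, nat_lit 8736, nat_lit 720, nat_lit 8496, nat_lit 16848, nat_lit 5040, R8_177, R3_351, R14_105⟩]⟩]⟩,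
 ⟨nat_lit 6, [⟨nat_lit 4, [⟨nat_lit 3, nat_lit 5904, nat_lit 240, nat_lit 5184, nat_lit 432, nat_lit 13680, R13_108, R10_9, R7_285⟩]⟩, ⟨nat_lit 7, [⟨nat_lit 0, nat_lit 9360, nat_lit 1872, nat_lit 4128, nat_lit 1392, nat_lit 10128, R9_86, R3_29, R7_211⟩, ⟨nat_lit 3, nat_lit 9408, nat_lit 1920, nat_lit 4176, nat_lit 2064, nat_lit 5088, R9_87, R10_43, R14_106⟩]⟩]⟩,
 ⟨nat_lit 7, [⟨nat_lit 7, [⟨nat_lit 0, nat_lit 9648, nat_lit 1440, nat_lit 4992, nat_lit 12624, nat_lit 10752, R5_104, R3_263, R7_224⟩]⟩]⟩], [], [], [], [⟨nat_lit 4, [⟨nat_lit 4, [⟨nat_lit 0, nat_lit 4752, nat_lit 480, nat_lit 4848, nat_lit 2544, nat_lit 11856, R6_101, R13_53, R6_247⟩, ⟨nat_lit 1, nat_lit 4800, nat_lit 528, nat_lit 5136, nat_lit 1872, nat_lit 12816, R6_107, R9_39, R8_267⟩, ⟨nat_lit 3, nat_lit 4848, nat_lit 576, nat_lit 4896, nat_lit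 16128, nat_lit 12192, R6_102, R3_336, R4_254⟩]⟩, ⟨nat_lit 5, [⟨nat_lit 0, nat_lit 6384, nat_lit 768, nat_lit 5232, nat_lit 4272, nat_lit 8112, R4_109, R13_89, R8_169⟩, ⟨nat_lit 1, nat_lit 6432, nat_lit 816, nat_lit 5424, nat_lit 3504, nat_lit 13824, R4_113, R9_73, R9_288⟩, ⟨nat_lit 3, nat_lit 6480, nat_lit 864, nat_lit 5280, nat_lit 17472, nat_lit 14688, R4_110, R3_364, R5_306⟩]⟩, ⟨nat_lit 7, [⟨nat_lit 0, nat_lit 8544, nat_lit 1056, nat_lit 8112, nat_lit 3456, nat_lit 5232, R8_169, R13_72, R4_109⟩, ⟨nat_lit 1, nat_lit 8592, nat_lit 1104, nat_lit 8832, nat_lit 2544, nat_lit 10368, R8_184, R9_53, R5_216⟩]⟩]⟩,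
 ⟨nat_lit 6, [⟨nat_lit 4, [⟨nat_lit 0, nat_lit 5376, nat_lit 624, nat_lit 5712, nat_lit 96, nat_lit 12144, R13_119, R3_2, R6_253⟩, ⟨nat_lit 1, nat_lit 5424, nat_lit 672, nat_lit 5808, nat_lit 192, nat_lit 12960, R13_121, R0_4, R8_270⟩, ⟨nat_lit 3, nat_lit 5472, nat_lit 720, nat_lit 5760, nat_lit 384, nat_lit 12336, R13_120, R10_8, R4_257⟩]⟩, ⟨nat_lit 5, [⟨nat_lit 0, nat_lit 6960, nat_lit 912, nat_lit 3984, nat_lit 2352, nat_lit 8208, R3_83, R3_49, R8_171⟩, ⟨nat_lit 3, nat_lit 7056, nat_lit 1008, nat_lit 4032, nat_lit 2496, nat_lit 14736, R3_84, R10_52, R5_307⟩]⟩, ⟨nat_lit 7, [⟨nat_lit 0, nat_lit 8976, nat_lit 1248, nat_lit 4464, nat_lit 816, nat_lit 6384, R9_93, R3_17, R4_133⟩, ⟨nat_lit 1, nat_lit 9024, nat_lit 1296, nat_lit 4512, nat_lit 1008, nat_lit 10416, R9_94, R0_21, R5_217⟩]⟩]⟩,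
 ⟨nat_lit 7, [⟨nat_lit 7, [⟨nat_lit 0, nat_lit 9504, nat_lit 1152, nat_lit 5040, nat_lit 4656, nat_lit 6864, R5_105, R3_97, R4_143⟩, ⟨nat_lit 1, nat_lit 9552, nat_lit 1200, nat_lit 5088, nat_lit 14592, nat_lit 10464, R5_106, R0_304, R5_218⟩]⟩]⟩]]], [[], [], [], [[⟨nat_lit 3, [⟨nat_lit 0, [⟨nat_lit 2, nat_lit 13728, nat_lit 16128, nat_lit 12192, nat_lit 7824, nat_lit 4896, R4_254, R11_163, R6_102⟩]⟩, ⟨nat_lit 2, [⟨nat_lit 2, nat_lit 13824, nat_lit 17472, nat_lit 14688, nat_lit 8112, nat_lit 5280, R5_306, R11_169, R4_110⟩, ⟨nat_lit 6, nat_lit 13872, nat_lit 10608, nat_lit 14544, nat_lit 6192, nat_lit 5088, R5_303, R1_129, R7_106⟩]⟩]⟩,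
 ⟨nat_lit 4, [⟨nat_lit 3, [⟨nat_lit 3, nat_lit 14208, nat_lit 13728, nat_lit 8304, nat_lit 144, nat_lit 9888, R7_173, R2_3, R4_206⟩]⟩, ⟨nat_lit 7, [⟨nat_lit 3, nat_lit 13008, nat_lit 12480, nat_lit 8304, nat_lit 1968, nat_lit 6624, R4_173, R2_41, R7_138⟩]⟩]⟩,
 ⟨nat_lit 6, [⟨nat_lit 7, [⟨nat_lit 3, nat_lit 13200, nat_lit 12624, nat_lit 4992, nat_lit 1440, nat_lit 6672, R5_104, R1_30, R7_139⟩, ⟨nat_lit 7, nat_lit 13248, nat_lit 4656, nat_lit 5040, nat_lit 1152, nat_lit 6864, R5_105, R11_24, R4_143⟩]⟩]⟩,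
 ⟨nat_lit 7, [⟨nat_lit 0, [⟨nat_lit 2, nat_lit 13488, nat_lit 15888, nat_lit 13344, nat_lit 48, nat_lit 4944, R7_278, R1_1, R6_103⟩]⟩, ⟨nat_lit 3, [⟨nat_lit 0, nat_lit 14640, nat_lit 11712, nat_lit 9456, nat_lit 1248, nat_lit 9168, R14_197, R2_26, R6_191⟩, ⟨nat_lit 2, nat_lit 14688, nat_lit 16848, nat_lit 9504, nat_lit 720, nat_lit 4848, R14_198, R1_15, R8_101⟩, ⟨nat_lit 3, nat_lit 14736, nat_lit 14064, nat_lit 9552, nat_lit 288, nat_lit 9936, R14_199, R12_6, R4_207⟩]⟩]⟩], [⟨nat_lit 3, [⟨nat_lit 0, [⟨nat_lit 2, nat_lit 13776, nat_lit 384, nat_lit 12336, nat_lit 9504, nat_lit 5088, R4_257, R11_198, R13_106⟩]⟩, ⟨nat_lit 2, [⟨nat_lit 2, nat_lit 13920, nat_lit 2496, nat_lit 14736, nat_lit 9840, nat_lit 4032, R5_307, R11_205, R3_84⟩, ⟨nat_lit 6, nat_lit 13968, nat_lit 2256, nat_lit 14592, nat_lit 6672, nat_lit 3504,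 R5_304, R1_139, R2_73⟩]⟩]⟩,
 ⟨nat_lit 4, [⟨nat_lit 3, [⟨nat_lit 3, nat_lit 14400, nat_lit 1392, nat_lit 8352, nat_lit 192, nat_lit 4896, R7_174, R2_4, R5_102⟩]⟩]⟩,
 ⟨nat_lit 7, [⟨nat_lit 0, [⟨nat_lit 0, nat_lit 13632, nat_lit 96, nat_lit 13536, nat_lit 912, nat_lit 4992, R7_282, R2_19, R6_104⟩, ⟨nat_lit 2, nat_lit 13680, nat_lit 432, nat_lit 13632, nat_lit 240, nat_lit 5136, R7_284, R1_5, R13_107⟩]⟩, ⟨nat_lit 3, [⟨nat_lit 0, nat_lit 14880, nat_lit 1008, nat_lit 9600, nat_lit 2448, nat_lit 7104, R14_200, R2_51, R8_148⟩, ⟨nat_lit 2, nat_lit 14928, nat_lit 2064, nat_lit 9648, nat_lit 1920, nat_lit 4080, R14_201, R1_40, R9_85⟩, ⟨nat_lit 3, nat_lit 14976, nat_lit 1440, nat_lit 9696, nat_lit 336, nat_lit 4944, R14_202, R12_7, R5_103⟩]⟩]⟩], [⟨nat_lit 3, [⟨nat_lit 2, [⟨nat_lit 6, nat_lit 14016, nat_lit 4176, nat_lit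 14640, nat_lit 6480, nat_lit 8592, R5_305, R1_135, R2_179⟩]⟩]⟩,
 ⟨nat_lit 6, [⟨nat_lit 7, [⟨nat_lit 7, nat_lit 13296, nat_lit 14592, nat_lit 5088, nat_lit 1200, nat_lit 10464, R5_106, R11_25, R5_218⟩]⟩]⟩]], [], [], [], [[⟨nat_lit 4, [⟨nat_lit 3, [⟨nat_lit 0, nat_lit 14064, nat_lit 1200, nat_lit 9264, nat_lit 1104, nat_lit 7728, R7_193, R13_23, R6_161⟩, ⟨nat_lit 2, nat_lit 14112, nat_lit 2400, nat_lit 10032, nat_lit 1296, nat_lit 4896, R7_209, R3_27, R8_102⟩, ⟨nat_lit 3, nat_lit 14160, nat_lit 1968, nat_lit 10704, nat_lit 12480, nat_lit 8304, R7_223, R3_260, R4_173⟩]⟩, ⟨nat_lit 7, [⟨nat_lit 3, nat_lit 12960, nat_lit 144, nat_lit 9888, nat_lit 13728, nat_lit 7056, R4_206, R3_286, R7_147⟩]⟩]⟩,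
 ⟨nat_lit 6, [⟨nat_lit 7, [⟨nat_lit 3, nat_lit 13152, nat_lit 192, nat_lit 4896, nat_lit 1392, nat_lit 7104, R5_102, R10_29, R7_148⟩]⟩]⟩,
 ⟨nat_lit 7, [⟨nat_lit 0, [⟨nat_lit 2, nat_lit 13440, nat_lit 912, nat_lit 13392, nat_lit 96, nat_lit 4992, R7_279, R10_2, R6_104⟩]⟩, ⟨nat_lit 3, [⟨nat_lit 0, nat_lit 14544, nat_lit 1248, nat_lit 9168, nat_lit 11712, nat_lit 7776, R14_191, R3_244, R6_162⟩, ⟨nat_lit 2, nat_lit 14592, nat_lit 2448, nat_lit 9216, nat_lit 1008, nat_lit 4944, R14_192, R10_21, R8_103⟩]⟩]⟩], [⟨nat_lit 4, [⟨nat_lit 3, [⟨nat_lit 0, nat_lit 14256, nat_lit 672, nat_lit 9360, nat_lit 1200, nat_lit 8160, R7_195, R13_25, R8_170⟩, ⟨nat_lit 2, nat_lit 14304, nat_lit 1872, nat_lit 10128, nat_lit 1392, nat_lit 4128, R7_211, R3_29, R9_86⟩, ⟨nat_lit 3, nat_lit 14352, nat_lit 1440, nat_lit 10752, nat_lit 12624,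 nat_lit 4992, R7_224, R3_263, R5_104⟩]⟩]⟩,
 ⟨nat_lit 7, [⟨nat_lit 0, [⟨nat_lit 0, nat_lit 13536, nat_lit 48, nat_lit 13584, nat_lit 15888, nat_lit 4944, R7_283, R3_331, R6_103⟩, ⟨nat_lit 2, nat_lit 13584, nat_lit 240, nat_lit 13680, nat_lit 432, nat_lit 5184, R7_285, R10_9, R13_108⟩]⟩, ⟨nat_lit 3, [⟨nat_lit 0, nat_lit 14784, nat_lit 720, nat_lit 9264, nat_lit 16848, nat_lit 8496, R14_193, R3_351, R8_177⟩, ⟨nat_lit 2, nat_lit 14832, nat_lit 1920, nat_lit 9312, nat_lit 2064, nat_lit 4176, R14_194, R10_43, R9_87⟩]⟩]⟩], [], [⟨nat_lit 4, [⟨nat_lit 3, [⟨nat_lit 0, nat_lit 14448, nat_lit 192, nat_lit 9312, nat_lit 1152, nat_lit 9360, R7_194, R13_24, R4_195⟩, ⟨nat_lit 2, nat_lit 14496, nat_lit 240, nat_lit 10080, nat_lit 1344, nat_lit 4848, R7_210, R3_28, R5_101⟩]⟩, ⟨nat_lit 7, [⟨nat_lit 0, nat_lit 13056, nat_lit 384,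 nat_lit 9360, nat_lit 3120, nat_lit 9312, R4_195, R13_65, R7_194⟩, ⟨nat_lit 3, nat_lit 13104, nat_lit 432, nat_lit 9936, nat_lit 14064, nat_lit 5136, R4_207, R3_293, R14_107⟩]⟩]⟩,
 ⟨nat_lit 6, [⟨nat_lit 7, [⟨nat_lit 0, nat_lit 13344, nat_lit 480, nat_lit 4848, nat_lit 1344, nat_lit 10080, R5_101, R3_28, R7_210⟩, ⟨nat_lit 3, nat_lit 13392, nat_lit 528, nat_lit 4944, nat_lit 1440, nat_lit 5184, R5_103, R10_30, R14_108⟩]⟩]⟩,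
 ⟨nat_lit 7, [⟨nat_lit 3, [⟨nat_lit 0, nat_lit 15024, nat_lit 288, nat_lit 9360, nat_lit 14064, nat_lit 9936, R14_195, R3_293, R4_207⟩, ⟨nat_lit 2, nat_lit 15072, nat_lit 336, nat_lit 9408, nat_lit 1440, nat_lit 4944, R14_196, R10_30, R5_103⟩]⟩]⟩]]], [[], [], [], [], [[], [⟨nat_lit 4, [⟨nat_lit 1, [⟨nat_lit 0, nat_lit 15600, nat_lit 96, nat_lit 8496, nat_lit 2208, nat_lit 5136, R6_177, R6_46, R4_107⟩, ⟨nat_lit 2, nat_lit 15648, nat_lit 240, nat_lit 8592, nat_lit 2064, nat_lit 3744, R6_179, R4_43, R3_78⟩]⟩]⟩,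
 ⟨nat_lit 5, [⟨nat_lit 0, [⟨nat_lit 0, nat_lit 15120, nat_lit 4752, nat_lit 12000, nat_lit 17568, nat_lit 5040, R6_250, R8_366, R6_105⟩, ⟨nat_lit 2, nat_lit 15168, nat_lit 4944, nat_lit 12096, nat_lit 3264, nat_lit 5520, R6_252, R5_68, R13_115⟩]⟩, ⟨nat_lit 1, [⟨nat_lit 0, nat_lit 16080, nat_lit 5328, nat_lit 10992, nat_lit 17712, nat_lit 5328, R13_229, R8_369, R4_111⟩, ⟨nat_lit 2, nat_lit 16128, nat_lit 5472, nat_lit 11088, nat_lit 3456, nat_lit 3792, R13_231, R5_72, R3_79⟩]⟩]⟩], [], [], [], [⟨nat_lit 4, [⟨nat_lit 1, [⟨nat_lit 0, nat_lit 15312, nat_lit 192, nat_lit 8544, nat_lit 2352, nat_lit 9072, R6_178, R6_49, R7_189⟩, ⟨nat_lit 1, nat_lit 15408, nat_lit 288, nat_lit 8688, nat_lit 3744, nat_lit 8160, R6_181, R8_78, R2_170⟩, ⟨nat_lit 2, nat_lit 15360, nat_lit 432, nat_lit 8640, nat_lit 2208, nat_lit 3264, R6_180,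 R4_46, R2_68⟩]⟩]⟩,
 ⟨nat_lit 5, [⟨nat_lit 1, [⟨nat_lit 0, nat_lit 15696, nat_lit 5136, nat_lit 11040, nat_lit 10992, nat_lit 9168, R13_230, R8_229, R7_191⟩, ⟨nat_lit 1, nat_lit 15792, nat_lit 5232, nat_lit 11184, nat_lit 2832, nat_lit 8256, R13_233, R9_59, R2_172⟩, ⟨nat_lit 2, nat_lit 15744, nat_lit 5376, nat_lit 11136, nat_lit 2592, nat_lit 3552, R13_232, R5_54, R2_74⟩]⟩]⟩]], [[], [⟨nat_lit 5, [⟨nat_lit 0, [⟨nat_lit 0, nat_lit 15216, nat_lit 48, nat_lit 12048, nat_lit 1056, nat_lit 5184, R6_251, R5_22, R6_108⟩, ⟨nat_lit 2, nat_lit 15264, nat_lit 96, nat_lit 12144, nat_lit 3264, nat_lit 5568, R6_253, R11_68, R13_116⟩]⟩, ⟨nat_lit 1, [⟨nat_lit 0, nat_lit 16176, nat_lit 3792, nat_lit 11232, nat_lit 3456, nat_lit 5472, R13_234, R5_72, R4_114⟩, ⟨nat_lit 2, nat_lit 16224, nat_lit 3840, nat_lit 11328, nat_lit 3456,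 nat_lit 3840, R13_236, R11_72, R3_80⟩]⟩]⟩], [], [], [], [⟨nat_lit 5, [⟨nat_lit 1, [⟨nat_lit 0, nat_lit 15840, nat_lit 3552, nat_lit 11280, nat_lit 2592, nat_lit 9600, R13_235, R5_54, R7_200⟩, ⟨nat_lit 1, nat_lit 15936, nat_lit 3648, nat_lit 11424, nat_lit 1296, nat_lit 8640, R13_238, R0_27, R2_180⟩, ⟨nat_lit 2, nat_lit 15888, nat_lit 3792, nat_lit 11376, nat_lit 2592, nat_lit 3792, R13_237, R11_54, R2_79⟩]⟩]⟩]], [], [[], [], [], [], [], [⟨nat_lit 4, [⟨nat_lit 1, [⟨nat_lit 0, nat_lit 15456, nat_lit 1200, nat_lit 8736, nat_lit 1680, nat_lit 9264, R6_182, R13_35, R7_193⟩, ⟨nat_lit 1, nat_lit 15552, nat_lit 1584, nat_lit 8832, nat_lit 816, nat_lit 8448, R6_184, R9_17, R2_176⟩, ⟨nat_lit 2, nat_lit 15504, nat_lit 1776, nat_lit 8784, nat_lit 2064, nat_lit 3360, R6_183, R3_43, R2_70⟩]⟩]⟩,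
 ⟨nat_lit 5, [⟨nat_lit 1, [⟨nat_lit 0, nat_lit 15984, nat_lit 8256, nat_lit 11472, nat_lit 2832, nat_lit 9456, R13_239, R9_59, R7_197⟩]⟩]⟩]]], [[], [[], [⟨nat_lit 1, [⟨nat_lit 0, [⟨nat_lit 2, nat_lit 19200, nat_lit 240, nat_lit 13680, nat_lit 14736, nat_lit 5904, R7_285, R10_307, R13_123⟩]⟩, ⟨nat_lit 1, [⟨nat_lit 2, nat_lit 19584, nat_lit 288, nat_lit 12432, nat_lit 15504, nat_lit 4176, R2_259, R10_323, R3_87⟩]⟩, ⟨nat_lit 2, [⟨nat_lit 2, nat_lit 19680, nat_lit 384, nat_lit 12384, nat_lit 15216, nat_lit 4224, R2_258, R10_317, R3_88⟩, ⟨nat_lit 6, nat_lit 19728, nat_lit 336, nat_lit 12336, nat_lit 13584, nat_lit 3936, R2_257, R1_283, R2_82⟩]⟩]⟩]], [], [], [], [[], [⟨nat_lit 1, [⟨nat_lit 0, [⟨nat_lit 2, nat_lit 19152, nat_lit 14736, nat_lit 13632, nat_lit 240, nat_lit 5952, R7_284, R1_5, R13_124⟩]⟩, ⟨nat_lit 1,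 [⟨nat_lit 2, nat_lit 19536, nat_lit 15216, nat_lit 12384, nat_lit 384, nat_lit 4224, R2_258, R1_8, R3_88⟩]⟩, ⟨nat_lit 2, [⟨nat_lit 2, nat_lit 19632, nat_lit 15504, nat_lit 12432, nat_lit 288, nat_lit 4176, R2_259, R1_6, R3_87⟩]⟩]⟩,
 ⟨nat_lit 5, [⟨nat_lit 0, [⟨nat_lit 0, nat_lit 19056, nat_lit 2976, nat_lit 12288, nat_lit 1152, nat_lit 5280, R4_256, R5_24, R6_110⟩, ⟨nat_lit 2, nat_lit 19104, nat_lit 3168, nat_lit 12336, nat_lit 9504, nat_lit 6000, R4_257, R11_198, R13_125⟩]⟩, ⟨nat_lit 1, [⟨nat_lit 0, nat_lit 19392, nat_lit 3648, nat_lit 8832, nat_lit 3552, nat_lit 5568, R3_184, R5_74, R4_116⟩, ⟨nat_lit 2, nat_lit 19440, nat_lit 3792, nat_lit 8928, nat_lit 9696, nat_lit 4272, R3_186, R11_202, R3_89⟩]⟩]⟩], [], [], [], [⟨nat_lit 1, [⟨nat_lit 1, [⟨nat_lit 2, nat_lit 19488, nat_lit 13584, nat_lit 12336, nat_lit 336,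 nat_lit 3936, R2_257, R1_7, R2_82⟩]⟩]⟩,
 ⟨nat_lit 5, [⟨nat_lit 1, [⟨nat_lit 0, nat_lit 19248, nat_lit 3024, nat_lit 8880, nat_lit 2640, nat_lit 9696, R3_185, R5_55, R7_202⟩, ⟨nat_lit 1, nat_lit 19344, nat_lit 3120, nat_lit 9024, nat_lit 6432, nat_lit 8736, R3_188, R0_134, R2_182⟩, ⟨nat_lit 2, nat_lit 19296, nat_lit 3264, nat_lit 8976, nat_lit 9024, nat_lit 3888, R3_187, R11_188, R2_81⟩]⟩]⟩]]], [[], [], [], [], [[], [], [], [], [⟨nat_lit 4, [⟨nat_lit 5, [⟨nat_lit 0, nat_lit 16272, nat_lit 192, nat_lit 9072, nat_lit 10944, nat_lit 8544, R7_189, R6_228, R6_178⟩, ⟨nat_lit 1, nat_lit 16320, nat_lit 5136, nat_lit 9168, nat_lit 10992, nat_lit 15696, R7_191, R8_229, R13_327⟩]⟩]⟩,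
 ⟨nat_lit 5, [⟨nat_lit 5, [⟨nat_lit 0, nat_lit 16944, nat_lit 288, nat_lit 8160, nat_lit 3744, nat_lit 8688, R2_170, R8_78, R6_181⟩, ⟨nat_lit 1, nat_lit 16992, nat_lit 5232, nat_lit 8256, nat_lit 11712, nat_lit 15984, R2_172, R9_244, R13_333⟩]⟩]⟩,
 ⟨nat_lit 6, [⟨nat_lit 5, [⟨nat_lit 0, nat_lit 17568, nat_lit 432, nat_lit 3264, nat_lit 2208, nat_lit 8640, R2_68, R4_46, R6_180⟩, ⟨nat_lit 1, nat_lit 17616, nat_lit 5376, nat_lit 3552, nat_lit 2592, nat_lit 15840, R2_74, R5_54, R13_330⟩]⟩]⟩], [⟨nat_lit 4, [⟨nat_lit 1, [⟨nat_lit 0, nat_lit 18288, nat_lit 18480, nat_lit 9216, nat_lit 10080, nat_lit 9120, R4_192, R6_210, R7_190⟩, ⟨nat_lit 1, nat_lit 18384, nat_lit 18864, nat_lit 9312, nat_lit 11712, nat_lit 8208, R4_194, R8_244, R2_171⟩, ⟨nat_lit 2, nat_lit 18336, nat_lit 19392, nat_lit 9264, nat_lit 11088, nat_lit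 3312, R4_193, R4_231, R2_69⟩]⟩, ⟨nat_lit 5, [⟨nat_lit 0, nat_lit 16512, nat_lit 18432, nat_lit 9120, nat_lit 11232, nat_lit 9216, R7_190, R6_234, R4_192⟩, ⟨nat_lit 1, nat_lit 16560, nat_lit 18816, nat_lit 9216, nat_lit 11568, nat_lit 11904, R7_192, R8_241, R3_248⟩]⟩]⟩,
 ⟨nat_lit 5, [⟨nat_lit 1, [⟨nat_lit 0, nat_lit 18624, nat_lit 19776, nat_lit 11904, nat_lit 11568, nat_lit 9216, R3_248, R8_241, R7_192⟩, ⟨nat_lit 1, nat_lit 18720, nat_lit 20352, nat_lit 12192, nat_lit 12480, nat_lit 8304, R3_254, R9_260, R2_173⟩, ⟨nat_lit 2, nat_lit 18672, nat_lit 21072, nat_lit 12048, nat_lit 13824, nat_lit 3600, R3_251, R5_288, R2_75⟩]⟩, ⟨nat_lit 5, [⟨nat_lit 0, nat_lit 17136, nat_lit 19728, nat_lit 8208, nat_lit 11712, nat_lit 9312, R2_171, R8_244, R4_194⟩, ⟨nat_lit 1, nat_lit 17184, nat_lit 20304, nat_lit 8304, nat_lit 12336,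 nat_lit 12192, R2_173, R9_257, R3_254⟩]⟩]⟩,
 ⟨nat_lit 6, [⟨nat_lit 5, [⟨nat_lit 0, nat_lit 17808, nat_lit 21600, nat_lit 3312, nat_lit 11088, nat_lit 9264, R2_69, R4_231, R4_193⟩, ⟨nat_lit 1, nat_lit 17856, nat_lit 21936, nat_lit 3600, nat_lit 13824, nat_lit 12048, R2_75, R5_288, R3_251⟩]⟩]⟩]], [[], [], [], [], [], [⟨nat_lit 5, [⟨nat_lit 1, [⟨nat_lit 0, nat_lit 18768, nat_lit 15552, nat_lit 11952, nat_lit 2688, nat_lit 9648, R3_249, R5_56, R7_201⟩, ⟨nat_lit 1, nat_lit 18864, nat_lit 16128, nat_lit 12240, nat_lit 10656, nat_lit 8688, R3_255, R0_222, R2_181⟩, ⟨nat_lit 2, nat_lit 18816, nat_lit 16848, nat_lit 12096, nat_lit 16896, nat_lit 3840, R3_252, R11_352, R2_80⟩]⟩, ⟨nat_lit 5, [⟨nat_lit 0, nat_lit 17232, nat_lit 15504, nat_lit 8352, nat_lit 480, nat_lit 9504, R2_174, R5_10, R4_198⟩, ⟨nat_lit 1, nat_lit 17280,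 nat_lit 16080, nat_lit 8400, nat_lit 10512, nat_lit 12288, R2_175, R0_219, R3_256⟩]⟩]⟩]], [[], [], [], [], [⟨nat_lit 4, [⟨nat_lit 5, [⟨nat_lit 1, nat_lit 16368, nat_lit 3552, nat_lit 9600, nat_lit 2592, nat_lit 15744, R7_200, R5_54, R13_328⟩]⟩]⟩,
 ⟨nat_lit 6, [⟨nat_lit 5, [⟨nat_lit 1, nat_lit 17664, nat_lit 3792, nat_lit 3792, nat_lit 2592, nat_lit 15888, R2_79, R11_54, R13_331⟩]⟩]⟩], [⟨nat_lit 4, [⟨nat_lit 1, [⟨nat_lit 1, nat_lit 18432, nat_lit 15504, nat_lit 9504, nat_lit 480, nat_lit 8352, R4_198, R5_10, R2_174⟩]⟩, ⟨nat_lit 5, [⟨nat_lit 1, nat_lit 16608, nat_lit 15552, nat_lit 9648, nat_lit 2688, nat_lit 11952, R7_201, R5_56, R3_249⟩]⟩]⟩,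
 ⟨nat_lit 5, [⟨nat_lit 1, [⟨nat_lit 1, nat_lit 18912, nat_lit 16080, nat_lit 12288, nat_lit 10512, nat_lit 8400, R3_256, R0_219, R2_175⟩]⟩, ⟨nat_lit 5, [⟨nat_lit 1, nat_lit 17328, nat_lit 16128, nat_lit 8688, nat_lit 10656, nat_lit 12240, R2_181, R0_222, R3_255⟩]⟩]⟩,
 ⟨nat_lit 6, [⟨nat_lit 5, [⟨nat_lit 1, nat_lit 17904, nat_lit 16848, nat_lit 3840, nat_lit 2688, nat_lit 12096, R2_80, R11_56, R3_252⟩]⟩]⟩], [⟨nat_lit 4, [⟨nat_lit 5, [⟨nat_lit 1, nat_lit 16752, nat_lit 3024, nat_lit 9696, nat_lit 2640, nat_lit 8880, R7_202, R5_55, R3_185⟩]⟩]⟩,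
 ⟨nat_lit 6, [⟨nat_lit 5, [⟨nat_lit 1, nat_lit 18048, nat_lit 3264, nat_lit 3888, nat_lit 2640, nat_lit 8976, R2_81, R11_55, R3_187⟩, ⟨nat_lit 5, nat_lit 18096, nat_lit 13584, nat_lit 3936, nat_lit 336, nat_lit 12336, R2_82, R1_7, R2_257⟩]⟩]⟩]], [[], [], [], [], [⟨nat_lit 4, [⟨nat_lit 5, [⟨nat_lit 0, nat_lit 16416, nat_lit 1200, nat_lit 9264, nat_lit 3744, nat_lit 8736, R7_193, R13_78, R6_182⟩, ⟨nat_lit 1, nat_lit 16464, nat_lit 8256, nat_lit 9456, nat_lit 2832, nat_lit 15792, R7_197, R9_59, R13_329⟩]⟩]⟩,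
 ⟨nat_lit 6, [⟨nat_lit 5, [⟨nat_lit 0, nat_lit 17712, nat_lit 1776, nat_lit 3360, nat_lit 2064, nat_lit 8784, R2_70, R3_43, R6_183⟩]⟩]⟩], [⟨nat_lit 4, [⟨nat_lit 1, [⟨nat_lit 0, nat_lit 18480, nat_lit 384, nat_lit 9360, nat_lit 2304, nat_lit 9312, R4_195, R13_48, R7_194⟩, ⟨nat_lit 1, nat_lit 18576, nat_lit 1488, nat_lit 9456, nat_lit 1536, nat_lit 8496, R4_197, R9_32, R2_177⟩, ⟨nat_lit 2, nat_lit 18528, nat_lit 2448, nat_lit 9408, nat_lit 2784, nat_lit 3408, R4_196, R3_58, R2_71⟩]⟩, ⟨nat_lit 5, [⟨nat_lit 0, nat_lit 16656, nat_lit 192, nat_lit 9312, nat_lit 3840, nat_lit 9360, R7_194, R13_80, R4_195⟩, ⟨nat_lit 1, nat_lit 16704, nat_lit 1200, nat_lit 9504, nat_lit 2928, nat_lit 12000, R7_198, R9_61, R3_250⟩]⟩]⟩,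
 ⟨nat_lit 6, [⟨nat_lit 5, [⟨nat_lit 0, nat_lit 17952, nat_lit 10224, nat_lit 3408, nat_lit 2784, nat_lit 9408, R2_71, R3_58, R4_196⟩, ⟨nat_lit 1, nat_lit 18000, nat_lit 10944, nat_lit 3696, nat_lit 1392, nat_lit 12144, R2_77, R0_29, R3_253⟩]⟩]⟩], [], [⟨nat_lit 4, [⟨nat_lit 5, [⟨nat_lit 0, nat_lit 16800, nat_lit 672, nat_lit 9360, nat_lit 3792, nat_lit 8160, R7_195, R13_79, R8_170⟩, ⟨nat_lit 1, nat_lit 16848, nat_lit 9072, nat_lit 9552, nat_lit 2880, nat_lit 13632, R7_199, R9_60, R9_284⟩, ⟨nat_lit 3, nat_lit 16896, nat_lit 6192, nat_lit 9408, nat_lit 10608, nat_lit 14544, R7_196, R3_221, R5_303⟩]⟩]⟩,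
 ⟨nat_lit 6, [⟨nat_lit 5, [⟨nat_lit 0, nat_lit 18144, nat_lit 1248, nat_lit 3456, nat_lit 2304, nat_lit 8256, R2_72, R3_48, R8_172⟩, ⟨nat_lit 3, nat_lit 18240, nat_lit 6672, nat_lit 3504, nat_lit 2256, nat_lit 14592, R2_73, R10_47, R5_304⟩]⟩]⟩]]], [[], [], [], [], [[], [⟨nat_lit 4, [⟨nat_lit 0, [⟨nat_lit 0, nat_lit 19776, nat_lit 912, nat_lit 4416, nat_lit 4656, nat_lit 4800, R6_92, R6_97, R6_100⟩, ⟨nat_lit 2, nat_lit 19824, nat_lit 3264, nat_lit 5424, nat_lit 4944, nat_lit 5616, R6_113, R4_103, R13_117⟩]⟩, ⟨nat_lit 1, [⟨nat_lit 0, nat_lit 20496, nat_lit 1488, nat_lit 8016, nat_lit 6960, nat_lit 5184, R8_167, R6_145, R4_108⟩, ⟨nat_lit 2, nat_lit 20544, nat_lit 3840, nat_lit 8064, nat_lit 7584, nat_lit 3888, R8_168, R4_158, R3_81⟩]⟩, ⟨nat_lit 3, [⟨nat_lit 0, nat_lit 21312, nat_lit 1200, nat_lit 4656, nat_lit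 5808, nat_lit 7536, R4_97, R6_121, R8_157⟩, ⟨nat_lit 2, nat_lit 21360, nat_lit 3600, nat_lit 5760, nat_lit 6144, nat_lit 4368, R4_120, R4_128, R9_91⟩]⟩]⟩,
 ⟨nat_lit 5, [⟨nat_lit 0, [⟨nat_lit 0, nat_lit 19968, nat_lit 9168, nat_lit 12720, nat_lit 18288, nat_lit 5088, R8_265, R8_381, R6_106⟩, ⟨nat_lit 2, nat_lit 20016, nat_lit 11328, nat_lit 12864, nat_lit 11328, nat_lit 5664, R8_268, R5_236, R13_118⟩]⟩, ⟨nat_lit 1, [⟨nat_lit 0, nat_lit 20784, nat_lit 9936, nat_lit 8784, nat_lit 18576, nat_lit 5376, R9_183, R8_387, R4_112⟩, ⟨nat_lit 2, nat_lit 20832, nat_lit 12192, nat_lit 8832, nat_lit 11664, nat_lit 3936, R9_184, R5_243, R3_82⟩]⟩, ⟨nat_lit 3, [⟨nat_lit 0, nat_lit 21552, nat_lit 9552, nat_lit 10176, nat_lit 18432, nat_lit 7872, R5_212, R8_384, R8_164⟩, ⟨nat_lit 2, nat_lit 21600, nat_lit 11808, nat_lit 10224,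 nat_lit 11520, nat_lit 4416, R5_213, R5_240, R9_92⟩]⟩]⟩]], [[], [⟨nat_lit 5, [⟨nat_lit 0, [⟨nat_lit 0, nat_lit 20064, nat_lit 144, nat_lit 12768, nat_lit 1104, nat_lit 5232, R8_266, R5_23, R6_109⟩, ⟨nat_lit 2, nat_lit 20112, nat_lit 192, nat_lit 12912, nat_lit 14304, nat_lit 5856, R8_269, R11_298, R13_122⟩]⟩, ⟨nat_lit 1, [⟨nat_lit 0, nat_lit 20880, nat_lit 240, nat_lit 8880, nat_lit 3504, nat_lit 5520, R9_185, R5_73, R4_115⟩, ⟨nat_lit 2, nat_lit 20928, nat_lit 288, nat_lit 8928, nat_lit 14640, nat_lit 4128, R9_186, R11_305, R3_86⟩]⟩, ⟨nat_lit 3, [⟨nat_lit 0, nat_lit 21648, nat_lit 336, nat_lit 10272, nat_lit 2256, nat_lit 9168, R5_214, R5_47, R8_191⟩, ⟨nat_lit 2, nat_lit 21696, nat_lit 384, nat_lit 10320, nat_lit 14496, nat_lit 4560, R5_215, R11_302, R9_95⟩]⟩]⟩]], [], [[], [⟨nat_lit 4, [⟨nat_lit 0, [⟨nat_lit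 0, nat_lit 19872, nat_lit 480, nat_lit 4848, nat_lit 48, nat_lit 4848, R6_101, R13_1, R6_101⟩, ⟨nat_lit 2, nat_lit 19920, nat_lit 624, nat_lit 6048, nat_lit 96, nat_lit 5712, R6_126, R3_2, R13_119⟩]⟩, ⟨nat_lit 1, [⟨nat_lit 0, nat_lit 20592, nat_lit 768, nat_lit 8112, nat_lit 1968, nat_lit 5232, R8_169, R13_41, R4_109⟩, ⟨nat_lit 2, nat_lit 20640, nat_lit 912, nat_lit 8208, nat_lit 2352, nat_lit 3984, R8_171, R3_49, R3_83⟩]⟩, ⟨nat_lit 3, [⟨nat_lit 0, nat_lit 21408, nat_lit 1056, nat_lit 5232, nat_lit 624, nat_lit 8112, R4_109, R13_13, R8_169⟩, ⟨nat_lit 2, nat_lit 21456, nat_lit 1248, nat_lit 6384, nat_lit 816, nat_lit 4464, R4_133, R3_17, R9_93⟩, ⟨nat_lit 3, nat_lit 21504, nat_lit 1152, nat_lit 6864, nat_lit 4656, nat_lit 5040, R4_143, R3_97, R5_105⟩]⟩]⟩,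
 ⟨nat_lit 5, [⟨nat_lit 0, [⟨nat_lit 0, nat_lit 20160, nat_lit 528, nat_lit 12816, nat_lit 1872, nat_lit 5136, R8_267, R9_39, R6_107⟩, ⟨nat_lit 2, nat_lit 20208, nat_lit 672, nat_lit 12960, nat_lit 192, nat_lit 5808, R8_270, R0_4, R13_121⟩]⟩, ⟨nat_lit 1, [⟨nat_lit 0, nat_lit 20976, nat_lit 816, nat_lit 8976, nat_lit 3504, nat_lit 5424, R9_187, R9_73, R4_113⟩, ⟨nat_lit 2, nat_lit 21024, nat_lit 960, nat_lit 9072, nat_lit 1968, nat_lit 4080, R9_189, R0_41, R3_85⟩]⟩, ⟨nat_lit 3, [⟨nat_lit 0, nat_lit 21744, nat_lit 1104, nat_lit 10368, nat_lit 2544, nat_lit 8832, R5_216, R9_53, R8_184⟩, ⟨nat_lit 2, nat_lit 21792, nat_lit 1296, nat_lit 10416, nat_lit 1008, nat_lit 4512, R5_217, R0_21, R9_94⟩, ⟨nat_lit 3, nat_lit 21840, nat_lit 1200, nat_lit 10464, nat_lit 14592, nat_lit 5088, R5_218, R0_304, R5_106⟩]⟩]⟩,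
 ⟨nat_lit 7, [⟨nat_lit 0, [⟨nat_lit 0, nat_lit 20256, nat_lit 576, nat_lit 12192, nat_lit 16128, nat_lit 4896, R4_254, R3_336, R6_102⟩, ⟨nat_lit 2, nat_lit 20304, nat_lit 720, nat_lit 12336, nat_lit 384, nat_lit 5760, R4_257, R10_8, R13_120⟩]⟩, ⟨nat_lit 1, [⟨nat_lit 0, nat_lit 21216, nat_lit 864, nat_lit 14688, nat_lit 17472, nat_lit 5280, R5_306, R3_364, R4_110⟩, ⟨nat_lit 2, nat_lit 21264, nat_lit 1008, nat_lit 14736, nat_lit 2496, nat_lit 4032, R5_307, R10_52, R3_84⟩]⟩]⟩], [], [], [], [⟨nat_lit 4, [⟨nat_lit 1, [⟨nat_lit 0, nat_lit 20352, nat_lit 672, nat_lit 8160, nat_lit 1920, nat_lit 9360, R8_170, R13_40, R7_195⟩, ⟨nat_lit 1, nat_lit 20448, nat_lit 1056, nat_lit 8304, nat_lit 1104, nat_lit 8544, R8_173, R9_23, R2_178⟩, ⟨nat_lit 2, nat_lit 20400, nat_lit 1248, nat_lit 8256, nat_lit 2304, nat_lit 3456, R8_172,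 R3_48, R2_72⟩]⟩]⟩,
 ⟨nat_lit 5, [⟨nat_lit 1, [⟨nat_lit 0, nat_lit 20688, nat_lit 9072, nat_lit 9024, nat_lit 2880, nat_lit 9552, R9_188, R9_60, R7_199⟩]⟩]⟩,
 ⟨nat_lit 7, [⟨nat_lit 1, [⟨nat_lit 0, nat_lit 21072, nat_lit 6192, nat_lit 14544, nat_lit 10608, nat_lit 9408, R5_303, R3_221, R7_196⟩, ⟨nat_lit 1, nat_lit 21168, nat_lit 6480, nat_lit 14640, nat_lit 4176, nat_lit 8592, R5_305, R0_87, R2_179⟩, ⟨nat_lit 2, nat_lit 21120, nat_lit 6672, nat_lit 14592, nat_lit 2256, nat_lit 3504, R5_304, R10_47, R2_73⟩]⟩]⟩]]]]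
noncomputable def N2100 : T3 (List N0) := [[[[⟨nat_lit 4, [⟨nat_lit 4, [⟨nat_lit 7, nat_lit 15120, nat_lit 11712, nat_lit 11712, nat_lit 14496, nat_lit 4512, R6_244, R6_302, R6_94⟩]⟩, ⟨nat_lit 7, [⟨nat_lit 7, nat_lit 15264, nat_lit 12000, nat_lit 10416, nat_lit 14544, nat_lit 4752, R13_217, R6_303, R4_99⟩]⟩]⟩,
 ⟨nat_lit 6, [⟨nat_lit 4, [⟨nat_lit 7, nat_lit 15696, nat_lit 14832, nat_lit 12288, nat_lit 15408, nat_lit 4560, R8_256, R8_321, R6_95⟩]⟩, ⟨nat_lit 6, [⟨nat_lit 4, nat_lit 12144, nat_lit 16416, nat_lit 7920, nat_lit 14688, nat_lit 8352, R5_165, R6_306, R6_174⟩, ⟨nat_lit 6, nat_lit 14064, nat_lit 17088, nat_lit 8016, nat_lit 14256, nat_lit 8976, R5_167, R4_297, R4_187⟩, ⟨nat_lit 7, nat_lit 15840, nat_lit 16752, nat_lit 7968, nat_lit 15504, nat_lit 4560, R5_166, R8_323, R8_95⟩]⟩, ⟨nat_lit 7, [⟨nat_lit 7,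 nat_lit 15984, nat_lit 15456, nat_lit 7968, nat_lit 15456, nat_lit 4848, R9_166, R8_322, R4_101⟩]⟩]⟩,
 ⟨nat_lit 7, [⟨nat_lit 3, [⟨nat_lit 3, nat_lit 10560, nat_lit 12336, nat_lit 7440, nat_lit 15744, nat_lit 8784, R2_155, R7_328, R4_183⟩]⟩, ⟨nat_lit 7, [⟨nat_lit 3, nat_lit 10416, nat_lit 13008, nat_lit 11040, nat_lit 15696, nat_lit 4752, R3_230, R7_327, R7_99⟩, ⟨nat_lit 7, nat_lit 16464, nat_lit 13344, nat_lit 11376, nat_lit 14160, nat_lit 4800, R3_237, R4_295, R4_100⟩]⟩]⟩], [⟨nat_lit 7, [⟨nat_lit 3, [⟨nat_lit 3, nat_lit 10656, nat_lit 12576, nat_lit 7680, nat_lit 16464, nat_lit 6000, R2_160, R7_343, R5_125⟩]⟩]⟩], [⟨nat_lit 4, [⟨nat_lit 4, [⟨nat_lit 7, nat_lit 15408, nat_lit 12288, nat_lit 14832, nat_lit 14832, nat_lit 15408, R6_309, R6_309, R8_321⟩]⟩, ⟨nat_lit 7, [⟨nat_lit 7, nat_lit 15552, nat_lit 12432, nat_lit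 10704, nat_lit 14880, nat_lit 9168, R13_223, R6_310, R5_191⟩]⟩]⟩,
 ⟨nat_lit 6, [⟨nat_lit 4, [⟨nat_lit 4, nat_lit 12288, nat_lit 15408, nat_lit 15408, nat_lit 14832, nat_lit 14832, R8_321, R6_309, R6_309⟩, ⟨nat_lit 7, nat_lit 16080, nat_lit 16080, nat_lit 16080, nat_lit 16080, nat_lit 16080, R8_335, R8_335, R8_335⟩]⟩, ⟨nat_lit 6, [⟨nat_lit 4, nat_lit 12432, nat_lit 15552, nat_lit 9168, nat_lit 14880, nat_lit 10704, R5_191, R6_310, R13_223⟩, ⟨nat_lit 6, nat_lit 14208, nat_lit 16608, nat_lit 9264, nat_lit 14400, nat_lit 16368, R5_193, R4_300, R3_341⟩, ⟨nat_lit 7, nat_lit 16224, nat_lit 16368, nat_lit 9216, nat_lit 16176, nat_lit 8400, R5_192, R8_337, R9_175⟩]⟩, ⟨nat_lit 7, [⟨nat_lit 7, nat_lit 16368, nat_lit 16224, nat_lit 8400, nat_lit 16128, nat_lit 9216, R9_175, R8_336, R5_192⟩]⟩]⟩,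
 ⟨nat_lit 7, [⟨nat_lit 7, [⟨nat_lit 7, nat_lit 16608, nat_lit 14208, nat_lit 16368, nat_lit 14400, nat_lit 9264, R3_341, R4_300, R5_193⟩]⟩]⟩]], [], [[], [], [⟨nat_lit 4, [⟨nat_lit 4, [⟨nat_lit 4, nat_lit 12576, nat_lit 7920, nat_lit 16416, nat_lit 8352, nat_lit 14688, R6_342, R6_174, R6_306⟩, ⟨nat_lit 5, nat_lit 13488, nat_lit 8016, nat_lit 17088, nat_lit 8976, nat_lit 14256, R6_356, R4_187, R4_297⟩, ⟨nat_lit 7, nat_lit 16752, nat_lit 7968, nat_lit 16752, nat_lit 4560, nat_lit 15504, R6_349, R8_95, R8_323⟩]⟩, ⟨nat_lit 7, [⟨nat_lit 7, nat_lit 16896, nat_lit 10176, nat_lit 12624, nat_lit 4992, nat_lit 9552, R13_263, R8_104, R5_199⟩]⟩]⟩,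
 ⟨nat_lit 6, [⟨nat_lit 4, [⟨nat_lit 4, nat_lit 12720, nat_lit 9168, nat_lit 15552, nat_lit 19968, nat_lit 14880, R8_324, R13_416, R6_310⟩, ⟨nat_lit 5, nat_lit 13776, nat_lit 9264, nat_lit 16608, nat_lit 16368, nat_lit 14400, R8_346, R3_341, R4_300⟩, ⟨nat_lit 7, nat_lit 17040, nat_lit 9216, nat_lit 16368, nat_lit 16272, nat_lit 16176, R8_341, R9_339, R8_337⟩]⟩, ⟨nat_lit 6, [⟨nat_lit 4, nat_lit 12864, nat_lit 11328, nat_lit 11328, nat_lit 20016, nat_lit 10848, R5_236, R13_417, R13_226⟩, ⟨nat_lit 5, nat_lit 13920, nat_lit 11424, nat_lit 11472, nat_lit 16416, nat_lit 8688, R5_239, R3_342, R3_181⟩, ⟨nat_lit 6, nat_lit 14592, nat_lit 11472, nat_lit 11424, nat_lit 8688, nat_lit 16416, R5_238, R3_181, R3_342⟩, ⟨nat_lit 7, nat_lit 17184, nat_lit 11376, nat_lit 11376, nat_lit 16320, nat_lit 8544, R5_237, R9_340, R9_178⟩]⟩,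 ⟨nat_lit 7, [⟨nat_lit 7, nat_lit 17328, nat_lit 11040, nat_lit 9888, nat_lit 16368, nat_lit 9600, R9_206, R9_341, R5_200⟩]⟩]⟩,
 ⟨nat_lit 7, [⟨nat_lit 7, [⟨nat_lit 7, nat_lit 17424, nat_lit 10656, nat_lit 17664, nat_lit 16944, nat_lit 9648, R3_368, R5_353, R5_201⟩]⟩]⟩]], [[⟨nat_lit 4, [⟨nat_lit 4, [⟨nat_lit 7, nat_lit 17568, nat_lit 10416, nat_lit 12000, nat_lit 4752, nat_lit 5040, R6_250, R4_99, R6_105⟩]⟩, ⟨nat_lit 7, [⟨nat_lit 3, nat_lit 10992, nat_lit 11040, nat_lit 11040, nat_lit 5136, nat_lit 5136, R13_230, R7_107, R7_107⟩, ⟨nat_lit 7, nat_lit 17712, nat_lit 10992, nat_lit 10992, nat_lit 5328, nat_lit 5328, R13_229, R4_111, R4_111⟩]⟩]⟩,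
 ⟨nat_lit 6, [⟨nat_lit 4, [⟨nat_lit 7, nat_lit 18288, nat_lit 10704, nat_lit 12432, nat_lit 9168, nat_lit 5088, R8_259, R5_191, R6_106⟩]⟩, ⟨nat_lit 6, [⟨nat_lit 7, nat_lit 18432, nat_lit 12624, nat_lit 10176, nat_lit 9552, nat_lit 4992, R5_212, R5_199, R8_104⟩]⟩, ⟨nat_lit 7, [⟨nat_lit 7, nat_lit 18576, nat_lit 12240, nat_lit 8784, nat_lit 9936, nat_lit 5376, R9_183, R5_207, R4_112⟩]⟩]⟩,
 ⟨nat_lit 7, [⟨nat_lit 3, [⟨nat_lit 0, nat_lit 3744, nat_lit 9792, nat_lit 8160, nat_lit 288, nat_lit 8688, R2_170, R7_6, R6_181⟩, ⟨nat_lit 3, nat_lit 11712, nat_lit 9840, nat_lit 8208, nat_lit 19728, nat_lit 9312, R2_171, R14_411, R4_194⟩]⟩, ⟨nat_lit 7, [⟨nat_lit 3, nat_lit 11568, nat_lit 11808, nat_lit 11904, nat_lit 19776, nat_lit 5184, R3_248, R14_412, R7_108⟩]⟩]⟩], [⟨nat_lit 7, [⟨nat_lit 3, [⟨nat_lit 0, nat_lit 3888, nat_lit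 7632, nat_lit 8784, nat_lit 2352, nat_lit 1344, R2_183, R7_49, R8_28⟩, ⟨nat_lit 3, nat_lit 11856, nat_lit 7680, nat_lit 8832, nat_lit 19872, nat_lit 6048, R2_184, R14_414, R5_126⟩]⟩]⟩], [⟨nat_lit 4, [⟨nat_lit 4, [⟨nat_lit 7, nat_lit 17904, nat_lit 7968, nat_lit 15456, nat_lit 4848, nat_lit 15456, R6_322, R4_101, R8_322⟩]⟩, ⟨nat_lit 7, [⟨nat_lit 7, nat_lit 18000, nat_lit 8784, nat_lit 12240, nat_lit 5376, nat_lit 9936, R13_255, R4_112, R5_207⟩]⟩]⟩,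
 ⟨nat_lit 6, [⟨nat_lit 4, [⟨nat_lit 7, nat_lit 18720, nat_lit 8400, nat_lit 16224, nat_lit 9216, nat_lit 16128, R8_338, R5_192, R8_336⟩]⟩, ⟨nat_lit 6, [⟨nat_lit 7, nat_lit 18816, nat_lit 9888, nat_lit 11040, nat_lit 9600, nat_lit 8688, R5_230, R5_200, R9_181⟩]⟩, ⟨nat_lit 7, [⟨nat_lit 7, nat_lit 18912, nat_lit 9504, nat_lit 9504, nat_lit 9984, nat_lit 9984, R9_198, R5_208, R5_208⟩]⟩]⟩], [⟨nat_lit 4, [⟨nat_lit 4, [⟨nat_lit 3, nat_lit 11280, nat_lit 11040, nat_lit 13008, nat_lit 4752, nat_lit 15696, R6_271, R7_99, R7_327⟩, ⟨nat_lit 7, nat_lit 18144, nat_lit 11376, nat_lit 13344, nat_lit 4800, nat_lit 14160, R6_278, R4_100, R4_295⟩]⟩, ⟨nat_lit 7, [⟨nat_lit 3, nat_lit 11424, nat_lit 11904, nat_lit 11808, nat_lit 5184, nat_lit 6048, R13_246, R7_108, R14_126⟩]⟩]⟩,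
 ⟨nat_lit 6, [⟨nat_lit 4, [⟨nat_lit 7, nat_lit 19008, nat_lit 16368, nat_lit 14208, nat_lit 9264, nat_lit 14400, R8_296, R5_193, R4_300⟩]⟩, ⟨nat_lit 6, [⟨nat_lit 7, nat_lit 19152, nat_lit 17664, nat_lit 10656, nat_lit 9648, nat_lit 16944, R5_222, R5_201, R5_353⟩]⟩]⟩,
 ⟨nat_lit 7, [⟨nat_lit 7, [⟨nat_lit 0, nat_lit 4032, nat_lit 14352, nat_lit 14352, nat_lit 1392, nat_lit 1824, R3_299, R7_29, R7_38⟩, ⟨nat_lit 3, nat_lit 12000, nat_lit 14592, nat_lit 14592, nat_lit 19824, nat_lit 6096, R3_304, R14_413, R14_127⟩]⟩]⟩]]], [[[⟨nat_lit 0, [⟨nat_lit 0, [⟨nat_lit 2, nat_lit 7440, nat_lit 15168, nat_lit 4608, nat_lit 15264, nat_lit 6816, R4_96, R6_318, R6_142⟩]⟩, ⟨nat_lit 2, [⟨nat_lit 2, nat_lit 7488, nat_lit 15312, nat_lit 288, nat_lit 15312, nat_lit 7392, R3_6, R6_319, R4_154⟩]⟩]⟩,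
 ⟨nat_lit 2, [⟨nat_lit 2, [⟨nat_lit 2, nat_lit 7632, nat_lit 16512, nat_lit 8736, nat_lit 14640, nat_lit 7440, R10_182, R4_305, R4_155⟩, ⟨nat_lit 6, nat_lit 14400, nat_lit 10464, nat_lit 8784, nat_lit 16752, nat_lit 7584, R10_183, R7_349, R7_158⟩]⟩, ⟨nat_lit 6, [⟨nat_lit 6, nat_lit 14352, nat_lit 10608, nat_lit 7968, nat_lit 16800, nat_lit 9120, R1_166, R7_350, R4_190⟩]⟩]⟩,
 ⟨nat_lit 3, [⟨nat_lit 0, [⟨nat_lit 2, nat_lit 7728, nat_lit 15744, nat_lit 7968, nat_lit 16752, nat_lit 6864, R5_166, R8_349, R6_143⟩]⟩, ⟨nat_lit 2, [⟨nat_lit 2, nat_lit 7776, nat_lit 16032, nat_lit 7200, nat_lit 16800, nat_lit 7488, R0_150, R8_350, R4_156⟩]⟩, ⟨nat_lit 3, [⟨nat_lit 0, nat_lit 3120, nat_lit 12192, nat_lit 10368, nat_lit 14736, nat_lit 8448, R11_216, R6_307, R6_176⟩, ⟨nat_lit 2, nat_lit 7824, nat_lit 15888, nat_lit 10416,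 nat_lit 16848, nat_lit 6288, R11_217, R8_351, R8_131⟩, ⟨nat_lit 3, nat_lit 10752, nat_lit 14112, nat_lit 10464, nat_lit 14304, nat_lit 9072, R11_218, R4_298, R4_189⟩]⟩]⟩,
 ⟨nat_lit 4, [⟨nat_lit 4, [⟨nat_lit 7, nat_lit 15168, nat_lit 7440, nat_lit 4608, nat_lit 15264, nat_lit 6816, R4_96, R6_318, R6_142⟩]⟩, ⟨nat_lit 7, [⟨nat_lit 7, nat_lit 15312, nat_lit 7488, nat_lit 288, nat_lit 15312, nat_lit 7392, R3_6, R6_319, R4_154⟩]⟩]⟩,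
 ⟨nat_lit 6, [⟨nat_lit 4, [⟨nat_lit 7, nat_lit 15744, nat_lit 7728, nat_lit 7968, nat_lit 16752, nat_lit 6864, R5_166, R8_349, R6_143⟩]⟩, ⟨nat_lit 6, [⟨nat_lit 4, nat_lit 12192, nat_lit 3120, nat_lit 10368, nat_lit 14736, nat_lit 8448, R11_216, R6_307, R6_176⟩, ⟨nat_lit 6, nat_lit 14112, nat_lit 10752, nat_lit 10464, nat_lit 14304, nat_lit 9072, R11_218, R4_298, R4_189⟩, ⟨nat_lit 7, nat_lit 15888, nat_lit 7824, nat_lit 10416, nat_lit 16848, nat_lit 6288, R11_217, R8_351, R8_131⟩]⟩, ⟨nat_lit 7, [⟨nat_lit 7, nat_lit 16032, nat_lit 7776, nat_lit 7200, nat_lit 16800, nat_lit 7488, R0_150, R8_350, R4_156⟩]⟩]⟩,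
 ⟨nat_lit 7, [⟨nat_lit 3, [⟨nat_lit 3, nat_lit 10608, nat_lit 14352, nat_lit 7968, nat_lit 16800, nat_lit 9120, R1_166, R7_350, R4_190⟩]⟩, ⟨nat_lit 7, [⟨nat_lit 3, nat_lit 10464, nat_lit 14400, nat_lit 8784, nat_lit 16752, nat_lit 7584, R10_183, R7_349, R7_158⟩, ⟨nat_lit 7, nat_lit 16512, nat_lit 7632, nat_lit 8736, nat_lit 14640, nat_lit 7440, R10_182, R4_305, R4_155⟩]⟩]⟩], [⟨nat_lit 0, [⟨nat_lit 0, [⟨nat_lit 2, nat_lit 7536, nat_lit 1200, nat_lit 4656, nat_lit 15360, nat_lit 8400, R4_97, R6_320, R13_175⟩]⟩, ⟨nat_lit 2, [⟨nat_lit 2, nat_lit 7584, nat_lit 1344, nat_lit 384, nat_lit 15408, nat_lit 2256, R3_8, R6_321, R3_47⟩]⟩]⟩,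
 ⟨nat_lit 2, [⟨nat_lit 2, [⟨nat_lit 2, nat_lit 7680, nat_lit 13248, nat_lit 8832, nat_lit 14688, nat_lit 2400, R10_184, R4_306, R3_50⟩, ⟨nat_lit 6, nat_lit 14544, nat_lit 12960, nat_lit 8880, nat_lit 16944, nat_lit 6384, R10_185, R7_353, R2_133⟩]⟩]⟩,
 ⟨nat_lit 3, [⟨nat_lit 0, [⟨nat_lit 0, nat_lit 3168, nat_lit 8208, nat_lit 1776, nat_lit 16512, nat_lit 2832, R5_37, R6_344, R6_59⟩, ⟨nat_lit 2, nat_lit 7872, nat_lit 9552, nat_lit 10176, nat_lit 16896, nat_lit 8448, R5_212, R8_352, R13_176⟩]⟩, ⟨nat_lit 2, [⟨nat_lit 2, nat_lit 7920, nat_lit 9792, nat_lit 7248, nat_lit 16944, nat_lit 2544, R0_151, R8_353, R3_53⟩]⟩, ⟨nat_lit 3, [⟨nat_lit 0, nat_lit 3216, nat_lit 8352, nat_lit 10512, nat_lit 16560, nat_lit 576, R11_219, R6_345, R8_12⟩, ⟨nat_lit 2, nat_lit 7968, nat_lit 9696, nat_lit 10560, nat_lit 16992, nat_lit 6096,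 R11_220, R8_354, R9_127⟩, ⟨nat_lit 3, nat_lit 10800, nat_lit 8928, nat_lit 10608, nat_lit 15216, nat_lit 6288, R11_221, R4_317, R5_131⟩]⟩]⟩,
 ⟨nat_lit 7, [⟨nat_lit 3, [⟨nat_lit 3, nat_lit 10704, nat_lit 16320, nat_lit 8208, nat_lit 17088, nat_lit 6336, R1_171, R7_356, R5_132⟩]⟩]⟩], [⟨nat_lit 2, [⟨nat_lit 2, [⟨nat_lit 6, nat_lit 14496, nat_lit 11184, nat_lit 8928, nat_lit 16848, nat_lit 8016, R10_186, R7_351, R2_167⟩]⟩, ⟨nat_lit 6, [⟨nat_lit 6, nat_lit 14448, nat_lit 11040, nat_lit 8016, nat_lit 16896, nat_lit 16224, R1_167, R7_352, R3_338⟩]⟩]⟩,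
 ⟨nat_lit 4, [⟨nat_lit 4, [⟨nat_lit 7, nat_lit 15456, nat_lit 13104, nat_lit 4848, nat_lit 15456, nat_lit 17904, R4_101, R6_322, R8_373⟩]⟩, ⟨nat_lit 7, [⟨nat_lit 7, nat_lit 15600, nat_lit 13248, nat_lit 336, nat_lit 15504, nat_lit 9408, R3_7, R6_323, R5_196⟩]⟩]⟩,
 ⟨nat_lit 6, [⟨nat_lit 4, [⟨nat_lit 4, nat_lit 12336, nat_lit 15984, nat_lit 960, nat_lit 14928, nat_lit 15024, R5_20, R6_311, R6_313⟩, ⟨nat_lit 7, nat_lit 16128, nat_lit 16272, nat_lit 9216, nat_lit 17040, nat_lit 18720, R5_192, R8_355, R8_390⟩]⟩, ⟨nat_lit 6, [⟨nat_lit 4, nat_lit 12480, nat_lit 16128, nat_lit 11616, nat_lit 14976, nat_lit 10800, R11_242, R6_312, R13_225⟩, ⟨nat_lit 6, nat_lit 14256, nat_lit 16656, nat_lit 11712, nat_lit 14448, nat_lit 16560, R11_244, R4_301, R3_345⟩, ⟨nat_lit 7, nat_lit 16272, nat_lit 16560, nat_lit 11664, nat_lit 17136,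 nat_lit 8496, R11_243, R8_357, R9_177⟩]⟩, ⟨nat_lit 7, [⟨nat_lit 7, nat_lit 16416, nat_lit 16416, nat_lit 7632, nat_lit 17088, nat_lit 9456, R0_159, R8_356, R5_197⟩]⟩]⟩,
 ⟨nat_lit 7, [⟨nat_lit 7, [⟨nat_lit 7, nat_lit 16656, nat_lit 15360, nat_lit 9456, nat_lit 14736, nat_lit 9504, R10_197, R4_307, R5_198⟩]⟩]⟩]], [[⟨nat_lit 0, [⟨nat_lit 0, [⟨nat_lit 2, nat_lit 8016, nat_lit 1488, nat_lit 5184, nat_lit 20496, nat_lit 6960, R4_108, R13_427, R6_145⟩]⟩, ⟨nat_lit 2, [⟨nat_lit 2, nat_lit 8064, nat_lit 3840, nat_lit 3888, nat_lit 20544, nat_lit 7584, R3_81, R13_428, R4_158⟩]⟩]⟩,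
 ⟨nat_lit 2, [⟨nat_lit 2, [⟨nat_lit 2, nat_lit 8352, nat_lit 3936, nat_lit 8976, nat_lit 3264, nat_lit 7632, R10_187, R3_68, R4_159⟩, ⟨nat_lit 6, nat_lit 14880, nat_lit 2928, nat_lit 9024, nat_lit 14976, nat_lit 7632, R10_188, R2_312, R7_159⟩]⟩, ⟨nat_lit 6, [⟨nat_lit 6, nat_lit 14832, nat_lit 528, nat_lit 8064, nat_lit 15024, nat_lit 9168, R1_168, R2_313, R4_191⟩]⟩]⟩,
 ⟨nat_lit 3, [⟨nat_lit 0, [⟨nat_lit 2, nat_lit 8688, nat_lit 1536, nat_lit 8544, nat_lit 16848, nat_lit 7008, R5_178, R9_351, R6_146⟩]⟩, ⟨nat_lit 2, [⟨nat_lit 2, nat_lit 8736, nat_lit 3888, nat_lit 7296, nat_lit 16896, nat_lit 7680, R0_152, R9_352, R4_160⟩]⟩, ⟨nat_lit 3, [⟨nat_lit 0, nat_lit 3552, nat_lit 1872, nat_lit 10656, nat_lit 288, nat_lit 9696, R11_222, R8_6, R6_202⟩, ⟨nat_lit 2, nat_lit 8784, nat_lit 2400, nat_lit 10704, nat_lit 16944,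 nat_lit 6384, R11_223, R9_353, R8_133⟩, ⟨nat_lit 3, nat_lit 10848, nat_lit 2064, nat_lit 10752, nat_lit 17184, nat_lit 10656, R11_224, R5_358, R4_222⟩]⟩]⟩], [⟨nat_lit 0, [⟨nat_lit 0, [⟨nat_lit 0, nat_lit 3264, nat_lit 288, nat_lit 0, nat_lit 3792, nat_lit 2784, R4_0, R6_79, R6_58⟩, ⟨nat_lit 2, nat_lit 8112, nat_lit 1056, nat_lit 5232, nat_lit 20592, nat_lit 8544, R4_109, R13_429, R13_178⟩]⟩, ⟨nat_lit 2, [⟨nat_lit 2, nat_lit 8208, nat_lit 3840, nat_lit 3984, nat_lit 20640, nat_lit 2352, R3_83, R13_430, R3_49⟩]⟩]⟩,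
 ⟨nat_lit 2, [⟨nat_lit 2, [⟨nat_lit 2, nat_lit 8400, nat_lit 3936, nat_lit 9072, nat_lit 3312, nat_lit 2496, R10_189, R3_69, R3_52⟩, ⟨nat_lit 6, nat_lit 15024, nat_lit 2928, nat_lit 9120, nat_lit 15168, nat_lit 6432, R10_190, R2_316, R2_134⟩]⟩]⟩,
 ⟨nat_lit 3, [⟨nat_lit 0, [⟨nat_lit 0, nat_lit 3600, nat_lit 336, nat_lit 1872, nat_lit 1536, nat_lit 2928, R5_39, R8_32, R6_61⟩, ⟨nat_lit 2, nat_lit 8832, nat_lit 1104, nat_lit 10368, nat_lit 16992, nat_lit 8592, R5_216, R9_354, R13_179⟩]⟩, ⟨nat_lit 2, [⟨nat_lit 2, nat_lit 8880, nat_lit 3888, nat_lit 7344, nat_lit 17040, nat_lit 2640, R0_153, R9_355, R3_55⟩]⟩, ⟨nat_lit 3, [⟨nat_lit 0, nat_lit 3648, nat_lit 1872, nat_lit 10800, nat_lit 2208, nat_lit 2544, R11_225, R8_46, R8_53⟩, ⟨nat_lit 2, nat_lit 8928, nat_lit 2400, nat_lit 10848, nat_lit 17088, nat_lit 6192, R11_226,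 R9_356, R9_129⟩, ⟨nat_lit 3, nat_lit 10896, nat_lit 2064, nat_lit 10896, nat_lit 17232, nat_lit 6432, R11_227, R5_359, R5_134⟩]⟩]⟩], [⟨nat_lit 2, [⟨nat_lit 2, [⟨nat_lit 6, nat_lit 14976, nat_lit 9696, nat_lit 9168, nat_lit 15072, nat_lit 8112, R10_191, R2_314, R2_169⟩]⟩, ⟨nat_lit 6, [⟨nat_lit 6, nat_lit 14928, nat_lit 9552, nat_lit 8112, nat_lit 15120, nat_lit 16320, R1_169, R2_315, R3_340⟩]⟩]⟩]], [[], [], [⟨nat_lit 2, [⟨nat_lit 6, [⟨nat_lit 6, nat_lit 14736, nat_lit 9504, nat_lit 8160, nat_lit 14640, nat_lit 16272, R1_170, R2_305, R3_339⟩]⟩]⟩,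
 ⟨nat_lit 4, [⟨nat_lit 4, [⟨nat_lit 4, nat_lit 12624, nat_lit 0, nat_lit 1968, nat_lit 8400, nat_lit 14784, R4_41, R6_175, R6_308⟩, ⟨nat_lit 5, nat_lit 13536, nat_lit 5568, nat_lit 10896, nat_lit 9024, nat_lit 14352, R4_227, R4_188, R4_299⟩, ⟨nat_lit 7, nat_lit 16800, nat_lit 7200, nat_lit 7488, nat_lit 5328, nat_lit 17952, R4_156, R8_111, R8_374⟩]⟩, ⟨nat_lit 7, [⟨nat_lit 7, nat_lit 16944, nat_lit 7248, nat_lit 2544, nat_lit 5856, nat_lit 9792, R3_53, R8_122, R5_204⟩]⟩]⟩,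
 ⟨nat_lit 6, [⟨nat_lit 4, [⟨nat_lit 4, nat_lit 12768, nat_lit 144, nat_lit 1104, nat_lit 20064, nat_lit 15072, R5_23, R13_418, R6_314⟩, ⟨nat_lit 5, nat_lit 13824, nat_lit 5664, nat_lit 13152, nat_lit 16464, nat_lit 14496, R5_274, R3_343, R4_302⟩, ⟨nat_lit 7, nat_lit 17088, nat_lit 7632, nat_lit 9456, nat_lit 16416, nat_lit 18768, R5_197, R9_342, R8_391⟩]⟩, ⟨nat_lit 6, [⟨nat_lit 4, nat_lit 12912, nat_lit 192, nat_lit 14304, nat_lit 20112, nat_lit 10944, R11_298, R13_419, R13_228⟩, ⟨nat_lit 5, nat_lit 13968, nat_lit 5712, nat_lit 14448, nat_lit 16512, nat_lit 8784, R11_301, R3_344, R3_183⟩, ⟨nat_lit 6, nat_lit 14640, nat_lit 9888, nat_lit 14400, nat_lit 8736, nat_lit 16608, R11_300, R3_182, R3_346⟩, ⟨nat_lit 7, nat_lit 17232, nat_lit 7728, nat_lit 14352, nat_lit 16464, nat_lit 8640, R11_299, R9_343, R9_180⟩]⟩,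 ⟨nat_lit 7, [⟨nat_lit 7, nat_lit 17376, nat_lit 7680, nat_lit 9024, nat_lit 16512, nat_lit 9840, R0_188, R9_344, R5_205⟩]⟩]⟩,
 ⟨nat_lit 7, [⟨nat_lit 7, [⟨nat_lit 7, nat_lit 17472, nat_lit 7488, nat_lit 11808, nat_lit 16992, nat_lit 9888, R10_246, R5_354, R5_206⟩]⟩]⟩]], [[⟨nat_lit 3, [⟨nat_lit 0, [⟨nat_lit 2, nat_lit 9024, nat_lit 2016, nat_lit 8256, nat_lit 2208, nat_lit 6912, R5_172, R5_46, R6_144⟩]⟩, ⟨nat_lit 2, [⟨nat_lit 2, nat_lit 9072, nat_lit 3552, nat_lit 7392, nat_lit 2304, nat_lit 7536, R0_154, R5_48, R4_157⟩]⟩, ⟨nat_lit 3, [⟨nat_lit 0, nat_lit 4272, nat_lit 2208, nat_lit 10944, nat_lit 192, nat_lit 9456, R11_228, R4_4, R6_197⟩, ⟨nat_lit 2, nat_lit 9120, nat_lit 2688, nat_lit 10992, nat_lit 2400, nat_lit 6336, R11_229, R5_50, R8_132⟩]⟩]⟩,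
 ⟨nat_lit 4, [⟨nat_lit 4, [⟨nat_lit 7, nat_lit 17616, nat_lit 0, nat_lit 5712, nat_lit 6048, nat_lit 7056, R4_119, R4_126, R6_147⟩]⟩, ⟨nat_lit 7, [⟨nat_lit 3, nat_lit 11040, nat_lit 480, nat_lit 1680, nat_lit 6240, nat_lit 7680, R3_35, R7_130, R7_160⟩, ⟨nat_lit 7, nat_lit 17760, nat_lit 240, nat_lit 1008, nat_lit 6624, nat_lit 7728, R3_21, R4_138, R4_161⟩]⟩]⟩,
 ⟨nat_lit 6, [⟨nat_lit 4, [⟨nat_lit 7, nat_lit 18336, nat_lit 48, nat_lit 8112, nat_lit 9312, nat_lit 7104, R5_169, R5_194, R6_148⟩]⟩, ⟨nat_lit 6, [⟨nat_lit 7, nat_lit 18480, nat_lit 1152, nat_lit 13440, nat_lit 9696, nat_lit 6672, R11_280, R5_202, R8_139⟩]⟩, ⟨nat_lit 7, [⟨nat_lit 7, nat_lit 18624, nat_lit 288, nat_lit 8304, nat_lit 10032, nat_lit 7776, R0_173, R5_209, R4_162⟩]⟩]⟩,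
 ⟨nat_lit 7, [⟨nat_lit 3, [⟨nat_lit 0, nat_lit 3792, nat_lit 2256, nat_lit 8976, nat_lit 384, nat_lit 9504, R1_187, R7_8, R6_198⟩, ⟨nat_lit 3, nat_lit 11760, nat_lit 2352, nat_lit 9024, nat_lit 19920, nat_lit 10416, R1_188, R14_415, R4_217⟩]⟩, ⟨nat_lit 7, [⟨nat_lit 3, nat_lit 11616, nat_lit 528, nat_lit 10416, nat_lit 19968, nat_lit 7728, R10_217, R14_416, R7_161⟩]⟩]⟩], [⟨nat_lit 3, [⟨nat_lit 0, [⟨nat_lit 0, nat_lit 4320, nat_lit 96, nat_lit 1824, nat_lit 2016, nat_lit 2880, R5_38, R4_42, R6_60⟩, ⟨nat_lit 2, nat_lit 9168, nat_lit 336, nat_lit 10272, nat_lit 2256, nat_lit 8496, R5_214, R5_47, R13_177⟩]⟩, ⟨nat_lit 2, [⟨nat_lit 2, nat_lit 9216, nat_lit 2016, nat_lit 7440, nat_lit 2352, nat_lit 2592, R0_155, R5_49, R3_54⟩]⟩, ⟨nat_lit 3, [⟨nat_lit 0, nat_lit 4368, nat_lit 672, nat_lit 11040, nat_lit 2496, nat_lit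 960, R11_230, R4_52, R8_20⟩, ⟨nat_lit 2, nat_lit 9264, nat_lit 1152, nat_lit 11088, nat_lit 2496, nat_lit 6144, R11_231, R5_52, R9_128⟩]⟩]⟩,
 ⟨nat_lit 7, [⟨nat_lit 3, [⟨nat_lit 0, nat_lit 3936, nat_lit 720, nat_lit 9600, nat_lit 2448, nat_lit 1440, R1_200, R7_51, R8_30⟩, ⟨nat_lit 3, nat_lit 11904, nat_lit 816, nat_lit 9648, nat_lit 20064, nat_lit 6384, R1_201, R14_418, R5_133⟩]⟩]⟩]]], [[[⟨nat_lit 4, [⟨nat_lit 4, [⟨nat_lit 7, nat_lit 15216, nat_lit 4608, nat_lit 7440, nat_lit 16080, nat_lit 5664, R8_155, R6_335, R6_118⟩]⟩, ⟨nat_lit 7, [⟨nat_lit 7, nat_lit 15360, nat_lit 5712, nat_lit 0, nat_lit 16128, nat_lit 6048, R9_0, R6_336, R4_126⟩]⟩]⟩,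
 ⟨nat_lit 6, [⟨nat_lit 4, [⟨nat_lit 7, nat_lit 15792, nat_lit 4848, nat_lit 13104, nat_lit 17904, nat_lit 5712, R9_273, R8_373, R6_119⟩]⟩]⟩], [], [⟨nat_lit 4, [⟨nat_lit 4, [⟨nat_lit 7, nat_lit 15504, nat_lit 7968, nat_lit 7728, nat_lit 16752, nat_lit 16752, R8_161, R6_349, R8_349⟩]⟩, ⟨nat_lit 7, [⟨nat_lit 7, nat_lit 15648, nat_lit 8112, nat_lit 48, nat_lit 16800, nat_lit 9312, R9_1, R6_350, R5_194⟩]⟩]⟩,
 ⟨nat_lit 6, [⟨nat_lit 4, [⟨nat_lit 4, nat_lit 12384, nat_lit 960, nat_lit 15984, nat_lit 15024, nat_lit 14928, R9_333, R6_313, R6_311⟩, ⟨nat_lit 7, nat_lit 16176, nat_lit 9216, nat_lit 16272, nat_lit 18720, nat_lit 17040, R9_339, R8_390, R8_355⟩]⟩, ⟨nat_lit 6, [⟨nat_lit 4, nat_lit 12528, nat_lit 1104, nat_lit 144, nat_lit 15072, nat_lit 10752, R0_3, R6_314, R13_224⟩, ⟨nat_lit 6, nat_lit 14304, nat_lit 13152,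 nat_lit 5664, nat_lit 14496, nat_lit 16464, R0_118, R4_302, R3_343⟩, ⟨nat_lit 7, nat_lit 16320, nat_lit 9456, nat_lit 7632, nat_lit 18768, nat_lit 8448, R0_159, R8_391, R9_176⟩]⟩]⟩,
 ⟨nat_lit 7, [⟨nat_lit 7, [⟨nat_lit 7, nat_lit 16704, nat_lit 8832, nat_lit 2256, nat_lit 15312, nat_lit 9360, R0_47, R4_319, R5_195⟩]⟩]⟩]], [], [[], [], [⟨nat_lit 4, [⟨nat_lit 4, [⟨nat_lit 4, nat_lit 12672, nat_lit 10368, nat_lit 3120, nat_lit 8448, nat_lit 14736, R8_65, R6_176, R6_307⟩, ⟨nat_lit 5, nat_lit 13584, nat_lit 10464, nat_lit 10752, nat_lit 9072, nat_lit 14304, R8_224, R4_189, R4_298⟩, ⟨nat_lit 7, nat_lit 16848, nat_lit 10416, nat_lit 7824, nat_lit 6288, nat_lit 16848, R8_163, R8_131, R8_351⟩]⟩, ⟨nat_lit 7, [⟨nat_lit 7, nat_lit 16992, nat_lit 13440, nat_lit 1152, nat_lit 6672, nat_lit 9696, R9_24, R8_139, R5_202⟩]⟩]⟩,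
 ⟨nat_lit 6, [⟨nat_lit 4, [⟨nat_lit 4, nat_lit 12816, nat_lit 11616, nat_lit 16128, nat_lit 20160, nat_lit 14976, R9_336, R13_420, R6_312⟩, ⟨nat_lit 5, nat_lit 13872, nat_lit 11712, nat_lit 16656, nat_lit 16560, nat_lit 14448, R9_347, R3_345, R4_301⟩, ⟨nat_lit 7, nat_lit 17136, nat_lit 11664, nat_lit 16560, nat_lit 16560, nat_lit 17136, R9_345, R9_345, R8_357⟩]⟩, ⟨nat_lit 6, [⟨nat_lit 4, nat_lit 12960, nat_lit 14304, nat_lit 192, nat_lit 20208, nat_lit 10896, R0_4, R13_421, R13_227⟩, ⟨nat_lit 5, nat_lit 14016, nat_lit 14400, nat_lit 9888, nat_lit 16608, nat_lit 8736, R0_206, R3_346, R3_182⟩, ⟨nat_lit 6, nat_lit 14688, nat_lit 14448, nat_lit 5712, nat_lit 8784, nat_lit 16512, R0_119, R3_183, R3_344⟩, ⟨nat_lit 7, nat_lit 17280, nat_lit 14352, nat_lit 7728, nat_lit 16608, nat_lit 8592, R0_161, R9_346, R9_179⟩]⟩]⟩,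
 ⟨nat_lit 7, [⟨nat_lit 7, [⟨nat_lit 7, nat_lit 17520, nat_lit 13920, nat_lit 3936, nat_lit 17040, nat_lit 9744, R0_82, R5_355, R5_203⟩]⟩]⟩], [], [], [], [⟨nat_lit 4, [⟨nat_lit 4, [⟨nat_lit 5, nat_lit 13392, nat_lit 7968, nat_lit 10608, nat_lit 9120, nat_lit 16800, R8_221, R4_190, R7_350⟩]⟩, ⟨nat_lit 5, [⟨nat_lit 5, nat_lit 13440, nat_lit 8064, nat_lit 528, nat_lit 9168, nat_lit 15024, R5_11, R4_191, R2_313⟩]⟩]⟩,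
 ⟨nat_lit 6, [⟨nat_lit 4, [⟨nat_lit 5, nat_lit 13632, nat_lit 8016, nat_lit 11040, nat_lit 16224, nat_lit 16896, R9_230, R3_338, R7_352⟩]⟩, ⟨nat_lit 5, [⟨nat_lit 5, nat_lit 13728, nat_lit 8112, nat_lit 9552, nat_lit 16320, nat_lit 15120, R0_199, R3_340, R2_315⟩]⟩, ⟨nat_lit 6, [⟨nat_lit 5, nat_lit 13680, nat_lit 8160, nat_lit 9504, nat_lit 16272, nat_lit 14640, R0_198, R3_339, R2_305⟩]⟩]⟩]], [[⟨nat_lit 4, [⟨nat_lit 4, [⟨nat_lit 7, nat_lit 17664, nat_lit 288, nat_lit 7488, nat_lit 7392, nat_lit 6384, R8_156, R4_154, R6_133⟩]⟩, ⟨nat_lit 7, [⟨nat_lit 3, nat_lit 11088, nat_lit 1680, nat_lit 480, nat_lit 7680, nat_lit 6240, R9_10, R7_160, R7_130⟩, ⟨nat_lit 7, nat_lit 17808, nat_lit 1008, nat_lit 240, nat_lit 7728, nat_lit 6624, R9_5, R4_161, R4_138⟩]⟩]⟩,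
 ⟨nat_lit 6, [⟨nat_lit 4, [⟨nat_lit 7, nat_lit 18384, nat_lit 336, nat_lit 13248, nat_lit 9408, nat_lit 6432, R9_276, R5_196, R6_134⟩]⟩]⟩], [], [⟨nat_lit 4, [⟨nat_lit 4, [⟨nat_lit 7, nat_lit 17952, nat_lit 7200, nat_lit 7776, nat_lit 7488, nat_lit 16800, R8_162, R4_156, R8_350⟩]⟩, ⟨nat_lit 7, [⟨nat_lit 7, nat_lit 18048, nat_lit 8304, nat_lit 288, nat_lit 7776, nat_lit 10032, R9_6, R4_162, R5_209⟩]⟩]⟩,
 ⟨nat_lit 6, [⟨nat_lit 4, [⟨nat_lit 7, nat_lit 18768, nat_lit 7632, nat_lit 16416, nat_lit 9456, nat_lit 17088, R9_342, R5_197, R8_356⟩]⟩, ⟨nat_lit 6, [⟨nat_lit 7, nat_lit 18864, nat_lit 9024, nat_lit 7680, nat_lit 9840, nat_lit 8736, R0_160, R5_205, R9_182⟩]⟩]⟩], [⟨nat_lit 4, [⟨nat_lit 4, [⟨nat_lit 3, nat_lit 11376, nat_lit 8784, nat_lit 14400, nat_lit 7584, nat_lit 16752, R8_300, R7_158, R7_349⟩, ⟨nat_lit 7,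 nat_lit 18240, nat_lit 8736, nat_lit 7632, nat_lit 7440, nat_lit 14640, R8_159, R4_155, R4_305⟩]⟩, ⟨nat_lit 7, [⟨nat_lit 3, nat_lit 11520, nat_lit 10416, nat_lit 528, nat_lit 7728, nat_lit 6240, R9_11, R7_161, R14_130⟩]⟩]⟩,
 ⟨nat_lit 6, [⟨nat_lit 4, [⟨nat_lit 7, nat_lit 19104, nat_lit 9456, nat_lit 15360, nat_lit 9504, nat_lit 14736, R9_320, R5_198, R4_307⟩]⟩]⟩]], [[], [], [], [], [⟨nat_lit 4, [⟨nat_lit 4, [⟨nat_lit 1, nat_lit 4464, nat_lit 4608, nat_lit 15168, nat_lit 6816, nat_lit 15264, R8_316, R6_142, R6_318⟩]⟩, ⟨nat_lit 5, [⟨nat_lit 1, nat_lit 4512, nat_lit 5184, nat_lit 1488, nat_lit 6960, nat_lit 20496, R5_31, R6_145, R13_427⟩]⟩]⟩,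
 ⟨nat_lit 5, [⟨nat_lit 4, [⟨nat_lit 1, nat_lit 4704, nat_lit 4656, nat_lit 1200, nat_lit 8400, nat_lit 15360, R5_25, R13_175, R6_320⟩]⟩, ⟨nat_lit 5, [⟨nat_lit 0, nat_lit 0, nat_lit 0, nat_lit 288, nat_lit 2784, nat_lit 3792, R11_6, R6_58, R6_79⟩, ⟨nat_lit 1, nat_lit 4752, nat_lit 5232, nat_lit 1056, nat_lit 8544, nat_lit 20592, R11_22, R13_178, R13_429⟩]⟩]⟩], [], [], [⟨nat_lit 4, [⟨nat_lit 4, [⟨nat_lit 1, nat_lit 4560, nat_lit 7968, nat_lit 15744, nat_lit 6864, nat_lit 16752, R8_328, R6_143, R8_349⟩]⟩, ⟨nat_lit 5, [⟨nat_lit 1, nat_lit 4608, nat_lit 8544, nat_lit 1536, nat_lit 7008, nat_lit 16848, R5_32, R6_146, R9_351⟩]⟩]⟩,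
 ⟨nat_lit 5, [⟨nat_lit 4, [⟨nat_lit 0, nat_lit 240, nat_lit 1776, nat_lit 8208, nat_lit 2832, nat_lit 16512, R5_171, R6_59, R6_344⟩, ⟨nat_lit 1, nat_lit 4992, nat_lit 10176, nat_lit 9552, nat_lit 8448, nat_lit 16896, R5_199, R13_176, R8_352⟩]⟩, ⟨nat_lit 5, [⟨nat_lit 0, nat_lit 288, nat_lit 1872, nat_lit 336, nat_lit 2928, nat_lit 3552, R11_7, R6_61, R8_74⟩, ⟨nat_lit 1, nat_lit 5040, nat_lit 10368, nat_lit 1104, nat_lit 8592, nat_lit 16992, R11_23, R13_179, R9_354⟩]⟩]⟩]], [], [[], [], [], [], [⟨nat_lit 4, [⟨nat_lit 4, [⟨nat_lit 1, nat_lit 5136, nat_lit 288, nat_lit 15312, nat_lit 7392, nat_lit 15312, R8_319, R4_154, R6_319⟩]⟩, ⟨nat_lit 5, [⟨nat_lit 1, nat_lit 5184, nat_lit 3888, nat_lit 3840, nat_lit 7584, nat_lit 20544, R5_80, R4_158, R13_428⟩]⟩]⟩,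
 ⟨nat_lit 5, [⟨nat_lit 4, [⟨nat_lit 1, nat_lit 5472, nat_lit 384, nat_lit 1344, nat_lit 2256, nat_lit 15408, R5_28, R3_47, R6_321⟩]⟩, ⟨nat_lit 5, [⟨nat_lit 1, nat_lit 5520, nat_lit 3984, nat_lit 3840, nat_lit 2352, nat_lit 20640, R11_80, R3_49, R13_430⟩]⟩]⟩], [], [⟨nat_lit 4, [⟨nat_lit 4, [⟨nat_lit 1, nat_lit 5232, nat_lit 8736, nat_lit 16512, nat_lit 7440, nat_lit 14640, R8_344, R4_155, R4_305⟩, ⟨nat_lit 5, nat_lit 13008, nat_lit 8784, nat_lit 10464, nat_lit 7584, nat_lit 16752, R8_218, R7_158, R7_349⟩]⟩, ⟨nat_lit 5, [⟨nat_lit 1, nat_lit 5280, nat_lit 8976, nat_lit 3936, nat_lit 7632, nat_lit 3264, R5_82, R4_159, R3_68⟩, ⟨nat_lit 5, nat_lit 13056, nat_lit 9024, nat_lit 2928, nat_lit 7632, nat_lit 14976, R5_61, R7_159, R2_312⟩]⟩]⟩,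
 ⟨nat_lit 5, [⟨nat_lit 4, [⟨nat_lit 1, nat_lit 5616, nat_lit 8832, nat_lit 13248, nat_lit 2400, nat_lit 14688, R5_276, R3_50, R4_306⟩, ⟨nat_lit 5, nat_lit 13248, nat_lit 8880, nat_lit 12960, nat_lit 6384, nat_lit 16944, R5_270, R2_133, R7_353⟩]⟩, ⟨nat_lit 5, [⟨nat_lit 1, nat_lit 5664, nat_lit 9072, nat_lit 3936, nat_lit 2496, nat_lit 3312, R11_82, R3_52, R3_69⟩, ⟨nat_lit 5, nat_lit 13296, nat_lit 9120, nat_lit 2928, nat_lit 6432, nat_lit 15168, R11_61, R2_134, R2_316⟩]⟩]⟩,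
 ⟨nat_lit 6, [⟨nat_lit 4, [⟨nat_lit 5, nat_lit 13104, nat_lit 8928, nat_lit 11184, nat_lit 8016, nat_lit 16848, R9_233, R2_167, R7_351⟩]⟩]⟩]], [[], [], [], [], [], [], [], [⟨nat_lit 4, [⟨nat_lit 4, [⟨nat_lit 0, nat_lit 1488, nat_lit 10368, nat_lit 12192, nat_lit 8448, nat_lit 14736, R8_254, R6_176, R6_307⟩, ⟨nat_lit 1, nat_lit 6288, nat_lit 10416, nat_lit 15888, nat_lit 6288, nat_lit 16848, R8_331, R8_131, R8_351⟩, ⟨nat_lit 3, nat_lit 9360, nat_lit 10464, nat_lit 14112, nat_lit 9072, nat_lit 14304, R8_294, R4_189, R4_298⟩]⟩, ⟨nat_lit 5, [⟨nat_lit 0, nat_lit 1536, nat_lit 10656, nat_lit 1872, nat_lit 9696, nat_lit 3600, R5_39, R6_202, R8_75⟩, ⟨nat_lit 1, nat_lit 6336, nat_lit 10704, nat_lit 2400, nat_lit 6384, nat_lit 16944, R5_50, R8_133, R9_353⟩, ⟨nat_lit 3, nat_lit 9408, nat_lit 10752, nat_lit 2064, nat_lit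 10656, nat_lit 17184, R5_43, R4_222, R5_358⟩]⟩]⟩]]], [[], [], [], [[⟨nat_lit 4, [⟨nat_lit 3, [⟨nat_lit 3, nat_lit 11184, nat_lit 13632, nat_lit 240, nat_lit 7296, nat_lit 9792, R2_5, R7_152, R4_204⟩]⟩, ⟨nat_lit 7, [⟨nat_lit 3, nat_lit 11136, nat_lit 12384, nat_lit 12384, nat_lit 6768, nat_lit 6768, R3_258, R7_141, R7_141⟩, ⟨nat_lit 7, nat_lit 17856, nat_lit 4368, nat_lit 4368, nat_lit 7056, nat_lit 7056, R3_91, R4_147, R4_147⟩]⟩]⟩,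
 ⟨nat_lit 6, [⟨nat_lit 7, [⟨nat_lit 7, nat_lit 18672, nat_lit 4560, nat_lit 11856, nat_lit 10080, nat_lit 7104, R0_247, R5_210, R4_148⟩]⟩]⟩,
 ⟨nat_lit 7, [⟨nat_lit 3, [⟨nat_lit 0, nat_lit 3840, nat_lit 11664, nat_lit 6864, nat_lit 336, nat_lit 9120, R12_143, R7_7, R6_190⟩, ⟨nat_lit 3, nat_lit 11808, nat_lit 13968, nat_lit 6912, nat_lit 20112, nat_lit 9840, R12_144, R14_419, R4_205⟩]⟩]⟩], [⟨nat_lit 4, [⟨nat_lit 3, [⟨nat_lit 3, nat_lit 11232, nat_lit 1584, nat_lit 288, nat_lit 7344, nat_lit 6096, R2_6, R7_153, R5_127⟩]⟩]⟩,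
 ⟨nat_lit 7, [⟨nat_lit 3, [⟨nat_lit 0, nat_lit 3984, nat_lit 1152, nat_lit 6960, nat_lit 2400, nat_lit 1392, R12_145, R7_50, R8_29⟩, ⟨nat_lit 3, nat_lit 11952, nat_lit 1632, nat_lit 7008, nat_lit 20160, nat_lit 6144, R12_146, R14_420, R5_128⟩]⟩]⟩], [⟨nat_lit 4, [⟨nat_lit 7, [⟨nat_lit 7, nat_lit 18096, nat_lit 11856, nat_lit 4560, nat_lit 7104, nat_lit 10080, R3_95, R4_148, R5_210⟩]⟩]⟩,
 ⟨nat_lit 6, [⟨nat_lit 7, [⟨nat_lit 7, nat_lit 18960, nat_lit 14736, nat_lit 14736, nat_lit 10128, nat_lit 10128, R0_307, R5_211, R5_211⟩]⟩]⟩]], [], [], [], [[⟨nat_lit 4, [⟨nat_lit 3, [⟨nat_lit 0, nat_lit 1632, nat_lit 1392, nat_lit 1392, nat_lit 7584, nat_lit 7584, R2_29, R6_158, R6_158⟩]⟩, ⟨nat_lit 7, [⟨nat_lit 3, nat_lit 9456, nat_lit 240, nat_lit 13632, nat_lit 9792, nat_lit 7296, R3_284, R4_204, R7_152⟩]⟩]⟩,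
 ⟨nat_lit 5, [⟨nat_lit 7, [⟨nat_lit 3, nat_lit 9984, nat_lit 288, nat_lit 1584, nat_lit 6096, nat_lit 7344, R10_33, R5_127, R7_153⟩]⟩]⟩,
 ⟨nat_lit 7, [⟨nat_lit 3, [⟨nat_lit 0, nat_lit 2832, nat_lit 1440, nat_lit 6720, nat_lit 3408, nat_lit 7632, R12_140, R4_71, R6_159⟩]⟩]⟩], [], [], [⟨nat_lit 5, [⟨nat_lit 7, [⟨nat_lit 0, nat_lit 2688, nat_lit 6960, nat_lit 1152, nat_lit 2064, nat_lit 4176, R10_24, R8_43, R7_87⟩, ⟨nat_lit 3, nat_lit 10368, nat_lit 7008, nat_lit 1632, nat_lit 6144, nat_lit 6480, R10_34, R5_128, R14_135⟩]⟩]⟩]]], [[], [], [], [], [[], [⟨nat_lit 5, [⟨nat_lit 0, [⟨nat_lit 0, nat_lit 384, nat_lit 5616, nat_lit 5616, nat_lit 2496, nat_lit 2496, R4_117, R6_52, R6_52⟩]⟩]⟩], [], [], [], [⟨nat_lit 5, [⟨nat_lit 1, [⟨nat_lit 0, nat_lit 144, nat_lit 5712, nat_lit 1200, nat_lit 2976, nat_lit 4032, R3_25, R6_62,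 R7_84⟩, ⟨nat_lit 1, nat_lit 4896, nat_lit 5808, nat_lit 1296, nat_lit 8640, nat_lit 2400, R3_27, R13_180, R2_50⟩]⟩]⟩]], [[], [⟨nat_lit 1, [⟨nat_lit 0, [⟨nat_lit 0, nat_lit 1152, nat_lit 1200, nat_lit 5712, nat_lit 2256, nat_lit 2976, R7_119, R7_47, R6_62⟩, ⟨nat_lit 2, nat_lit 7056, nat_lit 1296, nat_lit 5808, nat_lit 2400, nat_lit 8640, R7_121, R2_50, R13_180⟩]⟩, ⟨nat_lit 1, [⟨nat_lit 0, nat_lit 1248, nat_lit 6384, nat_lit 4128, nat_lit 2496, nat_lit 2640, R2_86, R7_52, R4_55⟩, ⟨nat_lit 2, nat_lit 7200, nat_lit 6480, nat_lit 4224, nat_lit 2832, nat_lit 7008, R2_88, R2_59, R3_146⟩]⟩, ⟨nat_lit 3, [⟨nat_lit 0, nat_lit 1344, nat_lit 7632, nat_lit 8784, nat_lit 2352, nat_lit 3888, R2_183, R7_49, R8_81⟩, ⟨nat_lit 2, nat_lit 7296, nat_lit 7776, nat_lit 9216, nat_lit 2544, nat_lit 6240, R2_192, R2_53, R9_130⟩]⟩]⟩,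
 ⟨nat_lit 5, [⟨nat_lit 0, [⟨nat_lit 0, nat_lit 768, nat_lit 720, nat_lit 6288, nat_lit 2400, nat_lit 2640, R4_131, R4_50, R6_55⟩]⟩, ⟨nat_lit 1, [⟨nat_lit 0, nat_lit 864, nat_lit 6048, nat_lit 6048, nat_lit 2544, nat_lit 2544, R3_126, R4_53, R4_53⟩]⟩]⟩], [], [], [], [⟨nat_lit 1, [⟨nat_lit 1, [⟨nat_lit 0, nat_lit 1008, nat_lit 12816, nat_lit 12816, nat_lit 2592, nat_lit 4272, R2_267, R7_54, R7_89⟩, ⟨nat_lit 1, nat_lit 6144, nat_lit 12912, nat_lit 13056, nat_lit 720, nat_lit 2688, R2_272, R2_15, R2_56⟩, ⟨nat_lit 2, nat_lit 6912, nat_lit 13056, nat_lit 12912, nat_lit 2688, nat_lit 720, R2_269, R2_56, R2_15⟩]⟩]⟩,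
 ⟨nat_lit 5, [⟨nat_lit 1, [⟨nat_lit 0, nat_lit 672, nat_lit 4128, nat_lit 6384, nat_lit 2640, nat_lit 4416, R3_133, R4_55, R7_92⟩, ⟨nat_lit 1, nat_lit 6048, nat_lit 4224, nat_lit 6480, nat_lit 7008, nat_lit 2832, R3_135, R3_146, R2_59⟩]⟩]⟩]]], [[], [[], [⟨nat_lit 0, [⟨nat_lit 0, [⟨nat_lit 0, nat_lit 3312, nat_lit 576, nat_lit 96, nat_lit 3840, nat_lit 2736, R7_2, R6_80, R6_57⟩, ⟨nat_lit 2, nat_lit 8160, nat_lit 672, nat_lit 5040, nat_lit 20352, nat_lit 8688, R7_105, R13_424, R13_181⟩]⟩, ⟨nat_lit 2, [⟨nat_lit 2, nat_lit 8256, nat_lit 1248, nat_lit 3456, nat_lit 20400, nat_lit 2304, R2_72, R13_425, R3_48⟩]⟩, ⟨nat_lit 3, [⟨nat_lit 0, nat_lit 3360, nat_lit 864, nat_lit 1488, nat_lit 3888, nat_lit 1680, R2_31, R6_81, R8_35⟩, ⟨nat_lit 2, nat_lit 8304, nat_lit 1056, nat_lit 8544, nat_lit 20448, nat_lit 6336, R2_178,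 R13_426, R9_132⟩]⟩]⟩,
 ⟨nat_lit 1, [⟨nat_lit 0, [⟨nat_lit 0, nat_lit 3408, nat_lit 624, nat_lit 15744, nat_lit 4080, nat_lit 3072, R14_328, R4_85, R6_64⟩, ⟨nat_lit 2, nat_lit 8496, nat_lit 720, nat_lit 16176, nat_lit 16848, nat_lit 8736, R14_337, R3_351, R13_182⟩]⟩, ⟨nat_lit 1, [⟨nat_lit 0, nat_lit 3456, nat_lit 768, nat_lit 12816, nat_lit 4176, nat_lit 2736, R12_267, R4_87, R4_57⟩, ⟨nat_lit 2, nat_lit 8592, nat_lit 816, nat_lit 13248, nat_lit 16992, nat_lit 7056, R12_276, R3_354, R3_147⟩]⟩, ⟨nat_lit 2, [⟨nat_lit 2, nat_lit 8544, nat_lit 1296, nat_lit 13152, nat_lit 16896, nat_lit 2736, R12_274, R3_352, R3_57⟩]⟩, ⟨nat_lit 3, [⟨nat_lit 0, nat_lit 3504, nat_lit 912, nat_lit 6768, nat_lit 4128, nat_lit 2880, R12_141, R4_86, R8_60⟩, ⟨nat_lit 2, nat_lit 8640, nat_lit 1104, nat_lit 8160, nat_lit 16944, nat_lit 6432,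 R12_170, R3_353, R9_134⟩]⟩]⟩,
 ⟨nat_lit 2, [⟨nat_lit 2, [⟨nat_lit 2, nat_lit 8448, nat_lit 1344, nat_lit 2928, nat_lit 3360, nat_lit 2448, R1_61, R3_70, R3_51⟩, ⟨nat_lit 6, nat_lit 15072, nat_lit 1200, nat_lit 13392, nat_lit 14928, nat_lit 6480, R1_279, R2_311, R2_135⟩]⟩]⟩,
 ⟨nat_lit 3, [⟨nat_lit 3, [⟨nat_lit 0, nat_lit 3696, nat_lit 960, nat_lit 960, nat_lit 2256, nat_lit 2496, R1_20, R8_47, R8_52⟩, ⟨nat_lit 2, nat_lit 8976, nat_lit 1152, nat_lit 9360, nat_lit 16800, nat_lit 6384, R1_195, R9_350, R9_133⟩, ⟨nat_lit 3, nat_lit 10944, nat_lit 1008, nat_lit 6384, nat_lit 17136, nat_lit 6528, R1_133, R5_357, R5_136⟩]⟩]⟩]], [], [], [], [[], [⟨nat_lit 1, [⟨nat_lit 0, [⟨nat_lit 0, nat_lit 1200, nat_lit 15648, nat_lit 15792, nat_lit 2304, nat_lit 3024, R14_329, R7_48, R6_63⟩, ⟨nat_lit 2, nat_lit 7104, nat_lit 15840,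 nat_lit 16224, nat_lit 2448, nat_lit 8784, R14_338, R2_51, R13_183⟩]⟩, ⟨nat_lit 1, [⟨nat_lit 0, nat_lit 1296, nat_lit 17424, nat_lit 12864, nat_lit 2544, nat_lit 2688, R12_268, R7_53, R4_56⟩, ⟨nat_lit 2, nat_lit 7248, nat_lit 17568, nat_lit 13296, nat_lit 2880, nat_lit 7104, R12_277, R2_60, R3_148⟩]⟩, ⟨nat_lit 2, [⟨nat_lit 2, nat_lit 7152, nat_lit 18048, nat_lit 13104, nat_lit 2496, nat_lit 2688, R12_273, R2_52, R3_56⟩]⟩, ⟨nat_lit 3, [⟨nat_lit 0, nat_lit 1392, nat_lit 16512, nat_lit 6960, nat_lit 2400, nat_lit 3984, R12_145, R7_50, R8_83⟩, ⟨nat_lit 2, nat_lit 7344, nat_lit 16704, nat_lit 8496, nat_lit 2592, nat_lit 6480, R12_177, R2_54, R9_135⟩]⟩]⟩], [], [], [], [⟨nat_lit 1, [⟨nat_lit 1, [⟨nat_lit 0, nat_lit 1056, nat_lit 14160, nat_lit 12336, nat_lit 2640, nat_lit 4368, R12_257, R7_55, R7_91⟩, ⟨nat_lit 1, nat_lit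 6192, nat_lit 14256, nat_lit 12576, nat_lit 768, nat_lit 2784, R12_262, R2_16, R2_58⟩, ⟨nat_lit 2, nat_lit 6960, nat_lit 14400, nat_lit 12432, nat_lit 2736, nat_lit 816, R12_259, R2_57, R2_17⟩]⟩]⟩]]], [[], [], [], [], [[], [], [], [], [], [⟨nat_lit 5, [⟨nat_lit 1, [⟨nat_lit 0, nat_lit 192, nat_lit 15792, nat_lit 960, nat_lit 3024, nat_lit 4080, R10_20, R6_63, R7_85⟩, ⟨nat_lit 1, nat_lit 4944, nat_lit 16224, nat_lit 1008, nat_lit 8784, nat_lit 2448, R10_21, R13_183, R2_51⟩]⟩]⟩]], [[], [], [], [], [], [⟨nat_lit 5, [⟨nat_lit 1, [⟨nat_lit 0, nat_lit 720, nat_lit 12864, nat_lit 1056, nat_lit 2688, nat_lit 4464, R10_22, R4_56, R7_93⟩, ⟨nat_lit 1, nat_lit 6096, nat_lit 13296, nat_lit 1104, nat_lit 7104, nat_lit 2880, R10_23, R3_148, R2_60⟩]⟩]⟩]], [[], [], [], [], [], [⟨nat_lit 5, [⟨nat_lit 1, [⟨nat_lit 1, nat_lit 5808,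 nat_lit 13104, nat_lit 1248, nat_lit 2688, nat_lit 2496, R10_26, R3_56, R2_52⟩]⟩]⟩]]], [[], [], [], [], [[], [⟨nat_lit 5, [⟨nat_lit 0, [⟨nat_lit 0, nat_lit 432, nat_lit 8064, nat_lit 8064, nat_lit 2544, nat_lit 2544, R5_168, R6_53, R6_53⟩]⟩, ⟨nat_lit 3, [⟨nat_lit 0, nat_lit 576, nat_lit 8352, nat_lit 1776, nat_lit 2592, nat_lit 3216, R11_37, R6_54, R8_67⟩]⟩]⟩]], [], [], [[], [⟨nat_lit 5, [⟨nat_lit 0, [⟨nat_lit 0, nat_lit 2400, nat_lit 1776, nat_lit 8352, nat_lit 2160, nat_lit 2592, R5_174, R8_45, R6_54⟩]⟩, ⟨nat_lit 3, [⟨nat_lit 0, nat_lit 2544, nat_lit 1872, nat_lit 1872, nat_lit 2208, nat_lit 3648, R11_39, R8_46, R8_76⟩, ⟨nat_lit 3, nat_lit 10128, nat_lit 1920, nat_lit 1920, nat_lit 6480, nat_lit 6480, R11_40, R5_135, R5_135⟩]⟩]⟩]]]]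
noncomputable def N2112 : T3 (List N0) := [[[[⟨nat_lit 7, [⟨nat_lit 3, [⟨nat_lit 3, nat_lit 9312, nat_lit 12480, nat_lit 7584, nat_lit 14544, nat_lit 11328, R2_158, R2_303, R3_236⟩]⟩, ⟨nat_lit 7, [⟨nat_lit 3, nat_lit 9456, nat_lit 13248, nat_lit 11280, nat_lit 14496, nat_lit 7632, R3_235, R2_302, R2_159⟩]⟩]⟩], [⟨nat_lit 7, [⟨nat_lit 3, [⟨nat_lit 3, nat_lit 9408, nat_lit 12816, nat_lit 7920, nat_lit 14784, nat_lit 12624, R2_165, R2_308, R0_263⟩]⟩]⟩], [⟨nat_lit 4, [⟨nat_lit 4, [⟨nat_lit 4, nat_lit 0, nat_lit 12624, nat_lit 14784, nat_lit 8400, nat_lit 1968, R6_308, R6_175, R4_41⟩, ⟨nat_lit 7, nat_lit 144, nat_lit 12768, nat_lit 15072, nat_lit 20064, nat_lit 1104, R6_314, R13_418, R5_23⟩]⟩, ⟨nat_lit 7, [⟨nat_lit 7, nat_lit 192, nat_lit 12912, nat_lit 10944, nat_lit 20112, nat_lit 14304, R13_228, R13_419, R11_298⟩]⟩]⟩,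
 ⟨nat_lit 5, [⟨nat_lit 4, [⟨nat_lit 4, nat_lit 5568, nat_lit 13536, nat_lit 14352, nat_lit 9024, nat_lit 10896, R4_299, R4_188, R4_227⟩, ⟨nat_lit 7, nat_lit 5664, nat_lit 13824, nat_lit 14496, nat_lit 16464, nat_lit 13152, R4_302, R3_343, R5_274⟩]⟩, ⟨nat_lit 7, [⟨nat_lit 7, nat_lit 5712, nat_lit 13968, nat_lit 8784, nat_lit 16512, nat_lit 14448, R3_183, R3_344, R11_301⟩]⟩]⟩,
 ⟨nat_lit 6, [⟨nat_lit 4, [⟨nat_lit 4, nat_lit 7200, nat_lit 16800, nat_lit 17952, nat_lit 5328, nat_lit 7488, R8_374, R8_111, R4_156⟩, ⟨nat_lit 7, nat_lit 7632, nat_lit 17088, nat_lit 18768, nat_lit 16416, nat_lit 9456, R8_391, R9_342, R5_197⟩]⟩, ⟨nat_lit 6, [⟨nat_lit 4, nat_lit 7248, nat_lit 16944, nat_lit 9792, nat_lit 5856, nat_lit 2544, R5_204, R8_122, R3_53⟩, ⟨nat_lit 6, nat_lit 7488, nat_lit 17472, nat_lit 9888, nat_lit 16992, nat_lit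 11808, R5_206, R5_354, R10_246⟩, ⟨nat_lit 7, nat_lit 7680, nat_lit 17376, nat_lit 9840, nat_lit 16512, nat_lit 9024, R5_205, R9_344, R0_188⟩]⟩, ⟨nat_lit 7, [⟨nat_lit 7, nat_lit 7728, nat_lit 17232, nat_lit 8640, nat_lit 16464, nat_lit 14352, R9_180, R9_343, R11_299⟩]⟩]⟩,
 ⟨nat_lit 7, [⟨nat_lit 3, [⟨nat_lit 3, nat_lit 9360, nat_lit 14784, nat_lit 8064, nat_lit 14688, nat_lit 9216, R2_168, R2_306, R10_192⟩]⟩, ⟨nat_lit 7, [⟨nat_lit 3, nat_lit 9504, nat_lit 14736, nat_lit 16272, nat_lit 14640, nat_lit 8160, R3_339, R2_305, R1_170⟩, ⟨nat_lit 7, nat_lit 9888, nat_lit 14640, nat_lit 16608, nat_lit 8736, nat_lit 14400, R3_346, R3_182, R11_300⟩]⟩]⟩]], [], [[], [], [⟨nat_lit 4, [⟨nat_lit 4, [⟨nat_lit 4, nat_lit 576, nat_lit 8592, nat_lit 16656, nat_lit 816, nat_lit 2448, R6_347, R8_17, R4_51⟩, ⟨nat_lit 7, nat_lit 960,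 nat_lit 8640, nat_lit 16992, nat_lit 3840, nat_lit 1728, R6_354, R9_80, R5_36⟩]⟩, ⟨nat_lit 7, [⟨nat_lit 7, nat_lit 1008, nat_lit 10416, nat_lit 12864, nat_lit 4272, nat_lit 14784, R13_268, R9_89, R11_308⟩]⟩]⟩,
 ⟨nat_lit 6, [⟨nat_lit 4, [⟨nat_lit 4, nat_lit 8304, nat_lit 10032, nat_lit 18048, nat_lit 4704, nat_lit 7776, R8_376, R9_98, R4_162⟩]⟩, ⟨nat_lit 6, [⟨nat_lit 4, nat_lit 8352, nat_lit 12336, nat_lit 12096, nat_lit 5088, nat_lit 7296, R5_252, R9_106, R3_152⟩, ⟨nat_lit 6, nat_lit 8688, nat_lit 12384, nat_lit 12144, nat_lit 3264, nat_lit 11952, R5_253, R0_68, R10_249⟩]⟩]⟩,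
 ⟨nat_lit 7, [⟨nat_lit 7, [⟨nat_lit 7, nat_lit 10320, nat_lit 10896, nat_lit 17904, nat_lit 2976, nat_lit 14832, R3_373, R0_62, R11_309⟩]⟩]⟩]], [[⟨nat_lit 4, [⟨nat_lit 7, [⟨nat_lit 3, nat_lit 1296, nat_lit 11520, nat_lit 11424, nat_lit 3648, nat_lit 8640, R13_238, R2_76, R2_180⟩]⟩]⟩,
 ⟨nat_lit 5, [⟨nat_lit 7, [⟨nat_lit 3, nat_lit 6432, nat_lit 11760, nat_lit 9024, nat_lit 3120, nat_lit 8736, R3_188, R1_65, R2_182⟩]⟩]⟩,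
 ⟨nat_lit 7, [⟨nat_lit 3, [⟨nat_lit 3, nat_lit 10512, nat_lit 10176, nat_lit 8400, nat_lit 16080, nat_lit 12288, R2_175, R12_335, R3_256⟩]⟩, ⟨nat_lit 7, [⟨nat_lit 3, nat_lit 10656, nat_lit 12144, nat_lit 12240, nat_lit 16128, nat_lit 8688, R3_255, R12_336, R2_181⟩]⟩]⟩], [⟨nat_lit 7, [⟨nat_lit 3, [⟨nat_lit 3, nat_lit 10608, nat_lit 8304, nat_lit 9168, nat_lit 16320, nat_lit 13776, R2_191, R12_340, R0_287⟩]⟩]⟩], [⟨nat_lit 4, [⟨nat_lit 4, [⟨nat_lit 7, nat_lit 1920, nat_lit 8208, nat_lit 15696, nat_lit 480, nat_lit 1392, R6_327, R3_10, R5_29⟩]⟩, ⟨nat_lit 7, [⟨nat_lit 3, nat_lit 1344, nat_lit 9120, nat_lit 12576, nat_lit 3744, nat_lit 9456, R13_262, R2_78, R1_197⟩, ⟨nat_lit 7, nat_lit 1968, nat_lit 9072, nat_lit 12528, nat_lit 4080, nat_lit 15168, R13_261, R3_85, R11_316⟩]⟩]⟩,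
 ⟨nat_lit 5, [⟨nat_lit 4, [⟨nat_lit 7, nat_lit 6960, nat_lit 8352, nat_lit 14832, nat_lit 3120, nat_lit 13296, R4_309, R10_65, R5_277⟩]⟩, ⟨nat_lit 7, [⟨nat_lit 3, nat_lit 6480, nat_lit 9312, nat_lit 9456, nat_lit 3216, nat_lit 9552, R3_197, R1_67, R1_199⟩, ⟨nat_lit 7, nat_lit 7008, nat_lit 9264, nat_lit 9408, nat_lit 3744, nat_lit 15264, R3_196, R10_78, R11_318⟩]⟩]⟩,
 ⟨nat_lit 6, [⟨nat_lit 4, [⟨nat_lit 7, nat_lit 9024, nat_lit 8736, nat_lit 18864, nat_lit 7680, nat_lit 9840, R8_393, R0_160, R5_205⟩]⟩, ⟨nat_lit 6, [⟨nat_lit 7, nat_lit 9072, nat_lit 10080, nat_lit 11184, nat_lit 7968, nat_lit 9168, R5_233, R0_166, R0_191⟩]⟩, ⟨nat_lit 7, [⟨nat_lit 7, nat_lit 9120, nat_lit 9840, nat_lit 9744, nat_lit 7824, nat_lit 15216, R9_203, R0_163, R11_317⟩]⟩]⟩,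
 ⟨nat_lit 7, [⟨nat_lit 3, [⟨nat_lit 3, nat_lit 10560, nat_lit 7824, nat_lit 10128, nat_lit 16176, nat_lit 10800, R2_211, R12_337, R10_225⟩]⟩, ⟨nat_lit 7, [⟨nat_lit 3, nat_lit 10704, nat_lit 9408, nat_lit 17088, nat_lit 16224, nat_lit 9504, R3_356, R12_338, R1_198⟩]⟩]⟩]]], [[[⟨nat_lit 7, [⟨nat_lit 3, [⟨nat_lit 3, nat_lit 9552, nat_lit 14928, nat_lit 8112, nat_lit 15120, nat_lit 16320, R1_169, R2_315, R3_340⟩]⟩, ⟨nat_lit 7, [⟨nat_lit 3, nat_lit 9696, nat_lit 14976, nat_lit 9168, nat_lit 15072, nat_lit 8112, R10_191, R2_314, R2_169⟩]⟩]⟩], [⟨nat_lit 7, [⟨nat_lit 3, [⟨nat_lit 3, nat_lit 9648, nat_lit 16704, nat_lit 8448, nat_lit 15408, nat_lit 12672, R1_176, R2_321, R0_264⟩]⟩]⟩], [⟨nat_lit 4, [⟨nat_lit 4, [⟨nat_lit 4, nat_lit 48, nat_lit 13536, nat_lit 288, nat_lit 9408, nat_lit 2160, R4_6, R6_196, R4_45⟩, ⟨nat_lit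 7, nat_lit 240, nat_lit 13776, nat_lit 5520, nat_lit 20880, nat_lit 3504, R4_115, R13_435, R5_73⟩]⟩, ⟨nat_lit 7, [⟨nat_lit 7, nat_lit 288, nat_lit 13920, nat_lit 4128, nat_lit 20928, nat_lit 14640, R3_86, R13_436, R11_305⟩]⟩]⟩,
 ⟨nat_lit 6, [⟨nat_lit 4, [⟨nat_lit 4, nat_lit 7296, nat_lit 16896, nat_lit 3888, nat_lit 5376, nat_lit 7680, R5_81, R8_112, R4_160⟩, ⟨nat_lit 7, nat_lit 7776, nat_lit 17184, nat_lit 12240, nat_lit 17280, nat_lit 11712, R5_255, R9_360, R5_244⟩]⟩, ⟨nat_lit 6, [⟨nat_lit 4, nat_lit 7344, nat_lit 17040, nat_lit 12240, nat_lit 5904, nat_lit 2640, R11_255, R8_123, R3_55⟩, ⟨nat_lit 6, nat_lit 7536, nat_lit 17616, nat_lit 12336, nat_lit 17376, nat_lit 11904, R11_257, R5_362, R10_248⟩, ⟨nat_lit 7, nat_lit 7824, nat_lit 17472, nat_lit 12288, nat_lit 17376, nat_lit 9120, R11_256, R9_362, R0_190⟩]⟩,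 ⟨nat_lit 7, [⟨nat_lit 7, nat_lit 7872, nat_lit 17328, nat_lit 7872, nat_lit 17328, nat_lit 14688, R0_164, R9_361, R11_306⟩]⟩]⟩,
 ⟨nat_lit 7, [⟨nat_lit 3, [⟨nat_lit 3, nat_lit 9600, nat_lit 15840, nat_lit 8592, nat_lit 15264, nat_lit 9840, R1_179, R2_318, R10_205⟩]⟩, ⟨nat_lit 7, [⟨nat_lit 3, nat_lit 9744, nat_lit 15792, nat_lit 9792, nat_lit 15216, nat_lit 8640, R10_204, R2_317, R1_180⟩, ⟨nat_lit 7, nat_lit 9936, nat_lit 15696, nat_lit 9744, nat_lit 9360, nat_lit 14736, R10_203, R3_195, R11_307⟩]⟩]⟩]], [[⟨nat_lit 0, [⟨nat_lit 0, [⟨nat_lit 0, nat_lit 11616, nat_lit 8688, nat_lit 720, nat_lit 1056, nat_lit 16704, R4_15, R4_22, R6_348⟩, ⟨nat_lit 2, nat_lit 11856, nat_lit 10080, nat_lit 7104, nat_lit 4560, nat_lit 18096, R4_148, R3_95, R8_377⟩]⟩, ⟨nat_lit 2, [⟨nat_lit 2, nat_lit 12000, nat_lit 12432, nat_lit 5664,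 nat_lit 5232, nat_lit 12576, R3_118, R3_109, R5_262⟩]⟩]⟩,
 ⟨nat_lit 2, [⟨nat_lit 2, [⟨nat_lit 2, nat_lit 14112, nat_lit 12528, nat_lit 10224, nat_lit 19824, nat_lit 12672, R10_213, R10_413, R5_264⟩]⟩]⟩,
 ⟨nat_lit 3, [⟨nat_lit 0, [⟨nat_lit 0, nat_lit 14448, nat_lit 8736, nat_lit 1632, nat_lit 48, nat_lit 17040, R5_34, R5_1, R6_355⟩, ⟨nat_lit 2, nat_lit 14736, nat_lit 10128, nat_lit 10128, nat_lit 14736, nat_lit 18960, R5_211, R0_307, R8_395⟩]⟩, ⟨nat_lit 2, [⟨nat_lit 2, nat_lit 14880, nat_lit 12480, nat_lit 8160, nat_lit 14784, nat_lit 12624, R0_170, R0_308, R5_263⟩]⟩, ⟨nat_lit 3, [⟨nat_lit 0, nat_lit 14592, nat_lit 10464, nat_lit 13056, nat_lit 5088, nat_lit 12912, R11_272, R5_106, R13_269⟩, ⟨nat_lit 2, nat_lit 15024, nat_lit 11280, nat_lit 13104, nat_lit 14832, nat_lit 10128, R11_273, R0_309, R9_211⟩, ⟨nat_lit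 3, nat_lit 15168, nat_lit 10944, nat_lit 13152, nat_lit 22032, nat_lit 17952, R11_274, R11_459, R3_374⟩]⟩]⟩,
 ⟨nat_lit 7, [⟨nat_lit 3, [⟨nat_lit 3, nat_lit 10032, nat_lit 10992, nat_lit 8736, nat_lit 16128, nat_lit 17616, R1_182, R1_336, R3_367⟩]⟩, ⟨nat_lit 7, [⟨nat_lit 3, nat_lit 10176, nat_lit 7872, nat_lit 10080, nat_lit 16080, nat_lit 10272, R10_210, R1_335, R2_214⟩]⟩]⟩], [⟨nat_lit 0, [⟨nat_lit 0, [⟨nat_lit 0, nat_lit 11712, nat_lit 11136, nat_lit 768, nat_lit 1248, nat_lit 4416, R4_16, R4_26, R8_92⟩, ⟨nat_lit 2, nat_lit 11952, nat_lit 12528, nat_lit 7152, nat_lit 4704, nat_lit 17904, R4_149, R3_98, R9_373⟩]⟩, ⟨nat_lit 2, [⟨nat_lit 2, nat_lit 12096, nat_lit 15408, nat_lit 5808, nat_lit 5376, nat_lit 2112, R3_121, R3_112, R0_44⟩]⟩]⟩,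
 ⟨nat_lit 2, [⟨nat_lit 2, [⟨nat_lit 2, nat_lit 14208, nat_lit 15504, nat_lit 10272, nat_lit 19920, nat_lit 7152, R10_214, R10_415, R0_149⟩]⟩]⟩,
 ⟨nat_lit 3, [⟨nat_lit 0, [⟨nat_lit 0, nat_lit 14544, nat_lit 11184, nat_lit 2448, nat_lit 384, nat_lit 9312, R5_51, R5_8, R8_194⟩, ⟨nat_lit 2, nat_lit 14832, nat_lit 12576, nat_lit 11280, nat_lit 15024, nat_lit 18192, R5_235, R0_313, R9_379⟩]⟩, ⟨nat_lit 2, [⟨nat_lit 2, nat_lit 14976, nat_lit 15456, nat_lit 8208, nat_lit 15072, nat_lit 9264, R0_171, R0_314, R0_193⟩]⟩, ⟨nat_lit 3, [⟨nat_lit 0, nat_lit 14688, nat_lit 13728, nat_lit 13200, nat_lit 6864, nat_lit 10608, R11_275, R5_143, R9_221⟩, ⟨nat_lit 3, nat_lit 15264, nat_lit 14208, nat_lit 13248, nat_lit 22128, nat_lit 5232, R11_276, R11_461, R0_109⟩]⟩]⟩,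
 ⟨nat_lit 7, [⟨nat_lit 3, [⟨nat_lit 3, nat_lit 10128, nat_lit 14256, nat_lit 8880, nat_lit 16416, nat_lit 13968, R1_185, R1_342, R0_291⟩]⟩]⟩], [⟨nat_lit 0, [⟨nat_lit 0, [⟨nat_lit 0, nat_lit 11664, nat_lit 432, nat_lit 864, nat_lit 1200, nat_lit 2880, R4_18, R4_25, R4_60⟩, ⟨nat_lit 2, nat_lit 11904, nat_lit 480, nat_lit 7248, nat_lit 4608, nat_lit 4272, R4_151, R3_96, R5_89⟩]⟩, ⟨nat_lit 2, [⟨nat_lit 2, nat_lit 12048, nat_lit 528, nat_lit 5856, nat_lit 5280, nat_lit 15552, R3_122, R3_110, R11_324⟩]⟩]⟩,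
 ⟨nat_lit 2, [⟨nat_lit 2, [⟨nat_lit 2, nat_lit 14160, nat_lit 10272, nat_lit 10320, nat_lit 19872, nat_lit 15648, R10_215, R10_414, R11_326⟩, ⟨nat_lit 6, nat_lit 14256, nat_lit 10224, nat_lit 10368, nat_lit 16224, nat_lit 10848, R10_216, R1_338, R1_226⟩]⟩, ⟨nat_lit 6, [⟨nat_lit 6, nat_lit 14304, nat_lit 10080, nat_lit 8928, nat_lit 16272, nat_lit 12144, R1_186, R1_339, R10_253⟩]⟩]⟩,
 ⟨nat_lit 3, [⟨nat_lit 0, [⟨nat_lit 0, nat_lit 14496, nat_lit 8016, nat_lit 4032, nat_lit 192, nat_lit 8064, R5_84, R5_4, R4_168⟩, ⟨nat_lit 2, nat_lit 14784, nat_lit 8160, nat_lit 12480, nat_lit 14880, nat_lit 12624, R5_260, R0_310, R5_263⟩]⟩, ⟨nat_lit 2, [⟨nat_lit 2, nat_lit 14928, nat_lit 8256, nat_lit 8256, nat_lit 14928, nat_lit 15600, R0_172, R0_311, R11_325⟩]⟩, ⟨nat_lit 3, [⟨nat_lit 0, nat_lit 14640, nat_lit 8064, nat_lit 13296,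 nat_lit 5856, nat_lit 10176, R11_277, R5_122, R3_212⟩, ⟨nat_lit 2, nat_lit 15072, nat_lit 8208, nat_lit 13344, nat_lit 14976, nat_lit 9264, R11_278, R0_312, R0_193⟩, ⟨nat_lit 3, nat_lit 15216, nat_lit 8112, nat_lit 13392, nat_lit 22080, nat_lit 12096, R11_279, R11_460, R10_252⟩]⟩]⟩,
 ⟨nat_lit 4, [⟨nat_lit 4, [⟨nat_lit 4, nat_lit 432, nat_lit 11664, nat_lit 864, nat_lit 1200, nat_lit 2880, R4_18, R4_25, R4_60⟩, ⟨nat_lit 7, nat_lit 480, nat_lit 11904, nat_lit 7248, nat_lit 4608, nat_lit 4272, R4_151, R3_96, R5_89⟩]⟩, ⟨nat_lit 7, [⟨nat_lit 7, nat_lit 528, nat_lit 12048, nat_lit 5856, nat_lit 5280, nat_lit 15552, R3_122, R3_110, R11_324⟩]⟩]⟩,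
 ⟨nat_lit 6, [⟨nat_lit 4, [⟨nat_lit 4, nat_lit 8016, nat_lit 14496, nat_lit 4032, nat_lit 192, nat_lit 8064, R5_84, R5_4, R4_168⟩, ⟨nat_lit 7, nat_lit 8160, nat_lit 14784, nat_lit 12480, nat_lit 14880, nat_lit 12624, R5_260, R0_310, R5_263⟩]⟩, ⟨nat_lit 6, [⟨nat_lit 4, nat_lit 8064, nat_lit 14640, nat_lit 13296, nat_lit 5856, nat_lit 10176, R11_277, R5_122, R3_212⟩, ⟨nat_lit 6, nat_lit 8112, nat_lit 15216, nat_lit 13392, nat_lit 22080, nat_lit 12096, R11_279, R11_460, R10_252⟩, ⟨nat_lit 7, nat_lit 8208, nat_lit 15072, nat_lit 13344, nat_lit 14976, nat_lit 9264, R11_278, R0_312, R0_193⟩]⟩, ⟨nat_lit 7, [⟨nat_lit 7, nat_lit 8256, nat_lit 14928, nat_lit 8256, nat_lit 14928, nat_lit 15600, R0_172, R0_311, R11_325⟩]⟩]⟩,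
 ⟨nat_lit 7, [⟨nat_lit 3, [⟨nat_lit 3, nat_lit 10080, nat_lit 14304, nat_lit 8928, nat_lit 16272, nat_lit 12144, R1_186, R1_339, R10_253⟩]⟩, ⟨nat_lit 7, [⟨nat_lit 3, nat_lit 10224, nat_lit 14256, nat_lit 10368, nat_lit 16224, nat_lit 10848, R10_216, R1_338, R1_226⟩, ⟨nat_lit 7, nat_lit 10272, nat_lit 14160, nat_lit 10320, nat_lit 19872, nat_lit 15648, R10_215, R10_414, R11_326⟩]⟩]⟩]], [[], [], [⟨nat_lit 4, [⟨nat_lit 4, [⟨nat_lit 4, nat_lit 624, nat_lit 624, nat_lit 2592, nat_lit 912, nat_lit 2592, R4_54, R8_19, R4_54⟩, ⟨nat_lit 7, nat_lit 1056, nat_lit 8400, nat_lit 7920, nat_lit 4752, nat_lit 4176, R4_165, R9_99, R5_87⟩]⟩, ⟨nat_lit 7, [⟨nat_lit 7, nat_lit 1104, nat_lit 8448, nat_lit 7392, nat_lit 5136, nat_lit 15072, R3_154, R9_107, R11_314⟩]⟩]⟩,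
 ⟨nat_lit 6, [⟨nat_lit 4, [⟨nat_lit 4, nat_lit 8400, nat_lit 1056, nat_lit 4176, nat_lit 4752, nat_lit 7920, R5_87, R9_99, R4_165⟩]⟩, ⟨nat_lit 6, [⟨nat_lit 4, nat_lit 8448, nat_lit 1104, nat_lit 15072, nat_lit 5136, nat_lit 7392, R11_314, R9_107, R3_154⟩, ⟨nat_lit 6, nat_lit 8736, nat_lit 10368, nat_lit 15120, nat_lit 3360, nat_lit 12048, R11_315, R0_70, R10_251⟩]⟩]⟩,
 ⟨nat_lit 7, [⟨nat_lit 7, [⟨nat_lit 7, nat_lit 10368, nat_lit 8736, nat_lit 12048, nat_lit 3360, nat_lit 15120, R10_251, R0_70, R11_315⟩]⟩]⟩]], [[⟨nat_lit 4, [⟨nat_lit 7, [⟨nat_lit 3, nat_lit 1440, nat_lit 7872, nat_lit 6864, nat_lit 4512, nat_lit 10176, R3_143, R2_94, R2_212⟩]⟩]⟩,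
 ⟨nat_lit 7, [⟨nat_lit 3, [⟨nat_lit 3, nat_lit 10800, nat_lit 9456, nat_lit 9216, nat_lit 16368, nat_lit 17136, R1_192, R12_341, R3_357⟩]⟩, ⟨nat_lit 7, [⟨nat_lit 3, nat_lit 10896, nat_lit 7920, nat_lit 10656, nat_lit 16416, nat_lit 10224, R10_222, R12_342, R2_213⟩]⟩]⟩], [⟨nat_lit 7, [⟨nat_lit 3, [⟨nat_lit 3, nat_lit 10848, nat_lit 8976, nat_lit 9984, nat_lit 16512, nat_lit 13872, R1_208, R12_344, R0_289⟩]⟩]⟩]]], [[[], [], [⟨nat_lit 4, [⟨nat_lit 4, [⟨nat_lit 4, nat_lit 96, nat_lit 1824, nat_lit 4320, nat_lit 9648, nat_lit 2016, R8_90, R6_201, R4_42⟩, ⟨nat_lit 7, nat_lit 336, nat_lit 10272, nat_lit 9168, nat_lit 21648, nat_lit 2256, R8_191, R13_451, R5_47⟩]⟩, ⟨nat_lit 7, [⟨nat_lit 7, nat_lit 384, nat_lit 10320, nat_lit 4560, nat_lit 21696, nat_lit 14496, R9_95, R13_452, R11_302⟩]⟩]⟩,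
 ⟨nat_lit 6, [⟨nat_lit 4, [⟨nat_lit 4, nat_lit 7392, nat_lit 2304, nat_lit 17760, nat_lit 5424, nat_lit 7536, R9_370, R8_113, R4_157⟩, ⟨nat_lit 7, nat_lit 7920, nat_lit 11136, nat_lit 18000, nat_lit 18048, nat_lit 11088, R9_375, R9_376, R5_231⟩]⟩, ⟨nat_lit 6, [⟨nat_lit 4, nat_lit 7440, nat_lit 2352, nat_lit 2016, nat_lit 5952, nat_lit 2592, R0_42, R8_124, R3_54⟩, ⟨nat_lit 6, nat_lit 7584, nat_lit 13536, nat_lit 7056, nat_lit 17712, nat_lit 11856, R0_147, R5_369, R10_247⟩, ⟨nat_lit 7, nat_lit 7968, nat_lit 11184, nat_lit 9168, nat_lit 18096, nat_lit 9072, R0_191, R9_377, R0_189⟩]⟩]⟩,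
 ⟨nat_lit 7, [⟨nat_lit 7, [⟨nat_lit 3, nat_lit 9840, nat_lit 16800, nat_lit 12576, nat_lit 15696, nat_lit 8496, R0_262, R2_327, R1_177⟩, ⟨nat_lit 7, nat_lit 9984, nat_lit 10560, nat_lit 2784, nat_lit 9552, nat_lit 14544, R0_58, R3_199, R11_303⟩]⟩]⟩]], [], [[], [], [⟨nat_lit 4, [⟨nat_lit 4, [⟨nat_lit 4, nat_lit 672, nat_lit 11040, nat_lit 4368, nat_lit 960, nat_lit 2496, R8_91, R8_20, R4_52⟩, ⟨nat_lit 7, nat_lit 1152, nat_lit 11088, nat_lit 9264, nat_lit 6144, nat_lit 2496, R8_193, R9_128, R5_52⟩]⟩, ⟨nat_lit 7, [⟨nat_lit 7, nat_lit 1200, nat_lit 13680, nat_lit 7152, nat_lit 6816, nat_lit 14928, R9_149, R9_142, R11_311⟩]⟩]⟩,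
 ⟨nat_lit 6, [⟨nat_lit 4, [⟨nat_lit 4, nat_lit 8496, nat_lit 12480, nat_lit 17856, nat_lit 4800, nat_lit 7824, R9_372, R9_100, R4_163⟩]⟩, ⟨nat_lit 6, [⟨nat_lit 4, nat_lit 8592, nat_lit 15312, nat_lit 2064, nat_lit 5184, nat_lit 7344, R0_43, R9_108, R3_153⟩, ⟨nat_lit 6, nat_lit 8784, nat_lit 15360, nat_lit 7104, nat_lit 3408, nat_lit 12000, R0_148, R0_71, R10_250⟩]⟩]⟩,
 ⟨nat_lit 7, [⟨nat_lit 7, [⟨nat_lit 7, nat_lit 10416, nat_lit 14160, nat_lit 4752, nat_lit 4896, nat_lit 14976, R0_99, R0_102, R11_312⟩]⟩]⟩], [], [], [], [⟨nat_lit 4, [⟨nat_lit 4, [⟨nat_lit 4, nat_lit 720, nat_lit 9600, nat_lit 3936, nat_lit 1440, nat_lit 2448, R8_82, R8_30, R7_51⟩, ⟨nat_lit 5, nat_lit 816, nat_lit 9648, nat_lit 11904, nat_lit 6384, nat_lit 20064, R8_248, R5_133, R14_418⟩]⟩, ⟨nat_lit 5, [⟨nat_lit 5, nat_lit 864, nat_lit 9888, nat_lit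 7632, nat_lit 7248, nat_lit 15840, R5_159, R5_151, R12_330⟩]⟩, ⟨nat_lit 7, [⟨nat_lit 4, nat_lit 768, nat_lit 10032, nat_lit 6288, nat_lit 7392, nat_lit 2640, R9_131, R8_154, R2_55⟩, ⟨nat_lit 5, nat_lit 912, nat_lit 10080, nat_lit 7488, nat_lit 6816, nat_lit 7344, R9_156, R5_142, R12_153⟩, ⟨nat_lit 7, nat_lit 1248, nat_lit 10128, nat_lit 7104, nat_lit 6864, nat_lit 2112, R9_148, R9_143, R1_44⟩]⟩]⟩,
 ⟨nat_lit 6, [⟨nat_lit 4, [⟨nat_lit 4, nat_lit 8544, nat_lit 9792, nat_lit 12000, nat_lit 14304, nat_lit 7872, R9_250, R9_298, R7_164⟩, ⟨nat_lit 5, nat_lit 8880, nat_lit 9840, nat_lit 12672, nat_lit 13008, nat_lit 20736, R9_264, R0_271, R14_432⟩]⟩, ⟨nat_lit 5, [⟨nat_lit 5, nat_lit 8976, nat_lit 9984, nat_lit 10848, nat_lit 13872, nat_lit 16512, R0_226, R0_289, R12_344⟩]⟩, ⟨nat_lit 6, [⟨nat_lit 4, nat_lit 8640, nat_lit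 10368, nat_lit 1584, nat_lit 15024, nat_lit 6720, R0_33, R9_313, R2_140⟩, ⟨nat_lit 5, nat_lit 8928, nat_lit 10416, nat_lit 11040, nat_lit 13728, nat_lit 16752, R0_230, R0_286, R12_349⟩, ⟨nat_lit 6, nat_lit 8832, nat_lit 10464, nat_lit 6624, nat_lit 3888, nat_lit 5424, R0_138, R0_81, R1_113⟩]⟩]⟩,
 ⟨nat_lit 7, [⟨nat_lit 7, [⟨nat_lit 7, nat_lit 10464, nat_lit 10320, nat_lit 5088, nat_lit 4560, nat_lit 7488, R0_106, R0_95, R1_156⟩]⟩]⟩]], [[], [], [⟨nat_lit 4, [⟨nat_lit 4, [⟨nat_lit 7, nat_lit 2016, nat_lit 7440, nat_lit 9216, nat_lit 2592, nat_lit 2352, R8_192, R3_54, R5_49⟩]⟩, ⟨nat_lit 7, [⟨nat_lit 3, nat_lit 1584, nat_lit 8640, nat_lit 6048, nat_lit 6720, nat_lit 10368, R9_126, R2_140, R1_216⟩, ⟨nat_lit 7, nat_lit 2064, nat_lit 8592, nat_lit 5568, nat_lit 7344, nat_lit 15312, R9_116, R3_153, R11_319⟩]⟩]⟩,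
 ⟨nat_lit 6, [⟨nat_lit 4, [⟨nat_lit 7, nat_lit 9168, nat_lit 7968, nat_lit 18096, nat_lit 9072, nat_lit 11184, R9_377, R0_189, R5_233⟩]⟩, ⟨nat_lit 6, [⟨nat_lit 7, nat_lit 9216, nat_lit 9216, nat_lit 9216, nat_lit 9216, nat_lit 9216, R0_192, R0_192, R0_192⟩]⟩]⟩,
 ⟨nat_lit 7, [⟨nat_lit 7, [⟨nat_lit 3, nat_lit 11040, nat_lit 8928, nat_lit 13728, nat_lit 16752, nat_lit 10416, R0_286, R12_349, R1_217⟩]⟩]⟩]]], [[], [], [], [[⟨nat_lit 4, [⟨nat_lit 3, [⟨nat_lit 3, nat_lit 1680, nat_lit 14448, nat_lit 6096, nat_lit 5616, nat_lit 14544, R2_127, R2_117, R3_303⟩]⟩, ⟨nat_lit 7, [⟨nat_lit 3, nat_lit 1824, nat_lit 12864, nat_lit 13296, nat_lit 4992, nat_lit 9936, R3_277, R2_104, R2_207⟩]⟩]⟩,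
 ⟨nat_lit 5, [⟨nat_lit 3, [⟨nat_lit 3, nat_lit 6720, nat_lit 15072, nat_lit 4800, nat_lit 4320, nat_lit 15120, R1_100, R1_90, R3_315⟩]⟩, ⟨nat_lit 7, [⟨nat_lit 3, nat_lit 6864, nat_lit 12960, nat_lit 5520, nat_lit 3696, nat_lit 9984, R10_115, R1_77, R2_208⟩]⟩]⟩,
 ⟨nat_lit 7, [⟨nat_lit 3, [⟨nat_lit 3, nat_lit 11136, nat_lit 14880, nat_lit 7920, nat_lit 16560, nat_lit 15024, R12_165, R12_345, R3_313⟩]⟩]⟩], [⟨nat_lit 4, [⟨nat_lit 3, [⟨nat_lit 3, nat_lit 1776, nat_lit 11520, nat_lit 6144, nat_lit 5712, nat_lit 11472, R2_128, R2_119, R0_239⟩]⟩]⟩,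
 ⟨nat_lit 5, [⟨nat_lit 3, [⟨nat_lit 3, nat_lit 6816, nat_lit 11616, nat_lit 4848, nat_lit 4416, nat_lit 14352, R1_101, R1_92, R0_299⟩]⟩]⟩,
 ⟨nat_lit 7, [⟨nat_lit 3, [⟨nat_lit 3, nat_lit 11232, nat_lit 11568, nat_lit 7968, nat_lit 16656, nat_lit 13824, R12_166, R12_347, R0_288⟩]⟩]⟩], [⟨nat_lit 4, [⟨nat_lit 3, [⟨nat_lit 3, nat_lit 1728, nat_lit 11424, nat_lit 6192, nat_lit 5664, nat_lit 11664, R2_129, R2_118, R10_243⟩]⟩, ⟨nat_lit 7, [⟨nat_lit 3, nat_lit 1872, nat_lit 11808, nat_lit 13488, nat_lit 5040, nat_lit 10752, R3_281, R2_105, R1_224⟩, ⟨nat_lit 7, nat_lit 2112, nat_lit 12096, nat_lit 5376, nat_lit 5808, nat_lit 15408, R3_112, R3_121, R11_321⟩]⟩]⟩,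
 ⟨nat_lit 5, [⟨nat_lit 3, [⟨nat_lit 3, nat_lit 6768, nat_lit 14016, nat_lit 4896, nat_lit 4368, nat_lit 11760, R1_102, R1_91, R10_245⟩]⟩, ⟨nat_lit 7, [⟨nat_lit 3, nat_lit 6912, nat_lit 14064, nat_lit 5568, nat_lit 3744, nat_lit 10800, R10_116, R1_78, R1_225⟩, ⟨nat_lit 7, nat_lit 7152, nat_lit 14208, nat_lit 4992, nat_lit 4416, nat_lit 15504, R10_104, R10_92, R11_323⟩]⟩]⟩,
 ⟨nat_lit 6, [⟨nat_lit 7, [⟨nat_lit 7, nat_lit 9264, nat_lit 14976, nat_lit 15072, nat_lit 8208, nat_lit 15456, R0_314, R0_171, R11_322⟩]⟩]⟩,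
 ⟨nat_lit 7, [⟨nat_lit 3, [⟨nat_lit 3, nat_lit 11184, nat_lit 13200, nat_lit 8016, nat_lit 16608, nat_lit 11712, R12_167, R12_346, R10_244⟩]⟩]⟩]]], [], [[], [[], [⟨nat_lit 0, [⟨nat_lit 0, [⟨nat_lit 0, nat_lit 11520, nat_lit 10512, nat_lit 864, nat_lit 1776, nat_lit 4224, R7_18, R4_37, R8_88⟩, ⟨nat_lit 2, nat_lit 11760, nat_lit 10560, nat_lit 6864, nat_lit 12672, nat_lit 12048, R7_143, R3_264, R9_251⟩]⟩, ⟨nat_lit 2, [⟨nat_lit 2, nat_lit 11808, nat_lit 10752, nat_lit 5040, nat_lit 13488, nat_lit 1872, R2_105, R3_281, R0_39⟩]⟩, ⟨nat_lit 3, [⟨nat_lit 0, nat_lit 11568, nat_lit 10608, nat_lit 2208, nat_lit 8496, nat_lit 10272, R2_46, R4_177, R9_214⟩]⟩]⟩,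
 ⟨nat_lit 2, [⟨nat_lit 2, [⟨nat_lit 2, nat_lit 14064, nat_lit 10800, nat_lit 3744, nat_lit 19776, nat_lit 6912, R1_78, R10_412, R0_144⟩]⟩]⟩,
 ⟨nat_lit 3, [⟨nat_lit 3, [⟨nat_lit 0, nat_lit 14400, nat_lit 10656, nat_lit 1680, nat_lit 6768, nat_lit 10560, R1_35, R5_141, R9_220⟩, ⟨nat_lit 3, nat_lit 15120, nat_lit 10704, nat_lit 7104, nat_lit 21984, nat_lit 5424, R1_148, R11_458, R0_113⟩]⟩]⟩]], [], [], [], [[], [⟨nat_lit 0, [⟨nat_lit 0, [⟨nat_lit 0, nat_lit 11280, nat_lit 13248, nat_lit 1440, nat_lit 1920, nat_lit 4080, R7_30, R7_40, R8_85⟩, ⟨nat_lit 2, nat_lit 11376, nat_lit 13392, nat_lit 7440, nat_lit 480, nat_lit 12096, R7_155, R2_10, R9_252⟩]⟩, ⟨nat_lit 2, [⟨nat_lit 2, nat_lit 11424, nat_lit 13920, nat_lit 5664, nat_lit 6192, nat_lit 1728, R2_118, R2_129, R0_36⟩]⟩, ⟨nat_lit 3, [⟨nat_lit 0, nat_lit 11328, nat_lit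 13536, nat_lit 432, nat_lit 8544, nat_lit 12144, R2_9, R7_178, R9_253⟩, ⟨nat_lit 3, nat_lit 11472, nat_lit 13680, nat_lit 6144, nat_lit 5712, nat_lit 1776, R2_128, R2_119, R0_37⟩]⟩]⟩,
 ⟨nat_lit 1, [⟨nat_lit 0, [⟨nat_lit 0, nat_lit 12864, nat_lit 16080, nat_lit 20016, nat_lit 6576, nat_lit 12048, R14_417, R14_137, R8_251⟩, ⟨nat_lit 1, nat_lit 13488, nat_lit 16128, nat_lit 21312, nat_lit 4560, nat_lit 14112, R14_444, R12_95, R5_294⟩, ⟨nat_lit 2, nat_lit 13152, nat_lit 16272, nat_lit 20688, nat_lit 7728, nat_lit 12768, R14_431, R12_161, R9_266⟩]⟩, ⟨nat_lit 1, [⟨nat_lit 0, nat_lit 12912, nat_lit 17712, nat_lit 15792, nat_lit 7872, nat_lit 14208, R12_329, R14_164, R5_296⟩, ⟨nat_lit 1, nat_lit 13536, nat_lit 17760, nat_lit 17088, nat_lit 5856, nat_lit 17280, R12_356, R12_122, R11_360⟩, ⟨nat_lit 2, nat_lit 13248, nat_lit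 17856, nat_lit 16464, nat_lit 9600, nat_lit 10944, R12_343, R12_200, R0_228⟩]⟩, ⟨nat_lit 2, [⟨nat_lit 2, nat_lit 13200, nat_lit 18288, nat_lit 16608, nat_lit 8016, nat_lit 11184, R12_346, R12_167, R0_233⟩]⟩, ⟨nat_lit 3, [⟨nat_lit 0, nat_lit 12960, nat_lit 16896, nat_lit 7632, nat_lit 7344, nat_lit 12912, R12_159, R14_153, R9_269⟩, ⟨nat_lit 1, nat_lit 13632, nat_lit 17088, nat_lit 9456, nat_lit 5328, nat_lit 11088, R12_197, R12_111, R0_231⟩, ⟨nat_lit 3, nat_lit 13824, nat_lit 17040, nat_lit 7968, nat_lit 16656, nat_lit 11232, R12_166, R12_347, R0_234⟩]⟩]⟩,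
 ⟨nat_lit 2, [⟨nat_lit 2, [⟨nat_lit 2, nat_lit 14016, nat_lit 19584, nat_lit 4368, nat_lit 4896, nat_lit 6768, R1_91, R1_102, R0_141⟩]⟩]⟩,
 ⟨nat_lit 3, [⟨nat_lit 3, [⟨nat_lit 3, nat_lit 14352, nat_lit 19152, nat_lit 4848, nat_lit 4416, nat_lit 6816, R1_101, R1_92, R0_142⟩]⟩]⟩]]]]
noncomputable def N2200 : T3 (List N0) := [[[[⟨nat_lit 0, [⟨nat_lit 0, [⟨nat_lit 2, nat_lit 4512, nat_lit 192, nat_lit 528, nat_lit 15840, nat_lit 5328, R6_11, R6_330, R6_111⟩]⟩, ⟨nat_lit 2, [⟨nat_lit 2, nat_lit 5616, nat_lit 2496, nat_lit 384, nat_lit 15888, nat_lit 5616, R8_8, R6_331, R4_117⟩]⟩]⟩,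
 ⟨nat_lit 2, [⟨nat_lit 2, [⟨nat_lit 2, nat_lit 5808, nat_lit 10176, nat_lit 4368, nat_lit 14928, nat_lit 5664, R5_91, R4_311, R4_118⟩, ⟨nat_lit 6, nat_lit 12384, nat_lit 10512, nat_lit 4416, nat_lit 17280, nat_lit 5520, R5_92, R7_360, R7_115⟩]⟩]⟩,
 ⟨nat_lit 3, [⟨nat_lit 0, [⟨nat_lit 2, nat_lit 4752, nat_lit 5040, nat_lit 4464, nat_lit 17568, nat_lit 5376, R13_93, R8_366, R6_112⟩]⟩, ⟨nat_lit 2, [⟨nat_lit 2, nat_lit 6048, nat_lit 7056, nat_lit 3696, nat_lit 17616, nat_lit 5712, R9_77, R8_367, R4_119⟩]⟩, ⟨nat_lit 3, [⟨nat_lit 0, nat_lit 1872, nat_lit 5952, nat_lit 0, nat_lit 14448, nat_lit 8256, R3_0, R6_301, R6_172⟩, ⟨nat_lit 2, nat_lit 7392, nat_lit 6384, nat_lit 288, nat_lit 17664, nat_lit 5136, R3_6, R8_368, R8_107⟩, ⟨nat_lit 3, nat_lit 10800, nat_lit 6096, nat_lit 144, nat_lit 14112, nat_lit 8688, R3_3, R4_294,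 R4_181⟩]⟩]⟩], [⟨nat_lit 0, [⟨nat_lit 0, [⟨nat_lit 2, nat_lit 5136, nat_lit 96, nat_lit 1104, nat_lit 15936, nat_lit 6048, R6_23, R6_332, R13_126⟩]⟩, ⟨nat_lit 1, [⟨nat_lit 2, nat_lit 6768, nat_lit 672, nat_lit 1008, nat_lit 16032, nat_lit 4320, R4_21, R6_334, R3_90⟩]⟩, ⟨nat_lit 2, [⟨nat_lit 2, nat_lit 6288, nat_lit 2400, nat_lit 480, nat_lit 15984, nat_lit 720, R8_10, R6_333, R3_15⟩]⟩]⟩,
 ⟨nat_lit 2, [⟨nat_lit 2, [⟨nat_lit 2, nat_lit 6432, nat_lit 11232, nat_lit 5136, nat_lit 14976, nat_lit 864, R5_107, R4_312, R3_18⟩, ⟨nat_lit 6, nat_lit 12912, nat_lit 11376, nat_lit 5184, nat_lit 17376, nat_lit 3984, R5_108, R7_362, R2_83⟩]⟩]⟩,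
 ⟨nat_lit 3, [⟨nat_lit 0, [⟨nat_lit 0, nat_lit 96, nat_lit 5136, nat_lit 6048, nat_lit 15936, nat_lit 1104, R13_126, R6_332, R6_23⟩, ⟨nat_lit 2, nat_lit 5328, nat_lit 5328, nat_lit 6096, nat_lit 17712, nat_lit 6096, R13_127, R8_369, R13_127⟩]⟩, ⟨nat_lit 1, [⟨nat_lit 0, nat_lit 672, nat_lit 6768, nat_lit 4320, nat_lit 16032, nat_lit 1008, R3_90, R6_334, R4_21⟩, ⟨nat_lit 2, nat_lit 7056, nat_lit 7056, nat_lit 4368, nat_lit 17856, nat_lit 4368, R3_91, R8_372, R3_91⟩]⟩, ⟨nat_lit 2, [⟨nat_lit 2, nat_lit 6624, nat_lit 7728, nat_lit 4608, nat_lit 17760, nat_lit 1008, R9_96, R8_370, R3_21⟩]⟩, ⟨nat_lit 3, [⟨nat_lit 0, nat_lit 2400, nat_lit 6288, nat_lit 720, nat_lit 15984, nat_lit 480, R3_15, R6_333, R8_10⟩, ⟨nat_lit 2, nat_lit 7728, nat_lit 6624, nat_lit 1008, nat_lit 17808, nat_lit 4608, R3_21, R8_371, R9_96⟩, ⟨nat_lit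 3, nat_lit 11232, nat_lit 6432, nat_lit 864, nat_lit 14976, nat_lit 5136, R3_18, R4_312, R5_107⟩]⟩]⟩], [⟨nat_lit 2, [⟨nat_lit 2, [⟨nat_lit 6, nat_lit 12576, nat_lit 10656, nat_lit 6000, nat_lit 17328, nat_lit 7680, R5_125, R7_361, R2_160⟩]⟩]⟩]], [], [[], [], [⟨nat_lit 2, [⟨nat_lit 2, [⟨nat_lit 6, nat_lit 12720, nat_lit 7392, nat_lit 6912, nat_lit 14736, nat_lit 7824, R5_144, R2_307, R2_163⟩]⟩]⟩]], [[⟨nat_lit 3, [⟨nat_lit 0, [⟨nat_lit 2, nat_lit 4944, nat_lit 5520, nat_lit 4992, nat_lit 3264, nat_lit 5424, R13_104, R5_68, R6_113⟩]⟩, ⟨nat_lit 2, [⟨nat_lit 2, nat_lit 6144, nat_lit 9072, nat_lit 3936, nat_lit 3600, nat_lit 5760, R9_82, R5_75, R4_120⟩]⟩, ⟨nat_lit 3, [⟨nat_lit 0, nat_lit 2064, nat_lit 7200, nat_lit 3744, nat_lit 240, nat_lit 8592, R3_78, R4_5, R6_179⟩, ⟨nat_lit 2, nat_lit 7584, nat_lit 7248, nat_lit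 3888, nat_lit 3840, nat_lit 5184, R3_81, R5_80, R8_108⟩]⟩]⟩], [⟨nat_lit 3, [⟨nat_lit 0, [⟨nat_lit 0, nat_lit 240, nat_lit 3744, nat_lit 6528, nat_lit 2064, nat_lit 1200, R13_136, R4_43, R6_25⟩, ⟨nat_lit 2, nat_lit 5472, nat_lit 3792, nat_lit 6576, nat_lit 3456, nat_lit 6144, R13_137, R5_72, R13_128⟩]⟩, ⟨nat_lit 1, [⟨nat_lit 0, nat_lit 816, nat_lit 5472, nat_lit 4896, nat_lit 2784, nat_lit 1104, R3_102, R4_58, R4_23⟩, ⟨nat_lit 2, nat_lit 7200, nat_lit 5520, nat_lit 4944, nat_lit 4224, nat_lit 4416, R3_103, R5_88, R3_92⟩]⟩, ⟨nat_lit 2, [⟨nat_lit 2, nat_lit 6672, nat_lit 7152, nat_lit 4848, nat_lit 3744, nat_lit 1056, R9_101, R5_78, R3_22⟩]⟩, ⟨nat_lit 3, [⟨nat_lit 0, nat_lit 2544, nat_lit 6048, nat_lit 6048, nat_lit 2544, nat_lit 864, R3_126, R4_53, R8_18⟩, ⟨nat_lit 2, nat_lit 7872, nat_lit 6096, nat_lit 6192,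 nat_lit 4128, nat_lit 4656, R3_129, R5_86, R9_97⟩]⟩]⟩], [], [⟨nat_lit 3, [⟨nat_lit 3, [⟨nat_lit 0, nat_lit 2784, nat_lit 4896, nat_lit 5472, nat_lit 816, nat_lit 1104, R3_114, R4_17, R4_23⟩, ⟨nat_lit 2, nat_lit 7968, nat_lit 5184, nat_lit 5616, nat_lit 3984, nat_lit 96, R3_117, R5_83, R5_2⟩]⟩]⟩]]], [[[⟨nat_lit 0, [⟨nat_lit 0, [⟨nat_lit 2, nat_lit 4608, nat_lit 15216, nat_lit 4464, nat_lit 16080, nat_lit 5664, R8_93, R6_335, R6_118⟩]⟩, ⟨nat_lit 2, [⟨nat_lit 2, nat_lit 5712, nat_lit 15360, nat_lit 0, nat_lit 16128, nat_lit 6048, R9_0, R6_336, R4_126⟩]⟩]⟩,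
 ⟨nat_lit 3, [⟨nat_lit 0, [⟨nat_lit 2, nat_lit 4848, nat_lit 15792, nat_lit 13104, nat_lit 17904, nat_lit 5712, R9_273, R8_373, R6_119⟩]⟩]⟩], [⟨nat_lit 0, [⟨nat_lit 0, [⟨nat_lit 2, nat_lit 5184, nat_lit 1488, nat_lit 4512, nat_lit 16176, nat_lit 6240, R8_94, R6_337, R13_130⟩]⟩, ⟨nat_lit 1, [⟨nat_lit 2, nat_lit 6816, nat_lit 1584, nat_lit 0, nat_lit 16272, nat_lit 4512, R5_0, R6_339, R3_94⟩]⟩, ⟨nat_lit 2, [⟨nat_lit 2, nat_lit 6336, nat_lit 1680, nat_lit 96, nat_lit 16224, nat_lit 768, R9_2, R6_338, R3_16⟩]⟩]⟩,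
 ⟨nat_lit 3, [⟨nat_lit 0, [⟨nat_lit 0, nat_lit 144, nat_lit 8496, nat_lit 13488, nat_lit 16608, nat_lit 1152, R9_281, R6_346, R6_24⟩, ⟨nat_lit 2, nat_lit 5376, nat_lit 9936, nat_lit 13728, nat_lit 18000, nat_lit 6288, R9_286, R8_375, R13_131⟩]⟩]⟩]], [[⟨nat_lit 0, [⟨nat_lit 0, [⟨nat_lit 2, nat_lit 4656, nat_lit 1200, nat_lit 4704, nat_lit 21312, nat_lit 5808, R8_98, R13_444, R6_121⟩]⟩, ⟨nat_lit 2, [⟨nat_lit 2, nat_lit 5760, nat_lit 3600, nat_lit 4368, nat_lit 21360, nat_lit 6144, R9_91, R13_445, R4_128⟩]⟩]⟩,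
 ⟨nat_lit 1, [⟨nat_lit 0, [⟨nat_lit 2, nat_lit 4704, nat_lit 1296, nat_lit 14304, nat_lit 17376, nat_lit 5904, R5_298, R3_362, R6_123⟩]⟩]⟩,
 ⟨nat_lit 3, [⟨nat_lit 0, [⟨nat_lit 2, nat_lit 4896, nat_lit 1248, nat_lit 13200, nat_lit 17712, nat_lit 5856, R9_275, R9_369, R6_122⟩]⟩]⟩], [⟨nat_lit 0, [⟨nat_lit 0, [⟨nat_lit 0, nat_lit 0, nat_lit 144, nat_lit 0, nat_lit 4272, nat_lit 1056, R8_0, R6_89, R6_22⟩, ⟨nat_lit 2, nat_lit 5232, nat_lit 768, nat_lit 4752, nat_lit 21408, nat_lit 6384, R8_99, R13_446, R13_133⟩]⟩, ⟨nat_lit 1, [⟨nat_lit 0, nat_lit 480, nat_lit 1344, nat_lit 4752, nat_lit 4320, nat_lit 960, R5_99, R6_90, R4_20⟩, ⟨nat_lit 2, nat_lit 6864, nat_lit 1488, nat_lit 5040, nat_lit 21504, nat_lit 4656, R5_105, R13_448, R3_97⟩]⟩, ⟨nat_lit 2, [⟨nat_lit 2, nat_lit 6384, nat_lit 3600, nat_lit 4464, nat_lit 21456,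 nat_lit 816, R9_93, R13_447, R3_17⟩]⟩]⟩,
 ⟨nat_lit 1, [⟨nat_lit 0, [⟨nat_lit 0, nat_lit 48, nat_lit 240, nat_lit 14496, nat_lit 4368, nat_lit 1392, R5_302, R4_91, R6_29⟩, ⟨nat_lit 2, nat_lit 5280, nat_lit 864, nat_lit 14688, nat_lit 17472, nat_lit 6480, R5_306, R3_364, R13_135⟩]⟩, ⟨nat_lit 1, [⟨nat_lit 0, nat_lit 528, nat_lit 1440, nat_lit 18000, nat_lit 4416, nat_lit 1392, R11_375, R4_92, R4_29⟩, ⟨nat_lit 2, nat_lit 6912, nat_lit 1584, nat_lit 18192, nat_lit 17568, nat_lit 4752, R11_379, R3_366, R3_99⟩]⟩]⟩,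
 ⟨nat_lit 3, [⟨nat_lit 0, [⟨nat_lit 0, nat_lit 192, nat_lit 192, nat_lit 13584, nat_lit 1584, nat_lit 1344, R9_283, R8_33, R6_28⟩, ⟨nat_lit 2, nat_lit 5424, nat_lit 816, nat_lit 13824, nat_lit 17808, nat_lit 6432, R9_288, R9_371, R13_134⟩]⟩]⟩]], [], [[⟨nat_lit 3, [⟨nat_lit 0, [⟨nat_lit 2, nat_lit 5040, nat_lit 1920, nat_lit 13152, nat_lit 3312, nat_lit 5760, R9_274, R5_69, R6_120⟩]⟩]⟩]]], [[[⟨nat_lit 0, [⟨nat_lit 0, [⟨nat_lit 2, nat_lit 4560, nat_lit 14064, nat_lit 8592, nat_lit 16320, nat_lit 5472, R4_179, R6_340, R6_114⟩]⟩, ⟨nat_lit 2, [⟨nat_lit 2, nat_lit 5664, nat_lit 14928, nat_lit 4368, nat_lit 16368, nat_lit 5808, R5_91, R6_341, R4_121⟩]⟩]⟩,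
 ⟨nat_lit 2, [⟨nat_lit 2, [⟨nat_lit 2, nat_lit 5856, nat_lit 15120, nat_lit 4368, nat_lit 15120, nat_lit 5856, R11_91, R4_315, R4_122⟩, ⟨nat_lit 6, nat_lit 12432, nat_lit 11856, nat_lit 4416, nat_lit 17568, nat_lit 5568, R11_92, R7_366, R7_116⟩]⟩, ⟨nat_lit 6, [⟨nat_lit 6, nat_lit 13056, nat_lit 11040, nat_lit 2592, nat_lit 17616, nat_lit 8928, R1_54, R7_367, R4_186⟩]⟩]⟩,
 ⟨nat_lit 3, [⟨nat_lit 0, [⟨nat_lit 2, nat_lit 4800, nat_lit 14160, nat_lit 11376, nat_lit 18144, nat_lit 5520, R3_237, R8_378, R6_115⟩]⟩, ⟨nat_lit 3, [⟨nat_lit 0, nat_lit 1920, nat_lit 12240, nat_lit 2736, nat_lit 15120, nat_lit 8304, R10_57, R6_315, R6_173⟩, ⟨nat_lit 2, nat_lit 7440, nat_lit 14640, nat_lit 2832, nat_lit 18240, nat_lit 5232, R10_59, R8_380, R8_109⟩, ⟨nat_lit 3, nat_lit 10848, nat_lit 13104, nat_lit 2784, nat_lit 14544, nat_lit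 8880, R10_58, R4_303, R4_185⟩]⟩]⟩,
 ⟨nat_lit 4, [⟨nat_lit 4, [⟨nat_lit 7, nat_lit 14064, nat_lit 4560, nat_lit 8592, nat_lit 16320, nat_lit 5472, R4_179, R6_340, R6_114⟩]⟩, ⟨nat_lit 7, [⟨nat_lit 7, nat_lit 14928, nat_lit 5664, nat_lit 4368, nat_lit 16368, nat_lit 5808, R5_91, R6_341, R4_121⟩]⟩]⟩,
 ⟨nat_lit 6, [⟨nat_lit 4, [⟨nat_lit 7, nat_lit 14160, nat_lit 4800, nat_lit 11376, nat_lit 18144, nat_lit 5520, R3_237, R8_378, R6_115⟩]⟩, ⟨nat_lit 6, [⟨nat_lit 4, nat_lit 12240, nat_lit 1920, nat_lit 2736, nat_lit 15120, nat_lit 8304, R10_57, R6_315, R6_173⟩, ⟨nat_lit 6, nat_lit 13104, nat_lit 10848, nat_lit 2784, nat_lit 14544, nat_lit 8880, R10_58, R4_303, R4_185⟩, ⟨nat_lit 7, nat_lit 14640, nat_lit 7440, nat_lit 2832, nat_lit 18240, nat_lit 5232, R10_59, R8_380, R8_109⟩]⟩]⟩,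
 ⟨nat_lit 7, [⟨nat_lit 3, [⟨nat_lit 3, nat_lit 11040, nat_lit 13056, nat_lit 2592, nat_lit 17616, nat_lit 8928, R1_54, R7_367, R4_186⟩]⟩, ⟨nat_lit 7, [⟨nat_lit 3, nat_lit 11856, nat_lit 12432, nat_lit 4416, nat_lit 17568, nat_lit 5568, R11_92, R7_366, R7_116⟩, ⟨nat_lit 7, nat_lit 15120, nat_lit 5856, nat_lit 4368, nat_lit 15120, nat_lit 5856, R11_91, R4_315, R4_122⟩]⟩]⟩], [], [⟨nat_lit 2, [⟨nat_lit 2, [⟨nat_lit 6, nat_lit 12624, nat_lit 12768, nat_lit 5616, nat_lit 17664, nat_lit 7728, R11_117, R7_368, R2_161⟩]⟩, ⟨nat_lit 6, [⟨nat_lit 6, nat_lit 13152, nat_lit 12864, nat_lit 2640, nat_lit 17712, nat_lit 15168, R1_55, R7_369, R3_316⟩]⟩]⟩,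
 ⟨nat_lit 4, [⟨nat_lit 4, [⟨nat_lit 7, nat_lit 14256, nat_lit 8016, nat_lit 8976, nat_lit 17088, nat_lit 13488, R4_187, R6_356, R8_281⟩]⟩, ⟨nat_lit 7, [⟨nat_lit 7, nat_lit 15168, nat_lit 8160, nat_lit 4656, nat_lit 17136, nat_lit 8784, R5_97, R6_357, R5_183⟩]⟩]⟩,
 ⟨nat_lit 6, [⟨nat_lit 4, [⟨nat_lit 4, nat_lit 12144, nat_lit 1008, nat_lit 16032, nat_lit 15168, nat_lit 13584, R3_334, R6_316, R6_283⟩, ⟨nat_lit 7, nat_lit 14400, nat_lit 9264, nat_lit 16368, nat_lit 19008, nat_lit 13776, R3_341, R8_396, R8_287⟩]⟩, ⟨nat_lit 6, [⟨nat_lit 4, nat_lit 12288, nat_lit 1152, nat_lit 2976, nat_lit 15216, nat_lit 10608, R10_62, R6_317, R13_221⟩, ⟨nat_lit 6, nat_lit 13248, nat_lit 13200, nat_lit 3024, nat_lit 14592, nat_lit 15264, R10_63, R4_304, R3_318⟩, ⟨nat_lit 7, nat_lit 14736, nat_lit 9504, nat_lit 3072, nat_lit 19104,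 nat_lit 8256, R10_64, R8_398, R9_172⟩]⟩]⟩,
 ⟨nat_lit 7, [⟨nat_lit 7, [⟨nat_lit 7, nat_lit 15456, nat_lit 8880, nat_lit 4656, nat_lit 15456, nat_lit 8880, R11_97, R4_322, R5_185⟩]⟩]⟩]], [], [[], [], [⟨nat_lit 2, [⟨nat_lit 2, [⟨nat_lit 6, nat_lit 12768, nat_lit 7008, nat_lit 6528, nat_lit 14880, nat_lit 7872, R11_136, R2_310, R2_164⟩]⟩, ⟨nat_lit 6, [⟨nat_lit 6, nat_lit 13200, nat_lit 8976, nat_lit 2688, nat_lit 14832, nat_lit 15216, R1_56, R2_309, R3_317⟩]⟩]⟩,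
 ⟨nat_lit 4, [⟨nat_lit 4, [⟨nat_lit 4, nat_lit 12096, nat_lit 7488, nat_lit 3168, nat_lit 10752, nat_lit 13536, R4_66, R6_224, R6_282⟩, ⟨nat_lit 5, nat_lit 13344, nat_lit 7584, nat_lit 11616, nat_lit 11616, nat_lit 13344, R4_242, R4_242, R4_278⟩, ⟨nat_lit 7, nat_lit 14304, nat_lit 7536, nat_lit 9072, nat_lit 9360, nat_lit 13584, R4_189, R8_195, R8_283⟩]⟩, ⟨nat_lit 7, [⟨nat_lit 7, nat_lit 15216, nat_lit 8400, nat_lit 6288, nat_lit 9840, nat_lit 8928, R5_131, R8_205, R5_186⟩]⟩]⟩,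
 ⟨nat_lit 6, [⟨nat_lit 4, [⟨nat_lit 4, nat_lit 12192, nat_lit 7824, nat_lit 16128, nat_lit 20256, nat_lit 13632, R3_336, R13_422, R6_284⟩, ⟨nat_lit 5, nat_lit 13392, nat_lit 7920, nat_lit 16752, nat_lit 16752, nat_lit 13392, R3_349, R3_349, R4_279⟩, ⟨nat_lit 7, nat_lit 14448, nat_lit 7872, nat_lit 16560, nat_lit 16656, nat_lit 13872, R3_345, R9_347, R8_289⟩]⟩, ⟨nat_lit 6, [⟨nat_lit 4, nat_lit 12336, nat_lit 9504, nat_lit 3168, nat_lit 20304, nat_lit 10656, R10_66, R13_423, R13_222⟩, ⟨nat_lit 5, nat_lit 13728, nat_lit 9600, nat_lit 3312, nat_lit 16800, nat_lit 8640, R10_69, R3_350, R3_180⟩, ⟨nat_lit 6, nat_lit 13296, nat_lit 9648, nat_lit 3216, nat_lit 10464, nat_lit 15312, R10_67, R3_218, R3_319⟩, ⟨nat_lit 7, nat_lit 14784, nat_lit 9552, nat_lit 3264, nat_lit 16704, nat_lit 8304, R10_68, R9_348, R9_173⟩]⟩]⟩,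
 ⟨nat_lit 7, [⟨nat_lit 7, [⟨nat_lit 7, nat_lit 15504, nat_lit 8544, nat_lit 4704, nat_lit 17088, nat_lit 9024, R11_98, R5_356, R5_188⟩]⟩]⟩], [], [], [], [⟨nat_lit 4, [⟨nat_lit 4, [⟨nat_lit 5, nat_lit 13440, nat_lit 5808, nat_lit 11568, nat_lit 11664, nat_lit 14304, R4_241, R4_243, R7_298⟩]⟩]⟩,
 ⟨nat_lit 6, [⟨nat_lit 4, [⟨nat_lit 5, nat_lit 13584, nat_lit 5856, nat_lit 10272, nat_lit 16656, nat_lit 14400, R3_214, R3_347, R7_300⟩]⟩, ⟨nat_lit 6, [⟨nat_lit 5, nat_lit 13776, nat_lit 5904, nat_lit 3360, nat_lit 16704, nat_lit 13920, R10_70, R3_348, R2_290⟩]⟩]⟩]], [[⟨nat_lit 3, [⟨nat_lit 0, [⟨nat_lit 2, nat_lit 4992, nat_lit 2928, nat_lit 11424, nat_lit 3408, nat_lit 5568, R3_238, R5_71, R6_116⟩]⟩, ⟨nat_lit 3, [⟨nat_lit 0, nat_lit 2112, nat_lit 3024, nat_lit 3456, nat_lit 336, nat_lit 8880, R10_72, R4_7, R6_185⟩, ⟨nat_lit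 2, nat_lit 7632, nat_lit 3264, nat_lit 3504, nat_lit 3936, nat_lit 5280, R10_73, R5_82, R8_110⟩]⟩]⟩,
 ⟨nat_lit 4, [⟨nat_lit 4, [⟨nat_lit 7, nat_lit 14112, nat_lit 144, nat_lit 8688, nat_lit 10800, nat_lit 6096, R4_181, R4_225, R6_127⟩]⟩, ⟨nat_lit 7, [⟨nat_lit 3, nat_lit 11808, nat_lit 1440, nat_lit 14784, nat_lit 11568, nat_lit 5952, R5_308, R7_241, R7_124⟩, ⟨nat_lit 7, nat_lit 14976, nat_lit 864, nat_lit 5136, nat_lit 11232, nat_lit 6432, R5_107, R4_234, R4_134⟩]⟩]⟩,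
 ⟨nat_lit 6, [⟨nat_lit 4, [⟨nat_lit 7, nat_lit 14208, nat_lit 192, nat_lit 11472, nat_lit 13104, nat_lit 6144, R3_239, R5_273, R6_128⟩]⟩, ⟨nat_lit 6, [⟨nat_lit 7, nat_lit 14688, nat_lit 2400, nat_lit 2880, nat_lit 13248, nat_lit 5616, R10_60, R5_276, R8_117⟩]⟩]⟩,
 ⟨nat_lit 7, [⟨nat_lit 3, [⟨nat_lit 0, nat_lit 2256, nat_lit 3072, nat_lit 2736, nat_lit 528, nat_lit 8928, R1_57, R7_11, R6_186⟩, ⟨nat_lit 3, nat_lit 11136, nat_lit 3168, nat_lit 2784, nat_lit 21792, nat_lit 9552, R1_58, R14_454, R4_199⟩]⟩, ⟨nat_lit 7, [⟨nat_lit 3, nat_lit 11904, nat_lit 1488, nat_lit 4464, nat_lit 21840, nat_lit 6000, R11_93, R14_455, R7_125⟩]⟩]⟩], [], [], [⟨nat_lit 3, [⟨nat_lit 3, [⟨nat_lit 0, nat_lit 2832, nat_lit 4608, nat_lit 4032, nat_lit 912, nat_lit 1152, R10_84, R4_19, R4_24⟩, ⟨nat_lit 2, nat_lit 8016, nat_lit 4656, nat_lit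 4080, nat_lit 4080, nat_lit 144, R10_85, R5_85, R5_3⟩]⟩]⟩,
 ⟨nat_lit 4, [⟨nat_lit 4, [⟨nat_lit 3, nat_lit 11520, nat_lit 7008, nat_lit 13488, nat_lit 11424, nat_lit 14256, R4_281, R7_238, R7_297⟩, ⟨nat_lit 7, nat_lit 14544, nat_lit 6960, nat_lit 8880, nat_lit 10848, nat_lit 13104, R4_185, R4_226, R4_273⟩]⟩, ⟨nat_lit 7, [⟨nat_lit 3, nat_lit 11952, nat_lit 7344, nat_lit 14976, nat_lit 11616, nat_lit 5232, R5_312, R7_242, R14_109⟩]⟩]⟩,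
 ⟨nat_lit 6, [⟨nat_lit 4, [⟨nat_lit 7, nat_lit 14592, nat_lit 7152, nat_lit 15264, nat_lit 13200, nat_lit 13248, R3_318, R5_275, R4_276⟩]⟩, ⟨nat_lit 6, [⟨nat_lit 7, nat_lit 14880, nat_lit 8544, nat_lit 2928, nat_lit 13344, nat_lit 16224, R10_61, R5_278, R5_338⟩]⟩]⟩,
 ⟨nat_lit 7, [⟨nat_lit 3, [⟨nat_lit 0, nat_lit 2976, nat_lit 5232, nat_lit 3456, nat_lit 960, nat_lit 1680, R1_72, R7_20, R4_35⟩]⟩, ⟨nat_lit 7, [⟨nat_lit 0, nat_lit 4272, nat_lit 7584, nat_lit 4512, nat_lit 1536, nat_lit 1776, R11_94, R7_32, R7_37⟩, ⟨nat_lit 3, nat_lit 12048, nat_lit 7632, nat_lit 4560, nat_lit 21888, nat_lit 5280, R11_95, R14_456, R14_110⟩]⟩]⟩]], [[], [], [], [], [⟨nat_lit 4, [⟨nat_lit 4, [⟨nat_lit 1, nat_lit 8592, nat_lit 4560, nat_lit 14064, nat_lit 9792, nat_lit 12912, R4_293, R6_204, R6_269⟩]⟩]⟩], [], [], [⟨nat_lit 4, [⟨nat_lit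 4, [⟨nat_lit 1, nat_lit 8976, nat_lit 8016, nat_lit 14256, nat_lit 9840, nat_lit 13488, R4_297, R6_205, R8_281⟩]⟩, ⟨nat_lit 7, [⟨nat_lit 1, nat_lit 10560, nat_lit 8304, nat_lit 16848, nat_lit 9888, nat_lit 1968, R5_351, R6_206, R5_41⟩]⟩]⟩]], [], [[], [], [], [], [⟨nat_lit 4, [⟨nat_lit 4, [⟨nat_lit 1, nat_lit 8688, nat_lit 144, nat_lit 14112, nat_lit 10800, nat_lit 12960, R4_294, R4_225, R6_270⟩]⟩]⟩], [], [⟨nat_lit 4, [⟨nat_lit 4, [⟨nat_lit 1, nat_lit 8880, nat_lit 6960, nat_lit 14544, nat_lit 10848, nat_lit 13104, R4_303, R4_226, R4_273⟩, ⟨nat_lit 5, nat_lit 13488, nat_lit 7008, nat_lit 11520, nat_lit 11424, nat_lit 14256, R4_240, R7_238, R7_297⟩]⟩]⟩,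
 ⟨nat_lit 6, [⟨nat_lit 4, [⟨nat_lit 5, nat_lit 13632, nat_lit 7056, nat_lit 10368, nat_lit 10800, nat_lit 14352, R3_216, R2_225, R7_299⟩]⟩, ⟨nat_lit 6, [⟨nat_lit 5, nat_lit 13824, nat_lit 7104, nat_lit 3408, nat_lit 10896, nat_lit 13968, R10_71, R2_227, R2_291⟩]⟩]⟩]], [[], [], [], [⟨nat_lit 4, [⟨nat_lit 4, [⟨nat_lit 3, nat_lit 11568, nat_lit 5808, nat_lit 13440, nat_lit 11664, nat_lit 14304, R4_280, R4_243, R7_298⟩]⟩, ⟨nat_lit 7, [⟨nat_lit 0, nat_lit 4224, nat_lit 6096, nat_lit 14400, nat_lit 10848, nat_lit 3216, R5_300, R6_226, R7_67⟩, ⟨nat_lit 3, nat_lit 12000, nat_lit 6144, nat_lit 15984, nat_lit 11712, nat_lit 5328, R5_333, R4_244, R14_111⟩]⟩]⟩,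
 ⟨nat_lit 7, [⟨nat_lit 3, [⟨nat_lit 0, nat_lit 3072, nat_lit 4512, nat_lit 3936, nat_lit 4032, nat_lit 3792, R1_82, R4_84, R4_79⟩]⟩, ⟨nat_lit 7, [⟨nat_lit 0, nat_lit 4320, nat_lit 6816, nat_lit 4608, nat_lit 1824, nat_lit 3744, R11_96, R4_38, R7_78⟩]⟩]⟩], [], [], [], [⟨nat_lit 4, [⟨nat_lit 4, [⟨nat_lit 0, nat_lit 3168, nat_lit 7488, nat_lit 12096, nat_lit 10752, nat_lit 13536, R4_252, R6_224, R6_282⟩, ⟨nat_lit 1, nat_lit 9072, nat_lit 7536, nat_lit 14304, nat_lit 9360, nat_lit 13584, R4_298, R8_195, R8_283⟩, ⟨nat_lit 3, nat_lit 11616, nat_lit 7584, nat_lit 13344, nat_lit 11616, nat_lit 13344, R4_278, R4_242, R4_278⟩]⟩, ⟨nat_lit 7, [⟨nat_lit 0, nat_lit 4368, nat_lit 7632, nat_lit 14496, nat_lit 10800, nat_lit 48, R5_302, R6_225, R4_1⟩, ⟨nat_lit 1, nat_lit 10656, nat_lit 7680, nat_lit 17184, nat_lit 9408, nat_lit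 2064, R5_358, R8_196, R5_43⟩]⟩]⟩,
 ⟨nat_lit 7, [⟨nat_lit 7, [⟨nat_lit 0, nat_lit 4416, nat_lit 7728, nat_lit 4752, nat_lit 1392, nat_lit 528, R11_99, R4_29, R4_11⟩, ⟨nat_lit 1, nat_lit 10704, nat_lit 7776, nat_lit 4800, nat_lit 624, nat_lit 2112, R11_100, R5_13, R5_44⟩]⟩]⟩]]], [[], [], [], [[⟨nat_lit 3, [⟨nat_lit 0, [⟨nat_lit 2, nat_lit 5088, nat_lit 16080, nat_lit 8544, nat_lit 3360, nat_lit 5616, R3_178, R5_70, R6_117⟩]⟩]⟩], [⟨nat_lit 3, [⟨nat_lit 0, [⟨nat_lit 0, nat_lit 336, nat_lit 144, nat_lit 3024, nat_lit 2112, nat_lit 1248, R3_63, R4_44, R6_26⟩, ⟨nat_lit 2, nat_lit 5568, nat_lit 480, nat_lit 8832, nat_lit 3552, nat_lit 6192, R3_184, R5_74, R13_129⟩]⟩, ⟨nat_lit 1, [⟨nat_lit 0, nat_lit 912, nat_lit 672, nat_lit 14064, nat_lit 2832, nat_lit 1152, R10_293, R4_59, R4_24⟩, ⟨nat_lit 2, nat_lit 7296, nat_lit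 816, nat_lit 14256, nat_lit 4320, nat_lit 4464, R10_297, R5_90, R3_93⟩]⟩]⟩,
 ⟨nat_lit 7, [⟨nat_lit 0, [⟨nat_lit 0, nat_lit 384, nat_lit 192, nat_lit 12144, nat_lit 2160, nat_lit 1008, R2_253, R7_45, R6_21⟩]⟩, ⟨nat_lit 1, [⟨nat_lit 0, nat_lit 1296, nat_lit 720, nat_lit 12720, nat_lit 2736, nat_lit 624, R1_265, R7_57, R4_13⟩]⟩, ⟨nat_lit 3, [⟨nat_lit 0, nat_lit 2688, nat_lit 1056, nat_lit 2832, nat_lit 2544, nat_lit 1296, R12_59, R7_53, R8_27⟩, ⟨nat_lit 3, nat_lit 11472, nat_lit 1488, nat_lit 2880, nat_lit 21744, nat_lit 5280, R12_60, R14_453, R5_110⟩]⟩]⟩]], [], [], [], [[⟨nat_lit 7, [⟨nat_lit 3, [⟨nat_lit 0, nat_lit 2352, nat_lit 1296, nat_lit 2784, nat_lit 3456, nat_lit 7536, R12_58, R4_72, R6_157⟩]⟩]⟩], [⟨nat_lit 7, [⟨nat_lit 0, [⟨nat_lit 0, nat_lit 432, nat_lit 96, nat_lit 12192, nat_lit 3264, nat_lit 960,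 R2_254, R4_68, R6_20⟩]⟩, ⟨nat_lit 1, [⟨nat_lit 0, nat_lit 1344, nat_lit 432, nat_lit 12768, nat_lit 4464, nat_lit 576, R1_266, R4_93, R4_12⟩]⟩, ⟨nat_lit 3, [⟨nat_lit 0, nat_lit 2736, nat_lit 768, nat_lit 2928, nat_lit 4176, nat_lit 3456, R12_61, R4_87, R8_72⟩]⟩]⟩], [], [⟨nat_lit 7, [⟨nat_lit 3, [⟨nat_lit 0, nat_lit 3120, nat_lit 5904, nat_lit 2976, nat_lit 3984, nat_lit 3744, R12_62, R4_83, R4_78⟩]⟩]⟩]]], [[], [], [], [], [[], [⟨nat_lit 5, [⟨nat_lit 1, [⟨nat_lit 0, nat_lit 1008, nat_lit 6768, nat_lit 4320, nat_lit 3120, nat_lit 672, R3_90, R6_65, R4_14⟩]⟩]⟩], [], [], [], [⟨nat_lit 4, [⟨nat_lit 1, [⟨nat_lit 1, nat_lit 8160, nat_lit 624, nat_lit 1488, nat_lit 9984, nat_lit 1920, R4_31, R6_208, R2_40⟩]⟩, ⟨nat_lit 5, [⟨nat_lit 1, nat_lit 9648, nat_lit 1056, nat_lit 1584, nat_lit 9936, nat_lit 13584, R7_33, R6_207,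 R3_283⟩]⟩]⟩,
 ⟨nat_lit 5, [⟨nat_lit 1, [⟨nat_lit 0, nat_lit 1584, nat_lit 6576, nat_lit 12336, nat_lit 3264, nat_lit 3600, R3_257, R6_68, R7_75⟩, ⟨nat_lit 1, nat_lit 8304, nat_lit 6624, nat_lit 12480, nat_lit 13008, nat_lit 1968, R3_260, R13_271, R2_41⟩]⟩, ⟨nat_lit 5, [⟨nat_lit 0, nat_lit 3600, nat_lit 7008, nat_lit 96, nat_lit 3312, nat_lit 3504, R2_2, R6_69, R4_73⟩, ⟨nat_lit 1, nat_lit 9888, nat_lit 7056, nat_lit 144, nat_lit 12960, nat_lit 13728, R2_3, R13_270, R3_286⟩]⟩]⟩]], [[], [⟨nat_lit 5, [⟨nat_lit 1, [⟨nat_lit 0, nat_lit 1104, nat_lit 5472, nat_lit 4896, nat_lit 2784, nat_lit 816, R3_102, R4_58, R4_17⟩]⟩]⟩], [], [], [], [⟨nat_lit 5, [⟨nat_lit 1, [⟨nat_lit 0, nat_lit 1632, nat_lit 4752, nat_lit 13104, nat_lit 2928, nat_lit 3936, R3_273, R4_61, R7_82⟩, ⟨nat_lit 1, nat_lit 8352, nat_lit 4800, nat_lit 13248,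 nat_lit 9696, nat_lit 2304, R3_276, R3_202, R2_48⟩]⟩, ⟨nat_lit 5, [⟨nat_lit 0, nat_lit 3696, nat_lit 5232, nat_lit 5808, nat_lit 3024, nat_lit 3936, R2_121, R4_63, R4_82⟩, ⟨nat_lit 1, nat_lit 10032, nat_lit 5280, nat_lit 5856, nat_lit 9648, nat_lit 13824, R2_122, R3_201, R3_288⟩]⟩]⟩]], [], [[], [], [], [], [], [⟨nat_lit 4, [⟨nat_lit 1, [⟨nat_lit 0, nat_lit 1488, nat_lit 1920, nat_lit 8160, nat_lit 9984, nat_lit 3648, R4_170, R6_208, R7_76⟩, ⟨nat_lit 1, nat_lit 8208, nat_lit 2016, nat_lit 8208, nat_lit 9504, nat_lit 2016, R4_171, R8_198, R2_42⟩]⟩, ⟨nat_lit 5, [⟨nat_lit 0, nat_lit 3504, nat_lit 96, nat_lit 8160, nat_lit 11088, nat_lit 3600, R7_170, R6_231, R4_75⟩, ⟨nat_lit 1, nat_lit 9792, nat_lit 240, nat_lit 8208, nat_lit 9456, nat_lit 13632, R7_171, R8_197, R3_284⟩]⟩]⟩,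
 ⟨nat_lit 5, [⟨nat_lit 1, [⟨nat_lit 0, nat_lit 1728, nat_lit 9696, nat_lit 12768, nat_lit 2928, nat_lit 3792, R3_266, R8_61, R7_79⟩, ⟨nat_lit 1, nat_lit 8448, nat_lit 9792, nat_lit 12912, nat_lit 10224, nat_lit 2160, R3_269, R9_213, R2_45⟩]⟩, ⟨nat_lit 5, [⟨nat_lit 0, nat_lit 3840, nat_lit 7104, nat_lit 7104, nat_lit 3024, nat_lit 3840, R2_148, R8_63, R4_80⟩, ⟨nat_lit 1, nat_lit 10176, nat_lit 7248, nat_lit 7152, nat_lit 10176, nat_lit 13776, R2_149, R9_212, R3_287⟩]⟩]⟩,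
 ⟨nat_lit 7, [⟨nat_lit 5, [⟨nat_lit 0, nat_lit 3936, nat_lit 5808, nat_lit 5232, nat_lit 3024, nat_lit 3696, R2_109, R4_63, R4_77⟩, ⟨nat_lit 1, nat_lit 10272, nat_lit 5952, nat_lit 5520, nat_lit 768, nat_lit 13680, R2_115, R5_16, R3_285⟩]⟩]⟩]]], [[], [[], [⟨nat_lit 1, [⟨nat_lit 1, [⟨nat_lit 0, nat_lit 576, nat_lit 432, nat_lit 12768, nat_lit 4464, nat_lit 1344, R1_266, R4_93, R4_28⟩, ⟨nat_lit 2, nat_lit 6960, nat_lit 480, nat_lit 12864, nat_lit 17328, nat_lit 4800, R1_268, R3_361, R3_100⟩]⟩]⟩]], [], [], [], [[], [⟨nat_lit 1, [⟨nat_lit 1, [⟨nat_lit 0, nat_lit 624, nat_lit 18432, nat_lit 12720, nat_lit 2736, nat_lit 1296, R1_265, R7_57, R4_27⟩, ⟨nat_lit 2, nat_lit 7008, nat_lit 18576, nat_lit 12816, nat_lit 3072, nat_lit 4848, R1_267, R2_64, R3_101⟩]⟩]⟩,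
 ⟨nat_lit 5, [⟨nat_lit 1, [⟨nat_lit 0, nat_lit 1152, nat_lit 4032, nat_lit 4608, nat_lit 2832, nat_lit 912, R10_96, R4_59, R4_19⟩]⟩]⟩], [], [], [], [⟨nat_lit 1, [⟨nat_lit 1, [⟨nat_lit 0, nat_lit 1440, nat_lit 15216, nat_lit 12576, nat_lit 2784, nat_lit 3888, R1_262, R7_58, R7_81⟩, ⟨nat_lit 1, nat_lit 8112, nat_lit 15264, nat_lit 12672, nat_lit 864, nat_lit 2256, R1_264, R2_18, R2_47⟩, ⟨nat_lit 2, nat_lit 7344, nat_lit 15360, nat_lit 12624, nat_lit 3024, nat_lit 48, R1_263, R2_63, R2_1⟩]⟩]⟩,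
 ⟨nat_lit 5, [⟨nat_lit 1, [⟨nat_lit 0, nat_lit 1680, nat_lit 3456, nat_lit 5232, nat_lit 2976, nat_lit 3984, R10_109, R4_62, R7_83⟩, ⟨nat_lit 1, nat_lit 8400, nat_lit 3504, nat_lit 5280, nat_lit 9792, nat_lit 2352, R10_110, R3_204, R2_49⟩]⟩, ⟨nat_lit 5, [⟨nat_lit 0, nat_lit 3792, nat_lit 3936, nat_lit 4512, nat_lit 3072, nat_lit 4032, R1_94, R4_64, R4_84⟩, ⟨nat_lit 1, nat_lit 10128, nat_lit 3984, nat_lit 4560, nat_lit 9744, nat_lit 14304, R1_95, R3_203, R3_298⟩]⟩]⟩]]], [[], [], [], [], [[], [], [], [], [⟨nat_lit 4, [⟨nat_lit 4, [⟨nat_lit 1, nat_lit 8640, nat_lit 4704, nat_lit 15456, nat_lit 10032, nat_lit 12720, R7_322, R6_209, R6_265⟩]⟩, ⟨nat_lit 5, [⟨nat_lit 1, nat_lit 9216, nat_lit 4896, nat_lit 2160, nat_lit 10080, nat_lit 18288, R14_45, R6_210, R13_381⟩]⟩]⟩,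
 ⟨nat_lit 5, [⟨nat_lit 5, [⟨nat_lit 0, nat_lit 3360, nat_lit 48, nat_lit 96, nat_lit 3216, nat_lit 3600, R12_2, R6_67, R6_75⟩, ⟨nat_lit 1, nat_lit 9360, nat_lit 4992, nat_lit 384, nat_lit 13056, nat_lit 18480, R12_8, R13_272, R13_385⟩]⟩]⟩], [⟨nat_lit 4, [⟨nat_lit 5, [⟨nat_lit 1, nat_lit 9696, nat_lit 15504, nat_lit 2208, nat_lit 10128, nat_lit 13872, R14_46, R6_211, R3_289⟩]⟩]⟩,
 ⟨nat_lit 5, [⟨nat_lit 5, [⟨nat_lit 0, nat_lit 3648, nat_lit 15888, nat_lit 144, nat_lit 3360, nat_lit 3552, R12_3, R6_70, R4_74⟩, ⟨nat_lit 1, nat_lit 9936, nat_lit 16416, nat_lit 432, nat_lit 13104, nat_lit 14064, R12_9, R13_273, R3_293⟩]⟩]⟩]], [[], [], [], [], [], [⟨nat_lit 5, [⟨nat_lit 5, [⟨nat_lit 0, nat_lit 3744, nat_lit 12960, nat_lit 576, nat_lit 3120, nat_lit 3984, R12_12, R4_65, R4_83⟩, ⟨nat_lit 1, nat_lit 10080, nat_lit 13488,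 nat_lit 624, nat_lit 9840, nat_lit 14208, R12_13, R3_205, R3_296⟩]⟩]⟩]], [[], [], [], [], [⟨nat_lit 4, [⟨nat_lit 4, [⟨nat_lit 1, nat_lit 8736, nat_lit 3120, nat_lit 15648, nat_lit 10992, nat_lit 12768, R7_326, R4_229, R6_266⟩]⟩, ⟨nat_lit 5, [⟨nat_lit 1, nat_lit 9264, nat_lit 3312, nat_lit 4080, nat_lit 11088, nat_lit 18336, R14_85, R4_231, R13_382⟩]⟩]⟩,
 ⟨nat_lit 5, [⟨nat_lit 5, [⟨nat_lit 1, nat_lit 9408, nat_lit 3408, nat_lit 2448, nat_lit 2784, nat_lit 18528, R12_51, R3_58, R13_386⟩]⟩]⟩], [⟨nat_lit 4, [⟨nat_lit 5, [⟨nat_lit 1, nat_lit 9744, nat_lit 12768, nat_lit 4128, nat_lit 11184, nat_lit 13920, R14_86, R4_233, R3_290⟩]⟩]⟩,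
 ⟨nat_lit 5, [⟨nat_lit 5, [⟨nat_lit 1, nat_lit 9984, nat_lit 13200, nat_lit 2496, nat_lit 2880, nat_lit 14112, R12_52, R3_60, R3_294⟩]⟩]⟩], [⟨nat_lit 4, [⟨nat_lit 4, [⟨nat_lit 1, nat_lit 8928, nat_lit 2592, nat_lit 16368, nat_lit 11040, nat_lit 13056, R7_341, R4_230, R4_272⟩, ⟨nat_lit 5, nat_lit 13536, nat_lit 13056, nat_lit 12048, nat_lit 11472, nat_lit 14160, R7_251, R7_239, R7_295⟩]⟩, ⟨nat_lit 5, [⟨nat_lit 1, nat_lit 9552, nat_lit 2784, nat_lit 4176, nat_lit 11136, nat_lit 3168, R14_87, R4_232, R3_66⟩, ⟨nat_lit 5, nat_lit 13920, nat_lit 13248, nat_lit 3792, nat_lit 11520, nat_lit 13728, R14_79, R7_240, R2_286⟩]⟩]⟩,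
 ⟨nat_lit 5, [⟨nat_lit 5, [⟨nat_lit 1, nat_lit 9600, nat_lit 2880, nat_lit 2544, nat_lit 2832, nat_lit 3216, R12_53, R3_59, R3_67⟩, ⟨nat_lit 5, nat_lit 14016, nat_lit 13344, nat_lit 2160, nat_lit 10320, nat_lit 13824, R12_45, R2_215, R2_288⟩]⟩]⟩,
 ⟨nat_lit 6, [⟨nat_lit 4, [⟨nat_lit 5, nat_lit 13680, nat_lit 13104, nat_lit 10512, nat_lit 10752, nat_lit 14208, R2_219, R2_224, R7_296⟩]⟩, ⟨nat_lit 5, [⟨nat_lit 5, nat_lit 13968, nat_lit 13488, nat_lit 1776, nat_lit 10944, nat_lit 13776, R12_37, R2_228, R2_287⟩]⟩, ⟨nat_lit 6, [⟨nat_lit 5, nat_lit 13872, nat_lit 13728, nat_lit 10896, nat_lit 10848, nat_lit 14016, R1_227, R2_226, R2_292⟩]⟩]⟩]], [[], [], [], [], [⟨nat_lit 4, [⟨nat_lit 4, [⟨nat_lit 1, nat_lit 8784, nat_lit 7440, nat_lit 15552, nat_lit 9600, nat_lit 12816, R7_324, R8_200, R6_267⟩]⟩, ⟨nat_lit 5, [⟨nat_lit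 0, nat_lit 3312, nat_lit 1152, nat_lit 2544, nat_lit 11424, nat_lit 3648, R14_53, R6_238, R6_76⟩, ⟨nat_lit 1, nat_lit 9312, nat_lit 8208, nat_lit 3120, nat_lit 9696, nat_lit 18384, R14_65, R8_202, R13_383⟩]⟩]⟩,
 ⟨nat_lit 5, [⟨nat_lit 5, [⟨nat_lit 0, nat_lit 3408, nat_lit 1440, nat_lit 912, nat_lit 2832, nat_lit 3744, R12_19, R8_59, R6_78⟩]⟩]⟩,
 ⟨nat_lit 7, [⟨nat_lit 4, [⟨nat_lit 1, nat_lit 8832, nat_lit 7536, nat_lit 14448, nat_lit 432, nat_lit 12864, R2_301, R5_9, R6_268⟩]⟩, ⟨nat_lit 5, [⟨nat_lit 0, nat_lit 3456, nat_lit 1296, nat_lit 2784, nat_lit 2352, nat_lit 3696, R12_58, R4_49, R6_77⟩, ⟨nat_lit 1, nat_lit 9504, nat_lit 8352, nat_lit 4128, nat_lit 480, nat_lit 18432, R12_86, R5_10, R13_384⟩]⟩]⟩], [⟨nat_lit 4, [⟨nat_lit 5, [⟨nat_lit 0, nat_lit 3552, nat_lit 48, nat_lit 2640, nat_lit 11520, nat_lit 3648,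 R14_55, R6_240, R4_76⟩, ⟨nat_lit 1, nat_lit 9840, nat_lit 816, nat_lit 3216, nat_lit 9792, nat_lit 13968, R14_67, R8_204, R3_291⟩]⟩]⟩,
 ⟨nat_lit 7, [⟨nat_lit 5, [⟨nat_lit 0, nat_lit 3984, nat_lit 5904, nat_lit 2976, nat_lit 3120, nat_lit 3744, R12_62, R4_65, R4_78⟩, ⟨nat_lit 1, nat_lit 10320, nat_lit 6048, nat_lit 4416, nat_lit 864, nat_lit 14016, R12_92, R5_18, R3_292⟩]⟩]⟩], [], [⟨nat_lit 4, [⟨nat_lit 4, [⟨nat_lit 0, nat_lit 3216, nat_lit 0, nat_lit 13248, nat_lit 10704, nat_lit 13680, R7_276, R6_223, R6_285⟩, ⟨nat_lit 1, nat_lit 9120, nat_lit 7968, nat_lit 16032, nat_lit 9648, nat_lit 13392, R7_334, R8_201, R8_279⟩, ⟨nat_lit 3, nat_lit 11664, nat_lit 5808, nat_lit 14592, nat_lit 11568, nat_lit 13440, R7_304, R4_241, R4_280⟩]⟩, ⟨nat_lit 5, [⟨nat_lit 0, nat_lit 4080, nat_lit 624, nat_lit 2592, nat_lit 11472,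 nat_lit 3408, R14_54, R6_239, R8_71⟩, ⟨nat_lit 1, nat_lit 10416, nat_lit 9024, nat_lit 3168, nat_lit 9744, nat_lit 15072, R14_66, R8_203, R9_314⟩, ⟨nat_lit 3, nat_lit 11712, nat_lit 6144, nat_lit 2784, nat_lit 12000, nat_lit 15984, R14_58, R4_250, R5_333⟩]⟩]⟩,
 ⟨nat_lit 7, [⟨nat_lit 4, [⟨nat_lit 0, nat_lit 3264, nat_lit 96, nat_lit 12192, nat_lit 432, nat_lit 14064, R2_254, R4_9, R6_293⟩, ⟨nat_lit 1, nat_lit 9168, nat_lit 8064, nat_lit 15024, nat_lit 528, nat_lit 13440, R2_313, R5_11, R8_280⟩]⟩, ⟨nat_lit 5, [⟨nat_lit 0, nat_lit 4176, nat_lit 768, nat_lit 2928, nat_lit 2736, nat_lit 3456, R12_61, R4_57, R8_72⟩, ⟨nat_lit 1, nat_lit 10512, nat_lit 9168, nat_lit 4320, nat_lit 672, nat_lit 15120, R12_90, R5_14, R9_315⟩]⟩, ⟨nat_lit 7, [⟨nat_lit 0, nat_lit 4464, nat_lit 432, nat_lit 12768, nat_lit 1344, nat_lit 576,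 R1_266, R4_28, R4_12⟩, ⟨nat_lit 1, nat_lit 10752, nat_lit 8688, nat_lit 16032, nat_lit 576, nat_lit 2160, R1_334, R5_12, R5_45⟩]⟩]⟩]]], [[], [], [], [], [], [], [], [[], [⟨nat_lit 4, [⟨nat_lit 1, [⟨nat_lit 0, nat_lit 960, nat_lit 1344, nat_lit 4752, nat_lit 10416, nat_lit 480, R5_99, R6_217, R4_10⟩]⟩]⟩,
 ⟨nat_lit 7, [⟨nat_lit 1, [⟨nat_lit 0, nat_lit 1392, nat_lit 1440, nat_lit 18000, nat_lit 4416, nat_lit 528, R11_375, R4_92, R4_11⟩]⟩]⟩], [], [], [], [⟨nat_lit 4, [⟨nat_lit 1, [⟨nat_lit 0, nat_lit 1536, nat_lit 1392, nat_lit 4608, nat_lit 10368, nat_lit 3696, R5_96, R6_216, R7_77⟩, ⟨nat_lit 1, nat_lit 8256, nat_lit 1488, nat_lit 6192, nat_lit 9552, nat_lit 2064, R5_129, R8_199, R2_43⟩]⟩]⟩,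
 ⟨nat_lit 7, [⟨nat_lit 1, [⟨nat_lit 0, nat_lit 1824, nat_lit 6816, nat_lit 17904, nat_lit 4320, nat_lit 3744, R11_373, R4_90, R7_78⟩, ⟨nat_lit 1, nat_lit 8544, nat_lit 6912, nat_lit 17952, nat_lit 720, nat_lit 2112, R11_374, R5_15, R2_44⟩]⟩, ⟨nat_lit 5, [⟨nat_lit 0, nat_lit 4032, nat_lit 4512, nat_lit 3936, nat_lit 3072, nat_lit 3792, R1_82, R4_64, R4_79⟩, ⟨nat_lit 1, nat_lit 10368, nat_lit 4656, nat_lit 4224, nat_lit 816, nat_lit 14256, R1_88, R5_17, R3_297⟩]⟩]⟩]]]]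
noncomputable def N2230 : T3 (List N0) := [[[[⟨nat_lit 0, [⟨nat_lit 0, [⟨nat_lit 2, nat_lit 0, nat_lit 336, nat_lit 624, nat_lit 1872, nat_lit 5952, R6_13, R4_39, R6_124⟩]⟩, ⟨nat_lit 2, [⟨nat_lit 2, nat_lit 720, nat_lit 2640, nat_lit 768, nat_lit 2400, nat_lit 6288, R8_16, R4_50, R4_131⟩, ⟨nat_lit 6, nat_lit 1200, nat_lit 2976, nat_lit 1152, nat_lit 2256, nat_lit 5712, R8_24, R7_47, R7_119⟩]⟩]⟩,
 ⟨nat_lit 2, [⟨nat_lit 2, [⟨nat_lit 6, nat_lit 1248, nat_lit 10560, nat_lit 4464, nat_lit 18720, nat_lit 5760, R5_93, R14_390, R7_120⟩]⟩]⟩,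
 ⟨nat_lit 3, [⟨nat_lit 0, [⟨nat_lit 2, nat_lit 48, nat_lit 5184, nat_lit 4512, nat_lit 1056, nat_lit 6000, R13_94, R5_22, R6_125⟩]⟩, ⟨nat_lit 2, [⟨nat_lit 2, nat_lit 768, nat_lit 7200, nat_lit 3744, nat_lit 1680, nat_lit 6336, R9_78, R5_35, R4_132⟩]⟩, ⟨nat_lit 3, [⟨nat_lit 2, nat_lit 2256, nat_lit 6528, nat_lit 384, nat_lit 1344, nat_lit 5472, R3_8, R5_28, R8_114⟩]⟩]⟩], [⟨nat_lit 0, [⟨nat_lit 0, [⟨nat_lit 2, nat_lit 3744, nat_lit 240, nat_lit 1200, nat_lit 2064, nat_lit 6528, R6_25, R4_43, R13_136⟩]⟩, ⟨nat_lit 1, [⟨nat_lit 2, nat_lit 5472, nat_lit 816, nat_lit 1104, nat_lit 2784, nat_lit 4896, R4_23, R4_58, R3_102⟩]⟩, ⟨nat_lit 2, [⟨nat_lit 2, nat_lit 6048, nat_lit 2544, nat_lit 864, nat_lit 2544, nat_lit 6048, R8_18, R4_53, R3_126⟩, ⟨nat_lit 6, nat_lit 6384, nat_lit 2640, nat_lit 1248, nat_lit 2496, nat_lit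 4128, R8_26, R7_52, R2_86⟩]⟩]⟩,
 ⟨nat_lit 2, [⟨nat_lit 2, [⟨nat_lit 6, nat_lit 6432, nat_lit 11424, nat_lit 5232, nat_lit 19632, nat_lit 4176, R5_109, R14_409, R2_87⟩]⟩]⟩,
 ⟨nat_lit 3, [⟨nat_lit 0, [⟨nat_lit 2, nat_lit 3792, nat_lit 5472, nat_lit 6144, nat_lit 3456, nat_lit 6576, R13_128, R5_72, R13_137⟩]⟩, ⟨nat_lit 1, [⟨nat_lit 2, nat_lit 5520, nat_lit 7200, nat_lit 4416, nat_lit 4224, nat_lit 4944, R3_92, R5_88, R3_103⟩]⟩, ⟨nat_lit 2, [⟨nat_lit 2, nat_lit 6096, nat_lit 7872, nat_lit 4656, nat_lit 4128, nat_lit 6192, R9_97, R5_86, R3_129⟩]⟩, ⟨nat_lit 3, [⟨nat_lit 2, nat_lit 7152, nat_lit 6672, nat_lit 1056, nat_lit 3744, nat_lit 4848, R3_22, R5_78, R9_101⟩]⟩]⟩], [⟨nat_lit 0, [⟨nat_lit 2, [⟨nat_lit 6, nat_lit 7632, nat_lit 3888, nat_lit 1344, nat_lit 2352, nat_lit 8784, R8_28, R7_49, R2_183⟩]⟩]⟩,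
 ⟨nat_lit 2, [⟨nat_lit 2, [⟨nat_lit 6, nat_lit 7680, nat_lit 11856, nat_lit 6048, nat_lit 19248, nat_lit 8832, R5_126, R14_401, R2_184⟩]⟩]⟩]], [], [[], [], [⟨nat_lit 2, [⟨nat_lit 2, [⟨nat_lit 6, nat_lit 7728, nat_lit 7440, nat_lit 6960, nat_lit 15648, nat_lit 9072, R5_145, R12_326, R2_189⟩]⟩]⟩]], [[⟨nat_lit 0, [⟨nat_lit 2, [⟨nat_lit 6, nat_lit 1296, nat_lit 8640, nat_lit 7056, nat_lit 2400, nat_lit 5808, R8_147, R2_50, R7_121⟩]⟩]⟩,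
 ⟨nat_lit 2, [⟨nat_lit 2, [⟨nat_lit 6, nat_lit 1344, nat_lit 9600, nat_lit 4848, nat_lit 480, nat_lit 5856, R5_101, R12_10, R7_122⟩]⟩]⟩,
 ⟨nat_lit 3, [⟨nat_lit 0, [⟨nat_lit 2, nat_lit 96, nat_lit 5568, nat_lit 5040, nat_lit 624, nat_lit 6048, R13_105, R11_13, R6_126⟩]⟩, ⟨nat_lit 2, [⟨nat_lit 2, nat_lit 816, nat_lit 9168, nat_lit 3984, nat_lit 1248, nat_lit 6384, R9_83, R11_26, R4_133⟩, ⟨nat_lit 6, nat_lit 1392, nat_lit 9120, nat_lit 4032, nat_lit 1872, nat_lit 5904, R9_84, R1_39, R7_123⟩]⟩, ⟨nat_lit 3, [⟨nat_lit 2, nat_lit 2352, nat_lit 7296, nat_lit 3984, nat_lit 912, nat_lit 5520, R3_83, R11_19, R8_115⟩]⟩]⟩], [⟨nat_lit 0, [⟨nat_lit 2, [⟨nat_lit 6, nat_lit 6480, nat_lit 7008, nat_lit 7200, nat_lit 2832, nat_lit 4224, R8_150, R2_59, R2_88⟩]⟩]⟩,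
 ⟨nat_lit 2, [⟨nat_lit 2, [⟨nat_lit 6, nat_lit 6528, nat_lit 7536, nat_lit 5424, nat_lit 2592, nat_lit 4272, R5_113, R12_54, R2_89⟩]⟩]⟩,
 ⟨nat_lit 3, [⟨nat_lit 0, [⟨nat_lit 2, nat_lit 3840, nat_lit 3840, nat_lit 6624, nat_lit 3456, nat_lit 6624, R13_138, R11_72, R13_138⟩]⟩, ⟨nat_lit 1, [⟨nat_lit 2, nat_lit 5568, nat_lit 5568, nat_lit 4992, nat_lit 4224, nat_lit 4992, R3_104, R11_88, R3_104⟩]⟩, ⟨nat_lit 2, [⟨nat_lit 2, nat_lit 6144, nat_lit 7248, nat_lit 4896, nat_lit 4128, nat_lit 6240, R9_102, R11_86, R3_130⟩, ⟨nat_lit 6, nat_lit 6576, nat_lit 7200, nat_lit 4944, nat_lit 2304, nat_lit 4320, R9_103, R1_48, R2_90⟩]⟩, ⟨nat_lit 3, [⟨nat_lit 2, nat_lit 7248, nat_lit 6144, nat_lit 6240, nat_lit 3744, nat_lit 4896, R3_130, R11_78, R9_102⟩]⟩]⟩], [⟨nat_lit 0, [⟨nat_lit 2, [⟨nat_lit 6, nat_lit 7776, nat_lit 6240, nat_lit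 7296, nat_lit 2544, nat_lit 9216, R8_152, R2_53, R2_192⟩]⟩]⟩,
 ⟨nat_lit 2, [⟨nat_lit 2, [⟨nat_lit 6, nat_lit 7824, nat_lit 7440, nat_lit 6576, nat_lit 1632, nat_lit 9264, R5_137, R12_34, R2_193⟩]⟩]⟩,
 ⟨nat_lit 3, [⟨nat_lit 2, [⟨nat_lit 6, nat_lit 7872, nat_lit 6960, nat_lit 6528, nat_lit 2016, nat_lit 9312, R9_136, R1_42, R2_194⟩]⟩]⟩], [⟨nat_lit 3, [⟨nat_lit 3, [⟨nat_lit 2, nat_lit 9984, nat_lit 5328, nat_lit 5712, nat_lit 1632, nat_lit 5760, R3_119, R11_34, R5_120⟩]⟩]⟩]]], [[[⟨nat_lit 0, [⟨nat_lit 0, [⟨nat_lit 2, nat_lit 288, nat_lit 17664, nat_lit 5136, nat_lit 7392, nat_lit 6384, R8_107, R4_154, R6_133⟩]⟩, ⟨nat_lit 2, [⟨nat_lit 2, nat_lit 1008, nat_lit 17808, nat_lit 240, nat_lit 7728, nat_lit 6624, R9_5, R4_161, R4_138⟩, ⟨nat_lit 6, nat_lit 1680, nat_lit 11088, nat_lit 480, nat_lit 7680, nat_lit 6240, R9_10,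 R7_160, R7_130⟩]⟩]⟩,
 ⟨nat_lit 3, [⟨nat_lit 0, [⟨nat_lit 2, nat_lit 336, nat_lit 18384, nat_lit 13248, nat_lit 9408, nat_lit 6432, R9_276, R5_196, R6_134⟩]⟩]⟩], [⟨nat_lit 0, [⟨nat_lit 0, [⟨nat_lit 2, nat_lit 3888, nat_lit 3840, nat_lit 5184, nat_lit 7584, nat_lit 6816, R8_108, R4_158, R13_142⟩]⟩, ⟨nat_lit 1, [⟨nat_lit 2, nat_lit 5616, nat_lit 3984, nat_lit 96, nat_lit 7968, nat_lit 5184, R5_2, R4_166, R3_108⟩]⟩, ⟨nat_lit 2, [⟨nat_lit 2, nat_lit 6192, nat_lit 4128, nat_lit 336, nat_lit 7872, nat_lit 6096, R9_7, R4_164, R3_127⟩, ⟨nat_lit 6, nat_lit 6624, nat_lit 3024, nat_lit 576, nat_lit 7920, nat_lit 4416, R9_12, R7_165, R2_92⟩]⟩]⟩,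
 ⟨nat_lit 3, [⟨nat_lit 0, [⟨nat_lit 2, nat_lit 3936, nat_lit 12192, nat_lit 13872, nat_lit 11664, nat_lit 6864, R9_289, R5_243, R13_143⟩]⟩, ⟨nat_lit 1, [⟨nat_lit 2, nat_lit 5664, nat_lit 12432, nat_lit 12000, nat_lit 12576, nat_lit 5232, R0_250, R5_262, R3_109⟩]⟩]⟩], [⟨nat_lit 0, [⟨nat_lit 2, [⟨nat_lit 6, nat_lit 8208, nat_lit 3072, nat_lit 672, nat_lit 7776, nat_lit 8976, R9_14, R7_162, R2_187⟩]⟩]⟩,
 ⟨nat_lit 2, [⟨nat_lit 2, [⟨nat_lit 6, nat_lit 8256, nat_lit 12816, nat_lit 12816, nat_lit 20928, nat_lit 9024, R0_267, R14_436, R2_188⟩]⟩]⟩]], [[⟨nat_lit 0, [⟨nat_lit 0, [⟨nat_lit 2, nat_lit 384, nat_lit 1344, nat_lit 5472, nat_lit 2256, nat_lit 6528, R8_114, R3_47, R6_136⟩]⟩, ⟨nat_lit 2, [⟨nat_lit 2, nat_lit 1056, nat_lit 3744, nat_lit 5376, nat_lit 7152, nat_lit 6672, R9_112, R3_149, R4_139⟩, ⟨nat_lit 6, nat_lit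 1776, nat_lit 2784, nat_lit 5760, nat_lit 6528, nat_lit 6432, R9_120, R2_136, R7_134⟩]⟩]⟩,
 ⟨nat_lit 1, [⟨nat_lit 0, [⟨nat_lit 2, nat_lit 432, nat_lit 1440, nat_lit 14352, nat_lit 5664, nat_lit 6624, R5_299, R10_118, R6_138⟩]⟩, ⟨nat_lit 2, [⟨nat_lit 2, nat_lit 1104, nat_lit 3792, nat_lit 3216, nat_lit 6192, nat_lit 6720, R0_67, R10_129, R4_140⟩, ⟨nat_lit 6, nat_lit 1872, nat_lit 2832, nat_lit 3600, nat_lit 5232, nat_lit 6528, R0_75, R1_109, R7_136⟩]⟩]⟩,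
 ⟨nat_lit 3, [⟨nat_lit 0, [⟨nat_lit 2, nat_lit 480, nat_lit 1392, nat_lit 13344, nat_lit 1920, nat_lit 6576, R9_278, R0_40, R6_137⟩]⟩]⟩], [⟨nat_lit 0, [⟨nat_lit 0, [⟨nat_lit 2, nat_lit 3984, nat_lit 912, nat_lit 5520, nat_lit 2352, nat_lit 6960, R8_115, R3_49, R13_145⟩]⟩, ⟨nat_lit 1, [⟨nat_lit 2, nat_lit 5712, nat_lit 1632, nat_lit 5760, nat_lit 9984, nat_lit 5328, R5_120, R3_208, R3_111⟩]⟩, ⟨nat_lit 2, [⟨nat_lit 2, nat_lit 6240, nat_lit 3744, nat_lit 5472, nat_lit 7248, nat_lit 6144, R9_114, R3_151, R3_128⟩, ⟨nat_lit 6, nat_lit 6720, nat_lit 2784, nat_lit 5856, nat_lit 6768, nat_lit 4608, R9_122, R2_141, R2_96⟩]⟩]⟩,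
 ⟨nat_lit 1, [⟨nat_lit 0, [⟨nat_lit 2, nat_lit 4032, nat_lit 1008, nat_lit 14736, nat_lit 5856, nat_lit 7056, R5_307, R10_122, R13_147⟩]⟩, ⟨nat_lit 1, [⟨nat_lit 2, nat_lit 5760, nat_lit 1728, nat_lit 18240, nat_lit 6576, nat_lit 5424, R11_380, R10_137, R3_113⟩]⟩, ⟨nat_lit 2, [⟨nat_lit 2, nat_lit 6288, nat_lit 3792, nat_lit 3312, nat_lit 6336, nat_lit 6336, R0_69, R10_132, R3_132⟩, ⟨nat_lit 6, nat_lit 6816, nat_lit 2832, nat_lit 3696, nat_lit 5472, nat_lit 4704, R0_77, R1_114, R2_98⟩]⟩]⟩,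
 ⟨nat_lit 3, [⟨nat_lit 0, [⟨nat_lit 2, nat_lit 4080, nat_lit 960, nat_lit 13968, nat_lit 1968, nat_lit 7008, R9_291, R0_41, R13_146⟩]⟩, ⟨nat_lit 1, [⟨nat_lit 2, nat_lit 5808, nat_lit 1680, nat_lit 12096, nat_lit 2112, nat_lit 5376, R0_252, R0_44, R3_112⟩]⟩]⟩], [⟨nat_lit 0, [⟨nat_lit 2, [⟨nat_lit 6, nat_lit 8352, nat_lit 1536, nat_lit 5952, nat_lit 6624, nat_lit 9552, R9_124, R2_138, R2_199⟩]⟩]⟩,
 ⟨nat_lit 1, [⟨nat_lit 2, [⟨nat_lit 6, nat_lit 8448, nat_lit 6576, nat_lit 3792, nat_lit 5328, nat_lit 9648, R0_79, R1_111, R2_201⟩]⟩]⟩,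
 ⟨nat_lit 2, [⟨nat_lit 2, [⟨nat_lit 6, nat_lit 8400, nat_lit 10992, nat_lit 13440, nat_lit 16704, nat_lit 9600, R0_280, R12_348, R2_200⟩]⟩]⟩]], [[], [], [⟨nat_lit 2, [⟨nat_lit 2, [⟨nat_lit 6, nat_lit 8304, nat_lit 10608, nat_lit 13776, nat_lit 16320, nat_lit 9168, R0_287, R12_340, R2_191⟩]⟩]⟩]], [[⟨nat_lit 0, [⟨nat_lit 2, [⟨nat_lit 6, nat_lit 1920, nat_lit 2976, nat_lit 7728, nat_lit 10032, nat_lit 6336, R9_161, R2_209, R7_132⟩]⟩]⟩,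
 ⟨nat_lit 3, [⟨nat_lit 0, [⟨nat_lit 2, nat_lit 528, nat_lit 1968, nat_lit 13296, nat_lit 11856, nat_lit 6480, R9_277, R11_247, R6_135⟩]⟩]⟩], [⟨nat_lit 0, [⟨nat_lit 2, [⟨nat_lit 6, nat_lit 6864, nat_lit 1440, nat_lit 7872, nat_lit 10176, nat_lit 4512, R9_164, R2_212, R2_94⟩]⟩]⟩,
 ⟨nat_lit 3, [⟨nat_lit 0, [⟨nat_lit 2, nat_lit 4128, nat_lit 288, nat_lit 13920, nat_lit 14640, nat_lit 6912, R9_290, R11_305, R13_144⟩]⟩, ⟨nat_lit 1, [⟨nat_lit 2, nat_lit 5856, nat_lit 528, nat_lit 12048, nat_lit 15552, nat_lit 5280, R0_251, R11_324, R3_110⟩]⟩]⟩]]], [[[⟨nat_lit 0, [⟨nat_lit 0, [⟨nat_lit 2, nat_lit 144, nat_lit 14112, nat_lit 8688, nat_lit 10800, nat_lit 6096, R4_181, R4_225, R6_127⟩]⟩, ⟨nat_lit 2, [⟨nat_lit 2, nat_lit 864, nat_lit 14976, nat_lit 5136, nat_lit 11232, nat_lit 6432, R5_107, R4_234, R4_134⟩, ⟨nat_lit 6,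 nat_lit 1440, nat_lit 11808, nat_lit 14784, nat_lit 11568, nat_lit 5952, R5_308, R7_241, R7_124⟩]⟩]⟩,
 ⟨nat_lit 2, [⟨nat_lit 2, [⟨nat_lit 6, nat_lit 1488, nat_lit 11904, nat_lit 4464, nat_lit 21840, nat_lit 6000, R11_93, R14_455, R7_125⟩]⟩, ⟨nat_lit 6, [⟨nat_lit 4, nat_lit 3072, nat_lit 2256, nat_lit 2736, nat_lit 528, nat_lit 8928, R1_57, R7_11, R6_186⟩, ⟨nat_lit 6, nat_lit 3168, nat_lit 11136, nat_lit 2784, nat_lit 21792, nat_lit 9552, R1_58, R14_454, R4_199⟩]⟩]⟩,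
 ⟨nat_lit 3, [⟨nat_lit 0, [⟨nat_lit 2, nat_lit 192, nat_lit 14208, nat_lit 11472, nat_lit 13104, nat_lit 6144, R3_239, R5_273, R6_128⟩]⟩, ⟨nat_lit 3, [⟨nat_lit 2, nat_lit 2400, nat_lit 14688, nat_lit 2880, nat_lit 13248, nat_lit 5616, R10_60, R5_276, R8_117⟩]⟩]⟩,
 ⟨nat_lit 6, [⟨nat_lit 4, [⟨nat_lit 7, nat_lit 2928, nat_lit 4992, nat_lit 11424, nat_lit 3408, nat_lit 5568, R3_238, R5_71, R6_116⟩]⟩, ⟨nat_lit 6, [⟨nat_lit 4, nat_lit 3024, nat_lit 2112, nat_lit 3456, nat_lit 336, nat_lit 8880, R10_72, R4_7, R6_185⟩, ⟨nat_lit 7, nat_lit 3264, nat_lit 7632, nat_lit 3504, nat_lit 3936, nat_lit 5280, R10_73, R5_82, R8_110⟩]⟩]⟩], [], [⟨nat_lit 0, [⟨nat_lit 2, [⟨nat_lit 6, nat_lit 7920, nat_lit 13632, nat_lit 14928, nat_lit 11664, nat_lit 8880, R5_311, R7_243, R2_185⟩]⟩]⟩,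
 ⟨nat_lit 2, [⟨nat_lit 2, [⟨nat_lit 6, nat_lit 7968, nat_lit 13776, nat_lit 5664, nat_lit 22272, nat_lit 8928, R11_118, R14_464, R2_186⟩]⟩, ⟨nat_lit 6, [⟨nat_lit 4, nat_lit 8880, nat_lit 2640, nat_lit 3024, nat_lit 5472, nat_lit 11616, R1_63, R7_114, R13_242⟩, ⟨nat_lit 6, nat_lit 9168, nat_lit 13872, nat_lit 3072, nat_lit 22224, nat_lit 15504, R1_64, R14_463, R3_323⟩]⟩]⟩,
 ⟨nat_lit 6, [⟨nat_lit 4, [⟨nat_lit 4, nat_lit 8544, nat_lit 3360, nat_lit 16080, nat_lit 5088, nat_lit 13872, R3_335, R4_106, R6_289⟩, ⟨nat_lit 7, nat_lit 8688, nat_lit 11424, nat_lit 16416, nat_lit 11472, nat_lit 13920, R3_342, R5_239, R8_290⟩]⟩, ⟨nat_lit 6, [⟨nat_lit 4, nat_lit 8832, nat_lit 3552, nat_lit 3648, nat_lit 5568, nat_lit 11568, R10_76, R4_116, R13_241⟩, ⟨nat_lit 7, nat_lit 9312, nat_lit 11760, nat_lit 3696, nat_lit 12288, nat_lit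 9168, R10_77, R5_256, R9_191⟩]⟩]⟩]], [], [[], [], [⟨nat_lit 2, [⟨nat_lit 2, [⟨nat_lit 6, nat_lit 8016, nat_lit 7056, nat_lit 6576, nat_lit 16944, nat_lit 9120, R11_137, R12_353, R2_190⟩]⟩, ⟨nat_lit 6, [⟨nat_lit 4, nat_lit 8976, nat_lit 9024, nat_lit 3264, nat_lit 3888, nat_lit 11712, R1_68, R2_81, R13_244⟩, ⟨nat_lit 5, nat_lit 9120, nat_lit 9072, nat_lit 3360, nat_lit 3360, nat_lit 9120, R1_70, R1_70, R3_190⟩, ⟨nat_lit 6, nat_lit 9216, nat_lit 9120, nat_lit 3312, nat_lit 16992, nat_lit 15552, R1_69, R12_354, R3_324⟩]⟩]⟩,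
 ⟨nat_lit 6, [⟨nat_lit 4, [⟨nat_lit 4, nat_lit 8592, nat_lit 7968, nat_lit 16176, nat_lit 672, nat_lit 13920, R3_337, R3_14, R6_290⟩, ⟨nat_lit 5, nat_lit 8640, nat_lit 8064, nat_lit 16800, nat_lit 12384, nat_lit 13728, R3_350, R10_258, R4_286⟩]⟩, ⟨nat_lit 6, [⟨nat_lit 4, nat_lit 8928, nat_lit 9696, nat_lit 3792, nat_lit 4272, nat_lit 11664, R10_79, R3_89, R13_243⟩, ⟨nat_lit 5, nat_lit 9072, nat_lit 9792, nat_lit 3888, nat_lit 12480, nat_lit 9072, R10_81, R10_260, R3_189⟩]⟩]⟩], [], [], [], [⟨nat_lit 2, [⟨nat_lit 6, [⟨nat_lit 5, nat_lit 15840, nat_lit 6000, nat_lit 3408, nat_lit 13680, nat_lit 14112, R1_71, R1_285, R2_294⟩]⟩]⟩,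
 ⟨nat_lit 6, [⟨nat_lit 4, [⟨nat_lit 5, nat_lit 15456, nat_lit 5952, nat_lit 10320, nat_lit 12432, nat_lit 14544, R3_215, R10_259, R7_303⟩]⟩, ⟨nat_lit 6, [⟨nat_lit 5, nat_lit 15792, nat_lit 6048, nat_lit 3936, nat_lit 12528, nat_lit 14160, R10_82, R10_261, R2_295⟩]⟩]⟩]], [[⟨nat_lit 0, [⟨nat_lit 2, [⟨nat_lit 6, nat_lit 1536, nat_lit 3408, nat_lit 15264, nat_lit 11088, nat_lit 6048, R5_318, R2_231, R7_126⟩]⟩]⟩,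
 ⟨nat_lit 2, [⟨nat_lit 2, [⟨nat_lit 6, nat_lit 1584, nat_lit 3504, nat_lit 4848, nat_lit 10464, nat_lit 6096, R11_101, R12_218, R7_127⟩]⟩, ⟨nat_lit 6, [⟨nat_lit 4, nat_lit 3120, nat_lit 2112, nat_lit 2832, nat_lit 1872, nat_lit 8976, R1_59, R2_39, R6_187⟩, ⟨nat_lit 6, nat_lit 3216, nat_lit 2832, nat_lit 2880, nat_lit 10416, nat_lit 9600, R1_60, R12_217, R4_200⟩, ⟨nat_lit 7, nat_lit 3360, nat_lit 2448, nat_lit 2928, nat_lit 1344, nat_lit 5712, R1_61, R1_28, R8_119⟩]⟩]⟩,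
 ⟨nat_lit 3, [⟨nat_lit 0, [⟨nat_lit 2, nat_lit 240, nat_lit 2976, nat_lit 11520, nat_lit 16032, nat_lit 6192, R3_240, R11_334, R6_129⟩]⟩, ⟨nat_lit 2, [⟨nat_lit 2, nat_lit 960, nat_lit 3600, nat_lit 2448, nat_lit 16320, nat_lit 6528, R0_51, R11_340, R4_136⟩, ⟨nat_lit 6, nat_lit 1632, nat_lit 3456, nat_lit 2496, nat_lit 11664, nat_lit 6144, R0_52, R1_243, R7_128⟩]⟩, ⟨nat_lit 3, [⟨nat_lit 2, nat_lit 2496, nat_lit 3312, nat_lit 3552, nat_lit 16176, nat_lit 5664, R10_74, R11_337, R8_118⟩]⟩]⟩,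
 ⟨nat_lit 4, [⟨nat_lit 7, [⟨nat_lit 3, nat_lit 3408, nat_lit 1536, nat_lit 15264, nat_lit 11088, nat_lit 6048, R5_318, R2_231, R7_126⟩]⟩]⟩,
 ⟨nat_lit 6, [⟨nat_lit 4, [⟨nat_lit 7, nat_lit 2976, nat_lit 240, nat_lit 11520, nat_lit 16032, nat_lit 6192, R3_240, R11_334, R6_129⟩]⟩, ⟨nat_lit 6, [⟨nat_lit 7, nat_lit 3312, nat_lit 2496, nat_lit 3552, nat_lit 16176, nat_lit 5664, R10_74, R11_337, R8_118⟩]⟩, ⟨nat_lit 7, [⟨nat_lit 3, nat_lit 3456, nat_lit 1632, nat_lit 2496, nat_lit 11664, nat_lit 6144, R0_52, R1_243, R7_128⟩, ⟨nat_lit 7, nat_lit 3600, nat_lit 960, nat_lit 2448, nat_lit 16320, nat_lit 6528, R0_51, R11_340, R4_136⟩]⟩]⟩,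
 ⟨nat_lit 7, [⟨nat_lit 3, [⟨nat_lit 0, nat_lit 2112, nat_lit 3120, nat_lit 2832, nat_lit 1872, nat_lit 8976, R1_59, R2_39, R6_187⟩, ⟨nat_lit 2, nat_lit 2448, nat_lit 3360, nat_lit 2928, nat_lit 1344, nat_lit 5712, R1_61, R1_28, R8_119⟩, ⟨nat_lit 3, nat_lit 2832, nat_lit 3216, nat_lit 2880, nat_lit 10416, nat_lit 9600, R1_60, R12_217, R4_200⟩]⟩, ⟨nat_lit 7, [⟨nat_lit 3, nat_lit 3504, nat_lit 1584, nat_lit 4848, nat_lit 10464, nat_lit 6096, R11_101, R12_218, R7_127⟩]⟩]⟩], [], [⟨nat_lit 0, [⟨nat_lit 2, [⟨nat_lit 6, nat_lit 8064, nat_lit 4080, nat_lit 15408, nat_lit 11280, nat_lit 9360, R5_321, R2_235, R2_195⟩]⟩]⟩,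
 ⟨nat_lit 2, [⟨nat_lit 2, [⟨nat_lit 6, nat_lit 8112, nat_lit 5280, nat_lit 6192, nat_lit 11328, nat_lit 9408, R11_129, R12_236, R2_196⟩]⟩, ⟨nat_lit 6, [⟨nat_lit 4, nat_lit 9024, nat_lit 6432, nat_lit 3120, nat_lit 8736, nat_lit 11760, R1_65, R2_182, R13_245⟩, ⟨nat_lit 6, nat_lit 9264, nat_lit 6528, nat_lit 3168, nat_lit 11232, nat_lit 15600, R1_66, R12_234, R3_325⟩, ⟨nat_lit 7, nat_lit 9456, nat_lit 6480, nat_lit 3216, nat_lit 9552, nat_lit 9312, R1_67, R1_199, R9_194⟩]⟩]⟩,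
 ⟨nat_lit 3, [⟨nat_lit 2, [⟨nat_lit 6, nat_lit 8160, nat_lit 4800, nat_lit 4368, nat_lit 11856, nat_lit 9456, R0_91, R1_247, R2_197⟩]⟩]⟩,
 ⟨nat_lit 6, [⟨nat_lit 4, [⟨nat_lit 7, nat_lit 8784, nat_lit 5712, nat_lit 16512, nat_lit 16080, nat_lit 13968, R3_344, R11_335, R8_291⟩]⟩, ⟨nat_lit 6, [⟨nat_lit 7, nat_lit 9408, nat_lit 7008, nat_lit 3744, nat_lit 16224, nat_lit 9264, R10_78, R11_338, R9_193⟩]⟩, ⟨nat_lit 7, [⟨nat_lit 7, nat_lit 9600, nat_lit 6240, nat_lit 2736, nat_lit 16368, nat_lit 10608, R0_57, R11_341, R5_221⟩]⟩]⟩], [⟨nat_lit 2, [⟨nat_lit 6, [⟨nat_lit 7, nat_lit 10560, nat_lit 8400, nat_lit 2976, nat_lit 6768, nat_lit 16464, R1_62, R1_141, R5_343⟩]⟩]⟩,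
 ⟨nat_lit 3, [⟨nat_lit 3, [⟨nat_lit 2, nat_lit 10128, nat_lit 4704, nat_lit 4128, nat_lit 16560, nat_lit 5808, R10_86, R11_345, R5_121⟩]⟩]⟩,
 ⟨nat_lit 4, [⟨nat_lit 4, [⟨nat_lit 3, nat_lit 10368, nat_lit 7056, nat_lit 13632, nat_lit 10800, nat_lit 14352, R4_284, R2_225, R7_299⟩]⟩, ⟨nat_lit 7, [⟨nat_lit 3, nat_lit 10896, nat_lit 7392, nat_lit 15456, nat_lit 11136, nat_lit 5376, R5_322, R2_232, R14_112⟩]⟩]⟩,
 ⟨nat_lit 6, [⟨nat_lit 4, [⟨nat_lit 3, nat_lit 10416, nat_lit 7248, nat_lit 15408, nat_lit 11184, nat_lit 14496, R3_321, R1_233, R7_302⟩, ⟨nat_lit 7, nat_lit 10464, nat_lit 7200, nat_lit 15312, nat_lit 16128, nat_lit 13296, R3_319, R11_336, R4_277⟩]⟩, ⟨nat_lit 6, [⟨nat_lit 7, nat_lit 10512, nat_lit 8592, nat_lit 3600, nat_lit 16272, nat_lit 16512, R10_75, R11_339, R5_344⟩]⟩, ⟨nat_lit 7, [⟨nat_lit 3, nat_lit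 10944, nat_lit 8256, nat_lit 2544, nat_lit 11712, nat_lit 5424, R0_53, R1_244, R14_113⟩]⟩]⟩,
 ⟨nat_lit 7, [⟨nat_lit 3, [⟨nat_lit 0, nat_lit 9792, nat_lit 5280, nat_lit 3504, nat_lit 2352, nat_lit 8400, R1_73, R2_49, R4_175⟩, ⟨nat_lit 2, nat_lit 10080, nat_lit 5328, nat_lit 3552, nat_lit 1824, nat_lit 5712, R1_74, R1_38, R5_119⟩]⟩, ⟨nat_lit 7, [⟨nat_lit 0, nat_lit 10752, nat_lit 7680, nat_lit 4896, nat_lit 624, nat_lit 8400, R11_102, R2_13, R7_175⟩, ⟨nat_lit 3, nat_lit 10992, nat_lit 7728, nat_lit 4944, nat_lit 10512, nat_lit 5472, R11_103, R12_219, R14_114⟩]⟩]⟩]], [[], [], [], [], [⟨nat_lit 4, [⟨nat_lit 4, [⟨nat_lit 1, nat_lit 11376, nat_lit 4800, nat_lit 14160, nat_lit 18144, nat_lit 13344, R4_295, R8_378, R6_278⟩]⟩]⟩,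
 ⟨nat_lit 6, [⟨nat_lit 4, [⟨nat_lit 1, nat_lit 11424, nat_lit 4992, nat_lit 2928, nat_lit 3408, nat_lit 13440, R3_61, R5_71, R6_280⟩]⟩]⟩], [], [], [⟨nat_lit 4, [⟨nat_lit 4, [⟨nat_lit 0, nat_lit 16032, nat_lit 1008, nat_lit 12144, nat_lit 15168, nat_lit 13584, R4_253, R6_316, R6_283⟩, ⟨nat_lit 1, nat_lit 16368, nat_lit 9264, nat_lit 14400, nat_lit 19008, nat_lit 13776, R4_300, R8_396, R8_287⟩]⟩, ⟨nat_lit 7, [⟨nat_lit 0, nat_lit 17376, nat_lit 1296, nat_lit 14304, nat_lit 15744, nat_lit 4704, R5_298, R6_328, R4_98⟩, ⟨nat_lit 1, nat_lit 17664, nat_lit 9648, nat_lit 16944, nat_lit 19152, nat_lit 10656, R5_353, R8_399, R5_222⟩]⟩]⟩,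
 ⟨nat_lit 6, [⟨nat_lit 4, [⟨nat_lit 0, nat_lit 16080, nat_lit 3360, nat_lit 8544, nat_lit 5088, nat_lit 13872, R3_178, R4_106, R6_289⟩, ⟨nat_lit 1, nat_lit 16416, nat_lit 11424, nat_lit 8688, nat_lit 11472, nat_lit 13920, R3_181, R5_239, R8_290⟩]⟩]⟩]], [], [[], [], [], [], [⟨nat_lit 4, [⟨nat_lit 4, [⟨nat_lit 1, nat_lit 11472, nat_lit 192, nat_lit 14208, nat_lit 13104, nat_lit 13392, R4_296, R5_273, R6_279⟩]⟩]⟩,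
 ⟨nat_lit 6, [⟨nat_lit 4, [⟨nat_lit 1, nat_lit 11520, nat_lit 240, nat_lit 2976, nat_lit 16032, nat_lit 13488, R3_62, R11_334, R6_281⟩]⟩]⟩], [], [⟨nat_lit 4, [⟨nat_lit 4, [⟨nat_lit 1, nat_lit 15264, nat_lit 7152, nat_lit 14592, nat_lit 13200, nat_lit 13248, R4_304, R5_275, R4_276⟩]⟩]⟩,
 ⟨nat_lit 6, [⟨nat_lit 4, [⟨nat_lit 1, nat_lit 15312, nat_lit 7200, nat_lit 10464, nat_lit 16128, nat_lit 13296, R3_218, R11_336, R4_277⟩, ⟨nat_lit 5, nat_lit 15408, nat_lit 7248, nat_lit 10416, nat_lit 11184, nat_lit 14496, R3_217, R1_233, R7_302⟩]⟩, ⟨nat_lit 6, [⟨nat_lit 5, nat_lit 15744, nat_lit 7296, nat_lit 3984, nat_lit 11280, nat_lit 14208, R10_83, R1_235, R2_296⟩]⟩]⟩]], [[], [], [], [⟨nat_lit 4, [⟨nat_lit 4, [⟨nat_lit 3, nat_lit 10272, nat_lit 5856, nat_lit 13584, nat_lit 16656, nat_lit 14400, R4_283, R3_347, R7_300⟩]⟩,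 ⟨nat_lit 7, [⟨nat_lit 0, nat_lit 10608, nat_lit 6192, nat_lit 14544, nat_lit 13872, nat_lit 9408, R5_303, R13_289, R7_196⟩, ⟨nat_lit 3, nat_lit 10800, nat_lit 6240, nat_lit 16080, nat_lit 17184, nat_lit 5520, R5_335, R3_358, R14_115⟩]⟩]⟩,
 ⟨nat_lit 6, [⟨nat_lit 4, [⟨nat_lit 3, nat_lit 10320, nat_lit 5952, nat_lit 15456, nat_lit 12432, nat_lit 14544, R3_322, R10_259, R7_303⟩]⟩, ⟨nat_lit 7, [⟨nat_lit 0, nat_lit 10656, nat_lit 7296, nat_lit 2592, nat_lit 2016, nat_lit 10320, R0_54, R3_42, R7_215⟩, ⟨nat_lit 3, nat_lit 10848, nat_lit 7344, nat_lit 2640, nat_lit 12768, nat_lit 5568, R0_55, R10_266, R14_116⟩]⟩]⟩,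
 ⟨nat_lit 7, [⟨nat_lit 3, [⟨nat_lit 0, nat_lit 9744, nat_lit 4560, nat_lit 3984, nat_lit 14304, nat_lit 10128, R1_83, R3_298, R4_211⟩, ⟨nat_lit 2, nat_lit 10032, nat_lit 4608, nat_lit 4032, nat_lit 2016, nat_lit 5568, R1_84, R10_42, R5_116⟩]⟩, ⟨nat_lit 7, [⟨nat_lit 0, nat_lit 10704, nat_lit 6864, nat_lit 4992, nat_lit 12720, nat_lit 10800, R11_104, R3_265, R7_225⟩]⟩]⟩], [], [], [], [⟨nat_lit 4, [⟨nat_lit 4, [⟨nat_lit 0, nat_lit 16128, nat_lit 7824, nat_lit 12192, nat_lit 13728, nat_lit 13632, R4_254, R13_286, R6_284⟩, ⟨nat_lit 1, nat_lit 16560, nat_lit 7872, nat_lit 14448, nat_lit 11376, nat_lit 13872, R4_301, R9_237, R8_289⟩, ⟨nat_lit 3, nat_lit 16752, nat_lit 7920, nat_lit 13392, nat_lit 16752, nat_lit 13392, R4_279, R3_349, R4_279⟩]⟩, ⟨nat_lit 7, [⟨nat_lit 0, nat_lit 17472, nat_lit 8112, nat_lit 14688, nat_lit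 13824, nat_lit 5280, R5_306, R13_288, R4_110⟩, ⟨nat_lit 1, nat_lit 17856, nat_lit 8160, nat_lit 17328, nat_lit 11520, nat_lit 10848, R5_361, R9_240, R5_226⟩]⟩]⟩,
 ⟨nat_lit 6, [⟨nat_lit 4, [⟨nat_lit 0, nat_lit 16176, nat_lit 7968, nat_lit 8592, nat_lit 672, nat_lit 13920, R3_179, R3_14, R6_290⟩, ⟨nat_lit 3, nat_lit 16800, nat_lit 8064, nat_lit 8640, nat_lit 12384, nat_lit 13728, R3_180, R10_258, R4_286⟩]⟩]⟩,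
 ⟨nat_lit 7, [⟨nat_lit 7, [⟨nat_lit 0, nat_lit 17568, nat_lit 8208, nat_lit 5040, nat_lit 4752, nat_lit 6912, R11_105, R3_99, R4_144⟩]⟩]⟩]]], [[], [], [], [[⟨nat_lit 3, [⟨nat_lit 0, [⟨nat_lit 2, nat_lit 672, nat_lit 16176, nat_lit 8592, nat_lit 7968, nat_lit 6240, R3_179, R11_166, R6_130⟩]⟩, ⟨nat_lit 2, [⟨nat_lit 2, nat_lit 1152, nat_lit 17520, nat_lit 2928, nat_lit 8304, nat_lit 6576, R0_61, R11_173, R4_137⟩, ⟨nat_lit 6, nat_lit 2016, nat_lit 10656, nat_lit 2592, nat_lit 7296, nat_lit 6192, R0_54, R1_152, R7_129⟩]⟩]⟩,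
 ⟨nat_lit 7, [⟨nat_lit 0, [⟨nat_lit 2, nat_lit 624, nat_lit 15936, nat_lit 11904, nat_lit 192, nat_lit 6288, R2_248, R1_4, R6_131⟩]⟩, ⟨nat_lit 3, [⟨nat_lit 0, nat_lit 2208, nat_lit 11760, nat_lit 3024, nat_lit 1824, nat_lit 9216, R12_63, R2_38, R6_192⟩, ⟨nat_lit 2, nat_lit 2736, nat_lit 16896, nat_lit 3072, nat_lit 1296, nat_lit 5760, R12_64, R1_27, R8_120⟩, ⟨nat_lit 3, nat_lit 2880, nat_lit 14112, nat_lit 3120, nat_lit 10320, nat_lit 9984, R12_65, R12_215, R4_208⟩]⟩]⟩], [⟨nat_lit 3, [⟨nat_lit 0, [⟨nat_lit 2, nat_lit 4272, nat_lit 528, nat_lit 8928, nat_lit 9696, nat_lit 6672, R3_186, R11_202, R13_139⟩]⟩, ⟨nat_lit 1, [⟨nat_lit 2, nat_lit 6000, nat_lit 864, nat_lit 14304, nat_lit 10224, nat_lit 5040, R10_298, R11_213, R3_105⟩]⟩, ⟨nat_lit 2, [⟨nat_lit 2, nat_lit 6336, nat_lit 2592, nat_lit 3312, nat_lit 10128,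 nat_lit 6288, R0_69, R11_211, R3_131⟩, ⟨nat_lit 6, nat_lit 6960, nat_lit 2304, nat_lit 3120, nat_lit 7680, nat_lit 4368, R0_65, R1_160, R2_91⟩]⟩]⟩,
 ⟨nat_lit 7, [⟨nat_lit 0, [⟨nat_lit 0, nat_lit 3696, nat_lit 240, nat_lit 12240, nat_lit 1056, nat_lit 6720, R2_255, R2_22, R6_140⟩, ⟨nat_lit 2, nat_lit 4224, nat_lit 576, nat_lit 12384, nat_lit 384, nat_lit 6720, R2_258, R1_8, R13_140⟩]⟩, ⟨nat_lit 1, [⟨nat_lit 0, nat_lit 4848, nat_lit 768, nat_lit 12816, nat_lit 3072, nat_lit 7008, R1_267, R2_64, R4_146⟩, ⟨nat_lit 2, nat_lit 5952, nat_lit 912, nat_lit 12960, nat_lit 2544, nat_lit 5088, R1_270, R1_53, R3_106⟩]⟩, ⟨nat_lit 3, [⟨nat_lit 0, nat_lit 7104, nat_lit 1104, nat_lit 3264, nat_lit 2880, nat_lit 7248, R12_68, R2_60, R8_151⟩, ⟨nat_lit 2, nat_lit 7488, nat_lit 2112, nat_lit 3312, nat_lit 2352, nat_lit 4992, R12_69,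 R1_49, R9_104⟩, ⟨nat_lit 3, nat_lit 7584, nat_lit 1536, nat_lit 3360, nat_lit 10368, nat_lit 5472, R12_70, R12_216, R5_114⟩]⟩]⟩], [⟨nat_lit 3, [⟨nat_lit 2, [⟨nat_lit 6, nat_lit 8496, nat_lit 5040, nat_lit 4464, nat_lit 7392, nat_lit 9504, R0_93, R1_154, R2_198⟩]⟩]⟩]], [], [], [], [[⟨nat_lit 7, [⟨nat_lit 0, [⟨nat_lit 2, nat_lit 576, nat_lit 960, nat_lit 11952, nat_lit 288, nat_lit 6336, R2_249, R10_6, R6_132⟩]⟩, ⟨nat_lit 3, [⟨nat_lit 0, nat_lit 2160, nat_lit 1344, nat_lit 3168, nat_lit 11856, nat_lit 7824, R12_66, R3_247, R6_163⟩, ⟨nat_lit 2, nat_lit 2688, nat_lit 2496, nat_lit 3216, nat_lit 1248, nat_lit 5808, R12_67, R10_26, R8_121⟩]⟩]⟩], [⟨nat_lit 7, [⟨nat_lit 0, [⟨nat_lit 0, nat_lit 3648, nat_lit 144, nat_lit 12288, nat_lit 15984, nat_lit 6672, R2_256, R3_333, R6_139⟩, ⟨nat_lit 2, nat_lit 4176, nat_lit 288,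 nat_lit 12432, nat_lit 624, nat_lit 6768, R2_259, R10_13, R13_141⟩]⟩, ⟨nat_lit 1, [⟨nat_lit 0, nat_lit 4800, nat_lit 480, nat_lit 12864, nat_lit 17328, nat_lit 6960, R1_268, R3_361, R4_145⟩, ⟨nat_lit 2, nat_lit 5904, nat_lit 528, nat_lit 13008, nat_lit 2688, nat_lit 5136, R1_271, R10_56, R3_107⟩]⟩, ⟨nat_lit 3, [⟨nat_lit 0, nat_lit 7056, nat_lit 816, nat_lit 3408, nat_lit 16992, nat_lit 8592, R12_71, R3_354, R8_179⟩, ⟨nat_lit 2, nat_lit 7440, nat_lit 1968, nat_lit 3456, nat_lit 2208, nat_lit 5040, R12_72, R10_46, R9_105⟩]⟩]⟩], [], [⟨nat_lit 7, [⟨nat_lit 3, [⟨nat_lit 0, nat_lit 9840, nat_lit 5952, nat_lit 3504, nat_lit 14208, nat_lit 10080, R12_73, R3_296, R4_210⟩, ⟨nat_lit 2, nat_lit 10224, nat_lit 6000, nat_lit 3552, nat_lit 1968, nat_lit 5616, R12_74, R10_41, R5_117⟩]⟩]⟩]]], [[], [], [], [], [[], [⟨nat_lit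 4, [⟨nat_lit 1, [⟨nat_lit 0, nat_lit 4320, nat_lit 672, nat_lit 1008, nat_lit 3120, nat_lit 6768, R4_21, R6_65, R4_141⟩, ⟨nat_lit 2, nat_lit 4896, nat_lit 816, nat_lit 1104, nat_lit 2784, nat_lit 5472, R4_23, R4_58, R3_114⟩]⟩]⟩,
 ⟨nat_lit 5, [⟨nat_lit 1, [⟨nat_lit 0, nat_lit 4368, nat_lit 7056, nat_lit 4368, nat_lit 17856, nat_lit 7056, R3_91, R8_372, R4_147⟩, ⟨nat_lit 2, nat_lit 4944, nat_lit 7200, nat_lit 4416, nat_lit 4224, nat_lit 5520, R3_92, R5_88, R3_115⟩]⟩]⟩], [], [], [], [⟨nat_lit 4, [⟨nat_lit 1, [⟨nat_lit 0, nat_lit 12336, nat_lit 768, nat_lit 1584, nat_lit 3264, nat_lit 10608, R4_33, R6_68, R7_221⟩, ⟨nat_lit 1, nat_lit 12768, nat_lit 816, nat_lit 1728, nat_lit 4176, nat_lit 9696, R4_36, R8_87, R2_202⟩, ⟨nat_lit 2, nat_lit 13104, nat_lit 912, nat_lit 1632, nat_lit 2928, nat_lit 4752, R4_34, R4_61,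 R2_99⟩]⟩, ⟨nat_lit 5, [⟨nat_lit 0, nat_lit 13584, nat_lit 1296, nat_lit 1680, nat_lit 4080, nat_lit 9648, R7_35, R6_85, R4_201⟩, ⟨nat_lit 1, nat_lit 14352, nat_lit 1392, nat_lit 1824, nat_lit 4032, nat_lit 14352, R7_38, R8_84, R3_299⟩]⟩]⟩,
 ⟨nat_lit 5, [⟨nat_lit 1, [⟨nat_lit 0, nat_lit 12384, nat_lit 6768, nat_lit 12384, nat_lit 11136, nat_lit 10656, R3_258, R8_232, R7_222⟩, ⟨nat_lit 1, nat_lit 12816, nat_lit 6816, nat_lit 12528, nat_lit 3360, nat_lit 9744, R3_261, R9_70, R2_203⟩, ⟨nat_lit 2, nat_lit 13152, nat_lit 6912, nat_lit 12432, nat_lit 3168, nat_lit 4944, R3_259, R5_66, R2_103⟩]⟩, ⟨nat_lit 5, [⟨nat_lit 0, nat_lit 13632, nat_lit 7296, nat_lit 240, nat_lit 11184, nat_lit 9792, R2_5, R8_233, R4_204⟩, ⟨nat_lit 1, nat_lit 14400, nat_lit 7392, nat_lit 384, nat_lit 3216, nat_lit 14496, R2_8, R9_67, R3_302⟩]⟩]⟩]],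 [[], [⟨nat_lit 5, [⟨nat_lit 1, [⟨nat_lit 0, nat_lit 4416, nat_lit 5520, nat_lit 4944, nat_lit 4224, nat_lit 7200, R3_103, R5_88, R4_150⟩, ⟨nat_lit 2, nat_lit 4992, nat_lit 5568, nat_lit 4992, nat_lit 4224, nat_lit 5568, R3_104, R11_88, R3_116⟩]⟩]⟩], [], [], [], [⟨nat_lit 5, [⟨nat_lit 1, [⟨nat_lit 0, nat_lit 12432, nat_lit 4944, nat_lit 13152, nat_lit 3168, nat_lit 10944, R3_274, R5_66, R7_228⟩, ⟨nat_lit 1, nat_lit 12864, nat_lit 4992, nat_lit 13296, nat_lit 1824, nat_lit 9936, R3_277, R0_38, R2_207⟩, ⟨nat_lit 2, nat_lit 13200, nat_lit 5088, nat_lit 13200, nat_lit 3168, nat_lit 5088, R3_275, R11_66, R2_106⟩]⟩, ⟨nat_lit 5, [⟨nat_lit 0, nat_lit 13680, nat_lit 5520, nat_lit 5952, nat_lit 768, nat_lit 10272, R2_124, R5_16, R4_214⟩, ⟨nat_lit 1, nat_lit 14448, nat_lit 5616, nat_lit 6096, nat_lit 1680, nat_lit 14544,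 R2_127, R0_35, R3_303⟩]⟩]⟩]], [], [[], [], [], [], [], [⟨nat_lit 4, [⟨nat_lit 1, [⟨nat_lit 0, nat_lit 12480, nat_lit 1968, nat_lit 8304, nat_lit 13008, nat_lit 10704, R4_173, R13_271, R7_223⟩, ⟨nat_lit 1, nat_lit 12912, nat_lit 2160, nat_lit 8448, nat_lit 10224, nat_lit 9792, R4_176, R9_213, R2_204⟩, ⟨nat_lit 2, nat_lit 13248, nat_lit 2304, nat_lit 8352, nat_lit 9696, nat_lit 4800, R4_174, R3_202, R2_100⟩]⟩, ⟨nat_lit 5, [⟨nat_lit 0, nat_lit 13728, nat_lit 144, nat_lit 8304, nat_lit 14208, nat_lit 9888, R7_173, R13_296, R4_206⟩, ⟨nat_lit 1, nat_lit 14496, nat_lit 384, nat_lit 8448, nat_lit 11904, nat_lit 14400, R7_176, R9_248, R3_300⟩]⟩]⟩,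
 ⟨nat_lit 5, [⟨nat_lit 1, [⟨nat_lit 0, nat_lit 12528, nat_lit 9744, nat_lit 12816, nat_lit 3360, nat_lit 10848, R3_267, R9_70, R7_226⟩]⟩, ⟨nat_lit 5, [⟨nat_lit 0, nat_lit 13776, nat_lit 7152, nat_lit 7248, nat_lit 1728, nat_lit 10176, R2_151, R9_36, R4_212⟩]⟩]⟩,
 ⟨nat_lit 7, [⟨nat_lit 5, [⟨nat_lit 0, nat_lit 13824, nat_lit 5856, nat_lit 5280, nat_lit 9648, nat_lit 10032, R2_110, R3_201, R4_209⟩, ⟨nat_lit 1, nat_lit 14544, nat_lit 6096, nat_lit 5616, nat_lit 1680, nat_lit 14448, R2_117, R0_35, R3_301⟩]⟩]⟩]]], [[], [[], [⟨nat_lit 1, [⟨nat_lit 1, [⟨nat_lit 2, nat_lit 5136, nat_lit 528, nat_lit 13008, nat_lit 18912, nat_lit 5904, R1_271, R10_394, R3_123⟩]⟩]⟩]], [], [], [], [[], [⟨nat_lit 1, [⟨nat_lit 1, [⟨nat_lit 2, nat_lit 5088, nat_lit 18768, nat_lit 12960, nat_lit 2544, nat_lit 5952, R1_270, R1_53, R3_124⟩]⟩]⟩,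
 ⟨nat_lit 5, [⟨nat_lit 1, [⟨nat_lit 0, nat_lit 4464, nat_lit 4320, nat_lit 4752, nat_lit 4320, nat_lit 7296, R10_99, R5_90, R4_152⟩, ⟨nat_lit 2, nat_lit 5040, nat_lit 4464, nat_lit 4848, nat_lit 10224, nat_lit 6000, R10_101, R11_213, R3_125⟩]⟩]⟩], [], [], [], [⟨nat_lit 1, [⟨nat_lit 1, [⟨nat_lit 2, nat_lit 13392, nat_lit 15456, nat_lit 12912, nat_lit 2496, nat_lit 5184, R1_269, R1_52, R2_108⟩]⟩]⟩,
 ⟨nat_lit 5, [⟨nat_lit 1, [⟨nat_lit 0, nat_lit 12576, nat_lit 3648, nat_lit 5376, nat_lit 3216, nat_lit 10992, R10_112, R5_67, R7_229⟩, ⟨nat_lit 1, nat_lit 12960, nat_lit 3696, nat_lit 5520, nat_lit 6864, nat_lit 9984, R10_115, R0_143, R2_208⟩, ⟨nat_lit 2, nat_lit 13344, nat_lit 3792, nat_lit 5424, nat_lit 9408, nat_lit 5136, R10_113, R11_196, R2_107⟩]⟩, ⟨nat_lit 5, [⟨nat_lit 0, nat_lit 14256, nat_lit 4224, nat_lit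 4656, nat_lit 816, nat_lit 10368, R1_97, R5_17, R4_216⟩, ⟨nat_lit 1, nat_lit 15072, nat_lit 4320, nat_lit 4800, nat_lit 6720, nat_lit 15120, R1_100, R0_140, R3_315⟩]⟩]⟩]]], [[], [], [], [], [[], [], [], [], [⟨nat_lit 4, [⟨nat_lit 4, [⟨nat_lit 1, nat_lit 11040, nat_lit 4752, nat_lit 15696, nat_lit 11280, nat_lit 13008, R7_327, R8_235, R6_271⟩]⟩, ⟨nat_lit 5, [⟨nat_lit 0, nat_lit 11568, nat_lit 240, nat_lit 8256, nat_lit 11328, nat_lit 9024, R14_172, R6_236, R6_188⟩, ⟨nat_lit 1, nat_lit 11904, nat_lit 5184, nat_lit 8880, nat_lit 11424, nat_lit 18624, R14_185, R8_238, R13_388⟩]⟩]⟩,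
 ⟨nat_lit 5, [⟨nat_lit 5, [⟨nat_lit 0, nat_lit 11664, nat_lit 336, nat_lit 6864, nat_lit 3840, nat_lit 9120, R12_143, R8_80, R6_190⟩, ⟨nat_lit 1, nat_lit 12000, nat_lit 5280, nat_lit 7488, nat_lit 12192, nat_lit 18960, R12_156, R9_254, R13_395⟩]⟩]⟩,
 ⟨nat_lit 6, [⟨nat_lit 4, [⟨nat_lit 1, nat_lit 11088, nat_lit 4800, nat_lit 14400, nat_lit 2544, nat_lit 13152, R2_300, R5_53, R6_274⟩]⟩, ⟨nat_lit 5, [⟨nat_lit 0, nat_lit 11616, nat_lit 480, nat_lit 2688, nat_lit 2304, nat_lit 9072, R12_56, R4_48, R6_189⟩, ⟨nat_lit 1, nat_lit 11952, nat_lit 5424, nat_lit 4032, nat_lit 2688, nat_lit 18768, R12_84, R5_56, R13_391⟩]⟩]⟩], [⟨nat_lit 4, [⟨nat_lit 5, [⟨nat_lit 0, nat_lit 13872, nat_lit 18624, nat_lit 8304, nat_lit 11568, nat_lit 9696, R14_173, R6_241, R4_202⟩, ⟨nat_lit 1, nat_lit 14592, nat_lit 19104, nat_lit 8928, nat_lit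 12000, nat_lit 14592, R14_186, R8_250, R3_304⟩]⟩]⟩,
 ⟨nat_lit 5, [⟨nat_lit 5, [⟨nat_lit 0, nat_lit 13968, nat_lit 20112, nat_lit 6912, nat_lit 11808, nat_lit 9840, R12_144, R8_246, R4_205⟩, ⟨nat_lit 1, nat_lit 14688, nat_lit 20784, nat_lit 7536, nat_lit 12960, nat_lit 14928, R12_157, R9_270, R3_311⟩]⟩]⟩,
 ⟨nat_lit 6, [⟨nat_lit 5, [⟨nat_lit 0, nat_lit 13920, nat_lit 21696, nat_lit 2736, nat_lit 11184, nat_lit 9744, R12_57, R4_233, R4_203⟩, ⟨nat_lit 1, nat_lit 14640, nat_lit 22080, nat_lit 4080, nat_lit 13920, nat_lit 14736, R12_85, R5_290, R3_307⟩]⟩]⟩]], [[], [], [], [], [], [⟨nat_lit 5, [⟨nat_lit 5, [⟨nat_lit 0, nat_lit 14016, nat_lit 15888, nat_lit 7776, nat_lit 864, nat_lit 10320, R12_162, R5_18, R4_215⟩, ⟨nat_lit 1, nat_lit 14880, nat_lit 16560, nat_lit 7920, nat_lit 11136, nat_lit 15024, R12_165, R0_232,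 R3_313⟩]⟩]⟩]], [[], [], [], [], [⟨nat_lit 4, [⟨nat_lit 4, [⟨nat_lit 1, nat_lit 11136, nat_lit 3168, nat_lit 15888, nat_lit 12816, nat_lit 13056, R7_331, R5_267, R6_272⟩]⟩, ⟨nat_lit 5, [⟨nat_lit 1, nat_lit 12048, nat_lit 3600, nat_lit 11136, nat_lit 13824, nat_lit 18672, R14_232, R5_288, R13_389⟩]⟩]⟩,
 ⟨nat_lit 6, [⟨nat_lit 4, [⟨nat_lit 1, nat_lit 11184, nat_lit 3216, nat_lit 14592, nat_lit 15744, nat_lit 13200, R2_304, R11_328, R6_275⟩]⟩, ⟨nat_lit 5, [⟨nat_lit 1, nat_lit 12096, nat_lit 3840, nat_lit 5376, nat_lit 16896, nat_lit 18816, R12_112, R11_352, R13_392⟩]⟩]⟩], [⟨nat_lit 4, [⟨nat_lit 5, [⟨nat_lit 1, nat_lit 14736, nat_lit 15600, nat_lit 11184, nat_lit 13920, nat_lit 14640, R14_233, R5_290, R3_305⟩]⟩]⟩,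
 ⟨nat_lit 5, [⟨nat_lit 5, [⟨nat_lit 1, nat_lit 14832, nat_lit 16272, nat_lit 9312, nat_lit 10752, nat_lit 14976, R12_194, R0_224, R3_312⟩]⟩]⟩,
 ⟨nat_lit 6, [⟨nat_lit 5, [⟨nat_lit 1, nat_lit 14784, nat_lit 16896, nat_lit 5424, nat_lit 16992, nat_lit 14784, R12_113, R11_354, R3_308⟩]⟩]⟩], [⟨nat_lit 4, [⟨nat_lit 4, [⟨nat_lit 1, nat_lit 15168, nat_lit 2640, nat_lit 16560, nat_lit 12864, nat_lit 13152, R7_345, R5_268, R4_274⟩]⟩, ⟨nat_lit 5, [⟨nat_lit 1, nat_lit 15504, nat_lit 3072, nat_lit 11232, nat_lit 13872, nat_lit 9168, R14_234, R5_289, R3_191⟩]⟩]⟩,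
 ⟨nat_lit 6, [⟨nat_lit 4, [⟨nat_lit 1, nat_lit 15216, nat_lit 2688, nat_lit 14832, nat_lit 15792, nat_lit 13200, R2_309, R11_329, R4_275⟩, ⟨nat_lit 5, nat_lit 15360, nat_lit 13152, nat_lit 10608, nat_lit 11136, nat_lit 14448, R2_221, R1_232, R7_301⟩]⟩, ⟨nat_lit 5, [⟨nat_lit 1, nat_lit 15552, nat_lit 3312, nat_lit 5472, nat_lit 16944, nat_lit 9216, R12_114, R11_353, R3_192⟩, ⟨nat_lit 5, nat_lit 15648, nat_lit 13632, nat_lit 6336, nat_lit 11328, nat_lit 13872, R12_132, R1_236, R2_289⟩]⟩, ⟨nat_lit 6, [⟨nat_lit 5, nat_lit 15696, nat_lit 13776, nat_lit 10992, nat_lit 11232, nat_lit 14256, R1_229, R1_234, R2_297⟩]⟩]⟩]], [[], [], [], [], [⟨nat_lit 4, [⟨nat_lit 4, [⟨nat_lit 1, nat_lit 11232, nat_lit 7488, nat_lit 15792, nat_lit 10944, nat_lit 13104, R7_329, R9_228, R6_273⟩]⟩, ⟨nat_lit 5, [⟨nat_lit 0, nat_lit 11712,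 nat_lit 1248, nat_lit 9456, nat_lit 14640, nat_lit 9168, R14_197, R13_305, R6_191⟩, ⟨nat_lit 1, nat_lit 12192, nat_lit 8304, nat_lit 10608, nat_lit 12480, nat_lit 18720, R14_221, R9_260, R13_390⟩]⟩]⟩,
 ⟨nat_lit 5, [⟨nat_lit 5, [⟨nat_lit 0, nat_lit 11808, nat_lit 1632, nat_lit 8352, nat_lit 1056, nat_lit 9312, R12_174, R9_22, R6_194⟩]⟩]⟩,
 ⟨nat_lit 6, [⟨nat_lit 5, [⟨nat_lit 0, nat_lit 11760, nat_lit 1824, nat_lit 3024, nat_lit 2208, nat_lit 9216, R12_63, R3_46, R6_192⟩]⟩]⟩,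
 ⟨nat_lit 7, [⟨nat_lit 5, [⟨nat_lit 0, nat_lit 11856, nat_lit 1344, nat_lit 3168, nat_lit 2160, nat_lit 9264, R12_66, R3_45, R6_193⟩]⟩]⟩], [⟨nat_lit 4, [⟨nat_lit 5, [⟨nat_lit 0, nat_lit 14064, nat_lit 288, nat_lit 9552, nat_lit 14736, nat_lit 9936, R14_199, R13_307, R4_207⟩, ⟨nat_lit 1, nat_lit 14928, nat_lit 1344, nat_lit 10704, nat_lit 12576, nat_lit 14688, R14_223, R9_262, R3_306⟩]⟩]⟩,
 ⟨nat_lit 6, [⟨nat_lit 5, [⟨nat_lit 0, nat_lit 14112, nat_lit 10320, nat_lit 3120, nat_lit 2880, nat_lit 9984, R12_65, R3_60, R4_208⟩, ⟨nat_lit 1, nat_lit 14976, nat_lit 11088, nat_lit 4704, nat_lit 10752, nat_lit 14832, R12_98, R0_224, R3_309⟩]⟩]⟩,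
 ⟨nat_lit 7, [⟨nat_lit 5, [⟨nat_lit 0, nat_lit 14208, nat_lit 5952, nat_lit 3504, nat_lit 9840, nat_lit 10080, R12_73, R3_205, R4_210⟩, ⟨nat_lit 1, nat_lit 15024, nat_lit 6192, nat_lit 5088, nat_lit 11136, nat_lit 14880, R12_106, R0_232, R3_310⟩]⟩]⟩], [], [⟨nat_lit 4, [⟨nat_lit 4, [⟨nat_lit 0, nat_lit 15888, nat_lit 48, nat_lit 13344, nat_lit 13488, nat_lit 13776, R7_278, R13_281, R6_287⟩, ⟨nat_lit 1, nat_lit 16224, nat_lit 8016, nat_lit 16128, nat_lit 10992, nat_lit 13632, R7_336, R9_229, R8_284⟩, ⟨nat_lit 3, nat_lit 16656, nat_lit 5856, nat_lit 14736, nat_lit 10272, nat_lit 13584, R7_307, R3_214, R4_283⟩]⟩, ⟨nat_lit 5, [⟨nat_lit 0, nat_lit 16848, nat_lit 720, nat_lit 9504, nat_lit 14688, nat_lit 8496, R14_198, R13_306, R8_177⟩, ⟨nat_lit 1, nat_lit 17040, nat_lit 9120, nat_lit 10656, nat_lit 12528, nat_lit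 15216, R14_222, R9_261, R9_317⟩, ⟨nat_lit 3, nat_lit 17184, nat_lit 6240, nat_lit 10128, nat_lit 10800, nat_lit 16080, R14_211, R3_225, R5_335⟩]⟩]⟩,
 ⟨nat_lit 6, [⟨nat_lit 4, [⟨nat_lit 0, nat_lit 15936, nat_lit 192, nat_lit 11904, nat_lit 624, nat_lit 13968, R2_248, R3_13, R6_291⟩, ⟨nat_lit 3, nat_lit 16704, nat_lit 5904, nat_lit 13920, nat_lit 12240, nat_lit 13776, R2_290, R10_255, R4_287⟩]⟩, ⟨nat_lit 5, [⟨nat_lit 0, nat_lit 16896, nat_lit 1296, nat_lit 3072, nat_lit 2736, nat_lit 8544, R12_64, R3_57, R8_178⟩, ⟨nat_lit 3, nat_lit 17232, nat_lit 6720, nat_lit 3600, nat_lit 12960, nat_lit 16128, R12_75, R10_270, R5_336⟩]⟩]⟩,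
 ⟨nat_lit 7, [⟨nat_lit 4, [⟨nat_lit 0, nat_lit 15984, nat_lit 144, nat_lit 12288, nat_lit 3648, nat_lit 14208, R2_256, R3_76, R6_296⟩]⟩, ⟨nat_lit 5, [⟨nat_lit 0, nat_lit 16992, nat_lit 816, nat_lit 3408, nat_lit 7056, nat_lit 8592, R12_71, R3_147, R8_179⟩]⟩, ⟨nat_lit 7, [⟨nat_lit 0, nat_lit 17328, nat_lit 480, nat_lit 12864, nat_lit 4800, nat_lit 6960, R1_268, R3_100, R4_145⟩]⟩]⟩]]], [[], [], [], [], [[], [⟨nat_lit 4, [⟨nat_lit 1, [⟨nat_lit 0, nat_lit 4512, nat_lit 1584, nat_lit 0, nat_lit 7296, nat_lit 6816, R5_0, R6_152, R4_142⟩, ⟨nat_lit 2, nat_lit 5184, nat_lit 3984, nat_lit 96, nat_lit 7968, nat_lit 5616, R5_2, R4_166, R3_117⟩]⟩]⟩,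
 ⟨nat_lit 5, [⟨nat_lit 1, [⟨nat_lit 0, nat_lit 4560, nat_lit 10080, nat_lit 11856, nat_lit 18672, nat_lit 7104, R0_247, R8_389, R4_148⟩, ⟨nat_lit 2, nat_lit 5232, nat_lit 12432, nat_lit 12000, nat_lit 12576, nat_lit 5664, R0_250, R5_262, R3_118⟩]⟩]⟩]], [[], [⟨nat_lit 5, [⟨nat_lit 1, [⟨nat_lit 0, nat_lit 4608, nat_lit 480, nat_lit 11904, nat_lit 4272, nat_lit 7248, R0_248, R5_89, R4_151⟩, ⟨nat_lit 2, nat_lit 5280, nat_lit 528, nat_lit 12048, nat_lit 15552, nat_lit 5856, R0_251, R11_324, R3_122⟩]⟩]⟩]], [], [[], [⟨nat_lit 4, [⟨nat_lit 1, [⟨nat_lit 0, nat_lit 4656, nat_lit 1488, nat_lit 5040, nat_lit 13248, nat_lit 6864, R5_105, R13_276, R4_143⟩, ⟨nat_lit 2, nat_lit 5328, nat_lit 1632, nat_lit 5760, nat_lit 9984, nat_lit 5712, R5_120, R3_208, R3_119⟩]⟩]⟩,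
 ⟨nat_lit 5, [⟨nat_lit 1, [⟨nat_lit 0, nat_lit 4704, nat_lit 1536, nat_lit 11952, nat_lit 3648, nat_lit 7152, R0_249, R9_76, R4_149⟩, ⟨nat_lit 2, nat_lit 5376, nat_lit 1680, nat_lit 12096, nat_lit 2112, nat_lit 5808, R0_252, R0_44, R3_121⟩]⟩]⟩,
 ⟨nat_lit 7, [⟨nat_lit 1, [⟨nat_lit 0, nat_lit 4752, nat_lit 1584, nat_lit 18192, nat_lit 17568, nat_lit 6912, R11_379, R3_366, R4_144⟩, ⟨nat_lit 2, nat_lit 5424, nat_lit 1728, nat_lit 18240, nat_lit 2640, nat_lit 5760, R11_380, R10_55, R3_120⟩]⟩]⟩], [], [], [], [⟨nat_lit 4, [⟨nat_lit 1, [⟨nat_lit 0, nat_lit 12624, nat_lit 1440, nat_lit 4992, nat_lit 13200, nat_lit 10752, R5_104, R13_275, R7_224⟩, ⟨nat_lit 1, nat_lit 13008, nat_lit 1632, nat_lit 6720, nat_lit 10512, nat_lit 9840, R5_140, R9_219, R2_205⟩, ⟨nat_lit 2, nat_lit 13440, nat_lit 1776, nat_lit 5664, nat_lit 9936,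 nat_lit 4848, R5_118, R3_207, R2_101⟩]⟩]⟩,
 ⟨nat_lit 7, [⟨nat_lit 1, [⟨nat_lit 0, nat_lit 12720, nat_lit 6864, nat_lit 18048, nat_lit 10704, nat_lit 10800, R11_376, R3_223, R7_225⟩, ⟨nat_lit 1, nat_lit 13056, nat_lit 7056, nat_lit 18144, nat_lit 5376, nat_lit 9888, R11_378, R0_112, R2_206⟩, ⟨nat_lit 2, nat_lit 13536, nat_lit 7200, nat_lit 18096, nat_lit 2400, nat_lit 4896, R11_377, R10_50, R2_102⟩]⟩, ⟨nat_lit 5, [⟨nat_lit 0, nat_lit 14304, nat_lit 4560, nat_lit 3984, nat_lit 9744, nat_lit 10128, R1_83, R3_203, R4_211⟩, ⟨nat_lit 1, nat_lit 15120, nat_lit 4800, nat_lit 4320, nat_lit 6720, nat_lit 15072, R1_90, R0_140, R3_314⟩]⟩]⟩]]]]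
noncomputable def N2247 : T3 (List N0) := [[[[⟨nat_lit 0, [⟨nat_lit 0, [⟨nat_lit 5, nat_lit 7920, nat_lit 576, nat_lit 240, nat_lit 16416, nat_lit 12576, R6_5, R6_342, R8_262⟩]⟩, ⟨nat_lit 1, [⟨nat_lit 5, nat_lit 8496, nat_lit 1152, nat_lit 144, nat_lit 16608, nat_lit 13488, R4_3, R6_346, R9_281⟩]⟩, ⟨nat_lit 2, [⟨nat_lit 5, nat_lit 8208, nat_lit 2832, nat_lit 3168, nat_lit 16512, nat_lit 1776, R8_66, R6_344, R5_37⟩]⟩]⟩], [⟨nat_lit 0, [⟨nat_lit 1, [⟨nat_lit 5, nat_lit 8688, nat_lit 1056, nat_lit 720, nat_lit 16704, nat_lit 11616, R4_15, R6_348, R0_242⟩]⟩]⟩], [⟨nat_lit 0, [⟨nat_lit 0, [⟨nat_lit 5, nat_lit 8064, nat_lit 432, nat_lit 2544, nat_lit 16464, nat_lit 8064, R6_53, R6_343, R5_168⟩]⟩, ⟨nat_lit 1, [⟨nat_lit 5, nat_lit 8592, nat_lit 528, nat_lit 2448, nat_lit 16656, nat_lit 576, R4_51, R6_347, R0_12⟩]⟩, ⟨nat_lit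 2, [⟨nat_lit 5, nat_lit 8352, nat_lit 576, nat_lit 3216, nat_lit 16560, nat_lit 10512, R8_67, R6_345, R11_219⟩]⟩]⟩]], [], [[], [], [⟨nat_lit 0, [⟨nat_lit 0, [⟨nat_lit 5, nat_lit 8784, nat_lit 4656, nat_lit 10224, nat_lit 15168, nat_lit 8160, R6_213, R4_316, R5_170⟩]⟩, ⟨nat_lit 1, [⟨nat_lit 5, nat_lit 9072, nat_lit 5328, nat_lit 11280, nat_lit 15264, nat_lit 5856, R4_235, R4_318, R0_122⟩]⟩, ⟨nat_lit 2, [⟨nat_lit 1, nat_lit 16320, nat_lit 6336, nat_lit 10704, nat_lit 17760, nat_lit 8208, R8_223, R7_370, R1_171⟩, ⟨nat_lit 5, nat_lit 8928, nat_lit 6288, nat_lit 10800, nat_lit 15216, nat_lit 10608, R8_225, R4_317, R11_221⟩]⟩]⟩,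
 ⟨nat_lit 2, [⟨nat_lit 2, [⟨nat_lit 1, nat_lit 16656, nat_lit 7200, nat_lit 7488, nat_lit 15360, nat_lit 8352, R5_156, R2_320, R1_174⟩]⟩]⟩]], [[⟨nat_lit 0, [⟨nat_lit 0, [⟨nat_lit 4, nat_lit 912, nat_lit 4608, nat_lit 4800, nat_lit 14592, nat_lit 11808, R6_100, R6_304, R6_246⟩, ⟨nat_lit 5, nat_lit 9168, nat_lit 4656, nat_lit 5088, nat_lit 18288, nat_lit 12720, R6_106, R8_381, R8_265⟩]⟩, ⟨nat_lit 1, [⟨nat_lit 4, nat_lit 1488, nat_lit 6240, nat_lit 5184, nat_lit 16176, nat_lit 8016, R4_108, R6_337, R8_167⟩, ⟨nat_lit 5, nat_lit 9936, nat_lit 6288, nat_lit 5376, nat_lit 18576, nat_lit 13728, R4_112, R8_387, R9_286⟩]⟩, ⟨nat_lit 2, [⟨nat_lit 4, nat_lit 1200, nat_lit 8400, nat_lit 7536, nat_lit 15360, nat_lit 4656, R8_157, R6_320, R4_97⟩, ⟨nat_lit 5, nat_lit 9552, nat_lit 8448, nat_lit 7872, nat_lit 18432, nat_lit 10176,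 R8_164, R8_384, R5_212⟩]⟩]⟩,
 ⟨nat_lit 3, [⟨nat_lit 0, [⟨nat_lit 4, nat_lit 3264, nat_lit 5232, nat_lit 5616, nat_lit 4944, nat_lit 12096, R13_117, R4_103, R6_252⟩, ⟨nat_lit 5, nat_lit 11328, nat_lit 5280, nat_lit 5664, nat_lit 11328, nat_lit 12864, R13_118, R5_236, R8_268⟩]⟩, ⟨nat_lit 1, [⟨nat_lit 4, nat_lit 3840, nat_lit 6816, nat_lit 3888, nat_lit 7584, nat_lit 8064, R3_81, R4_158, R8_168⟩, ⟨nat_lit 5, nat_lit 12192, nat_lit 6864, nat_lit 3936, nat_lit 11664, nat_lit 13872, R3_82, R5_243, R9_289⟩]⟩, ⟨nat_lit 2, [⟨nat_lit 4, nat_lit 3600, nat_lit 8832, nat_lit 4368, nat_lit 6144, nat_lit 5760, R9_91, R4_128, R4_120⟩, ⟨nat_lit 5, nat_lit 11808, nat_lit 8880, nat_lit 4416, nat_lit 11520, nat_lit 10224, R9_92, R5_240, R5_213⟩]⟩]⟩], [⟨nat_lit 0, [⟨nat_lit 1, [⟨nat_lit 4, nat_lit 1584, nat_lit 4512, nat_lit 6816,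 nat_lit 16272, nat_lit 0, R4_142, R6_339, R5_0⟩, ⟨nat_lit 5, nat_lit 10080, nat_lit 4560, nat_lit 7104, nat_lit 18672, nat_lit 11856, R4_148, R8_389, R0_247⟩]⟩]⟩,
 ⟨nat_lit 3, [⟨nat_lit 1, [⟨nat_lit 4, nat_lit 3984, nat_lit 5184, nat_lit 5616, nat_lit 7968, nat_lit 96, R3_117, R4_166, R5_2⟩, ⟨nat_lit 5, nat_lit 12432, nat_lit 5232, nat_lit 5664, nat_lit 12576, nat_lit 12000, R3_118, R5_262, R0_250⟩]⟩]⟩], [⟨nat_lit 0, [⟨nat_lit 0, [⟨nat_lit 5, nat_lit 9312, nat_lit 3792, nat_lit 7104, nat_lit 18336, nat_lit 8112, R6_148, R8_382, R5_169⟩]⟩, ⟨nat_lit 1, [⟨nat_lit 5, nat_lit 10032, nat_lit 4704, nat_lit 7776, nat_lit 18624, nat_lit 8304, R4_162, R8_388, R0_173⟩]⟩, ⟨nat_lit 2, [⟨nat_lit 5, nat_lit 9696, nat_lit 6096, nat_lit 7968, nat_lit 18480, nat_lit 10560, R8_166, R8_385, R11_220⟩]⟩]⟩,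
 ⟨nat_lit 3, [⟨nat_lit 0, [⟨nat_lit 5, nat_lit 11520, nat_lit 4224, nat_lit 9216, nat_lit 11808, nat_lit 10224, R13_192, R5_246, R5_213⟩]⟩, ⟨nat_lit 1, [⟨nat_lit 5, nat_lit 12336, nat_lit 5088, nat_lit 7296, nat_lit 12096, nat_lit 8352, R3_152, R5_252, R0_174⟩]⟩, ⟨nat_lit 2, [⟨nat_lit 5, nat_lit 11952, nat_lit 6768, nat_lit 7008, nat_lit 11952, nat_lit 13488, R9_146, R5_249, R11_281⟩]⟩]⟩], [⟨nat_lit 0, [⟨nat_lit 0, [⟨nat_lit 4, nat_lit 1056, nat_lit 48, nat_lit 6000, nat_lit 14640, nat_lit 10464, R6_125, R6_305, R13_218⟩, ⟨nat_lit 5, nat_lit 9408, nat_lit 336, nat_lit 6432, nat_lit 18384, nat_lit 8016, R6_134, R8_383, R9_167⟩, ⟨nat_lit 7, nat_lit 13104, nat_lit 192, nat_lit 6144, nat_lit 14208, nat_lit 11472, R6_128, R4_296, R3_239⟩]⟩, ⟨nat_lit 1, [⟨nat_lit 4, nat_lit 1680, nat_lit 768, nat_lit 6336, nat_lit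 16224, nat_lit 96, R4_132, R6_338, R9_2⟩, ⟨nat_lit 7, nat_lit 13392, nat_lit 912, nat_lit 6480, nat_lit 15072, nat_lit 2208, R4_135, R4_314, R0_46⟩]⟩, ⟨nat_lit 2, [⟨nat_lit 4, nat_lit 1344, nat_lit 2256, nat_lit 7584, nat_lit 15408, nat_lit 384, R8_158, R6_321, R3_8⟩, ⟨nat_lit 5, nat_lit 9792, nat_lit 2544, nat_lit 7920, nat_lit 18528, nat_lit 7248, R8_165, R8_386, R0_151⟩, ⟨nat_lit 7, nat_lit 13248, nat_lit 2400, nat_lit 7680, nat_lit 14688, nat_lit 8832, R8_160, R4_306, R10_184⟩]⟩]⟩,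
 ⟨nat_lit 3, [⟨nat_lit 0, [⟨nat_lit 4, nat_lit 3456, nat_lit 3792, nat_lit 7344, nat_lit 5472, nat_lit 11088, R13_153, R4_114, R13_231⟩, ⟨nat_lit 5, nat_lit 11664, nat_lit 3936, nat_lit 7392, nat_lit 12192, nat_lit 8832, R13_154, R5_254, R9_184⟩]⟩, ⟨nat_lit 1, [⟨nat_lit 4, nat_lit 4128, nat_lit 6096, nat_lit 6192, nat_lit 7872, nat_lit 336, R3_129, R4_164, R9_7⟩]⟩, ⟨nat_lit 2, [⟨nat_lit 4, nat_lit 3744, nat_lit 7152, nat_lit 5376, nat_lit 6672, nat_lit 1056, R9_112, R4_139, R3_22⟩, ⟨nat_lit 5, nat_lit 12096, nat_lit 7296, nat_lit 5424, nat_lit 12336, nat_lit 8352, R9_113, R5_257, R0_174⟩]⟩, ⟨nat_lit 3, [⟨nat_lit 4, nat_lit 4224, nat_lit 5520, nat_lit 4944, nat_lit 7200, nat_lit 4416, R3_103, R4_150, R3_92⟩, ⟨nat_lit 5, nat_lit 12576, nat_lit 5664, nat_lit 5232, nat_lit 12432, nat_lit 12000, R3_109, R5_259, R0_250⟩]⟩]⟩]],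 [], [], [], [[], [], [], [⟨nat_lit 0, [⟨nat_lit 0, [⟨nat_lit 7, nat_lit 12816, nat_lit 3168, nat_lit 12624, nat_lit 15984, nat_lit 11136, R6_263, R7_333, R3_232⟩]⟩, ⟨nat_lit 1, [⟨nat_lit 7, nat_lit 13056, nat_lit 4032, nat_lit 12960, nat_lit 16704, nat_lit 12192, R4_270, R7_348, R0_254⟩]⟩, ⟨nat_lit 2, [⟨nat_lit 7, nat_lit 12960, nat_lit 6384, nat_lit 14544, nat_lit 16224, nat_lit 8880, R8_303, R7_338, R10_185⟩]⟩]⟩,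
 ⟨nat_lit 3, [⟨nat_lit 0, [⟨nat_lit 4, nat_lit 2592, nat_lit 3552, nat_lit 7968, nat_lit 9600, nat_lit 11136, R13_166, R7_200, R13_232⟩, ⟨nat_lit 7, nat_lit 13824, nat_lit 3600, nat_lit 8016, nat_lit 11856, nat_lit 12048, R13_167, R14_247, R3_251⟩]⟩, ⟨nat_lit 1, [⟨nat_lit 4, nat_lit 3024, nat_lit 4416, nat_lit 6624, nat_lit 11280, nat_lit 576, R3_138, R7_235, R9_12⟩, ⟨nat_lit 7, nat_lit 14160, nat_lit 4464, nat_lit 6672, nat_lit 11952, nat_lit 12768, R3_139, R14_249, R0_266⟩]⟩, ⟨nat_lit 2, [⟨nat_lit 4, nat_lit 2784, nat_lit 6528, nat_lit 5760, nat_lit 10464, nat_lit 1776, R9_120, R7_218, R3_37⟩, ⟨nat_lit 7, nat_lit 14016, nat_lit 6576, nat_lit 5808, nat_lit 11904, nat_lit 10464, R9_121, R14_248, R10_218⟩]⟩, ⟨nat_lit 3, [⟨nat_lit 4, nat_lit 3168, nat_lit 4944, nat_lit 13152, nat_lit 10944, nat_lit 12432, R3_274,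 R7_228, R3_259⟩]⟩]⟩,
 ⟨nat_lit 7, [⟨nat_lit 3, [⟨nat_lit 4, nat_lit 768, nat_lit 5520, nat_lit 5952, nat_lit 10272, nat_lit 13680, R2_124, R4_214, R3_285⟩, ⟨nat_lit 6, nat_lit 7728, nat_lit 5568, nat_lit 6000, nat_lit 7008, nat_lit 1680, R2_125, R5_146, R10_35⟩]⟩]⟩]]], [[[⟨nat_lit 0, [⟨nat_lit 0, [⟨nat_lit 5, nat_lit 7968, nat_lit 4560, nat_lit 15504, nat_lit 16752, nat_lit 16752, R8_323, R6_349, R8_349⟩]⟩, ⟨nat_lit 1, [⟨nat_lit 5, nat_lit 8544, nat_lit 4608, nat_lit 1536, nat_lit 16944, nat_lit 16848, R5_32, R6_353, R9_351⟩]⟩, ⟨nat_lit 2, [⟨nat_lit 5, nat_lit 8256, nat_lit 4656, nat_lit 2016, nat_lit 16848, nat_lit 2208, R9_42, R6_351, R5_46⟩]⟩]⟩,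
 ⟨nat_lit 1, [⟨nat_lit 0, [⟨nat_lit 4, nat_lit 1776, nat_lit 240, nat_lit 8208, nat_lit 9600, nat_lit 16512, R5_171, R6_200, R6_344⟩, ⟨nat_lit 5, nat_lit 10176, nat_lit 4992, nat_lit 9552, nat_lit 21552, nat_lit 16896, R5_199, R13_449, R8_352⟩]⟩, ⟨nat_lit 1, [⟨nat_lit 4, nat_lit 1872, nat_lit 288, nat_lit 10656, nat_lit 9696, nat_lit 3552, R11_222, R6_202, R8_74⟩, ⟨nat_lit 5, nat_lit 10368, nat_lit 5040, nat_lit 12000, nat_lit 21744, nat_lit 16992, R11_250, R13_453, R9_354⟩]⟩, ⟨nat_lit 2, [⟨nat_lit 4, nat_lit 1824, nat_lit 336, nat_lit 96, nat_lit 9648, nat_lit 2016, R0_2, R6_201, R4_42⟩, ⟨nat_lit 5, nat_lit 10272, nat_lit 5088, nat_lit 336, nat_lit 21648, nat_lit 2256, R0_7, R13_451, R5_47⟩]⟩]⟩], [⟨nat_lit 0, [⟨nat_lit 1, [⟨nat_lit 5, nat_lit 8736, nat_lit 48, nat_lit 1632, nat_lit 17040, nat_lit 14448, R5_34,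 R6_355, R0_301⟩]⟩]⟩,
 ⟨nat_lit 1, [⟨nat_lit 1, [⟨nat_lit 4, nat_lit 1920, nat_lit 4800, nat_lit 12624, nat_lit 9744, nat_lit 288, R11_263, R6_203, R5_6⟩, ⟨nat_lit 5, nat_lit 10464, nat_lit 5088, nat_lit 13056, nat_lit 21840, nat_lit 14592, R11_272, R13_455, R0_304⟩]⟩]⟩], [⟨nat_lit 0, [⟨nat_lit 0, [⟨nat_lit 5, nat_lit 8112, nat_lit 48, nat_lit 15648, nat_lit 16800, nat_lit 9312, R8_326, R6_350, R5_194⟩]⟩, ⟨nat_lit 1, [⟨nat_lit 5, nat_lit 8640, nat_lit 144, nat_lit 1728, nat_lit 16992, nat_lit 960, R5_36, R6_354, R0_20⟩]⟩, ⟨nat_lit 2, [⟨nat_lit 5, nat_lit 8400, nat_lit 192, nat_lit 2064, nat_lit 16896, nat_lit 11760, R9_43, R6_352, R11_245⟩]⟩]⟩,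
 ⟨nat_lit 1, [⟨nat_lit 0, [⟨nat_lit 5, nat_lit 10224, nat_lit 4416, nat_lit 11808, nat_lit 21600, nat_lit 11520, R5_246, R13_450, R5_240⟩]⟩, ⟨nat_lit 1, [⟨nat_lit 5, nat_lit 10416, nat_lit 4512, nat_lit 14784, nat_lit 21792, nat_lit 1008, R11_308, R13_454, R0_21⟩]⟩, ⟨nat_lit 2, [⟨nat_lit 5, nat_lit 10320, nat_lit 4560, nat_lit 384, nat_lit 21696, nat_lit 14496, R0_8, R13_452, R11_302⟩]⟩]⟩]], [[⟨nat_lit 1, [⟨nat_lit 0, [⟨nat_lit 4, nat_lit 1968, nat_lit 16848, nat_lit 8304, nat_lit 10560, nat_lit 17184, R5_173, R4_220, R6_358⟩, ⟨nat_lit 5, nat_lit 10656, nat_lit 16944, nat_lit 9648, nat_lit 17664, nat_lit 17424, R5_201, R3_368, R8_363⟩]⟩, ⟨nat_lit 1, [⟨nat_lit 4, nat_lit 2064, nat_lit 17184, nat_lit 10752, nat_lit 10656, nat_lit 10848, R11_224, R4_222, R8_226⟩, ⟨nat_lit 5, nat_lit 10848, nat_lit 17328, nat_lit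 12096, nat_lit 17856, nat_lit 17568, R11_252, R3_372, R9_366⟩]⟩, ⟨nat_lit 2, [⟨nat_lit 4, nat_lit 2016, nat_lit 17568, nat_lit 5616, nat_lit 10608, nat_lit 10944, R0_117, R4_221, R4_228⟩, ⟨nat_lit 5, nat_lit 10752, nat_lit 17664, nat_lit 5760, nat_lit 17760, nat_lit 13488, R0_120, R3_370, R5_281⟩]⟩]⟩], [⟨nat_lit 1, [⟨nat_lit 1, [⟨nat_lit 4, nat_lit 2112, nat_lit 21888, nat_lit 12720, nat_lit 10704, nat_lit 624, R11_265, R4_223, R5_13⟩, ⟨nat_lit 5, nat_lit 10944, nat_lit 22032, nat_lit 13152, nat_lit 17952, nat_lit 15168, R11_274, R3_374, R0_316⟩]⟩]⟩], [⟨nat_lit 1, [⟨nat_lit 0, [⟨nat_lit 5, nat_lit 10704, nat_lit 2880, nat_lit 11856, nat_lit 17712, nat_lit 11616, R5_247, R3_369, R5_242⟩]⟩, ⟨nat_lit 1, [⟨nat_lit 5, nat_lit 10896, nat_lit 2976, nat_lit 14832, nat_lit 17904, nat_lit 10320, R11_309, R3_373, R0_215⟩]⟩,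 ⟨nat_lit 2, [⟨nat_lit 5, nat_lit 10800, nat_lit 3024, nat_lit 5808, nat_lit 17808, nat_lit 14592, R0_121, R3_371, R11_304⟩]⟩]⟩]], [[], [], [⟨nat_lit 0, [⟨nat_lit 0, [⟨nat_lit 5, nat_lit 8832, nat_lit 2256, nat_lit 16704, nat_lit 15312, nat_lit 9360, R8_348, R4_319, R5_195⟩]⟩, ⟨nat_lit 1, [⟨nat_lit 5, nat_lit 9120, nat_lit 2304, nat_lit 13440, nat_lit 15408, nat_lit 6192, R5_280, R4_321, R0_129⟩]⟩, ⟨nat_lit 2, [⟨nat_lit 1, nat_lit 16368, nat_lit 12288, nat_lit 11328, nat_lit 17808, nat_lit 8304, R9_236, R7_371, R1_173⟩, ⟨nat_lit 5, nat_lit 8976, nat_lit 2352, nat_lit 11472, nat_lit 15360, nat_lit 11808, R9_239, R4_320, R11_246⟩]⟩]⟩,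
 ⟨nat_lit 1, [⟨nat_lit 0, [⟨nat_lit 5, nat_lit 10512, nat_lit 2688, nat_lit 11904, nat_lit 9504, nat_lit 11568, R5_248, R3_198, R5_241⟩]⟩, ⟨nat_lit 1, [⟨nat_lit 5, nat_lit 10608, nat_lit 2736, nat_lit 14880, nat_lit 9600, nat_lit 6240, R11_310, R3_200, R0_130⟩]⟩, ⟨nat_lit 2, [⟨nat_lit 1, nat_lit 16800, nat_lit 12576, nat_lit 9840, nat_lit 15696, nat_lit 8496, R0_205, R2_327, R1_177⟩, ⟨nat_lit 5, nat_lit 10560, nat_lit 2784, nat_lit 9984, nat_lit 9552, nat_lit 14544, R0_208, R3_199, R11_303⟩]⟩]⟩,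
 ⟨nat_lit 2, [⟨nat_lit 2, [⟨nat_lit 1, nat_lit 16704, nat_lit 12672, nat_lit 9648, nat_lit 15408, nat_lit 8448, R0_201, R2_321, R1_176⟩]⟩]⟩]], [[⟨nat_lit 0, [⟨nat_lit 0, [⟨nat_lit 4, nat_lit 960, nat_lit 15984, nat_lit 12384, nat_lit 15024, nat_lit 14928, R8_258, R6_313, R6_311⟩, ⟨nat_lit 5, nat_lit 9216, nat_lit 16272, nat_lit 16176, nat_lit 18720, nat_lit 17040, R8_337, R8_390, R8_355⟩]⟩, ⟨nat_lit 1, [⟨nat_lit 4, nat_lit 1536, nat_lit 16848, nat_lit 8544, nat_lit 16944, nat_lit 8688, R5_178, R6_353, R8_181⟩, ⟨nat_lit 5, nat_lit 9984, nat_lit 17136, nat_lit 9984, nat_lit 18912, nat_lit 17136, R5_208, R8_394, R9_357⟩]⟩, ⟨nat_lit 2, [⟨nat_lit 4, nat_lit 1248, nat_lit 17712, nat_lit 8160, nat_lit 15648, nat_lit 4896, R9_170, R6_326, R4_102⟩, ⟨nat_lit 5, nat_lit 9600, nat_lit 17952, nat_lit 8688, nat_lit 18816,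 nat_lit 11040, R9_181, R8_392, R5_230⟩]⟩]⟩,
 ⟨nat_lit 1, [⟨nat_lit 0, [⟨nat_lit 4, nat_lit 2208, nat_lit 16080, nat_lit 8256, nat_lit 9024, nat_lit 16848, R5_172, R8_188, R6_351⟩, ⟨nat_lit 5, nat_lit 11040, nat_lit 16368, nat_lit 9600, nat_lit 17952, nat_lit 17328, R5_200, R9_374, R8_361⟩]⟩, ⟨nat_lit 1, [⟨nat_lit 4, nat_lit 2400, nat_lit 16944, nat_lit 10704, nat_lit 9120, nat_lit 8784, R11_223, R8_190, R8_183⟩, ⟨nat_lit 5, nat_lit 11232, nat_lit 17232, nat_lit 12048, nat_lit 18144, nat_lit 17424, R11_251, R9_378, R9_363⟩]⟩, ⟨nat_lit 2, [⟨nat_lit 4, nat_lit 2304, nat_lit 17760, nat_lit 7392, nat_lit 9072, nat_lit 7536, R0_154, R8_189, R4_157⟩, ⟨nat_lit 5, nat_lit 11136, nat_lit 18000, nat_lit 7920, nat_lit 18048, nat_lit 11088, R0_165, R9_376, R5_231⟩]⟩]⟩,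
 ⟨nat_lit 3, [⟨nat_lit 0, [⟨nat_lit 4, nat_lit 3312, nat_lit 16032, nat_lit 8064, nat_lit 5040, nat_lit 15552, R9_168, R4_105, R6_324⟩, ⟨nat_lit 5, nat_lit 11376, nat_lit 16320, nat_lit 8544, nat_lit 11376, nat_lit 17184, R9_178, R5_237, R8_358⟩]⟩, ⟨nat_lit 1, [⟨nat_lit 4, nat_lit 3888, nat_lit 16896, nat_lit 7296, nat_lit 7680, nat_lit 8736, R0_152, R4_160, R8_182⟩, ⟨nat_lit 5, nat_lit 12240, nat_lit 17184, nat_lit 7776, nat_lit 11712, nat_lit 17280, R0_162, R5_244, R9_360⟩]⟩]⟩], [⟨nat_lit 0, [⟨nat_lit 1, [⟨nat_lit 4, nat_lit 1632, nat_lit 14448, nat_lit 8736, nat_lit 17040, nat_lit 48, R5_182, R6_355, R5_1⟩, ⟨nat_lit 5, nat_lit 10128, nat_lit 14736, nat_lit 10128, nat_lit 18960, nat_lit 14736, R5_211, R8_395, R0_307⟩]⟩]⟩,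
 ⟨nat_lit 1, [⟨nat_lit 1, [⟨nat_lit 4, nat_lit 2448, nat_lit 14544, nat_lit 12672, nat_lit 9312, nat_lit 384, R11_264, R8_194, R5_8⟩, ⟨nat_lit 5, nat_lit 11280, nat_lit 14832, nat_lit 13104, nat_lit 18192, nat_lit 15024, R11_273, R9_379, R0_313⟩]⟩]⟩,
 ⟨nat_lit 3, [⟨nat_lit 1, [⟨nat_lit 4, nat_lit 4032, nat_lit 14496, nat_lit 8016, nat_lit 8064, nat_lit 192, R0_167, R4_168, R5_4⟩, ⟨nat_lit 5, nat_lit 12480, nat_lit 14784, nat_lit 8160, nat_lit 12624, nat_lit 14880, R0_170, R5_263, R0_310⟩]⟩]⟩]]], [[[⟨nat_lit 0, [⟨nat_lit 0, [⟨nat_lit 5, nat_lit 8016, nat_lit 8976, nat_lit 14256, nat_lit 17088, nat_lit 13488, R4_297, R6_356, R8_281⟩]⟩, ⟨nat_lit 2, [⟨nat_lit 5, nat_lit 8304, nat_lit 10560, nat_lit 16848, nat_lit 17184, nat_lit 1968, R5_351, R6_358, R5_41⟩]⟩]⟩], [], [⟨nat_lit 0, [⟨nat_lit 0, [⟨nat_lit 5, nat_lit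 8160, nat_lit 4656, nat_lit 15168, nat_lit 17136, nat_lit 8784, R4_316, R6_357, R5_183⟩]⟩, ⟨nat_lit 2, [⟨nat_lit 5, nat_lit 8448, nat_lit 4704, nat_lit 16896, nat_lit 17232, nat_lit 11232, R5_352, R6_359, R11_234⟩]⟩]⟩]], [], [[], [], [⟨nat_lit 0, [⟨nat_lit 0, [⟨nat_lit 5, nat_lit 8880, nat_lit 4656, nat_lit 15456, nat_lit 15456, nat_lit 8880, R4_322, R4_322, R5_185⟩]⟩, ⟨nat_lit 2, [⟨nat_lit 1, nat_lit 16416, nat_lit 5952, nat_lit 12912, nat_lit 17856, nat_lit 8256, R5_269, R7_372, R1_172⟩, ⟨nat_lit 5, nat_lit 9024, nat_lit 5904, nat_lit 17088, nat_lit 15504, nat_lit 11328, R5_356, R4_323, R11_236⟩]⟩]⟩,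
 ⟨nat_lit 2, [⟨nat_lit 2, [⟨nat_lit 1, nat_lit 16752, nat_lit 6816, nat_lit 7104, nat_lit 15504, nat_lit 8400, R11_148, R2_323, R1_175⟩]⟩]⟩], [], [], [], [⟨nat_lit 0, [⟨nat_lit 2, [⟨nat_lit 1, nat_lit 16272, nat_lit 5088, nat_lit 13008, nat_lit 17904, nat_lit 9312, R5_271, R7_373, R10_194⟩]⟩]⟩,
 ⟨nat_lit 2, [⟨nat_lit 2, [⟨nat_lit 1, nat_lit 16608, nat_lit 5136, nat_lit 9168, nat_lit 15456, nat_lit 9408, R11_191, R2_322, R10_196⟩]⟩, ⟨nat_lit 6, [⟨nat_lit 1, nat_lit 16560, nat_lit 5184, nat_lit 6624, nat_lit 15312, nat_lit 13536, R1_138, R2_319, R1_282⟩]⟩]⟩]], [[⟨nat_lit 0, [⟨nat_lit 0, [⟨nat_lit 4, nat_lit 1008, nat_lit 16032, nat_lit 12144, nat_lit 15168, nat_lit 13584, R4_253, R6_316, R6_283⟩, ⟨nat_lit 5, nat_lit 9264, nat_lit 16368, nat_lit 14400, nat_lit 19008, nat_lit 13776, R4_300, R8_396, R8_287⟩]⟩, ⟨nat_lit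 2, [⟨nat_lit 4, nat_lit 1296, nat_lit 17376, nat_lit 14304, nat_lit 15744, nat_lit 4704, R5_298, R6_328, R4_98⟩, ⟨nat_lit 5, nat_lit 9648, nat_lit 17664, nat_lit 16944, nat_lit 19152, nat_lit 10656, R5_353, R8_399, R5_222⟩]⟩]⟩,
 ⟨nat_lit 3, [⟨nat_lit 0, [⟨nat_lit 4, nat_lit 3360, nat_lit 16080, nat_lit 8544, nat_lit 5088, nat_lit 13872, R3_178, R4_106, R6_289⟩, ⟨nat_lit 5, nat_lit 11424, nat_lit 16416, nat_lit 8688, nat_lit 11472, nat_lit 13920, R3_181, R5_239, R8_290⟩]⟩, ⟨nat_lit 2, [⟨nat_lit 4, nat_lit 3648, nat_lit 17424, nat_lit 2832, nat_lit 6240, nat_lit 6000, R0_59, R4_130, R4_125⟩, ⟨nat_lit 5, nat_lit 11856, nat_lit 17712, nat_lit 2880, nat_lit 11616, nat_lit 10704, R0_60, R5_242, R5_223⟩]⟩]⟩], [], [⟨nat_lit 0, [⟨nat_lit 0, [⟨nat_lit 5, nat_lit 9360, nat_lit 2256, nat_lit 15312, nat_lit 19056, nat_lit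 8832, R4_319, R8_397, R5_184⟩]⟩, ⟨nat_lit 2, [⟨nat_lit 5, nat_lit 9744, nat_lit 3936, nat_lit 17040, nat_lit 19200, nat_lit 11280, R5_355, R8_400, R11_235⟩]⟩]⟩,
 ⟨nat_lit 3, [⟨nat_lit 0, [⟨nat_lit 5, nat_lit 11568, nat_lit 2688, nat_lit 9504, nat_lit 11904, nat_lit 10512, R3_198, R5_248, R5_219⟩]⟩, ⟨nat_lit 2, [⟨nat_lit 5, nat_lit 12000, nat_lit 4608, nat_lit 4848, nat_lit 12048, nat_lit 13776, R0_101, R5_251, R11_287⟩]⟩]⟩], [⟨nat_lit 0, [⟨nat_lit 0, [⟨nat_lit 4, nat_lit 1152, nat_lit 2976, nat_lit 12288, nat_lit 15216, nat_lit 10608, R4_256, R6_317, R13_221⟩, ⟨nat_lit 5, nat_lit 9504, nat_lit 3072, nat_lit 14736, nat_lit 19104, nat_lit 8256, R4_307, R8_398, R9_172⟩, ⟨nat_lit 7, nat_lit 13200, nat_lit 3024, nat_lit 13248, nat_lit 14592, nat_lit 15264, R4_276, R4_304, R3_318⟩]⟩, ⟨nat_lit 2, [⟨nat_lit 4, nat_lit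 1440, nat_lit 5664, nat_lit 14352, nat_lit 15792, nat_lit 432, R5_299, R6_329, R3_9⟩, ⟨nat_lit 5, nat_lit 9888, nat_lit 5760, nat_lit 16992, nat_lit 19248, nat_lit 7488, R5_354, R8_401, R0_156⟩, ⟨nat_lit 7, nat_lit 13344, nat_lit 5712, nat_lit 16224, nat_lit 14880, nat_lit 9264, R5_338, R4_310, R10_193⟩]⟩]⟩,
 ⟨nat_lit 3, [⟨nat_lit 0, [⟨nat_lit 4, nat_lit 3552, nat_lit 3648, nat_lit 8832, nat_lit 5568, nat_lit 11568, R3_184, R4_116, R13_241⟩, ⟨nat_lit 5, nat_lit 11760, nat_lit 3696, nat_lit 9312, nat_lit 12288, nat_lit 9168, R3_194, R5_256, R9_191⟩]⟩, ⟨nat_lit 2, [⟨nat_lit 4, nat_lit 3792, nat_lit 6192, nat_lit 3216, nat_lit 6720, nat_lit 1104, R0_67, R4_140, R3_23⟩, ⟨nat_lit 5, nat_lit 12144, nat_lit 6240, nat_lit 3264, nat_lit 12384, nat_lit 8688, R0_68, R5_258, R0_181⟩]⟩, ⟨nat_lit 3, [⟨nat_lit 4, nat_lit 4320,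 nat_lit 4320, nat_lit 4752, nat_lit 7296, nat_lit 4464, R10_99, R4_152, R3_93⟩, ⟨nat_lit 5, nat_lit 12672, nat_lit 4368, nat_lit 4800, nat_lit 12528, nat_lit 14112, R10_100, R5_261, R0_294⟩]⟩]⟩]], [[], [], [], [], [⟨nat_lit 0, [⟨nat_lit 2, [⟨nat_lit 3, nat_lit 16848, nat_lit 10560, nat_lit 8304, nat_lit 9888, nat_lit 1968, R5_173, R6_206, R5_41⟩]⟩]⟩,
 ⟨nat_lit 2, [⟨nat_lit 2, [⟨nat_lit 0, nat_lit 14496, nat_lit 4368, nat_lit 7632, nat_lit 10800, nat_lit 48, R11_159, R6_225, R4_1⟩, ⟨nat_lit 3, nat_lit 17184, nat_lit 10656, nat_lit 7680, nat_lit 9408, nat_lit 2064, R11_160, R8_196, R5_43⟩]⟩, ⟨nat_lit 6, [⟨nat_lit 0, nat_lit 14400, nat_lit 4224, nat_lit 6096, nat_lit 10848, nat_lit 144, R1_127, R6_226, R7_3⟩, ⟨nat_lit 2, nat_lit 15984, nat_lit 12000, nat_lit 6144, nat_lit 11712, nat_lit 17088, R1_128, R4_244, R14_356⟩]⟩]⟩,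
 ⟨nat_lit 4, [⟨nat_lit 4, [⟨nat_lit 6, nat_lit 4368, nat_lit 14928, nat_lit 5664, nat_lit 10176, nat_lit 5808, R4_118, R6_212, R4_121⟩]⟩, ⟨nat_lit 7, [⟨nat_lit 6, nat_lit 4656, nat_lit 15168, nat_lit 8160, nat_lit 10224, nat_lit 8784, R5_170, R6_213, R5_183⟩]⟩]⟩,
 ⟨nat_lit 6, [⟨nat_lit 4, [⟨nat_lit 2, nat_lit 14784, nat_lit 11808, nat_lit 1440, nat_lit 11568, nat_lit 5952, R3_30, R7_241, R7_124⟩, ⟨nat_lit 6, nat_lit 5136, nat_lit 14976, nat_lit 864, nat_lit 11232, nat_lit 6432, R3_18, R4_234, R4_134⟩]⟩, ⟨nat_lit 6, [⟨nat_lit 2, nat_lit 14976, nat_lit 11952, nat_lit 7344, nat_lit 11616, nat_lit 17136, R10_153, R7_242, R14_357⟩]⟩, ⟨nat_lit 7, [⟨nat_lit 6, nat_lit 5328, nat_lit 15264, nat_lit 5856, nat_lit 11280, nat_lit 9072, R0_122, R4_235, R5_189⟩]⟩]⟩,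
 ⟨nat_lit 7, [⟨nat_lit 7, [⟨nat_lit 6, nat_lit 6288, nat_lit 15216, nat_lit 8400, nat_lit 9840, nat_lit 8928, R11_175, R8_205, R5_186⟩]⟩]⟩], [], [], [⟨nat_lit 0, [⟨nat_lit 2, [⟨nat_lit 3, nat_lit 16896, nat_lit 4704, nat_lit 8448, nat_lit 10272, nat_lit 11232, R5_176, R6_214, R11_234⟩]⟩]⟩,
 ⟨nat_lit 2, [⟨nat_lit 2, [⟨nat_lit 3, nat_lit 17232, nat_lit 6432, nat_lit 8448, nat_lit 9888, nat_lit 11376, R11_176, R8_206, R11_237⟩]⟩, ⟨nat_lit 6, [⟨nat_lit 0, nat_lit 14448, nat_lit 336, nat_lit 6288, nat_lit 10896, nat_lit 1536, R1_131, R6_227, R2_32⟩, ⟨nat_lit 2, nat_lit 16032, nat_lit 12720, nat_lit 6336, nat_lit 11760, nat_lit 7056, R1_132, R4_245, R12_147⟩, ⟨nat_lit 3, nat_lit 17136, nat_lit 6528, nat_lit 6384, nat_lit 9936, nat_lit 1008, R1_133, R8_207, R1_21⟩]⟩]⟩,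
 ⟨nat_lit 3, [⟨nat_lit 0, [⟨nat_lit 7, nat_lit 13632, nat_lit 14928, nat_lit 7920, nat_lit 11664, nat_lit 8880, R3_165, R7_243, R2_185⟩]⟩, ⟨nat_lit 2, [⟨nat_lit 3, nat_lit 17616, nat_lit 5376, nat_lit 5904, nat_lit 11328, nat_lit 11520, R0_123, R4_236, R11_240⟩, ⟨nat_lit 7, nat_lit 13680, nat_lit 15216, nat_lit 5952, nat_lit 11760, nat_lit 9696, R0_124, R7_245, R1_202⟩]⟩, ⟨nat_lit 3, [⟨nat_lit 7, nat_lit 13728, nat_lit 15120, nat_lit 7440, nat_lit 11712, nat_lit 7104, R10_155, R7_244, R12_148⟩]⟩]⟩,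
 ⟨nat_lit 4, [⟨nat_lit 7, [⟨nat_lit 6, nat_lit 4704, nat_lit 16896, nat_lit 8448, nat_lit 10272, nat_lit 11232, R5_176, R6_214, R11_234⟩]⟩]⟩,
 ⟨nat_lit 6, [⟨nat_lit 4, [⟨nat_lit 2, nat_lit 14928, nat_lit 13632, nat_lit 7920, nat_lit 11664, nat_lit 8880, R3_165, R7_243, R2_185⟩]⟩, ⟨nat_lit 6, [⟨nat_lit 2, nat_lit 15120, nat_lit 13728, nat_lit 7440, nat_lit 11712, nat_lit 7104, R10_155, R7_244, R12_148⟩]⟩, ⟨nat_lit 7, [⟨nat_lit 2, nat_lit 15216, nat_lit 13680, nat_lit 5952, nat_lit 11760, nat_lit 9696, R0_124, R7_245, R1_202⟩, ⟨nat_lit 6, nat_lit 5376, nat_lit 17616, nat_lit 5904, nat_lit 11328, nat_lit 11520, R0_123, R4_236, R11_240⟩]⟩]⟩,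
 ⟨nat_lit 7, [⟨nat_lit 3, [⟨nat_lit 4, nat_lit 336, nat_lit 14448, nat_lit 6288, nat_lit 10896, nat_lit 1536, R1_131, R6_227, R2_32⟩, ⟨nat_lit 6, nat_lit 6528, nat_lit 17136, nat_lit 6384, nat_lit 9936, nat_lit 1008, R1_133, R8_207, R1_21⟩, ⟨nat_lit 7, nat_lit 12720, nat_lit 16032, nat_lit 6336, nat_lit 11760, nat_lit 7056, R1_132, R4_245, R12_147⟩]⟩, ⟨nat_lit 7, [⟨nat_lit 6, nat_lit 6432, nat_lit 17232, nat_lit 8448, nat_lit 9888, nat_lit 11376, R11_176, R8_206, R11_237⟩]⟩]⟩]], [], [[], [], [], [], [⟨nat_lit 0, [⟨nat_lit 2, [⟨nat_lit 0, nat_lit 14304, nat_lit 17376, nat_lit 1296, nat_lit 15744, nat_lit 4704, R5_27, R6_328, R4_98⟩, ⟨nat_lit 3, nat_lit 16944, nat_lit 17664, nat_lit 9648, nat_lit 19152, nat_lit 10656, R5_201, R8_399, R5_222⟩]⟩]⟩,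
 ⟨nat_lit 2, [⟨nat_lit 2, [⟨nat_lit 0, nat_lit 14688, nat_lit 17472, nat_lit 8112, nat_lit 13824, nat_lit 5280, R11_169, R13_288, R4_110⟩, ⟨nat_lit 3, nat_lit 17328, nat_lit 17856, nat_lit 8160, nat_lit 11520, nat_lit 10848, R11_170, R9_240, R5_226⟩]⟩, ⟨nat_lit 6, [⟨nat_lit 0, nat_lit 14544, nat_lit 10608, nat_lit 6192, nat_lit 13872, nat_lit 5088, R1_129, R13_289, R7_106⟩, ⟨nat_lit 2, nat_lit 16080, nat_lit 10800, nat_lit 6240, nat_lit 17184, nat_lit 17232, R1_130, R3_358, R14_359⟩]⟩]⟩,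
 ⟨nat_lit 3, [⟨nat_lit 2, [⟨nat_lit 3, nat_lit 17664, nat_lit 17760, nat_lit 5760, nat_lit 13488, nat_lit 10752, R0_120, R5_281, R5_224⟩]⟩]⟩,
 ⟨nat_lit 6, [⟨nat_lit 4, [⟨nat_lit 2, nat_lit 15264, nat_lit 3408, nat_lit 1536, nat_lit 11088, nat_lit 6048, R3_32, R2_231, R7_126⟩]⟩, ⟨nat_lit 6, [⟨nat_lit 2, nat_lit 15456, nat_lit 10896, nat_lit 7392, nat_lit 11136, nat_lit 17280, R10_154, R2_232, R14_360⟩]⟩]⟩], [], [⟨nat_lit 0, [⟨nat_lit 2, [⟨nat_lit 0, nat_lit 14352, nat_lit 5664, nat_lit 1440, nat_lit 15792, nat_lit 432, R5_30, R6_329, R3_9⟩, ⟨nat_lit 1, nat_lit 16224, nat_lit 5712, nat_lit 13344, nat_lit 14880, nat_lit 9264, R5_278, R4_310, R10_193⟩, ⟨nat_lit 3, nat_lit 16992, nat_lit 5760, nat_lit 9888, nat_lit 19248, nat_lit 7488, R5_206, R8_401, R0_156⟩]⟩]⟩,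
 ⟨nat_lit 2, [⟨nat_lit 2, [⟨nat_lit 0, nat_lit 14736, nat_lit 5856, nat_lit 9840, nat_lit 13920, nat_lit 4032, R11_205, R13_290, R3_84⟩, ⟨nat_lit 1, nat_lit 16512, nat_lit 5904, nat_lit 9936, nat_lit 10512, nat_lit 9360, R11_207, R3_219, R10_195⟩, ⟨nat_lit 3, nat_lit 17376, nat_lit 5952, nat_lit 9888, nat_lit 11568, nat_lit 7536, R11_206, R9_241, R0_157⟩]⟩, ⟨nat_lit 6, [⟨nat_lit 0, nat_lit 14592, nat_lit 6000, nat_lit 6672, nat_lit 13968, nat_lit 3504, R1_139, R13_291, R2_73⟩, ⟨nat_lit 1, nat_lit 16464, nat_lit 6048, nat_lit 6768, nat_lit 10560, nat_lit 2976, R1_141, R3_220, R1_62⟩, ⟨nat_lit 2, nat_lit 16128, nat_lit 6096, nat_lit 6720, nat_lit 17232, nat_lit 14976, R1_140, R3_359, R12_312⟩]⟩]⟩,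
 ⟨nat_lit 3, [⟨nat_lit 2, [⟨nat_lit 3, nat_lit 17712, nat_lit 5808, nat_lit 7056, nat_lit 13536, nat_lit 7584, R0_147, R5_282, R0_158⟩]⟩]⟩,
 ⟨nat_lit 6, [⟨nat_lit 6, [⟨nat_lit 2, nat_lit 15552, nat_lit 6144, nat_lit 7536, nat_lit 11232, nat_lit 14928, R10_157, R2_234, R12_311⟩]⟩]⟩], [⟨nat_lit 0, [⟨nat_lit 2, [⟨nat_lit 3, nat_lit 17040, nat_lit 3936, nat_lit 9744, nat_lit 19200, nat_lit 11280, R5_203, R8_400, R11_235⟩]⟩]⟩,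
 ⟨nat_lit 2, [⟨nat_lit 2, [⟨nat_lit 3, nat_lit 17424, nat_lit 4032, nat_lit 8832, nat_lit 11616, nat_lit 11424, R11_184, R9_242, R11_238⟩]⟩, ⟨nat_lit 6, [⟨nat_lit 0, nat_lit 14640, nat_lit 4176, nat_lit 6480, nat_lit 14016, nat_lit 8592, R1_135, R13_292, R2_179⟩, ⟨nat_lit 2, nat_lit 16176, nat_lit 4272, nat_lit 6528, nat_lit 17280, nat_lit 8640, R1_136, R3_360, R12_180⟩, ⟨nat_lit 3, nat_lit 17280, nat_lit 4224, nat_lit 6576, nat_lit 11664, nat_lit 9408, R1_137, R9_243, R1_196⟩]⟩]⟩,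
 ⟨nat_lit 3, [⟨nat_lit 2, [⟨nat_lit 3, nat_lit 17760, nat_lit 3984, nat_lit 6288, nat_lit 13584, nat_lit 11568, R0_131, R5_283, R11_241⟩]⟩]⟩,
 ⟨nat_lit 6, [⟨nat_lit 4, [⟨nat_lit 2, nat_lit 15408, nat_lit 4080, nat_lit 8064, nat_lit 11280, nat_lit 9360, R3_168, R2_235, R2_195⟩]⟩, ⟨nat_lit 6, [⟨nat_lit 2, nat_lit 15696, nat_lit 4320, nat_lit 7488, nat_lit 11328, nat_lit 8736, R10_156, R2_236, R12_182⟩]⟩, ⟨nat_lit 7, [⟨nat_lit 2, nat_lit 15792, nat_lit 4128, nat_lit 6000, nat_lit 11376, nat_lit 10176, R0_125, R2_237, R1_212⟩]⟩]⟩]], [[], [], [], [⟨nat_lit 0, [⟨nat_lit 0, [⟨nat_lit 7, nat_lit 12864, nat_lit 2640, nat_lit 13152, nat_lit 17712, nat_lit 15168, R4_274, R7_369, R3_316⟩]⟩, ⟨nat_lit 2, [⟨nat_lit 7, nat_lit 13008, nat_lit 5088, nat_lit 16272, nat_lit 17904, nat_lit 9312, R5_339, R7_373, R10_194⟩]⟩]⟩,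
 ⟨nat_lit 3, [⟨nat_lit 0, [⟨nat_lit 4, nat_lit 2640, nat_lit 3024, nat_lit 8880, nat_lit 9696, nat_lit 11616, R3_185, R7_202, R13_242⟩, ⟨nat_lit 7, nat_lit 13872, nat_lit 3072, nat_lit 9168, nat_lit 12288, nat_lit 15504, R3_191, R14_256, R3_323⟩]⟩, ⟨nat_lit 2, [⟨nat_lit 4, nat_lit 2832, nat_lit 5232, nat_lit 3600, nat_lit 10560, nat_lit 1872, R0_75, R7_220, R3_39⟩, ⟨nat_lit 7, nat_lit 14064, nat_lit 5280, nat_lit 3648, nat_lit 12336, nat_lit 10848, R0_76, R14_257, R10_226⟩]⟩, ⟨nat_lit 3, [⟨nat_lit 4, nat_lit 3216, nat_lit 3648, nat_lit 5376, nat_lit 10992, nat_lit 12576, R10_112, R7_229, R3_262⟩]⟩]⟩,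
 ⟨nat_lit 7, [⟨nat_lit 3, [⟨nat_lit 4, nat_lit 816, nat_lit 4224, nat_lit 4656, nat_lit 10368, nat_lit 14256, R1_97, R4_216, R3_297⟩, ⟨nat_lit 6, nat_lit 7776, nat_lit 4272, nat_lit 4704, nat_lit 7104, nat_lit 1776, R1_98, R5_148, R10_37⟩]⟩]⟩], [], [], [], [⟨nat_lit 0, [⟨nat_lit 0, [⟨nat_lit 7, nat_lit 12768, nat_lit 5616, nat_lit 12624, nat_lit 17664, nat_lit 7728, R4_263, R7_368, R2_161⟩]⟩, ⟨nat_lit 2, [⟨nat_lit 3, nat_lit 17088, nat_lit 5904, nat_lit 9024, nat_lit 15504, nat_lit 11328, R5_188, R4_323, R11_236⟩, ⟨nat_lit 7, nat_lit 12912, nat_lit 5952, nat_lit 16416, nat_lit 17856, nat_lit 8256, R5_342, R7_372, R1_172⟩]⟩]⟩,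
 ⟨nat_lit 2, [⟨nat_lit 2, [⟨nat_lit 3, nat_lit 17520, nat_lit 6048, nat_lit 8592, nat_lit 17520, nat_lit 11472, R11_179, R5_365, R11_239⟩]⟩, ⟨nat_lit 6, [⟨nat_lit 3, nat_lit 17472, nat_lit 6144, nat_lit 6432, nat_lit 17472, nat_lit 6432, R1_134, R5_364, R1_134⟩]⟩]⟩,
 ⟨nat_lit 3, [⟨nat_lit 0, [⟨nat_lit 7, nat_lit 13776, nat_lit 5664, nat_lit 7968, nat_lit 12144, nat_lit 8928, R3_166, R14_253, R2_186⟩]⟩, ⟨nat_lit 2, [⟨nat_lit 7, nat_lit 13968, nat_lit 6000, nat_lit 6048, nat_lit 12192, nat_lit 9744, R0_126, R14_254, R1_203⟩]⟩, ⟨nat_lit 3, [⟨nat_lit 4, nat_lit 3120, nat_lit 5712, nat_lit 7776, nat_lit 8592, nat_lit 336, R10_162, R7_179, R2_7⟩, ⟨nat_lit 7, nat_lit 14256, nat_lit 5760, nat_lit 7824, nat_lit 12240, nat_lit 7152, R10_163, R14_255, R12_149⟩]⟩]⟩,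
 ⟨nat_lit 7, [⟨nat_lit 3, [⟨nat_lit 4, nat_lit 720, nat_lit 5808, nat_lit 6912, nat_lit 8544, nat_lit 2112, R1_144, R4_178, R2_44⟩, ⟨nat_lit 6, nat_lit 7680, nat_lit 5856, nat_lit 6960, nat_lit 7152, nat_lit 1584, R1_145, R5_149, R1_33⟩]⟩, ⟨nat_lit 7, [⟨nat_lit 6, nat_lit 7296, nat_lit 6096, nat_lit 8496, nat_lit 7584, nat_lit 12912, R11_177, R5_158, R11_269⟩]⟩]⟩]]], [[], [], [], [[⟨nat_lit 3, [⟨nat_lit 0, [⟨nat_lit 4, nat_lit 3408, nat_lit 2928, nat_lit 11424, nat_lit 4992, nat_lit 13440, R3_238, R4_104, R6_280⟩, ⟨nat_lit 5, nat_lit 11472, nat_lit 8688, nat_lit 16416, nat_lit 11424, nat_lit 14592, R3_342, R5_238, R8_304⟩]⟩, ⟨nat_lit 1, [⟨nat_lit 4, nat_lit 3936, nat_lit 3264, nat_lit 8976, nat_lit 7632, nat_lit 8352, R10_187, R4_159, R8_174⟩, ⟨nat_lit 5, nat_lit 12288, nat_lit 9312, nat_lit 9648, nat_lit 11760,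 nat_lit 15648, R10_201, R5_245, R9_326⟩]⟩, ⟨nat_lit 2, [⟨nat_lit 4, nat_lit 3696, nat_lit 3552, nat_lit 2400, nat_lit 6192, nat_lit 5952, R0_50, R4_129, R4_124⟩, ⟨nat_lit 5, nat_lit 11904, nat_lit 9504, nat_lit 2688, nat_lit 11568, nat_lit 10512, R0_56, R5_241, R5_219⟩]⟩]⟩], [⟨nat_lit 3, [⟨nat_lit 1, [⟨nat_lit 4, nat_lit 4080, nat_lit 19680, nat_lit 9888, nat_lit 8016, nat_lit 144, R10_206, R4_167, R5_3⟩, ⟨nat_lit 5, nat_lit 12528, nat_lit 19824, nat_lit 10224, nat_lit 12672, nat_lit 14112, R10_213, R5_264, R0_294⟩]⟩]⟩], [⟨nat_lit 3, [⟨nat_lit 0, [⟨nat_lit 5, nat_lit 11616, nat_lit 2880, nat_lit 17712, nat_lit 11856, nat_lit 10704, R3_369, R5_247, R5_223⟩]⟩, ⟨nat_lit 1, [⟨nat_lit 5, nat_lit 12384, nat_lit 3264, nat_lit 11952, nat_lit 12144, nat_lit 8688, R10_249, R5_253, R0_181⟩]⟩, ⟨nat_lit 2, [⟨nat_lit 5, nat_lit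 12048, nat_lit 4848, nat_lit 4608, nat_lit 12000, nat_lit 13968, R0_96, R5_250, R11_291⟩]⟩]⟩]], [], [], [], [[⟨nat_lit 3, [⟨nat_lit 0, [⟨nat_lit 4, nat_lit 2544, nat_lit 14400, nat_lit 11088, nat_lit 8736, nat_lit 13152, R3_231, R7_182, R6_274⟩]⟩, ⟨nat_lit 1, [⟨nat_lit 4, nat_lit 2928, nat_lit 14976, nat_lit 9024, nat_lit 9024, nat_lit 14880, R10_188, R7_188, R8_310⟩]⟩, ⟨nat_lit 2, [⟨nat_lit 4, nat_lit 2736, nat_lit 15552, nat_lit 12336, nat_lit 8928, nat_lit 12528, R0_257, R7_186, R4_261⟩]⟩]⟩,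
 ⟨nat_lit 7, [⟨nat_lit 0, [⟨nat_lit 4, nat_lit 432, nat_lit 14448, nat_lit 7536, nat_lit 8832, nat_lit 12432, R2_157, R4_184, R6_259⟩, ⟨nat_lit 6, nat_lit 7392, nat_lit 14736, nat_lit 7824, nat_lit 6912, nat_lit 12720, R2_163, R5_144, R4_265⟩]⟩, ⟨nat_lit 1, [⟨nat_lit 4, nat_lit 528, nat_lit 15024, nat_lit 8064, nat_lit 9168, nat_lit 14832, R1_168, R4_191, R8_309⟩, ⟨nat_lit 6, nat_lit 7488, nat_lit 15360, nat_lit 8352, nat_lit 7200, nat_lit 16656, R1_174, R5_150, R5_347⟩]⟩]⟩], [⟨nat_lit 3, [⟨nat_lit 1, [⟨nat_lit 4, nat_lit 2976, nat_lit 15984, nat_lit 9936, nat_lit 11376, nat_lit 240, R10_207, R7_237, R5_5⟩]⟩]⟩,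
 ⟨nat_lit 7, [⟨nat_lit 1, [⟨nat_lit 4, nat_lit 576, nat_lit 16032, nat_lit 8688, nat_lit 10752, nat_lit 2160, R1_181, R4_224, R5_45⟩, ⟨nat_lit 6, nat_lit 7536, nat_lit 16368, nat_lit 8784, nat_lit 7344, nat_lit 21600, R1_183, R5_153, R11_450⟩]⟩]⟩], [], [⟨nat_lit 3, [⟨nat_lit 0, [⟨nat_lit 4, nat_lit 2688, nat_lit 4032, nat_lit 11952, nat_lit 9648, nat_lit 11856, R3_249, R7_201, R13_247⟩, ⟨nat_lit 7, nat_lit 13920, nat_lit 4080, nat_lit 14640, nat_lit 12000, nat_lit 14736, R3_305, R14_250, R3_307⟩]⟩, ⟨nat_lit 1, [⟨nat_lit 4, nat_lit 3072, nat_lit 4224, nat_lit 10560, nat_lit 11328, nat_lit 624, R10_220, R7_236, R9_13⟩, ⟨nat_lit 7, nat_lit 14208, nat_lit 4272, nat_lit 11232, nat_lit 12096, nat_lit 12912, R10_234, R14_252, R0_269⟩]⟩, ⟨nat_lit 2, [⟨nat_lit 4, nat_lit 2880, nat_lit 4512, nat_lit 13296, nat_lit 10512,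 nat_lit 1824, R0_277, R7_219, R3_38⟩, ⟨nat_lit 7, nat_lit 14112, nat_lit 4560, nat_lit 13488, nat_lit 12048, nat_lit 11088, R0_281, R14_251, R10_231⟩]⟩]⟩,
 ⟨nat_lit 7, [⟨nat_lit 0, [⟨nat_lit 4, nat_lit 480, nat_lit 4128, nat_lit 8352, nat_lit 9504, nat_lit 9888, R2_174, R4_198, R13_206⟩, ⟨nat_lit 6, nat_lit 7440, nat_lit 4176, nat_lit 9072, nat_lit 6960, nat_lit 7728, R2_189, R5_145, R3_161⟩]⟩, ⟨nat_lit 1, [⟨nat_lit 4, nat_lit 672, nat_lit 4320, nat_lit 9168, nat_lit 10512, nat_lit 2400, R1_191, R4_219, R9_50⟩, ⟨nat_lit 6, nat_lit 7632, nat_lit 4368, nat_lit 9888, nat_lit 7248, nat_lit 864, R1_206, R5_151, R0_18⟩]⟩, ⟨nat_lit 3, [⟨nat_lit 4, nat_lit 864, nat_lit 4416, nat_lit 6048, nat_lit 10320, nat_lit 14016, R12_126, R4_215, R3_292⟩, ⟨nat_lit 6, nat_lit 7824, nat_lit 4464, nat_lit 6096, nat_lit 7056, nat_lit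 1728, R12_127, R5_147, R10_36⟩]⟩]⟩]]], [[], [], [], [], [[], [⟨nat_lit 4, [⟨nat_lit 1, [⟨nat_lit 6, nat_lit 4752, nat_lit 960, nat_lit 480, nat_lit 10416, nat_lit 1344, R4_10, R6_217, R11_28⟩]⟩, ⟨nat_lit 5, [⟨nat_lit 6, nat_lit 4608, nat_lit 1536, nat_lit 672, nat_lit 10368, nat_lit 1392, R7_14, R6_216, R1_29⟩]⟩]⟩,
 ⟨nat_lit 7, [⟨nat_lit 5, [⟨nat_lit 6, nat_lit 6192, nat_lit 8256, nat_lit 2064, nat_lit 10032, nat_lit 1488, R2_43, R8_209, R1_31⟩]⟩]⟩], [], [], [], [⟨nat_lit 4, [⟨nat_lit 5, [⟨nat_lit 6, nat_lit 4512, nat_lit 1632, nat_lit 1104, nat_lit 10320, nat_lit 13152, R7_23, R6_215, R10_274⟩]⟩]⟩,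
 ⟨nat_lit 7, [⟨nat_lit 5, [⟨nat_lit 6, nat_lit 6096, nat_lit 8256, nat_lit 288, nat_lit 9984, nat_lit 13440, R2_6, R8_208, R10_280⟩]⟩]⟩]], [[], [⟨nat_lit 4, [⟨nat_lit 1, [⟨nat_lit 4, nat_lit 0, nat_lit 4512, nat_lit 6816, nat_lit 7296, nat_lit 1584, R4_142, R6_152, R5_33⟩, ⟨nat_lit 6, nat_lit 5040, nat_lit 4656, nat_lit 6864, nat_lit 13248, nat_lit 1488, R4_143, R13_276, R11_31⟩]⟩, ⟨nat_lit 5, [⟨nat_lit 6, nat_lit 4992, nat_lit 12624, nat_lit 6672, nat_lit 13200, nat_lit 1440, R7_139, R13_275, R1_30⟩]⟩]⟩,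
 ⟨nat_lit 5, [⟨nat_lit 1, [⟨nat_lit 4, nat_lit 96, nat_lit 5184, nat_lit 5616, nat_lit 7968, nat_lit 3984, R3_117, R4_166, R5_83⟩, ⟨nat_lit 6, nat_lit 5760, nat_lit 5328, nat_lit 5712, nat_lit 9984, nat_lit 1632, R3_119, R3_208, R11_34⟩]⟩, ⟨nat_lit 5, [⟨nat_lit 6, nat_lit 5664, nat_lit 13440, nat_lit 4848, nat_lit 9936, nat_lit 1776, R2_101, R3_207, R1_37⟩]⟩]⟩,
 ⟨nat_lit 7, [⟨nat_lit 5, [⟨nat_lit 6, nat_lit 6720, nat_lit 13008, nat_lit 9840, nat_lit 10512, nat_lit 1632, R2_205, R9_219, R1_34⟩]⟩]⟩], [], [], [], [⟨nat_lit 4, [⟨nat_lit 5, [⟨nat_lit 6, nat_lit 4896, nat_lit 192, nat_lit 7104, nat_lit 13152, nat_lit 13296, R7_148, R13_274, R10_277⟩]⟩]⟩,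
 ⟨nat_lit 5, [⟨nat_lit 5, [⟨nat_lit 6, nat_lit 5520, nat_lit 5904, nat_lit 5328, nat_lit 9888, nat_lit 13824, R2_111, R3_206, R10_288⟩]⟩]⟩,
 ⟨nat_lit 7, [⟨nat_lit 5, [⟨nat_lit 6, nat_lit 6624, nat_lit 7200, nat_lit 7296, nat_lit 10464, nat_lit 13728, R2_152, R9_218, R10_286⟩]⟩]⟩]], [], [[], [], [], [], [], [⟨nat_lit 7, [⟨nat_lit 5, [⟨nat_lit 6, nat_lit 7008, nat_lit 5568, nat_lit 6000, nat_lit 7728, nat_lit 13584, R2_125, R5_161, R10_283⟩]⟩]⟩]]], [[], [[], [⟨nat_lit 1, [⟨nat_lit 1, [⟨nat_lit 4, nat_lit 2160, nat_lit 16032, nat_lit 8688, nat_lit 10752, nat_lit 576, R1_181, R4_224, R5_12⟩, ⟨nat_lit 5, nat_lit 10992, nat_lit 16128, nat_lit 8736, nat_lit 17616, nat_lit 10032, R1_182, R3_367, R0_209⟩]⟩]⟩,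
 ⟨nat_lit 5, [⟨nat_lit 1, [⟨nat_lit 4, nat_lit 240, nat_lit 15984, nat_lit 18480, nat_lit 11376, nat_lit 2976, R10_385, R7_237, R5_62⟩, ⟨nat_lit 5, nat_lit 7872, nat_lit 16080, nat_lit 18624, nat_lit 10272, nat_lit 10176, R10_388, R2_214, R0_212⟩, ⟨nat_lit 6, nat_lit 5952, nat_lit 16176, nat_lit 18528, nat_lit 7008, nat_lit 16464, R10_386, R2_146, R11_343⟩]⟩, ⟨nat_lit 5, [⟨nat_lit 6, nat_lit 5904, nat_lit 15936, nat_lit 15312, nat_lit 7056, nat_lit 1728, R1_319, R2_147, R1_36⟩]⟩]⟩]], [], [], [], [[], [⟨nat_lit 5, [⟨nat_lit 1, [⟨nat_lit 4, nat_lit 144, nat_lit 4656, nat_lit 4080, nat_lit 8016, nat_lit 4080, R10_85, R4_167, R5_85⟩, ⟨nat_lit 6, nat_lit 5808, nat_lit 4704, nat_lit 4128, nat_lit 10128, nat_lit 16560, R10_86, R3_211, R11_345⟩]⟩, ⟨nat_lit 5, [⟨nat_lit 6, nat_lit 5712, nat_lit 5328, nat_lit 3552, nat_lit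 10080, nat_lit 1824, R1_74, R3_210, R1_38⟩]⟩]⟩], [], [], [], [⟨nat_lit 5, [⟨nat_lit 5, [⟨nat_lit 6, nat_lit 5568, nat_lit 4608, nat_lit 4032, nat_lit 10032, nat_lit 19488, R1_84, R3_209, R10_406⟩]⟩]⟩]]], [[], [], [], [], [[], [], [], [], [⟨nat_lit 4, [⟨nat_lit 4, [⟨nat_lit 6, nat_lit 4416, nat_lit 17280, nat_lit 5520, nat_lit 10512, nat_lit 12384, R7_115, R6_219, R4_258⟩]⟩]⟩,
 ⟨nat_lit 6, [⟨nat_lit 4, [⟨nat_lit 2, nat_lit 14832, nat_lit 12864, nat_lit 12480, nat_lit 11808, nat_lit 13872, R2_260, R7_246, R7_289⟩, ⟨nat_lit 6, nat_lit 5184, nat_lit 17376, nat_lit 3984, nat_lit 11376, nat_lit 12912, R2_83, R4_237, R4_269⟩]⟩, ⟨nat_lit 6, [⟨nat_lit 2, nat_lit 15024, nat_lit 13056, nat_lit 13824, nat_lit 11856, nat_lit 16608, R1_288, R7_247, R14_346⟩]⟩]⟩,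
 ⟨nat_lit 7, [⟨nat_lit 4, [⟨nat_lit 6, nat_lit 6000, nat_lit 17328, nat_lit 7680, nat_lit 10176, nat_lit 12576, R2_160, R8_212, R4_262⟩]⟩, ⟨nat_lit 7, [⟨nat_lit 6, nat_lit 6336, nat_lit 17760, nat_lit 8208, nat_lit 10224, nat_lit 16320, R1_171, R8_213, R5_340⟩]⟩]⟩], [⟨nat_lit 4, [⟨nat_lit 4, [⟨nat_lit 6, nat_lit 4464, nat_lit 2256, nat_lit 5760, nat_lit 10560, nat_lit 1248, R7_120, R6_220, R3_26⟩]⟩, ⟨nat_lit 5, [⟨nat_lit 6, nat_lit 4560, nat_lit 2304, nat_lit 15552, nat_lit 10608, nat_lit 15984, R14_324, R6_221, R10_333⟩]⟩]⟩,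
 ⟨nat_lit 6, [⟨nat_lit 4, [⟨nat_lit 2, nat_lit 14880, nat_lit 3840, nat_lit 12864, nat_lit 11904, nat_lit 13152, R2_268, R7_248, R2_274⟩, ⟨nat_lit 6, nat_lit 5232, nat_lit 4224, nat_lit 4176, nat_lit 11424, nat_lit 6432, R2_87, R4_238, R3_134⟩]⟩, ⟨nat_lit 5, [⟨nat_lit 2, nat_lit 15168, nat_lit 3888, nat_lit 12384, nat_lit 12000, nat_lit 14496, R12_258, R7_250, R1_302⟩, ⟨nat_lit 6, nat_lit 5280, nat_lit 4272, nat_lit 12912, nat_lit 11472, nat_lit 17664, R12_269, R4_239, R10_368⟩]⟩, ⟨nat_lit 6, [⟨nat_lit 2, nat_lit 15072, nat_lit 3936, nat_lit 14208, nat_lit 11952, nat_lit 14016, R1_296, R7_249, R12_292⟩]⟩]⟩,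
 ⟨nat_lit 7, [⟨nat_lit 4, [⟨nat_lit 6, nat_lit 6048, nat_lit 3264, nat_lit 8832, nat_lit 10272, nat_lit 7680, R2_184, R8_214, R3_160⟩]⟩, ⟨nat_lit 5, [⟨nat_lit 6, nat_lit 6144, nat_lit 3360, nat_lit 864, nat_lit 10368, nat_lit 16800, R12_18, R8_216, R10_350⟩]⟩, ⟨nat_lit 7, [⟨nat_lit 6, nat_lit 6384, nat_lit 3312, nat_lit 9648, nat_lit 10320, nat_lit 816, R1_201, R8_215, R0_17⟩]⟩]⟩]], [[], [], [], [], [], [⟨nat_lit 4, [⟨nat_lit 4, [⟨nat_lit 6, nat_lit 4848, nat_lit 480, nat_lit 5856, nat_lit 13344, nat_lit 1344, R7_122, R13_278, R3_28⟩]⟩, ⟨nat_lit 5, [⟨nat_lit 6, nat_lit 4944, nat_lit 528, nat_lit 16464, nat_lit 13392, nat_lit 16176, R14_343, R13_279, R10_337⟩]⟩]⟩,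
 ⟨nat_lit 5, [⟨nat_lit 5, [⟨nat_lit 6, nat_lit 5616, nat_lit 672, nat_lit 13536, nat_lit 10224, nat_lit 18192, R12_282, R3_213, R10_379⟩]⟩]⟩,
 ⟨nat_lit 6, [⟨nat_lit 4, [⟨nat_lit 2, nat_lit 15840, nat_lit 2208, nat_lit 12960, nat_lit 10368, nat_lit 13440, R2_270, R2_216, R2_280⟩, ⟨nat_lit 6, nat_lit 5424, nat_lit 2592, nat_lit 4272, nat_lit 7536, nat_lit 6528, R2_89, R3_157, R3_136⟩]⟩, ⟨nat_lit 5, [⟨nat_lit 2, nat_lit 15936, nat_lit 2256, nat_lit 12528, nat_lit 10464, nat_lit 14784, R12_261, R2_218, R1_308⟩, ⟨nat_lit 6, nat_lit 5472, nat_lit 2640, nat_lit 13440, nat_lit 7584, nat_lit 17808, R12_280, R3_158, R10_371⟩]⟩, ⟨nat_lit 6, [⟨nat_lit 2, nat_lit 15888, nat_lit 2304, nat_lit 14304, nat_lit 10416, nat_lit 14592, R1_298, R2_217, R12_304⟩]⟩]⟩,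
 ⟨nat_lit 7, [⟨nat_lit 4, [⟨nat_lit 6, nat_lit 6576, nat_lit 1632, nat_lit 9264, nat_lit 10656, nat_lit 7824, R2_193, R9_222, R3_163⟩]⟩, ⟨nat_lit 5, [⟨nat_lit 6, nat_lit 6672, nat_lit 1728, nat_lit 8304, nat_lit 10752, nat_lit 17136, R12_173, R9_224, R10_357⟩]⟩, ⟨nat_lit 7, [⟨nat_lit 6, nat_lit 6816, nat_lit 1680, nat_lit 10080, nat_lit 10704, nat_lit 912, R1_210, R9_223, R0_19⟩]⟩]⟩]], [[], [], [], [], [⟨nat_lit 6, [⟨nat_lit 4, [⟨nat_lit 2, nat_lit 15312, nat_lit 11568, nat_lit 12528, nat_lit 10992, nat_lit 14016, R2_261, R2_229, R7_292⟩]⟩, ⟨nat_lit 6, [⟨nat_lit 2, nat_lit 15504, nat_lit 11712, nat_lit 13872, nat_lit 11040, nat_lit 16752, R1_289, R2_230, R14_349⟩]⟩]⟩], [⟨nat_lit 6, [⟨nat_lit 4, [⟨nat_lit 2, nat_lit 15360, nat_lit 2016, nat_lit 13104, nat_lit 11424, nat_lit 13296, R2_273, R2_238, R2_277⟩]⟩, ⟨nat_lit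 5, [⟨nat_lit 2, nat_lit 15744, nat_lit 2064, nat_lit 12624, nat_lit 11520, nat_lit 14640, R12_263, R2_240, R1_305⟩]⟩, ⟨nat_lit 6, [⟨nat_lit 2, nat_lit 15648, nat_lit 2112, nat_lit 14448, nat_lit 11472, nat_lit 14160, R1_301, R2_239, R12_295⟩]⟩]⟩], [⟨nat_lit 6, [⟨nat_lit 6, [⟨nat_lit 2, nat_lit 15600, nat_lit 12144, nat_lit 15072, nat_lit 11184, nat_lit 15168, R1_314, R2_233, R12_316⟩]⟩]⟩]], [[], [], [], [], [⟨nat_lit 7, [⟨nat_lit 4, [⟨nat_lit 6, nat_lit 6912, nat_lit 14736, nat_lit 7824, nat_lit 7392, nat_lit 12720, R2_163, R5_154, R4_265⟩]⟩, ⟨nat_lit 7, [⟨nat_lit 6, nat_lit 7200, nat_lit 15360, nat_lit 8352, nat_lit 7488, nat_lit 16656, R1_174, R5_156, R5_347⟩]⟩]⟩], [⟨nat_lit 7, [⟨nat_lit 4, [⟨nat_lit 6, nat_lit 6960, nat_lit 4176, nat_lit 9072, nat_lit 7440, nat_lit 7728, R2_189, R5_155, R3_161⟩]⟩, ⟨nat_lit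 5, [⟨nat_lit 6, nat_lit 7056, nat_lit 4464, nat_lit 6096, nat_lit 7824, nat_lit 16944, R12_127, R5_163, R10_353⟩]⟩, ⟨nat_lit 7, [⟨nat_lit 6, nat_lit 7248, nat_lit 4368, nat_lit 9888, nat_lit 7632, nat_lit 864, R1_206, R5_159, R0_18⟩]⟩]⟩], [], [⟨nat_lit 7, [⟨nat_lit 7, [⟨nat_lit 6, nat_lit 7344, nat_lit 16368, nat_lit 8784, nat_lit 7536, nat_lit 21600, R1_183, R5_157, R11_450⟩]⟩]⟩]]], [[], [], [], [], [[], [⟨nat_lit 4, [⟨nat_lit 1, [⟨nat_lit 6, nat_lit 4800, nat_lit 288, nat_lit 1920, nat_lit 10464, nat_lit 12624, R5_40, R6_218, R11_263⟩]⟩]⟩,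
 ⟨nat_lit 7, [⟨nat_lit 1, [⟨nat_lit 4, nat_lit 288, nat_lit 4800, nat_lit 12624, nat_lit 10464, nat_lit 1920, R11_263, R6_218, R5_40⟩, ⟨nat_lit 6, nat_lit 6480, nat_lit 6480, nat_lit 12768, nat_lit 10128, nat_lit 12768, R11_266, R8_211, R11_266⟩]⟩, ⟨nat_lit 5, [⟨nat_lit 6, nat_lit 6240, nat_lit 6240, nat_lit 1536, nat_lit 10080, nat_lit 1536, R1_32, R8_210, R1_32⟩]⟩]⟩]], [[], [⟨nat_lit 4, [⟨nat_lit 1, [⟨nat_lit 4, nat_lit 48, nat_lit 14448, nat_lit 8736, nat_lit 7344, nat_lit 1632, R5_182, R6_153, R5_34⟩, ⟨nat_lit 6, nat_lit 5088, nat_lit 14592, nat_lit 10464, nat_lit 13296, nat_lit 13056, R5_218, R13_277, R11_272⟩]⟩]⟩,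
 ⟨nat_lit 5, [⟨nat_lit 1, [⟨nat_lit 4, nat_lit 192, nat_lit 14496, nat_lit 8016, nat_lit 8064, nat_lit 4032, R0_167, R4_168, R5_84⟩, ⟨nat_lit 6, nat_lit 5856, nat_lit 14640, nat_lit 8064, nat_lit 10176, nat_lit 13296, R0_168, R3_212, R11_277⟩]⟩]⟩,
 ⟨nat_lit 7, [⟨nat_lit 1, [⟨nat_lit 4, nat_lit 384, nat_lit 14544, nat_lit 12672, nat_lit 9312, nat_lit 2448, R11_264, R8_194, R5_51⟩, ⟨nat_lit 6, nat_lit 6864, nat_lit 14688, nat_lit 12816, nat_lit 10608, nat_lit 13200, R11_267, R9_221, R11_275⟩]⟩, ⟨nat_lit 5, [⟨nat_lit 6, nat_lit 6768, nat_lit 14400, nat_lit 10656, nat_lit 10560, nat_lit 1680, R1_222, R9_220, R1_35⟩]⟩]⟩]], [], [[], [⟨nat_lit 7, [⟨nat_lit 1, [⟨nat_lit 4, nat_lit 624, nat_lit 21888, nat_lit 12720, nat_lit 10704, nat_lit 2112, R11_265, R4_223, R5_44⟩, ⟨nat_lit 6, nat_lit 7584, nat_lit 21936, nat_lit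 12864, nat_lit 7296, nat_lit 12912, R11_268, R5_152, R11_269⟩]⟩, ⟨nat_lit 5, [⟨nat_lit 6, nat_lit 7152, nat_lit 21840, nat_lit 6960, nat_lit 7680, nat_lit 1584, R1_145, R5_160, R1_33⟩]⟩]⟩], [], [], [], [⟨nat_lit 7, [⟨nat_lit 5, [⟨nat_lit 6, nat_lit 7104, nat_lit 4272, nat_lit 4704, nat_lit 7776, nat_lit 19056, R1_98, R5_162, R10_397⟩]⟩]⟩]]]]
noncomputable def N2273 : T3 (List N0) := [[[[⟨nat_lit 0, [⟨nat_lit 0, [⟨nat_lit 6, nat_lit 0, nat_lit 864, nat_lit 96, nat_lit 3216, nat_lit 13488, R6_2, R4_67, R7_281⟩]⟩, ⟨nat_lit 2, [⟨nat_lit 4, nat_lit 576, nat_lit 2736, nat_lit 3312, nat_lit 3840, nat_lit 3168, R8_69, R6_80, R7_66⟩, ⟨nat_lit 6, nat_lit 624, nat_lit 3072, nat_lit 3408, nat_lit 4080, nat_lit 4560, R8_71, R4_85, R14_95⟩]⟩]⟩,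
 ⟨nat_lit 2, [⟨nat_lit 2, [⟨nat_lit 4, nat_lit 1392, nat_lit 10368, nat_lit 4608, nat_lit 1536, nat_lit 3696, R5_96, R4_32, R7_77⟩]⟩]⟩], [⟨nat_lit 0, [⟨nat_lit 0, [⟨nat_lit 6, nat_lit 96, nat_lit 432, nat_lit 960, nat_lit 3264, nat_lit 12192, R6_20, R4_68, R2_254⟩]⟩, ⟨nat_lit 1, [⟨nat_lit 6, nat_lit 432, nat_lit 1344, nat_lit 576, nat_lit 4464, nat_lit 12768, R4_12, R4_93, R1_266⟩]⟩, ⟨nat_lit 2, [⟨nat_lit 6, nat_lit 768, nat_lit 2736, nat_lit 3456, nat_lit 4176, nat_lit 2928, R8_72, R4_87, R12_61⟩]⟩]⟩], [⟨nat_lit 0, [⟨nat_lit 2, [⟨nat_lit 4, nat_lit 864, nat_lit 1680, nat_lit 3360, nat_lit 3888, nat_lit 1488, R8_70, R6_81, R2_31⟩, ⟨nat_lit 5, nat_lit 960, nat_lit 2496, nat_lit 3696, nat_lit 2256, nat_lit 960, R8_77, R8_47, R1_20⟩, ⟨nat_lit 6, nat_lit 912, nat_lit 2880, nat_lit 3504, nat_lit 4128, nat_lit 6768,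 R8_73, R4_86, R12_141⟩]⟩]⟩,
 ⟨nat_lit 2, [⟨nat_lit 2, [⟨nat_lit 4, nat_lit 1488, nat_lit 9552, nat_lit 6192, nat_lit 8256, nat_lit 2064, R5_129, R4_172, R2_43⟩, ⟨nat_lit 5, nat_lit 1536, nat_lit 10080, nat_lit 6240, nat_lit 6240, nat_lit 1536, R5_130, R5_130, R1_32⟩]⟩]⟩]], [], [[], [], [⟨nat_lit 0, [⟨nat_lit 2, [⟨nat_lit 5, nat_lit 1008, nat_lit 6528, nat_lit 10944, nat_lit 17136, nat_lit 6384, R8_228, R5_357, R1_133⟩]⟩]⟩,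
 ⟨nat_lit 2, [⟨nat_lit 2, [⟨nat_lit 5, nat_lit 1584, nat_lit 7680, nat_lit 7152, nat_lit 21840, nat_lit 6960, R5_149, R11_455, R1_145⟩]⟩]⟩]], [[⟨nat_lit 0, [⟨nat_lit 0, [⟨nat_lit 6, nat_lit 48, nat_lit 4896, nat_lit 4944, nat_lit 15888, nat_lit 13584, R6_103, R3_331, R7_283⟩]⟩, ⟨nat_lit 2, [⟨nat_lit 4, nat_lit 672, nat_lit 8688, nat_lit 8160, nat_lit 20352, nat_lit 9360, R8_170, R13_424, R7_195⟩, ⟨nat_lit 6, nat_lit 720, nat_lit 8736, nat_lit 8496, nat_lit 16848, nat_lit 5040, R8_177, R3_351, R14_105⟩]⟩]⟩,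
 ⟨nat_lit 2, [⟨nat_lit 2, [⟨nat_lit 4, nat_lit 1440, nat_lit 9648, nat_lit 4992, nat_lit 12624, nat_lit 10752, R5_104, R3_263, R7_224⟩]⟩]⟩,
 ⟨nat_lit 3, [⟨nat_lit 0, [⟨nat_lit 6, nat_lit 240, nat_lit 5904, nat_lit 5184, nat_lit 14736, nat_lit 13680, R13_108, R10_307, R7_285⟩]⟩, ⟨nat_lit 2, [⟨nat_lit 4, nat_lit 1872, nat_lit 9360, nat_lit 4128, nat_lit 1392, nat_lit 10128, R9_86, R3_29, R7_211⟩, ⟨nat_lit 6, nat_lit 1920, nat_lit 9408, nat_lit 4176, nat_lit 16368, nat_lit 5088, R9_87, R10_341, R14_106⟩]⟩]⟩], [⟨nat_lit 0, [⟨nat_lit 0, [⟨nat_lit 6, nat_lit 144, nat_lit 3648, nat_lit 6672, nat_lit 15984, nat_lit 12288, R6_139, R3_333, R2_256⟩]⟩, ⟨nat_lit 1, [⟨nat_lit 6, nat_lit 480, nat_lit 4800, nat_lit 6960, nat_lit 17328, nat_lit 12864, R4_145, R3_361, R1_268⟩]⟩, ⟨nat_lit 2, [⟨nat_lit 6, nat_lit 816, nat_lit 7056,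 nat_lit 8592, nat_lit 16992, nat_lit 3408, R8_179, R3_354, R12_71⟩]⟩]⟩,
 ⟨nat_lit 3, [⟨nat_lit 0, [⟨nat_lit 6, nat_lit 288, nat_lit 4176, nat_lit 6768, nat_lit 15504, nat_lit 12432, R13_141, R10_323, R2_259⟩]⟩, ⟨nat_lit 1, [⟨nat_lit 6, nat_lit 528, nat_lit 5904, nat_lit 5136, nat_lit 18912, nat_lit 13008, R3_107, R10_394, R1_271⟩]⟩, ⟨nat_lit 2, [⟨nat_lit 6, nat_lit 1968, nat_lit 7440, nat_lit 5040, nat_lit 18336, nat_lit 3456, R9_105, R10_382, R12_72⟩]⟩]⟩], [⟨nat_lit 0, [⟨nat_lit 2, [⟨nat_lit 4, nat_lit 1056, nat_lit 6336, nat_lit 8304, nat_lit 20448, nat_lit 8544, R8_173, R13_426, R2_178⟩, ⟨nat_lit 5, nat_lit 1152, nat_lit 6384, nat_lit 8976, nat_lit 16800, nat_lit 9360, R8_187, R9_350, R1_195⟩, ⟨nat_lit 6, nat_lit 1104, nat_lit 6432, nat_lit 8640, nat_lit 16944, nat_lit 8160, R8_180, R3_353, R12_170⟩]⟩]⟩,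
 ⟨nat_lit 2, [⟨nat_lit 2, [⟨nat_lit 4, nat_lit 1632, nat_lit 7536, nat_lit 6720, nat_lit 13008, nat_lit 9840, R5_140, R3_271, R2_205⟩, ⟨nat_lit 5, nat_lit 1680, nat_lit 7584, nat_lit 6768, nat_lit 14400, nat_lit 10656, R5_141, R0_300, R1_222⟩]⟩]⟩,
 ⟨nat_lit 3, [⟨nat_lit 2, [⟨nat_lit 4, nat_lit 2016, nat_lit 7200, nat_lit 6624, nat_lit 7872, nat_lit 9312, R9_138, R3_164, R2_194⟩, ⟨nat_lit 5, nat_lit 2112, nat_lit 7248, nat_lit 6720, nat_lit 1248, nat_lit 10128, R9_140, R0_26, R1_211⟩, ⟨nat_lit 6, nat_lit 2064, nat_lit 7296, nat_lit 6672, nat_lit 17280, nat_lit 8208, R9_139, R10_360, R12_171⟩]⟩]⟩], [⟨nat_lit 0, [⟨nat_lit 0, [⟨nat_lit 6, nat_lit 192, nat_lit 624, nat_lit 6288, nat_lit 15936, nat_lit 11904, R6_131, R3_332, R2_248⟩]⟩, ⟨nat_lit 2, [⟨nat_lit 4, nat_lit 1248, nat_lit 2304, nat_lit 8256, nat_lit 20400,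 nat_lit 3456, R8_172, R13_425, R2_72⟩, ⟨nat_lit 6, nat_lit 1296, nat_lit 2736, nat_lit 8544, nat_lit 16896, nat_lit 13152, R8_178, R3_352, R12_274⟩, ⟨nat_lit 7, nat_lit 1344, nat_lit 2448, nat_lit 8448, nat_lit 3360, nat_lit 2928, R8_176, R3_70, R1_61⟩]⟩]⟩,
 ⟨nat_lit 2, [⟨nat_lit 2, [⟨nat_lit 4, nat_lit 1776, nat_lit 9936, nat_lit 5664, nat_lit 13440, nat_lit 4848, R5_118, R3_280, R2_101⟩, ⟨nat_lit 7, nat_lit 1824, nat_lit 10080, nat_lit 5712, nat_lit 19632, nat_lit 3552, R5_119, R10_409, R1_74⟩]⟩]⟩,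
 ⟨nat_lit 3, [⟨nat_lit 0, [⟨nat_lit 6, nat_lit 384, nat_lit 4224, nat_lit 7152, nat_lit 15216, nat_lit 12384, R13_149, R10_317, R2_258⟩]⟩, ⟨nat_lit 3, [⟨nat_lit 6, nat_lit 2544, nat_lit 5952, nat_lit 5088, nat_lit 18768, nat_lit 12960, R3_106, R10_391, R1_270⟩]⟩]⟩]]], [[[⟨nat_lit 0, [⟨nat_lit 0, [⟨nat_lit 6, nat_lit 7968, nat_lit 9648, nat_lit 13392, nat_lit 9120, nat_lit 16800, R8_279, R4_190, R7_350⟩]⟩, ⟨nat_lit 2, [⟨nat_lit 4, nat_lit 8976, nat_lit 1776, nat_lit 2256, nat_lit 9504, nat_lit 3360, R9_47, R6_198, R7_70⟩, ⟨nat_lit 6, nat_lit 9024, nat_lit 9744, nat_lit 2352, nat_lit 10416, nat_lit 6336, R9_49, R4_217, R14_132⟩]⟩]⟩,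
 ⟨nat_lit 1, [⟨nat_lit 0, [⟨nat_lit 6, nat_lit 8208, nat_lit 10224, nat_lit 16320, nat_lit 6336, nat_lit 17088, R5_340, R5_132, R7_356⟩]⟩, ⟨nat_lit 2, [⟨nat_lit 4, nat_lit 9600, nat_lit 2640, nat_lit 720, nat_lit 2112, nat_lit 4224, R0_15, R8_44, R7_88⟩, ⟨nat_lit 6, nat_lit 9648, nat_lit 10320, nat_lit 816, nat_lit 6384, nat_lit 6384, R0_17, R5_133, R14_133⟩]⟩]⟩], [⟨nat_lit 0, [⟨nat_lit 0, [⟨nat_lit 6, nat_lit 8064, nat_lit 528, nat_lit 13440, nat_lit 9168, nat_lit 15024, R8_280, R4_191, R2_313⟩]⟩, ⟨nat_lit 1, [⟨nat_lit 6, nat_lit 8688, nat_lit 576, nat_lit 2160, nat_lit 10752, nat_lit 16032, R5_45, R4_224, R1_334⟩]⟩, ⟨nat_lit 2, [⟨nat_lit 6, nat_lit 9168, nat_lit 672, nat_lit 2400, nat_lit 10512, nat_lit 4320, R9_50, R4_219, R12_90⟩]⟩]⟩,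
 ⟨nat_lit 1, [⟨nat_lit 0, [⟨nat_lit 6, nat_lit 8352, nat_lit 7488, nat_lit 16656, nat_lit 7200, nat_lit 15360, R5_347, R5_150, R2_320⟩]⟩, ⟨nat_lit 1, [⟨nat_lit 6, nat_lit 8784, nat_lit 7536, nat_lit 21600, nat_lit 7344, nat_lit 16368, R11_450, R5_153, R1_341⟩]⟩, ⟨nat_lit 2, [⟨nat_lit 6, nat_lit 9888, nat_lit 7632, nat_lit 864, nat_lit 7248, nat_lit 4368, R0_18, R5_151, R12_91⟩]⟩]⟩], [⟨nat_lit 0, [⟨nat_lit 2, [⟨nat_lit 4, nat_lit 9264, nat_lit 864, nat_lit 2304, nat_lit 9552, nat_lit 1680, R9_48, R6_199, R2_35⟩, ⟨nat_lit 5, nat_lit 9360, nat_lit 1248, nat_lit 2784, nat_lit 6768, nat_lit 1152, R9_58, R8_141, R1_24⟩, ⟨nat_lit 6, nat_lit 9312, nat_lit 1584, nat_lit 2448, nat_lit 10464, nat_lit 7296, R9_51, R4_218, R12_152⟩]⟩]⟩,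
 ⟨nat_lit 1, [⟨nat_lit 2, [⟨nat_lit 4, nat_lit 10032, nat_lit 6288, nat_lit 768, nat_lit 6624, nat_lit 2640, R0_16, R8_138, R2_55⟩, ⟨nat_lit 5, nat_lit 10128, nat_lit 7104, nat_lit 1248, nat_lit 6864, nat_lit 2112, R0_26, R9_143, R1_44⟩, ⟨nat_lit 6, nat_lit 10080, nat_lit 7488, nat_lit 912, nat_lit 6816, nat_lit 7344, R0_19, R5_142, R12_153⟩]⟩]⟩,
 ⟨nat_lit 2, [⟨nat_lit 2, [⟨nat_lit 4, nat_lit 10608, nat_lit 10272, nat_lit 11568, nat_lit 8496, nat_lit 2208, R0_241, R4_177, R2_46⟩, ⟨nat_lit 5, nat_lit 10656, nat_lit 10560, nat_lit 14400, nat_lit 6768, nat_lit 1680, R0_300, R5_141, R1_35⟩]⟩]⟩]], [[⟨nat_lit 1, [⟨nat_lit 0, [⟨nat_lit 6, nat_lit 8256, nat_lit 12912, nat_lit 16416, nat_lit 5952, nat_lit 17232, R5_342, R11_124, R7_359⟩]⟩, ⟨nat_lit 2, [⟨nat_lit 4, nat_lit 9696, nat_lit 13680, nat_lit 5952, nat_lit 15216,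 nat_lit 12672, R0_124, R5_317, R7_264⟩, ⟨nat_lit 6, nat_lit 9744, nat_lit 13968, nat_lit 6048, nat_lit 6000, nat_lit 7728, R0_126, R11_125, R14_161⟩]⟩]⟩], [⟨nat_lit 1, [⟨nat_lit 0, [⟨nat_lit 6, nat_lit 8400, nat_lit 15840, nat_lit 16752, nat_lit 6816, nat_lit 15504, R5_349, R11_142, R2_323⟩]⟩, ⟨nat_lit 1, [⟨nat_lit 6, nat_lit 8832, nat_lit 16416, nat_lit 21696, nat_lit 6960, nat_lit 16512, R11_452, R11_145, R1_344⟩]⟩, ⟨nat_lit 2, [⟨nat_lit 6, nat_lit 9936, nat_lit 17040, nat_lit 6096, nat_lit 6864, nat_lit 5712, R0_127, R11_143, R12_119⟩]⟩]⟩], [⟨nat_lit 1, [⟨nat_lit 2, [⟨nat_lit 4, nat_lit 10176, nat_lit 4128, nat_lit 6000, nat_lit 15792, nat_lit 11376, R0_125, R5_329, R2_237⟩, ⟨nat_lit 5, nat_lit 10272, nat_lit 4944, nat_lit 6384, nat_lit 4704, nat_lit 11952, R0_133, R0_98, R1_249⟩, ⟨nat_lit 6, nat_lit 10224,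 nat_lit 5328, nat_lit 6144, nat_lit 6432, nat_lit 9168, R0_128, R11_134, R12_191⟩]⟩]⟩]], [[], [], [⟨nat_lit 0, [⟨nat_lit 2, [⟨nat_lit 5, nat_lit 9408, nat_lit 4224, nat_lit 11664, nat_lit 17280, nat_lit 6576, R9_243, R5_360, R1_137⟩]⟩]⟩,
 ⟨nat_lit 1, [⟨nat_lit 2, [⟨nat_lit 5, nat_lit 10320, nat_lit 5088, nat_lit 10464, nat_lit 4560, nat_lit 7488, R0_218, R0_95, R1_156⟩]⟩]⟩,
 ⟨nat_lit 2, [⟨nat_lit 2, [⟨nat_lit 5, nat_lit 10704, nat_lit 5424, nat_lit 15120, nat_lit 21984, nat_lit 7104, R0_315, R11_458, R1_148⟩]⟩]⟩]], [[⟨nat_lit 0, [⟨nat_lit 0, [⟨nat_lit 6, nat_lit 8016, nat_lit 11040, nat_lit 13632, nat_lit 16224, nat_lit 16896, R8_284, R3_338, R7_352⟩]⟩, ⟨nat_lit 2, [⟨nat_lit 4, nat_lit 9072, nat_lit 11952, nat_lit 9024, nat_lit 20688, nat_lit 9552, R9_188, R13_431, R7_199⟩, ⟨nat_lit 6, nat_lit 9120, nat_lit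 12624, nat_lit 9360, nat_lit 17040, nat_lit 7008, R9_195, R3_355, R14_146⟩]⟩]⟩,
 ⟨nat_lit 1, [⟨nat_lit 0, [⟨nat_lit 6, nat_lit 8304, nat_lit 11136, nat_lit 16368, nat_lit 12288, nat_lit 17136, R5_341, R0_256, R7_357⟩]⟩, ⟨nat_lit 2, [⟨nat_lit 4, nat_lit 9792, nat_lit 12000, nat_lit 8544, nat_lit 14304, nat_lit 11232, R0_178, R9_298, R7_234⟩, ⟨nat_lit 6, nat_lit 9840, nat_lit 12672, nat_lit 8880, nat_lit 13008, nat_lit 7056, R0_185, R0_271, R14_147⟩]⟩]⟩,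
 ⟨nat_lit 3, [⟨nat_lit 0, [⟨nat_lit 6, nat_lit 8544, nat_lit 11088, nat_lit 15552, nat_lit 14832, nat_lit 17040, R9_324, R10_309, R7_355⟩]⟩]⟩], [⟨nat_lit 0, [⟨nat_lit 0, [⟨nat_lit 6, nat_lit 8112, nat_lit 9552, nat_lit 13728, nat_lit 16320, nat_lit 15120, R8_286, R3_340, R2_315⟩]⟩, ⟨nat_lit 1, [⟨nat_lit 6, nat_lit 8736, nat_lit 10032, nat_lit 10992, nat_lit 17616, nat_lit 16128, R5_229, R3_367, R1_336⟩]⟩, ⟨nat_lit 2, [⟨nat_lit 6, nat_lit 9216, nat_lit 10800, nat_lit 9456, nat_lit 17136, nat_lit 4992, R9_197, R3_357, R12_104⟩]⟩]⟩,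
 ⟨nat_lit 1, [⟨nat_lit 0, [⟨nat_lit 6, nat_lit 8448, nat_lit 9648, nat_lit 16704, nat_lit 12672, nat_lit 15408, R5_348, R0_264, R2_321⟩]⟩, ⟨nat_lit 1, [⟨nat_lit 6, nat_lit 8880, nat_lit 10128, nat_lit 21648, nat_lit 13968, nat_lit 16416, R11_451, R0_291, R1_342⟩]⟩, ⟨nat_lit 2, [⟨nat_lit 6, nat_lit 9984, nat_lit 10848, nat_lit 8976, nat_lit 13872, nat_lit 5040, R0_187, R0_289, R12_105⟩]⟩]⟩,
 ⟨nat_lit 3, [⟨nat_lit 0, [⟨nat_lit 6, nat_lit 8592, nat_lit 9600, nat_lit 15840, nat_lit 15600, nat_lit 15264, R9_330, R10_325, R2_318⟩]⟩, ⟨nat_lit 1, [⟨nat_lit 6, nat_lit 8928, nat_lit 10080, nat_lit 14304, nat_lit 19008, nat_lit 16272, R0_298, R10_396, R1_339⟩]⟩]⟩]]], [[[⟨nat_lit 0, [⟨nat_lit 0, [⟨nat_lit 6, nat_lit 5808, nat_lit 11568, nat_lit 13440, nat_lit 11664, nat_lit 14304, R4_280, R4_243, R7_298⟩]⟩, ⟨nat_lit 2,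 [⟨nat_lit 4, nat_lit 6096, nat_lit 4224, nat_lit 14400, nat_lit 10848, nat_lit 3216, R5_300, R6_226, R7_67⟩, ⟨nat_lit 6, nat_lit 6144, nat_lit 12000, nat_lit 15984, nat_lit 11712, nat_lit 5328, R5_333, R4_244, R14_111⟩]⟩]⟩,
 ⟨nat_lit 2, [⟨nat_lit 2, [⟨nat_lit 4, nat_lit 6816, nat_lit 4320, nat_lit 4608, nat_lit 1824, nat_lit 3744, R11_96, R4_38, R7_78⟩]⟩, ⟨nat_lit 6, [⟨nat_lit 4, nat_lit 4512, nat_lit 3072, nat_lit 3936, nat_lit 4032, nat_lit 3792, R1_82, R4_84, R4_79⟩]⟩]⟩], [], [⟨nat_lit 0, [⟨nat_lit 2, [⟨nat_lit 4, nat_lit 6288, nat_lit 336, nat_lit 14448, nat_lit 10896, nat_lit 1536, R5_301, R6_227, R2_32⟩, ⟨nat_lit 5, nat_lit 6384, nat_lit 6528, nat_lit 17136, nat_lit 9936, nat_lit 1008, R5_357, R8_207, R1_21⟩, ⟨nat_lit 6, nat_lit 6336, nat_lit 12720, nat_lit 16032, nat_lit 11760, nat_lit 7056, R5_334, R4_245,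 R12_147⟩]⟩]⟩,
 ⟨nat_lit 2, [⟨nat_lit 2, [⟨nat_lit 4, nat_lit 6912, nat_lit 720, nat_lit 5808, nat_lit 8544, nat_lit 2112, R11_121, R4_178, R2_44⟩, ⟨nat_lit 5, nat_lit 6960, nat_lit 7680, nat_lit 5856, nat_lit 7152, nat_lit 1584, R11_122, R5_149, R1_33⟩]⟩, ⟨nat_lit 6, [⟨nat_lit 4, nat_lit 4656, nat_lit 816, nat_lit 4224, nat_lit 10368, nat_lit 14256, R1_88, R4_216, R3_297⟩, ⟨nat_lit 5, nat_lit 4704, nat_lit 7776, nat_lit 4272, nat_lit 7104, nat_lit 19056, R1_89, R5_148, R10_397⟩]⟩]⟩]], [], [[], [], [⟨nat_lit 0, [⟨nat_lit 2, [⟨nat_lit 5, nat_lit 6432, nat_lit 6144, nat_lit 17472, nat_lit 17472, nat_lit 6432, R5_364, R5_364, R1_134⟩]⟩]⟩,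
 ⟨nat_lit 2, [⟨nat_lit 2, [⟨nat_lit 5, nat_lit 7008, nat_lit 7296, nat_lit 6768, nat_lit 22176, nat_lit 7008, R11_141, R11_462, R1_146⟩]⟩, ⟨nat_lit 6, [⟨nat_lit 5, nat_lit 4752, nat_lit 9360, nat_lit 4464, nat_lit 21744, nat_lit 19104, R1_93, R11_453, R10_398⟩]⟩]⟩], [], [], [], [⟨nat_lit 2, [⟨nat_lit 6, [⟨nat_lit 1, nat_lit 4128, nat_lit 7776, nat_lit 4992, nat_lit 15888, nat_lit 21360, R1_104, R1_331, R11_445⟩, ⟨nat_lit 5, nat_lit 4176, nat_lit 7824, nat_lit 4944, nat_lit 21792, nat_lit 15600, R1_103, R11_454, R1_325⟩]⟩]⟩]], [[⟨nat_lit 0, [⟨nat_lit 0, [⟨nat_lit 6, nat_lit 5856, nat_lit 10272, nat_lit 13584, nat_lit 16656, nat_lit 14400, R4_283, R3_347, R7_300⟩]⟩, ⟨nat_lit 2, [⟨nat_lit 4, nat_lit 6192, nat_lit 10608, nat_lit 14544, nat_lit 21072, nat_lit 9408, R5_303, R13_439, R7_196⟩, ⟨nat_lit 6, nat_lit 6240,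 nat_lit 10800, nat_lit 16080, nat_lit 17184, nat_lit 5520, R5_335, R3_358, R14_115⟩]⟩]⟩,
 ⟨nat_lit 2, [⟨nat_lit 2, [⟨nat_lit 4, nat_lit 6864, nat_lit 10704, nat_lit 4992, nat_lit 12720, nat_lit 10800, R11_104, R3_265, R7_225⟩]⟩, ⟨nat_lit 6, [⟨nat_lit 4, nat_lit 4560, nat_lit 9744, nat_lit 3984, nat_lit 14304, nat_lit 10128, R1_83, R3_298, R4_211⟩, ⟨nat_lit 7, nat_lit 4608, nat_lit 10032, nat_lit 4032, nat_lit 19488, nat_lit 5568, R1_84, R10_406, R5_116⟩]⟩]⟩,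
 ⟨nat_lit 3, [⟨nat_lit 0, [⟨nat_lit 6, nat_lit 5952, nat_lit 10320, nat_lit 15456, nat_lit 14880, nat_lit 14544, R3_322, R10_310, R7_303⟩]⟩, ⟨nat_lit 2, [⟨nat_lit 4, nat_lit 7296, nat_lit 10656, nat_lit 2592, nat_lit 2016, nat_lit 10320, R0_54, R3_42, R7_215⟩, ⟨nat_lit 6, nat_lit 7344, nat_lit 10848, nat_lit 2640, nat_lit 16464, nat_lit 5568, R0_55, R10_343, R14_116⟩]⟩]⟩], [], [⟨nat_lit 0, [⟨nat_lit 2, [⟨nat_lit 4, nat_lit 6480, nat_lit 4176, nat_lit 14640, nat_lit 21168, nat_lit 8592, R5_305, R13_441, R2_179⟩, ⟨nat_lit 5, nat_lit 6576, nat_lit 4224, nat_lit 17280, nat_lit 17520, nat_lit 9408, R5_360, R9_365, R1_196⟩, ⟨nat_lit 6, nat_lit 6528, nat_lit 4272, nat_lit 16176, nat_lit 17280, nat_lit 8640, R5_337, R3_360, R12_180⟩]⟩]⟩,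
 ⟨nat_lit 2, [⟨nat_lit 2, [⟨nat_lit 4, nat_lit 7056, nat_lit 5376, nat_lit 6336, nat_lit 13056, nat_lit 9888, R11_132, R3_272, R2_206⟩, ⟨nat_lit 5, nat_lit 7104, nat_lit 5424, nat_lit 6384, nat_lit 15120, nat_lit 10704, R11_133, R0_315, R1_223⟩]⟩, ⟨nat_lit 6, [⟨nat_lit 4, nat_lit 4800, nat_lit 6720, nat_lit 4320, nat_lit 15120, nat_lit 15072, R1_90, R3_315, R3_314⟩, ⟨nat_lit 5, nat_lit 4848, nat_lit 6816, nat_lit 4416, nat_lit 14352, nat_lit 19152, R1_92, R0_299, R10_399⟩, ⟨nat_lit 7, nat_lit 4896, nat_lit 6768, nat_lit 4368, nat_lit 19584, nat_lit 14016, R1_91, R10_408, R0_292⟩]⟩]⟩,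
 ⟨nat_lit 3, [⟨nat_lit 2, [⟨nat_lit 4, nat_lit 7392, nat_lit 5040, nat_lit 4464, nat_lit 8496, nat_lit 9504, R0_93, R3_177, R2_198⟩, ⟨nat_lit 5, nat_lit 7488, nat_lit 5088, nat_lit 4560, nat_lit 10464, nat_lit 10320, R0_95, R0_218, R1_215⟩, ⟨nat_lit 6, nat_lit 7440, nat_lit 5136, nat_lit 4512, nat_lit 17376, nat_lit 8688, R0_94, R10_362, R12_181⟩]⟩]⟩], [⟨nat_lit 0, [⟨nat_lit 0, [⟨nat_lit 6, nat_lit 5904, nat_lit 3360, nat_lit 13776, nat_lit 16704, nat_lit 13920, R4_287, R3_348, R2_290⟩]⟩, ⟨nat_lit 2, [⟨nat_lit 4, nat_lit 6672, nat_lit 6000, nat_lit 14592, nat_lit 21120, nat_lit 3504, R5_304, R13_440, R2_73⟩, ⟨nat_lit 6, nat_lit 6720, nat_lit 6096, nat_lit 16128, nat_lit 17232, nat_lit 14976, R5_336, R3_359, R12_312⟩, ⟨nat_lit 7, nat_lit 6768, nat_lit 6048, nat_lit 16464, nat_lit 10560, nat_lit 2976, R5_343,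 R3_220, R1_62⟩]⟩]⟩,
 ⟨nat_lit 2, [⟨nat_lit 2, [⟨nat_lit 4, nat_lit 7200, nat_lit 6720, nat_lit 5280, nat_lit 13536, nat_lit 4896, R11_110, R3_282, R2_102⟩, ⟨nat_lit 7, nat_lit 7248, nat_lit 6768, nat_lit 5328, nat_lit 19968, nat_lit 3600, R11_111, R10_416, R1_75⟩]⟩, ⟨nat_lit 6, [⟨nat_lit 7, nat_lit 5040, nat_lit 8448, nat_lit 4080, nat_lit 19536, nat_lit 21312, R1_85, R10_407, R11_444⟩]⟩]⟩,
 ⟨nat_lit 3, [⟨nat_lit 0, [⟨nat_lit 6, nat_lit 6048, nat_lit 3936, nat_lit 15792, nat_lit 15312, nat_lit 14160, R3_329, R10_319, R2_295⟩]⟩, ⟨nat_lit 2, [⟨nat_lit 4, nat_lit 7680, nat_lit 6432, nat_lit 3120, nat_lit 6960, nat_lit 4368, R0_65, R3_145, R2_91⟩, ⟨nat_lit 6, nat_lit 7728, nat_lit 6480, nat_lit 3168, nat_lit 18000, nat_lit 15072, R0_66, R10_375, R12_314⟩]⟩, ⟨nat_lit 3, [⟨nat_lit 6, nat_lit 7920, nat_lit 5040, nat_lit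 4272, nat_lit 18864, nat_lit 15696, R10_89, R10_393, R1_327⟩]⟩]⟩]], [[], [], [], [], [⟨nat_lit 2, [⟨nat_lit 6, [⟨nat_lit 0, nat_lit 3936, nat_lit 3072, nat_lit 4512, nat_lit 4032, nat_lit 3792, R1_94, R4_84, R4_79⟩]⟩]⟩,
 ⟨nat_lit 4, [⟨nat_lit 4, [⟨nat_lit 2, nat_lit 2592, nat_lit 11040, nat_lit 13056, nat_lit 17616, nat_lit 8928, R4_272, R7_367, R4_186⟩]⟩]⟩,
 ⟨nat_lit 6, [⟨nat_lit 4, [⟨nat_lit 0, nat_lit 2736, nat_lit 2256, nat_lit 3072, nat_lit 3552, nat_lit 8928, R3_64, R7_74, R6_186⟩, ⟨nat_lit 2, nat_lit 2784, nat_lit 11136, nat_lit 3168, nat_lit 11808, nat_lit 9552, R3_66, R14_246, R4_199⟩]⟩, ⟨nat_lit 6, [⟨nat_lit 0, nat_lit 3456, nat_lit 2976, nat_lit 5232, nat_lit 3984, nat_lit 1680, R10_109, R7_83, R4_35⟩]⟩]⟩], [], [], [⟨nat_lit 2, [⟨nat_lit 6, [⟨nat_lit 0, nat_lit 4224, nat_lit 816, nat_lit 4656, nat_lit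 10368, nat_lit 14256, R1_97, R4_216, R3_297⟩, ⟨nat_lit 3, nat_lit 4272, nat_lit 7776, nat_lit 4704, nat_lit 7104, nat_lit 19056, R1_98, R5_148, R10_397⟩]⟩]⟩,
 ⟨nat_lit 4, [⟨nat_lit 4, [⟨nat_lit 2, nat_lit 2640, nat_lit 12864, nat_lit 13152, nat_lit 17712, nat_lit 15168, R4_274, R7_369, R3_316⟩]⟩, ⟨nat_lit 7, [⟨nat_lit 2, nat_lit 5088, nat_lit 13008, nat_lit 16272, nat_lit 17904, nat_lit 14688, R5_339, R7_373, R10_306⟩]⟩]⟩,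
 ⟨nat_lit 6, [⟨nat_lit 4, [⟨nat_lit 0, nat_lit 3024, nat_lit 2640, nat_lit 8880, nat_lit 9696, nat_lit 19248, R3_185, R7_202, R13_401⟩, ⟨nat_lit 2, nat_lit 3072, nat_lit 13872, nat_lit 9168, nat_lit 12288, nat_lit 15504, R3_191, R14_256, R3_323⟩]⟩, ⟨nat_lit 6, [⟨nat_lit 0, nat_lit 3648, nat_lit 3216, nat_lit 5376, nat_lit 10992, nat_lit 12576, R10_112, R7_229, R3_262⟩]⟩, ⟨nat_lit 7, [⟨nat_lit 0, nat_lit 5232, nat_lit 2832, nat_lit 3600, nat_lit 10560, nat_lit 1872, R0_75, R7_220, R3_39⟩, ⟨nat_lit 2, nat_lit 5280, nat_lit 14064, nat_lit 3648, nat_lit 12336, nat_lit 16320, R0_76, R14_257, R10_340⟩]⟩]⟩]], [], [[], [], [], [], [⟨nat_lit 2, [⟨nat_lit 6, [⟨nat_lit 0, nat_lit 3984, nat_lit 9744, nat_lit 4560, nat_lit 14304, nat_lit 10128, R1_95, R3_298, R4_211⟩, ⟨nat_lit 1, nat_lit 4032, nat_lit 10032, nat_lit 4608,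 nat_lit 19488, nat_lit 5568, R1_96, R10_406, R5_116⟩]⟩]⟩,
 ⟨nat_lit 6, [⟨nat_lit 4, [⟨nat_lit 0, nat_lit 2832, nat_lit 2112, nat_lit 3120, nat_lit 1872, nat_lit 8976, R3_65, R2_39, R6_187⟩, ⟨nat_lit 1, nat_lit 2928, nat_lit 2448, nat_lit 3360, nat_lit 1344, nat_lit 5712, R3_70, R1_28, R8_119⟩, ⟨nat_lit 2, nat_lit 2880, nat_lit 2832, nat_lit 3216, nat_lit 10416, nat_lit 9600, R3_67, R12_217, R4_200⟩]⟩, ⟨nat_lit 6, [⟨nat_lit 0, nat_lit 3504, nat_lit 9792, nat_lit 5280, nat_lit 2352, nat_lit 8400, R10_110, R2_49, R4_175⟩, ⟨nat_lit 1, nat_lit 3552, nat_lit 10080, nat_lit 5328, nat_lit 1824, nat_lit 5712, R10_111, R1_38, R5_119⟩]⟩]⟩], [], [⟨nat_lit 2, [⟨nat_lit 6, [⟨nat_lit 1, nat_lit 4080, nat_lit 8448, nat_lit 5040, nat_lit 19536, nat_lit 21312, R1_105, R10_407, R11_444⟩]⟩]⟩,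
 ⟨nat_lit 6, [⟨nat_lit 4, [⟨nat_lit 1, nat_lit 2976, nat_lit 8400, nat_lit 10560, nat_lit 6768, nat_lit 16464, R3_220, R1_141, R5_343⟩]⟩, ⟨nat_lit 6, [⟨nat_lit 1, nat_lit 3600, nat_lit 8496, nat_lit 5616, nat_lit 7248, nat_lit 21408, R10_117, R1_151, R11_446⟩]⟩]⟩], [⟨nat_lit 2, [⟨nat_lit 6, [⟨nat_lit 0, nat_lit 4320, nat_lit 6720, nat_lit 4800, nat_lit 15120, nat_lit 15072, R1_100, R3_315, R3_314⟩, ⟨nat_lit 1, nat_lit 4368, nat_lit 6768, nat_lit 4896, nat_lit 19584, nat_lit 14016, R1_102, R10_408, R0_292⟩, ⟨nat_lit 3, nat_lit 4416, nat_lit 6816, nat_lit 4848, nat_lit 14352, nat_lit 19152, R1_101, R0_299, R10_399⟩]⟩]⟩,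
 ⟨nat_lit 6, [⟨nat_lit 4, [⟨nat_lit 0, nat_lit 3120, nat_lit 6432, nat_lit 9024, nat_lit 8736, nat_lit 19344, R3_188, R2_182, R13_403⟩, ⟨nat_lit 1, nat_lit 3216, nat_lit 6480, nat_lit 9456, nat_lit 9552, nat_lit 15600, R3_197, R1_199, R9_325⟩, ⟨nat_lit 2, nat_lit 3168, nat_lit 6528, nat_lit 9264, nat_lit 11232, nat_lit 15600, R3_193, R12_234, R3_325⟩]⟩, ⟨nat_lit 6, [⟨nat_lit 0, nat_lit 3696, nat_lit 6864, nat_lit 5520, nat_lit 9984, nat_lit 12960, R10_115, R2_208, R3_270⟩, ⟨nat_lit 1, nat_lit 3744, nat_lit 6912, nat_lit 5568, nat_lit 10800, nat_lit 14064, R10_116, R1_225, R0_293⟩]⟩, ⟨nat_lit 7, [⟨nat_lit 0, nat_lit 5328, nat_lit 6576, nat_lit 3792, nat_lit 9648, nat_lit 8448, R0_79, R2_201, R3_176⟩, ⟨nat_lit 1, nat_lit 5424, nat_lit 6624, nat_lit 3888, nat_lit 10464, nat_lit 8832, R0_81, R1_218, R0_184⟩, ⟨nat_lit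 2, nat_lit 5376, nat_lit 6672, nat_lit 3840, nat_lit 11280, nat_lit 17232, R0_80, R12_235, R10_359⟩]⟩]⟩]], [[], [], [], [⟨nat_lit 0, [⟨nat_lit 2, [⟨nat_lit 7, nat_lit 6624, nat_lit 5184, nat_lit 16560, nat_lit 15312, nat_lit 13536, R5_345, R2_319, R1_282⟩]⟩]⟩,
 ⟨nat_lit 2, [⟨nat_lit 2, [⟨nat_lit 7, nat_lit 7152, nat_lit 5760, nat_lit 5520, nat_lit 16320, nat_lit 15408, R11_115, R1_340, R1_321⟩]⟩, ⟨nat_lit 6, [⟨nat_lit 3, nat_lit 4944, nat_lit 7824, nat_lit 4176, nat_lit 21792, nat_lit 15600, R1_87, R11_454, R1_325⟩, ⟨nat_lit 7, nat_lit 4992, nat_lit 7776, nat_lit 4128, nat_lit 15888, nat_lit 21360, R1_86, R1_331, R11_445⟩]⟩]⟩,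
 ⟨nat_lit 3, [⟨nat_lit 0, [⟨nat_lit 6, nat_lit 6000, nat_lit 3408, nat_lit 15840, nat_lit 13680, nat_lit 14112, R3_330, R1_285, R2_294⟩]⟩, ⟨nat_lit 2, [⟨nat_lit 4, nat_lit 7536, nat_lit 5568, nat_lit 3456, nat_lit 13680, nat_lit 13536, R0_72, R2_285, R2_282⟩, ⟨nat_lit 6, nat_lit 7584, nat_lit 5664, nat_lit 3552, nat_lit 15024, nat_lit 14880, R0_74, R1_313, R12_310⟩, ⟨nat_lit 7, nat_lit 7632, nat_lit 5616, nat_lit 3504, nat_lit 15456, nat_lit 14880, R0_73, R12_322, R1_310⟩]⟩, ⟨nat_lit 3, [⟨nat_lit 6, nat_lit 7872, nat_lit 3888, nat_lit 5184, nat_lit 15504, nat_lit 15648, R10_108, R1_323, R1_326⟩]⟩]⟩,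
 ⟨nat_lit 4, [⟨nat_lit 7, [⟨nat_lit 2, nat_lit 5184, nat_lit 6624, nat_lit 16560, nat_lit 15312, nat_lit 13536, R5_345, R2_319, R1_282⟩]⟩]⟩,
 ⟨nat_lit 6, [⟨nat_lit 4, [⟨nat_lit 3, nat_lit 3408, nat_lit 6000, nat_lit 15840, nat_lit 13680, nat_lit 14112, R3_330, R1_285, R2_294⟩]⟩, ⟨nat_lit 6, [⟨nat_lit 3, nat_lit 3888, nat_lit 7872, nat_lit 5184, nat_lit 15504, nat_lit 15648, R10_108, R1_323, R1_326⟩]⟩, ⟨nat_lit 7, [⟨nat_lit 0, nat_lit 5568, nat_lit 7536, nat_lit 3456, nat_lit 13680, nat_lit 13536, R0_72, R2_285, R2_282⟩, ⟨nat_lit 2, nat_lit 5616, nat_lit 7632, nat_lit 3504, nat_lit 15456, nat_lit 14880, R0_73, R12_322, R1_310⟩, ⟨nat_lit 3, nat_lit 5664, nat_lit 7584, nat_lit 3552, nat_lit 15024, nat_lit 14880, R0_74, R1_313, R12_310⟩]⟩]⟩,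
 ⟨nat_lit 7, [⟨nat_lit 3, [⟨nat_lit 2, nat_lit 7776, nat_lit 4992, nat_lit 4128, nat_lit 15888, nat_lit 21360, R1_86, R1_331, R11_445⟩, ⟨nat_lit 6, nat_lit 7824, nat_lit 4944, nat_lit 4176, nat_lit 21792, nat_lit 15600, R1_87, R11_454, R1_325⟩]⟩, ⟨nat_lit 7, [⟨nat_lit 2, nat_lit 5760, nat_lit 7152, nat_lit 5520, nat_lit 16320, nat_lit 15408, R11_115, R1_340, R1_321⟩]⟩]⟩], [], [], [], [⟨nat_lit 2, [⟨nat_lit 6, [⟨nat_lit 3, nat_lit 4464, nat_lit 9360, nat_lit 4752, nat_lit 21744, nat_lit 19104, R1_99, R11_453, R10_398⟩]⟩]⟩,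
 ⟨nat_lit 4, [⟨nat_lit 4, [⟨nat_lit 2, nat_lit 2688, nat_lit 8976, nat_lit 13200, nat_lit 14832, nat_lit 15216, R4_275, R2_309, R3_317⟩]⟩, ⟨nat_lit 7, [⟨nat_lit 2, nat_lit 5136, nat_lit 9168, nat_lit 16608, nat_lit 15456, nat_lit 15168, R5_346, R2_322, R10_316⟩]⟩]⟩,
 ⟨nat_lit 6, [⟨nat_lit 4, [⟨nat_lit 0, nat_lit 3264, nat_lit 9024, nat_lit 8976, nat_lit 3888, nat_lit 19296, R3_187, R2_81, R13_402⟩, ⟨nat_lit 2, nat_lit 3312, nat_lit 9120, nat_lit 9216, nat_lit 16992, nat_lit 15552, R3_192, R12_354, R3_324⟩, ⟨nat_lit 3, nat_lit 3360, nat_lit 9072, nat_lit 9120, nat_lit 3360, nat_lit 9120, R3_190, R1_70, R3_190⟩]⟩, ⟨nat_lit 6, [⟨nat_lit 0, nat_lit 3792, nat_lit 9408, nat_lit 5424, nat_lit 5136, nat_lit 13344, R10_113, R2_107, R3_278⟩, ⟨nat_lit 3, nat_lit 3840, nat_lit 9456, nat_lit 5472, nat_lit 3840, nat_lit 19200,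 R10_114, R1_80, R10_400⟩]⟩, ⟨nat_lit 7, [⟨nat_lit 0, nat_lit 5472, nat_lit 9264, nat_lit 3696, nat_lit 4704, nat_lit 6816, R0_77, R2_98, R3_142⟩, ⟨nat_lit 2, nat_lit 5520, nat_lit 9312, nat_lit 3744, nat_lit 17184, nat_lit 17904, R0_78, R12_358, R10_373⟩]⟩]⟩,
 ⟨nat_lit 7, [⟨nat_lit 7, [⟨nat_lit 2, nat_lit 5712, nat_lit 9216, nat_lit 5568, nat_lit 16464, nat_lit 18672, R11_116, R1_343, R10_389⟩]⟩]⟩]]], [[], [], [], [[⟨nat_lit 3, [⟨nat_lit 0, [⟨nat_lit 6, nat_lit 11184, nat_lit 10416, nat_lit 15408, nat_lit 14784, nat_lit 15024, R3_321, R10_308, R7_313⟩]⟩, ⟨nat_lit 2, [⟨nat_lit 4, nat_lit 11664, nat_lit 3456, nat_lit 2496, nat_lit 1632, nat_lit 10272, R0_52, R3_34, R7_214⟩, ⟨nat_lit 6, nat_lit 11712, nat_lit 10944, nat_lit 2544, nat_lit 16416, nat_lit 5760, R0_53, R10_342, R14_120⟩]⟩]⟩], [⟨nat_lit 3, [⟨nat_lit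 0, [⟨nat_lit 6, nat_lit 11280, nat_lit 12288, nat_lit 15744, nat_lit 15552, nat_lit 14208, R3_328, R10_324, R2_296⟩]⟩, ⟨nat_lit 1, [⟨nat_lit 6, nat_lit 11520, nat_lit 12576, nat_lit 19392, nat_lit 18960, nat_lit 15744, R10_404, R10_395, R1_328⟩]⟩, ⟨nat_lit 2, [⟨nat_lit 6, nat_lit 11808, nat_lit 13008, nat_lit 3072, nat_lit 18384, nat_lit 3744, R0_64, R10_383, R12_78⟩]⟩]⟩], [⟨nat_lit 3, [⟨nat_lit 2, [⟨nat_lit 4, nat_lit 11856, nat_lit 4800, nat_lit 4368, nat_lit 8160, nat_lit 9456, R0_91, R3_170, R2_197⟩, ⟨nat_lit 5, nat_lit 11952, nat_lit 4944, nat_lit 4704, nat_lit 6384, nat_lit 10272, R0_98, R0_133, R1_214⟩, ⟨nat_lit 6, nat_lit 11904, nat_lit 5184, nat_lit 4416, nat_lit 17328, nat_lit 8928, R0_92, R10_361, R12_186⟩]⟩]⟩]], [], [], [], [[⟨nat_lit 3, [⟨nat_lit 0, [⟨nat_lit 6, nat_lit 11136, nat_lit 10608, nat_lit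 15360, nat_lit 13152, nat_lit 15072, R3_320, R1_274, R7_314⟩]⟩, ⟨nat_lit 2, [⟨nat_lit 4, nat_lit 11568, nat_lit 11616, nat_lit 12432, nat_lit 12720, nat_lit 15408, R0_259, R2_265, R7_321⟩, ⟨nat_lit 6, nat_lit 11616, nat_lit 11760, nat_lit 12528, nat_lit 14064, nat_lit 5904, R0_261, R1_293, R14_123⟩]⟩]⟩,
 ⟨nat_lit 7, [⟨nat_lit 0, [⟨nat_lit 2, nat_lit 10896, nat_lit 10848, nat_lit 14016, nat_lit 13728, nat_lit 13872, R2_292, R1_286, R4_289⟩, ⟨nat_lit 6, nat_lit 10944, nat_lit 10656, nat_lit 14064, nat_lit 18912, nat_lit 15120, R2_293, R11_394, R7_315⟩]⟩, ⟨nat_lit 3, [⟨nat_lit 2, nat_lit 12144, nat_lit 11184, nat_lit 3840, nat_lit 15072, nat_lit 15600, R12_80, R1_314, R5_325⟩]⟩]⟩], [⟨nat_lit 3, [⟨nat_lit 0, [⟨nat_lit 6, nat_lit 11232, nat_lit 10992, nat_lit 15696, nat_lit 13776, nat_lit 14256, R3_327, R1_287, R2_297⟩]⟩,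 ⟨nat_lit 1, [⟨nat_lit 6, nat_lit 11472, nat_lit 11376, nat_lit 19440, nat_lit 15552, nat_lit 15792, R10_405, R1_324, R1_329⟩]⟩, ⟨nat_lit 2, [⟨nat_lit 6, nat_lit 11760, nat_lit 12192, nat_lit 13920, nat_lit 15168, nat_lit 3888, R0_290, R1_316, R12_81⟩]⟩]⟩,
 ⟨nat_lit 7, [⟨nat_lit 0, [⟨nat_lit 2, nat_lit 10992, nat_lit 11232, nat_lit 14256, nat_lit 13776, nat_lit 15696, R2_297, R1_287, R3_327⟩, ⟨nat_lit 6, nat_lit 11040, nat_lit 11040, nat_lit 14304, nat_lit 21024, nat_lit 14304, R2_298, R11_438, R2_298⟩]⟩, ⟨nat_lit 1, [⟨nat_lit 2, nat_lit 11376, nat_lit 11472, nat_lit 15792, nat_lit 15552, nat_lit 19440, R1_329, R1_324, R10_405⟩, ⟨nat_lit 6, nat_lit 11424, nat_lit 11424, nat_lit 15840, nat_lit 21264, nat_lit 15840, R1_330, R11_443, R1_330⟩]⟩, ⟨nat_lit 3, [⟨nat_lit 2, nat_lit 12192, nat_lit 11760, nat_lit 3888,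 nat_lit 15168, nat_lit 13920, R12_81, R1_316, R0_290⟩]⟩]⟩], [], [⟨nat_lit 3, [⟨nat_lit 0, [⟨nat_lit 6, nat_lit 11328, nat_lit 6336, nat_lit 15648, nat_lit 13632, nat_lit 13872, R3_326, R1_284, R2_289⟩]⟩, ⟨nat_lit 2, [⟨nat_lit 4, nat_lit 12000, nat_lit 6528, nat_lit 13392, nat_lit 13632, nat_lit 13392, R0_279, R2_284, R2_279⟩, ⟨nat_lit 6, nat_lit 12048, nat_lit 6624, nat_lit 13680, nat_lit 14976, nat_lit 14208, R0_285, R1_312, R12_296⟩, ⟨nat_lit 7, nat_lit 12096, nat_lit 6576, nat_lit 13584, nat_lit 15408, nat_lit 14736, R0_283, R12_321, R1_307⟩]⟩]⟩,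
 ⟨nat_lit 7, [⟨nat_lit 0, [⟨nat_lit 6, nat_lit 11088, nat_lit 6384, nat_lit 14352, nat_lit 20448, nat_lit 12768, R2_299, R11_426, R2_266⟩]⟩, ⟨nat_lit 3, [⟨nat_lit 2, nat_lit 12240, nat_lit 6432, nat_lit 3984, nat_lit 15120, nat_lit 19920, R12_83, R1_315, R11_415⟩, ⟨nat_lit 6, nat_lit 12288, nat_lit 6480, nat_lit 3936, nat_lit 20640, nat_lit 14112, R12_82, R11_430, R1_294⟩]⟩]⟩]]], [[], [], [], [], [[], [⟨nat_lit 4, [⟨nat_lit 1, [⟨nat_lit 2, nat_lit 12720, nat_lit 1296, nat_lit 624, nat_lit 4656, nat_lit 720, R4_13, R7_97, R10_15⟩, ⟨nat_lit 6, nat_lit 12768, nat_lit 1344, nat_lit 576, nat_lit 4464, nat_lit 432, R4_12, R4_93, R1_9⟩]⟩]⟩], [], [], [], [⟨nat_lit 4, [⟨nat_lit 1, [⟨nat_lit 2, nat_lit 12576, nat_lit 1008, nat_lit 1440, nat_lit 4608, nat_lit 15216, R4_30, R7_96, R1_317⟩]⟩, ⟨nat_lit 5, [⟨nat_lit 2, nat_lit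 12336, nat_lit 1968, nat_lit 1248, nat_lit 4560, nat_lit 17424, R7_26, R7_95, R11_363⟩]⟩]⟩]], [[], [⟨nat_lit 4, [⟨nat_lit 1, [⟨nat_lit 2, nat_lit 12816, nat_lit 4848, nat_lit 7008, nat_lit 3072, nat_lit 768, R4_146, R2_64, R10_16⟩, ⟨nat_lit 6, nat_lit 12864, nat_lit 4800, nat_lit 6960, nat_lit 17328, nat_lit 480, R4_145, R3_361, R1_10⟩]⟩]⟩,
 ⟨nat_lit 5, [⟨nat_lit 1, [⟨nat_lit 2, nat_lit 12960, nat_lit 5952, nat_lit 5088, nat_lit 2544, nat_lit 912, R3_106, R1_53, R10_19⟩, ⟨nat_lit 6, nat_lit 13008, nat_lit 5904, nat_lit 5136, nat_lit 2688, nat_lit 528, R3_107, R10_56, R1_11⟩]⟩]⟩], [], [], [], [⟨nat_lit 4, [⟨nat_lit 1, [⟨nat_lit 2, nat_lit 12624, nat_lit 48, nat_lit 7344, nat_lit 3024, nat_lit 15360, R4_153, R2_63, R1_320⟩]⟩, ⟨nat_lit 5, [⟨nat_lit 2, nat_lit 12384, nat_lit 528, nat_lit 7248, nat_lit 2976, nat_lit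 17760, R7_151, R2_62, R11_370⟩]⟩]⟩,
 ⟨nat_lit 5, [⟨nat_lit 1, [⟨nat_lit 2, nat_lit 12912, nat_lit 5184, nat_lit 13392, nat_lit 2496, nat_lit 15456, R3_279, R1_52, R1_322⟩]⟩, ⟨nat_lit 5, [⟨nat_lit 2, nat_lit 12480, nat_lit 6240, nat_lit 5472, nat_lit 2448, nat_lit 17856, R2_114, R1_51, R11_372⟩]⟩]⟩]], [], [[], [], [], [], [], [⟨nat_lit 4, [⟨nat_lit 1, [⟨nat_lit 2, nat_lit 12672, nat_lit 2256, nat_lit 8112, nat_lit 864, nat_lit 15264, R4_169, R2_18, R1_318⟩]⟩, ⟨nat_lit 5, [⟨nat_lit 2, nat_lit 12432, nat_lit 576, nat_lit 8112, nat_lit 2928, nat_lit 17568, R7_169, R2_61, R11_366⟩]⟩]⟩,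
 ⟨nat_lit 7, [⟨nat_lit 5, [⟨nat_lit 2, nat_lit 12528, nat_lit 6288, nat_lit 5424, nat_lit 2400, nat_lit 17664, R2_113, R1_50, R11_368⟩]⟩]⟩]]], [[], [[], [⟨nat_lit 1, [⟨nat_lit 1, [⟨nat_lit 6, nat_lit 15840, nat_lit 11424, nat_lit 15840, nat_lit 21264, nat_lit 11424, R1_330, R11_443, R1_238⟩]⟩]⟩,
 ⟨nat_lit 5, [⟨nat_lit 1, [⟨nat_lit 6, nat_lit 15792, nat_lit 11376, nat_lit 18720, nat_lit 15552, nat_lit 11472, R10_390, R1_324, R1_239⟩]⟩]⟩]], [], [], [], [[], [⟨nat_lit 5, [⟨nat_lit 1, [⟨nat_lit 2, nat_lit 15696, nat_lit 5040, nat_lit 4272, nat_lit 7920, nat_lit 12720, R10_89, R1_165, R10_265⟩, ⟨nat_lit 6, nat_lit 15744, nat_lit 5088, nat_lit 4224, nat_lit 8688, nat_lit 11520, R10_88, R10_181, R1_240⟩]⟩]⟩], [], [], [], [⟨nat_lit 5, [⟨nat_lit 1, [⟨nat_lit 2, nat_lit 15648, nat_lit 3888, nat_lit 5184, nat_lit 7872,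 nat_lit 15504, R10_108, R1_164, R1_323⟩]⟩, ⟨nat_lit 5, [⟨nat_lit 2, nat_lit 15600, nat_lit 4944, nat_lit 4176, nat_lit 7824, nat_lit 21792, R1_87, R1_163, R11_454⟩]⟩]⟩]]], [[], [], [], [], [[], [], [], [], [⟨nat_lit 4, [⟨nat_lit 4, [⟨nat_lit 2, nat_lit 13056, nat_lit 11472, nat_lit 14160, nat_lit 12960, nat_lit 13536, R7_295, R7_270, R4_282⟩]⟩, ⟨nat_lit 5, [⟨nat_lit 2, nat_lit 13824, nat_lit 11856, nat_lit 17712, nat_lit 13104, nat_lit 15024, R14_369, R7_273, R5_313⟩]⟩]⟩,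
 ⟨nat_lit 6, [⟨nat_lit 4, [⟨nat_lit 0, nat_lit 13200, nat_lit 2208, nat_lit 12000, nat_lit 3408, nat_lit 14160, R2_250, R7_71, R6_295⟩, ⟨nat_lit 2, nat_lit 13248, nat_lit 11520, nat_lit 13728, nat_lit 14016, nat_lit 13920, R2_286, R14_292, R4_290⟩]⟩, ⟨nat_lit 5, [⟨nat_lit 0, nat_lit 14160, nat_lit 2640, nat_lit 13584, nat_lit 4368, nat_lit 1056, R12_283, R7_91, R8_22⟩, ⟨nat_lit 2, nat_lit 14208, nat_lit 11952, nat_lit 13920, nat_lit 14064, nat_lit 15072, R12_290, R14_293, R5_314⟩]⟩, ⟨nat_lit 6, [⟨nat_lit 0, nat_lit 15216, nat_lit 2784, nat_lit 12576, nat_lit 3888, nat_lit 1440, R1_262, R7_81, R4_30⟩]⟩]⟩], [⟨nat_lit 4, [⟨nat_lit 5, [⟨nat_lit 2, nat_lit 13920, nat_lit 12672, nat_lit 17760, nat_lit 13200, nat_lit 19344, R14_370, R7_275, R11_403⟩]⟩]⟩,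
 ⟨nat_lit 6, [⟨nat_lit 5, [⟨nat_lit 0, nat_lit 14496, nat_lit 14160, nat_lit 13632, nat_lit 12816, nat_lit 15168, R12_284, R7_267, R5_316⟩, ⟨nat_lit 2, nat_lit 14544, nat_lit 14880, nat_lit 13968, nat_lit 14784, nat_lit 19392, R12_291, R14_308, R11_404⟩]⟩]⟩]], [[], [], [], [], [], [⟨nat_lit 4, [⟨nat_lit 5, [⟨nat_lit 2, nat_lit 13968, nat_lit 9936, nat_lit 18192, nat_lit 11856, nat_lit 20496, R14_379, R2_247, R11_427⟩]⟩]⟩,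
 ⟨nat_lit 5, [⟨nat_lit 5, [⟨nat_lit 2, nat_lit 14112, nat_lit 10656, nat_lit 15312, nat_lit 12288, nat_lit 20640, R12_319, R1_256, R11_430⟩]⟩]⟩,
 ⟨nat_lit 6, [⟨nat_lit 5, [⟨nat_lit 2, nat_lit 14592, nat_lit 11952, nat_lit 14112, nat_lit 11856, nat_lit 20544, R12_294, R12_247, R11_428⟩]⟩]⟩]], [[], [], [], [], [⟨nat_lit 6, [⟨nat_lit 4, [⟨nat_lit 0, nat_lit 13296, nat_lit 672, nat_lit 12096, nat_lit 1728, nat_lit 14352, R2_252, R2_36, R6_299⟩, ⟨nat_lit 1, nat_lit 13392, nat_lit 6480, nat_lit 14928, nat_lit 1200, nat_lit 13344, R2_311, R1_25, R8_278⟩, ⟨nat_lit 2, nat_lit 13344, nat_lit 10320, nat_lit 13824, nat_lit 9744, nat_lit 14016, R2_288, R12_203, R4_292⟩]⟩, ⟨nat_lit 5, [⟨nat_lit 0, nat_lit 14256, nat_lit 768, nat_lit 13824, nat_lit 2784, nat_lit 6192, R12_288, R2_58, R8_129⟩, ⟨nat_lit 1, nat_lit 14352, nat_lit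 6912, nat_lit 14736, nat_lit 2256, nat_lit 14880, R12_307, R1_47, R9_310⟩, ⟨nat_lit 2, nat_lit 14304, nat_lit 10416, nat_lit 14496, nat_lit 9792, nat_lit 15888, R12_302, R12_204, R5_331⟩]⟩, ⟨nat_lit 6, [⟨nat_lit 0, nat_lit 15264, nat_lit 864, nat_lit 12672, nat_lit 2256, nat_lit 8112, R1_264, R2_47, R4_169⟩, ⟨nat_lit 1, nat_lit 15312, nat_lit 7056, nat_lit 15936, nat_lit 1728, nat_lit 5904, R1_332, R1_36, R5_123⟩]⟩]⟩], [⟨nat_lit 6, [⟨nat_lit 5, [⟨nat_lit 0, nat_lit 14640, nat_lit 10128, nat_lit 13872, nat_lit 11520, nat_lit 15744, R12_289, R2_240, R5_328⟩, ⟨nat_lit 1, nat_lit 14736, nat_lit 10800, nat_lit 14784, nat_lit 12096, nat_lit 13584, R12_308, R1_252, R0_283⟩, ⟨nat_lit 2, nat_lit 14688, nat_lit 12192, nat_lit 14544, nat_lit 11664, nat_lit 20208, R12_303, R12_243, R11_421⟩]⟩]⟩], [⟨nat_lit 6, [⟨nat_lit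 4, [⟨nat_lit 1, nat_lit 13536, nat_lit 5184, nat_lit 15312, nat_lit 6624, nat_lit 16560, R2_319, R1_138, R5_345⟩]⟩, ⟨nat_lit 6, [⟨nat_lit 1, nat_lit 15408, nat_lit 5760, nat_lit 16320, nat_lit 7152, nat_lit 21504, R1_340, R1_149, R11_448⟩]⟩]⟩]], [[], [], [], [], [⟨nat_lit 4, [⟨nat_lit 4, [⟨nat_lit 2, nat_lit 13104, nat_lit 10752, nat_lit 14208, nat_lit 10512, nat_lit 13680, R7_296, R2_219, R4_285⟩]⟩, ⟨nat_lit 5, [⟨nat_lit 2, nat_lit 13872, nat_lit 11040, nat_lit 18288, nat_lit 11712, nat_lit 15504, R14_381, R2_244, R5_323⟩]⟩]⟩,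
 ⟨nat_lit 6, [⟨nat_lit 4, [⟨nat_lit 0, nat_lit 13440, nat_lit 1008, nat_lit 12048, nat_lit 0, nat_lit 14304, R2_251, R2_0, R6_298⟩, ⟨nat_lit 2, nat_lit 13488, nat_lit 10944, nat_lit 13776, nat_lit 9888, nat_lit 13968, R2_287, R12_206, R4_291⟩]⟩, ⟨nat_lit 5, [⟨nat_lit 0, nat_lit 14400, nat_lit 2736, nat_lit 13680, nat_lit 816, nat_lit 6960, R12_285, R2_17, R8_145⟩, ⟨nat_lit 2, nat_lit 14448, nat_lit 11472, nat_lit 14304, nat_lit 10176, nat_lit 15648, R12_298, R12_212, R5_326⟩]⟩, ⟨nat_lit 6, [⟨nat_lit 0, nat_lit 15360, nat_lit 3024, nat_lit 12624, nat_lit 48, nat_lit 7344, R1_263, R2_1, R4_153⟩]⟩]⟩,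
 ⟨nat_lit 7, [⟨nat_lit 4, [⟨nat_lit 2, nat_lit 13728, nat_lit 10848, nat_lit 14016, nat_lit 10896, nat_lit 13872, R2_292, R1_227, R4_289⟩]⟩, ⟨nat_lit 5, [⟨nat_lit 2, nat_lit 15072, nat_lit 11184, nat_lit 3840, nat_lit 12144, nat_lit 15600, R12_80, R1_253, R5_325⟩]⟩]⟩], [⟨nat_lit 4, [⟨nat_lit 5, [⟨nat_lit 2, nat_lit 14016, nat_lit 1920, nat_lit 18384, nat_lit 11808, nat_lit 19824, R14_383, R2_246, R11_413⟩]⟩]⟩,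
 ⟨nat_lit 6, [⟨nat_lit 5, [⟨nat_lit 0, nat_lit 14784, nat_lit 9696, nat_lit 13776, nat_lit 10464, nat_lit 15936, R12_287, R2_218, R5_332⟩, ⟨nat_lit 2, nat_lit 14832, nat_lit 11568, nat_lit 14400, nat_lit 12288, nat_lit 19968, R12_300, R12_256, R11_416⟩]⟩]⟩,
 ⟨nat_lit 7, [⟨nat_lit 5, [⟨nat_lit 2, nat_lit 15120, nat_lit 6432, nat_lit 3984, nat_lit 12240, nat_lit 19920, R12_83, R1_255, R11_415⟩]⟩]⟩], [], [⟨nat_lit 4, [⟨nat_lit 4, [⟨nat_lit 2, nat_lit 13152, nat_lit 11136, nat_lit 14448, nat_lit 10608, nat_lit 15360, R7_301, R2_221, R3_320⟩]⟩]⟩,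
 ⟨nat_lit 6, [⟨nat_lit 4, [⟨nat_lit 0, nat_lit 13584, nat_lit 336, nat_lit 12336, nat_lit 3936, nat_lit 19488, R2_257, R2_82, R13_406⟩, ⟨nat_lit 2, nat_lit 13632, nat_lit 11328, nat_lit 13872, nat_lit 10608, nat_lit 15648, R2_289, R12_221, R3_326⟩, ⟨nat_lit 3, nat_lit 13680, nat_lit 6000, nat_lit 14112, nat_lit 3408, nat_lit 15840, R2_294, R1_71, R3_330⟩]⟩, ⟨nat_lit 5, [⟨nat_lit 0, nat_lit 14928, nat_lit 2208, nat_lit 13728, nat_lit 6960, nat_lit 14976, R12_286, R2_145, R9_312⟩]⟩, ⟨nat_lit 6, [⟨nat_lit 0, nat_lit 15456, nat_lit 2496, nat_lit 12912, nat_lit 5184, nat_lit 13392, R1_269, R2_108, R3_279⟩, ⟨nat_lit 3, nat_lit 15504, nat_lit 7872, nat_lit 15648, nat_lit 3888, nat_lit 19296, R1_326, R1_81, R10_402⟩]⟩]⟩,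
 ⟨nat_lit 7, [⟨nat_lit 4, [⟨nat_lit 2, nat_lit 13776, nat_lit 11232, nat_lit 14256, nat_lit 10992, nat_lit 15696, R2_297, R1_229, R3_327⟩]⟩, ⟨nat_lit 7, [⟨nat_lit 2, nat_lit 15552, nat_lit 11472, nat_lit 15792, nat_lit 11376, nat_lit 18720, R1_329, R1_237, R10_390⟩]⟩]⟩]]], [[], [], [], [], [[], [⟨nat_lit 4, [⟨nat_lit 1, [⟨nat_lit 2, nat_lit 15984, nat_lit 2976, nat_lit 240, nat_lit 11376, nat_lit 9936, R5_5, R7_237, R10_207⟩, ⟨nat_lit 6, nat_lit 16032, nat_lit 576, nat_lit 2160, nat_lit 10752, nat_lit 8688, R5_45, R4_224, R1_181⟩]⟩]⟩,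
 ⟨nat_lit 7, [⟨nat_lit 1, [⟨nat_lit 6, nat_lit 16368, nat_lit 7536, nat_lit 21600, nat_lit 7344, nat_lit 8784, R11_450, R5_153, R1_183⟩]⟩]⟩]], [[], [⟨nat_lit 4, [⟨nat_lit 1, [⟨nat_lit 2, nat_lit 16080, nat_lit 10176, nat_lit 7872, nat_lit 10272, nat_lit 10080, R5_164, R2_214, R10_210⟩, ⟨nat_lit 6, nat_lit 16128, nat_lit 10032, nat_lit 10992, nat_lit 17616, nat_lit 8736, R5_229, R3_367, R1_182⟩]⟩]⟩,
 ⟨nat_lit 5, [⟨nat_lit 1, [⟨nat_lit 2, nat_lit 16224, nat_lit 10224, nat_lit 14256, nat_lit 10848, nat_lit 10368, R0_297, R1_226, R10_216⟩, ⟨nat_lit 6, nat_lit 16272, nat_lit 10080, nat_lit 14304, nat_lit 12144, nat_lit 8928, R0_298, R10_253, R1_186⟩]⟩]⟩,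
 ⟨nat_lit 7, [⟨nat_lit 1, [⟨nat_lit 6, nat_lit 16416, nat_lit 10128, nat_lit 21648, nat_lit 13968, nat_lit 8880, R11_451, R0_291, R1_185⟩]⟩]⟩]], [], [[], [⟨nat_lit 4, [⟨nat_lit 1, [⟨nat_lit 2, nat_lit 16176, nat_lit 16464, nat_lit 5952, nat_lit 7008, nat_lit 10032, R5_124, R2_146, R10_209⟩]⟩]⟩,
 ⟨nat_lit 7, [⟨nat_lit 1, [⟨nat_lit 2, nat_lit 16464, nat_lit 16512, nat_lit 21552, nat_lit 5712, nat_lit 10176, R11_449, R1_119, R10_212⟩, ⟨nat_lit 6, nat_lit 16512, nat_lit 16416, nat_lit 21696, nat_lit 6960, nat_lit 8832, R11_452, R11_145, R1_184⟩]⟩]⟩], [], [], [], [⟨nat_lit 4, [⟨nat_lit 1, [⟨nat_lit 2, nat_lit 15936, nat_lit 1728, nat_lit 5904, nat_lit 7056, nat_lit 15312, R5_123, R2_147, R1_319⟩]⟩]⟩,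
 ⟨nat_lit 7, [⟨nat_lit 1, [⟨nat_lit 2, nat_lit 16320, nat_lit 7152, nat_lit 21504, nat_lit 5760, nat_lit 15408, R11_448, R1_120, R1_321⟩]⟩, ⟨nat_lit 5, [⟨nat_lit 2, nat_lit 15888, nat_lit 4992, nat_lit 4128, nat_lit 7776, nat_lit 21360, R1_86, R1_162, R11_445⟩]⟩]⟩]]]]
noncomputable def N2332 : T3 (List N0) := [[[[⟨nat_lit 0, [⟨nat_lit 2, [⟨nat_lit 2, nat_lit 11616, nat_lit 3168, nat_lit 1056, nat_lit 720, nat_lit 8688, R4_22, R4_15, R5_181⟩]⟩]⟩,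
 ⟨nat_lit 3, [⟨nat_lit 2, [⟨nat_lit 2, nat_lit 14448, nat_lit 7344, nat_lit 48, nat_lit 1632, nat_lit 8736, R5_1, R5_34, R5_182⟩]⟩]⟩], [⟨nat_lit 0, [⟨nat_lit 2, [⟨nat_lit 2, nat_lit 11664, nat_lit 2880, nat_lit 1200, nat_lit 864, nat_lit 432, R4_25, R4_18, R0_9⟩]⟩]⟩,
 ⟨nat_lit 3, [⟨nat_lit 2, [⟨nat_lit 2, nat_lit 14496, nat_lit 8064, nat_lit 192, nat_lit 4032, nat_lit 8016, R5_4, R5_84, R0_167⟩]⟩]⟩], [⟨nat_lit 0, [⟨nat_lit 2, [⟨nat_lit 2, nat_lit 11712, nat_lit 4416, nat_lit 1248, nat_lit 768, nat_lit 11136, R4_26, R4_16, R11_232⟩, ⟨nat_lit 6, nat_lit 11520, nat_lit 4224, nat_lit 1776, nat_lit 864, nat_lit 10512, R4_37, R7_18, R1_219⟩]⟩, ⟨nat_lit 6, [⟨nat_lit 6, nat_lit 11280, nat_lit 4080, nat_lit 1920, nat_lit 1440, nat_lit 10992, R7_40, R7_30, R10_229⟩]⟩]⟩,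
 ⟨nat_lit 2, [⟨nat_lit 4, [⟨nat_lit 4, nat_lit 12144, nat_lit 11328, nat_lit 17424, nat_lit 5616, nat_lit 12480, R7_363, R7_117, R4_260⟩]⟩, ⟨nat_lit 6, [⟨nat_lit 4, nat_lit 12720, nat_lit 11472, nat_lit 9072, nat_lit 6288, nat_lit 1728, R14_189, R7_131, R3_36⟩, ⟨nat_lit 6, nat_lit 12864, nat_lit 12048, nat_lit 9120, nat_lit 19152, nat_lit 11040, R14_190, R14_399, R10_230⟩]⟩]⟩,
 ⟨nat_lit 3, [⟨nat_lit 2, [⟨nat_lit 2, nat_lit 14544, nat_lit 9312, nat_lit 384, nat_lit 2448, nat_lit 11184, R5_8, R5_51, R11_233⟩]⟩]⟩,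
 ⟨nat_lit 6, [⟨nat_lit 4, [⟨nat_lit 4, nat_lit 2160, nat_lit 18192, nat_lit 15024, nat_lit 6096, nat_lit 5904, R4_313, R4_127, R4_123⟩, ⟨nat_lit 7, nat_lit 2256, nat_lit 19056, nat_lit 15312, nat_lit 9360, nat_lit 8832, R4_319, R5_195, R5_184⟩]⟩, ⟨nat_lit 7, [⟨nat_lit 7, nat_lit 3936, nat_lit 19200, nat_lit 17040, nat_lit 9744, nat_lit 13920, R5_355, R5_203, R11_290⟩]⟩]⟩]], [], [[], [], [⟨nat_lit 2, [⟨nat_lit 4, [⟨nat_lit 4, nat_lit 12192, nat_lit 13056, nat_lit 17520, nat_lit 4032, nat_lit 12960, R7_365, R2_84, R4_270⟩]⟩, ⟨nat_lit 6, [⟨nat_lit 4, nat_lit 12768, nat_lit 14160, nat_lit 11424, nat_lit 4464, nat_lit 6672, R14_238, R2_93, R3_139⟩, ⟨nat_lit 6, nat_lit 12912, nat_lit 14208, nat_lit 11472, nat_lit 15792, nat_lit 11232, R14_239, R12_329, R10_234⟩]⟩]⟩,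
 ⟨nat_lit 6, [⟨nat_lit 4, [⟨nat_lit 4, nat_lit 2208, nat_lit 13392, nat_lit 15072, nat_lit 912, nat_lit 6480, R4_314, R3_19, R4_135⟩, ⟨nat_lit 7, nat_lit 2304, nat_lit 13440, nat_lit 15408, nat_lit 6192, nat_lit 9120, R4_321, R0_129, R5_190⟩]⟩, ⟨nat_lit 7, [⟨nat_lit 7, nat_lit 3984, nat_lit 13584, nat_lit 17760, nat_lit 6288, nat_lit 14016, R5_370, R0_131, R11_292⟩]⟩]⟩]], [[⟨nat_lit 3, [⟨nat_lit 2, [⟨nat_lit 2, nat_lit 14592, nat_lit 13296, nat_lit 5088, nat_lit 1200, nat_lit 10464, R5_106, R11_25, R5_218⟩]⟩]⟩,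
 ⟨nat_lit 6, [⟨nat_lit 7, [⟨nat_lit 3, nat_lit 4176, nat_lit 14016, nat_lit 14640, nat_lit 6480, nat_lit 8592, R5_305, R1_135, R2_179⟩]⟩]⟩], [⟨nat_lit 3, [⟨nat_lit 2, [⟨nat_lit 2, nat_lit 14640, nat_lit 10176, nat_lit 5856, nat_lit 4032, nat_lit 8064, R5_122, R11_84, R0_168⟩]⟩]⟩], [⟨nat_lit 0, [⟨nat_lit 2, [⟨nat_lit 6, nat_lit 11568, nat_lit 10272, nat_lit 8496, nat_lit 2208, nat_lit 10608, R4_177, R2_46, R1_221⟩]⟩, ⟨nat_lit 6, [⟨nat_lit 6, nat_lit 11328, nat_lit 12144, nat_lit 8544, nat_lit 432, nat_lit 11376, R7_178, R2_9, R10_237⟩]⟩]⟩,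
 ⟨nat_lit 2, [⟨nat_lit 4, [⟨nat_lit 4, nat_lit 12240, nat_lit 11280, nat_lit 17472, nat_lit 7776, nat_lit 12672, R7_364, R2_162, R4_264⟩, ⟨nat_lit 7, nat_lit 12288, nat_lit 11328, nat_lit 17808, nat_lit 8304, nat_lit 16368, R7_371, R1_173, R5_341⟩]⟩, ⟨nat_lit 6, [⟨nat_lit 4, nat_lit 12816, nat_lit 12816, nat_lit 10848, nat_lit 9024, nat_lit 8256, R14_226, R2_188, R3_172⟩, ⟨nat_lit 6, nat_lit 12960, nat_lit 12912, nat_lit 10944, nat_lit 1392, nat_lit 11424, R14_228, R12_29, R10_238⟩, ⟨nat_lit 7, nat_lit 13008, nat_lit 12864, nat_lit 10896, nat_lit 9840, nat_lit 8880, R14_227, R1_205, R0_185⟩]⟩]⟩,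
 ⟨nat_lit 3, [⟨nat_lit 2, [⟨nat_lit 2, nat_lit 14688, nat_lit 10608, nat_lit 6864, nat_lit 2448, nat_lit 13728, R5_143, R11_51, R11_286⟩, ⟨nat_lit 6, nat_lit 14400, nat_lit 10560, nat_lit 6768, nat_lit 1680, nat_lit 10656, R5_141, R1_35, R1_222⟩]⟩]⟩,
 ⟨nat_lit 6, [⟨nat_lit 4, [⟨nat_lit 7, nat_lit 2352, nat_lit 11472, nat_lit 15360, nat_lit 8736, nat_lit 8976, R4_320, R11_182, R5_187⟩]⟩, ⟨nat_lit 7, [⟨nat_lit 3, nat_lit 4224, nat_lit 11664, nat_lit 17280, nat_lit 6576, nat_lit 9408, R5_360, R1_137, R1_196⟩, ⟨nat_lit 7, nat_lit 4032, nat_lit 11616, nat_lit 17424, nat_lit 8832, nat_lit 14112, R5_363, R11_184, R11_294⟩]⟩]⟩], [⟨nat_lit 6, [⟨nat_lit 7, [⟨nat_lit 3, nat_lit 4272, nat_lit 17280, nat_lit 16176, nat_lit 6528, nat_lit 9024, R5_337, R1_136, R12_188⟩]⟩]⟩]], [], [], [], [[], [], [], [⟨nat_lit 6, [⟨nat_lit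 7, [⟨nat_lit 0, nat_lit 4080, nat_lit 11280, nat_lit 15408, nat_lit 8064, nat_lit 9360, R5_321, R3_168, R2_195⟩, ⟨nat_lit 1, nat_lit 4128, nat_lit 11376, nat_lit 15792, nat_lit 6000, nat_lit 10176, R5_329, R0_125, R1_212⟩, ⟨nat_lit 3, nat_lit 4320, nat_lit 11328, nat_lit 15696, nat_lit 7488, nat_lit 8880, R5_327, R10_156, R12_185⟩]⟩]⟩]]], [[[⟨nat_lit 0, [⟨nat_lit 2, [⟨nat_lit 2, nat_lit 11856, nat_lit 18096, nat_lit 4560, nat_lit 7104, nat_lit 10080, R3_95, R4_148, R5_210⟩]⟩]⟩,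
 ⟨nat_lit 3, [⟨nat_lit 2, [⟨nat_lit 2, nat_lit 14736, nat_lit 18960, nat_lit 14736, nat_lit 10128, nat_lit 10128, R0_307, R5_211, R5_211⟩]⟩]⟩], [⟨nat_lit 0, [⟨nat_lit 2, [⟨nat_lit 2, nat_lit 11904, nat_lit 4272, nat_lit 4608, nat_lit 7248, nat_lit 480, R3_96, R4_151, R0_10⟩]⟩]⟩,
 ⟨nat_lit 3, [⟨nat_lit 2, [⟨nat_lit 2, nat_lit 14784, nat_lit 12624, nat_lit 14880, nat_lit 12480, nat_lit 8160, R0_310, R5_260, R0_170⟩]⟩]⟩], [⟨nat_lit 0, [⟨nat_lit 2, [⟨nat_lit 2, nat_lit 11952, nat_lit 3648, nat_lit 4704, nat_lit 7152, nat_lit 12528, R3_98, R4_149, R11_261⟩, ⟨nat_lit 6, nat_lit 11760, nat_lit 3408, nat_lit 12672, nat_lit 6864, nat_lit 10560, R3_264, R7_143, R1_220⟩]⟩, ⟨nat_lit 6, [⟨nat_lit 6, nat_lit 11376, nat_lit 3264, nat_lit 480, nat_lit 7440, nat_lit 11136, R2_10, R7_155, R10_232⟩]⟩]⟩,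
 ⟨nat_lit 2, [⟨nat_lit 6, [⟨nat_lit 4, nat_lit 13056, nat_lit 12240, nat_lit 7680, nat_lit 6384, nat_lit 1968, R12_160, R7_133, R3_41⟩, ⟨nat_lit 6, nat_lit 13152, nat_lit 13008, nat_lit 7728, nat_lit 20832, nat_lit 11184, R12_161, R14_434, R10_233⟩]⟩]⟩,
 ⟨nat_lit 3, [⟨nat_lit 2, [⟨nat_lit 2, nat_lit 14832, nat_lit 10128, nat_lit 15024, nat_lit 11280, nat_lit 12576, R0_313, R5_235, R11_262⟩]⟩]⟩]], [[⟨nat_lit 0, [⟨nat_lit 2, [⟨nat_lit 2, nat_lit 12000, nat_lit 12576, nat_lit 5232, nat_lit 5664, nat_lit 12432, R3_109, R3_118, R5_259⟩]⟩]⟩,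
 ⟨nat_lit 1, [⟨nat_lit 2, [⟨nat_lit 2, nat_lit 14112, nat_lit 12672, nat_lit 4800, nat_lit 4368, nat_lit 12528, R10_100, R10_91, R5_261⟩]⟩]⟩,
 ⟨nat_lit 3, [⟨nat_lit 2, [⟨nat_lit 2, nat_lit 14880, nat_lit 12624, nat_lit 14784, nat_lit 8160, nat_lit 12480, R0_308, R0_170, R5_260⟩]⟩]⟩], [⟨nat_lit 0, [⟨nat_lit 2, [⟨nat_lit 2, nat_lit 12048, nat_lit 15552, nat_lit 5280, nat_lit 5856, nat_lit 528, R3_110, R3_122, R0_11⟩]⟩]⟩,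
 ⟨nat_lit 1, [⟨nat_lit 2, [⟨nat_lit 2, nat_lit 14160, nat_lit 15648, nat_lit 4944, nat_lit 4512, nat_lit 10272, R10_103, R10_94, R0_214⟩]⟩]⟩,
 ⟨nat_lit 3, [⟨nat_lit 2, [⟨nat_lit 2, nat_lit 14928, nat_lit 15600, nat_lit 14928, nat_lit 8256, nat_lit 8256, R0_311, R0_172, R0_172⟩]⟩]⟩], [⟨nat_lit 0, [⟨nat_lit 2, [⟨nat_lit 2, nat_lit 12096, nat_lit 2112, nat_lit 5376, nat_lit 5808, nat_lit 15408, R3_112, R3_121, R11_321⟩, ⟨nat_lit 6, nat_lit 11808, nat_lit 1872, nat_lit 13488, nat_lit 5040, nat_lit 10752, R3_281, R2_105, R1_224⟩]⟩, ⟨nat_lit 6, [⟨nat_lit 6, nat_lit 11424, nat_lit 1728, nat_lit 6192, nat_lit 5664, nat_lit 11664, R2_129, R2_118, R10_243⟩]⟩]⟩,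
 ⟨nat_lit 1, [⟨nat_lit 2, [⟨nat_lit 2, nat_lit 14208, nat_lit 7152, nat_lit 4992, nat_lit 4416, nat_lit 15504, R10_104, R10_92, R11_323⟩, ⟨nat_lit 6, nat_lit 14064, nat_lit 6912, nat_lit 5568, nat_lit 3744, nat_lit 10800, R10_116, R1_78, R1_225⟩]⟩, ⟨nat_lit 6, [⟨nat_lit 6, nat_lit 14016, nat_lit 6768, nat_lit 4896, nat_lit 4368, nat_lit 11760, R1_102, R1_91, R10_245⟩]⟩]⟩,
 ⟨nat_lit 2, [⟨nat_lit 6, [⟨nat_lit 6, nat_lit 13200, nat_lit 11184, nat_lit 8016, nat_lit 16608, nat_lit 11712, R12_167, R12_346, R10_244⟩]⟩]⟩,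
 ⟨nat_lit 3, [⟨nat_lit 2, [⟨nat_lit 2, nat_lit 14976, nat_lit 9264, nat_lit 15072, nat_lit 8208, nat_lit 15456, R0_314, R0_171, R11_322⟩]⟩]⟩]], [[], [], [⟨nat_lit 2, [⟨nat_lit 6, [⟨nat_lit 4, nat_lit 13104, nat_lit 1488, nat_lit 9552, nat_lit 4560, nat_lit 6912, R12_199, R2_95, R3_144⟩, ⟨nat_lit 6, nat_lit 13248, nat_lit 10944, nat_lit 9600, nat_lit 16464, nat_lit 11328, R12_200, R12_343, R10_236⟩]⟩]⟩]], [[⟨nat_lit 3, [⟨nat_lit 2, [⟨nat_lit 2, nat_lit 15024, nat_lit 10128, nat_lit 14832, nat_lit 12576, nat_lit 11280, R0_309, R11_262, R5_235⟩]⟩]⟩], [⟨nat_lit 3, [⟨nat_lit 2, [⟨nat_lit 2, nat_lit 15072, nat_lit 9264, nat_lit 14976, nat_lit 15456, nat_lit 8208, R0_312, R11_322, R0_171⟩]⟩]⟩]]], [[[], [], [⟨nat_lit 2, [⟨nat_lit 4, [⟨nat_lit 4, nat_lit 12336, nat_lit 2736, nat_lit 15552, nat_lit 5664, nat_lit 12528,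 R2_324, R7_118, R4_261⟩]⟩, ⟨nat_lit 6, [⟨nat_lit 4, nat_lit 13296, nat_lit 2880, nat_lit 4512, nat_lit 6480, nat_lit 1824, R12_94, R7_135, R3_38⟩, ⟨nat_lit 6, nat_lit 13488, nat_lit 14112, nat_lit 4560, nat_lit 22128, nat_lit 11088, R12_95, R14_461, R10_231⟩]⟩]⟩,
 ⟨nat_lit 6, [⟨nat_lit 4, [⟨nat_lit 4, nat_lit 2400, nat_lit 3696, nat_lit 3552, nat_lit 6192, nat_lit 5952, R3_74, R4_129, R4_124⟩, ⟨nat_lit 7, nat_lit 2688, nat_lit 11904, nat_lit 9504, nat_lit 11568, nat_lit 10512, R3_198, R5_241, R5_219⟩]⟩, ⟨nat_lit 7, [⟨nat_lit 7, nat_lit 4608, nat_lit 12048, nat_lit 4848, nat_lit 12000, nat_lit 13968, R0_101, R5_250, R11_291⟩]⟩]⟩]], [], [[], [], [⟨nat_lit 2, [⟨nat_lit 4, [⟨nat_lit 4, nat_lit 12384, nat_lit 15984, nat_lit 15648, nat_lit 4080, nat_lit 13008, R2_326, R2_85, R4_271⟩]⟩, ⟨nat_lit 6, [⟨nat_lit 4, nat_lit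 13344, nat_lit 17232, nat_lit 5808, nat_lit 4656, nat_lit 6768, R12_121, R2_97, R3_141⟩, ⟨nat_lit 6, nat_lit 13536, nat_lit 17280, nat_lit 5856, nat_lit 17088, nat_lit 11280, R12_122, R12_356, R10_235⟩]⟩]⟩,
 ⟨nat_lit 6, [⟨nat_lit 4, [⟨nat_lit 4, nat_lit 2448, nat_lit 16320, nat_lit 3600, nat_lit 960, nat_lit 6528, R3_75, R3_20, R4_136⟩, ⟨nat_lit 7, nat_lit 2736, nat_lit 16368, nat_lit 9600, nat_lit 6240, nat_lit 10608, R3_200, R0_130, R5_221⟩]⟩, ⟨nat_lit 7, [⟨nat_lit 7, nat_lit 4656, nat_lit 16800, nat_lit 4992, nat_lit 6336, nat_lit 14064, R0_104, R0_132, R11_293⟩]⟩]⟩], [], [], [], [⟨nat_lit 2, [⟨nat_lit 4, [⟨nat_lit 4, nat_lit 12432, nat_lit 11568, nat_lit 11616, nat_lit 12720, nat_lit 14112, R2_242, R2_265, R7_294⟩, ⟨nat_lit 5, nat_lit 12528, nat_lit 11616, nat_lit 11760, nat_lit 14064, nat_lit 18096, R2_245,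 R1_293, R14_377⟩]⟩, ⟨nat_lit 5, [⟨nat_lit 5, nat_lit 13920, nat_lit 11760, nat_lit 12192, nat_lit 15168, nat_lit 15216, R1_254, R1_316, R12_317⟩]⟩, ⟨nat_lit 6, [⟨nat_lit 4, nat_lit 13392, nat_lit 12000, nat_lit 6528, nat_lit 13632, nat_lit 13392, R12_136, R2_284, R2_279⟩, ⟨nat_lit 5, nat_lit 13680, nat_lit 12048, nat_lit 6624, nat_lit 14976, nat_lit 14208, R12_138, R1_312, R12_296⟩, ⟨nat_lit 6, nat_lit 13584, nat_lit 12096, nat_lit 6576, nat_lit 15408, nat_lit 14736, R12_137, R12_321, R1_307⟩]⟩]⟩,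
 ⟨nat_lit 6, [⟨nat_lit 4, [⟨nat_lit 4, nat_lit 2496, nat_lit 11664, nat_lit 3456, nat_lit 1632, nat_lit 6144, R3_72, R3_34, R7_128⟩, ⟨nat_lit 5, nat_lit 2544, nat_lit 11712, nat_lit 10944, nat_lit 8256, nat_lit 17904, R3_228, R10_172, R14_373⟩]⟩, ⟨nat_lit 5, [⟨nat_lit 5, nat_lit 3072, nat_lit 11808, nat_lit 6528, nat_lit 8352, nat_lit 15024, R10_136, R10_174, R12_313⟩]⟩, ⟨nat_lit 7, [⟨nat_lit 4, nat_lit 4368, nat_lit 11856, nat_lit 4800, nat_lit 8160, nat_lit 9456, R0_100, R3_170, R2_197⟩, ⟨nat_lit 5, nat_lit 4416, nat_lit 11904, nat_lit 5184, nat_lit 8304, nat_lit 8928, R0_108, R10_173, R12_186⟩, ⟨nat_lit 7, nat_lit 4704, nat_lit 11952, nat_lit 4944, nat_lit 6384, nat_lit 10272, R0_103, R0_133, R1_214⟩]⟩]⟩]], [[⟨nat_lit 6, [⟨nat_lit 7, [⟨nat_lit 3, nat_lit 5040, nat_lit 8496, nat_lit 4464, nat_lit 7392, nat_lit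 9504, R0_93, R1_154, R2_198⟩]⟩]⟩], [], [⟨nat_lit 2, [⟨nat_lit 4, [⟨nat_lit 4, nat_lit 12480, nat_lit 9792, nat_lit 15600, nat_lit 7968, nat_lit 12864, R2_325, R2_166, R4_268⟩, ⟨nat_lit 7, nat_lit 12576, nat_lit 9840, nat_lit 15696, nat_lit 8496, nat_lit 16800, R2_327, R1_177, R5_350⟩]⟩, ⟨nat_lit 6, [⟨nat_lit 4, nat_lit 13440, nat_lit 10992, nat_lit 5232, nat_lit 9600, nat_lit 8400, R12_109, R2_200, R3_175⟩, ⟨nat_lit 6, nat_lit 13632, nat_lit 11088, nat_lit 5328, nat_lit 11136, nat_lit 11472, R12_111, R12_232, R10_239⟩, ⟨nat_lit 7, nat_lit 13728, nat_lit 11040, nat_lit 5280, nat_lit 10416, nat_lit 8928, R12_110, R1_217, R0_186⟩]⟩]⟩,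
 ⟨nat_lit 6, [⟨nat_lit 4, [⟨nat_lit 7, nat_lit 2784, nat_lit 9984, nat_lit 9552, nat_lit 8784, nat_lit 10560, R3_199, R11_183, R5_220⟩]⟩, ⟨nat_lit 7, [⟨nat_lit 3, nat_lit 5088, nat_lit 10464, nat_lit 4560, nat_lit 7488, nat_lit 10320, R0_95, R1_156, R1_215⟩, ⟨nat_lit 7, nat_lit 4752, nat_lit 10416, nat_lit 4896, nat_lit 8928, nat_lit 14160, R0_102, R11_186, R11_295⟩]⟩]⟩], [⟨nat_lit 6, [⟨nat_lit 7, [⟨nat_lit 3, nat_lit 5136, nat_lit 12864, nat_lit 4512, nat_lit 7440, nat_lit 9072, R0_94, R1_155, R12_189⟩]⟩]⟩]], [[], [], [], [], [⟨nat_lit 6, [⟨nat_lit 4, [⟨nat_lit 1, nat_lit 2832, nat_lit 6240, nat_lit 17424, nat_lit 3648, nat_lit 6000, R3_363, R5_76, R4_125⟩]⟩, ⟨nat_lit 5, [⟨nat_lit 1, nat_lit 3216, nat_lit 6720, nat_lit 6192, nat_lit 3792, nat_lit 1104, R10_129, R5_79, R3_23⟩]⟩]⟩], [], [], [⟨nat_lit 6, [⟨nat_lit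 4, [⟨nat_lit 1, nat_lit 2880, nat_lit 11616, nat_lit 17712, nat_lit 11856, nat_lit 10704, R3_369, R5_247, R5_223⟩]⟩, ⟨nat_lit 5, [⟨nat_lit 1, nat_lit 3264, nat_lit 12384, nat_lit 6240, nat_lit 12144, nat_lit 8688, R10_130, R5_253, R0_181⟩]⟩, ⟨nat_lit 7, [⟨nat_lit 1, nat_lit 4848, nat_lit 12048, nat_lit 4608, nat_lit 12000, nat_lit 13776, R0_96, R5_250, R11_287⟩]⟩]⟩]], [], [[], [], [], [], [⟨nat_lit 6, [⟨nat_lit 4, [⟨nat_lit 1, nat_lit 2928, nat_lit 1152, nat_lit 17520, nat_lit 8304, nat_lit 6576, R3_365, R11_173, R4_137⟩, ⟨nat_lit 5, nat_lit 2592, nat_lit 2016, nat_lit 10656, nat_lit 7296, nat_lit 6192, R3_222, R1_152, R7_129⟩]⟩, ⟨nat_lit 5, [⟨nat_lit 1, nat_lit 3312, nat_lit 6336, nat_lit 6336, nat_lit 10128, nat_lit 6288, R10_132, R11_211, R3_131⟩, ⟨nat_lit 5, nat_lit 3120, nat_lit 6960, nat_lit 6432, nat_lit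 7680, nat_lit 4368, R10_134, R1_160, R2_91⟩]⟩, ⟨nat_lit 7, [⟨nat_lit 5, nat_lit 4464, nat_lit 8496, nat_lit 5040, nat_lit 7392, nat_lit 9504, R0_105, R1_154, R2_198⟩]⟩]⟩], [], [⟨nat_lit 6, [⟨nat_lit 4, [⟨nat_lit 5, nat_lit 2640, nat_lit 12768, nat_lit 10848, nat_lit 7344, nat_lit 17952, R3_226, R1_153, R14_374⟩]⟩, ⟨nat_lit 5, [⟨nat_lit 5, nat_lit 3168, nat_lit 12816, nat_lit 6480, nat_lit 7728, nat_lit 15072, R10_135, R1_161, R12_314⟩]⟩, ⟨nat_lit 7, [⟨nat_lit 5, nat_lit 4512, nat_lit 12864, nat_lit 5136, nat_lit 7440, nat_lit 9072, R0_107, R1_155, R12_189⟩]⟩]⟩], [⟨nat_lit 6, [⟨nat_lit 4, [⟨nat_lit 1, nat_lit 2976, nat_lit 10320, nat_lit 17904, nat_lit 8352, nat_lit 10896, R3_373, R11_174, R5_227⟩]⟩, ⟨nat_lit 5, [⟨nat_lit 1, nat_lit 3360, nat_lit 10368, nat_lit 6384, nat_lit 10176, nat_lit 8736, R10_133, R11_212,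 R0_182⟩]⟩, ⟨nat_lit 7, [⟨nat_lit 1, nat_lit 4896, nat_lit 10416, nat_lit 4752, nat_lit 8928, nat_lit 13824, R0_99, R11_186, R11_288⟩, ⟨nat_lit 5, nat_lit 4560, nat_lit 10464, nat_lit 5088, nat_lit 7488, nat_lit 10320, R0_106, R1_156, R1_215⟩]⟩]⟩]], [[], [], [], [⟨nat_lit 6, [⟨nat_lit 7, [⟨nat_lit 0, nat_lit 4800, nat_lit 11856, nat_lit 4368, nat_lit 8160, nat_lit 9456, R0_91, R3_170, R2_197⟩, ⟨nat_lit 1, nat_lit 4944, nat_lit 11952, nat_lit 4704, nat_lit 6384, nat_lit 10272, R0_98, R0_133, R1_214⟩, ⟨nat_lit 3, nat_lit 5184, nat_lit 11904, nat_lit 4416, nat_lit 8304, nat_lit 8928, R0_92, R10_173, R12_186⟩]⟩]⟩], [], [], [], [⟨nat_lit 6, [⟨nat_lit 4, [⟨nat_lit 1, nat_lit 3024, nat_lit 16704, nat_lit 17808, nat_lit 5808, nat_lit 10800, R3_371, R0_121, R5_225⟩]⟩, ⟨nat_lit 5, [⟨nat_lit 1, nat_lit 3408, nat_lit 16752,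 nat_lit 6288, nat_lit 7104, nat_lit 8784, R10_131, R0_148, R0_183⟩]⟩, ⟨nat_lit 7, [⟨nat_lit 1, nat_lit 4992, nat_lit 16800, nat_lit 4656, nat_lit 6336, nat_lit 13872, R0_97, R0_132, R11_289⟩]⟩]⟩]]], [[], [], [], [[⟨nat_lit 3, [⟨nat_lit 2, [⟨nat_lit 2, nat_lit 15168, nat_lit 17952, nat_lit 5088, nat_lit 8256, nat_lit 10944, R11_106, R11_172, R5_228⟩]⟩]⟩,
 ⟨nat_lit 4, [⟨nat_lit 3, [⟨nat_lit 3, nat_lit 1680, nat_lit 14544, nat_lit 5616, nat_lit 6096, nat_lit 14448, R2_117, R2_127, R3_301⟩]⟩]⟩,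
 ⟨nat_lit 6, [⟨nat_lit 3, [⟨nat_lit 3, nat_lit 6720, nat_lit 15120, nat_lit 4320, nat_lit 4800, nat_lit 15072, R1_90, R1_100, R3_314⟩]⟩, ⟨nat_lit 7, [⟨nat_lit 3, nat_lit 5376, nat_lit 13056, nat_lit 6336, nat_lit 7056, nat_lit 9888, R11_132, R1_147, R2_206⟩]⟩]⟩,
 ⟨nat_lit 7, [⟨nat_lit 0, [⟨nat_lit 0, nat_lit 9312, nat_lit 11328, nat_lit 14544, nat_lit 7584, nat_lit 13296, R2_303, R2_158, R6_277⟩, ⟨nat_lit 2, nat_lit 9552, nat_lit 16320, nat_lit 15120, nat_lit 8112, nat_lit 14928, R2_315, R1_169, R8_311⟩]⟩, ⟨nat_lit 2, [⟨nat_lit 2, nat_lit 10032, nat_lit 17616, nat_lit 16128, nat_lit 8736, nat_lit 10992, R1_336, R1_182, R5_229⟩]⟩, ⟨nat_lit 3, [⟨nat_lit 0, nat_lit 10512, nat_lit 12288, nat_lit 4752, nat_lit 8400, nat_lit 12192, R12_99, R2_175, R13_254⟩, ⟨nat_lit 2, nat_lit 10800, nat_lit 17136, nat_lit 4992, nat_lit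 9216, nat_lit 9456, R12_104, R1_192, R9_197⟩, ⟨nat_lit 3, nat_lit 11136, nat_lit 15024, nat_lit 5088, nat_lit 6192, nat_lit 14880, R12_106, R12_129, R3_310⟩]⟩]⟩], [⟨nat_lit 3, [⟨nat_lit 2, [⟨nat_lit 2, nat_lit 15216, nat_lit 12096, nat_lit 5472, nat_lit 10032, nat_lit 8112, R11_114, R11_209, R0_169⟩]⟩]⟩,
 ⟨nat_lit 4, [⟨nat_lit 3, [⟨nat_lit 3, nat_lit 1728, nat_lit 11664, nat_lit 5664, nat_lit 6192, nat_lit 11424, R2_118, R2_129, R0_238⟩]⟩]⟩,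
 ⟨nat_lit 6, [⟨nat_lit 3, [⟨nat_lit 3, nat_lit 6768, nat_lit 11760, nat_lit 4368, nat_lit 4896, nat_lit 14016, R1_91, R1_102, R0_292⟩]⟩]⟩,
 ⟨nat_lit 7, [⟨nat_lit 0, [⟨nat_lit 0, nat_lit 9360, nat_lit 9216, nat_lit 14688, nat_lit 8064, nat_lit 14784, R2_306, R2_168, R8_308⟩, ⟨nat_lit 2, nat_lit 9600, nat_lit 9840, nat_lit 15264, nat_lit 8592, nat_lit 15888, R2_318, R1_179, R9_331⟩]⟩, ⟨nat_lit 2, [⟨nat_lit 2, nat_lit 10080, nat_lit 12144, nat_lit 16272, nat_lit 8928, nat_lit 14304, R1_339, R1_186, R0_298⟩]⟩, ⟨nat_lit 3, [⟨nat_lit 0, nat_lit 10560, nat_lit 10800, nat_lit 4800, nat_lit 10128, nat_lit 7824, R12_100, R2_211, R9_163⟩, ⟨nat_lit 3, nat_lit 11184, nat_lit 11712, nat_lit 5136, nat_lit 6288, nat_lit 13200, R12_107, R12_131, R0_275⟩]⟩]⟩], [⟨nat_lit 0, [⟨nat_lit 6, [⟨nat_lit 6, nat_lit 11472, nat_lit 1776,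 nat_lit 5712, nat_lit 6144, nat_lit 11520, R2_119, R2_128, R10_240⟩]⟩]⟩,
 ⟨nat_lit 2, [⟨nat_lit 4, [⟨nat_lit 4, nat_lit 12624, nat_lit 9408, nat_lit 14784, nat_lit 7920, nat_lit 12816, R2_308, R2_165, R4_267⟩, ⟨nat_lit 7, nat_lit 12672, nat_lit 9648, nat_lit 15408, nat_lit 8448, nat_lit 16704, R2_321, R1_176, R5_348⟩]⟩, ⟨nat_lit 6, [⟨nat_lit 4, nat_lit 13776, nat_lit 10608, nat_lit 4848, nat_lit 9168, nat_lit 8304, R12_101, R2_191, R3_173⟩, ⟨nat_lit 6, nat_lit 13824, nat_lit 11232, nat_lit 5184, nat_lit 6240, nat_lit 11568, R12_108, R12_130, R10_241⟩, ⟨nat_lit 7, nat_lit 13872, nat_lit 10848, nat_lit 5040, nat_lit 9984, nat_lit 8976, R12_105, R1_208, R0_187⟩]⟩, ⟨nat_lit 7, [⟨nat_lit 7, nat_lit 13968, nat_lit 10128, nat_lit 16416, nat_lit 8880, nat_lit 14256, R1_342, R1_185, R11_297⟩]⟩]⟩,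
 ⟨nat_lit 3, [⟨nat_lit 2, [⟨nat_lit 2, nat_lit 15264, nat_lit 5232, nat_lit 6480, nat_lit 8880, nat_lit 14208, R11_135, R11_185, R11_296⟩, ⟨nat_lit 6, nat_lit 15120, nat_lit 5424, nat_lit 6384, nat_lit 7104, nat_lit 10704, R11_133, R1_148, R1_223⟩]⟩, ⟨nat_lit 6, [⟨nat_lit 6, nat_lit 14352, nat_lit 6816, nat_lit 4416, nat_lit 4848, nat_lit 11616, R1_92, R1_101, R10_242⟩]⟩]⟩,
 ⟨nat_lit 4, [⟨nat_lit 3, [⟨nat_lit 3, nat_lit 1776, nat_lit 11472, nat_lit 5712, nat_lit 6144, nat_lit 11520, R2_119, R2_128, R10_240⟩]⟩]⟩,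
 ⟨nat_lit 6, [⟨nat_lit 3, [⟨nat_lit 3, nat_lit 6816, nat_lit 14352, nat_lit 4416, nat_lit 4848, nat_lit 11616, R1_92, R1_101, R10_242⟩]⟩, ⟨nat_lit 7, [⟨nat_lit 3, nat_lit 5424, nat_lit 15120, nat_lit 6384, nat_lit 7104, nat_lit 10704, R11_133, R1_148, R1_223⟩, ⟨nat_lit 7, nat_lit 5232, nat_lit 15264, nat_lit 6480, nat_lit 8880, nat_lit 14208, R11_135, R11_185, R11_296⟩]⟩]⟩,
 ⟨nat_lit 7, [⟨nat_lit 0, [⟨nat_lit 0, nat_lit 9408, nat_lit 12624, nat_lit 14784, nat_lit 7920, nat_lit 12816, R2_308, R2_165, R4_267⟩, ⟨nat_lit 2, nat_lit 9648, nat_lit 12672, nat_lit 15408, nat_lit 8448, nat_lit 16704, R2_321, R1_176, R5_348⟩]⟩, ⟨nat_lit 2, [⟨nat_lit 2, nat_lit 10128, nat_lit 13968, nat_lit 16416, nat_lit 8880, nat_lit 14256, R1_342, R1_185, R11_297⟩]⟩, ⟨nat_lit 3, [⟨nat_lit 0, nat_lit 10608, nat_lit 13776, nat_lit 4848,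 nat_lit 9168, nat_lit 8304, R12_101, R2_191, R3_173⟩, ⟨nat_lit 2, nat_lit 10848, nat_lit 13872, nat_lit 5040, nat_lit 9984, nat_lit 8976, R12_105, R1_208, R0_187⟩, ⟨nat_lit 3, nat_lit 11232, nat_lit 13824, nat_lit 5184, nat_lit 6240, nat_lit 11568, R12_108, R12_130, R10_241⟩]⟩]⟩]], [], [], [], [[⟨nat_lit 4, [⟨nat_lit 3, [⟨nat_lit 0, nat_lit 1296, nat_lit 8640, nat_lit 3648, nat_lit 8208, nat_lit 10224, R2_76, R13_171, R13_213⟩, ⟨nat_lit 1, nat_lit 1536, nat_lit 9552, nat_lit 6624, nat_lit 5952, nat_lit 8352, R2_138, R9_124, R3_174⟩, ⟨nat_lit 2, nat_lit 1440, nat_lit 10176, nat_lit 4512, nat_lit 6864, nat_lit 7872, R2_94, R3_143, R9_164⟩, ⟨nat_lit 3, nat_lit 1824, nat_lit 9936, nat_lit 4992, nat_lit 13296, nat_lit 12864, R2_104, R3_277, R3_268⟩]⟩]⟩,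
 ⟨nat_lit 6, [⟨nat_lit 3, [⟨nat_lit 0, nat_lit 6432, nat_lit 8736, nat_lit 3120, nat_lit 9024, nat_lit 10320, R1_65, R3_188, R13_215⟩, ⟨nat_lit 1, nat_lit 6576, nat_lit 9648, nat_lit 5328, nat_lit 3792, nat_lit 8448, R1_111, R0_79, R3_176⟩, ⟨nat_lit 3, nat_lit 6864, nat_lit 9984, nat_lit 3696, nat_lit 5520, nat_lit 12960, R1_77, R10_115, R3_270⟩]⟩, ⟨nat_lit 7, [⟨nat_lit 3, nat_lit 5472, nat_lit 7392, nat_lit 6240, nat_lit 8016, nat_lit 7344, R11_130, R10_167, R2_153⟩]⟩]⟩,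
 ⟨nat_lit 7, [⟨nat_lit 0, [⟨nat_lit 0, nat_lit 9456, nat_lit 7632, nat_lit 14496, nat_lit 11280, nat_lit 12528, R2_302, R3_235, R6_261⟩, ⟨nat_lit 1, nat_lit 9792, nat_lit 7968, nat_lit 15600, nat_lit 12480, nat_lit 12864, R2_325, R0_260, R4_268⟩, ⟨nat_lit 2, nat_lit 9696, nat_lit 8112, nat_lit 15072, nat_lit 9168, nat_lit 14976, R2_314, R10_191, R8_312⟩]⟩, ⟨nat_lit 2, [⟨nat_lit 2, nat_lit 10176, nat_lit 10272, nat_lit 16080, nat_lit 10080, nat_lit 7872, R1_335, R10_210, R5_164⟩]⟩, ⟨nat_lit 3, [⟨nat_lit 0, nat_lit 10656, nat_lit 8688, nat_lit 4608, nat_lit 12240, nat_lit 10272, R12_96, R3_255, R13_214⟩, ⟨nat_lit 1, nat_lit 10992, nat_lit 9600, nat_lit 5232, nat_lit 13440, nat_lit 8400, R12_109, R0_280, R3_175⟩, ⟨nat_lit 2, nat_lit 10896, nat_lit 10224, nat_lit 4896, nat_lit 10656, nat_lit 7920, R12_102, R10_222,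 R9_165⟩]⟩]⟩], [⟨nat_lit 4, [⟨nat_lit 3, [⟨nat_lit 0, nat_lit 1344, nat_lit 9456, nat_lit 3744, nat_lit 8304, nat_lit 9120, R2_78, R13_173, R9_190⟩, ⟨nat_lit 1, nat_lit 1584, nat_lit 10368, nat_lit 6720, nat_lit 6048, nat_lit 8640, R2_140, R9_126, R0_180⟩, ⟨nat_lit 3, nat_lit 1872, nat_lit 10752, nat_lit 5040, nat_lit 13488, nat_lit 11808, R2_105, R3_281, R0_246⟩]⟩]⟩,
 ⟨nat_lit 6, [⟨nat_lit 3, [⟨nat_lit 0, nat_lit 6480, nat_lit 9552, nat_lit 3216, nat_lit 9456, nat_lit 9312, R1_67, R3_197, R9_194⟩, ⟨nat_lit 1, nat_lit 6624, nat_lit 10464, nat_lit 5424, nat_lit 3888, nat_lit 8832, R1_113, R0_81, R0_184⟩, ⟨nat_lit 3, nat_lit 6912, nat_lit 10800, nat_lit 3744, nat_lit 5568, nat_lit 14064, R1_78, R10_116, R0_293⟩]⟩]⟩,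
 ⟨nat_lit 7, [⟨nat_lit 0, [⟨nat_lit 0, nat_lit 9504, nat_lit 8160, nat_lit 14640, nat_lit 16272, nat_lit 14736, R2_305, R3_339, R8_307⟩, ⟨nat_lit 1, nat_lit 9840, nat_lit 8496, nat_lit 15696, nat_lit 12576, nat_lit 16800, R2_327, R0_262, R5_350⟩, ⟨nat_lit 2, nat_lit 9744, nat_lit 8640, nat_lit 15216, nat_lit 9792, nat_lit 15936, R2_317, R10_204, R9_332⟩]⟩, ⟨nat_lit 2, [⟨nat_lit 2, nat_lit 10224, nat_lit 10848, nat_lit 16224, nat_lit 10368, nat_lit 14256, R1_338, R10_216, R0_297⟩]⟩, ⟨nat_lit 3, [⟨nat_lit 0, nat_lit 10704, nat_lit 9504, nat_lit 4656, nat_lit 17088, nat_lit 9408, R12_97, R3_356, R9_196⟩, ⟨nat_lit 1, nat_lit 11040, nat_lit 10416, nat_lit 5280, nat_lit 13728, nat_lit 8928, R12_110, R0_286, R0_186⟩]⟩]⟩], [], [⟨nat_lit 4, [⟨nat_lit 3, [⟨nat_lit 0, nat_lit 1392, nat_lit 10944, nat_lit 3696, nat_lit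 8256, nat_lit 12144, R2_77, R13_172, R3_253⟩, ⟨nat_lit 1, nat_lit 1632, nat_lit 10992, nat_lit 6672, nat_lit 6000, nat_lit 10752, R2_139, R9_125, R10_224⟩, ⟨nat_lit 2, nat_lit 1488, nat_lit 11040, nat_lit 4560, nat_lit 6912, nat_lit 13104, R2_95, R3_144, R0_273⟩]⟩]⟩,
 ⟨nat_lit 6, [⟨nat_lit 3, [⟨nat_lit 0, nat_lit 6528, nat_lit 11232, nat_lit 3168, nat_lit 9264, nat_lit 15600, R1_66, R3_193, R3_325⟩, ⟨nat_lit 1, nat_lit 6672, nat_lit 11280, nat_lit 5376, nat_lit 3840, nat_lit 10944, R1_112, R0_80, R10_228⟩]⟩, ⟨nat_lit 7, [⟨nat_lit 0, nat_lit 5280, nat_lit 11328, nat_lit 6192, nat_lit 8112, nat_lit 9408, R11_129, R3_169, R2_196⟩, ⟨nat_lit 1, nat_lit 5328, nat_lit 11376, nat_lit 6432, nat_lit 6144, nat_lit 10224, R11_134, R0_128, R1_213⟩, ⟨nat_lit 3, nat_lit 5520, nat_lit 11424, nat_lit 6288, nat_lit 8064, nat_lit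 8976, R11_131, R10_168, R12_187⟩]⟩]⟩,
 ⟨nat_lit 7, [⟨nat_lit 3, [⟨nat_lit 0, nat_lit 10752, nat_lit 11088, nat_lit 4704, nat_lit 14976, nat_lit 14832, R12_98, R3_312, R3_309⟩, ⟨nat_lit 1, nat_lit 11088, nat_lit 11136, nat_lit 5328, nat_lit 13632, nat_lit 11472, R12_111, R0_284, R10_239⟩, ⟨nat_lit 2, nat_lit 10944, nat_lit 11184, nat_lit 4944, nat_lit 11328, nat_lit 13248, R12_103, R10_236, R0_276⟩]⟩]⟩]]], [[], [], [], [], [[], [⟨nat_lit 4, [⟨nat_lit 0, [⟨nat_lit 0, nat_lit 0, nat_lit 1968, nat_lit 720, nat_lit 384, nat_lit 12624, R6_15, R6_8, R8_263⟩, ⟨nat_lit 1, nat_lit 96, nat_lit 2016, nat_lit 2880, nat_lit 4320, nat_lit 1824, R6_60, R8_90, R5_38⟩, ⟨nat_lit 2, nat_lit 48, nat_lit 2160, nat_lit 1296, nat_lit 288, nat_lit 2160, R6_27, R4_6, R9_45⟩]⟩, ⟨nat_lit 1, [⟨nat_lit 0, nat_lit 576, nat_lit 2448, nat_lit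 816, nat_lit 2688, nat_lit 8592, R8_17, R6_56, R5_179⟩, ⟨nat_lit 1, nat_lit 672, nat_lit 2496, nat_lit 960, nat_lit 4368, nat_lit 11040, R8_20, R8_91, R11_230⟩, ⟨nat_lit 2, nat_lit 624, nat_lit 2592, nat_lit 912, nat_lit 2592, nat_lit 624, R8_19, R4_54, R0_13⟩]⟩, ⟨nat_lit 2, [⟨nat_lit 2, nat_lit 432, nat_lit 2880, nat_lit 1200, nat_lit 864, nat_lit 11664, R4_25, R4_18, R0_243⟩]⟩]⟩,
 ⟨nat_lit 5, [⟨nat_lit 0, [⟨nat_lit 0, nat_lit 7200, nat_lit 7488, nat_lit 5328, nat_lit 17952, nat_lit 16800, R8_111, R8_374, R8_350⟩, ⟨nat_lit 1, nat_lit 7392, nat_lit 7536, nat_lit 5424, nat_lit 3552, nat_lit 2304, R8_113, R9_74, R5_48⟩, ⟨nat_lit 2, nat_lit 7296, nat_lit 7680, nat_lit 5376, nat_lit 3888, nat_lit 2592, R8_112, R5_81, R9_54⟩]⟩, ⟨nat_lit 1, [⟨nat_lit 0, nat_lit 8304, nat_lit 7776, nat_lit 288, nat_lit 18048, nat_lit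 10032, R9_6, R8_376, R5_209⟩, ⟨nat_lit 1, nat_lit 8496, nat_lit 7824, nat_lit 432, nat_lit 3600, nat_lit 12480, R9_9, R9_75, R11_260⟩, ⟨nat_lit 2, nat_lit 8400, nat_lit 7920, nat_lit 384, nat_lit 4176, nat_lit 1056, R9_8, R5_87, R0_22⟩]⟩, ⟨nat_lit 2, [⟨nat_lit 2, nat_lit 8016, nat_lit 8064, nat_lit 192, nat_lit 4032, nat_lit 14496, R5_4, R5_84, R0_302⟩]⟩]⟩,
 ⟨nat_lit 6, [⟨nat_lit 0, [⟨nat_lit 0, nat_lit 5568, nat_lit 10896, nat_lit 9024, nat_lit 14352, nat_lit 13536, R4_188, R4_299, R8_282⟩, ⟨nat_lit 1, nat_lit 5616, nat_lit 10944, nat_lit 10608, nat_lit 17568, nat_lit 2016, R4_221, R5_366, R5_42⟩]⟩, ⟨nat_lit 1, [⟨nat_lit 0, nat_lit 5856, nat_lit 11280, nat_lit 5328, nat_lit 15264, nat_lit 9072, R5_111, R4_318, R5_189⟩, ⟨nat_lit 1, nat_lit 5904, nat_lit 11328, nat_lit 5376, nat_lit 17616, nat_lit 11520, R5_112,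 R5_367, R11_240⟩]⟩]⟩], [], [], [], [⟨nat_lit 4, [⟨nat_lit 1, [⟨nat_lit 1, nat_lit 720, nat_lit 2448, nat_lit 1440, nat_lit 3936, nat_lit 9600, R8_30, R8_82, R1_200⟩]⟩]⟩,
 ⟨nat_lit 5, [⟨nat_lit 1, [⟨nat_lit 1, nat_lit 8544, nat_lit 7872, nat_lit 768, nat_lit 3120, nat_lit 9792, R9_16, R9_65, R1_204⟩]⟩]⟩,
 ⟨nat_lit 6, [⟨nat_lit 1, [⟨nat_lit 1, nat_lit 5952, nat_lit 11760, nat_lit 15216, nat_lit 13680, nat_lit 9696, R5_317, R5_285, R1_202⟩]⟩]⟩]], [[], [⟨nat_lit 5, [⟨nat_lit 0, [⟨nat_lit 0, nat_lit 7248, nat_lit 2544, nat_lit 5856, nat_lit 9792, nat_lit 16944, R8_122, R5_204, R8_353⟩, ⟨nat_lit 1, nat_lit 7440, nat_lit 2592, nat_lit 5952, nat_lit 2016, nat_lit 2352, R8_124, R0_42, R5_49⟩, ⟨nat_lit 2, nat_lit 7344, nat_lit 2640, nat_lit 5904, nat_lit 3888, nat_lit 2640, R8_123, R11_81, R9_55⟩]⟩, ⟨nat_lit 1, [⟨nat_lit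 0, nat_lit 8352, nat_lit 7296, nat_lit 5424, nat_lit 12096, nat_lit 12336, R9_113, R5_252, R5_257⟩, ⟨nat_lit 1, nat_lit 8592, nat_lit 7344, nat_lit 5568, nat_lit 2064, nat_lit 15312, R9_116, R0_43, R11_319⟩, ⟨nat_lit 2, nat_lit 8448, nat_lit 7392, nat_lit 5520, nat_lit 4176, nat_lit 1104, R9_115, R11_87, R0_23⟩]⟩, ⟨nat_lit 2, [⟨nat_lit 2, nat_lit 8064, nat_lit 10176, nat_lit 5856, nat_lit 4032, nat_lit 14640, R5_122, R11_84, R0_305⟩]⟩]⟩], [], [], [], [⟨nat_lit 5, [⟨nat_lit 1, [⟨nat_lit 1, nat_lit 8640, nat_lit 6720, nat_lit 6048, nat_lit 1584, nat_lit 10368, R9_126, R0_33, R1_216⟩]⟩]⟩]], [], [[], [], [], [], [], [⟨nat_lit 4, [⟨nat_lit 1, [⟨nat_lit 1, nat_lit 768, nat_lit 2640, nat_lit 7392, nat_lit 6288, nat_lit 10032, R8_154, R9_131, R1_209⟩]⟩]⟩,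
 ⟨nat_lit 6, [⟨nat_lit 1, [⟨nat_lit 1, nat_lit 6000, nat_lit 11376, nat_lit 15792, nat_lit 4128, nat_lit 10176, R5_329, R0_86, R1_212⟩]⟩]⟩]]], [[], [[], [⟨nat_lit 1, [⟨nat_lit 2, [⟨nat_lit 2, nat_lit 14256, nat_lit 10848, nat_lit 16224, nat_lit 18816, nat_lit 10224, R1_338, R10_392, R0_213⟩]⟩]⟩]], [], [], [], [[], [⟨nat_lit 1, [⟨nat_lit 2, [⟨nat_lit 2, nat_lit 14304, nat_lit 19008, nat_lit 16272, nat_lit 8928, nat_lit 10080, R1_339, R1_186, R0_210⟩]⟩]⟩,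
 ⟨nat_lit 5, [⟨nat_lit 0, [⟨nat_lit 0, nat_lit 7488, nat_lit 5760, nat_lit 16992, nat_lit 9888, nat_lit 17472, R5_354, R5_206, R8_364⟩, ⟨nat_lit 1, nat_lit 7584, nat_lit 5808, nat_lit 17712, nat_lit 7056, nat_lit 13536, R5_369, R0_147, R5_282⟩, ⟨nat_lit 2, nat_lit 7536, nat_lit 5952, nat_lit 17376, nat_lit 9888, nat_lit 11568, R5_362, R11_206, R9_241⟩]⟩, ⟨nat_lit 1, [⟨nat_lit 0, nat_lit 8688, nat_lit 6240, nat_lit 3264, nat_lit 12144, nat_lit 12384, R0_68, R5_253, R5_258⟩, ⟨nat_lit 1, nat_lit 8784, nat_lit 6288, nat_lit 3408, nat_lit 7104, nat_lit 15360, R0_71, R0_148, R11_320⟩, ⟨nat_lit 2, nat_lit 8736, nat_lit 6384, nat_lit 3360, nat_lit 10176, nat_lit 10368, R0_70, R11_212, R0_216⟩]⟩, ⟨nat_lit 2, [⟨nat_lit 2, nat_lit 8112, nat_lit 6672, nat_lit 5472, nat_lit 10032, nat_lit 15216, R11_114, R11_209, R0_317⟩]⟩]⟩],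 [], [], [], [⟨nat_lit 5, [⟨nat_lit 1, [⟨nat_lit 1, nat_lit 8832, nat_lit 5424, nat_lit 3888, nat_lit 6624, nat_lit 10464, R0_81, R0_138, R1_218⟩]⟩]⟩]]], [[], [], [], [], [[], [], [], [], [⟨nat_lit 6, [⟨nat_lit 5, [⟨nat_lit 1, nat_lit 3600, nat_lit 6528, nat_lit 5232, nat_lit 2832, nat_lit 1872, R1_109, R5_59, R3_39⟩]⟩]⟩], [⟨nat_lit 4, [⟨nat_lit 1, [⟨nat_lit 1, nat_lit 816, nat_lit 19296, nat_lit 6384, nat_lit 11904, nat_lit 9648, R5_133, R8_248, R1_201⟩]⟩]⟩,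
 ⟨nat_lit 5, [⟨nat_lit 1, [⟨nat_lit 1, nat_lit 8880, nat_lit 20976, nat_lit 13008, nat_lit 12864, nat_lit 9840, R0_271, R9_268, R1_205⟩]⟩]⟩,
 ⟨nat_lit 6, [⟨nat_lit 1, [⟨nat_lit 1, nat_lit 6048, nat_lit 22368, nat_lit 6000, nat_lit 13968, nat_lit 9744, R11_125, R5_291, R1_203⟩]⟩, ⟨nat_lit 5, [⟨nat_lit 1, nat_lit 3648, nat_lit 22320, nat_lit 5280, nat_lit 14064, nat_lit 16320, R1_110, R5_293, R10_340⟩]⟩]⟩]], [[], [], [], [], [], [⟨nat_lit 5, [⟨nat_lit 1, [⟨nat_lit 1, nat_lit 8928, nat_lit 16752, nat_lit 13728, nat_lit 11040, nat_lit 10416, R0_286, R0_230, R1_217⟩]⟩]⟩]], [[], [], [], [], [⟨nat_lit 6, [⟨nat_lit 5, [⟨nat_lit 1, nat_lit 3696, nat_lit 4704, nat_lit 5472, nat_lit 9264, nat_lit 6816, R1_114, R11_193, R3_142⟩, ⟨nat_lit 5, nat_lit 3456, nat_lit 13680, nat_lit 5568, nat_lit 7536, nat_lit 13536, R1_116,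 R1_157, R2_282⟩]⟩]⟩], [⟨nat_lit 4, [⟨nat_lit 1, [⟨nat_lit 1, nat_lit 864, nat_lit 15840, nat_lit 7248, nat_lit 7632, nat_lit 9888, R5_151, R5_159, R1_206⟩]⟩]⟩,
 ⟨nat_lit 5, [⟨nat_lit 1, [⟨nat_lit 1, nat_lit 8976, nat_lit 16512, nat_lit 13872, nat_lit 10848, nat_lit 9984, R0_289, R0_226, R1_208⟩]⟩]⟩,
 ⟨nat_lit 6, [⟨nat_lit 1, [⟨nat_lit 1, nat_lit 6096, nat_lit 17136, nat_lit 6864, nat_lit 7248, nat_lit 9936, R11_143, R11_151, R1_207⟩]⟩, ⟨nat_lit 5, [⟨nat_lit 1, nat_lit 3744, nat_lit 17184, nat_lit 5520, nat_lit 9312, nat_lit 17904, R1_115, R11_194, R10_373⟩, ⟨nat_lit 5, nat_lit 3504, nat_lit 15456, nat_lit 5616, nat_lit 7632, nat_lit 14880, R1_117, R1_159, R1_310⟩]⟩]⟩], [⟨nat_lit 6, [⟨nat_lit 5, [⟨nat_lit 5, nat_lit 3552, nat_lit 15024, nat_lit 5664, nat_lit 7584, nat_lit 14880, R1_118, R1_158, R12_310⟩]⟩]⟩]],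 [[], [], [], [], [⟨nat_lit 6, [⟨nat_lit 5, [⟨nat_lit 1, nat_lit 3792, nat_lit 9648, nat_lit 5328, nat_lit 6576, nat_lit 8448, R1_111, R0_137, R3_176⟩]⟩]⟩], [⟨nat_lit 4, [⟨nat_lit 1, [⟨nat_lit 1, nat_lit 912, nat_lit 1680, nat_lit 6816, nat_lit 7488, nat_lit 10080, R5_142, R9_156, R1_210⟩]⟩]⟩,
 ⟨nat_lit 6, [⟨nat_lit 1, [⟨nat_lit 1, nat_lit 6144, nat_lit 11376, nat_lit 6432, nat_lit 5328, nat_lit 10224, R11_134, R0_111, R1_213⟩]⟩, ⟨nat_lit 5, [⟨nat_lit 1, nat_lit 3840, nat_lit 11280, nat_lit 5376, nat_lit 6672, nat_lit 17232, R1_112, R0_139, R10_359⟩]⟩]⟩], [], [⟨nat_lit 6, [⟨nat_lit 5, [⟨nat_lit 1, nat_lit 3888, nat_lit 10464, nat_lit 5424, nat_lit 6624, nat_lit 8832, R1_113, R0_138, R0_184⟩]⟩]⟩]]], [[], [], [], [], [[], [⟨nat_lit 4, [⟨nat_lit 0, [⟨nat_lit 0, nat_lit 144, nat_lit 1104, nat_lit 4704, nat_lit 5232,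 nat_lit 12768, R13_98, R6_109, R8_266⟩, ⟨nat_lit 1, nat_lit 336, nat_lit 2256, nat_lit 8496, nat_lit 9168, nat_lit 10272, R13_177, R8_191, R5_214⟩, ⟨nat_lit 2, nat_lit 240, nat_lit 3504, nat_lit 6336, nat_lit 5520, nat_lit 8880, R13_132, R4_115, R9_185⟩]⟩, ⟨nat_lit 1, [⟨nat_lit 0, nat_lit 960, nat_lit 1728, nat_lit 3840, nat_lit 7248, nat_lit 8640, R9_80, R6_151, R5_180⟩, ⟨nat_lit 1, nat_lit 1152, nat_lit 2496, nat_lit 6144, nat_lit 9264, nat_lit 11088, R9_128, R8_193, R11_231⟩, ⟨nat_lit 2, nat_lit 1056, nat_lit 4176, nat_lit 4752, nat_lit 7920, nat_lit 8400, R9_99, R4_165, R0_175⟩]⟩, ⟨nat_lit 2, [⟨nat_lit 2, nat_lit 480, nat_lit 4272, nat_lit 4608, nat_lit 7248, nat_lit 11904, R3_96, R4_151, R0_248⟩]⟩, ⟨nat_lit 3, [⟨nat_lit 0, nat_lit 1920, nat_lit 1392, nat_lit 480, nat_lit 6576, nat_lit 8208, R3_10, R6_137,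 R9_171⟩, ⟨nat_lit 1, nat_lit 2016, nat_lit 2352, nat_lit 2592, nat_lit 9216, nat_lit 7440, R3_54, R8_192, R0_155⟩]⟩]⟩,
 ⟨nat_lit 5, [⟨nat_lit 0, [⟨nat_lit 0, nat_lit 7632, nat_lit 9456, nat_lit 16416, nat_lit 18768, nat_lit 17088, R9_342, R8_391, R8_356⟩, ⟨nat_lit 1, nat_lit 7920, nat_lit 11088, nat_lit 18048, nat_lit 10032, nat_lit 11136, R9_376, R9_209, R5_232⟩, ⟨nat_lit 2, nat_lit 7776, nat_lit 11712, nat_lit 17280, nat_lit 12240, nat_lit 9648, R9_360, R5_255, R9_201⟩]⟩, ⟨nat_lit 2, [⟨nat_lit 2, nat_lit 8160, nat_lit 12624, nat_lit 14880, nat_lit 12480, nat_lit 14784, R0_310, R5_260, R0_308⟩]⟩, ⟨nat_lit 3, [⟨nat_lit 0, nat_lit 9024, nat_lit 9840, nat_lit 7680, nat_lit 18864, nat_lit 8736, R0_160, R8_393, R9_182⟩, ⟨nat_lit 1, nat_lit 9168, nat_lit 11184, nat_lit 9072, nat_lit 10080, nat_lit 7968, R0_189, R9_210,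 R0_166⟩]⟩]⟩,
 ⟨nat_lit 6, [⟨nat_lit 0, [⟨nat_lit 0, nat_lit 5664, nat_lit 13152, nat_lit 16464, nat_lit 14496, nat_lit 13824, R3_343, R4_302, R8_288⟩, ⟨nat_lit 1, nat_lit 5760, nat_lit 13488, nat_lit 17760, nat_lit 17664, nat_lit 10752, R3_370, R5_368, R5_224⟩]⟩, ⟨nat_lit 1, [⟨nat_lit 0, nat_lit 6192, nat_lit 13440, nat_lit 2304, nat_lit 15408, nat_lit 9120, R0_48, R4_321, R5_190⟩, ⟨nat_lit 1, nat_lit 6288, nat_lit 13584, nat_lit 3984, nat_lit 17760, nat_lit 11568, R0_83, R5_370, R11_241⟩]⟩, ⟨nat_lit 3, [⟨nat_lit 0, nat_lit 6960, nat_lit 13296, nat_lit 3120, nat_lit 14832, nat_lit 8352, R10_65, R4_309, R9_174⟩, ⟨nat_lit 1, nat_lit 7056, nat_lit 13536, nat_lit 5808, nat_lit 17712, nat_lit 7584, R10_121, R5_369, R0_158⟩]⟩]⟩]], [[], [⟨nat_lit 5, [⟨nat_lit 0, [⟨nat_lit 0, nat_lit 7680, nat_lit 9024, nat_lit 16512,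 nat_lit 9840, nat_lit 17376, R9_344, R5_205, R8_362⟩, ⟨nat_lit 1, nat_lit 7968, nat_lit 9072, nat_lit 18096, nat_lit 9168, nat_lit 11184, R9_377, R0_191, R5_233⟩, ⟨nat_lit 2, nat_lit 7824, nat_lit 9120, nat_lit 17376, nat_lit 15216, nat_lit 9744, R9_362, R11_317, R9_203⟩]⟩, ⟨nat_lit 2, [⟨nat_lit 2, nat_lit 8208, nat_lit 9264, nat_lit 14976, nat_lit 15456, nat_lit 15072, R0_312, R11_322, R0_314⟩]⟩, ⟨nat_lit 3, [⟨nat_lit 0, nat_lit 9072, nat_lit 9168, nat_lit 7968, nat_lit 11184, nat_lit 10080, R0_166, R5_233, R9_210⟩, ⟨nat_lit 1, nat_lit 9216, nat_lit 9216, nat_lit 9216, nat_lit 9216, nat_lit 9216, R0_192, R0_192, R0_192⟩]⟩]⟩]], [], [[], [⟨nat_lit 4, [⟨nat_lit 0, [⟨nat_lit 0, nat_lit 192, nat_lit 14304, nat_lit 5328, nat_lit 5856, nat_lit 12912, R13_111, R13_122, R8_269⟩, ⟨nat_lit 1, nat_lit 384, nat_lit 14496,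 nat_lit 8928, nat_lit 4560, nat_lit 10320, R13_186, R9_95, R5_215⟩, ⟨nat_lit 2, nat_lit 288, nat_lit 14640, nat_lit 6912, nat_lit 4128, nat_lit 8928, R13_144, R3_86, R9_186⟩]⟩, ⟨nat_lit 1, [⟨nat_lit 0, nat_lit 1008, nat_lit 14784, nat_lit 4272, nat_lit 9312, nat_lit 10416, R9_89, R13_194, R5_217⟩, ⟨nat_lit 1, nat_lit 1200, nat_lit 14928, nat_lit 6816, nat_lit 7152, nat_lit 13680, R9_142, R9_149, R11_285⟩, ⟨nat_lit 2, nat_lit 1104, nat_lit 15072, nat_lit 5136, nat_lit 7392, nat_lit 8448, R9_107, R3_154, R0_176⟩]⟩, ⟨nat_lit 2, [⟨nat_lit 2, nat_lit 528, nat_lit 15552, nat_lit 5280, nat_lit 5856, nat_lit 12048, R3_110, R3_122, R0_251⟩]⟩, ⟨nat_lit 3, [⟨nat_lit 0, nat_lit 1968, nat_lit 15168, nat_lit 4080, nat_lit 7584, nat_lit 9072, R3_85, R13_158, R9_189⟩, ⟨nat_lit 1, nat_lit 2064, nat_lit 15312, nat_lit 7344, nat_lit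 5568, nat_lit 8592, R3_153, R9_116, R0_179⟩, ⟨nat_lit 3, nat_lit 2112, nat_lit 15408, nat_lit 5808, nat_lit 5376, nat_lit 12096, R3_121, R3_112, R0_252⟩]⟩]⟩,
 ⟨nat_lit 5, [⟨nat_lit 0, [⟨nat_lit 0, nat_lit 7728, nat_lit 14352, nat_lit 16464, nat_lit 8640, nat_lit 17232, R9_343, R9_180, R8_359⟩, ⟨nat_lit 2, nat_lit 7872, nat_lit 14688, nat_lit 17328, nat_lit 7872, nat_lit 9696, R9_361, R0_164, R9_202⟩]⟩, ⟨nat_lit 2, [⟨nat_lit 2, nat_lit 8256, nat_lit 15600, nat_lit 14928, nat_lit 8256, nat_lit 14928, R0_311, R0_172, R0_311⟩]⟩, ⟨nat_lit 3, [⟨nat_lit 0, nat_lit 9120, nat_lit 15216, nat_lit 7824, nat_lit 9744, nat_lit 9840, R0_163, R9_203, R9_205⟩, ⟨nat_lit 3, nat_lit 9264, nat_lit 15456, nat_lit 8208, nat_lit 15072, nat_lit 14976, R0_171, R0_314, R0_312⟩]⟩]⟩,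
 ⟨nat_lit 6, [⟨nat_lit 0, [⟨nat_lit 0, nat_lit 5712, nat_lit 14448, nat_lit 16512, nat_lit 8784, nat_lit 13968, R3_344, R3_183, R8_291⟩, ⟨nat_lit 1, nat_lit 5808, nat_lit 14592, nat_lit 17808, nat_lit 3024, nat_lit 10800, R3_371, R0_63, R5_225⟩]⟩, ⟨nat_lit 1, [⟨nat_lit 0, nat_lit 6240, nat_lit 14880, nat_lit 2736, nat_lit 9600, nat_lit 10608, R0_57, R3_200, R5_221⟩, ⟨nat_lit 1, nat_lit 6336, nat_lit 15024, nat_lit 4656, nat_lit 4992, nat_lit 13872, R0_97, R0_104, R11_289⟩]⟩, ⟨nat_lit 3, [⟨nat_lit 0, nat_lit 7008, nat_lit 15264, nat_lit 3744, nat_lit 9408, nat_lit 9264, R10_78, R3_196, R9_193⟩, ⟨nat_lit 1, nat_lit 7104, nat_lit 15360, nat_lit 6288, nat_lit 3408, nat_lit 8784, R10_131, R0_71, R0_183⟩, ⟨nat_lit 3, nat_lit 7152, nat_lit 15504, nat_lit 4416, nat_lit 4992, nat_lit 14208, R10_92, R10_104, R0_296⟩]⟩]⟩,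
 ⟨nat_lit 7, [⟨nat_lit 0, [⟨nat_lit 0, nat_lit 9888, nat_lit 14400, nat_lit 8736, nat_lit 16608, nat_lit 14640, R3_182, R3_346, R8_305⟩, ⟨nat_lit 1, nat_lit 9984, nat_lit 14544, nat_lit 9552, nat_lit 2784, nat_lit 10560, R3_199, R0_58, R5_220⟩, ⟨nat_lit 2, nat_lit 9936, nat_lit 14736, nat_lit 9360, nat_lit 9744, nat_lit 9216, R3_195, R10_203, R9_192⟩]⟩, ⟨nat_lit 1, [⟨nat_lit 0, nat_lit 10320, nat_lit 14832, nat_lit 2976, nat_lit 17904, nat_lit 10896, R0_62, R3_373, R5_227⟩, ⟨nat_lit 1, nat_lit 10416, nat_lit 14976, nat_lit 4896, nat_lit 4752, nat_lit 14160, R0_102, R0_99, R11_295⟩, ⟨nat_lit 2, nat_lit 10368, nat_lit 15120, nat_lit 3360, nat_lit 12048, nat_lit 8736, R0_70, R10_251, R0_182⟩]⟩, ⟨nat_lit 2, [⟨nat_lit 2, nat_lit 10272, nat_lit 15648, nat_lit 19872, nat_lit 10320, nat_lit 14160, R10_414, R10_215,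 R0_295⟩]⟩]⟩], [], [], [], [⟨nat_lit 4, [⟨nat_lit 1, [⟨nat_lit 1, nat_lit 1248, nat_lit 2112, nat_lit 6864, nat_lit 7104, nat_lit 10128, R9_143, R9_148, R1_211⟩]⟩]⟩,
 ⟨nat_lit 6, [⟨nat_lit 1, [⟨nat_lit 1, nat_lit 6384, nat_lit 11952, nat_lit 4704, nat_lit 4944, nat_lit 10272, R0_98, R0_103, R1_214⟩]⟩]⟩,
 ⟨nat_lit 7, [⟨nat_lit 1, [⟨nat_lit 1, nat_lit 10464, nat_lit 7488, nat_lit 4560, nat_lit 5088, nat_lit 10320, R0_95, R0_106, R1_215⟩]⟩]⟩]]]]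
noncomputable def N2373 : T3 (List N0) := [[[[⟨nat_lit 0, [⟨nat_lit 2, [⟨nat_lit 4, nat_lit 96, nat_lit 3216, nat_lit 3360, nat_lit 3600, nat_lit 3120, R4_70, R6_75, R7_65⟩, ⟨nat_lit 6, nat_lit 144, nat_lit 3360, nat_lit 3648, nat_lit 3552, nat_lit 4608, R4_76, R4_74, R14_96⟩]⟩, ⟨nat_lit 6, [⟨nat_lit 4, nat_lit 0, nat_lit 4032, nat_lit 3120, nat_lit 1536, nat_lit 3360, R7_65, R6_32, R4_70⟩]⟩]⟩,
 ⟨nat_lit 2, [⟨nat_lit 6, [⟨nat_lit 4, nat_lit 48, nat_lit 11520, nat_lit 8208, nat_lit 3552, nat_lit 3648, R14_171, R4_74, R4_76⟩]⟩]⟩], [⟨nat_lit 0, [⟨nat_lit 2, [⟨nat_lit 6, nat_lit 576, nat_lit 3120, nat_lit 3744, nat_lit 3984, nat_lit 2976, R4_78, R4_83, R12_62⟩]⟩]⟩], [⟨nat_lit 0, [⟨nat_lit 2, [⟨nat_lit 4, nat_lit 912, nat_lit 1872, nat_lit 3408, nat_lit 3744, nat_lit 1440, R4_71, R6_78, R2_30⟩, ⟨nat_lit 5, nat_lit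 960, nat_lit 2736, nat_lit 4128, nat_lit 1968, nat_lit 912, R4_86, R8_41, R1_19⟩, ⟨nat_lit 6, nat_lit 1008, nat_lit 3072, nat_lit 3888, nat_lit 3888, nat_lit 6816, R4_81, R4_81, R12_142⟩]⟩, ⟨nat_lit 6, [⟨nat_lit 4, nat_lit 720, nat_lit 1824, nat_lit 3312, nat_lit 1920, nat_lit 11664, R7_69, R6_40, R3_243⟩, ⟨nat_lit 5, nat_lit 768, nat_lit 2688, nat_lit 4176, nat_lit 2064, nat_lit 16512, R7_87, R8_43, R10_344⟩]⟩]⟩,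
 ⟨nat_lit 2, [⟨nat_lit 6, [⟨nat_lit 4, nat_lit 816, nat_lit 9792, nat_lit 8784, nat_lit 9840, nat_lit 13968, R14_183, R4_205, R3_291⟩, ⟨nat_lit 5, nat_lit 864, nat_lit 10368, nat_lit 8832, nat_lit 6144, nat_lit 16800, R14_184, R5_128, R10_350⟩]⟩]⟩]], [], [[], [], [⟨nat_lit 0, [⟨nat_lit 2, [⟨nat_lit 5, nat_lit 1152, nat_lit 12720, nat_lit 11760, nat_lit 16032, nat_lit 6336, R4_245, R5_334, R1_132⟩]⟩, ⟨nat_lit 6, [⟨nat_lit 5, nat_lit 1056, nat_lit 13728, nat_lit 12624, nat_lit 15120, nat_lit 16560, R7_263, R5_315, R10_345⟩]⟩]⟩,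
 ⟨nat_lit 2, [⟨nat_lit 6, [⟨nat_lit 5, nat_lit 1104, nat_lit 14256, nat_lit 11088, nat_lit 19440, nat_lit 16848, R14_231, R11_405, R10_351⟩]⟩]⟩]], [[⟨nat_lit 0, [⟨nat_lit 2, [⟨nat_lit 4, nat_lit 384, nat_lit 13056, nat_lit 9360, nat_lit 18480, nat_lit 9312, R4_195, R13_385, R7_194⟩, ⟨nat_lit 6, nat_lit 432, nat_lit 13104, nat_lit 9936, nat_lit 14064, nat_lit 5136, R4_207, R3_293, R14_107⟩]⟩, ⟨nat_lit 6, [⟨nat_lit 4, nat_lit 192, nat_lit 14448, nat_lit 9312, nat_lit 16656, nat_lit 9360, R7_194, R13_347, R4_195⟩, ⟨nat_lit 7, nat_lit 240, nat_lit 14496, nat_lit 10080, nat_lit 1344, nat_lit 4848, R7_210, R3_28, R5_101⟩]⟩]⟩,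
 ⟨nat_lit 2, [⟨nat_lit 6, [⟨nat_lit 4, nat_lit 288, nat_lit 15024, nat_lit 9360, nat_lit 14064, nat_lit 9936, R14_195, R3_293, R4_207⟩, ⟨nat_lit 7, nat_lit 336, nat_lit 15072, nat_lit 9408, nat_lit 16176, nat_lit 4944, R14_196, R10_337, R5_103⟩]⟩]⟩,
 ⟨nat_lit 3, [⟨nat_lit 2, [⟨nat_lit 4, nat_lit 480, nat_lit 13344, nat_lit 4848, nat_lit 1344, nat_lit 10080, R5_101, R3_28, R7_210⟩, ⟨nat_lit 6, nat_lit 528, nat_lit 13392, nat_lit 4944, nat_lit 16176, nat_lit 5184, R5_103, R10_337, R14_108⟩]⟩]⟩], [⟨nat_lit 0, [⟨nat_lit 2, [⟨nat_lit 6, nat_lit 624, nat_lit 9840, nat_lit 10080, nat_lit 14208, nat_lit 3504, R4_210, R3_296, R12_73⟩]⟩]⟩,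
 ⟨nat_lit 3, [⟨nat_lit 2, [⟨nat_lit 6, nat_lit 672, nat_lit 10224, nat_lit 5616, nat_lit 18192, nat_lit 3552, R5_117, R10_379, R12_74⟩]⟩]⟩], [⟨nat_lit 0, [⟨nat_lit 2, [⟨nat_lit 4, nat_lit 1488, nat_lit 10320, nat_lit 9456, nat_lit 18576, nat_lit 8496, R4_197, R13_387, R2_177⟩, ⟨nat_lit 5, nat_lit 1536, nat_lit 10368, nat_lit 10464, nat_lit 15168, nat_lit 9312, R4_218, R9_316, R1_194⟩, ⟨nat_lit 6, nat_lit 1584, nat_lit 10416, nat_lit 10224, nat_lit 14160, nat_lit 8256, R4_213, R3_295, R12_172⟩]⟩, ⟨nat_lit 6, [⟨nat_lit 4, nat_lit 1200, nat_lit 12192, nat_lit 9504, nat_lit 16704, nat_lit 12000, R7_198, R13_348, R3_250⟩, ⟨nat_lit 5, nat_lit 1248, nat_lit 12288, nat_lit 11184, nat_lit 14256, nat_lit 16608, R7_233, R9_297, R10_346⟩, ⟨nat_lit 7, nat_lit 1296, nat_lit 12240, nat_lit 10416, nat_lit 1968, nat_lit 13056,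 R7_217, R3_41, R0_272⟩]⟩]⟩,
 ⟨nat_lit 2, [⟨nat_lit 6, [⟨nat_lit 4, nat_lit 1344, nat_lit 12960, nat_lit 10464, nat_lit 14928, nat_lit 14688, R14_218, R3_311, R3_306⟩, ⟨nat_lit 5, nat_lit 1392, nat_lit 13056, nat_lit 10560, nat_lit 12960, nat_lit 16896, R14_220, R0_270, R10_352⟩, ⟨nat_lit 7, nat_lit 1440, nat_lit 13008, nat_lit 10512, nat_lit 16272, nat_lit 13152, R14_219, R10_339, R0_274⟩]⟩]⟩,
 ⟨nat_lit 3, [⟨nat_lit 2, [⟨nat_lit 4, nat_lit 1632, nat_lit 10656, nat_lit 6576, nat_lit 7824, nat_lit 9264, R5_137, R3_163, R2_193⟩, ⟨nat_lit 5, nat_lit 1680, nat_lit 10704, nat_lit 6816, nat_lit 912, nat_lit 10080, R5_142, R0_19, R1_210⟩, ⟨nat_lit 6, nat_lit 1728, nat_lit 10752, nat_lit 6672, nat_lit 17136, nat_lit 8304, R5_139, R10_357, R12_173⟩]⟩]⟩], [⟨nat_lit 0, [⟨nat_lit 2, [⟨nat_lit 6, nat_lit 2496, nat_lit 2880,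 nat_lit 9984, nat_lit 14112, nat_lit 13200, R4_208, R3_294, R12_275⟩]⟩, ⟨nat_lit 6, [⟨nat_lit 7, nat_lit 2352, nat_lit 3504, nat_lit 10224, nat_lit 1584, nat_lit 19584, R7_213, R3_33, R11_408⟩]⟩]⟩,
 ⟨nat_lit 2, [⟨nat_lit 6, [⟨nat_lit 7, nat_lit 2400, nat_lit 10992, nat_lit 10080, nat_lit 16224, nat_lit 19776, R14_210, R10_338, R11_412⟩]⟩]⟩,
 ⟨nat_lit 3, [⟨nat_lit 2, [⟨nat_lit 6, nat_lit 2640, nat_lit 7584, nat_lit 5472, nat_lit 17808, nat_lit 13440, R5_114, R10_371, R12_280⟩]⟩]⟩]], [], [], [], [[], [], [], [⟨nat_lit 0, [⟨nat_lit 6, [⟨nat_lit 7, nat_lit 1872, nat_lit 11664, nat_lit 15360, nat_lit 12672, nat_lit 19632, R7_320, R2_264, R11_409⟩]⟩]⟩,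
 ⟨nat_lit 2, [⟨nat_lit 4, [⟨nat_lit 3, nat_lit 1824, nat_lit 10704, nat_lit 15264, nat_lit 20304, nat_lit 12624, R7_318, R11_423, R2_263⟩]⟩, ⟨nat_lit 6, [⟨nat_lit 3, nat_lit 1968, nat_lit 11856, nat_lit 8064, nat_lit 20496, nat_lit 13968, R14_168, R11_427, R1_291⟩, ⟨nat_lit 7, nat_lit 1920, nat_lit 11808, nat_lit 8016, nat_lit 14016, nat_lit 19824, R14_167, R1_292, R11_413⟩]⟩]⟩,
 ⟨nat_lit 6, [⟨nat_lit 4, [⟨nat_lit 3, nat_lit 1776, nat_lit 10944, nat_lit 13968, nat_lit 13488, nat_lit 13776, R4_291, R1_281, R2_287⟩]⟩, ⟨nat_lit 7, [⟨nat_lit 0, nat_lit 2016, nat_lit 11424, nat_lit 15360, nat_lit 13104, nat_lit 13296, R5_320, R2_273, R2_277⟩, ⟨nat_lit 2, nat_lit 2064, nat_lit 11520, nat_lit 15744, nat_lit 12624, nat_lit 14640, R5_328, R12_263, R1_305⟩, ⟨nat_lit 3, nat_lit 2112, nat_lit 11472, nat_lit 15648, nat_lit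 14448, nat_lit 14160, R5_326, R1_301, R12_295⟩]⟩]⟩]]], [[[⟨nat_lit 0, [⟨nat_lit 2, [⟨nat_lit 4, nat_lit 6864, nat_lit 1824, nat_lit 11664, nat_lit 9120, nat_lit 3312, R3_243, R6_190, R7_69⟩, ⟨nat_lit 6, nat_lit 6912, nat_lit 9792, nat_lit 13968, nat_lit 9840, nat_lit 6432, R3_291, R4_205, R14_134⟩]⟩, ⟨nat_lit 6, [⟨nat_lit 4, nat_lit 6720, nat_lit 1872, nat_lit 1440, nat_lit 7632, nat_lit 3408, R2_30, R6_159, R4_71⟩]⟩]⟩,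
 ⟨nat_lit 1, [⟨nat_lit 2, [⟨nat_lit 4, nat_lit 6960, nat_lit 2688, nat_lit 1152, nat_lit 2064, nat_lit 4176, R10_24, R8_43, R7_87⟩, ⟨nat_lit 6, nat_lit 7008, nat_lit 10368, nat_lit 1632, nat_lit 6144, nat_lit 6480, R10_34, R5_128, R14_135⟩]⟩, ⟨nat_lit 6, [⟨nat_lit 4, nat_lit 6768, nat_lit 2736, nat_lit 912, nat_lit 1968, nat_lit 4128, R1_19, R8_41, R4_86⟩]⟩]⟩,
 ⟨nat_lit 2, [⟨nat_lit 6, [⟨nat_lit 4, nat_lit 6816, nat_lit 3072, nat_lit 6816, nat_lit 3888, nat_lit 3888, R12_142, R4_81, R4_81⟩]⟩]⟩], [⟨nat_lit 0, [⟨nat_lit 2, [⟨nat_lit 6, nat_lit 7776, nat_lit 864, nat_lit 14016, nat_lit 10320, nat_lit 4416, R3_292, R4_215, R12_92⟩]⟩]⟩,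
 ⟨nat_lit 1, [⟨nat_lit 2, [⟨nat_lit 6, nat_lit 7824, nat_lit 7824, nat_lit 1728, nat_lit 7056, nat_lit 4464, R10_36, R5_147, R12_93⟩]⟩]⟩], [⟨nat_lit 0, [⟨nat_lit 2, [⟨nat_lit 4, nat_lit 8352, nat_lit 1056, nat_lit 11808, nat_lit 9312, nat_lit 1632, R3_246, R6_194, R2_34⟩, ⟨nat_lit 5, nat_lit 8400, nat_lit 1488, nat_lit 16944, nat_lit 6480, nat_lit 1104, R3_353, R8_135, R1_23⟩, ⟨nat_lit 6, nat_lit 8448, nat_lit 1776, nat_lit 14160, nat_lit 10224, nat_lit 7392, R3_295, R4_213, R12_154⟩]⟩, ⟨nat_lit 6, [⟨nat_lit 4, nat_lit 8064, nat_lit 1008, nat_lit 1632, nat_lit 8064, nat_lit 11808, R2_34, R6_168, R3_246⟩, ⟨nat_lit 5, nat_lit 8112, nat_lit 1440, nat_lit 2592, nat_lit 6576, nat_lit 16704, R2_54, R8_137, R10_348⟩]⟩]⟩,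
 ⟨nat_lit 1, [⟨nat_lit 2, [⟨nat_lit 4, nat_lit 8496, nat_lit 6480, nat_lit 1200, nat_lit 6576, nat_lit 2592, R10_25, R8_137, R2_54⟩, ⟨nat_lit 5, nat_lit 8544, nat_lit 7344, nat_lit 2160, nat_lit 6576, nat_lit 2064, R10_45, R9_137, R1_43⟩, ⟨nat_lit 6, nat_lit 8592, nat_lit 7680, nat_lit 1872, nat_lit 6672, nat_lit 7440, R10_39, R5_139, R12_155⟩]⟩, ⟨nat_lit 6, [⟨nat_lit 4, nat_lit 8160, nat_lit 6432, nat_lit 1104, nat_lit 6480, nat_lit 16944, R1_23, R8_135, R3_353⟩, ⟨nat_lit 5, nat_lit 8208, nat_lit 7296, nat_lit 2064, nat_lit 6672, nat_lit 17280, R1_43, R9_139, R10_360⟩]⟩]⟩,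
 ⟨nat_lit 2, [⟨nat_lit 6, [⟨nat_lit 4, nat_lit 8256, nat_lit 10416, nat_lit 7392, nat_lit 10224, nat_lit 14160, R12_154, R4_213, R3_295⟩, ⟨nat_lit 5, nat_lit 8304, nat_lit 10752, nat_lit 7440, nat_lit 6672, nat_lit 17136, R12_155, R5_139, R10_357⟩]⟩]⟩]], [[⟨nat_lit 1, [⟨nat_lit 2, [⟨nat_lit 4, nat_lit 7104, nat_lit 13728, nat_lit 7440, nat_lit 15120, nat_lit 12624, R10_155, R5_315, R7_263⟩, ⟨nat_lit 6, nat_lit 7152, nat_lit 14256, nat_lit 7824, nat_lit 5760, nat_lit 7776, R10_163, R11_120, R14_162⟩]⟩, ⟨nat_lit 6, [⟨nat_lit 4, nat_lit 7056, nat_lit 12720, nat_lit 6336, nat_lit 16032, nat_lit 11760, R1_132, R5_334, R4_245⟩]⟩]⟩], [⟨nat_lit 1, [⟨nat_lit 2, [⟨nat_lit 6, nat_lit 7872, nat_lit 17328, nat_lit 7920, nat_lit 6672, nat_lit 5760, R10_165, R11_139, R12_120⟩]⟩]⟩], [⟨nat_lit 1, [⟨nat_lit 2, [⟨nat_lit 4, nat_lit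 8736, nat_lit 4320, nat_lit 7488, nat_lit 15696, nat_lit 11328, R10_156, R5_327, R2_236⟩, ⟨nat_lit 5, nat_lit 8784, nat_lit 5184, nat_lit 8304, nat_lit 4416, nat_lit 11904, R10_173, R0_92, R1_248⟩, ⟨nat_lit 6, nat_lit 8832, nat_lit 5520, nat_lit 8064, nat_lit 6288, nat_lit 9216, R10_168, R11_131, R12_192⟩]⟩, ⟨nat_lit 6, [⟨nat_lit 4, nat_lit 8640, nat_lit 4272, nat_lit 6528, nat_lit 16176, nat_lit 17280, R1_136, R5_337, R3_360⟩, ⟨nat_lit 5, nat_lit 8688, nat_lit 5136, nat_lit 7440, nat_lit 4512, nat_lit 17376, R1_155, R0_94, R10_362⟩]⟩]⟩]], [[], [], [⟨nat_lit 0, [⟨nat_lit 2, [⟨nat_lit 5, nat_lit 9024, nat_lit 4272, nat_lit 17280, nat_lit 16176, nat_lit 6528, R3_360, R5_337, R1_136⟩]⟩, ⟨nat_lit 6, [⟨nat_lit 5, nat_lit 8880, nat_lit 4320, nat_lit 11328, nat_lit 15696, nat_lit 16752, R2_236, R5_327, R10_349⟩]⟩]⟩,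
 ⟨nat_lit 1, [⟨nat_lit 2, [⟨nat_lit 5, nat_lit 9072, nat_lit 5136, nat_lit 12864, nat_lit 4512, nat_lit 7440, R10_268, R0_94, R1_155⟩]⟩, ⟨nat_lit 6, [⟨nat_lit 5, nat_lit 8928, nat_lit 5184, nat_lit 11904, nat_lit 4416, nat_lit 17328, R1_248, R0_92, R10_361⟩]⟩]⟩,
 ⟨nat_lit 2, [⟨nat_lit 6, [⟨nat_lit 5, nat_lit 8976, nat_lit 5520, nat_lit 9216, nat_lit 20016, nat_lit 17184, R12_192, R11_417, R10_358⟩]⟩]⟩]], [[⟨nat_lit 0, [⟨nat_lit 2, [⟨nat_lit 4, nat_lit 7488, nat_lit 12192, nat_lit 12000, nat_lit 18960, nat_lit 9504, R3_250, R13_395, R7_198⟩, ⟨nat_lit 6, nat_lit 7536, nat_lit 12960, nat_lit 14688, nat_lit 14928, nat_lit 7104, R3_306, R3_311, R14_148⟩]⟩, ⟨nat_lit 6, [⟨nat_lit 4, nat_lit 7200, nat_lit 10320, nat_lit 8496, nat_lit 17376, nat_lit 9456, R2_177, R13_362, R4_197⟩, ⟨nat_lit 7, nat_lit 7248, nat_lit 10656,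 nat_lit 9264, nat_lit 7824, nat_lit 6576, R2_193, R3_163, R5_137⟩]⟩]⟩,
 ⟨nat_lit 1, [⟨nat_lit 2, [⟨nat_lit 4, nat_lit 7584, nat_lit 12288, nat_lit 10704, nat_lit 14256, nat_lit 11184, R10_223, R9_297, R7_233⟩, ⟨nat_lit 6, nat_lit 7632, nat_lit 13056, nat_lit 11424, nat_lit 12960, nat_lit 7200, R10_238, R0_270, R14_150⟩]⟩, ⟨nat_lit 6, [⟨nat_lit 4, nat_lit 7296, nat_lit 10368, nat_lit 9312, nat_lit 15168, nat_lit 10464, R1_194, R9_316, R4_218⟩, ⟨nat_lit 7, nat_lit 7344, nat_lit 10704, nat_lit 10080, nat_lit 912, nat_lit 6816, R1_210, R0_19, R5_142⟩]⟩]⟩,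
 ⟨nat_lit 2, [⟨nat_lit 6, [⟨nat_lit 4, nat_lit 7392, nat_lit 10416, nat_lit 8256, nat_lit 14160, nat_lit 10224, R12_172, R3_295, R4_213⟩, ⟨nat_lit 7, nat_lit 7440, nat_lit 10752, nat_lit 8304, nat_lit 17136, nat_lit 6672, R12_173, R10_357, R5_139⟩]⟩]⟩,
 ⟨nat_lit 3, [⟨nat_lit 2, [⟨nat_lit 4, nat_lit 7680, nat_lit 12240, nat_lit 13056, nat_lit 1968, nat_lit 10416, R0_272, R3_41, R7_217⟩, ⟨nat_lit 6, nat_lit 7728, nat_lit 13008, nat_lit 13152, nat_lit 16272, nat_lit 7152, R0_274, R10_339, R14_149⟩]⟩]⟩], [⟨nat_lit 0, [⟨nat_lit 2, [⟨nat_lit 6, nat_lit 7920, nat_lit 11136, nat_lit 14880, nat_lit 15024, nat_lit 5088, R3_310, R3_313, R12_106⟩]⟩]⟩,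
 ⟨nat_lit 1, [⟨nat_lit 2, [⟨nat_lit 6, nat_lit 7968, nat_lit 11232, nat_lit 11568, nat_lit 13824, nat_lit 5184, R10_241, R0_288, R12_108⟩]⟩]⟩,
 ⟨nat_lit 3, [⟨nat_lit 2, [⟨nat_lit 6, nat_lit 8016, nat_lit 11184, nat_lit 13200, nat_lit 18288, nat_lit 5136, R0_275, R10_381, R12_107⟩]⟩]⟩]]], [[[⟨nat_lit 2, [⟨nat_lit 6, [⟨nat_lit 4, nat_lit 5904, nat_lit 3120, nat_lit 2976, nat_lit 3984, nat_lit 3744, R12_62, R4_83, R4_78⟩]⟩]⟩], [], [⟨nat_lit 2, [⟨nat_lit 6, [⟨nat_lit 4, nat_lit 6048, nat_lit 864, nat_lit 4416, nat_lit 10320, nat_lit 14016, R12_92, R4_215, R3_292⟩, ⟨nat_lit 5, nat_lit 6096, nat_lit 7824, nat_lit 4464, nat_lit 7056, nat_lit 16944, R12_93, R5_147, R10_353⟩]⟩]⟩]], [], [[], [], [⟨nat_lit 2, [⟨nat_lit 6, [⟨nat_lit 5, nat_lit 6144, nat_lit 17328, nat_lit 5760, nat_lit 20592, nat_lit 16992, R12_120, R11_429,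 R10_354⟩]⟩]⟩], [], [], [], [⟨nat_lit 2, [⟨nat_lit 4, [⟨nat_lit 1, nat_lit 3840, nat_lit 12144, nat_lit 11184, nat_lit 15072, nat_lit 15600, R2_233, R1_314, R5_325⟩]⟩, ⟨nat_lit 5, [⟨nat_lit 1, nat_lit 3888, nat_lit 12192, nat_lit 11760, nat_lit 15168, nat_lit 13920, R1_245, R1_316, R0_290⟩]⟩, ⟨nat_lit 6, [⟨nat_lit 1, nat_lit 3984, nat_lit 12240, nat_lit 6432, nat_lit 15120, nat_lit 19920, R12_134, R1_315, R11_415⟩, ⟨nat_lit 5, nat_lit 3936, nat_lit 12288, nat_lit 6480, nat_lit 20640, nat_lit 14112, R12_135, R11_430, R1_294⟩]⟩]⟩]], [[⟨nat_lit 2, [⟨nat_lit 6, [⟨nat_lit 4, nat_lit 5952, nat_lit 9840, nat_lit 3504, nat_lit 14208, nat_lit 10080, R12_73, R3_296, R4_210⟩, ⟨nat_lit 7, nat_lit 6000, nat_lit 10224, nat_lit 3552, nat_lit 18192, nat_lit 5616, R12_74, R10_379, R5_117⟩]⟩]⟩], [], [⟨nat_lit 2, [⟨nat_lit 6, [⟨nat_lit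 4, nat_lit 6192, nat_lit 11136, nat_lit 5088, nat_lit 15024, nat_lit 14880, R12_106, R3_313, R3_310⟩, ⟨nat_lit 5, nat_lit 6240, nat_lit 11232, nat_lit 5184, nat_lit 13824, nat_lit 17040, R12_108, R0_288, R10_355⟩, ⟨nat_lit 7, nat_lit 6288, nat_lit 11184, nat_lit 5136, nat_lit 18288, nat_lit 13200, R12_107, R10_381, R0_275⟩]⟩]⟩], [⟨nat_lit 2, [⟨nat_lit 6, [⟨nat_lit 7, nat_lit 6672, nat_lit 13104, nat_lit 3792, nat_lit 18240, nat_lit 19872, R12_79, R10_380, R11_414⟩]⟩]⟩]], [[], [], [], [], [⟨nat_lit 2, [⟨nat_lit 4, [⟨nat_lit 0, nat_lit 2784, nat_lit 2352, nat_lit 1296, nat_lit 3456, nat_lit 7536, R2_27, R4_72, R6_157⟩]⟩, ⟨nat_lit 5, [⟨nat_lit 0, nat_lit 2928, nat_lit 2736, nat_lit 768, nat_lit 4176, nat_lit 624, R1_16, R4_87, R8_13⟩]⟩, ⟨nat_lit 6, [⟨nat_lit 0, nat_lit 2976, nat_lit 3120, nat_lit 5904, nat_lit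 3984, nat_lit 3744, R12_123, R4_83, R4_78⟩]⟩]⟩,
 ⟨nat_lit 6, [⟨nat_lit 4, [⟨nat_lit 0, nat_lit 2688, nat_lit 2304, nat_lit 11616, nat_lit 3504, nat_lit 9072, R3_242, R7_73, R6_189⟩, ⟨nat_lit 2, nat_lit 2736, nat_lit 11184, nat_lit 13920, nat_lit 11616, nat_lit 9744, R3_290, R14_242, R4_203⟩]⟩, ⟨nat_lit 5, [⟨nat_lit 0, nat_lit 2832, nat_lit 2688, nat_lit 17424, nat_lit 4464, nat_lit 720, R10_363, R7_93, R8_15⟩, ⟨nat_lit 2, nat_lit 2880, nat_lit 11472, nat_lit 17664, nat_lit 11664, nat_lit 5280, R10_368, R14_243, R5_110⟩]⟩]⟩], [], [], [⟨nat_lit 2, [⟨nat_lit 4, [⟨nat_lit 0, nat_lit 4128, nat_lit 480, nat_lit 8352, nat_lit 9504, nat_lit 17232, R2_174, R4_198, R13_359⟩, ⟨nat_lit 3, nat_lit 4176, nat_lit 7440, nat_lit 9072, nat_lit 6960, nat_lit 7728, R2_189, R5_145, R3_161⟩]⟩, ⟨nat_lit 5, [⟨nat_lit 0, nat_lit 4320,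 nat_lit 672, nat_lit 9168, nat_lit 10512, nat_lit 15120, R1_191, R4_219, R9_315⟩, ⟨nat_lit 3, nat_lit 4368, nat_lit 7632, nat_lit 9888, nat_lit 7248, nat_lit 864, R1_206, R5_151, R0_18⟩]⟩, ⟨nat_lit 6, [⟨nat_lit 0, nat_lit 4416, nat_lit 864, nat_lit 6048, nat_lit 10320, nat_lit 14016, R12_126, R4_215, R3_292⟩, ⟨nat_lit 3, nat_lit 4464, nat_lit 7824, nat_lit 6096, nat_lit 7056, nat_lit 16944, R12_127, R5_147, R10_353⟩]⟩]⟩,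
 ⟨nat_lit 6, [⟨nat_lit 4, [⟨nat_lit 0, nat_lit 4032, nat_lit 2688, nat_lit 11952, nat_lit 9648, nat_lit 18768, R3_249, R7_201, R13_391⟩, ⟨nat_lit 2, nat_lit 4080, nat_lit 13920, nat_lit 14640, nat_lit 12000, nat_lit 14736, R3_305, R14_250, R3_307⟩]⟩, ⟨nat_lit 5, [⟨nat_lit 0, nat_lit 4224, nat_lit 3072, nat_lit 17472, nat_lit 11328, nat_lit 14208, R10_364, R7_236, R9_296⟩, ⟨nat_lit 2, nat_lit 4272, nat_lit 14208, nat_lit 17712, nat_lit 12096, nat_lit 12912, R10_369, R14_252, R0_269⟩]⟩, ⟨nat_lit 7, [⟨nat_lit 0, nat_lit 4512, nat_lit 2880, nat_lit 13296, nat_lit 10512, nat_lit 1824, R0_277, R7_219, R3_38⟩, ⟨nat_lit 2, nat_lit 4560, nat_lit 14112, nat_lit 13488, nat_lit 12048, nat_lit 16128, R0_281, R14_251, R10_336⟩]⟩]⟩]], [], [[], [], [], [], [⟨nat_lit 2, [⟨nat_lit 4, [⟨nat_lit 0, nat_lit 3168, nat_lit 2160, nat_lit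 1344, nat_lit 11856, nat_lit 7824, R2_28, R3_247, R6_163⟩, ⟨nat_lit 1, nat_lit 3216, nat_lit 2688, nat_lit 2496, nat_lit 18048, nat_lit 5808, R2_52, R10_376, R8_121⟩]⟩, ⟨nat_lit 5, [⟨nat_lit 0, nat_lit 3408, nat_lit 7056, nat_lit 816, nat_lit 16992, nat_lit 6000, R1_17, R3_354, R8_125⟩, ⟨nat_lit 1, nat_lit 3456, nat_lit 7440, nat_lit 1968, nat_lit 18336, nat_lit 5040, R1_41, R10_382, R9_105⟩]⟩, ⟨nat_lit 6, [⟨nat_lit 0, nat_lit 3504, nat_lit 9840, nat_lit 5952, nat_lit 14208, nat_lit 10080, R12_124, R3_296, R4_210⟩, ⟨nat_lit 1, nat_lit 3552, nat_lit 10224, nat_lit 6000, nat_lit 18192, nat_lit 5616, R12_125, R10_379, R5_117⟩]⟩]⟩,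
 ⟨nat_lit 6, [⟨nat_lit 4, [⟨nat_lit 0, nat_lit 3024, nat_lit 2208, nat_lit 11760, nat_lit 1824, nat_lit 9216, R3_245, R2_38, R6_192⟩, ⟨nat_lit 1, nat_lit 3072, nat_lit 2736, nat_lit 16896, nat_lit 1296, nat_lit 5760, R3_352, R1_27, R8_120⟩, ⟨nat_lit 2, nat_lit 3120, nat_lit 2880, nat_lit 14112, nat_lit 10320, nat_lit 9984, R3_294, R12_215, R4_208⟩]⟩, ⟨nat_lit 5, [⟨nat_lit 0, nat_lit 3264, nat_lit 7104, nat_lit 17568, nat_lit 2880, nat_lit 6096, R10_366, R2_60, R8_127⟩, ⟨nat_lit 1, nat_lit 3312, nat_lit 7488, nat_lit 17952, nat_lit 2352, nat_lit 4992, R10_374, R1_49, R9_104⟩, ⟨nat_lit 2, nat_lit 3360, nat_lit 7584, nat_lit 17808, nat_lit 10368, nat_lit 5472, R10_371, R12_216, R5_114⟩]⟩]⟩], [], [⟨nat_lit 2, [⟨nat_lit 4, [⟨nat_lit 1, nat_lit 3648, nat_lit 12912, nat_lit 11232, nat_lit 18096, nat_lit 15552, R2_234,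 R10_377, R5_324⟩]⟩, ⟨nat_lit 5, [⟨nat_lit 1, nat_lit 3744, nat_lit 13008, nat_lit 11808, nat_lit 18384, nat_lit 3072, R1_246, R10_383, R0_64⟩]⟩, ⟨nat_lit 6, [⟨nat_lit 1, nat_lit 3792, nat_lit 13104, nat_lit 6672, nat_lit 18240, nat_lit 19872, R12_139, R10_380, R11_414⟩]⟩]⟩,
 ⟨nat_lit 6, [⟨nat_lit 4, [⟨nat_lit 1, nat_lit 3600, nat_lit 12960, nat_lit 17232, nat_lit 6720, nat_lit 16128, R3_359, R1_140, R5_336⟩]⟩, ⟨nat_lit 5, [⟨nat_lit 1, nat_lit 3696, nat_lit 13056, nat_lit 18000, nat_lit 7728, nat_lit 3168, R10_375, R1_161, R0_66⟩]⟩]⟩], [⟨nat_lit 2, [⟨nat_lit 4, [⟨nat_lit 0, nat_lit 4752, nat_lit 10512, nat_lit 8400, nat_lit 12288, nat_lit 17280, R2_175, R3_256, R13_360⟩, ⟨nat_lit 1, nat_lit 4800, nat_lit 10560, nat_lit 10128, nat_lit 18144, nat_lit 14496, R2_211, R10_378, R9_302⟩, ⟨nat_lit 3, nat_lit 4848, nat_lit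 10608, nat_lit 9168, nat_lit 13776, nat_lit 8304, R2_191, R0_287, R3_173⟩]⟩, ⟨nat_lit 5, [⟨nat_lit 0, nat_lit 4992, nat_lit 10800, nat_lit 9216, nat_lit 17136, nat_lit 15312, R1_192, R3_357, R9_319⟩, ⟨nat_lit 3, nat_lit 5040, nat_lit 10848, nat_lit 9984, nat_lit 13872, nat_lit 8976, R1_208, R0_289, R0_187⟩]⟩, ⟨nat_lit 6, [⟨nat_lit 0, nat_lit 5088, nat_lit 11136, nat_lit 6192, nat_lit 15024, nat_lit 14880, R12_129, R3_313, R3_310⟩, ⟨nat_lit 1, nat_lit 5136, nat_lit 11184, nat_lit 6288, nat_lit 18288, nat_lit 13200, R12_131, R10_381, R0_275⟩, ⟨nat_lit 3, nat_lit 5184, nat_lit 11232, nat_lit 6240, nat_lit 13824, nat_lit 17040, R12_130, R0_288, R10_355⟩]⟩]⟩,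
 ⟨nat_lit 6, [⟨nat_lit 4, [⟨nat_lit 0, nat_lit 4608, nat_lit 10656, nat_lit 12240, nat_lit 8688, nat_lit 18864, R3_255, R2_181, R13_393⟩, ⟨nat_lit 1, nat_lit 4656, nat_lit 10704, nat_lit 17088, nat_lit 9504, nat_lit 15264, R3_356, R1_198, R9_318⟩, ⟨nat_lit 2, nat_lit 4704, nat_lit 10752, nat_lit 14976, nat_lit 11088, nat_lit 14832, R3_312, R12_231, R3_309⟩]⟩, ⟨nat_lit 5, [⟨nat_lit 0, nat_lit 4896, nat_lit 10896, nat_lit 17616, nat_lit 10224, nat_lit 14544, R10_367, R2_213, R9_303⟩, ⟨nat_lit 2, nat_lit 4944, nat_lit 10944, nat_lit 17856, nat_lit 11184, nat_lit 13248, R10_372, R12_233, R0_276⟩]⟩, ⟨nat_lit 7, [⟨nat_lit 0, nat_lit 5232, nat_lit 10992, nat_lit 13440, nat_lit 9600, nat_lit 8400, R0_280, R2_200, R3_175⟩, ⟨nat_lit 1, nat_lit 5280, nat_lit 11040, nat_lit 13728, nat_lit 10416, nat_lit 8928, R0_286, R1_217,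 R0_186⟩, ⟨nat_lit 2, nat_lit 5328, nat_lit 11088, nat_lit 13632, nat_lit 11136, nat_lit 17088, R0_284, R12_232, R10_356⟩]⟩]⟩]], [[], [], [], [⟨nat_lit 2, [⟨nat_lit 4, [⟨nat_lit 3, nat_lit 6384, nat_lit 11088, nat_lit 14352, nat_lit 20448, nat_lit 12768, R2_299, R11_426, R2_266⟩]⟩, ⟨nat_lit 6, [⟨nat_lit 3, nat_lit 6480, nat_lit 12288, nat_lit 3936, nat_lit 20640, nat_lit 14112, R12_82, R11_430, R1_294⟩, ⟨nat_lit 7, nat_lit 6432, nat_lit 12240, nat_lit 3984, nat_lit 15120, nat_lit 19920, R12_83, R1_315, R11_415⟩]⟩]⟩,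
 ⟨nat_lit 6, [⟨nat_lit 4, [⟨nat_lit 3, nat_lit 6336, nat_lit 11328, nat_lit 15648, nat_lit 13632, nat_lit 13872, R3_326, R1_284, R2_289⟩]⟩, ⟨nat_lit 7, [⟨nat_lit 0, nat_lit 6528, nat_lit 12000, nat_lit 13392, nat_lit 13632, nat_lit 13392, R0_279, R2_284, R2_279⟩, ⟨nat_lit 2, nat_lit 6576, nat_lit 12096, nat_lit 13584, nat_lit 15408, nat_lit 14736, R0_283, R12_321, R1_307⟩, ⟨nat_lit 3, nat_lit 6624, nat_lit 12048, nat_lit 13680, nat_lit 14976, nat_lit 14208, R0_285, R1_312, R12_296⟩]⟩]⟩], [], [], [], [⟨nat_lit 2, [⟨nat_lit 4, [⟨nat_lit 3, nat_lit 5520, nat_lit 16848, nat_lit 9120, nat_lit 20400, nat_lit 8016, R2_190, R11_425, R3_167⟩]⟩, ⟨nat_lit 5, [⟨nat_lit 3, nat_lit 5712, nat_lit 17040, nat_lit 9936, nat_lit 20736, nat_lit 6096, R1_207, R11_432, R0_127⟩]⟩, ⟨nat_lit 6, [⟨nat_lit 3, nat_lit 5760, nat_lit 17328,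 nat_lit 6144, nat_lit 20592, nat_lit 16992, R12_128, R11_429, R10_354⟩]⟩]⟩,
 ⟨nat_lit 6, [⟨nat_lit 4, [⟨nat_lit 0, nat_lit 5376, nat_lit 16896, nat_lit 12096, nat_lit 3840, nat_lit 18816, R3_252, R2_80, R13_392⟩, ⟨nat_lit 2, nat_lit 5424, nat_lit 16992, nat_lit 14784, nat_lit 16896, nat_lit 14784, R3_308, R12_352, R3_308⟩, ⟨nat_lit 3, nat_lit 5472, nat_lit 16944, nat_lit 15552, nat_lit 3312, nat_lit 9216, R3_324, R1_69, R3_192⟩]⟩, ⟨nat_lit 5, [⟨nat_lit 0, nat_lit 5568, nat_lit 17088, nat_lit 17520, nat_lit 6816, nat_lit 14832, R10_365, R2_142, R9_309⟩, ⟨nat_lit 2, nat_lit 5616, nat_lit 17184, nat_lit 17760, nat_lit 17328, nat_lit 13536, R10_370, R12_361, R0_282⟩, ⟨nat_lit 3, nat_lit 5664, nat_lit 17136, nat_lit 17904, nat_lit 5520, nat_lit 3744, R10_373, R1_115, R0_78⟩]⟩, ⟨nat_lit 7, [⟨nat_lit 0, nat_lit 5808,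 nat_lit 17232, nat_lit 13344, nat_lit 4656, nat_lit 6768, R0_278, R2_97, R3_141⟩, ⟨nat_lit 2, nat_lit 5856, nat_lit 17280, nat_lit 13536, nat_lit 17088, nat_lit 17760, R0_282, R12_356, R10_370⟩]⟩]⟩]]], [[], [], [], [[⟨nat_lit 0, [⟨nat_lit 6, [⟨nat_lit 4, nat_lit 10224, nat_lit 2784, nat_lit 3408, nat_lit 17952, nat_lit 9408, R2_71, R13_374, R4_196⟩, ⟨nat_lit 7, nat_lit 10272, nat_lit 7536, nat_lit 4272, nat_lit 6528, nat_lit 5424, R2_89, R3_136, R5_113⟩]⟩]⟩,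
 ⟨nat_lit 2, [⟨nat_lit 6, [⟨nat_lit 4, nat_lit 10320, nat_lit 2880, nat_lit 3120, nat_lit 14112, nat_lit 9984, R12_65, R3_294, R4_208⟩, ⟨nat_lit 7, nat_lit 10368, nat_lit 7584, nat_lit 3360, nat_lit 17808, nat_lit 5472, R12_70, R10_371, R5_114⟩]⟩]⟩,
 ⟨nat_lit 3, [⟨nat_lit 2, [⟨nat_lit 4, nat_lit 10464, nat_lit 3504, nat_lit 4848, nat_lit 1584, nat_lit 10224, R11_101, R3_33, R7_213⟩, ⟨nat_lit 6, nat_lit 10512, nat_lit 10992, nat_lit 4944, nat_lit 16224, nat_lit 5808, R11_103, R10_338, R14_121⟩]⟩, ⟨nat_lit 6, [⟨nat_lit 4, nat_lit 10416, nat_lit 2832, nat_lit 2880, nat_lit 3216, nat_lit 9600, R1_60, R3_67, R4_200⟩]⟩]⟩], [⟨nat_lit 3, [⟨nat_lit 2, [⟨nat_lit 6, nat_lit 10896, nat_lit 13104, nat_lit 5232, nat_lit 18240, nat_lit 3792, R11_109, R10_380, R12_79⟩]⟩]⟩], [⟨nat_lit 0, [⟨nat_lit 6, [⟨nat_lit 4, nat_lit 10944,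 nat_lit 1392, nat_lit 3696, nat_lit 18000, nat_lit 12144, R2_77, R13_375, R3_253⟩, ⟨nat_lit 5, nat_lit 10992, nat_lit 1632, nat_lit 6672, nat_lit 14928, nat_lit 16656, R2_139, R9_311, R10_347⟩, ⟨nat_lit 7, nat_lit 11040, nat_lit 1488, nat_lit 4560, nat_lit 6912, nat_lit 13104, R2_95, R3_144, R0_273⟩]⟩]⟩,
 ⟨nat_lit 2, [⟨nat_lit 6, [⟨nat_lit 4, nat_lit 11088, nat_lit 10752, nat_lit 4704, nat_lit 14976, nat_lit 14832, R12_98, R3_312, R3_309⟩, ⟨nat_lit 5, nat_lit 11136, nat_lit 11088, nat_lit 5328, nat_lit 13632, nat_lit 17088, R12_111, R0_284, R10_356⟩, ⟨nat_lit 7, nat_lit 11184, nat_lit 10944, nat_lit 4944, nat_lit 17856, nat_lit 13248, R12_103, R10_372, R0_276⟩]⟩]⟩,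
 ⟨nat_lit 3, [⟨nat_lit 2, [⟨nat_lit 4, nat_lit 11328, nat_lit 5280, nat_lit 6192, nat_lit 8112, nat_lit 9408, R11_129, R3_169, R2_196⟩, ⟨nat_lit 5, nat_lit 11376, nat_lit 5328, nat_lit 6432, nat_lit 6144, nat_lit 10224, R11_134, R0_128, R1_213⟩, ⟨nat_lit 6, nat_lit 11424, nat_lit 5520, nat_lit 6288, nat_lit 17184, nat_lit 8976, R11_131, R10_358, R12_187⟩]⟩, ⟨nat_lit 6, [⟨nat_lit 4, nat_lit 11232, nat_lit 6528, nat_lit 3168, nat_lit 9264, nat_lit 15600, R1_66, R3_193, R3_325⟩, ⟨nat_lit 5, nat_lit 11280, nat_lit 6672, nat_lit 5376, nat_lit 3840, nat_lit 17232, R1_112, R0_80, R10_359⟩]⟩]⟩]], [], [], [], [[⟨nat_lit 0, [⟨nat_lit 6, [⟨nat_lit 7, nat_lit 9648, nat_lit 10368, nat_lit 12960, nat_lit 13440, nat_lit 15840, R2_270, R2_280, R5_330⟩]⟩]⟩,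
 ⟨nat_lit 2, [⟨nat_lit 6, [⟨nat_lit 7, nat_lit 9696, nat_lit 10464, nat_lit 13776, nat_lit 14784, nat_lit 15936, R12_287, R1_308, R5_332⟩]⟩]⟩,
 ⟨nat_lit 3, [⟨nat_lit 2, [⟨nat_lit 4, nat_lit 9984, nat_lit 11664, nat_lit 18624, nat_lit 12672, nat_lit 15360, R11_388, R2_264, R7_320⟩, ⟨nat_lit 6, nat_lit 10032, nat_lit 11808, nat_lit 18720, nat_lit 14016, nat_lit 6000, R11_390, R1_292, R14_125⟩]⟩, ⟨nat_lit 6, [⟨nat_lit 4, nat_lit 9744, nat_lit 10320, nat_lit 13344, nat_lit 13824, nat_lit 14016, R1_278, R2_288, R4_292⟩, ⟨nat_lit 7, nat_lit 9792, nat_lit 10416, nat_lit 14304, nat_lit 14496, nat_lit 15888, R1_298, R12_302, R5_331⟩]⟩]⟩,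
 ⟨nat_lit 4, [⟨nat_lit 3, [⟨nat_lit 2, nat_lit 10080, nat_lit 11424, nat_lit 13296, nat_lit 13104, nat_lit 15360, R2_277, R2_273, R5_320⟩]⟩]⟩,
 ⟨nat_lit 6, [⟨nat_lit 3, [⟨nat_lit 2, nat_lit 10128, nat_lit 11520, nat_lit 14640, nat_lit 13872, nat_lit 15744, R1_305, R12_289, R5_328⟩]⟩]⟩,
 ⟨nat_lit 7, [⟨nat_lit 0, [⟨nat_lit 2, nat_lit 9888, nat_lit 10944, nat_lit 13776, nat_lit 13488, nat_lit 13968, R2_287, R1_281, R4_291⟩, ⟨nat_lit 6, nat_lit 9840, nat_lit 10704, nat_lit 12624, nat_lit 18816, nat_lit 15264, R2_263, R11_392, R7_318⟩]⟩, ⟨nat_lit 2, [⟨nat_lit 6, nat_lit 9936, nat_lit 11856, nat_lit 13968, nat_lit 19008, nat_lit 5952, R1_291, R11_396, R14_124⟩]⟩, ⟨nat_lit 3, [⟨nat_lit 2, nat_lit 10176, nat_lit 11472, nat_lit 14304, nat_lit 14448, nat_lit 15648, R12_298, R1_301, R5_326⟩]⟩]⟩], [⟨nat_lit 3, [⟨nat_lit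 2, [⟨nat_lit 6, nat_lit 10704, nat_lit 12240, nat_lit 20880, nat_lit 15120, nat_lit 3984, R11_435, R1_315, R12_83⟩]⟩]⟩,
 ⟨nat_lit 4, [⟨nat_lit 3, [⟨nat_lit 2, nat_lit 10752, nat_lit 12000, nat_lit 13392, nat_lit 13632, nat_lit 13392, R2_279, R2_284, R0_279⟩]⟩]⟩,
 ⟨nat_lit 6, [⟨nat_lit 3, [⟨nat_lit 2, nat_lit 10800, nat_lit 12096, nat_lit 14736, nat_lit 14784, nat_lit 13584, R1_307, R12_308, R0_283⟩]⟩]⟩,
 ⟨nat_lit 7, [⟨nat_lit 0, [⟨nat_lit 2, nat_lit 10608, nat_lit 11328, nat_lit 13872, nat_lit 13632, nat_lit 15648, R2_289, R1_284, R3_326⟩, ⟨nat_lit 6, nat_lit 10560, nat_lit 11088, nat_lit 12768, nat_lit 20976, nat_lit 14352, R2_266, R11_437, R2_299⟩]⟩, ⟨nat_lit 2, [⟨nat_lit 6, nat_lit 10656, nat_lit 12288, nat_lit 14112, nat_lit 21120, nat_lit 3936, R1_294, R11_440, R12_82⟩]⟩, ⟨nat_lit 3, [⟨nat_lit 2, nat_lit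 10848, nat_lit 12048, nat_lit 14352, nat_lit 14976, nat_lit 13680, R12_299, R1_312, R0_285⟩]⟩]⟩], [], [⟨nat_lit 0, [⟨nat_lit 6, [⟨nat_lit 7, nat_lit 11520, nat_lit 12144, nat_lit 13344, nat_lit 13488, nat_lit 19680, R2_278, R2_281, R11_410⟩]⟩]⟩,
 ⟨nat_lit 2, [⟨nat_lit 4, [⟨nat_lit 3, nat_lit 11472, nat_lit 11904, nat_lit 13248, nat_lit 20352, nat_lit 13248, R2_276, R11_424, R2_276⟩]⟩, ⟨nat_lit 6, [⟨nat_lit 3, nat_lit 11616, nat_lit 12240, nat_lit 14448, nat_lit 20544, nat_lit 14592, R12_301, R11_428, R1_304⟩, ⟨nat_lit 7, nat_lit 11568, nat_lit 12288, nat_lit 14400, nat_lit 14832, nat_lit 19968, R12_300, R1_309, R11_416⟩]⟩, ⟨nat_lit 7, [⟨nat_lit 3, nat_lit 11856, nat_lit 11952, nat_lit 14592, nat_lit 20688, nat_lit 14112, R1_304, R11_431, R12_294⟩]⟩]⟩,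
 ⟨nat_lit 3, [⟨nat_lit 2, [⟨nat_lit 4, nat_lit 12000, nat_lit 11712, nat_lit 20160, nat_lit 13488, nat_lit 13344, R11_420, R2_281, R2_278⟩, ⟨nat_lit 6, nat_lit 12048, nat_lit 11808, nat_lit 20256, nat_lit 14832, nat_lit 14256, R11_422, R1_309, R12_297⟩, ⟨nat_lit 7, nat_lit 12096, nat_lit 11760, nat_lit 20208, nat_lit 14640, nat_lit 14688, R11_421, R12_305, R1_306⟩]⟩, ⟨nat_lit 6, [⟨nat_lit 7, nat_lit 11664, nat_lit 12192, nat_lit 14688, nat_lit 14544, nat_lit 20064, R1_306, R12_303, R11_418⟩]⟩]⟩,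
 ⟨nat_lit 4, [⟨nat_lit 3, [⟨nat_lit 2, nat_lit 12144, nat_lit 11520, nat_lit 13344, nat_lit 13488, nat_lit 19680, R2_278, R2_281, R11_410⟩]⟩]⟩,
 ⟨nat_lit 6, [⟨nat_lit 3, [⟨nat_lit 2, nat_lit 12192, nat_lit 11664, nat_lit 14688, nat_lit 14544, nat_lit 20064, R1_306, R12_303, R11_418⟩]⟩, ⟨nat_lit 7, [⟨nat_lit 0, nat_lit 11712, nat_lit 12000, nat_lit 20160, nat_lit 13488, nat_lit 13344, R11_420, R2_281, R2_278⟩, ⟨nat_lit 2, nat_lit 11760, nat_lit 12096, nat_lit 20208, nat_lit 14640, nat_lit 14688, R11_421, R12_305, R1_306⟩, ⟨nat_lit 3, nat_lit 11808, nat_lit 12048, nat_lit 20256, nat_lit 14832, nat_lit 14256, R11_422, R1_309, R12_297⟩]⟩]⟩,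
 ⟨nat_lit 7, [⟨nat_lit 0, [⟨nat_lit 6, nat_lit 11904, nat_lit 11472, nat_lit 13248, nat_lit 20352, nat_lit 13248, R2_276, R11_424, R2_276⟩]⟩, ⟨nat_lit 2, [⟨nat_lit 6, nat_lit 11952, nat_lit 11856, nat_lit 14592, nat_lit 20688, nat_lit 14112, R1_304, R11_431, R12_294⟩]⟩, ⟨nat_lit 3, [⟨nat_lit 2, nat_lit 12288, nat_lit 11568, nat_lit 14400, nat_lit 14832, nat_lit 19968, R12_300, R1_309, R11_416⟩, ⟨nat_lit 6, nat_lit 12240, nat_lit 11616, nat_lit 14448, nat_lit 20544, nat_lit 14592, R12_301, R11_428, R1_304⟩]⟩]⟩]]], [[], [], [], [], [[], [⟨nat_lit 4, [⟨nat_lit 0, [⟨nat_lit 2, nat_lit 12720, nat_lit 2304, nat_lit 1776, nat_lit 3504, nat_lit 11616, R6_37, R7_73, R3_242⟩, ⟨nat_lit 6, nat_lit 12672, nat_lit 2352, nat_lit 3696, nat_lit 3456, nat_lit 1296, R6_77, R4_72, R2_27⟩]⟩, ⟨nat_lit 1, [⟨nat_lit 2, nat_lit 12864,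 nat_lit 2688, nat_lit 720, nat_lit 4464, nat_lit 1056, R8_15, R7_93, R10_22⟩, ⟨nat_lit 6, nat_lit 12816, nat_lit 2736, nat_lit 624, nat_lit 4176, nat_lit 768, R8_13, R4_87, R1_16⟩]⟩, ⟨nat_lit 2, [⟨nat_lit 6, nat_lit 12960, nat_lit 3120, nat_lit 3744, nat_lit 3984, nat_lit 5904, R4_78, R4_83, R12_123⟩]⟩]⟩,
 ⟨nat_lit 6, [⟨nat_lit 0, [⟨nat_lit 2, nat_lit 12768, nat_lit 11184, nat_lit 9744, nat_lit 13056, nat_lit 13920, R4_203, R14_272, R3_290⟩]⟩, ⟨nat_lit 1, [⟨nat_lit 2, nat_lit 12912, nat_lit 11472, nat_lit 5280, nat_lit 13104, nat_lit 1488, R5_110, R14_273, R10_31⟩]⟩]⟩], [], [], [], [⟨nat_lit 4, [⟨nat_lit 1, [⟨nat_lit 2, nat_lit 12336, nat_lit 2688, nat_lit 1104, nat_lit 4320, nat_lit 14160, R8_23, R7_90, R1_295⟩]⟩]⟩,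
 ⟨nat_lit 6, [⟨nat_lit 1, [⟨nat_lit 2, nat_lit 12384, nat_lit 12000, nat_lit 15168, nat_lit 12432, nat_lit 14496, R5_316, R14_259, R1_302⟩]⟩]⟩]], [[], [⟨nat_lit 4, [⟨nat_lit 0, [⟨nat_lit 2, nat_lit 13056, nat_lit 2208, nat_lit 7920, nat_lit 1824, nat_lit 11760, R6_165, R2_38, R3_245⟩, ⟨nat_lit 6, nat_lit 13008, nat_lit 2160, nat_lit 9264, nat_lit 11856, nat_lit 1344, R6_193, R3_247, R2_28⟩]⟩, ⟨nat_lit 1, [⟨nat_lit 2, nat_lit 13296, nat_lit 7104, nat_lit 6096, nat_lit 2880, nat_lit 1104, R8_127, R2_60, R10_23⟩, ⟨nat_lit 6, nat_lit 13248, nat_lit 7056, nat_lit 6000, nat_lit 16992, nat_lit 816, R8_125, R3_354, R1_17⟩]⟩, ⟨nat_lit 2, [⟨nat_lit 6, nat_lit 13488, nat_lit 9840, nat_lit 10080, nat_lit 14208, nat_lit 5952, R4_210, R3_296, R12_124⟩]⟩]⟩,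
 ⟨nat_lit 5, [⟨nat_lit 0, [⟨nat_lit 2, nat_lit 13152, nat_lit 2736, nat_lit 5760, nat_lit 1296, nat_lit 16896, R8_120, R1_27, R3_352⟩, ⟨nat_lit 6, nat_lit 13104, nat_lit 2688, nat_lit 5808, nat_lit 1248, nat_lit 2496, R8_121, R10_26, R2_52⟩]⟩, ⟨nat_lit 1, [⟨nat_lit 2, nat_lit 13392, nat_lit 7488, nat_lit 5328, nat_lit 2352, nat_lit 2112, R9_111, R1_49, R10_44⟩, ⟨nat_lit 6, nat_lit 13344, nat_lit 7440, nat_lit 5232, nat_lit 2208, nat_lit 1968, R9_109, R10_46, R1_41⟩]⟩, ⟨nat_lit 2, [⟨nat_lit 6, nat_lit 13536, nat_lit 10224, nat_lit 5616, nat_lit 1968, nat_lit 6000, R5_117, R10_41, R12_125⟩]⟩]⟩,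
 ⟨nat_lit 6, [⟨nat_lit 0, [⟨nat_lit 2, nat_lit 13200, nat_lit 2880, nat_lit 9984, nat_lit 10320, nat_lit 14112, R4_208, R12_215, R3_294⟩]⟩, ⟨nat_lit 1, [⟨nat_lit 2, nat_lit 13440, nat_lit 7584, nat_lit 5472, nat_lit 10368, nat_lit 1536, R5_114, R12_216, R10_32⟩]⟩]⟩], [], [], [], [⟨nat_lit 4, [⟨nat_lit 1, [⟨nat_lit 2, nat_lit 12432, nat_lit 816, nat_lit 6240, nat_lit 2736, nat_lit 14400, R8_130, R2_57, R1_300⟩]⟩]⟩,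
 ⟨nat_lit 5, [⟨nat_lit 1, [⟨nat_lit 2, nat_lit 12480, nat_lit 6960, nat_lit 5712, nat_lit 2208, nat_lit 14928, R9_119, R1_46, R1_311⟩]⟩]⟩,
 ⟨nat_lit 6, [⟨nat_lit 1, [⟨nat_lit 2, nat_lit 12528, nat_lit 10464, nat_lit 15936, nat_lit 9696, nat_lit 14784, R5_332, R12_202, R1_308⟩]⟩]⟩]], [], [[], [], [], [], [], [⟨nat_lit 4, [⟨nat_lit 1, [⟨nat_lit 2, nat_lit 12576, nat_lit 2784, nat_lit 7008, nat_lit 768, nat_lit 14256, R8_146, R2_16, R1_297⟩]⟩]⟩,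
 ⟨nat_lit 6, [⟨nat_lit 1, [⟨nat_lit 2, nat_lit 12624, nat_lit 11520, nat_lit 15744, nat_lit 2064, nat_lit 14640, R5_328, R12_43, R1_305⟩]⟩]⟩]]], [[], [[], [⟨nat_lit 1, [⟨nat_lit 2, [⟨nat_lit 6, nat_lit 15312, nat_lit 12288, nat_lit 14112, nat_lit 21120, nat_lit 6480, R1_294, R11_440, R12_135⟩]⟩]⟩,
 ⟨nat_lit 5, [⟨nat_lit 0, [⟨nat_lit 6, nat_lit 15168, nat_lit 12144, nat_lit 15600, nat_lit 15072, nat_lit 11184, R5_325, R1_314, R2_233⟩]⟩, ⟨nat_lit 1, [⟨nat_lit 6, nat_lit 15216, nat_lit 12192, nat_lit 13920, nat_lit 15168, nat_lit 11760, R0_290, R1_316, R1_245⟩]⟩, ⟨nat_lit 2, [⟨nat_lit 6, nat_lit 15264, nat_lit 12240, nat_lit 20880, nat_lit 15120, nat_lit 6432, R11_435, R1_315, R12_134⟩]⟩]⟩]], [], [], [], [[], [⟨nat_lit 5, [⟨nat_lit 0, [⟨nat_lit 2, nat_lit 14976, nat_lit 6096, nat_lit 16128, nat_lit 6720, nat_lit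 17232, R5_336, R1_140, R3_359⟩, ⟨nat_lit 6, nat_lit 14928, nat_lit 6144, nat_lit 15552, nat_lit 7536, nat_lit 11232, R5_324, R10_157, R2_234⟩]⟩, ⟨nat_lit 1, [⟨nat_lit 2, nat_lit 15072, nat_lit 6480, nat_lit 3168, nat_lit 7728, nat_lit 12816, R0_66, R1_161, R10_267⟩, ⟨nat_lit 6, nat_lit 15024, nat_lit 6528, nat_lit 3072, nat_lit 8352, nat_lit 11808, R0_64, R10_174, R1_246⟩]⟩, ⟨nat_lit 2, [⟨nat_lit 6, nat_lit 15120, nat_lit 6912, nat_lit 5232, nat_lit 8160, nat_lit 6672, R11_109, R10_170, R12_139⟩]⟩]⟩], [], [], [], [⟨nat_lit 5, [⟨nat_lit 1, [⟨nat_lit 2, nat_lit 14880, nat_lit 5664, nat_lit 3552, nat_lit 7584, nat_lit 15024, R0_74, R1_158, R1_313⟩]⟩]⟩]]], [[], [], [], [], [[], [], [], [], [⟨nat_lit 6, [⟨nat_lit 5, [⟨nat_lit 0, nat_lit 13584, nat_lit 2688, nat_lit 14160, nat_lit 4320, nat_lit 1104, R1_295, R7_90,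 R8_23⟩, ⟨nat_lit 2, nat_lit 13632, nat_lit 12000, nat_lit 14496, nat_lit 13872, nat_lit 15168, R1_302, R14_289, R5_316⟩]⟩]⟩], [⟨nat_lit 4, [⟨nat_lit 1, [⟨nat_lit 2, nat_lit 14016, nat_lit 12912, nat_lit 15072, nat_lit 12768, nat_lit 14208, R5_314, R7_266, R1_296⟩]⟩]⟩,
 ⟨nat_lit 6, [⟨nat_lit 1, [⟨nat_lit 2, nat_lit 14064, nat_lit 15216, nat_lit 19392, nat_lit 14496, nat_lit 14544, R11_404, R14_302, R1_303⟩]⟩, ⟨nat_lit 5, [⟨nat_lit 0, nat_lit 13920, nat_lit 14352, nat_lit 14208, nat_lit 12768, nat_lit 15072, R1_296, R7_266, R5_314⟩, ⟨nat_lit 2, nat_lit 13968, nat_lit 15168, nat_lit 14544, nat_lit 14544, nat_lit 19488, R1_303, R14_303, R11_406⟩]⟩]⟩]], [[], [], [], [], [], [⟨nat_lit 4, [⟨nat_lit 1, [⟨nat_lit 2, nat_lit 14160, nat_lit 10176, nat_lit 15648, nat_lit 11472, nat_lit 14448, R5_326, R2_239, R1_301⟩]⟩]⟩,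
 ⟨nat_lit 5, [⟨nat_lit 1, [⟨nat_lit 2, nat_lit 14208, nat_lit 10848, nat_lit 13680, nat_lit 12048, nat_lit 14976, R0_285, R1_251, R1_312⟩]⟩]⟩,
 ⟨nat_lit 6, [⟨nat_lit 1, [⟨nat_lit 2, nat_lit 14256, nat_lit 12288, nat_lit 19968, nat_lit 11568, nat_lit 14832, R11_416, R12_241, R1_309⟩]⟩, ⟨nat_lit 5, [⟨nat_lit 2, nat_lit 14112, nat_lit 12240, nat_lit 14592, nat_lit 11616, nat_lit 20688, R1_304, R12_242, R11_431⟩]⟩]⟩]], [[], [], [], [], [⟨nat_lit 6, [⟨nat_lit 5, [⟨nat_lit 0, nat_lit 13680, nat_lit 816, nat_lit 14400, nat_lit 2736, nat_lit 6240, R1_300, R2_57, R8_130⟩, ⟨nat_lit 1, nat_lit 13728, nat_lit 6960, nat_lit 14928, nat_lit 2208, nat_lit 14976, R1_311, R1_46, R9_312⟩, ⟨nat_lit 2, nat_lit 13776, nat_lit 10464, nat_lit 14784, nat_lit 9696, nat_lit 15936, R1_308, R12_202, R5_332⟩]⟩]⟩], [⟨nat_lit 6, [⟨nat_lit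 1, [⟨nat_lit 2, nat_lit 14448, nat_lit 12240, nat_lit 20544, nat_lit 11616, nat_lit 14592, R11_428, R12_242, R1_304⟩]⟩, ⟨nat_lit 5, [⟨nat_lit 0, nat_lit 14304, nat_lit 10176, nat_lit 14448, nat_lit 11472, nat_lit 15648, R1_301, R2_239, R5_326⟩, ⟨nat_lit 1, nat_lit 14352, nat_lit 10848, nat_lit 14976, nat_lit 12048, nat_lit 13680, R1_312, R1_251, R0_285⟩, ⟨nat_lit 2, nat_lit 14400, nat_lit 12288, nat_lit 14832, nat_lit 11568, nat_lit 20256, R1_309, R12_241, R11_422⟩]⟩]⟩], [⟨nat_lit 6, [⟨nat_lit 5, [⟨nat_lit 1, nat_lit 14688, nat_lit 5664, nat_lit 15024, nat_lit 7584, nat_lit 3552, R1_313, R1_158, R0_74⟩]⟩]⟩]], [[], [], [], [], [⟨nat_lit 6, [⟨nat_lit 5, [⟨nat_lit 0, nat_lit 13824, nat_lit 2784, nat_lit 14256, nat_lit 768, nat_lit 7008, R1_297, R2_16, R8_146⟩, ⟨nat_lit 2, nat_lit 13872, nat_lit 11520, nat_lit 14640,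 nat_lit 10128, nat_lit 15744, R1_305, R12_211, R5_328⟩]⟩]⟩], [⟨nat_lit 4, [⟨nat_lit 1, [⟨nat_lit 2, nat_lit 14592, nat_lit 2304, nat_lit 15888, nat_lit 10416, nat_lit 14304, R5_331, R2_217, R1_298⟩]⟩]⟩,
 ⟨nat_lit 6, [⟨nat_lit 1, [⟨nat_lit 2, nat_lit 14640, nat_lit 12096, nat_lit 20208, nat_lit 11760, nat_lit 14688, R11_421, R12_245, R1_306⟩]⟩, ⟨nat_lit 5, [⟨nat_lit 0, nat_lit 14496, nat_lit 9792, nat_lit 14304, nat_lit 10416, nat_lit 15888, R1_298, R2_217, R5_331⟩, ⟨nat_lit 2, nat_lit 14544, nat_lit 11664, nat_lit 14688, nat_lit 12192, nat_lit 20064, R1_306, R12_254, R11_418⟩]⟩]⟩], [], [⟨nat_lit 6, [⟨nat_lit 5, [⟨nat_lit 0, nat_lit 14736, nat_lit 2256, nat_lit 14352, nat_lit 6912, nat_lit 14880, R1_299, R2_144, R9_310⟩, ⟨nat_lit 2, nat_lit 14784, nat_lit 12096, nat_lit 14736, nat_lit 10800, nat_lit 13584, R1_307,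 R12_225, R0_283⟩, ⟨nat_lit 3, nat_lit 14832, nat_lit 7632, nat_lit 14880, nat_lit 5616, nat_lit 3504, R1_310, R1_117, R0_73⟩]⟩]⟩]]], [[], [], [], [], [[], [⟨nat_lit 4, [⟨nat_lit 0, [⟨nat_lit 2, nat_lit 15552, nat_lit 2688, nat_lit 16608, nat_lit 9648, nat_lit 11952, R13_346, R7_201, R3_249⟩, ⟨nat_lit 6, nat_lit 15504, nat_lit 480, nat_lit 18432, nat_lit 9504, nat_lit 8352, R13_384, R4_198, R2_174⟩]⟩, ⟨nat_lit 1, [⟨nat_lit 2, nat_lit 15744, nat_lit 3072, nat_lit 14208, nat_lit 11328, nat_lit 10560, R9_296, R7_236, R10_220⟩, ⟨nat_lit 6, nat_lit 15696, nat_lit 672, nat_lit 15120, nat_lit 10512, nat_lit 9168, R9_315, R4_219, R1_191⟩]⟩, ⟨nat_lit 2, [⟨nat_lit 6, nat_lit 15888, nat_lit 864, nat_lit 14016, nat_lit 10320, nat_lit 6048, R3_292, R4_215, R12_126⟩]⟩, ⟨nat_lit 3, [⟨nat_lit 2, nat_lit 15984, nat_lit 2880,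 nat_lit 1824, nat_lit 10512, nat_lit 13296, R3_38, R7_219, R0_277⟩]⟩]⟩,
 ⟨nat_lit 6, [⟨nat_lit 0, [⟨nat_lit 2, nat_lit 15600, nat_lit 13920, nat_lit 14736, nat_lit 13440, nat_lit 14640, R3_307, R14_280, R3_305⟩]⟩, ⟨nat_lit 1, [⟨nat_lit 2, nat_lit 15792, nat_lit 14208, nat_lit 12912, nat_lit 13536, nat_lit 11232, R0_269, R14_282, R10_234⟩]⟩, ⟨nat_lit 3, [⟨nat_lit 2, nat_lit 16032, nat_lit 14112, nat_lit 16128, nat_lit 13488, nat_lit 13488, R10_336, R14_281, R0_281⟩]⟩]⟩,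
 ⟨nat_lit 7, [⟨nat_lit 0, [⟨nat_lit 6, nat_lit 15648, nat_lit 7440, nat_lit 7728, nat_lit 6960, nat_lit 9072, R3_161, R5_145, R2_189⟩]⟩, ⟨nat_lit 1, [⟨nat_lit 6, nat_lit 15840, nat_lit 7632, nat_lit 864, nat_lit 7248, nat_lit 9888, R0_18, R5_151, R1_206⟩]⟩, ⟨nat_lit 2, [⟨nat_lit 6, nat_lit 15936, nat_lit 7824, nat_lit 16944, nat_lit 7056, nat_lit 6096, R10_353, R5_147, R12_127⟩]⟩]⟩]], [[], [⟨nat_lit 4, [⟨nat_lit 0, [⟨nat_lit 2, nat_lit 16128, nat_lit 10656, nat_lit 17328, nat_lit 8688, nat_lit 12240, R13_361, R2_181, R3_255⟩, ⟨nat_lit 6, nat_lit 16080, nat_lit 10512, nat_lit 18912, nat_lit 12288, nat_lit 8400, R13_394, R3_256, R2_175⟩]⟩, ⟨nat_lit 1, [⟨nat_lit 2, nat_lit 16416, nat_lit 10896, nat_lit 14544, nat_lit 10224, nat_lit 10656, R9_303, R2_213, R10_222⟩, ⟨nat_lit 6, nat_lit 16368, nat_lit 10800, nat_lit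 15312, nat_lit 17136, nat_lit 9216, R9_319, R3_357, R1_192⟩]⟩, ⟨nat_lit 2, [⟨nat_lit 6, nat_lit 16560, nat_lit 11136, nat_lit 14880, nat_lit 15024, nat_lit 6192, R3_310, R3_313, R12_129⟩]⟩, ⟨nat_lit 3, [⟨nat_lit 2, nat_lit 16704, nat_lit 10992, nat_lit 8400, nat_lit 9600, nat_lit 13440, R3_175, R2_200, R0_280⟩]⟩]⟩,
 ⟨nat_lit 5, [⟨nat_lit 0, [⟨nat_lit 2, nat_lit 16224, nat_lit 10704, nat_lit 15264, nat_lit 9504, nat_lit 17088, R9_318, R1_198, R3_356⟩, ⟨nat_lit 6, nat_lit 16176, nat_lit 10560, nat_lit 14496, nat_lit 10800, nat_lit 10128, R9_302, R10_225, R2_211⟩]⟩, ⟨nat_lit 2, [⟨nat_lit 6, nat_lit 16608, nat_lit 11184, nat_lit 13200, nat_lit 11712, nat_lit 6288, R0_275, R10_244, R12_131⟩]⟩, ⟨nat_lit 3, [⟨nat_lit 2, nat_lit 16752, nat_lit 11040, nat_lit 8928, nat_lit 10416, nat_lit 13728, R0_186, R1_217, R0_286⟩]⟩]⟩,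
 ⟨nat_lit 6, [⟨nat_lit 0, [⟨nat_lit 2, nat_lit 16272, nat_lit 10752, nat_lit 14832, nat_lit 11088, nat_lit 14976, R3_309, R12_231, R3_312⟩]⟩, ⟨nat_lit 1, [⟨nat_lit 2, nat_lit 16464, nat_lit 10944, nat_lit 13248, nat_lit 11184, nat_lit 11328, R0_276, R12_233, R10_236⟩]⟩, ⟨nat_lit 3, [⟨nat_lit 2, nat_lit 16800, nat_lit 11088, nat_lit 17088, nat_lit 11136, nat_lit 13632, R10_356, R12_232, R0_284⟩]⟩]⟩,
 ⟨nat_lit 7, [⟨nat_lit 0, [⟨nat_lit 6, nat_lit 16320, nat_lit 10608, nat_lit 8304, nat_lit 13776, nat_lit 9168, R3_173, R0_287, R2_191⟩]⟩, ⟨nat_lit 1, [⟨nat_lit 6, nat_lit 16512, nat_lit 10848, nat_lit 8976, nat_lit 13872, nat_lit 9984, R0_187, R0_289, R1_208⟩]⟩, ⟨nat_lit 2, [⟨nat_lit 6, nat_lit 16656, nat_lit 11232, nat_lit 17040, nat_lit 13824, nat_lit 6240, R10_355, R0_288, R12_130⟩]⟩]⟩]], [], [[], [⟨nat_lit 4,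 [⟨nat_lit 0, [⟨nat_lit 2, nat_lit 16848, nat_lit 16896, nat_lit 17904, nat_lit 3840, nat_lit 12096, R13_373, R2_80, R3_252⟩]⟩, ⟨nat_lit 1, [⟨nat_lit 2, nat_lit 17040, nat_lit 17088, nat_lit 14832, nat_lit 6816, nat_lit 10608, R9_309, R2_142, R10_221⟩]⟩, ⟨nat_lit 3, [⟨nat_lit 2, nat_lit 17280, nat_lit 17232, nat_lit 6768, nat_lit 4656, nat_lit 13344, R3_141, R2_97, R0_278⟩]⟩]⟩,
 ⟨nat_lit 6, [⟨nat_lit 0, [⟨nat_lit 2, nat_lit 16896, nat_lit 16992, nat_lit 14784, nat_lit 5424, nat_lit 14784, R3_308, R12_113, R3_308⟩]⟩, ⟨nat_lit 1, [⟨nat_lit 2, nat_lit 17088, nat_lit 17184, nat_lit 13536, nat_lit 5856, nat_lit 11280, R0_282, R12_122, R10_235⟩]⟩, ⟨nat_lit 3, [⟨nat_lit 2, nat_lit 17328, nat_lit 17280, nat_lit 17760, nat_lit 5616, nat_lit 13536, R10_370, R12_117, R0_282⟩]⟩]⟩,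
 ⟨nat_lit 7, [⟨nat_lit 0, [⟨nat_lit 2, nat_lit 16992, nat_lit 16944, nat_lit 9216, nat_lit 3312, nat_lit 15552, R3_192, R1_69, R3_324⟩, ⟨nat_lit 6, nat_lit 16944, nat_lit 16848, nat_lit 8016, nat_lit 6576, nat_lit 9120, R3_167, R11_137, R2_190⟩]⟩, ⟨nat_lit 1, [⟨nat_lit 2, nat_lit 17184, nat_lit 17136, nat_lit 3744, nat_lit 5520, nat_lit 10896, R0_78, R1_115, R10_227⟩, ⟨nat_lit 6, nat_lit 17136, nat_lit 17040, nat_lit 6096, nat_lit 6864, nat_lit 9936, R0_127, R11_143, R1_207⟩]⟩, ⟨nat_lit 2, [⟨nat_lit 6, nat_lit 17232, nat_lit 17328, nat_lit 16992, nat_lit 6672, nat_lit 6144, R10_354, R11_139, R12_128⟩]⟩]⟩], [], [], [], [⟨nat_lit 4, [⟨nat_lit 1, [⟨nat_lit 2, nat_lit 15360, nat_lit 2256, nat_lit 14880, nat_lit 6912, nat_lit 14352, R9_310, R2_144, R1_299⟩]⟩]⟩,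
 ⟨nat_lit 6, [⟨nat_lit 1, [⟨nat_lit 2, nat_lit 15408, nat_lit 12096, nat_lit 13584, nat_lit 6576, nat_lit 14736, R0_283, R12_137, R1_307⟩]⟩]⟩,
 ⟨nat_lit 7, [⟨nat_lit 1, [⟨nat_lit 2, nat_lit 15456, nat_lit 7632, nat_lit 3504, nat_lit 5616, nat_lit 14880, R0_73, R1_117, R1_310⟩]⟩]⟩]]]]
noncomputable def N2455 : T3 (List N0) := [[[[⟨nat_lit 1, [⟨nat_lit 5, [⟨nat_lit 4, nat_lit 3264, nat_lit 8640, nat_lit 7728, nat_lit 2208, nat_lit 3456, R13_161, R4_46, R7_72⟩, ⟨nat_lit 5, nat_lit 3360, nat_lit 8784, nat_lit 7824, nat_lit 2064, nat_lit 1776, R13_163, R3_43, R2_37⟩]⟩]⟩], [⟨nat_lit 1, [⟨nat_lit 4, [⟨nat_lit 4, nat_lit 3120, nat_lit 8736, nat_lit 12576, nat_lit 10992, nat_lit 15936, R6_262, R4_229, R7_332⟩]⟩, ⟨nat_lit 5, [⟨nat_lit 4, nat_lit 3312, nat_lit 9264, nat_lit 7776, nat_lit 11088, nat_lit 12960, R13_162,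 R4_231, R14_270⟩, ⟨nat_lit 5, nat_lit 3408, nat_lit 9408, nat_lit 7872, nat_lit 2784, nat_lit 10224, R13_164, R3_58, R12_213⟩]⟩]⟩], [⟨nat_lit 1, [⟨nat_lit 5, [⟨nat_lit 5, nat_lit 3456, nat_lit 5568, nat_lit 7920, nat_lit 2304, nat_lit 1248, R13_165, R3_48, R1_26⟩]⟩]⟩]], [], [[], [], [⟨nat_lit 1, [⟨nat_lit 5, [⟨nat_lit 5, nat_lit 3504, nat_lit 14592, nat_lit 8352, nat_lit 2256, nat_lit 6672, R13_174, R10_47, R1_139⟩]⟩]⟩]], [[⟨nat_lit 1, [⟨nat_lit 5, [⟨nat_lit 4, nat_lit 3552, nat_lit 15840, nat_lit 7968, nat_lit 2592, nat_lit 9600, R13_166, R5_54, R7_200⟩, ⟨nat_lit 5, nat_lit 3648, nat_lit 15936, nat_lit 8208, nat_lit 1296, nat_lit 8640, R13_171, R0_27, R2_180⟩, ⟨nat_lit 7, nat_lit 3792, nat_lit 15888, nat_lit 8064, nat_lit 2592, nat_lit 3792, R13_168, R11_54, R2_79⟩]⟩]⟩], [⟨nat_lit 1, [⟨nat_lit 4, [⟨nat_lit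 4, nat_lit 3168, nat_lit 11136, nat_lit 12624, nat_lit 12816, nat_lit 15984, R6_263, R5_267, R7_333⟩, ⟨nat_lit 7, nat_lit 3216, nat_lit 11184, nat_lit 12672, nat_lit 2544, nat_lit 14592, R6_264, R11_53, R2_304⟩]⟩, ⟨nat_lit 5, [⟨nat_lit 4, nat_lit 3600, nat_lit 12048, nat_lit 8016, nat_lit 13824, nat_lit 13296, R13_167, R5_288, R14_277⟩, ⟨nat_lit 5, nat_lit 3696, nat_lit 12144, nat_lit 8256, nat_lit 1392, nat_lit 10944, R13_172, R0_29, R12_228⟩, ⟨nat_lit 7, nat_lit 3840, nat_lit 12096, nat_lit 8112, nat_lit 2688, nat_lit 5376, R13_169, R11_56, R12_112⟩]⟩]⟩], [⟨nat_lit 1, [⟨nat_lit 5, [⟨nat_lit 5, nat_lit 3744, nat_lit 13680, nat_lit 8304, nat_lit 1344, nat_lit 9456, R13_173, R0_28, R1_197⟩]⟩]⟩], [⟨nat_lit 1, [⟨nat_lit 5, [⟨nat_lit 7, nat_lit 3888, nat_lit 8976, nat_lit 8160, nat_lit 2640, nat_lit 3264, R13_170,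 R11_55, R1_68⟩]⟩]⟩]], [], [], [], [[], [], [], [⟨nat_lit 0, [⟨nat_lit 5, [⟨nat_lit 7, nat_lit 0, nat_lit 12048, nat_lit 6768, nat_lit 1008, nat_lit 13440, R6_141, R2_21, R1_280⟩]⟩]⟩,
 ⟨nat_lit 1, [⟨nat_lit 5, [⟨nat_lit 7, nat_lit 3936, nat_lit 12336, nat_lit 7680, nat_lit 336, nat_lit 13584, R13_160, R1_7, R1_283⟩]⟩]⟩]]], [[[⟨nat_lit 1, [⟨nat_lit 5, [⟨nat_lit 4, nat_lit 4128, nat_lit 672, nat_lit 6384, nat_lit 2640, nat_lit 4416, R3_133, R4_55, R7_92⟩, ⟨nat_lit 5, nat_lit 4224, nat_lit 6048, nat_lit 6480, nat_lit 7008, nat_lit 2832, R3_135, R3_146, R2_59⟩]⟩]⟩,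
 ⟨nat_lit 5, [⟨nat_lit 5, [⟨nat_lit 4, nat_lit 12816, nat_lit 1008, nat_lit 12816, nat_lit 2592, nat_lit 4272, R2_267, R7_54, R7_89⟩, ⟨nat_lit 5, nat_lit 12912, nat_lit 6144, nat_lit 13056, nat_lit 720, nat_lit 2688, R2_272, R2_15, R2_56⟩, ⟨nat_lit 7, nat_lit 13056, nat_lit 6912, nat_lit 12912, nat_lit 2688, nat_lit 720, R2_269, R2_56, R2_15⟩]⟩]⟩], [⟨nat_lit 1, [⟨nat_lit 4, [⟨nat_lit 4, nat_lit 3984, nat_lit 5184, nat_lit 12912, nat_lit 11376, nat_lit 16656, R4_269, R4_237, R7_347⟩]⟩, ⟨nat_lit 5, [⟨nat_lit 4, nat_lit 4176, nat_lit 5232, nat_lit 6432, nat_lit 11424, nat_lit 13008, R3_134, R4_238, R14_271⟩, ⟨nat_lit 5, nat_lit 4272, nat_lit 5424, nat_lit 6528, nat_lit 7536, nat_lit 10272, R3_136, R3_157, R12_214⟩]⟩]⟩,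
 ⟨nat_lit 5, [⟨nat_lit 4, [⟨nat_lit 4, nat_lit 12480, nat_lit 14832, nat_lit 13872, nat_lit 11808, nat_lit 12144, R7_289, R7_246, R7_253⟩, ⟨nat_lit 7, nat_lit 12528, nat_lit 15312, nat_lit 14016, nat_lit 10992, nat_lit 11568, R7_292, R2_229, R2_241⟩]⟩, ⟨nat_lit 5, [⟨nat_lit 4, nat_lit 12864, nat_lit 14880, nat_lit 13152, nat_lit 11904, nat_lit 12384, R2_274, R7_248, R14_258⟩, ⟨nat_lit 5, nat_lit 12960, nat_lit 15840, nat_lit 13440, nat_lit 10368, nat_lit 9648, R2_280, R2_216, R12_201⟩, ⟨nat_lit 7, nat_lit 13104, nat_lit 15360, nat_lit 13296, nat_lit 11424, nat_lit 2016, R2_277, R2_238, R12_42⟩]⟩]⟩], [⟨nat_lit 1, [⟨nat_lit 5, [⟨nat_lit 5, nat_lit 4320, nat_lit 4944, nat_lit 6576, nat_lit 7200, nat_lit 2304, R3_137, R3_150, R1_48⟩]⟩]⟩,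
 ⟨nat_lit 5, [⟨nat_lit 5, [⟨nat_lit 5, nat_lit 13008, nat_lit 14688, nat_lit 13584, nat_lit 6864, nat_lit 2160, R2_283, R2_143, R1_45⟩]⟩]⟩]], [[⟨nat_lit 5, [⟨nat_lit 5, [⟨nat_lit 4, nat_lit 13152, nat_lit 14880, nat_lit 12864, nat_lit 12816, nat_lit 12720, R2_268, R14_267, R7_265⟩, ⟨nat_lit 5, nat_lit 13296, nat_lit 15360, nat_lit 13104, nat_lit 10080, nat_lit 11424, R2_273, R12_210, R2_238⟩, ⟨nat_lit 7, nat_lit 13440, nat_lit 15840, nat_lit 12960, nat_lit 2208, nat_lit 10368, R2_270, R12_46, R2_216⟩]⟩]⟩], [⟨nat_lit 5, [⟨nat_lit 4, [⟨nat_lit 4, nat_lit 12576, nat_lit 18384, nat_lit 13920, nat_lit 14256, nat_lit 12192, R7_290, R14_297, R7_254⟩, ⟨nat_lit 6, nat_lit 12624, nat_lit 18816, nat_lit 13968, nat_lit 9840, nat_lit 10704, R7_291, R12_205, R2_223⟩, ⟨nat_lit 7, nat_lit 12672, nat_lit 18624, nat_lit 14064,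 nat_lit 9984, nat_lit 11664, R7_293, R12_208, R2_243⟩]⟩, ⟨nat_lit 5, [⟨nat_lit 4, nat_lit 13200, nat_lit 19200, nat_lit 13200, nat_lit 15072, nat_lit 14448, R2_275, R14_314, R14_301⟩, ⟨nat_lit 5, nat_lit 13344, nat_lit 19680, nat_lit 13488, nat_lit 12144, nat_lit 11520, R2_281, R12_253, R12_240⟩, ⟨nat_lit 6, nat_lit 13248, nat_lit 20352, nat_lit 13248, nat_lit 11904, nat_lit 11472, R2_276, R12_248, R12_239⟩, ⟨nat_lit 7, nat_lit 13488, nat_lit 20160, nat_lit 13344, nat_lit 12000, nat_lit 11712, R2_278, R12_250, R12_244⟩]⟩, ⟨nat_lit 6, [⟨nat_lit 6, nat_lit 12768, nat_lit 20976, nat_lit 14352, nat_lit 10560, nat_lit 11088, R2_299, R12_220, R1_231⟩]⟩]⟩], [⟨nat_lit 5, [⟨nat_lit 5, [⟨nat_lit 5, nat_lit 13392, nat_lit 13392, nat_lit 13632, nat_lit 10752, nat_lit 12000, R2_284, R12_224, R1_250⟩]⟩]⟩]], [[], [], [⟨nat_lit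 1, [⟨nat_lit 5, [⟨nat_lit 5, nat_lit 4368, nat_lit 3120, nat_lit 6960, nat_lit 2304, nat_lit 7680, R3_145, R10_48, R1_160⟩]⟩]⟩,
 ⟨nat_lit 5, [⟨nat_lit 5, [⟨nat_lit 5, nat_lit 13536, nat_lit 3456, nat_lit 13680, nat_lit 5568, nat_lit 7536, R2_285, R1_116, R1_157⟩]⟩]⟩]], [[⟨nat_lit 1, [⟨nat_lit 5, [⟨nat_lit 4, nat_lit 4416, nat_lit 14064, nat_lit 6624, nat_lit 3024, nat_lit 11280, R3_138, R5_63, R7_235⟩, ⟨nat_lit 5, nat_lit 4512, nat_lit 14400, nat_lit 6864, nat_lit 1440, nat_lit 10176, R3_143, R0_30, R2_212⟩, ⟨nat_lit 7, nat_lit 4608, nat_lit 14640, nat_lit 6720, nat_lit 2784, nat_lit 6768, R3_140, R11_58, R2_141⟩]⟩]⟩,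
 ⟨nat_lit 5, [⟨nat_lit 5, [⟨nat_lit 7, nat_lit 13584, nat_lit 14688, nat_lit 13008, nat_lit 2160, nat_lit 6864, R2_271, R1_45, R2_143⟩]⟩]⟩], [⟨nat_lit 1, [⟨nat_lit 4, [⟨nat_lit 4, nat_lit 4032, nat_lit 12192, nat_lit 12960, nat_lit 13056, nat_lit 16704, R4_270, R5_272, R7_348⟩, ⟨nat_lit 7, nat_lit 4080, nat_lit 12384, nat_lit 13008, nat_lit 2736, nat_lit 15648, R4_271, R11_57, R2_326⟩]⟩, ⟨nat_lit 5, [⟨nat_lit 4, nat_lit 4464, nat_lit 12768, nat_lit 6672, nat_lit 14160, nat_lit 13392, R3_139, R5_295, R14_279⟩, ⟨nat_lit 5, nat_lit 4560, nat_lit 13104, nat_lit 6912, nat_lit 1488, nat_lit 11040, R3_144, R0_31, R12_230⟩, ⟨nat_lit 7, nat_lit 4656, nat_lit 13344, nat_lit 6768, nat_lit 2880, nat_lit 5808, R3_141, R11_60, R12_121⟩]⟩]⟩,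
 ⟨nat_lit 5, [⟨nat_lit 4, [⟨nat_lit 7, nat_lit 12720, nat_lit 12432, nat_lit 14112, nat_lit 11568, nat_lit 11616, R7_294, R1_241, R2_242⟩]⟩, ⟨nat_lit 5, [⟨nat_lit 7, nat_lit 13632, nat_lit 13392, nat_lit 13392, nat_lit 12000, nat_lit 6528, R2_279, R1_250, R12_136⟩]⟩]⟩]]], [[[⟨nat_lit 1, [⟨nat_lit 1, [⟨nat_lit 4, nat_lit 5232, nat_lit 3696, nat_lit 5808, nat_lit 3024, nat_lit 3936, R2_121, R4_63, R4_82⟩, ⟨nat_lit 5, nat_lit 5280, nat_lit 10032, nat_lit 5856, nat_lit 9648, nat_lit 13824, R2_122, R3_201, R3_288⟩]⟩, ⟨nat_lit 5, [⟨nat_lit 4, nat_lit 4752, nat_lit 1632, nat_lit 13104, nat_lit 2928, nat_lit 3936, R3_273, R4_61, R7_82⟩, ⟨nat_lit 5, nat_lit 4800, nat_lit 8352, nat_lit 13248, nat_lit 9696, nat_lit 2304, R3_276, R3_202, R2_48⟩]⟩]⟩], [], [⟨nat_lit 1, [⟨nat_lit 1, [⟨nat_lit 5, nat_lit 5328, nat_lit 5520,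 nat_lit 5904, nat_lit 9888, nat_lit 13824, R2_123, R3_206, R10_288⟩]⟩, ⟨nat_lit 5, [⟨nat_lit 5, nat_lit 4848, nat_lit 5664, nat_lit 13440, nat_lit 9936, nat_lit 1776, R3_280, R3_207, R1_37⟩]⟩]⟩]], [], [[], [], [⟨nat_lit 1, [⟨nat_lit 1, [⟨nat_lit 1, nat_lit 5424, nat_lit 17664, nat_lit 6288, nat_lit 2400, nat_lit 12528, R2_131, R1_50, R1_261⟩, ⟨nat_lit 5, nat_lit 5376, nat_lit 17616, nat_lit 6336, nat_lit 2352, nat_lit 13872, R2_132, R10_49, R10_289⟩]⟩, ⟨nat_lit 5, [⟨nat_lit 5, nat_lit 4896, nat_lit 18096, nat_lit 13536, nat_lit 2400, nat_lit 7200, R3_282, R10_50, R1_150⟩]⟩]⟩], [], [], [], [⟨nat_lit 1, [⟨nat_lit 1, [⟨nat_lit 1, nat_lit 5472, nat_lit 12480, nat_lit 6240, nat_lit 2448, nat_lit 17856, R2_130, R1_51, R11_372⟩]⟩]⟩]], [[⟨nat_lit 1, [⟨nat_lit 1, [⟨nat_lit 4, nat_lit 5520, nat_lit 13680, nat_lit 5952,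 nat_lit 768, nat_lit 10272, R2_124, R5_16, R4_214⟩]⟩, ⟨nat_lit 5, [⟨nat_lit 4, nat_lit 4944, nat_lit 12432, nat_lit 13152, nat_lit 3168, nat_lit 10944, R3_274, R5_66, R7_228⟩, ⟨nat_lit 7, nat_lit 5088, nat_lit 13200, nat_lit 13200, nat_lit 3168, nat_lit 5088, R3_275, R11_66, R2_106⟩]⟩]⟩], [], [⟨nat_lit 1, [⟨nat_lit 1, [⟨nat_lit 5, nat_lit 5664, nat_lit 11424, nat_lit 6192, nat_lit 1728, nat_lit 13920, R2_129, R0_36, R10_290⟩]⟩, ⟨nat_lit 5, [⟨nat_lit 5, nat_lit 5040, nat_lit 11808, nat_lit 13488, nat_lit 1872, nat_lit 10752, R3_281, R0_39, R1_224⟩]⟩]⟩], [⟨nat_lit 1, [⟨nat_lit 1, [⟨nat_lit 4, nat_lit 5568, nat_lit 13584, nat_lit 6000, nat_lit 7728, nat_lit 7008, R2_125, R5_161, R5_146⟩, ⟨nat_lit 7, nat_lit 5760, nat_lit 13632, nat_lit 6048, nat_lit 3120, nat_lit 17808, R2_126, R11_65, R11_371⟩]⟩, ⟨nat_lit 5, [⟨nat_lit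 7, nat_lit 5136, nat_lit 14160, nat_lit 13344, nat_lit 3216, nat_lit 3792, R3_278, R11_67, R1_79⟩]⟩]⟩]], [[], [], [], [], [⟨nat_lit 0, [⟨nat_lit 1, [⟨nat_lit 0, nat_lit 96, nat_lit 3600, nat_lit 7008, nat_lit 3312, nat_lit 3504, R7_146, R6_69, R4_73⟩, ⟨nat_lit 3, nat_lit 144, nat_lit 9888, nat_lit 7056, nat_lit 12960, nat_lit 13728, R7_147, R13_270, R3_286⟩]⟩]⟩,
 ⟨nat_lit 1, [⟨nat_lit 1, [⟨nat_lit 0, nat_lit 5808, nat_lit 3696, nat_lit 5232, nat_lit 3024, nat_lit 3936, R2_109, R4_63, R4_82⟩, ⟨nat_lit 3, nat_lit 5856, nat_lit 10032, nat_lit 5280, nat_lit 9648, nat_lit 13824, R2_110, R3_201, R3_288⟩]⟩]⟩,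
 ⟨nat_lit 2, [⟨nat_lit 1, [⟨nat_lit 0, nat_lit 7104, nat_lit 3840, nat_lit 7104, nat_lit 3024, nat_lit 3840, R2_148, R8_63, R4_80⟩, ⟨nat_lit 3, nat_lit 7152, nat_lit 10176, nat_lit 7248, nat_lit 10176, nat_lit 13776, R2_151, R9_212, R3_287⟩]⟩]⟩], [], [], [⟨nat_lit 0, [⟨nat_lit 1, [⟨nat_lit 3, nat_lit 192, nat_lit 4896, nat_lit 7104, nat_lit 13152, nat_lit 13296, R7_148, R13_274, R10_277⟩]⟩]⟩,
 ⟨nat_lit 1, [⟨nat_lit 1, [⟨nat_lit 3, nat_lit 5904, nat_lit 5520, nat_lit 5328, nat_lit 9888, nat_lit 13824, R2_111, R3_206, R10_288⟩]⟩]⟩,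
 ⟨nat_lit 2, [⟨nat_lit 1, [⟨nat_lit 3, nat_lit 7200, nat_lit 6624, nat_lit 7296, nat_lit 10464, nat_lit 13728, R2_152, R9_218, R10_286⟩]⟩]⟩]], [], [[], [], [], [], [⟨nat_lit 0, [⟨nat_lit 1, [⟨nat_lit 0, nat_lit 240, nat_lit 13632, nat_lit 7296, nat_lit 9456, nat_lit 9792, R7_152, R8_197, R4_204⟩, ⟨nat_lit 3, nat_lit 384, nat_lit 14400, nat_lit 7392, nat_lit 3216, nat_lit 14496, R7_154, R9_67, R3_302⟩]⟩]⟩,
 ⟨nat_lit 1, [⟨nat_lit 1, [⟨nat_lit 0, nat_lit 5952, nat_lit 13680, nat_lit 5520, nat_lit 768, nat_lit 10272, R2_115, R5_16, R4_214⟩]⟩]⟩,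
 ⟨nat_lit 2, [⟨nat_lit 1, [⟨nat_lit 0, nat_lit 7248, nat_lit 13776, nat_lit 7152, nat_lit 1728, nat_lit 10176, R2_149, R9_36, R4_212⟩]⟩]⟩], [], [⟨nat_lit 0, [⟨nat_lit 1, [⟨nat_lit 0, nat_lit 288, nat_lit 13440, nat_lit 7344, nat_lit 9984, nat_lit 6096, R7_153, R8_208, R5_127⟩, ⟨nat_lit 1, nat_lit 336, nat_lit 13488, nat_lit 7536, nat_lit 3120, nat_lit 17472, R7_157, R5_65, R11_364⟩]⟩]⟩,
 ⟨nat_lit 1, [⟨nat_lit 1, [⟨nat_lit 0, nat_lit 6000, nat_lit 13584, nat_lit 5568, nat_lit 7728, nat_lit 7008, R2_116, R5_161, R5_146⟩, ⟨nat_lit 1, nat_lit 6048, nat_lit 13632, nat_lit 5760, nat_lit 3120, nat_lit 17808, R2_120, R11_65, R11_371⟩]⟩]⟩,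
 ⟨nat_lit 2, [⟨nat_lit 1, [⟨nat_lit 0, nat_lit 7296, nat_lit 13728, nat_lit 7200, nat_lit 7632, nat_lit 6624, R2_150, R9_159, R5_138⟩]⟩]⟩]], [[], [], [], [⟨nat_lit 0, [⟨nat_lit 1, [⟨nat_lit 7, nat_lit 528, nat_lit 12384, nat_lit 7248, nat_lit 2976, nat_lit 17760, R7_151, R2_62, R11_370⟩]⟩, ⟨nat_lit 5, [⟨nat_lit 7, nat_lit 48, nat_lit 12624, nat_lit 7344, nat_lit 3024, nat_lit 15360, R4_153, R2_63, R1_320⟩]⟩]⟩,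
 ⟨nat_lit 1, [⟨nat_lit 1, [⟨nat_lit 7, nat_lit 6240, nat_lit 12480, nat_lit 5472, nat_lit 2448, nat_lit 17856, R2_114, R1_51, R11_372⟩]⟩, ⟨nat_lit 5, [⟨nat_lit 7, nat_lit 5184, nat_lit 12912, nat_lit 13392, nat_lit 2496, nat_lit 15456, R3_279, R1_52, R1_322⟩]⟩]⟩], [], [], [], [⟨nat_lit 0, [⟨nat_lit 1, [⟨nat_lit 3, nat_lit 624, nat_lit 17520, nat_lit 7152, nat_lit 10752, nat_lit 13344, R7_149, R3_224, R10_278⟩, ⟨nat_lit 7, nat_lit 576, nat_lit 17568, nat_lit 7200, nat_lit 2928, nat_lit 12432, R7_150, R2_61, R1_259⟩]⟩]⟩,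
 ⟨nat_lit 1, [⟨nat_lit 1, [⟨nat_lit 3, nat_lit 6336, nat_lit 17616, nat_lit 5376, nat_lit 2352, nat_lit 13872, R2_112, R10_49, R10_289⟩, ⟨nat_lit 7, nat_lit 6288, nat_lit 17664, nat_lit 5424, nat_lit 2400, nat_lit 12528, R2_113, R1_50, R1_261⟩]⟩]⟩]]], [[], [], [], [[⟨nat_lit 1, [⟨nat_lit 5, [⟨nat_lit 4, nat_lit 6528, nat_lit 1776, nat_lit 5760, nat_lit 2784, nat_lit 10464, R9_120, R5_58, R7_218⟩, ⟨nat_lit 5, nat_lit 6624, nat_lit 8352, nat_lit 5952, nat_lit 1536, nat_lit 9552, R9_124, R0_32, R2_199⟩, ⟨nat_lit 7, nat_lit 6768, nat_lit 6720, nat_lit 5856, nat_lit 3024, nat_lit 4608, R9_122, R11_63, R2_96⟩]⟩]⟩], [⟨nat_lit 1, [⟨nat_lit 4, [⟨nat_lit 4, nat_lit 6384, nat_lit 14496, nat_lit 13248, nat_lit 12960, nat_lit 16224, R8_276, R5_270, R7_338⟩, ⟨nat_lit 7, nat_lit 6432, nat_lit 15024, nat_lit 13296, nat_lit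 2928, nat_lit 15168, R8_277, R11_61, R2_316⟩]⟩, ⟨nat_lit 5, [⟨nat_lit 4, nat_lit 6576, nat_lit 15792, nat_lit 5808, nat_lit 14016, nat_lit 13344, R9_121, R5_292, R14_278⟩, ⟨nat_lit 5, nat_lit 6672, nat_lit 16656, nat_lit 6000, nat_lit 1632, nat_lit 10992, R9_125, R0_34, R12_229⟩, ⟨nat_lit 7, nat_lit 6816, nat_lit 17520, nat_lit 5904, nat_lit 3072, nat_lit 5568, R9_123, R11_64, R12_116⟩]⟩, ⟨nat_lit 7, [⟨nat_lit 7, nat_lit 7008, nat_lit 18528, nat_lit 5952, nat_lit 2976, nat_lit 16176, R5_124, R11_62, R1_337⟩]⟩]⟩], [⟨nat_lit 1, [⟨nat_lit 5, [⟨nat_lit 5, nat_lit 6720, nat_lit 8640, nat_lit 6048, nat_lit 1584, nat_lit 10368, R9_126, R0_33, R1_216⟩]⟩]⟩]], [], [], [], [[⟨nat_lit 0, [⟨nat_lit 5, [⟨nat_lit 7, nat_lit 720, nat_lit 12912, nat_lit 6144, nat_lit 2688, nat_lit 13056, R8_128, R2_56, R2_272⟩]⟩]⟩,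
 ⟨nat_lit 1, [⟨nat_lit 5, [⟨nat_lit 7, nat_lit 6864, nat_lit 13008, nat_lit 5616, nat_lit 2160, nat_lit 13584, R9_117, R1_45, R2_283⟩]⟩]⟩,
 ⟨nat_lit 3, [⟨nat_lit 5, [⟨nat_lit 7, nat_lit 10368, nat_lit 12960, nat_lit 15840, nat_lit 9648, nat_lit 13440, R5_330, R12_201, R2_280⟩]⟩]⟩], [⟨nat_lit 0, [⟨nat_lit 4, [⟨nat_lit 7, nat_lit 672, nat_lit 13296, nat_lit 7392, nat_lit 1728, nat_lit 12096, R6_154, R2_36, R2_252⟩]⟩, ⟨nat_lit 5, [⟨nat_lit 7, nat_lit 768, nat_lit 14256, nat_lit 6192, nat_lit 2784, nat_lit 13824, R8_129, R2_58, R12_288⟩]⟩, ⟨nat_lit 7, [⟨nat_lit 7, nat_lit 864, nat_lit 15264, nat_lit 8112, nat_lit 2256, nat_lit 12672, R4_169, R2_47, R1_264⟩]⟩]⟩,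
 ⟨nat_lit 1, [⟨nat_lit 4, [⟨nat_lit 7, nat_lit 6480, nat_lit 13392, nat_lit 13344, nat_lit 1200, nat_lit 14928, R8_278, R1_25, R2_311⟩]⟩, ⟨nat_lit 5, [⟨nat_lit 7, nat_lit 6912, nat_lit 14352, nat_lit 5664, nat_lit 2256, nat_lit 14736, R9_118, R1_47, R12_307⟩]⟩, ⟨nat_lit 7, [⟨nat_lit 7, nat_lit 7056, nat_lit 15312, nat_lit 5904, nat_lit 1728, nat_lit 15936, R5_123, R1_36, R1_332⟩]⟩]⟩,
 ⟨nat_lit 3, [⟨nat_lit 4, [⟨nat_lit 7, nat_lit 10320, nat_lit 13344, nat_lit 14016, nat_lit 9744, nat_lit 13824, R4_292, R12_203, R2_288⟩]⟩, ⟨nat_lit 5, [⟨nat_lit 7, nat_lit 10416, nat_lit 14304, nat_lit 15888, nat_lit 9792, nat_lit 14496, R5_331, R12_204, R12_302⟩]⟩]⟩], [], [⟨nat_lit 0, [⟨nat_lit 5, [⟨nat_lit 7, nat_lit 816, nat_lit 12432, nat_lit 6240, nat_lit 2736, nat_lit 14400, R8_130, R2_57, R1_300⟩]⟩]⟩,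
 ⟨nat_lit 1, [⟨nat_lit 5, [⟨nat_lit 7, nat_lit 6960, nat_lit 12480, nat_lit 5712, nat_lit 2208, nat_lit 14928, R9_119, R1_46, R1_311⟩]⟩]⟩,
 ⟨nat_lit 3, [⟨nat_lit 5, [⟨nat_lit 7, nat_lit 10464, nat_lit 12528, nat_lit 15936, nat_lit 9696, nat_lit 14784, R5_332, R12_202, R1_308⟩]⟩]⟩]]], [[], [], [], [], [[], [⟨nat_lit 3, [⟨nat_lit 7, [⟨nat_lit 7, nat_lit 10512, nat_lit 13680, nat_lit 14832, nat_lit 10752, nat_lit 13104, R7_309, R2_224, R1_273⟩]⟩]⟩], [], [], [], [⟨nat_lit 0, [⟨nat_lit 3, [⟨nat_lit 3, nat_lit 912, nat_lit 13392, nat_lit 13824, nat_lit 13440, nat_lit 14544, R6_288, R13_280, R10_303⟩]⟩]⟩,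
 ⟨nat_lit 2, [⟨nat_lit 0, [⟨nat_lit 0, nat_lit 7440, nat_lit 15744, nat_lit 12336, nat_lit 9600, nat_lit 8784, R6_257, R8_200, R4_183⟩, ⟨nat_lit 3, nat_lit 7488, nat_lit 15840, nat_lit 12384, nat_lit 10800, nat_lit 11232, R6_258, R9_225, R3_234⟩]⟩, ⟨nat_lit 2, [⟨nat_lit 0, nat_lit 7680, nat_lit 16464, nat_lit 12576, nat_lit 10176, nat_lit 6000, R4_262, R8_212, R5_125⟩, ⟨nat_lit 2, nat_lit 7728, nat_lit 16608, nat_lit 12624, nat_lit 12768, nat_lit 18432, R4_263, R5_266, R11_384⟩]⟩, ⟨nat_lit 3, [⟨nat_lit 3, nat_lit 8016, nat_lit 16176, nat_lit 14496, nat_lit 10848, nat_lit 14640, R8_302, R9_226, R10_305⟩]⟩]⟩,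
 ⟨nat_lit 3, [⟨nat_lit 3, [⟨nat_lit 3, nat_lit 10800, nat_lit 14784, nat_lit 13632, nat_lit 10368, nat_lit 14592, R4_284, R3_216, R10_304⟩, ⟨nat_lit 7, nat_lit 10752, nat_lit 14832, nat_lit 13680, nat_lit 10512, nat_lit 13104, R4_285, R2_219, R1_273⟩]⟩, ⟨nat_lit 7, [⟨nat_lit 7, nat_lit 10560, nat_lit 14928, nat_lit 14928, nat_lit 10560, nat_lit 18768, R7_311, R2_220, R11_391⟩]⟩]⟩]], [[], [⟨nat_lit 3, [⟨nat_lit 7, [⟨nat_lit 7, nat_lit 10608, nat_lit 15360, nat_lit 15072, nat_lit 11136, nat_lit 13152, R7_314, R1_232, R1_274⟩]⟩]⟩,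
 ⟨nat_lit 4, [⟨nat_lit 6, [⟨nat_lit 6, nat_lit 11904, nat_lit 15936, nat_lit 13968, nat_lit 624, nat_lit 192, R6_291, R3_13, R1_4⟩]⟩]⟩,
 ⟨nat_lit 7, [⟨nat_lit 4, [⟨nat_lit 4, nat_lit 14400, nat_lit 11088, nat_lit 13152, nat_lit 2544, nat_lit 8736, R6_274, R5_53, R7_182⟩, ⟨nat_lit 7, nat_lit 14592, nat_lit 11184, nat_lit 13200, nat_lit 15744, nat_lit 3216, R6_275, R11_328, R2_67⟩]⟩, ⟨nat_lit 7, [⟨nat_lit 7, nat_lit 14832, nat_lit 15216, nat_lit 13200, nat_lit 15792, nat_lit 2688, R4_275, R11_329, R1_56⟩]⟩]⟩], [], [], [], [⟨nat_lit 0, [⟨nat_lit 3, [⟨nat_lit 3, nat_lit 960, nat_lit 11952, nat_lit 14016, nat_lit 576, nat_lit 15360, R6_292, R3_12, R10_320⟩]⟩]⟩,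
 ⟨nat_lit 2, [⟨nat_lit 0, [⟨nat_lit 0, nat_lit 7536, nat_lit 14448, nat_lit 12432, nat_lit 432, nat_lit 8832, R6_259, R5_9, R4_184⟩, ⟨nat_lit 3, nat_lit 7584, nat_lit 14544, nat_lit 12480, nat_lit 9312, nat_lit 11328, R6_260, R0_194, R3_236⟩]⟩, ⟨nat_lit 2, [⟨nat_lit 0, nat_lit 7824, nat_lit 14736, nat_lit 12720, nat_lit 7392, nat_lit 6912, R4_265, R5_154, R5_144⟩, ⟨nat_lit 2, nat_lit 7872, nat_lit 14880, nat_lit 12768, nat_lit 15696, nat_lit 18864, R4_266, R11_327, R11_393⟩, ⟨nat_lit 3, nat_lit 7920, nat_lit 14784, nat_lit 12816, nat_lit 9408, nat_lit 12624, R4_267, R0_196, R0_263⟩]⟩, ⟨nat_lit 3, [⟨nat_lit 3, nat_lit 8064, nat_lit 14688, nat_lit 14784, nat_lit 9360, nat_lit 15456, R8_308, R0_195, R10_322⟩]⟩]⟩,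
 ⟨nat_lit 3, [⟨nat_lit 3, [⟨nat_lit 3, nat_lit 10896, nat_lit 13968, nat_lit 13824, nat_lit 12192, nat_lit 15408, R4_288, R10_254, R10_321⟩, ⟨nat_lit 7, nat_lit 10848, nat_lit 14016, nat_lit 13872, nat_lit 10896, nat_lit 13728, R4_289, R1_227, R1_286⟩]⟩, ⟨nat_lit 7, [⟨nat_lit 7, nat_lit 10656, nat_lit 14064, nat_lit 15120, nat_lit 10944, nat_lit 18912, R7_315, R1_228, R11_394⟩]⟩]⟩,
 ⟨nat_lit 4, [⟨nat_lit 6, [⟨nat_lit 6, nat_lit 11952, nat_lit 960, nat_lit 14016, nat_lit 576, nat_lit 15360, R6_292, R3_12, R10_320⟩]⟩]⟩,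
 ⟨nat_lit 6, [⟨nat_lit 2, [⟨nat_lit 2, nat_lit 14064, nat_lit 10656, nat_lit 15120, nat_lit 10944, nat_lit 18912, R7_315, R1_228, R11_394⟩]⟩, ⟨nat_lit 6, [⟨nat_lit 2, nat_lit 14016, nat_lit 10848, nat_lit 13872, nat_lit 10896, nat_lit 13728, R4_289, R1_227, R1_286⟩, ⟨nat_lit 6, nat_lit 13968, nat_lit 10896, nat_lit 13824, nat_lit 12192, nat_lit 15408, R4_288, R10_254, R10_321⟩]⟩]⟩,
 ⟨nat_lit 7, [⟨nat_lit 4, [⟨nat_lit 4, nat_lit 14448, nat_lit 7536, nat_lit 12432, nat_lit 432, nat_lit 8832, R6_259, R5_9, R4_184⟩, ⟨nat_lit 6, nat_lit 14544, nat_lit 7584, nat_lit 12480, nat_lit 9312, nat_lit 11328, R6_260, R0_194, R3_236⟩]⟩, ⟨nat_lit 6, [⟨nat_lit 6, nat_lit 14688, nat_lit 8064, nat_lit 14784, nat_lit 9360, nat_lit 15456, R8_308, R0_195, R10_322⟩]⟩, ⟨nat_lit 7, [⟨nat_lit 4, nat_lit 14736, nat_lit 7824, nat_lit 12720,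 nat_lit 7392, nat_lit 6912, R4_265, R5_154, R5_144⟩, ⟨nat_lit 6, nat_lit 14784, nat_lit 7920, nat_lit 12816, nat_lit 9408, nat_lit 12624, R4_267, R0_196, R0_263⟩, ⟨nat_lit 7, nat_lit 14880, nat_lit 7872, nat_lit 12768, nat_lit 15696, nat_lit 18864, R4_266, R11_327, R11_393⟩]⟩]⟩]], [], [[], [], [], [], [], [⟨nat_lit 0, [⟨nat_lit 3, [⟨nat_lit 3, nat_lit 1056, nat_lit 12240, nat_lit 14256, nat_lit 3696, nat_lit 15072, R6_297, R3_77, R10_314⟩, ⟨nat_lit 7, nat_lit 1008, nat_lit 12048, nat_lit 14304, nat_lit 0, nat_lit 13440, R6_298, R2_0, R1_280⟩]⟩]⟩,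
 ⟨nat_lit 3, [⟨nat_lit 3, [⟨nat_lit 7, nat_lit 10944, nat_lit 13776, nat_lit 13968, nat_lit 9888, nat_lit 13488, R4_291, R12_206, R1_281⟩]⟩, ⟨nat_lit 7, [⟨nat_lit 7, nat_lit 10704, nat_lit 12624, nat_lit 15264, nat_lit 9840, nat_lit 18816, R7_318, R12_205, R11_392⟩]⟩]⟩]]], [[], [[], [⟨nat_lit 4, [⟨nat_lit 4, [⟨nat_lit 4, nat_lit 12000, nat_lit 13200, nat_lit 14160, nat_lit 576, nat_lit 2880, R6_295, R7_12, R7_60⟩, ⟨nat_lit 6, nat_lit 12048, nat_lit 13440, nat_lit 14304, nat_lit 0, nat_lit 1008, R6_298, R2_0, R2_21⟩, ⟨nat_lit 7, nat_lit 12096, nat_lit 13296, nat_lit 14352, nat_lit 1728, nat_lit 672, R6_299, R2_36, R2_14⟩]⟩, ⟨nat_lit 6, [⟨nat_lit 6, nat_lit 12336, nat_lit 13584, nat_lit 19488, nat_lit 3936, nat_lit 336, R13_406, R2_82, R1_7⟩]⟩]⟩,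
 ⟨nat_lit 5, [⟨nat_lit 4, [⟨nat_lit 4, nat_lit 13728, nat_lit 13248, nat_lit 13920, nat_lit 14208, nat_lit 12336, R4_290, R14_296, R7_257⟩, ⟨nat_lit 6, nat_lit 13776, nat_lit 13488, nat_lit 13968, nat_lit 9888, nat_lit 10944, R4_291, R12_206, R2_228⟩, ⟨nat_lit 7, nat_lit 13824, nat_lit 13344, nat_lit 14016, nat_lit 9744, nat_lit 10320, R4_292, R12_203, R2_215⟩]⟩, ⟨nat_lit 6, [⟨nat_lit 6, nat_lit 13872, nat_lit 13632, nat_lit 15648, nat_lit 10608, nat_lit 11328, R3_326, R12_221, R1_236⟩]⟩]⟩,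
 ⟨nat_lit 6, [⟨nat_lit 6, [⟨nat_lit 6, nat_lit 14112, nat_lit 13680, nat_lit 15840, nat_lit 3408, nat_lit 6000, R3_330, R1_71, R1_125⟩]⟩]⟩,
 ⟨nat_lit 7, [⟨nat_lit 4, [⟨nat_lit 7, nat_lit 14928, nat_lit 13392, nat_lit 13344, nat_lit 1200, nat_lit 6480, R8_278, R1_25, R2_135⟩]⟩, ⟨nat_lit 7, [⟨nat_lit 7, nat_lit 15312, nat_lit 13536, nat_lit 16560, nat_lit 6624, nat_lit 5184, R5_345, R1_138, R1_108⟩]⟩]⟩]], [], [], [], [[], [⟨nat_lit 4, [⟨nat_lit 4, [⟨nat_lit 4, nat_lit 12144, nat_lit 192, nat_lit 14112, nat_lit 384, nat_lit 2928, R6_294, R4_8, R7_61⟩, ⟨nat_lit 6, nat_lit 12240, nat_lit 240, nat_lit 14256, nat_lit 3696, nat_lit 1056, R6_297, R3_77, R2_22⟩]⟩, ⟨nat_lit 6, [⟨nat_lit 6, nat_lit 12384, nat_lit 576, nat_lit 19536, nat_lit 4224, nat_lit 384, R13_407, R3_88, R1_8⟩]⟩]⟩,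
 ⟨nat_lit 6, [⟨nat_lit 6, [⟨nat_lit 6, nat_lit 14160, nat_lit 12528, nat_lit 15792, nat_lit 12336, nat_lit 6048, R3_329, R10_257, R1_126⟩]⟩]⟩,
 ⟨nat_lit 7, [⟨nat_lit 4, [⟨nat_lit 4, nat_lit 14976, nat_lit 9024, nat_lit 13056, nat_lit 2928, nat_lit 9024, R8_272, R5_61, R7_188⟩, ⟨nat_lit 6, nat_lit 15072, nat_lit 9168, nat_lit 13200, nat_lit 9696, nat_lit 8112, R8_275, R0_202, R2_169⟩, ⟨nat_lit 7, nat_lit 15168, nat_lit 9120, nat_lit 13296, nat_lit 15888, nat_lit 6432, R8_277, R11_331, R2_134⟩]⟩, ⟨nat_lit 6, [⟨nat_lit 6, nat_lit 15216, nat_lit 9792, nat_lit 15792, nat_lit 9744, nat_lit 8640, R9_329, R0_203, R1_180⟩]⟩, ⟨nat_lit 7, [⟨nat_lit 7, nat_lit 15456, nat_lit 9408, nat_lit 16608, nat_lit 15936, nat_lit 5136, R5_346, R11_332, R1_107⟩]⟩]⟩], [], [], [], [⟨nat_lit 4, [⟨nat_lit 4, [⟨nat_lit 4, nat_lit 12192,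 nat_lit 96, nat_lit 14064, nat_lit 432, nat_lit 3264, R6_293, R4_9, R4_68⟩, ⟨nat_lit 6, nat_lit 12288, nat_lit 144, nat_lit 14208, nat_lit 3648, nat_lit 15984, R6_296, R3_76, R3_333⟩]⟩, ⟨nat_lit 6, [⟨nat_lit 6, nat_lit 12432, nat_lit 288, nat_lit 19584, nat_lit 4176, nat_lit 15504, R13_408, R3_87, R10_323⟩]⟩]⟩,
 ⟨nat_lit 6, [⟨nat_lit 2, [⟨nat_lit 2, nat_lit 14304, nat_lit 11040, nat_lit 14304, nat_lit 11040, nat_lit 21024, R2_298, R1_230, R11_438⟩]⟩, ⟨nat_lit 6, [⟨nat_lit 2, nat_lit 14256, nat_lit 11232, nat_lit 15696, nat_lit 10992, nat_lit 13776, R3_327, R1_229, R1_287⟩, ⟨nat_lit 6, nat_lit 14208, nat_lit 11280, nat_lit 15744, nat_lit 12288, nat_lit 15552, R3_328, R10_256, R10_324⟩]⟩]⟩,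
 ⟨nat_lit 7, [⟨nat_lit 4, [⟨nat_lit 4, nat_lit 15024, nat_lit 8064, nat_lit 13440, nat_lit 528, nat_lit 9168, R8_280, R5_11, R4_191⟩, ⟨nat_lit 6, nat_lit 15120, nat_lit 8112, nat_lit 13728, nat_lit 9552, nat_lit 16320, R8_286, R0_199, R3_340⟩]⟩, ⟨nat_lit 6, [⟨nat_lit 6, nat_lit 15264, nat_lit 8592, nat_lit 15840, nat_lit 9600, nat_lit 15600, R9_330, R0_200, R10_325⟩]⟩, ⟨nat_lit 7, [⟨nat_lit 4, nat_lit 15360, nat_lit 8352, nat_lit 16656, nat_lit 7488, nat_lit 7200, R5_347, R5_156, R5_150⟩, ⟨nat_lit 6, nat_lit 15408, nat_lit 8448, nat_lit 16704, nat_lit 9648, nat_lit 12672, R5_348, R0_201, R0_264⟩, ⟨nat_lit 7, nat_lit 15504, nat_lit 8400, nat_lit 16752, nat_lit 15840, nat_lit 19056, R5_349, R11_330, R11_397⟩]⟩]⟩]]], [[], [], [], [], [[], [], [], [], [⟨nat_lit 0, [⟨nat_lit 0, [⟨nat_lit 0, nat_lit 1104, nat_lit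 3072, nat_lit 7440, nat_lit 3936, nat_lit 1488, R6_155, R6_82, R6_31⟩, ⟨nat_lit 3, nat_lit 1200, nat_lit 9264, nat_lit 7728, nat_lit 14064, nat_lit 16416, R6_161, R13_293, R13_342⟩]⟩, ⟨nat_lit 1, [⟨nat_lit 0, nat_lit 1920, nat_lit 3648, nat_lit 8160, nat_lit 4176, nat_lit 1488, R4_170, R6_87, R4_31⟩, ⟨nat_lit 3, nat_lit 1968, nat_lit 10704, nat_lit 8304, nat_lit 14160, nat_lit 12480, R4_173, R13_295, R3_260⟩]⟩, ⟨nat_lit 3, [⟨nat_lit 3, nat_lit 2400, nat_lit 10032, nat_lit 4896, nat_lit 14112, nat_lit 1296, R8_102, R13_294, R3_27⟩]⟩]⟩,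
 ⟨nat_lit 2, [⟨nat_lit 0, [⟨nat_lit 0, nat_lit 8160, nat_lit 3264, nat_lit 16944, nat_lit 1728, nat_lit 1872, R13_353, R8_36, R6_39⟩, ⟨nat_lit 3, nat_lit 8256, nat_lit 9456, nat_lit 16992, nat_lit 11712, nat_lit 16464, R13_354, R9_244, R13_343⟩]⟩, ⟨nat_lit 1, [⟨nat_lit 0, nat_lit 9696, nat_lit 3792, nat_lit 12768, nat_lit 2928, nat_lit 1728, R3_266, R8_61, R4_36⟩, ⟨nat_lit 3, nat_lit 9744, nat_lit 10848, nat_lit 12816, nat_lit 11856, nat_lit 12528, R3_267, R9_247, R3_261⟩]⟩, ⟨nat_lit 2, [⟨nat_lit 0, nat_lit 8784, nat_lit 4128, nat_lit 7632, nat_lit 2592, nat_lit 2016, R3_159, R8_54, R8_42⟩, ⟨nat_lit 2, nat_lit 8880, nat_lit 12576, nat_lit 7920, nat_lit 13632, nat_lit 14928, R3_165, R5_284, R5_311⟩, ⟨nat_lit 3, nat_lit 8976, nat_lit 11136, nat_lit 8208, nat_lit 11808, nat_lit 14112, R3_171, R9_246, R9_294⟩]⟩,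 ⟨nat_lit 3, [⟨nat_lit 3, nat_lit 10032, nat_lit 10368, nat_lit 14352, nat_lit 11760, nat_lit 1920, R9_299, R9_245, R3_40⟩]⟩]⟩,
 ⟨nat_lit 3, [⟨nat_lit 3, [⟨nat_lit 3, nat_lit 11088, nat_lit 10176, nat_lit 15264, nat_lit 3408, nat_lit 1536, R5_318, R3_71, R3_32⟩, ⟨nat_lit 7, nat_lit 10992, nat_lit 15312, nat_lit 15312, nat_lit 11568, nat_lit 12528, R5_319, R2_241, R2_261⟩]⟩]⟩], [⟨nat_lit 0, [⟨nat_lit 0, [⟨nat_lit 0, nat_lit 1152, nat_lit 4416, nat_lit 7488, nat_lit 11424, nat_lit 3312, R6_156, R6_238, R4_69⟩, ⟨nat_lit 3, nat_lit 1248, nat_lit 4800, nat_lit 7776, nat_lit 14544, nat_lit 11712, R6_162, R13_303, R3_244⟩]⟩, ⟨nat_lit 3, [⟨nat_lit 3, nat_lit 2448, nat_lit 4848, nat_lit 4944, nat_lit 14592, nat_lit 15840, R8_103, R13_304, R10_330⟩]⟩]⟩,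
 ⟨nat_lit 2, [⟨nat_lit 0, [⟨nat_lit 0, nat_lit 8208, nat_lit 6144, nat_lit 17136, nat_lit 9696, nat_lit 9312, R13_357, R8_202, R4_194⟩, ⟨nat_lit 3, nat_lit 8304, nat_lit 6768, nat_lit 17184, nat_lit 12336, nat_lit 12192, R13_358, R9_257, R3_254⟩]⟩, ⟨nat_lit 2, [⟨nat_lit 0, nat_lit 8832, nat_lit 6192, nat_lit 7680, nat_lit 10272, nat_lit 6048, R3_160, R8_214, R5_126⟩, ⟨nat_lit 2, nat_lit 8928, nat_lit 7536, nat_lit 7968, nat_lit 13776, nat_lit 19248, R3_166, R5_287, R11_401⟩, ⟨nat_lit 3, nat_lit 9024, nat_lit 6864, nat_lit 8256, nat_lit 12432, nat_lit 12816, R3_172, R9_259, R0_267⟩]⟩, ⟨nat_lit 3, [⟨nat_lit 3, nat_lit 10080, nat_lit 6816, nat_lit 14448, nat_lit 12384, nat_lit 15936, R9_301, R9_258, R10_332⟩]⟩]⟩,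
 ⟨nat_lit 3, [⟨nat_lit 3, [⟨nat_lit 3, nat_lit 11136, nat_lit 5664, nat_lit 15456, nat_lit 10896, nat_lit 15888, R5_322, R3_227, R10_331⟩, ⟨nat_lit 7, nat_lit 11040, nat_lit 5856, nat_lit 15504, nat_lit 11712, nat_lit 13872, R5_323, R2_244, R1_289⟩]⟩]⟩]], [[], [], [], [], [], [⟨nat_lit 0, [⟨nat_lit 0, [⟨nat_lit 0, nat_lit 1296, nat_lit 2784, nat_lit 7536, nat_lit 2352, nat_lit 3456, R6_157, R4_49, R4_72⟩, ⟨nat_lit 3, nat_lit 1344, nat_lit 3168, nat_lit 7824, nat_lit 2160, nat_lit 11856, R6_163, R3_45, R3_247⟩]⟩, ⟨nat_lit 3, [⟨nat_lit 3, nat_lit 2496, nat_lit 3216, nat_lit 5808, nat_lit 2688, nat_lit 18048, R8_121, R3_56, R10_376⟩]⟩]⟩,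
 ⟨nat_lit 2, [⟨nat_lit 0, [⟨nat_lit 0, nat_lit 8352, nat_lit 4128, nat_lit 17232, nat_lit 480, nat_lit 9504, R13_359, R5_10, R4_198⟩, ⟨nat_lit 3, nat_lit 8400, nat_lit 4752, nat_lit 17280, nat_lit 10512, nat_lit 12288, R13_360, R0_219, R3_256⟩]⟩, ⟨nat_lit 2, [⟨nat_lit 0, nat_lit 9072, nat_lit 4176, nat_lit 7728, nat_lit 7440, nat_lit 6960, R3_161, R5_155, R5_145⟩, ⟨nat_lit 2, nat_lit 9120, nat_lit 5520, nat_lit 8016, nat_lit 16848, nat_lit 20400, R3_167, R11_351, R11_425⟩, ⟨nat_lit 3, nat_lit 9168, nat_lit 4848, nat_lit 8304, nat_lit 10608, nat_lit 13776, R3_173, R0_221, R0_287⟩]⟩, ⟨nat_lit 3, [⟨nat_lit 3, nat_lit 10128, nat_lit 4800, nat_lit 14496, nat_lit 10560, nat_lit 18144, R9_302, R0_220, R10_378⟩]⟩]⟩,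
 ⟨nat_lit 3, [⟨nat_lit 3, [⟨nat_lit 3, nat_lit 11232, nat_lit 3648, nat_lit 15552, nat_lit 12912, nat_lit 18096, R5_324, R10_269, R10_377⟩, ⟨nat_lit 7, nat_lit 11184, nat_lit 3840, nat_lit 15600, nat_lit 12144, nat_lit 15072, R5_325, R1_253, R1_314⟩]⟩]⟩,
 ⟨nat_lit 6, [⟨nat_lit 2, [⟨nat_lit 2, nat_lit 14352, nat_lit 6384, nat_lit 12768, nat_lit 11088, nat_lit 20448, R2_266, R1_231, R11_426⟩]⟩]⟩]], [[], [], [], [], [⟨nat_lit 0, [⟨nat_lit 0, [⟨nat_lit 0, nat_lit 1392, nat_lit 1392, nat_lit 7584, nat_lit 1632, nat_lit 7584, R6_158, R8_34, R6_158⟩, ⟨nat_lit 3, nat_lit 1584, nat_lit 8448, nat_lit 8016, nat_lit 912, nat_lit 17088, R6_167, R9_19, R13_356⟩]⟩, ⟨nat_lit 1, [⟨nat_lit 0, nat_lit 2016, nat_lit 2016, nat_lit 8208, nat_lit 9504, nat_lit 8208, R4_171, R8_198, R4_171⟩, ⟨nat_lit 3, nat_lit 2160, nat_lit 9792,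 nat_lit 8448, nat_lit 1632, nat_lit 12912, R4_176, R9_34, R3_269⟩]⟩, ⟨nat_lit 3, [⟨nat_lit 3, nat_lit 2544, nat_lit 9216, nat_lit 6528, nat_lit 1344, nat_lit 7776, R8_136, R9_28, R3_162⟩]⟩]⟩,
 ⟨nat_lit 2, [⟨nat_lit 0, [⟨nat_lit 0, nat_lit 8448, nat_lit 1584, nat_lit 17088, nat_lit 912, nat_lit 8016, R13_356, R9_19, R6_167⟩]⟩, ⟨nat_lit 1, [⟨nat_lit 0, nat_lit 9792, nat_lit 2160, nat_lit 12912, nat_lit 1632, nat_lit 8448, R3_269, R9_34, R4_176⟩]⟩, ⟨nat_lit 2, [⟨nat_lit 0, nat_lit 9216, nat_lit 2544, nat_lit 7776, nat_lit 1344, nat_lit 6528, R3_162, R9_28, R8_136⟩]⟩]⟩], [⟨nat_lit 0, [⟨nat_lit 0, [⟨nat_lit 0, nat_lit 1440, nat_lit 6720, nat_lit 7632, nat_lit 2832, nat_lit 3408, R6_159, R8_59, R4_71⟩, ⟨nat_lit 3, nat_lit 1632, nat_lit 8064, nat_lit 8064, nat_lit 1008, nat_lit 11808, R6_168, R9_21, R3_246⟩]⟩, ⟨nat_lit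 3, [⟨nat_lit 3, nat_lit 2592, nat_lit 8112, nat_lit 6576, nat_lit 1440, nat_lit 16704, R8_137, R9_30, R10_348⟩]⟩]⟩,
 ⟨nat_lit 2, [⟨nat_lit 0, [⟨nat_lit 0, nat_lit 8496, nat_lit 7200, nat_lit 17376, nat_lit 10320, nat_lit 9456, R13_362, R9_215, R4_197⟩]⟩, ⟨nat_lit 2, [⟨nat_lit 0, nat_lit 9264, nat_lit 7248, nat_lit 7824, nat_lit 10656, nat_lit 6576, R3_163, R9_222, R5_137⟩, ⟨nat_lit 2, nat_lit 9408, nat_lit 9120, nat_lit 8112, nat_lit 5280, nat_lit 19728, R3_169, R0_110, R11_411⟩]⟩]⟩,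
 ⟨nat_lit 3, [⟨nat_lit 3, [⟨nat_lit 3, nat_lit 11328, nat_lit 8880, nat_lit 15696, nat_lit 4320, nat_lit 16752, R5_327, R0_90, R10_349⟩]⟩]⟩], [⟨nat_lit 0, [⟨nat_lit 0, [⟨nat_lit 0, nat_lit 1488, nat_lit 864, nat_lit 7680, nat_lit 2352, nat_lit 1920, R6_160, R8_49, R8_40⟩, ⟨nat_lit 1, nat_lit 1536, nat_lit 6288, nat_lit 8160, nat_lit 336, nat_lit 14448, R6_170, R5_7, R5_301⟩, ⟨nat_lit 3, nat_lit 1680, nat_lit 9264, nat_lit 8112, nat_lit 960, nat_lit 13440, R6_169, R9_20, R9_280⟩]⟩, ⟨nat_lit 1, [⟨nat_lit 0, nat_lit 2064, nat_lit 1488, nat_lit 8256, nat_lit 10032, nat_lit 6192, R4_172, R8_209, R5_129⟩, ⟨nat_lit 1, nat_lit 2112, nat_lit 6912, nat_lit 8544, nat_lit 720, nat_lit 17952, R4_178, R5_15, R11_374⟩]⟩]⟩,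
 ⟨nat_lit 2, [⟨nat_lit 0, [⟨nat_lit 0, nat_lit 8544, nat_lit 1056, nat_lit 17472, nat_lit 6336, nat_lit 6432, R13_364, R9_132, R8_134⟩]⟩, ⟨nat_lit 1, [⟨nat_lit 0, nat_lit 9840, nat_lit 1632, nat_lit 13008, nat_lit 7536, nat_lit 6720, R3_271, R9_157, R5_140⟩]⟩, ⟨nat_lit 2, [⟨nat_lit 0, nat_lit 9312, nat_lit 2016, nat_lit 7872, nat_lit 7200, nat_lit 6624, R3_164, R9_150, R9_138⟩]⟩]⟩]], [[], [], [], [], [⟨nat_lit 0, [⟨nat_lit 0, [⟨nat_lit 3, nat_lit 1776, nat_lit 3360, nat_lit 7872, nat_lit 2064, nat_lit 17712, R6_164, R3_43, R13_369⟩]⟩, ⟨nat_lit 1, [⟨nat_lit 3, nat_lit 2304, nat_lit 4800, nat_lit 8352, nat_lit 9696, nat_lit 13248, R4_174, R3_202, R3_276⟩]⟩, ⟨nat_lit 3, [⟨nat_lit 3, nat_lit 2832, nat_lit 4224, nat_lit 6048, nat_lit 7008, nat_lit 6480, R8_126, R3_146, R3_135⟩, ⟨nat_lit 7, nat_lit 2688, nat_lit 12912,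 nat_lit 6144, nat_lit 720, nat_lit 13056, R8_128, R2_15, R2_272⟩]⟩]⟩,
 ⟨nat_lit 3, [⟨nat_lit 3, [⟨nat_lit 7, nat_lit 11424, nat_lit 13296, nat_lit 15360, nat_lit 10080, nat_lit 13104, R5_320, R12_210, R2_273⟩]⟩]⟩], [⟨nat_lit 0, [⟨nat_lit 0, [⟨nat_lit 3, nat_lit 1824, nat_lit 13056, nat_lit 7920, nat_lit 2208, nat_lit 11760, R6_165, R3_46, R3_245⟩]⟩, ⟨nat_lit 3, [⟨nat_lit 3, nat_lit 2880, nat_lit 13296, nat_lit 6096, nat_lit 7104, nat_lit 17568, R8_127, R3_148, R10_366⟩, ⟨nat_lit 7, nat_lit 2736, nat_lit 12432, nat_lit 6240, nat_lit 816, nat_lit 14400, R8_130, R2_17, R1_300⟩]⟩]⟩,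
 ⟨nat_lit 3, [⟨nat_lit 3, [⟨nat_lit 7, nat_lit 11472, nat_lit 14160, nat_lit 15648, nat_lit 10176, nat_lit 14448, R5_326, R12_212, R1_301⟩]⟩]⟩], [], [⟨nat_lit 0, [⟨nat_lit 0, [⟨nat_lit 3, nat_lit 1872, nat_lit 2832, nat_lit 7968, nat_lit 2112, nat_lit 3120, R6_166, R3_44, R3_65⟩, ⟨nat_lit 7, nat_lit 1728, nat_lit 13296, nat_lit 7392, nat_lit 672, nat_lit 12096, R6_154, R2_14, R2_252⟩]⟩, ⟨nat_lit 1, [⟨nat_lit 3, nat_lit 2352, nat_lit 3504, nat_lit 8400, nat_lit 9792, nat_lit 14016, R4_175, R3_204, R10_292⟩, ⟨nat_lit 7, nat_lit 2256, nat_lit 15264, nat_lit 8112, nat_lit 864, nat_lit 12672, R4_169, R2_18, R1_264⟩]⟩, ⟨nat_lit 3, [⟨nat_lit 7, nat_lit 2784, nat_lit 14256, nat_lit 6192, nat_lit 768, nat_lit 13824, R8_129, R2_16, R12_288⟩]⟩]⟩,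
 ⟨nat_lit 3, [⟨nat_lit 3, [⟨nat_lit 7, nat_lit 11520, nat_lit 14640, nat_lit 15744, nat_lit 10128, nat_lit 13872, R5_328, R12_211, R12_289⟩]⟩]⟩]]], [[], [], [], [], [[], [⟨nat_lit 3, [⟨nat_lit 4, [⟨nat_lit 7, nat_lit 11568, nat_lit 15312, nat_lit 14016, nat_lit 10992, nat_lit 12528, R7_292, R2_229, R2_261⟩]⟩, ⟨nat_lit 7, [⟨nat_lit 7, nat_lit 11712, nat_lit 15504, nat_lit 18048, nat_lit 11040, nat_lit 13872, R14_376, R2_230, R1_289⟩]⟩]⟩]], [[], [⟨nat_lit 3, [⟨nat_lit 4, [⟨nat_lit 7, nat_lit 11616, nat_lit 12432, nat_lit 14112, nat_lit 11568, nat_lit 12720, R7_294, R1_241, R2_265⟩]⟩, ⟨nat_lit 7, [⟨nat_lit 7, nat_lit 11760, nat_lit 12528, nat_lit 18096, nat_lit 11616, nat_lit 14064, R14_377, R1_242, R1_293⟩]⟩]⟩,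
 ⟨nat_lit 7, [⟨nat_lit 4, [⟨nat_lit 4, nat_lit 15552, nat_lit 12336, nat_lit 12528, nat_lit 2736, nat_lit 8928, R4_261, R5_57, R7_186⟩, ⟨nat_lit 6, nat_lit 15600, nat_lit 12480, nat_lit 12864, nat_lit 9792, nat_lit 7968, R4_268, R0_204, R2_166⟩, ⟨nat_lit 7, nat_lit 15648, nat_lit 12384, nat_lit 13008, nat_lit 15984, nat_lit 4080, R4_271, R11_333, R2_85⟩]⟩, ⟨nat_lit 6, [⟨nat_lit 6, nat_lit 15696, nat_lit 12576, nat_lit 16800, nat_lit 9840, nat_lit 8496, R5_350, R0_205, R1_177⟩]⟩]⟩]], [], [[], [⟨nat_lit 0, [⟨nat_lit 7, [⟨nat_lit 7, nat_lit 2928, nat_lit 18672, nat_lit 7200, nat_lit 576, nat_lit 12432, R7_150, R2_12, R1_259⟩]⟩]⟩,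
 ⟨nat_lit 3, [⟨nat_lit 4, [⟨nat_lit 7, nat_lit 11664, nat_lit 18624, nat_lit 14064, nat_lit 9984, nat_lit 12672, R7_293, R12_208, R2_264⟩]⟩, ⟨nat_lit 7, [⟨nat_lit 7, nat_lit 11808, nat_lit 18720, nat_lit 18144, nat_lit 10032, nat_lit 14016, R14_378, R12_209, R1_292⟩]⟩]⟩], [], [], [], [⟨nat_lit 0, [⟨nat_lit 3, [⟨nat_lit 3, nat_lit 3072, nat_lit 12816, nat_lit 7008, nat_lit 4848, nat_lit 18576, R4_146, R3_101, R10_387⟩, ⟨nat_lit 7, nat_lit 3024, nat_lit 12624, nat_lit 7344, nat_lit 48, nat_lit 15360, R4_153, R2_1, R1_320⟩]⟩, ⟨nat_lit 7, [⟨nat_lit 7, nat_lit 2976, nat_lit 12384, nat_lit 7248, nat_lit 528, nat_lit 18960, R7_151, R2_11, R11_395⟩]⟩]⟩,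
 ⟨nat_lit 2, [⟨nat_lit 3, [⟨nat_lit 3, nat_lit 10272, nat_lit 16080, nat_lit 7872, nat_lit 10176, nat_lit 18624, R5_164, R0_212, R10_388⟩]⟩]⟩,
 ⟨nat_lit 3, [⟨nat_lit 7, [⟨nat_lit 7, nat_lit 11856, nat_lit 13968, nat_lit 18192, nat_lit 9936, nat_lit 19008, R14_379, R12_207, R11_396⟩]⟩]⟩]]]]
noncomputable def N2555 : T3 (List N0) := [[[[⟨nat_lit 1, [⟨nat_lit 5, [⟨nat_lit 4, nat_lit 2736, nat_lit 8928, nat_lit 3072, nat_lit 2256, nat_lit 3552, R3_64, R4_47, R7_74⟩, ⟨nat_lit 5, nat_lit 2832, nat_lit 8976, nat_lit 3120, nat_lit 2112, nat_lit 1872, R3_65, R3_44, R2_39⟩]⟩]⟩,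
 ⟨nat_lit 5, [⟨nat_lit 5, [⟨nat_lit 4, nat_lit 13200, nat_lit 14160, nat_lit 12000, nat_lit 2208, nat_lit 3408, R2_250, R7_46, R7_71⟩, ⟨nat_lit 5, nat_lit 13296, nat_lit 14352, nat_lit 12096, nat_lit 672, nat_lit 1728, R2_252, R2_14, R2_36⟩, ⟨nat_lit 7, nat_lit 13440, nat_lit 14304, nat_lit 12048, nat_lit 1008, nat_lit 0, R2_251, R2_21, R2_0⟩]⟩]⟩], [⟨nat_lit 1, [⟨nat_lit 4, [⟨nat_lit 4, nat_lit 2592, nat_lit 8928, nat_lit 13056, nat_lit 11040, nat_lit 17616, R4_272, R4_230, R7_367⟩]⟩, ⟨nat_lit 5, [⟨nat_lit 4, nat_lit 2784, nat_lit 9552, nat_lit 3168, nat_lit 11136, nat_lit 13152, R3_66, R4_232, R14_274⟩, ⟨nat_lit 5, nat_lit 2880, nat_lit 9600, nat_lit 3216, nat_lit 2832, nat_lit 10416, R3_67, R3_59, R12_217⟩]⟩]⟩,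
 ⟨nat_lit 5, [⟨nat_lit 4, [⟨nat_lit 4, nat_lit 13056, nat_lit 13536, nat_lit 14160, nat_lit 11472, nat_lit 12960, R7_295, R7_239, R7_270⟩, ⟨nat_lit 7, nat_lit 13104, nat_lit 13680, nat_lit 14208, nat_lit 10752, nat_lit 10512, R7_296, R2_224, R2_219⟩]⟩, ⟨nat_lit 5, [⟨nat_lit 4, nat_lit 13248, nat_lit 13920, nat_lit 13728, nat_lit 11520, nat_lit 12480, R2_286, R7_240, R14_260⟩, ⟨nat_lit 5, nat_lit 13344, nat_lit 14016, nat_lit 13824, nat_lit 10320, nat_lit 9744, R2_288, R2_215, R12_203⟩, ⟨nat_lit 7, nat_lit 13488, nat_lit 13968, nat_lit 13776, nat_lit 10944, nat_lit 1776, R2_287, R2_228, R12_37⟩]⟩, ⟨nat_lit 7, [⟨nat_lit 7, nat_lit 13728, nat_lit 13872, nat_lit 14016, nat_lit 10848, nat_lit 10896, R2_292, R2_226, R1_227⟩]⟩]⟩], [⟨nat_lit 1, [⟨nat_lit 5, [⟨nat_lit 5, nat_lit 2928, nat_lit 5712, nat_lit 3360, nat_lit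 2448, nat_lit 1344, R3_70, R3_51, R1_28⟩]⟩]⟩,
 ⟨nat_lit 5, [⟨nat_lit 5, [⟨nat_lit 5, nat_lit 13392, nat_lit 13344, nat_lit 14928, nat_lit 6480, nat_lit 1200, R2_311, R2_135, R1_25⟩]⟩]⟩]], [], [[], [], [⟨nat_lit 1, [⟨nat_lit 5, [⟨nat_lit 5, nat_lit 2976, nat_lit 16464, nat_lit 10560, nat_lit 8400, nat_lit 6768, R3_220, R10_175, R1_141⟩]⟩]⟩,
 ⟨nat_lit 5, [⟨nat_lit 5, [⟨nat_lit 5, nat_lit 13536, nat_lit 16560, nat_lit 15312, nat_lit 5184, nat_lit 6624, R2_319, R1_108, R1_138⟩]⟩]⟩]], [[⟨nat_lit 1, [⟨nat_lit 5, [⟨nat_lit 4, nat_lit 3024, nat_lit 19248, nat_lit 8880, nat_lit 2640, nat_lit 9696, R3_185, R5_55, R7_202⟩, ⟨nat_lit 5, nat_lit 3120, nat_lit 19344, nat_lit 9024, nat_lit 6432, nat_lit 8736, R3_188, R0_134, R2_182⟩, ⟨nat_lit 7, nat_lit 3264, nat_lit 19296, nat_lit 8976, nat_lit 9024, nat_lit 3888, R3_187,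 R11_188, R2_81⟩]⟩]⟩,
 ⟨nat_lit 5, [⟨nat_lit 5, [⟨nat_lit 7, nat_lit 13584, nat_lit 19488, nat_lit 12336, nat_lit 336, nat_lit 3936, R2_257, R1_7, R2_82⟩]⟩]⟩], [⟨nat_lit 1, [⟨nat_lit 4, [⟨nat_lit 4, nat_lit 2640, nat_lit 15168, nat_lit 13152, nat_lit 12864, nat_lit 17712, R4_274, R5_268, R7_369⟩, ⟨nat_lit 7, nat_lit 2688, nat_lit 15216, nat_lit 13200, nat_lit 8976, nat_lit 14832, R4_275, R11_187, R2_309⟩]⟩, ⟨nat_lit 5, [⟨nat_lit 4, nat_lit 3072, nat_lit 15504, nat_lit 9168, nat_lit 13872, nat_lit 13584, R3_191, R5_289, R14_283⟩, ⟨nat_lit 5, nat_lit 3168, nat_lit 15600, nat_lit 9264, nat_lit 6528, nat_lit 11232, R3_193, R0_136, R12_234⟩, ⟨nat_lit 7, nat_lit 3312, nat_lit 15552, nat_lit 9216, nat_lit 9120, nat_lit 5472, R3_192, R11_190, R12_114⟩]⟩]⟩,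
 ⟨nat_lit 5, [⟨nat_lit 4, [⟨nat_lit 7, nat_lit 13152, nat_lit 15360, nat_lit 14448, nat_lit 11136, nat_lit 10608, R7_301, R1_232, R2_221⟩]⟩, ⟨nat_lit 5, [⟨nat_lit 7, nat_lit 13632, nat_lit 15648, nat_lit 13872, nat_lit 11328, nat_lit 6336, R2_289, R1_236, R12_132⟩]⟩, ⟨nat_lit 7, [⟨nat_lit 7, nat_lit 13776, nat_lit 15696, nat_lit 14256, nat_lit 11232, nat_lit 10992, R2_297, R1_234, R1_229⟩]⟩]⟩], [⟨nat_lit 1, [⟨nat_lit 5, [⟨nat_lit 5, nat_lit 3216, nat_lit 15600, nat_lit 9456, nat_lit 6480, nat_lit 9552, R3_197, R0_135, R1_199⟩]⟩]⟩], [⟨nat_lit 1, [⟨nat_lit 5, [⟨nat_lit 7, nat_lit 3360, nat_lit 9120, nat_lit 9120, nat_lit 9072, nat_lit 3360, R3_190, R11_189, R1_70⟩]⟩]⟩,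
 ⟨nat_lit 5, [⟨nat_lit 5, [⟨nat_lit 7, nat_lit 13680, nat_lit 15840, nat_lit 14112, nat_lit 6000, nat_lit 3408, R2_294, R1_125, R1_71⟩]⟩]⟩]], [], [], [], [[], [], [], [⟨nat_lit 1, [⟨nat_lit 5, [⟨nat_lit 7, nat_lit 3408, nat_lit 14112, nat_lit 15840, nat_lit 6000, nat_lit 13680, R3_330, R1_125, R1_285⟩]⟩]⟩]]], [[[⟨nat_lit 5, [⟨nat_lit 5, [⟨nat_lit 4, nat_lit 14160, nat_lit 1056, nat_lit 13584, nat_lit 2640, nat_lit 4368, R12_283, R7_55, R7_91⟩, ⟨nat_lit 5, nat_lit 14256, nat_lit 6192, nat_lit 13824, nat_lit 768, nat_lit 2784, R12_288, R2_16, R2_58⟩, ⟨nat_lit 7, nat_lit 14400, nat_lit 6960, nat_lit 13680, nat_lit 2736, nat_lit 816, R12_285, R2_57, R2_17⟩]⟩]⟩], [⟨nat_lit 5, [⟨nat_lit 4, [⟨nat_lit 4, nat_lit 13824, nat_lit 15024, nat_lit 16512, nat_lit 11856, nat_lit 13104, R14_344, R7_247, R7_273⟩, ⟨nat_lit 7,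 nat_lit 13872, nat_lit 15504, nat_lit 16896, nat_lit 11040, nat_lit 11712, R14_352, R2_230, R2_244⟩]⟩, ⟨nat_lit 5, [⟨nat_lit 4, nat_lit 14208, nat_lit 15072, nat_lit 13920, nat_lit 11952, nat_lit 12528, R12_290, R7_249, R14_261⟩, ⟨nat_lit 5, nat_lit 14304, nat_lit 15888, nat_lit 14496, nat_lit 10416, nat_lit 9792, R12_302, R2_217, R12_204⟩, ⟨nat_lit 7, nat_lit 14448, nat_lit 15648, nat_lit 14304, nat_lit 11472, nat_lit 2112, R12_298, R2_239, R12_44⟩]⟩, ⟨nat_lit 7, [⟨nat_lit 7, nat_lit 15072, nat_lit 15600, nat_lit 15168, nat_lit 11184, nat_lit 12144, R12_316, R2_233, R1_253⟩]⟩]⟩], [⟨nat_lit 5, [⟨nat_lit 5, [⟨nat_lit 5, nat_lit 14352, nat_lit 14880, nat_lit 14736, nat_lit 6912, nat_lit 2256, R12_307, R2_144, R1_47⟩]⟩]⟩]], [[⟨nat_lit 5, [⟨nat_lit 5, [⟨nat_lit 4, nat_lit 14496, nat_lit 15168, nat_lit 13632, nat_lit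 12864, nat_lit 12816, R12_284, R14_268, R7_267⟩, ⟨nat_lit 5, nat_lit 14640, nat_lit 15744, nat_lit 13872, nat_lit 10128, nat_lit 11520, R12_289, R12_211, R2_240⟩, ⟨nat_lit 7, nat_lit 14784, nat_lit 15936, nat_lit 13776, nat_lit 2256, nat_lit 10464, R12_287, R12_47, R2_218⟩]⟩]⟩], [⟨nat_lit 4, [⟨nat_lit 4, [⟨nat_lit 4, nat_lit 12336, nat_lit 18480, nat_lit 1248, nat_lit 1968, nat_lit 4560, R7_26, R7_41, R7_95⟩, ⟨nat_lit 6, nat_lit 12384, nat_lit 18960, nat_lit 7248, nat_lit 528, nat_lit 2976, R7_151, R2_11, R2_62⟩, ⟨nat_lit 7, nat_lit 12432, nat_lit 18672, nat_lit 8112, nat_lit 576, nat_lit 2928, R7_169, R2_12, R2_61⟩]⟩, ⟨nat_lit 6, [⟨nat_lit 6, nat_lit 12480, nat_lit 21072, nat_lit 5472, nat_lit 6240, nat_lit 2448, R2_114, R2_130, R1_51⟩]⟩, ⟨nat_lit 7, [⟨nat_lit 7, nat_lit 12528, nat_lit 20784, nat_lit 5424,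 nat_lit 6288, nat_lit 2400, R2_113, R2_131, R1_50⟩]⟩]⟩,
 ⟨nat_lit 5, [⟨nat_lit 4, [⟨nat_lit 4, nat_lit 13920, nat_lit 18528, nat_lit 16560, nat_lit 14304, nat_lit 13200, R14_345, R14_298, R7_275⟩, ⟨nat_lit 6, nat_lit 13968, nat_lit 19008, nat_lit 16704, nat_lit 9936, nat_lit 11856, R14_348, R12_207, R2_247⟩, ⟨nat_lit 7, nat_lit 14016, nat_lit 18720, nat_lit 16992, nat_lit 10032, nat_lit 11808, R14_354, R12_209, R2_246⟩]⟩, ⟨nat_lit 5, [⟨nat_lit 4, nat_lit 14544, nat_lit 19488, nat_lit 13968, nat_lit 15120, nat_lit 14592, R12_291, R14_315, R14_304⟩, ⟨nat_lit 5, nat_lit 14688, nat_lit 20064, nat_lit 14544, nat_lit 12192, nat_lit 11664, R12_303, R12_254, R12_243⟩, ⟨nat_lit 6, nat_lit 14592, nat_lit 20688, nat_lit 14112, nat_lit 11952, nat_lit 11856, R12_294, R12_249, R12_247⟩, ⟨nat_lit 7, nat_lit 14832, nat_lit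 20256, nat_lit 14400, nat_lit 12048, nat_lit 11808, R12_300, R12_251, R12_246⟩]⟩, ⟨nat_lit 6, [⟨nat_lit 6, nat_lit 14112, nat_lit 21120, nat_lit 15312, nat_lit 10656, nat_lit 12288, R12_319, R12_222, R1_256⟩]⟩, ⟨nat_lit 7, [⟨nat_lit 7, nat_lit 15120, nat_lit 20880, nat_lit 15264, nat_lit 10704, nat_lit 12240, R12_318, R12_223, R1_255⟩]⟩]⟩,
 ⟨nat_lit 6, [⟨nat_lit 6, [⟨nat_lit 6, nat_lit 15600, nat_lit 21168, nat_lit 4176, nat_lit 4944, nat_lit 7824, R1_87, R1_103, R1_163⟩]⟩]⟩,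
 ⟨nat_lit 7, [⟨nat_lit 7, [⟨nat_lit 7, nat_lit 15888, nat_lit 20832, nat_lit 4128, nat_lit 4992, nat_lit 7776, R1_86, R1_104, R1_162⟩]⟩]⟩], [⟨nat_lit 5, [⟨nat_lit 5, [⟨nat_lit 5, nat_lit 14736, nat_lit 13584, nat_lit 14784, nat_lit 10800, nat_lit 12096, R12_308, R12_225, R1_252⟩]⟩]⟩]], [[], [], [⟨nat_lit 5, [⟨nat_lit 5, [⟨nat_lit 5, nat_lit 14880, nat_lit 3504, nat_lit 14832, nat_lit 5616, nat_lit 7632, R12_309, R1_117, R1_159⟩]⟩]⟩]], [[⟨nat_lit 5, [⟨nat_lit 5, [⟨nat_lit 7, nat_lit 14928, nat_lit 14976, nat_lit 13728, nat_lit 2208, nat_lit 6960, R12_286, R1_46, R2_145⟩]⟩]⟩], [⟨nat_lit 5, [⟨nat_lit 4, [⟨nat_lit 7, nat_lit 14064, nat_lit 12528, nat_lit 16944, nat_lit 11616, nat_lit 11760, R14_353, R1_242, R2_245⟩]⟩, ⟨nat_lit 5, [⟨nat_lit 7, nat_lit 14976, nat_lit 13680, nat_lit 14352, nat_lit 12048, nat_lit 6624,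 R12_299, R1_251, R12_138⟩]⟩, ⟨nat_lit 7, [⟨nat_lit 7, nat_lit 15168, nat_lit 13920, nat_lit 15216, nat_lit 11760, nat_lit 12192, R12_317, R1_245, R1_254⟩]⟩]⟩]]], [[[⟨nat_lit 1, [⟨nat_lit 1, [⟨nat_lit 4, nat_lit 3936, nat_lit 3792, nat_lit 4512, nat_lit 3072, nat_lit 4032, R1_94, R4_64, R4_84⟩, ⟨nat_lit 5, nat_lit 3984, nat_lit 10128, nat_lit 4560, nat_lit 9744, nat_lit 14304, R1_95, R3_203, R3_298⟩]⟩, ⟨nat_lit 5, [⟨nat_lit 4, nat_lit 3456, nat_lit 1680, nat_lit 5232, nat_lit 2976, nat_lit 3984, R10_109, R4_62, R7_83⟩, ⟨nat_lit 5, nat_lit 3504, nat_lit 8400, nat_lit 5280, nat_lit 9792, nat_lit 2352, R10_110, R3_204, R2_49⟩]⟩]⟩,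
 ⟨nat_lit 5, [⟨nat_lit 5, [⟨nat_lit 4, nat_lit 15216, nat_lit 1440, nat_lit 12576, nat_lit 2784, nat_lit 3888, R1_262, R7_58, R7_81⟩, ⟨nat_lit 5, nat_lit 15264, nat_lit 8112, nat_lit 12672, nat_lit 864, nat_lit 2256, R1_264, R2_18, R2_47⟩, ⟨nat_lit 7, nat_lit 15360, nat_lit 7344, nat_lit 12624, nat_lit 3024, nat_lit 48, R1_263, R2_63, R2_1⟩]⟩]⟩], [], [⟨nat_lit 1, [⟨nat_lit 1, [⟨nat_lit 5, nat_lit 4032, nat_lit 5568, nat_lit 4608, nat_lit 10032, nat_lit 19488, R1_96, R3_209, R10_406⟩]⟩, ⟨nat_lit 5, [⟨nat_lit 5, nat_lit 3552, nat_lit 5712, nat_lit 5328, nat_lit 10080, nat_lit 1824, R10_111, R3_210, R1_38⟩]⟩]⟩,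
 ⟨nat_lit 5, [⟨nat_lit 5, [⟨nat_lit 5, nat_lit 15312, nat_lit 5904, nat_lit 15936, nat_lit 7056, nat_lit 1728, R1_332, R2_147, R1_36⟩]⟩]⟩]], [], [[], [], [⟨nat_lit 1, [⟨nat_lit 1, [⟨nat_lit 1, nat_lit 4128, nat_lit 21360, nat_lit 4992, nat_lit 7776, nat_lit 15888, R1_104, R1_162, R1_331⟩, ⟨nat_lit 5, nat_lit 4080, nat_lit 21312, nat_lit 5040, nat_lit 8448, nat_lit 19536, R1_105, R10_176, R10_407⟩]⟩, ⟨nat_lit 5, [⟨nat_lit 5, nat_lit 3600, nat_lit 21408, nat_lit 5616, nat_lit 8496, nat_lit 7248, R10_117, R10_177, R1_151⟩]⟩]⟩,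
 ⟨nat_lit 5, [⟨nat_lit 5, [⟨nat_lit 5, nat_lit 15408, nat_lit 21504, nat_lit 16320, nat_lit 5760, nat_lit 7152, R1_340, R1_120, R1_149⟩]⟩]⟩], [], [], [], [⟨nat_lit 1, [⟨nat_lit 1, [⟨nat_lit 1, nat_lit 4176, nat_lit 15600, nat_lit 4944, nat_lit 7824, nat_lit 21792, R1_103, R1_163, R11_454⟩]⟩]⟩]], [[⟨nat_lit 1, [⟨nat_lit 1, [⟨nat_lit 4, nat_lit 4224, nat_lit 14256, nat_lit 4656, nat_lit 816, nat_lit 10368, R1_97, R5_17, R4_216⟩]⟩, ⟨nat_lit 5, [⟨nat_lit 4, nat_lit 3648, nat_lit 12576, nat_lit 5376, nat_lit 3216, nat_lit 10992, R10_112, R5_67, R7_229⟩, ⟨nat_lit 7, nat_lit 3792, nat_lit 13344, nat_lit 5424, nat_lit 9408, nat_lit 5136, R10_113, R11_196, R2_107⟩]⟩]⟩,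
 ⟨nat_lit 5, [⟨nat_lit 5, [⟨nat_lit 7, nat_lit 15456, nat_lit 13392, nat_lit 12912, nat_lit 2496, nat_lit 5184, R1_269, R1_52, R2_108⟩]⟩]⟩], [], [⟨nat_lit 1, [⟨nat_lit 1, [⟨nat_lit 5, nat_lit 4368, nat_lit 14016, nat_lit 4896, nat_lit 6768, nat_lit 19584, R1_102, R0_141, R10_408⟩]⟩, ⟨nat_lit 5, [⟨nat_lit 5, nat_lit 3744, nat_lit 14064, nat_lit 5568, nat_lit 6912, nat_lit 10800, R10_116, R0_144, R1_225⟩]⟩]⟩], [⟨nat_lit 1, [⟨nat_lit 1, [⟨nat_lit 4, nat_lit 4272, nat_lit 19056, nat_lit 4704, nat_lit 7776, nat_lit 7104, R1_98, R5_162, R5_148⟩, ⟨nat_lit 7, nat_lit 4464, nat_lit 19104, nat_lit 4752, nat_lit 9360, nat_lit 21744, R1_99, R11_195, R11_453⟩]⟩, ⟨nat_lit 5, [⟨nat_lit 7, nat_lit 3840, nat_lit 19200, nat_lit 5472, nat_lit 9456, nat_lit 3840, R10_114, R11_197, R1_80⟩]⟩]⟩,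
 ⟨nat_lit 5, [⟨nat_lit 5, [⟨nat_lit 7, nat_lit 15504, nat_lit 19296, nat_lit 15648, nat_lit 7872, nat_lit 3888, R1_326, R1_164, R1_81⟩]⟩]⟩]], [[], [], [], [], [⟨nat_lit 1, [⟨nat_lit 1, [⟨nat_lit 0, nat_lit 4512, nat_lit 3792, nat_lit 3936, nat_lit 3072, nat_lit 4032, R1_82, R4_64, R4_84⟩, ⟨nat_lit 3, nat_lit 4560, nat_lit 10128, nat_lit 3984, nat_lit 9744, nat_lit 14304, R1_83, R3_203, R3_298⟩]⟩]⟩], [], [], [⟨nat_lit 1, [⟨nat_lit 1, [⟨nat_lit 3, nat_lit 4608, nat_lit 5568, nat_lit 4032, nat_lit 10032, nat_lit 19488, R1_84, R3_209, R10_406⟩]⟩]⟩]], [], [[], [], [], [], [⟨nat_lit 1, [⟨nat_lit 1, [⟨nat_lit 0, nat_lit 4656, nat_lit 14256, nat_lit 4224, nat_lit 816, nat_lit 10368, R1_88, R5_17, R4_216⟩]⟩]⟩], [], [⟨nat_lit 1, [⟨nat_lit 1, [⟨nat_lit 0, nat_lit 4704, nat_lit 19056, nat_lit 4272, nat_lit 7776, nat_lit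 7104, R1_89, R5_162, R5_148⟩, ⟨nat_lit 1, nat_lit 4752, nat_lit 19104, nat_lit 4464, nat_lit 9360, nat_lit 21744, R1_93, R11_195, R11_453⟩]⟩]⟩]], [[], [], [], [⟨nat_lit 1, [⟨nat_lit 1, [⟨nat_lit 7, nat_lit 4944, nat_lit 15600, nat_lit 4176, nat_lit 7824, nat_lit 21792, R1_87, R1_163, R11_454⟩]⟩, ⟨nat_lit 5, [⟨nat_lit 7, nat_lit 3888, nat_lit 15648, nat_lit 5184, nat_lit 7872, nat_lit 15504, R10_108, R1_164, R1_323⟩]⟩]⟩], [], [], [], [⟨nat_lit 1, [⟨nat_lit 1, [⟨nat_lit 3, nat_lit 5040, nat_lit 21312, nat_lit 4080, nat_lit 8448, nat_lit 19536, R1_85, R10_176, R10_407⟩, ⟨nat_lit 7, nat_lit 4992, nat_lit 21360, nat_lit 4128, nat_lit 7776, nat_lit 15888, R1_86, R1_162, R1_331⟩]⟩]⟩]]], [[], [], [], [[⟨nat_lit 1, [⟨nat_lit 5, [⟨nat_lit 4, nat_lit 5232, nat_lit 1872, nat_lit 3600, nat_lit 2832, nat_lit 10560, R0_75,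 R5_59, R7_220⟩, ⟨nat_lit 5, nat_lit 5328, nat_lit 8448, nat_lit 3792, nat_lit 6576, nat_lit 9648, R0_79, R0_137, R2_201⟩, ⟨nat_lit 7, nat_lit 5472, nat_lit 6816, nat_lit 3696, nat_lit 9264, nat_lit 4704, R0_77, R11_193, R2_98⟩]⟩]⟩], [⟨nat_lit 1, [⟨nat_lit 4, [⟨nat_lit 4, nat_lit 5088, nat_lit 14688, nat_lit 16272, nat_lit 13008, nat_lit 17904, R5_339, R5_271, R7_373⟩, ⟨nat_lit 7, nat_lit 5136, nat_lit 15168, nat_lit 16608, nat_lit 9168, nat_lit 15456, R5_346, R11_191, R2_322⟩]⟩, ⟨nat_lit 5, [⟨nat_lit 4, nat_lit 5280, nat_lit 16320, nat_lit 3648, nat_lit 14064, nat_lit 13632, R0_76, R5_293, R14_284⟩, ⟨nat_lit 5, nat_lit 5376, nat_lit 17232, nat_lit 3840, nat_lit 6672, nat_lit 11280, R0_80, R0_139, R12_235⟩, ⟨nat_lit 7, nat_lit 5520, nat_lit 17904, nat_lit 3744, nat_lit 9312, nat_lit 5664, R0_78, R11_194, R12_118⟩]⟩,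 ⟨nat_lit 7, [⟨nat_lit 7, nat_lit 5712, nat_lit 18672, nat_lit 5568, nat_lit 9216, nat_lit 16464, R11_116, R11_192, R1_343⟩]⟩]⟩,
 ⟨nat_lit 5, [⟨nat_lit 7, [⟨nat_lit 7, nat_lit 15552, nat_lit 18720, nat_lit 15792, nat_lit 11472, nat_lit 11376, R1_329, R1_239, R1_237⟩]⟩]⟩], [⟨nat_lit 1, [⟨nat_lit 5, [⟨nat_lit 5, nat_lit 5424, nat_lit 8832, nat_lit 3888, nat_lit 6624, nat_lit 10464, R0_81, R0_138, R1_218⟩]⟩]⟩]], [], [], [], [[⟨nat_lit 1, [⟨nat_lit 5, [⟨nat_lit 7, nat_lit 5568, nat_lit 13536, nat_lit 3456, nat_lit 7536, nat_lit 13680, R0_72, R1_157, R2_285⟩]⟩]⟩], [⟨nat_lit 1, [⟨nat_lit 4, [⟨nat_lit 7, nat_lit 5184, nat_lit 13536, nat_lit 16560, nat_lit 6624, nat_lit 15312, R5_345, R1_138, R2_319⟩]⟩, ⟨nat_lit 5, [⟨nat_lit 7, nat_lit 5616, nat_lit 14880, nat_lit 3504, nat_lit 7632, nat_lit 14832, R0_73, R1_159, R12_309⟩]⟩,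 ⟨nat_lit 7, [⟨nat_lit 7, nat_lit 5760, nat_lit 15408, nat_lit 5520, nat_lit 7152, nat_lit 16320, R11_115, R1_149, R1_340⟩]⟩]⟩], [], [⟨nat_lit 1, [⟨nat_lit 5, [⟨nat_lit 7, nat_lit 5664, nat_lit 14880, nat_lit 3552, nat_lit 7584, nat_lit 15024, R0_74, R1_158, R1_313⟩]⟩]⟩]]], [[], [], [], [], [[], [⟨nat_lit 3, [⟨nat_lit 7, [⟨nat_lit 7, nat_lit 10896, nat_lit 13872, nat_lit 14016, nat_lit 10848, nat_lit 13728, R2_292, R2_226, R1_286⟩]⟩]⟩], [], [], [], [⟨nat_lit 0, [⟨nat_lit 0, [⟨nat_lit 0, nat_lit 0, nat_lit 13488, nat_lit 13680, nat_lit 10704, nat_lit 3216, R6_285, R6_223, R4_67⟩, ⟨nat_lit 3, nat_lit 48, nat_lit 13584, nat_lit 13776, nat_lit 13536, nat_lit 15888, R6_287, R13_282, R3_331⟩]⟩, ⟨nat_lit 3, [⟨nat_lit 3, nat_lit 240, nat_lit 13680, nat_lit 19200, nat_lit 13584, nat_lit 14736, R13_400, R13_283, R10_307⟩]⟩]⟩,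
 ⟨nat_lit 1, [⟨nat_lit 0, [⟨nat_lit 0, nat_lit 5808, nat_lit 14304, nat_lit 13440, nat_lit 11568, nat_lit 11664, R4_280, R4_241, R4_243⟩, ⟨nat_lit 3, nat_lit 5856, nat_lit 14400, nat_lit 13584, nat_lit 10272, nat_lit 16656, R4_283, R3_214, R3_347⟩]⟩, ⟨nat_lit 3, [⟨nat_lit 3, nat_lit 5952, nat_lit 14544, nat_lit 15456, nat_lit 10320, nat_lit 14880, R3_322, R3_215, R10_310⟩]⟩]⟩,
 ⟨nat_lit 2, [⟨nat_lit 0, [⟨nat_lit 0, nat_lit 7968, nat_lit 16800, nat_lit 13392, nat_lit 9648, nat_lit 9120, R8_279, R8_201, R4_190⟩, ⟨nat_lit 3, nat_lit 8016, nat_lit 16896, nat_lit 13632, nat_lit 11040, nat_lit 16224, R8_284, R9_230, R3_338⟩]⟩, ⟨nat_lit 2, [⟨nat_lit 0, nat_lit 8208, nat_lit 17088, nat_lit 16320, nat_lit 10224, nat_lit 6336, R5_340, R8_213, R5_132⟩, ⟨nat_lit 2, nat_lit 8256, nat_lit 17232, nat_lit 16416, nat_lit 12912,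 nat_lit 18576, R5_342, R5_269, R11_387⟩]⟩, ⟨nat_lit 3, [⟨nat_lit 3, nat_lit 8544, nat_lit 17040, nat_lit 15552, nat_lit 11088, nat_lit 14832, R9_324, R9_231, R10_309⟩]⟩]⟩,
 ⟨nat_lit 3, [⟨nat_lit 3, [⟨nat_lit 3, nat_lit 11184, nat_lit 15024, nat_lit 15408, nat_lit 10416, nat_lit 14784, R3_321, R3_217, R10_308⟩, ⟨nat_lit 7, nat_lit 11136, nat_lit 15072, nat_lit 15360, nat_lit 10608, nat_lit 13152, R3_320, R2_221, R1_274⟩]⟩, ⟨nat_lit 7, [⟨nat_lit 7, nat_lit 10944, nat_lit 15120, nat_lit 14064, nat_lit 10656, nat_lit 20928, R2_293, R2_222, R11_436⟩]⟩]⟩]], [[], [⟨nat_lit 3, [⟨nat_lit 7, [⟨nat_lit 7, nat_lit 10992, nat_lit 15696, nat_lit 14256, nat_lit 11232, nat_lit 13776, R2_297, R1_234, R1_287⟩]⟩]⟩], [], [], [], [⟨nat_lit 2, [⟨nat_lit 0, [⟨nat_lit 0, nat_lit 8064, nat_lit 15024, nat_lit 13440, nat_lit 528, nat_lit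 9168, R8_280, R5_11, R4_191⟩]⟩, ⟨nat_lit 2, [⟨nat_lit 0, nat_lit 8352, nat_lit 15360, nat_lit 16656, nat_lit 7488, nat_lit 7200, R5_347, R5_156, R5_150⟩, ⟨nat_lit 2, nat_lit 8400, nat_lit 15504, nat_lit 16752, nat_lit 15840, nat_lit 19056, R5_349, R11_330, R11_397⟩]⟩]⟩,
 ⟨nat_lit 3, [⟨nat_lit 3, [⟨nat_lit 3, nat_lit 11280, nat_lit 14208, nat_lit 15744, nat_lit 12288, nat_lit 15552, R3_328, R10_256, R10_324⟩, ⟨nat_lit 7, nat_lit 11232, nat_lit 14256, nat_lit 15696, nat_lit 10992, nat_lit 13776, R3_327, R1_229, R1_287⟩]⟩, ⟨nat_lit 7, [⟨nat_lit 7, nat_lit 11040, nat_lit 14304, nat_lit 14304, nat_lit 11040, nat_lit 21024, R2_298, R1_230, R11_438⟩]⟩]⟩]], [], [[], [], [], [], [], [⟨nat_lit 0, [⟨nat_lit 0, [⟨nat_lit 3, nat_lit 192, nat_lit 11904, nat_lit 13968, nat_lit 624, nat_lit 15936, R6_291, R3_13, R3_332⟩]⟩,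 ⟨nat_lit 3, [⟨nat_lit 3, nat_lit 384, nat_lit 12384, nat_lit 19680, nat_lit 4224, nat_lit 15216, R13_410, R3_88, R10_317⟩, ⟨nat_lit 7, nat_lit 336, nat_lit 12336, nat_lit 19728, nat_lit 3936, nat_lit 13584, R13_411, R2_82, R1_283⟩]⟩]⟩,
 ⟨nat_lit 1, [⟨nat_lit 0, [⟨nat_lit 3, nat_lit 5904, nat_lit 13920, nat_lit 13776, nat_lit 3360, nat_lit 16704, R4_287, R10_70, R3_348⟩]⟩, ⟨nat_lit 3, [⟨nat_lit 3, nat_lit 6048, nat_lit 14160, nat_lit 15792, nat_lit 3936, nat_lit 15312, R3_329, R10_82, R10_319⟩, ⟨nat_lit 7, nat_lit 6000, nat_lit 14112, nat_lit 15840, nat_lit 3408, nat_lit 13680, R3_330, R1_71, R1_285⟩]⟩]⟩,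
 ⟨nat_lit 3, [⟨nat_lit 3, [⟨nat_lit 7, nat_lit 11328, nat_lit 13872, nat_lit 15648, nat_lit 10608, nat_lit 13632, R3_326, R12_221, R1_284⟩]⟩, ⟨nat_lit 7, [⟨nat_lit 7, nat_lit 11088, nat_lit 12768, nat_lit 14352, nat_lit 10560, nat_lit 20976, R2_299, R12_220, R11_437⟩]⟩]⟩]]], [[], [[], [⟨nat_lit 4, [⟨nat_lit 4, [⟨nat_lit 4, nat_lit 12576, nat_lit 15216, nat_lit 1440, nat_lit 1008, nat_lit 4608, R4_30, R7_21, R7_96⟩, ⟨nat_lit 6, nat_lit 12624, nat_lit 15360, nat_lit 7344, nat_lit 48, nat_lit 3024, R4_153, R2_1, R2_63⟩, ⟨nat_lit 7, nat_lit 12672, nat_lit 15264, nat_lit 8112, nat_lit 2256, nat_lit 864, R4_169, R2_47, R2_18⟩]⟩, ⟨nat_lit 6, [⟨nat_lit 6, nat_lit 12912, nat_lit 15456, nat_lit 13392, nat_lit 5184, nat_lit 2496, R3_279, R2_108, R1_52⟩]⟩]⟩,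
 ⟨nat_lit 6, [⟨nat_lit 6, [⟨nat_lit 6, nat_lit 15648, nat_lit 15504, nat_lit 19296, nat_lit 3888, nat_lit 7872, R10_402, R1_81, R1_164⟩]⟩]⟩,
 ⟨nat_lit 7, [⟨nat_lit 4, [⟨nat_lit 7, nat_lit 15936, nat_lit 15312, nat_lit 5904, nat_lit 1728, nat_lit 7056, R5_123, R1_36, R2_147⟩]⟩, ⟨nat_lit 7, [⟨nat_lit 7, nat_lit 16320, nat_lit 15408, nat_lit 21504, nat_lit 7152, nat_lit 5760, R11_448, R1_149, R1_120⟩]⟩]⟩]], [], [], [], [[], [⟨nat_lit 3, [⟨nat_lit 7, [⟨nat_lit 7, nat_lit 11376, nat_lit 19440, nat_lit 15792, nat_lit 11472, nat_lit 15552, R1_329, R1_239, R1_324⟩]⟩]⟩,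
 ⟨nat_lit 4, [⟨nat_lit 4, [⟨nat_lit 4, nat_lit 12720, nat_lit 720, nat_lit 624, nat_lit 1296, nat_lit 4656, R4_13, R4_27, R7_97⟩, ⟨nat_lit 6, nat_lit 12816, nat_lit 768, nat_lit 7008, nat_lit 4848, nat_lit 3072, R4_146, R3_101, R2_64⟩]⟩, ⟨nat_lit 6, [⟨nat_lit 6, nat_lit 12960, nat_lit 912, nat_lit 5088, nat_lit 5952, nat_lit 2544, R3_106, R3_124, R1_53⟩]⟩]⟩,
 ⟨nat_lit 6, [⟨nat_lit 6, [⟨nat_lit 6, nat_lit 15696, nat_lit 12720, nat_lit 19344, nat_lit 12624, nat_lit 7920, R10_403, R10_263, R1_165⟩]⟩]⟩,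
 ⟨nat_lit 7, [⟨nat_lit 4, [⟨nat_lit 4, nat_lit 15984, nat_lit 9936, nat_lit 240, nat_lit 2976, nat_lit 11376, R5_5, R5_62, R7_237⟩, ⟨nat_lit 7, nat_lit 16176, nat_lit 10032, nat_lit 5952, nat_lit 16464, nat_lit 7008, R5_124, R11_343, R2_146⟩]⟩, ⟨nat_lit 7, [⟨nat_lit 7, nat_lit 16464, nat_lit 10176, nat_lit 21552, nat_lit 16512, nat_lit 5712, R11_449, R11_344, R1_119⟩]⟩]⟩], [], [], [], [⟨nat_lit 0, [⟨nat_lit 0, [⟨nat_lit 0, nat_lit 432, nat_lit 12768, nat_lit 576, nat_lit 1344, nat_lit 4464, R4_12, R4_28, R4_93⟩, ⟨nat_lit 3, nat_lit 480, nat_lit 12864, nat_lit 6960, nat_lit 4800, nat_lit 17328, R4_145, R3_100, R3_361⟩]⟩, ⟨nat_lit 3, [⟨nat_lit 3, nat_lit 528, nat_lit 13008, nat_lit 5136, nat_lit 5904, nat_lit 18912, R3_107, R3_123, R10_394⟩]⟩]⟩,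
 ⟨nat_lit 2, [⟨nat_lit 0, [⟨nat_lit 0, nat_lit 8688, nat_lit 16032, nat_lit 2160, nat_lit 576, nat_lit 10752, R5_45, R5_12, R4_224⟩, ⟨nat_lit 3, nat_lit 8736, nat_lit 16128, nat_lit 10992, nat_lit 10032, nat_lit 17616, R5_229, R0_209, R3_367⟩]⟩, ⟨nat_lit 2, [⟨nat_lit 0, nat_lit 8784, nat_lit 16368, nat_lit 21600, nat_lit 7536, nat_lit 7344, R11_450, R5_157, R5_153⟩, ⟨nat_lit 2, nat_lit 8832, nat_lit 16512, nat_lit 21696, nat_lit 16416, nat_lit 21216, R11_452, R11_342, R11_442⟩, ⟨nat_lit 3, nat_lit 8880, nat_lit 16416, nat_lit 21648, nat_lit 10128, nat_lit 13968, R11_451, R0_211, R0_291⟩]⟩, ⟨nat_lit 3, [⟨nat_lit 3, nat_lit 8928, nat_lit 16272, nat_lit 14304, nat_lit 10080, nat_lit 19008, R0_298, R0_210, R10_396⟩]⟩]⟩,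
 ⟨nat_lit 3, [⟨nat_lit 3, [⟨nat_lit 3, nat_lit 11520, nat_lit 15744, nat_lit 19392, nat_lit 12576, nat_lit 18960, R10_404, R10_262, R10_395⟩, ⟨nat_lit 7, nat_lit 11472, nat_lit 15792, nat_lit 19440, nat_lit 11376, nat_lit 15552, R10_405, R1_237, R1_324⟩]⟩, ⟨nat_lit 7, [⟨nat_lit 7, nat_lit 11424, nat_lit 15840, nat_lit 15840, nat_lit 11424, nat_lit 21264, R1_330, R1_238, R11_443⟩]⟩]⟩,
 ⟨nat_lit 4, [⟨nat_lit 4, [⟨nat_lit 4, nat_lit 12768, nat_lit 432, nat_lit 576, nat_lit 1344, nat_lit 4464, R4_12, R4_28, R4_93⟩, ⟨nat_lit 6, nat_lit 12864, nat_lit 480, nat_lit 6960, nat_lit 4800, nat_lit 17328, R4_145, R3_100, R3_361⟩]⟩, ⟨nat_lit 6, [⟨nat_lit 6, nat_lit 13008, nat_lit 528, nat_lit 5136, nat_lit 5904, nat_lit 18912, R3_107, R3_123, R10_394⟩]⟩]⟩,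
 ⟨nat_lit 6, [⟨nat_lit 2, [⟨nat_lit 2, nat_lit 15840, nat_lit 11424, nat_lit 15840, nat_lit 11424, nat_lit 21264, R1_330, R1_238, R11_443⟩]⟩, ⟨nat_lit 6, [⟨nat_lit 2, nat_lit 15792, nat_lit 11472, nat_lit 19440, nat_lit 11376, nat_lit 15552, R10_405, R1_237, R1_324⟩, ⟨nat_lit 6, nat_lit 15744, nat_lit 11520, nat_lit 19392, nat_lit 12576, nat_lit 18960, R10_404, R10_262, R10_395⟩]⟩]⟩,
 ⟨nat_lit 7, [⟨nat_lit 4, [⟨nat_lit 4, nat_lit 16032, nat_lit 8688, nat_lit 2160, nat_lit 576, nat_lit 10752, R5_45, R5_12, R4_224⟩, ⟨nat_lit 6, nat_lit 16128, nat_lit 8736, nat_lit 10992, nat_lit 10032, nat_lit 17616, R5_229, R0_209, R3_367⟩]⟩, ⟨nat_lit 6, [⟨nat_lit 6, nat_lit 16272, nat_lit 8928, nat_lit 14304, nat_lit 10080, nat_lit 19008, R0_298, R0_210, R10_396⟩]⟩, ⟨nat_lit 7, [⟨nat_lit 4, nat_lit 16368, nat_lit 8784, nat_lit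 21600, nat_lit 7536, nat_lit 7344, R11_450, R5_157, R5_153⟩, ⟨nat_lit 6, nat_lit 16416, nat_lit 8880, nat_lit 21648, nat_lit 10128, nat_lit 13968, R11_451, R0_211, R0_291⟩, ⟨nat_lit 7, nat_lit 16512, nat_lit 8832, nat_lit 21696, nat_lit 16416, nat_lit 21216, R11_452, R11_342, R11_442⟩]⟩]⟩]]], [[], [], [], [], [[], [], [], [], [⟨nat_lit 0, [⟨nat_lit 0, [⟨nat_lit 0, nat_lit 576, nat_lit 3168, nat_lit 3312, nat_lit 3984, nat_lit 1584, R8_69, R6_83, R6_33⟩, ⟨nat_lit 3, nat_lit 672, nat_lit 9360, nat_lit 8160, nat_lit 14256, nat_lit 16800, R8_170, R13_297, R13_350⟩]⟩, ⟨nat_lit 1, [⟨nat_lit 0, nat_lit 1392, nat_lit 3696, nat_lit 4608, nat_lit 4224, nat_lit 1536, R5_96, R6_88, R4_32⟩, ⟨nat_lit 3, nat_lit 1440, nat_lit 10752, nat_lit 4992, nat_lit 14352, nat_lit 12624, R5_104, R13_299, R3_263⟩]⟩, ⟨nat_lit 3, [⟨nat_lit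 3, nat_lit 1872, nat_lit 10128, nat_lit 4128, nat_lit 14304, nat_lit 1392, R9_86, R13_298, R3_29⟩]⟩]⟩,
 ⟨nat_lit 1, [⟨nat_lit 0, [⟨nat_lit 0, nat_lit 6096, nat_lit 3216, nat_lit 14400, nat_lit 4224, nat_lit 2016, R5_300, R4_88, R6_42⟩, ⟨nat_lit 3, nat_lit 6192, nat_lit 9408, nat_lit 14544, nat_lit 10608, nat_lit 16896, R5_303, R3_221, R13_352⟩]⟩, ⟨nat_lit 1, [⟨nat_lit 0, nat_lit 6816, nat_lit 3744, nat_lit 4608, nat_lit 4320, nat_lit 1824, R11_96, R4_90, R4_38⟩, ⟨nat_lit 3, nat_lit 6864, nat_lit 10800, nat_lit 4992, nat_lit 10704, nat_lit 12720, R11_104, R3_223, R3_265⟩]⟩]⟩,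
 ⟨nat_lit 2, [⟨nat_lit 0, [⟨nat_lit 0, nat_lit 8976, nat_lit 3360, nat_lit 13392, nat_lit 1776, nat_lit 1968, R9_279, R8_37, R6_41⟩, ⟨nat_lit 3, nat_lit 9072, nat_lit 9552, nat_lit 13632, nat_lit 11952, nat_lit 16848, R9_284, R9_249, R13_351⟩]⟩]⟩], [⟨nat_lit 0, [⟨nat_lit 0, [⟨nat_lit 0, nat_lit 624, nat_lit 4560, nat_lit 3408, nat_lit 11472, nat_lit 4080, R8_71, R6_239, R4_85⟩, ⟨nat_lit 3, nat_lit 720, nat_lit 5040, nat_lit 8496, nat_lit 14784, nat_lit 16848, R8_177, R13_308, R3_351⟩]⟩, ⟨nat_lit 3, [⟨nat_lit 3, nat_lit 1920, nat_lit 5088, nat_lit 4176, nat_lit 14832, nat_lit 16368, R9_87, R13_309, R10_341⟩]⟩]⟩,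
 ⟨nat_lit 1, [⟨nat_lit 0, [⟨nat_lit 0, nat_lit 6144, nat_lit 5328, nat_lit 15984, nat_lit 12000, nat_lit 11712, R5_333, R4_250, R4_244⟩, ⟨nat_lit 3, nat_lit 6240, nat_lit 5520, nat_lit 16080, nat_lit 10800, nat_lit 17184, R5_335, R3_225, R3_358⟩]⟩]⟩,
 ⟨nat_lit 2, [⟨nat_lit 0, [⟨nat_lit 0, nat_lit 9024, nat_lit 6336, nat_lit 15072, nat_lit 9744, nat_lit 10416, R9_314, R8_203, R4_217⟩, ⟨nat_lit 3, nat_lit 9120, nat_lit 7008, nat_lit 15216, nat_lit 12624, nat_lit 17040, R9_317, R9_263, R3_355⟩]⟩, ⟨nat_lit 2, [⟨nat_lit 0, nat_lit 9648, nat_lit 6384, nat_lit 816, nat_lit 10320, nat_lit 6384, R0_17, R8_215, R5_133⟩, ⟨nat_lit 2, nat_lit 9744, nat_lit 7728, nat_lit 6048, nat_lit 13968, nat_lit 19536, R0_126, R5_291, R11_407⟩, ⟨nat_lit 3, nat_lit 9840, nat_lit 7056, nat_lit 8880, nat_lit 12672, nat_lit 13008, R0_185,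 R9_264, R0_271⟩]⟩]⟩,
 ⟨nat_lit 3, [⟨nat_lit 3, [⟨nat_lit 3, nat_lit 11712, nat_lit 5760, nat_lit 2544, nat_lit 10944, nat_lit 16416, R0_53, R3_228, R10_342⟩, ⟨nat_lit 7, nat_lit 11616, nat_lit 5904, nat_lit 12528, nat_lit 11760, nat_lit 14064, R0_261, R2_245, R1_293⟩]⟩]⟩]], [[], [], [], [], [], [⟨nat_lit 0, [⟨nat_lit 0, [⟨nat_lit 0, nat_lit 768, nat_lit 2928, nat_lit 3456, nat_lit 2736, nat_lit 4176, R8_72, R4_57, R4_87⟩, ⟨nat_lit 3, nat_lit 816, nat_lit 3408, nat_lit 8592, nat_lit 7056, nat_lit 16992, R8_179, R3_147, R3_354⟩]⟩, ⟨nat_lit 3, [⟨nat_lit 3, nat_lit 1968, nat_lit 3456, nat_lit 5040, nat_lit 7440, nat_lit 18336, R9_105, R3_155, R10_382⟩]⟩]⟩,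
 ⟨nat_lit 2, [⟨nat_lit 0, [⟨nat_lit 0, nat_lit 9168, nat_lit 4320, nat_lit 15120, nat_lit 672, nat_lit 10512, R9_315, R5_14, R4_219⟩, ⟨nat_lit 3, nat_lit 9216, nat_lit 4992, nat_lit 15312, nat_lit 10800, nat_lit 17136, R9_319, R0_225, R3_357⟩]⟩, ⟨nat_lit 2, [⟨nat_lit 0, nat_lit 9888, nat_lit 4368, nat_lit 864, nat_lit 7632, nat_lit 7248, R0_18, R5_159, R5_151⟩, ⟨nat_lit 2, nat_lit 9936, nat_lit 5712, nat_lit 6096, nat_lit 17040, nat_lit 20736, R0_127, R11_355, R11_432⟩, ⟨nat_lit 3, nat_lit 9984, nat_lit 5040, nat_lit 8976, nat_lit 10848, nat_lit 13872, R0_187, R0_226, R0_289⟩]⟩]⟩,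
 ⟨nat_lit 3, [⟨nat_lit 3, [⟨nat_lit 3, nat_lit 11808, nat_lit 3744, nat_lit 3072, nat_lit 13008, nat_lit 18384, R0_64, R10_271, R10_383⟩, ⟨nat_lit 7, nat_lit 11760, nat_lit 3888, nat_lit 13920, nat_lit 12192, nat_lit 15168, R0_290, R1_254, R1_316⟩]⟩]⟩]], [[], [], [], [], [⟨nat_lit 0, [⟨nat_lit 0, [⟨nat_lit 0, nat_lit 864, nat_lit 1488, nat_lit 3360, nat_lit 1680, nat_lit 7680, R8_70, R8_35, R6_160⟩, ⟨nat_lit 3, nat_lit 1056, nat_lit 8544, nat_lit 8304, nat_lit 6336, nat_lit 17472, R8_173, R9_132, R13_364⟩]⟩, ⟨nat_lit 1, [⟨nat_lit 0, nat_lit 1488, nat_lit 2064, nat_lit 6192, nat_lit 9552, nat_lit 8256, R5_129, R8_199, R4_172⟩, ⟨nat_lit 3, nat_lit 1632, nat_lit 9840, nat_lit 6720, nat_lit 7536, nat_lit 13008, R5_140, R9_157, R3_271⟩]⟩, ⟨nat_lit 3, [⟨nat_lit 3, nat_lit 2016, nat_lit 9312, nat_lit 6624, nat_lit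 7200, nat_lit 7872, R9_138, R9_150, R3_164⟩]⟩]⟩,
 ⟨nat_lit 1, [⟨nat_lit 0, [⟨nat_lit 0, nat_lit 6288, nat_lit 1536, nat_lit 14448, nat_lit 336, nat_lit 8160, R5_301, R5_7, R6_170⟩]⟩, ⟨nat_lit 1, [⟨nat_lit 0, nat_lit 6912, nat_lit 2112, nat_lit 5808, nat_lit 720, nat_lit 8544, R11_121, R5_15, R4_178⟩]⟩]⟩,
 ⟨nat_lit 2, [⟨nat_lit 0, [⟨nat_lit 0, nat_lit 9264, nat_lit 1680, nat_lit 13440, nat_lit 960, nat_lit 8112, R9_280, R9_20, R6_169⟩]⟩]⟩], [⟨nat_lit 0, [⟨nat_lit 0, [⟨nat_lit 0, nat_lit 912, nat_lit 6768, nat_lit 3504, nat_lit 2880, nat_lit 4128, R8_73, R8_60, R4_86⟩, ⟨nat_lit 3, nat_lit 1104, nat_lit 8160, nat_lit 8640, nat_lit 6432, nat_lit 16944, R8_180, R9_134, R3_353⟩]⟩, ⟨nat_lit 3, [⟨nat_lit 3, nat_lit 2064, nat_lit 8208, nat_lit 6672, nat_lit 7296, nat_lit 17280, R9_139, R9_152, R10_360⟩]⟩]⟩,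
 ⟨nat_lit 1, [⟨nat_lit 0, [⟨nat_lit 0, nat_lit 6336, nat_lit 7056, nat_lit 16032, nat_lit 12720, nat_lit 11760, R5_334, R5_265, R4_245⟩]⟩]⟩,
 ⟨nat_lit 2, [⟨nat_lit 0, [⟨nat_lit 0, nat_lit 9312, nat_lit 7296, nat_lit 15168, nat_lit 10368, nat_lit 10464, R9_316, R9_216, R4_218⟩]⟩, ⟨nat_lit 2, [⟨nat_lit 0, nat_lit 10080, nat_lit 7344, nat_lit 912, nat_lit 10704, nat_lit 6816, R0_19, R9_223, R5_142⟩, ⟨nat_lit 2, nat_lit 10224, nat_lit 9168, nat_lit 6144, nat_lit 5328, nat_lit 20112, R0_128, R0_111, R11_419⟩]⟩]⟩,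
 ⟨nat_lit 3, [⟨nat_lit 3, [⟨nat_lit 3, nat_lit 11904, nat_lit 8928, nat_lit 4416, nat_lit 5184, nat_lit 17328, R0_92, R0_108, R10_361⟩]⟩]⟩], [⟨nat_lit 0, [⟨nat_lit 0, [⟨nat_lit 0, nat_lit 960, nat_lit 960, nat_lit 3696, nat_lit 2496, nat_lit 2256, R8_77, R8_52, R8_47⟩, ⟨nat_lit 1, nat_lit 1008, nat_lit 6384, nat_lit 10944, nat_lit 6528, nat_lit 17136, R8_228, R5_136, R5_357⟩, ⟨nat_lit 3, nat_lit 1152, nat_lit 9360, nat_lit 8976, nat_lit 6384, nat_lit 16800, R8_187, R9_133, R9_350⟩]⟩, ⟨nat_lit 1, [⟨nat_lit 0, nat_lit 1536, nat_lit 1536, nat_lit 6240, nat_lit 10080, nat_lit 6240, R5_130, R8_210, R5_130⟩, ⟨nat_lit 1, nat_lit 1584, nat_lit 6960, nat_lit 7152, nat_lit 7680, nat_lit 21840, R5_149, R5_160, R11_455⟩]⟩]⟩,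
 ⟨nat_lit 1, [⟨nat_lit 0, [⟨nat_lit 0, nat_lit 6384, nat_lit 1008, nat_lit 17136, nat_lit 6528, nat_lit 9936, R5_357, R5_136, R8_207⟩, ⟨nat_lit 1, nat_lit 6432, nat_lit 6432, nat_lit 17472, nat_lit 6144, nat_lit 17472, R5_364, R11_128, R5_364⟩]⟩, ⟨nat_lit 1, [⟨nat_lit 0, nat_lit 6960, nat_lit 1584, nat_lit 5856, nat_lit 7680, nat_lit 7152, R11_122, R5_160, R5_149⟩, ⟨nat_lit 1, nat_lit 7008, nat_lit 7008, nat_lit 6768, nat_lit 7296, nat_lit 22176, R11_141, R11_152, R11_462⟩]⟩]⟩,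
 ⟨nat_lit 2, [⟨nat_lit 0, [⟨nat_lit 0, nat_lit 9360, nat_lit 1152, nat_lit 16800, nat_lit 6384, nat_lit 6768, R9_350, R9_133, R8_141⟩]⟩]⟩]], [[], [], [], [], [⟨nat_lit 0, [⟨nat_lit 0, [⟨nat_lit 3, nat_lit 1248, nat_lit 3456, nat_lit 8256, nat_lit 2304, nat_lit 18144, R8_172, R3_48, R13_378⟩]⟩, ⟨nat_lit 1, [⟨nat_lit 3, nat_lit 1776, nat_lit 4848, nat_lit 5664, nat_lit 9936, nat_lit 13440, R5_118, R3_207, R3_280⟩]⟩, ⟨nat_lit 3, [⟨nat_lit 3, nat_lit 2304, nat_lit 4320, nat_lit 5280, nat_lit 7200, nat_lit 6576, R9_110, R3_150, R3_137⟩, ⟨nat_lit 7, nat_lit 2160, nat_lit 13008, nat_lit 5616, nat_lit 6864, nat_lit 13584, R9_117, R2_143, R2_283⟩]⟩]⟩,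
 ⟨nat_lit 1, [⟨nat_lit 0, [⟨nat_lit 3, nat_lit 6672, nat_lit 3504, nat_lit 14592, nat_lit 6000, nat_lit 18240, R5_304, R10_125, R13_380⟩]⟩, ⟨nat_lit 1, [⟨nat_lit 3, nat_lit 7200, nat_lit 4896, nat_lit 5280, nat_lit 6720, nat_lit 13536, R11_110, R10_140, R3_282⟩]⟩]⟩], [⟨nat_lit 0, [⟨nat_lit 0, [⟨nat_lit 3, nat_lit 1296, nat_lit 13152, nat_lit 8544, nat_lit 2736, nat_lit 16896, R8_178, R3_57, R3_352⟩]⟩, ⟨nat_lit 3, [⟨nat_lit 3, nat_lit 2352, nat_lit 13392, nat_lit 5328, nat_lit 7488, nat_lit 17952, R9_111, R3_156, R10_374⟩, ⟨nat_lit 7, nat_lit 2208, nat_lit 12480, nat_lit 5712, nat_lit 6960, nat_lit 14928, R9_119, R2_145, R1_311⟩]⟩]⟩,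
 ⟨nat_lit 1, [⟨nat_lit 0, [⟨nat_lit 3, nat_lit 6720, nat_lit 14976, nat_lit 16128, nat_lit 6096, nat_lit 17232, R5_336, R10_127, R3_359⟩]⟩]⟩], [], [⟨nat_lit 0, [⟨nat_lit 0, [⟨nat_lit 3, nat_lit 1344, nat_lit 2928, nat_lit 8448, nat_lit 2448, nat_lit 3360, R8_176, R3_51, R3_70⟩, ⟨nat_lit 7, nat_lit 1200, nat_lit 13392, nat_lit 15072, nat_lit 6480, nat_lit 14928, R8_314, R2_135, R2_311⟩]⟩, ⟨nat_lit 1, [⟨nat_lit 3, nat_lit 1824, nat_lit 3552, nat_lit 5712, nat_lit 10080, nat_lit 19632, R5_119, R3_210, R10_409⟩, ⟨nat_lit 7, nat_lit 1728, nat_lit 15312, nat_lit 5904, nat_lit 7056, nat_lit 15936, R5_123, R2_147, R1_332⟩]⟩, ⟨nat_lit 3, [⟨nat_lit 7, nat_lit 2256, nat_lit 14352, nat_lit 5664, nat_lit 6912, nat_lit 14736, R9_118, R2_144, R12_307⟩]⟩]⟩,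
 ⟨nat_lit 1, [⟨nat_lit 0, [⟨nat_lit 3, nat_lit 6768, nat_lit 2976, nat_lit 16464, nat_lit 6048, nat_lit 10560, R5_343, R10_126, R3_220⟩, ⟨nat_lit 7, nat_lit 6624, nat_lit 13536, nat_lit 16560, nat_lit 5184, nat_lit 15312, R5_345, R1_108, R2_319⟩]⟩, ⟨nat_lit 1, [⟨nat_lit 3, nat_lit 7248, nat_lit 3600, nat_lit 5328, nat_lit 6768, nat_lit 19968, R11_111, R10_141, R10_416⟩, ⟨nat_lit 7, nat_lit 7152, nat_lit 15408, nat_lit 5520, nat_lit 5760, nat_lit 16320, R11_115, R1_120, R1_340⟩]⟩]⟩]]], [[], [], [], [], [[], [⟨nat_lit 3, [⟨nat_lit 7, [⟨nat_lit 7, nat_lit 12144, nat_lit 15600, nat_lit 15168, nat_lit 11184, nat_lit 15072, R12_316, R2_233, R1_314⟩]⟩]⟩]], [[], [⟨nat_lit 3, [⟨nat_lit 7, [⟨nat_lit 7, nat_lit 12192, nat_lit 13920, nat_lit 15216, nat_lit 11760, nat_lit 15168, R12_317, R1_245, R1_316⟩]⟩]⟩]], [], [[], [⟨nat_lit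 0, [⟨nat_lit 7, [⟨nat_lit 7, nat_lit 2400, nat_lit 20784, nat_lit 5424, nat_lit 6288, nat_lit 12528, R2_113, R2_131, R1_261⟩]⟩]⟩,
 ⟨nat_lit 1, [⟨nat_lit 7, [⟨nat_lit 7, nat_lit 7776, nat_lit 20832, nat_lit 4128, nat_lit 4992, nat_lit 15888, R1_86, R1_104, R1_331⟩]⟩]⟩,
 ⟨nat_lit 3, [⟨nat_lit 7, [⟨nat_lit 7, nat_lit 12240, nat_lit 20880, nat_lit 15264, nat_lit 10704, nat_lit 15120, R12_318, R12_223, R1_315⟩]⟩]⟩], [], [], [], [⟨nat_lit 0, [⟨nat_lit 3, [⟨nat_lit 3, nat_lit 2544, nat_lit 12960, nat_lit 5088, nat_lit 5952, nat_lit 18768, R3_106, R3_124, R10_391⟩, ⟨nat_lit 7, nat_lit 2496, nat_lit 12912, nat_lit 13392, nat_lit 5184, nat_lit 15456, R3_279, R2_108, R1_322⟩]⟩, ⟨nat_lit 7, [⟨nat_lit 7, nat_lit 2448, nat_lit 12480, nat_lit 5472, nat_lit 6240, nat_lit 21072, R2_114, R2_130, R11_439⟩]⟩]⟩,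
 ⟨nat_lit 1, [⟨nat_lit 3, [⟨nat_lit 3, nat_lit 7920, nat_lit 15696, nat_lit 4272, nat_lit 5040, nat_lit 18864, R10_89, R10_105, R10_393⟩, ⟨nat_lit 7, nat_lit 7872, nat_lit 15648, nat_lit 5184, nat_lit 3888, nat_lit 15504, R10_108, R1_81, R1_323⟩]⟩, ⟨nat_lit 7, [⟨nat_lit 7, nat_lit 7824, nat_lit 15600, nat_lit 4176, nat_lit 4944, nat_lit 21168, R1_87, R1_103, R11_441⟩]⟩]⟩,
 ⟨nat_lit 2, [⟨nat_lit 3, [⟨nat_lit 3, nat_lit 10848, nat_lit 16224, nat_lit 14256, nat_lit 10224, nat_lit 18816, R0_297, R0_213, R10_392⟩]⟩]⟩,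
 ⟨nat_lit 3, [⟨nat_lit 7, [⟨nat_lit 7, nat_lit 12288, nat_lit 14112, nat_lit 15312, nat_lit 10656, nat_lit 21120, R12_319, R12_222, R11_440⟩]⟩]⟩]]]]
noncomputable def N2655 : T3 (List N0) := [[[[⟨nat_lit 1, [⟨nat_lit 1, [⟨nat_lit 4, nat_lit 12672, nat_lit 7536, nat_lit 1296, nat_lit 2352, nat_lit 3456, R2_27, R4_49, R4_72⟩, ⟨nat_lit 5, nat_lit 13008, nat_lit 7824, nat_lit 1344, nat_lit 2160, nat_lit 11856, R2_28, R3_45, R3_247⟩]⟩, ⟨nat_lit 5, [⟨nat_lit 4, nat_lit 12720, nat_lit 9072, nat_lit 11616, nat_lit 2304, nat_lit 3504, R3_242, R4_48, R7_73⟩, ⟨nat_lit 5, nat_lit 13056, nat_lit 9216, nat_lit 11760, nat_lit 2208, nat_lit 1824, R3_245, R3_46, R2_38⟩]⟩]⟩], [⟨nat_lit 1, [⟨nat_lit 5, [⟨nat_lit 4, nat_lit 12768, nat_lit 9744, nat_lit 13920, nat_lit 11184, nat_lit 13056, R3_290, R4_233, R14_272⟩, ⟨nat_lit 5, nat_lit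 13200, nat_lit 9984, nat_lit 14112, nat_lit 2880, nat_lit 10320, R3_294, R3_60, R12_215⟩]⟩]⟩], [⟨nat_lit 1, [⟨nat_lit 1, [⟨nat_lit 5, nat_lit 13104, nat_lit 5808, nat_lit 2496, nat_lit 2688, nat_lit 18048, R2_52, R3_56, R10_376⟩]⟩, ⟨nat_lit 5, [⟨nat_lit 5, nat_lit 13152, nat_lit 5760, nat_lit 16896, nat_lit 2736, nat_lit 1296, R3_352, R3_57, R1_27⟩]⟩]⟩]], [], [[], [], [⟨nat_lit 1, [⟨nat_lit 1, [⟨nat_lit 1, nat_lit 15168, nat_lit 15600, nat_lit 11184, nat_lit 12144, nat_lit 15072, R2_233, R1_253, R1_314⟩, ⟨nat_lit 5, nat_lit 14928, nat_lit 15552, nat_lit 11232, nat_lit 12912, nat_lit 18096, R2_234, R10_269, R10_377⟩]⟩, ⟨nat_lit 5, [⟨nat_lit 5, nat_lit 14976, nat_lit 16128, nat_lit 17232, nat_lit 12960, nat_lit 6720, R3_359, R10_270, R1_140⟩]⟩]⟩]], [[⟨nat_lit 1, [⟨nat_lit 1, [⟨nat_lit 4, nat_lit 15504, nat_lit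 17232, nat_lit 8352, nat_lit 480, nat_lit 9504, R2_174, R5_10, R4_198⟩]⟩, ⟨nat_lit 5, [⟨nat_lit 4, nat_lit 15552, nat_lit 18768, nat_lit 11952, nat_lit 2688, nat_lit 9648, R3_249, R5_56, R7_201⟩, ⟨nat_lit 5, nat_lit 16128, nat_lit 18864, nat_lit 12240, nat_lit 10656, nat_lit 8688, R3_255, R0_222, R2_181⟩, ⟨nat_lit 7, nat_lit 16848, nat_lit 18816, nat_lit 12096, nat_lit 16896, nat_lit 3840, R3_252, R11_352, R2_80⟩]⟩]⟩], [⟨nat_lit 1, [⟨nat_lit 5, [⟨nat_lit 4, nat_lit 15600, nat_lit 14736, nat_lit 14640, nat_lit 13920, nat_lit 13440, R3_305, R5_290, R14_280⟩, ⟨nat_lit 5, nat_lit 16272, nat_lit 14832, nat_lit 14976, nat_lit 10752, nat_lit 11088, R3_312, R0_224, R12_231⟩, ⟨nat_lit 7, nat_lit 16896, nat_lit 14784, nat_lit 14784, nat_lit 16992, nat_lit 5424, R3_308, R11_354, R12_113⟩]⟩]⟩], [⟨nat_lit 1, [⟨nat_lit 1,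 [⟨nat_lit 5, nat_lit 16176, nat_lit 14496, nat_lit 10128, nat_lit 10560, nat_lit 18144, R2_211, R0_220, R10_378⟩]⟩, ⟨nat_lit 5, [⟨nat_lit 5, nat_lit 16224, nat_lit 15264, nat_lit 17088, nat_lit 10704, nat_lit 9504, R3_356, R0_223, R1_198⟩]⟩]⟩], [⟨nat_lit 1, [⟨nat_lit 1, [⟨nat_lit 4, nat_lit 15648, nat_lit 7728, nat_lit 9072, nat_lit 7440, nat_lit 6960, R2_189, R5_155, R5_145⟩, ⟨nat_lit 7, nat_lit 16944, nat_lit 8016, nat_lit 9120, nat_lit 16848, nat_lit 20400, R2_190, R11_351, R11_425⟩]⟩, ⟨nat_lit 5, [⟨nat_lit 7, nat_lit 16992, nat_lit 9216, nat_lit 15552, nat_lit 16944, nat_lit 3312, R3_324, R11_353, R1_69⟩]⟩]⟩]], [], [], [], [[], [], [], [⟨nat_lit 0, [⟨nat_lit 1, [⟨nat_lit 7, nat_lit 9840, nat_lit 12624, nat_lit 15264, nat_lit 10704, nat_lit 20304, R7_318, R2_223, R11_423⟩]⟩, ⟨nat_lit 5, [⟨nat_lit 7, nat_lit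 9888, nat_lit 13776, nat_lit 13968, nat_lit 10944, nat_lit 13488, R4_291, R2_228, R1_281⟩]⟩]⟩,
 ⟨nat_lit 1, [⟨nat_lit 1, [⟨nat_lit 7, nat_lit 10560, nat_lit 12768, nat_lit 14352, nat_lit 11088, nat_lit 20448, R2_299, R1_231, R11_426⟩]⟩, ⟨nat_lit 5, [⟨nat_lit 7, nat_lit 10608, nat_lit 13872, nat_lit 15648, nat_lit 11328, nat_lit 13632, R3_326, R1_236, R1_284⟩]⟩]⟩,
 ⟨nat_lit 3, [⟨nat_lit 1, [⟨nat_lit 7, nat_lit 11904, nat_lit 13248, nat_lit 13248, nat_lit 11472, nat_lit 20352, R2_276, R12_239, R11_424⟩]⟩]⟩]]], [[[⟨nat_lit 1, [⟨nat_lit 1, [⟨nat_lit 4, nat_lit 12816, nat_lit 624, nat_lit 768, nat_lit 2736, nat_lit 4176, R1_16, R4_57, R4_87⟩, ⟨nat_lit 5, nat_lit 13248, nat_lit 6000, nat_lit 816, nat_lit 7056, nat_lit 16992, R1_17, R3_147, R3_354⟩]⟩, ⟨nat_lit 5, [⟨nat_lit 4, nat_lit 12864, nat_lit 720, nat_lit 1056,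 nat_lit 2688, nat_lit 4464, R10_22, R4_56, R7_93⟩, ⟨nat_lit 5, nat_lit 13296, nat_lit 6096, nat_lit 1104, nat_lit 7104, nat_lit 2880, R10_23, R3_148, R2_60⟩]⟩]⟩,
 ⟨nat_lit 5, [⟨nat_lit 5, [⟨nat_lit 4, nat_lit 12336, nat_lit 1104, nat_lit 14160, nat_lit 2688, nat_lit 4320, R1_295, R7_56, R7_90⟩, ⟨nat_lit 5, nat_lit 12432, nat_lit 6240, nat_lit 14400, nat_lit 816, nat_lit 2736, R1_300, R2_17, R2_57⟩, ⟨nat_lit 7, nat_lit 12576, nat_lit 7008, nat_lit 14256, nat_lit 2784, nat_lit 768, R1_297, R2_58, R2_16⟩]⟩]⟩], [⟨nat_lit 1, [⟨nat_lit 5, [⟨nat_lit 4, nat_lit 12912, nat_lit 5280, nat_lit 1488, nat_lit 11472, nat_lit 13104, R10_31, R4_239, R14_273⟩, ⟨nat_lit 5, nat_lit 13440, nat_lit 5472, nat_lit 1536, nat_lit 7584, nat_lit 10368, R10_32, R3_158, R12_216⟩]⟩]⟩,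
 ⟨nat_lit 5, [⟨nat_lit 5, [⟨nat_lit 4, nat_lit 12384, nat_lit 15168, nat_lit 14496, nat_lit 12000, nat_lit 12432, R1_302, R7_250, R14_259⟩, ⟨nat_lit 5, nat_lit 12528, nat_lit 15936, nat_lit 14784, nat_lit 10464, nat_lit 9696, R1_308, R2_218, R12_202⟩, ⟨nat_lit 7, nat_lit 12624, nat_lit 15744, nat_lit 14640, nat_lit 11520, nat_lit 2064, R1_305, R2_240, R12_43⟩]⟩]⟩], [⟨nat_lit 1, [⟨nat_lit 1, [⟨nat_lit 5, nat_lit 13344, nat_lit 5040, nat_lit 1968, nat_lit 7440, nat_lit 18336, R1_41, R3_155, R10_382⟩]⟩, ⟨nat_lit 5, [⟨nat_lit 5, nat_lit 13392, nat_lit 4992, nat_lit 2112, nat_lit 7488, nat_lit 2352, R10_44, R3_156, R1_49⟩]⟩]⟩,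
 ⟨nat_lit 5, [⟨nat_lit 5, [⟨nat_lit 5, nat_lit 12480, nat_lit 14976, nat_lit 14928, nat_lit 6960, nat_lit 2208, R1_311, R2_145, R1_46⟩]⟩]⟩]], [[⟨nat_lit 5, [⟨nat_lit 5, [⟨nat_lit 4, nat_lit 14016, nat_lit 15072, nat_lit 14208, nat_lit 12912, nat_lit 12768, R1_296, R14_269, R7_266⟩, ⟨nat_lit 5, nat_lit 14160, nat_lit 15648, nat_lit 14448, nat_lit 10176, nat_lit 11472, R1_301, R12_212, R2_239⟩, ⟨nat_lit 7, nat_lit 14592, nat_lit 15888, nat_lit 14304, nat_lit 2304, nat_lit 10416, R1_298, R12_48, R2_217⟩]⟩]⟩], [⟨nat_lit 5, [⟨nat_lit 5, [⟨nat_lit 4, nat_lit 14064, nat_lit 19392, nat_lit 14544, nat_lit 15216, nat_lit 14496, R1_303, R14_317, R14_302⟩, ⟨nat_lit 5, nat_lit 14256, nat_lit 19968, nat_lit 14832, nat_lit 12288, nat_lit 11568, R1_309, R12_256, R12_241⟩, ⟨nat_lit 6, nat_lit 14448, nat_lit 20544, nat_lit 14592,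 nat_lit 12240, nat_lit 11616, R1_304, R12_255, R12_242⟩, ⟨nat_lit 7, nat_lit 14640, nat_lit 20208, nat_lit 14688, nat_lit 12096, nat_lit 11760, R1_306, R12_252, R12_245⟩]⟩]⟩], [⟨nat_lit 5, [⟨nat_lit 5, [⟨nat_lit 5, nat_lit 14208, nat_lit 13680, nat_lit 14976, nat_lit 10848, nat_lit 12048, R1_312, R12_226, R1_251⟩]⟩]⟩]], [[], [], [⟨nat_lit 1, [⟨nat_lit 1, [⟨nat_lit 1, nat_lit 15216, nat_lit 13920, nat_lit 11760, nat_lit 12192, nat_lit 15168, R1_245, R1_254, R1_316⟩, ⟨nat_lit 5, nat_lit 15024, nat_lit 3072, nat_lit 11808, nat_lit 13008, nat_lit 18384, R1_246, R10_271, R10_383⟩]⟩, ⟨nat_lit 5, [⟨nat_lit 5, nat_lit 15072, nat_lit 3168, nat_lit 12816, nat_lit 13056, nat_lit 7728, R10_267, R10_272, R1_161⟩]⟩]⟩,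
 ⟨nat_lit 5, [⟨nat_lit 5, [⟨nat_lit 5, nat_lit 14880, nat_lit 3552, nat_lit 15024, nat_lit 5664, nat_lit 7584, R1_313, R1_118, R1_158⟩]⟩]⟩]], [[⟨nat_lit 1, [⟨nat_lit 1, [⟨nat_lit 4, nat_lit 15696, nat_lit 15120, nat_lit 9168, nat_lit 672, nat_lit 10512, R1_191, R5_14, R4_219⟩]⟩, ⟨nat_lit 5, [⟨nat_lit 4, nat_lit 15744, nat_lit 14208, nat_lit 10560, nat_lit 3072, nat_lit 11328, R10_220, R5_64, R7_236⟩, ⟨nat_lit 5, nat_lit 16416, nat_lit 14544, nat_lit 10656, nat_lit 10896, nat_lit 10224, R10_222, R0_227, R2_213⟩, ⟨nat_lit 7, nat_lit 17040, nat_lit 14832, nat_lit 10608, nat_lit 17088, nat_lit 6816, R10_221, R11_356, R2_142⟩]⟩]⟩,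
 ⟨nat_lit 5, [⟨nat_lit 5, [⟨nat_lit 7, nat_lit 15360, nat_lit 14880, nat_lit 14352, nat_lit 2256, nat_lit 6912, R1_299, R1_47, R2_144⟩]⟩]⟩], [⟨nat_lit 1, [⟨nat_lit 5, [⟨nat_lit 4, nat_lit 15792, nat_lit 12912, nat_lit 11232, nat_lit 14208, nat_lit 13536, R10_234, R5_296, R14_282⟩, ⟨nat_lit 5, nat_lit 16464, nat_lit 13248, nat_lit 11328, nat_lit 10944, nat_lit 11184, R10_236, R0_228, R12_233⟩, ⟨nat_lit 7, nat_lit 17088, nat_lit 13536, nat_lit 11280, nat_lit 17184, nat_lit 5856, R10_235, R11_358, R12_122⟩]⟩]⟩,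
 ⟨nat_lit 5, [⟨nat_lit 5, [⟨nat_lit 7, nat_lit 15408, nat_lit 13584, nat_lit 14736, nat_lit 12096, nat_lit 6576, R1_307, R1_252, R12_137⟩]⟩]⟩]]], [[[⟨nat_lit 1, [⟨nat_lit 1, [⟨nat_lit 4, nat_lit 12960, nat_lit 3744, nat_lit 5904, nat_lit 3120, nat_lit 3984, R12_123, R4_65, R4_83⟩, ⟨nat_lit 5, nat_lit 13488, nat_lit 10080, nat_lit 5952, nat_lit 9840, nat_lit 14208, R12_124, R3_205, R3_296⟩]⟩]⟩], [], [⟨nat_lit 1, [⟨nat_lit 1, [⟨nat_lit 5, nat_lit 13536, nat_lit 5616, nat_lit 6000, nat_lit 10224, nat_lit 18192, R12_125, R3_213, R10_379⟩]⟩]⟩]], [], [[], [], [⟨nat_lit 1, [⟨nat_lit 1, [⟨nat_lit 1, nat_lit 15264, nat_lit 19920, nat_lit 6432, nat_lit 12240, nat_lit 15120, R12_134, R1_255, R1_315⟩, ⟨nat_lit 5, nat_lit 15120, nat_lit 19872, nat_lit 6672, nat_lit 13104, nat_lit 18240, R12_139, R10_273, R10_380⟩]⟩]⟩], [],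 [], [], [⟨nat_lit 1, [⟨nat_lit 1, [⟨nat_lit 1, nat_lit 15312, nat_lit 14112, nat_lit 6480, nat_lit 12288, nat_lit 20640, R12_135, R1_256, R11_430⟩]⟩]⟩]], [[⟨nat_lit 1, [⟨nat_lit 1, [⟨nat_lit 4, nat_lit 15888, nat_lit 14016, nat_lit 6048, nat_lit 864, nat_lit 10320, R12_126, R5_18, R4_215⟩]⟩]⟩], [], [⟨nat_lit 1, [⟨nat_lit 1, [⟨nat_lit 5, nat_lit 16608, nat_lit 13200, nat_lit 6288, nat_lit 11184, nat_lit 18288, R12_131, R0_233, R10_381⟩]⟩]⟩], [⟨nat_lit 1, [⟨nat_lit 1, [⟨nat_lit 4, nat_lit 15936, nat_lit 16944, nat_lit 6096, nat_lit 7824, nat_lit 7056, R12_127, R5_163, R5_147⟩, ⟨nat_lit 7, nat_lit 17232, nat_lit 16992, nat_lit 6144, nat_lit 17328, nat_lit 20592, R12_128, R11_361, R11_429⟩]⟩]⟩]], [[], [], [], [], [⟨nat_lit 0, [⟨nat_lit 0, [⟨nat_lit 0, nat_lit 96, nat_lit 3360, nat_lit 3120, nat_lit 3216, nat_lit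 3600, R7_65, R6_67, R6_75⟩, ⟨nat_lit 3, nat_lit 384, nat_lit 9360, nat_lit 9312, nat_lit 13056, nat_lit 18480, R7_194, R13_272, R13_385⟩]⟩, ⟨nat_lit 1, [⟨nat_lit 0, nat_lit 144, nat_lit 3648, nat_lit 4608, nat_lit 3360, nat_lit 3552, R14_96, R6_70, R4_74⟩, ⟨nat_lit 3, nat_lit 432, nat_lit 9936, nat_lit 5136, nat_lit 13104, nat_lit 14064, R14_107, R13_273, R3_293⟩]⟩]⟩,
 ⟨nat_lit 1, [⟨nat_lit 1, [⟨nat_lit 0, nat_lit 576, nat_lit 3744, nat_lit 2976, nat_lit 3120, nat_lit 3984, R12_62, R4_65, R4_83⟩, ⟨nat_lit 3, nat_lit 624, nat_lit 10080, nat_lit 3504, nat_lit 9840, nat_lit 14208, R12_73, R3_205, R3_296⟩]⟩]⟩,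
 ⟨nat_lit 2, [⟨nat_lit 0, [⟨nat_lit 0, nat_lit 912, nat_lit 3408, nat_lit 1440, nat_lit 1872, nat_lit 3744, R2_30, R8_39, R6_78⟩, ⟨nat_lit 3, nat_lit 1488, nat_lit 9456, nat_lit 8496, nat_lit 10320, nat_lit 18576, R2_177, R9_215, R13_387⟩]⟩, ⟨nat_lit 1, [⟨nat_lit 0, nat_lit 1008, nat_lit 3888, nat_lit 6816, nat_lit 3072, nat_lit 3888, R12_142, R8_64, R4_81⟩, ⟨nat_lit 3, nat_lit 1584, nat_lit 10224, nat_lit 8256, nat_lit 10416, nat_lit 14160, R12_172, R9_217, R3_295⟩]⟩, ⟨nat_lit 2, [⟨nat_lit 0, nat_lit 960, nat_lit 4128, nat_lit 912, nat_lit 2736, nat_lit 1968, R1_19, R8_57, R8_41⟩, ⟨nat_lit 2, nat_lit 1152, nat_lit 11760, nat_lit 6336, nat_lit 12720, nat_lit 16032, R1_132, R5_265, R5_334⟩, ⟨nat_lit 3, nat_lit 1536, nat_lit 10464, nat_lit 9312, nat_lit 10368, nat_lit 15168, R1_194, R9_216, R9_316⟩]⟩]⟩,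
 ⟨nat_lit 3, [⟨nat_lit 0, [⟨nat_lit 3, nat_lit 2448, nat_lit 9408, nat_lit 3408, nat_lit 2784, nat_lit 18528, R2_71, R3_58, R13_386⟩]⟩, ⟨nat_lit 1, [⟨nat_lit 3, nat_lit 2496, nat_lit 9984, nat_lit 13200, nat_lit 2880, nat_lit 14112, R12_275, R3_60, R3_294⟩]⟩, ⟨nat_lit 3, [⟨nat_lit 3, nat_lit 2544, nat_lit 9600, nat_lit 2880, nat_lit 2832, nat_lit 3216, R1_60, R3_59, R3_67⟩, ⟨nat_lit 7, nat_lit 2160, nat_lit 14016, nat_lit 13344, nat_lit 10320, nat_lit 13824, R1_278, R2_215, R2_288⟩]⟩]⟩], [], [], [⟨nat_lit 0, [⟨nat_lit 0, [⟨nat_lit 3, nat_lit 480, nat_lit 4848, nat_lit 10080, nat_lit 13344, nat_lit 1344, R7_210, R13_278, R3_28⟩]⟩, ⟨nat_lit 1, [⟨nat_lit 3, nat_lit 528, nat_lit 4944, nat_lit 5184, nat_lit 13392, nat_lit 16176, R14_108, R13_279, R10_337⟩]⟩]⟩,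
 ⟨nat_lit 1, [⟨nat_lit 1, [⟨nat_lit 3, nat_lit 672, nat_lit 5616, nat_lit 3552, nat_lit 10224, nat_lit 18192, R12_74, R3_213, R10_379⟩]⟩]⟩,
 ⟨nat_lit 2, [⟨nat_lit 0, [⟨nat_lit 3, nat_lit 1632, nat_lit 6576, nat_lit 9264, nat_lit 10656, nat_lit 7824, R2_193, R9_222, R3_163⟩]⟩, ⟨nat_lit 1, [⟨nat_lit 3, nat_lit 1728, nat_lit 6672, nat_lit 8304, nat_lit 10752, nat_lit 17136, R12_173, R9_224, R10_357⟩]⟩]⟩,
 ⟨nat_lit 3, [⟨nat_lit 0, [⟨nat_lit 3, nat_lit 2592, nat_lit 5424, nat_lit 4272, nat_lit 7536, nat_lit 6528, R2_89, R3_157, R3_136⟩, ⟨nat_lit 7, nat_lit 2208, nat_lit 15840, nat_lit 12960, nat_lit 10368, nat_lit 13440, R2_270, R2_216, R2_280⟩]⟩, ⟨nat_lit 1, [⟨nat_lit 3, nat_lit 2640, nat_lit 5472, nat_lit 13440, nat_lit 7584, nat_lit 17808, R12_280, R3_158, R10_371⟩, ⟨nat_lit 7, nat_lit 2256, nat_lit 15936, nat_lit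 12528, nat_lit 10464, nat_lit 14784, R12_261, R2_218, R1_308⟩]⟩, ⟨nat_lit 3, [⟨nat_lit 7, nat_lit 2304, nat_lit 15888, nat_lit 14304, nat_lit 10416, nat_lit 14592, R1_298, R2_217, R12_304⟩]⟩]⟩]], [], [[], [], [], [], [⟨nat_lit 0, [⟨nat_lit 0, [⟨nat_lit 0, nat_lit 6864, nat_lit 11664, nat_lit 3312, nat_lit 1824, nat_lit 9120, R7_69, R8_38, R6_190⟩, ⟨nat_lit 3, nat_lit 7488, nat_lit 12000, nat_lit 9504, nat_lit 12192, nat_lit 18960, R7_198, R9_254, R13_395⟩]⟩, ⟨nat_lit 1, [⟨nat_lit 0, nat_lit 6912, nat_lit 13968, nat_lit 6432, nat_lit 9792, nat_lit 9840, R14_134, R8_204, R4_205⟩, ⟨nat_lit 3, nat_lit 7536, nat_lit 14688, nat_lit 7104, nat_lit 12960, nat_lit 14928, R14_148, R9_270, R3_311⟩]⟩]⟩,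
 ⟨nat_lit 1, [⟨nat_lit 1, [⟨nat_lit 0, nat_lit 7776, nat_lit 14016, nat_lit 4416, nat_lit 864, nat_lit 10320, R12_92, R5_18, R4_215⟩]⟩]⟩,
 ⟨nat_lit 2, [⟨nat_lit 0, [⟨nat_lit 0, nat_lit 8352, nat_lit 11808, nat_lit 1632, nat_lit 1056, nat_lit 9312, R2_34, R9_22, R6_194⟩]⟩, ⟨nat_lit 1, [⟨nat_lit 0, nat_lit 8448, nat_lit 14160, nat_lit 7392, nat_lit 1776, nat_lit 10224, R12_154, R9_37, R4_213⟩]⟩, ⟨nat_lit 2, [⟨nat_lit 0, nat_lit 8400, nat_lit 16944, nat_lit 1104, nat_lit 1488, nat_lit 6480, R1_23, R9_31, R8_135⟩]⟩]⟩], [], [⟨nat_lit 0, [⟨nat_lit 0, [⟨nat_lit 0, nat_lit 6960, nat_lit 16512, nat_lit 4176, nat_lit 2688, nat_lit 2064, R7_87, R8_56, R8_43⟩, ⟨nat_lit 1, nat_lit 7104, nat_lit 16560, nat_lit 12624, nat_lit 13728, nat_lit 15120, R7_263, R5_286, R5_315⟩, ⟨nat_lit 3, nat_lit 7584, nat_lit 16608, nat_lit 11184,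 nat_lit 12288, nat_lit 14256, R7_233, R9_256, R9_297⟩]⟩, ⟨nat_lit 1, [⟨nat_lit 0, nat_lit 7008, nat_lit 16800, nat_lit 6480, nat_lit 10368, nat_lit 6144, R14_135, R8_216, R5_128⟩, ⟨nat_lit 1, nat_lit 7152, nat_lit 16848, nat_lit 7776, nat_lit 14256, nat_lit 19440, R14_162, R5_297, R11_405⟩]⟩]⟩,
 ⟨nat_lit 1, [⟨nat_lit 1, [⟨nat_lit 0, nat_lit 7824, nat_lit 16944, nat_lit 4464, nat_lit 7824, nat_lit 7056, R12_93, R5_163, R5_147⟩, ⟨nat_lit 1, nat_lit 7872, nat_lit 16992, nat_lit 5760, nat_lit 17328, nat_lit 20592, R12_120, R11_361, R11_429⟩]⟩]⟩,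
 ⟨nat_lit 2, [⟨nat_lit 0, [⟨nat_lit 0, nat_lit 8496, nat_lit 16704, nat_lit 2592, nat_lit 6480, nat_lit 6576, R2_54, R9_135, R8_137⟩]⟩, ⟨nat_lit 1, [⟨nat_lit 0, nat_lit 8592, nat_lit 17136, nat_lit 7440, nat_lit 7680, nat_lit 6672, R12_155, R9_160, R5_139⟩]⟩, ⟨nat_lit 2, [⟨nat_lit 0, nat_lit 8544, nat_lit 17280, nat_lit 2064, nat_lit 7344, nat_lit 6576, R1_43, R9_153, R9_137⟩]⟩]⟩]], [[], [], [], [⟨nat_lit 0, [⟨nat_lit 1, [⟨nat_lit 7, nat_lit 9936, nat_lit 13968, nat_lit 5952, nat_lit 11856, nat_lit 20496, R14_124, R2_247, R11_427⟩]⟩]⟩,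
 ⟨nat_lit 1, [⟨nat_lit 1, [⟨nat_lit 7, nat_lit 10656, nat_lit 14112, nat_lit 3936, nat_lit 12288, nat_lit 20640, R12_82, R1_256, R11_430⟩]⟩]⟩,
 ⟨nat_lit 3, [⟨nat_lit 1, [⟨nat_lit 7, nat_lit 11952, nat_lit 14592, nat_lit 14112, nat_lit 11856, nat_lit 20544, R12_294, R12_247, R11_428⟩]⟩]⟩], [], [], [], [⟨nat_lit 0, [⟨nat_lit 0, [⟨nat_lit 3, nat_lit 10464, nat_lit 19584, nat_lit 10224, nat_lit 3504, nat_lit 1584, R7_213, R3_73, R3_33⟩, ⟨nat_lit 7, nat_lit 9984, nat_lit 19632, nat_lit 15360, nat_lit 11664, nat_lit 12672, R7_320, R2_243, R2_264⟩]⟩, ⟨nat_lit 1, [⟨nat_lit 3, nat_lit 10512, nat_lit 19776, nat_lit 5808, nat_lit 10992, nat_lit 16224, R14_121, R3_229, R10_338⟩, ⟨nat_lit 7, nat_lit 10032, nat_lit 19824, nat_lit 6000, nat_lit 11808, nat_lit 14016, R14_125, R2_246, R1_292⟩]⟩]⟩,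
 ⟨nat_lit 1, [⟨nat_lit 1, [⟨nat_lit 3, nat_lit 10896, nat_lit 19872, nat_lit 3792, nat_lit 13104, nat_lit 18240, R12_79, R10_273, R10_380⟩, ⟨nat_lit 7, nat_lit 10704, nat_lit 19920, nat_lit 3984, nat_lit 12240, nat_lit 15120, R12_83, R1_255, R1_315⟩]⟩]⟩,
 ⟨nat_lit 3, [⟨nat_lit 0, [⟨nat_lit 7, nat_lit 12000, nat_lit 19680, nat_lit 13344, nat_lit 11712, nat_lit 13488, R2_278, R12_244, R2_281⟩]⟩, ⟨nat_lit 1, [⟨nat_lit 7, nat_lit 12048, nat_lit 19968, nat_lit 14256, nat_lit 11808, nat_lit 14832, R12_297, R12_246, R1_309⟩]⟩, ⟨nat_lit 3, [⟨nat_lit 7, nat_lit 12096, nat_lit 20064, nat_lit 14688, nat_lit 11760, nat_lit 14640, R1_306, R12_245, R12_305⟩]⟩]⟩]]], [[], [], [], [[⟨nat_lit 1, [⟨nat_lit 5, [⟨nat_lit 4, nat_lit 15984, nat_lit 1824, nat_lit 13296, nat_lit 2880, nat_lit 10512, R0_277, R5_60, R7_219⟩, ⟨nat_lit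 5, nat_lit 16704, nat_lit 8400, nat_lit 13440, nat_lit 10992, nat_lit 9600, R0_280, R0_229, R2_200⟩, ⟨nat_lit 7, nat_lit 17280, nat_lit 6768, nat_lit 13344, nat_lit 17232, nat_lit 4656, R0_278, R11_359, R2_97⟩]⟩]⟩], [⟨nat_lit 1, [⟨nat_lit 5, [⟨nat_lit 4, nat_lit 16032, nat_lit 16128, nat_lit 13488, nat_lit 14112, nat_lit 13488, R0_281, R5_294, R14_281⟩, ⟨nat_lit 5, nat_lit 16800, nat_lit 17088, nat_lit 13632, nat_lit 11088, nat_lit 11136, R0_284, R0_231, R12_232⟩, ⟨nat_lit 7, nat_lit 17328, nat_lit 17760, nat_lit 13536, nat_lit 17280, nat_lit 5616, R0_282, R11_360, R12_117⟩]⟩]⟩], [⟨nat_lit 1, [⟨nat_lit 5, [⟨nat_lit 5, nat_lit 16752, nat_lit 8928, nat_lit 13728, nat_lit 11040, nat_lit 10416, R0_286, R0_230, R1_217⟩]⟩]⟩]], [], [], [], [[⟨nat_lit 0, [⟨nat_lit 5, [⟨nat_lit 7, nat_lit 10080, nat_lit 13296, nat_lit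 15360, nat_lit 11424, nat_lit 13104, R5_320, R2_238, R2_273⟩]⟩]⟩,
 ⟨nat_lit 1, [⟨nat_lit 5, [⟨nat_lit 7, nat_lit 10752, nat_lit 13392, nat_lit 13392, nat_lit 12000, nat_lit 13632, R0_279, R1_250, R2_284⟩]⟩]⟩,
 ⟨nat_lit 3, [⟨nat_lit 5, [⟨nat_lit 7, nat_lit 12144, nat_lit 13344, nat_lit 20160, nat_lit 11520, nat_lit 13488, R11_420, R12_240, R2_281⟩]⟩]⟩], [⟨nat_lit 0, [⟨nat_lit 5, [⟨nat_lit 7, nat_lit 10128, nat_lit 14640, nat_lit 15744, nat_lit 11520, nat_lit 13872, R5_328, R2_240, R12_289⟩]⟩]⟩,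
 ⟨nat_lit 1, [⟨nat_lit 5, [⟨nat_lit 7, nat_lit 10800, nat_lit 14736, nat_lit 13584, nat_lit 12096, nat_lit 14784, R0_283, R1_252, R12_308⟩]⟩]⟩,
 ⟨nat_lit 3, [⟨nat_lit 5, [⟨nat_lit 7, nat_lit 12192, nat_lit 14688, nat_lit 20208, nat_lit 11664, nat_lit 14544, R11_421, R12_243, R12_303⟩]⟩]⟩], [], [⟨nat_lit 0, [⟨nat_lit 5, [⟨nat_lit 7, nat_lit 10176, nat_lit 14160, nat_lit 15648, nat_lit 11472, nat_lit 14448, R5_326, R2_239, R1_301⟩]⟩]⟩,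
 ⟨nat_lit 1, [⟨nat_lit 5, [⟨nat_lit 7, nat_lit 10848, nat_lit 14208, nat_lit 13680, nat_lit 12048, nat_lit 14976, R0_285, R1_251, R1_312⟩]⟩]⟩,
 ⟨nat_lit 3, [⟨nat_lit 5, [⟨nat_lit 7, nat_lit 12288, nat_lit 14256, nat_lit 20256, nat_lit 11568, nat_lit 14832, R11_422, R12_241, R1_309⟩]⟩]⟩]]], [[], [], [], [], [[], [⟨nat_lit 3, [⟨nat_lit 7, [⟨nat_lit 7, nat_lit 1776, nat_lit 13968, nat_lit 13776, nat_lit 10944, nat_lit 13488, R2_287, R2_228, R1_281⟩]⟩]⟩], [], [], [], [⟨nat_lit 3, [⟨nat_lit 7, [⟨nat_lit 7, nat_lit 1824, nat_lit 15264, nat_lit 12624, nat_lit 10704, nat_lit 20304, R2_263, R2_223, R11_423⟩]⟩]⟩]], [[], [⟨nat_lit 3, [⟨nat_lit 7, [⟨nat_lit 7, nat_lit 6336, nat_lit 15648, nat_lit 13872, nat_lit 11328, nat_lit 13632, R2_289, R1_236, R1_284⟩]⟩]⟩,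
 ⟨nat_lit 4, [⟨nat_lit 4, [⟨nat_lit 4, nat_lit 2688, nat_lit 11616, nat_lit 9072, nat_lit 2304, nat_lit 3504, R6_189, R4_48, R7_73⟩, ⟨nat_lit 6, nat_lit 3024, nat_lit 11760, nat_lit 9216, nat_lit 2208, nat_lit 1824, R6_192, R3_46, R2_38⟩]⟩, ⟨nat_lit 5, [⟨nat_lit 4, nat_lit 2736, nat_lit 13920, nat_lit 9744, nat_lit 11184, nat_lit 11616, R4_203, R4_233, R14_242⟩, ⟨nat_lit 6, nat_lit 3120, nat_lit 14112, nat_lit 9984, nat_lit 2880, nat_lit 10320, R4_208, R3_60, R12_215⟩]⟩, ⟨nat_lit 6, [⟨nat_lit 6, nat_lit 3072, nat_lit 16896, nat_lit 5760, nat_lit 2736, nat_lit 1296, R8_120, R3_57, R1_27⟩]⟩]⟩,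
 ⟨nat_lit 7, [⟨nat_lit 4, [⟨nat_lit 4, nat_lit 4032, nat_lit 11952, nat_lit 18768, nat_lit 2688, nat_lit 9648, R13_391, R5_56, R7_201⟩, ⟨nat_lit 7, nat_lit 5376, nat_lit 12096, nat_lit 18816, nat_lit 16896, nat_lit 3840, R13_392, R11_352, R2_80⟩]⟩, ⟨nat_lit 5, [⟨nat_lit 4, nat_lit 4080, nat_lit 14640, nat_lit 14736, nat_lit 13920, nat_lit 12000, R3_307, R5_290, R14_250⟩, ⟨nat_lit 7, nat_lit 5424, nat_lit 14784, nat_lit 14784, nat_lit 16992, nat_lit 16896, R3_308, R11_354, R12_352⟩]⟩, ⟨nat_lit 7, [⟨nat_lit 7, nat_lit 5472, nat_lit 15552, nat_lit 9216, nat_lit 16944, nat_lit 3312, R3_192, R11_353, R1_69⟩]⟩]⟩], [], [], [], [⟨nat_lit 3, [⟨nat_lit 7, [⟨nat_lit 7, nat_lit 6384, nat_lit 14352, nat_lit 12768, nat_lit 11088, nat_lit 20448, R2_266, R1_231, R11_426⟩]⟩]⟩,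
 ⟨nat_lit 4, [⟨nat_lit 4, [⟨nat_lit 4, nat_lit 2784, nat_lit 1296, nat_lit 7536, nat_lit 2352, nat_lit 3456, R6_157, R4_49, R4_72⟩, ⟨nat_lit 6, nat_lit 3168, nat_lit 1344, nat_lit 7824, nat_lit 2160, nat_lit 11856, R6_163, R3_45, R3_247⟩]⟩, ⟨nat_lit 6, [⟨nat_lit 6, nat_lit 3216, nat_lit 2496, nat_lit 5808, nat_lit 2688, nat_lit 18048, R8_121, R3_56, R10_376⟩]⟩]⟩,
 ⟨nat_lit 6, [⟨nat_lit 6, [⟨nat_lit 2, nat_lit 3840, nat_lit 11184, nat_lit 15600, nat_lit 12144, nat_lit 15072, R5_325, R1_253, R1_314⟩, ⟨nat_lit 6, nat_lit 3648, nat_lit 11232, nat_lit 15552, nat_lit 12912, nat_lit 18096, R5_324, R10_269, R10_377⟩]⟩]⟩,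
 ⟨nat_lit 7, [⟨nat_lit 4, [⟨nat_lit 4, nat_lit 4128, nat_lit 8352, nat_lit 17232, nat_lit 480, nat_lit 9504, R13_359, R5_10, R4_198⟩]⟩, ⟨nat_lit 7, [⟨nat_lit 4, nat_lit 4176, nat_lit 9072, nat_lit 7728, nat_lit 7440, nat_lit 6960, R3_161, R5_155, R5_145⟩, ⟨nat_lit 7, nat_lit 5520, nat_lit 9120, nat_lit 8016, nat_lit 16848, nat_lit 20400, R3_167, R11_351, R11_425⟩]⟩]⟩]], [], [[], [], [], [], [], [⟨nat_lit 3, [⟨nat_lit 7, [⟨nat_lit 7, nat_lit 11472, nat_lit 13248, nat_lit 13248, nat_lit 11904, nat_lit 20352, R2_276, R12_248, R11_424⟩]⟩]⟩]]], [[], [[], [⟨nat_lit 4, [⟨nat_lit 4, [⟨nat_lit 4, nat_lit 13584, nat_lit 14160, nat_lit 1104, nat_lit 2688, nat_lit 4320, R8_23, R7_56, R7_90⟩, ⟨nat_lit 6, nat_lit 13680, nat_lit 14400, nat_lit 6240, nat_lit 816, nat_lit 2736, R8_130, R2_17, R2_57⟩, ⟨nat_lit 7, nat_lit 13824,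 nat_lit 14256, nat_lit 7008, nat_lit 2784, nat_lit 768, R8_146, R2_58, R2_16⟩]⟩, ⟨nat_lit 5, [⟨nat_lit 4, nat_lit 13632, nat_lit 14496, nat_lit 15168, nat_lit 12000, nat_lit 13872, R5_316, R7_250, R14_289⟩, ⟨nat_lit 6, nat_lit 13776, nat_lit 14784, nat_lit 15936, nat_lit 10464, nat_lit 9696, R5_332, R2_218, R12_202⟩, ⟨nat_lit 7, nat_lit 13872, nat_lit 14640, nat_lit 15744, nat_lit 11520, nat_lit 10128, R5_328, R2_240, R12_211⟩]⟩, ⟨nat_lit 6, [⟨nat_lit 6, nat_lit 13728, nat_lit 14928, nat_lit 14976, nat_lit 6960, nat_lit 2208, R9_312, R2_145, R1_46⟩]⟩]⟩,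
 ⟨nat_lit 5, [⟨nat_lit 4, [⟨nat_lit 4, nat_lit 13920, nat_lit 14208, nat_lit 15072, nat_lit 14352, nat_lit 12768, R5_314, R14_299, R7_266⟩, ⟨nat_lit 6, nat_lit 14304, nat_lit 14448, nat_lit 15648, nat_lit 10176, nat_lit 11472, R5_326, R12_212, R2_239⟩, ⟨nat_lit 7, nat_lit 14496, nat_lit 14304, nat_lit 15888, nat_lit 9792, nat_lit 10416, R5_331, R12_204, R2_217⟩]⟩, ⟨nat_lit 5, [⟨nat_lit 4, nat_lit 13968, nat_lit 14544, nat_lit 19392, nat_lit 15168, nat_lit 14544, R11_404, R14_316, R14_303⟩, ⟨nat_lit 5, nat_lit 14112, nat_lit 14592, nat_lit 20544, nat_lit 12240, nat_lit 11616, R11_428, R12_255, R12_242⟩, ⟨nat_lit 6, nat_lit 14400, nat_lit 14832, nat_lit 19968, nat_lit 12288, nat_lit 11568, R11_416, R12_256, R12_241⟩, ⟨nat_lit 7, nat_lit 14544, nat_lit 14688, nat_lit 20208, nat_lit 11664, nat_lit 12192, R11_421,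 R12_243, R12_254⟩]⟩, ⟨nat_lit 6, [⟨nat_lit 6, nat_lit 14352, nat_lit 14976, nat_lit 13680, nat_lit 10848, nat_lit 12048, R0_285, R12_226, R1_251⟩]⟩]⟩,
 ⟨nat_lit 6, [⟨nat_lit 6, [⟨nat_lit 6, nat_lit 14688, nat_lit 15024, nat_lit 3552, nat_lit 5664, nat_lit 7584, R0_74, R1_118, R1_158⟩]⟩]⟩,
 ⟨nat_lit 7, [⟨nat_lit 4, [⟨nat_lit 7, nat_lit 14736, nat_lit 14352, nat_lit 14880, nat_lit 2256, nat_lit 6912, R9_310, R1_47, R2_144⟩]⟩, ⟨nat_lit 5, [⟨nat_lit 7, nat_lit 14784, nat_lit 14736, nat_lit 13584, nat_lit 12096, nat_lit 10800, R0_283, R1_252, R12_225⟩]⟩, ⟨nat_lit 7, [⟨nat_lit 7, nat_lit 14832, nat_lit 14880, nat_lit 3504, nat_lit 7632, nat_lit 5616, R0_73, R1_159, R1_117⟩]⟩]⟩]], [], [], [], [[], [⟨nat_lit 4, [⟨nat_lit 4, [⟨nat_lit 4, nat_lit 2832, nat_lit 1056, nat_lit 720, nat_lit 2688, nat_lit 4464, R8_15, R4_56,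 R7_93⟩, ⟨nat_lit 6, nat_lit 3264, nat_lit 1104, nat_lit 6096, nat_lit 7104, nat_lit 2880, R8_127, R3_148, R2_60⟩]⟩, ⟨nat_lit 5, [⟨nat_lit 4, nat_lit 2880, nat_lit 1488, nat_lit 5280, nat_lit 11472, nat_lit 11664, R5_110, R4_239, R14_243⟩, ⟨nat_lit 6, nat_lit 3360, nat_lit 1536, nat_lit 5472, nat_lit 7584, nat_lit 10368, R5_114, R3_158, R12_216⟩]⟩, ⟨nat_lit 6, [⟨nat_lit 6, nat_lit 3312, nat_lit 2112, nat_lit 4992, nat_lit 7488, nat_lit 2352, R9_104, R3_156, R1_49⟩]⟩]⟩,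
 ⟨nat_lit 6, [⟨nat_lit 6, [⟨nat_lit 6, nat_lit 3696, nat_lit 12816, nat_lit 3168, nat_lit 13056, nat_lit 7728, R0_66, R10_272, R1_161⟩]⟩]⟩,
 ⟨nat_lit 7, [⟨nat_lit 4, [⟨nat_lit 4, nat_lit 4224, nat_lit 10560, nat_lit 14208, nat_lit 3072, nat_lit 11328, R9_296, R5_64, R7_236⟩, ⟨nat_lit 7, nat_lit 5568, nat_lit 10608, nat_lit 14832, nat_lit 17088, nat_lit 6816, R9_309, R11_356, R2_142⟩]⟩, ⟨nat_lit 5, [⟨nat_lit 4, nat_lit 4272, nat_lit 11232, nat_lit 12912, nat_lit 14208, nat_lit 12096, R0_269, R5_296, R14_252⟩, ⟨nat_lit 7, nat_lit 5616, nat_lit 11280, nat_lit 13536, nat_lit 17184, nat_lit 17328, R0_282, R11_358, R12_361⟩]⟩, ⟨nat_lit 7, [⟨nat_lit 7, nat_lit 5664, nat_lit 10896, nat_lit 3744, nat_lit 17136, nat_lit 5520, R0_78, R11_357, R1_115⟩]⟩]⟩], [], [], [], [⟨nat_lit 4, [⟨nat_lit 4, [⟨nat_lit 4, nat_lit 2928,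 nat_lit 768, nat_lit 624, nat_lit 2736, nat_lit 4176, R8_13, R4_57, R4_87⟩, ⟨nat_lit 6, nat_lit 3408, nat_lit 816, nat_lit 6000, nat_lit 7056, nat_lit 16992, R8_125, R3_147, R3_354⟩]⟩, ⟨nat_lit 6, [⟨nat_lit 6, nat_lit 3456, nat_lit 1968, nat_lit 5040, nat_lit 7440, nat_lit 18336, R9_105, R3_155, R10_382⟩]⟩]⟩,
 ⟨nat_lit 7, [⟨nat_lit 4, [⟨nat_lit 4, nat_lit 4320, nat_lit 9168, nat_lit 15120, nat_lit 672, nat_lit 10512, R9_315, R5_14, R4_219⟩]⟩]⟩]]], [[], [], [], [], [[], [], [], [], [⟨nat_lit 0, [⟨nat_lit 0, [⟨nat_lit 0, nat_lit 0, nat_lit 3120, nat_lit 3360, nat_lit 4032, nat_lit 1536, R4_70, R6_84, R6_32⟩, ⟨nat_lit 3, nat_lit 192, nat_lit 9312, nat_lit 9360, nat_lit 14448, nat_lit 16656, R4_195, R13_301, R13_347⟩]⟩, ⟨nat_lit 3, [⟨nat_lit 3, nat_lit 240, nat_lit 10080, nat_lit 4848, nat_lit 14496, nat_lit 1344,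 R5_101, R13_302, R3_28⟩]⟩]⟩,
 ⟨nat_lit 2, [⟨nat_lit 0, [⟨nat_lit 0, nat_lit 720, nat_lit 3312, nat_lit 11664, nat_lit 1824, nat_lit 1920, R3_243, R8_38, R6_40⟩, ⟨nat_lit 3, nat_lit 1200, nat_lit 9504, nat_lit 12000, nat_lit 12192, nat_lit 16704, R3_250, R9_254, R13_348⟩]⟩, ⟨nat_lit 2, [⟨nat_lit 0, nat_lit 768, nat_lit 4176, nat_lit 16512, nat_lit 2688, nat_lit 2064, R10_344, R8_56, R8_43⟩, ⟨nat_lit 2, nat_lit 1056, nat_lit 12624, nat_lit 16560, nat_lit 13728, nat_lit 15120, R10_345, R5_286, R5_315⟩, ⟨nat_lit 3, nat_lit 1248, nat_lit 11184, nat_lit 16608, nat_lit 12288, nat_lit 14256, R10_346, R9_256, R9_297⟩]⟩]⟩,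
 ⟨nat_lit 3, [⟨nat_lit 3, [⟨nat_lit 3, nat_lit 2352, nat_lit 10224, nat_lit 19584, nat_lit 3504, nat_lit 1584, R11_408, R3_73, R3_33⟩, ⟨nat_lit 7, nat_lit 1872, nat_lit 15360, nat_lit 19632, nat_lit 11664, nat_lit 12672, R11_409, R2_243, R2_264⟩]⟩]⟩], [⟨nat_lit 0, [⟨nat_lit 0, [⟨nat_lit 0, nat_lit 48, nat_lit 4608, nat_lit 3648, nat_lit 11520, nat_lit 3552, R4_76, R6_240, R4_74⟩, ⟨nat_lit 3, nat_lit 288, nat_lit 5136, nat_lit 9936, nat_lit 15024, nat_lit 14064, R4_207, R13_313, R3_293⟩]⟩, ⟨nat_lit 3, [⟨nat_lit 3, nat_lit 336, nat_lit 5184, nat_lit 4944, nat_lit 15072, nat_lit 16176, R5_103, R13_314, R10_337⟩]⟩]⟩,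
 ⟨nat_lit 2, [⟨nat_lit 0, [⟨nat_lit 0, nat_lit 816, nat_lit 6432, nat_lit 13968, nat_lit 9792, nat_lit 9840, R3_291, R8_204, R4_205⟩, ⟨nat_lit 3, nat_lit 1344, nat_lit 7104, nat_lit 14688, nat_lit 12960, nat_lit 14928, R3_306, R9_270, R3_311⟩]⟩, ⟨nat_lit 2, [⟨nat_lit 0, nat_lit 864, nat_lit 6480, nat_lit 16800, nat_lit 10368, nat_lit 6144, R10_350, R8_216, R5_128⟩, ⟨nat_lit 2, nat_lit 1104, nat_lit 7776, nat_lit 16848, nat_lit 14256, nat_lit 19440, R10_351, R5_297, R11_405⟩]⟩]⟩,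
 ⟨nat_lit 3, [⟨nat_lit 3, [⟨nat_lit 3, nat_lit 2400, nat_lit 5808, nat_lit 19776, nat_lit 10992, nat_lit 16224, R11_412, R3_229, R10_338⟩, ⟨nat_lit 7, nat_lit 1920, nat_lit 6000, nat_lit 19824, nat_lit 11808, nat_lit 14016, R11_413, R2_246, R1_292⟩]⟩, ⟨nat_lit 7, [⟨nat_lit 7, nat_lit 1968, nat_lit 5952, nat_lit 13968, nat_lit 11856, nat_lit 20496, R1_291, R2_247, R11_427⟩]⟩]⟩]], [[], [], [], [], [], [⟨nat_lit 0, [⟨nat_lit 0, [⟨nat_lit 0, nat_lit 5904, nat_lit 2976, nat_lit 3744, nat_lit 3120, nat_lit 3984, R4_78, R4_65, R4_83⟩, ⟨nat_lit 3, nat_lit 5952, nat_lit 3504, nat_lit 10080, nat_lit 9840, nat_lit 14208, R4_210, R3_205, R3_296⟩]⟩, ⟨nat_lit 3, [⟨nat_lit 3, nat_lit 6000, nat_lit 3552, nat_lit 5616, nat_lit 10224, nat_lit 18192, R5_117, R3_213, R10_379⟩]⟩]⟩,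
 ⟨nat_lit 2, [⟨nat_lit 0, [⟨nat_lit 0, nat_lit 6048, nat_lit 4416, nat_lit 14016, nat_lit 864, nat_lit 10320, R3_292, R5_18, R4_215⟩, ⟨nat_lit 3, nat_lit 6192, nat_lit 5088, nat_lit 14880, nat_lit 11136, nat_lit 15024, R3_310, R0_232, R3_313⟩]⟩, ⟨nat_lit 2, [⟨nat_lit 0, nat_lit 6096, nat_lit 4464, nat_lit 16944, nat_lit 7824, nat_lit 7056, R10_353, R5_163, R5_147⟩, ⟨nat_lit 2, nat_lit 6144, nat_lit 5760, nat_lit 16992, nat_lit 17328, nat_lit 20592, R10_354, R11_361, R11_429⟩, ⟨nat_lit 3, nat_lit 6240, nat_lit 5184, nat_lit 17040, nat_lit 11232, nat_lit 13824, R10_355, R0_234, R0_288⟩]⟩, ⟨nat_lit 3, [⟨nat_lit 3, nat_lit 6288, nat_lit 5136, nat_lit 13200, nat_lit 11184, nat_lit 18288, R0_275, R0_233, R10_381⟩]⟩]⟩,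
 ⟨nat_lit 3, [⟨nat_lit 3, [⟨nat_lit 3, nat_lit 6672, nat_lit 3792, nat_lit 19872, nat_lit 13104, nat_lit 18240, R11_414, R10_273, R10_380⟩, ⟨nat_lit 7, nat_lit 6432, nat_lit 3984, nat_lit 19920, nat_lit 12240, nat_lit 15120, R11_415, R1_255, R1_315⟩]⟩, ⟨nat_lit 7, [⟨nat_lit 7, nat_lit 6480, nat_lit 3936, nat_lit 14112, nat_lit 12288, nat_lit 20640, R1_294, R1_256, R11_430⟩]⟩]⟩,
 ⟨nat_lit 4, [⟨nat_lit 4, [⟨nat_lit 4, nat_lit 2976, nat_lit 5904, nat_lit 3744, nat_lit 3120, nat_lit 3984, R4_78, R4_65, R4_83⟩, ⟨nat_lit 6, nat_lit 3504, nat_lit 5952, nat_lit 10080, nat_lit 9840, nat_lit 14208, R4_210, R3_205, R3_296⟩]⟩, ⟨nat_lit 6, [⟨nat_lit 6, nat_lit 3552, nat_lit 6000, nat_lit 5616, nat_lit 10224, nat_lit 18192, R5_117, R3_213, R10_379⟩]⟩]⟩,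
 ⟨nat_lit 6, [⟨nat_lit 2, [⟨nat_lit 2, nat_lit 3936, nat_lit 6480, nat_lit 14112, nat_lit 12288, nat_lit 20640, R1_294, R1_256, R11_430⟩]⟩, ⟨nat_lit 6, [⟨nat_lit 2, nat_lit 3984, nat_lit 6432, nat_lit 19920, nat_lit 12240, nat_lit 15120, R11_415, R1_255, R1_315⟩, ⟨nat_lit 6, nat_lit 3792, nat_lit 6672, nat_lit 19872, nat_lit 13104, nat_lit 18240, R11_414, R10_273, R10_380⟩]⟩]⟩,
 ⟨nat_lit 7, [⟨nat_lit 4, [⟨nat_lit 4, nat_lit 4416, nat_lit 6048, nat_lit 14016, nat_lit 864, nat_lit 10320, R3_292, R5_18, R4_215⟩, ⟨nat_lit 6, nat_lit 5088, nat_lit 6192, nat_lit 14880, nat_lit 11136, nat_lit 15024, R3_310, R0_232, R3_313⟩]⟩, ⟨nat_lit 6, [⟨nat_lit 6, nat_lit 5136, nat_lit 6288, nat_lit 13200, nat_lit 11184, nat_lit 18288, R0_275, R0_233, R10_381⟩]⟩, ⟨nat_lit 7, [⟨nat_lit 4, nat_lit 4464, nat_lit 6096, nat_lit 16944,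 nat_lit 7824, nat_lit 7056, R10_353, R5_163, R5_147⟩, ⟨nat_lit 6, nat_lit 5184, nat_lit 6240, nat_lit 17040, nat_lit 11232, nat_lit 13824, R10_355, R0_234, R0_288⟩, ⟨nat_lit 7, nat_lit 5760, nat_lit 6144, nat_lit 16992, nat_lit 17328, nat_lit 20592, R10_354, R11_361, R11_429⟩]⟩]⟩]], [[], [], [], [], [⟨nat_lit 0, [⟨nat_lit 0, [⟨nat_lit 0, nat_lit 6720, nat_lit 1440, nat_lit 3408, nat_lit 1872, nat_lit 7632, R4_71, R8_39, R6_159⟩, ⟨nat_lit 3, nat_lit 7200, nat_lit 8496, nat_lit 9456, nat_lit 10320, nat_lit 17376, R4_197, R9_215, R13_362⟩]⟩, ⟨nat_lit 3, [⟨nat_lit 3, nat_lit 7248, nat_lit 9264, nat_lit 6576, nat_lit 10656, nat_lit 7824, R5_137, R9_222, R3_163⟩]⟩]⟩,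
 ⟨nat_lit 2, [⟨nat_lit 0, [⟨nat_lit 0, nat_lit 8064, nat_lit 1632, nat_lit 11808, nat_lit 1008, nat_lit 8064, R3_246, R9_21, R6_168⟩]⟩, ⟨nat_lit 2, [⟨nat_lit 0, nat_lit 8112, nat_lit 2592, nat_lit 16704, nat_lit 1440, nat_lit 6576, R10_348, R9_30, R8_137⟩]⟩]⟩], [⟨nat_lit 0, [⟨nat_lit 0, [⟨nat_lit 0, nat_lit 6816, nat_lit 6816, nat_lit 3888, nat_lit 3072, nat_lit 3888, R4_81, R8_64, R4_81⟩, ⟨nat_lit 3, nat_lit 7392, nat_lit 8256, nat_lit 10224, nat_lit 10416, nat_lit 14160, R4_213, R9_217, R3_295⟩]⟩, ⟨nat_lit 3, [⟨nat_lit 3, nat_lit 7440, nat_lit 8304, nat_lit 6672, nat_lit 10752, nat_lit 17136, R5_139, R9_224, R10_357⟩]⟩]⟩,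
 ⟨nat_lit 2, [⟨nat_lit 0, [⟨nat_lit 0, nat_lit 8256, nat_lit 7392, nat_lit 14160, nat_lit 10416, nat_lit 10224, R3_295, R9_217, R4_213⟩]⟩, ⟨nat_lit 2, [⟨nat_lit 0, nat_lit 8304, nat_lit 7440, nat_lit 17136, nat_lit 10752, nat_lit 6672, R10_357, R9_224, R5_139⟩, ⟨nat_lit 2, nat_lit 8976, nat_lit 9216, nat_lit 17184, nat_lit 5520, nat_lit 20016, R10_358, R0_115, R11_417⟩]⟩]⟩,
 ⟨nat_lit 3, [⟨nat_lit 3, [⟨nat_lit 3, nat_lit 9216, nat_lit 8976, nat_lit 20016, nat_lit 5520, nat_lit 17184, R11_417, R0_115, R10_358⟩]⟩]⟩], [⟨nat_lit 0, [⟨nat_lit 0, [⟨nat_lit 0, nat_lit 6768, nat_lit 912, nat_lit 4128, nat_lit 2736, nat_lit 1968, R4_86, R8_57, R8_41⟩, ⟨nat_lit 1, nat_lit 7056, nat_lit 6336, nat_lit 11760, nat_lit 12720, nat_lit 16032, R4_245, R5_265, R5_334⟩, ⟨nat_lit 3, nat_lit 7296, nat_lit 9312, nat_lit 10464, nat_lit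 10368, nat_lit 15168, R4_218, R9_216, R9_316⟩]⟩]⟩,
 ⟨nat_lit 2, [⟨nat_lit 0, [⟨nat_lit 0, nat_lit 8160, nat_lit 1104, nat_lit 16944, nat_lit 6432, nat_lit 6480, R3_353, R9_134, R8_135⟩]⟩, ⟨nat_lit 2, [⟨nat_lit 0, nat_lit 8208, nat_lit 2064, nat_lit 17280, nat_lit 7296, nat_lit 6672, R10_360, R9_152, R9_139⟩]⟩]⟩]], [[], [], [], [], [⟨nat_lit 0, [⟨nat_lit 0, [⟨nat_lit 3, nat_lit 10224, nat_lit 3408, nat_lit 9408, nat_lit 2784, nat_lit 17952, R4_196, R3_58, R13_374⟩]⟩, ⟨nat_lit 3, [⟨nat_lit 3, nat_lit 10272, nat_lit 4272, nat_lit 5424, nat_lit 7536, nat_lit 6528, R5_113, R3_157, R3_136⟩, ⟨nat_lit 7, nat_lit 9648, nat_lit 12960, nat_lit 15840, nat_lit 10368, nat_lit 13440, R5_330, R2_216, R2_280⟩]⟩]⟩,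
 ⟨nat_lit 3, [⟨nat_lit 3, [⟨nat_lit 7, nat_lit 11520, nat_lit 13344, nat_lit 19680, nat_lit 12144, nat_lit 13488, R11_410, R12_253, R2_281⟩]⟩]⟩], [⟨nat_lit 0, [⟨nat_lit 0, [⟨nat_lit 3, nat_lit 10320, nat_lit 13200, nat_lit 9984, nat_lit 2880, nat_lit 14112, R4_208, R3_60, R3_294⟩]⟩, ⟨nat_lit 3, [⟨nat_lit 3, nat_lit 10368, nat_lit 13440, nat_lit 5472, nat_lit 7584, nat_lit 17808, R5_114, R3_158, R10_371⟩, ⟨nat_lit 7, nat_lit 9696, nat_lit 12528, nat_lit 15936, nat_lit 10464, nat_lit 14784, R5_332, R2_218, R1_308⟩]⟩]⟩,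
 ⟨nat_lit 3, [⟨nat_lit 3, [⟨nat_lit 7, nat_lit 11568, nat_lit 14256, nat_lit 19968, nat_lit 12288, nat_lit 14832, R11_416, R12_256, R1_309⟩]⟩, ⟨nat_lit 7, [⟨nat_lit 7, nat_lit 11616, nat_lit 14112, nat_lit 14592, nat_lit 12240, nat_lit 20544, R1_304, R12_255, R11_428⟩]⟩]⟩], [], [⟨nat_lit 0, [⟨nat_lit 0, [⟨nat_lit 3, nat_lit 10416, nat_lit 2880, nat_lit 9600, nat_lit 2832, nat_lit 3216, R4_200, R3_59, R3_67⟩, ⟨nat_lit 7, nat_lit 9744, nat_lit 13344, nat_lit 14016, nat_lit 10320, nat_lit 13824, R4_292, R2_215, R2_288⟩]⟩, ⟨nat_lit 3, [⟨nat_lit 7, nat_lit 9792, nat_lit 14304, nat_lit 15888, nat_lit 10416, nat_lit 14496, R5_331, R2_217, R12_302⟩]⟩]⟩,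
 ⟨nat_lit 3, [⟨nat_lit 3, [⟨nat_lit 7, nat_lit 11664, nat_lit 14688, nat_lit 20064, nat_lit 12192, nat_lit 14544, R11_418, R12_254, R12_303⟩]⟩]⟩]]], [[], [], [], [], [[], [⟨nat_lit 3, [⟨nat_lit 4, [⟨nat_lit 7, nat_lit 2016, nat_lit 15360, nat_lit 13296, nat_lit 11424, nat_lit 13104, R2_277, R2_238, R2_273⟩]⟩, ⟨nat_lit 5, [⟨nat_lit 7, nat_lit 2064, nat_lit 15744, nat_lit 14640, nat_lit 11520, nat_lit 12624, R1_305, R2_240, R12_263⟩]⟩, ⟨nat_lit 7, [⟨nat_lit 7, nat_lit 2112, nat_lit 15648, nat_lit 14160, nat_lit 11472, nat_lit 14448, R12_295, R2_239, R1_301⟩]⟩]⟩]], [[], [⟨nat_lit 3, [⟨nat_lit 4, [⟨nat_lit 7, nat_lit 6528, nat_lit 13392, nat_lit 13392, nat_lit 12000, nat_lit 13632, R2_279, R1_250, R2_284⟩]⟩, ⟨nat_lit 5, [⟨nat_lit 7, nat_lit 6576, nat_lit 13584, nat_lit 14736, nat_lit 12096, nat_lit 15408, R1_307,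 R1_252, R12_321⟩]⟩, ⟨nat_lit 7, [⟨nat_lit 7, nat_lit 6624, nat_lit 13680, nat_lit 14208, nat_lit 12048, nat_lit 14976, R12_296, R1_251, R1_312⟩]⟩]⟩,
 ⟨nat_lit 7, [⟨nat_lit 4, [⟨nat_lit 4, nat_lit 4512, nat_lit 13296, nat_lit 1824, nat_lit 2880, nat_lit 10512, R3_38, R5_60, R7_219⟩, ⟨nat_lit 6, nat_lit 5232, nat_lit 13440, nat_lit 8400, nat_lit 10992, nat_lit 9600, R3_175, R0_229, R2_200⟩, ⟨nat_lit 7, nat_lit 5808, nat_lit 13344, nat_lit 6768, nat_lit 17232, nat_lit 4656, R3_141, R11_359, R2_97⟩]⟩, ⟨nat_lit 5, [⟨nat_lit 4, nat_lit 4560, nat_lit 13488, nat_lit 16128, nat_lit 14112, nat_lit 12048, R10_336, R5_294, R14_251⟩, ⟨nat_lit 6, nat_lit 5328, nat_lit 13632, nat_lit 17088, nat_lit 11088, nat_lit 11136, R10_356, R0_231, R12_232⟩, ⟨nat_lit 7, nat_lit 5856, nat_lit 13536, nat_lit 17760, nat_lit 17280, nat_lit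 17088, R10_370, R11_360, R12_356⟩]⟩, ⟨nat_lit 6, [⟨nat_lit 6, nat_lit 5280, nat_lit 13728, nat_lit 8928, nat_lit 11040, nat_lit 10416, R0_186, R0_230, R1_217⟩]⟩]⟩]], [], [[], [⟨nat_lit 3, [⟨nat_lit 4, [⟨nat_lit 7, nat_lit 11712, nat_lit 20160, nat_lit 13344, nat_lit 12000, nat_lit 13488, R2_278, R12_250, R2_281⟩]⟩, ⟨nat_lit 5, [⟨nat_lit 7, nat_lit 11760, nat_lit 20208, nat_lit 14688, nat_lit 12096, nat_lit 14640, R1_306, R12_252, R12_305⟩]⟩, ⟨nat_lit 7, [⟨nat_lit 7, nat_lit 11808, nat_lit 20256, nat_lit 14256, nat_lit 12048, nat_lit 14832, R12_297, R12_251, R1_309⟩]⟩]⟩], [], [], [], [⟨nat_lit 3, [⟨nat_lit 7, [⟨nat_lit 7, nat_lit 11856, nat_lit 14592, nat_lit 14112, nat_lit 11952, nat_lit 20688, R12_294, R12_249, R11_431⟩]⟩]⟩]]]]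
noncomputable def N2666 : T3 (List N0) := [[[[⟨nat_lit 0, [⟨nat_lit 1, [⟨nat_lit 1, nat_lit 13200, nat_lit 1440, nat_lit 3408, nat_lit 2208, nat_lit 12000, R7_71, R7_46, R2_250⟩, ⟨nat_lit 5, nat_lit 2736, nat_lit 1824, nat_lit 3552, nat_lit 2256, nat_lit 3072, R7_74, R4_47, R3_64⟩]⟩]⟩,
 ⟨nat_lit 1, [⟨nat_lit 1, [⟨nat_lit 1, nat_lit 13296, nat_lit 7392, nat_lit 1728, nat_lit 672, nat_lit 12096, R2_36, R2_14, R2_252⟩, ⟨nat_lit 5, nat_lit 2832, nat_lit 7968, nat_lit 1872, nat_lit 2112, nat_lit 3120, R2_39, R3_44, R3_65⟩]⟩]⟩,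
 ⟨nat_lit 3, [⟨nat_lit 1, [⟨nat_lit 1, nat_lit 13440, nat_lit 6768, nat_lit 0, nat_lit 1008, nat_lit 12048, R2_0, R2_21, R2_251⟩]⟩]⟩], [⟨nat_lit 0, [⟨nat_lit 1, [⟨nat_lit 1, nat_lit 15216, nat_lit 1440, nat_lit 3888, nat_lit 2784, nat_lit 12576, R7_81, R7_58, R1_262⟩, ⟨nat_lit 5, nat_lit 3456, nat_lit 1680, nat_lit 3984, nat_lit 2976, nat_lit 13968, R7_83, R4_62, R10_291⟩]⟩, ⟨nat_lit 5, [⟨nat_lit 5, nat_lit 3936, nat_lit 3792, nat_lit 4032, nat_lit 3072, nat_lit 4512, R4_84, R4_64, R1_94⟩]⟩]⟩,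
 ⟨nat_lit 1, [⟨nat_lit 1, [⟨nat_lit 1, nat_lit 15264, nat_lit 8112, nat_lit 2256, nat_lit 864, nat_lit 12672, R2_47, R2_18, R1_264⟩, ⟨nat_lit 5, nat_lit 3504, nat_lit 8400, nat_lit 2352, nat_lit 9792, nat_lit 14016, R2_49, R3_204, R10_292⟩]⟩, ⟨nat_lit 5, [⟨nat_lit 5, nat_lit 3984, nat_lit 10128, nat_lit 14304, nat_lit 9744, nat_lit 4560, R3_298, R3_203, R1_95⟩]⟩]⟩,
 ⟨nat_lit 3, [⟨nat_lit 1, [⟨nat_lit 1, nat_lit 15360, nat_lit 7344, nat_lit 48, nat_lit 3024, nat_lit 12624, R2_1, R2_63, R1_263⟩]⟩]⟩], [⟨nat_lit 0, [⟨nat_lit 1, [⟨nat_lit 1, nat_lit 14160, nat_lit 1056, nat_lit 4368, nat_lit 2640, nat_lit 13584, R7_91, R7_55, R12_283⟩]⟩]⟩,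
 ⟨nat_lit 1, [⟨nat_lit 1, [⟨nat_lit 1, nat_lit 14256, nat_lit 6192, nat_lit 2784, nat_lit 768, nat_lit 13824, R2_58, R2_16, R12_288⟩]⟩]⟩,
 ⟨nat_lit 3, [⟨nat_lit 1, [⟨nat_lit 1, nat_lit 14400, nat_lit 6960, nat_lit 816, nat_lit 2736, nat_lit 13680, R2_17, R2_57, R12_285⟩]⟩]⟩]], [], [[], [], [⟨nat_lit 0, [⟨nat_lit 1, [⟨nat_lit 1, nat_lit 14496, nat_lit 15168, nat_lit 12816, nat_lit 12864, nat_lit 13632, R7_267, R14_268, R12_284⟩]⟩]⟩,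
 ⟨nat_lit 1, [⟨nat_lit 1, [⟨nat_lit 1, nat_lit 14640, nat_lit 15744, nat_lit 11520, nat_lit 10128, nat_lit 13872, R2_240, R12_211, R12_289⟩]⟩]⟩,
 ⟨nat_lit 3, [⟨nat_lit 1, [⟨nat_lit 1, nat_lit 14784, nat_lit 15936, nat_lit 10464, nat_lit 2256, nat_lit 13776, R2_218, R12_47, R12_287⟩]⟩]⟩]], [[⟨nat_lit 0, [⟨nat_lit 1, [⟨nat_lit 5, nat_lit 3024, nat_lit 16752, nat_lit 9696, nat_lit 2640, nat_lit 8880, R7_202, R5_55, R3_185⟩]⟩]⟩,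
 ⟨nat_lit 1, [⟨nat_lit 1, [⟨nat_lit 5, nat_lit 3120, nat_lit 17424, nat_lit 8736, nat_lit 6432, nat_lit 9024, R2_182, R0_134, R3_188⟩]⟩]⟩,
 ⟨nat_lit 3, [⟨nat_lit 1, [⟨nat_lit 1, nat_lit 13584, nat_lit 18096, nat_lit 3936, nat_lit 336, nat_lit 12336, R2_82, R1_7, R2_257⟩, ⟨nat_lit 5, nat_lit 3264, nat_lit 18048, nat_lit 3888, nat_lit 9024, nat_lit 8976, R2_81, R11_188, R3_187⟩]⟩]⟩], [⟨nat_lit 0, [⟨nat_lit 1, [⟨nat_lit 5, nat_lit 3648, nat_lit 12576, nat_lit 10992, nat_lit 3216, nat_lit 14112, R7_229, R5_67, R10_294⟩]⟩, ⟨nat_lit 5, [⟨nat_lit 5, nat_lit 4224, nat_lit 14256, nat_lit 10368, nat_lit 816, nat_lit 4656, R4_216, R5_17, R1_97⟩]⟩]⟩,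
 ⟨nat_lit 1, [⟨nat_lit 1, [⟨nat_lit 5, nat_lit 3696, nat_lit 12960, nat_lit 9984, nat_lit 6864, nat_lit 14208, R2_208, R0_143, R10_296⟩]⟩, ⟨nat_lit 5, [⟨nat_lit 5, nat_lit 4320, nat_lit 15072, nat_lit 15120, nat_lit 6720, nat_lit 4800, R3_315, R0_140, R1_100⟩]⟩]⟩,
 ⟨nat_lit 3, [⟨nat_lit 1, [⟨nat_lit 1, nat_lit 15456, nat_lit 13392, nat_lit 5184, nat_lit 2496, nat_lit 12912, R2_108, R1_52, R1_269⟩, ⟨nat_lit 5, nat_lit 3792, nat_lit 13344, nat_lit 5136, nat_lit 9408, nat_lit 14160, R2_107, R11_196, R10_295⟩]⟩]⟩], [⟨nat_lit 3, [⟨nat_lit 1, [⟨nat_lit 1, nat_lit 14928, nat_lit 14976, nat_lit 6960, nat_lit 2208, nat_lit 13728, R2_145, R1_46, R12_286⟩]⟩]⟩], [⟨nat_lit 3, [⟨nat_lit 1, [⟨nat_lit 5, nat_lit 5472, nat_lit 6816, nat_lit 4704, nat_lit 9264, nat_lit 3696, R2_98, R11_193, R0_77⟩]⟩]⟩]], [], [], [], [[], [],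 [], [⟨nat_lit 3, [⟨nat_lit 1, [⟨nat_lit 5, nat_lit 5568, nat_lit 13536, nat_lit 13680, nat_lit 7536, nat_lit 3456, R2_285, R1_157, R0_72⟩]⟩]⟩]]], [[[⟨nat_lit 1, [⟨nat_lit 1, [⟨nat_lit 1, nat_lit 13392, nat_lit 13344, nat_lit 1200, nat_lit 6480, nat_lit 14928, R1_25, R2_135, R2_311⟩, ⟨nat_lit 5, nat_lit 2928, nat_lit 5712, nat_lit 1344, nat_lit 2448, nat_lit 3360, R1_28, R3_51, R3_70⟩]⟩]⟩], [⟨nat_lit 1, [⟨nat_lit 1, [⟨nat_lit 1, nat_lit 15312, nat_lit 5904, nat_lit 1728, nat_lit 7056, nat_lit 15936, R1_36, R2_147, R1_332⟩, ⟨nat_lit 5, nat_lit 3552, nat_lit 5712, nat_lit 1824, nat_lit 10080, nat_lit 19632, R1_38, R3_210, R10_409⟩]⟩, ⟨nat_lit 5, [⟨nat_lit 5, nat_lit 4032, nat_lit 5568, nat_lit 2016, nat_lit 10032, nat_lit 4608, R10_42, R3_209, R1_96⟩]⟩]⟩], [⟨nat_lit 1, [⟨nat_lit 1, [⟨nat_lit 1, nat_lit 14352, nat_lit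 5664, nat_lit 2256, nat_lit 6912, nat_lit 14736, R1_47, R2_144, R12_307⟩]⟩]⟩]], [[⟨nat_lit 1, [⟨nat_lit 1, [⟨nat_lit 1, nat_lit 13536, nat_lit 16560, nat_lit 6624, nat_lit 5184, nat_lit 15312, R1_138, R1_108, R2_319⟩, ⟨nat_lit 5, nat_lit 2976, nat_lit 16464, nat_lit 6768, nat_lit 6048, nat_lit 10560, R1_141, R10_126, R3_220⟩]⟩]⟩], [⟨nat_lit 1, [⟨nat_lit 1, [⟨nat_lit 1, nat_lit 15408, nat_lit 21504, nat_lit 7152, nat_lit 5760, nat_lit 16320, R1_149, R1_120, R1_340⟩, ⟨nat_lit 5, nat_lit 3600, nat_lit 21408, nat_lit 7248, nat_lit 6768, nat_lit 19968, R1_151, R10_141, R10_416⟩]⟩, ⟨nat_lit 5, [⟨nat_lit 5, nat_lit 4080, nat_lit 21312, nat_lit 8208, nat_lit 6864, nat_lit 5040, R10_171, R10_143, R1_105⟩]⟩]⟩,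
 ⟨nat_lit 5, [⟨nat_lit 5, [⟨nat_lit 5, nat_lit 4128, nat_lit 21360, nat_lit 15888, nat_lit 7776, nat_lit 4992, R1_331, R1_162, R1_104⟩]⟩]⟩], [⟨nat_lit 1, [⟨nat_lit 1, [⟨nat_lit 1, nat_lit 14880, nat_lit 3504, nat_lit 7632, nat_lit 5616, nat_lit 14832, R1_159, R1_117, R12_309⟩]⟩]⟩]], [[], [], [⟨nat_lit 1, [⟨nat_lit 1, [⟨nat_lit 1, nat_lit 14736, nat_lit 13584, nat_lit 12096, nat_lit 10800, nat_lit 14784, R1_252, R12_225, R12_308⟩]⟩]⟩]], [[⟨nat_lit 1, [⟨nat_lit 1, [⟨nat_lit 5, nat_lit 3216, nat_lit 15600, nat_lit 9552, nat_lit 6480, nat_lit 9456, R1_199, R0_135, R3_197⟩]⟩]⟩], [⟨nat_lit 1, [⟨nat_lit 1, [⟨nat_lit 5, nat_lit 3744, nat_lit 14064, nat_lit 10800, nat_lit 6912, nat_lit 19776, R1_225, R0_144, R10_412⟩]⟩, ⟨nat_lit 5, [⟨nat_lit 5, nat_lit 4368, nat_lit 14016, nat_lit 11760, nat_lit 6768, nat_lit 4896, R10_245,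 R0_141, R1_102⟩]⟩]⟩]]], [[[⟨nat_lit 0, [⟨nat_lit 0, [⟨nat_lit 1, nat_lit 13056, nat_lit 13536, nat_lit 12960, nat_lit 11472, nat_lit 14160, R7_270, R7_239, R7_295⟩, ⟨nat_lit 5, nat_lit 2592, nat_lit 8928, nat_lit 17616, nat_lit 11040, nat_lit 13056, R7_367, R4_230, R4_272⟩]⟩, ⟨nat_lit 1, [⟨nat_lit 1, nat_lit 13248, nat_lit 13920, nat_lit 12480, nat_lit 11520, nat_lit 13728, R14_260, R7_240, R2_286⟩, ⟨nat_lit 5, nat_lit 2784, nat_lit 9552, nat_lit 13152, nat_lit 11136, nat_lit 3168, R14_274, R4_232, R3_66⟩]⟩]⟩,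
 ⟨nat_lit 1, [⟨nat_lit 1, [⟨nat_lit 1, nat_lit 13344, nat_lit 14016, nat_lit 9744, nat_lit 10320, nat_lit 13824, R12_203, R2_215, R2_288⟩, ⟨nat_lit 5, nat_lit 2880, nat_lit 9600, nat_lit 10416, nat_lit 2832, nat_lit 3216, R12_217, R3_59, R3_67⟩]⟩]⟩,
 ⟨nat_lit 3, [⟨nat_lit 0, [⟨nat_lit 1, nat_lit 13104, nat_lit 13680, nat_lit 10512, nat_lit 10752, nat_lit 14208, R2_219, R2_224, R7_296⟩]⟩, ⟨nat_lit 1, [⟨nat_lit 1, nat_lit 13488, nat_lit 13968, nat_lit 1776, nat_lit 10944, nat_lit 13776, R12_37, R2_228, R2_287⟩]⟩, ⟨nat_lit 3, [⟨nat_lit 1, nat_lit 13728, nat_lit 13872, nat_lit 10896, nat_lit 10848, nat_lit 14016, R1_227, R2_226, R2_292⟩]⟩]⟩], [], [⟨nat_lit 0, [⟨nat_lit 0, [⟨nat_lit 1, nat_lit 13824, nat_lit 15024, nat_lit 13104, nat_lit 11856, nat_lit 16512, R7_273, R7_247, R14_344⟩]⟩, ⟨nat_lit 1, [⟨nat_lit 1, nat_lit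 14208, nat_lit 15072, nat_lit 12528, nat_lit 11952, nat_lit 13920, R14_261, R7_249, R12_290⟩]⟩]⟩,
 ⟨nat_lit 1, [⟨nat_lit 1, [⟨nat_lit 1, nat_lit 14304, nat_lit 15888, nat_lit 9792, nat_lit 10416, nat_lit 14496, R12_204, R2_217, R12_302⟩]⟩]⟩,
 ⟨nat_lit 3, [⟨nat_lit 0, [⟨nat_lit 1, nat_lit 13872, nat_lit 15504, nat_lit 11712, nat_lit 11040, nat_lit 16896, R2_244, R2_230, R14_352⟩]⟩, ⟨nat_lit 1, [⟨nat_lit 1, nat_lit 14448, nat_lit 15648, nat_lit 2112, nat_lit 11472, nat_lit 14304, R12_44, R2_239, R12_298⟩]⟩, ⟨nat_lit 3, [⟨nat_lit 1, nat_lit 15072, nat_lit 15600, nat_lit 12144, nat_lit 11184, nat_lit 15168, R1_253, R2_233, R12_316⟩]⟩]⟩]], [], [[], [], [⟨nat_lit 0, [⟨nat_lit 0, [⟨nat_lit 0, nat_lit 12336, nat_lit 18480, nat_lit 4560, nat_lit 1968, nat_lit 1248, R7_95, R7_41, R7_26⟩, ⟨nat_lit 1, nat_lit 13920, nat_lit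 18528, nat_lit 13200, nat_lit 14304, nat_lit 16560, R7_275, R14_298, R14_345⟩]⟩, ⟨nat_lit 1, [⟨nat_lit 1, nat_lit 14544, nat_lit 19488, nat_lit 14592, nat_lit 15120, nat_lit 13968, R14_304, R14_315, R12_291⟩]⟩]⟩,
 ⟨nat_lit 1, [⟨nat_lit 1, [⟨nat_lit 1, nat_lit 14688, nat_lit 20064, nat_lit 11664, nat_lit 12192, nat_lit 14544, R12_243, R12_254, R12_303⟩]⟩]⟩,
 ⟨nat_lit 2, [⟨nat_lit 0, [⟨nat_lit 0, nat_lit 12384, nat_lit 18960, nat_lit 2976, nat_lit 528, nat_lit 7248, R2_62, R2_11, R7_151⟩, ⟨nat_lit 1, nat_lit 13968, nat_lit 19008, nat_lit 11856, nat_lit 9936, nat_lit 16704, R2_247, R12_207, R14_348⟩]⟩, ⟨nat_lit 1, [⟨nat_lit 1, nat_lit 14592, nat_lit 20688, nat_lit 11856, nat_lit 11952, nat_lit 14112, R12_247, R12_249, R12_294⟩]⟩, ⟨nat_lit 2, [⟨nat_lit 0, nat_lit 12480, nat_lit 21072, nat_lit 2448, nat_lit 6240,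 nat_lit 5472, R1_51, R2_130, R2_114⟩, ⟨nat_lit 1, nat_lit 14112, nat_lit 21120, nat_lit 12288, nat_lit 10656, nat_lit 15312, R1_256, R12_222, R12_319⟩, ⟨nat_lit 2, nat_lit 15600, nat_lit 21168, nat_lit 7824, nat_lit 4944, nat_lit 4176, R1_163, R1_103, R1_87⟩]⟩]⟩,
 ⟨nat_lit 3, [⟨nat_lit 0, [⟨nat_lit 0, nat_lit 12432, nat_lit 18672, nat_lit 2928, nat_lit 576, nat_lit 8112, R2_61, R2_12, R7_169⟩, ⟨nat_lit 1, nat_lit 14016, nat_lit 18720, nat_lit 11808, nat_lit 10032, nat_lit 16992, R2_246, R12_209, R14_354⟩]⟩, ⟨nat_lit 1, [⟨nat_lit 1, nat_lit 14832, nat_lit 20256, nat_lit 11808, nat_lit 12048, nat_lit 14400, R12_246, R12_251, R12_300⟩]⟩, ⟨nat_lit 3, [⟨nat_lit 0, nat_lit 12528, nat_lit 20784, nat_lit 2400, nat_lit 6288, nat_lit 5424, R1_50, R2_131, R2_113⟩, ⟨nat_lit 1, nat_lit 15120, nat_lit 20880, nat_lit 12240,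 nat_lit 10704, nat_lit 15264, R1_255, R12_223, R12_318⟩, ⟨nat_lit 3, nat_lit 15888, nat_lit 20832, nat_lit 7776, nat_lit 4992, nat_lit 4128, R1_162, R1_104, R1_86⟩]⟩]⟩], [], [], [], [⟨nat_lit 0, [⟨nat_lit 0, [⟨nat_lit 0, nat_lit 12576, nat_lit 15216, nat_lit 4608, nat_lit 1008, nat_lit 1440, R7_96, R7_21, R4_30⟩]⟩]⟩,
 ⟨nat_lit 2, [⟨nat_lit 0, [⟨nat_lit 0, nat_lit 12624, nat_lit 15360, nat_lit 3024, nat_lit 48, nat_lit 7344, R2_63, R2_1, R4_153⟩]⟩, ⟨nat_lit 2, [⟨nat_lit 0, nat_lit 12912, nat_lit 15456, nat_lit 2496, nat_lit 5184, nat_lit 13392, R1_52, R2_108, R3_279⟩, ⟨nat_lit 2, nat_lit 15648, nat_lit 15504, nat_lit 7872, nat_lit 3888, nat_lit 19296, R1_164, R1_81, R10_402⟩]⟩]⟩,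
 ⟨nat_lit 3, [⟨nat_lit 0, [⟨nat_lit 0, nat_lit 12672, nat_lit 15264, nat_lit 864, nat_lit 2256, nat_lit 8112, R2_18, R2_47, R4_169⟩, ⟨nat_lit 3, nat_lit 15936, nat_lit 15312, nat_lit 7056, nat_lit 1728, nat_lit 5904, R2_147, R1_36, R5_123⟩]⟩, ⟨nat_lit 3, [⟨nat_lit 3, nat_lit 16320, nat_lit 15408, nat_lit 5760, nat_lit 7152, nat_lit 21504, R1_120, R1_149, R11_448⟩]⟩]⟩]], [[⟨nat_lit 0, [⟨nat_lit 0, [⟨nat_lit 5, nat_lit 2640, nat_lit 15168, nat_lit 17712, nat_lit 12864, nat_lit 13152, R7_369, R5_268, R4_274⟩]⟩, ⟨nat_lit 1, [⟨nat_lit 5, nat_lit 3072, nat_lit 15504, nat_lit 13584, nat_lit 13872, nat_lit 9168, R14_283, R5_289, R3_191⟩]⟩]⟩,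
 ⟨nat_lit 3, [⟨nat_lit 0, [⟨nat_lit 1, nat_lit 13152, nat_lit 15360, nat_lit 10608, nat_lit 11136, nat_lit 14448, R2_221, R1_232, R7_301⟩, ⟨nat_lit 5, nat_lit 2688, nat_lit 15216, nat_lit 14832, nat_lit 8976, nat_lit 13200, R2_309, R11_187, R4_275⟩]⟩, ⟨nat_lit 1, [⟨nat_lit 1, nat_lit 13632, nat_lit 15648, nat_lit 6336, nat_lit 11328, nat_lit 13872, R12_132, R1_236, R2_289⟩, ⟨nat_lit 5, nat_lit 3312, nat_lit 15552, nat_lit 5472, nat_lit 9120, nat_lit 9216, R12_114, R11_190, R3_192⟩]⟩, ⟨nat_lit 3, [⟨nat_lit 1, nat_lit 13776, nat_lit 15696, nat_lit 10992, nat_lit 11232, nat_lit 14256, R1_229, R1_234, R2_297⟩]⟩]⟩], [], [⟨nat_lit 3, [⟨nat_lit 0, [⟨nat_lit 1, nat_lit 14064, nat_lit 12528, nat_lit 11760, nat_lit 11616, nat_lit 16944, R2_245, R1_242, R14_353⟩]⟩, ⟨nat_lit 1, [⟨nat_lit 1, nat_lit 14976, nat_lit 13680,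 nat_lit 6624, nat_lit 12048, nat_lit 14352, R12_138, R1_251, R12_299⟩]⟩, ⟨nat_lit 3, [⟨nat_lit 1, nat_lit 15168, nat_lit 13920, nat_lit 12192, nat_lit 11760, nat_lit 15216, R1_254, R1_245, R12_317⟩]⟩]⟩], [⟨nat_lit 0, [⟨nat_lit 0, [⟨nat_lit 5, nat_lit 5088, nat_lit 14688, nat_lit 17904, nat_lit 13008, nat_lit 16272, R7_373, R5_271, R5_339⟩]⟩]⟩,
 ⟨nat_lit 3, [⟨nat_lit 0, [⟨nat_lit 5, nat_lit 5136, nat_lit 15168, nat_lit 15456, nat_lit 9168, nat_lit 16608, R2_322, R11_191, R5_346⟩]⟩, ⟨nat_lit 1, [⟨nat_lit 5, nat_lit 5520, nat_lit 17904, nat_lit 5664, nat_lit 9312, nat_lit 3744, R12_118, R11_194, R0_78⟩]⟩, ⟨nat_lit 3, [⟨nat_lit 1, nat_lit 15552, nat_lit 18720, nat_lit 11376, nat_lit 11472, nat_lit 15792, R1_237, R1_239, R1_329⟩, ⟨nat_lit 5, nat_lit 5712, nat_lit 18672, nat_lit 16464, nat_lit 9216, nat_lit 5568,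 R1_343, R11_192, R11_116⟩]⟩]⟩]], [[], [], [], [], [⟨nat_lit 3, [⟨nat_lit 3, [⟨nat_lit 7, nat_lit 10896, nat_lit 13872, nat_lit 13728, nat_lit 10848, nat_lit 14016, R1_286, R2_226, R2_292⟩]⟩]⟩], [], [], [⟨nat_lit 3, [⟨nat_lit 3, [⟨nat_lit 7, nat_lit 12144, nat_lit 15600, nat_lit 15072, nat_lit 11184, nat_lit 15168, R1_314, R2_233, R12_316⟩]⟩]⟩]], [], [[], [], [], [], [⟨nat_lit 3, [⟨nat_lit 3, [⟨nat_lit 7, nat_lit 10992, nat_lit 15696, nat_lit 13776, nat_lit 11232, nat_lit 14256, R1_287, R1_234, R2_297⟩]⟩]⟩], [], [⟨nat_lit 0, [⟨nat_lit 0, [⟨nat_lit 0, nat_lit 12720, nat_lit 18432, nat_lit 4656, nat_lit 1296, nat_lit 624, R7_97, R4_27, R4_13⟩, ⟨nat_lit 3, nat_lit 15984, nat_lit 18480, nat_lit 11376, nat_lit 2976, nat_lit 240, R7_237, R5_62, R5_5⟩]⟩]⟩,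
 ⟨nat_lit 2, [⟨nat_lit 0, [⟨nat_lit 0, nat_lit 12816, nat_lit 18576, nat_lit 3072, nat_lit 4848, nat_lit 7008, R2_64, R3_101, R4_146⟩, ⟨nat_lit 3, nat_lit 16080, nat_lit 18624, nat_lit 10272, nat_lit 10176, nat_lit 7872, R2_214, R0_212, R5_164⟩]⟩, ⟨nat_lit 2, [⟨nat_lit 0, nat_lit 12960, nat_lit 18768, nat_lit 2544, nat_lit 5952, nat_lit 5088, R1_53, R3_124, R3_106⟩, ⟨nat_lit 2, nat_lit 15696, nat_lit 18864, nat_lit 7920, nat_lit 12624, nat_lit 19344, R1_165, R10_263, R10_403⟩, ⟨nat_lit 3, nat_lit 16224, nat_lit 18816, nat_lit 10848, nat_lit 10224, nat_lit 14256, R1_226, R0_213, R0_297⟩]⟩]⟩,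
 ⟨nat_lit 3, [⟨nat_lit 0, [⟨nat_lit 3, nat_lit 16176, nat_lit 18528, nat_lit 7008, nat_lit 16464, nat_lit 5952, R2_146, R11_343, R5_124⟩]⟩, ⟨nat_lit 3, [⟨nat_lit 3, nat_lit 16464, nat_lit 18672, nat_lit 5712, nat_lit 16512, nat_lit 21552, R1_119, R11_344, R11_449⟩, ⟨nat_lit 7, nat_lit 11376, nat_lit 18720, nat_lit 15552, nat_lit 11472, nat_lit 15792, R1_324, R1_239, R1_329⟩]⟩]⟩], [⟨nat_lit 3, [⟨nat_lit 3, [⟨nat_lit 7, nat_lit 12192, nat_lit 13920, nat_lit 15168, nat_lit 11760, nat_lit 15216, R1_316, R1_245, R12_317⟩]⟩]⟩]], [[], [], [], [⟨nat_lit 3, [⟨nat_lit 0, [⟨nat_lit 5, nat_lit 5184, nat_lit 13536, nat_lit 15312, nat_lit 6624, nat_lit 16560, R2_319, R1_138, R5_345⟩]⟩, ⟨nat_lit 1, [⟨nat_lit 5, nat_lit 5616, nat_lit 14880, nat_lit 14832, nat_lit 7632, nat_lit 3504, R12_309, R1_159, R0_73⟩]⟩, ⟨nat_lit 3, [⟨nat_lit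 5, nat_lit 5760, nat_lit 15408, nat_lit 16320, nat_lit 7152, nat_lit 5520, R1_340, R1_149, R11_115⟩]⟩]⟩], [], [], [], [⟨nat_lit 3, [⟨nat_lit 3, [⟨nat_lit 4, nat_lit 2400, nat_lit 20784, nat_lit 12528, nat_lit 6288, nat_lit 5424, R1_261, R2_131, R2_113⟩, ⟨nat_lit 5, nat_lit 7776, nat_lit 20832, nat_lit 15888, nat_lit 4992, nat_lit 4128, R1_331, R1_104, R1_86⟩, ⟨nat_lit 7, nat_lit 12240, nat_lit 20880, nat_lit 15120, nat_lit 10704, nat_lit 15264, R1_315, R12_223, R12_318⟩]⟩]⟩]]], [[], [], [], [[⟨nat_lit 3, [⟨nat_lit 1, [⟨nat_lit 1, nat_lit 13680, nat_lit 15840, nat_lit 3408, nat_lit 6000, nat_lit 14112, R1_71, R1_125, R2_294⟩, ⟨nat_lit 5, nat_lit 3360, nat_lit 9120, nat_lit 3360, nat_lit 9072, nat_lit 9120, R1_70, R11_189, R3_190⟩]⟩]⟩], [⟨nat_lit 0, [⟨nat_lit 5, [⟨nat_lit 5, nat_lit 4272, nat_lit 19056, nat_lit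 7104, nat_lit 7776, nat_lit 4704, R5_148, R5_162, R1_98⟩]⟩]⟩,
 ⟨nat_lit 1, [⟨nat_lit 5, [⟨nat_lit 5, nat_lit 4416, nat_lit 19152, nat_lit 14352, nat_lit 6816, nat_lit 4848, R0_299, R0_142, R1_101⟩]⟩]⟩,
 ⟨nat_lit 3, [⟨nat_lit 1, [⟨nat_lit 1, nat_lit 15504, nat_lit 19296, nat_lit 3888, nat_lit 7872, nat_lit 15648, R1_81, R1_164, R1_326⟩, ⟨nat_lit 5, nat_lit 3840, nat_lit 19200, nat_lit 3840, nat_lit 9456, nat_lit 19200, R1_80, R11_197, R10_400⟩]⟩, ⟨nat_lit 5, [⟨nat_lit 5, nat_lit 4464, nat_lit 19104, nat_lit 21744, nat_lit 9360, nat_lit 4752, R11_453, R11_195, R1_99⟩]⟩]⟩], [⟨nat_lit 3, [⟨nat_lit 1, [⟨nat_lit 1, nat_lit 15024, nat_lit 3552, nat_lit 5664, nat_lit 7584, nat_lit 14688, R1_118, R1_158, R12_306⟩]⟩]⟩]], [], [], [], [[⟨nat_lit 3, [⟨nat_lit 1, [⟨nat_lit 5, nat_lit 3408, nat_lit 14112, nat_lit 13680, nat_lit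 6000, nat_lit 15840, R1_285, R1_125, R3_330⟩]⟩]⟩], [⟨nat_lit 3, [⟨nat_lit 1, [⟨nat_lit 5, nat_lit 3888, nat_lit 15648, nat_lit 15504, nat_lit 7872, nat_lit 19296, R1_323, R1_164, R10_402⟩]⟩, ⟨nat_lit 5, [⟨nat_lit 5, nat_lit 4944, nat_lit 15600, nat_lit 21792, nat_lit 7824, nat_lit 4176, R11_454, R1_163, R1_87⟩]⟩]⟩], [], [⟨nat_lit 3, [⟨nat_lit 1, [⟨nat_lit 5, nat_lit 5664, nat_lit 14688, nat_lit 15024, nat_lit 7584, nat_lit 3552, R1_313, R1_158, R0_74⟩]⟩]⟩]]], [[], [], [], [], [[], [⟨nat_lit 4, [⟨nat_lit 5, [⟨nat_lit 5, nat_lit 4512, nat_lit 3792, nat_lit 4032, nat_lit 3072, nat_lit 3936, R4_84, R4_64, R1_82⟩]⟩]⟩,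
 ⟨nat_lit 7, [⟨nat_lit 5, [⟨nat_lit 5, nat_lit 4560, nat_lit 10128, nat_lit 14304, nat_lit 9744, nat_lit 3984, R3_298, R3_203, R1_83⟩]⟩]⟩], [], [], [], [⟨nat_lit 3, [⟨nat_lit 7, [⟨nat_lit 7, nat_lit 11568, nat_lit 15408, nat_lit 12720, nat_lit 11616, nat_lit 12432, R2_265, R2_242, R0_259⟩]⟩]⟩,
 ⟨nat_lit 4, [⟨nat_lit 4, [⟨nat_lit 4, nat_lit 576, nat_lit 3168, nat_lit 1584, nat_lit 3984, nat_lit 3312, R6_33, R6_83, R8_69⟩, ⟨nat_lit 5, nat_lit 6096, nat_lit 3216, nat_lit 2016, nat_lit 4224, nat_lit 14400, R6_42, R4_88, R5_300⟩, ⟨nat_lit 6, nat_lit 8976, nat_lit 3360, nat_lit 1968, nat_lit 1776, nat_lit 13392, R6_41, R8_37, R9_279⟩]⟩, ⟨nat_lit 5, [⟨nat_lit 4, nat_lit 1392, nat_lit 3696, nat_lit 1536, nat_lit 4224, nat_lit 4608, R4_32, R6_88, R5_96⟩, ⟨nat_lit 5, nat_lit 6816, nat_lit 3744, nat_lit 1824, nat_lit 4320,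 nat_lit 4608, R4_38, R4_90, R11_96⟩, ⟨nat_lit 6, nat_lit 10512, nat_lit 3840, nat_lit 1776, nat_lit 2976, nat_lit 11520, R4_37, R8_62, R0_240⟩]⟩, ⟨nat_lit 6, [⟨nat_lit 6, nat_lit 9600, nat_lit 4224, nat_lit 2112, nat_lit 2640, nat_lit 720, R8_44, R8_55, R0_15⟩]⟩]⟩,
 ⟨nat_lit 6, [⟨nat_lit 6, [⟨nat_lit 6, nat_lit 9696, nat_lit 12672, nat_lit 15216, nat_lit 13680, nat_lit 5952, R5_317, R5_285, R0_124⟩]⟩]⟩,
 ⟨nat_lit 7, [⟨nat_lit 4, [⟨nat_lit 4, nat_lit 672, nat_lit 9360, nat_lit 16800, nat_lit 14256, nat_lit 8160, R13_350, R13_297, R8_170⟩, ⟨nat_lit 5, nat_lit 6192, nat_lit 9408, nat_lit 16896, nat_lit 10608, nat_lit 14544, R13_352, R3_221, R5_303⟩, ⟨nat_lit 6, nat_lit 9072, nat_lit 9552, nat_lit 16848, nat_lit 11952, nat_lit 13632, R13_351, R9_249, R9_284⟩]⟩, ⟨nat_lit 5, [⟨nat_lit 4, nat_lit 1440, nat_lit 10752,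 nat_lit 12624, nat_lit 14352, nat_lit 4992, R3_263, R13_299, R5_104⟩, ⟨nat_lit 5, nat_lit 6864, nat_lit 10800, nat_lit 12720, nat_lit 10704, nat_lit 4992, R3_265, R3_223, R11_104⟩, ⟨nat_lit 6, nat_lit 10560, nat_lit 10896, nat_lit 12672, nat_lit 12048, nat_lit 11760, R3_264, R9_251, R0_245⟩]⟩, ⟨nat_lit 6, [⟨nat_lit 6, nat_lit 9792, nat_lit 11232, nat_lit 14304, nat_lit 12000, nat_lit 8544, R9_298, R9_250, R0_178⟩]⟩, ⟨nat_lit 7, [⟨nat_lit 4, nat_lit 1872, nat_lit 10128, nat_lit 1392, nat_lit 14304, nat_lit 4128, R3_29, R13_298, R9_86⟩, ⟨nat_lit 5, nat_lit 7296, nat_lit 10320, nat_lit 2016, nat_lit 10656, nat_lit 2592, R3_42, R3_222, R0_54⟩, ⟨nat_lit 7, nat_lit 11664, nat_lit 10272, nat_lit 1632, nat_lit 3456, nat_lit 2496, R3_34, R3_72, R0_52⟩]⟩]⟩]], [[], [⟨nat_lit 4, [⟨nat_lit 5, [⟨nat_lit 5, nat_lit 4656, nat_lit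 14256, nat_lit 10368, nat_lit 816, nat_lit 4224, R4_216, R5_17, R1_88⟩]⟩]⟩,
 ⟨nat_lit 7, [⟨nat_lit 5, [⟨nat_lit 5, nat_lit 4800, nat_lit 15072, nat_lit 15120, nat_lit 6720, nat_lit 4320, R3_315, R0_140, R1_90⟩]⟩]⟩], [], [], [], [⟨nat_lit 4, [⟨nat_lit 4, [⟨nat_lit 4, nat_lit 864, nat_lit 1488, nat_lit 7680, nat_lit 1680, nat_lit 3360, R6_160, R8_35, R8_70⟩, ⟨nat_lit 5, nat_lit 6288, nat_lit 1536, nat_lit 8160, nat_lit 336, nat_lit 14448, R6_170, R5_7, R5_301⟩, ⟨nat_lit 6, nat_lit 9264, nat_lit 1680, nat_lit 8112, nat_lit 960, nat_lit 13440, R6_169, R9_20, R9_280⟩]⟩, ⟨nat_lit 5, [⟨nat_lit 4, nat_lit 1488, nat_lit 2064, nat_lit 8256, nat_lit 9552, nat_lit 6192, R4_172, R8_199, R5_129⟩, ⟨nat_lit 5, nat_lit 6912, nat_lit 2112, nat_lit 8544, nat_lit 720, nat_lit 5808, R4_178, R5_15, R11_121⟩, ⟨nat_lit 6, nat_lit 10608,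 nat_lit 2208, nat_lit 8496, nat_lit 1680, nat_lit 11568, R4_177, R9_35, R0_241⟩]⟩, ⟨nat_lit 6, [⟨nat_lit 6, nat_lit 10032, nat_lit 2640, nat_lit 6624, nat_lit 1392, nat_lit 768, R8_138, R9_29, R0_16⟩]⟩]⟩,
 ⟨nat_lit 6, [⟨nat_lit 6, [⟨nat_lit 6, nat_lit 10176, nat_lit 11376, nat_lit 15792, nat_lit 4128, nat_lit 6000, R5_329, R0_86, R0_125⟩]⟩]⟩,
 ⟨nat_lit 7, [⟨nat_lit 4, [⟨nat_lit 4, nat_lit 1056, nat_lit 8544, nat_lit 17472, nat_lit 6336, nat_lit 8304, R13_364, R9_132, R8_173⟩, ⟨nat_lit 5, nat_lit 6480, nat_lit 8592, nat_lit 17520, nat_lit 4176, nat_lit 14640, R13_365, R0_87, R5_305⟩]⟩, ⟨nat_lit 5, [⟨nat_lit 4, nat_lit 1632, nat_lit 9840, nat_lit 13008, nat_lit 7536, nat_lit 6720, R3_271, R9_157, R5_140⟩, ⟨nat_lit 5, nat_lit 7056, nat_lit 9888, nat_lit 13056, nat_lit 5376, nat_lit 6336, R3_272, R0_112, R11_132⟩]⟩,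 ⟨nat_lit 7, [⟨nat_lit 4, nat_lit 2016, nat_lit 9312, nat_lit 7872, nat_lit 7200, nat_lit 6624, R3_164, R9_150, R9_138⟩, ⟨nat_lit 5, nat_lit 7392, nat_lit 9504, nat_lit 8496, nat_lit 5040, nat_lit 4464, R3_177, R0_105, R0_93⟩, ⟨nat_lit 7, nat_lit 11856, nat_lit 9456, nat_lit 8160, nat_lit 4800, nat_lit 4368, R3_170, R0_100, R0_91⟩]⟩]⟩]], [], [[], [], [], [], [], [⟨nat_lit 3, [⟨nat_lit 7, [⟨nat_lit 4, nat_lit 2160, nat_lit 13008, nat_lit 13584, nat_lit 6864, nat_lit 5616, R2_283, R2_143, R9_117⟩, ⟨nat_lit 5, nat_lit 7536, nat_lit 13536, nat_lit 13680, nat_lit 5568, nat_lit 3456, R2_285, R1_116, R0_72⟩, ⟨nat_lit 7, nat_lit 12000, nat_lit 13392, nat_lit 13632, nat_lit 10752, nat_lit 13392, R2_284, R12_224, R0_279⟩]⟩]⟩,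
 ⟨nat_lit 7, [⟨nat_lit 4, [⟨nat_lit 4, nat_lit 1248, nat_lit 3456, nat_lit 18144, nat_lit 2304, nat_lit 8256, R13_378, R3_48, R8_172⟩, ⟨nat_lit 5, nat_lit 6672, nat_lit 3504, nat_lit 18240, nat_lit 6000, nat_lit 14592, R13_380, R10_125, R5_304⟩, ⟨nat_lit 6, nat_lit 9456, nat_lit 3744, nat_lit 18192, nat_lit 1344, nat_lit 13680, R13_379, R0_28, R9_285⟩]⟩, ⟨nat_lit 5, [⟨nat_lit 4, nat_lit 1776, nat_lit 4848, nat_lit 13440, nat_lit 9936, nat_lit 5664, R3_280, R3_207, R5_118⟩, ⟨nat_lit 5, nat_lit 7200, nat_lit 4896, nat_lit 13536, nat_lit 6720, nat_lit 5280, R3_282, R10_140, R11_110⟩, ⟨nat_lit 6, nat_lit 10752, nat_lit 5040, nat_lit 13488, nat_lit 1872, nat_lit 11808, R3_281, R0_39, R0_246⟩]⟩, ⟨nat_lit 6, [⟨nat_lit 6, nat_lit 10368, nat_lit 6720, nat_lit 15024, nat_lit 1584, nat_lit 8640, R9_313, R0_33, R0_180⟩]⟩,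 ⟨nat_lit 7, [⟨nat_lit 4, nat_lit 2304, nat_lit 4320, nat_lit 6576, nat_lit 7200, nat_lit 5280, R3_137, R3_150, R9_110⟩, ⟨nat_lit 5, nat_lit 7680, nat_lit 4368, nat_lit 6960, nat_lit 6432, nat_lit 3120, R3_145, R10_134, R0_65⟩]⟩]⟩]]], [[], [[], [⟨nat_lit 5, [⟨nat_lit 5, [⟨nat_lit 5, nat_lit 4176, nat_lit 15600, nat_lit 21792, nat_lit 7824, nat_lit 4944, R11_454, R1_163, R1_103⟩]⟩]⟩]], [], [], [], [[], [⟨nat_lit 4, [⟨nat_lit 5, [⟨nat_lit 5, nat_lit 4704, nat_lit 1776, nat_lit 7104, nat_lit 7776, nat_lit 4272, R5_148, R5_162, R1_89⟩]⟩]⟩,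
 ⟨nat_lit 5, [⟨nat_lit 5, [⟨nat_lit 5, nat_lit 4752, nat_lit 7968, nat_lit 21744, nat_lit 9360, nat_lit 4464, R11_453, R11_195, R1_93⟩]⟩]⟩,
 ⟨nat_lit 7, [⟨nat_lit 5, [⟨nat_lit 5, nat_lit 4848, nat_lit 11616, nat_lit 14352, nat_lit 6816, nat_lit 4416, R0_299, R0_142, R1_92⟩]⟩]⟩], [], [], [], [⟨nat_lit 4, [⟨nat_lit 4, [⟨nat_lit 4, nat_lit 960, nat_lit 960, nat_lit 2256, nat_lit 2496, nat_lit 3696, R8_47, R8_52, R8_77⟩, ⟨nat_lit 5, nat_lit 6384, nat_lit 1008, nat_lit 9936, nat_lit 6528, nat_lit 17136, R8_207, R5_136, R5_357⟩, ⟨nat_lit 6, nat_lit 9360, nat_lit 1152, nat_lit 6768, nat_lit 6384, nat_lit 16800, R8_141, R9_133, R9_350⟩]⟩, ⟨nat_lit 5, [⟨nat_lit 4, nat_lit 1536, nat_lit 1536, nat_lit 6240, nat_lit 10080, nat_lit 6240, R5_130, R8_210, R5_130⟩, ⟨nat_lit 5, nat_lit 6960, nat_lit 1584, nat_lit 7152, nat_lit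 7680, nat_lit 5856, R5_149, R5_160, R11_122⟩, ⟨nat_lit 6, nat_lit 10656, nat_lit 1680, nat_lit 6768, nat_lit 7584, nat_lit 14400, R5_141, R9_158, R0_300⟩]⟩, ⟨nat_lit 6, [⟨nat_lit 6, nat_lit 10128, nat_lit 2112, nat_lit 6720, nat_lit 7248, nat_lit 1248, R9_140, R9_151, R0_26⟩]⟩]⟩,
 ⟨nat_lit 5, [⟨nat_lit 4, [⟨nat_lit 4, nat_lit 1008, nat_lit 6384, nat_lit 17136, nat_lit 6528, nat_lit 10944, R5_357, R5_136, R8_228⟩, ⟨nat_lit 5, nat_lit 6432, nat_lit 6432, nat_lit 17472, nat_lit 6144, nat_lit 17472, R5_364, R11_128, R5_364⟩, ⟨nat_lit 6, nat_lit 9408, nat_lit 6576, nat_lit 17280, nat_lit 4224, nat_lit 17520, R5_360, R0_88, R9_365⟩]⟩, ⟨nat_lit 5, [⟨nat_lit 4, nat_lit 1584, nat_lit 6960, nat_lit 21840, nat_lit 7680, nat_lit 7152, R11_455, R5_160, R5_149⟩, ⟨nat_lit 5, nat_lit 7008, nat_lit 7008, nat_lit 22176, nat_lit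 7296, nat_lit 6768, R11_462, R11_152, R11_141⟩, ⟨nat_lit 6, nat_lit 10704, nat_lit 7104, nat_lit 21984, nat_lit 5424, nat_lit 15120, R11_458, R0_113, R0_315⟩]⟩, ⟨nat_lit 6, [⟨nat_lit 6, nat_lit 10320, nat_lit 7488, nat_lit 4560, nat_lit 5088, nat_lit 10464, R0_95, R0_106, R0_218⟩]⟩]⟩,
 ⟨nat_lit 6, [⟨nat_lit 6, [⟨nat_lit 6, nat_lit 10272, nat_lit 11952, nat_lit 4704, nat_lit 4944, nat_lit 6384, R0_98, R0_103, R0_133⟩]⟩]⟩,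
 ⟨nat_lit 7, [⟨nat_lit 4, [⟨nat_lit 4, nat_lit 1152, nat_lit 9360, nat_lit 16800, nat_lit 6384, nat_lit 8976, R9_350, R9_133, R8_187⟩, ⟨nat_lit 5, nat_lit 6576, nat_lit 9408, nat_lit 17520, nat_lit 4224, nat_lit 17280, R9_365, R0_88, R5_360⟩]⟩, ⟨nat_lit 5, [⟨nat_lit 4, nat_lit 1680, nat_lit 10656, nat_lit 14400, nat_lit 7584, nat_lit 6768, R0_300, R9_158, R5_141⟩, ⟨nat_lit 5, nat_lit 7104, nat_lit 10704, nat_lit 15120, nat_lit 5424, nat_lit 6384, R0_315, R0_113, R11_133⟩]⟩, ⟨nat_lit 7, [⟨nat_lit 4, nat_lit 2112, nat_lit 10128, nat_lit 1248, nat_lit 7248, nat_lit 6720, R0_26, R9_151, R9_140⟩, ⟨nat_lit 5, nat_lit 7488, nat_lit 10320, nat_lit 10464, nat_lit 5088, nat_lit 4560, R0_218, R0_106, R0_95⟩, ⟨nat_lit 7, nat_lit 11952, nat_lit 10272, nat_lit 6384, nat_lit 4944, nat_lit 4704, R0_133, R0_103, R0_98⟩]⟩]⟩]]],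 [[], [], [], [], [[], [], [], [], [⟨nat_lit 3, [⟨nat_lit 3, [⟨nat_lit 7, nat_lit 10944, nat_lit 15120, nat_lit 20928, nat_lit 10656, nat_lit 14064, R11_436, R2_222, R2_293⟩]⟩, ⟨nat_lit 7, [⟨nat_lit 7, nat_lit 11136, nat_lit 15072, nat_lit 13152, nat_lit 10608, nat_lit 15360, R1_274, R2_221, R3_320⟩]⟩]⟩,
 ⟨nat_lit 4, [⟨nat_lit 4, [⟨nat_lit 4, nat_lit 0, nat_lit 13488, nat_lit 3216, nat_lit 10704, nat_lit 13680, R4_67, R6_223, R6_285⟩, ⟨nat_lit 5, nat_lit 5808, nat_lit 14304, nat_lit 11664, nat_lit 11568, nat_lit 13440, R4_243, R4_241, R4_280⟩, ⟨nat_lit 6, nat_lit 7968, nat_lit 16800, nat_lit 9120, nat_lit 9648, nat_lit 13392, R4_190, R8_201, R8_279⟩]⟩, ⟨nat_lit 6, [⟨nat_lit 6, nat_lit 8208, nat_lit 17088, nat_lit 6336, nat_lit 10224, nat_lit 16320, R5_132, R8_213, R5_340⟩]⟩]⟩,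
 ⟨nat_lit 6, [⟨nat_lit 6, [⟨nat_lit 6, nat_lit 8256, nat_lit 17232, nat_lit 18576, nat_lit 12912, nat_lit 16416, R11_387, R5_269, R5_342⟩]⟩]⟩,
 ⟨nat_lit 7, [⟨nat_lit 4, [⟨nat_lit 4, nat_lit 48, nat_lit 13584, nat_lit 15888, nat_lit 13536, nat_lit 13776, R3_331, R13_282, R6_287⟩, ⟨nat_lit 5, nat_lit 5856, nat_lit 14400, nat_lit 16656, nat_lit 10272, nat_lit 13584, R3_347, R3_214, R4_283⟩, ⟨nat_lit 6, nat_lit 8016, nat_lit 16896, nat_lit 16224, nat_lit 11040, nat_lit 13632, R3_338, R9_230, R8_284⟩]⟩, ⟨nat_lit 6, [⟨nat_lit 6, nat_lit 8304, nat_lit 17136, nat_lit 12288, nat_lit 11136, nat_lit 16368, R0_256, R9_232, R5_341⟩]⟩, ⟨nat_lit 7, [⟨nat_lit 4, nat_lit 240, nat_lit 13680, nat_lit 14736, nat_lit 13584, nat_lit 19200, R10_307, R13_283, R13_400⟩, ⟨nat_lit 5, nat_lit 5952, nat_lit 14544, nat_lit 14880, nat_lit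 10320, nat_lit 15456, R10_310, R3_215, R3_322⟩, ⟨nat_lit 6, nat_lit 8544, nat_lit 17040, nat_lit 14832, nat_lit 11088, nat_lit 15552, R10_309, R9_231, R9_324⟩, ⟨nat_lit 7, nat_lit 11184, nat_lit 15024, nat_lit 14784, nat_lit 10416, nat_lit 15408, R10_308, R3_217, R3_321⟩]⟩]⟩], [⟨nat_lit 3, [⟨nat_lit 7, [⟨nat_lit 7, nat_lit 11616, nat_lit 7968, nat_lit 14064, nat_lit 11760, nat_lit 12528, R1_293, R2_245, R0_261⟩]⟩]⟩,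
 ⟨nat_lit 4, [⟨nat_lit 4, [⟨nat_lit 4, nat_lit 624, nat_lit 8160, nat_lit 4080, nat_lit 11472, nat_lit 3408, R4_85, R6_239, R8_71⟩, ⟨nat_lit 5, nat_lit 6144, nat_lit 8448, nat_lit 11712, nat_lit 12000, nat_lit 15984, R4_244, R4_250, R5_333⟩, ⟨nat_lit 6, nat_lit 9024, nat_lit 8688, nat_lit 10416, nat_lit 9744, nat_lit 15072, R4_217, R8_203, R9_314⟩]⟩, ⟨nat_lit 6, [⟨nat_lit 6, nat_lit 9648, nat_lit 8736, nat_lit 6384, nat_lit 10320, nat_lit 816, R5_133, R8_215, R0_17⟩]⟩]⟩,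
 ⟨nat_lit 6, [⟨nat_lit 6, [⟨nat_lit 6, nat_lit 9744, nat_lit 11040, nat_lit 19536, nat_lit 13968, nat_lit 6048, R11_407, R5_291, R0_126⟩]⟩]⟩,
 ⟨nat_lit 7, [⟨nat_lit 4, [⟨nat_lit 4, nat_lit 720, nat_lit 9264, nat_lit 16848, nat_lit 14784, nat_lit 8496, R3_351, R13_308, R8_177⟩, ⟨nat_lit 5, nat_lit 6240, nat_lit 9744, nat_lit 17184, nat_lit 10800, nat_lit 16080, R3_358, R3_225, R5_335⟩, ⟨nat_lit 6, nat_lit 9120, nat_lit 10368, nat_lit 17040, nat_lit 12624, nat_lit 15216, R3_355, R9_263, R9_317⟩]⟩, ⟨nat_lit 6, [⟨nat_lit 6, nat_lit 9840, nat_lit 10416, nat_lit 13008, nat_lit 12672, nat_lit 8880, R0_271, R9_264, R0_185⟩]⟩, ⟨nat_lit 7, [⟨nat_lit 4, nat_lit 1920, nat_lit 9312, nat_lit 16368, nat_lit 14832, nat_lit 4176, R10_341, R13_309, R9_87⟩, ⟨nat_lit 5, nat_lit 7344, nat_lit 9792, nat_lit 16464, nat_lit 10848,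 nat_lit 2640, R10_343, R3_226, R0_55⟩, ⟨nat_lit 7, nat_lit 11712, nat_lit 10032, nat_lit 16416, nat_lit 10944, nat_lit 2544, R10_342, R3_228, R0_53⟩]⟩]⟩]], [[], [], [], [], [], [⟨nat_lit 4, [⟨nat_lit 4, [⟨nat_lit 4, nat_lit 912, nat_lit 6768, nat_lit 4128, nat_lit 2880, nat_lit 3504, R4_86, R8_60, R8_73⟩, ⟨nat_lit 5, nat_lit 6336, nat_lit 7056, nat_lit 11760, nat_lit 12720, nat_lit 16032, R4_245, R5_265, R5_334⟩, ⟨nat_lit 6, nat_lit 9312, nat_lit 7296, nat_lit 10464, nat_lit 10368, nat_lit 15168, R4_218, R9_216, R9_316⟩]⟩, ⟨nat_lit 6, [⟨nat_lit 6, nat_lit 10080, nat_lit 7344, nat_lit 6816, nat_lit 10704, nat_lit 912, R5_142, R9_223, R0_19⟩]⟩]⟩,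
 ⟨nat_lit 6, [⟨nat_lit 6, [⟨nat_lit 6, nat_lit 10224, nat_lit 9168, nat_lit 20112, nat_lit 5328, nat_lit 6144, R11_419, R0_111, R0_128⟩]⟩]⟩,
 ⟨nat_lit 7, [⟨nat_lit 4, [⟨nat_lit 4, nat_lit 1104, nat_lit 8160, nat_lit 16944, nat_lit 6432, nat_lit 8640, R3_353, R9_134, R8_180⟩, ⟨nat_lit 5, nat_lit 6528, nat_lit 8640, nat_lit 17280, nat_lit 4272, nat_lit 16176, R3_360, R0_89, R5_337⟩]⟩, ⟨nat_lit 7, [⟨nat_lit 4, nat_lit 2064, nat_lit 8208, nat_lit 17280, nat_lit 7296, nat_lit 6672, R10_360, R9_152, R9_139⟩, ⟨nat_lit 5, nat_lit 7440, nat_lit 8688, nat_lit 17376, nat_lit 5136, nat_lit 4512, R10_362, R0_107, R0_94⟩, ⟨nat_lit 7, nat_lit 11904, nat_lit 8928, nat_lit 17328, nat_lit 5184, nat_lit 4416, R10_361, R0_108, R0_92⟩]⟩]⟩]], [[], [], [], [], [⟨nat_lit 3, [⟨nat_lit 3, [⟨nat_lit 7, nat_lit 11040, nat_lit 14304, nat_lit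 21024, nat_lit 11040, nat_lit 14304, R11_438, R1_230, R2_298⟩]⟩, ⟨nat_lit 7, [⟨nat_lit 7, nat_lit 11232, nat_lit 14256, nat_lit 13776, nat_lit 10992, nat_lit 15696, R1_287, R1_229, R3_327⟩]⟩]⟩,
 ⟨nat_lit 4, [⟨nat_lit 4, [⟨nat_lit 4, nat_lit 96, nat_lit 12192, nat_lit 3264, nat_lit 432, nat_lit 14064, R4_68, R4_9, R6_293⟩, ⟨nat_lit 6, nat_lit 8064, nat_lit 15024, nat_lit 9168, nat_lit 528, nat_lit 13440, R4_191, R5_11, R8_280⟩]⟩, ⟨nat_lit 6, [⟨nat_lit 6, nat_lit 8352, nat_lit 15360, nat_lit 7200, nat_lit 7488, nat_lit 16656, R5_150, R5_156, R5_347⟩]⟩]⟩,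
 ⟨nat_lit 6, [⟨nat_lit 6, [⟨nat_lit 6, nat_lit 8400, nat_lit 15504, nat_lit 19056, nat_lit 15840, nat_lit 16752, R11_397, R11_330, R5_349⟩]⟩]⟩,
 ⟨nat_lit 7, [⟨nat_lit 4, [⟨nat_lit 4, nat_lit 144, nat_lit 12288, nat_lit 15984, nat_lit 3648, nat_lit 14208, R3_333, R3_76, R6_296⟩, ⟨nat_lit 6, nat_lit 8112, nat_lit 15120, nat_lit 16320, nat_lit 9552, nat_lit 13728, R3_340, R0_199, R8_286⟩]⟩, ⟨nat_lit 6, [⟨nat_lit 6, nat_lit 8448, nat_lit 15408, nat_lit 12672, nat_lit 9648, nat_lit 16704, R0_264, R0_201, R5_348⟩]⟩, ⟨nat_lit 7, [⟨nat_lit 4, nat_lit 288, nat_lit 12432, nat_lit 15504, nat_lit 4176, nat_lit 19584, R10_323, R3_87, R13_408⟩, ⟨nat_lit 6, nat_lit 8592, nat_lit 15264, nat_lit 15600, nat_lit 9600, nat_lit 15840, R10_325, R0_200, R9_330⟩, ⟨nat_lit 7, nat_lit 11280, nat_lit 14208, nat_lit 15552, nat_lit 12288,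 nat_lit 15744, R10_324, R10_256, R3_328⟩]⟩]⟩], [⟨nat_lit 3, [⟨nat_lit 7, [⟨nat_lit 7, nat_lit 11760, nat_lit 3888, nat_lit 15168, nat_lit 12192, nat_lit 13920, R1_316, R1_254, R0_290⟩]⟩]⟩,
 ⟨nat_lit 4, [⟨nat_lit 4, [⟨nat_lit 4, nat_lit 768, nat_lit 2928, nat_lit 4176, nat_lit 2736, nat_lit 3456, R4_87, R4_57, R8_72⟩, ⟨nat_lit 6, nat_lit 9168, nat_lit 4320, nat_lit 10512, nat_lit 672, nat_lit 15120, R4_219, R5_14, R9_315⟩]⟩, ⟨nat_lit 6, [⟨nat_lit 6, nat_lit 9888, nat_lit 4368, nat_lit 7248, nat_lit 7632, nat_lit 864, R5_151, R5_159, R0_18⟩]⟩]⟩,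
 ⟨nat_lit 6, [⟨nat_lit 6, [⟨nat_lit 6, nat_lit 9936, nat_lit 5712, nat_lit 20736, nat_lit 17040, nat_lit 6096, R11_432, R11_355, R0_127⟩]⟩]⟩,
 ⟨nat_lit 7, [⟨nat_lit 4, [⟨nat_lit 4, nat_lit 816, nat_lit 3408, nat_lit 16992, nat_lit 7056, nat_lit 8592, R3_354, R3_147, R8_179⟩, ⟨nat_lit 6, nat_lit 9216, nat_lit 4992, nat_lit 17136, nat_lit 10800, nat_lit 15312, R3_357, R0_225, R9_319⟩]⟩, ⟨nat_lit 6, [⟨nat_lit 6, nat_lit 9984, nat_lit 5040, nat_lit 13872, nat_lit 10848, nat_lit 8976, R0_289, R0_226, R0_187⟩]⟩, ⟨nat_lit 7, [⟨nat_lit 4, nat_lit 1968, nat_lit 3456, nat_lit 18336, nat_lit 7440, nat_lit 5040, R10_382, R3_155, R9_105⟩, ⟨nat_lit 7, nat_lit 11808, nat_lit 3744, nat_lit 18384, nat_lit 13008, nat_lit 3072, R10_383, R10_271, R0_64⟩]⟩]⟩], [⟨nat_lit 0, [⟨nat_lit 0, [⟨nat_lit 0, nat_lit 12768, nat_lit 432, nat_lit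 4464, nat_lit 1344, nat_lit 576, R4_93, R4_28, R4_12⟩, ⟨nat_lit 3, nat_lit 16032, nat_lit 8688, nat_lit 10752, nat_lit 576, nat_lit 2160, R4_224, R5_12, R5_45⟩]⟩, ⟨nat_lit 3, [⟨nat_lit 3, nat_lit 16368, nat_lit 8784, nat_lit 7344, nat_lit 7536, nat_lit 21600, R5_153, R5_157, R11_450⟩]⟩]⟩,
 ⟨nat_lit 2, [⟨nat_lit 0, [⟨nat_lit 0, nat_lit 12864, nat_lit 480, nat_lit 17328, nat_lit 4800, nat_lit 6960, R3_361, R3_100, R4_145⟩, ⟨nat_lit 3, nat_lit 16128, nat_lit 8736, nat_lit 17616, nat_lit 10032, nat_lit 10992, R3_367, R0_209, R5_229⟩]⟩, ⟨nat_lit 2, [⟨nat_lit 0, nat_lit 13008, nat_lit 528, nat_lit 18912, nat_lit 5904, nat_lit 5136, R10_394, R3_123, R3_107⟩, ⟨nat_lit 2, nat_lit 15744, nat_lit 11520, nat_lit 18960, nat_lit 12576, nat_lit 19392, R10_395, R10_262, R10_404⟩, ⟨nat_lit 3, nat_lit 16272, nat_lit 8928, nat_lit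 19008, nat_lit 10080, nat_lit 14304, R10_396, R0_210, R0_298⟩]⟩, ⟨nat_lit 3, [⟨nat_lit 3, nat_lit 16416, nat_lit 8880, nat_lit 13968, nat_lit 10128, nat_lit 21648, R0_291, R0_211, R11_451⟩]⟩]⟩,
 ⟨nat_lit 3, [⟨nat_lit 3, [⟨nat_lit 3, nat_lit 16512, nat_lit 8832, nat_lit 21216, nat_lit 16416, nat_lit 21696, R11_442, R11_342, R11_452⟩, ⟨nat_lit 7, nat_lit 11424, nat_lit 15840, nat_lit 21264, nat_lit 11424, nat_lit 15840, R11_443, R1_238, R1_330⟩]⟩, ⟨nat_lit 7, [⟨nat_lit 7, nat_lit 11472, nat_lit 15792, nat_lit 15552, nat_lit 11376, nat_lit 19440, R1_324, R1_237, R10_405⟩]⟩]⟩,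
 ⟨nat_lit 4, [⟨nat_lit 4, [⟨nat_lit 4, nat_lit 432, nat_lit 12768, nat_lit 4464, nat_lit 1344, nat_lit 576, R4_93, R4_28, R4_12⟩, ⟨nat_lit 6, nat_lit 8688, nat_lit 16032, nat_lit 10752, nat_lit 576, nat_lit 2160, R4_224, R5_12, R5_45⟩]⟩, ⟨nat_lit 6, [⟨nat_lit 6, nat_lit 8784, nat_lit 16368, nat_lit 7344, nat_lit 7536, nat_lit 21600, R5_153, R5_157, R11_450⟩]⟩]⟩,
 ⟨nat_lit 6, [⟨nat_lit 2, [⟨nat_lit 2, nat_lit 15792, nat_lit 11472, nat_lit 15552, nat_lit 11376, nat_lit 19440, R1_324, R1_237, R10_405⟩]⟩, ⟨nat_lit 6, [⟨nat_lit 2, nat_lit 15840, nat_lit 11424, nat_lit 21264, nat_lit 11424, nat_lit 15840, R11_443, R1_238, R1_330⟩, ⟨nat_lit 6, nat_lit 8832, nat_lit 16512, nat_lit 21216, nat_lit 16416, nat_lit 21696, R11_442, R11_342, R11_452⟩]⟩]⟩,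
 ⟨nat_lit 7, [⟨nat_lit 4, [⟨nat_lit 4, nat_lit 480, nat_lit 12864, nat_lit 17328, nat_lit 4800, nat_lit 6960, R3_361, R3_100, R4_145⟩, ⟨nat_lit 6, nat_lit 8736, nat_lit 16128, nat_lit 17616, nat_lit 10032, nat_lit 10992, R3_367, R0_209, R5_229⟩]⟩, ⟨nat_lit 6, [⟨nat_lit 6, nat_lit 8880, nat_lit 16416, nat_lit 13968, nat_lit 10128, nat_lit 21648, R0_291, R0_211, R11_451⟩]⟩, ⟨nat_lit 7, [⟨nat_lit 4, nat_lit 528, nat_lit 13008, nat_lit 18912, nat_lit 5904, nat_lit 5136, R10_394, R3_123, R3_107⟩, ⟨nat_lit 6, nat_lit 8928, nat_lit 16272, nat_lit 19008, nat_lit 10080, nat_lit 14304, R10_396, R0_210, R0_298⟩, ⟨nat_lit 7, nat_lit 11520, nat_lit 15744, nat_lit 18960, nat_lit 12576, nat_lit 19392, R10_395, R10_262, R10_404⟩]⟩]⟩]], [[], [], [], [], [⟨nat_lit 3, [⟨nat_lit 3, [⟨nat_lit 7, nat_lit 11088, nat_lit 12768, nat_lit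 20976, nat_lit 10560, nat_lit 14352, R11_437, R12_220, R2_299⟩]⟩, ⟨nat_lit 7, [⟨nat_lit 4, nat_lit 336, nat_lit 12336, nat_lit 13584, nat_lit 3936, nat_lit 19728, R1_283, R2_82, R13_411⟩, ⟨nat_lit 5, nat_lit 6000, nat_lit 14112, nat_lit 13680, nat_lit 3408, nat_lit 15840, R1_285, R1_71, R3_330⟩, ⟨nat_lit 7, nat_lit 11328, nat_lit 13872, nat_lit 13632, nat_lit 10608, nat_lit 15648, R1_284, R12_221, R3_326⟩]⟩]⟩,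
 ⟨nat_lit 7, [⟨nat_lit 4, [⟨nat_lit 4, nat_lit 192, nat_lit 11904, nat_lit 15936, nat_lit 624, nat_lit 13968, R3_332, R3_13, R6_291⟩, ⟨nat_lit 5, nat_lit 5904, nat_lit 13920, nat_lit 16704, nat_lit 3360, nat_lit 13776, R3_348, R10_70, R4_287⟩, ⟨nat_lit 6, nat_lit 8160, nat_lit 14640, nat_lit 16272, nat_lit 9504, nat_lit 13680, R3_339, R0_198, R8_285⟩]⟩, ⟨nat_lit 6, [⟨nat_lit 6, nat_lit 8496, nat_lit 15696, nat_lit 12576, nat_lit 9840, nat_lit 16800, R0_262, R0_205, R5_350⟩]⟩, ⟨nat_lit 7, [⟨nat_lit 4, nat_lit 384, nat_lit 12384, nat_lit 15216, nat_lit 4224, nat_lit 19680, R10_317, R3_88, R13_410⟩, ⟨nat_lit 5, nat_lit 6048, nat_lit 14160, nat_lit 15312, nat_lit 3936, nat_lit 15792, R10_319, R10_82, R3_329⟩, ⟨nat_lit 6, nat_lit 8640, nat_lit 15216, nat_lit 15264, nat_lit 9744, nat_lit 15936, R10_318, R0_203, R9_332⟩]⟩]⟩],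 [⟨nat_lit 3, [⟨nat_lit 7, [⟨nat_lit 4, nat_lit 2208, nat_lit 13728, nat_lit 14928, nat_lit 6960, nat_lit 5712, R1_311, R2_145, R9_119⟩, ⟨nat_lit 5, nat_lit 7584, nat_lit 14688, nat_lit 15024, nat_lit 5664, nat_lit 3552, R1_313, R1_118, R0_74⟩, ⟨nat_lit 7, nat_lit 12048, nat_lit 14352, nat_lit 14976, nat_lit 10848, nat_lit 13680, R1_312, R12_226, R0_285⟩]⟩]⟩,
 ⟨nat_lit 7, [⟨nat_lit 4, [⟨nat_lit 4, nat_lit 1296, nat_lit 3072, nat_lit 16896, nat_lit 2736, nat_lit 8544, R3_352, R3_57, R8_178⟩, ⟨nat_lit 5, nat_lit 6720, nat_lit 3600, nat_lit 17232, nat_lit 6096, nat_lit 16128, R3_359, R10_127, R5_336⟩, ⟨nat_lit 6, nat_lit 9504, nat_lit 4656, nat_lit 17088, nat_lit 10704, nat_lit 15264, R3_356, R0_223, R9_318⟩]⟩, ⟨nat_lit 6, [⟨nat_lit 6, nat_lit 10416, nat_lit 5280, nat_lit 13728, nat_lit 11040, nat_lit 8928, R0_286,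 R0_230, R0_186⟩]⟩, ⟨nat_lit 7, [⟨nat_lit 4, nat_lit 2352, nat_lit 3312, nat_lit 17952, nat_lit 7488, nat_lit 5328, R10_374, R3_156, R9_111⟩, ⟨nat_lit 5, nat_lit 7728, nat_lit 3696, nat_lit 18000, nat_lit 6480, nat_lit 3168, R10_375, R10_135, R0_66⟩]⟩]⟩], [], [⟨nat_lit 3, [⟨nat_lit 3, [⟨nat_lit 4, nat_lit 2448, nat_lit 12480, nat_lit 21072, nat_lit 6240, nat_lit 5472, R11_439, R2_130, R2_114⟩, ⟨nat_lit 5, nat_lit 7824, nat_lit 15600, nat_lit 21168, nat_lit 4944, nat_lit 4176, R11_441, R1_103, R1_87⟩, ⟨nat_lit 7, nat_lit 12288, nat_lit 14112, nat_lit 21120, nat_lit 10656, nat_lit 15312, R11_440, R12_222, R12_319⟩]⟩, ⟨nat_lit 7, [⟨nat_lit 4, nat_lit 2496, nat_lit 12912, nat_lit 15456, nat_lit 5184, nat_lit 13392, R1_322, R2_108, R3_279⟩, ⟨nat_lit 5, nat_lit 7872, nat_lit 15648, nat_lit 15504, nat_lit 3888, nat_lit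 5184, R1_323, R1_81, R10_108⟩]⟩]⟩,
 ⟨nat_lit 7, [⟨nat_lit 7, [⟨nat_lit 4, nat_lit 2544, nat_lit 12960, nat_lit 18768, nat_lit 5952, nat_lit 5088, R10_391, R3_124, R3_106⟩, ⟨nat_lit 5, nat_lit 7920, nat_lit 15696, nat_lit 18864, nat_lit 5040, nat_lit 4272, R10_393, R10_105, R10_89⟩, ⟨nat_lit 6, nat_lit 10848, nat_lit 16224, nat_lit 18816, nat_lit 10224, nat_lit 14256, R10_392, R0_213, R0_297⟩]⟩]⟩]]], [[], [], [], [], [[], [⟨nat_lit 7, [⟨nat_lit 5, [⟨nat_lit 5, nat_lit 4608, nat_lit 5568, nat_lit 19488, nat_lit 10032, nat_lit 4032, R10_406, R3_209, R1_84⟩]⟩]⟩]], [[], [⟨nat_lit 7, [⟨nat_lit 5, [⟨nat_lit 5, nat_lit 4896, nat_lit 14016, nat_lit 19584, nat_lit 6768, nat_lit 4368, R10_408, R0_141, R1_91⟩]⟩]⟩]], [], [[], [⟨nat_lit 3, [⟨nat_lit 5, [⟨nat_lit 5, nat_lit 4992, nat_lit 21360, nat_lit 15888, nat_lit 7776,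 nat_lit 4128, R1_331, R1_162, R1_86⟩]⟩]⟩,
 ⟨nat_lit 7, [⟨nat_lit 5, [⟨nat_lit 5, nat_lit 5040, nat_lit 21312, nat_lit 19536, nat_lit 8448, nat_lit 4080, R10_407, R10_176, R1_85⟩]⟩]⟩], [], [], [], [⟨nat_lit 3, [⟨nat_lit 4, [⟨nat_lit 4, nat_lit 1200, nat_lit 13392, nat_lit 14928, nat_lit 6480, nat_lit 15072, R2_311, R2_135, R8_314⟩, ⟨nat_lit 5, nat_lit 6624, nat_lit 13536, nat_lit 15312, nat_lit 5184, nat_lit 16560, R2_319, R1_108, R5_345⟩]⟩, ⟨nat_lit 5, [⟨nat_lit 4, nat_lit 1728, nat_lit 15312, nat_lit 15936, nat_lit 7056, nat_lit 5904, R1_332, R2_147, R5_123⟩, ⟨nat_lit 5, nat_lit 7152, nat_lit 15408, nat_lit 16320, nat_lit 5760, nat_lit 5520, R1_340, R1_120, R11_115⟩]⟩, ⟨nat_lit 7, [⟨nat_lit 4, nat_lit 2256, nat_lit 14352, nat_lit 14736, nat_lit 6912, nat_lit 5664, R12_307, R2_144, R9_118⟩, ⟨nat_lit 5, nat_lit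 7632, nat_lit 14880, nat_lit 14832, nat_lit 5616, nat_lit 3504, R12_309, R1_117, R0_73⟩, ⟨nat_lit 7, nat_lit 12096, nat_lit 14736, nat_lit 14784, nat_lit 10800, nat_lit 13584, R12_308, R12_225, R0_283⟩]⟩]⟩,
 ⟨nat_lit 7, [⟨nat_lit 4, [⟨nat_lit 4, nat_lit 1344, nat_lit 2928, nat_lit 3360, nat_lit 2448, nat_lit 8448, R3_70, R3_51, R8_176⟩, ⟨nat_lit 5, nat_lit 6768, nat_lit 2976, nat_lit 10560, nat_lit 6048, nat_lit 16464, R3_220, R10_126, R5_343⟩, ⟨nat_lit 6, nat_lit 9552, nat_lit 3216, nat_lit 9456, nat_lit 6480, nat_lit 15600, R3_197, R0_135, R9_325⟩]⟩, ⟨nat_lit 5, [⟨nat_lit 4, nat_lit 1824, nat_lit 3552, nat_lit 19632, nat_lit 10080, nat_lit 5712, R10_409, R3_210, R5_119⟩, ⟨nat_lit 5, nat_lit 7248, nat_lit 3600, nat_lit 19968, nat_lit 6768, nat_lit 5328, R10_416, R10_141, R11_111⟩, ⟨nat_lit 6, nat_lit 10800,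 nat_lit 3744, nat_lit 19776, nat_lit 6912, nat_lit 14064, R10_412, R0_144, R0_293⟩]⟩, ⟨nat_lit 6, [⟨nat_lit 6, nat_lit 10464, nat_lit 5424, nat_lit 3888, nat_lit 6624, nat_lit 8832, R0_81, R0_138, R0_184⟩]⟩]⟩]]]]
noncomputable def N2741 : T3 (List N0) := [[[[⟨nat_lit 1, [⟨nat_lit 4, [⟨nat_lit 4, nat_lit 7920, nat_lit 8352, nat_lit 12576, nat_lit 16416, nat_lit 240, R8_262, R6_342, R6_5⟩]⟩, ⟨nat_lit 5, [⟨nat_lit 4, nat_lit 8496, nat_lit 9360, nat_lit 2112, nat_lit 16608, nat_lit 144, R9_44, R6_346, R4_3⟩]⟩, ⟨nat_lit 6, [⟨nat_lit 4, nat_lit 8208, nat_lit 9600, nat_lit 1776, nat_lit 16512, nat_lit 3168, R5_37, R6_344, R8_66⟩]⟩]⟩], [⟨nat_lit 1, [⟨nat_lit 4, [⟨nat_lit 4, nat_lit 8016, nat_lit 8976, nat_lit 13488, nat_lit 17088, nat_lit 14256, R8_281, R6_356, R4_297⟩]⟩, ⟨nat_lit 6, [⟨nat_lit 4, nat_lit 8304, nat_lit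 10560, nat_lit 1968, nat_lit 17184, nat_lit 16848, R5_41, R6_358, R5_351⟩]⟩]⟩], [⟨nat_lit 0, [⟨nat_lit 4, [⟨nat_lit 5, nat_lit 1776, nat_lit 240, nat_lit 2160, nat_lit 9600, nat_lit 8208, R6_45, R6_200, R5_171⟩]⟩, ⟨nat_lit 5, [⟨nat_lit 5, nat_lit 1872, nat_lit 288, nat_lit 3552, nat_lit 9696, nat_lit 10656, R8_74, R6_202, R11_222⟩]⟩, ⟨nat_lit 6, [⟨nat_lit 5, nat_lit 1824, nat_lit 336, nat_lit 2016, nat_lit 9648, nat_lit 96, R4_42, R6_201, R0_2⟩]⟩]⟩,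
 ⟨nat_lit 1, [⟨nat_lit 4, [⟨nat_lit 4, nat_lit 7968, nat_lit 4560, nat_lit 16752, nat_lit 16752, nat_lit 15504, R8_349, R6_349, R8_323⟩, ⟨nat_lit 5, nat_lit 10176, nat_lit 4992, nat_lit 16896, nat_lit 12624, nat_lit 9552, R8_352, R13_263, R5_199⟩]⟩, ⟨nat_lit 5, [⟨nat_lit 4, nat_lit 8544, nat_lit 4608, nat_lit 2496, nat_lit 16944, nat_lit 1536, R9_52, R6_353, R5_32⟩, ⟨nat_lit 5, nat_lit 10368, nat_lit 5040, nat_lit 2544, nat_lit 12720, nat_lit 12000, R9_53, R13_265, R11_250⟩]⟩, ⟨nat_lit 6, [⟨nat_lit 4, nat_lit 8256, nat_lit 4656, nat_lit 2208, nat_lit 16848, nat_lit 2016, R5_46, R6_351, R9_42⟩, ⟨nat_lit 5, nat_lit 10272, nat_lit 5088, nat_lit 2256, nat_lit 12672, nat_lit 336, R5_47, R13_264, R0_7⟩]⟩]⟩]], [], [[], [], [⟨nat_lit 0, [⟨nat_lit 4, [⟨nat_lit 5, nat_lit 1968, nat_lit 16848, nat_lit 9888, nat_lit 10560,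 nat_lit 8304, R6_206, R4_220, R5_173⟩]⟩, ⟨nat_lit 5, [⟨nat_lit 5, nat_lit 2064, nat_lit 17184, nat_lit 10848, nat_lit 10656, nat_lit 10752, R8_226, R4_222, R11_224⟩]⟩, ⟨nat_lit 6, [⟨nat_lit 5, nat_lit 2016, nat_lit 17568, nat_lit 10944, nat_lit 10608, nat_lit 5616, R4_228, R4_221, R0_117⟩]⟩]⟩,
 ⟨nat_lit 1, [⟨nat_lit 4, [⟨nat_lit 5, nat_lit 10656, nat_lit 16944, nat_lit 17424, nat_lit 17664, nat_lit 9648, R8_363, R3_368, R5_201⟩]⟩, ⟨nat_lit 5, [⟨nat_lit 5, nat_lit 10848, nat_lit 17328, nat_lit 11520, nat_lit 17856, nat_lit 12096, R9_240, R3_372, R11_252⟩]⟩, ⟨nat_lit 6, [⟨nat_lit 5, nat_lit 10752, nat_lit 17664, nat_lit 13488, nat_lit 17760, nat_lit 5760, R5_281, R3_370, R0_120⟩]⟩]⟩]], [[⟨nat_lit 0, [⟨nat_lit 4, [⟨nat_lit 4, nat_lit 912, nat_lit 19776, nat_lit 4416, nat_lit 4656, nat_lit 4800, R6_92, R6_97, R6_100⟩,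 ⟨nat_lit 7, nat_lit 3264, nat_lit 19824, nat_lit 5424, nat_lit 4944, nat_lit 5616, R6_113, R4_103, R13_117⟩]⟩, ⟨nat_lit 5, [⟨nat_lit 4, nat_lit 1488, nat_lit 20496, nat_lit 8016, nat_lit 6960, nat_lit 5184, R8_167, R6_145, R4_108⟩, ⟨nat_lit 7, nat_lit 3840, nat_lit 20544, nat_lit 8064, nat_lit 7584, nat_lit 3888, R8_168, R4_158, R3_81⟩]⟩, ⟨nat_lit 6, [⟨nat_lit 4, nat_lit 1200, nat_lit 21312, nat_lit 4656, nat_lit 5808, nat_lit 7536, R4_97, R6_121, R8_157⟩, ⟨nat_lit 7, nat_lit 3600, nat_lit 21360, nat_lit 5760, nat_lit 6144, nat_lit 4368, R4_120, R4_128, R9_91⟩]⟩]⟩,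
 ⟨nat_lit 1, [⟨nat_lit 4, [⟨nat_lit 4, nat_lit 9168, nat_lit 19968, nat_lit 12720, nat_lit 18288, nat_lit 5088, R8_265, R8_381, R6_106⟩, ⟨nat_lit 7, nat_lit 11328, nat_lit 20016, nat_lit 12864, nat_lit 11328, nat_lit 5664, R8_268, R5_236, R13_118⟩]⟩, ⟨nat_lit 5, [⟨nat_lit 4, nat_lit 9936, nat_lit 20784, nat_lit 8784, nat_lit 18576, nat_lit 5376, R9_183, R8_387, R4_112⟩, ⟨nat_lit 7, nat_lit 12192, nat_lit 20832, nat_lit 8832, nat_lit 11664, nat_lit 3936, R9_184, R5_243, R3_82⟩]⟩, ⟨nat_lit 6, [⟨nat_lit 4, nat_lit 9552, nat_lit 21552, nat_lit 10176, nat_lit 18432, nat_lit 7872, R5_212, R8_384, R8_164⟩, ⟨nat_lit 7, nat_lit 11808, nat_lit 21600, nat_lit 10224, nat_lit 11520, nat_lit 4416, R5_213, R5_240, R9_92⟩]⟩]⟩], [⟨nat_lit 0, [⟨nat_lit 4, [⟨nat_lit 4, nat_lit 1008, nat_lit 16032, nat_lit 4464, nat_lit 4752, nat_lit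 12144, R6_93, R6_99, R4_253⟩, ⟨nat_lit 7, nat_lit 3360, nat_lit 16080, nat_lit 5616, nat_lit 5088, nat_lit 8544, R6_117, R4_106, R3_178⟩]⟩, ⟨nat_lit 6, [⟨nat_lit 4, nat_lit 1296, nat_lit 17376, nat_lit 4704, nat_lit 5904, nat_lit 14304, R4_98, R6_123, R5_298⟩, ⟨nat_lit 7, nat_lit 3648, nat_lit 17424, nat_lit 6000, nat_lit 6240, nat_lit 2832, R4_125, R4_130, R0_59⟩]⟩]⟩,
 ⟨nat_lit 1, [⟨nat_lit 4, [⟨nat_lit 4, nat_lit 9264, nat_lit 16368, nat_lit 13776, nat_lit 19008, nat_lit 14400, R8_287, R8_396, R4_300⟩, ⟨nat_lit 7, nat_lit 11424, nat_lit 16416, nat_lit 13920, nat_lit 11472, nat_lit 8688, R8_290, R5_239, R3_181⟩]⟩, ⟨nat_lit 6, [⟨nat_lit 4, nat_lit 9648, nat_lit 17664, nat_lit 10656, nat_lit 19152, nat_lit 16944, R5_222, R8_399, R5_353⟩, ⟨nat_lit 7, nat_lit 11856, nat_lit 17712, nat_lit 10704, nat_lit 11616,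 nat_lit 2880, R5_223, R5_242, R0_60⟩]⟩]⟩], [⟨nat_lit 0, [⟨nat_lit 4, [⟨nat_lit 4, nat_lit 960, nat_lit 15984, nat_lit 4608, nat_lit 4704, nat_lit 12384, R6_96, R6_98, R8_258⟩, ⟨nat_lit 5, nat_lit 2208, nat_lit 16080, nat_lit 6912, nat_lit 9024, nat_lit 8256, R6_144, R8_188, R5_172⟩, ⟨nat_lit 7, nat_lit 3312, nat_lit 16032, nat_lit 5760, nat_lit 5040, nat_lit 8064, R6_120, R4_105, R9_168⟩]⟩, ⟨nat_lit 5, [⟨nat_lit 4, nat_lit 1536, nat_lit 16848, nat_lit 8688, nat_lit 7008, nat_lit 8544, R8_181, R6_146, R5_178⟩, ⟨nat_lit 5, nat_lit 2400, nat_lit 16944, nat_lit 8784, nat_lit 9120, nat_lit 10704, R8_183, R8_190, R11_223⟩, ⟨nat_lit 7, nat_lit 3888, nat_lit 16896, nat_lit 8736, nat_lit 7680, nat_lit 7296, R8_182, R4_160, R0_152⟩]⟩, ⟨nat_lit 6, [⟨nat_lit 4, nat_lit 1248, nat_lit 17712, nat_lit 4896, nat_lit 5856, nat_lit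 8160, R4_102, R6_122, R9_170⟩, ⟨nat_lit 5, nat_lit 2304, nat_lit 17760, nat_lit 7536, nat_lit 9072, nat_lit 7392, R4_157, R8_189, R0_154⟩]⟩]⟩,
 ⟨nat_lit 1, [⟨nat_lit 4, [⟨nat_lit 4, nat_lit 9216, nat_lit 16272, nat_lit 17040, nat_lit 18720, nat_lit 16176, R8_355, R8_390, R8_337⟩, ⟨nat_lit 5, nat_lit 11040, nat_lit 16368, nat_lit 17328, nat_lit 9888, nat_lit 9600, R8_361, R9_206, R5_200⟩, ⟨nat_lit 7, nat_lit 11376, nat_lit 16320, nat_lit 17184, nat_lit 11376, nat_lit 8544, R8_358, R5_237, R9_178⟩]⟩, ⟨nat_lit 5, [⟨nat_lit 4, nat_lit 9984, nat_lit 17136, nat_lit 9504, nat_lit 18912, nat_lit 9984, R9_198, R8_394, R5_208⟩, ⟨nat_lit 5, nat_lit 11232, nat_lit 17232, nat_lit 9600, nat_lit 9984, nat_lit 12048, R9_200, R9_208, R11_251⟩, ⟨nat_lit 7, nat_lit 12240, nat_lit 17184, nat_lit 9552, nat_lit 11712, nat_lit 7776,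 R9_199, R5_244, R0_162⟩]⟩, ⟨nat_lit 6, [⟨nat_lit 4, nat_lit 9600, nat_lit 17952, nat_lit 11040, nat_lit 18816, nat_lit 8688, R5_230, R8_392, R9_181⟩, ⟨nat_lit 5, nat_lit 11136, nat_lit 18000, nat_lit 11088, nat_lit 9936, nat_lit 7920, R5_231, R9_207, R0_165⟩]⟩]⟩], [⟨nat_lit 0, [⟨nat_lit 4, [⟨nat_lit 7, nat_lit 3408, nat_lit 2928, nat_lit 5568, nat_lit 4992, nat_lit 11424, R6_116, R4_104, R3_238⟩]⟩, ⟨nat_lit 5, [⟨nat_lit 7, nat_lit 3936, nat_lit 3264, nat_lit 8352, nat_lit 7632, nat_lit 8976, R8_174, R4_159, R10_187⟩]⟩, ⟨nat_lit 6, [⟨nat_lit 7, nat_lit 3696, nat_lit 3552, nat_lit 5952, nat_lit 6192, nat_lit 2400, R4_124, R4_129, R0_50⟩]⟩]⟩,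
 ⟨nat_lit 1, [⟨nat_lit 4, [⟨nat_lit 7, nat_lit 11472, nat_lit 8688, nat_lit 14592, nat_lit 11424, nat_lit 16416, R8_304, R5_238, R3_342⟩]⟩, ⟨nat_lit 5, [⟨nat_lit 7, nat_lit 12288, nat_lit 9312, nat_lit 9168, nat_lit 11760, nat_lit 9648, R9_191, R5_245, R10_201⟩]⟩]⟩]], [], [], [], [[], [], [], [⟨nat_lit 0, [⟨nat_lit 4, [⟨nat_lit 3, nat_lit 432, nat_lit 14448, nat_lit 12864, nat_lit 8832, nat_lit 7536, R6_268, R4_184, R2_157⟩, ⟨nat_lit 7, nat_lit 2544, nat_lit 14400, nat_lit 12288, nat_lit 8736, nat_lit 11088, R6_256, R7_182, R3_231⟩]⟩, ⟨nat_lit 5, [⟨nat_lit 3, nat_lit 528, nat_lit 15024, nat_lit 14832, nat_lit 9168, nat_lit 8064, R8_309, R4_191, R1_168⟩, ⟨nat_lit 7, nat_lit 2928, nat_lit 14976, nat_lit 14880, nat_lit 9024, nat_lit 9024, R8_310, R7_188, R10_188⟩]⟩, ⟨nat_lit 6, [⟨nat_lit 7, nat_lit 2736, nat_lit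 15552, nat_lit 12528, nat_lit 8928, nat_lit 12336, R4_261, R7_186, R0_257⟩]⟩]⟩,
 ⟨nat_lit 2, [⟨nat_lit 4, [⟨nat_lit 3, nat_lit 7392, nat_lit 14736, nat_lit 12720, nat_lit 6912, nat_lit 7824, R4_265, R5_144, R2_163⟩]⟩, ⟨nat_lit 5, [⟨nat_lit 3, nat_lit 7488, nat_lit 15360, nat_lit 16656, nat_lit 7200, nat_lit 8352, R5_347, R5_150, R1_174⟩]⟩]⟩]]], [[[⟨nat_lit 1, [⟨nat_lit 4, [⟨nat_lit 4, nat_lit 8064, nat_lit 432, nat_lit 8064, nat_lit 16464, nat_lit 2544, R5_168, R6_343, R6_53⟩]⟩, ⟨nat_lit 5, [⟨nat_lit 4, nat_lit 8592, nat_lit 528, nat_lit 576, nat_lit 16656, nat_lit 2448, R0_12, R6_347, R4_51⟩]⟩, ⟨nat_lit 6, [⟨nat_lit 4, nat_lit 8352, nat_lit 576, nat_lit 1776, nat_lit 16560, nat_lit 3216, R11_37, R6_345, R8_67⟩]⟩]⟩], [⟨nat_lit 1, [⟨nat_lit 4, [⟨nat_lit 4, nat_lit 8160, nat_lit 4656, nat_lit 8784, nat_lit 17136,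 nat_lit 15168, R5_183, R6_357, R4_316⟩]⟩, ⟨nat_lit 6, [⟨nat_lit 4, nat_lit 8448, nat_lit 4704, nat_lit 1968, nat_lit 17232, nat_lit 16896, R11_41, R6_359, R5_352⟩]⟩]⟩], [⟨nat_lit 1, [⟨nat_lit 4, [⟨nat_lit 4, nat_lit 8112, nat_lit 3792, nat_lit 9312, nat_lit 16800, nat_lit 15648, R5_194, R6_350, R8_326⟩, ⟨nat_lit 5, nat_lit 10224, nat_lit 4224, nat_lit 11520, nat_lit 12768, nat_lit 11808, R5_240, R13_266, R5_246⟩]⟩, ⟨nat_lit 5, [⟨nat_lit 4, nat_lit 8640, nat_lit 3840, nat_lit 960, nat_lit 16992, nat_lit 1728, R0_20, R6_354, R5_36⟩, ⟨nat_lit 5, nat_lit 10416, nat_lit 4272, nat_lit 1008, nat_lit 12864, nat_lit 14784, R0_21, R13_268, R11_308⟩]⟩, ⟨nat_lit 6, [⟨nat_lit 4, nat_lit 8400, nat_lit 3888, nat_lit 2208, nat_lit 16896, nat_lit 2064, R11_46, R6_352, R9_43⟩, ⟨nat_lit 5, nat_lit 10320, nat_lit 4320, nat_lit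 2256, nat_lit 12816, nat_lit 384, R11_47, R13_267, R0_8⟩]⟩]⟩]], [[⟨nat_lit 1, [⟨nat_lit 4, [⟨nat_lit 4, nat_lit 8784, nat_lit 4656, nat_lit 8160, nat_lit 15168, nat_lit 10224, R5_170, R4_316, R6_213⟩]⟩, ⟨nat_lit 5, [⟨nat_lit 4, nat_lit 9072, nat_lit 5328, nat_lit 5856, nat_lit 15264, nat_lit 11280, R0_122, R4_318, R4_235⟩]⟩, ⟨nat_lit 6, [⟨nat_lit 4, nat_lit 8928, nat_lit 6288, nat_lit 8400, nat_lit 15216, nat_lit 10800, R11_175, R4_317, R8_225⟩]⟩]⟩,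
 ⟨nat_lit 5, [⟨nat_lit 6, [⟨nat_lit 4, nat_lit 16320, nat_lit 6336, nat_lit 8208, nat_lit 17760, nat_lit 10704, R1_171, R7_370, R8_223⟩, ⟨nat_lit 6, nat_lit 16656, nat_lit 7200, nat_lit 8352, nat_lit 15360, nat_lit 7488, R1_174, R2_320, R5_156⟩]⟩]⟩], [⟨nat_lit 1, [⟨nat_lit 4, [⟨nat_lit 4, nat_lit 8880, nat_lit 4656, nat_lit 8880, nat_lit 15456, nat_lit 15456, R5_185, R4_322, R4_322⟩]⟩, ⟨nat_lit 6, [⟨nat_lit 4, nat_lit 9024, nat_lit 5904, nat_lit 8544, nat_lit 15504, nat_lit 17088, R11_178, R4_323, R5_356⟩]⟩]⟩,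
 ⟨nat_lit 5, [⟨nat_lit 6, [⟨nat_lit 4, nat_lit 16416, nat_lit 5952, nat_lit 8256, nat_lit 17856, nat_lit 12912, R1_172, R7_372, R5_269⟩, ⟨nat_lit 6, nat_lit 16752, nat_lit 6816, nat_lit 8400, nat_lit 15504, nat_lit 7104, R1_175, R2_323, R11_148⟩]⟩]⟩], [⟨nat_lit 1, [⟨nat_lit 4, [⟨nat_lit 4, nat_lit 8832, nat_lit 2256, nat_lit 9360, nat_lit 15312, nat_lit 16704, R5_195, R4_319, R8_348⟩, ⟨nat_lit 5, nat_lit 10512, nat_lit 2688, nat_lit 11568, nat_lit 9504, nat_lit 11904, R5_241, R3_198, R5_248⟩]⟩, ⟨nat_lit 5, [⟨nat_lit 4, nat_lit 9120, nat_lit 2304, nat_lit 6192, nat_lit 15408, nat_lit 13440, R0_129, R4_321, R5_280⟩, ⟨nat_lit 5, nat_lit 10608, nat_lit 2736, nat_lit 6240, nat_lit 9600, nat_lit 14880, R0_130, R3_200, R11_310⟩]⟩, ⟨nat_lit 6, [⟨nat_lit 4, nat_lit 8976, nat_lit 2352, nat_lit 8736, nat_lit 15360, nat_lit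 11472, R11_182, R4_320, R9_239⟩, ⟨nat_lit 5, nat_lit 10560, nat_lit 2784, nat_lit 8784, nat_lit 9552, nat_lit 9984, R11_183, R3_199, R0_208⟩]⟩]⟩,
 ⟨nat_lit 5, [⟨nat_lit 6, [⟨nat_lit 4, nat_lit 16368, nat_lit 12288, nat_lit 8304, nat_lit 17808, nat_lit 11328, R1_173, R7_371, R9_236⟩, ⟨nat_lit 5, nat_lit 16800, nat_lit 12576, nat_lit 8496, nat_lit 15696, nat_lit 9840, R1_177, R2_327, R0_205⟩, ⟨nat_lit 6, nat_lit 16704, nat_lit 12672, nat_lit 8448, nat_lit 15408, nat_lit 9648, R1_176, R2_321, R0_201⟩]⟩]⟩]], [[], [], [⟨nat_lit 1, [⟨nat_lit 4, [⟨nat_lit 5, nat_lit 10704, nat_lit 2880, nat_lit 11616, nat_lit 17712, nat_lit 11856, R5_242, R3_369, R5_247⟩]⟩, ⟨nat_lit 5, [⟨nat_lit 5, nat_lit 10896, nat_lit 2976, nat_lit 10320, nat_lit 17904, nat_lit 14832, R0_215, R3_373, R11_309⟩]⟩, ⟨nat_lit 6, [⟨nat_lit 5, nat_lit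 10800, nat_lit 3024, nat_lit 16704, nat_lit 17808, nat_lit 5808, R11_348, R3_371, R0_121⟩]⟩]⟩]], [[⟨nat_lit 1, [⟨nat_lit 4, [⟨nat_lit 4, nat_lit 9312, nat_lit 3792, nat_lit 8112, nat_lit 18336, nat_lit 7104, R5_169, R8_382, R6_148⟩, ⟨nat_lit 7, nat_lit 11520, nat_lit 4224, nat_lit 10224, nat_lit 11808, nat_lit 9216, R5_213, R5_246, R13_192⟩]⟩, ⟨nat_lit 5, [⟨nat_lit 4, nat_lit 10032, nat_lit 4704, nat_lit 8304, nat_lit 18624, nat_lit 7776, R0_173, R8_388, R4_162⟩, ⟨nat_lit 7, nat_lit 12336, nat_lit 5088, nat_lit 8352, nat_lit 12096, nat_lit 7296, R0_174, R5_252, R3_152⟩]⟩, ⟨nat_lit 6, [⟨nat_lit 4, nat_lit 9696, nat_lit 6096, nat_lit 13440, nat_lit 18480, nat_lit 7968, R11_280, R8_385, R8_166⟩, ⟨nat_lit 7, nat_lit 11952, nat_lit 6768, nat_lit 13488, nat_lit 11952, nat_lit 7008, R11_281, R5_249, R9_146⟩]⟩]⟩], [⟨nat_lit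 1, [⟨nat_lit 4, [⟨nat_lit 4, nat_lit 9360, nat_lit 2256, nat_lit 8832, nat_lit 19056, nat_lit 15312, R5_184, R8_397, R4_319⟩, ⟨nat_lit 7, nat_lit 11568, nat_lit 2688, nat_lit 10512, nat_lit 11904, nat_lit 9504, R5_219, R5_248, R3_198⟩]⟩, ⟨nat_lit 6, [⟨nat_lit 4, nat_lit 9744, nat_lit 3936, nat_lit 13920, nat_lit 19200, nat_lit 17040, R11_290, R8_400, R5_355⟩, ⟨nat_lit 7, nat_lit 12000, nat_lit 4608, nat_lit 13968, nat_lit 12048, nat_lit 4848, R11_291, R5_251, R0_101⟩]⟩]⟩]]], [[[], [], [⟨nat_lit 0, [⟨nat_lit 5, [⟨nat_lit 5, nat_lit 1920, nat_lit 4800, nat_lit 288, nat_lit 9744, nat_lit 12624, R5_6, R6_203, R11_263⟩]⟩]⟩,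
 ⟨nat_lit 1, [⟨nat_lit 5, [⟨nat_lit 4, nat_lit 8736, nat_lit 48, nat_lit 14448, nat_lit 17040, nat_lit 1632, R0_301, R6_355, R5_34⟩, ⟨nat_lit 5, nat_lit 10464, nat_lit 5088, nat_lit 14592, nat_lit 12912, nat_lit 13056, R0_304, R13_269, R11_272⟩]⟩]⟩]], [], [[], [], [⟨nat_lit 0, [⟨nat_lit 5, [⟨nat_lit 5, nat_lit 2112, nat_lit 21888, nat_lit 624, nat_lit 10704, nat_lit 12720, R5_13, R4_223, R11_265⟩]⟩]⟩,
 ⟨nat_lit 1, [⟨nat_lit 5, [⟨nat_lit 5, nat_lit 10944, nat_lit 22032, nat_lit 15168, nat_lit 17952, nat_lit 13152, R0_316, R3_374, R11_274⟩]⟩]⟩], [], [], [], [⟨nat_lit 0, [⟨nat_lit 5, [⟨nat_lit 1, nat_lit 240, nat_lit 15984, nat_lit 2976, nat_lit 11376, nat_lit 9936, R5_62, R7_237, R10_207⟩, ⟨nat_lit 5, nat_lit 2160, nat_lit 16032, nat_lit 576, nat_lit 10752, nat_lit 8688, R5_12, R4_224, R1_181⟩]⟩]⟩,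
 ⟨nat_lit 1, [⟨nat_lit 5, [⟨nat_lit 1, nat_lit 7872, nat_lit 16080, nat_lit 10176, nat_lit 10272, nat_lit 10080, R0_212, R2_214, R10_210⟩, ⟨nat_lit 5, nat_lit 10992, nat_lit 16128, nat_lit 10032, nat_lit 17616, nat_lit 8736, R0_209, R3_367, R1_182⟩]⟩]⟩,
 ⟨nat_lit 2, [⟨nat_lit 1, [⟨nat_lit 1, nat_lit 5904, nat_lit 15936, nat_lit 1728, nat_lit 7056, nat_lit 15312, R1_36, R2_147, R1_319⟩]⟩, ⟨nat_lit 5, [⟨nat_lit 1, nat_lit 5952, nat_lit 16176, nat_lit 2976, nat_lit 7008, nat_lit 10032, R11_62, R2_146, R10_209⟩]⟩]⟩]], [[⟨nat_lit 0, [⟨nat_lit 5, [⟨nat_lit 4, nat_lit 1584, nat_lit 4512, nat_lit 0, nat_lit 7296, nat_lit 6816, R5_0, R6_152, R4_142⟩, ⟨nat_lit 7, nat_lit 3984, nat_lit 5184, nat_lit 96, nat_lit 7968, nat_lit 5616, R5_2, R4_166, R3_117⟩]⟩]⟩], [], [⟨nat_lit 0, [⟨nat_lit 5, [⟨nat_lit 4, nat_lit 1632, nat_lit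 14448, nat_lit 48, nat_lit 7344, nat_lit 8736, R5_1, R6_153, R5_182⟩, ⟨nat_lit 5, nat_lit 2448, nat_lit 14544, nat_lit 384, nat_lit 9312, nat_lit 12672, R5_8, R8_194, R11_264⟩, ⟨nat_lit 7, nat_lit 4032, nat_lit 14496, nat_lit 192, nat_lit 8064, nat_lit 8016, R5_4, R4_168, R0_167⟩]⟩]⟩,
 ⟨nat_lit 1, [⟨nat_lit 5, [⟨nat_lit 4, nat_lit 10128, nat_lit 14736, nat_lit 14736, nat_lit 18960, nat_lit 10128, R0_307, R8_395, R5_211⟩, ⟨nat_lit 5, nat_lit 11280, nat_lit 14832, nat_lit 15024, nat_lit 10128, nat_lit 13104, R0_313, R9_211, R11_273⟩, ⟨nat_lit 7, nat_lit 12480, nat_lit 14784, nat_lit 14880, nat_lit 12624, nat_lit 8160, R0_310, R5_263, R0_170⟩]⟩]⟩], [⟨nat_lit 0, [⟨nat_lit 5, [⟨nat_lit 7, nat_lit 4080, nat_lit 19680, nat_lit 144, nat_lit 8016, nat_lit 9888, R5_3, R4_167, R10_206⟩]⟩]⟩]], [[], [], [], [], [⟨nat_lit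 2, [⟨nat_lit 1, [⟨nat_lit 0, nat_lit 4608, nat_lit 1536, nat_lit 1392, nat_lit 10368, nat_lit 672, R1_29, R6_216, R7_14⟩, ⟨nat_lit 3, nat_lit 6192, nat_lit 8256, nat_lit 1488, nat_lit 9552, nat_lit 2064, R1_31, R8_199, R2_43⟩]⟩, ⟨nat_lit 5, [⟨nat_lit 0, nat_lit 4752, nat_lit 960, nat_lit 384, nat_lit 10416, nat_lit 480, R11_8, R6_217, R4_10⟩]⟩]⟩], [], [], [⟨nat_lit 0, [⟨nat_lit 5, [⟨nat_lit 3, nat_lit 288, nat_lit 4800, nat_lit 1920, nat_lit 10464, nat_lit 12624, R5_40, R6_218, R11_263⟩]⟩]⟩,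
 ⟨nat_lit 2, [⟨nat_lit 1, [⟨nat_lit 3, nat_lit 6240, nat_lit 6240, nat_lit 1536, nat_lit 10080, nat_lit 1536, R1_32, R8_210, R1_32⟩]⟩, ⟨nat_lit 5, [⟨nat_lit 0, nat_lit 4800, nat_lit 288, nat_lit 432, nat_lit 10464, nat_lit 1920, R11_9, R6_218, R5_40⟩, ⟨nat_lit 3, nat_lit 6480, nat_lit 6480, nat_lit 1920, nat_lit 10128, nat_lit 12768, R11_40, R8_211, R11_266⟩]⟩]⟩]], [], [[], [], [], [], [⟨nat_lit 0, [⟨nat_lit 5, [⟨nat_lit 0, nat_lit 0, nat_lit 4512, nat_lit 1584, nat_lit 7296, nat_lit 6816, R5_33, R6_152, R4_142⟩, ⟨nat_lit 1, nat_lit 96, nat_lit 5184, nat_lit 3984, nat_lit 7968, nat_lit 5616, R5_83, R4_166, R3_117⟩]⟩]⟩,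
 ⟨nat_lit 2, [⟨nat_lit 1, [⟨nat_lit 0, nat_lit 4992, nat_lit 12624, nat_lit 1440, nat_lit 13200, nat_lit 6672, R1_30, R13_275, R7_139⟩, ⟨nat_lit 1, nat_lit 5664, nat_lit 13440, nat_lit 1776, nat_lit 9936, nat_lit 4848, R1_37, R3_207, R2_101⟩, ⟨nat_lit 3, nat_lit 6720, nat_lit 13008, nat_lit 1632, nat_lit 10512, nat_lit 9840, R1_34, R9_219, R2_205⟩]⟩, ⟨nat_lit 5, [⟨nat_lit 0, nat_lit 5040, nat_lit 4656, nat_lit 1152, nat_lit 13248, nat_lit 6864, R11_24, R13_276, R4_143⟩, ⟨nat_lit 1, nat_lit 5760, nat_lit 5328, nat_lit 3984, nat_lit 9984, nat_lit 5712, R11_83, R3_208, R3_119⟩]⟩]⟩], [], [⟨nat_lit 0, [⟨nat_lit 5, [⟨nat_lit 1, nat_lit 144, nat_lit 19680, nat_lit 4080, nat_lit 8016, nat_lit 9888, R5_85, R4_167, R10_206⟩]⟩]⟩,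
 ⟨nat_lit 2, [⟨nat_lit 1, [⟨nat_lit 1, nat_lit 5712, nat_lit 19632, nat_lit 1824, nat_lit 10080, nat_lit 3552, R1_38, R3_210, R1_74⟩]⟩, ⟨nat_lit 5, [⟨nat_lit 1, nat_lit 5808, nat_lit 19728, nat_lit 4080, nat_lit 10128, nat_lit 9984, R11_85, R3_211, R10_208⟩]⟩]⟩], [⟨nat_lit 0, [⟨nat_lit 5, [⟨nat_lit 0, nat_lit 48, nat_lit 14448, nat_lit 1632, nat_lit 7344, nat_lit 8736, R5_34, R6_153, R5_182⟩, ⟨nat_lit 1, nat_lit 192, nat_lit 14496, nat_lit 4032, nat_lit 8064, nat_lit 8016, R5_84, R4_168, R0_167⟩, ⟨nat_lit 3, nat_lit 384, nat_lit 14544, nat_lit 2448, nat_lit 9312, nat_lit 12672, R5_51, R8_194, R11_264⟩]⟩]⟩,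
 ⟨nat_lit 2, [⟨nat_lit 1, [⟨nat_lit 3, nat_lit 6768, nat_lit 14400, nat_lit 1680, nat_lit 10560, nat_lit 10656, R1_35, R9_220, R1_222⟩]⟩, ⟨nat_lit 5, [⟨nat_lit 0, nat_lit 5088, nat_lit 14592, nat_lit 1200, nat_lit 13296, nat_lit 10464, R11_25, R13_277, R5_218⟩, ⟨nat_lit 1, nat_lit 5856, nat_lit 14640, nat_lit 4032, nat_lit 10176, nat_lit 8064, R11_84, R3_212, R0_168⟩, ⟨nat_lit 3, nat_lit 6864, nat_lit 14688, nat_lit 2448, nat_lit 10608, nat_lit 12816, R11_51, R9_221, R11_267⟩]⟩]⟩]], [[], [], [], [⟨nat_lit 0, [⟨nat_lit 5, [⟨nat_lit 3, nat_lit 576, nat_lit 16032, nat_lit 2160, nat_lit 10752, nat_lit 8688, R5_45, R4_224, R1_181⟩, ⟨nat_lit 7, nat_lit 2976, nat_lit 15984, nat_lit 240, nat_lit 11376, nat_lit 9936, R5_5, R7_237, R10_207⟩]⟩]⟩,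
 ⟨nat_lit 2, [⟨nat_lit 5, [⟨nat_lit 3, nat_lit 7536, nat_lit 16368, nat_lit 2160, nat_lit 7344, nat_lit 8784, R11_45, R5_153, R1_183⟩]⟩]⟩], [], [], [], [⟨nat_lit 0, [⟨nat_lit 5, [⟨nat_lit 3, nat_lit 624, nat_lit 21888, nat_lit 2112, nat_lit 10704, nat_lit 12720, R5_44, R4_223, R11_265⟩]⟩]⟩,
 ⟨nat_lit 2, [⟨nat_lit 1, [⟨nat_lit 3, nat_lit 7152, nat_lit 21840, nat_lit 1584, nat_lit 7680, nat_lit 6960, R1_33, R5_160, R1_145⟩]⟩, ⟨nat_lit 5, [⟨nat_lit 3, nat_lit 7584, nat_lit 21936, nat_lit 2112, nat_lit 7296, nat_lit 12864, R11_44, R5_152, R11_268⟩]⟩]⟩]]], [[], [], [], [[⟨nat_lit 0, [⟨nat_lit 4, [⟨nat_lit 4, nat_lit 1056, nat_lit 48, nat_lit 192, nat_lit 5184, nat_lit 6000, R13_4, R6_108, R6_125⟩, ⟨nat_lit 7, nat_lit 3456, nat_lit 3792, nat_lit 768, nat_lit 5472, nat_lit 7344, R13_16, R4_114, R13_153⟩]⟩, ⟨nat_lit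 5, [⟨nat_lit 4, nat_lit 1680, nat_lit 768, nat_lit 96, nat_lit 7200, nat_lit 6336, R9_2, R6_150, R4_132⟩, ⟨nat_lit 7, nat_lit 4128, nat_lit 6096, nat_lit 336, nat_lit 7872, nat_lit 6192, R9_7, R4_164, R3_129⟩]⟩, ⟨nat_lit 6, [⟨nat_lit 4, nat_lit 1344, nat_lit 2256, nat_lit 384, nat_lit 6528, nat_lit 7584, R3_8, R6_136, R8_158⟩, ⟨nat_lit 7, nat_lit 3744, nat_lit 7152, nat_lit 1056, nat_lit 6672, nat_lit 5376, R3_22, R4_139, R9_112⟩]⟩, ⟨nat_lit 7, [⟨nat_lit 7, nat_lit 4224, nat_lit 5520, nat_lit 4416, nat_lit 7200, nat_lit 4944, R3_92, R4_150, R3_103⟩]⟩]⟩,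
 ⟨nat_lit 1, [⟨nat_lit 4, [⟨nat_lit 4, nat_lit 9408, nat_lit 336, nat_lit 8016, nat_lit 18384, nat_lit 6432, R9_167, R8_383, R6_134⟩, ⟨nat_lit 7, nat_lit 11664, nat_lit 3936, nat_lit 8832, nat_lit 12192, nat_lit 7392, R9_184, R5_254, R13_154⟩]⟩, ⟨nat_lit 6, [⟨nat_lit 4, nat_lit 9792, nat_lit 2544, nat_lit 7248, nat_lit 18528, nat_lit 7920, R0_151, R8_386, R8_165⟩, ⟨nat_lit 7, nat_lit 12096, nat_lit 7296, nat_lit 8352, nat_lit 12336, nat_lit 5424, R0_174, R5_257, R9_113⟩]⟩, ⟨nat_lit 7, [⟨nat_lit 7, nat_lit 12576, nat_lit 5664, nat_lit 12000, nat_lit 12432, nat_lit 5232, R0_250, R5_259, R3_109⟩]⟩]⟩,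
 ⟨nat_lit 3, [⟨nat_lit 4, [⟨nat_lit 4, nat_lit 13104, nat_lit 192, nat_lit 11472, nat_lit 14208, nat_lit 6144, R3_239, R4_296, R6_128⟩]⟩, ⟨nat_lit 5, [⟨nat_lit 4, nat_lit 13392, nat_lit 912, nat_lit 2208, nat_lit 15072, nat_lit 6480, R0_46, R4_314, R4_135⟩]⟩, ⟨nat_lit 6, [⟨nat_lit 4, nat_lit 13248, nat_lit 2400, nat_lit 8832, nat_lit 14688, nat_lit 7680, R10_184, R4_306, R8_160⟩]⟩]⟩], [⟨nat_lit 0, [⟨nat_lit 4, [⟨nat_lit 4, nat_lit 1152, nat_lit 2976, nat_lit 240, nat_lit 5280, nat_lit 12288, R13_5, R6_110, R4_256⟩, ⟨nat_lit 7, nat_lit 3552, nat_lit 3648, nat_lit 816, nat_lit 5568, nat_lit 8832, R13_17, R4_116, R3_184⟩]⟩, ⟨nat_lit 6, [⟨nat_lit 4, nat_lit 1440, nat_lit 5664, nat_lit 432, nat_lit 6624, nat_lit 14352, R3_9, R6_138, R5_299⟩, ⟨nat_lit 7, nat_lit 3792, nat_lit 6192, nat_lit 1104, nat_lit 6720, nat_lit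 3216, R3_23, R4_140, R0_67⟩]⟩, ⟨nat_lit 7, [⟨nat_lit 7, nat_lit 4320, nat_lit 4320, nat_lit 4464, nat_lit 7296, nat_lit 4752, R3_93, R4_152, R10_99⟩]⟩]⟩,
 ⟨nat_lit 1, [⟨nat_lit 4, [⟨nat_lit 4, nat_lit 9504, nat_lit 3072, nat_lit 8256, nat_lit 19104, nat_lit 14736, R9_172, R8_398, R4_307⟩, ⟨nat_lit 7, nat_lit 11760, nat_lit 3696, nat_lit 9168, nat_lit 12288, nat_lit 9312, R9_191, R5_256, R3_194⟩]⟩, ⟨nat_lit 6, [⟨nat_lit 4, nat_lit 9888, nat_lit 5760, nat_lit 7488, nat_lit 19248, nat_lit 16992, R0_156, R8_401, R5_354⟩, ⟨nat_lit 7, nat_lit 12144, nat_lit 6240, nat_lit 8688, nat_lit 12384, nat_lit 3264, R0_181, R5_258, R0_68⟩]⟩, ⟨nat_lit 7, [⟨nat_lit 7, nat_lit 12672, nat_lit 4368, nat_lit 14112, nat_lit 12528, nat_lit 4800, R0_294, R5_261, R10_100⟩]⟩]⟩,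
 ⟨nat_lit 3, [⟨nat_lit 4, [⟨nat_lit 4, nat_lit 13200, nat_lit 3024, nat_lit 15264, nat_lit 14592, nat_lit 13248, R3_318, R4_304, R4_276⟩]⟩, ⟨nat_lit 6, [⟨nat_lit 4, nat_lit 13344, nat_lit 5712, nat_lit 9264, nat_lit 14880, nat_lit 16224, R10_193, R4_310, R5_338⟩]⟩]⟩], [⟨nat_lit 0, [⟨nat_lit 4, [⟨nat_lit 4, nat_lit 1104, nat_lit 144, nat_lit 288, nat_lit 5232, nat_lit 12528, R13_6, R6_109, R8_261⟩, ⟨nat_lit 5, nat_lit 2256, nat_lit 336, nat_lit 2064, nat_lit 9168, nat_lit 10272, R13_43, R8_191, R5_214⟩, ⟨nat_lit 7, nat_lit 3504, nat_lit 240, nat_lit 864, nat_lit 5520, nat_lit 8880, R13_18, R4_115, R9_185⟩]⟩, ⟨nat_lit 5, [⟨nat_lit 4, nat_lit 1728, nat_lit 960, nat_lit 144, nat_lit 7248, nat_lit 8640, R9_3, R6_151, R5_180⟩, ⟨nat_lit 5, nat_lit 2496, nat_lit 1152, nat_lit 1200, nat_lit 9264, nat_lit 13536, R9_25,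 R8_193, R11_282⟩, ⟨nat_lit 7, nat_lit 4176, nat_lit 1056, nat_lit 384, nat_lit 7920, nat_lit 8400, R9_8, R4_165, R0_175⟩]⟩, ⟨nat_lit 6, [⟨nat_lit 4, nat_lit 1392, nat_lit 1920, nat_lit 480, nat_lit 6576, nat_lit 8208, R3_10, R6_137, R9_171⟩, ⟨nat_lit 5, nat_lit 2352, nat_lit 2016, nat_lit 2592, nat_lit 9216, nat_lit 7440, R3_54, R8_192, R0_155⟩]⟩, ⟨nat_lit 7, [⟨nat_lit 7, nat_lit 4272, nat_lit 480, nat_lit 4608, nat_lit 7248, nat_lit 11904, R3_96, R4_151, R0_248⟩]⟩]⟩,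
 ⟨nat_lit 1, [⟨nat_lit 4, [⟨nat_lit 4, nat_lit 9456, nat_lit 7632, nat_lit 8448, nat_lit 18768, nat_lit 16320, R9_176, R8_391, R8_340⟩, ⟨nat_lit 5, nat_lit 11088, nat_lit 7920, nat_lit 9936, nat_lit 10032, nat_lit 11136, R9_207, R9_209, R5_232⟩, ⟨nat_lit 7, nat_lit 11712, nat_lit 7776, nat_lit 9552, nat_lit 12240, nat_lit 9648, R9_199, R5_255, R9_201⟩]⟩, ⟨nat_lit 6, [⟨nat_lit 4, nat_lit 9840, nat_lit 9024, nat_lit 7680, nat_lit 18864, nat_lit 8736, R0_160, R8_393, R9_182⟩, ⟨nat_lit 5, nat_lit 11184, nat_lit 9168, nat_lit 9072, nat_lit 10080, nat_lit 7968, R0_189, R9_210, R0_166⟩]⟩, ⟨nat_lit 7, [⟨nat_lit 7, nat_lit 12624, nat_lit 8160, nat_lit 14880, nat_lit 12480, nat_lit 14784, R0_310, R5_260, R0_308⟩]⟩]⟩,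
 ⟨nat_lit 3, [⟨nat_lit 4, [⟨nat_lit 4, nat_lit 13152, nat_lit 5664, nat_lit 16464, nat_lit 14496, nat_lit 14304, R3_343, R4_302, R8_298⟩, ⟨nat_lit 5, nat_lit 13488, nat_lit 5760, nat_lit 17760, nat_lit 17664, nat_lit 10752, R3_370, R5_368, R5_224⟩]⟩, ⟨nat_lit 5, [⟨nat_lit 4, nat_lit 13440, nat_lit 6192, nat_lit 2304, nat_lit 15408, nat_lit 9120, R0_48, R4_321, R5_190⟩, ⟨nat_lit 5, nat_lit 13584, nat_lit 6288, nat_lit 3984, nat_lit 17760, nat_lit 14016, R0_83, R5_370, R11_292⟩]⟩, ⟨nat_lit 6, [⟨nat_lit 4, nat_lit 13296, nat_lit 6960, nat_lit 9504, nat_lit 14832, nat_lit 8352, R10_198, R4_309, R9_174⟩, ⟨nat_lit 5, nat_lit 13536, nat_lit 7056, nat_lit 11856, nat_lit 17712, nat_lit 7584, R10_247, R5_369, R0_158⟩]⟩]⟩]], [], [], [], [[⟨nat_lit 0, [⟨nat_lit 4, [⟨nat_lit 7, nat_lit 2592, nat_lit 3552, nat_lit 1344, nat_lit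 9600, nat_lit 7968, R13_28, R7_200, R13_166⟩]⟩, ⟨nat_lit 5, [⟨nat_lit 7, nat_lit 3024, nat_lit 4416, nat_lit 576, nat_lit 11280, nat_lit 6624, R9_12, R7_235, R3_138⟩]⟩, ⟨nat_lit 6, [⟨nat_lit 7, nat_lit 2784, nat_lit 6528, nat_lit 1776, nat_lit 10464, nat_lit 5760, R3_37, R7_218, R9_120⟩]⟩, ⟨nat_lit 7, [⟨nat_lit 3, nat_lit 768, nat_lit 5520, nat_lit 13680, nat_lit 10272, nat_lit 5952, R3_285, R4_214, R2_124⟩, ⟨nat_lit 7, nat_lit 3168, nat_lit 4944, nat_lit 12432, nat_lit 10944, nat_lit 13152, R3_259, R7_228, R3_274⟩]⟩]⟩,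
 ⟨nat_lit 2, [⟨nat_lit 7, [⟨nat_lit 3, nat_lit 7728, nat_lit 5568, nat_lit 1680, nat_lit 7008, nat_lit 6000, R10_35, R5_146, R2_125⟩]⟩]⟩,
 ⟨nat_lit 3, [⟨nat_lit 4, [⟨nat_lit 4, nat_lit 12816, nat_lit 3168, nat_lit 11136, nat_lit 15984, nat_lit 12624, R3_232, R7_333, R6_263⟩, ⟨nat_lit 7, nat_lit 13824, nat_lit 3600, nat_lit 12048, nat_lit 13296, nat_lit 8016, R3_251, R14_277, R13_167⟩]⟩, ⟨nat_lit 5, [⟨nat_lit 4, nat_lit 13056, nat_lit 4032, nat_lit 12192, nat_lit 16704, nat_lit 12960, R0_254, R7_348, R4_270⟩, ⟨nat_lit 7, nat_lit 14160, nat_lit 4464, nat_lit 12768, nat_lit 13392, nat_lit 6672, R0_266, R14_279, R3_139⟩]⟩, ⟨nat_lit 6, [⟨nat_lit 4, nat_lit 12960, nat_lit 6384, nat_lit 8880, nat_lit 16224, nat_lit 14544, R10_185, R7_338, R8_303⟩, ⟨nat_lit 7, nat_lit 14016, nat_lit 6576, nat_lit 10464, nat_lit 13344,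 nat_lit 5808, R10_218, R14_278, R9_121⟩]⟩]⟩], [⟨nat_lit 0, [⟨nat_lit 4, [⟨nat_lit 7, nat_lit 2640, nat_lit 3024, nat_lit 1440, nat_lit 9696, nat_lit 8880, R13_30, R7_202, R3_185⟩]⟩, ⟨nat_lit 6, [⟨nat_lit 7, nat_lit 2832, nat_lit 5232, nat_lit 1872, nat_lit 10560, nat_lit 3600, R3_39, R7_220, R0_75⟩]⟩, ⟨nat_lit 7, [⟨nat_lit 3, nat_lit 816, nat_lit 4224, nat_lit 14256, nat_lit 10368, nat_lit 4656, R3_297, R4_216, R1_97⟩, ⟨nat_lit 7, nat_lit 3216, nat_lit 3648, nat_lit 12576, nat_lit 10992, nat_lit 5376, R3_262, R7_229, R10_112⟩]⟩]⟩,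
 ⟨nat_lit 2, [⟨nat_lit 7, [⟨nat_lit 3, nat_lit 7776, nat_lit 4272, nat_lit 1776, nat_lit 7104, nat_lit 4704, R10_37, R5_148, R1_98⟩]⟩]⟩,
 ⟨nat_lit 3, [⟨nat_lit 4, [⟨nat_lit 4, nat_lit 12864, nat_lit 2640, nat_lit 15168, nat_lit 17712, nat_lit 13152, R3_316, R7_369, R4_274⟩, ⟨nat_lit 7, nat_lit 13872, nat_lit 3072, nat_lit 15504, nat_lit 13584, nat_lit 9168, R3_323, R14_283, R3_191⟩]⟩, ⟨nat_lit 6, [⟨nat_lit 4, nat_lit 13008, nat_lit 5088, nat_lit 9312, nat_lit 17904, nat_lit 16272, R10_194, R7_373, R5_339⟩, ⟨nat_lit 7, nat_lit 14064, nat_lit 5280, nat_lit 10848, nat_lit 13632, nat_lit 3648, R10_226, R14_284, R0_76⟩]⟩]⟩], [], [⟨nat_lit 0, [⟨nat_lit 4, [⟨nat_lit 3, nat_lit 480, nat_lit 15504, nat_lit 3312, nat_lit 9504, nat_lit 8352, R13_69, R4_198, R2_174⟩, ⟨nat_lit 7, nat_lit 2688, nat_lit 15552, nat_lit 1392,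 nat_lit 9648, nat_lit 11952, R13_29, R7_201, R3_249⟩]⟩, ⟨nat_lit 5, [⟨nat_lit 3, nat_lit 672, nat_lit 15696, nat_lit 2400, nat_lit 10512, nat_lit 9168, R9_50, R4_219, R1_191⟩, ⟨nat_lit 7, nat_lit 3072, nat_lit 15744, nat_lit 624, nat_lit 11328, nat_lit 10560, R9_13, R7_236, R10_220⟩]⟩, ⟨nat_lit 6, [⟨nat_lit 7, nat_lit 2880, nat_lit 15984, nat_lit 1824, nat_lit 10512, nat_lit 13296, R3_38, R7_219, R0_277⟩]⟩, ⟨nat_lit 7, [⟨nat_lit 3, nat_lit 864, nat_lit 15888, nat_lit 14016, nat_lit 10320, nat_lit 6048, R3_292, R4_215, R12_126⟩]⟩]⟩,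
 ⟨nat_lit 2, [⟨nat_lit 4, [⟨nat_lit 3, nat_lit 7440, nat_lit 15648, nat_lit 7728, nat_lit 6960, nat_lit 9072, R3_161, R5_145, R2_189⟩]⟩, ⟨nat_lit 5, [⟨nat_lit 3, nat_lit 7632, nat_lit 15840, nat_lit 864, nat_lit 7248, nat_lit 9888, R0_18, R5_151, R1_206⟩]⟩, ⟨nat_lit 7, [⟨nat_lit 3, nat_lit 7824, nat_lit 15936, nat_lit 1728, nat_lit 7056, nat_lit 6096, R10_36, R5_147, R12_127⟩]⟩]⟩,
 ⟨nat_lit 3, [⟨nat_lit 4, [⟨nat_lit 7, nat_lit 13920, nat_lit 15600, nat_lit 14736, nat_lit 13440, nat_lit 14640, R3_307, R14_280, R3_305⟩]⟩, ⟨nat_lit 5, [⟨nat_lit 7, nat_lit 14208, nat_lit 15792, nat_lit 12912, nat_lit 13536, nat_lit 11232, R0_269, R14_282, R10_234⟩]⟩, ⟨nat_lit 6, [⟨nat_lit 7, nat_lit 14112, nat_lit 16032, nat_lit 11088, nat_lit 13488, nat_lit 13488, R10_231, R14_281, R0_281⟩]⟩]⟩]]], [[], [], [], [], [[], [⟨nat_lit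 2, [⟨nat_lit 0, [⟨nat_lit 0, nat_lit 4368, nat_lit 14928, nat_lit 5808, nat_lit 10176, nat_lit 5664, R4_121, R6_212, R4_118⟩, ⟨nat_lit 2, nat_lit 5136, nat_lit 14976, nat_lit 6432, nat_lit 11232, nat_lit 864, R4_134, R4_234, R3_18⟩]⟩, ⟨nat_lit 3, [⟨nat_lit 0, nat_lit 4656, nat_lit 15168, nat_lit 8784, nat_lit 10224, nat_lit 8160, R5_183, R6_213, R5_170⟩, ⟨nat_lit 2, nat_lit 5328, nat_lit 15264, nat_lit 9072, nat_lit 11280, nat_lit 5856, R5_189, R4_235, R0_122⟩, ⟨nat_lit 3, nat_lit 6288, nat_lit 15216, nat_lit 8928, nat_lit 10800, nat_lit 8400, R5_186, R8_225, R11_175⟩]⟩]⟩,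
 ⟨nat_lit 4, [⟨nat_lit 2, [⟨nat_lit 6, nat_lit 14400, nat_lit 4224, nat_lit 144, nat_lit 10848, nat_lit 6096, R7_3, R6_226, R1_127⟩]⟩, ⟨nat_lit 6, [⟨nat_lit 6, nat_lit 14496, nat_lit 4368, nat_lit 48, nat_lit 10800, nat_lit 7632, R4_1, R6_225, R11_159⟩]⟩]⟩,
 ⟨nat_lit 6, [⟨nat_lit 0, [⟨nat_lit 2, nat_lit 14784, nat_lit 11808, nat_lit 5952, nat_lit 12480, nat_lit 1440, R7_124, R7_260, R3_30⟩]⟩, ⟨nat_lit 2, [⟨nat_lit 2, nat_lit 14976, nat_lit 11952, nat_lit 17472, nat_lit 12528, nat_lit 7344, R14_364, R7_261, R10_153⟩, ⟨nat_lit 6, nat_lit 15984, nat_lit 12000, nat_lit 17520, nat_lit 11712, nat_lit 6144, R14_365, R4_244, R1_128⟩]⟩]⟩,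
 ⟨nat_lit 7, [⟨nat_lit 6, [⟨nat_lit 4, nat_lit 16848, nat_lit 10560, nat_lit 1968, nat_lit 9888, nat_lit 8304, R5_41, R6_206, R5_173⟩, ⟨nat_lit 6, nat_lit 17184, nat_lit 10656, nat_lit 2064, nat_lit 10848, nat_lit 7680, R5_43, R8_226, R11_160⟩, ⟨nat_lit 7, nat_lit 17568, nat_lit 10608, nat_lit 2016, nat_lit 10944, nat_lit 5616, R5_42, R4_228, R0_117⟩]⟩]⟩], [], [], [], [⟨nat_lit 2, [⟨nat_lit 0, [⟨nat_lit 0, nat_lit 4416, nat_lit 17280, nat_lit 12384, nat_lit 10512, nat_lit 5520, R4_258, R6_219, R7_115⟩, ⟨nat_lit 2, nat_lit 5184, nat_lit 17376, nat_lit 12912, nat_lit 11376, nat_lit 3984, R4_269, R4_237, R2_83⟩, ⟨nat_lit 3, nat_lit 6000, nat_lit 17328, nat_lit 12576, nat_lit 10656, nat_lit 7680, R4_262, R8_222, R2_160⟩]⟩, ⟨nat_lit 3, [⟨nat_lit 3, nat_lit 6336, nat_lit 17760, nat_lit 16320, nat_lit 10704, nat_lit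 8208, R5_340, R8_223, R1_171⟩]⟩]⟩,
 ⟨nat_lit 6, [⟨nat_lit 0, [⟨nat_lit 2, nat_lit 14832, nat_lit 12864, nat_lit 13872, nat_lit 12384, nat_lit 12480, R7_289, R7_258, R2_260⟩]⟩, ⟨nat_lit 2, [⟨nat_lit 2, nat_lit 15024, nat_lit 13056, nat_lit 17616, nat_lit 12432, nat_lit 13824, R14_367, R7_259, R1_288⟩]⟩]⟩]], [[], [⟨nat_lit 4, [⟨nat_lit 2, [⟨nat_lit 6, nat_lit 14544, nat_lit 10608, nat_lit 5088, nat_lit 13872, nat_lit 6192, R7_106, R13_289, R1_129⟩]⟩, ⟨nat_lit 6, [⟨nat_lit 4, nat_lit 14304, nat_lit 17376, nat_lit 4704, nat_lit 15744, nat_lit 1296, R4_98, R6_328, R5_27⟩, ⟨nat_lit 6, nat_lit 14688, nat_lit 17472, nat_lit 5280, nat_lit 13824, nat_lit 8112, R4_110, R13_288, R11_169⟩]⟩]⟩,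
 ⟨nat_lit 6, [⟨nat_lit 0, [⟨nat_lit 2, nat_lit 15264, nat_lit 3408, nat_lit 6048, nat_lit 11088, nat_lit 1536, R7_126, R2_231, R3_32⟩]⟩, ⟨nat_lit 2, [⟨nat_lit 2, nat_lit 15456, nat_lit 10896, nat_lit 17808, nat_lit 11136, nat_lit 7392, R14_371, R2_232, R10_154⟩, ⟨nat_lit 6, nat_lit 16080, nat_lit 10800, nat_lit 17856, nat_lit 17184, nat_lit 6240, R14_372, R3_358, R1_130⟩]⟩]⟩,
 ⟨nat_lit 7, [⟨nat_lit 6, [⟨nat_lit 4, nat_lit 16944, nat_lit 17664, nat_lit 10656, nat_lit 19152, nat_lit 9648, R5_222, R8_399, R5_201⟩, ⟨nat_lit 6, nat_lit 17328, nat_lit 17856, nat_lit 10848, nat_lit 11520, nat_lit 8160, R5_226, R9_240, R11_170⟩, ⟨nat_lit 7, nat_lit 17664, nat_lit 17760, nat_lit 10752, nat_lit 13488, nat_lit 5760, R5_224, R5_281, R0_120⟩]⟩]⟩], [], [], [], [⟨nat_lit 6, [⟨nat_lit 0, [⟨nat_lit 2, nat_lit 15312, nat_lit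 11568, nat_lit 14016, nat_lit 10992, nat_lit 12528, R7_292, R2_229, R2_261⟩]⟩, ⟨nat_lit 2, [⟨nat_lit 2, nat_lit 15504, nat_lit 11712, nat_lit 18048, nat_lit 11040, nat_lit 13872, R14_376, R2_230, R1_289⟩]⟩]⟩]], [], [[], [], [], [], [], [⟨nat_lit 2, [⟨nat_lit 0, [⟨nat_lit 3, nat_lit 6912, nat_lit 14736, nat_lit 12720, nat_lit 7392, nat_lit 7824, R4_265, R5_154, R2_163⟩]⟩, ⟨nat_lit 3, [⟨nat_lit 3, nat_lit 7200, nat_lit 15360, nat_lit 16656, nat_lit 7488, nat_lit 8352, R5_347, R5_156, R1_174⟩]⟩]⟩]]], [[], [[], [⟨nat_lit 5, [⟨nat_lit 2, [⟨nat_lit 6, nat_lit 16560, nat_lit 5184, nat_lit 13536, nat_lit 15312, nat_lit 6624, R1_282, R2_319, R1_138⟩]⟩, ⟨nat_lit 6, [⟨nat_lit 4, nat_lit 16272, nat_lit 5088, nat_lit 14688, nat_lit 17904, nat_lit 13008, R10_306, R7_373, R5_271⟩, ⟨nat_lit 6, nat_lit 16608, nat_lit 5136, nat_lit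 15168, nat_lit 15456, nat_lit 9168, R10_316, R2_322, R11_191⟩]⟩]⟩]], [], [], [], [[], [⟨nat_lit 4, [⟨nat_lit 2, [⟨nat_lit 6, nat_lit 14592, nat_lit 2256, nat_lit 3504, nat_lit 13968, nat_lit 6672, R2_73, R13_291, R1_139⟩]⟩, ⟨nat_lit 6, [⟨nat_lit 4, nat_lit 14352, nat_lit 2448, nat_lit 432, nat_lit 15792, nat_lit 1440, R3_9, R6_329, R5_30⟩, ⟨nat_lit 6, nat_lit 14736, nat_lit 2496, nat_lit 4032, nat_lit 13920, nat_lit 9840, R3_84, R13_290, R11_205⟩]⟩]⟩,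
 ⟨nat_lit 5, [⟨nat_lit 2, [⟨nat_lit 6, nat_lit 16464, nat_lit 8400, nat_lit 2976, nat_lit 10560, nat_lit 6768, R1_62, R3_220, R1_141⟩]⟩, ⟨nat_lit 6, [⟨nat_lit 4, nat_lit 16224, nat_lit 8544, nat_lit 2928, nat_lit 14880, nat_lit 13344, R10_61, R4_310, R5_278⟩, ⟨nat_lit 6, nat_lit 16512, nat_lit 8592, nat_lit 3600, nat_lit 10512, nat_lit 9936, R10_75, R3_219, R11_207⟩]⟩]⟩,
 ⟨nat_lit 6, [⟨nat_lit 2, [⟨nat_lit 2, nat_lit 15552, nat_lit 12912, nat_lit 14928, nat_lit 11232, nat_lit 7536, R12_311, R2_234, R10_157⟩, ⟨nat_lit 6, nat_lit 16128, nat_lit 12960, nat_lit 14976, nat_lit 17232, nat_lit 6720, R12_312, R3_359, R1_140⟩]⟩]⟩,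
 ⟨nat_lit 7, [⟨nat_lit 6, [⟨nat_lit 4, nat_lit 16992, nat_lit 11808, nat_lit 7488, nat_lit 19248, nat_lit 9888, R0_156, R8_401, R5_206⟩, ⟨nat_lit 6, nat_lit 17376, nat_lit 11904, nat_lit 7536, nat_lit 11568, nat_lit 9888, R0_157, R9_241, R11_206⟩, ⟨nat_lit 7, nat_lit 17712, nat_lit 11856, nat_lit 7584, nat_lit 13536, nat_lit 7056, R0_158, R5_282, R0_147⟩]⟩]⟩], [], [], [], [⟨nat_lit 6, [⟨nat_lit 2, [⟨nat_lit 2, nat_lit 15600, nat_lit 12144, nat_lit 15168, nat_lit 11184, nat_lit 15072, R12_316, R2_233, R1_314⟩]⟩]⟩]]], [[], [], [], [], [[], [], [], [], [⟨nat_lit 2, [⟨nat_lit 1, [⟨nat_lit 0, nat_lit 4512, nat_lit 1632, nat_lit 1296, nat_lit 10320, nat_lit 1104, R10_27, R6_215, R7_23⟩, ⟨nat_lit 3, nat_lit 6096, nat_lit 8256, nat_lit 1584, nat_lit 11232, nat_lit 288, R10_33, R8_234, R2_6⟩]⟩]⟩], [⟨nat_lit 2, [⟨nat_lit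 0, [⟨nat_lit 0, nat_lit 4464, nat_lit 960, nat_lit 1248, nat_lit 10560, nat_lit 5760, R3_26, R6_220, R7_120⟩, ⟨nat_lit 2, nat_lit 5232, nat_lit 1872, nat_lit 6432, nat_lit 11424, nat_lit 4176, R3_134, R4_238, R2_87⟩, ⟨nat_lit 3, nat_lit 6048, nat_lit 1488, nat_lit 7680, nat_lit 11856, nat_lit 8832, R3_160, R8_247, R2_184⟩]⟩, ⟨nat_lit 1, [⟨nat_lit 0, nat_lit 4560, nat_lit 1008, nat_lit 1344, nat_lit 10608, nat_lit 15552, R10_28, R6_221, R14_324⟩, ⟨nat_lit 2, nat_lit 5280, nat_lit 1920, nat_lit 1488, nat_lit 11472, nat_lit 12912, R10_31, R4_239, R12_269⟩, ⟨nat_lit 3, nat_lit 6144, nat_lit 1584, nat_lit 1632, nat_lit 11952, nat_lit 864, R10_34, R8_249, R12_18⟩]⟩, ⟨nat_lit 3, [⟨nat_lit 3, nat_lit 6384, nat_lit 1536, nat_lit 816, nat_lit 11904, nat_lit 9648, R0_17, R8_248, R1_201⟩]⟩]⟩,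
 ⟨nat_lit 6, [⟨nat_lit 0, [⟨nat_lit 2, nat_lit 14880, nat_lit 3648, nat_lit 13152, nat_lit 12720, nat_lit 12864, R2_274, R7_265, R2_268⟩]⟩, ⟨nat_lit 1, [⟨nat_lit 2, nat_lit 15168, nat_lit 3696, nat_lit 14496, nat_lit 12816, nat_lit 12384, R1_302, R7_267, R12_258⟩]⟩, ⟨nat_lit 2, [⟨nat_lit 2, nat_lit 15072, nat_lit 3744, nat_lit 14016, nat_lit 12768, nat_lit 14208, R12_292, R7_266, R1_296⟩]⟩]⟩]], [[], [], [], [], [], [⟨nat_lit 6, [⟨nat_lit 0, [⟨nat_lit 2, nat_lit 15360, nat_lit 2016, nat_lit 13296, nat_lit 11424, nat_lit 13104, R2_277, R2_238, R2_273⟩]⟩, ⟨nat_lit 1, [⟨nat_lit 2, nat_lit 15744, nat_lit 2064, nat_lit 14640, nat_lit 11520, nat_lit 12624, R1_305, R2_240, R12_263⟩]⟩, ⟨nat_lit 2, [⟨nat_lit 2, nat_lit 15648, nat_lit 2112, nat_lit 14160, nat_lit 11472, nat_lit 14448, R12_295, R2_239, R1_301⟩]⟩]⟩]], [[],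 [], [], [], [⟨nat_lit 2, [⟨nat_lit 1, [⟨nat_lit 0, nat_lit 4896, nat_lit 192, nat_lit 1392, nat_lit 13152, nat_lit 7104, R10_29, R13_274, R7_148⟩, ⟨nat_lit 1, nat_lit 5520, nat_lit 5904, nat_lit 1920, nat_lit 9888, nat_lit 5328, R10_40, R3_206, R2_111⟩, ⟨nat_lit 3, nat_lit 6624, nat_lit 7200, nat_lit 1824, nat_lit 10464, nat_lit 7296, R10_38, R9_218, R2_152⟩]⟩]⟩], [⟨nat_lit 2, [⟨nat_lit 0, [⟨nat_lit 0, nat_lit 4848, nat_lit 480, nat_lit 1344, nat_lit 13344, nat_lit 5856, R3_28, R13_278, R7_122⟩, ⟨nat_lit 2, nat_lit 5424, nat_lit 2592, nat_lit 6528, nat_lit 7536, nat_lit 4272, R3_136, R3_157, R2_89⟩, ⟨nat_lit 3, nat_lit 6576, nat_lit 1632, nat_lit 7824, nat_lit 10656, nat_lit 9264, R3_163, R9_222, R2_193⟩]⟩, ⟨nat_lit 1, [⟨nat_lit 0, nat_lit 4944, nat_lit 528, nat_lit 1440, nat_lit 13392, nat_lit 16464, R10_30,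 R13_279, R14_343⟩, ⟨nat_lit 1, nat_lit 5616, nat_lit 672, nat_lit 1968, nat_lit 10224, nat_lit 13536, R10_41, R3_213, R12_282⟩, ⟨nat_lit 2, nat_lit 5472, nat_lit 2640, nat_lit 1536, nat_lit 7584, nat_lit 13440, R10_32, R3_158, R12_280⟩, ⟨nat_lit 3, nat_lit 6672, nat_lit 1728, nat_lit 1872, nat_lit 10752, nat_lit 8304, R10_39, R9_224, R12_173⟩]⟩, ⟨nat_lit 3, [⟨nat_lit 3, nat_lit 6816, nat_lit 1680, nat_lit 912, nat_lit 10704, nat_lit 10080, R0_19, R9_223, R1_210⟩]⟩]⟩,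
 ⟨nat_lit 6, [⟨nat_lit 0, [⟨nat_lit 2, nat_lit 15840, nat_lit 2208, nat_lit 13440, nat_lit 10368, nat_lit 12960, R2_280, R2_216, R2_270⟩]⟩, ⟨nat_lit 1, [⟨nat_lit 2, nat_lit 15936, nat_lit 2256, nat_lit 14784, nat_lit 10464, nat_lit 12528, R1_308, R2_218, R12_261⟩]⟩, ⟨nat_lit 2, [⟨nat_lit 2, nat_lit 15888, nat_lit 2304, nat_lit 14592, nat_lit 10416, nat_lit 14304, R12_304, R2_217, R1_298⟩]⟩]⟩], [⟨nat_lit 2, [⟨nat_lit 1, [⟨nat_lit 1, nat_lit 5568, nat_lit 4608, nat_lit 2016, nat_lit 10032, nat_lit 4032, R10_42, R3_209, R1_84⟩]⟩]⟩]], [[], [], [], [], [⟨nat_lit 2, [⟨nat_lit 1, [⟨nat_lit 3, nat_lit 7008, nat_lit 5568, nat_lit 1680, nat_lit 7728, nat_lit 6000, R10_35, R5_161, R2_125⟩]⟩]⟩], [⟨nat_lit 2, [⟨nat_lit 0, [⟨nat_lit 3, nat_lit 6960, nat_lit 15648, nat_lit 7728, nat_lit 7440, nat_lit 9072, R3_161, R5_155,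 R2_189⟩]⟩, ⟨nat_lit 1, [⟨nat_lit 3, nat_lit 7056, nat_lit 15936, nat_lit 1728, nat_lit 7824, nat_lit 6096, R10_36, R5_163, R12_127⟩]⟩, ⟨nat_lit 3, [⟨nat_lit 3, nat_lit 7248, nat_lit 15840, nat_lit 864, nat_lit 7632, nat_lit 9888, R0_18, R5_159, R1_206⟩]⟩]⟩], [], [⟨nat_lit 2, [⟨nat_lit 1, [⟨nat_lit 3, nat_lit 7104, nat_lit 4272, nat_lit 1776, nat_lit 7776, nat_lit 4704, R10_37, R5_162, R1_98⟩]⟩]⟩]]], [[], [], [], [], [[], [⟨nat_lit 0, [⟨nat_lit 7, [⟨nat_lit 3, nat_lit 336, nat_lit 14448, nat_lit 1536, nat_lit 10896, nat_lit 6288, R2_32, R6_227, R1_131⟩]⟩]⟩,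
 ⟨nat_lit 2, [⟨nat_lit 3, [⟨nat_lit 0, nat_lit 4704, nat_lit 16896, nat_lit 1968, nat_lit 10272, nat_lit 8448, R11_41, R6_214, R5_176⟩, ⟨nat_lit 2, nat_lit 5376, nat_lit 17616, nat_lit 2016, nat_lit 11328, nat_lit 5904, R11_42, R4_236, R0_123⟩, ⟨nat_lit 3, nat_lit 6432, nat_lit 17232, nat_lit 2064, nat_lit 10896, nat_lit 8448, R11_43, R8_227, R11_176⟩]⟩, ⟨nat_lit 7, [⟨nat_lit 3, nat_lit 6528, nat_lit 17136, nat_lit 1008, nat_lit 10944, nat_lit 6384, R1_21, R8_228, R1_133⟩]⟩]⟩,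
 ⟨nat_lit 3, [⟨nat_lit 4, [⟨nat_lit 7, nat_lit 13632, nat_lit 14928, nat_lit 8880, nat_lit 12576, nat_lit 7920, R2_185, R7_262, R3_165⟩]⟩, ⟨nat_lit 6, [⟨nat_lit 7, nat_lit 13680, nat_lit 15216, nat_lit 9696, nat_lit 12672, nat_lit 5952, R1_202, R7_264, R0_124⟩]⟩, ⟨nat_lit 7, [⟨nat_lit 3, nat_lit 12720, nat_lit 16032, nat_lit 1152, nat_lit 11760, nat_lit 6336, R12_24, R4_245, R1_132⟩, ⟨nat_lit 7, nat_lit 13728, nat_lit 15120, nat_lit 1056, nat_lit 12624, nat_lit 7440, R12_22, R7_263, R10_155⟩]⟩]⟩,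
 ⟨nat_lit 4, [⟨nat_lit 2, [⟨nat_lit 6, nat_lit 14448, nat_lit 336, nat_lit 1536, nat_lit 10896, nat_lit 6288, R2_32, R6_227, R1_131⟩]⟩]⟩,
 ⟨nat_lit 6, [⟨nat_lit 0, [⟨nat_lit 2, nat_lit 14928, nat_lit 13632, nat_lit 8880, nat_lit 12576, nat_lit 7920, R2_185, R7_262, R3_165⟩]⟩, ⟨nat_lit 2, [⟨nat_lit 2, nat_lit 15120, nat_lit 13728, nat_lit 1056, nat_lit 12624, nat_lit 7440, R12_22, R7_263, R10_155⟩, ⟨nat_lit 6, nat_lit 16032, nat_lit 12720, nat_lit 1152, nat_lit 11760, nat_lit 6336, R12_24, R4_245, R1_132⟩]⟩, ⟨nat_lit 3, [⟨nat_lit 2, nat_lit 15216, nat_lit 13680, nat_lit 9696, nat_lit 12672, nat_lit 5952, R1_202, R7_264, R0_124⟩]⟩]⟩,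
 ⟨nat_lit 7, [⟨nat_lit 2, [⟨nat_lit 6, nat_lit 17136, nat_lit 6528, nat_lit 1008, nat_lit 10944, nat_lit 6384, R1_21, R8_228, R1_133⟩]⟩, ⟨nat_lit 6, [⟨nat_lit 4, nat_lit 16896, nat_lit 4704, nat_lit 1968, nat_lit 10272, nat_lit 8448, R11_41, R6_214, R5_176⟩, ⟨nat_lit 6, nat_lit 17232, nat_lit 6432, nat_lit 2064, nat_lit 10896, nat_lit 8448, R11_43, R8_227, R11_176⟩, ⟨nat_lit 7, nat_lit 17616, nat_lit 5376, nat_lit 2016, nat_lit 11328, nat_lit 5904, R11_42, R4_236, R0_123⟩]⟩]⟩]], [[], [⟨nat_lit 4, [⟨nat_lit 2, [⟨nat_lit 6, nat_lit 14640, nat_lit 4176, nat_lit 8592, nat_lit 14016, nat_lit 6480, R2_179, R13_292, R1_135⟩]⟩]⟩,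
 ⟨nat_lit 6, [⟨nat_lit 0, [⟨nat_lit 2, nat_lit 15408, nat_lit 4080, nat_lit 9360, nat_lit 11280, nat_lit 8064, R2_195, R2_235, R3_168⟩]⟩, ⟨nat_lit 2, [⟨nat_lit 2, nat_lit 15696, nat_lit 4320, nat_lit 8880, nat_lit 11328, nat_lit 7488, R12_185, R2_236, R10_156⟩, ⟨nat_lit 6, nat_lit 16176, nat_lit 4272, nat_lit 9024, nat_lit 17280, nat_lit 6528, R12_188, R3_360, R1_136⟩]⟩, ⟨nat_lit 3, [⟨nat_lit 2, nat_lit 15792, nat_lit 4128, nat_lit 10176, nat_lit 11376, nat_lit 6000, R1_212, R2_237, R0_125⟩]⟩]⟩,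
 ⟨nat_lit 7, [⟨nat_lit 2, [⟨nat_lit 6, nat_lit 17280, nat_lit 4224, nat_lit 9408, nat_lit 11664, nat_lit 6576, R1_196, R9_243, R1_137⟩]⟩, ⟨nat_lit 6, [⟨nat_lit 4, nat_lit 17040, nat_lit 3936, nat_lit 13920, nat_lit 19200, nat_lit 9744, R11_290, R8_400, R5_203⟩, ⟨nat_lit 6, nat_lit 17424, nat_lit 4032, nat_lit 14112, nat_lit 11616, nat_lit 8832, R11_294, R9_242, R11_184⟩, ⟨nat_lit 7, nat_lit 17760, nat_lit 3984, nat_lit 14016, nat_lit 13584, nat_lit 6288, R11_292, R5_283, R0_131⟩]⟩]⟩]], [], [[], [⟨nat_lit 0, [⟨nat_lit 7, [⟨nat_lit 3, nat_lit 720, nat_lit 5808, nat_lit 2112, nat_lit 8544, nat_lit 6912, R2_44, R4_178, R1_144⟩, ⟨nat_lit 7, nat_lit 3120, nat_lit 5712, nat_lit 336, nat_lit 8592, nat_lit 7776, R2_7, R7_179, R10_162⟩]⟩]⟩,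
 ⟨nat_lit 2, [⟨nat_lit 3, [⟨nat_lit 3, nat_lit 7296, nat_lit 6096, nat_lit 2112, nat_lit 7584, nat_lit 8496, R11_44, R5_158, R11_177⟩]⟩, ⟨nat_lit 7, [⟨nat_lit 3, nat_lit 7680, nat_lit 5856, nat_lit 1584, nat_lit 7152, nat_lit 6960, R1_33, R5_149, R1_145⟩]⟩]⟩,
 ⟨nat_lit 3, [⟨nat_lit 4, [⟨nat_lit 4, nat_lit 12768, nat_lit 5616, nat_lit 7728, nat_lit 17664, nat_lit 12624, R2_161, R7_368, R4_263⟩, ⟨nat_lit 7, nat_lit 13776, nat_lit 5664, nat_lit 8928, nat_lit 13680, nat_lit 7968, R2_186, R14_285, R3_166⟩]⟩, ⟨nat_lit 6, [⟨nat_lit 4, nat_lit 12912, nat_lit 5952, nat_lit 8256, nat_lit 17856, nat_lit 16416, R1_172, R7_372, R5_342⟩, ⟨nat_lit 7, nat_lit 13968, nat_lit 6000, nat_lit 9744, nat_lit 13728, nat_lit 6048, R1_203, R14_286, R0_126⟩]⟩, ⟨nat_lit 7, [⟨nat_lit 7, nat_lit 14256, nat_lit 5760, nat_lit 1104, nat_lit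 13776, nat_lit 7824, R12_23, R14_287, R10_163⟩]⟩]⟩,
 ⟨nat_lit 7, [⟨nat_lit 2, [⟨nat_lit 6, nat_lit 17472, nat_lit 6144, nat_lit 6432, nat_lit 17472, nat_lit 6432, R1_134, R5_364, R1_134⟩]⟩, ⟨nat_lit 6, [⟨nat_lit 4, nat_lit 17088, nat_lit 5904, nat_lit 8544, nat_lit 15504, nat_lit 9024, R11_178, R4_323, R5_188⟩, ⟨nat_lit 6, nat_lit 17520, nat_lit 6048, nat_lit 8592, nat_lit 17520, nat_lit 8592, R11_179, R5_365, R11_179⟩]⟩]⟩], [], [], [], [⟨nat_lit 2, [⟨nat_lit 3, [⟨nat_lit 3, nat_lit 7344, nat_lit 16368, nat_lit 2160, nat_lit 7536, nat_lit 8784, R11_45, R5_157, R1_183⟩]⟩]⟩]]]]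
noncomputable def N3006 : T3 (List N0) := [[[[], [], [⟨nat_lit 0, [⟨nat_lit 2, [⟨nat_lit 2, nat_lit 13248, nat_lit 3216, nat_lit 10704, nat_lit 13680, nat_lit 0, R6_223, R6_285, R1_0⟩]⟩]⟩,
 ⟨nat_lit 2, [⟨nat_lit 2, [⟨nat_lit 2, nat_lit 14592, nat_lit 11664, nat_lit 11568, nat_lit 13440, nat_lit 5808, R4_241, R4_280, R1_121⟩]⟩]⟩,
 ⟨nat_lit 3, [⟨nat_lit 0, [⟨nat_lit 0, nat_lit 15456, nat_lit 8640, nat_lit 10032, nat_lit 12720, nat_lit 8640, R6_209, R6_265, R7_180⟩]⟩, ⟨nat_lit 2, [⟨nat_lit 0, nat_lit 15552, nat_lit 8784, nat_lit 10560, nat_lit 12816, nat_lit 7440, R8_220, R6_267, R2_155⟩, ⟨nat_lit 2, nat_lit 16032, nat_lit 9120, nat_lit 10608, nat_lit 14352, nat_lit 7968, R8_221, R8_299, R1_166⟩]⟩, ⟨nat_lit 3, [⟨nat_lit 0, nat_lit 15648, nat_lit 8736, nat_lit 10992, nat_lit 12768, nat_lit 3120, R4_229, R6_266,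 R2_65⟩, ⟨nat_lit 3, nat_lit 16368, nat_lit 8928, nat_lit 11040, nat_lit 13056, nat_lit 2592, R4_230, R4_272, R1_54⟩]⟩]⟩,
 ⟨nat_lit 7, [⟨nat_lit 3, [⟨nat_lit 3, nat_lit 12048, nat_lit 13536, nat_lit 12240, nat_lit 14688, nat_lit 13056, R7_255, R7_306, R1_272⟩]⟩]⟩], [], [], [], [⟨nat_lit 0, [⟨nat_lit 2, [⟨nat_lit 2, nat_lit 13296, nat_lit 2832, nat_lit 10656, nat_lit 13728, nat_lit 14352, R6_222, R6_286, R10_299⟩]⟩]⟩,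
 ⟨nat_lit 2, [⟨nat_lit 2, [⟨nat_lit 2, nat_lit 14640, nat_lit 12288, nat_lit 11520, nat_lit 13488, nat_lit 14400, R4_240, R4_281, R10_300⟩]⟩, ⟨nat_lit 6, [⟨nat_lit 2, nat_lit 14688, nat_lit 12240, nat_lit 12048, nat_lit 13536, nat_lit 13056, R7_251, R4_282, R1_272⟩, ⟨nat_lit 6, nat_lit 14880, nat_lit 12096, nat_lit 12096, nat_lit 14880, nat_lit 18336, R7_252, R7_310, R11_382⟩]⟩]⟩,
 ⟨nat_lit 3, [⟨nat_lit 0, [⟨nat_lit 0, nat_lit 15504, nat_lit 8640, nat_lit 11136, nat_lit 12192, nat_lit 8640, R6_232, R6_254, R4_180⟩, ⟨nat_lit 3, nat_lit 16272, nat_lit 8784, nat_lit 11184, nat_lit 12384, nat_lit 4416, R6_233, R4_258, R5_92⟩]⟩, ⟨nat_lit 2, [⟨nat_lit 0, nat_lit 15600, nat_lit 8688, nat_lit 10416, nat_lit 12240, nat_lit 11040, R8_217, R6_255, R3_230⟩, ⟨nat_lit 2, nat_lit 16080, nat_lit 8976, nat_lit 10464, nat_lit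 14400, nat_lit 14448, R8_218, R8_300, R10_301⟩, ⟨nat_lit 3, nat_lit 16320, nat_lit 8880, nat_lit 10512, nat_lit 12480, nat_lit 12144, R8_219, R4_260, R0_253⟩]⟩, ⟨nat_lit 3, [⟨nat_lit 3, nat_lit 16416, nat_lit 8832, nat_lit 11856, nat_lit 12432, nat_lit 18288, R4_247, R4_259, R11_381⟩]⟩]⟩,
 ⟨nat_lit 4, [⟨nat_lit 7, [⟨nat_lit 7, nat_lit 2832, nat_lit 13296, nat_lit 10656, nat_lit 13728, nat_lit 14352, R6_222, R6_286, R10_299⟩]⟩]⟩,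
 ⟨nat_lit 6, [⟨nat_lit 4, [⟨nat_lit 4, nat_lit 8640, nat_lit 15504, nat_lit 11136, nat_lit 12192, nat_lit 8640, R6_232, R6_254, R4_180⟩, ⟨nat_lit 6, nat_lit 8784, nat_lit 16272, nat_lit 11184, nat_lit 12384, nat_lit 4416, R6_233, R4_258, R5_92⟩]⟩, ⟨nat_lit 6, [⟨nat_lit 6, nat_lit 8832, nat_lit 16416, nat_lit 11856, nat_lit 12432, nat_lit 18288, R4_247, R4_259, R11_381⟩]⟩, ⟨nat_lit 7, [⟨nat_lit 4, nat_lit 8688, nat_lit 15600, nat_lit 10416, nat_lit 12240, nat_lit 11040, R8_217, R6_255, R3_230⟩, ⟨nat_lit 6, nat_lit 8880, nat_lit 16320, nat_lit 10512, nat_lit 12480, nat_lit 12144, R8_219, R4_260, R0_253⟩, ⟨nat_lit 7, nat_lit 8976, nat_lit 16080, nat_lit 10464, nat_lit 14400, nat_lit 14448, R8_218, R8_300, R10_301⟩]⟩]⟩,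
 ⟨nat_lit 7, [⟨nat_lit 3, [⟨nat_lit 3, nat_lit 12096, nat_lit 14880, nat_lit 12096, nat_lit 14880, nat_lit 18336, R7_252, R7_310, R11_382⟩, ⟨nat_lit 7, nat_lit 12240, nat_lit 14688, nat_lit 12048, nat_lit 13536, nat_lit 13056, R7_251, R4_282, R1_272⟩]⟩, ⟨nat_lit 7, [⟨nat_lit 7, nat_lit 12288, nat_lit 14640, nat_lit 11520, nat_lit 13488, nat_lit 14400, R4_240, R4_281, R10_300⟩]⟩]⟩]], [], [[], [], [], [], [⟨nat_lit 2, [⟨nat_lit 6, [⟨nat_lit 6, nat_lit 15168, nat_lit 12384, nat_lit 12144, nat_lit 12480, nat_lit 14832, R7_253, R2_260, R5_309⟩]⟩]⟩,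
 ⟨nat_lit 4, [⟨nat_lit 7, [⟨nat_lit 4, nat_lit 2976, nat_lit 9072, nat_lit 10944, nat_lit 1632, nat_lit 16272, R6_228, R6_34, R13_339⟩, ⟨nat_lit 5, nat_lit 3600, nat_lit 10608, nat_lit 11040, nat_lit 1584, nat_lit 12336, R6_230, R4_33, R3_257⟩, ⟨nat_lit 7, nat_lit 4032, nat_lit 9744, nat_lit 10992, nat_lit 144, nat_lit 1200, R6_229, R8_3, R3_25⟩]⟩]⟩,
 ⟨nat_lit 6, [⟨nat_lit 4, [⟨nat_lit 4, nat_lit 9072, nat_lit 2976, nat_lit 10944, nat_lit 16272, nat_lit 1632, R6_228, R13_339, R6_34⟩, ⟨nat_lit 5, nat_lit 10608, nat_lit 3600, nat_lit 11040, nat_lit 12336, nat_lit 1584, R6_230, R3_257, R4_33⟩, ⟨nat_lit 6, nat_lit 9744, nat_lit 4032, nat_lit 10992, nat_lit 1200, nat_lit 144, R6_229, R3_25, R8_3⟩]⟩, ⟨nat_lit 6, [⟨nat_lit 6, nat_lit 9840, nat_lit 12480, nat_lit 11808, nat_lit 1440, nat_lit 14784, R4_246, R3_30, R5_308⟩]⟩,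 ⟨nat_lit 7, [⟨nat_lit 4, nat_lit 9168, nat_lit 9168, nat_lit 10992, nat_lit 16320, nat_lit 16320, R8_229, R13_340, R13_340⟩, ⟨nat_lit 5, nat_lit 10656, nat_lit 10656, nat_lit 11136, nat_lit 12384, nat_lit 12384, R8_232, R3_258, R3_258⟩, ⟨nat_lit 6, nat_lit 9936, nat_lit 11040, nat_lit 11088, nat_lit 1680, nat_lit 14016, R8_231, R3_35, R9_292⟩, ⟨nat_lit 7, nat_lit 11040, nat_lit 9936, nat_lit 11040, nat_lit 14016, nat_lit 1680, R8_230, R9_292, R3_35⟩]⟩]⟩,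
 ⟨nat_lit 7, [⟨nat_lit 3, [⟨nat_lit 7, nat_lit 12384, nat_lit 15168, nat_lit 12864, nat_lit 14832, nat_lit 12480, R7_268, R5_309, R2_260⟩]⟩, ⟨nat_lit 7, [⟨nat_lit 7, nat_lit 12480, nat_lit 9840, nat_lit 11808, nat_lit 14784, nat_lit 1440, R4_246, R5_308, R3_30⟩]⟩]⟩], [], [⟨nat_lit 2, [⟨nat_lit 6, [⟨nat_lit 6, nat_lit 15216, nat_lit 3456, nat_lit 12192, nat_lit 12576, nat_lit 19152, R7_254, R2_262, R11_399⟩]⟩]⟩,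
 ⟨nat_lit 4, [⟨nat_lit 7, [⟨nat_lit 4, nat_lit 3024, nat_lit 144, nat_lit 11328, nat_lit 1680, nat_lit 11568, R6_236, R6_35, R3_241⟩, ⟨nat_lit 7, nat_lit 4080, nat_lit 192, nat_lit 11376, nat_lit 192, nat_lit 15648, R6_237, R8_4, R10_326⟩]⟩]⟩,
 ⟨nat_lit 6, [⟨nat_lit 4, [⟨nat_lit 4, nat_lit 9120, nat_lit 768, nat_lit 11232, nat_lit 16512, nat_lit 9216, R6_234, R13_344, R4_192⟩, ⟨nat_lit 6, nat_lit 9792, nat_lit 816, nat_lit 11280, nat_lit 1248, nat_lit 4464, R6_235, R3_26, R5_93⟩]⟩, ⟨nat_lit 6, [⟨nat_lit 6, nat_lit 9888, nat_lit 1776, nat_lit 11904, nat_lit 1488, nat_lit 19104, R4_248, R3_31, R11_398⟩]⟩, ⟨nat_lit 7, [⟨nat_lit 4, nat_lit 9216, nat_lit 1200, nat_lit 11568, nat_lit 16560, nat_lit 11904, R8_241, R13_345, R3_248⟩, ⟨nat_lit 6, nat_lit 9984, nat_lit 1296, nat_lit 11664, nat_lit 1728, nat_lit 12720,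 R8_243, R3_36, R0_265⟩, ⟨nat_lit 7, nat_lit 11088, nat_lit 1248, nat_lit 11616, nat_lit 14160, nat_lit 15744, R8_242, R9_295, R10_328⟩]⟩]⟩,
 ⟨nat_lit 7, [⟨nat_lit 3, [⟨nat_lit 7, nat_lit 12432, nat_lit 480, nat_lit 13056, nat_lit 15024, nat_lit 13824, R7_272, R5_313, R1_288⟩]⟩, ⟨nat_lit 7, [⟨nat_lit 7, nat_lit 12528, nat_lit 384, nat_lit 11952, nat_lit 14976, nat_lit 15696, R4_249, R5_312, R10_327⟩]⟩]⟩]], [[], [], [⟨nat_lit 3, [⟨nat_lit 0, [⟨nat_lit 0, nat_lit 17280, nat_lit 4416, nat_lit 10512, nat_lit 12384, nat_lit 8784, R6_219, R4_258, R7_183⟩]⟩, ⟨nat_lit 2, [⟨nat_lit 0, nat_lit 17328, nat_lit 6000, nat_lit 10656, nat_lit 12576, nat_lit 7680, R8_222, R4_262, R2_160⟩, ⟨nat_lit 2, nat_lit 17760, nat_lit 6336, nat_lit 10704, nat_lit 16320, nat_lit 8208, R8_223, R5_340, R1_171⟩]⟩, ⟨nat_lit 3, [⟨nat_lit 0, nat_lit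 17376, nat_lit 5184, nat_lit 11376, nat_lit 12912, nat_lit 3984, R4_237, R4_269, R2_83⟩]⟩]⟩,
 ⟨nat_lit 7, [⟨nat_lit 3, [⟨nat_lit 0, nat_lit 12864, nat_lit 14832, nat_lit 12384, nat_lit 13872, nat_lit 12480, R7_258, R7_289, R2_260⟩, ⟨nat_lit 3, nat_lit 13056, nat_lit 15024, nat_lit 12432, nat_lit 17616, nat_lit 13824, R7_259, R14_367, R1_288⟩]⟩]⟩]], [], [], [[], [], [], [], [⟨nat_lit 4, [⟨nat_lit 7, [⟨nat_lit 5, nat_lit 1584, nat_lit 9648, nat_lit 9936, nat_lit 1056, nat_lit 13584, R6_207, R7_22, R3_283⟩]⟩]⟩,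
 ⟨nat_lit 6, [⟨nat_lit 4, [⟨nat_lit 5, nat_lit 8160, nat_lit 3504, nat_lit 11088, nat_lit 96, nat_lit 3600, R6_231, R2_2, R4_75⟩]⟩, ⟨nat_lit 7, [⟨nat_lit 5, nat_lit 8208, nat_lit 9792, nat_lit 9456, nat_lit 240, nat_lit 13632, R8_197, R2_5, R3_284⟩]⟩]⟩], [], [], [⟨nat_lit 4, [⟨nat_lit 7, [⟨nat_lit 5, nat_lit 1632, nat_lit 4512, nat_lit 10320, nat_lit 1104, nat_lit 13152, R6_215, R7_23, R10_274⟩]⟩]⟩,
 ⟨nat_lit 6, [⟨nat_lit 7, [⟨nat_lit 5, nat_lit 8256, nat_lit 6096, nat_lit 9984, nat_lit 288, nat_lit 13440, R8_208, R2_6, R10_280⟩]⟩]⟩]]], [[[], [], [⟨nat_lit 0, [⟨nat_lit 2, [⟨nat_lit 2, nat_lit 13344, nat_lit 15888, nat_lit 13488, nat_lit 13776, nat_lit 48, R13_281, R6_287, R1_1⟩]⟩]⟩,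
 ⟨nat_lit 2, [⟨nat_lit 2, [⟨nat_lit 2, nat_lit 14736, nat_lit 16656, nat_lit 10272, nat_lit 13584, nat_lit 5856, R3_214, R4_283, R1_122⟩]⟩]⟩,
 ⟨nat_lit 3, [⟨nat_lit 0, [⟨nat_lit 0, nat_lit 15696, nat_lit 11040, nat_lit 11280, nat_lit 13008, nat_lit 8688, R8_235, R6_271, R7_181⟩]⟩, ⟨nat_lit 2, [⟨nat_lit 0, nat_lit 15792, nat_lit 11232, nat_lit 10944, nat_lit 13104, nat_lit 7488, R9_228, R6_273, R2_156⟩, ⟨nat_lit 2, nat_lit 16128, nat_lit 16224, nat_lit 10992, nat_lit 14448, nat_lit 8016, R9_229, R8_301, R1_167⟩]⟩, ⟨nat_lit 3, [⟨nat_lit 0, nat_lit 15888, nat_lit 11136, nat_lit 12816, nat_lit 13056, nat_lit 3168, R5_267, R6_272, R2_66⟩, ⟨nat_lit 3, nat_lit 16560, nat_lit 15168, nat_lit 12864, nat_lit 13152, nat_lit 2640, R5_268, R4_274, R1_55⟩]⟩]⟩], [], [], [], [⟨nat_lit 0, [⟨nat_lit 2, [⟨nat_lit 2, nat_lit 13392,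 nat_lit 912, nat_lit 13440, nat_lit 13824, nat_lit 14544, R13_280, R6_288, R10_303⟩]⟩]⟩,
 ⟨nat_lit 2, [⟨nat_lit 2, [⟨nat_lit 2, nat_lit 14784, nat_lit 10800, nat_lit 10368, nat_lit 13632, nat_lit 14592, R3_216, R4_284, R10_304⟩]⟩, ⟨nat_lit 6, [⟨nat_lit 2, nat_lit 14832, nat_lit 10752, nat_lit 10512, nat_lit 13680, nat_lit 13104, R2_219, R4_285, R1_273⟩, ⟨nat_lit 6, nat_lit 14928, nat_lit 10560, nat_lit 10560, nat_lit 14928, nat_lit 18768, R2_220, R7_311, R11_391⟩]⟩]⟩,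
 ⟨nat_lit 3, [⟨nat_lit 0, [⟨nat_lit 0, nat_lit 15744, nat_lit 7440, nat_lit 9600, nat_lit 12336, nat_lit 8784, R8_200, R6_257, R4_183⟩, ⟨nat_lit 3, nat_lit 16464, nat_lit 7680, nat_lit 10176, nat_lit 12576, nat_lit 6000, R8_212, R4_262, R5_125⟩]⟩, ⟨nat_lit 2, [⟨nat_lit 0, nat_lit 15840, nat_lit 7488, nat_lit 10800, nat_lit 12384, nat_lit 11232, R9_225, R6_258, R3_234⟩, ⟨nat_lit 2, nat_lit 16176, nat_lit 8016, nat_lit 10848, nat_lit 14496, nat_lit 14640, R9_226, R8_302, R10_305⟩, ⟨nat_lit 3, nat_lit 16512, nat_lit 7776, nat_lit 10896, nat_lit 12672, nat_lit 12240, R9_227, R4_264, R0_255⟩]⟩, ⟨nat_lit 3, [⟨nat_lit 3, nat_lit 16608, nat_lit 7728, nat_lit 12768, nat_lit 12624, nat_lit 18432, R5_266, R4_263, R11_384⟩]⟩]⟩]], [[], [], [⟨nat_lit 0, [⟨nat_lit 0, [⟨nat_lit 0, nat_lit 13440, nat_lit 48, nat_lit 10656, nat_lit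 13728, nat_lit 2832, R6_222, R6_286, R7_59⟩]⟩, ⟨nat_lit 2, [⟨nat_lit 0, nat_lit 13536, nat_lit 96, nat_lit 13632, nat_lit 13824, nat_lit 912, R13_284, R6_288, R2_19⟩, ⟨nat_lit 2, nat_lit 13632, nat_lit 432, nat_lit 13680, nat_lit 19152, nat_lit 240, R13_285, R13_399, R1_5⟩]⟩]⟩,
 ⟨nat_lit 1, [⟨nat_lit 0, [⟨nat_lit 0, nat_lit 14256, nat_lit 7008, nat_lit 11520, nat_lit 13488, nat_lit 12288, R4_240, R4_281, R7_256⟩]⟩, ⟨nat_lit 2, [⟨nat_lit 0, nat_lit 14352, nat_lit 7056, nat_lit 10368, nat_lit 13632, nat_lit 10800, R3_216, R4_284, R2_225⟩, ⟨nat_lit 2, nat_lit 14496, nat_lit 7248, nat_lit 10416, nat_lit 15408, nat_lit 11184, R3_217, R3_321, R1_233⟩]⟩]⟩,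
 ⟨nat_lit 2, [⟨nat_lit 2, [⟨nat_lit 2, nat_lit 14976, nat_lit 12432, nat_lit 10320, nat_lit 15456, nat_lit 5952, R3_215, R3_322, R1_124⟩]⟩]⟩,
 ⟨nat_lit 3, [⟨nat_lit 0, [⟨nat_lit 0, nat_lit 16752, nat_lit 8784, nat_lit 11376, nat_lit 13008, nat_lit 8976, R8_237, R8_271, R7_187⟩]⟩, ⟨nat_lit 2, [⟨nat_lit 0, nat_lit 16848, nat_lit 8928, nat_lit 11184, nat_lit 13104, nat_lit 8016, R9_233, R8_273, R2_167⟩, ⟨nat_lit 2, nat_lit 16992, nat_lit 9600, nat_lit 11232, nat_lit 15504, nat_lit 8544, R9_234, R9_323, R1_178⟩]⟩, ⟨nat_lit 3, [⟨nat_lit 0, nat_lit 16944, nat_lit 8880, nat_lit 12960, nat_lit 13248, nat_lit 6384, R5_270, R8_276, R2_133⟩, ⟨nat_lit 3, nat_lit 17184, nat_lit 9312, nat_lit 13008, nat_lit 16272, nat_lit 5088, R5_271, R5_339, R1_106⟩]⟩]⟩], [], [], [], [⟨nat_lit 0, [⟨nat_lit 0, [⟨nat_lit 0, nat_lit 13488,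 nat_lit 0, nat_lit 10704, nat_lit 13680, nat_lit 3216, R6_223, R6_285, R4_67⟩]⟩, ⟨nat_lit 2, [⟨nat_lit 0, nat_lit 13584, nat_lit 48, nat_lit 13536, nat_lit 13776, nat_lit 15888, R13_282, R6_287, R3_331⟩, ⟨nat_lit 2, nat_lit 13680, nat_lit 240, nat_lit 13584, nat_lit 19200, nat_lit 14736, R13_283, R13_400, R10_307⟩]⟩]⟩,
 ⟨nat_lit 1, [⟨nat_lit 0, [⟨nat_lit 0, nat_lit 14304, nat_lit 5808, nat_lit 11568, nat_lit 13440, nat_lit 11664, R4_241, R4_280, R4_243⟩]⟩, ⟨nat_lit 2, [⟨nat_lit 0, nat_lit 14400, nat_lit 5856, nat_lit 10272, nat_lit 13584, nat_lit 16656, R3_214, R4_283, R3_347⟩, ⟨nat_lit 2, nat_lit 14544, nat_lit 5952, nat_lit 10320, nat_lit 15456, nat_lit 14880, R3_215, R3_322, R10_310⟩]⟩]⟩,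
 ⟨nat_lit 2, [⟨nat_lit 2, [⟨nat_lit 2, nat_lit 15024, nat_lit 11184, nat_lit 10416, nat_lit 15408, nat_lit 14784, R3_217, R3_321, R10_308⟩]⟩, ⟨nat_lit 6, [⟨nat_lit 2, nat_lit 15072, nat_lit 11136, nat_lit 10608, nat_lit 15360, nat_lit 13152, R2_221, R3_320, R1_274⟩, ⟨nat_lit 6, nat_lit 15120, nat_lit 10944, nat_lit 10656, nat_lit 14064, nat_lit 20928, R2_222, R2_293, R11_436⟩]⟩]⟩,
 ⟨nat_lit 3, [⟨nat_lit 0, [⟨nat_lit 0, nat_lit 16800, nat_lit 7968, nat_lit 9648, nat_lit 13392, nat_lit 9120, R8_201, R8_279, R4_190⟩, ⟨nat_lit 3, nat_lit 17088, nat_lit 8208, nat_lit 10224, nat_lit 16320, nat_lit 6336, R8_213, R5_340, R5_132⟩]⟩, ⟨nat_lit 2, [⟨nat_lit 0, nat_lit 16896, nat_lit 8016, nat_lit 11040, nat_lit 13632, nat_lit 16224, R9_230, R8_284, R3_338⟩, ⟨nat_lit 2, nat_lit 17040, nat_lit 8544, nat_lit 11088, nat_lit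 15552, nat_lit 14832, R9_231, R9_324, R10_309⟩, ⟨nat_lit 3, nat_lit 17136, nat_lit 8304, nat_lit 11136, nat_lit 16368, nat_lit 12288, R9_232, R5_341, R0_256⟩]⟩, ⟨nat_lit 3, [⟨nat_lit 3, nat_lit 17232, nat_lit 8256, nat_lit 12912, nat_lit 16416, nat_lit 18576, R5_269, R5_342, R11_387⟩]⟩]⟩]], [[], [], [], [], [], [], [⟨nat_lit 2, [⟨nat_lit 6, [⟨nat_lit 6, nat_lit 15264, nat_lit 1824, nat_lit 10704, nat_lit 12624, nat_lit 20304, R2_223, R2_263, R11_423⟩]⟩]⟩]], [[], [], [⟨nat_lit 3, [⟨nat_lit 0, [⟨nat_lit 0, nat_lit 17424, nat_lit 12144, nat_lit 11328, nat_lit 12480, nat_lit 8880, R8_236, R4_260, R7_185⟩]⟩, ⟨nat_lit 2, [⟨nat_lit 0, nat_lit 17472, nat_lit 12240, nat_lit 11280, nat_lit 12672, nat_lit 7776, R9_235, R4_264, R2_162⟩, ⟨nat_lit 2, nat_lit 17808, nat_lit 12288, nat_lit 11328, nat_lit 16368, nat_lit 8304,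 R9_236, R5_341, R1_173⟩]⟩, ⟨nat_lit 3, [⟨nat_lit 0, nat_lit 17520, nat_lit 12192, nat_lit 13056, nat_lit 12960, nat_lit 4032, R5_272, R4_270, R2_84⟩]⟩]⟩]]], [[], [], [[], [], [], [], [⟨nat_lit 2, [⟨nat_lit 6, [⟨nat_lit 6, nat_lit 15312, nat_lit 10992, nat_lit 11568, nat_lit 12528, nat_lit 15312, R2_241, R2_261, R5_319⟩]⟩]⟩,
 ⟨nat_lit 4, [⟨nat_lit 4, [⟨nat_lit 4, nat_lit 3072, nat_lit 1104, nat_lit 3936, nat_lit 1488, nat_lit 7440, R6_82, R6_31, R6_155⟩, ⟨nat_lit 5, nat_lit 3648, nat_lit 1920, nat_lit 4176, nat_lit 1488, nat_lit 8160, R6_87, R4_31, R4_170⟩]⟩, ⟨nat_lit 7, [⟨nat_lit 4, nat_lit 3264, nat_lit 8160, nat_lit 1728, nat_lit 1872, nat_lit 16944, R8_36, R6_39, R13_353⟩, ⟨nat_lit 5, nat_lit 3792, nat_lit 9696, nat_lit 2928, nat_lit 1728, nat_lit 12768, R8_61, R4_36, R3_266⟩, ⟨nat_lit 7, nat_lit 4128, nat_lit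 8784, nat_lit 2592, nat_lit 2016, nat_lit 7632, R8_54, R8_42, R3_159⟩]⟩]⟩,
 ⟨nat_lit 6, [⟨nat_lit 4, [⟨nat_lit 4, nat_lit 9264, nat_lit 1200, nat_lit 14064, nat_lit 16416, nat_lit 7728, R13_293, R13_342, R6_161⟩, ⟨nat_lit 5, nat_lit 10704, nat_lit 1968, nat_lit 14160, nat_lit 12480, nat_lit 8304, R13_295, R3_260, R4_173⟩, ⟨nat_lit 6, nat_lit 10032, nat_lit 2400, nat_lit 14112, nat_lit 1296, nat_lit 4896, R13_294, R3_27, R8_102⟩]⟩, ⟨nat_lit 6, [⟨nat_lit 6, nat_lit 10176, nat_lit 11088, nat_lit 3408, nat_lit 1536, nat_lit 15264, R3_71, R3_32, R5_318⟩]⟩, ⟨nat_lit 7, [⟨nat_lit 4, nat_lit 9456, nat_lit 8256, nat_lit 11712, nat_lit 16464, nat_lit 16992, R9_244, R13_343, R13_354⟩, ⟨nat_lit 5, nat_lit 10848, nat_lit 9744, nat_lit 11856, nat_lit 12528, nat_lit 12816, R9_247, R3_261, R3_267⟩, ⟨nat_lit 6, nat_lit 10368,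 nat_lit 10032, nat_lit 11760, nat_lit 1920, nat_lit 14352, R9_245, R3_40, R9_299⟩, ⟨nat_lit 7, nat_lit 11136, nat_lit 8976, nat_lit 11808, nat_lit 14112, nat_lit 8208, R9_246, R9_294, R3_171⟩]⟩]⟩,
 ⟨nat_lit 7, [⟨nat_lit 7, [⟨nat_lit 7, nat_lit 12576, nat_lit 8880, nat_lit 13632, nat_lit 14928, nat_lit 7920, R5_284, R5_311, R3_165⟩]⟩]⟩], [⟨nat_lit 2, [⟨nat_lit 6, [⟨nat_lit 6, nat_lit 15408, nat_lit 11568, nat_lit 11616, nat_lit 12720, nat_lit 12432, R2_242, R2_265, R0_259⟩]⟩]⟩,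
 ⟨nat_lit 4, [⟨nat_lit 4, [⟨nat_lit 4, nat_lit 3168, nat_lit 576, nat_lit 3984, nat_lit 1584, nat_lit 48, R6_83, R6_33, R8_1⟩, ⟨nat_lit 5, nat_lit 3696, nat_lit 1392, nat_lit 4224, nat_lit 1536, nat_lit 4608, R6_88, R4_32, R5_96⟩]⟩, ⟨nat_lit 5, [⟨nat_lit 4, nat_lit 3216, nat_lit 6096, nat_lit 4224, nat_lit 2016, nat_lit 14400, R4_88, R6_42, R5_300⟩, ⟨nat_lit 5, nat_lit 3744, nat_lit 6816, nat_lit 4320, nat_lit 1824, nat_lit 17904, R4_90, R4_38, R11_373⟩]⟩, ⟨nat_lit 7, [⟨nat_lit 4, nat_lit 3360, nat_lit 8976, nat_lit 1776, nat_lit 1968, nat_lit 13392, R8_37, R6_41, R9_279⟩, ⟨nat_lit 5, nat_lit 3840, nat_lit 10512, nat_lit 2976, nat_lit 1776, nat_lit 11520, R8_62, R4_37, R0_240⟩, ⟨nat_lit 7, nat_lit 4224, nat_lit 9600, nat_lit 2640, nat_lit 2112, nat_lit 720, R8_55, R8_44, R0_15⟩]⟩]⟩,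
 ⟨nat_lit 6, [⟨nat_lit 4, [⟨nat_lit 4, nat_lit 9360, nat_lit 672, nat_lit 14256, nat_lit 16800, nat_lit 4800, R13_297, R13_350, R8_100⟩, ⟨nat_lit 5, nat_lit 10752, nat_lit 1440, nat_lit 14352, nat_lit 12624, nat_lit 4992, R13_299, R3_263, R5_104⟩, ⟨nat_lit 6, nat_lit 10128, nat_lit 1872, nat_lit 14304, nat_lit 1392, nat_lit 4128, R13_298, R3_29, R9_86⟩]⟩, ⟨nat_lit 5, [⟨nat_lit 4, nat_lit 9408, nat_lit 6192, nat_lit 10608, nat_lit 16896, nat_lit 14544, R3_221, R13_352, R5_303⟩, ⟨nat_lit 5, nat_lit 10800, nat_lit 6864, nat_lit 10704, nat_lit 12720, nat_lit 18048, R3_223, R3_265, R11_376⟩, ⟨nat_lit 6, nat_lit 10320, nat_lit 7296, nat_lit 10656, nat_lit 2016, nat_lit 2592, R3_222, R3_42, R0_54⟩]⟩, ⟨nat_lit 6, [⟨nat_lit 6, nat_lit 10272, nat_lit 11664, nat_lit 3456, nat_lit 1632, nat_lit 2496, R3_72, R3_34, R0_52⟩]⟩,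 ⟨nat_lit 7, [⟨nat_lit 4, nat_lit 9552, nat_lit 9072, nat_lit 11952, nat_lit 16848, nat_lit 13632, R9_249, R13_351, R9_284⟩, ⟨nat_lit 5, nat_lit 10896, nat_lit 10560, nat_lit 12048, nat_lit 12672, nat_lit 11760, R9_251, R3_264, R0_245⟩, ⟨nat_lit 7, nat_lit 11232, nat_lit 9792, nat_lit 12000, nat_lit 14304, nat_lit 8544, R9_250, R9_298, R0_178⟩]⟩]⟩,
 ⟨nat_lit 7, [⟨nat_lit 7, [⟨nat_lit 7, nat_lit 12672, nat_lit 9696, nat_lit 13680, nat_lit 15216, nat_lit 5952, R5_285, R5_317, R0_124⟩]⟩]⟩], [⟨nat_lit 2, [⟨nat_lit 6, [⟨nat_lit 6, nat_lit 15360, nat_lit 1872, nat_lit 11664, nat_lit 12672, nat_lit 19632, R2_243, R2_264, R11_409⟩]⟩]⟩,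
 ⟨nat_lit 4, [⟨nat_lit 4, [⟨nat_lit 4, nat_lit 3120, nat_lit 0, nat_lit 4032, nat_lit 1536, nat_lit 3360, R6_84, R6_32, R4_70⟩]⟩, ⟨nat_lit 7, [⟨nat_lit 4, nat_lit 3312, nat_lit 720, nat_lit 1824, nat_lit 1920, nat_lit 11664, R8_38, R6_40, R3_243⟩, ⟨nat_lit 7, nat_lit 4176, nat_lit 768, nat_lit 2688, nat_lit 2064, nat_lit 16512, R8_56, R8_43, R10_344⟩]⟩]⟩,
 ⟨nat_lit 6, [⟨nat_lit 4, [⟨nat_lit 4, nat_lit 9312, nat_lit 192, nat_lit 14448, nat_lit 16656, nat_lit 9360, R13_301, R13_347, R4_195⟩, ⟨nat_lit 6, nat_lit 10080, nat_lit 240, nat_lit 14496, nat_lit 1344, nat_lit 4848, R13_302, R3_28, R5_101⟩]⟩, ⟨nat_lit 6, [⟨nat_lit 6, nat_lit 10224, nat_lit 2352, nat_lit 3504, nat_lit 1584, nat_lit 19584, R3_73, R3_33, R11_408⟩]⟩, ⟨nat_lit 7, [⟨nat_lit 4, nat_lit 9504, nat_lit 1200, nat_lit 12192, nat_lit 16704, nat_lit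 12000, R9_254, R13_348, R3_250⟩, ⟨nat_lit 6, nat_lit 10416, nat_lit 1296, nat_lit 12240, nat_lit 1968, nat_lit 13056, R9_255, R3_41, R0_272⟩, ⟨nat_lit 7, nat_lit 11184, nat_lit 1248, nat_lit 12288, nat_lit 14256, nat_lit 16608, R9_256, R9_297, R10_346⟩]⟩]⟩,
 ⟨nat_lit 7, [⟨nat_lit 7, [⟨nat_lit 7, nat_lit 12624, nat_lit 1056, nat_lit 13728, nat_lit 15120, nat_lit 16560, R5_286, R5_315, R10_345⟩]⟩]⟩]], [], [], [], [[], [], [], [], [⟨nat_lit 4, [⟨nat_lit 4, [⟨nat_lit 5, nat_lit 1680, nat_lit 13584, nat_lit 4080, nat_lit 1296, nat_lit 9648, R6_85, R7_27, R4_201⟩]⟩, ⟨nat_lit 7, [⟨nat_lit 5, nat_lit 1824, nat_lit 14352, nat_lit 4032, nat_lit 1392, nat_lit 14352, R8_84, R7_29, R3_299⟩]⟩]⟩,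
 ⟨nat_lit 6, [⟨nat_lit 4, [⟨nat_lit 5, nat_lit 8304, nat_lit 13728, nat_lit 14208, nat_lit 144, nat_lit 9888, R13_296, R2_3, R4_206⟩]⟩, ⟨nat_lit 7, [⟨nat_lit 5, nat_lit 8448, nat_lit 14496, nat_lit 11904, nat_lit 384, nat_lit 14400, R9_248, R2_8, R3_300⟩]⟩]⟩], [⟨nat_lit 4, [⟨nat_lit 4, [⟨nat_lit 5, nat_lit 1728, nat_lit 13152, nat_lit 4128, nat_lit 1344, nat_lit 4512, R6_86, R7_28, R5_94⟩]⟩, ⟨nat_lit 5, [⟨nat_lit 5, nat_lit 1776, nat_lit 13200, nat_lit 4272, nat_lit 1536, nat_lit 17376, R4_89, R7_32, R11_362⟩]⟩, ⟨nat_lit 7, [⟨nat_lit 5, nat_lit 1872, nat_lit 13248, nat_lit 4128, nat_lit 1488, nat_lit 11280, R8_86, R7_31, R0_235⟩]⟩]⟩,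
 ⟨nat_lit 6, [⟨nat_lit 4, [⟨nat_lit 5, nat_lit 8352, nat_lit 13296, nat_lit 14400, nat_lit 192, nat_lit 4896, R13_300, R2_4, R5_102⟩]⟩, ⟨nat_lit 5, [⟨nat_lit 5, nat_lit 8400, nat_lit 13344, nat_lit 10752, nat_lit 624, nat_lit 17520, R3_224, R2_13, R11_365⟩]⟩, ⟨nat_lit 7, [⟨nat_lit 5, nat_lit 8496, nat_lit 13392, nat_lit 12096, nat_lit 480, nat_lit 11376, R9_252, R2_10, R0_237⟩]⟩]⟩], [], [⟨nat_lit 4, [⟨nat_lit 7, [⟨nat_lit 5, nat_lit 1920, nat_lit 11280, nat_lit 4080, nat_lit 1440, nat_lit 13248, R8_85, R7_30, R10_276⟩]⟩]⟩,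
 ⟨nat_lit 6, [⟨nat_lit 7, [⟨nat_lit 5, nat_lit 8544, nat_lit 11328, nat_lit 12144, nat_lit 432, nat_lit 13536, R9_253, R2_9, R10_282⟩]⟩]⟩]]], [[[], [], [], [], [], [], [⟨nat_lit 3, [⟨nat_lit 0, [⟨nat_lit 0, nat_lit 15936, nat_lit 3120, nat_lit 10992, nat_lit 12576, nat_lit 8736, R4_229, R6_262, R4_182⟩, ⟨nat_lit 3, nat_lit 16656, nat_lit 3984, nat_lit 11376, nat_lit 12912, nat_lit 5184, R4_237, R4_269, R5_108⟩]⟩, ⟨nat_lit 2, [⟨nat_lit 0, nat_lit 15984, nat_lit 3168, nat_lit 12816, nat_lit 12624, nat_lit 11136, R5_267, R6_263, R3_232⟩, ⟨nat_lit 2, nat_lit 16224, nat_lit 6384, nat_lit 12960, nat_lit 14544, nat_lit 14496, R5_270, R8_303, R10_302⟩, ⟨nat_lit 3, nat_lit 16704, nat_lit 4032, nat_lit 13056, nat_lit 12960, nat_lit 12192, R5_272, R4_270, R0_254⟩]⟩]⟩,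
 ⟨nat_lit 4, [⟨nat_lit 3, [⟨nat_lit 7, nat_lit 2880, nat_lit 12000, nat_lit 576, nat_lit 14160, nat_lit 13200, R7_12, R6_295, R1_275⟩]⟩, ⟨nat_lit 7, [⟨nat_lit 7, nat_lit 2928, nat_lit 12144, nat_lit 384, nat_lit 14112, nat_lit 14928, R4_8, R6_294, R10_311⟩]⟩]⟩,
 ⟨nat_lit 6, [⟨nat_lit 7, [⟨nat_lit 4, nat_lit 8736, nat_lit 14400, nat_lit 2544, nat_lit 12288, nat_lit 11088, R5_53, R6_256, R3_231⟩, ⟨nat_lit 6, nat_lit 8928, nat_lit 15552, nat_lit 2736, nat_lit 12528, nat_lit 12336, R5_57, R4_261, R0_257⟩, ⟨nat_lit 7, nat_lit 9024, nat_lit 14976, nat_lit 2928, nat_lit 14880, nat_lit 14976, R5_61, R8_310, R10_312⟩]⟩]⟩,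
 ⟨nat_lit 7, [⟨nat_lit 0, [⟨nat_lit 3, nat_lit 12144, nat_lit 12480, nat_lit 11808, nat_lit 15168, nat_lit 14832, R7_246, R7_316, R5_309⟩]⟩, ⟨nat_lit 3, [⟨nat_lit 3, nat_lit 12192, nat_lit 12576, nat_lit 12576, nat_lit 15216, nat_lit 18384, R14_262, R7_317, R11_383⟩, ⟨nat_lit 7, nat_lit 12336, nat_lit 13728, nat_lit 12624, nat_lit 13920, nat_lit 13248, R14_263, R4_290, R1_276⟩]⟩]⟩]], [], [[], [], [], [], [⟨nat_lit 4, [⟨nat_lit 3, [⟨nat_lit 7, nat_lit 4272, nat_lit 12816, nat_lit 2592, nat_lit 1008, nat_lit 12816, R7_54, R8_21, R2_267⟩]⟩, ⟨nat_lit 7, [⟨nat_lit 4, nat_lit 3456, nat_lit 3264, nat_lit 2208, nat_lit 1728, nat_lit 17568, R4_46, R6_36, R13_366⟩, ⟨nat_lit 5, nat_lit 3936, nat_lit 4752, nat_lit 2928, nat_lit 1632, nat_lit 13104, R4_61, R4_34, R3_273⟩, ⟨nat_lit 7, nat_lit 4416, nat_lit 4128, nat_lit 2640,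 nat_lit 672, nat_lit 6384, R4_55, R8_14, R3_133⟩]⟩]⟩,
 ⟨nat_lit 6, [⟨nat_lit 7, [⟨nat_lit 4, nat_lit 9600, nat_lit 3552, nat_lit 2592, nat_lit 16368, nat_lit 17616, R5_54, R13_341, R13_367⟩, ⟨nat_lit 5, nat_lit 10944, nat_lit 4944, nat_lit 3168, nat_lit 12432, nat_lit 13152, R5_66, R3_259, R3_274⟩, ⟨nat_lit 6, nat_lit 10464, nat_lit 6528, nat_lit 2784, nat_lit 1776, nat_lit 14592, R5_58, R3_37, R9_304⟩, ⟨nat_lit 7, nat_lit 11280, nat_lit 4416, nat_lit 3024, nat_lit 14064, nat_lit 6624, R5_63, R9_293, R3_138⟩]⟩]⟩,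
 ⟨nat_lit 7, [⟨nat_lit 3, [⟨nat_lit 7, nat_lit 12720, nat_lit 13152, nat_lit 12816, nat_lit 14880, nat_lit 12864, R14_267, R5_310, R2_268⟩]⟩]⟩], [], [⟨nat_lit 4, [⟨nat_lit 3, [⟨nat_lit 7, nat_lit 4320, nat_lit 12336, nat_lit 2688, nat_lit 1104, nat_lit 14160, R7_56, R8_23, R1_295⟩]⟩, ⟨nat_lit 7, [⟨nat_lit 4, nat_lit 3504, nat_lit 12720, nat_lit 2304, nat_lit 1776, nat_lit 11616, R4_48, R6_37, R3_242⟩, ⟨nat_lit 7, nat_lit 4464, nat_lit 12864, nat_lit 2688, nat_lit 720, nat_lit 17424, R4_56, R8_15, R10_363⟩]⟩]⟩,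
 ⟨nat_lit 6, [⟨nat_lit 7, [⟨nat_lit 4, nat_lit 9648, nat_lit 15552, nat_lit 2688, nat_lit 16608, nat_lit 11952, R5_56, R13_346, R3_249⟩, ⟨nat_lit 6, nat_lit 10512, nat_lit 15984, nat_lit 2880, nat_lit 1824, nat_lit 13296, R5_60, R3_38, R0_277⟩, ⟨nat_lit 7, nat_lit 11328, nat_lit 15744, nat_lit 3072, nat_lit 14208, nat_lit 17472, R5_64, R9_296, R10_364⟩]⟩]⟩,
 ⟨nat_lit 7, [⟨nat_lit 3, [⟨nat_lit 7, nat_lit 12768, nat_lit 14016, nat_lit 12912, nat_lit 15072, nat_lit 14208, R14_269, R5_314, R1_296⟩]⟩]⟩], [⟨nat_lit 4, [⟨nat_lit 3, [⟨nat_lit 4, nat_lit 3408, nat_lit 13200, nat_lit 2208, nat_lit 1440, nat_lit 12000, R7_46, R6_30, R2_250⟩, ⟨nat_lit 5, nat_lit 3888, nat_lit 15216, nat_lit 2784, nat_lit 1440, nat_lit 12576, R7_58, R4_30, R1_262⟩, ⟨nat_lit 7, nat_lit 4368, nat_lit 14160, nat_lit 2640, nat_lit 1056, nat_lit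 13584, R7_55, R8_22, R12_283⟩]⟩, ⟨nat_lit 7, [⟨nat_lit 4, nat_lit 3552, nat_lit 2736, nat_lit 2256, nat_lit 1824, nat_lit 3072, R4_47, R6_38, R3_64⟩, ⟨nat_lit 5, nat_lit 3984, nat_lit 3456, nat_lit 2976, nat_lit 1680, nat_lit 13968, R4_62, R4_35, R10_291⟩]⟩]⟩,
 ⟨nat_lit 6, [⟨nat_lit 7, [⟨nat_lit 4, nat_lit 9696, nat_lit 3024, nat_lit 2640, nat_lit 16752, nat_lit 8880, R5_55, R13_349, R3_185⟩, ⟨nat_lit 5, nat_lit 10992, nat_lit 3648, nat_lit 3216, nat_lit 12576, nat_lit 14112, R5_67, R3_262, R10_294⟩, ⟨nat_lit 6, nat_lit 10560, nat_lit 5232, nat_lit 2832, nat_lit 1872, nat_lit 3600, R5_59, R3_39, R0_75⟩]⟩]⟩,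
 ⟨nat_lit 7, [⟨nat_lit 3, [⟨nat_lit 7, nat_lit 12816, nat_lit 14496, nat_lit 12864, nat_lit 15168, nat_lit 13632, R14_268, R5_316, R12_284⟩]⟩]⟩]], [[], [], [⟨nat_lit 3, [⟨nat_lit 0, [⟨nat_lit 0, nat_lit 17568, nat_lit 4416, nat_lit 11856, nat_lit 12432, nat_lit 8832, R4_247, R4_259, R7_184⟩]⟩, ⟨nat_lit 2, [⟨nat_lit 0, nat_lit 17664, nat_lit 5616, nat_lit 12768, nat_lit 12624, nat_lit 7728, R5_266, R4_263, R2_161⟩, ⟨nat_lit 2, nat_lit 17856, nat_lit 5952, nat_lit 12912, nat_lit 16416, nat_lit 8256, R5_269, R5_342, R1_172⟩]⟩]⟩,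
 ⟨nat_lit 4, [⟨nat_lit 3, [⟨nat_lit 3, nat_lit 4512, nat_lit 17424, nat_lit 2016, nat_lit 1200, nat_lit 12336, R7_42, R7_25, R1_257⟩]⟩]⟩,
 ⟨nat_lit 7, [⟨nat_lit 0, [⟨nat_lit 0, nat_lit 12912, nat_lit 18336, nat_lit 12912, nat_lit 13728, nat_lit 14880, R7_269, R7_286, R7_310⟩]⟩, ⟨nat_lit 3, [⟨nat_lit 0, nat_lit 13008, nat_lit 19152, nat_lit 12720, nat_lit 13920, nat_lit 12576, R14_265, R7_290, R2_262⟩, ⟨nat_lit 3, nat_lit 13152, nat_lit 19344, nat_lit 12768, nat_lit 17664, nat_lit 13920, R14_266, R14_368, R1_290⟩]⟩]⟩], [], [], [], [⟨nat_lit 3, [⟨nat_lit 0, [⟨nat_lit 0, nat_lit 17616, nat_lit 2592, nat_lit 11040, nat_lit 13056, nat_lit 8928, R4_230, R4_272, R4_186⟩]⟩, ⟨nat_lit 2, [⟨nat_lit 0, nat_lit 17712, nat_lit 2640, nat_lit 12864, nat_lit 13152, nat_lit 15168, R5_268, R4_274, R3_316⟩, ⟨nat_lit 2, nat_lit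 17904, nat_lit 5088, nat_lit 13008, nat_lit 16272, nat_lit 14688, R5_271, R5_339, R10_306⟩]⟩]⟩,
 ⟨nat_lit 4, [⟨nat_lit 3, [⟨nat_lit 3, nat_lit 4560, nat_lit 12336, nat_lit 1968, nat_lit 1248, nat_lit 18480, R7_41, R7_26, R11_385⟩, ⟨nat_lit 7, nat_lit 4608, nat_lit 12576, nat_lit 1008, nat_lit 1440, nat_lit 15216, R7_21, R4_30, R1_317⟩]⟩, ⟨nat_lit 7, [⟨nat_lit 7, nat_lit 4656, nat_lit 12720, nat_lit 1296, nat_lit 624, nat_lit 18432, R4_27, R4_13, R10_384⟩]⟩]⟩,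
 ⟨nat_lit 6, [⟨nat_lit 7, [⟨nat_lit 7, nat_lit 11376, nat_lit 15984, nat_lit 2976, nat_lit 240, nat_lit 18480, R5_62, R5_5, R10_385⟩]⟩]⟩,
 ⟨nat_lit 7, [⟨nat_lit 0, [⟨nat_lit 0, nat_lit 12960, nat_lit 13056, nat_lit 11472, nat_lit 14160, nat_lit 13536, R7_239, R7_295, R4_282⟩, ⟨nat_lit 3, nat_lit 13104, nat_lit 13824, nat_lit 11856, nat_lit 17712, nat_lit 15024, R7_247, R14_369, R5_313⟩]⟩, ⟨nat_lit 3, [⟨nat_lit 3, nat_lit 13200, nat_lit 13920, nat_lit 12672, nat_lit 17760, nat_lit 18528, R14_264, R14_370, R11_386⟩]⟩]⟩]], [[], [], [], [⟨nat_lit 4, [⟨nat_lit 3, [⟨nat_lit 1, nat_lit 576, nat_lit 12000, nat_lit 2880, nat_lit 1440, nat_lit 13200, R7_60, R6_30, R1_275⟩]⟩]⟩]], [], [[], [], [], [⟨nat_lit 4, [⟨nat_lit 3, [⟨nat_lit 1, nat_lit 1008, nat_lit 12576, nat_lit 4608, nat_lit 1440, nat_lit 15216, R7_96, R4_30,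 R1_317⟩, ⟨nat_lit 5, nat_lit 1968, nat_lit 12336, nat_lit 4560, nat_lit 1248, nat_lit 17424, R7_95, R7_26, R11_363⟩]⟩]⟩], [], [], [], [⟨nat_lit 4, [⟨nat_lit 3, [⟨nat_lit 5, nat_lit 2016, nat_lit 17424, nat_lit 4512, nat_lit 1200, nat_lit 12336, R7_94, R7_25, R1_257⟩]⟩, ⟨nat_lit 7, [⟨nat_lit 5, nat_lit 2064, nat_lit 17376, nat_lit 4272, nat_lit 1152, nat_lit 13200, R4_89, R7_24, R10_275⟩]⟩]⟩,
 ⟨nat_lit 6, [⟨nat_lit 7, [⟨nat_lit 5, nat_lit 8592, nat_lit 17472, nat_lit 3120, nat_lit 336, nat_lit 13488, R5_65, R2_7, R10_281⟩]⟩]⟩]], [[⟨nat_lit 4, [⟨nat_lit 3, [⟨nat_lit 1, nat_lit 2592, nat_lit 12816, nat_lit 4272, nat_lit 1008, nat_lit 12816, R7_89, R8_21, R2_267⟩]⟩]⟩,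
 ⟨nat_lit 7, [⟨nat_lit 0, [⟨nat_lit 1, nat_lit 11808, nat_lit 12480, nat_lit 12144, nat_lit 14832, nat_lit 15168, R7_253, R5_309, R7_316⟩]⟩, ⟨nat_lit 3, [⟨nat_lit 1, nat_lit 11904, nat_lit 12864, nat_lit 12384, nat_lit 14880, nat_lit 13152, R14_258, R5_310, R2_274⟩]⟩]⟩], [], [⟨nat_lit 4, [⟨nat_lit 3, [⟨nat_lit 0, nat_lit 2208, nat_lit 13200, nat_lit 3408, nat_lit 1440, nat_lit 12000, R7_71, R6_30, R2_250⟩, ⟨nat_lit 1, nat_lit 2640, nat_lit 14160, nat_lit 4368, nat_lit 1056, nat_lit 13584, R7_91, R8_22, R12_283⟩, ⟨nat_lit 3, nat_lit 2784, nat_lit 15216, nat_lit 3888, nat_lit 1440, nat_lit 12576, R7_81, R4_30, R1_262⟩]⟩]⟩,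
 ⟨nat_lit 7, [⟨nat_lit 0, [⟨nat_lit 0, nat_lit 11472, nat_lit 13056, nat_lit 12960, nat_lit 13536, nat_lit 14688, R7_270, R4_282, R7_306⟩, ⟨nat_lit 1, nat_lit 11856, nat_lit 13824, nat_lit 13104, nat_lit 15024, nat_lit 528, R7_273, R5_313, R14_11⟩]⟩, ⟨nat_lit 3, [⟨nat_lit 0, nat_lit 11520, nat_lit 13248, nat_lit 12480, nat_lit 13920, nat_lit 13728, R14_260, R4_290, R2_286⟩, ⟨nat_lit 1, nat_lit 11952, nat_lit 14208, nat_lit 12528, nat_lit 15072, nat_lit 13920, R14_261, R5_314, R12_290⟩]⟩]⟩], [⟨nat_lit 4, [⟨nat_lit 3, [⟨nat_lit 1, nat_lit 2688, nat_lit 12336, nat_lit 4320, nat_lit 1104, nat_lit 14160, R7_90, R8_23, R1_295⟩]⟩]⟩,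
 ⟨nat_lit 7, [⟨nat_lit 3, [⟨nat_lit 1, nat_lit 12000, nat_lit 12384, nat_lit 12432, nat_lit 15168, nat_lit 14496, R14_259, R5_316, R1_302⟩]⟩]⟩]]], [[], [], [], [], [[⟨nat_lit 4, [⟨nat_lit 1, [⟨nat_lit 1, nat_lit 0, nat_lit 3504, nat_lit 3936, nat_lit 1488, nat_lit 1104, R6_82, R6_31, R2_23⟩]⟩]⟩,
 ⟨nat_lit 5, [⟨nat_lit 0, [⟨nat_lit 1, nat_lit 4848, nat_lit 8544, nat_lit 10944, nat_lit 1008, nat_lit 2976, R6_228, R13_21, R7_62⟩]⟩, ⟨nat_lit 1, [⟨nat_lit 1, nat_lit 4944, nat_lit 8736, nat_lit 3744, nat_lit 1104, nat_lit 1200, R13_78, R13_23, R2_25⟩]⟩]⟩], [⟨nat_lit 4, [⟨nat_lit 1, [⟨nat_lit 1, nat_lit 96, nat_lit 48, nat_lit 3984, nat_lit 1584, nat_lit 576, R6_83, R6_33, R1_12⟩]⟩]⟩,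
 ⟨nat_lit 5, [⟨nat_lit 1, [⟨nat_lit 1, nat_lit 5040, nat_lit 4800, nat_lit 3792, nat_lit 1200, nat_lit 672, R13_79, R13_25, R1_14⟩]⟩]⟩], [⟨nat_lit 4, [⟨nat_lit 1, [⟨nat_lit 1, nat_lit 48, nat_lit 3360, nat_lit 4032, nat_lit 1536, nat_lit 0, R6_84, R6_32, R12_0⟩]⟩]⟩,
 ⟨nat_lit 5, [⟨nat_lit 0, [⟨nat_lit 0, nat_lit 4704, nat_lit 8640, nat_lit 11136, nat_lit 12192, nat_lit 15504, R6_232, R6_254, R7_323⟩, ⟨nat_lit 1, nat_lit 4896, nat_lit 9216, nat_lit 11232, nat_lit 1056, nat_lit 1968, R6_234, R13_22, R14_41⟩]⟩, ⟨nat_lit 1, [⟨nat_lit 1, nat_lit 4992, nat_lit 9360, nat_lit 3840, nat_lit 1152, nat_lit 192, R13_80, R13_24, R12_4⟩]⟩]⟩]], [[⟨nat_lit 5, [⟨nat_lit 0, [⟨nat_lit 1, nat_lit 5712, nat_lit 144, nat_lit 10992, nat_lit 1200, nat_lit 4032, R6_229, R3_25, R7_84⟩]⟩, ⟨nat_lit 1, [⟨nat_lit 1, nat_lit 5808, nat_lit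 4896, nat_lit 3888, nat_lit 1296, nat_lit 2400, R13_81, R3_27, R2_50⟩]⟩]⟩], [⟨nat_lit 5, [⟨nat_lit 1, [⟨nat_lit 1, nat_lit 5904, nat_lit 4032, nat_lit 3936, nat_lit 1392, nat_lit 1872, R13_82, R3_29, R1_39⟩]⟩]⟩], [⟨nat_lit 5, [⟨nat_lit 0, [⟨nat_lit 0, nat_lit 5520, nat_lit 4416, nat_lit 11184, nat_lit 12384, nat_lit 16272, R6_233, R4_258, R7_339⟩, ⟨nat_lit 1, nat_lit 5760, nat_lit 4464, nat_lit 11280, nat_lit 1248, nat_lit 2016, R6_235, R3_26, R14_42⟩]⟩, ⟨nat_lit 1, [⟨nat_lit 1, nat_lit 5856, nat_lit 4848, nat_lit 3984, nat_lit 1344, nat_lit 240, R13_83, R3_28, R12_5⟩]⟩]⟩]], [[⟨nat_lit 4, [⟨nat_lit 1, [⟨nat_lit 1, nat_lit 624, nat_lit 8160, nat_lit 4176, nat_lit 1488, nat_lit 1920, R6_87, R4_31, R2_40⟩, ⟨nat_lit 5, nat_lit 1056, nat_lit 9648, nat_lit 4080, nat_lit 1584, nat_lit 13584, R6_85, R7_33, R3_283⟩]⟩]⟩,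
 ⟨nat_lit 5, [⟨nat_lit 0, [⟨nat_lit 1, nat_lit 6576, nat_lit 1584, nat_lit 11040, nat_lit 12336, nat_lit 3600, R6_230, R3_257, R7_75⟩, ⟨nat_lit 5, nat_lit 7008, nat_lit 3600, nat_lit 11088, nat_lit 96, nat_lit 3504, R6_231, R2_2, R4_73⟩]⟩, ⟨nat_lit 1, [⟨nat_lit 1, nat_lit 6624, nat_lit 8304, nat_lit 4128, nat_lit 12480, nat_lit 1968, R13_86, R3_260, R2_41⟩, ⟨nat_lit 5, nat_lit 7056, nat_lit 9888, nat_lit 4032, nat_lit 144, nat_lit 13728, R13_84, R2_3, R3_286⟩]⟩]⟩], [⟨nat_lit 4, [⟨nat_lit 1, [⟨nat_lit 1, nat_lit 672, nat_lit 4608, nat_lit 4224, nat_lit 1536, nat_lit 1392, R6_88, R4_32, R1_29⟩, ⟨nat_lit 5, nat_lit 1104, nat_lit 4512, nat_lit 4128, nat_lit 1632, nat_lit 1296, R6_86, R7_34, R10_27⟩]⟩]⟩,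
 ⟨nat_lit 5, [⟨nat_lit 1, [⟨nat_lit 1, nat_lit 6672, nat_lit 4992, nat_lit 4176, nat_lit 12624, nat_lit 1440, R13_87, R3_263, R1_30⟩, ⟨nat_lit 5, nat_lit 7104, nat_lit 4896, nat_lit 4080, nat_lit 192, nat_lit 1392, R13_85, R2_4, R10_29⟩]⟩]⟩]]], [[], [[], [], [⟨nat_lit 1, [⟨nat_lit 0, [⟨nat_lit 0, nat_lit 14160, nat_lit 13056, nat_lit 12960, nat_lit 13536, nat_lit 12240, R7_270, R4_282, R7_255⟩]⟩, ⟨nat_lit 2, [⟨nat_lit 0, nat_lit 14208, nat_lit 13104, nat_lit 10512, nat_lit 13680, nat_lit 10752, R2_219, R4_285, R2_224⟩, ⟨nat_lit 2, nat_lit 14448, nat_lit 13152, nat_lit 10608, nat_lit 15360, nat_lit 11136, R2_221, R3_320, R1_232⟩]⟩]⟩]], [], [], [], [[⟨nat_lit 1, [⟨nat_lit 0, [⟨nat_lit 1, nat_lit 13872, nat_lit 14832, nat_lit 12864, nat_lit 12480, nat_lit 12384, R7_268, R2_260, R7_258⟩]⟩, ⟨nat_lit 1, [⟨nat_lit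 1, nat_lit 14016, nat_lit 15312, nat_lit 11568, nat_lit 12528, nat_lit 10992, R2_241, R2_261, R2_229⟩]⟩]⟩,
 ⟨nat_lit 5, [⟨nat_lit 0, [⟨nat_lit 1, nat_lit 5952, nat_lit 14784, nat_lit 11808, nat_lit 1440, nat_lit 12480, R4_246, R3_30, R7_260⟩]⟩, ⟨nat_lit 1, [⟨nat_lit 1, nat_lit 6048, nat_lit 15264, nat_lit 3408, nat_lit 1536, nat_lit 11088, R3_71, R3_32, R2_231⟩]⟩]⟩], [⟨nat_lit 1, [⟨nat_lit 1, [⟨nat_lit 1, nat_lit 14112, nat_lit 12432, nat_lit 11616, nat_lit 12720, nat_lit 11568, R2_242, R2_265, R1_241⟩]⟩]⟩,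
 ⟨nat_lit 5, [⟨nat_lit 1, [⟨nat_lit 1, nat_lit 6144, nat_lit 2496, nat_lit 3456, nat_lit 1632, nat_lit 11664, R3_72, R3_34, R1_243⟩]⟩]⟩], [⟨nat_lit 1, [⟨nat_lit 0, [⟨nat_lit 0, nat_lit 13728, nat_lit 18336, nat_lit 12912, nat_lit 13728, nat_lit 12096, R7_269, R7_286, R7_252⟩, ⟨nat_lit 1, nat_lit 13920, nat_lit 18384, nat_lit 13008, nat_lit 12576, nat_lit 3504, R7_271, R2_262, R14_73⟩]⟩, ⟨nat_lit 1, [⟨nat_lit 1, nat_lit 14064, nat_lit 18624, nat_lit 11664, nat_lit 12672, nat_lit 1872, R2_243, R2_264, R12_39⟩]⟩, ⟨nat_lit 2, [⟨nat_lit 0, nat_lit 13776, nat_lit 18768, nat_lit 10560, nat_lit 13776, nat_lit 10560, R2_220, R7_287, R2_220⟩, ⟨nat_lit 1, nat_lit 13968, nat_lit 18816, nat_lit 10704, nat_lit 12624, nat_lit 1824, R2_223, R2_263, R12_38⟩, ⟨nat_lit 2, nat_lit 13824, nat_lit 18912, nat_lit 10656, nat_lit 14064,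 nat_lit 10944, R2_222, R2_293, R1_228⟩]⟩]⟩,
 ⟨nat_lit 5, [⟨nat_lit 0, [⟨nat_lit 0, nat_lit 5568, nat_lit 4416, nat_lit 11856, nat_lit 12432, nat_lit 16416, R4_247, R4_259, R7_342⟩, ⟨nat_lit 1, nat_lit 6000, nat_lit 4464, nat_lit 11904, nat_lit 1488, nat_lit 3984, R4_248, R3_31, R14_83⟩]⟩, ⟨nat_lit 1, [⟨nat_lit 1, nat_lit 6096, nat_lit 4848, nat_lit 3504, nat_lit 1584, nat_lit 2352, R3_73, R3_33, R12_49⟩]⟩]⟩]]], [[], [], [], [], [[], [⟨nat_lit 4, [⟨nat_lit 1, [⟨nat_lit 1, nat_lit 144, nat_lit 14400, nat_lit 4224, nat_lit 2016, nat_lit 6096, R4_88, R6_42, R1_127⟩]⟩]⟩,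
 ⟨nat_lit 5, [⟨nat_lit 1, [⟨nat_lit 1, nat_lit 5088, nat_lit 14544, nat_lit 10608, nat_lit 1632, nat_lit 6192, R3_221, R13_34, R1_129⟩]⟩]⟩]], [[], [⟨nat_lit 5, [⟨nat_lit 1, [⟨nat_lit 1, nat_lit 6192, nat_lit 2592, nat_lit 10656, nat_lit 2016, nat_lit 7296, R3_222, R3_42, R1_152⟩]⟩]⟩]], [[], [⟨nat_lit 4, [⟨nat_lit 1, [⟨nat_lit 1, nat_lit 720, nat_lit 17904, nat_lit 4320, nat_lit 1824, nat_lit 6816, R4_90, R4_38, R1_142⟩, ⟨nat_lit 5, nat_lit 1152, nat_lit 17376, nat_lit 4272, nat_lit 2064, nat_lit 7584, R4_89, R7_43, R10_158⟩]⟩, ⟨nat_lit 5, [⟨nat_lit 5, nat_lit 1200, nat_lit 17424, nat_lit 4512, nat_lit 2016, nat_lit 12336, R7_94, R7_42, R1_257⟩]⟩]⟩,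
 ⟨nat_lit 5, [⟨nat_lit 1, [⟨nat_lit 1, nat_lit 6720, nat_lit 18048, nat_lit 10704, nat_lit 12720, nat_lit 6864, R3_223, R3_265, R1_143⟩, ⟨nat_lit 5, nat_lit 7152, nat_lit 17520, nat_lit 10752, nat_lit 624, nat_lit 7680, R3_224, R2_13, R10_160⟩]⟩, ⟨nat_lit 5, [⟨nat_lit 5, nat_lit 7200, nat_lit 17568, nat_lit 2928, nat_lit 576, nat_lit 12432, R2_61, R2_12, R1_259⟩]⟩]⟩,
 ⟨nat_lit 6, [⟨nat_lit 5, [⟨nat_lit 5, nat_lit 8064, nat_lit 17760, nat_lit 2976, nat_lit 528, nat_lit 12384, R2_62, R2_11, R1_258⟩]⟩]⟩], [], [], [], [⟨nat_lit 4, [⟨nat_lit 5, [⟨nat_lit 5, nat_lit 1248, nat_lit 12336, nat_lit 4560, nat_lit 1968, nat_lit 17424, R7_95, R7_41, R11_363⟩]⟩]⟩,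
 ⟨nat_lit 5, [⟨nat_lit 5, [⟨nat_lit 5, nat_lit 7248, nat_lit 12384, nat_lit 2976, nat_lit 528, nat_lit 17760, R2_62, R2_11, R11_370⟩]⟩]⟩,
 ⟨nat_lit 6, [⟨nat_lit 5, [⟨nat_lit 5, nat_lit 8112, nat_lit 12432, nat_lit 2928, nat_lit 576, nat_lit 17568, R2_61, R2_12, R11_366⟩]⟩]⟩]]], [[], [], [], [], [[⟨nat_lit 4, [⟨nat_lit 0, [⟨nat_lit 1, nat_lit 192, nat_lit 15312, nat_lit 2352, nat_lit 1632, nat_lit 9072, R6_49, R6_34, R7_189⟩]⟩, ⟨nat_lit 1, [⟨nat_lit 1, nat_lit 288, nat_lit 15408, nat_lit 3744, nat_lit 1872, nat_lit 8160, R8_78, R6_39, R2_170⟩]⟩, ⟨nat_lit 3, [⟨nat_lit 1, nat_lit 432, nat_lit 15360, nat_lit 2208, nat_lit 1728, nat_lit 3264, R4_46, R6_36, R2_68⟩]⟩]⟩,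
 ⟨nat_lit 5, [⟨nat_lit 0, [⟨nat_lit 1, nat_lit 5136, nat_lit 15696, nat_lit 10992, nat_lit 1248, nat_lit 9168, R8_229, R13_26, R7_191⟩]⟩, ⟨nat_lit 1, [⟨nat_lit 1, nat_lit 5232, nat_lit 15792, nat_lit 2832, nat_lit 1488, nat_lit 8256, R9_59, R13_31, R2_172⟩]⟩, ⟨nat_lit 3, [⟨nat_lit 1, nat_lit 5376, nat_lit 15744, nat_lit 2592, nat_lit 1344, nat_lit 3552, R5_54, R13_28, R2_74⟩]⟩]⟩], [⟨nat_lit 4, [⟨nat_lit 1, [⟨nat_lit 1, nat_lit 384, nat_lit 13392, nat_lit 3792, nat_lit 1968, nat_lit 8976, R8_79, R6_41, R1_187⟩]⟩]⟩,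
 ⟨nat_lit 5, [⟨nat_lit 1, [⟨nat_lit 1, nat_lit 5328, nat_lit 13632, nat_lit 2880, nat_lit 1584, nat_lit 9072, R9_60, R13_33, R1_189⟩]⟩]⟩], [⟨nat_lit 4, [⟨nat_lit 0, [⟨nat_lit 1, nat_lit 240, nat_lit 11568, nat_lit 2400, nat_lit 1680, nat_lit 2352, R6_50, R6_35, R14_49⟩]⟩, ⟨nat_lit 1, [⟨nat_lit 1, nat_lit 336, nat_lit 11664, nat_lit 3840, nat_lit 1920, nat_lit 720, R8_80, R6_40, R12_15⟩]⟩, ⟨nat_lit 3, [⟨nat_lit 1, nat_lit 480, nat_lit 11616, nat_lit 2304, nat_lit 1776, nat_lit 2688, R4_48, R6_37, R12_56⟩]⟩]⟩,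
 ⟨nat_lit 5, [⟨nat_lit 0, [⟨nat_lit 0, nat_lit 4752, nat_lit 11040, nat_lit 11280, nat_lit 12240, nat_lit 15600, R8_235, R6_255, R7_325⟩, ⟨nat_lit 1, nat_lit 5184, nat_lit 11904, nat_lit 11424, nat_lit 1296, nat_lit 2832, R8_238, R13_27, R14_59⟩]⟩, ⟨nat_lit 1, [⟨nat_lit 1, nat_lit 5280, nat_lit 12000, nat_lit 2928, nat_lit 1536, nat_lit 1200, R9_61, R13_32, R12_25⟩]⟩, ⟨nat_lit 3, [⟨nat_lit 0, nat_lit 4800, nat_lit 11088, nat_lit 2544, nat_lit 12288, nat_lit 14400, R5_53, R6_256, R2_300⟩, ⟨nat_lit 1, nat_lit 5424, nat_lit 11952, nat_lit 2688, nat_lit 1392, nat_lit 4032, R5_56, R13_29, R12_84⟩]⟩]⟩], [⟨nat_lit 4, [⟨nat_lit 3, [⟨nat_lit 1, nat_lit 528, nat_lit 3072, nat_lit 2256, nat_lit 1824, nat_lit 2736, R4_47, R6_38, R1_57⟩]⟩]⟩,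
 ⟨nat_lit 5, [⟨nat_lit 3, [⟨nat_lit 1, nat_lit 5472, nat_lit 8880, nat_lit 2640, nat_lit 1440, nat_lit 3024, R5_55, R13_30, R1_63⟩]⟩]⟩]], [[⟨nat_lit 5, [⟨nat_lit 0, [⟨nat_lit 1, nat_lit 6240, nat_lit 14016, nat_lit 11040, nat_lit 1680, nat_lit 11040, R8_230, R3_35, R7_230⟩]⟩, ⟨nat_lit 1, [⟨nat_lit 1, nat_lit 6336, nat_lit 14352, nat_lit 2976, nat_lit 1920, nat_lit 10032, R9_62, R3_40, R2_209⟩]⟩, ⟨nat_lit 3, [⟨nat_lit 1, nat_lit 6432, nat_lit 14592, nat_lit 2784, nat_lit 1776, nat_lit 6528, R5_58, R3_37, R2_136⟩]⟩]⟩], [], [⟨nat_lit 5, [⟨nat_lit 0, [⟨nat_lit 0, nat_lit 5616, nat_lit 12144, nat_lit 11328, nat_lit 12480, nat_lit 16320, R8_236, R4_260, R7_340⟩, ⟨nat_lit 1, nat_lit 6288, nat_lit 12720, nat_lit 11472, nat_lit 1728, nat_lit 2928, R8_239, R3_36, R14_61⟩]⟩, ⟨nat_lit 1, [⟨nat_lit 1, nat_lit 6384, nat_lit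 13056, nat_lit 3024, nat_lit 1968, nat_lit 1296, R9_63, R3_41, R12_27⟩]⟩, ⟨nat_lit 3, [⟨nat_lit 0, nat_lit 5664, nat_lit 12336, nat_lit 2736, nat_lit 12528, nat_lit 15552, R5_57, R4_261, R2_324⟩, ⟨nat_lit 1, nat_lit 6480, nat_lit 13296, nat_lit 2880, nat_lit 1824, nat_lit 4512, R5_60, R3_38, R12_94⟩]⟩]⟩], [⟨nat_lit 5, [⟨nat_lit 3, [⟨nat_lit 1, nat_lit 6528, nat_lit 3600, nat_lit 2832, nat_lit 1872, nat_lit 5232, R5_59, R3_39, R1_109⟩]⟩]⟩]], [[⟨nat_lit 4, [⟨nat_lit 0, [⟨nat_lit 1, nat_lit 768, nat_lit 12336, nat_lit 3264, nat_lit 1584, nat_lit 10608, R6_68, R4_33, R7_221⟩, ⟨nat_lit 5, nat_lit 1296, nat_lit 13584, nat_lit 4080, nat_lit 1680, nat_lit 9648, R6_85, R7_35, R4_201⟩]⟩, ⟨nat_lit 1, [⟨nat_lit 1, nat_lit 816, nat_lit 12768, nat_lit 4176, nat_lit 1728, nat_lit 9696, R8_87, R4_36, R2_202⟩, ⟨nat_lit 5, nat_lit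 1392, nat_lit 14352, nat_lit 4032, nat_lit 1824, nat_lit 14352, R8_84, R7_38, R3_299⟩]⟩, ⟨nat_lit 3, [⟨nat_lit 1, nat_lit 912, nat_lit 13104, nat_lit 2928, nat_lit 1632, nat_lit 4752, R4_61, R4_34, R2_99⟩]⟩]⟩,
 ⟨nat_lit 5, [⟨nat_lit 0, [⟨nat_lit 1, nat_lit 6768, nat_lit 12384, nat_lit 11136, nat_lit 12384, nat_lit 10656, R8_232, R3_258, R7_222⟩, ⟨nat_lit 5, nat_lit 7296, nat_lit 13632, nat_lit 11184, nat_lit 240, nat_lit 9792, R8_233, R2_5, R4_204⟩]⟩, ⟨nat_lit 1, [⟨nat_lit 1, nat_lit 6816, nat_lit 12816, nat_lit 3360, nat_lit 12528, nat_lit 9744, R9_70, R3_261, R2_203⟩, ⟨nat_lit 5, nat_lit 7392, nat_lit 14400, nat_lit 3216, nat_lit 384, nat_lit 14496, R9_67, R2_8, R3_302⟩]⟩, ⟨nat_lit 3, [⟨nat_lit 1, nat_lit 6912, nat_lit 13152, nat_lit 3168, nat_lit 12432, nat_lit 4944, R5_66, R3_259, R2_103⟩]⟩]⟩], [⟨nat_lit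 4, [⟨nat_lit 1, [⟨nat_lit 1, nat_lit 864, nat_lit 11520, nat_lit 4224, nat_lit 1776, nat_lit 10512, R8_88, R4_37, R1_219⟩, ⟨nat_lit 5, nat_lit 1440, nat_lit 11280, nat_lit 4080, nat_lit 1920, nat_lit 10992, R8_85, R7_40, R10_229⟩]⟩]⟩,
 ⟨nat_lit 5, [⟨nat_lit 1, [⟨nat_lit 1, nat_lit 6864, nat_lit 11760, nat_lit 3408, nat_lit 12672, nat_lit 10560, R9_71, R3_264, R1_220⟩, ⟨nat_lit 5, nat_lit 7440, nat_lit 11376, nat_lit 3264, nat_lit 480, nat_lit 11136, R9_68, R2_10, R10_232⟩]⟩]⟩], [], [⟨nat_lit 4, [⟨nat_lit 0, [⟨nat_lit 5, nat_lit 1344, nat_lit 13152, nat_lit 4128, nat_lit 1728, nat_lit 4512, R6_86, R7_36, R5_94⟩]⟩, ⟨nat_lit 1, [⟨nat_lit 5, nat_lit 1488, nat_lit 13248, nat_lit 4128, nat_lit 1872, nat_lit 11280, R8_86, R7_39, R0_235⟩]⟩, ⟨nat_lit 3, [⟨nat_lit 1, nat_lit 960, nat_lit 13968, nat_lit 2976, nat_lit 1680,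 nat_lit 3456, R4_62, R4_35, R1_72⟩, ⟨nat_lit 5, nat_lit 1536, nat_lit 13200, nat_lit 4272, nat_lit 1776, nat_lit 17376, R4_89, R7_37, R11_362⟩]⟩]⟩,
 ⟨nat_lit 5, [⟨nat_lit 0, [⟨nat_lit 5, nat_lit 7344, nat_lit 13440, nat_lit 11232, nat_lit 288, nat_lit 6096, R8_234, R2_6, R5_127⟩]⟩, ⟨nat_lit 1, [⟨nat_lit 5, nat_lit 7488, nat_lit 13536, nat_lit 3312, nat_lit 432, nat_lit 11328, R9_69, R2_9, R0_236⟩]⟩, ⟨nat_lit 3, [⟨nat_lit 1, nat_lit 6960, nat_lit 14112, nat_lit 3216, nat_lit 12576, nat_lit 3648, R5_67, R3_262, R1_76⟩, ⟨nat_lit 5, nat_lit 7536, nat_lit 13488, nat_lit 3120, nat_lit 336, nat_lit 17472, R5_65, R2_7, R11_364⟩]⟩]⟩]], [[⟨nat_lit 4, [⟨nat_lit 0, [⟨nat_lit 1, nat_lit 2256, nat_lit 1200, nat_lit 2976, nat_lit 1152, nat_lit 9744, R6_62, R8_24, R7_203⟩]⟩, ⟨nat_lit 1, [⟨nat_lit 1, nat_lit 2352, nat_lit 7632,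 nat_lit 3888, nat_lit 1344, nat_lit 8784, R8_81, R8_28, R2_183⟩]⟩, ⟨nat_lit 3, [⟨nat_lit 1, nat_lit 2496, nat_lit 6384, nat_lit 2640, nat_lit 1248, nat_lit 4128, R4_55, R8_26, R2_86⟩]⟩]⟩,
 ⟨nat_lit 5, [⟨nat_lit 0, [⟨nat_lit 1, nat_lit 7680, nat_lit 1680, nat_lit 11088, nat_lit 480, nat_lit 9936, R8_231, R9_10, R7_207⟩]⟩, ⟨nat_lit 1, [⟨nat_lit 1, nat_lit 7776, nat_lit 8208, nat_lit 3072, nat_lit 672, nat_lit 8976, R9_64, R9_14, R2_187⟩]⟩, ⟨nat_lit 3, [⟨nat_lit 1, nat_lit 7920, nat_lit 6624, nat_lit 3024, nat_lit 576, nat_lit 4416, R5_63, R9_12, R2_92⟩]⟩]⟩,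
 ⟨nat_lit 7, [⟨nat_lit 0, [⟨nat_lit 1, nat_lit 11568, nat_lit 1440, nat_lit 11808, nat_lit 14784, nat_lit 9840, R4_246, R5_308, R7_205⟩]⟩, ⟨nat_lit 1, [⟨nat_lit 1, nat_lit 11664, nat_lit 7920, nat_lit 13632, nat_lit 14928, nat_lit 8880, R5_284, R5_311, R2_185⟩]⟩]⟩], [⟨nat_lit 4, [⟨nat_lit 1, [⟨nat_lit 1, nat_lit 2448, nat_lit 720, nat_lit 3936, nat_lit 1440, nat_lit 9600, R8_82, R8_30, R1_200⟩]⟩]⟩,
 ⟨nat_lit 5, [⟨nat_lit 1, [⟨nat_lit 1, nat_lit 7872, nat_lit 8544, nat_lit 3120, nat_lit 768, nat_lit 9792, R9_65, R9_16, R1_204⟩]⟩]⟩,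
 ⟨nat_lit 7, [⟨nat_lit 1, [⟨nat_lit 1, nat_lit 11760, nat_lit 5952, nat_lit 13680, nat_lit 15216, nat_lit 9696, R5_285, R5_317, R1_202⟩]⟩]⟩], [⟨nat_lit 4, [⟨nat_lit 0, [⟨nat_lit 0, nat_lit 2112, nat_lit 14352, nat_lit 816, nat_lit 144, nat_lit 13296, R6_17, R6_3, R7_277⟩, ⟨nat_lit 1, nat_lit 2304, nat_lit 15648, nat_lit 3024, nat_lit 1200, nat_lit 2400, R6_63, R8_25, R14_50⟩]⟩, ⟨nat_lit 1, [⟨nat_lit 1, nat_lit 2400, nat_lit 16512, nat_lit 3984, nat_lit 1392, nat_lit 768, R8_83, R8_29, R12_16⟩]⟩, ⟨nat_lit 3, [⟨nat_lit 0, nat_lit 2160, nat_lit 14928, nat_lit 384, nat_lit 1008, nat_lit 12144, R4_8, R6_21, R2_253⟩, ⟨nat_lit 1, nat_lit 2544, nat_lit 17424, nat_lit 2688, nat_lit 1296, nat_lit 2832, R4_56, R8_27, R12_59⟩, ⟨nat_lit 3, nat_lit 2736, nat_lit 18432, nat_lit 1296, nat_lit 624, nat_lit 12720, R4_27, R4_13,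 R1_265⟩]⟩]⟩,
 ⟨nat_lit 5, [⟨nat_lit 0, [⟨nat_lit 0, nat_lit 7584, nat_lit 14448, nat_lit 11376, nat_lit 13008, nat_lit 16080, R8_237, R8_271, R7_335⟩, ⟨nat_lit 1, nat_lit 7728, nat_lit 15744, nat_lit 11520, nat_lit 528, nat_lit 2880, R8_240, R9_11, R14_60⟩]⟩, ⟨nat_lit 1, [⟨nat_lit 1, nat_lit 7824, nat_lit 16608, nat_lit 3168, nat_lit 720, nat_lit 1248, R9_66, R9_15, R12_26⟩]⟩, ⟨nat_lit 3, [⟨nat_lit 0, nat_lit 7632, nat_lit 14976, nat_lit 2928, nat_lit 13056, nat_lit 14976, R5_61, R8_272, R2_312⟩, ⟨nat_lit 1, nat_lit 7968, nat_lit 17472, nat_lit 3072, nat_lit 624, nat_lit 4224, R5_64, R9_13, R12_88⟩, ⟨nat_lit 3, nat_lit 8016, nat_lit 18480, nat_lit 2976, nat_lit 240, nat_lit 15984, R5_62, R5_5, R1_333⟩]⟩]⟩,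
 ⟨nat_lit 7, [⟨nat_lit 0, [⟨nat_lit 0, nat_lit 11424, nat_lit 14400, nat_lit 11520, nat_lit 13488, nat_lit 14640, R4_240, R4_281, R7_305⟩, ⟨nat_lit 1, nat_lit 11616, nat_lit 15696, nat_lit 11952, nat_lit 14976, nat_lit 2688, R4_249, R5_312, R14_56⟩]⟩, ⟨nat_lit 1, [⟨nat_lit 1, nat_lit 11712, nat_lit 16560, nat_lit 13728, nat_lit 15120, nat_lit 1056, R5_286, R5_315, R12_22⟩]⟩]⟩]]]]
noncomputable def N3064 : T3 (List N0) := [[[[], [], [⟨nat_lit 0, [⟨nat_lit 2, [⟨nat_lit 1, nat_lit 8160, nat_lit 1488, nat_lit 9984, nat_lit 624, nat_lit 1920, R6_208, R7_13, R2_40⟩]⟩]⟩,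
 ⟨nat_lit 3, [⟨nat_lit 0, [⟨nat_lit 1, nat_lit 1488, nat_lit 8160, nat_lit 9984, nat_lit 1920, nat_lit 624, R6_208, R2_40, R7_13⟩]⟩, ⟨nat_lit 2, [⟨nat_lit 1, nat_lit 8208, nat_lit 8208, nat_lit 9504, nat_lit 2016, nat_lit 2016, R8_198, R2_42, R2_42⟩]⟩]⟩], [], [], [], [⟨nat_lit 0, [⟨nat_lit 2, [⟨nat_lit 1, nat_lit 9648, nat_lit 1584, nat_lit 9936, nat_lit 1056, nat_lit 13584, R6_207, R7_22, R3_283⟩]⟩]⟩,
 ⟨nat_lit 3, [⟨nat_lit 0, [⟨nat_lit 1, nat_lit 3504, nat_lit 8160, nat_lit 11088, nat_lit 96, nat_lit 3600, R6_231, R2_2, R4_75⟩]⟩, ⟨nat_lit 2, [⟨nat_lit 1, nat_lit 9792, nat_lit 8208, nat_lit 9456, nat_lit 240, nat_lit 13632, R8_197, R2_5, R3_284⟩]⟩]⟩]], [], [[], [], [], [], [], [], [⟨nat_lit 0, [⟨nat_lit 2, [⟨nat_lit 0, nat_lit 9216, nat_lit 2160, nat_lit 10080, nat_lit 4896, nat_lit 18288, R6_210, R7_102, R13_381⟩,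 ⟨nat_lit 1, nat_lit 9696, nat_lit 2208, nat_lit 10128, nat_lit 15504, nat_lit 13872, R6_211, R14_323, R3_289⟩]⟩]⟩,
 ⟨nat_lit 2, [⟨nat_lit 2, [⟨nat_lit 0, nat_lit 9264, nat_lit 4080, nat_lit 11088, nat_lit 3312, nat_lit 18336, R4_231, R2_69, R13_382⟩, ⟨nat_lit 1, nat_lit 9744, nat_lit 4128, nat_lit 11184, nat_lit 12768, nat_lit 13920, R4_233, R12_266, R3_290⟩, ⟨nat_lit 2, nat_lit 9552, nat_lit 4176, nat_lit 11136, nat_lit 2784, nat_lit 3168, R4_232, R1_58, R3_66⟩]⟩, ⟨nat_lit 6, [⟨nat_lit 2, nat_lit 13920, nat_lit 3792, nat_lit 11520, nat_lit 13248, nat_lit 13728, R7_240, R1_276, R2_286⟩]⟩]⟩,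
 ⟨nat_lit 3, [⟨nat_lit 0, [⟨nat_lit 0, nat_lit 3312, nat_lit 2544, nat_lit 11424, nat_lit 1152, nat_lit 3648, R6_238, R2_24, R6_76⟩, ⟨nat_lit 1, nat_lit 3552, nat_lit 2640, nat_lit 11520, nat_lit 48, nat_lit 3648, R6_240, R12_1, R4_76⟩, ⟨nat_lit 3, nat_lit 4080, nat_lit 2592, nat_lit 11472, nat_lit 624, nat_lit 96, R6_239, R1_13, R8_2⟩]⟩, ⟨nat_lit 2, [⟨nat_lit 0, nat_lit 9312, nat_lit 3120, nat_lit 9696, nat_lit 8208, nat_lit 18384, R8_202, R2_171, R13_383⟩, ⟨nat_lit 1, nat_lit 9840, nat_lit 3216, nat_lit 9792, nat_lit 816, nat_lit 13968, R8_204, R12_17, R3_291⟩, ⟨nat_lit 3, nat_lit 10416, nat_lit 3168, nat_lit 9744, nat_lit 9024, nat_lit 15072, R8_203, R1_188, R9_314⟩]⟩, ⟨nat_lit 3, [⟨nat_lit 3, nat_lit 11712, nat_lit 2784, nat_lit 12000, nat_lit 6144, nat_lit 15984, R4_250, R1_128, R5_333⟩]⟩]⟩]], [[], [],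 [⟨nat_lit 3, [⟨nat_lit 0, [⟨nat_lit 1, nat_lit 1536, nat_lit 4608, nat_lit 10368, nat_lit 1392, nat_lit 672, R6_216, R1_29, R7_14⟩, ⟨nat_lit 5, nat_lit 960, nat_lit 4752, nat_lit 10416, nat_lit 1344, nat_lit 480, R6_217, R11_28, R4_10⟩]⟩, ⟨nat_lit 2, [⟨nat_lit 1, nat_lit 8256, nat_lit 6192, nat_lit 9552, nat_lit 1488, nat_lit 2064, R8_199, R1_31, R2_43⟩]⟩]⟩]], [], [], [[], [], [], [], [⟨nat_lit 0, [⟨nat_lit 2, [⟨nat_lit 0, nat_lit 8592, nat_lit 14064, nat_lit 9792, nat_lit 4560, nat_lit 12912, R6_204, R4_95, R6_269⟩, ⟨nat_lit 3, nat_lit 8976, nat_lit 14256, nat_lit 9840, nat_lit 8016, nat_lit 14064, R6_205, R5_167, R8_293⟩]⟩]⟩,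
 ⟨nat_lit 2, [⟨nat_lit 2, [⟨nat_lit 0, nat_lit 8688, nat_lit 14112, nat_lit 10800, nat_lit 144, nat_lit 12960, R4_225, R3_3, R6_270⟩, ⟨nat_lit 2, nat_lit 8880, nat_lit 14544, nat_lit 10848, nat_lit 6960, nat_lit 13104, R4_226, R10_145, R4_273⟩, ⟨nat_lit 3, nat_lit 9024, nat_lit 14352, nat_lit 10896, nat_lit 5568, nat_lit 14160, R4_227, R0_116, R8_295⟩]⟩, ⟨nat_lit 6, [⟨nat_lit 2, nat_lit 13488, nat_lit 11520, nat_lit 11424, nat_lit 7008, nat_lit 14640, R7_238, R10_146, R7_305⟩]⟩]⟩,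
 ⟨nat_lit 3, [⟨nat_lit 0, [⟨nat_lit 3, nat_lit 3168, nat_lit 12096, nat_lit 10752, nat_lit 7488, nat_lit 13536, R6_224, R11_156, R6_282⟩]⟩, ⟨nat_lit 2, [⟨nat_lit 3, nat_lit 9072, nat_lit 14304, nat_lit 9360, nat_lit 7536, nat_lit 14112, R8_195, R11_157, R8_294⟩]⟩, ⟨nat_lit 3, [⟨nat_lit 3, nat_lit 11616, nat_lit 13344, nat_lit 11616, nat_lit 7584, nat_lit 13344, R4_242, R11_158, R4_278⟩, ⟨nat_lit 7, nat_lit 11568, nat_lit 13440, nat_lit 11664, nat_lit 5808, nat_lit 14592, R4_243, R1_121, R7_304⟩]⟩]⟩,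
 ⟨nat_lit 4, [⟨nat_lit 7, [⟨nat_lit 4, nat_lit 14064, nat_lit 8592, nat_lit 9792, nat_lit 4560, nat_lit 12912, R6_204, R4_95, R6_269⟩, ⟨nat_lit 6, nat_lit 14256, nat_lit 8976, nat_lit 9840, nat_lit 8016, nat_lit 14064, R6_205, R5_167, R8_293⟩]⟩]⟩,
 ⟨nat_lit 6, [⟨nat_lit 4, [⟨nat_lit 6, nat_lit 12096, nat_lit 3168, nat_lit 10752, nat_lit 7488, nat_lit 13536, R6_224, R11_156, R6_282⟩]⟩, ⟨nat_lit 6, [⟨nat_lit 2, nat_lit 13440, nat_lit 11568, nat_lit 11664, nat_lit 5808, nat_lit 14592, R4_243, R1_121, R7_304⟩, ⟨nat_lit 6, nat_lit 13344, nat_lit 11616, nat_lit 11616, nat_lit 7584, nat_lit 13344, R4_242, R11_158, R4_278⟩]⟩, ⟨nat_lit 7, [⟨nat_lit 6, nat_lit 14304, nat_lit 9072, nat_lit 9360, nat_lit 7536, nat_lit 14112, R8_195, R11_157, R8_294⟩]⟩]⟩,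
 ⟨nat_lit 7, [⟨nat_lit 3, [⟨nat_lit 7, nat_lit 11520, nat_lit 13488, nat_lit 11424, nat_lit 7008, nat_lit 14640, R7_238, R10_146, R7_305⟩]⟩, ⟨nat_lit 7, [⟨nat_lit 4, nat_lit 14112, nat_lit 8688, nat_lit 10800, nat_lit 144, nat_lit 12960, R4_225, R3_3, R6_270⟩, ⟨nat_lit 6, nat_lit 14352, nat_lit 9024, nat_lit 10896, nat_lit 5568, nat_lit 14160, R4_227, R0_116, R8_295⟩, ⟨nat_lit 7, nat_lit 14544, nat_lit 8880, nat_lit 10848, nat_lit 6960, nat_lit 13104, R4_226, R10_145, R4_273⟩]⟩]⟩], [], [], [⟨nat_lit 0, [⟨nat_lit 2, [⟨nat_lit 3, nat_lit 10560, nat_lit 16848, nat_lit 9888, nat_lit 8304, nat_lit 1968, R6_206, R5_173, R5_41⟩]⟩]⟩,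
 ⟨nat_lit 2, [⟨nat_lit 2, [⟨nat_lit 3, nat_lit 10608, nat_lit 17568, nat_lit 10944, nat_lit 5616, nat_lit 2016, R4_228, R0_117, R5_42⟩]⟩]⟩,
 ⟨nat_lit 3, [⟨nat_lit 0, [⟨nat_lit 3, nat_lit 4368, nat_lit 14496, nat_lit 10800, nat_lit 7632, nat_lit 48, R6_225, R11_159, R4_1⟩, ⟨nat_lit 7, nat_lit 4224, nat_lit 14400, nat_lit 10848, nat_lit 6096, nat_lit 144, R6_226, R1_127, R7_3⟩]⟩, ⟨nat_lit 2, [⟨nat_lit 3, nat_lit 10656, nat_lit 17184, nat_lit 9408, nat_lit 7680, nat_lit 2064, R8_196, R11_160, R5_43⟩]⟩, ⟨nat_lit 3, [⟨nat_lit 7, nat_lit 12000, nat_lit 15984, nat_lit 11712, nat_lit 6144, nat_lit 17520, R4_244, R1_128, R14_365⟩]⟩]⟩,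
 ⟨nat_lit 4, [⟨nat_lit 7, [⟨nat_lit 4, nat_lit 14928, nat_lit 4368, nat_lit 10176, nat_lit 5664, nat_lit 5808, R6_212, R4_118, R4_121⟩, ⟨nat_lit 6, nat_lit 15168, nat_lit 4656, nat_lit 10224, nat_lit 8160, nat_lit 8784, R6_213, R5_170, R5_183⟩]⟩]⟩,
 ⟨nat_lit 6, [⟨nat_lit 7, [⟨nat_lit 6, nat_lit 15216, nat_lit 6288, nat_lit 9840, nat_lit 8400, nat_lit 8928, R8_205, R11_175, R5_186⟩]⟩]⟩,
 ⟨nat_lit 7, [⟨nat_lit 3, [⟨nat_lit 4, nat_lit 11808, nat_lit 14784, nat_lit 11568, nat_lit 1440, nat_lit 5952, R7_241, R3_30, R7_124⟩, ⟨nat_lit 7, nat_lit 11952, nat_lit 14976, nat_lit 11616, nat_lit 7344, nat_lit 17472, R7_242, R10_153, R14_364⟩]⟩, ⟨nat_lit 7, [⟨nat_lit 4, nat_lit 14976, nat_lit 5136, nat_lit 11232, nat_lit 864, nat_lit 6432, R4_234, R3_18, R4_134⟩, ⟨nat_lit 6, nat_lit 15264, nat_lit 5328, nat_lit 11280, nat_lit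 5856, nat_lit 9072, R4_235, R0_122, R5_189⟩]⟩]⟩]]], [[[], [], [⟨nat_lit 0, [⟨nat_lit 0, [⟨nat_lit 1, nat_lit 1584, nat_lit 12336, nat_lit 3264, nat_lit 6576, nat_lit 768, R6_68, R7_137, R7_16⟩, ⟨nat_lit 5, nat_lit 1008, nat_lit 4320, nat_lit 3120, nat_lit 6768, nat_lit 672, R6_65, R4_141, R4_14⟩]⟩, ⟨nat_lit 2, [⟨nat_lit 1, nat_lit 8304, nat_lit 12480, nat_lit 13008, nat_lit 6624, nat_lit 1968, R13_271, R7_138, R2_41⟩]⟩]⟩,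
 ⟨nat_lit 1, [⟨nat_lit 0, [⟨nat_lit 1, nat_lit 1632, nat_lit 13104, nat_lit 2928, nat_lit 4752, nat_lit 912, R4_61, R2_99, R7_19⟩, ⟨nat_lit 5, nat_lit 1104, nat_lit 4896, nat_lit 2784, nat_lit 5472, nat_lit 816, R4_58, R3_114, R4_17⟩]⟩, ⟨nat_lit 2, [⟨nat_lit 1, nat_lit 8352, nat_lit 13248, nat_lit 9696, nat_lit 4800, nat_lit 2304, R3_202, R2_100, R2_48⟩]⟩]⟩,
 ⟨nat_lit 3, [⟨nat_lit 0, [⟨nat_lit 1, nat_lit 1728, nat_lit 12768, nat_lit 4176, nat_lit 9696, nat_lit 816, R8_87, R2_202, R7_17⟩]⟩, ⟨nat_lit 2, [⟨nat_lit 1, nat_lit 8448, nat_lit 12912, nat_lit 10224, nat_lit 9792, nat_lit 2160, R9_213, R2_204, R2_45⟩]⟩]⟩], [], [], [], [⟨nat_lit 0, [⟨nat_lit 0, [⟨nat_lit 1, nat_lit 3600, nat_lit 96, nat_lit 3312, nat_lit 7008, nat_lit 3504, R6_69, R7_146, R4_73⟩]⟩, ⟨nat_lit 2, [⟨nat_lit 1, nat_lit 9888, nat_lit 144, nat_lit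 12960, nat_lit 7056, nat_lit 13728, R13_270, R7_147, R3_286⟩]⟩]⟩,
 ⟨nat_lit 1, [⟨nat_lit 0, [⟨nat_lit 1, nat_lit 3696, nat_lit 5808, nat_lit 3024, nat_lit 5232, nat_lit 3936, R4_63, R2_109, R4_82⟩]⟩, ⟨nat_lit 2, [⟨nat_lit 1, nat_lit 10032, nat_lit 5856, nat_lit 9648, nat_lit 5280, nat_lit 13824, R3_201, R2_110, R3_288⟩]⟩]⟩,
 ⟨nat_lit 3, [⟨nat_lit 0, [⟨nat_lit 1, nat_lit 3840, nat_lit 7104, nat_lit 3024, nat_lit 7104, nat_lit 3840, R8_63, R2_148, R4_80⟩]⟩, ⟨nat_lit 2, [⟨nat_lit 1, nat_lit 10176, nat_lit 7152, nat_lit 10176, nat_lit 7248, nat_lit 13776, R9_212, R2_151, R3_287⟩]⟩]⟩]], [[], [], [⟨nat_lit 1, [⟨nat_lit 0, [⟨nat_lit 1, nat_lit 1680, nat_lit 5232, nat_lit 2976, nat_lit 3456, nat_lit 960, R4_62, R1_72, R7_20⟩, ⟨nat_lit 5, nat_lit 1152, nat_lit 4608, nat_lit 2832, nat_lit 4032, nat_lit 912, R4_59, R10_84,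 R4_19⟩]⟩, ⟨nat_lit 2, [⟨nat_lit 1, nat_lit 8400, nat_lit 5280, nat_lit 9792, nat_lit 3504, nat_lit 2352, R3_204, R1_73, R2_49⟩]⟩]⟩], [], [], [], [⟨nat_lit 1, [⟨nat_lit 0, [⟨nat_lit 1, nat_lit 3792, nat_lit 4512, nat_lit 3072, nat_lit 3936, nat_lit 4032, R4_64, R1_82, R4_84⟩]⟩, ⟨nat_lit 2, [⟨nat_lit 1, nat_lit 10128, nat_lit 4560, nat_lit 9744, nat_lit 3984, nat_lit 14304, R3_203, R1_83, R3_298⟩]⟩]⟩]], [[], [], [], [], [], [], [⟨nat_lit 0, [⟨nat_lit 0, [⟨nat_lit 0, nat_lit 3360, nat_lit 96, nat_lit 3216, nat_lit 48, nat_lit 3600, R6_67, R7_1, R6_75⟩, ⟨nat_lit 1, nat_lit 3648, nat_lit 144, nat_lit 3360, nat_lit 15888, nat_lit 3552, R6_70, R14_331, R4_74⟩]⟩, ⟨nat_lit 2, [⟨nat_lit 0, nat_lit 9360, nat_lit 384, nat_lit 13056, nat_lit 4992, nat_lit 18480, R13_272, R7_104, R13_385⟩, ⟨nat_lit 1, nat_lit 9936, nat_lit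 432, nat_lit 13104, nat_lit 16416, nat_lit 14064, R13_273, R14_342, R3_293⟩]⟩]⟩,
 ⟨nat_lit 1, [⟨nat_lit 0, [⟨nat_lit 1, nat_lit 3744, nat_lit 576, nat_lit 3120, nat_lit 12960, nat_lit 3984, R4_65, R12_270, R4_83⟩]⟩, ⟨nat_lit 2, [⟨nat_lit 1, nat_lit 10080, nat_lit 624, nat_lit 9840, nat_lit 13488, nat_lit 14208, R3_205, R12_281, R3_296⟩]⟩]⟩,
 ⟨nat_lit 2, [⟨nat_lit 2, [⟨nat_lit 0, nat_lit 9408, nat_lit 2448, nat_lit 2784, nat_lit 3408, nat_lit 18528, R3_58, R2_71, R13_386⟩, ⟨nat_lit 1, nat_lit 9984, nat_lit 2496, nat_lit 2880, nat_lit 13200, nat_lit 14112, R3_60, R12_275, R3_294⟩, ⟨nat_lit 2, nat_lit 9600, nat_lit 2544, nat_lit 2832, nat_lit 2880, nat_lit 3216, R3_59, R1_60, R3_67⟩]⟩, ⟨nat_lit 6, [⟨nat_lit 2, nat_lit 14016, nat_lit 2160, nat_lit 10320, nat_lit 13344, nat_lit 13824, R2_215, R1_278, R2_288⟩]⟩]⟩,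
 ⟨nat_lit 3, [⟨nat_lit 0, [⟨nat_lit 0, nat_lit 3408, nat_lit 912, nat_lit 1872, nat_lit 1440, nat_lit 3744, R8_39, R2_30, R6_78⟩, ⟨nat_lit 1, nat_lit 3888, nat_lit 1008, nat_lit 3072, nat_lit 6816, nat_lit 3888, R8_64, R12_142, R4_81⟩, ⟨nat_lit 3, nat_lit 4128, nat_lit 960, nat_lit 2736, nat_lit 912, nat_lit 1968, R8_57, R1_19, R8_41⟩]⟩, ⟨nat_lit 2, [⟨nat_lit 0, nat_lit 9456, nat_lit 1488, nat_lit 10320, nat_lit 8496, nat_lit 18576, R9_215, R2_177, R13_387⟩, ⟨nat_lit 1, nat_lit 10224, nat_lit 1584, nat_lit 10416, nat_lit 8256, nat_lit 14160, R9_217, R12_172, R3_295⟩, ⟨nat_lit 3, nat_lit 10464, nat_lit 1536, nat_lit 10368, nat_lit 9312, nat_lit 15168, R9_216, R1_194, R9_316⟩]⟩, ⟨nat_lit 3, [⟨nat_lit 3, nat_lit 11760, nat_lit 1152, nat_lit 12720, nat_lit 6336, nat_lit 16032, R5_265, R1_132, R5_334⟩]⟩]⟩]], [[],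 [], [⟨nat_lit 0, [⟨nat_lit 0, [⟨nat_lit 5, nat_lit 1056, nat_lit 11616, nat_lit 3168, nat_lit 8688, nat_lit 720, R6_66, R5_181, R4_15⟩]⟩]⟩,
 ⟨nat_lit 1, [⟨nat_lit 0, [⟨nat_lit 5, nat_lit 1200, nat_lit 11664, nat_lit 2880, nat_lit 432, nat_lit 864, R4_60, R0_9, R4_18⟩]⟩]⟩,
 ⟨nat_lit 3, [⟨nat_lit 0, [⟨nat_lit 1, nat_lit 1776, nat_lit 11520, nat_lit 4224, nat_lit 10512, nat_lit 864, R8_88, R1_219, R7_18⟩, ⟨nat_lit 5, nat_lit 1248, nat_lit 11712, nat_lit 4416, nat_lit 1392, nat_lit 768, R8_92, R11_29, R4_16⟩]⟩, ⟨nat_lit 2, [⟨nat_lit 1, nat_lit 8496, nat_lit 11568, nat_lit 10272, nat_lit 10608, nat_lit 2208, R9_214, R1_221, R2_46⟩]⟩]⟩]]], [[], [], [[], [], [], [], [⟨nat_lit 2, [⟨nat_lit 6, [⟨nat_lit 2, nat_lit 13680, nat_lit 10512, nat_lit 10752, nat_lit 13104, nat_lit 14832, R2_224, R1_273, R7_309⟩]⟩]⟩], [⟨nat_lit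 2, [⟨nat_lit 6, [⟨nat_lit 2, nat_lit 13872, nat_lit 10896, nat_lit 10848, nat_lit 13728, nat_lit 14016, R2_226, R1_286, R2_292⟩]⟩]⟩], [⟨nat_lit 2, [⟨nat_lit 6, [⟨nat_lit 2, nat_lit 13968, nat_lit 1776, nat_lit 10944, nat_lit 13488, nat_lit 13776, R2_228, R1_281, R2_287⟩]⟩]⟩]], [], [], [], [[], [], [], [], [⟨nat_lit 2, [⟨nat_lit 6, [⟨nat_lit 2, nat_lit 13632, nat_lit 10368, nat_lit 10800, nat_lit 7056, nat_lit 14784, R2_225, R10_147, R7_308⟩]⟩]⟩,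
 ⟨nat_lit 4, [⟨nat_lit 4, [⟨nat_lit 6, nat_lit 12144, nat_lit 16032, nat_lit 15168, nat_lit 1008, nat_lit 13584, R6_316, R5_21, R6_283⟩]⟩, ⟨nat_lit 7, [⟨nat_lit 4, nat_lit 14160, nat_lit 11376, nat_lit 18144, nat_lit 4800, nat_lit 13344, R8_378, R4_100, R6_278⟩, ⟨nat_lit 6, nat_lit 14400, nat_lit 16368, nat_lit 19008, nat_lit 9264, nat_lit 14208, R8_396, R5_193, R8_296⟩]⟩]⟩,
 ⟨nat_lit 6, [⟨nat_lit 4, [⟨nat_lit 6, nat_lit 12192, nat_lit 16128, nat_lit 13728, nat_lit 7824, nat_lit 13632, R13_286, R11_163, R6_284⟩]⟩, ⟨nat_lit 6, [⟨nat_lit 2, nat_lit 13584, nat_lit 10272, nat_lit 16656, nat_lit 5856, nat_lit 14736, R3_347, R1_122, R7_307⟩, ⟨nat_lit 6, nat_lit 13392, nat_lit 16752, nat_lit 16752, nat_lit 7920, nat_lit 13392, R3_349, R11_165, R4_279⟩]⟩, ⟨nat_lit 7, [⟨nat_lit 6, nat_lit 14448, nat_lit 16560, nat_lit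 11376, nat_lit 7872, nat_lit 14256, R9_237, R11_164, R8_297⟩]⟩]⟩,
 ⟨nat_lit 7, [⟨nat_lit 7, [⟨nat_lit 4, nat_lit 14208, nat_lit 11472, nat_lit 13104, nat_lit 192, nat_lit 13392, R5_273, R3_4, R6_279⟩, ⟨nat_lit 6, nat_lit 14496, nat_lit 16464, nat_lit 13152, nat_lit 5664, nat_lit 14304, R5_274, R0_118, R8_298⟩, ⟨nat_lit 7, nat_lit 14592, nat_lit 15264, nat_lit 13200, nat_lit 7152, nat_lit 13248, R5_275, R10_149, R4_276⟩]⟩]⟩], [⟨nat_lit 2, [⟨nat_lit 6, [⟨nat_lit 2, nat_lit 13824, nat_lit 3408, nat_lit 10896, nat_lit 7104, nat_lit 13968, R2_227, R10_148, R2_291⟩]⟩]⟩,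
 ⟨nat_lit 4, [⟨nat_lit 4, [⟨nat_lit 4, nat_lit 12240, nat_lit 2736, nat_lit 15120, nat_lit 1920, nat_lit 8304, R6_315, R4_40, R6_173⟩, ⟨nat_lit 6, nat_lit 12288, nat_lit 2976, nat_lit 15216, nat_lit 1152, nat_lit 19056, R6_317, R5_24, R13_397⟩]⟩, ⟨nat_lit 5, [⟨nat_lit 4, nat_lit 13104, nat_lit 2784, nat_lit 14544, nat_lit 10848, nat_lit 8880, R4_303, R4_226, R4_185⟩, ⟨nat_lit 6, nat_lit 13248, nat_lit 3024, nat_lit 14592, nat_lit 13200, nat_lit 15264, R4_304, R5_275, R3_318⟩]⟩, ⟨nat_lit 7, [⟨nat_lit 4, nat_lit 14640, nat_lit 2832, nat_lit 18240, nat_lit 7440, nat_lit 5232, R8_380, R4_155, R8_109⟩, ⟨nat_lit 6, nat_lit 14736, nat_lit 3072, nat_lit 19104, nat_lit 9504, nat_lit 15360, R8_398, R5_198, R9_320⟩]⟩]⟩,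
 ⟨nat_lit 6, [⟨nat_lit 4, [⟨nat_lit 6, nat_lit 12336, nat_lit 3168, nat_lit 13776, nat_lit 9504, nat_lit 19104, R13_287, R11_198, R13_398⟩]⟩, ⟨nat_lit 5, [⟨nat_lit 6, nat_lit 13296, nat_lit 3216, nat_lit 10464, nat_lit 9648, nat_lit 15312, R3_218, R11_201, R3_319⟩]⟩, ⟨nat_lit 6, [⟨nat_lit 2, nat_lit 13776, nat_lit 3360, nat_lit 16704, nat_lit 5904, nat_lit 13920, R3_348, R1_123, R2_290⟩, ⟨nat_lit 6, nat_lit 13728, nat_lit 3312, nat_lit 16800, nat_lit 9600, nat_lit 8640, R3_350, R11_200, R3_180⟩]⟩, ⟨nat_lit 7, [⟨nat_lit 6, nat_lit 14784, nat_lit 3264, nat_lit 11424, nat_lit 9552, nat_lit 15408, R9_238, R11_199, R9_321⟩]⟩]⟩,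
 ⟨nat_lit 7, [⟨nat_lit 7, [⟨nat_lit 4, nat_lit 14688, nat_lit 2880, nat_lit 13248, nat_lit 2400, nat_lit 5616, R5_276, R3_50, R8_117⟩, ⟨nat_lit 6, nat_lit 14832, nat_lit 3120, nat_lit 13296, nat_lit 6960, nat_lit 15456, R5_277, R0_145, R9_322⟩, ⟨nat_lit 7, nat_lit 14880, nat_lit 2928, nat_lit 13344, nat_lit 8544, nat_lit 16224, R5_278, R10_178, R5_338⟩]⟩]⟩], [], [⟨nat_lit 4, [⟨nat_lit 7, [⟨nat_lit 4, nat_lit 15024, nat_lit 2160, nat_lit 18192, nat_lit 6096, nat_lit 5904, R8_379, R4_127, R4_123⟩, ⟨nat_lit 6, nat_lit 15312, nat_lit 2256, nat_lit 19056, nat_lit 9360, nat_lit 8832, R8_397, R5_195, R5_184⟩]⟩]⟩,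
 ⟨nat_lit 6, [⟨nat_lit 7, [⟨nat_lit 6, nat_lit 15360, nat_lit 2352, nat_lit 11472, nat_lit 8736, nat_lit 8976, R9_239, R11_182, R5_187⟩]⟩]⟩,
 ⟨nat_lit 7, [⟨nat_lit 7, [⟨nat_lit 4, nat_lit 15072, nat_lit 2208, nat_lit 13392, nat_lit 912, nat_lit 6480, R5_279, R3_19, R4_135⟩, ⟨nat_lit 6, nat_lit 15408, nat_lit 2304, nat_lit 13440, nat_lit 6192, nat_lit 9120, R5_280, R0_129, R5_190⟩]⟩]⟩]]], [[[], [], [], [], [], [], [⟨nat_lit 3, [⟨nat_lit 0, [⟨nat_lit 1, nat_lit 3936, nat_lit 5232, nat_lit 3024, nat_lit 5808, nat_lit 3696, R4_63, R2_121, R4_77⟩]⟩, ⟨nat_lit 2, [⟨nat_lit 1, nat_lit 10272, nat_lit 5520, nat_lit 768, nat_lit 5952, nat_lit 13680, R5_16, R2_124, R3_285⟩]⟩]⟩]], [], [[], [], [], [], [⟨nat_lit 3, [⟨nat_lit 0, [⟨nat_lit 3, nat_lit 3264, nat_lit 12192, nat_lit 432, nat_lit 96, nat_lit 14064, R4_9, R1_2, R6_293⟩]⟩,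 ⟨nat_lit 2, [⟨nat_lit 0, nat_lit 8832, nat_lit 14448, nat_lit 432, nat_lit 7536, nat_lit 12864, R5_9, R2_157, R6_268⟩, ⟨nat_lit 3, nat_lit 9168, nat_lit 15024, nat_lit 528, nat_lit 8064, nat_lit 14832, R5_11, R1_168, R8_309⟩]⟩]⟩], [], [⟨nat_lit 3, [⟨nat_lit 0, [⟨nat_lit 0, nat_lit 3456, nat_lit 2784, nat_lit 2352, nat_lit 1296, nat_lit 3696, R4_49, R2_27, R6_77⟩, ⟨nat_lit 1, nat_lit 3984, nat_lit 2976, nat_lit 3120, nat_lit 5904, nat_lit 3744, R4_65, R12_123, R4_78⟩, ⟨nat_lit 3, nat_lit 4176, nat_lit 2928, nat_lit 2736, nat_lit 768, nat_lit 624, R4_57, R1_16, R8_13⟩]⟩, ⟨nat_lit 2, [⟨nat_lit 0, nat_lit 9504, nat_lit 4128, nat_lit 480, nat_lit 8352, nat_lit 18432, R5_10, R2_174, R13_384⟩, ⟨nat_lit 1, nat_lit 10320, nat_lit 4416, nat_lit 864, nat_lit 6048, nat_lit 14016, R5_18, R12_126, R3_292⟩, ⟨nat_lit 3, nat_lit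 10512, nat_lit 4320, nat_lit 672, nat_lit 9168, nat_lit 15120, R5_14, R1_191, R9_315⟩]⟩]⟩], [⟨nat_lit 3, [⟨nat_lit 0, [⟨nat_lit 3, nat_lit 4464, nat_lit 12768, nat_lit 1344, nat_lit 432, nat_lit 576, R4_28, R1_9, R4_12⟩]⟩, ⟨nat_lit 2, [⟨nat_lit 3, nat_lit 10752, nat_lit 16032, nat_lit 576, nat_lit 8688, nat_lit 2160, R5_12, R1_181, R5_45⟩]⟩]⟩]], [[], [], [⟨nat_lit 3, [⟨nat_lit 0, [⟨nat_lit 1, nat_lit 1824, nat_lit 4608, nat_lit 4320, nat_lit 6816, nat_lit 720, R4_90, R1_142, R7_15⟩, ⟨nat_lit 5, nat_lit 1392, nat_lit 4752, nat_lit 4416, nat_lit 1440, nat_lit 528, R4_92, R11_30, R4_11⟩]⟩, ⟨nat_lit 2, [⟨nat_lit 1, nat_lit 8544, nat_lit 5808, nat_lit 720, nat_lit 6912, nat_lit 2112, R5_15, R1_144, R2_44⟩]⟩]⟩], [], [], [], [⟨nat_lit 3, [⟨nat_lit 0, [⟨nat_lit 1, nat_lit 4032, nat_lit 3936, nat_lit 3072, nat_lit 4512,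 nat_lit 3792, R4_64, R1_94, R4_79⟩]⟩, ⟨nat_lit 2, [⟨nat_lit 1, nat_lit 10368, nat_lit 4224, nat_lit 816, nat_lit 4656, nat_lit 14256, R5_17, R1_97, R3_297⟩]⟩]⟩]], [[], [], [], [⟨nat_lit 3, [⟨nat_lit 0, [⟨nat_lit 7, nat_lit 3024, nat_lit 5232, nat_lit 3936, nat_lit 5808, nat_lit 3696, R4_82, R2_121, R4_77⟩]⟩]⟩,
 ⟨nat_lit 4, [⟨nat_lit 3, [⟨nat_lit 4, nat_lit 10992, nat_lit 3120, nat_lit 15936, nat_lit 12576, nat_lit 8736, R7_332, R6_262, R4_182⟩, ⟨nat_lit 5, nat_lit 11376, nat_lit 3984, nat_lit 16656, nat_lit 12912, nat_lit 5184, R7_347, R4_269, R5_108⟩]⟩]⟩,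
 ⟨nat_lit 7, [⟨nat_lit 0, [⟨nat_lit 4, nat_lit 2208, nat_lit 3264, nat_lit 3456, nat_lit 7728, nat_lit 1728, R7_72, R13_161, R6_36⟩, ⟨nat_lit 5, nat_lit 2640, nat_lit 4128, nat_lit 4416, nat_lit 6384, nat_lit 672, R7_92, R3_133, R8_14⟩, ⟨nat_lit 7, nat_lit 2928, nat_lit 4752, nat_lit 3936, nat_lit 13104, nat_lit 1632, R7_82, R3_273, R4_34⟩]⟩, ⟨nat_lit 3, [⟨nat_lit 4, nat_lit 11088, nat_lit 3312, nat_lit 11520, nat_lit 7776, nat_lit 9264, R14_240, R13_162, R4_193⟩, ⟨nat_lit 5, nat_lit 11424, nat_lit 4176, nat_lit 11568, nat_lit 6432, nat_lit 5232, R14_241, R3_134, R5_109⟩]⟩]⟩]], [], [[], [], [], [⟨nat_lit 3, [⟨nat_lit 0, [⟨nat_lit 7, nat_lit 3072, nat_lit 3936, nat_lit 4032, nat_lit 4512, nat_lit 3792, R4_84, R1_94, R4_79⟩]⟩]⟩,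
 ⟨nat_lit 4, [⟨nat_lit 3, [⟨nat_lit 4, nat_lit 11040, nat_lit 2592, nat_lit 17616, nat_lit 13056, nat_lit 8928, R7_367, R4_272, R4_186⟩]⟩]⟩,
 ⟨nat_lit 7, [⟨nat_lit 0, [⟨nat_lit 4, nat_lit 2256, nat_lit 2736, nat_lit 3552, nat_lit 3072, nat_lit 1824, R7_74, R3_64, R6_38⟩, ⟨nat_lit 7, nat_lit 2976, nat_lit 3456, nat_lit 3984, nat_lit 5232, nat_lit 1680, R7_83, R10_109, R4_35⟩]⟩, ⟨nat_lit 3, [⟨nat_lit 4, nat_lit 11136, nat_lit 2784, nat_lit 11808, nat_lit 3168, nat_lit 9552, R14_246, R3_66, R4_199⟩]⟩]⟩], [], [], [], [⟨nat_lit 3, [⟨nat_lit 0, [⟨nat_lit 3, nat_lit 4416, nat_lit 4752, nat_lit 1392, nat_lit 7728, nat_lit 528, R4_29, R11_161, R4_11⟩, ⟨nat_lit 7, nat_lit 4320, nat_lit 4608, nat_lit 1824, nat_lit 6816, nat_lit 720, R4_38, R1_142, R7_15⟩]⟩, ⟨nat_lit 2, [⟨nat_lit 3, nat_lit 10704, nat_lit 4800, nat_lit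 624, nat_lit 7776, nat_lit 2112, R5_13, R11_162, R5_44⟩]⟩]⟩,
 ⟨nat_lit 4, [⟨nat_lit 3, [⟨nat_lit 4, nat_lit 11856, nat_lit 4416, nat_lit 17568, nat_lit 12432, nat_lit 5568, R7_366, R4_259, R7_116⟩]⟩, ⟨nat_lit 7, [⟨nat_lit 4, nat_lit 15120, nat_lit 4368, nat_lit 15120, nat_lit 5856, nat_lit 5856, R4_315, R4_122, R4_122⟩, ⟨nat_lit 6, nat_lit 15456, nat_lit 4656, nat_lit 15456, nat_lit 8880, nat_lit 8880, R4_322, R5_185, R5_185⟩]⟩]⟩,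
 ⟨nat_lit 6, [⟨nat_lit 7, [⟨nat_lit 6, nat_lit 15504, nat_lit 4704, nat_lit 17088, nat_lit 8544, nat_lit 9024, R5_356, R11_178, R5_188⟩]⟩]⟩,
 ⟨nat_lit 7, [⟨nat_lit 0, [⟨nat_lit 7, nat_lit 4272, nat_lit 4512, nat_lit 2064, nat_lit 7584, nat_lit 1152, R7_43, R10_158, R7_24⟩]⟩, ⟨nat_lit 3, [⟨nat_lit 4, nat_lit 11904, nat_lit 4464, nat_lit 11712, nat_lit 1488, nat_lit 6000, R14_244, R3_31, R7_125⟩, ⟨nat_lit 7, nat_lit 12048, nat_lit 4560, nat_lit 11760, nat_lit 7632, nat_lit 17568, R14_245, R10_159, R14_366⟩]⟩]⟩]], [[⟨nat_lit 3, [⟨nat_lit 0, [⟨nat_lit 5, nat_lit 432, nat_lit 12192, nat_lit 3264, nat_lit 96, nat_lit 960, R4_68, R1_2, R6_20⟩]⟩]⟩,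
 ⟨nat_lit 7, [⟨nat_lit 0, [⟨nat_lit 5, nat_lit 384, nat_lit 12144, nat_lit 2928, nat_lit 192, nat_lit 1008, R7_61, R10_4, R6_21⟩]⟩]⟩], [], [⟨nat_lit 3, [⟨nat_lit 0, [⟨nat_lit 5, nat_lit 1344, nat_lit 12768, nat_lit 4464, nat_lit 432, nat_lit 576, R4_93, R1_9, R4_12⟩]⟩]⟩,
 ⟨nat_lit 7, [⟨nat_lit 0, [⟨nat_lit 5, nat_lit 1296, nat_lit 12720, nat_lit 4656, nat_lit 720, nat_lit 624, R7_97, R10_15, R4_13⟩]⟩]⟩], [⟨nat_lit 3, [⟨nat_lit 0, [⟨nat_lit 4, nat_lit 2352, nat_lit 2784, nat_lit 3456, nat_lit 1296, nat_lit 3696, R4_72, R2_27, R6_77⟩, ⟨nat_lit 5, nat_lit 2736, nat_lit 2928, nat_lit 4176, nat_lit 768, nat_lit 624, R4_87, R1_16, R8_13⟩, ⟨nat_lit 7, nat_lit 3120, nat_lit 2976, nat_lit 3984, nat_lit 5904, nat_lit 3744, R4_83, R12_123, R4_78⟩]⟩]⟩,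
 ⟨nat_lit 7, [⟨nat_lit 0, [⟨nat_lit 4, nat_lit 2304, nat_lit 2688, nat_lit 3504, nat_lit 11616, nat_lit 1776, R7_73, R3_242, R6_37⟩, ⟨nat_lit 5, nat_lit 2688, nat_lit 2832, nat_lit 4464, nat_lit 1056, nat_lit 720, R7_93, R10_22, R8_15⟩]⟩, ⟨nat_lit 3, [⟨nat_lit 4, nat_lit 11184, nat_lit 2736, nat_lit 11616, nat_lit 13920, nat_lit 9744, R14_242, R3_290, R4_203⟩, ⟨nat_lit 5, nat_lit 11472, nat_lit 2880, nat_lit 11664, nat_lit 1488, nat_lit 5280, R14_243, R10_31, R5_110⟩]⟩]⟩]]], [[], [], [], [], [[⟨nat_lit 4, [⟨nat_lit 1, [⟨nat_lit 4, nat_lit 4512, nat_lit 528, nat_lit 15840, nat_lit 192, nat_lit 5328, R6_330, R6_4, R6_111⟩, ⟨nat_lit 5, nat_lit 5136, nat_lit 1104, nat_lit 15936, nat_lit 96, nat_lit 528, R6_332, R4_2, R13_11⟩]⟩]⟩], [⟨nat_lit 4, [⟨nat_lit 1, [⟨nat_lit 4, nat_lit 5616, nat_lit 384, nat_lit 15888, nat_lit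 2496, nat_lit 5616, R6_331, R6_52, R4_117⟩, ⟨nat_lit 5, nat_lit 6288, nat_lit 480, nat_lit 15984, nat_lit 2400, nat_lit 720, R6_333, R4_50, R3_15⟩]⟩]⟩], [⟨nat_lit 4, [⟨nat_lit 1, [⟨nat_lit 5, nat_lit 6768, nat_lit 1008, nat_lit 16032, nat_lit 672, nat_lit 4320, R6_334, R4_14, R3_90⟩]⟩]⟩]], [[⟨nat_lit 4, [⟨nat_lit 1, [⟨nat_lit 4, nat_lit 4608, nat_lit 4464, nat_lit 16080, nat_lit 15216, nat_lit 5664, R6_335, R8_317, R6_118⟩, ⟨nat_lit 5, nat_lit 5184, nat_lit 4512, nat_lit 16176, nat_lit 1488, nat_lit 576, R6_337, R5_31, R13_12⟩]⟩]⟩,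
 ⟨nat_lit 5, [⟨nat_lit 0, [⟨nat_lit 5, nat_lit 0, nat_lit 0, nat_lit 4272, nat_lit 144, nat_lit 1056, R6_89, R11_3, R6_22⟩]⟩, ⟨nat_lit 1, [⟨nat_lit 4, nat_lit 4656, nat_lit 4704, nat_lit 21312, nat_lit 1200, nat_lit 5808, R13_444, R5_25, R6_121⟩, ⟨nat_lit 5, nat_lit 5232, nat_lit 4752, nat_lit 21408, nat_lit 768, nat_lit 624, R13_446, R11_16, R13_13⟩]⟩]⟩], [⟨nat_lit 4, [⟨nat_lit 1, [⟨nat_lit 4, nat_lit 5712, nat_lit 0, nat_lit 16128, nat_lit 15360, nat_lit 6048, R6_336, R8_320, R4_126⟩, ⟨nat_lit 5, nat_lit 6336, nat_lit 96, nat_lit 16224, nat_lit 1680, nat_lit 768, R6_338, R5_35, R3_16⟩]⟩]⟩,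
 ⟨nat_lit 5, [⟨nat_lit 1, [⟨nat_lit 4, nat_lit 5760, nat_lit 4368, nat_lit 21360, nat_lit 3600, nat_lit 6144, R13_445, R5_75, R4_128⟩, ⟨nat_lit 5, nat_lit 6384, nat_lit 4464, nat_lit 21456, nat_lit 3600, nat_lit 816, R13_447, R11_75, R3_17⟩]⟩]⟩], [⟨nat_lit 4, [⟨nat_lit 1, [⟨nat_lit 5, nat_lit 6816, nat_lit 0, nat_lit 16272, nat_lit 1584, nat_lit 4512, R6_339, R5_33, R3_94⟩]⟩]⟩,
 ⟨nat_lit 5, [⟨nat_lit 0, [⟨nat_lit 5, nat_lit 480, nat_lit 4752, nat_lit 4320, nat_lit 1344, nat_lit 960, R6_90, R11_28, R4_20⟩]⟩, ⟨nat_lit 1, [⟨nat_lit 5, nat_lit 6864, nat_lit 5040, nat_lit 21504, nat_lit 1488, nat_lit 4656, R13_448, R11_31, R3_97⟩]⟩]⟩]], [[⟨nat_lit 4, [⟨nat_lit 1, [⟨nat_lit 4, nat_lit 4560, nat_lit 8592, nat_lit 16320, nat_lit 14064, nat_lit 5472, R6_340, R4_293, R6_114⟩]⟩]⟩], [⟨nat_lit 4, [⟨nat_lit 1, [⟨nat_lit 4,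 nat_lit 5664, nat_lit 4368, nat_lit 16368, nat_lit 14928, nat_lit 5808, R6_341, R4_311, R4_121⟩]⟩]⟩]]], [[], [[], [], [⟨nat_lit 1, [⟨nat_lit 0, [⟨nat_lit 1, nat_lit 1440, nat_lit 12576, nat_lit 4608, nat_lit 15216, nat_lit 1008, R7_96, R1_317, R7_21⟩, ⟨nat_lit 5, nat_lit 624, nat_lit 12720, nat_lit 4656, nat_lit 18432, nat_lit 1296, R7_97, R10_384, R4_27⟩]⟩, ⟨nat_lit 1, [⟨nat_lit 1, nat_lit 7344, nat_lit 12624, nat_lit 3024, nat_lit 15360, nat_lit 48, R2_63, R1_320, R2_1⟩, ⟨nat_lit 5, nat_lit 7008, nat_lit 12816, nat_lit 3072, nat_lit 18576, nat_lit 4848, R2_64, R10_387, R3_101⟩]⟩, ⟨nat_lit 2, [⟨nat_lit 1, nat_lit 8112, nat_lit 12672, nat_lit 864, nat_lit 15264, nat_lit 2256, R2_18, R1_318, R2_47⟩]⟩]⟩,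
 ⟨nat_lit 5, [⟨nat_lit 0, [⟨nat_lit 5, nat_lit 576, nat_lit 12768, nat_lit 4464, nat_lit 432, nat_lit 1344, R4_93, R1_9, R4_28⟩]⟩, ⟨nat_lit 1, [⟨nat_lit 5, nat_lit 6960, nat_lit 12864, nat_lit 17328, nat_lit 480, nat_lit 4800, R3_361, R1_10, R3_100⟩]⟩]⟩]], [], [], [], [[⟨nat_lit 5, [⟨nat_lit 0, [⟨nat_lit 5, nat_lit 48, nat_lit 14496, nat_lit 4368, nat_lit 240, nat_lit 1392, R4_91, R11_5, R6_29⟩]⟩, ⟨nat_lit 1, [⟨nat_lit 4, nat_lit 4704, nat_lit 14304, nat_lit 17376, nat_lit 1296, nat_lit 5904, R3_362, R5_27, R6_123⟩, ⟨nat_lit 5, nat_lit 5280, nat_lit 14688, nat_lit 17472, nat_lit 864, nat_lit 960, R3_364, R11_18, R13_20⟩]⟩]⟩], [⟨nat_lit 5, [⟨nat_lit 1, [⟨nat_lit 4, nat_lit 6000, nat_lit 2832, nat_lit 17424, nat_lit 3648, nat_lit 6240, R3_363, R5_76, R4_130⟩, ⟨nat_lit 5, nat_lit 6576, nat_lit 2928, nat_lit 17520,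 nat_lit 3648, nat_lit 1152, R3_365, R11_76, R3_24⟩]⟩]⟩], [⟨nat_lit 5, [⟨nat_lit 0, [⟨nat_lit 5, nat_lit 528, nat_lit 4752, nat_lit 4416, nat_lit 1440, nat_lit 1392, R4_92, R11_30, R4_29⟩]⟩, ⟨nat_lit 1, [⟨nat_lit 5, nat_lit 6912, nat_lit 5040, nat_lit 17568, nat_lit 1584, nat_lit 4752, R3_366, R11_33, R3_99⟩]⟩]⟩]]], [[], [], [], [], [[], [⟨nat_lit 4, [⟨nat_lit 1, [⟨nat_lit 4, nat_lit 5808, nat_lit 4368, nat_lit 14928, nat_lit 10176, nat_lit 5664, R4_311, R6_212, R4_118⟩, ⟨nat_lit 5, nat_lit 6432, nat_lit 5136, nat_lit 14976, nat_lit 11232, nat_lit 864, R4_312, R4_234, R3_18⟩]⟩, ⟨nat_lit 5, [⟨nat_lit 4, nat_lit 12384, nat_lit 4416, nat_lit 17280, nat_lit 10512, nat_lit 5520, R7_360, R6_219, R7_115⟩, ⟨nat_lit 5, nat_lit 12912, nat_lit 5184, nat_lit 17376, nat_lit 11376, nat_lit 3984, R7_362, R4_237, R2_83⟩, ⟨nat_lit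 6, nat_lit 12576, nat_lit 6000, nat_lit 17328, nat_lit 10656, nat_lit 7680, R7_361, R8_222, R2_160⟩]⟩]⟩,
 ⟨nat_lit 6, [⟨nat_lit 5, [⟨nat_lit 6, nat_lit 12720, nat_lit 6912, nat_lit 14736, nat_lit 7392, nat_lit 7824, R2_307, R5_154, R2_163⟩]⟩]⟩]], [[], [⟨nat_lit 4, [⟨nat_lit 1, [⟨nat_lit 4, nat_lit 5904, nat_lit 2160, nat_lit 15024, nat_lit 16560, nat_lit 6096, R4_313, R8_345, R4_127⟩, ⟨nat_lit 5, nat_lit 6480, nat_lit 2208, nat_lit 15072, nat_lit 13392, nat_lit 912, R4_314, R5_279, R3_19⟩]⟩, ⟨nat_lit 5, [⟨nat_lit 4, nat_lit 12480, nat_lit 12144, nat_lit 17424, nat_lit 10512, nat_lit 5616, R7_363, R8_219, R7_117⟩, ⟨nat_lit 5, nat_lit 12960, nat_lit 12192, nat_lit 17520, nat_lit 13056, nat_lit 4032, R7_365, R5_272, R2_84⟩, ⟨nat_lit 6, nat_lit 12672, nat_lit 12240, nat_lit 17472, nat_lit 11280, nat_lit 7776, R7_364,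 R9_235, R2_162⟩]⟩]⟩,
 ⟨nat_lit 5, [⟨nat_lit 1, [⟨nat_lit 4, nat_lit 5952, nat_lit 2400, nat_lit 3552, nat_lit 3696, nat_lit 6192, R3_74, R5_77, R4_129⟩, ⟨nat_lit 5, nat_lit 6528, nat_lit 2448, nat_lit 3600, nat_lit 3696, nat_lit 960, R3_75, R11_77, R3_20⟩]⟩, ⟨nat_lit 5, [⟨nat_lit 4, nat_lit 12528, nat_lit 12336, nat_lit 15552, nat_lit 2736, nat_lit 5664, R2_324, R5_57, R7_118⟩, ⟨nat_lit 5, nat_lit 13008, nat_lit 12384, nat_lit 15648, nat_lit 2736, nat_lit 4080, R2_326, R11_57, R2_85⟩, ⟨nat_lit 6, nat_lit 12864, nat_lit 12480, nat_lit 15600, nat_lit 9792, nat_lit 7968, R2_325, R0_204, R2_166⟩]⟩]⟩,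
 ⟨nat_lit 6, [⟨nat_lit 5, [⟨nat_lit 6, nat_lit 12816, nat_lit 12624, nat_lit 14784, nat_lit 9408, nat_lit 7920, R2_308, R0_196, R2_165⟩]⟩]⟩]], [[], [⟨nat_lit 4, [⟨nat_lit 1, [⟨nat_lit 4, nat_lit 5856, nat_lit 4368, nat_lit 15120, nat_lit 15120, nat_lit 5856, R4_315, R4_315, R4_122⟩]⟩, ⟨nat_lit 5, [⟨nat_lit 4, nat_lit 12432, nat_lit 4416, nat_lit 17568, nat_lit 11856, nat_lit 5568, R7_366, R4_247, R7_116⟩, ⟨nat_lit 6, nat_lit 12624, nat_lit 5616, nat_lit 17664, nat_lit 12768, nat_lit 7728, R7_368, R5_266, R2_161⟩]⟩]⟩,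
 ⟨nat_lit 6, [⟨nat_lit 5, [⟨nat_lit 6, nat_lit 12768, nat_lit 6528, nat_lit 14880, nat_lit 7008, nat_lit 7872, R2_310, R11_146, R2_164⟩]⟩]⟩], [], [], [], [⟨nat_lit 4, [⟨nat_lit 5, [⟨nat_lit 4, nat_lit 13056, nat_lit 2592, nat_lit 17616, nat_lit 11040, nat_lit 8928, R7_367, R4_230, R4_186⟩, ⟨nat_lit 6, nat_lit 13152, nat_lit 2640, nat_lit 17712, nat_lit 12864, nat_lit 15168, R7_369, R5_268, R3_316⟩]⟩]⟩,
 ⟨nat_lit 6, [⟨nat_lit 5, [⟨nat_lit 6, nat_lit 13200, nat_lit 2688, nat_lit 14832, nat_lit 8976, nat_lit 15216, R2_309, R11_187, R3_317⟩]⟩]⟩]]], [[], [], [], [], [[⟨nat_lit 4, [⟨nat_lit 0, [⟨nat_lit 5, nat_lit 96, nat_lit 6048, nat_lit 15936, nat_lit 5136, nat_lit 1104, R6_332, R4_107, R6_23⟩]⟩, ⟨nat_lit 1, [⟨nat_lit 4, nat_lit 4752, nat_lit 4464, nat_lit 17568, nat_lit 5040, nat_lit 5376, R8_366, R6_105, R6_112⟩,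 ⟨nat_lit 5, nat_lit 5328, nat_lit 6096, nat_lit 17712, nat_lit 5328, nat_lit 672, R8_369, R4_111, R13_14⟩]⟩]⟩,
 ⟨nat_lit 7, [⟨nat_lit 0, [⟨nat_lit 5, nat_lit 240, nat_lit 6528, nat_lit 2064, nat_lit 3744, nat_lit 1200, R4_43, R3_78, R6_25⟩]⟩, ⟨nat_lit 1, [⟨nat_lit 4, nat_lit 4944, nat_lit 4992, nat_lit 3264, nat_lit 5520, nat_lit 5424, R5_68, R13_115, R6_113⟩, ⟨nat_lit 5, nat_lit 5472, nat_lit 6576, nat_lit 3456, nat_lit 3792, nat_lit 768, R5_72, R3_79, R13_16⟩]⟩]⟩], [⟨nat_lit 4, [⟨nat_lit 1, [⟨nat_lit 4, nat_lit 6048, nat_lit 3696, nat_lit 17616, nat_lit 7056, nat_lit 5712, R8_367, R6_147, R4_119⟩, ⟨nat_lit 5, nat_lit 6624, nat_lit 4608, nat_lit 17760, nat_lit 7728, nat_lit 1008, R8_370, R4_161, R3_21⟩]⟩]⟩,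
 ⟨nat_lit 7, [⟨nat_lit 1, [⟨nat_lit 4, nat_lit 6144, nat_lit 3936, nat_lit 3600, nat_lit 9072, nat_lit 5760, R5_75, R13_189, R4_120⟩, ⟨nat_lit 5, nat_lit 6672, nat_lit 4848, nat_lit 3744, nat_lit 7152, nat_lit 1056, R5_78, R3_149, R3_22⟩]⟩]⟩], [⟨nat_lit 4, [⟨nat_lit 0, [⟨nat_lit 5, nat_lit 672, nat_lit 4320, nat_lit 16032, nat_lit 6768, nat_lit 1008, R6_334, R4_141, R4_21⟩]⟩, ⟨nat_lit 1, [⟨nat_lit 5, nat_lit 7056, nat_lit 4368, nat_lit 17856, nat_lit 7056, nat_lit 4368, R8_372, R4_147, R3_91⟩]⟩]⟩,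
 ⟨nat_lit 7, [⟨nat_lit 0, [⟨nat_lit 5, nat_lit 816, nat_lit 4896, nat_lit 2784, nat_lit 5472, nat_lit 1104, R4_58, R3_114, R4_23⟩]⟩, ⟨nat_lit 1, [⟨nat_lit 5, nat_lit 7200, nat_lit 4944, nat_lit 4224, nat_lit 5520, nat_lit 4416, R5_88, R3_115, R3_92⟩]⟩]⟩], [⟨nat_lit 4, [⟨nat_lit 0, [⟨nat_lit 4, nat_lit 1872, nat_lit 0, nat_lit 14448, nat_lit 5952, nat_lit 624, R6_301, R6_124, R6_13⟩, ⟨nat_lit 5, nat_lit 2400, nat_lit 720, nat_lit 15984, nat_lit 6288, nat_lit 768, R6_333, R4_131, R8_16⟩]⟩, ⟨nat_lit 1, [⟨nat_lit 4, nat_lit 7392, nat_lit 288, nat_lit 17664, nat_lit 6384, nat_lit 5136, R8_368, R6_133, R8_107⟩, ⟨nat_lit 5, nat_lit 7728, nat_lit 1008, nat_lit 17808, nat_lit 6624, nat_lit 240, R8_371, R4_138, R9_5⟩]⟩, ⟨nat_lit 3, [⟨nat_lit 4, nat_lit 10800, nat_lit 144, nat_lit 14112, nat_lit 6096, nat_lit 8688, R4_294,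 R6_127, R4_181⟩, ⟨nat_lit 5, nat_lit 11232, nat_lit 864, nat_lit 14976, nat_lit 6432, nat_lit 5136, R4_312, R4_134, R5_107⟩]⟩]⟩,
 ⟨nat_lit 7, [⟨nat_lit 0, [⟨nat_lit 4, nat_lit 2064, nat_lit 3744, nat_lit 240, nat_lit 7200, nat_lit 1200, R4_5, R13_150, R6_25⟩, ⟨nat_lit 5, nat_lit 2544, nat_lit 6048, nat_lit 2544, nat_lit 6048, nat_lit 864, R4_53, R3_126, R8_18⟩, ⟨nat_lit 7, nat_lit 2784, nat_lit 5472, nat_lit 816, nat_lit 4896, nat_lit 1104, R4_17, R3_102, R4_23⟩]⟩, ⟨nat_lit 1, [⟨nat_lit 4, nat_lit 7584, nat_lit 3888, nat_lit 3840, nat_lit 7248, nat_lit 5184, R5_80, R13_151, R8_108⟩, ⟨nat_lit 5, nat_lit 7872, nat_lit 6192, nat_lit 4128, nat_lit 6096, nat_lit 336, R5_86, R3_127, R9_7⟩, ⟨nat_lit 7, nat_lit 7968, nat_lit 5616, nat_lit 3984, nat_lit 5184, nat_lit 96, R5_83, R3_108, R5_2⟩]⟩]⟩]], [[⟨nat_lit 4, [⟨nat_lit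 0, [⟨nat_lit 5, nat_lit 144, nat_lit 13488, nat_lit 16608, nat_lit 8496, nat_lit 1152, R6_346, R5_177, R6_24⟩]⟩, ⟨nat_lit 1, [⟨nat_lit 4, nat_lit 4848, nat_lit 13104, nat_lit 17904, nat_lit 15792, nat_lit 5712, R8_373, R8_329, R6_119⟩, ⟨nat_lit 5, nat_lit 5376, nat_lit 13728, nat_lit 18000, nat_lit 9936, nat_lit 720, R8_375, R5_207, R13_15⟩]⟩]⟩,
 ⟨nat_lit 5, [⟨nat_lit 0, [⟨nat_lit 5, nat_lit 192, nat_lit 13584, nat_lit 4272, nat_lit 192, nat_lit 1344, R8_89, R11_4, R6_28⟩]⟩, ⟨nat_lit 1, [⟨nat_lit 4, nat_lit 4896, nat_lit 13200, nat_lit 17712, nat_lit 1248, nat_lit 5856, R9_369, R5_26, R6_122⟩, ⟨nat_lit 5, nat_lit 5424, nat_lit 13824, nat_lit 17808, nat_lit 816, nat_lit 912, R9_371, R11_17, R13_19⟩]⟩]⟩,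
 ⟨nat_lit 7, [⟨nat_lit 0, [⟨nat_lit 5, nat_lit 288, nat_lit 13536, nat_lit 2160, nat_lit 48, nat_lit 1296, R4_45, R0_1, R6_27⟩]⟩, ⟨nat_lit 1, [⟨nat_lit 4, nat_lit 5040, nat_lit 13152, nat_lit 3312, nat_lit 1920, nat_lit 5760, R5_69, R9_40, R6_120⟩, ⟨nat_lit 5, nat_lit 5520, nat_lit 13776, nat_lit 3504, nat_lit 240, nat_lit 864, R5_73, R0_5, R13_18⟩]⟩]⟩], [], [⟨nat_lit 4, [⟨nat_lit 0, [⟨nat_lit 5, nat_lit 720, nat_lit 11616, nat_lit 16704, nat_lit 8688, nat_lit 1056, R6_348, R5_181, R4_22⟩]⟩, ⟨nat_lit 1, [⟨nat_lit 5, nat_lit 7104, nat_lit 11856, nat_lit 18096, nat_lit 10080, nat_lit 4560, R8_377, R5_210, R3_95⟩]⟩]⟩,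
 ⟨nat_lit 5, [⟨nat_lit 0, [⟨nat_lit 5, nat_lit 768, nat_lit 11712, nat_lit 4416, nat_lit 1392, nat_lit 1248, R8_92, R11_29, R4_26⟩]⟩, ⟨nat_lit 1, [⟨nat_lit 5, nat_lit 7152, nat_lit 11952, nat_lit 17904, nat_lit 1536, nat_lit 4704, R9_373, R11_32, R3_98⟩]⟩]⟩,
 ⟨nat_lit 7, [⟨nat_lit 0, [⟨nat_lit 5, nat_lit 864, nat_lit 11664, nat_lit 2880, nat_lit 432, nat_lit 1200, R4_60, R0_9, R4_25⟩]⟩, ⟨nat_lit 1, [⟨nat_lit 5, nat_lit 7248, nat_lit 11904, nat_lit 4272, nat_lit 480, nat_lit 4608, R5_89, R0_10, R3_96⟩]⟩]⟩], [⟨nat_lit 4, [⟨nat_lit 0, [⟨nat_lit 4, nat_lit 1968, nat_lit 0, nat_lit 14784, nat_lit 12240, nat_lit 720, R6_308, R8_255, R6_15⟩, ⟨nat_lit 5, nat_lit 2448, nat_lit 576, nat_lit 16656, nat_lit 8592, nat_lit 816, R6_347, R5_179, R8_17⟩]⟩, ⟨nat_lit 1, [⟨nat_lit 4, nat_lit 7488, nat_lit 7200, nat_lit 17952, nat_lit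 15936, nat_lit 5328, R8_374, R8_332, R8_111⟩, ⟨nat_lit 5, nat_lit 7776, nat_lit 8304, nat_lit 18048, nat_lit 10032, nat_lit 288, R8_376, R5_209, R9_6⟩]⟩, ⟨nat_lit 3, [⟨nat_lit 4, nat_lit 10896, nat_lit 5568, nat_lit 14352, nat_lit 14160, nat_lit 9024, R4_299, R8_295, R4_188⟩, ⟨nat_lit 5, nat_lit 11280, nat_lit 5856, nat_lit 15264, nat_lit 9072, nat_lit 5328, R4_318, R5_189, R5_111⟩]⟩]⟩,
 ⟨nat_lit 5, [⟨nat_lit 0, [⟨nat_lit 4, nat_lit 2016, nat_lit 96, nat_lit 4320, nat_lit 1824, nat_lit 2880, R8_90, R5_38, R6_60⟩, ⟨nat_lit 5, nat_lit 2496, nat_lit 672, nat_lit 4368, nat_lit 1824, nat_lit 960, R8_91, R11_38, R8_20⟩]⟩, ⟨nat_lit 1, [⟨nat_lit 4, nat_lit 7536, nat_lit 7392, nat_lit 17760, nat_lit 2304, nat_lit 5424, R9_370, R5_48, R8_113⟩, ⟨nat_lit 5, nat_lit 7824, nat_lit 8496, nat_lit 17856, nat_lit 2304, nat_lit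 432, R9_372, R11_48, R9_9⟩]⟩, ⟨nat_lit 3, [⟨nat_lit 4, nat_lit 10944, nat_lit 5616, nat_lit 17568, nat_lit 2016, nat_lit 10608, R5_366, R5_42, R4_221⟩, ⟨nat_lit 5, nat_lit 11328, nat_lit 5904, nat_lit 17616, nat_lit 2016, nat_lit 5376, R5_367, R11_42, R5_112⟩]⟩]⟩,
 ⟨nat_lit 7, [⟨nat_lit 0, [⟨nat_lit 4, nat_lit 2160, nat_lit 48, nat_lit 288, nat_lit 2160, nat_lit 1296, R4_6, R9_45, R6_27⟩, ⟨nat_lit 5, nat_lit 2592, nat_lit 624, nat_lit 2592, nat_lit 624, nat_lit 912, R4_54, R0_13, R8_19⟩, ⟨nat_lit 7, nat_lit 2880, nat_lit 432, nat_lit 864, nat_lit 11664, nat_lit 1200, R4_18, R0_243, R4_25⟩]⟩, ⟨nat_lit 1, [⟨nat_lit 4, nat_lit 7680, nat_lit 7296, nat_lit 3888, nat_lit 2592, nat_lit 5376, R5_81, R9_54, R8_112⟩, ⟨nat_lit 5, nat_lit 7920, nat_lit 8400, nat_lit 4176, nat_lit 1056, nat_lit 384, R5_87, R0_22, R9_8⟩,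 ⟨nat_lit 7, nat_lit 8064, nat_lit 8016, nat_lit 4032, nat_lit 14496, nat_lit 192, R5_84, R0_302, R5_4⟩]⟩]⟩]], [[⟨nat_lit 4, [⟨nat_lit 1, [⟨nat_lit 4, nat_lit 4800, nat_lit 11376, nat_lit 18144, nat_lit 14160, nat_lit 5520, R8_378, R4_295, R6_115⟩]⟩]⟩,
 ⟨nat_lit 7, [⟨nat_lit 1, [⟨nat_lit 4, nat_lit 4992, nat_lit 11424, nat_lit 3408, nat_lit 2928, nat_lit 5568, R5_71, R3_61, R6_116⟩]⟩]⟩], [⟨nat_lit 4, [⟨nat_lit 1, [⟨nat_lit 4, nat_lit 6096, nat_lit 2160, nat_lit 18192, nat_lit 15024, nat_lit 5904, R8_379, R4_313, R4_123⟩]⟩]⟩,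
 ⟨nat_lit 7, [⟨nat_lit 1, [⟨nat_lit 4, nat_lit 6192, nat_lit 2400, nat_lit 3696, nat_lit 3552, nat_lit 5952, R5_77, R3_74, R4_124⟩]⟩]⟩], [], [⟨nat_lit 4, [⟨nat_lit 0, [⟨nat_lit 4, nat_lit 1920, nat_lit 2736, nat_lit 15120, nat_lit 12240, nat_lit 672, R6_315, R4_255, R6_14⟩]⟩, ⟨nat_lit 1, [⟨nat_lit 4, nat_lit 7440, nat_lit 2832, nat_lit 18240, nat_lit 14640, nat_lit 5232, R8_380, R4_305, R8_109⟩]⟩, ⟨nat_lit 3, [⟨nat_lit 4, nat_lit 10848, nat_lit 2784, nat_lit 14544, nat_lit 13104, nat_lit 8880, R4_303, R4_273, R4_185⟩]⟩]⟩,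
 ⟨nat_lit 7, [⟨nat_lit 0, [⟨nat_lit 4, nat_lit 2112, nat_lit 3456, nat_lit 336, nat_lit 3024, nat_lit 1248, R4_7, R3_63, R6_26⟩, ⟨nat_lit 7, nat_lit 2832, nat_lit 4032, nat_lit 912, nat_lit 4608, nat_lit 1152, R4_19, R10_96, R4_24⟩]⟩, ⟨nat_lit 1, [⟨nat_lit 4, nat_lit 7632, nat_lit 3504, nat_lit 3936, nat_lit 3264, nat_lit 5280, R5_82, R3_68, R8_110⟩, ⟨nat_lit 7, nat_lit 8016, nat_lit 4080, nat_lit 4080, nat_lit 4656, nat_lit 144, R5_85, R10_97, R5_3⟩]⟩]⟩]], [[⟨nat_lit 7, [⟨nat_lit 0, [⟨nat_lit 5, nat_lit 336, nat_lit 3024, nat_lit 2112, nat_lit 144, nat_lit 1248, R4_44, R10_3, R6_26⟩]⟩, ⟨nat_lit 1, [⟨nat_lit 4, nat_lit 5088, nat_lit 8544, nat_lit 3360, nat_lit 16080, nat_lit 5616, R5_70, R3_335, R6_117⟩, ⟨nat_lit 5, nat_lit 5568, nat_lit 8832, nat_lit 3552, nat_lit 480, nat_lit 816, R5_74, R10_10, R13_17⟩]⟩]⟩],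 [⟨nat_lit 7, [⟨nat_lit 1, [⟨nat_lit 4, nat_lit 6240, nat_lit 2832, nat_lit 3648, nat_lit 17424, nat_lit 6000, R5_76, R3_363, R4_125⟩, ⟨nat_lit 5, nat_lit 6720, nat_lit 3216, nat_lit 3792, nat_lit 2544, nat_lit 1104, R5_79, R10_53, R3_23⟩]⟩]⟩], [⟨nat_lit 7, [⟨nat_lit 0, [⟨nat_lit 5, nat_lit 912, nat_lit 14064, nat_lit 2832, nat_lit 672, nat_lit 1152, R4_59, R10_14, R4_24⟩]⟩, ⟨nat_lit 1, [⟨nat_lit 5, nat_lit 7296, nat_lit 14256, nat_lit 4320, nat_lit 816, nat_lit 4464, R5_90, R10_17, R3_93⟩]⟩]⟩]]]]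
noncomputable def N3112 : T3 (List N0) := [[[[], [], [⟨nat_lit 4, [⟨nat_lit 4, [⟨nat_lit 4, nat_lit 0, nat_lit 12240, nat_lit 15120, nat_lit 8304, nat_lit 1920, R6_315, R6_173, R4_40⟩, ⟨nat_lit 7, nat_lit 336, nat_lit 12288, nat_lit 15216, nat_lit 19056, nat_lit 1152, R6_317, R13_397, R5_24⟩]⟩, ⟨nat_lit 7, [⟨nat_lit 7, nat_lit 384, nat_lit 12336, nat_lit 13776, nat_lit 19104, nat_lit 9504, R13_287, R13_398, R11_198⟩]⟩]⟩,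
 ⟨nat_lit 5, [⟨nat_lit 4, [⟨nat_lit 4, nat_lit 6960, nat_lit 13104, nat_lit 14544, nat_lit 8880, nat_lit 10848, R4_303, R4_185, R4_226⟩, ⟨nat_lit 7, nat_lit 7152, nat_lit 13248, nat_lit 14592, nat_lit 15264, nat_lit 13200, R4_304, R3_318, R5_275⟩]⟩, ⟨nat_lit 7, [⟨nat_lit 7, nat_lit 7200, nat_lit 13296, nat_lit 10464, nat_lit 15312, nat_lit 9648, R3_218, R3_319, R11_201⟩]⟩]⟩,
 ⟨nat_lit 6, [⟨nat_lit 4, [⟨nat_lit 4, nat_lit 8736, nat_lit 14640, nat_lit 18240, nat_lit 5232, nat_lit 7440, R8_380, R8_109, R4_155⟩, ⟨nat_lit 7, nat_lit 9456, nat_lit 14736, nat_lit 19104, nat_lit 15360, nat_lit 9504, R8_398, R9_320, R5_198⟩]⟩, ⟨nat_lit 6, [⟨nat_lit 4, nat_lit 8832, nat_lit 14688, nat_lit 13248, nat_lit 5616, nat_lit 2400, R5_276, R8_117, R3_50⟩, ⟨nat_lit 6, nat_lit 9264, nat_lit 14880, nat_lit 13344, nat_lit 16224, nat_lit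 8544, R5_278, R5_338, R10_178⟩, ⟨nat_lit 7, nat_lit 9504, nat_lit 14832, nat_lit 13296, nat_lit 15456, nat_lit 6960, R5_277, R9_322, R0_145⟩]⟩, ⟨nat_lit 7, [⟨nat_lit 7, nat_lit 9552, nat_lit 14784, nat_lit 11424, nat_lit 15408, nat_lit 9552, R9_238, R9_321, R11_199⟩]⟩]⟩,
 ⟨nat_lit 7, [⟨nat_lit 3, [⟨nat_lit 3, nat_lit 12192, nat_lit 13824, nat_lit 10896, nat_lit 13968, nat_lit 7104, R2_227, R2_291, R10_148⟩]⟩, ⟨nat_lit 7, [⟨nat_lit 3, nat_lit 12240, nat_lit 13776, nat_lit 16704, nat_lit 13920, nat_lit 5904, R3_348, R2_290, R1_123⟩, ⟨nat_lit 7, nat_lit 12384, nat_lit 13728, nat_lit 16800, nat_lit 8640, nat_lit 9600, R3_350, R3_180, R11_200⟩]⟩]⟩], [], [], [], [⟨nat_lit 4, [⟨nat_lit 4, [⟨nat_lit 4, nat_lit 48, nat_lit 13440, nat_lit 10656, nat_lit 13728, nat_lit 2112, R6_222, R6_286, R7_44⟩]⟩, ⟨nat_lit 7, [⟨nat_lit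 4, nat_lit 96, nat_lit 13536, nat_lit 13632, nat_lit 13824, nat_lit 912, R13_284, R6_288, R2_19⟩, ⟨nat_lit 7, nat_lit 432, nat_lit 13632, nat_lit 13680, nat_lit 19152, nat_lit 240, R13_285, R13_399, R1_5⟩]⟩]⟩,
 ⟨nat_lit 5, [⟨nat_lit 4, [⟨nat_lit 4, nat_lit 7008, nat_lit 14256, nat_lit 11520, nat_lit 13488, nat_lit 11424, R4_240, R4_281, R7_238⟩]⟩, ⟨nat_lit 7, [⟨nat_lit 4, nat_lit 7056, nat_lit 14352, nat_lit 10368, nat_lit 13632, nat_lit 10800, R3_216, R4_284, R2_225⟩, ⟨nat_lit 7, nat_lit 7248, nat_lit 14496, nat_lit 10416, nat_lit 15408, nat_lit 11184, R3_217, R3_321, R1_233⟩]⟩]⟩,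
 ⟨nat_lit 6, [⟨nat_lit 4, [⟨nat_lit 4, nat_lit 8784, nat_lit 16752, nat_lit 11376, nat_lit 13008, nat_lit 7584, R8_237, R8_271, R7_158⟩]⟩, ⟨nat_lit 6, [⟨nat_lit 4, nat_lit 8880, nat_lit 16944, nat_lit 12960, nat_lit 13248, nat_lit 6384, R5_270, R8_276, R2_133⟩, ⟨nat_lit 6, nat_lit 9312, nat_lit 17184, nat_lit 13008, nat_lit 16272, nat_lit 5088, R5_271, R5_339, R1_106⟩]⟩, ⟨nat_lit 7, [⟨nat_lit 4, nat_lit 8928, nat_lit 16848, nat_lit 11184, nat_lit 13104, nat_lit 8016, R9_233, R8_273, R2_167⟩, ⟨nat_lit 7, nat_lit 9600, nat_lit 16992, nat_lit 11232, nat_lit 15504, nat_lit 8544, R9_234, R9_323, R1_178⟩]⟩]⟩,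
 ⟨nat_lit 7, [⟨nat_lit 7, [⟨nat_lit 7, nat_lit 12432, nat_lit 14976, nat_lit 10320, nat_lit 15456, nat_lit 5952, R3_215, R3_322, R1_124⟩]⟩]⟩]], [], [[], [], [], [], [], [], [⟨nat_lit 4, [⟨nat_lit 4, [⟨nat_lit 4, nat_lit 960, nat_lit 4464, nat_lit 11376, nat_lit 1200, nat_lit 2304, R6_237, R8_25, R7_48⟩, ⟨nat_lit 5, nat_lit 1344, nat_lit 4512, nat_lit 11616, nat_lit 4560, nat_lit 18672, R6_242, R5_95, R14_389⟩]⟩, ⟨nat_lit 7, [⟨nat_lit 4, nat_lit 1008, nat_lit 4896, nat_lit 14880, nat_lit 7104, nat_lit 2448, R13_310, R8_148, R2_51⟩, ⟨nat_lit 5, nat_lit 1440, nat_lit 4992, nat_lit 14976, nat_lit 4944, nat_lit 336, R13_312, R5_103, R12_7⟩, ⟨nat_lit 7, nat_lit 2064, nat_lit 4944, nat_lit 14928, nat_lit 4080, nat_lit 1920, R13_311, R9_85, R1_40⟩]⟩]⟩,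
 ⟨nat_lit 5, [⟨nat_lit 4, [⟨nat_lit 4, nat_lit 7344, nat_lit 5232, nat_lit 11952, nat_lit 14976, nat_lit 11616, R4_249, R5_312, R7_242⟩, ⟨nat_lit 5, nat_lit 7632, nat_lit 5280, nat_lit 12048, nat_lit 4560, nat_lit 19584, R4_251, R11_95, R14_408⟩]⟩, ⟨nat_lit 7, [⟨nat_lit 4, nat_lit 7392, nat_lit 5376, nat_lit 10896, nat_lit 15456, nat_lit 11136, R3_227, R5_322, R2_232⟩, ⟨nat_lit 5, nat_lit 7728, nat_lit 5472, nat_lit 10992, nat_lit 4944, nat_lit 2400, R3_229, R11_103, R12_50⟩, ⟨nat_lit 7, nat_lit 8256, nat_lit 5424, nat_lit 10944, nat_lit 2544, nat_lit 11712, R3_228, R0_53, R1_244⟩]⟩]⟩,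
 ⟨nat_lit 6, [⟨nat_lit 4, [⟨nat_lit 4, nat_lit 10416, nat_lit 6240, nat_lit 11520, nat_lit 14160, nat_lit 7728, R8_240, R9_295, R7_161⟩, ⟨nat_lit 5, nat_lit 11040, nat_lit 6288, nat_lit 12096, nat_lit 12864, nat_lit 19200, R8_252, R0_268, R14_400⟩]⟩, ⟨nat_lit 6, [⟨nat_lit 4, nat_lit 10464, nat_lit 7584, nat_lit 14016, nat_lit 14784, nat_lit 6576, R5_292, R9_308, R2_137⟩, ⟨nat_lit 5, nat_lit 11088, nat_lit 7632, nat_lit 14112, nat_lit 13488, nat_lit 16032, R5_294, R0_281, R12_334⟩, ⟨nat_lit 6, nat_lit 10848, nat_lit 7680, nat_lit 14064, nat_lit 3648, nat_lit 5280, R5_293, R0_76, R1_110⟩]⟩, ⟨nat_lit 7, [⟨nat_lit 4, nat_lit 10512, nat_lit 6912, nat_lit 12720, nat_lit 14448, nat_lit 10080, R9_265, R9_301, R2_210⟩, ⟨nat_lit 5, nat_lit 11184, nat_lit 6960, nat_lit 12768, nat_lit 13152, nat_lit 1440, R9_266, R0_274,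 R12_30⟩]⟩]⟩,
 ⟨nat_lit 7, [⟨nat_lit 7, [⟨nat_lit 7, nat_lit 12768, nat_lit 5712, nat_lit 10848, nat_lit 2640, nat_lit 7344, R3_226, R0_55, R1_153⟩]⟩]⟩]], [[], [], [⟨nat_lit 4, [⟨nat_lit 4, [⟨nat_lit 7, nat_lit 2448, nat_lit 14352, nat_lit 15792, nat_lit 432, nat_lit 1440, R6_329, R3_9, R5_30⟩]⟩, ⟨nat_lit 7, [⟨nat_lit 3, nat_lit 2256, nat_lit 14592, nat_lit 13968, nat_lit 3504, nat_lit 6672, R13_291, R2_73, R1_139⟩, ⟨nat_lit 7, nat_lit 2496, nat_lit 14736, nat_lit 13920, nat_lit 4032, nat_lit 9840, R13_290, R3_84, R11_205⟩]⟩]⟩,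
 ⟨nat_lit 5, [⟨nat_lit 4, [⟨nat_lit 7, nat_lit 8544, nat_lit 16224, nat_lit 14880, nat_lit 2928, nat_lit 13344, R4_310, R10_61, R5_278⟩]⟩, ⟨nat_lit 7, [⟨nat_lit 3, nat_lit 8400, nat_lit 16464, nat_lit 10560, nat_lit 2976, nat_lit 6768, R3_220, R1_62, R1_141⟩, ⟨nat_lit 7, nat_lit 8592, nat_lit 16512, nat_lit 10512, nat_lit 3600, nat_lit 9936, R3_219, R10_75, R11_207⟩]⟩]⟩,
 ⟨nat_lit 6, [⟨nat_lit 4, [⟨nat_lit 7, nat_lit 11808, nat_lit 16992, nat_lit 19248, nat_lit 7488, nat_lit 9888, R8_401, R0_156, R5_206⟩]⟩, ⟨nat_lit 6, [⟨nat_lit 7, nat_lit 11856, nat_lit 17712, nat_lit 13536, nat_lit 7584, nat_lit 7056, R5_282, R0_158, R0_147⟩]⟩, ⟨nat_lit 7, [⟨nat_lit 7, nat_lit 11904, nat_lit 17376, nat_lit 11568, nat_lit 7536, nat_lit 9888, R9_241, R0_157, R11_206⟩]⟩]⟩,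
 ⟨nat_lit 7, [⟨nat_lit 3, [⟨nat_lit 3, nat_lit 12912, nat_lit 15552, nat_lit 11232, nat_lit 14928, nat_lit 7536, R2_234, R12_311, R10_157⟩]⟩, ⟨nat_lit 7, [⟨nat_lit 3, nat_lit 12960, nat_lit 16128, nat_lit 17232, nat_lit 14976, nat_lit 6720, R3_359, R12_312, R1_140⟩]⟩]⟩]]], [[[], [], [⟨nat_lit 4, [⟨nat_lit 4, [⟨nat_lit 4, nat_lit 144, nat_lit 3024, nat_lit 336, nat_lit 8880, nat_lit 2112, R4_7, R6_185, R4_44⟩, ⟨nat_lit 7, nat_lit 480, nat_lit 8832, nat_lit 5568, nat_lit 19392, nat_lit 3552, R4_116, R13_404, R5_74⟩]⟩, ⟨nat_lit 7, [⟨nat_lit 7, nat_lit 528, nat_lit 8928, nat_lit 4272, nat_lit 19440, nat_lit 9696, R3_89, R13_405, R11_202⟩]⟩]⟩,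
 ⟨nat_lit 6, [⟨nat_lit 4, [⟨nat_lit 4, nat_lit 8976, nat_lit 3264, nat_lit 3936, nat_lit 5280, nat_lit 7632, R5_82, R8_110, R4_159⟩, ⟨nat_lit 7, nat_lit 9648, nat_lit 9312, nat_lit 12288, nat_lit 15648, nat_lit 11760, R5_256, R9_326, R5_245⟩]⟩, ⟨nat_lit 6, [⟨nat_lit 4, nat_lit 9072, nat_lit 3312, nat_lit 16176, nat_lit 5664, nat_lit 2496, R11_337, R8_118, R3_52⟩, ⟨nat_lit 6, nat_lit 9360, nat_lit 10512, nat_lit 16272, nat_lit 16512, nat_lit 8592, R11_339, R5_344, R10_179⟩, ⟨nat_lit 7, nat_lit 9696, nat_lit 9408, nat_lit 16224, nat_lit 15744, nat_lit 7008, R11_338, R9_328, R0_146⟩]⟩, ⟨nat_lit 7, [⟨nat_lit 7, nat_lit 9744, nat_lit 9360, nat_lit 9936, nat_lit 15696, nat_lit 9744, R0_207, R9_327, R11_203⟩]⟩]⟩,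
 ⟨nat_lit 7, [⟨nat_lit 3, [⟨nat_lit 3, nat_lit 12288, nat_lit 15744, nat_lit 11280, nat_lit 14208, nat_lit 7296, R1_235, R2_296, R10_152⟩]⟩, ⟨nat_lit 7, [⟨nat_lit 3, nat_lit 12336, nat_lit 15792, nat_lit 12528, nat_lit 14160, nat_lit 6048, R10_261, R2_295, R1_126⟩, ⟨nat_lit 7, nat_lit 12480, nat_lit 9072, nat_lit 12480, nat_lit 9072, nat_lit 9792, R10_260, R3_189, R11_204⟩]⟩]⟩], [], [], [], [⟨nat_lit 4, [⟨nat_lit 4, [⟨nat_lit 4, nat_lit 192, nat_lit 12144, nat_lit 384, nat_lit 14112, nat_lit 2160, R4_8, R6_294, R7_45⟩]⟩, ⟨nat_lit 7, [⟨nat_lit 4, nat_lit 240, nat_lit 12240, nat_lit 3696, nat_lit 14256, nat_lit 1056, R3_77, R6_297, R2_22⟩, ⟨nat_lit 7, nat_lit 576, nat_lit 12384, nat_lit 4224, nat_lit 19536, nat_lit 384, R3_88, R13_407, R1_8⟩]⟩]⟩,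
 ⟨nat_lit 6, [⟨nat_lit 4, [⟨nat_lit 4, nat_lit 9024, nat_lit 14976, nat_lit 2928, nat_lit 13056, nat_lit 7632, R5_61, R8_272, R7_159⟩]⟩, ⟨nat_lit 6, [⟨nat_lit 4, nat_lit 9120, nat_lit 15168, nat_lit 15888, nat_lit 13296, nat_lit 6432, R11_331, R8_277, R2_134⟩, ⟨nat_lit 6, nat_lit 9408, nat_lit 15456, nat_lit 15936, nat_lit 16608, nat_lit 5136, R11_332, R5_346, R1_107⟩]⟩, ⟨nat_lit 7, [⟨nat_lit 4, nat_lit 9168, nat_lit 15072, nat_lit 9696, nat_lit 13200, nat_lit 8112, R0_202, R8_275, R2_169⟩, ⟨nat_lit 7, nat_lit 9792, nat_lit 15216, nat_lit 9744, nat_lit 15792, nat_lit 8640, R0_203, R9_329, R1_180⟩]⟩]⟩,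
 ⟨nat_lit 7, [⟨nat_lit 7, [⟨nat_lit 7, nat_lit 12528, nat_lit 14160, nat_lit 12336, nat_lit 15792, nat_lit 6048, R10_257, R3_329, R1_126⟩]⟩]⟩]], [[], [], [⟨nat_lit 0, [⟨nat_lit 0, [⟨nat_lit 0, nat_lit 14064, nat_lit 672, nat_lit 912, nat_lit 1152, nat_lit 2832, R4_19, R4_24, R4_59⟩, ⟨nat_lit 2, nat_lit 14256, nat_lit 816, nat_lit 7296, nat_lit 4464, nat_lit 4320, R4_152, R3_93, R5_90⟩]⟩, ⟨nat_lit 2, [⟨nat_lit 2, nat_lit 14304, nat_lit 864, nat_lit 6000, nat_lit 5040, nat_lit 10224, R3_125, R3_105, R11_213⟩]⟩]⟩,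
 ⟨nat_lit 2, [⟨nat_lit 2, [⟨nat_lit 2, nat_lit 19248, nat_lit 12672, nat_lit 12672, nat_lit 19248, nat_lit 10320, R10_264, R10_401, R11_215⟩, ⟨nat_lit 6, nat_lit 19344, nat_lit 12624, nat_lit 12720, nat_lit 15696, nat_lit 7920, R10_265, R1_327, R1_165⟩]⟩, ⟨nat_lit 6, [⟨nat_lit 6, nat_lit 19392, nat_lit 12576, nat_lit 11520, nat_lit 15744, nat_lit 8688, R1_240, R1_328, R10_181⟩]⟩]⟩,
 ⟨nat_lit 3, [⟨nat_lit 0, [⟨nat_lit 0, nat_lit 19680, nat_lit 9888, nat_lit 4080, nat_lit 144, nat_lit 8016, R5_85, R5_3, R4_167⟩, ⟨nat_lit 2, nat_lit 19824, nat_lit 10224, nat_lit 12528, nat_lit 14112, nat_lit 12672, R5_261, R0_294, R5_264⟩]⟩, ⟨nat_lit 2, [⟨nat_lit 2, nat_lit 19872, nat_lit 10320, nat_lit 10272, nat_lit 14160, nat_lit 10272, R0_214, R0_295, R11_214⟩]⟩, ⟨nat_lit 3, [⟨nat_lit 0, nat_lit 19728, nat_lit 9984, nat_lit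 16560, nat_lit 5808, nat_lit 10128, R11_345, R5_121, R3_211⟩, ⟨nat_lit 2, nat_lit 19920, nat_lit 10272, nat_lit 16608, nat_lit 14208, nat_lit 7152, R11_346, R0_296, R0_149⟩, ⟨nat_lit 3, nat_lit 20016, nat_lit 10128, nat_lit 16656, nat_lit 21456, nat_lit 8640, R11_347, R11_447, R10_180⟩]⟩]⟩,
 ⟨nat_lit 4, [⟨nat_lit 4, [⟨nat_lit 4, nat_lit 672, nat_lit 14064, nat_lit 912, nat_lit 1152, nat_lit 2832, R4_19, R4_24, R4_59⟩, ⟨nat_lit 7, nat_lit 816, nat_lit 14256, nat_lit 7296, nat_lit 4464, nat_lit 4320, R4_152, R3_93, R5_90⟩]⟩, ⟨nat_lit 7, [⟨nat_lit 7, nat_lit 864, nat_lit 14304, nat_lit 6000, nat_lit 5040, nat_lit 10224, R3_125, R3_105, R11_213⟩]⟩]⟩,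
 ⟨nat_lit 6, [⟨nat_lit 4, [⟨nat_lit 4, nat_lit 9888, nat_lit 19680, nat_lit 4080, nat_lit 144, nat_lit 8016, R5_85, R5_3, R4_167⟩, ⟨nat_lit 7, nat_lit 10224, nat_lit 19824, nat_lit 12528, nat_lit 14112, nat_lit 12672, R5_261, R0_294, R5_264⟩]⟩, ⟨nat_lit 6, [⟨nat_lit 4, nat_lit 9984, nat_lit 19728, nat_lit 16560, nat_lit 5808, nat_lit 10128, R11_345, R5_121, R3_211⟩, ⟨nat_lit 6, nat_lit 10128, nat_lit 20016, nat_lit 16656, nat_lit 21456, nat_lit 8640, R11_347, R11_447, R10_180⟩, ⟨nat_lit 7, nat_lit 10272, nat_lit 19920, nat_lit 16608, nat_lit 14208, nat_lit 7152, R11_346, R0_296, R0_149⟩]⟩, ⟨nat_lit 7, [⟨nat_lit 7, nat_lit 10320, nat_lit 19872, nat_lit 10272, nat_lit 14160, nat_lit 10272, R0_214, R0_295, R11_214⟩]⟩]⟩,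
 ⟨nat_lit 7, [⟨nat_lit 3, [⟨nat_lit 3, nat_lit 12576, nat_lit 19392, nat_lit 11520, nat_lit 15744, nat_lit 8688, R1_240, R1_328, R10_181⟩]⟩, ⟨nat_lit 7, [⟨nat_lit 3, nat_lit 12624, nat_lit 19344, nat_lit 12720, nat_lit 15696, nat_lit 7920, R10_265, R1_327, R1_165⟩, ⟨nat_lit 7, nat_lit 12672, nat_lit 19248, nat_lit 12672, nat_lit 19248, nat_lit 10320, R10_264, R10_401, R11_215⟩]⟩]⟩], [], [], [], [⟨nat_lit 2, [⟨nat_lit 6, [⟨nat_lit 6, nat_lit 19440, nat_lit 11376, nat_lit 11472, nat_lit 15792, nat_lit 15552, R1_239, R1_329, R1_324⟩]⟩]⟩,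
 ⟨nat_lit 4, [⟨nat_lit 4, [⟨nat_lit 4, nat_lit 720, nat_lit 12720, nat_lit 1296, nat_lit 624, nat_lit 2736, R4_27, R4_13, R7_57⟩]⟩, ⟨nat_lit 7, [⟨nat_lit 4, nat_lit 768, nat_lit 12816, nat_lit 4848, nat_lit 7008, nat_lit 3072, R3_101, R4_146, R2_64⟩, ⟨nat_lit 7, nat_lit 912, nat_lit 12960, nat_lit 5952, nat_lit 5088, nat_lit 2544, R3_124, R3_106, R1_53⟩]⟩]⟩,
 ⟨nat_lit 6, [⟨nat_lit 4, [⟨nat_lit 4, nat_lit 9936, nat_lit 15984, nat_lit 2976, nat_lit 240, nat_lit 8016, R5_62, R5_5, R7_167⟩]⟩, ⟨nat_lit 6, [⟨nat_lit 4, nat_lit 10032, nat_lit 16176, nat_lit 16464, nat_lit 5952, nat_lit 7008, R11_343, R5_124, R2_146⟩, ⟨nat_lit 6, nat_lit 10176, nat_lit 16464, nat_lit 16512, nat_lit 21552, nat_lit 5712, R11_344, R11_449, R1_119⟩]⟩, ⟨nat_lit 7, [⟨nat_lit 4, nat_lit 10080, nat_lit 16080, nat_lit 10176, nat_lit 7872, nat_lit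 10272, R0_212, R5_164, R2_214⟩, ⟨nat_lit 7, nat_lit 10368, nat_lit 16224, nat_lit 10224, nat_lit 14256, nat_lit 10848, R0_213, R0_297, R1_226⟩]⟩]⟩,
 ⟨nat_lit 7, [⟨nat_lit 7, [⟨nat_lit 7, nat_lit 12720, nat_lit 15696, nat_lit 12624, nat_lit 19344, nat_lit 7920, R10_263, R10_403, R1_165⟩]⟩]⟩]], [[], [], [], [], [], [], [⟨nat_lit 4, [⟨nat_lit 4, [⟨nat_lit 4, nat_lit 1056, nat_lit 2832, nat_lit 2688, nat_lit 1296, nat_lit 2544, R4_56, R8_27, R7_53⟩, ⟨nat_lit 5, nat_lit 1488, nat_lit 2880, nat_lit 11472, nat_lit 5280, nat_lit 21744, R4_239, R5_110, R14_453⟩]⟩, ⟨nat_lit 7, [⟨nat_lit 4, nat_lit 1104, nat_lit 3264, nat_lit 7104, nat_lit 7248, nat_lit 2880, R3_148, R8_151, R2_60⟩, ⟨nat_lit 5, nat_lit 1536, nat_lit 3360, nat_lit 7584, nat_lit 5472, nat_lit 10368, R3_158, R5_114, R12_216⟩, ⟨nat_lit 7, nat_lit 2112, nat_lit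 3312, nat_lit 7488, nat_lit 4992, nat_lit 2352, R3_156, R9_104, R1_49⟩]⟩]⟩,
 ⟨nat_lit 6, [⟨nat_lit 4, [⟨nat_lit 4, nat_lit 10560, nat_lit 4224, nat_lit 3072, nat_lit 14208, nat_lit 7968, R5_64, R9_296, R7_166⟩, ⟨nat_lit 5, nat_lit 11232, nat_lit 4272, nat_lit 14208, nat_lit 12912, nat_lit 22176, R5_296, R0_269, R14_462⟩]⟩, ⟨nat_lit 6, [⟨nat_lit 4, nat_lit 10608, nat_lit 5568, nat_lit 17088, nat_lit 14832, nat_lit 6816, R11_356, R9_309, R2_142⟩, ⟨nat_lit 5, nat_lit 11280, nat_lit 5616, nat_lit 17184, nat_lit 13536, nat_lit 17328, R11_358, R0_282, R12_361⟩, ⟨nat_lit 6, nat_lit 10896, nat_lit 5664, nat_lit 17136, nat_lit 3744, nat_lit 5520, R11_357, R0_78, R1_115⟩]⟩, ⟨nat_lit 7, [⟨nat_lit 4, nat_lit 10656, nat_lit 4896, nat_lit 10896, nat_lit 14544, nat_lit 10224, R0_227, R9_303, R2_213⟩, ⟨nat_lit 5, nat_lit 11328,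 nat_lit 4944, nat_lit 10944, nat_lit 13248, nat_lit 11184, R0_228, R0_276, R12_233⟩]⟩]⟩,
 ⟨nat_lit 7, [⟨nat_lit 7, [⟨nat_lit 7, nat_lit 12816, nat_lit 3696, nat_lit 13056, nat_lit 3168, nat_lit 7728, R10_272, R0_66, R1_161⟩]⟩]⟩]], [[], [], [⟨nat_lit 4, [⟨nat_lit 4, [⟨nat_lit 7, nat_lit 2544, nat_lit 3216, nat_lit 6720, nat_lit 1104, nat_lit 3792, R4_140, R3_23, R5_79⟩]⟩, ⟨nat_lit 7, [⟨nat_lit 3, nat_lit 2304, nat_lit 3120, nat_lit 6960, nat_lit 4368, nat_lit 7680, R3_145, R2_91, R1_160⟩, ⟨nat_lit 7, nat_lit 2592, nat_lit 3312, nat_lit 6336, nat_lit 6288, nat_lit 10128, R3_132, R3_131, R11_211⟩]⟩]⟩,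
 ⟨nat_lit 6, [⟨nat_lit 4, [⟨nat_lit 7, nat_lit 11952, nat_lit 3264, nat_lit 12384, nat_lit 8688, nat_lit 12144, R5_258, R0_181, R5_253⟩]⟩, ⟨nat_lit 6, [⟨nat_lit 7, nat_lit 12000, nat_lit 3408, nat_lit 16752, nat_lit 8784, nat_lit 7104, R11_349, R0_183, R0_148⟩]⟩, ⟨nat_lit 7, [⟨nat_lit 7, nat_lit 12048, nat_lit 3360, nat_lit 10368, nat_lit 8736, nat_lit 10176, R0_216, R0_182, R11_212⟩]⟩]⟩,
 ⟨nat_lit 7, [⟨nat_lit 3, [⟨nat_lit 3, nat_lit 13008, nat_lit 3072, nat_lit 11808, nat_lit 15024, nat_lit 8352, R1_246, R12_313, R10_174⟩]⟩, ⟨nat_lit 7, [⟨nat_lit 3, nat_lit 13056, nat_lit 3168, nat_lit 12816, nat_lit 15072, nat_lit 7728, R10_267, R12_314, R1_161⟩]⟩]⟩]]], [[], [], [[], [], [], [], [], [], [⟨nat_lit 4, [⟨nat_lit 4, [⟨nat_lit 4, nat_lit 1152, nat_lit 6960, nat_lit 3984, nat_lit 1392, nat_lit 2400, R8_83, R8_29,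 R7_50⟩, ⟨nat_lit 5, nat_lit 1632, nat_lit 7008, nat_lit 11952, nat_lit 6144, nat_lit 20160, R8_249, R5_128, R14_420⟩]⟩, ⟨nat_lit 5, [⟨nat_lit 5, nat_lit 1728, nat_lit 7824, nat_lit 7824, nat_lit 7056, nat_lit 15936, R5_163, R5_147, R12_332⟩]⟩, ⟨nat_lit 7, [⟨nat_lit 4, nat_lit 1200, nat_lit 8496, nat_lit 6480, nat_lit 7344, nat_lit 2592, R9_135, R8_153, R2_54⟩, ⟨nat_lit 5, nat_lit 1872, nat_lit 8592, nat_lit 7680, nat_lit 6672, nat_lit 7440, R9_160, R5_139, R12_155⟩, ⟨nat_lit 7, nat_lit 2160, nat_lit 8544, nat_lit 7344, nat_lit 6576, nat_lit 2064, R9_153, R9_137, R1_43⟩]⟩]⟩,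
 ⟨nat_lit 5, [⟨nat_lit 4, [⟨nat_lit 4, nat_lit 7440, nat_lit 7104, nat_lit 13728, nat_lit 15120, nat_lit 11712, R5_286, R5_315, R7_244⟩, ⟨nat_lit 5, nat_lit 7824, nat_lit 7152, nat_lit 14256, nat_lit 5760, nat_lit 21456, R5_297, R11_120, R14_447⟩]⟩, ⟨nat_lit 5, [⟨nat_lit 5, nat_lit 7920, nat_lit 7872, nat_lit 7440, nat_lit 6672, nat_lit 17232, R11_155, R11_139, R12_359⟩]⟩, ⟨nat_lit 7, [⟨nat_lit 4, nat_lit 7488, nat_lit 8736, nat_lit 4320, nat_lit 15696, nat_lit 11328, R0_90, R5_327, R2_236⟩, ⟨nat_lit 5, nat_lit 8064, nat_lit 8832, nat_lit 5520, nat_lit 6288, nat_lit 9216, R0_115, R11_131, R12_192⟩, ⟨nat_lit 7, nat_lit 8304, nat_lit 8784, nat_lit 5184, nat_lit 4416, nat_lit 11904, R0_108, R0_92, R1_248⟩]⟩]⟩,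
 ⟨nat_lit 6, [⟨nat_lit 4, [⟨nat_lit 4, nat_lit 10704, nat_lit 7584, nat_lit 12288, nat_lit 14256, nat_lit 7824, R9_256, R9_297, R7_163⟩, ⟨nat_lit 5, nat_lit 11424, nat_lit 7632, nat_lit 13056, nat_lit 12960, nat_lit 20880, R9_272, R0_270, R14_435⟩]⟩, ⟨nat_lit 5, [⟨nat_lit 5, nat_lit 11568, nat_lit 7968, nat_lit 11232, nat_lit 13824, nat_lit 16656, R0_234, R0_288, R12_347⟩]⟩, ⟨nat_lit 6, [⟨nat_lit 4, nat_lit 10752, nat_lit 9408, nat_lit 1632, nat_lit 14928, nat_lit 6672, R0_34, R9_311, R2_139⟩, ⟨nat_lit 5, nat_lit 11472, nat_lit 9456, nat_lit 11088, nat_lit 13632, nat_lit 16800, R0_231, R0_284, R12_350⟩, ⟨nat_lit 6, nat_lit 10944, nat_lit 9504, nat_lit 6672, nat_lit 3840, nat_lit 5376, R0_139, R0_80, R1_112⟩]⟩]⟩,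
 ⟨nat_lit 7, [⟨nat_lit 7, [⟨nat_lit 7, nat_lit 12864, nat_lit 9072, nat_lit 5136, nat_lit 4512, nat_lit 7440, R0_107, R0_94, R1_155⟩]⟩]⟩]]], [[], [], [], [[], [], [⟨nat_lit 4, [⟨nat_lit 3, [⟨nat_lit 3, nat_lit 2352, nat_lit 17616, nat_lit 6336, nat_lit 5376, nat_lit 8112, R2_132, R2_112, R10_169⟩]⟩, ⟨nat_lit 7, [⟨nat_lit 3, nat_lit 2400, nat_lit 18096, nat_lit 13536, nat_lit 4896, nat_lit 7200, R3_282, R2_102, R1_150⟩, ⟨nat_lit 7, nat_lit 2640, nat_lit 18240, nat_lit 5424, nat_lit 5760, nat_lit 9984, R3_113, R3_120, R11_208⟩]⟩]⟩,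
 ⟨nat_lit 5, [⟨nat_lit 3, [⟨nat_lit 3, nat_lit 8448, nat_lit 21312, nat_lit 5040, nat_lit 4080, nat_lit 8208, R1_105, R1_85, R10_171⟩]⟩, ⟨nat_lit 7, [⟨nat_lit 3, nat_lit 8496, nat_lit 21408, nat_lit 5616, nat_lit 3600, nat_lit 7248, R10_117, R1_75, R1_151⟩, ⟨nat_lit 7, nat_lit 8640, nat_lit 21456, nat_lit 5136, nat_lit 4176, nat_lit 10080, R10_107, R10_87, R11_210⟩]⟩]⟩,
 ⟨nat_lit 6, [⟨nat_lit 7, [⟨nat_lit 7, nat_lit 12096, nat_lit 22080, nat_lit 15216, nat_lit 8112, nat_lit 10032, R0_317, R0_169, R11_209⟩]⟩]⟩,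
 ⟨nat_lit 7, [⟨nat_lit 3, [⟨nat_lit 3, nat_lit 13104, nat_lit 19872, nat_lit 10896, nat_lit 15120, nat_lit 8160, R12_227, R12_315, R10_170⟩]⟩]⟩]]], [[], [], [], [], [], [[], [], [⟨nat_lit 1, [⟨nat_lit 0, [⟨nat_lit 2, nat_lit 16560, nat_lit 15120, nat_lit 11712, nat_lit 7104, nat_lit 13728, R7_244, R12_148, R5_286⟩]⟩]⟩]]], [[], [[], [], [⟨nat_lit 0, [⟨nat_lit 0, [⟨nat_lit 0, nat_lit 13968, nat_lit 3456, nat_lit 960, nat_lit 1680, nat_lit 2976, R7_20, R4_35, R4_62⟩, ⟨nat_lit 2, nat_lit 14112, nat_lit 3648, nat_lit 6960, nat_lit 12576, nat_lit 3216, R7_145, R3_262, R5_67⟩]⟩, ⟨nat_lit 2, [⟨nat_lit 2, nat_lit 14160, nat_lit 3792, nat_lit 5136, nat_lit 13344, nat_lit 9408, R2_107, R3_278, R11_196⟩]⟩, ⟨nat_lit 3, [⟨nat_lit 0, nat_lit 14016, nat_lit 3504, nat_lit 2352, nat_lit 8400, nat_lit 9792, R2_49, R4_175, R3_204⟩,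 ⟨nat_lit 2, nat_lit 14208, nat_lit 3696, nat_lit 9984, nat_lit 12960, nat_lit 6864, R2_208, R3_270, R0_143⟩]⟩]⟩,
 ⟨nat_lit 2, [⟨nat_lit 2, [⟨nat_lit 2, nat_lit 19200, nat_lit 3840, nat_lit 3840, nat_lit 19200, nat_lit 9456, R1_80, R10_400, R11_197⟩, ⟨nat_lit 6, nat_lit 19296, nat_lit 3888, nat_lit 15504, nat_lit 15648, nat_lit 7872, R1_323, R1_326, R1_164⟩]⟩]⟩,
 ⟨nat_lit 3, [⟨nat_lit 3, [⟨nat_lit 0, nat_lit 19632, nat_lit 3552, nat_lit 1824, nat_lit 5712, nat_lit 10080, R1_38, R5_119, R3_210⟩, ⟨nat_lit 2, nat_lit 19776, nat_lit 3744, nat_lit 10800, nat_lit 14064, nat_lit 6912, R1_225, R0_293, R0_144⟩, ⟨nat_lit 3, nat_lit 19968, nat_lit 3600, nat_lit 7248, nat_lit 21408, nat_lit 8496, R1_151, R11_446, R10_177⟩]⟩]⟩]], [], [], [], [[⟨nat_lit 0, [⟨nat_lit 0, [⟨nat_lit 0, nat_lit 13152, nat_lit 4512, nat_lit 1344,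 nat_lit 1728, nat_lit 10320, R7_28, R7_36, R6_215⟩, ⟨nat_lit 2, nat_lit 13440, nat_lit 6096, nat_lit 7344, nat_lit 288, nat_lit 11232, R7_153, R2_6, R8_234⟩]⟩, ⟨nat_lit 2, [⟨nat_lit 2, nat_lit 13584, nat_lit 7008, nat_lit 5568, nat_lit 6000, nat_lit 7728, R2_116, R2_125, R5_161⟩]⟩, ⟨nat_lit 3, [⟨nat_lit 0, nat_lit 13296, nat_lit 4896, nat_lit 192, nat_lit 8352, nat_lit 9696, R2_4, R7_174, R13_202⟩, ⟨nat_lit 2, nat_lit 13728, nat_lit 6624, nat_lit 7200, nat_lit 7296, nat_lit 7632, R2_150, R2_152, R9_159⟩, ⟨nat_lit 3, nat_lit 13824, nat_lit 5520, nat_lit 5904, nat_lit 5328, nat_lit 9888, R2_123, R2_111, R3_206⟩]⟩]⟩,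
 ⟨nat_lit 1, [⟨nat_lit 0, [⟨nat_lit 0, nat_lit 15984, nat_lit 4560, nat_lit 18768, nat_lit 4512, nat_lit 10608, R14_391, R14_94, R6_221⟩, ⟨nat_lit 1, nat_lit 17664, nat_lit 5280, nat_lit 19680, nat_lit 2880, nat_lit 11472, R14_410, R12_60, R4_239⟩, ⟨nat_lit 2, nat_lit 16800, nat_lit 6144, nat_lit 19344, nat_lit 7008, nat_lit 11952, R14_403, R12_146, R8_249⟩]⟩, ⟨nat_lit 2, [⟨nat_lit 2, nat_lit 16944, nat_lit 7056, nat_lit 15936, nat_lit 7824, nat_lit 7824, R12_332, R12_163, R5_163⟩]⟩, ⟨nat_lit 3, [⟨nat_lit 0, nat_lit 16176, nat_lit 4944, nat_lit 528, nat_lit 4992, nat_lit 9744, R12_11, R14_104, R13_203⟩, ⟨nat_lit 1, nat_lit 17808, nat_lit 5472, nat_lit 2640, nat_lit 3360, nat_lit 7584, R12_55, R12_70, R3_158⟩, ⟨nat_lit 2, nat_lit 17136, nat_lit 6672, nat_lit 1728, nat_lit 8592, nat_lit 7680, R12_36, R12_179,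 R9_160⟩, ⟨nat_lit 3, nat_lit 18192, nat_lit 5616, nat_lit 672, nat_lit 13536, nat_lit 10224, R12_14, R12_282, R3_213⟩]⟩]⟩,
 ⟨nat_lit 2, [⟨nat_lit 2, [⟨nat_lit 2, nat_lit 19056, nat_lit 7104, nat_lit 4272, nat_lit 4704, nat_lit 7776, R1_89, R1_98, R5_162⟩]⟩]⟩,
 ⟨nat_lit 3, [⟨nat_lit 3, [⟨nat_lit 3, nat_lit 19488, nat_lit 5568, nat_lit 4608, nat_lit 4032, nat_lit 10032, R1_96, R1_84, R3_209⟩]⟩]⟩], [⟨nat_lit 0, [⟨nat_lit 0, [⟨nat_lit 0, nat_lit 13248, nat_lit 11280, nat_lit 1488, nat_lit 1872, nat_lit 4128, R7_31, R7_39, R8_86⟩, ⟨nat_lit 2, nat_lit 13536, nat_lit 11328, nat_lit 7488, nat_lit 432, nat_lit 12144, R7_156, R2_9, R9_253⟩]⟩, ⟨nat_lit 2, [⟨nat_lit 2, nat_lit 13680, nat_lit 11472, nat_lit 5712, nat_lit 6144, nat_lit 1776, R2_119, R2_128, R0_37⟩]⟩, ⟨nat_lit 3, [⟨nat_lit 0, nat_lit 13392, nat_lit 11376,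 nat_lit 480, nat_lit 8496, nat_lit 12096, R2_10, R7_177, R9_252⟩, ⟨nat_lit 3, nat_lit 13920, nat_lit 11424, nat_lit 6192, nat_lit 5664, nat_lit 1728, R2_129, R2_118, R0_36⟩]⟩]⟩,
 ⟨nat_lit 1, [⟨nat_lit 0, [⟨nat_lit 0, nat_lit 16080, nat_lit 12864, nat_lit 20256, nat_lit 6288, nat_lit 12096, R14_422, R14_131, R8_252⟩, ⟨nat_lit 1, nat_lit 17712, nat_lit 12912, nat_lit 21552, nat_lit 4272, nat_lit 14208, R14_449, R12_89, R5_296⟩, ⟨nat_lit 2, nat_lit 16896, nat_lit 12960, nat_lit 21024, nat_lit 7632, nat_lit 12912, R14_438, R12_159, R9_269⟩]⟩, ⟨nat_lit 1, [⟨nat_lit 0, nat_lit 16128, nat_lit 13488, nat_lit 16032, nat_lit 7632, nat_lit 14112, R12_334, R14_159, R5_294⟩, ⟨nat_lit 1, nat_lit 17760, nat_lit 13536, nat_lit 17328, nat_lit 5616, nat_lit 17184, R12_361, R12_117, R11_358⟩, ⟨nat_lit 2, nat_lit 17088, nat_lit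 13632, nat_lit 16800, nat_lit 9456, nat_lit 11088, R12_350, R12_197, R0_231⟩]⟩, ⟨nat_lit 2, [⟨nat_lit 2, nat_lit 17040, nat_lit 13824, nat_lit 16656, nat_lit 7968, nat_lit 11232, R12_347, R12_166, R0_234⟩]⟩, ⟨nat_lit 3, [⟨nat_lit 0, nat_lit 16272, nat_lit 13152, nat_lit 7728, nat_lit 6960, nat_lit 12768, R12_161, R14_145, R9_266⟩, ⟨nat_lit 1, nat_lit 17856, nat_lit 13248, nat_lit 9600, nat_lit 4944, nat_lit 10944, R12_200, R12_103, R0_228⟩, ⟨nat_lit 3, nat_lit 18288, nat_lit 13200, nat_lit 8016, nat_lit 16608, nat_lit 11184, R12_167, R12_346, R0_233⟩]⟩]⟩,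
 ⟨nat_lit 2, [⟨nat_lit 2, [⟨nat_lit 2, nat_lit 19152, nat_lit 14352, nat_lit 4416, nat_lit 4848, nat_lit 6816, R1_92, R1_101, R0_142⟩]⟩]⟩,
 ⟨nat_lit 3, [⟨nat_lit 3, [⟨nat_lit 3, nat_lit 19584, nat_lit 14016, nat_lit 4896, nat_lit 4368, nat_lit 6768, R1_102, R1_91, R0_141⟩]⟩]⟩], [⟨nat_lit 0, [⟨nat_lit 0, [⟨nat_lit 0, nat_lit 13200, nat_lit 17376, nat_lit 1536, nat_lit 1776, nat_lit 4272, R7_32, R7_37, R4_89⟩, ⟨nat_lit 2, nat_lit 13488, nat_lit 17472, nat_lit 7536, nat_lit 336, nat_lit 3120, R7_157, R2_7, R5_65⟩]⟩, ⟨nat_lit 2, [⟨nat_lit 2, nat_lit 13632, nat_lit 17808, nat_lit 5760, nat_lit 6048, nat_lit 7344, R2_120, R2_126, R11_153⟩]⟩, ⟨nat_lit 3, [⟨nat_lit 0, nat_lit 13344, nat_lit 17520, nat_lit 624, nat_lit 8400, nat_lit 10752, R2_13, R7_175, R3_224⟩, ⟨nat_lit 2, nat_lit 13776, nat_lit 17712, nat_lit 7392,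 nat_lit 7344, nat_lit 5472, R2_154, R2_153, R0_114⟩, ⟨nat_lit 3, nat_lit 13872, nat_lit 17616, nat_lit 6336, nat_lit 5376, nat_lit 6816, R2_132, R2_112, R10_142⟩]⟩]⟩,
 ⟨nat_lit 1, [⟨nat_lit 0, [⟨nat_lit 0, nat_lit 16032, nat_lit 19296, nat_lit 21888, nat_lit 5280, nat_lit 12048, R14_456, R14_110, R4_251⟩, ⟨nat_lit 2, nat_lit 16848, nat_lit 19440, nat_lit 22416, nat_lit 7152, nat_lit 14256, R14_467, R12_149, R5_297⟩]⟩, ⟨nat_lit 2, [⟨nat_lit 2, nat_lit 16992, nat_lit 20592, nat_lit 17232, nat_lit 7872, nat_lit 7440, R12_359, R12_164, R11_155⟩]⟩, ⟨nat_lit 3, [⟨nat_lit 0, nat_lit 16224, nat_lit 19776, nat_lit 10512, nat_lit 5472, nat_lit 10992, R12_219, R14_114, R3_229⟩, ⟨nat_lit 2, nat_lit 17184, nat_lit 20016, nat_lit 11424, nat_lit 8832, nat_lit 5520, R12_238, R12_184, R0_115⟩, ⟨nat_lit 3, nat_lit 18240, nat_lit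 19872, nat_lit 10896, nat_lit 15120, nat_lit 6912, R12_227, R12_315, R10_144⟩]⟩]⟩,
 ⟨nat_lit 2, [⟨nat_lit 2, [⟨nat_lit 2, nat_lit 19104, nat_lit 21744, nat_lit 4464, nat_lit 4752, nat_lit 7392, R1_93, R1_99, R11_154⟩]⟩]⟩,
 ⟨nat_lit 3, [⟨nat_lit 3, [⟨nat_lit 3, nat_lit 19536, nat_lit 21312, nat_lit 5040, nat_lit 4080, nat_lit 6864, R1_105, R1_85, R10_143⟩]⟩]⟩]]]]
noncomputable def N3226 : T3 (List N0) := [[[[], [], [⟨nat_lit 0, [⟨nat_lit 0, [⟨nat_lit 0, nat_lit 96, nat_lit 3360, nat_lit 3216, nat_lit 3600, nat_lit 3120, R6_67, R6_75, R7_65⟩, ⟨nat_lit 1, nat_lit 144, nat_lit 3648, nat_lit 3360, nat_lit 3552, nat_lit 4608, R6_70, R4_74, R14_96⟩]⟩, ⟨nat_lit 1, [⟨nat_lit 1, nat_lit 576, nat_lit 3744, nat_lit 3120, nat_lit 3984, nat_lit 2976, R4_65, R4_83, R12_62⟩]⟩, ⟨nat_lit 2, [⟨nat_lit 0, nat_lit 912, nat_lit 3408,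 nat_lit 1872, nat_lit 3744, nat_lit 1440, R8_39, R6_78, R2_30⟩, ⟨nat_lit 1, nat_lit 1008, nat_lit 3888, nat_lit 3072, nat_lit 3888, nat_lit 6816, R8_64, R4_81, R12_142⟩, ⟨nat_lit 2, nat_lit 960, nat_lit 4128, nat_lit 2736, nat_lit 1968, nat_lit 912, R8_57, R8_41, R1_19⟩]⟩]⟩,
 ⟨nat_lit 2, [⟨nat_lit 2, [⟨nat_lit 2, nat_lit 1152, nat_lit 11760, nat_lit 12720, nat_lit 16032, nat_lit 6336, R5_265, R5_334, R1_132⟩]⟩]⟩,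
 ⟨nat_lit 3, [⟨nat_lit 0, [⟨nat_lit 0, nat_lit 384, nat_lit 9360, nat_lit 13056, nat_lit 18480, nat_lit 9312, R13_272, R13_385, R7_194⟩, ⟨nat_lit 1, nat_lit 432, nat_lit 9936, nat_lit 13104, nat_lit 14064, nat_lit 5136, R13_273, R3_293, R14_107⟩]⟩, ⟨nat_lit 1, [⟨nat_lit 1, nat_lit 624, nat_lit 10080, nat_lit 9840, nat_lit 14208, nat_lit 3504, R3_205, R3_296, R12_73⟩]⟩, ⟨nat_lit 2, [⟨nat_lit 0, nat_lit 1488, nat_lit 9456, nat_lit 10320, nat_lit 18576, nat_lit 8496, R9_215, R13_387, R2_177⟩, ⟨nat_lit 1, nat_lit 1584, nat_lit 10224, nat_lit 10416, nat_lit 14160, nat_lit 8256, R9_217, R3_295, R12_172⟩, ⟨nat_lit 2, nat_lit 1536, nat_lit 10464, nat_lit 10368, nat_lit 15168, nat_lit 9312, R9_216, R9_316, R1_194⟩]⟩, ⟨nat_lit 3, [⟨nat_lit 0, nat_lit 2448, nat_lit 9408, nat_lit 2784, nat_lit 18528, nat_lit 3408, R3_58,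 R13_386, R2_71⟩, ⟨nat_lit 1, nat_lit 2496, nat_lit 9984, nat_lit 2880, nat_lit 14112, nat_lit 13200, R3_60, R3_294, R12_275⟩, ⟨nat_lit 3, nat_lit 2544, nat_lit 9600, nat_lit 2832, nat_lit 3216, nat_lit 2880, R3_59, R3_67, R1_60⟩]⟩]⟩], [], [], [], [⟨nat_lit 0, [⟨nat_lit 0, [⟨nat_lit 0, nat_lit 0, nat_lit 3120, nat_lit 4032, nat_lit 1536, nat_lit 3360, R6_84, R6_32, R4_70⟩]⟩, ⟨nat_lit 2, [⟨nat_lit 0, nat_lit 720, nat_lit 3312, nat_lit 1824, nat_lit 1920, nat_lit 11664, R8_38, R6_40, R3_243⟩, ⟨nat_lit 2, nat_lit 768, nat_lit 4176, nat_lit 2688, nat_lit 2064, nat_lit 16512, R8_56, R8_43, R10_344⟩]⟩]⟩,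
 ⟨nat_lit 2, [⟨nat_lit 2, [⟨nat_lit 2, nat_lit 1056, nat_lit 12624, nat_lit 13728, nat_lit 15120, nat_lit 16560, R5_286, R5_315, R10_345⟩]⟩]⟩,
 ⟨nat_lit 3, [⟨nat_lit 0, [⟨nat_lit 0, nat_lit 192, nat_lit 9312, nat_lit 14448, nat_lit 16656, nat_lit 9360, R13_301, R13_347, R4_195⟩, ⟨nat_lit 3, nat_lit 240, nat_lit 10080, nat_lit 14496, nat_lit 1344, nat_lit 4848, R13_302, R3_28, R5_101⟩]⟩, ⟨nat_lit 2, [⟨nat_lit 0, nat_lit 1200, nat_lit 9504, nat_lit 12192, nat_lit 16704, nat_lit 12000, R9_254, R13_348, R3_250⟩, ⟨nat_lit 2, nat_lit 1248, nat_lit 11184, nat_lit 12288, nat_lit 14256, nat_lit 16608, R9_256, R9_297, R10_346⟩, ⟨nat_lit 3, nat_lit 1296, nat_lit 10416, nat_lit 12240, nat_lit 1968, nat_lit 13056, R9_255, R3_41, R0_272⟩]⟩, ⟨nat_lit 3, [⟨nat_lit 3, nat_lit 2352, nat_lit 10224, nat_lit 3504, nat_lit 1584,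 nat_lit 19584, R3_73, R3_33, R11_408⟩]⟩]⟩]], [], [[], [], [], [], [], [], [⟨nat_lit 0, [⟨nat_lit 0, [⟨nat_lit 0, nat_lit 48, nat_lit 8208, nat_lit 11520, nat_lit 3552, nat_lit 3648, R6_240, R4_74, R4_76⟩]⟩, ⟨nat_lit 2, [⟨nat_lit 0, nat_lit 816, nat_lit 8784, nat_lit 9792, nat_lit 9840, nat_lit 13968, R8_204, R4_205, R3_291⟩, ⟨nat_lit 2, nat_lit 864, nat_lit 8832, nat_lit 10368, nat_lit 6144, nat_lit 16800, R8_216, R5_128, R10_350⟩]⟩]⟩,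
 ⟨nat_lit 2, [⟨nat_lit 2, [⟨nat_lit 2, nat_lit 1104, nat_lit 11088, nat_lit 14256, nat_lit 19440, nat_lit 16848, R5_297, R11_405, R10_351⟩]⟩]⟩,
 ⟨nat_lit 3, [⟨nat_lit 0, [⟨nat_lit 0, nat_lit 288, nat_lit 9360, nat_lit 15024, nat_lit 14064, nat_lit 9936, R13_313, R3_293, R4_207⟩, ⟨nat_lit 3, nat_lit 336, nat_lit 9408, nat_lit 15072, nat_lit 16176, nat_lit 4944, R13_314, R10_337, R5_103⟩]⟩, ⟨nat_lit 2, [⟨nat_lit 0, nat_lit 1344, nat_lit 10464, nat_lit 12960, nat_lit 14928, nat_lit 14688, R9_270, R3_311, R3_306⟩, ⟨nat_lit 2, nat_lit 1392, nat_lit 10560, nat_lit 13056, nat_lit 12960, nat_lit 16896, R9_272, R0_270, R10_352⟩, ⟨nat_lit 3, nat_lit 1440, nat_lit 10512, nat_lit 13008, nat_lit 16272, nat_lit 13152, R9_271, R10_339, R0_274⟩]⟩, ⟨nat_lit 3, [⟨nat_lit 3, nat_lit 2400, nat_lit 10080, nat_lit 10992, nat_lit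 16224, nat_lit 19776, R3_229, R10_338, R11_412⟩]⟩]⟩]], [[], [], [⟨nat_lit 3, [⟨nat_lit 0, [⟨nat_lit 0, nat_lit 480, nat_lit 4848, nat_lit 13344, nat_lit 1344, nat_lit 10080, R13_278, R3_28, R7_210⟩, ⟨nat_lit 1, nat_lit 528, nat_lit 4944, nat_lit 13392, nat_lit 16176, nat_lit 5184, R13_279, R10_337, R14_108⟩]⟩, ⟨nat_lit 1, [⟨nat_lit 1, nat_lit 672, nat_lit 5616, nat_lit 10224, nat_lit 18192, nat_lit 3552, R3_213, R10_379, R12_74⟩]⟩, ⟨nat_lit 2, [⟨nat_lit 0, nat_lit 1632, nat_lit 6576, nat_lit 10656, nat_lit 7824, nat_lit 9264, R9_222, R3_163, R2_193⟩, ⟨nat_lit 1, nat_lit 1728, nat_lit 6672, nat_lit 10752, nat_lit 17136, nat_lit 8304, R9_224, R10_357, R12_173⟩, ⟨nat_lit 2, nat_lit 1680, nat_lit 6816, nat_lit 10704, nat_lit 912, nat_lit 10080, R9_223, R0_19, R1_210⟩]⟩, ⟨nat_lit 3, [⟨nat_lit 0, nat_lit 2592, nat_lit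 5424, nat_lit 7536, nat_lit 6528, nat_lit 4272, R3_157, R3_136, R2_89⟩, ⟨nat_lit 1, nat_lit 2640, nat_lit 5472, nat_lit 7584, nat_lit 17808, nat_lit 13440, R3_158, R10_371, R12_280⟩]⟩]⟩]]], [[[], [], [⟨nat_lit 0, [⟨nat_lit 0, [⟨nat_lit 0, nat_lit 6864, nat_lit 11664, nat_lit 1824, nat_lit 9120, nat_lit 3312, R8_38, R6_190, R7_69⟩, ⟨nat_lit 1, nat_lit 6912, nat_lit 13968, nat_lit 9792, nat_lit 9840, nat_lit 6432, R8_204, R4_205, R14_134⟩]⟩, ⟨nat_lit 1, [⟨nat_lit 1, nat_lit 7776, nat_lit 14016, nat_lit 864, nat_lit 10320, nat_lit 4416, R5_18, R4_215, R12_92⟩]⟩, ⟨nat_lit 2, [⟨nat_lit 0, nat_lit 8352, nat_lit 11808, nat_lit 1056, nat_lit 9312, nat_lit 1632, R9_22, R6_194, R2_34⟩, ⟨nat_lit 1, nat_lit 8448, nat_lit 14160, nat_lit 1776, nat_lit 10224, nat_lit 7392, R9_37, R4_213, R12_154⟩, ⟨nat_lit 2, nat_lit 8400,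 nat_lit 16944, nat_lit 1488, nat_lit 6480, nat_lit 1104, R9_31, R8_135, R1_23⟩]⟩]⟩,
 ⟨nat_lit 2, [⟨nat_lit 2, [⟨nat_lit 2, nat_lit 9024, nat_lit 17280, nat_lit 4272, nat_lit 16176, nat_lit 6528, R0_89, R5_337, R1_136⟩]⟩]⟩,
 ⟨nat_lit 3, [⟨nat_lit 0, [⟨nat_lit 0, nat_lit 7488, nat_lit 12000, nat_lit 12192, nat_lit 18960, nat_lit 9504, R9_254, R13_395, R7_198⟩, ⟨nat_lit 1, nat_lit 7536, nat_lit 14688, nat_lit 12960, nat_lit 14928, nat_lit 7104, R9_270, R3_311, R14_148⟩]⟩, ⟨nat_lit 1, [⟨nat_lit 1, nat_lit 7920, nat_lit 14880, nat_lit 11136, nat_lit 15024, nat_lit 5088, R0_232, R3_313, R12_106⟩]⟩, ⟨nat_lit 3, [⟨nat_lit 0, nat_lit 9264, nat_lit 12144, nat_lit 1392, nat_lit 19008, nat_lit 3696, R0_29, R13_396, R2_77⟩, ⟨nat_lit 1, nat_lit 9312, nat_lit 14832, nat_lit 10752, nat_lit 14976, nat_lit 16272, R0_224, R3_312,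 R12_339⟩, ⟨nat_lit 3, nat_lit 9360, nat_lit 15600, nat_lit 6528, nat_lit 9264, nat_lit 3168, R0_136, R3_193, R1_66⟩]⟩]⟩], [], [], [], [⟨nat_lit 0, [⟨nat_lit 0, [⟨nat_lit 0, nat_lit 6720, nat_lit 1440, nat_lit 1872, nat_lit 7632, nat_lit 3408, R8_39, R6_159, R4_71⟩]⟩, ⟨nat_lit 2, [⟨nat_lit 0, nat_lit 8064, nat_lit 1632, nat_lit 1008, nat_lit 8064, nat_lit 11808, R9_21, R6_168, R3_246⟩, ⟨nat_lit 2, nat_lit 8112, nat_lit 2592, nat_lit 1440, nat_lit 6576, nat_lit 16704, R9_30, R8_137, R10_348⟩]⟩]⟩,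
 ⟨nat_lit 2, [⟨nat_lit 2, [⟨nat_lit 2, nat_lit 8880, nat_lit 11328, nat_lit 4320, nat_lit 15696, nat_lit 16752, R0_90, R5_327, R10_349⟩]⟩]⟩,
 ⟨nat_lit 3, [⟨nat_lit 0, [⟨nat_lit 0, nat_lit 7200, nat_lit 8496, nat_lit 10320, nat_lit 17376, nat_lit 9456, R9_215, R13_362, R4_197⟩, ⟨nat_lit 3, nat_lit 7248, nat_lit 9264, nat_lit 10656, nat_lit 7824, nat_lit 6576, R9_222, R3_163, R5_137⟩]⟩, ⟨nat_lit 3, [⟨nat_lit 3, nat_lit 9120, nat_lit 9408, nat_lit 5280, nat_lit 8112, nat_lit 19728, R0_110, R3_169, R11_411⟩]⟩]⟩]], [[], [], [⟨nat_lit 0, [⟨nat_lit 0, [⟨nat_lit 0, nat_lit 6960, nat_lit 1152, nat_lit 2688, nat_lit 2064, nat_lit 4176, R8_56, R8_43, R7_87⟩, ⟨nat_lit 1, nat_lit 7008, nat_lit 1632, nat_lit 10368, nat_lit 6144, nat_lit 6480, R8_216, R5_128, R14_135⟩]⟩, ⟨nat_lit 1, [⟨nat_lit 1, nat_lit 7824, nat_lit 1728,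 nat_lit 7824, nat_lit 7056, nat_lit 4464, R5_163, R5_147, R12_93⟩]⟩, ⟨nat_lit 2, [⟨nat_lit 0, nat_lit 8496, nat_lit 1200, nat_lit 6480, nat_lit 6576, nat_lit 2592, R9_135, R8_137, R2_54⟩, ⟨nat_lit 1, nat_lit 8592, nat_lit 1872, nat_lit 7680, nat_lit 6672, nat_lit 7440, R9_160, R5_139, R12_155⟩, ⟨nat_lit 2, nat_lit 8544, nat_lit 2160, nat_lit 7344, nat_lit 6576, nat_lit 2064, R9_153, R9_137, R1_43⟩]⟩]⟩,
 ⟨nat_lit 1, [⟨nat_lit 0, [⟨nat_lit 0, nat_lit 7104, nat_lit 7440, nat_lit 13728, nat_lit 15120, nat_lit 12624, R5_286, R5_315, R7_263⟩, ⟨nat_lit 1, nat_lit 7152, nat_lit 7824, nat_lit 14256, nat_lit 19440, nat_lit 7776, R5_297, R11_405, R14_162⟩]⟩, ⟨nat_lit 1, [⟨nat_lit 1, nat_lit 7872, nat_lit 7920, nat_lit 17328, nat_lit 20592, nat_lit 5760, R11_361, R11_429, R12_120⟩]⟩, ⟨nat_lit 2, [⟨nat_lit 0, nat_lit 8736,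 nat_lit 7488, nat_lit 4320, nat_lit 15696, nat_lit 11328, R0_90, R5_327, R2_236⟩, ⟨nat_lit 1, nat_lit 8832, nat_lit 8064, nat_lit 5520, nat_lit 20016, nat_lit 9216, R0_115, R11_417, R12_192⟩, ⟨nat_lit 2, nat_lit 8784, nat_lit 8304, nat_lit 5184, nat_lit 4416, nat_lit 11904, R0_108, R0_92, R1_248⟩]⟩]⟩,
 ⟨nat_lit 2, [⟨nat_lit 2, [⟨nat_lit 2, nat_lit 9072, nat_lit 12864, nat_lit 5136, nat_lit 4512, nat_lit 7440, R0_107, R0_94, R1_155⟩]⟩]⟩,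
 ⟨nat_lit 3, [⟨nat_lit 0, [⟨nat_lit 0, nat_lit 7584, nat_lit 10704, nat_lit 12288, nat_lit 14256, nat_lit 11184, R9_256, R9_297, R7_233⟩, ⟨nat_lit 1, nat_lit 7632, nat_lit 11424, nat_lit 13056, nat_lit 12960, nat_lit 7200, R9_272, R0_270, R14_150⟩]⟩, ⟨nat_lit 1, [⟨nat_lit 1, nat_lit 7968, nat_lit 11568, nat_lit 11232, nat_lit 13824, nat_lit 5184, R0_234, R0_288, R12_108⟩]⟩, ⟨nat_lit 3, [⟨nat_lit 0, nat_lit 9408, nat_lit 10752, nat_lit 1632, nat_lit 14928, nat_lit 6672, R0_34, R9_311, R2_139⟩, ⟨nat_lit 1, nat_lit 9456, nat_lit 11472, nat_lit 11088, nat_lit 13632, nat_lit 16800, R0_231, R0_284, R12_350⟩, ⟨nat_lit 3, nat_lit 9504, nat_lit 10944, nat_lit 6672, nat_lit 3840, nat_lit 5376, R0_139, R0_80, R1_112⟩]⟩]⟩], [], [], [], [⟨nat_lit 0, [⟨nat_lit 0, [⟨nat_lit 0, nat_lit 6768, nat_lit 912, nat_lit 2736, nat_lit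 1968, nat_lit 4128, R8_57, R8_41, R4_86⟩]⟩, ⟨nat_lit 2, [⟨nat_lit 0, nat_lit 8160, nat_lit 1104, nat_lit 6432, nat_lit 6480, nat_lit 16944, R9_134, R8_135, R3_353⟩, ⟨nat_lit 2, nat_lit 8208, nat_lit 2064, nat_lit 7296, nat_lit 6672, nat_lit 17280, R9_152, R9_139, R10_360⟩]⟩]⟩,
 ⟨nat_lit 1, [⟨nat_lit 0, [⟨nat_lit 0, nat_lit 7056, nat_lit 6336, nat_lit 12720, nat_lit 16032, nat_lit 11760, R5_265, R5_334, R4_245⟩]⟩, ⟨nat_lit 2, [⟨nat_lit 0, nat_lit 8640, nat_lit 6528, nat_lit 4272, nat_lit 16176, nat_lit 17280, R0_89, R5_337, R3_360⟩, ⟨nat_lit 2, nat_lit 8688, nat_lit 7440, nat_lit 5136, nat_lit 4512, nat_lit 17376, R0_107, R0_94, R10_362⟩]⟩]⟩,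
 ⟨nat_lit 2, [⟨nat_lit 2, [⟨nat_lit 2, nat_lit 8928, nat_lit 11904, nat_lit 5184, nat_lit 4416, nat_lit 17328, R0_108, R0_92, R10_361⟩]⟩]⟩,
 ⟨nat_lit 3, [⟨nat_lit 0, [⟨nat_lit 0, nat_lit 7296, nat_lit 9312, nat_lit 10368, nat_lit 15168, nat_lit 10464, R9_216, R9_316, R4_218⟩, ⟨nat_lit 3, nat_lit 7344, nat_lit 10080, nat_lit 10704, nat_lit 912, nat_lit 6816, R9_223, R0_19, R5_142⟩]⟩, ⟨nat_lit 3, [⟨nat_lit 3, nat_lit 9168, nat_lit 10224, nat_lit 5328, nat_lit 6144, nat_lit 20112, R0_111, R0_128, R11_419⟩]⟩]⟩]], [[], [], [], [], [], [], [⟨nat_lit 0, [⟨nat_lit 0, [⟨nat_lit 0, nat_lit 6816, nat_lit 6816, nat_lit 3072, nat_lit 3888, nat_lit 3888, R8_64, R4_81, R4_81⟩]⟩, ⟨nat_lit 2, [⟨nat_lit 0, nat_lit 8256, nat_lit 7392, nat_lit 10416, nat_lit 10224, nat_lit 14160, R9_217, R4_213, R3_295⟩, ⟨nat_lit 2, nat_lit 8304,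 nat_lit 7440, nat_lit 10752, nat_lit 6672, nat_lit 17136, R9_224, R5_139, R10_357⟩]⟩]⟩,
 ⟨nat_lit 2, [⟨nat_lit 2, [⟨nat_lit 2, nat_lit 8976, nat_lit 9216, nat_lit 5520, nat_lit 20016, nat_lit 17184, R0_115, R11_417, R10_358⟩]⟩]⟩,
 ⟨nat_lit 3, [⟨nat_lit 0, [⟨nat_lit 0, nat_lit 7392, nat_lit 8256, nat_lit 10416, nat_lit 14160, nat_lit 10224, R9_217, R3_295, R4_213⟩, ⟨nat_lit 3, nat_lit 7440, nat_lit 8304, nat_lit 10752, nat_lit 17136, nat_lit 6672, R9_224, R10_357, R5_139⟩]⟩, ⟨nat_lit 3, [⟨nat_lit 3, nat_lit 9216, nat_lit 8976, nat_lit 5520, nat_lit 17184, nat_lit 20016, R0_115, R10_358, R11_417⟩]⟩]⟩]], [[], [], [⟨nat_lit 3, [⟨nat_lit 0, [⟨nat_lit 0, nat_lit 7680, nat_lit 13056, nat_lit 12240, nat_lit 1968, nat_lit 10416, R9_255, R3_41, R7_217⟩, ⟨nat_lit 1, nat_lit 7728, nat_lit 13152, nat_lit 13008, nat_lit 16272,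 nat_lit 7152, R9_271, R10_339, R14_149⟩]⟩, ⟨nat_lit 1, [⟨nat_lit 1, nat_lit 8016, nat_lit 13200, nat_lit 11184, nat_lit 18288, nat_lit 5136, R0_233, R10_381, R12_107⟩]⟩, ⟨nat_lit 3, [⟨nat_lit 0, nat_lit 9552, nat_lit 13104, nat_lit 1488, nat_lit 6912, nat_lit 4560, R0_31, R3_144, R2_95⟩, ⟨nat_lit 1, nat_lit 9600, nat_lit 13248, nat_lit 10944, nat_lit 17856, nat_lit 16464, R0_228, R10_372, R12_343⟩]⟩]⟩]]], [[], [], [[], [], [], [], [⟨nat_lit 2, [⟨nat_lit 6, [⟨nat_lit 6, nat_lit 3840, nat_lit 11184, nat_lit 12144, nat_lit 15072, nat_lit 15600, R1_253, R1_314, R5_325⟩]⟩]⟩,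
 ⟨nat_lit 4, [⟨nat_lit 4, [⟨nat_lit 4, nat_lit 2784, nat_lit 1296, nat_lit 2352, nat_lit 3456, nat_lit 7536, R4_49, R4_72, R6_157⟩]⟩, ⟨nat_lit 7, [⟨nat_lit 4, nat_lit 4128, nat_lit 8352, nat_lit 480, nat_lit 9504, nat_lit 17232, R5_10, R4_198, R13_359⟩, ⟨nat_lit 7, nat_lit 4176, nat_lit 9072, nat_lit 7440, nat_lit 6960, nat_lit 7728, R5_155, R5_145, R3_161⟩]⟩]⟩,
 ⟨nat_lit 6, [⟨nat_lit 4, [⟨nat_lit 4, nat_lit 3168, nat_lit 1344, nat_lit 2160, nat_lit 11856, nat_lit 7824, R3_45, R3_247, R6_163⟩, ⟨nat_lit 6, nat_lit 3216, nat_lit 2496, nat_lit 2688, nat_lit 18048, nat_lit 5808, R3_56, R10_376, R8_121⟩]⟩, ⟨nat_lit 6, [⟨nat_lit 6, nat_lit 3648, nat_lit 11232, nat_lit 12912, nat_lit 18096, nat_lit 15552, R10_269, R10_377, R5_324⟩]⟩, ⟨nat_lit 7, [⟨nat_lit 4, nat_lit 4752, nat_lit 8400, nat_lit 10512, nat_lit 12288,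 nat_lit 17280, R0_219, R3_256, R13_360⟩, ⟨nat_lit 6, nat_lit 4800, nat_lit 10128, nat_lit 10560, nat_lit 18144, nat_lit 14496, R0_220, R10_378, R9_302⟩, ⟨nat_lit 7, nat_lit 4848, nat_lit 9168, nat_lit 10608, nat_lit 13776, nat_lit 8304, R0_221, R0_287, R3_173⟩]⟩]⟩,
 ⟨nat_lit 7, [⟨nat_lit 3, [⟨nat_lit 7, nat_lit 6384, nat_lit 14352, nat_lit 11088, nat_lit 20448, nat_lit 12768, R1_231, R11_426, R2_266⟩]⟩, ⟨nat_lit 7, [⟨nat_lit 7, nat_lit 5520, nat_lit 9120, nat_lit 16848, nat_lit 20400, nat_lit 8016, R11_351, R11_425, R3_167⟩]⟩]⟩], [⟨nat_lit 2, [⟨nat_lit 6, [⟨nat_lit 6, nat_lit 3888, nat_lit 11760, nat_lit 12192, nat_lit 15168, nat_lit 13920, R1_254, R1_316, R0_290⟩]⟩]⟩,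
 ⟨nat_lit 4, [⟨nat_lit 4, [⟨nat_lit 4, nat_lit 2928, nat_lit 768, nat_lit 2736, nat_lit 4176, nat_lit 624, R4_57, R4_87, R8_13⟩]⟩, ⟨nat_lit 7, [⟨nat_lit 4, nat_lit 4320, nat_lit 9168, nat_lit 672, nat_lit 10512, nat_lit 15120, R5_14, R4_219, R9_315⟩, ⟨nat_lit 7, nat_lit 4368, nat_lit 9888, nat_lit 7632, nat_lit 7248, nat_lit 864, R5_159, R5_151, R0_18⟩]⟩]⟩,
 ⟨nat_lit 6, [⟨nat_lit 4, [⟨nat_lit 4, nat_lit 3408, nat_lit 816, nat_lit 7056, nat_lit 16992, nat_lit 6000, R3_147, R3_354, R8_125⟩, ⟨nat_lit 6, nat_lit 3456, nat_lit 1968, nat_lit 7440, nat_lit 18336, nat_lit 5040, R3_155, R10_382, R9_105⟩]⟩, ⟨nat_lit 6, [⟨nat_lit 6, nat_lit 3744, nat_lit 11808, nat_lit 13008, nat_lit 18384, nat_lit 3072, R10_271, R10_383, R0_64⟩]⟩, ⟨nat_lit 7, [⟨nat_lit 4, nat_lit 4992, nat_lit 9216, nat_lit 10800, nat_lit 17136, nat_lit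 15312, R0_225, R3_357, R9_319⟩, ⟨nat_lit 7, nat_lit 5040, nat_lit 9984, nat_lit 10848, nat_lit 13872, nat_lit 8976, R0_226, R0_289, R0_187⟩]⟩]⟩,
 ⟨nat_lit 7, [⟨nat_lit 7, [⟨nat_lit 7, nat_lit 5712, nat_lit 9936, nat_lit 17040, nat_lit 20736, nat_lit 6096, R11_355, R11_432, R0_127⟩]⟩]⟩], [⟨nat_lit 0, [⟨nat_lit 0, [⟨nat_lit 0, nat_lit 5904, nat_lit 2976, nat_lit 3120, nat_lit 3984, nat_lit 3744, R4_65, R4_83, R4_78⟩]⟩, ⟨nat_lit 2, [⟨nat_lit 0, nat_lit 6048, nat_lit 4416, nat_lit 864, nat_lit 10320, nat_lit 14016, R5_18, R4_215, R3_292⟩, ⟨nat_lit 2, nat_lit 6096, nat_lit 4464, nat_lit 7824, nat_lit 7056, nat_lit 16944, R5_163, R5_147, R10_353⟩]⟩]⟩,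
 ⟨nat_lit 2, [⟨nat_lit 2, [⟨nat_lit 2, nat_lit 6144, nat_lit 5760, nat_lit 17328, nat_lit 20592, nat_lit 16992, R11_361, R11_429, R10_354⟩]⟩, ⟨nat_lit 6, [⟨nat_lit 2, nat_lit 3936, nat_lit 6480, nat_lit 12288, nat_lit 20640, nat_lit 14112, R1_256, R11_430, R1_294⟩, ⟨nat_lit 6, nat_lit 3984, nat_lit 6432, nat_lit 12240, nat_lit 15120, nat_lit 19920, R1_255, R1_315, R11_415⟩]⟩]⟩,
 ⟨nat_lit 3, [⟨nat_lit 0, [⟨nat_lit 0, nat_lit 5952, nat_lit 3504, nat_lit 9840, nat_lit 14208, nat_lit 10080, R3_205, R3_296, R4_210⟩, ⟨nat_lit 3, nat_lit 6000, nat_lit 3552, nat_lit 10224, nat_lit 18192, nat_lit 5616, R3_213, R10_379, R5_117⟩]⟩, ⟨nat_lit 2, [⟨nat_lit 0, nat_lit 6192, nat_lit 5088, nat_lit 11136, nat_lit 15024, nat_lit 14880, R0_232, R3_313, R3_310⟩, ⟨nat_lit 2, nat_lit 6240, nat_lit 5184, nat_lit 11232, nat_lit 13824,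 nat_lit 17040, R0_234, R0_288, R10_355⟩, ⟨nat_lit 3, nat_lit 6288, nat_lit 5136, nat_lit 11184, nat_lit 18288, nat_lit 13200, R0_233, R10_381, R0_275⟩]⟩, ⟨nat_lit 3, [⟨nat_lit 3, nat_lit 6672, nat_lit 3792, nat_lit 13104, nat_lit 18240, nat_lit 19872, R10_273, R10_380, R11_414⟩]⟩]⟩,
 ⟨nat_lit 4, [⟨nat_lit 4, [⟨nat_lit 4, nat_lit 2976, nat_lit 5904, nat_lit 3120, nat_lit 3984, nat_lit 3744, R4_65, R4_83, R4_78⟩]⟩, ⟨nat_lit 7, [⟨nat_lit 4, nat_lit 4416, nat_lit 6048, nat_lit 864, nat_lit 10320, nat_lit 14016, R5_18, R4_215, R3_292⟩, ⟨nat_lit 7, nat_lit 4464, nat_lit 6096, nat_lit 7824, nat_lit 7056, nat_lit 16944, R5_163, R5_147, R10_353⟩]⟩]⟩,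
 ⟨nat_lit 6, [⟨nat_lit 4, [⟨nat_lit 4, nat_lit 3504, nat_lit 5952, nat_lit 9840, nat_lit 14208, nat_lit 10080, R3_205, R3_296, R4_210⟩, ⟨nat_lit 6, nat_lit 3552, nat_lit 6000, nat_lit 10224, nat_lit 18192, nat_lit 5616, R3_213, R10_379, R5_117⟩]⟩, ⟨nat_lit 6, [⟨nat_lit 6, nat_lit 3792, nat_lit 6672, nat_lit 13104, nat_lit 18240, nat_lit 19872, R10_273, R10_380, R11_414⟩]⟩, ⟨nat_lit 7, [⟨nat_lit 4, nat_lit 5088, nat_lit 6192, nat_lit 11136, nat_lit 15024, nat_lit 14880, R0_232, R3_313, R3_310⟩, ⟨nat_lit 6, nat_lit 5136, nat_lit 6288, nat_lit 11184, nat_lit 18288, nat_lit 13200, R0_233, R10_381, R0_275⟩, ⟨nat_lit 7, nat_lit 5184, nat_lit 6240, nat_lit 11232, nat_lit 13824, nat_lit 17040, R0_234, R0_288, R10_355⟩]⟩]⟩,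
 ⟨nat_lit 7, [⟨nat_lit 3, [⟨nat_lit 3, nat_lit 6432, nat_lit 3984, nat_lit 12240, nat_lit 15120, nat_lit 19920, R1_255, R1_315, R11_415⟩, ⟨nat_lit 7, nat_lit 6480, nat_lit 3936, nat_lit 12288, nat_lit 20640, nat_lit 14112, R1_256, R11_430, R1_294⟩]⟩, ⟨nat_lit 7, [⟨nat_lit 7, nat_lit 5760, nat_lit 6144, nat_lit 17328, nat_lit 20592, nat_lit 16992, R11_361, R11_429, R10_354⟩]⟩]⟩]], [], [], [], [[], [], [], [], [⟨nat_lit 4, [⟨nat_lit 4, [⟨nat_lit 4, nat_lit 2688, nat_lit 11616, nat_lit 2304, nat_lit 3504, nat_lit 9072, R4_48, R7_73, R6_189⟩, ⟨nat_lit 5, nat_lit 2736, nat_lit 13920, nat_lit 11184, nat_lit 11616, nat_lit 9744, R4_233, R14_242, R4_203⟩]⟩, ⟨nat_lit 7, [⟨nat_lit 4, nat_lit 4032, nat_lit 11952, nat_lit 2688, nat_lit 9648, nat_lit 18768, R5_56, R7_201, R13_391⟩, ⟨nat_lit 5, nat_lit 4080, nat_lit 14640,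 nat_lit 13920, nat_lit 12000, nat_lit 14736, R5_290, R14_250, R3_307⟩]⟩]⟩,
 ⟨nat_lit 6, [⟨nat_lit 4, [⟨nat_lit 4, nat_lit 3024, nat_lit 11760, nat_lit 2208, nat_lit 1824, nat_lit 9216, R3_46, R2_38, R6_192⟩, ⟨nat_lit 5, nat_lit 3120, nat_lit 14112, nat_lit 2880, nat_lit 10320, nat_lit 9984, R3_60, R12_215, R4_208⟩, ⟨nat_lit 6, nat_lit 3072, nat_lit 16896, nat_lit 2736, nat_lit 1296, nat_lit 5760, R3_57, R1_27, R8_120⟩]⟩, ⟨nat_lit 6, [⟨nat_lit 6, nat_lit 3600, nat_lit 17232, nat_lit 12960, nat_lit 6720, nat_lit 16128, R10_270, R1_140, R5_336⟩]⟩, ⟨nat_lit 7, [⟨nat_lit 4, nat_lit 4608, nat_lit 12240, nat_lit 10656, nat_lit 8688, nat_lit 18864, R0_222, R2_181, R13_393⟩, ⟨nat_lit 5, nat_lit 4704, nat_lit 14976, nat_lit 10752, nat_lit 11088, nat_lit 14832, R0_224, R12_231, R3_309⟩, ⟨nat_lit 6, nat_lit 4656, nat_lit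 17088, nat_lit 10704, nat_lit 9504, nat_lit 15264, R0_223, R1_198, R9_318⟩]⟩]⟩,
 ⟨nat_lit 7, [⟨nat_lit 3, [⟨nat_lit 7, nat_lit 6336, nat_lit 15648, nat_lit 11328, nat_lit 13632, nat_lit 13872, R1_236, R1_284, R2_289⟩]⟩, ⟨nat_lit 7, [⟨nat_lit 4, nat_lit 5376, nat_lit 12096, nat_lit 16896, nat_lit 3840, nat_lit 18816, R11_352, R2_80, R13_392⟩, ⟨nat_lit 5, nat_lit 5424, nat_lit 14784, nat_lit 16992, nat_lit 16896, nat_lit 14784, R11_354, R12_352, R3_308⟩, ⟨nat_lit 7, nat_lit 5472, nat_lit 15552, nat_lit 16944, nat_lit 3312, nat_lit 9216, R11_353, R1_69, R3_192⟩]⟩]⟩], [⟨nat_lit 4, [⟨nat_lit 4, [⟨nat_lit 4, nat_lit 2832, nat_lit 17424, nat_lit 2688, nat_lit 4464, nat_lit 720, R4_56, R7_93, R8_15⟩, ⟨nat_lit 5, nat_lit 2880, nat_lit 17664, nat_lit 11472, nat_lit 11664, nat_lit 5280, R4_239, R14_243, R5_110⟩]⟩, ⟨nat_lit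 7, [⟨nat_lit 4, nat_lit 4224, nat_lit 17472, nat_lit 3072, nat_lit 11328, nat_lit 14208, R5_64, R7_236, R9_296⟩, ⟨nat_lit 5, nat_lit 4272, nat_lit 17712, nat_lit 14208, nat_lit 12096, nat_lit 12912, R5_296, R14_252, R0_269⟩]⟩]⟩,
 ⟨nat_lit 6, [⟨nat_lit 4, [⟨nat_lit 4, nat_lit 3264, nat_lit 17568, nat_lit 7104, nat_lit 2880, nat_lit 6096, R3_148, R2_60, R8_127⟩, ⟨nat_lit 5, nat_lit 3360, nat_lit 17808, nat_lit 7584, nat_lit 10368, nat_lit 5472, R3_158, R12_216, R5_114⟩, ⟨nat_lit 6, nat_lit 3312, nat_lit 17952, nat_lit 7488, nat_lit 2352, nat_lit 4992, R3_156, R1_49, R9_104⟩]⟩, ⟨nat_lit 6, [⟨nat_lit 6, nat_lit 3696, nat_lit 18000, nat_lit 13056, nat_lit 7728, nat_lit 3168, R10_272, R1_161, R0_66⟩]⟩, ⟨nat_lit 7, [⟨nat_lit 4, nat_lit 4896, nat_lit 17616, nat_lit 10896, nat_lit 10224, nat_lit 14544, R0_227, R2_213,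 R9_303⟩, ⟨nat_lit 5, nat_lit 4944, nat_lit 17856, nat_lit 10944, nat_lit 11184, nat_lit 13248, R0_228, R12_233, R0_276⟩]⟩]⟩,
 ⟨nat_lit 7, [⟨nat_lit 7, [⟨nat_lit 4, nat_lit 5568, nat_lit 17520, nat_lit 17088, nat_lit 6816, nat_lit 14832, R11_356, R2_142, R9_309⟩, ⟨nat_lit 5, nat_lit 5616, nat_lit 17760, nat_lit 17184, nat_lit 17328, nat_lit 13536, R11_358, R12_361, R0_282⟩, ⟨nat_lit 7, nat_lit 5664, nat_lit 17904, nat_lit 17136, nat_lit 5520, nat_lit 3744, R11_357, R1_115, R0_78⟩]⟩]⟩], [], [⟨nat_lit 4, [⟨nat_lit 7, [⟨nat_lit 4, nat_lit 4512, nat_lit 13296, nat_lit 2880, nat_lit 10512, nat_lit 1824, R5_60, R7_219, R3_38⟩, ⟨nat_lit 5, nat_lit 4560, nat_lit 13488, nat_lit 14112, nat_lit 12048, nat_lit 16128, R5_294, R14_251, R10_336⟩]⟩]⟩,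
 ⟨nat_lit 6, [⟨nat_lit 7, [⟨nat_lit 4, nat_lit 5232, nat_lit 13440, nat_lit 10992, nat_lit 9600, nat_lit 8400, R0_229, R2_200, R3_175⟩, ⟨nat_lit 5, nat_lit 5328, nat_lit 13632, nat_lit 11088, nat_lit 11136, nat_lit 17088, R0_231, R12_232, R10_356⟩, ⟨nat_lit 6, nat_lit 5280, nat_lit 13728, nat_lit 11040, nat_lit 10416, nat_lit 8928, R0_230, R1_217, R0_186⟩]⟩]⟩,
 ⟨nat_lit 7, [⟨nat_lit 3, [⟨nat_lit 4, nat_lit 6528, nat_lit 13392, nat_lit 12000, nat_lit 13632, nat_lit 13392, R1_250, R2_284, R2_279⟩, ⟨nat_lit 5, nat_lit 6576, nat_lit 13584, nat_lit 12096, nat_lit 15408, nat_lit 14736, R1_252, R12_321, R1_307⟩, ⟨nat_lit 7, nat_lit 6624, nat_lit 13680, nat_lit 12048, nat_lit 14976, nat_lit 14208, R1_251, R1_312, R12_296⟩]⟩, ⟨nat_lit 7, [⟨nat_lit 4, nat_lit 5808, nat_lit 13344, nat_lit 17232, nat_lit 4656, nat_lit 6768,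 R11_359, R2_97, R3_141⟩, ⟨nat_lit 5, nat_lit 5856, nat_lit 13536, nat_lit 17280, nat_lit 17088, nat_lit 17760, R11_360, R12_356, R10_370⟩]⟩]⟩]]], [[[], [], [], [], [], [], [⟨nat_lit 3, [⟨nat_lit 0, [⟨nat_lit 0, nat_lit 10224, nat_lit 3408, nat_lit 2784, nat_lit 17952, nat_lit 9408, R3_58, R13_374, R4_196⟩, ⟨nat_lit 3, nat_lit 10272, nat_lit 4272, nat_lit 7536, nat_lit 6528, nat_lit 5424, R3_157, R3_136, R5_113⟩]⟩, ⟨nat_lit 2, [⟨nat_lit 0, nat_lit 10944, nat_lit 3696, nat_lit 1392, nat_lit 18000, nat_lit 12144, R0_29, R13_375, R3_253⟩, ⟨nat_lit 2, nat_lit 10992, nat_lit 6672, nat_lit 1632, nat_lit 14928, nat_lit 16656, R0_34, R9_311, R10_347⟩, ⟨nat_lit 3, nat_lit 11040, nat_lit 4560, nat_lit 1488, nat_lit 6912, nat_lit 13104, R0_31, R3_144, R0_273⟩]⟩]⟩,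
 ⟨nat_lit 7, [⟨nat_lit 0, [⟨nat_lit 3, nat_lit 9648, nat_lit 12960, nat_lit 10368, nat_lit 13440, nat_lit 15840, R2_216, R2_280, R5_330⟩]⟩, ⟨nat_lit 3, [⟨nat_lit 3, nat_lit 11520, nat_lit 13344, nat_lit 12144, nat_lit 13488, nat_lit 19680, R12_253, R2_281, R11_410⟩]⟩]⟩]], [], [[], [], [], [], [⟨nat_lit 7, [⟨nat_lit 3, [⟨nat_lit 7, nat_lit 11472, nat_lit 13248, nat_lit 11904, nat_lit 20352, nat_lit 13248, R12_248, R11_424, R2_276⟩]⟩]⟩], [], [⟨nat_lit 3, [⟨nat_lit 0, [⟨nat_lit 0, nat_lit 10320, nat_lit 3120, nat_lit 2880, nat_lit 14112, nat_lit 9984, R3_60, R3_294, R4_208⟩, ⟨nat_lit 3, nat_lit 10368, nat_lit 3360, nat_lit 7584, nat_lit 17808, nat_lit 5472, R3_158, R10_371, R5_114⟩]⟩, ⟨nat_lit 2, [⟨nat_lit 0, nat_lit 11088, nat_lit 4704, nat_lit 10752, nat_lit 14976, nat_lit 14832, R0_224, R3_312, R3_309⟩, ⟨nat_lit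 2, nat_lit 11136, nat_lit 5328, nat_lit 11088, nat_lit 13632, nat_lit 17088, R0_231, R0_284, R10_356⟩, ⟨nat_lit 3, nat_lit 11184, nat_lit 4944, nat_lit 10944, nat_lit 17856, nat_lit 13248, R0_228, R10_372, R0_276⟩]⟩]⟩,
 ⟨nat_lit 7, [⟨nat_lit 0, [⟨nat_lit 3, nat_lit 9696, nat_lit 13776, nat_lit 10464, nat_lit 14784, nat_lit 15936, R2_218, R1_308, R5_332⟩]⟩, ⟨nat_lit 3, [⟨nat_lit 3, nat_lit 11568, nat_lit 14400, nat_lit 12288, nat_lit 14832, nat_lit 19968, R12_256, R1_309, R11_416⟩, ⟨nat_lit 7, nat_lit 11616, nat_lit 14448, nat_lit 12240, nat_lit 20544, nat_lit 14592, R12_255, R11_428, R1_304⟩]⟩]⟩], [⟨nat_lit 7, [⟨nat_lit 3, [⟨nat_lit 7, nat_lit 11856, nat_lit 14592, nat_lit 11952, nat_lit 20688, nat_lit 14112, R12_249, R11_431, R12_294⟩]⟩]⟩]], [[], [], [⟨nat_lit 3, [⟨nat_lit 0, [⟨nat_lit 0, nat_lit 10464, nat_lit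 4848, nat_lit 3504, nat_lit 1584, nat_lit 10224, R3_73, R3_33, R7_213⟩, ⟨nat_lit 1, nat_lit 10512, nat_lit 4944, nat_lit 10992, nat_lit 16224, nat_lit 5808, R3_229, R10_338, R14_121⟩]⟩, ⟨nat_lit 1, [⟨nat_lit 1, nat_lit 10896, nat_lit 5232, nat_lit 13104, nat_lit 18240, nat_lit 3792, R10_273, R10_380, R12_79⟩]⟩, ⟨nat_lit 2, [⟨nat_lit 0, nat_lit 11328, nat_lit 6192, nat_lit 5280, nat_lit 8112, nat_lit 9408, R0_110, R3_169, R2_196⟩, ⟨nat_lit 1, nat_lit 11424, nat_lit 6288, nat_lit 5520, nat_lit 17184, nat_lit 8976, R0_115, R10_358, R12_187⟩, ⟨nat_lit 2, nat_lit 11376, nat_lit 6432, nat_lit 5328, nat_lit 6144, nat_lit 10224, R0_111, R0_128, R1_213⟩]⟩]⟩,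
 ⟨nat_lit 7, [⟨nat_lit 0, [⟨nat_lit 0, nat_lit 9984, nat_lit 18624, nat_lit 11664, nat_lit 12672, nat_lit 15360, R2_243, R2_264, R7_320⟩, ⟨nat_lit 1, nat_lit 10032, nat_lit 18720, nat_lit 11808, nat_lit 14016, nat_lit 6000, R2_246, R1_292, R14_125⟩]⟩, ⟨nat_lit 1, [⟨nat_lit 1, nat_lit 10704, nat_lit 20880, nat_lit 12240, nat_lit 15120, nat_lit 3984, R1_255, R1_315, R12_83⟩]⟩, ⟨nat_lit 3, [⟨nat_lit 0, nat_lit 12000, nat_lit 20160, nat_lit 11712, nat_lit 13488, nat_lit 13344, R12_244, R2_281, R2_278⟩, ⟨nat_lit 1, nat_lit 12048, nat_lit 20256, nat_lit 11808, nat_lit 14832, nat_lit 14256, R12_246, R1_309, R12_297⟩, ⟨nat_lit 3, nat_lit 12096, nat_lit 20208, nat_lit 11760, nat_lit 14640, nat_lit 14688, R12_245, R12_305, R1_306⟩]⟩]⟩], [], [], [], [⟨nat_lit 3, [⟨nat_lit 0, [⟨nat_lit 0, nat_lit 10416, nat_lit 2880, nat_lit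 2832, nat_lit 3216, nat_lit 9600, R3_59, R3_67, R4_200⟩]⟩, ⟨nat_lit 2, [⟨nat_lit 0, nat_lit 11232, nat_lit 3168, nat_lit 6528, nat_lit 9264, nat_lit 15600, R0_136, R3_193, R3_325⟩, ⟨nat_lit 2, nat_lit 11280, nat_lit 5376, nat_lit 6672, nat_lit 3840, nat_lit 17232, R0_139, R0_80, R10_359⟩]⟩]⟩,
 ⟨nat_lit 7, [⟨nat_lit 0, [⟨nat_lit 0, nat_lit 9744, nat_lit 13344, nat_lit 10320, nat_lit 13824, nat_lit 14016, R2_215, R2_288, R4_292⟩, ⟨nat_lit 3, nat_lit 9792, nat_lit 14304, nat_lit 10416, nat_lit 14496, nat_lit 15888, R2_217, R12_302, R5_331⟩]⟩, ⟨nat_lit 3, [⟨nat_lit 3, nat_lit 11664, nat_lit 14688, nat_lit 12192, nat_lit 14544, nat_lit 20064, R12_254, R12_303, R11_418⟩]⟩]⟩]], [[], [], [], [⟨nat_lit 7, [⟨nat_lit 0, [⟨nat_lit 5, nat_lit 10080, nat_lit 13296, nat_lit 11424, nat_lit 13104, nat_lit 15360, R2_238, R2_273,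 R5_320⟩]⟩, ⟨nat_lit 1, [⟨nat_lit 5, nat_lit 10752, nat_lit 13392, nat_lit 12000, nat_lit 13632, nat_lit 13392, R1_250, R2_284, R0_279⟩]⟩, ⟨nat_lit 3, [⟨nat_lit 5, nat_lit 12144, nat_lit 13344, nat_lit 11520, nat_lit 13488, nat_lit 20160, R12_240, R2_281, R11_420⟩]⟩]⟩]], [], [[], [], [], [⟨nat_lit 7, [⟨nat_lit 0, [⟨nat_lit 5, nat_lit 10128, nat_lit 14640, nat_lit 11520, nat_lit 13872, nat_lit 15744, R2_240, R12_289, R5_328⟩]⟩, ⟨nat_lit 1, [⟨nat_lit 5, nat_lit 10800, nat_lit 14736, nat_lit 12096, nat_lit 14784, nat_lit 13584, R1_252, R12_308, R0_283⟩]⟩, ⟨nat_lit 3, [⟨nat_lit 5, nat_lit 12192, nat_lit 14688, nat_lit 11664, nat_lit 14544, nat_lit 20208, R12_243, R12_303, R11_421⟩]⟩]⟩], [], [], [], [⟨nat_lit 7, [⟨nat_lit 3, [⟨nat_lit 4, nat_lit 11712, nat_lit 20160, nat_lit 12000, nat_lit 13488, nat_lit 13344, R12_250,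 R2_281, R2_278⟩, ⟨nat_lit 5, nat_lit 11760, nat_lit 20208, nat_lit 12096, nat_lit 14640, nat_lit 14688, R12_252, R12_305, R1_306⟩, ⟨nat_lit 7, nat_lit 11808, nat_lit 20256, nat_lit 12048, nat_lit 14832, nat_lit 14256, R12_251, R1_309, R12_297⟩]⟩]⟩]], [[⟨nat_lit 7, [⟨nat_lit 0, [⟨nat_lit 1, nat_lit 9840, nat_lit 12624, nat_lit 10704, nat_lit 20304, nat_lit 15264, R2_223, R11_423, R7_318⟩, ⟨nat_lit 5, nat_lit 9888, nat_lit 13776, nat_lit 10944, nat_lit 13488, nat_lit 13968, R2_228, R1_281, R4_291⟩]⟩, ⟨nat_lit 1, [⟨nat_lit 1, nat_lit 10560, nat_lit 12768, nat_lit 11088, nat_lit 20448, nat_lit 14352, R1_231, R11_426, R2_299⟩, ⟨nat_lit 5, nat_lit 10608, nat_lit 13872, nat_lit 11328, nat_lit 13632, nat_lit 15648, R1_236, R1_284, R3_326⟩]⟩, ⟨nat_lit 3, [⟨nat_lit 1, nat_lit 11904, nat_lit 13248, nat_lit 11472, nat_lit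 20352, nat_lit 13248, R12_239, R11_424, R2_276⟩]⟩]⟩], [], [⟨nat_lit 7, [⟨nat_lit 0, [⟨nat_lit 1, nat_lit 9936, nat_lit 13968, nat_lit 11856, nat_lit 20496, nat_lit 5952, R2_247, R11_427, R14_124⟩]⟩, ⟨nat_lit 1, [⟨nat_lit 1, nat_lit 10656, nat_lit 14112, nat_lit 12288, nat_lit 20640, nat_lit 3936, R1_256, R11_430, R12_82⟩]⟩, ⟨nat_lit 3, [⟨nat_lit 1, nat_lit 11952, nat_lit 14592, nat_lit 11856, nat_lit 20544, nat_lit 14112, R12_247, R11_428, R12_294⟩]⟩]⟩], [⟨nat_lit 7, [⟨nat_lit 0, [⟨nat_lit 5, nat_lit 10176, nat_lit 14304, nat_lit 11472, nat_lit 14448, nat_lit 15648, R2_239, R1_301, R5_326⟩]⟩, ⟨nat_lit 1, [⟨nat_lit 5, nat_lit 10848, nat_lit 14352, nat_lit 12048, nat_lit 14976, nat_lit 13680, R1_251, R1_312, R0_285⟩]⟩, ⟨nat_lit 3, [⟨nat_lit 1, nat_lit 12240, nat_lit 14448, nat_lit 11616, nat_lit 20688, nat_lit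 14592, R12_242, R11_431, R1_304⟩, ⟨nat_lit 5, nat_lit 12288, nat_lit 14400, nat_lit 11568, nat_lit 14832, nat_lit 20256, R12_241, R1_309, R11_422⟩]⟩]⟩]]], [[], [], [], [], [[⟨nat_lit 4, [⟨nat_lit 1, [⟨nat_lit 1, nat_lit 12672, nat_lit 3696, nat_lit 2352, nat_lit 3456, nat_lit 1296, R4_49, R4_72, R2_27⟩, ⟨nat_lit 5, nat_lit 12720, nat_lit 1776, nat_lit 2304, nat_lit 3504, nat_lit 11616, R4_48, R7_73, R3_242⟩]⟩]⟩,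
 ⟨nat_lit 5, [⟨nat_lit 1, [⟨nat_lit 1, nat_lit 13008, nat_lit 9264, nat_lit 2160, nat_lit 11856, nat_lit 1344, R3_45, R3_247, R2_28⟩, ⟨nat_lit 5, nat_lit 13056, nat_lit 7920, nat_lit 2208, nat_lit 1824, nat_lit 11760, R3_46, R2_38, R3_245⟩]⟩]⟩], [⟨nat_lit 4, [⟨nat_lit 1, [⟨nat_lit 1, nat_lit 12816, nat_lit 624, nat_lit 2736, nat_lit 4176, nat_lit 768, R4_57, R4_87, R1_16⟩, ⟨nat_lit 5, nat_lit 12864, nat_lit 720, nat_lit 2688, nat_lit 4464, nat_lit 1056, R4_56, R7_93, R10_22⟩]⟩, ⟨nat_lit 5, [⟨nat_lit 5, nat_lit 12336, nat_lit 1104, nat_lit 2688, nat_lit 4320, nat_lit 14160, R7_56, R7_90, R1_295⟩]⟩]⟩,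
 ⟨nat_lit 5, [⟨nat_lit 1, [⟨nat_lit 1, nat_lit 13248, nat_lit 6000, nat_lit 7056, nat_lit 16992, nat_lit 816, R3_147, R3_354, R1_17⟩, ⟨nat_lit 5, nat_lit 13296, nat_lit 6096, nat_lit 7104, nat_lit 2880, nat_lit 1104, R3_148, R2_60, R10_23⟩]⟩, ⟨nat_lit 5, [⟨nat_lit 5, nat_lit 12432, nat_lit 6240, nat_lit 816, nat_lit 2736, nat_lit 14400, R2_17, R2_57, R1_300⟩]⟩]⟩,
 ⟨nat_lit 7, [⟨nat_lit 5, [⟨nat_lit 5, nat_lit 12576, nat_lit 7008, nat_lit 2784, nat_lit 768, nat_lit 14256, R2_58, R2_16, R1_297⟩]⟩]⟩], [⟨nat_lit 4, [⟨nat_lit 1, [⟨nat_lit 1, nat_lit 12960, nat_lit 3744, nat_lit 3120, nat_lit 3984, nat_lit 5904, R4_65, R4_83, R12_123⟩]⟩]⟩,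
 ⟨nat_lit 5, [⟨nat_lit 1, [⟨nat_lit 1, nat_lit 13488, nat_lit 10080, nat_lit 9840, nat_lit 14208, nat_lit 5952, R3_205, R3_296, R12_124⟩]⟩]⟩]], [[⟨nat_lit 5, [⟨nat_lit 1, [⟨nat_lit 1, nat_lit 13104, nat_lit 5808, nat_lit 2688, nat_lit 1248, nat_lit 2496, R3_56, R10_26, R2_52⟩, ⟨nat_lit 5, nat_lit 13152, nat_lit 5760, nat_lit 2736, nat_lit 1296, nat_lit 16896, R3_57, R1_27, R3_352⟩]⟩]⟩], [⟨nat_lit 5, [⟨nat_lit 1, [⟨nat_lit 1, nat_lit 13344, nat_lit 5232, nat_lit 7440, nat_lit 2208, nat_lit 1968, R3_155, R10_46, R1_41⟩, ⟨nat_lit 5, nat_lit 13392, nat_lit 5328, nat_lit 7488, nat_lit 2352, nat_lit 2112, R3_156, R1_49, R10_44⟩]⟩, ⟨nat_lit 5, [⟨nat_lit 5, nat_lit 12480, nat_lit 5712, nat_lit 6960, nat_lit 2208, nat_lit 14928, R2_145, R1_46, R1_311⟩]⟩]⟩], [⟨nat_lit 5, [⟨nat_lit 1, [⟨nat_lit 1, nat_lit 13536, nat_lit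 5616, nat_lit 10224, nat_lit 1968, nat_lit 6000, R3_213, R10_41, R12_125⟩]⟩]⟩]], [[⟨nat_lit 4, [⟨nat_lit 1, [⟨nat_lit 5, nat_lit 12768, nat_lit 9744, nat_lit 11184, nat_lit 13056, nat_lit 13920, R4_233, R14_272, R3_290⟩]⟩]⟩,
 ⟨nat_lit 5, [⟨nat_lit 1, [⟨nat_lit 5, nat_lit 13200, nat_lit 9984, nat_lit 2880, nat_lit 10320, nat_lit 14112, R3_60, R12_215, R3_294⟩]⟩]⟩], [⟨nat_lit 4, [⟨nat_lit 1, [⟨nat_lit 5, nat_lit 12912, nat_lit 5280, nat_lit 11472, nat_lit 13104, nat_lit 1488, R4_239, R14_273, R10_31⟩]⟩, ⟨nat_lit 5, [⟨nat_lit 5, nat_lit 12384, nat_lit 15168, nat_lit 12000, nat_lit 12432, nat_lit 14496, R7_250, R14_259, R1_302⟩]⟩]⟩,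
 ⟨nat_lit 5, [⟨nat_lit 1, [⟨nat_lit 5, nat_lit 13440, nat_lit 5472, nat_lit 7584, nat_lit 10368, nat_lit 1536, R3_158, R12_216, R10_32⟩]⟩, ⟨nat_lit 5, [⟨nat_lit 5, nat_lit 12528, nat_lit 15936, nat_lit 10464, nat_lit 9696, nat_lit 14784, R2_218, R12_202, R1_308⟩]⟩]⟩,
 ⟨nat_lit 7, [⟨nat_lit 5, [⟨nat_lit 5, nat_lit 12624, nat_lit 15744, nat_lit 11520, nat_lit 2064, nat_lit 14640, R2_240, R12_43, R1_305⟩]⟩]⟩]]], [[], [[], [], [⟨nat_lit 1, [⟨nat_lit 1, [⟨nat_lit 1, nat_lit 15312, nat_lit 14112, nat_lit 12288, nat_lit 20640, nat_lit 6480, R1_256, R11_430, R12_135⟩]⟩]⟩]], [], [], [], [[⟨nat_lit 1, [⟨nat_lit 1, [⟨nat_lit 1, nat_lit 15168, nat_lit 15600, nat_lit 12144, nat_lit 15072, nat_lit 11184, R1_253, R1_314, R2_233⟩]⟩]⟩,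
 ⟨nat_lit 5, [⟨nat_lit 1, [⟨nat_lit 1, nat_lit 14928, nat_lit 15552, nat_lit 6144, nat_lit 7536, nat_lit 11232, R10_128, R10_157, R2_234⟩, ⟨nat_lit 5, nat_lit 14976, nat_lit 16128, nat_lit 6096, nat_lit 6720, nat_lit 17232, R10_127, R1_140, R3_359⟩]⟩]⟩], [⟨nat_lit 1, [⟨nat_lit 1, [⟨nat_lit 1, nat_lit 15216, nat_lit 13920, nat_lit 12192, nat_lit 15168, nat_lit 11760, R1_254, R1_316, R1_245⟩]⟩]⟩,
 ⟨nat_lit 5, [⟨nat_lit 1, [⟨nat_lit 1, nat_lit 15024, nat_lit 3072, nat_lit 6528, nat_lit 8352, nat_lit 11808, R10_136, R10_174, R1_246⟩, ⟨nat_lit 5, nat_lit 15072, nat_lit 3168, nat_lit 6480, nat_lit 7728, nat_lit 12816, R10_135, R1_161, R10_267⟩]⟩, ⟨nat_lit 5, [⟨nat_lit 5, nat_lit 14880, nat_lit 3552, nat_lit 5664, nat_lit 7584, nat_lit 15024, R1_118, R1_158, R1_313⟩]⟩]⟩], [⟨nat_lit 1, [⟨nat_lit 1, [⟨nat_lit 1, nat_lit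 15264, nat_lit 20880, nat_lit 12240, nat_lit 15120, nat_lit 6432, R1_255, R1_315, R12_134⟩]⟩]⟩,
 ⟨nat_lit 5, [⟨nat_lit 1, [⟨nat_lit 1, nat_lit 15120, nat_lit 5232, nat_lit 6912, nat_lit 8160, nat_lit 6672, R10_144, R10_170, R12_139⟩]⟩]⟩]]], [[], [], [], [], [[], [⟨nat_lit 4, [⟨nat_lit 5, [⟨nat_lit 5, nat_lit 14016, nat_lit 15072, nat_lit 12912, nat_lit 12768, nat_lit 14208, R14_269, R7_266, R1_296⟩]⟩]⟩,
 ⟨nat_lit 5, [⟨nat_lit 5, [⟨nat_lit 5, nat_lit 14160, nat_lit 15648, nat_lit 10176, nat_lit 11472, nat_lit 14448, R12_212, R2_239, R1_301⟩]⟩]⟩,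
 ⟨nat_lit 7, [⟨nat_lit 5, [⟨nat_lit 5, nat_lit 14592, nat_lit 15888, nat_lit 2304, nat_lit 10416, nat_lit 14304, R12_48, R2_217, R1_298⟩]⟩]⟩]], [[], [⟨nat_lit 5, [⟨nat_lit 5, [⟨nat_lit 5, nat_lit 14208, nat_lit 13680, nat_lit 10848, nat_lit 12048, nat_lit 14976, R12_226, R1_251, R1_312⟩]⟩]⟩]], [[], [⟨nat_lit 4, [⟨nat_lit 5, [⟨nat_lit 5, nat_lit 14064, nat_lit 19392, nat_lit 15216, nat_lit 14496, nat_lit 14544, R14_317, R14_302, R1_303⟩]⟩]⟩,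
 ⟨nat_lit 5, [⟨nat_lit 5, [⟨nat_lit 5, nat_lit 14256, nat_lit 19968, nat_lit 12288, nat_lit 11568, nat_lit 14832, R12_256, R12_241, R1_309⟩]⟩]⟩,
 ⟨nat_lit 6, [⟨nat_lit 5, [⟨nat_lit 5, nat_lit 14448, nat_lit 20544, nat_lit 12240, nat_lit 11616, nat_lit 14592, R12_255, R12_242, R1_304⟩]⟩]⟩,
 ⟨nat_lit 7, [⟨nat_lit 5, [⟨nat_lit 5, nat_lit 14640, nat_lit 20208, nat_lit 12096, nat_lit 11760, nat_lit 14688, R12_252, R12_245, R1_306⟩]⟩]⟩], [], [], [], [⟨nat_lit 4, [⟨nat_lit 4, [⟨nat_lit 4, nat_lit 13584, nat_lit 14160, nat_lit 2688, nat_lit 4320, nat_lit 1104, R7_56, R7_90, R8_23⟩, ⟨nat_lit 5, nat_lit 13632, nat_lit 14496, nat_lit 12000, nat_lit 13872, nat_lit 15168, R7_250, R14_289, R5_316⟩]⟩, ⟨nat_lit 5, [⟨nat_lit 4, nat_lit 13920, nat_lit 14208, nat_lit 14352, nat_lit 12768, nat_lit 15072, R14_299, R7_266, R5_314⟩,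 ⟨nat_lit 5, nat_lit 13968, nat_lit 14544, nat_lit 15168, nat_lit 14544, nat_lit 19392, R14_316, R14_303, R11_404⟩]⟩]⟩,
 ⟨nat_lit 5, [⟨nat_lit 5, [⟨nat_lit 5, nat_lit 14112, nat_lit 14592, nat_lit 12240, nat_lit 11616, nat_lit 20544, R12_255, R12_242, R11_428⟩]⟩]⟩,
 ⟨nat_lit 6, [⟨nat_lit 4, [⟨nat_lit 4, nat_lit 13680, nat_lit 14400, nat_lit 816, nat_lit 2736, nat_lit 6240, R2_17, R2_57, R8_130⟩, ⟨nat_lit 5, nat_lit 13776, nat_lit 14784, nat_lit 10464, nat_lit 9696, nat_lit 15936, R2_218, R12_202, R5_332⟩, ⟨nat_lit 6, nat_lit 13728, nat_lit 14928, nat_lit 6960, nat_lit 2208, nat_lit 14976, R2_145, R1_46, R9_312⟩]⟩, ⟨nat_lit 5, [⟨nat_lit 4, nat_lit 14304, nat_lit 14448, nat_lit 10176, nat_lit 11472, nat_lit 15648, R12_212, R2_239, R5_326⟩, ⟨nat_lit 5, nat_lit 14400, nat_lit 14832, nat_lit 12288, nat_lit 11568,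 nat_lit 19968, R12_256, R12_241, R11_416⟩, ⟨nat_lit 6, nat_lit 14352, nat_lit 14976, nat_lit 10848, nat_lit 12048, nat_lit 13680, R12_226, R1_251, R0_285⟩]⟩, ⟨nat_lit 6, [⟨nat_lit 6, nat_lit 14688, nat_lit 15024, nat_lit 5664, nat_lit 7584, nat_lit 3552, R1_118, R1_158, R0_74⟩]⟩]⟩,
 ⟨nat_lit 7, [⟨nat_lit 4, [⟨nat_lit 4, nat_lit 13824, nat_lit 14256, nat_lit 2784, nat_lit 768, nat_lit 7008, R2_58, R2_16, R8_146⟩, ⟨nat_lit 5, nat_lit 13872, nat_lit 14640, nat_lit 11520, nat_lit 10128, nat_lit 15744, R2_240, R12_211, R5_328⟩]⟩, ⟨nat_lit 5, [⟨nat_lit 4, nat_lit 14496, nat_lit 14304, nat_lit 9792, nat_lit 10416, nat_lit 15888, R12_204, R2_217, R5_331⟩, ⟨nat_lit 5, nat_lit 14544, nat_lit 14688, nat_lit 11664, nat_lit 12192, nat_lit 20208, R12_243, R12_254, R11_421⟩]⟩, ⟨nat_lit 7, [⟨nat_lit 4, nat_lit 14736, nat_lit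 14352, nat_lit 2256, nat_lit 6912, nat_lit 14880, R1_47, R2_144, R9_310⟩, ⟨nat_lit 5, nat_lit 14784, nat_lit 14736, nat_lit 12096, nat_lit 10800, nat_lit 13584, R1_252, R12_225, R0_283⟩, ⟨nat_lit 7, nat_lit 14832, nat_lit 14880, nat_lit 7632, nat_lit 5616, nat_lit 3504, R1_159, R1_117, R0_73⟩]⟩]⟩]]], [[], [], [], [], [[⟨nat_lit 4, [⟨nat_lit 1, [⟨nat_lit 1, nat_lit 15504, nat_lit 18432, nat_lit 480, nat_lit 9504, nat_lit 8352, R5_10, R4_198, R2_174⟩, ⟨nat_lit 5, nat_lit 15552, nat_lit 16608, nat_lit 2688, nat_lit 9648, nat_lit 11952, R5_56, R7_201, R3_249⟩]⟩]⟩,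
 ⟨nat_lit 5, [⟨nat_lit 1, [⟨nat_lit 1, nat_lit 16080, nat_lit 18912, nat_lit 10512, nat_lit 12288, nat_lit 8400, R0_219, R3_256, R2_175⟩, ⟨nat_lit 5, nat_lit 16128, nat_lit 17328, nat_lit 10656, nat_lit 8688, nat_lit 12240, R0_222, R2_181, R3_255⟩]⟩]⟩,
 ⟨nat_lit 7, [⟨nat_lit 1, [⟨nat_lit 5, nat_lit 16848, nat_lit 17904, nat_lit 16896, nat_lit 3840, nat_lit 12096, R11_352, R2_80, R3_252⟩]⟩]⟩], [⟨nat_lit 4, [⟨nat_lit 1, [⟨nat_lit 1, nat_lit 15696, nat_lit 15120, nat_lit 672, nat_lit 10512, nat_lit 9168, R5_14, R4_219, R1_191⟩, ⟨nat_lit 5, nat_lit 15744, nat_lit 14208, nat_lit 3072, nat_lit 11328, nat_lit 10560, R5_64, R7_236, R10_220⟩]⟩]⟩,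
 ⟨nat_lit 5, [⟨nat_lit 1, [⟨nat_lit 1, nat_lit 16368, nat_lit 15312, nat_lit 10800, nat_lit 17136, nat_lit 9216, R0_225, R3_357, R1_192⟩, ⟨nat_lit 5, nat_lit 16416, nat_lit 14544, nat_lit 10896, nat_lit 10224, nat_lit 10656, R0_227, R2_213, R10_222⟩]⟩]⟩,
 ⟨nat_lit 7, [⟨nat_lit 1, [⟨nat_lit 5, nat_lit 17040, nat_lit 14832, nat_lit 17088, nat_lit 6816, nat_lit 10608, R11_356, R2_142, R10_221⟩]⟩, ⟨nat_lit 5, [⟨nat_lit 5, nat_lit 15360, nat_lit 14880, nat_lit 2256, nat_lit 6912, nat_lit 14352, R1_47, R2_144, R1_299⟩]⟩]⟩], [⟨nat_lit 4, [⟨nat_lit 1, [⟨nat_lit 1, nat_lit 15888, nat_lit 14016, nat_lit 864, nat_lit 10320, nat_lit 6048, R5_18, R4_215, R12_126⟩]⟩]⟩,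
 ⟨nat_lit 5, [⟨nat_lit 1, [⟨nat_lit 1, nat_lit 16560, nat_lit 14880, nat_lit 11136, nat_lit 15024, nat_lit 6192, R0_232, R3_313, R12_129⟩]⟩]⟩], [⟨nat_lit 4, [⟨nat_lit 1, [⟨nat_lit 5, nat_lit 15984, nat_lit 1824, nat_lit 2880, nat_lit 10512, nat_lit 13296, R5_60, R7_219, R0_277⟩]⟩]⟩,
 ⟨nat_lit 5, [⟨nat_lit 1, [⟨nat_lit 5, nat_lit 16704, nat_lit 8400, nat_lit 10992, nat_lit 9600, nat_lit 13440, R0_229, R2_200, R0_280⟩]⟩]⟩,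
 ⟨nat_lit 7, [⟨nat_lit 1, [⟨nat_lit 5, nat_lit 17280, nat_lit 6768, nat_lit 17232, nat_lit 4656, nat_lit 13344, R11_359, R2_97, R0_278⟩]⟩]⟩]], [[⟨nat_lit 5, [⟨nat_lit 1, [⟨nat_lit 1, nat_lit 16176, nat_lit 14496, nat_lit 10560, nat_lit 10800, nat_lit 10128, R0_220, R10_225, R2_211⟩, ⟨nat_lit 5, nat_lit 16224, nat_lit 15264, nat_lit 10704, nat_lit 9504, nat_lit 17088, R0_223, R1_198, R3_356⟩]⟩]⟩], [], [⟨nat_lit 5, [⟨nat_lit 1, [⟨nat_lit 1, nat_lit 16608, nat_lit 13200, nat_lit 11184, nat_lit 11712, nat_lit 6288, R0_233, R10_244, R12_131⟩]⟩]⟩], [⟨nat_lit 5, [⟨nat_lit 1, [⟨nat_lit 5, nat_lit 16752, nat_lit 8928, nat_lit 11040, nat_lit 10416, nat_lit 13728, R0_230, R1_217, R0_286⟩]⟩]⟩]], [[⟨nat_lit 4, [⟨nat_lit 1, [⟨nat_lit 5, nat_lit 15600, nat_lit 14736, nat_lit 13920, nat_lit 13440, nat_lit 14640, R5_290, R14_280,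 R3_305⟩]⟩]⟩,
 ⟨nat_lit 5, [⟨nat_lit 1, [⟨nat_lit 5, nat_lit 16272, nat_lit 14832, nat_lit 10752, nat_lit 11088, nat_lit 14976, R0_224, R12_231, R3_312⟩]⟩]⟩,
 ⟨nat_lit 7, [⟨nat_lit 1, [⟨nat_lit 5, nat_lit 16896, nat_lit 14784, nat_lit 16992, nat_lit 5424, nat_lit 14784, R11_354, R12_113, R3_308⟩]⟩]⟩], [⟨nat_lit 4, [⟨nat_lit 1, [⟨nat_lit 5, nat_lit 15792, nat_lit 12912, nat_lit 14208, nat_lit 13536, nat_lit 11232, R5_296, R14_282, R10_234⟩]⟩]⟩,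
 ⟨nat_lit 5, [⟨nat_lit 1, [⟨nat_lit 5, nat_lit 16464, nat_lit 13248, nat_lit 10944, nat_lit 11184, nat_lit 11328, R0_228, R12_233, R10_236⟩]⟩]⟩,
 ⟨nat_lit 7, [⟨nat_lit 1, [⟨nat_lit 5, nat_lit 17088, nat_lit 13536, nat_lit 17184, nat_lit 5856, nat_lit 11280, R11_358, R12_122, R10_235⟩]⟩, ⟨nat_lit 5, [⟨nat_lit 5, nat_lit 15408, nat_lit 13584, nat_lit 12096, nat_lit 6576, nat_lit 14736, R1_252, R12_137, R1_307⟩]⟩]⟩], [], [⟨nat_lit 4, [⟨nat_lit 1, [⟨nat_lit 5, nat_lit 16032, nat_lit 16128, nat_lit 14112, nat_lit 13488, nat_lit 13488, R5_294, R14_281, R0_281⟩]⟩]⟩,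
 ⟨nat_lit 5, [⟨nat_lit 1, [⟨nat_lit 5, nat_lit 16800, nat_lit 17088, nat_lit 11088, nat_lit 11136, nat_lit 13632, R0_231, R12_232, R0_284⟩]⟩]⟩,
 ⟨nat_lit 7, [⟨nat_lit 1, [⟨nat_lit 5, nat_lit 17328, nat_lit 17760, nat_lit 17280, nat_lit 5616, nat_lit 13536, R11_360, R12_117, R0_282⟩]⟩]⟩]], [[⟨nat_lit 4, [⟨nat_lit 1, [⟨nat_lit 1, nat_lit 15648, nat_lit 7728, nat_lit 7440, nat_lit 6960, nat_lit 9072, R5_155, R5_145, R2_189⟩]⟩]⟩,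
 ⟨nat_lit 5, [⟨nat_lit 1, [⟨nat_lit 1, nat_lit 16320, nat_lit 8304, nat_lit 10608, nat_lit 13776, nat_lit 9168, R0_221, R0_287, R2_191⟩]⟩]⟩,
 ⟨nat_lit 7, [⟨nat_lit 1, [⟨nat_lit 1, nat_lit 16944, nat_lit 8016, nat_lit 16848, nat_lit 20400, nat_lit 9120, R11_351, R11_425, R2_190⟩, ⟨nat_lit 5, nat_lit 16992, nat_lit 9216, nat_lit 16944, nat_lit 3312, nat_lit 15552, R11_353, R1_69, R3_324⟩]⟩]⟩], [⟨nat_lit 4, [⟨nat_lit 1, [⟨nat_lit 1, nat_lit 15840, nat_lit 864, nat_lit 7632, nat_lit 7248, nat_lit 9888, R5_159, R5_151, R1_206⟩]⟩]⟩,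
 ⟨nat_lit 5, [⟨nat_lit 1, [⟨nat_lit 1, nat_lit 16512, nat_lit 8976, nat_lit 10848, nat_lit 13872, nat_lit 9984, R0_226, R0_289, R1_208⟩]⟩]⟩,
 ⟨nat_lit 7, [⟨nat_lit 1, [⟨nat_lit 1, nat_lit 17136, nat_lit 6096, nat_lit 17040, nat_lit 20736, nat_lit 9936, R11_355, R11_432, R1_207⟩, ⟨nat_lit 5, nat_lit 17184, nat_lit 3744, nat_lit 17136, nat_lit 5520, nat_lit 10896, R11_357, R1_115, R10_227⟩]⟩, ⟨nat_lit 5, [⟨nat_lit 5, nat_lit 15456, nat_lit 3504, nat_lit 7632, nat_lit 5616, nat_lit 14880, R1_159, R1_117, R1_310⟩]⟩]⟩], [⟨nat_lit 4, [⟨nat_lit 1, [⟨nat_lit 1, nat_lit 15936, nat_lit 16944, nat_lit 7824, nat_lit 7056, nat_lit 6096, R5_163, R5_147, R12_127⟩]⟩]⟩,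
 ⟨nat_lit 5, [⟨nat_lit 1, [⟨nat_lit 1, nat_lit 16656, nat_lit 17040, nat_lit 11232, nat_lit 13824, nat_lit 6240, R0_234, R0_288, R12_130⟩]⟩]⟩,
 ⟨nat_lit 7, [⟨nat_lit 1, [⟨nat_lit 1, nat_lit 17232, nat_lit 16992, nat_lit 17328, nat_lit 20592, nat_lit 6144, R11_361, R11_429, R12_128⟩]⟩]⟩]]]]
noncomputable def N3306 : T3 (List N0) := [[[[], [], [⟨nat_lit 0, [⟨nat_lit 2, [⟨nat_lit 2, nat_lit 12192, nat_lit 3264, nat_lit 432, nat_lit 14064, nat_lit 96, R4_9, R6_293, R1_2⟩]⟩]⟩,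
 ⟨nat_lit 3, [⟨nat_lit 2, [⟨nat_lit 0, nat_lit 14448, nat_lit 8832, nat_lit 432, nat_lit 12864, nat_lit 7536, R5_9, R6_268, R2_157⟩, ⟨nat_lit 2, nat_lit 15024, nat_lit 9168, nat_lit 528, nat_lit 14832, nat_lit 8064, R5_11, R8_309, R1_168⟩]⟩]⟩], [], [], [], [⟨nat_lit 0, [⟨nat_lit 2, [⟨nat_lit 2, nat_lit 12144, nat_lit 2928, nat_lit 384, nat_lit 14112, nat_lit 14928, R4_8, R6_294, R10_311⟩]⟩, ⟨nat_lit 6, [⟨nat_lit 2, nat_lit 12000, nat_lit 2880, nat_lit 576, nat_lit 14160, nat_lit 13200, R7_12, R6_295, R1_275⟩]⟩]⟩,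
 ⟨nat_lit 2, [⟨nat_lit 6, [⟨nat_lit 2, nat_lit 13728, nat_lit 12336, nat_lit 12624, nat_lit 13920, nat_lit 13248, R14_263, R4_290, R1_276⟩, ⟨nat_lit 6, nat_lit 12576, nat_lit 12192, nat_lit 12576, nat_lit 15216, nat_lit 18384, R14_262, R7_317, R11_383⟩]⟩]⟩,
 ⟨nat_lit 3, [⟨nat_lit 2, [⟨nat_lit 0, nat_lit 14400, nat_lit 8736, nat_lit 2544, nat_lit 12288, nat_lit 11088, R5_53, R6_256, R3_231⟩, ⟨nat_lit 2, nat_lit 14976, nat_lit 9024, nat_lit 2928, nat_lit 14880, nat_lit 14976, R5_61, R8_310, R10_312⟩, ⟨nat_lit 3, nat_lit 15552, nat_lit 8928, nat_lit 2736, nat_lit 12528, nat_lit 12336, R5_57, R4_261, R0_257⟩]⟩]⟩]], [], [[], [], [], [], [], [], [⟨nat_lit 2, [⟨nat_lit 6, [⟨nat_lit 6, nat_lit 13200, nat_lit 14400, nat_lit 14832, nat_lit 13200, nat_lit 19200, R14_309, R2_275, R11_400⟩]⟩]⟩]], [[], [], [⟨nat_lit 3, [⟨nat_lit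 2, [⟨nat_lit 0, nat_lit 14736, nat_lit 6912, nat_lit 7392, nat_lit 12720, nat_lit 7824, R5_154, R4_265, R2_163⟩, ⟨nat_lit 2, nat_lit 15360, nat_lit 7200, nat_lit 7488, nat_lit 16656, nat_lit 8352, R5_156, R5_347, R1_174⟩]⟩]⟩]]], [[[], [], [⟨nat_lit 0, [⟨nat_lit 2, [⟨nat_lit 2, nat_lit 12288, nat_lit 15984, nat_lit 3648, nat_lit 14208, nat_lit 144, R3_76, R6_296, R1_3⟩]⟩]⟩,
 ⟨nat_lit 3, [⟨nat_lit 2, [⟨nat_lit 0, nat_lit 14544, nat_lit 11328, nat_lit 9312, nat_lit 13296, nat_lit 7584, R0_194, R6_277, R2_158⟩, ⟨nat_lit 2, nat_lit 15120, nat_lit 16320, nat_lit 9552, nat_lit 14928, nat_lit 8112, R0_199, R8_311, R1_169⟩]⟩]⟩], [], [], [], [⟨nat_lit 0, [⟨nat_lit 2, [⟨nat_lit 2, nat_lit 12240, nat_lit 1056, nat_lit 3696, nat_lit 14256, nat_lit 15072, R3_77, R6_297, R10_314⟩]⟩, ⟨nat_lit 6, [⟨nat_lit 2, nat_lit 12048,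 nat_lit 1008, nat_lit 0, nat_lit 14304, nat_lit 13440, R2_0, R6_298, R1_280⟩]⟩]⟩,
 ⟨nat_lit 2, [⟨nat_lit 6, [⟨nat_lit 2, nat_lit 13776, nat_lit 10944, nat_lit 9888, nat_lit 13968, nat_lit 13488, R12_206, R4_291, R1_281⟩, ⟨nat_lit 6, nat_lit 12624, nat_lit 10704, nat_lit 9840, nat_lit 15264, nat_lit 18816, R12_205, R7_318, R11_392⟩]⟩]⟩,
 ⟨nat_lit 3, [⟨nat_lit 2, [⟨nat_lit 0, nat_lit 14496, nat_lit 7632, nat_lit 9456, nat_lit 12528, nat_lit 11280, R0_197, R6_261, R3_235⟩, ⟨nat_lit 2, nat_lit 15072, nat_lit 8112, nat_lit 9696, nat_lit 14976, nat_lit 15120, R0_202, R8_312, R10_315⟩, ⟨nat_lit 3, nat_lit 15600, nat_lit 7968, nat_lit 9792, nat_lit 12864, nat_lit 12480, R0_204, R4_268, R0_260⟩]⟩]⟩]], [[], [], [⟨nat_lit 0, [⟨nat_lit 2, [⟨nat_lit 0, nat_lit 11952, nat_lit 288, nat_lit 576, nat_lit 14016, nat_lit 960,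 R3_12, R6_292, R2_20⟩, ⟨nat_lit 2, nat_lit 12432, nat_lit 624, nat_lit 4176, nat_lit 19632, nat_lit 288, R3_87, R13_409, R1_6⟩]⟩]⟩,
 ⟨nat_lit 1, [⟨nat_lit 2, [⟨nat_lit 0, nat_lit 13968, nat_lit 7104, nat_lit 3408, nat_lit 13824, nat_lit 10896, R10_71, R4_288, R2_227⟩, ⟨nat_lit 2, nat_lit 14208, nat_lit 7296, nat_lit 3984, nat_lit 15744, nat_lit 11280, R10_83, R3_328, R1_235⟩]⟩]⟩,
 ⟨nat_lit 3, [⟨nat_lit 2, [⟨nat_lit 0, nat_lit 14688, nat_lit 9216, nat_lit 9360, nat_lit 13152, nat_lit 8064, R0_195, R8_274, R2_168⟩, ⟨nat_lit 2, nat_lit 15264, nat_lit 9840, nat_lit 9600, nat_lit 15888, nat_lit 8592, R0_200, R9_331, R1_179⟩]⟩]⟩], [], [], [], [⟨nat_lit 0, [⟨nat_lit 2, [⟨nat_lit 0, nat_lit 11904, nat_lit 192, nat_lit 624, nat_lit 13968, nat_lit 15936, R3_13, R6_291, R3_332⟩, ⟨nat_lit 2, nat_lit 12384, nat_lit 384,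 nat_lit 4224, nat_lit 19680, nat_lit 15216, R3_88, R13_410, R10_317⟩]⟩, ⟨nat_lit 6, [⟨nat_lit 2, nat_lit 12336, nat_lit 336, nat_lit 3936, nat_lit 19728, nat_lit 13584, R2_82, R13_411, R1_283⟩]⟩]⟩,
 ⟨nat_lit 1, [⟨nat_lit 2, [⟨nat_lit 0, nat_lit 13920, nat_lit 5904, nat_lit 3360, nat_lit 13776, nat_lit 16704, R10_70, R4_287, R3_348⟩, ⟨nat_lit 2, nat_lit 14160, nat_lit 6048, nat_lit 3936, nat_lit 15792, nat_lit 15312, R10_82, R3_329, R10_319⟩]⟩, ⟨nat_lit 6, [⟨nat_lit 2, nat_lit 14112, nat_lit 6000, nat_lit 3408, nat_lit 15840, nat_lit 13680, R1_71, R3_330, R1_285⟩]⟩]⟩,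
 ⟨nat_lit 2, [⟨nat_lit 6, [⟨nat_lit 2, nat_lit 13872, nat_lit 11328, nat_lit 10608, nat_lit 15648, nat_lit 13632, R12_221, R3_326, R1_284⟩, ⟨nat_lit 6, nat_lit 12768, nat_lit 11088, nat_lit 10560, nat_lit 14352, nat_lit 20976, R12_220, R2_299, R11_437⟩]⟩]⟩,
 ⟨nat_lit 3, [⟨nat_lit 2, [⟨nat_lit 0, nat_lit 14640, nat_lit 8160, nat_lit 9504, nat_lit 13680, nat_lit 16272, R0_198, R8_285, R3_339⟩, ⟨nat_lit 2, nat_lit 15216, nat_lit 8640, nat_lit 9744, nat_lit 15936, nat_lit 15264, R0_203, R9_332, R10_318⟩, ⟨nat_lit 3, nat_lit 15696, nat_lit 8496, nat_lit 9840, nat_lit 16800, nat_lit 12576, R0_205, R5_350, R0_262⟩]⟩]⟩]], [[], [], [], [], [], [], [⟨nat_lit 2, [⟨nat_lit 6, [⟨nat_lit 6, nat_lit 13248, nat_lit 11472, nat_lit 11904, nat_lit 13248, nat_lit 20352, R12_248, R2_276, R11_424⟩]⟩]⟩]], [[], [], [⟨nat_lit 3, [⟨nat_lit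 2, [⟨nat_lit 0, nat_lit 14784, nat_lit 12624, nat_lit 9408, nat_lit 12816, nat_lit 7920, R0_196, R4_267, R2_165⟩, ⟨nat_lit 2, nat_lit 15408, nat_lit 12672, nat_lit 9648, nat_lit 16704, nat_lit 8448, R0_201, R5_348, R1_176⟩]⟩]⟩]]], [[], [], [[], [], [], [], [], [], [⟨nat_lit 2, [⟨nat_lit 6, [⟨nat_lit 6, nat_lit 13344, nat_lit 11520, nat_lit 12144, nat_lit 13488, nat_lit 19680, R12_253, R2_281, R11_410⟩]⟩]⟩]]], [[[], [], [], [], [], [], [⟨nat_lit 0, [⟨nat_lit 6, [⟨nat_lit 2, nat_lit 12096, nat_lit 672, nat_lit 1728, nat_lit 14352, nat_lit 13296, R2_36, R6_299, R1_277⟩]⟩]⟩,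
 ⟨nat_lit 2, [⟨nat_lit 4, [⟨nat_lit 6, nat_lit 12528, nat_lit 11568, nat_lit 10992, nat_lit 15312, nat_lit 15312, R2_229, R7_319, R5_319⟩]⟩, ⟨nat_lit 6, [⟨nat_lit 2, nat_lit 13824, nat_lit 10320, nat_lit 2160, nat_lit 14016, nat_lit 13344, R12_45, R4_292, R1_278⟩, ⟨nat_lit 6, nat_lit 12672, nat_lit 11664, nat_lit 1872, nat_lit 15360, nat_lit 18624, R12_39, R7_320, R11_388⟩]⟩, ⟨nat_lit 7, [⟨nat_lit 6, nat_lit 12720, nat_lit 11616, nat_lit 11568, nat_lit 15408, nat_lit 12432, R1_241, R7_321, R0_259⟩]⟩]⟩,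
 ⟨nat_lit 3, [⟨nat_lit 2, [⟨nat_lit 0, nat_lit 14592, nat_lit 3216, nat_lit 2544, nat_lit 12672, nat_lit 11184, R11_53, R6_264, R3_233⟩, ⟨nat_lit 2, nat_lit 15168, nat_lit 6432, nat_lit 2928, nat_lit 15024, nat_lit 15024, R11_61, R8_313, R10_313⟩, ⟨nat_lit 3, nat_lit 15648, nat_lit 4080, nat_lit 2736, nat_lit 13008, nat_lit 12384, R11_57, R4_271, R0_258⟩]⟩, ⟨nat_lit 6, [⟨nat_lit 2, nat_lit 14928, nat_lit 6480, nat_lit 1200, nat_lit 15072, nat_lit 13392, R1_25, R8_314, R1_279⟩]⟩]⟩,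
 ⟨nat_lit 4, [⟨nat_lit 3, [⟨nat_lit 7, nat_lit 672, nat_lit 12096, nat_lit 1728, nat_lit 14352, nat_lit 13296, R2_36, R6_299, R1_277⟩]⟩]⟩,
 ⟨nat_lit 6, [⟨nat_lit 3, [⟨nat_lit 7, nat_lit 6480, nat_lit 14928, nat_lit 1200, nat_lit 15072, nat_lit 13392, R1_25, R8_314, R1_279⟩]⟩, ⟨nat_lit 7, [⟨nat_lit 4, nat_lit 3216, nat_lit 14592, nat_lit 2544, nat_lit 12672, nat_lit 11184, R11_53, R6_264, R3_233⟩, ⟨nat_lit 6, nat_lit 4080, nat_lit 15648, nat_lit 2736, nat_lit 13008, nat_lit 12384, R11_57, R4_271, R0_258⟩, ⟨nat_lit 7, nat_lit 6432, nat_lit 15168, nat_lit 2928, nat_lit 15024, nat_lit 15024, R11_61, R8_313, R10_313⟩]⟩]⟩,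
 ⟨nat_lit 7, [⟨nat_lit 0, [⟨nat_lit 3, nat_lit 11568, nat_lit 12528, nat_lit 10992, nat_lit 15312, nat_lit 15312, R2_229, R7_319, R5_319⟩]⟩, ⟨nat_lit 2, [⟨nat_lit 3, nat_lit 11616, nat_lit 12720, nat_lit 11568, nat_lit 15408, nat_lit 12432, R1_241, R7_321, R0_259⟩]⟩, ⟨nat_lit 3, [⟨nat_lit 3, nat_lit 11664, nat_lit 12672, nat_lit 1872, nat_lit 15360, nat_lit 18624, R12_39, R7_320, R11_388⟩, ⟨nat_lit 7, nat_lit 10320, nat_lit 13824, nat_lit 2160, nat_lit 14016, nat_lit 13344, R12_45, R4_292, R1_278⟩]⟩]⟩]], [], [[], [], [], [], [⟨nat_lit 2, [⟨nat_lit 4, [⟨nat_lit 6, nat_lit 13056, nat_lit 720, nat_lit 2688, nat_lit 12912, nat_lit 6912, R2_56, R2_269, R8_144⟩]⟩, ⟨nat_lit 6, [⟨nat_lit 6, nat_lit 13440, nat_lit 10368, nat_lit 9648, nat_lit 12960, nat_lit 15840, R12_201, R2_270, R5_330⟩]⟩, ⟨nat_lit 7, [⟨nat_lit 6,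 nat_lit 13584, nat_lit 6864, nat_lit 2160, nat_lit 13008, nat_lit 14688, R1_45, R2_271, R9_306⟩]⟩]⟩,
 ⟨nat_lit 4, [⟨nat_lit 3, [⟨nat_lit 7, nat_lit 720, nat_lit 13056, nat_lit 2688, nat_lit 6912, nat_lit 12912, R2_56, R8_144, R2_269⟩]⟩]⟩,
 ⟨nat_lit 6, [⟨nat_lit 3, [⟨nat_lit 7, nat_lit 6864, nat_lit 13584, nat_lit 2160, nat_lit 14688, nat_lit 13008, R1_45, R9_306, R2_271⟩]⟩, ⟨nat_lit 7, [⟨nat_lit 4, nat_lit 3792, nat_lit 3792, nat_lit 2592, nat_lit 17664, nat_lit 17664, R11_54, R13_368, R13_368⟩, ⟨nat_lit 5, nat_lit 5088, nat_lit 5088, nat_lit 3168, nat_lit 13200, nat_lit 13200, R11_66, R3_275, R3_275⟩, ⟨nat_lit 6, nat_lit 4608, nat_lit 6768, nat_lit 2784, nat_lit 6720, nat_lit 14640, R11_58, R3_140, R9_305⟩, ⟨nat_lit 7, nat_lit 6768, nat_lit 4608, nat_lit 3024, nat_lit 14640, nat_lit 6720, R11_63, R9_305, R3_140⟩]⟩]⟩,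
 ⟨nat_lit 7, [⟨nat_lit 3, [⟨nat_lit 7, nat_lit 10368, nat_lit 13440, nat_lit 2208, nat_lit 15840, nat_lit 12960, R12_46, R5_330, R2_270⟩]⟩]⟩], [], [⟨nat_lit 2, [⟨nat_lit 4, [⟨nat_lit 6, nat_lit 13104, nat_lit 10080, nat_lit 11424, nat_lit 13296, nat_lit 15360, R2_238, R2_277, R5_320⟩]⟩, ⟨nat_lit 6, [⟨nat_lit 6, nat_lit 13488, nat_lit 12144, nat_lit 11520, nat_lit 13344, nat_lit 20160, R12_240, R2_278, R11_420⟩]⟩, ⟨nat_lit 7, [⟨nat_lit 6, nat_lit 13632, nat_lit 10752, nat_lit 12000, nat_lit 13392, nat_lit 13392, R1_250, R2_279, R0_279⟩]⟩]⟩,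
 ⟨nat_lit 4, [⟨nat_lit 3, [⟨nat_lit 7, nat_lit 768, nat_lit 12576, nat_lit 2784, nat_lit 7008, nat_lit 14256, R2_58, R8_146, R1_297⟩]⟩]⟩,
 ⟨nat_lit 6, [⟨nat_lit 3, [⟨nat_lit 7, nat_lit 6912, nat_lit 15360, nat_lit 2256, nat_lit 14880, nat_lit 14352, R1_47, R9_310, R1_299⟩]⟩, ⟨nat_lit 7, [⟨nat_lit 4, nat_lit 3840, nat_lit 16848, nat_lit 2688, nat_lit 17904, nat_lit 12096, R11_56, R13_373, R3_252⟩, ⟨nat_lit 6, nat_lit 4656, nat_lit 17280, nat_lit 2880, nat_lit 6768, nat_lit 13344, R11_60, R3_141, R0_278⟩, ⟨nat_lit 7, nat_lit 6816, nat_lit 17040, nat_lit 3072, nat_lit 14832, nat_lit 17520, R11_64, R9_309, R10_365⟩]⟩]⟩,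
 ⟨nat_lit 7, [⟨nat_lit 3, [⟨nat_lit 7, nat_lit 10416, nat_lit 14592, nat_lit 2304, nat_lit 15888, nat_lit 14304, R12_48, R5_331, R1_298⟩]⟩]⟩], [⟨nat_lit 2, [⟨nat_lit 7, [⟨nat_lit 6, nat_lit 13680, nat_lit 5568, nat_lit 7536, nat_lit 13536, nat_lit 3456, R1_157, R2_282, R0_72⟩]⟩]⟩,
 ⟨nat_lit 4, [⟨nat_lit 3, [⟨nat_lit 4, nat_lit 0, nat_lit 13440, nat_lit 1008, nat_lit 6768, nat_lit 12048, R2_21, R6_141, R2_251⟩, ⟨nat_lit 5, nat_lit 48, nat_lit 15360, nat_lit 3024, nat_lit 7344, nat_lit 12624, R2_63, R4_153, R1_263⟩, ⟨nat_lit 7, nat_lit 816, nat_lit 14400, nat_lit 2736, nat_lit 6960, nat_lit 13680, R2_57, R8_145, R12_285⟩]⟩]⟩,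
 ⟨nat_lit 6, [⟨nat_lit 3, [⟨nat_lit 4, nat_lit 3936, nat_lit 13584, nat_lit 336, nat_lit 18096, nat_lit 12336, R1_7, R13_377, R2_257⟩, ⟨nat_lit 5, nat_lit 5184, nat_lit 15456, nat_lit 2496, nat_lit 13392, nat_lit 12912, R1_52, R3_279, R1_269⟩, ⟨nat_lit 7, nat_lit 6960, nat_lit 14928, nat_lit 2208, nat_lit 14976, nat_lit 13728, R1_46, R9_312, R12_286⟩]⟩, ⟨nat_lit 7, [⟨nat_lit 4, nat_lit 3888, nat_lit 3264, nat_lit 2640, nat_lit 18048, nat_lit 8976, R11_55, R13_376, R3_187⟩, ⟨nat_lit 5, nat_lit 5136, nat_lit 3792, nat_lit 3216, nat_lit 13344, nat_lit 14160, R11_67, R3_278, R10_295⟩, ⟨nat_lit 6, nat_lit 4704, nat_lit 5472, nat_lit 2832, nat_lit 6816, nat_lit 3696, R11_59, R3_142, R0_77⟩]⟩]⟩,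
 ⟨nat_lit 7, [⟨nat_lit 3, [⟨nat_lit 7, nat_lit 10464, nat_lit 14784, nat_lit 2256, nat_lit 15936, nat_lit 13776, R12_47, R5_332, R12_287⟩]⟩]⟩]], [[], [], [⟨nat_lit 3, [⟨nat_lit 2, [⟨nat_lit 0, nat_lit 14880, nat_lit 6528, nat_lit 7008, nat_lit 12768, nat_lit 7872, R11_146, R4_266, R2_164⟩, ⟨nat_lit 2, nat_lit 15504, nat_lit 6816, nat_lit 7104, nat_lit 16752, nat_lit 8400, R11_148, R5_349, R1_175⟩]⟩]⟩,
 ⟨nat_lit 4, [⟨nat_lit 3, [⟨nat_lit 3, nat_lit 2976, nat_lit 17760, nat_lit 528, nat_lit 8064, nat_lit 12384, R2_11, R7_168, R1_258⟩]⟩]⟩,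
 ⟨nat_lit 7, [⟨nat_lit 0, [⟨nat_lit 0, nat_lit 10560, nat_lit 18768, nat_lit 10560, nat_lit 13776, nat_lit 14928, R2_220, R7_287, R7_311⟩]⟩, ⟨nat_lit 2, [⟨nat_lit 0, nat_lit 10656, nat_lit 20928, nat_lit 10944, nat_lit 13824, nat_lit 14064, R1_228, R7_288, R2_293⟩]⟩, ⟨nat_lit 3, [⟨nat_lit 0, nat_lit 10704, nat_lit 20304, nat_lit 1824, nat_lit 13968, nat_lit 12624, R12_38, R7_291, R2_263⟩, ⟨nat_lit 3, nat_lit 11856, nat_lit 20496, nat_lit 1968, nat_lit 18240, nat_lit 13968, R12_41, R14_380, R1_291⟩]⟩]⟩], [], [], [], [⟨nat_lit 3, [⟨nat_lit 2, [⟨nat_lit 0, nat_lit 14832, nat_lit 2688, nat_lit 8976, nat_lit 13200, nat_lit 15216, R11_187, R4_275, R3_317⟩, ⟨nat_lit 2, nat_lit 15456, nat_lit 5136, nat_lit 9168, nat_lit 16608, nat_lit 15168, R11_191, R5_346, R10_316⟩]⟩, ⟨nat_lit 6, [⟨nat_lit 2, nat_lit 15312, nat_lit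 5184, nat_lit 6624, nat_lit 16560, nat_lit 13536, R1_138, R5_345, R1_282⟩]⟩]⟩,
 ⟨nat_lit 4, [⟨nat_lit 3, [⟨nat_lit 3, nat_lit 2928, nat_lit 12432, nat_lit 576, nat_lit 8112, nat_lit 18672, R2_12, R7_169, R11_389⟩, ⟨nat_lit 7, nat_lit 864, nat_lit 12672, nat_lit 2256, nat_lit 8112, nat_lit 15264, R2_47, R4_169, R1_318⟩]⟩]⟩,
 ⟨nat_lit 6, [⟨nat_lit 3, [⟨nat_lit 7, nat_lit 7056, nat_lit 15936, nat_lit 1728, nat_lit 5904, nat_lit 15312, R1_36, R5_123, R1_319⟩]⟩, ⟨nat_lit 7, [⟨nat_lit 7, nat_lit 7008, nat_lit 16176, nat_lit 2976, nat_lit 5952, nat_lit 18528, R11_62, R5_124, R10_386⟩]⟩]⟩,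
 ⟨nat_lit 7, [⟨nat_lit 0, [⟨nat_lit 0, nat_lit 10512, nat_lit 13104, nat_lit 10752, nat_lit 14208, nat_lit 13680, R2_224, R7_296, R4_285⟩, ⟨nat_lit 3, nat_lit 11712, nat_lit 13872, nat_lit 11040, nat_lit 18288, nat_lit 15504, R2_230, R14_381, R5_323⟩]⟩, ⟨nat_lit 2, [⟨nat_lit 0, nat_lit 10608, nat_lit 13152, nat_lit 11136, nat_lit 14448, nat_lit 15360, R1_232, R7_301, R3_320⟩, ⟨nat_lit 3, nat_lit 11760, nat_lit 14064, nat_lit 11616, nat_lit 18336, nat_lit 12528, R1_242, R14_382, R0_261⟩]⟩, ⟨nat_lit 3, [⟨nat_lit 3, nat_lit 11808, nat_lit 14016, nat_lit 1920, nat_lit 18384, nat_lit 18720, R12_40, R14_383, R11_390⟩]⟩]⟩]], [[], [], [], [⟨nat_lit 4, [⟨nat_lit 3, [⟨nat_lit 1, nat_lit 1728, nat_lit 12096, nat_lit 672, nat_lit 7392, nat_lit 13296, R2_14, R6_154, R1_277⟩]⟩]⟩]], [], [[], [], [], [⟨nat_lit 4, [⟨nat_lit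 3, [⟨nat_lit 1, nat_lit 2256, nat_lit 12672, nat_lit 864, nat_lit 8112, nat_lit 15264, R2_18, R4_169, R1_318⟩, ⟨nat_lit 5, nat_lit 576, nat_lit 12432, nat_lit 2928, nat_lit 8112, nat_lit 17568, R2_61, R7_169, R11_366⟩]⟩]⟩,
 ⟨nat_lit 6, [⟨nat_lit 3, [⟨nat_lit 5, nat_lit 6288, nat_lit 12528, nat_lit 2400, nat_lit 5424, nat_lit 17664, R1_50, R2_113, R11_368⟩]⟩]⟩], [], [], [], [⟨nat_lit 4, [⟨nat_lit 3, [⟨nat_lit 5, nat_lit 528, nat_lit 17760, nat_lit 2976, nat_lit 8064, nat_lit 12384, R2_62, R7_168, R1_258⟩]⟩]⟩,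
 ⟨nat_lit 6, [⟨nat_lit 3, [⟨nat_lit 5, nat_lit 6240, nat_lit 17856, nat_lit 2448, nat_lit 5472, nat_lit 12480, R1_51, R2_114, R1_260⟩]⟩, ⟨nat_lit 7, [⟨nat_lit 5, nat_lit 5760, nat_lit 17808, nat_lit 3120, nat_lit 6048, nat_lit 13632, R11_65, R2_126, R10_284⟩]⟩]⟩]], [[⟨nat_lit 4, [⟨nat_lit 3, [⟨nat_lit 1, nat_lit 2688, nat_lit 13056, nat_lit 720, nat_lit 6912, nat_lit 12912, R2_15, R8_144, R2_269⟩]⟩]⟩,
 ⟨nat_lit 7, [⟨nat_lit 0, [⟨nat_lit 1, nat_lit 10992, nat_lit 12528, nat_lit 11568, nat_lit 15312, nat_lit 15312, R2_241, R5_319, R7_319⟩]⟩, ⟨nat_lit 3, [⟨nat_lit 1, nat_lit 11424, nat_lit 13104, nat_lit 2016, nat_lit 15360, nat_lit 13296, R12_42, R5_320, R2_277⟩]⟩]⟩], [], [⟨nat_lit 4, [⟨nat_lit 3, [⟨nat_lit 0, nat_lit 1008, nat_lit 13440, nat_lit 0, nat_lit 6768, nat_lit 12048, R2_0, R6_141, R2_251⟩, ⟨nat_lit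 1, nat_lit 2736, nat_lit 14400, nat_lit 816, nat_lit 6960, nat_lit 13680, R2_17, R8_145, R12_285⟩, ⟨nat_lit 3, nat_lit 3024, nat_lit 15360, nat_lit 48, nat_lit 7344, nat_lit 12624, R2_1, R4_153, R1_263⟩]⟩]⟩,
 ⟨nat_lit 7, [⟨nat_lit 0, [⟨nat_lit 0, nat_lit 10752, nat_lit 13104, nat_lit 10512, nat_lit 13680, nat_lit 14832, R2_219, R4_285, R7_309⟩, ⟨nat_lit 1, nat_lit 11040, nat_lit 13872, nat_lit 11712, nat_lit 15504, nat_lit 7920, R2_244, R5_323, R14_165⟩]⟩, ⟨nat_lit 2, [⟨nat_lit 0, nat_lit 10848, nat_lit 13728, nat_lit 10896, nat_lit 13872, nat_lit 14016, R1_227, R4_289, R2_292⟩, ⟨nat_lit 1, nat_lit 11184, nat_lit 15072, nat_lit 12144, nat_lit 15600, nat_lit 3840, R1_253, R5_325, R12_80⟩]⟩, ⟨nat_lit 3, [⟨nat_lit 0, nat_lit 10944, nat_lit 13488, nat_lit 1776, nat_lit 13968, nat_lit 13776, R12_37, R4_291, R2_287⟩,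 ⟨nat_lit 1, nat_lit 11472, nat_lit 14448, nat_lit 2112, nat_lit 15648, nat_lit 14304, R12_44, R5_326, R12_298⟩]⟩]⟩], [⟨nat_lit 4, [⟨nat_lit 3, [⟨nat_lit 1, nat_lit 2784, nat_lit 12576, nat_lit 768, nat_lit 7008, nat_lit 14256, R2_16, R8_146, R1_297⟩]⟩]⟩,
 ⟨nat_lit 7, [⟨nat_lit 3, [⟨nat_lit 1, nat_lit 11520, nat_lit 12624, nat_lit 2064, nat_lit 15744, nat_lit 14640, R12_43, R5_328, R1_305⟩]⟩]⟩]]], [[], [], [], [], [[⟨nat_lit 4, [⟨nat_lit 0, [⟨nat_lit 1, nat_lit 1104, nat_lit 3456, nat_lit 2304, nat_lit 7440, nat_lit 3072, R6_48, R6_155, R7_64⟩]⟩, ⟨nat_lit 1, [⟨nat_lit 1, nat_lit 1392, nat_lit 3552, nat_lit 1632, nat_lit 7584, nat_lit 1392, R8_34, R6_158, R2_29⟩]⟩]⟩,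
 ⟨nat_lit 5, [⟨nat_lit 0, [⟨nat_lit 1, nat_lit 8160, nat_lit 8688, nat_lit 1728, nat_lit 9792, nat_lit 3264, R8_36, R13_204, R7_68⟩]⟩, ⟨nat_lit 1, [⟨nat_lit 1, nat_lit 8448, nat_lit 8832, nat_lit 816, nat_lit 9936, nat_lit 1584, R9_17, R13_207, R2_33⟩]⟩]⟩], [⟨nat_lit 4, [⟨nat_lit 1, [⟨nat_lit 1, nat_lit 1488, nat_lit 1920, nat_lit 2352, nat_lit 7680, nat_lit 864, R8_49, R6_160, R1_18⟩]⟩]⟩,
 ⟨nat_lit 5, [⟨nat_lit 1, [⟨nat_lit 1, nat_lit 8544, nat_lit 6432, nat_lit 1104, nat_lit 10032, nat_lit 1056, R9_23, R13_209, R1_22⟩]⟩]⟩], [⟨nat_lit 4, [⟨nat_lit 0, [⟨nat_lit 1, nat_lit 1152, nat_lit 3312, nat_lit 2448, nat_lit 7488, nat_lit 8112, R6_51, R6_156, R14_169⟩]⟩, ⟨nat_lit 1, [⟨nat_lit 1, nat_lit 1440, nat_lit 3408, nat_lit 2832, nat_lit 7632, nat_lit 6720, R8_59, R6_159, R12_140⟩]⟩, ⟨nat_lit 2, [⟨nat_lit 1, nat_lit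 1296, nat_lit 3456, nat_lit 2352, nat_lit 7536, nat_lit 2784, R4_49, R6_157, R12_58⟩]⟩]⟩,
 ⟨nat_lit 5, [⟨nat_lit 0, [⟨nat_lit 0, nat_lit 7440, nat_lit 8784, nat_lit 9600, nat_lit 12336, nat_lit 15744, R8_200, R6_257, R7_328⟩, ⟨nat_lit 1, nat_lit 8208, nat_lit 9312, nat_lit 9696, nat_lit 9840, nat_lit 8592, R8_202, R13_205, R14_179⟩]⟩, ⟨nat_lit 1, [⟨nat_lit 1, nat_lit 8496, nat_lit 9456, nat_lit 1536, nat_lit 9984, nat_lit 7200, R9_32, R13_208, R12_150⟩]⟩, ⟨nat_lit 2, [⟨nat_lit 0, nat_lit 7536, nat_lit 8832, nat_lit 432, nat_lit 12432, nat_lit 14448, R5_9, R6_259, R2_301⟩, ⟨nat_lit 1, nat_lit 8352, nat_lit 9504, nat_lit 480, nat_lit 9888, nat_lit 4128, R5_10, R13_206, R12_86⟩]⟩]⟩]], [[⟨nat_lit 5, [⟨nat_lit 0, [⟨nat_lit 1, nat_lit 8784, nat_lit 2016, nat_lit 2592, nat_lit 7632, nat_lit 4128, R8_54, R3_159, R7_86⟩]⟩,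 ⟨nat_lit 1, [⟨nat_lit 1, nat_lit 9216, nat_lit 6528, nat_lit 6240, nat_lit 7776, nat_lit 2544, R9_130, R3_162, R2_53⟩]⟩]⟩], [⟨nat_lit 5, [⟨nat_lit 1, [⟨nat_lit 1, nat_lit 9312, nat_lit 6528, nat_lit 6960, nat_lit 7872, nat_lit 2016, R9_145, R3_164, R1_42⟩]⟩]⟩], [⟨nat_lit 5, [⟨nat_lit 0, [⟨nat_lit 0, nat_lit 7680, nat_lit 6000, nat_lit 10176, nat_lit 12576, nat_lit 16464, R8_212, R4_262, R7_343⟩, ⟨nat_lit 1, nat_lit 8832, nat_lit 6048, nat_lit 10272, nat_lit 7680, nat_lit 8640, R8_214, R3_160, R14_180⟩]⟩, ⟨nat_lit 1, [⟨nat_lit 1, nat_lit 9264, nat_lit 6576, nat_lit 7440, nat_lit 7824, nat_lit 7248, R9_155, R3_163, R12_151⟩]⟩, ⟨nat_lit 2, [⟨nat_lit 0, nat_lit 7824, nat_lit 6912, nat_lit 7392, nat_lit 12720, nat_lit 14736, R5_154, R4_265, R2_307⟩, ⟨nat_lit 1, nat_lit 9072, nat_lit 6960, nat_lit 7440, nat_lit 7728,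 nat_lit 4176, R5_155, R3_161, R12_87⟩]⟩]⟩]], [[⟨nat_lit 4, [⟨nat_lit 0, [⟨nat_lit 1, nat_lit 1920, nat_lit 1488, nat_lit 9984, nat_lit 8160, nat_lit 3648, R6_208, R4_170, R7_76⟩, ⟨nat_lit 5, nat_lit 96, nat_lit 3504, nat_lit 11088, nat_lit 8160, nat_lit 3600, R6_231, R7_170, R4_75⟩]⟩, ⟨nat_lit 1, [⟨nat_lit 1, nat_lit 2016, nat_lit 8208, nat_lit 9504, nat_lit 8208, nat_lit 2016, R8_198, R4_171, R2_42⟩, ⟨nat_lit 5, nat_lit 240, nat_lit 9792, nat_lit 9456, nat_lit 8208, nat_lit 13632, R8_197, R7_171, R3_284⟩]⟩]⟩,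
 ⟨nat_lit 5, [⟨nat_lit 0, [⟨nat_lit 1, nat_lit 9696, nat_lit 1728, nat_lit 2928, nat_lit 12768, nat_lit 3792, R8_61, R3_266, R7_79⟩, ⟨nat_lit 5, nat_lit 7104, nat_lit 3840, nat_lit 3024, nat_lit 7104, nat_lit 3840, R8_63, R2_148, R4_80⟩]⟩, ⟨nat_lit 1, [⟨nat_lit 1, nat_lit 9792, nat_lit 8448, nat_lit 10224, nat_lit 12912, nat_lit 2160, R9_213, R3_269, R2_45⟩, ⟨nat_lit 5, nat_lit 7248, nat_lit 10176, nat_lit 10176, nat_lit 7152, nat_lit 13776, R9_212, R2_149, R3_287⟩]⟩]⟩,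
 ⟨nat_lit 6, [⟨nat_lit 0, [⟨nat_lit 5, nat_lit 5808, nat_lit 3936, nat_lit 3024, nat_lit 5232, nat_lit 3696, R4_63, R2_109, R4_77⟩]⟩, ⟨nat_lit 1, [⟨nat_lit 5, nat_lit 5952, nat_lit 10272, nat_lit 768, nat_lit 5520, nat_lit 13680, R5_16, R2_115, R3_285⟩]⟩]⟩], [⟨nat_lit 4, [⟨nat_lit 1, [⟨nat_lit 1, nat_lit 2064, nat_lit 6192, nat_lit 10032, nat_lit 8256, nat_lit 1488, R8_209, R4_172, R1_31⟩, ⟨nat_lit 5, nat_lit 288, nat_lit 6096, nat_lit 9984, nat_lit 8256, nat_lit 1584, R8_208, R7_172, R10_33⟩]⟩]⟩,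
 ⟨nat_lit 5, [⟨nat_lit 1, [⟨nat_lit 1, nat_lit 9840, nat_lit 6720, nat_lit 10512, nat_lit 13008, nat_lit 1632, R9_219, R3_271, R1_34⟩, ⟨nat_lit 5, nat_lit 7296, nat_lit 6624, nat_lit 10464, nat_lit 7200, nat_lit 1824, R9_218, R2_150, R10_38⟩]⟩]⟩,
 ⟨nat_lit 6, [⟨nat_lit 1, [⟨nat_lit 5, nat_lit 6000, nat_lit 7008, nat_lit 7728, nat_lit 5568, nat_lit 1680, R5_161, R2_116, R10_35⟩]⟩]⟩]]], [[], [[], [], [⟨nat_lit 1, [⟨nat_lit 2, [⟨nat_lit 0, nat_lit 14016, nat_lit 13728, nat_lit 10896, nat_lit 13872, nat_lit 10848, R1_227, R4_289, R2_226⟩, ⟨nat_lit 2, nat_lit 14256, nat_lit 13776, nat_lit 10992, nat_lit 15696, nat_lit 11232, R1_229, R3_327, R1_234⟩]⟩]⟩]], [], [], [], [[⟨nat_lit 5, [⟨nat_lit 0, [⟨nat_lit 1, nat_lit 8880, nat_lit 14928, nat_lit 13632, nat_lit 7920, nat_lit 12576, R5_284, R3_165, R7_262⟩]⟩, ⟨nat_lit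 1, [⟨nat_lit 1, nat_lit 9360, nat_lit 15408, nat_lit 4080, nat_lit 8064, nat_lit 11280, R0_85, R3_168, R2_235⟩]⟩]⟩], [⟨nat_lit 5, [⟨nat_lit 1, [⟨nat_lit 1, nat_lit 9456, nat_lit 4368, nat_lit 4800, nat_lit 8160, nat_lit 11856, R0_100, R3_170, R1_247⟩]⟩]⟩], [⟨nat_lit 1, [⟨nat_lit 2, [⟨nat_lit 0, nat_lit 14064, nat_lit 20928, nat_lit 10944, nat_lit 13824, nat_lit 10656, R1_228, R7_288, R2_222⟩, ⟨nat_lit 1, nat_lit 14352, nat_lit 20976, nat_lit 11088, nat_lit 12768, nat_lit 6384, R1_231, R2_266, R12_133⟩, ⟨nat_lit 2, nat_lit 14304, nat_lit 21024, nat_lit 11040, nat_lit 14304, nat_lit 11040, R1_230, R2_298, R1_230⟩]⟩]⟩,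
 ⟨nat_lit 5, [⟨nat_lit 0, [⟨nat_lit 0, nat_lit 7728, nat_lit 5616, nat_lit 12768, nat_lit 12624, nat_lit 16608, R5_266, R4_263, R7_346⟩, ⟨nat_lit 1, nat_lit 8928, nat_lit 5664, nat_lit 13776, nat_lit 7968, nat_lit 10992, R5_287, R3_166, R14_229⟩]⟩, ⟨nat_lit 1, [⟨nat_lit 1, nat_lit 9408, nat_lit 6192, nat_lit 5280, nat_lit 8112, nat_lit 9120, R0_110, R3_169, R12_190⟩]⟩, ⟨nat_lit 2, [⟨nat_lit 0, nat_lit 7872, nat_lit 6528, nat_lit 7008, nat_lit 12768, nat_lit 14880, R11_146, R4_266, R2_310⟩, ⟨nat_lit 1, nat_lit 9120, nat_lit 6576, nat_lit 7056, nat_lit 8016, nat_lit 5520, R11_147, R3_167, R12_115⟩]⟩]⟩]]], [[], [], [], [], [[], [⟨nat_lit 4, [⟨nat_lit 1, [⟨nat_lit 1, nat_lit 1536, nat_lit 14448, nat_lit 336, nat_lit 8160, nat_lit 6288, R5_7, R6_170, R1_131⟩]⟩]⟩,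
 ⟨nat_lit 5, [⟨nat_lit 1, [⟨nat_lit 1, nat_lit 8592, nat_lit 14640, nat_lit 4176, nat_lit 10368, nat_lit 6480, R0_87, R13_216, R1_135⟩]⟩]⟩]], [[], [⟨nat_lit 5, [⟨nat_lit 1, [⟨nat_lit 1, nat_lit 9504, nat_lit 4464, nat_lit 5040, nat_lit 8496, nat_lit 7392, R0_105, R3_177, R1_154⟩]⟩]⟩]], [[], [⟨nat_lit 4, [⟨nat_lit 1, [⟨nat_lit 1, nat_lit 2112, nat_lit 17952, nat_lit 720, nat_lit 8544, nat_lit 6912, R5_15, R4_178, R1_144⟩, ⟨nat_lit 5, nat_lit 336, nat_lit 17472, nat_lit 3120, nat_lit 8592, nat_lit 7776, R5_65, R7_179, R10_162⟩]⟩]⟩,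
 ⟨nat_lit 5, [⟨nat_lit 1, [⟨nat_lit 1, nat_lit 9888, nat_lit 18144, nat_lit 5376, nat_lit 13056, nat_lit 7056, R0_112, R3_272, R1_147⟩, ⟨nat_lit 5, nat_lit 7344, nat_lit 17712, nat_lit 5472, nat_lit 7392, nat_lit 8016, R0_114, R2_154, R10_167⟩]⟩]⟩,
 ⟨nat_lit 6, [⟨nat_lit 1, [⟨nat_lit 5, nat_lit 6048, nat_lit 17808, nat_lit 3120, nat_lit 5760, nat_lit 7872, R11_65, R2_120, R10_164⟩]⟩, ⟨nat_lit 5, [⟨nat_lit 5, nat_lit 5472, nat_lit 17856, nat_lit 2448, nat_lit 6240, nat_lit 12480, R1_51, R2_130, R1_260⟩]⟩]⟩], [], [], [], [⟨nat_lit 6, [⟨nat_lit 5, [⟨nat_lit 5, nat_lit 5424, nat_lit 12528, nat_lit 2400, nat_lit 6288, nat_lit 17664, R1_50, R2_131, R11_368⟩]⟩]⟩]]], [[], [], [], [], [[⟨nat_lit 4, [⟨nat_lit 0, [⟨nat_lit 1, nat_lit 1200, nat_lit 15456, nat_lit 1728, nat_lit 7728, nat_lit 9264, R13_36, R6_161, R7_193⟩]⟩,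 ⟨nat_lit 1, [⟨nat_lit 1, nat_lit 1584, nat_lit 15552, nat_lit 912, nat_lit 8016, nat_lit 8448, R9_19, R6_167, R2_176⟩]⟩, ⟨nat_lit 3, [⟨nat_lit 1, nat_lit 1776, nat_lit 15504, nat_lit 2064, nat_lit 7872, nat_lit 3360, R3_43, R6_164, R2_70⟩]⟩]⟩,
 ⟨nat_lit 5, [⟨nat_lit 0, [⟨nat_lit 1, nat_lit 8256, nat_lit 15984, nat_lit 11712, nat_lit 10080, nat_lit 9456, R9_244, R13_210, R7_197⟩]⟩, ⟨nat_lit 3, [⟨nat_lit 1, nat_lit 8640, nat_lit 16032, nat_lit 1296, nat_lit 10224, nat_lit 3648, R0_27, R13_213, R2_76⟩]⟩]⟩], [⟨nat_lit 4, [⟨nat_lit 1, [⟨nat_lit 1, nat_lit 1680, nat_lit 13440, nat_lit 960, nat_lit 8112, nat_lit 9264, R9_20, R6_169, R1_193⟩]⟩]⟩], [⟨nat_lit 4, [⟨nat_lit 0, [⟨nat_lit 1, nat_lit 1248, nat_lit 11712, nat_lit 1776, nat_lit 7776, nat_lit 9168, R13_37, R6_162, R14_191⟩]⟩, ⟨nat_lit 1, [⟨nat_lit 1, nat_lit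 1632, nat_lit 11808, nat_lit 1008, nat_lit 8064, nat_lit 8064, R9_21, R6_168, R12_168⟩]⟩, ⟨nat_lit 2, [⟨nat_lit 1, nat_lit 1344, nat_lit 11856, nat_lit 2160, nat_lit 7824, nat_lit 3168, R3_45, R6_163, R12_66⟩]⟩, ⟨nat_lit 3, [⟨nat_lit 1, nat_lit 1824, nat_lit 11760, nat_lit 2208, nat_lit 7920, nat_lit 3024, R3_46, R6_165, R12_63⟩]⟩]⟩,
 ⟨nat_lit 5, [⟨nat_lit 0, [⟨nat_lit 0, nat_lit 7488, nat_lit 11232, nat_lit 10800, nat_lit 12384, nat_lit 15840, R9_225, R6_258, R7_330⟩, ⟨nat_lit 1, nat_lit 8304, nat_lit 12192, nat_lit 12336, nat_lit 10128, nat_lit 10224, R9_257, R13_211, R14_213⟩]⟩, ⟨nat_lit 2, [⟨nat_lit 0, nat_lit 7584, nat_lit 11328, nat_lit 9312, nat_lit 12480, nat_lit 14544, R0_194, R6_260, R2_303⟩, ⟨nat_lit 1, nat_lit 8400, nat_lit 12288, nat_lit 10512, nat_lit 10176, nat_lit 4752, R0_219, R13_212, R12_99⟩]⟩,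 ⟨nat_lit 3, [⟨nat_lit 0, nat_lit 7632, nat_lit 11280, nat_lit 9456, nat_lit 12528, nat_lit 14496, R0_197, R6_261, R2_302⟩, ⟨nat_lit 1, nat_lit 8688, nat_lit 12240, nat_lit 10656, nat_lit 10272, nat_lit 4608, R0_222, R13_214, R12_96⟩]⟩]⟩], [⟨nat_lit 4, [⟨nat_lit 3, [⟨nat_lit 1, nat_lit 1872, nat_lit 3120, nat_lit 2112, nat_lit 7968, nat_lit 2832, R3_44, R6_166, R1_59⟩]⟩]⟩,
 ⟨nat_lit 5, [⟨nat_lit 3, [⟨nat_lit 1, nat_lit 8736, nat_lit 9024, nat_lit 6432, nat_lit 10320, nat_lit 3120, R0_134, R13_215, R1_65⟩]⟩]⟩]], [[⟨nat_lit 5, [⟨nat_lit 0, [⟨nat_lit 1, nat_lit 8976, nat_lit 14112, nat_lit 11808, nat_lit 8208, nat_lit 11136, R9_246, R3_171, R7_232⟩]⟩, ⟨nat_lit 3, [⟨nat_lit 1, nat_lit 9552, nat_lit 14736, nat_lit 1536, nat_lit 8352, nat_lit 6624, R0_32, R3_174, R2_138⟩]⟩]⟩], [], [⟨nat_lit 5, [⟨nat_lit 0, [⟨nat_lit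 0, nat_lit 7776, nat_lit 12240, nat_lit 10896, nat_lit 12672, nat_lit 16512, R9_227, R4_264, R7_344⟩, ⟨nat_lit 1, nat_lit 9024, nat_lit 12816, nat_lit 12432, nat_lit 8256, nat_lit 10320, R9_259, R3_172, R14_215⟩]⟩, ⟨nat_lit 2, [⟨nat_lit 0, nat_lit 7920, nat_lit 12624, nat_lit 9408, nat_lit 12816, nat_lit 14784, R0_196, R4_267, R2_308⟩, ⟨nat_lit 1, nat_lit 9168, nat_lit 13776, nat_lit 10608, nat_lit 8304, nat_lit 4848, R0_221, R3_173, R12_101⟩]⟩, ⟨nat_lit 3, [⟨nat_lit 0, nat_lit 7968, nat_lit 12480, nat_lit 9792, nat_lit 12864, nat_lit 15600, R0_204, R4_268, R2_325⟩, ⟨nat_lit 1, nat_lit 9600, nat_lit 13440, nat_lit 10992, nat_lit 8400, nat_lit 5232, R0_229, R3_175, R12_109⟩]⟩]⟩], [⟨nat_lit 5, [⟨nat_lit 3, [⟨nat_lit 1, nat_lit 9648, nat_lit 3792, nat_lit 6576, nat_lit 8448, nat_lit 5328, R0_137, R3_176, R1_111⟩]⟩]⟩]],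 [[⟨nat_lit 4, [⟨nat_lit 0, [⟨nat_lit 1, nat_lit 1968, nat_lit 12480, nat_lit 2352, nat_lit 8304, nat_lit 10704, R13_49, R4_173, R7_223⟩, ⟨nat_lit 5, nat_lit 144, nat_lit 13728, nat_lit 4032, nat_lit 8304, nat_lit 9888, R13_84, R7_173, R4_206⟩]⟩, ⟨nat_lit 1, [⟨nat_lit 1, nat_lit 2160, nat_lit 12912, nat_lit 1632, nat_lit 8448, nat_lit 9792, R9_34, R4_176, R2_204⟩, ⟨nat_lit 5, nat_lit 384, nat_lit 14496, nat_lit 3216, nat_lit 8448, nat_lit 14400, R9_67, R7_176, R3_300⟩]⟩, ⟨nat_lit 3, [⟨nat_lit 1, nat_lit 2304, nat_lit 13248, nat_lit 9696, nat_lit 8352, nat_lit 4800, R3_202, R4_174, R2_100⟩]⟩]⟩,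
 ⟨nat_lit 5, [⟨nat_lit 0, [⟨nat_lit 1, nat_lit 9744, nat_lit 12528, nat_lit 11856, nat_lit 12816, nat_lit 10848, R9_247, R3_267, R7_226⟩, ⟨nat_lit 5, nat_lit 7152, nat_lit 13776, nat_lit 10176, nat_lit 7248, nat_lit 10176, R9_212, R2_151, R4_212⟩]⟩, ⟨nat_lit 3, [⟨nat_lit 1, nat_lit 9936, nat_lit 13296, nat_lit 1824, nat_lit 12864, nat_lit 4992, R0_38, R3_268, R2_104⟩]⟩]⟩,
 ⟨nat_lit 6, [⟨nat_lit 0, [⟨nat_lit 5, nat_lit 5856, nat_lit 13824, nat_lit 9648, nat_lit 5280, nat_lit 10032, R3_201, R2_110, R4_209⟩]⟩, ⟨nat_lit 1, [⟨nat_lit 5, nat_lit 6096, nat_lit 14544, nat_lit 1680, nat_lit 5616, nat_lit 14448, R0_35, R2_117, R3_301⟩]⟩]⟩], [⟨nat_lit 4, [⟨nat_lit 1, [⟨nat_lit 1, nat_lit 2208, nat_lit 11568, nat_lit 1680, nat_lit 8496, nat_lit 10608, R9_35, R4_177, R1_221⟩, ⟨nat_lit 5, nat_lit 432, nat_lit 11328, nat_lit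 3312, nat_lit 8544, nat_lit 11376, R9_69, R7_178, R10_237⟩]⟩]⟩,
 ⟨nat_lit 6, [⟨nat_lit 1, [⟨nat_lit 5, nat_lit 6144, nat_lit 11472, nat_lit 1776, nat_lit 5712, nat_lit 11520, R0_37, R2_119, R10_240⟩]⟩]⟩], [], [⟨nat_lit 4, [⟨nat_lit 0, [⟨nat_lit 5, nat_lit 192, nat_lit 13296, nat_lit 4080, nat_lit 8352, nat_lit 4896, R13_85, R7_174, R5_102⟩]⟩, ⟨nat_lit 1, [⟨nat_lit 5, nat_lit 480, nat_lit 13392, nat_lit 3264, nat_lit 8496, nat_lit 11376, R9_68, R7_177, R0_237⟩]⟩, ⟨nat_lit 3, [⟨nat_lit 1, nat_lit 2352, nat_lit 14016, nat_lit 9792, nat_lit 8400, nat_lit 3504, R3_204, R4_175, R1_73⟩, ⟨nat_lit 5, nat_lit 624, nat_lit 13344, nat_lit 10752, nat_lit 8400, nat_lit 17520, R3_224, R7_175, R11_365⟩]⟩]⟩,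
 ⟨nat_lit 5, [⟨nat_lit 0, [⟨nat_lit 5, nat_lit 7200, nat_lit 13728, nat_lit 10464, nat_lit 7296, nat_lit 6624, R9_218, R2_152, R5_138⟩]⟩, ⟨nat_lit 3, [⟨nat_lit 1, nat_lit 9984, nat_lit 14208, nat_lit 6864, nat_lit 12960, nat_lit 3696, R0_143, R3_270, R1_77⟩, ⟨nat_lit 5, nat_lit 7392, nat_lit 13776, nat_lit 5472, nat_lit 7344, nat_lit 17712, R0_114, R2_153, R11_369⟩]⟩]⟩,
 ⟨nat_lit 6, [⟨nat_lit 0, [⟨nat_lit 5, nat_lit 5904, nat_lit 13824, nat_lit 9888, nat_lit 5328, nat_lit 5520, R3_206, R2_111, R5_115⟩]⟩, ⟨nat_lit 1, [⟨nat_lit 5, nat_lit 6192, nat_lit 13920, nat_lit 1728, nat_lit 5664, nat_lit 11424, R0_36, R2_118, R0_238⟩]⟩, ⟨nat_lit 3, [⟨nat_lit 5, nat_lit 6336, nat_lit 13872, nat_lit 2352, nat_lit 5376, nat_lit 17616, R10_49, R2_112, R11_367⟩]⟩]⟩]], [[⟨nat_lit 4, [⟨nat_lit 0, [⟨nat_lit 1, nat_lit 2400, nat_lit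 1296, nat_lit 2160, nat_lit 7056, nat_lit 10032, R13_45, R8_147, R7_209⟩]⟩, ⟨nat_lit 1, [⟨nat_lit 1, nat_lit 2544, nat_lit 7776, nat_lit 1344, nat_lit 7296, nat_lit 9216, R9_28, R8_152, R2_192⟩]⟩, ⟨nat_lit 3, [⟨nat_lit 1, nat_lit 2832, nat_lit 6480, nat_lit 7008, nat_lit 7200, nat_lit 4224, R3_146, R8_150, R2_88⟩]⟩]⟩,
 ⟨nat_lit 5, [⟨nat_lit 0, [⟨nat_lit 1, nat_lit 10032, nat_lit 1920, nat_lit 11760, nat_lit 7728, nat_lit 10368, R9_245, R9_161, R7_216⟩]⟩, ⟨nat_lit 3, [⟨nat_lit 1, nat_lit 10176, nat_lit 6864, nat_lit 1440, nat_lit 7872, nat_lit 4512, R0_30, R9_164, R2_94⟩]⟩]⟩,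
 ⟨nat_lit 7, [⟨nat_lit 0, [⟨nat_lit 1, nat_lit 11088, nat_lit 1536, nat_lit 3408, nat_lit 15264, nat_lit 10176, R3_71, R5_318, R7_212⟩]⟩, ⟨nat_lit 1, [⟨nat_lit 1, nat_lit 11280, nat_lit 8064, nat_lit 4080, nat_lit 15408, nat_lit 9360, R0_85, R5_321, R2_195⟩]⟩]⟩], [⟨nat_lit 4, [⟨nat_lit 1, [⟨nat_lit 1, nat_lit 2640, nat_lit 768, nat_lit 1392, nat_lit 7392, nat_lit 10032, R9_29, R8_154, R1_209⟩]⟩]⟩,
 ⟨nat_lit 7, [⟨nat_lit 1, [⟨nat_lit 1, nat_lit 11376, nat_lit 6000, nat_lit 4128, nat_lit 15792, nat_lit 10176, R0_86, R5_329, R1_212⟩]⟩]⟩], [⟨nat_lit 4, [⟨nat_lit 0, [⟨nat_lit 0, nat_lit 912, nat_lit 14544, nat_lit 384, nat_lit 4992, nat_lit 13392, R13_8, R6_104, R7_279⟩, ⟨nat_lit 1, nat_lit 2448, nat_lit 15840, nat_lit 2208, nat_lit 7104, nat_lit 9216, R13_46, R8_148, R14_192⟩]⟩, ⟨nat_lit 1, [⟨nat_lit 1, nat_lit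 2592, nat_lit 16704, nat_lit 1440, nat_lit 7344, nat_lit 8112, R9_30, R8_153, R12_169⟩]⟩, ⟨nat_lit 2, [⟨nat_lit 0, nat_lit 960, nat_lit 15360, nat_lit 576, nat_lit 6336, nat_lit 11952, R3_12, R6_132, R2_249⟩, ⟨nat_lit 1, nat_lit 2496, nat_lit 18048, nat_lit 2688, nat_lit 7152, nat_lit 3216, R3_56, R8_149, R12_67⟩]⟩, ⟨nat_lit 3, [⟨nat_lit 0, nat_lit 1056, nat_lit 15072, nat_lit 3696, nat_lit 6720, nat_lit 12240, R3_77, R6_140, R2_255⟩, ⟨nat_lit 1, nat_lit 2880, nat_lit 17568, nat_lit 7104, nat_lit 7248, nat_lit 3264, R3_148, R8_151, R12_68⟩, ⟨nat_lit 3, nat_lit 3072, nat_lit 18576, nat_lit 4848, nat_lit 7008, nat_lit 12816, R3_101, R4_146, R1_267⟩]⟩]⟩,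
 ⟨nat_lit 5, [⟨nat_lit 0, [⟨nat_lit 0, nat_lit 8016, nat_lit 14640, nat_lit 10848, nat_lit 13104, nat_lit 16176, R9_226, R8_273, R7_337⟩, ⟨nat_lit 1, nat_lit 10080, nat_lit 15936, nat_lit 12384, nat_lit 7776, nat_lit 10272, R9_258, R9_162, R14_214⟩]⟩, ⟨nat_lit 2, [⟨nat_lit 0, nat_lit 8064, nat_lit 15456, nat_lit 9360, nat_lit 13152, nat_lit 14688, R0_195, R8_274, R2_306⟩, ⟨nat_lit 1, nat_lit 10128, nat_lit 18144, nat_lit 10560, nat_lit 7824, nat_lit 4800, R0_220, R9_163, R12_100⟩]⟩, ⟨nat_lit 3, [⟨nat_lit 0, nat_lit 8112, nat_lit 15120, nat_lit 9696, nat_lit 13200, nat_lit 15072, R0_202, R8_275, R2_314⟩, ⟨nat_lit 1, nat_lit 10224, nat_lit 17616, nat_lit 10896, nat_lit 7920, nat_lit 4896, R0_227, R9_165, R12_102⟩, ⟨nat_lit 3, nat_lit 10272, nat_lit 18624, nat_lit 10176, nat_lit 7872, nat_lit 16080, R0_212, R5_164,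 R1_335⟩]⟩]⟩,
 ⟨nat_lit 7, [⟨nat_lit 0, [⟨nat_lit 0, nat_lit 10800, nat_lit 14592, nat_lit 10368, nat_lit 13632, nat_lit 14784, R3_216, R4_284, R7_308⟩, ⟨nat_lit 1, nat_lit 11136, nat_lit 15888, nat_lit 10896, nat_lit 15456, nat_lit 9984, R3_227, R5_322, R14_208⟩]⟩, ⟨nat_lit 1, [⟨nat_lit 1, nat_lit 11328, nat_lit 16752, nat_lit 4320, nat_lit 15696, nat_lit 8880, R0_90, R5_327, R12_185⟩]⟩, ⟨nat_lit 2, [⟨nat_lit 0, nat_lit 10896, nat_lit 15408, nat_lit 12192, nat_lit 13824, nat_lit 13968, R10_254, R4_288, R2_291⟩, ⟨nat_lit 1, nat_lit 11232, nat_lit 18096, nat_lit 12912, nat_lit 15552, nat_lit 3648, R10_269, R5_324, R12_76⟩]⟩]⟩]]]]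
noncomputable def N3332 : T3 (List N0) := [[[[], [], [⟨nat_lit 0, [⟨nat_lit 2, [⟨nat_lit 2, nat_lit 18000, nat_lit 4416, nat_lit 1392, nat_lit 528, nat_lit 7728, R4_29, R4_11, R11_161⟩, ⟨nat_lit 6, nat_lit 17904, nat_lit 4320, nat_lit 1824, nat_lit 720, nat_lit 6816, R4_38, R7_15, R1_142⟩]⟩, ⟨nat_lit 6, [⟨nat_lit 6, nat_lit 17376, nat_lit 4272, nat_lit 2064, nat_lit 1152, nat_lit 7584, R7_43, R7_24, R10_158⟩]⟩]⟩,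
 ⟨nat_lit 2, [⟨nat_lit 4, [⟨nat_lit 4, nat_lit 18288, nat_lit 11856, nat_lit 17568, nat_lit 5568, nat_lit 12432, R7_366, R7_116, R4_259⟩]⟩, ⟨nat_lit 6, [⟨nat_lit 4, nat_lit 19104, nat_lit 11904, nat_lit 13200, nat_lit 6000, nat_lit 1488, R14_275, R7_125, R3_31⟩, ⟨nat_lit 6, nat_lit 19296, nat_lit 12048, nat_lit 13248, nat_lit 17568, nat_lit 7632, R14_276, R14_366, R10_159⟩]⟩]⟩,
 ⟨nat_lit 3, [⟨nat_lit 2, [⟨nat_lit 2, nat_lit 21888, nat_lit 10704, nat_lit 624, nat_lit 2112, nat_lit 7776, R5_13, R5_44, R11_162⟩]⟩]⟩], [], [], [], [⟨nat_lit 0, [⟨nat_lit 6, [⟨nat_lit 6, nat_lit 17424, nat_lit 4512, nat_lit 2016, nat_lit 1200, nat_lit 12336, R7_42, R7_25, R1_257⟩]⟩]⟩,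
 ⟨nat_lit 2, [⟨nat_lit 4, [⟨nat_lit 4, nat_lit 18336, nat_lit 12912, nat_lit 12912, nat_lit 13728, nat_lit 13728, R7_269, R7_286, R7_286⟩]⟩, ⟨nat_lit 6, [⟨nat_lit 4, nat_lit 19152, nat_lit 13008, nat_lit 12720, nat_lit 13920, nat_lit 12576, R14_265, R7_290, R2_262⟩, ⟨nat_lit 6, nat_lit 19344, nat_lit 13152, nat_lit 12768, nat_lit 17664, nat_lit 13920, R14_266, R14_368, R1_290⟩]⟩]⟩]], [], [[], [], [], [], [], [], [⟨nat_lit 2, [⟨nat_lit 4, [⟨nat_lit 4, nat_lit 18384, nat_lit 13920, nat_lit 13008, nat_lit 12576, nat_lit 13920, R7_271, R2_262, R7_290⟩, ⟨nat_lit 5, nat_lit 18528, nat_lit 13968, nat_lit 13152, nat_lit 13920, nat_lit 17664, R7_274, R1_290, R14_368⟩]⟩, ⟨nat_lit 6, [⟨nat_lit 4, nat_lit 19200, nat_lit 14640, nat_lit 14928, nat_lit 13200, nat_lit 13200, R14_311, R2_275, R2_275⟩, ⟨nat_lit 5, nat_lit 19488,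 nat_lit 14688, nat_lit 15024, nat_lit 14544, nat_lit 14064, R14_313, R1_303, R12_293⟩, ⟨nat_lit 6, nat_lit 19392, nat_lit 14736, nat_lit 14976, nat_lit 14064, nat_lit 14544, R14_312, R12_293, R1_303⟩]⟩]⟩]], [[], [], [⟨nat_lit 0, [⟨nat_lit 2, [⟨nat_lit 6, nat_lit 17952, nat_lit 720, nat_lit 8544, nat_lit 2112, nat_lit 6912, R4_178, R2_44, R1_144⟩]⟩, ⟨nat_lit 6, [⟨nat_lit 6, nat_lit 17472, nat_lit 3120, nat_lit 8592, nat_lit 336, nat_lit 7776, R7_179, R2_7, R10_162⟩]⟩]⟩,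
 ⟨nat_lit 2, [⟨nat_lit 4, [⟨nat_lit 4, nat_lit 18432, nat_lit 12768, nat_lit 17664, nat_lit 7728, nat_lit 12624, R7_368, R2_161, R4_263⟩, ⟨nat_lit 7, nat_lit 18576, nat_lit 12912, nat_lit 17856, nat_lit 8256, nat_lit 16416, R7_372, R1_172, R5_342⟩]⟩, ⟨nat_lit 6, [⟨nat_lit 4, nat_lit 19248, nat_lit 13776, nat_lit 13680, nat_lit 8928, nat_lit 7968, R14_285, R2_186, R3_166⟩, ⟨nat_lit 6, nat_lit 19440, nat_lit 14256, nat_lit 13776, nat_lit 1104, nat_lit 7824, R14_287, R12_23, R10_163⟩, ⟨nat_lit 7, nat_lit 19536, nat_lit 13968, nat_lit 13728, nat_lit 9744, nat_lit 6048, R14_286, R1_203, R0_126⟩]⟩]⟩,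
 ⟨nat_lit 3, [⟨nat_lit 2, [⟨nat_lit 2, nat_lit 21936, nat_lit 7296, nat_lit 7584, nat_lit 2112, nat_lit 8496, R5_158, R11_44, R11_177⟩, ⟨nat_lit 6, nat_lit 21840, nat_lit 7680, nat_lit 7152, nat_lit 1584, nat_lit 6960, R5_149, R1_33, R1_145⟩]⟩]⟩]]], [[[], [], [⟨nat_lit 0, [⟨nat_lit 2, [⟨nat_lit 2, nat_lit 18192, nat_lit 17568, nat_lit 4752, nat_lit 6912, nat_lit 8208, R3_99, R4_144, R11_171⟩, ⟨nat_lit 6, nat_lit 18048, nat_lit 10704, nat_lit 12720, nat_lit 6720, nat_lit 6864, R3_265, R7_140, R1_143⟩]⟩, ⟨nat_lit 6, [⟨nat_lit 6, nat_lit 17520, nat_lit 10752, nat_lit 624, nat_lit 7152, nat_lit 7680, R2_13, R7_149, R10_160⟩]⟩]⟩,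
 ⟨nat_lit 2, [⟨nat_lit 6, [⟨nat_lit 4, nat_lit 19584, nat_lit 3504, nat_lit 10464, nat_lit 6096, nat_lit 1584, R12_218, R7_127, R3_33⟩, ⟨nat_lit 6, nat_lit 19776, nat_lit 10992, nat_lit 10512, nat_lit 18000, nat_lit 7728, R12_219, R14_375, R10_161⟩]⟩]⟩,
 ⟨nat_lit 3, [⟨nat_lit 2, [⟨nat_lit 2, nat_lit 22032, nat_lit 17952, nat_lit 15168, nat_lit 10944, nat_lit 8256, R0_316, R5_228, R11_172⟩]⟩]⟩], [], [], [], [⟨nat_lit 0, [⟨nat_lit 6, [⟨nat_lit 6, nat_lit 17568, nat_lit 2928, nat_lit 576, nat_lit 7200, nat_lit 12432, R2_12, R7_150, R1_259⟩]⟩]⟩,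
 ⟨nat_lit 2, [⟨nat_lit 6, [⟨nat_lit 4, nat_lit 19632, nat_lit 11664, nat_lit 9984, nat_lit 14064, nat_lit 12672, R12_208, R7_293, R2_264⟩, ⟨nat_lit 6, nat_lit 19824, nat_lit 11808, nat_lit 10032, nat_lit 18144, nat_lit 14016, R12_209, R14_378, R1_292⟩]⟩]⟩]], [[], [], [⟨nat_lit 0, [⟨nat_lit 2, [⟨nat_lit 2, nat_lit 18240, nat_lit 2640, nat_lit 5424, nat_lit 5760, nat_lit 9984, R3_113, R3_120, R11_208⟩, ⟨nat_lit 6, nat_lit 18096, nat_lit 2400, nat_lit 13536, nat_lit 4896, nat_lit 7200, R3_282, R2_102, R1_150⟩]⟩, ⟨nat_lit 6, [⟨nat_lit 6, nat_lit 17616, nat_lit 2352, nat_lit 6336, nat_lit 5376, nat_lit 8112, R2_132, R2_112, R10_169⟩]⟩]⟩,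
 ⟨nat_lit 1, [⟨nat_lit 2, [⟨nat_lit 2, nat_lit 21456, nat_lit 8640, nat_lit 5136, nat_lit 4176, nat_lit 10080, R10_107, R10_87, R11_210⟩, ⟨nat_lit 6, nat_lit 21408, nat_lit 8496, nat_lit 5616, nat_lit 3600, nat_lit 7248, R10_117, R1_75, R1_151⟩]⟩, ⟨nat_lit 6, [⟨nat_lit 6, nat_lit 21312, nat_lit 8448, nat_lit 5040, nat_lit 4080, nat_lit 8208, R1_105, R1_85, R10_171⟩]⟩]⟩,
 ⟨nat_lit 2, [⟨nat_lit 6, [⟨nat_lit 6, nat_lit 19872, nat_lit 13104, nat_lit 10896, nat_lit 15120, nat_lit 8160, R12_227, R12_315, R10_170⟩]⟩]⟩,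
 ⟨nat_lit 3, [⟨nat_lit 2, [⟨nat_lit 2, nat_lit 22080, nat_lit 12096, nat_lit 15216, nat_lit 8112, nat_lit 10032, R0_317, R0_169, R11_209⟩]⟩]⟩], [], [], [], [⟨nat_lit 0, [⟨nat_lit 6, [⟨nat_lit 6, nat_lit 17664, nat_lit 2400, nat_lit 6288, nat_lit 5424, nat_lit 12528, R2_131, R2_113, R1_261⟩]⟩]⟩,
 ⟨nat_lit 1, [⟨nat_lit 6, [⟨nat_lit 6, nat_lit 21360, nat_lit 7776, nat_lit 4992, nat_lit 4128, nat_lit 15888, R1_104, R1_86, R1_331⟩]⟩]⟩,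
 ⟨nat_lit 2, [⟨nat_lit 6, [⟨nat_lit 6, nat_lit 19920, nat_lit 12240, nat_lit 10704, nat_lit 15264, nat_lit 15120, R12_223, R12_318, R1_315⟩]⟩]⟩]], [[], [], [], [], [], [], [⟨nat_lit 2, [⟨nat_lit 6, [⟨nat_lit 4, nat_lit 19680, nat_lit 11712, nat_lit 12000, nat_lit 13344, nat_lit 13488, R12_250, R2_278, R2_281⟩, ⟨nat_lit 5, nat_lit 20064, nat_lit 11760, nat_lit 12096, nat_lit 14688, nat_lit 14640, R12_252, R1_306, R12_305⟩, ⟨nat_lit 6, nat_lit 19968, nat_lit 11808, nat_lit 12048, nat_lit 14256, nat_lit 14832, R12_251, R12_297, R1_309⟩]⟩]⟩]], [[], [], [⟨nat_lit 0, [⟨nat_lit 2, [⟨nat_lit 6, nat_lit 18144, nat_lit 5376, nat_lit 13056, nat_lit 9888, nat_lit 7056, R3_272, R2_206, R1_147⟩]⟩, ⟨nat_lit 6, [⟨nat_lit 6, nat_lit 17712, nat_lit 5472, nat_lit 7392, nat_lit 7344, nat_lit 8016, R2_154, R2_153, R10_167⟩]⟩]⟩,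
 ⟨nat_lit 2, [⟨nat_lit 6, [⟨nat_lit 4, nat_lit 19728, nat_lit 5280, nat_lit 11328, nat_lit 9408, nat_lit 8112, R12_236, R2_196, R3_169⟩, ⟨nat_lit 6, nat_lit 20016, nat_lit 5520, nat_lit 11424, nat_lit 8976, nat_lit 8064, R12_238, R12_187, R10_168⟩, ⟨nat_lit 7, nat_lit 20112, nat_lit 5328, nat_lit 11376, nat_lit 10224, nat_lit 6144, R12_237, R1_213, R0_128⟩]⟩]⟩,
 ⟨nat_lit 3, [⟨nat_lit 2, [⟨nat_lit 2, nat_lit 22128, nat_lit 5232, nat_lit 15264, nat_lit 14208, nat_lit 8880, R0_318, R11_296, R11_185⟩, ⟨nat_lit 6, nat_lit 21984, nat_lit 5424, nat_lit 15120, nat_lit 10704, nat_lit 7104, R0_315, R1_223, R1_148⟩]⟩]⟩]]], [[], [], [[], [], [], [], [], [], [⟨nat_lit 2, [⟨nat_lit 4, [⟨nat_lit 4, nat_lit 18624, nat_lit 9984, nat_lit 11664, nat_lit 12672, nat_lit 14064, R2_243, R2_264, R7_293⟩, ⟨nat_lit 5, nat_lit 18720,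 nat_lit 10032, nat_lit 11808, nat_lit 14016, nat_lit 18144, R2_246, R1_292, R14_378⟩]⟩, ⟨nat_lit 5, [⟨nat_lit 5, nat_lit 20880, nat_lit 10704, nat_lit 12240, nat_lit 15120, nat_lit 15264, R1_255, R1_315, R12_318⟩]⟩, ⟨nat_lit 6, [⟨nat_lit 4, nat_lit 20160, nat_lit 12000, nat_lit 11712, nat_lit 13488, nat_lit 13344, R12_244, R2_281, R2_278⟩, ⟨nat_lit 5, nat_lit 20256, nat_lit 12048, nat_lit 11808, nat_lit 14832, nat_lit 14256, R12_246, R1_309, R12_297⟩, ⟨nat_lit 6, nat_lit 20208, nat_lit 12096, nat_lit 11760, nat_lit 14640, nat_lit 14688, R12_245, R12_305, R1_306⟩]⟩]⟩]]], [[[], [], [], [], [], [], [⟨nat_lit 0, [⟨nat_lit 6, [⟨nat_lit 6, nat_lit 17760, nat_lit 2976, nat_lit 528, nat_lit 8064, nat_lit 12384, R2_11, R7_168, R1_258⟩]⟩]⟩,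
 ⟨nat_lit 2, [⟨nat_lit 4, [⟨nat_lit 4, nat_lit 18768, nat_lit 10560, nat_lit 10560, nat_lit 13776, nat_lit 13776, R2_220, R7_287, R7_287⟩]⟩, ⟨nat_lit 6, [⟨nat_lit 4, nat_lit 20304, nat_lit 10704, nat_lit 1824, nat_lit 13968, nat_lit 12624, R12_38, R7_291, R2_263⟩, ⟨nat_lit 6, nat_lit 20496, nat_lit 11856, nat_lit 1968, nat_lit 18240, nat_lit 13968, R12_41, R14_380, R1_291⟩]⟩, ⟨nat_lit 7, [⟨nat_lit 4, nat_lit 20928, nat_lit 10656, nat_lit 10944, nat_lit 13824, nat_lit 14064, R1_228, R7_288, R2_293⟩]⟩]⟩,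
 ⟨nat_lit 6, [⟨nat_lit 7, [⟨nat_lit 4, nat_lit 6528, nat_lit 14880, nat_lit 7008, nat_lit 12768, nat_lit 7872, R11_146, R4_266, R2_164⟩, ⟨nat_lit 7, nat_lit 6816, nat_lit 15504, nat_lit 7104, nat_lit 16752, nat_lit 8400, R11_148, R5_349, R1_175⟩]⟩]⟩]], [], [[], [], [], [], [⟨nat_lit 2, [⟨nat_lit 4, [⟨nat_lit 5, nat_lit 18960, nat_lit 528, nat_lit 2976, nat_lit 12384, nat_lit 8064, R2_62, R1_258, R7_168⟩]⟩, ⟨nat_lit 7, [⟨nat_lit 5, nat_lit 21072, nat_lit 6240, nat_lit 2448, nat_lit 12480, nat_lit 5472, R1_51, R1_260, R2_114⟩]⟩]⟩,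
 ⟨nat_lit 6, [⟨nat_lit 7, [⟨nat_lit 5, nat_lit 6624, nat_lit 5760, nat_lit 7344, nat_lit 7872, nat_lit 6048, R11_153, R10_164, R2_126⟩]⟩]⟩], [], [⟨nat_lit 2, [⟨nat_lit 4, [⟨nat_lit 4, nat_lit 18816, nat_lit 9840, nat_lit 10704, nat_lit 12624, nat_lit 13968, R2_223, R2_263, R7_291⟩, ⟨nat_lit 5, nat_lit 19008, nat_lit 9936, nat_lit 11856, nat_lit 13968, nat_lit 18240, R2_247, R1_291, R14_380⟩]⟩, ⟨nat_lit 6, [⟨nat_lit 4, nat_lit 20352, nat_lit 11904, nat_lit 11472, nat_lit 13248, nat_lit 13248, R12_239, R2_276, R2_276⟩, ⟨nat_lit 5, nat_lit 20688, nat_lit 11952, nat_lit 11856, nat_lit 14592, nat_lit 14448, R12_247, R1_304, R12_301⟩, ⟨nat_lit 6, nat_lit 20544, nat_lit 12240, nat_lit 11616, nat_lit 14448, nat_lit 14592, R12_242, R12_301, R1_304⟩]⟩, ⟨nat_lit 7, [⟨nat_lit 4, nat_lit 20976, nat_lit 10560, nat_lit 11088,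 nat_lit 12768, nat_lit 14352, R1_231, R2_266, R2_299⟩, ⟨nat_lit 5, nat_lit 21120, nat_lit 10656, nat_lit 12288, nat_lit 14112, nat_lit 3936, R1_256, R1_294, R12_82⟩]⟩]⟩,
 ⟨nat_lit 6, [⟨nat_lit 7, [⟨nat_lit 4, nat_lit 6576, nat_lit 16944, nat_lit 7056, nat_lit 8016, nat_lit 9120, R11_147, R3_167, R2_190⟩, ⟨nat_lit 5, nat_lit 6672, nat_lit 17232, nat_lit 7440, nat_lit 7920, nat_lit 6144, R11_155, R10_165, R12_128⟩, ⟨nat_lit 7, nat_lit 6864, nat_lit 17136, nat_lit 7248, nat_lit 6096, nat_lit 9936, R11_151, R0_127, R1_207⟩]⟩]⟩], [⟨nat_lit 2, [⟨nat_lit 7, [⟨nat_lit 5, nat_lit 21168, nat_lit 4944, nat_lit 7824, nat_lit 15600, nat_lit 4176, R1_163, R1_325, R1_87⟩]⟩]⟩,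
 ⟨nat_lit 6, [⟨nat_lit 7, [⟨nat_lit 5, nat_lit 6720, nat_lit 4464, nat_lit 7392, nat_lit 7968, nat_lit 4752, R11_154, R10_166, R1_99⟩]⟩]⟩]], [[], [], [⟨nat_lit 0, [⟨nat_lit 6, [⟨nat_lit 6, nat_lit 17808, nat_lit 3120, nat_lit 5760, nat_lit 6048, nat_lit 7872, R2_120, R2_126, R10_164⟩]⟩]⟩,
 ⟨nat_lit 2, [⟨nat_lit 4, [⟨nat_lit 4, nat_lit 18864, nat_lit 15696, nat_lit 14880, nat_lit 7872, nat_lit 12768, R2_310, R2_164, R4_266⟩, ⟨nat_lit 7, nat_lit 19056, nat_lit 15840, nat_lit 15504, nat_lit 8400, nat_lit 16752, R2_323, R1_175, R5_349⟩]⟩, ⟨nat_lit 6, [⟨nat_lit 4, nat_lit 20400, nat_lit 16848, nat_lit 5520, nat_lit 9120, nat_lit 8016, R12_115, R2_190, R3_167⟩, ⟨nat_lit 6, nat_lit 20592, nat_lit 17328, nat_lit 5760, nat_lit 6144, nat_lit 7920, R12_120, R12_128, R10_165⟩, ⟨nat_lit 7, nat_lit 20736, nat_lit 17040, nat_lit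 5712, nat_lit 9936, nat_lit 6096, R12_119, R1_207, R0_127⟩]⟩, ⟨nat_lit 7, [⟨nat_lit 7, nat_lit 21216, nat_lit 16416, nat_lit 16512, nat_lit 8832, nat_lit 8688, R1_344, R1_184, R11_181⟩]⟩]⟩,
 ⟨nat_lit 3, [⟨nat_lit 2, [⟨nat_lit 2, nat_lit 22224, nat_lit 6912, nat_lit 7200, nat_lit 8640, nat_lit 8640, R11_150, R11_180, R11_180⟩, ⟨nat_lit 6, nat_lit 22176, nat_lit 7296, nat_lit 6768, nat_lit 7008, nat_lit 7008, R11_141, R1_146, R1_146⟩]⟩, ⟨nat_lit 6, [⟨nat_lit 6, nat_lit 21744, nat_lit 9360, nat_lit 4464, nat_lit 4752, nat_lit 7968, R1_93, R1_99, R10_166⟩]⟩]⟩,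
 ⟨nat_lit 4, [⟨nat_lit 3, [⟨nat_lit 3, nat_lit 3120, nat_lit 17808, nat_lit 5760, nat_lit 6048, nat_lit 7872, R2_120, R2_126, R10_164⟩]⟩]⟩,
 ⟨nat_lit 6, [⟨nat_lit 3, [⟨nat_lit 3, nat_lit 9360, nat_lit 21744, nat_lit 4464, nat_lit 4752, nat_lit 7968, R1_93, R1_99, R10_166⟩]⟩, ⟨nat_lit 7, [⟨nat_lit 3, nat_lit 7296, nat_lit 22176, nat_lit 6768, nat_lit 7008, nat_lit 7008, R11_141, R1_146, R1_146⟩, ⟨nat_lit 7, nat_lit 6912, nat_lit 22224, nat_lit 7200, nat_lit 8640, nat_lit 8640, R11_150, R11_180, R11_180⟩]⟩]⟩,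
 ⟨nat_lit 7, [⟨nat_lit 0, [⟨nat_lit 0, nat_lit 15696, nat_lit 18864, nat_lit 14880, nat_lit 7872, nat_lit 12768, R2_310, R2_164, R4_266⟩, ⟨nat_lit 2, nat_lit 15840, nat_lit 19056, nat_lit 15504, nat_lit 8400, nat_lit 16752, R2_323, R1_175, R5_349⟩]⟩, ⟨nat_lit 2, [⟨nat_lit 2, nat_lit 16416, nat_lit 21216, nat_lit 16512, nat_lit 8832, nat_lit 8688, R1_344, R1_184, R11_181⟩]⟩, ⟨nat_lit 3, [⟨nat_lit 0, nat_lit 16848, nat_lit 20400, nat_lit 5520, nat_lit 9120, nat_lit 8016, R12_115, R2_190, R3_167⟩, ⟨nat_lit 2, nat_lit 17040, nat_lit 20736, nat_lit 5712, nat_lit 9936, nat_lit 6096, R12_119, R1_207, R0_127⟩, ⟨nat_lit 3, nat_lit 17328, nat_lit 20592, nat_lit 5760, nat_lit 6144, nat_lit 7920, R12_120, R12_128, R10_165⟩]⟩]⟩], [], [], [], [⟨nat_lit 0, [⟨nat_lit 6, [⟨nat_lit 6, nat_lit 17856, nat_lit 2448, nat_lit 6240,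 nat_lit 5472, nat_lit 12480, R2_130, R2_114, R1_260⟩]⟩]⟩,
 ⟨nat_lit 2, [⟨nat_lit 4, [⟨nat_lit 4, nat_lit 18912, nat_lit 10944, nat_lit 10656, nat_lit 14064, nat_lit 13824, R2_222, R2_293, R7_288⟩]⟩, ⟨nat_lit 6, [⟨nat_lit 4, nat_lit 20448, nat_lit 11088, nat_lit 6384, nat_lit 14352, nat_lit 12768, R12_133, R2_299, R2_266⟩, ⟨nat_lit 6, nat_lit 20640, nat_lit 12288, nat_lit 6480, nat_lit 3936, nat_lit 14112, R12_135, R12_82, R1_294⟩]⟩, ⟨nat_lit 7, [⟨nat_lit 4, nat_lit 21024, nat_lit 11040, nat_lit 11040, nat_lit 14304, nat_lit 14304, R1_230, R2_298, R2_298⟩, ⟨nat_lit 7, nat_lit 21264, nat_lit 11424, nat_lit 11424, nat_lit 15840, nat_lit 15840, R1_238, R1_330, R1_330⟩]⟩]⟩,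
 ⟨nat_lit 3, [⟨nat_lit 6, [⟨nat_lit 6, nat_lit 21792, nat_lit 7824, nat_lit 4944, nat_lit 4176, nat_lit 15600, R1_103, R1_87, R1_325⟩]⟩]⟩,
 ⟨nat_lit 6, [⟨nat_lit 7, [⟨nat_lit 7, nat_lit 6960, nat_lit 16512, nat_lit 7152, nat_lit 8688, nat_lit 8832, R11_149, R11_181, R1_184⟩]⟩]⟩]], [[], [], [], [⟨nat_lit 4, [⟨nat_lit 3, [⟨nat_lit 0, nat_lit 2544, nat_lit 14592, nat_lit 3216, nat_lit 12672, nat_lit 11184, R2_67, R6_264, R3_233⟩, ⟨nat_lit 1, nat_lit 2928, nat_lit 15168, nat_lit 6432, nat_lit 15024, nat_lit 9120, R2_134, R8_313, R10_190⟩, ⟨nat_lit 2, nat_lit 2736, nat_lit 15648, nat_lit 4080, nat_lit 13008, nat_lit 12384, R2_85, R4_271, R0_258⟩]⟩]⟩,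
 ⟨nat_lit 6, [⟨nat_lit 3, [⟨nat_lit 0, nat_lit 8976, nat_lit 14832, nat_lit 2688, nat_lit 13200, nat_lit 15216, R1_56, R4_275, R3_317⟩, ⟨nat_lit 1, nat_lit 9168, nat_lit 15456, nat_lit 5136, nat_lit 16608, nat_lit 9408, R1_107, R5_346, R10_196⟩]⟩, ⟨nat_lit 7, [⟨nat_lit 0, nat_lit 7008, nat_lit 14880, nat_lit 6528, nat_lit 12768, nat_lit 7872, R11_136, R4_266, R2_164⟩, ⟨nat_lit 1, nat_lit 7104, nat_lit 15504, nat_lit 6816, nat_lit 16752, nat_lit 8400, R11_142, R5_349, R1_175⟩]⟩]⟩]], [], [[], [], [], [⟨nat_lit 4, [⟨nat_lit 3, [⟨nat_lit 1, nat_lit 2976, nat_lit 16176, nat_lit 7008, nat_lit 5952, nat_lit 10032, R2_146, R5_124, R10_209⟩]⟩]⟩,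
 ⟨nat_lit 6, [⟨nat_lit 3, [⟨nat_lit 1, nat_lit 9216, nat_lit 16464, nat_lit 5712, nat_lit 5568, nat_lit 10176, R1_119, R11_116, R10_212⟩]⟩, ⟨nat_lit 7, [⟨nat_lit 1, nat_lit 7152, nat_lit 16512, nat_lit 6960, nat_lit 8688, nat_lit 8832, R11_145, R11_181, R1_184⟩]⟩]⟩], [], [], [], [⟨nat_lit 6, [⟨nat_lit 7, [⟨nat_lit 1, nat_lit 7200, nat_lit 22224, nat_lit 6912, nat_lit 8640, nat_lit 13008, R11_144, R11_180, R11_271⟩, ⟨nat_lit 5, nat_lit 6768, nat_lit 22176, nat_lit 7296, nat_lit 7008, nat_lit 7008, R11_152, R1_146, R1_146⟩]⟩]⟩]], [[⟨nat_lit 4, [⟨nat_lit 3, [⟨nat_lit 0, nat_lit 2592, nat_lit 3792, nat_lit 3792, nat_lit 8064, nat_lit 8064, R2_79, R13_168, R13_168⟩, ⟨nat_lit 1, nat_lit 3024, nat_lit 4608, nat_lit 6768, nat_lit 5856, nat_lit 6720, R2_141, R9_122, R3_140⟩, ⟨nat_lit 2, nat_lit 2784, nat_lit 6768, nat_lit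 4608, nat_lit 6720, nat_lit 5856, R2_96, R3_140, R9_122⟩, ⟨nat_lit 3, nat_lit 3168, nat_lit 5088, nat_lit 5088, nat_lit 13200, nat_lit 13200, R2_106, R3_275, R3_275⟩]⟩]⟩,
 ⟨nat_lit 6, [⟨nat_lit 3, [⟨nat_lit 0, nat_lit 9024, nat_lit 3888, nat_lit 3264, nat_lit 8976, nat_lit 8160, R1_68, R3_187, R13_170⟩, ⟨nat_lit 1, nat_lit 9264, nat_lit 4704, nat_lit 5472, nat_lit 3696, nat_lit 6816, R1_114, R0_77, R3_142⟩, ⟨nat_lit 3, nat_lit 9408, nat_lit 5136, nat_lit 3792, nat_lit 5424, nat_lit 13344, R1_79, R10_113, R3_278⟩]⟩, ⟨nat_lit 7, [⟨nat_lit 3, nat_lit 7344, nat_lit 5760, nat_lit 6624, nat_lit 7872, nat_lit 6048, R11_138, R10_164, R2_126⟩]⟩]⟩,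
 ⟨nat_lit 7, [⟨nat_lit 0, [⟨nat_lit 0, nat_lit 15744, nat_lit 3216, nat_lit 14592, nat_lit 11184, nat_lit 12672, R2_304, R3_233, R6_264⟩, ⟨nat_lit 1, nat_lit 15984, nat_lit 4080, nat_lit 15648, nat_lit 12384, nat_lit 13008, R2_326, R0_258, R4_271⟩, ⟨nat_lit 2, nat_lit 15888, nat_lit 6432, nat_lit 15168, nat_lit 9120, nat_lit 15024, R2_316, R10_190, R8_313⟩]⟩, ⟨nat_lit 2, [⟨nat_lit 2, nat_lit 16464, nat_lit 7008, nat_lit 16176, nat_lit 10032, nat_lit 5952, R1_337, R10_209, R5_124⟩]⟩, ⟨nat_lit 3, [⟨nat_lit 0, nat_lit 16896, nat_lit 3840, nat_lit 5376, nat_lit 12096, nat_lit 8112, R12_112, R3_252, R13_169⟩, ⟨nat_lit 1, nat_lit 17232, nat_lit 4656, nat_lit 5808, nat_lit 13344, nat_lit 6768, R12_121, R0_278, R3_141⟩, ⟨nat_lit 2, nat_lit 17088, nat_lit 6816, nat_lit 5568, nat_lit 10608, nat_lit 5904, R12_116, R10_221,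 R9_123⟩]⟩]⟩], [], [⟨nat_lit 4, [⟨nat_lit 3, [⟨nat_lit 0, nat_lit 2640, nat_lit 3264, nat_lit 3888, nat_lit 8160, nat_lit 8976, R2_81, R13_170, R3_187⟩, ⟨nat_lit 2, nat_lit 2832, nat_lit 5472, nat_lit 4704, nat_lit 6816, nat_lit 3696, R2_98, R3_142, R0_77⟩, ⟨nat_lit 3, nat_lit 3216, nat_lit 3792, nat_lit 5136, nat_lit 13344, nat_lit 5424, R2_107, R3_278, R10_113⟩]⟩]⟩,
 ⟨nat_lit 6, [⟨nat_lit 3, [⟨nat_lit 0, nat_lit 9072, nat_lit 3360, nat_lit 3360, nat_lit 9120, nat_lit 9120, R1_70, R3_190, R3_190⟩, ⟨nat_lit 3, nat_lit 9456, nat_lit 3840, nat_lit 3840, nat_lit 5472, nat_lit 5472, R1_80, R10_114, R10_114⟩]⟩, ⟨nat_lit 7, [⟨nat_lit 3, nat_lit 7392, nat_lit 4464, nat_lit 6720, nat_lit 7968, nat_lit 4752, R11_140, R10_166, R1_99⟩]⟩]⟩,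
 ⟨nat_lit 7, [⟨nat_lit 0, [⟨nat_lit 0, nat_lit 15792, nat_lit 2688, nat_lit 14832, nat_lit 15216, nat_lit 13200, R2_309, R3_317, R4_275⟩, ⟨nat_lit 2, nat_lit 15936, nat_lit 5136, nat_lit 15456, nat_lit 9408, nat_lit 16608, R2_322, R10_196, R5_346⟩]⟩, ⟨nat_lit 2, [⟨nat_lit 2, nat_lit 16512, nat_lit 5712, nat_lit 16464, nat_lit 10176, nat_lit 5568, R1_343, R10_212, R11_116⟩]⟩, ⟨nat_lit 3, [⟨nat_lit 0, nat_lit 16944, nat_lit 3312, nat_lit 5472, nat_lit 15552, nat_lit 9216, R12_114, R3_324, R3_192⟩, ⟨nat_lit 2, nat_lit 17136, nat_lit 5520, nat_lit 5664, nat_lit 10896, nat_lit 3744, R12_118, R10_227, R0_78⟩]⟩]⟩], [⟨nat_lit 4, [⟨nat_lit 3, [⟨nat_lit 0, nat_lit 2688, nat_lit 16848, nat_lit 3840, nat_lit 8112, nat_lit 12096, R2_80, R13_169, R3_252⟩, ⟨nat_lit 1, nat_lit 3072, nat_lit 17040, nat_lit 6816, nat_lit 5904,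 nat_lit 10608, R2_142, R9_123, R10_221⟩, ⟨nat_lit 2, nat_lit 2880, nat_lit 17280, nat_lit 4656, nat_lit 6768, nat_lit 13344, R2_97, R3_141, R0_278⟩]⟩]⟩,
 ⟨nat_lit 6, [⟨nat_lit 3, [⟨nat_lit 0, nat_lit 9120, nat_lit 16992, nat_lit 3312, nat_lit 9216, nat_lit 15552, R1_69, R3_192, R3_324⟩, ⟨nat_lit 1, nat_lit 9312, nat_lit 17184, nat_lit 5520, nat_lit 3744, nat_lit 10896, R1_115, R0_78, R10_227⟩]⟩, ⟨nat_lit 7, [⟨nat_lit 0, nat_lit 7056, nat_lit 16944, nat_lit 6576, nat_lit 8016, nat_lit 9120, R11_137, R3_167, R2_190⟩, ⟨nat_lit 1, nat_lit 7248, nat_lit 17136, nat_lit 6864, nat_lit 6096, nat_lit 9936, R11_143, R0_127, R1_207⟩, ⟨nat_lit 3, nat_lit 7440, nat_lit 17232, nat_lit 6672, nat_lit 7920, nat_lit 6144, R11_139, R10_165, R12_128⟩]⟩]⟩,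
 ⟨nat_lit 7, [⟨nat_lit 3, [⟨nat_lit 0, nat_lit 16992, nat_lit 16896, nat_lit 5424, nat_lit 14784, nat_lit 14784, R12_113, R3_308, R3_308⟩, ⟨nat_lit 1, nat_lit 17280, nat_lit 17088, nat_lit 5856, nat_lit 13536, nat_lit 11280, R12_122, R0_282, R10_235⟩, ⟨nat_lit 2, nat_lit 17184, nat_lit 17328, nat_lit 5616, nat_lit 11280, nat_lit 13536, R12_117, R10_235, R0_282⟩]⟩]⟩]]], [[], [], [], [], [[⟨nat_lit 4, [⟨nat_lit 0, [⟨nat_lit 0, nat_lit 0, nat_lit 3408, nat_lit 480, nat_lit 0, nat_lit 0, R6_10, R6_0, R6_0⟩, ⟨nat_lit 1, nat_lit 288, nat_lit 3792, nat_lit 2784, nat_lit 3264, nat_lit 0, R6_58, R8_68, R4_0⟩, ⟨nat_lit 2, nat_lit 144, nat_lit 4272, nat_lit 1056, nat_lit 0, nat_lit 3264, R6_22, R4_0, R8_68⟩]⟩, ⟨nat_lit 2, [⟨nat_lit 2, nat_lit 1344, nat_lit 4320, nat_lit 960, nat_lit 480, nat_lit 4752, R4_20, R4_10, R5_99⟩]⟩]⟩,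
 ⟨nat_lit 5, [⟨nat_lit 0, [⟨nat_lit 0, nat_lit 10368, nat_lit 8448, nat_lit 1488, nat_lit 12672, nat_lit 288, R8_31, R8_264, R6_6⟩, ⟨nat_lit 1, nat_lit 10944, nat_lit 9456, nat_lit 1584, nat_lit 2208, nat_lit 192, R8_33, R9_46, R4_4⟩, ⟨nat_lit 2, nat_lit 10656, nat_lit 9696, nat_lit 1536, nat_lit 1872, nat_lit 3600, R8_32, R5_39, R8_75⟩]⟩, ⟨nat_lit 2, [⟨nat_lit 2, nat_lit 12624, nat_lit 9744, nat_lit 288, nat_lit 1920, nat_lit 4800, R5_6, R5_40, R5_100⟩]⟩]⟩,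
 ⟨nat_lit 6, [⟨nat_lit 0, [⟨nat_lit 0, nat_lit 7488, nat_lit 10752, nat_lit 3168, nat_lit 12096, nat_lit 48, R4_66, R4_252, R6_1⟩, ⟨nat_lit 1, nat_lit 7632, nat_lit 10800, nat_lit 4368, nat_lit 14496, nat_lit 48, R4_91, R5_302, R4_1⟩]⟩]⟩], [⟨nat_lit 4, [⟨nat_lit 0, [⟨nat_lit 0, nat_lit 48, nat_lit 1488, nat_lit 768, nat_lit 288, nat_lit 12672, R6_16, R6_6, R8_264⟩, ⟨nat_lit 1, nat_lit 336, nat_lit 1536, nat_lit 2928, nat_lit 3600, nat_lit 1872, R6_61, R8_75, R5_39⟩, ⟨nat_lit 2, nat_lit 192, nat_lit 1584, nat_lit 1344, nat_lit 192, nat_lit 2208, R6_28, R4_4, R9_46⟩]⟩, ⟨nat_lit 1, [⟨nat_lit 0, nat_lit 1776, nat_lit 2160, nat_lit 2400, nat_lit 2592, nat_lit 8352, R8_50, R6_54, R5_174⟩, ⟨nat_lit 1, nat_lit 1872, nat_lit 2208, nat_lit 2544, nat_lit 3648, nat_lit 10800, R8_53, R8_76, R11_225⟩, ⟨nat_lit 2, nat_lit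 1824, nat_lit 2304, nat_lit 2448, nat_lit 2496, nat_lit 672, R8_51, R4_52, R0_14⟩]⟩, ⟨nat_lit 2, [⟨nat_lit 2, nat_lit 1392, nat_lit 2784, nat_lit 1248, nat_lit 768, nat_lit 11712, R4_26, R4_16, R0_244⟩]⟩]⟩,
 ⟨nat_lit 5, [⟨nat_lit 0, [⟨nat_lit 0, nat_lit 10416, nat_lit 6288, nat_lit 6288, nat_lit 16848, nat_lit 16848, R8_131, R8_351, R8_351⟩, ⟨nat_lit 1, nat_lit 10992, nat_lit 6336, nat_lit 6384, nat_lit 2688, nat_lit 2400, R8_133, R9_56, R5_50⟩, ⟨nat_lit 2, nat_lit 10704, nat_lit 6384, nat_lit 6336, nat_lit 2400, nat_lit 2688, R8_132, R5_50, R9_56⟩]⟩, ⟨nat_lit 1, [⟨nat_lit 0, nat_lit 13440, nat_lit 6672, nat_lit 1152, nat_lit 16992, nat_lit 9696, R9_24, R8_354, R5_202⟩, ⟨nat_lit 1, nat_lit 13632, nat_lit 6720, nat_lit 1296, nat_lit 2736, nat_lit 12144, R9_27, R9_57, R11_253⟩, ⟨nat_lit 2, nat_lit 13536, nat_lit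 6816, nat_lit 1200, nat_lit 2496, nat_lit 1152, R9_25, R5_52, R0_24⟩]⟩, ⟨nat_lit 2, [⟨nat_lit 2, nat_lit 12672, nat_lit 6864, nat_lit 384, nat_lit 2448, nat_lit 14544, R5_8, R5_51, R0_303⟩]⟩]⟩,
 ⟨nat_lit 6, [⟨nat_lit 0, [⟨nat_lit 0, nat_lit 7536, nat_lit 9360, nat_lit 9072, nat_lit 14304, nat_lit 13584, R4_189, R4_298, R8_283⟩, ⟨nat_lit 1, nat_lit 7680, nat_lit 9408, nat_lit 10656, nat_lit 17184, nat_lit 2064, R4_222, R5_358, R5_43⟩]⟩, ⟨nat_lit 1, [⟨nat_lit 0, nat_lit 8400, nat_lit 9840, nat_lit 6288, nat_lit 15216, nat_lit 8928, R5_131, R4_317, R5_186⟩, ⟨nat_lit 1, nat_lit 8448, nat_lit 9888, nat_lit 6432, nat_lit 17232, nat_lit 11376, R5_134, R5_359, R11_237⟩]⟩]⟩], [⟨nat_lit 4, [⟨nat_lit 0, [⟨nat_lit 0, nat_lit 96, nat_lit 3168, nat_lit 912, nat_lit 48, nat_lit 12096, R6_19, R6_1, R4_252⟩, ⟨nat_lit 2, nat_lit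 240, nat_lit 4368, nat_lit 1392, nat_lit 48, nat_lit 14496, R6_29, R4_1, R5_302⟩]⟩, ⟨nat_lit 2, [⟨nat_lit 2, nat_lit 1440, nat_lit 4416, nat_lit 1392, nat_lit 528, nat_lit 4752, R4_29, R4_11, R11_99⟩]⟩]⟩,
 ⟨nat_lit 5, [⟨nat_lit 0, [⟨nat_lit 0, nat_lit 10464, nat_lit 9072, nat_lit 9360, nat_lit 13584, nat_lit 14304, R8_195, R8_283, R4_298⟩, ⟨nat_lit 2, nat_lit 10752, nat_lit 10656, nat_lit 9408, nat_lit 2064, nat_lit 17184, R8_196, R5_43, R5_358⟩]⟩, ⟨nat_lit 2, [⟨nat_lit 2, nat_lit 12720, nat_lit 10704, nat_lit 624, nat_lit 2112, nat_lit 4800, R5_13, R5_44, R11_100⟩]⟩]⟩,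
 ⟨nat_lit 6, [⟨nat_lit 0, [⟨nat_lit 0, nat_lit 7584, nat_lit 11616, nat_lit 11616, nat_lit 13344, nat_lit 13344, R4_242, R4_278, R4_278⟩]⟩]⟩]], [[⟨nat_lit 5, [⟨nat_lit 0, [⟨nat_lit 0, nat_lit 10512, nat_lit 2400, nat_lit 2160, nat_lit 8352, nat_lit 2592, R8_45, R5_174, R6_54⟩, ⟨nat_lit 1, nat_lit 11040, nat_lit 2448, nat_lit 2304, nat_lit 672, nat_lit 2496, R8_48, R0_14, R4_52⟩, ⟨nat_lit 2, nat_lit 10800, nat_lit 2544, nat_lit 2208, nat_lit 1872, nat_lit 3648, R8_46, R11_39, R8_76⟩]⟩, ⟨nat_lit 2, [⟨nat_lit 2, nat_lit 12768, nat_lit 10128, nat_lit 6480, nat_lit 1920, nat_lit 6480, R5_135, R11_40, R5_135⟩]⟩]⟩], [⟨nat_lit 5, [⟨nat_lit 0, [⟨nat_lit 0, nat_lit 10560, nat_lit 6096, nat_lit 6672, nat_lit 9696, nat_lit 16992, R8_139, R5_202, R8_354⟩, ⟨nat_lit 1, nat_lit 11088, nat_lit 6144, nat_lit 6816, nat_lit 1152,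 nat_lit 2496, R8_142, R0_24, R5_52⟩, ⟨nat_lit 2, nat_lit 10848, nat_lit 6192, nat_lit 6720, nat_lit 2400, nat_lit 2736, R8_140, R11_50, R9_57⟩]⟩, ⟨nat_lit 1, [⟨nat_lit 0, nat_lit 13488, nat_lit 6768, nat_lit 7008, nat_lit 11952, nat_lit 11952, R9_146, R5_249, R5_249⟩, ⟨nat_lit 1, nat_lit 13680, nat_lit 6816, nat_lit 7152, nat_lit 1200, nat_lit 14928, R9_149, R0_25, R11_311⟩, ⟨nat_lit 2, nat_lit 13584, nat_lit 6912, nat_lit 7056, nat_lit 2496, nat_lit 1200, R9_147, R11_52, R0_25⟩]⟩, ⟨nat_lit 2, [⟨nat_lit 2, nat_lit 12816, nat_lit 7392, nat_lit 6864, nat_lit 2448, nat_lit 14688, R5_143, R11_51, R0_306⟩]⟩]⟩], [⟨nat_lit 5, [⟨nat_lit 0, [⟨nat_lit 0, nat_lit 10608, nat_lit 6288, nat_lit 9840, nat_lit 8928, nat_lit 15216, R8_205, R5_186, R4_317⟩, ⟨nat_lit 2, nat_lit 10896, nat_lit 6432, nat_lit 9888, nat_lit 2064,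 nat_lit 17232, R8_206, R11_43, R5_359⟩]⟩, ⟨nat_lit 2, [⟨nat_lit 2, nat_lit 12864, nat_lit 7296, nat_lit 7584, nat_lit 2112, nat_lit 6096, R5_158, R11_44, R11_127⟩]⟩]⟩]], [[⟨nat_lit 4, [⟨nat_lit 0, [⟨nat_lit 1, nat_lit 384, nat_lit 960, nat_lit 10416, nat_lit 4752, nat_lit 480, R6_217, R5_99, R4_10⟩]⟩]⟩,
 ⟨nat_lit 5, [⟨nat_lit 0, [⟨nat_lit 1, nat_lit 11136, nat_lit 1248, nat_lit 2784, nat_lit 11712, nat_lit 768, R8_58, R0_244, R4_16⟩]⟩]⟩,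
 ⟨nat_lit 6, [⟨nat_lit 0, [⟨nat_lit 1, nat_lit 7728, nat_lit 1392, nat_lit 4416, nat_lit 4752, nat_lit 528, R4_92, R11_99, R4_11⟩]⟩]⟩], [⟨nat_lit 4, [⟨nat_lit 0, [⟨nat_lit 1, nat_lit 432, nat_lit 288, nat_lit 10464, nat_lit 4800, nat_lit 1920, R6_218, R5_100, R5_40⟩]⟩, ⟨nat_lit 1, [⟨nat_lit 1, nat_lit 1920, nat_lit 6480, nat_lit 10128, nat_lit 6480, nat_lit 12768, R8_211, R5_135, R11_266⟩]⟩]⟩,
 ⟨nat_lit 5, [⟨nat_lit 0, [⟨nat_lit 1, nat_lit 11184, nat_lit 384, nat_lit 6864, nat_lit 14544, nat_lit 2448, R8_143, R0_303, R5_51⟩]⟩, ⟨nat_lit 1, [⟨nat_lit 1, nat_lit 13728, nat_lit 6864, nat_lit 10608, nat_lit 14688, nat_lit 13200, R9_221, R0_306, R11_275⟩]⟩]⟩,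
 ⟨nat_lit 6, [⟨nat_lit 0, [⟨nat_lit 1, nat_lit 7776, nat_lit 624, nat_lit 10704, nat_lit 4800, nat_lit 2112, R4_223, R11_100, R5_44⟩]⟩, ⟨nat_lit 1, [⟨nat_lit 1, nat_lit 8496, nat_lit 7584, nat_lit 7296, nat_lit 6096, nat_lit 12912, R5_152, R11_127, R11_269⟩]⟩]⟩]]], [[], [[], [], [⟨nat_lit 1, [⟨nat_lit 2, [⟨nat_lit 2, nat_lit 21552, nat_lit 5712, nat_lit 16464, nat_lit 18672, nat_lit 9216, R1_343, R10_389, R11_192⟩, ⟨nat_lit 6, nat_lit 21504, nat_lit 5760, nat_lit 16320, nat_lit 15408, nat_lit 7152, R1_340, R1_321, R1_149⟩]⟩]⟩]], [], [], [], [[⟨nat_lit 1, [⟨nat_lit 2, [⟨nat_lit 2, nat_lit 21600, nat_lit 7344, nat_lit 16368, nat_lit 8784, nat_lit 7536, R1_341, R1_183, R5_157⟩]⟩]⟩,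
 ⟨nat_lit 5, [⟨nat_lit 0, [⟨nat_lit 0, nat_lit 11232, nat_lit 4704, nat_lit 16896, nat_lit 8448, nat_lit 10272, R5_352, R5_176, R6_214⟩, ⟨nat_lit 1, nat_lit 11520, nat_lit 5376, nat_lit 17616, nat_lit 5904, nat_lit 11328, R5_367, R0_123, R4_236⟩, ⟨nat_lit 2, nat_lit 11376, nat_lit 6432, nat_lit 17232, nat_lit 8448, nat_lit 10896, R5_359, R11_176, R8_227⟩]⟩, ⟨nat_lit 2, [⟨nat_lit 2, nat_lit 12912, nat_lit 7296, nat_lit 6096, nat_lit 8496, nat_lit 7584, R11_127, R11_177, R5_158⟩]⟩]⟩], [⟨nat_lit 1, [⟨nat_lit 2, [⟨nat_lit 2, nat_lit 21648, nat_lit 13968, nat_lit 16416, nat_lit 8880, nat_lit 10128, R1_342, R1_185, R0_211⟩]⟩]⟩,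
 ⟨nat_lit 5, [⟨nat_lit 0, [⟨nat_lit 0, nat_lit 11280, nat_lit 3936, nat_lit 17040, nat_lit 9744, nat_lit 17520, R5_355, R5_203, R8_365⟩, ⟨nat_lit 1, nat_lit 11568, nat_lit 3984, nat_lit 17760, nat_lit 6288, nat_lit 13584, R5_370, R0_131, R5_283⟩, ⟨nat_lit 2, nat_lit 11424, nat_lit 4032, nat_lit 17424, nat_lit 8832, nat_lit 11616, R5_363, R11_184, R9_242⟩]⟩, ⟨nat_lit 1, [⟨nat_lit 0, nat_lit 13776, nat_lit 4608, nat_lit 4848, nat_lit 12000, nat_lit 12048, R0_101, R5_250, R5_251⟩, ⟨nat_lit 1, nat_lit 13872, nat_lit 4656, nat_lit 4992, nat_lit 6336, nat_lit 15024, R0_104, R0_132, R11_313⟩, ⟨nat_lit 2, nat_lit 13824, nat_lit 4752, nat_lit 4896, nat_lit 8928, nat_lit 10416, R0_102, R11_186, R0_217⟩]⟩, ⟨nat_lit 2, [⟨nat_lit 2, nat_lit 12960, nat_lit 5232, nat_lit 6480, nat_lit 8880, nat_lit 15264, R11_135, R11_185,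 R0_318⟩]⟩]⟩], [⟨nat_lit 1, [⟨nat_lit 2, [⟨nat_lit 2, nat_lit 21696, nat_lit 21216, nat_lit 16512, nat_lit 8832, nat_lit 7152, R1_344, R1_184, R11_149⟩]⟩]⟩,
 ⟨nat_lit 5, [⟨nat_lit 0, [⟨nat_lit 0, nat_lit 11328, nat_lit 5904, nat_lit 17088, nat_lit 9024, nat_lit 15504, R5_356, R5_188, R4_323⟩, ⟨nat_lit 2, nat_lit 11472, nat_lit 6048, nat_lit 17520, nat_lit 8592, nat_lit 17520, R5_365, R11_179, R5_365⟩]⟩, ⟨nat_lit 2, [⟨nat_lit 2, nat_lit 13008, nat_lit 6912, nat_lit 7200, nat_lit 8640, nat_lit 7200, R11_150, R11_180, R11_150⟩]⟩]⟩]]], [[], [], [], [], [[], [⟨nat_lit 4, [⟨nat_lit 1, [⟨nat_lit 0, nat_lit 1968, nat_lit 16896, nat_lit 4704, nat_lit 10272, nat_lit 8448, R5_98, R6_214, R5_176⟩, ⟨nat_lit 1, nat_lit 2064, nat_lit 17232, nat_lit 6432, nat_lit 10896, nat_lit 10896, R5_134, R8_227, R11_227⟩, ⟨nat_lit 2, nat_lit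 2016, nat_lit 17616, nat_lit 5376, nat_lit 11328, nat_lit 5904, R5_112, R4_236, R0_123⟩]⟩]⟩,
 ⟨nat_lit 5, [⟨nat_lit 1, [⟨nat_lit 0, nat_lit 13920, nat_lit 17040, nat_lit 3936, nat_lit 17520, nat_lit 9744, R0_82, R8_365, R5_203⟩, ⟨nat_lit 1, nat_lit 14112, nat_lit 17424, nat_lit 4032, nat_lit 11616, nat_lit 12192, R0_84, R9_242, R11_254⟩, ⟨nat_lit 2, nat_lit 14016, nat_lit 17760, nat_lit 3984, nat_lit 13584, nat_lit 6288, R0_83, R5_283, R0_131⟩]⟩]⟩,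
 ⟨nat_lit 6, [⟨nat_lit 1, [⟨nat_lit 0, nat_lit 8544, nat_lit 17088, nat_lit 4704, nat_lit 15504, nat_lit 9024, R11_98, R4_323, R5_188⟩, ⟨nat_lit 1, nat_lit 8592, nat_lit 17520, nat_lit 6048, nat_lit 17520, nat_lit 11472, R11_126, R5_365, R11_239⟩]⟩]⟩]], [[], [⟨nat_lit 5, [⟨nat_lit 1, [⟨nat_lit 0, nat_lit 13968, nat_lit 4848, nat_lit 4608, nat_lit 12048, nat_lit 12000, R0_96, R5_251, R5_250⟩, ⟨nat_lit 1, nat_lit 14160, nat_lit 4896, nat_lit 4752, nat_lit 10416, nat_lit 14976, R0_99, R0_217, R11_312⟩, ⟨nat_lit 2, nat_lit 14064, nat_lit 4992, nat_lit 4656, nat_lit 16800, nat_lit 6336, R0_97, R11_350, R0_132⟩]⟩]⟩]], [[], [⟨nat_lit 4, [⟨nat_lit 1, [⟨nat_lit 1, nat_lit 2112, nat_lit 21936, nat_lit 7296, nat_lit 7584, nat_lit 12864, R5_152, R5_158, R11_268⟩]⟩]⟩,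
 ⟨nat_lit 5, [⟨nat_lit 1, [⟨nat_lit 1, nat_lit 14208, nat_lit 22128, nat_lit 5232, nat_lit 15264, nat_lit 13248, R0_109, R0_318, R11_276⟩]⟩]⟩,
 ⟨nat_lit 6, [⟨nat_lit 1, [⟨nat_lit 1, nat_lit 8640, nat_lit 22224, nat_lit 6912, nat_lit 7200, nat_lit 13008, R11_144, R11_150, R11_271⟩]⟩]⟩], [], [], [], [⟨nat_lit 4, [⟨nat_lit 1, [⟨nat_lit 1, nat_lit 2160, nat_lit 16368, nat_lit 7344, nat_lit 7536, nat_lit 8784, R5_153, R5_157, R1_183⟩]⟩]⟩,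
 ⟨nat_lit 5, [⟨nat_lit 1, [⟨nat_lit 1, nat_lit 14256, nat_lit 16416, nat_lit 13968, nat_lit 10128, nat_lit 8880, R0_291, R0_211, R1_185⟩]⟩]⟩,
 ⟨nat_lit 6, [⟨nat_lit 1, [⟨nat_lit 1, nat_lit 8688, nat_lit 16512, nat_lit 6960, nat_lit 7152, nat_lit 8832, R11_145, R11_149, R1_184⟩]⟩, ⟨nat_lit 5, [⟨nat_lit 1, nat_lit 5568, nat_lit 16464, nat_lit 5712, nat_lit 9216, nat_lit 18672, R1_119, R11_192, R10_389⟩, ⟨nat_lit 5, nat_lit 5520, nat_lit 16320, nat_lit 5760, nat_lit 7152, nat_lit 15408, R1_120, R1_149, R1_321⟩]⟩]⟩]]], [[], [], [], [], [[⟨nat_lit 4, [⟨nat_lit 0, [⟨nat_lit 0, nat_lit 480, nat_lit 19872, nat_lit 4752, nat_lit 4848, nat_lit 4848, R13_99, R6_101, R6_101⟩, ⟨nat_lit 1, nat_lit 1056, nat_lit 20592, nat_lit 8544, nat_lit 8112, nat_lit 5232, R13_178, R8_169, R4_109⟩, ⟨nat_lit 2, nat_lit 768, nat_lit 21408,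 nat_lit 6384, nat_lit 5232, nat_lit 8112, R13_133, R4_109, R8_169⟩]⟩, ⟨nat_lit 2, [⟨nat_lit 2, nat_lit 1488, nat_lit 21504, nat_lit 4656, nat_lit 6864, nat_lit 5040, R3_97, R4_143, R5_105⟩]⟩, ⟨nat_lit 3, [⟨nat_lit 0, nat_lit 3264, nat_lit 19920, nat_lit 96, nat_lit 6048, nat_lit 5712, R3_2, R6_126, R13_119⟩, ⟨nat_lit 1, nat_lit 3840, nat_lit 20640, nat_lit 2352, nat_lit 8208, nat_lit 3984, R3_49, R8_171, R3_83⟩, ⟨nat_lit 2, nat_lit 3600, nat_lit 21456, nat_lit 816, nat_lit 6384, nat_lit 4464, R3_17, R4_133, R9_93⟩]⟩]⟩,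
 ⟨nat_lit 5, [⟨nat_lit 0, [⟨nat_lit 0, nat_lit 11616, nat_lit 20160, nat_lit 16128, nat_lit 12816, nat_lit 5136, R9_336, R8_267, R6_107⟩, ⟨nat_lit 1, nat_lit 12384, nat_lit 20976, nat_lit 17808, nat_lit 8976, nat_lit 5424, R9_371, R9_187, R4_113⟩, ⟨nat_lit 2, nat_lit 12000, nat_lit 21744, nat_lit 16992, nat_lit 10368, nat_lit 8832, R9_354, R5_216, R8_184⟩]⟩, ⟨nat_lit 2, [⟨nat_lit 2, nat_lit 13056, nat_lit 21840, nat_lit 14592, nat_lit 10464, nat_lit 5088, R0_304, R5_218, R5_106⟩]⟩, ⟨nat_lit 3, [⟨nat_lit 0, nat_lit 14304, nat_lit 20208, nat_lit 192, nat_lit 12960, nat_lit 5808, R0_4, R8_270, R13_121⟩, ⟨nat_lit 1, nat_lit 15168, nat_lit 21024, nat_lit 1968, nat_lit 9072, nat_lit 4080, R0_41, R9_189, R3_85⟩, ⟨nat_lit 2, nat_lit 14784, nat_lit 21792, nat_lit 1008, nat_lit 10416, nat_lit 4512, R0_21, R5_217, R9_94⟩]⟩]⟩,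
 ⟨nat_lit 6, [⟨nat_lit 0, [⟨nat_lit 0, nat_lit 7824, nat_lit 20256, nat_lit 16128, nat_lit 12192, nat_lit 4896, R3_336, R4_254, R6_102⟩, ⟨nat_lit 1, nat_lit 8112, nat_lit 21216, nat_lit 17472, nat_lit 14688, nat_lit 5280, R3_364, R5_306, R4_110⟩]⟩, ⟨nat_lit 3, [⟨nat_lit 0, nat_lit 9504, nat_lit 20304, nat_lit 3168, nat_lit 12336, nat_lit 5760, R10_66, R4_257, R13_120⟩, ⟨nat_lit 1, nat_lit 9840, nat_lit 21264, nat_lit 5856, nat_lit 14736, nat_lit 4032, R10_122, R5_307, R3_84⟩]⟩]⟩], [⟨nat_lit 4, [⟨nat_lit 0, [⟨nat_lit 0, nat_lit 528, nat_lit 16128, nat_lit 4800, nat_lit 5136, nat_lit 12816, R13_100, R6_107, R8_267⟩, ⟨nat_lit 1, nat_lit 1104, nat_lit 16992, nat_lit 8592, nat_lit 8832, nat_lit 10368, R13_179, R8_184, R5_216⟩, ⟨nat_lit 2, nat_lit 816, nat_lit 17808, nat_lit 6432, nat_lit 5424, nat_lit 8976, R13_134,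 R4_113, R9_187⟩]⟩, ⟨nat_lit 1, [⟨nat_lit 0, nat_lit 2208, nat_lit 16224, nat_lit 3888, nat_lit 7152, nat_lit 8400, R9_81, R6_149, R5_175⟩, ⟨nat_lit 1, nat_lit 2400, nat_lit 17088, nat_lit 6192, nat_lit 8928, nat_lit 10848, R9_129, R8_186, R11_226⟩, ⟨nat_lit 2, nat_lit 2304, nat_lit 17856, nat_lit 4800, nat_lit 7824, nat_lit 8496, R9_100, R4_163, R0_177⟩]⟩, ⟨nat_lit 2, [⟨nat_lit 2, nat_lit 1536, nat_lit 17904, nat_lit 4704, nat_lit 7152, nat_lit 11952, R3_98, R4_149, R0_249⟩]⟩, ⟨nat_lit 3, [⟨nat_lit 0, nat_lit 3312, nat_lit 16176, nat_lit 528, nat_lit 6480, nat_lit 8112, R3_11, R6_135, R9_169⟩, ⟨nat_lit 1, nat_lit 3888, nat_lit 17040, nat_lit 2640, nat_lit 8880, nat_lit 7344, R3_55, R8_185, R0_153⟩]⟩]⟩,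
 ⟨nat_lit 5, [⟨nat_lit 0, [⟨nat_lit 0, nat_lit 11664, nat_lit 16560, nat_lit 16560, nat_lit 17136, nat_lit 17136, R9_345, R8_357, R8_357⟩, ⟨nat_lit 1, nat_lit 12432, nat_lit 17424, nat_lit 18144, nat_lit 9792, nat_lit 11232, R9_378, R9_204, R5_234⟩, ⟨nat_lit 2, nat_lit 12048, nat_lit 18144, nat_lit 17424, nat_lit 11232, nat_lit 9792, R9_363, R5_234, R9_204⟩]⟩, ⟨nat_lit 2, [⟨nat_lit 2, nat_lit 13104, nat_lit 18192, nat_lit 15024, nat_lit 11280, nat_lit 14832, R0_313, R5_235, R0_309⟩]⟩, ⟨nat_lit 3, [⟨nat_lit 0, nat_lit 14352, nat_lit 16608, nat_lit 7728, nat_lit 17280, nat_lit 8592, R0_161, R8_360, R9_179⟩, ⟨nat_lit 1, nat_lit 15216, nat_lit 17472, nat_lit 9120, nat_lit 9840, nat_lit 7824, R0_190, R9_205, R0_163⟩]⟩]⟩,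
 ⟨nat_lit 6, [⟨nat_lit 0, [⟨nat_lit 0, nat_lit 7872, nat_lit 16656, nat_lit 16560, nat_lit 14448, nat_lit 13872, R3_345, R4_301, R8_289⟩, ⟨nat_lit 1, nat_lit 8160, nat_lit 17568, nat_lit 17856, nat_lit 17328, nat_lit 10848, R3_372, R5_361, R5_226⟩]⟩, ⟨nat_lit 1, [⟨nat_lit 0, nat_lit 8736, nat_lit 16752, nat_lit 2352, nat_lit 15360, nat_lit 8976, R0_49, R4_320, R5_187⟩, ⟨nat_lit 1, nat_lit 8832, nat_lit 17664, nat_lit 4032, nat_lit 17424, nat_lit 11424, R0_84, R5_363, R11_238⟩]⟩, ⟨nat_lit 3, [⟨nat_lit 0, nat_lit 9552, nat_lit 16704, nat_lit 3264, nat_lit 14784, nat_lit 8304, R10_68, R4_308, R9_173⟩, ⟨nat_lit 1, nat_lit 9888, nat_lit 17616, nat_lit 5952, nat_lit 17376, nat_lit 7536, R10_124, R5_362, R0_157⟩]⟩]⟩], [⟨nat_lit 4, [⟨nat_lit 0, [⟨nat_lit 0, nat_lit 576, nat_lit 16128, nat_lit 4848, nat_lit 4896, nat_lit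 12192, R13_101, R6_102, R4_254⟩, ⟨nat_lit 2, nat_lit 864, nat_lit 17472, nat_lit 6480, nat_lit 5280, nat_lit 14688, R13_135, R4_110, R5_306⟩]⟩, ⟨nat_lit 2, [⟨nat_lit 2, nat_lit 1584, nat_lit 17568, nat_lit 4752, nat_lit 6912, nat_lit 5040, R3_99, R4_144, R11_105⟩]⟩, ⟨nat_lit 3, [⟨nat_lit 0, nat_lit 3360, nat_lit 16176, nat_lit 672, nat_lit 6240, nat_lit 8592, R3_14, R6_130, R3_179⟩, ⟨nat_lit 2, nat_lit 3648, nat_lit 17520, nat_lit 1152, nat_lit 6576, nat_lit 2928, R3_24, R4_137, R0_61⟩]⟩]⟩,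
 ⟨nat_lit 5, [⟨nat_lit 0, [⟨nat_lit 0, nat_lit 11712, nat_lit 16560, nat_lit 16656, nat_lit 13872, nat_lit 14448, R9_347, R8_289, R4_301⟩, ⟨nat_lit 2, nat_lit 12096, nat_lit 17856, nat_lit 17568, nat_lit 10848, nat_lit 17328, R9_366, R5_226, R5_361⟩]⟩, ⟨nat_lit 2, [⟨nat_lit 2, nat_lit 13152, nat_lit 17952, nat_lit 15168, nat_lit 10944, nat_lit 5088, R0_316, R5_228, R11_106⟩]⟩, ⟨nat_lit 3, [⟨nat_lit 0, nat_lit 14400, nat_lit 16608, nat_lit 9888, nat_lit 14016, nat_lit 8736, R0_206, R8_292, R3_182⟩, ⟨nat_lit 2, nat_lit 14832, nat_lit 17904, nat_lit 10320, nat_lit 10896, nat_lit 2976, R0_215, R5_227, R0_62⟩]⟩]⟩,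
 ⟨nat_lit 6, [⟨nat_lit 0, [⟨nat_lit 0, nat_lit 7920, nat_lit 16752, nat_lit 16752, nat_lit 13392, nat_lit 13392, R3_349, R4_279, R4_279⟩]⟩, ⟨nat_lit 3, [⟨nat_lit 0, nat_lit 9600, nat_lit 16800, nat_lit 3312, nat_lit 13728, nat_lit 8640, R10_69, R4_286, R3_180⟩]⟩]⟩], [⟨nat_lit 4, [⟨nat_lit 3, [⟨nat_lit 0, nat_lit 3408, nat_lit 2976, nat_lit 240, nat_lit 6192, nat_lit 11520, R3_5, R6_129, R3_240⟩, ⟨nat_lit 1, nat_lit 3936, nat_lit 3312, nat_lit 2496, nat_lit 8400, nat_lit 9072, R3_52, R8_175, R10_189⟩, ⟨nat_lit 2, nat_lit 3696, nat_lit 3600, nat_lit 960, nat_lit 6528, nat_lit 2448, R3_20, R4_136, R0_51⟩]⟩]⟩,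
 ⟨nat_lit 5, [⟨nat_lit 3, [⟨nat_lit 0, nat_lit 14448, nat_lit 8784, nat_lit 5712, nat_lit 14688, nat_lit 16512, R0_119, R8_306, R3_344⟩, ⟨nat_lit 1, nat_lit 15264, nat_lit 9408, nat_lit 7008, nat_lit 9264, nat_lit 9696, R0_146, R9_193, R10_202⟩, ⟨nat_lit 2, nat_lit 14880, nat_lit 9600, nat_lit 6240, nat_lit 10608, nat_lit 2736, R0_130, R5_221, R0_57⟩]⟩]⟩,
 ⟨nat_lit 6, [⟨nat_lit 3, [⟨nat_lit 0, nat_lit 9648, nat_lit 10464, nat_lit 3216, nat_lit 13296, nat_lit 15312, R10_67, R4_277, R3_319⟩, ⟨nat_lit 1, nat_lit 9936, nat_lit 10512, nat_lit 5904, nat_lit 16512, nat_lit 9360, R10_123, R5_344, R10_195⟩]⟩]⟩]], [[⟨nat_lit 5, [⟨nat_lit 0, [⟨nat_lit 0, nat_lit 11760, nat_lit 3888, nat_lit 16224, nat_lit 8400, nat_lit 7152, R9_338, R5_175, R6_149⟩, ⟨nat_lit 1, nat_lit 12480, nat_lit 4800, nat_lit 17856, nat_lit 8496,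 nat_lit 7824, R9_372, R0_177, R4_163⟩, ⟨nat_lit 2, nat_lit 12144, nat_lit 6192, nat_lit 17088, nat_lit 13632, nat_lit 8928, R9_356, R11_284, R8_186⟩]⟩, ⟨nat_lit 2, [⟨nat_lit 2, nat_lit 13200, nat_lit 7392, nat_lit 14688, nat_lit 13728, nat_lit 6864, R0_306, R11_286, R5_143⟩]⟩, ⟨nat_lit 3, [⟨nat_lit 0, nat_lit 14496, nat_lit 4320, nat_lit 384, nat_lit 10320, nat_lit 9264, R0_8, R5_215, R13_193⟩, ⟨nat_lit 1, nat_lit 15312, nat_lit 5184, nat_lit 2064, nat_lit 8592, nat_lit 7344, R0_43, R0_179, R3_153⟩, ⟨nat_lit 2, nat_lit 14928, nat_lit 6912, nat_lit 1200, nat_lit 13680, nat_lit 7056, R0_25, R11_285, R9_147⟩]⟩]⟩], [], [⟨nat_lit 5, [⟨nat_lit 0, [⟨nat_lit 0, nat_lit 11808, nat_lit 2352, nat_lit 16752, nat_lit 8976, nat_lit 15360, R9_349, R5_187, R4_320⟩, ⟨nat_lit 2, nat_lit 12192, nat_lit 4032, nat_lit 17664, nat_lit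 14112, nat_lit 17424, R9_368, R11_294, R5_363⟩]⟩, ⟨nat_lit 2, [⟨nat_lit 2, nat_lit 13248, nat_lit 5232, nat_lit 15264, nat_lit 14208, nat_lit 6480, R0_318, R11_296, R11_135⟩]⟩, ⟨nat_lit 3, [⟨nat_lit 0, nat_lit 14544, nat_lit 2784, nat_lit 9984, nat_lit 10560, nat_lit 9552, R0_208, R5_220, R3_199⟩, ⟨nat_lit 2, nat_lit 14976, nat_lit 4752, nat_lit 10416, nat_lit 14160, nat_lit 4896, R0_217, R11_295, R0_102⟩]⟩]⟩], [⟨nat_lit 5, [⟨nat_lit 3, [⟨nat_lit 0, nat_lit 14592, nat_lit 3024, nat_lit 5808, nat_lit 10800, nat_lit 17808, R0_121, R5_225, R3_371⟩, ⟨nat_lit 1, nat_lit 15360, nat_lit 3408, nat_lit 7104, nat_lit 8784, nat_lit 12000, R0_148, R0_183, R10_250⟩, ⟨nat_lit 2, nat_lit 15024, nat_lit 4992, nat_lit 6336, nat_lit 13872, nat_lit 4656, R0_132, R11_289, R0_97⟩]⟩]⟩]], [[⟨nat_lit 4, [⟨nat_lit 0, [⟨nat_lit 1, nat_lit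 1152, nat_lit 4656, nat_lit 9504, nat_lit 5040, nat_lit 6864, R13_198, R5_105, R4_143⟩]⟩, ⟨nat_lit 3, [⟨nat_lit 1, nat_lit 3984, nat_lit 5328, nat_lit 9984, nat_lit 5760, nat_lit 5712, R3_208, R5_120, R3_119⟩]⟩]⟩,
 ⟨nat_lit 5, [⟨nat_lit 0, [⟨nat_lit 1, nat_lit 12528, nat_lit 4704, nat_lit 17904, nat_lit 11952, nat_lit 7152, R9_373, R0_249, R4_149⟩]⟩, ⟨nat_lit 3, [⟨nat_lit 1, nat_lit 15408, nat_lit 5376, nat_lit 2112, nat_lit 12096, nat_lit 5808, R0_44, R0_252, R3_121⟩]⟩]⟩,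
 ⟨nat_lit 6, [⟨nat_lit 0, [⟨nat_lit 1, nat_lit 8208, nat_lit 4752, nat_lit 17568, nat_lit 5040, nat_lit 6912, R3_366, R11_105, R4_144⟩]⟩, ⟨nat_lit 3, [⟨nat_lit 1, nat_lit 9984, nat_lit 5424, nat_lit 6576, nat_lit 5376, nat_lit 5760, R10_137, R11_112, R3_120⟩]⟩]⟩], [⟨nat_lit 4, [⟨nat_lit 0, [⟨nat_lit 1, nat_lit 1200, nat_lit 14592, nat_lit 9552, nat_lit 5088, nat_lit 10464, R13_199, R5_106, R5_218⟩]⟩, ⟨nat_lit 1, [⟨nat_lit 1, nat_lit 2448, nat_lit 14688, nat_lit 7392, nat_lit 6864, nat_lit 12816, R9_154, R5_143, R11_267⟩]⟩, ⟨nat_lit 3, [⟨nat_lit 1, nat_lit 4032, nat_lit 14640, nat_lit 10176, nat_lit 5856, nat_lit 8064, R3_212, R5_122, R0_168⟩]⟩]⟩,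
 ⟨nat_lit 5, [⟨nat_lit 0, [⟨nat_lit 1, nat_lit 12576, nat_lit 15024, nat_lit 18192, nat_lit 14832, nat_lit 11280, R9_379, R0_309, R5_235⟩]⟩, ⟨nat_lit 3, [⟨nat_lit 1, nat_lit 15456, nat_lit 15072, nat_lit 9264, nat_lit 14976, nat_lit 8208, R0_193, R0_312, R0_171⟩]⟩]⟩,
 ⟨nat_lit 6, [⟨nat_lit 0, [⟨nat_lit 1, nat_lit 8256, nat_lit 15168, nat_lit 17952, nat_lit 5088, nat_lit 10944, R3_374, R11_106, R5_228⟩]⟩, ⟨nat_lit 1, [⟨nat_lit 1, nat_lit 8880, nat_lit 15264, nat_lit 5232, nat_lit 6480, nat_lit 12960, R0_109, R11_135, R11_270⟩]⟩, ⟨nat_lit 3, [⟨nat_lit 1, nat_lit 10032, nat_lit 15216, nat_lit 6672, nat_lit 5472, nat_lit 8112, R10_139, R11_114, R0_169⟩]⟩]⟩], [], [⟨nat_lit 4, [⟨nat_lit 3, [⟨nat_lit 1, nat_lit 4080, nat_lit 19728, nat_lit 10128, nat_lit 5808, nat_lit 9984, R3_211, R5_121, R10_208⟩]⟩]⟩,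
 ⟨nat_lit 5, [⟨nat_lit 3, [⟨nat_lit 1, nat_lit 15504, nat_lit 19920, nat_lit 7152, nat_lit 14208, nat_lit 10272, R0_149, R0_296, R10_214⟩]⟩]⟩,
 ⟨nat_lit 6, [⟨nat_lit 3, [⟨nat_lit 1, nat_lit 10080, nat_lit 20016, nat_lit 6624, nat_lit 5424, nat_lit 10128, R10_138, R11_113, R10_211⟩]⟩]⟩]], [[⟨nat_lit 4, [⟨nat_lit 0, [⟨nat_lit 0, nat_lit 624, nat_lit 96, nat_lit 5376, nat_lit 5712, nat_lit 6048, R13_112, R13_119, R6_126⟩, ⟨nat_lit 1, nat_lit 1248, nat_lit 816, nat_lit 8976, nat_lit 4464, nat_lit 6384, R13_187, R9_93, R4_133⟩, ⟨nat_lit 2, nat_lit 912, nat_lit 2352, nat_lit 6960, nat_lit 3984, nat_lit 8208, R13_145, R3_83, R8_171⟩]⟩, ⟨nat_lit 2, [⟨nat_lit 2, nat_lit 1632, nat_lit 9984, nat_lit 5328, nat_lit 5712, nat_lit 5760, R3_111, R3_119, R5_120⟩]⟩, ⟨nat_lit 3, [⟨nat_lit 0, nat_lit 3456, nat_lit 3840, nat_lit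 3840, nat_lit 7440, nat_lit 7440, R3_80, R13_155, R13_155⟩, ⟨nat_lit 1, nat_lit 4128, nat_lit 6144, nat_lit 7248, nat_lit 5472, nat_lit 6240, R3_151, R9_114, R3_130⟩, ⟨nat_lit 2, nat_lit 3744, nat_lit 7248, nat_lit 6144, nat_lit 6240, nat_lit 5472, R3_128, R3_130, R9_114⟩, ⟨nat_lit 3, nat_lit 4224, nat_lit 5568, nat_lit 5568, nat_lit 4992, nat_lit 4992, R3_116, R3_104, R3_104⟩]⟩]⟩,
 ⟨nat_lit 5, [⟨nat_lit 0, [⟨nat_lit 0, nat_lit 11856, nat_lit 528, nat_lit 16176, nat_lit 8112, nat_lit 6480, R9_337, R9_169, R6_135⟩, ⟨nat_lit 2, nat_lit 12240, nat_lit 2640, nat_lit 17040, nat_lit 7344, nat_lit 8880, R9_355, R0_153, R8_185⟩]⟩, ⟨nat_lit 2, [⟨nat_lit 2, nat_lit 13296, nat_lit 10176, nat_lit 14640, nat_lit 8064, nat_lit 5856, R0_305, R0_168, R5_122⟩]⟩, ⟨nat_lit 3, [⟨nat_lit 0, nat_lit 14640, nat_lit 4128, nat_lit 288,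 nat_lit 8928, nat_lit 7536, R0_6, R9_186, R13_157⟩, ⟨nat_lit 2, nat_lit 15072, nat_lit 7392, nat_lit 1104, nat_lit 8448, nat_lit 5520, R0_23, R0_176, R9_115⟩, ⟨nat_lit 3, nat_lit 15552, nat_lit 5856, nat_lit 528, nat_lit 12048, nat_lit 5280, R0_11, R0_251, R3_110⟩]⟩]⟩,
 ⟨nat_lit 6, [⟨nat_lit 0, [⟨nat_lit 0, nat_lit 7968, nat_lit 672, nat_lit 16176, nat_lit 8592, nat_lit 6240, R3_337, R3_179, R6_130⟩, ⟨nat_lit 1, nat_lit 8304, nat_lit 1152, nat_lit 17520, nat_lit 2928, nat_lit 6576, R3_365, R0_61, R4_137⟩]⟩, ⟨nat_lit 3, [⟨nat_lit 0, nat_lit 9696, nat_lit 4272, nat_lit 3792, nat_lit 8928, nat_lit 7488, R10_79, R3_186, R13_156⟩, ⟨nat_lit 1, nat_lit 10128, nat_lit 6336, nat_lit 6336, nat_lit 3312, nat_lit 6288, R10_132, R0_69, R3_131⟩, ⟨nat_lit 3, nat_lit 10224, nat_lit 6000, nat_lit 4464, nat_lit 4848, nat_lit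 5040, R10_93, R10_101, R3_105⟩]⟩]⟩,
 ⟨nat_lit 7, [⟨nat_lit 0, [⟨nat_lit 0, nat_lit 16032, nat_lit 240, nat_lit 2976, nat_lit 11520, nat_lit 6192, R3_62, R3_240, R6_129⟩, ⟨nat_lit 1, nat_lit 16320, nat_lit 960, nat_lit 3600, nat_lit 2448, nat_lit 6528, R3_75, R0_51, R4_136⟩, ⟨nat_lit 2, nat_lit 16176, nat_lit 2496, nat_lit 3312, nat_lit 9072, nat_lit 8400, R3_69, R10_189, R8_175⟩]⟩, ⟨nat_lit 2, [⟨nat_lit 2, nat_lit 16560, nat_lit 10128, nat_lit 19728, nat_lit 9984, nat_lit 5808, R10_411, R10_208, R5_121⟩]⟩]⟩], [⟨nat_lit 4, [⟨nat_lit 0, [⟨nat_lit 0, nat_lit 672, nat_lit 192, nat_lit 5424, nat_lit 5808, nat_lit 12960, R13_113, R13_121, R8_270⟩, ⟨nat_lit 1, nat_lit 1296, nat_lit 1008, nat_lit 9024, nat_lit 4512, nat_lit 10416, R13_188, R9_94, R5_217⟩, ⟨nat_lit 2, nat_lit 960, nat_lit 1968, nat_lit 7008, nat_lit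 4080, nat_lit 9072, R13_146, R3_85, R9_189⟩]⟩, ⟨nat_lit 1, [⟨nat_lit 0, nat_lit 2256, nat_lit 384, nat_lit 4320, nat_lit 9264, nat_lit 10320, R9_90, R13_193, R5_215⟩, ⟨nat_lit 1, nat_lit 2496, nat_lit 1200, nat_lit 6912, nat_lit 7056, nat_lit 13584, R9_144, R9_147, R11_283⟩, ⟨nat_lit 2, nat_lit 2352, nat_lit 2064, nat_lit 5184, nat_lit 7344, nat_lit 8592, R9_108, R3_153, R0_179⟩]⟩, ⟨nat_lit 2, [⟨nat_lit 2, nat_lit 1680, nat_lit 2112, nat_lit 5376, nat_lit 5808, nat_lit 12096, R3_112, R3_121, R0_252⟩]⟩, ⟨nat_lit 3, [⟨nat_lit 0, nat_lit 3504, nat_lit 288, nat_lit 4128, nat_lit 7536, nat_lit 8928, R3_86, R13_157, R9_186⟩, ⟨nat_lit 1, nat_lit 4176, nat_lit 1104, nat_lit 7392, nat_lit 5520, nat_lit 8448, R3_154, R9_115, R0_176⟩, ⟨nat_lit 3, nat_lit 4272, nat_lit 528, nat_lit 5856, nat_lit 5280, nat_lit 12048, R3_122,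 R3_110, R0_251⟩]⟩]⟩,
 ⟨nat_lit 5, [⟨nat_lit 0, [⟨nat_lit 0, nat_lit 11904, nat_lit 7728, nat_lit 16608, nat_lit 8592, nat_lit 17280, R9_346, R9_179, R8_360⟩, ⟨nat_lit 2, nat_lit 12288, nat_lit 9120, nat_lit 17472, nat_lit 7824, nat_lit 9840, R9_364, R0_163, R9_205⟩]⟩, ⟨nat_lit 2, [⟨nat_lit 2, nat_lit 13344, nat_lit 9264, nat_lit 15072, nat_lit 8208, nat_lit 14976, R0_314, R0_171, R0_312⟩]⟩, ⟨nat_lit 3, [⟨nat_lit 0, nat_lit 14688, nat_lit 7872, nat_lit 7872, nat_lit 9696, nat_lit 9696, R0_164, R9_202, R9_202⟩, ⟨nat_lit 3, nat_lit 15600, nat_lit 8256, nat_lit 8256, nat_lit 14928, nat_lit 14928, R0_172, R0_311, R0_311⟩]⟩]⟩,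
 ⟨nat_lit 6, [⟨nat_lit 0, [⟨nat_lit 0, nat_lit 8016, nat_lit 9888, nat_lit 16608, nat_lit 8736, nat_lit 14016, R3_346, R3_182, R8_292⟩, ⟨nat_lit 1, nat_lit 8352, nat_lit 10320, nat_lit 17904, nat_lit 2976, nat_lit 10896, R3_373, R0_62, R5_227⟩]⟩, ⟨nat_lit 1, [⟨nat_lit 0, nat_lit 8784, nat_lit 9984, nat_lit 2784, nat_lit 9552, nat_lit 10560, R0_58, R3_199, R5_220⟩, ⟨nat_lit 1, nat_lit 8928, nat_lit 10416, nat_lit 4752, nat_lit 4896, nat_lit 13824, R0_99, R0_102, R11_288⟩]⟩, ⟨nat_lit 3, [⟨nat_lit 0, nat_lit 9744, nat_lit 9936, nat_lit 3840, nat_lit 9360, nat_lit 9216, R10_80, R3_195, R9_192⟩, ⟨nat_lit 1, nat_lit 10176, nat_lit 10368, nat_lit 6384, nat_lit 3360, nat_lit 8736, R10_133, R0_70, R0_182⟩, ⟨nat_lit 3, nat_lit 10272, nat_lit 10272, nat_lit 4512, nat_lit 4944, nat_lit 14160, R10_94, R10_103, R0_295⟩]⟩]⟩,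
 ⟨nat_lit 7, [⟨nat_lit 0, [⟨nat_lit 0, nat_lit 16080, nat_lit 5712, nat_lit 8784, nat_lit 16512, nat_lit 14688, R3_183, R3_344, R8_306⟩, ⟨nat_lit 1, nat_lit 16368, nat_lit 6240, nat_lit 9600, nat_lit 2736, nat_lit 10608, R3_200, R0_57, R5_221⟩, ⟨nat_lit 2, nat_lit 16224, nat_lit 7008, nat_lit 9408, nat_lit 9696, nat_lit 9264, R3_196, R10_202, R9_193⟩]⟩, ⟨nat_lit 1, [⟨nat_lit 0, nat_lit 16704, nat_lit 5808, nat_lit 3024, nat_lit 17808, nat_lit 10800, R0_63, R3_371, R5_225⟩, ⟨nat_lit 1, nat_lit 16800, nat_lit 6336, nat_lit 4992, nat_lit 4656, nat_lit 14064, R0_104, R0_97, R11_293⟩, ⟨nat_lit 2, nat_lit 16752, nat_lit 7104, nat_lit 3408, nat_lit 12000, nat_lit 8784, R0_71, R10_250, R0_183⟩]⟩, ⟨nat_lit 2, [⟨nat_lit 2, nat_lit 16608, nat_lit 7152, nat_lit 19920, nat_lit 10272, nat_lit 14208, R10_415, R10_214, R0_296⟩]⟩]⟩],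 [⟨nat_lit 4, [⟨nat_lit 0, [⟨nat_lit 0, nat_lit 720, nat_lit 3168, nat_lit 5472, nat_lit 5760, nat_lit 12336, R13_114, R13_120, R4_257⟩, ⟨nat_lit 2, nat_lit 1008, nat_lit 5856, nat_lit 7056, nat_lit 4032, nat_lit 14736, R13_147, R3_84, R5_307⟩]⟩, ⟨nat_lit 2, [⟨nat_lit 2, nat_lit 1728, nat_lit 6576, nat_lit 5424, nat_lit 5760, nat_lit 5376, R3_113, R3_120, R11_112⟩]⟩, ⟨nat_lit 3, [⟨nat_lit 0, nat_lit 3552, nat_lit 3792, nat_lit 4272, nat_lit 7488, nat_lit 8928, R3_89, R13_156, R3_186⟩, ⟨nat_lit 2, nat_lit 3792, nat_lit 6336, nat_lit 6336, nat_lit 6288, nat_lit 3312, R3_132, R3_131, R0_69⟩, ⟨nat_lit 3, nat_lit 4320, nat_lit 4464, nat_lit 6000, nat_lit 5040, nat_lit 4848, R3_125, R3_105, R10_101⟩]⟩]⟩,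
 ⟨nat_lit 5, [⟨nat_lit 0, [⟨nat_lit 0, nat_lit 11952, nat_lit 3264, nat_lit 16704, nat_lit 8304, nat_lit 14784, R9_348, R9_173, R4_308⟩, ⟨nat_lit 2, nat_lit 12336, nat_lit 5952, nat_lit 17616, nat_lit 7536, nat_lit 17376, R9_367, R0_157, R5_362⟩]⟩, ⟨nat_lit 2, [⟨nat_lit 2, nat_lit 13392, nat_lit 6672, nat_lit 15216, nat_lit 8112, nat_lit 5472, R0_317, R0_169, R11_114⟩]⟩, ⟨nat_lit 3, [⟨nat_lit 0, nat_lit 14736, nat_lit 3840, nat_lit 9936, nat_lit 9216, nat_lit 9360, R0_207, R9_192, R3_195⟩, ⟨nat_lit 2, nat_lit 15120, nat_lit 6384, nat_lit 10368, nat_lit 8736, nat_lit 3360, R0_216, R0_182, R0_70⟩, ⟨nat_lit 3, nat_lit 15648, nat_lit 4512, nat_lit 10272, nat_lit 14160, nat_lit 4944, R0_214, R0_295, R10_103⟩]⟩]⟩,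
 ⟨nat_lit 6, [⟨nat_lit 0, [⟨nat_lit 0, nat_lit 8064, nat_lit 3312, nat_lit 16800, nat_lit 8640, nat_lit 13728, R3_350, R3_180, R4_286⟩]⟩, ⟨nat_lit 3, [⟨nat_lit 0, nat_lit 9792, nat_lit 3888, nat_lit 3888, nat_lit 9072, nat_lit 9072, R10_81, R3_189, R3_189⟩, ⟨nat_lit 3, nat_lit 10320, nat_lit 4560, nat_lit 4560, nat_lit 4896, nat_lit 4896, R10_95, R10_102, R10_102⟩]⟩]⟩,
 ⟨nat_lit 7, [⟨nat_lit 0, [⟨nat_lit 0, nat_lit 16128, nat_lit 3216, nat_lit 10464, nat_lit 15312, nat_lit 13296, R3_218, R3_319, R4_277⟩, ⟨nat_lit 2, nat_lit 16272, nat_lit 5904, nat_lit 10512, nat_lit 9360, nat_lit 16512, R3_219, R10_195, R5_344⟩]⟩, ⟨nat_lit 2, [⟨nat_lit 2, nat_lit 16656, nat_lit 6624, nat_lit 20016, nat_lit 10128, nat_lit 5424, R10_417, R10_211, R11_113⟩]⟩]⟩]]]]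
noncomputable def N3370 : T3 (List N0) := [[[[], [], [⟨nat_lit 0, [⟨nat_lit 2, [⟨nat_lit 6, nat_lit 5232, nat_lit 3024, nat_lit 3936, nat_lit 3696, nat_lit 5808, R4_82, R4_77, R2_121⟩]⟩, ⟨nat_lit 6, [⟨nat_lit 4, nat_lit 3264, nat_lit 2208, nat_lit 3456, nat_lit 1728, nat_lit 7728, R7_72, R6_36, R13_161⟩, ⟨nat_lit 5, nat_lit 4128, nat_lit 2640, nat_lit 4416, nat_lit 672, nat_lit 6384, R7_92, R8_14, R3_133⟩, ⟨nat_lit 6, nat_lit 4752, nat_lit 2928, nat_lit 3936, nat_lit 1632, nat_lit 13104, R7_82, R4_34, R3_273⟩]⟩]⟩,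
 ⟨nat_lit 2, [⟨nat_lit 4, [⟨nat_lit 4, nat_lit 3120, nat_lit 10992, nat_lit 15936, nat_lit 8736, nat_lit 12576, R7_332, R4_182, R6_262⟩, ⟨nat_lit 5, nat_lit 3984, nat_lit 11376, nat_lit 16656, nat_lit 5184, nat_lit 12912, R7_347, R5_108, R4_269⟩]⟩, ⟨nat_lit 6, [⟨nat_lit 4, nat_lit 3312, nat_lit 11088, nat_lit 12960, nat_lit 9264, nat_lit 7776, R14_270, R4_193, R13_162⟩, ⟨nat_lit 5, nat_lit 4176, nat_lit 11424, nat_lit 13008, nat_lit 5232, nat_lit 6432, R14_271, R5_109, R3_134⟩]⟩]⟩], [], [], [], [⟨nat_lit 0, [⟨nat_lit 6, [⟨nat_lit 5, nat_lit 12816, nat_lit 2592, nat_lit 4272, nat_lit 1008, nat_lit 12816, R7_89, R8_21, R2_267⟩]⟩]⟩,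
 ⟨nat_lit 2, [⟨nat_lit 4, [⟨nat_lit 5, nat_lit 12480, nat_lit 11808, nat_lit 12144, nat_lit 14832, nat_lit 15168, R7_253, R5_309, R7_316⟩]⟩, ⟨nat_lit 6, [⟨nat_lit 5, nat_lit 12864, nat_lit 11904, nat_lit 12384, nat_lit 14880, nat_lit 13152, R14_258, R5_310, R2_274⟩]⟩]⟩]], [], [[], [], [], [], [], [], [⟨nat_lit 0, [⟨nat_lit 6, [⟨nat_lit 5, nat_lit 13152, nat_lit 12816, nat_lit 12720, nat_lit 14880, nat_lit 12864, R7_265, R5_310, R2_268⟩]⟩]⟩,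
 ⟨nat_lit 2, [⟨nat_lit 4, [⟨nat_lit 1, nat_lit 13728, nat_lit 14208, nat_lit 12336, nat_lit 13248, nat_lit 13920, R7_257, R1_276, R4_290⟩, ⟨nat_lit 5, nat_lit 12576, nat_lit 14256, nat_lit 12192, nat_lit 18384, nat_lit 15216, R7_254, R11_383, R7_317⟩]⟩, ⟨nat_lit 6, [⟨nat_lit 5, nat_lit 13200, nat_lit 15072, nat_lit 14448, nat_lit 19200, nat_lit 13200, R14_301, R11_400, R2_275⟩]⟩]⟩]], [[], [], [⟨nat_lit 0, [⟨nat_lit 2, [⟨nat_lit 6, nat_lit 5520, nat_lit 768, nat_lit 10272, nat_lit 13680, nat_lit 5952, R4_214, R3_285, R2_124⟩]⟩, ⟨nat_lit 6, [⟨nat_lit 4, nat_lit 3552, nat_lit 2592, nat_lit 9600, nat_lit 16368, nat_lit 7968, R7_200, R13_341, R13_166⟩, ⟨nat_lit 5, nat_lit 4416, nat_lit 3024, nat_lit 11280, nat_lit 14064, nat_lit 6624, R7_235, R9_293, R3_138⟩, ⟨nat_lit 6, nat_lit 4944, nat_lit 3168, nat_lit 10944,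 nat_lit 12432, nat_lit 13152, R7_228, R3_259, R3_274⟩, ⟨nat_lit 7, nat_lit 6528, nat_lit 2784, nat_lit 10464, nat_lit 1776, nat_lit 5760, R7_218, R3_37, R9_120⟩]⟩]⟩,
 ⟨nat_lit 2, [⟨nat_lit 4, [⟨nat_lit 4, nat_lit 3168, nat_lit 12816, nat_lit 15984, nat_lit 11136, nat_lit 12624, R7_333, R3_232, R6_263⟩, ⟨nat_lit 5, nat_lit 4032, nat_lit 13056, nat_lit 16704, nat_lit 12192, nat_lit 12960, R7_348, R0_254, R4_270⟩, ⟨nat_lit 7, nat_lit 6384, nat_lit 12960, nat_lit 16224, nat_lit 14496, nat_lit 14544, R7_338, R10_302, R8_303⟩]⟩, ⟨nat_lit 6, [⟨nat_lit 4, nat_lit 3600, nat_lit 13824, nat_lit 13296, nat_lit 12048, nat_lit 8016, R14_277, R3_251, R13_167⟩, ⟨nat_lit 5, nat_lit 4464, nat_lit 14160, nat_lit 13392, nat_lit 12768, nat_lit 6672, R14_279, R0_266, R3_139⟩, ⟨nat_lit 7, nat_lit 6576, nat_lit 14016, nat_lit 13344,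 nat_lit 15792, nat_lit 5808, R14_278, R10_329, R9_121⟩]⟩]⟩,
 ⟨nat_lit 3, [⟨nat_lit 2, [⟨nat_lit 6, nat_lit 5568, nat_lit 7728, nat_lit 7008, nat_lit 13584, nat_lit 6000, R5_146, R10_283, R2_125⟩]⟩]⟩]]], [[[], [], [⟨nat_lit 0, [⟨nat_lit 2, [⟨nat_lit 6, nat_lit 5280, nat_lit 9648, nat_lit 13824, nat_lit 10032, nat_lit 5856, R3_288, R4_209, R2_122⟩]⟩, ⟨nat_lit 6, [⟨nat_lit 4, nat_lit 3360, nat_lit 2064, nat_lit 1776, nat_lit 7872, nat_lit 7824, R2_37, R6_164, R13_163⟩, ⟨nat_lit 5, nat_lit 4224, nat_lit 7008, nat_lit 2832, nat_lit 6048, nat_lit 6480, R2_59, R8_126, R3_135⟩, ⟨nat_lit 6, nat_lit 4800, nat_lit 9696, nat_lit 2304, nat_lit 8352, nat_lit 13248, R2_48, R4_174, R3_276⟩]⟩]⟩,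
 ⟨nat_lit 1, [⟨nat_lit 2, [⟨nat_lit 6, nat_lit 5328, nat_lit 9888, nat_lit 1920, nat_lit 5520, nat_lit 5904, R10_40, R5_115, R2_123⟩]⟩, ⟨nat_lit 6, [⟨nat_lit 4, nat_lit 3456, nat_lit 2304, nat_lit 1248, nat_lit 5568, nat_lit 7920, R1_26, R8_116, R13_165⟩, ⟨nat_lit 5, nat_lit 4320, nat_lit 7200, nat_lit 2304, nat_lit 5280, nat_lit 6576, R1_48, R9_110, R3_137⟩, ⟨nat_lit 6, nat_lit 4848, nat_lit 9936, nat_lit 1776, nat_lit 5664, nat_lit 13440, R1_37, R5_118, R3_280⟩]⟩]⟩,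
 ⟨nat_lit 2, [⟨nat_lit 6, [⟨nat_lit 4, nat_lit 3408, nat_lit 2784, nat_lit 10224, nat_lit 9408, nat_lit 7872, R12_213, R4_196, R13_164⟩, ⟨nat_lit 5, nat_lit 4272, nat_lit 7536, nat_lit 10272, nat_lit 5424, nat_lit 6528, R12_214, R5_113, R3_136⟩]⟩]⟩], [], [], [], [⟨nat_lit 0, [⟨nat_lit 6, [⟨nat_lit 5, nat_lit 12912, nat_lit 720, nat_lit 2688, nat_lit 6144, nat_lit 13056, R2_56, R8_128, R2_272⟩]⟩]⟩,
 ⟨nat_lit 1, [⟨nat_lit 6, [⟨nat_lit 5, nat_lit 13008, nat_lit 6864, nat_lit 2160, nat_lit 5616, nat_lit 13584, R1_45, R9_117, R2_283⟩]⟩]⟩,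
 ⟨nat_lit 2, [⟨nat_lit 6, [⟨nat_lit 5, nat_lit 12960, nat_lit 10368, nat_lit 9648, nat_lit 15840, nat_lit 13440, R12_201, R5_330, R2_280⟩]⟩]⟩]], [[], [], [⟨nat_lit 1, [⟨nat_lit 2, [⟨nat_lit 6, nat_lit 5376, nat_lit 6816, nat_lit 8112, nat_lit 5136, nat_lit 6336, R10_169, R11_107, R2_132⟩]⟩, ⟨nat_lit 6, [⟨nat_lit 4, nat_lit 3504, nat_lit 6000, nat_lit 6672, nat_lit 14592, nat_lit 8352, R1_139, R5_304, R13_174⟩, ⟨nat_lit 5, nat_lit 4368, nat_lit 6432, nat_lit 7680, nat_lit 3120, nat_lit 6960, R1_160, R0_65, R3_145⟩, ⟨nat_lit 6, nat_lit 4896, nat_lit 6720, nat_lit 7200, nat_lit 5280, nat_lit 13536, R1_150, R11_110, R3_282⟩]⟩]⟩], [], [], [], [⟨nat_lit 1, [⟨nat_lit 6, [⟨nat_lit 5, nat_lit 13536, nat_lit 5568, nat_lit 7536, nat_lit 3456, nat_lit 13680, R1_157, R0_72, R2_285⟩]⟩]⟩]], [[], [], [], [], [], [], [⟨nat_lit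 0, [⟨nat_lit 6, [⟨nat_lit 5, nat_lit 13296, nat_lit 10080, nat_lit 11424, nat_lit 15360, nat_lit 13104, R2_238, R5_320, R2_273⟩]⟩]⟩,
 ⟨nat_lit 1, [⟨nat_lit 6, [⟨nat_lit 5, nat_lit 13392, nat_lit 10752, nat_lit 12000, nat_lit 13392, nat_lit 13632, R1_250, R0_279, R2_284⟩]⟩]⟩,
 ⟨nat_lit 2, [⟨nat_lit 6, [⟨nat_lit 5, nat_lit 13344, nat_lit 12144, nat_lit 11520, nat_lit 19680, nat_lit 13488, R12_240, R11_410, R2_281⟩]⟩]⟩]], [[], [], [⟨nat_lit 0, [⟨nat_lit 2, [⟨nat_lit 6, nat_lit 5616, nat_lit 1680, nat_lit 14544, nat_lit 14448, nat_lit 6096, R3_303, R3_301, R2_127⟩]⟩, ⟨nat_lit 6, [⟨nat_lit 4, nat_lit 3648, nat_lit 1296, nat_lit 8640, nat_lit 17040, nat_lit 8208, R2_180, R13_355, R13_171⟩, ⟨nat_lit 5, nat_lit 4512, nat_lit 1440, nat_lit 10176, nat_lit 14400, nat_lit 6864, R2_212, R9_300, R3_143⟩, ⟨nat_lit 6, nat_lit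 4992, nat_lit 1824, nat_lit 9936, nat_lit 12864, nat_lit 13296, R2_207, R3_268, R3_277⟩, ⟨nat_lit 7, nat_lit 6624, nat_lit 1536, nat_lit 9552, nat_lit 8352, nat_lit 5952, R2_199, R3_174, R9_124⟩]⟩]⟩,
 ⟨nat_lit 1, [⟨nat_lit 2, [⟨nat_lit 6, nat_lit 5664, nat_lit 1728, nat_lit 11664, nat_lit 11424, nat_lit 6192, R10_243, R0_238, R2_129⟩]⟩, ⟨nat_lit 6, [⟨nat_lit 4, nat_lit 3744, nat_lit 1344, nat_lit 9456, nat_lit 13680, nat_lit 8304, R1_197, R9_285, R13_173⟩, ⟨nat_lit 6, nat_lit 5040, nat_lit 1872, nat_lit 10752, nat_lit 11808, nat_lit 13488, R1_224, R0_246, R3_281⟩, ⟨nat_lit 7, nat_lit 6720, nat_lit 1584, nat_lit 10368, nat_lit 8640, nat_lit 6048, R1_216, R0_180, R9_126⟩]⟩]⟩,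
 ⟨nat_lit 2, [⟨nat_lit 6, [⟨nat_lit 4, nat_lit 3696, nat_lit 1392, nat_lit 10944, nat_lit 12144, nat_lit 8256, R12_228, R3_253, R13_172⟩, ⟨nat_lit 5, nat_lit 4560, nat_lit 1488, nat_lit 11040, nat_lit 13104, nat_lit 6912, R12_230, R0_273, R3_144⟩, ⟨nat_lit 7, nat_lit 6672, nat_lit 1632, nat_lit 10992, nat_lit 16656, nat_lit 6000, R12_229, R10_347, R9_125⟩]⟩]⟩,
 ⟨nat_lit 3, [⟨nat_lit 2, [⟨nat_lit 6, nat_lit 5712, nat_lit 1776, nat_lit 11472, nat_lit 13680, nat_lit 6144, R0_239, R10_285, R2_128⟩]⟩]⟩]]], [[], [], [[], [], [], [], [], [], [⟨nat_lit 2, [⟨nat_lit 4, [⟨nat_lit 1, nat_lit 13776, nat_lit 9888, nat_lit 10944, nat_lit 13488, nat_lit 13968, R2_228, R1_281, R4_291⟩, ⟨nat_lit 5, nat_lit 12624, nat_lit 9840, nat_lit 10704, nat_lit 18816, nat_lit 15264, R2_223, R11_392, R7_318⟩]⟩, ⟨nat_lit 5, [⟨nat_lit 1, nat_lit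 13872, nat_lit 10608, nat_lit 11328, nat_lit 13632, nat_lit 15648, R1_236, R1_284, R3_326⟩, ⟨nat_lit 5, nat_lit 12768, nat_lit 10560, nat_lit 11088, nat_lit 20976, nat_lit 14352, R1_231, R11_437, R2_299⟩]⟩, ⟨nat_lit 6, [⟨nat_lit 5, nat_lit 13248, nat_lit 11904, nat_lit 11472, nat_lit 20352, nat_lit 13248, R12_239, R11_424, R2_276⟩]⟩]⟩]]], [[[], [], [], [], [], [], [⟨nat_lit 0, [⟨nat_lit 6, [⟨nat_lit 5, nat_lit 13056, nat_lit 2688, nat_lit 720, nat_lit 6912, nat_lit 12912, R2_15, R8_144, R2_269⟩]⟩]⟩,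
 ⟨nat_lit 2, [⟨nat_lit 4, [⟨nat_lit 5, nat_lit 12528, nat_lit 10992, nat_lit 11568, nat_lit 15312, nat_lit 15312, R2_241, R5_319, R7_319⟩]⟩, ⟨nat_lit 6, [⟨nat_lit 5, nat_lit 13104, nat_lit 11424, nat_lit 2016, nat_lit 15360, nat_lit 13296, R12_42, R5_320, R2_277⟩]⟩]⟩]], [], [[], [], [], [], [⟨nat_lit 2, [⟨nat_lit 4, [⟨nat_lit 1, nat_lit 12096, nat_lit 1728, nat_lit 672, nat_lit 13296, nat_lit 14352, R2_14, R1_277, R6_299⟩]⟩]⟩], [], [⟨nat_lit 0, [⟨nat_lit 6, [⟨nat_lit 5, nat_lit 13440, nat_lit 2208, nat_lit 10368, nat_lit 15840, nat_lit 12960, R2_216, R5_330, R2_270⟩]⟩]⟩,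
 ⟨nat_lit 2, [⟨nat_lit 4, [⟨nat_lit 1, nat_lit 13824, nat_lit 9744, nat_lit 10320, nat_lit 13344, nat_lit 14016, R2_215, R1_278, R4_292⟩, ⟨nat_lit 5, nat_lit 12672, nat_lit 9984, nat_lit 11664, nat_lit 18624, nat_lit 15360, R2_243, R11_388, R7_320⟩]⟩, ⟨nat_lit 6, [⟨nat_lit 5, nat_lit 13488, nat_lit 12000, nat_lit 11712, nat_lit 20160, nat_lit 13344, R12_244, R11_420, R2_278⟩]⟩]⟩], [⟨nat_lit 2, [⟨nat_lit 4, [⟨nat_lit 1, nat_lit 14928, nat_lit 1200, nat_lit 6480, nat_lit 13392, nat_lit 15072, R2_135, R1_279, R8_314⟩]⟩, ⟨nat_lit 7, [⟨nat_lit 1, nat_lit 15312, nat_lit 6624, nat_lit 5184, nat_lit 13536, nat_lit 16560, R1_108, R1_282, R5_345⟩]⟩]⟩]], [[], [], [⟨nat_lit 0, [⟨nat_lit 6, [⟨nat_lit 4, nat_lit 3792, nat_lit 2592, nat_lit 3792, nat_lit 17664, nat_lit 8064, R2_79, R13_368, R13_168⟩, ⟨nat_lit 5, nat_lit 4608,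 nat_lit 3024, nat_lit 6768, nat_lit 14640, nat_lit 6720, R2_141, R9_305, R3_140⟩, ⟨nat_lit 6, nat_lit 5088, nat_lit 3168, nat_lit 5088, nat_lit 13200, nat_lit 13200, R2_106, R3_275, R3_275⟩, ⟨nat_lit 7, nat_lit 6768, nat_lit 2784, nat_lit 4608, nat_lit 6720, nat_lit 5856, R2_96, R3_140, R9_122⟩]⟩]⟩,
 ⟨nat_lit 2, [⟨nat_lit 4, [⟨nat_lit 4, nat_lit 3216, nat_lit 15744, nat_lit 14592, nat_lit 11184, nat_lit 12672, R2_304, R3_233, R6_264⟩, ⟨nat_lit 5, nat_lit 4080, nat_lit 15984, nat_lit 15648, nat_lit 12384, nat_lit 13008, R2_326, R0_258, R4_271⟩, ⟨nat_lit 7, nat_lit 6432, nat_lit 15888, nat_lit 15168, nat_lit 15024, nat_lit 15024, R2_316, R10_313, R8_313⟩]⟩, ⟨nat_lit 6, [⟨nat_lit 4, nat_lit 3840, nat_lit 16896, nat_lit 5376, nat_lit 12096, nat_lit 8112, R12_112, R3_252, R13_169⟩, ⟨nat_lit 5, nat_lit 4656, nat_lit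 17232, nat_lit 5808, nat_lit 13344, nat_lit 6768, R12_121, R0_278, R3_141⟩, ⟨nat_lit 7, nat_lit 6816, nat_lit 17088, nat_lit 5568, nat_lit 17520, nat_lit 5904, R12_116, R10_365, R9_123⟩]⟩, ⟨nat_lit 7, [⟨nat_lit 7, nat_lit 7008, nat_lit 16464, nat_lit 16176, nat_lit 18528, nat_lit 5952, R1_337, R10_386, R5_124⟩]⟩]⟩,
 ⟨nat_lit 3, [⟨nat_lit 2, [⟨nat_lit 6, nat_lit 5760, nat_lit 7344, nat_lit 6624, nat_lit 13632, nat_lit 6048, R11_138, R10_284, R2_126⟩]⟩, ⟨nat_lit 6, [⟨nat_lit 4, nat_lit 3888, nat_lit 9024, nat_lit 3264, nat_lit 8976, nat_lit 8160, R1_68, R3_187, R13_170⟩, ⟨nat_lit 5, nat_lit 4704, nat_lit 9264, nat_lit 5472, nat_lit 3696, nat_lit 6816, R1_114, R0_77, R3_142⟩, ⟨nat_lit 6, nat_lit 5136, nat_lit 9408, nat_lit 3792, nat_lit 14160, nat_lit 13344, R1_79, R10_295, R3_278⟩]⟩]⟩], [], [], [], [⟨nat_lit 0,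 [⟨nat_lit 6, [⟨nat_lit 5, nat_lit 13584, nat_lit 2160, nat_lit 6864, nat_lit 14688, nat_lit 13008, R2_143, R9_306, R2_271⟩]⟩]⟩,
 ⟨nat_lit 2, [⟨nat_lit 4, [⟨nat_lit 5, nat_lit 12720, nat_lit 11568, nat_lit 11616, nat_lit 12432, nat_lit 15408, R2_242, R0_259, R7_321⟩]⟩, ⟨nat_lit 6, [⟨nat_lit 5, nat_lit 13632, nat_lit 12000, nat_lit 6528, nat_lit 13392, nat_lit 13392, R12_136, R0_279, R2_279⟩]⟩]⟩,
 ⟨nat_lit 3, [⟨nat_lit 6, [⟨nat_lit 5, nat_lit 13680, nat_lit 7536, nat_lit 5568, nat_lit 3456, nat_lit 13536, R1_116, R0_72, R2_282⟩]⟩]⟩]], [[], [], [], [⟨nat_lit 2, [⟨nat_lit 4, [⟨nat_lit 3, nat_lit 11568, nat_lit 10992, nat_lit 12528, nat_lit 15312, nat_lit 15312, R2_261, R5_319, R7_319⟩]⟩, ⟨nat_lit 7, [⟨nat_lit 0, nat_lit 10512, nat_lit 10752, nat_lit 13104, nat_lit 13680, nat_lit 14832, R1_273, R4_285, R7_309⟩, ⟨nat_lit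 3, nat_lit 11712, nat_lit 11040, nat_lit 13872, nat_lit 15504, nat_lit 7920, R1_289, R5_323, R14_165⟩]⟩]⟩,
 ⟨nat_lit 4, [⟨nat_lit 3, [⟨nat_lit 2, nat_lit 10992, nat_lit 11568, nat_lit 12528, nat_lit 15312, nat_lit 15312, R2_261, R7_319, R5_319⟩]⟩]⟩,
 ⟨nat_lit 6, [⟨nat_lit 3, [⟨nat_lit 0, nat_lit 10752, nat_lit 10512, nat_lit 13104, nat_lit 14832, nat_lit 13680, R1_273, R7_309, R4_285⟩, ⟨nat_lit 2, nat_lit 11040, nat_lit 11712, nat_lit 13872, nat_lit 7920, nat_lit 15504, R1_289, R14_165, R5_323⟩]⟩, ⟨nat_lit 7, [⟨nat_lit 0, nat_lit 10560, nat_lit 10560, nat_lit 18768, nat_lit 14928, nat_lit 14928, R11_391, R7_311, R7_311⟩]⟩]⟩]], [], [[], [], [], [⟨nat_lit 2, [⟨nat_lit 4, [⟨nat_lit 3, nat_lit 11616, nat_lit 11568, nat_lit 12720, nat_lit 12432, nat_lit 15408, R2_265, R0_259, R7_321⟩]⟩, ⟨nat_lit 7, [⟨nat_lit 0, nat_lit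 10608, nat_lit 11136, nat_lit 13152, nat_lit 15360, nat_lit 15072, R1_274, R3_320, R7_314⟩, ⟨nat_lit 3, nat_lit 11760, nat_lit 11616, nat_lit 14064, nat_lit 12528, nat_lit 7968, R1_293, R0_261, R14_166⟩]⟩]⟩,
 ⟨nat_lit 6, [⟨nat_lit 3, [⟨nat_lit 0, nat_lit 10848, nat_lit 10896, nat_lit 13728, nat_lit 14016, nat_lit 13872, R1_286, R2_292, R4_289⟩, ⟨nat_lit 2, nat_lit 11184, nat_lit 12144, nat_lit 15072, nat_lit 3840, nat_lit 15600, R1_314, R12_80, R5_325⟩]⟩, ⟨nat_lit 7, [⟨nat_lit 0, nat_lit 10656, nat_lit 10944, nat_lit 18912, nat_lit 14064, nat_lit 15120, R11_394, R2_293, R7_315⟩]⟩]⟩], [], [], [], [⟨nat_lit 2, [⟨nat_lit 4, [⟨nat_lit 0, nat_lit 14592, nat_lit 15744, nat_lit 3216, nat_lit 11184, nat_lit 12672, R2_67, R3_233, R6_264⟩, ⟨nat_lit 1, nat_lit 15168, nat_lit 15888, nat_lit 6432, nat_lit 15024, nat_lit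 15024, R2_134, R10_313, R8_313⟩, ⟨nat_lit 3, nat_lit 15648, nat_lit 15984, nat_lit 4080, nat_lit 12384, nat_lit 13008, R2_85, R0_258, R4_271⟩]⟩, ⟨nat_lit 7, [⟨nat_lit 0, nat_lit 14832, nat_lit 15792, nat_lit 2688, nat_lit 15216, nat_lit 13200, R1_56, R3_317, R4_275⟩, ⟨nat_lit 1, nat_lit 15456, nat_lit 15936, nat_lit 5136, nat_lit 15168, nat_lit 16608, R1_107, R10_316, R5_346⟩]⟩]⟩,
 ⟨nat_lit 6, [⟨nat_lit 7, [⟨nat_lit 0, nat_lit 14880, nat_lit 15696, nat_lit 18864, nat_lit 7872, nat_lit 12768, R11_393, R2_164, R4_266⟩, ⟨nat_lit 1, nat_lit 15504, nat_lit 15840, nat_lit 19056, nat_lit 8400, nat_lit 16752, R11_397, R1_175, R5_349⟩]⟩]⟩]], [[⟨nat_lit 0, [⟨nat_lit 6, [⟨nat_lit 7, nat_lit 720, nat_lit 2688, nat_lit 13056, nat_lit 12912, nat_lit 6912, R2_272, R2_269, R8_144⟩]⟩]⟩,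
 ⟨nat_lit 2, [⟨nat_lit 4, [⟨nat_lit 7, nat_lit 672, nat_lit 1728, nat_lit 12096, nat_lit 13296, nat_lit 7392, R2_252, R1_277, R6_154⟩]⟩, ⟨nat_lit 6, [⟨nat_lit 7, nat_lit 768, nat_lit 2784, nat_lit 13824, nat_lit 14256, nat_lit 7008, R12_288, R1_297, R8_146⟩]⟩, ⟨nat_lit 7, [⟨nat_lit 3, nat_lit 2928, nat_lit 576, nat_lit 12432, nat_lit 18672, nat_lit 8112, R1_259, R11_389, R7_169⟩, ⟨nat_lit 7, nat_lit 864, nat_lit 2256, nat_lit 12672, nat_lit 15264, nat_lit 8112, R1_264, R1_318, R4_169⟩]⟩]⟩,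
 ⟨nat_lit 3, [⟨nat_lit 2, [⟨nat_lit 6, nat_lit 528, nat_lit 2976, nat_lit 18960, nat_lit 12384, nat_lit 8064, R11_395, R1_258, R7_168⟩]⟩, ⟨nat_lit 6, [⟨nat_lit 4, nat_lit 0, nat_lit 1008, nat_lit 13440, nat_lit 12048, nat_lit 6768, R1_280, R2_251, R6_141⟩, ⟨nat_lit 6, nat_lit 48, nat_lit 3024, nat_lit 15360, nat_lit 12624, nat_lit 7344, R1_320, R1_263, R4_153⟩, ⟨nat_lit 7, nat_lit 816, nat_lit 2736, nat_lit 14400, nat_lit 13680, nat_lit 6960, R1_300, R12_285, R8_145⟩]⟩]⟩,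
 ⟨nat_lit 4, [⟨nat_lit 3, [⟨nat_lit 2, nat_lit 2688, nat_lit 720, nat_lit 13056, nat_lit 12912, nat_lit 6912, R2_272, R2_269, R8_144⟩]⟩]⟩,
 ⟨nat_lit 6, [⟨nat_lit 3, [⟨nat_lit 0, nat_lit 1008, nat_lit 0, nat_lit 13440, nat_lit 12048, nat_lit 6768, R1_280, R2_251, R6_141⟩, ⟨nat_lit 2, nat_lit 2736, nat_lit 816, nat_lit 14400, nat_lit 13680, nat_lit 6960, R1_300, R12_285, R8_145⟩, ⟨nat_lit 3, nat_lit 3024, nat_lit 48, nat_lit 15360, nat_lit 12624, nat_lit 7344, R1_320, R1_263, R4_153⟩]⟩, ⟨nat_lit 7, [⟨nat_lit 3, nat_lit 2976, nat_lit 528, nat_lit 18960, nat_lit 12384, nat_lit 8064, R11_395, R1_258, R7_168⟩]⟩]⟩,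
 ⟨nat_lit 7, [⟨nat_lit 0, [⟨nat_lit 2, nat_lit 1728, nat_lit 672, nat_lit 12096, nat_lit 13296, nat_lit 7392, R2_252, R1_277, R6_154⟩]⟩, ⟨nat_lit 2, [⟨nat_lit 2, nat_lit 2256, nat_lit 864, nat_lit 12672, nat_lit 15264, nat_lit 8112, R1_264, R1_318, R4_169⟩, ⟨nat_lit 6, nat_lit 576, nat_lit 2928, nat_lit 12432, nat_lit 18672, nat_lit 8112, R1_259, R11_389, R7_169⟩]⟩, ⟨nat_lit 3, [⟨nat_lit 2, nat_lit 2784, nat_lit 768, nat_lit 13824, nat_lit 14256, nat_lit 7008, R12_288, R1_297, R8_146⟩]⟩]⟩], [], [⟨nat_lit 0, [⟨nat_lit 6, [⟨nat_lit 7, nat_lit 6864, nat_lit 2160, nat_lit 13584, nat_lit 13008, nat_lit 5616, R2_283, R2_271, R9_117⟩]⟩]⟩,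
 ⟨nat_lit 2, [⟨nat_lit 4, [⟨nat_lit 7, nat_lit 6480, nat_lit 1200, nat_lit 14928, nat_lit 13392, nat_lit 15072, R2_311, R1_279, R8_314⟩]⟩, ⟨nat_lit 6, [⟨nat_lit 7, nat_lit 6912, nat_lit 2256, nat_lit 14736, nat_lit 14352, nat_lit 5664, R12_307, R1_299, R9_118⟩]⟩, ⟨nat_lit 7, [⟨nat_lit 7, nat_lit 7056, nat_lit 1728, nat_lit 15936, nat_lit 15312, nat_lit 5904, R1_332, R1_319, R5_123⟩]⟩]⟩,
 ⟨nat_lit 3, [⟨nat_lit 2, [⟨nat_lit 6, nat_lit 6240, nat_lit 2448, nat_lit 21072, nat_lit 12480, nat_lit 5472, R11_439, R1_260, R2_114⟩]⟩, ⟨nat_lit 6, [⟨nat_lit 4, nat_lit 3936, nat_lit 336, nat_lit 13584, nat_lit 12336, nat_lit 7680, R1_283, R2_257, R13_160⟩, ⟨nat_lit 6, nat_lit 5184, nat_lit 2496, nat_lit 15456, nat_lit 12912, nat_lit 13392, R1_322, R1_269, R3_279⟩, ⟨nat_lit 7, nat_lit 6960, nat_lit 2208, nat_lit 14928, nat_lit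 13728, nat_lit 5712, R1_311, R12_286, R9_119⟩]⟩]⟩,
 ⟨nat_lit 7, [⟨nat_lit 2, [⟨nat_lit 6, nat_lit 6288, nat_lit 2400, nat_lit 12528, nat_lit 20784, nat_lit 5424, R1_261, R11_433, R2_113⟩]⟩]⟩], [⟨nat_lit 0, [⟨nat_lit 6, [⟨nat_lit 7, nat_lit 10368, nat_lit 9648, nat_lit 13440, nat_lit 12960, nat_lit 15840, R2_280, R2_270, R5_330⟩]⟩]⟩,
 ⟨nat_lit 2, [⟨nat_lit 4, [⟨nat_lit 3, nat_lit 11664, nat_lit 9984, nat_lit 12672, nat_lit 18624, nat_lit 15360, R2_264, R11_388, R7_320⟩, ⟨nat_lit 7, nat_lit 10320, nat_lit 9744, nat_lit 13824, nat_lit 13344, nat_lit 14016, R2_288, R1_278, R4_292⟩]⟩, ⟨nat_lit 6, [⟨nat_lit 7, nat_lit 10416, nat_lit 9792, nat_lit 14496, nat_lit 14304, nat_lit 15888, R12_302, R1_298, R5_331⟩]⟩, ⟨nat_lit 7, [⟨nat_lit 3, nat_lit 11808, nat_lit 10032, nat_lit 14016, nat_lit 18720, nat_lit 8016, R1_292,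 R11_390, R14_167⟩]⟩]⟩,
 ⟨nat_lit 3, [⟨nat_lit 6, [⟨nat_lit 7, nat_lit 10464, nat_lit 9696, nat_lit 14784, nat_lit 13776, nat_lit 15936, R1_308, R12_287, R5_332⟩]⟩]⟩,
 ⟨nat_lit 4, [⟨nat_lit 3, [⟨nat_lit 2, nat_lit 11424, nat_lit 10080, nat_lit 13104, nat_lit 13296, nat_lit 15360, R2_273, R2_277, R5_320⟩]⟩]⟩,
 ⟨nat_lit 6, [⟨nat_lit 3, [⟨nat_lit 0, nat_lit 10944, nat_lit 9888, nat_lit 13488, nat_lit 13776, nat_lit 13968, R1_281, R2_287, R4_291⟩, ⟨nat_lit 2, nat_lit 11472, nat_lit 10176, nat_lit 14448, nat_lit 14304, nat_lit 15648, R1_301, R12_298, R5_326⟩]⟩, ⟨nat_lit 7, [⟨nat_lit 0, nat_lit 10704, nat_lit 9840, nat_lit 18816, nat_lit 12624, nat_lit 15264, R11_392, R2_263, R7_318⟩, ⟨nat_lit 3, nat_lit 11856, nat_lit 9936, nat_lit 19008, nat_lit 13968, nat_lit 8064, R11_396, R1_291, R14_168⟩]⟩]⟩,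
 ⟨nat_lit 7, [⟨nat_lit 3, [⟨nat_lit 2, nat_lit 11520, nat_lit 10128, nat_lit 13872, nat_lit 14640, nat_lit 15744, R12_289, R1_305, R5_328⟩]⟩]⟩]]], [[], [], [], [], [[⟨nat_lit 4, [⟨nat_lit 0, [⟨nat_lit 2, nat_lit 1104, nat_lit 3936, nat_lit 1488, nat_lit 3072, nat_lit 7440, R6_31, R7_64, R6_155⟩]⟩, ⟨nat_lit 2, [⟨nat_lit 2, nat_lit 1920, nat_lit 4176, nat_lit 1488, nat_lit 3648, nat_lit 8160, R4_31, R7_76, R4_170⟩, ⟨nat_lit 6, nat_lit 96, nat_lit 3312, nat_lit 3504, nat_lit 3600, nat_lit 8160, R4_73, R4_75, R7_170⟩]⟩]⟩,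
 ⟨nat_lit 6, [⟨nat_lit 0, [⟨nat_lit 2, nat_lit 1152, nat_lit 11424, nat_lit 3312, nat_lit 8112, nat_lit 7488, R4_69, R14_169, R6_156⟩]⟩]⟩], [⟨nat_lit 4, [⟨nat_lit 0, [⟨nat_lit 2, nat_lit 8160, nat_lit 1728, nat_lit 1872, nat_lit 3264, nat_lit 9792, R6_39, R7_68, R13_204⟩]⟩, ⟨nat_lit 1, [⟨nat_lit 2, nat_lit 8784, nat_lit 2592, nat_lit 2016, nat_lit 4128, nat_lit 7632, R8_42, R7_86, R3_159⟩]⟩, ⟨nat_lit 2, [⟨nat_lit 2, nat_lit 9696, nat_lit 2928, nat_lit 1728, nat_lit 3792, nat_lit 12768, R4_36, R7_79, R3_266⟩, ⟨nat_lit 6, nat_lit 7104, nat_lit 3024, nat_lit 3840, nat_lit 3840, nat_lit 7104, R4_80, R4_80, R2_148⟩]⟩]⟩,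
 ⟨nat_lit 6, [⟨nat_lit 0, [⟨nat_lit 0, nat_lit 7440, nat_lit 9600, nat_lit 8784, nat_lit 15744, nat_lit 12336, R4_183, R7_328, R6_257⟩, ⟨nat_lit 2, nat_lit 8208, nat_lit 9696, nat_lit 9312, nat_lit 8592, nat_lit 9840, R4_194, R14_179, R13_205⟩]⟩, ⟨nat_lit 1, [⟨nat_lit 0, nat_lit 7680, nat_lit 10176, nat_lit 6000, nat_lit 16464, nat_lit 12576, R5_125, R7_343, R4_262⟩, ⟨nat_lit 2, nat_lit 8832, nat_lit 10272, nat_lit 6048, nat_lit 8640, nat_lit 7680, R5_126, R14_180, R3_160⟩]⟩]⟩], [⟨nat_lit 4, [⟨nat_lit 2, [⟨nat_lit 6, nat_lit 5808, nat_lit 3024, nat_lit 3936, nat_lit 3696, nat_lit 5232, R4_82, R4_77, R2_109⟩]⟩]⟩]], [[⟨nat_lit 4, [⟨nat_lit 0, [⟨nat_lit 2, nat_lit 1392, nat_lit 1632, nat_lit 7584, nat_lit 1392, nat_lit 7584, R6_158, R2_29, R6_158⟩]⟩, ⟨nat_lit 2, [⟨nat_lit 2, nat_lit 2016, nat_lit 9504, nat_lit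 8208, nat_lit 2016, nat_lit 8208, R4_171, R2_42, R4_171⟩, ⟨nat_lit 6, nat_lit 240, nat_lit 9456, nat_lit 9792, nat_lit 13632, nat_lit 8208, R4_204, R3_284, R7_171⟩]⟩]⟩,
 ⟨nat_lit 5, [⟨nat_lit 0, [⟨nat_lit 2, nat_lit 1488, nat_lit 2352, nat_lit 1920, nat_lit 864, nat_lit 7680, R8_40, R1_18, R6_160⟩]⟩, ⟨nat_lit 2, [⟨nat_lit 2, nat_lit 2064, nat_lit 10032, nat_lit 6192, nat_lit 1488, nat_lit 8256, R5_129, R1_31, R4_172⟩, ⟨nat_lit 6, nat_lit 288, nat_lit 9984, nat_lit 6096, nat_lit 1584, nat_lit 8256, R5_127, R10_33, R7_172⟩]⟩]⟩,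
 ⟨nat_lit 6, [⟨nat_lit 0, [⟨nat_lit 2, nat_lit 1440, nat_lit 2832, nat_lit 3408, nat_lit 6720, nat_lit 7632, R4_71, R12_140, R6_159⟩]⟩]⟩], [⟨nat_lit 4, [⟨nat_lit 0, [⟨nat_lit 2, nat_lit 8448, nat_lit 912, nat_lit 8016, nat_lit 1584, nat_lit 9936, R6_167, R2_33, R13_207⟩]⟩, ⟨nat_lit 1, [⟨nat_lit 2, nat_lit 9216, nat_lit 1344, nat_lit 6528, nat_lit 2544, nat_lit 7776, R8_136, R2_53, R3_162⟩]⟩, ⟨nat_lit 2, [⟨nat_lit 2, nat_lit 9792, nat_lit 1632, nat_lit 8448, nat_lit 2160, nat_lit 12912, R4_176, R2_45, R3_269⟩, ⟨nat_lit 6, nat_lit 7248, nat_lit 1728, nat_lit 10176, nat_lit 13776, nat_lit 7152, R4_212, R3_287, R2_149⟩]⟩]⟩,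
 ⟨nat_lit 5, [⟨nat_lit 0, [⟨nat_lit 2, nat_lit 8544, nat_lit 6336, nat_lit 6432, nat_lit 1056, nat_lit 10032, R8_134, R1_22, R13_209⟩]⟩, ⟨nat_lit 1, [⟨nat_lit 2, nat_lit 9312, nat_lit 7200, nat_lit 6624, nat_lit 2016, nat_lit 7872, R9_138, R1_42, R3_164⟩]⟩, ⟨nat_lit 2, [⟨nat_lit 2, nat_lit 9840, nat_lit 7536, nat_lit 6720, nat_lit 1632, nat_lit 13008, R5_140, R1_34, R3_271⟩, ⟨nat_lit 6, nat_lit 7296, nat_lit 7632, nat_lit 6624, nat_lit 1824, nat_lit 7200, R5_138, R10_38, R2_150⟩]⟩]⟩,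
 ⟨nat_lit 6, [⟨nat_lit 0, [⟨nat_lit 2, nat_lit 8496, nat_lit 10320, nat_lit 9456, nat_lit 7200, nat_lit 9984, R4_197, R12_150, R13_208⟩]⟩, ⟨nat_lit 1, [⟨nat_lit 2, nat_lit 9264, nat_lit 10656, nat_lit 6576, nat_lit 7248, nat_lit 7824, R5_137, R12_151, R3_163⟩]⟩]⟩], [⟨nat_lit 4, [⟨nat_lit 2, [⟨nat_lit 6, nat_lit 5952, nat_lit 768, nat_lit 10272, nat_lit 13680, nat_lit 5520, R4_214, R3_285, R2_115⟩]⟩]⟩,
 ⟨nat_lit 5, [⟨nat_lit 2, [⟨nat_lit 6, nat_lit 6000, nat_lit 7728, nat_lit 7008, nat_lit 1680, nat_lit 5568, R5_146, R10_35, R2_116⟩]⟩]⟩]], [[⟨nat_lit 6, [⟨nat_lit 0, [⟨nat_lit 2, nat_lit 1296, nat_lit 2352, nat_lit 3456, nat_lit 2784, nat_lit 7536, R4_72, R12_58, R6_157⟩]⟩]⟩], [⟨nat_lit 6, [⟨nat_lit 0, [⟨nat_lit 0, nat_lit 7536, nat_lit 432, nat_lit 8832, nat_lit 14448, nat_lit 12432, R4_184, R2_301, R6_259⟩,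 ⟨nat_lit 2, nat_lit 8352, nat_lit 480, nat_lit 9504, nat_lit 4128, nat_lit 9888, R4_198, R12_86, R13_206⟩]⟩, ⟨nat_lit 1, [⟨nat_lit 0, nat_lit 7824, nat_lit 7392, nat_lit 6912, nat_lit 14736, nat_lit 12720, R5_144, R2_307, R4_265⟩, ⟨nat_lit 2, nat_lit 9072, nat_lit 7440, nat_lit 6960, nat_lit 4176, nat_lit 7728, R5_145, R12_87, R3_161⟩]⟩]⟩]]], [[], [[], [], [⟨nat_lit 1, [⟨nat_lit 2, [⟨nat_lit 6, nat_lit 5424, nat_lit 2400, nat_lit 12528, nat_lit 20784, nat_lit 6288, R1_261, R11_433, R2_131⟩]⟩]⟩,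
 ⟨nat_lit 5, [⟨nat_lit 2, [⟨nat_lit 6, nat_lit 5472, nat_lit 2448, nat_lit 21072, nat_lit 12480, nat_lit 6240, R11_439, R1_260, R2_130⟩]⟩]⟩]], [], [], [], [[⟨nat_lit 5, [⟨nat_lit 0, [⟨nat_lit 2, nat_lit 1536, nat_lit 336, nat_lit 14448, nat_lit 6288, nat_lit 8160, R5_301, R1_131, R6_170⟩]⟩, ⟨nat_lit 2, [⟨nat_lit 2, nat_lit 2112, nat_lit 720, nat_lit 5808, nat_lit 6912, nat_lit 8544, R11_121, R1_144, R4_178⟩, ⟨nat_lit 6, nat_lit 336, nat_lit 3120, nat_lit 5712, nat_lit 7776, nat_lit 8592, R11_119, R10_162, R7_179⟩]⟩]⟩], [⟨nat_lit 5, [⟨nat_lit 0, [⟨nat_lit 2, nat_lit 8592, nat_lit 4176, nat_lit 14640, nat_lit 6480, nat_lit 10368, R5_305, R1_135, R13_216⟩]⟩, ⟨nat_lit 1, [⟨nat_lit 2, nat_lit 9504, nat_lit 5040, nat_lit 4464, nat_lit 7392, nat_lit 8496, R0_93, R1_154, R3_177⟩]⟩, ⟨nat_lit 2, [⟨nat_lit 2, nat_lit 9888,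 nat_lit 5376, nat_lit 6336, nat_lit 7056, nat_lit 13056, R11_132, R1_147, R3_272⟩, ⟨nat_lit 6, nat_lit 7344, nat_lit 5472, nat_lit 6240, nat_lit 8016, nat_lit 7392, R11_130, R10_167, R2_154⟩]⟩]⟩], [⟨nat_lit 5, [⟨nat_lit 2, [⟨nat_lit 6, nat_lit 6048, nat_lit 7344, nat_lit 6624, nat_lit 7872, nat_lit 5760, R11_138, R10_164, R2_120⟩]⟩]⟩]]], [[], [], [], [], [[], [⟨nat_lit 4, [⟨nat_lit 1, [⟨nat_lit 2, nat_lit 8880, nat_lit 13632, nat_lit 14928, nat_lit 12576, nat_lit 7920, R5_311, R7_262, R3_165⟩]⟩]⟩,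
 ⟨nat_lit 6, [⟨nat_lit 1, [⟨nat_lit 0, nat_lit 7728, nat_lit 12768, nat_lit 18432, nat_lit 16608, nat_lit 12624, R11_384, R7_346, R4_263⟩, ⟨nat_lit 2, nat_lit 8928, nat_lit 13776, nat_lit 19248, nat_lit 10992, nat_lit 7968, R11_401, R14_229, R3_166⟩]⟩]⟩]], [[], [⟨nat_lit 4, [⟨nat_lit 1, [⟨nat_lit 2, nat_lit 9360, nat_lit 4080, nat_lit 15408, nat_lit 11280, nat_lit 8064, R5_321, R2_235, R3_168⟩]⟩]⟩,
 ⟨nat_lit 5, [⟨nat_lit 1, [⟨nat_lit 2, nat_lit 9456, nat_lit 4800, nat_lit 4368, nat_lit 11856, nat_lit 8160, R0_91, R1_247, R3_170⟩]⟩]⟩,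
 ⟨nat_lit 6, [⟨nat_lit 1, [⟨nat_lit 2, nat_lit 9408, nat_lit 5280, nat_lit 19728, nat_lit 9120, nat_lit 8112, R11_411, R12_190, R3_169⟩]⟩]⟩]], [[], [⟨nat_lit 6, [⟨nat_lit 1, [⟨nat_lit 0, nat_lit 7872, nat_lit 15696, nat_lit 18864, nat_lit 14880, nat_lit 12768, R11_393, R2_310, R4_266⟩, ⟨nat_lit 2, nat_lit 9120, nat_lit 16848, nat_lit 20400, nat_lit 5520, nat_lit 8016, R11_425, R12_115, R3_167⟩]⟩]⟩], [], [], [], [⟨nat_lit 6, [⟨nat_lit 1, [⟨nat_lit 0, nat_lit 14064, nat_lit 10944, nat_lit 18912, nat_lit 10656, nat_lit 15120, R11_394, R2_222, R7_315⟩, ⟨nat_lit 1, nat_lit 14304, nat_lit 11040, nat_lit 21024, nat_lit 11040, nat_lit 14304, R11_438, R1_230, R2_298⟩, ⟨nat_lit 2, nat_lit 14352, nat_lit 11088, nat_lit 20448, nat_lit 6384, nat_lit 12768, R11_426, R12_133, R2_266⟩]⟩, ⟨nat_lit 5, [⟨nat_lit 0, nat_lit 14016,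 nat_lit 10896, nat_lit 13728, nat_lit 10848, nat_lit 13872, R1_286, R2_226, R4_289⟩, ⟨nat_lit 1, nat_lit 14256, nat_lit 10992, nat_lit 13776, nat_lit 11232, nat_lit 15696, R1_287, R1_234, R3_327⟩]⟩]⟩]]], [[], [], [], [], [[⟨nat_lit 4, [⟨nat_lit 0, [⟨nat_lit 2, nat_lit 1200, nat_lit 14064, nat_lit 16416, nat_lit 9264, nat_lit 7728, R13_342, R7_193, R6_161⟩]⟩, ⟨nat_lit 2, [⟨nat_lit 2, nat_lit 1968, nat_lit 14160, nat_lit 12480, nat_lit 10704, nat_lit 8304, R3_260, R7_223, R4_173⟩, ⟨nat_lit 6, nat_lit 144, nat_lit 12960, nat_lit 13728, nat_lit 9888, nat_lit 8304, R3_286, R4_206, R7_173⟩]⟩, ⟨nat_lit 3, [⟨nat_lit 2, nat_lit 2400, nat_lit 14112, nat_lit 1296, nat_lit 10032, nat_lit 7056, R3_27, R7_209, R8_147⟩]⟩]⟩,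
 ⟨nat_lit 6, [⟨nat_lit 0, [⟨nat_lit 2, nat_lit 1248, nat_lit 14544, nat_lit 11712, nat_lit 9168, nat_lit 7776, R3_244, R14_191, R6_162⟩]⟩, ⟨nat_lit 3, [⟨nat_lit 0, nat_lit 912, nat_lit 13440, nat_lit 14544, nat_lit 13392, nat_lit 4992, R10_303, R7_279, R6_104⟩, ⟨nat_lit 2, nat_lit 2448, nat_lit 14592, nat_lit 15840, nat_lit 9216, nat_lit 7104, R10_330, R14_192, R8_148⟩]⟩]⟩,
 ⟨nat_lit 7, [⟨nat_lit 2, [⟨nat_lit 6, nat_lit 192, nat_lit 13152, nat_lit 13296, nat_lit 4896, nat_lit 8352, R10_277, R5_102, R7_174⟩]⟩]⟩], [⟨nat_lit 4, [⟨nat_lit 0, [⟨nat_lit 2, nat_lit 8256, nat_lit 11712, nat_lit 16464, nat_lit 9456, nat_lit 10080, R13_343, R7_197, R13_210⟩]⟩, ⟨nat_lit 1, [⟨nat_lit 2, nat_lit 8976, nat_lit 11808, nat_lit 14112, nat_lit 11136, nat_lit 8208, R9_294, R7_232, R3_171⟩]⟩, ⟨nat_lit 2, [⟨nat_lit 2, nat_lit 9744,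 nat_lit 11856, nat_lit 12528, nat_lit 10848, nat_lit 12816, R3_261, R7_226, R3_267⟩, ⟨nat_lit 6, nat_lit 7152, nat_lit 10176, nat_lit 13776, nat_lit 10176, nat_lit 7248, R3_287, R4_212, R2_151⟩]⟩, ⟨nat_lit 3, [⟨nat_lit 2, nat_lit 10032, nat_lit 11760, nat_lit 1920, nat_lit 10368, nat_lit 7728, R3_40, R7_216, R9_161⟩]⟩]⟩,
 ⟨nat_lit 6, [⟨nat_lit 0, [⟨nat_lit 0, nat_lit 7488, nat_lit 10800, nat_lit 11232, nat_lit 15840, nat_lit 12384, R3_234, R7_330, R6_258⟩, ⟨nat_lit 2, nat_lit 8304, nat_lit 12336, nat_lit 12192, nat_lit 10224, nat_lit 10128, R3_254, R14_213, R13_211⟩]⟩, ⟨nat_lit 1, [⟨nat_lit 0, nat_lit 7776, nat_lit 10896, nat_lit 12240, nat_lit 16512, nat_lit 12672, R0_255, R7_344, R4_264⟩, ⟨nat_lit 2, nat_lit 9024, nat_lit 12432, nat_lit 12816, nat_lit 10320, nat_lit 8256, R0_267, R14_215, R3_172⟩]⟩, ⟨nat_lit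 3, [⟨nat_lit 0, nat_lit 8016, nat_lit 10848, nat_lit 14640, nat_lit 16176, nat_lit 14496, R10_305, R7_337, R8_302⟩, ⟨nat_lit 2, nat_lit 10080, nat_lit 12384, nat_lit 15936, nat_lit 10272, nat_lit 7776, R10_332, R14_214, R9_162⟩]⟩]⟩,
 ⟨nat_lit 7, [⟨nat_lit 2, [⟨nat_lit 6, nat_lit 7200, nat_lit 10464, nat_lit 13728, nat_lit 6624, nat_lit 7296, R10_286, R5_138, R2_152⟩]⟩]⟩], [⟨nat_lit 4, [⟨nat_lit 2, [⟨nat_lit 6, nat_lit 5856, nat_lit 9648, nat_lit 13824, nat_lit 10032, nat_lit 5280, R3_288, R4_209, R2_110⟩]⟩]⟩,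
 ⟨nat_lit 7, [⟨nat_lit 2, [⟨nat_lit 6, nat_lit 5904, nat_lit 9888, nat_lit 13824, nat_lit 5520, nat_lit 5328, R10_288, R5_115, R2_111⟩]⟩]⟩], [⟨nat_lit 4, [⟨nat_lit 3, [⟨nat_lit 2, nat_lit 11088, nat_lit 3408, nat_lit 1536, nat_lit 10176, nat_lit 15264, R3_32, R7_212, R5_318⟩]⟩]⟩,
 ⟨nat_lit 6, [⟨nat_lit 3, [⟨nat_lit 0, nat_lit 10800, nat_lit 10368, nat_lit 14592, nat_lit 14784, nat_lit 13632, R10_304, R7_308, R4_284⟩, ⟨nat_lit 2, nat_lit 11136, nat_lit 10896, nat_lit 15888, nat_lit 9984, nat_lit 15456, R10_331, R14_208, R5_322⟩]⟩]⟩]], [[⟨nat_lit 4, [⟨nat_lit 0, [⟨nat_lit 2, nat_lit 1584, nat_lit 912, nat_lit 17088, nat_lit 8448, nat_lit 8016, R13_356, R2_176, R6_167⟩]⟩, ⟨nat_lit 2, [⟨nat_lit 2, nat_lit 2160, nat_lit 1632, nat_lit 12912, nat_lit 9792, nat_lit 8448, R3_269, R2_204, R4_176⟩, ⟨nat_lit 6, nat_lit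 384, nat_lit 3216, nat_lit 14496, nat_lit 14400, nat_lit 8448, R3_302, R3_300, R7_176⟩]⟩, ⟨nat_lit 3, [⟨nat_lit 2, nat_lit 2544, nat_lit 1344, nat_lit 7776, nat_lit 9216, nat_lit 7296, R3_162, R2_192, R8_152⟩]⟩]⟩,
 ⟨nat_lit 5, [⟨nat_lit 0, [⟨nat_lit 2, nat_lit 1680, nat_lit 960, nat_lit 13440, nat_lit 9264, nat_lit 8112, R9_280, R1_193, R6_169⟩]⟩, ⟨nat_lit 2, [⟨nat_lit 2, nat_lit 2208, nat_lit 1680, nat_lit 11568, nat_lit 10608, nat_lit 8496, R0_241, R1_221, R4_177⟩, ⟨nat_lit 6, nat_lit 432, nat_lit 3312, nat_lit 11328, nat_lit 11376, nat_lit 8544, R0_236, R10_237, R7_178⟩]⟩, ⟨nat_lit 3, [⟨nat_lit 2, nat_lit 2640, nat_lit 1392, nat_lit 768, nat_lit 10032, nat_lit 7392, R0_16, R1_209, R8_154⟩]⟩]⟩,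
 ⟨nat_lit 6, [⟨nat_lit 0, [⟨nat_lit 2, nat_lit 1632, nat_lit 1008, nat_lit 11808, nat_lit 8064, nat_lit 8064, R3_246, R12_168, R6_168⟩]⟩, ⟨nat_lit 3, [⟨nat_lit 2, nat_lit 2592, nat_lit 1440, nat_lit 16704, nat_lit 8112, nat_lit 7344, R10_348, R12_169, R8_153⟩]⟩]⟩,
 ⟨nat_lit 7, [⟨nat_lit 2, [⟨nat_lit 6, nat_lit 480, nat_lit 3264, nat_lit 13392, nat_lit 11376, nat_lit 8496, R10_279, R0_237, R7_177⟩]⟩]⟩], [], [⟨nat_lit 4, [⟨nat_lit 2, [⟨nat_lit 6, nat_lit 6096, nat_lit 1680, nat_lit 14544, nat_lit 14448, nat_lit 5616, R3_303, R3_301, R2_117⟩]⟩]⟩,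
 ⟨nat_lit 5, [⟨nat_lit 2, [⟨nat_lit 6, nat_lit 6144, nat_lit 1776, nat_lit 11472, nat_lit 11520, nat_lit 5712, R0_239, R10_240, R2_119⟩]⟩]⟩,
 ⟨nat_lit 7, [⟨nat_lit 2, [⟨nat_lit 6, nat_lit 6192, nat_lit 1728, nat_lit 13920, nat_lit 11424, nat_lit 5664, R10_290, R0_238, R2_118⟩]⟩]⟩], [⟨nat_lit 4, [⟨nat_lit 3, [⟨nat_lit 2, nat_lit 11280, nat_lit 4080, nat_lit 8064, nat_lit 9360, nat_lit 15408, R3_168, R2_195, R5_321⟩]⟩]⟩,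
 ⟨nat_lit 5, [⟨nat_lit 3, [⟨nat_lit 2, nat_lit 11376, nat_lit 4128, nat_lit 6000, nat_lit 10176, nat_lit 15792, R0_125, R1_212, R5_329⟩]⟩]⟩,
 ⟨nat_lit 6, [⟨nat_lit 3, [⟨nat_lit 2, nat_lit 11328, nat_lit 4320, nat_lit 16752, nat_lit 8880, nat_lit 15696, R10_349, R12_185, R5_327⟩]⟩]⟩]], [[⟨nat_lit 6, [⟨nat_lit 0, [⟨nat_lit 2, nat_lit 1344, nat_lit 2160, nat_lit 11856, nat_lit 3168, nat_lit 7824, R3_247, R12_66, R6_163⟩]⟩, ⟨nat_lit 3, [⟨nat_lit 0, nat_lit 960, nat_lit 576, nat_lit 15360, nat_lit 11952, nat_lit 6336, R10_320, R2_249, R6_132⟩, ⟨nat_lit 2, nat_lit 2496, nat_lit 2688, nat_lit 18048, nat_lit 3216, nat_lit 7152, R10_376, R12_67, R8_149⟩]⟩]⟩], [⟨nat_lit 6, [⟨nat_lit 0, [⟨nat_lit 0, nat_lit 7584, nat_lit 9312, nat_lit 11328, nat_lit 14544, nat_lit 12480, R3_236, R2_303, R6_260⟩, ⟨nat_lit 2, nat_lit 8400,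 nat_lit 10512, nat_lit 12288, nat_lit 4752, nat_lit 10176, R3_256, R12_99, R13_212⟩]⟩, ⟨nat_lit 1, [⟨nat_lit 0, nat_lit 7920, nat_lit 9408, nat_lit 12624, nat_lit 14784, nat_lit 12816, R0_263, R2_308, R4_267⟩, ⟨nat_lit 2, nat_lit 9168, nat_lit 10608, nat_lit 13776, nat_lit 4848, nat_lit 8304, R0_287, R12_101, R3_173⟩]⟩, ⟨nat_lit 3, [⟨nat_lit 0, nat_lit 8064, nat_lit 9360, nat_lit 15456, nat_lit 14688, nat_lit 14784, R10_322, R2_306, R8_308⟩, ⟨nat_lit 2, nat_lit 10128, nat_lit 10560, nat_lit 18144, nat_lit 4800, nat_lit 7824, R10_378, R12_100, R9_163⟩]⟩]⟩], [], [⟨nat_lit 6, [⟨nat_lit 3, [⟨nat_lit 0, nat_lit 10896, nat_lit 12192, nat_lit 15408, nat_lit 13968, nat_lit 13824, R10_321, R2_291, R4_288⟩, ⟨nat_lit 2, nat_lit 11232, nat_lit 12912, nat_lit 18096, nat_lit 3648, nat_lit 15552, R10_377, R12_76, R5_324⟩]⟩]⟩]],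 [[⟨nat_lit 4, [⟨nat_lit 0, [⟨nat_lit 2, nat_lit 1776, nat_lit 2064, nat_lit 17712, nat_lit 3360, nat_lit 7872, R13_369, R2_70, R6_164⟩]⟩, ⟨nat_lit 2, [⟨nat_lit 2, nat_lit 2304, nat_lit 9696, nat_lit 13248, nat_lit 4800, nat_lit 8352, R3_276, R2_100, R4_174⟩]⟩, ⟨nat_lit 3, [⟨nat_lit 2, nat_lit 2832, nat_lit 7008, nat_lit 6480, nat_lit 4224, nat_lit 7200, R3_135, R2_88, R8_150⟩]⟩]⟩,
 ⟨nat_lit 6, [⟨nat_lit 0, [⟨nat_lit 2, nat_lit 1824, nat_lit 2208, nat_lit 11760, nat_lit 3024, nat_lit 7920, R3_245, R12_63, R6_165⟩]⟩, ⟨nat_lit 3, [⟨nat_lit 0, nat_lit 1056, nat_lit 3696, nat_lit 15072, nat_lit 12240, nat_lit 6720, R10_314, R2_255, R6_140⟩, ⟨nat_lit 2, nat_lit 2880, nat_lit 7104, nat_lit 17568, nat_lit 3264, nat_lit 7248, R10_366, R12_68, R8_151⟩, ⟨nat_lit 3, nat_lit 3072, nat_lit 4848, nat_lit 18576, nat_lit 12816,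 nat_lit 7008, R10_387, R1_267, R4_146⟩]⟩]⟩,
 ⟨nat_lit 7, [⟨nat_lit 0, [⟨nat_lit 2, nat_lit 1872, nat_lit 2112, nat_lit 3120, nat_lit 2832, nat_lit 7968, R3_65, R1_59, R6_166⟩]⟩, ⟨nat_lit 2, [⟨nat_lit 2, nat_lit 2352, nat_lit 9792, nat_lit 14016, nat_lit 3504, nat_lit 8400, R10_292, R1_73, R4_175⟩, ⟨nat_lit 6, nat_lit 624, nat_lit 10752, nat_lit 13344, nat_lit 4896, nat_lit 8400, R10_278, R11_102, R7_175⟩]⟩]⟩], [⟨nat_lit 4, [⟨nat_lit 0, [⟨nat_lit 2, nat_lit 8640, nat_lit 1296, nat_lit 17760, nat_lit 3648, nat_lit 10224, R13_370, R2_76, R13_213⟩]⟩, ⟨nat_lit 1, [⟨nat_lit 2, nat_lit 9552, nat_lit 1536, nat_lit 14736, nat_lit 6624, nat_lit 8352, R9_307, R2_138, R3_174⟩]⟩, ⟨nat_lit 2, [⟨nat_lit 2, nat_lit 9936, nat_lit 1824, nat_lit 13296, nat_lit 4992, nat_lit 12864, R3_277, R2_104, R3_268⟩]⟩, ⟨nat_lit 3, [⟨nat_lit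 2, nat_lit 10176, nat_lit 1440, nat_lit 6864, nat_lit 4512, nat_lit 7872, R3_143, R2_94, R9_164⟩]⟩]⟩,
 ⟨nat_lit 6, [⟨nat_lit 0, [⟨nat_lit 0, nat_lit 7632, nat_lit 9456, nat_lit 11280, nat_lit 14496, nat_lit 12528, R3_235, R2_302, R6_261⟩, ⟨nat_lit 2, nat_lit 8688, nat_lit 10656, nat_lit 12240, nat_lit 4608, nat_lit 10272, R3_255, R12_96, R13_214⟩]⟩, ⟨nat_lit 1, [⟨nat_lit 0, nat_lit 7968, nat_lit 9792, nat_lit 12480, nat_lit 15600, nat_lit 12864, R0_260, R2_325, R4_268⟩, ⟨nat_lit 2, nat_lit 9600, nat_lit 10992, nat_lit 13440, nat_lit 5232, nat_lit 8400, R0_280, R12_109, R3_175⟩]⟩, ⟨nat_lit 3, [⟨nat_lit 0, nat_lit 8112, nat_lit 9696, nat_lit 15120, nat_lit 15072, nat_lit 14976, R10_315, R2_314, R8_312⟩, ⟨nat_lit 2, nat_lit 10224, nat_lit 10896, nat_lit 17616, nat_lit 4896, nat_lit 7920, R10_367, R12_102, R9_165⟩,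 ⟨nat_lit 3, nat_lit 10272, nat_lit 10176, nat_lit 18624, nat_lit 16080, nat_lit 7872, R10_388, R1_335, R5_164⟩]⟩]⟩,
 ⟨nat_lit 7, [⟨nat_lit 0, [⟨nat_lit 2, nat_lit 8736, nat_lit 6432, nat_lit 9024, nat_lit 3120, nat_lit 10320, R3_188, R1_65, R13_215⟩]⟩, ⟨nat_lit 1, [⟨nat_lit 2, nat_lit 9648, nat_lit 6576, nat_lit 3792, nat_lit 5328, nat_lit 8448, R0_79, R1_111, R3_176⟩]⟩, ⟨nat_lit 2, [⟨nat_lit 2, nat_lit 9984, nat_lit 6864, nat_lit 14208, nat_lit 3696, nat_lit 12960, R10_296, R1_77, R3_270⟩, ⟨nat_lit 6, nat_lit 7392, nat_lit 5472, nat_lit 13776, nat_lit 6240, nat_lit 7344, R10_287, R11_130, R2_153⟩]⟩]⟩], [⟨nat_lit 7, [⟨nat_lit 2, [⟨nat_lit 6, nat_lit 6336, nat_lit 2352, nat_lit 13872, nat_lit 5136, nat_lit 5376, R10_289, R11_107, R2_112⟩]⟩]⟩]]]]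
noncomputable def N3441 : T3 (List N0) := [[[[], [], [⟨nat_lit 0, [⟨nat_lit 5, [⟨nat_lit 5, nat_lit 0, nat_lit 0, nat_lit 2784, nat_lit 3792, nat_lit 288, R6_58, R6_79, R11_6⟩]⟩]⟩,
 ⟨nat_lit 1, [⟨nat_lit 4, [⟨nat_lit 4, nat_lit 4464, nat_lit 4608, nat_lit 6816, nat_lit 15264, nat_lit 15168, R6_142, R6_318, R8_316⟩, ⟨nat_lit 5, nat_lit 4512, nat_lit 5184, nat_lit 6960, nat_lit 3408, nat_lit 1488, R6_145, R13_71, R5_31⟩]⟩, ⟨nat_lit 5, [⟨nat_lit 4, nat_lit 4704, nat_lit 4656, nat_lit 1872, nat_lit 15360, nat_lit 1200, R13_39, R6_320, R5_25⟩, ⟨nat_lit 5, nat_lit 4752, nat_lit 5232, nat_lit 1968, nat_lit 3456, nat_lit 1056, R13_41, R13_72, R11_22⟩]⟩]⟩], [], [], [], [⟨nat_lit 0, [⟨nat_lit 5, [⟨nat_lit 5, nat_lit 48, nat_lit 96, nat_lit 2736, nat_lit 3840, nat_lit 576, R6_57, R6_80, R1_12⟩]⟩]⟩,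
 ⟨nat_lit 1, [⟨nat_lit 5, [⟨nat_lit 5, nat_lit 4800, nat_lit 5040, nat_lit 1920, nat_lit 3504, nat_lit 672, R13_40, R13_73, R1_14⟩]⟩]⟩]], [], [[], [], [], [], [⟨nat_lit 0, [⟨nat_lit 5, [⟨nat_lit 1, nat_lit 144, nat_lit 5712, nat_lit 2976, nat_lit 4032, nat_lit 1200, R6_62, R7_84, R3_25⟩]⟩]⟩,
 ⟨nat_lit 1, [⟨nat_lit 5, [⟨nat_lit 1, nat_lit 4896, nat_lit 5808, nat_lit 2160, nat_lit 2400, nat_lit 1296, R13_45, R2_50, R3_27⟩]⟩]⟩], [], [⟨nat_lit 0, [⟨nat_lit 5, [⟨nat_lit 1, nat_lit 192, nat_lit 15360, nat_lit 3024, nat_lit 4080, nat_lit 960, R6_63, R7_85, R10_20⟩, ⟨nat_lit 5, nat_lit 96, nat_lit 15408, nat_lit 3072, nat_lit 4080, nat_lit 624, R6_64, R4_85, R1_13⟩]⟩]⟩,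
 ⟨nat_lit 1, [⟨nat_lit 5, [⟨nat_lit 1, nat_lit 4944, nat_lit 16032, nat_lit 2208, nat_lit 2448, nat_lit 1008, R13_46, R2_51, R10_21⟩, ⟨nat_lit 5, nat_lit 4848, nat_lit 16080, nat_lit 2256, nat_lit 16848, nat_lit 720, R13_47, R3_351, R1_15⟩]⟩]⟩]], [[], [], [⟨nat_lit 0, [⟨nat_lit 5, [⟨nat_lit 4, nat_lit 240, nat_lit 1776, nat_lit 2832, nat_lit 2160, nat_lit 8208, R6_59, R6_45, R5_171⟩, ⟨nat_lit 5, nat_lit 288, nat_lit 1872, nat_lit 2928, nat_lit 3552, nat_lit 336, R6_61, R8_74, R11_7⟩, ⟨nat_lit 7, nat_lit 336, nat_lit 1824, nat_lit 2880, nat_lit 2016, nat_lit 96, R6_60, R4_42, R0_2⟩]⟩]⟩,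
 ⟨nat_lit 1, [⟨nat_lit 4, [⟨nat_lit 4, nat_lit 4560, nat_lit 7968, nat_lit 6864, nat_lit 16752, nat_lit 15744, R6_143, R8_349, R8_328⟩, ⟨nat_lit 5, nat_lit 4608, nat_lit 8544, nat_lit 7008, nat_lit 2496, nat_lit 1536, R6_146, R9_52, R5_32⟩, ⟨nat_lit 7, nat_lit 4656, nat_lit 8256, nat_lit 6912, nat_lit 2208, nat_lit 2016, R6_144, R5_46, R9_42⟩]⟩, ⟨nat_lit 5, [⟨nat_lit 4, nat_lit 4992, nat_lit 10176, nat_lit 2016, nat_lit 16896, nat_lit 9552, R13_42, R8_352, R5_199⟩, ⟨nat_lit 5, nat_lit 5040, nat_lit 10368, nat_lit 2112, nat_lit 2544, nat_lit 1104, R13_44, R9_53, R11_23⟩, ⟨nat_lit 7, nat_lit 5088, nat_lit 10272, nat_lit 2064, nat_lit 2256, nat_lit 336, R13_43, R5_47, R0_7⟩]⟩]⟩]], [], [], [[], [], [], [], [⟨nat_lit 0, [⟨nat_lit 5, [⟨nat_lit 0, nat_lit 384, nat_lit 5616, nat_lit 2496, nat_lit 2496, nat_lit 5616,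 R6_52, R6_52, R4_117⟩, ⟨nat_lit 1, nat_lit 480, nat_lit 6288, nat_lit 2640, nat_lit 2400, nat_lit 720, R6_55, R4_50, R3_15⟩]⟩]⟩], [], [], [⟨nat_lit 0, [⟨nat_lit 5, [⟨nat_lit 0, nat_lit 432, nat_lit 8064, nat_lit 2544, nat_lit 2544, nat_lit 8064, R6_53, R6_53, R5_168⟩, ⟨nat_lit 1, nat_lit 528, nat_lit 8592, nat_lit 2688, nat_lit 2448, nat_lit 576, R6_56, R4_51, R0_12⟩, ⟨nat_lit 3, nat_lit 576, nat_lit 8352, nat_lit 2592, nat_lit 3216, nat_lit 1776, R6_54, R8_67, R11_37⟩]⟩]⟩]]], [[[], [], [⟨nat_lit 1, [⟨nat_lit 4, [⟨nat_lit 4, nat_lit 5136, nat_lit 288, nat_lit 7392, nat_lit 15312, nat_lit 15312, R4_154, R6_319, R8_319⟩, ⟨nat_lit 5, nat_lit 5184, nat_lit 3888, nat_lit 7584, nat_lit 3552, nat_lit 3840, R4_158, R13_74, R5_80⟩]⟩, ⟨nat_lit 5, [⟨nat_lit 4, nat_lit 5472, nat_lit 384, nat_lit 2256, nat_lit 15408, nat_lit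 1344, R3_47, R6_321, R5_28⟩, ⟨nat_lit 5, nat_lit 5520, nat_lit 3984, nat_lit 2352, nat_lit 3600, nat_lit 3840, R3_49, R13_75, R11_80⟩]⟩]⟩], [], [], [], [⟨nat_lit 1, [⟨nat_lit 5, [⟨nat_lit 5, nat_lit 5568, nat_lit 3456, nat_lit 2304, nat_lit 3648, nat_lit 1248, R3_48, R13_76, R1_26⟩]⟩]⟩]], [[], [], [⟨nat_lit 1, [⟨nat_lit 4, [⟨nat_lit 4, nat_lit 5232, nat_lit 2832, nat_lit 7440, nat_lit 14640, nat_lit 16512, R4_155, R4_305, R8_344⟩, ⟨nat_lit 5, nat_lit 5280, nat_lit 3504, nat_lit 7632, nat_lit 3264, nat_lit 3936, R4_159, R3_68, R5_82⟩]⟩, ⟨nat_lit 5, [⟨nat_lit 4, nat_lit 5616, nat_lit 2880, nat_lit 2400, nat_lit 14688, nat_lit 13248, R3_50, R4_306, R5_276⟩, ⟨nat_lit 5, nat_lit 5664, nat_lit 3552, nat_lit 2496, nat_lit 3312, nat_lit 3936, R3_52, R3_69, R11_82⟩]⟩]⟩,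
 ⟨nat_lit 5, [⟨nat_lit 4, [⟨nat_lit 4, nat_lit 13008, nat_lit 14448, nat_lit 7584, nat_lit 16752, nat_lit 10464, R7_158, R7_349, R8_218⟩, ⟨nat_lit 5, nat_lit 13056, nat_lit 14976, nat_lit 7632, nat_lit 14976, nat_lit 2928, R7_159, R2_312, R5_61⟩]⟩, ⟨nat_lit 5, [⟨nat_lit 4, nat_lit 13248, nat_lit 14496, nat_lit 6384, nat_lit 16944, nat_lit 12960, R2_133, R7_353, R5_270⟩, ⟨nat_lit 5, nat_lit 13296, nat_lit 15024, nat_lit 6432, nat_lit 15168, nat_lit 2928, R2_134, R2_316, R11_61⟩]⟩, ⟨nat_lit 6, [⟨nat_lit 4, nat_lit 13104, nat_lit 14640, nat_lit 8016, nat_lit 16848, nat_lit 11184, R2_167, R7_351, R9_233⟩, ⟨nat_lit 5, nat_lit 13200, nat_lit 15120, nat_lit 8112, nat_lit 15072, nat_lit 9696, R2_169, R2_314, R0_202⟩, ⟨nat_lit 6, nat_lit 13152, nat_lit 15456, nat_lit 8064, nat_lit 14688, nat_lit 9360, R2_168, R2_306,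 R0_195⟩]⟩]⟩], [], [], [], [⟨nat_lit 1, [⟨nat_lit 5, [⟨nat_lit 5, nat_lit 5712, nat_lit 2928, nat_lit 2448, nat_lit 3360, nat_lit 1344, R3_51, R3_70, R1_28⟩]⟩]⟩,
 ⟨nat_lit 5, [⟨nat_lit 5, [⟨nat_lit 5, nat_lit 13344, nat_lit 13392, nat_lit 6480, nat_lit 14928, nat_lit 1200, R2_135, R2_311, R1_25⟩]⟩]⟩]], [[], [], [], [], [], [], [⟨nat_lit 1, [⟨nat_lit 5, [⟨nat_lit 1, nat_lit 5808, nat_lit 13104, nat_lit 2688, nat_lit 2496, nat_lit 1248, R3_56, R2_52, R10_26⟩, ⟨nat_lit 5, nat_lit 5760, nat_lit 13152, nat_lit 2736, nat_lit 16896, nat_lit 1296, R3_57, R3_352, R1_27⟩]⟩]⟩]], [[], [], [⟨nat_lit 1, [⟨nat_lit 4, [⟨nat_lit 4, nat_lit 5328, nat_lit 7200, nat_lit 7488, nat_lit 16800, nat_lit 16032, R4_156, R8_350, R8_334⟩, ⟨nat_lit 5, nat_lit 5376, nat_lit 7296, nat_lit 7680, nat_lit 2592, nat_lit 3888, R4_160, R9_54, R5_81⟩,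 ⟨nat_lit 7, nat_lit 5424, nat_lit 7392, nat_lit 7536, nat_lit 2304, nat_lit 3552, R4_157, R5_48, R9_74⟩]⟩, ⟨nat_lit 5, [⟨nat_lit 4, nat_lit 5856, nat_lit 7248, nat_lit 2544, nat_lit 16944, nat_lit 9792, R3_53, R8_353, R5_204⟩, ⟨nat_lit 5, nat_lit 5904, nat_lit 7344, nat_lit 2640, nat_lit 2640, nat_lit 3888, R3_55, R9_55, R11_81⟩, ⟨nat_lit 7, nat_lit 5952, nat_lit 7440, nat_lit 2592, nat_lit 2352, nat_lit 2016, R3_54, R5_49, R0_42⟩]⟩]⟩]]], [[], [], [[], [], [], [], [⟨nat_lit 0, [⟨nat_lit 1, [⟨nat_lit 1, nat_lit 1008, nat_lit 12816, nat_lit 2592, nat_lit 4272, nat_lit 12816, R7_54, R7_89, R2_267⟩]⟩, ⟨nat_lit 5, [⟨nat_lit 1, nat_lit 672, nat_lit 4128, nat_lit 2640, nat_lit 4416, nat_lit 6384, R4_55, R7_92, R3_133⟩]⟩]⟩,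
 ⟨nat_lit 1, [⟨nat_lit 1, [⟨nat_lit 1, nat_lit 6144, nat_lit 12912, nat_lit 720, nat_lit 2688, nat_lit 13056, R2_15, R2_56, R2_272⟩]⟩, ⟨nat_lit 5, [⟨nat_lit 1, nat_lit 6048, nat_lit 4224, nat_lit 7008, nat_lit 2832, nat_lit 6480, R3_146, R2_59, R3_135⟩]⟩]⟩,
 ⟨nat_lit 2, [⟨nat_lit 1, [⟨nat_lit 1, nat_lit 6912, nat_lit 13056, nat_lit 2688, nat_lit 720, nat_lit 12912, R2_56, R2_15, R2_269⟩]⟩]⟩], [⟨nat_lit 0, [⟨nat_lit 1, [⟨nat_lit 1, nat_lit 1056, nat_lit 14160, nat_lit 2640, nat_lit 4368, nat_lit 12336, R7_55, R7_91, R12_257⟩]⟩]⟩,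
 ⟨nat_lit 1, [⟨nat_lit 1, [⟨nat_lit 1, nat_lit 6192, nat_lit 14256, nat_lit 768, nat_lit 2784, nat_lit 12576, R2_16, R2_58, R12_262⟩]⟩]⟩,
 ⟨nat_lit 2, [⟨nat_lit 1, [⟨nat_lit 1, nat_lit 6960, nat_lit 14400, nat_lit 2736, nat_lit 816, nat_lit 12432, R2_57, R2_17, R12_259⟩]⟩]⟩], [⟨nat_lit 0, [⟨nat_lit 1, [⟨nat_lit 1, nat_lit 1104, nat_lit 12336, nat_lit 2688, nat_lit 4320, nat_lit 14160, R7_56, R7_90, R1_295⟩]⟩, ⟨nat_lit 5, [⟨nat_lit 1, nat_lit 720, nat_lit 12864, nat_lit 2688, nat_lit 4464, nat_lit 1056, R4_56, R7_93, R10_22⟩, ⟨nat_lit 5, nat_lit 624, nat_lit 12816, nat_lit 2736, nat_lit 4176, nat_lit 768, R4_57, R4_87, R1_16⟩]⟩]⟩,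
 ⟨nat_lit 1, [⟨nat_lit 1, [⟨nat_lit 1, nat_lit 6240, nat_lit 12432, nat_lit 816, nat_lit 2736, nat_lit 14400, R2_17, R2_57, R1_300⟩]⟩, ⟨nat_lit 5, [⟨nat_lit 1, nat_lit 6096, nat_lit 13296, nat_lit 7104, nat_lit 2880, nat_lit 1104, R3_148, R2_60, R10_23⟩, ⟨nat_lit 5, nat_lit 6000, nat_lit 13248, nat_lit 7056, nat_lit 16992, nat_lit 816, R3_147, R3_354, R1_17⟩]⟩]⟩,
 ⟨nat_lit 2, [⟨nat_lit 1, [⟨nat_lit 1, nat_lit 7008, nat_lit 12576, nat_lit 2784, nat_lit 768, nat_lit 14256, R2_58, R2_16, R1_297⟩]⟩]⟩]], [], [], [], [[], [], [], [], [⟨nat_lit 0, [⟨nat_lit 1, [⟨nat_lit 0, nat_lit 1152, nat_lit 1200, nat_lit 2256, nat_lit 2976, nat_lit 5712, R7_47, R6_62, R7_119⟩, ⟨nat_lit 1, nat_lit 1248, nat_lit 6384, nat_lit 2496, nat_lit 2640, nat_lit 4128, R7_52, R4_55, R2_86⟩, ⟨nat_lit 3, nat_lit 1344, nat_lit 7632, nat_lit 2352,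 nat_lit 3888, nat_lit 8784, R7_49, R8_81, R2_183⟩]⟩, ⟨nat_lit 5, [⟨nat_lit 0, nat_lit 768, nat_lit 720, nat_lit 2400, nat_lit 2640, nat_lit 6288, R4_50, R6_55, R4_131⟩, ⟨nat_lit 1, nat_lit 864, nat_lit 6048, nat_lit 2544, nat_lit 2544, nat_lit 6048, R4_53, R4_53, R3_126⟩]⟩]⟩,
 ⟨nat_lit 2, [⟨nat_lit 1, [⟨nat_lit 0, nat_lit 7056, nat_lit 1296, nat_lit 2400, nat_lit 8640, nat_lit 5808, R2_50, R13_180, R7_121⟩, ⟨nat_lit 1, nat_lit 7200, nat_lit 6480, nat_lit 2832, nat_lit 7008, nat_lit 4224, R2_59, R3_146, R2_88⟩, ⟨nat_lit 3, nat_lit 7296, nat_lit 7776, nat_lit 2544, nat_lit 6240, nat_lit 9216, R2_53, R9_130, R2_192⟩]⟩]⟩], [⟨nat_lit 0, [⟨nat_lit 1, [⟨nat_lit 0, nat_lit 1200, nat_lit 960, nat_lit 2304, nat_lit 3024, nat_lit 15792, R7_48, R6_63, R14_329⟩, ⟨nat_lit 1, nat_lit 1296, nat_lit 1056, nat_lit 2544, nat_lit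 2688, nat_lit 12864, R7_53, R4_56, R12_268⟩, ⟨nat_lit 3, nat_lit 1392, nat_lit 1152, nat_lit 2400, nat_lit 3984, nat_lit 6960, R7_50, R8_83, R12_145⟩]⟩]⟩,
 ⟨nat_lit 2, [⟨nat_lit 1, [⟨nat_lit 0, nat_lit 7104, nat_lit 1008, nat_lit 2448, nat_lit 8784, nat_lit 16224, R2_51, R13_183, R14_338⟩, ⟨nat_lit 1, nat_lit 7248, nat_lit 1104, nat_lit 2880, nat_lit 7104, nat_lit 13296, R2_60, R3_148, R12_277⟩, ⟨nat_lit 2, nat_lit 7152, nat_lit 1248, nat_lit 2496, nat_lit 2688, nat_lit 13104, R2_52, R3_56, R12_273⟩, ⟨nat_lit 3, nat_lit 7344, nat_lit 1200, nat_lit 2592, nat_lit 6480, nat_lit 8496, R2_54, R9_135, R12_177⟩]⟩]⟩], [], [⟨nat_lit 0, [⟨nat_lit 1, [⟨nat_lit 3, nat_lit 1440, nat_lit 720, nat_lit 2448, nat_lit 3936, nat_lit 9600, R7_51, R8_82, R1_200⟩]⟩, ⟨nat_lit 5, [⟨nat_lit 0, nat_lit 816, nat_lit 576, nat_lit 2448,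 nat_lit 2688, nat_lit 8592, R4_51, R6_56, R5_179⟩, ⟨nat_lit 1, nat_lit 912, nat_lit 624, nat_lit 2592, nat_lit 2592, nat_lit 624, R4_54, R4_54, R0_13⟩, ⟨nat_lit 3, nat_lit 960, nat_lit 672, nat_lit 2496, nat_lit 4368, nat_lit 1824, R4_52, R8_91, R11_38⟩]⟩]⟩,
 ⟨nat_lit 2, [⟨nat_lit 1, [⟨nat_lit 3, nat_lit 7392, nat_lit 768, nat_lit 2640, nat_lit 6288, nat_lit 10032, R2_55, R9_131, R1_209⟩]⟩]⟩]]], [[[], [], [], [], [], [], [⟨nat_lit 0, [⟨nat_lit 5, [⟨nat_lit 5, nat_lit 1920, nat_lit 1488, nat_lit 2352, nat_lit 3888, nat_lit 864, R8_49, R6_81, R1_18⟩]⟩]⟩,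
 ⟨nat_lit 1, [⟨nat_lit 5, [⟨nat_lit 5, nat_lit 6432, nat_lit 8544, nat_lit 1104, nat_lit 3696, nat_lit 1056, R9_23, R13_77, R1_22⟩]⟩]⟩]], [], [[], [], [], [], [⟨nat_lit 0, [⟨nat_lit 5, [⟨nat_lit 1, nat_lit 2016, nat_lit 8784, nat_lit 2592, nat_lit 4128, nat_lit 7632, R8_54, R7_86, R3_159⟩]⟩]⟩,
 ⟨nat_lit 1, [⟨nat_lit 5, [⟨nat_lit 1, nat_lit 6528, nat_lit 9216, nat_lit 1344, nat_lit 2544, nat_lit 7776, R9_28, R2_53, R3_162⟩]⟩]⟩], [], [⟨nat_lit 0, [⟨nat_lit 5, [⟨nat_lit 1, nat_lit 2064, nat_lit 768, nat_lit 2688, nat_lit 4176, nat_lit 1152, R8_56, R7_87, R10_24⟩, ⟨nat_lit 5, nat_lit 1968, nat_lit 960, nat_lit 2736, nat_lit 4128, nat_lit 912, R8_57, R4_86, R1_19⟩]⟩]⟩,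
 ⟨nat_lit 1, [⟨nat_lit 5, [⟨nat_lit 1, nat_lit 6576, nat_lit 8112, nat_lit 1440, nat_lit 2592, nat_lit 1200, R9_30, R2_54, R10_25⟩, ⟨nat_lit 5, nat_lit 6480, nat_lit 8400, nat_lit 1488, nat_lit 16944, nat_lit 1104, R9_31, R3_353, R1_23⟩]⟩]⟩], [⟨nat_lit 0, [⟨nat_lit 5, [⟨nat_lit 1, nat_lit 2112, nat_lit 9600, nat_lit 2640, nat_lit 4224, nat_lit 720, R8_55, R7_88, R0_15⟩]⟩]⟩,
 ⟨nat_lit 1, [⟨nat_lit 5, [⟨nat_lit 1, nat_lit 6624, nat_lit 10032, nat_lit 1392, nat_lit 2640, nat_lit 768, R9_29, R2_55, R0_16⟩]⟩]⟩]], [[], [], [⟨nat_lit 0, [⟨nat_lit 4, [⟨nat_lit 4, nat_lit 1488, nat_lit 48, nat_lit 768, nat_lit 288, nat_lit 12192, R6_16, R6_6, R8_254⟩, ⟨nat_lit 5, nat_lit 1536, nat_lit 336, nat_lit 2928, nat_lit 3600, nat_lit 1872, R6_61, R8_75, R5_39⟩, ⟨nat_lit 7, nat_lit 1584, nat_lit 192, nat_lit 1344, nat_lit 192,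 nat_lit 2208, R6_28, R4_4, R9_46⟩]⟩, ⟨nat_lit 5, [⟨nat_lit 4, nat_lit 2160, nat_lit 1776, nat_lit 2400, nat_lit 2592, nat_lit 8352, R8_50, R6_54, R5_174⟩, ⟨nat_lit 5, nat_lit 2208, nat_lit 1872, nat_lit 2544, nat_lit 3648, nat_lit 1872, R8_53, R8_76, R11_39⟩, ⟨nat_lit 7, nat_lit 2304, nat_lit 1824, nat_lit 2448, nat_lit 2496, nat_lit 672, R8_51, R4_52, R0_14⟩]⟩, ⟨nat_lit 7, [⟨nat_lit 7, nat_lit 2784, nat_lit 1392, nat_lit 1248, nat_lit 768, nat_lit 11712, R4_26, R4_16, R0_244⟩]⟩]⟩,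
 ⟨nat_lit 1, [⟨nat_lit 4, [⟨nat_lit 4, nat_lit 6288, nat_lit 10416, nat_lit 6288, nat_lit 16848, nat_lit 15888, R8_131, R8_351, R8_331⟩, ⟨nat_lit 5, nat_lit 6336, nat_lit 10992, nat_lit 6384, nat_lit 2688, nat_lit 2400, R8_133, R9_56, R5_50⟩, ⟨nat_lit 7, nat_lit 6384, nat_lit 10704, nat_lit 6336, nat_lit 2400, nat_lit 2688, R8_132, R5_50, R9_56⟩]⟩, ⟨nat_lit 5, [⟨nat_lit 4, nat_lit 6672, nat_lit 13440, nat_lit 1152, nat_lit 16992, nat_lit 9696, R9_24, R8_354, R5_202⟩, ⟨nat_lit 5, nat_lit 6720, nat_lit 13632, nat_lit 1296, nat_lit 2736, nat_lit 2400, R9_27, R9_57, R11_50⟩, ⟨nat_lit 7, nat_lit 6816, nat_lit 13536, nat_lit 1200, nat_lit 2496, nat_lit 1152, R9_25, R5_52, R0_24⟩]⟩, ⟨nat_lit 7, [⟨nat_lit 7, nat_lit 6864, nat_lit 12672, nat_lit 384, nat_lit 2448, nat_lit 14544, R5_8, R5_51, R0_303⟩]⟩]⟩,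
 ⟨nat_lit 3, [⟨nat_lit 4, [⟨nat_lit 4, nat_lit 9360, nat_lit 7536, nat_lit 9072, nat_lit 14304, nat_lit 14112, R4_189, R4_298, R8_294⟩, ⟨nat_lit 5, nat_lit 9408, nat_lit 7680, nat_lit 10656, nat_lit 17184, nat_lit 2064, R4_222, R5_358, R5_43⟩]⟩, ⟨nat_lit 5, [⟨nat_lit 4, nat_lit 9840, nat_lit 8400, nat_lit 6288, nat_lit 15216, nat_lit 8928, R5_131, R4_317, R5_186⟩, ⟨nat_lit 5, nat_lit 9888, nat_lit 8448, nat_lit 6432, nat_lit 17232, nat_lit 2064, R5_134, R5_359, R11_43⟩]⟩]⟩], [], [], [], [⟨nat_lit 0, [⟨nat_lit 5, [⟨nat_lit 5, nat_lit 2256, nat_lit 960, nat_lit 2496, nat_lit 3696, nat_lit 960, R8_52, R8_77, R1_20⟩]⟩]⟩,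
 ⟨nat_lit 1, [⟨nat_lit 5, [⟨nat_lit 5, nat_lit 6768, nat_lit 9360, nat_lit 1248, nat_lit 2784, nat_lit 1152, R9_26, R9_58, R1_24⟩]⟩]⟩,
 ⟨nat_lit 3, [⟨nat_lit 5, [⟨nat_lit 5, nat_lit 9936, nat_lit 6384, nat_lit 6528, nat_lit 17136, nat_lit 1008, R5_136, R5_357, R1_21⟩]⟩]⟩]], [[], [], [], [⟨nat_lit 0, [⟨nat_lit 4, [⟨nat_lit 3, nat_lit 1632, nat_lit 1392, nat_lit 3552, nat_lit 7584, nat_lit 1392, R6_74, R6_158, R2_29⟩]⟩, ⟨nat_lit 5, [⟨nat_lit 3, nat_lit 2352, nat_lit 1488, nat_lit 1920, nat_lit 7680, nat_lit 864, R8_40, R6_160, R1_18⟩]⟩, ⟨nat_lit 7, [⟨nat_lit 3, nat_lit 2832, nat_lit 1440, nat_lit 3408, nat_lit 7632, nat_lit 6720, R4_71, R6_159, R12_140⟩]⟩]⟩,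
 ⟨nat_lit 3, [⟨nat_lit 4, [⟨nat_lit 3, nat_lit 9504, nat_lit 2016, nat_lit 8208, nat_lit 8208, nat_lit 2016, R4_171, R4_171, R2_42⟩, ⟨nat_lit 7, nat_lit 9456, nat_lit 240, nat_lit 9792, nat_lit 8208, nat_lit 13632, R4_204, R7_171, R3_284⟩]⟩, ⟨nat_lit 5, [⟨nat_lit 3, nat_lit 10032, nat_lit 2064, nat_lit 6192, nat_lit 8256, nat_lit 1488, R5_129, R4_172, R1_31⟩, ⟨nat_lit 7, nat_lit 9984, nat_lit 288, nat_lit 6096, nat_lit 8256, nat_lit 1584, R5_127, R7_172, R10_33⟩]⟩]⟩]], [], [[], [], [], [⟨nat_lit 0, [⟨nat_lit 4, [⟨nat_lit 3, nat_lit 1680, nat_lit 864, nat_lit 3888, nat_lit 3360, nat_lit 1488, R6_81, R8_70, R2_31⟩]⟩, ⟨nat_lit 5, [⟨nat_lit 3, nat_lit 2496, nat_lit 960, nat_lit 2256, nat_lit 3696, nat_lit 960, R8_47, R8_77, R1_20⟩]⟩, ⟨nat_lit 7, [⟨nat_lit 3, nat_lit 2880, nat_lit 912, nat_lit 4128, nat_lit 3504,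 nat_lit 6768, R4_86, R8_73, R12_141⟩]⟩]⟩,
 ⟨nat_lit 3, [⟨nat_lit 4, [⟨nat_lit 3, nat_lit 9552, nat_lit 1488, nat_lit 8256, nat_lit 6192, nat_lit 2064, R4_172, R5_129, R2_43⟩]⟩, ⟨nat_lit 5, [⟨nat_lit 3, nat_lit 10080, nat_lit 1536, nat_lit 6240, nat_lit 6240, nat_lit 1536, R5_130, R5_130, R1_32⟩]⟩]⟩], [], [], [], [⟨nat_lit 0, [⟨nat_lit 5, [⟨nat_lit 0, nat_lit 2400, nat_lit 1776, nat_lit 2160, nat_lit 2592, nat_lit 8352, R8_45, R6_54, R5_174⟩, ⟨nat_lit 1, nat_lit 2448, nat_lit 1824, nat_lit 2304, nat_lit 2496, nat_lit 672, R8_48, R4_52, R0_14⟩, ⟨nat_lit 3, nat_lit 2544, nat_lit 1872, nat_lit 2208, nat_lit 3648, nat_lit 1872, R8_46, R8_76, R11_39⟩]⟩]⟩,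
 ⟨nat_lit 3, [⟨nat_lit 5, [⟨nat_lit 3, nat_lit 10128, nat_lit 1920, nat_lit 6480, nat_lit 6480, nat_lit 1920, R5_135, R5_135, R11_40⟩]⟩]⟩]], [[⟨nat_lit 0, [⟨nat_lit 4, [⟨nat_lit 7, nat_lit 1728, nat_lit 8160, nat_lit 1872, nat_lit 3264, nat_lit 9792, R6_39, R7_68, R13_204⟩]⟩, ⟨nat_lit 5, [⟨nat_lit 7, nat_lit 2592, nat_lit 8784, nat_lit 2016, nat_lit 4128, nat_lit 7632, R8_42, R7_86, R3_159⟩]⟩, ⟨nat_lit 7, [⟨nat_lit 3, nat_lit 3024, nat_lit 7104, nat_lit 3840, nat_lit 3840, nat_lit 7104, R4_80, R4_80, R2_148⟩, ⟨nat_lit 7, nat_lit 2928, nat_lit 9696, nat_lit 1728, nat_lit 3792, nat_lit 12768, R4_36, R7_79, R3_266⟩]⟩]⟩,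
 ⟨nat_lit 3, [⟨nat_lit 4, [⟨nat_lit 4, nat_lit 9600, nat_lit 7440, nat_lit 8784, nat_lit 15744, nat_lit 12336, R4_183, R7_328, R6_257⟩, ⟨nat_lit 7, nat_lit 9696, nat_lit 8208, nat_lit 9312, nat_lit 8592, nat_lit 9840, R4_194, R14_179, R13_205⟩]⟩, ⟨nat_lit 5, [⟨nat_lit 4, nat_lit 10176, nat_lit 7680, nat_lit 6000, nat_lit 16464, nat_lit 12576, R5_125, R7_343, R4_262⟩, ⟨nat_lit 7, nat_lit 10272, nat_lit 8832, nat_lit 6048, nat_lit 8640, nat_lit 7680, R5_126, R14_180, R3_160⟩]⟩]⟩], [], [⟨nat_lit 0, [⟨nat_lit 4, [⟨nat_lit 7, nat_lit 1776, nat_lit 8976, nat_lit 1968, nat_lit 3360, nat_lit 2256, R6_41, R7_70, R9_47⟩]⟩, ⟨nat_lit 5, [⟨nat_lit 7, nat_lit 2640, nat_lit 9600, nat_lit 2112, nat_lit 4224, nat_lit 720, R8_44, R7_88, R0_15⟩]⟩, ⟨nat_lit 7, [⟨nat_lit 7, nat_lit 2976, nat_lit 10512, nat_lit 1776, nat_lit 3840,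 nat_lit 11520, R4_37, R7_80, R0_240⟩]⟩]⟩,
 ⟨nat_lit 3, [⟨nat_lit 4, [⟨nat_lit 4, nat_lit 9648, nat_lit 7968, nat_lit 9120, nat_lit 16800, nat_lit 14352, R4_190, R7_350, R8_299⟩, ⟨nat_lit 7, nat_lit 9744, nat_lit 9024, nat_lit 10416, nat_lit 8688, nat_lit 2352, R4_217, R14_181, R9_49⟩]⟩, ⟨nat_lit 5, [⟨nat_lit 4, nat_lit 10224, nat_lit 8208, nat_lit 6336, nat_lit 17088, nat_lit 16320, R5_132, R7_356, R5_340⟩, ⟨nat_lit 7, nat_lit 10320, nat_lit 9648, nat_lit 6384, nat_lit 8736, nat_lit 816, R5_133, R14_182, R0_17⟩]⟩]⟩], [⟨nat_lit 0, [⟨nat_lit 4, [⟨nat_lit 3, nat_lit 1872, nat_lit 912, nat_lit 3744, nat_lit 3408, nat_lit 1440, R6_78, R4_71, R2_30⟩, ⟨nat_lit 7, nat_lit 1824, nat_lit 720, nat_lit 1920, nat_lit 3312, nat_lit 11664, R6_40, R7_69, R3_243⟩]⟩, ⟨nat_lit 5, [⟨nat_lit 3, nat_lit 2736, nat_lit 960, nat_lit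 1968, nat_lit 4128, nat_lit 912, R8_41, R4_86, R1_19⟩, ⟨nat_lit 7, nat_lit 2688, nat_lit 768, nat_lit 2064, nat_lit 4176, nat_lit 1152, R8_43, R7_87, R10_24⟩]⟩, ⟨nat_lit 7, [⟨nat_lit 3, nat_lit 3072, nat_lit 1008, nat_lit 3888, nat_lit 3888, nat_lit 6816, R4_81, R4_81, R12_142⟩]⟩]⟩,
 ⟨nat_lit 3, [⟨nat_lit 4, [⟨nat_lit 7, nat_lit 9792, nat_lit 816, nat_lit 9840, nat_lit 8784, nat_lit 13968, R4_205, R14_183, R3_291⟩]⟩, ⟨nat_lit 5, [⟨nat_lit 7, nat_lit 10368, nat_lit 864, nat_lit 6144, nat_lit 8832, nat_lit 1632, R5_128, R14_184, R10_34⟩]⟩]⟩]]], [[], [], [], [], [[⟨nat_lit 3, [⟨nat_lit 7, [⟨nat_lit 3, nat_lit 10560, nat_lit 12816, nat_lit 15552, nat_lit 8784, nat_lit 7440, R7_324, R4_183, R2_155⟩, ⟨nat_lit 7, nat_lit 10416, nat_lit 12240, nat_lit 15600, nat_lit 8688, nat_lit 11040, R7_325, R7_181, R3_230⟩]⟩]⟩,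
 ⟨nat_lit 4, [⟨nat_lit 6, [⟨nat_lit 6, nat_lit 12144, nat_lit 2112, nat_lit 14688, nat_lit 8352, nat_lit 7920, R6_306, R6_174, R5_165⟩]⟩]⟩,
 ⟨nat_lit 7, [⟨nat_lit 4, [⟨nat_lit 4, nat_lit 15120, nat_lit 4368, nat_lit 14496, nat_lit 4512, nat_lit 11712, R6_302, R6_94, R6_244⟩, ⟨nat_lit 7, nat_lit 15264, nat_lit 5376, nat_lit 14544, nat_lit 4752, nat_lit 10416, R6_303, R4_99, R13_217⟩]⟩, ⟨nat_lit 6, [⟨nat_lit 4, nat_lit 15696, nat_lit 4560, nat_lit 15696, nat_lit 4560, nat_lit 12288, R8_327, R6_95, R8_256⟩, ⟨nat_lit 6, nat_lit 15840, nat_lit 6864, nat_lit 15744, nat_lit 7728, nat_lit 7968, R8_328, R8_161, R5_166⟩, ⟨nat_lit 7, nat_lit 15984, nat_lit 5712, nat_lit 15792, nat_lit 4848, nat_lit 7968, R8_329, R4_101, R9_166⟩]⟩, ⟨nat_lit 7, [⟨nat_lit 7, nat_lit 16464, nat_lit 5520, nat_lit 14160, nat_lit 4800, nat_lit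 11376, R4_295, R4_100, R3_237⟩]⟩]⟩], [⟨nat_lit 0, [⟨nat_lit 3, [⟨nat_lit 3, nat_lit 3120, nat_lit 12192, nat_lit 14736, nat_lit 8448, nat_lit 10368, R6_307, R6_176, R11_216⟩]⟩]⟩,
 ⟨nat_lit 2, [⟨nat_lit 0, [⟨nat_lit 0, nat_lit 7440, nat_lit 15168, nat_lit 15264, nat_lit 6816, nat_lit 4608, R6_318, R6_142, R4_96⟩, ⟨nat_lit 2, nat_lit 7488, nat_lit 15312, nat_lit 15312, nat_lit 7392, nat_lit 288, R6_319, R4_154, R3_6⟩]⟩, ⟨nat_lit 2, [⟨nat_lit 2, nat_lit 7632, nat_lit 16512, nat_lit 14640, nat_lit 7440, nat_lit 8736, R4_305, R4_155, R10_182⟩]⟩, ⟨nat_lit 3, [⟨nat_lit 0, nat_lit 7728, nat_lit 15744, nat_lit 15840, nat_lit 6864, nat_lit 7968, R8_330, R6_143, R5_166⟩, ⟨nat_lit 2, nat_lit 7776, nat_lit 16032, nat_lit 15936, nat_lit 7488, nat_lit 7200, R8_332, R4_156, R0_150⟩, ⟨nat_lit 3, nat_lit 7824, nat_lit 15888,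 nat_lit 15888, nat_lit 7824, nat_lit 10416, R8_331, R8_163, R11_217⟩]⟩]⟩,
 ⟨nat_lit 3, [⟨nat_lit 3, [⟨nat_lit 3, nat_lit 10752, nat_lit 14112, nat_lit 14304, nat_lit 9072, nat_lit 10464, R4_298, R4_189, R11_218⟩]⟩, ⟨nat_lit 7, [⟨nat_lit 3, nat_lit 10608, nat_lit 14352, nat_lit 16032, nat_lit 9120, nat_lit 7968, R7_334, R4_190, R1_166⟩, ⟨nat_lit 7, nat_lit 10464, nat_lit 14400, nat_lit 16080, nat_lit 8976, nat_lit 8784, R7_335, R7_187, R10_183⟩]⟩]⟩,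
 ⟨nat_lit 4, [⟨nat_lit 6, [⟨nat_lit 6, nat_lit 12192, nat_lit 3120, nat_lit 14736, nat_lit 8448, nat_lit 10368, R6_307, R6_176, R11_216⟩]⟩]⟩,
 ⟨nat_lit 6, [⟨nat_lit 2, [⟨nat_lit 2, nat_lit 14400, nat_lit 10464, nat_lit 16080, nat_lit 8976, nat_lit 8784, R7_335, R7_187, R10_183⟩, ⟨nat_lit 6, nat_lit 14352, nat_lit 10608, nat_lit 16032, nat_lit 9120, nat_lit 7968, R7_334, R4_190, R1_166⟩]⟩, ⟨nat_lit 6, [⟨nat_lit 6, nat_lit 14112, nat_lit 10752, nat_lit 14304, nat_lit 9072, nat_lit 10464, R4_298, R4_189, R11_218⟩]⟩]⟩,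
 ⟨nat_lit 7, [⟨nat_lit 4, [⟨nat_lit 4, nat_lit 15168, nat_lit 7440, nat_lit 15264, nat_lit 6816, nat_lit 4608, R6_318, R6_142, R4_96⟩, ⟨nat_lit 7, nat_lit 15312, nat_lit 7488, nat_lit 15312, nat_lit 7392, nat_lit 288, R6_319, R4_154, R3_6⟩]⟩, ⟨nat_lit 6, [⟨nat_lit 4, nat_lit 15744, nat_lit 7728, nat_lit 15840, nat_lit 6864, nat_lit 7968, R8_330, R6_143, R5_166⟩, ⟨nat_lit 6, nat_lit 15888, nat_lit 7824, nat_lit 15888, nat_lit 7824, nat_lit 10416, R8_331, R8_163, R11_217⟩, ⟨nat_lit 7, nat_lit 16032, nat_lit 7776, nat_lit 15936, nat_lit 7488, nat_lit 7200, R8_332, R4_156, R0_150⟩]⟩, ⟨nat_lit 7, [⟨nat_lit 7, nat_lit 16512, nat_lit 7632, nat_lit 14640, nat_lit 7440, nat_lit 8736, R4_305, R4_155, R10_182⟩]⟩]⟩], [⟨nat_lit 3, [⟨nat_lit 7, [⟨nat_lit 7, nat_lit 10512, nat_lit 12480, nat_lit 16320, nat_lit 8880, nat_lit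 12144, R7_340, R7_185, R0_253⟩]⟩]⟩,
 ⟨nat_lit 4, [⟨nat_lit 6, [⟨nat_lit 6, nat_lit 12240, nat_lit 1968, nat_lit 14784, nat_lit 8400, nat_lit 0, R6_308, R6_175, R0_0⟩]⟩]⟩,
 ⟨nat_lit 6, [⟨nat_lit 6, [⟨nat_lit 6, nat_lit 14160, nat_lit 10896, nat_lit 14352, nat_lit 9024, nat_lit 5568, R4_299, R4_188, R0_116⟩]⟩]⟩,
 ⟨nat_lit 7, [⟨nat_lit 4, [⟨nat_lit 4, nat_lit 15216, nat_lit 4608, nat_lit 16080, nat_lit 5664, nat_lit 7440, R6_335, R6_118, R8_155⟩, ⟨nat_lit 7, nat_lit 15360, nat_lit 5712, nat_lit 16128, nat_lit 6048, nat_lit 0, R6_336, R4_126, R9_0⟩]⟩, ⟨nat_lit 6, [⟨nat_lit 4, nat_lit 15792, nat_lit 4848, nat_lit 15984, nat_lit 5712, nat_lit 13104, R8_333, R6_119, R9_273⟩, ⟨nat_lit 6, nat_lit 15936, nat_lit 7488, nat_lit 16032, nat_lit 7776, nat_lit 7200, R8_334, R8_162, R0_150⟩]⟩, ⟨nat_lit 7, [⟨nat_lit 7, nat_lit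 16560, nat_lit 5904, nat_lit 15024, nat_lit 6096, nat_lit 2160, R4_313, R4_127, R0_45⟩]⟩]⟩]], [[⟨nat_lit 4, [⟨nat_lit 6, [⟨nat_lit 4, nat_lit 12288, nat_lit 15408, nat_lit 14832, nat_lit 14832, nat_lit 15408, R6_309, R6_309, R8_321⟩, ⟨nat_lit 6, nat_lit 12432, nat_lit 15552, nat_lit 14880, nat_lit 10704, nat_lit 9168, R6_310, R13_223, R5_191⟩]⟩]⟩,
 ⟨nat_lit 6, [⟨nat_lit 6, [⟨nat_lit 6, nat_lit 14208, nat_lit 16608, nat_lit 14400, nat_lit 16368, nat_lit 9264, R4_300, R3_341, R5_193⟩]⟩]⟩,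
 ⟨nat_lit 7, [⟨nat_lit 4, [⟨nat_lit 4, nat_lit 15408, nat_lit 12288, nat_lit 14832, nat_lit 15408, nat_lit 14832, R6_309, R8_321, R6_309⟩, ⟨nat_lit 7, nat_lit 15552, nat_lit 12432, nat_lit 14880, nat_lit 9168, nat_lit 10704, R6_310, R5_191, R13_223⟩]⟩, ⟨nat_lit 6, [⟨nat_lit 4, nat_lit 16080, nat_lit 16080, nat_lit 16080, nat_lit 16080, nat_lit 16080, R8_335, R8_335, R8_335⟩, ⟨nat_lit 6, nat_lit 16224, nat_lit 16368, nat_lit 16128, nat_lit 8400, nat_lit 9216, R8_336, R9_175, R5_192⟩, ⟨nat_lit 7, nat_lit 16368, nat_lit 16224, nat_lit 16176, nat_lit 9216, nat_lit 8400, R8_337, R5_192, R9_175⟩]⟩, ⟨nat_lit 7, [⟨nat_lit 7, nat_lit 16608, nat_lit 14208, nat_lit 14400, nat_lit 9264, nat_lit 16368, R4_300, R5_193, R3_341⟩]⟩]⟩], [⟨nat_lit 4, [⟨nat_lit 6, [⟨nat_lit 4, nat_lit 12336, nat_lit 1824, nat_lit 14928, nat_lit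 15024, nat_lit 960, R6_311, R6_313, R5_20⟩, ⟨nat_lit 6, nat_lit 12480, nat_lit 1872, nat_lit 14976, nat_lit 10800, nat_lit 11616, R6_312, R13_225, R11_242⟩]⟩]⟩,
 ⟨nat_lit 6, [⟨nat_lit 2, [⟨nat_lit 2, nat_lit 14496, nat_lit 10848, nat_lit 16176, nat_lit 8016, nat_lit 8928, R7_337, R2_167, R10_186⟩, ⟨nat_lit 6, nat_lit 14448, nat_lit 10992, nat_lit 16128, nat_lit 16224, nat_lit 8016, R7_336, R3_338, R1_167⟩]⟩, ⟨nat_lit 6, [⟨nat_lit 6, nat_lit 14256, nat_lit 11376, nat_lit 14448, nat_lit 16560, nat_lit 11712, R4_301, R3_345, R11_244⟩]⟩]⟩,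
 ⟨nat_lit 7, [⟨nat_lit 4, [⟨nat_lit 4, nat_lit 15456, nat_lit 7968, nat_lit 15456, nat_lit 17904, nat_lit 4848, R6_322, R8_373, R4_101⟩, ⟨nat_lit 7, nat_lit 15600, nat_lit 8016, nat_lit 15504, nat_lit 9408, nat_lit 336, R6_323, R5_196, R3_7⟩]⟩, ⟨nat_lit 6, [⟨nat_lit 4, nat_lit 16128, nat_lit 8400, nat_lit 16224, nat_lit 18720, nat_lit 9216, R8_338, R8_390, R5_192⟩, ⟨nat_lit 6, nat_lit 16272, nat_lit 8496, nat_lit 16272, nat_lit 8496, nat_lit 11664, R8_339, R9_177, R11_243⟩, ⟨nat_lit 7, nat_lit 16416, nat_lit 8448, nat_lit 16320, nat_lit 9456, nat_lit 7632, R8_340, R5_197, R0_159⟩]⟩, ⟨nat_lit 7, [⟨nat_lit 7, nat_lit 16656, nat_lit 8256, nat_lit 14736, nat_lit 9504, nat_lit 9456, R4_307, R5_198, R10_197⟩]⟩]⟩], [⟨nat_lit 4, [⟨nat_lit 6, [⟨nat_lit 4, nat_lit 12384, nat_lit 960, nat_lit 15024, nat_lit 14928, nat_lit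 15984, R6_313, R6_311, R9_333⟩, ⟨nat_lit 6, nat_lit 12528, nat_lit 1104, nat_lit 15072, nat_lit 10752, nat_lit 144, R6_314, R13_224, R0_3⟩]⟩]⟩,
 ⟨nat_lit 6, [⟨nat_lit 6, [⟨nat_lit 6, nat_lit 14304, nat_lit 13152, nat_lit 14496, nat_lit 16464, nat_lit 5664, R4_302, R3_343, R0_118⟩]⟩]⟩,
 ⟨nat_lit 7, [⟨nat_lit 4, [⟨nat_lit 4, nat_lit 15504, nat_lit 7968, nat_lit 16752, nat_lit 16752, nat_lit 7728, R6_349, R8_349, R8_161⟩, ⟨nat_lit 7, nat_lit 15648, nat_lit 8112, nat_lit 16800, nat_lit 9312, nat_lit 48, R6_350, R5_194, R9_1⟩]⟩, ⟨nat_lit 6, [⟨nat_lit 4, nat_lit 16176, nat_lit 9216, nat_lit 16368, nat_lit 17040, nat_lit 16272, R8_341, R8_355, R9_339⟩, ⟨nat_lit 6, nat_lit 16320, nat_lit 9456, nat_lit 16416, nat_lit 8448, nat_lit 7632, R8_342, R9_176, R0_159⟩]⟩, ⟨nat_lit 7, [⟨nat_lit 7, nat_lit 16704, nat_lit 8832,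 nat_lit 15312, nat_lit 9360, nat_lit 2256, R4_319, R5_195, R0_47⟩]⟩]⟩]], [[⟨nat_lit 3, [⟨nat_lit 7, [⟨nat_lit 3, nat_lit 10656, nat_lit 12576, nat_lit 17328, nat_lit 6000, nat_lit 7680, R7_361, R5_125, R2_160⟩]⟩]⟩], [⟨nat_lit 0, [⟨nat_lit 3, [⟨nat_lit 0, nat_lit 3168, nat_lit 8208, nat_lit 16512, nat_lit 2832, nat_lit 1776, R6_344, R6_59, R5_37⟩, ⟨nat_lit 3, nat_lit 3216, nat_lit 8352, nat_lit 16560, nat_lit 576, nat_lit 10512, R6_345, R8_12, R11_219⟩]⟩]⟩,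
 ⟨nat_lit 2, [⟨nat_lit 0, [⟨nat_lit 0, nat_lit 7536, nat_lit 1200, nat_lit 15360, nat_lit 8400, nat_lit 4656, R6_320, R13_175, R4_97⟩, ⟨nat_lit 2, nat_lit 7584, nat_lit 1344, nat_lit 15408, nat_lit 2256, nat_lit 384, R6_321, R3_47, R3_8⟩]⟩, ⟨nat_lit 2, [⟨nat_lit 2, nat_lit 7680, nat_lit 13248, nat_lit 14688, nat_lit 2400, nat_lit 8832, R4_306, R3_50, R10_184⟩]⟩, ⟨nat_lit 3, [⟨nat_lit 0, nat_lit 7872, nat_lit 9552, nat_lit 18432, nat_lit 8448, nat_lit 10176, R8_384, R13_176, R5_212⟩, ⟨nat_lit 2, nat_lit 7920, nat_lit 9792, nat_lit 18528, nat_lit 2544, nat_lit 7248, R8_386, R3_53, R0_151⟩, ⟨nat_lit 3, nat_lit 7968, nat_lit 9696, nat_lit 18480, nat_lit 6096, nat_lit 10560, R8_385, R9_127, R11_220⟩]⟩]⟩,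
 ⟨nat_lit 3, [⟨nat_lit 3, [⟨nat_lit 3, nat_lit 10800, nat_lit 8928, nat_lit 15216, nat_lit 6288, nat_lit 10608, R4_317, R5_131, R11_221⟩]⟩, ⟨nat_lit 7, [⟨nat_lit 3, nat_lit 10704, nat_lit 16320, nat_lit 17760, nat_lit 6336, nat_lit 8208, R7_370, R5_132, R1_171⟩]⟩]⟩,
 ⟨nat_lit 6, [⟨nat_lit 2, [⟨nat_lit 2, nat_lit 14544, nat_lit 12960, nat_lit 16224, nat_lit 6384, nat_lit 8880, R7_338, R2_133, R10_185⟩]⟩]⟩]]], [[], [[], [], [⟨nat_lit 5, [⟨nat_lit 4, [⟨nat_lit 4, nat_lit 13392, nat_lit 7968, nat_lit 9120, nat_lit 16800, nat_lit 10608, R4_190, R7_350, R8_221⟩, ⟨nat_lit 5, nat_lit 13440, nat_lit 8064, nat_lit 9168, nat_lit 15024, nat_lit 528, R4_191, R2_313, R5_11⟩]⟩, ⟨nat_lit 6, [⟨nat_lit 4, nat_lit 13632, nat_lit 8016, nat_lit 16224, nat_lit 16896, nat_lit 11040, R3_338, R7_352, R9_230⟩, ⟨nat_lit 5, nat_lit 13728,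 nat_lit 8112, nat_lit 16320, nat_lit 15120, nat_lit 9552, R3_340, R2_315, R0_199⟩, ⟨nat_lit 6, nat_lit 13680, nat_lit 8160, nat_lit 16272, nat_lit 14640, nat_lit 9504, R3_339, R2_305, R0_198⟩]⟩]⟩]], [], [], [], [[⟨nat_lit 4, [⟨nat_lit 4, [⟨nat_lit 4, nat_lit 12576, nat_lit 7920, nat_lit 8352, nat_lit 14688, nat_lit 16416, R6_174, R6_306, R6_342⟩]⟩, ⟨nat_lit 6, [⟨nat_lit 4, nat_lit 12720, nat_lit 9168, nat_lit 19968, nat_lit 14880, nat_lit 15552, R13_416, R6_310, R8_324⟩, ⟨nat_lit 6, nat_lit 12864, nat_lit 11328, nat_lit 20016, nat_lit 10848, nat_lit 11328, R13_417, R13_226, R5_236⟩]⟩]⟩,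
 ⟨nat_lit 5, [⟨nat_lit 4, [⟨nat_lit 4, nat_lit 13488, nat_lit 8016, nat_lit 8976, nat_lit 14256, nat_lit 17088, R4_187, R4_297, R6_356⟩]⟩, ⟨nat_lit 6, [⟨nat_lit 4, nat_lit 13776, nat_lit 9264, nat_lit 16368, nat_lit 14400, nat_lit 16608, R3_341, R4_300, R8_346⟩, ⟨nat_lit 6, nat_lit 13920, nat_lit 11424, nat_lit 16416, nat_lit 8688, nat_lit 11472, R3_342, R3_181, R5_239⟩]⟩]⟩,
 ⟨nat_lit 6, [⟨nat_lit 6, [⟨nat_lit 6, nat_lit 14592, nat_lit 11472, nat_lit 8688, nat_lit 16416, nat_lit 11424, R3_181, R3_342, R5_238⟩]⟩]⟩,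
 ⟨nat_lit 7, [⟨nat_lit 4, [⟨nat_lit 4, nat_lit 16752, nat_lit 7968, nat_lit 4560, nat_lit 15504, nat_lit 16752, R8_95, R8_323, R6_349⟩, ⟨nat_lit 7, nat_lit 16896, nat_lit 10176, nat_lit 4992, nat_lit 9552, nat_lit 12624, R8_104, R5_199, R13_263⟩]⟩, ⟨nat_lit 6, [⟨nat_lit 4, nat_lit 17040, nat_lit 9216, nat_lit 16272, nat_lit 16176, nat_lit 16368, R9_339, R8_337, R8_341⟩, ⟨nat_lit 6, nat_lit 17184, nat_lit 11376, nat_lit 16320, nat_lit 8544, nat_lit 11376, R9_340, R9_178, R5_237⟩, ⟨nat_lit 7, nat_lit 17328, nat_lit 11040, nat_lit 16368, nat_lit 9600, nat_lit 9888, R9_341, R5_200, R9_206⟩]⟩, ⟨nat_lit 7, [⟨nat_lit 7, nat_lit 17424, nat_lit 10656, nat_lit 16944, nat_lit 9648, nat_lit 17664, R5_353, R5_201, R3_368⟩]⟩]⟩], [⟨nat_lit 4, [⟨nat_lit 4, [⟨nat_lit 4, nat_lit 12624, nat_lit 0, nat_lit 8400, nat_lit 14784,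 nat_lit 1968, R6_175, R6_308, R4_41⟩]⟩, ⟨nat_lit 6, [⟨nat_lit 4, nat_lit 12768, nat_lit 144, nat_lit 20064, nat_lit 15072, nat_lit 1104, R13_418, R6_314, R5_23⟩, ⟨nat_lit 6, nat_lit 12912, nat_lit 192, nat_lit 20112, nat_lit 10944, nat_lit 14304, R13_419, R13_228, R11_298⟩]⟩]⟩,
 ⟨nat_lit 5, [⟨nat_lit 4, [⟨nat_lit 4, nat_lit 13536, nat_lit 5568, nat_lit 9024, nat_lit 14352, nat_lit 10896, R4_188, R4_299, R4_227⟩]⟩, ⟨nat_lit 6, [⟨nat_lit 4, nat_lit 13824, nat_lit 5664, nat_lit 16464, nat_lit 14496, nat_lit 13152, R3_343, R4_302, R5_274⟩, ⟨nat_lit 6, nat_lit 13968, nat_lit 5712, nat_lit 16512, nat_lit 8784, nat_lit 14448, R3_344, R3_183, R11_301⟩]⟩]⟩,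
 ⟨nat_lit 6, [⟨nat_lit 2, [⟨nat_lit 2, nat_lit 14784, nat_lit 9360, nat_lit 14688, nat_lit 8064, nat_lit 9216, R2_306, R2_168, R10_192⟩, ⟨nat_lit 6, nat_lit 14736, nat_lit 9504, nat_lit 14640, nat_lit 16272, nat_lit 8160, R2_305, R3_339, R1_170⟩]⟩, ⟨nat_lit 6, [⟨nat_lit 6, nat_lit 14640, nat_lit 9888, nat_lit 8736, nat_lit 16608, nat_lit 14400, R3_182, R3_346, R11_300⟩]⟩]⟩,
 ⟨nat_lit 7, [⟨nat_lit 4, [⟨nat_lit 4, nat_lit 16800, nat_lit 7200, nat_lit 5328, nat_lit 17952, nat_lit 7488, R8_111, R8_374, R4_156⟩, ⟨nat_lit 7, nat_lit 16944, nat_lit 7248, nat_lit 5856, nat_lit 9792, nat_lit 2544, R8_122, R5_204, R3_53⟩]⟩, ⟨nat_lit 6, [⟨nat_lit 4, nat_lit 17088, nat_lit 7632, nat_lit 16416, nat_lit 18768, nat_lit 9456, R9_342, R8_391, R5_197⟩, ⟨nat_lit 6, nat_lit 17232, nat_lit 7728, nat_lit 16464, nat_lit 8640, nat_lit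 14352, R9_343, R9_180, R11_299⟩, ⟨nat_lit 7, nat_lit 17376, nat_lit 7680, nat_lit 16512, nat_lit 9840, nat_lit 9024, R9_344, R5_205, R0_188⟩]⟩, ⟨nat_lit 7, [⟨nat_lit 7, nat_lit 17472, nat_lit 7488, nat_lit 16992, nat_lit 9888, nat_lit 11808, R5_354, R5_206, R10_246⟩]⟩]⟩], [⟨nat_lit 4, [⟨nat_lit 4, [⟨nat_lit 4, nat_lit 12672, nat_lit 48, nat_lit 8448, nat_lit 14736, nat_lit 3120, R6_176, R6_307, R8_65⟩]⟩, ⟨nat_lit 6, [⟨nat_lit 4, nat_lit 12816, nat_lit 528, nat_lit 20160, nat_lit 14976, nat_lit 16128, R13_420, R6_312, R9_336⟩, ⟨nat_lit 6, nat_lit 12960, nat_lit 672, nat_lit 20208, nat_lit 10896, nat_lit 192, R13_421, R13_227, R0_4⟩]⟩]⟩,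
 ⟨nat_lit 5, [⟨nat_lit 4, [⟨nat_lit 4, nat_lit 13584, nat_lit 7536, nat_lit 9072, nat_lit 14304, nat_lit 10752, R4_189, R4_298, R8_224⟩]⟩, ⟨nat_lit 6, [⟨nat_lit 4, nat_lit 13872, nat_lit 7872, nat_lit 16560, nat_lit 14448, nat_lit 16656, R3_345, R4_301, R9_347⟩, ⟨nat_lit 6, nat_lit 14016, nat_lit 8016, nat_lit 16608, nat_lit 8736, nat_lit 9888, R3_346, R3_182, R0_206⟩]⟩]⟩,
 ⟨nat_lit 6, [⟨nat_lit 6, [⟨nat_lit 6, nat_lit 14688, nat_lit 16080, nat_lit 8784, nat_lit 16512, nat_lit 5712, R3_183, R3_344, R0_119⟩]⟩]⟩,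
 ⟨nat_lit 7, [⟨nat_lit 4, [⟨nat_lit 4, nat_lit 16848, nat_lit 10416, nat_lit 6288, nat_lit 16848, nat_lit 7824, R8_131, R8_351, R8_163⟩, ⟨nat_lit 7, nat_lit 16992, nat_lit 10560, nat_lit 6672, nat_lit 9696, nat_lit 1152, R8_139, R5_202, R9_24⟩]⟩, ⟨nat_lit 6, [⟨nat_lit 4, nat_lit 17136, nat_lit 11664, nat_lit 16560, nat_lit 17136, nat_lit 16560, R9_345, R8_357, R9_345⟩, ⟨nat_lit 6, nat_lit 17280, nat_lit 11904, nat_lit 16608, nat_lit 8592, nat_lit 7728, R9_346, R9_179, R0_161⟩]⟩, ⟨nat_lit 7, [⟨nat_lit 7, nat_lit 17520, nat_lit 11280, nat_lit 17040, nat_lit 9744, nat_lit 3936, R5_355, R5_203, R0_82⟩]⟩]⟩]]], [[], [], [], [], [[], [⟨nat_lit 0, [⟨nat_lit 3, [⟨nat_lit 3, nat_lit 3552, nat_lit 1872, nat_lit 288, nat_lit 9696, nat_lit 10656, R8_6, R6_202, R11_222⟩]⟩]⟩,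
 ⟨nat_lit 2, [⟨nat_lit 0, [⟨nat_lit 0, nat_lit 8016, nat_lit 1488, nat_lit 20496, nat_lit 6960, nat_lit 5184, R13_427, R6_145, R4_108⟩, ⟨nat_lit 2, nat_lit 8064, nat_lit 3840, nat_lit 20544, nat_lit 7584, nat_lit 3888, R13_428, R4_158, R3_81⟩]⟩, ⟨nat_lit 2, [⟨nat_lit 2, nat_lit 8352, nat_lit 3936, nat_lit 3264, nat_lit 7632, nat_lit 8976, R3_68, R4_159, R10_187⟩]⟩, ⟨nat_lit 3, [⟨nat_lit 0, nat_lit 8688, nat_lit 1536, nat_lit 16848, nat_lit 7008, nat_lit 8544, R9_351, R6_146, R5_178⟩, ⟨nat_lit 2, nat_lit 8736, nat_lit 3888, nat_lit 16896, nat_lit 7680, nat_lit 7296, R9_352, R4_160, R0_152⟩, ⟨nat_lit 3, nat_lit 8784, nat_lit 2400, nat_lit 16944, nat_lit 9120, nat_lit 10704, R9_353, R8_190, R11_223⟩]⟩]⟩,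
 ⟨nat_lit 3, [⟨nat_lit 3, [⟨nat_lit 3, nat_lit 10848, nat_lit 2064, nat_lit 17184, nat_lit 10656, nat_lit 10752, R5_358, R4_222, R11_224⟩]⟩]⟩,
 ⟨nat_lit 6, [⟨nat_lit 2, [⟨nat_lit 2, nat_lit 14880, nat_lit 2928, nat_lit 14976, nat_lit 9024, nat_lit 9024, R2_312, R7_188, R10_188⟩, ⟨nat_lit 6, nat_lit 14832, nat_lit 528, nat_lit 15024, nat_lit 9168, nat_lit 8064, R2_313, R4_191, R1_168⟩]⟩]⟩]], [[], [⟨nat_lit 6, [⟨nat_lit 2, [⟨nat_lit 2, nat_lit 14976, nat_lit 9696, nat_lit 15072, nat_lit 8112, nat_lit 9168, R2_314, R2_169, R10_191⟩, ⟨nat_lit 6, nat_lit 14928, nat_lit 9552, nat_lit 15120, nat_lit 16320, nat_lit 8112, R2_315, R3_340, R1_169⟩]⟩]⟩]], [[], [⟨nat_lit 0, [⟨nat_lit 0, [⟨nat_lit 0, nat_lit 3264, nat_lit 288, nat_lit 3792, nat_lit 2784, nat_lit 0, R6_79, R6_58, R4_0⟩]⟩, ⟨nat_lit 3, [⟨nat_lit 0, nat_lit 3600,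 nat_lit 336, nat_lit 1536, nat_lit 2928, nat_lit 1872, R8_32, R6_61, R5_39⟩, ⟨nat_lit 3, nat_lit 3648, nat_lit 1872, nat_lit 2208, nat_lit 2544, nat_lit 10800, R8_46, R8_53, R11_225⟩]⟩]⟩,
 ⟨nat_lit 2, [⟨nat_lit 0, [⟨nat_lit 0, nat_lit 8112, nat_lit 1056, nat_lit 20592, nat_lit 8544, nat_lit 5232, R13_429, R13_178, R4_109⟩, ⟨nat_lit 2, nat_lit 8208, nat_lit 3840, nat_lit 20640, nat_lit 2352, nat_lit 3984, R13_430, R3_49, R3_83⟩]⟩, ⟨nat_lit 2, [⟨nat_lit 2, nat_lit 8400, nat_lit 3936, nat_lit 3312, nat_lit 2496, nat_lit 9072, R3_69, R3_52, R10_189⟩]⟩, ⟨nat_lit 3, [⟨nat_lit 0, nat_lit 8832, nat_lit 1104, nat_lit 16992, nat_lit 8592, nat_lit 10368, R9_354, R13_179, R5_216⟩, ⟨nat_lit 2, nat_lit 8880, nat_lit 3888, nat_lit 17040, nat_lit 2640, nat_lit 7344, R9_355, R3_55, R0_153⟩, ⟨nat_lit 3, nat_lit 8928, nat_lit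 2400, nat_lit 17088, nat_lit 6192, nat_lit 10848, R9_356, R9_129, R11_226⟩]⟩]⟩,
 ⟨nat_lit 3, [⟨nat_lit 3, [⟨nat_lit 3, nat_lit 10896, nat_lit 2064, nat_lit 17232, nat_lit 6432, nat_lit 10896, R5_359, R5_134, R11_227⟩]⟩]⟩,
 ⟨nat_lit 6, [⟨nat_lit 2, [⟨nat_lit 2, nat_lit 15024, nat_lit 2928, nat_lit 15168, nat_lit 6432, nat_lit 9120, R2_316, R2_134, R10_190⟩]⟩]⟩], [], [], [], [⟨nat_lit 0, [⟨nat_lit 0, [⟨nat_lit 0, nat_lit 3312, nat_lit 576, nat_lit 3840, nat_lit 2736, nat_lit 96, R6_80, R6_57, R7_2⟩, ⟨nat_lit 3, nat_lit 3360, nat_lit 864, nat_lit 3888, nat_lit 1680, nat_lit 1488, R6_81, R8_35, R2_31⟩]⟩, ⟨nat_lit 1, [⟨nat_lit 0, nat_lit 3408, nat_lit 624, nat_lit 4080, nat_lit 3072, nat_lit 15744, R4_85, R6_64, R14_328⟩, ⟨nat_lit 1, nat_lit 3456, nat_lit 768, nat_lit 4176, nat_lit 2736, nat_lit 12816, R4_87, R4_57,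 R12_267⟩, ⟨nat_lit 3, nat_lit 3504, nat_lit 912, nat_lit 4128, nat_lit 2880, nat_lit 6768, R4_86, R8_60, R12_141⟩]⟩, ⟨nat_lit 3, [⟨nat_lit 3, nat_lit 3696, nat_lit 960, nat_lit 2256, nat_lit 2496, nat_lit 960, R8_47, R8_52, R1_20⟩]⟩]⟩,
 ⟨nat_lit 2, [⟨nat_lit 0, [⟨nat_lit 0, nat_lit 8160, nat_lit 672, nat_lit 20352, nat_lit 8688, nat_lit 5040, R13_424, R13_181, R7_105⟩, ⟨nat_lit 2, nat_lit 8256, nat_lit 1248, nat_lit 20400, nat_lit 2304, nat_lit 3456, R13_425, R3_48, R2_72⟩, ⟨nat_lit 3, nat_lit 8304, nat_lit 1056, nat_lit 20448, nat_lit 6336, nat_lit 8544, R13_426, R9_132, R2_178⟩]⟩, ⟨nat_lit 1, [⟨nat_lit 0, nat_lit 8496, nat_lit 720, nat_lit 16848, nat_lit 8736, nat_lit 16176, R3_351, R13_182, R14_337⟩, ⟨nat_lit 1, nat_lit 8592, nat_lit 816, nat_lit 16992, nat_lit 7056, nat_lit 13248, R3_354, R3_147, R12_276⟩,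 ⟨nat_lit 2, nat_lit 8544, nat_lit 1296, nat_lit 16896, nat_lit 2736, nat_lit 13152, R3_352, R3_57, R12_274⟩, ⟨nat_lit 3, nat_lit 8640, nat_lit 1104, nat_lit 16944, nat_lit 6432, nat_lit 8160, R3_353, R9_134, R12_170⟩]⟩, ⟨nat_lit 2, [⟨nat_lit 2, nat_lit 8448, nat_lit 1344, nat_lit 3360, nat_lit 2448, nat_lit 2928, R3_70, R3_51, R1_61⟩]⟩, ⟨nat_lit 3, [⟨nat_lit 3, nat_lit 8976, nat_lit 1152, nat_lit 16800, nat_lit 6384, nat_lit 9360, R9_350, R9_133, R1_195⟩]⟩]⟩,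
 ⟨nat_lit 3, [⟨nat_lit 3, [⟨nat_lit 3, nat_lit 10944, nat_lit 1008, nat_lit 17136, nat_lit 6528, nat_lit 6384, R5_357, R5_136, R1_133⟩]⟩]⟩,
 ⟨nat_lit 6, [⟨nat_lit 2, [⟨nat_lit 2, nat_lit 15072, nat_lit 1200, nat_lit 14928, nat_lit 6480, nat_lit 13392, R2_311, R2_135, R1_279⟩]⟩]⟩]]], [[], [], [], [], [[⟨nat_lit 0, [⟨nat_lit 7, [⟨nat_lit 3, nat_lit 3744, nat_lit 2976, nat_lit 288, nat_lit 8688, nat_lit 8160, R7_6, R6_181, R2_170⟩]⟩]⟩,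
 ⟨nat_lit 3, [⟨nat_lit 4, [⟨nat_lit 7, nat_lit 10992, nat_lit 1248, nat_lit 5136, nat_lit 9168, nat_lit 11040, R7_107, R7_191, R13_230⟩]⟩, ⟨nat_lit 7, [⟨nat_lit 3, nat_lit 11712, nat_lit 3264, nat_lit 18864, nat_lit 9312, nat_lit 8208, R14_393, R4_194, R2_171⟩, ⟨nat_lit 7, nat_lit 11568, nat_lit 1296, nat_lit 18816, nat_lit 9216, nat_lit 11904, R14_392, R7_192, R3_248⟩]⟩]⟩,
 ⟨nat_lit 7, [⟨nat_lit 4, [⟨nat_lit 4, nat_lit 17568, nat_lit 96, nat_lit 4752, nat_lit 5040, nat_lit 12000, R4_99, R6_105, R6_250⟩, ⟨nat_lit 7, nat_lit 17712, nat_lit 672, nat_lit 5328, nat_lit 5328, nat_lit 10992, R4_111, R4_111, R13_229⟩]⟩, ⟨nat_lit 6, [⟨nat_lit 4, nat_lit 18288, nat_lit 144, nat_lit 9168, nat_lit 5088, nat_lit 12432, R5_191, R6_106, R8_259⟩, ⟨nat_lit 6, nat_lit 18432, nat_lit 2016, nat_lit 9552, nat_lit 7872, nat_lit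 10176, R5_199, R8_164, R5_212⟩, ⟨nat_lit 7, nat_lit 18576, nat_lit 720, nat_lit 9936, nat_lit 5376, nat_lit 8784, R5_207, R4_112, R9_183⟩]⟩]⟩], [⟨nat_lit 0, [⟨nat_lit 3, [⟨nat_lit 3, nat_lit 4272, nat_lit 2208, nat_lit 192, nat_lit 9456, nat_lit 10944, R4_4, R6_197, R11_228⟩]⟩, ⟨nat_lit 7, [⟨nat_lit 3, nat_lit 3792, nat_lit 2256, nat_lit 384, nat_lit 9504, nat_lit 8976, R7_8, R6_198, R1_187⟩]⟩]⟩,
 ⟨nat_lit 2, [⟨nat_lit 3, [⟨nat_lit 0, nat_lit 9024, nat_lit 2016, nat_lit 2208, nat_lit 6912, nat_lit 8256, R5_46, R6_144, R5_172⟩, ⟨nat_lit 2, nat_lit 9072, nat_lit 3552, nat_lit 2304, nat_lit 7536, nat_lit 7392, R5_48, R4_157, R0_154⟩, ⟨nat_lit 3, nat_lit 9120, nat_lit 2688, nat_lit 2400, nat_lit 8784, nat_lit 10992, R5_50, R8_183, R11_229⟩]⟩]⟩,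
 ⟨nat_lit 3, [⟨nat_lit 4, [⟨nat_lit 7, nat_lit 11040, nat_lit 480, nat_lit 6240, nat_lit 11040, nat_lit 1680, R7_130, R7_230, R3_35⟩]⟩, ⟨nat_lit 7, [⟨nat_lit 3, nat_lit 11760, nat_lit 2352, nat_lit 18960, nat_lit 10416, nat_lit 9024, R14_395, R4_217, R1_188⟩, ⟨nat_lit 7, nat_lit 11616, nat_lit 528, nat_lit 18912, nat_lit 11088, nat_lit 10416, R14_394, R7_231, R10_217⟩]⟩]⟩,
 ⟨nat_lit 7, [⟨nat_lit 4, [⟨nat_lit 4, nat_lit 17616, nat_lit 0, nat_lit 6048, nat_lit 7056, nat_lit 5712, R4_126, R6_147, R4_119⟩, ⟨nat_lit 7, nat_lit 17760, nat_lit 240, nat_lit 6624, nat_lit 7728, nat_lit 1008, R4_138, R4_161, R3_21⟩]⟩, ⟨nat_lit 6, [⟨nat_lit 4, nat_lit 18336, nat_lit 48, nat_lit 9312, nat_lit 7104, nat_lit 8112, R5_194, R6_148, R5_169⟩, ⟨nat_lit 6, nat_lit 18480, nat_lit 1152, nat_lit 9696, nat_lit 7968, nat_lit 13440,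 R5_202, R8_166, R11_280⟩, ⟨nat_lit 7, nat_lit 18624, nat_lit 288, nat_lit 10032, nat_lit 7776, nat_lit 8304, R5_209, R4_162, R0_173⟩]⟩]⟩], [⟨nat_lit 3, [⟨nat_lit 4, [⟨nat_lit 7, nat_lit 11088, nat_lit 1680, nat_lit 7680, nat_lit 9936, nat_lit 480, R7_160, R7_207, R9_10⟩]⟩, ⟨nat_lit 7, [⟨nat_lit 7, nat_lit 11664, nat_lit 1728, nat_lit 19056, nat_lit 9984, nat_lit 12720, R14_397, R7_208, R0_265⟩]⟩]⟩,
 ⟨nat_lit 7, [⟨nat_lit 4, [⟨nat_lit 4, nat_lit 17664, nat_lit 288, nat_lit 7392, nat_lit 6384, nat_lit 7488, R4_154, R6_133, R8_156⟩, ⟨nat_lit 7, nat_lit 17808, nat_lit 1008, nat_lit 7728, nat_lit 6624, nat_lit 240, R4_161, R4_138, R9_5⟩]⟩, ⟨nat_lit 6, [⟨nat_lit 4, nat_lit 18384, nat_lit 336, nat_lit 9408, nat_lit 6432, nat_lit 13248, R5_196, R6_134, R9_276⟩, ⟨nat_lit 6, nat_lit 18528, nat_lit 2544, nat_lit 9792,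 nat_lit 7920, nat_lit 7248, R5_204, R8_165, R0_151⟩]⟩]⟩], [⟨nat_lit 0, [⟨nat_lit 7, [⟨nat_lit 3, nat_lit 3840, nat_lit 11664, nat_lit 336, nat_lit 9120, nat_lit 6864, R7_7, R6_190, R12_143⟩]⟩]⟩,
 ⟨nat_lit 3, [⟨nat_lit 4, [⟨nat_lit 3, nat_lit 11184, nat_lit 13632, nat_lit 7296, nat_lit 9792, nat_lit 240, R7_152, R4_204, R2_5⟩, ⟨nat_lit 7, nat_lit 11136, nat_lit 12384, nat_lit 6768, nat_lit 10656, nat_lit 12384, R7_141, R7_222, R3_258⟩]⟩, ⟨nat_lit 7, [⟨nat_lit 3, nat_lit 11808, nat_lit 13968, nat_lit 19008, nat_lit 9840, nat_lit 6912, R14_396, R4_205, R12_144⟩]⟩]⟩,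
 ⟨nat_lit 7, [⟨nat_lit 4, [⟨nat_lit 7, nat_lit 17856, nat_lit 4368, nat_lit 7056, nat_lit 7056, nat_lit 4368, R4_147, R4_147, R3_91⟩]⟩, ⟨nat_lit 6, [⟨nat_lit 7, nat_lit 18672, nat_lit 4560, nat_lit 10080, nat_lit 7104, nat_lit 11856, R5_210, R4_148, R0_247⟩]⟩]⟩]], [[⟨nat_lit 7, [⟨nat_lit 4, [⟨nat_lit 4, nat_lit 17904, nat_lit 7968, nat_lit 4848, nat_lit 15456, nat_lit 15456, R4_101, R8_322, R6_322⟩, ⟨nat_lit 7, nat_lit 18000, nat_lit 8784, nat_lit 5376, nat_lit 9936, nat_lit 12240, R4_112, R5_207, R13_255⟩]⟩, ⟨nat_lit 6, [⟨nat_lit 4, nat_lit 18720, nat_lit 8400, nat_lit 9216, nat_lit 16128, nat_lit 16224, R5_192, R8_336, R8_338⟩, ⟨nat_lit 6, nat_lit 18816, nat_lit 9888, nat_lit 9600, nat_lit 8688, nat_lit 11040, R5_200, R9_181, R5_230⟩, ⟨nat_lit 7, nat_lit 18912, nat_lit 9504, nat_lit 9984, nat_lit 9984, nat_lit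 9504, R5_208, R5_208, R9_198⟩]⟩]⟩], [], [⟨nat_lit 7, [⟨nat_lit 4, [⟨nat_lit 4, nat_lit 17952, nat_lit 7200, nat_lit 7488, nat_lit 16800, nat_lit 7776, R4_156, R8_350, R8_162⟩, ⟨nat_lit 7, nat_lit 18048, nat_lit 8304, nat_lit 7776, nat_lit 10032, nat_lit 288, R4_162, R5_209, R9_6⟩]⟩, ⟨nat_lit 6, [⟨nat_lit 4, nat_lit 18768, nat_lit 7632, nat_lit 9456, nat_lit 17088, nat_lit 16416, R5_197, R8_356, R9_342⟩, ⟨nat_lit 6, nat_lit 18864, nat_lit 9024, nat_lit 9840, nat_lit 8736, nat_lit 7680, R5_205, R9_182, R0_160⟩]⟩]⟩], [⟨nat_lit 7, [⟨nat_lit 4, [⟨nat_lit 7, nat_lit 18096, nat_lit 11856, nat_lit 7104, nat_lit 10080, nat_lit 4560, R4_148, R5_210, R3_95⟩]⟩, ⟨nat_lit 6, [⟨nat_lit 7, nat_lit 18960, nat_lit 14736, nat_lit 10128, nat_lit 10128, nat_lit 14736, R5_211, R5_211, R0_307⟩]⟩]⟩]], [[⟨nat_lit 0, [⟨nat_lit 7, [⟨nat_lit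 3, nat_lit 3888, nat_lit 7632, nat_lit 2352, nat_lit 1344, nat_lit 8784, R7_49, R8_28, R2_183⟩]⟩]⟩,
 ⟨nat_lit 3, [⟨nat_lit 7, [⟨nat_lit 3, nat_lit 11856, nat_lit 7680, nat_lit 19248, nat_lit 6048, nat_lit 8832, R14_401, R5_126, R2_184⟩]⟩]⟩], [⟨nat_lit 0, [⟨nat_lit 3, [⟨nat_lit 0, nat_lit 4320, nat_lit 96, nat_lit 2016, nat_lit 2880, nat_lit 1824, R4_42, R6_60, R5_38⟩, ⟨nat_lit 3, nat_lit 4368, nat_lit 672, nat_lit 2496, nat_lit 960, nat_lit 11040, R4_52, R8_20, R11_230⟩]⟩, ⟨nat_lit 7, [⟨nat_lit 3, nat_lit 3936, nat_lit 720, nat_lit 2448, nat_lit 1440, nat_lit 9600, R7_51, R8_30, R1_200⟩]⟩]⟩,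
 ⟨nat_lit 2, [⟨nat_lit 3, [⟨nat_lit 0, nat_lit 9168, nat_lit 336, nat_lit 2256, nat_lit 8496, nat_lit 10272, R5_47, R13_177, R5_214⟩, ⟨nat_lit 2, nat_lit 9216, nat_lit 2016, nat_lit 2352, nat_lit 2592, nat_lit 7440, R5_49, R3_54, R0_155⟩, ⟨nat_lit 3, nat_lit 9264, nat_lit 1152, nat_lit 2496, nat_lit 6144, nat_lit 11088, R5_52, R9_128, R11_231⟩]⟩]⟩,
 ⟨nat_lit 3, [⟨nat_lit 7, [⟨nat_lit 3, nat_lit 11904, nat_lit 816, nat_lit 19296, nat_lit 6384, nat_lit 9648, R14_402, R5_133, R1_201⟩]⟩]⟩], [], [⟨nat_lit 0, [⟨nat_lit 7, [⟨nat_lit 3, nat_lit 3984, nat_lit 1152, nat_lit 2400, nat_lit 1392, nat_lit 6960, R7_50, R8_29, R12_145⟩]⟩]⟩,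
 ⟨nat_lit 3, [⟨nat_lit 4, [⟨nat_lit 3, nat_lit 11232, nat_lit 1584, nat_lit 7344, nat_lit 6096, nat_lit 288, R7_153, R5_127, R2_6⟩]⟩, ⟨nat_lit 7, [⟨nat_lit 3, nat_lit 11952, nat_lit 1632, nat_lit 19344, nat_lit 6144, nat_lit 7008, R14_403, R5_128, R12_146⟩]⟩]⟩]], [[⟨nat_lit 0, [⟨nat_lit 7, [⟨nat_lit 3, nat_lit 4176, nat_lit 12768, nat_lit 816, nat_lit 1728, nat_lit 9696, R7_17, R4_36, R2_202⟩, ⟨nat_lit 7, nat_lit 4032, nat_lit 14352, nat_lit 1392, nat_lit 1824, nat_lit 14352, R7_29, R7_38, R3_299⟩]⟩]⟩,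
 ⟨nat_lit 3, [⟨nat_lit 4, [⟨nat_lit 4, nat_lit 11280, nat_lit 11040, nat_lit 4752, nat_lit 15696, nat_lit 13008, R7_99, R7_327, R6_271⟩, ⟨nat_lit 7, nat_lit 11424, nat_lit 11904, nat_lit 5184, nat_lit 8880, nat_lit 11808, R7_108, R14_185, R13_246⟩]⟩, ⟨nat_lit 7, [⟨nat_lit 7, nat_lit 12000, nat_lit 14592, nat_lit 19104, nat_lit 8928, nat_lit 14592, R14_398, R14_186, R3_304⟩]⟩]⟩,
 ⟨nat_lit 7, [⟨nat_lit 4, [⟨nat_lit 4, nat_lit 18144, nat_lit 11376, nat_lit 4800, nat_lit 14160, nat_lit 13344, R4_100, R4_295, R6_278⟩]⟩, ⟨nat_lit 6, [⟨nat_lit 4, nat_lit 19008, nat_lit 16368, nat_lit 9264, nat_lit 14400, nat_lit 14208, R5_193, R4_300, R8_296⟩, ⟨nat_lit 6, nat_lit 19152, nat_lit 17664, nat_lit 9648, nat_lit 16944, nat_lit 10656, R5_201, R5_353, R5_222⟩]⟩]⟩], [⟨nat_lit 0, [⟨nat_lit 3, [⟨nat_lit 3, nat_lit 4416, nat_lit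 11712, nat_lit 768, nat_lit 1248, nat_lit 11136, R4_16, R4_26, R11_232⟩]⟩, ⟨nat_lit 7, [⟨nat_lit 3, nat_lit 4224, nat_lit 11520, nat_lit 864, nat_lit 1776, nat_lit 10512, R7_18, R4_37, R1_219⟩, ⟨nat_lit 7, nat_lit 4080, nat_lit 11280, nat_lit 1440, nat_lit 1920, nat_lit 10992, R7_30, R7_40, R10_229⟩]⟩]⟩,
 ⟨nat_lit 2, [⟨nat_lit 3, [⟨nat_lit 3, nat_lit 9312, nat_lit 14544, nat_lit 2448, nat_lit 384, nat_lit 11184, R5_51, R5_8, R11_233⟩]⟩]⟩,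
 ⟨nat_lit 3, [⟨nat_lit 4, [⟨nat_lit 4, nat_lit 11328, nat_lit 12144, nat_lit 5616, nat_lit 17424, nat_lit 12480, R7_117, R7_363, R4_260⟩, ⟨nat_lit 7, nat_lit 11472, nat_lit 12720, nat_lit 6288, nat_lit 9072, nat_lit 1728, R7_131, R14_189, R3_36⟩]⟩, ⟨nat_lit 7, [⟨nat_lit 7, nat_lit 12048, nat_lit 12864, nat_lit 19152, nat_lit 9120, nat_lit 11040, R14_399, R14_190, R10_230⟩]⟩]⟩,
 ⟨nat_lit 7, [⟨nat_lit 4, [⟨nat_lit 4, nat_lit 18192, nat_lit 2160, nat_lit 6096, nat_lit 15024, nat_lit 5904, R4_127, R4_313, R4_123⟩]⟩, ⟨nat_lit 6, [⟨nat_lit 4, nat_lit 19056, nat_lit 2256, nat_lit 9360, nat_lit 15312, nat_lit 8832, R5_195, R4_319, R5_184⟩, ⟨nat_lit 6, nat_lit 19200, nat_lit 3936, nat_lit 9744, nat_lit 17040, nat_lit 13920, R5_203, R5_355, R11_290⟩]⟩]⟩], [⟨nat_lit 0, [⟨nat_lit 7, [⟨nat_lit 7, nat_lit 4128, nat_lit 10992,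 nat_lit 1488, nat_lit 1872, nat_lit 11280, R7_31, R7_39, R0_235⟩]⟩]⟩,
 ⟨nat_lit 3, [⟨nat_lit 4, [⟨nat_lit 4, nat_lit 11376, nat_lit 8784, nat_lit 7584, nat_lit 16752, nat_lit 14400, R7_158, R7_349, R8_300⟩, ⟨nat_lit 7, nat_lit 11520, nat_lit 10416, nat_lit 7728, nat_lit 8976, nat_lit 528, R7_161, R14_187, R9_11⟩]⟩, ⟨nat_lit 7, [⟨nat_lit 7, nat_lit 12096, nat_lit 11040, nat_lit 19200, nat_lit 9024, nat_lit 12864, R14_400, R14_188, R0_268⟩]⟩]⟩,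
 ⟨nat_lit 7, [⟨nat_lit 4, [⟨nat_lit 4, nat_lit 18240, nat_lit 8736, nat_lit 7440, nat_lit 14640, nat_lit 7632, R4_155, R4_305, R8_159⟩]⟩, ⟨nat_lit 6, [⟨nat_lit 4, nat_lit 19104, nat_lit 9456, nat_lit 9504, nat_lit 14736, nat_lit 15360, R5_198, R4_307, R9_320⟩, ⟨nat_lit 6, nat_lit 19248, nat_lit 11808, nat_lit 9888, nat_lit 16992, nat_lit 7488, R5_206, R5_354, R0_156⟩]⟩]⟩]]]]
noncomputable def N3460 : T3 (List N0) := [[[[], [], [⟨nat_lit 1, [⟨nat_lit 4, [⟨nat_lit 5, nat_lit 1008, nat_lit 6768, nat_lit 3120, nat_lit 4320, nat_lit 672, R6_65, R3_90, R4_14⟩]⟩]⟩], [], [], [], [⟨nat_lit 1, [⟨nat_lit 4, [⟨nat_lit 1, nat_lit 3600, nat_lit 7008, nat_lit 3312, nat_lit 96, nat_lit 3504, R6_69, R2_2, R4_73⟩, ⟨nat_lit 5, nat_lit 1584, nat_lit 6576, nat_lit 3264, nat_lit 12336, nat_lit 3600, R6_68, R3_257, R7_75⟩]⟩, ⟨nat_lit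 5, [⟨nat_lit 1, nat_lit 9888, nat_lit 7056, nat_lit 12960, nat_lit 144, nat_lit 13728, R13_270, R2_3, R3_286⟩, ⟨nat_lit 5, nat_lit 8304, nat_lit 6624, nat_lit 13008, nat_lit 12480, nat_lit 1968, R13_271, R3_260, R2_41⟩]⟩]⟩]], [], [[], [], [], [], [], [], [⟨nat_lit 1, [⟨nat_lit 4, [⟨nat_lit 1, nat_lit 3648, nat_lit 15888, nat_lit 3360, nat_lit 144, nat_lit 3552, R6_70, R12_3, R4_74⟩]⟩, ⟨nat_lit 5, [⟨nat_lit 1, nat_lit 9936, nat_lit 16416, nat_lit 13104, nat_lit 432, nat_lit 14064, R13_273, R12_9, R3_293⟩]⟩]⟩]], [[], [], [⟨nat_lit 1, [⟨nat_lit 4, [⟨nat_lit 5, nat_lit 1056, nat_lit 8688, nat_lit 3168, nat_lit 11616, nat_lit 720, R6_66, R0_242, R4_15⟩]⟩]⟩]]], [[[], [], [⟨nat_lit 1, [⟨nat_lit 4, [⟨nat_lit 5, nat_lit 1104, nat_lit 5472, nat_lit 2784, nat_lit 4896, nat_lit 816, R4_58, R3_102, R4_17⟩]⟩]⟩], [], [], [],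 [⟨nat_lit 1, [⟨nat_lit 4, [⟨nat_lit 1, nat_lit 3696, nat_lit 5232, nat_lit 3024, nat_lit 5808, nat_lit 3936, R4_63, R2_121, R4_82⟩, ⟨nat_lit 5, nat_lit 1632, nat_lit 4752, nat_lit 2928, nat_lit 13104, nat_lit 3936, R4_61, R3_273, R7_82⟩]⟩, ⟨nat_lit 5, [⟨nat_lit 1, nat_lit 10032, nat_lit 5280, nat_lit 9648, nat_lit 5856, nat_lit 13824, R3_201, R2_122, R3_288⟩, ⟨nat_lit 5, nat_lit 8352, nat_lit 4800, nat_lit 9696, nat_lit 13248, nat_lit 2304, R3_202, R3_276, R2_48⟩]⟩]⟩]], [[], [], [⟨nat_lit 1, [⟨nat_lit 4, [⟨nat_lit 5, nat_lit 1152, nat_lit 4032, nat_lit 2832, nat_lit 4608, nat_lit 912, R4_59, R10_96, R4_19⟩]⟩]⟩,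
 ⟨nat_lit 5, [⟨nat_lit 4, [⟨nat_lit 5, nat_lit 624, nat_lit 18432, nat_lit 2736, nat_lit 12720, nat_lit 1296, R7_57, R1_265, R4_27⟩]⟩, ⟨nat_lit 6, [⟨nat_lit 5, nat_lit 7008, nat_lit 18576, nat_lit 3072, nat_lit 12816, nat_lit 4848, R2_64, R1_267, R3_101⟩]⟩]⟩], [], [], [], [⟨nat_lit 1, [⟨nat_lit 4, [⟨nat_lit 1, nat_lit 3792, nat_lit 3936, nat_lit 3072, nat_lit 4512, nat_lit 4032, R4_64, R1_94, R4_84⟩, ⟨nat_lit 5, nat_lit 1680, nat_lit 3456, nat_lit 2976, nat_lit 5232, nat_lit 3984, R4_62, R10_109, R7_83⟩]⟩, ⟨nat_lit 5, [⟨nat_lit 1, nat_lit 10128, nat_lit 3984, nat_lit 9744, nat_lit 4560, nat_lit 14304, R3_203, R1_95, R3_298⟩, ⟨nat_lit 5, nat_lit 8400, nat_lit 3504, nat_lit 9792, nat_lit 5280, nat_lit 2352, R3_204, R10_110, R2_49⟩]⟩]⟩,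
 ⟨nat_lit 5, [⟨nat_lit 4, [⟨nat_lit 5, nat_lit 1440, nat_lit 15216, nat_lit 2784, nat_lit 12576, nat_lit 3888, R7_58, R1_262, R7_81⟩]⟩, ⟨nat_lit 5, [⟨nat_lit 5, nat_lit 8112, nat_lit 15264, nat_lit 864, nat_lit 12672, nat_lit 2256, R2_18, R1_264, R2_47⟩]⟩, ⟨nat_lit 6, [⟨nat_lit 5, nat_lit 7344, nat_lit 15360, nat_lit 3024, nat_lit 12624, nat_lit 48, R2_63, R1_263, R2_1⟩]⟩]⟩]], [[], [], [], [], [], [], [⟨nat_lit 1, [⟨nat_lit 4, [⟨nat_lit 1, nat_lit 3744, nat_lit 12960, nat_lit 3120, nat_lit 576, nat_lit 3984, R4_65, R12_12, R4_83⟩]⟩, ⟨nat_lit 5, [⟨nat_lit 1, nat_lit 10080, nat_lit 13488, nat_lit 9840, nat_lit 624, nat_lit 14208, R3_205, R12_13, R3_296⟩]⟩]⟩]], [[], [], [⟨nat_lit 1, [⟨nat_lit 4, [⟨nat_lit 5, nat_lit 1200, nat_lit 432, nat_lit 2880, nat_lit 11664, nat_lit 864, R4_60, R0_243, R4_18⟩]⟩]⟩]]], [[],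 [], [[], [], [], [], [], [], [⟨nat_lit 1, [⟨nat_lit 5, [⟨nat_lit 1, nat_lit 9984, nat_lit 13200, nat_lit 2880, nat_lit 2496, nat_lit 14112, R3_60, R12_52, R3_294⟩]⟩]⟩]]], [[], [], [], [[], [], [⟨nat_lit 1, [⟨nat_lit 4, [⟨nat_lit 5, nat_lit 1248, nat_lit 11136, nat_lit 2784, nat_lit 11712, nat_lit 768, R8_58, R0_244, R4_16⟩]⟩]⟩]]], [[], [], [], [], [[], [⟨nat_lit 6, [⟨nat_lit 2, [⟨nat_lit 6, nat_lit 12576, nat_lit 10656, nat_lit 17328, nat_lit 6000, nat_lit 7680, R7_361, R5_125, R2_160⟩]⟩]⟩]], [[], [⟨nat_lit 6, [⟨nat_lit 2, [⟨nat_lit 6, nat_lit 12672, nat_lit 11280, nat_lit 17472, nat_lit 12240, nat_lit 7776, R7_364, R0_255, R2_162⟩]⟩]⟩]], [[⟨nat_lit 0, [⟨nat_lit 3, [⟨nat_lit 0, nat_lit 14064, nat_lit 4560, nat_lit 16320, nat_lit 8592, nat_lit 5472, R6_340, R4_179, R6_114⟩, ⟨nat_lit 3, nat_lit 14928, nat_lit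 5664, nat_lit 16368, nat_lit 4368, nat_lit 5808, R6_341, R5_91, R4_121⟩]⟩]⟩,
 ⟨nat_lit 2, [⟨nat_lit 0, [⟨nat_lit 2, nat_lit 12240, nat_lit 1920, nat_lit 15120, nat_lit 2736, nat_lit 8304, R6_315, R10_57, R6_173⟩]⟩, ⟨nat_lit 2, [⟨nat_lit 2, nat_lit 13104, nat_lit 10848, nat_lit 14544, nat_lit 2784, nat_lit 8880, R4_303, R10_58, R4_185⟩]⟩, ⟨nat_lit 3, [⟨nat_lit 0, nat_lit 14160, nat_lit 4800, nat_lit 18144, nat_lit 11376, nat_lit 5520, R8_378, R3_237, R6_115⟩, ⟨nat_lit 2, nat_lit 14640, nat_lit 7440, nat_lit 18240, nat_lit 2832, nat_lit 7632, R8_380, R10_59, R8_159⟩, ⟨nat_lit 3, nat_lit 15024, nat_lit 6096, nat_lit 18192, nat_lit 2160, nat_lit 5904, R8_379, R0_45, R4_123⟩]⟩]⟩,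
 ⟨nat_lit 3, [⟨nat_lit 3, [⟨nat_lit 3, nat_lit 15120, nat_lit 5856, nat_lit 15120, nat_lit 4368, nat_lit 5856, R4_315, R11_91, R4_122⟩]⟩, ⟨nat_lit 7, [⟨nat_lit 3, nat_lit 11856, nat_lit 12432, nat_lit 17568, nat_lit 4416, nat_lit 8832, R7_366, R11_92, R7_184⟩, ⟨nat_lit 7, nat_lit 11040, nat_lit 13056, nat_lit 17616, nat_lit 2592, nat_lit 8928, R7_367, R1_54, R4_186⟩]⟩]⟩,
 ⟨nat_lit 4, [⟨nat_lit 6, [⟨nat_lit 4, nat_lit 4560, nat_lit 14064, nat_lit 16320, nat_lit 8592, nat_lit 5472, R6_340, R4_179, R6_114⟩, ⟨nat_lit 6, nat_lit 5664, nat_lit 14928, nat_lit 16368, nat_lit 4368, nat_lit 5808, R6_341, R5_91, R4_121⟩]⟩]⟩,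
 ⟨nat_lit 6, [⟨nat_lit 2, [⟨nat_lit 2, nat_lit 13056, nat_lit 11040, nat_lit 17616, nat_lit 2592, nat_lit 8928, R7_367, R1_54, R4_186⟩, ⟨nat_lit 6, nat_lit 12432, nat_lit 11856, nat_lit 17568, nat_lit 4416, nat_lit 8832, R7_366, R11_92, R7_184⟩]⟩, ⟨nat_lit 6, [⟨nat_lit 6, nat_lit 5856, nat_lit 15120, nat_lit 15120, nat_lit 4368, nat_lit 5856, R4_315, R11_91, R4_122⟩]⟩]⟩,
 ⟨nat_lit 7, [⟨nat_lit 4, [⟨nat_lit 7, nat_lit 1920, nat_lit 12240, nat_lit 15120, nat_lit 2736, nat_lit 8304, R6_315, R10_57, R6_173⟩]⟩, ⟨nat_lit 6, [⟨nat_lit 4, nat_lit 4800, nat_lit 14160, nat_lit 18144, nat_lit 11376, nat_lit 5520, R8_378, R3_237, R6_115⟩, ⟨nat_lit 6, nat_lit 6096, nat_lit 15024, nat_lit 18192, nat_lit 2160, nat_lit 5904, R8_379, R0_45, R4_123⟩, ⟨nat_lit 7, nat_lit 7440, nat_lit 14640, nat_lit 18240, nat_lit 2832, nat_lit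 7632, R8_380, R10_59, R8_159⟩]⟩, ⟨nat_lit 7, [⟨nat_lit 7, nat_lit 10848, nat_lit 13104, nat_lit 14544, nat_lit 2784, nat_lit 8880, R4_303, R10_58, R4_185⟩]⟩]⟩], [⟨nat_lit 0, [⟨nat_lit 3, [⟨nat_lit 0, nat_lit 14256, nat_lit 8016, nat_lit 17088, nat_lit 8976, nat_lit 13488, R6_356, R4_187, R8_281⟩, ⟨nat_lit 3, nat_lit 15168, nat_lit 8160, nat_lit 17136, nat_lit 4656, nat_lit 8784, R6_357, R5_97, R5_183⟩]⟩]⟩,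
 ⟨nat_lit 2, [⟨nat_lit 0, [⟨nat_lit 0, nat_lit 12144, nat_lit 1008, nat_lit 15168, nat_lit 16032, nat_lit 13584, R6_316, R3_334, R6_283⟩, ⟨nat_lit 2, nat_lit 12288, nat_lit 1152, nat_lit 15216, nat_lit 2976, nat_lit 10608, R6_317, R10_62, R13_221⟩]⟩, ⟨nat_lit 2, [⟨nat_lit 2, nat_lit 13248, nat_lit 13200, nat_lit 14592, nat_lit 3024, nat_lit 15264, R4_304, R10_63, R3_318⟩]⟩, ⟨nat_lit 3, [⟨nat_lit 0, nat_lit 14400, nat_lit 9264, nat_lit 19008, nat_lit 16368, nat_lit 13776, R8_396, R3_341, R8_287⟩, ⟨nat_lit 2, nat_lit 14736, nat_lit 9504, nat_lit 19104, nat_lit 3072, nat_lit 8256, R8_398, R10_64, R9_172⟩, ⟨nat_lit 3, nat_lit 15312, nat_lit 9360, nat_lit 19056, nat_lit 2256, nat_lit 8832, R8_397, R0_47, R5_184⟩]⟩]⟩,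
 ⟨nat_lit 3, [⟨nat_lit 3, [⟨nat_lit 3, nat_lit 15456, nat_lit 8880, nat_lit 15456, nat_lit 4656, nat_lit 8880, R4_322, R11_97, R5_185⟩]⟩]⟩,
 ⟨nat_lit 6, [⟨nat_lit 2, [⟨nat_lit 2, nat_lit 13152, nat_lit 12864, nat_lit 17712, nat_lit 2640, nat_lit 15168, R7_369, R1_55, R3_316⟩, ⟨nat_lit 6, nat_lit 12624, nat_lit 12768, nat_lit 17664, nat_lit 5616, nat_lit 7728, R7_368, R11_117, R2_161⟩]⟩]⟩]]], [[], [[], [], [⟨nat_lit 5, [⟨nat_lit 4, [⟨nat_lit 5, nat_lit 576, nat_lit 432, nat_lit 4464, nat_lit 12768, nat_lit 1344, R4_93, R1_266, R4_28⟩]⟩, ⟨nat_lit 6, [⟨nat_lit 5, nat_lit 6960, nat_lit 480, nat_lit 17328, nat_lit 12864, nat_lit 4800, R3_361, R1_268, R3_100⟩]⟩]⟩]], [], [], [], [[⟨nat_lit 4, [⟨nat_lit 6, [⟨nat_lit 4, nat_lit 4656, nat_lit 1200, nat_lit 21312, nat_lit 4704, nat_lit 5808, R13_444, R8_98, R6_121⟩, ⟨nat_lit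 6, nat_lit 5760, nat_lit 3600, nat_lit 21360, nat_lit 4368, nat_lit 6144, R13_445, R9_91, R4_128⟩]⟩]⟩,
 ⟨nat_lit 5, [⟨nat_lit 6, [⟨nat_lit 4, nat_lit 4704, nat_lit 1296, nat_lit 17376, nat_lit 14304, nat_lit 5904, R3_362, R5_298, R6_123⟩, ⟨nat_lit 6, nat_lit 6000, nat_lit 3648, nat_lit 17424, nat_lit 2832, nat_lit 6240, R3_363, R0_59, R4_130⟩]⟩]⟩,
 ⟨nat_lit 6, [⟨nat_lit 2, [⟨nat_lit 6, nat_lit 12528, nat_lit 2736, nat_lit 15552, nat_lit 12336, nat_lit 8928, R2_324, R0_257, R7_186⟩]⟩, ⟨nat_lit 6, [⟨nat_lit 6, nat_lit 5952, nat_lit 3696, nat_lit 3552, nat_lit 2400, nat_lit 6192, R3_74, R0_50, R4_129⟩]⟩]⟩,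
 ⟨nat_lit 7, [⟨nat_lit 4, [⟨nat_lit 7, nat_lit 2016, nat_lit 1824, nat_lit 336, nat_lit 96, nat_lit 9648, R8_7, R0_2, R6_201⟩]⟩, ⟨nat_lit 6, [⟨nat_lit 4, nat_lit 4896, nat_lit 1248, nat_lit 17712, nat_lit 13200, nat_lit 5856, R9_369, R9_275, R6_122⟩, ⟨nat_lit 7, nat_lit 7536, nat_lit 2304, nat_lit 17760, nat_lit 7392, nat_lit 9072, R9_370, R0_154, R8_189⟩]⟩, ⟨nat_lit 7, [⟨nat_lit 7, nat_lit 10944, nat_lit 2016, nat_lit 17568, nat_lit 5616, nat_lit 10608, R5_366, R0_117, R4_221⟩]⟩]⟩], [⟨nat_lit 6, [⟨nat_lit 2, [⟨nat_lit 6, nat_lit 12864, nat_lit 9792, nat_lit 15600, nat_lit 12480, nat_lit 7968, R2_325, R0_260, R2_166⟩]⟩]⟩], [⟨nat_lit 4, [⟨nat_lit 4, [⟨nat_lit 4, nat_lit 0, nat_lit 288, nat_lit 4272, nat_lit 0, nat_lit 1056, R6_89, R8_0, R6_22⟩, ⟨nat_lit 5, nat_lit 480, nat_lit 384, nat_lit 4320, nat_lit 4752,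 nat_lit 960, R6_90, R5_99, R4_20⟩]⟩, ⟨nat_lit 6, [⟨nat_lit 4, nat_lit 5232, nat_lit 1056, nat_lit 21408, nat_lit 4752, nat_lit 6384, R13_446, R8_99, R13_133⟩, ⟨nat_lit 5, nat_lit 6864, nat_lit 1152, nat_lit 21504, nat_lit 5040, nat_lit 4656, R13_448, R5_105, R3_97⟩, ⟨nat_lit 6, nat_lit 6384, nat_lit 1248, nat_lit 21456, nat_lit 4464, nat_lit 816, R13_447, R9_93, R3_17⟩]⟩]⟩,
 ⟨nat_lit 5, [⟨nat_lit 4, [⟨nat_lit 4, nat_lit 48, nat_lit 7632, nat_lit 4368, nat_lit 14496, nat_lit 1392, R4_91, R5_302, R6_29⟩, ⟨nat_lit 5, nat_lit 528, nat_lit 7728, nat_lit 4416, nat_lit 18000, nat_lit 1392, R4_92, R11_375, R4_29⟩]⟩, ⟨nat_lit 6, [⟨nat_lit 4, nat_lit 5280, nat_lit 8112, nat_lit 17472, nat_lit 14688, nat_lit 6480, R3_364, R5_306, R13_135⟩, ⟨nat_lit 5, nat_lit 6912, nat_lit 8208, nat_lit 17568, nat_lit 18192, nat_lit 4752,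 R3_366, R11_379, R3_99⟩, ⟨nat_lit 6, nat_lit 6576, nat_lit 8304, nat_lit 17520, nat_lit 2928, nat_lit 1152, R3_365, R0_61, R3_24⟩]⟩]⟩,
 ⟨nat_lit 6, [⟨nat_lit 2, [⟨nat_lit 6, nat_lit 13008, nat_lit 15984, nat_lit 15648, nat_lit 12384, nat_lit 4080, R2_326, R0_258, R2_85⟩]⟩, ⟨nat_lit 6, [⟨nat_lit 6, nat_lit 6528, nat_lit 16320, nat_lit 3600, nat_lit 2448, nat_lit 960, R3_75, R0_51, R3_20⟩]⟩]⟩,
 ⟨nat_lit 7, [⟨nat_lit 4, [⟨nat_lit 4, nat_lit 192, nat_lit 10944, nat_lit 1584, nat_lit 13584, nat_lit 1344, R8_33, R9_283, R6_28⟩, ⟨nat_lit 5, nat_lit 768, nat_lit 11136, nat_lit 2784, nat_lit 11712, nat_lit 1248, R8_58, R0_244, R4_26⟩, ⟨nat_lit 7, nat_lit 2496, nat_lit 11040, nat_lit 2304, nat_lit 672, nat_lit 2448, R8_48, R0_14, R8_51⟩]⟩, ⟨nat_lit 6, [⟨nat_lit 4, nat_lit 5424, nat_lit 12384, nat_lit 17808, nat_lit 13824,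 nat_lit 6432, R9_371, R9_288, R13_134⟩, ⟨nat_lit 5, nat_lit 7152, nat_lit 12528, nat_lit 17904, nat_lit 11952, nat_lit 4704, R9_373, R0_249, R3_98⟩, ⟨nat_lit 7, nat_lit 7824, nat_lit 12480, nat_lit 17856, nat_lit 8496, nat_lit 4800, R9_372, R0_177, R9_100⟩]⟩, ⟨nat_lit 7, [⟨nat_lit 7, nat_lit 11328, nat_lit 11520, nat_lit 17616, nat_lit 5904, nat_lit 5376, R5_367, R0_123, R5_112⟩]⟩]⟩]]], [[], [], [], [], [[], [⟨nat_lit 6, [⟨nat_lit 2, [⟨nat_lit 6, nat_lit 12720, nat_lit 7392, nat_lit 14736, nat_lit 6912, nat_lit 7824, R2_307, R5_144, R2_163⟩]⟩]⟩]], [[], [⟨nat_lit 6, [⟨nat_lit 2, [⟨nat_lit 6, nat_lit 12816, nat_lit 9408, nat_lit 14784, nat_lit 12624, nat_lit 7920, R2_308, R0_263, R2_165⟩]⟩]⟩]], [[], [⟨nat_lit 0, [⟨nat_lit 0, [⟨nat_lit 0, nat_lit 12096, nat_lit 7488, nat_lit 10752, nat_lit 3168, nat_lit 13536,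 R6_224, R4_66, R6_282⟩]⟩, ⟨nat_lit 1, [⟨nat_lit 0, nat_lit 13344, nat_lit 7584, nat_lit 11616, nat_lit 11616, nat_lit 13344, R4_242, R4_242, R4_278⟩]⟩, ⟨nat_lit 3, [⟨nat_lit 0, nat_lit 14304, nat_lit 7536, nat_lit 9360, nat_lit 9072, nat_lit 13584, R8_195, R4_189, R8_283⟩, ⟨nat_lit 3, nat_lit 15216, nat_lit 8400, nat_lit 9840, nat_lit 6288, nat_lit 8928, R8_205, R5_131, R5_186⟩]⟩]⟩,
 ⟨nat_lit 2, [⟨nat_lit 0, [⟨nat_lit 0, nat_lit 12192, nat_lit 7824, nat_lit 20256, nat_lit 16128, nat_lit 13632, R13_422, R3_336, R6_284⟩, ⟨nat_lit 2, nat_lit 12336, nat_lit 9504, nat_lit 20304, nat_lit 3168, nat_lit 10656, R13_423, R10_66, R13_222⟩]⟩, ⟨nat_lit 1, [⟨nat_lit 0, nat_lit 13392, nat_lit 7920, nat_lit 16752, nat_lit 16752, nat_lit 13392, R3_349, R3_349, R4_279⟩, ⟨nat_lit 2, nat_lit 13728, nat_lit 9600, nat_lit 16800,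 nat_lit 3312, nat_lit 8640, R3_350, R10_69, R3_180⟩]⟩, ⟨nat_lit 2, [⟨nat_lit 2, nat_lit 13296, nat_lit 9648, nat_lit 10464, nat_lit 3216, nat_lit 15312, R3_218, R10_67, R3_319⟩]⟩, ⟨nat_lit 3, [⟨nat_lit 0, nat_lit 14448, nat_lit 7872, nat_lit 16656, nat_lit 16560, nat_lit 13872, R9_347, R3_345, R8_289⟩, ⟨nat_lit 2, nat_lit 14784, nat_lit 9552, nat_lit 16704, nat_lit 3264, nat_lit 8304, R9_348, R10_68, R9_173⟩, ⟨nat_lit 3, nat_lit 15360, nat_lit 8736, nat_lit 16752, nat_lit 2352, nat_lit 8976, R9_349, R0_49, R5_187⟩]⟩]⟩,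
 ⟨nat_lit 3, [⟨nat_lit 3, [⟨nat_lit 3, nat_lit 15504, nat_lit 8544, nat_lit 17088, nat_lit 4704, nat_lit 9024, R5_356, R11_98, R5_188⟩]⟩]⟩,
 ⟨nat_lit 6, [⟨nat_lit 2, [⟨nat_lit 2, nat_lit 13200, nat_lit 8976, nat_lit 14832, nat_lit 2688, nat_lit 15216, R2_309, R1_56, R3_317⟩, ⟨nat_lit 6, nat_lit 12768, nat_lit 7008, nat_lit 14880, nat_lit 6528, nat_lit 7872, R2_310, R11_136, R2_164⟩]⟩]⟩], [], [], [], [⟨nat_lit 0, [⟨nat_lit 1, [⟨nat_lit 0, nat_lit 13440, nat_lit 5808, nat_lit 11664, nat_lit 11568, nat_lit 14304, R4_243, R4_241, R7_298⟩]⟩]⟩,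
 ⟨nat_lit 2, [⟨nat_lit 1, [⟨nat_lit 0, nat_lit 13584, nat_lit 5856, nat_lit 16656, nat_lit 10272, nat_lit 14400, R3_347, R3_214, R7_300⟩, ⟨nat_lit 2, nat_lit 13776, nat_lit 5904, nat_lit 16704, nat_lit 3360, nat_lit 13920, R3_348, R10_70, R2_290⟩]⟩]⟩]]], [[], [], [], [], [[⟨nat_lit 3, [⟨nat_lit 4, [⟨nat_lit 7, nat_lit 2208, nat_lit 7728, nat_lit 432, nat_lit 3264, nat_lit 8640, R7_9, R2_68, R6_180⟩]⟩, ⟨nat_lit 7, [⟨nat_lit 7, nat_lit 11088, nat_lit 7776, nat_lit 21600, nat_lit 3312, nat_lit 9264, R14_450, R2_69, R4_193⟩]⟩]⟩,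
 ⟨nat_lit 7, [⟨nat_lit 4, [⟨nat_lit 7, nat_lit 2064, nat_lit 7200, nat_lit 240, nat_lit 3744, nat_lit 8592, R4_5, R3_78, R6_179⟩]⟩, ⟨nat_lit 6, [⟨nat_lit 4, nat_lit 4944, nat_lit 5520, nat_lit 3264, nat_lit 4992, nat_lit 5424, R5_68, R13_104, R6_113⟩, ⟨nat_lit 6, nat_lit 6144, nat_lit 9072, nat_lit 3600, nat_lit 3936, nat_lit 5760, R5_75, R9_82, R4_120⟩, ⟨nat_lit 7, nat_lit 7584, nat_lit 7248, nat_lit 3840, nat_lit 3888, nat_lit 8064, R5_80, R3_81, R8_168⟩]⟩]⟩], [], [⟨nat_lit 3, [⟨nat_lit 4, [⟨nat_lit 7, nat_lit 2640, nat_lit 6384, nat_lit 2496, nat_lit 4128, nat_lit 1248, R7_52, R2_86, R8_26⟩]⟩, ⟨nat_lit 7, [⟨nat_lit 7, nat_lit 11424, nat_lit 6432, nat_lit 21648, nat_lit 4176, nat_lit 5232, R14_451, R2_87, R5_109⟩]⟩]⟩,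
 ⟨nat_lit 7, [⟨nat_lit 4, [⟨nat_lit 4, nat_lit 240, nat_lit 3744, nat_lit 2064, nat_lit 6528, nat_lit 1200, R4_43, R13_136, R6_25⟩, ⟨nat_lit 5, nat_lit 816, nat_lit 5472, nat_lit 2784, nat_lit 4896, nat_lit 1104, R4_58, R3_102, R4_23⟩, ⟨nat_lit 7, nat_lit 2544, nat_lit 6048, nat_lit 2544, nat_lit 6048, nat_lit 864, R4_53, R3_126, R8_18⟩]⟩, ⟨nat_lit 6, [⟨nat_lit 4, nat_lit 5472, nat_lit 3792, nat_lit 3456, nat_lit 6576, nat_lit 6144, R5_72, R13_137, R13_128⟩, ⟨nat_lit 5, nat_lit 7200, nat_lit 5520, nat_lit 4224, nat_lit 4944, nat_lit 4416, R5_88, R3_103, R3_92⟩, ⟨nat_lit 6, nat_lit 6672, nat_lit 7152, nat_lit 3744, nat_lit 4848, nat_lit 1056, R5_78, R9_101, R3_22⟩, ⟨nat_lit 7, nat_lit 7872, nat_lit 6096, nat_lit 4128, nat_lit 6192, nat_lit 4656, R5_86, R3_129, R9_97⟩]⟩]⟩], [⟨nat_lit 3, [⟨nat_lit 4, [⟨nat_lit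 7, nat_lit 2928, nat_lit 13104, nat_lit 912, nat_lit 4752, nat_lit 1632, R7_19, R2_99, R4_34⟩]⟩]⟩,
 ⟨nat_lit 7, [⟨nat_lit 4, [⟨nat_lit 7, nat_lit 2784, nat_lit 4896, nat_lit 816, nat_lit 5472, nat_lit 1104, R4_17, R3_114, R4_23⟩]⟩, ⟨nat_lit 6, [⟨nat_lit 7, nat_lit 7968, nat_lit 5184, nat_lit 3984, nat_lit 5616, nat_lit 96, R5_83, R3_117, R5_2⟩]⟩]⟩]], [[⟨nat_lit 7, [⟨nat_lit 4, [⟨nat_lit 7, nat_lit 2160, nat_lit 2160, nat_lit 288, nat_lit 48, nat_lit 9408, R4_6, R0_1, R6_196⟩]⟩, ⟨nat_lit 6, [⟨nat_lit 4, nat_lit 5040, nat_lit 1920, nat_lit 3312, nat_lit 13152, nat_lit 5760, R5_69, R9_274, R6_120⟩, ⟨nat_lit 7, nat_lit 7680, nat_lit 2592, nat_lit 3888, nat_lit 7296, nat_lit 8736, R5_81, R0_152, R8_182⟩]⟩]⟩], [], [⟨nat_lit 7, [⟨nat_lit 4, [⟨nat_lit 4, nat_lit 288, nat_lit 48, nat_lit 2160, nat_lit 13536, nat_lit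 1296, R4_45, R9_282, R6_27⟩, ⟨nat_lit 5, nat_lit 864, nat_lit 432, nat_lit 2880, nat_lit 11664, nat_lit 1200, R4_60, R0_243, R4_25⟩, ⟨nat_lit 7, nat_lit 2592, nat_lit 624, nat_lit 2592, nat_lit 624, nat_lit 912, R4_54, R0_13, R8_19⟩]⟩, ⟨nat_lit 6, [⟨nat_lit 4, nat_lit 5520, nat_lit 240, nat_lit 3504, nat_lit 13776, nat_lit 6336, R5_73, R9_287, R13_132⟩, ⟨nat_lit 5, nat_lit 7248, nat_lit 480, nat_lit 4272, nat_lit 11904, nat_lit 4608, R5_89, R0_248, R3_96⟩, ⟨nat_lit 7, nat_lit 7920, nat_lit 1056, nat_lit 4176, nat_lit 8400, nat_lit 4752, R5_87, R0_175, R9_99⟩]⟩]⟩], [⟨nat_lit 7, [⟨nat_lit 4, [⟨nat_lit 7, nat_lit 2880, nat_lit 11664, nat_lit 864, nat_lit 432, nat_lit 1200, R4_18, R0_9, R4_25⟩]⟩, ⟨nat_lit 6, [⟨nat_lit 7, nat_lit 8064, nat_lit 14496, nat_lit 4032, nat_lit 8016, nat_lit 192, R5_84, R0_167, R5_4⟩]⟩]⟩]],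 [[⟨nat_lit 0, [⟨nat_lit 3, [⟨nat_lit 0, nat_lit 14112, nat_lit 144, nat_lit 10800, nat_lit 8688, nat_lit 6096, R4_225, R4_181, R6_127⟩, ⟨nat_lit 3, nat_lit 14976, nat_lit 864, nat_lit 11232, nat_lit 5136, nat_lit 6432, R4_234, R5_107, R4_134⟩]⟩, ⟨nat_lit 7, [⟨nat_lit 3, nat_lit 11808, nat_lit 1440, nat_lit 11568, nat_lit 14784, nat_lit 9840, R7_241, R5_308, R7_205⟩]⟩]⟩,
 ⟨nat_lit 2, [⟨nat_lit 3, [⟨nat_lit 0, nat_lit 14208, nat_lit 192, nat_lit 13104, nat_lit 11472, nat_lit 6144, R5_273, R3_239, R6_128⟩, ⟨nat_lit 2, nat_lit 14688, nat_lit 2400, nat_lit 13248, nat_lit 2880, nat_lit 7680, R5_276, R10_60, R8_160⟩, ⟨nat_lit 3, nat_lit 15072, nat_lit 912, nat_lit 13392, nat_lit 2208, nat_lit 6480, R5_279, R0_46, R4_135⟩]⟩]⟩,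
 ⟨nat_lit 3, [⟨nat_lit 4, [⟨nat_lit 7, nat_lit 2256, nat_lit 3072, nat_lit 528, nat_lit 2736, nat_lit 8928, R7_11, R1_57, R6_186⟩]⟩, ⟨nat_lit 7, [⟨nat_lit 3, nat_lit 11904, nat_lit 1488, nat_lit 21840, nat_lit 4464, nat_lit 9888, R14_455, R11_93, R7_206⟩, ⟨nat_lit 7, nat_lit 11136, nat_lit 3168, nat_lit 21792, nat_lit 2784, nat_lit 9552, R14_454, R1_58, R4_199⟩]⟩]⟩,
 ⟨nat_lit 7, [⟨nat_lit 4, [⟨nat_lit 7, nat_lit 2112, nat_lit 3024, nat_lit 336, nat_lit 3456, nat_lit 8880, R4_7, R10_72, R6_185⟩]⟩, ⟨nat_lit 6, [⟨nat_lit 4, nat_lit 4992, nat_lit 2928, nat_lit 3408, nat_lit 11424, nat_lit 5568, R5_71, R3_238, R6_116⟩, ⟨nat_lit 6, nat_lit 6192, nat_lit 3552, nat_lit 3696, nat_lit 2400, nat_lit 5952, R5_77, R0_50, R4_124⟩, ⟨nat_lit 7, nat_lit 7632, nat_lit 3264, nat_lit 3936, nat_lit 3504, nat_lit 8352, R5_82, R10_73,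 R8_174⟩]⟩]⟩], [⟨nat_lit 0, [⟨nat_lit 3, [⟨nat_lit 0, nat_lit 14352, nat_lit 5568, nat_lit 10896, nat_lit 9024, nat_lit 13536, R4_227, R4_188, R8_282⟩, ⟨nat_lit 3, nat_lit 15264, nat_lit 5856, nat_lit 11280, nat_lit 5328, nat_lit 9072, R4_235, R5_111, R5_189⟩]⟩]⟩,
 ⟨nat_lit 2, [⟨nat_lit 3, [⟨nat_lit 0, nat_lit 14496, nat_lit 5664, nat_lit 13152, nat_lit 16464, nat_lit 13824, R5_274, R3_343, R8_288⟩, ⟨nat_lit 2, nat_lit 14832, nat_lit 6960, nat_lit 13296, nat_lit 3120, nat_lit 8352, R5_277, R10_65, R9_174⟩, ⟨nat_lit 3, nat_lit 15408, nat_lit 6192, nat_lit 13440, nat_lit 2304, nat_lit 9120, R5_280, R0_48, R5_190⟩]⟩]⟩], [], [⟨nat_lit 0, [⟨nat_lit 3, [⟨nat_lit 0, nat_lit 14544, nat_lit 6960, nat_lit 10848, nat_lit 8880, nat_lit 13104, R4_226, R4_185, R4_273⟩]⟩, ⟨nat_lit 7, [⟨nat_lit 0, nat_lit 11520, nat_lit 7008,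 nat_lit 11424, nat_lit 13488, nat_lit 14256, R7_238, R4_281, R7_297⟩, ⟨nat_lit 3, nat_lit 11952, nat_lit 7344, nat_lit 11616, nat_lit 14976, nat_lit 8496, R7_242, R5_312, R14_177⟩]⟩]⟩,
 ⟨nat_lit 2, [⟨nat_lit 3, [⟨nat_lit 0, nat_lit 14592, nat_lit 7152, nat_lit 13200, nat_lit 15264, nat_lit 13248, R5_275, R3_318, R4_276⟩, ⟨nat_lit 2, nat_lit 14880, nat_lit 8544, nat_lit 13344, nat_lit 2928, nat_lit 16224, R5_278, R10_61, R5_338⟩]⟩]⟩,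
 ⟨nat_lit 3, [⟨nat_lit 4, [⟨nat_lit 3, nat_lit 4272, nat_lit 7584, nat_lit 1536, nat_lit 4512, nat_lit 1776, R7_32, R11_94, R7_37⟩, ⟨nat_lit 7, nat_lit 2976, nat_lit 5232, nat_lit 960, nat_lit 3456, nat_lit 1680, R7_20, R1_72, R4_35⟩]⟩, ⟨nat_lit 7, [⟨nat_lit 3, nat_lit 12048, nat_lit 7632, nat_lit 21888, nat_lit 4560, nat_lit 8544, R14_456, R11_95, R14_178⟩]⟩]⟩,
 ⟨nat_lit 7, [⟨nat_lit 4, [⟨nat_lit 7, nat_lit 2832, nat_lit 4608, nat_lit 912, nat_lit 4032, nat_lit 1152, R4_19, R10_84, R4_24⟩]⟩, ⟨nat_lit 6, [⟨nat_lit 7, nat_lit 8016, nat_lit 4656, nat_lit 4080, nat_lit 4080, nat_lit 144, R5_85, R10_85, R5_3⟩]⟩]⟩]], [[⟨nat_lit 3, [⟨nat_lit 4, [⟨nat_lit 7, nat_lit 2304, nat_lit 11616, nat_lit 480, nat_lit 2688, nat_lit 9072, R7_10, R12_56, R6_189⟩]⟩, ⟨nat_lit 7, [⟨nat_lit 7, nat_lit 11184, nat_lit 13920, nat_lit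 21696, nat_lit 2736, nat_lit 9744, R14_452, R12_57, R4_203⟩]⟩]⟩,
 ⟨nat_lit 7, [⟨nat_lit 6, [⟨nat_lit 4, nat_lit 5088, nat_lit 16080, nat_lit 3360, nat_lit 8544, nat_lit 5616, R5_70, R3_178, R6_117⟩, ⟨nat_lit 6, nat_lit 6240, nat_lit 17424, nat_lit 3648, nat_lit 2832, nat_lit 6000, R5_76, R0_59, R4_125⟩]⟩]⟩], [], [⟨nat_lit 3, [⟨nat_lit 4, [⟨nat_lit 4, nat_lit 384, nat_lit 192, nat_lit 2160, nat_lit 12144, nat_lit 1008, R7_45, R2_253, R6_21⟩, ⟨nat_lit 5, nat_lit 1296, nat_lit 720, nat_lit 2736, nat_lit 12720, nat_lit 624, R7_57, R1_265, R4_13⟩, ⟨nat_lit 7, nat_lit 2688, nat_lit 1056, nat_lit 2544, nat_lit 2832, nat_lit 1296, R7_53, R12_59, R8_27⟩]⟩, ⟨nat_lit 7, [⟨nat_lit 7, nat_lit 11472, nat_lit 1488, nat_lit 21744, nat_lit 2880, nat_lit 5280, R14_453, R12_60, R5_110⟩]⟩]⟩,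
 ⟨nat_lit 7, [⟨nat_lit 4, [⟨nat_lit 4, nat_lit 336, nat_lit 144, nat_lit 2112, nat_lit 3024, nat_lit 1248, R4_44, R3_63, R6_26⟩, ⟨nat_lit 5, nat_lit 912, nat_lit 672, nat_lit 2832, nat_lit 14064, nat_lit 1152, R4_59, R10_293, R4_24⟩]⟩, ⟨nat_lit 6, [⟨nat_lit 4, nat_lit 5568, nat_lit 480, nat_lit 3552, nat_lit 8832, nat_lit 6192, R5_74, R3_184, R13_129⟩, ⟨nat_lit 5, nat_lit 7296, nat_lit 816, nat_lit 4320, nat_lit 14256, nat_lit 4464, R5_90, R10_297, R3_93⟩, ⟨nat_lit 6, nat_lit 6720, nat_lit 2544, nat_lit 3792, nat_lit 3216, nat_lit 1104, R5_79, R0_67, R3_23⟩]⟩]⟩]]]]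
noncomputable def N3512 : T3 (List N0) := [[[[], [], [⟨nat_lit 5, [⟨nat_lit 4, [⟨nat_lit 4, nat_lit 2592, nat_lit 13056, nat_lit 17616, nat_lit 8928, nat_lit 11040, R7_367, R4_186, R4_230⟩, ⟨nat_lit 7, nat_lit 2640, nat_lit 13152, nat_lit 17712, nat_lit 15168, nat_lit 12864, R7_369, R3_316, R5_268⟩]⟩, ⟨nat_lit 7, [⟨nat_lit 7, nat_lit 2688, nat_lit 13200, nat_lit 14832, nat_lit 15216, nat_lit 8976, R2_309, R3_317, R11_187⟩]⟩]⟩], [], [], [], [⟨nat_lit 5, [⟨nat_lit 4, [⟨nat_lit 4, nat_lit 13056, nat_lit 14160, nat_lit 12960, nat_lit 13536, nat_lit 11472, R7_270, R4_282, R7_239⟩]⟩, ⟨nat_lit 7, [⟨nat_lit 4, nat_lit 13104, nat_lit 14208, nat_lit 10512, nat_lit 13680, nat_lit 10752, R2_219, R4_285, R2_224⟩, ⟨nat_lit 7, nat_lit 13152, nat_lit 14448, nat_lit 10608, nat_lit 15360, nat_lit 11136, R2_221, R3_320, R1_232⟩]⟩]⟩]],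 [], [[], [], [], [], [], [], [⟨nat_lit 5, [⟨nat_lit 4, [⟨nat_lit 4, nat_lit 13824, nat_lit 16512, nat_lit 13104, nat_lit 15024, nat_lit 11856, R7_273, R5_313, R7_247⟩, ⟨nat_lit 5, nat_lit 13920, nat_lit 16560, nat_lit 13200, nat_lit 18528, nat_lit 12672, R7_275, R11_386, R14_264⟩]⟩, ⟨nat_lit 5, [⟨nat_lit 5, nat_lit 13968, nat_lit 16704, nat_lit 11856, nat_lit 19008, nat_lit 9936, R2_247, R11_396, R12_207⟩]⟩, ⟨nat_lit 7, [⟨nat_lit 4, nat_lit 13872, nat_lit 16896, nat_lit 11712, nat_lit 15504, nat_lit 11040, R2_244, R5_323, R2_230⟩, ⟨nat_lit 5, nat_lit 14016, nat_lit 16992, nat_lit 11808, nat_lit 18720, nat_lit 1920, R2_246, R11_390, R12_40⟩, ⟨nat_lit 7, nat_lit 14064, nat_lit 16944, nat_lit 11760, nat_lit 12528, nat_lit 11616, R2_245, R0_261, R1_242⟩]⟩]⟩]], [[], [], [⟨nat_lit 5, [⟨nat_lit 4, [⟨nat_lit 7, nat_lit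 5088, nat_lit 16272, nat_lit 17904, nat_lit 14688, nat_lit 13008, R7_373, R10_306, R5_271⟩]⟩, ⟨nat_lit 7, [⟨nat_lit 3, nat_lit 5184, nat_lit 16560, nat_lit 15312, nat_lit 13536, nat_lit 6624, R2_319, R1_282, R1_138⟩, ⟨nat_lit 7, nat_lit 5136, nat_lit 16608, nat_lit 15456, nat_lit 15168, nat_lit 9168, R2_322, R10_316, R11_191⟩]⟩]⟩]]], [[[], [], [⟨nat_lit 4, [⟨nat_lit 4, [⟨nat_lit 4, nat_lit 2736, nat_lit 3072, nat_lit 3552, nat_lit 8928, nat_lit 2256, R7_74, R6_186, R4_47⟩, ⟨nat_lit 7, nat_lit 3024, nat_lit 8880, nat_lit 9696, nat_lit 19248, nat_lit 2640, R7_202, R13_401, R5_55⟩]⟩, ⟨nat_lit 6, [⟨nat_lit 4, nat_lit 2832, nat_lit 3120, nat_lit 1872, nat_lit 8976, nat_lit 2112, R2_39, R6_187, R3_44⟩, ⟨nat_lit 7, nat_lit 3120, nat_lit 9024, nat_lit 8736, nat_lit 19344, nat_lit 6432, R2_182, R13_403, R0_134⟩]⟩, ⟨nat_lit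 7, [⟨nat_lit 7, nat_lit 3264, nat_lit 8976, nat_lit 3888, nat_lit 19296, nat_lit 9024, R2_81, R13_402, R11_188⟩]⟩]⟩,
 ⟨nat_lit 5, [⟨nat_lit 4, [⟨nat_lit 4, nat_lit 2784, nat_lit 3168, nat_lit 11808, nat_lit 9552, nat_lit 11136, R14_246, R4_199, R4_232⟩, ⟨nat_lit 7, nat_lit 3072, nat_lit 9168, nat_lit 12288, nat_lit 15504, nat_lit 13872, R14_256, R3_323, R5_289⟩]⟩, ⟨nat_lit 6, [⟨nat_lit 4, nat_lit 2880, nat_lit 3216, nat_lit 10416, nat_lit 9600, nat_lit 2832, R12_217, R4_200, R3_59⟩, ⟨nat_lit 7, nat_lit 3168, nat_lit 9264, nat_lit 11232, nat_lit 15600, nat_lit 6528, R12_234, R3_325, R0_136⟩]⟩, ⟨nat_lit 7, [⟨nat_lit 7, nat_lit 3312, nat_lit 9216, nat_lit 16992, nat_lit 15552, nat_lit 9120, R12_354, R3_324, R11_190⟩]⟩]⟩,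
 ⟨nat_lit 6, [⟨nat_lit 6, [⟨nat_lit 4, nat_lit 2928, nat_lit 3360, nat_lit 1344, nat_lit 5712, nat_lit 2448, R1_28, R8_119, R3_51⟩, ⟨nat_lit 6, nat_lit 2976, nat_lit 10560, nat_lit 6768, nat_lit 16464, nat_lit 8400, R1_141, R5_343, R10_175⟩, ⟨nat_lit 7, nat_lit 3216, nat_lit 9456, nat_lit 9552, nat_lit 15600, nat_lit 6480, R1_199, R9_325, R0_135⟩]⟩]⟩,
 ⟨nat_lit 7, [⟨nat_lit 7, [⟨nat_lit 3, nat_lit 3408, nat_lit 15840, nat_lit 13680, nat_lit 14112, nat_lit 6000, R1_285, R2_294, R1_125⟩, ⟨nat_lit 7, nat_lit 3360, nat_lit 9120, nat_lit 3360, nat_lit 9120, nat_lit 9072, R1_70, R3_190, R11_189⟩]⟩]⟩], [], [], [], [⟨nat_lit 4, [⟨nat_lit 4, [⟨nat_lit 4, nat_lit 13200, nat_lit 12000, nat_lit 3408, nat_lit 14160, nat_lit 2208, R7_71, R6_295, R7_46⟩]⟩, ⟨nat_lit 6, [⟨nat_lit 4, nat_lit 13296, nat_lit 12096, nat_lit 1728,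 nat_lit 14352, nat_lit 672, R2_36, R6_299, R2_14⟩]⟩, ⟨nat_lit 7, [⟨nat_lit 4, nat_lit 13440, nat_lit 12048, nat_lit 0, nat_lit 14304, nat_lit 1008, R2_0, R6_298, R2_21⟩, ⟨nat_lit 7, nat_lit 13584, nat_lit 12336, nat_lit 3936, nat_lit 19488, nat_lit 336, R2_82, R13_406, R1_7⟩]⟩]⟩,
 ⟨nat_lit 5, [⟨nat_lit 4, [⟨nat_lit 4, nat_lit 13248, nat_lit 13728, nat_lit 14016, nat_lit 13920, nat_lit 11520, R14_292, R4_290, R7_240⟩]⟩, ⟨nat_lit 6, [⟨nat_lit 4, nat_lit 13344, nat_lit 13824, nat_lit 9744, nat_lit 14016, nat_lit 10320, R12_203, R4_292, R2_215⟩]⟩, ⟨nat_lit 7, [⟨nat_lit 4, nat_lit 13488, nat_lit 13776, nat_lit 9888, nat_lit 13968, nat_lit 10944, R12_206, R4_291, R2_228⟩, ⟨nat_lit 7, nat_lit 13632, nat_lit 13872, nat_lit 10608, nat_lit 15648, nat_lit 11328, R12_221, R3_326, R1_236⟩]⟩]⟩,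
 ⟨nat_lit 6, [⟨nat_lit 6, [⟨nat_lit 4, nat_lit 13392, nat_lit 14928, nat_lit 1200, nat_lit 13344, nat_lit 6480, R1_25, R8_278, R2_135⟩, ⟨nat_lit 6, nat_lit 13536, nat_lit 15312, nat_lit 6624, nat_lit 16560, nat_lit 5184, R1_138, R5_345, R1_108⟩]⟩]⟩,
 ⟨nat_lit 7, [⟨nat_lit 7, [⟨nat_lit 7, nat_lit 13680, nat_lit 14112, nat_lit 3408, nat_lit 15840, nat_lit 6000, R1_71, R3_330, R1_125⟩]⟩]⟩]], [[], [], [⟨nat_lit 4, [⟨nat_lit 4, [⟨nat_lit 4, nat_lit 3456, nat_lit 13968, nat_lit 3984, nat_lit 1680, nat_lit 2976, R7_83, R4_35, R4_62⟩, ⟨nat_lit 7, nat_lit 3648, nat_lit 14112, nat_lit 10992, nat_lit 12576, nat_lit 3216, R7_229, R3_262, R5_67⟩]⟩, ⟨nat_lit 6, [⟨nat_lit 4, nat_lit 3504, nat_lit 14016, nat_lit 2352, nat_lit 8400, nat_lit 9792, R2_49, R4_175, R3_204⟩, ⟨nat_lit 7, nat_lit 3696, nat_lit 14208, nat_lit 9984,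 nat_lit 12960, nat_lit 6864, R2_208, R3_270, R0_143⟩]⟩, ⟨nat_lit 7, [⟨nat_lit 7, nat_lit 3792, nat_lit 14160, nat_lit 5136, nat_lit 13344, nat_lit 9408, R2_107, R3_278, R11_196⟩]⟩]⟩,
 ⟨nat_lit 6, [⟨nat_lit 6, [⟨nat_lit 4, nat_lit 3552, nat_lit 19632, nat_lit 1824, nat_lit 5712, nat_lit 10080, R1_38, R5_119, R3_210⟩, ⟨nat_lit 6, nat_lit 3600, nat_lit 19968, nat_lit 7248, nat_lit 21408, nat_lit 8496, R1_151, R11_446, R10_177⟩, ⟨nat_lit 7, nat_lit 3744, nat_lit 19776, nat_lit 10800, nat_lit 14064, nat_lit 6912, R1_225, R0_293, R0_144⟩]⟩]⟩,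
 ⟨nat_lit 7, [⟨nat_lit 7, [⟨nat_lit 3, nat_lit 3888, nat_lit 19296, nat_lit 15504, nat_lit 15648, nat_lit 7872, R1_323, R1_326, R1_164⟩, ⟨nat_lit 7, nat_lit 3840, nat_lit 19200, nat_lit 3840, nat_lit 19200, nat_lit 9456, R1_80, R10_400, R11_197⟩]⟩]⟩], [], [], [], [⟨nat_lit 4, [⟨nat_lit 4, [⟨nat_lit 4, nat_lit 15216, nat_lit 12576, nat_lit 3888, nat_lit 1440, nat_lit 2784, R7_81, R4_30, R7_58⟩]⟩, ⟨nat_lit 6, [⟨nat_lit 4, nat_lit 15264, nat_lit 12672, nat_lit 2256, nat_lit 8112, nat_lit 864, R2_47, R4_169, R2_18⟩]⟩, ⟨nat_lit 7, [⟨nat_lit 4, nat_lit 15360, nat_lit 12624, nat_lit 48, nat_lit 7344, nat_lit 3024, R2_1, R4_153, R2_63⟩, ⟨nat_lit 7, nat_lit 15456, nat_lit 12912, nat_lit 5184, nat_lit 13392, nat_lit 2496, R2_108, R3_279, R1_52⟩]⟩]⟩,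
 ⟨nat_lit 6, [⟨nat_lit 6, [⟨nat_lit 4, nat_lit 15312, nat_lit 15936, nat_lit 1728, nat_lit 5904, nat_lit 7056, R1_36, R5_123, R2_147⟩, ⟨nat_lit 6, nat_lit 15408, nat_lit 16320, nat_lit 7152, nat_lit 21504, nat_lit 5760, R1_149, R11_448, R1_120⟩]⟩]⟩,
 ⟨nat_lit 7, [⟨nat_lit 7, [⟨nat_lit 7, nat_lit 15504, nat_lit 15648, nat_lit 3888, nat_lit 19296, nat_lit 7872, R1_81, R10_402, R1_164⟩]⟩]⟩]], [[], [], [], [], [], [], [⟨nat_lit 4, [⟨nat_lit 4, [⟨nat_lit 4, nat_lit 14160, nat_lit 13584, nat_lit 4368, nat_lit 1056, nat_lit 2640, R7_91, R8_22, R7_55⟩, ⟨nat_lit 5, nat_lit 14496, nat_lit 13632, nat_lit 12816, nat_lit 15168, nat_lit 14160, R7_267, R5_316, R14_295⟩]⟩, ⟨nat_lit 6, [⟨nat_lit 4, nat_lit 14256, nat_lit 13824, nat_lit 2784, nat_lit 6192, nat_lit 768, R2_58, R8_129, R2_16⟩, ⟨nat_lit 5, nat_lit 14640, nat_lit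 13872, nat_lit 11520, nat_lit 15744, nat_lit 10128, R2_240, R5_328, R12_211⟩]⟩, ⟨nat_lit 7, [⟨nat_lit 4, nat_lit 14400, nat_lit 13680, nat_lit 816, nat_lit 6960, nat_lit 2736, R2_17, R8_145, R2_57⟩, ⟨nat_lit 5, nat_lit 14784, nat_lit 13776, nat_lit 10464, nat_lit 15936, nat_lit 9696, R2_218, R5_332, R12_202⟩, ⟨nat_lit 7, nat_lit 14928, nat_lit 13728, nat_lit 6960, nat_lit 14976, nat_lit 2208, R2_145, R9_312, R1_46⟩]⟩]⟩,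
 ⟨nat_lit 5, [⟨nat_lit 4, [⟨nat_lit 4, nat_lit 14208, nat_lit 13920, nat_lit 14064, nat_lit 15072, nat_lit 11952, R14_293, R5_314, R7_249⟩, ⟨nat_lit 5, nat_lit 14544, nat_lit 13968, nat_lit 14784, nat_lit 19488, nat_lit 14880, R14_308, R11_406, R14_310⟩]⟩, ⟨nat_lit 5, [⟨nat_lit 5, nat_lit 14592, nat_lit 14112, nat_lit 11856, nat_lit 20688, nat_lit 11952, R12_247, R11_431, R12_249⟩]⟩, ⟨nat_lit 6, [⟨nat_lit 4, nat_lit 14304, nat_lit 14496, nat_lit 9792, nat_lit 15888, nat_lit 10416, R12_204, R5_331, R2_217⟩, ⟨nat_lit 5, nat_lit 14688, nat_lit 14544, nat_lit 11664, nat_lit 20064, nat_lit 12192, R12_243, R11_418, R12_254⟩]⟩, ⟨nat_lit 7, [⟨nat_lit 4, nat_lit 14448, nat_lit 14304, nat_lit 10176, nat_lit 15648, nat_lit 11472, R12_212, R5_326, R2_239⟩, ⟨nat_lit 5, nat_lit 14832, nat_lit 14400, nat_lit 12288, nat_lit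 20256, nat_lit 11568, R12_256, R11_422, R12_241⟩, ⟨nat_lit 7, nat_lit 14976, nat_lit 14352, nat_lit 10848, nat_lit 13680, nat_lit 12048, R12_226, R0_285, R1_251⟩]⟩]⟩,
 ⟨nat_lit 6, [⟨nat_lit 6, [⟨nat_lit 4, nat_lit 14352, nat_lit 14736, nat_lit 2256, nat_lit 14880, nat_lit 6912, R1_47, R9_310, R2_144⟩, ⟨nat_lit 5, nat_lit 14736, nat_lit 14784, nat_lit 12096, nat_lit 13584, nat_lit 10800, R1_252, R0_283, R12_225⟩, ⟨nat_lit 6, nat_lit 14880, nat_lit 14832, nat_lit 7632, nat_lit 3504, nat_lit 5616, R1_159, R0_73, R1_117⟩]⟩]⟩,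
 ⟨nat_lit 7, [⟨nat_lit 7, [⟨nat_lit 7, nat_lit 15024, nat_lit 14688, nat_lit 5664, nat_lit 3552, nat_lit 7584, R1_118, R0_74, R1_158⟩]⟩]⟩]], [[], [], [⟨nat_lit 4, [⟨nat_lit 4, [⟨nat_lit 7, nat_lit 5232, nat_lit 3600, nat_lit 10560, nat_lit 1872, nat_lit 2832, R7_220, R3_39, R5_59⟩]⟩, ⟨nat_lit 6, [⟨nat_lit 7, nat_lit 5328, nat_lit 3792, nat_lit 9648, nat_lit 8448, nat_lit 6576, R2_201, R3_176, R0_137⟩]⟩, ⟨nat_lit 7, [⟨nat_lit 3, nat_lit 5568, nat_lit 3456, nat_lit 13680, nat_lit 13536, nat_lit 7536, R2_285, R2_282, R1_157⟩, ⟨nat_lit 7, nat_lit 5472, nat_lit 3696, nat_lit 4704, nat_lit 6816, nat_lit 9264, R2_98, R3_142, R11_193⟩]⟩]⟩,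
 ⟨nat_lit 5, [⟨nat_lit 4, [⟨nat_lit 7, nat_lit 5280, nat_lit 3648, nat_lit 12336, nat_lit 16320, nat_lit 14064, R14_257, R10_340, R5_293⟩]⟩, ⟨nat_lit 6, [⟨nat_lit 7, nat_lit 5376, nat_lit 3840, nat_lit 11280, nat_lit 17232, nat_lit 6672, R12_235, R10_359, R0_139⟩]⟩, ⟨nat_lit 7, [⟨nat_lit 3, nat_lit 5616, nat_lit 3504, nat_lit 15456, nat_lit 14880, nat_lit 7632, R12_322, R1_310, R1_159⟩, ⟨nat_lit 7, nat_lit 5520, nat_lit 3744, nat_lit 17184, nat_lit 17904, nat_lit 9312, R12_358, R10_373, R11_194⟩]⟩]⟩,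
 ⟨nat_lit 6, [⟨nat_lit 6, [⟨nat_lit 7, nat_lit 5424, nat_lit 3888, nat_lit 10464, nat_lit 8832, nat_lit 6624, R1_218, R0_184, R0_138⟩]⟩]⟩,
 ⟨nat_lit 7, [⟨nat_lit 7, [⟨nat_lit 3, nat_lit 5664, nat_lit 3552, nat_lit 15024, nat_lit 14880, nat_lit 7584, R1_313, R12_310, R1_158⟩]⟩]⟩]]], [[], [], [[], [], [], [], [], [], [⟨nat_lit 5, [⟨nat_lit 5, [⟨nat_lit 5, nat_lit 14112, nat_lit 15312, nat_lit 12288, nat_lit 21120, nat_lit 10656, R1_256, R11_440, R12_222⟩]⟩]⟩]]], [[], [], [], [[], [], [⟨nat_lit 5, [⟨nat_lit 7, [⟨nat_lit 3, nat_lit 5760, nat_lit 21504, nat_lit 16320, nat_lit 15408, nat_lit 7152, R1_340, R1_321, R1_149⟩, ⟨nat_lit 7, nat_lit 5712, nat_lit 21552, nat_lit 16464, nat_lit 18672, nat_lit 9216, R1_343, R10_389, R11_192⟩]⟩]⟩]]], [], [[], [[], [], [⟨nat_lit 0, [⟨nat_lit 0, [⟨nat_lit 0, nat_lit 4512, nat_lit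 3936, nat_lit 4032, nat_lit 3792, nat_lit 3072, R4_84, R4_79, R4_64⟩, ⟨nat_lit 2, nat_lit 4656, nat_lit 4224, nat_lit 10368, nat_lit 14256, nat_lit 816, R4_216, R3_297, R5_17⟩]⟩, ⟨nat_lit 3, [⟨nat_lit 0, nat_lit 4560, nat_lit 3984, nat_lit 14304, nat_lit 10128, nat_lit 9744, R3_298, R4_211, R3_203⟩, ⟨nat_lit 2, nat_lit 4800, nat_lit 4320, nat_lit 15120, nat_lit 15072, nat_lit 6720, R3_315, R3_314, R0_140⟩]⟩]⟩,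
 ⟨nat_lit 2, [⟨nat_lit 0, [⟨nat_lit 2, nat_lit 4704, nat_lit 4272, nat_lit 7104, nat_lit 19056, nat_lit 7776, R5_148, R10_397, R5_162⟩]⟩, ⟨nat_lit 2, [⟨nat_lit 2, nat_lit 4752, nat_lit 4464, nat_lit 21744, nat_lit 19104, nat_lit 9360, R11_453, R10_398, R11_195⟩, ⟨nat_lit 6, nat_lit 4176, nat_lit 4944, nat_lit 21792, nat_lit 15600, nat_lit 7824, R11_454, R1_325, R1_163⟩]⟩, ⟨nat_lit 3, [⟨nat_lit 2, nat_lit 4848, nat_lit 4416, nat_lit 14352, nat_lit 19152, nat_lit 6816, R0_299, R10_399, R0_142⟩]⟩]⟩,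
 ⟨nat_lit 3, [⟨nat_lit 3, [⟨nat_lit 0, nat_lit 4608, nat_lit 4032, nat_lit 19488, nat_lit 5568, nat_lit 10032, R10_406, R5_116, R3_209⟩, ⟨nat_lit 2, nat_lit 4896, nat_lit 4368, nat_lit 19584, nat_lit 14016, nat_lit 6768, R10_408, R0_292, R0_141⟩, ⟨nat_lit 3, nat_lit 5040, nat_lit 4080, nat_lit 19536, nat_lit 21312, nat_lit 8448, R10_407, R11_444, R10_176⟩]⟩, ⟨nat_lit 7, [⟨nat_lit 3, nat_lit 4992, nat_lit 4128, nat_lit 15888, nat_lit 21360, nat_lit 7776, R1_331, R11_445, R1_162⟩]⟩]⟩,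
 ⟨nat_lit 4, [⟨nat_lit 4, [⟨nat_lit 4, nat_lit 3936, nat_lit 4512, nat_lit 4032, nat_lit 3792, nat_lit 3072, R4_84, R4_79, R4_64⟩, ⟨nat_lit 7, nat_lit 4224, nat_lit 4656, nat_lit 10368, nat_lit 14256, nat_lit 816, R4_216, R3_297, R5_17⟩]⟩, ⟨nat_lit 6, [⟨nat_lit 4, nat_lit 3984, nat_lit 4560, nat_lit 14304, nat_lit 10128, nat_lit 9744, R3_298, R4_211, R3_203⟩, ⟨nat_lit 7, nat_lit 4320, nat_lit 4800, nat_lit 15120, nat_lit 15072, nat_lit 6720, R3_315, R3_314, R0_140⟩]⟩]⟩,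
 ⟨nat_lit 6, [⟨nat_lit 2, [⟨nat_lit 6, nat_lit 4128, nat_lit 4992, nat_lit 15888, nat_lit 21360, nat_lit 7776, R1_331, R11_445, R1_162⟩]⟩, ⟨nat_lit 6, [⟨nat_lit 4, nat_lit 4032, nat_lit 4608, nat_lit 19488, nat_lit 5568, nat_lit 10032, R10_406, R5_116, R3_209⟩, ⟨nat_lit 6, nat_lit 4080, nat_lit 5040, nat_lit 19536, nat_lit 21312, nat_lit 8448, R10_407, R11_444, R10_176⟩, ⟨nat_lit 7, nat_lit 4368, nat_lit 4896, nat_lit 19584, nat_lit 14016, nat_lit 6768, R10_408, R0_292, R0_141⟩]⟩]⟩,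
 ⟨nat_lit 7, [⟨nat_lit 4, [⟨nat_lit 7, nat_lit 4272, nat_lit 4704, nat_lit 7104, nat_lit 19056, nat_lit 7776, R5_148, R10_397, R5_162⟩]⟩, ⟨nat_lit 6, [⟨nat_lit 7, nat_lit 4416, nat_lit 4848, nat_lit 14352, nat_lit 19152, nat_lit 6816, R0_299, R10_399, R0_142⟩]⟩, ⟨nat_lit 7, [⟨nat_lit 3, nat_lit 4944, nat_lit 4176, nat_lit 21792, nat_lit 15600, nat_lit 7824, R11_454, R1_325, R1_163⟩, ⟨nat_lit 7, nat_lit 4464, nat_lit 4752, nat_lit 21744, nat_lit 19104, nat_lit 9360, R11_453, R10_398, R11_195⟩]⟩]⟩]], [], [], [], [[⟨nat_lit 0, [⟨nat_lit 0, [⟨nat_lit 0, nat_lit 1392, nat_lit 4608, nat_lit 1536, nat_lit 3696, nat_lit 10368, R4_32, R7_77, R6_216⟩, ⟨nat_lit 2, nat_lit 1488, nat_lit 6192, nat_lit 8256, nat_lit 2064, nat_lit 9552, R4_172, R2_43, R8_199⟩]⟩, ⟨nat_lit 3, [⟨nat_lit 0, nat_lit 1440, nat_lit 4992, nat_lit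 12624, nat_lit 10752, nat_lit 9648, R3_263, R7_224, R13_201⟩, ⟨nat_lit 2, nat_lit 1632, nat_lit 6720, nat_lit 13008, nat_lit 9840, nat_lit 7536, R3_271, R2_205, R9_157⟩, ⟨nat_lit 3, nat_lit 1776, nat_lit 5664, nat_lit 13440, nat_lit 4848, nat_lit 9936, R3_280, R2_101, R3_207⟩]⟩]⟩,
 ⟨nat_lit 2, [⟨nat_lit 0, [⟨nat_lit 2, nat_lit 1536, nat_lit 6240, nat_lit 6240, nat_lit 1536, nat_lit 10080, R5_130, R1_32, R8_210⟩]⟩, ⟨nat_lit 2, [⟨nat_lit 2, nat_lit 1584, nat_lit 7152, nat_lit 21840, nat_lit 6960, nat_lit 7680, R11_455, R1_145, R5_160⟩]⟩, ⟨nat_lit 3, [⟨nat_lit 2, nat_lit 1680, nat_lit 6768, nat_lit 14400, nat_lit 10656, nat_lit 7584, R0_300, R1_222, R9_158⟩]⟩]⟩,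
 ⟨nat_lit 3, [⟨nat_lit 3, [⟨nat_lit 3, nat_lit 1824, nat_lit 5712, nat_lit 19632, nat_lit 3552, nat_lit 10080, R10_409, R1_74, R3_210⟩]⟩, ⟨nat_lit 7, [⟨nat_lit 3, nat_lit 1728, nat_lit 5904, nat_lit 15936, nat_lit 15312, nat_lit 7056, R1_332, R1_319, R2_147⟩]⟩]⟩], [⟨nat_lit 0, [⟨nat_lit 0, [⟨nat_lit 0, nat_lit 10512, nat_lit 11520, nat_lit 1776, nat_lit 3840, nat_lit 2976, R4_37, R7_80, R8_62⟩, ⟨nat_lit 2, nat_lit 10608, nat_lit 11568, nat_lit 8496, nat_lit 2208, nat_lit 10272, R4_177, R2_46, R9_214⟩]⟩, ⟨nat_lit 3, [⟨nat_lit 0, nat_lit 10560, nat_lit 11760, nat_lit 12672, nat_lit 10896, nat_lit 12048, R3_264, R7_227, R9_251⟩, ⟨nat_lit 3, nat_lit 10752, nat_lit 11808, nat_lit 13488, nat_lit 5040, nat_lit 1872, R3_281, R2_105, R0_39⟩]⟩]⟩,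
 ⟨nat_lit 2, [⟨nat_lit 0, [⟨nat_lit 2, nat_lit 10656, nat_lit 14400, nat_lit 6768, nat_lit 1680, nat_lit 10560, R5_141, R1_35, R9_220⟩]⟩, ⟨nat_lit 2, [⟨nat_lit 2, nat_lit 10704, nat_lit 15120, nat_lit 21984, nat_lit 7104, nat_lit 5424, R11_458, R1_148, R0_113⟩]⟩]⟩,
 ⟨nat_lit 3, [⟨nat_lit 3, [⟨nat_lit 3, nat_lit 10800, nat_lit 14064, nat_lit 19776, nat_lit 3744, nat_lit 6912, R10_412, R1_78, R0_144⟩]⟩]⟩], [⟨nat_lit 0, [⟨nat_lit 0, [⟨nat_lit 0, nat_lit 6816, nat_lit 17904, nat_lit 1824, nat_lit 3744, nat_lit 4320, R4_38, R7_78, R4_90⟩, ⟨nat_lit 2, nat_lit 6912, nat_lit 17952, nat_lit 8544, nat_lit 2112, nat_lit 720, R4_178, R2_44, R5_15⟩]⟩, ⟨nat_lit 3, [⟨nat_lit 0, nat_lit 6864, nat_lit 18048, nat_lit 12720, nat_lit 10800, nat_lit 10704, R3_265, R7_225, R3_223⟩, ⟨nat_lit 2, nat_lit 7056, nat_lit 18144, nat_lit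 13056, nat_lit 9888, nat_lit 5376, R3_272, R2_206, R0_112⟩, ⟨nat_lit 3, nat_lit 7200, nat_lit 18096, nat_lit 13536, nat_lit 4896, nat_lit 6720, R3_282, R2_102, R10_140⟩]⟩]⟩,
 ⟨nat_lit 2, [⟨nat_lit 0, [⟨nat_lit 2, nat_lit 6960, nat_lit 21840, nat_lit 7152, nat_lit 1584, nat_lit 7680, R5_149, R1_33, R5_160⟩]⟩, ⟨nat_lit 2, [⟨nat_lit 2, nat_lit 7008, nat_lit 22176, nat_lit 22176, nat_lit 7008, nat_lit 7296, R11_462, R1_146, R11_152⟩]⟩, ⟨nat_lit 3, [⟨nat_lit 2, nat_lit 7104, nat_lit 21984, nat_lit 15120, nat_lit 10704, nat_lit 5424, R0_315, R1_223, R0_113⟩]⟩]⟩,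
 ⟨nat_lit 3, [⟨nat_lit 3, [⟨nat_lit 3, nat_lit 7248, nat_lit 21408, nat_lit 19968, nat_lit 3600, nat_lit 6768, R10_416, R1_75, R10_141⟩]⟩, ⟨nat_lit 7, [⟨nat_lit 3, nat_lit 7152, nat_lit 21504, nat_lit 16320, nat_lit 15408, nat_lit 5760, R1_340, R1_321, R1_120⟩]⟩]⟩]]]]
noncomputable def N3552 : T3 (List N0) := [[[[], [], [⟨nat_lit 1, [⟨nat_lit 4, [⟨nat_lit 4, nat_lit 4368, nat_lit 5856, nat_lit 15120, nat_lit 5856, nat_lit 15120, R4_315, R4_122, R4_315⟩]⟩]⟩,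
 ⟨nat_lit 5, [⟨nat_lit 4, [⟨nat_lit 4, nat_lit 18288, nat_lit 12432, nat_lit 17568, nat_lit 5568, nat_lit 11856, R7_366, R7_116, R4_247⟩, ⟨nat_lit 7, nat_lit 18432, nat_lit 12624, nat_lit 17664, nat_lit 7728, nat_lit 12768, R7_368, R2_161, R5_266⟩]⟩, ⟨nat_lit 7, [⟨nat_lit 7, nat_lit 18864, nat_lit 12768, nat_lit 14880, nat_lit 7872, nat_lit 7008, R2_310, R2_164, R11_146⟩]⟩]⟩], [], [], [], [⟨nat_lit 1, [⟨nat_lit 4, [⟨nat_lit 4, nat_lit 4416, nat_lit 5568, nat_lit 11856, nat_lit 12432, nat_lit 17568, R4_247, R4_259, R7_366⟩, ⟨nat_lit 5, nat_lit 4464, nat_lit 6000, nat_lit 11904, nat_lit 1488, nat_lit 13200, R4_248, R3_31, R14_275⟩]⟩, ⟨nat_lit 5, [⟨nat_lit 5, nat_lit 4848, nat_lit 6096, nat_lit 3504, nat_lit 1584, nat_lit 10464, R3_73, R3_33, R12_218⟩]⟩]⟩,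
 ⟨nat_lit 5, [⟨nat_lit 4, [⟨nat_lit 4, nat_lit 18336, nat_lit 13728, nat_lit 12912, nat_lit 13728, nat_lit 12912, R7_269, R7_286, R7_269⟩, ⟨nat_lit 5, nat_lit 18384, nat_lit 13920, nat_lit 13008, nat_lit 12576, nat_lit 12720, R7_271, R2_262, R14_265⟩]⟩, ⟨nat_lit 5, [⟨nat_lit 5, nat_lit 18624, nat_lit 14064, nat_lit 11664, nat_lit 12672, nat_lit 9984, R2_243, R2_264, R12_208⟩]⟩, ⟨nat_lit 7, [⟨nat_lit 4, nat_lit 18768, nat_lit 13776, nat_lit 10560, nat_lit 13776, nat_lit 10560, R2_220, R7_287, R2_220⟩, ⟨nat_lit 5, nat_lit 18816, nat_lit 13968, nat_lit 10704, nat_lit 12624, nat_lit 1824, R2_223, R2_263, R12_38⟩, ⟨nat_lit 7, nat_lit 18912, nat_lit 13824, nat_lit 10656, nat_lit 14064, nat_lit 10944, R2_222, R2_293, R1_228⟩]⟩]⟩]], [], [[], [], [], [], [], [], [⟨nat_lit 1, [⟨nat_lit 4, [⟨nat_lit 5, nat_lit 4560, nat_lit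 17184, nat_lit 12048, nat_lit 7632, nat_lit 13248, R4_251, R10_159, R14_276⟩]⟩, ⟨nat_lit 5, [⟨nat_lit 5, nat_lit 4944, nat_lit 17424, nat_lit 10992, nat_lit 7728, nat_lit 10512, R3_229, R10_161, R12_219⟩]⟩]⟩,
 ⟨nat_lit 5, [⟨nat_lit 4, [⟨nat_lit 5, nat_lit 18528, nat_lit 16656, nat_lit 13152, nat_lit 13920, nat_lit 12768, R7_274, R1_290, R14_266⟩]⟩, ⟨nat_lit 5, [⟨nat_lit 5, nat_lit 18720, nat_lit 16848, nat_lit 11808, nat_lit 14016, nat_lit 10032, R2_246, R1_292, R12_209⟩]⟩, ⟨nat_lit 7, [⟨nat_lit 5, nat_lit 19008, nat_lit 17040, nat_lit 11856, nat_lit 13968, nat_lit 1968, R2_247, R1_291, R12_41⟩]⟩]⟩]], [[], [], [⟨nat_lit 1, [⟨nat_lit 4, [⟨nat_lit 4, nat_lit 4656, nat_lit 8880, nat_lit 15456, nat_lit 8880, nat_lit 15456, R4_322, R5_185, R4_322⟩, ⟨nat_lit 7, nat_lit 4704, nat_lit 9024, nat_lit 15504, nat_lit 8544,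 nat_lit 17088, R4_323, R11_178, R5_356⟩]⟩]⟩,
 ⟨nat_lit 5, [⟨nat_lit 4, [⟨nat_lit 7, nat_lit 18576, nat_lit 16416, nat_lit 17856, nat_lit 8256, nat_lit 12912, R7_372, R1_172, R5_269⟩]⟩, ⟨nat_lit 7, [⟨nat_lit 7, nat_lit 19056, nat_lit 16752, nat_lit 15504, nat_lit 8400, nat_lit 7104, R2_323, R1_175, R11_148⟩]⟩]⟩]]], [[[], [], [⟨nat_lit 5, [⟨nat_lit 4, [⟨nat_lit 4, nat_lit 19104, nat_lit 1488, nat_lit 11712, nat_lit 6000, nat_lit 11904, R14_244, R7_125, R4_248⟩, ⟨nat_lit 7, nat_lit 19248, nat_lit 7968, nat_lit 12144, nat_lit 8928, nat_lit 13776, R14_253, R2_186, R5_287⟩]⟩, ⟨nat_lit 6, [⟨nat_lit 4, nat_lit 19584, nat_lit 1584, nat_lit 10464, nat_lit 6096, nat_lit 3504, R12_218, R7_127, R3_73⟩, ⟨nat_lit 7, nat_lit 19728, nat_lit 8112, nat_lit 11328, nat_lit 9408, nat_lit 5280, R12_236, R2_196, R0_110⟩]⟩, ⟨nat_lit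 7, [⟨nat_lit 7, nat_lit 20400, nat_lit 8016, nat_lit 16944, nat_lit 9120, nat_lit 7056, R12_353, R2_190, R11_147⟩]⟩]⟩], [], [], [], [⟨nat_lit 5, [⟨nat_lit 4, [⟨nat_lit 4, nat_lit 19152, nat_lit 12576, nat_lit 13920, nat_lit 13920, nat_lit 13008, R14_290, R7_290, R7_271⟩, ⟨nat_lit 5, nat_lit 19200, nat_lit 13200, nat_lit 14640, nat_lit 13200, nat_lit 14928, R14_305, R2_275, R14_311⟩]⟩, ⟨nat_lit 5, [⟨nat_lit 5, nat_lit 20160, nat_lit 13344, nat_lit 11712, nat_lit 13488, nat_lit 12000, R12_244, R2_281, R12_250⟩]⟩, ⟨nat_lit 6, [⟨nat_lit 4, nat_lit 19632, nat_lit 12672, nat_lit 9984, nat_lit 14064, nat_lit 11664, R12_208, R7_293, R2_243⟩, ⟨nat_lit 5, nat_lit 19680, nat_lit 13488, nat_lit 12000, nat_lit 13344, nat_lit 11712, R12_250, R2_278, R12_244⟩]⟩, ⟨nat_lit 7, [⟨nat_lit 4, nat_lit 20304, nat_lit 12624, nat_lit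 9840, nat_lit 13968, nat_lit 10704, R12_205, R7_291, R2_223⟩, ⟨nat_lit 5, nat_lit 20352, nat_lit 13248, nat_lit 11904, nat_lit 13248, nat_lit 11472, R12_248, R2_276, R12_239⟩, ⟨nat_lit 7, nat_lit 20448, nat_lit 12768, nat_lit 10560, nat_lit 14352, nat_lit 11088, R12_220, R2_299, R1_231⟩]⟩]⟩]], [[], [], [⟨nat_lit 4, [⟨nat_lit 4, [⟨nat_lit 4, nat_lit 17376, nat_lit 13200, nat_lit 2064, nat_lit 1152, nat_lit 4272, R7_43, R7_24, R4_89⟩, ⟨nat_lit 7, nat_lit 17472, nat_lit 13488, nat_lit 8592, nat_lit 336, nat_lit 3120, R7_179, R2_7, R5_65⟩]⟩, ⟨nat_lit 6, [⟨nat_lit 4, nat_lit 17520, nat_lit 13344, nat_lit 624, nat_lit 7152, nat_lit 10752, R2_13, R7_149, R3_224⟩, ⟨nat_lit 6, nat_lit 17616, nat_lit 13872, nat_lit 6336, nat_lit 5376, nat_lit 6816, R2_132, R2_112, R10_142⟩, ⟨nat_lit 7, nat_lit 17712, nat_lit 13776, nat_lit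 7392, nat_lit 7344, nat_lit 5472, R2_154, R2_153, R0_114⟩]⟩, ⟨nat_lit 7, [⟨nat_lit 7, nat_lit 17808, nat_lit 13632, nat_lit 5760, nat_lit 6048, nat_lit 7344, R2_120, R2_126, R11_153⟩]⟩]⟩,
 ⟨nat_lit 5, [⟨nat_lit 4, [⟨nat_lit 4, nat_lit 19296, nat_lit 16032, nat_lit 11760, nat_lit 17184, nat_lit 12048, R14_245, R14_358, R4_251⟩, ⟨nat_lit 7, nat_lit 19440, nat_lit 16848, nat_lit 12240, nat_lit 7152, nat_lit 14256, R14_255, R12_149, R5_297⟩]⟩, ⟨nat_lit 6, [⟨nat_lit 4, nat_lit 19776, nat_lit 16224, nat_lit 10512, nat_lit 17424, nat_lit 10992, R12_219, R14_363, R3_229⟩, ⟨nat_lit 6, nat_lit 19872, nat_lit 18240, nat_lit 10896, nat_lit 15120, nat_lit 6912, R12_227, R12_315, R10_144⟩, ⟨nat_lit 7, nat_lit 20016, nat_lit 17184, nat_lit 11424, nat_lit 8832, nat_lit 5520, R12_238, R12_184, R0_115⟩]⟩, ⟨nat_lit 7, [⟨nat_lit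 7, nat_lit 20592, nat_lit 16992, nat_lit 17232, nat_lit 7872, nat_lit 7440, R12_359, R12_164, R11_155⟩]⟩]⟩,
 ⟨nat_lit 6, [⟨nat_lit 6, [⟨nat_lit 6, nat_lit 21312, nat_lit 19536, nat_lit 5040, nat_lit 4080, nat_lit 6864, R1_105, R1_85, R10_143⟩]⟩]⟩,
 ⟨nat_lit 7, [⟨nat_lit 7, [⟨nat_lit 7, nat_lit 21744, nat_lit 19104, nat_lit 4464, nat_lit 4752, nat_lit 7392, R1_93, R1_99, R11_154⟩]⟩]⟩], [], [], [], [⟨nat_lit 4, [⟨nat_lit 4, [⟨nat_lit 4, nat_lit 17424, nat_lit 12336, nat_lit 2016, nat_lit 1200, nat_lit 4512, R7_42, R7_25, R7_94⟩]⟩, ⟨nat_lit 6, [⟨nat_lit 4, nat_lit 17568, nat_lit 12432, nat_lit 576, nat_lit 7200, nat_lit 2928, R2_12, R7_150, R2_61⟩, ⟨nat_lit 6, nat_lit 17664, nat_lit 12528, nat_lit 6288, nat_lit 5424, nat_lit 2400, R2_131, R2_113, R1_50⟩]⟩, ⟨nat_lit 7, [⟨nat_lit 4, nat_lit 17760, nat_lit 12384,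 nat_lit 528, nat_lit 8064, nat_lit 2976, R2_11, R7_168, R2_62⟩, ⟨nat_lit 7, nat_lit 17856, nat_lit 12480, nat_lit 6240, nat_lit 5472, nat_lit 2448, R2_130, R2_114, R1_51⟩]⟩]⟩,
 ⟨nat_lit 5, [⟨nat_lit 4, [⟨nat_lit 4, nat_lit 19344, nat_lit 13920, nat_lit 13968, nat_lit 16656, nat_lit 13152, R14_291, R14_347, R7_274⟩, ⟨nat_lit 5, nat_lit 19392, nat_lit 14544, nat_lit 14688, nat_lit 14064, nat_lit 15024, R14_306, R12_293, R14_313⟩]⟩, ⟨nat_lit 5, [⟨nat_lit 5, nat_lit 20208, nat_lit 14688, nat_lit 11760, nat_lit 14640, nat_lit 12096, R12_245, R12_305, R12_252⟩]⟩, ⟨nat_lit 6, [⟨nat_lit 4, nat_lit 19824, nat_lit 14016, nat_lit 10032, nat_lit 16848, nat_lit 11808, R12_209, R14_351, R2_246⟩, ⟨nat_lit 5, nat_lit 19968, nat_lit 14832, nat_lit 12048, nat_lit 14256, nat_lit 11808, R12_251, R12_297, R12_246⟩, ⟨nat_lit 6, nat_lit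 19920, nat_lit 15120, nat_lit 10704, nat_lit 15264, nat_lit 12240, R12_223, R12_318, R1_255⟩]⟩, ⟨nat_lit 7, [⟨nat_lit 4, nat_lit 20496, nat_lit 13968, nat_lit 9936, nat_lit 17040, nat_lit 11856, R12_207, R14_355, R2_247⟩, ⟨nat_lit 5, nat_lit 20544, nat_lit 14592, nat_lit 11952, nat_lit 14448, nat_lit 11856, R12_249, R12_301, R12_247⟩, ⟨nat_lit 7, nat_lit 20640, nat_lit 14112, nat_lit 10656, nat_lit 15312, nat_lit 12288, R12_222, R12_319, R1_256⟩]⟩]⟩,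
 ⟨nat_lit 6, [⟨nat_lit 6, [⟨nat_lit 6, nat_lit 21360, nat_lit 15888, nat_lit 4992, nat_lit 4128, nat_lit 7776, R1_104, R1_86, R1_162⟩]⟩]⟩,
 ⟨nat_lit 7, [⟨nat_lit 7, [⟨nat_lit 7, nat_lit 21792, nat_lit 15600, nat_lit 4944, nat_lit 4176, nat_lit 7824, R1_103, R1_87, R1_163⟩]⟩]⟩]], [[], [], [], [], [], [], [⟨nat_lit 5, [⟨nat_lit 4, [⟨nat_lit 5, nat_lit 19488, nat_lit 14064, nat_lit 14736, nat_lit 14544, nat_lit 14976, R14_307, R1_303, R14_312⟩]⟩, ⟨nat_lit 5, [⟨nat_lit 5, nat_lit 20256, nat_lit 14256, nat_lit 11808, nat_lit 14832, nat_lit 12048, R12_246, R1_309, R12_251⟩]⟩, ⟨nat_lit 6, [⟨nat_lit 5, nat_lit 20064, nat_lit 14640, nat_lit 12096, nat_lit 14688, nat_lit 11760, R12_252, R1_306, R12_245⟩]⟩, ⟨nat_lit 7, [⟨nat_lit 5, nat_lit 20688, nat_lit 14448, nat_lit 12240, nat_lit 14592, nat_lit 11616, R12_255, R1_304,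 R12_242⟩]⟩]⟩]], [[], [], [⟨nat_lit 5, [⟨nat_lit 4, [⟨nat_lit 7, nat_lit 19536, nat_lit 6048, nat_lit 12192, nat_lit 9744, nat_lit 13968, R14_254, R1_203, R5_291⟩]⟩, ⟨nat_lit 6, [⟨nat_lit 7, nat_lit 20112, nat_lit 6144, nat_lit 11376, nat_lit 10224, nat_lit 5328, R12_237, R1_213, R0_111⟩]⟩, ⟨nat_lit 7, [⟨nat_lit 7, nat_lit 20736, nat_lit 6096, nat_lit 17136, nat_lit 9936, nat_lit 7248, R12_357, R1_207, R11_151⟩]⟩]⟩]]], [[], [], [[], [], [], [], [], [], [⟨nat_lit 1, [⟨nat_lit 5, [⟨nat_lit 5, nat_lit 5232, nat_lit 15120, nat_lit 6912, nat_lit 8160, nat_lit 10896, R10_144, R10_170, R12_227⟩]⟩]⟩,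
 ⟨nat_lit 5, [⟨nat_lit 5, [⟨nat_lit 5, nat_lit 20880, nat_lit 15264, nat_lit 12240, nat_lit 15120, nat_lit 10704, R1_255, R1_315, R12_223⟩]⟩]⟩]]], [[], [], [], [[], [], [⟨nat_lit 1, [⟨nat_lit 4, [⟨nat_lit 4, nat_lit 5904, nat_lit 11328, nat_lit 17088, nat_lit 9024, nat_lit 15504, R5_356, R5_188, R4_323⟩, ⟨nat_lit 7, nat_lit 6048, nat_lit 11472, nat_lit 17520, nat_lit 8592, nat_lit 17520, R5_365, R11_179, R5_365⟩]⟩, ⟨nat_lit 7, [⟨nat_lit 7, nat_lit 6912, nat_lit 13008, nat_lit 7200, nat_lit 8640, nat_lit 7200, R11_150, R11_180, R11_150⟩]⟩]⟩,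
 ⟨nat_lit 5, [⟨nat_lit 7, [⟨nat_lit 7, nat_lit 21216, nat_lit 21696, nat_lit 16512, nat_lit 8832, nat_lit 7152, R1_344, R1_184, R11_149⟩]⟩]⟩]]], [], [[], [[], [], [⟨nat_lit 4, [⟨nat_lit 4, [⟨nat_lit 4, nat_lit 17904, nat_lit 6816, nat_lit 1824, nat_lit 720, nat_lit 4320, R4_38, R7_15, R4_90⟩, ⟨nat_lit 7, nat_lit 17952, nat_lit 6912, nat_lit 8544, nat_lit 2112, nat_lit 720, R4_178, R2_44, R5_15⟩]⟩, ⟨nat_lit 6, [⟨nat_lit 4, nat_lit 18048, nat_lit 6864, nat_lit 12720, nat_lit 6720, nat_lit 10704, R3_265, R7_140, R3_223⟩, ⟨nat_lit 6, nat_lit 18096, nat_lit 7200, nat_lit 13536, nat_lit 4896, nat_lit 6720, R3_282, R2_102, R10_140⟩, ⟨nat_lit 7, nat_lit 18144, nat_lit 7056, nat_lit 13056, nat_lit 9888, nat_lit 5376, R3_272, R2_206, R0_112⟩]⟩]⟩,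
 ⟨nat_lit 6, [⟨nat_lit 2, [⟨nat_lit 6, nat_lit 21504, nat_lit 7152, nat_lit 16320, nat_lit 15408, nat_lit 5760, R1_340, R1_321, R1_120⟩]⟩, ⟨nat_lit 6, [⟨nat_lit 6, nat_lit 21408, nat_lit 7248, nat_lit 19968, nat_lit 3600, nat_lit 6768, R10_416, R1_75, R10_141⟩]⟩]⟩,
 ⟨nat_lit 7, [⟨nat_lit 4, [⟨nat_lit 7, nat_lit 21840, nat_lit 6960, nat_lit 7152, nat_lit 1584, nat_lit 7680, R5_149, R1_33, R5_160⟩]⟩, ⟨nat_lit 6, [⟨nat_lit 7, nat_lit 21984, nat_lit 7104, nat_lit 15120, nat_lit 10704, nat_lit 5424, R0_315, R1_223, R0_113⟩]⟩, ⟨nat_lit 7, [⟨nat_lit 7, nat_lit 22176, nat_lit 7008, nat_lit 22176, nat_lit 7008, nat_lit 7296, R11_462, R1_146, R11_152⟩]⟩]⟩]], [], [], [], [[⟨nat_lit 0, [⟨nat_lit 0, [⟨nat_lit 0, nat_lit 1344, nat_lit 4752, nat_lit 960, nat_lit 480, nat_lit 10416, R4_20, R4_10, R6_217⟩]⟩, ⟨nat_lit 3, [⟨nat_lit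 0, nat_lit 1488, nat_lit 5040, nat_lit 4656, nat_lit 6864, nat_lit 9504, R3_97, R4_143, R13_198⟩, ⟨nat_lit 3, nat_lit 1632, nat_lit 5760, nat_lit 5328, nat_lit 5712, nat_lit 9984, R3_111, R3_119, R3_208⟩]⟩]⟩,
 ⟨nat_lit 2, [⟨nat_lit 0, [⟨nat_lit 0, nat_lit 12624, nat_lit 4800, nat_lit 288, nat_lit 1920, nat_lit 10464, R5_6, R5_40, R6_218⟩, ⟨nat_lit 2, nat_lit 12768, nat_lit 6480, nat_lit 6480, nat_lit 12768, nat_lit 10128, R5_135, R11_266, R8_211⟩]⟩, ⟨nat_lit 2, [⟨nat_lit 2, nat_lit 12912, nat_lit 7584, nat_lit 21936, nat_lit 12864, nat_lit 7296, R11_457, R11_268, R5_152⟩]⟩, ⟨nat_lit 3, [⟨nat_lit 0, nat_lit 13056, nat_lit 5088, nat_lit 14592, nat_lit 10464, nat_lit 9552, R0_304, R5_218, R13_199⟩, ⟨nat_lit 2, nat_lit 13200, nat_lit 6864, nat_lit 14688, nat_lit 12816, nat_lit 7392, R0_306, R11_267, R9_154⟩, ⟨nat_lit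 3, nat_lit 13296, nat_lit 5856, nat_lit 14640, nat_lit 8064, nat_lit 10176, R0_305, R0_168, R3_212⟩]⟩]⟩,
 ⟨nat_lit 3, [⟨nat_lit 3, [⟨nat_lit 3, nat_lit 16560, nat_lit 5808, nat_lit 19728, nat_lit 9984, nat_lit 10128, R10_411, R10_208, R3_211⟩]⟩, ⟨nat_lit 7, [⟨nat_lit 3, nat_lit 16464, nat_lit 5952, nat_lit 16176, nat_lit 10032, nat_lit 7008, R1_337, R10_209, R2_146⟩]⟩]⟩,
 ⟨nat_lit 6, [⟨nat_lit 2, [⟨nat_lit 2, nat_lit 21600, nat_lit 7536, nat_lit 16368, nat_lit 8784, nat_lit 7344, R1_341, R1_183, R5_153⟩]⟩]⟩], [⟨nat_lit 0, [⟨nat_lit 0, [⟨nat_lit 0, nat_lit 1392, nat_lit 11712, nat_lit 1248, nat_lit 768, nat_lit 2784, R4_26, R4_16, R8_58⟩]⟩, ⟨nat_lit 3, [⟨nat_lit 0, nat_lit 1536, nat_lit 11952, nat_lit 4704, nat_lit 7152, nat_lit 17904, R3_98, R4_149, R9_373⟩, ⟨nat_lit 3, nat_lit 1680, nat_lit 12096, nat_lit 5376,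 nat_lit 5808, nat_lit 2112, R3_112, R3_121, R0_44⟩]⟩]⟩,
 ⟨nat_lit 2, [⟨nat_lit 0, [⟨nat_lit 0, nat_lit 12672, nat_lit 14544, nat_lit 384, nat_lit 2448, nat_lit 6864, R5_8, R5_51, R8_143⟩, ⟨nat_lit 2, nat_lit 12816, nat_lit 14688, nat_lit 6864, nat_lit 13200, nat_lit 10608, R5_143, R11_275, R9_221⟩]⟩, ⟨nat_lit 2, [⟨nat_lit 2, nat_lit 12960, nat_lit 15264, nat_lit 22128, nat_lit 13248, nat_lit 5232, R11_461, R11_276, R0_109⟩]⟩, ⟨nat_lit 3, [⟨nat_lit 0, nat_lit 13104, nat_lit 14832, nat_lit 15024, nat_lit 11280, nat_lit 18192, R0_313, R5_235, R9_379⟩, ⟨nat_lit 3, nat_lit 13344, nat_lit 14976, nat_lit 15072, nat_lit 8208, nat_lit 9264, R0_314, R0_171, R0_193⟩]⟩]⟩,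
 ⟨nat_lit 3, [⟨nat_lit 3, [⟨nat_lit 3, nat_lit 16608, nat_lit 14208, nat_lit 19920, nat_lit 10272, nat_lit 7152, R10_415, R10_214, R0_149⟩]⟩]⟩,
 ⟨nat_lit 6, [⟨nat_lit 2, [⟨nat_lit 2, nat_lit 21648, nat_lit 10128, nat_lit 16416, nat_lit 8880, nat_lit 13968, R1_342, R1_185, R0_291⟩]⟩]⟩], [⟨nat_lit 0, [⟨nat_lit 0, [⟨nat_lit 0, nat_lit 1440, nat_lit 18000, nat_lit 1392, nat_lit 528, nat_lit 4416, R4_29, R4_11, R4_92⟩]⟩, ⟨nat_lit 3, [⟨nat_lit 0, nat_lit 1584, nat_lit 18192, nat_lit 4752, nat_lit 6912, nat_lit 17568, R3_99, R4_144, R3_366⟩, ⟨nat_lit 3, nat_lit 1728, nat_lit 18240, nat_lit 5424, nat_lit 5760, nat_lit 6576, R3_113, R3_120, R10_137⟩]⟩]⟩,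
 ⟨nat_lit 2, [⟨nat_lit 0, [⟨nat_lit 0, nat_lit 12720, nat_lit 21888, nat_lit 624, nat_lit 2112, nat_lit 10704, R5_13, R5_44, R4_223⟩, ⟨nat_lit 2, nat_lit 12864, nat_lit 21936, nat_lit 7584, nat_lit 12912, nat_lit 7296, R5_158, R11_269, R5_152⟩]⟩, ⟨nat_lit 2, [⟨nat_lit 2, nat_lit 13008, nat_lit 22224, nat_lit 22224, nat_lit 13008, nat_lit 6912, R11_463, R11_271, R11_144⟩]⟩, ⟨nat_lit 3, [⟨nat_lit 0, nat_lit 13152, nat_lit 22032, nat_lit 15168, nat_lit 10944, nat_lit 17952, R0_316, R5_228, R3_374⟩, ⟨nat_lit 2, nat_lit 13248, nat_lit 22128, nat_lit 15264, nat_lit 12960, nat_lit 5232, R0_318, R11_270, R0_109⟩, ⟨nat_lit 3, nat_lit 13392, nat_lit 22080, nat_lit 15216, nat_lit 8112, nat_lit 6672, R0_317, R0_169, R10_139⟩]⟩]⟩,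
 ⟨nat_lit 3, [⟨nat_lit 3, [⟨nat_lit 3, nat_lit 16656, nat_lit 21456, nat_lit 20016, nat_lit 10128, nat_lit 6624, R10_417, R10_211, R10_138⟩]⟩, ⟨nat_lit 7, [⟨nat_lit 3, nat_lit 16512, nat_lit 21552, nat_lit 16464, nat_lit 10176, nat_lit 5712, R1_343, R10_212, R1_119⟩, ⟨nat_lit 7, nat_lit 16416, nat_lit 21696, nat_lit 16512, nat_lit 8832, nat_lit 6960, R1_344, R1_184, R11_145⟩]⟩]⟩,
 ⟨nat_lit 4, [⟨nat_lit 4, [⟨nat_lit 4, nat_lit 18000, nat_lit 1440, nat_lit 1392, nat_lit 528, nat_lit 4416, R4_29, R4_11, R4_92⟩]⟩, ⟨nat_lit 6, [⟨nat_lit 4, nat_lit 18192, nat_lit 1584, nat_lit 4752, nat_lit 6912, nat_lit 17568, R3_99, R4_144, R3_366⟩, ⟨nat_lit 6, nat_lit 18240, nat_lit 1728, nat_lit 5424, nat_lit 5760, nat_lit 6576, R3_113, R3_120, R10_137⟩]⟩]⟩,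
 ⟨nat_lit 6, [⟨nat_lit 2, [⟨nat_lit 2, nat_lit 21696, nat_lit 16416, nat_lit 16512, nat_lit 8832, nat_lit 6960, R1_344, R1_184, R11_145⟩, ⟨nat_lit 6, nat_lit 21552, nat_lit 16512, nat_lit 16464, nat_lit 10176, nat_lit 5712, R1_343, R10_212, R1_119⟩]⟩, ⟨nat_lit 6, [⟨nat_lit 6, nat_lit 21456, nat_lit 16656, nat_lit 20016, nat_lit 10128, nat_lit 6624, R10_417, R10_211, R10_138⟩]⟩]⟩,
 ⟨nat_lit 7, [⟨nat_lit 4, [⟨nat_lit 4, nat_lit 21888, nat_lit 12720, nat_lit 624, nat_lit 2112, nat_lit 10704, R5_13, R5_44, R4_223⟩, ⟨nat_lit 7, nat_lit 21936, nat_lit 12864, nat_lit 7584, nat_lit 12912, nat_lit 7296, R5_158, R11_269, R5_152⟩]⟩, ⟨nat_lit 6, [⟨nat_lit 4, nat_lit 22032, nat_lit 13152, nat_lit 15168, nat_lit 10944, nat_lit 17952, R0_316, R5_228, R3_374⟩, ⟨nat_lit 6, nat_lit 22080, nat_lit 13392, nat_lit 15216, nat_lit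 8112, nat_lit 6672, R0_317, R0_169, R10_139⟩, ⟨nat_lit 7, nat_lit 22128, nat_lit 13248, nat_lit 15264, nat_lit 12960, nat_lit 5232, R0_318, R11_270, R0_109⟩]⟩, ⟨nat_lit 7, [⟨nat_lit 7, nat_lit 22224, nat_lit 13008, nat_lit 22224, nat_lit 13008, nat_lit 6912, R11_463, R11_271, R11_144⟩]⟩]⟩]]], [[], [], [], [], [[], [⟨nat_lit 0, [⟨nat_lit 0, [⟨nat_lit 0, nat_lit 1776, nat_lit 8352, nat_lit 2400, nat_lit 16560, nat_lit 2160, R8_50, R6_345, R8_45⟩]⟩, ⟨nat_lit 1, [⟨nat_lit 0, nat_lit 1968, nat_lit 8448, nat_lit 4704, nat_lit 17232, nat_lit 16896, R5_98, R6_359, R5_352⟩]⟩, ⟨nat_lit 3, [⟨nat_lit 0, nat_lit 2208, nat_lit 8400, nat_lit 3888, nat_lit 16896, nat_lit 16224, R9_81, R6_352, R9_338⟩, ⟨nat_lit 3, nat_lit 2256, nat_lit 10320, nat_lit 4320, nat_lit 12816, nat_lit 384, R9_90, R13_267, R0_8⟩]⟩]⟩,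
 ⟨nat_lit 2, [⟨nat_lit 0, [⟨nat_lit 0, nat_lit 13440, nat_lit 9696, nat_lit 6096, nat_lit 16992, nat_lit 6672, R9_127, R8_354, R8_139⟩, ⟨nat_lit 2, nat_lit 13488, nat_lit 11952, nat_lit 6768, nat_lit 11952, nat_lit 7008, R9_141, R5_249, R9_146⟩]⟩, ⟨nat_lit 1, [⟨nat_lit 0, nat_lit 13920, nat_lit 9744, nat_lit 3936, nat_lit 17520, nat_lit 17040, R0_82, R8_365, R5_355⟩, ⟨nat_lit 2, nat_lit 13968, nat_lit 12000, nat_lit 4608, nat_lit 12048, nat_lit 4848, R0_96, R5_251, R0_101⟩]⟩, ⟨nat_lit 2, [⟨nat_lit 2, nat_lit 13776, nat_lit 12048, nat_lit 4848, nat_lit 12000, nat_lit 4608, R0_101, R5_250, R0_96⟩]⟩]⟩,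
 ⟨nat_lit 3, [⟨nat_lit 3, [⟨nat_lit 3, nat_lit 16704, nat_lit 10800, nat_lit 3024, nat_lit 17808, nat_lit 5808, R0_63, R3_371, R0_121⟩]⟩]⟩]], [[], [⟨nat_lit 0, [⟨nat_lit 0, [⟨nat_lit 0, nat_lit 1824, nat_lit 672, nat_lit 2448, nat_lit 2496, nat_lit 2304, R8_51, R4_52, R8_48⟩]⟩, ⟨nat_lit 1, [⟨nat_lit 0, nat_lit 2016, nat_lit 5904, nat_lit 5376, nat_lit 11328, nat_lit 17616, R5_112, R4_236, R5_367⟩]⟩, ⟨nat_lit 3, [⟨nat_lit 0, nat_lit 2304, nat_lit 8496, nat_lit 4800, nat_lit 7824, nat_lit 17856, R9_100, R4_163, R9_372⟩, ⟨nat_lit 3, nat_lit 2352, nat_lit 8592, nat_lit 5184, nat_lit 7344, nat_lit 2064, R9_108, R3_153, R0_43⟩]⟩]⟩,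
 ⟨nat_lit 2, [⟨nat_lit 0, [⟨nat_lit 0, nat_lit 13536, nat_lit 1152, nat_lit 6144, nat_lit 2496, nat_lit 6816, R9_128, R5_52, R8_142⟩, ⟨nat_lit 2, nat_lit 13584, nat_lit 1200, nat_lit 6816, nat_lit 14928, nat_lit 7152, R9_142, R11_311, R9_149⟩]⟩, ⟨nat_lit 1, [⟨nat_lit 0, nat_lit 14016, nat_lit 6288, nat_lit 3984, nat_lit 13584, nat_lit 17760, R0_83, R5_283, R5_370⟩, ⟨nat_lit 2, nat_lit 14064, nat_lit 6336, nat_lit 4656, nat_lit 15024, nat_lit 4992, R0_97, R11_313, R0_104⟩]⟩, ⟨nat_lit 2, [⟨nat_lit 2, nat_lit 13824, nat_lit 10416, nat_lit 4896, nat_lit 14976, nat_lit 4752, R0_102, R11_312, R0_99⟩]⟩]⟩,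
 ⟨nat_lit 3, [⟨nat_lit 3, [⟨nat_lit 3, nat_lit 16752, nat_lit 8784, nat_lit 3408, nat_lit 12000, nat_lit 7104, R0_71, R10_250, R0_148⟩]⟩]⟩]], [[], [⟨nat_lit 0, [⟨nat_lit 0, [⟨nat_lit 0, nat_lit 1872, nat_lit 10800, nat_lit 2544, nat_lit 3648, nat_lit 2208, R8_53, R8_76, R8_46⟩, ⟨nat_lit 1, nat_lit 1920, nat_lit 12768, nat_lit 10128, nat_lit 6480, nat_lit 6480, R8_211, R5_135, R5_135⟩]⟩, ⟨nat_lit 1, [⟨nat_lit 0, nat_lit 2064, nat_lit 10896, nat_lit 6432, nat_lit 10896, nat_lit 17232, R5_134, R8_227, R5_359⟩, ⟨nat_lit 1, nat_lit 2112, nat_lit 12864, nat_lit 7296, nat_lit 7584, nat_lit 21936, R5_152, R5_158, R11_457⟩]⟩, ⟨nat_lit 3, [⟨nat_lit 0, nat_lit 2400, nat_lit 10848, nat_lit 6192, nat_lit 8928, nat_lit 17088, R9_129, R8_186, R9_356⟩, ⟨nat_lit 1, nat_lit 2448, nat_lit 12816, nat_lit 7392, nat_lit 6864, nat_lit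 14688, R9_154, R5_143, R0_306⟩, ⟨nat_lit 3, nat_lit 2496, nat_lit 13584, nat_lit 6912, nat_lit 7056, nat_lit 1200, R9_144, R9_147, R0_25⟩]⟩]⟩,
 ⟨nat_lit 2, [⟨nat_lit 0, [⟨nat_lit 0, nat_lit 13632, nat_lit 12144, nat_lit 6192, nat_lit 17088, nat_lit 6720, R9_129, R9_356, R8_140⟩, ⟨nat_lit 1, nat_lit 13728, nat_lit 13200, nat_lit 7392, nat_lit 14688, nat_lit 6864, R9_154, R0_306, R5_143⟩, ⟨nat_lit 2, nat_lit 13680, nat_lit 14928, nat_lit 6912, nat_lit 1200, nat_lit 7056, R9_144, R0_25, R9_147⟩]⟩, ⟨nat_lit 1, [⟨nat_lit 0, nat_lit 14112, nat_lit 12192, nat_lit 4032, nat_lit 17664, nat_lit 17424, R0_84, R9_368, R5_363⟩, ⟨nat_lit 1, nat_lit 14208, nat_lit 13248, nat_lit 5232, nat_lit 15264, nat_lit 22128, R0_109, R0_318, R11_461⟩, ⟨nat_lit 2, nat_lit 14160, nat_lit 14976, nat_lit 4752, nat_lit 10416, nat_lit 4896,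 R0_99, R0_217, R0_102⟩]⟩, ⟨nat_lit 2, [⟨nat_lit 2, nat_lit 13872, nat_lit 15024, nat_lit 4992, nat_lit 6336, nat_lit 4656, R0_104, R0_132, R0_97⟩]⟩]⟩,
 ⟨nat_lit 3, [⟨nat_lit 3, [⟨nat_lit 3, nat_lit 16800, nat_lit 14064, nat_lit 4992, nat_lit 4656, nat_lit 6336, R0_104, R0_97, R0_132⟩]⟩]⟩], [], [], [], [⟨nat_lit 0, [⟨nat_lit 1, [⟨nat_lit 1, nat_lit 2160, nat_lit 8784, nat_lit 7344, nat_lit 7536, nat_lit 16368, R5_153, R5_157, R1_341⟩]⟩]⟩,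
 ⟨nat_lit 2, [⟨nat_lit 1, [⟨nat_lit 1, nat_lit 14256, nat_lit 8880, nat_lit 13968, nat_lit 10128, nat_lit 16416, R0_291, R0_211, R1_342⟩]⟩]⟩]]], [[], [], [], [], [[⟨nat_lit 0, [⟨nat_lit 3, [⟨nat_lit 0, nat_lit 3264, nat_lit 10560, nat_lit 96, nat_lit 12144, nat_lit 5376, R3_2, R6_253, R13_112⟩, ⟨nat_lit 3, nat_lit 3456, nat_lit 11328, nat_lit 3840, nat_lit 11328, nat_lit 3840, R3_80, R13_236, R3_80⟩]⟩, ⟨nat_lit 7, [⟨nat_lit 3, nat_lit 2592, nat_lit 11376, nat_lit 3792, nat_lit 11376, nat_lit 3792, R2_79, R13_237, R2_79⟩]⟩]⟩,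
 ⟨nat_lit 2, [⟨nat_lit 3, [⟨nat_lit 0, nat_lit 14304, nat_lit 10896, nat_lit 192, nat_lit 12960, nat_lit 5424, R0_4, R8_270, R13_113⟩, ⟨nat_lit 2, nat_lit 14496, nat_lit 12816, nat_lit 384, nat_lit 10320, nat_lit 4320, R0_8, R5_215, R9_90⟩, ⟨nat_lit 3, nat_lit 14640, nat_lit 12480, nat_lit 288, nat_lit 8928, nat_lit 4128, R0_6, R9_186, R3_86⟩]⟩]⟩,
 ⟨nat_lit 3, [⟨nat_lit 7, [⟨nat_lit 3, nat_lit 16896, nat_lit 12000, nat_lit 16848, nat_lit 12096, nat_lit 3840, R12_351, R3_252, R2_80⟩]⟩]⟩], [⟨nat_lit 0, [⟨nat_lit 3, [⟨nat_lit 0, nat_lit 3312, nat_lit 8112, nat_lit 528, nat_lit 15600, nat_lit 16176, R3_11, R6_325, R9_337⟩, ⟨nat_lit 3, nat_lit 3504, nat_lit 8928, nat_lit 4128, nat_lit 12480, nat_lit 288, R3_86, R13_260, R0_6⟩]⟩]⟩,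
 ⟨nat_lit 2, [⟨nat_lit 3, [⟨nat_lit 0, nat_lit 14352, nat_lit 8592, nat_lit 7728, nat_lit 17280, nat_lit 16608, R0_161, R8_360, R9_346⟩, ⟨nat_lit 3, nat_lit 14688, nat_lit 9696, nat_lit 7872, nat_lit 9696, nat_lit 7872, R0_164, R9_202, R0_164⟩]⟩]⟩], [⟨nat_lit 0, [⟨nat_lit 3, [⟨nat_lit 3, nat_lit 3552, nat_lit 8928, nat_lit 4272, nat_lit 11664, nat_lit 3792, R3_89, R13_243, R10_79⟩]⟩, ⟨nat_lit 7, [⟨nat_lit 3, nat_lit 2640, nat_lit 8976, nat_lit 3888, nat_lit 11712, nat_lit 3264, R2_81, R13_244, R1_68⟩]⟩]⟩,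
 ⟨nat_lit 2, [⟨nat_lit 3, [⟨nat_lit 0, nat_lit 14400, nat_lit 8736, nat_lit 9888, nat_lit 14016, nat_lit 16608, R0_206, R8_292, R3_346⟩, ⟨nat_lit 2, nat_lit 14544, nat_lit 9552, nat_lit 9984, nat_lit 10560, nat_lit 2784, R0_208, R5_220, R0_58⟩, ⟨nat_lit 3, nat_lit 14736, nat_lit 9360, nat_lit 9936, nat_lit 9216, nat_lit 3840, R0_207, R9_192, R10_80⟩]⟩]⟩,
 ⟨nat_lit 3, [⟨nat_lit 7, [⟨nat_lit 3, nat_lit 16944, nat_lit 9216, nat_lit 16992, nat_lit 15552, nat_lit 3312, R12_354, R3_324, R1_69⟩, ⟨nat_lit 7, nat_lit 16848, nat_lit 8016, nat_lit 16944, nat_lit 9120, nat_lit 6576, R12_353, R2_190, R11_137⟩]⟩]⟩], [⟨nat_lit 0, [⟨nat_lit 3, [⟨nat_lit 0, nat_lit 3408, nat_lit 11520, nat_lit 240, nat_lit 13488, nat_lit 2976, R3_5, R6_281, R3_62⟩]⟩, ⟨nat_lit 7, [⟨nat_lit 0, nat_lit 2544, nat_lit 11184, nat_lit 3216, nat_lit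 13200, nat_lit 14592, R2_67, R6_275, R2_304⟩, ⟨nat_lit 3, nat_lit 2688, nat_lit 12096, nat_lit 3840, nat_lit 12000, nat_lit 5376, R2_80, R13_250, R12_112⟩]⟩]⟩,
 ⟨nat_lit 2, [⟨nat_lit 3, [⟨nat_lit 0, nat_lit 14448, nat_lit 16512, nat_lit 5712, nat_lit 14688, nat_lit 8784, R0_119, R8_306, R3_183⟩, ⟨nat_lit 2, nat_lit 14592, nat_lit 17808, nat_lit 5808, nat_lit 10800, nat_lit 3024, R0_121, R5_225, R0_63⟩]⟩]⟩,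
 ⟨nat_lit 3, [⟨nat_lit 7, [⟨nat_lit 3, nat_lit 16992, nat_lit 14784, nat_lit 16896, nat_lit 14784, nat_lit 5424, R12_352, R3_308, R12_113⟩]⟩]⟩]], [[⟨nat_lit 0, [⟨nat_lit 3, [⟨nat_lit 0, nat_lit 3600, nat_lit 4464, nat_lit 816, nat_lit 6384, nat_lit 8976, R3_17, R4_133, R13_187⟩, ⟨nat_lit 3, nat_lit 3744, nat_lit 5472, nat_lit 6144, nat_lit 6240, nat_lit 7248, R3_128, R3_130, R3_151⟩]⟩, ⟨nat_lit 7, [⟨nat_lit 3, nat_lit 2784, nat_lit 5856, nat_lit 4608, nat_lit 6720, nat_lit 6768, R2_96, R3_140, R2_141⟩]⟩]⟩,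
 ⟨nat_lit 2, [⟨nat_lit 3, [⟨nat_lit 0, nat_lit 14784, nat_lit 4512, nat_lit 1008, nat_lit 10416, nat_lit 9024, R0_21, R5_217, R13_188⟩, ⟨nat_lit 2, nat_lit 14928, nat_lit 7056, nat_lit 1200, nat_lit 13584, nat_lit 6912, R0_25, R11_283, R9_144⟩, ⟨nat_lit 3, nat_lit 15072, nat_lit 5520, nat_lit 1104, nat_lit 8448, nat_lit 7392, R0_23, R0_176, R3_154⟩]⟩]⟩,
 ⟨nat_lit 3, [⟨nat_lit 7, [⟨nat_lit 3, nat_lit 17088, nat_lit 5904, nat_lit 17040, nat_lit 10608, nat_lit 6816, R12_355, R10_221, R2_142⟩]⟩]⟩], [], [⟨nat_lit 0, [⟨nat_lit 3, [⟨nat_lit 3, nat_lit 3792, nat_lit 3312, nat_lit 6336, nat_lit 6288, nat_lit 6336, R3_132, R3_131, R10_132⟩]⟩, ⟨nat_lit 7, [⟨nat_lit 3, nat_lit 2832, nat_lit 3696, nat_lit 4704, nat_lit 6816, nat_lit 5472, R2_98, R3_142, R1_114⟩]⟩]⟩,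
 ⟨nat_lit 2, [⟨nat_lit 3, [⟨nat_lit 0, nat_lit 14832, nat_lit 2976, nat_lit 10320, nat_lit 10896, nat_lit 17904, R0_215, R5_227, R3_373⟩, ⟨nat_lit 2, nat_lit 14976, nat_lit 4896, nat_lit 10416, nat_lit 13824, nat_lit 4752, R0_217, R11_288, R0_99⟩, ⟨nat_lit 3, nat_lit 15120, nat_lit 3360, nat_lit 10368, nat_lit 8736, nat_lit 6384, R0_216, R0_182, R10_133⟩]⟩]⟩,
 ⟨nat_lit 3, [⟨nat_lit 7, [⟨nat_lit 3, nat_lit 17136, nat_lit 3744, nat_lit 17184, nat_lit 10896, nat_lit 5520, R12_358, R10_227, R1_115⟩, ⟨nat_lit 7, nat_lit 17040, nat_lit 6096, nat_lit 17136, nat_lit 9936, nat_lit 6864, R12_357, R1_207, R11_143⟩]⟩]⟩], [⟨nat_lit 0, [⟨nat_lit 3, [⟨nat_lit 0, nat_lit 3696, nat_lit 2448, nat_lit 960, nat_lit 6528, nat_lit 3600, R3_20, R4_136, R3_75⟩]⟩, ⟨nat_lit 7, [⟨nat_lit 0, nat_lit 2736, nat_lit 12384, nat_lit 4080, nat_lit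 13008, nat_lit 15648, R2_85, R4_271, R2_326⟩, ⟨nat_lit 3, nat_lit 2880, nat_lit 13344, nat_lit 4656, nat_lit 6768, nat_lit 5808, R2_97, R3_141, R12_121⟩]⟩]⟩,
 ⟨nat_lit 2, [⟨nat_lit 3, [⟨nat_lit 0, nat_lit 14880, nat_lit 2736, nat_lit 6240, nat_lit 10608, nat_lit 9600, R0_130, R5_221, R3_200⟩, ⟨nat_lit 2, nat_lit 15024, nat_lit 4656, nat_lit 6336, nat_lit 14064, nat_lit 4992, R0_132, R11_293, R0_104⟩]⟩]⟩,
 ⟨nat_lit 3, [⟨nat_lit 7, [⟨nat_lit 3, nat_lit 17184, nat_lit 13536, nat_lit 17088, nat_lit 11280, nat_lit 5856, R12_356, R10_235, R12_122⟩]⟩]⟩]], [[⟨nat_lit 0, [⟨nat_lit 3, [⟨nat_lit 0, nat_lit 3840, nat_lit 3984, nat_lit 2352, nat_lit 8208, nat_lit 6960, R3_49, R8_171, R13_145⟩, ⟨nat_lit 1, nat_lit 3984, nat_lit 5712, nat_lit 9984, nat_lit 5760, nat_lit 5328, R3_208, R5_120, R3_111⟩, ⟨nat_lit 3, nat_lit 4128,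 nat_lit 6240, nat_lit 7248, nat_lit 5472, nat_lit 6144, R3_151, R9_114, R3_128⟩]⟩, ⟨nat_lit 7, [⟨nat_lit 3, nat_lit 3024, nat_lit 6720, nat_lit 6768, nat_lit 5856, nat_lit 4608, R2_141, R9_122, R2_96⟩]⟩]⟩,
 ⟨nat_lit 2, [⟨nat_lit 3, [⟨nat_lit 0, nat_lit 15168, nat_lit 4080, nat_lit 1968, nat_lit 13968, nat_lit 7008, R0_41, R9_291, R13_146⟩, ⟨nat_lit 1, nat_lit 15408, nat_lit 5808, nat_lit 2112, nat_lit 12096, nat_lit 5376, R0_44, R0_252, R3_112⟩, ⟨nat_lit 2, nat_lit 15312, nat_lit 7344, nat_lit 2064, nat_lit 8592, nat_lit 5184, R0_43, R0_179, R9_108⟩]⟩]⟩,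
 ⟨nat_lit 3, [⟨nat_lit 7, [⟨nat_lit 3, nat_lit 17232, nat_lit 6768, nat_lit 17280, nat_lit 13344, nat_lit 4656, R12_360, R0_278, R2_97⟩]⟩]⟩], [⟨nat_lit 0, [⟨nat_lit 3, [⟨nat_lit 0, nat_lit 3888, nat_lit 7344, nat_lit 2640, nat_lit 8880, nat_lit 17040, R3_55, R8_185, R9_355⟩, ⟨nat_lit 1, nat_lit 4032, nat_lit 8064, nat_lit 10176, nat_lit 5856, nat_lit 14640, R3_212, R5_122, R0_305⟩, ⟨nat_lit 3, nat_lit 4176, nat_lit 8448, nat_lit 7392, nat_lit 5520, nat_lit 1104, R3_154, R9_115, R0_23⟩]⟩]⟩,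
 ⟨nat_lit 2, [⟨nat_lit 3, [⟨nat_lit 0, nat_lit 15216, nat_lit 7824, nat_lit 9120, nat_lit 17376, nat_lit 17472, R0_190, R9_362, R9_364⟩, ⟨nat_lit 1, nat_lit 15456, nat_lit 8208, nat_lit 9264, nat_lit 14976, nat_lit 15072, R0_193, R0_312, R0_314⟩]⟩]⟩], [], [⟨nat_lit 0, [⟨nat_lit 3, [⟨nat_lit 0, nat_lit 3936, nat_lit 9072, nat_lit 2496, nat_lit 8400, nat_lit 3312, R3_52, R8_175, R3_69⟩, ⟨nat_lit 1, nat_lit 4080, nat_lit 9984, nat_lit 10128, nat_lit 5808, nat_lit 19728, R3_211, R5_121, R10_411⟩]⟩, ⟨nat_lit 7, [⟨nat_lit 0, nat_lit 2928, nat_lit 9120, nat_lit 6432, nat_lit 15024, nat_lit 15168, R2_134, R8_313, R2_316⟩, ⟨nat_lit 1, nat_lit 2976, nat_lit 10032, nat_lit 7008, nat_lit 5952, nat_lit 16176, R2_146, R5_124, R1_337⟩, ⟨nat_lit 3, nat_lit 3072, nat_lit 10608, nat_lit 6816, nat_lit 5904, nat_lit 5568, R2_142,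 R9_123, R12_116⟩]⟩]⟩,
 ⟨nat_lit 2, [⟨nat_lit 3, [⟨nat_lit 0, nat_lit 15264, nat_lit 9696, nat_lit 7008, nat_lit 15744, nat_lit 9408, R0_146, R9_328, R3_196⟩, ⟨nat_lit 1, nat_lit 15504, nat_lit 10272, nat_lit 7152, nat_lit 14208, nat_lit 19920, R0_149, R0_296, R10_415⟩, ⟨nat_lit 2, nat_lit 15360, nat_lit 12000, nat_lit 7104, nat_lit 8784, nat_lit 3408, R0_148, R0_183, R0_71⟩]⟩]⟩,
 ⟨nat_lit 3, [⟨nat_lit 7, [⟨nat_lit 3, nat_lit 17280, nat_lit 11280, nat_lit 17328, nat_lit 13536, nat_lit 5616, R12_361, R0_282, R12_117⟩]⟩]⟩]], [[⟨nat_lit 0, [⟨nat_lit 3, [⟨nat_lit 3, nat_lit 4224, nat_lit 4992, nat_lit 5568, nat_lit 4992, nat_lit 5568, R3_116, R3_104, R3_116⟩]⟩, ⟨nat_lit 7, [⟨nat_lit 3, nat_lit 3168, nat_lit 13200, nat_lit 5088, nat_lit 13200, nat_lit 5088, R2_106, R3_275, R2_106⟩]⟩]⟩,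
 ⟨nat_lit 2, [⟨nat_lit 3, [⟨nat_lit 3, nat_lit 15552, nat_lit 5280, nat_lit 528, nat_lit 12048, nat_lit 5856, R0_11, R0_251, R3_122⟩]⟩]⟩], [⟨nat_lit 0, [⟨nat_lit 3, [⟨nat_lit 3, nat_lit 4272, nat_lit 12048, nat_lit 5856, nat_lit 5280, nat_lit 528, R3_122, R3_110, R0_11⟩]⟩]⟩,
 ⟨nat_lit 2, [⟨nat_lit 3, [⟨nat_lit 3, nat_lit 15600, nat_lit 14928, nat_lit 8256, nat_lit 14928, nat_lit 8256, R0_172, R0_311, R0_172⟩]⟩]⟩], [⟨nat_lit 0, [⟨nat_lit 3, [⟨nat_lit 3, nat_lit 4320, nat_lit 4848, nat_lit 6000, nat_lit 5040, nat_lit 4464, R3_125, R3_105, R10_93⟩]⟩, ⟨nat_lit 7, [⟨nat_lit 3, nat_lit 3216, nat_lit 5424, nat_lit 5136, nat_lit 13344, nat_lit 3792, R2_107, R3_278, R1_79⟩, ⟨nat_lit 7, nat_lit 3120, nat_lit 7872, nat_lit 5760, nat_lit 6048, nat_lit 6624, R2_120, R2_126, R11_138⟩]⟩]⟩,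
 ⟨nat_lit 2, [⟨nat_lit 3, [⟨nat_lit 3, nat_lit 15648, nat_lit 4944, nat_lit 10272, nat_lit 14160, nat_lit 4512, R0_214, R0_295, R10_94⟩]⟩]⟩,
 ⟨nat_lit 3, [⟨nat_lit 7, [⟨nat_lit 7, nat_lit 17328, nat_lit 7920, nat_lit 17232, nat_lit 7872, nat_lit 6672, R12_359, R12_164, R11_139⟩]⟩]⟩]]]]
noncomputable def N3665 : T3 (List N0) := [[[[], [], [⟨nat_lit 0, [⟨nat_lit 1, [⟨nat_lit 1, nat_lit 12576, nat_lit 1440, nat_lit 4608, nat_lit 1008, nat_lit 15216, R7_96, R7_21, R1_317⟩, ⟨nat_lit 5, nat_lit 12720, nat_lit 624, nat_lit 4656, nat_lit 1296, nat_lit 18432, R7_97, R4_27, R10_384⟩]⟩, ⟨nat_lit 5, [⟨nat_lit 5, nat_lit 12768, nat_lit 576, nat_lit 4464, nat_lit 1344, nat_lit 432, R4_93, R4_28, R1_9⟩]⟩]⟩,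
 ⟨nat_lit 1, [⟨nat_lit 1, [⟨nat_lit 1, nat_lit 12624, nat_lit 7344, nat_lit 3024, nat_lit 48, nat_lit 15360, R2_63, R2_1, R1_320⟩, ⟨nat_lit 5, nat_lit 12816, nat_lit 7008, nat_lit 3072, nat_lit 4848, nat_lit 18576, R2_64, R3_101, R10_387⟩]⟩, ⟨nat_lit 5, [⟨nat_lit 5, nat_lit 12864, nat_lit 6960, nat_lit 17328, nat_lit 4800, nat_lit 480, R3_361, R3_100, R1_10⟩]⟩]⟩,
 ⟨nat_lit 3, [⟨nat_lit 1, [⟨nat_lit 1, nat_lit 12672, nat_lit 8112, nat_lit 864, nat_lit 2256, nat_lit 15264, R2_18, R2_47, R1_318⟩]⟩]⟩], [], [], [], [⟨nat_lit 0, [⟨nat_lit 1, [⟨nat_lit 1, nat_lit 12336, nat_lit 1248, nat_lit 4560, nat_lit 1968, nat_lit 18480, R7_95, R7_41, R11_385⟩]⟩]⟩,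
 ⟨nat_lit 1, [⟨nat_lit 1, [⟨nat_lit 1, nat_lit 12384, nat_lit 7248, nat_lit 2976, nat_lit 528, nat_lit 18960, R2_62, R2_11, R11_395⟩]⟩]⟩,
 ⟨nat_lit 3, [⟨nat_lit 1, [⟨nat_lit 1, nat_lit 12432, nat_lit 8112, nat_lit 2928, nat_lit 576, nat_lit 18672, R2_61, R2_12, R11_389⟩]⟩]⟩]], [], [[], [], [], [], [⟨nat_lit 0, [⟨nat_lit 1, [⟨nat_lit 0, nat_lit 13056, nat_lit 14160, nat_lit 12960, nat_lit 11472, nat_lit 13536, R7_270, R7_239, R4_282⟩]⟩]⟩,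
 ⟨nat_lit 3, [⟨nat_lit 1, [⟨nat_lit 0, nat_lit 13104, nat_lit 14208, nat_lit 10512, nat_lit 10752, nat_lit 13680, R2_219, R2_224, R4_285⟩, ⟨nat_lit 3, nat_lit 13152, nat_lit 14448, nat_lit 10608, nat_lit 11136, nat_lit 15360, R2_221, R1_232, R3_320⟩]⟩]⟩], [], [⟨nat_lit 0, [⟨nat_lit 1, [⟨nat_lit 0, nat_lit 13824, nat_lit 17712, nat_lit 13104, nat_lit 11856, nat_lit 15024, R7_273, R7_247, R5_313⟩, ⟨nat_lit 1, nat_lit 13920, nat_lit 17760, nat_lit 13200, nat_lit 12672, nat_lit 18528, R7_275, R14_264, R11_386⟩]⟩]⟩,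
 ⟨nat_lit 1, [⟨nat_lit 1, [⟨nat_lit 1, nat_lit 13968, nat_lit 18192, nat_lit 11856, nat_lit 9936, nat_lit 19008, R2_247, R12_207, R11_396⟩]⟩]⟩,
 ⟨nat_lit 3, [⟨nat_lit 1, [⟨nat_lit 0, nat_lit 13872, nat_lit 18288, nat_lit 11712, nat_lit 11040, nat_lit 15504, R2_244, R2_230, R5_323⟩, ⟨nat_lit 1, nat_lit 14016, nat_lit 18384, nat_lit 11808, nat_lit 1920, nat_lit 18720, R2_246, R12_40, R11_390⟩, ⟨nat_lit 3, nat_lit 14064, nat_lit 18336, nat_lit 11760, nat_lit 11616, nat_lit 12528, R2_245, R1_242, R0_261⟩]⟩]⟩]], [[], [], [⟨nat_lit 0, [⟨nat_lit 1, [⟨nat_lit 5, nat_lit 15984, nat_lit 240, nat_lit 11376, nat_lit 2976, nat_lit 18480, R7_237, R5_62, R10_385⟩]⟩, ⟨nat_lit 5, [⟨nat_lit 5, nat_lit 16032, nat_lit 2160, nat_lit 10752, nat_lit 576, nat_lit 8688, R4_224, R5_12, R1_181⟩]⟩]⟩,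
 ⟨nat_lit 1, [⟨nat_lit 1, [⟨nat_lit 5, nat_lit 16080, nat_lit 7872, nat_lit 10272, nat_lit 10176, nat_lit 18624, R2_214, R0_212, R10_388⟩]⟩, ⟨nat_lit 5, [⟨nat_lit 5, nat_lit 16128, nat_lit 10992, nat_lit 17616, nat_lit 10032, nat_lit 8736, R3_367, R0_209, R1_182⟩]⟩]⟩,
 ⟨nat_lit 3, [⟨nat_lit 1, [⟨nat_lit 1, nat_lit 15936, nat_lit 5904, nat_lit 7056, nat_lit 1728, nat_lit 15312, R2_147, R1_36, R1_319⟩, ⟨nat_lit 5, nat_lit 16176, nat_lit 5952, nat_lit 7008, nat_lit 16464, nat_lit 18528, R2_146, R11_343, R10_386⟩]⟩]⟩]], [], [], [[], [], [], [], [⟨nat_lit 0, [⟨nat_lit 1, [⟨nat_lit 0, nat_lit 2592, nat_lit 13056, nat_lit 17616, nat_lit 11040, nat_lit 8928, R7_367, R4_230, R4_186⟩, ⟨nat_lit 3, nat_lit 2640, nat_lit 13152, nat_lit 17712, nat_lit 12864, nat_lit 15168, R7_369, R5_268, R3_316⟩]⟩]⟩,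
 ⟨nat_lit 3, [⟨nat_lit 1, [⟨nat_lit 3, nat_lit 2688, nat_lit 13200, nat_lit 14832, nat_lit 8976, nat_lit 15216, R2_309, R11_187, R3_317⟩]⟩]⟩], [], [], [⟨nat_lit 0, [⟨nat_lit 1, [⟨nat_lit 3, nat_lit 5088, nat_lit 16272, nat_lit 17904, nat_lit 13008, nat_lit 14688, R7_373, R5_271, R10_306⟩]⟩]⟩,
 ⟨nat_lit 3, [⟨nat_lit 1, [⟨nat_lit 3, nat_lit 5136, nat_lit 16608, nat_lit 15456, nat_lit 9168, nat_lit 15168, R2_322, R11_191, R10_316⟩, ⟨nat_lit 7, nat_lit 5184, nat_lit 16560, nat_lit 15312, nat_lit 6624, nat_lit 13536, R2_319, R1_138, R1_282⟩]⟩]⟩]]], [[[], [], [⟨nat_lit 1, [⟨nat_lit 1, [⟨nat_lit 1, nat_lit 12912, nat_lit 13392, nat_lit 2496, nat_lit 5184, nat_lit 15456, R1_52, R2_108, R1_322⟩, ⟨nat_lit 5, nat_lit 12960, nat_lit 5088, nat_lit 2544, nat_lit 5952, nat_lit 18768, R1_53, R3_124, R10_391⟩]⟩, ⟨nat_lit 5,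 [⟨nat_lit 5, nat_lit 13008, nat_lit 5136, nat_lit 2688, nat_lit 5904, nat_lit 528, R10_56, R3_123, R1_11⟩]⟩]⟩], [], [], [], [⟨nat_lit 1, [⟨nat_lit 1, [⟨nat_lit 1, nat_lit 12480, nat_lit 5472, nat_lit 2448, nat_lit 6240, nat_lit 21072, R1_51, R2_130, R11_439⟩]⟩]⟩]], [[], [], [⟨nat_lit 1, [⟨nat_lit 1, [⟨nat_lit 1, nat_lit 15648, nat_lit 5184, nat_lit 7872, nat_lit 3888, nat_lit 15504, R1_164, R1_81, R1_323⟩, ⟨nat_lit 5, nat_lit 15696, nat_lit 4272, nat_lit 7920, nat_lit 5040, nat_lit 18864, R1_165, R10_105, R10_393⟩]⟩, ⟨nat_lit 5, [⟨nat_lit 5, nat_lit 15744, nat_lit 4224, nat_lit 8688, nat_lit 5088, nat_lit 11520, R10_181, R10_106, R1_240⟩]⟩]⟩,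
 ⟨nat_lit 5, [⟨nat_lit 5, [⟨nat_lit 5, nat_lit 15792, nat_lit 18720, nat_lit 15552, nat_lit 11376, nat_lit 11472, R1_324, R1_237, R1_239⟩]⟩]⟩], [], [], [], [⟨nat_lit 1, [⟨nat_lit 1, [⟨nat_lit 1, nat_lit 15600, nat_lit 4176, nat_lit 7824, nat_lit 4944, nat_lit 21168, R1_163, R1_103, R11_441⟩]⟩]⟩]], [[], [], [], [], [], [], [⟨nat_lit 1, [⟨nat_lit 1, [⟨nat_lit 1, nat_lit 14112, nat_lit 15312, nat_lit 12288, nat_lit 10656, nat_lit 21120, R1_256, R12_222, R11_440⟩]⟩]⟩]], [[], [], [⟨nat_lit 1, [⟨nat_lit 1, [⟨nat_lit 5, nat_lit 16224, nat_lit 14256, nat_lit 10848, nat_lit 10224, nat_lit 18816, R1_226, R0_213, R10_392⟩]⟩, ⟨nat_lit 5, [⟨nat_lit 5, nat_lit 16272, nat_lit 14304, nat_lit 12144, nat_lit 10080, nat_lit 8928, R10_253, R0_210, R1_186⟩]⟩]⟩]]], [[], [], [[], [], [], [], [⟨nat_lit 0, [⟨nat_lit 0, [⟨nat_lit 0,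 nat_lit 13200, nat_lit 12000, nat_lit 3408, nat_lit 2208, nat_lit 14160, R7_71, R7_46, R6_295⟩]⟩, ⟨nat_lit 1, [⟨nat_lit 0, nat_lit 13248, nat_lit 13728, nat_lit 14016, nat_lit 11520, nat_lit 13920, R14_292, R7_240, R4_290⟩]⟩]⟩,
 ⟨nat_lit 2, [⟨nat_lit 0, [⟨nat_lit 0, nat_lit 13296, nat_lit 12096, nat_lit 1728, nat_lit 672, nat_lit 14352, R2_36, R2_14, R6_299⟩]⟩, ⟨nat_lit 1, [⟨nat_lit 0, nat_lit 13344, nat_lit 13824, nat_lit 9744, nat_lit 10320, nat_lit 14016, R12_203, R2_215, R4_292⟩]⟩, ⟨nat_lit 2, [⟨nat_lit 0, nat_lit 13392, nat_lit 14928, nat_lit 1200, nat_lit 6480, nat_lit 13344, R1_25, R2_135, R8_278⟩, ⟨nat_lit 2, nat_lit 13536, nat_lit 15312, nat_lit 6624, nat_lit 5184, nat_lit 16560, R1_138, R1_108, R5_345⟩]⟩]⟩,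
 ⟨nat_lit 3, [⟨nat_lit 0, [⟨nat_lit 0, nat_lit 13440, nat_lit 12048, nat_lit 0, nat_lit 1008, nat_lit 14304, R2_0, R2_21, R6_298⟩, ⟨nat_lit 3, nat_lit 13584, nat_lit 12336, nat_lit 3936, nat_lit 336, nat_lit 19488, R2_82, R1_7, R13_406⟩]⟩, ⟨nat_lit 1, [⟨nat_lit 0, nat_lit 13488, nat_lit 13776, nat_lit 9888, nat_lit 10944, nat_lit 13968, R12_206, R2_228, R4_291⟩, ⟨nat_lit 3, nat_lit 13632, nat_lit 13872, nat_lit 10608, nat_lit 11328, nat_lit 15648, R12_221, R1_236, R3_326⟩]⟩, ⟨nat_lit 3, [⟨nat_lit 3, nat_lit 13680, nat_lit 14112, nat_lit 3408, nat_lit 6000, nat_lit 15840, R1_71, R1_125, R3_330⟩]⟩]⟩], [⟨nat_lit 0, [⟨nat_lit 0, [⟨nat_lit 0, nat_lit 15216, nat_lit 12576, nat_lit 3888, nat_lit 2784, nat_lit 1440, R7_81, R7_58, R4_30⟩]⟩]⟩,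
 ⟨nat_lit 2, [⟨nat_lit 0, [⟨nat_lit 0, nat_lit 15264, nat_lit 12672, nat_lit 2256, nat_lit 864, nat_lit 8112, R2_47, R2_18, R4_169⟩]⟩, ⟨nat_lit 2, [⟨nat_lit 0, nat_lit 15312, nat_lit 15936, nat_lit 1728, nat_lit 7056, nat_lit 5904, R1_36, R2_147, R5_123⟩, ⟨nat_lit 2, nat_lit 15408, nat_lit 16320, nat_lit 7152, nat_lit 5760, nat_lit 21504, R1_149, R1_120, R11_448⟩]⟩]⟩,
 ⟨nat_lit 3, [⟨nat_lit 0, [⟨nat_lit 0, nat_lit 15360, nat_lit 12624, nat_lit 48, nat_lit 3024, nat_lit 7344, R2_1, R2_63, R4_153⟩, ⟨nat_lit 3, nat_lit 15456, nat_lit 12912, nat_lit 5184, nat_lit 2496, nat_lit 13392, R2_108, R1_52, R3_279⟩]⟩, ⟨nat_lit 3, [⟨nat_lit 3, nat_lit 15504, nat_lit 15648, nat_lit 3888, nat_lit 7872, nat_lit 19296, R1_81, R1_164, R10_402⟩]⟩]⟩], [⟨nat_lit 0, [⟨nat_lit 0, [⟨nat_lit 0, nat_lit 14160, nat_lit 13584, nat_lit 4368,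 nat_lit 2640, nat_lit 1056, R7_91, R7_55, R8_22⟩, ⟨nat_lit 1, nat_lit 14496, nat_lit 13632, nat_lit 12816, nat_lit 14160, nat_lit 15168, R7_267, R14_295, R5_316⟩]⟩, ⟨nat_lit 1, [⟨nat_lit 0, nat_lit 14208, nat_lit 13920, nat_lit 14064, nat_lit 11952, nat_lit 15072, R14_293, R7_249, R5_314⟩, ⟨nat_lit 1, nat_lit 14544, nat_lit 13968, nat_lit 14784, nat_lit 14880, nat_lit 19488, R14_308, R14_310, R11_406⟩]⟩]⟩,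
 ⟨nat_lit 1, [⟨nat_lit 1, [⟨nat_lit 1, nat_lit 14592, nat_lit 14112, nat_lit 11856, nat_lit 11952, nat_lit 20688, R12_247, R12_249, R11_431⟩]⟩]⟩,
 ⟨nat_lit 2, [⟨nat_lit 0, [⟨nat_lit 0, nat_lit 14256, nat_lit 13824, nat_lit 2784, nat_lit 768, nat_lit 6192, R2_58, R2_16, R8_129⟩, ⟨nat_lit 1, nat_lit 14640, nat_lit 13872, nat_lit 11520, nat_lit 10128, nat_lit 15744, R2_240, R12_211, R5_328⟩]⟩, ⟨nat_lit 1, [⟨nat_lit 0, nat_lit 14304, nat_lit 14496, nat_lit 9792, nat_lit 10416, nat_lit 15888, R12_204, R2_217, R5_331⟩, ⟨nat_lit 1, nat_lit 14688, nat_lit 14544, nat_lit 11664, nat_lit 12192, nat_lit 20064, R12_243, R12_254, R11_418⟩]⟩, ⟨nat_lit 2, [⟨nat_lit 0, nat_lit 14352, nat_lit 14736, nat_lit 2256, nat_lit 6912, nat_lit 14880, R1_47, R2_144, R9_310⟩, ⟨nat_lit 1, nat_lit 14736, nat_lit 14784, nat_lit 12096, nat_lit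 10800, nat_lit 13584, R1_252, R12_225, R0_283⟩, ⟨nat_lit 2, nat_lit 14880, nat_lit 14832, nat_lit 7632, nat_lit 5616, nat_lit 3504, R1_159, R1_117, R0_73⟩]⟩]⟩,
 ⟨nat_lit 3, [⟨nat_lit 0, [⟨nat_lit 0, nat_lit 14400, nat_lit 13680, nat_lit 816, nat_lit 2736, nat_lit 6960, R2_17, R2_57, R8_145⟩, ⟨nat_lit 1, nat_lit 14784, nat_lit 13776, nat_lit 10464, nat_lit 9696, nat_lit 15936, R2_218, R12_202, R5_332⟩, ⟨nat_lit 3, nat_lit 14928, nat_lit 13728, nat_lit 6960, nat_lit 2208, nat_lit 14976, R2_145, R1_46, R9_312⟩]⟩, ⟨nat_lit 1, [⟨nat_lit 0, nat_lit 14448, nat_lit 14304, nat_lit 10176, nat_lit 11472, nat_lit 15648, R12_212, R2_239, R5_326⟩, ⟨nat_lit 1, nat_lit 14832, nat_lit 14400, nat_lit 12288, nat_lit 11568, nat_lit 20256, R12_256, R12_241, R11_422⟩, ⟨nat_lit 3, nat_lit 14976, nat_lit 14352, nat_lit 10848, nat_lit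 12048, nat_lit 13680, R12_226, R1_251, R0_285⟩]⟩, ⟨nat_lit 3, [⟨nat_lit 3, nat_lit 15024, nat_lit 14688, nat_lit 5664, nat_lit 7584, nat_lit 3552, R1_118, R1_158, R0_74⟩]⟩]⟩]], [], [], [], [[], [], [], [], [⟨nat_lit 0, [⟨nat_lit 0, [⟨nat_lit 0, nat_lit 2736, nat_lit 3072, nat_lit 3552, nat_lit 2256, nat_lit 8928, R7_74, R4_47, R6_186⟩, ⟨nat_lit 3, nat_lit 3024, nat_lit 8880, nat_lit 9696, nat_lit 2640, nat_lit 19248, R7_202, R5_55, R13_401⟩]⟩, ⟨nat_lit 1, [⟨nat_lit 0, nat_lit 2784, nat_lit 3168, nat_lit 11808, nat_lit 11136, nat_lit 9552, R14_246, R4_232, R4_199⟩, ⟨nat_lit 3, nat_lit 3072, nat_lit 9168, nat_lit 12288, nat_lit 13872, nat_lit 15504, R14_256, R5_289, R3_323⟩]⟩]⟩,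
 ⟨nat_lit 2, [⟨nat_lit 0, [⟨nat_lit 0, nat_lit 2832, nat_lit 3120, nat_lit 1872, nat_lit 2112, nat_lit 8976, R2_39, R3_44, R6_187⟩, ⟨nat_lit 3, nat_lit 3120, nat_lit 9024, nat_lit 8736, nat_lit 6432, nat_lit 19344, R2_182, R0_134, R13_403⟩]⟩, ⟨nat_lit 1, [⟨nat_lit 0, nat_lit 2880, nat_lit 3216, nat_lit 10416, nat_lit 2832, nat_lit 9600, R12_217, R3_59, R4_200⟩, ⟨nat_lit 3, nat_lit 3168, nat_lit 9264, nat_lit 11232, nat_lit 6528, nat_lit 15600, R12_234, R0_136, R3_325⟩]⟩, ⟨nat_lit 2, [⟨nat_lit 0, nat_lit 2928, nat_lit 3360, nat_lit 1344, nat_lit 2448, nat_lit 5712, R1_28, R3_51, R8_119⟩, ⟨nat_lit 2, nat_lit 2976, nat_lit 10560, nat_lit 6768, nat_lit 8400, nat_lit 16464, R1_141, R10_175, R5_343⟩, ⟨nat_lit 3, nat_lit 3216, nat_lit 9456, nat_lit 9552, nat_lit 6480, nat_lit 15600, R1_199, R0_135, R9_325⟩]⟩]⟩,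
 ⟨nat_lit 3, [⟨nat_lit 0, [⟨nat_lit 3, nat_lit 3264, nat_lit 8976, nat_lit 3888, nat_lit 9024, nat_lit 19296, R2_81, R11_188, R13_402⟩]⟩, ⟨nat_lit 1, [⟨nat_lit 3, nat_lit 3312, nat_lit 9216, nat_lit 16992, nat_lit 9120, nat_lit 15552, R12_354, R11_190, R3_324⟩]⟩, ⟨nat_lit 3, [⟨nat_lit 3, nat_lit 3360, nat_lit 9120, nat_lit 3360, nat_lit 9072, nat_lit 9120, R1_70, R11_189, R3_190⟩, ⟨nat_lit 7, nat_lit 3408, nat_lit 15840, nat_lit 13680, nat_lit 6000, nat_lit 14112, R1_285, R1_125, R2_294⟩]⟩]⟩], [⟨nat_lit 0, [⟨nat_lit 0, [⟨nat_lit 0, nat_lit 3456, nat_lit 5232, nat_lit 3984, nat_lit 2976, nat_lit 1680, R7_83, R4_62, R4_35⟩, ⟨nat_lit 3, nat_lit 3648, nat_lit 5376, nat_lit 10992, nat_lit 3216, nat_lit 12576, R7_229, R5_67, R3_262⟩]⟩]⟩,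
 ⟨nat_lit 2, [⟨nat_lit 0, [⟨nat_lit 0, nat_lit 3504, nat_lit 5280, nat_lit 2352, nat_lit 9792, nat_lit 8400, R2_49, R3_204, R4_175⟩, ⟨nat_lit 3, nat_lit 3696, nat_lit 5520, nat_lit 9984, nat_lit 6864, nat_lit 12960, R2_208, R0_143, R3_270⟩]⟩, ⟨nat_lit 2, [⟨nat_lit 0, nat_lit 3552, nat_lit 5328, nat_lit 1824, nat_lit 10080, nat_lit 5712, R1_38, R3_210, R5_119⟩, ⟨nat_lit 2, nat_lit 3600, nat_lit 5616, nat_lit 7248, nat_lit 8496, nat_lit 21408, R1_151, R10_177, R11_446⟩, ⟨nat_lit 3, nat_lit 3744, nat_lit 5568, nat_lit 10800, nat_lit 6912, nat_lit 14064, R1_225, R0_144, R0_293⟩]⟩]⟩,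
 ⟨nat_lit 3, [⟨nat_lit 0, [⟨nat_lit 3, nat_lit 3792, nat_lit 5424, nat_lit 5136, nat_lit 9408, nat_lit 13344, R2_107, R11_196, R3_278⟩]⟩, ⟨nat_lit 3, [⟨nat_lit 3, nat_lit 3840, nat_lit 5472, nat_lit 3840, nat_lit 9456, nat_lit 19200, R1_80, R11_197, R10_400⟩, ⟨nat_lit 7, nat_lit 3888, nat_lit 5184, nat_lit 15504, nat_lit 7872, nat_lit 15648, R1_323, R1_164, R1_326⟩]⟩]⟩], [], [⟨nat_lit 0, [⟨nat_lit 0, [⟨nat_lit 3, nat_lit 5232, nat_lit 3600, nat_lit 10560, nat_lit 2832, nat_lit 1872, R7_220, R5_59, R3_39⟩]⟩, ⟨nat_lit 1, [⟨nat_lit 3, nat_lit 5280, nat_lit 3648, nat_lit 12336, nat_lit 14064, nat_lit 16320, R14_257, R5_293, R10_340⟩]⟩]⟩,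
 ⟨nat_lit 2, [⟨nat_lit 0, [⟨nat_lit 3, nat_lit 5328, nat_lit 3792, nat_lit 9648, nat_lit 6576, nat_lit 8448, R2_201, R0_137, R3_176⟩]⟩, ⟨nat_lit 1, [⟨nat_lit 3, nat_lit 5376, nat_lit 3840, nat_lit 11280, nat_lit 6672, nat_lit 17232, R12_235, R0_139, R10_359⟩]⟩, ⟨nat_lit 2, [⟨nat_lit 3, nat_lit 5424, nat_lit 3888, nat_lit 10464, nat_lit 6624, nat_lit 8832, R1_218, R0_138, R0_184⟩]⟩]⟩,
 ⟨nat_lit 3, [⟨nat_lit 0, [⟨nat_lit 3, nat_lit 5472, nat_lit 3696, nat_lit 4704, nat_lit 9264, nat_lit 6816, R2_98, R11_193, R3_142⟩, ⟨nat_lit 7, nat_lit 5568, nat_lit 3456, nat_lit 13680, nat_lit 7536, nat_lit 13536, R2_285, R1_157, R2_282⟩]⟩, ⟨nat_lit 1, [⟨nat_lit 3, nat_lit 5520, nat_lit 3744, nat_lit 17184, nat_lit 9312, nat_lit 17904, R12_358, R11_194, R10_373⟩, ⟨nat_lit 7, nat_lit 5616, nat_lit 3504, nat_lit 15456, nat_lit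 7632, nat_lit 14880, R12_322, R1_159, R1_310⟩]⟩, ⟨nat_lit 3, [⟨nat_lit 7, nat_lit 5664, nat_lit 3552, nat_lit 15024, nat_lit 7584, nat_lit 14880, R1_313, R1_158, R12_310⟩]⟩]⟩]]], [[[], [], [], [], [], [], [⟨nat_lit 3, [⟨nat_lit 1, [⟨nat_lit 1, nat_lit 12528, nat_lit 5424, nat_lit 2400, nat_lit 6288, nat_lit 20784, R1_50, R2_131, R11_433⟩]⟩]⟩]], [], [[], [], [], [], [⟨nat_lit 3, [⟨nat_lit 1, [⟨nat_lit 0, nat_lit 13728, nat_lit 14016, nat_lit 10896, nat_lit 10848, nat_lit 13872, R1_227, R2_226, R4_289⟩, ⟨nat_lit 3, nat_lit 13776, nat_lit 14256, nat_lit 10992, nat_lit 11232, nat_lit 15696, R1_229, R1_234, R3_327⟩]⟩]⟩], [], [⟨nat_lit 3, [⟨nat_lit 1, [⟨nat_lit 0, nat_lit 15072, nat_lit 3840, nat_lit 12144, nat_lit 11184, nat_lit 15600, R1_253, R2_233, R5_325⟩, ⟨nat_lit 1, nat_lit 15120, nat_lit 3984, nat_lit 12240,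 nat_lit 6432, nat_lit 20880, R1_255, R12_134, R11_435⟩, ⟨nat_lit 3, nat_lit 15168, nat_lit 3888, nat_lit 12192, nat_lit 11760, nat_lit 13920, R1_254, R1_245, R0_290⟩]⟩]⟩], [⟨nat_lit 3, [⟨nat_lit 1, [⟨nat_lit 3, nat_lit 15552, nat_lit 15792, nat_lit 11376, nat_lit 11472, nat_lit 18720, R1_237, R1_239, R10_390⟩]⟩]⟩]], [[], [], [⟨nat_lit 0, [⟨nat_lit 5, [⟨nat_lit 5, nat_lit 16368, nat_lit 2160, nat_lit 7344, nat_lit 7536, nat_lit 8784, R5_153, R5_157, R1_183⟩]⟩]⟩,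
 ⟨nat_lit 1, [⟨nat_lit 5, [⟨nat_lit 5, nat_lit 16416, nat_lit 14256, nat_lit 13968, nat_lit 10128, nat_lit 8880, R0_291, R0_211, R1_185⟩]⟩]⟩,
 ⟨nat_lit 3, [⟨nat_lit 1, [⟨nat_lit 1, nat_lit 16320, nat_lit 5520, nat_lit 5760, nat_lit 7152, nat_lit 15408, R1_120, R1_149, R1_321⟩, ⟨nat_lit 5, nat_lit 16464, nat_lit 5568, nat_lit 5712, nat_lit 16512, nat_lit 18672, R1_119, R11_344, R10_389⟩]⟩, ⟨nat_lit 5, [⟨nat_lit 5, nat_lit 16512, nat_lit 8688, nat_lit 21216, nat_lit 16416, nat_lit 8832, R11_442, R11_342, R1_184⟩]⟩]⟩], [], [], [], [⟨nat_lit 3, [⟨nat_lit 1, [⟨nat_lit 1, nat_lit 15888, nat_lit 4128, nat_lit 7776, nat_lit 4992, nat_lit 20832, R1_162, R1_104, R11_434⟩]⟩]⟩]], [[], [], [], [⟨nat_lit 3, [⟨nat_lit 1, [⟨nat_lit 7, nat_lit 2400, nat_lit 5424, nat_lit 12528, nat_lit 6288, nat_lit 20784, R1_261, R2_131, R11_433⟩]⟩,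 ⟨nat_lit 5, [⟨nat_lit 7, nat_lit 2448, nat_lit 5472, nat_lit 21072, nat_lit 6240, nat_lit 12480, R11_439, R2_130, R1_260⟩]⟩]⟩]], [], [[], [], [], [⟨nat_lit 3, [⟨nat_lit 1, [⟨nat_lit 7, nat_lit 7776, nat_lit 4128, nat_lit 15888, nat_lit 4992, nat_lit 20832, R1_331, R1_104, R11_434⟩]⟩, ⟨nat_lit 5, [⟨nat_lit 7, nat_lit 7824, nat_lit 4176, nat_lit 21168, nat_lit 4944, nat_lit 15600, R11_441, R1_103, R1_325⟩]⟩]⟩], [], [], [], [⟨nat_lit 3, [⟨nat_lit 1, [⟨nat_lit 3, nat_lit 5712, nat_lit 5568, nat_lit 16464, nat_lit 9216, nat_lit 18672, R1_343, R11_192, R10_389⟩, ⟨nat_lit 7, nat_lit 5760, nat_lit 5520, nat_lit 16320, nat_lit 7152, nat_lit 15408, R1_340, R1_149, R1_321⟩]⟩]⟩]], [[⟨nat_lit 3, [⟨nat_lit 1, [⟨nat_lit 4, nat_lit 10896, nat_lit 14016, nat_lit 13728, nat_lit 10848, nat_lit 13872, R1_286, R2_226, R4_289⟩, ⟨nat_lit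 5, nat_lit 10992, nat_lit 14256, nat_lit 13776, nat_lit 11232, nat_lit 15696, R1_287, R1_234, R3_327⟩]⟩, ⟨nat_lit 5, [⟨nat_lit 4, nat_lit 10944, nat_lit 14064, nat_lit 20928, nat_lit 10656, nat_lit 15120, R11_436, R2_222, R7_315⟩, ⟨nat_lit 5, nat_lit 11040, nat_lit 14304, nat_lit 21024, nat_lit 11040, nat_lit 14304, R11_438, R1_230, R2_298⟩, ⟨nat_lit 7, nat_lit 11088, nat_lit 14352, nat_lit 20976, nat_lit 6384, nat_lit 12768, R11_437, R12_133, R2_266⟩]⟩]⟩], [], [⟨nat_lit 3, [⟨nat_lit 1, [⟨nat_lit 5, nat_lit 11376, nat_lit 15792, nat_lit 15552, nat_lit 11472, nat_lit 18720, R1_324, R1_239, R10_390⟩]⟩, ⟨nat_lit 5, [⟨nat_lit 5, nat_lit 11424, nat_lit 15840, nat_lit 21264, nat_lit 11424, nat_lit 15840, R11_443, R1_238, R1_330⟩]⟩]⟩], [⟨nat_lit 3, [⟨nat_lit 1, [⟨nat_lit 4, nat_lit 12144, nat_lit 3840, nat_lit 15072,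 nat_lit 11184, nat_lit 15600, R1_314, R2_233, R5_325⟩, ⟨nat_lit 5, nat_lit 12192, nat_lit 3888, nat_lit 15168, nat_lit 11760, nat_lit 13920, R1_316, R1_245, R0_290⟩, ⟨nat_lit 7, nat_lit 12240, nat_lit 3984, nat_lit 15120, nat_lit 6432, nat_lit 20880, R1_315, R12_134, R11_435⟩]⟩, ⟨nat_lit 5, [⟨nat_lit 7, nat_lit 12288, nat_lit 3936, nat_lit 21120, nat_lit 6480, nat_lit 14112, R11_440, R12_135, R1_294⟩]⟩]⟩]]], [[], [], [], [], [[⟨nat_lit 4, [⟨nat_lit 5, [⟨nat_lit 4, nat_lit 0, nat_lit 96, nat_lit 3216, nat_lit 864, nat_lit 13488, R4_67, R6_18, R7_281⟩, ⟨nat_lit 5, nat_lit 96, nat_lit 960, nat_lit 3264, nat_lit 432, nat_lit 12192, R4_68, R4_9, R2_254⟩]⟩]⟩,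
 ⟨nat_lit 7, [⟨nat_lit 5, [⟨nat_lit 4, nat_lit 48, nat_lit 4944, nat_lit 15888, nat_lit 4896, nat_lit 13584, R3_331, R13_102, R7_283⟩, ⟨nat_lit 5, nat_lit 144, nat_lit 6672, nat_lit 15984, nat_lit 3648, nat_lit 12288, R3_333, R3_76, R2_256⟩, ⟨nat_lit 7, nat_lit 192, nat_lit 6288, nat_lit 15936, nat_lit 624, nat_lit 11904, R3_332, R3_13, R2_248⟩]⟩]⟩], [⟨nat_lit 3, [⟨nat_lit 7, [⟨nat_lit 7, nat_lit 1200, nat_lit 15072, nat_lit 14928, nat_lit 6480, nat_lit 13392, R2_311, R2_135, R1_279⟩]⟩]⟩,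
 ⟨nat_lit 4, [⟨nat_lit 4, [⟨nat_lit 4, nat_lit 576, nat_lit 3312, nat_lit 3840, nat_lit 2736, nat_lit 3168, R6_80, R6_57, R7_66⟩, ⟨nat_lit 6, nat_lit 864, nat_lit 3360, nat_lit 3888, nat_lit 1680, nat_lit 1488, R6_81, R8_35, R2_31⟩]⟩, ⟨nat_lit 5, [⟨nat_lit 4, nat_lit 624, nat_lit 3408, nat_lit 4080, nat_lit 3072, nat_lit 4560, R4_85, R6_64, R14_95⟩, ⟨nat_lit 5, nat_lit 768, nat_lit 3456, nat_lit 4176, nat_lit 2736, nat_lit 2928, R4_87, R4_57, R12_61⟩, ⟨nat_lit 6, nat_lit 912, nat_lit 3504, nat_lit 4128, nat_lit 2880, nat_lit 6768, R4_86, R8_60, R12_141⟩]⟩, ⟨nat_lit 6, [⟨nat_lit 6, nat_lit 960, nat_lit 3696, nat_lit 2256, nat_lit 2496, nat_lit 960, R8_47, R8_52, R1_20⟩]⟩]⟩,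
 ⟨nat_lit 6, [⟨nat_lit 6, [⟨nat_lit 6, nat_lit 1008, nat_lit 10944, nat_lit 17136, nat_lit 6528, nat_lit 6384, R5_357, R5_136, R1_133⟩]⟩]⟩,
 ⟨nat_lit 7, [⟨nat_lit 4, [⟨nat_lit 4, nat_lit 672, nat_lit 8160, nat_lit 20352, nat_lit 8688, nat_lit 9360, R13_424, R13_181, R7_195⟩, ⟨nat_lit 6, nat_lit 1056, nat_lit 8304, nat_lit 20448, nat_lit 6336, nat_lit 8544, R13_426, R9_132, R2_178⟩, ⟨nat_lit 7, nat_lit 1248, nat_lit 8256, nat_lit 20400, nat_lit 2304, nat_lit 3456, R13_425, R3_48, R2_72⟩]⟩, ⟨nat_lit 5, [⟨nat_lit 4, nat_lit 720, nat_lit 8496, nat_lit 16848, nat_lit 8736, nat_lit 5040, R3_351, R13_182, R14_105⟩, ⟨nat_lit 5, nat_lit 816, nat_lit 8592, nat_lit 16992, nat_lit 7056, nat_lit 3408, R3_354, R3_147, R12_71⟩, ⟨nat_lit 6, nat_lit 1104, nat_lit 8640, nat_lit 16944, nat_lit 6432, nat_lit 8160, R3_353, R9_134,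 R12_170⟩, ⟨nat_lit 7, nat_lit 1296, nat_lit 8544, nat_lit 16896, nat_lit 2736, nat_lit 13152, R3_352, R3_57, R12_274⟩]⟩, ⟨nat_lit 6, [⟨nat_lit 6, nat_lit 1152, nat_lit 8976, nat_lit 16800, nat_lit 6384, nat_lit 9360, R9_350, R9_133, R1_195⟩]⟩, ⟨nat_lit 7, [⟨nat_lit 7, nat_lit 1344, nat_lit 8448, nat_lit 3360, nat_lit 2448, nat_lit 2928, R3_70, R3_51, R1_61⟩]⟩]⟩], [⟨nat_lit 4, [⟨nat_lit 5, [⟨nat_lit 5, nat_lit 432, nat_lit 576, nat_lit 4464, nat_lit 1344, nat_lit 12768, R4_93, R4_28, R1_266⟩]⟩]⟩,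
 ⟨nat_lit 7, [⟨nat_lit 5, [⟨nat_lit 5, nat_lit 480, nat_lit 6960, nat_lit 17328, nat_lit 4800, nat_lit 12864, R3_361, R3_100, R1_268⟩]⟩]⟩]], [[⟨nat_lit 4, [⟨nat_lit 5, [⟨nat_lit 4, nat_lit 7968, nat_lit 13392, nat_lit 9120, nat_lit 9648, nat_lit 16800, R4_190, R8_201, R7_350⟩, ⟨nat_lit 5, nat_lit 8064, nat_lit 13440, nat_lit 9168, nat_lit 528, nat_lit 15024, R4_191, R5_11, R2_313⟩]⟩]⟩,
 ⟨nat_lit 7, [⟨nat_lit 5, [⟨nat_lit 4, nat_lit 8016, nat_lit 13632, nat_lit 16224, nat_lit 11040, nat_lit 16896, R3_338, R9_230, R7_352⟩, ⟨nat_lit 5, nat_lit 8112, nat_lit 13728, nat_lit 16320, nat_lit 9552, nat_lit 15120, R3_340, R0_199, R2_315⟩, ⟨nat_lit 7, nat_lit 8160, nat_lit 13680, nat_lit 16272, nat_lit 9504, nat_lit 14640, R3_339, R0_198, R2_305⟩]⟩]⟩], [⟨nat_lit 4, [⟨nat_lit 4, [⟨nat_lit 4, nat_lit 8976, nat_lit 2256,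 nat_lit 9504, nat_lit 1776, nat_lit 3360, R6_198, R8_37, R7_70⟩, ⟨nat_lit 6, nat_lit 9264, nat_lit 2304, nat_lit 9552, nat_lit 864, nat_lit 1680, R6_199, R9_18, R2_35⟩]⟩, ⟨nat_lit 5, [⟨nat_lit 4, nat_lit 9024, nat_lit 2352, nat_lit 10416, nat_lit 9744, nat_lit 6336, R4_217, R8_203, R14_132⟩, ⟨nat_lit 5, nat_lit 9168, nat_lit 2400, nat_lit 10512, nat_lit 672, nat_lit 4320, R4_219, R5_14, R12_90⟩, ⟨nat_lit 6, nat_lit 9312, nat_lit 2448, nat_lit 10464, nat_lit 1584, nat_lit 7296, R4_218, R9_33, R12_152⟩]⟩, ⟨nat_lit 6, [⟨nat_lit 6, nat_lit 9360, nat_lit 2784, nat_lit 6768, nat_lit 1248, nat_lit 1152, R8_141, R9_26, R1_24⟩]⟩]⟩,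
 ⟨nat_lit 6, [⟨nat_lit 6, [⟨nat_lit 6, nat_lit 9408, nat_lit 11664, nat_lit 17280, nat_lit 4224, nat_lit 6576, R5_360, R0_88, R1_137⟩]⟩]⟩,
 ⟨nat_lit 7, [⟨nat_lit 4, [⟨nat_lit 4, nat_lit 9072, nat_lit 9024, nat_lit 20688, nat_lit 11952, nat_lit 9552, R13_431, R9_249, R7_199⟩, ⟨nat_lit 7, nat_lit 9456, nat_lit 9120, nat_lit 20736, nat_lit 1344, nat_lit 3744, R13_432, R0_28, R2_78⟩]⟩, ⟨nat_lit 5, [⟨nat_lit 4, nat_lit 9120, nat_lit 9360, nat_lit 17040, nat_lit 12624, nat_lit 7008, R3_355, R9_263, R14_146⟩, ⟨nat_lit 5, nat_lit 9216, nat_lit 9456, nat_lit 17136, nat_lit 10800, nat_lit 4992, R3_357, R0_225, R12_104⟩, ⟨nat_lit 7, nat_lit 9504, nat_lit 9408, nat_lit 17088, nat_lit 10704, nat_lit 16224, R3_356, R0_223, R12_338⟩]⟩, ⟨nat_lit 7, [⟨nat_lit 7, nat_lit 9552, nat_lit 9312, nat_lit 9456, nat_lit 6480, nat_lit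 3216, R3_197, R0_135, R1_67⟩]⟩]⟩], [⟨nat_lit 4, [⟨nat_lit 5, [⟨nat_lit 5, nat_lit 8688, nat_lit 2160, nat_lit 10752, nat_lit 576, nat_lit 16032, R4_224, R5_12, R1_334⟩]⟩]⟩,
 ⟨nat_lit 7, [⟨nat_lit 5, [⟨nat_lit 5, nat_lit 8736, nat_lit 10992, nat_lit 17616, nat_lit 10032, nat_lit 16128, R3_367, R0_209, R1_336⟩]⟩]⟩]], [[⟨nat_lit 4, [⟨nat_lit 5, [⟨nat_lit 4, nat_lit 5808, nat_lit 13440, nat_lit 11664, nat_lit 11568, nat_lit 14304, R4_243, R4_241, R7_298⟩]⟩]⟩,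
 ⟨nat_lit 7, [⟨nat_lit 5, [⟨nat_lit 4, nat_lit 5856, nat_lit 13584, nat_lit 16656, nat_lit 10272, nat_lit 14400, R3_347, R3_214, R7_300⟩, ⟨nat_lit 7, nat_lit 5904, nat_lit 13776, nat_lit 16704, nat_lit 3360, nat_lit 13920, R3_348, R10_70, R2_290⟩]⟩]⟩], [⟨nat_lit 3, [⟨nat_lit 7, [⟨nat_lit 7, nat_lit 6624, nat_lit 16560, nat_lit 15312, nat_lit 5184, nat_lit 13536, R2_319, R1_108, R1_282⟩]⟩]⟩,
 ⟨nat_lit 4, [⟨nat_lit 4, [⟨nat_lit 4, nat_lit 6096, nat_lit 14400, nat_lit 10848, nat_lit 4224, nat_lit 3216, R6_226, R4_88, R7_67⟩, ⟨nat_lit 6, nat_lit 6288, nat_lit 14448, nat_lit 10896, nat_lit 336, nat_lit 1536, R6_227, R5_7, R2_32⟩]⟩, ⟨nat_lit 5, [⟨nat_lit 4, nat_lit 6144, nat_lit 15984, nat_lit 11712, nat_lit 12000, nat_lit 5328, R4_244, R4_250, R14_111⟩, ⟨nat_lit 6, nat_lit 6336, nat_lit 16032, nat_lit 11760, nat_lit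 12720, nat_lit 7056, R4_245, R5_265, R12_147⟩]⟩, ⟨nat_lit 6, [⟨nat_lit 6, nat_lit 6384, nat_lit 17136, nat_lit 9936, nat_lit 6528, nat_lit 1008, R8_207, R5_136, R1_21⟩]⟩]⟩,
 ⟨nat_lit 6, [⟨nat_lit 6, [⟨nat_lit 6, nat_lit 6432, nat_lit 17472, nat_lit 17472, nat_lit 6144, nat_lit 6432, R5_364, R11_128, R1_134⟩]⟩]⟩,
 ⟨nat_lit 7, [⟨nat_lit 4, [⟨nat_lit 4, nat_lit 6192, nat_lit 14544, nat_lit 21072, nat_lit 10608, nat_lit 9408, R13_439, R3_221, R7_196⟩, ⟨nat_lit 6, nat_lit 6480, nat_lit 14640, nat_lit 21168, nat_lit 4176, nat_lit 8592, R13_441, R0_87, R2_179⟩, ⟨nat_lit 7, nat_lit 6672, nat_lit 14592, nat_lit 21120, nat_lit 6000, nat_lit 3504, R13_440, R10_125, R2_73⟩]⟩, ⟨nat_lit 5, [⟨nat_lit 4, nat_lit 6240, nat_lit 16080, nat_lit 17184, nat_lit 10800, nat_lit 5520, R3_358, R3_225, R14_115⟩, ⟨nat_lit 6, nat_lit 6528,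 nat_lit 16176, nat_lit 17280, nat_lit 4272, nat_lit 8640, R3_360, R0_89, R12_180⟩, ⟨nat_lit 7, nat_lit 6720, nat_lit 16128, nat_lit 17232, nat_lit 6096, nat_lit 14976, R3_359, R10_127, R12_312⟩]⟩, ⟨nat_lit 6, [⟨nat_lit 6, nat_lit 6576, nat_lit 17280, nat_lit 17520, nat_lit 4224, nat_lit 9408, R9_365, R0_88, R1_196⟩]⟩, ⟨nat_lit 7, [⟨nat_lit 7, nat_lit 6768, nat_lit 16464, nat_lit 10560, nat_lit 6048, nat_lit 2976, R3_220, R10_126, R1_62⟩]⟩]⟩]]], [[], [[], [], [⟨nat_lit 5, [⟨nat_lit 5, [⟨nat_lit 5, nat_lit 15840, nat_lit 15840, nat_lit 21264, nat_lit 11424, nat_lit 11424, R11_443, R1_238, R1_238⟩]⟩]⟩]], [], [], [], [[⟨nat_lit 4, [⟨nat_lit 5, [⟨nat_lit 4, nat_lit 8208, nat_lit 16320, nat_lit 6336, nat_lit 10224, nat_lit 17088, R5_132, R8_213, R7_356⟩, ⟨nat_lit 5, nat_lit 8352, nat_lit 16656, nat_lit 7200, nat_lit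 7488, nat_lit 15360, R5_150, R5_156, R2_320⟩]⟩]⟩,
 ⟨nat_lit 5, [⟨nat_lit 5, [⟨nat_lit 4, nat_lit 8256, nat_lit 16416, nat_lit 18576, nat_lit 12912, nat_lit 17232, R11_387, R5_269, R7_359⟩, ⟨nat_lit 5, nat_lit 8400, nat_lit 16752, nat_lit 19056, nat_lit 15840, nat_lit 15504, R11_397, R11_330, R2_323⟩]⟩]⟩,
 ⟨nat_lit 7, [⟨nat_lit 5, [⟨nat_lit 4, nat_lit 8304, nat_lit 16368, nat_lit 12288, nat_lit 11136, nat_lit 17136, R0_256, R9_232, R7_357⟩, ⟨nat_lit 5, nat_lit 8448, nat_lit 16704, nat_lit 12672, nat_lit 9648, nat_lit 15408, R0_264, R0_201, R2_321⟩, ⟨nat_lit 7, nat_lit 8496, nat_lit 16800, nat_lit 12576, nat_lit 9840, nat_lit 15696, R0_262, R0_205, R2_327⟩]⟩]⟩], [⟨nat_lit 4, [⟨nat_lit 4, [⟨nat_lit 4, nat_lit 9600, nat_lit 720, nat_lit 2112, nat_lit 2640, nat_lit 4224, R8_44, R8_55, R7_88⟩, ⟨nat_lit 6, nat_lit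 10032, nat_lit 768, nat_lit 6624, nat_lit 6288, nat_lit 2640, R8_138, R9_131, R2_55⟩]⟩, ⟨nat_lit 5, [⟨nat_lit 4, nat_lit 9648, nat_lit 816, nat_lit 6384, nat_lit 10320, nat_lit 6384, R5_133, R8_215, R14_133⟩, ⟨nat_lit 5, nat_lit 9888, nat_lit 864, nat_lit 7248, nat_lit 7632, nat_lit 4368, R5_151, R5_159, R12_91⟩, ⟨nat_lit 6, nat_lit 10080, nat_lit 912, nat_lit 6816, nat_lit 7488, nat_lit 7344, R5_142, R9_156, R12_153⟩]⟩, ⟨nat_lit 6, [⟨nat_lit 6, nat_lit 10128, nat_lit 1248, nat_lit 6864, nat_lit 7104, nat_lit 2112, R9_143, R9_148, R1_44⟩]⟩]⟩,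
 ⟨nat_lit 5, [⟨nat_lit 4, [⟨nat_lit 4, nat_lit 9696, nat_lit 5952, nat_lit 15216, nat_lit 13680, nat_lit 12672, R5_317, R5_285, R7_264⟩, ⟨nat_lit 6, nat_lit 10176, nat_lit 6000, nat_lit 15792, nat_lit 4128, nat_lit 11376, R5_329, R0_86, R2_237⟩]⟩, ⟨nat_lit 5, [⟨nat_lit 4, nat_lit 9744, nat_lit 6048, nat_lit 19536, nat_lit 13968, nat_lit 7728, R11_407, R5_291, R14_161⟩, ⟨nat_lit 5, nat_lit 9936, nat_lit 6096, nat_lit 20736, nat_lit 17040, nat_lit 5712, R11_432, R11_355, R12_119⟩, ⟨nat_lit 6, nat_lit 10224, nat_lit 6144, nat_lit 20112, nat_lit 5328, nat_lit 9168, R11_419, R0_111, R12_191⟩]⟩, ⟨nat_lit 6, [⟨nat_lit 6, nat_lit 10272, nat_lit 6384, nat_lit 4704, nat_lit 4944, nat_lit 11952, R0_98, R0_103, R1_249⟩]⟩]⟩,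
 ⟨nat_lit 6, [⟨nat_lit 6, [⟨nat_lit 6, nat_lit 10320, nat_lit 10464, nat_lit 4560, nat_lit 5088, nat_lit 7488, R0_95, R0_106, R1_156⟩]⟩]⟩,
 ⟨nat_lit 7, [⟨nat_lit 4, [⟨nat_lit 4, nat_lit 9792, nat_lit 8544, nat_lit 14304, nat_lit 12000, nat_lit 11232, R9_298, R9_250, R7_234⟩, ⟨nat_lit 7, nat_lit 10368, nat_lit 8640, nat_lit 15024, nat_lit 1584, nat_lit 6720, R9_313, R0_33, R2_140⟩]⟩, ⟨nat_lit 5, [⟨nat_lit 4, nat_lit 9840, nat_lit 8880, nat_lit 13008, nat_lit 12672, nat_lit 7056, R0_271, R9_264, R14_147⟩, ⟨nat_lit 5, nat_lit 9984, nat_lit 8976, nat_lit 13872, nat_lit 10848, nat_lit 5040, R0_289, R0_226, R12_105⟩, ⟨nat_lit 7, nat_lit 10416, nat_lit 8928, nat_lit 13728, nat_lit 11040, nat_lit 16752, R0_286, R0_230, R12_349⟩]⟩, ⟨nat_lit 7, [⟨nat_lit 7, nat_lit 10464, nat_lit 8832, nat_lit 3888, nat_lit 6624, nat_lit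 5424, R0_81, R0_138, R1_113⟩]⟩]⟩], [⟨nat_lit 4, [⟨nat_lit 5, [⟨nat_lit 5, nat_lit 8784, nat_lit 2160, nat_lit 7344, nat_lit 7536, nat_lit 16368, R5_153, R5_157, R1_341⟩]⟩]⟩,
 ⟨nat_lit 5, [⟨nat_lit 5, [⟨nat_lit 5, nat_lit 8832, nat_lit 8688, nat_lit 21216, nat_lit 16416, nat_lit 16512, R11_442, R11_342, R1_344⟩]⟩]⟩,
 ⟨nat_lit 7, [⟨nat_lit 5, [⟨nat_lit 5, nat_lit 8880, nat_lit 14256, nat_lit 13968, nat_lit 10128, nat_lit 16416, R0_291, R0_211, R1_342⟩]⟩]⟩]]], [[], [], [], [], [[], [⟨nat_lit 3, [⟨nat_lit 7, [⟨nat_lit 7, nat_lit 1728, nat_lit 5904, nat_lit 15936, nat_lit 7056, nat_lit 15312, R1_332, R2_147, R1_319⟩]⟩]⟩,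
 ⟨nat_lit 4, [⟨nat_lit 4, [⟨nat_lit 4, nat_lit 1392, nat_lit 4608, nat_lit 1536, nat_lit 10368, nat_lit 3696, R4_32, R6_216, R7_77⟩, ⟨nat_lit 6, nat_lit 1488, nat_lit 6192, nat_lit 8256, nat_lit 9552, nat_lit 2064, R4_172, R8_199, R2_43⟩]⟩, ⟨nat_lit 6, [⟨nat_lit 6, nat_lit 1536, nat_lit 6240, nat_lit 6240, nat_lit 10080, nat_lit 1536, R5_130, R8_210, R1_32⟩]⟩]⟩,
 ⟨nat_lit 6, [⟨nat_lit 6, [⟨nat_lit 6, nat_lit 1584, nat_lit 7152, nat_lit 21840, nat_lit 7680, nat_lit 6960, R11_455, R5_160, R1_145⟩]⟩]⟩,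
 ⟨nat_lit 7, [⟨nat_lit 4, [⟨nat_lit 4, nat_lit 1440, nat_lit 4992, nat_lit 12624, nat_lit 9648, nat_lit 10752, R3_263, R13_201, R7_224⟩, ⟨nat_lit 6, nat_lit 1632, nat_lit 6720, nat_lit 13008, nat_lit 7536, nat_lit 9840, R3_271, R9_157, R2_205⟩, ⟨nat_lit 7, nat_lit 1776, nat_lit 5664, nat_lit 13440, nat_lit 9936, nat_lit 4848, R3_280, R3_207, R2_101⟩]⟩, ⟨nat_lit 6, [⟨nat_lit 6, nat_lit 1680, nat_lit 6768, nat_lit 14400, nat_lit 7584, nat_lit 10656, R0_300, R9_158, R1_222⟩]⟩, ⟨nat_lit 7, [⟨nat_lit 7, nat_lit 1824, nat_lit 5712, nat_lit 19632, nat_lit 10080, nat_lit 3552, R10_409, R3_210, R1_74⟩]⟩]⟩]], [[], [⟨nat_lit 4, [⟨nat_lit 4, [⟨nat_lit 4, nat_lit 10512, nat_lit 11520, nat_lit 1776, nat_lit 2976, nat_lit 3840, R4_37, R8_62, R7_80⟩, ⟨nat_lit 6, nat_lit 10608, nat_lit 11568, nat_lit 8496, nat_lit 10272, nat_lit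 2208, R4_177, R9_214, R2_46⟩]⟩, ⟨nat_lit 6, [⟨nat_lit 6, nat_lit 10656, nat_lit 14400, nat_lit 6768, nat_lit 10560, nat_lit 1680, R5_141, R9_220, R1_35⟩]⟩]⟩,
 ⟨nat_lit 6, [⟨nat_lit 6, [⟨nat_lit 6, nat_lit 10704, nat_lit 15120, nat_lit 21984, nat_lit 5424, nat_lit 7104, R11_458, R0_113, R1_148⟩]⟩]⟩,
 ⟨nat_lit 7, [⟨nat_lit 4, [⟨nat_lit 4, nat_lit 10560, nat_lit 11760, nat_lit 12672, nat_lit 12048, nat_lit 10896, R3_264, R9_251, R7_227⟩, ⟨nat_lit 7, nat_lit 10752, nat_lit 11808, nat_lit 13488, nat_lit 1872, nat_lit 5040, R3_281, R0_39, R2_105⟩]⟩, ⟨nat_lit 7, [⟨nat_lit 7, nat_lit 10800, nat_lit 14064, nat_lit 19776, nat_lit 6912, nat_lit 3744, R10_412, R0_144, R1_78⟩]⟩]⟩]], [[], [⟨nat_lit 3, [⟨nat_lit 7, [⟨nat_lit 7, nat_lit 7152, nat_lit 5520, nat_lit 16320, nat_lit 5760, nat_lit 15408, R1_340, R1_120, R1_321⟩]⟩]⟩,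
 ⟨nat_lit 4, [⟨nat_lit 4, [⟨nat_lit 4, nat_lit 6816, nat_lit 4608, nat_lit 1824, nat_lit 4320, nat_lit 3744, R4_38, R4_90, R7_78⟩, ⟨nat_lit 6, nat_lit 6912, nat_lit 5808, nat_lit 8544, nat_lit 720, nat_lit 2112, R4_178, R5_15, R2_44⟩]⟩, ⟨nat_lit 6, [⟨nat_lit 6, nat_lit 6960, nat_lit 5856, nat_lit 7152, nat_lit 7680, nat_lit 1584, R5_149, R5_160, R1_33⟩]⟩]⟩,
 ⟨nat_lit 6, [⟨nat_lit 6, [⟨nat_lit 6, nat_lit 7008, nat_lit 6768, nat_lit 22176, nat_lit 7296, nat_lit 7008, R11_462, R11_152, R1_146⟩]⟩]⟩,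
 ⟨nat_lit 7, [⟨nat_lit 4, [⟨nat_lit 4, nat_lit 6864, nat_lit 4992, nat_lit 12720, nat_lit 10704, nat_lit 10800, R3_265, R3_223, R7_225⟩, ⟨nat_lit 6, nat_lit 7056, nat_lit 6336, nat_lit 13056, nat_lit 5376, nat_lit 9888, R3_272, R0_112, R2_206⟩, ⟨nat_lit 7, nat_lit 7200, nat_lit 5280, nat_lit 13536, nat_lit 6720, nat_lit 4896, R3_282, R10_140, R2_102⟩]⟩, ⟨nat_lit 6, [⟨nat_lit 6, nat_lit 7104, nat_lit 6384, nat_lit 15120, nat_lit 5424, nat_lit 10704, R0_315, R0_113, R1_223⟩]⟩, ⟨nat_lit 7, [⟨nat_lit 7, nat_lit 7248, nat_lit 5328, nat_lit 19968, nat_lit 6768, nat_lit 3600, R10_416, R10_141, R1_75⟩]⟩]⟩], [], [], [], [⟨nat_lit 0, [⟨nat_lit 0, [⟨nat_lit 0, nat_lit 3936, nat_lit 4512, nat_lit 4032, nat_lit 3072, nat_lit 3792, R4_84, R4_64, R4_79⟩, ⟨nat_lit 3, nat_lit 4224, nat_lit 4656, nat_lit 10368, nat_lit 816, nat_lit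 14256, R4_216, R5_17, R3_297⟩]⟩, ⟨nat_lit 3, [⟨nat_lit 3, nat_lit 4272, nat_lit 4704, nat_lit 7104, nat_lit 7776, nat_lit 19056, R5_148, R5_162, R10_397⟩]⟩]⟩,
 ⟨nat_lit 2, [⟨nat_lit 0, [⟨nat_lit 0, nat_lit 3984, nat_lit 4560, nat_lit 14304, nat_lit 9744, nat_lit 10128, R3_298, R3_203, R4_211⟩, ⟨nat_lit 3, nat_lit 4320, nat_lit 4800, nat_lit 15120, nat_lit 6720, nat_lit 15072, R3_315, R0_140, R3_314⟩]⟩, ⟨nat_lit 2, [⟨nat_lit 0, nat_lit 4032, nat_lit 4608, nat_lit 19488, nat_lit 10032, nat_lit 5568, R10_406, R3_209, R5_116⟩, ⟨nat_lit 2, nat_lit 4080, nat_lit 5040, nat_lit 19536, nat_lit 8448, nat_lit 21312, R10_407, R10_176, R11_444⟩, ⟨nat_lit 3, nat_lit 4368, nat_lit 4896, nat_lit 19584, nat_lit 6768, nat_lit 14016, R10_408, R0_141, R0_292⟩]⟩, ⟨nat_lit 3, [⟨nat_lit 3, nat_lit 4416, nat_lit 4848, nat_lit 14352,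 nat_lit 6816, nat_lit 19152, R0_299, R0_142, R10_399⟩]⟩]⟩,
 ⟨nat_lit 3, [⟨nat_lit 3, [⟨nat_lit 3, nat_lit 4464, nat_lit 4752, nat_lit 21744, nat_lit 9360, nat_lit 19104, R11_453, R11_195, R10_398⟩, ⟨nat_lit 7, nat_lit 4944, nat_lit 4176, nat_lit 21792, nat_lit 7824, nat_lit 15600, R11_454, R1_163, R1_325⟩]⟩, ⟨nat_lit 7, [⟨nat_lit 7, nat_lit 4992, nat_lit 4128, nat_lit 15888, nat_lit 7776, nat_lit 21360, R1_331, R1_162, R11_445⟩]⟩]⟩,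
 ⟨nat_lit 4, [⟨nat_lit 4, [⟨nat_lit 4, nat_lit 4512, nat_lit 3936, nat_lit 4032, nat_lit 3072, nat_lit 3792, R4_84, R4_64, R4_79⟩, ⟨nat_lit 6, nat_lit 4656, nat_lit 4224, nat_lit 10368, nat_lit 816, nat_lit 14256, R4_216, R5_17, R3_297⟩]⟩, ⟨nat_lit 6, [⟨nat_lit 6, nat_lit 4704, nat_lit 4272, nat_lit 7104, nat_lit 7776, nat_lit 19056, R5_148, R5_162, R10_397⟩]⟩]⟩,
 ⟨nat_lit 6, [⟨nat_lit 2, [⟨nat_lit 2, nat_lit 4128, nat_lit 4992, nat_lit 15888, nat_lit 7776, nat_lit 21360, R1_331, R1_162, R11_445⟩]⟩, ⟨nat_lit 6, [⟨nat_lit 2, nat_lit 4176, nat_lit 4944, nat_lit 21792, nat_lit 7824, nat_lit 15600, R11_454, R1_163, R1_325⟩, ⟨nat_lit 6, nat_lit 4752, nat_lit 4464, nat_lit 21744, nat_lit 9360, nat_lit 19104, R11_453, R11_195, R10_398⟩]⟩]⟩,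
 ⟨nat_lit 7, [⟨nat_lit 4, [⟨nat_lit 4, nat_lit 4560, nat_lit 3984, nat_lit 14304, nat_lit 9744, nat_lit 10128, R3_298, R3_203, R4_211⟩, ⟨nat_lit 6, nat_lit 4800, nat_lit 4320, nat_lit 15120, nat_lit 6720, nat_lit 15072, R3_315, R0_140, R3_314⟩]⟩, ⟨nat_lit 6, [⟨nat_lit 6, nat_lit 4848, nat_lit 4416, nat_lit 14352, nat_lit 6816, nat_lit 19152, R0_299, R0_142, R10_399⟩]⟩, ⟨nat_lit 7, [⟨nat_lit 4, nat_lit 4608, nat_lit 4032, nat_lit 19488, nat_lit 10032, nat_lit 5568, R10_406, R3_209, R5_116⟩, ⟨nat_lit 6, nat_lit 4896, nat_lit 4368, nat_lit 19584, nat_lit 6768, nat_lit 14016, R10_408, R0_141, R0_292⟩, ⟨nat_lit 7, nat_lit 5040, nat_lit 4080, nat_lit 19536, nat_lit 8448, nat_lit 21312, R10_407, R10_176, R11_444⟩]⟩]⟩]]], [[], [], [], [], [[⟨nat_lit 3, [⟨nat_lit 5, [⟨nat_lit 7, nat_lit 336, nat_lit 7680, nat_lit 13584,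 nat_lit 3936, nat_lit 12336, R1_283, R2_82, R2_257⟩]⟩]⟩,
 ⟨nat_lit 7, [⟨nat_lit 5, [⟨nat_lit 4, nat_lit 240, nat_lit 5184, nat_lit 14736, nat_lit 5904, nat_lit 13680, R10_307, R13_123, R7_285⟩, ⟨nat_lit 5, nat_lit 288, nat_lit 6768, nat_lit 15504, nat_lit 4176, nat_lit 12432, R10_323, R3_87, R2_259⟩, ⟨nat_lit 7, nat_lit 384, nat_lit 7152, nat_lit 15216, nat_lit 4224, nat_lit 12384, R10_317, R3_88, R2_258⟩]⟩]⟩], [⟨nat_lit 3, [⟨nat_lit 4, [⟨nat_lit 7, nat_lit 2160, nat_lit 5616, nat_lit 13584, nat_lit 6864, nat_lit 13008, R2_283, R2_143, R2_271⟩]⟩, ⟨nat_lit 5, [⟨nat_lit 7, nat_lit 2208, nat_lit 5712, nat_lit 14928, nat_lit 6960, nat_lit 12480, R1_311, R2_145, R12_260⟩]⟩, ⟨nat_lit 7, [⟨nat_lit 7, nat_lit 2256, nat_lit 5664, nat_lit 15360, nat_lit 6912, nat_lit 14352, R12_320, R2_144, R1_299⟩]⟩]⟩,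
 ⟨nat_lit 7, [⟨nat_lit 4, [⟨nat_lit 4, nat_lit 1872, nat_lit 4128, nat_lit 1392, nat_lit 9360, nat_lit 10128, R3_29, R13_195, R7_211⟩, ⟨nat_lit 6, nat_lit 2016, nat_lit 6624, nat_lit 7872, nat_lit 7200, nat_lit 9312, R3_164, R9_150, R2_194⟩, ⟨nat_lit 7, nat_lit 2304, nat_lit 5280, nat_lit 6576, nat_lit 7200, nat_lit 4320, R3_137, R3_150, R2_90⟩]⟩, ⟨nat_lit 5, [⟨nat_lit 4, nat_lit 1920, nat_lit 4176, nat_lit 16368, nat_lit 9408, nat_lit 5088, R10_341, R13_196, R14_106⟩, ⟨nat_lit 5, nat_lit 1968, nat_lit 5040, nat_lit 18336, nat_lit 7440, nat_lit 3456, R10_382, R3_155, R12_72⟩, ⟨nat_lit 6, nat_lit 2064, nat_lit 6672, nat_lit 17280, nat_lit 7296, nat_lit 8208, R10_360, R9_152, R12_171⟩, ⟨nat_lit 7, nat_lit 2352, nat_lit 5328, nat_lit 17952, nat_lit 7488, nat_lit 13392, R10_374, R3_156, R12_279⟩]⟩, ⟨nat_lit 6, [⟨nat_lit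 6, nat_lit 2112, nat_lit 6720, nat_lit 1248, nat_lit 7248, nat_lit 10128, R0_26, R9_151, R1_211⟩]⟩]⟩], [⟨nat_lit 7, [⟨nat_lit 5, [⟨nat_lit 5, nat_lit 528, nat_lit 5136, nat_lit 18912, nat_lit 5904, nat_lit 13008, R10_394, R3_123, R1_271⟩]⟩]⟩], [⟨nat_lit 3, [⟨nat_lit 5, [⟨nat_lit 7, nat_lit 2496, nat_lit 13392, nat_lit 15456, nat_lit 5184, nat_lit 12912, R1_322, R2_108, R1_269⟩]⟩]⟩,
 ⟨nat_lit 7, [⟨nat_lit 5, [⟨nat_lit 7, nat_lit 2544, nat_lit 5088, nat_lit 18768, nat_lit 5952, nat_lit 12960, R10_391, R3_124, R1_270⟩]⟩]⟩]], [[⟨nat_lit 7, [⟨nat_lit 5, [⟨nat_lit 4, nat_lit 8544, nat_lit 15552, nat_lit 14832, nat_lit 11088, nat_lit 17040, R10_309, R9_231, R7_355⟩, ⟨nat_lit 5, nat_lit 8592, nat_lit 15840, nat_lit 15600, nat_lit 9600, nat_lit 15264, R10_325, R0_200, R2_318⟩, ⟨nat_lit 7, nat_lit 8640, nat_lit 15936,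 nat_lit 15264, nat_lit 9744, nat_lit 15216, R10_318, R0_203, R2_317⟩]⟩]⟩], [], [⟨nat_lit 7, [⟨nat_lit 5, [⟨nat_lit 5, nat_lit 8928, nat_lit 14304, nat_lit 19008, nat_lit 10080, nat_lit 16272, R10_396, R0_210, R1_339⟩]⟩]⟩], [⟨nat_lit 7, [⟨nat_lit 5, [⟨nat_lit 7, nat_lit 10848, nat_lit 14256, nat_lit 18816, nat_lit 10224, nat_lit 16224, R10_392, R0_213, R1_338⟩]⟩]⟩]], [[⟨nat_lit 3, [⟨nat_lit 5, [⟨nat_lit 7, nat_lit 6000, nat_lit 15840, nat_lit 13680, nat_lit 3408, nat_lit 14112, R1_285, R1_71, R2_294⟩]⟩]⟩,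
 ⟨nat_lit 7, [⟨nat_lit 5, [⟨nat_lit 4, nat_lit 5952, nat_lit 15456, nat_lit 14880, nat_lit 10320, nat_lit 14544, R10_310, R3_215, R7_303⟩, ⟨nat_lit 7, nat_lit 6048, nat_lit 15792, nat_lit 15312, nat_lit 3936, nat_lit 14160, R10_319, R10_82, R2_295⟩]⟩]⟩], [⟨nat_lit 3, [⟨nat_lit 4, [⟨nat_lit 7, nat_lit 7536, nat_lit 3456, nat_lit 13680, nat_lit 5568, nat_lit 13536, R2_285, R1_116, R2_282⟩]⟩, ⟨nat_lit 5, [⟨nat_lit 7, nat_lit 7584, nat_lit 3552, nat_lit 15024, nat_lit 5664, nat_lit 14880, R1_313, R1_118, R12_310⟩]⟩, ⟨nat_lit 7, [⟨nat_lit 7, nat_lit 7632, nat_lit 3504, nat_lit 15456, nat_lit 5616, nat_lit 14880, R12_322, R1_117, R1_310⟩]⟩]⟩,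
 ⟨nat_lit 7, [⟨nat_lit 4, [⟨nat_lit 4, nat_lit 7296, nat_lit 2592, nat_lit 2016, nat_lit 10656, nat_lit 10320, R3_42, R3_222, R7_215⟩, ⟨nat_lit 6, nat_lit 7392, nat_lit 4464, nat_lit 8496, nat_lit 5040, nat_lit 9504, R3_177, R0_105, R2_198⟩, ⟨nat_lit 7, nat_lit 7680, nat_lit 3120, nat_lit 6960, nat_lit 6432, nat_lit 4368, R3_145, R10_134, R2_91⟩]⟩, ⟨nat_lit 5, [⟨nat_lit 4, nat_lit 7344, nat_lit 2640, nat_lit 16464, nat_lit 10848, nat_lit 5568, R10_343, R3_226, R14_116⟩, ⟨nat_lit 6, nat_lit 7440, nat_lit 4512, nat_lit 17376, nat_lit 5136, nat_lit 8688, R10_362, R0_107, R12_181⟩, ⟨nat_lit 7, nat_lit 7728, nat_lit 3168, nat_lit 18000, nat_lit 6480, nat_lit 15072, R10_375, R10_135, R12_314⟩]⟩, ⟨nat_lit 6, [⟨nat_lit 6, nat_lit 7488, nat_lit 4560, nat_lit 10464, nat_lit 5088, nat_lit 10320, R0_218, R0_106, R1_215⟩]⟩]⟩],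 [], [⟨nat_lit 3, [⟨nat_lit 5, [⟨nat_lit 7, nat_lit 7872, nat_lit 5184, nat_lit 15504, nat_lit 3888, nat_lit 15648, R1_323, R1_81, R1_326⟩]⟩]⟩,
 ⟨nat_lit 7, [⟨nat_lit 5, [⟨nat_lit 7, nat_lit 7920, nat_lit 4272, nat_lit 18864, nat_lit 5040, nat_lit 15696, R10_393, R10_105, R1_327⟩]⟩]⟩]], [[⟨nat_lit 3, [⟨nat_lit 5, [⟨nat_lit 4, nat_lit 11136, nat_lit 15360, nat_lit 13152, nat_lit 10608, nat_lit 15072, R1_274, R2_221, R7_314⟩, ⟨nat_lit 5, nat_lit 11232, nat_lit 15696, nat_lit 13776, nat_lit 10992, nat_lit 14256, R1_287, R1_229, R2_297⟩, ⟨nat_lit 7, nat_lit 11328, nat_lit 15648, nat_lit 13632, nat_lit 6336, nat_lit 13872, R1_284, R12_132, R2_289⟩]⟩]⟩,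
 ⟨nat_lit 7, [⟨nat_lit 5, [⟨nat_lit 4, nat_lit 11184, nat_lit 15408, nat_lit 14784, nat_lit 10416, nat_lit 15024, R10_308, R3_217, R7_313⟩, ⟨nat_lit 5, nat_lit 11280, nat_lit 15744, nat_lit 15552, nat_lit 12288, nat_lit 14208, R10_324, R10_256, R2_296⟩]⟩]⟩], [⟨nat_lit 3, [⟨nat_lit 4, [⟨nat_lit 4, nat_lit 11568, nat_lit 12432, nat_lit 12720, nat_lit 11616, nat_lit 15408, R2_265, R2_242, R7_321⟩, ⟨nat_lit 7, nat_lit 12000, nat_lit 13392, nat_lit 13632, nat_lit 6528, nat_lit 13392, R2_284, R12_136, R2_279⟩]⟩, ⟨nat_lit 5, [⟨nat_lit 4, nat_lit 11616, nat_lit 12528, nat_lit 14064, nat_lit 11760, nat_lit 5904, R1_293, R2_245, R14_123⟩, ⟨nat_lit 5, nat_lit 11760, nat_lit 13920, nat_lit 15168, nat_lit 12192, nat_lit 3888, R1_316, R1_254, R12_81⟩, ⟨nat_lit 7, nat_lit 12048, nat_lit 13680, nat_lit 14976, nat_lit 6624,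 nat_lit 14208, R1_312, R12_138, R12_296⟩]⟩, ⟨nat_lit 7, [⟨nat_lit 7, nat_lit 12096, nat_lit 13584, nat_lit 15408, nat_lit 6576, nat_lit 14736, R12_321, R12_137, R1_307⟩]⟩]⟩,
 ⟨nat_lit 7, [⟨nat_lit 4, [⟨nat_lit 4, nat_lit 11664, nat_lit 2496, nat_lit 1632, nat_lit 3456, nat_lit 10272, R3_34, R3_72, R7_214⟩, ⟨nat_lit 6, nat_lit 11856, nat_lit 4368, nat_lit 8160, nat_lit 4800, nat_lit 9456, R3_170, R0_100, R2_197⟩]⟩, ⟨nat_lit 5, [⟨nat_lit 4, nat_lit 11712, nat_lit 2544, nat_lit 16416, nat_lit 10944, nat_lit 5760, R10_342, R3_228, R14_120⟩, ⟨nat_lit 5, nat_lit 11808, nat_lit 3072, nat_lit 18384, nat_lit 13008, nat_lit 3744, R10_383, R10_271, R12_78⟩, ⟨nat_lit 6, nat_lit 11904, nat_lit 4416, nat_lit 17328, nat_lit 5184, nat_lit 8928, R10_361, R0_108, R12_186⟩]⟩, ⟨nat_lit 6, [⟨nat_lit 6, nat_lit 11952, nat_lit 4704,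 nat_lit 6384, nat_lit 4944, nat_lit 10272, R0_133, R0_103, R1_214⟩]⟩]⟩], [⟨nat_lit 3, [⟨nat_lit 5, [⟨nat_lit 5, nat_lit 11472, nat_lit 19440, nat_lit 15552, nat_lit 11376, nat_lit 15792, R1_324, R1_237, R1_329⟩]⟩]⟩,
 ⟨nat_lit 7, [⟨nat_lit 5, [⟨nat_lit 5, nat_lit 11520, nat_lit 19392, nat_lit 18960, nat_lit 12576, nat_lit 15744, R10_395, R10_262, R1_328⟩]⟩]⟩]]]]
noncomputable def N3742 : T3 (List N0) := [[[[], [], [⟨nat_lit 1, [⟨nat_lit 4, [⟨nat_lit 4, nat_lit 11376, nat_lit 4800, nat_lit 18144, nat_lit 13344, nat_lit 14160, R8_378, R6_278, R4_295⟩]⟩, ⟨nat_lit 6, [⟨nat_lit 4, nat_lit 11424, nat_lit 4992, nat_lit 3408, nat_lit 13440, nat_lit 2928, R5_71, R6_280, R3_61⟩]⟩]⟩], [], [], [], [⟨nat_lit 1, [⟨nat_lit 4, [⟨nat_lit 4, nat_lit 11040, nat_lit 4752, nat_lit 11280, nat_lit 13008, nat_lit 15696, R8_235, R6_271,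 R7_327⟩, ⟨nat_lit 5, nat_lit 11904, nat_lit 5184, nat_lit 11424, nat_lit 11808, nat_lit 8880, R8_238, R13_246, R14_185⟩]⟩, ⟨nat_lit 5, [⟨nat_lit 5, nat_lit 12000, nat_lit 5280, nat_lit 2928, nat_lit 11904, nat_lit 7488, R9_61, R13_248, R12_156⟩]⟩, ⟨nat_lit 6, [⟨nat_lit 4, nat_lit 11088, nat_lit 4800, nat_lit 2544, nat_lit 13152, nat_lit 14400, R5_53, R6_274, R2_300⟩, ⟨nat_lit 5, nat_lit 11952, nat_lit 5424, nat_lit 2688, nat_lit 11856, nat_lit 4032, R5_56, R13_247, R12_84⟩]⟩]⟩]], [], [[], [], [], [], [], [], [⟨nat_lit 1, [⟨nat_lit 4, [⟨nat_lit 5, nat_lit 14592, nat_lit 19824, nat_lit 12000, nat_lit 14592, nat_lit 8928, R8_250, R3_304, R14_186⟩]⟩, ⟨nat_lit 5, [⟨nat_lit 5, nat_lit 14688, nat_lit 20496, nat_lit 12576, nat_lit 14928, nat_lit 7536, R9_262, R3_311, R12_157⟩]⟩, ⟨nat_lit 6, [⟨nat_lit 5, nat_lit 14640,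 nat_lit 21120, nat_lit 13920, nat_lit 14736, nat_lit 4080, R5_290, R3_307, R12_85⟩]⟩]⟩]], [[], [], [⟨nat_lit 1, [⟨nat_lit 4, [⟨nat_lit 4, nat_lit 16368, nat_lit 9264, nat_lit 19008, nat_lit 13776, nat_lit 14400, R8_396, R8_287, R4_300⟩, ⟨nat_lit 7, nat_lit 17664, nat_lit 9648, nat_lit 19152, nat_lit 10656, nat_lit 16944, R8_399, R5_222, R5_353⟩]⟩, ⟨nat_lit 6, [⟨nat_lit 4, nat_lit 16416, nat_lit 11424, nat_lit 11472, nat_lit 13920, nat_lit 8688, R5_239, R8_290, R3_181⟩, ⟨nat_lit 7, nat_lit 17712, nat_lit 11856, nat_lit 11616, nat_lit 10704, nat_lit 2880, R5_242, R5_223, R0_60⟩]⟩]⟩]]], [[[], [], [⟨nat_lit 1, [⟨nat_lit 4, [⟨nat_lit 4, nat_lit 11472, nat_lit 192, nat_lit 13104, nat_lit 13392, nat_lit 14208, R5_273, R6_279, R4_296⟩]⟩, ⟨nat_lit 6, [⟨nat_lit 4, nat_lit 11520, nat_lit 240, nat_lit 3408, nat_lit 13488,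 nat_lit 2976, R11_71, R6_281, R3_62⟩]⟩]⟩], [], [], [], [⟨nat_lit 1, [⟨nat_lit 4, [⟨nat_lit 4, nat_lit 11136, nat_lit 3168, nat_lit 12816, nat_lit 13056, nat_lit 15888, R5_267, R6_272, R7_331⟩, ⟨nat_lit 5, nat_lit 12048, nat_lit 3600, nat_lit 13824, nat_lit 11952, nat_lit 11136, R5_288, R13_249, R14_232⟩]⟩, ⟨nat_lit 5, [⟨nat_lit 5, nat_lit 12144, nat_lit 3696, nat_lit 1392, nat_lit 12048, nat_lit 9264, R0_29, R13_251, R12_193⟩]⟩, ⟨nat_lit 6, [⟨nat_lit 4, nat_lit 11184, nat_lit 3216, nat_lit 2544, nat_lit 13200, nat_lit 14592, R11_53, R6_275, R2_304⟩, ⟨nat_lit 5, nat_lit 12096, nat_lit 3840, nat_lit 2688, nat_lit 12000, nat_lit 5376, R11_56, R13_250, R12_112⟩]⟩]⟩]], [[], [], [⟨nat_lit 1, [⟨nat_lit 4, [⟨nat_lit 4, nat_lit 15264, nat_lit 3024, nat_lit 13200, nat_lit 13248, nat_lit 14592, R5_275, R4_276, R4_304⟩]⟩,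 ⟨nat_lit 6, [⟨nat_lit 4, nat_lit 15312, nat_lit 3216, nat_lit 9648, nat_lit 13296, nat_lit 10464, R11_201, R4_277, R3_218⟩]⟩]⟩,
 ⟨nat_lit 5, [⟨nat_lit 6, [⟨nat_lit 4, nat_lit 15408, nat_lit 14784, nat_lit 11184, nat_lit 14496, nat_lit 10416, R1_233, R7_302, R3_217⟩, ⟨nat_lit 6, nat_lit 15744, nat_lit 15552, nat_lit 11280, nat_lit 14208, nat_lit 3984, R1_235, R2_296, R10_83⟩]⟩]⟩], [], [], [], [⟨nat_lit 1, [⟨nat_lit 4, [⟨nat_lit 4, nat_lit 15168, nat_lit 2640, nat_lit 12864, nat_lit 13152, nat_lit 16560, R5_268, R4_274, R7_345⟩, ⟨nat_lit 5, nat_lit 15504, nat_lit 3072, nat_lit 13872, nat_lit 9168, nat_lit 11232, R5_289, R3_191, R14_234⟩]⟩, ⟨nat_lit 5, [⟨nat_lit 5, nat_lit 15600, nat_lit 3168, nat_lit 6528, nat_lit 9264, nat_lit 9360, R0_136, R3_193, R12_195⟩]⟩, ⟨nat_lit 6, [⟨nat_lit 4, nat_lit 15216, nat_lit 2688,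 nat_lit 8976, nat_lit 13200, nat_lit 14832, R11_187, R4_275, R2_309⟩, ⟨nat_lit 5, nat_lit 15552, nat_lit 3312, nat_lit 9120, nat_lit 9216, nat_lit 5472, R11_190, R3_192, R12_114⟩]⟩]⟩,
 ⟨nat_lit 5, [⟨nat_lit 6, [⟨nat_lit 4, nat_lit 15360, nat_lit 13152, nat_lit 11136, nat_lit 14448, nat_lit 10608, R1_232, R7_301, R2_221⟩, ⟨nat_lit 5, nat_lit 15648, nat_lit 13632, nat_lit 11328, nat_lit 13872, nat_lit 6336, R1_236, R2_289, R12_132⟩, ⟨nat_lit 6, nat_lit 15696, nat_lit 13776, nat_lit 11232, nat_lit 14256, nat_lit 10992, R1_234, R2_297, R1_229⟩]⟩]⟩]], [[], [], [], [], [], [], [⟨nat_lit 1, [⟨nat_lit 4, [⟨nat_lit 5, nat_lit 14736, nat_lit 15600, nat_lit 13920, nat_lit 14640, nat_lit 11184, R5_290, R3_305, R14_233⟩]⟩, ⟨nat_lit 5, [⟨nat_lit 5, nat_lit 14832, nat_lit 16272, nat_lit 10752, nat_lit 14976, nat_lit 9312,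 R0_224, R3_312, R12_194⟩]⟩, ⟨nat_lit 6, [⟨nat_lit 5, nat_lit 14784, nat_lit 16896, nat_lit 16992, nat_lit 14784, nat_lit 5424, R11_354, R3_308, R12_113⟩]⟩]⟩]], [[], [], [⟨nat_lit 1, [⟨nat_lit 4, [⟨nat_lit 4, nat_lit 16464, nat_lit 5664, nat_lit 13152, nat_lit 13824, nat_lit 14496, R5_274, R8_288, R4_302⟩, ⟨nat_lit 7, nat_lit 17760, nat_lit 5760, nat_lit 13488, nat_lit 10752, nat_lit 17664, R5_281, R5_224, R5_368⟩]⟩, ⟨nat_lit 6, [⟨nat_lit 4, nat_lit 16512, nat_lit 5712, nat_lit 14448, nat_lit 13968, nat_lit 8784, R11_301, R8_291, R3_183⟩, ⟨nat_lit 7, nat_lit 17808, nat_lit 5808, nat_lit 14592, nat_lit 10800, nat_lit 3024, R11_304, R5_225, R0_63⟩]⟩]⟩]]], [[], [], [[], [], [], [], [], [], [⟨nat_lit 1, [⟨nat_lit 5, [⟨nat_lit 5, nat_lit 14880, nat_lit 16560, nat_lit 11136, nat_lit 15024, nat_lit 7920, R0_232, R3_313,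 R12_165⟩]⟩]⟩]]], [[], [], [], [[], [], [⟨nat_lit 1, [⟨nat_lit 4, [⟨nat_lit 4, nat_lit 16560, nat_lit 11712, nat_lit 11376, nat_lit 13872, nat_lit 14448, R9_237, R8_289, R4_301⟩, ⟨nat_lit 7, nat_lit 17856, nat_lit 12096, nat_lit 11520, nat_lit 10848, nat_lit 17328, R9_240, R5_226, R5_361⟩]⟩, ⟨nat_lit 6, [⟨nat_lit 4, nat_lit 16608, nat_lit 14400, nat_lit 9888, nat_lit 14016, nat_lit 8736, R0_206, R8_292, R3_182⟩, ⟨nat_lit 7, nat_lit 17904, nat_lit 14832, nat_lit 10320, nat_lit 10896, nat_lit 2976, R0_215, R5_227, R0_62⟩]⟩, ⟨nat_lit 7, [⟨nat_lit 7, nat_lit 17952, nat_lit 13152, nat_lit 15168, nat_lit 10944, nat_lit 5088, R0_316, R5_228, R11_106⟩]⟩]⟩]]], [], [[], [[], [], [⟨nat_lit 5, [⟨nat_lit 2, [⟨nat_lit 6, nat_lit 15840, nat_lit 6000, nat_lit 13680, nat_lit 14112, nat_lit 3408, R1_285, R2_294, R1_71⟩]⟩, ⟨nat_lit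 6, [⟨nat_lit 4, nat_lit 15456, nat_lit 5952, nat_lit 14880, nat_lit 14544, nat_lit 10320, R10_310, R7_303, R3_215⟩, ⟨nat_lit 6, nat_lit 15792, nat_lit 6048, nat_lit 15312, nat_lit 14160, nat_lit 3936, R10_319, R2_295, R10_82⟩]⟩]⟩]], [], [], [], [[⟨nat_lit 6, [⟨nat_lit 2, [⟨nat_lit 2, nat_lit 7728, nat_lit 7440, nat_lit 15648, nat_lit 9072, nat_lit 6960, R12_326, R2_189, R5_145⟩]⟩]⟩], [⟨nat_lit 6, [⟨nat_lit 2, [⟨nat_lit 2, nat_lit 8304, nat_lit 10608, nat_lit 16320, nat_lit 9168, nat_lit 13776, R12_340, R2_191, R0_287⟩]⟩]⟩], [⟨nat_lit 4, [⟨nat_lit 2, [⟨nat_lit 6, nat_lit 8976, nat_lit 2640, nat_lit 3888, nat_lit 11712, nat_lit 3264, R2_81, R13_244, R1_68⟩]⟩, ⟨nat_lit 6, [⟨nat_lit 4, nat_lit 8592, nat_lit 3360, nat_lit 672, nat_lit 13920, nat_lit 16176, R3_14, R6_290, R3_337⟩, ⟨nat_lit 6, nat_lit 8928, nat_lit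 3552, nat_lit 4272, nat_lit 11664, nat_lit 3792, R3_89, R13_243, R10_79⟩]⟩]⟩,
 ⟨nat_lit 5, [⟨nat_lit 2, [⟨nat_lit 6, nat_lit 9120, nat_lit 9072, nat_lit 3360, nat_lit 9120, nat_lit 3360, R1_70, R3_190, R1_70⟩]⟩, ⟨nat_lit 6, [⟨nat_lit 4, nat_lit 8640, nat_lit 9600, nat_lit 3312, nat_lit 13728, nat_lit 16800, R10_69, R4_286, R3_350⟩, ⟨nat_lit 6, nat_lit 9072, nat_lit 9792, nat_lit 3888, nat_lit 9072, nat_lit 3888, R10_81, R3_189, R10_81⟩]⟩]⟩,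
 ⟨nat_lit 6, [⟨nat_lit 2, [⟨nat_lit 2, nat_lit 8016, nat_lit 16848, nat_lit 16944, nat_lit 9120, nat_lit 6576, R12_353, R2_190, R11_137⟩, ⟨nat_lit 6, nat_lit 9216, nat_lit 16944, nat_lit 16992, nat_lit 15552, nat_lit 3312, R12_354, R3_324, R1_69⟩]⟩]⟩,
 ⟨nat_lit 7, [⟨nat_lit 6, [⟨nat_lit 4, nat_lit 8736, nat_lit 14400, nat_lit 9888, nat_lit 14016, nat_lit 16608, R0_206, R8_292, R3_346⟩, ⟨nat_lit 6, nat_lit 9360, nat_lit 14736, nat_lit 9936, nat_lit 9216, nat_lit 3840, R0_207, R9_192, R10_80⟩, ⟨nat_lit 7, nat_lit 9552, nat_lit 14544, nat_lit 9984, nat_lit 10560, nat_lit 2784, R0_208, R5_220, R0_58⟩]⟩]⟩]]], [], [[], [], [], [], [[⟨nat_lit 0, [⟨nat_lit 7, [⟨nat_lit 3, nat_lit 2064, nat_lit 2928, nat_lit 1776, nat_lit 8784, nat_lit 3360, R2_37, R6_183, R2_70⟩]⟩]⟩,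
 ⟨nat_lit 2, [⟨nat_lit 3, [⟨nat_lit 0, nat_lit 96, nat_lit 2640, nat_lit 3264, nat_lit 6048, nat_lit 5040, R11_68, R6_126, R13_105⟩, ⟨nat_lit 2, nat_lit 816, nat_lit 4368, nat_lit 3600, nat_lit 6384, nat_lit 3984, R11_75, R4_133, R9_83⟩, ⟨nat_lit 3, nat_lit 2352, nat_lit 3600, nat_lit 3840, nat_lit 8208, nat_lit 3984, R11_80, R8_171, R3_83⟩]⟩, ⟨nat_lit 7, [⟨nat_lit 3, nat_lit 2304, nat_lit 3648, nat_lit 1248, nat_lit 8256, nat_lit 3456, R1_26, R8_172, R2_72⟩]⟩]⟩,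
 ⟨nat_lit 3, [⟨nat_lit 7, [⟨nat_lit 3, nat_lit 2784, nat_lit 3216, nat_lit 2448, nat_lit 9408, nat_lit 3408, R12_51, R4_196, R2_71⟩]⟩]⟩,
 ⟨nat_lit 6, [⟨nat_lit 0, [⟨nat_lit 2, nat_lit 1296, nat_lit 3888, nat_lit 2400, nat_lit 10032, nat_lit 7056, R2_50, R7_209, R8_147⟩]⟩, ⟨nat_lit 2, [⟨nat_lit 2, nat_lit 1344, nat_lit 3984, nat_lit 240, nat_lit 10080, nat_lit 4848, R12_5, R7_210, R5_101⟩]⟩, ⟨nat_lit 3, [⟨nat_lit 2, nat_lit 1392, nat_lit 3936, nat_lit 1872, nat_lit 10128, nat_lit 4032, R1_39, R7_211, R9_84⟩]⟩]⟩], [⟨nat_lit 2, [⟨nat_lit 3, [⟨nat_lit 0, nat_lit 528, nat_lit 1968, nat_lit 3312, nat_lit 6480, nat_lit 13296, R11_69, R6_135, R9_277⟩, ⟨nat_lit 3, nat_lit 2640, nat_lit 2640, nat_lit 3888, nat_lit 8880, nat_lit 7344, R11_81, R8_185, R0_153⟩]⟩]⟩,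
 ⟨nat_lit 6, [⟨nat_lit 0, [⟨nat_lit 2, nat_lit 1920, nat_lit 2976, nat_lit 10032, nat_lit 10368, nat_lit 7728, R2_209, R7_216, R9_161⟩]⟩, ⟨nat_lit 2, [⟨nat_lit 2, nat_lit 1968, nat_lit 3024, nat_lit 1296, nat_lit 10416, nat_lit 13056, R12_27, R7_217, R0_272⟩]⟩]⟩], [⟨nat_lit 0, [⟨nat_lit 7, [⟨nat_lit 3, nat_lit 2112, nat_lit 3120, nat_lit 1872, nat_lit 8976, nat_lit 2832, R2_39, R6_187, R1_59⟩]⟩]⟩,
 ⟨nat_lit 2, [⟨nat_lit 3, [⟨nat_lit 0, nat_lit 240, nat_lit 2976, nat_lit 3408, nat_lit 6192, nat_lit 11520, R11_71, R6_129, R3_240⟩, ⟨nat_lit 2, nat_lit 960, nat_lit 3600, nat_lit 3696, nat_lit 6528, nat_lit 2448, R11_77, R4_136, R0_51⟩, ⟨nat_lit 3, nat_lit 2496, nat_lit 3312, nat_lit 3936, nat_lit 8400, nat_lit 3552, R11_82, R8_175, R10_74⟩]⟩, ⟨nat_lit 7, [⟨nat_lit 3, nat_lit 2448, nat_lit 3360, nat_lit 1344, nat_lit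 8448, nat_lit 2928, R1_28, R8_176, R1_61⟩]⟩]⟩,
 ⟨nat_lit 3, [⟨nat_lit 4, [⟨nat_lit 7, nat_lit 3408, nat_lit 1536, nat_lit 11088, nat_lit 10176, nat_lit 15264, R2_231, R7_212, R5_318⟩]⟩, ⟨nat_lit 6, [⟨nat_lit 7, nat_lit 3456, nat_lit 1632, nat_lit 11664, nat_lit 10272, nat_lit 2496, R1_243, R7_214, R0_52⟩]⟩, ⟨nat_lit 7, [⟨nat_lit 3, nat_lit 2832, nat_lit 3216, nat_lit 2544, nat_lit 9600, nat_lit 2880, R12_53, R4_200, R1_60⟩, ⟨nat_lit 7, nat_lit 3504, nat_lit 1584, nat_lit 2352, nat_lit 10224, nat_lit 4848, R12_49, R7_213, R11_101⟩]⟩]⟩,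
 ⟨nat_lit 4, [⟨nat_lit 2, [⟨nat_lit 6, nat_lit 3120, nat_lit 2112, nat_lit 1872, nat_lit 8976, nat_lit 2832, R2_39, R6_187, R1_59⟩]⟩]⟩,
 ⟨nat_lit 6, [⟨nat_lit 0, [⟨nat_lit 2, nat_lit 1536, nat_lit 3408, nat_lit 11088, nat_lit 10176, nat_lit 15264, R2_231, R7_212, R5_318⟩]⟩, ⟨nat_lit 2, [⟨nat_lit 2, nat_lit 1584, nat_lit 3504, nat_lit 2352, nat_lit 10224, nat_lit 4848, R12_49, R7_213, R11_101⟩, ⟨nat_lit 6, nat_lit 3216, nat_lit 2832, nat_lit 2544, nat_lit 9600, nat_lit 2880, R12_53, R4_200, R1_60⟩]⟩, ⟨nat_lit 3, [⟨nat_lit 2, nat_lit 1632, nat_lit 3456, nat_lit 11664, nat_lit 10272, nat_lit 2496, R1_243, R7_214, R0_52⟩]⟩]⟩,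
 ⟨nat_lit 7, [⟨nat_lit 2, [⟨nat_lit 6, nat_lit 3360, nat_lit 2448, nat_lit 1344, nat_lit 8448, nat_lit 2928, R1_28, R8_176, R1_61⟩]⟩, ⟨nat_lit 6, [⟨nat_lit 4, nat_lit 2976, nat_lit 240, nat_lit 3408, nat_lit 6192, nat_lit 11520, R11_71, R6_129, R3_240⟩, ⟨nat_lit 6, nat_lit 3312, nat_lit 2496, nat_lit 3936, nat_lit 8400, nat_lit 3552, R11_82, R8_175, R10_74⟩, ⟨nat_lit 7, nat_lit 3600, nat_lit 960, nat_lit 3696, nat_lit 6528, nat_lit 2448, R11_77, R4_136, R0_51⟩]⟩]⟩], [⟨nat_lit 0, [⟨nat_lit 7, [⟨nat_lit 3, nat_lit 2208, nat_lit 11760, nat_lit 1824, nat_lit 9216, nat_lit 3024, R2_38, R6_192, R12_63⟩]⟩]⟩,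
 ⟨nat_lit 2, [⟨nat_lit 3, [⟨nat_lit 0, nat_lit 672, nat_lit 16176, nat_lit 3360, nat_lit 6240, nat_lit 8592, R11_70, R6_130, R3_179⟩, ⟨nat_lit 2, nat_lit 1152, nat_lit 17520, nat_lit 3648, nat_lit 6576, nat_lit 2928, R11_76, R4_137, R0_61⟩]⟩, ⟨nat_lit 7, [⟨nat_lit 0, nat_lit 624, nat_lit 15936, nat_lit 192, nat_lit 6288, nat_lit 11904, R1_4, R6_131, R2_248⟩, ⟨nat_lit 3, nat_lit 2736, nat_lit 16896, nat_lit 1296, nat_lit 8544, nat_lit 3072, R1_27, R8_178, R12_64⟩]⟩]⟩,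
 ⟨nat_lit 3, [⟨nat_lit 7, [⟨nat_lit 3, nat_lit 2880, nat_lit 14112, nat_lit 2496, nat_lit 9984, nat_lit 3120, R12_52, R4_208, R12_65⟩]⟩]⟩,
 ⟨nat_lit 6, [⟨nat_lit 3, [⟨nat_lit 2, nat_lit 2016, nat_lit 10656, nat_lit 7296, nat_lit 10320, nat_lit 2592, R1_152, R7_215, R0_54⟩]⟩]⟩]], [[⟨nat_lit 6, [⟨nat_lit 0, [⟨nat_lit 2, nat_lit 7776, nat_lit 6240, nat_lit 2544, nat_lit 9216, nat_lit 7296, R2_53, R2_192, R8_152⟩]⟩, ⟨nat_lit 2, [⟨nat_lit 2, nat_lit 7824, nat_lit 7440, nat_lit 7248, nat_lit 9264, nat_lit 6576, R12_151, R2_193, R5_137⟩]⟩, ⟨nat_lit 3, [⟨nat_lit 2, nat_lit 7872, nat_lit 6960, nat_lit 2016, nat_lit 9312, nat_lit 6528, R1_42, R2_194, R9_136⟩]⟩]⟩], [], [⟨nat_lit 4, [⟨nat_lit 2, [⟨nat_lit 6, nat_lit 9024, nat_lit 6432, nat_lit 8736, nat_lit 11760, nat_lit 3120, R2_182, R13_245, R1_65⟩]⟩]⟩,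
 ⟨nat_lit 6, [⟨nat_lit 0, [⟨nat_lit 2, nat_lit 8064, nat_lit 4080, nat_lit 11280, nat_lit 9360, nat_lit 15408, R2_235, R2_195, R5_321⟩]⟩, ⟨nat_lit 2, [⟨nat_lit 2, nat_lit 8112, nat_lit 5280, nat_lit 9120, nat_lit 9408, nat_lit 6192, R12_190, R2_196, R11_129⟩, ⟨nat_lit 6, nat_lit 9264, nat_lit 6528, nat_lit 9360, nat_lit 15600, nat_lit 3168, R12_195, R3_325, R1_66⟩]⟩, ⟨nat_lit 3, [⟨nat_lit 2, nat_lit 8160, nat_lit 4800, nat_lit 11856, nat_lit 9456, nat_lit 4368, R1_247, R2_197, R0_91⟩]⟩]⟩,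
 ⟨nat_lit 7, [⟨nat_lit 2, [⟨nat_lit 6, nat_lit 9456, nat_lit 6480, nat_lit 9552, nat_lit 9312, nat_lit 3216, R1_199, R9_194, R1_67⟩]⟩, ⟨nat_lit 6, [⟨nat_lit 4, nat_lit 8784, nat_lit 5712, nat_lit 14448, nat_lit 13968, nat_lit 16512, R11_301, R8_291, R3_344⟩, ⟨nat_lit 6, nat_lit 9408, nat_lit 7008, nat_lit 15264, nat_lit 9264, nat_lit 3744, R11_318, R9_193, R10_78⟩, ⟨nat_lit 7, nat_lit 9600, nat_lit 6240, nat_lit 14880, nat_lit 10608, nat_lit 2736, R11_310, R5_221, R0_57⟩]⟩]⟩], [⟨nat_lit 6, [⟨nat_lit 3, [⟨nat_lit 2, nat_lit 8496, nat_lit 5040, nat_lit 7392, nat_lit 9504, nat_lit 4464, R1_154, R2_198, R0_93⟩]⟩]⟩]], [[⟨nat_lit 0, [⟨nat_lit 7, [⟨nat_lit 3, nat_lit 7008, nat_lit 6480, nat_lit 2832, nat_lit 7200, nat_lit 4224, R2_59, R8_150, R2_88⟩]⟩]⟩,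
 ⟨nat_lit 2, [⟨nat_lit 3, [⟨nat_lit 0, nat_lit 3840, nat_lit 3840, nat_lit 3456, nat_lit 6624, nat_lit 6624, R11_72, R13_138, R13_138⟩, ⟨nat_lit 1, nat_lit 5568, nat_lit 5568, nat_lit 4224, nat_lit 4992, nat_lit 4992, R11_88, R3_104, R3_104⟩, ⟨nat_lit 2, nat_lit 6144, nat_lit 7248, nat_lit 3744, nat_lit 6240, nat_lit 4896, R11_78, R3_130, R9_102⟩, ⟨nat_lit 3, nat_lit 7248, nat_lit 6144, nat_lit 4128, nat_lit 4896, nat_lit 6240, R11_86, R9_102, R3_130⟩]⟩, ⟨nat_lit 7, [⟨nat_lit 3, nat_lit 7200, nat_lit 6576, nat_lit 2304, nat_lit 4944, nat_lit 4320, R1_48, R9_103, R2_90⟩]⟩]⟩,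
 ⟨nat_lit 3, [⟨nat_lit 7, [⟨nat_lit 3, nat_lit 7536, nat_lit 6528, nat_lit 2592, nat_lit 5424, nat_lit 4272, R12_54, R5_113, R2_89⟩]⟩]⟩,
 ⟨nat_lit 6, [⟨nat_lit 0, [⟨nat_lit 2, nat_lit 6480, nat_lit 7008, nat_lit 2832, nat_lit 4224, nat_lit 7200, R2_59, R2_88, R8_150⟩]⟩, ⟨nat_lit 2, [⟨nat_lit 2, nat_lit 6528, nat_lit 7536, nat_lit 10272, nat_lit 4272, nat_lit 5424, R12_214, R2_89, R5_113⟩]⟩, ⟨nat_lit 3, [⟨nat_lit 2, nat_lit 6576, nat_lit 7200, nat_lit 2304, nat_lit 4320, nat_lit 4944, R1_48, R2_90, R9_103⟩]⟩]⟩], [⟨nat_lit 2, [⟨nat_lit 3, [⟨nat_lit 0, nat_lit 4128, nat_lit 288, nat_lit 3504, nat_lit 6912, nat_lit 13920, R11_73, R13_144, R9_290⟩, ⟨nat_lit 1, nat_lit 5856, nat_lit 528, nat_lit 4272, nat_lit 5280, nat_lit 12048, R11_89, R3_110, R0_251⟩, ⟨nat_lit 3, nat_lit 7392, nat_lit 1104, nat_lit 4176, nat_lit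 5136, nat_lit 8448, R11_87, R9_107, R0_176⟩]⟩]⟩,
 ⟨nat_lit 6, [⟨nat_lit 0, [⟨nat_lit 2, nat_lit 6864, nat_lit 1440, nat_lit 10176, nat_lit 4512, nat_lit 7872, R2_212, R2_94, R9_164⟩]⟩, ⟨nat_lit 2, [⟨nat_lit 2, nat_lit 6912, nat_lit 1488, nat_lit 11040, nat_lit 4560, nat_lit 13104, R12_230, R2_95, R0_273⟩]⟩]⟩], [], [⟨nat_lit 0, [⟨nat_lit 7, [⟨nat_lit 0, nat_lit 3696, nat_lit 240, nat_lit 1056, nat_lit 6720, nat_lit 12240, R2_22, R6_140, R2_255⟩, ⟨nat_lit 1, nat_lit 4848, nat_lit 768, nat_lit 3072, nat_lit 7008, nat_lit 12816, R2_64, R4_146, R1_267⟩, ⟨nat_lit 3, nat_lit 7104, nat_lit 1104, nat_lit 2880, nat_lit 7248, nat_lit 3264, R2_60, R8_151, R12_68⟩]⟩]⟩,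
 ⟨nat_lit 2, [⟨nat_lit 3, [⟨nat_lit 0, nat_lit 4272, nat_lit 528, nat_lit 3552, nat_lit 6672, nat_lit 8928, R11_74, R13_139, R3_186⟩, ⟨nat_lit 1, nat_lit 6000, nat_lit 864, nat_lit 4320, nat_lit 5040, nat_lit 14304, R11_90, R3_105, R10_298⟩, ⟨nat_lit 2, nat_lit 6336, nat_lit 2592, nat_lit 3792, nat_lit 6288, nat_lit 3312, R11_79, R3_131, R0_69⟩]⟩, ⟨nat_lit 7, [⟨nat_lit 0, nat_lit 4224, nat_lit 576, nat_lit 384, nat_lit 6720, nat_lit 12384, R1_8, R13_140, R2_258⟩, ⟨nat_lit 1, nat_lit 5952, nat_lit 912, nat_lit 2544, nat_lit 5088, nat_lit 12960, R1_53, R3_106, R1_270⟩, ⟨nat_lit 3, nat_lit 7488, nat_lit 2112, nat_lit 2352, nat_lit 4992, nat_lit 3312, R1_49, R9_104, R12_69⟩]⟩]⟩,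
 ⟨nat_lit 3, [⟨nat_lit 7, [⟨nat_lit 3, nat_lit 7584, nat_lit 1536, nat_lit 2640, nat_lit 5472, nat_lit 3360, R12_55, R5_114, R12_70⟩]⟩]⟩,
 ⟨nat_lit 6, [⟨nat_lit 3, [⟨nat_lit 2, nat_lit 6960, nat_lit 2304, nat_lit 7680, nat_lit 4368, nat_lit 3120, R1_160, R2_91, R0_65⟩]⟩]⟩]], [[⟨nat_lit 0, [⟨nat_lit 7, [⟨nat_lit 3, nat_lit 9696, nat_lit 13248, nat_lit 2304, nat_lit 8352, nat_lit 4800, R2_48, R4_174, R2_100⟩]⟩]⟩,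
 ⟨nat_lit 2, [⟨nat_lit 3, [⟨nat_lit 3, nat_lit 9984, nat_lit 5328, nat_lit 3984, nat_lit 5760, nat_lit 5712, R11_83, R5_120, R3_119⟩]⟩, ⟨nat_lit 7, [⟨nat_lit 3, nat_lit 9936, nat_lit 13440, nat_lit 1776, nat_lit 5664, nat_lit 4848, R1_37, R5_118, R2_101⟩]⟩]⟩], [⟨nat_lit 2, [⟨nat_lit 3, [⟨nat_lit 3, nat_lit 10176, nat_lit 14640, nat_lit 4032, nat_lit 5856, nat_lit 8064, R11_84, R5_122, R0_168⟩]⟩]⟩], [⟨nat_lit 0, [⟨nat_lit 7, [⟨nat_lit 3, nat_lit 9792, nat_lit 5280, nat_lit 2352, nat_lit 8400, nat_lit 3504, R2_49, R4_175, R1_73⟩, ⟨nat_lit 7, nat_lit 10752, nat_lit 7680, nat_lit 624, nat_lit 8400, nat_lit 4896, R2_13, R7_175, R11_102⟩]⟩]⟩,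
 ⟨nat_lit 2, [⟨nat_lit 3, [⟨nat_lit 3, nat_lit 10128, nat_lit 4704, nat_lit 4080, nat_lit 5808, nat_lit 4128, R11_85, R5_121, R10_86⟩]⟩, ⟨nat_lit 7, [⟨nat_lit 3, nat_lit 10080, nat_lit 5328, nat_lit 1824, nat_lit 5712, nat_lit 3552, R1_38, R5_119, R1_74⟩]⟩]⟩,
 ⟨nat_lit 3, [⟨nat_lit 4, [⟨nat_lit 4, nat_lit 10368, nat_lit 7056, nat_lit 10800, nat_lit 14352, nat_lit 13632, R2_225, R7_299, R4_284⟩, ⟨nat_lit 7, nat_lit 10896, nat_lit 7392, nat_lit 11136, nat_lit 9840, nat_lit 15456, R2_232, R14_205, R5_322⟩]⟩, ⟨nat_lit 6, [⟨nat_lit 4, nat_lit 10416, nat_lit 7248, nat_lit 11184, nat_lit 14496, nat_lit 15408, R1_233, R7_302, R3_321⟩, ⟨nat_lit 7, nat_lit 10944, nat_lit 8256, nat_lit 11712, nat_lit 9888, nat_lit 2544, R1_244, R14_206, R0_53⟩]⟩, ⟨nat_lit 7, [⟨nat_lit 7, nat_lit 10992, nat_lit 7728, nat_lit 2400, nat_lit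 9936, nat_lit 4944, R12_50, R14_207, R11_103⟩]⟩]⟩,
 ⟨nat_lit 7, [⟨nat_lit 2, [⟨nat_lit 6, nat_lit 10560, nat_lit 8400, nat_lit 6768, nat_lit 16464, nat_lit 2976, R1_141, R5_343, R1_62⟩]⟩, ⟨nat_lit 6, [⟨nat_lit 4, nat_lit 10464, nat_lit 7200, nat_lit 9648, nat_lit 13296, nat_lit 15312, R11_201, R4_277, R3_319⟩, ⟨nat_lit 6, nat_lit 10512, nat_lit 8592, nat_lit 9936, nat_lit 16512, nat_lit 3600, R11_207, R5_344, R10_75⟩]⟩]⟩]]]]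
noncomputable def N3750 : T3 (List N0) := [[[[], [], [⟨nat_lit 1, [⟨nat_lit 4, [⟨nat_lit 4, nat_lit 3696, nat_lit 6048, nat_lit 17616, nat_lit 5712, nat_lit 7056, R8_367, R4_119, R6_147⟩, ⟨nat_lit 5, nat_lit 4608, nat_lit 6624, nat_lit 17760, nat_lit 1008, nat_lit 7728, R8_370, R3_21, R4_161⟩]⟩, ⟨nat_lit 6, [⟨nat_lit 4, nat_lit 3936, nat_lit 6144, nat_lit 3600, nat_lit 5760, nat_lit 9072, R5_75, R4_120, R13_189⟩, ⟨nat_lit 5, nat_lit 4848, nat_lit 6672, nat_lit 3744, nat_lit 1056, nat_lit 7152, R5_78, R3_22, R3_149⟩]⟩]⟩], [], [], [], [⟨nat_lit 1, [⟨nat_lit 4, [⟨nat_lit 5, nat_lit 14016, nat_lit 6240, nat_lit 11040, nat_lit 1680, nat_lit 11040, R8_230, R3_35, R7_230⟩]⟩, ⟨nat_lit 5, [⟨nat_lit 5, nat_lit 14352, nat_lit 6336, nat_lit 2976, nat_lit 1920, nat_lit 10032, R9_62, R3_40, R2_209⟩]⟩, ⟨nat_lit 6, [⟨nat_lit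 5, nat_lit 14592, nat_lit 6432, nat_lit 2784, nat_lit 1776, nat_lit 6528, R5_58, R3_37, R2_136⟩]⟩]⟩]], [], [[], [], [], [], [⟨nat_lit 1, [⟨nat_lit 4, [⟨nat_lit 1, nat_lit 13392, nat_lit 384, nat_lit 3792, nat_lit 8976, nat_lit 9504, R8_79, R1_187, R6_198⟩]⟩, ⟨nat_lit 5, [⟨nat_lit 1, nat_lit 13632, nat_lit 5328, nat_lit 11952, nat_lit 9072, nat_lit 12384, R9_249, R1_189, R13_258⟩]⟩]⟩], [], [⟨nat_lit 1, [⟨nat_lit 4, [⟨nat_lit 1, nat_lit 15072, nat_lit 19920, nat_lit 11760, nat_lit 9024, nat_lit 10416, R8_245, R1_188, R4_217⟩, ⟨nat_lit 5, nat_lit 14160, nat_lit 19968, nat_lit 11616, nat_lit 10416, nat_lit 11088, R8_242, R10_217, R7_231⟩]⟩, ⟨nat_lit 5, [⟨nat_lit 1, nat_lit 15216, nat_lit 20592, nat_lit 12624, nat_lit 9120, nat_lit 17040, R9_263, R1_190, R3_355⟩, ⟨nat_lit 5, nat_lit 14448, nat_lit 20640, nat_lit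 12720, nat_lit 10512, nat_lit 10080, R9_265, R10_219, R2_210⟩]⟩, ⟨nat_lit 6, [⟨nat_lit 5, nat_lit 14784, nat_lit 21264, nat_lit 14016, nat_lit 10464, nat_lit 6576, R5_292, R10_218, R2_137⟩]⟩]⟩]], [[], [], [⟨nat_lit 1, [⟨nat_lit 4, [⟨nat_lit 4, nat_lit 3792, nat_lit 9312, nat_lit 18336, nat_lit 8112, nat_lit 7104, R8_382, R5_169, R6_148⟩, ⟨nat_lit 5, nat_lit 4704, nat_lit 10032, nat_lit 18624, nat_lit 8304, nat_lit 7776, R8_388, R0_173, R4_162⟩, ⟨nat_lit 7, nat_lit 6096, nat_lit 9696, nat_lit 18480, nat_lit 13440, nat_lit 7968, R8_385, R11_280, R8_166⟩]⟩, ⟨nat_lit 6, [⟨nat_lit 4, nat_lit 4224, nat_lit 11520, nat_lit 11808, nat_lit 10224, nat_lit 9216, R5_246, R5_213, R13_192⟩, ⟨nat_lit 5, nat_lit 5088, nat_lit 12336, nat_lit 12096, nat_lit 8352, nat_lit 7296, R5_252, R0_174, R3_152⟩, ⟨nat_lit 7, nat_lit 6768,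 nat_lit 11952, nat_lit 11952, nat_lit 13488, nat_lit 7008, R5_249, R11_281, R9_146⟩]⟩]⟩]], [], [], [[], [], [], [], [⟨nat_lit 0, [⟨nat_lit 4, [⟨nat_lit 1, nat_lit 13488, nat_lit 144, nat_lit 16608, nat_lit 8496, nat_lit 9360, R6_346, R5_177, R6_195⟩]⟩, ⟨nat_lit 5, [⟨nat_lit 0, nat_lit 13104, nat_lit 4848, nat_lit 17904, nat_lit 15456, nat_lit 15456, R8_373, R8_322, R6_322⟩, ⟨nat_lit 1, nat_lit 13728, nat_lit 5376, nat_lit 18000, nat_lit 9936, nat_lit 12240, R8_375, R5_207, R13_255⟩]⟩]⟩,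
 ⟨nat_lit 1, [⟨nat_lit 4, [⟨nat_lit 1, nat_lit 13584, nat_lit 192, nat_lit 4272, nat_lit 10944, nat_lit 9456, R8_89, R11_228, R6_197⟩]⟩, ⟨nat_lit 5, [⟨nat_lit 0, nat_lit 13200, nat_lit 4896, nat_lit 17712, nat_lit 1248, nat_lit 15648, R9_369, R5_26, R6_326⟩, ⟨nat_lit 1, nat_lit 13824, nat_lit 5424, nat_lit 17808, nat_lit 12384, nat_lit 12336, R9_371, R11_258, R13_257⟩]⟩]⟩,
 ⟨nat_lit 2, [⟨nat_lit 4, [⟨nat_lit 1, nat_lit 13536, nat_lit 288, nat_lit 2160, nat_lit 48, nat_lit 9408, R4_45, R0_1, R6_196⟩]⟩, ⟨nat_lit 5, [⟨nat_lit 0, nat_lit 13152, nat_lit 5040, nat_lit 3312, nat_lit 1920, nat_lit 15552, R5_69, R9_40, R6_324⟩, ⟨nat_lit 1, nat_lit 13776, nat_lit 5520, nat_lit 3504, nat_lit 240, nat_lit 12288, R5_73, R0_5, R13_256⟩]⟩]⟩], [], [], [⟨nat_lit 0, [⟨nat_lit 4, [⟨nat_lit 0, nat_lit 15984, nat_lit 960, nat_lit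 15024, nat_lit 12336, nat_lit 4608, R6_313, R8_257, R6_96⟩, ⟨nat_lit 1, nat_lit 16848, nat_lit 1536, nat_lit 16944, nat_lit 8544, nat_lit 8688, R6_353, R5_178, R8_181⟩, ⟨nat_lit 3, nat_lit 17712, nat_lit 1248, nat_lit 15648, nat_lit 8160, nat_lit 4896, R6_326, R9_170, R4_102⟩]⟩, ⟨nat_lit 5, [⟨nat_lit 0, nat_lit 16272, nat_lit 9216, nat_lit 18720, nat_lit 16128, nat_lit 17040, R8_390, R8_336, R8_355⟩, ⟨nat_lit 1, nat_lit 17136, nat_lit 9984, nat_lit 18912, nat_lit 9984, nat_lit 9504, R8_394, R5_208, R9_198⟩, ⟨nat_lit 3, nat_lit 17952, nat_lit 9600, nat_lit 18816, nat_lit 8688, nat_lit 11040, R8_392, R9_181, R5_230⟩]⟩]⟩,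
 ⟨nat_lit 1, [⟨nat_lit 4, [⟨nat_lit 0, nat_lit 16080, nat_lit 2208, nat_lit 9024, nat_lit 8256, nat_lit 6912, R8_188, R5_172, R6_144⟩, ⟨nat_lit 1, nat_lit 16944, nat_lit 2400, nat_lit 9120, nat_lit 10992, nat_lit 8784, R8_190, R11_229, R8_183⟩, ⟨nat_lit 3, nat_lit 17760, nat_lit 2304, nat_lit 9072, nat_lit 7392, nat_lit 7536, R8_189, R0_154, R4_157⟩]⟩, ⟨nat_lit 5, [⟨nat_lit 0, nat_lit 16368, nat_lit 11040, nat_lit 17952, nat_lit 9600, nat_lit 17328, R9_374, R5_200, R8_361⟩, ⟨nat_lit 1, nat_lit 17232, nat_lit 11232, nat_lit 18144, nat_lit 12432, nat_lit 9600, R9_378, R11_259, R9_200⟩, ⟨nat_lit 3, nat_lit 18000, nat_lit 11136, nat_lit 18048, nat_lit 7920, nat_lit 11088, R9_376, R0_165, R5_231⟩]⟩]⟩,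
 ⟨nat_lit 2, [⟨nat_lit 4, [⟨nat_lit 0, nat_lit 16032, nat_lit 3312, nat_lit 5040, nat_lit 8064, nat_lit 5760, R4_105, R9_168, R6_120⟩, ⟨nat_lit 1, nat_lit 16896, nat_lit 3888, nat_lit 7680, nat_lit 7296, nat_lit 8736, R4_160, R0_152, R8_182⟩]⟩, ⟨nat_lit 5, [⟨nat_lit 0, nat_lit 16320, nat_lit 11376, nat_lit 11376, nat_lit 8544, nat_lit 17184, R5_237, R9_178, R8_358⟩, ⟨nat_lit 1, nat_lit 17184, nat_lit 12240, nat_lit 11712, nat_lit 7776, nat_lit 9552, R5_244, R0_162, R9_199⟩]⟩]⟩]]], [[[], [], [⟨nat_lit 1, [⟨nat_lit 4, [⟨nat_lit 4, nat_lit 3744, nat_lit 768, nat_lit 1680, nat_lit 6336, nat_lit 7200, R5_35, R4_132, R6_150⟩, ⟨nat_lit 5, nat_lit 4656, nat_lit 6096, nat_lit 4128, nat_lit 6192, nat_lit 7872, R5_86, R3_129, R4_164⟩]⟩, ⟨nat_lit 6, [⟨nat_lit 4, nat_lit 3984, nat_lit 816, nat_lit 3600, nat_lit 6384, nat_lit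 9168, R11_75, R4_133, R13_191⟩, ⟨nat_lit 5, nat_lit 4896, nat_lit 6144, nat_lit 3744, nat_lit 6240, nat_lit 7248, R11_78, R3_130, R3_151⟩]⟩]⟩,
 ⟨nat_lit 5, [⟨nat_lit 6, [⟨nat_lit 4, nat_lit 4032, nat_lit 1392, nat_lit 1872, nat_lit 5904, nat_lit 9120, R1_39, R7_123, R13_190⟩, ⟨nat_lit 5, nat_lit 4944, nat_lit 6576, nat_lit 2304, nat_lit 4320, nat_lit 7200, R1_48, R2_90, R3_150⟩, ⟨nat_lit 7, nat_lit 6528, nat_lit 7872, nat_lit 2016, nat_lit 9312, nat_lit 6960, R1_42, R2_194, R9_145⟩]⟩]⟩], [], [], [], [⟨nat_lit 1, [⟨nat_lit 4, [⟨nat_lit 5, nat_lit 14064, nat_lit 4416, nat_lit 3024, nat_lit 6624, nat_lit 11280, R5_63, R3_138, R7_235⟩]⟩, ⟨nat_lit 5, [⟨nat_lit 5, nat_lit 14400, nat_lit 4512, nat_lit 1440, nat_lit 6864, nat_lit 10176, R0_30, R3_143, R2_212⟩]⟩, ⟨nat_lit 6, [⟨nat_lit 5, nat_lit 14640, nat_lit 4608,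 nat_lit 2784, nat_lit 6720, nat_lit 6768, R11_58, R3_140, R2_141⟩]⟩]⟩,
 ⟨nat_lit 5, [⟨nat_lit 6, [⟨nat_lit 5, nat_lit 14688, nat_lit 13584, nat_lit 2160, nat_lit 13008, nat_lit 6864, R1_45, R2_271, R2_143⟩]⟩]⟩]], [[], [], [⟨nat_lit 5, [⟨nat_lit 6, [⟨nat_lit 4, nat_lit 4080, nat_lit 16368, nat_lit 1920, nat_lit 16320, nat_lit 9456, R1_40, R14_340, R13_197⟩, ⟨nat_lit 5, nat_lit 4992, nat_lit 17952, nat_lit 2352, nat_lit 13392, nat_lit 7488, R1_49, R12_279, R3_156⟩, ⟨nat_lit 6, nat_lit 5232, nat_lit 18336, nat_lit 1968, nat_lit 13344, nat_lit 7440, R1_41, R12_278, R3_155⟩, ⟨nat_lit 7, nat_lit 6576, nat_lit 17280, nat_lit 2064, nat_lit 8544, nat_lit 7344, R1_43, R12_178, R9_153⟩]⟩]⟩], [], [], [], [⟨nat_lit 5, [⟨nat_lit 6, [⟨nat_lit 5, nat_lit 14976, nat_lit 14928, nat_lit 2208, nat_lit 12480, nat_lit 6960, R1_46,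 R12_260, R2_145⟩]⟩]⟩]], [[], [], [], [], [], [], [⟨nat_lit 1, [⟨nat_lit 4, [⟨nat_lit 1, nat_lit 15120, nat_lit 15696, nat_lit 672, nat_lit 9168, nat_lit 10512, R5_14, R1_191, R4_219⟩, ⟨nat_lit 5, nat_lit 14208, nat_lit 15744, nat_lit 3072, nat_lit 10560, nat_lit 11328, R5_64, R10_220, R7_236⟩]⟩, ⟨nat_lit 5, [⟨nat_lit 1, nat_lit 15312, nat_lit 16368, nat_lit 10800, nat_lit 9216, nat_lit 17136, R0_225, R1_192, R3_357⟩, ⟨nat_lit 5, nat_lit 14544, nat_lit 16416, nat_lit 10896, nat_lit 10656, nat_lit 10224, R0_227, R10_222, R2_213⟩]⟩, ⟨nat_lit 6, [⟨nat_lit 5, nat_lit 14832, nat_lit 17040, nat_lit 17088, nat_lit 10608, nat_lit 6816, R11_356, R10_221, R2_142⟩]⟩]⟩,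
 ⟨nat_lit 5, [⟨nat_lit 6, [⟨nat_lit 5, nat_lit 14880, nat_lit 15360, nat_lit 2256, nat_lit 14352, nat_lit 6912, R1_47, R1_299, R2_144⟩]⟩]⟩]], [[], [], [⟨nat_lit 1, [⟨nat_lit 4, [⟨nat_lit 4, nat_lit 3840, nat_lit 960, nat_lit 1728, nat_lit 8640, nat_lit 7248, R5_36, R5_180, R6_151⟩, ⟨nat_lit 5, nat_lit 4752, nat_lit 1056, nat_lit 4176, nat_lit 8400, nat_lit 7920, R5_87, R0_175, R4_165⟩, ⟨nat_lit 7, nat_lit 6144, nat_lit 1152, nat_lit 2496, nat_lit 13536, nat_lit 9264, R5_52, R11_282, R8_193⟩]⟩, ⟨nat_lit 6, [⟨nat_lit 4, nat_lit 4272, nat_lit 1008, nat_lit 14784, nat_lit 10416, nat_lit 9312, R11_308, R5_217, R13_194⟩, ⟨nat_lit 5, nat_lit 5136, nat_lit 1104, nat_lit 15072, nat_lit 8448, nat_lit 7392, R11_314, R0_176, R3_154⟩, ⟨nat_lit 7, nat_lit 6816, nat_lit 1200, nat_lit 14928, nat_lit 13584, nat_lit 7152, R11_311,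 R11_283, R9_149⟩]⟩]⟩,
 ⟨nat_lit 5, [⟨nat_lit 6, [⟨nat_lit 7, nat_lit 6864, nat_lit 1248, nat_lit 2112, nat_lit 10128, nat_lit 7104, R1_44, R1_211, R9_148⟩]⟩]⟩]]], [[], [], [[], [], [], [], [⟨nat_lit 1, [⟨nat_lit 5, [⟨nat_lit 1, nat_lit 13680, nat_lit 3744, nat_lit 1344, nat_lit 9456, nat_lit 12576, R0_28, R1_197, R13_262⟩]⟩]⟩], [], [⟨nat_lit 1, [⟨nat_lit 5, [⟨nat_lit 1, nat_lit 15264, nat_lit 16224, nat_lit 10704, nat_lit 9504, nat_lit 17088, R0_223, R1_198, R3_356⟩, ⟨nat_lit 5, nat_lit 14496, nat_lit 16176, nat_lit 10560, nat_lit 10800, nat_lit 10128, R0_220, R10_225, R2_211⟩]⟩]⟩]], [], [], [], [[], [], [], [], [⟨nat_lit 0, [⟨nat_lit 5, [⟨nat_lit 0, nat_lit 13248, nat_lit 336, nat_lit 9408, nat_lit 15600, nat_lit 15504, R5_196, R8_325, R6_323⟩, ⟨nat_lit 1, nat_lit 13872, nat_lit 3936, nat_lit 11664, nat_lit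 12192, nat_lit 12432, R5_243, R5_254, R13_259⟩]⟩]⟩,
 ⟨nat_lit 1, [⟨nat_lit 5, [⟨nat_lit 0, nat_lit 13344, nat_lit 480, nat_lit 1920, nat_lit 1392, nat_lit 15696, R0_40, R5_29, R6_327⟩, ⟨nat_lit 1, nat_lit 13968, nat_lit 4080, nat_lit 1968, nat_lit 15168, nat_lit 12528, R0_41, R11_316, R13_261⟩]⟩]⟩,
 ⟨nat_lit 2, [⟨nat_lit 5, [⟨nat_lit 0, nat_lit 13296, nat_lit 528, nat_lit 11856, nat_lit 1968, nat_lit 15600, R11_247, R9_41, R6_325⟩, ⟨nat_lit 1, nat_lit 13920, nat_lit 4128, nat_lit 14640, nat_lit 288, nat_lit 12480, R11_305, R0_6, R13_260⟩]⟩]⟩], [⟨nat_lit 2, [⟨nat_lit 1, [⟨nat_lit 0, nat_lit 15504, nat_lit 9600, nat_lit 8544, nat_lit 11232, nat_lit 16992, R1_178, R9_234, R7_354⟩, ⟨nat_lit 1, nat_lit 15792, nat_lit 9792, nat_lit 8640, nat_lit 9744, nat_lit 15216, R1_180, R0_203, R2_317⟩, ⟨nat_lit 2, nat_lit 15888,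 nat_lit 9840, nat_lit 8592, nat_lit 9600, nat_lit 15264, R1_179, R0_200, R2_318⟩]⟩, ⟨nat_lit 5, [⟨nat_lit 0, nat_lit 15408, nat_lit 9552, nat_lit 11952, nat_lit 11424, nat_lit 14784, R11_249, R9_238, R4_308⟩, ⟨nat_lit 1, nat_lit 15696, nat_lit 9744, nat_lit 14736, nat_lit 9936, nat_lit 9360, R11_307, R0_207, R3_195⟩]⟩]⟩], [], [⟨nat_lit 0, [⟨nat_lit 5, [⟨nat_lit 0, nat_lit 16416, nat_lit 7632, nat_lit 9456, nat_lit 16416, nat_lit 17088, R5_197, R8_342, R8_356⟩, ⟨nat_lit 1, nat_lit 17280, nat_lit 7776, nat_lit 11712, nat_lit 12240, nat_lit 9648, R5_244, R5_255, R9_201⟩, ⟨nat_lit 3, nat_lit 18048, nat_lit 7920, nat_lit 11088, nat_lit 10032, nat_lit 11136, R5_231, R9_209, R5_232⟩]⟩]⟩,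
 ⟨nat_lit 1, [⟨nat_lit 5, [⟨nat_lit 0, nat_lit 16512, nat_lit 7680, nat_lit 9024, nat_lit 9840, nat_lit 17376, R0_188, R5_205, R8_362⟩, ⟨nat_lit 1, nat_lit 17376, nat_lit 7824, nat_lit 9120, nat_lit 15216, nat_lit 9744, R0_190, R11_317, R9_203⟩, ⟨nat_lit 3, nat_lit 18096, nat_lit 7968, nat_lit 9072, nat_lit 9168, nat_lit 11184, R0_189, R0_191, R5_233⟩]⟩]⟩,
 ⟨nat_lit 2, [⟨nat_lit 5, [⟨nat_lit 0, nat_lit 16464, nat_lit 7728, nat_lit 11904, nat_lit 8640, nat_lit 17232, R11_248, R9_180, R8_359⟩, ⟨nat_lit 1, nat_lit 17328, nat_lit 7872, nat_lit 14688, nat_lit 7872, nat_lit 9696, R11_306, R0_164, R9_202⟩]⟩]⟩]]], [[[], [], [], [], [], [], [⟨nat_lit 1, [⟨nat_lit 4, [⟨nat_lit 5, nat_lit 14112, nat_lit 8976, nat_lit 3072, nat_lit 8208, nat_lit 11136, R9_64, R3_171, R7_232⟩]⟩, ⟨nat_lit 6, [⟨nat_lit 5, nat_lit 14736, nat_lit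 9552, nat_lit 1536, nat_lit 8352, nat_lit 6624, R0_32, R3_174, R2_138⟩]⟩]⟩]], [], [[], [], [], [], [⟨nat_lit 1, [⟨nat_lit 4, [⟨nat_lit 1, nat_lit 13440, nat_lit 1680, nat_lit 864, nat_lit 9264, nat_lit 9552, R9_18, R1_193, R6_199⟩]⟩]⟩], [], [⟨nat_lit 1, [⟨nat_lit 4, [⟨nat_lit 1, nat_lit 15168, nat_lit 7296, nat_lit 1584, nat_lit 9312, nat_lit 10464, R9_33, R1_194, R4_218⟩, ⟨nat_lit 5, nat_lit 14256, nat_lit 7584, nat_lit 3168, nat_lit 10704, nat_lit 11184, R9_66, R10_223, R7_233⟩]⟩, ⟨nat_lit 6, [⟨nat_lit 5, nat_lit 14928, nat_lit 9408, nat_lit 1632, nat_lit 10752, nat_lit 6672, R0_34, R10_224, R2_139⟩]⟩]⟩], [⟨nat_lit 1, [⟨nat_lit 4, [⟨nat_lit 1, nat_lit 16800, nat_lit 1152, nat_lit 1248, nat_lit 9360, nat_lit 8976, R9_26, R1_195, R8_187⟩]⟩]⟩]], [[], [], [⟨nat_lit 1, [⟨nat_lit 4, [⟨nat_lit 4, nat_lit 3888, nat_lit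 11760, nat_lit 2064, nat_lit 8400, nat_lit 7152, R9_43, R5_175, R6_149⟩, ⟨nat_lit 5, nat_lit 4800, nat_lit 12480, nat_lit 3600, nat_lit 8496, nat_lit 7824, R9_75, R0_177, R4_163⟩, ⟨nat_lit 7, nat_lit 6192, nat_lit 12144, nat_lit 2736, nat_lit 13632, nat_lit 8928, R9_57, R11_284, R8_186⟩]⟩, ⟨nat_lit 6, [⟨nat_lit 4, nat_lit 4320, nat_lit 14496, nat_lit 384, nat_lit 10320, nat_lit 9264, R0_8, R5_215, R13_193⟩, ⟨nat_lit 5, nat_lit 5184, nat_lit 15312, nat_lit 2064, nat_lit 8592, nat_lit 7344, R0_43, R0_179, R3_153⟩, ⟨nat_lit 7, nat_lit 6912, nat_lit 14928, nat_lit 1200, nat_lit 13680, nat_lit 7056, R0_25, R11_285, R9_147⟩]⟩, ⟨nat_lit 7, [⟨nat_lit 7, nat_lit 7392, nat_lit 13200, nat_lit 14688, nat_lit 13728, nat_lit 6864, R0_306, R11_286, R5_143⟩]⟩]⟩], [], [], [], [⟨nat_lit 1, [⟨nat_lit 4, [⟨nat_lit 5, nat_lit 14304,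 nat_lit 9792, nat_lit 3120, nat_lit 8544, nat_lit 11232, R9_65, R0_178, R7_234⟩]⟩, ⟨nat_lit 6, [⟨nat_lit 5, nat_lit 15024, nat_lit 10368, nat_lit 1584, nat_lit 8640, nat_lit 6720, R0_33, R0_180, R2_140⟩]⟩]⟩]], [[], [], [], [⟨nat_lit 0, [⟨nat_lit 4, [⟨nat_lit 3, nat_lit 11712, nat_lit 8256, nat_lit 11184, nat_lit 10080, nat_lit 9456, R13_233, R13_210, R7_197⟩]⟩, ⟨nat_lit 7, [⟨nat_lit 3, nat_lit 12336, nat_lit 8304, nat_lit 12192, nat_lit 10128, nat_lit 10224, R3_254, R13_211, R14_213⟩]⟩]⟩,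
 ⟨nat_lit 1, [⟨nat_lit 4, [⟨nat_lit 3, nat_lit 11808, nat_lit 8976, nat_lit 672, nat_lit 8208, nat_lit 11136, R9_14, R3_171, R7_232⟩]⟩, ⟨nat_lit 7, [⟨nat_lit 3, nat_lit 12432, nat_lit 9024, nat_lit 12816, nat_lit 8256, nat_lit 10320, R0_267, R3_172, R14_215⟩]⟩]⟩,
 ⟨nat_lit 2, [⟨nat_lit 4, [⟨nat_lit 3, nat_lit 11760, nat_lit 10032, nat_lit 1920, nat_lit 7728, nat_lit 10368, R3_40, R9_161, R7_216⟩]⟩, ⟨nat_lit 7, [⟨nat_lit 0, nat_lit 10848, nat_lit 8016, nat_lit 8928, nat_lit 14496, nat_lit 16176, R10_186, R8_302, R7_337⟩, ⟨nat_lit 3, nat_lit 12384, nat_lit 10080, nat_lit 10512, nat_lit 7776, nat_lit 10272, R10_219, R9_162, R14_214⟩]⟩]⟩,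
 ⟨nat_lit 3, [⟨nat_lit 4, [⟨nat_lit 3, nat_lit 11856, nat_lit 9744, nat_lit 12528, nat_lit 12816, nat_lit 10848, R3_261, R3_267, R7_226⟩, ⟨nat_lit 7, nat_lit 10176, nat_lit 7152, nat_lit 13776, nat_lit 7248, nat_lit 10176, R3_287, R2_151, R4_212⟩]⟩, ⟨nat_lit 6, [⟨nat_lit 7, nat_lit 10464, nat_lit 7200, nat_lit 1824, nat_lit 7296, nat_lit 6624, R10_38, R2_152, R5_138⟩]⟩]⟩]], [], [[], [], [], [⟨nat_lit 0, [⟨nat_lit 4, [⟨nat_lit 3, nat_lit 11952, nat_lit 9072, nat_lit 12384, nat_lit 9024, nat_lit 9552, R13_258, R9_188, R7_199⟩]⟩, ⟨nat_lit 7, [⟨nat_lit 3, nat_lit 12624, nat_lit 9120, nat_lit 17040, nat_lit 9360, nat_lit 10368, R3_355, R9_195, R14_216⟩]⟩]⟩,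
 ⟨nat_lit 1, [⟨nat_lit 4, [⟨nat_lit 3, nat_lit 12000, nat_lit 9792, nat_lit 768, nat_lit 8544, nat_lit 11232, R9_16, R0_178, R7_234⟩]⟩, ⟨nat_lit 7, [⟨nat_lit 3, nat_lit 12672, nat_lit 9840, nat_lit 13008, nat_lit 8880, nat_lit 10416, R0_271, R0_185, R14_217⟩]⟩]⟩,
 ⟨nat_lit 2, [⟨nat_lit 7, [⟨nat_lit 0, nat_lit 11088, nat_lit 8544, nat_lit 9600, nat_lit 15552, nat_lit 17040, R10_200, R9_324, R7_355⟩]⟩]⟩,
 ⟨nat_lit 3, [⟨nat_lit 4, [⟨nat_lit 3, nat_lit 12048, nat_lit 10560, nat_lit 12672, nat_lit 11760, nat_lit 10896, R3_264, R0_245, R7_227⟩]⟩]⟩], [], [], [], [⟨nat_lit 0, [⟨nat_lit 4, [⟨nat_lit 0, nat_lit 16128, nat_lit 11616, nat_lit 10800, nat_lit 12480, nat_lit 5136, R13_225, R8_260, R6_107⟩, ⟨nat_lit 1, nat_lit 16992, nat_lit 12000, nat_lit 12720, nat_lit 10368, nat_lit 8832, R13_265, R5_216, R8_184⟩, ⟨nat_lit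 3, nat_lit 17808, nat_lit 12384, nat_lit 12336, nat_lit 8976, nat_lit 5424, R13_257, R9_187, R4_113⟩]⟩, ⟨nat_lit 5, [⟨nat_lit 0, nat_lit 16560, nat_lit 11664, nat_lit 8496, nat_lit 16272, nat_lit 17136, R9_177, R8_339, R8_357⟩, ⟨nat_lit 1, nat_lit 17424, nat_lit 12048, nat_lit 9984, nat_lit 11232, nat_lit 9792, R9_208, R5_234, R9_204⟩, ⟨nat_lit 3, nat_lit 18144, nat_lit 12432, nat_lit 9600, nat_lit 9792, nat_lit 11232, R9_200, R9_204, R5_234⟩]⟩]⟩,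
 ⟨nat_lit 1, [⟨nat_lit 4, [⟨nat_lit 0, nat_lit 16224, nat_lit 11760, nat_lit 192, nat_lit 8400, nat_lit 7152, R9_4, R5_175, R6_149⟩, ⟨nat_lit 1, nat_lit 17088, nat_lit 12144, nat_lit 1296, nat_lit 13632, nat_lit 8928, R9_27, R11_284, R8_186⟩, ⟨nat_lit 3, nat_lit 17856, nat_lit 12480, nat_lit 432, nat_lit 8496, nat_lit 7824, R9_9, R0_177, R4_163⟩]⟩]⟩,
 ⟨nat_lit 2, [⟨nat_lit 4, [⟨nat_lit 0, nat_lit 16176, nat_lit 11856, nat_lit 528, nat_lit 8112, nat_lit 6480, R3_11, R9_169, R6_135⟩, ⟨nat_lit 1, nat_lit 17040, nat_lit 12240, nat_lit 2640, nat_lit 7344, nat_lit 8880, R3_55, R0_153, R8_185⟩]⟩, ⟨nat_lit 5, [⟨nat_lit 0, nat_lit 16608, nat_lit 11904, nat_lit 7728, nat_lit 8592, nat_lit 17280, R0_161, R9_179, R8_360⟩, ⟨nat_lit 1, nat_lit 17472, nat_lit 12288, nat_lit 9120, nat_lit 7824, nat_lit 9840, R0_190, R0_163,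 R9_205⟩]⟩, ⟨nat_lit 7, [⟨nat_lit 0, nat_lit 16704, nat_lit 11952, nat_lit 9552, nat_lit 8304, nat_lit 14784, R10_199, R9_173, R4_308⟩, ⟨nat_lit 1, nat_lit 17616, nat_lit 12336, nat_lit 11904, nat_lit 7536, nat_lit 17376, R10_248, R0_157, R5_362⟩]⟩]⟩,
 ⟨nat_lit 3, [⟨nat_lit 4, [⟨nat_lit 3, nat_lit 17904, nat_lit 12528, nat_lit 4704, nat_lit 11952, nat_lit 7152, R3_98, R0_249, R4_149⟩]⟩, ⟨nat_lit 5, [⟨nat_lit 3, nat_lit 18192, nat_lit 12576, nat_lit 15024, nat_lit 14832, nat_lit 11280, R0_313, R0_309, R5_235⟩]⟩]⟩]], [[⟨nat_lit 0, [⟨nat_lit 4, [⟨nat_lit 7, nat_lit 912, nat_lit 1584, nat_lit 9936, nat_lit 8448, nat_lit 8016, R13_207, R2_176, R6_167⟩]⟩, ⟨nat_lit 6, [⟨nat_lit 7, nat_lit 1344, nat_lit 2544, nat_lit 7776, nat_lit 9216, nat_lit 7296, R3_162, R2_192, R8_152⟩]⟩, ⟨nat_lit 7, [⟨nat_lit 3, nat_lit 3216, nat_lit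 384, nat_lit 14496, nat_lit 14400, nat_lit 8448, R3_302, R3_300, R7_176⟩, ⟨nat_lit 7, nat_lit 1632, nat_lit 2160, nat_lit 12912, nat_lit 9792, nat_lit 8448, R3_269, R2_204, R4_176⟩]⟩]⟩,
 ⟨nat_lit 1, [⟨nat_lit 4, [⟨nat_lit 7, nat_lit 960, nat_lit 1680, nat_lit 2304, nat_lit 9264, nat_lit 8112, R9_48, R1_193, R6_169⟩]⟩, ⟨nat_lit 6, [⟨nat_lit 7, nat_lit 1392, nat_lit 2640, nat_lit 768, nat_lit 10032, nat_lit 7392, R0_16, R1_209, R8_154⟩]⟩, ⟨nat_lit 7, [⟨nat_lit 3, nat_lit 3312, nat_lit 432, nat_lit 11328, nat_lit 11376, nat_lit 8544, R0_236, R10_237, R7_178⟩, ⟨nat_lit 7, nat_lit 1680, nat_lit 2208, nat_lit 11568, nat_lit 10608, nat_lit 8496, R0_241, R1_221, R4_177⟩]⟩]⟩,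
 ⟨nat_lit 2, [⟨nat_lit 7, [⟨nat_lit 3, nat_lit 3264, nat_lit 480, nat_lit 11136, nat_lit 11376, nat_lit 8496, R10_232, R0_237, R7_177⟩]⟩]⟩,
 ⟨nat_lit 3, [⟨nat_lit 4, [⟨nat_lit 7, nat_lit 1008, nat_lit 1632, nat_lit 11808, nat_lit 8064, nat_lit 8064, R3_246, R12_168, R6_168⟩]⟩, ⟨nat_lit 6, [⟨nat_lit 7, nat_lit 1440, nat_lit 2592, nat_lit 1200, nat_lit 8112, nat_lit 7344, R10_25, R12_169, R8_153⟩]⟩]⟩], [], [⟨nat_lit 0, [⟨nat_lit 4, [⟨nat_lit 7, nat_lit 6336, nat_lit 1056, nat_lit 10032, nat_lit 8544, nat_lit 8304, R13_209, R2_178, R8_173⟩]⟩, ⟨nat_lit 6, [⟨nat_lit 7, nat_lit 7200, nat_lit 2016, nat_lit 7872, nat_lit 9312, nat_lit 6624, R3_164, R2_194, R9_138⟩]⟩, ⟨nat_lit 7, [⟨nat_lit 7, nat_lit 7536, nat_lit 1632, nat_lit 13008, nat_lit 9840, nat_lit 6720, R3_271, R2_205, R5_140⟩]⟩]⟩,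
 ⟨nat_lit 1, [⟨nat_lit 4, [⟨nat_lit 7, nat_lit 6384, nat_lit 1152, nat_lit 2784, nat_lit 9360, nat_lit 8976, R9_58, R1_195, R8_187⟩]⟩, ⟨nat_lit 6, [⟨nat_lit 7, nat_lit 7248, nat_lit 2112, nat_lit 1248, nat_lit 10128, nat_lit 6720, R0_26, R1_211, R9_140⟩]⟩, ⟨nat_lit 7, [⟨nat_lit 7, nat_lit 7584, nat_lit 1680, nat_lit 14400, nat_lit 10656, nat_lit 6768, R0_300, R1_222, R5_141⟩]⟩]⟩,
 ⟨nat_lit 3, [⟨nat_lit 4, [⟨nat_lit 7, nat_lit 6432, nat_lit 1104, nat_lit 16944, nat_lit 8160, nat_lit 8640, R3_353, R12_170, R8_180⟩]⟩, ⟨nat_lit 6, [⟨nat_lit 7, nat_lit 7296, nat_lit 2064, nat_lit 2160, nat_lit 8208, nat_lit 6672, R10_45, R12_171, R9_139⟩]⟩]⟩], [⟨nat_lit 0, [⟨nat_lit 4, [⟨nat_lit 3, nat_lit 12192, nat_lit 7488, nat_lit 11904, nat_lit 12000, nat_lit 9504, R13_248, R3_250, R7_198⟩, ⟨nat_lit 7, nat_lit 10320, nat_lit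 7200, nat_lit 9984, nat_lit 8496, nat_lit 9456, R13_208, R2_177, R4_197⟩]⟩, ⟨nat_lit 6, [⟨nat_lit 7, nat_lit 10656, nat_lit 7248, nat_lit 7824, nat_lit 9264, nat_lit 6576, R3_163, R2_193, R5_137⟩]⟩, ⟨nat_lit 7, [⟨nat_lit 3, nat_lit 12960, nat_lit 7536, nat_lit 14928, nat_lit 14688, nat_lit 10464, R3_311, R3_306, R14_218⟩]⟩]⟩,
 ⟨nat_lit 1, [⟨nat_lit 4, [⟨nat_lit 3, nat_lit 12288, nat_lit 7584, nat_lit 720, nat_lit 10704, nat_lit 11184, R9_15, R10_223, R7_233⟩, ⟨nat_lit 7, nat_lit 10368, nat_lit 7296, nat_lit 2448, nat_lit 9312, nat_lit 10464, R9_51, R1_194, R4_218⟩]⟩, ⟨nat_lit 6, [⟨nat_lit 7, nat_lit 10704, nat_lit 7344, nat_lit 912, nat_lit 10080, nat_lit 6816, R0_19, R1_210, R5_142⟩]⟩, ⟨nat_lit 7, [⟨nat_lit 3, nat_lit 13056, nat_lit 7632, nat_lit 12960, nat_lit 11424, nat_lit 10560, R0_270, R10_238, R14_220⟩]⟩]⟩,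
 ⟨nat_lit 2, [⟨nat_lit 4, [⟨nat_lit 3, nat_lit 12240, nat_lit 7680, nat_lit 1968, nat_lit 13056, nat_lit 10416, R3_41, R0_272, R7_217⟩]⟩, ⟨nat_lit 7, [⟨nat_lit 3, nat_lit 13008, nat_lit 7728, nat_lit 11184, nat_lit 13152, nat_lit 10512, R10_233, R0_274, R14_219⟩]⟩]⟩,
 ⟨nat_lit 3, [⟨nat_lit 4, [⟨nat_lit 7, nat_lit 10416, nat_lit 7392, nat_lit 14160, nat_lit 8256, nat_lit 10224, R3_295, R12_172, R4_213⟩]⟩, ⟨nat_lit 6, [⟨nat_lit 7, nat_lit 10752, nat_lit 7440, nat_lit 1872, nat_lit 8304, nat_lit 6672, R10_39, R12_173, R5_139⟩]⟩]⟩]]], [[], [], [], [], [[], [⟨nat_lit 2, [⟨nat_lit 0, [⟨nat_lit 0, nat_lit 7968, nat_lit 17904, nat_lit 4848, nat_lit 15456, nat_lit 15456, R4_101, R8_322, R6_322⟩, ⟨nat_lit 2, nat_lit 8784, nat_lit 18000, nat_lit 5376, nat_lit 9936, nat_lit 12240, R4_112, R5_207, R13_255⟩]⟩, ⟨nat_lit 3,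 [⟨nat_lit 0, nat_lit 8400, nat_lit 18720, nat_lit 9216, nat_lit 16128, nat_lit 16224, R5_192, R8_336, R8_338⟩, ⟨nat_lit 2, nat_lit 9504, nat_lit 18912, nat_lit 9984, nat_lit 9984, nat_lit 9504, R5_208, R5_208, R9_198⟩, ⟨nat_lit 3, nat_lit 9888, nat_lit 18816, nat_lit 9600, nat_lit 8688, nat_lit 11040, R5_200, R9_181, R5_230⟩]⟩]⟩]], [[⟨nat_lit 4, [⟨nat_lit 2, [⟨nat_lit 6, nat_lit 480, nat_lit 11040, nat_lit 6240, nat_lit 1680, nat_lit 11040, R7_130, R3_35, R7_230⟩]⟩, ⟨nat_lit 6, [⟨nat_lit 4, nat_lit 0, nat_lit 17616, nat_lit 6048, nat_lit 5712, nat_lit 7056, R4_126, R4_119, R6_147⟩, ⟨nat_lit 6, nat_lit 240, nat_lit 17760, nat_lit 6624, nat_lit 1008, nat_lit 7728, R4_138, R3_21, R4_161⟩]⟩]⟩,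
 ⟨nat_lit 6, [⟨nat_lit 0, [⟨nat_lit 2, nat_lit 2256, nat_lit 3792, nat_lit 384, nat_lit 8976, nat_lit 9504, R7_8, R1_187, R6_198⟩]⟩, ⟨nat_lit 2, [⟨nat_lit 2, nat_lit 2352, nat_lit 11760, nat_lit 19920, nat_lit 9024, nat_lit 10416, R14_415, R1_188, R4_217⟩, ⟨nat_lit 6, nat_lit 528, nat_lit 11616, nat_lit 19968, nat_lit 10416, nat_lit 11088, R14_416, R10_217, R7_231⟩]⟩]⟩,
 ⟨nat_lit 7, [⟨nat_lit 6, [⟨nat_lit 4, nat_lit 48, nat_lit 18336, nat_lit 9312, nat_lit 8112, nat_lit 7104, R5_194, R5_169, R6_148⟩, ⟨nat_lit 6, nat_lit 288, nat_lit 18624, nat_lit 10032, nat_lit 8304, nat_lit 7776, R5_209, R0_173, R4_162⟩, ⟨nat_lit 7, nat_lit 1152, nat_lit 18480, nat_lit 9696, nat_lit 13440, nat_lit 7968, R5_202, R11_280, R8_166⟩]⟩]⟩], [⟨nat_lit 2, [⟨nat_lit 0, [⟨nat_lit 0, nat_lit 8160, nat_lit 17712, nat_lit 4896, nat_lit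 1248, nat_lit 15648, R4_102, R5_26, R6_326⟩, ⟨nat_lit 2, nat_lit 8976, nat_lit 17808, nat_lit 5424, nat_lit 12384, nat_lit 12336, R4_113, R11_258, R13_257⟩]⟩, ⟨nat_lit 3, [⟨nat_lit 0, nat_lit 8688, nat_lit 17952, nat_lit 11040, nat_lit 9600, nat_lit 18816, R5_230, R5_200, R8_392⟩, ⟨nat_lit 2, nat_lit 9792, nat_lit 18144, nat_lit 11232, nat_lit 12432, nat_lit 9600, R5_234, R11_259, R9_200⟩, ⟨nat_lit 3, nat_lit 10032, nat_lit 18048, nat_lit 11136, nat_lit 7920, nat_lit 11088, R5_232, R0_165, R5_231⟩]⟩]⟩,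
 ⟨nat_lit 4, [⟨nat_lit 2, [⟨nat_lit 6, nat_lit 7728, nat_lit 2976, nat_lit 6336, nat_lit 1920, nat_lit 10032, R7_132, R3_40, R2_209⟩]⟩]⟩,
 ⟨nat_lit 6, [⟨nat_lit 0, [⟨nat_lit 2, nat_lit 9024, nat_lit 11952, nat_lit 5328, nat_lit 9072, nat_lit 12384, R7_111, R1_189, R13_258⟩]⟩, ⟨nat_lit 2, [⟨nat_lit 2, nat_lit 9360, nat_lit 12624, nat_lit 20592, nat_lit 9120, nat_lit 17040, R14_429, R1_190, R3_355⟩, ⟨nat_lit 6, nat_lit 7776, nat_lit 12720, nat_lit 20640, nat_lit 10512, nat_lit 10080, R14_430, R10_219, R2_210⟩]⟩]⟩], [⟨nat_lit 4, [⟨nat_lit 2, [⟨nat_lit 6, nat_lit 5760, nat_lit 2784, nat_lit 6432, nat_lit 1776, nat_lit 6528, R7_134, R3_37, R2_136⟩]⟩, ⟨nat_lit 6, [⟨nat_lit 4, nat_lit 4368, nat_lit 3600, nat_lit 6144, nat_lit 5760, nat_lit 8832, R4_128, R4_120, R13_184⟩, ⟨nat_lit 6, nat_lit 5376, nat_lit 3744, nat_lit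 6672, nat_lit 1056, nat_lit 7152, R4_139, R3_22, R3_149⟩]⟩]⟩,
 ⟨nat_lit 7, [⟨nat_lit 6, [⟨nat_lit 4, nat_lit 4416, nat_lit 11808, nat_lit 11520, nat_lit 10224, nat_lit 8880, R5_240, R5_213, R13_185⟩, ⟨nat_lit 6, nat_lit 5424, nat_lit 12096, nat_lit 12336, nat_lit 8352, nat_lit 7296, R5_257, R0_174, R3_152⟩, ⟨nat_lit 7, nat_lit 7008, nat_lit 11952, nat_lit 11952, nat_lit 13488, nat_lit 6768, R5_249, R11_281, R9_141⟩]⟩]⟩]], [[], [⟨nat_lit 2, [⟨nat_lit 0, [⟨nat_lit 0, nat_lit 8064, nat_lit 3312, nat_lit 5040, nat_lit 16032, nat_lit 15552, R4_105, R9_334, R6_324⟩, ⟨nat_lit 2, nat_lit 8880, nat_lit 3504, nat_lit 5520, nat_lit 240, nat_lit 12288, R4_115, R0_5, R13_256⟩]⟩, ⟨nat_lit 3, [⟨nat_lit 0, nat_lit 8544, nat_lit 11376, nat_lit 11376, nat_lit 16320, nat_lit 17184, R5_237, R9_340, R8_358⟩, ⟨nat_lit 2, nat_lit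 9648, nat_lit 11712, nat_lit 12240, nat_lit 7776, nat_lit 9552, R5_255, R0_162, R9_199⟩]⟩]⟩]]], [[], [[], [], [⟨nat_lit 4, [⟨nat_lit 2, [⟨nat_lit 6, nat_lit 5616, nat_lit 2160, nat_lit 13584, nat_lit 13008, nat_lit 6864, R2_283, R2_271, R2_143⟩]⟩, ⟨nat_lit 6, [⟨nat_lit 4, nat_lit 4128, nat_lit 1872, nat_lit 1392, nat_lit 5904, nat_lit 9360, R3_29, R7_123, R13_195⟩, ⟨nat_lit 6, nat_lit 5280, nat_lit 2304, nat_lit 6576, nat_lit 4320, nat_lit 7200, R3_137, R2_90, R3_150⟩, ⟨nat_lit 7, nat_lit 6624, nat_lit 2016, nat_lit 7872, nat_lit 9312, nat_lit 7200, R3_164, R2_194, R9_150⟩]⟩]⟩,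
 ⟨nat_lit 5, [⟨nat_lit 2, [⟨nat_lit 6, nat_lit 5712, nat_lit 2208, nat_lit 14928, nat_lit 12480, nat_lit 6960, R1_311, R12_260, R2_145⟩]⟩, ⟨nat_lit 6, [⟨nat_lit 4, nat_lit 4176, nat_lit 1920, nat_lit 16368, nat_lit 16272, nat_lit 9408, R10_341, R14_339, R13_196⟩, ⟨nat_lit 5, nat_lit 5040, nat_lit 1968, nat_lit 18336, nat_lit 13344, nat_lit 7440, R10_382, R12_278, R3_155⟩, ⟨nat_lit 6, nat_lit 5328, nat_lit 2352, nat_lit 17952, nat_lit 13392, nat_lit 7488, R10_374, R12_279, R3_156⟩, ⟨nat_lit 7, nat_lit 6672, nat_lit 2064, nat_lit 17280, nat_lit 8208, nat_lit 7296, R10_360, R12_171, R9_152⟩]⟩]⟩,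
 ⟨nat_lit 6, [⟨nat_lit 2, [⟨nat_lit 6, nat_lit 5664, nat_lit 2256, nat_lit 15360, nat_lit 14352, nat_lit 6912, R12_320, R1_299, R2_144⟩]⟩]⟩,
 ⟨nat_lit 7, [⟨nat_lit 6, [⟨nat_lit 7, nat_lit 6720, nat_lit 2112, nat_lit 1248, nat_lit 10128, nat_lit 7248, R0_26, R1_211, R9_151⟩]⟩]⟩]], [], [], [], [[⟨nat_lit 4, [⟨nat_lit 2, [⟨nat_lit 6, nat_lit 576, nat_lit 3024, nat_lit 4416, nat_lit 6624, nat_lit 11280, R2_92, R3_138, R7_235⟩]⟩, ⟨nat_lit 6, [⟨nat_lit 4, nat_lit 96, nat_lit 1680, nat_lit 768, nat_lit 6336, nat_lit 7200, R3_16, R4_132, R6_150⟩, ⟨nat_lit 6, nat_lit 336, nat_lit 4128, nat_lit 6096, nat_lit 6192, nat_lit 7872, R3_127, R3_129, R4_164⟩]⟩]⟩,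
 ⟨nat_lit 6, [⟨nat_lit 2, [⟨nat_lit 2, nat_lit 2400, nat_lit 672, nat_lit 15696, nat_lit 9168, nat_lit 10512, R12_327, R1_191, R4_219⟩, ⟨nat_lit 6, nat_lit 624, nat_lit 3072, nat_lit 15744, nat_lit 10560, nat_lit 11328, R12_328, R10_220, R7_236⟩]⟩]⟩,
 ⟨nat_lit 7, [⟨nat_lit 6, [⟨nat_lit 4, nat_lit 144, nat_lit 1728, nat_lit 960, nat_lit 8640, nat_lit 7248, R0_20, R5_180, R6_151⟩, ⟨nat_lit 6, nat_lit 384, nat_lit 4176, nat_lit 1056, nat_lit 8400, nat_lit 7920, R0_22, R0_175, R4_165⟩, ⟨nat_lit 7, nat_lit 1200, nat_lit 2496, nat_lit 1152, nat_lit 13536, nat_lit 9264, R0_24, R11_282, R8_193⟩]⟩]⟩], [⟨nat_lit 4, [⟨nat_lit 2, [⟨nat_lit 6, nat_lit 7872, nat_lit 1440, nat_lit 4512, nat_lit 6864, nat_lit 10176, R2_94, R3_143, R2_212⟩]⟩]⟩,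
 ⟨nat_lit 6, [⟨nat_lit 2, [⟨nat_lit 2, nat_lit 9456, nat_lit 10800, nat_lit 16368, nat_lit 9216, nat_lit 17136, R12_341, R1_192, R3_357⟩, ⟨nat_lit 6, nat_lit 7920, nat_lit 10896, nat_lit 16416, nat_lit 10656, nat_lit 10224, R12_342, R10_222, R2_213⟩]⟩]⟩], [⟨nat_lit 4, [⟨nat_lit 2, [⟨nat_lit 6, nat_lit 5856, nat_lit 2784, nat_lit 4608, nat_lit 6720, nat_lit 6768, R2_96, R3_140, R2_141⟩]⟩, ⟨nat_lit 6, [⟨nat_lit 4, nat_lit 4464, nat_lit 3600, nat_lit 816, nat_lit 6384, nat_lit 8976, R3_17, R4_133, R13_187⟩, ⟨nat_lit 6, nat_lit 5472, nat_lit 3744, nat_lit 6144, nat_lit 6240, nat_lit 7248, R3_128, R3_130, R3_151⟩]⟩]⟩,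
 ⟨nat_lit 6, [⟨nat_lit 2, [⟨nat_lit 6, nat_lit 5904, nat_lit 17088, nat_lit 17040, nat_lit 10608, nat_lit 6816, R12_355, R10_221, R2_142⟩]⟩]⟩,
 ⟨nat_lit 7, [⟨nat_lit 6, [⟨nat_lit 4, nat_lit 4512, nat_lit 14784, nat_lit 1008, nat_lit 10416, nat_lit 9024, R0_21, R5_217, R13_188⟩, ⟨nat_lit 6, nat_lit 5520, nat_lit 15072, nat_lit 1104, nat_lit 8448, nat_lit 7392, R0_23, R0_176, R3_154⟩, ⟨nat_lit 7, nat_lit 7056, nat_lit 14928, nat_lit 1200, nat_lit 13584, nat_lit 6912, R0_25, R11_283, R9_144⟩]⟩]⟩]]], [[], [], [], [], [[], [⟨nat_lit 2, [⟨nat_lit 0, [⟨nat_lit 0, nat_lit 8016, nat_lit 9408, nat_lit 336, nat_lit 15600, nat_lit 15504, R3_7, R8_325, R6_323⟩, ⟨nat_lit 2, nat_lit 8832, nat_lit 11664, nat_lit 3936, nat_lit 12192, nat_lit 12432, R3_82, R5_254, R13_259⟩]⟩, ⟨nat_lit 1, [⟨nat_lit 0, nat_lit 8256, nat_lit 9504,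 nat_lit 9456, nat_lit 16656, nat_lit 14736, R10_197, R8_347, R4_307⟩, ⟨nat_lit 2, nat_lit 9168, nat_lit 11760, nat_lit 9648, nat_lit 12288, nat_lit 9312, R10_201, R5_256, R3_194⟩]⟩, ⟨nat_lit 3, [⟨nat_lit 0, nat_lit 8448, nat_lit 9456, nat_lit 7632, nat_lit 16416, nat_lit 16320, R0_159, R8_342, R8_340⟩, ⟨nat_lit 2, nat_lit 9552, nat_lit 11712, nat_lit 7776, nat_lit 12240, nat_lit 9648, R0_162, R5_255, R9_201⟩, ⟨nat_lit 3, nat_lit 9936, nat_lit 11088, nat_lit 7920, nat_lit 10032, nat_lit 11136, R0_165, R9_209, R5_232⟩]⟩]⟩]], [[], [⟨nat_lit 2, [⟨nat_lit 0, [⟨nat_lit 0, nat_lit 8208, nat_lit 1920, nat_lit 480, nat_lit 1392, nat_lit 15696, R3_10, R5_29, R6_327⟩, ⟨nat_lit 2, nat_lit 9072, nat_lit 1968, nat_lit 4080, nat_lit 15168, nat_lit 12528, R3_85, R11_316, R13_261⟩]⟩, ⟨nat_lit 1, [⟨nat_lit 0, nat_lit 8352, nat_lit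 6960, nat_lit 9504, nat_lit 13296, nat_lit 14832, R10_198, R5_277, R4_309⟩, ⟨nat_lit 2, nat_lit 9264, nat_lit 7008, nat_lit 9696, nat_lit 15264, nat_lit 9408, R10_202, R11_318, R3_196⟩]⟩]⟩,
 ⟨nat_lit 6, [⟨nat_lit 0, [⟨nat_lit 2, nat_lit 9120, nat_lit 1344, nat_lit 3744, nat_lit 9456, nat_lit 12576, R2_78, R1_197, R13_262⟩]⟩, ⟨nat_lit 1, [⟨nat_lit 2, nat_lit 9312, nat_lit 6480, nat_lit 3216, nat_lit 9552, nat_lit 9456, R1_67, R1_199, R3_197⟩]⟩, ⟨nat_lit 2, [⟨nat_lit 2, nat_lit 9408, nat_lit 10704, nat_lit 16224, nat_lit 9504, nat_lit 17088, R12_338, R1_198, R3_356⟩, ⟨nat_lit 6, nat_lit 7824, nat_lit 10560, nat_lit 16176, nat_lit 10800, nat_lit 10128, R12_337, R10_225, R2_211⟩]⟩]⟩]], [[], [⟨nat_lit 2, [⟨nat_lit 0, [⟨nat_lit 0, nat_lit 8112, nat_lit 11856, nat_lit 528, nat_lit 16176, nat_lit 15600, R3_11, R9_337,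 R6_325⟩, ⟨nat_lit 2, nat_lit 8928, nat_lit 14640, nat_lit 4128, nat_lit 288, nat_lit 12480, R3_86, R0_6, R13_260⟩]⟩, ⟨nat_lit 1, [⟨nat_lit 0, nat_lit 8304, nat_lit 11952, nat_lit 9552, nat_lit 16704, nat_lit 14784, R10_199, R9_348, R4_308⟩, ⟨nat_lit 2, nat_lit 9216, nat_lit 14736, nat_lit 9744, nat_lit 9936, nat_lit 9360, R10_203, R0_207, R3_195⟩]⟩, ⟨nat_lit 3, [⟨nat_lit 0, nat_lit 8592, nat_lit 11904, nat_lit 7728, nat_lit 16608, nat_lit 17280, R0_161, R9_346, R8_360⟩, ⟨nat_lit 2, nat_lit 9696, nat_lit 14688, nat_lit 7872, nat_lit 7872, nat_lit 9696, R0_164, R0_164, R9_202⟩]⟩]⟩], [], [], [], [⟨nat_lit 2, [⟨nat_lit 1, [⟨nat_lit 0, nat_lit 15552, nat_lit 8544, nat_lit 9600, nat_lit 11088, nat_lit 17040, R10_200, R9_231, R7_355⟩, ⟨nat_lit 1, nat_lit 15840, nat_lit 8592, nat_lit 9840, nat_lit 9600, nat_lit 15264,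 R10_205, R0_200, R2_318⟩, ⟨nat_lit 2, nat_lit 15936, nat_lit 8640, nat_lit 9792, nat_lit 9744, nat_lit 15216, R10_204, R0_203, R2_317⟩]⟩]⟩]]], [[], [], [], [], [[⟨nat_lit 0, [⟨nat_lit 7, [⟨nat_lit 3, nat_lit 2832, nat_lit 11184, nat_lit 8256, nat_lit 11472, nat_lit 9456, R2_172, R13_239, R7_197⟩]⟩]⟩,
 ⟨nat_lit 2, [⟨nat_lit 3, [⟨nat_lit 0, nat_lit 1872, nat_lit 10800, nat_lit 11616, nat_lit 12480, nat_lit 5136, R11_242, R8_260, R6_107⟩, ⟨nat_lit 2, nat_lit 2544, nat_lit 12720, nat_lit 12000, nat_lit 10368, nat_lit 8832, R11_250, R5_216, R8_184⟩, ⟨nat_lit 3, nat_lit 3504, nat_lit 12336, nat_lit 12384, nat_lit 8976, nat_lit 5424, R11_258, R9_187, R4_113⟩]⟩, ⟨nat_lit 7, [⟨nat_lit 3, nat_lit 2880, nat_lit 12384, nat_lit 9072, nat_lit 9024, nat_lit 9552, R1_189, R9_188, R7_199⟩]⟩]⟩,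
 ⟨nat_lit 3, [⟨nat_lit 4, [⟨nat_lit 7, nat_lit 816, nat_lit 9936, nat_lit 1584, nat_lit 8448, nat_lit 8832, R2_33, R2_176, R6_184⟩]⟩, ⟨nat_lit 6, [⟨nat_lit 7, nat_lit 1104, nat_lit 10032, nat_lit 1056, nat_lit 8544, nat_lit 8304, R1_22, R2_178, R8_173⟩]⟩, ⟨nat_lit 7, [⟨nat_lit 3, nat_lit 2928, nat_lit 11904, nat_lit 7488, nat_lit 12000, nat_lit 9504, R12_156, R3_250, R7_198⟩, ⟨nat_lit 7, nat_lit 1536, nat_lit 9984, nat_lit 7200, nat_lit 8496, nat_lit 9456, R12_150, R2_177, R4_197⟩]⟩]⟩], [⟨nat_lit 2, [⟨nat_lit 3, [⟨nat_lit 0, nat_lit 8496, nat_lit 8496, nat_lit 11664, nat_lit 16272, nat_lit 16272, R11_243, R8_339, R8_339⟩, ⟨nat_lit 2, nat_lit 9600, nat_lit 9984, nat_lit 12048, nat_lit 11232, nat_lit 9792, R11_251, R5_234, R9_204⟩, ⟨nat_lit 3, nat_lit 9984, nat_lit 9600, nat_lit 12432, nat_lit 9792, nat_lit 11232,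 R11_259, R9_204, R5_234⟩]⟩]⟩], [⟨nat_lit 3, [⟨nat_lit 4, [⟨nat_lit 7, nat_lit 6240, nat_lit 7776, nat_lit 2544, nat_lit 9216, nat_lit 7296, R2_53, R2_192, R8_152⟩]⟩, ⟨nat_lit 6, [⟨nat_lit 7, nat_lit 6960, nat_lit 7872, nat_lit 2016, nat_lit 9312, nat_lit 6528, R1_42, R2_194, R9_136⟩]⟩, ⟨nat_lit 7, [⟨nat_lit 7, nat_lit 7440, nat_lit 7824, nat_lit 7248, nat_lit 9264, nat_lit 6576, R12_151, R2_193, R5_137⟩]⟩]⟩], [⟨nat_lit 0, [⟨nat_lit 7, [⟨nat_lit 3, nat_lit 12480, nat_lit 12192, nat_lit 8304, nat_lit 12096, nat_lit 10608, R2_173, R13_252, R14_221⟩]⟩]⟩,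
 ⟨nat_lit 2, [⟨nat_lit 3, [⟨nat_lit 0, nat_lit 11376, nat_lit 16560, nat_lit 11712, nat_lit 14256, nat_lit 14448, R11_244, R8_297, R4_301⟩, ⟨nat_lit 2, nat_lit 11520, nat_lit 17856, nat_lit 12096, nat_lit 10848, nat_lit 17328, R11_252, R5_226, R5_361⟩]⟩, ⟨nat_lit 7, [⟨nat_lit 0, nat_lit 10992, nat_lit 16224, nat_lit 8016, nat_lit 14448, nat_lit 16128, R1_167, R8_301, R7_336⟩, ⟨nat_lit 3, nat_lit 12528, nat_lit 17040, nat_lit 9120, nat_lit 9360, nat_lit 10656, R1_190, R9_195, R14_222⟩]⟩]⟩,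
 ⟨nat_lit 3, [⟨nat_lit 4, [⟨nat_lit 3, nat_lit 11904, nat_lit 14496, nat_lit 384, nat_lit 14400, nat_lit 8448, R2_8, R3_300, R7_176⟩, ⟨nat_lit 7, nat_lit 10224, nat_lit 12912, nat_lit 2160, nat_lit 9792, nat_lit 8448, R2_45, R2_204, R4_176⟩]⟩, ⟨nat_lit 6, [⟨nat_lit 7, nat_lit 10512, nat_lit 13008, nat_lit 1632, nat_lit 9840, nat_lit 6720, R1_34, R2_205, R5_140⟩]⟩, ⟨nat_lit 7, [⟨nat_lit 3, nat_lit 12576, nat_lit 14928, nat_lit 7536, nat_lit 14688, nat_lit 10704, R12_157, R3_306, R14_223⟩]⟩]⟩]], [[⟨nat_lit 0, [⟨nat_lit 7, [⟨nat_lit 3, nat_lit 3072, nat_lit 672, nat_lit 8976, nat_lit 8208, nat_lit 11136, R2_187, R3_171, R7_232⟩]⟩]⟩,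
 ⟨nat_lit 2, [⟨nat_lit 3, [⟨nat_lit 0, nat_lit 2064, nat_lit 192, nat_lit 11760, nat_lit 8400, nat_lit 7152, R11_245, R5_175, R6_149⟩, ⟨nat_lit 2, nat_lit 2736, nat_lit 1296, nat_lit 12144, nat_lit 13632, nat_lit 8928, R11_253, R11_284, R8_186⟩, ⟨nat_lit 3, nat_lit 3600, nat_lit 432, nat_lit 12480, nat_lit 8496, nat_lit 7824, R11_260, R0_177, R4_163⟩]⟩, ⟨nat_lit 7, [⟨nat_lit 3, nat_lit 3120, nat_lit 768, nat_lit 9792, nat_lit 8544, nat_lit 11232, R1_204, R0_178, R7_234⟩]⟩]⟩,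
 ⟨nat_lit 3, [⟨nat_lit 4, [⟨nat_lit 7, nat_lit 864, nat_lit 2304, nat_lit 1680, nat_lit 9264, nat_lit 9552, R2_35, R1_193, R6_199⟩]⟩, ⟨nat_lit 6, [⟨nat_lit 7, nat_lit 1248, nat_lit 2784, nat_lit 1152, nat_lit 9360, nat_lit 8976, R1_24, R1_195, R8_187⟩]⟩, ⟨nat_lit 7, [⟨nat_lit 3, nat_lit 3168, nat_lit 720, nat_lit 7584, nat_lit 10704, nat_lit 11184, R12_158, R10_223, R7_233⟩, ⟨nat_lit 7, nat_lit 1584, nat_lit 2448, nat_lit 7296, nat_lit 9312, nat_lit 10464, R12_152, R1_194, R4_218⟩]⟩]⟩,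
 ⟨nat_lit 4, [⟨nat_lit 2, [⟨nat_lit 6, nat_lit 672, nat_lit 3072, nat_lit 8976, nat_lit 8208, nat_lit 11136, R2_187, R3_171, R7_232⟩]⟩]⟩,
 ⟨nat_lit 6, [⟨nat_lit 0, [⟨nat_lit 2, nat_lit 2304, nat_lit 864, nat_lit 1680, nat_lit 9264, nat_lit 9552, R2_35, R1_193, R6_199⟩]⟩, ⟨nat_lit 2, [⟨nat_lit 2, nat_lit 2448, nat_lit 1584, nat_lit 7296, nat_lit 9312, nat_lit 10464, R12_152, R1_194, R4_218⟩, ⟨nat_lit 6, nat_lit 720, nat_lit 3168, nat_lit 7584, nat_lit 10704, nat_lit 11184, R12_158, R10_223, R7_233⟩]⟩, ⟨nat_lit 3, [⟨nat_lit 2, nat_lit 2784, nat_lit 1248, nat_lit 1152, nat_lit 9360, nat_lit 8976, R1_24, R1_195, R8_187⟩]⟩]⟩,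
 ⟨nat_lit 7, [⟨nat_lit 2, [⟨nat_lit 6, nat_lit 768, nat_lit 3120, nat_lit 9792, nat_lit 8544, nat_lit 11232, R1_204, R0_178, R7_234⟩]⟩, ⟨nat_lit 6, [⟨nat_lit 4, nat_lit 192, nat_lit 2064, nat_lit 11760, nat_lit 8400, nat_lit 7152, R11_245, R5_175, R6_149⟩, ⟨nat_lit 6, nat_lit 432, nat_lit 3600, nat_lit 12480, nat_lit 8496, nat_lit 7824, R11_260, R0_177, R4_163⟩, ⟨nat_lit 7, nat_lit 1296, nat_lit 2736, nat_lit 12144, nat_lit 13632, nat_lit 8928, R11_253, R11_284, R8_186⟩]⟩]⟩], [], [⟨nat_lit 3, [⟨nat_lit 4, [⟨nat_lit 7, nat_lit 6288, nat_lit 768, nat_lit 2640, nat_lit 10032, nat_lit 7392, R2_55, R1_209, R8_154⟩]⟩, ⟨nat_lit 6, [⟨nat_lit 7, nat_lit 7104, nat_lit 1248, nat_lit 2112, nat_lit 10128, nat_lit 6864, R1_44, R1_211, R9_143⟩]⟩, ⟨nat_lit 7, [⟨nat_lit 7, nat_lit 7488, nat_lit 912, nat_lit 7344, nat_lit 10080,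 nat_lit 6816, R12_153, R1_210, R5_142⟩]⟩]⟩,
 ⟨nat_lit 4, [⟨nat_lit 2, [⟨nat_lit 6, nat_lit 5952, nat_lit 1536, nat_lit 9552, nat_lit 8352, nat_lit 6624, R2_199, R3_174, R2_138⟩]⟩]⟩,
 ⟨nat_lit 6, [⟨nat_lit 2, [⟨nat_lit 6, nat_lit 6000, nat_lit 1632, nat_lit 9408, nat_lit 10752, nat_lit 6672, R12_196, R10_224, R2_139⟩]⟩]⟩,
 ⟨nat_lit 7, [⟨nat_lit 2, [⟨nat_lit 6, nat_lit 6048, nat_lit 1584, nat_lit 10368, nat_lit 8640, nat_lit 6720, R1_216, R0_180, R2_140⟩]⟩, ⟨nat_lit 6, [⟨nat_lit 4, nat_lit 4560, nat_lit 384, nat_lit 14496, nat_lit 10320, nat_lit 8928, R11_302, R5_215, R13_186⟩, ⟨nat_lit 6, nat_lit 5568, nat_lit 2064, nat_lit 15312, nat_lit 8592, nat_lit 7344, R11_319, R0_179, R3_153⟩, ⟨nat_lit 7, nat_lit 7152, nat_lit 1200, nat_lit 14928, nat_lit 13680, nat_lit 6816, R11_311, R11_285, R9_142⟩]⟩]⟩], [⟨nat_lit 0,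 [⟨nat_lit 7, [⟨nat_lit 0, nat_lit 11280, nat_lit 12240, nat_lit 7776, nat_lit 12672, nat_lit 17472, R2_162, R4_264, R7_364⟩, ⟨nat_lit 3, nat_lit 12816, nat_lit 12816, nat_lit 9024, nat_lit 8256, nat_lit 10848, R2_188, R3_172, R14_226⟩]⟩]⟩,
 ⟨nat_lit 2, [⟨nat_lit 3, [⟨nat_lit 0, nat_lit 11472, nat_lit 2352, nat_lit 11808, nat_lit 8976, nat_lit 15360, R11_246, R5_187, R4_320⟩, ⟨nat_lit 2, nat_lit 11616, nat_lit 4032, nat_lit 12192, nat_lit 14112, nat_lit 17424, R11_254, R11_294, R5_363⟩]⟩, ⟨nat_lit 7, [⟨nat_lit 0, nat_lit 11328, nat_lit 12288, nat_lit 8304, nat_lit 16368, nat_lit 17808, R1_173, R5_341, R7_371⟩, ⟨nat_lit 3, nat_lit 12864, nat_lit 13008, nat_lit 9840, nat_lit 8880, nat_lit 10896, R1_205, R0_185, R14_227⟩]⟩]⟩,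
 ⟨nat_lit 3, [⟨nat_lit 4, [⟨nat_lit 3, nat_lit 12144, nat_lit 11328, nat_lit 432, nat_lit 11376, nat_lit 8544, R2_9, R10_237, R7_178⟩, ⟨nat_lit 7, nat_lit 10272, nat_lit 11568, nat_lit 2208, nat_lit 10608, nat_lit 8496, R2_46, R1_221, R4_177⟩]⟩, ⟨nat_lit 6, [⟨nat_lit 7, nat_lit 10560, nat_lit 14400, nat_lit 1680, nat_lit 10656, nat_lit 6768, R1_35, R1_222, R5_141⟩]⟩, ⟨nat_lit 7, [⟨nat_lit 3, nat_lit 12912, nat_lit 12960, nat_lit 7632, nat_lit 11424, nat_lit 10944, R12_159, R10_238, R14_228⟩]⟩]⟩,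
 ⟨nat_lit 6, [⟨nat_lit 3, [⟨nat_lit 2, nat_lit 11664, nat_lit 4224, nat_lit 6576, nat_lit 9408, nat_lit 17280, R1_137, R1_196, R5_360⟩]⟩]⟩,
 ⟨nat_lit 7, [⟨nat_lit 6, [⟨nat_lit 7, nat_lit 10608, nat_lit 14688, nat_lit 13200, nat_lit 13728, nat_lit 6864, R11_275, R11_286, R5_143⟩]⟩]⟩]], [[⟨nat_lit 0, [⟨nat_lit 7, [⟨nat_lit 3, nat_lit 2976, nat_lit 1920, nat_lit 10032, nat_lit 7728, nat_lit 10368, R2_209, R9_161, R7_216⟩]⟩]⟩,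
 ⟨nat_lit 2, [⟨nat_lit 3, [⟨nat_lit 0, nat_lit 1968, nat_lit 528, nat_lit 11856, nat_lit 13296, nat_lit 6480, R11_247, R9_277, R6_135⟩, ⟨nat_lit 2, nat_lit 2640, nat_lit 2640, nat_lit 12240, nat_lit 7344, nat_lit 8880, R11_255, R0_153, R8_185⟩]⟩]⟩,
 ⟨nat_lit 3, [⟨nat_lit 7, [⟨nat_lit 3, nat_lit 3024, nat_lit 1968, nat_lit 7680, nat_lit 13056, nat_lit 10416, R12_160, R0_272, R7_217⟩]⟩]⟩], [⟨nat_lit 2, [⟨nat_lit 3, [⟨nat_lit 0, nat_lit 8640, nat_lit 7728, nat_lit 11904, nat_lit 16464, nat_lit 17232, R11_248, R9_343, R8_359⟩, ⟨nat_lit 2, nat_lit 9744, nat_lit 9120, nat_lit 12288, nat_lit 7824, nat_lit 9840, R11_256, R0_163, R9_205⟩]⟩]⟩], [], [⟨nat_lit 0, [⟨nat_lit 7, [⟨nat_lit 0, nat_lit 11184, nat_lit 8928, nat_lit 8016, nat_lit 14496, nat_lit 16848, R2_167, R8_302, R7_351⟩, ⟨nat_lit 3, nat_lit 12720, nat_lit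 10512, nat_lit 10080, nat_lit 7776, nat_lit 10752, R2_210, R9_162, R14_224⟩]⟩]⟩,
 ⟨nat_lit 2, [⟨nat_lit 3, [⟨nat_lit 0, nat_lit 11424, nat_lit 9552, nat_lit 11952, nat_lit 15408, nat_lit 14784, R11_249, R9_321, R4_308⟩, ⟨nat_lit 2, nat_lit 11568, nat_lit 11904, nat_lit 12336, nat_lit 7536, nat_lit 17376, R11_257, R0_157, R5_362⟩]⟩, ⟨nat_lit 7, [⟨nat_lit 0, nat_lit 11232, nat_lit 9600, nat_lit 8544, nat_lit 15504, nat_lit 16992, R1_178, R9_323, R7_354⟩]⟩]⟩,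
 ⟨nat_lit 3, [⟨nat_lit 4, [⟨nat_lit 3, nat_lit 12096, nat_lit 11136, nat_lit 480, nat_lit 11376, nat_lit 8496, R2_10, R0_237, R7_177⟩]⟩, ⟨nat_lit 7, [⟨nat_lit 3, nat_lit 12768, nat_lit 11184, nat_lit 7728, nat_lit 13152, nat_lit 10800, R12_161, R0_274, R14_225⟩]⟩]⟩]], [[⟨nat_lit 0, [⟨nat_lit 7, [⟨nat_lit 3, nat_lit 3360, nat_lit 12528, nat_lit 9744, nat_lit 12816, nat_lit 10848, R2_203, R3_267, R7_226⟩, ⟨nat_lit 7, nat_lit 1728, nat_lit 13776, nat_lit 7152, nat_lit 7248, nat_lit 10176, R2_149, R2_151, R4_212⟩]⟩]⟩,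
 ⟨nat_lit 2, [⟨nat_lit 3, [⟨nat_lit 3, nat_lit 3648, nat_lit 4704, nat_lit 12528, nat_lit 11952, nat_lit 7152, R11_261, R0_249, R4_149⟩]⟩, ⟨nat_lit 7, [⟨nat_lit 3, nat_lit 3408, nat_lit 12672, nat_lit 10560, nat_lit 11760, nat_lit 10896, R1_220, R0_245, R7_227⟩]⟩]⟩,
 ⟨nat_lit 3, [⟨nat_lit 4, [⟨nat_lit 7, nat_lit 1056, nat_lit 11808, nat_lit 1632, nat_lit 8352, nat_lit 9312, R2_34, R12_174, R6_194⟩]⟩, ⟨nat_lit 6, [⟨nat_lit 7, nat_lit 1488, nat_lit 16944, nat_lit 1104, nat_lit 8400, nat_lit 8640, R1_23, R12_175, R8_180⟩]⟩, ⟨nat_lit 7, [⟨nat_lit 7, nat_lit 1776, nat_lit 14160, nat_lit 7392, nat_lit 8448, nat_lit 10224, R12_154, R12_176, R4_213⟩]⟩]⟩], [⟨nat_lit 2, [⟨nat_lit 3, [⟨nat_lit 3, nat_lit 10128, nat_lit 15024, nat_lit 12576, nat_lit 14832, nat_lit 11280, R11_262, R0_309, R5_235⟩]⟩]⟩], [⟨nat_lit 0, [⟨nat_lit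 7, [⟨nat_lit 7, nat_lit 7632, nat_lit 1824, nat_lit 7200, nat_lit 7296, nat_lit 6624, R2_150, R2_152, R5_138⟩]⟩]⟩,
 ⟨nat_lit 3, [⟨nat_lit 4, [⟨nat_lit 7, nat_lit 6480, nat_lit 1200, nat_lit 2592, nat_lit 8496, nat_lit 7344, R2_54, R12_177, R8_153⟩]⟩, ⟨nat_lit 6, [⟨nat_lit 7, nat_lit 7344, nat_lit 2160, nat_lit 2064, nat_lit 8544, nat_lit 6576, R1_43, R12_178, R9_137⟩]⟩, ⟨nat_lit 7, [⟨nat_lit 7, nat_lit 7680, nat_lit 1872, nat_lit 7440, nat_lit 8592, nat_lit 6672, R12_155, R12_179, R5_139⟩]⟩]⟩]]]]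
noncomputable def N3763 : T3 (List N0) := [[[[], [], [⟨nat_lit 0, [⟨nat_lit 6, [⟨nat_lit 5, nat_lit 14064, nat_lit 912, nat_lit 2832, nat_lit 1152, nat_lit 4032, R4_59, R4_24, R10_84⟩]⟩]⟩,
 ⟨nat_lit 1, [⟨nat_lit 6, [⟨nat_lit 5, nat_lit 14256, nat_lit 7296, nat_lit 4320, nat_lit 4464, nat_lit 4320, R5_90, R3_93, R10_90⟩]⟩]⟩], [], [], [], [⟨nat_lit 0, [⟨nat_lit 4, [⟨nat_lit 1, nat_lit 13152, nat_lit 1344, nat_lit 4128, nat_lit 1728, nat_lit 4512, R6_86, R7_36, R5_94⟩]⟩, ⟨nat_lit 5, [⟨nat_lit 1, nat_lit 13248, nat_lit 1488, nat_lit 4128, nat_lit 1872, nat_lit 11280, R8_86, R7_39, R0_235⟩]⟩, ⟨nat_lit 6, [⟨nat_lit 1, nat_lit 13200, nat_lit 1536, nat_lit 4272, nat_lit 1776, nat_lit 4512, R4_89, R7_37, R11_94⟩, ⟨nat_lit 5, nat_lit 13968, nat_lit 960, nat_lit 2976, nat_lit 1680, nat_lit 3456, R4_62, R4_35, R1_72⟩]⟩]⟩,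
 ⟨nat_lit 1, [⟨nat_lit 4, [⟨nat_lit 1, nat_lit 13440, nat_lit 7344, nat_lit 11232, nat_lit 288, nat_lit 6096, R8_234, R2_6, R5_127⟩]⟩, ⟨nat_lit 5, [⟨nat_lit 1, nat_lit 13536, nat_lit 7488, nat_lit 3312, nat_lit 432, nat_lit 11328, R9_69, R2_9, R0_236⟩]⟩, ⟨nat_lit 6, [⟨nat_lit 1, nat_lit 13488, nat_lit 7536, nat_lit 3120, nat_lit 336, nat_lit 5712, R5_65, R2_7, R11_119⟩, ⟨nat_lit 5, nat_lit 14112, nat_lit 6960, nat_lit 3216, nat_lit 12576, nat_lit 3648, R5_67, R3_262, R1_76⟩]⟩]⟩]], [], [[], [], [], [], [⟨nat_lit 0, [⟨nat_lit 4, [⟨nat_lit 0, nat_lit 14352, nat_lit 2112, nat_lit 10656, nat_lit 13440, nat_lit 144, R6_222, R7_280, R6_3⟩, ⟨nat_lit 1, nat_lit 15648, nat_lit 2304, nat_lit 11376, nat_lit 8352, nat_lit 1200, R6_237, R14_174, R8_25⟩]⟩, ⟨nat_lit 5, [⟨nat_lit 0, nat_lit 14448, nat_lit 7584, nat_lit 11376,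 nat_lit 16752, nat_lit 13008, R8_237, R7_349, R8_271⟩, ⟨nat_lit 1, nat_lit 15744, nat_lit 7728, nat_lit 11520, nat_lit 8976, nat_lit 528, R8_240, R14_187, R9_11⟩]⟩, ⟨nat_lit 6, [⟨nat_lit 0, nat_lit 14400, nat_lit 11424, nat_lit 11520, nat_lit 14256, nat_lit 13488, R4_240, R7_297, R4_281⟩, ⟨nat_lit 1, nat_lit 15696, nat_lit 11616, nat_lit 11952, nat_lit 8496, nat_lit 14976, R4_249, R14_177, R5_312⟩]⟩]⟩,
 ⟨nat_lit 1, [⟨nat_lit 4, [⟨nat_lit 1, nat_lit 16512, nat_lit 2400, nat_lit 3984, nat_lit 6960, nat_lit 1392, R8_83, R12_145, R8_29⟩]⟩, ⟨nat_lit 5, [⟨nat_lit 1, nat_lit 16608, nat_lit 7824, nat_lit 12288, nat_lit 7584, nat_lit 720, R9_256, R12_158, R9_15⟩]⟩, ⟨nat_lit 6, [⟨nat_lit 1, nat_lit 16560, nat_lit 11712, nat_lit 13728, nat_lit 7104, nat_lit 15120, R5_286, R12_148, R5_315⟩]⟩]⟩,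
 ⟨nat_lit 2, [⟨nat_lit 4, [⟨nat_lit 0, nat_lit 14928, nat_lit 2160, nat_lit 384, nat_lit 12144, nat_lit 1008, R4_8, R2_253, R6_21⟩, ⟨nat_lit 1, nat_lit 17424, nat_lit 2544, nat_lit 2688, nat_lit 2832, nat_lit 1296, R4_56, R12_59, R8_27⟩, ⟨nat_lit 2, nat_lit 18432, nat_lit 2736, nat_lit 1296, nat_lit 12720, nat_lit 624, R4_27, R1_265, R4_13⟩]⟩, ⟨nat_lit 5, [⟨nat_lit 0, nat_lit 14976, nat_lit 7632, nat_lit 2928, nat_lit 14976, nat_lit 13056, R5_61, R2_312, R8_272⟩, ⟨nat_lit 1, nat_lit 17472, nat_lit 7968, nat_lit 3072, nat_lit 4224, nat_lit 624, R5_64, R12_88, R9_13⟩, ⟨nat_lit 2, nat_lit 18480, nat_lit 8016, nat_lit 2976, nat_lit 15984, nat_lit 240, R5_62, R1_333, R5_5⟩]⟩]⟩], [], [⟨nat_lit 0, [⟨nat_lit 4, [⟨nat_lit 1, nat_lit 15984, nat_lit 18672, nat_lit 11616, nat_lit 8400, nat_lit 4560, R6_242, R14_175, R5_95⟩]⟩,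 ⟨nat_lit 5, [⟨nat_lit 1, nat_lit 16080, nat_lit 19200, nat_lit 12096, nat_lit 9024, nat_lit 12864, R8_252, R14_188, R0_268⟩]⟩, ⟨nat_lit 6, [⟨nat_lit 1, nat_lit 16032, nat_lit 19584, nat_lit 12048, nat_lit 8544, nat_lit 4560, R4_251, R14_178, R11_95⟩]⟩]⟩,
 ⟨nat_lit 1, [⟨nat_lit 4, [⟨nat_lit 1, nat_lit 16800, nat_lit 20160, nat_lit 11952, nat_lit 7008, nat_lit 6144, R8_249, R12_146, R5_128⟩]⟩, ⟨nat_lit 5, [⟨nat_lit 1, nat_lit 16896, nat_lit 20880, nat_lit 13056, nat_lit 7632, nat_lit 12960, R9_272, R12_159, R0_270⟩]⟩, ⟨nat_lit 6, [⟨nat_lit 1, nat_lit 16848, nat_lit 21456, nat_lit 14256, nat_lit 7152, nat_lit 5760, R5_297, R12_149, R11_120⟩]⟩]⟩,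
 ⟨nat_lit 2, [⟨nat_lit 4, [⟨nat_lit 1, nat_lit 17664, nat_lit 21744, nat_lit 11472, nat_lit 2880, nat_lit 5280, R4_239, R12_60, R5_110⟩]⟩, ⟨nat_lit 5, [⟨nat_lit 1, nat_lit 17712, nat_lit 22176, nat_lit 14208, nat_lit 4272, nat_lit 12912, R5_296, R12_89, R0_269⟩]⟩]⟩]], [[], [], [⟨nat_lit 0, [⟨nat_lit 6, [⟨nat_lit 5, nat_lit 19680, nat_lit 4080, nat_lit 8016, nat_lit 144, nat_lit 4080, R4_167, R5_3, R10_85⟩]⟩]⟩,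
 ⟨nat_lit 1, [⟨nat_lit 6, [⟨nat_lit 5, nat_lit 19824, nat_lit 12528, nat_lit 12672, nat_lit 14112, nat_lit 4368, R5_264, R0_294, R10_91⟩]⟩]⟩]], [], [], [[], [], [], [], [⟨nat_lit 0, [⟨nat_lit 4, [⟨nat_lit 0, nat_lit 2736, nat_lit 1920, nat_lit 15120, nat_lit 12240, nat_lit 672, R6_315, R4_255, R6_14⟩]⟩, ⟨nat_lit 5, [⟨nat_lit 0, nat_lit 2832, nat_lit 7440, nat_lit 18240, nat_lit 14640, nat_lit 5232, R8_380, R4_305, R8_109⟩]⟩, ⟨nat_lit 6, [⟨nat_lit 0, nat_lit 2784, nat_lit 10848, nat_lit 14544, nat_lit 13104, nat_lit 8880, R4_303, R4_273, R4_185⟩]⟩]⟩,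
 ⟨nat_lit 2, [⟨nat_lit 4, [⟨nat_lit 0, nat_lit 3456, nat_lit 2112, nat_lit 336, nat_lit 3024, nat_lit 1248, R4_7, R3_63, R6_26⟩, ⟨nat_lit 2, nat_lit 4032, nat_lit 2832, nat_lit 912, nat_lit 4608, nat_lit 1152, R4_19, R10_96, R4_24⟩]⟩, ⟨nat_lit 5, [⟨nat_lit 0, nat_lit 3504, nat_lit 7632, nat_lit 3936, nat_lit 3264, nat_lit 5280, R5_82, R3_68, R8_110⟩, ⟨nat_lit 2, nat_lit 4080, nat_lit 8016, nat_lit 4080, nat_lit 4656, nat_lit 144, R5_85, R10_97, R5_3⟩]⟩]⟩], [], [], [⟨nat_lit 0, [⟨nat_lit 4, [⟨nat_lit 0, nat_lit 2976, nat_lit 1152, nat_lit 15216, nat_lit 12288, nat_lit 4560, R6_317, R4_256, R13_95⟩, ⟨nat_lit 3, nat_lit 5664, nat_lit 1440, nat_lit 15792, nat_lit 14352, nat_lit 432, R6_329, R5_299, R3_9⟩]⟩, ⟨nat_lit 5, [⟨nat_lit 0, nat_lit 3072, nat_lit 9504, nat_lit 19104, nat_lit 14736, nat_lit 15360, R8_398,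 R4_307, R9_320⟩, ⟨nat_lit 3, nat_lit 5760, nat_lit 9888, nat_lit 19248, nat_lit 16992, nat_lit 7488, R8_401, R5_354, R0_156⟩]⟩, ⟨nat_lit 6, [⟨nat_lit 0, nat_lit 3024, nat_lit 13200, nat_lit 14592, nat_lit 13248, nat_lit 15264, R4_304, R4_276, R3_318⟩, ⟨nat_lit 3, nat_lit 5712, nat_lit 13344, nat_lit 14880, nat_lit 16224, nat_lit 2928, R4_310, R5_338, R10_61⟩]⟩]⟩,
 ⟨nat_lit 2, [⟨nat_lit 4, [⟨nat_lit 0, nat_lit 3648, nat_lit 3552, nat_lit 5568, nat_lit 8832, nat_lit 6192, R4_116, R3_184, R13_129⟩, ⟨nat_lit 2, nat_lit 4320, nat_lit 4320, nat_lit 7296, nat_lit 4752, nat_lit 4464, R4_152, R10_99, R3_93⟩, ⟨nat_lit 3, nat_lit 6192, nat_lit 3792, nat_lit 6720, nat_lit 3216, nat_lit 1104, R4_140, R0_67, R3_23⟩]⟩, ⟨nat_lit 5, [⟨nat_lit 0, nat_lit 3696, nat_lit 11760, nat_lit 12288, nat_lit 9312, nat_lit 15648, R5_256,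 R3_194, R9_326⟩, ⟨nat_lit 2, nat_lit 4368, nat_lit 12672, nat_lit 12528, nat_lit 4800, nat_lit 14112, R5_261, R10_100, R0_294⟩, ⟨nat_lit 3, nat_lit 6240, nat_lit 12144, nat_lit 12384, nat_lit 3264, nat_lit 8688, R5_258, R0_68, R0_181⟩]⟩]⟩]]], [[[], [], [⟨nat_lit 1, [⟨nat_lit 6, [⟨nat_lit 5, nat_lit 14304, nat_lit 6000, nat_lit 4320, nat_lit 5040, nat_lit 4464, R11_90, R3_105, R10_93⟩]⟩]⟩], [], [], [], [⟨nat_lit 1, [⟨nat_lit 4, [⟨nat_lit 1, nat_lit 13584, nat_lit 5568, nat_lit 7728, nat_lit 6000, nat_lit 7008, R5_161, R2_125, R5_146⟩]⟩, ⟨nat_lit 5, [⟨nat_lit 1, nat_lit 13680, nat_lit 5712, nat_lit 1776, nat_lit 6144, nat_lit 11472, R0_37, R2_128, R0_239⟩]⟩, ⟨nat_lit 6, [⟨nat_lit 1, nat_lit 13632, nat_lit 5760, nat_lit 3120, nat_lit 6048, nat_lit 6624, R11_65, R2_126, R11_138⟩, ⟨nat_lit 5, nat_lit 14160, nat_lit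 5136, nat_lit 3216, nat_lit 13344, nat_lit 3792, R11_67, R3_278, R1_79⟩]⟩]⟩]], [[], [], [⟨nat_lit 1, [⟨nat_lit 6, [⟨nat_lit 5, nat_lit 19248, nat_lit 4560, nat_lit 10320, nat_lit 4896, nat_lit 4560, R11_215, R10_102, R10_95⟩]⟩]⟩,
 ⟨nat_lit 5, [⟨nat_lit 6, [⟨nat_lit 5, nat_lit 19344, nat_lit 18864, nat_lit 7920, nat_lit 15696, nat_lit 5040, R1_165, R1_327, R10_105⟩]⟩]⟩], [], [], [], [⟨nat_lit 1, [⟨nat_lit 4, [⟨nat_lit 1, nat_lit 19056, nat_lit 4272, nat_lit 7776, nat_lit 4704, nat_lit 7104, R5_162, R1_98, R5_148⟩]⟩, ⟨nat_lit 5, [⟨nat_lit 1, nat_lit 19152, nat_lit 4416, nat_lit 6816, nat_lit 4848, nat_lit 14352, R0_142, R1_101, R0_299⟩]⟩, ⟨nat_lit 6, [⟨nat_lit 1, nat_lit 19104, nat_lit 4464, nat_lit 9360, nat_lit 4752, nat_lit 6720, R11_195, R1_99, R11_140⟩, ⟨nat_lit 5, nat_lit 19200, nat_lit 3840, nat_lit 9456,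 nat_lit 5472, nat_lit 3840, R11_197, R10_114, R1_80⟩]⟩]⟩,
 ⟨nat_lit 5, [⟨nat_lit 6, [⟨nat_lit 5, nat_lit 19296, nat_lit 15504, nat_lit 7872, nat_lit 15648, nat_lit 3888, R1_164, R1_326, R1_81⟩]⟩]⟩]], [[], [], [], [], [], [], [⟨nat_lit 1, [⟨nat_lit 4, [⟨nat_lit 1, nat_lit 16944, nat_lit 15936, nat_lit 7824, nat_lit 7824, nat_lit 7056, R5_163, R12_163, R5_147⟩]⟩, ⟨nat_lit 5, [⟨nat_lit 1, nat_lit 17040, nat_lit 16656, nat_lit 11232, nat_lit 7968, nat_lit 13824, R0_234, R12_166, R0_288⟩]⟩, ⟨nat_lit 6, [⟨nat_lit 1, nat_lit 16992, nat_lit 17232, nat_lit 17328, nat_lit 7872, nat_lit 6672, R11_361, R12_164, R11_139⟩]⟩]⟩]], [[], [], [⟨nat_lit 1, [⟨nat_lit 6, [⟨nat_lit 5, nat_lit 19872, nat_lit 10272, nat_lit 15648, nat_lit 14160, nat_lit 4512, R11_326, R0_295, R10_94⟩]⟩]⟩]]], [[], [], [[], [], [], [], [⟨nat_lit 0, [⟨nat_lit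 5, [⟨nat_lit 0, nat_lit 14496, nat_lit 6384, nat_lit 12960, nat_lit 16944, nat_lit 13248, R5_270, R7_353, R8_276⟩, ⟨nat_lit 1, nat_lit 15792, nat_lit 6576, nat_lit 14016, nat_lit 11280, nat_lit 5808, R5_292, R14_235, R9_121⟩]⟩]⟩,
 ⟨nat_lit 1, [⟨nat_lit 5, [⟨nat_lit 1, nat_lit 16656, nat_lit 6672, nat_lit 1632, nat_lit 9408, nat_lit 6000, R0_34, R12_196, R9_125⟩]⟩]⟩,
 ⟨nat_lit 2, [⟨nat_lit 5, [⟨nat_lit 0, nat_lit 15024, nat_lit 6432, nat_lit 15888, nat_lit 15168, nat_lit 13296, R11_331, R2_316, R8_277⟩, ⟨nat_lit 1, nat_lit 17520, nat_lit 6816, nat_lit 17088, nat_lit 5568, nat_lit 5904, R11_356, R12_116, R9_123⟩, ⟨nat_lit 2, nat_lit 18528, nat_lit 7008, nat_lit 16464, nat_lit 16176, nat_lit 5952, R11_343, R1_337, R5_124⟩]⟩]⟩], [⟨nat_lit 2, [⟨nat_lit 1, [⟨nat_lit 2, nat_lit 18720, nat_lit 15552, nat_lit 11472,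 nat_lit 11376, nat_lit 15792, R1_239, R1_237, R1_329⟩]⟩, ⟨nat_lit 5, [⟨nat_lit 0, nat_lit 15168, nat_lit 5136, nat_lit 15936, nat_lit 15456, nat_lit 16608, R11_332, R2_322, R5_346⟩, ⟨nat_lit 1, nat_lit 17904, nat_lit 5520, nat_lit 17136, nat_lit 5664, nat_lit 3744, R11_357, R12_118, R0_78⟩, ⟨nat_lit 2, nat_lit 18672, nat_lit 5712, nat_lit 16512, nat_lit 16464, nat_lit 5568, R11_344, R1_343, R11_116⟩]⟩]⟩], [⟨nat_lit 0, [⟨nat_lit 5, [⟨nat_lit 1, nat_lit 16128, nat_lit 16032, nat_lit 14112, nat_lit 11328, nat_lit 13488, R5_294, R14_236, R0_281⟩]⟩]⟩,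
 ⟨nat_lit 1, [⟨nat_lit 5, [⟨nat_lit 1, nat_lit 17088, nat_lit 16800, nat_lit 11088, nat_lit 9456, nat_lit 13632, R0_231, R12_197, R0_284⟩]⟩]⟩,
 ⟨nat_lit 2, [⟨nat_lit 5, [⟨nat_lit 1, nat_lit 17760, nat_lit 17328, nat_lit 17184, nat_lit 5616, nat_lit 13536, R11_358, R12_117, R0_282⟩]⟩]⟩]], [], [], [], [[], [], [], [], [⟨nat_lit 0, [⟨nat_lit 5, [⟨nat_lit 0, nat_lit 2880, nat_lit 2400, nat_lit 13248, nat_lit 14688, nat_lit 5616, R5_276, R4_306, R8_117⟩]⟩]⟩,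
 ⟨nat_lit 2, [⟨nat_lit 5, [⟨nat_lit 0, nat_lit 3552, nat_lit 2496, nat_lit 16176, nat_lit 3312, nat_lit 5664, R11_337, R3_69, R8_118⟩, ⟨nat_lit 2, nat_lit 4128, nat_lit 10128, nat_lit 16560, nat_lit 4704, nat_lit 5808, R11_345, R10_98, R5_121⟩]⟩]⟩], [⟨nat_lit 2, [⟨nat_lit 1, [⟨nat_lit 2, nat_lit 4224, nat_lit 8688, nat_lit 11520, nat_lit 5088, nat_lit 15744, R1_240, R10_106, R1_328⟩]⟩, ⟨nat_lit 5, [⟨nat_lit 0, nat_lit 3600, nat_lit 8592, nat_lit 16272, nat_lit 10512, nat_lit 16512, R11_339, R3_219, R5_344⟩, ⟨nat_lit 2, nat_lit 4176, nat_lit 8640, nat_lit 16656, nat_lit 5136, nat_lit 5424, R11_347, R10_107, R11_113⟩]⟩]⟩], [], [⟨nat_lit 0, [⟨nat_lit 5, [⟨nat_lit 0, nat_lit 3120, nat_lit 6960, nat_lit 13296, nat_lit 14832, nat_lit 15456, R5_277, R4_309, R9_322⟩, ⟨nat_lit 3, nat_lit 5808, nat_lit 7056, nat_lit 13536,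 nat_lit 17712, nat_lit 7584, R5_282, R5_369, R0_158⟩]⟩]⟩,
 ⟨nat_lit 2, [⟨nat_lit 5, [⟨nat_lit 0, nat_lit 3744, nat_lit 7008, nat_lit 16224, nat_lit 9408, nat_lit 15744, R11_338, R3_196, R9_328⟩, ⟨nat_lit 2, nat_lit 4416, nat_lit 7152, nat_lit 16608, nat_lit 4992, nat_lit 14208, R11_346, R10_104, R0_296⟩, ⟨nat_lit 3, nat_lit 6288, nat_lit 7104, nat_lit 16752, nat_lit 3408, nat_lit 8784, R11_349, R0_71, R0_183⟩]⟩]⟩]]], [[[], [], [], [], [], [], [⟨nat_lit 0, [⟨nat_lit 4, [⟨nat_lit 1, nat_lit 13296, nat_lit 192, nat_lit 14400, nat_lit 8352, nat_lit 4896, R13_300, R7_174, R5_102⟩]⟩, ⟨nat_lit 5, [⟨nat_lit 1, nat_lit 13392, nat_lit 480, nat_lit 12096, nat_lit 8496, nat_lit 11376, R9_252, R7_177, R0_237⟩]⟩, ⟨nat_lit 6, [⟨nat_lit 1, nat_lit 13344, nat_lit 624, nat_lit 10752, nat_lit 8400, nat_lit 4896, R3_224, R7_175,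 R11_102⟩, ⟨nat_lit 5, nat_lit 14016, nat_lit 2352, nat_lit 9792, nat_lit 8400, nat_lit 3504, R3_204, R4_175, R1_73⟩]⟩]⟩,
 ⟨nat_lit 1, [⟨nat_lit 4, [⟨nat_lit 1, nat_lit 13728, nat_lit 7200, nat_lit 7632, nat_lit 7296, nat_lit 6624, R9_159, R2_152, R5_138⟩]⟩, ⟨nat_lit 6, [⟨nat_lit 1, nat_lit 13776, nat_lit 7392, nat_lit 5472, nat_lit 7344, nat_lit 6240, R0_114, R2_153, R11_130⟩, ⟨nat_lit 5, nat_lit 14208, nat_lit 9984, nat_lit 6864, nat_lit 12960, nat_lit 3696, R0_143, R3_270, R1_77⟩]⟩]⟩,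
 ⟨nat_lit 3, [⟨nat_lit 4, [⟨nat_lit 1, nat_lit 13824, nat_lit 5904, nat_lit 9888, nat_lit 5328, nat_lit 5520, R3_206, R2_111, R5_115⟩]⟩, ⟨nat_lit 5, [⟨nat_lit 1, nat_lit 13920, nat_lit 6192, nat_lit 1728, nat_lit 5664, nat_lit 11424, R0_36, R2_118, R0_238⟩]⟩, ⟨nat_lit 6, [⟨nat_lit 1, nat_lit 13872, nat_lit 6336, nat_lit 6816, nat_lit 5376, nat_lit 5136, R10_142, R2_112, R11_107⟩]⟩]⟩]], [], [[], [], [], [], [⟨nat_lit 0, [⟨nat_lit 4, [⟨nat_lit 0, nat_lit 14544, nat_lit 912, nat_lit 13632, nat_lit 13536, nat_lit 4992, R13_284, R7_282, R6_104⟩, ⟨nat_lit 1, nat_lit 15840, nat_lit 2448, nat_lit 14880, nat_lit 9600, nat_lit 7104, R13_310, R14_200, R8_148⟩]⟩, ⟨nat_lit 5, [⟨nat_lit 0, nat_lit 14640, nat_lit 8016, nat_lit 11184, nat_lit 16848, nat_lit 13104, R9_233, R7_351, R8_273⟩, ⟨nat_lit 1, nat_lit 15936, nat_lit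 10080, nat_lit 12720, nat_lit 10752, nat_lit 7776, R9_265, R14_224, R9_162⟩]⟩, ⟨nat_lit 6, [⟨nat_lit 0, nat_lit 14592, nat_lit 10800, nat_lit 10368, nat_lit 14352, nat_lit 13632, R3_216, R7_299, R4_284⟩, ⟨nat_lit 1, nat_lit 15888, nat_lit 11136, nat_lit 10896, nat_lit 9840, nat_lit 15456, R3_227, R14_205, R5_322⟩]⟩]⟩,
 ⟨nat_lit 1, [⟨nat_lit 4, [⟨nat_lit 1, nat_lit 16704, nat_lit 2592, nat_lit 6480, nat_lit 8496, nat_lit 7344, R9_135, R12_177, R8_153⟩]⟩, ⟨nat_lit 6, [⟨nat_lit 1, nat_lit 16752, nat_lit 11328, nat_lit 4320, nat_lit 8736, nat_lit 15696, R0_90, R12_182, R5_327⟩]⟩]⟩,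
 ⟨nat_lit 2, [⟨nat_lit 4, [⟨nat_lit 0, nat_lit 15072, nat_lit 1056, nat_lit 3696, nat_lit 12240, nat_lit 6720, R3_77, R2_255, R6_140⟩, ⟨nat_lit 1, nat_lit 17568, nat_lit 2880, nat_lit 7104, nat_lit 3264, nat_lit 7248, R3_148, R12_68, R8_151⟩, ⟨nat_lit 2, nat_lit 18576, nat_lit 3072, nat_lit 4848, nat_lit 12816, nat_lit 7008, R3_101, R1_267, R4_146⟩]⟩, ⟨nat_lit 5, [⟨nat_lit 0, nat_lit 15120, nat_lit 8112, nat_lit 9696, nat_lit 15072, nat_lit 13200, R0_202, R2_314, R8_275⟩, ⟨nat_lit 1, nat_lit 17616, nat_lit 10224, nat_lit 10896, nat_lit 4896, nat_lit 7920, R0_227, R12_102, R9_165⟩, ⟨nat_lit 2, nat_lit 18624, nat_lit 10272, nat_lit 10176, nat_lit 16080, nat_lit 7872, R0_212, R1_335, R5_164⟩]⟩]⟩,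
 ⟨nat_lit 3, [⟨nat_lit 4, [⟨nat_lit 0, nat_lit 15360, nat_lit 960, nat_lit 576, nat_lit 11952, nat_lit 6336, R3_12, R2_249, R6_132⟩, ⟨nat_lit 1, nat_lit 18048, nat_lit 2496, nat_lit 2688, nat_lit 3216, nat_lit 7152, R3_56, R12_67, R8_149⟩]⟩, ⟨nat_lit 5, [⟨nat_lit 0, nat_lit 15456, nat_lit 8064, nat_lit 9360, nat_lit 14688, nat_lit 13152, R0_195, R2_306, R8_274⟩, ⟨nat_lit 1, nat_lit 18144, nat_lit 10128, nat_lit 10560, nat_lit 4800, nat_lit 7824, R0_220, R12_100, R9_163⟩]⟩, ⟨nat_lit 6, [⟨nat_lit 0, nat_lit 15408, nat_lit 10896, nat_lit 3408, nat_lit 13968, nat_lit 13824, R10_71, R2_291, R4_288⟩, ⟨nat_lit 1, nat_lit 18096, nat_lit 11232, nat_lit 6144, nat_lit 3648, nat_lit 15552, R10_128, R12_76, R5_324⟩]⟩]⟩], [], [⟨nat_lit 0, [⟨nat_lit 4, [⟨nat_lit 1, nat_lit 16176, nat_lit 336, nat_lit 14976, nat_lit 9696, nat_lit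 4944, R13_312, R14_202, R5_103⟩]⟩, ⟨nat_lit 5, [⟨nat_lit 1, nat_lit 16272, nat_lit 1440, nat_lit 12768, nat_lit 10800, nat_lit 13152, R9_266, R14_225, R0_274⟩]⟩, ⟨nat_lit 6, [⟨nat_lit 1, nat_lit 16224, nat_lit 2400, nat_lit 10992, nat_lit 9936, nat_lit 4944, R3_229, R14_207, R11_103⟩]⟩]⟩,
 ⟨nat_lit 1, [⟨nat_lit 4, [⟨nat_lit 1, nat_lit 17136, nat_lit 7440, nat_lit 7680, nat_lit 8592, nat_lit 6672, R9_160, R12_179, R5_139⟩]⟩, ⟨nat_lit 6, [⟨nat_lit 1, nat_lit 17184, nat_lit 9216, nat_lit 5520, nat_lit 8832, nat_lit 6288, R0_115, R12_184, R11_131⟩]⟩]⟩,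
 ⟨nat_lit 2, [⟨nat_lit 4, [⟨nat_lit 1, nat_lit 17808, nat_lit 10368, nat_lit 7584, nat_lit 3360, nat_lit 5472, R3_158, R12_70, R5_114⟩]⟩, ⟨nat_lit 5, [⟨nat_lit 1, nat_lit 17856, nat_lit 11184, nat_lit 10944, nat_lit 4944, nat_lit 13248, R0_228, R12_103, R0_276⟩]⟩]⟩,
 ⟨nat_lit 3, [⟨nat_lit 4, [⟨nat_lit 1, nat_lit 18192, nat_lit 6000, nat_lit 10224, nat_lit 3552, nat_lit 5616, R3_213, R12_74, R5_117⟩]⟩, ⟨nat_lit 5, [⟨nat_lit 1, nat_lit 18288, nat_lit 6288, nat_lit 11184, nat_lit 5136, nat_lit 13200, R0_233, R12_107, R0_275⟩]⟩, ⟨nat_lit 6, [⟨nat_lit 1, nat_lit 18240, nat_lit 6672, nat_lit 6912, nat_lit 3792, nat_lit 5232, R10_144, R12_79, R11_109⟩]⟩]⟩], [⟨nat_lit 0, [⟨nat_lit 4, [⟨nat_lit 0, nat_lit 14736, nat_lit 240, nat_lit 13680, nat_lit 13632, nat_lit 5136, R13_285, R7_284, R13_107⟩, ⟨nat_lit 1, nat_lit 16368,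 nat_lit 1920, nat_lit 14928, nat_lit 9648, nat_lit 4080, R13_311, R14_201, R9_85⟩]⟩, ⟨nat_lit 5, [⟨nat_lit 0, nat_lit 14832, nat_lit 8544, nat_lit 11232, nat_lit 16992, nat_lit 15504, R9_234, R7_354, R9_323⟩]⟩, ⟨nat_lit 6, [⟨nat_lit 0, nat_lit 14784, nat_lit 11184, nat_lit 10416, nat_lit 14496, nat_lit 15408, R3_217, R7_302, R3_321⟩, ⟨nat_lit 1, nat_lit 16416, nat_lit 11712, nat_lit 10944, nat_lit 9888, nat_lit 2544, R3_228, R14_206, R0_53⟩]⟩]⟩,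
 ⟨nat_lit 1, [⟨nat_lit 4, [⟨nat_lit 1, nat_lit 17280, nat_lit 2064, nat_lit 7344, nat_lit 8544, nat_lit 6576, R9_153, R12_178, R9_137⟩]⟩, ⟨nat_lit 6, [⟨nat_lit 1, nat_lit 17328, nat_lit 11904, nat_lit 5184, nat_lit 8784, nat_lit 4416, R0_108, R12_183, R0_92⟩]⟩]⟩,
 ⟨nat_lit 2, [⟨nat_lit 4, [⟨nat_lit 0, nat_lit 15216, nat_lit 384, nat_lit 4224, nat_lit 12384, nat_lit 6720, R3_88, R2_258, R13_140⟩, ⟨nat_lit 1, nat_lit 17952, nat_lit 2352, nat_lit 7488, nat_lit 3312, nat_lit 4992, R3_156, R12_69, R9_104⟩, ⟨nat_lit 2, nat_lit 18768, nat_lit 2544, nat_lit 5952, nat_lit 12960, nat_lit 5088, R3_124, R1_270, R3_106⟩]⟩, ⟨nat_lit 5, [⟨nat_lit 0, nat_lit 15264, nat_lit 8640, nat_lit 9744, nat_lit 15216, nat_lit 15792, R0_203, R2_317, R9_329⟩, ⟨nat_lit 2, nat_lit 18816, nat_lit 10848, nat_lit 10224, nat_lit 16224, nat_lit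 14256, R0_213, R1_338, R0_297⟩]⟩, ⟨nat_lit 7, [⟨nat_lit 0, nat_lit 15312, nat_lit 6048, nat_lit 12336, nat_lit 14160, nat_lit 15792, R10_257, R2_295, R3_329⟩, ⟨nat_lit 1, nat_lit 18000, nat_lit 7728, nat_lit 13056, nat_lit 3696, nat_lit 3168, R10_272, R12_77, R0_66⟩, ⟨nat_lit 2, nat_lit 18864, nat_lit 7920, nat_lit 12624, nat_lit 15696, nat_lit 19344, R10_263, R1_327, R10_403⟩]⟩]⟩,
 ⟨nat_lit 3, [⟨nat_lit 4, [⟨nat_lit 0, nat_lit 15504, nat_lit 288, nat_lit 4176, nat_lit 12432, nat_lit 7104, R3_87, R2_259, R13_148⟩, ⟨nat_lit 1, nat_lit 18336, nat_lit 1968, nat_lit 7440, nat_lit 3456, nat_lit 5232, R3_155, R12_72, R9_109⟩, ⟨nat_lit 3, nat_lit 18912, nat_lit 528, nat_lit 5904, nat_lit 13008, nat_lit 5136, R3_123, R1_271, R3_107⟩]⟩, ⟨nat_lit 5, [⟨nat_lit 0, nat_lit 15600, nat_lit 8592, nat_lit 9600, nat_lit 15264,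 nat_lit 15888, R0_200, R2_318, R9_331⟩, ⟨nat_lit 3, nat_lit 19008, nat_lit 8928, nat_lit 10080, nat_lit 16272, nat_lit 14304, R0_210, R1_339, R0_298⟩]⟩, ⟨nat_lit 6, [⟨nat_lit 0, nat_lit 15552, nat_lit 11280, nat_lit 3984, nat_lit 14208, nat_lit 15744, R10_83, R2_296, R3_328⟩, ⟨nat_lit 1, nat_lit 18384, nat_lit 11808, nat_lit 6528, nat_lit 3744, nat_lit 3072, R10_136, R12_78, R0_64⟩, ⟨nat_lit 3, nat_lit 18960, nat_lit 11520, nat_lit 5088, nat_lit 15744, nat_lit 4224, R10_106, R1_328, R10_88⟩]⟩]⟩]], [[], [], [⟨nat_lit 0, [⟨nat_lit 6, [⟨nat_lit 5, nat_lit 19728, nat_lit 4080, nat_lit 10128, nat_lit 5808, nat_lit 4128, R3_211, R5_121, R10_86⟩]⟩]⟩,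
 ⟨nat_lit 1, [⟨nat_lit 6, [⟨nat_lit 5, nat_lit 19920, nat_lit 15504, nat_lit 7152, nat_lit 14208, nat_lit 4416, R0_149, R0_296, R10_92⟩]⟩]⟩,
 ⟨nat_lit 3, [⟨nat_lit 6, [⟨nat_lit 5, nat_lit 20016, nat_lit 10080, nat_lit 8640, nat_lit 21456, nat_lit 4176, R10_180, R11_447, R10_87⟩]⟩]⟩], [], [], [], [⟨nat_lit 0, [⟨nat_lit 6, [⟨nat_lit 5, nat_lit 19632, nat_lit 1824, nat_lit 10080, nat_lit 5712, nat_lit 3552, R3_210, R5_119, R1_74⟩]⟩]⟩,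
 ⟨nat_lit 1, [⟨nat_lit 6, [⟨nat_lit 5, nat_lit 19776, nat_lit 10800, nat_lit 6912, nat_lit 14064, nat_lit 3744, R0_144, R0_293, R1_78⟩]⟩]⟩,
 ⟨nat_lit 3, [⟨nat_lit 4, [⟨nat_lit 1, nat_lit 19488, nat_lit 4608, nat_lit 10032, nat_lit 4032, nat_lit 5568, R3_209, R1_84, R5_116⟩]⟩, ⟨nat_lit 5, [⟨nat_lit 1, nat_lit 19584, nat_lit 4896, nat_lit 6768, nat_lit 4368, nat_lit 14016, R0_141, R1_91, R0_292⟩]⟩, ⟨nat_lit 6, [⟨nat_lit 1, nat_lit 19536, nat_lit 5040, nat_lit 6864, nat_lit 4080, nat_lit 5184, R10_143, R1_85, R11_108⟩, ⟨nat_lit 5, nat_lit 19968, nat_lit 7248, nat_lit 8496, nat_lit 21408, nat_lit 3600, R10_177, R11_446, R1_75⟩]⟩]⟩]], [[], [], [], [⟨nat_lit 3, [⟨nat_lit 6, [⟨nat_lit 7, nat_lit 2352, nat_lit 6336, nat_lit 8112, nat_lit 5376, nat_lit 5136, R10_169, R2_112, R11_107⟩]⟩]⟩]], [], [[], [], [], [⟨nat_lit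 0, [⟨nat_lit 4, [⟨nat_lit 3, nat_lit 6000, nat_lit 6672, nat_lit 13968, nat_lit 14592, nat_lit 3504, R13_291, R5_304, R2_73⟩]⟩, ⟨nat_lit 6, [⟨nat_lit 3, nat_lit 6048, nat_lit 6768, nat_lit 10560, nat_lit 16464, nat_lit 2976, R3_220, R5_343, R1_62⟩]⟩, ⟨nat_lit 7, [⟨nat_lit 3, nat_lit 6096, nat_lit 6720, nat_lit 17232, nat_lit 16128, nat_lit 3600, R3_359, R5_336, R12_75⟩]⟩]⟩,
 ⟨nat_lit 2, [⟨nat_lit 4, [⟨nat_lit 3, nat_lit 6432, nat_lit 7680, nat_lit 6960, nat_lit 3120, nat_lit 4368, R3_145, R0_65, R2_91⟩]⟩, ⟨nat_lit 7, [⟨nat_lit 0, nat_lit 3936, nat_lit 6048, nat_lit 12528, nat_lit 15792, nat_lit 14160, R10_261, R3_329, R2_295⟩, ⟨nat_lit 2, nat_lit 5040, nat_lit 7920, nat_lit 12720, nat_lit 4272, nat_lit 15696, R10_265, R10_89, R1_327⟩, ⟨nat_lit 3, nat_lit 6480, nat_lit 7728, nat_lit 12816, nat_lit 3168, nat_lit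 3696, R10_267, R0_66, R12_77⟩]⟩]⟩,
 ⟨nat_lit 3, [⟨nat_lit 4, [⟨nat_lit 3, nat_lit 6720, nat_lit 7200, nat_lit 13536, nat_lit 5280, nat_lit 4896, R3_282, R11_110, R2_102⟩]⟩, ⟨nat_lit 6, [⟨nat_lit 3, nat_lit 6768, nat_lit 7248, nat_lit 5616, nat_lit 5328, nat_lit 3600, R10_117, R11_111, R1_75⟩, ⟨nat_lit 7, nat_lit 8448, nat_lit 5040, nat_lit 8208, nat_lit 4080, nat_lit 5184, R10_171, R1_85, R11_108⟩]⟩]⟩], [], [], [], [⟨nat_lit 0, [⟨nat_lit 4, [⟨nat_lit 0, nat_lit 3168, nat_lit 9504, nat_lit 13776, nat_lit 12336, nat_lit 5088, R13_287, R4_257, R13_106⟩, ⟨nat_lit 3, nat_lit 5856, nat_lit 9840, nat_lit 13920, nat_lit 14736, nat_lit 4032, R13_290, R5_307, R3_84⟩]⟩, ⟨nat_lit 5, [⟨nat_lit 0, nat_lit 3264, nat_lit 9552, nat_lit 11424, nat_lit 14784, nat_lit 15408, R9_238, R4_308, R9_321⟩, ⟨nat_lit 3, nat_lit 5952, nat_lit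 9888, nat_lit 11568, nat_lit 17376, nat_lit 7536, R9_241, R5_362, R0_157⟩]⟩, ⟨nat_lit 6, [⟨nat_lit 0, nat_lit 3216, nat_lit 9648, nat_lit 10464, nat_lit 13296, nat_lit 15312, R3_218, R4_277, R3_319⟩, ⟨nat_lit 3, nat_lit 5904, nat_lit 9936, nat_lit 10512, nat_lit 16512, nat_lit 3600, R3_219, R5_344, R10_75⟩]⟩]⟩,
 ⟨nat_lit 2, [⟨nat_lit 4, [⟨nat_lit 0, nat_lit 3792, nat_lit 9696, nat_lit 4272, nat_lit 8928, nat_lit 6672, R3_89, R3_186, R13_139⟩, ⟨nat_lit 2, nat_lit 4464, nat_lit 10224, nat_lit 6000, nat_lit 4848, nat_lit 5040, R3_125, R10_101, R3_105⟩, ⟨nat_lit 3, nat_lit 6336, nat_lit 10128, nat_lit 6336, nat_lit 3312, nat_lit 6288, R3_132, R0_69, R3_131⟩]⟩, ⟨nat_lit 5, [⟨nat_lit 0, nat_lit 3840, nat_lit 9744, nat_lit 9936, nat_lit 9360, nat_lit 15696, R0_207, R3_195, R9_327⟩, ⟨nat_lit 2, nat_lit 4512, nat_lit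 10272, nat_lit 10272, nat_lit 4944, nat_lit 14160, R0_214, R10_103, R0_295⟩, ⟨nat_lit 3, nat_lit 6384, nat_lit 10176, nat_lit 10368, nat_lit 3360, nat_lit 8736, R0_216, R0_70, R0_182⟩]⟩, ⟨nat_lit 7, [⟨nat_lit 0, nat_lit 3888, nat_lit 9792, nat_lit 12480, nat_lit 9072, nat_lit 9072, R10_260, R3_189, R3_189⟩, ⟨nat_lit 2, nat_lit 4560, nat_lit 10320, nat_lit 12672, nat_lit 4896, nat_lit 19248, R10_264, R10_102, R10_401⟩]⟩]⟩,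
 ⟨nat_lit 3, [⟨nat_lit 4, [⟨nat_lit 3, nat_lit 6576, nat_lit 9984, nat_lit 5424, nat_lit 5376, nat_lit 5760, R3_113, R11_112, R3_120⟩]⟩, ⟨nat_lit 5, [⟨nat_lit 3, nat_lit 6672, nat_lit 10032, nat_lit 15216, nat_lit 5472, nat_lit 8112, R0_317, R11_114, R0_169⟩]⟩, ⟨nat_lit 6, [⟨nat_lit 3, nat_lit 6624, nat_lit 10080, nat_lit 5136, nat_lit 5424, nat_lit 4176, R10_107, R11_113, R10_87⟩]⟩]⟩]], [[⟨nat_lit 3, [⟨nat_lit 6, [⟨nat_lit 4, nat_lit 12192, nat_lit 10896, nat_lit 7104, nat_lit 13968, nat_lit 13824, R10_148, R2_291, R4_288⟩, ⟨nat_lit 7, nat_lit 12912, nat_lit 11232, nat_lit 7536, nat_lit 3648, nat_lit 15552, R10_157, R12_76, R5_324⟩]⟩]⟩], [], [⟨nat_lit 3, [⟨nat_lit 6, [⟨nat_lit 4, nat_lit 12288, nat_lit 11280, nat_lit 7296, nat_lit 14208, nat_lit 15744, R10_152, R2_296, R3_328⟩, ⟨nat_lit 5, nat_lit 12576, nat_lit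 11520, nat_lit 8688, nat_lit 15744, nat_lit 4224, R10_181, R1_328, R10_88⟩, ⟨nat_lit 7, nat_lit 13008, nat_lit 11808, nat_lit 8352, nat_lit 3744, nat_lit 3072, R10_174, R12_78, R0_64⟩]⟩]⟩], [⟨nat_lit 3, [⟨nat_lit 6, [⟨nat_lit 7, nat_lit 13104, nat_lit 6672, nat_lit 8160, nat_lit 3792, nat_lit 5232, R10_170, R12_79, R11_109⟩]⟩]⟩]]], [[], [], [], [], [[⟨nat_lit 4, [⟨nat_lit 2, [⟨nat_lit 4, nat_lit 48, nat_lit 816, nat_lit 2112, nat_lit 144, nat_lit 13440, R7_44, R6_3, R7_280⟩, ⟨nat_lit 6, nat_lit 960, nat_lit 3024, nat_lit 2304, nat_lit 1200, nat_lit 8352, R7_48, R8_25, R14_174⟩]⟩, ⟨nat_lit 6, [⟨nat_lit 4, nat_lit 0, nat_lit 432, nat_lit 1920, nat_lit 672, nat_lit 12240, R4_40, R6_14, R4_255⟩]⟩]⟩,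
 ⟨nat_lit 6, [⟨nat_lit 0, [⟨nat_lit 6, nat_lit 1296, nat_lit 10320, nat_lit 1344, nat_lit 4512, nat_lit 1728, R7_28, R5_94, R7_36⟩]⟩, ⟨nat_lit 2, [⟨nat_lit 6, nat_lit 1344, nat_lit 10608, nat_lit 18768, nat_lit 4560, nat_lit 8400, R14_391, R5_95, R14_175⟩]⟩]⟩,
 ⟨nat_lit 7, [⟨nat_lit 6, [⟨nat_lit 4, nat_lit 336, nat_lit 5280, nat_lit 1152, nat_lit 4560, nat_lit 12288, R5_24, R13_95, R4_256⟩, ⟨nat_lit 7, nat_lit 2448, nat_lit 6624, nat_lit 1440, nat_lit 432, nat_lit 14352, R5_30, R3_9, R5_299⟩]⟩]⟩], [⟨nat_lit 4, [⟨nat_lit 2, [⟨nat_lit 6, nat_lit 1152, nat_lit 3984, nat_lit 2400, nat_lit 1392, nat_lit 6960, R7_50, R8_29, R12_145⟩]⟩]⟩,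
 ⟨nat_lit 6, [⟨nat_lit 0, [⟨nat_lit 6, nat_lit 1584, nat_lit 11232, nat_lit 7344, nat_lit 6096, nat_lit 288, R7_153, R5_127, R2_6⟩]⟩, ⟨nat_lit 2, [⟨nat_lit 6, nat_lit 1632, nat_lit 11952, nat_lit 19344, nat_lit 6144, nat_lit 7008, R14_403, R5_128, R12_146⟩]⟩]⟩], [⟨nat_lit 4, [⟨nat_lit 2, [⟨nat_lit 4, nat_lit 192, nat_lit 384, nat_lit 2160, nat_lit 1008, nat_lit 12144, R7_45, R6_21, R2_253⟩, ⟨nat_lit 5, nat_lit 720, nat_lit 1296, nat_lit 2736, nat_lit 624, nat_lit 12720, R7_57, R4_13, R1_265⟩, ⟨nat_lit 6, nat_lit 1056, nat_lit 2688, nat_lit 2544, nat_lit 1296, nat_lit 2832, R7_53, R8_27, R12_59⟩]⟩, ⟨nat_lit 6, [⟨nat_lit 4, nat_lit 144, nat_lit 336, nat_lit 2112, nat_lit 1248, nat_lit 3024, R4_44, R6_26, R3_63⟩, ⟨nat_lit 5, nat_lit 672, nat_lit 912, nat_lit 2832, nat_lit 1152, nat_lit 4608, R4_59, R4_24, R10_96⟩]⟩]⟩,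
 ⟨nat_lit 7, [⟨nat_lit 6, [⟨nat_lit 4, nat_lit 480, nat_lit 5568, nat_lit 3552, nat_lit 6192, nat_lit 8832, R5_74, R13_129, R3_184⟩, ⟨nat_lit 5, nat_lit 816, nat_lit 7296, nat_lit 4320, nat_lit 4464, nat_lit 4752, R5_90, R3_93, R10_99⟩, ⟨nat_lit 7, nat_lit 2544, nat_lit 6720, nat_lit 3792, nat_lit 1104, nat_lit 3216, R5_79, R3_23, R0_67⟩]⟩]⟩]], [[⟨nat_lit 4, [⟨nat_lit 2, [⟨nat_lit 4, nat_lit 8784, nat_lit 11376, nat_lit 7584, nat_lit 13008, nat_lit 16752, R7_158, R8_271, R7_349⟩, ⟨nat_lit 6, nat_lit 10416, nat_lit 11520, nat_lit 7728, nat_lit 528, nat_lit 8976, R7_161, R9_11, R14_187⟩]⟩, ⟨nat_lit 6, [⟨nat_lit 4, nat_lit 8736, nat_lit 18240, nat_lit 7440, nat_lit 5232, nat_lit 14640, R4_155, R8_109, R4_305⟩]⟩]⟩,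
 ⟨nat_lit 6, [⟨nat_lit 0, [⟨nat_lit 6, nat_lit 10992, nat_lit 4128, nat_lit 1488, nat_lit 11280, nat_lit 1872, R7_31, R0_235, R7_39⟩]⟩, ⟨nat_lit 2, [⟨nat_lit 6, nat_lit 11040, nat_lit 12096, nat_lit 20256, nat_lit 12864, nat_lit 9024, R14_422, R0_268, R14_188⟩]⟩]⟩,
 ⟨nat_lit 7, [⟨nat_lit 6, [⟨nat_lit 4, nat_lit 9456, nat_lit 19104, nat_lit 9504, nat_lit 15360, nat_lit 14736, R5_198, R9_320, R4_307⟩, ⟨nat_lit 7, nat_lit 11808, nat_lit 19248, nat_lit 9888, nat_lit 7488, nat_lit 16992, R5_206, R0_156, R5_354⟩]⟩]⟩], [⟨nat_lit 4, [⟨nat_lit 2, [⟨nat_lit 6, nat_lit 10704, nat_lit 3168, nat_lit 7824, nat_lit 720, nat_lit 7584, R7_163, R9_15, R12_158⟩]⟩]⟩,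
 ⟨nat_lit 6, [⟨nat_lit 0, [⟨nat_lit 6, nat_lit 11376, nat_lit 12144, nat_lit 7488, nat_lit 11328, nat_lit 432, R7_156, R0_236, R2_9⟩]⟩, ⟨nat_lit 2, [⟨nat_lit 6, nat_lit 11424, nat_lit 12912, nat_lit 21024, nat_lit 12960, nat_lit 7632, R14_438, R0_270, R12_159⟩]⟩]⟩], [⟨nat_lit 4, [⟨nat_lit 2, [⟨nat_lit 4, nat_lit 9024, nat_lit 2928, nat_lit 7632, nat_lit 13056, nat_lit 14976, R7_159, R8_272, R2_312⟩, ⟨nat_lit 5, nat_lit 9936, nat_lit 2976, nat_lit 8016, nat_lit 240, nat_lit 15984, R7_167, R5_5, R1_333⟩, ⟨nat_lit 6, nat_lit 10560, nat_lit 3072, nat_lit 7968, nat_lit 624, nat_lit 4224, R7_166, R9_13, R12_88⟩]⟩, ⟨nat_lit 6, [⟨nat_lit 4, nat_lit 8976, nat_lit 3936, nat_lit 7632, nat_lit 5280, nat_lit 3264, R4_159, R8_110, R3_68⟩, ⟨nat_lit 5, nat_lit 9888, nat_lit 4080, nat_lit 8016, nat_lit 144, nat_lit 4656, R4_167,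 R5_3, R10_97⟩]⟩]⟩,
 ⟨nat_lit 7, [⟨nat_lit 6, [⟨nat_lit 4, nat_lit 9648, nat_lit 12288, nat_lit 11760, nat_lit 15648, nat_lit 9312, R5_245, R9_326, R3_194⟩, ⟨nat_lit 5, nat_lit 10224, nat_lit 12528, nat_lit 12672, nat_lit 14112, nat_lit 4800, R5_264, R0_294, R10_100⟩, ⟨nat_lit 7, nat_lit 11952, nat_lit 12384, nat_lit 12144, nat_lit 8688, nat_lit 3264, R5_253, R0_181, R0_68⟩]⟩]⟩]], [[⟨nat_lit 4, [⟨nat_lit 2, [⟨nat_lit 4, nat_lit 7008, nat_lit 11520, nat_lit 11424, nat_lit 13488, nat_lit 14256, R7_238, R4_281, R7_297⟩, ⟨nat_lit 6, nat_lit 7344, nat_lit 11952, nat_lit 11616, nat_lit 14976, nat_lit 8496, R7_242, R5_312, R14_177⟩]⟩, ⟨nat_lit 6, [⟨nat_lit 4, nat_lit 6960, nat_lit 14544, nat_lit 10848, nat_lit 8880, nat_lit 13104, R4_226, R4_185, R4_273⟩]⟩]⟩,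
 ⟨nat_lit 6, [⟨nat_lit 0, [⟨nat_lit 2, nat_lit 5232, nat_lit 2976, nat_lit 960, nat_lit 3456, nat_lit 1680, R7_20, R1_72, R4_35⟩, ⟨nat_lit 6, nat_lit 7584, nat_lit 4272, nat_lit 1536, nat_lit 4512, nat_lit 1776, R7_32, R11_94, R7_37⟩]⟩, ⟨nat_lit 2, [⟨nat_lit 6, nat_lit 7632, nat_lit 12048, nat_lit 21888, nat_lit 4560, nat_lit 8544, R14_456, R11_95, R14_178⟩]⟩]⟩,
 ⟨nat_lit 7, [⟨nat_lit 6, [⟨nat_lit 4, nat_lit 7152, nat_lit 14592, nat_lit 13200, nat_lit 15264, nat_lit 13248, R5_275, R3_318, R4_276⟩, ⟨nat_lit 7, nat_lit 8544, nat_lit 14880, nat_lit 13344, nat_lit 2928, nat_lit 16224, R5_278, R10_61, R5_338⟩]⟩]⟩], [⟨nat_lit 2, [⟨nat_lit 0, [⟨nat_lit 2, nat_lit 4752, nat_lit 4320, nat_lit 7296, nat_lit 4320, nat_lit 4464, R4_152, R10_90, R3_93⟩]⟩, ⟨nat_lit 3, [⟨nat_lit 2, nat_lit 4800, nat_lit 12672, nat_lit 12528,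 nat_lit 4368, nat_lit 14112, R5_261, R10_91, R0_294⟩]⟩]⟩,
 ⟨nat_lit 4, [⟨nat_lit 2, [⟨nat_lit 6, nat_lit 7440, nat_lit 13728, nat_lit 11712, nat_lit 15120, nat_lit 7104, R7_244, R5_315, R12_148⟩]⟩]⟩,
 ⟨nat_lit 6, [⟨nat_lit 0, [⟨nat_lit 2, nat_lit 5376, nat_lit 3216, nat_lit 6960, nat_lit 3648, nat_lit 12576, R7_145, R1_76, R3_262⟩, ⟨nat_lit 6, nat_lit 7776, nat_lit 3120, nat_lit 7536, nat_lit 5712, nat_lit 336, R7_157, R11_119, R2_7⟩]⟩, ⟨nat_lit 2, [⟨nat_lit 6, nat_lit 7824, nat_lit 14256, nat_lit 22416, nat_lit 5760, nat_lit 7152, R14_467, R11_120, R12_149⟩]⟩]⟩]]], [[], [[], [], [⟨nat_lit 5, [⟨nat_lit 2, [⟨nat_lit 5, nat_lit 19440, nat_lit 11472, nat_lit 15552, nat_lit 15792, nat_lit 11376, R1_324, R1_329, R1_237⟩]⟩, ⟨nat_lit 6, [⟨nat_lit 5, nat_lit 19392, nat_lit 11520, nat_lit 18960, nat_lit 15744, nat_lit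 5088, R10_395, R1_328, R10_106⟩]⟩]⟩]], [], [], [], [[⟨nat_lit 4, [⟨nat_lit 2, [⟨nat_lit 4, nat_lit 8880, nat_lit 12960, nat_lit 6384, nat_lit 13248, nat_lit 16944, R2_133, R8_276, R7_353⟩, ⟨nat_lit 6, nat_lit 10464, nat_lit 14016, nat_lit 6576, nat_lit 5808, nat_lit 11280, R2_137, R9_121, R14_235⟩]⟩, ⟨nat_lit 6, [⟨nat_lit 4, nat_lit 8832, nat_lit 13248, nat_lit 2400, nat_lit 5616, nat_lit 14688, R3_50, R8_117, R4_306⟩]⟩]⟩,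
 ⟨nat_lit 5, [⟨nat_lit 2, [⟨nat_lit 4, nat_lit 9312, nat_lit 13008, nat_lit 5088, nat_lit 16272, nat_lit 17184, R1_106, R5_339, R7_358⟩, ⟨nat_lit 6, nat_lit 10848, nat_lit 14064, nat_lit 5280, nat_lit 3648, nat_lit 11376, R1_110, R0_76, R14_237⟩]⟩, ⟨nat_lit 6, [⟨nat_lit 4, nat_lit 9264, nat_lit 13344, nat_lit 5712, nat_lit 16224, nat_lit 14880, R10_119, R5_338, R4_310⟩]⟩]⟩,
 ⟨nat_lit 6, [⟨nat_lit 2, [⟨nat_lit 6, nat_lit 11088, nat_lit 14112, nat_lit 16032, nat_lit 13488, nat_lit 11328, R12_334, R0_281, R14_236⟩]⟩]⟩,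
 ⟨nat_lit 7, [⟨nat_lit 6, [⟨nat_lit 4, nat_lit 9504, nat_lit 13296, nat_lit 6960, nat_lit 15456, nat_lit 14832, R0_145, R9_322, R4_309⟩, ⟨nat_lit 7, nat_lit 11856, nat_lit 13536, nat_lit 7056, nat_lit 7584, nat_lit 17712, R0_147, R0_158, R5_369⟩]⟩]⟩], [⟨nat_lit 4, [⟨nat_lit 2, [⟨nat_lit 6, nat_lit 10752, nat_lit 1632, nat_lit 6672, nat_lit 6000, nat_lit 9408, R2_139, R9_125, R12_196⟩]⟩]⟩,
 ⟨nat_lit 5, [⟨nat_lit 2, [⟨nat_lit 6, nat_lit 10944, nat_lit 6672, nat_lit 5376, nat_lit 3840, nat_lit 9504, R1_112, R0_80, R12_198⟩]⟩]⟩,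
 ⟨nat_lit 6, [⟨nat_lit 2, [⟨nat_lit 6, nat_lit 11472, nat_lit 11088, nat_lit 16800, nat_lit 13632, nat_lit 9456, R12_350, R0_284, R12_197⟩]⟩]⟩], [⟨nat_lit 4, [⟨nat_lit 2, [⟨nat_lit 4, nat_lit 9120, nat_lit 2928, nat_lit 6432, nat_lit 13296, nat_lit 15168, R2_134, R8_277, R2_316⟩, ⟨nat_lit 5, nat_lit 10032, nat_lit 2976, nat_lit 7008, nat_lit 5952, nat_lit 16176, R2_146, R5_124, R1_337⟩, ⟨nat_lit 6, nat_lit 10608, nat_lit 3072, nat_lit 6816, nat_lit 5904, nat_lit 5568, R2_142, R9_123, R12_116⟩]⟩, ⟨nat_lit 6, [⟨nat_lit 4, nat_lit 9072, nat_lit 3936, nat_lit 2496, nat_lit 5664, nat_lit 3312, R3_52, R8_118, R3_69⟩, ⟨nat_lit 5, nat_lit 9984, nat_lit 4080, nat_lit 10128, nat_lit 5808, nat_lit 4704, R3_211, R5_121, R10_98⟩]⟩]⟩,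
 ⟨nat_lit 5, [⟨nat_lit 2, [⟨nat_lit 4, nat_lit 9408, nat_lit 9168, nat_lit 5136, nat_lit 16608, nat_lit 15456, R1_107, R5_346, R2_322⟩, ⟨nat_lit 5, nat_lit 10176, nat_lit 9216, nat_lit 5712, nat_lit 21552, nat_lit 16464, R1_119, R11_449, R1_343⟩, ⟨nat_lit 6, nat_lit 10896, nat_lit 9312, nat_lit 5520, nat_lit 3744, nat_lit 5664, R1_115, R0_78, R12_118⟩]⟩, ⟨nat_lit 6, [⟨nat_lit 4, nat_lit 9360, nat_lit 9936, nat_lit 5904, nat_lit 16512, nat_lit 10512, R10_123, R5_344, R3_219⟩, ⟨nat_lit 5, nat_lit 10128, nat_lit 10080, nat_lit 6624, nat_lit 21456, nat_lit 5136, R10_138, R11_447, R10_107⟩]⟩]⟩,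
 ⟨nat_lit 6, [⟨nat_lit 2, [⟨nat_lit 6, nat_lit 11280, nat_lit 17280, nat_lit 17328, nat_lit 13536, nat_lit 5616, R12_361, R0_282, R12_117⟩]⟩]⟩,
 ⟨nat_lit 7, [⟨nat_lit 6, [⟨nat_lit 4, nat_lit 9696, nat_lit 15264, nat_lit 7008, nat_lit 15744, nat_lit 9408, R0_146, R9_328, R3_196⟩, ⟨nat_lit 5, nat_lit 10272, nat_lit 15504, nat_lit 7152, nat_lit 14208, nat_lit 4992, R0_149, R0_296, R10_104⟩, ⟨nat_lit 7, nat_lit 12000, nat_lit 15360, nat_lit 7104, nat_lit 8784, nat_lit 3408, R0_148, R0_183, R0_71⟩]⟩]⟩]]], [[], [], [], [], [[], [⟨nat_lit 6, [⟨nat_lit 0, [⟨nat_lit 6, nat_lit 1680, nat_lit 7728, nat_lit 5568, nat_lit 7008, nat_lit 6000, R2_116, R5_146, R2_125⟩]⟩, ⟨nat_lit 1, [⟨nat_lit 6, nat_lit 1776, nat_lit 7776, nat_lit 4272, nat_lit 7104, nat_lit 4704, R1_89, R5_148, R1_98⟩]⟩, ⟨nat_lit 2, [⟨nat_lit 6, nat_lit 1728,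 nat_lit 7824, nat_lit 15936, nat_lit 7056, nat_lit 7824, R12_332, R5_147, R12_163⟩]⟩]⟩]], [[], [⟨nat_lit 6, [⟨nat_lit 0, [⟨nat_lit 6, nat_lit 11520, nat_lit 1776, nat_lit 5712, nat_lit 11472, nat_lit 6144, R2_119, R0_239, R2_128⟩]⟩, ⟨nat_lit 1, [⟨nat_lit 6, nat_lit 11616, nat_lit 6816, nat_lit 4416, nat_lit 14352, nat_lit 4848, R1_92, R0_299, R1_101⟩]⟩, ⟨nat_lit 2, [⟨nat_lit 6, nat_lit 11568, nat_lit 11232, nat_lit 16656, nat_lit 13824, nat_lit 7968, R12_347, R0_288, R12_166⟩]⟩]⟩]], [[], [⟨nat_lit 2, [⟨nat_lit 0, [⟨nat_lit 2, nat_lit 4848, nat_lit 10224, nat_lit 6000, nat_lit 4464, nat_lit 5040, R3_125, R10_93, R3_105⟩]⟩, ⟨nat_lit 1, [⟨nat_lit 2, nat_lit 4896, nat_lit 10320, nat_lit 12672, nat_lit 4560, nat_lit 4896, R10_264, R10_95, R10_102⟩]⟩, ⟨nat_lit 3, [⟨nat_lit 2, nat_lit 4944, nat_lit 10272, nat_lit 10272,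 nat_lit 4512, nat_lit 14160, R0_214, R10_94, R0_295⟩]⟩]⟩,
 ⟨nat_lit 6, [⟨nat_lit 0, [⟨nat_lit 2, nat_lit 5424, nat_lit 9408, nat_lit 5136, nat_lit 3792, nat_lit 13344, R2_107, R1_79, R3_278⟩, ⟨nat_lit 6, nat_lit 7872, nat_lit 7344, nat_lit 5760, nat_lit 6624, nat_lit 6048, R2_120, R11_138, R2_126⟩]⟩, ⟨nat_lit 1, [⟨nat_lit 2, nat_lit 5472, nat_lit 9456, nat_lit 3840, nat_lit 3840, nat_lit 5472, R1_80, R1_80, R10_114⟩, ⟨nat_lit 6, nat_lit 7968, nat_lit 7392, nat_lit 4464, nat_lit 6720, nat_lit 4752, R1_93, R11_140, R1_99⟩]⟩, ⟨nat_lit 2, [⟨nat_lit 6, nat_lit 7920, nat_lit 7440, nat_lit 17232, nat_lit 6672, nat_lit 7872, R12_359, R11_139, R12_164⟩]⟩]⟩], [], [], [], [⟨nat_lit 2, [⟨nat_lit 1, [⟨nat_lit 2, nat_lit 4272, nat_lit 7920, nat_lit 12720, nat_lit 5040, nat_lit 15696, R10_265, R10_105, R1_327⟩]⟩]⟩,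
 ⟨nat_lit 6, [⟨nat_lit 1, [⟨nat_lit 2, nat_lit 5184, nat_lit 7872, nat_lit 15504, nat_lit 3888, nat_lit 15648, R1_323, R1_81, R1_326⟩]⟩]⟩]]], [[], [], [], [], [[⟨nat_lit 3, [⟨nat_lit 6, [⟨nat_lit 7, nat_lit 2256, nat_lit 8352, nat_lit 6672, nat_lit 3504, nat_lit 14592, R1_139, R2_73, R5_304⟩]⟩]⟩,
 ⟨nat_lit 4, [⟨nat_lit 2, [⟨nat_lit 4, nat_lit 96, nat_lit 4944, nat_lit 912, nat_lit 4992, nat_lit 13536, R2_19, R6_104, R7_282⟩, ⟨nat_lit 6, nat_lit 1008, nat_lit 8784, nat_lit 2448, nat_lit 7104, nat_lit 9600, R2_51, R8_148, R14_200⟩]⟩]⟩,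
 ⟨nat_lit 6, [⟨nat_lit 0, [⟨nat_lit 6, nat_lit 1392, nat_lit 9696, nat_lit 192, nat_lit 4896, nat_lit 8352, R2_4, R5_102, R7_174⟩]⟩, ⟨nat_lit 2, [⟨nat_lit 6, nat_lit 1440, nat_lit 9744, nat_lit 528, nat_lit 4944, nat_lit 9696, R12_11, R5_103, R14_202⟩]⟩]⟩,
 ⟨nat_lit 7, [⟨nat_lit 2, [⟨nat_lit 4, nat_lit 432, nat_lit 5952, nat_lit 240, nat_lit 5136, nat_lit 13632, R1_5, R13_107, R7_284⟩, ⟨nat_lit 6, nat_lit 2064, nat_lit 9456, nat_lit 1920, nat_lit 4080, nat_lit 9648, R1_40, R9_85, R14_201⟩]⟩, ⟨nat_lit 6, [⟨nat_lit 4, nat_lit 384, nat_lit 6000, nat_lit 720, nat_lit 5088, nat_lit 12336, R11_15, R13_106, R4_257⟩, ⟨nat_lit 7, nat_lit 2496, nat_lit 7632, nat_lit 1008, nat_lit 4032, nat_lit 14736, R11_21, R3_84, R5_307⟩]⟩]⟩], [⟨nat_lit 4, [⟨nat_lit 2, [⟨nat_lit 6, nat_lit 1200, nat_lit 6480, nat_lit 2592, nat_lit 7344,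 nat_lit 8496, R2_54, R8_153, R12_177⟩]⟩]⟩,
 ⟨nat_lit 6, [⟨nat_lit 0, [⟨nat_lit 6, nat_lit 1824, nat_lit 7632, nat_lit 7200, nat_lit 6624, nat_lit 7296, R2_150, R5_138, R2_152⟩]⟩, ⟨nat_lit 2, [⟨nat_lit 6, nat_lit 1872, nat_lit 7680, nat_lit 1728, nat_lit 6672, nat_lit 8592, R12_36, R5_139, R12_179⟩]⟩]⟩,
 ⟨nat_lit 7, [⟨nat_lit 2, [⟨nat_lit 6, nat_lit 2160, nat_lit 7344, nat_lit 2064, nat_lit 6576, nat_lit 8544, R1_43, R9_137, R12_178⟩]⟩]⟩], [⟨nat_lit 3, [⟨nat_lit 6, [⟨nat_lit 7, nat_lit 2304, nat_lit 6960, nat_lit 7680, nat_lit 4368, nat_lit 3120, R1_160, R2_91, R0_65⟩]⟩]⟩,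
 ⟨nat_lit 4, [⟨nat_lit 2, [⟨nat_lit 4, nat_lit 240, nat_lit 3696, nat_lit 1056, nat_lit 6720, nat_lit 12240, R2_22, R6_140, R2_255⟩, ⟨nat_lit 5, nat_lit 768, nat_lit 4848, nat_lit 3072, nat_lit 7008, nat_lit 12816, R2_64, R4_146, R1_267⟩, ⟨nat_lit 6, nat_lit 1104, nat_lit 7104, nat_lit 2880, nat_lit 7248, nat_lit 3264, R2_60, R8_151, R12_68⟩]⟩]⟩,
 ⟨nat_lit 7, [⟨nat_lit 2, [⟨nat_lit 4, nat_lit 576, nat_lit 4224, nat_lit 384, nat_lit 6720, nat_lit 12384, R1_8, R13_140, R2_258⟩, ⟨nat_lit 5, nat_lit 912, nat_lit 5952, nat_lit 2544, nat_lit 5088, nat_lit 12960, R1_53, R3_106, R1_270⟩, ⟨nat_lit 6, nat_lit 2112, nat_lit 7488, nat_lit 2352, nat_lit 4992, nat_lit 3312, R1_49, R9_104, R12_69⟩]⟩, ⟨nat_lit 6, [⟨nat_lit 4, nat_lit 528, nat_lit 4272, nat_lit 3552, nat_lit 6672, nat_lit 8928, R11_74, R13_139, R3_186⟩, ⟨nat_lit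 5, nat_lit 864, nat_lit 6000, nat_lit 4320, nat_lit 5040, nat_lit 4848, R11_90, R3_105, R10_101⟩, ⟨nat_lit 7, nat_lit 2592, nat_lit 6336, nat_lit 3792, nat_lit 6288, nat_lit 3312, R11_79, R3_131, R0_69⟩]⟩]⟩], [⟨nat_lit 3, [⟨nat_lit 6, [⟨nat_lit 7, nat_lit 2400, nat_lit 13536, nat_lit 7200, nat_lit 4896, nat_lit 5280, R1_150, R2_102, R11_110⟩]⟩]⟩,
 ⟨nat_lit 4, [⟨nat_lit 2, [⟨nat_lit 4, nat_lit 288, nat_lit 576, nat_lit 960, nat_lit 6336, nat_lit 11952, R2_20, R6_132, R2_249⟩, ⟨nat_lit 6, nat_lit 1248, nat_lit 2688, nat_lit 2496, nat_lit 7152, nat_lit 3216, R2_52, R8_149, R12_67⟩]⟩]⟩,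
 ⟨nat_lit 6, [⟨nat_lit 0, [⟨nat_lit 6, nat_lit 1920, nat_lit 9888, nat_lit 5904, nat_lit 5520, nat_lit 5328, R2_123, R5_115, R2_111⟩]⟩, ⟨nat_lit 2, [⟨nat_lit 6, nat_lit 1968, nat_lit 10224, nat_lit 672, nat_lit 5616, nat_lit 3552, R12_14, R5_117, R12_74⟩]⟩, ⟨nat_lit 3, [⟨nat_lit 6, nat_lit 2016, nat_lit 10032, nat_lit 4608, nat_lit 5568, nat_lit 4032, R1_96, R5_116, R1_84⟩]⟩]⟩,
 ⟨nat_lit 7, [⟨nat_lit 2, [⟨nat_lit 4, nat_lit 624, nat_lit 4176, nat_lit 288, nat_lit 7104, nat_lit 12432, R1_6, R13_148, R2_259⟩, ⟨nat_lit 6, nat_lit 2208, nat_lit 7440, nat_lit 1968, nat_lit 5232, nat_lit 3456, R1_41, R9_109, R12_72⟩, ⟨nat_lit 7, nat_lit 2688, nat_lit 5904, nat_lit 528, nat_lit 5136, nat_lit 13008, R1_11, R3_107, R1_271⟩]⟩, ⟨nat_lit 6, [⟨nat_lit 7, nat_lit 2640, nat_lit 5424, nat_lit 1728, nat_lit 5760, nat_lit 5376,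 R11_36, R3_120, R11_112⟩]⟩]⟩]], [[⟨nat_lit 4, [⟨nat_lit 2, [⟨nat_lit 4, nat_lit 8928, nat_lit 11184, nat_lit 8016, nat_lit 13104, nat_lit 16848, R2_167, R8_273, R7_351⟩, ⟨nat_lit 6, nat_lit 10512, nat_lit 12720, nat_lit 10080, nat_lit 7776, nat_lit 10752, R2_210, R9_162, R14_224⟩]⟩]⟩,
 ⟨nat_lit 6, [⟨nat_lit 0, [⟨nat_lit 6, nat_lit 11136, nat_lit 12096, nat_lit 480, nat_lit 11376, nat_lit 8496, R2_10, R0_237, R7_177⟩]⟩, ⟨nat_lit 2, [⟨nat_lit 6, nat_lit 11184, nat_lit 12768, nat_lit 7728, nat_lit 13152, nat_lit 10800, R12_161, R0_274, R14_225⟩]⟩]⟩,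
 ⟨nat_lit 7, [⟨nat_lit 2, [⟨nat_lit 4, nat_lit 9600, nat_lit 11232, nat_lit 8544, nat_lit 15504, nat_lit 16992, R1_178, R9_323, R7_354⟩]⟩, ⟨nat_lit 6, [⟨nat_lit 4, nat_lit 9552, nat_lit 11424, nat_lit 11952, nat_lit 15408, nat_lit 14784, R11_249, R9_321, R4_308⟩, ⟨nat_lit 7, nat_lit 11904, nat_lit 11568, nat_lit 12336, nat_lit 7536, nat_lit 17376, R11_257, R0_157, R5_362⟩]⟩]⟩], [], [⟨nat_lit 4, [⟨nat_lit 2, [⟨nat_lit 4, nat_lit 9168, nat_lit 9696, nat_lit 8112, nat_lit 13200, nat_lit 15072, R2_169, R8_275, R2_314⟩, ⟨nat_lit 5, nat_lit 10080, nat_lit 10176, nat_lit 10272, nat_lit 7872, nat_lit 16080, R2_214, R5_164, R1_335⟩, ⟨nat_lit 6, nat_lit 10656, nat_lit 10896, nat_lit 10224, nat_lit 7920, nat_lit 4896, R2_213, R9_165, R12_102⟩]⟩]⟩,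
 ⟨nat_lit 7, [⟨nat_lit 2, [⟨nat_lit 4, nat_lit 9792, nat_lit 9744, nat_lit 8640, nat_lit 15792, nat_lit 15216, R1_180, R9_329, R2_317⟩, ⟨nat_lit 5, nat_lit 10368, nat_lit 10224, nat_lit 10848, nat_lit 14256, nat_lit 16224, R1_226, R0_297, R1_338⟩]⟩, ⟨nat_lit 6, [⟨nat_lit 4, nat_lit 9744, nat_lit 9936, nat_lit 14736, nat_lit 15696, nat_lit 9360, R11_307, R9_327, R3_195⟩, ⟨nat_lit 5, nat_lit 10320, nat_lit 10272, nat_lit 15648, nat_lit 14160, nat_lit 4944, R11_326, R0_295, R10_103⟩, ⟨nat_lit 7, nat_lit 12048, nat_lit 10368, nat_lit 15120, nat_lit 8736, nat_lit 3360, R11_315, R0_182, R0_70⟩]⟩]⟩], [⟨nat_lit 4, [⟨nat_lit 2, [⟨nat_lit 4, nat_lit 9216, nat_lit 9360, nat_lit 8064, nat_lit 13152, nat_lit 14688, R2_168, R8_274, R2_306⟩, ⟨nat_lit 6, nat_lit 10800, nat_lit 10560, nat_lit 10128, nat_lit 7824, nat_lit 4800,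 R2_211, R9_163, R12_100⟩]⟩]⟩,
 ⟨nat_lit 6, [⟨nat_lit 0, [⟨nat_lit 6, nat_lit 11664, nat_lit 1728, nat_lit 6192, nat_lit 11424, nat_lit 5664, R2_129, R0_238, R2_118⟩]⟩, ⟨nat_lit 2, [⟨nat_lit 6, nat_lit 11712, nat_lit 11184, nat_lit 8016, nat_lit 13200, nat_lit 5136, R12_167, R0_275, R12_107⟩]⟩, ⟨nat_lit 3, [⟨nat_lit 6, nat_lit 11760, nat_lit 6768, nat_lit 4896, nat_lit 14016, nat_lit 4368, R1_102, R0_292, R1_91⟩]⟩]⟩,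
 ⟨nat_lit 7, [⟨nat_lit 2, [⟨nat_lit 4, nat_lit 9840, nat_lit 9600, nat_lit 8592, nat_lit 15888, nat_lit 15264, R1_179, R9_331, R2_318⟩, ⟨nat_lit 7, nat_lit 12144, nat_lit 10080, nat_lit 8928, nat_lit 14304, nat_lit 16272, R1_186, R0_298, R1_339⟩]⟩, ⟨nat_lit 6, [⟨nat_lit 7, nat_lit 12096, nat_lit 15216, nat_lit 13392, nat_lit 8112, nat_lit 5472, R11_279, R0_169, R11_114⟩]⟩]⟩]], [[⟨nat_lit 2, [⟨nat_lit 3, [⟨nat_lit 2, nat_lit 4704, nat_lit 10128, nat_lit 16560, nat_lit 4128, nat_lit 5808, R11_345, R10_86, R5_121⟩]⟩]⟩,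
 ⟨nat_lit 3, [⟨nat_lit 6, [⟨nat_lit 7, nat_lit 8400, nat_lit 10560, nat_lit 6768, nat_lit 2976, nat_lit 16464, R1_141, R1_62, R5_343⟩]⟩]⟩,
 ⟨nat_lit 4, [⟨nat_lit 2, [⟨nat_lit 4, nat_lit 7056, nat_lit 10368, nat_lit 10800, nat_lit 13632, nat_lit 14352, R2_225, R4_284, R7_299⟩, ⟨nat_lit 6, nat_lit 7392, nat_lit 10896, nat_lit 11136, nat_lit 15456, nat_lit 9840, R2_232, R5_322, R14_205⟩]⟩]⟩,
 ⟨nat_lit 6, [⟨nat_lit 0, [⟨nat_lit 2, nat_lit 5280, nat_lit 9792, nat_lit 2352, nat_lit 3504, nat_lit 8400, R2_49, R1_73, R4_175⟩, ⟨nat_lit 6, nat_lit 7680, nat_lit 10752, nat_lit 624, nat_lit 4896, nat_lit 8400, R2_13, R11_102, R7_175⟩]⟩, ⟨nat_lit 2, [⟨nat_lit 6, nat_lit 7728, nat_lit 10992, nat_lit 10512, nat_lit 4944, nat_lit 9936, R12_219, R11_103, R14_207⟩]⟩, ⟨nat_lit 3, [⟨nat_lit 2, nat_lit 5328, nat_lit 10080, nat_lit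 1824, nat_lit 3552, nat_lit 5712, R1_38, R1_74, R5_119⟩]⟩]⟩,
 ⟨nat_lit 7, [⟨nat_lit 2, [⟨nat_lit 4, nat_lit 7248, nat_lit 10416, nat_lit 11184, nat_lit 15408, nat_lit 14496, R1_233, R3_321, R7_302⟩, ⟨nat_lit 6, nat_lit 8256, nat_lit 10944, nat_lit 11712, nat_lit 2544, nat_lit 9888, R1_244, R0_53, R14_206⟩]⟩, ⟨nat_lit 6, [⟨nat_lit 4, nat_lit 7200, nat_lit 10464, nat_lit 16128, nat_lit 15312, nat_lit 13296, R11_336, R3_319, R4_277⟩, ⟨nat_lit 7, nat_lit 8592, nat_lit 10512, nat_lit 16272, nat_lit 3600, nat_lit 16512, R11_339, R10_75, R5_344⟩]⟩]⟩], [⟨nat_lit 2, [⟨nat_lit 3, [⟨nat_lit 2, nat_lit 4992, nat_lit 7152, nat_lit 16608, nat_lit 4416, nat_lit 14208, R11_346, R10_92, R0_296⟩]⟩]⟩,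
 ⟨nat_lit 4, [⟨nat_lit 2, [⟨nat_lit 6, nat_lit 7488, nat_lit 4320, nat_lit 11328, nat_lit 15696, nat_lit 8736, R2_236, R5_327, R12_182⟩]⟩]⟩,
 ⟨nat_lit 6, [⟨nat_lit 0, [⟨nat_lit 2, nat_lit 5520, nat_lit 6864, nat_lit 9984, nat_lit 3696, nat_lit 12960, R2_208, R1_77, R3_270⟩, ⟨nat_lit 6, nat_lit 8016, nat_lit 5472, nat_lit 7392, nat_lit 6240, nat_lit 7344, R2_154, R11_130, R2_153⟩]⟩, ⟨nat_lit 2, [⟨nat_lit 6, nat_lit 8064, nat_lit 5520, nat_lit 11424, nat_lit 6288, nat_lit 8832, R12_238, R11_131, R12_184⟩]⟩, ⟨nat_lit 3, [⟨nat_lit 2, nat_lit 5568, nat_lit 6912, nat_lit 10800, nat_lit 3744, nat_lit 14064, R1_225, R1_78, R0_293⟩]⟩]⟩,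
 ⟨nat_lit 7, [⟨nat_lit 2, [⟨nat_lit 6, nat_lit 8304, nat_lit 5184, nat_lit 11904, nat_lit 4416, nat_lit 8784, R1_248, R0_92, R12_183⟩]⟩]⟩], [], [⟨nat_lit 0, [⟨nat_lit 7, [⟨nat_lit 0, nat_lit 3408, nat_lit 7104, nat_lit 10896, nat_lit 13824, nat_lit 13968, R2_227, R4_288, R2_291⟩, ⟨nat_lit 3, nat_lit 6144, nat_lit 7536, nat_lit 11232, nat_lit 15552, nat_lit 3648, R2_234, R5_324, R12_76⟩]⟩]⟩,
 ⟨nat_lit 2, [⟨nat_lit 3, [⟨nat_lit 2, nat_lit 5136, nat_lit 8640, nat_lit 16656, nat_lit 4176, nat_lit 5424, R11_347, R10_87, R11_113⟩]⟩, ⟨nat_lit 7, [⟨nat_lit 0, nat_lit 3984, nat_lit 7296, nat_lit 11280, nat_lit 15744, nat_lit 14208, R1_235, R3_328, R2_296⟩, ⟨nat_lit 2, nat_lit 5088, nat_lit 8688, nat_lit 11520, nat_lit 4224, nat_lit 15744, R1_240, R10_88, R1_328⟩, ⟨nat_lit 3, nat_lit 6528, nat_lit 8352, nat_lit 11808,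 nat_lit 3072, nat_lit 3744, R1_246, R0_64, R12_78⟩]⟩]⟩,
 ⟨nat_lit 3, [⟨nat_lit 4, [⟨nat_lit 3, nat_lit 6816, nat_lit 8112, nat_lit 6336, nat_lit 5136, nat_lit 5376, R2_132, R11_107, R2_112⟩]⟩, ⟨nat_lit 6, [⟨nat_lit 3, nat_lit 6864, nat_lit 8208, nat_lit 5040, nat_lit 5184, nat_lit 4080, R1_105, R11_108, R1_85⟩, ⟨nat_lit 7, nat_lit 8496, nat_lit 5616, nat_lit 7248, nat_lit 3600, nat_lit 5328, R1_151, R1_75, R11_111⟩]⟩, ⟨nat_lit 7, [⟨nat_lit 3, nat_lit 6912, nat_lit 8160, nat_lit 10896, nat_lit 5232, nat_lit 3792, R12_227, R11_109, R12_79⟩]⟩]⟩,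
 ⟨nat_lit 4, [⟨nat_lit 2, [⟨nat_lit 4, nat_lit 7104, nat_lit 3408, nat_lit 10896, nat_lit 13824, nat_lit 13968, R2_227, R4_288, R2_291⟩, ⟨nat_lit 6, nat_lit 7536, nat_lit 6144, nat_lit 11232, nat_lit 15552, nat_lit 3648, R2_234, R5_324, R12_76⟩]⟩]⟩,
 ⟨nat_lit 6, [⟨nat_lit 0, [⟨nat_lit 6, nat_lit 8112, nat_lit 6816, nat_lit 6336, nat_lit 5136, nat_lit 5376, R2_132, R11_107, R2_112⟩]⟩, ⟨nat_lit 2, [⟨nat_lit 6, nat_lit 8160, nat_lit 6912, nat_lit 10896, nat_lit 5232, nat_lit 3792, R12_227, R11_109, R12_79⟩]⟩, ⟨nat_lit 3, [⟨nat_lit 2, nat_lit 5616, nat_lit 8496, nat_lit 7248, nat_lit 3600, nat_lit 5328, R1_151, R1_75, R11_111⟩, ⟨nat_lit 6, nat_lit 8208, nat_lit 6864, nat_lit 5040, nat_lit 5184, nat_lit 4080, R1_105, R11_108, R1_85⟩]⟩]⟩,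
 ⟨nat_lit 7, [⟨nat_lit 2, [⟨nat_lit 4, nat_lit 7296, nat_lit 3984, nat_lit 11280, nat_lit 15744, nat_lit 14208, R1_235, R3_328, R2_296⟩, ⟨nat_lit 6, nat_lit 8352, nat_lit 6528, nat_lit 11808, nat_lit 3072, nat_lit 3744, R1_246, R0_64, R12_78⟩, ⟨nat_lit 7, nat_lit 8688, nat_lit 5088, nat_lit 11520, nat_lit 4224, nat_lit 15744, R1_240, R10_88, R1_328⟩]⟩, ⟨nat_lit 6, [⟨nat_lit 7, nat_lit 8640, nat_lit 5136, nat_lit 16656, nat_lit 4176, nat_lit 5424, R11_347, R10_87, R11_113⟩]⟩]⟩]], [[⟨nat_lit 3, [⟨nat_lit 6, [⟨nat_lit 4, nat_lit 12240, nat_lit 16704, nat_lit 5904, nat_lit 13920, nat_lit 13776, R1_123, R2_290, R4_287⟩, ⟨nat_lit 7, nat_lit 12960, nat_lit 17232, nat_lit 6720, nat_lit 3600, nat_lit 16128, R1_140, R12_75, R5_336⟩]⟩]⟩,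
 ⟨nat_lit 7, [⟨nat_lit 2, [⟨nat_lit 4, nat_lit 12432, nat_lit 10320, nat_lit 5952, nat_lit 15456, nat_lit 14976, R1_124, R3_322, R7_312⟩, ⟨nat_lit 6, nat_lit 12768, nat_lit 10848, nat_lit 7344, nat_lit 2640, nat_lit 10176, R1_153, R0_55, R14_212⟩]⟩, ⟨nat_lit 6, [⟨nat_lit 4, nat_lit 12384, nat_lit 16800, nat_lit 8064, nat_lit 8640, nat_lit 13728, R11_168, R3_180, R4_286⟩]⟩]⟩], [⟨nat_lit 7, [⟨nat_lit 2, [⟨nat_lit 6, nat_lit 12864, nat_lit 5136, nat_lit 7440, nat_lit 4512, nat_lit 9072, R1_155, R0_94, R12_189⟩]⟩]⟩], [⟨nat_lit 3, [⟨nat_lit 6, [⟨nat_lit 4, nat_lit 12336, nat_lit 12528, nat_lit 6048, nat_lit 14160, nat_lit 15792, R1_126, R2_295, R3_329⟩, ⟨nat_lit 5, nat_lit 12624, nat_lit 12720, nat_lit 7920, nat_lit 15696, nat_lit 4272, R1_165, R1_327, R10_89⟩, ⟨nat_lit 7, nat_lit 13056, nat_lit 12816, nat_lit 7728,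 nat_lit 3696, nat_lit 3168, R1_161, R12_77, R0_66⟩]⟩]⟩,
 ⟨nat_lit 7, [⟨nat_lit 2, [⟨nat_lit 4, nat_lit 12528, nat_lit 12336, nat_lit 6048, nat_lit 15792, nat_lit 14160, R1_126, R3_329, R2_295⟩, ⟨nat_lit 5, nat_lit 12720, nat_lit 12624, nat_lit 7920, nat_lit 19344, nat_lit 15696, R1_165, R10_403, R1_327⟩, ⟨nat_lit 6, nat_lit 12816, nat_lit 13056, nat_lit 7728, nat_lit 3168, nat_lit 3696, R1_161, R0_66, R12_77⟩]⟩, ⟨nat_lit 6, [⟨nat_lit 4, nat_lit 12480, nat_lit 12480, nat_lit 9792, nat_lit 9072, nat_lit 9072, R11_204, R3_189, R3_189⟩, ⟨nat_lit 5, nat_lit 12672, nat_lit 12672, nat_lit 10320, nat_lit 19248, nat_lit 4896, R11_215, R10_401, R10_102⟩]⟩]⟩]]]]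
noncomputable def N6001 : T3 (List N0) := [[[[], [⟨nat_lit 0, [⟨nat_lit 2, [⟨nat_lit 2, nat_lit 13296, nat_lit 2832, nat_lit 13728, nat_lit 10656, nat_lit 14352, R6_286, R6_222, R10_299⟩]⟩]⟩,
 ⟨nat_lit 2, [⟨nat_lit 2, [⟨nat_lit 2, nat_lit 14640, nat_lit 12288, nat_lit 13488, nat_lit 11520, nat_lit 14400, R4_281, R4_240, R10_300⟩, ⟨nat_lit 6, nat_lit 14688, nat_lit 12240, nat_lit 13536, nat_lit 12048, nat_lit 13056, R4_282, R7_251, R1_272⟩]⟩, ⟨nat_lit 6, [⟨nat_lit 6, nat_lit 14880, nat_lit 12096, nat_lit 14880, nat_lit 12096, nat_lit 18336, R7_310, R7_252, R11_382⟩]⟩]⟩,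
 ⟨nat_lit 3, [⟨nat_lit 0, [⟨nat_lit 0, nat_lit 15504, nat_lit 8640, nat_lit 12192, nat_lit 11136, nat_lit 8640, R6_254, R6_232, R4_180⟩, ⟨nat_lit 2, nat_lit 15600, nat_lit 8688, nat_lit 12240, nat_lit 10416, nat_lit 11040, R6_255, R8_217, R3_230⟩]⟩, ⟨nat_lit 2, [⟨nat_lit 2, nat_lit 16080, nat_lit 8976, nat_lit 14400, nat_lit 10464, nat_lit 14448, R8_300, R8_218, R10_301⟩]⟩, ⟨nat_lit 3, [⟨nat_lit 0, nat_lit 16272, nat_lit 8784, nat_lit 12384, nat_lit 11184, nat_lit 4416, R4_258, R6_233, R5_92⟩, ⟨nat_lit 3, nat_lit 16416, nat_lit 8832, nat_lit 12432, nat_lit 11856, nat_lit 18288, R4_259, R4_247, R11_381⟩]⟩]⟩,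
 ⟨nat_lit 4, [⟨nat_lit 7, [⟨nat_lit 7, nat_lit 2832, nat_lit 13296, nat_lit 13728, nat_lit 10656, nat_lit 14352, R6_286, R6_222, R10_299⟩]⟩]⟩,
 ⟨nat_lit 6, [⟨nat_lit 4, [⟨nat_lit 4, nat_lit 8640, nat_lit 15504, nat_lit 12192, nat_lit 11136, nat_lit 8640, R6_254, R6_232, R4_180⟩, ⟨nat_lit 7, nat_lit 8688, nat_lit 15600, nat_lit 12240, nat_lit 10416, nat_lit 11040, R6_255, R8_217, R3_230⟩]⟩, ⟨nat_lit 6, [⟨nat_lit 4, nat_lit 8784, nat_lit 16272, nat_lit 12384, nat_lit 11184, nat_lit 4416, R4_258, R6_233, R5_92⟩, ⟨nat_lit 6, nat_lit 8832, nat_lit 16416, nat_lit 12432, nat_lit 11856, nat_lit 18288, R4_259, R4_247, R11_381⟩]⟩, ⟨nat_lit 7, [⟨nat_lit 7, nat_lit 8976, nat_lit 16080, nat_lit 14400, nat_lit 10464, nat_lit 14448, R8_300, R8_218, R10_301⟩]⟩]⟩,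
 ⟨nat_lit 7, [⟨nat_lit 3, [⟨nat_lit 3, nat_lit 12096, nat_lit 14880, nat_lit 14880, nat_lit 12096, nat_lit 18336, R7_310, R7_252, R11_382⟩]⟩, ⟨nat_lit 7, [⟨nat_lit 3, nat_lit 12240, nat_lit 14688, nat_lit 13536, nat_lit 12048, nat_lit 13056, R4_282, R7_251, R1_272⟩, ⟨nat_lit 7, nat_lit 12288, nat_lit 14640, nat_lit 13488, nat_lit 11520, nat_lit 14400, R4_281, R4_240, R10_300⟩]⟩]⟩], [], [], [], [⟨nat_lit 0, [⟨nat_lit 2, [⟨nat_lit 2, nat_lit 13248, nat_lit 3216, nat_lit 13680, nat_lit 10704, nat_lit 0, R6_285, R6_223, R1_0⟩]⟩]⟩,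
 ⟨nat_lit 2, [⟨nat_lit 2, [⟨nat_lit 2, nat_lit 14592, nat_lit 11664, nat_lit 13440, nat_lit 11568, nat_lit 5808, R4_280, R4_241, R1_121⟩]⟩]⟩,
 ⟨nat_lit 3, [⟨nat_lit 0, [⟨nat_lit 0, nat_lit 15456, nat_lit 8640, nat_lit 12720, nat_lit 10032, nat_lit 8640, R6_265, R6_209, R7_180⟩, ⟨nat_lit 2, nat_lit 15552, nat_lit 8784, nat_lit 12816, nat_lit 10560, nat_lit 7440, R6_267, R8_220, R2_155⟩, ⟨nat_lit 3, nat_lit 15648, nat_lit 8736, nat_lit 12768, nat_lit 10992, nat_lit 3120, R6_266, R4_229, R2_65⟩]⟩, ⟨nat_lit 2, [⟨nat_lit 2, nat_lit 16032, nat_lit 9120, nat_lit 14352, nat_lit 10608, nat_lit 7968, R8_299, R8_221, R1_166⟩]⟩, ⟨nat_lit 3, [⟨nat_lit 3, nat_lit 16368, nat_lit 8928, nat_lit 13056, nat_lit 11040, nat_lit 2592, R4_272, R4_230, R1_54⟩]⟩]⟩,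
 ⟨nat_lit 7, [⟨nat_lit 3, [⟨nat_lit 3, nat_lit 12048, nat_lit 13536, nat_lit 14688, nat_lit 12240, nat_lit 13056, R7_306, R7_255, R1_272⟩]⟩]⟩]], [[], [⟨nat_lit 0, [⟨nat_lit 2, [⟨nat_lit 2, nat_lit 13392, nat_lit 912, nat_lit 13824, nat_lit 13440, nat_lit 14544, R6_288, R13_280, R10_303⟩]⟩]⟩,
 ⟨nat_lit 2, [⟨nat_lit 2, [⟨nat_lit 2, nat_lit 14784, nat_lit 10800, nat_lit 13632, nat_lit 10368, nat_lit 14592, R4_284, R3_216, R10_304⟩, ⟨nat_lit 6, nat_lit 14832, nat_lit 10752, nat_lit 13680, nat_lit 10512, nat_lit 13104, R4_285, R2_219, R1_273⟩]⟩, ⟨nat_lit 6, [⟨nat_lit 6, nat_lit 14928, nat_lit 10560, nat_lit 14928, nat_lit 10560, nat_lit 18768, R7_311, R2_220, R11_391⟩]⟩]⟩,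
 ⟨nat_lit 3, [⟨nat_lit 0, [⟨nat_lit 0, nat_lit 15744, nat_lit 7440, nat_lit 12336, nat_lit 9600, nat_lit 8784, R6_257, R8_200, R4_183⟩, ⟨nat_lit 2, nat_lit 15840, nat_lit 7488, nat_lit 12384, nat_lit 10800, nat_lit 11232, R6_258, R9_225, R3_234⟩]⟩, ⟨nat_lit 2, [⟨nat_lit 2, nat_lit 16176, nat_lit 8016, nat_lit 14496, nat_lit 10848, nat_lit 14640, R8_302, R9_226, R10_305⟩]⟩, ⟨nat_lit 3, [⟨nat_lit 0, nat_lit 16464, nat_lit 7680, nat_lit 12576, nat_lit 10176, nat_lit 6000, R4_262, R8_212, R5_125⟩, ⟨nat_lit 3, nat_lit 16608, nat_lit 7728, nat_lit 12624, nat_lit 12768, nat_lit 18432, R4_263, R5_266, R11_384⟩]⟩]⟩], [], [], [], [⟨nat_lit 0, [⟨nat_lit 2, [⟨nat_lit 2, nat_lit 13344, nat_lit 15888, nat_lit 13776, nat_lit 13488, nat_lit 48, R6_287, R13_281, R1_1⟩]⟩]⟩,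
 ⟨nat_lit 2, [⟨nat_lit 2, [⟨nat_lit 2, nat_lit 14736, nat_lit 16656, nat_lit 13584, nat_lit 10272, nat_lit 5856, R4_283, R3_214, R1_122⟩]⟩]⟩,
 ⟨nat_lit 3, [⟨nat_lit 0, [⟨nat_lit 0, nat_lit 15696, nat_lit 11040, nat_lit 13008, nat_lit 11280, nat_lit 8688, R6_271, R8_235, R7_181⟩, ⟨nat_lit 2, nat_lit 15792, nat_lit 11232, nat_lit 13104, nat_lit 10944, nat_lit 7488, R6_273, R9_228, R2_156⟩, ⟨nat_lit 3, nat_lit 15888, nat_lit 11136, nat_lit 13056, nat_lit 12816, nat_lit 3168, R6_272, R5_267, R2_66⟩]⟩, ⟨nat_lit 2, [⟨nat_lit 2, nat_lit 16128, nat_lit 16224, nat_lit 14448, nat_lit 10992, nat_lit 8016, R8_301, R9_229, R1_167⟩]⟩, ⟨nat_lit 3, [⟨nat_lit 3, nat_lit 16560, nat_lit 15168, nat_lit 13152, nat_lit 12864, nat_lit 2640, R4_274, R5_268, R1_55⟩]⟩]⟩]], [], [[], [⟨nat_lit 3, [⟨nat_lit 0, [⟨nat_lit 0, nat_lit 15936,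 nat_lit 3120, nat_lit 12576, nat_lit 10992, nat_lit 8736, R6_262, R4_229, R4_182⟩, ⟨nat_lit 2, nat_lit 15984, nat_lit 3168, nat_lit 12624, nat_lit 12816, nat_lit 11136, R6_263, R5_267, R3_232⟩]⟩, ⟨nat_lit 2, [⟨nat_lit 2, nat_lit 16224, nat_lit 6384, nat_lit 14544, nat_lit 12960, nat_lit 14496, R8_303, R5_270, R10_302⟩]⟩, ⟨nat_lit 3, [⟨nat_lit 0, nat_lit 16656, nat_lit 3984, nat_lit 12912, nat_lit 11376, nat_lit 5184, R4_269, R4_237, R5_108⟩]⟩]⟩,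
 ⟨nat_lit 4, [⟨nat_lit 7, [⟨nat_lit 3, nat_lit 2880, nat_lit 12000, nat_lit 14160, nat_lit 576, nat_lit 13200, R6_295, R7_12, R1_275⟩, ⟨nat_lit 7, nat_lit 2928, nat_lit 12144, nat_lit 14112, nat_lit 384, nat_lit 14928, R6_294, R4_8, R10_311⟩]⟩]⟩,
 ⟨nat_lit 6, [⟨nat_lit 4, [⟨nat_lit 7, nat_lit 8736, nat_lit 14400, nat_lit 12288, nat_lit 2544, nat_lit 11088, R6_256, R5_53, R3_231⟩]⟩, ⟨nat_lit 7, [⟨nat_lit 7, nat_lit 9024, nat_lit 14976, nat_lit 14880, nat_lit 2928, nat_lit 14976, R8_310, R5_61, R10_312⟩]⟩]⟩,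
 ⟨nat_lit 7, [⟨nat_lit 3, [⟨nat_lit 0, nat_lit 12144, nat_lit 12480, nat_lit 15168, nat_lit 11808, nat_lit 14832, R7_316, R7_246, R5_309⟩, ⟨nat_lit 3, nat_lit 12192, nat_lit 12576, nat_lit 15216, nat_lit 12576, nat_lit 18384, R7_317, R14_262, R11_383⟩]⟩, ⟨nat_lit 7, [⟨nat_lit 3, nat_lit 12336, nat_lit 13728, nat_lit 13920, nat_lit 12624, nat_lit 13248, R4_290, R14_263, R1_276⟩]⟩]⟩]]], [[], [[], [⟨nat_lit 0, [⟨nat_lit 0, [⟨nat_lit 0, nat_lit 13488, nat_lit 0, nat_lit 13680, nat_lit 10704, nat_lit 3216, R6_285, R6_223, R4_67⟩, ⟨nat_lit 2, nat_lit 13584, nat_lit 48, nat_lit 13776, nat_lit 13536, nat_lit 15888, R6_287, R13_282, R3_331⟩]⟩, ⟨nat_lit 2, [⟨nat_lit 2, nat_lit 13680, nat_lit 240, nat_lit 19200, nat_lit 13584, nat_lit 14736, R13_400, R13_283, R10_307⟩]⟩]⟩,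
 ⟨nat_lit 1, [⟨nat_lit 0, [⟨nat_lit 0, nat_lit 14304, nat_lit 5808, nat_lit 13440, nat_lit 11568, nat_lit 11664, R4_280, R4_241, R4_243⟩, ⟨nat_lit 2, nat_lit 14400, nat_lit 5856, nat_lit 13584, nat_lit 10272, nat_lit 16656, R4_283, R3_214, R3_347⟩]⟩, ⟨nat_lit 2, [⟨nat_lit 2, nat_lit 14544, nat_lit 5952, nat_lit 15456, nat_lit 10320, nat_lit 14880, R3_322, R3_215, R10_310⟩]⟩]⟩,
 ⟨nat_lit 2, [⟨nat_lit 2, [⟨nat_lit 2, nat_lit 15024, nat_lit 11184, nat_lit 15408, nat_lit 10416, nat_lit 14784, R3_321, R3_217, R10_308⟩, ⟨nat_lit 6, nat_lit 15072, nat_lit 11136, nat_lit 15360, nat_lit 10608, nat_lit 13152, R3_320, R2_221, R1_274⟩]⟩, ⟨nat_lit 6, [⟨nat_lit 6, nat_lit 15120, nat_lit 10944, nat_lit 14064, nat_lit 10656, nat_lit 20928, R2_293, R2_222, R11_436⟩]⟩]⟩,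
 ⟨nat_lit 3, [⟨nat_lit 0, [⟨nat_lit 0, nat_lit 16800, nat_lit 7968, nat_lit 13392, nat_lit 9648, nat_lit 9120, R8_279, R8_201, R4_190⟩, ⟨nat_lit 2, nat_lit 16896, nat_lit 8016, nat_lit 13632, nat_lit 11040, nat_lit 16224, R8_284, R9_230, R3_338⟩]⟩, ⟨nat_lit 2, [⟨nat_lit 2, nat_lit 17040, nat_lit 8544, nat_lit 15552, nat_lit 11088, nat_lit 14832, R9_324, R9_231, R10_309⟩]⟩, ⟨nat_lit 3, [⟨nat_lit 0, nat_lit 17088, nat_lit 8208, nat_lit 16320, nat_lit 10224, nat_lit 6336, R5_340, R8_213, R5_132⟩, ⟨nat_lit 3, nat_lit 17232, nat_lit 8256, nat_lit 16416, nat_lit 12912, nat_lit 18576, R5_342, R5_269, R11_387⟩]⟩]⟩], [], [], [], [⟨nat_lit 0, [⟨nat_lit 0, [⟨nat_lit 0, nat_lit 13440, nat_lit 48, nat_lit 13728, nat_lit 10656, nat_lit 2832, R6_286, R6_222, R7_59⟩, ⟨nat_lit 2, nat_lit 13536, nat_lit 96, nat_lit 13824, nat_lit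 13632, nat_lit 912, R6_288, R13_284, R2_19⟩]⟩, ⟨nat_lit 2, [⟨nat_lit 2, nat_lit 13632, nat_lit 432, nat_lit 19152, nat_lit 13680, nat_lit 240, R13_399, R13_285, R1_5⟩]⟩]⟩,
 ⟨nat_lit 1, [⟨nat_lit 0, [⟨nat_lit 0, nat_lit 14256, nat_lit 7008, nat_lit 13488, nat_lit 11520, nat_lit 12288, R4_281, R4_240, R7_256⟩, ⟨nat_lit 2, nat_lit 14352, nat_lit 7056, nat_lit 13632, nat_lit 10368, nat_lit 10800, R4_284, R3_216, R2_225⟩]⟩, ⟨nat_lit 2, [⟨nat_lit 2, nat_lit 14496, nat_lit 7248, nat_lit 15408, nat_lit 10416, nat_lit 11184, R3_321, R3_217, R1_233⟩]⟩]⟩,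
 ⟨nat_lit 2, [⟨nat_lit 2, [⟨nat_lit 2, nat_lit 14976, nat_lit 12432, nat_lit 15456, nat_lit 10320, nat_lit 5952, R3_322, R3_215, R1_124⟩]⟩]⟩,
 ⟨nat_lit 3, [⟨nat_lit 0, [⟨nat_lit 0, nat_lit 16752, nat_lit 8784, nat_lit 13008, nat_lit 11376, nat_lit 8976, R8_271, R8_237, R7_187⟩, ⟨nat_lit 2, nat_lit 16848, nat_lit 8928, nat_lit 13104, nat_lit 11184, nat_lit 8016, R8_273, R9_233, R2_167⟩, ⟨nat_lit 3, nat_lit 16944, nat_lit 8880, nat_lit 13248, nat_lit 12960, nat_lit 6384, R8_276, R5_270, R2_133⟩]⟩, ⟨nat_lit 2, [⟨nat_lit 2, nat_lit 16992, nat_lit 9600, nat_lit 15504, nat_lit 11232, nat_lit 8544, R9_323, R9_234, R1_178⟩]⟩, ⟨nat_lit 3, [⟨nat_lit 3, nat_lit 17184, nat_lit 9312, nat_lit 16272, nat_lit 13008, nat_lit 5088, R5_339, R5_271, R1_106⟩]⟩]⟩]], [], [], [], [[], [], [], [], [], [⟨nat_lit 1, [⟨nat_lit 0, [⟨nat_lit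 0, nat_lit 14160, nat_lit 13056, nat_lit 13536, nat_lit 12960, nat_lit 12240, R4_282, R7_270, R7_255⟩, ⟨nat_lit 2, nat_lit 14208, nat_lit 13104, nat_lit 13680, nat_lit 10512, nat_lit 10752, R4_285, R2_219, R2_224⟩]⟩, ⟨nat_lit 2, [⟨nat_lit 2, nat_lit 14448, nat_lit 13152, nat_lit 15360, nat_lit 10608, nat_lit 11136, R3_320, R2_221, R1_232⟩]⟩]⟩]]], [[[⟨nat_lit 2, [⟨nat_lit 6, [⟨nat_lit 6, nat_lit 15168, nat_lit 12384, nat_lit 12480, nat_lit 12144, nat_lit 14832, R2_260, R7_253, R5_309⟩]⟩]⟩,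
 ⟨nat_lit 4, [⟨nat_lit 4, [⟨nat_lit 7, nat_lit 2976, nat_lit 9072, nat_lit 1632, nat_lit 10944, nat_lit 16272, R6_34, R6_228, R13_339⟩]⟩, ⟨nat_lit 5, [⟨nat_lit 7, nat_lit 3600, nat_lit 10608, nat_lit 1584, nat_lit 11040, nat_lit 12336, R4_33, R6_230, R3_257⟩]⟩, ⟨nat_lit 7, [⟨nat_lit 7, nat_lit 4032, nat_lit 9744, nat_lit 144, nat_lit 10992, nat_lit 1200, R8_3, R6_229, R3_25⟩]⟩]⟩,
 ⟨nat_lit 6, [⟨nat_lit 4, [⟨nat_lit 4, nat_lit 9072, nat_lit 2976, nat_lit 16272, nat_lit 10944, nat_lit 1632, R13_339, R6_228, R6_34⟩, ⟨nat_lit 7, nat_lit 9168, nat_lit 9168, nat_lit 16320, nat_lit 10992, nat_lit 16320, R13_340, R8_229, R13_340⟩]⟩, ⟨nat_lit 5, [⟨nat_lit 4, nat_lit 10608, nat_lit 3600, nat_lit 12336, nat_lit 11040, nat_lit 1584, R3_257, R6_230, R4_33⟩, ⟨nat_lit 7, nat_lit 10656, nat_lit 10656, nat_lit 12384, nat_lit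 11136, nat_lit 12384, R3_258, R8_232, R3_258⟩]⟩, ⟨nat_lit 6, [⟨nat_lit 4, nat_lit 9744, nat_lit 4032, nat_lit 1200, nat_lit 10992, nat_lit 144, R3_25, R6_229, R8_3⟩, ⟨nat_lit 6, nat_lit 9840, nat_lit 12480, nat_lit 1440, nat_lit 11808, nat_lit 14784, R3_30, R4_246, R5_308⟩, ⟨nat_lit 7, nat_lit 9936, nat_lit 11040, nat_lit 1680, nat_lit 11088, nat_lit 14016, R3_35, R8_231, R9_292⟩]⟩, ⟨nat_lit 7, [⟨nat_lit 7, nat_lit 11040, nat_lit 9936, nat_lit 14016, nat_lit 11040, nat_lit 1680, R9_292, R8_230, R3_35⟩]⟩]⟩,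
 ⟨nat_lit 7, [⟨nat_lit 7, [⟨nat_lit 3, nat_lit 12384, nat_lit 15168, nat_lit 14832, nat_lit 12864, nat_lit 12480, R5_309, R7_268, R2_260⟩, ⟨nat_lit 7, nat_lit 12480, nat_lit 9840, nat_lit 14784, nat_lit 11808, nat_lit 1440, R5_308, R4_246, R3_30⟩]⟩]⟩], [⟨nat_lit 2, [⟨nat_lit 6, [⟨nat_lit 6, nat_lit 15216, nat_lit 3456, nat_lit 12576, nat_lit 12192, nat_lit 19152, R2_262, R7_254, R11_399⟩]⟩]⟩,
 ⟨nat_lit 4, [⟨nat_lit 4, [⟨nat_lit 7, nat_lit 3024, nat_lit 144, nat_lit 1680, nat_lit 11328, nat_lit 11568, R6_35, R6_236, R3_241⟩]⟩, ⟨nat_lit 7, [⟨nat_lit 7, nat_lit 4080, nat_lit 192, nat_lit 192, nat_lit 11376, nat_lit 15648, R8_4, R6_237, R10_326⟩]⟩]⟩,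
 ⟨nat_lit 6, [⟨nat_lit 4, [⟨nat_lit 4, nat_lit 9120, nat_lit 768, nat_lit 16512, nat_lit 11232, nat_lit 9216, R13_344, R6_234, R4_192⟩, ⟨nat_lit 7, nat_lit 9216, nat_lit 1200, nat_lit 16560, nat_lit 11568, nat_lit 11904, R13_345, R8_241, R3_248⟩]⟩, ⟨nat_lit 6, [⟨nat_lit 4, nat_lit 9792, nat_lit 816, nat_lit 1248, nat_lit 11280, nat_lit 4464, R3_26, R6_235, R5_93⟩, ⟨nat_lit 6, nat_lit 9888, nat_lit 1776, nat_lit 1488, nat_lit 11904, nat_lit 19104, R3_31, R4_248, R11_398⟩]⟩, ⟨nat_lit 7, [⟨nat_lit 7, nat_lit 11088, nat_lit 1248, nat_lit 14160, nat_lit 11616, nat_lit 15744, R9_295, R8_242, R10_328⟩]⟩]⟩,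
 ⟨nat_lit 7, [⟨nat_lit 7, [⟨nat_lit 3, nat_lit 12432, nat_lit 480, nat_lit 15024, nat_lit 13056, nat_lit 13824, R5_313, R7_272, R1_288⟩, ⟨nat_lit 7, nat_lit 12528, nat_lit 384, nat_lit 14976, nat_lit 11952, nat_lit 15696, R5_312, R4_249, R10_327⟩]⟩]⟩]], [[], [⟨nat_lit 2, [⟨nat_lit 6, [⟨nat_lit 6, nat_lit 15264, nat_lit 1824, nat_lit 12624, nat_lit 10704, nat_lit 20304, R2_263, R2_223, R11_423⟩]⟩]⟩]], [[⟨nat_lit 2, [⟨nat_lit 6, [⟨nat_lit 6, nat_lit 15312, nat_lit 10992, nat_lit 12528, nat_lit 11568, nat_lit 15312, R2_261, R2_241, R5_319⟩]⟩]⟩,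
 ⟨nat_lit 4, [⟨nat_lit 4, [⟨nat_lit 4, nat_lit 3072, nat_lit 1104, nat_lit 1488, nat_lit 3936, nat_lit 7440, R6_31, R6_82, R6_155⟩, ⟨nat_lit 7, nat_lit 3264, nat_lit 8160, nat_lit 1872, nat_lit 1728, nat_lit 16944, R6_39, R8_36, R13_353⟩]⟩, ⟨nat_lit 5, [⟨nat_lit 4, nat_lit 3648, nat_lit 1920, nat_lit 1488, nat_lit 4176, nat_lit 8160, R4_31, R6_87, R4_170⟩, ⟨nat_lit 7, nat_lit 3792, nat_lit 9696, nat_lit 1728, nat_lit 2928, nat_lit 12768, R4_36, R8_61, R3_266⟩]⟩, ⟨nat_lit 7, [⟨nat_lit 7, nat_lit 4128, nat_lit 8784, nat_lit 2016, nat_lit 2592, nat_lit 7632, R8_42, R8_54, R3_159⟩]⟩]⟩,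
 ⟨nat_lit 6, [⟨nat_lit 4, [⟨nat_lit 4, nat_lit 9264, nat_lit 1200, nat_lit 16416, nat_lit 14064, nat_lit 7728, R13_342, R13_293, R6_161⟩, ⟨nat_lit 7, nat_lit 9456, nat_lit 8256, nat_lit 16464, nat_lit 11712, nat_lit 16992, R13_343, R9_244, R13_354⟩]⟩, ⟨nat_lit 5, [⟨nat_lit 4, nat_lit 10704, nat_lit 1968, nat_lit 12480, nat_lit 14160, nat_lit 8304, R3_260, R13_295, R4_173⟩, ⟨nat_lit 7, nat_lit 10848, nat_lit 9744, nat_lit 12528, nat_lit 11856, nat_lit 12816, R3_261, R9_247, R3_267⟩]⟩, ⟨nat_lit 6, [⟨nat_lit 4, nat_lit 10032, nat_lit 2400, nat_lit 1296, nat_lit 14112, nat_lit 4896, R3_27, R13_294, R8_102⟩, ⟨nat_lit 6, nat_lit 10176, nat_lit 11088, nat_lit 1536, nat_lit 3408, nat_lit 15264, R3_32, R3_71, R5_318⟩, ⟨nat_lit 7, nat_lit 10368, nat_lit 10032, nat_lit 1920, nat_lit 11760, nat_lit 14352, R3_40, R9_245,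 R9_299⟩]⟩, ⟨nat_lit 7, [⟨nat_lit 7, nat_lit 11136, nat_lit 8976, nat_lit 14112, nat_lit 11808, nat_lit 8208, R9_294, R9_246, R3_171⟩]⟩]⟩,
 ⟨nat_lit 7, [⟨nat_lit 7, [⟨nat_lit 7, nat_lit 12576, nat_lit 8880, nat_lit 14928, nat_lit 13632, nat_lit 7920, R5_311, R5_284, R3_165⟩]⟩]⟩], [⟨nat_lit 2, [⟨nat_lit 6, [⟨nat_lit 6, nat_lit 15360, nat_lit 1872, nat_lit 12672, nat_lit 11664, nat_lit 19632, R2_264, R2_243, R11_409⟩]⟩]⟩,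
 ⟨nat_lit 4, [⟨nat_lit 4, [⟨nat_lit 4, nat_lit 3120, nat_lit 0, nat_lit 1536, nat_lit 4032, nat_lit 3360, R6_32, R6_84, R4_70⟩, ⟨nat_lit 7, nat_lit 3312, nat_lit 720, nat_lit 1920, nat_lit 1824, nat_lit 11664, R6_40, R8_38, R3_243⟩]⟩, ⟨nat_lit 7, [⟨nat_lit 7, nat_lit 4176, nat_lit 768, nat_lit 2064, nat_lit 2688, nat_lit 16512, R8_43, R8_56, R10_344⟩]⟩]⟩,
 ⟨nat_lit 6, [⟨nat_lit 4, [⟨nat_lit 4, nat_lit 9312, nat_lit 192, nat_lit 16656, nat_lit 14448, nat_lit 9360, R13_347, R13_301, R4_195⟩, ⟨nat_lit 7, nat_lit 9504, nat_lit 1200, nat_lit 16704, nat_lit 12192, nat_lit 12000, R13_348, R9_254, R3_250⟩]⟩, ⟨nat_lit 6, [⟨nat_lit 4, nat_lit 10080, nat_lit 240, nat_lit 1344, nat_lit 14496, nat_lit 4848, R3_28, R13_302, R5_101⟩, ⟨nat_lit 6, nat_lit 10224, nat_lit 2352, nat_lit 1584, nat_lit 3504, nat_lit 19584, R3_33,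 R3_73, R11_408⟩]⟩, ⟨nat_lit 7, [⟨nat_lit 7, nat_lit 11184, nat_lit 1248, nat_lit 14256, nat_lit 12288, nat_lit 16608, R9_297, R9_256, R10_346⟩]⟩]⟩,
 ⟨nat_lit 7, [⟨nat_lit 7, [⟨nat_lit 7, nat_lit 12624, nat_lit 1056, nat_lit 15120, nat_lit 13728, nat_lit 16560, R5_315, R5_286, R10_345⟩]⟩]⟩], [⟨nat_lit 4, [⟨nat_lit 4, [⟨nat_lit 4, nat_lit 3168, nat_lit 576, nat_lit 1584, nat_lit 3984, nat_lit 48, R6_33, R6_83, R8_1⟩, ⟨nat_lit 5, nat_lit 3216, nat_lit 6096, nat_lit 2016, nat_lit 4224, nat_lit 14400, R6_42, R4_88, R5_300⟩, ⟨nat_lit 7, nat_lit 3360, nat_lit 8976, nat_lit 1968, nat_lit 1776, nat_lit 13392, R6_41, R8_37, R9_279⟩]⟩, ⟨nat_lit 5, [⟨nat_lit 4, nat_lit 3696, nat_lit 1392, nat_lit 1536, nat_lit 4224, nat_lit 4608, R4_32, R6_88, R5_96⟩, ⟨nat_lit 5, nat_lit 3744, nat_lit 6816, nat_lit 1824, nat_lit 4320, nat_lit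 17904, R4_38, R4_90, R11_373⟩]⟩]⟩,
 ⟨nat_lit 6, [⟨nat_lit 4, [⟨nat_lit 4, nat_lit 9360, nat_lit 672, nat_lit 16800, nat_lit 14256, nat_lit 4800, R13_350, R13_297, R8_100⟩, ⟨nat_lit 5, nat_lit 9408, nat_lit 6192, nat_lit 16896, nat_lit 10608, nat_lit 14544, R13_352, R3_221, R5_303⟩, ⟨nat_lit 7, nat_lit 9552, nat_lit 9072, nat_lit 16848, nat_lit 11952, nat_lit 13632, R13_351, R9_249, R9_284⟩]⟩, ⟨nat_lit 5, [⟨nat_lit 4, nat_lit 10752, nat_lit 1440, nat_lit 12624, nat_lit 14352, nat_lit 4992, R3_263, R13_299, R5_104⟩, ⟨nat_lit 5, nat_lit 10800, nat_lit 6864, nat_lit 12720, nat_lit 10704, nat_lit 18048, R3_265, R3_223, R11_376⟩]⟩, ⟨nat_lit 6, [⟨nat_lit 4, nat_lit 10128, nat_lit 1872, nat_lit 1392, nat_lit 14304, nat_lit 4128, R3_29, R13_298, R9_86⟩]⟩]⟩]], [[⟨nat_lit 4, [⟨nat_lit 4, [⟨nat_lit 7, nat_lit 3456, nat_lit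 3264, nat_lit 1728, nat_lit 2208, nat_lit 17568, R6_36, R4_46, R13_366⟩]⟩, ⟨nat_lit 5, [⟨nat_lit 7, nat_lit 3936, nat_lit 4752, nat_lit 1632, nat_lit 2928, nat_lit 13104, R4_34, R4_61, R3_273⟩]⟩, ⟨nat_lit 7, [⟨nat_lit 3, nat_lit 4272, nat_lit 12816, nat_lit 1008, nat_lit 2592, nat_lit 12816, R8_21, R7_54, R2_267⟩, ⟨nat_lit 7, nat_lit 4416, nat_lit 4128, nat_lit 672, nat_lit 2640, nat_lit 6384, R8_14, R4_55, R3_133⟩]⟩]⟩,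
 ⟨nat_lit 6, [⟨nat_lit 4, [⟨nat_lit 7, nat_lit 9600, nat_lit 3552, nat_lit 16368, nat_lit 2592, nat_lit 17616, R13_341, R5_54, R13_367⟩]⟩, ⟨nat_lit 5, [⟨nat_lit 7, nat_lit 10944, nat_lit 4944, nat_lit 12432, nat_lit 3168, nat_lit 13152, R3_259, R5_66, R3_274⟩]⟩, ⟨nat_lit 6, [⟨nat_lit 7, nat_lit 10464, nat_lit 6528, nat_lit 1776, nat_lit 2784, nat_lit 14592, R3_37, R5_58, R9_304⟩]⟩, ⟨nat_lit 7, [⟨nat_lit 7, nat_lit 11280, nat_lit 4416, nat_lit 14064, nat_lit 3024, nat_lit 6624, R9_293, R5_63, R3_138⟩]⟩]⟩,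
 ⟨nat_lit 7, [⟨nat_lit 7, [⟨nat_lit 3, nat_lit 12720, nat_lit 13152, nat_lit 14880, nat_lit 12816, nat_lit 12864, R5_310, R14_267, R2_268⟩]⟩]⟩], [⟨nat_lit 4, [⟨nat_lit 4, [⟨nat_lit 7, nat_lit 3504, nat_lit 12720, nat_lit 1776, nat_lit 2304, nat_lit 11616, R6_37, R4_48, R3_242⟩]⟩, ⟨nat_lit 7, [⟨nat_lit 3, nat_lit 4320, nat_lit 12336, nat_lit 1104, nat_lit 2688, nat_lit 14160, R8_23, R7_56, R1_295⟩, ⟨nat_lit 7, nat_lit 4464, nat_lit 12864, nat_lit 720, nat_lit 2688, nat_lit 17424, R8_15, R4_56, R10_363⟩]⟩]⟩,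
 ⟨nat_lit 6, [⟨nat_lit 4, [⟨nat_lit 7, nat_lit 9648, nat_lit 15552, nat_lit 16608, nat_lit 2688, nat_lit 11952, R13_346, R5_56, R3_249⟩]⟩, ⟨nat_lit 7, [⟨nat_lit 7, nat_lit 11328, nat_lit 15744, nat_lit 14208, nat_lit 3072, nat_lit 17472, R9_296, R5_64, R10_364⟩]⟩]⟩,
 ⟨nat_lit 7, [⟨nat_lit 7, [⟨nat_lit 3, nat_lit 12768, nat_lit 14016, nat_lit 15072, nat_lit 12912, nat_lit 14208, R5_314, R14_269, R1_296⟩]⟩]⟩], [], [⟨nat_lit 4, [⟨nat_lit 4, [⟨nat_lit 3, nat_lit 3408, nat_lit 13200, nat_lit 1440, nat_lit 2208, nat_lit 12000, R6_30, R7_46, R2_250⟩, ⟨nat_lit 7, nat_lit 3552, nat_lit 2736, nat_lit 1824, nat_lit 2256, nat_lit 3072, R6_38, R4_47, R3_64⟩]⟩, ⟨nat_lit 5, [⟨nat_lit 3, nat_lit 3888, nat_lit 15216, nat_lit 1440, nat_lit 2784, nat_lit 12576, R4_30, R7_58, R1_262⟩, ⟨nat_lit 7, nat_lit 3984, nat_lit 3456, nat_lit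 1680, nat_lit 2976, nat_lit 13968, R4_35, R4_62, R10_291⟩]⟩, ⟨nat_lit 7, [⟨nat_lit 3, nat_lit 4368, nat_lit 14160, nat_lit 1056, nat_lit 2640, nat_lit 13584, R8_22, R7_55, R12_283⟩]⟩]⟩,
 ⟨nat_lit 6, [⟨nat_lit 4, [⟨nat_lit 7, nat_lit 9696, nat_lit 3024, nat_lit 16752, nat_lit 2640, nat_lit 8880, R13_349, R5_55, R3_185⟩]⟩, ⟨nat_lit 5, [⟨nat_lit 7, nat_lit 10992, nat_lit 3648, nat_lit 12576, nat_lit 3216, nat_lit 14112, R3_262, R5_67, R10_294⟩]⟩]⟩,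
 ⟨nat_lit 7, [⟨nat_lit 7, [⟨nat_lit 3, nat_lit 12816, nat_lit 14496, nat_lit 15168, nat_lit 12864, nat_lit 13632, R5_316, R14_268, R12_284⟩]⟩]⟩]]], [[[], [], [], [], [], [⟨nat_lit 3, [⟨nat_lit 0, [⟨nat_lit 0, nat_lit 17280, nat_lit 4416, nat_lit 12384, nat_lit 10512, nat_lit 8784, R4_258, R6_219, R7_183⟩, ⟨nat_lit 2, nat_lit 17328, nat_lit 6000, nat_lit 12576, nat_lit 10656, nat_lit 7680, R4_262, R8_222, R2_160⟩, ⟨nat_lit 3, nat_lit 17376, nat_lit 5184, nat_lit 12912, nat_lit 11376, nat_lit 3984, R4_269, R4_237, R2_83⟩]⟩, ⟨nat_lit 2, [⟨nat_lit 2, nat_lit 17760, nat_lit 6336, nat_lit 16320, nat_lit 10704, nat_lit 8208, R5_340, R8_223, R1_171⟩]⟩]⟩,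
 ⟨nat_lit 7, [⟨nat_lit 0, [⟨nat_lit 3, nat_lit 12864, nat_lit 14832, nat_lit 13872, nat_lit 12384, nat_lit 12480, R7_289, R7_258, R2_260⟩]⟩, ⟨nat_lit 3, [⟨nat_lit 3, nat_lit 13056, nat_lit 15024, nat_lit 17616, nat_lit 12432, nat_lit 13824, R14_367, R7_259, R1_288⟩]⟩]⟩]], [], [], [[], [⟨nat_lit 3, [⟨nat_lit 0, [⟨nat_lit 0, nat_lit 17616, nat_lit 2592, nat_lit 13056, nat_lit 11040, nat_lit 8928, R4_272, R4_230, R4_186⟩, ⟨nat_lit 2, nat_lit 17712, nat_lit 2640, nat_lit 13152, nat_lit 12864, nat_lit 15168, R4_274, R5_268, R3_316⟩]⟩, ⟨nat_lit 2, [⟨nat_lit 2, nat_lit 17904, nat_lit 5088, nat_lit 16272, nat_lit 13008, nat_lit 14688, R5_339, R5_271, R10_306⟩]⟩]⟩,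
 ⟨nat_lit 4, [⟨nat_lit 3, [⟨nat_lit 3, nat_lit 4560, nat_lit 12336, nat_lit 1248, nat_lit 1968, nat_lit 18480, R7_26, R7_41, R11_385⟩]⟩, ⟨nat_lit 7, [⟨nat_lit 3, nat_lit 4608, nat_lit 12576, nat_lit 1440, nat_lit 1008, nat_lit 15216, R4_30, R7_21, R1_317⟩, ⟨nat_lit 7, nat_lit 4656, nat_lit 12720, nat_lit 624, nat_lit 1296, nat_lit 18432, R4_13, R4_27, R10_384⟩]⟩]⟩,
 ⟨nat_lit 6, [⟨nat_lit 7, [⟨nat_lit 7, nat_lit 11376, nat_lit 15984, nat_lit 240, nat_lit 2976, nat_lit 18480, R5_5, R5_62, R10_385⟩]⟩]⟩,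
 ⟨nat_lit 7, [⟨nat_lit 0, [⟨nat_lit 0, nat_lit 12960, nat_lit 13056, nat_lit 14160, nat_lit 11472, nat_lit 13536, R7_295, R7_239, R4_282⟩]⟩, ⟨nat_lit 3, [⟨nat_lit 0, nat_lit 13104, nat_lit 13824, nat_lit 17712, nat_lit 11856, nat_lit 15024, R14_369, R7_247, R5_313⟩, ⟨nat_lit 3, nat_lit 13200, nat_lit 13920, nat_lit 17760, nat_lit 12672, nat_lit 18528, R14_370, R14_264, R11_386⟩]⟩]⟩], [], [], [], [⟨nat_lit 3, [⟨nat_lit 0, [⟨nat_lit 0, nat_lit 17568, nat_lit 18288, nat_lit 12432, nat_lit 11856, nat_lit 8832, R4_259, R4_247, R7_184⟩, ⟨nat_lit 2, nat_lit 17664, nat_lit 18432, nat_lit 12624, nat_lit 12768, nat_lit 7728, R4_263, R5_266, R2_161⟩]⟩, ⟨nat_lit 2, [⟨nat_lit 2, nat_lit 17856, nat_lit 18576, nat_lit 16416, nat_lit 12912, nat_lit 8256, R5_342, R5_269, R1_172⟩]⟩]⟩,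
 ⟨nat_lit 4, [⟨nat_lit 3, [⟨nat_lit 3, nat_lit 4512, nat_lit 18480, nat_lit 1200, nat_lit 2016, nat_lit 12336, R7_25, R7_42, R1_257⟩]⟩]⟩,
 ⟨nat_lit 7, [⟨nat_lit 0, [⟨nat_lit 0, nat_lit 12912, nat_lit 18336, nat_lit 13728, nat_lit 12912, nat_lit 14880, R7_286, R7_269, R7_310⟩, ⟨nat_lit 3, nat_lit 13008, nat_lit 18384, nat_lit 13920, nat_lit 12720, nat_lit 12576, R7_290, R14_265, R2_262⟩]⟩, ⟨nat_lit 3, [⟨nat_lit 3, nat_lit 13152, nat_lit 18528, nat_lit 17664, nat_lit 12768, nat_lit 13920, R14_368, R14_266, R1_290⟩]⟩]⟩]]], [[], [], [], [[], [], [], [], [], [], [], [⟨nat_lit 4, [⟨nat_lit 1, [⟨nat_lit 3, nat_lit 576, nat_lit 12000, nat_lit 1440, nat_lit 2880, nat_lit 13200, R6_30, R7_60, R1_275⟩]⟩]⟩]], [[], [], [], [], [⟨nat_lit 4, [⟨nat_lit 1, [⟨nat_lit 1, nat_lit 0, nat_lit 3504, nat_lit 1488, nat_lit 3936, nat_lit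 1104, R6_31, R6_82, R2_23⟩]⟩]⟩,
 ⟨nat_lit 5, [⟨nat_lit 1, [⟨nat_lit 0, nat_lit 4848, nat_lit 8544, nat_lit 1008, nat_lit 10944, nat_lit 2976, R13_21, R6_228, R7_62⟩, ⟨nat_lit 1, nat_lit 4944, nat_lit 8736, nat_lit 1104, nat_lit 3744, nat_lit 1200, R13_23, R13_78, R2_25⟩]⟩]⟩], [⟨nat_lit 4, [⟨nat_lit 1, [⟨nat_lit 1, nat_lit 48, nat_lit 3360, nat_lit 1536, nat_lit 4032, nat_lit 0, R6_32, R6_84, R12_0⟩]⟩]⟩,
 ⟨nat_lit 5, [⟨nat_lit 0, [⟨nat_lit 0, nat_lit 4704, nat_lit 8640, nat_lit 12192, nat_lit 11136, nat_lit 15504, R6_254, R6_232, R7_323⟩]⟩, ⟨nat_lit 1, [⟨nat_lit 0, nat_lit 4896, nat_lit 9216, nat_lit 1056, nat_lit 11232, nat_lit 1968, R13_22, R6_234, R14_41⟩, ⟨nat_lit 1, nat_lit 4992, nat_lit 9360, nat_lit 1152, nat_lit 3840, nat_lit 192, R13_24, R13_80, R12_4⟩]⟩]⟩], [⟨nat_lit 4, [⟨nat_lit 1, [⟨nat_lit 1, nat_lit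 96, nat_lit 48, nat_lit 1584, nat_lit 3984, nat_lit 576, R6_33, R6_83, R1_12⟩]⟩]⟩,
 ⟨nat_lit 5, [⟨nat_lit 1, [⟨nat_lit 1, nat_lit 5040, nat_lit 4800, nat_lit 1200, nat_lit 3792, nat_lit 672, R13_25, R13_79, R1_14⟩]⟩]⟩]], [], [[], [], [], [], [], [], [⟨nat_lit 4, [⟨nat_lit 1, [⟨nat_lit 1, nat_lit 144, nat_lit 14400, nat_lit 2016, nat_lit 4224, nat_lit 6096, R6_42, R4_88, R1_127⟩]⟩]⟩]], [[], [], [], [], [⟨nat_lit 4, [⟨nat_lit 1, [⟨nat_lit 0, nat_lit 192, nat_lit 15312, nat_lit 1632, nat_lit 2352, nat_lit 9072, R6_34, R6_49, R7_189⟩, ⟨nat_lit 1, nat_lit 288, nat_lit 15408, nat_lit 1872, nat_lit 3744, nat_lit 8160, R6_39, R8_78, R2_170⟩, ⟨nat_lit 3, nat_lit 432, nat_lit 15360, nat_lit 1728, nat_lit 2208, nat_lit 3264, R6_36, R4_46, R2_68⟩]⟩]⟩,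
 ⟨nat_lit 5, [⟨nat_lit 1, [⟨nat_lit 0, nat_lit 5136, nat_lit 15696, nat_lit 1248, nat_lit 10992, nat_lit 9168, R13_26, R8_229, R7_191⟩, ⟨nat_lit 1, nat_lit 5232, nat_lit 15792, nat_lit 1488, nat_lit 2832, nat_lit 8256, R13_31, R9_59, R2_172⟩]⟩]⟩], [⟨nat_lit 4, [⟨nat_lit 1, [⟨nat_lit 0, nat_lit 240, nat_lit 11568, nat_lit 1680, nat_lit 2400, nat_lit 2352, R6_35, R6_50, R14_49⟩, ⟨nat_lit 1, nat_lit 336, nat_lit 11664, nat_lit 1920, nat_lit 3840, nat_lit 720, R6_40, R8_80, R12_15⟩, ⟨nat_lit 3, nat_lit 480, nat_lit 11616, nat_lit 1776, nat_lit 2304, nat_lit 2688, R6_37, R4_48, R12_56⟩]⟩]⟩,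
 ⟨nat_lit 5, [⟨nat_lit 0, [⟨nat_lit 0, nat_lit 4752, nat_lit 11040, nat_lit 12240, nat_lit 11280, nat_lit 15600, R6_255, R8_235, R7_325⟩]⟩, ⟨nat_lit 1, [⟨nat_lit 0, nat_lit 5184, nat_lit 11904, nat_lit 1296, nat_lit 11424, nat_lit 2832, R13_27, R8_238, R14_59⟩, ⟨nat_lit 1, nat_lit 5280, nat_lit 12000, nat_lit 1536, nat_lit 2928, nat_lit 1200, R13_32, R9_61, R12_25⟩]⟩]⟩], [], [⟨nat_lit 4, [⟨nat_lit 1, [⟨nat_lit 3, nat_lit 528, nat_lit 3072, nat_lit 1824, nat_lit 2256, nat_lit 2736, R6_38, R4_47, R1_57⟩]⟩]⟩]]], [[], [], [], [], [[], [], [], [], [⟨nat_lit 5, [⟨nat_lit 1, [⟨nat_lit 0, nat_lit 5712, nat_lit 144, nat_lit 1200, nat_lit 10992, nat_lit 4032, R3_25, R6_229, R7_84⟩, ⟨nat_lit 1, nat_lit 5808, nat_lit 4896, nat_lit 1296, nat_lit 3888, nat_lit 2400, R3_27, R13_81, R2_50⟩]⟩]⟩], [⟨nat_lit 5, [⟨nat_lit 0, [⟨nat_lit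 0, nat_lit 5520, nat_lit 4416, nat_lit 12384, nat_lit 11184, nat_lit 16272, R4_258, R6_233, R7_339⟩]⟩, ⟨nat_lit 1, [⟨nat_lit 0, nat_lit 5760, nat_lit 4464, nat_lit 1248, nat_lit 11280, nat_lit 2016, R3_26, R6_235, R14_42⟩, ⟨nat_lit 1, nat_lit 5856, nat_lit 4848, nat_lit 1344, nat_lit 3984, nat_lit 240, R3_28, R13_83, R12_5⟩]⟩]⟩]], [[], [], [], [], [⟨nat_lit 5, [⟨nat_lit 1, [⟨nat_lit 0, nat_lit 5952, nat_lit 14784, nat_lit 1440, nat_lit 11808, nat_lit 12480, R3_30, R4_246, R7_260⟩, ⟨nat_lit 1, nat_lit 6048, nat_lit 15264, nat_lit 1536, nat_lit 3408, nat_lit 11088, R3_32, R3_71, R2_231⟩]⟩]⟩], [⟨nat_lit 1, [⟨nat_lit 0, [⟨nat_lit 0, nat_lit 13728, nat_lit 18336, nat_lit 13728, nat_lit 12912, nat_lit 12096, R7_286, R7_269, R7_252⟩, ⟨nat_lit 2, nat_lit 13776, nat_lit 18768, nat_lit 13776, nat_lit 10560, nat_lit 10560,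 R7_287, R2_220, R2_220⟩]⟩, ⟨nat_lit 1, [⟨nat_lit 0, nat_lit 13920, nat_lit 19152, nat_lit 12576, nat_lit 13008, nat_lit 3504, R2_262, R7_271, R14_73⟩, ⟨nat_lit 1, nat_lit 14064, nat_lit 19632, nat_lit 12672, nat_lit 11664, nat_lit 1872, R2_264, R2_243, R12_39⟩, ⟨nat_lit 2, nat_lit 13968, nat_lit 20304, nat_lit 12624, nat_lit 10704, nat_lit 1824, R2_263, R2_223, R12_38⟩]⟩, ⟨nat_lit 2, [⟨nat_lit 2, nat_lit 13824, nat_lit 20928, nat_lit 14064, nat_lit 10656, nat_lit 10944, R2_293, R2_222, R1_228⟩]⟩]⟩,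
 ⟨nat_lit 5, [⟨nat_lit 0, [⟨nat_lit 0, nat_lit 5568, nat_lit 18288, nat_lit 12432, nat_lit 11856, nat_lit 16416, R4_259, R4_247, R7_342⟩]⟩, ⟨nat_lit 1, [⟨nat_lit 0, nat_lit 6000, nat_lit 19104, nat_lit 1488, nat_lit 11904, nat_lit 3984, R3_31, R4_248, R14_83⟩, ⟨nat_lit 1, nat_lit 6096, nat_lit 19584, nat_lit 1584, nat_lit 3504, nat_lit 2352, R3_33, R3_73, R12_49⟩]⟩]⟩]], [], [[], [], [], [], [⟨nat_lit 5, [⟨nat_lit 1, [⟨nat_lit 0, nat_lit 6240, nat_lit 14016, nat_lit 1680, nat_lit 11040, nat_lit 11040, R3_35, R8_230, R7_230⟩, ⟨nat_lit 1, nat_lit 6336, nat_lit 14352, nat_lit 1920, nat_lit 2976, nat_lit 10032, R3_40, R9_62, R2_209⟩]⟩]⟩]]], [[[⟨nat_lit 4, [⟨nat_lit 5, [⟨nat_lit 7, nat_lit 1584, nat_lit 9648, nat_lit 1056, nat_lit 9936, nat_lit 13584, R7_22, R6_207, R3_283⟩]⟩]⟩,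
 ⟨nat_lit 6, [⟨nat_lit 5, [⟨nat_lit 4, nat_lit 8160, nat_lit 3504, nat_lit 96, nat_lit 11088, nat_lit 3600, R2_2, R6_231, R4_75⟩, ⟨nat_lit 7, nat_lit 8208, nat_lit 9792, nat_lit 240, nat_lit 9456, nat_lit 13632, R2_5, R8_197, R3_284⟩]⟩]⟩], [], [], [⟨nat_lit 4, [⟨nat_lit 5, [⟨nat_lit 7, nat_lit 1632, nat_lit 4512, nat_lit 1104, nat_lit 10320, nat_lit 13152, R7_23, R6_215, R10_274⟩]⟩]⟩,
 ⟨nat_lit 6, [⟨nat_lit 5, [⟨nat_lit 7, nat_lit 8256, nat_lit 6096, nat_lit 288, nat_lit 9984, nat_lit 13440, R2_6, R8_208, R10_280⟩]⟩]⟩]], [], [[⟨nat_lit 4, [⟨nat_lit 5, [⟨nat_lit 4, nat_lit 1680, nat_lit 13584, nat_lit 1296, nat_lit 4080, nat_lit 9648, R7_27, R6_85, R4_201⟩, ⟨nat_lit 7, nat_lit 1824, nat_lit 14352, nat_lit 1392, nat_lit 4032, nat_lit 14352, R7_29, R8_84, R3_299⟩]⟩]⟩,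
 ⟨nat_lit 6, [⟨nat_lit 5, [⟨nat_lit 4, nat_lit 8304, nat_lit 13728, nat_lit 144, nat_lit 14208, nat_lit 9888, R2_3, R13_296, R4_206⟩, ⟨nat_lit 7, nat_lit 8448, nat_lit 14496, nat_lit 384, nat_lit 11904, nat_lit 14400, R2_8, R9_248, R3_300⟩]⟩]⟩], [], [⟨nat_lit 4, [⟨nat_lit 5, [⟨nat_lit 4, nat_lit 1728, nat_lit 13152, nat_lit 1344, nat_lit 4128, nat_lit 4512, R7_28, R6_86, R5_94⟩, ⟨nat_lit 5, nat_lit 1776, nat_lit 13200, nat_lit 1536, nat_lit 4272, nat_lit 17376, R7_32, R4_89, R11_362⟩]⟩]⟩,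
 ⟨nat_lit 6, [⟨nat_lit 5, [⟨nat_lit 4, nat_lit 8352, nat_lit 13296, nat_lit 192, nat_lit 14400, nat_lit 4896, R2_4, R13_300, R5_102⟩, ⟨nat_lit 5, nat_lit 8400, nat_lit 13344, nat_lit 624, nat_lit 10752, nat_lit 17520, R2_13, R3_224, R11_365⟩]⟩]⟩]], [[], [], [], [⟨nat_lit 4, [⟨nat_lit 5, [⟨nat_lit 3, nat_lit 2016, nat_lit 17424, nat_lit 1200, nat_lit 4512, nat_lit 12336, R7_25, R7_94, R1_257⟩, ⟨nat_lit 7, nat_lit 2064, nat_lit 17376, nat_lit 1152, nat_lit 4272, nat_lit 13200, R7_24, R4_89, R10_275⟩]⟩]⟩,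
 ⟨nat_lit 6, [⟨nat_lit 5, [⟨nat_lit 7, nat_lit 8592, nat_lit 17472, nat_lit 336, nat_lit 3120, nat_lit 13488, R2_7, R5_65, R10_281⟩]⟩]⟩], [], [], [], [⟨nat_lit 4, [⟨nat_lit 1, [⟨nat_lit 3, nat_lit 1008, nat_lit 12576, nat_lit 1440, nat_lit 4608, nat_lit 15216, R4_30, R7_96, R1_317⟩]⟩, ⟨nat_lit 5, [⟨nat_lit 3, nat_lit 1968, nat_lit 12336, nat_lit 1248, nat_lit 4560, nat_lit 17424, R7_26, R7_95, R11_363⟩]⟩]⟩]], [[], [], [], [], [⟨nat_lit 4, [⟨nat_lit 1, [⟨nat_lit 1, nat_lit 624, nat_lit 8160, nat_lit 1488, nat_lit 4176, nat_lit 1920, R4_31, R6_87, R2_40⟩]⟩, ⟨nat_lit 5, [⟨nat_lit 1, nat_lit 1056, nat_lit 9648, nat_lit 1584, nat_lit 4080, nat_lit 13584, R7_33, R6_85, R3_283⟩]⟩]⟩,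
 ⟨nat_lit 5, [⟨nat_lit 1, [⟨nat_lit 0, nat_lit 6576, nat_lit 1584, nat_lit 12336, nat_lit 11040, nat_lit 3600, R3_257, R6_230, R7_75⟩, ⟨nat_lit 1, nat_lit 6624, nat_lit 8304, nat_lit 12480, nat_lit 4128, nat_lit 1968, R3_260, R13_86, R2_41⟩]⟩, ⟨nat_lit 5, [⟨nat_lit 0, nat_lit 7008, nat_lit 3600, nat_lit 96, nat_lit 11088, nat_lit 3504, R2_2, R6_231, R4_73⟩, ⟨nat_lit 1, nat_lit 7056, nat_lit 9888, nat_lit 144, nat_lit 4032, nat_lit 13728, R2_3, R13_84, R3_286⟩]⟩]⟩], [], [⟨nat_lit 4, [⟨nat_lit 1, [⟨nat_lit 1, nat_lit 672, nat_lit 4608, nat_lit 1536, nat_lit 4224, nat_lit 1392, R4_32, R6_88, R1_29⟩]⟩, ⟨nat_lit 5, [⟨nat_lit 1, nat_lit 1104, nat_lit 4512, nat_lit 1632, nat_lit 4128, nat_lit 13152, R7_34, R6_86, R10_274⟩]⟩]⟩,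
 ⟨nat_lit 5, [⟨nat_lit 5, [⟨nat_lit 1, nat_lit 7104, nat_lit 4896, nat_lit 192, nat_lit 4080, nat_lit 13296, R2_4, R13_85, R10_277⟩]⟩]⟩]], [], [[], [], [⟨nat_lit 4, [⟨nat_lit 5, [⟨nat_lit 5, nat_lit 1248, nat_lit 12336, nat_lit 1968, nat_lit 4560, nat_lit 17424, R7_41, R7_95, R11_363⟩]⟩]⟩,
 ⟨nat_lit 6, [⟨nat_lit 5, [⟨nat_lit 5, nat_lit 8112, nat_lit 12432, nat_lit 576, nat_lit 2928, nat_lit 17568, R2_12, R2_61, R11_366⟩]⟩]⟩], [], [], [], [⟨nat_lit 4, [⟨nat_lit 1, [⟨nat_lit 1, nat_lit 720, nat_lit 17904, nat_lit 1824, nat_lit 4320, nat_lit 6816, R4_38, R4_90, R1_142⟩]⟩, ⟨nat_lit 5, [⟨nat_lit 1, nat_lit 1152, nat_lit 17376, nat_lit 2064, nat_lit 4272, nat_lit 13200, R7_43, R4_89, R10_275⟩, ⟨nat_lit 5, nat_lit 1200, nat_lit 17424, nat_lit 2016, nat_lit 4512, nat_lit 12336, R7_42, R7_94, R1_257⟩]⟩]⟩,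
 ⟨nat_lit 6, [⟨nat_lit 5, [⟨nat_lit 5, nat_lit 8064, nat_lit 17760, nat_lit 528, nat_lit 2976, nat_lit 12384, R2_11, R2_62, R1_258⟩]⟩]⟩]], [[], [], [], [], [⟨nat_lit 4, [⟨nat_lit 1, [⟨nat_lit 0, nat_lit 768, nat_lit 12336, nat_lit 1584, nat_lit 3264, nat_lit 10608, R4_33, R6_68, R7_221⟩, ⟨nat_lit 1, nat_lit 816, nat_lit 12768, nat_lit 1728, nat_lit 4176, nat_lit 9696, R4_36, R8_87, R2_202⟩, ⟨nat_lit 3, nat_lit 912, nat_lit 13104, nat_lit 1632, nat_lit 2928, nat_lit 4752, R4_34, R4_61, R2_99⟩]⟩, ⟨nat_lit 5, [⟨nat_lit 0, nat_lit 1296, nat_lit 13584, nat_lit 1680, nat_lit 4080, nat_lit 9648, R7_35, R6_85, R4_201⟩, ⟨nat_lit 1, nat_lit 1392, nat_lit 14352, nat_lit 1824, nat_lit 4032, nat_lit 14352, R7_38, R8_84, R3_299⟩]⟩]⟩,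
 ⟨nat_lit 5, [⟨nat_lit 1, [⟨nat_lit 0, nat_lit 6768, nat_lit 12384, nat_lit 12384, nat_lit 11136, nat_lit 10656, R3_258, R8_232, R7_222⟩, ⟨nat_lit 1, nat_lit 6816, nat_lit 12816, nat_lit 12528, nat_lit 3360, nat_lit 9744, R3_261, R9_70, R2_203⟩]⟩, ⟨nat_lit 5, [⟨nat_lit 0, nat_lit 7296, nat_lit 13632, nat_lit 240, nat_lit 11184, nat_lit 9792, R2_5, R8_233, R4_204⟩, ⟨nat_lit 1, nat_lit 7392, nat_lit 14400, nat_lit 384, nat_lit 3216, nat_lit 14496, R2_8, R9_67, R3_302⟩]⟩]⟩], [], [], [⟨nat_lit 4, [⟨nat_lit 1, [⟨nat_lit 3, nat_lit 960, nat_lit 13968, nat_lit 1680, nat_lit 2976, nat_lit 3456, R4_35, R4_62, R1_72⟩]⟩, ⟨nat_lit 5, [⟨nat_lit 0, nat_lit 1344, nat_lit 13152, nat_lit 1728, nat_lit 4128, nat_lit 4512, R7_36, R6_86, R5_94⟩, ⟨nat_lit 3, nat_lit 1536, nat_lit 13200, nat_lit 1776, nat_lit 4272, nat_lit 17376,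 R7_37, R4_89, R11_362⟩]⟩]⟩,
 ⟨nat_lit 5, [⟨nat_lit 5, [⟨nat_lit 0, nat_lit 7344, nat_lit 13440, nat_lit 288, nat_lit 11232, nat_lit 6096, R2_6, R8_234, R5_127⟩]⟩]⟩]]], [[], [], [], [[], [], [], [], [⟨nat_lit 7, [⟨nat_lit 1, [⟨nat_lit 0, nat_lit 11808, nat_lit 12480, nat_lit 14832, nat_lit 12144, nat_lit 15168, R5_309, R7_253, R7_316⟩, ⟨nat_lit 3, nat_lit 11904, nat_lit 12864, nat_lit 14880, nat_lit 12384, nat_lit 13152, R5_310, R14_258, R2_274⟩]⟩]⟩], [⟨nat_lit 4, [⟨nat_lit 0, [⟨nat_lit 3, nat_lit 2208, nat_lit 13200, nat_lit 1440, nat_lit 3408, nat_lit 12000, R6_30, R7_71, R2_250⟩]⟩, ⟨nat_lit 1, [⟨nat_lit 3, nat_lit 2640, nat_lit 14160, nat_lit 1056, nat_lit 4368, nat_lit 13584, R8_22, R7_91, R12_283⟩]⟩, ⟨nat_lit 3, [⟨nat_lit 3, nat_lit 2784, nat_lit 15216, nat_lit 1440, nat_lit 3888, nat_lit 12576, R4_30, R7_81,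 R1_262⟩]⟩]⟩,
 ⟨nat_lit 7, [⟨nat_lit 0, [⟨nat_lit 0, nat_lit 11472, nat_lit 13056, nat_lit 13536, nat_lit 12960, nat_lit 14688, R4_282, R7_270, R7_306⟩, ⟨nat_lit 3, nat_lit 11520, nat_lit 13248, nat_lit 13920, nat_lit 12480, nat_lit 13728, R4_290, R14_260, R2_286⟩]⟩, ⟨nat_lit 1, [⟨nat_lit 0, nat_lit 11856, nat_lit 13824, nat_lit 15024, nat_lit 13104, nat_lit 528, R5_313, R7_273, R14_11⟩, ⟨nat_lit 3, nat_lit 11952, nat_lit 14208, nat_lit 15072, nat_lit 12528, nat_lit 13920, R5_314, R14_261, R12_290⟩]⟩]⟩]], [], [], [], [[], [], [], [], [⟨nat_lit 4, [⟨nat_lit 1, [⟨nat_lit 0, nat_lit 2256, nat_lit 1200, nat_lit 1152, nat_lit 2976, nat_lit 9744, R8_24, R6_62, R7_203⟩, ⟨nat_lit 1, nat_lit 2352, nat_lit 7632, nat_lit 1344, nat_lit 3888, nat_lit 8784, R8_28, R8_81, R2_183⟩]⟩]⟩,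
 ⟨nat_lit 5, [⟨nat_lit 1, [⟨nat_lit 0, nat_lit 7680, nat_lit 1680, nat_lit 480, nat_lit 11088, nat_lit 9936, R9_10, R8_231, R7_207⟩, ⟨nat_lit 1, nat_lit 7776, nat_lit 8208, nat_lit 672, nat_lit 3072, nat_lit 8976, R9_14, R9_64, R2_187⟩]⟩]⟩,
 ⟨nat_lit 7, [⟨nat_lit 1, [⟨nat_lit 0, nat_lit 11568, nat_lit 1440, nat_lit 14784, nat_lit 11808, nat_lit 9840, R5_308, R4_246, R7_205⟩, ⟨nat_lit 1, nat_lit 11664, nat_lit 7920, nat_lit 14928, nat_lit 13632, nat_lit 8880, R5_311, R5_284, R2_185⟩]⟩]⟩], [⟨nat_lit 4, [⟨nat_lit 0, [⟨nat_lit 0, nat_lit 2112, nat_lit 14352, nat_lit 144, nat_lit 816, nat_lit 13296, R6_3, R6_17, R7_277⟩, ⟨nat_lit 3, nat_lit 2160, nat_lit 14928, nat_lit 1008, nat_lit 384, nat_lit 12144, R6_21, R4_8, R2_253⟩]⟩, ⟨nat_lit 1, [⟨nat_lit 0, nat_lit 2304, nat_lit 15648, nat_lit 1200, nat_lit 3024, nat_lit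 2400, R8_25, R6_63, R14_50⟩, ⟨nat_lit 1, nat_lit 2400, nat_lit 16512, nat_lit 1392, nat_lit 3984, nat_lit 768, R8_29, R8_83, R12_16⟩, ⟨nat_lit 3, nat_lit 2544, nat_lit 17424, nat_lit 1296, nat_lit 2688, nat_lit 2832, R8_27, R4_56, R12_59⟩]⟩, ⟨nat_lit 3, [⟨nat_lit 3, nat_lit 2736, nat_lit 18432, nat_lit 624, nat_lit 1296, nat_lit 12720, R4_13, R4_27, R1_265⟩]⟩]⟩,
 ⟨nat_lit 5, [⟨nat_lit 0, [⟨nat_lit 0, nat_lit 7584, nat_lit 14448, nat_lit 13008, nat_lit 11376, nat_lit 16080, R8_271, R8_237, R7_335⟩]⟩, ⟨nat_lit 1, [⟨nat_lit 0, nat_lit 7728, nat_lit 15744, nat_lit 528, nat_lit 11520, nat_lit 2880, R9_11, R8_240, R14_60⟩, ⟨nat_lit 1, nat_lit 7824, nat_lit 16608, nat_lit 720, nat_lit 3168, nat_lit 1248, R9_15, R9_66, R12_26⟩]⟩]⟩,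
 ⟨nat_lit 7, [⟨nat_lit 0, [⟨nat_lit 0, nat_lit 11424, nat_lit 14400, nat_lit 13488, nat_lit 11520, nat_lit 14640, R4_281, R4_240, R7_305⟩]⟩, ⟨nat_lit 1, [⟨nat_lit 0, nat_lit 11616, nat_lit 15696, nat_lit 14976, nat_lit 11952, nat_lit 2688, R5_312, R4_249, R14_56⟩, ⟨nat_lit 1, nat_lit 11712, nat_lit 16560, nat_lit 15120, nat_lit 13728, nat_lit 1056, R5_315, R5_286, R12_22⟩]⟩]⟩]]]]
noncomputable def N6155 : T3 (List N0) := [[[[], [⟨nat_lit 5, [⟨nat_lit 4, [⟨nat_lit 4, nat_lit 13056, nat_lit 14160, nat_lit 13536, nat_lit 12960, nat_lit 11472, R4_282, R7_270, R7_239⟩, ⟨nat_lit 7, nat_lit 13104, nat_lit 14208, nat_lit 13680, nat_lit 10512, nat_lit 10752, R4_285, R2_219, R2_224⟩]⟩, ⟨nat_lit 7, [⟨nat_lit 7, nat_lit 13152, nat_lit 14448, nat_lit 15360, nat_lit 10608, nat_lit 11136, R3_320, R2_221, R1_232⟩]⟩]⟩], [],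 [], [], [⟨nat_lit 5, [⟨nat_lit 4, [⟨nat_lit 4, nat_lit 2592, nat_lit 13056, nat_lit 8928, nat_lit 17616, nat_lit 11040, R4_186, R7_367, R4_230⟩]⟩, ⟨nat_lit 7, [⟨nat_lit 4, nat_lit 2640, nat_lit 13152, nat_lit 15168, nat_lit 17712, nat_lit 12864, R3_316, R7_369, R5_268⟩, ⟨nat_lit 7, nat_lit 2688, nat_lit 13200, nat_lit 15216, nat_lit 14832, nat_lit 8976, R3_317, R2_309, R11_187⟩]⟩]⟩]], [], [], [[], [⟨nat_lit 5, [⟨nat_lit 4, [⟨nat_lit 7, nat_lit 13728, nat_lit 14016, nat_lit 13872, nat_lit 10896, nat_lit 10848, R4_289, R1_227, R2_226⟩]⟩, ⟨nat_lit 7, [⟨nat_lit 7, nat_lit 13776, nat_lit 14256, nat_lit 15696, nat_lit 10992, nat_lit 11232, R3_327, R1_229, R1_234⟩]⟩]⟩]]], [[], [], [], [], [], [[], [], [], [], [], [⟨nat_lit 0, [⟨nat_lit 0, [⟨nat_lit 0, nat_lit 4512, nat_lit 3936, nat_lit 3792, nat_lit 4032, nat_lit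 3072, R4_79, R4_84, R4_64⟩, ⟨nat_lit 3, nat_lit 4560, nat_lit 3984, nat_lit 10128, nat_lit 14304, nat_lit 9744, R4_211, R3_298, R3_203⟩]⟩, ⟨nat_lit 2, [⟨nat_lit 0, nat_lit 4656, nat_lit 4224, nat_lit 14256, nat_lit 10368, nat_lit 816, R3_297, R4_216, R5_17⟩]⟩]⟩,
 ⟨nat_lit 2, [⟨nat_lit 2, [⟨nat_lit 0, nat_lit 4704, nat_lit 4272, nat_lit 19056, nat_lit 7104, nat_lit 7776, R10_397, R5_148, R5_162⟩, ⟨nat_lit 2, nat_lit 4752, nat_lit 4464, nat_lit 19104, nat_lit 21744, nat_lit 9360, R10_398, R11_453, R11_195⟩]⟩, ⟨nat_lit 6, [⟨nat_lit 2, nat_lit 4176, nat_lit 4944, nat_lit 15600, nat_lit 21792, nat_lit 7824, R1_325, R11_454, R1_163⟩]⟩]⟩,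
 ⟨nat_lit 3, [⟨nat_lit 0, [⟨nat_lit 3, nat_lit 4608, nat_lit 4032, nat_lit 5568, nat_lit 19488, nat_lit 10032, R5_116, R10_406, R3_209⟩]⟩, ⟨nat_lit 3, [⟨nat_lit 3, nat_lit 5040, nat_lit 4080, nat_lit 21312, nat_lit 19536, nat_lit 8448, R11_444, R10_407, R10_176⟩, ⟨nat_lit 7, nat_lit 4992, nat_lit 4128, nat_lit 21360, nat_lit 15888, nat_lit 7776, R11_445, R1_331, R1_162⟩]⟩]⟩,
 ⟨nat_lit 4, [⟨nat_lit 4, [⟨nat_lit 4, nat_lit 3936, nat_lit 4512, nat_lit 3792, nat_lit 4032, nat_lit 3072, R4_79, R4_84, R4_64⟩, ⟨nat_lit 6, nat_lit 3984, nat_lit 4560, nat_lit 10128, nat_lit 14304, nat_lit 9744, R4_211, R3_298, R3_203⟩]⟩, ⟨nat_lit 7, [⟨nat_lit 4, nat_lit 4224, nat_lit 4656, nat_lit 14256, nat_lit 10368, nat_lit 816, R3_297, R4_216, R5_17⟩]⟩]⟩,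
 ⟨nat_lit 6, [⟨nat_lit 4, [⟨nat_lit 6, nat_lit 4032, nat_lit 4608, nat_lit 5568, nat_lit 19488, nat_lit 10032, R5_116, R10_406, R3_209⟩]⟩, ⟨nat_lit 6, [⟨nat_lit 2, nat_lit 4128, nat_lit 4992, nat_lit 21360, nat_lit 15888, nat_lit 7776, R11_445, R1_331, R1_162⟩, ⟨nat_lit 6, nat_lit 4080, nat_lit 5040, nat_lit 21312, nat_lit 19536, nat_lit 8448, R11_444, R10_407, R10_176⟩]⟩]⟩,
 ⟨nat_lit 7, [⟨nat_lit 3, [⟨nat_lit 7, nat_lit 4944, nat_lit 4176, nat_lit 15600, nat_lit 21792, nat_lit 7824, R1_325, R11_454, R1_163⟩]⟩, ⟨nat_lit 7, [⟨nat_lit 4, nat_lit 4272, nat_lit 4704, nat_lit 19056, nat_lit 7104, nat_lit 7776, R10_397, R5_148, R5_162⟩, ⟨nat_lit 7, nat_lit 4464, nat_lit 4752, nat_lit 19104, nat_lit 21744, nat_lit 9360, R10_398, R11_453, R11_195⟩]⟩]⟩]]], [], [[[], [], [], [], [], [⟨nat_lit 5, [⟨nat_lit 3, [⟨nat_lit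 7, nat_lit 5184, nat_lit 16560, nat_lit 13536, nat_lit 15312, nat_lit 6624, R1_282, R2_319, R1_138⟩]⟩, ⟨nat_lit 7, [⟨nat_lit 4, nat_lit 5088, nat_lit 16272, nat_lit 14688, nat_lit 17904, nat_lit 13008, R10_306, R7_373, R5_271⟩, ⟨nat_lit 7, nat_lit 5136, nat_lit 16608, nat_lit 15168, nat_lit 15456, nat_lit 9168, R10_316, R2_322, R11_191⟩]⟩]⟩]], [], [], [[], [⟨nat_lit 5, [⟨nat_lit 7, [⟨nat_lit 7, nat_lit 15552, nat_lit 15792, nat_lit 18720, nat_lit 11376, nat_lit 11472, R10_390, R1_237, R1_239⟩]⟩]⟩], [], [], [], [⟨nat_lit 5, [⟨nat_lit 3, [⟨nat_lit 7, nat_lit 5760, nat_lit 5520, nat_lit 15408, nat_lit 16320, nat_lit 7152, R1_321, R1_340, R1_149⟩]⟩, ⟨nat_lit 7, [⟨nat_lit 7, nat_lit 5712, nat_lit 5568, nat_lit 18672, nat_lit 16464, nat_lit 9216, R10_389, R1_343, R11_192⟩]⟩]⟩]]], [], [[], [], [], [], [], [[], [],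 [], [], [], [⟨nat_lit 0, [⟨nat_lit 0, [⟨nat_lit 0, nat_lit 6816, nat_lit 4608, nat_lit 3744, nat_lit 1824, nat_lit 4320, R7_78, R4_38, R4_90⟩, ⟨nat_lit 3, nat_lit 6864, nat_lit 4992, nat_lit 10800, nat_lit 12720, nat_lit 10704, R7_225, R3_265, R3_223⟩]⟩, ⟨nat_lit 2, [⟨nat_lit 0, nat_lit 6912, nat_lit 5808, nat_lit 2112, nat_lit 8544, nat_lit 720, R2_44, R4_178, R5_15⟩]⟩, ⟨nat_lit 3, [⟨nat_lit 3, nat_lit 7200, nat_lit 5280, nat_lit 4896, nat_lit 13536, nat_lit 6720, R2_102, R3_282, R10_140⟩]⟩]⟩,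
 ⟨nat_lit 2, [⟨nat_lit 2, [⟨nat_lit 0, nat_lit 6960, nat_lit 5856, nat_lit 1584, nat_lit 7152, nat_lit 7680, R1_33, R5_149, R5_160⟩, ⟨nat_lit 2, nat_lit 7008, nat_lit 6768, nat_lit 7008, nat_lit 22176, nat_lit 7296, R1_146, R11_462, R11_152⟩]⟩]⟩,
 ⟨nat_lit 3, [⟨nat_lit 3, [⟨nat_lit 3, nat_lit 7248, nat_lit 5328, nat_lit 3600, nat_lit 19968, nat_lit 6768, R1_75, R10_416, R10_141⟩, ⟨nat_lit 7, nat_lit 7152, nat_lit 5520, nat_lit 15408, nat_lit 16320, nat_lit 5760, R1_321, R1_340, R1_120⟩]⟩]⟩]]]]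
noncomputable def N6200 : T3 (List N0) := [[[[], [⟨nat_lit 0, [⟨nat_lit 0, [⟨nat_lit 2, nat_lit 9072, nat_lit 2976, nat_lit 1632, nat_lit 10944, nat_lit 16272, R6_34, R6_228, R13_339⟩]⟩, ⟨nat_lit 1, [⟨nat_lit 2, nat_lit 10608, nat_lit 3600, nat_lit 1584, nat_lit 11040, nat_lit 12336, R4_33, R6_230, R3_257⟩]⟩, ⟨nat_lit 2, [⟨nat_lit 2, nat_lit 9744, nat_lit 4032, nat_lit 144, nat_lit 10992, nat_lit 1200, R8_3, R6_229, R3_25⟩]⟩]⟩,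
 ⟨nat_lit 2, [⟨nat_lit 2, [⟨nat_lit 2, nat_lit 9840, nat_lit 12480, nat_lit 14784, nat_lit 11808, nat_lit 1440, R5_308, R4_246, R3_30⟩, ⟨nat_lit 6, nat_lit 15168, nat_lit 12384, nat_lit 14832, nat_lit 12864, nat_lit 12480, R5_309, R7_268, R2_260⟩]⟩]⟩,
 ⟨nat_lit 3, [⟨nat_lit 0, [⟨nat_lit 0, nat_lit 2976, nat_lit 9072, nat_lit 16272, nat_lit 10944, nat_lit 1632, R13_339, R6_228, R6_34⟩, ⟨nat_lit 2, nat_lit 9168, nat_lit 9168, nat_lit 16320, nat_lit 10992, nat_lit 16320, R13_340, R8_229, R13_340⟩]⟩, ⟨nat_lit 1, [⟨nat_lit 0, nat_lit 3600, nat_lit 10608, nat_lit 12336, nat_lit 11040, nat_lit 1584, R3_257, R6_230, R4_33⟩, ⟨nat_lit 2, nat_lit 10656, nat_lit 10656, nat_lit 12384, nat_lit 11136, nat_lit 12384, R3_258, R8_232, R3_258⟩]⟩, ⟨nat_lit 2, [⟨nat_lit 2, nat_lit 9936, nat_lit 11040, nat_lit 14016, nat_lit 11040,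 nat_lit 1680, R9_292, R8_230, R3_35⟩]⟩, ⟨nat_lit 3, [⟨nat_lit 0, nat_lit 4032, nat_lit 9744, nat_lit 1200, nat_lit 10992, nat_lit 144, R3_25, R6_229, R8_3⟩, ⟨nat_lit 2, nat_lit 11040, nat_lit 9936, nat_lit 1680, nat_lit 11088, nat_lit 14016, R3_35, R8_231, R9_292⟩, ⟨nat_lit 3, nat_lit 12480, nat_lit 9840, nat_lit 1440, nat_lit 11808, nat_lit 14784, R3_30, R4_246, R5_308⟩]⟩]⟩,
 ⟨nat_lit 7, [⟨nat_lit 3, [⟨nat_lit 3, nat_lit 12384, nat_lit 15168, nat_lit 12480, nat_lit 12144, nat_lit 14832, R2_260, R7_253, R5_309⟩]⟩]⟩], [], [], [], [⟨nat_lit 0, [⟨nat_lit 1, [⟨nat_lit 2, nat_lit 8160, nat_lit 3504, nat_lit 3600, nat_lit 11088, nat_lit 96, R4_75, R6_231, R2_2⟩]⟩]⟩,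
 ⟨nat_lit 3, [⟨nat_lit 1, [⟨nat_lit 0, nat_lit 1584, nat_lit 9648, nat_lit 13584, nat_lit 9936, nat_lit 1056, R3_283, R6_207, R7_22⟩, ⟨nat_lit 2, nat_lit 8208, nat_lit 9792, nat_lit 13632, nat_lit 11184, nat_lit 240, R3_284, R8_233, R2_5⟩]⟩]⟩]], [[], [⟨nat_lit 0, [⟨nat_lit 0, [⟨nat_lit 0, nat_lit 3072, nat_lit 1104, nat_lit 7440, nat_lit 3936, nat_lit 1488, R6_155, R6_82, R6_31⟩, ⟨nat_lit 2, nat_lit 9264, nat_lit 1200, nat_lit 7728, nat_lit 14064, nat_lit 16416, R6_161, R13_293, R13_342⟩]⟩, ⟨nat_lit 1, [⟨nat_lit 0, nat_lit 3648, nat_lit 1920, nat_lit 8160, nat_lit 4176, nat_lit 1488, R4_170, R6_87, R4_31⟩, ⟨nat_lit 2, nat_lit 10704, nat_lit 1968, nat_lit 8304, nat_lit 14160, nat_lit 12480, R4_173, R13_295, R3_260⟩]⟩, ⟨nat_lit 2, [⟨nat_lit 2, nat_lit 10032, nat_lit 2400, nat_lit 4896, nat_lit 14112, nat_lit 1296,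 R8_102, R13_294, R3_27⟩]⟩]⟩,
 ⟨nat_lit 2, [⟨nat_lit 2, [⟨nat_lit 2, nat_lit 10176, nat_lit 11088, nat_lit 15264, nat_lit 3408, nat_lit 1536, R5_318, R3_71, R3_32⟩, ⟨nat_lit 6, nat_lit 15312, nat_lit 10992, nat_lit 15312, nat_lit 11568, nat_lit 12528, R5_319, R2_241, R2_261⟩]⟩]⟩,
 ⟨nat_lit 3, [⟨nat_lit 0, [⟨nat_lit 0, nat_lit 3264, nat_lit 8160, nat_lit 16944, nat_lit 1728, nat_lit 1872, R13_353, R8_36, R6_39⟩, ⟨nat_lit 2, nat_lit 9456, nat_lit 8256, nat_lit 16992, nat_lit 11712, nat_lit 16464, R13_354, R9_244, R13_343⟩]⟩, ⟨nat_lit 1, [⟨nat_lit 0, nat_lit 3792, nat_lit 9696, nat_lit 12768, nat_lit 2928, nat_lit 1728, R3_266, R8_61, R4_36⟩, ⟨nat_lit 2, nat_lit 10848, nat_lit 9744, nat_lit 12816, nat_lit 11856, nat_lit 12528, R3_267, R9_247, R3_261⟩]⟩, ⟨nat_lit 2, [⟨nat_lit 2, nat_lit 10368, nat_lit 10032, nat_lit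 14352, nat_lit 11760, nat_lit 1920, R9_299, R9_245, R3_40⟩]⟩, ⟨nat_lit 3, [⟨nat_lit 0, nat_lit 4128, nat_lit 8784, nat_lit 7632, nat_lit 2592, nat_lit 2016, R3_159, R8_54, R8_42⟩, ⟨nat_lit 2, nat_lit 11136, nat_lit 8976, nat_lit 8208, nat_lit 11808, nat_lit 14112, R3_171, R9_246, R9_294⟩, ⟨nat_lit 3, nat_lit 12576, nat_lit 8880, nat_lit 7920, nat_lit 13632, nat_lit 14928, R3_165, R5_284, R5_311⟩]⟩]⟩], [], [], [], [⟨nat_lit 0, [⟨nat_lit 1, [⟨nat_lit 0, nat_lit 1680, nat_lit 13584, nat_lit 9648, nat_lit 4080, nat_lit 1296, R4_201, R6_85, R7_27⟩, ⟨nat_lit 2, nat_lit 8304, nat_lit 13728, nat_lit 9888, nat_lit 14208, nat_lit 144, R4_206, R13_296, R2_3⟩]⟩]⟩,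
 ⟨nat_lit 3, [⟨nat_lit 1, [⟨nat_lit 0, nat_lit 1824, nat_lit 14352, nat_lit 14352, nat_lit 4032, nat_lit 1392, R3_299, R8_84, R7_29⟩, ⟨nat_lit 2, nat_lit 8448, nat_lit 14496, nat_lit 14400, nat_lit 11904, nat_lit 384, R3_300, R9_248, R2_8⟩]⟩]⟩]], [], [[], [⟨nat_lit 3, [⟨nat_lit 0, [⟨nat_lit 0, nat_lit 3456, nat_lit 3264, nat_lit 17568, nat_lit 2208, nat_lit 1728, R13_366, R4_46, R6_36⟩, ⟨nat_lit 2, nat_lit 9600, nat_lit 3552, nat_lit 17616, nat_lit 2592, nat_lit 16368, R13_367, R5_54, R13_341⟩]⟩, ⟨nat_lit 1, [⟨nat_lit 0, nat_lit 3936, nat_lit 4752, nat_lit 13104, nat_lit 2928, nat_lit 1632, R3_273, R4_61, R4_34⟩, ⟨nat_lit 2, nat_lit 10944, nat_lit 4944, nat_lit 13152, nat_lit 3168, nat_lit 12432, R3_274, R5_66, R3_259⟩]⟩, ⟨nat_lit 2, [⟨nat_lit 2, nat_lit 10464, nat_lit 6528, nat_lit 14592, nat_lit 2784, nat_lit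 1776, R9_304, R5_58, R3_37⟩]⟩, ⟨nat_lit 3, [⟨nat_lit 0, nat_lit 4416, nat_lit 4128, nat_lit 6384, nat_lit 2640, nat_lit 672, R3_133, R4_55, R8_14⟩, ⟨nat_lit 2, nat_lit 11280, nat_lit 4416, nat_lit 6624, nat_lit 3024, nat_lit 14064, R3_138, R5_63, R9_293⟩]⟩]⟩,
 ⟨nat_lit 7, [⟨nat_lit 3, [⟨nat_lit 0, nat_lit 4272, nat_lit 12816, nat_lit 12816, nat_lit 2592, nat_lit 1008, R2_267, R7_54, R8_21⟩, ⟨nat_lit 3, nat_lit 12720, nat_lit 13152, nat_lit 12864, nat_lit 14112, nat_lit 14880, R2_268, R14_294, R5_310⟩]⟩]⟩]]], [[], [[], [⟨nat_lit 0, [⟨nat_lit 0, [⟨nat_lit 0, nat_lit 3168, nat_lit 576, nat_lit 48, nat_lit 3984, nat_lit 1584, R8_1, R6_83, R6_33⟩, ⟨nat_lit 2, nat_lit 9360, nat_lit 672, nat_lit 4800, nat_lit 14256, nat_lit 16800, R8_100, R13_297, R13_350⟩]⟩, ⟨nat_lit 1, [⟨nat_lit 0, nat_lit 3696, nat_lit 1392, nat_lit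 4608, nat_lit 4224, nat_lit 1536, R5_96, R6_88, R4_32⟩, ⟨nat_lit 2, nat_lit 10752, nat_lit 1440, nat_lit 4992, nat_lit 14352, nat_lit 12624, R5_104, R13_299, R3_263⟩]⟩, ⟨nat_lit 2, [⟨nat_lit 2, nat_lit 10128, nat_lit 1872, nat_lit 4128, nat_lit 14304, nat_lit 1392, R9_86, R13_298, R3_29⟩]⟩]⟩,
 ⟨nat_lit 1, [⟨nat_lit 0, [⟨nat_lit 0, nat_lit 3216, nat_lit 6096, nat_lit 14400, nat_lit 4224, nat_lit 2016, R5_300, R4_88, R6_42⟩, ⟨nat_lit 2, nat_lit 9408, nat_lit 6192, nat_lit 14544, nat_lit 10608, nat_lit 16896, R5_303, R3_221, R13_352⟩]⟩, ⟨nat_lit 1, [⟨nat_lit 0, nat_lit 3744, nat_lit 6816, nat_lit 17904, nat_lit 4320, nat_lit 1824, R11_373, R4_90, R4_38⟩, ⟨nat_lit 2, nat_lit 10800, nat_lit 6864, nat_lit 18048, nat_lit 10704, nat_lit 12720, R11_376, R3_223, R3_265⟩]⟩]⟩,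
 ⟨nat_lit 3, [⟨nat_lit 0, [⟨nat_lit 0, nat_lit 3360, nat_lit 8976, nat_lit 13392, nat_lit 1776, nat_lit 1968, R9_279, R8_37, R6_41⟩, ⟨nat_lit 2, nat_lit 9552, nat_lit 9072, nat_lit 13632, nat_lit 11952, nat_lit 16848, R9_284, R9_249, R13_351⟩]⟩]⟩], [], [], [], [⟨nat_lit 0, [⟨nat_lit 1, [⟨nat_lit 0, nat_lit 1728, nat_lit 1296, nat_lit 4512, nat_lit 4128, nat_lit 1344, R5_94, R6_86, R7_28⟩, ⟨nat_lit 2, nat_lit 8352, nat_lit 1392, nat_lit 4896, nat_lit 14400, nat_lit 192, R5_102, R13_300, R2_4⟩]⟩]⟩,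
 ⟨nat_lit 1, [⟨nat_lit 1, [⟨nat_lit 0, nat_lit 1776, nat_lit 7584, nat_lit 17376, nat_lit 4272, nat_lit 1536, R11_362, R4_89, R7_32⟩, ⟨nat_lit 2, nat_lit 8400, nat_lit 7680, nat_lit 17520, nat_lit 10752, nat_lit 624, R11_365, R3_224, R2_13⟩]⟩]⟩]], [], [], [], [[], [], [], [], [], [⟨nat_lit 1, [⟨nat_lit 1, [⟨nat_lit 0, nat_lit 1248, nat_lit 12336, nat_lit 17424, nat_lit 4560, nat_lit 1968, R11_363, R7_95, R7_41⟩, ⟨nat_lit 1, nat_lit 7248, nat_lit 12384, nat_lit 17760, nat_lit 2976, nat_lit 528, R11_370, R2_62, R2_11⟩, ⟨nat_lit 2, nat_lit 8112, nat_lit 12432, nat_lit 17568, nat_lit 2928, nat_lit 576, R11_366, R2_61, R2_12⟩]⟩]⟩]]], [[[⟨nat_lit 0, [⟨nat_lit 0, [⟨nat_lit 2, nat_lit 8640, nat_lit 15504, nat_lit 8640, nat_lit 11136, nat_lit 12192, R4_180, R6_232, R6_254⟩]⟩, ⟨nat_lit 2, [⟨nat_lit 2, nat_lit 8784, nat_lit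 16272, nat_lit 4416, nat_lit 11184, nat_lit 12384, R5_92, R6_233, R4_258⟩]⟩]⟩,
 ⟨nat_lit 2, [⟨nat_lit 2, [⟨nat_lit 2, nat_lit 8832, nat_lit 16416, nat_lit 18288, nat_lit 11856, nat_lit 12432, R11_381, R4_247, R4_259⟩, ⟨nat_lit 6, nat_lit 14880, nat_lit 12096, nat_lit 18336, nat_lit 12912, nat_lit 13728, R11_382, R7_269, R7_286⟩]⟩, ⟨nat_lit 6, [⟨nat_lit 6, nat_lit 14688, nat_lit 12240, nat_lit 13056, nat_lit 12960, nat_lit 13536, R1_272, R7_270, R4_282⟩]⟩]⟩,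
 ⟨nat_lit 3, [⟨nat_lit 0, [⟨nat_lit 2, nat_lit 8688, nat_lit 15600, nat_lit 11040, nat_lit 11280, nat_lit 12240, R3_230, R8_235, R6_255⟩]⟩, ⟨nat_lit 3, [⟨nat_lit 0, nat_lit 2832, nat_lit 13296, nat_lit 14352, nat_lit 10656, nat_lit 13728, R10_299, R6_222, R6_286⟩, ⟨nat_lit 2, nat_lit 8976, nat_lit 16080, nat_lit 14448, nat_lit 11376, nat_lit 13008, R10_301, R8_237, R8_271⟩, ⟨nat_lit 3, nat_lit 12288, nat_lit 14640, nat_lit 14400, nat_lit 11520, nat_lit 13488, R10_300, R4_240, R4_281⟩]⟩]⟩,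
 ⟨nat_lit 4, [⟨nat_lit 4, [⟨nat_lit 7, nat_lit 15504, nat_lit 8640, nat_lit 8640, nat_lit 11136, nat_lit 12192, R4_180, R6_232, R6_254⟩]⟩, ⟨nat_lit 7, [⟨nat_lit 7, nat_lit 16272, nat_lit 8784, nat_lit 4416, nat_lit 11184, nat_lit 12384, R5_92, R6_233, R4_258⟩]⟩]⟩,
 ⟨nat_lit 6, [⟨nat_lit 4, [⟨nat_lit 7, nat_lit 15600, nat_lit 8688, nat_lit 11040, nat_lit 11280, nat_lit 12240, R3_230, R8_235, R6_255⟩]⟩, ⟨nat_lit 6, [⟨nat_lit 4, nat_lit 13296, nat_lit 2832, nat_lit 14352, nat_lit 10656, nat_lit 13728, R10_299, R6_222, R6_286⟩, ⟨nat_lit 6, nat_lit 14640, nat_lit 12288, nat_lit 14400, nat_lit 11520, nat_lit 13488, R10_300, R4_240, R4_281⟩, ⟨nat_lit 7, nat_lit 16080, nat_lit 8976, nat_lit 14448, nat_lit 11376, nat_lit 13008, R10_301, R8_237, R8_271⟩]⟩]⟩,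
 ⟨nat_lit 7, [⟨nat_lit 3, [⟨nat_lit 3, nat_lit 12240, nat_lit 14688, nat_lit 13056, nat_lit 12960, nat_lit 13536, R1_272, R7_270, R4_282⟩]⟩, ⟨nat_lit 7, [⟨nat_lit 3, nat_lit 12096, nat_lit 14880, nat_lit 18336, nat_lit 12912, nat_lit 13728, R11_382, R7_269, R7_286⟩, ⟨nat_lit 7, nat_lit 16416, nat_lit 8832, nat_lit 18288, nat_lit 11856, nat_lit 12432, R11_381, R4_247, R4_259⟩]⟩]⟩], [⟨nat_lit 0, [⟨nat_lit 0, [⟨nat_lit 2, nat_lit 9120, nat_lit 1968, nat_lit 9216, nat_lit 11232, nat_lit 16512, R4_192, R6_234, R13_344⟩]⟩, ⟨nat_lit 2, [⟨nat_lit 2, nat_lit 9792, nat_lit 2016, nat_lit 4464, nat_lit 11280, nat_lit 1248, R5_93, R6_235, R3_26⟩]⟩]⟩,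
 ⟨nat_lit 2, [⟨nat_lit 2, [⟨nat_lit 2, nat_lit 9888, nat_lit 3984, nat_lit 19104, nat_lit 11904, nat_lit 1488, R11_398, R4_248, R3_31⟩, ⟨nat_lit 6, nat_lit 15216, nat_lit 3504, nat_lit 19152, nat_lit 13008, nat_lit 12576, R11_399, R7_271, R2_262⟩]⟩]⟩,
 ⟨nat_lit 3, [⟨nat_lit 0, [⟨nat_lit 0, nat_lit 3024, nat_lit 2352, nat_lit 11568, nat_lit 11328, nat_lit 1680, R3_241, R6_236, R6_35⟩, ⟨nat_lit 2, nat_lit 9216, nat_lit 2832, nat_lit 11904, nat_lit 11424, nat_lit 16560, R3_248, R8_238, R13_345⟩]⟩, ⟨nat_lit 3, [⟨nat_lit 0, nat_lit 4080, nat_lit 2400, nat_lit 15648, nat_lit 11376, nat_lit 192, R10_326, R6_237, R8_4⟩, ⟨nat_lit 2, nat_lit 11088, nat_lit 2880, nat_lit 15744, nat_lit 11520, nat_lit 14160, R10_328, R8_240, R9_295⟩, ⟨nat_lit 3, nat_lit 12528, nat_lit 2688, nat_lit 15696, nat_lit 11952, nat_lit 14976, R10_327,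 R4_249, R5_312⟩]⟩]⟩,
 ⟨nat_lit 7, [⟨nat_lit 3, [⟨nat_lit 3, nat_lit 12432, nat_lit 528, nat_lit 13824, nat_lit 13104, nat_lit 15024, R1_288, R7_273, R5_313⟩]⟩]⟩]], [[], [⟨nat_lit 0, [⟨nat_lit 0, [⟨nat_lit 0, nat_lit 3120, nat_lit 0, nat_lit 3360, nat_lit 4032, nat_lit 1536, R4_70, R6_84, R6_32⟩, ⟨nat_lit 2, nat_lit 9312, nat_lit 192, nat_lit 9360, nat_lit 14448, nat_lit 16656, R4_195, R13_301, R13_347⟩]⟩, ⟨nat_lit 2, [⟨nat_lit 2, nat_lit 10080, nat_lit 240, nat_lit 4848, nat_lit 14496, nat_lit 1344, R5_101, R13_302, R3_28⟩]⟩]⟩,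
 ⟨nat_lit 2, [⟨nat_lit 2, [⟨nat_lit 2, nat_lit 10224, nat_lit 2352, nat_lit 19584, nat_lit 3504, nat_lit 1584, R11_408, R3_73, R3_33⟩, ⟨nat_lit 6, nat_lit 15360, nat_lit 1872, nat_lit 19632, nat_lit 11664, nat_lit 12672, R11_409, R2_243, R2_264⟩]⟩]⟩,
 ⟨nat_lit 3, [⟨nat_lit 0, [⟨nat_lit 0, nat_lit 3312, nat_lit 720, nat_lit 11664, nat_lit 1824, nat_lit 1920, R3_243, R8_38, R6_40⟩, ⟨nat_lit 2, nat_lit 9504, nat_lit 1200, nat_lit 12000, nat_lit 12192, nat_lit 16704, R3_250, R9_254, R13_348⟩]⟩, ⟨nat_lit 3, [⟨nat_lit 0, nat_lit 4176, nat_lit 768, nat_lit 16512, nat_lit 2688, nat_lit 2064, R10_344, R8_56, R8_43⟩, ⟨nat_lit 2, nat_lit 11184, nat_lit 1248, nat_lit 16608, nat_lit 12288, nat_lit 14256, R10_346, R9_256, R9_297⟩, ⟨nat_lit 3, nat_lit 12624, nat_lit 1056, nat_lit 16560, nat_lit 13728, nat_lit 15120, R10_345,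 R5_286, R5_315⟩]⟩]⟩]], [[⟨nat_lit 2, [⟨nat_lit 2, [⟨nat_lit 6, nat_lit 14928, nat_lit 10560, nat_lit 18768, nat_lit 10560, nat_lit 13776, R11_391, R2_220, R7_287⟩]⟩, ⟨nat_lit 6, [⟨nat_lit 6, nat_lit 14832, nat_lit 10752, nat_lit 13104, nat_lit 10512, nat_lit 13680, R1_273, R2_219, R4_285⟩]⟩]⟩,
 ⟨nat_lit 4, [⟨nat_lit 4, [⟨nat_lit 7, nat_lit 15744, nat_lit 7440, nat_lit 8784, nat_lit 9600, nat_lit 12336, R4_183, R8_200, R6_257⟩]⟩, ⟨nat_lit 7, [⟨nat_lit 7, nat_lit 16464, nat_lit 7680, nat_lit 6000, nat_lit 10176, nat_lit 12576, R5_125, R8_212, R4_262⟩]⟩]⟩,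
 ⟨nat_lit 6, [⟨nat_lit 4, [⟨nat_lit 7, nat_lit 15840, nat_lit 7488, nat_lit 11232, nat_lit 10800, nat_lit 12384, R3_234, R9_225, R6_258⟩]⟩, ⟨nat_lit 6, [⟨nat_lit 4, nat_lit 13392, nat_lit 912, nat_lit 14544, nat_lit 13440, nat_lit 13824, R10_303, R13_280, R6_288⟩, ⟨nat_lit 6, nat_lit 14784, nat_lit 10800, nat_lit 14592, nat_lit 10368, nat_lit 13632, R10_304, R3_216, R4_284⟩, ⟨nat_lit 7, nat_lit 16176, nat_lit 8016, nat_lit 14640, nat_lit 10848, nat_lit 13104, R10_305, R9_226, R8_273⟩]⟩]⟩,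
 ⟨nat_lit 7, [⟨nat_lit 7, [⟨nat_lit 7, nat_lit 16608, nat_lit 7728, nat_lit 18432, nat_lit 12768, nat_lit 12624, R11_384, R5_266, R4_263⟩]⟩]⟩], [⟨nat_lit 2, [⟨nat_lit 2, [⟨nat_lit 6, nat_lit 15264, nat_lit 1824, nat_lit 20304, nat_lit 10704, nat_lit 12624, R11_423, R2_223, R2_263⟩]⟩]⟩], [⟨nat_lit 2, [⟨nat_lit 2, [⟨nat_lit 6, nat_lit 15120, nat_lit 10944, nat_lit 20928, nat_lit 10656, nat_lit 14064, R11_436, R2_222, R2_293⟩]⟩, ⟨nat_lit 6, [⟨nat_lit 6, nat_lit 15072, nat_lit 11136, nat_lit 13152, nat_lit 10608, nat_lit 15360, R1_274, R2_221, R3_320⟩]⟩]⟩,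
 ⟨nat_lit 4, [⟨nat_lit 4, [⟨nat_lit 4, nat_lit 13488, nat_lit 0, nat_lit 3216, nat_lit 10704, nat_lit 13680, R4_67, R6_223, R6_285⟩, ⟨nat_lit 5, nat_lit 14304, nat_lit 5808, nat_lit 11664, nat_lit 11568, nat_lit 13440, R4_243, R4_241, R4_280⟩, ⟨nat_lit 7, nat_lit 16800, nat_lit 7968, nat_lit 9120, nat_lit 9648, nat_lit 13392, R4_190, R8_201, R8_279⟩]⟩, ⟨nat_lit 7, [⟨nat_lit 7, nat_lit 17088, nat_lit 8208, nat_lit 6336, nat_lit 10224, nat_lit 16320, R5_132, R8_213, R5_340⟩]⟩]⟩,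
 ⟨nat_lit 6, [⟨nat_lit 4, [⟨nat_lit 4, nat_lit 13584, nat_lit 48, nat_lit 15888, nat_lit 13536, nat_lit 13776, R3_331, R13_282, R6_287⟩, ⟨nat_lit 5, nat_lit 14400, nat_lit 5856, nat_lit 16656, nat_lit 10272, nat_lit 13584, R3_347, R3_214, R4_283⟩, ⟨nat_lit 7, nat_lit 16896, nat_lit 8016, nat_lit 16224, nat_lit 11040, nat_lit 13632, R3_338, R9_230, R8_284⟩]⟩, ⟨nat_lit 6, [⟨nat_lit 4, nat_lit 13680, nat_lit 240, nat_lit 14736, nat_lit 13584, nat_lit 19200, R10_307, R13_283, R13_400⟩, ⟨nat_lit 5, nat_lit 14544, nat_lit 5952, nat_lit 14880, nat_lit 10320, nat_lit 15456, R10_310, R3_215, R3_322⟩, ⟨nat_lit 6, nat_lit 15024, nat_lit 11184, nat_lit 14784, nat_lit 10416, nat_lit 15408, R10_308, R3_217, R3_321⟩, ⟨nat_lit 7, nat_lit 17040, nat_lit 8544, nat_lit 14832, nat_lit 11088, nat_lit 15552, R10_309, R9_231, R9_324⟩]⟩]⟩,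
 ⟨nat_lit 7, [⟨nat_lit 7, [⟨nat_lit 7, nat_lit 17232, nat_lit 8256, nat_lit 18576, nat_lit 12912, nat_lit 16416, R11_387, R5_269, R5_342⟩]⟩]⟩]], [[⟨nat_lit 3, [⟨nat_lit 0, [⟨nat_lit 2, nat_lit 8736, nat_lit 14400, nat_lit 11088, nat_lit 2544, nat_lit 12288, R3_231, R5_53, R6_256⟩]⟩, ⟨nat_lit 3, [⟨nat_lit 0, nat_lit 2928, nat_lit 12144, nat_lit 14928, nat_lit 384, nat_lit 14112, R10_311, R4_8, R6_294⟩, ⟨nat_lit 2, nat_lit 9024, nat_lit 14976, nat_lit 14976, nat_lit 2928, nat_lit 13056, R10_312, R5_61, R8_272⟩]⟩]⟩,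
 ⟨nat_lit 4, [⟨nat_lit 4, [⟨nat_lit 7, nat_lit 15936, nat_lit 3120, nat_lit 8736, nat_lit 10992, nat_lit 12576, R4_182, R4_229, R6_262⟩]⟩, ⟨nat_lit 7, [⟨nat_lit 3, nat_lit 12144, nat_lit 12480, nat_lit 14832, nat_lit 11808, nat_lit 13872, R5_309, R7_246, R7_289⟩, ⟨nat_lit 7, nat_lit 16656, nat_lit 3984, nat_lit 5184, nat_lit 11376, nat_lit 12912, R5_108, R4_237, R4_269⟩]⟩]⟩,
 ⟨nat_lit 6, [⟨nat_lit 4, [⟨nat_lit 7, nat_lit 15984, nat_lit 3168, nat_lit 11136, nat_lit 12816, nat_lit 12624, R3_232, R5_267, R6_263⟩]⟩, ⟨nat_lit 6, [⟨nat_lit 7, nat_lit 16224, nat_lit 6384, nat_lit 14496, nat_lit 12960, nat_lit 13248, R10_302, R5_270, R8_276⟩]⟩]⟩,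
 ⟨nat_lit 7, [⟨nat_lit 3, [⟨nat_lit 0, nat_lit 2880, nat_lit 12000, nat_lit 13200, nat_lit 576, nat_lit 14160, R1_275, R7_12, R6_295⟩, ⟨nat_lit 3, nat_lit 12336, nat_lit 13728, nat_lit 13248, nat_lit 14208, nat_lit 13920, R1_276, R14_296, R4_290⟩]⟩, ⟨nat_lit 7, [⟨nat_lit 3, nat_lit 12192, nat_lit 12576, nat_lit 18384, nat_lit 14256, nat_lit 13920, R11_383, R14_297, R7_290⟩]⟩]⟩], [⟨nat_lit 3, [⟨nat_lit 0, [⟨nat_lit 0, nat_lit 3504, nat_lit 2688, nat_lit 11616, nat_lit 2304, nat_lit 1776, R3_242, R4_48, R6_37⟩, ⟨nat_lit 2, nat_lit 9648, nat_lit 4032, nat_lit 11952, nat_lit 2688, nat_lit 16608, R3_249, R5_56, R13_346⟩]⟩, ⟨nat_lit 3, [⟨nat_lit 0, nat_lit 4464, nat_lit 2832, nat_lit 17424, nat_lit 2688, nat_lit 720, R10_363, R4_56, R8_15⟩, ⟨nat_lit 2, nat_lit 11328, nat_lit 4224, nat_lit 17472, nat_lit 3072, nat_lit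 14208, R10_364, R5_64, R9_296⟩]⟩]⟩,
 ⟨nat_lit 7, [⟨nat_lit 3, [⟨nat_lit 0, nat_lit 4320, nat_lit 13584, nat_lit 14160, nat_lit 2688, nat_lit 1104, R1_295, R7_56, R8_23⟩, ⟨nat_lit 3, nat_lit 12768, nat_lit 13920, nat_lit 14208, nat_lit 14352, nat_lit 15072, R1_296, R14_299, R5_314⟩]⟩]⟩], [], [⟨nat_lit 3, [⟨nat_lit 3, [⟨nat_lit 0, nat_lit 4656, nat_lit 12720, nat_lit 18432, nat_lit 1296, nat_lit 624, R10_384, R4_27, R4_13⟩, ⟨nat_lit 2, nat_lit 11376, nat_lit 15984, nat_lit 18480, nat_lit 2976, nat_lit 240, R10_385, R5_62, R5_5⟩]⟩]⟩,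
 ⟨nat_lit 4, [⟨nat_lit 4, [⟨nat_lit 3, nat_lit 12960, nat_lit 13056, nat_lit 13536, nat_lit 11472, nat_lit 14160, R4_282, R7_239, R7_295⟩, ⟨nat_lit 7, nat_lit 17616, nat_lit 2592, nat_lit 8928, nat_lit 11040, nat_lit 13056, R4_186, R4_230, R4_272⟩]⟩, ⟨nat_lit 7, [⟨nat_lit 3, nat_lit 13104, nat_lit 13824, nat_lit 15024, nat_lit 11856, nat_lit 16512, R5_313, R7_247, R14_344⟩]⟩]⟩,
 ⟨nat_lit 6, [⟨nat_lit 4, [⟨nat_lit 7, nat_lit 17712, nat_lit 2640, nat_lit 15168, nat_lit 12864, nat_lit 13152, R3_316, R5_268, R4_274⟩]⟩, ⟨nat_lit 6, [⟨nat_lit 7, nat_lit 17904, nat_lit 5088, nat_lit 14688, nat_lit 13008, nat_lit 16272, R10_306, R5_271, R5_339⟩]⟩]⟩,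
 ⟨nat_lit 7, [⟨nat_lit 3, [⟨nat_lit 0, nat_lit 4608, nat_lit 12576, nat_lit 15216, nat_lit 1008, nat_lit 1440, R1_317, R7_21, R4_30⟩]⟩, ⟨nat_lit 7, [⟨nat_lit 0, nat_lit 4560, nat_lit 12336, nat_lit 18480, nat_lit 1968, nat_lit 1248, R11_385, R7_41, R7_26⟩, ⟨nat_lit 3, nat_lit 13200, nat_lit 13920, nat_lit 18528, nat_lit 14304, nat_lit 16560, R11_386, R14_298, R14_345⟩]⟩]⟩]]], [[[], [], [], [], [], [⟨nat_lit 3, [⟨nat_lit 1, [⟨nat_lit 0, nat_lit 1632, nat_lit 4512, nat_lit 13152, nat_lit 10320, nat_lit 1104, R10_274, R6_215, R7_23⟩, ⟨nat_lit 2, nat_lit 8256, nat_lit 6096, nat_lit 13440, nat_lit 11232, nat_lit 288, R10_280, R8_234, R2_6⟩]⟩]⟩]], [], [], [[], [⟨nat_lit 3, [⟨nat_lit 0, [⟨nat_lit 0, nat_lit 3552, nat_lit 2736, nat_lit 3072, nat_lit 2256, nat_lit 1824, R3_64, R4_47, R6_38⟩, ⟨nat_lit 2, nat_lit 9696,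 nat_lit 3024, nat_lit 8880, nat_lit 2640, nat_lit 16752, R3_185, R5_55, R13_349⟩]⟩, ⟨nat_lit 1, [⟨nat_lit 0, nat_lit 3984, nat_lit 3456, nat_lit 13968, nat_lit 2976, nat_lit 1680, R10_291, R4_62, R4_35⟩, ⟨nat_lit 2, nat_lit 10992, nat_lit 3648, nat_lit 14112, nat_lit 3216, nat_lit 12576, R10_294, R5_67, R3_262⟩]⟩]⟩,
 ⟨nat_lit 7, [⟨nat_lit 0, [⟨nat_lit 0, nat_lit 3408, nat_lit 13200, nat_lit 12000, nat_lit 2208, nat_lit 1440, R2_250, R7_46, R6_30⟩]⟩, ⟨nat_lit 1, [⟨nat_lit 0, nat_lit 3888, nat_lit 15216, nat_lit 12576, nat_lit 2784, nat_lit 1440, R1_262, R7_58, R4_30⟩]⟩, ⟨nat_lit 3, [⟨nat_lit 0, nat_lit 4368, nat_lit 14160, nat_lit 13584, nat_lit 2640, nat_lit 1056, R12_283, R7_55, R8_22⟩, ⟨nat_lit 3, nat_lit 12816, nat_lit 14496, nat_lit 13632, nat_lit 14160, nat_lit 15168, R12_284, R14_295, R5_316⟩]⟩]⟩], [],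 [], [], [⟨nat_lit 3, [⟨nat_lit 1, [⟨nat_lit 0, nat_lit 2064, nat_lit 17376, nat_lit 13200, nat_lit 4272, nat_lit 1152, R10_275, R4_89, R7_24⟩, ⟨nat_lit 2, nat_lit 8592, nat_lit 17472, nat_lit 13488, nat_lit 3120, nat_lit 336, R10_281, R5_65, R2_7⟩]⟩]⟩,
 ⟨nat_lit 7, [⟨nat_lit 1, [⟨nat_lit 0, nat_lit 2016, nat_lit 17424, nat_lit 12336, nat_lit 4512, nat_lit 1200, R1_257, R7_94, R7_25⟩]⟩]⟩]]], [[], [], [], [[], [], [], [], [], [], [], [⟨nat_lit 4, [⟨nat_lit 5, [⟨nat_lit 3, nat_lit 11808, nat_lit 12480, nat_lit 15168, nat_lit 12144, nat_lit 14832, R7_316, R7_253, R5_309⟩]⟩]⟩,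
 ⟨nat_lit 7, [⟨nat_lit 5, [⟨nat_lit 0, nat_lit 2592, nat_lit 12816, nat_lit 12816, nat_lit 4272, nat_lit 1008, R2_267, R7_89, R8_21⟩, ⟨nat_lit 3, nat_lit 11904, nat_lit 12864, nat_lit 13152, nat_lit 13824, nat_lit 14880, R2_274, R14_288, R5_310⟩]⟩]⟩]], [[], [], [], [], [⟨nat_lit 4, [⟨nat_lit 5, [⟨nat_lit 1, nat_lit 4848, nat_lit 1632, nat_lit 2976, nat_lit 10944, nat_lit 16272, R7_62, R6_228, R13_339⟩]⟩]⟩,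
 ⟨nat_lit 5, [⟨nat_lit 5, [⟨nat_lit 0, nat_lit 0, nat_lit 7440, nat_lit 1104, nat_lit 3936, nat_lit 1488, R2_23, R6_82, R6_31⟩, ⟨nat_lit 1, nat_lit 4944, nat_lit 7728, nat_lit 1200, nat_lit 14064, nat_lit 16416, R2_25, R13_293, R13_342⟩]⟩]⟩], [⟨nat_lit 4, [⟨nat_lit 1, [⟨nat_lit 1, nat_lit 7008, nat_lit 3600, nat_lit 3504, nat_lit 11088, nat_lit 96, R4_73, R6_231, R2_2⟩]⟩, ⟨nat_lit 5, [⟨nat_lit 1, nat_lit 6576, nat_lit 1584, nat_lit 3600, nat_lit 11040, nat_lit 12336, R7_75, R6_230, R3_257⟩]⟩]⟩,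
 ⟨nat_lit 5, [⟨nat_lit 1, [⟨nat_lit 0, nat_lit 1056, nat_lit 9648, nat_lit 13584, nat_lit 4080, nat_lit 1584, R3_283, R6_85, R7_33⟩, ⟨nat_lit 1, nat_lit 7056, nat_lit 9888, nat_lit 13728, nat_lit 14208, nat_lit 144, R3_286, R13_296, R2_3⟩]⟩, ⟨nat_lit 5, [⟨nat_lit 0, nat_lit 624, nat_lit 8160, nat_lit 1920, nat_lit 4176, nat_lit 1488, R2_40, R6_87, R4_31⟩, ⟨nat_lit 1, nat_lit 6624, nat_lit 8304, nat_lit 1968, nat_lit 14160, nat_lit 12480, R2_41, R13_295, R3_260⟩]⟩]⟩], [⟨nat_lit 4, [⟨nat_lit 5, [⟨nat_lit 1, nat_lit 5712, nat_lit 144, nat_lit 4032, nat_lit 10992, nat_lit 1200, R7_84, R6_229, R3_25⟩]⟩]⟩,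
 ⟨nat_lit 5, [⟨nat_lit 5, [⟨nat_lit 1, nat_lit 5808, nat_lit 4896, nat_lit 2400, nat_lit 14112, nat_lit 1296, R2_50, R13_294, R3_27⟩]⟩]⟩]], [], [[], [], [], [], [], [], [⟨nat_lit 4, [⟨nat_lit 5, [⟨nat_lit 1, nat_lit 5952, nat_lit 14784, nat_lit 12480, nat_lit 11808, nat_lit 1440, R7_260, R4_246, R3_30⟩, ⟨nat_lit 5, nat_lit 13872, nat_lit 14832, nat_lit 12384, nat_lit 12864, nat_lit 12480, R7_258, R7_268, R2_260⟩]⟩]⟩]], [[], [], [], [], [⟨nat_lit 4, [⟨nat_lit 5, [⟨nat_lit 0, nat_lit 192, nat_lit 16272, nat_lit 9072, nat_lit 10944, nat_lit 1632, R7_189, R6_228, R6_34⟩, ⟨nat_lit 1, nat_lit 5136, nat_lit 16320, nat_lit 9168, nat_lit 10992, nat_lit 16320, R7_191, R8_229, R13_340⟩]⟩]⟩,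
 ⟨nat_lit 5, [⟨nat_lit 5, [⟨nat_lit 0, nat_lit 288, nat_lit 16944, nat_lit 8160, nat_lit 3744, nat_lit 1872, R2_170, R8_78, R6_39⟩, ⟨nat_lit 1, nat_lit 5232, nat_lit 16992, nat_lit 8256, nat_lit 11712, nat_lit 16464, R2_172, R9_244, R13_343⟩]⟩]⟩,
 ⟨nat_lit 7, [⟨nat_lit 5, [⟨nat_lit 0, nat_lit 432, nat_lit 17568, nat_lit 3264, nat_lit 2208, nat_lit 1728, R2_68, R4_46, R6_36⟩, ⟨nat_lit 1, nat_lit 5376, nat_lit 17616, nat_lit 3552, nat_lit 2592, nat_lit 16368, R2_74, R5_54, R13_341⟩]⟩]⟩], [⟨nat_lit 4, [⟨nat_lit 1, [⟨nat_lit 0, nat_lit 1296, nat_lit 13584, nat_lit 9648, nat_lit 9936, nat_lit 1680, R4_201, R6_207, R7_35⟩, ⟨nat_lit 1, nat_lit 7296, nat_lit 13632, nat_lit 9792, nat_lit 11184, nat_lit 240, R4_204, R8_233, R2_5⟩]⟩, ⟨nat_lit 5, [⟨nat_lit 0, nat_lit 768, nat_lit 12336, nat_lit 10608, nat_lit 11040, nat_lit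 1584, R7_221, R6_230, R4_33⟩, ⟨nat_lit 1, nat_lit 6768, nat_lit 12384, nat_lit 10656, nat_lit 11136, nat_lit 12384, R7_222, R8_232, R3_258⟩]⟩]⟩,
 ⟨nat_lit 5, [⟨nat_lit 1, [⟨nat_lit 0, nat_lit 1392, nat_lit 14352, nat_lit 14352, nat_lit 4032, nat_lit 1824, R3_299, R8_84, R7_38⟩, ⟨nat_lit 1, nat_lit 7392, nat_lit 14400, nat_lit 14496, nat_lit 11904, nat_lit 384, R3_302, R9_248, R2_8⟩]⟩, ⟨nat_lit 5, [⟨nat_lit 0, nat_lit 816, nat_lit 12768, nat_lit 9696, nat_lit 4176, nat_lit 1728, R2_202, R8_87, R4_36⟩, ⟨nat_lit 1, nat_lit 6816, nat_lit 12816, nat_lit 9744, nat_lit 11856, nat_lit 12528, R2_203, R9_247, R3_261⟩]⟩]⟩,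
 ⟨nat_lit 7, [⟨nat_lit 5, [⟨nat_lit 0, nat_lit 912, nat_lit 13104, nat_lit 4752, nat_lit 2928, nat_lit 1632, R2_99, R4_61, R4_34⟩, ⟨nat_lit 1, nat_lit 6912, nat_lit 13152, nat_lit 4944, nat_lit 3168, nat_lit 12432, R2_103, R5_66, R3_259⟩]⟩]⟩], [], [⟨nat_lit 4, [⟨nat_lit 5, [⟨nat_lit 0, nat_lit 2256, nat_lit 1200, nat_lit 9744, nat_lit 10992, nat_lit 1152, R7_203, R6_229, R8_24⟩, ⟨nat_lit 1, nat_lit 7680, nat_lit 1680, nat_lit 9936, nat_lit 11088, nat_lit 14016, R7_207, R8_231, R9_292⟩, ⟨nat_lit 3, nat_lit 11568, nat_lit 1440, nat_lit 9840, nat_lit 11808, nat_lit 14784, R7_205, R4_246, R5_308⟩]⟩]⟩,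
 ⟨nat_lit 7, [⟨nat_lit 5, [⟨nat_lit 0, nat_lit 2496, nat_lit 6384, nat_lit 4128, nat_lit 2640, nat_lit 1248, R2_86, R4_55, R8_26⟩, ⟨nat_lit 1, nat_lit 7920, nat_lit 6624, nat_lit 4416, nat_lit 3024, nat_lit 14064, R2_92, R5_63, R9_293⟩]⟩]⟩]]], [[], [], [], [], [[], [], [], [], [], [⟨nat_lit 5, [⟨nat_lit 1, [⟨nat_lit 0, nat_lit 1104, nat_lit 4512, nat_lit 1296, nat_lit 4128, nat_lit 1632, R10_27, R6_86, R7_34⟩, ⟨nat_lit 1, nat_lit 7104, nat_lit 4896, nat_lit 1392, nat_lit 14400, nat_lit 192, R10_29, R13_300, R2_4⟩]⟩, ⟨nat_lit 5, [⟨nat_lit 0, nat_lit 672, nat_lit 4608, nat_lit 1392, nat_lit 4224, nat_lit 1536, R1_29, R6_88, R4_32⟩, ⟨nat_lit 1, nat_lit 6672, nat_lit 4992, nat_lit 1440, nat_lit 14352, nat_lit 12624, R1_30, R13_299, R3_263⟩]⟩]⟩]], [[], [], [], [], [], [⟨nat_lit 1, [⟨nat_lit 1, [⟨nat_lit 0, nat_lit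 1200, nat_lit 17424, nat_lit 12336, nat_lit 4512, nat_lit 2016, R1_257, R7_94, R7_42⟩, ⟨nat_lit 1, nat_lit 7200, nat_lit 17568, nat_lit 12432, nat_lit 2928, nat_lit 576, R1_259, R2_61, R2_12⟩, ⟨nat_lit 2, nat_lit 8064, nat_lit 17760, nat_lit 12384, nat_lit 2976, nat_lit 528, R1_258, R2_62, R2_11⟩]⟩]⟩,
 ⟨nat_lit 5, [⟨nat_lit 1, [⟨nat_lit 0, nat_lit 1152, nat_lit 17376, nat_lit 7584, nat_lit 4272, nat_lit 2064, R10_158, R4_89, R7_43⟩, ⟨nat_lit 1, nat_lit 7152, nat_lit 17520, nat_lit 7680, nat_lit 10752, nat_lit 624, R10_160, R3_224, R2_13⟩]⟩, ⟨nat_lit 5, [⟨nat_lit 0, nat_lit 720, nat_lit 17904, nat_lit 6816, nat_lit 4320, nat_lit 1824, R1_142, R4_90, R4_38⟩, ⟨nat_lit 1, nat_lit 6720, nat_lit 18048, nat_lit 6864, nat_lit 10704, nat_lit 12720, R1_143, R3_223, R3_265⟩]⟩]⟩]]], [[[⟨nat_lit 4, [⟨nat_lit 4, [⟨nat_lit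 7, nat_lit 15456, nat_lit 8640, nat_lit 8640, nat_lit 10032, nat_lit 12720, R7_180, R6_209, R6_265⟩]⟩]⟩,
 ⟨nat_lit 6, [⟨nat_lit 4, [⟨nat_lit 7, nat_lit 15552, nat_lit 8784, nat_lit 7440, nat_lit 9600, nat_lit 12816, R2_155, R8_200, R6_267⟩]⟩, ⟨nat_lit 6, [⟨nat_lit 4, nat_lit 13248, nat_lit 3216, nat_lit 0, nat_lit 10704, nat_lit 13680, R1_0, R6_223, R6_285⟩, ⟨nat_lit 6, nat_lit 14592, nat_lit 11664, nat_lit 5808, nat_lit 11568, nat_lit 13440, R1_121, R4_241, R4_280⟩, ⟨nat_lit 7, nat_lit 16032, nat_lit 9120, nat_lit 7968, nat_lit 9648, nat_lit 13392, R1_166, R8_201, R8_279⟩]⟩]⟩,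
 ⟨nat_lit 7, [⟨nat_lit 4, [⟨nat_lit 7, nat_lit 15648, nat_lit 8736, nat_lit 3120, nat_lit 10992, nat_lit 12768, R2_65, R4_229, R6_266⟩]⟩, ⟨nat_lit 7, [⟨nat_lit 3, nat_lit 12048, nat_lit 13536, nat_lit 13056, nat_lit 11472, nat_lit 14160, R1_272, R7_239, R7_295⟩, ⟨nat_lit 7, nat_lit 16368, nat_lit 8928, nat_lit 2592, nat_lit 11040, nat_lit 13056, R1_54, R4_230, R4_272⟩]⟩]⟩], [], [], [⟨nat_lit 4, [⟨nat_lit 4, [⟨nat_lit 7, nat_lit 17280, nat_lit 4416, nat_lit 8784, nat_lit 10512, nat_lit 12384, R7_183, R6_219, R4_258⟩]⟩]⟩,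
 ⟨nat_lit 6, [⟨nat_lit 4, [⟨nat_lit 7, nat_lit 17328, nat_lit 6000, nat_lit 7680, nat_lit 10176, nat_lit 12576, R2_160, R8_212, R4_262⟩]⟩, ⟨nat_lit 6, [⟨nat_lit 7, nat_lit 17760, nat_lit 6336, nat_lit 8208, nat_lit 10224, nat_lit 16320, R1_171, R8_213, R5_340⟩]⟩]⟩,
 ⟨nat_lit 7, [⟨nat_lit 4, [⟨nat_lit 3, nat_lit 12864, nat_lit 14832, nat_lit 12480, nat_lit 11808, nat_lit 13872, R2_260, R7_246, R7_289⟩, ⟨nat_lit 7, nat_lit 17376, nat_lit 5184, nat_lit 3984, nat_lit 11376, nat_lit 12912, R2_83, R4_237, R4_269⟩]⟩, ⟨nat_lit 7, [⟨nat_lit 3, nat_lit 13056, nat_lit 15024, nat_lit 13824, nat_lit 11856, nat_lit 16608, R1_288, R7_247, R14_346⟩]⟩]⟩]], [], [[⟨nat_lit 4, [⟨nat_lit 4, [⟨nat_lit 7, nat_lit 15696, nat_lit 11040, nat_lit 8688, nat_lit 11280, nat_lit 13008, R7_181, R8_235, R6_271⟩]⟩]⟩,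
 ⟨nat_lit 6, [⟨nat_lit 4, [⟨nat_lit 7, nat_lit 15792, nat_lit 11232, nat_lit 7488, nat_lit 10944, nat_lit 13104, R2_156, R9_228, R6_273⟩]⟩, ⟨nat_lit 6, [⟨nat_lit 4, nat_lit 13344, nat_lit 15888, nat_lit 48, nat_lit 13488, nat_lit 13776, R1_1, R13_281, R6_287⟩, ⟨nat_lit 6, nat_lit 14736, nat_lit 16656, nat_lit 5856, nat_lit 10272, nat_lit 13584, R1_122, R3_214, R4_283⟩, ⟨nat_lit 7, nat_lit 16128, nat_lit 16224, nat_lit 8016, nat_lit 10992, nat_lit 13632, R1_167, R9_229, R8_284⟩]⟩]⟩,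
 ⟨nat_lit 7, [⟨nat_lit 4, [⟨nat_lit 7, nat_lit 15888, nat_lit 11136, nat_lit 3168, nat_lit 12816, nat_lit 13056, R2_66, R5_267, R6_272⟩]⟩, ⟨nat_lit 7, [⟨nat_lit 7, nat_lit 16560, nat_lit 15168, nat_lit 2640, nat_lit 12864, nat_lit 13152, R1_55, R5_268, R4_274⟩]⟩]⟩], [], [⟨nat_lit 4, [⟨nat_lit 4, [⟨nat_lit 4, nat_lit 13440, nat_lit 14352, nat_lit 2832, nat_lit 10656, nat_lit 13728, R7_59, R6_222, R6_286⟩, ⟨nat_lit 5, nat_lit 14256, nat_lit 14400, nat_lit 12288, nat_lit 11520, nat_lit 13488, R7_256, R4_240, R4_281⟩, ⟨nat_lit 7, nat_lit 16752, nat_lit 14448, nat_lit 8976, nat_lit 11376, nat_lit 13008, R7_187, R8_237, R8_271⟩]⟩]⟩,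
 ⟨nat_lit 6, [⟨nat_lit 4, [⟨nat_lit 4, nat_lit 13536, nat_lit 14544, nat_lit 912, nat_lit 13632, nat_lit 13824, R2_19, R13_284, R6_288⟩, ⟨nat_lit 5, nat_lit 14352, nat_lit 14592, nat_lit 10800, nat_lit 10368, nat_lit 13632, R2_225, R3_216, R4_284⟩, ⟨nat_lit 7, nat_lit 16848, nat_lit 14640, nat_lit 8016, nat_lit 11184, nat_lit 13104, R2_167, R9_233, R8_273⟩]⟩, ⟨nat_lit 6, [⟨nat_lit 4, nat_lit 13632, nat_lit 14736, nat_lit 240, nat_lit 13680, nat_lit 19152, R1_5, R13_285, R13_399⟩, ⟨nat_lit 5, nat_lit 14496, nat_lit 14784, nat_lit 11184, nat_lit 10416, nat_lit 15408, R1_233, R3_217, R3_321⟩, ⟨nat_lit 6, nat_lit 14976, nat_lit 14880, nat_lit 5952, nat_lit 10320, nat_lit 15456, R1_124, R3_215, R3_322⟩, ⟨nat_lit 7, nat_lit 16992, nat_lit 14832, nat_lit 8544, nat_lit 11232, nat_lit 15504, R1_178, R9_234, R9_323⟩]⟩]⟩,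
 ⟨nat_lit 7, [⟨nat_lit 4, [⟨nat_lit 7, nat_lit 16944, nat_lit 14496, nat_lit 6384, nat_lit 12960, nat_lit 13248, R2_133, R5_270, R8_276⟩]⟩, ⟨nat_lit 7, [⟨nat_lit 7, nat_lit 17184, nat_lit 14688, nat_lit 5088, nat_lit 13008, nat_lit 16272, R1_106, R5_271, R5_339⟩]⟩]⟩]], [[], [], [], [⟨nat_lit 4, [⟨nat_lit 4, [⟨nat_lit 3, nat_lit 12912, nat_lit 18336, nat_lit 14880, nat_lit 12912, nat_lit 13728, R7_310, R7_269, R7_286⟩, ⟨nat_lit 7, nat_lit 17568, nat_lit 18288, nat_lit 8832, nat_lit 11856, nat_lit 12432, R7_184, R4_247, R4_259⟩]⟩]⟩,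
 ⟨nat_lit 6, [⟨nat_lit 4, [⟨nat_lit 7, nat_lit 17664, nat_lit 18432, nat_lit 7728, nat_lit 12768, nat_lit 12624, R2_161, R5_266, R4_263⟩]⟩, ⟨nat_lit 6, [⟨nat_lit 7, nat_lit 17856, nat_lit 18576, nat_lit 8256, nat_lit 12912, nat_lit 16416, R1_172, R5_269, R5_342⟩]⟩]⟩,
 ⟨nat_lit 7, [⟨nat_lit 4, [⟨nat_lit 3, nat_lit 13008, nat_lit 18384, nat_lit 12576, nat_lit 13920, nat_lit 13920, R2_262, R14_290, R7_290⟩]⟩, ⟨nat_lit 7, [⟨nat_lit 0, nat_lit 4512, nat_lit 18480, nat_lit 12336, nat_lit 2016, nat_lit 1200, R1_257, R7_42, R7_25⟩, ⟨nat_lit 3, nat_lit 13152, nat_lit 18528, nat_lit 13920, nat_lit 13968, nat_lit 16656, R1_290, R14_291, R14_347⟩]⟩]⟩], [], [], [], [⟨nat_lit 4, [⟨nat_lit 4, [⟨nat_lit 3, nat_lit 11472, nat_lit 13056, nat_lit 14688, nat_lit 12960, nat_lit 13536, R7_306, R7_270, R4_282⟩]⟩, ⟨nat_lit 5, [⟨nat_lit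 3, nat_lit 11856, nat_lit 13824, nat_lit 528, nat_lit 13104, nat_lit 15024, R14_11, R7_273, R5_313⟩]⟩]⟩,
 ⟨nat_lit 7, [⟨nat_lit 4, [⟨nat_lit 0, nat_lit 2208, nat_lit 13200, nat_lit 12000, nat_lit 3408, nat_lit 14160, R2_250, R7_71, R6_295⟩, ⟨nat_lit 3, nat_lit 11520, nat_lit 13248, nat_lit 13728, nat_lit 14016, nat_lit 13920, R2_286, R14_292, R4_290⟩]⟩, ⟨nat_lit 5, [⟨nat_lit 0, nat_lit 2640, nat_lit 14160, nat_lit 13584, nat_lit 4368, nat_lit 1056, R12_283, R7_91, R8_22⟩, ⟨nat_lit 3, nat_lit 11952, nat_lit 14208, nat_lit 13920, nat_lit 14064, nat_lit 15072, R12_290, R14_293, R5_314⟩]⟩, ⟨nat_lit 7, [⟨nat_lit 0, nat_lit 2784, nat_lit 15216, nat_lit 12576, nat_lit 3888, nat_lit 1440, R1_262, R7_81, R4_30⟩]⟩]⟩]], [[], [], [], [], [⟨nat_lit 4, [⟨nat_lit 4, [⟨nat_lit 1, nat_lit 4704, nat_lit 8640, nat_lit 15504, nat_lit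 11136, nat_lit 12192, R7_323, R6_232, R6_254⟩]⟩, ⟨nat_lit 5, [⟨nat_lit 1, nat_lit 4896, nat_lit 9216, nat_lit 1968, nat_lit 11232, nat_lit 16512, R14_41, R6_234, R13_344⟩]⟩]⟩,
 ⟨nat_lit 5, [⟨nat_lit 5, [⟨nat_lit 0, nat_lit 48, nat_lit 3360, nat_lit 0, nat_lit 4032, nat_lit 1536, R12_0, R6_84, R6_32⟩, ⟨nat_lit 1, nat_lit 4992, nat_lit 9360, nat_lit 192, nat_lit 14448, nat_lit 16656, R12_4, R13_301, R13_347⟩]⟩]⟩], [], [⟨nat_lit 4, [⟨nat_lit 4, [⟨nat_lit 1, nat_lit 5520, nat_lit 4416, nat_lit 16272, nat_lit 11184, nat_lit 12384, R7_339, R6_233, R4_258⟩]⟩, ⟨nat_lit 5, [⟨nat_lit 1, nat_lit 5760, nat_lit 4464, nat_lit 2016, nat_lit 11280, nat_lit 1248, R14_42, R6_235, R3_26⟩]⟩]⟩,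
 ⟨nat_lit 5, [⟨nat_lit 5, [⟨nat_lit 1, nat_lit 5856, nat_lit 4848, nat_lit 240, nat_lit 14496, nat_lit 1344, R12_5, R13_302, R3_28⟩]⟩]⟩]], [], [[], [], [⟨nat_lit 4, [⟨nat_lit 4, [⟨nat_lit 5, nat_lit 14160, nat_lit 13056, nat_lit 12240, nat_lit 12960, nat_lit 13536, R7_255, R7_270, R4_282⟩]⟩]⟩,
 ⟨nat_lit 6, [⟨nat_lit 4, [⟨nat_lit 5, nat_lit 14208, nat_lit 13104, nat_lit 10752, nat_lit 10512, nat_lit 13680, R2_224, R2_219, R4_285⟩]⟩, ⟨nat_lit 6, [⟨nat_lit 5, nat_lit 14448, nat_lit 13152, nat_lit 11136, nat_lit 10608, nat_lit 15360, R1_232, R2_221, R3_320⟩]⟩]⟩], [], [], [], [⟨nat_lit 4, [⟨nat_lit 4, [⟨nat_lit 1, nat_lit 5568, nat_lit 18288, nat_lit 16416, nat_lit 11856, nat_lit 12432, R7_342, R4_247, R4_259⟩, ⟨nat_lit 5, nat_lit 13728, nat_lit 18336, nat_lit 12096, nat_lit 12912, nat_lit 13728, R7_252, R7_269,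 R7_286⟩]⟩, ⟨nat_lit 5, [⟨nat_lit 1, nat_lit 6000, nat_lit 19104, nat_lit 3984, nat_lit 11904, nat_lit 1488, R14_83, R4_248, R3_31⟩, ⟨nat_lit 5, nat_lit 13920, nat_lit 19152, nat_lit 3504, nat_lit 13008, nat_lit 12576, R14_73, R7_271, R2_262⟩]⟩]⟩,
 ⟨nat_lit 6, [⟨nat_lit 4, [⟨nat_lit 5, nat_lit 13776, nat_lit 18768, nat_lit 10560, nat_lit 10560, nat_lit 13776, R2_220, R2_220, R7_287⟩]⟩, ⟨nat_lit 5, [⟨nat_lit 5, nat_lit 13968, nat_lit 20304, nat_lit 1824, nat_lit 10704, nat_lit 12624, R12_38, R2_223, R2_263⟩]⟩, ⟨nat_lit 6, [⟨nat_lit 5, nat_lit 13824, nat_lit 20928, nat_lit 10944, nat_lit 10656, nat_lit 14064, R1_228, R2_222, R2_293⟩]⟩]⟩]], [[], [], [], [], [⟨nat_lit 4, [⟨nat_lit 4, [⟨nat_lit 1, nat_lit 4752, nat_lit 11040, nat_lit 15600, nat_lit 11280, nat_lit 12240, R7_325, R8_235, R6_255⟩]⟩, ⟨nat_lit 5, [⟨nat_lit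 0, nat_lit 240, nat_lit 11568, nat_lit 2352, nat_lit 11328, nat_lit 1680, R14_49, R6_236, R6_35⟩, ⟨nat_lit 1, nat_lit 5184, nat_lit 11904, nat_lit 2832, nat_lit 11424, nat_lit 16560, R14_59, R8_238, R13_345⟩]⟩]⟩,
 ⟨nat_lit 5, [⟨nat_lit 5, [⟨nat_lit 0, nat_lit 336, nat_lit 11664, nat_lit 720, nat_lit 3840, nat_lit 1920, R12_15, R8_80, R6_40⟩, ⟨nat_lit 1, nat_lit 5280, nat_lit 12000, nat_lit 1200, nat_lit 12192, nat_lit 16704, R12_25, R9_254, R13_348⟩]⟩]⟩,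
 ⟨nat_lit 7, [⟨nat_lit 4, [⟨nat_lit 1, nat_lit 4800, nat_lit 11088, nat_lit 14400, nat_lit 2544, nat_lit 12288, R2_300, R5_53, R6_256⟩]⟩, ⟨nat_lit 5, [⟨nat_lit 0, nat_lit 480, nat_lit 11616, nat_lit 2688, nat_lit 2304, nat_lit 1776, R12_56, R4_48, R6_37⟩, ⟨nat_lit 1, nat_lit 5424, nat_lit 11952, nat_lit 4032, nat_lit 2688, nat_lit 16608, R12_84, R5_56, R13_346⟩]⟩]⟩], [], [], [⟨nat_lit 4, [⟨nat_lit 4, [⟨nat_lit 0, nat_lit 2112, nat_lit 14352, nat_lit 13296, nat_lit 10656, nat_lit 13728, R7_277, R6_222, R6_286⟩, ⟨nat_lit 1, nat_lit 7584, nat_lit 14448, nat_lit 16080, nat_lit 11376, nat_lit 13008, R7_335, R8_237, R8_271⟩, ⟨nat_lit 3, nat_lit 11424, nat_lit 14400, nat_lit 14640, nat_lit 11520, nat_lit 13488, R7_305, R4_240, R4_281⟩]⟩, ⟨nat_lit 5, [⟨nat_lit 0, nat_lit 2304, nat_lit 15648, nat_lit 2400, nat_lit 11376,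 nat_lit 1200, R14_50, R6_237, R8_25⟩, ⟨nat_lit 1, nat_lit 7728, nat_lit 15744, nat_lit 2880, nat_lit 11520, nat_lit 14160, R14_60, R8_240, R9_295⟩, ⟨nat_lit 3, nat_lit 11616, nat_lit 15696, nat_lit 2688, nat_lit 11952, nat_lit 14976, R14_56, R4_249, R5_312⟩]⟩]⟩,
 ⟨nat_lit 5, [⟨nat_lit 5, [⟨nat_lit 0, nat_lit 2400, nat_lit 16512, nat_lit 768, nat_lit 3984, nat_lit 1392, R12_16, R8_83, R8_29⟩, ⟨nat_lit 1, nat_lit 7824, nat_lit 16608, nat_lit 1248, nat_lit 12288, nat_lit 14256, R12_26, R9_256, R9_297⟩]⟩]⟩,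
 ⟨nat_lit 7, [⟨nat_lit 4, [⟨nat_lit 0, nat_lit 2160, nat_lit 14928, nat_lit 12144, nat_lit 384, nat_lit 14112, R2_253, R4_8, R6_294⟩, ⟨nat_lit 1, nat_lit 7632, nat_lit 14976, nat_lit 14976, nat_lit 2928, nat_lit 13056, R2_312, R5_61, R8_272⟩]⟩, ⟨nat_lit 5, [⟨nat_lit 0, nat_lit 2544, nat_lit 17424, nat_lit 2832, nat_lit 2688, nat_lit 1296, R12_59, R4_56, R8_27⟩, ⟨nat_lit 1, nat_lit 7968, nat_lit 17472, nat_lit 4224, nat_lit 3072, nat_lit 14208, R12_88, R5_64, R9_296⟩]⟩, ⟨nat_lit 7, [⟨nat_lit 0, nat_lit 2736, nat_lit 18432, nat_lit 12720, nat_lit 1296, nat_lit 624, R1_265, R4_27, R4_13⟩, ⟨nat_lit 1, nat_lit 8016, nat_lit 18480, nat_lit 15984, nat_lit 2976, nat_lit 240, R1_333, R5_62, R5_5⟩]⟩]⟩]]], [[], [], [], [[], [], [], [], [], [⟨nat_lit 7, [⟨nat_lit 1, [⟨nat_lit 0, nat_lit 1968, nat_lit 12336, nat_lit 17424,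 nat_lit 4560, nat_lit 1248, R11_363, R7_95, R7_26⟩]⟩, ⟨nat_lit 5, [⟨nat_lit 0, nat_lit 1008, nat_lit 12576, nat_lit 15216, nat_lit 4608, nat_lit 1440, R1_317, R7_96, R4_30⟩]⟩]⟩]], [], [], [], [[], [], [], [], [], [⟨nat_lit 4, [⟨nat_lit 1, [⟨nat_lit 0, nat_lit 1344, nat_lit 13152, nat_lit 4512, nat_lit 10320, nat_lit 1728, R5_94, R6_215, R7_36⟩, ⟨nat_lit 1, nat_lit 7344, nat_lit 13440, nat_lit 6096, nat_lit 11232, nat_lit 288, R5_127, R8_234, R2_6⟩]⟩]⟩,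
 ⟨nat_lit 7, [⟨nat_lit 1, [⟨nat_lit 0, nat_lit 1536, nat_lit 13200, nat_lit 17376, nat_lit 4272, nat_lit 1776, R11_362, R4_89, R7_37⟩, ⟨nat_lit 1, nat_lit 7536, nat_lit 13488, nat_lit 17472, nat_lit 3120, nat_lit 336, R11_364, R5_65, R2_7⟩]⟩, ⟨nat_lit 5, [⟨nat_lit 0, nat_lit 960, nat_lit 13968, nat_lit 3456, nat_lit 2976, nat_lit 1680, R1_72, R4_62, R4_35⟩, ⟨nat_lit 1, nat_lit 6960, nat_lit 14112, nat_lit 3648, nat_lit 3216, nat_lit 12576, R1_76, R5_67, R3_262⟩]⟩]⟩]]]]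
noncomputable def N6222 : T3 (List N0) := [[[[], [⟨nat_lit 0, [⟨nat_lit 0, [⟨nat_lit 0, nat_lit 576, nat_lit 3168, nat_lit 1584, nat_lit 3984, nat_lit 3312, R6_33, R6_83, R8_69⟩, ⟨nat_lit 1, nat_lit 6096, nat_lit 3216, nat_lit 2016, nat_lit 4224, nat_lit 14400, R6_42, R4_88, R5_300⟩, ⟨nat_lit 2, nat_lit 8976, nat_lit 3360, nat_lit 1968, nat_lit 1776, nat_lit 13392, R6_41, R8_37, R9_279⟩]⟩, ⟨nat_lit 1, [⟨nat_lit 0, nat_lit 1392, nat_lit 3696, nat_lit 1536, nat_lit 4224, nat_lit 4608, R4_32, R6_88, R5_96⟩, ⟨nat_lit 1, nat_lit 6816, nat_lit 3744, nat_lit 1824, nat_lit 4320, nat_lit 4608, R4_38, R4_90, R11_96⟩]⟩]⟩,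
 ⟨nat_lit 3, [⟨nat_lit 0, [⟨nat_lit 0, nat_lit 672, nat_lit 9360, nat_lit 16800, nat_lit 14256, nat_lit 8160, R13_350, R13_297, R8_170⟩, ⟨nat_lit 1, nat_lit 6192, nat_lit 9408, nat_lit 16896, nat_lit 10608, nat_lit 14544, R13_352, R3_221, R5_303⟩, ⟨nat_lit 2, nat_lit 9072, nat_lit 9552, nat_lit 16848, nat_lit 11952, nat_lit 13632, R13_351, R9_249, R9_284⟩]⟩, ⟨nat_lit 1, [⟨nat_lit 0, nat_lit 1440, nat_lit 10752, nat_lit 12624, nat_lit 14352, nat_lit 4992, R3_263, R13_299, R5_104⟩, ⟨nat_lit 1, nat_lit 6864, nat_lit 10800, nat_lit 12720, nat_lit 10704, nat_lit 4992, R3_265, R3_223, R11_104⟩]⟩, ⟨nat_lit 3, [⟨nat_lit 0, nat_lit 1872, nat_lit 10128, nat_lit 1392, nat_lit 14304, nat_lit 4128, R3_29, R13_298, R9_86⟩]⟩]⟩], [], [], [], [⟨nat_lit 0, [⟨nat_lit 1, [⟨nat_lit 1, nat_lit 4512, nat_lit 3792, nat_lit 4032, nat_lit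 3072, nat_lit 3936, R4_84, R4_64, R1_82⟩]⟩]⟩,
 ⟨nat_lit 3, [⟨nat_lit 1, [⟨nat_lit 1, nat_lit 4560, nat_lit 10128, nat_lit 14304, nat_lit 9744, nat_lit 3984, R3_298, R3_203, R1_83⟩]⟩]⟩]], [[], [⟨nat_lit 0, [⟨nat_lit 0, [⟨nat_lit 0, nat_lit 864, nat_lit 1488, nat_lit 7680, nat_lit 1680, nat_lit 3360, R6_160, R8_35, R8_70⟩, ⟨nat_lit 1, nat_lit 6288, nat_lit 1536, nat_lit 8160, nat_lit 336, nat_lit 14448, R6_170, R5_7, R5_301⟩, ⟨nat_lit 2, nat_lit 9264, nat_lit 1680, nat_lit 8112, nat_lit 960, nat_lit 13440, R6_169, R9_20, R9_280⟩]⟩, ⟨nat_lit 1, [⟨nat_lit 0, nat_lit 1488, nat_lit 2064, nat_lit 8256, nat_lit 9552, nat_lit 6192, R4_172, R8_199, R5_129⟩, ⟨nat_lit 1, nat_lit 6912, nat_lit 2112, nat_lit 8544, nat_lit 720, nat_lit 5808, R4_178, R5_15, R11_121⟩]⟩]⟩,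
 ⟨nat_lit 3, [⟨nat_lit 0, [⟨nat_lit 0, nat_lit 1056, nat_lit 8544, nat_lit 17472, nat_lit 6336, nat_lit 8304, R13_364, R9_132, R8_173⟩]⟩, ⟨nat_lit 1, [⟨nat_lit 0, nat_lit 1632, nat_lit 9840, nat_lit 13008, nat_lit 7536, nat_lit 6720, R3_271, R9_157, R5_140⟩]⟩, ⟨nat_lit 3, [⟨nat_lit 0, nat_lit 2016, nat_lit 9312, nat_lit 7872, nat_lit 7200, nat_lit 6624, R3_164, R9_150, R9_138⟩]⟩]⟩], [], [], [], [⟨nat_lit 0, [⟨nat_lit 1, [⟨nat_lit 1, nat_lit 4656, nat_lit 14256, nat_lit 10368, nat_lit 816, nat_lit 4224, R4_216, R5_17, R1_88⟩]⟩]⟩]], [], [[], [⟨nat_lit 3, [⟨nat_lit 0, [⟨nat_lit 0, nat_lit 1248, nat_lit 3456, nat_lit 18144, nat_lit 2304, nat_lit 8256, R13_378, R3_48, R8_172⟩, ⟨nat_lit 1, nat_lit 6672, nat_lit 3504, nat_lit 18240, nat_lit 6000, nat_lit 14592, R13_380, R10_125, R5_304⟩]⟩, ⟨nat_lit 1, [⟨nat_lit 0,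 nat_lit 1776, nat_lit 4848, nat_lit 13440, nat_lit 9936, nat_lit 5664, R3_280, R3_207, R5_118⟩, ⟨nat_lit 1, nat_lit 7200, nat_lit 4896, nat_lit 13536, nat_lit 6720, nat_lit 5280, R3_282, R10_140, R11_110⟩]⟩, ⟨nat_lit 3, [⟨nat_lit 0, nat_lit 2304, nat_lit 4320, nat_lit 6576, nat_lit 7200, nat_lit 5280, R3_137, R3_150, R9_110⟩]⟩]⟩,
 ⟨nat_lit 7, [⟨nat_lit 3, [⟨nat_lit 0, nat_lit 2160, nat_lit 13008, nat_lit 13584, nat_lit 6864, nat_lit 5616, R2_283, R2_143, R9_117⟩]⟩]⟩]]], [[], [[], [⟨nat_lit 0, [⟨nat_lit 0, [⟨nat_lit 0, nat_lit 960, nat_lit 960, nat_lit 2256, nat_lit 2496, nat_lit 3696, R8_47, R8_52, R8_77⟩, ⟨nat_lit 1, nat_lit 6384, nat_lit 1008, nat_lit 9936, nat_lit 6528, nat_lit 17136, R8_207, R5_136, R5_357⟩, ⟨nat_lit 2, nat_lit 9360, nat_lit 1152, nat_lit 6768, nat_lit 6384, nat_lit 16800, R8_141, R9_133,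 R9_350⟩]⟩, ⟨nat_lit 1, [⟨nat_lit 0, nat_lit 1536, nat_lit 1536, nat_lit 6240, nat_lit 10080, nat_lit 6240, R5_130, R8_210, R5_130⟩, ⟨nat_lit 1, nat_lit 6960, nat_lit 1584, nat_lit 7152, nat_lit 7680, nat_lit 5856, R5_149, R5_160, R11_122⟩]⟩]⟩,
 ⟨nat_lit 1, [⟨nat_lit 0, [⟨nat_lit 0, nat_lit 1008, nat_lit 6384, nat_lit 17136, nat_lit 6528, nat_lit 10944, R5_357, R5_136, R8_228⟩, ⟨nat_lit 1, nat_lit 6432, nat_lit 6432, nat_lit 17472, nat_lit 6144, nat_lit 17472, R5_364, R11_128, R5_364⟩]⟩, ⟨nat_lit 1, [⟨nat_lit 0, nat_lit 1584, nat_lit 6960, nat_lit 21840, nat_lit 7680, nat_lit 7152, R11_455, R5_160, R5_149⟩, ⟨nat_lit 1, nat_lit 7008, nat_lit 7008, nat_lit 22176, nat_lit 7296, nat_lit 6768, R11_462, R11_152, R11_141⟩]⟩]⟩,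
 ⟨nat_lit 3, [⟨nat_lit 0, [⟨nat_lit 0, nat_lit 1152, nat_lit 9360, nat_lit 16800, nat_lit 6384, nat_lit 8976, R9_350, R9_133, R8_187⟩]⟩]⟩], [], [], [], [⟨nat_lit 0, [⟨nat_lit 1, [⟨nat_lit 1, nat_lit 4704, nat_lit 1776, nat_lit 7104, nat_lit 7776, nat_lit 4272, R5_148, R5_162, R1_89⟩]⟩]⟩,
 ⟨nat_lit 1, [⟨nat_lit 1, [⟨nat_lit 1, nat_lit 4752, nat_lit 7968, nat_lit 21744, nat_lit 9360, nat_lit 4464, R11_453, R11_195, R1_93⟩]⟩]⟩]], [], [], [], [[], [], [], [], [], [⟨nat_lit 1, [⟨nat_lit 1, [⟨nat_lit 1, nat_lit 4176, nat_lit 15600, nat_lit 21792, nat_lit 7824, nat_lit 4944, R11_454, R1_163, R1_103⟩]⟩]⟩]]], [[[⟨nat_lit 0, [⟨nat_lit 0, [⟨nat_lit 0, nat_lit 0, nat_lit 13488, nat_lit 3216, nat_lit 10704, nat_lit 13680, R4_67, R6_223, R6_285⟩, ⟨nat_lit 1, nat_lit 5808, nat_lit 14304, nat_lit 11664, nat_lit 11568, nat_lit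 13440, R4_243, R4_241, R4_280⟩, ⟨nat_lit 2, nat_lit 7968, nat_lit 16800, nat_lit 9120, nat_lit 9648, nat_lit 13392, R4_190, R8_201, R8_279⟩]⟩, ⟨nat_lit 2, [⟨nat_lit 2, nat_lit 8208, nat_lit 17088, nat_lit 6336, nat_lit 10224, nat_lit 16320, R5_132, R8_213, R5_340⟩]⟩]⟩,
 ⟨nat_lit 2, [⟨nat_lit 2, [⟨nat_lit 2, nat_lit 8256, nat_lit 17232, nat_lit 18576, nat_lit 12912, nat_lit 16416, R11_387, R5_269, R5_342⟩]⟩]⟩,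
 ⟨nat_lit 3, [⟨nat_lit 0, [⟨nat_lit 0, nat_lit 48, nat_lit 13584, nat_lit 15888, nat_lit 13536, nat_lit 13776, R3_331, R13_282, R6_287⟩, ⟨nat_lit 1, nat_lit 5856, nat_lit 14400, nat_lit 16656, nat_lit 10272, nat_lit 13584, R3_347, R3_214, R4_283⟩, ⟨nat_lit 2, nat_lit 8016, nat_lit 16896, nat_lit 16224, nat_lit 11040, nat_lit 13632, R3_338, R9_230, R8_284⟩]⟩, ⟨nat_lit 3, [⟨nat_lit 0, nat_lit 240, nat_lit 13680, nat_lit 14736, nat_lit 13584, nat_lit 19200, R10_307, R13_283, R13_400⟩, ⟨nat_lit 1, nat_lit 5952, nat_lit 14544, nat_lit 14880, nat_lit 10320, nat_lit 15456, R10_310, R3_215, R3_322⟩, ⟨nat_lit 2, nat_lit 8544, nat_lit 17040, nat_lit 14832, nat_lit 11088, nat_lit 15552, R10_309, R9_231, R9_324⟩, ⟨nat_lit 3, nat_lit 11184, nat_lit 15024, nat_lit 14784, nat_lit 10416, nat_lit 15408, R10_308, R3_217, R3_321⟩]⟩]⟩,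
 ⟨nat_lit 7, [⟨nat_lit 3, [⟨nat_lit 3, nat_lit 11136, nat_lit 15072, nat_lit 13152, nat_lit 10608, nat_lit 15360, R1_274, R2_221, R3_320⟩]⟩, ⟨nat_lit 7, [⟨nat_lit 3, nat_lit 10944, nat_lit 15120, nat_lit 20928, nat_lit 10656, nat_lit 14064, R11_436, R2_222, R2_293⟩]⟩]⟩], [⟨nat_lit 0, [⟨nat_lit 0, [⟨nat_lit 0, nat_lit 624, nat_lit 8160, nat_lit 4080, nat_lit 11472, nat_lit 3408, R4_85, R6_239, R8_71⟩, ⟨nat_lit 1, nat_lit 6144, nat_lit 8448, nat_lit 11712, nat_lit 12000, nat_lit 15984, R4_244, R4_250, R5_333⟩, ⟨nat_lit 2, nat_lit 9024, nat_lit 8688, nat_lit 10416, nat_lit 9744, nat_lit 15072, R4_217, R8_203, R9_314⟩]⟩]⟩,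
 ⟨nat_lit 3, [⟨nat_lit 0, [⟨nat_lit 0, nat_lit 720, nat_lit 9264, nat_lit 16848, nat_lit 14784, nat_lit 8496, R3_351, R13_308, R8_177⟩, ⟨nat_lit 1, nat_lit 6240, nat_lit 9744, nat_lit 17184, nat_lit 10800, nat_lit 16080, R3_358, R3_225, R5_335⟩, ⟨nat_lit 2, nat_lit 9120, nat_lit 10368, nat_lit 17040, nat_lit 12624, nat_lit 15216, R3_355, R9_263, R9_317⟩]⟩, ⟨nat_lit 3, [⟨nat_lit 0, nat_lit 1920, nat_lit 9312, nat_lit 16368, nat_lit 14832, nat_lit 4176, R10_341, R13_309, R9_87⟩]⟩]⟩]], [[], [⟨nat_lit 0, [⟨nat_lit 0, [⟨nat_lit 0, nat_lit 912, nat_lit 6768, nat_lit 4128, nat_lit 2880, nat_lit 3504, R4_86, R8_60, R8_73⟩, ⟨nat_lit 1, nat_lit 6336, nat_lit 7056, nat_lit 11760, nat_lit 12720, nat_lit 16032, R4_245, R5_265, R5_334⟩, ⟨nat_lit 2, nat_lit 9312, nat_lit 7296, nat_lit 10464, nat_lit 10368, nat_lit 15168, R4_218,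 R9_216, R9_316⟩]⟩]⟩,
 ⟨nat_lit 3, [⟨nat_lit 0, [⟨nat_lit 0, nat_lit 1104, nat_lit 8160, nat_lit 16944, nat_lit 6432, nat_lit 8640, R3_353, R9_134, R8_180⟩]⟩, ⟨nat_lit 3, [⟨nat_lit 0, nat_lit 2064, nat_lit 8208, nat_lit 17280, nat_lit 7296, nat_lit 6672, R10_360, R9_152, R9_139⟩]⟩]⟩]], [[⟨nat_lit 0, [⟨nat_lit 0, [⟨nat_lit 0, nat_lit 96, nat_lit 12192, nat_lit 3264, nat_lit 432, nat_lit 14064, R4_68, R4_9, R6_293⟩, ⟨nat_lit 2, nat_lit 8064, nat_lit 15024, nat_lit 9168, nat_lit 528, nat_lit 13440, R4_191, R5_11, R8_280⟩]⟩, ⟨nat_lit 2, [⟨nat_lit 2, nat_lit 8352, nat_lit 15360, nat_lit 7200, nat_lit 7488, nat_lit 16656, R5_150, R5_156, R5_347⟩]⟩]⟩,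
 ⟨nat_lit 2, [⟨nat_lit 2, [⟨nat_lit 2, nat_lit 8400, nat_lit 15504, nat_lit 19056, nat_lit 15840, nat_lit 16752, R11_397, R11_330, R5_349⟩]⟩]⟩,
 ⟨nat_lit 3, [⟨nat_lit 0, [⟨nat_lit 0, nat_lit 144, nat_lit 12288, nat_lit 15984, nat_lit 3648, nat_lit 14208, R3_333, R3_76, R6_296⟩]⟩, ⟨nat_lit 3, [⟨nat_lit 0, nat_lit 288, nat_lit 12432, nat_lit 15504, nat_lit 4176, nat_lit 19584, R10_323, R3_87, R13_408⟩, ⟨nat_lit 3, nat_lit 11280, nat_lit 14208, nat_lit 15552, nat_lit 12288, nat_lit 15744, R10_324, R10_256, R3_328⟩]⟩]⟩,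
 ⟨nat_lit 7, [⟨nat_lit 3, [⟨nat_lit 3, nat_lit 11232, nat_lit 14256, nat_lit 13776, nat_lit 10992, nat_lit 15696, R1_287, R1_229, R3_327⟩]⟩, ⟨nat_lit 7, [⟨nat_lit 3, nat_lit 11040, nat_lit 14304, nat_lit 21024, nat_lit 11040, nat_lit 14304, R11_438, R1_230, R2_298⟩]⟩]⟩], [⟨nat_lit 0, [⟨nat_lit 0, [⟨nat_lit 0, nat_lit 768, nat_lit 2928, nat_lit 4176, nat_lit 2736, nat_lit 3456, R4_87, R4_57, R8_72⟩, ⟨nat_lit 2, nat_lit 9168, nat_lit 4320, nat_lit 10512, nat_lit 672, nat_lit 15120, R4_219, R5_14, R9_315⟩]⟩]⟩,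
 ⟨nat_lit 3, [⟨nat_lit 0, [⟨nat_lit 0, nat_lit 816, nat_lit 3408, nat_lit 16992, nat_lit 7056, nat_lit 8592, R3_354, R3_147, R8_179⟩]⟩, ⟨nat_lit 3, [⟨nat_lit 0, nat_lit 1968, nat_lit 3456, nat_lit 18336, nat_lit 7440, nat_lit 5040, R10_382, R3_155, R9_105⟩]⟩]⟩], [⟨nat_lit 0, [⟨nat_lit 0, [⟨nat_lit 0, nat_lit 432, nat_lit 12768, nat_lit 4464, nat_lit 1344, nat_lit 576, R4_93, R4_28, R4_12⟩, ⟨nat_lit 2, nat_lit 8688, nat_lit 16032, nat_lit 10752, nat_lit 576, nat_lit 2160, R4_224, R5_12, R5_45⟩]⟩, ⟨nat_lit 2, [⟨nat_lit 2, nat_lit 8784, nat_lit 16368, nat_lit 7344, nat_lit 7536, nat_lit 21600, R5_153, R5_157, R11_450⟩]⟩]⟩,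
 ⟨nat_lit 2, [⟨nat_lit 2, [⟨nat_lit 2, nat_lit 8832, nat_lit 16512, nat_lit 21216, nat_lit 16416, nat_lit 21696, R11_442, R11_342, R11_452⟩, ⟨nat_lit 6, nat_lit 15840, nat_lit 11424, nat_lit 21264, nat_lit 11424, nat_lit 15840, R11_443, R1_238, R1_330⟩]⟩, ⟨nat_lit 6, [⟨nat_lit 6, nat_lit 15792, nat_lit 11472, nat_lit 15552, nat_lit 11376, nat_lit 19440, R1_324, R1_237, R10_405⟩]⟩]⟩,
 ⟨nat_lit 3, [⟨nat_lit 0, [⟨nat_lit 0, nat_lit 480, nat_lit 12864, nat_lit 17328, nat_lit 4800, nat_lit 6960, R3_361, R3_100, R4_145⟩]⟩, ⟨nat_lit 3, [⟨nat_lit 0, nat_lit 528, nat_lit 13008, nat_lit 18912, nat_lit 5904, nat_lit 5136, R10_394, R3_123, R3_107⟩, ⟨nat_lit 3, nat_lit 11520, nat_lit 15744, nat_lit 18960, nat_lit 12576, nat_lit 19392, R10_395, R10_262, R10_404⟩]⟩]⟩,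
 ⟨nat_lit 4, [⟨nat_lit 4, [⟨nat_lit 4, nat_lit 12768, nat_lit 432, nat_lit 4464, nat_lit 1344, nat_lit 576, R4_93, R4_28, R4_12⟩, ⟨nat_lit 7, nat_lit 16032, nat_lit 8688, nat_lit 10752, nat_lit 576, nat_lit 2160, R4_224, R5_12, R5_45⟩]⟩, ⟨nat_lit 7, [⟨nat_lit 7, nat_lit 16368, nat_lit 8784, nat_lit 7344, nat_lit 7536, nat_lit 21600, R5_153, R5_157, R11_450⟩]⟩]⟩,
 ⟨nat_lit 6, [⟨nat_lit 4, [⟨nat_lit 4, nat_lit 12864, nat_lit 480, nat_lit 17328, nat_lit 4800, nat_lit 6960, R3_361, R3_100, R4_145⟩]⟩, ⟨nat_lit 6, [⟨nat_lit 4, nat_lit 13008, nat_lit 528, nat_lit 18912, nat_lit 5904, nat_lit 5136, R10_394, R3_123, R3_107⟩, ⟨nat_lit 6, nat_lit 15744, nat_lit 11520, nat_lit 18960, nat_lit 12576, nat_lit 19392, R10_395, R10_262, R10_404⟩]⟩]⟩,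
 ⟨nat_lit 7, [⟨nat_lit 3, [⟨nat_lit 3, nat_lit 11472, nat_lit 15792, nat_lit 15552, nat_lit 11376, nat_lit 19440, R1_324, R1_237, R10_405⟩]⟩, ⟨nat_lit 7, [⟨nat_lit 3, nat_lit 11424, nat_lit 15840, nat_lit 21264, nat_lit 11424, nat_lit 15840, R11_443, R1_238, R1_330⟩, ⟨nat_lit 7, nat_lit 16512, nat_lit 8832, nat_lit 21216, nat_lit 16416, nat_lit 21696, R11_442, R11_342, R11_452⟩]⟩]⟩]], [[⟨nat_lit 3, [⟨nat_lit 0, [⟨nat_lit 0, nat_lit 192, nat_lit 11904, nat_lit 15936, nat_lit 624, nat_lit 13968, R3_332, R3_13, R6_291⟩, ⟨nat_lit 1, nat_lit 5904, nat_lit 13920, nat_lit 16704, nat_lit 3360, nat_lit 13776, R3_348, R10_70, R4_287⟩]⟩, ⟨nat_lit 3, [⟨nat_lit 0, nat_lit 384, nat_lit 12384, nat_lit 15216, nat_lit 4224, nat_lit 19680, R10_317, R3_88, R13_410⟩, ⟨nat_lit 1, nat_lit 6048, nat_lit 14160, nat_lit 15312, nat_lit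 3936, nat_lit 15792, R10_319, R10_82, R3_329⟩]⟩]⟩,
 ⟨nat_lit 7, [⟨nat_lit 3, [⟨nat_lit 0, nat_lit 336, nat_lit 12336, nat_lit 13584, nat_lit 3936, nat_lit 19728, R1_283, R2_82, R13_411⟩, ⟨nat_lit 1, nat_lit 6000, nat_lit 14112, nat_lit 13680, nat_lit 3408, nat_lit 15840, R1_285, R1_71, R3_330⟩, ⟨nat_lit 3, nat_lit 11328, nat_lit 13872, nat_lit 13632, nat_lit 10608, nat_lit 15648, R1_284, R12_221, R3_326⟩]⟩, ⟨nat_lit 7, [⟨nat_lit 3, nat_lit 11088, nat_lit 12768, nat_lit 20976, nat_lit 10560, nat_lit 14352, R11_437, R12_220, R2_299⟩]⟩]⟩], [⟨nat_lit 3, [⟨nat_lit 0, [⟨nat_lit 0, nat_lit 1296, nat_lit 3072, nat_lit 16896, nat_lit 2736, nat_lit 8544, R3_352, R3_57, R8_178⟩, ⟨nat_lit 1, nat_lit 6720, nat_lit 3600, nat_lit 17232, nat_lit 6096, nat_lit 16128, R3_359, R10_127, R5_336⟩]⟩, ⟨nat_lit 3, [⟨nat_lit 0, nat_lit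 2352, nat_lit 3312, nat_lit 17952, nat_lit 7488, nat_lit 5328, R10_374, R3_156, R9_111⟩]⟩]⟩,
 ⟨nat_lit 7, [⟨nat_lit 3, [⟨nat_lit 0, nat_lit 2208, nat_lit 13728, nat_lit 14928, nat_lit 6960, nat_lit 5712, R1_311, R2_145, R9_119⟩]⟩]⟩], [], [⟨nat_lit 3, [⟨nat_lit 3, [⟨nat_lit 0, nat_lit 2544, nat_lit 12960, nat_lit 18768, nat_lit 5952, nat_lit 5088, R10_391, R3_124, R3_106⟩, ⟨nat_lit 1, nat_lit 7920, nat_lit 15696, nat_lit 18864, nat_lit 5040, nat_lit 4272, R10_393, R10_105, R10_89⟩]⟩]⟩,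
 ⟨nat_lit 7, [⟨nat_lit 3, [⟨nat_lit 0, nat_lit 2496, nat_lit 12912, nat_lit 15456, nat_lit 5184, nat_lit 13392, R1_322, R2_108, R3_279⟩, ⟨nat_lit 1, nat_lit 7872, nat_lit 15648, nat_lit 15504, nat_lit 3888, nat_lit 5184, R1_323, R1_81, R10_108⟩]⟩, ⟨nat_lit 7, [⟨nat_lit 0, nat_lit 2448, nat_lit 12480, nat_lit 21072, nat_lit 6240, nat_lit 5472, R11_439, R2_130, R2_114⟩, ⟨nat_lit 1, nat_lit 7824, nat_lit 15600, nat_lit 21168, nat_lit 4944, nat_lit 4176, R11_441, R1_103, R1_87⟩, ⟨nat_lit 3, nat_lit 12288, nat_lit 14112, nat_lit 21120, nat_lit 10656, nat_lit 15312, R11_440, R12_222, R12_319⟩]⟩]⟩]]], [[[], [], [], [], [], [⟨nat_lit 3, [⟨nat_lit 1, [⟨nat_lit 1, nat_lit 4608, nat_lit 5568, nat_lit 19488, nat_lit 10032, nat_lit 4032, R10_406, R3_209, R1_84⟩]⟩]⟩]], [], [], [[], [⟨nat_lit 3, [⟨nat_lit 0, [⟨nat_lit 0, nat_lit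 1344, nat_lit 2928, nat_lit 3360, nat_lit 2448, nat_lit 8448, R3_70, R3_51, R8_176⟩, ⟨nat_lit 1, nat_lit 6768, nat_lit 2976, nat_lit 10560, nat_lit 6048, nat_lit 16464, R3_220, R10_126, R5_343⟩]⟩, ⟨nat_lit 1, [⟨nat_lit 0, nat_lit 1824, nat_lit 3552, nat_lit 19632, nat_lit 10080, nat_lit 5712, R10_409, R3_210, R5_119⟩, ⟨nat_lit 1, nat_lit 7248, nat_lit 3600, nat_lit 19968, nat_lit 6768, nat_lit 5328, R10_416, R10_141, R11_111⟩]⟩]⟩,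
 ⟨nat_lit 7, [⟨nat_lit 0, [⟨nat_lit 0, nat_lit 1200, nat_lit 13392, nat_lit 14928, nat_lit 6480, nat_lit 15072, R2_311, R2_135, R8_314⟩, ⟨nat_lit 1, nat_lit 6624, nat_lit 13536, nat_lit 15312, nat_lit 5184, nat_lit 16560, R2_319, R1_108, R5_345⟩]⟩, ⟨nat_lit 1, [⟨nat_lit 0, nat_lit 1728, nat_lit 15312, nat_lit 15936, nat_lit 7056, nat_lit 5904, R1_332, R2_147, R5_123⟩, ⟨nat_lit 1, nat_lit 7152, nat_lit 15408, nat_lit 16320, nat_lit 5760, nat_lit 5520, R1_340, R1_120, R11_115⟩]⟩, ⟨nat_lit 3, [⟨nat_lit 0, nat_lit 2256, nat_lit 14352, nat_lit 14736, nat_lit 6912, nat_lit 5664, R12_307, R2_144, R9_118⟩]⟩]⟩], [], [], [], [⟨nat_lit 3, [⟨nat_lit 1, [⟨nat_lit 1, nat_lit 5040, nat_lit 21312, nat_lit 19536, nat_lit 8448, nat_lit 4080, R10_407, R10_176, R1_85⟩]⟩]⟩,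
 ⟨nat_lit 7, [⟨nat_lit 1, [⟨nat_lit 1, nat_lit 4992, nat_lit 21360, nat_lit 15888, nat_lit 7776, nat_lit 4128, R1_331, R1_162, R1_86⟩]⟩]⟩]]], [[], [], [], [], [[], [], [], [], [⟨nat_lit 4, [⟨nat_lit 5, [⟨nat_lit 1, nat_lit 2736, nat_lit 1824, nat_lit 3552, nat_lit 2256, nat_lit 3072, R7_74, R4_47, R3_64⟩, ⟨nat_lit 5, nat_lit 13200, nat_lit 1440, nat_lit 3408, nat_lit 2208, nat_lit 12000, R7_71, R7_46, R2_250⟩]⟩]⟩,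
 ⟨nat_lit 5, [⟨nat_lit 5, [⟨nat_lit 1, nat_lit 2832, nat_lit 7968, nat_lit 1872, nat_lit 2112, nat_lit 3120, R2_39, R3_44, R3_65⟩, ⟨nat_lit 5, nat_lit 13296, nat_lit 7392, nat_lit 1728, nat_lit 672, nat_lit 12096, R2_36, R2_14, R2_252⟩]⟩]⟩,
 ⟨nat_lit 7, [⟨nat_lit 5, [⟨nat_lit 5, nat_lit 13440, nat_lit 6768, nat_lit 0, nat_lit 1008, nat_lit 12048, R2_0, R2_21, R2_251⟩]⟩]⟩], [⟨nat_lit 4, [⟨nat_lit 1, [⟨nat_lit 1, nat_lit 3936, nat_lit 3792, nat_lit 4032, nat_lit 3072, nat_lit 4512, R4_84, R4_64, R1_94⟩]⟩, ⟨nat_lit 5, [⟨nat_lit 1, nat_lit 3456, nat_lit 1680, nat_lit 3984, nat_lit 2976, nat_lit 13968, R7_83, R4_62, R10_291⟩, ⟨nat_lit 5, nat_lit 15216, nat_lit 1440, nat_lit 3888, nat_lit 2784, nat_lit 12576, R7_81, R7_58, R1_262⟩]⟩]⟩,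
 ⟨nat_lit 5, [⟨nat_lit 1, [⟨nat_lit 1, nat_lit 3984, nat_lit 10128, nat_lit 14304, nat_lit 9744, nat_lit 4560, R3_298, R3_203, R1_95⟩]⟩, ⟨nat_lit 5, [⟨nat_lit 1, nat_lit 3504, nat_lit 8400, nat_lit 2352, nat_lit 9792, nat_lit 14016, R2_49, R3_204, R10_292⟩, ⟨nat_lit 5, nat_lit 15264, nat_lit 8112, nat_lit 2256, nat_lit 864, nat_lit 12672, R2_47, R2_18, R1_264⟩]⟩]⟩,
 ⟨nat_lit 7, [⟨nat_lit 5, [⟨nat_lit 5, nat_lit 15360, nat_lit 7344, nat_lit 48, nat_lit 3024, nat_lit 12624, R2_1, R2_63, R1_263⟩]⟩]⟩], [⟨nat_lit 4, [⟨nat_lit 5, [⟨nat_lit 5, nat_lit 14160, nat_lit 1056, nat_lit 4368, nat_lit 2640, nat_lit 13584, R7_91, R7_55, R12_283⟩]⟩]⟩,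
 ⟨nat_lit 5, [⟨nat_lit 5, [⟨nat_lit 5, nat_lit 14256, nat_lit 6192, nat_lit 2784, nat_lit 768, nat_lit 13824, R2_58, R2_16, R12_288⟩]⟩]⟩,
 ⟨nat_lit 7, [⟨nat_lit 5, [⟨nat_lit 5, nat_lit 14400, nat_lit 6960, nat_lit 816, nat_lit 2736, nat_lit 13680, R2_17, R2_57, R12_285⟩]⟩]⟩]], [], [[], [], [], [], [], [], [⟨nat_lit 4, [⟨nat_lit 5, [⟨nat_lit 5, nat_lit 14496, nat_lit 15168, nat_lit 12816, nat_lit 12864, nat_lit 13632, R7_267, R14_268, R12_284⟩]⟩]⟩,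
 ⟨nat_lit 7, [⟨nat_lit 5, [⟨nat_lit 5, nat_lit 14784, nat_lit 15936, nat_lit 10464, nat_lit 2256, nat_lit 13776, R2_218, R12_47, R12_287⟩]⟩]⟩]], [[], [], [], [], [⟨nat_lit 4, [⟨nat_lit 5, [⟨nat_lit 1, nat_lit 3024, nat_lit 16752, nat_lit 9696, nat_lit 2640, nat_lit 8880, R7_202, R5_55, R3_185⟩]⟩]⟩,
 ⟨nat_lit 7, [⟨nat_lit 5, [⟨nat_lit 1, nat_lit 3264, nat_lit 18048, nat_lit 3888, nat_lit 9024, nat_lit 8976, R2_81, R11_188, R3_187⟩, ⟨nat_lit 5, nat_lit 13584, nat_lit 18096, nat_lit 3936, nat_lit 336, nat_lit 12336, R2_82, R1_7, R2_257⟩]⟩]⟩], [⟨nat_lit 4, [⟨nat_lit 1, [⟨nat_lit 1, nat_lit 4224, nat_lit 14256, nat_lit 10368, nat_lit 816, nat_lit 4656, R4_216, R5_17, R1_97⟩]⟩, ⟨nat_lit 5, [⟨nat_lit 1, nat_lit 3648, nat_lit 12576, nat_lit 10992, nat_lit 3216, nat_lit 14112, R7_229, R5_67, R10_294⟩]⟩]⟩,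
 ⟨nat_lit 7, [⟨nat_lit 5, [⟨nat_lit 1, nat_lit 3792, nat_lit 13344, nat_lit 5136, nat_lit 9408, nat_lit 14160, R2_107, R11_196, R10_295⟩, ⟨nat_lit 5, nat_lit 15456, nat_lit 13392, nat_lit 5184, nat_lit 2496, nat_lit 12912, R2_108, R1_52, R1_269⟩]⟩]⟩]]], [[], [], [], [], [[], [], [], [], [], [⟨nat_lit 5, [⟨nat_lit 1, [⟨nat_lit 1, nat_lit 4032, nat_lit 5568, nat_lit 2016, nat_lit 10032, nat_lit 4608, R10_42, R3_209, R1_96⟩]⟩, ⟨nat_lit 5, [⟨nat_lit 1, nat_lit 3552, nat_lit 5712, nat_lit 1824, nat_lit 10080, nat_lit 19632, R1_38, R3_210, R10_409⟩, ⟨nat_lit 5, nat_lit 15312, nat_lit 5904, nat_lit 1728, nat_lit 7056, nat_lit 15936, R1_36, R2_147, R1_332⟩]⟩]⟩]], [[], [], [], [], [], [⟨nat_lit 1, [⟨nat_lit 1, [⟨nat_lit 1, nat_lit 4128, nat_lit 21360, nat_lit 15888, nat_lit 7776, nat_lit 4992, R1_331, R1_162, R1_104⟩]⟩]⟩,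
 ⟨nat_lit 5, [⟨nat_lit 1, [⟨nat_lit 1, nat_lit 4080, nat_lit 21312, nat_lit 8208, nat_lit 6864, nat_lit 5040, R10_171, R10_143, R1_105⟩]⟩, ⟨nat_lit 5, [⟨nat_lit 1, nat_lit 3600, nat_lit 21408, nat_lit 7248, nat_lit 6768, nat_lit 19968, R1_151, R10_141, R10_416⟩, ⟨nat_lit 5, nat_lit 15408, nat_lit 21504, nat_lit 7152, nat_lit 5760, nat_lit 16320, R1_149, R1_120, R1_340⟩]⟩]⟩]]], [[[⟨nat_lit 7, [⟨nat_lit 7, [⟨nat_lit 3, nat_lit 10896, nat_lit 13872, nat_lit 13728, nat_lit 10848, nat_lit 14016, R1_286, R2_226, R2_292⟩]⟩]⟩], [], [], [⟨nat_lit 7, [⟨nat_lit 7, [⟨nat_lit 3, nat_lit 12144, nat_lit 15600, nat_lit 15072, nat_lit 11184, nat_lit 15168, R1_314, R2_233, R12_316⟩]⟩]⟩]], [], [[⟨nat_lit 7, [⟨nat_lit 7, [⟨nat_lit 3, nat_lit 10992, nat_lit 15696, nat_lit 13776, nat_lit 11232, nat_lit 14256, R1_287, R1_234, R2_297⟩]⟩]⟩],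 [], [⟨nat_lit 4, [⟨nat_lit 4, [⟨nat_lit 4, nat_lit 12720, nat_lit 18432, nat_lit 4656, nat_lit 1296, nat_lit 624, R7_97, R4_27, R4_13⟩, ⟨nat_lit 7, nat_lit 15984, nat_lit 18480, nat_lit 11376, nat_lit 2976, nat_lit 240, R7_237, R5_62, R5_5⟩]⟩]⟩,
 ⟨nat_lit 6, [⟨nat_lit 4, [⟨nat_lit 4, nat_lit 12816, nat_lit 18576, nat_lit 3072, nat_lit 4848, nat_lit 7008, R2_64, R3_101, R4_146⟩]⟩, ⟨nat_lit 6, [⟨nat_lit 4, nat_lit 12960, nat_lit 18768, nat_lit 2544, nat_lit 5952, nat_lit 5088, R1_53, R3_124, R3_106⟩, ⟨nat_lit 6, nat_lit 15696, nat_lit 18864, nat_lit 7920, nat_lit 12624, nat_lit 19344, R1_165, R10_263, R10_403⟩]⟩]⟩,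
 ⟨nat_lit 7, [⟨nat_lit 4, [⟨nat_lit 7, nat_lit 16176, nat_lit 18528, nat_lit 7008, nat_lit 16464, nat_lit 5952, R2_146, R11_343, R5_124⟩]⟩, ⟨nat_lit 7, [⟨nat_lit 3, nat_lit 11376, nat_lit 18720, nat_lit 15552, nat_lit 11472, nat_lit 15792, R1_324, R1_239, R1_329⟩, ⟨nat_lit 7, nat_lit 16464, nat_lit 18672, nat_lit 5712, nat_lit 16512, nat_lit 21552, R1_119, R11_344, R11_449⟩]⟩]⟩]], [[], [], [], [⟨nat_lit 7, [⟨nat_lit 7, [⟨nat_lit 0, nat_lit 2400, nat_lit 20784, nat_lit 12528, nat_lit 6288, nat_lit 5424, R1_261, R2_131, R2_113⟩, ⟨nat_lit 1, nat_lit 7776, nat_lit 20832, nat_lit 15888, nat_lit 4992, nat_lit 4128, R1_331, R1_104, R1_86⟩, ⟨nat_lit 3, nat_lit 12240, nat_lit 20880, nat_lit 15120, nat_lit 10704, nat_lit 15264, R1_315, R12_223, R12_318⟩]⟩]⟩], [], [], [], [⟨nat_lit 7, [⟨nat_lit 4, [⟨nat_lit 1, nat_lit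 5184, nat_lit 13536, nat_lit 15312, nat_lit 6624, nat_lit 16560, R2_319, R1_138, R5_345⟩]⟩, ⟨nat_lit 7, [⟨nat_lit 1, nat_lit 5760, nat_lit 15408, nat_lit 16320, nat_lit 7152, nat_lit 5520, R1_340, R1_149, R11_115⟩]⟩]⟩]], [[], [], [], [], [⟨nat_lit 4, [⟨nat_lit 4, [⟨nat_lit 1, nat_lit 2592, nat_lit 8928, nat_lit 17616, nat_lit 11040, nat_lit 13056, R7_367, R4_230, R4_272⟩, ⟨nat_lit 5, nat_lit 13056, nat_lit 13536, nat_lit 12960, nat_lit 11472, nat_lit 14160, R7_270, R7_239, R7_295⟩]⟩, ⟨nat_lit 5, [⟨nat_lit 1, nat_lit 2784, nat_lit 9552, nat_lit 13152, nat_lit 11136, nat_lit 3168, R14_274, R4_232, R3_66⟩, ⟨nat_lit 5, nat_lit 13248, nat_lit 13920, nat_lit 12480, nat_lit 11520, nat_lit 13728, R14_260, R7_240, R2_286⟩]⟩]⟩,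
 ⟨nat_lit 7, [⟨nat_lit 4, [⟨nat_lit 5, nat_lit 13104, nat_lit 13680, nat_lit 10512, nat_lit 10752, nat_lit 14208, R2_219, R2_224, R7_296⟩]⟩, ⟨nat_lit 5, [⟨nat_lit 5, nat_lit 13488, nat_lit 13968, nat_lit 1776, nat_lit 10944, nat_lit 13776, R12_37, R2_228, R2_287⟩]⟩, ⟨nat_lit 7, [⟨nat_lit 5, nat_lit 13728, nat_lit 13872, nat_lit 10896, nat_lit 10848, nat_lit 14016, R1_227, R2_226, R2_292⟩]⟩]⟩], [], [⟨nat_lit 4, [⟨nat_lit 4, [⟨nat_lit 5, nat_lit 13824, nat_lit 15024, nat_lit 13104, nat_lit 11856, nat_lit 16512, R7_273, R7_247, R14_344⟩]⟩, ⟨nat_lit 5, [⟨nat_lit 5, nat_lit 14208, nat_lit 15072, nat_lit 12528, nat_lit 11952, nat_lit 13920, R14_261, R7_249, R12_290⟩]⟩]⟩,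
 ⟨nat_lit 7, [⟨nat_lit 4, [⟨nat_lit 5, nat_lit 13872, nat_lit 15504, nat_lit 11712, nat_lit 11040, nat_lit 16896, R2_244, R2_230, R14_352⟩]⟩, ⟨nat_lit 5, [⟨nat_lit 5, nat_lit 14448, nat_lit 15648, nat_lit 2112, nat_lit 11472, nat_lit 14304, R12_44, R2_239, R12_298⟩]⟩, ⟨nat_lit 7, [⟨nat_lit 5, nat_lit 15072, nat_lit 15600, nat_lit 12144, nat_lit 11184, nat_lit 15168, R1_253, R2_233, R12_316⟩]⟩]⟩]], [], [[], [], [⟨nat_lit 4, [⟨nat_lit 4, [⟨nat_lit 4, nat_lit 12576, nat_lit 15216, nat_lit 4608, nat_lit 1008, nat_lit 1440, R7_96, R7_21, R4_30⟩]⟩]⟩,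
 ⟨nat_lit 6, [⟨nat_lit 4, [⟨nat_lit 4, nat_lit 12624, nat_lit 15360, nat_lit 3024, nat_lit 48, nat_lit 7344, R2_63, R2_1, R4_153⟩]⟩, ⟨nat_lit 6, [⟨nat_lit 4, nat_lit 12912, nat_lit 15456, nat_lit 2496, nat_lit 5184, nat_lit 13392, R1_52, R2_108, R3_279⟩, ⟨nat_lit 6, nat_lit 15648, nat_lit 15504, nat_lit 7872, nat_lit 3888, nat_lit 19296, R1_164, R1_81, R10_402⟩]⟩]⟩,
 ⟨nat_lit 7, [⟨nat_lit 4, [⟨nat_lit 4, nat_lit 12672, nat_lit 15264, nat_lit 864, nat_lit 2256, nat_lit 8112, R2_18, R2_47, R4_169⟩, ⟨nat_lit 7, nat_lit 15936, nat_lit 15312, nat_lit 7056, nat_lit 1728, nat_lit 5904, R2_147, R1_36, R5_123⟩]⟩, ⟨nat_lit 7, [⟨nat_lit 7, nat_lit 16320, nat_lit 15408, nat_lit 5760, nat_lit 7152, nat_lit 21504, R1_120, R1_149, R11_448⟩]⟩]⟩], [], [], [], [⟨nat_lit 4, [⟨nat_lit 4, [⟨nat_lit 4, nat_lit 12336, nat_lit 18480,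 nat_lit 4560, nat_lit 1968, nat_lit 1248, R7_95, R7_41, R7_26⟩, ⟨nat_lit 5, nat_lit 13920, nat_lit 18528, nat_lit 13200, nat_lit 14304, nat_lit 16560, R7_275, R14_298, R14_345⟩]⟩, ⟨nat_lit 5, [⟨nat_lit 5, nat_lit 14544, nat_lit 19488, nat_lit 14592, nat_lit 15120, nat_lit 13968, R14_304, R14_315, R12_291⟩]⟩]⟩,
 ⟨nat_lit 6, [⟨nat_lit 4, [⟨nat_lit 4, nat_lit 12384, nat_lit 18960, nat_lit 2976, nat_lit 528, nat_lit 7248, R2_62, R2_11, R7_151⟩, ⟨nat_lit 5, nat_lit 13968, nat_lit 19008, nat_lit 11856, nat_lit 9936, nat_lit 16704, R2_247, R12_207, R14_348⟩]⟩, ⟨nat_lit 5, [⟨nat_lit 5, nat_lit 14592, nat_lit 20688, nat_lit 11856, nat_lit 11952, nat_lit 14112, R12_247, R12_249, R12_294⟩]⟩, ⟨nat_lit 6, [⟨nat_lit 4, nat_lit 12480, nat_lit 21072, nat_lit 2448, nat_lit 6240, nat_lit 5472, R1_51, R2_130, R2_114⟩, ⟨nat_lit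 5, nat_lit 14112, nat_lit 21120, nat_lit 12288, nat_lit 10656, nat_lit 15312, R1_256, R12_222, R12_319⟩, ⟨nat_lit 6, nat_lit 15600, nat_lit 21168, nat_lit 7824, nat_lit 4944, nat_lit 4176, R1_163, R1_103, R1_87⟩]⟩]⟩,
 ⟨nat_lit 7, [⟨nat_lit 4, [⟨nat_lit 4, nat_lit 12432, nat_lit 18672, nat_lit 2928, nat_lit 576, nat_lit 8112, R2_61, R2_12, R7_169⟩, ⟨nat_lit 5, nat_lit 14016, nat_lit 18720, nat_lit 11808, nat_lit 10032, nat_lit 16992, R2_246, R12_209, R14_354⟩]⟩, ⟨nat_lit 5, [⟨nat_lit 5, nat_lit 14832, nat_lit 20256, nat_lit 11808, nat_lit 12048, nat_lit 14400, R12_246, R12_251, R12_300⟩]⟩, ⟨nat_lit 7, [⟨nat_lit 4, nat_lit 12528, nat_lit 20784, nat_lit 2400, nat_lit 6288, nat_lit 5424, R1_50, R2_131, R2_113⟩, ⟨nat_lit 5, nat_lit 15120, nat_lit 20880, nat_lit 12240, nat_lit 10704, nat_lit 15264, R1_255, R12_223,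 R12_318⟩, ⟨nat_lit 7, nat_lit 15888, nat_lit 20832, nat_lit 7776, nat_lit 4992, nat_lit 4128, R1_162, R1_104, R1_86⟩]⟩]⟩]], [[], [], [], [], [⟨nat_lit 4, [⟨nat_lit 4, [⟨nat_lit 1, nat_lit 2640, nat_lit 15168, nat_lit 17712, nat_lit 12864, nat_lit 13152, R7_369, R5_268, R4_274⟩]⟩, ⟨nat_lit 5, [⟨nat_lit 1, nat_lit 3072, nat_lit 15504, nat_lit 13584, nat_lit 13872, nat_lit 9168, R14_283, R5_289, R3_191⟩]⟩]⟩,
 ⟨nat_lit 7, [⟨nat_lit 4, [⟨nat_lit 1, nat_lit 2688, nat_lit 15216, nat_lit 14832, nat_lit 8976, nat_lit 13200, R2_309, R11_187, R4_275⟩, ⟨nat_lit 5, nat_lit 13152, nat_lit 15360, nat_lit 10608, nat_lit 11136, nat_lit 14448, R2_221, R1_232, R7_301⟩]⟩, ⟨nat_lit 5, [⟨nat_lit 1, nat_lit 3312, nat_lit 15552, nat_lit 5472, nat_lit 9120, nat_lit 9216, R12_114, R11_190, R3_192⟩, ⟨nat_lit 5, nat_lit 13632, nat_lit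 15648, nat_lit 6336, nat_lit 11328, nat_lit 13872, R12_132, R1_236, R2_289⟩]⟩, ⟨nat_lit 7, [⟨nat_lit 5, nat_lit 13776, nat_lit 15696, nat_lit 10992, nat_lit 11232, nat_lit 14256, R1_229, R1_234, R2_297⟩]⟩]⟩], [], [], [⟨nat_lit 4, [⟨nat_lit 4, [⟨nat_lit 1, nat_lit 5088, nat_lit 14688, nat_lit 17904, nat_lit 13008, nat_lit 16272, R7_373, R5_271, R5_339⟩]⟩]⟩,
 ⟨nat_lit 7, [⟨nat_lit 4, [⟨nat_lit 1, nat_lit 5136, nat_lit 15168, nat_lit 15456, nat_lit 9168, nat_lit 16608, R2_322, R11_191, R5_346⟩]⟩, ⟨nat_lit 7, [⟨nat_lit 1, nat_lit 5712, nat_lit 18672, nat_lit 16464, nat_lit 9216, nat_lit 5568, R1_343, R11_192, R11_116⟩, ⟨nat_lit 5, nat_lit 15552, nat_lit 18720, nat_lit 11376, nat_lit 11472, nat_lit 15792, R1_237, R1_239, R1_329⟩]⟩]⟩]]], [[], [], [], [[], [], [], [], [], [⟨nat_lit 7, [⟨nat_lit 1, [⟨nat_lit 1, nat_lit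 4944, nat_lit 15600, nat_lit 21792, nat_lit 7824, nat_lit 4176, R11_454, R1_163, R1_87⟩]⟩, ⟨nat_lit 5, [⟨nat_lit 1, nat_lit 3888, nat_lit 15648, nat_lit 15504, nat_lit 7872, nat_lit 19296, R1_323, R1_164, R10_402⟩]⟩]⟩]], [], [], [], [[], [], [], [], [], [⟨nat_lit 4, [⟨nat_lit 1, [⟨nat_lit 1, nat_lit 4272, nat_lit 19056, nat_lit 7104, nat_lit 7776, nat_lit 4704, R5_148, R5_162, R1_98⟩]⟩]⟩,
 ⟨nat_lit 7, [⟨nat_lit 1, [⟨nat_lit 1, nat_lit 4464, nat_lit 19104, nat_lit 21744, nat_lit 9360, nat_lit 4752, R11_453, R11_195, R1_99⟩]⟩, ⟨nat_lit 5, [⟨nat_lit 1, nat_lit 3840, nat_lit 19200, nat_lit 3840, nat_lit 9456, nat_lit 19200, R1_80, R11_197, R10_400⟩, ⟨nat_lit 5, nat_lit 15504, nat_lit 19296, nat_lit 3888, nat_lit 7872, nat_lit 15648, R1_81, R1_164, R1_326⟩]⟩]⟩]]]]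
noncomputable def N6305 : T3 (List N0) := [[[[], [⟨nat_lit 2, [⟨nat_lit 4, [⟨nat_lit 6, nat_lit 14832, nat_lit 12864, nat_lit 13872, nat_lit 12384, nat_lit 12480, R7_289, R7_258, R2_260⟩]⟩]⟩,
 ⟨nat_lit 6, [⟨nat_lit 4, [⟨nat_lit 4, nat_lit 4416, nat_lit 17280, nat_lit 12384, nat_lit 10512, nat_lit 5520, R4_258, R6_219, R7_115⟩, ⟨nat_lit 7, nat_lit 6000, nat_lit 17328, nat_lit 12576, nat_lit 10656, nat_lit 7680, R4_262, R8_222, R2_160⟩]⟩]⟩]], [], [], [[], [⟨nat_lit 6, [⟨nat_lit 4, [⟨nat_lit 7, nat_lit 6912, nat_lit 14736, nat_lit 12720, nat_lit 7392, nat_lit 7824, R4_265, R5_154, R2_163⟩]⟩]⟩]]], [], [], [[[], [], [], [], [], [⟨nat_lit 0, [⟨nat_lit 6, [⟨nat_lit 2, nat_lit 14448, nat_lit 336, nat_lit 1536, nat_lit 10896, nat_lit 6288, R2_32, R6_227, R1_131⟩]⟩]⟩,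
 ⟨nat_lit 2, [⟨nat_lit 4, [⟨nat_lit 6, nat_lit 14928, nat_lit 13632, nat_lit 8880, nat_lit 12576, nat_lit 7920, R2_185, R7_262, R3_165⟩]⟩, ⟨nat_lit 6, [⟨nat_lit 2, nat_lit 16032, nat_lit 12720, nat_lit 1152, nat_lit 11760, nat_lit 6336, R12_24, R4_245, R1_132⟩, ⟨nat_lit 6, nat_lit 15120, nat_lit 13728, nat_lit 1056, nat_lit 12624, nat_lit 7440, R12_22, R7_263, R10_155⟩]⟩]⟩,
 ⟨nat_lit 3, [⟨nat_lit 2, [⟨nat_lit 0, nat_lit 16896, nat_lit 4704, nat_lit 1968, nat_lit 10272, nat_lit 8448, R11_41, R6_214, R5_176⟩, ⟨nat_lit 2, nat_lit 17232, nat_lit 6432, nat_lit 2064, nat_lit 10896, nat_lit 8448, R11_43, R8_227, R11_176⟩]⟩, ⟨nat_lit 6, [⟨nat_lit 2, nat_lit 17136, nat_lit 6528, nat_lit 1008, nat_lit 10944, nat_lit 6384, R1_21, R8_228, R1_133⟩]⟩]⟩,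
 ⟨nat_lit 4, [⟨nat_lit 3, [⟨nat_lit 7, nat_lit 336, nat_lit 14448, nat_lit 1536, nat_lit 10896, nat_lit 6288, R2_32, R6_227, R1_131⟩]⟩]⟩,
 ⟨nat_lit 6, [⟨nat_lit 3, [⟨nat_lit 7, nat_lit 6528, nat_lit 17136, nat_lit 1008, nat_lit 10944, nat_lit 6384, R1_21, R8_228, R1_133⟩]⟩, ⟨nat_lit 7, [⟨nat_lit 4, nat_lit 4704, nat_lit 16896, nat_lit 1968, nat_lit 10272, nat_lit 8448, R11_41, R6_214, R5_176⟩, ⟨nat_lit 7, nat_lit 6432, nat_lit 17232, nat_lit 2064, nat_lit 10896, nat_lit 8448, R11_43, R8_227, R11_176⟩]⟩]⟩,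
 ⟨nat_lit 7, [⟨nat_lit 0, [⟨nat_lit 3, nat_lit 13632, nat_lit 14928, nat_lit 8880, nat_lit 12576, nat_lit 7920, R2_185, R7_262, R3_165⟩]⟩, ⟨nat_lit 3, [⟨nat_lit 3, nat_lit 13728, nat_lit 15120, nat_lit 1056, nat_lit 12624, nat_lit 7440, R12_22, R7_263, R10_155⟩, ⟨nat_lit 7, nat_lit 12720, nat_lit 16032, nat_lit 1152, nat_lit 11760, nat_lit 6336, R12_24, R4_245, R1_132⟩]⟩]⟩]], [], [], [[], [⟨nat_lit 6, [⟨nat_lit 7, [⟨nat_lit 7, nat_lit 7344, nat_lit 16368, nat_lit 2160, nat_lit 7536, nat_lit 8784, R11_45, R5_157, R1_183⟩]⟩]⟩], [], [], [], [⟨nat_lit 3, [⟨nat_lit 2, [⟨nat_lit 0, nat_lit 17088, nat_lit 5904, nat_lit 8544, nat_lit 15504, nat_lit 9024, R11_178, R4_323, R5_188⟩, ⟨nat_lit 2, nat_lit 17520, nat_lit 6048, nat_lit 8592, nat_lit 17520, nat_lit 8592, R11_179, R5_365, R11_179⟩]⟩, ⟨nat_lit 6, [⟨nat_lit 2,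 nat_lit 17472, nat_lit 6144, nat_lit 6432, nat_lit 17472, nat_lit 6432, R1_134, R5_364, R1_134⟩]⟩]⟩,
 ⟨nat_lit 4, [⟨nat_lit 3, [⟨nat_lit 3, nat_lit 3120, nat_lit 5712, nat_lit 336, nat_lit 8592, nat_lit 7776, R2_7, R7_179, R10_162⟩, ⟨nat_lit 7, nat_lit 720, nat_lit 5808, nat_lit 2112, nat_lit 8544, nat_lit 6912, R2_44, R4_178, R1_144⟩]⟩]⟩,
 ⟨nat_lit 6, [⟨nat_lit 3, [⟨nat_lit 7, nat_lit 7680, nat_lit 5856, nat_lit 1584, nat_lit 7152, nat_lit 6960, R1_33, R5_149, R1_145⟩]⟩, ⟨nat_lit 7, [⟨nat_lit 7, nat_lit 7296, nat_lit 6096, nat_lit 2112, nat_lit 7584, nat_lit 8496, R11_44, R5_158, R11_177⟩]⟩]⟩,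
 ⟨nat_lit 7, [⟨nat_lit 0, [⟨nat_lit 0, nat_lit 12768, nat_lit 5616, nat_lit 7728, nat_lit 17664, nat_lit 12624, R2_161, R7_368, R4_263⟩, ⟨nat_lit 3, nat_lit 13776, nat_lit 5664, nat_lit 8928, nat_lit 13680, nat_lit 7968, R2_186, R14_285, R3_166⟩]⟩, ⟨nat_lit 2, [⟨nat_lit 0, nat_lit 12912, nat_lit 5952, nat_lit 8256, nat_lit 17856, nat_lit 16416, R1_172, R7_372, R5_342⟩]⟩, ⟨nat_lit 3, [⟨nat_lit 3, nat_lit 14256, nat_lit 5760, nat_lit 1104, nat_lit 13776, nat_lit 7824, R12_23, R14_287, R10_163⟩]⟩]⟩]]]]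
noncomputable def N6331 : T3 (List N0) := [[[[], [⟨nat_lit 0, [⟨nat_lit 2, [⟨nat_lit 2, nat_lit 12720, nat_lit 4656, nat_lit 624, nat_lit 1296, nat_lit 18432, R4_13, R4_27, R10_384⟩, ⟨nat_lit 6, nat_lit 12576, nat_lit 4608, nat_lit 1440, nat_lit 1008, nat_lit 15216, R4_30, R7_21, R1_317⟩]⟩, ⟨nat_lit 6, [⟨nat_lit 6, nat_lit 12336, nat_lit 4560, nat_lit 1248, nat_lit 1968, nat_lit 18480, R7_26, R7_41, R11_385⟩]⟩]⟩,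
 ⟨nat_lit 2, [⟨nat_lit 4, [⟨nat_lit 4, nat_lit 13056, nat_lit 12960, nat_lit 14160, nat_lit 11472, nat_lit 13536, R7_295, R7_239, R4_282⟩]⟩, ⟨nat_lit 6, [⟨nat_lit 4, nat_lit 13824, nat_lit 13104, nat_lit 17712, nat_lit 11856, nat_lit 15024, R14_369, R7_247, R5_313⟩, ⟨nat_lit 6, nat_lit 13920, nat_lit 13200, nat_lit 17760, nat_lit 12672, nat_lit 18528, R14_370, R14_264, R11_386⟩]⟩]⟩,
 ⟨nat_lit 3, [⟨nat_lit 2, [⟨nat_lit 2, nat_lit 15984, nat_lit 11376, nat_lit 240, nat_lit 2976, nat_lit 18480, R5_5, R5_62, R10_385⟩]⟩]⟩,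
 ⟨nat_lit 6, [⟨nat_lit 4, [⟨nat_lit 4, nat_lit 2592, nat_lit 17616, nat_lit 13056, nat_lit 11040, nat_lit 8928, R4_272, R4_230, R4_186⟩, ⟨nat_lit 7, nat_lit 2640, nat_lit 17712, nat_lit 13152, nat_lit 12864, nat_lit 15168, R4_274, R5_268, R3_316⟩]⟩, ⟨nat_lit 7, [⟨nat_lit 7, nat_lit 5088, nat_lit 17904, nat_lit 16272, nat_lit 13008, nat_lit 14688, R5_339, R5_271, R10_306⟩]⟩]⟩], [], [], [], [⟨nat_lit 0, [⟨nat_lit 2, [⟨nat_lit 2, nat_lit 12768, nat_lit 4464, nat_lit 576, nat_lit 1344, nat_lit 432, R4_12, R4_28, R1_9⟩]⟩]⟩,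
 ⟨nat_lit 3, [⟨nat_lit 2, [⟨nat_lit 2, nat_lit 16032, nat_lit 10752, nat_lit 2160, nat_lit 576, nat_lit 8688, R5_45, R5_12, R1_181⟩]⟩]⟩]], [[], [⟨nat_lit 0, [⟨nat_lit 2, [⟨nat_lit 2, nat_lit 12816, nat_lit 3072, nat_lit 7008, nat_lit 4848, nat_lit 18576, R4_146, R3_101, R10_387⟩, ⟨nat_lit 6, nat_lit 12624, nat_lit 3024, nat_lit 7344, nat_lit 48, nat_lit 15360, R4_153, R2_1, R1_320⟩]⟩, ⟨nat_lit 6, [⟨nat_lit 6, nat_lit 12384, nat_lit 2976, nat_lit 7248, nat_lit 528, nat_lit 18960, R7_151, R2_11, R11_395⟩]⟩]⟩,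
 ⟨nat_lit 2, [⟨nat_lit 6, [⟨nat_lit 6, nat_lit 13968, nat_lit 11856, nat_lit 18192, nat_lit 9936, nat_lit 19008, R14_379, R12_207, R11_396⟩]⟩]⟩], [], [], [], [⟨nat_lit 0, [⟨nat_lit 2, [⟨nat_lit 2, nat_lit 12864, nat_lit 17328, nat_lit 6960, nat_lit 4800, nat_lit 480, R4_145, R3_100, R1_10⟩]⟩]⟩]], [], [[], [⟨nat_lit 0, [⟨nat_lit 2, [⟨nat_lit 6, nat_lit 12672, nat_lit 864, nat_lit 8112, nat_lit 2256, nat_lit 15264, R4_169, R2_47, R1_318⟩]⟩, ⟨nat_lit 6, [⟨nat_lit 6, nat_lit 12432, nat_lit 2928, nat_lit 8112, nat_lit 576, nat_lit 18672, R7_169, R2_12, R11_389⟩]⟩]⟩,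
 ⟨nat_lit 2, [⟨nat_lit 4, [⟨nat_lit 4, nat_lit 13104, nat_lit 10512, nat_lit 14208, nat_lit 10752, nat_lit 13680, R7_296, R2_224, R4_285⟩, ⟨nat_lit 7, nat_lit 13152, nat_lit 10608, nat_lit 14448, nat_lit 11136, nat_lit 15360, R7_301, R1_232, R3_320⟩]⟩, ⟨nat_lit 6, [⟨nat_lit 4, nat_lit 13872, nat_lit 11712, nat_lit 18288, nat_lit 11040, nat_lit 15504, R14_381, R2_230, R5_323⟩, ⟨nat_lit 6, nat_lit 14016, nat_lit 11808, nat_lit 18384, nat_lit 1920, nat_lit 18720, R14_383, R12_40, R11_390⟩]⟩]⟩,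
 ⟨nat_lit 3, [⟨nat_lit 2, [⟨nat_lit 2, nat_lit 16176, nat_lit 7008, nat_lit 5952, nat_lit 2976, nat_lit 18528, R5_124, R11_62, R10_386⟩, ⟨nat_lit 6, nat_lit 15936, nat_lit 7056, nat_lit 5904, nat_lit 1728, nat_lit 15312, R5_123, R1_36, R1_319⟩]⟩]⟩,
 ⟨nat_lit 6, [⟨nat_lit 4, [⟨nat_lit 7, nat_lit 2688, nat_lit 14832, nat_lit 13200, nat_lit 8976, nat_lit 15216, R4_275, R11_187, R3_317⟩]⟩, ⟨nat_lit 7, [⟨nat_lit 3, nat_lit 5184, nat_lit 15312, nat_lit 16560, nat_lit 6624, nat_lit 13536, R5_345, R1_138, R1_282⟩, ⟨nat_lit 7, nat_lit 5136, nat_lit 15456, nat_lit 16608, nat_lit 9168, nat_lit 15168, R5_346, R11_191, R10_316⟩]⟩]⟩]]], [[], [[], [⟨nat_lit 0, [⟨nat_lit 2, [⟨nat_lit 2, nat_lit 12960, nat_lit 2544, nat_lit 5088, nat_lit 5952, nat_lit 18768, R3_106, R3_124, R10_391⟩, ⟨nat_lit 6, nat_lit 12912, nat_lit 2496,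 nat_lit 13392, nat_lit 5184, nat_lit 15456, R3_279, R2_108, R1_322⟩]⟩, ⟨nat_lit 6, [⟨nat_lit 6, nat_lit 12480, nat_lit 2448, nat_lit 5472, nat_lit 6240, nat_lit 21072, R2_114, R2_130, R11_439⟩]⟩]⟩,
 ⟨nat_lit 1, [⟨nat_lit 2, [⟨nat_lit 2, nat_lit 15696, nat_lit 7920, nat_lit 4272, nat_lit 5040, nat_lit 18864, R10_89, R10_105, R10_393⟩, ⟨nat_lit 6, nat_lit 15648, nat_lit 7872, nat_lit 5184, nat_lit 3888, nat_lit 15504, R10_108, R1_81, R1_323⟩]⟩, ⟨nat_lit 6, [⟨nat_lit 6, nat_lit 15600, nat_lit 7824, nat_lit 4176, nat_lit 4944, nat_lit 21168, R1_87, R1_103, R11_441⟩]⟩]⟩,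
 ⟨nat_lit 2, [⟨nat_lit 6, [⟨nat_lit 6, nat_lit 14112, nat_lit 12288, nat_lit 15312, nat_lit 10656, nat_lit 21120, R12_319, R12_222, R11_440⟩]⟩]⟩], [], [], [], [⟨nat_lit 0, [⟨nat_lit 2, [⟨nat_lit 2, nat_lit 13008, nat_lit 2688, nat_lit 5136, nat_lit 5904, nat_lit 528, R3_107, R3_123, R1_11⟩]⟩]⟩,
 ⟨nat_lit 1, [⟨nat_lit 2, [⟨nat_lit 2, nat_lit 15744, nat_lit 8688, nat_lit 4224, nat_lit 5088, nat_lit 11520, R10_88, R10_106, R1_240⟩]⟩]⟩]], [], [], [], [[], [], [], [], [], [⟨nat_lit 1, [⟨nat_lit 2, [⟨nat_lit 2, nat_lit 15792, nat_lit 15552, nat_lit 18720, nat_lit 11376, nat_lit 11472, R10_390, R1_237, R1_239⟩]⟩]⟩]]], [[[⟨nat_lit 2, [⟨nat_lit 4, [⟨nat_lit 4, nat_lit 13200, nat_lit 3408, nat_lit 12000, nat_lit 2208, nat_lit 1440, R2_250, R7_46, R6_30⟩]⟩, ⟨nat_lit 5, [⟨nat_lit 4, nat_lit 15216, nat_lit 3888, nat_lit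 12576, nat_lit 2784, nat_lit 1440, R1_262, R7_58, R4_30⟩]⟩, ⟨nat_lit 6, [⟨nat_lit 4, nat_lit 14160, nat_lit 4368, nat_lit 13584, nat_lit 2640, nat_lit 1056, R12_283, R7_55, R8_22⟩, ⟨nat_lit 6, nat_lit 14496, nat_lit 12816, nat_lit 13632, nat_lit 14160, nat_lit 15168, R12_284, R14_295, R5_316⟩]⟩]⟩,
 ⟨nat_lit 6, [⟨nat_lit 4, [⟨nat_lit 4, nat_lit 2736, nat_lit 3552, nat_lit 3072, nat_lit 2256, nat_lit 1824, R3_64, R4_47, R6_38⟩, ⟨nat_lit 7, nat_lit 3024, nat_lit 9696, nat_lit 8880, nat_lit 2640, nat_lit 16752, R3_185, R5_55, R13_349⟩]⟩, ⟨nat_lit 5, [⟨nat_lit 4, nat_lit 3456, nat_lit 3984, nat_lit 5232, nat_lit 2976, nat_lit 1680, R10_109, R4_62, R4_35⟩, ⟨nat_lit 7, nat_lit 3648, nat_lit 10992, nat_lit 5376, nat_lit 3216, nat_lit 12576, R10_112, R5_67, R3_262⟩]⟩]⟩], [⟨nat_lit 2, [⟨nat_lit 4, [⟨nat_lit 4, nat_lit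 13248, nat_lit 14016, nat_lit 13728, nat_lit 11520, nat_lit 13920, R2_286, R7_240, R4_290⟩]⟩, ⟨nat_lit 6, [⟨nat_lit 4, nat_lit 14208, nat_lit 14064, nat_lit 13920, nat_lit 11952, nat_lit 15072, R12_290, R7_249, R5_314⟩, ⟨nat_lit 6, nat_lit 14544, nat_lit 14784, nat_lit 13968, nat_lit 14880, nat_lit 19488, R12_291, R14_310, R11_406⟩]⟩]⟩,
 ⟨nat_lit 6, [⟨nat_lit 4, [⟨nat_lit 4, nat_lit 2784, nat_lit 11808, nat_lit 3168, nat_lit 11136, nat_lit 9552, R3_66, R4_232, R4_199⟩, ⟨nat_lit 7, nat_lit 3072, nat_lit 12288, nat_lit 9168, nat_lit 13872, nat_lit 15504, R3_191, R5_289, R3_323⟩]⟩]⟩]], [[], [⟨nat_lit 2, [⟨nat_lit 6, [⟨nat_lit 6, nat_lit 14592, nat_lit 11856, nat_lit 14112, nat_lit 11952, nat_lit 20688, R12_294, R12_249, R11_431⟩]⟩]⟩]], [[⟨nat_lit 2, [⟨nat_lit 4, [⟨nat_lit 4, nat_lit 13296, nat_lit 1728, nat_lit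 12096, nat_lit 672, nat_lit 7392, R2_252, R2_14, R6_154⟩]⟩, ⟨nat_lit 5, [⟨nat_lit 4, nat_lit 15264, nat_lit 2256, nat_lit 12672, nat_lit 864, nat_lit 8112, R1_264, R2_18, R4_169⟩]⟩, ⟨nat_lit 6, [⟨nat_lit 4, nat_lit 14256, nat_lit 2784, nat_lit 13824, nat_lit 768, nat_lit 6192, R12_288, R2_16, R8_129⟩, ⟨nat_lit 6, nat_lit 14640, nat_lit 11520, nat_lit 13872, nat_lit 10128, nat_lit 15744, R12_289, R12_211, R5_328⟩]⟩]⟩,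
 ⟨nat_lit 6, [⟨nat_lit 4, [⟨nat_lit 4, nat_lit 2832, nat_lit 1872, nat_lit 3120, nat_lit 2112, nat_lit 7968, R3_65, R3_44, R6_166⟩]⟩, ⟨nat_lit 5, [⟨nat_lit 4, nat_lit 3504, nat_lit 2352, nat_lit 5280, nat_lit 9792, nat_lit 8400, R10_110, R3_204, R4_175⟩]⟩]⟩], [⟨nat_lit 2, [⟨nat_lit 4, [⟨nat_lit 4, nat_lit 13344, nat_lit 9744, nat_lit 13824, nat_lit 10320, nat_lit 14016, R2_288, R2_215, R4_292⟩]⟩, ⟨nat_lit 6, [⟨nat_lit 4, nat_lit 14304, nat_lit 9792, nat_lit 14496, nat_lit 10416, nat_lit 15888, R12_302, R2_217, R5_331⟩, ⟨nat_lit 6, nat_lit 14688, nat_lit 11664, nat_lit 14544, nat_lit 12192, nat_lit 20064, R12_303, R12_254, R11_418⟩]⟩]⟩,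
 ⟨nat_lit 6, [⟨nat_lit 4, [⟨nat_lit 4, nat_lit 2880, nat_lit 10416, nat_lit 3216, nat_lit 2832, nat_lit 9600, R3_67, R3_59, R4_200⟩]⟩]⟩], [⟨nat_lit 2, [⟨nat_lit 4, [⟨nat_lit 4, nat_lit 13392, nat_lit 1200, nat_lit 14928, nat_lit 6480, nat_lit 13344, R2_311, R2_135, R8_278⟩, ⟨nat_lit 5, nat_lit 13536, nat_lit 6624, nat_lit 15312, nat_lit 5184, nat_lit 16560, R2_319, R1_108, R5_345⟩]⟩, ⟨nat_lit 5, [⟨nat_lit 4, nat_lit 15312, nat_lit 1728, nat_lit 15936, nat_lit 7056, nat_lit 5904, R1_332, R2_147, R5_123⟩, ⟨nat_lit 5, nat_lit 15408, nat_lit 7152, nat_lit 16320, nat_lit 5760, nat_lit 21504, R1_340, R1_120, R11_448⟩]⟩, ⟨nat_lit 6, [⟨nat_lit 4, nat_lit 14352, nat_lit 2256, nat_lit 14736, nat_lit 6912, nat_lit 5664, R12_307, R2_144, R9_118⟩]⟩]⟩,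
 ⟨nat_lit 6, [⟨nat_lit 4, [⟨nat_lit 4, nat_lit 2928, nat_lit 1344, nat_lit 3360, nat_lit 2448, nat_lit 5712, R3_70, R3_51, R8_119⟩, ⟨nat_lit 5, nat_lit 2976, nat_lit 6768, nat_lit 10560, nat_lit 8400, nat_lit 16464, R3_220, R10_175, R5_343⟩]⟩, ⟨nat_lit 5, [⟨nat_lit 4, nat_lit 3552, nat_lit 1824, nat_lit 5328, nat_lit 10080, nat_lit 5712, R10_111, R3_210, R5_119⟩, ⟨nat_lit 5, nat_lit 3600, nat_lit 7248, nat_lit 5616, nat_lit 8496, nat_lit 21408, R10_117, R10_177, R11_446⟩]⟩]⟩]], [[⟨nat_lit 2, [⟨nat_lit 4, [⟨nat_lit 4, nat_lit 13440, nat_lit 0, nat_lit 12048, nat_lit 1008, nat_lit 6768, R2_251, R2_21, R6_141⟩, ⟨nat_lit 7, nat_lit 13584, nat_lit 3936, nat_lit 12336, nat_lit 336, nat_lit 18096, R2_257, R1_7, R13_377⟩]⟩, ⟨nat_lit 5, [⟨nat_lit 4, nat_lit 15360, nat_lit 48, nat_lit 12624, nat_lit 3024, nat_lit 7344,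 R1_263, R2_63, R4_153⟩, ⟨nat_lit 7, nat_lit 15456, nat_lit 5184, nat_lit 12912, nat_lit 2496, nat_lit 13392, R1_269, R1_52, R3_279⟩]⟩, ⟨nat_lit 6, [⟨nat_lit 4, nat_lit 14400, nat_lit 816, nat_lit 13680, nat_lit 2736, nat_lit 6960, R12_285, R2_57, R8_145⟩, ⟨nat_lit 6, nat_lit 14784, nat_lit 10464, nat_lit 13776, nat_lit 9696, nat_lit 15936, R12_287, R12_202, R5_332⟩, ⟨nat_lit 7, nat_lit 14928, nat_lit 6960, nat_lit 13728, nat_lit 2208, nat_lit 14976, R12_286, R1_46, R9_312⟩]⟩]⟩,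
 ⟨nat_lit 6, [⟨nat_lit 4, [⟨nat_lit 7, nat_lit 3264, nat_lit 3888, nat_lit 8976, nat_lit 9024, nat_lit 18048, R3_187, R11_188, R13_376⟩]⟩, ⟨nat_lit 5, [⟨nat_lit 7, nat_lit 3792, nat_lit 5136, nat_lit 5424, nat_lit 9408, nat_lit 13344, R10_113, R11_196, R3_278⟩]⟩]⟩], [⟨nat_lit 2, [⟨nat_lit 4, [⟨nat_lit 4, nat_lit 13488, nat_lit 9888, nat_lit 13776, nat_lit 10944, nat_lit 13968, R2_287, R2_228, R4_291⟩, ⟨nat_lit 7, nat_lit 13632, nat_lit 10608, nat_lit 13872, nat_lit 11328, nat_lit 15648, R2_289, R1_236, R3_326⟩]⟩, ⟨nat_lit 6, [⟨nat_lit 4, nat_lit 14448, nat_lit 10176, nat_lit 14304, nat_lit 11472, nat_lit 15648, R12_298, R2_239, R5_326⟩, ⟨nat_lit 6, nat_lit 14832, nat_lit 12288, nat_lit 14400, nat_lit 11568, nat_lit 20256, R12_300, R12_241, R11_422⟩]⟩]⟩,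
 ⟨nat_lit 6, [⟨nat_lit 4, [⟨nat_lit 7, nat_lit 3312, nat_lit 16992, nat_lit 9216, nat_lit 9120, nat_lit 15552, R3_192, R11_190, R3_324⟩]⟩]⟩], [], [⟨nat_lit 2, [⟨nat_lit 4, [⟨nat_lit 7, nat_lit 13680, nat_lit 3408, nat_lit 14112, nat_lit 6000, nat_lit 15840, R2_294, R1_125, R3_330⟩]⟩, ⟨nat_lit 5, [⟨nat_lit 7, nat_lit 15504, nat_lit 3888, nat_lit 15648, nat_lit 7872, nat_lit 19296, R1_326, R1_164, R10_402⟩]⟩]⟩,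
 ⟨nat_lit 6, [⟨nat_lit 4, [⟨nat_lit 3, nat_lit 3408, nat_lit 13680, nat_lit 15840, nat_lit 6000, nat_lit 14112, R3_330, R1_125, R2_294⟩, ⟨nat_lit 7, nat_lit 3360, nat_lit 3360, nat_lit 9120, nat_lit 9072, nat_lit 9120, R3_190, R11_189, R3_190⟩]⟩, ⟨nat_lit 5, [⟨nat_lit 3, nat_lit 3888, nat_lit 15504, nat_lit 5184, nat_lit 7872, nat_lit 15648, R10_108, R1_164, R1_326⟩, ⟨nat_lit 7, nat_lit 3840, nat_lit 3840, nat_lit 5472, nat_lit 9456, nat_lit 19200, R10_114, R11_197, R10_400⟩]⟩]⟩]]], [[[], [], [], [], [], [⟨nat_lit 3, [⟨nat_lit 2, [⟨nat_lit 2, nat_lit 16368, nat_lit 7344, nat_lit 2160, nat_lit 7536, nat_lit 8784, R11_45, R5_157, R1_183⟩]⟩]⟩]], [], [], [[], [⟨nat_lit 0, [⟨nat_lit 6, [⟨nat_lit 6, nat_lit 12528, nat_lit 2400, nat_lit 5424, nat_lit 6288, nat_lit 20784, R2_113, R2_131, R11_433⟩]⟩]⟩,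
 ⟨nat_lit 2, [⟨nat_lit 4, [⟨nat_lit 4, nat_lit 13728, nat_lit 10896, nat_lit 14016, nat_lit 10848, nat_lit 13872, R2_292, R2_226, R4_289⟩, ⟨nat_lit 7, nat_lit 13776, nat_lit 10992, nat_lit 14256, nat_lit 11232, nat_lit 15696, R2_297, R1_234, R3_327⟩]⟩, ⟨nat_lit 6, [⟨nat_lit 4, nat_lit 15072, nat_lit 12144, nat_lit 3840, nat_lit 11184, nat_lit 15600, R12_80, R2_233, R5_325⟩, ⟨nat_lit 6, nat_lit 15120, nat_lit 12240, nat_lit 3984, nat_lit 6432, nat_lit 20880, R12_83, R12_134, R11_435⟩]⟩, ⟨nat_lit 7, [⟨nat_lit 7, nat_lit 15552, nat_lit 11376, nat_lit 15792, nat_lit 11472, nat_lit 18720, R1_329, R1_239, R10_390⟩]⟩]⟩,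
 ⟨nat_lit 3, [⟨nat_lit 2, [⟨nat_lit 2, nat_lit 16464, nat_lit 5712, nat_lit 5568, nat_lit 9216, nat_lit 18672, R11_116, R11_192, R10_389⟩, ⟨nat_lit 6, nat_lit 16320, nat_lit 5760, nat_lit 5520, nat_lit 7152, nat_lit 15408, R11_115, R1_149, R1_321⟩]⟩, ⟨nat_lit 6, [⟨nat_lit 6, nat_lit 15888, nat_lit 7776, nat_lit 4128, nat_lit 4992, nat_lit 20832, R1_86, R1_104, R11_434⟩]⟩]⟩,
 ⟨nat_lit 4, [⟨nat_lit 3, [⟨nat_lit 3, nat_lit 2400, nat_lit 12528, nat_lit 5424, nat_lit 6288, nat_lit 20784, R2_113, R2_131, R11_433⟩]⟩]⟩,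
 ⟨nat_lit 6, [⟨nat_lit 3, [⟨nat_lit 3, nat_lit 7776, nat_lit 15888, nat_lit 4128, nat_lit 4992, nat_lit 20832, R1_86, R1_104, R11_434⟩]⟩, ⟨nat_lit 7, [⟨nat_lit 3, nat_lit 5760, nat_lit 16320, nat_lit 5520, nat_lit 7152, nat_lit 15408, R11_115, R1_149, R1_321⟩, ⟨nat_lit 7, nat_lit 5712, nat_lit 16464, nat_lit 5568, nat_lit 9216, nat_lit 18672, R11_116, R11_192, R10_389⟩]⟩]⟩,
 ⟨nat_lit 7, [⟨nat_lit 0, [⟨nat_lit 0, nat_lit 10896, nat_lit 13728, nat_lit 14016, nat_lit 10848, nat_lit 13872, R2_292, R2_226, R4_289⟩, ⟨nat_lit 2, nat_lit 10992, nat_lit 13776, nat_lit 14256, nat_lit 11232, nat_lit 15696, R2_297, R1_234, R3_327⟩]⟩, ⟨nat_lit 2, [⟨nat_lit 2, nat_lit 11376, nat_lit 15552, nat_lit 15792, nat_lit 11472, nat_lit 18720, R1_329, R1_239, R10_390⟩]⟩, ⟨nat_lit 3, [⟨nat_lit 0, nat_lit 12144, nat_lit 15072, nat_lit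 3840, nat_lit 11184, nat_lit 15600, R12_80, R2_233, R5_325⟩, ⟨nat_lit 3, nat_lit 12240, nat_lit 15120, nat_lit 3984, nat_lit 6432, nat_lit 20880, R12_83, R12_134, R11_435⟩]⟩]⟩], [], [], [], [⟨nat_lit 3, [⟨nat_lit 2, [⟨nat_lit 2, nat_lit 16512, nat_lit 21216, nat_lit 8688, nat_lit 7152, nat_lit 8832, R11_181, R11_149, R1_184⟩]⟩]⟩,
 ⟨nat_lit 4, [⟨nat_lit 3, [⟨nat_lit 3, nat_lit 2448, nat_lit 21072, nat_lit 5472, nat_lit 6240, nat_lit 12480, R2_114, R2_130, R1_260⟩]⟩]⟩,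
 ⟨nat_lit 6, [⟨nat_lit 3, [⟨nat_lit 3, nat_lit 7824, nat_lit 21168, nat_lit 4176, nat_lit 4944, nat_lit 15600, R1_87, R1_103, R1_325⟩]⟩]⟩,
 ⟨nat_lit 7, [⟨nat_lit 0, [⟨nat_lit 0, nat_lit 10944, nat_lit 20928, nat_lit 14064, nat_lit 10656, nat_lit 15120, R2_293, R2_222, R7_315⟩, ⟨nat_lit 2, nat_lit 11040, nat_lit 21024, nat_lit 14304, nat_lit 11040, nat_lit 14304, R2_298, R1_230, R2_298⟩, ⟨nat_lit 3, nat_lit 11088, nat_lit 20976, nat_lit 14352, nat_lit 6384, nat_lit 12768, R2_299, R12_133, R2_266⟩]⟩, ⟨nat_lit 2, [⟨nat_lit 2, nat_lit 11424, nat_lit 21264, nat_lit 15840, nat_lit 11424, nat_lit 15840, R1_330, R1_238, R1_330⟩]⟩, ⟨nat_lit 3, [⟨nat_lit 3, nat_lit 12288, nat_lit 21120, nat_lit 3936, nat_lit 6480, nat_lit 14112, R12_82, R12_135, R1_294⟩]⟩]⟩]]], [[], [], [], [[], [], [], [], [], [], [], [⟨nat_lit 4, [⟨nat_lit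 1, [⟨nat_lit 3, nat_lit 1200, nat_lit 14928, nat_lit 15072, nat_lit 6480, nat_lit 13392, R8_314, R2_135, R1_279⟩]⟩]⟩,
 ⟨nat_lit 6, [⟨nat_lit 1, [⟨nat_lit 3, nat_lit 6624, nat_lit 15312, nat_lit 16560, nat_lit 5184, nat_lit 13536, R5_345, R1_108, R1_282⟩]⟩]⟩]], [[], [], [], [], [⟨nat_lit 4, [⟨nat_lit 1, [⟨nat_lit 0, nat_lit 576, nat_lit 3840, nat_lit 3312, nat_lit 2736, nat_lit 3168, R8_69, R6_57, R7_66⟩, ⟨nat_lit 1, nat_lit 864, nat_lit 3888, nat_lit 3360, nat_lit 1680, nat_lit 1488, R8_70, R8_35, R2_31⟩]⟩]⟩,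
 ⟨nat_lit 5, [⟨nat_lit 1, [⟨nat_lit 0, nat_lit 8976, nat_lit 9504, nat_lit 2256, nat_lit 1776, nat_lit 3360, R9_47, R8_37, R7_70⟩, ⟨nat_lit 1, nat_lit 9264, nat_lit 9552, nat_lit 2304, nat_lit 864, nat_lit 1680, R9_48, R9_18, R2_35⟩]⟩]⟩,
 ⟨nat_lit 6, [⟨nat_lit 1, [⟨nat_lit 0, nat_lit 6096, nat_lit 10848, nat_lit 14400, nat_lit 4224, nat_lit 3216, R5_300, R4_88, R7_67⟩, ⟨nat_lit 1, nat_lit 6288, nat_lit 10896, nat_lit 14448, nat_lit 336, nat_lit 1536, R5_301, R5_7, R2_32⟩]⟩]⟩], [⟨nat_lit 4, [⟨nat_lit 0, [⟨nat_lit 0, nat_lit 0, nat_lit 3216, nat_lit 96, nat_lit 864, nat_lit 13488, R6_2, R6_18, R7_281⟩, ⟨nat_lit 2, nat_lit 96, nat_lit 3264, nat_lit 960, nat_lit 432, nat_lit 12192, R6_20, R4_9, R2_254⟩]⟩, ⟨nat_lit 1, [⟨nat_lit 0, nat_lit 624, nat_lit 4080, nat_lit 3408, nat_lit 3072, nat_lit 8160, R8_71, R6_64,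 R14_170⟩, ⟨nat_lit 1, nat_lit 912, nat_lit 4128, nat_lit 3504, nat_lit 2880, nat_lit 6768, R8_73, R8_60, R12_141⟩, ⟨nat_lit 2, nat_lit 768, nat_lit 4176, nat_lit 3456, nat_lit 2736, nat_lit 2928, R8_72, R4_57, R12_61⟩]⟩, ⟨nat_lit 2, [⟨nat_lit 2, nat_lit 432, nat_lit 4464, nat_lit 576, nat_lit 1344, nat_lit 12768, R4_12, R4_28, R1_266⟩]⟩]⟩,
 ⟨nat_lit 5, [⟨nat_lit 0, [⟨nat_lit 0, nat_lit 7968, nat_lit 9120, nat_lit 13392, nat_lit 9648, nat_lit 16800, R8_279, R8_201, R7_350⟩, ⟨nat_lit 2, nat_lit 8064, nat_lit 9168, nat_lit 13440, nat_lit 528, nat_lit 15024, R8_280, R5_11, R2_313⟩]⟩, ⟨nat_lit 1, [⟨nat_lit 0, nat_lit 9024, nat_lit 10416, nat_lit 2352, nat_lit 9744, nat_lit 8688, R9_49, R8_203, R14_181⟩, ⟨nat_lit 1, nat_lit 9312, nat_lit 10464, nat_lit 2448, nat_lit 1584, nat_lit 7296, R9_51, R9_33, R12_152⟩, ⟨nat_lit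 2, nat_lit 9168, nat_lit 10512, nat_lit 2400, nat_lit 672, nat_lit 4320, R9_50, R5_14, R12_90⟩]⟩, ⟨nat_lit 2, [⟨nat_lit 2, nat_lit 8688, nat_lit 10752, nat_lit 2160, nat_lit 576, nat_lit 16032, R5_45, R5_12, R1_334⟩]⟩]⟩,
 ⟨nat_lit 6, [⟨nat_lit 0, [⟨nat_lit 0, nat_lit 5808, nat_lit 11664, nat_lit 13440, nat_lit 11568, nat_lit 14304, R4_280, R4_241, R7_298⟩]⟩, ⟨nat_lit 1, [⟨nat_lit 0, nat_lit 6144, nat_lit 11712, nat_lit 15984, nat_lit 12000, nat_lit 8448, R5_333, R4_250, R14_176⟩, ⟨nat_lit 1, nat_lit 6336, nat_lit 11760, nat_lit 16032, nat_lit 12720, nat_lit 7056, R5_334, R5_265, R12_147⟩]⟩]⟩], [⟨nat_lit 4, [⟨nat_lit 1, [⟨nat_lit 1, nat_lit 960, nat_lit 2256, nat_lit 3696, nat_lit 2496, nat_lit 960, R8_77, R8_52, R1_20⟩]⟩]⟩,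
 ⟨nat_lit 5, [⟨nat_lit 1, [⟨nat_lit 1, nat_lit 9360, nat_lit 6768, nat_lit 2784, nat_lit 1248, nat_lit 1152, R9_58, R9_26, R1_24⟩]⟩]⟩,
 ⟨nat_lit 6, [⟨nat_lit 1, [⟨nat_lit 1, nat_lit 6384, nat_lit 9936, nat_lit 17136, nat_lit 6528, nat_lit 1008, R5_357, R5_136, R1_21⟩]⟩]⟩]], [], [[], [], [], [], [], [], [⟨nat_lit 4, [⟨nat_lit 1, [⟨nat_lit 1, nat_lit 1008, nat_lit 17136, nat_lit 10944, nat_lit 6528, nat_lit 6384, R8_228, R5_136, R1_133⟩]⟩]⟩,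
 ⟨nat_lit 6, [⟨nat_lit 1, [⟨nat_lit 1, nat_lit 6432, nat_lit 17472, nat_lit 17472, nat_lit 6144, nat_lit 6432, R5_364, R11_128, R1_134⟩]⟩]⟩]], [[], [], [], [], [⟨nat_lit 4, [⟨nat_lit 1, [⟨nat_lit 0, nat_lit 672, nat_lit 20352, nat_lit 8160, nat_lit 8688, nat_lit 9360, R8_170, R13_181, R7_195⟩, ⟨nat_lit 1, nat_lit 1056, nat_lit 20448, nat_lit 8304, nat_lit 6336, nat_lit 8544, R8_173, R9_132, R2_178⟩, ⟨nat_lit 3, nat_lit 1248, nat_lit 20400, nat_lit 8256, nat_lit 2304, nat_lit 3456, R8_172, R3_48, R2_72⟩]⟩]⟩,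
 ⟨nat_lit 5, [⟨nat_lit 1, [⟨nat_lit 0, nat_lit 9072, nat_lit 20688, nat_lit 9024, nat_lit 11952, nat_lit 9552, R9_188, R9_249, R7_199⟩]⟩]⟩,
 ⟨nat_lit 6, [⟨nat_lit 1, [⟨nat_lit 0, nat_lit 6192, nat_lit 21072, nat_lit 14544, nat_lit 10608, nat_lit 9408, R5_303, R3_221, R7_196⟩, ⟨nat_lit 3, nat_lit 6672, nat_lit 21120, nat_lit 14592, nat_lit 6000, nat_lit 3504, R5_304, R10_125, R2_73⟩]⟩]⟩], [⟨nat_lit 4, [⟨nat_lit 0, [⟨nat_lit 0, nat_lit 48, nat_lit 15888, nat_lit 4944, nat_lit 4896, nat_lit 13584, R6_103, R13_102, R7_283⟩, ⟨nat_lit 2, nat_lit 144, nat_lit 15984, nat_lit 6672, nat_lit 3648, nat_lit 12288, R6_139, R3_76, R2_256⟩, ⟨nat_lit 3, nat_lit 192, nat_lit 15936, nat_lit 6288, nat_lit 624, nat_lit 11904, R6_131, R3_13, R2_248⟩]⟩, ⟨nat_lit 1, [⟨nat_lit 0, nat_lit 720, nat_lit 16848, nat_lit 8496, nat_lit 8736,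 nat_lit 9264, R8_177, R13_182, R14_193⟩, ⟨nat_lit 1, nat_lit 1104, nat_lit 16944, nat_lit 8640, nat_lit 6432, nat_lit 8160, R8_180, R9_134, R12_170⟩, ⟨nat_lit 2, nat_lit 816, nat_lit 16992, nat_lit 8592, nat_lit 7056, nat_lit 3408, R8_179, R3_147, R12_71⟩, ⟨nat_lit 3, nat_lit 1296, nat_lit 16896, nat_lit 8544, nat_lit 2736, nat_lit 3072, R8_178, R3_57, R12_64⟩]⟩, ⟨nat_lit 2, [⟨nat_lit 2, nat_lit 480, nat_lit 17328, nat_lit 6960, nat_lit 4800, nat_lit 12864, R4_145, R3_100, R1_268⟩]⟩]⟩,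
 ⟨nat_lit 5, [⟨nat_lit 0, [⟨nat_lit 0, nat_lit 8016, nat_lit 16224, nat_lit 13632, nat_lit 11040, nat_lit 16896, R8_284, R9_230, R7_352⟩]⟩, ⟨nat_lit 1, [⟨nat_lit 0, nat_lit 9120, nat_lit 17040, nat_lit 9360, nat_lit 12624, nat_lit 10368, R9_195, R9_263, R14_216⟩]⟩]⟩,
 ⟨nat_lit 6, [⟨nat_lit 0, [⟨nat_lit 0, nat_lit 5856, nat_lit 16656, nat_lit 13584, nat_lit 10272, nat_lit 14400, R4_283, R3_214, R7_300⟩, ⟨nat_lit 3, nat_lit 5904, nat_lit 16704, nat_lit 13776, nat_lit 3360, nat_lit 13920, R4_287, R10_70, R2_290⟩]⟩, ⟨nat_lit 1, [⟨nat_lit 0, nat_lit 6240, nat_lit 17184, nat_lit 16080, nat_lit 10800, nat_lit 9744, R5_335, R3_225, R14_203⟩, ⟨nat_lit 3, nat_lit 6720, nat_lit 17232, nat_lit 16128, nat_lit 6096, nat_lit 3600, R5_336, R10_127, R12_75⟩]⟩]⟩], [], [⟨nat_lit 4, [⟨nat_lit 1, [⟨nat_lit 3, nat_lit 1344, nat_lit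 3360, nat_lit 8448, nat_lit 2448, nat_lit 2928, R8_176, R3_51, R1_61⟩]⟩]⟩,
 ⟨nat_lit 6, [⟨nat_lit 1, [⟨nat_lit 3, nat_lit 6768, nat_lit 10560, nat_lit 16464, nat_lit 6048, nat_lit 2976, R5_343, R10_126, R1_62⟩]⟩]⟩]]], [[], [], [], [], [[], [], [], [], [], [⟨nat_lit 5, [⟨nat_lit 0, [⟨nat_lit 0, nat_lit 8208, nat_lit 6336, nat_lit 16320, nat_lit 10224, nat_lit 17088, R5_340, R8_213, R7_356⟩, ⟨nat_lit 2, nat_lit 8352, nat_lit 7200, nat_lit 16656, nat_lit 7488, nat_lit 15360, R5_347, R5_156, R2_320⟩]⟩, ⟨nat_lit 2, [⟨nat_lit 2, nat_lit 8784, nat_lit 7344, nat_lit 2160, nat_lit 7536, nat_lit 16368, R11_45, R5_157, R1_341⟩]⟩]⟩]], [[], [], [], [], [], [⟨nat_lit 1, [⟨nat_lit 2, [⟨nat_lit 2, nat_lit 15840, nat_lit 21264, nat_lit 15840, nat_lit 11424, nat_lit 11424, R1_330, R1_238, R1_238⟩]⟩]⟩,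
 ⟨nat_lit 5, [⟨nat_lit 0, [⟨nat_lit 0, nat_lit 8256, nat_lit 18576, nat_lit 16416, nat_lit 12912, nat_lit 17232, R5_342, R5_269, R7_359⟩, ⟨nat_lit 2, nat_lit 8400, nat_lit 19056, nat_lit 16752, nat_lit 7104, nat_lit 15504, R5_349, R11_148, R2_323⟩]⟩, ⟨nat_lit 2, [⟨nat_lit 2, nat_lit 8832, nat_lit 21216, nat_lit 8688, nat_lit 7152, nat_lit 16512, R11_181, R11_149, R1_344⟩]⟩]⟩]]], [[[⟨nat_lit 6, [⟨nat_lit 5, [⟨nat_lit 4, nat_lit 3936, nat_lit 4032, nat_lit 4512, nat_lit 3072, nat_lit 3792, R1_94, R4_64, R4_79⟩, ⟨nat_lit 7, nat_lit 4224, nat_lit 10368, nat_lit 4656, nat_lit 816, nat_lit 14256, R1_97, R5_17, R3_297⟩]⟩]⟩], [], [], [⟨nat_lit 6, [⟨nat_lit 5, [⟨nat_lit 7, nat_lit 4272, nat_lit 7104, nat_lit 4704, nat_lit 7776, nat_lit 19056, R1_98, R5_162, R10_397⟩]⟩]⟩]], [], [[⟨nat_lit 6, [⟨nat_lit 5, [⟨nat_lit 4,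 nat_lit 3984, nat_lit 14304, nat_lit 4560, nat_lit 9744, nat_lit 10128, R1_95, R3_203, R4_211⟩]⟩]⟩], [], [⟨nat_lit 6, [⟨nat_lit 5, [⟨nat_lit 4, nat_lit 4032, nat_lit 19488, nat_lit 4608, nat_lit 10032, nat_lit 5568, R1_96, R3_209, R5_116⟩, ⟨nat_lit 5, nat_lit 4080, nat_lit 19536, nat_lit 5040, nat_lit 8448, nat_lit 21312, R1_105, R10_176, R11_444⟩]⟩]⟩]], [[], [], [], [⟨nat_lit 6, [⟨nat_lit 5, [⟨nat_lit 3, nat_lit 4944, nat_lit 21792, nat_lit 4176, nat_lit 7824, nat_lit 15600, R1_87, R1_163, R1_325⟩, ⟨nat_lit 7, nat_lit 4464, nat_lit 21744, nat_lit 4752, nat_lit 9360, nat_lit 19104, R1_99, R11_195, R10_398⟩]⟩]⟩], [], [], [], [⟨nat_lit 4, [⟨nat_lit 1, [⟨nat_lit 3, nat_lit 1728, nat_lit 15936, nat_lit 5904, nat_lit 7056, nat_lit 15312, R5_123, R2_147, R1_319⟩]⟩]⟩,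
 ⟨nat_lit 6, [⟨nat_lit 1, [⟨nat_lit 3, nat_lit 7152, nat_lit 16320, nat_lit 5520, nat_lit 5760, nat_lit 15408, R11_115, R1_120, R1_321⟩]⟩, ⟨nat_lit 5, [⟨nat_lit 3, nat_lit 4992, nat_lit 15888, nat_lit 4128, nat_lit 7776, nat_lit 21360, R1_86, R1_162, R11_445⟩]⟩]⟩]], [[], [], [], [], [⟨nat_lit 4, [⟨nat_lit 1, [⟨nat_lit 0, nat_lit 1392, nat_lit 1536, nat_lit 4608, nat_lit 10368, nat_lit 3696, R5_96, R6_216, R7_77⟩, ⟨nat_lit 1, nat_lit 1488, nat_lit 8256, nat_lit 6192, nat_lit 9552, nat_lit 2064, R5_129, R8_199, R2_43⟩]⟩]⟩,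
 ⟨nat_lit 6, [⟨nat_lit 1, [⟨nat_lit 0, nat_lit 6816, nat_lit 1824, nat_lit 4608, nat_lit 4320, nat_lit 3744, R11_96, R4_90, R7_78⟩, ⟨nat_lit 1, nat_lit 6912, nat_lit 8544, nat_lit 5808, nat_lit 720, nat_lit 2112, R11_121, R5_15, R2_44⟩]⟩, ⟨nat_lit 5, [⟨nat_lit 0, nat_lit 4512, nat_lit 4032, nat_lit 3936, nat_lit 3072, nat_lit 3792, R1_82, R4_64, R4_79⟩, ⟨nat_lit 1, nat_lit 4656, nat_lit 10368, nat_lit 4224, nat_lit 816, nat_lit 14256, R1_88, R5_17, R3_297⟩]⟩]⟩], [], [⟨nat_lit 4, [⟨nat_lit 1, [⟨nat_lit 1, nat_lit 1536, nat_lit 6240, nat_lit 6240, nat_lit 10080, nat_lit 1536, R5_130, R8_210, R1_32⟩]⟩]⟩,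
 ⟨nat_lit 6, [⟨nat_lit 1, [⟨nat_lit 1, nat_lit 6960, nat_lit 7152, nat_lit 5856, nat_lit 7680, nat_lit 1584, R11_122, R5_160, R1_33⟩]⟩, ⟨nat_lit 5, [⟨nat_lit 1, nat_lit 4704, nat_lit 7104, nat_lit 4272, nat_lit 7776, nat_lit 19056, R1_89, R5_162, R10_397⟩]⟩]⟩]], [], [[], [], [⟨nat_lit 6, [⟨nat_lit 5, [⟨nat_lit 5, nat_lit 4128, nat_lit 15888, nat_lit 4992, nat_lit 7776, nat_lit 21360, R1_104, R1_162, R11_445⟩]⟩]⟩], [], [], [], [⟨nat_lit 4, [⟨nat_lit 1, [⟨nat_lit 1, nat_lit 1584, nat_lit 21840, nat_lit 7152, nat_lit 7680, nat_lit 6960, R5_149, R5_160, R1_145⟩]⟩]⟩,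
 ⟨nat_lit 6, [⟨nat_lit 1, [⟨nat_lit 1, nat_lit 7008, nat_lit 22176, nat_lit 6768, nat_lit 7296, nat_lit 7008, R11_141, R11_152, R1_146⟩]⟩, ⟨nat_lit 5, [⟨nat_lit 1, nat_lit 4752, nat_lit 21744, nat_lit 4464, nat_lit 9360, nat_lit 19104, R1_93, R11_195, R10_398⟩, ⟨nat_lit 5, nat_lit 4176, nat_lit 21792, nat_lit 4944, nat_lit 7824, nat_lit 15600, R1_103, R1_163, R1_325⟩]⟩]⟩]], [[], [], [], [], [⟨nat_lit 4, [⟨nat_lit 1, [⟨nat_lit 0, nat_lit 1440, nat_lit 12624, nat_lit 4992, nat_lit 9648, nat_lit 10752, R5_104, R13_201, R7_224⟩, ⟨nat_lit 1, nat_lit 1632, nat_lit 13008, nat_lit 6720, nat_lit 7536, nat_lit 9840, R5_140, R9_157, R2_205⟩, ⟨nat_lit 3, nat_lit 1776, nat_lit 13440, nat_lit 5664, nat_lit 9936, nat_lit 4848, R5_118, R3_207, R2_101⟩]⟩]⟩,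
 ⟨nat_lit 6, [⟨nat_lit 1, [⟨nat_lit 0, nat_lit 6864, nat_lit 12720, nat_lit 4992, nat_lit 10704, nat_lit 10800, R11_104, R3_223, R7_225⟩, ⟨nat_lit 3, nat_lit 7200, nat_lit 13536, nat_lit 5280, nat_lit 6720, nat_lit 4896, R11_110, R10_140, R2_102⟩]⟩, ⟨nat_lit 5, [⟨nat_lit 0, nat_lit 4560, nat_lit 14304, nat_lit 3984, nat_lit 9744, nat_lit 10128, R1_83, R3_203, R4_211⟩]⟩]⟩], [], [], [⟨nat_lit 4, [⟨nat_lit 1, [⟨nat_lit 3, nat_lit 1824, nat_lit 19632, nat_lit 5712, nat_lit 10080, nat_lit 3552, R5_119, R3_210, R1_74⟩]⟩]⟩,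
 ⟨nat_lit 6, [⟨nat_lit 1, [⟨nat_lit 3, nat_lit 7248, nat_lit 19968, nat_lit 5328, nat_lit 6768, nat_lit 3600, R11_111, R10_141, R1_75⟩]⟩, ⟨nat_lit 5, [⟨nat_lit 0, nat_lit 4608, nat_lit 19488, nat_lit 4032, nat_lit 10032, nat_lit 5568, R1_84, R3_209, R5_116⟩, ⟨nat_lit 3, nat_lit 5040, nat_lit 19536, nat_lit 4080, nat_lit 8448, nat_lit 21312, R1_85, R10_176, R11_444⟩]⟩]⟩]]], [[], [], [], [[], [], [], [], [], [⟨nat_lit 4, [⟨nat_lit 0, [⟨nat_lit 3, nat_lit 336, nat_lit 13584, nat_lit 7680, nat_lit 3936, nat_lit 12336, R13_160, R2_82, R2_257⟩]⟩, ⟨nat_lit 1, [⟨nat_lit 3, nat_lit 2208, nat_lit 14928, nat_lit 5712, nat_lit 6960, nat_lit 13728, R9_119, R2_145, R12_286⟩]⟩, ⟨nat_lit 3, [⟨nat_lit 3, nat_lit 2496, nat_lit 15456, nat_lit 13392, nat_lit 5184, nat_lit 12912, R3_279, R2_108, R1_269⟩]⟩]⟩,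
 ⟨nat_lit 6, [⟨nat_lit 0, [⟨nat_lit 3, nat_lit 6000, nat_lit 13680, nat_lit 15840, nat_lit 3408, nat_lit 14112, R3_330, R1_71, R2_294⟩]⟩, ⟨nat_lit 3, [⟨nat_lit 3, nat_lit 7872, nat_lit 15504, nat_lit 5184, nat_lit 3888, nat_lit 15648, R10_108, R1_81, R1_326⟩]⟩]⟩,
 ⟨nat_lit 7, [⟨nat_lit 0, [⟨nat_lit 0, nat_lit 11136, nat_lit 13152, nat_lit 15360, nat_lit 10608, nat_lit 15072, R3_320, R2_221, R7_314⟩, ⟨nat_lit 2, nat_lit 11232, nat_lit 13776, nat_lit 15696, nat_lit 10992, nat_lit 14256, R3_327, R1_229, R2_297⟩, ⟨nat_lit 3, nat_lit 11328, nat_lit 13632, nat_lit 15648, nat_lit 6336, nat_lit 13872, R3_326, R12_132, R2_289⟩]⟩, ⟨nat_lit 2, [⟨nat_lit 2, nat_lit 11472, nat_lit 15552, nat_lit 19440, nat_lit 11376, nat_lit 15792, R10_405, R1_237, R1_329⟩]⟩]⟩]], [], [], [], [[], [], [], [], [], [⟨nat_lit 4, [⟨nat_lit 0,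 [⟨nat_lit 0, nat_lit 240, nat_lit 14736, nat_lit 5184, nat_lit 5904, nat_lit 13680, R13_108, R13_123, R7_285⟩, ⟨nat_lit 2, nat_lit 288, nat_lit 15504, nat_lit 6768, nat_lit 4176, nat_lit 12432, R13_141, R3_87, R2_259⟩, ⟨nat_lit 3, nat_lit 384, nat_lit 15216, nat_lit 7152, nat_lit 4224, nat_lit 12384, R13_149, R3_88, R2_258⟩]⟩, ⟨nat_lit 1, [⟨nat_lit 0, nat_lit 1920, nat_lit 16368, nat_lit 4176, nat_lit 9408, nat_lit 9312, R9_87, R13_196, R14_194⟩, ⟨nat_lit 1, nat_lit 2064, nat_lit 17280, nat_lit 6672, nat_lit 7296, nat_lit 8208, R9_139, R9_152, R12_171⟩, ⟨nat_lit 2, nat_lit 1968, nat_lit 18336, nat_lit 5040, nat_lit 7440, nat_lit 3456, R9_105, R3_155, R12_72⟩, ⟨nat_lit 3, nat_lit 2352, nat_lit 17952, nat_lit 5328, nat_lit 7488, nat_lit 3312, R9_111, R3_156, R12_69⟩]⟩, ⟨nat_lit 2, [⟨nat_lit 2, nat_lit 528, nat_lit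 18912, nat_lit 5136, nat_lit 5904, nat_lit 13008, R3_107, R3_123, R1_271⟩]⟩, ⟨nat_lit 3, [⟨nat_lit 3, nat_lit 2544, nat_lit 18768, nat_lit 5088, nat_lit 5952, nat_lit 12960, R3_106, R3_124, R1_270⟩]⟩]⟩,
 ⟨nat_lit 5, [⟨nat_lit 0, [⟨nat_lit 0, nat_lit 8544, nat_lit 14832, nat_lit 15552, nat_lit 11088, nat_lit 17040, R9_324, R9_231, R7_355⟩]⟩]⟩,
 ⟨nat_lit 6, [⟨nat_lit 0, [⟨nat_lit 0, nat_lit 5952, nat_lit 14880, nat_lit 15456, nat_lit 10320, nat_lit 14544, R3_322, R3_215, R7_303⟩, ⟨nat_lit 3, nat_lit 6048, nat_lit 15312, nat_lit 15792, nat_lit 3936, nat_lit 14160, R3_329, R10_82, R2_295⟩]⟩, ⟨nat_lit 3, [⟨nat_lit 3, nat_lit 7920, nat_lit 18864, nat_lit 4272, nat_lit 5040, nat_lit 15696, R10_89, R10_105, R1_327⟩]⟩]⟩,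
 ⟨nat_lit 7, [⟨nat_lit 0, [⟨nat_lit 0, nat_lit 11184, nat_lit 14784, nat_lit 15408, nat_lit 10416, nat_lit 15024, R3_321, R3_217, R7_313⟩, ⟨nat_lit 2, nat_lit 11280, nat_lit 15552, nat_lit 15744, nat_lit 12288, nat_lit 14208, R3_328, R10_256, R2_296⟩]⟩, ⟨nat_lit 2, [⟨nat_lit 2, nat_lit 11520, nat_lit 18960, nat_lit 19392, nat_lit 12576, nat_lit 15744, R10_404, R10_262, R1_328⟩]⟩]⟩]]]]
noncomputable def N6445 : T3 (List N0) := [[[[], [⟨nat_lit 0, [⟨nat_lit 5, [⟨nat_lit 5, nat_lit 3360, nat_lit 48, nat_lit 3600, nat_lit 3216, nat_lit 96, R6_75, R6_67, R12_2⟩]⟩]⟩,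
 ⟨nat_lit 1, [⟨nat_lit 4, [⟨nat_lit 4, nat_lit 8640, nat_lit 4704, nat_lit 12720, nat_lit 10032, nat_lit 15456, R6_265, R6_209, R7_322⟩]⟩, ⟨nat_lit 5, [⟨nat_lit 4, nat_lit 9216, nat_lit 4896, nat_lit 3072, nat_lit 10080, nat_lit 2160, R13_64, R6_210, R14_45⟩, ⟨nat_lit 5, nat_lit 9360, nat_lit 4992, nat_lit 3120, nat_lit 2304, nat_lit 384, R13_65, R13_48, R12_8⟩]⟩]⟩], [], [], [], [⟨nat_lit 1, [⟨nat_lit 4, [⟨nat_lit 4, nat_lit 8592, nat_lit 4560, nat_lit 12912, nat_lit 9792, nat_lit 14064, R6_269, R6_204, R4_293⟩]⟩]⟩]], [[], [⟨nat_lit 1, [⟨nat_lit 4, [⟨nat_lit 4, nat_lit 8736, nat_lit 3120, nat_lit 12768, nat_lit 10992, nat_lit 15648, R6_266, R4_229, R7_326⟩]⟩, ⟨nat_lit 5, [⟨nat_lit 4, nat_lit 9264, nat_lit 3312, nat_lit 3168, nat_lit 11088, nat_lit 4080, R13_66, R4_231, R14_85⟩, ⟨nat_lit 5, nat_lit 9408, nat_lit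 3408, nat_lit 3216, nat_lit 2784, nat_lit 2448, R13_67, R3_58, R12_51⟩]⟩]⟩], [], [], [], [⟨nat_lit 1, [⟨nat_lit 4, [⟨nat_lit 4, nat_lit 8688, nat_lit 144, nat_lit 12960, nat_lit 10800, nat_lit 14112, R6_270, R4_225, R4_294⟩]⟩]⟩]], [], [[], [⟨nat_lit 0, [⟨nat_lit 5, [⟨nat_lit 4, nat_lit 3312, nat_lit 1152, nat_lit 3648, nat_lit 2448, nat_lit 2544, R6_76, R6_51, R14_53⟩, ⟨nat_lit 5, nat_lit 3408, nat_lit 1440, nat_lit 3744, nat_lit 2832, nat_lit 912, R6_78, R8_59, R12_19⟩, ⟨nat_lit 7, nat_lit 3456, nat_lit 1296, nat_lit 3696, nat_lit 2352, nat_lit 2784, R6_77, R4_49, R12_58⟩]⟩]⟩,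
 ⟨nat_lit 1, [⟨nat_lit 4, [⟨nat_lit 4, nat_lit 8784, nat_lit 7440, nat_lit 12816, nat_lit 9600, nat_lit 15552, R6_267, R8_200, R7_324⟩, ⟨nat_lit 7, nat_lit 8832, nat_lit 7536, nat_lit 12864, nat_lit 432, nat_lit 14448, R6_268, R5_9, R2_301⟩]⟩, ⟨nat_lit 5, [⟨nat_lit 4, nat_lit 9312, nat_lit 8208, nat_lit 3264, nat_lit 9696, nat_lit 3120, R13_68, R8_202, R14_65⟩, ⟨nat_lit 5, nat_lit 9456, nat_lit 8496, nat_lit 3360, nat_lit 1536, nat_lit 1488, R13_70, R9_32, R12_31⟩, ⟨nat_lit 7, nat_lit 9504, nat_lit 8352, nat_lit 3312, nat_lit 480, nat_lit 4128, R13_69, R5_10, R12_86⟩]⟩]⟩]]], [[], [[], [⟨nat_lit 1, [⟨nat_lit 4, [⟨nat_lit 4, nat_lit 8928, nat_lit 2592, nat_lit 13056, nat_lit 11040, nat_lit 16368, R4_272, R4_230, R7_341⟩]⟩, ⟨nat_lit 5, [⟨nat_lit 4, nat_lit 9552, nat_lit 2784, nat_lit 3168, nat_lit 11136, nat_lit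 4176, R3_66, R4_232, R14_87⟩, ⟨nat_lit 5, nat_lit 9600, nat_lit 2880, nat_lit 3216, nat_lit 2832, nat_lit 2544, R3_67, R3_59, R12_53⟩]⟩]⟩,
 ⟨nat_lit 5, [⟨nat_lit 4, [⟨nat_lit 4, nat_lit 13536, nat_lit 13056, nat_lit 14160, nat_lit 11472, nat_lit 12048, R7_295, R7_239, R7_251⟩, ⟨nat_lit 6, nat_lit 13680, nat_lit 13104, nat_lit 14208, nat_lit 10752, nat_lit 10512, R7_296, R2_224, R2_219⟩]⟩, ⟨nat_lit 5, [⟨nat_lit 4, nat_lit 13920, nat_lit 13248, nat_lit 13728, nat_lit 11520, nat_lit 3792, R2_286, R7_240, R14_79⟩, ⟨nat_lit 5, nat_lit 14016, nat_lit 13344, nat_lit 13824, nat_lit 10320, nat_lit 2160, R2_288, R2_215, R12_45⟩, ⟨nat_lit 6, nat_lit 13968, nat_lit 13488, nat_lit 13776, nat_lit 10944, nat_lit 1776, R2_287, R2_228, R12_37⟩]⟩, ⟨nat_lit 6, [⟨nat_lit 6, nat_lit 13872, nat_lit 13728, nat_lit 14016, nat_lit 10848,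 nat_lit 10896, R2_292, R2_226, R1_227⟩]⟩]⟩], [], [], [], [⟨nat_lit 1, [⟨nat_lit 4, [⟨nat_lit 4, nat_lit 8880, nat_lit 2784, nat_lit 13104, nat_lit 10848, nat_lit 14544, R4_273, R4_226, R4_303⟩]⟩]⟩,
 ⟨nat_lit 5, [⟨nat_lit 4, [⟨nat_lit 4, nat_lit 13488, nat_lit 14400, nat_lit 14256, nat_lit 11424, nat_lit 11520, R7_297, R7_238, R4_240⟩, ⟨nat_lit 6, nat_lit 13632, nat_lit 14592, nat_lit 14352, nat_lit 10800, nat_lit 10368, R7_299, R2_225, R3_216⟩]⟩, ⟨nat_lit 6, [⟨nat_lit 6, nat_lit 13824, nat_lit 15408, nat_lit 13968, nat_lit 10896, nat_lit 3408, R2_291, R2_227, R10_71⟩]⟩]⟩]], [], [], [], [[], [], [], [], [], [⟨nat_lit 5, [⟨nat_lit 4, [⟨nat_lit 4, nat_lit 13440, nat_lit 5808, nat_lit 14304, nat_lit 11664, nat_lit 11568, R7_298, R4_243, R4_241⟩, ⟨nat_lit 6, nat_lit 13584, nat_lit 5856, nat_lit 14400, nat_lit 16656,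 nat_lit 10272, R7_300, R3_347, R3_214⟩]⟩, ⟨nat_lit 6, [⟨nat_lit 6, nat_lit 13776, nat_lit 5904, nat_lit 13920, nat_lit 16704, nat_lit 3360, R2_290, R3_348, R10_70⟩]⟩]⟩]]], [[[⟨nat_lit 0, [⟨nat_lit 1, [⟨nat_lit 5, nat_lit 1584, nat_lit 6576, nat_lit 3600, nat_lit 3264, nat_lit 12336, R7_75, R6_68, R3_257⟩]⟩, ⟨nat_lit 5, [⟨nat_lit 5, nat_lit 3600, nat_lit 7008, nat_lit 3504, nat_lit 3312, nat_lit 96, R4_73, R6_69, R2_2⟩]⟩]⟩,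
 ⟨nat_lit 1, [⟨nat_lit 1, [⟨nat_lit 4, nat_lit 8160, nat_lit 624, nat_lit 1920, nat_lit 9984, nat_lit 1488, R2_40, R6_208, R4_31⟩, ⟨nat_lit 5, nat_lit 8304, nat_lit 6624, nat_lit 1968, nat_lit 2352, nat_lit 12480, R2_41, R13_49, R3_260⟩]⟩, ⟨nat_lit 5, [⟨nat_lit 4, nat_lit 9648, nat_lit 1056, nat_lit 13584, nat_lit 9936, nat_lit 1584, R3_283, R6_207, R7_33⟩, ⟨nat_lit 5, nat_lit 9888, nat_lit 7056, nat_lit 13728, nat_lit 2400, nat_lit 144, R3_286, R13_50, R2_3⟩]⟩]⟩], [⟨nat_lit 0, [⟨nat_lit 5, [⟨nat_lit 5, nat_lit 3648, nat_lit 15456, nat_lit 3552, nat_lit 3360, nat_lit 144, R4_74, R6_70, R12_3⟩]⟩]⟩,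
 ⟨nat_lit 1, [⟨nat_lit 5, [⟨nat_lit 4, nat_lit 9696, nat_lit 15696, nat_lit 13872, nat_lit 10128, nat_lit 2208, R3_289, R6_211, R14_46⟩, ⟨nat_lit 5, nat_lit 9936, nat_lit 16128, nat_lit 14064, nat_lit 2448, nat_lit 432, R3_293, R13_51, R12_9⟩]⟩]⟩]], [[], [⟨nat_lit 1, [⟨nat_lit 5, [⟨nat_lit 4, nat_lit 9744, nat_lit 12768, nat_lit 13920, nat_lit 11184, nat_lit 4128, R3_290, R4_233, R14_86⟩, ⟨nat_lit 5, nat_lit 9984, nat_lit 13200, nat_lit 14112, nat_lit 2880, nat_lit 2496, R3_294, R3_60, R12_52⟩]⟩]⟩]], [[⟨nat_lit 0, [⟨nat_lit 1, [⟨nat_lit 5, nat_lit 1632, nat_lit 4752, nat_lit 3936, nat_lit 2928, nat_lit 13104, R7_82, R4_61, R3_273⟩]⟩, ⟨nat_lit 5, [⟨nat_lit 5, nat_lit 3696, nat_lit 5232, nat_lit 3936, nat_lit 3024, nat_lit 5808, R4_82, R4_63, R2_121⟩]⟩]⟩,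
 ⟨nat_lit 1, [⟨nat_lit 1, [⟨nat_lit 5, nat_lit 8352, nat_lit 4800, nat_lit 2304, nat_lit 9696, nat_lit 13248, R2_48, R3_202, R3_276⟩]⟩, ⟨nat_lit 5, [⟨nat_lit 5, nat_lit 10032, nat_lit 5280, nat_lit 13824, nat_lit 9648, nat_lit 5856, R3_288, R3_201, R2_122⟩]⟩]⟩], [⟨nat_lit 0, [⟨nat_lit 5, [⟨nat_lit 5, nat_lit 3744, nat_lit 12960, nat_lit 3984, nat_lit 3120, nat_lit 576, R4_83, R4_65, R12_12⟩]⟩]⟩,
 ⟨nat_lit 1, [⟨nat_lit 5, [⟨nat_lit 5, nat_lit 10080, nat_lit 13488, nat_lit 14208, nat_lit 9840, nat_lit 624, R3_296, R3_205, R12_13⟩]⟩]⟩], [⟨nat_lit 0, [⟨nat_lit 1, [⟨nat_lit 1, nat_lit 1440, nat_lit 15216, nat_lit 3888, nat_lit 2784, nat_lit 12576, R7_81, R7_58, R1_262⟩, ⟨nat_lit 5, nat_lit 1680, nat_lit 3456, nat_lit 3984, nat_lit 2976, nat_lit 13968, R7_83, R4_62, R10_291⟩]⟩, ⟨nat_lit 5, [⟨nat_lit 5, nat_lit 3792,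 nat_lit 3936, nat_lit 4032, nat_lit 3072, nat_lit 4512, R4_84, R4_64, R1_94⟩]⟩]⟩,
 ⟨nat_lit 1, [⟨nat_lit 1, [⟨nat_lit 1, nat_lit 8112, nat_lit 15264, nat_lit 2256, nat_lit 864, nat_lit 12672, R2_47, R2_18, R1_264⟩, ⟨nat_lit 5, nat_lit 8400, nat_lit 3504, nat_lit 2352, nat_lit 9792, nat_lit 14016, R2_49, R3_204, R10_292⟩]⟩, ⟨nat_lit 5, [⟨nat_lit 5, nat_lit 10128, nat_lit 3984, nat_lit 14304, nat_lit 9744, nat_lit 4560, R3_298, R3_203, R1_95⟩]⟩]⟩,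
 ⟨nat_lit 2, [⟨nat_lit 1, [⟨nat_lit 1, nat_lit 7344, nat_lit 15360, nat_lit 48, nat_lit 3024, nat_lit 12624, R2_1, R2_63, R1_263⟩]⟩]⟩]], [[⟨nat_lit 0, [⟨nat_lit 1, [⟨nat_lit 4, nat_lit 1488, nat_lit 1920, nat_lit 3648, nat_lit 4176, nat_lit 8160, R7_76, R6_87, R4_170⟩, ⟨nat_lit 5, nat_lit 1728, nat_lit 9696, nat_lit 3792, nat_lit 2928, nat_lit 12768, R7_79, R8_61, R3_266⟩]⟩, ⟨nat_lit 5, [⟨nat_lit 4, nat_lit 3504, nat_lit 96, nat_lit 3600, nat_lit 3312, nat_lit 8160, R4_75, R6_69, R7_170⟩, ⟨nat_lit 5, nat_lit 3840, nat_lit 7104, nat_lit 3840, nat_lit 3024, nat_lit 7104, R4_80, R8_63, R2_148⟩, ⟨nat_lit 7, nat_lit 3936, nat_lit 5808, nat_lit 3696, nat_lit 3024, nat_lit 5232, R4_77, R4_63, R2_109⟩]⟩]⟩,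
 ⟨nat_lit 1, [⟨nat_lit 1, [⟨nat_lit 4, nat_lit 8208, nat_lit 2016, nat_lit 2016, nat_lit 9504, nat_lit 8208, R2_42, R8_198, R4_171⟩, ⟨nat_lit 5, nat_lit 8448, nat_lit 9792, nat_lit 2160, nat_lit 1632, nat_lit 12912, R2_45, R9_34, R3_269⟩]⟩, ⟨nat_lit 5, [⟨nat_lit 4, nat_lit 9792, nat_lit 240, nat_lit 13632, nat_lit 9456, nat_lit 8208, R3_284, R8_197, R7_171⟩, ⟨nat_lit 5, nat_lit 10176, nat_lit 7248, nat_lit 13776, nat_lit 1728, nat_lit 7152, R3_287, R9_36, R2_149⟩, ⟨nat_lit 7, nat_lit 10272, nat_lit 5952, nat_lit 13680, nat_lit 768, nat_lit 5520, R3_285, R5_16, R2_115⟩]⟩]⟩], [⟨nat_lit 0, [⟨nat_lit 5, [⟨nat_lit 4, nat_lit 3552, nat_lit 144, nat_lit 3648, nat_lit 3360, nat_lit 2640, R4_76, R6_70, R14_55⟩, ⟨nat_lit 5, nat_lit 3888, nat_lit 1008, nat_lit 3888, nat_lit 3072, nat_lit 1008, R4_81, R8_64, R12_21⟩, ⟨nat_lit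 7, nat_lit 3984, nat_lit 576, nat_lit 3744, nat_lit 3120, nat_lit 2976, R4_78, R4_65, R12_62⟩]⟩]⟩,
 ⟨nat_lit 1, [⟨nat_lit 5, [⟨nat_lit 4, nat_lit 9840, nat_lit 6912, nat_lit 13968, nat_lit 9792, nat_lit 3216, R3_291, R8_204, R14_67⟩, ⟨nat_lit 5, nat_lit 10224, nat_lit 8448, nat_lit 14160, nat_lit 1776, nat_lit 1584, R3_295, R9_37, R12_33⟩, ⟨nat_lit 7, nat_lit 10320, nat_lit 7776, nat_lit 14016, nat_lit 864, nat_lit 4416, R3_292, R5_18, R12_92⟩]⟩]⟩], [], [⟨nat_lit 0, [⟨nat_lit 1, [⟨nat_lit 4, nat_lit 1536, nat_lit 1392, nat_lit 3696, nat_lit 4224, nat_lit 4608, R7_77, R6_88, R5_96⟩, ⟨nat_lit 7, nat_lit 1824, nat_lit 6816, nat_lit 3744, nat_lit 4320, nat_lit 17904, R7_78, R4_90, R11_373⟩]⟩, ⟨nat_lit 5, [⟨nat_lit 7, nat_lit 4032, nat_lit 4512, nat_lit 3792, nat_lit 3072, nat_lit 3936, R4_79, R4_64, R1_82⟩]⟩]⟩,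
 ⟨nat_lit 1, [⟨nat_lit 1, [⟨nat_lit 4, nat_lit 8256, nat_lit 1488, nat_lit 2064, nat_lit 9552, nat_lit 6192, R2_43, R8_199, R5_129⟩, ⟨nat_lit 7, nat_lit 8544, nat_lit 6912, nat_lit 2112, nat_lit 720, nat_lit 17952, R2_44, R5_15, R11_374⟩]⟩, ⟨nat_lit 5, [⟨nat_lit 7, nat_lit 10368, nat_lit 4656, nat_lit 14256, nat_lit 816, nat_lit 4224, R3_297, R5_17, R1_88⟩]⟩]⟩]]], [[[], [], [], [], [], [⟨nat_lit 1, [⟨nat_lit 4, [⟨nat_lit 4, nat_lit 8976, nat_lit 8016, nat_lit 13488, nat_lit 9840, nat_lit 14256, R8_281, R6_205, R4_297⟩]⟩, ⟨nat_lit 7, [⟨nat_lit 4, nat_lit 10560, nat_lit 8304, nat_lit 1968, nat_lit 9888, nat_lit 16848, R5_41, R6_206, R5_351⟩]⟩]⟩]], [], [], [[], [⟨nat_lit 0, [⟨nat_lit 4, [⟨nat_lit 4, nat_lit 3216, nat_lit 0, nat_lit 96, nat_lit 864, nat_lit 13248, R6_2, R6_18, R7_276⟩, ⟨nat_lit 7, nat_lit 3264,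 nat_lit 96, nat_lit 960, nat_lit 432, nat_lit 12192, R6_20, R4_9, R2_254⟩]⟩, ⟨nat_lit 5, [⟨nat_lit 4, nat_lit 4080, nat_lit 624, nat_lit 3408, nat_lit 3072, nat_lit 2592, R8_71, R6_64, R14_54⟩, ⟨nat_lit 5, nat_lit 4128, nat_lit 912, nat_lit 3504, nat_lit 2880, nat_lit 960, R8_73, R8_60, R12_20⟩, ⟨nat_lit 7, nat_lit 4176, nat_lit 768, nat_lit 3456, nat_lit 2736, nat_lit 2928, R8_72, R4_57, R12_61⟩]⟩, ⟨nat_lit 7, [⟨nat_lit 7, nat_lit 4464, nat_lit 432, nat_lit 576, nat_lit 1344, nat_lit 12768, R4_12, R4_28, R1_266⟩]⟩]⟩,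
 ⟨nat_lit 1, [⟨nat_lit 4, [⟨nat_lit 4, nat_lit 9120, nat_lit 7968, nat_lit 13392, nat_lit 9648, nat_lit 16032, R8_279, R8_201, R7_334⟩, ⟨nat_lit 7, nat_lit 9168, nat_lit 8064, nat_lit 13440, nat_lit 528, nat_lit 15024, R8_280, R5_11, R2_313⟩]⟩, ⟨nat_lit 5, [⟨nat_lit 4, nat_lit 10416, nat_lit 9024, nat_lit 2352, nat_lit 9744, nat_lit 3168, R9_49, R8_203, R14_66⟩, ⟨nat_lit 5, nat_lit 10464, nat_lit 9312, nat_lit 2448, nat_lit 1584, nat_lit 1536, R9_51, R9_33, R12_32⟩, ⟨nat_lit 7, nat_lit 10512, nat_lit 9168, nat_lit 2400, nat_lit 672, nat_lit 4320, R9_50, R5_14, R12_90⟩]⟩, ⟨nat_lit 7, [⟨nat_lit 7, nat_lit 10752, nat_lit 8688, nat_lit 2160, nat_lit 576, nat_lit 16032, R5_45, R5_12, R1_334⟩]⟩]⟩,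
 ⟨nat_lit 3, [⟨nat_lit 4, [⟨nat_lit 4, nat_lit 11664, nat_lit 5808, nat_lit 13440, nat_lit 11568, nat_lit 14592, R4_280, R4_241, R7_304⟩]⟩, ⟨nat_lit 5, [⟨nat_lit 4, nat_lit 11712, nat_lit 6144, nat_lit 15984, nat_lit 12000, nat_lit 2784, R5_333, R4_250, R14_58⟩, ⟨nat_lit 5, nat_lit 11760, nat_lit 6336, nat_lit 16032, nat_lit 12720, nat_lit 1152, R5_334, R5_265, R12_24⟩]⟩]⟩], [], [], [], [⟨nat_lit 0, [⟨nat_lit 4, [⟨nat_lit 4, nat_lit 3168, nat_lit 7488, nat_lit 48, nat_lit 912, nat_lit 12096, R6_1, R6_19, R4_252⟩]⟩, ⟨nat_lit 7, [⟨nat_lit 4, nat_lit 4368, nat_lit 7632, nat_lit 48, nat_lit 1392, nat_lit 14496, R4_1, R6_29, R5_302⟩, ⟨nat_lit 7, nat_lit 4416, nat_lit 7728, nat_lit 528, nat_lit 1392, nat_lit 4752, R4_11, R4_29, R11_99⟩]⟩]⟩,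
 ⟨nat_lit 1, [⟨nat_lit 4, [⟨nat_lit 4, nat_lit 9072, nat_lit 7536, nat_lit 13584, nat_lit 9360, nat_lit 14304, R8_283, R8_195, R4_298⟩]⟩, ⟨nat_lit 7, [⟨nat_lit 4, nat_lit 10656, nat_lit 7680, nat_lit 2064, nat_lit 9408, nat_lit 17184, R5_43, R8_196, R5_358⟩, ⟨nat_lit 7, nat_lit 10704, nat_lit 7776, nat_lit 2112, nat_lit 624, nat_lit 4800, R5_44, R5_13, R11_100⟩]⟩]⟩,
 ⟨nat_lit 3, [⟨nat_lit 4, [⟨nat_lit 4, nat_lit 11616, nat_lit 7584, nat_lit 13344, nat_lit 11616, nat_lit 13344, R4_278, R4_242, R4_278⟩]⟩]⟩]]], [[], [], [], [[], [], [], [], [], [], [], [⟨nat_lit 0, [⟨nat_lit 3, [⟨nat_lit 7, nat_lit 2352, nat_lit 1296, nat_lit 7536, nat_lit 3456, nat_lit 2784, R6_157, R4_72, R12_58⟩]⟩]⟩]], [[], [], [], [], [⟨nat_lit 0, [⟨nat_lit 3, [⟨nat_lit 3, nat_lit 1872, nat_lit 11952, nat_lit 8256, nat_lit 14448, nat_lit 0,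 R6_172, R6_301, R3_0⟩]⟩]⟩,
 ⟨nat_lit 2, [⟨nat_lit 0, [⟨nat_lit 0, nat_lit 4512, nat_lit 14400, nat_lit 5328, nat_lit 15840, nat_lit 528, R6_111, R6_330, R6_11⟩, ⟨nat_lit 3, nat_lit 4752, nat_lit 14544, nat_lit 5376, nat_lit 15264, nat_lit 4464, R6_112, R8_318, R13_93⟩]⟩, ⟨nat_lit 2, [⟨nat_lit 0, nat_lit 5616, nat_lit 15888, nat_lit 5616, nat_lit 15888, nat_lit 384, R4_117, R6_331, R8_8⟩, ⟨nat_lit 2, nat_lit 5808, nat_lit 16368, nat_lit 5664, nat_lit 14928, nat_lit 4368, R4_118, R4_311, R5_91⟩, ⟨nat_lit 3, nat_lit 6048, nat_lit 16128, nat_lit 5712, nat_lit 15360, nat_lit 3696, R4_119, R8_320, R9_77⟩]⟩, ⟨nat_lit 3, [⟨nat_lit 3, nat_lit 7392, nat_lit 15312, nat_lit 7488, nat_lit 15312, nat_lit 288, R8_156, R8_319, R3_6⟩]⟩]⟩,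
 ⟨nat_lit 3, [⟨nat_lit 3, [⟨nat_lit 3, nat_lit 10800, nat_lit 12960, nat_lit 8688, nat_lit 14112, nat_lit 144, R4_181, R4_294, R3_3⟩, ⟨nat_lit 7, nat_lit 10992, nat_lit 12768, nat_lit 8736, nat_lit 15648, nat_lit 3120, R4_182, R7_326, R2_65⟩]⟩]⟩,
 ⟨nat_lit 6, [⟨nat_lit 2, [⟨nat_lit 2, nat_lit 12384, nat_lit 11184, nat_lit 8784, nat_lit 16272, nat_lit 4416, R7_183, R7_339, R5_92⟩]⟩]⟩], [⟨nat_lit 0, [⟨nat_lit 3, [⟨nat_lit 3, nat_lit 1920, nat_lit 12240, nat_lit 8304, nat_lit 15120, nat_lit 2736, R6_173, R6_315, R10_57⟩]⟩]⟩,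
 ⟨nat_lit 2, [⟨nat_lit 0, [⟨nat_lit 0, nat_lit 4560, nat_lit 14064, nat_lit 5472, nat_lit 16320, nat_lit 8592, R6_114, R6_340, R4_179⟩, ⟨nat_lit 3, nat_lit 4800, nat_lit 14160, nat_lit 5520, nat_lit 16464, nat_lit 11376, R6_115, R8_343, R3_237⟩]⟩, ⟨nat_lit 2, [⟨nat_lit 0, nat_lit 5664, nat_lit 14928, nat_lit 5808, nat_lit 16368, nat_lit 4368, R4_121, R6_341, R5_91⟩, ⟨nat_lit 2, nat_lit 5856, nat_lit 15120, nat_lit 5856, nat_lit 15120, nat_lit 4368, R4_122, R4_315, R11_91⟩]⟩, ⟨nat_lit 3, [⟨nat_lit 3, nat_lit 7440, nat_lit 14640, nat_lit 7632, nat_lit 16512, nat_lit 2832, R8_159, R8_344, R10_59⟩]⟩]⟩,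
 ⟨nat_lit 3, [⟨nat_lit 3, [⟨nat_lit 3, nat_lit 10848, nat_lit 13104, nat_lit 8880, nat_lit 14544, nat_lit 2784, R4_185, R4_303, R10_58⟩, ⟨nat_lit 7, nat_lit 11040, nat_lit 13056, nat_lit 8928, nat_lit 16368, nat_lit 2592, R4_186, R7_341, R1_54⟩]⟩, ⟨nat_lit 7, [⟨nat_lit 7, nat_lit 11856, nat_lit 12432, nat_lit 8832, nat_lit 16416, nat_lit 4416, R7_184, R7_342, R11_92⟩]⟩]⟩,
 ⟨nat_lit 4, [⟨nat_lit 6, [⟨nat_lit 6, nat_lit 12240, nat_lit 1920, nat_lit 8304, nat_lit 15120, nat_lit 2736, R6_173, R6_315, R10_57⟩]⟩]⟩,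
 ⟨nat_lit 6, [⟨nat_lit 2, [⟨nat_lit 2, nat_lit 12432, nat_lit 11856, nat_lit 8832, nat_lit 16416, nat_lit 4416, R7_184, R7_342, R11_92⟩]⟩, ⟨nat_lit 6, [⟨nat_lit 2, nat_lit 13056, nat_lit 11040, nat_lit 8928, nat_lit 16368, nat_lit 2592, R4_186, R7_341, R1_54⟩, ⟨nat_lit 6, nat_lit 13104, nat_lit 10848, nat_lit 8880, nat_lit 14544, nat_lit 2784, R4_185, R4_303, R10_58⟩]⟩]⟩,
 ⟨nat_lit 7, [⟨nat_lit 4, [⟨nat_lit 4, nat_lit 14064, nat_lit 4560, nat_lit 5472, nat_lit 16320, nat_lit 8592, R6_114, R6_340, R4_179⟩, ⟨nat_lit 6, nat_lit 14160, nat_lit 4800, nat_lit 5520, nat_lit 16464, nat_lit 11376, R6_115, R8_343, R3_237⟩]⟩, ⟨nat_lit 6, [⟨nat_lit 6, nat_lit 14640, nat_lit 7440, nat_lit 7632, nat_lit 16512, nat_lit 2832, R8_159, R8_344, R10_59⟩]⟩, ⟨nat_lit 7, [⟨nat_lit 4, nat_lit 14928, nat_lit 5664, nat_lit 5808, nat_lit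 16368, nat_lit 4368, R4_121, R6_341, R5_91⟩, ⟨nat_lit 7, nat_lit 15120, nat_lit 5856, nat_lit 5856, nat_lit 15120, nat_lit 4368, R4_122, R4_315, R11_91⟩]⟩]⟩], [⟨nat_lit 2, [⟨nat_lit 0, [⟨nat_lit 0, nat_lit 4608, nat_lit 15216, nat_lit 5664, nat_lit 16080, nat_lit 4464, R6_118, R6_335, R8_93⟩, ⟨nat_lit 3, nat_lit 4848, nat_lit 15792, nat_lit 5712, nat_lit 15984, nat_lit 13104, R6_119, R8_333, R9_273⟩]⟩, ⟨nat_lit 2, [⟨nat_lit 0, nat_lit 5712, nat_lit 15360, nat_lit 6048, nat_lit 16128, nat_lit 0, R4_126, R6_336, R9_0⟩]⟩]⟩]], [], [[], [], [], [], [], [], [⟨nat_lit 2, [⟨nat_lit 0, [⟨nat_lit 0, nat_lit 4656, nat_lit 1200, nat_lit 5808, nat_lit 21312, nat_lit 4704, R6_121, R13_444, R8_98⟩, ⟨nat_lit 1, nat_lit 4704, nat_lit 1296, nat_lit 5904, nat_lit 17376, nat_lit 14304, R6_123, R3_362, R5_298⟩, ⟨nat_lit 3, nat_lit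 4896, nat_lit 1248, nat_lit 5856, nat_lit 17712, nat_lit 13200, R6_122, R9_369, R9_275⟩]⟩, ⟨nat_lit 2, [⟨nat_lit 0, nat_lit 5760, nat_lit 3600, nat_lit 6144, nat_lit 21360, nat_lit 4368, R4_128, R13_445, R9_91⟩]⟩]⟩]], [[], [], [], [], [⟨nat_lit 0, [⟨nat_lit 3, [⟨nat_lit 3, nat_lit 2064, nat_lit 2832, nat_lit 8592, nat_lit 240, nat_lit 3744, R6_179, R4_5, R3_78⟩, ⟨nat_lit 7, nat_lit 2208, nat_lit 2880, nat_lit 8640, nat_lit 432, nat_lit 3264, R6_180, R7_9, R2_68⟩]⟩]⟩,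
 ⟨nat_lit 2, [⟨nat_lit 0, [⟨nat_lit 3, nat_lit 4944, nat_lit 2592, nat_lit 5424, nat_lit 3264, nat_lit 4992, R6_113, R5_68, R13_104⟩]⟩, ⟨nat_lit 2, [⟨nat_lit 3, nat_lit 6144, nat_lit 4320, nat_lit 5760, nat_lit 3600, nat_lit 3936, R4_120, R5_75, R9_82⟩]⟩, ⟨nat_lit 3, [⟨nat_lit 3, nat_lit 7584, nat_lit 3552, nat_lit 8064, nat_lit 3840, nat_lit 3888, R8_168, R5_80, R3_81⟩]⟩]⟩,
 ⟨nat_lit 3, [⟨nat_lit 3, [⟨nat_lit 7, nat_lit 11088, nat_lit 3168, nat_lit 9264, nat_lit 19392, nat_lit 3312, R4_193, R14_404, R2_69⟩]⟩]⟩], [⟨nat_lit 0, [⟨nat_lit 3, [⟨nat_lit 3, nat_lit 2112, nat_lit 3024, nat_lit 8880, nat_lit 336, nat_lit 3456, R6_185, R4_7, R10_72⟩, ⟨nat_lit 7, nat_lit 2256, nat_lit 3072, nat_lit 8928, nat_lit 528, nat_lit 2736, R6_186, R7_11, R1_57⟩]⟩]⟩,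
 ⟨nat_lit 2, [⟨nat_lit 0, [⟨nat_lit 3, nat_lit 4992, nat_lit 2928, nat_lit 5568, nat_lit 3408, nat_lit 11424, R6_116, R5_71, R3_238⟩]⟩, ⟨nat_lit 3, [⟨nat_lit 3, nat_lit 7632, nat_lit 3264, nat_lit 8352, nat_lit 3936, nat_lit 3504, R8_174, R5_82, R10_73⟩]⟩]⟩,
 ⟨nat_lit 3, [⟨nat_lit 3, [⟨nat_lit 7, nat_lit 11136, nat_lit 3168, nat_lit 9552, nat_lit 19536, nat_lit 2784, R4_199, R14_407, R1_58⟩]⟩, ⟨nat_lit 7, [⟨nat_lit 4, nat_lit 11808, nat_lit 1440, nat_lit 9840, nat_lit 11568, nat_lit 14784, R7_205, R7_241, R5_308⟩, ⟨nat_lit 7, nat_lit 11904, nat_lit 1488, nat_lit 9888, nat_lit 19488, nat_lit 4464, R7_206, R14_406, R11_93⟩]⟩]⟩,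
 ⟨nat_lit 7, [⟨nat_lit 4, [⟨nat_lit 4, nat_lit 14112, nat_lit 144, nat_lit 6096, nat_lit 10800, nat_lit 8688, R6_127, R4_225, R4_181⟩, ⟨nat_lit 6, nat_lit 14208, nat_lit 192, nat_lit 6144, nat_lit 13104, nat_lit 11472, R6_128, R5_273, R3_239⟩]⟩, ⟨nat_lit 6, [⟨nat_lit 6, nat_lit 14688, nat_lit 2400, nat_lit 7680, nat_lit 13248, nat_lit 2880, R8_160, R5_276, R10_60⟩]⟩, ⟨nat_lit 7, [⟨nat_lit 4, nat_lit 14976, nat_lit 864, nat_lit 6432, nat_lit 11232, nat_lit 5136, R4_134, R4_234, R5_107⟩]⟩]⟩], [⟨nat_lit 2, [⟨nat_lit 0, [⟨nat_lit 3, nat_lit 5040, nat_lit 1920, nat_lit 5760, nat_lit 3312, nat_lit 13152, R6_120, R5_69, R9_274⟩]⟩]⟩], [⟨nat_lit 0, [⟨nat_lit 3, [⟨nat_lit 7, nat_lit 2304, nat_lit 11616, nat_lit 9072, nat_lit 480, nat_lit 2688, R6_189, R7_10, R12_56⟩]⟩]⟩,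
 ⟨nat_lit 2, [⟨nat_lit 0, [⟨nat_lit 3, nat_lit 5088, nat_lit 16080, nat_lit 5616, nat_lit 3360, nat_lit 8544, R6_117, R5_70, R3_178⟩]⟩]⟩,
 ⟨nat_lit 3, [⟨nat_lit 3, [⟨nat_lit 7, nat_lit 11184, nat_lit 13920, nat_lit 9744, nat_lit 19440, nat_lit 2736, R4_203, R14_405, R12_57⟩]⟩]⟩]]], [[], [], [], [], [[], [], [], [], [⟨nat_lit 6, [⟨nat_lit 2, [⟨nat_lit 2, nat_lit 12576, nat_lit 10656, nat_lit 7680, nat_lit 16464, nat_lit 6000, R2_160, R7_343, R5_125⟩]⟩]⟩], [⟨nat_lit 4, [⟨nat_lit 4, [⟨nat_lit 6, nat_lit 12144, nat_lit 1008, nat_lit 13584, nat_lit 15168, nat_lit 16032, R6_283, R6_316, R3_334⟩]⟩, ⟨nat_lit 6, [⟨nat_lit 6, nat_lit 12288, nat_lit 1152, nat_lit 10608, nat_lit 15216, nat_lit 2976, R13_221, R6_317, R10_62⟩]⟩]⟩,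
 ⟨nat_lit 6, [⟨nat_lit 2, [⟨nat_lit 2, nat_lit 12624, nat_lit 12768, nat_lit 7728, nat_lit 16608, nat_lit 5616, R2_161, R7_346, R11_117⟩]⟩, ⟨nat_lit 6, [⟨nat_lit 2, nat_lit 13152, nat_lit 12864, nat_lit 15168, nat_lit 16560, nat_lit 2640, R3_316, R7_345, R1_55⟩, ⟨nat_lit 6, nat_lit 13248, nat_lit 13200, nat_lit 15264, nat_lit 14592, nat_lit 3024, R3_318, R4_304, R10_63⟩]⟩]⟩,
 ⟨nat_lit 7, [⟨nat_lit 4, [⟨nat_lit 4, nat_lit 14256, nat_lit 8016, nat_lit 13488, nat_lit 17088, nat_lit 8976, R8_281, R6_356, R4_187⟩, ⟨nat_lit 6, nat_lit 14400, nat_lit 9264, nat_lit 13776, nat_lit 16608, nat_lit 16368, R8_287, R8_346, R3_341⟩]⟩, ⟨nat_lit 6, [⟨nat_lit 6, nat_lit 14736, nat_lit 9504, nat_lit 8256, nat_lit 16656, nat_lit 3072, R9_172, R8_347, R10_64⟩]⟩, ⟨nat_lit 7, [⟨nat_lit 4, nat_lit 15168, nat_lit 8160, nat_lit 8784,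 nat_lit 17136, nat_lit 4656, R5_183, R6_357, R5_97⟩, ⟨nat_lit 7, nat_lit 15456, nat_lit 8880, nat_lit 8880, nat_lit 15456, nat_lit 4656, R5_185, R4_322, R11_97⟩]⟩]⟩]], [[], [], [], [], [⟨nat_lit 6, [⟨nat_lit 2, [⟨nat_lit 2, nat_lit 12720, nat_lit 7392, nat_lit 7824, nat_lit 14736, nat_lit 6912, R2_163, R2_307, R5_144⟩]⟩]⟩], [⟨nat_lit 4, [⟨nat_lit 4, [⟨nat_lit 4, nat_lit 12096, nat_lit 7488, nat_lit 13536, nat_lit 10752, nat_lit 3168, R6_282, R6_224, R4_66⟩, ⟨nat_lit 6, nat_lit 12192, nat_lit 7824, nat_lit 13632, nat_lit 20256, nat_lit 16128, R6_284, R13_422, R3_336⟩]⟩, ⟨nat_lit 6, [⟨nat_lit 6, nat_lit 12336, nat_lit 9504, nat_lit 10656, nat_lit 20304, nat_lit 3168, R13_222, R13_423, R10_66⟩]⟩]⟩,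
 ⟨nat_lit 5, [⟨nat_lit 4, [⟨nat_lit 4, nat_lit 13344, nat_lit 7584, nat_lit 13344, nat_lit 11616, nat_lit 11616, R4_278, R4_242, R4_242⟩, ⟨nat_lit 6, nat_lit 13392, nat_lit 7920, nat_lit 13392, nat_lit 16752, nat_lit 16752, R4_279, R3_349, R3_349⟩]⟩, ⟨nat_lit 6, [⟨nat_lit 6, nat_lit 13728, nat_lit 9600, nat_lit 8640, nat_lit 16800, nat_lit 3312, R3_180, R3_350, R10_69⟩]⟩]⟩,
 ⟨nat_lit 6, [⟨nat_lit 2, [⟨nat_lit 2, nat_lit 12768, nat_lit 7008, nat_lit 7872, nat_lit 14880, nat_lit 6528, R2_164, R2_310, R11_136⟩]⟩, ⟨nat_lit 6, [⟨nat_lit 2, nat_lit 13200, nat_lit 8976, nat_lit 15216, nat_lit 14832, nat_lit 2688, R3_317, R2_309, R1_56⟩, ⟨nat_lit 6, nat_lit 13296, nat_lit 9648, nat_lit 15312, nat_lit 10464, nat_lit 3216, R3_319, R3_218, R10_67⟩]⟩]⟩,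
 ⟨nat_lit 7, [⟨nat_lit 4, [⟨nat_lit 4, nat_lit 14304, nat_lit 7536, nat_lit 13584, nat_lit 9360, nat_lit 9072, R8_283, R8_195, R4_189⟩, ⟨nat_lit 6, nat_lit 14448, nat_lit 7872, nat_lit 13872, nat_lit 16656, nat_lit 16560, R8_289, R9_347, R3_345⟩]⟩, ⟨nat_lit 6, [⟨nat_lit 6, nat_lit 14784, nat_lit 9552, nat_lit 8304, nat_lit 16704, nat_lit 3264, R9_173, R9_348, R10_68⟩]⟩, ⟨nat_lit 7, [⟨nat_lit 4, nat_lit 15216, nat_lit 8400, nat_lit 8928, nat_lit 9840, nat_lit 6288, R5_186, R8_205, R5_131⟩, ⟨nat_lit 7, nat_lit 15504, nat_lit 8544, nat_lit 9024, nat_lit 17088, nat_lit 4704, R5_188, R5_356, R11_98⟩]⟩]⟩]]], [[[⟨nat_lit 0, [⟨nat_lit 1, [⟨nat_lit 5, nat_lit 1008, nat_lit 6768, nat_lit 672, nat_lit 3120, nat_lit 4320, R4_14, R6_65, R3_90⟩]⟩]⟩]], [], [[⟨nat_lit 0, [⟨nat_lit 1, [⟨nat_lit 5, nat_lit 1104, nat_lit 5472,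 nat_lit 816, nat_lit 2784, nat_lit 4896, R4_17, R4_58, R3_102⟩]⟩]⟩], [], [⟨nat_lit 0, [⟨nat_lit 1, [⟨nat_lit 1, nat_lit 624, nat_lit 720, nat_lit 1296, nat_lit 2736, nat_lit 12720, R4_27, R7_57, R1_265⟩, ⟨nat_lit 5, nat_lit 1152, nat_lit 672, nat_lit 912, nat_lit 2832, nat_lit 14064, R4_19, R4_59, R10_293⟩]⟩]⟩,
 ⟨nat_lit 2, [⟨nat_lit 1, [⟨nat_lit 1, nat_lit 7008, nat_lit 768, nat_lit 4848, nat_lit 3072, nat_lit 12816, R3_101, R2_64, R1_267⟩]⟩]⟩]], [[], [], [], [⟨nat_lit 0, [⟨nat_lit 1, [⟨nat_lit 4, nat_lit 960, nat_lit 1344, nat_lit 480, nat_lit 4320, nat_lit 4752, R4_10, R6_90, R5_99⟩, ⟨nat_lit 7, nat_lit 1392, nat_lit 1440, nat_lit 528, nat_lit 4416, nat_lit 18000, R4_11, R4_92, R11_375⟩]⟩]⟩], [], [], [], [⟨nat_lit 0, [⟨nat_lit 0, [⟨nat_lit 7, nat_lit 432, nat_lit 96, nat_lit 960, nat_lit 3264, nat_lit 12192,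 R6_20, R4_68, R2_254⟩]⟩, ⟨nat_lit 1, [⟨nat_lit 7, nat_lit 1344, nat_lit 432, nat_lit 576, nat_lit 4464, nat_lit 12768, R4_12, R4_93, R1_266⟩]⟩, ⟨nat_lit 3, [⟨nat_lit 7, nat_lit 2736, nat_lit 768, nat_lit 3456, nat_lit 4176, nat_lit 2928, R8_72, R4_87, R12_61⟩]⟩]⟩]], [[], [], [], [], [⟨nat_lit 0, [⟨nat_lit 0, [⟨nat_lit 3, nat_lit 96, nat_lit 5136, nat_lit 1104, nat_lit 15936, nat_lit 6048, R6_23, R6_332, R13_126⟩]⟩, ⟨nat_lit 1, [⟨nat_lit 3, nat_lit 672, nat_lit 6768, nat_lit 1008, nat_lit 16032, nat_lit 4320, R4_21, R6_334, R3_90⟩]⟩, ⟨nat_lit 3, [⟨nat_lit 3, nat_lit 2400, nat_lit 6288, nat_lit 480, nat_lit 15984, nat_lit 720, R8_10, R6_333, R3_15⟩]⟩]⟩,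
 ⟨nat_lit 2, [⟨nat_lit 0, [⟨nat_lit 0, nat_lit 5136, nat_lit 96, nat_lit 6048, nat_lit 15936, nat_lit 1104, R13_126, R6_332, R6_23⟩, ⟨nat_lit 3, nat_lit 5328, nat_lit 5328, nat_lit 6096, nat_lit 17712, nat_lit 6096, R13_127, R8_369, R13_127⟩]⟩, ⟨nat_lit 1, [⟨nat_lit 0, nat_lit 6768, nat_lit 672, nat_lit 4320, nat_lit 16032, nat_lit 1008, R3_90, R6_334, R4_21⟩, ⟨nat_lit 3, nat_lit 7056, nat_lit 7056, nat_lit 4368, nat_lit 17856, nat_lit 4368, R3_91, R8_372, R3_91⟩]⟩, ⟨nat_lit 2, [⟨nat_lit 0, nat_lit 6288, nat_lit 2400, nat_lit 720, nat_lit 15984, nat_lit 480, R3_15, R6_333, R8_10⟩, ⟨nat_lit 2, nat_lit 6432, nat_lit 11232, nat_lit 864, nat_lit 14976, nat_lit 5136, R3_18, R4_312, R5_107⟩, ⟨nat_lit 3, nat_lit 6624, nat_lit 7728, nat_lit 1008, nat_lit 17808, nat_lit 4608, R3_21, R8_371, R9_96⟩]⟩, ⟨nat_lit 3, [⟨nat_lit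 3, nat_lit 7728, nat_lit 6624, nat_lit 4608, nat_lit 17760, nat_lit 1008, R9_96, R8_370, R3_21⟩]⟩]⟩,
 ⟨nat_lit 3, [⟨nat_lit 3, [⟨nat_lit 3, nat_lit 11232, nat_lit 6432, nat_lit 5136, nat_lit 14976, nat_lit 864, R5_107, R4_312, R3_18⟩, ⟨nat_lit 7, nat_lit 11376, nat_lit 12912, nat_lit 5184, nat_lit 17376, nat_lit 3984, R5_108, R7_362, R2_83⟩]⟩]⟩,
 ⟨nat_lit 6, [⟨nat_lit 2, [⟨nat_lit 2, nat_lit 12912, nat_lit 11376, nat_lit 3984, nat_lit 16656, nat_lit 5184, R2_83, R7_347, R5_108⟩]⟩]⟩], [], [⟨nat_lit 0, [⟨nat_lit 0, [⟨nat_lit 3, nat_lit 144, nat_lit 8496, nat_lit 1152, nat_lit 16608, nat_lit 13488, R6_24, R6_346, R9_281⟩]⟩]⟩,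
 ⟨nat_lit 2, [⟨nat_lit 0, [⟨nat_lit 0, nat_lit 5184, nat_lit 1488, nat_lit 6240, nat_lit 16176, nat_lit 4512, R13_130, R6_337, R8_94⟩, ⟨nat_lit 3, nat_lit 5376, nat_lit 9936, nat_lit 6288, nat_lit 18576, nat_lit 13728, R13_131, R8_387, R9_286⟩]⟩, ⟨nat_lit 1, [⟨nat_lit 0, nat_lit 6816, nat_lit 1584, nat_lit 4512, nat_lit 16272, nat_lit 0, R3_94, R6_339, R5_0⟩]⟩, ⟨nat_lit 2, [⟨nat_lit 0, nat_lit 6336, nat_lit 1680, nat_lit 768, nat_lit 16224, nat_lit 96, R3_16, R6_338, R9_2⟩]⟩]⟩]], [], [[], [], [⟨nat_lit 0, [⟨nat_lit 1, [⟨nat_lit 1, nat_lit 576, nat_lit 432, nat_lit 1344, nat_lit 4464, nat_lit 12768, R4_28, R4_93, R1_266⟩]⟩]⟩,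
 ⟨nat_lit 2, [⟨nat_lit 1, [⟨nat_lit 1, nat_lit 6960, nat_lit 480, nat_lit 4800, nat_lit 17328, nat_lit 12864, R3_100, R3_361, R1_268⟩]⟩]⟩], [], [], [], [⟨nat_lit 0, [⟨nat_lit 0, [⟨nat_lit 0, nat_lit 0, nat_lit 144, nat_lit 1056, nat_lit 4272, nat_lit 0, R6_22, R6_89, R8_0⟩, ⟨nat_lit 1, nat_lit 48, nat_lit 240, nat_lit 1392, nat_lit 4368, nat_lit 14496, R6_29, R4_91, R5_302⟩, ⟨nat_lit 3, nat_lit 192, nat_lit 192, nat_lit 1344, nat_lit 1584, nat_lit 13584, R6_28, R8_33, R9_283⟩]⟩, ⟨nat_lit 1, [⟨nat_lit 0, nat_lit 480, nat_lit 1344, nat_lit 960, nat_lit 4320, nat_lit 4752, R4_20, R6_90, R5_99⟩, ⟨nat_lit 1, nat_lit 528, nat_lit 1440, nat_lit 1392, nat_lit 4416, nat_lit 18000, R4_29, R4_92, R11_375⟩]⟩]⟩,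
 ⟨nat_lit 2, [⟨nat_lit 0, [⟨nat_lit 0, nat_lit 5232, nat_lit 768, nat_lit 6384, nat_lit 21408, nat_lit 4752, R13_133, R13_446, R8_99⟩, ⟨nat_lit 1, nat_lit 5280, nat_lit 864, nat_lit 6480, nat_lit 17472, nat_lit 14688, R13_135, R3_364, R5_306⟩, ⟨nat_lit 3, nat_lit 5424, nat_lit 816, nat_lit 6432, nat_lit 17808, nat_lit 13824, R13_134, R9_371, R9_288⟩]⟩, ⟨nat_lit 1, [⟨nat_lit 0, nat_lit 6864, nat_lit 1488, nat_lit 4656, nat_lit 21504, nat_lit 5040, R3_97, R13_448, R5_105⟩, ⟨nat_lit 1, nat_lit 6912, nat_lit 1584, nat_lit 4752, nat_lit 17568, nat_lit 18192, R3_99, R3_366, R11_379⟩]⟩, ⟨nat_lit 2, [⟨nat_lit 0, nat_lit 6384, nat_lit 3600, nat_lit 816, nat_lit 21456, nat_lit 4464, R3_17, R13_447, R9_93⟩]⟩]⟩]], [[], [], [], [], [⟨nat_lit 0, [⟨nat_lit 0, [⟨nat_lit 3, nat_lit 240, nat_lit 3744, nat_lit 1200, nat_lit 2064,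 nat_lit 6528, R6_25, R4_43, R13_136⟩]⟩, ⟨nat_lit 1, [⟨nat_lit 3, nat_lit 816, nat_lit 5472, nat_lit 1104, nat_lit 2784, nat_lit 4896, R4_23, R4_58, R3_102⟩]⟩, ⟨nat_lit 3, [⟨nat_lit 3, nat_lit 2544, nat_lit 6048, nat_lit 864, nat_lit 2544, nat_lit 6048, R8_18, R4_53, R3_126⟩, ⟨nat_lit 7, nat_lit 2640, nat_lit 6384, nat_lit 1248, nat_lit 2496, nat_lit 4128, R8_26, R7_52, R2_86⟩]⟩]⟩,
 ⟨nat_lit 2, [⟨nat_lit 0, [⟨nat_lit 3, nat_lit 5472, nat_lit 3792, nat_lit 6144, nat_lit 3456, nat_lit 6576, R13_128, R5_72, R13_137⟩]⟩, ⟨nat_lit 1, [⟨nat_lit 3, nat_lit 7200, nat_lit 5520, nat_lit 4416, nat_lit 4224, nat_lit 4944, R3_92, R5_88, R3_103⟩]⟩, ⟨nat_lit 2, [⟨nat_lit 3, nat_lit 6672, nat_lit 7152, nat_lit 1056, nat_lit 3744, nat_lit 4848, R3_22, R5_78, R9_101⟩]⟩, ⟨nat_lit 3, [⟨nat_lit 3, nat_lit 7872, nat_lit 6096, nat_lit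 4656, nat_lit 4128, nat_lit 6192, R9_97, R5_86, R3_129⟩]⟩]⟩,
 ⟨nat_lit 3, [⟨nat_lit 3, [⟨nat_lit 7, nat_lit 11424, nat_lit 6432, nat_lit 5232, nat_lit 19632, nat_lit 4176, R5_109, R14_409, R2_87⟩]⟩]⟩], [], [], [⟨nat_lit 0, [⟨nat_lit 0, [⟨nat_lit 3, nat_lit 336, nat_lit 144, nat_lit 1248, nat_lit 2112, nat_lit 3024, R6_26, R4_44, R3_63⟩, ⟨nat_lit 7, nat_lit 384, nat_lit 192, nat_lit 1008, nat_lit 2160, nat_lit 12144, R6_21, R7_45, R2_253⟩]⟩, ⟨nat_lit 1, [⟨nat_lit 3, nat_lit 912, nat_lit 672, nat_lit 1152, nat_lit 2832, nat_lit 14064, R4_24, R4_59, R10_293⟩, ⟨nat_lit 7, nat_lit 1296, nat_lit 720, nat_lit 624, nat_lit 2736, nat_lit 12720, R4_13, R7_57, R1_265⟩]⟩, ⟨nat_lit 3, [⟨nat_lit 7, nat_lit 2688, nat_lit 1056, nat_lit 1296, nat_lit 2544, nat_lit 2832, R8_27, R7_53, R12_59⟩]⟩]⟩,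
 ⟨nat_lit 2, [⟨nat_lit 0, [⟨nat_lit 3, nat_lit 5568, nat_lit 480, nat_lit 6192, nat_lit 3552, nat_lit 8832, R13_129, R5_74, R3_184⟩]⟩, ⟨nat_lit 1, [⟨nat_lit 3, nat_lit 7296, nat_lit 816, nat_lit 4464, nat_lit 4320, nat_lit 14256, R3_93, R5_90, R10_297⟩]⟩]⟩,
 ⟨nat_lit 3, [⟨nat_lit 3, [⟨nat_lit 7, nat_lit 11472, nat_lit 1488, nat_lit 5280, nat_lit 19680, nat_lit 2880, R5_110, R14_410, R12_60⟩]⟩]⟩]]], [[], [], [], [[], [], [], [], [⟨nat_lit 0, [⟨nat_lit 3, [⟨nat_lit 7, nat_lit 3024, nat_lit 5808, nat_lit 3696, nat_lit 3936, nat_lit 5232, R4_77, R4_82, R2_109⟩]⟩]⟩], [⟨nat_lit 0, [⟨nat_lit 3, [⟨nat_lit 7, nat_lit 3072, nat_lit 4512, nat_lit 3792, nat_lit 4032, nat_lit 3936, R4_79, R4_84, R1_82⟩]⟩, ⟨nat_lit 7, [⟨nat_lit 4, nat_lit 4224, nat_lit 6096, nat_lit 3216, nat_lit 2016, nat_lit 14400, R7_67, R6_42, R5_300⟩,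 ⟨nat_lit 7, nat_lit 4320, nat_lit 6816, nat_lit 3744, nat_lit 1824, nat_lit 4608, R7_78, R4_38, R11_96⟩]⟩]⟩,
 ⟨nat_lit 3, [⟨nat_lit 4, [⟨nat_lit 4, nat_lit 11568, nat_lit 5808, nat_lit 14304, nat_lit 11664, nat_lit 13440, R7_298, R4_243, R4_280⟩]⟩, ⟨nat_lit 7, [⟨nat_lit 4, nat_lit 12000, nat_lit 6144, nat_lit 8448, nat_lit 11712, nat_lit 15984, R14_176, R4_244, R5_333⟩]⟩]⟩], [], [⟨nat_lit 0, [⟨nat_lit 3, [⟨nat_lit 7, nat_lit 3120, nat_lit 576, nat_lit 3744, nat_lit 3984, nat_lit 2976, R4_78, R4_83, R12_62⟩]⟩]⟩]], [], [], [], [[], [], [], [], [⟨nat_lit 0, [⟨nat_lit 3, [⟨nat_lit 3, nat_lit 2784, nat_lit 4896, nat_lit 1104, nat_lit 816, nat_lit 5472, R4_23, R4_17, R3_114⟩, ⟨nat_lit 7, nat_lit 2928, nat_lit 13104, nat_lit 1632, nat_lit 912, nat_lit 4752, R4_34, R7_19, R2_99⟩]⟩]⟩,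
 ⟨nat_lit 2, [⟨nat_lit 3, [⟨nat_lit 3, nat_lit 7968, nat_lit 5184, nat_lit 96, nat_lit 3984, nat_lit 5616, R5_2, R5_83, R3_117⟩]⟩]⟩], [⟨nat_lit 0, [⟨nat_lit 3, [⟨nat_lit 3, nat_lit 2832, nat_lit 4608, nat_lit 1152, nat_lit 912, nat_lit 4032, R4_24, R4_19, R10_84⟩, ⟨nat_lit 7, nat_lit 2976, nat_lit 5232, nat_lit 1680, nat_lit 960, nat_lit 3456, R4_35, R7_20, R1_72⟩]⟩, ⟨nat_lit 7, [⟨nat_lit 7, nat_lit 4272, nat_lit 7584, nat_lit 1776, nat_lit 1536, nat_lit 4512, R7_37, R7_32, R11_94⟩]⟩]⟩,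
 ⟨nat_lit 2, [⟨nat_lit 3, [⟨nat_lit 3, nat_lit 8016, nat_lit 4656, nat_lit 144, nat_lit 4080, nat_lit 4080, R5_3, R5_85, R10_85⟩]⟩]⟩,
 ⟨nat_lit 3, [⟨nat_lit 4, [⟨nat_lit 4, nat_lit 11520, nat_lit 7008, nat_lit 14256, nat_lit 11424, nat_lit 13488, R7_297, R7_238, R4_281⟩]⟩, ⟨nat_lit 7, [⟨nat_lit 4, nat_lit 11952, nat_lit 7344, nat_lit 8496, nat_lit 11616, nat_lit 14976, R14_177, R7_242, R5_312⟩, ⟨nat_lit 7, nat_lit 12048, nat_lit 7632, nat_lit 8544, nat_lit 19584, nat_lit 4560, R14_178, R14_408, R11_95⟩]⟩]⟩,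
 ⟨nat_lit 7, [⟨nat_lit 4, [⟨nat_lit 4, nat_lit 14544, nat_lit 6960, nat_lit 13104, nat_lit 10848, nat_lit 8880, R4_273, R4_226, R4_185⟩, ⟨nat_lit 6, nat_lit 14592, nat_lit 7152, nat_lit 13248, nat_lit 13200, nat_lit 15264, R4_276, R5_275, R3_318⟩]⟩, ⟨nat_lit 6, [⟨nat_lit 6, nat_lit 14880, nat_lit 8544, nat_lit 16224, nat_lit 13344, nat_lit 2928, R5_338, R5_278, R10_61⟩]⟩]⟩]]]]
noncomputable def N6475 : T3 (List N0) := [[[[], [⟨nat_lit 0, [⟨nat_lit 5, [⟨nat_lit 4, nat_lit 11568, nat_lit 240, nat_lit 9024, nat_lit 2400, nat_lit 8256, R6_188, R6_50, R14_172⟩, ⟨nat_lit 5, nat_lit 11664, nat_lit 336, nat_lit 9120, nat_lit 3840, nat_lit 6864, R6_190, R8_80, R12_143⟩, ⟨nat_lit 6, nat_lit 11616, nat_lit 480, nat_lit 9072, nat_lit 2304, nat_lit 2688, R6_189, R4_48, R12_56⟩]⟩]⟩,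
 ⟨nat_lit 1, [⟨nat_lit 4, [⟨nat_lit 4, nat_lit 11040, nat_lit 4752, nat_lit 13008, nat_lit 11280, nat_lit 15696, R6_271, R8_235, R7_327⟩, ⟨nat_lit 6, nat_lit 11088, nat_lit 4800, nat_lit 13152, nat_lit 2544, nat_lit 14400, R6_274, R5_53, R2_300⟩]⟩, ⟨nat_lit 5, [⟨nat_lit 4, nat_lit 11904, nat_lit 5184, nat_lit 11808, nat_lit 11424, nat_lit 8880, R13_246, R8_238, R14_185⟩, ⟨nat_lit 5, nat_lit 12000, nat_lit 5280, nat_lit 11904, nat_lit 2928, nat_lit 7488, R13_248, R9_61, R12_156⟩, ⟨nat_lit 6, nat_lit 11952, nat_lit 5424, nat_lit 11856, nat_lit 2688, nat_lit 4032, R13_247, R5_56, R12_84⟩]⟩]⟩], [], [], [], [⟨nat_lit 1, [⟨nat_lit 4, [⟨nat_lit 4, nat_lit 11376, nat_lit 4800, nat_lit 13344, nat_lit 18144, nat_lit 14160, R6_278, R8_378, R4_295⟩, ⟨nat_lit 6, nat_lit 11424, nat_lit 4992, nat_lit 13440, nat_lit 3408, nat_lit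 2928, R6_280, R5_71, R3_61⟩]⟩]⟩]], [[], [⟨nat_lit 1, [⟨nat_lit 4, [⟨nat_lit 4, nat_lit 11136, nat_lit 3168, nat_lit 13056, nat_lit 12816, nat_lit 15888, R6_272, R5_267, R7_331⟩, ⟨nat_lit 6, nat_lit 11184, nat_lit 3216, nat_lit 13200, nat_lit 2544, nat_lit 14592, R6_275, R11_53, R2_304⟩]⟩, ⟨nat_lit 5, [⟨nat_lit 4, nat_lit 12048, nat_lit 3600, nat_lit 11952, nat_lit 13824, nat_lit 11136, R13_249, R5_288, R14_232⟩, ⟨nat_lit 6, nat_lit 12096, nat_lit 3840, nat_lit 12000, nat_lit 2688, nat_lit 5376, R13_250, R11_56, R12_112⟩]⟩]⟩], [], [], [], [⟨nat_lit 1, [⟨nat_lit 4, [⟨nat_lit 4, nat_lit 11472, nat_lit 192, nat_lit 13392, nat_lit 13104, nat_lit 14208, R6_279, R5_273, R4_296⟩, ⟨nat_lit 6, nat_lit 11520, nat_lit 240, nat_lit 13488, nat_lit 3408, nat_lit 2976, R6_281, R11_71, R3_62⟩]⟩]⟩]], [], [[], [⟨nat_lit 0, [⟨nat_lit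 5, [⟨nat_lit 4, nat_lit 11712, nat_lit 1248, nat_lit 9168, nat_lit 1824, nat_lit 9456, R6_191, R13_38, R14_197⟩, ⟨nat_lit 5, nat_lit 11808, nat_lit 1632, nat_lit 9312, nat_lit 1056, nat_lit 8352, R6_194, R9_22, R12_174⟩, ⟨nat_lit 6, nat_lit 11760, nat_lit 1824, nat_lit 9216, nat_lit 2208, nat_lit 3024, R6_192, R3_46, R12_63⟩, ⟨nat_lit 7, nat_lit 11856, nat_lit 1344, nat_lit 9264, nat_lit 2160, nat_lit 3168, R6_193, R3_45, R12_66⟩]⟩]⟩,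
 ⟨nat_lit 1, [⟨nat_lit 4, [⟨nat_lit 4, nat_lit 11232, nat_lit 7488, nat_lit 13104, nat_lit 10944, nat_lit 15792, R6_273, R9_228, R7_329⟩]⟩, ⟨nat_lit 5, [⟨nat_lit 4, nat_lit 12192, nat_lit 8304, nat_lit 12096, nat_lit 12480, nat_lit 10608, R13_252, R9_260, R14_221⟩]⟩]⟩]]], [[], [[], [⟨nat_lit 1, [⟨nat_lit 4, [⟨nat_lit 4, nat_lit 15168, nat_lit 2640, nat_lit 13152, nat_lit 12864, nat_lit 16560, R4_274, R5_268, R7_345⟩, ⟨nat_lit 6, nat_lit 15216, nat_lit 2688, nat_lit 13200, nat_lit 8976, nat_lit 14832, R4_275, R11_187, R2_309⟩]⟩, ⟨nat_lit 5, [⟨nat_lit 4, nat_lit 15504, nat_lit 3072, nat_lit 9168, nat_lit 13872, nat_lit 11232, R3_191, R5_289, R14_234⟩, ⟨nat_lit 6, nat_lit 15552, nat_lit 3312, nat_lit 9216, nat_lit 9120, nat_lit 5472, R3_192, R11_190, R12_114⟩]⟩]⟩,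
 ⟨nat_lit 5, [⟨nat_lit 4, [⟨nat_lit 6, nat_lit 15360, nat_lit 13152, nat_lit 14448, nat_lit 11136, nat_lit 10608, R7_301, R1_232, R2_221⟩]⟩, ⟨nat_lit 5, [⟨nat_lit 6, nat_lit 15648, nat_lit 13632, nat_lit 13872, nat_lit 11328, nat_lit 6336, R2_289, R1_236, R12_132⟩]⟩, ⟨nat_lit 6, [⟨nat_lit 6, nat_lit 15696, nat_lit 13776, nat_lit 14256, nat_lit 11232, nat_lit 10992, R2_297, R1_234, R1_229⟩]⟩]⟩], [], [], [], [⟨nat_lit 1, [⟨nat_lit 4, [⟨nat_lit 4, nat_lit 15264, nat_lit 3024, nat_lit 13248, nat_lit 13200, nat_lit 14592, R4_276, R5_275, R4_304⟩, ⟨nat_lit 6, nat_lit 15312, nat_lit 3216, nat_lit 13296, nat_lit 9648, nat_lit 10464, R4_277, R11_201, R3_218⟩]⟩]⟩,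
 ⟨nat_lit 5, [⟨nat_lit 4, [⟨nat_lit 6, nat_lit 15408, nat_lit 14784, nat_lit 14496, nat_lit 11184, nat_lit 10416, R7_302, R1_233, R3_217⟩]⟩, ⟨nat_lit 6, [⟨nat_lit 6, nat_lit 15744, nat_lit 15552, nat_lit 14208, nat_lit 11280, nat_lit 3984, R2_296, R1_235, R10_83⟩]⟩]⟩]], [], [], [], [[], [], [], [], [], [⟨nat_lit 5, [⟨nat_lit 4, [⟨nat_lit 6, nat_lit 15456, nat_lit 5952, nat_lit 14544, nat_lit 14880, nat_lit 10320, R7_303, R10_310, R3_215⟩]⟩, ⟨nat_lit 6, [⟨nat_lit 2, nat_lit 15840, nat_lit 6000, nat_lit 14112, nat_lit 13680, nat_lit 3408, R2_294, R1_285, R1_71⟩, ⟨nat_lit 6, nat_lit 15792, nat_lit 6048, nat_lit 14160, nat_lit 15312, nat_lit 3936, R2_295, R10_319, R10_82⟩]⟩]⟩]]], [[[⟨nat_lit 0, [⟨nat_lit 1, [⟨nat_lit 4, nat_lit 12336, nat_lit 768, nat_lit 10608, nat_lit 11040, nat_lit 1584, R7_221, R6_230, R4_33⟩,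 ⟨nat_lit 5, nat_lit 12384, nat_lit 6768, nat_lit 10656, nat_lit 11136, nat_lit 12384, R7_222, R8_232, R3_258⟩]⟩, ⟨nat_lit 5, [⟨nat_lit 4, nat_lit 13584, nat_lit 1296, nat_lit 9648, nat_lit 9936, nat_lit 1680, R4_201, R6_207, R7_35⟩, ⟨nat_lit 5, nat_lit 13632, nat_lit 7296, nat_lit 9792, nat_lit 11184, nat_lit 240, R4_204, R8_233, R2_5⟩]⟩]⟩,
 ⟨nat_lit 1, [⟨nat_lit 1, [⟨nat_lit 4, nat_lit 12768, nat_lit 816, nat_lit 9696, nat_lit 4176, nat_lit 1728, R2_202, R8_87, R4_36⟩, ⟨nat_lit 5, nat_lit 12816, nat_lit 6816, nat_lit 9744, nat_lit 11856, nat_lit 12528, R2_203, R9_247, R3_261⟩]⟩, ⟨nat_lit 5, [⟨nat_lit 4, nat_lit 14352, nat_lit 1392, nat_lit 14352, nat_lit 4032, nat_lit 1824, R3_299, R8_84, R7_38⟩, ⟨nat_lit 5, nat_lit 14400, nat_lit 7392, nat_lit 14496, nat_lit 11904, nat_lit 384, R3_302, R9_248, R2_8⟩]⟩]⟩,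
 ⟨nat_lit 2, [⟨nat_lit 1, [⟨nat_lit 4, nat_lit 13104, nat_lit 912, nat_lit 4752, nat_lit 2928, nat_lit 1632, R2_99, R4_61, R4_34⟩, ⟨nat_lit 5, nat_lit 13152, nat_lit 6912, nat_lit 4944, nat_lit 3168, nat_lit 12432, R2_103, R5_66, R3_259⟩]⟩]⟩], [⟨nat_lit 0, [⟨nat_lit 5, [⟨nat_lit 4, nat_lit 13872, nat_lit 18528, nat_lit 9696, nat_lit 10128, nat_lit 8304, R4_202, R6_211, R14_173⟩, ⟨nat_lit 5, nat_lit 13968, nat_lit 19008, nat_lit 9840, nat_lit 11808, nat_lit 6912, R4_205, R8_246, R12_144⟩, ⟨nat_lit 6, nat_lit 13920, nat_lit 19440, nat_lit 9744, nat_lit 11184, nat_lit 2736, R4_203, R4_233, R12_57⟩]⟩]⟩,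
 ⟨nat_lit 1, [⟨nat_lit 5, [⟨nat_lit 4, nat_lit 14592, nat_lit 19824, nat_lit 14592, nat_lit 12000, nat_lit 8928, R3_304, R8_250, R14_186⟩, ⟨nat_lit 5, nat_lit 14688, nat_lit 20496, nat_lit 14928, nat_lit 12576, nat_lit 7536, R3_311, R9_262, R12_157⟩, ⟨nat_lit 6, nat_lit 14640, nat_lit 21120, nat_lit 14736, nat_lit 13920, nat_lit 4080, R3_307, R5_290, R12_85⟩]⟩]⟩]], [[], [⟨nat_lit 1, [⟨nat_lit 5, [⟨nat_lit 4, nat_lit 14736, nat_lit 15600, nat_lit 14640, nat_lit 13920, nat_lit 11184, R3_305, R5_290, R14_233⟩, ⟨nat_lit 6, nat_lit 14784, nat_lit 16896, nat_lit 14784, nat_lit 16992, nat_lit 5424, R3_308, R11_354, R12_113⟩]⟩]⟩]], [[⟨nat_lit 0, [⟨nat_lit 1, [⟨nat_lit 5, nat_lit 12432, nat_lit 4944, nat_lit 10944, nat_lit 3168, nat_lit 13152, R7_228, R5_66, R3_274⟩]⟩, ⟨nat_lit 5, [⟨nat_lit 5, nat_lit 13680, nat_lit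 5520, nat_lit 10272, nat_lit 768, nat_lit 5952, R4_214, R5_16, R2_124⟩]⟩]⟩,
 ⟨nat_lit 2, [⟨nat_lit 1, [⟨nat_lit 5, nat_lit 13200, nat_lit 5088, nat_lit 5088, nat_lit 3168, nat_lit 13200, R2_106, R11_66, R3_275⟩]⟩]⟩], [⟨nat_lit 0, [⟨nat_lit 5, [⟨nat_lit 5, nat_lit 14016, nat_lit 15888, nat_lit 10320, nat_lit 864, nat_lit 7776, R4_215, R5_18, R12_162⟩]⟩]⟩], [⟨nat_lit 0, [⟨nat_lit 1, [⟨nat_lit 5, nat_lit 12576, nat_lit 3648, nat_lit 10992, nat_lit 3216, nat_lit 14112, R7_229, R5_67, R10_294⟩]⟩, ⟨nat_lit 5, [⟨nat_lit 5, nat_lit 14256, nat_lit 4224, nat_lit 10368, nat_lit 816, nat_lit 4656, R4_216, R5_17, R1_97⟩]⟩]⟩,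
 ⟨nat_lit 2, [⟨nat_lit 1, [⟨nat_lit 1, nat_lit 13392, nat_lit 15456, nat_lit 5184, nat_lit 2496, nat_lit 12912, R2_108, R1_52, R1_269⟩, ⟨nat_lit 5, nat_lit 13344, nat_lit 3792, nat_lit 5136, nat_lit 3216, nat_lit 14160, R2_107, R11_67, R10_295⟩]⟩]⟩]], [[⟨nat_lit 0, [⟨nat_lit 1, [⟨nat_lit 4, nat_lit 12480, nat_lit 1968, nat_lit 10704, nat_lit 4128, nat_lit 8304, R7_223, R13_86, R4_173⟩, ⟨nat_lit 5, nat_lit 12528, nat_lit 9744, nat_lit 10848, nat_lit 3360, nat_lit 12816, R7_226, R9_70, R3_267⟩]⟩, ⟨nat_lit 5, [⟨nat_lit 4, nat_lit 13728, nat_lit 144, nat_lit 9888, nat_lit 2400, nat_lit 8304, R4_206, R13_50, R7_173⟩, ⟨nat_lit 5, nat_lit 13776, nat_lit 7152, nat_lit 10176, nat_lit 1728, nat_lit 7248, R4_212, R9_36, R2_151⟩, ⟨nat_lit 7, nat_lit 13824, nat_lit 5856, nat_lit 10032, nat_lit 9648, nat_lit 5280, R4_209,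 R3_201, R2_110⟩]⟩]⟩,
 ⟨nat_lit 1, [⟨nat_lit 1, [⟨nat_lit 4, nat_lit 12912, nat_lit 2160, nat_lit 9792, nat_lit 10224, nat_lit 8448, R2_204, R9_213, R4_176⟩]⟩, ⟨nat_lit 5, [⟨nat_lit 4, nat_lit 14496, nat_lit 384, nat_lit 14400, nat_lit 11904, nat_lit 8448, R3_300, R9_248, R7_176⟩]⟩]⟩,
 ⟨nat_lit 2, [⟨nat_lit 1, [⟨nat_lit 4, nat_lit 13248, nat_lit 2304, nat_lit 4800, nat_lit 9696, nat_lit 8352, R2_100, R3_202, R4_174⟩]⟩]⟩], [⟨nat_lit 0, [⟨nat_lit 5, [⟨nat_lit 4, nat_lit 14064, nat_lit 432, nat_lit 9936, nat_lit 2448, nat_lit 9552, R4_207, R13_51, R14_199⟩, ⟨nat_lit 5, nat_lit 14160, nat_lit 1584, nat_lit 10224, nat_lit 1776, nat_lit 8448, R4_213, R9_37, R12_176⟩, ⟨nat_lit 6, nat_lit 14112, nat_lit 2496, nat_lit 9984, nat_lit 2880, nat_lit 3120, R4_208, R3_60, R12_65⟩, ⟨nat_lit 7, nat_lit 14208, nat_lit 624, nat_lit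 10080, nat_lit 9840, nat_lit 3504, R4_210, R3_205, R12_73⟩]⟩]⟩,
 ⟨nat_lit 1, [⟨nat_lit 5, [⟨nat_lit 4, nat_lit 14928, nat_lit 7536, nat_lit 14688, nat_lit 12576, nat_lit 10704, R3_306, R9_262, R14_223⟩]⟩]⟩], [], [⟨nat_lit 0, [⟨nat_lit 1, [⟨nat_lit 4, nat_lit 12624, nat_lit 1440, nat_lit 10752, nat_lit 4176, nat_lit 4992, R7_224, R13_87, R5_104⟩, ⟨nat_lit 7, nat_lit 12720, nat_lit 6864, nat_lit 10800, nat_lit 10704, nat_lit 18048, R7_225, R3_223, R11_376⟩]⟩, ⟨nat_lit 5, [⟨nat_lit 7, nat_lit 14304, nat_lit 4560, nat_lit 10128, nat_lit 9744, nat_lit 3984, R4_211, R3_203, R1_83⟩]⟩]⟩,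
 ⟨nat_lit 1, [⟨nat_lit 1, [⟨nat_lit 4, nat_lit 13008, nat_lit 1632, nat_lit 9840, nat_lit 10512, nat_lit 6720, R2_205, R9_219, R5_140⟩]⟩]⟩,
 ⟨nat_lit 2, [⟨nat_lit 1, [⟨nat_lit 4, nat_lit 13440, nat_lit 1776, nat_lit 4848, nat_lit 9936, nat_lit 5664, R2_101, R3_207, R5_118⟩, ⟨nat_lit 7, nat_lit 13536, nat_lit 7200, nat_lit 4896, nat_lit 2400, nat_lit 18096, R2_102, R10_50, R11_377⟩]⟩]⟩]]], [[[], [], [], [], [], [⟨nat_lit 0, [⟨nat_lit 4, [⟨nat_lit 4, nat_lit 16032, nat_lit 1008, nat_lit 4464, nat_lit 4752, nat_lit 12144, R6_93, R6_99, R4_253⟩, ⟨nat_lit 6, nat_lit 16080, nat_lit 3360, nat_lit 5616, nat_lit 5088, nat_lit 8544, R6_117, R4_106, R3_178⟩]⟩, ⟨nat_lit 7, [⟨nat_lit 4, nat_lit 17376, nat_lit 1296, nat_lit 4704, nat_lit 5904, nat_lit 14304, R4_98, R6_123, R5_298⟩]⟩]⟩,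
 ⟨nat_lit 1, [⟨nat_lit 4, [⟨nat_lit 4, nat_lit 16368, nat_lit 9264, nat_lit 13776, nat_lit 19008, nat_lit 14400, R8_287, R8_396, R4_300⟩, ⟨nat_lit 6, nat_lit 16416, nat_lit 11424, nat_lit 13920, nat_lit 11472, nat_lit 8688, R8_290, R5_239, R3_181⟩]⟩, ⟨nat_lit 7, [⟨nat_lit 4, nat_lit 17664, nat_lit 9648, nat_lit 10656, nat_lit 19152, nat_lit 16944, R5_222, R8_399, R5_353⟩]⟩]⟩]], [], [], [[], [⟨nat_lit 0, [⟨nat_lit 4, [⟨nat_lit 4, nat_lit 15888, nat_lit 48, nat_lit 4944, nat_lit 432, nat_lit 13344, R6_103, R13_9, R7_278⟩, ⟨nat_lit 6, nat_lit 15936, nat_lit 192, nat_lit 6288, nat_lit 624, nat_lit 11904, R6_131, R3_13, R2_248⟩, ⟨nat_lit 7, nat_lit 15984, nat_lit 144, nat_lit 6672, nat_lit 3648, nat_lit 12288, R6_139, R3_76, R2_256⟩]⟩, ⟨nat_lit 5, [⟨nat_lit 4, nat_lit 16848, nat_lit 720, nat_lit 8496, nat_lit 2256,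 nat_lit 9504, R8_177, R13_47, R14_198⟩, ⟨nat_lit 5, nat_lit 16944, nat_lit 1104, nat_lit 8640, nat_lit 1488, nat_lit 8400, R8_180, R9_31, R12_175⟩, ⟨nat_lit 6, nat_lit 16896, nat_lit 1296, nat_lit 8544, nat_lit 2736, nat_lit 3072, R8_178, R3_57, R12_64⟩, ⟨nat_lit 7, nat_lit 16992, nat_lit 816, nat_lit 8592, nat_lit 7056, nat_lit 3408, R8_179, R3_147, R12_71⟩]⟩, ⟨nat_lit 7, [⟨nat_lit 7, nat_lit 17328, nat_lit 480, nat_lit 6960, nat_lit 4800, nat_lit 12864, R4_145, R3_100, R1_268⟩]⟩]⟩,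
 ⟨nat_lit 1, [⟨nat_lit 4, [⟨nat_lit 4, nat_lit 16224, nat_lit 8016, nat_lit 13632, nat_lit 10992, nat_lit 16128, R8_284, R9_229, R7_336⟩]⟩, ⟨nat_lit 5, [⟨nat_lit 4, nat_lit 17040, nat_lit 9120, nat_lit 9360, nat_lit 12528, nat_lit 10656, R9_195, R9_261, R14_222⟩]⟩]⟩,
 ⟨nat_lit 3, [⟨nat_lit 4, [⟨nat_lit 4, nat_lit 16656, nat_lit 5856, nat_lit 13584, nat_lit 10272, nat_lit 14736, R4_283, R3_214, R7_307⟩, ⟨nat_lit 6, nat_lit 16704, nat_lit 5904, nat_lit 13776, nat_lit 12240, nat_lit 13920, R4_287, R10_255, R2_290⟩]⟩, ⟨nat_lit 5, [⟨nat_lit 4, nat_lit 17184, nat_lit 6240, nat_lit 16080, nat_lit 10800, nat_lit 10128, R5_335, R3_225, R14_211⟩, ⟨nat_lit 6, nat_lit 17232, nat_lit 6720, nat_lit 16128, nat_lit 12960, nat_lit 3600, R5_336, R10_270, R12_75⟩]⟩]⟩], [], [], [], [⟨nat_lit 0, [⟨nat_lit 4, [⟨nat_lit 4, nat_lit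 16128, nat_lit 7824, nat_lit 4896, nat_lit 480, nat_lit 12192, R6_102, R13_10, R4_254⟩, ⟨nat_lit 6, nat_lit 16176, nat_lit 7968, nat_lit 6240, nat_lit 672, nat_lit 8592, R6_130, R3_14, R3_179⟩]⟩, ⟨nat_lit 7, [⟨nat_lit 4, nat_lit 17472, nat_lit 8112, nat_lit 5280, nat_lit 960, nat_lit 14688, R4_110, R13_20, R5_306⟩, ⟨nat_lit 7, nat_lit 17568, nat_lit 8208, nat_lit 6912, nat_lit 4752, nat_lit 5040, R4_144, R3_99, R11_105⟩]⟩]⟩,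
 ⟨nat_lit 1, [⟨nat_lit 4, [⟨nat_lit 4, nat_lit 16560, nat_lit 7872, nat_lit 13872, nat_lit 11376, nat_lit 14448, R8_289, R9_237, R4_301⟩]⟩, ⟨nat_lit 7, [⟨nat_lit 4, nat_lit 17856, nat_lit 8160, nat_lit 10848, nat_lit 11520, nat_lit 17328, R5_226, R9_240, R5_361⟩]⟩]⟩,
 ⟨nat_lit 3, [⟨nat_lit 4, [⟨nat_lit 4, nat_lit 16752, nat_lit 7920, nat_lit 13392, nat_lit 16752, nat_lit 13392, R4_279, R3_349, R4_279⟩, ⟨nat_lit 6, nat_lit 16800, nat_lit 8064, nat_lit 13728, nat_lit 12384, nat_lit 8640, R4_286, R10_258, R3_180⟩]⟩]⟩]]], [[], [], [], [[], [], [], [], [], [], [], [⟨nat_lit 0, [⟨nat_lit 3, [⟨nat_lit 7, nat_lit 2160, nat_lit 1344, nat_lit 7824, nat_lit 11856, nat_lit 3168, R6_163, R3_247, R12_66⟩]⟩]⟩,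
 ⟨nat_lit 2, [⟨nat_lit 0, [⟨nat_lit 7, nat_lit 576, nat_lit 960, nat_lit 6336, nat_lit 288, nat_lit 11952, R6_132, R10_6, R2_249⟩]⟩, ⟨nat_lit 3, [⟨nat_lit 7, nat_lit 2688, nat_lit 2496, nat_lit 7152, nat_lit 1248, nat_lit 3216, R8_149, R10_26, R12_67⟩]⟩]⟩]], [[], [], [], [], [⟨nat_lit 2, [⟨nat_lit 0, [⟨nat_lit 0, nat_lit 0, nat_lit 14448, nat_lit 5952, nat_lit 1872, nat_lit 624, R6_124, R4_39, R6_13⟩, ⟨nat_lit 3, nat_lit 48, nat_lit 14640, nat_lit 6000, nat_lit 1056, nat_lit 4512, R6_125, R5_22, R13_94⟩]⟩, ⟨nat_lit 2, [⟨nat_lit 0, nat_lit 720, nat_lit 15984, nat_lit 6288, nat_lit 2400, nat_lit 768, R4_131, R4_50, R8_16⟩, ⟨nat_lit 3, nat_lit 768, nat_lit 16224, nat_lit 6336, nat_lit 1680, nat_lit 3744, R4_132, R5_35, R9_78⟩]⟩, ⟨nat_lit 3, [⟨nat_lit 3, nat_lit 2256, nat_lit 15408, nat_lit 7584, nat_lit 1344, nat_lit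 384, R8_158, R5_28, R3_8⟩]⟩]⟩,
 ⟨nat_lit 6, [⟨nat_lit 2, [⟨nat_lit 0, nat_lit 1200, nat_lit 10992, nat_lit 9744, nat_lit 2256, nat_lit 1152, R7_203, R7_47, R8_24⟩, ⟨nat_lit 2, nat_lit 1248, nat_lit 11280, nat_lit 9792, nat_lit 18576, nat_lit 4464, R7_204, R14_387, R5_93⟩]⟩]⟩], [⟨nat_lit 2, [⟨nat_lit 0, [⟨nat_lit 0, nat_lit 144, nat_lit 14112, nat_lit 6096, nat_lit 10800, nat_lit 8688, R6_127, R4_225, R4_181⟩, ⟨nat_lit 3, nat_lit 192, nat_lit 14208, nat_lit 6144, nat_lit 13104, nat_lit 11472, R6_128, R5_273, R3_239⟩]⟩, ⟨nat_lit 2, [⟨nat_lit 0, nat_lit 864, nat_lit 14976, nat_lit 6432, nat_lit 11232, nat_lit 5136, R4_134, R4_234, R5_107⟩]⟩, ⟨nat_lit 3, [⟨nat_lit 3, nat_lit 2400, nat_lit 14688, nat_lit 7680, nat_lit 13248, nat_lit 2880, R8_160, R5_276, R10_60⟩]⟩]⟩,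
 ⟨nat_lit 4, [⟨nat_lit 6, [⟨nat_lit 2, nat_lit 3072, nat_lit 2256, nat_lit 8928, nat_lit 528, nat_lit 2736, R6_186, R7_11, R1_57⟩, ⟨nat_lit 6, nat_lit 3024, nat_lit 2112, nat_lit 8880, nat_lit 336, nat_lit 3456, R6_185, R4_7, R10_72⟩]⟩]⟩,
 ⟨nat_lit 6, [⟨nat_lit 2, [⟨nat_lit 0, nat_lit 1440, nat_lit 11808, nat_lit 9840, nat_lit 11568, nat_lit 14784, R7_205, R7_241, R5_308⟩, ⟨nat_lit 2, nat_lit 1488, nat_lit 11904, nat_lit 9888, nat_lit 19488, nat_lit 4464, R7_206, R14_406, R11_93⟩]⟩, ⟨nat_lit 6, [⟨nat_lit 2, nat_lit 3168, nat_lit 11136, nat_lit 9552, nat_lit 19536, nat_lit 2784, R4_199, R14_407, R1_58⟩]⟩]⟩,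
 ⟨nat_lit 7, [⟨nat_lit 4, [⟨nat_lit 6, nat_lit 2928, nat_lit 4992, nat_lit 5568, nat_lit 3408, nat_lit 11424, R6_116, R5_71, R3_238⟩]⟩, ⟨nat_lit 6, [⟨nat_lit 6, nat_lit 3264, nat_lit 7632, nat_lit 8352, nat_lit 3936, nat_lit 3504, R8_174, R5_82, R10_73⟩]⟩]⟩], [⟨nat_lit 2, [⟨nat_lit 0, [⟨nat_lit 0, nat_lit 288, nat_lit 17664, nat_lit 6384, nat_lit 7392, nat_lit 5136, R6_133, R4_154, R8_107⟩, ⟨nat_lit 3, nat_lit 336, nat_lit 18384, nat_lit 6432, nat_lit 9408, nat_lit 13248, R6_134, R5_196, R9_276⟩]⟩, ⟨nat_lit 2, [⟨nat_lit 0, nat_lit 1008, nat_lit 17808, nat_lit 6624, nat_lit 7728, nat_lit 240, R4_138, R4_161, R9_5⟩]⟩]⟩,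
 ⟨nat_lit 6, [⟨nat_lit 2, [⟨nat_lit 0, nat_lit 1680, nat_lit 11088, nat_lit 9936, nat_lit 7680, nat_lit 480, R7_207, R7_160, R9_10⟩]⟩]⟩]], [], [[], [], [], [], [], [], [⟨nat_lit 2, [⟨nat_lit 0, [⟨nat_lit 0, nat_lit 384, nat_lit 1344, nat_lit 6528, nat_lit 2256, nat_lit 5472, R6_136, R3_47, R8_114⟩, ⟨nat_lit 1, nat_lit 432, nat_lit 1440, nat_lit 6624, nat_lit 2448, nat_lit 14352, R6_138, R10_51, R5_299⟩]⟩, ⟨nat_lit 2, [⟨nat_lit 0, nat_lit 1056, nat_lit 3744, nat_lit 6672, nat_lit 7152, nat_lit 5376, R4_139, R3_149, R9_112⟩]⟩]⟩,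
 ⟨nat_lit 6, [⟨nat_lit 2, [⟨nat_lit 0, nat_lit 1776, nat_lit 2784, nat_lit 10464, nat_lit 6528, nat_lit 5760, R7_218, R2_136, R9_120⟩]⟩]⟩]], [[], [], [], [], [⟨nat_lit 0, [⟨nat_lit 3, [⟨nat_lit 7, nat_lit 2064, nat_lit 2928, nat_lit 8784, nat_lit 1776, nat_lit 3360, R6_183, R2_37, R2_70⟩]⟩]⟩,
 ⟨nat_lit 2, [⟨nat_lit 0, [⟨nat_lit 3, nat_lit 96, nat_lit 2640, nat_lit 6048, nat_lit 3264, nat_lit 5040, R6_126, R11_68, R13_105⟩]⟩, ⟨nat_lit 2, [⟨nat_lit 3, nat_lit 816, nat_lit 4368, nat_lit 6384, nat_lit 3600, nat_lit 3984, R4_133, R11_75, R9_83⟩]⟩, ⟨nat_lit 3, [⟨nat_lit 3, nat_lit 2352, nat_lit 3600, nat_lit 8208, nat_lit 3840, nat_lit 3984, R8_171, R11_80, R3_83⟩, ⟨nat_lit 7, nat_lit 2304, nat_lit 3648, nat_lit 8256, nat_lit 1248, nat_lit 3456, R8_172, R1_26, R2_72⟩]⟩]⟩,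
 ⟨nat_lit 3, [⟨nat_lit 3, [⟨nat_lit 7, nat_lit 2784, nat_lit 3216, nat_lit 9408, nat_lit 2448, nat_lit 3408, R4_196, R12_51, R2_71⟩]⟩]⟩,
 ⟨nat_lit 6, [⟨nat_lit 2, [⟨nat_lit 0, nat_lit 1296, nat_lit 3888, nat_lit 10032, nat_lit 2400, nat_lit 7056, R7_209, R2_50, R8_147⟩, ⟨nat_lit 2, nat_lit 1344, nat_lit 3984, nat_lit 10080, nat_lit 240, nat_lit 4848, R7_210, R12_5, R5_101⟩, ⟨nat_lit 3, nat_lit 1392, nat_lit 3936, nat_lit 10128, nat_lit 1872, nat_lit 4032, R7_211, R1_39, R9_84⟩]⟩]⟩], [⟨nat_lit 0, [⟨nat_lit 3, [⟨nat_lit 7, nat_lit 2112, nat_lit 3120, nat_lit 8976, nat_lit 1872, nat_lit 2832, R6_187, R2_39, R1_59⟩]⟩]⟩,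
 ⟨nat_lit 2, [⟨nat_lit 0, [⟨nat_lit 3, nat_lit 240, nat_lit 2976, nat_lit 6192, nat_lit 3408, nat_lit 11520, R6_129, R11_71, R3_240⟩]⟩, ⟨nat_lit 3, [⟨nat_lit 3, nat_lit 2496, nat_lit 3312, nat_lit 8400, nat_lit 3936, nat_lit 3552, R8_175, R11_82, R10_74⟩, ⟨nat_lit 7, nat_lit 2448, nat_lit 3360, nat_lit 8448, nat_lit 1344, nat_lit 2928, R8_176, R1_28, R1_61⟩]⟩]⟩,
 ⟨nat_lit 3, [⟨nat_lit 3, [⟨nat_lit 7, nat_lit 2832, nat_lit 3216, nat_lit 9600, nat_lit 2544, nat_lit 2880, R4_200, R12_53, R1_60⟩]⟩, ⟨nat_lit 7, [⟨nat_lit 4, nat_lit 3408, nat_lit 1536, nat_lit 10176, nat_lit 11088, nat_lit 15264, R7_212, R2_231, R5_318⟩, ⟨nat_lit 7, nat_lit 3504, nat_lit 1584, nat_lit 10224, nat_lit 2352, nat_lit 4848, R7_213, R12_49, R11_101⟩]⟩]⟩,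
 ⟨nat_lit 4, [⟨nat_lit 6, [⟨nat_lit 2, nat_lit 3120, nat_lit 2112, nat_lit 8976, nat_lit 1872, nat_lit 2832, R6_187, R2_39, R1_59⟩]⟩]⟩,
 ⟨nat_lit 6, [⟨nat_lit 2, [⟨nat_lit 0, nat_lit 1536, nat_lit 3408, nat_lit 10176, nat_lit 11088, nat_lit 15264, R7_212, R2_231, R5_318⟩, ⟨nat_lit 2, nat_lit 1584, nat_lit 3504, nat_lit 10224, nat_lit 2352, nat_lit 4848, R7_213, R12_49, R11_101⟩]⟩, ⟨nat_lit 6, [⟨nat_lit 2, nat_lit 3216, nat_lit 2832, nat_lit 9600, nat_lit 2544, nat_lit 2880, R4_200, R12_53, R1_60⟩]⟩]⟩,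
 ⟨nat_lit 7, [⟨nat_lit 4, [⟨nat_lit 6, nat_lit 2976, nat_lit 240, nat_lit 6192, nat_lit 3408, nat_lit 11520, R6_129, R11_71, R3_240⟩]⟩, ⟨nat_lit 6, [⟨nat_lit 2, nat_lit 3360, nat_lit 2448, nat_lit 8448, nat_lit 1344, nat_lit 2928, R8_176, R1_28, R1_61⟩, ⟨nat_lit 6, nat_lit 3312, nat_lit 2496, nat_lit 8400, nat_lit 3936, nat_lit 3552, R8_175, R11_82, R10_74⟩]⟩]⟩], [⟨nat_lit 2, [⟨nat_lit 0, [⟨nat_lit 3, nat_lit 528, nat_lit 1968, nat_lit 6480, nat_lit 3312, nat_lit 13296, R6_135, R11_69, R9_277⟩]⟩]⟩,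
 ⟨nat_lit 6, [⟨nat_lit 2, [⟨nat_lit 0, nat_lit 1920, nat_lit 2976, nat_lit 10368, nat_lit 10032, nat_lit 7728, R7_216, R2_209, R9_161⟩]⟩]⟩], [⟨nat_lit 0, [⟨nat_lit 3, [⟨nat_lit 7, nat_lit 2208, nat_lit 11760, nat_lit 9216, nat_lit 1824, nat_lit 3024, R6_192, R2_38, R12_63⟩]⟩]⟩,
 ⟨nat_lit 2, [⟨nat_lit 0, [⟨nat_lit 3, nat_lit 672, nat_lit 16176, nat_lit 6240, nat_lit 3360, nat_lit 8592, R6_130, R11_70, R3_179⟩, ⟨nat_lit 7, nat_lit 624, nat_lit 15936, nat_lit 6288, nat_lit 192, nat_lit 11904, R6_131, R1_4, R2_248⟩]⟩, ⟨nat_lit 3, [⟨nat_lit 7, nat_lit 2736, nat_lit 16896, nat_lit 8544, nat_lit 1296, nat_lit 3072, R8_178, R1_27, R12_64⟩]⟩]⟩,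
 ⟨nat_lit 3, [⟨nat_lit 3, [⟨nat_lit 7, nat_lit 2880, nat_lit 14112, nat_lit 9984, nat_lit 2496, nat_lit 3120, R4_208, R12_52, R12_65⟩]⟩]⟩]]], [[], [], [], [], [[], [], [], [], [⟨nat_lit 6, [⟨nat_lit 2, [⟨nat_lit 0, nat_lit 7632, nat_lit 3888, nat_lit 8784, nat_lit 2352, nat_lit 1344, R2_183, R7_49, R8_28⟩, ⟨nat_lit 2, nat_lit 7680, nat_lit 11856, nat_lit 8832, nat_lit 19872, nat_lit 6048, R2_184, R14_414, R5_126⟩]⟩]⟩], [⟨nat_lit 4, [⟨nat_lit 4, [⟨nat_lit 6, nat_lit 8544, nat_lit 3360, nat_lit 13872, nat_lit 5088, nat_lit 16080, R6_289, R4_106, R3_335⟩]⟩, ⟨nat_lit 6, [⟨nat_lit 2, nat_lit 8880, nat_lit 2640, nat_lit 11616, nat_lit 5472, nat_lit 3024, R13_242, R7_114, R1_63⟩, ⟨nat_lit 6, nat_lit 8832, nat_lit 3552, nat_lit 11568, nat_lit 5568, nat_lit 3648, R13_241, R4_116, R10_76⟩]⟩]⟩,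
 ⟨nat_lit 6, [⟨nat_lit 2, [⟨nat_lit 0, nat_lit 7920, nat_lit 13632, nat_lit 8880, nat_lit 11664, nat_lit 14928, R2_185, R7_243, R5_311⟩, ⟨nat_lit 2, nat_lit 7968, nat_lit 13776, nat_lit 8928, nat_lit 21168, nat_lit 5664, R2_186, R14_441, R11_118⟩]⟩, ⟨nat_lit 6, [⟨nat_lit 2, nat_lit 9168, nat_lit 13872, nat_lit 15504, nat_lit 21216, nat_lit 3072, R3_323, R14_442, R1_64⟩]⟩]⟩,
 ⟨nat_lit 7, [⟨nat_lit 4, [⟨nat_lit 6, nat_lit 8688, nat_lit 11424, nat_lit 13920, nat_lit 11472, nat_lit 16416, R8_290, R5_239, R3_342⟩]⟩, ⟨nat_lit 6, [⟨nat_lit 6, nat_lit 9312, nat_lit 11760, nat_lit 9168, nat_lit 12288, nat_lit 3696, R9_191, R5_256, R10_77⟩]⟩]⟩]], [[], [], [], [], [⟨nat_lit 6, [⟨nat_lit 2, [⟨nat_lit 2, nat_lit 7728, nat_lit 7440, nat_lit 9072, nat_lit 15648, nat_lit 6960, R2_189, R12_326, R5_145⟩]⟩]⟩], [⟨nat_lit 4, [⟨nat_lit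 4, [⟨nat_lit 6, nat_lit 8592, nat_lit 7968, nat_lit 13920, nat_lit 672, nat_lit 16176, R6_290, R3_14, R3_337⟩]⟩, ⟨nat_lit 6, [⟨nat_lit 2, nat_lit 8976, nat_lit 9024, nat_lit 11712, nat_lit 3888, nat_lit 3264, R13_244, R2_81, R1_68⟩, ⟨nat_lit 6, nat_lit 8928, nat_lit 9696, nat_lit 11664, nat_lit 4272, nat_lit 3792, R13_243, R3_89, R10_79⟩]⟩]⟩,
 ⟨nat_lit 5, [⟨nat_lit 4, [⟨nat_lit 6, nat_lit 8640, nat_lit 8064, nat_lit 13728, nat_lit 3312, nat_lit 16800, R4_286, R10_69, R3_350⟩]⟩, ⟨nat_lit 6, [⟨nat_lit 2, nat_lit 9120, nat_lit 9072, nat_lit 9120, nat_lit 3360, nat_lit 3360, R3_190, R1_70, R1_70⟩, ⟨nat_lit 6, nat_lit 9072, nat_lit 9792, nat_lit 9072, nat_lit 3888, nat_lit 3888, R3_189, R10_81, R10_81⟩]⟩]⟩,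
 ⟨nat_lit 6, [⟨nat_lit 2, [⟨nat_lit 2, nat_lit 8016, nat_lit 7056, nat_lit 9120, nat_lit 16944, nat_lit 6576, R2_190, R12_353, R11_137⟩]⟩, ⟨nat_lit 6, [⟨nat_lit 2, nat_lit 9216, nat_lit 9120, nat_lit 15552, nat_lit 16992, nat_lit 3312, R3_324, R12_354, R1_69⟩]⟩]⟩]], [], [[], [], [], [], [⟨nat_lit 6, [⟨nat_lit 2, [⟨nat_lit 0, nat_lit 7776, nat_lit 6240, nat_lit 9216, nat_lit 2544, nat_lit 7296, R2_192, R2_53, R8_152⟩, ⟨nat_lit 2, nat_lit 7824, nat_lit 7440, nat_lit 9264, nat_lit 7248, nat_lit 6576, R2_193, R12_151, R5_137⟩]⟩]⟩]]], [[[⟨nat_lit 0, [⟨nat_lit 1, [⟨nat_lit 4, nat_lit 4320, nat_lit 672, nat_lit 6768, nat_lit 16032, nat_lit 1008, R4_141, R6_334, R4_21⟩, ⟨nat_lit 5, nat_lit 4368, nat_lit 7056, nat_lit 7056, nat_lit 17856, nat_lit 4368, R4_147, R8_372, R3_91⟩]⟩]⟩,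
 ⟨nat_lit 2, [⟨nat_lit 1, [⟨nat_lit 4, nat_lit 4896, nat_lit 816, nat_lit 5472, nat_lit 2784, nat_lit 1104, R3_114, R4_58, R4_23⟩, ⟨nat_lit 5, nat_lit 4944, nat_lit 7200, nat_lit 5520, nat_lit 4224, nat_lit 4416, R3_115, R5_88, R3_92⟩]⟩]⟩], [], [], [⟨nat_lit 0, [⟨nat_lit 1, [⟨nat_lit 4, nat_lit 4512, nat_lit 1584, nat_lit 6816, nat_lit 16272, nat_lit 0, R4_142, R6_339, R5_0⟩]⟩]⟩,
 ⟨nat_lit 2, [⟨nat_lit 1, [⟨nat_lit 4, nat_lit 5184, nat_lit 3984, nat_lit 5616, nat_lit 7968, nat_lit 96, R3_117, R4_166, R5_2⟩]⟩]⟩]], [], [[⟨nat_lit 0, [⟨nat_lit 1, [⟨nat_lit 5, nat_lit 4416, nat_lit 5520, nat_lit 7200, nat_lit 4224, nat_lit 4944, R4_150, R5_88, R3_103⟩]⟩]⟩,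
 ⟨nat_lit 2, [⟨nat_lit 1, [⟨nat_lit 5, nat_lit 4992, nat_lit 5568, nat_lit 5568, nat_lit 4224, nat_lit 4992, R3_116, R11_88, R3_104⟩]⟩]⟩], [], [⟨nat_lit 0, [⟨nat_lit 1, [⟨nat_lit 5, nat_lit 4464, nat_lit 816, nat_lit 7296, nat_lit 4320, nat_lit 14256, R4_152, R5_90, R10_297⟩]⟩]⟩,
 ⟨nat_lit 2, [⟨nat_lit 1, [⟨nat_lit 1, nat_lit 5088, nat_lit 912, nat_lit 5952, nat_lit 2544, nat_lit 12960, R3_124, R1_53, R1_270⟩, ⟨nat_lit 5, nat_lit 5040, nat_lit 864, nat_lit 6000, nat_lit 4320, nat_lit 14304, R3_125, R11_90, R10_298⟩]⟩]⟩]], [[], [], [], [⟨nat_lit 0, [⟨nat_lit 1, [⟨nat_lit 4, nat_lit 4656, nat_lit 1488, nat_lit 6864, nat_lit 4416, nat_lit 5040, R4_143, R13_92, R5_105⟩, ⟨nat_lit 7, nat_lit 4752, nat_lit 1584, nat_lit 6912, nat_lit 17568, nat_lit 18192, R4_144, R3_366, R11_379⟩]⟩]⟩,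
 ⟨nat_lit 2, [⟨nat_lit 1, [⟨nat_lit 4, nat_lit 5328, nat_lit 1632, nat_lit 5712, nat_lit 9984, nat_lit 5760, R3_119, R3_208, R5_120⟩, ⟨nat_lit 7, nat_lit 5424, nat_lit 1728, nat_lit 5760, nat_lit 2640, nat_lit 18240, R3_120, R10_55, R11_380⟩]⟩]⟩], [], [], [], [⟨nat_lit 0, [⟨nat_lit 0, [⟨nat_lit 7, nat_lit 3648, nat_lit 144, nat_lit 6672, nat_lit 15984, nat_lit 12288, R6_139, R3_333, R2_256⟩]⟩, ⟨nat_lit 1, [⟨nat_lit 7, nat_lit 4800, nat_lit 480, nat_lit 6960, nat_lit 17328, nat_lit 12864, R4_145, R3_361, R1_268⟩]⟩, ⟨nat_lit 3, [⟨nat_lit 7, nat_lit 7056, nat_lit 816, nat_lit 8592, nat_lit 16992, nat_lit 3408, R8_179, R3_354, R12_71⟩]⟩]⟩,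
 ⟨nat_lit 2, [⟨nat_lit 0, [⟨nat_lit 7, nat_lit 4176, nat_lit 288, nat_lit 6768, nat_lit 624, nat_lit 12432, R13_141, R10_13, R2_259⟩]⟩, ⟨nat_lit 1, [⟨nat_lit 7, nat_lit 5904, nat_lit 528, nat_lit 5136, nat_lit 2688, nat_lit 13008, R3_107, R10_56, R1_271⟩]⟩, ⟨nat_lit 3, [⟨nat_lit 7, nat_lit 7440, nat_lit 1968, nat_lit 5040, nat_lit 2208, nat_lit 3456, R9_105, R10_46, R12_72⟩]⟩]⟩]], [[], [], [], [], [⟨nat_lit 2, [⟨nat_lit 0, [⟨nat_lit 0, nat_lit 3744, nat_lit 240, nat_lit 6528, nat_lit 2064, nat_lit 1200, R13_136, R4_43, R6_25⟩, ⟨nat_lit 3, nat_lit 3792, nat_lit 5472, nat_lit 6576, nat_lit 3456, nat_lit 6144, R13_137, R5_72, R13_128⟩]⟩, ⟨nat_lit 1, [⟨nat_lit 0, nat_lit 5472, nat_lit 816, nat_lit 4896, nat_lit 2784, nat_lit 1104, R3_102, R4_58, R4_23⟩, ⟨nat_lit 3, nat_lit 5520, nat_lit 7200, nat_lit 4944, nat_lit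 4224, nat_lit 4416, R3_103, R5_88, R3_92⟩]⟩, ⟨nat_lit 2, [⟨nat_lit 0, nat_lit 6048, nat_lit 2544, nat_lit 6048, nat_lit 2544, nat_lit 864, R3_126, R4_53, R8_18⟩, ⟨nat_lit 3, nat_lit 6096, nat_lit 7872, nat_lit 6192, nat_lit 4128, nat_lit 4656, R3_129, R5_86, R9_97⟩]⟩, ⟨nat_lit 3, [⟨nat_lit 3, nat_lit 7152, nat_lit 6672, nat_lit 4848, nat_lit 3744, nat_lit 1056, R9_101, R5_78, R3_22⟩]⟩]⟩,
 ⟨nat_lit 6, [⟨nat_lit 2, [⟨nat_lit 0, nat_lit 6384, nat_lit 2640, nat_lit 4128, nat_lit 2496, nat_lit 1248, R2_86, R7_52, R8_26⟩, ⟨nat_lit 2, nat_lit 6432, nat_lit 11424, nat_lit 4176, nat_lit 21648, nat_lit 5232, R2_87, R14_451, R5_109⟩]⟩]⟩], [], [⟨nat_lit 2, [⟨nat_lit 0, [⟨nat_lit 0, nat_lit 3888, nat_lit 3840, nat_lit 6816, nat_lit 7584, nat_lit 5184, R13_142, R4_158, R8_108⟩, ⟨nat_lit 3, nat_lit 3936, nat_lit 12192, nat_lit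 6864, nat_lit 11664, nat_lit 13872, R13_143, R5_243, R9_289⟩]⟩, ⟨nat_lit 1, [⟨nat_lit 0, nat_lit 5616, nat_lit 3984, nat_lit 5184, nat_lit 7968, nat_lit 96, R3_108, R4_166, R5_2⟩]⟩, ⟨nat_lit 2, [⟨nat_lit 0, nat_lit 6192, nat_lit 4128, nat_lit 6096, nat_lit 7872, nat_lit 336, R3_127, R4_164, R9_7⟩]⟩]⟩,
 ⟨nat_lit 6, [⟨nat_lit 2, [⟨nat_lit 0, nat_lit 6624, nat_lit 3024, nat_lit 4416, nat_lit 7920, nat_lit 576, R2_92, R7_165, R9_12⟩]⟩]⟩]], [], [[], [], [⟨nat_lit 2, [⟨nat_lit 1, [⟨nat_lit 1, nat_lit 5136, nat_lit 528, nat_lit 5904, nat_lit 2688, nat_lit 13008, R3_123, R10_56, R1_271⟩]⟩]⟩], [], [], [], [⟨nat_lit 2, [⟨nat_lit 0, [⟨nat_lit 0, nat_lit 3984, nat_lit 912, nat_lit 6960, nat_lit 2352, nat_lit 5520, R13_145, R3_49, R8_115⟩, ⟨nat_lit 1, nat_lit 4032, nat_lit 1008, nat_lit 7056, nat_lit 2496, nat_lit 14736,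 R13_147, R10_52, R5_307⟩]⟩, ⟨nat_lit 1, [⟨nat_lit 0, nat_lit 5712, nat_lit 1632, nat_lit 5328, nat_lit 9984, nat_lit 5760, R3_111, R3_208, R5_120⟩, ⟨nat_lit 1, nat_lit 5760, nat_lit 1728, nat_lit 5424, nat_lit 2640, nat_lit 18240, R3_113, R10_55, R11_380⟩]⟩, ⟨nat_lit 2, [⟨nat_lit 0, nat_lit 6240, nat_lit 3744, nat_lit 6144, nat_lit 7248, nat_lit 5472, R3_128, R3_151, R9_114⟩]⟩]⟩,
 ⟨nat_lit 6, [⟨nat_lit 2, [⟨nat_lit 0, nat_lit 6720, nat_lit 2784, nat_lit 4608, nat_lit 6768, nat_lit 5856, R2_96, R2_141, R9_122⟩]⟩]⟩]], [[], [], [], [], [⟨nat_lit 0, [⟨nat_lit 3, [⟨nat_lit 7, nat_lit 7008, nat_lit 6480, nat_lit 7200, nat_lit 2832, nat_lit 4224, R8_150, R2_59, R2_88⟩]⟩]⟩,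
 ⟨nat_lit 2, [⟨nat_lit 0, [⟨nat_lit 3, nat_lit 3840, nat_lit 3840, nat_lit 6624, nat_lit 3456, nat_lit 6624, R13_138, R11_72, R13_138⟩]⟩, ⟨nat_lit 1, [⟨nat_lit 3, nat_lit 5568, nat_lit 5568, nat_lit 4992, nat_lit 4224, nat_lit 4992, R3_104, R11_88, R3_104⟩]⟩, ⟨nat_lit 2, [⟨nat_lit 3, nat_lit 6144, nat_lit 7248, nat_lit 6240, nat_lit 3744, nat_lit 4896, R3_130, R11_78, R9_102⟩]⟩, ⟨nat_lit 3, [⟨nat_lit 3, nat_lit 7248, nat_lit 6144, nat_lit 4896, nat_lit 4128, nat_lit 6240, R9_102, R11_86, R3_130⟩, ⟨nat_lit 7, nat_lit 7200, nat_lit 6576, nat_lit 4944, nat_lit 2304, nat_lit 4320, R9_103, R1_48, R2_90⟩]⟩]⟩,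
 ⟨nat_lit 3, [⟨nat_lit 3, [⟨nat_lit 7, nat_lit 7536, nat_lit 6528, nat_lit 5424, nat_lit 2592, nat_lit 4272, R5_113, R12_54, R2_89⟩]⟩]⟩,
 ⟨nat_lit 6, [⟨nat_lit 2, [⟨nat_lit 0, nat_lit 6480, nat_lit 7008, nat_lit 4224, nat_lit 2832, nat_lit 7200, R2_88, R2_59, R8_150⟩, ⟨nat_lit 2, nat_lit 6528, nat_lit 7536, nat_lit 4272, nat_lit 10272, nat_lit 5424, R2_89, R12_214, R5_113⟩, ⟨nat_lit 3, nat_lit 6576, nat_lit 7200, nat_lit 4320, nat_lit 2304, nat_lit 4944, R2_90, R1_48, R9_103⟩]⟩]⟩], [], [], [⟨nat_lit 0, [⟨nat_lit 0, [⟨nat_lit 7, nat_lit 3696, nat_lit 240, nat_lit 6720, nat_lit 1056, nat_lit 12240, R6_140, R2_22, R2_255⟩]⟩, ⟨nat_lit 1, [⟨nat_lit 7, nat_lit 4848, nat_lit 768, nat_lit 7008, nat_lit 3072, nat_lit 12816, R4_146, R2_64, R1_267⟩]⟩, ⟨nat_lit 3, [⟨nat_lit 7, nat_lit 7104, nat_lit 1104, nat_lit 7248, nat_lit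 2880, nat_lit 3264, R8_151, R2_60, R12_68⟩]⟩]⟩,
 ⟨nat_lit 2, [⟨nat_lit 0, [⟨nat_lit 3, nat_lit 4272, nat_lit 528, nat_lit 6672, nat_lit 3552, nat_lit 8928, R13_139, R11_74, R3_186⟩, ⟨nat_lit 7, nat_lit 4224, nat_lit 576, nat_lit 6720, nat_lit 384, nat_lit 12384, R13_140, R1_8, R2_258⟩]⟩, ⟨nat_lit 1, [⟨nat_lit 3, nat_lit 6000, nat_lit 864, nat_lit 5040, nat_lit 4320, nat_lit 14304, R3_105, R11_90, R10_298⟩, ⟨nat_lit 7, nat_lit 5952, nat_lit 912, nat_lit 5088, nat_lit 2544, nat_lit 12960, R3_106, R1_53, R1_270⟩]⟩, ⟨nat_lit 3, [⟨nat_lit 7, nat_lit 7488, nat_lit 2112, nat_lit 4992, nat_lit 2352, nat_lit 3312, R9_104, R1_49, R12_69⟩]⟩]⟩,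
 ⟨nat_lit 3, [⟨nat_lit 3, [⟨nat_lit 7, nat_lit 7584, nat_lit 1536, nat_lit 5472, nat_lit 2640, nat_lit 3360, R5_114, R12_55, R12_70⟩]⟩]⟩]]], [[], [], [], [[], [], [], [], [⟨nat_lit 0, [⟨nat_lit 3, [⟨nat_lit 7, nat_lit 9648, nat_lit 5856, nat_lit 10032, nat_lit 13824, nat_lit 5280, R4_209, R3_288, R2_110⟩]⟩]⟩,
 ⟨nat_lit 2, [⟨nat_lit 3, [⟨nat_lit 7, nat_lit 9888, nat_lit 5904, nat_lit 5520, nat_lit 1920, nat_lit 5328, R5_115, R10_40, R2_111⟩]⟩]⟩], [⟨nat_lit 0, [⟨nat_lit 3, [⟨nat_lit 7, nat_lit 9744, nat_lit 4560, nat_lit 10128, nat_lit 14304, nat_lit 3984, R4_211, R3_298, R1_83⟩]⟩, ⟨nat_lit 7, [⟨nat_lit 4, nat_lit 10608, nat_lit 6192, nat_lit 9408, nat_lit 1632, nat_lit 14544, R7_196, R13_34, R5_303⟩, ⟨nat_lit 7, nat_lit 10704, nat_lit 6864, nat_lit 10800, nat_lit 12720, nat_lit 4992, R7_225, R3_265, R11_104⟩]⟩]⟩,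
 ⟨nat_lit 2, [⟨nat_lit 3, [⟨nat_lit 7, nat_lit 10032, nat_lit 4608, nat_lit 5568, nat_lit 2016, nat_lit 4032, R5_116, R10_42, R1_84⟩]⟩]⟩,
 ⟨nat_lit 3, [⟨nat_lit 4, [⟨nat_lit 4, nat_lit 10272, nat_lit 5856, nat_lit 14400, nat_lit 16656, nat_lit 13584, R7_300, R3_347, R4_283⟩, ⟨nat_lit 6, nat_lit 10320, nat_lit 5952, nat_lit 14544, nat_lit 12432, nat_lit 15456, R7_303, R10_259, R3_322⟩]⟩, ⟨nat_lit 7, [⟨nat_lit 4, nat_lit 10800, nat_lit 6240, nat_lit 9744, nat_lit 17184, nat_lit 16080, R14_203, R3_358, R5_335⟩]⟩]⟩], [], [⟨nat_lit 0, [⟨nat_lit 3, [⟨nat_lit 7, nat_lit 9840, nat_lit 624, nat_lit 10080, nat_lit 14208, nat_lit 3504, R4_210, R3_296, R12_73⟩]⟩]⟩,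
 ⟨nat_lit 2, [⟨nat_lit 3, [⟨nat_lit 7, nat_lit 10224, nat_lit 672, nat_lit 5616, nat_lit 1968, nat_lit 3552, R5_117, R10_41, R12_74⟩]⟩]⟩]], [], [], [], [[], [], [], [], [⟨nat_lit 0, [⟨nat_lit 3, [⟨nat_lit 7, nat_lit 9696, nat_lit 13248, nat_lit 8352, nat_lit 2304, nat_lit 4800, R4_174, R2_48, R2_100⟩]⟩]⟩,
 ⟨nat_lit 2, [⟨nat_lit 3, [⟨nat_lit 3, nat_lit 9984, nat_lit 5328, nat_lit 5760, nat_lit 3984, nat_lit 5712, R5_120, R11_83, R3_119⟩, ⟨nat_lit 7, nat_lit 9936, nat_lit 13440, nat_lit 5664, nat_lit 1776, nat_lit 4848, R5_118, R1_37, R2_101⟩]⟩]⟩], [⟨nat_lit 0, [⟨nat_lit 3, [⟨nat_lit 7, nat_lit 9792, nat_lit 5280, nat_lit 8400, nat_lit 2352, nat_lit 3504, R4_175, R2_49, R1_73⟩]⟩, ⟨nat_lit 7, [⟨nat_lit 7, nat_lit 10752, nat_lit 7680, nat_lit 8400, nat_lit 624, nat_lit 4896, R7_175, R2_13, R11_102⟩]⟩]⟩,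
 ⟨nat_lit 2, [⟨nat_lit 3, [⟨nat_lit 3, nat_lit 10128, nat_lit 4704, nat_lit 5808, nat_lit 4080, nat_lit 4128, R5_121, R11_85, R10_86⟩, ⟨nat_lit 7, nat_lit 10080, nat_lit 5328, nat_lit 5712, nat_lit 1824, nat_lit 3552, R5_119, R1_38, R1_74⟩]⟩]⟩,
 ⟨nat_lit 3, [⟨nat_lit 4, [⟨nat_lit 4, nat_lit 10368, nat_lit 7056, nat_lit 14352, nat_lit 10800, nat_lit 13632, R7_299, R2_225, R4_284⟩, ⟨nat_lit 6, nat_lit 10416, nat_lit 7248, nat_lit 14496, nat_lit 11184, nat_lit 15408, R7_302, R1_233, R3_321⟩]⟩, ⟨nat_lit 7, [⟨nat_lit 4, nat_lit 10896, nat_lit 7392, nat_lit 9840, nat_lit 11136, nat_lit 15456, R14_205, R2_232, R5_322⟩, ⟨nat_lit 7, nat_lit 10992, nat_lit 7728, nat_lit 9936, nat_lit 2400, nat_lit 4944, R14_207, R12_50, R11_103⟩]⟩]⟩,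
 ⟨nat_lit 7, [⟨nat_lit 4, [⟨nat_lit 6, nat_lit 10464, nat_lit 7200, nat_lit 13296, nat_lit 9648, nat_lit 15312, R4_277, R11_201, R3_319⟩]⟩, ⟨nat_lit 6, [⟨nat_lit 2, nat_lit 10560, nat_lit 8400, nat_lit 16464, nat_lit 6768, nat_lit 2976, R5_343, R1_141, R1_62⟩, ⟨nat_lit 6, nat_lit 10512, nat_lit 8592, nat_lit 16512, nat_lit 9936, nat_lit 3600, R5_344, R11_207, R10_75⟩]⟩]⟩]]]]
noncomputable def N6555 : T3 (List N0) := [[[[], [⟨nat_lit 1, [⟨nat_lit 4, [⟨nat_lit 4, nat_lit 18288, nat_lit 5568, nat_lit 12432, nat_lit 11856, nat_lit 17568, R4_259, R4_247, R7_366⟩]⟩, ⟨nat_lit 5, [⟨nat_lit 4, nat_lit 19104, nat_lit 6000, nat_lit 1488, nat_lit 11904, nat_lit 13200, R3_31, R4_248, R14_275⟩, ⟨nat_lit 5, nat_lit 19584, nat_lit 6096, nat_lit 1584, nat_lit 3504, nat_lit 10464, R3_33, R3_73, R12_218⟩]⟩]⟩,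
 ⟨nat_lit 5, [⟨nat_lit 4, [⟨nat_lit 4, nat_lit 18336, nat_lit 13728, nat_lit 13728, nat_lit 12912, nat_lit 12912, R7_286, R7_269, R7_269⟩, ⟨nat_lit 7, nat_lit 18768, nat_lit 13776, nat_lit 13776, nat_lit 10560, nat_lit 10560, R7_287, R2_220, R2_220⟩]⟩, ⟨nat_lit 5, [⟨nat_lit 4, nat_lit 19152, nat_lit 13920, nat_lit 12576, nat_lit 13008, nat_lit 12720, R2_262, R7_271, R14_265⟩, ⟨nat_lit 5, nat_lit 19632, nat_lit 14064, nat_lit 12672, nat_lit 11664, nat_lit 9984, R2_264, R2_243, R12_208⟩, ⟨nat_lit 7, nat_lit 20304, nat_lit 13968, nat_lit 12624, nat_lit 10704, nat_lit 1824, R2_263, R2_223, R12_38⟩]⟩, ⟨nat_lit 7, [⟨nat_lit 7, nat_lit 20928, nat_lit 13824, nat_lit 14064, nat_lit 10656, nat_lit 10944, R2_293, R2_222, R1_228⟩]⟩]⟩], [], [], [], [⟨nat_lit 1, [⟨nat_lit 4, [⟨nat_lit 4, nat_lit 4368, nat_lit 5856, nat_lit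 5856, nat_lit 15120, nat_lit 15120, R4_122, R4_315, R4_315⟩]⟩]⟩,
 ⟨nat_lit 5, [⟨nat_lit 4, [⟨nat_lit 4, nat_lit 4416, nat_lit 12432, nat_lit 5568, nat_lit 17568, nat_lit 11856, R7_116, R7_366, R4_247⟩]⟩, ⟨nat_lit 7, [⟨nat_lit 4, nat_lit 5616, nat_lit 12624, nat_lit 7728, nat_lit 17664, nat_lit 12768, R2_161, R7_368, R5_266⟩, ⟨nat_lit 7, nat_lit 6528, nat_lit 12768, nat_lit 7872, nat_lit 14880, nat_lit 7008, R2_164, R2_310, R11_146⟩]⟩]⟩]], [[], [⟨nat_lit 5, [⟨nat_lit 4, [⟨nat_lit 4, nat_lit 18384, nat_lit 12576, nat_lit 13920, nat_lit 13920, nat_lit 13008, R7_290, R14_290, R7_271⟩, ⟨nat_lit 6, nat_lit 18624, nat_lit 12672, nat_lit 14064, nat_lit 9984, nat_lit 11664, R7_293, R12_208, R2_243⟩, ⟨nat_lit 7, nat_lit 18816, nat_lit 12624, nat_lit 13968, nat_lit 9840, nat_lit 10704, R7_291, R12_205, R2_223⟩]⟩, ⟨nat_lit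 5, [⟨nat_lit 4, nat_lit 19200, nat_lit 13200, nat_lit 13200, nat_lit 14640, nat_lit 14928, R2_275, R14_305, R14_311⟩, ⟨nat_lit 5, nat_lit 19680, nat_lit 13344, nat_lit 13488, nat_lit 11712, nat_lit 12000, R2_281, R12_244, R12_250⟩, ⟨nat_lit 6, nat_lit 20160, nat_lit 13488, nat_lit 13344, nat_lit 12000, nat_lit 11712, R2_278, R12_250, R12_244⟩, ⟨nat_lit 7, nat_lit 20352, nat_lit 13248, nat_lit 13248, nat_lit 11904, nat_lit 11472, R2_276, R12_248, R12_239⟩]⟩, ⟨nat_lit 7, [⟨nat_lit 7, nat_lit 20976, nat_lit 12768, nat_lit 14352, nat_lit 10560, nat_lit 11088, R2_299, R12_220, R1_231⟩]⟩]⟩], [], [], [], [⟨nat_lit 5, [⟨nat_lit 4, [⟨nat_lit 4, nat_lit 4464, nat_lit 1488, nat_lit 6000, nat_lit 11712, nat_lit 11904, R7_125, R14_244, R4_248⟩, ⟨nat_lit 6, nat_lit 4848, nat_lit 1584, nat_lit 6096, nat_lit 10464, nat_lit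 3504, R7_127, R12_218, R3_73⟩]⟩, ⟨nat_lit 7, [⟨nat_lit 4, nat_lit 5664, nat_lit 7968, nat_lit 8928, nat_lit 12144, nat_lit 13776, R2_186, R14_253, R5_287⟩, ⟨nat_lit 7, nat_lit 6576, nat_lit 8016, nat_lit 9120, nat_lit 16944, nat_lit 7056, R2_190, R12_353, R11_147⟩]⟩]⟩]], [], [[], [⟨nat_lit 1, [⟨nat_lit 4, [⟨nat_lit 4, nat_lit 18432, nat_lit 7728, nat_lit 12624, nat_lit 12768, nat_lit 17664, R4_263, R5_266, R7_368⟩, ⟨nat_lit 7, nat_lit 18864, nat_lit 7872, nat_lit 12768, nat_lit 7008, nat_lit 14880, R4_266, R11_146, R2_310⟩]⟩, ⟨nat_lit 5, [⟨nat_lit 4, nat_lit 19248, nat_lit 8928, nat_lit 7968, nat_lit 13776, nat_lit 13680, R3_166, R5_287, R14_285⟩, ⟨nat_lit 7, nat_lit 20400, nat_lit 9120, nat_lit 8016, nat_lit 7056, nat_lit 5520, R3_167, R11_147, R12_115⟩]⟩]⟩,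
 ⟨nat_lit 5, [⟨nat_lit 4, [⟨nat_lit 7, nat_lit 18912, nat_lit 14064, nat_lit 13824, nat_lit 10944, nat_lit 10656, R7_288, R1_228, R2_222⟩]⟩, ⟨nat_lit 5, [⟨nat_lit 7, nat_lit 20448, nat_lit 14352, nat_lit 12768, nat_lit 11088, nat_lit 6384, R2_266, R1_231, R12_133⟩]⟩, ⟨nat_lit 7, [⟨nat_lit 7, nat_lit 21024, nat_lit 14304, nat_lit 14304, nat_lit 11040, nat_lit 11040, R2_298, R1_230, R1_230⟩]⟩]⟩]]], [[], [[], [⟨nat_lit 4, [⟨nat_lit 4, [⟨nat_lit 4, nat_lit 18480, nat_lit 12336, nat_lit 1200, nat_lit 2016, nat_lit 4512, R7_25, R7_42, R7_94⟩, ⟨nat_lit 6, nat_lit 18672, nat_lit 12432, nat_lit 7200, nat_lit 576, nat_lit 2928, R7_150, R2_12, R2_61⟩, ⟨nat_lit 7, nat_lit 18960, nat_lit 12384, nat_lit 8064, nat_lit 528, nat_lit 2976, R7_168, R2_11, R2_62⟩]⟩, ⟨nat_lit 6, [⟨nat_lit 6, nat_lit 20784, nat_lit 12528, nat_lit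 5424, nat_lit 6288, nat_lit 2400, R2_113, R2_131, R1_50⟩]⟩, ⟨nat_lit 7, [⟨nat_lit 7, nat_lit 21072, nat_lit 12480, nat_lit 5472, nat_lit 6240, nat_lit 2448, R2_114, R2_130, R1_51⟩]⟩]⟩,
 ⟨nat_lit 5, [⟨nat_lit 4, [⟨nat_lit 4, nat_lit 18528, nat_lit 13920, nat_lit 16656, nat_lit 13968, nat_lit 13152, R14_347, R14_291, R7_274⟩, ⟨nat_lit 6, nat_lit 18720, nat_lit 14016, nat_lit 16848, nat_lit 10032, nat_lit 11808, R14_351, R12_209, R2_246⟩, ⟨nat_lit 7, nat_lit 19008, nat_lit 13968, nat_lit 17040, nat_lit 9936, nat_lit 11856, R14_355, R12_207, R2_247⟩]⟩, ⟨nat_lit 5, [⟨nat_lit 4, nat_lit 19488, nat_lit 14544, nat_lit 14064, nat_lit 14688, nat_lit 15024, R12_293, R14_306, R14_313⟩, ⟨nat_lit 5, nat_lit 20064, nat_lit 14688, nat_lit 14640, nat_lit 11760, nat_lit 12096, R12_305, R12_245, R12_252⟩, ⟨nat_lit 6, nat_lit 20256,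 nat_lit 14832, nat_lit 14256, nat_lit 12048, nat_lit 11808, R12_297, R12_251, R12_246⟩, ⟨nat_lit 7, nat_lit 20688, nat_lit 14592, nat_lit 14448, nat_lit 11952, nat_lit 11856, R12_301, R12_249, R12_247⟩]⟩, ⟨nat_lit 6, [⟨nat_lit 6, nat_lit 20880, nat_lit 15120, nat_lit 15264, nat_lit 10704, nat_lit 12240, R12_318, R12_223, R1_255⟩]⟩, ⟨nat_lit 7, [⟨nat_lit 7, nat_lit 21120, nat_lit 14112, nat_lit 15312, nat_lit 10656, nat_lit 12288, R12_319, R12_222, R1_256⟩]⟩]⟩,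
 ⟨nat_lit 6, [⟨nat_lit 6, [⟨nat_lit 6, nat_lit 20832, nat_lit 15888, nat_lit 4128, nat_lit 4992, nat_lit 7776, R1_86, R1_104, R1_162⟩]⟩]⟩,
 ⟨nat_lit 7, [⟨nat_lit 7, [⟨nat_lit 7, nat_lit 21168, nat_lit 15600, nat_lit 4176, nat_lit 4944, nat_lit 7824, R1_87, R1_103, R1_163⟩]⟩]⟩], [], [], [], [⟨nat_lit 4, [⟨nat_lit 4, [⟨nat_lit 4, nat_lit 4512, nat_lit 13200, nat_lit 1152, nat_lit 2064, nat_lit 4272, R7_24, R7_43, R4_89⟩, ⟨nat_lit 6, nat_lit 4896, nat_lit 13344, nat_lit 7152, nat_lit 624, nat_lit 10752, R7_149, R2_13, R3_224⟩]⟩, ⟨nat_lit 6, [⟨nat_lit 6, nat_lit 5136, nat_lit 13872, nat_lit 5376, nat_lit 6336, nat_lit 6816, R2_112, R2_132, R10_142⟩]⟩, ⟨nat_lit 7, [⟨nat_lit 4, nat_lit 5712, nat_lit 13488, nat_lit 336, nat_lit 8592, nat_lit 3120, R2_7, R7_179, R5_65⟩, ⟨nat_lit 7, nat_lit 6624, nat_lit 13632, nat_lit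 6048, nat_lit 5760, nat_lit 7344, R2_126, R2_120, R11_153⟩]⟩]⟩,
 ⟨nat_lit 5, [⟨nat_lit 4, [⟨nat_lit 4, nat_lit 4560, nat_lit 16032, nat_lit 17184, nat_lit 11760, nat_lit 12048, R14_358, R14_245, R4_251⟩, ⟨nat_lit 6, nat_lit 4944, nat_lit 16224, nat_lit 17424, nat_lit 10512, nat_lit 10992, R14_363, R12_219, R3_229⟩]⟩, ⟨nat_lit 6, [⟨nat_lit 6, nat_lit 5232, nat_lit 18240, nat_lit 15120, nat_lit 10896, nat_lit 6912, R12_315, R12_227, R10_144⟩]⟩, ⟨nat_lit 7, [⟨nat_lit 4, nat_lit 5760, nat_lit 16848, nat_lit 7152, nat_lit 12240, nat_lit 14256, R12_149, R14_255, R5_297⟩, ⟨nat_lit 7, nat_lit 6672, nat_lit 16992, nat_lit 7872, nat_lit 17232, nat_lit 7440, R12_164, R12_359, R11_155⟩]⟩]⟩,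
 ⟨nat_lit 6, [⟨nat_lit 6, [⟨nat_lit 6, nat_lit 5184, nat_lit 19536, nat_lit 4080, nat_lit 5040, nat_lit 6864, R1_85, R1_105, R10_143⟩]⟩]⟩,
 ⟨nat_lit 7, [⟨nat_lit 7, [⟨nat_lit 7, nat_lit 6720, nat_lit 19104, nat_lit 4752, nat_lit 4464, nat_lit 7392, R1_99, R1_93, R11_154⟩]⟩]⟩]], [], [], [], [[], [], [], [], [], [⟨nat_lit 4, [⟨nat_lit 4, [⟨nat_lit 4, nat_lit 4608, nat_lit 6816, nat_lit 720, nat_lit 1824, nat_lit 4320, R7_15, R4_38, R4_90⟩, ⟨nat_lit 6, nat_lit 4992, nat_lit 6864, nat_lit 6720, nat_lit 12720, nat_lit 10704, R7_140, R3_265, R3_223⟩]⟩, ⟨nat_lit 6, [⟨nat_lit 6, nat_lit 5280, nat_lit 7200, nat_lit 4896, nat_lit 13536, nat_lit 6720, R2_102, R3_282, R10_140⟩]⟩, ⟨nat_lit 7, [⟨nat_lit 4, nat_lit 5808, nat_lit 6912, nat_lit 2112, nat_lit 8544, nat_lit 720, R2_44, R4_178, R5_15⟩]⟩]⟩,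
 ⟨nat_lit 6, [⟨nat_lit 6, [⟨nat_lit 2, nat_lit 5520, nat_lit 7152, nat_lit 15408, nat_lit 16320, nat_lit 5760, R1_321, R1_340, R1_120⟩, ⟨nat_lit 6, nat_lit 5328, nat_lit 7248, nat_lit 3600, nat_lit 19968, nat_lit 6768, R1_75, R10_416, R10_141⟩]⟩]⟩,
 ⟨nat_lit 7, [⟨nat_lit 7, [⟨nat_lit 4, nat_lit 5856, nat_lit 6960, nat_lit 1584, nat_lit 7152, nat_lit 7680, R1_33, R5_149, R5_160⟩, ⟨nat_lit 7, nat_lit 6768, nat_lit 7008, nat_lit 7008, nat_lit 22176, nat_lit 7296, R1_146, R11_462, R11_152⟩]⟩]⟩]]], [[[⟨nat_lit 1, [⟨nat_lit 1, [⟨nat_lit 4, nat_lit 17904, nat_lit 720, nat_lit 6816, nat_lit 4320, nat_lit 1824, R1_142, R4_90, R4_38⟩, ⟨nat_lit 5, nat_lit 18048, nat_lit 6720, nat_lit 6864, nat_lit 10704, nat_lit 12720, R1_143, R3_223, R3_265⟩]⟩, ⟨nat_lit 5, [⟨nat_lit 4, nat_lit 17376, nat_lit 1152, nat_lit 7584, nat_lit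 4272, nat_lit 2064, R10_158, R4_89, R7_43⟩, ⟨nat_lit 5, nat_lit 17520, nat_lit 7152, nat_lit 7680, nat_lit 10752, nat_lit 624, R10_160, R3_224, R2_13⟩]⟩]⟩,
 ⟨nat_lit 5, [⟨nat_lit 5, [⟨nat_lit 4, nat_lit 17424, nat_lit 1200, nat_lit 12336, nat_lit 4512, nat_lit 2016, R1_257, R7_94, R7_42⟩, ⟨nat_lit 5, nat_lit 17568, nat_lit 7200, nat_lit 12432, nat_lit 2928, nat_lit 576, R1_259, R2_61, R2_12⟩, ⟨nat_lit 7, nat_lit 17760, nat_lit 8064, nat_lit 12384, nat_lit 2976, nat_lit 528, R1_258, R2_62, R2_11⟩]⟩]⟩], [⟨nat_lit 1, [⟨nat_lit 5, [⟨nat_lit 4, nat_lit 19296, nat_lit 17184, nat_lit 7632, nat_lit 12048, nat_lit 13248, R10_159, R4_251, R14_276⟩, ⟨nat_lit 5, nat_lit 19776, nat_lit 17424, nat_lit 7728, nat_lit 10992, nat_lit 10512, R10_161, R3_229, R12_219⟩]⟩]⟩,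
 ⟨nat_lit 5, [⟨nat_lit 5, [⟨nat_lit 4, nat_lit 19344, nat_lit 16656, nat_lit 13920, nat_lit 13152, nat_lit 12768, R1_290, R7_274, R14_266⟩, ⟨nat_lit 5, nat_lit 19824, nat_lit 16848, nat_lit 14016, nat_lit 11808, nat_lit 10032, R1_292, R2_246, R12_209⟩, ⟨nat_lit 7, nat_lit 20496, nat_lit 17040, nat_lit 13968, nat_lit 11856, nat_lit 1968, R1_291, R2_247, R12_41⟩]⟩]⟩]], [[], [⟨nat_lit 5, [⟨nat_lit 5, [⟨nat_lit 4, nat_lit 19392, nat_lit 14064, nat_lit 14544, nat_lit 14736, nat_lit 14976, R1_303, R14_307, R14_312⟩, ⟨nat_lit 5, nat_lit 19968, nat_lit 14256, nat_lit 14832, nat_lit 11808, nat_lit 12048, R1_309, R12_246, R12_251⟩, ⟨nat_lit 6, nat_lit 20208, nat_lit 14640, nat_lit 14688, nat_lit 12096, nat_lit 11760, R1_306, R12_252, R12_245⟩, ⟨nat_lit 7, nat_lit 20544, nat_lit 14448, nat_lit 14592, nat_lit 12240, nat_lit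 11616, R1_304, R12_255, R12_242⟩]⟩]⟩]], [[⟨nat_lit 1, [⟨nat_lit 1, [⟨nat_lit 5, nat_lit 18096, nat_lit 4896, nat_lit 7200, nat_lit 6720, nat_lit 13536, R1_150, R10_140, R3_282⟩]⟩, ⟨nat_lit 5, [⟨nat_lit 5, nat_lit 17616, nat_lit 5376, nat_lit 8112, nat_lit 6816, nat_lit 6336, R10_169, R10_142, R2_132⟩]⟩]⟩,
 ⟨nat_lit 5, [⟨nat_lit 5, [⟨nat_lit 5, nat_lit 17664, nat_lit 5424, nat_lit 12528, nat_lit 2400, nat_lit 6288, R1_261, R1_50, R2_131⟩]⟩]⟩], [⟨nat_lit 1, [⟨nat_lit 5, [⟨nat_lit 5, nat_lit 19872, nat_lit 15120, nat_lit 8160, nat_lit 6912, nat_lit 10896, R10_170, R10_144, R12_227⟩]⟩]⟩,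
 ⟨nat_lit 5, [⟨nat_lit 5, [⟨nat_lit 5, nat_lit 19920, nat_lit 15264, nat_lit 15120, nat_lit 12240, nat_lit 10704, R1_315, R1_255, R12_223⟩]⟩]⟩], [⟨nat_lit 1, [⟨nat_lit 1, [⟨nat_lit 1, nat_lit 21504, nat_lit 15408, nat_lit 7152, nat_lit 5760, nat_lit 16320, R1_149, R1_120, R1_340⟩, ⟨nat_lit 5, nat_lit 21408, nat_lit 3600, nat_lit 7248, nat_lit 6768, nat_lit 19968, R1_151, R10_141, R10_416⟩]⟩, ⟨nat_lit 5, [⟨nat_lit 5, nat_lit 21312, nat_lit 4080, nat_lit 8208, nat_lit 6864, nat_lit 5040, R10_171, R10_143, R1_105⟩]⟩]⟩,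
 ⟨nat_lit 5, [⟨nat_lit 5, [⟨nat_lit 5, nat_lit 21360, nat_lit 4128, nat_lit 15888, nat_lit 7776, nat_lit 4992, R1_331, R1_162, R1_104⟩]⟩]⟩]], [[⟨nat_lit 1, [⟨nat_lit 1, [⟨nat_lit 4, nat_lit 17952, nat_lit 2112, nat_lit 6912, nat_lit 720, nat_lit 8544, R1_144, R5_15, R4_178⟩]⟩, ⟨nat_lit 5, [⟨nat_lit 4, nat_lit 17472, nat_lit 336, nat_lit 7776, nat_lit 3120, nat_lit 8592, R10_162, R5_65, R7_179⟩, ⟨nat_lit 7, nat_lit 17808, nat_lit 6048, nat_lit 7872, nat_lit 7344, nat_lit 5760, R10_164, R11_153, R2_120⟩]⟩]⟩,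
 ⟨nat_lit 5, [⟨nat_lit 5, [⟨nat_lit 7, nat_lit 17856, nat_lit 5472, nat_lit 12480, nat_lit 2448, nat_lit 6240, R1_260, R1_51, R2_130⟩]⟩]⟩], [⟨nat_lit 1, [⟨nat_lit 5, [⟨nat_lit 4, nat_lit 19440, nat_lit 7152, nat_lit 7824, nat_lit 14256, nat_lit 13776, R10_163, R5_297, R14_287⟩, ⟨nat_lit 7, nat_lit 20592, nat_lit 7872, nat_lit 7920, nat_lit 7440, nat_lit 5760, R10_165, R11_155, R12_120⟩]⟩]⟩,
 ⟨nat_lit 5, [⟨nat_lit 5, [⟨nat_lit 7, nat_lit 20640, nat_lit 15312, nat_lit 14112, nat_lit 12288, nat_lit 6480, R1_294, R1_256, R12_135⟩]⟩]⟩], [], [⟨nat_lit 1, [⟨nat_lit 1, [⟨nat_lit 4, nat_lit 21840, nat_lit 1584, nat_lit 6960, nat_lit 7680, nat_lit 7152, R1_145, R5_160, R5_149⟩, ⟨nat_lit 7, nat_lit 22176, nat_lit 7008, nat_lit 7008, nat_lit 7296, nat_lit 22176, R1_146, R11_152, R11_462⟩]⟩, ⟨nat_lit 5, [⟨nat_lit 7, nat_lit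 21744, nat_lit 4752, nat_lit 7968, nat_lit 7392, nat_lit 4464, R10_166, R11_154, R1_93⟩]⟩]⟩,
 ⟨nat_lit 5, [⟨nat_lit 5, [⟨nat_lit 7, nat_lit 21792, nat_lit 4176, nat_lit 15600, nat_lit 7824, nat_lit 4944, R1_325, R1_163, R1_103⟩]⟩]⟩]]], [[[], [], [], [], [], [⟨nat_lit 1, [⟨nat_lit 4, [⟨nat_lit 4, nat_lit 4656, nat_lit 8880, nat_lit 8880, nat_lit 15456, nat_lit 15456, R5_185, R4_322, R4_322⟩]⟩, ⟨nat_lit 7, [⟨nat_lit 4, nat_lit 5904, nat_lit 9024, nat_lit 8544, nat_lit 15504, nat_lit 17088, R11_178, R4_323, R5_356⟩]⟩]⟩,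
 ⟨nat_lit 5, [⟨nat_lit 7, [⟨nat_lit 4, nat_lit 5952, nat_lit 16416, nat_lit 8256, nat_lit 17856, nat_lit 12912, R1_172, R7_372, R5_269⟩, ⟨nat_lit 7, nat_lit 6816, nat_lit 16752, nat_lit 8400, nat_lit 15504, nat_lit 7104, R1_175, R2_323, R11_148⟩]⟩]⟩]], [], [], [[], [⟨nat_lit 1, [⟨nat_lit 4, [⟨nat_lit 4, nat_lit 18576, nat_lit 8256, nat_lit 16416, nat_lit 12912, nat_lit 17856, R5_342, R5_269, R7_372⟩, ⟨nat_lit 7, nat_lit 19056, nat_lit 8400, nat_lit 16752, nat_lit 7104, nat_lit 15504, R5_349, R11_148, R2_323⟩]⟩, ⟨nat_lit 7, [⟨nat_lit 7, nat_lit 21216, nat_lit 8832, nat_lit 8688, nat_lit 7152, nat_lit 16512, R11_181, R11_149, R1_344⟩]⟩]⟩,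
 ⟨nat_lit 5, [⟨nat_lit 7, [⟨nat_lit 7, nat_lit 21264, nat_lit 15840, nat_lit 15840, nat_lit 11424, nat_lit 11424, R1_330, R1_238, R1_238⟩]⟩]⟩], [], [], [], [⟨nat_lit 1, [⟨nat_lit 4, [⟨nat_lit 4, nat_lit 4704, nat_lit 8544, nat_lit 9024, nat_lit 17088, nat_lit 15504, R5_188, R5_356, R4_323⟩]⟩, ⟨nat_lit 7, [⟨nat_lit 4, nat_lit 6048, nat_lit 8592, nat_lit 8592, nat_lit 17520, nat_lit 17520, R11_179, R5_365, R5_365⟩, ⟨nat_lit 7, nat_lit 6912, nat_lit 8640, nat_lit 8640, nat_lit 7200, nat_lit 7200, R11_180, R11_150, R11_150⟩]⟩]⟩,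
 ⟨nat_lit 5, [⟨nat_lit 7, [⟨nat_lit 7, nat_lit 6960, nat_lit 8688, nat_lit 8832, nat_lit 16512, nat_lit 7152, R1_184, R1_344, R11_149⟩]⟩]⟩]]], [[], [], [], [], [[], [], [], [], [⟨nat_lit 0, [⟨nat_lit 0, [⟨nat_lit 0, nat_lit 0, nat_lit 11664, nat_lit 11664, nat_lit 3408, nat_lit 480, R6_243, R6_71, R6_10⟩, ⟨nat_lit 3, nat_lit 480, nat_lit 11856, nat_lit 11856, nat_lit 19872, nat_lit 4752, R6_247, R13_414, R13_99⟩]⟩, ⟨nat_lit 3, [⟨nat_lit 3, nat_lit 3264, nat_lit 12144, nat_lit 10560, nat_lit 19920, nat_lit 96, R13_220, R13_415, R3_2⟩]⟩]⟩,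
 ⟨nat_lit 2, [⟨nat_lit 0, [⟨nat_lit 0, nat_lit 48, nat_lit 14736, nat_lit 12672, nat_lit 1488, nat_lit 768, R8_264, R8_31, R6_16⟩, ⟨nat_lit 3, nat_lit 528, nat_lit 14976, nat_lit 12816, nat_lit 16128, nat_lit 4800, R8_267, R9_336, R13_100⟩]⟩, ⟨nat_lit 2, [⟨nat_lit 0, nat_lit 1776, nat_lit 16560, nat_lit 8352, nat_lit 2160, nat_lit 2400, R5_174, R8_45, R8_50⟩, ⟨nat_lit 2, nat_lit 1968, nat_lit 17232, nat_lit 8448, nat_lit 16896, nat_lit 4704, R5_176, R5_352, R5_98⟩, ⟨nat_lit 3, nat_lit 2208, nat_lit 16896, nat_lit 8400, nat_lit 16224, nat_lit 3888, R5_175, R9_338, R9_81⟩]⟩, ⟨nat_lit 3, [⟨nat_lit 3, nat_lit 3312, nat_lit 15600, nat_lit 8112, nat_lit 16176, nat_lit 528, R9_169, R9_337, R3_11⟩]⟩]⟩,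
 ⟨nat_lit 3, [⟨nat_lit 3, [⟨nat_lit 3, nat_lit 3408, nat_lit 13488, nat_lit 11520, nat_lit 2976, nat_lit 240, R3_240, R3_62, R3_5⟩, ⟨nat_lit 7, nat_lit 2544, nat_lit 13200, nat_lit 11184, nat_lit 14592, nat_lit 3216, R3_233, R2_304, R2_67⟩]⟩]⟩], [⟨nat_lit 0, [⟨nat_lit 0, [⟨nat_lit 0, nat_lit 7488, nat_lit 12096, nat_lit 13536, nat_lit 10752, nat_lit 3168, R6_282, R6_224, R4_66⟩, ⟨nat_lit 3, nat_lit 7824, nat_lit 12192, nat_lit 13632, nat_lit 20256, nat_lit 16128, R6_284, R13_422, R3_336⟩]⟩, ⟨nat_lit 3, [⟨nat_lit 3, nat_lit 9504, nat_lit 12336, nat_lit 10656, nat_lit 20304, nat_lit 3168, R13_222, R13_423, R10_66⟩]⟩]⟩,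
 ⟨nat_lit 2, [⟨nat_lit 0, [⟨nat_lit 0, nat_lit 7536, nat_lit 14304, nat_lit 13584, nat_lit 9360, nat_lit 9072, R8_283, R8_195, R4_189⟩, ⟨nat_lit 3, nat_lit 7872, nat_lit 14448, nat_lit 13872, nat_lit 16656, nat_lit 16560, R8_289, R9_347, R3_345⟩]⟩, ⟨nat_lit 2, [⟨nat_lit 0, nat_lit 8400, nat_lit 15216, nat_lit 8928, nat_lit 9840, nat_lit 6288, R5_186, R8_205, R5_131⟩, ⟨nat_lit 2, nat_lit 8544, nat_lit 15504, nat_lit 9024, nat_lit 17088, nat_lit 4704, R5_188, R5_356, R11_98⟩]⟩, ⟨nat_lit 3, [⟨nat_lit 3, nat_lit 9552, nat_lit 14784, nat_lit 8304, nat_lit 16704, nat_lit 3264, R9_173, R9_348, R10_68⟩]⟩]⟩,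
 ⟨nat_lit 3, [⟨nat_lit 3, [⟨nat_lit 3, nat_lit 9648, nat_lit 13296, nat_lit 15312, nat_lit 10464, nat_lit 3216, R3_319, R3_218, R10_67⟩, ⟨nat_lit 7, nat_lit 8976, nat_lit 13200, nat_lit 15216, nat_lit 14832, nat_lit 2688, R3_317, R2_309, R1_56⟩]⟩, ⟨nat_lit 7, [⟨nat_lit 7, nat_lit 7008, nat_lit 12768, nat_lit 7872, nat_lit 14880, nat_lit 6528, R2_164, R2_310, R11_136⟩]⟩]⟩], [⟨nat_lit 0, [⟨nat_lit 0, [⟨nat_lit 0, nat_lit 10368, nat_lit 12672, nat_lit 14736, nat_lit 8448, nat_lit 1488, R6_307, R6_176, R8_31⟩, ⟨nat_lit 3, nat_lit 11616, nat_lit 12816, nat_lit 14976, nat_lit 20160, nat_lit 16128, R6_312, R13_420, R9_336⟩]⟩]⟩,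
 ⟨nat_lit 2, [⟨nat_lit 0, [⟨nat_lit 0, nat_lit 10416, nat_lit 16848, nat_lit 16848, nat_lit 6288, nat_lit 6288, R8_351, R8_131, R8_131⟩, ⟨nat_lit 3, nat_lit 11664, nat_lit 17136, nat_lit 17136, nat_lit 16560, nat_lit 16560, R8_357, R9_345, R9_345⟩]⟩, ⟨nat_lit 2, [⟨nat_lit 0, nat_lit 13440, nat_lit 16992, nat_lit 9696, nat_lit 6672, nat_lit 1152, R5_202, R8_139, R9_24⟩]⟩]⟩]], [], [], [[], [], [], [], [⟨nat_lit 0, [⟨nat_lit 0, [⟨nat_lit 3, nat_lit 624, nat_lit 10560, nat_lit 12144, nat_lit 96, nat_lit 5376, R6_253, R3_2, R13_112⟩]⟩, ⟨nat_lit 3, [⟨nat_lit 3, nat_lit 3456, nat_lit 11328, nat_lit 11328, nat_lit 3840, nat_lit 3840, R13_236, R3_80, R3_80⟩, ⟨nat_lit 7, nat_lit 2592, nat_lit 11376, nat_lit 11376, nat_lit 3792, nat_lit 3792, R13_237, R2_79, R2_79⟩]⟩]⟩,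
 ⟨nat_lit 3, [⟨nat_lit 3, [⟨nat_lit 7, nat_lit 2688, nat_lit 12000, nat_lit 12096, nat_lit 16848, nat_lit 3840, R3_252, R12_351, R2_80⟩]⟩]⟩], [⟨nat_lit 0, [⟨nat_lit 0, [⟨nat_lit 3, nat_lit 7968, nat_lit 8592, nat_lit 13920, nat_lit 672, nat_lit 16176, R6_290, R3_14, R3_337⟩]⟩, ⟨nat_lit 3, [⟨nat_lit 3, nat_lit 9696, nat_lit 8928, nat_lit 11664, nat_lit 4272, nat_lit 3792, R13_243, R3_89, R10_79⟩, ⟨nat_lit 7, nat_lit 9024, nat_lit 8976, nat_lit 11712, nat_lit 3888, nat_lit 3264, R13_244, R2_81, R1_68⟩]⟩]⟩,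
 ⟨nat_lit 3, [⟨nat_lit 3, [⟨nat_lit 7, nat_lit 9120, nat_lit 9216, nat_lit 15552, nat_lit 16992, nat_lit 3312, R3_324, R12_354, R1_69⟩]⟩]⟩]]], [[], [], [], [], [[], [], [], [], [⟨nat_lit 0, [⟨nat_lit 0, [⟨nat_lit 0, nat_lit 288, nat_lit 3264, nat_lit 0, nat_lit 3792, nat_lit 2784, R4_0, R6_79, R6_58⟩, ⟨nat_lit 3, nat_lit 1056, nat_lit 8112, nat_lit 5232, nat_lit 20592, nat_lit 8544, R4_109, R13_429, R13_178⟩]⟩, ⟨nat_lit 3, [⟨nat_lit 3, nat_lit 3840, nat_lit 8208, nat_lit 3984, nat_lit 20640, nat_lit 2352, R3_83, R13_430, R3_49⟩]⟩]⟩,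
 ⟨nat_lit 2, [⟨nat_lit 0, [⟨nat_lit 0, nat_lit 336, nat_lit 3600, nat_lit 1872, nat_lit 1536, nat_lit 2928, R5_39, R8_32, R6_61⟩, ⟨nat_lit 3, nat_lit 1104, nat_lit 8832, nat_lit 10368, nat_lit 16992, nat_lit 8592, R5_216, R9_354, R13_179⟩]⟩, ⟨nat_lit 2, [⟨nat_lit 0, nat_lit 1872, nat_lit 3648, nat_lit 10800, nat_lit 2208, nat_lit 2544, R11_225, R8_46, R8_53⟩, ⟨nat_lit 2, nat_lit 2064, nat_lit 10896, nat_lit 10896, nat_lit 17232, nat_lit 6432, R11_227, R5_359, R5_134⟩, ⟨nat_lit 3, nat_lit 2400, nat_lit 8928, nat_lit 10848, nat_lit 17088, nat_lit 6192, R11_226, R9_356, R9_129⟩]⟩]⟩,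
 ⟨nat_lit 3, [⟨nat_lit 3, [⟨nat_lit 3, nat_lit 3936, nat_lit 8400, nat_lit 9072, nat_lit 3312, nat_lit 2496, R10_189, R3_69, R3_52⟩, ⟨nat_lit 7, nat_lit 2928, nat_lit 15024, nat_lit 9120, nat_lit 15168, nat_lit 6432, R10_190, R2_316, R2_134⟩]⟩]⟩], [⟨nat_lit 0, [⟨nat_lit 0, [⟨nat_lit 0, nat_lit 7632, nat_lit 14496, nat_lit 48, nat_lit 10800, nat_lit 4368, R4_1, R6_225, R4_91⟩, ⟨nat_lit 3, nat_lit 8112, nat_lit 14688, nat_lit 5280, nat_lit 21216, nat_lit 17472, R4_110, R13_442, R3_364⟩]⟩, ⟨nat_lit 3, [⟨nat_lit 3, nat_lit 9840, nat_lit 14736, nat_lit 4032, nat_lit 21264, nat_lit 5856, R3_84, R13_443, R10_122⟩]⟩]⟩,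
 ⟨nat_lit 2, [⟨nat_lit 0, [⟨nat_lit 0, nat_lit 7680, nat_lit 17184, nat_lit 2064, nat_lit 9408, nat_lit 10656, R5_43, R8_196, R4_222⟩, ⟨nat_lit 3, nat_lit 8160, nat_lit 17328, nat_lit 10848, nat_lit 17568, nat_lit 17856, R5_226, R9_366, R3_372⟩]⟩, ⟨nat_lit 2, [⟨nat_lit 0, nat_lit 8448, nat_lit 17232, nat_lit 11376, nat_lit 9888, nat_lit 6432, R11_237, R8_206, R5_134⟩, ⟨nat_lit 2, nat_lit 8592, nat_lit 17520, nat_lit 11472, nat_lit 17520, nat_lit 6048, R11_239, R5_365, R11_126⟩]⟩]⟩,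
 ⟨nat_lit 3, [⟨nat_lit 3, [⟨nat_lit 3, nat_lit 9936, nat_lit 16512, nat_lit 9360, nat_lit 10512, nat_lit 5904, R10_195, R3_219, R10_123⟩]⟩, ⟨nat_lit 7, [⟨nat_lit 7, nat_lit 7104, nat_lit 16752, nat_lit 8400, nat_lit 15504, nat_lit 6816, R1_175, R2_323, R11_142⟩]⟩]⟩]], [[], [], [], [], [⟨nat_lit 0, [⟨nat_lit 0, [⟨nat_lit 0, nat_lit 384, nat_lit 4752, nat_lit 480, nat_lit 960, nat_lit 10416, R4_10, R4_20, R6_217⟩, ⟨nat_lit 3, nat_lit 1152, nat_lit 5040, nat_lit 6864, nat_lit 4656, nat_lit 9504, R4_143, R3_97, R13_198⟩]⟩, ⟨nat_lit 3, [⟨nat_lit 3, nat_lit 3984, nat_lit 5760, nat_lit 5712, nat_lit 5328, nat_lit 9984, R3_119, R3_111, R3_208⟩]⟩]⟩,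
 ⟨nat_lit 2, [⟨nat_lit 0, [⟨nat_lit 0, nat_lit 432, nat_lit 4800, nat_lit 1920, nat_lit 288, nat_lit 10464, R5_40, R5_6, R6_218⟩]⟩, ⟨nat_lit 2, [⟨nat_lit 0, nat_lit 1920, nat_lit 6480, nat_lit 12768, nat_lit 6480, nat_lit 10128, R11_266, R5_135, R8_211⟩, ⟨nat_lit 2, nat_lit 2112, nat_lit 7584, nat_lit 12864, nat_lit 21936, nat_lit 7296, R11_268, R11_457, R5_152⟩]⟩]⟩,
 ⟨nat_lit 3, [⟨nat_lit 3, [⟨nat_lit 3, nat_lit 4080, nat_lit 5808, nat_lit 9984, nat_lit 19728, nat_lit 10128, R10_208, R10_411, R3_211⟩]⟩]⟩], [⟨nat_lit 0, [⟨nat_lit 0, [⟨nat_lit 0, nat_lit 7728, nat_lit 4752, nat_lit 528, nat_lit 1392, nat_lit 4416, R4_11, R4_29, R4_92⟩, ⟨nat_lit 3, nat_lit 8208, nat_lit 5040, nat_lit 6912, nat_lit 4752, nat_lit 17568, R4_144, R3_99, R3_366⟩]⟩, ⟨nat_lit 3, [⟨nat_lit 3, nat_lit 9984, nat_lit 5376, nat_lit 5760,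 nat_lit 5424, nat_lit 6576, R3_120, R3_113, R10_137⟩]⟩]⟩,
 ⟨nat_lit 2, [⟨nat_lit 0, [⟨nat_lit 0, nat_lit 7776, nat_lit 4800, nat_lit 2112, nat_lit 624, nat_lit 10704, R5_44, R5_13, R4_223⟩]⟩, ⟨nat_lit 2, [⟨nat_lit 0, nat_lit 8496, nat_lit 6096, nat_lit 12912, nat_lit 7584, nat_lit 7296, R11_269, R5_158, R5_152⟩, ⟨nat_lit 2, nat_lit 8640, nat_lit 7200, nat_lit 13008, nat_lit 22224, nat_lit 6912, R11_271, R11_463, R11_144⟩]⟩]⟩,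
 ⟨nat_lit 3, [⟨nat_lit 3, [⟨nat_lit 3, nat_lit 10080, nat_lit 5424, nat_lit 10128, nat_lit 20016, nat_lit 6624, R10_211, R10_417, R10_138⟩, ⟨nat_lit 7, nat_lit 9216, nat_lit 5568, nat_lit 10176, nat_lit 16464, nat_lit 5712, R10_212, R1_343, R1_119⟩]⟩, ⟨nat_lit 7, [⟨nat_lit 7, nat_lit 7152, nat_lit 8688, nat_lit 8832, nat_lit 16512, nat_lit 6960, R1_184, R1_344, R11_145⟩]⟩]⟩,
 ⟨nat_lit 4, [⟨nat_lit 4, [⟨nat_lit 4, nat_lit 4752, nat_lit 7728, nat_lit 528, nat_lit 1392, nat_lit 4416, R4_11, R4_29, R4_92⟩, ⟨nat_lit 6, nat_lit 5040, nat_lit 8208, nat_lit 6912, nat_lit 4752, nat_lit 17568, R4_144, R3_99, R3_366⟩]⟩, ⟨nat_lit 6, [⟨nat_lit 6, nat_lit 5376, nat_lit 9984, nat_lit 5760, nat_lit 5424, nat_lit 6576, R3_120, R3_113, R10_137⟩]⟩]⟩,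
 ⟨nat_lit 6, [⟨nat_lit 2, [⟨nat_lit 2, nat_lit 8688, nat_lit 7152, nat_lit 8832, nat_lit 16512, nat_lit 6960, R1_184, R1_344, R11_145⟩]⟩, ⟨nat_lit 6, [⟨nat_lit 2, nat_lit 5568, nat_lit 9216, nat_lit 10176, nat_lit 16464, nat_lit 5712, R10_212, R1_343, R1_119⟩, ⟨nat_lit 6, nat_lit 5424, nat_lit 10080, nat_lit 10128, nat_lit 20016, nat_lit 6624, R10_211, R10_417, R10_138⟩]⟩]⟩,
 ⟨nat_lit 7, [⟨nat_lit 4, [⟨nat_lit 4, nat_lit 4800, nat_lit 7776, nat_lit 2112, nat_lit 624, nat_lit 10704, R5_44, R5_13, R4_223⟩]⟩, ⟨nat_lit 7, [⟨nat_lit 4, nat_lit 6096, nat_lit 8496, nat_lit 12912, nat_lit 7584, nat_lit 7296, R11_269, R5_158, R5_152⟩, ⟨nat_lit 7, nat_lit 7200, nat_lit 8640, nat_lit 13008, nat_lit 22224, nat_lit 6912, R11_271, R11_463, R11_144⟩]⟩]⟩]], [], [[], [], [], [], [⟨nat_lit 0, [⟨nat_lit 0, [⟨nat_lit 3, nat_lit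 1248, nat_lit 4464, nat_lit 6384, nat_lit 816, nat_lit 8976, R4_133, R3_17, R13_187⟩]⟩, ⟨nat_lit 3, [⟨nat_lit 3, nat_lit 4128, nat_lit 5472, nat_lit 6240, nat_lit 6144, nat_lit 7248, R3_130, R3_128, R3_151⟩, ⟨nat_lit 7, nat_lit 3024, nat_lit 5856, nat_lit 6720, nat_lit 4608, nat_lit 6768, R3_140, R2_96, R2_141⟩]⟩]⟩,
 ⟨nat_lit 3, [⟨nat_lit 3, [⟨nat_lit 7, nat_lit 3072, nat_lit 5904, nat_lit 10608, nat_lit 17040, nat_lit 6816, R10_221, R12_355, R2_142⟩]⟩]⟩]]], [[], [], [], [], [[], [], [], [], [⟨nat_lit 0, [⟨nat_lit 0, [⟨nat_lit 0, nat_lit 144, nat_lit 0, nat_lit 3264, nat_lit 4272, nat_lit 1056, R8_68, R6_89, R6_22⟩, ⟨nat_lit 3, nat_lit 768, nat_lit 5232, nat_lit 8112, nat_lit 21408, nat_lit 6384, R8_169, R13_446, R13_133⟩]⟩, ⟨nat_lit 1, [⟨nat_lit 0, nat_lit 1344, nat_lit 480, nat_lit 4752, nat_lit 4320, nat_lit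 960, R5_99, R6_90, R4_20⟩, ⟨nat_lit 3, nat_lit 1488, nat_lit 6864, nat_lit 5040, nat_lit 21504, nat_lit 4656, R5_105, R13_448, R3_97⟩]⟩, ⟨nat_lit 3, [⟨nat_lit 3, nat_lit 3600, nat_lit 6384, nat_lit 4464, nat_lit 21456, nat_lit 816, R9_93, R13_447, R3_17⟩]⟩]⟩,
 ⟨nat_lit 2, [⟨nat_lit 0, [⟨nat_lit 0, nat_lit 192, nat_lit 192, nat_lit 13584, nat_lit 1584, nat_lit 1344, R9_283, R8_33, R6_28⟩, ⟨nat_lit 3, nat_lit 816, nat_lit 5424, nat_lit 13824, nat_lit 17808, nat_lit 6432, R9_288, R9_371, R13_134⟩]⟩]⟩]], [], [], [[], [], [], [], [⟨nat_lit 0, [⟨nat_lit 0, [⟨nat_lit 3, nat_lit 912, nat_lit 3984, nat_lit 8208, nat_lit 2352, nat_lit 6960, R8_171, R3_49, R13_145⟩]⟩, ⟨nat_lit 1, [⟨nat_lit 3, nat_lit 1632, nat_lit 5712, nat_lit 5760, nat_lit 9984, nat_lit 5328, R5_120, R3_208, R3_111⟩]⟩, ⟨nat_lit 3, [⟨nat_lit 3, nat_lit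 3744, nat_lit 6240, nat_lit 5472, nat_lit 7248, nat_lit 6144, R9_114, R3_151, R3_128⟩, ⟨nat_lit 7, nat_lit 2784, nat_lit 6720, nat_lit 5856, nat_lit 6768, nat_lit 4608, R9_122, R2_141, R2_96⟩]⟩]⟩]]], [[], [], [], [[], [], [], [], [⟨nat_lit 1, [⟨nat_lit 3, [⟨nat_lit 7, nat_lit 3120, nat_lit 6048, nat_lit 7872, nat_lit 6624, nat_lit 5760, R10_164, R11_138, R2_120⟩]⟩]⟩], [⟨nat_lit 1, [⟨nat_lit 3, [⟨nat_lit 7, nat_lit 9360, nat_lit 4752, nat_lit 7968, nat_lit 6720, nat_lit 4464, R10_166, R11_140, R1_93⟩]⟩, ⟨nat_lit 7, [⟨nat_lit 4, nat_lit 6144, nat_lit 6432, nat_lit 6432, nat_lit 17472, nat_lit 17472, R1_134, R5_364, R5_364⟩, ⟨nat_lit 7, nat_lit 7296, nat_lit 7008, nat_lit 7008, nat_lit 6768, nat_lit 6768, R1_146, R11_141, R11_141⟩]⟩]⟩]], [], [], [], [[], [], [], [], [⟨nat_lit 0, [⟨nat_lit 3, [⟨nat_lit 3, nat_lit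 4224, nat_lit 4992, nat_lit 4992, nat_lit 5568, nat_lit 5568, R3_104, R3_116, R3_116⟩, ⟨nat_lit 7, nat_lit 3168, nat_lit 13200, nat_lit 13200, nat_lit 5088, nat_lit 5088, R3_275, R2_106, R2_106⟩]⟩]⟩,
 ⟨nat_lit 1, [⟨nat_lit 3, [⟨nat_lit 3, nat_lit 4320, nat_lit 5040, nat_lit 4848, nat_lit 4464, nat_lit 6000, R10_101, R10_93, R3_125⟩]⟩]⟩], [⟨nat_lit 0, [⟨nat_lit 3, [⟨nat_lit 3, nat_lit 10224, nat_lit 4848, nat_lit 5040, nat_lit 6000, nat_lit 4464, R3_105, R3_125, R10_93⟩, ⟨nat_lit 7, nat_lit 9408, nat_lit 5424, nat_lit 13344, nat_lit 5136, nat_lit 3792, R3_278, R2_107, R1_79⟩]⟩, ⟨nat_lit 7, [⟨nat_lit 7, nat_lit 7344, nat_lit 7872, nat_lit 6048, nat_lit 5760, nat_lit 6624, R2_126, R2_120, R11_138⟩]⟩]⟩,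
 ⟨nat_lit 1, [⟨nat_lit 3, [⟨nat_lit 3, nat_lit 10320, nat_lit 4896, nat_lit 4896, nat_lit 4560, nat_lit 4560, R10_102, R10_95, R10_95⟩, ⟨nat_lit 7, nat_lit 9456, nat_lit 5472, nat_lit 5472, nat_lit 3840, nat_lit 3840, R10_114, R1_80, R1_80⟩]⟩, ⟨nat_lit 7, [⟨nat_lit 7, nat_lit 7392, nat_lit 7968, nat_lit 4752, nat_lit 4464, nat_lit 6720, R1_99, R1_93, R11_140⟩]⟩]⟩,
 ⟨nat_lit 3, [⟨nat_lit 7, [⟨nat_lit 7, nat_lit 7440, nat_lit 7920, nat_lit 7872, nat_lit 17232, nat_lit 6672, R12_164, R12_359, R11_139⟩]⟩]⟩]]]]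
noncomputable def N6622 : T3 (List N0) := [[[[], [⟨nat_lit 0, [⟨nat_lit 1, [⟨nat_lit 0, nat_lit 13152, nat_lit 1728, nat_lit 1344, nat_lit 4128, nat_lit 4512, R7_28, R6_86, R5_94⟩, ⟨nat_lit 1, nat_lit 13200, nat_lit 1776, nat_lit 1536, nat_lit 4272, nat_lit 4512, R7_32, R4_89, R11_94⟩]⟩]⟩,
 ⟨nat_lit 3, [⟨nat_lit 1, [⟨nat_lit 0, nat_lit 13296, nat_lit 8352, nat_lit 192, nat_lit 14400, nat_lit 4896, R2_4, R13_300, R5_102⟩, ⟨nat_lit 1, nat_lit 13344, nat_lit 8400, nat_lit 624, nat_lit 10752, nat_lit 4896, R2_13, R3_224, R11_102⟩]⟩]⟩], [], [], [], [⟨nat_lit 0, [⟨nat_lit 1, [⟨nat_lit 1, nat_lit 13968, nat_lit 1680, nat_lit 960, nat_lit 2976, nat_lit 3456, R7_20, R4_62, R1_72⟩]⟩, ⟨nat_lit 5, [⟨nat_lit 1, nat_lit 14064, nat_lit 1152, nat_lit 912, nat_lit 2832, nat_lit 672, R4_19, R4_59, R10_14⟩]⟩]⟩,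
 ⟨nat_lit 3, [⟨nat_lit 1, [⟨nat_lit 1, nat_lit 14016, nat_lit 8400, nat_lit 2352, nat_lit 9792, nat_lit 3504, R2_49, R3_204, R1_73⟩]⟩]⟩]], [[], [⟨nat_lit 0, [⟨nat_lit 1, [⟨nat_lit 0, nat_lit 13440, nat_lit 288, nat_lit 7344, nat_lit 11232, nat_lit 6096, R7_153, R8_234, R5_127⟩, ⟨nat_lit 1, nat_lit 13488, nat_lit 336, nat_lit 7536, nat_lit 3120, nat_lit 5712, R7_157, R5_65, R11_119⟩]⟩]⟩,
 ⟨nat_lit 1, [⟨nat_lit 1, [⟨nat_lit 0, nat_lit 13584, nat_lit 6000, nat_lit 5568, nat_lit 7728, nat_lit 7008, R2_116, R5_161, R5_146⟩, ⟨nat_lit 1, nat_lit 13632, nat_lit 6048, nat_lit 5760, nat_lit 7344, nat_lit 6624, R2_120, R11_153, R11_138⟩]⟩]⟩,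
 ⟨nat_lit 3, [⟨nat_lit 1, [⟨nat_lit 0, nat_lit 13728, nat_lit 7296, nat_lit 7200, nat_lit 7632, nat_lit 6624, R2_150, R9_159, R5_138⟩]⟩]⟩], [], [], [], [⟨nat_lit 0, [⟨nat_lit 1, [⟨nat_lit 1, nat_lit 14112, nat_lit 12576, nat_lit 6960, nat_lit 3216, nat_lit 3648, R7_145, R5_67, R1_76⟩]⟩, ⟨nat_lit 5, [⟨nat_lit 1, nat_lit 14256, nat_lit 4464, nat_lit 7296, nat_lit 4320, nat_lit 816, R4_152, R5_90, R10_17⟩]⟩]⟩,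
 ⟨nat_lit 1, [⟨nat_lit 1, [⟨nat_lit 1, nat_lit 14160, nat_lit 13344, nat_lit 5136, nat_lit 9408, nat_lit 3792, R2_107, R11_196, R1_79⟩]⟩, ⟨nat_lit 5, [⟨nat_lit 1, nat_lit 14304, nat_lit 5040, nat_lit 6000, nat_lit 10224, nat_lit 864, R3_125, R11_213, R10_18⟩]⟩]⟩]], [], [[], [⟨nat_lit 3, [⟨nat_lit 1, [⟨nat_lit 0, nat_lit 13824, nat_lit 5328, nat_lit 5904, nat_lit 9888, nat_lit 5520, R2_123, R3_206, R5_115⟩, ⟨nat_lit 1, nat_lit 13872, nat_lit 5376, nat_lit 6336, nat_lit 6816, nat_lit 5136, R2_132, R10_142, R11_107⟩]⟩]⟩]]], [[], [[], [⟨nat_lit 1, [⟨nat_lit 1, [⟨nat_lit 0, nat_lit 19056, nat_lit 4704, nat_lit 4272, nat_lit 7776, nat_lit 7104, R1_89, R5_162, R5_148⟩, ⟨nat_lit 1, nat_lit 19104, nat_lit 4752, nat_lit 4464, nat_lit 7392, nat_lit 6720, R1_93, R11_154, R11_140⟩]⟩]⟩], [], [], [], [⟨nat_lit 1, [⟨nat_lit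 1, [⟨nat_lit 1, nat_lit 19200, nat_lit 5472, nat_lit 3840, nat_lit 9456, nat_lit 3840, R1_80, R11_197, R1_80⟩]⟩, ⟨nat_lit 5, [⟨nat_lit 1, nat_lit 19248, nat_lit 4896, nat_lit 4560, nat_lit 10320, nat_lit 12672, R10_95, R11_215, R10_264⟩]⟩]⟩]], [], [], [], [[], [], [], [], [], [⟨nat_lit 1, [⟨nat_lit 1, [⟨nat_lit 1, nat_lit 19296, nat_lit 15648, nat_lit 15504, nat_lit 7872, nat_lit 3888, R1_323, R1_164, R1_81⟩]⟩, ⟨nat_lit 5, [⟨nat_lit 1, nat_lit 19344, nat_lit 15696, nat_lit 18864, nat_lit 7920, nat_lit 12624, R10_393, R1_165, R10_263⟩]⟩]⟩,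
 ⟨nat_lit 5, [⟨nat_lit 5, [⟨nat_lit 1, nat_lit 19392, nat_lit 15744, nat_lit 11520, nat_lit 18960, nat_lit 12576, R1_240, R10_395, R10_262⟩, ⟨nat_lit 5, nat_lit 19440, nat_lit 15792, nat_lit 11472, nat_lit 15552, nat_lit 11376, R1_239, R1_324, R1_237⟩]⟩]⟩]]], [[[⟨nat_lit 0, [⟨nat_lit 0, [⟨nat_lit 0, nat_lit 14352, nat_lit 13440, nat_lit 2112, nat_lit 10656, nat_lit 13728, R7_44, R6_222, R6_286⟩, ⟨nat_lit 1, nat_lit 14400, nat_lit 14256, nat_lit 11424, nat_lit 11520, nat_lit 13488, R7_238, R4_240, R4_281⟩, ⟨nat_lit 2, nat_lit 14448, nat_lit 16752, nat_lit 7584, nat_lit 11376, nat_lit 13008, R7_158, R8_237, R8_271⟩]⟩]⟩,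
 ⟨nat_lit 2, [⟨nat_lit 0, [⟨nat_lit 2, nat_lit 14496, nat_lit 16944, nat_lit 6384, nat_lit 12960, nat_lit 13248, R2_133, R5_270, R8_276⟩]⟩, ⟨nat_lit 2, [⟨nat_lit 2, nat_lit 14688, nat_lit 17184, nat_lit 5088, nat_lit 13008, nat_lit 16272, R1_106, R5_271, R5_339⟩]⟩]⟩,
 ⟨nat_lit 3, [⟨nat_lit 0, [⟨nat_lit 0, nat_lit 14544, nat_lit 13536, nat_lit 912, nat_lit 13632, nat_lit 13824, R2_19, R13_284, R6_288⟩, ⟨nat_lit 1, nat_lit 14592, nat_lit 14352, nat_lit 10800, nat_lit 10368, nat_lit 13632, R2_225, R3_216, R4_284⟩, ⟨nat_lit 2, nat_lit 14640, nat_lit 16848, nat_lit 8016, nat_lit 11184, nat_lit 13104, R2_167, R9_233, R8_273⟩]⟩, ⟨nat_lit 3, [⟨nat_lit 0, nat_lit 14736, nat_lit 13632, nat_lit 240, nat_lit 13680, nat_lit 19152, R1_5, R13_285, R13_399⟩, ⟨nat_lit 1, nat_lit 14784, nat_lit 14496, nat_lit 11184, nat_lit 10416,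 nat_lit 15408, R1_233, R3_217, R3_321⟩, ⟨nat_lit 2, nat_lit 14832, nat_lit 16992, nat_lit 8544, nat_lit 11232, nat_lit 15504, R1_178, R9_234, R9_323⟩, ⟨nat_lit 3, nat_lit 14880, nat_lit 14976, nat_lit 5952, nat_lit 10320, nat_lit 15456, R1_124, R3_215, R3_322⟩]⟩]⟩], [⟨nat_lit 0, [⟨nat_lit 0, [⟨nat_lit 0, nat_lit 15648, nat_lit 8352, nat_lit 2304, nat_lit 11376, nat_lit 1200, R7_48, R6_237, R8_25⟩, ⟨nat_lit 1, nat_lit 15696, nat_lit 8496, nat_lit 11616, nat_lit 11952, nat_lit 14976, R7_242, R4_249, R5_312⟩, ⟨nat_lit 2, nat_lit 15744, nat_lit 8976, nat_lit 7728, nat_lit 11520, nat_lit 14160, R7_161, R8_240, R9_295⟩]⟩, ⟨nat_lit 1, [⟨nat_lit 0, nat_lit 15984, nat_lit 8400, nat_lit 18672, nat_lit 11616, nat_lit 4560, R14_389, R6_242, R5_95⟩, ⟨nat_lit 1, nat_lit 16032, nat_lit 8544, nat_lit 19584, nat_lit 12048, nat_lit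 4560, R14_408, R4_251, R11_95⟩]⟩]⟩,
 ⟨nat_lit 2, [⟨nat_lit 0, [⟨nat_lit 2, nat_lit 15792, nat_lit 11280, nat_lit 6576, nat_lit 14016, nat_lit 14784, R2_137, R5_292, R9_308⟩]⟩]⟩,
 ⟨nat_lit 3, [⟨nat_lit 0, [⟨nat_lit 0, nat_lit 15840, nat_lit 9600, nat_lit 2448, nat_lit 14880, nat_lit 7104, R2_51, R13_310, R8_148⟩, ⟨nat_lit 1, nat_lit 15888, nat_lit 9840, nat_lit 11136, nat_lit 10896, nat_lit 15456, R2_232, R3_227, R5_322⟩, ⟨nat_lit 2, nat_lit 15936, nat_lit 10752, nat_lit 10080, nat_lit 12720, nat_lit 14448, R2_210, R9_265, R9_301⟩]⟩, ⟨nat_lit 1, [⟨nat_lit 0, nat_lit 16176, nat_lit 9696, nat_lit 336, nat_lit 14976, nat_lit 4944, R12_7, R13_312, R5_103⟩, ⟨nat_lit 1, nat_lit 16224, nat_lit 9936, nat_lit 2400, nat_lit 10992, nat_lit 4944, R12_50, R3_229, R11_103⟩]⟩, ⟨nat_lit 3, [⟨nat_lit 0, nat_lit 16368, nat_lit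 9648, nat_lit 1920, nat_lit 14928, nat_lit 4080, R1_40, R13_311, R9_85⟩]⟩]⟩]], [[], [⟨nat_lit 0, [⟨nat_lit 0, [⟨nat_lit 0, nat_lit 16512, nat_lit 6960, nat_lit 2400, nat_lit 3984, nat_lit 1392, R7_50, R8_83, R8_29⟩, ⟨nat_lit 1, nat_lit 16560, nat_lit 7104, nat_lit 11712, nat_lit 13728, nat_lit 15120, R7_244, R5_286, R5_315⟩, ⟨nat_lit 2, nat_lit 16608, nat_lit 7584, nat_lit 7824, nat_lit 12288, nat_lit 14256, R7_163, R9_256, R9_297⟩]⟩, ⟨nat_lit 1, [⟨nat_lit 0, nat_lit 16800, nat_lit 7008, nat_lit 20160, nat_lit 11952, nat_lit 6144, R14_420, R8_249, R5_128⟩, ⟨nat_lit 1, nat_lit 16848, nat_lit 7152, nat_lit 21456, nat_lit 14256, nat_lit 5760, R14_447, R5_297, R11_120⟩]⟩]⟩,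
 ⟨nat_lit 1, [⟨nat_lit 1, [⟨nat_lit 0, nat_lit 16944, nat_lit 7824, nat_lit 15936, nat_lit 7824, nat_lit 7056, R12_332, R5_163, R5_147⟩, ⟨nat_lit 1, nat_lit 16992, nat_lit 7872, nat_lit 17232, nat_lit 7440, nat_lit 6672, R12_359, R11_155, R11_139⟩]⟩]⟩,
 ⟨nat_lit 3, [⟨nat_lit 0, [⟨nat_lit 0, nat_lit 16704, nat_lit 8496, nat_lit 2592, nat_lit 6480, nat_lit 7344, R2_54, R9_135, R8_153⟩]⟩, ⟨nat_lit 1, [⟨nat_lit 0, nat_lit 17136, nat_lit 8592, nat_lit 7440, nat_lit 7680, nat_lit 6672, R12_155, R9_160, R5_139⟩]⟩]⟩]], [[⟨nat_lit 0, [⟨nat_lit 0, [⟨nat_lit 0, nat_lit 14928, nat_lit 12144, nat_lit 2160, nat_lit 384, nat_lit 14112, R7_45, R4_8, R6_294⟩, ⟨nat_lit 2, nat_lit 14976, nat_lit 14976, nat_lit 7632, nat_lit 2928, nat_lit 13056, R7_159, R5_61, R8_272⟩]⟩]⟩,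
 ⟨nat_lit 2, [⟨nat_lit 0, [⟨nat_lit 2, nat_lit 15024, nat_lit 15168, nat_lit 6432, nat_lit 15888, nat_lit 13296, R2_134, R11_331, R8_277⟩]⟩, ⟨nat_lit 2, [⟨nat_lit 2, nat_lit 15168, nat_lit 15456, nat_lit 5136, nat_lit 15936, nat_lit 16608, R1_107, R11_332, R5_346⟩]⟩]⟩,
 ⟨nat_lit 3, [⟨nat_lit 0, [⟨nat_lit 0, nat_lit 15072, nat_lit 12240, nat_lit 1056, nat_lit 3696, nat_lit 14256, R2_22, R3_77, R6_297⟩]⟩, ⟨nat_lit 3, [⟨nat_lit 0, nat_lit 15216, nat_lit 12384, nat_lit 384, nat_lit 4224, nat_lit 19536, R1_8, R3_88, R13_407⟩, ⟨nat_lit 3, nat_lit 15312, nat_lit 14160, nat_lit 6048, nat_lit 12336, nat_lit 15792, R1_126, R10_257, R3_329⟩]⟩]⟩], [⟨nat_lit 0, [⟨nat_lit 0, [⟨nat_lit 0, nat_lit 17424, nat_lit 2832, nat_lit 2544, nat_lit 2688, nat_lit 1296, R7_53, R4_56, R8_27⟩, ⟨nat_lit 2, nat_lit 17472, nat_lit 4224, nat_lit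 7968, nat_lit 3072, nat_lit 14208, R7_166, R5_64, R9_296⟩]⟩, ⟨nat_lit 1, [⟨nat_lit 0, nat_lit 17664, nat_lit 2880, nat_lit 21744, nat_lit 11472, nat_lit 5280, R14_453, R4_239, R5_110⟩]⟩]⟩,
 ⟨nat_lit 2, [⟨nat_lit 0, [⟨nat_lit 2, nat_lit 17520, nat_lit 5568, nat_lit 6816, nat_lit 17088, nat_lit 14832, R2_142, R11_356, R9_309⟩]⟩]⟩,
 ⟨nat_lit 3, [⟨nat_lit 0, [⟨nat_lit 0, nat_lit 17568, nat_lit 3264, nat_lit 2880, nat_lit 7104, nat_lit 7248, R2_60, R3_148, R8_151⟩]⟩, ⟨nat_lit 1, [⟨nat_lit 0, nat_lit 17808, nat_lit 3360, nat_lit 10368, nat_lit 7584, nat_lit 5472, R12_216, R3_158, R5_114⟩]⟩, ⟨nat_lit 3, [⟨nat_lit 0, nat_lit 17952, nat_lit 3312, nat_lit 2352, nat_lit 7488, nat_lit 4992, R1_49, R3_156, R9_104⟩]⟩]⟩], [⟨nat_lit 0, [⟨nat_lit 0, [⟨nat_lit 0, nat_lit 18432, nat_lit 12720, nat_lit 2736, nat_lit 1296, nat_lit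 624, R7_57, R4_27, R4_13⟩, ⟨nat_lit 2, nat_lit 18480, nat_lit 15984, nat_lit 8016, nat_lit 2976, nat_lit 240, R7_167, R5_62, R5_5⟩]⟩]⟩,
 ⟨nat_lit 2, [⟨nat_lit 0, [⟨nat_lit 2, nat_lit 18528, nat_lit 16176, nat_lit 7008, nat_lit 16464, nat_lit 5952, R2_146, R11_343, R5_124⟩]⟩, ⟨nat_lit 2, [⟨nat_lit 2, nat_lit 18672, nat_lit 16464, nat_lit 5712, nat_lit 16512, nat_lit 21552, R1_119, R11_344, R11_449⟩, ⟨nat_lit 6, nat_lit 18720, nat_lit 11376, nat_lit 15552, nat_lit 11472, nat_lit 15792, R1_324, R1_239, R1_329⟩]⟩]⟩,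
 ⟨nat_lit 3, [⟨nat_lit 0, [⟨nat_lit 0, nat_lit 18576, nat_lit 12816, nat_lit 3072, nat_lit 4848, nat_lit 7008, R2_64, R3_101, R4_146⟩]⟩, ⟨nat_lit 3, [⟨nat_lit 0, nat_lit 18768, nat_lit 12960, nat_lit 2544, nat_lit 5952, nat_lit 5088, R1_53, R3_124, R3_106⟩, ⟨nat_lit 3, nat_lit 18864, nat_lit 15696, nat_lit 7920, nat_lit 12624, nat_lit 19344, R1_165, R10_263, R10_403⟩]⟩]⟩]], [[⟨nat_lit 3, [⟨nat_lit 0, [⟨nat_lit 0, nat_lit 15360, nat_lit 11952, nat_lit 960, nat_lit 576, nat_lit 14016, R2_20, R3_12, R6_292⟩, ⟨nat_lit 1, nat_lit 15408, nat_lit 13968, nat_lit 10896, nat_lit 3408, nat_lit 13824, R2_227, R10_71, R4_288⟩]⟩, ⟨nat_lit 3, [⟨nat_lit 0, nat_lit 15504, nat_lit 12432, nat_lit 288, nat_lit 4176, nat_lit 19632, R1_6, R3_87, R13_409⟩, ⟨nat_lit 1, nat_lit 15552, nat_lit 14208, nat_lit 11280, nat_lit 3984, nat_lit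 15744, R1_235, R10_83, R3_328⟩]⟩]⟩], [⟨nat_lit 3, [⟨nat_lit 0, [⟨nat_lit 0, nat_lit 18048, nat_lit 3216, nat_lit 2496, nat_lit 2688, nat_lit 7152, R2_52, R3_56, R8_149⟩, ⟨nat_lit 1, nat_lit 18096, nat_lit 3648, nat_lit 11232, nat_lit 6144, nat_lit 15552, R2_234, R10_128, R5_324⟩]⟩, ⟨nat_lit 1, [⟨nat_lit 0, nat_lit 18192, nat_lit 3552, nat_lit 6000, nat_lit 10224, nat_lit 5616, R12_125, R3_213, R5_117⟩, ⟨nat_lit 1, nat_lit 18240, nat_lit 3792, nat_lit 6672, nat_lit 6912, nat_lit 5232, R12_139, R10_144, R11_109⟩]⟩, ⟨nat_lit 3, [⟨nat_lit 0, nat_lit 18336, nat_lit 3456, nat_lit 1968, nat_lit 7440, nat_lit 5232, R1_41, R3_155, R9_109⟩]⟩]⟩], [], [⟨nat_lit 3, [⟨nat_lit 3, [⟨nat_lit 0, nat_lit 18912, nat_lit 13008, nat_lit 528, nat_lit 5904, nat_lit 5136, R1_11, R3_123, R3_107⟩, ⟨nat_lit 1, nat_lit 18960, nat_lit 15744,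 nat_lit 11520, nat_lit 5088, nat_lit 4224, R1_240, R10_106, R10_88⟩]⟩]⟩]]], [[[], [], [], [], [], [⟨nat_lit 0, [⟨nat_lit 5, [⟨nat_lit 1, nat_lit 19680, nat_lit 144, nat_lit 4080, nat_lit 8016, nat_lit 9888, R5_85, R4_167, R10_206⟩]⟩]⟩,
 ⟨nat_lit 3, [⟨nat_lit 1, [⟨nat_lit 1, nat_lit 19632, nat_lit 5712, nat_lit 1824, nat_lit 10080, nat_lit 3552, R1_38, R3_210, R1_74⟩]⟩, ⟨nat_lit 5, [⟨nat_lit 1, nat_lit 19728, nat_lit 5808, nat_lit 16560, nat_lit 10128, nat_lit 9984, R11_345, R3_211, R10_208⟩]⟩]⟩]], [], [], [[], [⟨nat_lit 3, [⟨nat_lit 1, [⟨nat_lit 0, nat_lit 19488, nat_lit 4032, nat_lit 4608, nat_lit 10032, nat_lit 5568, R1_96, R3_209, R5_116⟩, ⟨nat_lit 1, nat_lit 19536, nat_lit 4080, nat_lit 5040, nat_lit 6864, nat_lit 5184, R1_105, R10_143, R11_108⟩]⟩]⟩], [], [], [], [⟨nat_lit 3, [⟨nat_lit 1, [⟨nat_lit 1, nat_lit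 19968, nat_lit 21408, nat_lit 7248, nat_lit 8496, nat_lit 3600, R1_151, R10_177, R1_75⟩]⟩, ⟨nat_lit 5, [⟨nat_lit 1, nat_lit 20016, nat_lit 21456, nat_lit 16656, nat_lit 8640, nat_lit 10128, R11_347, R10_180, R10_211⟩]⟩]⟩]]], [[], [], [], [[], [], [], [], [], [], [], [⟨nat_lit 3, [⟨nat_lit 7, [⟨nat_lit 1, nat_lit 2352, nat_lit 5376, nat_lit 6336, nat_lit 8112, nat_lit 5136, R2_132, R10_169, R11_107⟩]⟩]⟩,
 ⟨nat_lit 7, [⟨nat_lit 4, [⟨nat_lit 1, nat_lit 2256, nat_lit 3504, nat_lit 8352, nat_lit 6672, nat_lit 14592, R13_174, R1_139, R5_304⟩]⟩, ⟨nat_lit 7, [⟨nat_lit 1, nat_lit 2400, nat_lit 4896, nat_lit 13536, nat_lit 7200, nat_lit 5280, R3_282, R1_150, R11_110⟩]⟩]⟩]], [[], [], [], [], [⟨nat_lit 4, [⟨nat_lit 4, [⟨nat_lit 1, nat_lit 0, nat_lit 672, nat_lit 432, nat_lit 1920, nat_lit 12240, R6_9, R4_40, R4_255⟩, ⟨nat_lit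 5, nat_lit 48, nat_lit 144, nat_lit 816, nat_lit 2112, nat_lit 13440, R6_17, R7_44, R7_280⟩]⟩, ⟨nat_lit 5, [⟨nat_lit 1, nat_lit 144, nat_lit 1248, nat_lit 336, nat_lit 2112, nat_lit 3024, R4_7, R4_44, R3_63⟩, ⟨nat_lit 5, nat_lit 192, nat_lit 1008, nat_lit 384, nat_lit 2160, nat_lit 12144, R4_8, R7_45, R2_253⟩]⟩]⟩,
 ⟨nat_lit 7, [⟨nat_lit 4, [⟨nat_lit 5, nat_lit 96, nat_lit 4992, nat_lit 4944, nat_lit 912, nat_lit 13536, R13_103, R2_19, R7_282⟩]⟩, ⟨nat_lit 5, [⟨nat_lit 5, nat_lit 240, nat_lit 6720, nat_lit 3696, nat_lit 1056, nat_lit 12240, R3_77, R2_22, R2_255⟩]⟩, ⟨nat_lit 7, [⟨nat_lit 5, nat_lit 288, nat_lit 6336, nat_lit 576, nat_lit 960, nat_lit 11952, R3_12, R2_20, R2_249⟩]⟩]⟩], [⟨nat_lit 4, [⟨nat_lit 5, [⟨nat_lit 1, nat_lit 672, nat_lit 1152, nat_lit 912, nat_lit 2832, nat_lit 14064, R4_19, R4_59, R10_293⟩,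 ⟨nat_lit 5, nat_lit 720, nat_lit 624, nat_lit 1296, nat_lit 2736, nat_lit 12720, R4_27, R7_57, R1_265⟩]⟩]⟩,
 ⟨nat_lit 7, [⟨nat_lit 5, [⟨nat_lit 5, nat_lit 768, nat_lit 7008, nat_lit 4848, nat_lit 3072, nat_lit 12816, R3_101, R2_64, R1_267⟩]⟩]⟩], [⟨nat_lit 4, [⟨nat_lit 4, [⟨nat_lit 5, nat_lit 960, nat_lit 1200, nat_lit 3024, nat_lit 2304, nat_lit 4464, R6_63, R7_48, R14_93⟩]⟩, ⟨nat_lit 5, [⟨nat_lit 5, nat_lit 1056, nat_lit 1296, nat_lit 2688, nat_lit 2544, nat_lit 2832, R4_56, R7_53, R12_59⟩]⟩, ⟨nat_lit 6, [⟨nat_lit 5, nat_lit 1152, nat_lit 1392, nat_lit 3984, nat_lit 2400, nat_lit 6960, R8_83, R7_50, R12_145⟩]⟩]⟩,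
 ⟨nat_lit 7, [⟨nat_lit 4, [⟨nat_lit 5, nat_lit 1008, nat_lit 7104, nat_lit 8784, nat_lit 2448, nat_lit 4896, R13_183, R2_51, R14_102⟩]⟩, ⟨nat_lit 5, [⟨nat_lit 5, nat_lit 1104, nat_lit 7248, nat_lit 7104, nat_lit 2880, nat_lit 3264, R3_148, R2_60, R12_68⟩]⟩, ⟨nat_lit 7, [⟨nat_lit 5, nat_lit 1248, nat_lit 7152, nat_lit 2688, nat_lit 2496, nat_lit 13104, R3_56, R2_52, R12_273⟩]⟩]⟩]], [], [[], [], [], [], [], [], [⟨nat_lit 4, [⟨nat_lit 4, [⟨nat_lit 4, nat_lit 1296, nat_lit 4512, nat_lit 10320, nat_lit 1344, nat_lit 1728, R6_215, R7_28, R7_36⟩, ⟨nat_lit 5, nat_lit 1344, nat_lit 4560, nat_lit 10608, nat_lit 18768, nat_lit 4512, R6_221, R14_391, R14_94⟩]⟩, ⟨nat_lit 5, [⟨nat_lit 5, nat_lit 1488, nat_lit 5280, nat_lit 11472, nat_lit 19680, nat_lit 2880, R4_239, R14_410, R12_60⟩]⟩, ⟨nat_lit 6, [⟨nat_lit 4, nat_lit 1584,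 nat_lit 6096, nat_lit 11232, nat_lit 7344, nat_lit 288, R8_234, R7_153, R2_6⟩, ⟨nat_lit 5, nat_lit 1632, nat_lit 6144, nat_lit 11952, nat_lit 19344, nat_lit 7008, R8_249, R14_403, R12_146⟩]⟩]⟩,
 ⟨nat_lit 6, [⟨nat_lit 6, [⟨nat_lit 4, nat_lit 1680, nat_lit 7008, nat_lit 7728, nat_lit 5568, nat_lit 6000, R5_161, R2_116, R2_125⟩, ⟨nat_lit 5, nat_lit 1728, nat_lit 7056, nat_lit 7824, nat_lit 15936, nat_lit 7824, R5_163, R12_332, R12_163⟩, ⟨nat_lit 6, nat_lit 1776, nat_lit 7104, nat_lit 7776, nat_lit 4272, nat_lit 4704, R5_162, R1_89, R1_98⟩]⟩]⟩,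
 ⟨nat_lit 7, [⟨nat_lit 4, [⟨nat_lit 4, nat_lit 1392, nat_lit 4896, nat_lit 9696, nat_lit 192, nat_lit 8352, R13_202, R2_4, R7_174⟩, ⟨nat_lit 5, nat_lit 1440, nat_lit 4944, nat_lit 9744, nat_lit 528, nat_lit 4992, R13_203, R12_11, R14_104⟩]⟩, ⟨nat_lit 5, [⟨nat_lit 5, nat_lit 1536, nat_lit 5472, nat_lit 7584, nat_lit 2640, nat_lit 3360, R3_158, R12_55, R12_70⟩]⟩, ⟨nat_lit 7, [⟨nat_lit 4, nat_lit 1920, nat_lit 5520, nat_lit 9888, nat_lit 5904, nat_lit 5328, R3_206, R2_123, R2_111⟩, ⟨nat_lit 5, nat_lit 1968, nat_lit 5616, nat_lit 10224, nat_lit 672, nat_lit 13536, R3_213, R12_14, R12_282⟩, ⟨nat_lit 7, nat_lit 2016, nat_lit 5568, nat_lit 10032, nat_lit 4608, nat_lit 4032, R3_209, R1_96, R1_84⟩]⟩]⟩]], [[], [], [], [], [⟨nat_lit 4, [⟨nat_lit 4, [⟨nat_lit 1, nat_lit 336, nat_lit 4560, nat_lit 5280, nat_lit 1152, nat_lit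 12288, R6_110, R5_24, R4_256⟩]⟩, ⟨nat_lit 5, [⟨nat_lit 1, nat_lit 480, nat_lit 6192, nat_lit 5568, nat_lit 3552, nat_lit 8832, R4_116, R5_74, R3_184⟩]⟩]⟩,
 ⟨nat_lit 7, [⟨nat_lit 4, [⟨nat_lit 1, nat_lit 384, nat_lit 5088, nat_lit 6000, nat_lit 9504, nat_lit 12336, R13_125, R11_198, R4_257⟩, ⟨nat_lit 5, nat_lit 432, nat_lit 5136, nat_lit 5952, nat_lit 240, nat_lit 13632, R13_124, R1_5, R7_284⟩]⟩, ⟨nat_lit 5, [⟨nat_lit 1, nat_lit 528, nat_lit 6672, nat_lit 4272, nat_lit 9696, nat_lit 8928, R3_89, R11_202, R3_186⟩, ⟨nat_lit 5, nat_lit 576, nat_lit 6720, nat_lit 4224, nat_lit 384, nat_lit 12384, R3_88, R1_8, R2_258⟩]⟩, ⟨nat_lit 7, [⟨nat_lit 5, nat_lit 624, nat_lit 7104, nat_lit 4176, nat_lit 288, nat_lit 12432, R3_87, R1_6, R2_259⟩]⟩]⟩], [⟨nat_lit 4, [⟨nat_lit 5, [⟨nat_lit 1, nat_lit 816, nat_lit 4464, nat_lit 7296,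 nat_lit 4320, nat_lit 14256, R4_152, R5_90, R10_297⟩]⟩]⟩,
 ⟨nat_lit 7, [⟨nat_lit 5, [⟨nat_lit 1, nat_lit 864, nat_lit 5040, nat_lit 6000, nat_lit 10224, nat_lit 14304, R3_125, R11_213, R10_298⟩, ⟨nat_lit 5, nat_lit 912, nat_lit 5088, nat_lit 5952, nat_lit 2544, nat_lit 12960, R3_124, R1_53, R1_270⟩]⟩]⟩], [], [⟨nat_lit 4, [⟨nat_lit 4, [⟨nat_lit 1, nat_lit 2448, nat_lit 432, nat_lit 6624, nat_lit 1440, nat_lit 14352, R6_138, R5_30, R5_299⟩]⟩]⟩,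
 ⟨nat_lit 7, [⟨nat_lit 4, [⟨nat_lit 1, nat_lit 2496, nat_lit 4032, nat_lit 7632, nat_lit 9840, nat_lit 14736, R13_159, R11_205, R5_307⟩]⟩, ⟨nat_lit 7, [⟨nat_lit 1, nat_lit 2640, nat_lit 5760, nat_lit 5424, nat_lit 9984, nat_lit 5376, R3_113, R11_208, R11_112⟩, ⟨nat_lit 5, nat_lit 2688, nat_lit 5136, nat_lit 5904, nat_lit 528, nat_lit 13008, R3_123, R1_11, R1_271⟩]⟩]⟩]]], [[], [], [], [], [[], [], [], [], [⟨nat_lit 4, [⟨nat_lit 4, [⟨nat_lit 1, nat_lit 8736, nat_lit 5232, nat_lit 18240, nat_lit 7440, nat_lit 14640, R8_380, R4_155, R4_305⟩, ⟨nat_lit 5, nat_lit 8784, nat_lit 13008, nat_lit 11376, nat_lit 7584, nat_lit 16752, R8_237, R7_158, R7_349⟩]⟩, ⟨nat_lit 5, [⟨nat_lit 1, nat_lit 8976, nat_lit 5280, nat_lit 3936, nat_lit 7632, nat_lit 3264, R5_82, R4_159, R3_68⟩, ⟨nat_lit 5, nat_lit 9024, nat_lit 13056, nat_lit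 2928, nat_lit 7632, nat_lit 14976, R5_61, R7_159, R2_312⟩]⟩]⟩,
 ⟨nat_lit 5, [⟨nat_lit 4, [⟨nat_lit 1, nat_lit 8832, nat_lit 5616, nat_lit 13248, nat_lit 2400, nat_lit 14688, R5_276, R3_50, R4_306⟩, ⟨nat_lit 5, nat_lit 8880, nat_lit 13248, nat_lit 12960, nat_lit 6384, nat_lit 16944, R5_270, R2_133, R7_353⟩]⟩, ⟨nat_lit 5, [⟨nat_lit 1, nat_lit 9072, nat_lit 5664, nat_lit 16176, nat_lit 2496, nat_lit 3312, R11_337, R3_52, R3_69⟩, ⟨nat_lit 5, nat_lit 9120, nat_lit 13296, nat_lit 15888, nat_lit 6432, nat_lit 15168, R11_331, R2_134, R2_316⟩]⟩]⟩,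
 ⟨nat_lit 7, [⟨nat_lit 4, [⟨nat_lit 5, nat_lit 8928, nat_lit 13104, nat_lit 11184, nat_lit 8016, nat_lit 16848, R9_233, R2_167, R7_351⟩]⟩]⟩], [⟨nat_lit 4, [⟨nat_lit 5, [⟨nat_lit 1, nat_lit 9888, nat_lit 144, nat_lit 4080, nat_lit 8016, nat_lit 19680, R5_85, R4_167, R10_410⟩, ⟨nat_lit 5, nat_lit 9936, nat_lit 240, nat_lit 2976, nat_lit 8016, nat_lit 15984, R5_62, R7_167, R1_333⟩]⟩]⟩,
 ⟨nat_lit 5, [⟨nat_lit 5, [⟨nat_lit 1, nat_lit 9984, nat_lit 5808, nat_lit 16560, nat_lit 10128, nat_lit 19728, R11_345, R3_211, R10_411⟩, ⟨nat_lit 5, nat_lit 10032, nat_lit 5952, nat_lit 16464, nat_lit 7008, nat_lit 16176, R11_343, R2_146, R1_337⟩]⟩]⟩]], [[], [], [], [], [⟨nat_lit 5, [⟨nat_lit 4, [⟨nat_lit 1, nat_lit 9264, nat_lit 16224, nat_lit 13344, nat_lit 5712, nat_lit 14880, R5_278, R10_119, R4_310⟩]⟩, ⟨nat_lit 5, [⟨nat_lit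 1, nat_lit 9360, nat_lit 16512, nat_lit 16272, nat_lit 5904, nat_lit 10512, R11_339, R10_123, R3_219⟩]⟩]⟩], [⟨nat_lit 5, [⟨nat_lit 5, [⟨nat_lit 1, nat_lit 10128, nat_lit 21456, nat_lit 16656, nat_lit 6624, nat_lit 20016, R11_347, R10_138, R10_417⟩, ⟨nat_lit 5, nat_lit 10176, nat_lit 21552, nat_lit 16512, nat_lit 5712, nat_lit 16464, R11_344, R1_119, R1_343⟩]⟩]⟩]], [], [[], [], [], [], [⟨nat_lit 4, [⟨nat_lit 4, [⟨nat_lit 1, nat_lit 9456, nat_lit 15360, nat_lit 19104, nat_lit 9504, nat_lit 14736, R8_398, R5_198, R4_307⟩]⟩, ⟨nat_lit 5, [⟨nat_lit 1, nat_lit 9648, nat_lit 15648, nat_lit 12288, nat_lit 11760, nat_lit 9312, R5_256, R5_245, R3_194⟩]⟩]⟩,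
 ⟨nat_lit 7, [⟨nat_lit 4, [⟨nat_lit 1, nat_lit 9552, nat_lit 15408, nat_lit 11424, nat_lit 9552, nat_lit 14784, R9_238, R11_199, R4_308⟩]⟩]⟩]]], [[[⟨nat_lit 0, [⟨nat_lit 0, [⟨nat_lit 0, nat_lit 2736, nat_lit 12240, nat_lit 1920, nat_lit 15120, nat_lit 8304, R4_40, R6_315, R6_173⟩, ⟨nat_lit 1, nat_lit 2784, nat_lit 13104, nat_lit 10848, nat_lit 14544, nat_lit 8880, R4_226, R4_303, R4_185⟩, ⟨nat_lit 2, nat_lit 2832, nat_lit 14640, nat_lit 7440, nat_lit 18240, nat_lit 5232, R4_155, R8_380, R8_109⟩]⟩, ⟨nat_lit 3, [⟨nat_lit 0, nat_lit 2976, nat_lit 12288, nat_lit 1152, nat_lit 15216, nat_lit 19056, R5_24, R6_317, R13_397⟩, ⟨nat_lit 1, nat_lit 3024, nat_lit 13248, nat_lit 13200, nat_lit 14592, nat_lit 15264, R5_275, R4_304, R3_318⟩, ⟨nat_lit 2, nat_lit 3072, nat_lit 14736, nat_lit 9504, nat_lit 19104, nat_lit 15360,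 R5_198, R8_398, R9_320⟩]⟩]⟩,
 ⟨nat_lit 3, [⟨nat_lit 3, [⟨nat_lit 0, nat_lit 3168, nat_lit 12336, nat_lit 9504, nat_lit 13776, nat_lit 19104, R11_198, R13_287, R13_398⟩, ⟨nat_lit 1, nat_lit 3216, nat_lit 13296, nat_lit 9648, nat_lit 10464, nat_lit 15312, R11_201, R3_218, R3_319⟩, ⟨nat_lit 2, nat_lit 3264, nat_lit 14784, nat_lit 9552, nat_lit 11424, nat_lit 15408, R11_199, R9_238, R9_321⟩, ⟨nat_lit 3, nat_lit 3312, nat_lit 13728, nat_lit 9600, nat_lit 16800, nat_lit 8640, R11_200, R3_350, R3_180⟩]⟩, ⟨nat_lit 7, [⟨nat_lit 3, nat_lit 3360, nat_lit 13776, nat_lit 5904, nat_lit 16704, nat_lit 13920, R1_123, R3_348, R2_290⟩]⟩]⟩,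
 ⟨nat_lit 7, [⟨nat_lit 7, [⟨nat_lit 3, nat_lit 3408, nat_lit 13824, nat_lit 7104, nat_lit 10896, nat_lit 13968, R10_148, R2_227, R2_291⟩]⟩]⟩], [], [], [⟨nat_lit 0, [⟨nat_lit 3, [⟨nat_lit 0, nat_lit 5664, nat_lit 14352, nat_lit 1440, nat_lit 15792, nat_lit 432, R5_30, R6_329, R3_9⟩, ⟨nat_lit 1, nat_lit 5712, nat_lit 16224, nat_lit 13344, nat_lit 14880, nat_lit 2928, R5_278, R4_310, R10_61⟩]⟩]⟩,
 ⟨nat_lit 3, [⟨nat_lit 3, [⟨nat_lit 0, nat_lit 5856, nat_lit 14736, nat_lit 9840, nat_lit 13920, nat_lit 4032, R11_205, R13_290, R3_84⟩, ⟨nat_lit 1, nat_lit 5904, nat_lit 16512, nat_lit 9936, nat_lit 10512, nat_lit 3600, R11_207, R3_219, R10_75⟩]⟩, ⟨nat_lit 7, [⟨nat_lit 0, nat_lit 6000, nat_lit 14592, nat_lit 6672, nat_lit 13968, nat_lit 3504, R1_139, R13_291, R2_73⟩, ⟨nat_lit 1, nat_lit 6048, nat_lit 16464, nat_lit 6768,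 nat_lit 10560, nat_lit 2976, R1_141, R3_220, R1_62⟩, ⟨nat_lit 3, nat_lit 6096, nat_lit 16128, nat_lit 6720, nat_lit 17232, nat_lit 14976, R1_140, R3_359, R12_312⟩]⟩]⟩,
 ⟨nat_lit 7, [⟨nat_lit 7, [⟨nat_lit 3, nat_lit 6144, nat_lit 15552, nat_lit 7536, nat_lit 11232, nat_lit 14928, R10_157, R2_234, R12_311⟩]⟩]⟩]], [], [[], [], [⟨nat_lit 0, [⟨nat_lit 0, [⟨nat_lit 0, nat_lit 4032, nat_lit 4608, nat_lit 2832, nat_lit 912, nat_lit 1152, R4_59, R4_19, R4_24⟩, ⟨nat_lit 2, nat_lit 4080, nat_lit 4656, nat_lit 8016, nat_lit 4080, nat_lit 144, R4_167, R5_85, R5_3⟩]⟩, ⟨nat_lit 3, [⟨nat_lit 0, nat_lit 4320, nat_lit 4752, nat_lit 4320, nat_lit 7296, nat_lit 4464, R5_90, R4_152, R3_93⟩]⟩]⟩,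
 ⟨nat_lit 2, [⟨nat_lit 0, [⟨nat_lit 2, nat_lit 4128, nat_lit 4704, nat_lit 10128, nat_lit 16560, nat_lit 5808, R3_211, R11_345, R5_121⟩]⟩, ⟨nat_lit 2, [⟨nat_lit 2, nat_lit 4176, nat_lit 5136, nat_lit 8640, nat_lit 16656, nat_lit 21456, R10_180, R11_347, R11_447⟩, ⟨nat_lit 6, nat_lit 4224, nat_lit 5088, nat_lit 8688, nat_lit 11520, nat_lit 15744, R10_181, R1_240, R1_328⟩]⟩]⟩,
 ⟨nat_lit 3, [⟨nat_lit 3, [⟨nat_lit 0, nat_lit 4464, nat_lit 4848, nat_lit 10224, nat_lit 6000, nat_lit 5040, R11_213, R3_125, R3_105⟩, ⟨nat_lit 3, nat_lit 4560, nat_lit 4896, nat_lit 10320, nat_lit 12672, nat_lit 19248, R11_215, R10_264, R10_401⟩]⟩, ⟨nat_lit 7, [⟨nat_lit 3, nat_lit 5040, nat_lit 4272, nat_lit 7920, nat_lit 12720, nat_lit 15696, R1_165, R10_265, R1_327⟩]⟩]⟩,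
 ⟨nat_lit 4, [⟨nat_lit 4, [⟨nat_lit 4, nat_lit 4608, nat_lit 4032, nat_lit 2832, nat_lit 912, nat_lit 1152, R4_59, R4_19, R4_24⟩, ⟨nat_lit 7, nat_lit 4656, nat_lit 4080, nat_lit 8016, nat_lit 4080, nat_lit 144, R4_167, R5_85, R5_3⟩]⟩, ⟨nat_lit 6, [⟨nat_lit 4, nat_lit 4752, nat_lit 4320, nat_lit 4320, nat_lit 7296, nat_lit 4464, R5_90, R4_152, R3_93⟩]⟩]⟩,
 ⟨nat_lit 6, [⟨nat_lit 2, [⟨nat_lit 6, nat_lit 4272, nat_lit 5040, nat_lit 7920, nat_lit 12720, nat_lit 15696, R1_165, R10_265, R1_327⟩]⟩, ⟨nat_lit 6, [⟨nat_lit 4, nat_lit 4848, nat_lit 4464, nat_lit 10224, nat_lit 6000, nat_lit 5040, R11_213, R3_125, R3_105⟩, ⟨nat_lit 6, nat_lit 4896, nat_lit 4560, nat_lit 10320, nat_lit 12672, nat_lit 19248, R11_215, R10_264, R10_401⟩]⟩]⟩,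
 ⟨nat_lit 7, [⟨nat_lit 4, [⟨nat_lit 7, nat_lit 4704, nat_lit 4128, nat_lit 10128, nat_lit 16560, nat_lit 5808, R3_211, R11_345, R5_121⟩]⟩, ⟨nat_lit 7, [⟨nat_lit 3, nat_lit 5088, nat_lit 4224, nat_lit 8688, nat_lit 11520, nat_lit 15744, R10_181, R1_240, R1_328⟩, ⟨nat_lit 7, nat_lit 5136, nat_lit 4176, nat_lit 8640, nat_lit 16656, nat_lit 21456, R10_180, R11_347, R11_447⟩]⟩]⟩]], [[], [], [], [⟨nat_lit 3, [⟨nat_lit 3, [⟨nat_lit 0, nat_lit 6576, nat_lit 5376, nat_lit 9984, nat_lit 5424, nat_lit 5760, R11_208, R3_113, R3_120⟩, ⟨nat_lit 1, nat_lit 6624, nat_lit 5424, nat_lit 10080, nat_lit 5136, nat_lit 4176, R11_210, R10_107, R10_87⟩]⟩, ⟨nat_lit 7, [⟨nat_lit 0, nat_lit 6720, nat_lit 5280, nat_lit 7200, nat_lit 13536, nat_lit 4896, R1_150, R3_282, R2_102⟩, ⟨nat_lit 1, nat_lit 6768, nat_lit 5328, nat_lit 7248, nat_lit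 5616, nat_lit 3600, R1_151, R10_117, R1_75⟩]⟩]⟩,
 ⟨nat_lit 7, [⟨nat_lit 7, [⟨nat_lit 0, nat_lit 6816, nat_lit 5136, nat_lit 8112, nat_lit 6336, nat_lit 5376, R10_169, R2_132, R2_112⟩, ⟨nat_lit 1, nat_lit 6864, nat_lit 5184, nat_lit 8208, nat_lit 5040, nat_lit 4080, R10_171, R1_105, R1_85⟩, ⟨nat_lit 3, nat_lit 6912, nat_lit 5232, nat_lit 8160, nat_lit 10896, nat_lit 15120, R10_170, R12_227, R12_315⟩]⟩]⟩], [], [], [], [⟨nat_lit 3, [⟨nat_lit 7, [⟨nat_lit 1, nat_lit 8448, nat_lit 4080, nat_lit 5040, nat_lit 8208, nat_lit 5184, R1_105, R10_171, R11_108⟩]⟩]⟩,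
 ⟨nat_lit 7, [⟨nat_lit 4, [⟨nat_lit 1, nat_lit 8400, nat_lit 2976, nat_lit 10560, nat_lit 6768, nat_lit 16464, R3_220, R1_141, R5_343⟩]⟩, ⟨nat_lit 7, [⟨nat_lit 1, nat_lit 8496, nat_lit 3600, nat_lit 5616, nat_lit 7248, nat_lit 5328, R10_117, R1_151, R11_111⟩]⟩]⟩]], [[], [], [], [], [⟨nat_lit 4, [⟨nat_lit 4, [⟨nat_lit 1, nat_lit 6960, nat_lit 8880, nat_lit 14544, nat_lit 10848, nat_lit 13104, R4_303, R4_226, R4_273⟩, ⟨nat_lit 5, nat_lit 7008, nat_lit 13488, nat_lit 11520, nat_lit 11424, nat_lit 14256, R4_240, R7_238, R7_297⟩]⟩]⟩,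
 ⟨nat_lit 7, [⟨nat_lit 4, [⟨nat_lit 5, nat_lit 7056, nat_lit 13632, nat_lit 10368, nat_lit 10800, nat_lit 14352, R3_216, R2_225, R7_299⟩]⟩, ⟨nat_lit 7, [⟨nat_lit 5, nat_lit 7104, nat_lit 13824, nat_lit 3408, nat_lit 10896, nat_lit 13968, R10_71, R2_227, R2_291⟩]⟩]⟩], [], [⟨nat_lit 4, [⟨nat_lit 4, [⟨nat_lit 5, nat_lit 7344, nat_lit 14976, nat_lit 11952, nat_lit 11616, nat_lit 5232, R4_249, R7_242, R14_109⟩]⟩, ⟨nat_lit 6, [⟨nat_lit 5, nat_lit 7440, nat_lit 15120, nat_lit 13728, nat_lit 11712, nat_lit 7104, R5_286, R7_244, R12_148⟩]⟩]⟩,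
 ⟨nat_lit 7, [⟨nat_lit 4, [⟨nat_lit 5, nat_lit 7392, nat_lit 15456, nat_lit 10896, nat_lit 11136, nat_lit 5376, R3_227, R2_232, R14_112⟩]⟩, ⟨nat_lit 7, [⟨nat_lit 5, nat_lit 7536, nat_lit 15552, nat_lit 6144, nat_lit 11232, nat_lit 14928, R10_128, R2_234, R12_311⟩]⟩]⟩]], [], [[], [], [⟨nat_lit 4, [⟨nat_lit 4, [⟨nat_lit 4, nat_lit 5232, nat_lit 3456, nat_lit 2976, nat_lit 960, nat_lit 1680, R4_62, R7_20, R4_35⟩]⟩, ⟨nat_lit 6, [⟨nat_lit 4, nat_lit 5376, nat_lit 3648, nat_lit 3216, nat_lit 6960, nat_lit 12576, R5_67, R7_145, R3_262⟩]⟩]⟩,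
 ⟨nat_lit 6, [⟨nat_lit 2, [⟨nat_lit 6, nat_lit 5184, nat_lit 3888, nat_lit 7872, nat_lit 15504, nat_lit 15648, R1_164, R1_323, R1_326⟩]⟩, ⟨nat_lit 6, [⟨nat_lit 4, nat_lit 5424, nat_lit 3792, nat_lit 9408, nat_lit 5136, nat_lit 13344, R11_196, R2_107, R3_278⟩, ⟨nat_lit 6, nat_lit 5472, nat_lit 3840, nat_lit 9456, nat_lit 3840, nat_lit 19200, R11_197, R1_80, R10_400⟩]⟩]⟩,
 ⟨nat_lit 7, [⟨nat_lit 4, [⟨nat_lit 4, nat_lit 5280, nat_lit 3504, nat_lit 9792, nat_lit 2352, nat_lit 8400, R3_204, R2_49, R4_175⟩, ⟨nat_lit 7, nat_lit 5328, nat_lit 3552, nat_lit 10080, nat_lit 1824, nat_lit 5712, R3_210, R1_38, R5_119⟩]⟩, ⟨nat_lit 7, [⟨nat_lit 7, nat_lit 5616, nat_lit 3600, nat_lit 8496, nat_lit 7248, nat_lit 21408, R10_177, R1_151, R11_446⟩]⟩]⟩], [], [], [], [⟨nat_lit 4, [⟨nat_lit 4, [⟨nat_lit 4, nat_lit 7584, nat_lit 4512,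 nat_lit 4272, nat_lit 1536, nat_lit 1776, R4_89, R7_32, R7_37⟩, ⟨nat_lit 5, nat_lit 7632, nat_lit 4560, nat_lit 12048, nat_lit 21888, nat_lit 5280, R4_251, R14_456, R14_110⟩]⟩, ⟨nat_lit 6, [⟨nat_lit 4, nat_lit 7776, nat_lit 5712, nat_lit 3120, nat_lit 7536, nat_lit 336, R5_65, R7_157, R2_7⟩, ⟨nat_lit 5, nat_lit 7824, nat_lit 5760, nat_lit 14256, nat_lit 22416, nat_lit 7152, R5_297, R14_467, R12_149⟩]⟩]⟩,
 ⟨nat_lit 6, [⟨nat_lit 6, [⟨nat_lit 4, nat_lit 7872, nat_lit 6624, nat_lit 7344, nat_lit 5760, nat_lit 6048, R11_153, R2_120, R2_126⟩, ⟨nat_lit 5, nat_lit 7920, nat_lit 6672, nat_lit 7440, nat_lit 17232, nat_lit 7872, R11_155, R12_359, R12_164⟩, ⟨nat_lit 6, nat_lit 7968, nat_lit 6720, nat_lit 7392, nat_lit 4464, nat_lit 4752, R11_154, R1_93, R1_99⟩]⟩]⟩,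
 ⟨nat_lit 7, [⟨nat_lit 4, [⟨nat_lit 4, nat_lit 7680, nat_lit 4896, nat_lit 10752, nat_lit 624, nat_lit 8400, R3_224, R2_13, R7_175⟩, ⟨nat_lit 5, nat_lit 7728, nat_lit 4944, nat_lit 10992, nat_lit 10512, nat_lit 5472, R3_229, R12_219, R14_114⟩]⟩, ⟨nat_lit 7, [⟨nat_lit 4, nat_lit 8112, nat_lit 5136, nat_lit 6816, nat_lit 6336, nat_lit 5376, R10_142, R2_132, R2_112⟩, ⟨nat_lit 5, nat_lit 8160, nat_lit 5232, nat_lit 6912, nat_lit 10896, nat_lit 15120, R10_144, R12_227, R12_315⟩, ⟨nat_lit 7, nat_lit 8208, nat_lit 5184, nat_lit 6864, nat_lit 5040, nat_lit 4080, R10_143, R1_105, R1_85⟩]⟩]⟩]], [[], [], [], [], [⟨nat_lit 4, [⟨nat_lit 4, [⟨nat_lit 1, nat_lit 7152, nat_lit 15264, nat_lit 14592, nat_lit 13200, nat_lit 13248, R4_304, R5_275, R4_276⟩]⟩]⟩,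
 ⟨nat_lit 7, [⟨nat_lit 4, [⟨nat_lit 1, nat_lit 7200, nat_lit 15312, nat_lit 10464, nat_lit 9648, nat_lit 13296, R3_218, R11_201, R4_277⟩, ⟨nat_lit 5, nat_lit 7248, nat_lit 15408, nat_lit 10416, nat_lit 11184, nat_lit 14496, R3_217, R1_233, R7_302⟩]⟩, ⟨nat_lit 7, [⟨nat_lit 5, nat_lit 7296, nat_lit 15744, nat_lit 3984, nat_lit 11280, nat_lit 14208, R10_83, R1_235, R2_296⟩]⟩]⟩], [], [], [⟨nat_lit 4, [⟨nat_lit 4, [⟨nat_lit 1, nat_lit 8544, nat_lit 2928, nat_lit 14880, nat_lit 13344, nat_lit 16224, R4_310, R5_278, R5_338⟩]⟩]⟩,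
 ⟨nat_lit 7, [⟨nat_lit 4, [⟨nat_lit 1, nat_lit 8592, nat_lit 3600, nat_lit 10512, nat_lit 9936, nat_lit 16512, R3_219, R11_207, R5_344⟩]⟩, ⟨nat_lit 7, [⟨nat_lit 1, nat_lit 8640, nat_lit 4176, nat_lit 5136, nat_lit 10080, nat_lit 5424, R10_107, R11_210, R11_113⟩, ⟨nat_lit 5, nat_lit 8688, nat_lit 4224, nat_lit 5088, nat_lit 11520, nat_lit 15744, R10_106, R1_240, R1_328⟩]⟩]⟩]]], [[], [], [], [[], [], [], [], [⟨nat_lit 3, [⟨nat_lit 4, [⟨nat_lit 1, nat_lit 12192, nat_lit 13968, nat_lit 10896, nat_lit 7104, nat_lit 13824, R2_227, R10_148, R4_288⟩]⟩]⟩], [⟨nat_lit 3, [⟨nat_lit 5, [⟨nat_lit 1, nat_lit 12576, nat_lit 15744, nat_lit 11520, nat_lit 8688, nat_lit 19392, R1_240, R10_181, R10_404⟩]⟩]⟩,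
 ⟨nat_lit 7, [⟨nat_lit 5, [⟨nat_lit 1, nat_lit 12624, nat_lit 15696, nat_lit 12720, nat_lit 7920, nat_lit 19344, R10_265, R1_165, R10_403⟩]⟩]⟩]], [], [], [], [[], [], [], [], [⟨nat_lit 7, [⟨nat_lit 4, [⟨nat_lit 1, nat_lit 12384, nat_lit 8640, nat_lit 16800, nat_lit 9600, nat_lit 13728, R3_350, R11_200, R4_286⟩]⟩, ⟨nat_lit 5, [⟨nat_lit 1, nat_lit 12480, nat_lit 9072, nat_lit 12480, nat_lit 9792, nat_lit 9072, R10_260, R11_204, R3_189⟩]⟩]⟩], [⟨nat_lit 7, [⟨nat_lit 5, [⟨nat_lit 1, nat_lit 12672, nat_lit 19248, nat_lit 12672, nat_lit 10320, nat_lit 19248, R10_264, R11_215, R10_401⟩, ⟨nat_lit 5, nat_lit 12720, nat_lit 19344, nat_lit 12624, nat_lit 7920, nat_lit 15696, R10_263, R1_165, R1_327⟩]⟩]⟩]]]]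
noncomputable def N6646 : T3 (List N0) := [[[[], [⟨nat_lit 0, [⟨nat_lit 1, [⟨nat_lit 5, nat_lit 4512, nat_lit 1104, nat_lit 1632, nat_lit 10320, nat_lit 13152, R7_34, R6_215, R10_274⟩]⟩, ⟨nat_lit 5, [⟨nat_lit 5, nat_lit 4608, nat_lit 672, nat_lit 1536, nat_lit 10368, nat_lit 1392, R4_32, R6_216, R1_29⟩]⟩]⟩,
 ⟨nat_lit 1, [⟨nat_lit 1, [⟨nat_lit 5, nat_lit 4896, nat_lit 7104, nat_lit 192, nat_lit 13152, nat_lit 13296, R2_4, R13_274, R10_277⟩]⟩, ⟨nat_lit 5, [⟨nat_lit 5, nat_lit 4992, nat_lit 6672, nat_lit 12624, nat_lit 13200, nat_lit 1440, R3_263, R13_275, R1_30⟩]⟩]⟩], [], [], [], [⟨nat_lit 0, [⟨nat_lit 5, [⟨nat_lit 5, nat_lit 4752, nat_lit 480, nat_lit 960, nat_lit 10416, nat_lit 384, R4_20, R6_217, R11_8⟩]⟩]⟩,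
 ⟨nat_lit 1, [⟨nat_lit 5, [⟨nat_lit 4, nat_lit 0, nat_lit 6816, nat_lit 4512, nat_lit 7296, nat_lit 1584, R3_94, R6_152, R5_33⟩, ⟨nat_lit 5, nat_lit 5040, nat_lit 6864, nat_lit 4656, nat_lit 13248, nat_lit 1152, R3_97, R13_276, R11_24⟩]⟩]⟩]], [[], [⟨nat_lit 1, [⟨nat_lit 1, [⟨nat_lit 5, nat_lit 5520, nat_lit 5328, nat_lit 5904, nat_lit 9888, nat_lit 13824, R2_123, R3_206, R10_288⟩]⟩, ⟨nat_lit 5, [⟨nat_lit 5, nat_lit 5664, nat_lit 4848, nat_lit 13440, nat_lit 9936, nat_lit 1776, R3_280, R3_207, R1_37⟩]⟩]⟩], [], [], [], [⟨nat_lit 1, [⟨nat_lit 5, [⟨nat_lit 4, nat_lit 96, nat_lit 5616, nat_lit 5184, nat_lit 7968, nat_lit 3984, R3_108, R4_166, R5_83⟩, ⟨nat_lit 5, nat_lit 5760, nat_lit 5712, nat_lit 5328, nat_lit 9984, nat_lit 3984, R3_111, R3_208, R11_83⟩]⟩]⟩]], [], [[], [⟨nat_lit 0, [⟨nat_lit 1, [⟨nat_lit 5, nat_lit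 6096, nat_lit 288, nat_lit 8256, nat_lit 9984, nat_lit 13440, R7_172, R8_208, R10_280⟩]⟩, ⟨nat_lit 5, [⟨nat_lit 5, nat_lit 6192, nat_lit 2064, nat_lit 8256, nat_lit 10032, nat_lit 1488, R4_172, R8_209, R1_31⟩]⟩]⟩,
 ⟨nat_lit 1, [⟨nat_lit 1, [⟨nat_lit 5, nat_lit 6624, nat_lit 7296, nat_lit 7200, nat_lit 10464, nat_lit 13728, R2_150, R9_218, R10_286⟩]⟩, ⟨nat_lit 5, [⟨nat_lit 5, nat_lit 6720, nat_lit 9840, nat_lit 13008, nat_lit 10512, nat_lit 1632, R3_271, R9_219, R1_34⟩]⟩]⟩,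
 ⟨nat_lit 3, [⟨nat_lit 1, [⟨nat_lit 5, nat_lit 7008, nat_lit 6000, nat_lit 5568, nat_lit 7728, nat_lit 13584, R2_116, R5_161, R10_283⟩]⟩]⟩]]], [[], [[], [⟨nat_lit 1, [⟨nat_lit 1, [⟨nat_lit 5, nat_lit 5568, nat_lit 4032, nat_lit 4608, nat_lit 10032, nat_lit 19488, R1_96, R3_209, R10_406⟩]⟩, ⟨nat_lit 5, [⟨nat_lit 5, nat_lit 5712, nat_lit 3552, nat_lit 5328, nat_lit 10080, nat_lit 1824, R10_111, R3_210, R1_38⟩]⟩]⟩,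
 ⟨nat_lit 5, [⟨nat_lit 5, [⟨nat_lit 5, nat_lit 5904, nat_lit 15312, nat_lit 15936, nat_lit 7056, nat_lit 1728, R1_332, R2_147, R1_36⟩]⟩]⟩], [], [], [], [⟨nat_lit 1, [⟨nat_lit 5, [⟨nat_lit 4, nat_lit 144, nat_lit 4080, nat_lit 4656, nat_lit 8016, nat_lit 4080, R10_97, R4_167, R5_85⟩, ⟨nat_lit 5, nat_lit 5808, nat_lit 4128, nat_lit 4704, nat_lit 10128, nat_lit 4080, R10_98, R3_211, R11_85⟩]⟩]⟩,
 ⟨nat_lit 5, [⟨nat_lit 5, [⟨nat_lit 4, nat_lit 240, nat_lit 18480, nat_lit 15984, nat_lit 8016, nat_lit 2976, R1_333, R7_167, R5_62⟩, ⟨nat_lit 5, nat_lit 5952, nat_lit 18528, nat_lit 16176, nat_lit 7008, nat_lit 2976, R1_337, R2_146, R11_62⟩]⟩]⟩]], [], [], [], [[], [], [], [], [], [⟨nat_lit 5, [⟨nat_lit 5, [⟨nat_lit 4, nat_lit 2160, nat_lit 8688, nat_lit 16032, nat_lit 10752, nat_lit 576, R1_334, R4_224, R5_12⟩]⟩]⟩]]],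 [[[⟨nat_lit 0, [⟨nat_lit 0, [⟨nat_lit 5, nat_lit 4416, nat_lit 5520, nat_lit 17280, nat_lit 10512, nat_lit 12384, R7_360, R6_219, R4_258⟩]⟩, ⟨nat_lit 1, [⟨nat_lit 5, nat_lit 4464, nat_lit 5760, nat_lit 2256, nat_lit 10560, nat_lit 1248, R14_47, R6_220, R3_26⟩]⟩]⟩,
 ⟨nat_lit 1, [⟨nat_lit 1, [⟨nat_lit 5, nat_lit 4848, nat_lit 5856, nat_lit 480, nat_lit 13344, nat_lit 1344, R12_10, R13_278, R3_28⟩]⟩]⟩], [⟨nat_lit 0, [⟨nat_lit 1, [⟨nat_lit 5, nat_lit 4560, nat_lit 15552, nat_lit 2304, nat_lit 10608, nat_lit 15984, R14_48, R6_221, R10_333⟩]⟩]⟩,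
 ⟨nat_lit 1, [⟨nat_lit 1, [⟨nat_lit 5, nat_lit 4944, nat_lit 16464, nat_lit 528, nat_lit 13392, nat_lit 16176, R12_11, R13_279, R10_337⟩]⟩]⟩]], [[], [⟨nat_lit 1, [⟨nat_lit 1, [⟨nat_lit 5, nat_lit 5616, nat_lit 13536, nat_lit 672, nat_lit 10224, nat_lit 18192, R12_14, R3_213, R10_379⟩]⟩]⟩]], [[⟨nat_lit 0, [⟨nat_lit 0, [⟨nat_lit 1, nat_lit 14832, nat_lit 12480, nat_lit 12864, nat_lit 11808, nat_lit 13872, R7_268, R7_246, R7_289⟩, ⟨nat_lit 5, nat_lit 5184, nat_lit 3984, nat_lit 17376, nat_lit 11376, nat_lit 12912, R7_362, R4_237, R4_269⟩]⟩, ⟨nat_lit 1, [⟨nat_lit 1, nat_lit 14880, nat_lit 12864, nat_lit 3840, nat_lit 11904, nat_lit 13152, R14_80, R7_248, R2_274⟩, ⟨nat_lit 5, nat_lit 5232, nat_lit 4176, nat_lit 4224, nat_lit 11424, nat_lit 6432, R14_88, R4_238, R3_134⟩]⟩]⟩,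
 ⟨nat_lit 1, [⟨nat_lit 1, [⟨nat_lit 1, nat_lit 15840, nat_lit 12960, nat_lit 2208, nat_lit 10368, nat_lit 13440, R12_46, R2_216, R2_280⟩, ⟨nat_lit 5, nat_lit 5424, nat_lit 4272, nat_lit 2592, nat_lit 7536, nat_lit 6528, R12_54, R3_157, R3_136⟩]⟩]⟩,
 ⟨nat_lit 2, [⟨nat_lit 0, [⟨nat_lit 1, nat_lit 15312, nat_lit 12528, nat_lit 11568, nat_lit 10992, nat_lit 14016, R2_241, R2_229, R7_292⟩]⟩, ⟨nat_lit 1, [⟨nat_lit 1, nat_lit 15360, nat_lit 13104, nat_lit 2016, nat_lit 11424, nat_lit 13296, R12_42, R2_238, R2_277⟩]⟩]⟩], [⟨nat_lit 0, [⟨nat_lit 1, [⟨nat_lit 1, nat_lit 15168, nat_lit 12384, nat_lit 3888, nat_lit 12000, nat_lit 14496, R14_81, R7_250, R1_302⟩, ⟨nat_lit 5, nat_lit 5280, nat_lit 12912, nat_lit 4272, nat_lit 11472, nat_lit 17664, R14_89, R4_239, R10_368⟩]⟩]⟩,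
 ⟨nat_lit 1, [⟨nat_lit 1, [⟨nat_lit 1, nat_lit 15936, nat_lit 12528, nat_lit 2256, nat_lit 10464, nat_lit 14784, R12_47, R2_218, R1_308⟩, ⟨nat_lit 5, nat_lit 5472, nat_lit 13440, nat_lit 2640, nat_lit 7584, nat_lit 17808, R12_55, R3_158, R10_371⟩]⟩]⟩,
 ⟨nat_lit 2, [⟨nat_lit 1, [⟨nat_lit 1, nat_lit 15744, nat_lit 12624, nat_lit 2064, nat_lit 11520, nat_lit 14640, R12_43, R2_240, R1_305⟩]⟩]⟩], [⟨nat_lit 0, [⟨nat_lit 0, [⟨nat_lit 1, nat_lit 15024, nat_lit 13824, nat_lit 13056, nat_lit 11856, nat_lit 16608, R7_272, R7_247, R14_346⟩]⟩, ⟨nat_lit 1, [⟨nat_lit 1, nat_lit 15072, nat_lit 14208, nat_lit 3936, nat_lit 11952, nat_lit 14016, R14_82, R7_249, R12_292⟩]⟩]⟩,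
 ⟨nat_lit 1, [⟨nat_lit 1, [⟨nat_lit 1, nat_lit 15888, nat_lit 14304, nat_lit 2304, nat_lit 10416, nat_lit 14592, R12_48, R2_217, R12_304⟩]⟩]⟩,
 ⟨nat_lit 2, [⟨nat_lit 0, [⟨nat_lit 1, nat_lit 15504, nat_lit 13872, nat_lit 11712, nat_lit 11040, nat_lit 16752, R2_244, R2_230, R14_349⟩]⟩, ⟨nat_lit 1, [⟨nat_lit 1, nat_lit 15648, nat_lit 14448, nat_lit 2112, nat_lit 11472, nat_lit 14160, R12_44, R2_239, R12_295⟩]⟩, ⟨nat_lit 2, [⟨nat_lit 1, nat_lit 15600, nat_lit 15072, nat_lit 12144, nat_lit 11184, nat_lit 15168, R1_253, R2_233, R12_316⟩]⟩]⟩]], [[⟨nat_lit 0, [⟨nat_lit 0, [⟨nat_lit 5, nat_lit 6000, nat_lit 7680, nat_lit 17328, nat_lit 10176, nat_lit 12576, R7_361, R8_212, R4_262⟩]⟩, ⟨nat_lit 1, [⟨nat_lit 5, nat_lit 6048, nat_lit 8832, nat_lit 3264, nat_lit 10272, nat_lit 7680, R14_68, R8_214, R3_160⟩]⟩]⟩,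
 ⟨nat_lit 1, [⟨nat_lit 1, [⟨nat_lit 5, nat_lit 6576, nat_lit 9264, nat_lit 1632, nat_lit 10656, nat_lit 7824, R12_34, R9_222, R3_163⟩]⟩]⟩,
 ⟨nat_lit 3, [⟨nat_lit 0, [⟨nat_lit 5, nat_lit 6912, nat_lit 7824, nat_lit 14736, nat_lit 7392, nat_lit 12720, R2_307, R5_154, R4_265⟩]⟩, ⟨nat_lit 1, [⟨nat_lit 5, nat_lit 6960, nat_lit 9072, nat_lit 4176, nat_lit 7440, nat_lit 7728, R12_87, R5_155, R3_161⟩]⟩]⟩], [⟨nat_lit 0, [⟨nat_lit 1, [⟨nat_lit 5, nat_lit 6144, nat_lit 864, nat_lit 3360, nat_lit 10368, nat_lit 16800, R14_70, R8_216, R10_350⟩]⟩]⟩,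
 ⟨nat_lit 1, [⟨nat_lit 1, [⟨nat_lit 5, nat_lit 6672, nat_lit 8304, nat_lit 1728, nat_lit 10752, nat_lit 17136, R12_36, R9_224, R10_357⟩]⟩]⟩,
 ⟨nat_lit 3, [⟨nat_lit 1, [⟨nat_lit 5, nat_lit 7056, nat_lit 6096, nat_lit 4464, nat_lit 7824, nat_lit 16944, R12_93, R5_163, R10_353⟩]⟩]⟩], [], [⟨nat_lit 0, [⟨nat_lit 0, [⟨nat_lit 5, nat_lit 6336, nat_lit 8208, nat_lit 17760, nat_lit 10224, nat_lit 16320, R7_370, R8_213, R5_340⟩]⟩]⟩,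
 ⟨nat_lit 3, [⟨nat_lit 0, [⟨nat_lit 5, nat_lit 7200, nat_lit 8352, nat_lit 15360, nat_lit 7488, nat_lit 16656, R2_320, R5_156, R5_347⟩]⟩, ⟨nat_lit 3, [⟨nat_lit 5, nat_lit 7344, nat_lit 8784, nat_lit 16368, nat_lit 7536, nat_lit 2160, R1_341, R5_157, R11_45⟩]⟩]⟩]]], [[[], [], [], [], [], [⟨nat_lit 0, [⟨nat_lit 5, [⟨nat_lit 5, nat_lit 4800, nat_lit 1920, nat_lit 288, nat_lit 10464, nat_lit 432, R5_6, R6_218, R11_9⟩]⟩]⟩]], [], [], [[], [⟨nat_lit 0, [⟨nat_lit 5, [⟨nat_lit 5, nat_lit 6240, nat_lit 1536, nat_lit 6240, nat_lit 10080, nat_lit 1536, R5_130, R8_210, R1_32⟩]⟩]⟩,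
 ⟨nat_lit 3, [⟨nat_lit 1, [⟨nat_lit 5, nat_lit 7104, nat_lit 4704, nat_lit 4272, nat_lit 7776, nat_lit 19056, R1_89, R5_162, R10_397⟩]⟩, ⟨nat_lit 5, [⟨nat_lit 5, nat_lit 7152, nat_lit 6960, nat_lit 21840, nat_lit 7680, nat_lit 1584, R11_455, R5_160, R1_33⟩]⟩]⟩], [], [], [], [⟨nat_lit 0, [⟨nat_lit 5, [⟨nat_lit 4, nat_lit 288, nat_lit 12624, nat_lit 4800, nat_lit 10464, nat_lit 1920, R5_100, R6_218, R5_40⟩, ⟨nat_lit 5, nat_lit 6480, nat_lit 12768, nat_lit 6480, nat_lit 10128, nat_lit 1920, R5_135, R8_211, R11_40⟩]⟩]⟩,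
 ⟨nat_lit 3, [⟨nat_lit 5, [⟨nat_lit 4, nat_lit 624, nat_lit 12720, nat_lit 21888, nat_lit 10704, nat_lit 2112, R11_456, R4_223, R5_44⟩, ⟨nat_lit 5, nat_lit 7584, nat_lit 12864, nat_lit 21936, nat_lit 7296, nat_lit 2112, R11_457, R5_152, R11_44⟩]⟩]⟩]]], [[], [], [], [[], [], [], [], [], [], [], [⟨nat_lit 3, [⟨nat_lit 7, [⟨nat_lit 4, nat_lit 768, nat_lit 5952, nat_lit 5520, nat_lit 10272, nat_lit 13680, R2_115, R4_214, R3_285⟩, ⟨nat_lit 5, nat_lit 7728, nat_lit 6000, nat_lit 5568, nat_lit 7008, nat_lit 1680, R2_116, R5_146, R10_35⟩]⟩]⟩]], [[], [], [], [], [⟨nat_lit 3, [⟨nat_lit 7, [⟨nat_lit 7, nat_lit 12816, nat_lit 12624, nat_lit 3168, nat_lit 15984, nat_lit 11136, R2_66, R7_333, R3_232⟩]⟩]⟩,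
 ⟨nat_lit 4, [⟨nat_lit 4, [⟨nat_lit 6, nat_lit 7920, nat_lit 240, nat_lit 576, nat_lit 16416, nat_lit 12576, R6_12, R6_342, R8_262⟩]⟩, ⟨nat_lit 6, [⟨nat_lit 6, nat_lit 8064, nat_lit 2544, nat_lit 432, nat_lit 16464, nat_lit 8064, R8_9, R6_343, R5_168⟩]⟩]⟩,
 ⟨nat_lit 6, [⟨nat_lit 6, [⟨nat_lit 6, nat_lit 8784, nat_lit 10224, nat_lit 4656, nat_lit 15168, nat_lit 8160, R5_97, R4_316, R5_170⟩]⟩]⟩,
 ⟨nat_lit 7, [⟨nat_lit 4, [⟨nat_lit 4, nat_lit 912, nat_lit 4800, nat_lit 4608, nat_lit 14592, nat_lit 11808, R13_96, R6_304, R6_246⟩, ⟨nat_lit 6, nat_lit 9168, nat_lit 5088, nat_lit 4656, nat_lit 18288, nat_lit 12720, R13_97, R8_381, R8_265⟩]⟩, ⟨nat_lit 6, [⟨nat_lit 6, nat_lit 9312, nat_lit 7104, nat_lit 3792, nat_lit 18336, nat_lit 8112, R9_79, R8_382, R5_169⟩]⟩, ⟨nat_lit 7, [⟨nat_lit 4, nat_lit 1056, nat_lit 6000, nat_lit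 48, nat_lit 14640, nat_lit 10464, R3_1, R6_305, R13_218⟩, ⟨nat_lit 6, nat_lit 9408, nat_lit 6432, nat_lit 336, nat_lit 18384, nat_lit 8016, R3_7, R8_383, R9_167⟩, ⟨nat_lit 7, nat_lit 13104, nat_lit 6144, nat_lit 192, nat_lit 14208, nat_lit 11472, R3_4, R4_296, R3_239⟩]⟩]⟩], [⟨nat_lit 4, [⟨nat_lit 4, [⟨nat_lit 6, nat_lit 8496, nat_lit 144, nat_lit 1152, nat_lit 16608, nat_lit 13488, R6_24, R6_346, R9_281⟩]⟩]⟩,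
 ⟨nat_lit 7, [⟨nat_lit 4, [⟨nat_lit 4, nat_lit 1488, nat_lit 5184, nat_lit 6240, nat_lit 16176, nat_lit 8016, R13_130, R6_337, R8_167⟩, ⟨nat_lit 6, nat_lit 9936, nat_lit 5376, nat_lit 6288, nat_lit 18576, nat_lit 13728, R13_131, R8_387, R9_286⟩]⟩, ⟨nat_lit 5, [⟨nat_lit 4, nat_lit 1584, nat_lit 6816, nat_lit 4512, nat_lit 16272, nat_lit 0, R3_94, R6_339, R5_0⟩]⟩, ⟨nat_lit 7, [⟨nat_lit 4, nat_lit 1680, nat_lit 6336, nat_lit 768, nat_lit 16224, nat_lit 96, R3_16, R6_338, R9_2⟩]⟩]⟩], [⟨nat_lit 3, [⟨nat_lit 7, [⟨nat_lit 7, nat_lit 12960, nat_lit 14544, nat_lit 6384, nat_lit 16224, nat_lit 8880, R2_133, R7_338, R10_185⟩]⟩]⟩,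
 ⟨nat_lit 4, [⟨nat_lit 4, [⟨nat_lit 6, nat_lit 8208, nat_lit 3168, nat_lit 2832, nat_lit 16512, nat_lit 1776, R6_59, R6_344, R5_37⟩]⟩, ⟨nat_lit 6, [⟨nat_lit 6, nat_lit 8352, nat_lit 3216, nat_lit 576, nat_lit 16560, nat_lit 10512, R8_12, R6_345, R11_219⟩]⟩]⟩,
 ⟨nat_lit 6, [⟨nat_lit 6, [⟨nat_lit 2, nat_lit 16320, nat_lit 10704, nat_lit 6336, nat_lit 17760, nat_lit 8208, R5_132, R7_370, R1_171⟩, ⟨nat_lit 6, nat_lit 8928, nat_lit 10800, nat_lit 6288, nat_lit 15216, nat_lit 10608, R5_131, R4_317, R11_221⟩]⟩]⟩,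
 ⟨nat_lit 7, [⟨nat_lit 4, [⟨nat_lit 4, nat_lit 1200, nat_lit 7536, nat_lit 8400, nat_lit 15360, nat_lit 4656, R13_175, R6_320, R4_97⟩, ⟨nat_lit 6, nat_lit 9552, nat_lit 7872, nat_lit 8448, nat_lit 18432, nat_lit 10176, R13_176, R8_384, R5_212⟩]⟩, ⟨nat_lit 6, [⟨nat_lit 6, nat_lit 9696, nat_lit 7968, nat_lit 6096, nat_lit 18480, nat_lit 10560, R9_127, R8_385, R11_220⟩]⟩, ⟨nat_lit 7, [⟨nat_lit 4, nat_lit 1344, nat_lit 7584, nat_lit 2256, nat_lit 15408, nat_lit 384, R3_47, R6_321, R3_8⟩, ⟨nat_lit 7, nat_lit 13248, nat_lit 7680, nat_lit 2400, nat_lit 14688, nat_lit 8832, R3_50, R4_306, R10_184⟩]⟩]⟩]], [], [[], [], [], [], [], [], [⟨nat_lit 6, [⟨nat_lit 6, [⟨nat_lit 2, nat_lit 16656, nat_lit 7488, nat_lit 7200, nat_lit 15360, nat_lit 8352, R5_150, R2_320, R1_174⟩]⟩]⟩]], [[], [], [], [], [⟨nat_lit 3, [⟨nat_lit 7, [⟨nat_lit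 4, nat_lit 2592, nat_lit 7968, nat_lit 3552, nat_lit 5376, nat_lit 11136, R2_74, R7_112, R13_232⟩, ⟨nat_lit 7, nat_lit 13824, nat_lit 8016, nat_lit 3600, nat_lit 21936, nat_lit 12048, R2_75, R14_457, R3_251⟩]⟩]⟩,
 ⟨nat_lit 7, [⟨nat_lit 4, [⟨nat_lit 4, nat_lit 3264, nat_lit 5616, nat_lit 5232, nat_lit 4944, nat_lit 12096, R13_109, R4_103, R6_252⟩, ⟨nat_lit 6, nat_lit 11328, nat_lit 5664, nat_lit 5280, nat_lit 11328, nat_lit 12864, R13_110, R5_236, R8_268⟩]⟩, ⟨nat_lit 6, [⟨nat_lit 6, nat_lit 11520, nat_lit 9216, nat_lit 4224, nat_lit 11808, nat_lit 10224, R9_88, R5_246, R5_213⟩]⟩, ⟨nat_lit 7, [⟨nat_lit 4, nat_lit 3456, nat_lit 7344, nat_lit 3792, nat_lit 5472, nat_lit 11088, R3_79, R4_114, R13_231⟩, ⟨nat_lit 6, nat_lit 11664, nat_lit 7392, nat_lit 3936, nat_lit 12192, nat_lit 8832, R3_82, R5_254, R9_184⟩]⟩]⟩],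 [⟨nat_lit 3, [⟨nat_lit 7, [⟨nat_lit 4, nat_lit 3024, nat_lit 6624, nat_lit 4416, nat_lit 7920, nat_lit 576, R2_92, R7_165, R9_12⟩]⟩]⟩,
 ⟨nat_lit 7, [⟨nat_lit 4, [⟨nat_lit 4, nat_lit 3840, nat_lit 3888, nat_lit 6816, nat_lit 7584, nat_lit 8064, R13_142, R4_158, R8_168⟩, ⟨nat_lit 6, nat_lit 12192, nat_lit 3936, nat_lit 6864, nat_lit 11664, nat_lit 13872, R13_143, R5_243, R9_289⟩]⟩, ⟨nat_lit 5, [⟨nat_lit 4, nat_lit 3984, nat_lit 5616, nat_lit 5184, nat_lit 7968, nat_lit 96, R3_108, R4_166, R5_2⟩]⟩, ⟨nat_lit 7, [⟨nat_lit 4, nat_lit 4128, nat_lit 6192, nat_lit 6096, nat_lit 7872, nat_lit 336, R3_127, R4_164, R9_7⟩]⟩]⟩], [], [⟨nat_lit 3, [⟨nat_lit 7, [⟨nat_lit 4, nat_lit 3168, nat_lit 13152, nat_lit 4944, nat_lit 6912, nat_lit 12432, R2_103, R7_144, R3_259⟩]⟩]⟩,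
 ⟨nat_lit 7, [⟨nat_lit 7, [⟨nat_lit 4, nat_lit 4224, nat_lit 4944, nat_lit 5520, nat_lit 7200, nat_lit 4416, R3_115, R4_150, R3_92⟩]⟩]⟩]]], [[], [], [], [], [[], [], [], [], [⟨nat_lit 4, [⟨nat_lit 4, [⟨nat_lit 6, nat_lit 7968, nat_lit 15504, nat_lit 4560, nat_lit 16752, nat_lit 16752, R8_95, R6_349, R8_349⟩]⟩]⟩,
 ⟨nat_lit 7, [⟨nat_lit 4, [⟨nat_lit 4, nat_lit 960, nat_lit 12384, nat_lit 15984, nat_lit 15024, nat_lit 14928, R9_333, R6_313, R6_311⟩, ⟨nat_lit 6, nat_lit 9216, nat_lit 16176, nat_lit 16272, nat_lit 18720, nat_lit 17040, R9_339, R8_390, R8_355⟩]⟩]⟩], [⟨nat_lit 4, [⟨nat_lit 4, [⟨nat_lit 6, nat_lit 8544, nat_lit 1536, nat_lit 4608, nat_lit 16944, nat_lit 16848, R8_96, R6_353, R9_351⟩]⟩]⟩,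
 ⟨nat_lit 7, [⟨nat_lit 4, [⟨nat_lit 4, nat_lit 1536, nat_lit 8544, nat_lit 16848, nat_lit 16944, nat_lit 8688, R9_351, R6_353, R8_181⟩, ⟨nat_lit 6, nat_lit 9984, nat_lit 9984, nat_lit 17136, nat_lit 18912, nat_lit 17136, R9_357, R8_394, R9_357⟩]⟩]⟩]], [[], [], [], [], [⟨nat_lit 4, [⟨nat_lit 4, [⟨nat_lit 4, nat_lit 1776, nat_lit 8208, nat_lit 240, nat_lit 9600, nat_lit 16512, R8_5, R6_200, R6_344⟩, ⟨nat_lit 6, nat_lit 10176, nat_lit 9552, nat_lit 4992, nat_lit 21552, nat_lit 16896, R8_104, R13_449, R8_352⟩]⟩]⟩,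
 ⟨nat_lit 5, [⟨nat_lit 4, [⟨nat_lit 4, nat_lit 1968, nat_lit 8304, nat_lit 16848, nat_lit 10560, nat_lit 17184, R5_351, R4_220, R6_358⟩, ⟨nat_lit 6, nat_lit 10656, nat_lit 9648, nat_lit 16944, nat_lit 17664, nat_lit 17424, R5_353, R3_368, R8_363⟩]⟩]⟩,
 ⟨nat_lit 7, [⟨nat_lit 4, [⟨nat_lit 4, nat_lit 2208, nat_lit 8256, nat_lit 16080, nat_lit 4656, nat_lit 16848, R9_335, R8_97, R6_351⟩, ⟨nat_lit 6, nat_lit 11040, nat_lit 9600, nat_lit 16368, nat_lit 17952, nat_lit 17328, R9_341, R9_374, R8_361⟩]⟩]⟩], [⟨nat_lit 4, [⟨nat_lit 4, [⟨nat_lit 4, nat_lit 1872, nat_lit 10656, nat_lit 288, nat_lit 9696, nat_lit 3552, R8_6, R6_202, R8_74⟩, ⟨nat_lit 6, nat_lit 10368, nat_lit 12000, nat_lit 5040, nat_lit 21744, nat_lit 16992, R8_105, R13_453, R9_354⟩]⟩, ⟨nat_lit 5, [⟨nat_lit 4, nat_lit 1920, nat_lit 12624, nat_lit 4800, nat_lit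 9744, nat_lit 288, R5_100, R6_203, R5_6⟩]⟩]⟩,
 ⟨nat_lit 5, [⟨nat_lit 4, [⟨nat_lit 4, nat_lit 2064, nat_lit 10752, nat_lit 17184, nat_lit 10656, nat_lit 10848, R5_358, R4_222, R8_226⟩, ⟨nat_lit 6, nat_lit 10848, nat_lit 12096, nat_lit 17328, nat_lit 17856, nat_lit 17568, R5_361, R3_372, R9_366⟩]⟩, ⟨nat_lit 5, [⟨nat_lit 4, nat_lit 2112, nat_lit 12720, nat_lit 21888, nat_lit 10704, nat_lit 624, R11_456, R4_223, R5_13⟩]⟩]⟩,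
 ⟨nat_lit 7, [⟨nat_lit 4, [⟨nat_lit 4, nat_lit 2400, nat_lit 10704, nat_lit 16944, nat_lit 6384, nat_lit 8784, R9_353, R8_133, R8_183⟩, ⟨nat_lit 6, nat_lit 11232, nat_lit 12048, nat_lit 17232, nat_lit 18144, nat_lit 17424, R9_359, R9_378, R9_363⟩]⟩]⟩]], [], [[], [], [], [], [⟨nat_lit 7, [⟨nat_lit 4, [⟨nat_lit 4, nat_lit 3312, nat_lit 8064, nat_lit 16032, nat_lit 5040, nat_lit 15552, R9_334, R4_105, R6_324⟩, ⟨nat_lit 6, nat_lit 11376, nat_lit 8544, nat_lit 16320, nat_lit 11376, nat_lit 17184, R9_340, R5_237, R8_358⟩]⟩]⟩]]], [[[⟨nat_lit 0, [⟨nat_lit 0, [⟨nat_lit 5, nat_lit 4368, nat_lit 5664, nat_lit 14928, nat_lit 10176, nat_lit 5808, R4_311, R6_212, R4_121⟩]⟩]⟩], [], [], [⟨nat_lit 0, [⟨nat_lit 0, [⟨nat_lit 5, nat_lit 4656, nat_lit 8160, nat_lit 15168, nat_lit 10224, nat_lit 8784, R4_316, R6_213, R5_183⟩]⟩, ⟨nat_lit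 3, [⟨nat_lit 5, nat_lit 4704, nat_lit 8448, nat_lit 16896, nat_lit 10272, nat_lit 1968, R5_352, R6_214, R11_41⟩]⟩]⟩]], [], [[⟨nat_lit 0, [⟨nat_lit 0, [⟨nat_lit 1, nat_lit 14784, nat_lit 1440, nat_lit 11808, nat_lit 11568, nat_lit 5952, R4_246, R7_241, R7_124⟩, ⟨nat_lit 5, nat_lit 5136, nat_lit 864, nat_lit 14976, nat_lit 11232, nat_lit 6432, R4_312, R4_234, R4_134⟩]⟩, ⟨nat_lit 3, [⟨nat_lit 1, nat_lit 14928, nat_lit 7920, nat_lit 13632, nat_lit 11664, nat_lit 8880, R5_284, R7_243, R2_185⟩]⟩]⟩,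
 ⟨nat_lit 2, [⟨nat_lit 0, [⟨nat_lit 1, nat_lit 15264, nat_lit 1536, nat_lit 3408, nat_lit 11088, nat_lit 6048, R3_71, R2_231, R7_126⟩]⟩]⟩], [], [⟨nat_lit 0, [⟨nat_lit 0, [⟨nat_lit 1, nat_lit 14976, nat_lit 7344, nat_lit 11952, nat_lit 11616, nat_lit 17136, R4_249, R7_242, R14_357⟩]⟩, ⟨nat_lit 3, [⟨nat_lit 1, nat_lit 15120, nat_lit 7440, nat_lit 13728, nat_lit 11712, nat_lit 7104, R5_286, R7_244, R12_148⟩]⟩]⟩,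
 ⟨nat_lit 2, [⟨nat_lit 0, [⟨nat_lit 1, nat_lit 15456, nat_lit 7392, nat_lit 10896, nat_lit 11136, nat_lit 17280, R3_227, R2_232, R14_360⟩]⟩, ⟨nat_lit 2, [⟨nat_lit 1, nat_lit 15552, nat_lit 7536, nat_lit 6144, nat_lit 11232, nat_lit 14928, R10_128, R2_234, R12_311⟩]⟩]⟩]], [[], [], [], [⟨nat_lit 0, [⟨nat_lit 0, [⟨nat_lit 5, nat_lit 6288, nat_lit 8400, nat_lit 15216, nat_lit 9840, nat_lit 8928, R4_317, R8_205, R5_186⟩]⟩, ⟨nat_lit 3, [⟨nat_lit 5, nat_lit 6432, nat_lit 8448, nat_lit 17232, nat_lit 9888, nat_lit 2064, R5_359, R8_206, R11_43⟩]⟩]⟩,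
 ⟨nat_lit 3, [⟨nat_lit 3, [⟨nat_lit 5, nat_lit 7296, nat_lit 8496, nat_lit 6096, nat_lit 7584, nat_lit 2112, R11_127, R5_158, R11_44⟩]⟩]⟩], [], [], [], [⟨nat_lit 0, [⟨nat_lit 3, [⟨nat_lit 4, nat_lit 336, nat_lit 6288, nat_lit 14448, nat_lit 10896, nat_lit 1536, R5_301, R6_227, R2_32⟩, ⟨nat_lit 5, nat_lit 6528, nat_lit 6384, nat_lit 17136, nat_lit 9936, nat_lit 1008, R5_357, R8_207, R1_21⟩, ⟨nat_lit 7, nat_lit 12720, nat_lit 6336, nat_lit 16032, nat_lit 11760, nat_lit 7056, R5_334, R4_245, R12_147⟩]⟩]⟩,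
 ⟨nat_lit 3, [⟨nat_lit 3, [⟨nat_lit 4, nat_lit 720, nat_lit 6912, nat_lit 5808, nat_lit 8544, nat_lit 2112, R11_121, R4_178, R2_44⟩, ⟨nat_lit 5, nat_lit 7680, nat_lit 6960, nat_lit 5856, nat_lit 7152, nat_lit 1584, R11_122, R5_149, R1_33⟩]⟩, ⟨nat_lit 7, [⟨nat_lit 4, nat_lit 816, nat_lit 4656, nat_lit 4224, nat_lit 10368, nat_lit 14256, R1_88, R4_216, R3_297⟩, ⟨nat_lit 5, nat_lit 7776, nat_lit 4704, nat_lit 4272, nat_lit 7104, nat_lit 1776, R1_89, R5_148, R10_37⟩]⟩]⟩]], [[], [], [], [], [⟨nat_lit 3, [⟨nat_lit 3, [⟨nat_lit 7, nat_lit 12768, nat_lit 12624, nat_lit 5616, nat_lit 17664, nat_lit 7728, R11_117, R7_368, R2_161⟩]⟩, ⟨nat_lit 7, [⟨nat_lit 7, nat_lit 12864, nat_lit 13152, nat_lit 2640, nat_lit 17712, nat_lit 15168, R1_55, R7_369, R3_316⟩]⟩]⟩,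
 ⟨nat_lit 4, [⟨nat_lit 4, [⟨nat_lit 6, nat_lit 8016, nat_lit 14256, nat_lit 8976, nat_lit 17088, nat_lit 13488, R4_187, R6_356, R8_281⟩]⟩, ⟨nat_lit 6, [⟨nat_lit 6, nat_lit 8160, nat_lit 15168, nat_lit 4656, nat_lit 17136, nat_lit 8784, R5_97, R6_357, R5_183⟩]⟩]⟩,
 ⟨nat_lit 6, [⟨nat_lit 6, [⟨nat_lit 6, nat_lit 8880, nat_lit 15456, nat_lit 4656, nat_lit 15456, nat_lit 8880, R11_97, R4_322, R5_185⟩]⟩]⟩,
 ⟨nat_lit 7, [⟨nat_lit 4, [⟨nat_lit 4, nat_lit 1008, nat_lit 12144, nat_lit 16032, nat_lit 15168, nat_lit 13584, R3_334, R6_316, R6_283⟩, ⟨nat_lit 6, nat_lit 9264, nat_lit 14400, nat_lit 16368, nat_lit 19008, nat_lit 13776, R3_341, R8_396, R8_287⟩]⟩, ⟨nat_lit 7, [⟨nat_lit 4, nat_lit 1152, nat_lit 12288, nat_lit 2976, nat_lit 15216, nat_lit 10608, R10_62, R6_317, R13_221⟩, ⟨nat_lit 6, nat_lit 9504, nat_lit 14736,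 nat_lit 3072, nat_lit 19104, nat_lit 8256, R10_64, R8_398, R9_172⟩, ⟨nat_lit 7, nat_lit 13200, nat_lit 13248, nat_lit 3024, nat_lit 14592, nat_lit 15264, R10_63, R4_304, R3_318⟩]⟩]⟩], [], [⟨nat_lit 0, [⟨nat_lit 0, [⟨nat_lit 3, nat_lit 16848, nat_lit 8304, nat_lit 10560, nat_lit 17184, nat_lit 1968, R4_220, R6_358, R5_41⟩]⟩, ⟨nat_lit 3, [⟨nat_lit 3, nat_lit 16896, nat_lit 8448, nat_lit 4704, nat_lit 17232, nat_lit 11232, R5_98, R6_359, R11_234⟩]⟩]⟩,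
 ⟨nat_lit 2, [⟨nat_lit 0, [⟨nat_lit 0, nat_lit 14304, nat_lit 1296, nat_lit 17376, nat_lit 15744, nat_lit 4704, R3_362, R6_328, R4_98⟩, ⟨nat_lit 3, nat_lit 16944, nat_lit 9648, nat_lit 17664, nat_lit 19152, nat_lit 10656, R3_368, R8_399, R5_222⟩]⟩, ⟨nat_lit 2, [⟨nat_lit 0, nat_lit 14352, nat_lit 1440, nat_lit 5664, nat_lit 15792, nat_lit 432, R10_118, R6_329, R3_9⟩, ⟨nat_lit 2, nat_lit 16224, nat_lit 13344, nat_lit 5712, nat_lit 14880, nat_lit 9264, R10_119, R4_310, R10_193⟩]⟩]⟩,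
 ⟨nat_lit 3, [⟨nat_lit 3, [⟨nat_lit 3, nat_lit 17088, nat_lit 9024, nat_lit 5904, nat_lit 15504, nat_lit 11328, R11_123, R4_323, R11_236⟩, ⟨nat_lit 7, nat_lit 12912, nat_lit 16416, nat_lit 5952, nat_lit 17856, nat_lit 8256, R11_124, R7_372, R1_172⟩]⟩, ⟨nat_lit 7, [⟨nat_lit 7, nat_lit 13008, nat_lit 16272, nat_lit 5088, nat_lit 17904, nat_lit 9312, R1_106, R7_373, R10_194⟩]⟩]⟩,
 ⟨nat_lit 4, [⟨nat_lit 4, [⟨nat_lit 6, nat_lit 8304, nat_lit 16848, nat_lit 10560, nat_lit 17184, nat_lit 1968, R4_220, R6_358, R5_41⟩]⟩, ⟨nat_lit 6, [⟨nat_lit 6, nat_lit 8448, nat_lit 16896, nat_lit 4704, nat_lit 17232, nat_lit 11232, R5_98, R6_359, R11_234⟩]⟩]⟩,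
 ⟨nat_lit 6, [⟨nat_lit 2, [⟨nat_lit 2, nat_lit 16272, nat_lit 13008, nat_lit 5088, nat_lit 17904, nat_lit 9312, R1_106, R7_373, R10_194⟩]⟩, ⟨nat_lit 6, [⟨nat_lit 2, nat_lit 16416, nat_lit 12912, nat_lit 5952, nat_lit 17856, nat_lit 8256, R11_124, R7_372, R1_172⟩, ⟨nat_lit 6, nat_lit 9024, nat_lit 17088, nat_lit 5904, nat_lit 15504, nat_lit 11328, R11_123, R4_323, R11_236⟩]⟩]⟩,
 ⟨nat_lit 7, [⟨nat_lit 4, [⟨nat_lit 4, nat_lit 1296, nat_lit 14304, nat_lit 17376, nat_lit 15744, nat_lit 4704, R3_362, R6_328, R4_98⟩, ⟨nat_lit 6, nat_lit 9648, nat_lit 16944, nat_lit 17664, nat_lit 19152, nat_lit 10656, R3_368, R8_399, R5_222⟩]⟩, ⟨nat_lit 7, [⟨nat_lit 4, nat_lit 1440, nat_lit 14352, nat_lit 5664, nat_lit 15792, nat_lit 432, R10_118, R6_329, R3_9⟩, ⟨nat_lit 7, nat_lit 13344, nat_lit 16224, nat_lit 5712, nat_lit 14880,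 nat_lit 9264, R10_119, R4_310, R10_193⟩]⟩]⟩]], [], [[], [], [⟨nat_lit 0, [⟨nat_lit 0, [⟨nat_lit 0, nat_lit 14400, nat_lit 6096, nat_lit 4224, nat_lit 10848, nat_lit 144, R4_88, R6_226, R7_3⟩, ⟨nat_lit 1, nat_lit 15984, nat_lit 6144, nat_lit 12000, nat_lit 11712, nat_lit 17088, R4_250, R4_244, R14_356⟩]⟩, ⟨nat_lit 3, [⟨nat_lit 0, nat_lit 14448, nat_lit 6288, nat_lit 336, nat_lit 10896, nat_lit 1536, R5_7, R6_227, R2_32⟩, ⟨nat_lit 1, nat_lit 16032, nat_lit 6336, nat_lit 12720, nat_lit 11760, nat_lit 7056, R5_265, R4_245, R12_147⟩, ⟨nat_lit 3, nat_lit 17136, nat_lit 6384, nat_lit 6528, nat_lit 9936, nat_lit 1008, R5_136, R8_207, R1_21⟩]⟩]⟩,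
 ⟨nat_lit 2, [⟨nat_lit 0, [⟨nat_lit 0, nat_lit 14544, nat_lit 6192, nat_lit 10608, nat_lit 21072, nat_lit 5088, R3_221, R13_439, R7_106⟩, ⟨nat_lit 1, nat_lit 16080, nat_lit 6240, nat_lit 10800, nat_lit 17184, nat_lit 17232, R3_225, R3_358, R14_359⟩]⟩, ⟨nat_lit 2, [⟨nat_lit 0, nat_lit 14592, nat_lit 6672, nat_lit 6000, nat_lit 21120, nat_lit 3504, R10_125, R13_440, R2_73⟩, ⟨nat_lit 1, nat_lit 16128, nat_lit 6720, nat_lit 6096, nat_lit 17232, nat_lit 14976, R10_127, R3_359, R12_312⟩, ⟨nat_lit 2, nat_lit 16464, nat_lit 6768, nat_lit 6048, nat_lit 10560, nat_lit 2976, R10_126, R3_220, R1_62⟩]⟩]⟩,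
 ⟨nat_lit 3, [⟨nat_lit 3, [⟨nat_lit 3, nat_lit 17472, nat_lit 6432, nat_lit 6144, nat_lit 17472, nat_lit 6432, R11_128, R5_364, R1_134⟩]⟩]⟩,
 ⟨nat_lit 6, [⟨nat_lit 2, [⟨nat_lit 2, nat_lit 16560, nat_lit 6624, nat_lit 5184, nat_lit 15312, nat_lit 13536, R1_108, R2_319, R1_282⟩]⟩]⟩], [], [], [], [⟨nat_lit 0, [⟨nat_lit 0, [⟨nat_lit 0, nat_lit 14496, nat_lit 7632, nat_lit 4368, nat_lit 10800, nat_lit 48, R4_91, R6_225, R4_1⟩, ⟨nat_lit 3, nat_lit 17184, nat_lit 7680, nat_lit 10656, nat_lit 9408, nat_lit 2064, R4_222, R8_196, R5_43⟩]⟩, ⟨nat_lit 3, [⟨nat_lit 3, nat_lit 17232, nat_lit 8448, nat_lit 6432, nat_lit 9888, nat_lit 11376, R5_134, R8_206, R11_237⟩]⟩]⟩,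
 ⟨nat_lit 2, [⟨nat_lit 0, [⟨nat_lit 0, nat_lit 14688, nat_lit 8112, nat_lit 17472, nat_lit 21216, nat_lit 5280, R3_364, R13_442, R4_110⟩, ⟨nat_lit 3, nat_lit 17328, nat_lit 8160, nat_lit 17856, nat_lit 17568, nat_lit 10848, R3_372, R9_366, R5_226⟩]⟩, ⟨nat_lit 2, [⟨nat_lit 0, nat_lit 14736, nat_lit 9840, nat_lit 5856, nat_lit 21264, nat_lit 4032, R10_122, R13_443, R3_84⟩, ⟨nat_lit 2, nat_lit 16512, nat_lit 9936, nat_lit 5904, nat_lit 10512, nat_lit 9360, R10_123, R3_219, R10_195⟩]⟩]⟩,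
 ⟨nat_lit 3, [⟨nat_lit 3, [⟨nat_lit 3, nat_lit 17520, nat_lit 8592, nat_lit 6048, nat_lit 17520, nat_lit 11472, R11_126, R5_365, R11_239⟩]⟩]⟩,
 ⟨nat_lit 6, [⟨nat_lit 2, [⟨nat_lit 2, nat_lit 16608, nat_lit 9168, nat_lit 5136, nat_lit 15456, nat_lit 9408, R1_107, R2_322, R10_196⟩]⟩, ⟨nat_lit 6, [⟨nat_lit 2, nat_lit 16752, nat_lit 7104, nat_lit 6816, nat_lit 15504, nat_lit 8400, R11_142, R2_323, R1_175⟩]⟩]⟩]], [[], [], [], [], [⟨nat_lit 0, [⟨nat_lit 3, [⟨nat_lit 7, nat_lit 13632, nat_lit 7920, nat_lit 14928, nat_lit 11664, nat_lit 8880, R5_311, R7_243, R2_185⟩]⟩]⟩,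
 ⟨nat_lit 3, [⟨nat_lit 3, [⟨nat_lit 7, nat_lit 13776, nat_lit 7968, nat_lit 5664, nat_lit 22272, nat_lit 8928, R11_118, R14_464, R2_186⟩]⟩, ⟨nat_lit 7, [⟨nat_lit 4, nat_lit 2640, nat_lit 8880, nat_lit 3024, nat_lit 5472, nat_lit 11616, R1_63, R7_114, R13_242⟩, ⟨nat_lit 7, nat_lit 13872, nat_lit 9168, nat_lit 3072, nat_lit 22224, nat_lit 15504, R1_64, R14_463, R3_323⟩]⟩]⟩,
 ⟨nat_lit 7, [⟨nat_lit 4, [⟨nat_lit 4, nat_lit 3360, nat_lit 8544, nat_lit 16080, nat_lit 5088, nat_lit 13872, R3_335, R4_106, R6_289⟩, ⟨nat_lit 6, nat_lit 11424, nat_lit 8688, nat_lit 16416, nat_lit 11472, nat_lit 13920, R3_342, R5_239, R8_290⟩]⟩, ⟨nat_lit 7, [⟨nat_lit 4, nat_lit 3552, nat_lit 8832, nat_lit 3648, nat_lit 5568, nat_lit 11568, R10_76, R4_116, R13_241⟩, ⟨nat_lit 6, nat_lit 11760, nat_lit 9312, nat_lit 3696, nat_lit 12288, nat_lit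 9168, R10_77, R5_256, R9_191⟩]⟩]⟩], [], [], [⟨nat_lit 0, [⟨nat_lit 3, [⟨nat_lit 7, nat_lit 13728, nat_lit 7440, nat_lit 15120, nat_lit 11712, nat_lit 7104, R5_315, R7_244, R12_148⟩]⟩]⟩,
 ⟨nat_lit 3, [⟨nat_lit 3, [⟨nat_lit 4, nat_lit 3120, nat_lit 7776, nat_lit 5712, nat_lit 7536, nat_lit 336, R11_119, R7_157, R2_7⟩, ⟨nat_lit 7, nat_lit 14256, nat_lit 7824, nat_lit 5760, nat_lit 22416, nat_lit 7152, R11_120, R14_467, R12_149⟩]⟩, ⟨nat_lit 7, [⟨nat_lit 4, nat_lit 3216, nat_lit 5376, nat_lit 3648, nat_lit 6960, nat_lit 12576, R1_76, R7_145, R3_262⟩]⟩]⟩,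
 ⟨nat_lit 7, [⟨nat_lit 7, [⟨nat_lit 4, nat_lit 4320, nat_lit 4752, nat_lit 4320, nat_lit 7296, nat_lit 4464, R10_90, R4_152, R3_93⟩]⟩]⟩]]], [[], [], [], [[], [], [], [], [⟨nat_lit 3, [⟨nat_lit 4, [⟨nat_lit 4, nat_lit 432, nat_lit 7536, nat_lit 14448, nat_lit 8832, nat_lit 12432, R2_301, R4_184, R6_259⟩, ⟨nat_lit 5, nat_lit 7392, nat_lit 7824, nat_lit 14736, nat_lit 6912, nat_lit 12720, R2_307, R5_144, R4_265⟩]⟩, ⟨nat_lit 7, [⟨nat_lit 4, nat_lit 480, nat_lit 8352, nat_lit 4128, nat_lit 9504, nat_lit 9888, R12_86, R4_198, R13_206⟩, ⟨nat_lit 5, nat_lit 7440, nat_lit 9072, nat_lit 4176, nat_lit 6960, nat_lit 7728, R12_87, R5_145, R3_161⟩]⟩]⟩], [⟨nat_lit 3, [⟨nat_lit 4, [⟨nat_lit 4, nat_lit 528, nat_lit 8064, nat_lit 15024, nat_lit 9168, nat_lit 14832, R2_313, R4_191, R8_309⟩, ⟨nat_lit 5, nat_lit 7488, nat_lit 8352,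 nat_lit 15360, nat_lit 7200, nat_lit 16656, R2_320, R5_150, R5_347⟩]⟩, ⟨nat_lit 5, [⟨nat_lit 4, nat_lit 576, nat_lit 8688, nat_lit 16032, nat_lit 10752, nat_lit 2160, R1_334, R4_224, R5_45⟩, ⟨nat_lit 5, nat_lit 7536, nat_lit 8784, nat_lit 16368, nat_lit 7344, nat_lit 2160, R1_341, R5_153, R11_45⟩]⟩, ⟨nat_lit 7, [⟨nat_lit 4, nat_lit 672, nat_lit 9168, nat_lit 4320, nat_lit 10512, nat_lit 2400, R12_90, R4_219, R9_50⟩]⟩]⟩], [], [⟨nat_lit 3, [⟨nat_lit 7, [⟨nat_lit 4, nat_lit 864, nat_lit 6048, nat_lit 4416, nat_lit 10320, nat_lit 14016, R12_92, R4_215, R3_292⟩, ⟨nat_lit 5, nat_lit 7824, nat_lit 6096, nat_lit 4464, nat_lit 7056, nat_lit 1728, R12_93, R5_147, R10_36⟩]⟩]⟩]], [], [], [], [[], [], [], [], [⟨nat_lit 3, [⟨nat_lit 4, [⟨nat_lit 4, nat_lit 2544, nat_lit 11088, nat_lit 14400, nat_lit 4800, nat_lit 13152, R2_300,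 R7_100, R6_274⟩]⟩, ⟨nat_lit 7, [⟨nat_lit 4, nat_lit 2688, nat_lit 11952, nat_lit 4032, nat_lit 5424, nat_lit 11856, R12_84, R7_113, R13_247⟩, ⟨nat_lit 7, nat_lit 13920, nat_lit 14640, nat_lit 4080, nat_lit 22080, nat_lit 14736, R12_85, R14_460, R3_307⟩]⟩]⟩,
 ⟨nat_lit 7, [⟨nat_lit 4, [⟨nat_lit 4, nat_lit 3408, nat_lit 11424, nat_lit 2928, nat_lit 4992, nat_lit 13440, R3_61, R4_104, R6_280⟩, ⟨nat_lit 6, nat_lit 11472, nat_lit 16416, nat_lit 8688, nat_lit 11424, nat_lit 14592, R3_181, R5_238, R8_304⟩]⟩]⟩], [⟨nat_lit 3, [⟨nat_lit 4, [⟨nat_lit 4, nat_lit 2928, nat_lit 9024, nat_lit 14976, nat_lit 7632, nat_lit 14880, R2_312, R7_159, R8_310⟩]⟩, ⟨nat_lit 5, [⟨nat_lit 4, nat_lit 2976, nat_lit 9936, nat_lit 15984, nat_lit 8016, nat_lit 240, R1_333, R7_167, R5_5⟩]⟩, ⟨nat_lit 7, [⟨nat_lit 4, nat_lit 3072, nat_lit 10560,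 nat_lit 4224, nat_lit 7968, nat_lit 624, R12_88, R7_166, R9_13⟩]⟩]⟩,
 ⟨nat_lit 7, [⟨nat_lit 4, [⟨nat_lit 4, nat_lit 3936, nat_lit 8976, nat_lit 3264, nat_lit 7632, nat_lit 8352, R3_68, R4_159, R8_174⟩, ⟨nat_lit 6, nat_lit 12288, nat_lit 9648, nat_lit 9312, nat_lit 11760, nat_lit 15648, R3_194, R5_245, R9_326⟩]⟩, ⟨nat_lit 5, [⟨nat_lit 4, nat_lit 4080, nat_lit 9888, nat_lit 19680, nat_lit 8016, nat_lit 144, R10_410, R4_167, R5_3⟩]⟩]⟩]]]]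
noncomputable def N6734 : T3 (List N0) := [[[[], [⟨nat_lit 0, [⟨nat_lit 5, [⟨nat_lit 6, nat_lit 12816, nat_lit 2592, nat_lit 1008, nat_lit 4272, nat_lit 12816, R8_21, R7_89, R2_267⟩]⟩]⟩,
 ⟨nat_lit 2, [⟨nat_lit 5, [⟨nat_lit 4, nat_lit 12480, nat_lit 11808, nat_lit 14832, nat_lit 12144, nat_lit 15168, R5_309, R7_253, R7_316⟩, ⟨nat_lit 6, nat_lit 12864, nat_lit 11904, nat_lit 14880, nat_lit 12384, nat_lit 13152, R5_310, R14_258, R2_274⟩]⟩]⟩], [], [], [], [⟨nat_lit 0, [⟨nat_lit 4, [⟨nat_lit 6, nat_lit 3264, nat_lit 2208, nat_lit 1728, nat_lit 3456, nat_lit 7728, R6_36, R7_72, R13_161⟩]⟩, ⟨nat_lit 5, [⟨nat_lit 6, nat_lit 4128, nat_lit 2640, nat_lit 672, nat_lit 4416, nat_lit 6384, R8_14, R7_92, R3_133⟩]⟩, ⟨nat_lit 6, [⟨nat_lit 2, nat_lit 5232, nat_lit 3024, nat_lit 3696, nat_lit 3936, nat_lit 5808, R4_77, R4_82,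 R2_121⟩, ⟨nat_lit 6, nat_lit 4752, nat_lit 2928, nat_lit 1632, nat_lit 3936, nat_lit 13104, R4_34, R7_82, R3_273⟩]⟩]⟩,
 ⟨nat_lit 2, [⟨nat_lit 4, [⟨nat_lit 4, nat_lit 3120, nat_lit 10992, nat_lit 8736, nat_lit 15936, nat_lit 12576, R4_182, R7_332, R6_262⟩, ⟨nat_lit 6, nat_lit 3312, nat_lit 11088, nat_lit 9264, nat_lit 12960, nat_lit 7776, R4_193, R14_270, R13_162⟩]⟩, ⟨nat_lit 5, [⟨nat_lit 4, nat_lit 3984, nat_lit 11376, nat_lit 5184, nat_lit 16656, nat_lit 12912, R5_108, R7_347, R4_269⟩, ⟨nat_lit 6, nat_lit 4176, nat_lit 11424, nat_lit 5232, nat_lit 13008, nat_lit 6432, R5_109, R14_271, R3_134⟩]⟩]⟩]], [[], [⟨nat_lit 0, [⟨nat_lit 5, [⟨nat_lit 6, nat_lit 12912, nat_lit 720, nat_lit 6144, nat_lit 2688, nat_lit 13056, R8_128, R2_56, R2_272⟩]⟩]⟩,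
 ⟨nat_lit 1, [⟨nat_lit 5, [⟨nat_lit 6, nat_lit 13008, nat_lit 6864, nat_lit 5616, nat_lit 2160, nat_lit 13584, R9_117, R1_45, R2_283⟩]⟩]⟩,
 ⟨nat_lit 2, [⟨nat_lit 5, [⟨nat_lit 6, nat_lit 12960, nat_lit 10368, nat_lit 15840, nat_lit 9648, nat_lit 13440, R5_330, R12_201, R2_280⟩]⟩]⟩], [], [], [], [⟨nat_lit 0, [⟨nat_lit 4, [⟨nat_lit 6, nat_lit 3360, nat_lit 2064, nat_lit 7872, nat_lit 1776, nat_lit 7824, R6_164, R2_37, R13_163⟩]⟩, ⟨nat_lit 5, [⟨nat_lit 6, nat_lit 4224, nat_lit 7008, nat_lit 6048, nat_lit 2832, nat_lit 6480, R8_126, R2_59, R3_135⟩]⟩]⟩,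
 ⟨nat_lit 1, [⟨nat_lit 4, [⟨nat_lit 6, nat_lit 3456, nat_lit 2304, nat_lit 5568, nat_lit 1248, nat_lit 7920, R8_116, R1_26, R13_165⟩]⟩, ⟨nat_lit 5, [⟨nat_lit 6, nat_lit 4320, nat_lit 7200, nat_lit 5280, nat_lit 2304, nat_lit 6576, R9_110, R1_48, R3_137⟩]⟩, ⟨nat_lit 6, [⟨nat_lit 2, nat_lit 5328, nat_lit 9888, nat_lit 5520, nat_lit 1920, nat_lit 5904, R5_115, R10_40, R2_123⟩, ⟨nat_lit 6, nat_lit 4848, nat_lit 9936, nat_lit 5664, nat_lit 1776, nat_lit 13440, R5_118, R1_37, R3_280⟩]⟩]⟩]], [], [[], [⟨nat_lit 0, [⟨nat_lit 5, [⟨nat_lit 6, nat_lit 13056, nat_lit 2688, nat_lit 6912, nat_lit 720, nat_lit 12912, R8_144, R2_15, R2_269⟩]⟩]⟩,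
 ⟨nat_lit 2, [⟨nat_lit 5, [⟨nat_lit 4, nat_lit 12528, nat_lit 10992, nat_lit 15312, nat_lit 11568, nat_lit 15312, R5_319, R2_241, R7_319⟩, ⟨nat_lit 6, nat_lit 13104, nat_lit 11424, nat_lit 15360, nat_lit 2016, nat_lit 13296, R5_320, R12_42, R2_277⟩]⟩]⟩]]], [[], [[], [], [], [], [], [⟨nat_lit 1, [⟨nat_lit 4, [⟨nat_lit 6, nat_lit 3504, nat_lit 6000, nat_lit 14592, nat_lit 6672, nat_lit 8352, R5_304, R1_139, R13_174⟩]⟩, ⟨nat_lit 6, [⟨nat_lit 2, nat_lit 5376, nat_lit 6816, nat_lit 5136, nat_lit 8112, nat_lit 6336, R11_107, R10_169, R2_132⟩, ⟨nat_lit 6, nat_lit 4896, nat_lit 6720, nat_lit 5280, nat_lit 7200, nat_lit 13536, R11_110, R1_150, R3_282⟩]⟩]⟩]], [], [], [], [[], [], [], [], [], [⟨nat_lit 1, [⟨nat_lit 6, [⟨nat_lit 2, nat_lit 5424, nat_lit 2400, nat_lit 20784, nat_lit 12528, nat_lit 6288, R11_433, R1_261,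 R2_131⟩]⟩]⟩,
 ⟨nat_lit 5, [⟨nat_lit 6, [⟨nat_lit 2, nat_lit 5472, nat_lit 2448, nat_lit 12480, nat_lit 21072, nat_lit 6240, R1_260, R11_439, R2_130⟩]⟩]⟩]]], [[[⟨nat_lit 2, [⟨nat_lit 1, [⟨nat_lit 4, nat_lit 12000, nat_lit 576, nat_lit 13200, nat_lit 2880, nat_lit 14160, R1_275, R7_60, R6_295⟩]⟩]⟩], [⟨nat_lit 0, [⟨nat_lit 5, [⟨nat_lit 6, nat_lit 13152, nat_lit 12816, nat_lit 14880, nat_lit 12720, nat_lit 12864, R5_310, R7_265, R2_268⟩]⟩]⟩,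
 ⟨nat_lit 2, [⟨nat_lit 1, [⟨nat_lit 4, nat_lit 13728, nat_lit 14208, nat_lit 13248, nat_lit 12336, nat_lit 13920, R1_276, R7_257, R4_290⟩]⟩, ⟨nat_lit 5, [⟨nat_lit 4, nat_lit 12576, nat_lit 14256, nat_lit 18384, nat_lit 12192, nat_lit 15216, R11_383, R7_254, R7_317⟩, ⟨nat_lit 6, nat_lit 13200, nat_lit 15072, nat_lit 19200, nat_lit 14448, nat_lit 13200, R11_400, R14_301, R2_275⟩]⟩]⟩]], [[], [⟨nat_lit 0, [⟨nat_lit 5, [⟨nat_lit 6, nat_lit 13296, nat_lit 10080, nat_lit 15360, nat_lit 11424, nat_lit 13104, R5_320, R2_238, R2_273⟩]⟩]⟩,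
 ⟨nat_lit 2, [⟨nat_lit 5, [⟨nat_lit 6, nat_lit 13344, nat_lit 12144, nat_lit 19680, nat_lit 11520, nat_lit 13488, R11_410, R12_240, R2_281⟩]⟩]⟩]], [[⟨nat_lit 2, [⟨nat_lit 1, [⟨nat_lit 4, nat_lit 12048, nat_lit 0, nat_lit 13440, nat_lit 1008, nat_lit 14304, R1_280, R2_21, R6_298⟩, ⟨nat_lit 5, nat_lit 12336, nat_lit 3936, nat_lit 13584, nat_lit 336, nat_lit 19488, R1_283, R1_7, R13_406⟩]⟩]⟩], [⟨nat_lit 2, [⟨nat_lit 1, [⟨nat_lit 4, nat_lit 13776, nat_lit 9888, nat_lit 13488, nat_lit 10944, nat_lit 13968, R1_281, R2_228, R4_291⟩, ⟨nat_lit 5, nat_lit 13872, nat_lit 10608, nat_lit 13632, nat_lit 11328, nat_lit 15648, R1_284, R1_236, R3_326⟩]⟩, ⟨nat_lit 5, [⟨nat_lit 4, nat_lit 12624, nat_lit 9840, nat_lit 18816, nat_lit 10704, nat_lit 15264, R11_392, R2_223, R7_318⟩, ⟨nat_lit 5, nat_lit 12768, nat_lit 10560, nat_lit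 20976, nat_lit 11088, nat_lit 14352, R11_437, R1_231, R2_299⟩, ⟨nat_lit 6, nat_lit 13248, nat_lit 11904, nat_lit 20352, nat_lit 11472, nat_lit 13248, R11_424, R12_239, R2_276⟩]⟩]⟩], [⟨nat_lit 2, [⟨nat_lit 1, [⟨nat_lit 5, nat_lit 14112, nat_lit 3408, nat_lit 13680, nat_lit 6000, nat_lit 15840, R1_285, R1_125, R3_330⟩]⟩]⟩]], [[⟨nat_lit 2, [⟨nat_lit 1, [⟨nat_lit 4, nat_lit 12096, nat_lit 1728, nat_lit 13296, nat_lit 672, nat_lit 14352, R1_277, R2_14, R6_299⟩]⟩]⟩], [⟨nat_lit 0, [⟨nat_lit 5, [⟨nat_lit 6, nat_lit 13440, nat_lit 2208, nat_lit 15840, nat_lit 10368, nat_lit 12960, R5_330, R2_216, R2_270⟩]⟩]⟩,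
 ⟨nat_lit 2, [⟨nat_lit 1, [⟨nat_lit 4, nat_lit 13824, nat_lit 9744, nat_lit 13344, nat_lit 10320, nat_lit 14016, R1_278, R2_215, R4_292⟩]⟩, ⟨nat_lit 5, [⟨nat_lit 4, nat_lit 12672, nat_lit 9984, nat_lit 18624, nat_lit 11664, nat_lit 15360, R11_388, R2_243, R7_320⟩, ⟨nat_lit 6, nat_lit 13488, nat_lit 12000, nat_lit 20160, nat_lit 11712, nat_lit 13344, R11_420, R12_244, R2_278⟩]⟩]⟩], [], [⟨nat_lit 2, [⟨nat_lit 1, [⟨nat_lit 4, nat_lit 14928, nat_lit 1200, nat_lit 13392, nat_lit 6480, nat_lit 15072, R1_279, R2_135, R8_314⟩, ⟨nat_lit 7, nat_lit 15312, nat_lit 6624, nat_lit 13536, nat_lit 5184, nat_lit 16560, R1_282, R1_108, R5_345⟩]⟩]⟩]]], [[[], [], [], [], [], [⟨nat_lit 0, [⟨nat_lit 4, [⟨nat_lit 6, nat_lit 3552, nat_lit 2592, nat_lit 16368, nat_lit 9600, nat_lit 7968, R13_341, R7_200, R13_166⟩]⟩, ⟨nat_lit 5, [⟨nat_lit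 6, nat_lit 4416, nat_lit 3024, nat_lit 14064, nat_lit 11280, nat_lit 6624, R9_293, R7_235, R3_138⟩]⟩, ⟨nat_lit 6, [⟨nat_lit 2, nat_lit 5520, nat_lit 768, nat_lit 13680, nat_lit 10272, nat_lit 5952, R3_285, R4_214, R2_124⟩, ⟨nat_lit 6, nat_lit 4944, nat_lit 3168, nat_lit 12432, nat_lit 10944, nat_lit 13152, R3_259, R7_228, R3_274⟩]⟩, ⟨nat_lit 7, [⟨nat_lit 6, nat_lit 6528, nat_lit 2784, nat_lit 1776, nat_lit 10464, nat_lit 5760, R3_37, R7_218, R9_120⟩]⟩]⟩,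
 ⟨nat_lit 2, [⟨nat_lit 4, [⟨nat_lit 4, nat_lit 3168, nat_lit 12816, nat_lit 11136, nat_lit 15984, nat_lit 12624, R3_232, R7_333, R6_263⟩, ⟨nat_lit 6, nat_lit 3600, nat_lit 13824, nat_lit 12048, nat_lit 13296, nat_lit 8016, R3_251, R14_277, R13_167⟩]⟩, ⟨nat_lit 7, [⟨nat_lit 4, nat_lit 6384, nat_lit 12960, nat_lit 14496, nat_lit 16224, nat_lit 14544, R10_302, R7_338, R8_303⟩, ⟨nat_lit 6, nat_lit 6576, nat_lit 14016, nat_lit 15792, nat_lit 13344, nat_lit 5808, R10_329, R14_278, R9_121⟩]⟩]⟩,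
 ⟨nat_lit 3, [⟨nat_lit 6, [⟨nat_lit 2, nat_lit 5568, nat_lit 7728, nat_lit 13584, nat_lit 7008, nat_lit 6000, R10_283, R5_146, R2_125⟩]⟩]⟩]], [], [], [[], [⟨nat_lit 0, [⟨nat_lit 5, [⟨nat_lit 6, nat_lit 13584, nat_lit 2160, nat_lit 14688, nat_lit 6864, nat_lit 13008, R9_306, R2_143, R2_271⟩]⟩]⟩], [], [], [], [⟨nat_lit 0, [⟨nat_lit 4, [⟨nat_lit 6, nat_lit 3792, nat_lit 2592, nat_lit 17664, nat_lit 3792, nat_lit 8064, R13_368, R2_79, R13_168⟩]⟩, ⟨nat_lit 5, [⟨nat_lit 6, nat_lit 4608, nat_lit 2784, nat_lit 14640, nat_lit 6768, nat_lit 6720, R9_305, R2_141, R3_140⟩]⟩, ⟨nat_lit 6, [⟨nat_lit 6, nat_lit 5088, nat_lit 3168, nat_lit 13200, nat_lit 5088, nat_lit 13200, R3_275, R2_106, R3_275⟩]⟩, ⟨nat_lit 7, [⟨nat_lit 6, nat_lit 6768, nat_lit 3024, nat_lit 6720, nat_lit 4608, nat_lit 5856, R3_140, R2_96, R9_122⟩]⟩]⟩,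
 ⟨nat_lit 2, [⟨nat_lit 4, [⟨nat_lit 4, nat_lit 3216, nat_lit 2544, nat_lit 11184, nat_lit 14592, nat_lit 12672, R3_233, R2_304, R6_264⟩, ⟨nat_lit 6, nat_lit 3840, nat_lit 2688, nat_lit 12096, nat_lit 5376, nat_lit 8112, R3_252, R12_112, R13_169⟩]⟩, ⟨nat_lit 7, [⟨nat_lit 4, nat_lit 6432, nat_lit 2928, nat_lit 15024, nat_lit 15168, nat_lit 15024, R10_313, R2_316, R8_313⟩, ⟨nat_lit 6, nat_lit 6816, nat_lit 3072, nat_lit 17520, nat_lit 5568, nat_lit 5904, R10_365, R12_116, R9_123⟩, ⟨nat_lit 7, nat_lit 7008, nat_lit 2976, nat_lit 18528, nat_lit 16176, nat_lit 5952, R10_386, R1_337, R5_124⟩]⟩]⟩,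
 ⟨nat_lit 3, [⟨nat_lit 4, [⟨nat_lit 6, nat_lit 3888, nat_lit 2640, nat_lit 8976, nat_lit 3264, nat_lit 8160, R3_187, R1_68, R13_170⟩]⟩, ⟨nat_lit 6, [⟨nat_lit 2, nat_lit 5760, nat_lit 3120, nat_lit 13632, nat_lit 6624, nat_lit 6048, R10_284, R11_138, R2_126⟩, ⟨nat_lit 6, nat_lit 5136, nat_lit 3216, nat_lit 14160, nat_lit 3792, nat_lit 13344, R10_295, R1_79, R3_278⟩]⟩]⟩]]], [[], [], [], [[], [], [], [], [], [], [], [⟨nat_lit 2, [⟨nat_lit 0, [⟨nat_lit 7, nat_lit 10512, nat_lit 10752, nat_lit 13680, nat_lit 13104, nat_lit 14832, R4_285, R1_273, R7_309⟩]⟩, ⟨nat_lit 3, [⟨nat_lit 4, nat_lit 11568, nat_lit 10992, nat_lit 15312, nat_lit 12528, nat_lit 15312, R5_319, R2_261, R7_319⟩, ⟨nat_lit 7, nat_lit 11712, nat_lit 11040, nat_lit 15504, nat_lit 13872, nat_lit 5856, R5_323, R1_289, R14_122⟩]⟩]⟩,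
 ⟨nat_lit 6, [⟨nat_lit 0, [⟨nat_lit 3, nat_lit 10752, nat_lit 10512, nat_lit 14832, nat_lit 13104, nat_lit 13680, R7_309, R1_273, R4_285⟩, ⟨nat_lit 7, nat_lit 10560, nat_lit 10560, nat_lit 14928, nat_lit 18768, nat_lit 14928, R7_311, R11_391, R7_311⟩]⟩, ⟨nat_lit 2, [⟨nat_lit 3, nat_lit 11040, nat_lit 11712, nat_lit 7920, nat_lit 13872, nat_lit 15504, R14_165, R1_289, R5_323⟩]⟩]⟩]], [[], [], [], [], [⟨nat_lit 4, [⟨nat_lit 2, [⟨nat_lit 0, nat_lit 1104, nat_lit 3936, nat_lit 3072, nat_lit 1488, nat_lit 7440, R7_64, R6_31, R6_155⟩, ⟨nat_lit 2, nat_lit 1920, nat_lit 4176, nat_lit 3648, nat_lit 1488, nat_lit 8160, R7_76, R4_31, R4_170⟩]⟩, ⟨nat_lit 6, [⟨nat_lit 2, nat_lit 96, nat_lit 3312, nat_lit 3600, nat_lit 3504, nat_lit 7008, R4_75, R4_73, R7_146⟩]⟩]⟩,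
 ⟨nat_lit 6, [⟨nat_lit 2, [⟨nat_lit 0, nat_lit 1152, nat_lit 11424, nat_lit 8112, nat_lit 3312, nat_lit 7488, R14_169, R4_69, R6_156⟩]⟩]⟩], [⟨nat_lit 4, [⟨nat_lit 6, [⟨nat_lit 2, nat_lit 5808, nat_lit 3024, nat_lit 3696, nat_lit 3936, nat_lit 5232, R4_77, R4_82, R2_109⟩]⟩]⟩], [⟨nat_lit 4, [⟨nat_lit 2, [⟨nat_lit 0, nat_lit 8160, nat_lit 1728, nat_lit 3264, nat_lit 1872, nat_lit 9792, R7_68, R6_39, R13_204⟩, ⟨nat_lit 1, nat_lit 8784, nat_lit 2592, nat_lit 4128, nat_lit 2016, nat_lit 7632, R7_86, R8_42, R3_159⟩, ⟨nat_lit 2, nat_lit 9696, nat_lit 2928, nat_lit 3792, nat_lit 1728, nat_lit 12768, R7_79, R4_36, R3_266⟩]⟩, ⟨nat_lit 6, [⟨nat_lit 2, nat_lit 7104, nat_lit 3024, nat_lit 3840, nat_lit 3840, nat_lit 7104, R4_80, R4_80, R2_148⟩]⟩]⟩,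
 ⟨nat_lit 6, [⟨nat_lit 0, [⟨nat_lit 0, nat_lit 7440, nat_lit 9600, nat_lit 15744, nat_lit 8784, nat_lit 12336, R7_328, R4_183, R6_257⟩, ⟨nat_lit 1, nat_lit 7680, nat_lit 10176, nat_lit 16464, nat_lit 6000, nat_lit 12576, R7_343, R5_125, R4_262⟩]⟩, ⟨nat_lit 2, [⟨nat_lit 0, nat_lit 8208, nat_lit 9696, nat_lit 8592, nat_lit 9312, nat_lit 9840, R14_179, R4_194, R13_205⟩, ⟨nat_lit 1, nat_lit 8832, nat_lit 10272, nat_lit 8640, nat_lit 6048, nat_lit 7680, R14_180, R5_126, R3_160⟩]⟩]⟩]], [], [[], [], [], [], [], [], [⟨nat_lit 6, [⟨nat_lit 0, [⟨nat_lit 1, nat_lit 7728, nat_lit 12768, nat_lit 16608, nat_lit 18432, nat_lit 12624, R7_346, R11_384, R4_263⟩]⟩, ⟨nat_lit 2, [⟨nat_lit 1, nat_lit 8928, nat_lit 13776, nat_lit 10992, nat_lit 19248, nat_lit 7968, R14_229, R11_401, R3_166⟩]⟩]⟩]], [[], [], [], [], [⟨nat_lit 4, [⟨nat_lit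 2, [⟨nat_lit 0, nat_lit 1200, nat_lit 14064, nat_lit 9264, nat_lit 16416, nat_lit 7728, R7_193, R13_342, R6_161⟩, ⟨nat_lit 2, nat_lit 1968, nat_lit 14160, nat_lit 10704, nat_lit 12480, nat_lit 8304, R7_223, R3_260, R4_173⟩]⟩, ⟨nat_lit 6, [⟨nat_lit 2, nat_lit 144, nat_lit 12960, nat_lit 9888, nat_lit 13728, nat_lit 7056, R4_206, R3_286, R7_147⟩]⟩]⟩,
 ⟨nat_lit 6, [⟨nat_lit 0, [⟨nat_lit 3, nat_lit 912, nat_lit 13440, nat_lit 13392, nat_lit 14544, nat_lit 4992, R7_279, R10_303, R6_104⟩]⟩, ⟨nat_lit 2, [⟨nat_lit 0, nat_lit 1248, nat_lit 14544, nat_lit 9168, nat_lit 11712, nat_lit 7776, R14_191, R3_244, R6_162⟩, ⟨nat_lit 3, nat_lit 2448, nat_lit 14592, nat_lit 9216, nat_lit 15840, nat_lit 4944, R14_192, R10_330, R8_103⟩]⟩]⟩,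
 ⟨nat_lit 7, [⟨nat_lit 6, [⟨nat_lit 2, nat_lit 192, nat_lit 13152, nat_lit 4896, nat_lit 13296, nat_lit 7104, R5_102, R10_277, R7_148⟩]⟩]⟩], [⟨nat_lit 4, [⟨nat_lit 6, [⟨nat_lit 2, nat_lit 5856, nat_lit 9648, nat_lit 10032, nat_lit 13824, nat_lit 5280, R4_209, R3_288, R2_110⟩]⟩]⟩,
 ⟨nat_lit 7, [⟨nat_lit 6, [⟨nat_lit 2, nat_lit 5904, nat_lit 9888, nat_lit 5520, nat_lit 13824, nat_lit 5328, R5_115, R10_288, R2_111⟩]⟩]⟩], [], [⟨nat_lit 6, [⟨nat_lit 0, [⟨nat_lit 3, nat_lit 10800, nat_lit 10368, nat_lit 14784, nat_lit 14592, nat_lit 13632, R7_308, R10_304, R4_284⟩]⟩, ⟨nat_lit 2, [⟨nat_lit 3, nat_lit 11136, nat_lit 10896, nat_lit 9984, nat_lit 15888, nat_lit 15456, R14_208, R10_331, R5_322⟩]⟩]⟩]]], [[], [], [], [], [[], [], [], [], [⟨nat_lit 4, [⟨nat_lit 6, [⟨nat_lit 2, nat_lit 240, nat_lit 9456, nat_lit 13632, nat_lit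 9792, nat_lit 7296, R3_284, R4_204, R7_152⟩]⟩]⟩,
 ⟨nat_lit 5, [⟨nat_lit 6, [⟨nat_lit 2, nat_lit 288, nat_lit 9984, nat_lit 1584, nat_lit 6096, nat_lit 7344, R10_33, R5_127, R7_153⟩]⟩]⟩,
 ⟨nat_lit 6, [⟨nat_lit 2, [⟨nat_lit 0, nat_lit 1440, nat_lit 2832, nat_lit 6720, nat_lit 3408, nat_lit 7632, R12_140, R4_71, R6_159⟩]⟩]⟩], [⟨nat_lit 4, [⟨nat_lit 6, [⟨nat_lit 2, nat_lit 5952, nat_lit 768, nat_lit 13680, nat_lit 10272, nat_lit 5520, R3_285, R4_214, R2_115⟩]⟩]⟩,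
 ⟨nat_lit 5, [⟨nat_lit 6, [⟨nat_lit 2, nat_lit 6000, nat_lit 7728, nat_lit 1680, nat_lit 7008, nat_lit 5568, R10_35, R5_146, R2_116⟩]⟩]⟩]], [[], [], [], [], [⟨nat_lit 5, [⟨nat_lit 6, [⟨nat_lit 2, nat_lit 336, nat_lit 3120, nat_lit 7776, nat_lit 5712, nat_lit 7536, R10_162, R11_119, R7_157⟩]⟩]⟩], [⟨nat_lit 5, [⟨nat_lit 6, [⟨nat_lit 2, nat_lit 6048, nat_lit 3120, nat_lit 7872, nat_lit 6624, nat_lit 5760, R10_164, R11_138, R2_120⟩]⟩]⟩]], [], [[], [], [], [], [⟨nat_lit 4, [⟨nat_lit 6, [⟨nat_lit 2, nat_lit 384, nat_lit 3216, nat_lit 14400, nat_lit 14496, nat_lit 7392, R3_300, R3_302, R7_154⟩]⟩]⟩,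
 ⟨nat_lit 6, [⟨nat_lit 2, [⟨nat_lit 0, nat_lit 1632, nat_lit 1008, nat_lit 8064, nat_lit 11808, nat_lit 8064, R12_168, R3_246, R6_168⟩, ⟨nat_lit 3, nat_lit 2592, nat_lit 1440, nat_lit 8112, nat_lit 16704, nat_lit 6576, R12_169, R10_348, R8_137⟩]⟩]⟩]]], [[[⟨nat_lit 2, [⟨nat_lit 1, [⟨nat_lit 4, nat_lit 12144, nat_lit 384, nat_lit 14928, nat_lit 2928, nat_lit 14112, R10_311, R7_61, R6_294⟩]⟩]⟩,
 ⟨nat_lit 6, [⟨nat_lit 1, [⟨nat_lit 4, nat_lit 12192, nat_lit 432, nat_lit 96, nat_lit 3264, nat_lit 14064, R1_2, R4_68, R6_293⟩]⟩]⟩], [], [], [⟨nat_lit 2, [⟨nat_lit 0, [⟨nat_lit 4, nat_lit 14400, nat_lit 2544, nat_lit 11088, nat_lit 8736, nat_lit 13152, R3_231, R7_182, R6_274⟩]⟩, ⟨nat_lit 1, [⟨nat_lit 4, nat_lit 14976, nat_lit 2928, nat_lit 14976, nat_lit 9024, nat_lit 14880, R10_312, R7_188, R8_310⟩]⟩]⟩,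
 ⟨nat_lit 6, [⟨nat_lit 0, [⟨nat_lit 4, nat_lit 14448, nat_lit 432, nat_lit 7536, nat_lit 8832, nat_lit 12432, R2_157, R4_184, R6_259⟩, ⟨nat_lit 7, nat_lit 14736, nat_lit 7392, nat_lit 7824, nat_lit 6912, nat_lit 12720, R2_163, R5_144, R4_265⟩]⟩, ⟨nat_lit 1, [⟨nat_lit 4, nat_lit 15024, nat_lit 528, nat_lit 8064, nat_lit 9168, nat_lit 14832, R1_168, R4_191, R8_309⟩, ⟨nat_lit 7, nat_lit 15360, nat_lit 7488, nat_lit 8352, nat_lit 7200, nat_lit 16656, R1_174, R5_150, R5_347⟩]⟩]⟩]], [], [[⟨nat_lit 2, [⟨nat_lit 0, [⟨nat_lit 5, nat_lit 11904, nat_lit 624, nat_lit 15936, nat_lit 192, nat_lit 13968, R3_332, R1_4, R6_291⟩]⟩, ⟨nat_lit 1, [⟨nat_lit 4, nat_lit 12240, nat_lit 3696, nat_lit 15072, nat_lit 1056, nat_lit 14256, R10_314, R2_22, R6_297⟩, ⟨nat_lit 5, nat_lit 12384, nat_lit 4224, nat_lit 15216, nat_lit 384, nat_lit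 19536, R10_317, R1_8, R13_407⟩]⟩]⟩,
 ⟨nat_lit 6, [⟨nat_lit 0, [⟨nat_lit 5, nat_lit 11952, nat_lit 576, nat_lit 960, nat_lit 15360, nat_lit 14016, R2_20, R10_320, R6_292⟩]⟩, ⟨nat_lit 1, [⟨nat_lit 4, nat_lit 12288, nat_lit 3648, nat_lit 144, nat_lit 15984, nat_lit 14208, R1_3, R3_333, R6_296⟩, ⟨nat_lit 5, nat_lit 12432, nat_lit 4176, nat_lit 288, nat_lit 15504, nat_lit 19584, R1_6, R10_323, R13_408⟩]⟩]⟩], [], [⟨nat_lit 2, [⟨nat_lit 0, [⟨nat_lit 5, nat_lit 13920, nat_lit 12240, nat_lit 16704, nat_lit 5904, nat_lit 13776, R3_348, R1_123, R4_287⟩]⟩, ⟨nat_lit 1, [⟨nat_lit 5, nat_lit 14160, nat_lit 12336, nat_lit 15312, nat_lit 6048, nat_lit 15792, R10_319, R1_126, R3_329⟩]⟩]⟩,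
 ⟨nat_lit 6, [⟨nat_lit 0, [⟨nat_lit 5, nat_lit 13968, nat_lit 12192, nat_lit 10896, nat_lit 15408, nat_lit 13824, R2_227, R10_321, R4_288⟩]⟩, ⟨nat_lit 1, [⟨nat_lit 5, nat_lit 14208, nat_lit 12288, nat_lit 11280, nat_lit 15552, nat_lit 15744, R1_235, R10_324, R3_328⟩]⟩]⟩]], [[], [], [], [⟨nat_lit 2, [⟨nat_lit 0, [⟨nat_lit 4, nat_lit 14592, nat_lit 15744, nat_lit 11184, nat_lit 3216, nat_lit 13200, R3_233, R2_67, R6_275⟩, ⟨nat_lit 7, nat_lit 14832, nat_lit 15792, nat_lit 15216, nat_lit 2688, nat_lit 13200, R3_317, R1_56, R4_275⟩]⟩, ⟨nat_lit 1, [⟨nat_lit 4, nat_lit 15168, nat_lit 15888, nat_lit 15024, nat_lit 6432, nat_lit 15024, R10_313, R2_134, R8_313⟩, ⟨nat_lit 7, nat_lit 15456, nat_lit 15936, nat_lit 15168, nat_lit 5136, nat_lit 16608, R10_316, R1_107, R5_346⟩]⟩]⟩,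
 ⟨nat_lit 6, [⟨nat_lit 0, [⟨nat_lit 7, nat_lit 14880, nat_lit 15696, nat_lit 7872, nat_lit 18864, nat_lit 12768, R2_164, R11_393, R4_266⟩]⟩, ⟨nat_lit 1, [⟨nat_lit 7, nat_lit 15504, nat_lit 15840, nat_lit 8400, nat_lit 19056, nat_lit 16752, R1_175, R11_397, R5_349⟩]⟩]⟩], [], [], [], [⟨nat_lit 2, [⟨nat_lit 0, [⟨nat_lit 7, nat_lit 10608, nat_lit 11136, nat_lit 15360, nat_lit 13152, nat_lit 15072, R3_320, R1_274, R7_314⟩]⟩]⟩,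
 ⟨nat_lit 6, [⟨nat_lit 0, [⟨nat_lit 3, nat_lit 10848, nat_lit 10896, nat_lit 14016, nat_lit 13728, nat_lit 13872, R2_292, R1_286, R4_289⟩, ⟨nat_lit 7, nat_lit 10656, nat_lit 10944, nat_lit 14064, nat_lit 18912, nat_lit 15120, R2_293, R11_394, R7_315⟩]⟩, ⟨nat_lit 2, [⟨nat_lit 3, nat_lit 11184, nat_lit 12144, nat_lit 3840, nat_lit 15072, nat_lit 15600, R12_80, R1_314, R5_325⟩]⟩]⟩]], [[], [], [], [], [⟨nat_lit 6, [⟨nat_lit 2, [⟨nat_lit 0, nat_lit 1296, nat_lit 2352, nat_lit 2784, nat_lit 3456, nat_lit 7536, R12_58, R4_72, R6_157⟩]⟩]⟩], [], [⟨nat_lit 6, [⟨nat_lit 0, [⟨nat_lit 0, nat_lit 7536, nat_lit 432, nat_lit 14448, nat_lit 8832, nat_lit 12432, R2_301, R4_184, R6_259⟩, ⟨nat_lit 1, nat_lit 7824, nat_lit 7392, nat_lit 14736, nat_lit 6912, nat_lit 12720, R2_307, R5_144, R4_265⟩]⟩, ⟨nat_lit 2, [⟨nat_lit 0, nat_lit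 8352, nat_lit 480, nat_lit 4128, nat_lit 9504, nat_lit 9888, R12_86, R4_198, R13_206⟩, ⟨nat_lit 1, nat_lit 9072, nat_lit 7440, nat_lit 4176, nat_lit 6960, nat_lit 7728, R12_87, R5_145, R3_161⟩]⟩]⟩]], [], [[], [], [⟨nat_lit 6, [⟨nat_lit 0, [⟨nat_lit 1, nat_lit 14064, nat_lit 10944, nat_lit 10656, nat_lit 18912, nat_lit 15120, R2_222, R11_394, R7_315⟩, ⟨nat_lit 5, nat_lit 14016, nat_lit 10896, nat_lit 10848, nat_lit 13728, nat_lit 13872, R2_226, R1_286, R4_289⟩]⟩, ⟨nat_lit 1, [⟨nat_lit 1, nat_lit 14304, nat_lit 11040, nat_lit 11040, nat_lit 21024, nat_lit 14304, R1_230, R11_438, R2_298⟩, ⟨nat_lit 5, nat_lit 14256, nat_lit 10992, nat_lit 11232, nat_lit 13776, nat_lit 15696, R1_234, R1_287, R3_327⟩]⟩, ⟨nat_lit 2, [⟨nat_lit 1, nat_lit 14352, nat_lit 11088, nat_lit 6384, nat_lit 20448, nat_lit 12768, R12_133, R11_426,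 R2_266⟩]⟩]⟩], [], [], [], [⟨nat_lit 6, [⟨nat_lit 0, [⟨nat_lit 1, nat_lit 7872, nat_lit 15696, nat_lit 14880, nat_lit 18864, nat_lit 12768, R2_310, R11_393, R4_266⟩]⟩, ⟨nat_lit 2, [⟨nat_lit 1, nat_lit 9120, nat_lit 16848, nat_lit 5520, nat_lit 20400, nat_lit 8016, R12_115, R11_425, R3_167⟩]⟩]⟩]], [[], [], [], [], [⟨nat_lit 6, [⟨nat_lit 0, [⟨nat_lit 3, nat_lit 960, nat_lit 576, nat_lit 11952, nat_lit 15360, nat_lit 6336, R2_249, R10_320, R6_132⟩]⟩, ⟨nat_lit 2, [⟨nat_lit 0, nat_lit 1344, nat_lit 2160, nat_lit 3168, nat_lit 11856, nat_lit 7824, R12_66, R3_247, R6_163⟩, ⟨nat_lit 3, nat_lit 2496, nat_lit 2688, nat_lit 3216, nat_lit 18048, nat_lit 5808, R12_67, R10_376, R8_121⟩]⟩]⟩], [], [], [⟨nat_lit 6, [⟨nat_lit 0, [⟨nat_lit 3, nat_lit 10896, nat_lit 12192, nat_lit 13968, nat_lit 15408, nat_lit 13824, R2_291, R10_321,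 R4_288⟩]⟩, ⟨nat_lit 2, [⟨nat_lit 3, nat_lit 11232, nat_lit 12912, nat_lit 3648, nat_lit 18096, nat_lit 15552, R12_76, R10_377, R5_324⟩]⟩]⟩]]], [[], [], [], [[], [], [], [], [⟨nat_lit 0, [⟨nat_lit 7, [⟨nat_lit 6, nat_lit 720, nat_lit 2688, nat_lit 12912, nat_lit 13056, nat_lit 6144, R2_269, R2_272, R8_128⟩]⟩]⟩,
 ⟨nat_lit 2, [⟨nat_lit 3, [⟨nat_lit 7, nat_lit 2928, nat_lit 576, nat_lit 18672, nat_lit 12432, nat_lit 7200, R11_389, R1_259, R7_150⟩]⟩, ⟨nat_lit 7, [⟨nat_lit 4, nat_lit 672, nat_lit 1728, nat_lit 13296, nat_lit 12096, nat_lit 7392, R1_277, R2_252, R6_154⟩, ⟨nat_lit 6, nat_lit 768, nat_lit 2784, nat_lit 14256, nat_lit 13824, nat_lit 6192, R1_297, R12_288, R8_129⟩, ⟨nat_lit 7, nat_lit 864, nat_lit 2256, nat_lit 15264, nat_lit 12672, nat_lit 8112, R1_318, R1_264, R4_169⟩]⟩]⟩,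
 ⟨nat_lit 3, [⟨nat_lit 4, [⟨nat_lit 6, nat_lit 0, nat_lit 1008, nat_lit 12048, nat_lit 13440, nat_lit 6768, R2_251, R1_280, R6_141⟩]⟩, ⟨nat_lit 7, [⟨nat_lit 6, nat_lit 816, nat_lit 2736, nat_lit 13680, nat_lit 14400, nat_lit 6240, R12_285, R1_300, R8_130⟩]⟩]⟩,
 ⟨nat_lit 4, [⟨nat_lit 2, [⟨nat_lit 3, nat_lit 2688, nat_lit 720, nat_lit 12912, nat_lit 13056, nat_lit 6144, R2_269, R2_272, R8_128⟩]⟩]⟩,
 ⟨nat_lit 6, [⟨nat_lit 0, [⟨nat_lit 3, nat_lit 1008, nat_lit 0, nat_lit 12048, nat_lit 13440, nat_lit 6768, R2_251, R1_280, R6_141⟩]⟩, ⟨nat_lit 2, [⟨nat_lit 3, nat_lit 2736, nat_lit 816, nat_lit 13680, nat_lit 14400, nat_lit 6240, R12_285, R1_300, R8_130⟩]⟩]⟩,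
 ⟨nat_lit 7, [⟨nat_lit 2, [⟨nat_lit 0, nat_lit 1728, nat_lit 672, nat_lit 13296, nat_lit 12096, nat_lit 7392, R1_277, R2_252, R6_154⟩, ⟨nat_lit 2, nat_lit 2256, nat_lit 864, nat_lit 15264, nat_lit 12672, nat_lit 8112, R1_318, R1_264, R4_169⟩, ⟨nat_lit 3, nat_lit 2784, nat_lit 768, nat_lit 14256, nat_lit 13824, nat_lit 6192, R1_297, R12_288, R8_129⟩]⟩, ⟨nat_lit 6, [⟨nat_lit 2, nat_lit 576, nat_lit 2928, nat_lit 18672, nat_lit 12432, nat_lit 7200, R11_389, R1_259, R7_150⟩]⟩]⟩], [⟨nat_lit 0, [⟨nat_lit 7, [⟨nat_lit 6, nat_lit 6864, nat_lit 2160, nat_lit 13008, nat_lit 13584, nat_lit 5616, R2_271, R2_283, R9_117⟩]⟩]⟩,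
 ⟨nat_lit 2, [⟨nat_lit 7, [⟨nat_lit 4, nat_lit 6480, nat_lit 1200, nat_lit 13392, nat_lit 14928, nat_lit 15072, R1_279, R2_311, R8_314⟩, ⟨nat_lit 6, nat_lit 6912, nat_lit 2256, nat_lit 14352, nat_lit 14736, nat_lit 5664, R1_299, R12_307, R9_118⟩, ⟨nat_lit 7, nat_lit 7056, nat_lit 1728, nat_lit 15312, nat_lit 15936, nat_lit 5904, R1_319, R1_332, R5_123⟩]⟩]⟩,
 ⟨nat_lit 3, [⟨nat_lit 4, [⟨nat_lit 6, nat_lit 3936, nat_lit 336, nat_lit 12336, nat_lit 13584, nat_lit 7680, R2_257, R1_283, R13_160⟩]⟩, ⟨nat_lit 6, [⟨nat_lit 2, nat_lit 6240, nat_lit 2448, nat_lit 12480, nat_lit 21072, nat_lit 5472, R1_260, R11_439, R2_114⟩, ⟨nat_lit 6, nat_lit 5184, nat_lit 2496, nat_lit 12912, nat_lit 15456, nat_lit 13392, R1_269, R1_322, R3_279⟩]⟩, ⟨nat_lit 7, [⟨nat_lit 6, nat_lit 6960, nat_lit 2208, nat_lit 13728, nat_lit 14928, nat_lit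 5712, R12_286, R1_311, R9_119⟩]⟩]⟩,
 ⟨nat_lit 7, [⟨nat_lit 6, [⟨nat_lit 2, nat_lit 6288, nat_lit 2400, nat_lit 20784, nat_lit 12528, nat_lit 5424, R11_433, R1_261, R2_113⟩]⟩]⟩], [], [⟨nat_lit 0, [⟨nat_lit 7, [⟨nat_lit 6, nat_lit 10368, nat_lit 9648, nat_lit 12960, nat_lit 13440, nat_lit 15840, R2_270, R2_280, R5_330⟩]⟩]⟩,
 ⟨nat_lit 2, [⟨nat_lit 3, [⟨nat_lit 4, nat_lit 11664, nat_lit 9984, nat_lit 18624, nat_lit 12672, nat_lit 15360, R11_388, R2_264, R7_320⟩, ⟨nat_lit 7, nat_lit 11808, nat_lit 10032, nat_lit 18720, nat_lit 14016, nat_lit 6000, R11_390, R1_292, R14_125⟩]⟩, ⟨nat_lit 7, [⟨nat_lit 4, nat_lit 10320, nat_lit 9744, nat_lit 13344, nat_lit 13824, nat_lit 14016, R1_278, R2_288, R4_292⟩, ⟨nat_lit 6, nat_lit 10416, nat_lit 9792, nat_lit 14304, nat_lit 14496, nat_lit 15888, R1_298, R12_302, R5_331⟩]⟩]⟩,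
 ⟨nat_lit 3, [⟨nat_lit 7, [⟨nat_lit 6, nat_lit 10464, nat_lit 9696, nat_lit 13776, nat_lit 14784, nat_lit 15936, R12_287, R1_308, R5_332⟩]⟩]⟩,
 ⟨nat_lit 4, [⟨nat_lit 2, [⟨nat_lit 3, nat_lit 11424, nat_lit 10080, nat_lit 13296, nat_lit 13104, nat_lit 15360, R2_277, R2_273, R5_320⟩]⟩]⟩,
 ⟨nat_lit 6, [⟨nat_lit 0, [⟨nat_lit 3, nat_lit 10944, nat_lit 9888, nat_lit 13776, nat_lit 13488, nat_lit 13968, R2_287, R1_281, R4_291⟩, ⟨nat_lit 7, nat_lit 10704, nat_lit 9840, nat_lit 12624, nat_lit 18816, nat_lit 15264, R2_263, R11_392, R7_318⟩]⟩, ⟨nat_lit 2, [⟨nat_lit 3, nat_lit 11472, nat_lit 10176, nat_lit 14304, nat_lit 14448, nat_lit 15648, R12_298, R1_301, R5_326⟩]⟩]⟩,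
 ⟨nat_lit 7, [⟨nat_lit 2, [⟨nat_lit 3, nat_lit 11520, nat_lit 10128, nat_lit 14640, nat_lit 13872, nat_lit 15744, R1_305, R12_289, R5_328⟩]⟩]⟩]], [], [], [], [[], [], [], [], [⟨nat_lit 4, [⟨nat_lit 2, [⟨nat_lit 0, nat_lit 1776, nat_lit 2064, nat_lit 3360, nat_lit 17712, nat_lit 7872, R2_70, R13_369, R6_164⟩, ⟨nat_lit 2, nat_lit 2304, nat_lit 9696, nat_lit 4800, nat_lit 13248, nat_lit 8352, R2_100, R3_276, R4_174⟩, ⟨nat_lit 3, nat_lit 2832, nat_lit 7008, nat_lit 4224, nat_lit 6480, nat_lit 6048, R2_88, R3_135, R8_126⟩]⟩]⟩,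
 ⟨nat_lit 6, [⟨nat_lit 0, [⟨nat_lit 3, nat_lit 1056, nat_lit 3696, nat_lit 12240, nat_lit 15072, nat_lit 6720, R2_255, R10_314, R6_140⟩]⟩, ⟨nat_lit 2, [⟨nat_lit 0, nat_lit 1824, nat_lit 2208, nat_lit 3024, nat_lit 11760, nat_lit 7920, R12_63, R3_245, R6_165⟩, ⟨nat_lit 3, nat_lit 2880, nat_lit 7104, nat_lit 3264, nat_lit 17568, nat_lit 6096, R12_68, R10_366, R8_127⟩]⟩]⟩,
 ⟨nat_lit 7, [⟨nat_lit 2, [⟨nat_lit 0, nat_lit 1872, nat_lit 2112, nat_lit 2832, nat_lit 3120, nat_lit 7968, R1_59, R3_65, R6_166⟩, ⟨nat_lit 2, nat_lit 2352, nat_lit 9792, nat_lit 3504, nat_lit 14016, nat_lit 8400, R1_73, R10_292, R4_175⟩]⟩, ⟨nat_lit 6, [⟨nat_lit 2, nat_lit 624, nat_lit 10752, nat_lit 4896, nat_lit 13344, nat_lit 7152, R11_102, R10_278, R7_149⟩]⟩]⟩], [⟨nat_lit 7, [⟨nat_lit 6, [⟨nat_lit 2, nat_lit 6336, nat_lit 2352, nat_lit 5136,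 nat_lit 13872, nat_lit 5376, R11_107, R10_289, R2_112⟩]⟩]⟩]]]]
noncomputable def N6737 : T3 (List N0) := [[[[], [⟨nat_lit 0, [⟨nat_lit 5, [⟨nat_lit 6, nat_lit 12336, nat_lit 2688, nat_lit 1104, nat_lit 4320, nat_lit 14160, R8_23, R7_90, R1_295⟩]⟩]⟩,
 ⟨nat_lit 2, [⟨nat_lit 5, [⟨nat_lit 6, nat_lit 12384, nat_lit 12000, nat_lit 15168, nat_lit 12432, nat_lit 14496, R5_316, R14_259, R1_302⟩]⟩]⟩], [], [], [], [⟨nat_lit 0, [⟨nat_lit 4, [⟨nat_lit 2, nat_lit 12672, nat_lit 2352, nat_lit 3696, nat_lit 3456, nat_lit 1296, R6_77, R4_72, R2_27⟩, ⟨nat_lit 6, nat_lit 12720, nat_lit 2304, nat_lit 1776, nat_lit 3504, nat_lit 11616, R6_37, R7_73, R3_242⟩]⟩, ⟨nat_lit 5, [⟨nat_lit 2, nat_lit 12816, nat_lit 2736, nat_lit 624, nat_lit 4176, nat_lit 768, R8_13, R4_87, R1_16⟩, ⟨nat_lit 6, nat_lit 12864, nat_lit 2688, nat_lit 720, nat_lit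 4464, nat_lit 1056, R8_15, R7_93, R10_22⟩]⟩, ⟨nat_lit 6, [⟨nat_lit 2, nat_lit 12960, nat_lit 3120, nat_lit 3744, nat_lit 3984, nat_lit 5904, R4_78, R4_83, R12_123⟩]⟩]⟩]], [[], [⟨nat_lit 0, [⟨nat_lit 5, [⟨nat_lit 6, nat_lit 12432, nat_lit 816, nat_lit 6240, nat_lit 2736, nat_lit 14400, R8_130, R2_57, R1_300⟩]⟩]⟩,
 ⟨nat_lit 1, [⟨nat_lit 5, [⟨nat_lit 6, nat_lit 12480, nat_lit 6960, nat_lit 5712, nat_lit 2208, nat_lit 14928, R9_119, R1_46, R1_311⟩]⟩]⟩,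
 ⟨nat_lit 2, [⟨nat_lit 5, [⟨nat_lit 6, nat_lit 12528, nat_lit 10464, nat_lit 15936, nat_lit 9696, nat_lit 14784, R5_332, R12_202, R1_308⟩]⟩]⟩], [], [], [], [⟨nat_lit 0, [⟨nat_lit 4, [⟨nat_lit 2, nat_lit 13008, nat_lit 2160, nat_lit 9264, nat_lit 11856, nat_lit 1344, R6_193, R3_247, R2_28⟩, ⟨nat_lit 6, nat_lit 13056, nat_lit 2208, nat_lit 7920, nat_lit 1824, nat_lit 11760, R6_165, R2_38, R3_245⟩]⟩, ⟨nat_lit 5, [⟨nat_lit 2, nat_lit 13248, nat_lit 7056, nat_lit 6000, nat_lit 16992, nat_lit 816, R8_125, R3_354, R1_17⟩, ⟨nat_lit 6, nat_lit 13296, nat_lit 7104, nat_lit 6096, nat_lit 2880, nat_lit 1104, R8_127, R2_60, R10_23⟩]⟩]⟩,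
 ⟨nat_lit 1, [⟨nat_lit 4, [⟨nat_lit 2, nat_lit 13104, nat_lit 2688, nat_lit 5808, nat_lit 1248, nat_lit 2496, R8_121, R10_26, R2_52⟩, ⟨nat_lit 6, nat_lit 13152, nat_lit 2736, nat_lit 5760, nat_lit 1296, nat_lit 16896, R8_120, R1_27, R3_352⟩]⟩, ⟨nat_lit 5, [⟨nat_lit 2, nat_lit 13344, nat_lit 7440, nat_lit 5232, nat_lit 2208, nat_lit 1968, R9_109, R10_46, R1_41⟩, ⟨nat_lit 6, nat_lit 13392, nat_lit 7488, nat_lit 5328, nat_lit 2352, nat_lit 2112, R9_111, R1_49, R10_44⟩]⟩, ⟨nat_lit 6, [⟨nat_lit 2, nat_lit 13536, nat_lit 10224, nat_lit 5616, nat_lit 1968, nat_lit 6000, R5_117, R10_41, R12_125⟩]⟩]⟩]], [], [[], [⟨nat_lit 0, [⟨nat_lit 5, [⟨nat_lit 6, nat_lit 12576, nat_lit 2784, nat_lit 7008, nat_lit 768, nat_lit 14256, R8_146, R2_16, R1_297⟩]⟩]⟩,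
 ⟨nat_lit 2, [⟨nat_lit 5, [⟨nat_lit 6, nat_lit 12624, nat_lit 11520, nat_lit 15744, nat_lit 2064, nat_lit 14640, R5_328, R12_43, R1_305⟩]⟩]⟩]]], [[], [[], [], [], [], [], [⟨nat_lit 1, [⟨nat_lit 4, [⟨nat_lit 2, nat_lit 14928, nat_lit 6144, nat_lit 15552, nat_lit 7536, nat_lit 11232, R5_324, R10_157, R2_234⟩, ⟨nat_lit 6, nat_lit 14976, nat_lit 6096, nat_lit 16128, nat_lit 6720, nat_lit 17232, R5_336, R1_140, R3_359⟩]⟩, ⟨nat_lit 6, [⟨nat_lit 2, nat_lit 15120, nat_lit 6912, nat_lit 5232, nat_lit 8160, nat_lit 6672, R11_109, R10_170, R12_139⟩]⟩]⟩]], [], [], [], [[], [], [], [], [], [⟨nat_lit 1, [⟨nat_lit 4, [⟨nat_lit 2, nat_lit 15168, nat_lit 12144, nat_lit 15600, nat_lit 15072, nat_lit 11184, R5_325, R1_314, R2_233⟩]⟩, ⟨nat_lit 6, [⟨nat_lit 2, nat_lit 15264, nat_lit 12240, nat_lit 20880, nat_lit 15120, nat_lit 6432,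 R11_435, R1_315, R12_134⟩]⟩]⟩,
 ⟨nat_lit 5, [⟨nat_lit 6, [⟨nat_lit 2, nat_lit 15312, nat_lit 12288, nat_lit 14112, nat_lit 21120, nat_lit 6480, R1_294, R11_440, R12_135⟩]⟩]⟩]]], [[[⟨nat_lit 2, [⟨nat_lit 1, [⟨nat_lit 4, nat_lit 13584, nat_lit 2688, nat_lit 14160, nat_lit 4320, nat_lit 1104, R1_295, R7_90, R8_23⟩, ⟨nat_lit 6, nat_lit 13632, nat_lit 12000, nat_lit 14496, nat_lit 13872, nat_lit 15168, R1_302, R14_289, R5_316⟩]⟩]⟩], [⟨nat_lit 0, [⟨nat_lit 5, [⟨nat_lit 6, nat_lit 14016, nat_lit 12912, nat_lit 15072, nat_lit 12768, nat_lit 14208, R5_314, R7_266, R1_296⟩]⟩]⟩,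
 ⟨nat_lit 2, [⟨nat_lit 1, [⟨nat_lit 4, nat_lit 13920, nat_lit 14352, nat_lit 14208, nat_lit 12768, nat_lit 15072, R1_296, R7_266, R5_314⟩, ⟨nat_lit 6, nat_lit 13968, nat_lit 15168, nat_lit 14544, nat_lit 14544, nat_lit 19488, R1_303, R14_303, R11_406⟩]⟩, ⟨nat_lit 5, [⟨nat_lit 6, nat_lit 14064, nat_lit 15216, nat_lit 19392, nat_lit 14496, nat_lit 14544, R11_404, R14_302, R1_303⟩]⟩]⟩]], [[], [⟨nat_lit 0, [⟨nat_lit 5, [⟨nat_lit 6, nat_lit 14160, nat_lit 10176, nat_lit 15648, nat_lit 11472, nat_lit 14448, R5_326, R2_239, R1_301⟩]⟩]⟩,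
 ⟨nat_lit 2, [⟨nat_lit 1, [⟨nat_lit 6, nat_lit 14112, nat_lit 12240, nat_lit 14592, nat_lit 11616, nat_lit 20688, R1_304, R12_242, R11_431⟩]⟩, ⟨nat_lit 5, [⟨nat_lit 6, nat_lit 14256, nat_lit 12288, nat_lit 19968, nat_lit 11568, nat_lit 14832, R11_416, R12_241, R1_309⟩]⟩]⟩]], [[⟨nat_lit 2, [⟨nat_lit 1, [⟨nat_lit 4, nat_lit 13680, nat_lit 816, nat_lit 14400, nat_lit 2736, nat_lit 6240, R1_300, R2_57, R8_130⟩, ⟨nat_lit 5, nat_lit 13728, nat_lit 6960, nat_lit 14928, nat_lit 2208, nat_lit 14976, R1_311, R1_46, R9_312⟩, ⟨nat_lit 6, nat_lit 13776, nat_lit 10464, nat_lit 14784, nat_lit 9696, nat_lit 15936, R1_308, R12_202, R5_332⟩]⟩]⟩], [⟨nat_lit 2, [⟨nat_lit 1, [⟨nat_lit 4, nat_lit 14304, nat_lit 10176, nat_lit 14448, nat_lit 11472, nat_lit 15648, R1_301, R2_239, R5_326⟩, ⟨nat_lit 6, nat_lit 14400, nat_lit 12288, nat_lit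 14832, nat_lit 11568, nat_lit 20256, R1_309, R12_241, R11_422⟩]⟩, ⟨nat_lit 5, [⟨nat_lit 6, nat_lit 14448, nat_lit 12240, nat_lit 20544, nat_lit 11616, nat_lit 14592, R11_428, R12_242, R1_304⟩]⟩]⟩]], [[⟨nat_lit 2, [⟨nat_lit 1, [⟨nat_lit 4, nat_lit 13824, nat_lit 2784, nat_lit 14256, nat_lit 768, nat_lit 7008, R1_297, R2_16, R8_146⟩, ⟨nat_lit 6, nat_lit 13872, nat_lit 11520, nat_lit 14640, nat_lit 10128, nat_lit 15744, R1_305, R12_211, R5_328⟩]⟩]⟩], [⟨nat_lit 0, [⟨nat_lit 5, [⟨nat_lit 6, nat_lit 14592, nat_lit 2304, nat_lit 15888, nat_lit 10416, nat_lit 14304, R5_331, R2_217, R1_298⟩]⟩]⟩,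
 ⟨nat_lit 2, [⟨nat_lit 1, [⟨nat_lit 4, nat_lit 14496, nat_lit 9792, nat_lit 14304, nat_lit 10416, nat_lit 15888, R1_298, R2_217, R5_331⟩, ⟨nat_lit 6, nat_lit 14544, nat_lit 11664, nat_lit 14688, nat_lit 12192, nat_lit 20064, R1_306, R12_254, R11_418⟩]⟩, ⟨nat_lit 5, [⟨nat_lit 6, nat_lit 14640, nat_lit 12096, nat_lit 20208, nat_lit 11760, nat_lit 14688, R11_421, R12_245, R1_306⟩]⟩]⟩], [], [⟨nat_lit 2, [⟨nat_lit 1, [⟨nat_lit 4, nat_lit 14736, nat_lit 2256, nat_lit 14352, nat_lit 6912, nat_lit 14880, R1_299, R2_144, R9_310⟩]⟩]⟩]]], [[[], [], [], [], [], [⟨nat_lit 0, [⟨nat_lit 4, [⟨nat_lit 2, nat_lit 15504, nat_lit 480, nat_lit 18432, nat_lit 9504, nat_lit 8352, R13_384, R4_198, R2_174⟩, ⟨nat_lit 6, nat_lit 15552, nat_lit 2688, nat_lit 16608, nat_lit 9648, nat_lit 11952, R13_346, R7_201, R3_249⟩]⟩, ⟨nat_lit 5, [⟨nat_lit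 2, nat_lit 15696, nat_lit 672, nat_lit 15120, nat_lit 10512, nat_lit 9168, R9_315, R4_219, R1_191⟩, ⟨nat_lit 6, nat_lit 15744, nat_lit 3072, nat_lit 14208, nat_lit 11328, nat_lit 10560, R9_296, R7_236, R10_220⟩]⟩, ⟨nat_lit 6, [⟨nat_lit 2, nat_lit 15888, nat_lit 864, nat_lit 14016, nat_lit 10320, nat_lit 6048, R3_292, R4_215, R12_126⟩]⟩]⟩,
 ⟨nat_lit 3, [⟨nat_lit 4, [⟨nat_lit 2, nat_lit 15648, nat_lit 7440, nat_lit 7728, nat_lit 6960, nat_lit 9072, R3_161, R5_145, R2_189⟩]⟩, ⟨nat_lit 6, [⟨nat_lit 2, nat_lit 15936, nat_lit 7824, nat_lit 16944, nat_lit 7056, nat_lit 6096, R10_353, R5_147, R12_127⟩]⟩]⟩]], [], [], [[], [⟨nat_lit 0, [⟨nat_lit 5, [⟨nat_lit 6, nat_lit 15360, nat_lit 2256, nat_lit 14880, nat_lit 6912, nat_lit 14352, R9_310, R2_144, R1_299⟩]⟩]⟩], [], [], [], [⟨nat_lit 0, [⟨nat_lit 4, [⟨nat_lit 6, nat_lit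 16848, nat_lit 16896, nat_lit 17904, nat_lit 3840, nat_lit 12096, R13_373, R2_80, R3_252⟩]⟩, ⟨nat_lit 5, [⟨nat_lit 6, nat_lit 17040, nat_lit 17088, nat_lit 14832, nat_lit 6816, nat_lit 10608, R9_309, R2_142, R10_221⟩]⟩]⟩,
 ⟨nat_lit 2, [⟨nat_lit 4, [⟨nat_lit 6, nat_lit 16896, nat_lit 16992, nat_lit 14784, nat_lit 5424, nat_lit 14784, R3_308, R12_113, R3_308⟩]⟩]⟩,
 ⟨nat_lit 3, [⟨nat_lit 4, [⟨nat_lit 2, nat_lit 16944, nat_lit 16848, nat_lit 8016, nat_lit 6576, nat_lit 9120, R3_167, R11_137, R2_190⟩, ⟨nat_lit 6, nat_lit 16992, nat_lit 16944, nat_lit 9216, nat_lit 3312, nat_lit 15552, R3_192, R1_69, R3_324⟩]⟩, ⟨nat_lit 6, [⟨nat_lit 2, nat_lit 17232, nat_lit 17328, nat_lit 16992, nat_lit 6672, nat_lit 6144, R10_354, R11_139, R12_128⟩]⟩]⟩]]], [[], [], [], [[], [], [], [], [], [], [], [⟨nat_lit 2, [⟨nat_lit 0, [⟨nat_lit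 7, nat_lit 1776, nat_lit 10944, nat_lit 13968, nat_lit 13488, nat_lit 13776, R4_291, R1_281, R2_287⟩]⟩, ⟨nat_lit 3, [⟨nat_lit 4, nat_lit 2016, nat_lit 11424, nat_lit 15360, nat_lit 13104, nat_lit 13296, R5_320, R2_273, R2_277⟩, ⟨nat_lit 6, nat_lit 2064, nat_lit 11520, nat_lit 15744, nat_lit 12624, nat_lit 14640, R5_328, R12_263, R1_305⟩, ⟨nat_lit 7, nat_lit 2112, nat_lit 11472, nat_lit 15648, nat_lit 14448, nat_lit 14160, R5_326, R1_301, R12_295⟩]⟩]⟩,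
 ⟨nat_lit 6, [⟨nat_lit 0, [⟨nat_lit 7, nat_lit 1824, nat_lit 10704, nat_lit 15264, nat_lit 20304, nat_lit 12624, R7_318, R11_423, R2_263⟩]⟩, ⟨nat_lit 2, [⟨nat_lit 3, nat_lit 1920, nat_lit 11808, nat_lit 8016, nat_lit 14016, nat_lit 19824, R14_167, R1_292, R11_413⟩, ⟨nat_lit 7, nat_lit 1968, nat_lit 11856, nat_lit 8064, nat_lit 20496, nat_lit 13968, R14_168, R11_427, R1_291⟩]⟩]⟩]], [[], [], [], [], [⟨nat_lit 4, [⟨nat_lit 2, [⟨nat_lit 0, nat_lit 0, nat_lit 4032, nat_lit 3120, nat_lit 1536, nat_lit 3360, R7_65, R6_32, R4_70⟩]⟩, ⟨nat_lit 6, [⟨nat_lit 0, nat_lit 96, nat_lit 3216, nat_lit 3360, nat_lit 3600, nat_lit 3120, R4_70, R6_75, R7_65⟩, ⟨nat_lit 2, nat_lit 144, nat_lit 3360, nat_lit 3648, nat_lit 3552, nat_lit 4608, R4_76, R4_74, R14_96⟩]⟩]⟩,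
 ⟨nat_lit 6, [⟨nat_lit 2, [⟨nat_lit 0, nat_lit 48, nat_lit 11520, nat_lit 8208, nat_lit 3552, nat_lit 3648, R14_171, R4_74, R4_76⟩]⟩]⟩], [⟨nat_lit 4, [⟨nat_lit 6, [⟨nat_lit 2, nat_lit 576, nat_lit 3120, nat_lit 3744, nat_lit 3984, nat_lit 2976, R4_78, R4_83, R12_62⟩]⟩]⟩], [⟨nat_lit 4, [⟨nat_lit 2, [⟨nat_lit 0, nat_lit 720, nat_lit 1824, nat_lit 3312, nat_lit 1920, nat_lit 11664, R7_69, R6_40, R3_243⟩, ⟨nat_lit 1, nat_lit 768, nat_lit 2688, nat_lit 4176, nat_lit 2064, nat_lit 16512, R7_87, R8_43, R10_344⟩]⟩, ⟨nat_lit 6, [⟨nat_lit 0, nat_lit 912, nat_lit 1872, nat_lit 3408, nat_lit 3744, nat_lit 1440, R4_71, R6_78, R2_30⟩, ⟨nat_lit 1, nat_lit 960, nat_lit 2736, nat_lit 4128, nat_lit 1968, nat_lit 912, R4_86, R8_41, R1_19⟩, ⟨nat_lit 2, nat_lit 1008, nat_lit 3072, nat_lit 3888, nat_lit 3888, nat_lit 6816, R4_81,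 R4_81, R12_142⟩]⟩]⟩,
 ⟨nat_lit 6, [⟨nat_lit 2, [⟨nat_lit 0, nat_lit 816, nat_lit 9792, nat_lit 8784, nat_lit 9840, nat_lit 13968, R14_183, R4_205, R3_291⟩, ⟨nat_lit 1, nat_lit 864, nat_lit 10368, nat_lit 8832, nat_lit 6144, nat_lit 16800, R14_184, R5_128, R10_350⟩]⟩]⟩]], [], [[], [], [], [], [], [], [⟨nat_lit 6, [⟨nat_lit 2, [⟨nat_lit 1, nat_lit 1104, nat_lit 14256, nat_lit 11088, nat_lit 19440, nat_lit 16848, R14_231, R11_405, R10_351⟩]⟩]⟩]], [[], [], [], [], [⟨nat_lit 4, [⟨nat_lit 2, [⟨nat_lit 0, nat_lit 192, nat_lit 14448, nat_lit 9312, nat_lit 16656, nat_lit 9360, R7_194, R13_347, R4_195⟩]⟩, ⟨nat_lit 6, [⟨nat_lit 0, nat_lit 384, nat_lit 13056, nat_lit 9360, nat_lit 18480, nat_lit 9312, R4_195, R13_385, R7_194⟩, ⟨nat_lit 2, nat_lit 432, nat_lit 13104, nat_lit 9936, nat_lit 14064, nat_lit 5136, R4_207, R3_293,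 R14_107⟩]⟩]⟩,
 ⟨nat_lit 6, [⟨nat_lit 2, [⟨nat_lit 0, nat_lit 288, nat_lit 15024, nat_lit 9360, nat_lit 14064, nat_lit 9936, R14_195, R3_293, R4_207⟩, ⟨nat_lit 3, nat_lit 336, nat_lit 15072, nat_lit 9408, nat_lit 16176, nat_lit 4944, R14_196, R10_337, R5_103⟩]⟩]⟩,
 ⟨nat_lit 7, [⟨nat_lit 6, [⟨nat_lit 0, nat_lit 480, nat_lit 13344, nat_lit 4848, nat_lit 1344, nat_lit 10080, R5_101, R3_28, R7_210⟩, ⟨nat_lit 2, nat_lit 528, nat_lit 13392, nat_lit 4944, nat_lit 16176, nat_lit 5184, R5_103, R10_337, R14_108⟩]⟩]⟩], [⟨nat_lit 4, [⟨nat_lit 6, [⟨nat_lit 2, nat_lit 624, nat_lit 9840, nat_lit 10080, nat_lit 14208, nat_lit 3504, R4_210, R3_296, R12_73⟩]⟩]⟩,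
 ⟨nat_lit 7, [⟨nat_lit 6, [⟨nat_lit 2, nat_lit 672, nat_lit 10224, nat_lit 5616, nat_lit 18192, nat_lit 3552, R5_117, R10_379, R12_74⟩]⟩]⟩], [], [⟨nat_lit 6, [⟨nat_lit 2, [⟨nat_lit 3, nat_lit 2400, nat_lit 10992, nat_lit 10080, nat_lit 16224, nat_lit 19776, R14_210, R10_338, R11_412⟩]⟩]⟩]]], [[], [], [], [], [[], [], [], [], [], [⟨nat_lit 4, [⟨nat_lit 6, [⟨nat_lit 2, nat_lit 7776, nat_lit 864, nat_lit 14016, nat_lit 10320, nat_lit 4416, R3_292, R4_215, R12_92⟩]⟩]⟩,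
 ⟨nat_lit 5, [⟨nat_lit 6, [⟨nat_lit 2, nat_lit 7824, nat_lit 7824, nat_lit 1728, nat_lit 7056, nat_lit 4464, R10_36, R5_147, R12_93⟩]⟩]⟩]], [[], [], [], [], [], [⟨nat_lit 5, [⟨nat_lit 6, [⟨nat_lit 2, nat_lit 7872, nat_lit 17328, nat_lit 7920, nat_lit 6672, nat_lit 5760, R10_165, R11_139, R12_120⟩]⟩]⟩]]], [[[⟨nat_lit 2, [⟨nat_lit 0, [⟨nat_lit 4, nat_lit 2688, nat_lit 2304, nat_lit 11616, nat_lit 3504, nat_lit 9072, R3_242, R7_73, R6_189⟩, ⟨nat_lit 6, nat_lit 2736, nat_lit 11184, nat_lit 13920, nat_lit 11616, nat_lit 9744, R3_290, R14_242, R4_203⟩]⟩, ⟨nat_lit 1, [⟨nat_lit 4, nat_lit 2832, nat_lit 2688, nat_lit 17424, nat_lit 4464, nat_lit 720, R10_363, R7_93, R8_15⟩, ⟨nat_lit 6, nat_lit 2880, nat_lit 11472, nat_lit 17664, nat_lit 11664, nat_lit 5280, R10_368, R14_243, R5_110⟩]⟩]⟩,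
 ⟨nat_lit 6, [⟨nat_lit 0, [⟨nat_lit 4, nat_lit 2784, nat_lit 2352, nat_lit 1296, nat_lit 3456, nat_lit 7536, R2_27, R4_72, R6_157⟩]⟩, ⟨nat_lit 1, [⟨nat_lit 4, nat_lit 2928, nat_lit 2736, nat_lit 768, nat_lit 4176, nat_lit 624, R1_16, R4_87, R8_13⟩]⟩, ⟨nat_lit 2, [⟨nat_lit 4, nat_lit 2976, nat_lit 3120, nat_lit 5904, nat_lit 3984, nat_lit 3744, R12_123, R4_83, R4_78⟩]⟩]⟩], [], [], [⟨nat_lit 2, [⟨nat_lit 0, [⟨nat_lit 4, nat_lit 4032, nat_lit 2688, nat_lit 11952, nat_lit 9648, nat_lit 18768, R3_249, R7_201, R13_391⟩, ⟨nat_lit 6, nat_lit 4080, nat_lit 13920, nat_lit 14640, nat_lit 12000, nat_lit 14736, R3_305, R14_250, R3_307⟩]⟩, ⟨nat_lit 1, [⟨nat_lit 4, nat_lit 4224, nat_lit 3072, nat_lit 17472, nat_lit 11328, nat_lit 14208, R10_364, R7_236, R9_296⟩]⟩]⟩,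
 ⟨nat_lit 6, [⟨nat_lit 0, [⟨nat_lit 4, nat_lit 4128, nat_lit 480, nat_lit 8352, nat_lit 9504, nat_lit 17232, R2_174, R4_198, R13_359⟩, ⟨nat_lit 7, nat_lit 4176, nat_lit 7440, nat_lit 9072, nat_lit 6960, nat_lit 7728, R2_189, R5_145, R3_161⟩]⟩, ⟨nat_lit 1, [⟨nat_lit 4, nat_lit 4320, nat_lit 672, nat_lit 9168, nat_lit 10512, nat_lit 15120, R1_191, R4_219, R9_315⟩]⟩, ⟨nat_lit 2, [⟨nat_lit 4, nat_lit 4416, nat_lit 864, nat_lit 6048, nat_lit 10320, nat_lit 14016, R12_126, R4_215, R3_292⟩, ⟨nat_lit 7, nat_lit 4464, nat_lit 7824, nat_lit 6096, nat_lit 7056, nat_lit 16944, R12_127, R5_147, R10_353⟩]⟩]⟩]], [], [[⟨nat_lit 2, [⟨nat_lit 0, [⟨nat_lit 4, nat_lit 3024, nat_lit 2208, nat_lit 11760, nat_lit 1824, nat_lit 9216, R3_245, R2_38, R6_192⟩, ⟨nat_lit 5, nat_lit 3072, nat_lit 2736, nat_lit 16896, nat_lit 1296, nat_lit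 5760, R3_352, R1_27, R8_120⟩, ⟨nat_lit 6, nat_lit 3120, nat_lit 2880, nat_lit 14112, nat_lit 10320, nat_lit 9984, R3_294, R12_215, R4_208⟩]⟩, ⟨nat_lit 1, [⟨nat_lit 4, nat_lit 3264, nat_lit 7104, nat_lit 17568, nat_lit 2880, nat_lit 6096, R10_366, R2_60, R8_127⟩, ⟨nat_lit 5, nat_lit 3312, nat_lit 7488, nat_lit 17952, nat_lit 2352, nat_lit 4992, R10_374, R1_49, R9_104⟩, ⟨nat_lit 6, nat_lit 3360, nat_lit 7584, nat_lit 17808, nat_lit 10368, nat_lit 5472, R10_371, R12_216, R5_114⟩]⟩]⟩,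
 ⟨nat_lit 6, [⟨nat_lit 0, [⟨nat_lit 4, nat_lit 3168, nat_lit 2160, nat_lit 1344, nat_lit 11856, nat_lit 7824, R2_28, R3_247, R6_163⟩, ⟨nat_lit 5, nat_lit 3216, nat_lit 2688, nat_lit 2496, nat_lit 18048, nat_lit 5808, R2_52, R10_376, R8_121⟩]⟩, ⟨nat_lit 1, [⟨nat_lit 4, nat_lit 3408, nat_lit 7056, nat_lit 816, nat_lit 16992, nat_lit 6000, R1_17, R3_354, R8_125⟩, ⟨nat_lit 5, nat_lit 3456, nat_lit 7440, nat_lit 1968, nat_lit 18336, nat_lit 5040, R1_41, R10_382, R9_105⟩]⟩, ⟨nat_lit 2, [⟨nat_lit 4, nat_lit 3504, nat_lit 9840, nat_lit 5952, nat_lit 14208, nat_lit 10080, R12_124, R3_296, R4_210⟩, ⟨nat_lit 5, nat_lit 3552, nat_lit 10224, nat_lit 6000, nat_lit 18192, nat_lit 5616, R12_125, R10_379, R5_117⟩]⟩]⟩], [], [⟨nat_lit 2, [⟨nat_lit 0, [⟨nat_lit 5, nat_lit 3600, nat_lit 12960, nat_lit 17232, nat_lit 6720, nat_lit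 16128, R3_359, R1_140, R5_336⟩]⟩]⟩,
 ⟨nat_lit 6, [⟨nat_lit 0, [⟨nat_lit 5, nat_lit 3648, nat_lit 12912, nat_lit 11232, nat_lit 18096, nat_lit 15552, R2_234, R10_377, R5_324⟩]⟩, ⟨nat_lit 2, [⟨nat_lit 5, nat_lit 3792, nat_lit 13104, nat_lit 6672, nat_lit 18240, nat_lit 19872, R12_139, R10_380, R11_414⟩]⟩]⟩]], [[], [], [], [⟨nat_lit 2, [⟨nat_lit 0, [⟨nat_lit 4, nat_lit 5376, nat_lit 16896, nat_lit 12096, nat_lit 3840, nat_lit 18816, R3_252, R2_80, R13_392⟩, ⟨nat_lit 6, nat_lit 5424, nat_lit 16992, nat_lit 14784, nat_lit 16896, nat_lit 14784, R3_308, R12_352, R3_308⟩, ⟨nat_lit 7, nat_lit 5472, nat_lit 16944, nat_lit 15552, nat_lit 3312, nat_lit 9216, R3_324, R1_69, R3_192⟩]⟩, ⟨nat_lit 1, [⟨nat_lit 4, nat_lit 5568, nat_lit 17088, nat_lit 17520, nat_lit 6816, nat_lit 14832, R10_365, R2_142, R9_309⟩]⟩]⟩,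
 ⟨nat_lit 6, [⟨nat_lit 0, [⟨nat_lit 7, nat_lit 5520, nat_lit 16848, nat_lit 9120, nat_lit 20400, nat_lit 8016, R2_190, R11_425, R3_167⟩]⟩, ⟨nat_lit 2, [⟨nat_lit 7, nat_lit 5760, nat_lit 17328, nat_lit 6144, nat_lit 20592, nat_lit 16992, R12_128, R11_429, R10_354⟩]⟩]⟩], [], [], [], [⟨nat_lit 2, [⟨nat_lit 0, [⟨nat_lit 7, nat_lit 6336, nat_lit 11328, nat_lit 15648, nat_lit 13632, nat_lit 13872, R3_326, R1_284, R2_289⟩]⟩]⟩,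
 ⟨nat_lit 6, [⟨nat_lit 0, [⟨nat_lit 7, nat_lit 6384, nat_lit 11088, nat_lit 14352, nat_lit 20448, nat_lit 12768, R2_299, R11_426, R2_266⟩]⟩, ⟨nat_lit 2, [⟨nat_lit 3, nat_lit 6432, nat_lit 12240, nat_lit 3984, nat_lit 15120, nat_lit 19920, R12_83, R1_315, R11_415⟩, ⟨nat_lit 7, nat_lit 6480, nat_lit 12288, nat_lit 3936, nat_lit 20640, nat_lit 14112, R12_82, R11_430, R1_294⟩]⟩]⟩]], [[], [], [], [], [⟨nat_lit 6, [⟨nat_lit 2, [⟨nat_lit 0, nat_lit 5904, nat_lit 3120, nat_lit 2976, nat_lit 3984, nat_lit 3744, R12_62, R4_83, R4_78⟩]⟩]⟩], [], [⟨nat_lit 6, [⟨nat_lit 2, [⟨nat_lit 0, nat_lit 6048, nat_lit 864, nat_lit 4416, nat_lit 10320, nat_lit 14016, R12_92, R4_215, R3_292⟩, ⟨nat_lit 1, nat_lit 6096, nat_lit 7824, nat_lit 4464, nat_lit 7056, nat_lit 16944, R12_93, R5_147, R10_353⟩]⟩]⟩]], [], [[], [], [⟨nat_lit 6, [⟨nat_lit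 0, [⟨nat_lit 5, nat_lit 3840, nat_lit 12144, nat_lit 11184, nat_lit 15072, nat_lit 15600, R2_233, R1_314, R5_325⟩]⟩, ⟨nat_lit 2, [⟨nat_lit 1, nat_lit 3936, nat_lit 12288, nat_lit 6480, nat_lit 20640, nat_lit 14112, R12_135, R11_430, R1_294⟩, ⟨nat_lit 5, nat_lit 3984, nat_lit 12240, nat_lit 6432, nat_lit 15120, nat_lit 19920, R12_134, R1_315, R11_415⟩]⟩]⟩], [], [], [], [⟨nat_lit 6, [⟨nat_lit 2, [⟨nat_lit 1, nat_lit 6144, nat_lit 17328, nat_lit 5760, nat_lit 20592, nat_lit 16992, R12_120, R11_429, R10_354⟩]⟩]⟩]], [[], [], [], [], [⟨nat_lit 6, [⟨nat_lit 2, [⟨nat_lit 0, nat_lit 5952, nat_lit 9840, nat_lit 3504, nat_lit 14208, nat_lit 10080, R12_73, R3_296, R4_210⟩, ⟨nat_lit 3, nat_lit 6000, nat_lit 10224, nat_lit 3552, nat_lit 18192, nat_lit 5616, R12_74, R10_379, R5_117⟩]⟩]⟩], [], [], [⟨nat_lit 6, [⟨nat_lit 2,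 [⟨nat_lit 3, nat_lit 6672, nat_lit 13104, nat_lit 3792, nat_lit 18240, nat_lit 19872, R12_79, R10_380, R11_414⟩]⟩]⟩]]], [[], [], [], [[], [], [], [], [], [⟨nat_lit 3, [⟨nat_lit 4, [⟨nat_lit 2, nat_lit 10560, nat_lit 11088, nat_lit 12768, nat_lit 20976, nat_lit 14352, R2_266, R11_437, R2_299⟩, ⟨nat_lit 6, nat_lit 10608, nat_lit 11328, nat_lit 13872, nat_lit 13632, nat_lit 15648, R2_289, R1_284, R3_326⟩]⟩, ⟨nat_lit 6, [⟨nat_lit 2, nat_lit 10656, nat_lit 12288, nat_lit 14112, nat_lit 21120, nat_lit 3936, R1_294, R11_440, R12_82⟩]⟩]⟩,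
 ⟨nat_lit 7, [⟨nat_lit 6, [⟨nat_lit 2, nat_lit 10704, nat_lit 12240, nat_lit 20880, nat_lit 15120, nat_lit 3984, R11_435, R1_315, R12_83⟩]⟩]⟩], [], [⟨nat_lit 0, [⟨nat_lit 7, [⟨nat_lit 6, nat_lit 12144, nat_lit 11520, nat_lit 13344, nat_lit 13488, nat_lit 19680, R2_278, R2_281, R11_410⟩]⟩]⟩,
 ⟨nat_lit 2, [⟨nat_lit 3, [⟨nat_lit 4, nat_lit 11712, nat_lit 12000, nat_lit 20160, nat_lit 13488, nat_lit 13344, R11_420, R2_281, R2_278⟩, ⟨nat_lit 6, nat_lit 11760, nat_lit 12096, nat_lit 20208, nat_lit 14640, nat_lit 14688, R11_421, R12_305, R1_306⟩, ⟨nat_lit 7, nat_lit 11808, nat_lit 12048, nat_lit 20256, nat_lit 14832, nat_lit 14256, R11_422, R1_309, R12_297⟩]⟩, ⟨nat_lit 7, [⟨nat_lit 6, nat_lit 12192, nat_lit 11664, nat_lit 14688, nat_lit 14544, nat_lit 20064, R1_306, R12_303, R11_418⟩]⟩]⟩,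
 ⟨nat_lit 3, [⟨nat_lit 4, [⟨nat_lit 2, nat_lit 11904, nat_lit 11472, nat_lit 13248, nat_lit 20352, nat_lit 13248, R2_276, R11_424, R2_276⟩]⟩, ⟨nat_lit 7, [⟨nat_lit 2, nat_lit 12240, nat_lit 11616, nat_lit 14448, nat_lit 20544, nat_lit 14592, R12_301, R11_428, R1_304⟩, ⟨nat_lit 6, nat_lit 12288, nat_lit 11568, nat_lit 14400, nat_lit 14832, nat_lit 19968, R12_300, R1_309, R11_416⟩]⟩]⟩,
 ⟨nat_lit 4, [⟨nat_lit 2, [⟨nat_lit 3, nat_lit 11520, nat_lit 12144, nat_lit 13344, nat_lit 13488, nat_lit 19680, R2_278, R2_281, R11_410⟩]⟩]⟩,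
 ⟨nat_lit 6, [⟨nat_lit 0, [⟨nat_lit 7, nat_lit 11472, nat_lit 11904, nat_lit 13248, nat_lit 20352, nat_lit 13248, R2_276, R11_424, R2_276⟩]⟩, ⟨nat_lit 2, [⟨nat_lit 3, nat_lit 11568, nat_lit 12288, nat_lit 14400, nat_lit 14832, nat_lit 19968, R12_300, R1_309, R11_416⟩, ⟨nat_lit 7, nat_lit 11616, nat_lit 12240, nat_lit 14448, nat_lit 20544, nat_lit 14592, R12_301, R11_428, R1_304⟩]⟩]⟩,
 ⟨nat_lit 7, [⟨nat_lit 2, [⟨nat_lit 3, nat_lit 11664, nat_lit 12192, nat_lit 14688, nat_lit 14544, nat_lit 20064, R1_306, R12_303, R11_418⟩]⟩, ⟨nat_lit 6, [⟨nat_lit 0, nat_lit 12000, nat_lit 11712, nat_lit 20160, nat_lit 13488, nat_lit 13344, R11_420, R2_281, R2_278⟩, ⟨nat_lit 2, nat_lit 12048, nat_lit 11808, nat_lit 20256, nat_lit 14832, nat_lit 14256, R11_422, R1_309, R12_297⟩, ⟨nat_lit 3, nat_lit 12096, nat_lit 11760, nat_lit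 20208, nat_lit 14640, nat_lit 14688, R11_421, R12_305, R1_306⟩]⟩]⟩]], [], [], [], [[], [], [], [], [⟨nat_lit 4, [⟨nat_lit 2, [⟨nat_lit 0, nat_lit 10224, nat_lit 2784, nat_lit 3408, nat_lit 17952, nat_lit 9408, R2_71, R13_374, R4_196⟩, ⟨nat_lit 3, nat_lit 10272, nat_lit 7536, nat_lit 4272, nat_lit 6528, nat_lit 5424, R2_89, R3_136, R5_113⟩]⟩]⟩,
 ⟨nat_lit 6, [⟨nat_lit 2, [⟨nat_lit 0, nat_lit 10320, nat_lit 2880, nat_lit 3120, nat_lit 14112, nat_lit 9984, R12_65, R3_294, R4_208⟩, ⟨nat_lit 3, nat_lit 10368, nat_lit 7584, nat_lit 3360, nat_lit 17808, nat_lit 5472, R12_70, R10_371, R5_114⟩]⟩]⟩,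
 ⟨nat_lit 7, [⟨nat_lit 2, [⟨nat_lit 0, nat_lit 10416, nat_lit 2832, nat_lit 2880, nat_lit 3216, nat_lit 9600, R1_60, R3_67, R4_200⟩]⟩, ⟨nat_lit 6, [⟨nat_lit 0, nat_lit 10464, nat_lit 3504, nat_lit 4848, nat_lit 1584, nat_lit 10224, R11_101, R3_33, R7_213⟩, ⟨nat_lit 2, nat_lit 10512, nat_lit 10992, nat_lit 4944, nat_lit 16224, nat_lit 5808, R11_103, R10_338, R14_121⟩]⟩]⟩], [⟨nat_lit 7, [⟨nat_lit 6, [⟨nat_lit 2, nat_lit 10896, nat_lit 13104, nat_lit 5232, nat_lit 18240, nat_lit 3792, R11_109, R10_380, R12_79⟩]⟩]⟩]]]]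

end Pool.Agent.AKU6.VZ476
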