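import Pool.Agent.AKU6.VZ476.X
import Pool.Agent.AKU6.VZ476.G0
import Pool.Agent.AKU6.VZ476.G1
import Pool.Agent.AKU6.VZ476.G2
import Pool.Agent.AKU6.VZ476.G3

set_option autoImplicit false
set_option maxRecDepth 1000000

namespace Pool.Agent.AKU6.VZ476

open Pool.Agent.AKY Pool.Agent.AKU5

noncomputable def GT0 : List (List (List (T3 (List N0)))) := [[[[], [], N0002], [], [[], [], N0022, [], [], [], N0026], [N0030, [], N0032, N0033], [[], [], [], [], [], [], [], N0047], [], [[], [], [], [], N0064, [], N0066, N0067], [[], [], [], N0073, [], [], [], N0077]], [[N0100, [], N0102], [N0110, [], N0112], [[], [], N0122, [], [], [], N0126], [N0130, [], N0132, N0133], [], [], [], []], [[], [], [[], [], [], [], [], [], N0226], [], [[], [], [], [], N0244, N0245, [], N0247], [], [[], [], [], [], N0264, N0265, N0266, N0267], [[], [], [], [], [], [], [], N0277]], [[], [], [], [N0330, [], N0332], [[], [], [], N0343, [], [], [], N0347], [], [[], [], [], [], [], [], [], N0367], [N0370, [], [], N0373]], [[], [], [], [], [[], N0441], [N0450, N0451], [], []], [[], [N0510, [], N0512], [], [], [], [N0550, N0551], [], []], [[], [], [],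 [], [[], N0641, [], [], [], N0645], [], [], []], [[], [], [], [], [N0740, N0741, [], N0743], [N0750, N0751, [], N0753], [], [N0770, N0771]]]
noncomputable def GT1 : List (List (List (T3 (List N0)))) := [[[], [], [], [], [[], [], [], [], N1044, [], [], N1047], [[], [], [], [], N1054, [], [], N1057], [[], [], [], [], N1064, [], N1066, N1067], [[], [], [], N1073, [], [], [], N1077]], [[N1100, [], N1102], [], [[], [], N1122, [], [], [], N1126], [N1130, [], N1132, N1133], [[], [], [], [], N1144, [], [], N1147], [], [[], [], [], [], N1164, [], N1166, N1167], [[], [], [], N1173, [], [], [], N1177]], [[], [], [], [], [[], [], [], [], N1244, N1245, [], N1247], [[], [], [], [], N1254, N1255, [], N1257], [[], [], [], [], N1264, N1265, N1266], [[], [], [], [], [], [], [], N1277]], [[], [], [], [], [[], [], [], N1343, [], [], [], N1347], [[], [], [], N1353, [], [], [], N1357], [[], [], [], [], [], [], [], N1367], [[], [], [], N1373]], [[], [N1410, N1411, [], N1413], [], [], [], [N1450, N1451], [], []], [[N1500, [], N1502, N1503], [N1510, N1511, N1512, N1513], [[], [], N1522], [[], [], [], N1533], [], [], [], []], [[], [[], N1611],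 [], [], [], [[], N1651, [], [], [], N1655], [], []], [[], [[], [], [], N1713], [], [], [], [N1750, N1751, [], N1753], [], []]]
noncomputable def GT2 : List (List (List (T3 (List N0)))) := [[[N2000, N2001, N2002], [], [[], [], N2022], [N2030, N2031, N2032, N2033], [], [], [], [[], [], [], N2073]], [[N2100, N2101, N2102], [N2110, N2111, N2112], [[], [], N2122], [N2130, N2131], [], [], [], []], [[N2200, [], N2202], [], [[], [], N2222, [], [], [], N2226], [N2230, [], N2232, N2233], [[], [], [], [], N2244, [], [], N2247], [], [[], [], [], [], N2264, [], N2266, N2267], [[], [], [], N2273, [], [], [], N2277]], [[], [], [], [N2330, N2331, N2332], [], [], [], [N2370, N2371, [], N2373]], [[], [], [], [], [[], N2441, [], [], [], N2445], [[], N2451, [], [], [], N2455], [], [[], [], [], [], [], N2475]], [[], [[], N2511], [], [], [], [[], N2551, [], [], [], N2555], [], []], [[], [], [], [], [[], [], [], [], N2644, N2645], [[], [], [], [], [], N2655], [[], [], [], [], N2664, N2665, N2666], [[], [], [], [], N2674, N2675, [], N2677]], [[], [], [], [], [[], N2741], [[], N2751], [], [[], N2771, [], [], [], N2775]]]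
noncomputable def GT3 : List (List (List (T3 (List N0)))) := [[[[], [], N3002, [], [], [], N3006], [], [[], [], [], [], N3024, [], N3026], [[], [], N3032], [], [], [[], [], [], [], N3064, [], [], N3067], []], [[[], [], N3102, [], [], [], N3106], [[], [], N3112, [], [], [], N3116], [[], [], [], [], [], [], N3126], [[], [], N3132], [], [], [], []], [[], [], [[], [], [], [], N3224, N3225, N3226], [], [], [], [[], [], [], [], N3264, N3265, [], N3267], []], [[[], [], [], [], [], [], N3306], [], [[], [], [], [], N3324, [], N3326, N3327], [[], [], N3332, [], [], [], N3336], [[], [], [], N3343], [], [[], [], [], N3363, [], [], [], N3367], [N3370, [], N3372, N3373]], [[], [], [], [], [N3440, N3441, N3442], [N3450, N3451, N3452], [N3460, N3461], []], [[], [[], [], N3512], [], [], [], [N3550, N3551, N3552], [], []], [[], [], [], [], [[], N3641], [[], N3651], [[], N3661, [], [], [], N3665], []], [[], [], [], [], [N3740, N3741, N3742, N3743], [N3750, [], N3752, N3753], [N3760, N3761, [], N3763], [N3770, N3771, N3772]]]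
noncomputable def GT4 : List (List (List (T3 (List N0)))) := [[[], [], [], [], [], [], [], []], [[], [], [], [], [], [], [], []], [[], [], [], [], [], [], [], []], [[], [], [], [], [], [], [], []], [[], [], [], [], [], [], [], []], [[], [], [], [], [], [], [], []], [[], [], [], [], [], [], [], []], [[], [], [], [], [], [], [], []]]
noncomputable def GT5 : List (List (List (T3 (List N0)))) := [[[], [], [], [], [], [], [], []], [[], [], [], [], [], [], [], []], [[], [], [], [], [], [], [], []], [[], [], [], [], [], [], [], []], [[], [], [], [], [], [], [], []], [[], [], [], [], [], [], [], []], [[], [], [], [], [], [], [], []], [[], [], [], [], [], [], [], []]]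
noncomputable def GT6 : List (List (List (T3 (List N0)))) := [[[[], N6001, [], [], [], N6005], [[], N6011, [], [], [], N6015], [], [[], N6031], [], [], [], []], [[], [[], N6111, [], [], [], N6115], [], [], [], [[], [], [], [], [], N6155], [], []], [[N6200, N6201], [[], N6211], [N6220, N6221, N6222], [N6230, N6231, [], N6233], [], [], [], []], [[[], [], [], [], [], N6305], [], [], [[], N6331, [], [], [], N6335], [], [], [], []], [[], [], [], [[], [], [], [], [], [], [], N6437], [[], [], [], [], N6444, N6445, N6446], [], [[], [], [], [], [], [], N6466], [[], [], [], [], N6474, N6475, N6476, N6477]], [[], [], [], [], [[], [], [], [], N6544, N6545], [[], [], [], [], N6554, N6555], [], [[], [], [], [], N6574]], [[N6600, [], [], N6603], [], [N6620, [], N6622], [[], [], [], N6633, [], [], [], N6637], [[], [], [], [], N6644, [], N6646], [], [[], [], N6662, [], [], [], N6666], [[], [], [], [], N6674, [], [], N6677]], [[], [], [], [[], [], [], [], N6734, N6735, [], N6737], [], [], [], [[], [], [], [], N6774, N6775]]]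
noncomputable def GT7 : List (List (List (T3 (List N0)))) := [[[], [], [], [], [], [], [], []], [[], [], [], [], [], [], [], []], [[], [], [], [], [], [], [], []], [[], [], [], [], [], [], [], []], [[], [], [], [], [], [], [], []], [[], [], [], [], [], [], [], []], [[], [], [], [], [], [], [], []], [[], [], [], [], [], [], [], []]]
noncomputable def GT : T3 (T3 (List (List N0))) := [GT0, GT1, GT2, GT3, GT4, GT5, GT6, GT7]

noncomputable def C : Ce where
  WT := WT
  RP := RP
  IT := IT
  NF := NF
  AT := AT
  LQ := LQ
  LB := LB
  M := MC
  OM := OM
  MB := MB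
  oB := nat_lit 4464072
  W := (Nat.lor (nat_lit 0x2ee0000000001f40000000002ee0000000001f40000000002ee0000000002ee0000000002ee0000000002ee0000000002ee0000000002ee0000000005dc0000000005dc0000000005dc0000000003070000000003070000000005dc0000000003070000000003070000000003070000000005dc0000000003070000000005dc0000000001900000000002ee0000000001900000000002ee0000000001900000000002ee0000000001900000000002ee0000000001900000000002ee0000000001900000000002ee0000000001f40000000000000000000001f40000000001f40000000000000000000001f40000000001f40000000000000000000001f4) (Nat.shiftLeft (nat_lit 0x3e80000000002ee0000000002ee0000000002ee0000000002ee0000000002ee0000000002ee0000000002ee0000000002ee0000000002ee0000000002ee0000000002ee0000000002ee0000000002ee0000000001f40000) (nat_lit 2048)))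
  th := nat_lit 238
  RT := [RT0, RT1, RT2, RT3, RT4, RT5, RT6, RT7, RT8, RT9, RT10, RT11, RT12, RT13, RT14]
  oT := nat_lit 24612398196
  dq := DQ
  dO := nat_lit 118041023
  od := nat_lit 4223406790
  DT := DT
  TD := TD
  GT := GT
  RK := RK
  og := nat_lit 104671782
  cb := nat_lit 622485708558

end Pool.Agent.AKU6.VZ476
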