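import Pool.Agent.AKU6.VZ476.C

set_option autoImplicit false
set_option maxRecDepth 1000000

namespace Pool.Agent.AKU6.VZ476

open Pool.Agent.AKY Pool.Agent.AKU5

theorem all_F :
    okF C TAB 0 = true ∧
    okRk C TAB 0 = true ∧
    okF C TAB 1 = true ∧
    okRk C TAB 1 = true ∧
    okF C TAB 2 = true ∧
    okRk C TAB 2 = true ∧
    okF C TAB 3 = true ∧
    okRk C TAB 3 = true ∧
    okF C TAB 4 = true ∧
    okRk C TAB 4 = true ∧
    okF C TAB 5 = true ∧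
    okRk C TAB 5 = true ∧
    okF C TAB 6 = true ∧
    okRk C TAB 6 = true ∧
    okF C TAB 7 = true ∧
    okRk C TAB 7 = true ∧
    okF C TAB 8 = true ∧
    okRk C TAB 8 = true ∧
    okF C TAB 9 = true ∧
    okRk C TAB 9 = true ∧
    okF C TAB 10 = true ∧
    okRk C TAB 10 = true ∧
    okF C TAB 11 = true ∧
    okRk C TAB 11 = true ∧
    okF C TAB 12 = true ∧
    okRk C TAB 12 = true ∧
    okF C TAB 13 = true ∧
    okRk C TAB 13 = true ∧
    okF C TAB 14 = true ∧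
    okRk C TAB 14 = true :=
  ⟨by decide +kernel, by decide +kernel, by decide +kernel,
   by decide +kernel, by decide +kernel, by decide +kernel,
   by decide +kernel, by decide +kernel, by decide +kernel,
   by decide +kernel, by decide +kernel, by decide +kernel,
   by decide +kernel, by decide +kernel, by decide +kernel,
   by decide +kernel, by decide +kernel, by decide +kernel,
   by decide +kernel, by decide +kernel, by decide +kernel,
   by decide +kernel, by decide +kernel, by decide +kernel,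
   by decide +kernel, by decide +kernel, by decide +kernel,
   by decide +kernel, by decide +kernel, by decide +kernel⟩

theorem f0 : okF C TAB 0 = true := all_F.1
theorem r0 : okRk C TAB 0 = true := all_F.2.1
theorem f1 : okF C TAB 1 = true := all_F.2.2.1
theorem r1 : okRk C TAB 1 = true := all_F.2.2.2.1
theorem f2 : okF C TAB 2 = true := all_F.2.2.2.2.1
theorem r2 : okRk C TAB 2 = true := all_F.2.2.2.2.2.1
theorem f3 : okF C TAB 3 = true := all_F.2.2.2.2.2.2.1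
theorem r3 : okRk C TAB 3 = true := all_F.2.2.2.2.2.2.2.1
theorem f4 : okF C TAB 4 = true := all_F.2.2.2.2.2.2.2.2.1
theorem r4 : okRk C TAB 4 = true := all_F.2.2.2.2.2.2.2.2.2.1
theorem f5 : okF C TAB 5 = true := all_F.2.2.2.2.2.2.2.2.2.2.1
theorem r5 : okRk C TAB 5 = true := all_F.2.2.2.2.2.2.2.2.2.2.2.1
theorem f6 : okF C TAB 6 = true := all_F.2.2.2.2.2.2.2.2.2.2.2.2.1
theorem r6 : okRk C TAB 6 = true := all_F.2.2.2.2.2.2.2.2.2.2.2.2.2.1
theorem f7 : okF C TAB 7 = true := all_F.2.2.2.2.2.2.2.2.2.2.2.2.2.2.1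
theorem r7 : okRk C TAB 7 = true := all_F.2.2.2.2.2.2.2.2.2.2.2.2.2.2.2.1
theorem f8 : okF C TAB 8 = true := all_F.2.2.2.2.2.2.2.2.2.2.2.2.2.2.2.2.1
theorem r8 : okRk C TAB 8 = true := all_F.2.2.2.2.2.2.2.2.2.2.2.2.2.2.2.2.2.1
theorem f9 : okF C TAB 9 = true := all_F.2.2.2.2.2.2.2.2.2.2.2.2.2.2.2.2.2.2.1
theorem r9 : okRk C TAB 9 = true := all_F.2.2.2.2.2.2.2.2.2.2.2.2.2.2.2.2.2.2.2.1
theorem f10 : okF C TAB 10 = true := all_F.2.2.2.2.2.2.2.2.2.2.2.2.2.2.2.2.2.2.2.2.1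
theorem r10 : okRk C TAB 10 = true := all_F.2.2.2.2.2.2.2.2.2.2.2.2.2.2.2.2.2.2.2.2.2.1
theorem f11 : okF C TAB 11 = true := all_F.2.2.2.2.2.2.2.2.2.2.2.2.2.2.2.2.2.2.2.2.2.2.1
theorem r11 : okRk C TAB 11 = true := all_F.2.2.2.2.2.2.2.2.2.2.2.2.2.2.2.2.2.2.2.2.2.2.2.1
theorem f12 : okF C TAB 12 = true := all_F.2.2.2.2.2.2.2.2.2.2.2.2.2.2.2.2.2.2.2.2.2.2.2.2.1
theorem r12 : okRk C TAB 12 = true := all_F.2.2.2.2.2.2.2.2.2.2.2.2.2.2.2.2.2.2.2.2.2.2.2.2.2.1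
theorem f13 : okF C TAB 13 = true := all_F.2.2.2.2.2.2.2.2.2.2.2.2.2.2.2.2.2.2.2.2.2.2.2.2.2.2.1
theorem r13 : okRk C TAB 13 = true := all_F.2.2.2.2.2.2.2.2.2.2.2.2.2.2.2.2.2.2.2.2.2.2.2.2.2.2.2.1
theorem f14 : okF C TAB 14 = true := all_F.2.2.2.2.2.2.2.2.2.2.2.2.2.2.2.2.2.2.2.2.2.2.2.2.2.2.2.2.1
theorem r14 : okRk C TAB 14 = true := all_F.2.2.2.2.2.2.2.2.2.2.2.2.2.2.2.2.2.2.2.2.2.2.2.2.2.2.2.2.2

end Pool.Agent.AKU6.VZ476
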