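import Pool.Agent.AKU6.VZ476.C

set_option autoImplicit false
set_option maxRecDepth 1000000

namespace Pool.Agent.AKU6.VZ476

open Pool.Agent.AKY Pool.Agent.AKU5

theorem all_H0 :
    okG C TAB 0 1 = true ∧
    okG C TAB 0 3 = true ∧
    okG C TAB 2 2 = true ∧
    okG C TAB 3 2 = true :=
  ⟨by decide +kernel, by decide +kernel, by decide +kernel,
   by decide +kernel⟩

theorem g0_1 : okG C TAB 0 1 = true := all_H0.1
theorem g0_3 : okG C TAB 0 3 = true := all_H0.2.1
theorem g2_2 : okG C TAB 2 2 = true := all_H0.2.2.1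
theorem g3_2 : okG C TAB 3 2 = true := all_H0.2.2.2

end Pool.Agent.AKU6.VZ476
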