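import Pool.Agent.AKU6.VZ476.C

set_option autoImplicit false
set_option maxRecDepth 1000000

namespace Pool.Agent.AKU6.VZ476

open Pool.Agent.AKY Pool.Agent.AKU5

theorem all_H2 :
    okG C TAB 0 5 = true ∧
    okG C TAB 1 3 = true ∧
    okG C TAB 2 3 = true ∧
    okG C TAB 3 7 = true ∧
    okG C TAB 4 0 = true ∧
    okG C TAB 4 6 = true ∧
    okG C TAB 5 4 = true ∧
    okG C TAB 6 5 = true ∧
    okG C TAB 7 2 = true :=
  ⟨by decide +kernel, by decide +kernel, by decide +kernel,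
   by decide +kernel, by decide +kernel, by decide +kernel,
   by decide +kernel, by decide +kernel, by decide +kernel⟩

theorem g0_5 : okG C TAB 0 5 = true := all_H2.1
theorem g1_3 : okG C TAB 1 3 = true := all_H2.2.1
theorem g2_3 : okG C TAB 2 3 = true := all_H2.2.2.1
theorem g3_7 : okG C TAB 3 7 = true := all_H2.2.2.2.1
theorem g4_0 : okG C TAB 4 0 = true := all_H2.2.2.2.2.1
theorem g4_6 : okG C TAB 4 6 = true := all_H2.2.2.2.2.2.1
theorem g5_4 : okG C TAB 5 4 = true := all_H2.2.2.2.2.2.2.1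
theorem g6_5 : okG C TAB 6 5 = true := all_H2.2.2.2.2.2.2.2.1
theorem g7_2 : okG C TAB 7 2 = true := all_H2.2.2.2.2.2.2.2.2

end Pool.Agent.AKU6.VZ476
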