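import Pool.Agent.AKU6.VZ476.C

set_option autoImplicit false
set_option maxRecDepth 1000000

namespace Pool.Agent.AKU6.VZ476

open Pool.Agent.AKY Pool.Agent.AKU5

theorem all_H5 :
    okG C TAB 0 4 = true ∧
    okG C TAB 2 6 = true ∧
    okG C TAB 3 6 = true ∧
    okG C TAB 4 2 = true ∧
    okG C TAB 5 0 = true ∧
    okG C TAB 5 6 = true ∧
    okG C TAB 6 0 = true ∧
    okG C TAB 6 4 = true ∧
    okG C TAB 7 3 = true ∧
    okG C TAB 7 6 = true :=
  ⟨by decide +kernel, by decide +kernel, by decide +kernel,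
   by decide +kernel, by decide +kernel, by decide +kernel,
   by decide +kernel, by decide +kernel, by decide +kernel,
   by decide +kernel⟩

theorem g0_4 : okG C TAB 0 4 = true := all_H5.1
theorem g2_6 : okG C TAB 2 6 = true := all_H5.2.1
theorem g3_6 : okG C TAB 3 6 = true := all_H5.2.2.1
theorem g4_2 : okG C TAB 4 2 = true := all_H5.2.2.2.1
theorem g5_0 : okG C TAB 5 0 = true := all_H5.2.2.2.2.1
theorem g5_6 : okG C TAB 5 6 = true := all_H5.2.2.2.2.2.1
theorem g6_0 : okG C TAB 6 0 = true := all_H5.2.2.2.2.2.2.1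
theorem g6_4 : okG C TAB 6 4 = true := all_H5.2.2.2.2.2.2.2.1
theorem g7_3 : okG C TAB 7 3 = true := all_H5.2.2.2.2.2.2.2.2.1
theorem g7_6 : okG C TAB 7 6 = true := all_H5.2.2.2.2.2.2.2.2.2

end Pool.Agent.AKU6.VZ476
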