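import Pool.Agent.AKU6.VZ476.C

set_option autoImplicit false
set_option maxRecDepth 1000000

namespace Pool.Agent.AKU6.VZ476

open Pool.Agent.AKY Pool.Agent.AKU5

theorem all_H6 :
    okG C TAB 1 7 = true ∧
    okG C TAB 2 0 = true ∧
    okG C TAB 2 1 = true ∧
    okG C TAB 3 1 = true ∧
    okG C TAB 3 4 = true ∧
    okG C TAB 4 5 = true ∧
    okG C TAB 5 3 = true ∧
    okG C TAB 7 1 = true :=
  ⟨by decide +kernel, by decide +kernel, by decide +kernel,
   by decide +kernel, by decide +kernel, by decide +kernel,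
   by decide +kernel, by decide +kernel⟩

theorem g1_7 : okG C TAB 1 7 = true := all_H6.1
theorem g2_0 : okG C TAB 2 0 = true := all_H6.2.1
theorem g2_1 : okG C TAB 2 1 = true := all_H6.2.2.1
theorem g3_1 : okG C TAB 3 1 = true := all_H6.2.2.2.1
theorem g3_4 : okG C TAB 3 4 = true := all_H6.2.2.2.2.1
theorem g4_5 : okG C TAB 4 5 = true := all_H6.2.2.2.2.2.1
theorem g5_3 : okG C TAB 5 3 = true := all_H6.2.2.2.2.2.2.1
theorem g7_1 : okG C TAB 7 1 = true := all_H6.2.2.2.2.2.2.2

end Pool.Agent.AKU6.VZ476
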