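import Pool.Agent.AKU6.VZ476.C

set_option autoImplicit false
set_option maxRecDepth 1000000

namespace Pool.Agent.AKU6.VZ476

open Pool.Agent.AKY Pool.Agent.AKU5

theorem all_H7 :
    okG C TAB 2 4 = true ∧
    okG C TAB 2 5 = true ∧
    okG C TAB 3 0 = true ∧
    okG C TAB 6 3 = true ∧
    okG C TAB 6 6 = true :=
  ⟨by decide +kernel, by decide +kernel, by decide +kernel,
   by decide +kernel, by decide +kernel⟩

theorem g2_4 : okG C TAB 2 4 = true := all_H7.1
theorem g2_5 : okG C TAB 2 5 = true := all_H7.2.1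
theorem g3_0 : okG C TAB 3 0 = true := all_H7.2.2.1
theorem g6_3 : okG C TAB 6 3 = true := all_H7.2.2.2.1
theorem g6_6 : okG C TAB 6 6 = true := all_H7.2.2.2.2

end Pool.Agent.AKU6.VZ476
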