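import Pool.Agent.AKU6.VZ476.C

set_option autoImplicit false
set_option maxRecDepth 1000000

namespace Pool.Agent.AKU6.VZ476

open Pool.Agent.AKY Pool.Agent.AKU5

theorem all_K :
    okW C TAB = true ∧
    okR C TAB = true ∧
    okA C = true ∧
    okR2 C = true ∧
    okC C = true ∧
    okT C TAB = true :=
  ⟨by decide +kernel, by decide +kernel, by decide +kernel,
   by decide +kernel, by decide +kernel, by decide +kernel⟩

theorem kW : okW C TAB = true := all_K.1
theorem kR : okR C TAB = true := all_K.2.1
theorem kA : okA C = true := all_K.2.2.1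
theorem kR2 : okR2 C = true := all_K.2.2.2.1
theorem kC : okC C = true := all_K.2.2.2.2.1
theorem kT : okT C TAB = true := all_K.2.2.2.2.2

end Pool.Agent.AKU6.VZ476
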