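import Pool.Agent.AKU6.VZ476.C

set_option autoImplicit false
set_option maxRecDepth 1000000

namespace Pool.Agent.AKU6.VZ476

open Pool.Agent.AKY Pool.Agent.AKU5

theorem all_M0 :
    chkI C 0 4 = true ∧
    chkI C 0 39 = true ∧
    chkI C 0 112 = true ∧
    chkI C 0 121 = true ∧
    chkI C 0 125 = true ∧
    chkI C 0 172 = true ∧
    chkI C 0 259 = true ∧
    chkI C 1 19 = true ∧
    chkI C 1 65 = true ∧
    chkI C 1 74 = true ∧
    chkI C 1 93 = true ∧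
    chkI C 1 98 = true ∧
    chkI C 1 132 = true ∧
    chkI C 1 150 = true ∧
    chkI C 1 156 = true ∧
    chkI C 1 205 = true ∧
    chkI C 1 216 = true ∧
    chkI C 2 55 = true ∧
    chkI C 2 76 = true ∧
    chkI C 2 146 = true ∧
    chkI C 3 1 = true ∧
    chkI C 3 41 = true ∧
    chkI C 3 49 = true ∧
    chkI C 3 117 = true ∧
    chkI C 4 20 = true ∧
    chkI C 4 24 = true ∧
    chkI C 4 44 = true ∧
    chkI C 4 56 = true ∧
    chkI C 4 59 = true ∧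
    chkI C 4 85 = true ∧
    chkI C 5 6 = true ∧
    chkI C 6 7 = true ∧
    chkI C 6 27 = true ∧
    chkI C 10 14 = true :=
  ⟨by decide +kernel, by decide +kernel, by decide +kernel,
   by decide +kernel, by decide +kernel, by decide +kernel,
   by decide +kernel, by decide +kernel, by decide +kernel,
   by decide +kernel, by decide +kernel, by decide +kernel,
   by decide +kernel, by decide +kernel, by decide +kernel,
   by decide +kernel, by decide +kernel, by decide +kernel,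
   by decide +kernel, by decide +kernel, by decide +kernel,
   by decide +kernel, by decide +kernel, by decide +kernel,
   by decide +kernel, by decide +kernel, by decide +kernel,
   by decide +kernel, by decide +kernel, by decide +kernel,
   by decide +kernel, by decide +kernel, by decide +kernel,
   by decide +kernel⟩

theorem m0_4 : chkI C 0 4 = true := all_M0.1
theorem m0_39 : chkI C 0 39 = true := all_M0.2.1
theorem m0_112 : chkI C 0 112 = true := all_M0.2.2.1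
theorem m0_121 : chkI C 0 121 = true := all_M0.2.2.2.1
theorem m0_125 : chkI C 0 125 = true := all_M0.2.2.2.2.1
theorem m0_172 : chkI C 0 172 = true := all_M0.2.2.2.2.2.1
theorem m0_259 : chkI C 0 259 = true := all_M0.2.2.2.2.2.2.1
theorem m1_19 : chkI C 1 19 = true := all_M0.2.2.2.2.2.2.2.1
theorem m1_65 : chkI C 1 65 = true := all_M0.2.2.2.2.2.2.2.2.1
theorem m1_74 : chkI C 1 74 = true := all_M0.2.2.2.2.2.2.2.2.2.1
theorem m1_93 : chkI C 1 93 = true := all_M0.2.2.2.2.2.2.2.2.2.2.1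
theorem m1_98 : chkI C 1 98 = true := all_M0.2.2.2.2.2.2.2.2.2.2.2.1
theorem m1_132 : chkI C 1 132 = true := all_M0.2.2.2.2.2.2.2.2.2.2.2.2.1
theorem m1_150 : chkI C 1 150 = true := all_M0.2.2.2.2.2.2.2.2.2.2.2.2.2.1
theorem m1_156 : chkI C 1 156 = true := all_M0.2.2.2.2.2.2.2.2.2.2.2.2.2.2.1
theorem m1_205 : chkI C 1 205 = true := all_M0.2.2.2.2.2.2.2.2.2.2.2.2.2.2.2.1
theorem m1_216 : chkI C 1 216 = true := all_M0.2.2.2.2.2.2.2.2.2.2.2.2.2.2.2.2.1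
theorem m2_55 : chkI C 2 55 = true := all_M0.2.2.2.2.2.2.2.2.2.2.2.2.2.2.2.2.2.1
theorem m2_76 : chkI C 2 76 = true := all_M0.2.2.2.2.2.2.2.2.2.2.2.2.2.2.2.2.2.2.1
theorem m2_146 : chkI C 2 146 = true := all_M0.2.2.2.2.2.2.2.2.2.2.2.2.2.2.2.2.2.2.2.1
theorem m3_1 : chkI C 3 1 = true := all_M0.2.2.2.2.2.2.2.2.2.2.2.2.2.2.2.2.2.2.2.2.1
theorem m3_41 : chkI C 3 41 = true := all_M0.2.2.2.2.2.2.2.2.2.2.2.2.2.2.2.2.2.2.2.2.2.1
theorem m3_49 : chkI C 3 49 = true := all_M0.2.2.2.2.2.2.2.2.2.2.2.2.2.2.2.2.2.2.2.2.2.2.1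
theorem m3_117 : chkI C 3 117 = true := all_M0.2.2.2.2.2.2.2.2.2.2.2.2.2.2.2.2.2.2.2.2.2.2.2.1
theorem m4_20 : chkI C 4 20 = true := all_M0.2.2.2.2.2.2.2.2.2.2.2.2.2.2.2.2.2.2.2.2.2.2.2.2.1
theorem m4_24 : chkI C 4 24 = true := all_M0.2.2.2.2.2.2.2.2.2.2.2.2.2.2.2.2.2.2.2.2.2.2.2.2.2.1
theorem m4_44 : chkI C 4 44 = true := all_M0.2.2.2.2.2.2.2.2.2.2.2.2.2.2.2.2.2.2.2.2.2.2.2.2.2.2.1
theorem m4_56 : chkI C 4 56 = true := all_M0.2.2.2.2.2.2.2.2.2.2.2.2.2.2.2.2.2.2.2.2.2.2.2.2.2.2.2.1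
theorem m4_59 : chkI C 4 59 = true := all_M0.2.2.2.2.2.2.2.2.2.2.2.2.2.2.2.2.2.2.2.2.2.2.2.2.2.2.2.2.1
theorem m4_85 : chkI C 4 85 = true := all_M0.2.2.2.2.2.2.2.2.2.2.2.2.2.2.2.2.2.2.2.2.2.2.2.2.2.2.2.2.2.1
theorem m5_6 : chkI C 5 6 = true := all_M0.2.2.2.2.2.2.2.2.2.2.2.2.2.2.2.2.2.2.2.2.2.2.2.2.2.2.2.2.2.2.1
theorem m6_7 : chkI C 6 7 = true := all_M0.2.2.2.2.2.2.2.2.2.2.2.2.2.2.2.2.2.2.2.2.2.2.2.2.2.2.2.2.2.2.2.1
theorem m6_27 : chkI C 6 27 = true := all_M0.2.2.2.2.2.2.2.2.2.2.2.2.2.2.2.2.2.2.2.2.2.2.2.2.2.2.2.2.2.2.2.2.1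
theorem m10_14 : chkI C 10 14 = true := all_M0.2.2.2.2.2.2.2.2.2.2.2.2.2.2.2.2.2.2.2.2.2.2.2.2.2.2.2.2.2.2.2.2.2

end Pool.Agent.AKU6.VZ476
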