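import Pool.Agent.AKU6.VZ476.C

set_option autoImplicit false
set_option maxRecDepth 1000000

namespace Pool.Agent.AKU6.VZ476

open Pool.Agent.AKY Pool.Agent.AKU5

theorem all_M1 :
    chkI C 0 6 = true ∧
    chkI C 0 36 = true ∧
    chkI C 0 80 = true ∧
    chkI C 0 108 = true ∧
    chkI C 0 113 = true ∧
    chkI C 0 183 = true ∧
    chkI C 0 185 = true ∧
    chkI C 0 250 = true ∧
    chkI C 0 253 = true ∧
    chkI C 0 262 = true ∧
    chkI C 1 36 = true ∧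
    chkI C 1 72 = true ∧
    chkI C 1 76 = true ∧
    chkI C 1 89 = true ∧
    chkI C 1 158 = true ∧
    chkI C 1 159 = true ∧
    chkI C 1 234 = true ∧
    chkI C 2 29 = true ∧
    chkI C 2 72 = true ∧
    chkI C 2 106 = true ∧
    chkI C 2 136 = true ∧
    chkI C 2 153 = true ∧
    chkI C 3 54 = true ∧
    chkI C 3 60 = true ∧
    chkI C 3 77 = true ∧
    chkI C 3 91 = true ∧
    chkI C 3 115 = true ∧
    chkI C 4 23 = true ∧
    chkI C 4 41 = true ∧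
    chkI C 4 57 = true ∧
    chkI C 5 8 = true ∧
    chkI C 6 8 = true ∧
    chkI C 11 0 = true :=
  ⟨by decide +kernel, by decide +kernel, by decide +kernel,
   by decide +kernel, by decide +kernel, by decide +kernel,
   by decide +kernel, by decide +kernel, by decide +kernel,
   by decide +kernel, by decide +kernel, by decide +kernel,
   by decide +kernel, by decide +kernel, by decide +kernel,
   by decide +kernel, by decide +kernel, by decide +kernel,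
   by decide +kernel, by decide +kernel, by decide +kernel,
   by decide +kernel, by decide +kernel, by decide +kernel,
   by decide +kernel, by decide +kernel, by decide +kernel,
   by decide +kernel, by decide +kernel, by decide +kernel,
   by decide +kernel, by decide +kernel, by decide +kernel⟩

theorem m0_6 : chkI C 0 6 = true := all_M1.1
theorem m0_36 : chkI C 0 36 = true := all_M1.2.1
theorem m0_80 : chkI C 0 80 = true := all_M1.2.2.1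
theorem m0_108 : chkI C 0 108 = true := all_M1.2.2.2.1
theorem m0_113 : chkI C 0 113 = true := all_M1.2.2.2.2.1
theorem m0_183 : chkI C 0 183 = true := all_M1.2.2.2.2.2.1
theorem m0_185 : chkI C 0 185 = true := all_M1.2.2.2.2.2.2.1
theorem m0_250 : chkI C 0 250 = true := all_M1.2.2.2.2.2.2.2.1
theorem m0_253 : chkI C 0 253 = true := all_M1.2.2.2.2.2.2.2.2.1
theorem m0_262 : chkI C 0 262 = true := all_M1.2.2.2.2.2.2.2.2.2.1
theorem m1_36 : chkI C 1 36 = true := all_M1.2.2.2.2.2.2.2.2.2.2.1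
theorem m1_72 : chkI C 1 72 = true := all_M1.2.2.2.2.2.2.2.2.2.2.2.1
theorem m1_76 : chkI C 1 76 = true := all_M1.2.2.2.2.2.2.2.2.2.2.2.2.1
theorem m1_89 : chkI C 1 89 = true := all_M1.2.2.2.2.2.2.2.2.2.2.2.2.2.1
theorem m1_158 : chkI C 1 158 = true := all_M1.2.2.2.2.2.2.2.2.2.2.2.2.2.2.1
theorem m1_159 : chkI C 1 159 = true := all_M1.2.2.2.2.2.2.2.2.2.2.2.2.2.2.2.1
theorem m1_234 : chkI C 1 234 = true := all_M1.2.2.2.2.2.2.2.2.2.2.2.2.2.2.2.2.1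
theorem m2_29 : chkI C 2 29 = true := all_M1.2.2.2.2.2.2.2.2.2.2.2.2.2.2.2.2.2.1
theorem m2_72 : chkI C 2 72 = true := all_M1.2.2.2.2.2.2.2.2.2.2.2.2.2.2.2.2.2.2.1
theorem m2_106 : chkI C 2 106 = true := all_M1.2.2.2.2.2.2.2.2.2.2.2.2.2.2.2.2.2.2.2.1
theorem m2_136 : chkI C 2 136 = true := all_M1.2.2.2.2.2.2.2.2.2.2.2.2.2.2.2.2.2.2.2.2.1
theorem m2_153 : chkI C 2 153 = true := all_M1.2.2.2.2.2.2.2.2.2.2.2.2.2.2.2.2.2.2.2.2.2.1
theorem m3_54 : chkI C 3 54 = true := all_M1.2.2.2.2.2.2.2.2.2.2.2.2.2.2.2.2.2.2.2.2.2.2.1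
theorem m3_60 : chkI C 3 60 = true := all_M1.2.2.2.2.2.2.2.2.2.2.2.2.2.2.2.2.2.2.2.2.2.2.2.1
theorem m3_77 : chkI C 3 77 = true := all_M1.2.2.2.2.2.2.2.2.2.2.2.2.2.2.2.2.2.2.2.2.2.2.2.2.1
theorem m3_91 : chkI C 3 91 = true := all_M1.2.2.2.2.2.2.2.2.2.2.2.2.2.2.2.2.2.2.2.2.2.2.2.2.2.1
theorem m3_115 : chkI C 3 115 = true := all_M1.2.2.2.2.2.2.2.2.2.2.2.2.2.2.2.2.2.2.2.2.2.2.2.2.2.2.1
theorem m4_23 : chkI C 4 23 = true := all_M1.2.2.2.2.2.2.2.2.2.2.2.2.2.2.2.2.2.2.2.2.2.2.2.2.2.2.2.1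
theorem m4_41 : chkI C 4 41 = true := all_M1.2.2.2.2.2.2.2.2.2.2.2.2.2.2.2.2.2.2.2.2.2.2.2.2.2.2.2.2.1
theorem m4_57 : chkI C 4 57 = true := all_M1.2.2.2.2.2.2.2.2.2.2.2.2.2.2.2.2.2.2.2.2.2.2.2.2.2.2.2.2.2.1
theorem m5_8 : chkI C 5 8 = true := all_M1.2.2.2.2.2.2.2.2.2.2.2.2.2.2.2.2.2.2.2.2.2.2.2.2.2.2.2.2.2.2.1
theorem m6_8 : chkI C 6 8 = true := all_M1.2.2.2.2.2.2.2.2.2.2.2.2.2.2.2.2.2.2.2.2.2.2.2.2.2.2.2.2.2.2.2.1
theorem m11_0 : chkI C 11 0 = true := all_M1.2.2.2.2.2.2.2.2.2.2.2.2.2.2.2.2.2.2.2.2.2.2.2.2.2.2.2.2.2.2.2.2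

end Pool.Agent.AKU6.VZ476
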