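import Pool.Agent.AKU6.VZ476.C

set_option autoImplicit false
set_option maxRecDepth 1000000

namespace Pool.Agent.AKU6.VZ476

open Pool.Agent.AKY Pool.Agent.AKU5

theorem all_M10 :
    chkI C 0 24 = true ∧
    chkI C 0 48 = true ∧
    chkI C 0 62 = true ∧
    chkI C 0 92 = true ∧
    chkI C 0 117 = true ∧
    chkI C 0 132 = true ∧
    chkI C 0 170 = true ∧
    chkI C 0 193 = true ∧
    chkI C 0 196 = true ∧
    chkI C 0 215 = true ∧
    chkI C 1 59 = true ∧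
    chkI C 1 105 = true ∧
    chkI C 1 124 = true ∧
    chkI C 1 127 = true ∧
    chkI C 1 143 = true ∧
    chkI C 1 198 = true ∧
    chkI C 1 227 = true ∧
    chkI C 1 230 = true ∧
    chkI C 2 22 = true ∧
    chkI C 2 57 = true ∧
    chkI C 2 102 = true ∧
    chkI C 3 50 = true ∧
    chkI C 3 53 = true ∧
    chkI C 3 94 = true ∧
    chkI C 3 104 = true ∧
    chkI C 4 10 = true ∧
    chkI C 4 13 = true ∧
    chkI C 4 46 = true ∧
    chkI C 4 61 = true ∧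
    chkI C 4 84 = true ∧
    chkI C 5 9 = true ∧
    chkI C 5 49 = true ∧
    chkI C 5 50 = true :=
  ⟨by decide +kernel, by decide +kernel, by decide +kernel,
   by decide +kernel, by decide +kernel, by decide +kernel,
   by decide +kernel, by decide +kernel, by decide +kernel,
   by decide +kernel, by decide +kernel, by decide +kernel,
   by decide +kernel, by decide +kernel, by decide +kernel,
   by decide +kernel, by decide +kernel, by decide +kernel,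
   by decide +kernel, by decide +kernel, by decide +kernel,
   by decide +kernel, by decide +kernel, by decide +kernel,
   by decide +kernel, by decide +kernel, by decide +kernel,
   by decide +kernel, by decide +kernel, by decide +kernel,
   by decide +kernel, by decide +kernel, by decide +kernel⟩

theorem m0_24 : chkI C 0 24 = true := all_M10.1
theorem m0_48 : chkI C 0 48 = true := all_M10.2.1
theorem m0_62 : chkI C 0 62 = true := all_M10.2.2.1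
theorem m0_92 : chkI C 0 92 = true := all_M10.2.2.2.1
theorem m0_117 : chkI C 0 117 = true := all_M10.2.2.2.2.1
theorem m0_132 : chkI C 0 132 = true := all_M10.2.2.2.2.2.1
theorem m0_170 : chkI C 0 170 = true := all_M10.2.2.2.2.2.2.1
theorem m0_193 : chkI C 0 193 = true := all_M10.2.2.2.2.2.2.2.1
theorem m0_196 : chkI C 0 196 = true := all_M10.2.2.2.2.2.2.2.2.1
theorem m0_215 : chkI C 0 215 = true := all_M10.2.2.2.2.2.2.2.2.2.1
theorem m1_59 : chkI C 1 59 = true := all_M10.2.2.2.2.2.2.2.2.2.2.1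
theorem m1_105 : chkI C 1 105 = true := all_M10.2.2.2.2.2.2.2.2.2.2.2.1
theorem m1_124 : chkI C 1 124 = true := all_M10.2.2.2.2.2.2.2.2.2.2.2.2.1
theorem m1_127 : chkI C 1 127 = true := all_M10.2.2.2.2.2.2.2.2.2.2.2.2.2.1
theorem m1_143 : chkI C 1 143 = true := all_M10.2.2.2.2.2.2.2.2.2.2.2.2.2.2.1
theorem m1_198 : chkI C 1 198 = true := all_M10.2.2.2.2.2.2.2.2.2.2.2.2.2.2.2.1
theorem m1_227 : chkI C 1 227 = true := all_M10.2.2.2.2.2.2.2.2.2.2.2.2.2.2.2.2.1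
theorem m1_230 : chkI C 1 230 = true := all_M10.2.2.2.2.2.2.2.2.2.2.2.2.2.2.2.2.2.1
theorem m2_22 : chkI C 2 22 = true := all_M10.2.2.2.2.2.2.2.2.2.2.2.2.2.2.2.2.2.2.1
theorem m2_57 : chkI C 2 57 = true := all_M10.2.2.2.2.2.2.2.2.2.2.2.2.2.2.2.2.2.2.2.1
theorem m2_102 : chkI C 2 102 = true := all_M10.2.2.2.2.2.2.2.2.2.2.2.2.2.2.2.2.2.2.2.2.1
theorem m3_50 : chkI C 3 50 = true := all_M10.2.2.2.2.2.2.2.2.2.2.2.2.2.2.2.2.2.2.2.2.2.1
theorem m3_53 : chkI C 3 53 = true := all_M10.2.2.2.2.2.2.2.2.2.2.2.2.2.2.2.2.2.2.2.2.2.2.1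
theorem m3_94 : chkI C 3 94 = true := all_M10.2.2.2.2.2.2.2.2.2.2.2.2.2.2.2.2.2.2.2.2.2.2.2.1
theorem m3_104 : chkI C 3 104 = true := all_M10.2.2.2.2.2.2.2.2.2.2.2.2.2.2.2.2.2.2.2.2.2.2.2.2.1
theorem m4_10 : chkI C 4 10 = true := all_M10.2.2.2.2.2.2.2.2.2.2.2.2.2.2.2.2.2.2.2.2.2.2.2.2.2.1
theorem m4_13 : chkI C 4 13 = true := all_M10.2.2.2.2.2.2.2.2.2.2.2.2.2.2.2.2.2.2.2.2.2.2.2.2.2.2.1
theorem m4_46 : chkI C 4 46 = true := all_M10.2.2.2.2.2.2.2.2.2.2.2.2.2.2.2.2.2.2.2.2.2.2.2.2.2.2.2.1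
theorem m4_61 : chkI C 4 61 = true := all_M10.2.2.2.2.2.2.2.2.2.2.2.2.2.2.2.2.2.2.2.2.2.2.2.2.2.2.2.2.1
theorem m4_84 : chkI C 4 84 = true := all_M10.2.2.2.2.2.2.2.2.2.2.2.2.2.2.2.2.2.2.2.2.2.2.2.2.2.2.2.2.2.1
theorem m5_9 : chkI C 5 9 = true := all_M10.2.2.2.2.2.2.2.2.2.2.2.2.2.2.2.2.2.2.2.2.2.2.2.2.2.2.2.2.2.2.1
theorem m5_49 : chkI C 5 49 = true := all_M10.2.2.2.2.2.2.2.2.2.2.2.2.2.2.2.2.2.2.2.2.2.2.2.2.2.2.2.2.2.2.2.1
theorem m5_50 : chkI C 5 50 = true := all_M10.2.2.2.2.2.2.2.2.2.2.2.2.2.2.2.2.2.2.2.2.2.2.2.2.2.2.2.2.2.2.2.2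

end Pool.Agent.AKU6.VZ476
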