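import Pool.Agent.AKU6.VZ476.C

set_option autoImplicit false
set_option maxRecDepth 1000000

namespace Pool.Agent.AKU6.VZ476

open Pool.Agent.AKY Pool.Agent.AKU5

theorem all_M11 :
    chkI C 0 5 = true ∧
    chkI C 0 54 = true ∧
    chkI C 0 102 = true ∧
    chkI C 0 131 = true ∧
    chkI C 0 140 = true ∧
    chkI C 0 146 = true ∧
    chkI C 0 175 = true ∧
    chkI C 0 217 = true ∧
    chkI C 0 274 = true ∧
    chkI C 0 283 = true ∧
    chkI C 1 62 = true ∧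
    chkI C 1 88 = true ∧
    chkI C 1 91 = true ∧
    chkI C 1 95 = true ∧
    chkI C 1 116 = true ∧
    chkI C 1 180 = true ∧
    chkI C 1 237 = true ∧
    chkI C 2 33 = true ∧
    chkI C 2 83 = true ∧
    chkI C 2 105 = true ∧
    chkI C 2 134 = true ∧
    chkI C 2 138 = true ∧
    chkI C 2 142 = true ∧
    chkI C 3 7 = true ∧
    chkI C 3 44 = true ∧
    chkI C 3 70 = true ∧
    chkI C 3 86 = true ∧
    chkI C 3 131 = true ∧
    chkI C 4 29 = true ∧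
    chkI C 4 32 = true ∧
    chkI C 4 63 = true ∧
    chkI C 7 8 = true ∧
    chkI C 8 1 = true :=
  ⟨by decide +kernel, by decide +kernel, by decide +kernel,
   by decide +kernel, by decide +kernel, by decide +kernel,
   by decide +kernel, by decide +kernel, by decide +kernel,
   by decide +kernel, by decide +kernel, by decide +kernel,
   by decide +kernel, by decide +kernel, by decide +kernel,
   by decide +kernel, by decide +kernel, by decide +kernel,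
   by decide +kernel, by decide +kernel, by decide +kernel,
   by decide +kernel, by decide +kernel, by decide +kernel,
   by decide +kernel, by decide +kernel, by decide +kernel,
   by decide +kernel, by decide +kernel, by decide +kernel,
   by decide +kernel, by decide +kernel, by decide +kernel⟩

theorem m0_5 : chkI C 0 5 = true := all_M11.1
theorem m0_54 : chkI C 0 54 = true := all_M11.2.1
theorem m0_102 : chkI C 0 102 = true := all_M11.2.2.1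
theorem m0_131 : chkI C 0 131 = true := all_M11.2.2.2.1
theorem m0_140 : chkI C 0 140 = true := all_M11.2.2.2.2.1
theorem m0_146 : chkI C 0 146 = true := all_M11.2.2.2.2.2.1
theorem m0_175 : chkI C 0 175 = true := all_M11.2.2.2.2.2.2.1
theorem m0_217 : chkI C 0 217 = true := all_M11.2.2.2.2.2.2.2.1
theorem m0_274 : chkI C 0 274 = true := all_M11.2.2.2.2.2.2.2.2.1
theorem m0_283 : chkI C 0 283 = true := all_M11.2.2.2.2.2.2.2.2.2.1
theorem m1_62 : chkI C 1 62 = true := all_M11.2.2.2.2.2.2.2.2.2.2.1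
theorem m1_88 : chkI C 1 88 = true := all_M11.2.2.2.2.2.2.2.2.2.2.2.1
theorem m1_91 : chkI C 1 91 = true := all_M11.2.2.2.2.2.2.2.2.2.2.2.2.1
theorem m1_95 : chkI C 1 95 = true := all_M11.2.2.2.2.2.2.2.2.2.2.2.2.2.1
theorem m1_116 : chkI C 1 116 = true := all_M11.2.2.2.2.2.2.2.2.2.2.2.2.2.2.1
theorem m1_180 : chkI C 1 180 = true := all_M11.2.2.2.2.2.2.2.2.2.2.2.2.2.2.2.1
theorem m1_237 : chkI C 1 237 = true := all_M11.2.2.2.2.2.2.2.2.2.2.2.2.2.2.2.2.1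
theorem m2_33 : chkI C 2 33 = true := all_M11.2.2.2.2.2.2.2.2.2.2.2.2.2.2.2.2.2.1
theorem m2_83 : chkI C 2 83 = true := all_M11.2.2.2.2.2.2.2.2.2.2.2.2.2.2.2.2.2.2.1
theorem m2_105 : chkI C 2 105 = true := all_M11.2.2.2.2.2.2.2.2.2.2.2.2.2.2.2.2.2.2.2.1
theorem m2_134 : chkI C 2 134 = true := all_M11.2.2.2.2.2.2.2.2.2.2.2.2.2.2.2.2.2.2.2.2.1
theorem m2_138 : chkI C 2 138 = true := all_M11.2.2.2.2.2.2.2.2.2.2.2.2.2.2.2.2.2.2.2.2.2.1
theorem m2_142 : chkI C 2 142 = true := all_M11.2.2.2.2.2.2.2.2.2.2.2.2.2.2.2.2.2.2.2.2.2.2.1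
theorem m3_7 : chkI C 3 7 = true := all_M11.2.2.2.2.2.2.2.2.2.2.2.2.2.2.2.2.2.2.2.2.2.2.2.1
theorem m3_44 : chkI C 3 44 = true := all_M11.2.2.2.2.2.2.2.2.2.2.2.2.2.2.2.2.2.2.2.2.2.2.2.2.1
theorem m3_70 : chkI C 3 70 = true := all_M11.2.2.2.2.2.2.2.2.2.2.2.2.2.2.2.2.2.2.2.2.2.2.2.2.2.1
theorem m3_86 : chkI C 3 86 = true := all_M11.2.2.2.2.2.2.2.2.2.2.2.2.2.2.2.2.2.2.2.2.2.2.2.2.2.2.1
theorem m3_131 : chkI C 3 131 = true := all_M11.2.2.2.2.2.2.2.2.2.2.2.2.2.2.2.2.2.2.2.2.2.2.2.2.2.2.2.1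
theorem m4_29 : chkI C 4 29 = true := all_M11.2.2.2.2.2.2.2.2.2.2.2.2.2.2.2.2.2.2.2.2.2.2.2.2.2.2.2.2.1
theorem m4_32 : chkI C 4 32 = true := all_M11.2.2.2.2.2.2.2.2.2.2.2.2.2.2.2.2.2.2.2.2.2.2.2.2.2.2.2.2.2.1
theorem m4_63 : chkI C 4 63 = true := all_M11.2.2.2.2.2.2.2.2.2.2.2.2.2.2.2.2.2.2.2.2.2.2.2.2.2.2.2.2.2.2.1
theorem m7_8 : chkI C 7 8 = true := all_M11.2.2.2.2.2.2.2.2.2.2.2.2.2.2.2.2.2.2.2.2.2.2.2.2.2.2.2.2.2.2.2.1
theorem m8_1 : chkI C 8 1 = true := all_M11.2.2.2.2.2.2.2.2.2.2.2.2.2.2.2.2.2.2.2.2.2.2.2.2.2.2.2.2.2.2.2.2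

end Pool.Agent.AKU6.VZ476
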