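import Pool.Agent.AKU6.VZ476.C

set_option autoImplicit false
set_option maxRecDepth 1000000

namespace Pool.Agent.AKU6.VZ476

open Pool.Agent.AKY Pool.Agent.AKU5

theorem all_M12 :
    chkI C 0 15 = true ∧
    chkI C 0 58 = true ∧
    chkI C 0 59 = true ∧
    chkI C 0 85 = true ∧
    chkI C 0 106 = true ∧
    chkI C 0 127 = true ∧
    chkI C 0 179 = true ∧
    chkI C 0 190 = true ∧
    chkI C 0 252 = true ∧
    chkI C 0 269 = true ∧
    chkI C 0 309 = true ∧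
    chkI C 1 54 = true ∧
    chkI C 1 69 = true ∧
    chkI C 1 136 = true ∧
    chkI C 1 189 = true ∧
    chkI C 1 210 = true ∧
    chkI C 2 2 = true ∧
    chkI C 2 39 = true ∧
    chkI C 2 80 = true ∧
    chkI C 2 94 = true ∧
    chkI C 2 115 = true ∧
    chkI C 2 145 = true ∧
    chkI C 3 18 = true ∧
    chkI C 3 30 = true ∧
    chkI C 3 38 = true ∧
    chkI C 3 58 = true ∧
    chkI C 3 118 = true ∧
    chkI C 4 38 = true ∧
    chkI C 4 58 = true ∧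
    chkI C 4 67 = true ∧
    chkI C 5 45 = true ∧
    chkI C 6 19 = true ∧
    chkI C 7 1 = true :=
  ⟨by decide +kernel, by decide +kernel, by decide +kernel,
   by decide +kernel, by decide +kernel, by decide +kernel,
   by decide +kernel, by decide +kernel, by decide +kernel,
   by decide +kernel, by decide +kernel, by decide +kernel,
   by decide +kernel, by decide +kernel, by decide +kernel,
   by decide +kernel, by decide +kernel, by decide +kernel,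
   by decide +kernel, by decide +kernel, by decide +kernel,
   by decide +kernel, by decide +kernel, by decide +kernel,
   by decide +kernel, by decide +kernel, by decide +kernel,
   by decide +kernel, by decide +kernel, by decide +kernel,
   by decide +kernel, by decide +kernel, by decide +kernel⟩

theorem m0_15 : chkI C 0 15 = true := all_M12.1
theorem m0_58 : chkI C 0 58 = true := all_M12.2.1
theorem m0_59 : chkI C 0 59 = true := all_M12.2.2.1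
theorem m0_85 : chkI C 0 85 = true := all_M12.2.2.2.1
theorem m0_106 : chkI C 0 106 = true := all_M12.2.2.2.2.1
theorem m0_127 : chkI C 0 127 = true := all_M12.2.2.2.2.2.1
theorem m0_179 : chkI C 0 179 = true := all_M12.2.2.2.2.2.2.1
theorem m0_190 : chkI C 0 190 = true := all_M12.2.2.2.2.2.2.2.1
theorem m0_252 : chkI C 0 252 = true := all_M12.2.2.2.2.2.2.2.2.1
theorem m0_269 : chkI C 0 269 = true := all_M12.2.2.2.2.2.2.2.2.2.1
theorem m0_309 : chkI C 0 309 = true := all_M12.2.2.2.2.2.2.2.2.2.2.1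
theorem m1_54 : chkI C 1 54 = true := all_M12.2.2.2.2.2.2.2.2.2.2.2.1
theorem m1_69 : chkI C 1 69 = true := all_M12.2.2.2.2.2.2.2.2.2.2.2.2.1
theorem m1_136 : chkI C 1 136 = true := all_M12.2.2.2.2.2.2.2.2.2.2.2.2.2.1
theorem m1_189 : chkI C 1 189 = true := all_M12.2.2.2.2.2.2.2.2.2.2.2.2.2.2.1
theorem m1_210 : chkI C 1 210 = true := all_M12.2.2.2.2.2.2.2.2.2.2.2.2.2.2.2.1
theorem m2_2 : chkI C 2 2 = true := all_M12.2.2.2.2.2.2.2.2.2.2.2.2.2.2.2.2.1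
theorem m2_39 : chkI C 2 39 = true := all_M12.2.2.2.2.2.2.2.2.2.2.2.2.2.2.2.2.2.1
theorem m2_80 : chkI C 2 80 = true := all_M12.2.2.2.2.2.2.2.2.2.2.2.2.2.2.2.2.2.2.1
theorem m2_94 : chkI C 2 94 = true := all_M12.2.2.2.2.2.2.2.2.2.2.2.2.2.2.2.2.2.2.2.1
theorem m2_115 : chkI C 2 115 = true := all_M12.2.2.2.2.2.2.2.2.2.2.2.2.2.2.2.2.2.2.2.2.1
theorem m2_145 : chkI C 2 145 = true := all_M12.2.2.2.2.2.2.2.2.2.2.2.2.2.2.2.2.2.2.2.2.2.1
theorem m3_18 : chkI C 3 18 = true := all_M12.2.2.2.2.2.2.2.2.2.2.2.2.2.2.2.2.2.2.2.2.2.2.1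
theorem m3_30 : chkI C 3 30 = true := all_M12.2.2.2.2.2.2.2.2.2.2.2.2.2.2.2.2.2.2.2.2.2.2.2.1
theorem m3_38 : chkI C 3 38 = true := all_M12.2.2.2.2.2.2.2.2.2.2.2.2.2.2.2.2.2.2.2.2.2.2.2.2.1
theorem m3_58 : chkI C 3 58 = true := all_M12.2.2.2.2.2.2.2.2.2.2.2.2.2.2.2.2.2.2.2.2.2.2.2.2.2.1
theorem m3_118 : chkI C 3 118 = true := all_M12.2.2.2.2.2.2.2.2.2.2.2.2.2.2.2.2.2.2.2.2.2.2.2.2.2.2.1
theorem m4_38 : chkI C 4 38 = true := all_M12.2.2.2.2.2.2.2.2.2.2.2.2.2.2.2.2.2.2.2.2.2.2.2.2.2.2.2.1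
theorem m4_58 : chkI C 4 58 = true := all_M12.2.2.2.2.2.2.2.2.2.2.2.2.2.2.2.2.2.2.2.2.2.2.2.2.2.2.2.2.1
theorem m4_67 : chkI C 4 67 = true := all_M12.2.2.2.2.2.2.2.2.2.2.2.2.2.2.2.2.2.2.2.2.2.2.2.2.2.2.2.2.2.1
theorem m5_45 : chkI C 5 45 = true := all_M12.2.2.2.2.2.2.2.2.2.2.2.2.2.2.2.2.2.2.2.2.2.2.2.2.2.2.2.2.2.2.1
theorem m6_19 : chkI C 6 19 = true := all_M12.2.2.2.2.2.2.2.2.2.2.2.2.2.2.2.2.2.2.2.2.2.2.2.2.2.2.2.2.2.2.2.1
theorem m7_1 : chkI C 7 1 = true := all_M12.2.2.2.2.2.2.2.2.2.2.2.2.2.2.2.2.2.2.2.2.2.2.2.2.2.2.2.2.2.2.2.2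

end Pool.Agent.AKU6.VZ476
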