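import Pool.Agent.AKU6.VZ476.C

set_option autoImplicit false
set_option maxRecDepth 1000000

namespace Pool.Agent.AKU6.VZ476

open Pool.Agent.AKY Pool.Agent.AKU5

theorem all_M13 :
    chkI C 0 53 = true ∧
    chkI C 0 98 = true ∧
    chkI C 0 101 = true ∧
    chkI C 0 126 = true ∧
    chkI C 0 166 = true ∧
    chkI C 0 239 = true ∧
    chkI C 0 307 = true ∧
    chkI C 1 15 = true ∧
    chkI C 1 35 = true ∧
    chkI C 1 47 = true ∧
    chkI C 1 55 = true ∧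
    chkI C 1 94 = true ∧
    chkI C 1 97 = true ∧
    chkI C 1 109 = true ∧
    chkI C 1 121 = true ∧
    chkI C 1 142 = true ∧
    chkI C 1 187 = true ∧
    chkI C 2 27 = true ∧
    chkI C 2 78 = true ∧
    chkI C 2 91 = true ∧
    chkI C 2 111 = true ∧
    chkI C 2 132 = true ∧
    chkI C 2 141 = true ∧
    chkI C 2 144 = true ∧
    chkI C 3 25 = true ∧
    chkI C 3 51 = true ∧
    chkI C 3 73 = true ∧
    chkI C 4 15 = true ∧
    chkI C 4 18 = true ∧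
    chkI C 4 87 = true ∧
    chkI C 5 28 = true ∧
    chkI C 5 52 = true ∧
    chkI C 10 3 = true ∧
    chkI C 10 13 = true :=
  ⟨by decide +kernel, by decide +kernel, by decide +kernel,
   by decide +kernel, by decide +kernel, by decide +kernel,
   by decide +kernel, by decide +kernel, by decide +kernel,
   by decide +kernel, by decide +kernel, by decide +kernel,
   by decide +kernel, by decide +kernel, by decide +kernel,
   by decide +kernel, by decide +kernel, by decide +kernel,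
   by decide +kernel, by decide +kernel, by decide +kernel,
   by decide +kernel, by decide +kernel, by decide +kernel,
   by decide +kernel, by decide +kernel, by decide +kernel,
   by decide +kernel, by decide +kernel, by decide +kernel,
   by decide +kernel, by decide +kernel, by decide +kernel,
   by decide +kernel⟩

theorem m0_53 : chkI C 0 53 = true := all_M13.1
theorem m0_98 : chkI C 0 98 = true := all_M13.2.1
theorem m0_101 : chkI C 0 101 = true := all_M13.2.2.1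
theorem m0_126 : chkI C 0 126 = true := all_M13.2.2.2.1
theorem m0_166 : chkI C 0 166 = true := all_M13.2.2.2.2.1
theorem m0_239 : chkI C 0 239 = true := all_M13.2.2.2.2.2.1
theorem m0_307 : chkI C 0 307 = true := all_M13.2.2.2.2.2.2.1
theorem m1_15 : chkI C 1 15 = true := all_M13.2.2.2.2.2.2.2.1
theorem m1_35 : chkI C 1 35 = true := all_M13.2.2.2.2.2.2.2.2.1
theorem m1_47 : chkI C 1 47 = true := all_M13.2.2.2.2.2.2.2.2.2.1
theorem m1_55 : chkI C 1 55 = true := all_M13.2.2.2.2.2.2.2.2.2.2.1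
theorem m1_94 : chkI C 1 94 = true := all_M13.2.2.2.2.2.2.2.2.2.2.2.1
theorem m1_97 : chkI C 1 97 = true := all_M13.2.2.2.2.2.2.2.2.2.2.2.2.1
theorem m1_109 : chkI C 1 109 = true := all_M13.2.2.2.2.2.2.2.2.2.2.2.2.2.1
theorem m1_121 : chkI C 1 121 = true := all_M13.2.2.2.2.2.2.2.2.2.2.2.2.2.2.1
theorem m1_142 : chkI C 1 142 = true := all_M13.2.2.2.2.2.2.2.2.2.2.2.2.2.2.2.1
theorem m1_187 : chkI C 1 187 = true := all_M13.2.2.2.2.2.2.2.2.2.2.2.2.2.2.2.2.1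
theorem m2_27 : chkI C 2 27 = true := all_M13.2.2.2.2.2.2.2.2.2.2.2.2.2.2.2.2.2.1
theorem m2_78 : chkI C 2 78 = true := all_M13.2.2.2.2.2.2.2.2.2.2.2.2.2.2.2.2.2.2.1
theorem m2_91 : chkI C 2 91 = true := all_M13.2.2.2.2.2.2.2.2.2.2.2.2.2.2.2.2.2.2.2.1
theorem m2_111 : chkI C 2 111 = true := all_M13.2.2.2.2.2.2.2.2.2.2.2.2.2.2.2.2.2.2.2.2.1
theorem m2_132 : chkI C 2 132 = true := all_M13.2.2.2.2.2.2.2.2.2.2.2.2.2.2.2.2.2.2.2.2.2.1
theorem m2_141 : chkI C 2 141 = true := all_M13.2.2.2.2.2.2.2.2.2.2.2.2.2.2.2.2.2.2.2.2.2.2.1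
theorem m2_144 : chkI C 2 144 = true := all_M13.2.2.2.2.2.2.2.2.2.2.2.2.2.2.2.2.2.2.2.2.2.2.2.1
theorem m3_25 : chkI C 3 25 = true := all_M13.2.2.2.2.2.2.2.2.2.2.2.2.2.2.2.2.2.2.2.2.2.2.2.2.1
theorem m3_51 : chkI C 3 51 = true := all_M13.2.2.2.2.2.2.2.2.2.2.2.2.2.2.2.2.2.2.2.2.2.2.2.2.2.1
theorem m3_73 : chkI C 3 73 = true := all_M13.2.2.2.2.2.2.2.2.2.2.2.2.2.2.2.2.2.2.2.2.2.2.2.2.2.2.1
theorem m4_15 : chkI C 4 15 = true := all_M13.2.2.2.2.2.2.2.2.2.2.2.2.2.2.2.2.2.2.2.2.2.2.2.2.2.2.2.1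
theorem m4_18 : chkI C 4 18 = true := all_M13.2.2.2.2.2.2.2.2.2.2.2.2.2.2.2.2.2.2.2.2.2.2.2.2.2.2.2.2.1
theorem m4_87 : chkI C 4 87 = true := all_M13.2.2.2.2.2.2.2.2.2.2.2.2.2.2.2.2.2.2.2.2.2.2.2.2.2.2.2.2.2.1
theorem m5_28 : chkI C 5 28 = true := all_M13.2.2.2.2.2.2.2.2.2.2.2.2.2.2.2.2.2.2.2.2.2.2.2.2.2.2.2.2.2.2.1
theorem m5_52 : chkI C 5 52 = true := all_M13.2.2.2.2.2.2.2.2.2.2.2.2.2.2.2.2.2.2.2.2.2.2.2.2.2.2.2.2.2.2.2.1
theorem m10_3 : chkI C 10 3 = true := all_M13.2.2.2.2.2.2.2.2.2.2.2.2.2.2.2.2.2.2.2.2.2.2.2.2.2.2.2.2.2.2.2.2.1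
theorem m10_13 : chkI C 10 13 = true := all_M13.2.2.2.2.2.2.2.2.2.2.2.2.2.2.2.2.2.2.2.2.2.2.2.2.2.2.2.2.2.2.2.2.2

end Pool.Agent.AKU6.VZ476
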