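import Pool.Agent.AKU6.VZ476.C

set_option autoImplicit false
set_option maxRecDepth 1000000

namespace Pool.Agent.AKU6.VZ476

open Pool.Agent.AKY Pool.Agent.AKU5

theorem all_M14 :
    chkI C 0 27 = true ∧
    chkI C 0 38 = true ∧
    chkI C 0 60 = true ∧
    chkI C 0 130 = true ∧
    chkI C 0 263 = true ∧
    chkI C 0 279 = true ∧
    chkI C 1 4 = true ∧
    chkI C 1 34 = true ∧
    chkI C 1 37 = true ∧
    chkI C 1 56 = true ∧
    chkI C 1 90 = true ∧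
    chkI C 1 167 = true ∧
    chkI C 1 211 = true ∧
    chkI C 2 0 = true ∧
    chkI C 2 14 = true ∧
    chkI C 2 17 = true ∧
    chkI C 2 26 = true ∧
    chkI C 2 30 = true ∧
    chkI C 2 35 = true ∧
    chkI C 2 152 = true ∧
    chkI C 3 8 = true ∧
    chkI C 3 42 = true ∧
    chkI C 3 62 = true ∧
    chkI C 3 81 = true ∧
    chkI C 3 84 = true ∧
    chkI C 3 87 = true ∧
    chkI C 3 90 = true ∧
    chkI C 3 112 = true ∧
    chkI C 4 14 = true ∧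
    chkI C 5 10 = true ∧
    chkI C 6 2 = true ∧
    chkI C 6 17 = true ∧
    chkI C 7 10 = true ∧
    chkI C 7 13 = true :=
  ⟨by decide +kernel, by decide +kernel, by decide +kernel,
   by decide +kernel, by decide +kernel, by decide +kernel,
   by decide +kernel, by decide +kernel, by decide +kernel,
   by decide +kernel, by decide +kernel, by decide +kernel,
   by decide +kernel, by decide +kernel, by decide +kernel,
   by decide +kernel, by decide +kernel, by decide +kernel,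
   by decide +kernel, by decide +kernel, by decide +kernel,
   by decide +kernel, by decide +kernel, by decide +kernel,
   by decide +kernel, by decide +kernel, by decide +kernel,
   by decide +kernel, by decide +kernel, by decide +kernel,
   by decide +kernel, by decide +kernel, by decide +kernel,
   by decide +kernel⟩

theorem m0_27 : chkI C 0 27 = true := all_M14.1
theorem m0_38 : chkI C 0 38 = true := all_M14.2.1
theorem m0_60 : chkI C 0 60 = true := all_M14.2.2.1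
theorem m0_130 : chkI C 0 130 = true := all_M14.2.2.2.1
theorem m0_263 : chkI C 0 263 = true := all_M14.2.2.2.2.1
theorem m0_279 : chkI C 0 279 = true := all_M14.2.2.2.2.2.1
theorem m1_4 : chkI C 1 4 = true := all_M14.2.2.2.2.2.2.1
theorem m1_34 : chkI C 1 34 = true := all_M14.2.2.2.2.2.2.2.1
theorem m1_37 : chkI C 1 37 = true := all_M14.2.2.2.2.2.2.2.2.1
theorem m1_56 : chkI C 1 56 = true := all_M14.2.2.2.2.2.2.2.2.2.1
theorem m1_90 : chkI C 1 90 = true := all_M14.2.2.2.2.2.2.2.2.2.2.1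
theorem m1_167 : chkI C 1 167 = true := all_M14.2.2.2.2.2.2.2.2.2.2.2.1
theorem m1_211 : chkI C 1 211 = true := all_M14.2.2.2.2.2.2.2.2.2.2.2.2.1
theorem m2_0 : chkI C 2 0 = true := all_M14.2.2.2.2.2.2.2.2.2.2.2.2.2.1
theorem m2_14 : chkI C 2 14 = true := all_M14.2.2.2.2.2.2.2.2.2.2.2.2.2.2.1
theorem m2_17 : chkI C 2 17 = true := all_M14.2.2.2.2.2.2.2.2.2.2.2.2.2.2.2.1
theorem m2_26 : chkI C 2 26 = true := all_M14.2.2.2.2.2.2.2.2.2.2.2.2.2.2.2.2.1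
theorem m2_30 : chkI C 2 30 = true := all_M14.2.2.2.2.2.2.2.2.2.2.2.2.2.2.2.2.2.1
theorem m2_35 : chkI C 2 35 = true := all_M14.2.2.2.2.2.2.2.2.2.2.2.2.2.2.2.2.2.2.1
theorem m2_152 : chkI C 2 152 = true := all_M14.2.2.2.2.2.2.2.2.2.2.2.2.2.2.2.2.2.2.2.1
theorem m3_8 : chkI C 3 8 = true := all_M14.2.2.2.2.2.2.2.2.2.2.2.2.2.2.2.2.2.2.2.2.1
theorem m3_42 : chkI C 3 42 = true := all_M14.2.2.2.2.2.2.2.2.2.2.2.2.2.2.2.2.2.2.2.2.2.1
theorem m3_62 : chkI C 3 62 = true := all_M14.2.2.2.2.2.2.2.2.2.2.2.2.2.2.2.2.2.2.2.2.2.2.1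
theorem m3_81 : chkI C 3 81 = true := all_M14.2.2.2.2.2.2.2.2.2.2.2.2.2.2.2.2.2.2.2.2.2.2.2.1
theorem m3_84 : chkI C 3 84 = true := all_M14.2.2.2.2.2.2.2.2.2.2.2.2.2.2.2.2.2.2.2.2.2.2.2.2.1
theorem m3_87 : chkI C 3 87 = true := all_M14.2.2.2.2.2.2.2.2.2.2.2.2.2.2.2.2.2.2.2.2.2.2.2.2.2.1
theorem m3_90 : chkI C 3 90 = true := all_M14.2.2.2.2.2.2.2.2.2.2.2.2.2.2.2.2.2.2.2.2.2.2.2.2.2.2.1
theorem m3_112 : chkI C 3 112 = true := all_M14.2.2.2.2.2.2.2.2.2.2.2.2.2.2.2.2.2.2.2.2.2.2.2.2.2.2.2.1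
theorem m4_14 : chkI C 4 14 = true := all_M14.2.2.2.2.2.2.2.2.2.2.2.2.2.2.2.2.2.2.2.2.2.2.2.2.2.2.2.2.1
theorem m5_10 : chkI C 5 10 = true := all_M14.2.2.2.2.2.2.2.2.2.2.2.2.2.2.2.2.2.2.2.2.2.2.2.2.2.2.2.2.2.1
theorem m6_2 : chkI C 6 2 = true := all_M14.2.2.2.2.2.2.2.2.2.2.2.2.2.2.2.2.2.2.2.2.2.2.2.2.2.2.2.2.2.2.1
theorem m6_17 : chkI C 6 17 = true := all_M14.2.2.2.2.2.2.2.2.2.2.2.2.2.2.2.2.2.2.2.2.2.2.2.2.2.2.2.2.2.2.2.1
theorem m7_10 : chkI C 7 10 = true := all_M14.2.2.2.2.2.2.2.2.2.2.2.2.2.2.2.2.2.2.2.2.2.2.2.2.2.2.2.2.2.2.2.2.1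
theorem m7_13 : chkI C 7 13 = true := all_M14.2.2.2.2.2.2.2.2.2.2.2.2.2.2.2.2.2.2.2.2.2.2.2.2.2.2.2.2.2.2.2.2.2

end Pool.Agent.AKU6.VZ476
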