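import Pool.Agent.AKU6.VZ476.C

set_option autoImplicit false
set_option maxRecDepth 1000000

namespace Pool.Agent.AKU6.VZ476

open Pool.Agent.AKY Pool.Agent.AKU5

theorem all_M15 :
    chkI C 0 28 = true ∧
    chkI C 0 56 = true ∧
    chkI C 0 82 = true ∧
    chkI C 0 134 = true ∧
    chkI C 0 142 = true ∧
    chkI C 0 198 = true ∧
    chkI C 0 200 = true ∧
    chkI C 0 230 = true ∧
    chkI C 0 234 = true ∧
    chkI C 0 264 = true ∧
    chkI C 1 39 = true ∧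
    chkI C 1 49 = true ∧
    chkI C 1 81 = true ∧
    chkI C 1 100 = true ∧
    chkI C 1 133 = true ∧
    chkI C 1 165 = true ∧
    chkI C 1 215 = true ∧
    chkI C 1 225 = true ∧
    chkI C 2 49 = true ∧
    chkI C 2 50 = true ∧
    chkI C 2 87 = true ∧
    chkI C 2 150 = true ∧
    chkI C 3 27 = true ∧
    chkI C 3 80 = true ∧
    chkI C 3 85 = true ∧
    chkI C 3 123 = true ∧
    chkI C 4 11 = true ∧
    chkI C 4 37 = true ∧
    chkI C 4 82 = true ∧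
    chkI C 5 13 = true ∧
    chkI C 5 34 = true ∧
    chkI C 6 0 = true ∧
    chkI C 7 4 = true :=
  ⟨by decide +kernel, by decide +kernel, by decide +kernel,
   by decide +kernel, by decide +kernel, by decide +kernel,
   by decide +kernel, by decide +kernel, by decide +kernel,
   by decide +kernel, by decide +kernel, by decide +kernel,
   by decide +kernel, by decide +kernel, by decide +kernel,
   by decide +kernel, by decide +kernel, by decide +kernel,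
   by decide +kernel, by decide +kernel, by decide +kernel,
   by decide +kernel, by decide +kernel, by decide +kernel,
   by decide +kernel, by decide +kernel, by decide +kernel,
   by decide +kernel, by decide +kernel, by decide +kernel,
   by decide +kernel, by decide +kernel, by decide +kernel⟩

theorem m0_28 : chkI C 0 28 = true := all_M15.1
theorem m0_56 : chkI C 0 56 = true := all_M15.2.1
theorem m0_82 : chkI C 0 82 = true := all_M15.2.2.1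
theorem m0_134 : chkI C 0 134 = true := all_M15.2.2.2.1
theorem m0_142 : chkI C 0 142 = true := all_M15.2.2.2.2.1
theorem m0_198 : chkI C 0 198 = true := all_M15.2.2.2.2.2.1
theorem m0_200 : chkI C 0 200 = true := all_M15.2.2.2.2.2.2.1
theorem m0_230 : chkI C 0 230 = true := all_M15.2.2.2.2.2.2.2.1
theorem m0_234 : chkI C 0 234 = true := all_M15.2.2.2.2.2.2.2.2.1
theorem m0_264 : chkI C 0 264 = true := all_M15.2.2.2.2.2.2.2.2.2.1
theorem m1_39 : chkI C 1 39 = true := all_M15.2.2.2.2.2.2.2.2.2.2.1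
theorem m1_49 : chkI C 1 49 = true := all_M15.2.2.2.2.2.2.2.2.2.2.2.1
theorem m1_81 : chkI C 1 81 = true := all_M15.2.2.2.2.2.2.2.2.2.2.2.2.1
theorem m1_100 : chkI C 1 100 = true := all_M15.2.2.2.2.2.2.2.2.2.2.2.2.2.1
theorem m1_133 : chkI C 1 133 = true := all_M15.2.2.2.2.2.2.2.2.2.2.2.2.2.2.1
theorem m1_165 : chkI C 1 165 = true := all_M15.2.2.2.2.2.2.2.2.2.2.2.2.2.2.2.1
theorem m1_215 : chkI C 1 215 = true := all_M15.2.2.2.2.2.2.2.2.2.2.2.2.2.2.2.2.1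
theorem m1_225 : chkI C 1 225 = true := all_M15.2.2.2.2.2.2.2.2.2.2.2.2.2.2.2.2.2.1
theorem m2_49 : chkI C 2 49 = true := all_M15.2.2.2.2.2.2.2.2.2.2.2.2.2.2.2.2.2.2.1
theorem m2_50 : chkI C 2 50 = true := all_M15.2.2.2.2.2.2.2.2.2.2.2.2.2.2.2.2.2.2.2.1
theorem m2_87 : chkI C 2 87 = true := all_M15.2.2.2.2.2.2.2.2.2.2.2.2.2.2.2.2.2.2.2.2.1
theorem m2_150 : chkI C 2 150 = true := all_M15.2.2.2.2.2.2.2.2.2.2.2.2.2.2.2.2.2.2.2.2.2.1
theorem m3_27 : chkI C 3 27 = true := all_M15.2.2.2.2.2.2.2.2.2.2.2.2.2.2.2.2.2.2.2.2.2.2.1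
theorem m3_80 : chkI C 3 80 = true := all_M15.2.2.2.2.2.2.2.2.2.2.2.2.2.2.2.2.2.2.2.2.2.2.2.1
theorem m3_85 : chkI C 3 85 = true := all_M15.2.2.2.2.2.2.2.2.2.2.2.2.2.2.2.2.2.2.2.2.2.2.2.2.1
theorem m3_123 : chkI C 3 123 = true := all_M15.2.2.2.2.2.2.2.2.2.2.2.2.2.2.2.2.2.2.2.2.2.2.2.2.2.1
theorem m4_11 : chkI C 4 11 = true := all_M15.2.2.2.2.2.2.2.2.2.2.2.2.2.2.2.2.2.2.2.2.2.2.2.2.2.2.1
theorem m4_37 : chkI C 4 37 = true := all_M15.2.2.2.2.2.2.2.2.2.2.2.2.2.2.2.2.2.2.2.2.2.2.2.2.2.2.2.1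
theorem m4_82 : chkI C 4 82 = true := all_M15.2.2.2.2.2.2.2.2.2.2.2.2.2.2.2.2.2.2.2.2.2.2.2.2.2.2.2.2.1
theorem m5_13 : chkI C 5 13 = true := all_M15.2.2.2.2.2.2.2.2.2.2.2.2.2.2.2.2.2.2.2.2.2.2.2.2.2.2.2.2.2.1
theorem m5_34 : chkI C 5 34 = true := all_M15.2.2.2.2.2.2.2.2.2.2.2.2.2.2.2.2.2.2.2.2.2.2.2.2.2.2.2.2.2.2.1
theorem m6_0 : chkI C 6 0 = true := all_M15.2.2.2.2.2.2.2.2.2.2.2.2.2.2.2.2.2.2.2.2.2.2.2.2.2.2.2.2.2.2.2.1
theorem m7_4 : chkI C 7 4 = true := all_M15.2.2.2.2.2.2.2.2.2.2.2.2.2.2.2.2.2.2.2.2.2.2.2.2.2.2.2.2.2.2.2.2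

end Pool.Agent.AKU6.VZ476
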