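import Pool.Agent.AKU6.VZ476.C

set_option autoImplicit false
set_option maxRecDepth 1000000

namespace Pool.Agent.AKU6.VZ476

open Pool.Agent.AKY Pool.Agent.AKU5

theorem all_M16 :
    chkI C 0 12 = true ∧
    chkI C 0 22 = true ∧
    chkI C 0 63 = true ∧
    chkI C 0 114 = true ∧
    chkI C 0 171 = true ∧
    chkI C 0 192 = true ∧
    chkI C 0 202 = true ∧
    chkI C 0 207 = true ∧
    chkI C 0 219 = true ∧
    chkI C 0 278 = true ∧
    chkI C 0 312 = true ∧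
    chkI C 1 22 = true ∧
    chkI C 1 78 = true ∧
    chkI C 1 162 = true ∧
    chkI C 1 168 = true ∧
    chkI C 2 15 = true ∧
    chkI C 2 25 = true ∧
    chkI C 2 44 = true ∧
    chkI C 2 53 = true ∧
    chkI C 2 82 = true ∧
    chkI C 2 130 = true ∧
    chkI C 3 33 = true ∧
    chkI C 3 47 = true ∧
    chkI C 3 68 = true ∧
    chkI C 3 79 = true ∧
    chkI C 3 110 = true ∧
    chkI C 4 54 = true ∧
    chkI C 4 70 = true ∧
    chkI C 5 21 = true ∧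
    chkI C 5 42 = true ∧
    chkI C 7 14 = true ∧
    chkI C 7 15 = true ∧
    chkI C 10 1 = true ∧
    chkI C 10 9 = true :=
  ⟨by decide +kernel, by decide +kernel, by decide +kernel,
   by decide +kernel, by decide +kernel, by decide +kernel,
   by decide +kernel, by decide +kernel, by decide +kernel,
   by decide +kernel, by decide +kernel, by decide +kernel,
   by decide +kernel, by decide +kernel, by decide +kernel,
   by decide +kernel, by decide +kernel, by decide +kernel,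
   by decide +kernel, by decide +kernel, by decide +kernel,
   by decide +kernel, by decide +kernel, by decide +kernel,
   by decide +kernel, by decide +kernel, by decide +kernel,
   by decide +kernel, by decide +kernel, by decide +kernel,
   by decide +kernel, by decide +kernel, by decide +kernel,
   by decide +kernel⟩

theorem m0_12 : chkI C 0 12 = true := all_M16.1
theorem m0_22 : chkI C 0 22 = true := all_M16.2.1
theorem m0_63 : chkI C 0 63 = true := all_M16.2.2.1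
theorem m0_114 : chkI C 0 114 = true := all_M16.2.2.2.1
theorem m0_171 : chkI C 0 171 = true := all_M16.2.2.2.2.1
theorem m0_192 : chkI C 0 192 = true := all_M16.2.2.2.2.2.1
theorem m0_202 : chkI C 0 202 = true := all_M16.2.2.2.2.2.2.1
theorem m0_207 : chkI C 0 207 = true := all_M16.2.2.2.2.2.2.2.1
theorem m0_219 : chkI C 0 219 = true := all_M16.2.2.2.2.2.2.2.2.1
theorem m0_278 : chkI C 0 278 = true := all_M16.2.2.2.2.2.2.2.2.2.1
theorem m0_312 : chkI C 0 312 = true := all_M16.2.2.2.2.2.2.2.2.2.2.1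
theorem m1_22 : chkI C 1 22 = true := all_M16.2.2.2.2.2.2.2.2.2.2.2.1
theorem m1_78 : chkI C 1 78 = true := all_M16.2.2.2.2.2.2.2.2.2.2.2.2.1
theorem m1_162 : chkI C 1 162 = true := all_M16.2.2.2.2.2.2.2.2.2.2.2.2.2.1
theorem m1_168 : chkI C 1 168 = true := all_M16.2.2.2.2.2.2.2.2.2.2.2.2.2.2.1
theorem m2_15 : chkI C 2 15 = true := all_M16.2.2.2.2.2.2.2.2.2.2.2.2.2.2.2.1
theorem m2_25 : chkI C 2 25 = true := all_M16.2.2.2.2.2.2.2.2.2.2.2.2.2.2.2.2.1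
theorem m2_44 : chkI C 2 44 = true := all_M16.2.2.2.2.2.2.2.2.2.2.2.2.2.2.2.2.2.1
theorem m2_53 : chkI C 2 53 = true := all_M16.2.2.2.2.2.2.2.2.2.2.2.2.2.2.2.2.2.2.1
theorem m2_82 : chkI C 2 82 = true := all_M16.2.2.2.2.2.2.2.2.2.2.2.2.2.2.2.2.2.2.2.1
theorem m2_130 : chkI C 2 130 = true := all_M16.2.2.2.2.2.2.2.2.2.2.2.2.2.2.2.2.2.2.2.2.1
theorem m3_33 : chkI C 3 33 = true := all_M16.2.2.2.2.2.2.2.2.2.2.2.2.2.2.2.2.2.2.2.2.2.1
theorem m3_47 : chkI C 3 47 = true := all_M16.2.2.2.2.2.2.2.2.2.2.2.2.2.2.2.2.2.2.2.2.2.2.1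
theorem m3_68 : chkI C 3 68 = true := all_M16.2.2.2.2.2.2.2.2.2.2.2.2.2.2.2.2.2.2.2.2.2.2.2.1
theorem m3_79 : chkI C 3 79 = true := all_M16.2.2.2.2.2.2.2.2.2.2.2.2.2.2.2.2.2.2.2.2.2.2.2.2.1
theorem m3_110 : chkI C 3 110 = true := all_M16.2.2.2.2.2.2.2.2.2.2.2.2.2.2.2.2.2.2.2.2.2.2.2.2.2.1
theorem m4_54 : chkI C 4 54 = true := all_M16.2.2.2.2.2.2.2.2.2.2.2.2.2.2.2.2.2.2.2.2.2.2.2.2.2.2.1
theorem m4_70 : chkI C 4 70 = true := all_M16.2.2.2.2.2.2.2.2.2.2.2.2.2.2.2.2.2.2.2.2.2.2.2.2.2.2.2.1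
theorem m5_21 : chkI C 5 21 = true := all_M16.2.2.2.2.2.2.2.2.2.2.2.2.2.2.2.2.2.2.2.2.2.2.2.2.2.2.2.2.1
theorem m5_42 : chkI C 5 42 = true := all_M16.2.2.2.2.2.2.2.2.2.2.2.2.2.2.2.2.2.2.2.2.2.2.2.2.2.2.2.2.2.1
theorem m7_14 : chkI C 7 14 = true := all_M16.2.2.2.2.2.2.2.2.2.2.2.2.2.2.2.2.2.2.2.2.2.2.2.2.2.2.2.2.2.2.1
theorem m7_15 : chkI C 7 15 = true := all_M16.2.2.2.2.2.2.2.2.2.2.2.2.2.2.2.2.2.2.2.2.2.2.2.2.2.2.2.2.2.2.2.1
theorem m10_1 : chkI C 10 1 = true := all_M16.2.2.2.2.2.2.2.2.2.2.2.2.2.2.2.2.2.2.2.2.2.2.2.2.2.2.2.2.2.2.2.2.1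
theorem m10_9 : chkI C 10 9 = true := all_M16.2.2.2.2.2.2.2.2.2.2.2.2.2.2.2.2.2.2.2.2.2.2.2.2.2.2.2.2.2.2.2.2.2

end Pool.Agent.AKU6.VZ476
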