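import Pool.Agent.AKU6.VZ476.C

set_option autoImplicit false
set_option maxRecDepth 1000000

namespace Pool.Agent.AKU6.VZ476

open Pool.Agent.AKY Pool.Agent.AKU5

theorem all_M18 :
    chkI C 0 11 = true ∧
    chkI C 0 50 = true ∧
    chkI C 0 78 = true ∧
    chkI C 0 90 = true ∧
    chkI C 0 95 = true ∧
    chkI C 0 139 = true ∧
    chkI C 0 191 = true ∧
    chkI C 0 204 = true ∧
    chkI C 0 293 = true ∧
    chkI C 0 302 = true ∧
    chkI C 1 46 = true ∧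
    chkI C 1 52 = true ∧
    chkI C 1 70 = true ∧
    chkI C 1 85 = true ∧
    chkI C 1 119 = true ∧
    chkI C 1 126 = true ∧
    chkI C 1 190 = true ∧
    chkI C 1 232 = true ∧
    chkI C 2 31 = true ∧
    chkI C 2 38 = true ∧
    chkI C 2 84 = true ∧
    chkI C 3 19 = true ∧
    chkI C 3 24 = true ∧
    chkI C 4 5 = true ∧
    chkI C 4 30 = true ∧
    chkI C 4 53 = true ∧
    chkI C 4 80 = true ∧
    chkI C 5 12 = true ∧
    chkI C 5 22 = true ∧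
    chkI C 5 23 = true ∧
    chkI C 6 4 = true ∧
    chkI C 6 13 = true ∧
    chkI C 6 16 = true :=
  ⟨by decide +kernel, by decide +kernel, by decide +kernel,
   by decide +kernel, by decide +kernel, by decide +kernel,
   by decide +kernel, by decide +kernel, by decide +kernel,
   by decide +kernel, by decide +kernel, by decide +kernel,
   by decide +kernel, by decide +kernel, by decide +kernel,
   by decide +kernel, by decide +kernel, by decide +kernel,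
   by decide +kernel, by decide +kernel, by decide +kernel,
   by decide +kernel, by decide +kernel, by decide +kernel,
   by decide +kernel, by decide +kernel, by decide +kernel,
   by decide +kernel, by decide +kernel, by decide +kernel,
   by decide +kernel, by decide +kernel, by decide +kernel⟩

theorem m0_11 : chkI C 0 11 = true := all_M18.1
theorem m0_50 : chkI C 0 50 = true := all_M18.2.1
theorem m0_78 : chkI C 0 78 = true := all_M18.2.2.1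
theorem m0_90 : chkI C 0 90 = true := all_M18.2.2.2.1
theorem m0_95 : chkI C 0 95 = true := all_M18.2.2.2.2.1
theorem m0_139 : chkI C 0 139 = true := all_M18.2.2.2.2.2.1
theorem m0_191 : chkI C 0 191 = true := all_M18.2.2.2.2.2.2.1
theorem m0_204 : chkI C 0 204 = true := all_M18.2.2.2.2.2.2.2.1
theorem m0_293 : chkI C 0 293 = true := all_M18.2.2.2.2.2.2.2.2.1
theorem m0_302 : chkI C 0 302 = true := all_M18.2.2.2.2.2.2.2.2.2.1
theorem m1_46 : chkI C 1 46 = true := all_M18.2.2.2.2.2.2.2.2.2.2.1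
theorem m1_52 : chkI C 1 52 = true := all_M18.2.2.2.2.2.2.2.2.2.2.2.1
theorem m1_70 : chkI C 1 70 = true := all_M18.2.2.2.2.2.2.2.2.2.2.2.2.1
theorem m1_85 : chkI C 1 85 = true := all_M18.2.2.2.2.2.2.2.2.2.2.2.2.2.1
theorem m1_119 : chkI C 1 119 = true := all_M18.2.2.2.2.2.2.2.2.2.2.2.2.2.2.1
theorem m1_126 : chkI C 1 126 = true := all_M18.2.2.2.2.2.2.2.2.2.2.2.2.2.2.2.1
theorem m1_190 : chkI C 1 190 = true := all_M18.2.2.2.2.2.2.2.2.2.2.2.2.2.2.2.2.1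
theorem m1_232 : chkI C 1 232 = true := all_M18.2.2.2.2.2.2.2.2.2.2.2.2.2.2.2.2.2.1
theorem m2_31 : chkI C 2 31 = true := all_M18.2.2.2.2.2.2.2.2.2.2.2.2.2.2.2.2.2.2.1
theorem m2_38 : chkI C 2 38 = true := all_M18.2.2.2.2.2.2.2.2.2.2.2.2.2.2.2.2.2.2.2.1
theorem m2_84 : chkI C 2 84 = true := all_M18.2.2.2.2.2.2.2.2.2.2.2.2.2.2.2.2.2.2.2.2.1
theorem m3_19 : chkI C 3 19 = true := all_M18.2.2.2.2.2.2.2.2.2.2.2.2.2.2.2.2.2.2.2.2.2.1
theorem m3_24 : chkI C 3 24 = true := all_M18.2.2.2.2.2.2.2.2.2.2.2.2.2.2.2.2.2.2.2.2.2.2.1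
theorem m4_5 : chkI C 4 5 = true := all_M18.2.2.2.2.2.2.2.2.2.2.2.2.2.2.2.2.2.2.2.2.2.2.2.1
theorem m4_30 : chkI C 4 30 = true := all_M18.2.2.2.2.2.2.2.2.2.2.2.2.2.2.2.2.2.2.2.2.2.2.2.2.1
theorem m4_53 : chkI C 4 53 = true := all_M18.2.2.2.2.2.2.2.2.2.2.2.2.2.2.2.2.2.2.2.2.2.2.2.2.2.1
theorem m4_80 : chkI C 4 80 = true := all_M18.2.2.2.2.2.2.2.2.2.2.2.2.2.2.2.2.2.2.2.2.2.2.2.2.2.2.1
theorem m5_12 : chkI C 5 12 = true := all_M18.2.2.2.2.2.2.2.2.2.2.2.2.2.2.2.2.2.2.2.2.2.2.2.2.2.2.2.1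
theorem m5_22 : chkI C 5 22 = true := all_M18.2.2.2.2.2.2.2.2.2.2.2.2.2.2.2.2.2.2.2.2.2.2.2.2.2.2.2.2.1
theorem m5_23 : chkI C 5 23 = true := all_M18.2.2.2.2.2.2.2.2.2.2.2.2.2.2.2.2.2.2.2.2.2.2.2.2.2.2.2.2.2.1
theorem m6_4 : chkI C 6 4 = true := all_M18.2.2.2.2.2.2.2.2.2.2.2.2.2.2.2.2.2.2.2.2.2.2.2.2.2.2.2.2.2.2.1
theorem m6_13 : chkI C 6 13 = true := all_M18.2.2.2.2.2.2.2.2.2.2.2.2.2.2.2.2.2.2.2.2.2.2.2.2.2.2.2.2.2.2.2.1
theorem m6_16 : chkI C 6 16 = true := all_M18.2.2.2.2.2.2.2.2.2.2.2.2.2.2.2.2.2.2.2.2.2.2.2.2.2.2.2.2.2.2.2.2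

end Pool.Agent.AKU6.VZ476
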