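import Pool.Agent.AKU6.VZ476.C

set_option autoImplicit false
set_option maxRecDepth 1000000

namespace Pool.Agent.AKU6.VZ476

open Pool.Agent.AKY Pool.Agent.AKU5

theorem all_M19 :
    chkI C 0 19 = true ∧
    chkI C 0 20 = true ∧
    chkI C 0 70 = true ∧
    chkI C 0 147 = true ∧
    chkI C 0 168 = true ∧
    chkI C 0 189 = true ∧
    chkI C 0 221 = true ∧
    chkI C 0 301 = true ∧
    chkI C 1 10 = true ∧
    chkI C 1 27 = true ∧
    chkI C 1 30 = true ∧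
    chkI C 1 44 = true ∧
    chkI C 1 103 = true ∧
    chkI C 1 174 = true ∧
    chkI C 1 192 = true ∧
    chkI C 1 218 = true ∧
    chkI C 2 11 = true ∧
    chkI C 2 20 = true ∧
    chkI C 2 61 = true ∧
    chkI C 2 69 = true ∧
    chkI C 2 73 = true ∧
    chkI C 2 108 = true ∧
    chkI C 2 114 = true ∧
    chkI C 2 147 = true ∧
    chkI C 3 3 = true ∧
    chkI C 3 89 = true ∧
    chkI C 3 98 = true ∧
    chkI C 3 128 = true ∧
    chkI C 4 9 = true ∧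
    chkI C 4 66 = true ∧
    chkI C 4 81 = true ∧
    chkI C 5 35 = true ∧
    chkI C 8 7 = true :=
  ⟨by decide +kernel, by decide +kernel, by decide +kernel,
   by decide +kernel, by decide +kernel, by decide +kernel,
   by decide +kernel, by decide +kernel, by decide +kernel,
   by decide +kernel, by decide +kernel, by decide +kernel,
   by decide +kernel, by decide +kernel, by decide +kernel,
   by decide +kernel, by decide +kernel, by decide +kernel,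
   by decide +kernel, by decide +kernel, by decide +kernel,
   by decide +kernel, by decide +kernel, by decide +kernel,
   by decide +kernel, by decide +kernel, by decide +kernel,
   by decide +kernel, by decide +kernel, by decide +kernel,
   by decide +kernel, by decide +kernel, by decide +kernel⟩

theorem m0_19 : chkI C 0 19 = true := all_M19.1
theorem m0_20 : chkI C 0 20 = true := all_M19.2.1
theorem m0_70 : chkI C 0 70 = true := all_M19.2.2.1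
theorem m0_147 : chkI C 0 147 = true := all_M19.2.2.2.1
theorem m0_168 : chkI C 0 168 = true := all_M19.2.2.2.2.1
theorem m0_189 : chkI C 0 189 = true := all_M19.2.2.2.2.2.1
theorem m0_221 : chkI C 0 221 = true := all_M19.2.2.2.2.2.2.1
theorem m0_301 : chkI C 0 301 = true := all_M19.2.2.2.2.2.2.2.1
theorem m1_10 : chkI C 1 10 = true := all_M19.2.2.2.2.2.2.2.2.1
theorem m1_27 : chkI C 1 27 = true := all_M19.2.2.2.2.2.2.2.2.2.1
theorem m1_30 : chkI C 1 30 = true := all_M19.2.2.2.2.2.2.2.2.2.2.1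
theorem m1_44 : chkI C 1 44 = true := all_M19.2.2.2.2.2.2.2.2.2.2.2.1
theorem m1_103 : chkI C 1 103 = true := all_M19.2.2.2.2.2.2.2.2.2.2.2.2.1
theorem m1_174 : chkI C 1 174 = true := all_M19.2.2.2.2.2.2.2.2.2.2.2.2.2.1
theorem m1_192 : chkI C 1 192 = true := all_M19.2.2.2.2.2.2.2.2.2.2.2.2.2.2.1
theorem m1_218 : chkI C 1 218 = true := all_M19.2.2.2.2.2.2.2.2.2.2.2.2.2.2.2.1
theorem m2_11 : chkI C 2 11 = true := all_M19.2.2.2.2.2.2.2.2.2.2.2.2.2.2.2.2.1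
theorem m2_20 : chkI C 2 20 = true := all_M19.2.2.2.2.2.2.2.2.2.2.2.2.2.2.2.2.2.1
theorem m2_61 : chkI C 2 61 = true := all_M19.2.2.2.2.2.2.2.2.2.2.2.2.2.2.2.2.2.2.1
theorem m2_69 : chkI C 2 69 = true := all_M19.2.2.2.2.2.2.2.2.2.2.2.2.2.2.2.2.2.2.2.1
theorem m2_73 : chkI C 2 73 = true := all_M19.2.2.2.2.2.2.2.2.2.2.2.2.2.2.2.2.2.2.2.2.1
theorem m2_108 : chkI C 2 108 = true := all_M19.2.2.2.2.2.2.2.2.2.2.2.2.2.2.2.2.2.2.2.2.2.1
theorem m2_114 : chkI C 2 114 = true := all_M19.2.2.2.2.2.2.2.2.2.2.2.2.2.2.2.2.2.2.2.2.2.2.1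
theorem m2_147 : chkI C 2 147 = true := all_M19.2.2.2.2.2.2.2.2.2.2.2.2.2.2.2.2.2.2.2.2.2.2.2.1
theorem m3_3 : chkI C 3 3 = true := all_M19.2.2.2.2.2.2.2.2.2.2.2.2.2.2.2.2.2.2.2.2.2.2.2.2.1
theorem m3_89 : chkI C 3 89 = true := all_M19.2.2.2.2.2.2.2.2.2.2.2.2.2.2.2.2.2.2.2.2.2.2.2.2.2.1
theorem m3_98 : chkI C 3 98 = true := all_M19.2.2.2.2.2.2.2.2.2.2.2.2.2.2.2.2.2.2.2.2.2.2.2.2.2.2.1
theorem m3_128 : chkI C 3 128 = true := all_M19.2.2.2.2.2.2.2.2.2.2.2.2.2.2.2.2.2.2.2.2.2.2.2.2.2.2.2.1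
theorem m4_9 : chkI C 4 9 = true := all_M19.2.2.2.2.2.2.2.2.2.2.2.2.2.2.2.2.2.2.2.2.2.2.2.2.2.2.2.2.1
theorem m4_66 : chkI C 4 66 = true := all_M19.2.2.2.2.2.2.2.2.2.2.2.2.2.2.2.2.2.2.2.2.2.2.2.2.2.2.2.2.2.1
theorem m4_81 : chkI C 4 81 = true := all_M19.2.2.2.2.2.2.2.2.2.2.2.2.2.2.2.2.2.2.2.2.2.2.2.2.2.2.2.2.2.2.1
theorem m5_35 : chkI C 5 35 = true := all_M19.2.2.2.2.2.2.2.2.2.2.2.2.2.2.2.2.2.2.2.2.2.2.2.2.2.2.2.2.2.2.2.1
theorem m8_7 : chkI C 8 7 = true := all_M19.2.2.2.2.2.2.2.2.2.2.2.2.2.2.2.2.2.2.2.2.2.2.2.2.2.2.2.2.2.2.2.2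

end Pool.Agent.AKU6.VZ476
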