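import Pool.Agent.AKU6.VZ476.C

set_option autoImplicit false
set_option maxRecDepth 1000000

namespace Pool.Agent.AKU6.VZ476

open Pool.Agent.AKY Pool.Agent.AKU5

theorem all_M20 :
    chkI C 0 35 = true ∧
    chkI C 0 73 = true ∧
    chkI C 0 84 = true ∧
    chkI C 0 91 = true ∧
    chkI C 0 141 = true ∧
    chkI C 0 165 = true ∧
    chkI C 0 188 = true ∧
    chkI C 0 209 = true ∧
    chkI C 0 236 = true ∧
    chkI C 0 266 = true ∧
    chkI C 0 271 = true ∧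
    chkI C 1 8 = true ∧
    chkI C 1 64 = true ∧
    chkI C 1 111 = true ∧
    chkI C 1 138 = true ∧
    chkI C 1 153 = true ∧
    chkI C 1 188 = true ∧
    chkI C 1 191 = true ∧
    chkI C 1 235 = true ∧
    chkI C 2 89 = true ∧
    chkI C 2 113 = true ∧
    chkI C 2 131 = true ∧
    chkI C 2 151 = true ∧
    chkI C 3 14 = true ∧
    chkI C 3 28 = true ∧
    chkI C 3 93 = true ∧
    chkI C 4 16 = true ∧
    chkI C 4 34 = true ∧
    chkI C 4 42 = true ∧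
    chkI C 4 55 = true ∧
    chkI C 4 74 = true ∧
    chkI C 6 22 = true ∧
    chkI C 7 7 = true ∧
    chkI C 10 0 = true :=
  ⟨by decide +kernel, by decide +kernel, by decide +kernel,
   by decide +kernel, by decide +kernel, by decide +kernel,
   by decide +kernel, by decide +kernel, by decide +kernel,
   by decide +kernel, by decide +kernel, by decide +kernel,
   by decide +kernel, by decide +kernel, by decide +kernel,
   by decide +kernel, by decide +kernel, by decide +kernel,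
   by decide +kernel, by decide +kernel, by decide +kernel,
   by decide +kernel, by decide +kernel, by decide +kernel,
   by decide +kernel, by decide +kernel, by decide +kernel,
   by decide +kernel, by decide +kernel, by decide +kernel,
   by decide +kernel, by decide +kernel, by decide +kernel,
   by decide +kernel⟩

theorem m0_35 : chkI C 0 35 = true := all_M20.1
theorem m0_73 : chkI C 0 73 = true := all_M20.2.1
theorem m0_84 : chkI C 0 84 = true := all_M20.2.2.1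
theorem m0_91 : chkI C 0 91 = true := all_M20.2.2.2.1
theorem m0_141 : chkI C 0 141 = true := all_M20.2.2.2.2.1
theorem m0_165 : chkI C 0 165 = true := all_M20.2.2.2.2.2.1
theorem m0_188 : chkI C 0 188 = true := all_M20.2.2.2.2.2.2.1
theorem m0_209 : chkI C 0 209 = true := all_M20.2.2.2.2.2.2.2.1
theorem m0_236 : chkI C 0 236 = true := all_M20.2.2.2.2.2.2.2.2.1
theorem m0_266 : chkI C 0 266 = true := all_M20.2.2.2.2.2.2.2.2.2.1
theorem m0_271 : chkI C 0 271 = true := all_M20.2.2.2.2.2.2.2.2.2.2.1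
theorem m1_8 : chkI C 1 8 = true := all_M20.2.2.2.2.2.2.2.2.2.2.2.1
theorem m1_64 : chkI C 1 64 = true := all_M20.2.2.2.2.2.2.2.2.2.2.2.2.1
theorem m1_111 : chkI C 1 111 = true := all_M20.2.2.2.2.2.2.2.2.2.2.2.2.2.1
theorem m1_138 : chkI C 1 138 = true := all_M20.2.2.2.2.2.2.2.2.2.2.2.2.2.2.1
theorem m1_153 : chkI C 1 153 = true := all_M20.2.2.2.2.2.2.2.2.2.2.2.2.2.2.2.1
theorem m1_188 : chkI C 1 188 = true := all_M20.2.2.2.2.2.2.2.2.2.2.2.2.2.2.2.2.1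
theorem m1_191 : chkI C 1 191 = true := all_M20.2.2.2.2.2.2.2.2.2.2.2.2.2.2.2.2.2.1
theorem m1_235 : chkI C 1 235 = true := all_M20.2.2.2.2.2.2.2.2.2.2.2.2.2.2.2.2.2.2.1
theorem m2_89 : chkI C 2 89 = true := all_M20.2.2.2.2.2.2.2.2.2.2.2.2.2.2.2.2.2.2.2.1
theorem m2_113 : chkI C 2 113 = true := all_M20.2.2.2.2.2.2.2.2.2.2.2.2.2.2.2.2.2.2.2.2.1
theorem m2_131 : chkI C 2 131 = true := all_M20.2.2.2.2.2.2.2.2.2.2.2.2.2.2.2.2.2.2.2.2.2.1
theorem m2_151 : chkI C 2 151 = true := all_M20.2.2.2.2.2.2.2.2.2.2.2.2.2.2.2.2.2.2.2.2.2.2.1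
theorem m3_14 : chkI C 3 14 = true := all_M20.2.2.2.2.2.2.2.2.2.2.2.2.2.2.2.2.2.2.2.2.2.2.2.1
theorem m3_28 : chkI C 3 28 = true := all_M20.2.2.2.2.2.2.2.2.2.2.2.2.2.2.2.2.2.2.2.2.2.2.2.2.1
theorem m3_93 : chkI C 3 93 = true := all_M20.2.2.2.2.2.2.2.2.2.2.2.2.2.2.2.2.2.2.2.2.2.2.2.2.2.1
theorem m4_16 : chkI C 4 16 = true := all_M20.2.2.2.2.2.2.2.2.2.2.2.2.2.2.2.2.2.2.2.2.2.2.2.2.2.2.1
theorem m4_34 : chkI C 4 34 = true := all_M20.2.2.2.2.2.2.2.2.2.2.2.2.2.2.2.2.2.2.2.2.2.2.2.2.2.2.2.1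
theorem m4_42 : chkI C 4 42 = true := all_M20.2.2.2.2.2.2.2.2.2.2.2.2.2.2.2.2.2.2.2.2.2.2.2.2.2.2.2.2.1
theorem m4_55 : chkI C 4 55 = true := all_M20.2.2.2.2.2.2.2.2.2.2.2.2.2.2.2.2.2.2.2.2.2.2.2.2.2.2.2.2.2.1
theorem m4_74 : chkI C 4 74 = true := all_M20.2.2.2.2.2.2.2.2.2.2.2.2.2.2.2.2.2.2.2.2.2.2.2.2.2.2.2.2.2.2.1
theorem m6_22 : chkI C 6 22 = true := all_M20.2.2.2.2.2.2.2.2.2.2.2.2.2.2.2.2.2.2.2.2.2.2.2.2.2.2.2.2.2.2.2.1
theorem m7_7 : chkI C 7 7 = true := all_M20.2.2.2.2.2.2.2.2.2.2.2.2.2.2.2.2.2.2.2.2.2.2.2.2.2.2.2.2.2.2.2.2.1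
theorem m10_0 : chkI C 10 0 = true := all_M20.2.2.2.2.2.2.2.2.2.2.2.2.2.2.2.2.2.2.2.2.2.2.2.2.2.2.2.2.2.2.2.2.2

end Pool.Agent.AKU6.VZ476
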