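import Pool.Agent.AKU6.VZ476.C

set_option autoImplicit false
set_option maxRecDepth 1000000

namespace Pool.Agent.AKU6.VZ476

open Pool.Agent.AKY Pool.Agent.AKU5

theorem all_M21 :
    chkI C 0 66 = true ∧
    chkI C 0 75 = true ∧
    chkI C 0 77 = true ∧
    chkI C 0 107 = true ∧
    chkI C 0 109 = true ∧
    chkI C 0 133 = true ∧
    chkI C 0 135 = true ∧
    chkI C 0 150 = true ∧
    chkI C 0 238 = true ∧
    chkI C 0 270 = true ∧
    chkI C 0 288 = true ∧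
    chkI C 0 306 = true ∧
    chkI C 1 45 = true ∧
    chkI C 1 102 = true ∧
    chkI C 1 104 = true ∧
    chkI C 1 110 = true ∧
    chkI C 1 145 = true ∧
    chkI C 1 163 = true ∧
    chkI C 1 240 = true ∧
    chkI C 2 65 = true ∧
    chkI C 2 116 = true ∧
    chkI C 2 143 = true ∧
    chkI C 3 9 = true ∧
    chkI C 3 10 = true ∧
    chkI C 3 63 = true ∧
    chkI C 3 83 = true ∧
    chkI C 4 12 = true ∧
    chkI C 4 60 = true ∧
    chkI C 5 16 = true ∧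
    chkI C 5 37 = true ∧
    chkI C 6 1 = true ∧
    chkI C 6 21 = true ∧
    chkI C 7 9 = true :=
  ⟨by decide +kernel, by decide +kernel, by decide +kernel,
   by decide +kernel, by decide +kernel, by decide +kernel,
   by decide +kernel, by decide +kernel, by decide +kernel,
   by decide +kernel, by decide +kernel, by decide +kernel,
   by decide +kernel, by decide +kernel, by decide +kernel,
   by decide +kernel, by decide +kernel, by decide +kernel,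
   by decide +kernel, by decide +kernel, by decide +kernel,
   by decide +kernel, by decide +kernel, by decide +kernel,
   by decide +kernel, by decide +kernel, by decide +kernel,
   by decide +kernel, by decide +kernel, by decide +kernel,
   by decide +kernel, by decide +kernel, by decide +kernel⟩

theorem m0_66 : chkI C 0 66 = true := all_M21.1
theorem m0_75 : chkI C 0 75 = true := all_M21.2.1
theorem m0_77 : chkI C 0 77 = true := all_M21.2.2.1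
theorem m0_107 : chkI C 0 107 = true := all_M21.2.2.2.1
theorem m0_109 : chkI C 0 109 = true := all_M21.2.2.2.2.1
theorem m0_133 : chkI C 0 133 = true := all_M21.2.2.2.2.2.1
theorem m0_135 : chkI C 0 135 = true := all_M21.2.2.2.2.2.2.1
theorem m0_150 : chkI C 0 150 = true := all_M21.2.2.2.2.2.2.2.1
theorem m0_238 : chkI C 0 238 = true := all_M21.2.2.2.2.2.2.2.2.1
theorem m0_270 : chkI C 0 270 = true := all_M21.2.2.2.2.2.2.2.2.2.1
theorem m0_288 : chkI C 0 288 = true := all_M21.2.2.2.2.2.2.2.2.2.2.1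
theorem m0_306 : chkI C 0 306 = true := all_M21.2.2.2.2.2.2.2.2.2.2.2.1
theorem m1_45 : chkI C 1 45 = true := all_M21.2.2.2.2.2.2.2.2.2.2.2.2.1
theorem m1_102 : chkI C 1 102 = true := all_M21.2.2.2.2.2.2.2.2.2.2.2.2.2.1
theorem m1_104 : chkI C 1 104 = true := all_M21.2.2.2.2.2.2.2.2.2.2.2.2.2.2.1
theorem m1_110 : chkI C 1 110 = true := all_M21.2.2.2.2.2.2.2.2.2.2.2.2.2.2.2.1
theorem m1_145 : chkI C 1 145 = true := all_M21.2.2.2.2.2.2.2.2.2.2.2.2.2.2.2.2.1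
theorem m1_163 : chkI C 1 163 = true := all_M21.2.2.2.2.2.2.2.2.2.2.2.2.2.2.2.2.2.1
theorem m1_240 : chkI C 1 240 = true := all_M21.2.2.2.2.2.2.2.2.2.2.2.2.2.2.2.2.2.2.1
theorem m2_65 : chkI C 2 65 = true := all_M21.2.2.2.2.2.2.2.2.2.2.2.2.2.2.2.2.2.2.2.1
theorem m2_116 : chkI C 2 116 = true := all_M21.2.2.2.2.2.2.2.2.2.2.2.2.2.2.2.2.2.2.2.2.1
theorem m2_143 : chkI C 2 143 = true := all_M21.2.2.2.2.2.2.2.2.2.2.2.2.2.2.2.2.2.2.2.2.2.1
theorem m3_9 : chkI C 3 9 = true := all_M21.2.2.2.2.2.2.2.2.2.2.2.2.2.2.2.2.2.2.2.2.2.2.1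
theorem m3_10 : chkI C 3 10 = true := all_M21.2.2.2.2.2.2.2.2.2.2.2.2.2.2.2.2.2.2.2.2.2.2.2.1
theorem m3_63 : chkI C 3 63 = true := all_M21.2.2.2.2.2.2.2.2.2.2.2.2.2.2.2.2.2.2.2.2.2.2.2.2.1
theorem m3_83 : chkI C 3 83 = true := all_M21.2.2.2.2.2.2.2.2.2.2.2.2.2.2.2.2.2.2.2.2.2.2.2.2.2.1
theorem m4_12 : chkI C 4 12 = true := all_M21.2.2.2.2.2.2.2.2.2.2.2.2.2.2.2.2.2.2.2.2.2.2.2.2.2.2.1
theorem m4_60 : chkI C 4 60 = true := all_M21.2.2.2.2.2.2.2.2.2.2.2.2.2.2.2.2.2.2.2.2.2.2.2.2.2.2.2.1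
theorem m5_16 : chkI C 5 16 = true := all_M21.2.2.2.2.2.2.2.2.2.2.2.2.2.2.2.2.2.2.2.2.2.2.2.2.2.2.2.2.1
theorem m5_37 : chkI C 5 37 = true := all_M21.2.2.2.2.2.2.2.2.2.2.2.2.2.2.2.2.2.2.2.2.2.2.2.2.2.2.2.2.2.1
theorem m6_1 : chkI C 6 1 = true := all_M21.2.2.2.2.2.2.2.2.2.2.2.2.2.2.2.2.2.2.2.2.2.2.2.2.2.2.2.2.2.2.1
theorem m6_21 : chkI C 6 21 = true := all_M21.2.2.2.2.2.2.2.2.2.2.2.2.2.2.2.2.2.2.2.2.2.2.2.2.2.2.2.2.2.2.2.1
theorem m7_9 : chkI C 7 9 = true := all_M21.2.2.2.2.2.2.2.2.2.2.2.2.2.2.2.2.2.2.2.2.2.2.2.2.2.2.2.2.2.2.2.2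

end Pool.Agent.AKU6.VZ476
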