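import Pool.Agent.AKU6.VZ476.C

set_option autoImplicit false
set_option maxRecDepth 1000000

namespace Pool.Agent.AKU6.VZ476

open Pool.Agent.AKY Pool.Agent.AKU5

theorem all_M22 :
    chkI C 0 10 = true ∧
    chkI C 0 105 = true ∧
    chkI C 0 118 = true ∧
    chkI C 0 119 = true ∧
    chkI C 0 237 = true ∧
    chkI C 0 261 = true ∧
    chkI C 0 277 = true ∧
    chkI C 0 299 = true ∧
    chkI C 0 300 = true ∧
    chkI C 0 314 = true ∧
    chkI C 1 5 = true ∧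
    chkI C 1 29 = true ∧
    chkI C 1 33 = true ∧
    chkI C 1 82 = true ∧
    chkI C 1 92 = true ∧
    chkI C 1 115 = true ∧
    chkI C 1 161 = true ∧
    chkI C 1 172 = true ∧
    chkI C 1 204 = true ∧
    chkI C 1 213 = true ∧
    chkI C 2 1 = true ∧
    chkI C 2 36 = true ∧
    chkI C 2 66 = true ∧
    chkI C 2 81 = true ∧
    chkI C 2 85 = true ∧
    chkI C 3 20 = true ∧
    chkI C 3 39 = true ∧
    chkI C 3 129 = true ∧
    chkI C 4 62 = true ∧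
    chkI C 4 73 = true ∧
    chkI C 5 1 = true ∧
    chkI C 5 46 = true ∧
    chkI C 8 6 = true ∧
    chkI C 8 9 = true :=
  ⟨by decide +kernel, by decide +kernel, by decide +kernel,
   by decide +kernel, by decide +kernel, by decide +kernel,
   by decide +kernel, by decide +kernel, by decide +kernel,
   by decide +kernel, by decide +kernel, by decide +kernel,
   by decide +kernel, by decide +kernel, by decide +kernel,
   by decide +kernel, by decide +kernel, by decide +kernel,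
   by decide +kernel, by decide +kernel, by decide +kernel,
   by decide +kernel, by decide +kernel, by decide +kernel,
   by decide +kernel, by decide +kernel, by decide +kernel,
   by decide +kernel, by decide +kernel, by decide +kernel,
   by decide +kernel, by decide +kernel, by decide +kernel,
   by decide +kernel⟩

theorem m0_10 : chkI C 0 10 = true := all_M22.1
theorem m0_105 : chkI C 0 105 = true := all_M22.2.1
theorem m0_118 : chkI C 0 118 = true := all_M22.2.2.1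
theorem m0_119 : chkI C 0 119 = true := all_M22.2.2.2.1
theorem m0_237 : chkI C 0 237 = true := all_M22.2.2.2.2.1
theorem m0_261 : chkI C 0 261 = true := all_M22.2.2.2.2.2.1
theorem m0_277 : chkI C 0 277 = true := all_M22.2.2.2.2.2.2.1
theorem m0_299 : chkI C 0 299 = true := all_M22.2.2.2.2.2.2.2.1
theorem m0_300 : chkI C 0 300 = true := all_M22.2.2.2.2.2.2.2.2.1
theorem m0_314 : chkI C 0 314 = true := all_M22.2.2.2.2.2.2.2.2.2.1
theorem m1_5 : chkI C 1 5 = true := all_M22.2.2.2.2.2.2.2.2.2.2.1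
theorem m1_29 : chkI C 1 29 = true := all_M22.2.2.2.2.2.2.2.2.2.2.2.1
theorem m1_33 : chkI C 1 33 = true := all_M22.2.2.2.2.2.2.2.2.2.2.2.2.1
theorem m1_82 : chkI C 1 82 = true := all_M22.2.2.2.2.2.2.2.2.2.2.2.2.2.1
theorem m1_92 : chkI C 1 92 = true := all_M22.2.2.2.2.2.2.2.2.2.2.2.2.2.2.1
theorem m1_115 : chkI C 1 115 = true := all_M22.2.2.2.2.2.2.2.2.2.2.2.2.2.2.2.1
theorem m1_161 : chkI C 1 161 = true := all_M22.2.2.2.2.2.2.2.2.2.2.2.2.2.2.2.2.1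
theorem m1_172 : chkI C 1 172 = true := all_M22.2.2.2.2.2.2.2.2.2.2.2.2.2.2.2.2.2.1
theorem m1_204 : chkI C 1 204 = true := all_M22.2.2.2.2.2.2.2.2.2.2.2.2.2.2.2.2.2.2.1
theorem m1_213 : chkI C 1 213 = true := all_M22.2.2.2.2.2.2.2.2.2.2.2.2.2.2.2.2.2.2.2.1
theorem m2_1 : chkI C 2 1 = true := all_M22.2.2.2.2.2.2.2.2.2.2.2.2.2.2.2.2.2.2.2.2.1
theorem m2_36 : chkI C 2 36 = true := all_M22.2.2.2.2.2.2.2.2.2.2.2.2.2.2.2.2.2.2.2.2.2.1
theorem m2_66 : chkI C 2 66 = true := all_M22.2.2.2.2.2.2.2.2.2.2.2.2.2.2.2.2.2.2.2.2.2.2.1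
theorem m2_81 : chkI C 2 81 = true := all_M22.2.2.2.2.2.2.2.2.2.2.2.2.2.2.2.2.2.2.2.2.2.2.2.1
theorem m2_85 : chkI C 2 85 = true := all_M22.2.2.2.2.2.2.2.2.2.2.2.2.2.2.2.2.2.2.2.2.2.2.2.2.1
theorem m3_20 : chkI C 3 20 = true := all_M22.2.2.2.2.2.2.2.2.2.2.2.2.2.2.2.2.2.2.2.2.2.2.2.2.2.1
theorem m3_39 : chkI C 3 39 = true := all_M22.2.2.2.2.2.2.2.2.2.2.2.2.2.2.2.2.2.2.2.2.2.2.2.2.2.2.1
theorem m3_129 : chkI C 3 129 = true := all_M22.2.2.2.2.2.2.2.2.2.2.2.2.2.2.2.2.2.2.2.2.2.2.2.2.2.2.2.1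
theorem m4_62 : chkI C 4 62 = true := all_M22.2.2.2.2.2.2.2.2.2.2.2.2.2.2.2.2.2.2.2.2.2.2.2.2.2.2.2.2.1
theorem m4_73 : chkI C 4 73 = true := all_M22.2.2.2.2.2.2.2.2.2.2.2.2.2.2.2.2.2.2.2.2.2.2.2.2.2.2.2.2.2.1
theorem m5_1 : chkI C 5 1 = true := all_M22.2.2.2.2.2.2.2.2.2.2.2.2.2.2.2.2.2.2.2.2.2.2.2.2.2.2.2.2.2.2.1
theorem m5_46 : chkI C 5 46 = true := all_M22.2.2.2.2.2.2.2.2.2.2.2.2.2.2.2.2.2.2.2.2.2.2.2.2.2.2.2.2.2.2.2.1
theorem m8_6 : chkI C 8 6 = true := all_M22.2.2.2.2.2.2.2.2.2.2.2.2.2.2.2.2.2.2.2.2.2.2.2.2.2.2.2.2.2.2.2.2.1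
theorem m8_9 : chkI C 8 9 = true := all_M22.2.2.2.2.2.2.2.2.2.2.2.2.2.2.2.2.2.2.2.2.2.2.2.2.2.2.2.2.2.2.2.2.2

end Pool.Agent.AKU6.VZ476
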