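import Pool.Agent.AKU6.VZ476.C

set_option autoImplicit false
set_option maxRecDepth 1000000

namespace Pool.Agent.AKU6.VZ476

open Pool.Agent.AKY Pool.Agent.AKU5

theorem all_M23 :
    chkI C 0 18 = true ∧
    chkI C 0 43 = true ∧
    chkI C 0 72 = true ∧
    chkI C 0 111 = true ∧
    chkI C 0 138 = true ∧
    chkI C 0 143 = true ∧
    chkI C 0 164 = true ∧
    chkI C 0 243 = true ∧
    chkI C 0 248 = true ∧
    chkI C 0 311 = true ∧
    chkI C 1 12 = true ∧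
    chkI C 1 68 = true ∧
    chkI C 1 84 = true ∧
    chkI C 1 131 = true ∧
    chkI C 1 135 = true ∧
    chkI C 1 154 = true ∧
    chkI C 1 221 = true ∧
    chkI C 1 236 = true ∧
    chkI C 1 239 = true ∧
    chkI C 2 88 = true ∧
    chkI C 3 2 = true ∧
    chkI C 3 13 = true ∧
    chkI C 3 15 = true ∧
    chkI C 3 21 = true ∧
    chkI C 3 65 = true ∧
    chkI C 3 67 = true ∧
    chkI C 3 71 = true ∧
    chkI C 3 126 = true ∧
    chkI C 4 25 = true ∧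
    chkI C 4 36 = true ∧
    chkI C 5 27 = true ∧
    chkI C 5 53 = true ∧
    chkI C 10 4 = true ∧
    chkI C 11 4 = true :=
  ⟨by decide +kernel, by decide +kernel, by decide +kernel,
   by decide +kernel, by decide +kernel, by decide +kernel,
   by decide +kernel, by decide +kernel, by decide +kernel,
   by decide +kernel, by decide +kernel, by decide +kernel,
   by decide +kernel, by decide +kernel, by decide +kernel,
   by decide +kernel, by decide +kernel, by decide +kernel,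
   by decide +kernel, by decide +kernel, by decide +kernel,
   by decide +kernel, by decide +kernel, by decide +kernel,
   by decide +kernel, by decide +kernel, by decide +kernel,
   by decide +kernel, by decide +kernel, by decide +kernel,
   by decide +kernel, by decide +kernel, by decide +kernel,
   by decide +kernel⟩

theorem m0_18 : chkI C 0 18 = true := all_M23.1
theorem m0_43 : chkI C 0 43 = true := all_M23.2.1
theorem m0_72 : chkI C 0 72 = true := all_M23.2.2.1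
theorem m0_111 : chkI C 0 111 = true := all_M23.2.2.2.1
theorem m0_138 : chkI C 0 138 = true := all_M23.2.2.2.2.1
theorem m0_143 : chkI C 0 143 = true := all_M23.2.2.2.2.2.1
theorem m0_164 : chkI C 0 164 = true := all_M23.2.2.2.2.2.2.1
theorem m0_243 : chkI C 0 243 = true := all_M23.2.2.2.2.2.2.2.1
theorem m0_248 : chkI C 0 248 = true := all_M23.2.2.2.2.2.2.2.2.1
theorem m0_311 : chkI C 0 311 = true := all_M23.2.2.2.2.2.2.2.2.2.1
theorem m1_12 : chkI C 1 12 = true := all_M23.2.2.2.2.2.2.2.2.2.2.1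
theorem m1_68 : chkI C 1 68 = true := all_M23.2.2.2.2.2.2.2.2.2.2.2.1
theorem m1_84 : chkI C 1 84 = true := all_M23.2.2.2.2.2.2.2.2.2.2.2.2.1
theorem m1_131 : chkI C 1 131 = true := all_M23.2.2.2.2.2.2.2.2.2.2.2.2.2.1
theorem m1_135 : chkI C 1 135 = true := all_M23.2.2.2.2.2.2.2.2.2.2.2.2.2.2.1
theorem m1_154 : chkI C 1 154 = true := all_M23.2.2.2.2.2.2.2.2.2.2.2.2.2.2.2.1
theorem m1_221 : chkI C 1 221 = true := all_M23.2.2.2.2.2.2.2.2.2.2.2.2.2.2.2.2.1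
theorem m1_236 : chkI C 1 236 = true := all_M23.2.2.2.2.2.2.2.2.2.2.2.2.2.2.2.2.2.1
theorem m1_239 : chkI C 1 239 = true := all_M23.2.2.2.2.2.2.2.2.2.2.2.2.2.2.2.2.2.2.1
theorem m2_88 : chkI C 2 88 = true := all_M23.2.2.2.2.2.2.2.2.2.2.2.2.2.2.2.2.2.2.2.1
theorem m3_2 : chkI C 3 2 = true := all_M23.2.2.2.2.2.2.2.2.2.2.2.2.2.2.2.2.2.2.2.2.1
theorem m3_13 : chkI C 3 13 = true := all_M23.2.2.2.2.2.2.2.2.2.2.2.2.2.2.2.2.2.2.2.2.2.1
theorem m3_15 : chkI C 3 15 = true := all_M23.2.2.2.2.2.2.2.2.2.2.2.2.2.2.2.2.2.2.2.2.2.2.1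
theorem m3_21 : chkI C 3 21 = true := all_M23.2.2.2.2.2.2.2.2.2.2.2.2.2.2.2.2.2.2.2.2.2.2.2.1
theorem m3_65 : chkI C 3 65 = true := all_M23.2.2.2.2.2.2.2.2.2.2.2.2.2.2.2.2.2.2.2.2.2.2.2.2.1
theorem m3_67 : chkI C 3 67 = true := all_M23.2.2.2.2.2.2.2.2.2.2.2.2.2.2.2.2.2.2.2.2.2.2.2.2.2.1
theorem m3_71 : chkI C 3 71 = true := all_M23.2.2.2.2.2.2.2.2.2.2.2.2.2.2.2.2.2.2.2.2.2.2.2.2.2.2.1
theorem m3_126 : chkI C 3 126 = true := all_M23.2.2.2.2.2.2.2.2.2.2.2.2.2.2.2.2.2.2.2.2.2.2.2.2.2.2.2.1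
theorem m4_25 : chkI C 4 25 = true := all_M23.2.2.2.2.2.2.2.2.2.2.2.2.2.2.2.2.2.2.2.2.2.2.2.2.2.2.2.2.1
theorem m4_36 : chkI C 4 36 = true := all_M23.2.2.2.2.2.2.2.2.2.2.2.2.2.2.2.2.2.2.2.2.2.2.2.2.2.2.2.2.2.1
theorem m5_27 : chkI C 5 27 = true := all_M23.2.2.2.2.2.2.2.2.2.2.2.2.2.2.2.2.2.2.2.2.2.2.2.2.2.2.2.2.2.2.1
theorem m5_53 : chkI C 5 53 = true := all_M23.2.2.2.2.2.2.2.2.2.2.2.2.2.2.2.2.2.2.2.2.2.2.2.2.2.2.2.2.2.2.2.1
theorem m10_4 : chkI C 10 4 = true := all_M23.2.2.2.2.2.2.2.2.2.2.2.2.2.2.2.2.2.2.2.2.2.2.2.2.2.2.2.2.2.2.2.2.1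
theorem m11_4 : chkI C 11 4 = true := all_M23.2.2.2.2.2.2.2.2.2.2.2.2.2.2.2.2.2.2.2.2.2.2.2.2.2.2.2.2.2.2.2.2.2

end Pool.Agent.AKU6.VZ476
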