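import Pool.Agent.AKU6.VZ476.C

set_option autoImplicit false
set_option maxRecDepth 1000000

namespace Pool.Agent.AKU6.VZ476

open Pool.Agent.AKY Pool.Agent.AKU5

theorem all_M24 :
    chkI C 0 13 = true ∧
    chkI C 0 55 = true ∧
    chkI C 0 65 = true ∧
    chkI C 0 110 = true ∧
    chkI C 0 144 = true ∧
    chkI C 0 156 = true ∧
    chkI C 0 242 = true ∧
    chkI C 0 254 = true ∧
    chkI C 0 268 = true ∧
    chkI C 1 7 = true ∧
    chkI C 1 25 = true ∧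
    chkI C 1 58 = true ∧
    chkI C 1 77 = true ∧
    chkI C 1 134 = true ∧
    chkI C 1 137 = true ∧
    chkI C 1 196 = true ∧
    chkI C 1 214 = true ∧
    chkI C 1 228 = true ∧
    chkI C 2 43 = true ∧
    chkI C 2 68 = true ∧
    chkI C 2 90 = true ∧
    chkI C 2 97 = true ∧
    chkI C 2 117 = true ∧
    chkI C 2 125 = true ∧
    chkI C 2 127 = true ∧
    chkI C 3 36 = true ∧
    chkI C 3 111 = true ∧
    chkI C 3 116 = true ∧
    chkI C 4 83 = true ∧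
    chkI C 5 14 = true ∧
    chkI C 5 19 = true ∧
    chkI C 5 32 = true ∧
    chkI C 5 47 = true :=
  ⟨by decide +kernel, by decide +kernel, by decide +kernel,
   by decide +kernel, by decide +kernel, by decide +kernel,
   by decide +kernel, by decide +kernel, by decide +kernel,
   by decide +kernel, by decide +kernel, by decide +kernel,
   by decide +kernel, by decide +kernel, by decide +kernel,
   by decide +kernel, by decide +kernel, by decide +kernel,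
   by decide +kernel, by decide +kernel, by decide +kernel,
   by decide +kernel, by decide +kernel, by decide +kernel,
   by decide +kernel, by decide +kernel, by decide +kernel,
   by decide +kernel, by decide +kernel, by decide +kernel,
   by decide +kernel, by decide +kernel, by decide +kernel⟩

theorem m0_13 : chkI C 0 13 = true := all_M24.1
theorem m0_55 : chkI C 0 55 = true := all_M24.2.1
theorem m0_65 : chkI C 0 65 = true := all_M24.2.2.1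
theorem m0_110 : chkI C 0 110 = true := all_M24.2.2.2.1
theorem m0_144 : chkI C 0 144 = true := all_M24.2.2.2.2.1
theorem m0_156 : chkI C 0 156 = true := all_M24.2.2.2.2.2.1
theorem m0_242 : chkI C 0 242 = true := all_M24.2.2.2.2.2.2.1
theorem m0_254 : chkI C 0 254 = true := all_M24.2.2.2.2.2.2.2.1
theorem m0_268 : chkI C 0 268 = true := all_M24.2.2.2.2.2.2.2.2.1
theorem m1_7 : chkI C 1 7 = true := all_M24.2.2.2.2.2.2.2.2.2.1
theorem m1_25 : chkI C 1 25 = true := all_M24.2.2.2.2.2.2.2.2.2.2.1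
theorem m1_58 : chkI C 1 58 = true := all_M24.2.2.2.2.2.2.2.2.2.2.2.1
theorem m1_77 : chkI C 1 77 = true := all_M24.2.2.2.2.2.2.2.2.2.2.2.2.1
theorem m1_134 : chkI C 1 134 = true := all_M24.2.2.2.2.2.2.2.2.2.2.2.2.2.1
theorem m1_137 : chkI C 1 137 = true := all_M24.2.2.2.2.2.2.2.2.2.2.2.2.2.2.1
theorem m1_196 : chkI C 1 196 = true := all_M24.2.2.2.2.2.2.2.2.2.2.2.2.2.2.2.1
theorem m1_214 : chkI C 1 214 = true := all_M24.2.2.2.2.2.2.2.2.2.2.2.2.2.2.2.2.1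
theorem m1_228 : chkI C 1 228 = true := all_M24.2.2.2.2.2.2.2.2.2.2.2.2.2.2.2.2.2.1
theorem m2_43 : chkI C 2 43 = true := all_M24.2.2.2.2.2.2.2.2.2.2.2.2.2.2.2.2.2.2.1
theorem m2_68 : chkI C 2 68 = true := all_M24.2.2.2.2.2.2.2.2.2.2.2.2.2.2.2.2.2.2.2.1
theorem m2_90 : chkI C 2 90 = true := all_M24.2.2.2.2.2.2.2.2.2.2.2.2.2.2.2.2.2.2.2.2.1
theorem m2_97 : chkI C 2 97 = true := all_M24.2.2.2.2.2.2.2.2.2.2.2.2.2.2.2.2.2.2.2.2.2.1
theorem m2_117 : chkI C 2 117 = true := all_M24.2.2.2.2.2.2.2.2.2.2.2.2.2.2.2.2.2.2.2.2.2.2.1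
theorem m2_125 : chkI C 2 125 = true := all_M24.2.2.2.2.2.2.2.2.2.2.2.2.2.2.2.2.2.2.2.2.2.2.2.1
theorem m2_127 : chkI C 2 127 = true := all_M24.2.2.2.2.2.2.2.2.2.2.2.2.2.2.2.2.2.2.2.2.2.2.2.2.1
theorem m3_36 : chkI C 3 36 = true := all_M24.2.2.2.2.2.2.2.2.2.2.2.2.2.2.2.2.2.2.2.2.2.2.2.2.2.1
theorem m3_111 : chkI C 3 111 = true := all_M24.2.2.2.2.2.2.2.2.2.2.2.2.2.2.2.2.2.2.2.2.2.2.2.2.2.2.1
theorem m3_116 : chkI C 3 116 = true := all_M24.2.2.2.2.2.2.2.2.2.2.2.2.2.2.2.2.2.2.2.2.2.2.2.2.2.2.2.1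
theorem m4_83 : chkI C 4 83 = true := all_M24.2.2.2.2.2.2.2.2.2.2.2.2.2.2.2.2.2.2.2.2.2.2.2.2.2.2.2.2.1
theorem m5_14 : chkI C 5 14 = true := all_M24.2.2.2.2.2.2.2.2.2.2.2.2.2.2.2.2.2.2.2.2.2.2.2.2.2.2.2.2.2.1
theorem m5_19 : chkI C 5 19 = true := all_M24.2.2.2.2.2.2.2.2.2.2.2.2.2.2.2.2.2.2.2.2.2.2.2.2.2.2.2.2.2.2.1
theorem m5_32 : chkI C 5 32 = true := all_M24.2.2.2.2.2.2.2.2.2.2.2.2.2.2.2.2.2.2.2.2.2.2.2.2.2.2.2.2.2.2.2.1
theorem m5_47 : chkI C 5 47 = true := all_M24.2.2.2.2.2.2.2.2.2.2.2.2.2.2.2.2.2.2.2.2.2.2.2.2.2.2.2.2.2.2.2.2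

end Pool.Agent.AKU6.VZ476
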