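import Pool.Agent.AKU6.VZ476.C

set_option autoImplicit false
set_option maxRecDepth 1000000

namespace Pool.Agent.AKU6.VZ476

open Pool.Agent.AKY Pool.Agent.AKU5

theorem all_M25 :
    chkI C 0 29 = true ∧
    chkI C 0 46 = true ∧
    chkI C 0 49 = true ∧
    chkI C 0 97 = true ∧
    chkI C 0 129 = true ∧
    chkI C 0 152 = true ∧
    chkI C 0 182 = true ∧
    chkI C 0 187 = true ∧
    chkI C 0 197 = true ∧
    chkI C 0 247 = true ∧
    chkI C 0 315 = true ∧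
    chkI C 1 17 = true ∧
    chkI C 1 79 = true ∧
    chkI C 1 129 = true ∧
    chkI C 1 152 = true ∧
    chkI C 1 169 = true ∧
    chkI C 1 194 = true ∧
    chkI C 1 195 = true ∧
    chkI C 1 207 = true ∧
    chkI C 1 220 = true ∧
    chkI C 1 223 = true ∧
    chkI C 2 86 = true ∧
    chkI C 2 149 = true ∧
    chkI C 3 31 = true ∧
    chkI C 3 46 = true ∧
    chkI C 3 108 = true ∧
    chkI C 4 4 = true ∧
    chkI C 4 35 = true ∧
    chkI C 5 5 = true ∧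
    chkI C 5 24 = true ∧
    chkI C 5 55 = true ∧
    chkI C 7 0 = true ∧
    chkI C 7 11 = true ∧
    chkI C 10 8 = true :=
  ⟨by decide +kernel, by decide +kernel, by decide +kernel,
   by decide +kernel, by decide +kernel, by decide +kernel,
   by decide +kernel, by decide +kernel, by decide +kernel,
   by decide +kernel, by decide +kernel, by decide +kernel,
   by decide +kernel, by decide +kernel, by decide +kernel,
   by decide +kernel, by decide +kernel, by decide +kernel,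
   by decide +kernel, by decide +kernel, by decide +kernel,
   by decide +kernel, by decide +kernel, by decide +kernel,
   by decide +kernel, by decide +kernel, by decide +kernel,
   by decide +kernel, by decide +kernel, by decide +kernel,
   by decide +kernel, by decide +kernel, by decide +kernel,
   by decide +kernel⟩

theorem m0_29 : chkI C 0 29 = true := all_M25.1
theorem m0_46 : chkI C 0 46 = true := all_M25.2.1
theorem m0_49 : chkI C 0 49 = true := all_M25.2.2.1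
theorem m0_97 : chkI C 0 97 = true := all_M25.2.2.2.1
theorem m0_129 : chkI C 0 129 = true := all_M25.2.2.2.2.1
theorem m0_152 : chkI C 0 152 = true := all_M25.2.2.2.2.2.1
theorem m0_182 : chkI C 0 182 = true := all_M25.2.2.2.2.2.2.1
theorem m0_187 : chkI C 0 187 = true := all_M25.2.2.2.2.2.2.2.1
theorem m0_197 : chkI C 0 197 = true := all_M25.2.2.2.2.2.2.2.2.1
theorem m0_247 : chkI C 0 247 = true := all_M25.2.2.2.2.2.2.2.2.2.1
theorem m0_315 : chkI C 0 315 = true := all_M25.2.2.2.2.2.2.2.2.2.2.1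
theorem m1_17 : chkI C 1 17 = true := all_M25.2.2.2.2.2.2.2.2.2.2.2.1
theorem m1_79 : chkI C 1 79 = true := all_M25.2.2.2.2.2.2.2.2.2.2.2.2.1
theorem m1_129 : chkI C 1 129 = true := all_M25.2.2.2.2.2.2.2.2.2.2.2.2.2.1
theorem m1_152 : chkI C 1 152 = true := all_M25.2.2.2.2.2.2.2.2.2.2.2.2.2.2.1
theorem m1_169 : chkI C 1 169 = true := all_M25.2.2.2.2.2.2.2.2.2.2.2.2.2.2.2.1
theorem m1_194 : chkI C 1 194 = true := all_M25.2.2.2.2.2.2.2.2.2.2.2.2.2.2.2.2.1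
theorem m1_195 : chkI C 1 195 = true := all_M25.2.2.2.2.2.2.2.2.2.2.2.2.2.2.2.2.2.1
theorem m1_207 : chkI C 1 207 = true := all_M25.2.2.2.2.2.2.2.2.2.2.2.2.2.2.2.2.2.2.1
theorem m1_220 : chkI C 1 220 = true := all_M25.2.2.2.2.2.2.2.2.2.2.2.2.2.2.2.2.2.2.2.1
theorem m1_223 : chkI C 1 223 = true := all_M25.2.2.2.2.2.2.2.2.2.2.2.2.2.2.2.2.2.2.2.2.1
theorem m2_86 : chkI C 2 86 = true := all_M25.2.2.2.2.2.2.2.2.2.2.2.2.2.2.2.2.2.2.2.2.2.1
theorem m2_149 : chkI C 2 149 = true := all_M25.2.2.2.2.2.2.2.2.2.2.2.2.2.2.2.2.2.2.2.2.2.2.1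
theorem m3_31 : chkI C 3 31 = true := all_M25.2.2.2.2.2.2.2.2.2.2.2.2.2.2.2.2.2.2.2.2.2.2.2.1
theorem m3_46 : chkI C 3 46 = true := all_M25.2.2.2.2.2.2.2.2.2.2.2.2.2.2.2.2.2.2.2.2.2.2.2.2.1
theorem m3_108 : chkI C 3 108 = true := all_M25.2.2.2.2.2.2.2.2.2.2.2.2.2.2.2.2.2.2.2.2.2.2.2.2.2.1
theorem m4_4 : chkI C 4 4 = true := all_M25.2.2.2.2.2.2.2.2.2.2.2.2.2.2.2.2.2.2.2.2.2.2.2.2.2.2.1
theorem m4_35 : chkI C 4 35 = true := all_M25.2.2.2.2.2.2.2.2.2.2.2.2.2.2.2.2.2.2.2.2.2.2.2.2.2.2.2.1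
theorem m5_5 : chkI C 5 5 = true := all_M25.2.2.2.2.2.2.2.2.2.2.2.2.2.2.2.2.2.2.2.2.2.2.2.2.2.2.2.2.1
theorem m5_24 : chkI C 5 24 = true := all_M25.2.2.2.2.2.2.2.2.2.2.2.2.2.2.2.2.2.2.2.2.2.2.2.2.2.2.2.2.2.1
theorem m5_55 : chkI C 5 55 = true := all_M25.2.2.2.2.2.2.2.2.2.2.2.2.2.2.2.2.2.2.2.2.2.2.2.2.2.2.2.2.2.2.1
theorem m7_0 : chkI C 7 0 = true := all_M25.2.2.2.2.2.2.2.2.2.2.2.2.2.2.2.2.2.2.2.2.2.2.2.2.2.2.2.2.2.2.2.1
theorem m7_11 : chkI C 7 11 = true := all_M25.2.2.2.2.2.2.2.2.2.2.2.2.2.2.2.2.2.2.2.2.2.2.2.2.2.2.2.2.2.2.2.2.1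
theorem m10_8 : chkI C 10 8 = true := all_M25.2.2.2.2.2.2.2.2.2.2.2.2.2.2.2.2.2.2.2.2.2.2.2.2.2.2.2.2.2.2.2.2.2

end Pool.Agent.AKU6.VZ476
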