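import Pool.Agent.AKU6.VZ476.C

set_option autoImplicit false
set_option maxRecDepth 1000000

namespace Pool.Agent.AKU6.VZ476

open Pool.Agent.AKY Pool.Agent.AKU5

theorem all_M26 :
    chkI C 0 45 = true ∧
    chkI C 0 69 = true ∧
    chkI C 0 123 = true ∧
    chkI C 0 159 = true ∧
    chkI C 0 199 = true ∧
    chkI C 0 213 = true ∧
    chkI C 0 235 = true ∧
    chkI C 0 249 = true ∧
    chkI C 0 256 = true ∧
    chkI C 0 276 = true ∧
    chkI C 0 282 = true ∧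
    chkI C 0 284 = true ∧
    chkI C 0 294 = true ∧
    chkI C 1 14 = true ∧
    chkI C 1 31 = true ∧
    chkI C 1 42 = true ∧
    chkI C 1 122 = true ∧
    chkI C 1 170 = true ∧
    chkI C 1 208 = true ∧
    chkI C 1 212 = true ∧
    chkI C 2 37 = true ∧
    chkI C 2 51 = true ∧
    chkI C 2 112 = true ∧
    chkI C 2 137 = true ∧
    chkI C 2 140 = true ∧
    chkI C 3 100 = true ∧
    chkI C 3 127 = true ∧
    chkI C 4 7 = true ∧
    chkI C 4 28 = true ∧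
    chkI C 4 72 = true ∧
    chkI C 4 77 = true ∧
    chkI C 6 15 = true ∧
    chkI C 6 23 = true ∧
    chkI C 8 11 = true :=
  ⟨by decide +kernel, by decide +kernel, by decide +kernel,
   by decide +kernel, by decide +kernel, by decide +kernel,
   by decide +kernel, by decide +kernel, by decide +kernel,
   by decide +kernel, by decide +kernel, by decide +kernel,
   by decide +kernel, by decide +kernel, by decide +kernel,
   by decide +kernel, by decide +kernel, by decide +kernel,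
   by decide +kernel, by decide +kernel, by decide +kernel,
   by decide +kernel, by decide +kernel, by decide +kernel,
   by decide +kernel, by decide +kernel, by decide +kernel,
   by decide +kernel, by decide +kernel, by decide +kernel,
   by decide +kernel, by decide +kernel, by decide +kernel,
   by decide +kernel⟩

theorem m0_45 : chkI C 0 45 = true := all_M26.1
theorem m0_69 : chkI C 0 69 = true := all_M26.2.1
theorem m0_123 : chkI C 0 123 = true := all_M26.2.2.1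
theorem m0_159 : chkI C 0 159 = true := all_M26.2.2.2.1
theorem m0_199 : chkI C 0 199 = true := all_M26.2.2.2.2.1
theorem m0_213 : chkI C 0 213 = true := all_M26.2.2.2.2.2.1
theorem m0_235 : chkI C 0 235 = true := all_M26.2.2.2.2.2.2.1
theorem m0_249 : chkI C 0 249 = true := all_M26.2.2.2.2.2.2.2.1
theorem m0_256 : chkI C 0 256 = true := all_M26.2.2.2.2.2.2.2.2.1
theorem m0_276 : chkI C 0 276 = true := all_M26.2.2.2.2.2.2.2.2.2.1
theorem m0_282 : chkI C 0 282 = true := all_M26.2.2.2.2.2.2.2.2.2.2.1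
theorem m0_284 : chkI C 0 284 = true := all_M26.2.2.2.2.2.2.2.2.2.2.2.1
theorem m0_294 : chkI C 0 294 = true := all_M26.2.2.2.2.2.2.2.2.2.2.2.2.1
theorem m1_14 : chkI C 1 14 = true := all_M26.2.2.2.2.2.2.2.2.2.2.2.2.2.1
theorem m1_31 : chkI C 1 31 = true := all_M26.2.2.2.2.2.2.2.2.2.2.2.2.2.2.1
theorem m1_42 : chkI C 1 42 = true := all_M26.2.2.2.2.2.2.2.2.2.2.2.2.2.2.2.1
theorem m1_122 : chkI C 1 122 = true := all_M26.2.2.2.2.2.2.2.2.2.2.2.2.2.2.2.2.1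
theorem m1_170 : chkI C 1 170 = true := all_M26.2.2.2.2.2.2.2.2.2.2.2.2.2.2.2.2.2.1
theorem m1_208 : chkI C 1 208 = true := all_M26.2.2.2.2.2.2.2.2.2.2.2.2.2.2.2.2.2.2.1
theorem m1_212 : chkI C 1 212 = true := all_M26.2.2.2.2.2.2.2.2.2.2.2.2.2.2.2.2.2.2.2.1
theorem m2_37 : chkI C 2 37 = true := all_M26.2.2.2.2.2.2.2.2.2.2.2.2.2.2.2.2.2.2.2.2.1
theorem m2_51 : chkI C 2 51 = true := all_M26.2.2.2.2.2.2.2.2.2.2.2.2.2.2.2.2.2.2.2.2.2.1
theorem m2_112 : chkI C 2 112 = true := all_M26.2.2.2.2.2.2.2.2.2.2.2.2.2.2.2.2.2.2.2.2.2.2.1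
theorem m2_137 : chkI C 2 137 = true := all_M26.2.2.2.2.2.2.2.2.2.2.2.2.2.2.2.2.2.2.2.2.2.2.2.1
theorem m2_140 : chkI C 2 140 = true := all_M26.2.2.2.2.2.2.2.2.2.2.2.2.2.2.2.2.2.2.2.2.2.2.2.2.1
theorem m3_100 : chkI C 3 100 = true := all_M26.2.2.2.2.2.2.2.2.2.2.2.2.2.2.2.2.2.2.2.2.2.2.2.2.2.1
theorem m3_127 : chkI C 3 127 = true := all_M26.2.2.2.2.2.2.2.2.2.2.2.2.2.2.2.2.2.2.2.2.2.2.2.2.2.2.1
theorem m4_7 : chkI C 4 7 = true := all_M26.2.2.2.2.2.2.2.2.2.2.2.2.2.2.2.2.2.2.2.2.2.2.2.2.2.2.2.1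
theorem m4_28 : chkI C 4 28 = true := all_M26.2.2.2.2.2.2.2.2.2.2.2.2.2.2.2.2.2.2.2.2.2.2.2.2.2.2.2.2.1
theorem m4_72 : chkI C 4 72 = true := all_M26.2.2.2.2.2.2.2.2.2.2.2.2.2.2.2.2.2.2.2.2.2.2.2.2.2.2.2.2.2.1
theorem m4_77 : chkI C 4 77 = true := all_M26.2.2.2.2.2.2.2.2.2.2.2.2.2.2.2.2.2.2.2.2.2.2.2.2.2.2.2.2.2.2.1
theorem m6_15 : chkI C 6 15 = true := all_M26.2.2.2.2.2.2.2.2.2.2.2.2.2.2.2.2.2.2.2.2.2.2.2.2.2.2.2.2.2.2.2.1
theorem m6_23 : chkI C 6 23 = true := all_M26.2.2.2.2.2.2.2.2.2.2.2.2.2.2.2.2.2.2.2.2.2.2.2.2.2.2.2.2.2.2.2.2.1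
theorem m8_11 : chkI C 8 11 = true := all_M26.2.2.2.2.2.2.2.2.2.2.2.2.2.2.2.2.2.2.2.2.2.2.2.2.2.2.2.2.2.2.2.2.2

end Pool.Agent.AKU6.VZ476
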