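import Pool.Agent.AKU6.VZ476.C

set_option autoImplicit false
set_option maxRecDepth 1000000

namespace Pool.Agent.AKU6.VZ476

open Pool.Agent.AKY Pool.Agent.AKU5

theorem all_M27 :
    chkI C 0 2 = true ∧
    chkI C 0 31 = true ∧
    chkI C 0 52 = true ∧
    chkI C 0 76 = true ∧
    chkI C 0 94 = true ∧
    chkI C 0 149 = true ∧
    chkI C 0 180 = true ∧
    chkI C 0 224 = true ∧
    chkI C 0 280 = true ∧
    chkI C 0 281 = true ∧
    chkI C 0 286 = true ∧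
    chkI C 1 32 = true ∧
    chkI C 1 96 = true ∧
    chkI C 1 113 = true ∧
    chkI C 1 147 = true ∧
    chkI C 2 12 = true ∧
    chkI C 2 41 = true ∧
    chkI C 2 52 = true ∧
    chkI C 2 107 = true ∧
    chkI C 2 129 = true ∧
    chkI C 2 135 = true ∧
    chkI C 3 5 = true ∧
    chkI C 3 34 = true ∧
    chkI C 3 43 = true ∧
    chkI C 3 64 = true ∧
    chkI C 3 76 = true ∧
    chkI C 3 103 = true ∧
    chkI C 4 39 = true ∧
    chkI C 4 78 = true ∧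
    chkI C 5 18 = true ∧
    chkI C 5 54 = true ∧
    chkI C 6 18 = true ∧
    chkI C 8 0 = true :=
  ⟨by decide +kernel, by decide +kernel, by decide +kernel,
   by decide +kernel, by decide +kernel, by decide +kernel,
   by decide +kernel, by decide +kernel, by decide +kernel,
   by decide +kernel, by decide +kernel, by decide +kernel,
   by decide +kernel, by decide +kernel, by decide +kernel,
   by decide +kernel, by decide +kernel, by decide +kernel,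
   by decide +kernel, by decide +kernel, by decide +kernel,
   by decide +kernel, by decide +kernel, by decide +kernel,
   by decide +kernel, by decide +kernel, by decide +kernel,
   by decide +kernel, by decide +kernel, by decide +kernel,
   by decide +kernel, by decide +kernel, by decide +kernel⟩

theorem m0_2 : chkI C 0 2 = true := all_M27.1
theorem m0_31 : chkI C 0 31 = true := all_M27.2.1
theorem m0_52 : chkI C 0 52 = true := all_M27.2.2.1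
theorem m0_76 : chkI C 0 76 = true := all_M27.2.2.2.1
theorem m0_94 : chkI C 0 94 = true := all_M27.2.2.2.2.1
theorem m0_149 : chkI C 0 149 = true := all_M27.2.2.2.2.2.1
theorem m0_180 : chkI C 0 180 = true := all_M27.2.2.2.2.2.2.1
theorem m0_224 : chkI C 0 224 = true := all_M27.2.2.2.2.2.2.2.1
theorem m0_280 : chkI C 0 280 = true := all_M27.2.2.2.2.2.2.2.2.1
theorem m0_281 : chkI C 0 281 = true := all_M27.2.2.2.2.2.2.2.2.2.1
theorem m0_286 : chkI C 0 286 = true := all_M27.2.2.2.2.2.2.2.2.2.2.1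
theorem m1_32 : chkI C 1 32 = true := all_M27.2.2.2.2.2.2.2.2.2.2.2.1
theorem m1_96 : chkI C 1 96 = true := all_M27.2.2.2.2.2.2.2.2.2.2.2.2.1
theorem m1_113 : chkI C 1 113 = true := all_M27.2.2.2.2.2.2.2.2.2.2.2.2.2.1
theorem m1_147 : chkI C 1 147 = true := all_M27.2.2.2.2.2.2.2.2.2.2.2.2.2.2.1
theorem m2_12 : chkI C 2 12 = true := all_M27.2.2.2.2.2.2.2.2.2.2.2.2.2.2.2.1
theorem m2_41 : chkI C 2 41 = true := all_M27.2.2.2.2.2.2.2.2.2.2.2.2.2.2.2.2.1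
theorem m2_52 : chkI C 2 52 = true := all_M27.2.2.2.2.2.2.2.2.2.2.2.2.2.2.2.2.2.1
theorem m2_107 : chkI C 2 107 = true := all_M27.2.2.2.2.2.2.2.2.2.2.2.2.2.2.2.2.2.2.1
theorem m2_129 : chkI C 2 129 = true := all_M27.2.2.2.2.2.2.2.2.2.2.2.2.2.2.2.2.2.2.2.1
theorem m2_135 : chkI C 2 135 = true := all_M27.2.2.2.2.2.2.2.2.2.2.2.2.2.2.2.2.2.2.2.2.1
theorem m3_5 : chkI C 3 5 = true := all_M27.2.2.2.2.2.2.2.2.2.2.2.2.2.2.2.2.2.2.2.2.2.1
theorem m3_34 : chkI C 3 34 = true := all_M27.2.2.2.2.2.2.2.2.2.2.2.2.2.2.2.2.2.2.2.2.2.2.1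
theorem m3_43 : chkI C 3 43 = true := all_M27.2.2.2.2.2.2.2.2.2.2.2.2.2.2.2.2.2.2.2.2.2.2.2.1
theorem m3_64 : chkI C 3 64 = true := all_M27.2.2.2.2.2.2.2.2.2.2.2.2.2.2.2.2.2.2.2.2.2.2.2.2.1
theorem m3_76 : chkI C 3 76 = true := all_M27.2.2.2.2.2.2.2.2.2.2.2.2.2.2.2.2.2.2.2.2.2.2.2.2.2.1
theorem m3_103 : chkI C 3 103 = true := all_M27.2.2.2.2.2.2.2.2.2.2.2.2.2.2.2.2.2.2.2.2.2.2.2.2.2.2.1
theorem m4_39 : chkI C 4 39 = true := all_M27.2.2.2.2.2.2.2.2.2.2.2.2.2.2.2.2.2.2.2.2.2.2.2.2.2.2.2.1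
theorem m4_78 : chkI C 4 78 = true := all_M27.2.2.2.2.2.2.2.2.2.2.2.2.2.2.2.2.2.2.2.2.2.2.2.2.2.2.2.2.1
theorem m5_18 : chkI C 5 18 = true := all_M27.2.2.2.2.2.2.2.2.2.2.2.2.2.2.2.2.2.2.2.2.2.2.2.2.2.2.2.2.2.1
theorem m5_54 : chkI C 5 54 = true := all_M27.2.2.2.2.2.2.2.2.2.2.2.2.2.2.2.2.2.2.2.2.2.2.2.2.2.2.2.2.2.2.1
theorem m6_18 : chkI C 6 18 = true := all_M27.2.2.2.2.2.2.2.2.2.2.2.2.2.2.2.2.2.2.2.2.2.2.2.2.2.2.2.2.2.2.2.1
theorem m8_0 : chkI C 8 0 = true := all_M27.2.2.2.2.2.2.2.2.2.2.2.2.2.2.2.2.2.2.2.2.2.2.2.2.2.2.2.2.2.2.2.2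

end Pool.Agent.AKU6.VZ476
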