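import Pool.Agent.AKU6.VZ476.C

set_option autoImplicit false
set_option maxRecDepth 1000000

namespace Pool.Agent.AKU6.VZ476

open Pool.Agent.AKY Pool.Agent.AKU5

theorem all_M28 :
    chkI C 0 23 = true ∧
    chkI C 0 40 = true ∧
    chkI C 0 57 = true ∧
    chkI C 0 158 = true ∧
    chkI C 0 178 = true ∧
    chkI C 0 223 = true ∧
    chkI C 0 304 = true ∧
    chkI C 0 305 = true ∧
    chkI C 0 310 = true ∧
    chkI C 0 318 = true ∧
    chkI C 1 2 = true ∧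
    chkI C 1 20 = true ∧
    chkI C 1 57 = true ∧
    chkI C 1 61 = true ∧
    chkI C 1 108 = true ∧
    chkI C 1 141 = true ∧
    chkI C 1 160 = true ∧
    chkI C 2 3 = true ∧
    chkI C 2 21 = true ∧
    chkI C 2 23 = true ∧
    chkI C 2 58 = true ∧
    chkI C 2 67 = true ∧
    chkI C 2 74 = true ∧
    chkI C 2 98 = true ∧
    chkI C 3 61 = true ∧
    chkI C 3 105 = true ∧
    chkI C 3 106 = true ∧
    chkI C 4 2 = true ∧
    chkI C 5 7 = true ∧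
    chkI C 5 11 = true ∧
    chkI C 7 6 = true ∧
    chkI C 10 2 = true ∧
    chkI C 10 11 = true :=
  ⟨by decide +kernel, by decide +kernel, by decide +kernel,
   by decide +kernel, by decide +kernel, by decide +kernel,
   by decide +kernel, by decide +kernel, by decide +kernel,
   by decide +kernel, by decide +kernel, by decide +kernel,
   by decide +kernel, by decide +kernel, by decide +kernel,
   by decide +kernel, by decide +kernel, by decide +kernel,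
   by decide +kernel, by decide +kernel, by decide +kernel,
   by decide +kernel, by decide +kernel, by decide +kernel,
   by decide +kernel, by decide +kernel, by decide +kernel,
   by decide +kernel, by decide +kernel, by decide +kernel,
   by decide +kernel, by decide +kernel, by decide +kernel⟩

theorem m0_23 : chkI C 0 23 = true := all_M28.1
theorem m0_40 : chkI C 0 40 = true := all_M28.2.1
theorem m0_57 : chkI C 0 57 = true := all_M28.2.2.1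
theorem m0_158 : chkI C 0 158 = true := all_M28.2.2.2.1
theorem m0_178 : chkI C 0 178 = true := all_M28.2.2.2.2.1
theorem m0_223 : chkI C 0 223 = true := all_M28.2.2.2.2.2.1
theorem m0_304 : chkI C 0 304 = true := all_M28.2.2.2.2.2.2.1
theorem m0_305 : chkI C 0 305 = true := all_M28.2.2.2.2.2.2.2.1
theorem m0_310 : chkI C 0 310 = true := all_M28.2.2.2.2.2.2.2.2.1
theorem m0_318 : chkI C 0 318 = true := all_M28.2.2.2.2.2.2.2.2.2.1
theorem m1_2 : chkI C 1 2 = true := all_M28.2.2.2.2.2.2.2.2.2.2.1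
theorem m1_20 : chkI C 1 20 = true := all_M28.2.2.2.2.2.2.2.2.2.2.2.1
theorem m1_57 : chkI C 1 57 = true := all_M28.2.2.2.2.2.2.2.2.2.2.2.2.1
theorem m1_61 : chkI C 1 61 = true := all_M28.2.2.2.2.2.2.2.2.2.2.2.2.2.1
theorem m1_108 : chkI C 1 108 = true := all_M28.2.2.2.2.2.2.2.2.2.2.2.2.2.2.1
theorem m1_141 : chkI C 1 141 = true := all_M28.2.2.2.2.2.2.2.2.2.2.2.2.2.2.2.1
theorem m1_160 : chkI C 1 160 = true := all_M28.2.2.2.2.2.2.2.2.2.2.2.2.2.2.2.2.1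
theorem m2_3 : chkI C 2 3 = true := all_M28.2.2.2.2.2.2.2.2.2.2.2.2.2.2.2.2.2.1
theorem m2_21 : chkI C 2 21 = true := all_M28.2.2.2.2.2.2.2.2.2.2.2.2.2.2.2.2.2.2.1
theorem m2_23 : chkI C 2 23 = true := all_M28.2.2.2.2.2.2.2.2.2.2.2.2.2.2.2.2.2.2.2.1
theorem m2_58 : chkI C 2 58 = true := all_M28.2.2.2.2.2.2.2.2.2.2.2.2.2.2.2.2.2.2.2.2.1
theorem m2_67 : chkI C 2 67 = true := all_M28.2.2.2.2.2.2.2.2.2.2.2.2.2.2.2.2.2.2.2.2.2.1
theorem m2_74 : chkI C 2 74 = true := all_M28.2.2.2.2.2.2.2.2.2.2.2.2.2.2.2.2.2.2.2.2.2.2.1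
theorem m2_98 : chkI C 2 98 = true := all_M28.2.2.2.2.2.2.2.2.2.2.2.2.2.2.2.2.2.2.2.2.2.2.2.1
theorem m3_61 : chkI C 3 61 = true := all_M28.2.2.2.2.2.2.2.2.2.2.2.2.2.2.2.2.2.2.2.2.2.2.2.2.1
theorem m3_105 : chkI C 3 105 = true := all_M28.2.2.2.2.2.2.2.2.2.2.2.2.2.2.2.2.2.2.2.2.2.2.2.2.2.1
theorem m3_106 : chkI C 3 106 = true := all_M28.2.2.2.2.2.2.2.2.2.2.2.2.2.2.2.2.2.2.2.2.2.2.2.2.2.2.1
theorem m4_2 : chkI C 4 2 = true := all_M28.2.2.2.2.2.2.2.2.2.2.2.2.2.2.2.2.2.2.2.2.2.2.2.2.2.2.2.1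
theorem m5_7 : chkI C 5 7 = true := all_M28.2.2.2.2.2.2.2.2.2.2.2.2.2.2.2.2.2.2.2.2.2.2.2.2.2.2.2.2.1
theorem m5_11 : chkI C 5 11 = true := all_M28.2.2.2.2.2.2.2.2.2.2.2.2.2.2.2.2.2.2.2.2.2.2.2.2.2.2.2.2.2.1
theorem m7_6 : chkI C 7 6 = true := all_M28.2.2.2.2.2.2.2.2.2.2.2.2.2.2.2.2.2.2.2.2.2.2.2.2.2.2.2.2.2.2.1
theorem m10_2 : chkI C 10 2 = true := all_M28.2.2.2.2.2.2.2.2.2.2.2.2.2.2.2.2.2.2.2.2.2.2.2.2.2.2.2.2.2.2.2.1
theorem m10_11 : chkI C 10 11 = true := all_M28.2.2.2.2.2.2.2.2.2.2.2.2.2.2.2.2.2.2.2.2.2.2.2.2.2.2.2.2.2.2.2.2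

end Pool.Agent.AKU6.VZ476
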