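import Pool.Agent.AKU6.VZ476.C

set_option autoImplicit false
set_option maxRecDepth 1000000

namespace Pool.Agent.AKU6.VZ476

open Pool.Agent.AKY Pool.Agent.AKU5

theorem all_M29 :
    chkI C 0 44 = true ∧
    chkI C 0 64 = true ∧
    chkI C 0 145 = true ∧
    chkI C 0 153 = true ∧
    chkI C 0 163 = true ∧
    chkI C 0 244 = true ∧
    chkI C 0 258 = true ∧
    chkI C 0 273 = true ∧
    chkI C 0 291 = true ∧
    chkI C 1 13 = true ∧
    chkI C 1 26 = true ∧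
    chkI C 1 50 = true ∧
    chkI C 1 106 = true ∧
    chkI C 1 114 = true ∧
    chkI C 1 139 = true ∧
    chkI C 1 176 = true ∧
    chkI C 2 8 = true ∧
    chkI C 2 9 = true ∧
    chkI C 2 70 = true ∧
    chkI C 2 100 = true ∧
    chkI C 2 103 = true ∧
    chkI C 3 12 = true ∧
    chkI C 3 75 = true ∧
    chkI C 3 82 = true ∧
    chkI C 3 88 = true ∧
    chkI C 3 107 = true ∧
    chkI C 4 43 = true ∧
    chkI C 4 47 = true ∧
    chkI C 4 64 = true ∧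
    chkI C 5 20 = true ∧
    chkI C 6 12 = true ∧
    chkI C 7 5 = true ∧
    chkI C 8 8 = true :=
  ⟨by decide +kernel, by decide +kernel, by decide +kernel,
   by decide +kernel, by decide +kernel, by decide +kernel,
   by decide +kernel, by decide +kernel, by decide +kernel,
   by decide +kernel, by decide +kernel, by decide +kernel,
   by decide +kernel, by decide +kernel, by decide +kernel,
   by decide +kernel, by decide +kernel, by decide +kernel,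
   by decide +kernel, by decide +kernel, by decide +kernel,
   by decide +kernel, by decide +kernel, by decide +kernel,
   by decide +kernel, by decide +kernel, by decide +kernel,
   by decide +kernel, by decide +kernel, by decide +kernel,
   by decide +kernel, by decide +kernel, by decide +kernel⟩

theorem m0_44 : chkI C 0 44 = true := all_M29.1
theorem m0_64 : chkI C 0 64 = true := all_M29.2.1
theorem m0_145 : chkI C 0 145 = true := all_M29.2.2.1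
theorem m0_153 : chkI C 0 153 = true := all_M29.2.2.2.1
theorem m0_163 : chkI C 0 163 = true := all_M29.2.2.2.2.1
theorem m0_244 : chkI C 0 244 = true := all_M29.2.2.2.2.2.1
theorem m0_258 : chkI C 0 258 = true := all_M29.2.2.2.2.2.2.1
theorem m0_273 : chkI C 0 273 = true := all_M29.2.2.2.2.2.2.2.1
theorem m0_291 : chkI C 0 291 = true := all_M29.2.2.2.2.2.2.2.2.1
theorem m1_13 : chkI C 1 13 = true := all_M29.2.2.2.2.2.2.2.2.2.1
theorem m1_26 : chkI C 1 26 = true := all_M29.2.2.2.2.2.2.2.2.2.2.1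
theorem m1_50 : chkI C 1 50 = true := all_M29.2.2.2.2.2.2.2.2.2.2.2.1
theorem m1_106 : chkI C 1 106 = true := all_M29.2.2.2.2.2.2.2.2.2.2.2.2.1
theorem m1_114 : chkI C 1 114 = true := all_M29.2.2.2.2.2.2.2.2.2.2.2.2.2.1
theorem m1_139 : chkI C 1 139 = true := all_M29.2.2.2.2.2.2.2.2.2.2.2.2.2.2.1
theorem m1_176 : chkI C 1 176 = true := all_M29.2.2.2.2.2.2.2.2.2.2.2.2.2.2.2.1
theorem m2_8 : chkI C 2 8 = true := all_M29.2.2.2.2.2.2.2.2.2.2.2.2.2.2.2.2.1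
theorem m2_9 : chkI C 2 9 = true := all_M29.2.2.2.2.2.2.2.2.2.2.2.2.2.2.2.2.2.1
theorem m2_70 : chkI C 2 70 = true := all_M29.2.2.2.2.2.2.2.2.2.2.2.2.2.2.2.2.2.2.1
theorem m2_100 : chkI C 2 100 = true := all_M29.2.2.2.2.2.2.2.2.2.2.2.2.2.2.2.2.2.2.2.1
theorem m2_103 : chkI C 2 103 = true := all_M29.2.2.2.2.2.2.2.2.2.2.2.2.2.2.2.2.2.2.2.2.1
theorem m3_12 : chkI C 3 12 = true := all_M29.2.2.2.2.2.2.2.2.2.2.2.2.2.2.2.2.2.2.2.2.2.1
theorem m3_75 : chkI C 3 75 = true := all_M29.2.2.2.2.2.2.2.2.2.2.2.2.2.2.2.2.2.2.2.2.2.2.1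
theorem m3_82 : chkI C 3 82 = true := all_M29.2.2.2.2.2.2.2.2.2.2.2.2.2.2.2.2.2.2.2.2.2.2.2.1
theorem m3_88 : chkI C 3 88 = true := all_M29.2.2.2.2.2.2.2.2.2.2.2.2.2.2.2.2.2.2.2.2.2.2.2.2.1
theorem m3_107 : chkI C 3 107 = true := all_M29.2.2.2.2.2.2.2.2.2.2.2.2.2.2.2.2.2.2.2.2.2.2.2.2.2.1
theorem m4_43 : chkI C 4 43 = true := all_M29.2.2.2.2.2.2.2.2.2.2.2.2.2.2.2.2.2.2.2.2.2.2.2.2.2.2.1
theorem m4_47 : chkI C 4 47 = true := all_M29.2.2.2.2.2.2.2.2.2.2.2.2.2.2.2.2.2.2.2.2.2.2.2.2.2.2.2.1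
theorem m4_64 : chkI C 4 64 = true := all_M29.2.2.2.2.2.2.2.2.2.2.2.2.2.2.2.2.2.2.2.2.2.2.2.2.2.2.2.2.1
theorem m5_20 : chkI C 5 20 = true := all_M29.2.2.2.2.2.2.2.2.2.2.2.2.2.2.2.2.2.2.2.2.2.2.2.2.2.2.2.2.2.1
theorem m6_12 : chkI C 6 12 = true := all_M29.2.2.2.2.2.2.2.2.2.2.2.2.2.2.2.2.2.2.2.2.2.2.2.2.2.2.2.2.2.2.1
theorem m7_5 : chkI C 7 5 = true := all_M29.2.2.2.2.2.2.2.2.2.2.2.2.2.2.2.2.2.2.2.2.2.2.2.2.2.2.2.2.2.2.2.1
theorem m8_8 : chkI C 8 8 = true := all_M29.2.2.2.2.2.2.2.2.2.2.2.2.2.2.2.2.2.2.2.2.2.2.2.2.2.2.2.2.2.2.2.2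

end Pool.Agent.AKU6.VZ476
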