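import Pool.Agent.AKU6.VZ476.C

set_option autoImplicit false
set_option maxRecDepth 1000000

namespace Pool.Agent.AKU6.VZ476

open Pool.Agent.AKY Pool.Agent.AKU5

theorem all_M3 :
    chkI C 0 8 = true ∧
    chkI C 0 61 = true ∧
    chkI C 0 81 = true ∧
    chkI C 0 115 = true ∧
    chkI C 0 160 = true ∧
    chkI C 0 181 = true ∧
    chkI C 0 203 = true ∧
    chkI C 0 241 = true ∧
    chkI C 0 275 = true ∧
    chkI C 0 296 = true ∧
    chkI C 1 11 = true ∧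
    chkI C 1 40 = true ∧
    chkI C 1 107 = true ∧
    chkI C 1 128 = true ∧
    chkI C 1 130 = true ∧
    chkI C 1 185 = true ∧
    chkI C 1 238 = true ∧
    chkI C 2 48 = true ∧
    chkI C 3 6 = true ∧
    chkI C 3 11 = true ∧
    chkI C 3 22 = true ∧
    chkI C 3 23 = true ∧
    chkI C 3 48 = true ∧
    chkI C 3 69 = true ∧
    chkI C 3 78 = true ∧
    chkI C 3 119 = true ∧
    chkI C 3 121 = true ∧
    chkI C 3 132 = true ∧
    chkI C 4 48 = true ∧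
    chkI C 5 4 = true ∧
    chkI C 5 31 = true ∧
    chkI C 6 11 = true ∧
    chkI C 10 7 = true ∧
    chkI C 10 12 = true :=
  ⟨by decide +kernel, by decide +kernel, by decide +kernel,
   by decide +kernel, by decide +kernel, by decide +kernel,
   by decide +kernel, by decide +kernel, by decide +kernel,
   by decide +kernel, by decide +kernel, by decide +kernel,
   by decide +kernel, by decide +kernel, by decide +kernel,
   by decide +kernel, by decide +kernel, by decide +kernel,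
   by decide +kernel, by decide +kernel, by decide +kernel,
   by decide +kernel, by decide +kernel, by decide +kernel,
   by decide +kernel, by decide +kernel, by decide +kernel,
   by decide +kernel, by decide +kernel, by decide +kernel,
   by decide +kernel, by decide +kernel, by decide +kernel,
   by decide +kernel⟩

theorem m0_8 : chkI C 0 8 = true := all_M3.1
theorem m0_61 : chkI C 0 61 = true := all_M3.2.1
theorem m0_81 : chkI C 0 81 = true := all_M3.2.2.1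
theorem m0_115 : chkI C 0 115 = true := all_M3.2.2.2.1
theorem m0_160 : chkI C 0 160 = true := all_M3.2.2.2.2.1
theorem m0_181 : chkI C 0 181 = true := all_M3.2.2.2.2.2.1
theorem m0_203 : chkI C 0 203 = true := all_M3.2.2.2.2.2.2.1
theorem m0_241 : chkI C 0 241 = true := all_M3.2.2.2.2.2.2.2.1
theorem m0_275 : chkI C 0 275 = true := all_M3.2.2.2.2.2.2.2.2.1
theorem m0_296 : chkI C 0 296 = true := all_M3.2.2.2.2.2.2.2.2.2.1
theorem m1_11 : chkI C 1 11 = true := all_M3.2.2.2.2.2.2.2.2.2.2.1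
theorem m1_40 : chkI C 1 40 = true := all_M3.2.2.2.2.2.2.2.2.2.2.2.1
theorem m1_107 : chkI C 1 107 = true := all_M3.2.2.2.2.2.2.2.2.2.2.2.2.1
theorem m1_128 : chkI C 1 128 = true := all_M3.2.2.2.2.2.2.2.2.2.2.2.2.2.1
theorem m1_130 : chkI C 1 130 = true := all_M3.2.2.2.2.2.2.2.2.2.2.2.2.2.2.1
theorem m1_185 : chkI C 1 185 = true := all_M3.2.2.2.2.2.2.2.2.2.2.2.2.2.2.2.1
theorem m1_238 : chkI C 1 238 = true := all_M3.2.2.2.2.2.2.2.2.2.2.2.2.2.2.2.2.1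
theorem m2_48 : chkI C 2 48 = true := all_M3.2.2.2.2.2.2.2.2.2.2.2.2.2.2.2.2.2.1
theorem m3_6 : chkI C 3 6 = true := all_M3.2.2.2.2.2.2.2.2.2.2.2.2.2.2.2.2.2.2.1
theorem m3_11 : chkI C 3 11 = true := all_M3.2.2.2.2.2.2.2.2.2.2.2.2.2.2.2.2.2.2.2.1
theorem m3_22 : chkI C 3 22 = true := all_M3.2.2.2.2.2.2.2.2.2.2.2.2.2.2.2.2.2.2.2.2.1
theorem m3_23 : chkI C 3 23 = true := all_M3.2.2.2.2.2.2.2.2.2.2.2.2.2.2.2.2.2.2.2.2.2.1
theorem m3_48 : chkI C 3 48 = true := all_M3.2.2.2.2.2.2.2.2.2.2.2.2.2.2.2.2.2.2.2.2.2.2.1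
theorem m3_69 : chkI C 3 69 = true := all_M3.2.2.2.2.2.2.2.2.2.2.2.2.2.2.2.2.2.2.2.2.2.2.2.1
theorem m3_78 : chkI C 3 78 = true := all_M3.2.2.2.2.2.2.2.2.2.2.2.2.2.2.2.2.2.2.2.2.2.2.2.2.1
theorem m3_119 : chkI C 3 119 = true := all_M3.2.2.2.2.2.2.2.2.2.2.2.2.2.2.2.2.2.2.2.2.2.2.2.2.2.1
theorem m3_121 : chkI C 3 121 = true := all_M3.2.2.2.2.2.2.2.2.2.2.2.2.2.2.2.2.2.2.2.2.2.2.2.2.2.2.1
theorem m3_132 : chkI C 3 132 = true := all_M3.2.2.2.2.2.2.2.2.2.2.2.2.2.2.2.2.2.2.2.2.2.2.2.2.2.2.2.1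
theorem m4_48 : chkI C 4 48 = true := all_M3.2.2.2.2.2.2.2.2.2.2.2.2.2.2.2.2.2.2.2.2.2.2.2.2.2.2.2.2.1
theorem m5_4 : chkI C 5 4 = true := all_M3.2.2.2.2.2.2.2.2.2.2.2.2.2.2.2.2.2.2.2.2.2.2.2.2.2.2.2.2.2.1
theorem m5_31 : chkI C 5 31 = true := all_M3.2.2.2.2.2.2.2.2.2.2.2.2.2.2.2.2.2.2.2.2.2.2.2.2.2.2.2.2.2.2.1
theorem m6_11 : chkI C 6 11 = true := all_M3.2.2.2.2.2.2.2.2.2.2.2.2.2.2.2.2.2.2.2.2.2.2.2.2.2.2.2.2.2.2.2.1
theorem m10_7 : chkI C 10 7 = true := all_M3.2.2.2.2.2.2.2.2.2.2.2.2.2.2.2.2.2.2.2.2.2.2.2.2.2.2.2.2.2.2.2.2.1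
theorem m10_12 : chkI C 10 12 = true := all_M3.2.2.2.2.2.2.2.2.2.2.2.2.2.2.2.2.2.2.2.2.2.2.2.2.2.2.2.2.2.2.2.2.2

end Pool.Agent.AKU6.VZ476
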