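import Pool.Agent.AKU6.VZ476.C

set_option autoImplicit false
set_option maxRecDepth 1000000

namespace Pool.Agent.AKU6.VZ476

open Pool.Agent.AKY Pool.Agent.AKU5

theorem all_M30 :
    chkI C 0 16 = true ∧
    chkI C 0 26 = true ∧
    chkI C 0 30 = true ∧
    chkI C 0 151 = true ∧
    chkI C 0 205 = true ∧
    chkI C 0 216 = true ∧
    chkI C 0 251 = true ∧
    chkI C 0 255 = true ∧
    chkI C 0 287 = true ∧
    chkI C 0 289 = true ∧
    chkI C 1 3 = true ∧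
    chkI C 1 41 = true ∧
    chkI C 1 63 = true ∧
    chkI C 1 83 = true ∧
    chkI C 1 123 = true ∧
    chkI C 1 140 = true ∧
    chkI C 1 181 = true ∧
    chkI C 1 224 = true ∧
    chkI C 1 229 = true ∧
    chkI C 2 24 = true ∧
    chkI C 2 47 = true ∧
    chkI C 2 64 = true ∧
    chkI C 2 77 = true ∧
    chkI C 2 93 = true ∧
    chkI C 3 40 = true ∧
    chkI C 4 31 = true ∧
    chkI C 4 89 = true ∧
    chkI C 5 17 = true ∧
    chkI C 5 36 = true ∧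
    chkI C 5 38 = true ∧
    chkI C 6 5 = true ∧
    chkI C 6 9 = true ∧
    chkI C 6 26 = true ∧
    chkI C 10 5 = true :=
  ⟨by decide +kernel, by decide +kernel, by decide +kernel,
   by decide +kernel, by decide +kernel, by decide +kernel,
   by decide +kernel, by decide +kernel, by decide +kernel,
   by decide +kernel, by decide +kernel, by decide +kernel,
   by decide +kernel, by decide +kernel, by decide +kernel,
   by decide +kernel, by decide +kernel, by decide +kernel,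
   by decide +kernel, by decide +kernel, by decide +kernel,
   by decide +kernel, by decide +kernel, by decide +kernel,
   by decide +kernel, by decide +kernel, by decide +kernel,
   by decide +kernel, by decide +kernel, by decide +kernel,
   by decide +kernel, by decide +kernel, by decide +kernel,
   by decide +kernel⟩

theorem m0_16 : chkI C 0 16 = true := all_M30.1
theorem m0_26 : chkI C 0 26 = true := all_M30.2.1
theorem m0_30 : chkI C 0 30 = true := all_M30.2.2.1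
theorem m0_151 : chkI C 0 151 = true := all_M30.2.2.2.1
theorem m0_205 : chkI C 0 205 = true := all_M30.2.2.2.2.1
theorem m0_216 : chkI C 0 216 = true := all_M30.2.2.2.2.2.1
theorem m0_251 : chkI C 0 251 = true := all_M30.2.2.2.2.2.2.1
theorem m0_255 : chkI C 0 255 = true := all_M30.2.2.2.2.2.2.2.1
theorem m0_287 : chkI C 0 287 = true := all_M30.2.2.2.2.2.2.2.2.1
theorem m0_289 : chkI C 0 289 = true := all_M30.2.2.2.2.2.2.2.2.2.1
theorem m1_3 : chkI C 1 3 = true := all_M30.2.2.2.2.2.2.2.2.2.2.1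
theorem m1_41 : chkI C 1 41 = true := all_M30.2.2.2.2.2.2.2.2.2.2.2.1
theorem m1_63 : chkI C 1 63 = true := all_M30.2.2.2.2.2.2.2.2.2.2.2.2.1
theorem m1_83 : chkI C 1 83 = true := all_M30.2.2.2.2.2.2.2.2.2.2.2.2.2.1
theorem m1_123 : chkI C 1 123 = true := all_M30.2.2.2.2.2.2.2.2.2.2.2.2.2.2.1
theorem m1_140 : chkI C 1 140 = true := all_M30.2.2.2.2.2.2.2.2.2.2.2.2.2.2.2.1
theorem m1_181 : chkI C 1 181 = true := all_M30.2.2.2.2.2.2.2.2.2.2.2.2.2.2.2.2.1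
theorem m1_224 : chkI C 1 224 = true := all_M30.2.2.2.2.2.2.2.2.2.2.2.2.2.2.2.2.2.1
theorem m1_229 : chkI C 1 229 = true := all_M30.2.2.2.2.2.2.2.2.2.2.2.2.2.2.2.2.2.2.1
theorem m2_24 : chkI C 2 24 = true := all_M30.2.2.2.2.2.2.2.2.2.2.2.2.2.2.2.2.2.2.2.1
theorem m2_47 : chkI C 2 47 = true := all_M30.2.2.2.2.2.2.2.2.2.2.2.2.2.2.2.2.2.2.2.2.1
theorem m2_64 : chkI C 2 64 = true := all_M30.2.2.2.2.2.2.2.2.2.2.2.2.2.2.2.2.2.2.2.2.2.1
theorem m2_77 : chkI C 2 77 = true := all_M30.2.2.2.2.2.2.2.2.2.2.2.2.2.2.2.2.2.2.2.2.2.2.1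
theorem m2_93 : chkI C 2 93 = true := all_M30.2.2.2.2.2.2.2.2.2.2.2.2.2.2.2.2.2.2.2.2.2.2.2.1
theorem m3_40 : chkI C 3 40 = true := all_M30.2.2.2.2.2.2.2.2.2.2.2.2.2.2.2.2.2.2.2.2.2.2.2.2.1
theorem m4_31 : chkI C 4 31 = true := all_M30.2.2.2.2.2.2.2.2.2.2.2.2.2.2.2.2.2.2.2.2.2.2.2.2.2.1
theorem m4_89 : chkI C 4 89 = true := all_M30.2.2.2.2.2.2.2.2.2.2.2.2.2.2.2.2.2.2.2.2.2.2.2.2.2.2.1
theorem m5_17 : chkI C 5 17 = true := all_M30.2.2.2.2.2.2.2.2.2.2.2.2.2.2.2.2.2.2.2.2.2.2.2.2.2.2.2.1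
theorem m5_36 : chkI C 5 36 = true := all_M30.2.2.2.2.2.2.2.2.2.2.2.2.2.2.2.2.2.2.2.2.2.2.2.2.2.2.2.2.1
theorem m5_38 : chkI C 5 38 = true := all_M30.2.2.2.2.2.2.2.2.2.2.2.2.2.2.2.2.2.2.2.2.2.2.2.2.2.2.2.2.2.1
theorem m6_5 : chkI C 6 5 = true := all_M30.2.2.2.2.2.2.2.2.2.2.2.2.2.2.2.2.2.2.2.2.2.2.2.2.2.2.2.2.2.2.1
theorem m6_9 : chkI C 6 9 = true := all_M30.2.2.2.2.2.2.2.2.2.2.2.2.2.2.2.2.2.2.2.2.2.2.2.2.2.2.2.2.2.2.2.1
theorem m6_26 : chkI C 6 26 = true := all_M30.2.2.2.2.2.2.2.2.2.2.2.2.2.2.2.2.2.2.2.2.2.2.2.2.2.2.2.2.2.2.2.2.1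
theorem m10_5 : chkI C 10 5 = true := all_M30.2.2.2.2.2.2.2.2.2.2.2.2.2.2.2.2.2.2.2.2.2.2.2.2.2.2.2.2.2.2.2.2.2

end Pool.Agent.AKU6.VZ476
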