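import Pool.Agent.AKU6.VZ476.C

set_option autoImplicit false
set_option maxRecDepth 1000000

namespace Pool.Agent.AKU6.VZ476

open Pool.Agent.AKY Pool.Agent.AKU5

theorem all_M31 :
    chkI C 0 1 = true ∧
    chkI C 0 9 = true ∧
    chkI C 0 51 = true ∧
    chkI C 0 96 = true ∧
    chkI C 0 120 = true ∧
    chkI C 0 148 = true ∧
    chkI C 0 177 = true ∧
    chkI C 0 186 = true ∧
    chkI C 0 222 = true ∧
    chkI C 0 240 = true ∧
    chkI C 0 313 = true ∧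
    chkI C 1 73 = true ∧
    chkI C 1 112 = true ∧
    chkI C 1 120 = true ∧
    chkI C 1 177 = true ∧
    chkI C 1 178 = true ∧
    chkI C 1 209 = true ∧
    chkI C 1 217 = true ∧
    chkI C 1 226 = true ∧
    chkI C 2 10 = true ∧
    chkI C 2 28 = true ∧
    chkI C 2 119 = true ∧
    chkI C 2 126 = true ∧
    chkI C 3 32 = true ∧
    chkI C 3 35 = true ∧
    chkI C 3 59 = true ∧
    chkI C 4 22 = true ∧
    chkI C 4 33 = true ∧
    chkI C 4 65 = true ∧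
    chkI C 4 71 = true ∧
    chkI C 6 14 = true ∧
    chkI C 6 24 = true ∧
    chkI C 8 2 = true :=
  ⟨by decide +kernel, by decide +kernel, by decide +kernel,
   by decide +kernel, by decide +kernel, by decide +kernel,
   by decide +kernel, by decide +kernel, by decide +kernel,
   by decide +kernel, by decide +kernel, by decide +kernel,
   by decide +kernel, by decide +kernel, by decide +kernel,
   by decide +kernel, by decide +kernel, by decide +kernel,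
   by decide +kernel, by decide +kernel, by decide +kernel,
   by decide +kernel, by decide +kernel, by decide +kernel,
   by decide +kernel, by decide +kernel, by decide +kernel,
   by decide +kernel, by decide +kernel, by decide +kernel,
   by decide +kernel, by decide +kernel, by decide +kernel⟩

theorem m0_1 : chkI C 0 1 = true := all_M31.1
theorem m0_9 : chkI C 0 9 = true := all_M31.2.1
theorem m0_51 : chkI C 0 51 = true := all_M31.2.2.1
theorem m0_96 : chkI C 0 96 = true := all_M31.2.2.2.1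
theorem m0_120 : chkI C 0 120 = true := all_M31.2.2.2.2.1
theorem m0_148 : chkI C 0 148 = true := all_M31.2.2.2.2.2.1
theorem m0_177 : chkI C 0 177 = true := all_M31.2.2.2.2.2.2.1
theorem m0_186 : chkI C 0 186 = true := all_M31.2.2.2.2.2.2.2.1
theorem m0_222 : chkI C 0 222 = true := all_M31.2.2.2.2.2.2.2.2.1
theorem m0_240 : chkI C 0 240 = true := all_M31.2.2.2.2.2.2.2.2.2.1
theorem m0_313 : chkI C 0 313 = true := all_M31.2.2.2.2.2.2.2.2.2.2.1
theorem m1_73 : chkI C 1 73 = true := all_M31.2.2.2.2.2.2.2.2.2.2.2.1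
theorem m1_112 : chkI C 1 112 = true := all_M31.2.2.2.2.2.2.2.2.2.2.2.2.1
theorem m1_120 : chkI C 1 120 = true := all_M31.2.2.2.2.2.2.2.2.2.2.2.2.2.1
theorem m1_177 : chkI C 1 177 = true := all_M31.2.2.2.2.2.2.2.2.2.2.2.2.2.2.1
theorem m1_178 : chkI C 1 178 = true := all_M31.2.2.2.2.2.2.2.2.2.2.2.2.2.2.2.1
theorem m1_209 : chkI C 1 209 = true := all_M31.2.2.2.2.2.2.2.2.2.2.2.2.2.2.2.2.1
theorem m1_217 : chkI C 1 217 = true := all_M31.2.2.2.2.2.2.2.2.2.2.2.2.2.2.2.2.2.1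
theorem m1_226 : chkI C 1 226 = true := all_M31.2.2.2.2.2.2.2.2.2.2.2.2.2.2.2.2.2.2.1
theorem m2_10 : chkI C 2 10 = true := all_M31.2.2.2.2.2.2.2.2.2.2.2.2.2.2.2.2.2.2.2.1
theorem m2_28 : chkI C 2 28 = true := all_M31.2.2.2.2.2.2.2.2.2.2.2.2.2.2.2.2.2.2.2.2.1
theorem m2_119 : chkI C 2 119 = true := all_M31.2.2.2.2.2.2.2.2.2.2.2.2.2.2.2.2.2.2.2.2.2.1
theorem m2_126 : chkI C 2 126 = true := all_M31.2.2.2.2.2.2.2.2.2.2.2.2.2.2.2.2.2.2.2.2.2.2.1
theorem m3_32 : chkI C 3 32 = true := all_M31.2.2.2.2.2.2.2.2.2.2.2.2.2.2.2.2.2.2.2.2.2.2.2.1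
theorem m3_35 : chkI C 3 35 = true := all_M31.2.2.2.2.2.2.2.2.2.2.2.2.2.2.2.2.2.2.2.2.2.2.2.2.1
theorem m3_59 : chkI C 3 59 = true := all_M31.2.2.2.2.2.2.2.2.2.2.2.2.2.2.2.2.2.2.2.2.2.2.2.2.2.1
theorem m4_22 : chkI C 4 22 = true := all_M31.2.2.2.2.2.2.2.2.2.2.2.2.2.2.2.2.2.2.2.2.2.2.2.2.2.2.1
theorem m4_33 : chkI C 4 33 = true := all_M31.2.2.2.2.2.2.2.2.2.2.2.2.2.2.2.2.2.2.2.2.2.2.2.2.2.2.2.1
theorem m4_65 : chkI C 4 65 = true := all_M31.2.2.2.2.2.2.2.2.2.2.2.2.2.2.2.2.2.2.2.2.2.2.2.2.2.2.2.2.1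
theorem m4_71 : chkI C 4 71 = true := all_M31.2.2.2.2.2.2.2.2.2.2.2.2.2.2.2.2.2.2.2.2.2.2.2.2.2.2.2.2.2.1
theorem m6_14 : chkI C 6 14 = true := all_M31.2.2.2.2.2.2.2.2.2.2.2.2.2.2.2.2.2.2.2.2.2.2.2.2.2.2.2.2.2.2.1
theorem m6_24 : chkI C 6 24 = true := all_M31.2.2.2.2.2.2.2.2.2.2.2.2.2.2.2.2.2.2.2.2.2.2.2.2.2.2.2.2.2.2.2.1
theorem m8_2 : chkI C 8 2 = true := all_M31.2.2.2.2.2.2.2.2.2.2.2.2.2.2.2.2.2.2.2.2.2.2.2.2.2.2.2.2.2.2.2.2

end Pool.Agent.AKU6.VZ476
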