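import Pool.Agent.AKU6.VZ476.C

set_option autoImplicit false
set_option maxRecDepth 1000000

namespace Pool.Agent.AKU6.VZ476

open Pool.Agent.AKY Pool.Agent.AKU5

theorem all_M4 :
    chkI C 0 25 = true ∧
    chkI C 0 87 = true ∧
    chkI C 0 155 = true ∧
    chkI C 0 161 = true ∧
    chkI C 0 169 = true ∧
    chkI C 0 176 = true ∧
    chkI C 0 195 = true ∧
    chkI C 0 220 = true ∧
    chkI C 0 231 = true ∧
    chkI C 0 232 = true ∧
    chkI C 0 267 = true ∧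
    chkI C 0 297 = true ∧
    chkI C 0 303 = true ∧
    chkI C 0 316 = true ∧
    chkI C 1 0 = true ∧
    chkI C 1 28 = true ∧
    chkI C 1 199 = true ∧
    chkI C 2 5 = true ∧
    chkI C 2 7 = true ∧
    chkI C 2 79 = true ∧
    chkI C 2 121 = true ∧
    chkI C 3 16 = true ∧
    chkI C 3 37 = true ∧
    chkI C 3 52 = true ∧
    chkI C 3 122 = true ∧
    chkI C 3 124 = true ∧
    chkI C 4 0 = true ∧
    chkI C 4 68 = true ∧
    chkI C 4 69 = true ∧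
    chkI C 4 86 = true ∧
    chkI C 5 3 = true ∧
    chkI C 5 25 = true ∧
    chkI C 5 51 = true ∧
    chkI C 11 3 = true :=
  ⟨by decide +kernel, by decide +kernel, by decide +kernel,
   by decide +kernel, by decide +kernel, by decide +kernel,
   by decide +kernel, by decide +kernel, by decide +kernel,
   by decide +kernel, by decide +kernel, by decide +kernel,
   by decide +kernel, by decide +kernel, by decide +kernel,
   by decide +kernel, by decide +kernel, by decide +kernel,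
   by decide +kernel, by decide +kernel, by decide +kernel,
   by decide +kernel, by decide +kernel, by decide +kernel,
   by decide +kernel, by decide +kernel, by decide +kernel,
   by decide +kernel, by decide +kernel, by decide +kernel,
   by decide +kernel, by decide +kernel, by decide +kernel,
   by decide +kernel⟩

theorem m0_25 : chkI C 0 25 = true := all_M4.1
theorem m0_87 : chkI C 0 87 = true := all_M4.2.1
theorem m0_155 : chkI C 0 155 = true := all_M4.2.2.1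
theorem m0_161 : chkI C 0 161 = true := all_M4.2.2.2.1
theorem m0_169 : chkI C 0 169 = true := all_M4.2.2.2.2.1
theorem m0_176 : chkI C 0 176 = true := all_M4.2.2.2.2.2.1
theorem m0_195 : chkI C 0 195 = true := all_M4.2.2.2.2.2.2.1
theorem m0_220 : chkI C 0 220 = true := all_M4.2.2.2.2.2.2.2.1
theorem m0_231 : chkI C 0 231 = true := all_M4.2.2.2.2.2.2.2.2.1
theorem m0_232 : chkI C 0 232 = true := all_M4.2.2.2.2.2.2.2.2.2.1
theorem m0_267 : chkI C 0 267 = true := all_M4.2.2.2.2.2.2.2.2.2.2.1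
theorem m0_297 : chkI C 0 297 = true := all_M4.2.2.2.2.2.2.2.2.2.2.2.1
theorem m0_303 : chkI C 0 303 = true := all_M4.2.2.2.2.2.2.2.2.2.2.2.2.1
theorem m0_316 : chkI C 0 316 = true := all_M4.2.2.2.2.2.2.2.2.2.2.2.2.2.1
theorem m1_0 : chkI C 1 0 = true := all_M4.2.2.2.2.2.2.2.2.2.2.2.2.2.2.1
theorem m1_28 : chkI C 1 28 = true := all_M4.2.2.2.2.2.2.2.2.2.2.2.2.2.2.2.1
theorem m1_199 : chkI C 1 199 = true := all_M4.2.2.2.2.2.2.2.2.2.2.2.2.2.2.2.2.1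
theorem m2_5 : chkI C 2 5 = true := all_M4.2.2.2.2.2.2.2.2.2.2.2.2.2.2.2.2.2.1
theorem m2_7 : chkI C 2 7 = true := all_M4.2.2.2.2.2.2.2.2.2.2.2.2.2.2.2.2.2.2.1
theorem m2_79 : chkI C 2 79 = true := all_M4.2.2.2.2.2.2.2.2.2.2.2.2.2.2.2.2.2.2.2.1
theorem m2_121 : chkI C 2 121 = true := all_M4.2.2.2.2.2.2.2.2.2.2.2.2.2.2.2.2.2.2.2.2.1
theorem m3_16 : chkI C 3 16 = true := all_M4.2.2.2.2.2.2.2.2.2.2.2.2.2.2.2.2.2.2.2.2.2.1
theorem m3_37 : chkI C 3 37 = true := all_M4.2.2.2.2.2.2.2.2.2.2.2.2.2.2.2.2.2.2.2.2.2.2.1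
theorem m3_52 : chkI C 3 52 = true := all_M4.2.2.2.2.2.2.2.2.2.2.2.2.2.2.2.2.2.2.2.2.2.2.2.1
theorem m3_122 : chkI C 3 122 = true := all_M4.2.2.2.2.2.2.2.2.2.2.2.2.2.2.2.2.2.2.2.2.2.2.2.2.1
theorem m3_124 : chkI C 3 124 = true := all_M4.2.2.2.2.2.2.2.2.2.2.2.2.2.2.2.2.2.2.2.2.2.2.2.2.2.1
theorem m4_0 : chkI C 4 0 = true := all_M4.2.2.2.2.2.2.2.2.2.2.2.2.2.2.2.2.2.2.2.2.2.2.2.2.2.2.1
theorem m4_68 : chkI C 4 68 = true := all_M4.2.2.2.2.2.2.2.2.2.2.2.2.2.2.2.2.2.2.2.2.2.2.2.2.2.2.2.1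
theorem m4_69 : chkI C 4 69 = true := all_M4.2.2.2.2.2.2.2.2.2.2.2.2.2.2.2.2.2.2.2.2.2.2.2.2.2.2.2.2.1
theorem m4_86 : chkI C 4 86 = true := all_M4.2.2.2.2.2.2.2.2.2.2.2.2.2.2.2.2.2.2.2.2.2.2.2.2.2.2.2.2.2.1
theorem m5_3 : chkI C 5 3 = true := all_M4.2.2.2.2.2.2.2.2.2.2.2.2.2.2.2.2.2.2.2.2.2.2.2.2.2.2.2.2.2.2.1
theorem m5_25 : chkI C 5 25 = true := all_M4.2.2.2.2.2.2.2.2.2.2.2.2.2.2.2.2.2.2.2.2.2.2.2.2.2.2.2.2.2.2.2.1
theorem m5_51 : chkI C 5 51 = true := all_M4.2.2.2.2.2.2.2.2.2.2.2.2.2.2.2.2.2.2.2.2.2.2.2.2.2.2.2.2.2.2.2.2.1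
theorem m11_3 : chkI C 11 3 = true := all_M4.2.2.2.2.2.2.2.2.2.2.2.2.2.2.2.2.2.2.2.2.2.2.2.2.2.2.2.2.2.2.2.2.2

end Pool.Agent.AKU6.VZ476
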