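import Pool.Agent.AKU6.VZ476.C

set_option autoImplicit false
set_option maxRecDepth 1000000

namespace Pool.Agent.AKU6.VZ476

open Pool.Agent.AKY Pool.Agent.AKU5

theorem all_M5 :
    chkI C 0 21 = true ∧
    chkI C 0 32 = true ∧
    chkI C 0 88 = true ∧
    chkI C 0 157 = true ∧
    chkI C 0 162 = true ∧
    chkI C 0 194 = true ∧
    chkI C 0 227 = true ∧
    chkI C 0 245 = true ∧
    chkI C 0 246 = true ∧
    chkI C 0 265 = true ∧
    chkI C 0 272 = true ∧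
    chkI C 0 285 = true ∧
    chkI C 1 38 = true ∧
    chkI C 1 60 = true ∧
    chkI C 1 67 = true ∧
    chkI C 1 148 = true ∧
    chkI C 1 197 = true ∧
    chkI C 1 231 = true ∧
    chkI C 2 60 = true ∧
    chkI C 2 62 = true ∧
    chkI C 2 118 = true ∧
    chkI C 2 120 = true ∧
    chkI C 2 133 = true ∧
    chkI C 2 148 = true ∧
    chkI C 3 57 = true ∧
    chkI C 3 97 = true ∧
    chkI C 3 113 = true ∧
    chkI C 4 8 = true ∧
    chkI C 4 50 = true ∧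
    chkI C 4 52 = true ∧
    chkI C 4 88 = true ∧
    chkI C 6 20 = true ∧
    chkI C 7 3 = true ∧
    chkI C 8 10 = true :=
  ⟨by decide +kernel, by decide +kernel, by decide +kernel,
   by decide +kernel, by decide +kernel, by decide +kernel,
   by decide +kernel, by decide +kernel, by decide +kernel,
   by decide +kernel, by decide +kernel, by decide +kernel,
   by decide +kernel, by decide +kernel, by decide +kernel,
   by decide +kernel, by decide +kernel, by decide +kernel,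
   by decide +kernel, by decide +kernel, by decide +kernel,
   by decide +kernel, by decide +kernel, by decide +kernel,
   by decide +kernel, by decide +kernel, by decide +kernel,
   by decide +kernel, by decide +kernel, by decide +kernel,
   by decide +kernel, by decide +kernel, by decide +kernel,
   by decide +kernel⟩

theorem m0_21 : chkI C 0 21 = true := all_M5.1
theorem m0_32 : chkI C 0 32 = true := all_M5.2.1
theorem m0_88 : chkI C 0 88 = true := all_M5.2.2.1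
theorem m0_157 : chkI C 0 157 = true := all_M5.2.2.2.1
theorem m0_162 : chkI C 0 162 = true := all_M5.2.2.2.2.1
theorem m0_194 : chkI C 0 194 = true := all_M5.2.2.2.2.2.1
theorem m0_227 : chkI C 0 227 = true := all_M5.2.2.2.2.2.2.1
theorem m0_245 : chkI C 0 245 = true := all_M5.2.2.2.2.2.2.2.1
theorem m0_246 : chkI C 0 246 = true := all_M5.2.2.2.2.2.2.2.2.1
theorem m0_265 : chkI C 0 265 = true := all_M5.2.2.2.2.2.2.2.2.2.1
theorem m0_272 : chkI C 0 272 = true := all_M5.2.2.2.2.2.2.2.2.2.2.1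
theorem m0_285 : chkI C 0 285 = true := all_M5.2.2.2.2.2.2.2.2.2.2.2.1
theorem m1_38 : chkI C 1 38 = true := all_M5.2.2.2.2.2.2.2.2.2.2.2.2.1
theorem m1_60 : chkI C 1 60 = true := all_M5.2.2.2.2.2.2.2.2.2.2.2.2.2.1
theorem m1_67 : chkI C 1 67 = true := all_M5.2.2.2.2.2.2.2.2.2.2.2.2.2.2.1
theorem m1_148 : chkI C 1 148 = true := all_M5.2.2.2.2.2.2.2.2.2.2.2.2.2.2.2.1
theorem m1_197 : chkI C 1 197 = true := all_M5.2.2.2.2.2.2.2.2.2.2.2.2.2.2.2.2.1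
theorem m1_231 : chkI C 1 231 = true := all_M5.2.2.2.2.2.2.2.2.2.2.2.2.2.2.2.2.2.1
theorem m2_60 : chkI C 2 60 = true := all_M5.2.2.2.2.2.2.2.2.2.2.2.2.2.2.2.2.2.2.1
theorem m2_62 : chkI C 2 62 = true := all_M5.2.2.2.2.2.2.2.2.2.2.2.2.2.2.2.2.2.2.2.1
theorem m2_118 : chkI C 2 118 = true := all_M5.2.2.2.2.2.2.2.2.2.2.2.2.2.2.2.2.2.2.2.2.1
theorem m2_120 : chkI C 2 120 = true := all_M5.2.2.2.2.2.2.2.2.2.2.2.2.2.2.2.2.2.2.2.2.2.1
theorem m2_133 : chkI C 2 133 = true := all_M5.2.2.2.2.2.2.2.2.2.2.2.2.2.2.2.2.2.2.2.2.2.2.1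
theorem m2_148 : chkI C 2 148 = true := all_M5.2.2.2.2.2.2.2.2.2.2.2.2.2.2.2.2.2.2.2.2.2.2.2.1
theorem m3_57 : chkI C 3 57 = true := all_M5.2.2.2.2.2.2.2.2.2.2.2.2.2.2.2.2.2.2.2.2.2.2.2.2.1
theorem m3_97 : chkI C 3 97 = true := all_M5.2.2.2.2.2.2.2.2.2.2.2.2.2.2.2.2.2.2.2.2.2.2.2.2.2.1
theorem m3_113 : chkI C 3 113 = true := all_M5.2.2.2.2.2.2.2.2.2.2.2.2.2.2.2.2.2.2.2.2.2.2.2.2.2.2.1
theorem m4_8 : chkI C 4 8 = true := all_M5.2.2.2.2.2.2.2.2.2.2.2.2.2.2.2.2.2.2.2.2.2.2.2.2.2.2.2.1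
theorem m4_50 : chkI C 4 50 = true := all_M5.2.2.2.2.2.2.2.2.2.2.2.2.2.2.2.2.2.2.2.2.2.2.2.2.2.2.2.2.1
theorem m4_52 : chkI C 4 52 = true := all_M5.2.2.2.2.2.2.2.2.2.2.2.2.2.2.2.2.2.2.2.2.2.2.2.2.2.2.2.2.2.1
theorem m4_88 : chkI C 4 88 = true := all_M5.2.2.2.2.2.2.2.2.2.2.2.2.2.2.2.2.2.2.2.2.2.2.2.2.2.2.2.2.2.2.1
theorem m6_20 : chkI C 6 20 = true := all_M5.2.2.2.2.2.2.2.2.2.2.2.2.2.2.2.2.2.2.2.2.2.2.2.2.2.2.2.2.2.2.2.1
theorem m7_3 : chkI C 7 3 = true := all_M5.2.2.2.2.2.2.2.2.2.2.2.2.2.2.2.2.2.2.2.2.2.2.2.2.2.2.2.2.2.2.2.2.1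
theorem m8_10 : chkI C 8 10 = true := all_M5.2.2.2.2.2.2.2.2.2.2.2.2.2.2.2.2.2.2.2.2.2.2.2.2.2.2.2.2.2.2.2.2.2

end Pool.Agent.AKU6.VZ476
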