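import Pool.Agent.AKU6.VZ476.C

set_option autoImplicit false
set_option maxRecDepth 1000000

namespace Pool.Agent.AKU6.VZ476

open Pool.Agent.AKY Pool.Agent.AKU5

theorem all_M6 :
    chkI C 0 14 = true ∧
    chkI C 0 33 = true ∧
    chkI C 0 83 = true ∧
    chkI C 0 103 = true ∧
    chkI C 0 104 = true ∧
    chkI C 0 218 = true ∧
    chkI C 0 228 = true ∧
    chkI C 1 9 = true ∧
    chkI C 1 23 = true ∧
    chkI C 1 43 = true ∧
    chkI C 1 86 = true ∧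
    chkI C 1 99 = true ∧
    chkI C 1 101 = true ∧
    chkI C 1 146 = true ∧
    chkI C 1 183 = true ∧
    chkI C 2 42 = true ∧
    chkI C 2 54 = true ∧
    chkI C 2 71 = true ∧
    chkI C 2 96 = true ∧
    chkI C 2 110 = true ∧
    chkI C 3 17 = true ∧
    chkI C 3 26 = true ∧
    chkI C 3 56 = true ∧
    chkI C 3 96 = true ∧
    chkI C 3 125 = true ∧
    chkI C 4 17 = true ∧
    chkI C 4 19 = true ∧
    chkI C 4 76 = true ∧
    chkI C 5 29 = true ∧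
    chkI C 5 33 = true ∧
    chkI C 5 43 = true ∧
    chkI C 7 12 = true ∧
    chkI C 8 3 = true :=
  ⟨by decide +kernel, by decide +kernel, by decide +kernel,
   by decide +kernel, by decide +kernel, by decide +kernel,
   by decide +kernel, by decide +kernel, by decide +kernel,
   by decide +kernel, by decide +kernel, by decide +kernel,
   by decide +kernel, by decide +kernel, by decide +kernel,
   by decide +kernel, by decide +kernel, by decide +kernel,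
   by decide +kernel, by decide +kernel, by decide +kernel,
   by decide +kernel, by decide +kernel, by decide +kernel,
   by decide +kernel, by decide +kernel, by decide +kernel,
   by decide +kernel, by decide +kernel, by decide +kernel,
   by decide +kernel, by decide +kernel, by decide +kernel⟩

theorem m0_14 : chkI C 0 14 = true := all_M6.1
theorem m0_33 : chkI C 0 33 = true := all_M6.2.1
theorem m0_83 : chkI C 0 83 = true := all_M6.2.2.1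
theorem m0_103 : chkI C 0 103 = true := all_M6.2.2.2.1
theorem m0_104 : chkI C 0 104 = true := all_M6.2.2.2.2.1
theorem m0_218 : chkI C 0 218 = true := all_M6.2.2.2.2.2.1
theorem m0_228 : chkI C 0 228 = true := all_M6.2.2.2.2.2.2.1
theorem m1_9 : chkI C 1 9 = true := all_M6.2.2.2.2.2.2.2.1
theorem m1_23 : chkI C 1 23 = true := all_M6.2.2.2.2.2.2.2.2.1
theorem m1_43 : chkI C 1 43 = true := all_M6.2.2.2.2.2.2.2.2.2.1
theorem m1_86 : chkI C 1 86 = true := all_M6.2.2.2.2.2.2.2.2.2.2.1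
theorem m1_99 : chkI C 1 99 = true := all_M6.2.2.2.2.2.2.2.2.2.2.2.1
theorem m1_101 : chkI C 1 101 = true := all_M6.2.2.2.2.2.2.2.2.2.2.2.2.1
theorem m1_146 : chkI C 1 146 = true := all_M6.2.2.2.2.2.2.2.2.2.2.2.2.2.1
theorem m1_183 : chkI C 1 183 = true := all_M6.2.2.2.2.2.2.2.2.2.2.2.2.2.2.1
theorem m2_42 : chkI C 2 42 = true := all_M6.2.2.2.2.2.2.2.2.2.2.2.2.2.2.2.1
theorem m2_54 : chkI C 2 54 = true := all_M6.2.2.2.2.2.2.2.2.2.2.2.2.2.2.2.2.1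
theorem m2_71 : chkI C 2 71 = true := all_M6.2.2.2.2.2.2.2.2.2.2.2.2.2.2.2.2.2.1
theorem m2_96 : chkI C 2 96 = true := all_M6.2.2.2.2.2.2.2.2.2.2.2.2.2.2.2.2.2.2.1
theorem m2_110 : chkI C 2 110 = true := all_M6.2.2.2.2.2.2.2.2.2.2.2.2.2.2.2.2.2.2.2.1
theorem m3_17 : chkI C 3 17 = true := all_M6.2.2.2.2.2.2.2.2.2.2.2.2.2.2.2.2.2.2.2.2.1
theorem m3_26 : chkI C 3 26 = true := all_M6.2.2.2.2.2.2.2.2.2.2.2.2.2.2.2.2.2.2.2.2.2.1
theorem m3_56 : chkI C 3 56 = true := all_M6.2.2.2.2.2.2.2.2.2.2.2.2.2.2.2.2.2.2.2.2.2.2.1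
theorem m3_96 : chkI C 3 96 = true := all_M6.2.2.2.2.2.2.2.2.2.2.2.2.2.2.2.2.2.2.2.2.2.2.2.1
theorem m3_125 : chkI C 3 125 = true := all_M6.2.2.2.2.2.2.2.2.2.2.2.2.2.2.2.2.2.2.2.2.2.2.2.2.1
theorem m4_17 : chkI C 4 17 = true := all_M6.2.2.2.2.2.2.2.2.2.2.2.2.2.2.2.2.2.2.2.2.2.2.2.2.2.1
theorem m4_19 : chkI C 4 19 = true := all_M6.2.2.2.2.2.2.2.2.2.2.2.2.2.2.2.2.2.2.2.2.2.2.2.2.2.2.1
theorem m4_76 : chkI C 4 76 = true := all_M6.2.2.2.2.2.2.2.2.2.2.2.2.2.2.2.2.2.2.2.2.2.2.2.2.2.2.2.1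
theorem m5_29 : chkI C 5 29 = true := all_M6.2.2.2.2.2.2.2.2.2.2.2.2.2.2.2.2.2.2.2.2.2.2.2.2.2.2.2.2.1
theorem m5_33 : chkI C 5 33 = true := all_M6.2.2.2.2.2.2.2.2.2.2.2.2.2.2.2.2.2.2.2.2.2.2.2.2.2.2.2.2.2.1
theorem m5_43 : chkI C 5 43 = true := all_M6.2.2.2.2.2.2.2.2.2.2.2.2.2.2.2.2.2.2.2.2.2.2.2.2.2.2.2.2.2.2.1
theorem m7_12 : chkI C 7 12 = true := all_M6.2.2.2.2.2.2.2.2.2.2.2.2.2.2.2.2.2.2.2.2.2.2.2.2.2.2.2.2.2.2.2.1
theorem m8_3 : chkI C 8 3 = true := all_M6.2.2.2.2.2.2.2.2.2.2.2.2.2.2.2.2.2.2.2.2.2.2.2.2.2.2.2.2.2.2.2.2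

end Pool.Agent.AKU6.VZ476
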