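import Pool.Agent.AKU6.VZ476.C

set_option autoImplicit false
set_option maxRecDepth 1000000

namespace Pool.Agent.AKU6.VZ476

open Pool.Agent.AKY Pool.Agent.AKU5

theorem all_M7 :
    chkI C 0 41 = true ∧
    chkI C 0 47 = true ∧
    chkI C 0 79 = true ∧
    chkI C 0 86 = true ∧
    chkI C 0 201 = true ∧
    chkI C 0 208 = true ∧
    chkI C 0 214 = true ∧
    chkI C 0 257 = true ∧
    chkI C 1 6 = true ∧
    chkI C 1 71 = true ∧
    chkI C 1 87 = true ∧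
    chkI C 1 125 = true ∧
    chkI C 1 144 = true ∧
    chkI C 1 173 = true ∧
    chkI C 1 184 = true ∧
    chkI C 1 193 = true ∧
    chkI C 1 202 = true ∧
    chkI C 2 13 = true ∧
    chkI C 2 46 = true ∧
    chkI C 2 95 = true ∧
    chkI C 2 122 = true ∧
    chkI C 2 123 = true ∧
    chkI C 2 128 = true ∧
    chkI C 3 0 = true ∧
    chkI C 3 102 = true ∧
    chkI C 4 27 = true ∧
    chkI C 4 40 = true ∧
    chkI C 4 49 = true ∧
    chkI C 4 51 = true ∧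
    chkI C 4 79 = true ∧
    chkI C 5 40 = true ∧
    chkI C 5 41 = true ∧
    chkI C 10 15 = true ∧
    chkI C 11 2 = true :=
  ⟨by decide +kernel, by decide +kernel, by decide +kernel,
   by decide +kernel, by decide +kernel, by decide +kernel,
   by decide +kernel, by decide +kernel, by decide +kernel,
   by decide +kernel, by decide +kernel, by decide +kernel,
   by decide +kernel, by decide +kernel, by decide +kernel,
   by decide +kernel, by decide +kernel, by decide +kernel,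
   by decide +kernel, by decide +kernel, by decide +kernel,
   by decide +kernel, by decide +kernel, by decide +kernel,
   by decide +kernel, by decide +kernel, by decide +kernel,
   by decide +kernel, by decide +kernel, by decide +kernel,
   by decide +kernel, by decide +kernel, by decide +kernel,
   by decide +kernel⟩

theorem m0_41 : chkI C 0 41 = true := all_M7.1
theorem m0_47 : chkI C 0 47 = true := all_M7.2.1
theorem m0_79 : chkI C 0 79 = true := all_M7.2.2.1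
theorem m0_86 : chkI C 0 86 = true := all_M7.2.2.2.1
theorem m0_201 : chkI C 0 201 = true := all_M7.2.2.2.2.1
theorem m0_208 : chkI C 0 208 = true := all_M7.2.2.2.2.2.1
theorem m0_214 : chkI C 0 214 = true := all_M7.2.2.2.2.2.2.1
theorem m0_257 : chkI C 0 257 = true := all_M7.2.2.2.2.2.2.2.1
theorem m1_6 : chkI C 1 6 = true := all_M7.2.2.2.2.2.2.2.2.1
theorem m1_71 : chkI C 1 71 = true := all_M7.2.2.2.2.2.2.2.2.2.1
theorem m1_87 : chkI C 1 87 = true := all_M7.2.2.2.2.2.2.2.2.2.2.1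
theorem m1_125 : chkI C 1 125 = true := all_M7.2.2.2.2.2.2.2.2.2.2.2.1
theorem m1_144 : chkI C 1 144 = true := all_M7.2.2.2.2.2.2.2.2.2.2.2.2.1
theorem m1_173 : chkI C 1 173 = true := all_M7.2.2.2.2.2.2.2.2.2.2.2.2.2.1
theorem m1_184 : chkI C 1 184 = true := all_M7.2.2.2.2.2.2.2.2.2.2.2.2.2.2.1
theorem m1_193 : chkI C 1 193 = true := all_M7.2.2.2.2.2.2.2.2.2.2.2.2.2.2.2.1
theorem m1_202 : chkI C 1 202 = true := all_M7.2.2.2.2.2.2.2.2.2.2.2.2.2.2.2.2.1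
theorem m2_13 : chkI C 2 13 = true := all_M7.2.2.2.2.2.2.2.2.2.2.2.2.2.2.2.2.2.1
theorem m2_46 : chkI C 2 46 = true := all_M7.2.2.2.2.2.2.2.2.2.2.2.2.2.2.2.2.2.2.1
theorem m2_95 : chkI C 2 95 = true := all_M7.2.2.2.2.2.2.2.2.2.2.2.2.2.2.2.2.2.2.2.1
theorem m2_122 : chkI C 2 122 = true := all_M7.2.2.2.2.2.2.2.2.2.2.2.2.2.2.2.2.2.2.2.2.1
theorem m2_123 : chkI C 2 123 = true := all_M7.2.2.2.2.2.2.2.2.2.2.2.2.2.2.2.2.2.2.2.2.2.1
theorem m2_128 : chkI C 2 128 = true := all_M7.2.2.2.2.2.2.2.2.2.2.2.2.2.2.2.2.2.2.2.2.2.2.1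
theorem m3_0 : chkI C 3 0 = true := all_M7.2.2.2.2.2.2.2.2.2.2.2.2.2.2.2.2.2.2.2.2.2.2.2.1
theorem m3_102 : chkI C 3 102 = true := all_M7.2.2.2.2.2.2.2.2.2.2.2.2.2.2.2.2.2.2.2.2.2.2.2.2.1
theorem m4_27 : chkI C 4 27 = true := all_M7.2.2.2.2.2.2.2.2.2.2.2.2.2.2.2.2.2.2.2.2.2.2.2.2.2.1
theorem m4_40 : chkI C 4 40 = true := all_M7.2.2.2.2.2.2.2.2.2.2.2.2.2.2.2.2.2.2.2.2.2.2.2.2.2.2.1
theorem m4_49 : chkI C 4 49 = true := all_M7.2.2.2.2.2.2.2.2.2.2.2.2.2.2.2.2.2.2.2.2.2.2.2.2.2.2.2.1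
theorem m4_51 : chkI C 4 51 = true := all_M7.2.2.2.2.2.2.2.2.2.2.2.2.2.2.2.2.2.2.2.2.2.2.2.2.2.2.2.2.1
theorem m4_79 : chkI C 4 79 = true := all_M7.2.2.2.2.2.2.2.2.2.2.2.2.2.2.2.2.2.2.2.2.2.2.2.2.2.2.2.2.2.1
theorem m5_40 : chkI C 5 40 = true := all_M7.2.2.2.2.2.2.2.2.2.2.2.2.2.2.2.2.2.2.2.2.2.2.2.2.2.2.2.2.2.2.1
theorem m5_41 : chkI C 5 41 = true := all_M7.2.2.2.2.2.2.2.2.2.2.2.2.2.2.2.2.2.2.2.2.2.2.2.2.2.2.2.2.2.2.2.1
theorem m10_15 : chkI C 10 15 = true := all_M7.2.2.2.2.2.2.2.2.2.2.2.2.2.2.2.2.2.2.2.2.2.2.2.2.2.2.2.2.2.2.2.2.1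
theorem m11_2 : chkI C 11 2 = true := all_M7.2.2.2.2.2.2.2.2.2.2.2.2.2.2.2.2.2.2.2.2.2.2.2.2.2.2.2.2.2.2.2.2.2

end Pool.Agent.AKU6.VZ476
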