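import Pool.Agent.AKU6.VZ476.C

set_option autoImplicit false
set_option maxRecDepth 1000000

namespace Pool.Agent.AKU6.VZ476

open Pool.Agent.AKY Pool.Agent.AKU5

theorem all_M8 :
    chkI C 0 17 = true ∧
    chkI C 0 42 = true ∧
    chkI C 0 68 = true ∧
    chkI C 0 122 = true ∧
    chkI C 0 124 = true ∧
    chkI C 0 128 = true ∧
    chkI C 0 136 = true ∧
    chkI C 0 167 = true ∧
    chkI C 0 211 = true ∧
    chkI C 0 290 = true ∧
    chkI C 0 308 = true ∧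
    chkI C 1 75 = true ∧
    chkI C 1 118 = true ∧
    chkI C 1 151 = true ∧
    chkI C 1 164 = true ∧
    chkI C 1 171 = true ∧
    chkI C 1 179 = true ∧
    chkI C 1 186 = true ∧
    chkI C 1 200 = true ∧
    chkI C 1 206 = true ∧
    chkI C 2 6 = true ∧
    chkI C 2 34 = true ∧
    chkI C 2 45 = true ∧
    chkI C 2 99 = true ∧
    chkI C 2 139 = true ∧
    chkI C 3 95 = true ∧
    chkI C 3 109 = true ∧
    chkI C 5 2 = true ∧
    chkI C 5 15 = true ∧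
    chkI C 5 44 = true ∧
    chkI C 6 3 = true ∧
    chkI C 6 25 = true ∧
    chkI C 8 5 = true :=
  ⟨by decide +kernel, by decide +kernel, by decide +kernel,
   by decide +kernel, by decide +kernel, by decide +kernel,
   by decide +kernel, by decide +kernel, by decide +kernel,
   by decide +kernel, by decide +kernel, by decide +kernel,
   by decide +kernel, by decide +kernel, by decide +kernel,
   by decide +kernel, by decide +kernel, by decide +kernel,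
   by decide +kernel, by decide +kernel, by decide +kernel,
   by decide +kernel, by decide +kernel, by decide +kernel,
   by decide +kernel, by decide +kernel, by decide +kernel,
   by decide +kernel, by decide +kernel, by decide +kernel,
   by decide +kernel, by decide +kernel, by decide +kernel⟩

theorem m0_17 : chkI C 0 17 = true := all_M8.1
theorem m0_42 : chkI C 0 42 = true := all_M8.2.1
theorem m0_68 : chkI C 0 68 = true := all_M8.2.2.1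
theorem m0_122 : chkI C 0 122 = true := all_M8.2.2.2.1
theorem m0_124 : chkI C 0 124 = true := all_M8.2.2.2.2.1
theorem m0_128 : chkI C 0 128 = true := all_M8.2.2.2.2.2.1
theorem m0_136 : chkI C 0 136 = true := all_M8.2.2.2.2.2.2.1
theorem m0_167 : chkI C 0 167 = true := all_M8.2.2.2.2.2.2.2.1
theorem m0_211 : chkI C 0 211 = true := all_M8.2.2.2.2.2.2.2.2.1
theorem m0_290 : chkI C 0 290 = true := all_M8.2.2.2.2.2.2.2.2.2.1
theorem m0_308 : chkI C 0 308 = true := all_M8.2.2.2.2.2.2.2.2.2.2.1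
theorem m1_75 : chkI C 1 75 = true := all_M8.2.2.2.2.2.2.2.2.2.2.2.1
theorem m1_118 : chkI C 1 118 = true := all_M8.2.2.2.2.2.2.2.2.2.2.2.2.1
theorem m1_151 : chkI C 1 151 = true := all_M8.2.2.2.2.2.2.2.2.2.2.2.2.2.1
theorem m1_164 : chkI C 1 164 = true := all_M8.2.2.2.2.2.2.2.2.2.2.2.2.2.2.1
theorem m1_171 : chkI C 1 171 = true := all_M8.2.2.2.2.2.2.2.2.2.2.2.2.2.2.2.1
theorem m1_179 : chkI C 1 179 = true := all_M8.2.2.2.2.2.2.2.2.2.2.2.2.2.2.2.2.1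
theorem m1_186 : chkI C 1 186 = true := all_M8.2.2.2.2.2.2.2.2.2.2.2.2.2.2.2.2.2.1
theorem m1_200 : chkI C 1 200 = true := all_M8.2.2.2.2.2.2.2.2.2.2.2.2.2.2.2.2.2.2.1
theorem m1_206 : chkI C 1 206 = true := all_M8.2.2.2.2.2.2.2.2.2.2.2.2.2.2.2.2.2.2.2.1
theorem m2_6 : chkI C 2 6 = true := all_M8.2.2.2.2.2.2.2.2.2.2.2.2.2.2.2.2.2.2.2.2.1
theorem m2_34 : chkI C 2 34 = true := all_M8.2.2.2.2.2.2.2.2.2.2.2.2.2.2.2.2.2.2.2.2.2.1
theorem m2_45 : chkI C 2 45 = true := all_M8.2.2.2.2.2.2.2.2.2.2.2.2.2.2.2.2.2.2.2.2.2.2.1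
theorem m2_99 : chkI C 2 99 = true := all_M8.2.2.2.2.2.2.2.2.2.2.2.2.2.2.2.2.2.2.2.2.2.2.2.1
theorem m2_139 : chkI C 2 139 = true := all_M8.2.2.2.2.2.2.2.2.2.2.2.2.2.2.2.2.2.2.2.2.2.2.2.2.1
theorem m3_95 : chkI C 3 95 = true := all_M8.2.2.2.2.2.2.2.2.2.2.2.2.2.2.2.2.2.2.2.2.2.2.2.2.2.1
theorem m3_109 : chkI C 3 109 = true := all_M8.2.2.2.2.2.2.2.2.2.2.2.2.2.2.2.2.2.2.2.2.2.2.2.2.2.2.1
theorem m5_2 : chkI C 5 2 = true := all_M8.2.2.2.2.2.2.2.2.2.2.2.2.2.2.2.2.2.2.2.2.2.2.2.2.2.2.2.1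
theorem m5_15 : chkI C 5 15 = true := all_M8.2.2.2.2.2.2.2.2.2.2.2.2.2.2.2.2.2.2.2.2.2.2.2.2.2.2.2.2.1
theorem m5_44 : chkI C 5 44 = true := all_M8.2.2.2.2.2.2.2.2.2.2.2.2.2.2.2.2.2.2.2.2.2.2.2.2.2.2.2.2.2.1
theorem m6_3 : chkI C 6 3 = true := all_M8.2.2.2.2.2.2.2.2.2.2.2.2.2.2.2.2.2.2.2.2.2.2.2.2.2.2.2.2.2.2.1
theorem m6_25 : chkI C 6 25 = true := all_M8.2.2.2.2.2.2.2.2.2.2.2.2.2.2.2.2.2.2.2.2.2.2.2.2.2.2.2.2.2.2.2.1
theorem m8_5 : chkI C 8 5 = true := all_M8.2.2.2.2.2.2.2.2.2.2.2.2.2.2.2.2.2.2.2.2.2.2.2.2.2.2.2.2.2.2.2.2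

end Pool.Agent.AKU6.VZ476
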