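import Pool.Agent.AKU6.VZ476.C

set_option autoImplicit false
set_option maxRecDepth 1000000

namespace Pool.Agent.AKU6.VZ476

open Pool.Agent.AKY Pool.Agent.AKU5

theorem all_M9 :
    chkI C 0 7 = true ∧
    chkI C 0 34 = true ∧
    chkI C 0 71 = true ∧
    chkI C 0 137 = true ∧
    chkI C 0 174 = true ∧
    chkI C 0 206 = true ∧
    chkI C 0 210 = true ∧
    chkI C 0 225 = true ∧
    chkI C 0 226 = true ∧
    chkI C 0 233 = true ∧
    chkI C 0 298 = true ∧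
    chkI C 0 317 = true ∧
    chkI C 1 16 = true ∧
    chkI C 1 18 = true ∧
    chkI C 1 48 = true ∧
    chkI C 1 201 = true ∧
    chkI C 2 4 = true ∧
    chkI C 2 19 = true ∧
    chkI C 2 32 = true ∧
    chkI C 2 109 = true ∧
    chkI C 3 4 = true ∧
    chkI C 3 45 = true ∧
    chkI C 3 55 = true ∧
    chkI C 3 101 = true ∧
    chkI C 3 114 = true ∧
    chkI C 4 1 = true ∧
    chkI C 4 26 = true ∧
    chkI C 4 45 = true ∧
    chkI C 5 0 = true ∧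
    chkI C 5 30 = true ∧
    chkI C 5 48 = true ∧
    chkI C 6 6 = true ∧
    chkI C 8 4 = true :=
  ⟨by decide +kernel, by decide +kernel, by decide +kernel,
   by decide +kernel, by decide +kernel, by decide +kernel,
   by decide +kernel, by decide +kernel, by decide +kernel,
   by decide +kernel, by decide +kernel, by decide +kernel,
   by decide +kernel, by decide +kernel, by decide +kernel,
   by decide +kernel, by decide +kernel, by decide +kernel,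
   by decide +kernel, by decide +kernel, by decide +kernel,
   by decide +kernel, by decide +kernel, by decide +kernel,
   by decide +kernel, by decide +kernel, by decide +kernel,
   by decide +kernel, by decide +kernel, by decide +kernel,
   by decide +kernel, by decide +kernel, by decide +kernel⟩

theorem m0_7 : chkI C 0 7 = true := all_M9.1
theorem m0_34 : chkI C 0 34 = true := all_M9.2.1
theorem m0_71 : chkI C 0 71 = true := all_M9.2.2.1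
theorem m0_137 : chkI C 0 137 = true := all_M9.2.2.2.1
theorem m0_174 : chkI C 0 174 = true := all_M9.2.2.2.2.1
theorem m0_206 : chkI C 0 206 = true := all_M9.2.2.2.2.2.1
theorem m0_210 : chkI C 0 210 = true := all_M9.2.2.2.2.2.2.1
theorem m0_225 : chkI C 0 225 = true := all_M9.2.2.2.2.2.2.2.1
theorem m0_226 : chkI C 0 226 = true := all_M9.2.2.2.2.2.2.2.2.1
theorem m0_233 : chkI C 0 233 = true := all_M9.2.2.2.2.2.2.2.2.2.1
theorem m0_298 : chkI C 0 298 = true := all_M9.2.2.2.2.2.2.2.2.2.2.1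
theorem m0_317 : chkI C 0 317 = true := all_M9.2.2.2.2.2.2.2.2.2.2.2.1
theorem m1_16 : chkI C 1 16 = true := all_M9.2.2.2.2.2.2.2.2.2.2.2.2.1
theorem m1_18 : chkI C 1 18 = true := all_M9.2.2.2.2.2.2.2.2.2.2.2.2.2.1
theorem m1_48 : chkI C 1 48 = true := all_M9.2.2.2.2.2.2.2.2.2.2.2.2.2.2.1
theorem m1_201 : chkI C 1 201 = true := all_M9.2.2.2.2.2.2.2.2.2.2.2.2.2.2.2.1
theorem m2_4 : chkI C 2 4 = true := all_M9.2.2.2.2.2.2.2.2.2.2.2.2.2.2.2.2.1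
theorem m2_19 : chkI C 2 19 = true := all_M9.2.2.2.2.2.2.2.2.2.2.2.2.2.2.2.2.2.1
theorem m2_32 : chkI C 2 32 = true := all_M9.2.2.2.2.2.2.2.2.2.2.2.2.2.2.2.2.2.2.1
theorem m2_109 : chkI C 2 109 = true := all_M9.2.2.2.2.2.2.2.2.2.2.2.2.2.2.2.2.2.2.2.1
theorem m3_4 : chkI C 3 4 = true := all_M9.2.2.2.2.2.2.2.2.2.2.2.2.2.2.2.2.2.2.2.2.1
theorem m3_45 : chkI C 3 45 = true := all_M9.2.2.2.2.2.2.2.2.2.2.2.2.2.2.2.2.2.2.2.2.2.1
theorem m3_55 : chkI C 3 55 = true := all_M9.2.2.2.2.2.2.2.2.2.2.2.2.2.2.2.2.2.2.2.2.2.2.1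
theorem m3_101 : chkI C 3 101 = true := all_M9.2.2.2.2.2.2.2.2.2.2.2.2.2.2.2.2.2.2.2.2.2.2.2.1
theorem m3_114 : chkI C 3 114 = true := all_M9.2.2.2.2.2.2.2.2.2.2.2.2.2.2.2.2.2.2.2.2.2.2.2.2.1
theorem m4_1 : chkI C 4 1 = true := all_M9.2.2.2.2.2.2.2.2.2.2.2.2.2.2.2.2.2.2.2.2.2.2.2.2.2.1
theorem m4_26 : chkI C 4 26 = true := all_M9.2.2.2.2.2.2.2.2.2.2.2.2.2.2.2.2.2.2.2.2.2.2.2.2.2.2.1
theorem m4_45 : chkI C 4 45 = true := all_M9.2.2.2.2.2.2.2.2.2.2.2.2.2.2.2.2.2.2.2.2.2.2.2.2.2.2.2.1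
theorem m5_0 : chkI C 5 0 = true := all_M9.2.2.2.2.2.2.2.2.2.2.2.2.2.2.2.2.2.2.2.2.2.2.2.2.2.2.2.2.1
theorem m5_30 : chkI C 5 30 = true := all_M9.2.2.2.2.2.2.2.2.2.2.2.2.2.2.2.2.2.2.2.2.2.2.2.2.2.2.2.2.2.1
theorem m5_48 : chkI C 5 48 = true := all_M9.2.2.2.2.2.2.2.2.2.2.2.2.2.2.2.2.2.2.2.2.2.2.2.2.2.2.2.2.2.2.1
theorem m6_6 : chkI C 6 6 = true := all_M9.2.2.2.2.2.2.2.2.2.2.2.2.2.2.2.2.2.2.2.2.2.2.2.2.2.2.2.2.2.2.2.1
theorem m8_4 : chkI C 8 4 = true := all_M9.2.2.2.2.2.2.2.2.2.2.2.2.2.2.2.2.2.2.2.2.2.2.2.2.2.2.2.2.2.2.2.2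

end Pool.Agent.AKU6.VZ476
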