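import Pool.Agent.AKU6.VZ476.C

set_option autoImplicit false
set_option maxRecDepth 1000000

namespace Pool.Agent.AKU6.VZ476

open Pool.Agent.AKY Pool.Agent.AKU5

theorem all_S0 :
    okS C 14 6 = true ∧
    okS C 8 5 = true ∧
    okS C 9 3 = true ∧
    okS C 5 3 = true ∧
    okS C 2 4 = true ∧
    okS C 1 5 = true :=
  ⟨by decide +kernel, by decide +kernel, by decide +kernel,
   by decide +kernel, by decide +kernel, by decide +kernel⟩

theorem s14_6 : okS C 14 6 = true := all_S0.1
theorem s8_5 : okS C 8 5 = true := all_S0.2.1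
theorem s9_3 : okS C 9 3 = true := all_S0.2.2.1
theorem s5_3 : okS C 5 3 = true := all_S0.2.2.2.1
theorem s2_4 : okS C 2 4 = true := all_S0.2.2.2.2.1
theorem s1_5 : okS C 1 5 = true := all_S0.2.2.2.2.2

end Pool.Agent.AKU6.VZ476
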