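import Pool.Agent.AKU6.VZ476.C

set_option autoImplicit false
set_option maxRecDepth 1000000

namespace Pool.Agent.AKU6.VZ476

open Pool.Agent.AKY Pool.Agent.AKU5

theorem all_S13 :
    okS C 13 0 = true ∧
    okS C 10 2 = true ∧
    okS C 7 0 = true ∧
    okS C 9 5 = true ∧
    okS C 4 4 = true ∧
    okS C 3 5 = true :=
  ⟨by decide +kernel, by decide +kernel, by decide +kernel,
   by decide +kernel, by decide +kernel, by decide +kernel⟩

theorem s13_0 : okS C 13 0 = true := all_S13.1
theorem s10_2 : okS C 10 2 = true := all_S13.2.1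
theorem s7_0 : okS C 7 0 = true := all_S13.2.2.1
theorem s9_5 : okS C 9 5 = true := all_S13.2.2.2.1
theorem s4_4 : okS C 4 4 = true := all_S13.2.2.2.2.1
theorem s3_5 : okS C 3 5 = true := all_S13.2.2.2.2.2

end Pool.Agent.AKU6.VZ476
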