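import Pool.Agent.AKU6.VZ476.C

set_option autoImplicit false
set_option maxRecDepth 1000000

namespace Pool.Agent.AKU6.VZ476

open Pool.Agent.AKY Pool.Agent.AKU5

theorem all_S3 :
    okS C 14 3 = true ∧
    okS C 8 2 = true ∧
    okS C 9 0 = true ∧
    okS C 5 0 = true ∧
    okS C 2 1 = true ∧
    okS C 12 7 = true ∧
    okS C 12 6 = true ∧
    okS C 10 7 = true ∧
    okS C 9 7 = true ∧
    okS C 9 6 = true ∧
    okS C 8 7 = true ∧
    okS C 7 7 = true ∧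
    okS C 7 6 = true ∧
    okS C 6 7 = true ∧
    okS C 6 6 = true ∧
    okS C 5 7 = true ∧
    okS C 5 6 = true ∧
    okS C 4 7 = true ∧
    okS C 4 6 = true ∧
    okS C 3 7 = true ∧
    okS C 3 6 = true ∧
    okS C 2 7 = true ∧
    okS C 2 6 = true ∧
    okS C 1 7 = true ∧
    okS C 1 6 = true ∧
    okS C 0 7 = true ∧
    okS C 0 6 = true ∧
    okS C 0 5 = true :=
  ⟨by decide +kernel, by decide +kernel, by decide +kernel,
   by decide +kernel, by decide +kernel, by decide +kernel,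
   by decide +kernel, by decide +kernel, by decide +kernel,
   by decide +kernel, by decide +kernel, by decide +kernel,
   by decide +kernel, by decide +kernel, by decide +kernel,
   by decide +kernel, by decide +kernel, by decide +kernel,
   by decide +kernel, by decide +kernel, by decide +kernel,
   by decide +kernel, by decide +kernel, by decide +kernel,
   by decide +kernel, by decide +kernel, by decide +kernel,
   by decide +kernel⟩

theorem s14_3 : okS C 14 3 = true := all_S3.1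
theorem s8_2 : okS C 8 2 = true := all_S3.2.1
theorem s9_0 : okS C 9 0 = true := all_S3.2.2.1
theorem s5_0 : okS C 5 0 = true := all_S3.2.2.2.1
theorem s2_1 : okS C 2 1 = true := all_S3.2.2.2.2.1
theorem s12_7 : okS C 12 7 = true := all_S3.2.2.2.2.2.1
theorem s12_6 : okS C 12 6 = true := all_S3.2.2.2.2.2.2.1
theorem s10_7 : okS C 10 7 = true := all_S3.2.2.2.2.2.2.2.1
theorem s9_7 : okS C 9 7 = true := all_S3.2.2.2.2.2.2.2.2.1
theorem s9_6 : okS C 9 6 = true := all_S3.2.2.2.2.2.2.2.2.2.1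
theorem s8_7 : okS C 8 7 = true := all_S3.2.2.2.2.2.2.2.2.2.2.1
theorem s7_7 : okS C 7 7 = true := all_S3.2.2.2.2.2.2.2.2.2.2.2.1
theorem s7_6 : okS C 7 6 = true := all_S3.2.2.2.2.2.2.2.2.2.2.2.2.1
theorem s6_7 : okS C 6 7 = true := all_S3.2.2.2.2.2.2.2.2.2.2.2.2.2.1
theorem s6_6 : okS C 6 6 = true := all_S3.2.2.2.2.2.2.2.2.2.2.2.2.2.2.1
theorem s5_7 : okS C 5 7 = true := all_S3.2.2.2.2.2.2.2.2.2.2.2.2.2.2.2.1
theorem s5_6 : okS C 5 6 = true := all_S3.2.2.2.2.2.2.2.2.2.2.2.2.2.2.2.2.1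
theorem s4_7 : okS C 4 7 = true := all_S3.2.2.2.2.2.2.2.2.2.2.2.2.2.2.2.2.2.1
theorem s4_6 : okS C 4 6 = true := all_S3.2.2.2.2.2.2.2.2.2.2.2.2.2.2.2.2.2.2.1
theorem s3_7 : okS C 3 7 = true := all_S3.2.2.2.2.2.2.2.2.2.2.2.2.2.2.2.2.2.2.2.1
theorem s3_6 : okS C 3 6 = true := all_S3.2.2.2.2.2.2.2.2.2.2.2.2.2.2.2.2.2.2.2.2.1
theorem s2_7 : okS C 2 7 = true := all_S3.2.2.2.2.2.2.2.2.2.2.2.2.2.2.2.2.2.2.2.2.2.1
theorem s2_6 : okS C 2 6 = true := all_S3.2.2.2.2.2.2.2.2.2.2.2.2.2.2.2.2.2.2.2.2.2.2.1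
theorem s1_7 : okS C 1 7 = true := all_S3.2.2.2.2.2.2.2.2.2.2.2.2.2.2.2.2.2.2.2.2.2.2.2.1
theorem s1_6 : okS C 1 6 = true := all_S3.2.2.2.2.2.2.2.2.2.2.2.2.2.2.2.2.2.2.2.2.2.2.2.2.1
theorem s0_7 : okS C 0 7 = true := all_S3.2.2.2.2.2.2.2.2.2.2.2.2.2.2.2.2.2.2.2.2.2.2.2.2.2.1
theorem s0_6 : okS C 0 6 = true := all_S3.2.2.2.2.2.2.2.2.2.2.2.2.2.2.2.2.2.2.2.2.2.2.2.2.2.2.1
theorem s0_5 : okS C 0 5 = true := all_S3.2.2.2.2.2.2.2.2.2.2.2.2.2.2.2.2.2.2.2.2.2.2.2.2.2.2.2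

end Pool.Agent.AKU6.VZ476
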