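import Pool.Agent.AKU6.VZ476.C

set_option autoImplicit false
set_option maxRecDepth 1000000

namespace Pool.Agent.AKU6.VZ476

open Pool.Agent.AKY Pool.Agent.AKU5

theorem all_S8 :
    okS C 13 5 = true ∧
    okS C 11 1 = true ∧
    okS C 6 3 = true ∧
    okS C 14 7 = true ∧
    okS C 4 0 = true ∧
    okS C 0 0 = true :=
  ⟨by decide +kernel, by decide +kernel, by decide +kernel,
   by decide +kernel, by decide +kernel, by decide +kernel⟩

theorem s13_5 : okS C 13 5 = true := all_S8.1
theorem s11_1 : okS C 11 1 = true := all_S8.2.1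
theorem s6_3 : okS C 6 3 = true := all_S8.2.2.1
theorem s14_7 : okS C 14 7 = true := all_S8.2.2.2.1
theorem s4_0 : okS C 4 0 = true := all_S8.2.2.2.2.1
theorem s0_0 : okS C 0 0 = true := all_S8.2.2.2.2.2

end Pool.Agent.AKU6.VZ476
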