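import Pool.Agent.AKU6.VZ476.C

set_option autoImplicit false
set_option maxRecDepth 1000000

namespace Pool.Agent.AKU6.VZ476

open Pool.Agent.AKY Pool.Agent.AKU5

theorem all_S9 :
    okS C 13 4 = true ∧
    okS C 11 0 = true ∧
    okS C 6 2 = true ∧
    okS C 3 4 = true ∧
    okS C 6 5 = true ∧
    okS C 2 0 = true :=
  ⟨by decide +kernel, by decide +kernel, by decide +kernel,
   by decide +kernel, by decide +kernel, by decide +kernel⟩

theorem s13_4 : okS C 13 4 = true := all_S9.1
theorem s11_0 : okS C 11 0 = true := all_S9.2.1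
theorem s6_2 : okS C 6 2 = true := all_S9.2.2.1
theorem s3_4 : okS C 3 4 = true := all_S9.2.2.2.1
theorem s6_5 : okS C 6 5 = true := all_S9.2.2.2.2.1
theorem s2_0 : okS C 2 0 = true := all_S9.2.2.2.2.2

end Pool.Agent.AKU6.VZ476
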