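import Pool.Agent.AKU6.En
import Pool.Agent.AKU6.VZ476.K
import Pool.Agent.AKU6.VZ476.F
import Pool.Agent.AKU6.VZ476.S0
import Pool.Agent.AKU6.VZ476.S1
import Pool.Agent.AKU6.VZ476.S2
import Pool.Agent.AKU6.VZ476.S3
import Pool.Agent.AKU6.VZ476.S4
import Pool.Agent.AKU6.VZ476.S5
import Pool.Agent.AKU6.VZ476.S6
import Pool.Agent.AKU6.VZ476.S7
import Pool.Agent.AKU6.VZ476.S8
import Pool.Agent.AKU6.VZ476.S9
import Pool.Agent.AKU6.VZ476.S10
import Pool.Agent.AKU6.VZ476.S11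
import Pool.Agent.AKU6.VZ476.S12
import Pool.Agent.AKU6.VZ476.S13
import Pool.Agent.AKU6.VZ476.S14
import Pool.Agent.AKU6.VZ476.S15
import Pool.Agent.AKU6.VZ476.H0
import Pool.Agent.AKU6.VZ476.H1
import Pool.Agent.AKU6.VZ476.H2
import Pool.Agent.AKU6.VZ476.H3
import Pool.Agent.AKU6.VZ476.H4
import Pool.Agent.AKU6.VZ476.H5
import Pool.Agent.AKU6.VZ476.H6
import Pool.Agent.AKU6.VZ476.H7
import Pool.Agent.AKU6.VZ476.M0
import Pool.Agent.AKU6.VZ476.M1
import Pool.Agent.AKU6.VZ476.M2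
import Pool.Agent.AKU6.VZ476.M3
import Pool.Agent.AKU6.VZ476.M4
import Pool.Agent.AKU6.VZ476.M5
import Pool.Agent.AKU6.VZ476.M6
import Pool.Agent.AKU6.VZ476.M7
import Pool.Agent.AKU6.VZ476.M8
import Pool.Agent.AKU6.VZ476.M9
import Pool.Agent.AKU6.VZ476.M10
import Pool.Agent.AKU6.VZ476.M11
import Pool.Agent.AKU6.VZ476.M12
import Pool.Agent.AKU6.VZ476.M13
import Pool.Agent.AKU6.VZ476.M14
import Pool.Agent.AKU6.VZ476.M15
import Pool.Agent.AKU6.VZ476.M16
import Pool.Agent.AKU6.VZ476.M17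
import Pool.Agent.AKU6.VZ476.M18
import Pool.Agent.AKU6.VZ476.M19
import Pool.Agent.AKU6.VZ476.M20
import Pool.Agent.AKU6.VZ476.M21
import Pool.Agent.AKU6.VZ476.M22
import Pool.Agent.AKU6.VZ476.M23
import Pool.Agent.AKU6.VZ476.M24
import Pool.Agent.AKU6.VZ476.M25
import Pool.Agent.AKU6.VZ476.M26
import Pool.Agent.AKU6.VZ476.M27
import Pool.Agent.AKU6.VZ476.M28
import Pool.Agent.AKU6.VZ476.M29
import Pool.Agent.AKU6.VZ476.M30
import Pool.Agent.AKU6.VZ476.M31

set_option autoImplicit false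
set_option maxRecDepth 1000000

namespace Pool.Agent.AKU6.VZ476

open Pool.Agent.AKY Pool.Agent.AKU5

open Finset

theorem hF : ∀ r < 15, okF C TAB r = true := by
  intro r hr
  interval_cases r
  exacts [f0, f1, f2, f3, f4, f5,
    f6, f7, f8, f9, f10, f11,
    f12, f13, f14]

theorem hR : ∀ r < 15, okRk C TAB r = true := by
  intro r hr
  interval_cases r
  exacts [r0, r1, r2, r3, r4, r5,
    r6, r7, r8, r9, r10, r11,
    r12, r13, r14]

theorem hS0 : ∀ k < 8, okS C 0 k = true := by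
  intro k hk
  interval_cases k
  exacts [s0_0, s0_1, s0_2, s0_3, s0_4, s0_5,
    s0_6, s0_7]

theorem hS1 : ∀ k < 8, okS C 1 k = true := by
  intro k hk
  interval_cases k
  exacts [s1_0, s1_1, s1_2, s1_3, s1_4, s1_5,
    s1_6, s1_7]

theorem hS2 : ∀ k < 8, okS C 2 k = true := by
  intro k hk
  interval_cases k
  exacts [s2_0, s2_1, s2_2, s2_3, s2_4, s2_5,
    s2_6, s2_7]

theorem hS3 : ∀ k < 8, okS C 3 k = true := by
  intro k hk
  interval_cases k
  exacts [s3_0, s3_1, s3_2, s3_3, s3_4, s3_5,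
    s3_6, s3_7]

theorem hS4 : ∀ k < 8, okS C 4 k = true := by
  intro k hk
  interval_cases k
  exacts [s4_0, s4_1, s4_2, s4_3, s4_4, s4_5,
    s4_6, s4_7]

theorem hS5 : ∀ k < 8, okS C 5 k = true := by
  intro k hk
  interval_cases k
  exacts [s5_0, s5_1, s5_2, s5_3, s5_4, s5_5,
    s5_6, s5_7]

theorem hS6 : ∀ k < 8, okS C 6 k = true := by
  intro k hk
  interval_cases k
  exacts [s6_0, s6_1, s6_2, s6_3, s6_4, s6_5,
    s6_6, s6_7]

theorem hS7 : ∀ k < 8, okS C 7 k = true := by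
  intro k hk
  interval_cases k
  exacts [s7_0, s7_1, s7_2, s7_3, s7_4, s7_5,
    s7_6, s7_7]

theorem hS8 : ∀ k < 8, okS C 8 k = true := by
  intro k hk
  interval_cases k
  exacts [s8_0, s8_1, s8_2, s8_3, s8_4, s8_5,
    s8_6, s8_7]

theorem hS9 : ∀ k < 8, okS C 9 k = true := by
  intro k hk
  interval_cases k
  exacts [s9_0, s9_1, s9_2, s9_3, s9_4, s9_5,
    s9_6, s9_7]

theorem hS10 : ∀ k < 8, okS C 10 k = true := by
  intro k hk
  interval_cases k
  exacts [s10_0, s10_1, s10_2, s10_3, s10_4, s10_5,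
    s10_6, s10_7]

theorem hS11 : ∀ k < 8, okS C 11 k = true := by
  intro k hk
  interval_cases k
  exacts [s11_0, s11_1, s11_2, s11_3, s11_4, s11_5,
    s11_6, s11_7]

theorem hS12 : ∀ k < 8, okS C 12 k = true := by
  intro k hk
  interval_cases k
  exacts [s12_0, s12_1, s12_2, s12_3, s12_4, s12_5,
    s12_6, s12_7]

theorem hS13 : ∀ k < 8, okS C 13 k = true := by
  intro k hk
  interval_cases k
  exacts [s13_0, s13_1, s13_2, s13_3, s13_4, s13_5,
    s13_6, s13_7]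

theorem hS14 : ∀ k < 8, okS C 14 k = true := by
  intro k hk
  interval_cases k
  exacts [s14_0, s14_1, s14_2, s14_3, s14_4, s14_5,
    s14_6, s14_7]

theorem hS : ∀ r < 15, ∀ k < 8, okS C r k = true := by
  intro r hr
  interval_cases r
  exacts [hS0, hS1, hS2, hS3, hS4, hS5,
    hS6, hS7, hS8, hS9, hS10, hS11,
    hS12, hS13, hS14]

theorem hG0 : ∀ e < 8, okG C TAB 0 e = true := by
  intro e he
  interval_cases e
  exacts [g0_0, g0_1, g0_2, g0_3, g0_4, g0_5,
    g0_6, g0_7]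

theorem hG1 : ∀ e < 8, okG C TAB 1 e = true := by
  intro e he
  interval_cases e
  exacts [g1_0, g1_1, g1_2, g1_3, g1_4, g1_5,
    g1_6, g1_7]

theorem hG2 : ∀ e < 8, okG C TAB 2 e = true := by
  intro e he
  interval_cases e
  exacts [g2_0, g2_1, g2_2, g2_3, g2_4, g2_5,
    g2_6, g2_7]

theorem hG3 : ∀ e < 8, okG C TAB 3 e = true := by
  intro e he
  interval_cases e
  exacts [g3_0, g3_1, g3_2, g3_3, g3_4, g3_5,
    g3_6, g3_7]

theorem hG4 : ∀ e < 8, okG C TAB 4 e = true := by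
  intro e he
  interval_cases e
  exacts [g4_0, g4_1, g4_2, g4_3, g4_4, g4_5,
    g4_6, g4_7]

theorem hG5 : ∀ e < 8, okG C TAB 5 e = true := by
  intro e he
  interval_cases e
  exacts [g5_0, g5_1, g5_2, g5_3, g5_4, g5_5,
    g5_6, g5_7]

theorem hG6 : ∀ e < 8, okG C TAB 6 e = true := by
  intro e he
  interval_cases e
  exacts [g6_0, g6_1, g6_2, g6_3, g6_4, g6_5,
    g6_6, g6_7]

theorem hG7 : ∀ e < 8, okG C TAB 7 e = true := by
  intro e he
  interval_cases e
  exacts [g7_0, g7_1, g7_2, g7_3, g7_4, g7_5,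
    g7_6, g7_7]

theorem hG : ∀ a < 8, ∀ e < 8, okG C TAB a e = true := by
  intro a ha
  interval_cases a
  exacts [hG0, hG1, hG2, hG3, hG4, hG5,
    hG6, hG7]

theorem hM0_0 : ∀ i, 0 ≤ i → i < 40 → chkI C 0 i = true := by
  intro i h1 h2
  interval_cases i
  exacts [m0_0, m0_1, m0_2, m0_3, m0_4, m0_5,
    m0_6, m0_7, m0_8, m0_9, m0_10, m0_11,
    m0_12, m0_13, m0_14, m0_15, m0_16, m0_17,
    m0_18, m0_19, m0_20, m0_21, m0_22, m0_23,
    m0_24, m0_25, m0_26, m0_27, m0_28, m0_29,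
    m0_30, m0_31, m0_32, m0_33, m0_34, m0_35,
    m0_36, m0_37, m0_38, m0_39]

theorem hM0_1 : ∀ i, 40 ≤ i → i < 80 → chkI C 0 i = true := by
  intro i h1 h2
  interval_cases i
  exacts [m0_40, m0_41, m0_42, m0_43, m0_44, m0_45,
    m0_46, m0_47, m0_48, m0_49, m0_50, m0_51,
    m0_52, m0_53, m0_54, m0_55, m0_56, m0_57,
    m0_58, m0_59, m0_60, m0_61, m0_62, m0_63,
    m0_64, m0_65, m0_66, m0_67, m0_68, m0_69,
    m0_70, m0_71, m0_72, m0_73, m0_74, m0_75,
    m0_76, m0_77, m0_78, m0_79]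

theorem hM0_2 : ∀ i, 80 ≤ i → i < 120 → chkI C 0 i = true := by
  intro i h1 h2
  interval_cases i
  exacts [m0_80, m0_81, m0_82, m0_83, m0_84, m0_85,
    m0_86, m0_87, m0_88, m0_89, m0_90, m0_91,
    m0_92, m0_93, m0_94, m0_95, m0_96, m0_97,
    m0_98, m0_99, m0_100, m0_101, m0_102, m0_103,
    m0_104, m0_105, m0_106, m0_107, m0_108, m0_109,
    m0_110, m0_111, m0_112, m0_113, m0_114, m0_115,
    m0_116, m0_117, m0_118, m0_119]

theorem hM0_3 : ∀ i, 120 ≤ i → i < 160 → chkI C 0 i = true := by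
  intro i h1 h2
  interval_cases i
  exacts [m0_120, m0_121, m0_122, m0_123, m0_124, m0_125,
    m0_126, m0_127, m0_128, m0_129, m0_130, m0_131,
    m0_132, m0_133, m0_134, m0_135, m0_136, m0_137,
    m0_138, m0_139, m0_140, m0_141, m0_142, m0_143,
    m0_144, m0_145, m0_146, m0_147, m0_148, m0_149,
    m0_150, m0_151, m0_152, m0_153, m0_154, m0_155,
    m0_156, m0_157, m0_158, m0_159]

theorem hM0_4 : ∀ i, 160 ≤ i → i < 200 → chkI C 0 i = true := by
  intro i h1 h2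
  interval_cases i
  exacts [m0_160, m0_161, m0_162, m0_163, m0_164, m0_165,
    m0_166, m0_167, m0_168, m0_169, m0_170, m0_171,
    m0_172, m0_173, m0_174, m0_175, m0_176, m0_177,
    m0_178, m0_179, m0_180, m0_181, m0_182, m0_183,
    m0_184, m0_185, m0_186, m0_187, m0_188, m0_189,
    m0_190, m0_191, m0_192, m0_193, m0_194, m0_195,
    m0_196, m0_197, m0_198, m0_199]

theorem hM0_5 : ∀ i, 200 ≤ i → i < 240 → chkI C 0 i = true := by
  intro i h1 h2
  interval_cases i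
  exacts [m0_200, m0_201, m0_202, m0_203, m0_204, m0_205,
    m0_206, m0_207, m0_208, m0_209, m0_210, m0_211,
    m0_212, m0_213, m0_214, m0_215, m0_216, m0_217,
    m0_218, m0_219, m0_220, m0_221, m0_222, m0_223,
    m0_224, m0_225, m0_226, m0_227, m0_228, m0_229,
    m0_230, m0_231, m0_232, m0_233, m0_234, m0_235,
    m0_236, m0_237, m0_238, m0_239]

theorem hM0_6 : ∀ i, 240 ≤ i → i < 280 → chkI C 0 i = true := by
  intro i h1 h2
  interval_cases i
  exacts [m0_240, m0_241, m0_242, m0_243, m0_244, m0_245,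
    m0_246, m0_247, m0_248, m0_249, m0_250, m0_251,
    m0_252, m0_253, m0_254, m0_255, m0_256, m0_257,
    m0_258, m0_259, m0_260, m0_261, m0_262, m0_263,
    m0_264, m0_265, m0_266, m0_267, m0_268, m0_269,
    m0_270, m0_271, m0_272, m0_273, m0_274, m0_275,
    m0_276, m0_277, m0_278, m0_279]

theorem hM0_7 : ∀ i, 280 ≤ i → i < 319 → chkI C 0 i = true := by
  intro i h1 h2
  interval_cases i
  exacts [m0_280, m0_281, m0_282, m0_283, m0_284, m0_285,
    m0_286, m0_287, m0_288, m0_289, m0_290, m0_291,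
    m0_292, m0_293, m0_294, m0_295, m0_296, m0_297,
    m0_298, m0_299, m0_300, m0_301, m0_302, m0_303,
    m0_304, m0_305, m0_306, m0_307, m0_308, m0_309,
    m0_310, m0_311, m0_312, m0_313, m0_314, m0_315,
    m0_316, m0_317, m0_318]

theorem hL0 : (rk C 0).L.length = 319 := by decide +kernel

theorem hI0 : ∀ i < (rk C 0).L.length, chkI C 0 i = true := by
  intro i hi
  rw [hL0] at hi
  rcases Nat.lt_or_ge i 40 with h0 | h0
  · exact hM0_0 i (by omega) h0
  rcases Nat.lt_or_ge i 80 with h1 | h1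
  · exact hM0_1 i (by omega) h1
  rcases Nat.lt_or_ge i 120 with h2 | h2
  · exact hM0_2 i (by omega) h2
  rcases Nat.lt_or_ge i 160 with h3 | h3
  · exact hM0_3 i (by omega) h3
  rcases Nat.lt_or_ge i 200 with h4 | h4
  · exact hM0_4 i (by omega) h4
  rcases Nat.lt_or_ge i 240 with h5 | h5
  · exact hM0_5 i (by omega) h5
  rcases Nat.lt_or_ge i 280 with h6 | h6
  · exact hM0_6 i (by omega) h6
  exact hM0_7 i (by omega) (by omega)

theorem hM1_0 : ∀ i, 0 ≤ i → i < 40 → chkI C 1 i = true := by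
  intro i h1 h2
  interval_cases i
  exacts [m1_0, m1_1, m1_2, m1_3, m1_4, m1_5,
    m1_6, m1_7, m1_8, m1_9, m1_10, m1_11,
    m1_12, m1_13, m1_14, m1_15, m1_16, m1_17,
    m1_18, m1_19, m1_20, m1_21, m1_22, m1_23,
    m1_24, m1_25, m1_26, m1_27, m1_28, m1_29,
    m1_30, m1_31, m1_32, m1_33, m1_34, m1_35,
    m1_36, m1_37, m1_38, m1_39]

theorem hM1_1 : ∀ i, 40 ≤ i → i < 80 → chkI C 1 i = true := by
  intro i h1 h2
  interval_cases i
  exacts [m1_40, m1_41, m1_42, m1_43, m1_44, m1_45,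
    m1_46, m1_47, m1_48, m1_49, m1_50, m1_51,
    m1_52, m1_53, m1_54, m1_55, m1_56, m1_57,
    m1_58, m1_59, m1_60, m1_61, m1_62, m1_63,
    m1_64, m1_65, m1_66, m1_67, m1_68, m1_69,
    m1_70, m1_71, m1_72, m1_73, m1_74, m1_75,
    m1_76, m1_77, m1_78, m1_79]

theorem hM1_2 : ∀ i, 80 ≤ i → i < 120 → chkI C 1 i = true := by
  intro i h1 h2
  interval_cases i
  exacts [m1_80, m1_81, m1_82, m1_83, m1_84, m1_85,
    m1_86, m1_87, m1_88, m1_89, m1_90, m1_91,
    m1_92, m1_93, m1_94, m1_95, m1_96, m1_97,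
    m1_98, m1_99, m1_100, m1_101, m1_102, m1_103,
    m1_104, m1_105, m1_106, m1_107, m1_108, m1_109,
    m1_110, m1_111, m1_112, m1_113, m1_114, m1_115,
    m1_116, m1_117, m1_118, m1_119]

theorem hM1_3 : ∀ i, 120 ≤ i → i < 160 → chkI C 1 i = true := by
  intro i h1 h2
  interval_cases i
  exacts [m1_120, m1_121, m1_122, m1_123, m1_124, m1_125,
    m1_126, m1_127, m1_128, m1_129, m1_130, m1_131,
    m1_132, m1_133, m1_134, m1_135, m1_136, m1_137,
    m1_138, m1_139, m1_140, m1_141, m1_142, m1_143,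
    m1_144, m1_145, m1_146, m1_147, m1_148, m1_149,
    m1_150, m1_151, m1_152, m1_153, m1_154, m1_155,
    m1_156, m1_157, m1_158, m1_159]

theorem hM1_4 : ∀ i, 160 ≤ i → i < 200 → chkI C 1 i = true := by
  intro i h1 h2
  interval_cases i
  exacts [m1_160, m1_161, m1_162, m1_163, m1_164, m1_165,
    m1_166, m1_167, m1_168, m1_169, m1_170, m1_171,
    m1_172, m1_173, m1_174, m1_175, m1_176, m1_177,
    m1_178, m1_179, m1_180, m1_181, m1_182, m1_183,
    m1_184, m1_185, m1_186, m1_187, m1_188, m1_189,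
    m1_190, m1_191, m1_192, m1_193, m1_194, m1_195,
    m1_196, m1_197, m1_198, m1_199]

theorem hM1_5 : ∀ i, 200 ≤ i → i < 240 → chkI C 1 i = true := by
  intro i h1 h2
  interval_cases i
  exacts [m1_200, m1_201, m1_202, m1_203, m1_204, m1_205,
    m1_206, m1_207, m1_208, m1_209, m1_210, m1_211,
    m1_212, m1_213, m1_214, m1_215, m1_216, m1_217,
    m1_218, m1_219, m1_220, m1_221, m1_222, m1_223,
    m1_224, m1_225, m1_226, m1_227, m1_228, m1_229,
    m1_230, m1_231, m1_232, m1_233, m1_234, m1_235,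
    m1_236, m1_237, m1_238, m1_239]

theorem hM1_6 : ∀ i, 240 ≤ i → i < 241 → chkI C 1 i = true := by
  intro i h1 h2
  interval_cases i
  exacts [m1_240]

theorem hL1 : (rk C 1).L.length = 241 := by decide +kernel

theorem hI1 : ∀ i < (rk C 1).L.length, chkI C 1 i = true := by
  intro i hi
  rw [hL1] at hi
  rcases Nat.lt_or_ge i 40 with h0 | h0
  · exact hM1_0 i (by omega) h0
  rcases Nat.lt_or_ge i 80 with h1 | h1
  · exact hM1_1 i (by omega) h1
  rcases Nat.lt_or_ge i 120 with h2 | h2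
  · exact hM1_2 i (by omega) h2
  rcases Nat.lt_or_ge i 160 with h3 | h3
  · exact hM1_3 i (by omega) h3
  rcases Nat.lt_or_ge i 200 with h4 | h4
  · exact hM1_4 i (by omega) h4
  rcases Nat.lt_or_ge i 240 with h5 | h5
  · exact hM1_5 i (by omega) h5
  exact hM1_6 i (by omega) (by omega)

theorem hM2_0 : ∀ i, 0 ≤ i → i < 40 → chkI C 2 i = true := by
  intro i h1 h2
  interval_cases i
  exacts [m2_0, m2_1, m2_2, m2_3, m2_4, m2_5,
    m2_6, m2_7, m2_8, m2_9, m2_10, m2_11,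
    m2_12, m2_13, m2_14, m2_15, m2_16, m2_17,
    m2_18, m2_19, m2_20, m2_21, m2_22, m2_23,
    m2_24, m2_25, m2_26, m2_27, m2_28, m2_29,
    m2_30, m2_31, m2_32, m2_33, m2_34, m2_35,
    m2_36, m2_37, m2_38, m2_39]

theorem hM2_1 : ∀ i, 40 ≤ i → i < 80 → chkI C 2 i = true := by
  intro i h1 h2
  interval_cases i
  exacts [m2_40, m2_41, m2_42, m2_43, m2_44, m2_45,
    m2_46, m2_47, m2_48, m2_49, m2_50, m2_51,
    m2_52, m2_53, m2_54, m2_55, m2_56, m2_57,
    m2_58, m2_59, m2_60, m2_61, m2_62, m2_63,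
    m2_64, m2_65, m2_66, m2_67, m2_68, m2_69,
    m2_70, m2_71, m2_72, m2_73, m2_74, m2_75,
    m2_76, m2_77, m2_78, m2_79]

theorem hM2_2 : ∀ i, 80 ≤ i → i < 120 → chkI C 2 i = true := by
  intro i h1 h2
  interval_cases i
  exacts [m2_80, m2_81, m2_82, m2_83, m2_84, m2_85,
    m2_86, m2_87, m2_88, m2_89, m2_90, m2_91,
    m2_92, m2_93, m2_94, m2_95, m2_96, m2_97,
    m2_98, m2_99, m2_100, m2_101, m2_102, m2_103,
    m2_104, m2_105, m2_106, m2_107, m2_108, m2_109,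
    m2_110, m2_111, m2_112, m2_113, m2_114, m2_115,
    m2_116, m2_117, m2_118, m2_119]

theorem hM2_3 : ∀ i, 120 ≤ i → i < 154 → chkI C 2 i = true := by
  intro i h1 h2
  interval_cases i
  exacts [m2_120, m2_121, m2_122, m2_123, m2_124, m2_125,
    m2_126, m2_127, m2_128, m2_129, m2_130, m2_131,
    m2_132, m2_133, m2_134, m2_135, m2_136, m2_137,
    m2_138, m2_139, m2_140, m2_141, m2_142, m2_143,
    m2_144, m2_145, m2_146, m2_147, m2_148, m2_149,
    m2_150, m2_151, m2_152, m2_153]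

theorem hL2 : (rk C 2).L.length = 154 := by decide +kernel

theorem hI2 : ∀ i < (rk C 2).L.length, chkI C 2 i = true := by
  intro i hi
  rw [hL2] at hi
  rcases Nat.lt_or_ge i 40 with h0 | h0
  · exact hM2_0 i (by omega) h0
  rcases Nat.lt_or_ge i 80 with h1 | h1
  · exact hM2_1 i (by omega) h1
  rcases Nat.lt_or_ge i 120 with h2 | h2
  · exact hM2_2 i (by omega) h2
  exact hM2_3 i (by omega) (by omega)

theorem hM3_0 : ∀ i, 0 ≤ i → i < 40 → chkI C 3 i = true := by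
  intro i h1 h2
  interval_cases i
  exacts [m3_0, m3_1, m3_2, m3_3, m3_4, m3_5,
    m3_6, m3_7, m3_8, m3_9, m3_10, m3_11,
    m3_12, m3_13, m3_14, m3_15, m3_16, m3_17,
    m3_18, m3_19, m3_20, m3_21, m3_22, m3_23,
    m3_24, m3_25, m3_26, m3_27, m3_28, m3_29,
    m3_30, m3_31, m3_32, m3_33, m3_34, m3_35,
    m3_36, m3_37, m3_38, m3_39]

theorem hM3_1 : ∀ i, 40 ≤ i → i < 80 → chkI C 3 i = true := by
  intro i h1 h2
  interval_cases i
  exacts [m3_40, m3_41, m3_42, m3_43, m3_44, m3_45,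
    m3_46, m3_47, m3_48, m3_49, m3_50, m3_51,
    m3_52, m3_53, m3_54, m3_55, m3_56, m3_57,
    m3_58, m3_59, m3_60, m3_61, m3_62, m3_63,
    m3_64, m3_65, m3_66, m3_67, m3_68, m3_69,
    m3_70, m3_71, m3_72, m3_73, m3_74, m3_75,
    m3_76, m3_77, m3_78, m3_79]

theorem hM3_2 : ∀ i, 80 ≤ i → i < 120 → chkI C 3 i = true := by
  intro i h1 h2
  interval_cases i
  exacts [m3_80, m3_81, m3_82, m3_83, m3_84, m3_85,
    m3_86, m3_87, m3_88, m3_89, m3_90, m3_91,
    m3_92, m3_93, m3_94, m3_95, m3_96, m3_97,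
    m3_98, m3_99, m3_100, m3_101, m3_102, m3_103,
    m3_104, m3_105, m3_106, m3_107, m3_108, m3_109,
    m3_110, m3_111, m3_112, m3_113, m3_114, m3_115,
    m3_116, m3_117, m3_118, m3_119]

theorem hM3_3 : ∀ i, 120 ≤ i → i < 133 → chkI C 3 i = true := by
  intro i h1 h2
  interval_cases i
  exacts [m3_120, m3_121, m3_122, m3_123, m3_124, m3_125,
    m3_126, m3_127, m3_128, m3_129, m3_130, m3_131,
    m3_132]

theorem hL3 : (rk C 3).L.length = 133 := by decide +kernel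

theorem hI3 : ∀ i < (rk C 3).L.length, chkI C 3 i = true := by
  intro i hi
  rw [hL3] at hi
  rcases Nat.lt_or_ge i 40 with h0 | h0
  · exact hM3_0 i (by omega) h0
  rcases Nat.lt_or_ge i 80 with h1 | h1
  · exact hM3_1 i (by omega) h1
  rcases Nat.lt_or_ge i 120 with h2 | h2
  · exact hM3_2 i (by omega) h2
  exact hM3_3 i (by omega) (by omega)

theorem hM4_0 : ∀ i, 0 ≤ i → i < 40 → chkI C 4 i = true := by
  intro i h1 h2
  interval_cases i
  exacts [m4_0, m4_1, m4_2, m4_3, m4_4, m4_5,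
    m4_6, m4_7, m4_8, m4_9, m4_10, m4_11,
    m4_12, m4_13, m4_14, m4_15, m4_16, m4_17,
    m4_18, m4_19, m4_20, m4_21, m4_22, m4_23,
    m4_24, m4_25, m4_26, m4_27, m4_28, m4_29,
    m4_30, m4_31, m4_32, m4_33, m4_34, m4_35,
    m4_36, m4_37, m4_38, m4_39]

theorem hM4_1 : ∀ i, 40 ≤ i → i < 80 → chkI C 4 i = true := by
  intro i h1 h2
  interval_cases i
  exacts [m4_40, m4_41, m4_42, m4_43, m4_44, m4_45,
    m4_46, m4_47, m4_48, m4_49, m4_50, m4_51,
    m4_52, m4_53, m4_54, m4_55, m4_56, m4_57,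
    m4_58, m4_59, m4_60, m4_61, m4_62, m4_63,
    m4_64, m4_65, m4_66, m4_67, m4_68, m4_69,
    m4_70, m4_71, m4_72, m4_73, m4_74, m4_75,
    m4_76, m4_77, m4_78, m4_79]

theorem hM4_2 : ∀ i, 80 ≤ i → i < 90 → chkI C 4 i = true := by
  intro i h1 h2
  interval_cases i
  exacts [m4_80, m4_81, m4_82, m4_83, m4_84, m4_85,
    m4_86, m4_87, m4_88, m4_89]

theorem hL4 : (rk C 4).L.length = 90 := by decide +kernel

theorem hI4 : ∀ i < (rk C 4).L.length, chkI C 4 i = true := by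
  intro i hi
  rw [hL4] at hi
  rcases Nat.lt_or_ge i 40 with h0 | h0
  · exact hM4_0 i (by omega) h0
  rcases Nat.lt_or_ge i 80 with h1 | h1
  · exact hM4_1 i (by omega) h1
  exact hM4_2 i (by omega) (by omega)

theorem hM5_0 : ∀ i, 0 ≤ i → i < 40 → chkI C 5 i = true := by
  intro i h1 h2
  interval_cases i
  exacts [m5_0, m5_1, m5_2, m5_3, m5_4, m5_5,
    m5_6, m5_7, m5_8, m5_9, m5_10, m5_11,
    m5_12, m5_13, m5_14, m5_15, m5_16, m5_17,
    m5_18, m5_19, m5_20, m5_21, m5_22, m5_23,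
    m5_24, m5_25, m5_26, m5_27, m5_28, m5_29,
    m5_30, m5_31, m5_32, m5_33, m5_34, m5_35,
    m5_36, m5_37, m5_38, m5_39]

theorem hM5_1 : ∀ i, 40 ≤ i → i < 56 → chkI C 5 i = true := by
  intro i h1 h2
  interval_cases i
  exacts [m5_40, m5_41, m5_42, m5_43, m5_44, m5_45,
    m5_46, m5_47, m5_48, m5_49, m5_50, m5_51,
    m5_52, m5_53, m5_54, m5_55]

theorem hL5 : (rk C 5).L.length = 56 := by decide +kernel

theorem hI5 : ∀ i < (rk C 5).L.length, chkI C 5 i = true := by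
  intro i hi
  rw [hL5] at hi
  rcases Nat.lt_or_ge i 40 with h0 | h0
  · exact hM5_0 i (by omega) h0
  exact hM5_1 i (by omega) (by omega)

theorem hM6_0 : ∀ i, 0 ≤ i → i < 28 → chkI C 6 i = true := by
  intro i h1 h2
  interval_cases i
  exacts [m6_0, m6_1, m6_2, m6_3, m6_4, m6_5,
    m6_6, m6_7, m6_8, m6_9, m6_10, m6_11,
    m6_12, m6_13, m6_14, m6_15, m6_16, m6_17,
    m6_18, m6_19, m6_20, m6_21, m6_22, m6_23,
    m6_24, m6_25, m6_26, m6_27]

theorem hL6 : (rk C 6).L.length = 28 := by decide +kernel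

theorem hI6 : ∀ i < (rk C 6).L.length, chkI C 6 i = true := by
  intro i hi
  rw [hL6] at hi
  exact hM6_0 i (by omega) (by omega)

theorem hM7_0 : ∀ i, 0 ≤ i → i < 16 → chkI C 7 i = true := by
  intro i h1 h2
  interval_cases i
  exacts [m7_0, m7_1, m7_2, m7_3, m7_4, m7_5,
    m7_6, m7_7, m7_8, m7_9, m7_10, m7_11,
    m7_12, m7_13, m7_14, m7_15]

theorem hL7 : (rk C 7).L.length = 16 := by decide +kernel

theorem hI7 : ∀ i < (rk C 7).L.length, chkI C 7 i = true := by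
  intro i hi
  rw [hL7] at hi
  exact hM7_0 i (by omega) (by omega)

theorem hM8_0 : ∀ i, 0 ≤ i → i < 12 → chkI C 8 i = true := by
  intro i h1 h2
  interval_cases i
  exacts [m8_0, m8_1, m8_2, m8_3, m8_4, m8_5,
    m8_6, m8_7, m8_8, m8_9, m8_10, m8_11]

theorem hL8 : (rk C 8).L.length = 12 := by decide +kernel

theorem hI8 : ∀ i < (rk C 8).L.length, chkI C 8 i = true := by
  intro i hi
  rw [hL8] at hi
  exact hM8_0 i (by omega) (by omega)

theorem hL9 : (rk C 9).L.length = 0 := by decide +kernel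

theorem hI9 : ∀ i < (rk C 9).L.length, chkI C 9 i = true := by
  intro i hi
  rw [hL9] at hi
  exact absurd hi (by omega)

theorem hM10_0 : ∀ i, 0 ≤ i → i < 16 → chkI C 10 i = true := by
  intro i h1 h2
  interval_cases i
  exacts [m10_0, m10_1, m10_2, m10_3, m10_4, m10_5,
    m10_6, m10_7, m10_8, m10_9, m10_10, m10_11,
    m10_12, m10_13, m10_14, m10_15]

theorem hL10 : (rk C 10).L.length = 16 := by decide +kernel

theorem hI10 : ∀ i < (rk C 10).L.length, chkI C 10 i = true := by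
  intro i hi
  rw [hL10] at hi
  exact hM10_0 i (by omega) (by omega)

theorem hM11_0 : ∀ i, 0 ≤ i → i < 5 → chkI C 11 i = true := by
  intro i h1 h2
  interval_cases i
  exacts [m11_0, m11_1, m11_2, m11_3, m11_4]

theorem hL11 : (rk C 11).L.length = 5 := by decide +kernel

theorem hI11 : ∀ i < (rk C 11).L.length, chkI C 11 i = true := by
  intro i hi
  rw [hL11] at hi
  exact hM11_0 i (by omega) (by omega)

theorem hL12 : (rk C 12).L.length = 0 := by decide +kernel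

theorem hI12 : ∀ i < (rk C 12).L.length, chkI C 12 i = true := by
  intro i hi
  rw [hL12] at hi
  exact absurd hi (by omega)

theorem hL13 : (rk C 13).L.length = 0 := by decide +kernel

theorem hI13 : ∀ i < (rk C 13).L.length, chkI C 13 i = true := by
  intro i hi
  rw [hL13] at hi
  exact absurd hi (by omega)

theorem hL14 : (rk C 14).L.length = 0 := by decide +kernel

theorem hI14 : ∀ i < (rk C 14).L.length, chkI C 14 i = true := by
  intro i hi
  rw [hL14] at hi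
  exact absurd hi (by omega)

theorem hI : ∀ r < 15, ∀ i < (rk C r).L.length, chkI C r i = true := by
  intro r hr
  interval_cases r
  exacts [hI0, hI1, hI2, hI3, hI4, hI5,
    hI6, hI7, hI8, hI9, hI10, hI11,
    hI12, hI13, hI14]

theorem hy {w : ℕ → ℤ} (hw : ∀ s : S4, s.a < 8 → s.b < 8 → s.c < 8 → s.d < 8 →
    TAB.testBit (cdS s) = true → s.a % 4 = 0 → w (cdS s) = lq C.W (lb IX (cdS s))) : Hy C TAB w :=
  ⟨kW, fun _ hr => rf_of kR kR2 kA hr, vf_of kC, hF, hS, hw⟩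

/-- **the certificate** -/
theorem fin6 {w : ℕ → ℤ} (hw : ∀ s : S4, s.a < 8 → s.b < 8 → s.c < 8 → s.d < 8 →
    TAB.testBit (cdS s) = true → s.a % 4 = 0 → w (cdS s) = lq C.W (lb IX (cdS s)))
    {G : Cfg (Fin 6)} (h : G.Ok TAB) :
    ∑ s : Equiv.Perm (Fin 6), T C w G ⟨s 0, s 1, s 2, s 3⟩ (s 4) (s 5) ≤ -C.og :=
  engine6 (hy hw) kT hG hR hI h

theorem og_pos : 0 < C.og := by decide +kernel

theorem rf : ∀ r < 15, RF C TAB r := fun _ hr => rf_of kR kR2 kA hr

end Pool.Agent.AKU6.VZ476
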