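import Pool.Agent.AKU6.VZ476.C

set_option autoImplicit false
set_option maxRecDepth 1000000

namespace Pool.Agent.AKU6.VZ476

open Pool.Agent.AKY Pool.Agent.AKU5

theorem all_M17 :
    chkI C 0 0 = true ∧
    chkI C 0 74 = true ∧
    chkI C 0 89 = true ∧
    chkI C 0 99 = true ∧
    chkI C 0 100 = true ∧
    chkI C 0 260 = true ∧
    chkI C 0 292 = true ∧
    chkI C 1 1 = true ∧
    chkI C 1 21 = true ∧
    chkI C 1 24 = true ∧
    chkI C 1 53 = true ∧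
    chkI C 1 66 = true ∧
    chkI C 1 80 = true ∧
    chkI C 1 166 = true ∧
    chkI C 1 182 = true ∧
    chkI C 1 219 = true ∧
    chkI C 1 233 = true ∧
    chkI C 2 16 = true ∧
    chkI C 2 40 = true ∧
    chkI C 2 56 = true ∧
    chkI C 2 59 = true ∧
    chkI C 2 75 = true ∧
    chkI C 2 92 = true ∧
    chkI C 2 101 = true ∧
    chkI C 2 124 = true ∧
    chkI C 3 29 = true ∧
    chkI C 3 66 = true ∧
    chkI C 3 72 = true ∧
    chkI C 3 130 = true ∧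
    chkI C 4 6 = true ∧
    chkI C 5 39 = true ∧
    chkI C 6 10 = true ∧
    chkI C 7 2 = true :=
  ⟨by decide +kernel, by decide +kernel, by decide +kernel,
   by decide +kernel, by decide +kernel, by decide +kernel,
   by decide +kernel, by decide +kernel, by decide +kernel,
   by decide +kernel, by decide +kernel, by decide +kernel,
   by decide +kernel, by decide +kernel, by decide +kernel,
   by decide +kernel, by decide +kernel, by decide +kernel,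
   by decide +kernel, by decide +kernel, by decide +kernel,
   by decide +kernel, by decide +kernel, by decide +kernel,
   by decide +kernel, by decide +kernel, by decide +kernel,
   by decide +kernel, by decide +kernel, by decide +kernel,
   by decide +kernel, by decide +kernel, by decide +kernel⟩

theorem m0_0 : chkI C 0 0 = true := all_M17.1
theorem m0_74 : chkI C 0 74 = true := all_M17.2.1
theorem m0_89 : chkI C 0 89 = true := all_M17.2.2.1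
theorem m0_99 : chkI C 0 99 = true := all_M17.2.2.2.1
theorem m0_100 : chkI C 0 100 = true := all_M17.2.2.2.2.1
theorem m0_260 : chkI C 0 260 = true := all_M17.2.2.2.2.2.1
theorem m0_292 : chkI C 0 292 = true := all_M17.2.2.2.2.2.2.1
theorem m1_1 : chkI C 1 1 = true := all_M17.2.2.2.2.2.2.2.1
theorem m1_21 : chkI C 1 21 = true := all_M17.2.2.2.2.2.2.2.2.1
theorem m1_24 : chkI C 1 24 = true := all_M17.2.2.2.2.2.2.2.2.2.1
theorem m1_53 : chkI C 1 53 = true := all_M17.2.2.2.2.2.2.2.2.2.2.1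
theorem m1_66 : chkI C 1 66 = true := all_M17.2.2.2.2.2.2.2.2.2.2.2.1
theorem m1_80 : chkI C 1 80 = true := all_M17.2.2.2.2.2.2.2.2.2.2.2.2.1
theorem m1_166 : chkI C 1 166 = true := all_M17.2.2.2.2.2.2.2.2.2.2.2.2.2.1
theorem m1_182 : chkI C 1 182 = true := all_M17.2.2.2.2.2.2.2.2.2.2.2.2.2.2.1
theorem m1_219 : chkI C 1 219 = true := all_M17.2.2.2.2.2.2.2.2.2.2.2.2.2.2.2.1
theorem m1_233 : chkI C 1 233 = true := all_M17.2.2.2.2.2.2.2.2.2.2.2.2.2.2.2.2.1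
theorem m2_16 : chkI C 2 16 = true := all_M17.2.2.2.2.2.2.2.2.2.2.2.2.2.2.2.2.2.1
theorem m2_40 : chkI C 2 40 = true := all_M17.2.2.2.2.2.2.2.2.2.2.2.2.2.2.2.2.2.2.1
theorem m2_56 : chkI C 2 56 = true := all_M17.2.2.2.2.2.2.2.2.2.2.2.2.2.2.2.2.2.2.2.1
theorem m2_59 : chkI C 2 59 = true := all_M17.2.2.2.2.2.2.2.2.2.2.2.2.2.2.2.2.2.2.2.2.1
theorem m2_75 : chkI C 2 75 = true := all_M17.2.2.2.2.2.2.2.2.2.2.2.2.2.2.2.2.2.2.2.2.2.1
theorem m2_92 : chkI C 2 92 = true := all_M17.2.2.2.2.2.2.2.2.2.2.2.2.2.2.2.2.2.2.2.2.2.2.1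
theorem m2_101 : chkI C 2 101 = true := all_M17.2.2.2.2.2.2.2.2.2.2.2.2.2.2.2.2.2.2.2.2.2.2.2.1
theorem m2_124 : chkI C 2 124 = true := all_M17.2.2.2.2.2.2.2.2.2.2.2.2.2.2.2.2.2.2.2.2.2.2.2.2.1
theorem m3_29 : chkI C 3 29 = true := all_M17.2.2.2.2.2.2.2.2.2.2.2.2.2.2.2.2.2.2.2.2.2.2.2.2.2.1
theorem m3_66 : chkI C 3 66 = true := all_M17.2.2.2.2.2.2.2.2.2.2.2.2.2.2.2.2.2.2.2.2.2.2.2.2.2.2.1
theorem m3_72 : chkI C 3 72 = true := all_M17.2.2.2.2.2.2.2.2.2.2.2.2.2.2.2.2.2.2.2.2.2.2.2.2.2.2.2.1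
theorem m3_130 : chkI C 3 130 = true := all_M17.2.2.2.2.2.2.2.2.2.2.2.2.2.2.2.2.2.2.2.2.2.2.2.2.2.2.2.2.1
theorem m4_6 : chkI C 4 6 = true := all_M17.2.2.2.2.2.2.2.2.2.2.2.2.2.2.2.2.2.2.2.2.2.2.2.2.2.2.2.2.2.1
theorem m5_39 : chkI C 5 39 = true := all_M17.2.2.2.2.2.2.2.2.2.2.2.2.2.2.2.2.2.2.2.2.2.2.2.2.2.2.2.2.2.2.1
theorem m6_10 : chkI C 6 10 = true := all_M17.2.2.2.2.2.2.2.2.2.2.2.2.2.2.2.2.2.2.2.2.2.2.2.2.2.2.2.2.2.2.2.1
theorem m7_2 : chkI C 7 2 = true := all_M17.2.2.2.2.2.2.2.2.2.2.2.2.2.2.2.2.2.2.2.2.2.2.2.2.2.2.2.2.2.2.2.2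

end Pool.Agent.AKU6.VZ476
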