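import Pool.Agent.AKU6.VZ476.C

set_option autoImplicit false
set_option maxRecDepth 1000000

namespace Pool.Agent.AKU6.VZ476

open Pool.Agent.AKY Pool.Agent.AKU5

theorem all_M2 :
    chkI C 0 3 = true ∧
    chkI C 0 37 = true ∧
    chkI C 0 67 = true ∧
    chkI C 0 93 = true ∧
    chkI C 0 116 = true ∧
    chkI C 0 154 = true ∧
    chkI C 0 173 = true ∧
    chkI C 0 184 = true ∧
    chkI C 0 212 = true ∧
    chkI C 0 229 = true ∧
    chkI C 0 295 = true ∧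
    chkI C 1 51 = true ∧
    chkI C 1 117 = true ∧
    chkI C 1 149 = true ∧
    chkI C 1 155 = true ∧
    chkI C 1 157 = true ∧
    chkI C 1 175 = true ∧
    chkI C 1 203 = true ∧
    chkI C 1 222 = true ∧
    chkI C 2 18 = true ∧
    chkI C 2 63 = true ∧
    chkI C 2 104 = true ∧
    chkI C 3 74 = true ∧
    chkI C 3 92 = true ∧
    chkI C 3 99 = true ∧
    chkI C 3 120 = true ∧
    chkI C 4 3 = true ∧
    chkI C 4 21 = true ∧
    chkI C 4 75 = true ∧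
    chkI C 5 26 = true ∧
    chkI C 10 6 = true ∧
    chkI C 10 10 = true ∧
    chkI C 11 1 = true :=
  ⟨by decide +kernel, by decide +kernel, by decide +kernel,
   by decide +kernel, by decide +kernel, by decide +kernel,
   by decide +kernel, by decide +kernel, by decide +kernel,
   by decide +kernel, by decide +kernel, by decide +kernel,
   by decide +kernel, by decide +kernel, by decide +kernel,
   by decide +kernel, by decide +kernel, by decide +kernel,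
   by decide +kernel, by decide +kernel, by decide +kernel,
   by decide +kernel, by decide +kernel, by decide +kernel,
   by decide +kernel, by decide +kernel, by decide +kernel,
   by decide +kernel, by decide +kernel, by decide +kernel,
   by decide +kernel, by decide +kernel, by decide +kernel⟩

theorem m0_3 : chkI C 0 3 = true := all_M2.1
theorem m0_37 : chkI C 0 37 = true := all_M2.2.1
theorem m0_67 : chkI C 0 67 = true := all_M2.2.2.1
theorem m0_93 : chkI C 0 93 = true := all_M2.2.2.2.1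
theorem m0_116 : chkI C 0 116 = true := all_M2.2.2.2.2.1
theorem m0_154 : chkI C 0 154 = true := all_M2.2.2.2.2.2.1
theorem m0_173 : chkI C 0 173 = true := all_M2.2.2.2.2.2.2.1
theorem m0_184 : chkI C 0 184 = true := all_M2.2.2.2.2.2.2.2.1
theorem m0_212 : chkI C 0 212 = true := all_M2.2.2.2.2.2.2.2.2.1
theorem m0_229 : chkI C 0 229 = true := all_M2.2.2.2.2.2.2.2.2.2.1
theorem m0_295 : chkI C 0 295 = true := all_M2.2.2.2.2.2.2.2.2.2.2.1
theorem m1_51 : chkI C 1 51 = true := all_M2.2.2.2.2.2.2.2.2.2.2.2.1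
theorem m1_117 : chkI C 1 117 = true := all_M2.2.2.2.2.2.2.2.2.2.2.2.2.1
theorem m1_149 : chkI C 1 149 = true := all_M2.2.2.2.2.2.2.2.2.2.2.2.2.2.1
theorem m1_155 : chkI C 1 155 = true := all_M2.2.2.2.2.2.2.2.2.2.2.2.2.2.2.1
theorem m1_157 : chkI C 1 157 = true := all_M2.2.2.2.2.2.2.2.2.2.2.2.2.2.2.2.1
theorem m1_175 : chkI C 1 175 = true := all_M2.2.2.2.2.2.2.2.2.2.2.2.2.2.2.2.2.1
theorem m1_203 : chkI C 1 203 = true := all_M2.2.2.2.2.2.2.2.2.2.2.2.2.2.2.2.2.2.1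
theorem m1_222 : chkI C 1 222 = true := all_M2.2.2.2.2.2.2.2.2.2.2.2.2.2.2.2.2.2.2.1
theorem m2_18 : chkI C 2 18 = true := all_M2.2.2.2.2.2.2.2.2.2.2.2.2.2.2.2.2.2.2.2.1
theorem m2_63 : chkI C 2 63 = true := all_M2.2.2.2.2.2.2.2.2.2.2.2.2.2.2.2.2.2.2.2.2.1
theorem m2_104 : chkI C 2 104 = true := all_M2.2.2.2.2.2.2.2.2.2.2.2.2.2.2.2.2.2.2.2.2.2.1
theorem m3_74 : chkI C 3 74 = true := all_M2.2.2.2.2.2.2.2.2.2.2.2.2.2.2.2.2.2.2.2.2.2.2.1
theorem m3_92 : chkI C 3 92 = true := all_M2.2.2.2.2.2.2.2.2.2.2.2.2.2.2.2.2.2.2.2.2.2.2.2.1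
theorem m3_99 : chkI C 3 99 = true := all_M2.2.2.2.2.2.2.2.2.2.2.2.2.2.2.2.2.2.2.2.2.2.2.2.2.1
theorem m3_120 : chkI C 3 120 = true := all_M2.2.2.2.2.2.2.2.2.2.2.2.2.2.2.2.2.2.2.2.2.2.2.2.2.2.1
theorem m4_3 : chkI C 4 3 = true := all_M2.2.2.2.2.2.2.2.2.2.2.2.2.2.2.2.2.2.2.2.2.2.2.2.2.2.2.1
theorem m4_21 : chkI C 4 21 = true := all_M2.2.2.2.2.2.2.2.2.2.2.2.2.2.2.2.2.2.2.2.2.2.2.2.2.2.2.2.1
theorem m4_75 : chkI C 4 75 = true := all_M2.2.2.2.2.2.2.2.2.2.2.2.2.2.2.2.2.2.2.2.2.2.2.2.2.2.2.2.2.1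
theorem m5_26 : chkI C 5 26 = true := all_M2.2.2.2.2.2.2.2.2.2.2.2.2.2.2.2.2.2.2.2.2.2.2.2.2.2.2.2.2.2.1
theorem m10_6 : chkI C 10 6 = true := all_M2.2.2.2.2.2.2.2.2.2.2.2.2.2.2.2.2.2.2.2.2.2.2.2.2.2.2.2.2.2.2.1
theorem m10_10 : chkI C 10 10 = true := all_M2.2.2.2.2.2.2.2.2.2.2.2.2.2.2.2.2.2.2.2.2.2.2.2.2.2.2.2.2.2.2.2.1
theorem m11_1 : chkI C 11 1 = true := all_M2.2.2.2.2.2.2.2.2.2.2.2.2.2.2.2.2.2.2.2.2.2.2.2.2.2.2.2.2.2.2.2.2

end Pool.Agent.AKU6.VZ476
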