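import Pool.Agent.AKU6.VZ476.C

set_option autoImplicit false
set_option maxRecDepth 1000000

namespace Pool.Agent.AKU6.VZ476

open Pool.Agent.AKY Pool.Agent.AKU5

theorem all_S11 :
    okS C 13 2 = true ∧
    okS C 10 4 = true ∧
    okS C 7 2 = true ∧
    okS C 12 1 = true ∧
    okS C 4 2 = true ∧
    okS C 0 3 = true :=
  ⟨by decide +kernel, by decide +kernel, by decide +kernel,
   by decide +kernel, by decide +kernel, by decide +kernel⟩

theorem s13_2 : okS C 13 2 = true := all_S11.1
theorem s10_4 : okS C 10 4 = true := all_S11.2.1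
theorem s7_2 : okS C 7 2 = true := all_S11.2.2.1
theorem s12_1 : okS C 12 1 = true := all_S11.2.2.2.1
theorem s4_2 : okS C 4 2 = true := all_S11.2.2.2.2.1
theorem s0_3 : okS C 0 3 = true := all_S11.2.2.2.2.2

end Pool.Agent.AKU6.VZ476
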